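import Pool.Agent.W986.Dat.Tab0
import Pool.Agent.W986.Dat.Tab1
import Pool.Agent.W986.Dat.Tab2
import Pool.Agent.W986.Dat.Tab3
import Pool.Agent.W986.Dat.Tab4
import Pool.Agent.W986.Dat.Tab5
import Pool.Agent.W986.Dat.Tab6
import Pool.Agent.W986.Dat.Tab7
import Pool.Agent.W986.Dat.Tab8
import Pool.Agent.W986.Dat.Tab9
import Pool.Agent.W986.Dat.Tab10
import Pool.Agent.W986.Dat.Tab11
import Pool.Agent.W986.Dat.Tab12
import Pool.Agent.W986.Dat.Tab13
import Pool.Agent.W986.Dat.Tab14
import Pool.Agent.W986.Dat.Tab15

/-!
# The table of facts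
-/

set_option autoImplicit false

namespace Pool.Agent.W986.ST.Dat

open Pool.Agent.W986.ST

/-- The facts in pieces of 64. -/
noncomputable def ts : List (List Fact) := [p0, p1, p2, p3, p4, p5, p6, p7, p8, p9, p10, p11, p12, p13, p14, p15, p16, p17, p18, p19, p20, p21, p22, p23, p24, p25, p26, p27, p28, p29, p30, p31, p32, p33, p34, p35, p36, p37, p38, p39, p40, p41, p42, p43, p44, p45, p46, p47, p48, p49, p50, p51, p52, p53, p54, p55, p56, p57, p58, p59, p60, p61, p62, p63, p64, p65, p66, p67, p68, p69, p70, p71, p72, p73, p74, p75, p76, p77, p78, p79, p80, p81, p82, p83, p84, p85, p86, p87, p88, p89, p90, p91, p92, p93, p94, p95, p96, p97, p98, p99, p100, p101, p102, p103, p104, p105, p106, p107, p108, p109, p110, p111, p112, p113, p114, p115, p116, p117, p118, p119, p120, p121, p122, p123, p124, p125, p126, p127, p128, p129, p130, p131, p132, p133, p134, p135, p136, p137, p138, p139, p140, p141, p142, p143, p144, p145, p146, p147, p148, p149, p150, p151, p152, p153, p154, p155, p156, p157, p158, p159, p160, p161, p162, p163, p164, p165, p166, p167,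 p168, p169, p170, p171, p172, p173, p174, p175, p176, p177, p178, p179, p180, p181, p182, p183, p184, p185, p186, p187, p188, p189, p190, p191, p192, p193, p194, p195, p196, p197, p198, p199, p200, p201, p202, p203, p204, p205, p206, p207, p208, p209, p210, p211, p212, p213, p214, p215, p216, p217, p218, p219, p220, p221, p222, p223, p224, p225, p226, p227, p228, p229, p230, p231, p232, p233, p234, p235, p236, p237, p238, p239, p240, p241, p242, p243, p244, p245, p246, p247, p248, p249]

end Pool.Agent.W986.ST.Dat
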