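import Pool.Agent.W986.SubX
import Pool.Agent.W986.Dat.Tab

/-!
# The small patches and the roots are facts of the table
-/

set_option autoImplicit false

namespace Pool.Agent.W986.ST.Dat

open Pool.Agent.W986 Pool.Agent.W986.ST

theorem small_ok : inTab (fidx ts) 3918 true ST.small
    [3891, 3892, 3893, 3894, 3895, 3896, 3897, 3898] = true := by
  decide +kernel

theorem root_ok : inTab (fidx ts) 15865 false
    [rootP 5, rootP 6, rootP 7, rootP 8, rootP 9, rootP 10, rootP 11]
    [15864, 15863, 15862, 15861, 15860, 15859, 15858] = true := by
  decide +kernel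

theorem big_ok : inTab (flm (fidx ts) 3918 15865) 15992 false rootsB
    [15958, 15969, 15974, 15978, 15983, 15991] = true := by
  decide +kernel

end Pool.Agent.W986.ST.Dat
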