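import Pool.Agent.W986.SubXC
import Pool.Agent.W986.Dat.Tab

/-!
# The first facts have no bounds in `kb` and `kg`
-/

set_option autoImplicit false

namespace Pool.Agent.W986.ST.Dat

theorem nk0 : noK64 (fidx ts) 3918 0 = true := by
  decide +kernel

theorem nk1 : noK64 (fidx ts) 3918 1 = true := by
  decide +kernel

theorem nk2 : noK64 (fidx ts) 3918 2 = true := by
  decide +kernel

theorem nk3 : noK64 (fidx ts) 3918 3 = true := by
  decide +kernel

theorem nk4 : noK64 (fidx ts) 3918 4 = true := by
  decide +kernel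

theorem nk5 : noK64 (fidx ts) 3918 5 = true := by
  decide +kernel

theorem nk6 : noK64 (fidx ts) 3918 6 = true := by
  decide +kernel

theorem nk7 : noK64 (fidx ts) 3918 7 = true := by
  decide +kernel

theorem nk8 : noK64 (fidx ts) 3918 8 = true := by
  decide +kernel

theorem nk9 : noK64 (fidx ts) 3918 9 = true := by
  decide +kernel

theorem nk10 : noK64 (fidx ts) 3918 10 = true := by
  decide +kernel

theorem nk11 : noK64 (fidx ts) 3918 11 = true := by
  decide +kernel

theorem nk12 : noK64 (fidx ts) 3918 12 = true := by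
  decide +kernel

theorem nk13 : noK64 (fidx ts) 3918 13 = true := by
  decide +kernel

theorem nk14 : noK64 (fidx ts) 3918 14 = true := by
  decide +kernel

theorem nk15 : noK64 (fidx ts) 3918 15 = true := by
  decide +kernel

theorem nk16 : noK64 (fidx ts) 3918 16 = true := by
  decide +kernel

theorem nk17 : noK64 (fidx ts) 3918 17 = true := by
  decide +kernel

theorem nk18 : noK64 (fidx ts) 3918 18 = true := by
  decide +kernel

theorem nk19 : noK64 (fidx ts) 3918 19 = true := by
  decide +kernel

theorem nk20 : noK64 (fidx ts) 3918 20 = true := by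
  decide +kernel

theorem nk21 : noK64 (fidx ts) 3918 21 = true := by
  decide +kernel

theorem nk22 : noK64 (fidx ts) 3918 22 = true := by
  decide +kernel

theorem nk23 : noK64 (fidx ts) 3918 23 = true := by
  decide +kernel

theorem nk24 : noK64 (fidx ts) 3918 24 = true := by
  decide +kernel

theorem nk25 : noK64 (fidx ts) 3918 25 = true := by
  decide +kernel

theorem nk26 : noK64 (fidx ts) 3918 26 = true := by
  decide +kernel

theorem nk27 : noK64 (fidx ts) 3918 27 = true := by
  decide +kernel

theorem nk28 : noK64 (fidx ts) 3918 28 = true := by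
  decide +kernel

theorem nk29 : noK64 (fidx ts) 3918 29 = true := by
  decide +kernel

theorem nk30 : noK64 (fidx ts) 3918 30 = true := by
  decide +kernel

theorem nk31 : noK64 (fidx ts) 3918 31 = true := by
  decide +kernel

theorem nk32 : noK64 (fidx ts) 3918 32 = true := by
  decide +kernel

theorem nk33 : noK64 (fidx ts) 3918 33 = true := by
  decide +kernel

theorem nk34 : noK64 (fidx ts) 3918 34 = true := by
  decide +kernel

theorem nk35 : noK64 (fidx ts) 3918 35 = true := by
  decide +kernel

theorem nk36 : noK64 (fidx ts) 3918 36 = true := by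
  decide +kernel

theorem nk37 : noK64 (fidx ts) 3918 37 = true := by
  decide +kernel

theorem nk38 : noK64 (fidx ts) 3918 38 = true := by
  decide +kernel

theorem nk39 : noK64 (fidx ts) 3918 39 = true := by
  decide +kernel

theorem nk40 : noK64 (fidx ts) 3918 40 = true := by
  decide +kernel

theorem nk41 : noK64 (fidx ts) 3918 41 = true := by
  decide +kernel

theorem nk42 : noK64 (fidx ts) 3918 42 = true := by
  decide +kernel

theorem nk43 : noK64 (fidx ts) 3918 43 = true := by
  decide +kernel

theorem nk44 : noK64 (fidx ts) 3918 44 = true := by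
  decide +kernel

theorem nk45 : noK64 (fidx ts) 3918 45 = true := by
  decide +kernel

theorem nk46 : noK64 (fidx ts) 3918 46 = true := by
  decide +kernel

theorem nk47 : noK64 (fidx ts) 3918 47 = true := by
  decide +kernel

theorem nk48 : noK64 (fidx ts) 3918 48 = true := by
  decide +kernel

theorem nk49 : noK64 (fidx ts) 3918 49 = true := by
  decide +kernel

theorem nk50 : noK64 (fidx ts) 3918 50 = true := by
  decide +kernel

theorem nk51 : noK64 (fidx ts) 3918 51 = true := by
  decide +kernel

theorem nk52 : noK64 (fidx ts) 3918 52 = true := by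
  decide +kernel

theorem nk53 : noK64 (fidx ts) 3918 53 = true := by
  decide +kernel

theorem nk54 : noK64 (fidx ts) 3918 54 = true := by
  decide +kernel

theorem nk55 : noK64 (fidx ts) 3918 55 = true := by
  decide +kernel

theorem nk56 : noK64 (fidx ts) 3918 56 = true := by
  decide +kernel

theorem nk57 : noK64 (fidx ts) 3918 57 = true := by
  decide +kernel

theorem nk58 : noK64 (fidx ts) 3918 58 = true := by
  decide +kernel

theorem nk59 : noK64 (fidx ts) 3918 59 = true := by
  decide +kernel

theorem nk60 : noK64 (fidx ts) 3918 60 = true := by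
  decide +kernel

theorem nk61 : noK64 (fidx ts) 3918 61 = true := by
  decide +kernel

theorem nok_rng : Rng (fun i => noK64 (fidx ts) 3918 i = true) 0 62 :=
  ((((((((((((((((((((((((((((((((((((((((((((((((((((((((((((((Rng.nil _ 0).snoc nk0 rfl).snoc nk1 rfl).snoc nk2 rfl).snoc nk3 rfl).snoc nk4 rfl).snoc nk5 rfl
     ).snoc nk6 rfl).snoc nk7 rfl).snoc nk8 rfl).snoc nk9 rfl).snoc nk10 rfl).snoc nk11 rfl
     ).snoc nk12 rfl).snoc nk13 rfl).snoc nk14 rfl).snoc nk15 rfl).snoc nk16 rfl).snoc nk17 rfl
     ).snoc nk18 rfl).snoc nk19 rfl).snoc nk20 rfl).snoc nk21 rfl).snoc nk22 rfl).snoc nk23 rfl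
     ).snoc nk24 rfl).snoc nk25 rfl).snoc nk26 rfl).snoc nk27 rfl).snoc nk28 rfl).snoc nk29 rfl
     ).snoc nk30 rfl).snoc nk31 rfl).snoc nk32 rfl).snoc nk33 rfl).snoc nk34 rfl).snoc nk35 rfl
     ).snoc nk36 rfl).snoc nk37 rfl).snoc nk38 rfl).snoc nk39 rfl).snoc nk40 rfl).snoc nk41 rfl
     ).snoc nk42 rfl).snoc nk43 rfl).snoc nk44 rfl).snoc nk45 rfl).snoc nk46 rfl).snoc nk47 rfl
     ).snoc nk48 rfl).snoc nk49 rfl).snoc nk50 rfl).snoc nk51 rfl).snoc nk52 rfl).snoc nk53 rfl
     ).snoc nk54 rfl).snoc nk55 rfl).snoc nk56 rfl).snoc nk57 rfl).snoc nk58 rfl).snoc nk59 rfl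
     ).snoc nk60 rfl).snoc nk61 rfl

theorem nok_ok : noKB (fidx ts) 3918 62 = true :=
  noKB_of rfl nok_rng

end Pool.Agent.W986.ST.Dat
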