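import Pool.Agent.W986.Dat.Tab
import Pool.Agent.W986.SubAltB

/-!
# Entries 0 to 190 of the table
-/

set_option autoImplicit false

namespace Pool.Agent.W986.ST.Dat

/-- 44:1 -/
noncomputable def e0 : SCfg where
  D := {
    a := 2
    L := 4
    kp := 3
    inn := [(0, 1), (1, 0)]
    mix := [(0, 0), (0, 1), (0, 2), (1, 0), (1, 2), (1, 3)]
    cl := [0, 2, 1, 3]
    chq := [(0, 1), (1, 0)]
    rng := [(0, 1), (0, 3), (1, 0), (1, 2), (2, 1), (2, 3), (3, 0), (3, 2)]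
    lev := [] }
  links := [[1, 2, 3, 4], [2, 0, 4, 5]]
  P := {
    a := 2
    N := 6
    nb := [30, 53, 43, 21, 43, 22]
    tri := [(0, 1, 2), (0, 1, 4), (0, 2, 3), (0, 3, 4), (1, 2, 5), (1, 4, 5)]
    fin := [0, 0, 0, 3, 4, 5]
    chd := [(0, 4)]
    steps := [(0, 1), (0, 2)] }
  rep := [0, 4, 3, 5]

noncomputable def v0 : Cov.CovD where
  P := 3
  N := 1
  pl := [1, 3]
  lev := [⟨[], [], [(0, 1)], [2], [(0, 0, [1]), (2, 1, [0])]⟩,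
    ⟨[], [(0, 0), (0, 1)], [(0, 1)], [3], [(0, 0, [1]), (2, 1, [0])]⟩]
  Ta := []
  Tb := [((0, 1, 3), 0, 2, 3), ((1, 0, 2), 2, 0, 1), ((2, 1, 3), 1, 2, 3), ((3, 0, 2), 3, 0, 1)]
  Tc := []
  Td := [((0, 1), (0, 1), 2), ((0, 1), (0, 3), 3), ((1, 0), (2, 1), 2), ((1, 0), (2, 3), 3)]
  G := [[0, 0x64, 0xc4, 0xc8, 0xc8]]

noncomputable def n0 : Ent := ⟨e0, noF, [], [], []⟩

def c0 : PLift (Cov.check n0.C.D v0 = true) := ⟨by decide +kernel⟩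

def b0 : PLift (entF (fidx ts) 400 0 n0 = true) := ⟨by decide +kernel⟩

theorem g0 : GoodF (fidx ts) 400 0 := GoodF.ofV v0 n0 c0.down b0.down

/-- 55:2 -/
noncomputable def e1 : SCfg where
  D := {
    a := 2
    L := 6
    kp := 4
    inn := [(0, 1), (1, 0)]
    mix := [(0, 0), (0, 1), (0, 2), (0, 3), (1, 0), (1, 3), (1, 4), (1, 5)]
    cl := [0, 1, 2, 0, 3, 4]
    chq := []
    rng := [(0, 1), (0, 5), (1, 0), (1, 2), (2, 1), (2, 3), (3, 2), (3, 4), (4, 3), (4, 5), (5, 0), (5,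
      4)]
    lev := [] }
  links := [[1, 2, 3, 4, 5], [2, 0, 5, 6, 7]]
  P := {
    a := 2
    N := 8
    nb := [62, 229, 139, 21, 41, 83, 162, 70]
    tri := [(0, 1, 2), (0, 1, 5), (0, 2, 3), (0, 3, 4), (0, 4, 5), (1, 2, 7), (1, 5, 6), (1, 6, 7)]
    fin := [0, 0, 0, 3, 4, 0, 6, 7]
    chd := []
    steps := [(0, 1), (0, 2), (0, 5)] }
  rep := [0, 3, 4, 6, 7]

noncomputable def v1 : Cov.CovD where
  P := 3
  N := 2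
  pl := [1, 2, 4, 5]
  lev := [⟨[], [], [(0, 0)], [1, 2], [(0, 0, []), (3, 0, [])]⟩,
    ⟨[], [(0, 0)], [(0, 0)], [3, 4], [(0, 0, []), (3, 0, [])]⟩]
  Ta := [((0, 1), 0, 1), ((0, 5), 0, 4), ((3, 2), 0, 2), ((3, 4), 0, 3)]
  Tb := [((0, 1, 5), 0, 1, 4), ((1, 0, 2), 1, 0, 2), ((2, 1, 3), 2, 1, 0), ((3, 2, 4), 0, 2, 3),
    ((4, 3, 5), 3, 0, 4), ((5, 0, 4), 4, 0, 3)]
  Tc := []
  Td := []
  G := [[0, 0xe4, 0, 0xe4, 0xe8], [0, 0, 0xe4, 0xe4, 0xe8]]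

noncomputable def n1 : Ent := ⟨e1, noF, [], [], []⟩

def c1 : PLift (Cov.check n1.C.D v1 = true) := ⟨by decide +kernel⟩

def b1 : PLift (entF (fidx ts) 400 1 n1 = true) := ⟨by decide +kernel⟩

theorem g1 : GoodF (fidx ts) 400 1 := GoodF.ofV v1 n1 c1.down b1.down

/-- 456:3 -/
noncomputable def e2 : SCfg where
  D := {
    a := 3
    L := 6
    kp := 4
    inn := [(0, 1), (0, 2), (1, 0), (1, 2), (2, 0), (2, 1)]
    mix := [(0, 0), (0, 1), (1, 1), (1, 2), (1, 3), (2, 0), (2, 3), (2, 4), (2, 5)]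
    cl := [0, 1, 2, 0, 3, 4]
    chq := []
    rng := [(0, 1), (0, 5), (1, 0), (1, 2), (2, 1), (2, 3), (3, 2), (3, 4), (4, 3), (4, 5), (5, 0), (5,
      4)]
    lev := [] }
  links := [[1, 2, 3, 4], [2, 0, 4, 5, 6], [3, 0, 1, 6, 7, 8]]
  P := {
    a := 3
    N := 9
    nb := [30, 117, 459, 277, 43, 82, 166, 324, 140]
    tri := [(0, 1, 2), (0, 1, 4), (0, 2, 3), (0, 3, 4), (1, 2, 6), (1, 4, 5), (1, 5, 6), (2, 3, 8), (2,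
      6, 7), (2, 7, 8)]
    fin := [0, 0, 0, 0, 4, 5, 0, 7, 8]
    chd := []
    steps := [(0, 1), (0, 2), (0, 3), (0, 6)] }
  rep := [0, 4, 5, 7, 8]

noncomputable def v2 : Cov.CovD where
  P := 3
  N := 2
  pl := [1, 2, 4, 5]
  lev := [⟨[], [], [], [1], [(0, 0, [])]⟩,
    ⟨[], [(0, 0)], [], [1, 2], [(3, 0, [])]⟩,
    ⟨[(0, 1)], [(0, 0), (1, 0)], [(0, 0)], [3, 4], [(0, 0, []), (3, 0, [])]⟩]
  Ta := [((0, 1), 0, 1), ((0, 5), 0, 4), ((3, 2), 0, 2), ((3, 4), 0, 3)]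
  Tb := [((0, 1, 5), 0, 1, 4), ((1, 0, 2), 1, 0, 2), ((2, 1, 3), 2, 1, 0), ((3, 2, 4), 0, 2, 3),
    ((4, 3, 5), 3, 0, 4), ((5, 0, 4), 4, 0, 3)]
  Tc := []
  Td := []
  G := [[0, 0xe84, 0, 0xe14, 0xe18], [0, 0, 0xe84, 0xe48, 0xe81]]

noncomputable def n2 : Ent := ⟨e2, noF, [], [], []⟩

def c2 : PLift (Cov.check n2.C.D v2 = true) := ⟨by decide +kernel⟩

def b2 : PLift (entF (fidx ts) 400 2 n2 = true) := ⟨by decide +kernel⟩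

theorem g2 : GoodF (fidx ts) 400 2 := GoodF.ofV v2 n2 c2.down b2.down

/-- 455:4 -/
noncomputable def e3 : SCfg where
  D := {
    a := 3
    L := 6
    kp := 4
    inn := [(0, 1), (0, 2), (1, 0), (2, 0)]
    mix := [(0, 0), (0, 1), (1, 0), (1, 1), (1, 2), (1, 3), (2, 0), (2, 1), (2, 4), (2, 5)]
    cl := [0, 0, 1, 2, 3, 4]
    chq := []
    rng := [(0, 3), (0, 4), (1, 2), (1, 5), (2, 1), (2, 3), (3, 0), (3, 2), (4, 0), (4, 5), (5, 1), (5,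
      4)]
    lev := [] }
  links := [[1, 3, 2, 4], [3, 0, 4, 5, 6], [4, 0, 3, 7, 8]]
  P := {
    a := 3
    N := 9
    nb := [30, 121, 409, 199, 295, 82, 42, 268, 148]
    tri := [(0, 1, 3), (0, 1, 4), (0, 2, 3), (0, 2, 4), (1, 3, 6), (1, 4, 5), (1, 5, 6), (2, 3, 7), (2,
      4, 8), (2, 7, 8)]
    fin := [0, 0, 0, 0, 0, 5, 6, 7, 8]
    chd := []
    steps := [(0, 1), (0, 2), (0, 3), (0, 4)] }
  rep := [0, 5, 6, 7, 8]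

noncomputable def v3 : Cov.CovD where
  P := 3
  N := 2
  pl := [2, 3, 4, 5]
  lev := [⟨[], [], [(0, 0)], [], [(0, 0, []), (1, 0, [])]⟩,
    ⟨[], [(0, 0)], [(0, 0)], [1, 2], [(0, 0, []), (1, 0, [])]⟩,
    ⟨[(0, 1)], [(0, 0), (1, 0)], [(0, 0)], [3, 4], [(0, 0, []), (1, 0, [])]⟩]
  Ta := [((0, 3), 0, 2), ((0, 4), 0, 3), ((1, 2), 0, 1), ((1, 5), 0, 4)]
  Tb := [((0, 3, 4), 0, 2, 3), ((1, 2, 5), 0, 1, 4), ((2, 1, 3), 1, 0, 2), ((3, 0, 2), 2, 0, 1),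
    ((4, 0, 5), 3, 0, 4), ((5, 1, 4), 4, 0, 3)]
  Tc := []
  Td := []
  G := [[0, 0, 0xe84, 0xe82, 0xe84], [0, 0xe48, 0, 0xe82, 0xe84]]

noncomputable def n3 : Ent := ⟨e3, noF, [], [], []⟩

def c3 : PLift (Cov.check n3.C.D v3 = true) := ⟨by decide +kernel⟩

def b3 : PLift (entF (fidx ts) 400 3 n3 = true) := ⟨by decide +kernel⟩

theorem g3 : GoodF (fidx ts) 400 3 := GoodF.ofV v3 n3 c3.down b3.down

/-- 454:5/1 -/
noncomputable def e4 : SCfg where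
  D := {
    a := 3
    L := 4
    kp := 3
    inn := [(0, 1), (1, 0), (1, 2), (2, 1)]
    mix := [(0, 0), (0, 1), (0, 2), (1, 0), (1, 2), (1, 3), (2, 1), (2, 2), (2, 3)]
    cl := [1, 2, 0, 3]
    chq := [(0, 1), (0, 3), (1, 0), (3, 0)]
    rng := [(0, 1), (0, 3), (1, 0), (1, 2), (1, 3), (2, 1), (3, 0), (3, 1)]
    lev := [] }
  links := [[1, 3, 4, 5], [3, 0, 5, 2, 6], [6, 1, 5, 4]]
  P := {
    a := 3
    N := 7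
    nb := [58, 109, 114, 83, 109, 23, 30]
    tri := [(0, 1, 3), (0, 1, 5), (0, 3, 4), (0, 4, 5), (1, 2, 5), (1, 2, 6), (1, 3, 6), (2, 4, 5), (2,
      4, 6)]
    fin := [0, 0, 2, 0, 4, 2, 6]
    chd := [(0, 2), (2, 6)]
    steps := [(0, 1), (0, 3), (2, 5)] }
  rep := [2, 0, 4, 6]

noncomputable def v4 : Cov.CovD where
  P := 3
  N := 1
  pl := [1]
  lev := [⟨[], [], [(0, 1)], [2], [(0, 1, [0]), (2, 0, [1, 3])]⟩,
    ⟨[], [(0, 0), (0, 1), (0, 3)], [(0, 1), (0, 3), (1, 3)], [], [(0, 1, [0]), (2, 0, [1,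
      3]), (3, 3, [0])]⟩,
    ⟨[(0, 1)], [(0, 0), (1, 0), (1, 1), (1, 3)], [(0, 3)], [2], [(2, 0, [1, 3]), (3, 3,
      [0])]⟩]
  Ta := []
  Tb := [((0, 1, 3), 1, 2, 3), ((1, 0, 2), 2, 1, 0), ((1, 0, 3), 2, 1, 3), ((1, 2, 3), 2, 0, 3),
    ((3, 0, 1), 3, 1, 2)]
  Tc := [(0, 1, 3)]
  Td := [((0, 1), (2, 1), 2), ((0, 3), (2, 1), 2), ((1, 0), (0, 1), 2), ((1, 0), (0, 3), 3), ((3,
    0), (3, 0), 1), ((3, 0), (3, 1), 2)]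
  G := [[0, 0x1864, 0x82c4, 0x4488c, 0x2ac8]]

noncomputable def n4 : Ent := ⟨e4, noF, [], [], []⟩

def c4 : PLift (Cov.check n4.C.D v4 = true) := ⟨by decide +kernel⟩

def b4 : PLift (entF (fidx ts) 400 4 n4 = true) := ⟨by decide +kernel⟩

theorem g4 : GoodF (fidx ts) 400 4 := GoodF.ofV v4 n4 c4.down b4.down

/-- 454:5 -/
noncomputable def e5 : SCfg where
  D := {
    a := 3
    L := 5
    kp := 4
    inn := [(0, 1), (1, 0), (1, 2), (2, 1)]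
    mix := [(0, 0), (0, 1), (0, 2), (1, 0), (1, 2), (1, 3), (2, 2), (2, 3), (2, 4)]
    cl := [1, 2, 0, 3, 4]
    chq := [(0, 1), (1, 0), (1, 4), (4, 1)]
    rng := [(0, 1), (0, 3), (1, 0), (1, 2), (2, 1), (2, 4), (3, 0), (3, 4), (4, 2), (4, 3)]
    lev := [] }
  links := [[1, 3, 4, 5], [3, 0, 5, 2, 6], [6, 1, 5, 7]]
  P := {
    a := 3
    N := 8
    nb := [58, 109, 226, 83, 41, 151, 142, 100]
    tri := [(0, 1, 3), (0, 1, 5), (0, 3, 4), (0, 4, 5), (1, 2, 5), (1, 2, 6), (1, 3, 6), (2, 5, 7), (2,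
      6, 7)]
    fin := [0, 0, 0, 0, 4, 5, 6, 7]
    chd := [(0, 5), (0, 7)]
    steps := [(0, 1), (0, 2), (0, 3)] }
  rep := [5, 0, 4, 6, 7]

noncomputable def v5 : Cov.CovD where
  P := 3
  N := 2
  pl := [1, 3]
  lev := [⟨[], [], [(0, 1)], [2], [(0, 1, [0, 4]), (2, 0, [1])]⟩,
    ⟨[], [(0, 0), (0, 1)], [(0, 1)], [3], [(0, 1, [0, 4]), (2, 0, [1])]⟩,
    ⟨[(0, 1)], [(0, 0), (1, 0), (1, 1), (1, 4)], [(0, 4)], [3], [(2, 0, [1]), (4, 4, [1])]⟩]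
  Ta := []
  Tb := [((0, 1, 3), 1, 2, 3), ((1, 0, 2), 2, 1, 0), ((2, 1, 4), 0, 2, 4), ((3, 0, 4), 3, 1, 4),
    ((4, 2, 3), 4, 0, 3)]
  Tc := [(1, 0, 4)]
  Td := [((0, 1), (2, 1), 2), ((0, 1), (2, 4), 4), ((1, 0), (0, 1), 2), ((1, 0), (0, 3), 3), ((1,
    4), (0, 1), 2), ((1, 4), (0, 3), 3), ((4, 1), (4, 2), 0), ((4, 1), (4, 3), 3)]
  G := [[0, 0x1164, 0xe2c4, 0x22c8, 0x2ec8]]

noncomputable def n5 : Ent := ⟨e5, noF, [], [], [(4, 7, [1947507540148553543296264267907073, 0])]⟩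

def c5 : PLift (Cov.check n5.C.D v5 = true) := ⟨by decide +kernel⟩

def b5 : PLift (entF (fidx ts) 400 5 n5 = true) := ⟨by decide +kernel⟩

theorem g5 : GoodF (fidx ts) 400 5 := GoodF.ofV v5 n5 c5.down b5.down

/-- 465:6 -/
noncomputable def e6 : SCfg where
  D := {
    a := 3
    L := 7
    kp := 5
    inn := [(0, 1), (1, 0), (1, 2), (2, 1)]
    mix := [(0, 0), (0, 1), (0, 2), (1, 0), (1, 2), (1, 3), (1, 4), (2, 2), (2, 3), (2, 5), (2, 6)]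
    cl := [1, 3, 0, 0, 2, 4, 5]
    chq := [(2, 3), (3, 2)]
    rng := [(0, 1), (0, 4), (1, 0), (1, 2), (2, 1), (2, 5), (3, 4), (3, 6), (4, 0), (4, 3), (5, 2), (5,
      6), (6, 3), (6, 5)]
    lev := [] }
  links := [[1, 3, 4, 5], [3, 0, 5, 2, 6, 7], [6, 1, 5, 8, 9]]
  P := {
    a := 3
    N := 10
    nb := [58, 237, 866, 147, 41, 279, 646, 74, 548, 324]
    tri := [(0, 1, 3), (0, 1, 5), (0, 3, 4), (0, 4, 5), (1, 2, 5), (1, 2, 6), (1, 3, 7), (1, 6, 7), (2,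
      5, 8), (2, 6, 9), (2, 8, 9)]
    fin := [0, 0, 2, 3, 0, 2, 2, 7, 8, 9]
    chd := [(0, 7)]
    steps := [(0, 1), (0, 4), (2, 5), (2, 6)] }
  rep := [2, 3, 7, 0, 8, 9]

noncomputable def v6 : Cov.CovD where
  P := 3
  N := 3
  pl := [0, 5, 6]
  lev := [⟨[], [], [(0, 3)], [1], [(1, 3, [2]), (2, 0, [])]⟩,
    ⟨[], [(0, 0), (0, 2), (0, 3)], [(0, 0), (0, 2)], [1], [(2, 0, []), (3, 0, []), (4, 2,
      [3])]⟩,
    ⟨[(0, 1)], [(0, 0), (1, 0), (1, 2)], [(0, 0)], [4, 5], [(2, 0, []), (3, 0, [])]⟩]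
  Ta := [((2, 1), 0, 3), ((2, 5), 0, 4), ((3, 4), 0, 2), ((3, 6), 0, 5)]
  Tb := [((0, 1, 4), 1, 3, 2), ((1, 0, 2), 3, 1, 0), ((2, 1, 5), 0, 3, 4), ((3, 4, 6), 0, 2, 5),
    ((4, 0, 3), 2, 1, 0), ((5, 2, 6), 4, 0, 5), ((6, 3, 5), 5, 0, 4)]
  Tc := []
  Td := [((2, 3), (4, 0), 1), ((2, 3), (4, 3), 0), ((3, 2), (1, 0), 1), ((3, 2), (1, 2), 0)]
  G := [[0, 0xe42, 0, 0xe4e8c, 0xe84], [0, 0xe42, 0xe81, 0xe41, 0xe84]]

noncomputable def n6 : Ent := ⟨e6, noF, [], [], []⟩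

def c6 : PLift (Cov.check n6.C.D v6 = true) := ⟨by decide +kernel⟩

def b6 : PLift (entF (fidx ts) 400 6 n6 = true) := ⟨by decide +kernel⟩

theorem g6 : GoodF (fidx ts) 400 6 := GoodF.ofV v6 n6 c6.down b6.down

/-- 464:7 -/
noncomputable def e7 : SCfg where
  D := {
    a := 3
    L := 6
    kp := 4
    inn := [(0, 1), (1, 0), (1, 2), (2, 1)]
    mix := [(0, 0), (0, 1), (0, 2), (1, 0), (1, 2), (1, 3), (1, 4), (2, 3), (2, 4), (2, 5)]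
    cl := [0, 2, 1, 0, 3, 4]
    chq := []
    rng := [(0, 1), (0, 4), (1, 0), (1, 2), (2, 1), (2, 3), (3, 2), (3, 5), (4, 0), (4, 5), (5, 3), (5,
      4)]
    lev := [] }
  links := [[1, 3, 4, 5], [3, 0, 5, 6, 2, 7], [7, 1, 6, 8]]
  P := {
    a := 3
    N := 9
    nb := [58, 237, 450, 147, 41, 83, 294, 270, 196]
    tri := [(0, 1, 3), (0, 1, 5), (0, 3, 4), (0, 4, 5), (1, 2, 6), (1, 2, 7), (1, 3, 7), (1, 5, 6), (2,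
      6, 8), (2, 7, 8)]
    fin := [0, 0, 0, 0, 4, 5, 0, 7, 8]
    chd := []
    steps := [(0, 1), (0, 2), (0, 3), (0, 6)] }
  rep := [0, 5, 4, 7, 8]

noncomputable def v7 : Cov.CovD where
  P := 3
  N := 2
  pl := [1, 2, 4, 5]
  lev := [⟨[], [], [], [1, 2], [(0, 0, [])]⟩,
    ⟨[], [(0, 0)], [(0, 0)], [1, 3], [(0, 0, []), (3, 0, [])]⟩,
    ⟨[(0, 1)], [(1, 0)], [], [3, 4], [(3, 0, [])]⟩]
  Ta := [((0, 1), 0, 2), ((0, 4), 0, 3), ((3, 2), 0, 1), ((3, 5), 0, 4)]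
  Tb := [((0, 1, 4), 0, 2, 3), ((1, 0, 2), 2, 0, 1), ((2, 1, 3), 1, 2, 0), ((3, 2, 5), 0, 1, 4),
    ((4, 0, 5), 3, 0, 4), ((5, 3, 4), 4, 0, 3)]
  Tc := []
  Td := []
  G := [[0, 0, 0x11c4, 0xa1c4, 0x1bc8], [0, 0xca68, 0, 0xa6c1, 0xa6c1]]

noncomputable def n7 : Ent := ⟨e7, noF, [], [], []⟩

def c7 : PLift (Cov.check n7.C.D v7 = true) := ⟨by decide +kernel⟩

def b7 : PLift (entF (fidx ts) 400 7 n7 = true) := ⟨by decide +kernel⟩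

theorem g7 : GoodF (fidx ts) 400 7 := GoodF.ofV v7 n7 c7.down b7.down

/-- 465:8 -/
noncomputable def e8 : SCfg where
  D := {
    a := 3
    L := 7
    kp := 5
    inn := [(0, 1), (1, 0), (1, 2), (2, 1)]
    mix := [(0, 0), (0, 1), (0, 2), (1, 0), (1, 2), (1, 3), (1, 4), (2, 3), (2, 4), (2, 5), (2, 6)]
    cl := [1, 3, 2, 0, 0, 4, 5]
    chq := [(0, 3), (3, 0)]
    rng := [(0, 1), (0, 4), (1, 0), (1, 2), (2, 1), (2, 3), (3, 2), (3, 5), (4, 0), (4, 6), (5, 3), (5,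
      6), (6, 4), (6, 5)]
    lev := [] }
  links := [[1, 3, 4, 5], [3, 0, 5, 6, 2, 7], [7, 1, 6, 8, 9]]
  P := {
    a := 3
    N := 10
    nb := [58, 237, 962, 147, 41, 83, 294, 526, 580, 388]
    tri := [(0, 1, 3), (0, 1, 5), (0, 3, 4), (0, 4, 5), (1, 2, 6), (1, 2, 7), (1, 3, 7), (1, 5, 6), (2,
      6, 8), (2, 7, 9), (2, 8, 9)]
    fin := [0, 0, 2, 3, 0, 5, 2, 2, 8, 9]
    chd := [(0, 2)]
    steps := [(0, 1), (0, 4), (2, 6), (2, 7)] }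
  rep := [2, 3, 5, 0, 8, 9]

noncomputable def v8 : Cov.CovD where
  P := 3
  N := 3
  pl := [0, 2, 5, 6]
  lev := [⟨[], [], [], [1, 2], [(1, 3, [0])]⟩,
    ⟨[], [(0, 0), (0, 3)], [(0, 0)], [1, 2], [(3, 0, [3]), (4, 0, [3])]⟩,
    ⟨[(0, 1)], [(1, 0)], [(0, 0)], [4, 5], [(3, 0, [3]), (4, 0, [3])]⟩]
  Ta := [((3, 2), 0, 2), ((3, 5), 0, 4), ((4, 0), 0, 1), ((4, 6), 0, 5)]
  Tb := [((0, 1, 4), 1, 3, 0), ((1, 0, 2), 3, 1, 2), ((2, 1, 3), 2, 3, 0), ((3, 2, 5), 0, 2, 4),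
    ((4, 0, 6), 0, 1, 5), ((5, 3, 6), 4, 0, 5), ((6, 4, 5), 5, 0, 4)]
  Tc := []
  Td := [((0, 3), (3, 2), 2), ((0, 3), (3, 5), 4), ((0, 3), (4, 0), 1), ((0, 3), (4, 6), 5), ((3,
    0), (1, 0), 1), ((3, 0), (1, 2), 2)]
  G := [[0, 0, 0xe4e8c, 0xe41, 0xe81], [0, 0xe4e8c, 0, 0xe41, 0xe81]]

noncomputable def n8 : Ent := ⟨e8, noF, [], [], []⟩

def c8 : PLift (Cov.check n8.C.D v8 = true) := ⟨by decide +kernel⟩

def b8 : PLift (entF (fidx ts) 400 8 n8 = true) := ⟨by decide +kernel⟩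

theorem g8 : GoodF (fidx ts) 400 8 := GoodF.ofV v8 n8 c8.down b8.down

/-- 4574:9 -/
noncomputable def e9 : SCfg where
  D := {
    a := 4
    L := 7
    kp := 5
    inn := [(0, 1), (0, 2), (1, 0), (1, 2), (2, 0), (2, 1), (2, 3), (3, 2)]
    mix := [(0, 0), (0, 1), (1, 1), (1, 2), (1, 3), (2, 0), (2, 3), (2, 4), (2, 5), (3, 3), (3, 4), (3,
      6)]
    cl := [0, 1, 5, 0, 3, 2, 4]
    chq := [(2, 4), (4, 2)]
    rng := [(0, 1), (0, 5), (1, 0), (1, 2), (2, 1), (2, 3), (3, 2), (3, 6), (4, 5), (4, 6), (5, 0), (5,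
      4), (6, 3), (6, 4)]
    lev := [] }
  links := [[1, 2, 4, 5], [2, 0, 5, 6, 7], [4, 0, 1, 7, 3, 8, 9], [8, 2, 7, 10]]
  P := {
    a := 4
    N := 11
    nb := [54, 229, 923, 1412, 549, 83, 162, 1102, 1548, 276, 392]
    tri := [(0, 1, 2), (0, 1, 5), (0, 2, 4), (0, 4, 5), (1, 2, 7), (1, 5, 6), (1, 6, 7), (2, 3, 7), (2,
      3, 8), (2, 4, 9), (2, 8, 9), (3, 7, 10), (3, 8, 10)]
    fin := [0, 0, 2, 2, 0, 5, 6, 0, 8, 9, 2]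
    chd := [(9, 2)]
    steps := [(0, 1), (0, 4), (0, 7), (2, 3), (2, 10)] }
  rep := [0, 5, 9, 8, 2, 6]

noncomputable def v9 : Cov.CovD where
  P := 3
  N := 3
  pl := [1, 2, 4]
  lev := [⟨[], [], [], [1], [(0, 0, [])]⟩,
    ⟨[], [(0, 0)], [], [1, 5], [(3, 0, [])]⟩,
    ⟨[(0, 1)], [(0, 0), (0, 2), (1, 0), (1, 2)], [(0, 0), (0, 2)], [3], [(0, 0, []), (3, 0,
      []), (5, 2, [4])]⟩,
    ⟨[(0, 2), (1, 2)], [(1, 0), (2, 0), (2, 2), (2, 4)], [(0, 4)], [3], [(3, 0, []), (6, 4,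
      [2])]⟩]
  Ta := [((0, 1), 0, 1), ((0, 5), 0, 2), ((3, 2), 0, 5), ((3, 6), 0, 4)]
  Tb := [((0, 1, 5), 0, 1, 2), ((1, 0, 2), 1, 0, 5), ((2, 1, 3), 5, 1, 0), ((3, 2, 6), 0, 5, 4),
    ((4, 5, 6), 3, 2, 4), ((5, 0, 4), 2, 0, 3), ((6, 3, 4), 4, 0, 3)]
  Tc := []
  Td := [((2, 4), (5, 0), 0), ((2, 4), (5, 4), 3), ((4, 2), (6, 3), 0), ((4, 2), (6, 4), 3)]
  G := [[0, 0x12c12ca4, 0xca618, 0xe2c14, 0xc6a14], [0, 0, 0, 0x2ece2cc1, 0x4eae4ac4]]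

noncomputable def n9 : Ent := ⟨e9, noF, [], [], []⟩

def c9 : PLift (Cov.check n9.C.D v9 = true) := ⟨by decide +kernel⟩

def b9 : PLift (entF (fidx ts) 400 9 n9 = true) := ⟨by decide +kernel⟩

theorem g9 : GoodF (fidx ts) 400 9 := GoodF.ofV v9 n9 c9.down b9.down

/-- 4575:10/1 -/
noncomputable def e10 : SCfg where
  D := {
    a := 4
    L := 7
    kp := 5
    inn := [(0, 1), (0, 2), (1, 0), (1, 2), (2, 0), (2, 1), (2, 3), (3, 2)]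
    mix := [(0, 0), (0, 1), (1, 1), (1, 2), (1, 3), (2, 0), (2, 3), (2, 4), (2, 5), (3, 2), (3, 3), (3,
      4), (3, 6)]
    cl := [1, 2, 0, 3, 3, 4, 5]
    chq := [(0, 1), (0, 4), (1, 0), (4, 0)]
    rng := [(0, 1), (0, 5), (1, 0), (1, 2), (2, 1), (2, 3), (2, 6), (3, 2), (4, 5), (4, 6), (5, 0), (5,
      4), (6, 2), (6, 4)]
    lev := [] }
  links := [[1, 2, 4, 5], [2, 0, 5, 6, 7], [4, 0, 1, 7, 3, 8, 9], [8, 2, 7, 6, 10]]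
  P := {
    a := 4
    N := 11
    nb := [54, 229, 923, 1476, 549, 83, 1194, 78, 1548, 276, 328]
    tri := [(0, 1, 2), (0, 1, 5), (0, 2, 4), (0, 4, 5), (1, 2, 7), (1, 5, 6), (1, 6, 7), (2, 3, 7), (2,
      3, 8), (2, 4, 9), (2, 8, 9), (3, 6, 7), (3, 6, 10), (3, 8, 10)]
    fin := [0, 1, 1, 3, 0, 5, 1, 3, 3, 9, 10]
    chd := [(0, 1), (1, 9)]
    steps := [(0, 4), (1, 2), (3, 7), (1, 6), (3, 8)] }
  rep := [1, 0, 5, 3, 9, 10]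

noncomputable def v10 : Cov.CovD where
  P := 3
  N := 3
  pl := [1, 6]
  lev := [⟨[], [], [], [2], [(0, 1, [0])]⟩,
    ⟨[], [(0, 0), (0, 1), (0, 3)], [(0, 3)], [2], [(2, 0, [1, 4]), (3, 3, [])]⟩,
    ⟨[(0, 1)], [(0, 1), (0, 3), (0, 4), (1, 0), (1, 1), (1, 3), (1, 4)], [(1, 3), (1, 4),
      (3, 3), (3, 4)], [], [(0, 1, [0]), (3, 3, []), (4, 3, []), (5, 4, [0])]⟩,
    ⟨[(0, 2), (1, 2)], [(1, 0), (1, 3), (2, 0), (2, 1), (2, 3), (2, 4)], [(0, 3), (3, 3)],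
      [5], [(2, 0, [1, 4]), (3, 3, []), (4, 3, [])]⟩]
  Ta := [((3, 2), 3, 0), ((4, 5), 3, 4), ((4, 6), 3, 5)]
  Tb := [((0, 1, 5), 1, 2, 4), ((1, 0, 2), 2, 1, 0), ((2, 1, 3), 0, 2, 3), ((2, 1, 6), 0, 2, 5),
    ((2, 3, 6), 0, 3, 5), ((4, 5, 6), 3, 4, 5), ((5, 0, 4), 4, 1, 3), ((6, 2, 4), 5, 0, 3)]
  Tc := [(0, 1, 4)]
  Td := [((0, 1), (2, 1), 2), ((0, 1), (2, 3), 3), ((0, 1), (2, 6), 5), ((0, 4), (2, 1), 2), ((0,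
    4), (2, 3), 3), ((0, 4), (2, 6), 5), ((1, 0), (0, 1), 2), ((1, 0), (0, 5), 4), ((4, 0),
    (5, 0), 1), ((4, 0), (5, 4), 3)]
  G := [[0, 0xa161c4, 0xc161a8, 0xa16a6dc8, 0x7c9665a1], [0, 0xe148, 0xe128, 0xe184, 0xe128]]

noncomputable def n10 : Ent := ⟨e10, noF, [], [], []⟩

def c10 : PLift (Cov.check n10.C.D v10 = true) := ⟨by decide +kernel⟩

def b10 : PLift (entF (fidx ts) 400 10 n10 = true) := ⟨by decide +kernel⟩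

theorem g10 : GoodF (fidx ts) 400 10 := GoodF.ofV v10 n10 c10.down b10.down

/-- 4575:10 -/
noncomputable def e11 : SCfg where
  D := {
    a := 4
    L := 8
    kp := 6
    inn := [(0, 1), (0, 2), (1, 0), (1, 2), (2, 0), (2, 1), (2, 3), (3, 2)]
    mix := [(0, 0), (0, 1), (1, 1), (1, 2), (1, 3), (2, 0), (2, 3), (2, 4), (2, 5), (3, 3), (3, 4), (3,
      6), (3, 7)]
    cl := [0, 1, 4, 3, 3, 2, 5, 6]
    chq := [(0, 4), (2, 4), (4, 0), (4, 2)]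
    rng := [(0, 1), (0, 5), (1, 0), (1, 2), (2, 1), (2, 3), (3, 2), (3, 6), (4, 5), (4, 7), (5, 0), (5,
      4), (6, 3), (6, 7), (7, 4), (7, 6)]
    lev := [] }
  links := [[1, 2, 4, 5], [2, 0, 5, 6, 7], [4, 0, 1, 7, 3, 8, 9], [8, 2, 7, 10, 11]]
  P := {
    a := 4
    N := 12
    nb := [54, 229, 923, 3460, 549, 83, 162, 1102, 2572, 276, 2184, 1288]
    tri := [(0, 1, 2), (0, 1, 5), (0, 2, 4), (0, 4, 5), (1, 2, 7), (1, 5, 6), (1, 6, 7), (2, 3, 7), (2,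
      3, 8), (2, 4, 9), (2, 8, 9), (3, 7, 10), (3, 8, 11), (3, 10, 11)]
    fin := [0, 1, 1, 3, 0, 5, 1, 3, 3, 9, 10, 11]
    chd := [(0, 1), (1, 9)]
    steps := [(0, 4), (1, 2), (1, 6), (3, 7), (3, 8)] }
  rep := [0, 5, 9, 3, 1, 10, 11]

noncomputable def v11 : Cov.CovD where
  P := 3
  N := 4
  pl := [1, 6, 7]
  lev := [⟨[], [], [], [1], [(0, 0, [4])]⟩,
    ⟨[], [(0, 0), (0, 3), (0, 4)], [(3, 4)], [1], [(2, 4, [0, 2]), (3, 3, [])]⟩,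
    ⟨[(0, 1)], [(0, 0), (0, 2), (0, 3), (1, 0), (1, 2), (1, 3), (1, 4)], [(0, 2), (0, 3),
      (2, 3), (3, 3)], [], [(0, 0, [4]), (3, 3, []), (4, 3, []), (5, 2, [4])]⟩,
    ⟨[(0, 2), (1, 2)], [(1, 3), (2, 0), (2, 2), (2, 3)], [(3, 3)], [5, 6], [(3, 3, []), (4,
      3, [])]⟩]
  Ta := [((3, 2), 3, 4), ((3, 6), 3, 5), ((4, 5), 3, 2), ((4, 7), 3, 6)]
  Tb := [((0, 1, 5), 0, 1, 2), ((1, 0, 2), 1, 0, 4), ((2, 1, 3), 4, 1, 3), ((3, 2, 6), 3, 4, 5),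
    ((4, 5, 7), 3, 2, 6), ((5, 0, 4), 2, 0, 3), ((6, 3, 7), 5, 3, 6), ((7, 4, 6), 6, 3, 5)]
  Tc := [(4, 0, 2)]
  Td := [((0, 4), (0, 1), 1), ((0, 4), (0, 5), 2), ((2, 4), (5, 0), 0), ((2, 4), (5, 4), 3), ((4,
    0), (2, 1), 1), ((4, 0), (2, 3), 3), ((4, 2), (2, 1), 1), ((4, 2), (2, 3), 3)]
  G := [[0, 0x742b82c, 0xdb618, 0x4414ace8b3cdc, 0x4fa4981c], [0, 0xf42b84a, 0xdb618, 0x741b81c,
    0xd7a14]]

noncomputable def n11 : Ent := ⟨e11, noF, [], [], [(6, 10, [1004983125937232041231465026932718108219635965953, 0])]⟩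

def c11 : PLift (Cov.check n11.C.D v11 = true) := ⟨by decide +kernel⟩

def b11 : PLift (entF (fidx ts) 400 11 n11 = true) := ⟨by decide +kernel⟩

theorem g11 : GoodF (fidx ts) 400 11 := GoodF.ofV v11 n11 c11.down b11.down

/-- 4574:11 -/
noncomputable def e12 : SCfg where
  D := {
    a := 4
    L := 7
    kp := 5
    inn := [(0, 1), (0, 2), (1, 0), (1, 2), (2, 0), (2, 1), (2, 3), (3, 2)]
    mix := [(0, 0), (0, 1), (1, 1), (1, 2), (1, 3), (2, 0), (2, 3), (2, 4), (2, 5), (3, 4), (3, 5), (3,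
      6)]
    cl := [0, 1, 5, 0, 3, 2, 4]
    chq := [(0, 4), (4, 0)]
    rng := [(0, 1), (0, 5), (1, 0), (1, 2), (2, 1), (2, 3), (3, 2), (3, 4), (4, 3), (4, 6), (5, 0), (5,
      6), (6, 4), (6, 5)]
    lev := [] }
  links := [[1, 2, 4, 5], [2, 0, 5, 6, 7], [4, 0, 1, 7, 8, 3, 9], [9, 2, 8, 10]]
  P := {
    a := 4
    N := 11
    nb := [54, 229, 923, 1796, 549, 83, 162, 326, 1164, 1052, 776]
    tri := [(0, 1, 2), (0, 1, 5), (0, 2, 4), (0, 4, 5), (1, 2, 7), (1, 5, 6), (1, 6, 7), (2, 3, 8), (2,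
      3, 9), (2, 4, 9), (2, 7, 8), (3, 8, 10), (3, 9, 10)]
    fin := [0, 0, 0, 0, 0, 5, 6, 0, 8, 9, 10]
    chd := [(0, 10)]
    steps := [(0, 1), (0, 2), (0, 3), (0, 4), (0, 7)] }
  rep := [0, 5, 9, 8, 10, 6]

noncomputable def v12 : Cov.CovD where
  P := 3
  N := 3
  pl := [1, 2, 4, 5]
  lev := [⟨[], [], [], [1], [(0, 0, [4])]⟩,
    ⟨[], [(0, 0)], [], [1, 5], [(3, 0, [4])]⟩,
    ⟨[(0, 1)], [(0, 0), (1, 0)], [(0, 0)], [2, 3], [(0, 0, [4]), (3, 0, [4])]⟩,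
    ⟨[(0, 2), (1, 2)], [(2, 0), (2, 4)], [], [2, 3], [(6, 4, [0])]⟩]
  Ta := [((0, 1), 0, 1), ((0, 5), 0, 2), ((3, 2), 0, 5), ((3, 4), 0, 3)]
  Tb := [((0, 1, 5), 0, 1, 2), ((1, 0, 2), 1, 0, 5), ((2, 1, 3), 5, 1, 0), ((3, 2, 4), 0, 5, 3),
    ((4, 3, 6), 3, 0, 4), ((5, 0, 6), 2, 0, 4), ((6, 4, 5), 4, 3, 2)]
  Tc := []
  Td := [((0, 4), (0, 1), 1), ((0, 4), (0, 5), 2), ((0, 4), (3, 2), 5), ((0, 4), (3, 4), 3), ((4,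
    0), (6, 4), 3), ((4, 0), (6, 5), 2)]
  G := [[0, 0x11c11ca4, 0xca618, 0x11c14, 0x11a14], [0, 0, 0, 0x14459cd8cc, 0x39a93ac1]]

noncomputable def n12 : Ent := ⟨e12, noF, [], [], []⟩

def c12 : PLift (Cov.check n12.C.D v12 = true) := ⟨by decide +kernel⟩

def b12 : PLift (entF (fidx ts) 400 12 n12 = true) := ⟨by decide +kernel⟩

theorem g12 : GoodF (fidx ts) 400 12 := GoodF.ofV v12 n12 c12.down b12.down

/-- 4575:12 -/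
noncomputable def e13 : SCfg where
  D := {
    a := 4
    L := 8
    kp := 6
    inn := [(0, 1), (0, 2), (1, 0), (1, 2), (2, 0), (2, 1), (2, 3), (3, 2)]
    mix := [(0, 0), (0, 1), (1, 1), (1, 2), (1, 3), (2, 0), (2, 3), (2, 4), (2, 5), (3, 4), (3, 5), (3,
      6), (3, 7)]
    cl := [1, 3, 4, 2, 0, 0, 5, 6]
    chq := [(0, 4), (1, 4), (4, 0), (4, 1)]
    rng := [(0, 1), (0, 5), (1, 0), (1, 2), (2, 1), (2, 3), (3, 2), (3, 4), (4, 3), (4, 6), (5, 0), (5,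
      7), (6, 4), (6, 7), (7, 5), (7, 6)]
    lev := [] }
  links := [[1, 2, 4, 5], [2, 0, 5, 6, 7], [4, 0, 1, 7, 8, 3, 9], [9, 2, 8, 10, 11]]
  P := {
    a := 4
    N := 12
    nb := [54, 229, 923, 3844, 549, 83, 162, 326, 1164, 2076, 2312, 1544]
    tri := [(0, 1, 2), (0, 1, 5), (0, 2, 4), (0, 4, 5), (1, 2, 7), (1, 5, 6), (1, 6, 7), (2, 3, 8), (2,
      3, 9), (2, 4, 9), (2, 7, 8), (3, 8, 10), (3, 9, 11), (3, 10, 11)]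
    fin := [0, 1, 1, 3, 0, 5, 1, 7, 3, 3, 10, 11]
    chd := [(0, 1), (1, 3)]
    steps := [(0, 4), (1, 2), (1, 6), (3, 8), (3, 9)] }
  rep := [3, 0, 7, 5, 1, 10, 11]

noncomputable def v13 : Cov.CovD where
  P := 3
  N := 4
  pl := [1, 3, 6, 7]
  lev := [⟨[], [], [], [3], [(0, 1, [4])]⟩,
    ⟨[], [(0, 1), (0, 4)], [], [2, 3], [(2, 4, [0, 1])]⟩,
    ⟨[(0, 1)], [(0, 0), (0, 1), (1, 0), (1, 1), (1, 4)], [(0, 0), (0, 1)], [2], [(0, 1,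
      [4]), (4, 0, [4]), (5, 0, [4])]⟩,
    ⟨[(0, 2), (1, 2)], [(2, 0), (2, 1)], [(0, 0)], [5, 6], [(4, 0, [4]), (5, 0, [4])]⟩]
  Ta := [((4, 3), 0, 2), ((4, 6), 0, 5), ((5, 0), 0, 1), ((5, 7), 0, 6)]
  Tb := [((0, 1, 5), 1, 3, 0), ((1, 0, 2), 3, 1, 4), ((2, 1, 3), 4, 3, 2), ((3, 2, 4), 2, 4, 0),
    ((4, 3, 6), 0, 2, 5), ((5, 0, 7), 0, 1, 6), ((6, 4, 7), 5, 0, 6), ((7, 5, 6), 6, 0, 5)]
  Tc := [(4, 0, 1)]
  Td := [((0, 4), (4, 3), 2), ((0, 4), (4, 6), 5), ((0, 4), (5, 0), 1), ((0, 4), (5, 7), 6), ((1,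
    4), (0, 1), 3), ((1, 4), (0, 5), 0), ((4, 0), (2, 1), 3), ((4, 0), (2, 3), 2), ((4, 1),
    (2, 1), 3), ((4, 1), (2, 3), 2)]
  G := [[0, 0, 0xe48e84e82d, 0xe48e84e81d, 0x68288e83882d], [0, 0xe81e816, 0, 0xe48e84e41d,
    0xe8e83e825]]

noncomputable def n13 : Ent := ⟨e13, noF, [], [], []⟩

def c13 : PLift (Cov.check n13.C.D v13 = true) := ⟨by decide +kernel⟩

def b13 : PLift (entF (fidx ts) 400 13 n13 = true) := ⟨by decide +kernel⟩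

theorem g13 : GoodF (fidx ts) 400 13 := GoodF.ofV v13 n13 c13.down b13.down

/-- 4574:13 -/
noncomputable def e14 : SCfg where
  D := {
    a := 4
    L := 7
    kp := 5
    inn := [(0, 1), (0, 2), (1, 0), (1, 2), (2, 0), (2, 1), (2, 3), (3, 2)]
    mix := [(0, 0), (0, 1), (1, 1), (1, 2), (1, 3), (2, 0), (2, 3), (2, 4), (2, 5), (3, 0), (3, 5), (3,
      6)]
    cl := [0, 1, 2, 0, 4, 3, 5]
    chq := [(0, 3), (3, 0)]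
    rng := [(0, 1), (0, 6), (1, 0), (1, 2), (2, 1), (2, 3), (3, 2), (3, 4), (4, 3), (4, 5), (5, 4), (5,
      6), (6, 0), (6, 5)]
    lev := [] }
  links := [[1, 2, 4, 5], [2, 0, 5, 6, 7], [4, 0, 1, 7, 8, 9, 3], [4, 2, 9, 10]]
  P := {
    a := 4
    N := 11
    nb := [54, 229, 923, 1556, 1069, 83, 162, 326, 644, 1292, 536]
    tri := [(0, 1, 2), (0, 1, 5), (0, 2, 4), (0, 4, 5), (1, 2, 7), (1, 5, 6), (1, 6, 7), (2, 3, 4), (2,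
      3, 9), (2, 7, 8), (2, 8, 9), (3, 4, 10), (3, 9, 10)]
    fin := [0, 0, 0, 0, 0, 5, 6, 0, 8, 9, 10]
    chd := [(0, 9)]
    steps := [(0, 1), (0, 2), (0, 3), (0, 4), (0, 7)] }
  rep := [0, 5, 6, 9, 8, 10]

noncomputable def v14 : Cov.CovD where
  P := 3
  N := 3
  pl := [1, 2, 4, 6]
  lev := [⟨[], [], [], [1], [(0, 0, [3])]⟩,
    ⟨[], [(0, 0)], [], [1, 2], [(3, 0, [3])]⟩,
    ⟨[(0, 1)], [(0, 0), (0, 3), (1, 0), (1, 3)], [(0, 0), (0, 3)], [4], [(0, 0, [3]), (3,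
      0, [3]), (5, 3, [0])]⟩,
    ⟨[(0, 2), (1, 2)], [(0, 0), (2, 0), (2, 3)], [(0, 3)], [5], [(0, 0, [3]), (5, 3, [0])]⟩]
  Ta := [((0, 1), 0, 1), ((0, 6), 0, 5), ((3, 2), 0, 2), ((3, 4), 0, 4)]
  Tb := [((0, 1, 6), 0, 1, 5), ((1, 0, 2), 1, 0, 2), ((2, 1, 3), 2, 1, 0), ((3, 2, 4), 0, 2, 4),
    ((4, 3, 5), 4, 0, 3), ((5, 4, 6), 3, 4, 5), ((6, 0, 5), 5, 0, 3)]
  Tc := []
  Td := [((0, 3), (0, 1), 1), ((0, 3), (0, 6), 5), ((0, 3), (3, 2), 2), ((0, 3), (3, 4), 4), ((3,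
    0), (5, 4), 4), ((3, 0), (5, 6), 5)]
  G := [[0, 0xee68e84a, 0, 0xee68e81c, 0xee61e81c], [0, 0, 0x111e48, 0x539e48, 0x395e84]]

noncomputable def n14 : Ent := ⟨e14, noF, [], [], []⟩

def c14 : PLift (Cov.check n14.C.D v14 = true) := ⟨by decide +kernel⟩

def b14 : PLift (entF (fidx ts) 400 14 n14 = true) := ⟨by decide +kernel⟩

theorem g14 : GoodF (fidx ts) 400 14 := GoodF.ofV v14 n14 c14.down b14.down

/-- 4575:14 -/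
noncomputable def e15 : SCfg where
  D := {
    a := 4
    L := 8
    kp := 6
    inn := [(0, 1), (0, 2), (1, 0), (1, 2), (2, 0), (2, 1), (2, 3), (3, 2)]
    mix := [(0, 0), (0, 1), (1, 1), (1, 2), (1, 3), (2, 0), (2, 3), (2, 4), (2, 5), (3, 0), (3, 5), (3,
      6), (3, 7)]
    cl := [0, 1, 3, 2, 4, 0, 5, 6]
    chq := [(0, 3), (3, 0), (3, 4), (4, 3)]
    rng := [(0, 1), (0, 7), (1, 0), (1, 2), (2, 1), (2, 3), (3, 2), (3, 4), (4, 3), (4, 5), (5, 4), (5,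
      6), (6, 5), (6, 7), (7, 0), (7, 6)]
    lev := [] }
  links := [[1, 2, 4, 5], [2, 0, 5, 6, 7], [4, 0, 1, 7, 8, 9, 3], [4, 2, 9, 10, 11]]
  P := {
    a := 4
    N := 12
    nb := [54, 229, 923, 3604, 2093, 83, 162, 326, 644, 1292, 2568, 1048]
    tri := [(0, 1, 2), (0, 1, 5), (0, 2, 4), (0, 4, 5), (1, 2, 7), (1, 5, 6), (1, 6, 7), (2, 3, 4), (2,
      3, 9), (2, 7, 8), (2, 8, 9), (3, 4, 11), (3, 9, 10), (3, 10, 11)]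
    fin := [0, 1, 1, 0, 0, 5, 1, 7, 8, 0, 10, 11]
    chd := [(0, 1), (1, 8)]
    steps := [(0, 4), (0, 3), (0, 9), (1, 2), (1, 6)] }
  rep := [0, 5, 7, 1, 8, 10, 11]

noncomputable def v15 : Cov.CovD where
  P := 3
  N := 4
  pl := [1, 3, 6, 7]
  lev := [⟨[], [], [], [1], [(0, 0, [3])]⟩,
    ⟨[], [(0, 0), (0, 3)], [], [1, 2], [(2, 3, [0, 4])]⟩,
    ⟨[(0, 1)], [(0, 0), (0, 4), (1, 0), (1, 3), (1, 4)], [(0, 0), (0, 4)], [2], [(0, 0,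
      [3]), (4, 4, [3]), (5, 0, [3])]⟩,
    ⟨[(0, 2), (1, 2)], [(0, 0), (2, 0), (2, 4)], [(0, 0)], [5, 6], [(0, 0, [3]), (5, 0,
      [3])]⟩]
  Ta := [((0, 1), 0, 1), ((0, 7), 0, 6), ((5, 4), 0, 4), ((5, 6), 0, 5)]
  Tb := [((0, 1, 7), 0, 1, 6), ((1, 0, 2), 1, 0, 3), ((2, 1, 3), 3, 1, 2), ((3, 2, 4), 2, 3, 4),
    ((4, 3, 5), 4, 2, 0), ((5, 4, 6), 0, 4, 5), ((6, 5, 7), 5, 0, 6), ((7, 0, 6), 6, 0, 5)]
  Tc := [(3, 0, 4)]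
  Td := [((0, 3), (0, 1), 1), ((0, 3), (0, 7), 6), ((0, 3), (5, 4), 4), ((0, 3), (5, 6), 5), ((3,
    0), (2, 1), 1), ((3, 0), (2, 3), 2), ((3, 4), (2, 1), 1), ((3, 4), (2, 3), 2), ((4, 3),
    (4, 3), 2), ((4, 3), (4, 5), 0)]
  G := [[0xe2e8a4, 0xe4e8c2, 0xe468eec8, 0x441eac1c, 0xeea14], [0, 0, 0xe4e8c1, 0x6ec1881c,
    0xeea14]]

noncomputable def n15 : Ent := ⟨e15, noF, [], [], []⟩

def c15 : PLift (Cov.check n15.C.D v15 = true) := ⟨by decide +kernel⟩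

def b15 : PLift (entF (fidx ts) 400 15 n15 = true) := ⟨by decide +kernel⟩

theorem g15 : GoodF (fidx ts) 400 15 := GoodF.ofV v15 n15 c15.down b15.down

/-- 4746:15 -/
noncomputable def e16 : SCfg where
  D := {
    a := 4
    L := 7
    kp := 5
    inn := [(0, 1), (0, 3), (1, 0), (1, 2), (1, 3), (2, 1), (2, 3), (3, 0), (3, 1), (3, 2)]
    mix := [(0, 0), (0, 1), (1, 0), (1, 2), (1, 3), (1, 4), (2, 2), (2, 5), (3, 1), (3, 5), (3, 6)]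
    cl := [0, 1, 0, 4, 5, 2, 3]
    chq := [(0, 3), (3, 0)]
    rng := [(0, 1), (0, 4), (1, 0), (1, 6), (2, 3), (2, 5), (3, 2), (3, 4), (4, 0), (4, 3), (5, 2), (5,
      6), (6, 1), (6, 5)]
    lev := [] }
  links := [[1, 4, 5, 3], [4, 0, 3, 2, 6, 7, 8], [6, 1, 3, 9], [9, 2, 1, 0, 5, 10]]
  P := {
    a := 4
    N := 11
    nb := [58, 477, 586, 1575, 291, 1049, 646, 322, 146, 1100, 552]
    tri := [(0, 1, 3), (0, 1, 4), (0, 3, 5), (0, 4, 5), (1, 2, 3), (1, 2, 6), (1, 4, 8), (1, 6, 7), (1,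
      7, 8), (2, 3, 9), (2, 6, 9), (3, 5, 10), (3, 9, 10)]
    fin := [0, 0, 0, 0, 0, 5, 0, 7, 8, 9, 10]
    chd := [(0, 10)]
    steps := [(0, 1), (0, 2), (0, 3), (0, 4), (0, 6)] }
  rep := [0, 5, 9, 10, 7, 8]

noncomputable def v16 : Cov.CovD where
  P := 3
  N := 3
  pl := [1, 3, 4, 5]
  lev := [⟨[], [], [], [1], [(0, 0, [3])]⟩,
    ⟨[], [(0, 0)], [(0, 0)], [4, 5], [(0, 0, [3]), (2, 0, [3])]⟩,
    ⟨[(0, 1)], [(1, 0)], [], [2], [(2, 0, [3])]⟩,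
    ⟨[(0, 1), (0, 2), (1, 2)], [(0, 0), (0, 3), (1, 0), (1, 3), (2, 0), (2, 3)], [], [1,
      2], [(6, 3, [0])]⟩]
  Ta := [((0, 1), 0, 1), ((0, 4), 0, 5), ((2, 3), 0, 4), ((2, 5), 0, 2)]
  Tb := [((0, 1, 4), 0, 1, 5), ((1, 0, 6), 1, 0, 3), ((2, 3, 5), 0, 4, 2), ((3, 2, 4), 4, 0, 5),
    ((4, 0, 3), 5, 0, 4), ((5, 2, 6), 2, 0, 3), ((6, 1, 5), 3, 1, 2)]
  Tc := []
  Td := [((0, 3), (0, 1), 1), ((0, 3), (0, 4), 5), ((0, 3), (2, 3), 4), ((0, 3), (2, 5), 2), ((3,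
    0), (6, 1), 1), ((3, 0), (6, 5), 2)]
  G := [[0, 0xc1c8c1e2, 0, 0x181818e4, 0x181818e4], [0, 0, 0xc2c8c4e1, 0x141814e4, 0x121212e8]]

noncomputable def n16 : Ent := ⟨e16, noF, [], [], []⟩

def c16 : PLift (Cov.check n16.C.D v16 = true) := ⟨by decide +kernel⟩

def b16 : PLift (entF (fidx ts) 400 16 n16 = true) := ⟨by decide +kernel⟩

theorem g16 : GoodF (fidx ts) 400 16 := GoodF.ofV v16 n16 c16.down b16.down

/-- 4645:16/1 -/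
noncomputable def e17 : SCfg where
  D := {
    a := 4
    L := 6
    kp := 4
    inn := [(0, 1), (0, 3), (1, 0), (1, 2), (2, 1), (3, 0)]
    mix := [(0, 0), (0, 1), (1, 0), (1, 1), (1, 2), (1, 3), (2, 1), (2, 2), (2, 4), (3, 0), (3, 1), (3,
      4), (3, 5)]
    cl := [0, 0, 1, 2, 3, 4]
    chq := [(0, 1), (1, 0)]
    rng := [(0, 3), (0, 5), (1, 4), (2, 3), (2, 4), (3, 0), (3, 2), (4, 1), (4, 2), (4, 5), (5, 0), (5,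
      4)]
    lev := [] }
  links := [[1, 4, 3, 5], [4, 0, 5, 2, 6, 7], [6, 1, 5, 8], [5, 0, 4, 9, 8]]
  P := {
    a := 4
    N := 10
    nb := [58, 245, 354, 817, 651, 271, 390, 82, 620, 280]
    tri := [(0, 1, 4), (0, 1, 5), (0, 3, 4), (0, 3, 5), (1, 2, 5), (1, 2, 6), (1, 4, 7), (1, 6, 7), (2,
      5, 8), (2, 6, 8), (3, 4, 9), (3, 5, 8), (3, 8, 9)]
    fin := [0, 0, 0, 0, 0, 0, 6, 7, 8, 9]
    chd := [(0, 6)]
    steps := [(0, 1), (0, 2), (0, 4), (0, 5), (0, 3)] }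
  rep := [0, 6, 7, 8, 9]

noncomputable def v17 : Cov.CovD where
  P := 3
  N := 2
  pl := [3, 4, 5]
  lev := [⟨[], [], [(0, 0)], [], [(0, 0, [1]), (1, 0, [1])]⟩,
    ⟨[], [(0, 0), (0, 1)], [(0, 0), (0, 1)], [2], [(0, 0, [1]), (1, 0, [1]), (2, 1, [0])]⟩,
    ⟨[(0, 1)], [(0, 0), (1, 0), (1, 1)], [(0, 1)], [3], [(1, 0, [1]), (2, 1, [0])]⟩,
    ⟨[(0, 1)], [(0, 0), (1, 0), (2, 0)], [(0, 0)], [3, 4], [(0, 0, [1]), (1, 0, [1])]⟩]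
  Ta := [((0, 3), 0, 2), ((0, 5), 0, 4), ((1, 4), 0, 3)]
  Tb := [((0, 3, 5), 0, 2, 4), ((2, 3, 4), 1, 2, 3), ((3, 0, 2), 2, 0, 1), ((4, 1, 2), 3, 0, 1),
    ((4, 1, 5), 3, 0, 4), ((4, 2, 5), 3, 1, 4), ((5, 0, 4), 4, 0, 3)]
  Tc := []
  Td := [((0, 1), (0, 3), 2), ((0, 1), (0, 5), 4), ((0, 1), (1, 4), 3), ((1, 0), (2, 3), 2), ((1,
    0), (2, 4), 3)]
  G := [[0, 0xca684, 0xa6c42, 0xe182, 0xe182], [0, 0xc6a48, 0, 0xa6c42, 0xa6c84]]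

noncomputable def n17 : Ent := ⟨e17, noF, [], [], []⟩

def c17 : PLift (Cov.check n17.C.D v17 = true) := ⟨by decide +kernel⟩

def b17 : PLift (entF (fidx ts) 400 17 n17 = true) := ⟨by decide +kernel⟩

theorem g17 : GoodF (fidx ts) 400 17 := GoodF.ofV v17 n17 c17.down b17.down

/-- 4645:16 -/
noncomputable def e18 : SCfg where
  D := {
    a := 4
    L := 7
    kp := 5
    inn := [(0, 1), (0, 3), (1, 0), (1, 2), (2, 1), (3, 0)]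
    mix := [(0, 0), (0, 1), (1, 0), (1, 1), (1, 2), (1, 3), (2, 1), (2, 2), (2, 4), (3, 0), (3, 1), (3,
      5), (3, 6)]
    cl := [0, 0, 1, 2, 3, 4, 5]
    chq := [(0, 1), (1, 0)]
    rng := [(0, 3), (0, 5), (1, 4), (1, 6), (2, 3), (2, 4), (3, 0), (3, 2), (4, 1), (4, 2), (5, 0), (5,
      6), (6, 1), (6, 5)]
    lev := [] }
  links := [[1, 4, 3, 5], [4, 0, 5, 2, 6, 7], [6, 1, 5, 8], [5, 0, 4, 9, 10]]
  P := {
    a := 4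
    N := 11
    nb := [58, 245, 354, 1585, 651, 1295, 390, 82, 100, 1048, 552]
    tri := [(0, 1, 4), (0, 1, 5), (0, 3, 4), (0, 3, 5), (1, 2, 5), (1, 2, 6), (1, 4, 7), (1, 6, 7), (2,
      5, 8), (2, 6, 8), (3, 4, 9), (3, 5, 10), (3, 9, 10)]
    fin := [0, 0, 0, 0, 0, 0, 6, 7, 8, 9, 10]
    chd := [(0, 6)]
    steps := [(0, 1), (0, 2), (0, 3), (0, 4), (0, 5)] }
  rep := [0, 6, 7, 8, 9, 10]

noncomputable def v18 : Cov.CovD where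
  P := 3
  N := 3
  pl := [3, 4, 5, 6]
  lev := [⟨[], [], [(0, 0)], [], [(0, 0, [1]), (1, 0, [1])]⟩,
    ⟨[], [(0, 0), (0, 1)], [(0, 0), (0, 1)], [2], [(0, 0, [1]), (1, 0, [1]), (2, 1, [0])]⟩,
    ⟨[(0, 1)], [(0, 0), (1, 0), (1, 1)], [(0, 1)], [3], [(1, 0, [1]), (2, 1, [0])]⟩,
    ⟨[(0, 1)], [(0, 0), (1, 0), (2, 0)], [(0, 0)], [4, 5], [(0, 0, [1]), (1, 0, [1])]⟩]
  Ta := [((0, 3), 0, 2), ((0, 5), 0, 4), ((1, 4), 0, 3), ((1, 6), 0, 5)]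
  Tb := [((0, 3, 5), 0, 2, 4), ((1, 4, 6), 0, 3, 5), ((2, 3, 4), 1, 2, 3), ((3, 0, 2), 2, 0, 1),
    ((4, 1, 2), 3, 0, 1), ((5, 0, 6), 4, 0, 5), ((6, 1, 5), 5, 0, 4)]
  Tc := []
  Td := [((0, 1), (0, 3), 2), ((0, 1), (0, 5), 4), ((0, 1), (1, 4), 3), ((0, 1), (1, 6), 5), ((1,
    0), (2, 3), 2), ((1, 0), (2, 4), 3)]
  G := [[0, 0xee684, 0xe148, 0xe148, 0xe182], [0, 0xee682, 0, 0xeec82, 0xeec84]]

noncomputable def n18 : Ent := ⟨e18, noF, [], [], [(10, 8, [200761161272026436462535268260970022748360705, 0])]⟩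

def c18 : PLift (Cov.check n18.C.D v18 = true) := ⟨by decide +kernel⟩

def b18 : PLift (entF (fidx ts) 400 18 n18 = true) := ⟨by decide +kernel⟩

theorem g18 : GoodF (fidx ts) 400 18 := GoodF.ofV v18 n18 c18.down b18.down

/-- 4646:17 -/
noncomputable def e19 : SCfg where
  D := {
    a := 4
    L := 6
    kp := 5
    inn := [(0, 1), (0, 3), (1, 0), (1, 2), (1, 3), (2, 1), (2, 3), (3, 0), (3, 1), (3, 2)]
    mix := [(0, 0), (0, 1), (1, 0), (1, 2), (1, 3), (2, 2), (2, 4), (3, 1), (3, 4), (3, 5)]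
    cl := [0, 2, 3, 5, 1, 4]
    chq := [(0, 1), (0, 3), (0, 4), (1, 0), (3, 0), (4, 0)]
    rng := [(0, 1), (0, 3), (1, 0), (1, 5), (2, 3), (2, 4), (3, 0), (3, 2), (4, 2), (4, 5), (5, 1), (5,
      4)]
    lev := [] }
  links := [[1, 4, 5, 3], [4, 0, 3, 2, 6, 7], [6, 1, 3, 8], [8, 2, 1, 0, 5, 9]]
  P := {
    a := 4
    N := 10
    nb := [58, 221, 330, 807, 163, 537, 390, 82, 588, 296]
    tri := [(0, 1, 3), (0, 1, 4), (0, 3, 5), (0, 4, 5), (1, 2, 3), (1, 2, 6), (1, 4, 7), (1, 6, 7), (2,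
      3, 8), (2, 6, 8), (3, 5, 9), (3, 8, 9)]
    fin := [0, 0, 0, 0, 0, 5, 6, 7, 8, 9]
    chd := [(0, 6), (0, 8), (0, 9)]
    steps := [(0, 1), (0, 2), (0, 3), (0, 4)] }
  rep := [0, 8, 5, 6, 9, 7]

noncomputable def v19 : Cov.CovD where
  P := 3
  N := 3
  pl := [1, 3]
  lev := [⟨[], [], [], [2], [(0, 0, [1, 3, 4])]⟩,
    ⟨[], [(0, 0), (0, 3)], [(0, 3)], [5], [(0, 0, [1, 3, 4]), (2, 3, [0])]⟩,
    ⟨[(0, 1)], [(1, 0), (1, 1), (1, 3)], [(1, 3)], [], [(2, 3, [0]), (4, 1, [0])]⟩,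
    ⟨[(0, 1), (0, 2), (1, 2)], [(0, 0), (0, 1), (0, 4), (1, 0), (1, 1), (1, 3), (1, 4), (2,
      1), (2, 3), (2, 4)], [(1, 4)], [2], [(4, 1, [0]), (5, 4, [0])]⟩]
  Ta := []
  Tb := [((0, 1, 3), 0, 2, 5), ((1, 0, 5), 2, 0, 4), ((2, 3, 4), 3, 5, 1), ((3, 0, 2), 5, 0, 3),
    ((4, 2, 5), 1, 3, 4), ((5, 1, 4), 4, 2, 1)]
  Tc := [(0, 1, 3), (0, 1, 4), (0, 3, 4)]
  Td := [((0, 1), (0, 1), 2), ((0, 1), (0, 3), 5), ((0, 3), (0, 1), 2), ((0, 3), (0, 3), 5), ((0,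
    4), (0, 1), 2), ((0, 4), (0, 3), 5), ((1, 0), (4, 2), 3), ((1, 0), (4, 5), 4), ((3, 0),
    (2, 3), 5), ((3, 0), (2, 4), 1), ((4, 0), (5, 1), 2), ((4, 0), (5, 4), 1)]
  G := [[0, 0xcca14, 0xc1c16c18c, 0x14516188c, 0x181491e2]]

noncomputable def n19 : Ent := ⟨e19, noF, [], [], []⟩

def c19 : PLift (Cov.check n19.C.D v19 = true) := ⟨by decide +kernel⟩

def b19 : PLift (entF (fidx ts) 400 19 n19 = true) := ⟨by decide +kernel⟩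

theorem g19 : GoodF (fidx ts) 400 19 := GoodF.ofV v19 n19 c19.down b19.down

/-- 4666:18 -/
noncomputable def e20 : SCfg where
  D := {
    a := 4
    L := 9
    kp := 6
    inn := [(0, 1), (1, 0), (1, 2), (1, 3), (2, 1), (2, 3), (3, 1), (3, 2)]
    mix := [(0, 0), (0, 1), (0, 2), (1, 0), (1, 2), (1, 3), (2, 2), (2, 4), (2, 5), (2, 6), (3, 3), (3,
      6), (3, 7), (3, 8)]
    cl := [1, 2, 0, 0, 3, 4, 0, 5, 6]
    chq := []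
    rng := [(0, 1), (0, 3), (1, 0), (1, 2), (2, 1), (2, 4), (3, 0), (3, 8), (4, 2), (4, 5), (5, 4), (5,
      6), (6, 5), (6, 7), (7, 6), (7, 8), (8, 3), (8, 7)]
    lev := [] }
  links := [[1, 4, 5, 6], [4, 0, 6, 2, 3, 7], [3, 1, 6, 8, 9, 10], [7, 1, 2, 10, 11, 12]]
  P := {
    a := 4
    N := 13
    nb := [114, 221, 1866, 7302, 163, 81, 295, 4122, 580, 1284, 2572, 5128, 2184]
    tri := [(0, 1, 4), (0, 1, 6), (0, 4, 5), (0, 5, 6), (1, 2, 3), (1, 2, 6), (1, 3, 7), (1, 4, 7), (2,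
      3, 10), (2, 6, 8), (2, 8, 9), (2, 9, 10), (3, 7, 12), (3, 10, 11), (3, 11, 12)]
    fin := [0, 0, 2, 2, 0, 5, 2, 2, 8, 9, 2, 11, 12]
    chd := []
    steps := [(0, 1), (0, 4), (2, 3), (2, 6), (2, 10), (2, 7)] }
  rep := [2, 0, 5, 8, 9, 11, 12]

noncomputable def v20 : Cov.CovD where
  P := 3
  N := 4
  pl := [0, 1, 4, 5, 7, 8]
  lev := [⟨[], [], [], [1, 2], [(2, 0, [])]⟩,
    ⟨[], [(0, 0)], [(0, 0)], [1], [(2, 0, []), (3, 0, [])]⟩,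
    ⟨[(0, 1)], [(0, 0), (1, 0)], [(0, 0)], [3, 4], [(2, 0, []), (6, 0, [])]⟩,
    ⟨[(0, 1), (1, 2)], [(1, 0), (2, 0)], [(0, 0)], [5, 6], [(3, 0, []), (6, 0, [])]⟩]
  Ta := [((2, 1), 0, 2), ((2, 4), 0, 3), ((3, 0), 0, 1), ((3, 8), 0, 6), ((6, 5), 0, 4), ((6, 7),
    0, 5)]
  Tb := [((0, 1, 3), 1, 2, 0), ((1, 0, 2), 2, 1, 0), ((2, 1, 4), 0, 2, 3), ((3, 0, 8), 0, 1, 6),
    ((4, 2, 5), 3, 0, 4), ((5, 4, 6), 4, 3, 0), ((6, 5, 7), 0, 4, 5), ((7, 6, 8), 5, 0, 6),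
    ((8, 3, 7), 6, 0, 5)]
  Tc := []
  Td := []
  G := [[0, 0, 0x6eee88c4, 0x6eee88c4, 0x44eaeec8], [0, 0xeaee4468, 0, 0x6eee88c4, 0x44eaeec8],
    [0, 0, 0, 0x44eaeec8, 0x6eee88c1]]

noncomputable def n20 : Ent := ⟨e20, noF, [], [], []⟩

def c20 : PLift (Cov.check n20.C.D v20 = true) := ⟨by decide +kernel⟩

def b20 : PLift (entF (fidx ts) 400 20 n20 = true) := ⟨by decide +kernel⟩

theorem g20 : GoodF (fidx ts) 400 20 := GoodF.ofV v20 n20 c20.down b20.down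

/-- 4666:19 -/
noncomputable def e21 : SCfg where
  D := {
    a := 4
    L := 8
    kp := 6
    inn := [(0, 1), (0, 3), (1, 0), (1, 2), (1, 3), (2, 1), (2, 3), (3, 0), (3, 1), (3, 2)]
    mix := [(0, 0), (0, 1), (1, 0), (1, 2), (1, 3), (2, 2), (2, 4), (2, 5), (2, 6), (3, 1), (3, 4), (3,
      7)]
    cl := [0, 1, 3, 2, 3, 5, 6, 4]
    chq := [(0, 3), (0, 4), (3, 0), (4, 0)]
    rng := [(0, 1), (0, 3), (1, 0), (1, 7), (2, 3), (2, 6), (3, 0), (3, 2), (4, 5), (4, 7), (5, 4), (5,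
      6), (6, 2), (6, 5), (7, 1), (7, 4)]
    lev := [] }
  links := [[1, 4, 5, 3], [4, 0, 3, 2, 6, 7], [6, 1, 3, 8, 9, 10], [8, 2, 1, 0, 5, 11]]
  P := {
    a := 4
    N := 12
    nb := [58, 221, 1866, 2343, 163, 2073, 1158, 82, 2572, 1284, 580, 296]
    tri := [(0, 1, 3), (0, 1, 4), (0, 3, 5), (0, 4, 5), (1, 2, 3), (1, 2, 6), (1, 4, 7), (1, 6, 7), (2,
      3, 8), (2, 6, 10), (2, 8, 9), (2, 9, 10), (3, 5, 11), (3, 8, 11)]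
    fin := [0, 0, 2, 0, 0, 5, 2, 7, 2, 9, 10, 11]
    chd := [(0, 2), (0, 11)]
    steps := [(0, 1), (0, 3), (0, 4), (2, 8), (2, 6)] }
  rep := [0, 5, 7, 2, 11, 9, 10]

noncomputable def v21 : Cov.CovD where
  P := 3
  N := 4
  pl := [1, 3, 5, 6]
  lev := [⟨[], [], [], [1], [(0, 0, [3, 4])]⟩,
    ⟨[], [(0, 0), (0, 3)], [(0, 3)], [2], [(0, 0, [3, 4]), (2, 3, [0])]⟩,
    ⟨[(0, 1)], [(1, 0), (1, 3)], [(3, 3)], [5, 6], [(2, 3, [0]), (4, 3, [0])]⟩,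
    ⟨[(0, 1), (0, 2), (1, 2)], [(0, 0), (0, 3), (0, 4), (1, 0), (1, 3), (1, 4), (2, 3), (2,
      4)], [(3, 4)], [1], [(4, 3, [0]), (7, 4, [0])]⟩]
  Ta := [((2, 3), 3, 2), ((2, 6), 3, 6), ((4, 5), 3, 5), ((4, 7), 3, 4)]
  Tb := [((0, 1, 3), 0, 1, 2), ((1, 0, 7), 1, 0, 4), ((2, 3, 6), 3, 2, 6), ((3, 0, 2), 2, 0, 3),
    ((4, 5, 7), 3, 5, 4), ((5, 4, 6), 5, 3, 6), ((6, 2, 5), 6, 3, 5), ((7, 1, 4), 4, 1, 3)]
  Tc := [(0, 3, 4)]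
  Td := [((0, 3), (0, 1), 1), ((0, 3), (0, 3), 2), ((0, 4), (0, 1), 1), ((0, 4), (0, 3), 2), ((3,
    0), (2, 3), 2), ((3, 0), (2, 6), 6), ((3, 0), (4, 5), 5), ((3, 0), (4, 7), 4), ((4, 0),
    (7, 1), 1), ((4, 0), (7, 4), 3)]
  G := [[0, 0x4444f8888fc2, 0x111d4111b2c, 0x11574119b8c, 0x119d1187a4], [0, 0xe2464ae9ca,
    0x1111f24, 0x111df48, 0x1115f24]]

noncomputable def n21 : Ent := ⟨e21, noF, [], [], []⟩

def c21 : PLift (Cov.check n21.C.D v21 = true) := ⟨by decide +kernel⟩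

def b21 : PLift (entF (fidx ts) 400 21 n21 = true) := ⟨by decide +kernel⟩

theorem g21 : GoodF (fidx ts) 400 21 := GoodF.ofV v21 n21 c21.down b21.down

/-- 4664:20 -/
noncomputable def e22 : SCfg where
  D := {
    a := 4
    L := 8
    kp := 6
    inn := [(0, 1), (1, 0), (1, 2), (2, 1), (2, 3), (3, 2)]
    mix := [(0, 0), (0, 1), (0, 2), (1, 0), (1, 2), (1, 3), (1, 4), (2, 2), (2, 3), (2, 5), (2, 6), (3,
      5), (3, 6), (3, 7)]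
    cl := [1, 2, 0, 0, 5, 3, 4, 6]
    chq := [(0, 6), (2, 5), (5, 2), (6, 0)]
    rng := [(0, 1), (0, 4), (1, 0), (1, 2), (2, 1), (2, 5), (3, 4), (3, 6), (4, 0), (4, 3), (5, 2), (5,
      7), (6, 3), (6, 7), (7, 5), (7, 6)]
    lev := [] }
  links := [[1, 4, 5, 6], [4, 0, 6, 2, 7, 8], [7, 1, 6, 9, 3, 10], [10, 2, 9, 11]]
  P := {
    a := 4
    N := 12
    nb := [114, 469, 1738, 3588, 291, 81, 551, 1286, 146, 2124, 2188, 1544]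
    tri := [(0, 1, 4), (0, 1, 6), (0, 4, 5), (0, 5, 6), (1, 2, 6), (1, 2, 7), (1, 4, 8), (1, 7, 8), (2,
      3, 9), (2, 3, 10), (2, 6, 9), (2, 7, 10), (3, 9, 11), (3, 10, 11)]
    fin := [0, 0, 2, 2, 4, 0, 2, 2, 8, 9, 10, 11]
    chd := [(0, 8), (2, 11)]
    steps := [(0, 1), (0, 5), (2, 3), (2, 6), (2, 7)] }
  rep := [2, 4, 0, 9, 10, 8, 11]

noncomputable def v22 : Cov.CovD where
  P := 3
  N := 4
  pl := [0, 5, 6]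
  lev := [⟨[], [], [(0, 2)], [1], [(1, 2, [5]), (2, 0, [6])]⟩,
    ⟨[], [(0, 0), (0, 2), (0, 5)], [(0, 0), (0, 5)], [1], [(2, 0, [6]), (3, 0, [6]), (4, 5,
      [2])]⟩,
    ⟨[(0, 1)], [(0, 0), (1, 0), (1, 5)], [(0, 0)], [3, 4], [(2, 0, [6]), (3, 0, [6])]⟩,
    ⟨[(1, 2)], [(2, 0), (2, 6)], [], [3, 4], [(7, 6, [0])]⟩]
  Ta := [((2, 1), 0, 2), ((2, 5), 0, 3), ((3, 4), 0, 5), ((3, 6), 0, 4)]
  Tb := [((0, 1, 4), 1, 2, 5), ((1, 0, 2), 2, 1, 0), ((2, 1, 5), 0, 2, 3), ((3, 4, 6), 0, 5, 4),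
    ((4, 0, 3), 5, 1, 0), ((5, 2, 7), 3, 0, 6), ((6, 3, 7), 4, 0, 6), ((7, 5, 6), 6, 3, 4)]
  Tc := []
  Td := [((0, 6), (2, 1), 2), ((0, 6), (2, 5), 3), ((0, 6), (3, 4), 5), ((0, 6), (3, 6), 4), ((2,
    5), (1, 0), 1), ((2, 5), (1, 2), 0), ((5, 2), (4, 0), 1), ((5, 2), (4, 3), 0), ((6, 0),
    (7, 5), 3), ((6, 0), (7, 6), 4)]
  G := [[0, 0x12b71ea4, 0x116111ec188c, 0xdb6d17ec188c, 0x14d17ec8], [0, 0x12b71ea8, 0,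
    0x1dbe72cd1c45, 0x14d17ec1]]

noncomputable def n22 : Ent := ⟨e22, noF, [], [], []⟩

def c22 : PLift (Cov.check n22.C.D v22 = true) := ⟨by decide +kernel⟩

def b22 : PLift (entF (fidx ts) 400 22 n22 = true) := ⟨by decide +kernel⟩

theorem g22 : GoodF (fidx ts) 400 22 := GoodF.ofV v22 n22 c22.down b22.down

/-- 4575:21/1 -/
noncomputable def e23 : SCfg where
  D := {
    a := 4
    L := 8
    kp := 5
    inn := [(0, 1), (0, 2), (1, 0), (2, 0), (2, 3), (3, 2)]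
    mix := [(0, 0), (0, 1), (1, 0), (1, 1), (1, 2), (1, 3), (2, 0), (2, 1), (2, 4), (2, 5), (2, 6), (3,
      3), (3, 4), (3, 5), (3, 7)]
    cl := [0, 0, 4, 3, 1, 1, 2, 5]
    chq := []
    rng := [(0, 3), (0, 4), (1, 2), (1, 6), (2, 1), (2, 3), (3, 0), (3, 2), (3, 4), (3, 7), (4, 0), (4,
      3), (5, 6), (5, 7), (6, 1), (6, 5), (7, 3), (7, 5)]
    lev := [] }
  links := [[1, 4, 2, 5], [4, 0, 5, 6, 7], [5, 0, 4, 8, 3, 9, 10], [9, 2, 8, 7, 11]]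
  P := {
    a := 4
    N := 12
    nb := [54, 241, 1849, 2948, 391, 1095, 162, 2394, 156, 3084, 548, 648]
    tri := [(0, 1, 4), (0, 1, 5), (0, 2, 4), (0, 2, 5), (1, 4, 7), (1, 5, 6), (1, 6, 7), (2, 3, 8), (2,
      3, 9), (2, 4, 8), (2, 5, 10), (2, 9, 10), (3, 7, 8), (3, 7, 11), (3, 9, 11)]
    fin := [0, 0, 0, 3, 0, 0, 6, 7, 3, 3, 10, 11]
    chd := []
    steps := [(0, 1), (0, 2), (0, 4), (0, 5), (3, 8), (3, 9)] }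
  rep := [0, 3, 10, 7, 6, 11]

noncomputable def v23 : Cov.CovD where
  P := 3
  N := 3
  pl := [2, 3, 6, 7]
  lev := [⟨[], [], [(0, 0)], [], [(0, 0, []), (1, 0, [])]⟩,
    ⟨[], [(0, 0)], [(0, 0)], [3, 4], [(0, 0, []), (1, 0, [])]⟩,
    ⟨[(0, 1)], [(0, 0), (0, 1), (1, 0)], [(0, 0), (0, 1), (1, 1)], [2], [(0, 0, []), (1, 0,
      []), (4, 1, []), (5, 1, [])]⟩,
    ⟨[(0, 2)], [(2, 0), (2, 1)], [(1, 1)], [3, 5], [(4, 1, []), (5, 1, [])]⟩]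
  Ta := [((0, 3), 0, 3), ((0, 4), 0, 1), ((1, 2), 0, 4), ((1, 6), 0, 2), ((4, 0), 1, 0), ((4, 3),
    1, 3), ((5, 6), 1, 2), ((5, 7), 1, 5)]
  Tb := [((0, 3, 4), 0, 3, 1), ((1, 2, 6), 0, 4, 2), ((2, 1, 3), 4, 0, 3), ((3, 0, 2), 3, 0, 4),
    ((3, 0, 4), 3, 0, 1), ((3, 0, 7), 3, 0, 5), ((3, 2, 4), 3, 4, 1), ((3, 2, 7), 3, 4, 5),
    ((3, 4, 7), 3, 1, 5), ((4, 0, 3), 1, 0, 3), ((5, 6, 7), 1, 2, 5), ((6, 1, 5), 2, 0, 1),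
    ((7, 3, 5), 5, 3, 1)]
  Tc := []
  Td := []
  G := [[0, 0xe4e4e4e8, 0, 0, 0x9858d8e4], [0, 0, 0, 0x9458d8e2, 0x9858d8e4], [0, 0, 0x9858d8e4,
    0, 0x9858d8e2], [0, 0, 0x9858d4e2, 0x9458d8e2, 0x9858d8e4]]

noncomputable def n23 : Ent := ⟨e23, noF, [], [], []⟩

def c23 : PLift (Cov.check n23.C.D v23 = true) := ⟨by decide +kernel⟩

def b23 : PLift (entF (fidx ts) 400 23 n23 = true) := ⟨by decide +kernel⟩

theorem g23 : GoodF (fidx ts) 400 23 := GoodF.ofV v23 n23 c23.down b23.down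

/-- 4575:21 -/
noncomputable def e24 : SCfg where
  D := {
    a := 4
    L := 9
    kp := 6
    inn := [(0, 1), (0, 2), (1, 0), (2, 0), (2, 3), (3, 2)]
    mix := [(0, 0), (0, 1), (1, 0), (1, 1), (1, 2), (1, 3), (2, 0), (2, 1), (2, 4), (2, 5), (2, 6), (3,
      4), (3, 5), (3, 7), (3, 8)]
    cl := [0, 0, 3, 4, 1, 1, 2, 5, 6]
    chq := []
    rng := [(0, 3), (0, 4), (1, 2), (1, 6), (2, 1), (2, 3), (3, 0), (3, 2), (4, 0), (4, 7), (5, 6), (5,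
      8), (6, 1), (6, 5), (7, 4), (7, 8), (8, 5), (8, 7)]
    lev := [] }
  links := [[1, 4, 2, 5], [4, 0, 5, 6, 7], [5, 0, 4, 8, 3, 9, 10], [9, 2, 8, 11, 12]]
  P := {
    a := 4
    N := 13
    nb := [54, 241, 1849, 6916, 391, 1095, 162, 82, 2076, 5132, 548, 4360, 2568]
    tri := [(0, 1, 4), (0, 1, 5), (0, 2, 4), (0, 2, 5), (1, 4, 7), (1, 5, 6), (1, 6, 7), (2, 3, 8), (2,
      3, 9), (2, 4, 8), (2, 5, 10), (2, 9, 10), (3, 8, 11), (3, 9, 12), (3, 11, 12)]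
    fin := [0, 0, 0, 3, 0, 0, 6, 7, 3, 3, 10, 11, 12]
    chd := []
    steps := [(0, 1), (0, 2), (0, 4), (0, 5), (3, 8), (3, 9)] }
  rep := [0, 3, 10, 6, 7, 11, 12]

noncomputable def v24 : Cov.CovD where
  P := 3
  N := 4
  pl := [2, 3, 6, 7, 8]
  lev := [⟨[], [], [(0, 0)], [], [(0, 0, []), (1, 0, [])]⟩,
    ⟨[], [(0, 0)], [(0, 0)], [3, 4], [(0, 0, []), (1, 0, [])]⟩,
    ⟨[(0, 1)], [(0, 0), (0, 1), (1, 0)], [(0, 0), (0, 1), (1, 1)], [2], [(0, 0, []), (1, 0,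
      []), (4, 1, []), (5, 1, [])]⟩,
    ⟨[(0, 2)], [(2, 0), (2, 1)], [(1, 1)], [5, 6], [(4, 1, []), (5, 1, [])]⟩]
  Ta := [((0, 3), 0, 4), ((0, 4), 0, 1), ((1, 2), 0, 3), ((1, 6), 0, 2), ((4, 0), 1, 0), ((4, 7),
    1, 5), ((5, 6), 1, 2), ((5, 8), 1, 6)]
  Tb := [((0, 3, 4), 0, 4, 1), ((1, 2, 6), 0, 3, 2), ((2, 1, 3), 3, 0, 4), ((3, 0, 2), 4, 0, 3),
    ((4, 0, 7), 1, 0, 5), ((5, 6, 8), 1, 2, 6), ((6, 1, 5), 2, 0, 1), ((7, 4, 8), 5, 1, 6),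
    ((8, 5, 7), 6, 1, 5)]
  Tc := []
  Td := []
  G := [[0, 0xe8e8e8e4, 0, 0, 0xd8d8d8e2], [0, 0, 0, 0xd8d4d8e2, 0xd8d8d8e4], [0, 0, 0xd8d4d4e2,
    0, 0xd8d8d8e2], [0, 0, 0xd4d4d4e2, 0xd4d8d8e2, 0xd8d8d8e4]]

noncomputable def n24 : Ent := ⟨e24, noF, [], [], [(11, 7, [4490646669154143132242546680492801002030757050413057, 0])]⟩

def c24 : PLift (Cov.check n24.C.D v24 = true) := ⟨by decide +kernel⟩

def b24 : PLift (entF (fidx ts) 400 24 n24 = true) := ⟨by decide +kernel⟩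

theorem g24 : GoodF (fidx ts) 400 24 := GoodF.ofV v24 n24 c24.down b24.down

/-- 4565:22/1 -/
noncomputable def e25 : SCfg where
  D := {
    a := 4
    L := 7
    kp := 5
    inn := [(0, 1), (1, 0), (1, 2), (2, 1), (2, 3), (3, 2)]
    mix := [(0, 0), (0, 1), (0, 2), (1, 0), (1, 2), (1, 3), (2, 2), (2, 3), (2, 4), (2, 5), (3, 1), (3,
      2), (3, 4), (3, 6)]
    cl := [1, 2, 0, 3, 0, 4, 5]
    chq := [(0, 1), (1, 0), (1, 4), (4, 1)]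
    rng := [(0, 1), (0, 3), (1, 0), (1, 2), (1, 6), (2, 1), (3, 0), (3, 5), (4, 5), (4, 6), (5, 3), (5,
      4), (6, 1), (6, 4)]
    lev := [] }
  links := [[1, 4, 5, 6], [4, 0, 6, 2, 7], [7, 1, 6, 3, 8, 9], [8, 2, 6, 5, 10]]
  P := {
    a := 4
    N := 11
    nb := [114, 213, 970, 1380, 163, 1113, 47, 534, 1548, 388, 296]
    tri := [(0, 1, 4), (0, 1, 6), (0, 4, 5), (0, 5, 6), (1, 2, 6), (1, 2, 7), (1, 4, 7), (2, 3, 6), (2,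
      3, 8), (2, 7, 9), (2, 8, 9), (3, 5, 6), (3, 5, 10), (3, 8, 10)]
    fin := [0, 0, 0, 3, 0, 5, 3, 7, 3, 9, 10]
    chd := [(0, 3), (0, 9)]
    steps := [(0, 1), (0, 2), (0, 4), (3, 6), (3, 8)] }
  rep := [3, 0, 5, 7, 9, 10]

noncomputable def v25 : Cov.CovD where
  P := 3
  N := 3
  pl := [1, 3, 6]
  lev := [⟨[], [], [(0, 1)], [2], [(0, 1, [0, 4]), (2, 0, [1])]⟩,
    ⟨[], [(0, 0), (0, 1)], [(0, 1)], [3], [(0, 1, [0, 4]), (2, 0, [1])]⟩,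
    ⟨[(0, 1)], [(0, 0), (1, 0), (1, 1), (1, 4)], [(0, 0), (0, 4)], [3], [(2, 0, [1]), (4,
      0, [1]), (5, 4, [1])]⟩,
    ⟨[(1, 2)], [(0, 0), (1, 0), (2, 0), (2, 4)], [(0, 0)], [2, 5], [(2, 0, [1]), (4, 0,
      [1])]⟩]
  Ta := [((2, 1), 0, 2), ((4, 5), 0, 4), ((4, 6), 0, 5)]
  Tb := [((0, 1, 3), 1, 2, 3), ((1, 0, 2), 2, 1, 0), ((1, 0, 6), 2, 1, 5), ((1, 2, 6), 2, 0, 5),
    ((3, 0, 5), 3, 1, 4), ((4, 5, 6), 0, 4, 5), ((5, 3, 4), 4, 3, 0), ((6, 1, 4), 5, 2, 0)]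
  Tc := [(1, 0, 4)]
  Td := [((0, 1), (2, 1), 2), ((0, 1), (4, 5), 4), ((0, 1), (4, 6), 5), ((1, 0), (0, 1), 2), ((1,
    0), (0, 3), 3), ((1, 4), (0, 1), 2), ((1, 4), (0, 3), 3), ((4, 1), (5, 3), 3), ((4, 1),
    (5, 4), 0)]
  G := [[0, 0x44c8cc4cee8, 0xc26a6ec8, 0xc2c2c8, 0xa2aaae28e8], [0, 0xc4c8cccee8, 0, 0xc2c254,
    0x2aa8aaec1]]

noncomputable def n25 : Ent := ⟨e25, noF, [], [], []⟩

def c25 : PLift (Cov.check n25.C.D v25 = true) := ⟨by decide +kernel⟩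

def b25 : PLift (entF (fidx ts) 400 25 n25 = true) := ⟨by decide +kernel⟩

theorem g25 : GoodF (fidx ts) 400 25 := GoodF.ofV v25 n25 c25.down b25.down

/-- 4565:22 -/
noncomputable def e26 : SCfg where
  D := {
    a := 4
    L := 8
    kp := 6
    inn := [(0, 1), (1, 0), (1, 2), (2, 1), (2, 3), (3, 2)]
    mix := [(0, 0), (0, 1), (0, 2), (1, 0), (1, 2), (1, 3), (2, 2), (2, 3), (2, 4), (2, 5), (3, 2), (3,
      4), (3, 6), (3, 7)]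
    cl := [3, 4, 0, 1, 0, 2, 5, 6]
    chq := [(0, 3), (2, 3), (3, 0), (3, 2)]
    rng := [(0, 1), (0, 3), (1, 0), (1, 2), (2, 1), (2, 6), (3, 0), (3, 5), (4, 5), (4, 7), (5, 3), (5,
      4), (6, 2), (6, 7), (7, 4), (7, 6)]
    lev := [] }
  links := [[1, 4, 5, 6], [4, 0, 6, 2, 7], [7, 1, 6, 3, 8, 9], [8, 2, 6, 10, 11]]
  P := {
    a := 4
    N := 12
    nb := [114, 213, 970, 3396, 163, 81, 1071, 534, 2572, 388, 2120, 1288]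
    tri := [(0, 1, 4), (0, 1, 6), (0, 4, 5), (0, 5, 6), (1, 2, 6), (1, 2, 7), (1, 4, 7), (2, 3, 6), (2,
      3, 8), (2, 7, 9), (2, 8, 9), (3, 6, 10), (3, 8, 11), (3, 10, 11)]
    fin := [0, 0, 0, 3, 0, 5, 3, 7, 3, 9, 10, 11]
    chd := [(0, 3), (0, 9)]
    steps := [(0, 1), (0, 2), (0, 4), (3, 6), (3, 8)] }
  rep := [3, 7, 9, 0, 5, 10, 11]

noncomputable def v26 : Cov.CovD where
  P := 3
  N := 4
  pl := [1, 3, 6, 7]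
  lev := [⟨[], [], [(0, 3)], [4], [(0, 3, [0, 2]), (2, 0, [3])]⟩,
    ⟨[], [(0, 0), (0, 3)], [(0, 3)], [1], [(0, 3, [0, 2]), (2, 0, [3])]⟩,
    ⟨[(0, 1)], [(0, 0), (1, 0), (1, 2), (1, 3)], [(0, 0), (0, 2)], [1], [(2, 0, [3]), (4,
      0, [3]), (5, 2, [3])]⟩,
    ⟨[(1, 2)], [(0, 0), (1, 0), (2, 0), (2, 2)], [(0, 0)], [5, 6], [(2, 0, [3]), (4, 0,
      [3])]⟩]
  Ta := [((2, 1), 0, 4), ((2, 6), 0, 5), ((4, 5), 0, 2), ((4, 7), 0, 6)]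
  Tb := [((0, 1, 3), 3, 4, 1), ((1, 0, 2), 4, 3, 0), ((2, 1, 6), 0, 4, 5), ((3, 0, 5), 1, 3, 2),
    ((4, 5, 7), 0, 2, 6), ((5, 3, 4), 2, 1, 0), ((6, 2, 7), 5, 0, 6), ((7, 4, 6), 6, 0, 5)]
  Tc := [(3, 0, 2)]
  Td := [((0, 3), (2, 1), 4), ((0, 3), (2, 6), 5), ((0, 3), (4, 5), 2), ((0, 3), (4, 7), 6), ((2,
    3), (5, 3), 1), ((2, 3), (5, 4), 0), ((3, 0), (0, 1), 4), ((3, 0), (0, 3), 1), ((3, 2),
    (0, 1), 4), ((3, 2), (0, 3), 1)]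
  G := [[0, 0xe48e84e42e, 0, 0xe48e8468ce8ce, 0xe84e84e84e], [0, 0xe421, 0xe44acc1,
    0xe48e84e41e, 0xe84e84e84d]]

noncomputable def n26 : Ent := ⟨e26, noF, [], [], [(5, 10, [1004983125937232041231465026932718108219636027393, 0])]⟩

def c26 : PLift (Cov.check n26.C.D v26 = true) := ⟨by decide +kernel⟩

def b26 : PLift (entF (fidx ts) 400 26 n26 = true) := ⟨by decide +kernel⟩

theorem g26 : GoodF (fidx ts) 400 26 := GoodF.ofV v26 n26 c26.down b26.down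

/-- 4565:24/1 -/
noncomputable def e27 : SCfg where
  D := {
    a := 4
    L := 7
    kp := 5
    inn := [(0, 1), (1, 0), (1, 2), (2, 1), (2, 3), (3, 2)]
    mix := [(0, 0), (0, 1), (0, 2), (1, 0), (1, 2), (1, 3), (2, 2), (2, 3), (2, 4), (2, 5), (3, 0), (3,
      3), (3, 5), (3, 6)]
    cl := [0, 2, 1, 3, 4, 3, 5]
    chq := [(0, 1), (0, 4), (1, 0), (4, 0)]
    rng := [(0, 1), (0, 3), (0, 6), (1, 0), (1, 2), (2, 1), (2, 4), (3, 0), (4, 2), (4, 5), (5, 4), (5,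
      6), (6, 0), (6, 5)]
    lev := [] }
  links := [[1, 4, 5, 6], [4, 0, 6, 2, 7], [7, 1, 6, 8, 9, 3], [7, 2, 9, 10, 4]]
  P := {
    a := 4
    N := 11
    nb := [114, 213, 970, 1684, 1195, 81, 295, 30, 580, 1292, 536]
    tri := [(0, 1, 4), (0, 1, 6), (0, 4, 5), (0, 5, 6), (1, 2, 6), (1, 2, 7), (1, 4, 7), (2, 3, 7), (2,
      3, 9), (2, 6, 8), (2, 8, 9), (3, 4, 7), (3, 4, 10), (3, 9, 10)]
    fin := [0, 0, 0, 3, 0, 5, 6, 3, 8, 3, 10]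
    chd := [(0, 6), (0, 8)]
    steps := [(0, 1), (0, 2), (3, 9), (3, 7), (0, 4)] }
  rep := [0, 6, 5, 3, 8, 10]

noncomputable def v27 : Cov.CovD where
  P := 3
  N := 3
  pl := [1, 6]
  lev := [⟨[], [], [(0, 1)], [2], [(0, 0, [1, 4]), (2, 1, [0])]⟩,
    ⟨[], [(0, 0), (0, 1), (0, 3)], [(0, 1), (0, 3), (1, 3)], [], [(0, 0, [1, 4]), (2, 1,
      [0]), (3, 3, [])]⟩,
    ⟨[(0, 1)], [(0, 1), (1, 0), (1, 1), (1, 3), (1, 4)], [(1, 3), (1, 4), (3, 3), (3, 4)],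
      [], [(2, 1, [0]), (3, 3, []), (4, 4, [0]), (5, 3, [])]⟩,
    ⟨[(1, 2)], [(0, 0), (1, 0), (1, 3), (2, 0), (2, 1), (2, 3), (2, 4)], [(0, 3), (3, 3)],
      [5], [(0, 0, [1, 4]), (3, 3, []), (5, 3, [])]⟩]
  Ta := [((3, 0), 3, 0), ((5, 4), 3, 4), ((5, 6), 3, 5)]
  Tb := [((0, 1, 3), 0, 2, 3), ((0, 1, 6), 0, 2, 5), ((0, 3, 6), 0, 3, 5), ((1, 0, 2), 2, 0, 1),
    ((2, 1, 4), 1, 2, 4), ((4, 2, 5), 4, 1, 3), ((5, 4, 6), 3, 4, 5), ((6, 0, 5), 5, 0, 3)]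
  Tc := [(0, 1, 4)]
  Td := [((0, 1), (0, 1), 2), ((0, 1), (0, 3), 3), ((0, 1), (0, 6), 5), ((0, 4), (0, 1), 2), ((0,
    4), (0, 3), 3), ((0, 4), (0, 6), 5), ((1, 0), (2, 1), 2), ((1, 0), (2, 4), 4), ((4, 0),
    (4, 2), 1), ((4, 0), (4, 5), 3)]
  G := [[0, 0xc1a164, 0xa161c8, 0xaa5a69c4, 0xaa5a69c8], [0, 0xe184, 0xe148, 0xe148, 0xe148]]

noncomputable def n27 : Ent := ⟨e27, noF, [], [], []⟩

def c27 : PLift (Cov.check n27.C.D v27 = true) := ⟨by decide +kernel⟩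

def b27 : PLift (entF (fidx ts) 400 27 n27 = true) := ⟨by decide +kernel⟩

theorem g27 : GoodF (fidx ts) 400 27 := GoodF.ofV v27 n27 c27.down b27.down

/-- 4565:24 -/
noncomputable def e28 : SCfg where
  D := {
    a := 4
    L := 8
    kp := 6
    inn := [(0, 1), (1, 0), (1, 2), (2, 1), (2, 3), (3, 2)]
    mix := [(0, 0), (0, 1), (0, 2), (1, 0), (1, 2), (1, 3), (2, 2), (2, 3), (2, 4), (2, 5), (3, 3), (3,
      5), (3, 6), (3, 7)]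
    cl := [1, 2, 0, 3, 4, 3, 5, 6]
    chq := [(0, 1), (1, 0), (1, 4), (4, 1)]
    rng := [(0, 1), (0, 3), (1, 0), (1, 2), (2, 1), (2, 4), (3, 0), (3, 7), (4, 2), (4, 5), (5, 4), (5,
      6), (6, 5), (6, 7), (7, 3), (7, 6)]
    lev := [] }
  links := [[1, 4, 5, 6], [4, 0, 6, 2, 7], [7, 1, 6, 8, 9, 3], [7, 2, 9, 10, 11]]
  P := {
    a := 4
    N := 12
    nb := [114, 213, 970, 3716, 163, 81, 295, 2078, 580, 1292, 2568, 1160]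
    tri := [(0, 1, 4), (0, 1, 6), (0, 4, 5), (0, 5, 6), (1, 2, 6), (1, 2, 7), (1, 4, 7), (2, 3, 7), (2,
      3, 9), (2, 6, 8), (2, 8, 9), (3, 7, 11), (3, 9, 10), (3, 10, 11)]
    fin := [0, 0, 0, 3, 0, 5, 6, 3, 8, 3, 10, 11]
    chd := [(0, 6), (0, 8)]
    steps := [(0, 1), (0, 2), (0, 4), (3, 9), (3, 7)] }
  rep := [6, 0, 5, 3, 8, 10, 11]

noncomputable def v28 : Cov.CovD where
  P := 3
  N := 4
  pl := [1, 6, 7]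
  lev := [⟨[], [], [(0, 1)], [2], [(0, 1, [0, 4]), (2, 0, [1])]⟩,
    ⟨[], [(0, 0), (0, 1), (0, 3)], [(0, 1), (0, 3), (1, 3)], [], [(0, 1, [0, 4]), (2, 0,
      [1]), (3, 3, [])]⟩,
    ⟨[(0, 1)], [(0, 0), (1, 0), (1, 1), (1, 3), (1, 4)], [(0, 3), (0, 4), (3, 3), (3, 4)],
      [], [(2, 0, [1]), (3, 3, []), (4, 4, [1]), (5, 3, [])]⟩,
    ⟨[(1, 2)], [(1, 3), (2, 0), (2, 3), (2, 4)], [(3, 3)], [5, 6], [(3, 3, []), (5, 3,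
      [])]⟩]
  Ta := [((3, 0), 3, 1), ((3, 7), 3, 6), ((5, 4), 3, 4), ((5, 6), 3, 5)]
  Tb := [((0, 1, 3), 1, 2, 3), ((1, 0, 2), 2, 1, 0), ((2, 1, 4), 0, 2, 4), ((3, 0, 7), 3, 1, 6),
    ((4, 2, 5), 4, 0, 3), ((5, 4, 6), 3, 4, 5), ((6, 5, 7), 5, 3, 6), ((7, 3, 6), 6, 3, 5)]
  Tc := [(1, 0, 4)]
  Td := [((0, 1), (2, 1), 2), ((0, 1), (2, 4), 4), ((1, 0), (0, 1), 2), ((1, 0), (0, 3), 3), ((1,
    4), (0, 1), 2), ((1, 4), (0, 3), 3), ((4, 1), (4, 2), 0), ((4, 1), (4, 5), 3)]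
  G := [[0, 0x11cd11ab68, 0x4b6db7e28e8, 0xb272c8, 0xdb6d27e28e8], [0, 0x111ef84, 0x22fe84,
    0xf248, 0x22fe48]]

noncomputable def n28 : Ent := ⟨e28, noF, [], [], [(4, 11, [913639273604050608843734724887950419491140251649, 0])]⟩

def c28 : PLift (Cov.check n28.C.D v28 = true) := ⟨by decide +kernel⟩

def b28 : PLift (entF (fidx ts) 400 28 n28 = true) := ⟨by decide +kernel⟩

theorem g28 : GoodF (fidx ts) 400 28 := GoodF.ofV v28 n28 c28.down b28.down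

/-- 4575:25/1 -/
noncomputable def e29 : SCfg where
  D := {
    a := 4
    L := 8
    kp := 5
    inn := [(0, 1), (1, 0), (1, 2), (2, 1), (2, 3), (3, 2)]
    mix := [(0, 0), (0, 1), (0, 2), (1, 0), (1, 2), (1, 3), (2, 2), (2, 3), (2, 4), (2, 5), (2, 6), (3,
      1), (3, 2), (3, 4), (3, 7)]
    cl := [1, 2, 0, 0, 0, 3, 4, 5]
    chq := []
    rng := [(0, 1), (0, 3), (1, 0), (1, 2), (1, 7), (2, 1), (3, 0), (3, 6), (4, 5), (4, 7), (5, 4), (5,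
      6), (6, 3), (6, 5), (7, 1), (7, 4)]
    lev := [] }
  links := [[1, 4, 5, 6], [4, 0, 6, 2, 7], [7, 1, 6, 3, 8, 9, 10], [8, 2, 6, 5, 11]]
  P := {
    a := 4
    N := 12
    nb := [114, 213, 1994, 2404, 163, 2137, 47, 1046, 2572, 1284, 644, 296]
    tri := [(0, 1, 4), (0, 1, 6), (0, 4, 5), (0, 5, 6), (1, 2, 6), (1, 2, 7), (1, 4, 7), (2, 3, 6), (2,
      3, 8), (2, 7, 10), (2, 8, 9), (2, 9, 10), (3, 5, 6), (3, 5, 11), (3, 8, 11)]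
    fin := [0, 0, 2, 3, 0, 3, 2, 2, 2, 9, 10, 11]
    chd := []
    steps := [(0, 1), (0, 4), (2, 6), (2, 8), (2, 7), (3, 5)] }
  rep := [2, 0, 3, 9, 10, 11]

noncomputable def v29 : Cov.CovD where
  P := 3
  N := 3
  pl := [0, 1, 5, 6, 7]
  lev := [⟨[], [], [], [1, 2], [(2, 0, [])]⟩,
    ⟨[], [(0, 0)], [(0, 0)], [1], [(2, 0, []), (3, 0, [])]⟩,
    ⟨[(0, 1)], [(0, 0), (1, 0)], [(0, 0)], [3, 4], [(2, 0, []), (3, 0, []), (4, 0, [])]⟩,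
    ⟨[(1, 2)], [(0, 0), (1, 0), (2, 0)], [(0, 0)], [2, 5], [(2, 0, []), (4, 0, [])]⟩]
  Ta := [((2, 1), 0, 2), ((3, 0), 0, 1), ((3, 6), 0, 4), ((4, 5), 0, 3), ((4, 7), 0, 5)]
  Tb := [((0, 1, 3), 1, 2, 0), ((1, 0, 2), 2, 1, 0), ((1, 0, 7), 2, 1, 5), ((1, 2, 7), 2, 0, 5),
    ((3, 0, 6), 0, 1, 4), ((4, 5, 7), 0, 3, 5), ((5, 4, 6), 3, 0, 4), ((6, 3, 5), 4, 0, 3),
    ((7, 1, 4), 5, 2, 0)]
  Tc := []
  Td := []
  G := [[0, 0, 0x66ae84, 0xcc6c8c8, 0xaa6a8c8], [0, 0xccce28, 0, 0xcc6c8c8, 0xaaae48], [0, 0, 0,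
    0xcc6c8c4, 0xaaae41]]

noncomputable def n29 : Ent := ⟨e29, noF, [], [], []⟩

def c29 : PLift (Cov.check n29.C.D v29 = true) := ⟨by decide +kernel⟩

def b29 : PLift (entF (fidx ts) 400 29 n29 = true) := ⟨by decide +kernel⟩

theorem g29 : GoodF (fidx ts) 400 29 := GoodF.ofV v29 n29 c29.down b29.down

/-- 4575:25 -/
noncomputable def e30 : SCfg where
  D := {
    a := 4
    L := 9
    kp := 6
    inn := [(0, 1), (1, 0), (1, 2), (2, 1), (2, 3), (3, 2)]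
    mix := [(0, 0), (0, 1), (0, 2), (1, 0), (1, 2), (1, 3), (2, 2), (2, 3), (2, 4), (2, 5), (2, 6), (3,
      2), (3, 4), (3, 7), (3, 8)]
    cl := [1, 2, 0, 0, 0, 3, 4, 5, 6]
    chq := []
    rng := [(0, 1), (0, 3), (1, 0), (1, 2), (2, 1), (2, 7), (3, 0), (3, 6), (4, 5), (4, 8), (5, 4), (5,
      6), (6, 3), (6, 5), (7, 2), (7, 8), (8, 4), (8, 7)]
    lev := [] }
  links := [[1, 4, 5, 6], [4, 0, 6, 2, 7], [7, 1, 6, 3, 8, 9, 10], [8, 2, 6, 11, 12]]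
  P := {
    a := 4
    N := 13
    nb := [114, 213, 1994, 6468, 163, 81, 2095, 1046, 4620, 1284, 644, 4168, 2312]
    tri := [(0, 1, 4), (0, 1, 6), (0, 4, 5), (0, 5, 6), (1, 2, 6), (1, 2, 7), (1, 4, 7), (2, 3, 6), (2,
      3, 8), (2, 7, 10), (2, 8, 9), (2, 9, 10), (3, 6, 11), (3, 8, 12), (3, 11, 12)]
    fin := [0, 0, 2, 2, 0, 5, 2, 2, 2, 9, 10, 11, 12]
    chd := []
    steps := [(0, 1), (0, 4), (2, 3), (2, 6), (2, 8), (2, 7)] }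
  rep := [2, 0, 5, 9, 10, 11, 12]

noncomputable def v30 : Cov.CovD where
  P := 3
  N := 4
  pl := [0, 1, 5, 6, 7, 8]
  lev := [⟨[], [], [], [1, 2], [(2, 0, [])]⟩,
    ⟨[], [(0, 0)], [(0, 0)], [1], [(2, 0, []), (3, 0, [])]⟩,
    ⟨[(0, 1)], [(0, 0), (1, 0)], [(0, 0)], [3, 4], [(2, 0, []), (3, 0, []), (4, 0, [])]⟩,
    ⟨[(1, 2)], [(0, 0), (1, 0), (2, 0)], [(0, 0)], [5, 6], [(2, 0, []), (4, 0, [])]⟩]
  Ta := [((2, 1), 0, 2), ((2, 7), 0, 5), ((3, 0), 0, 1), ((3, 6), 0, 4), ((4, 5), 0, 3), ((4, 8),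
    0, 6)]
  Tb := [((0, 1, 3), 1, 2, 0), ((1, 0, 2), 2, 1, 0), ((2, 1, 7), 0, 2, 5), ((3, 0, 6), 0, 1, 4),
    ((4, 5, 8), 0, 3, 6), ((5, 4, 6), 3, 0, 4), ((6, 3, 5), 4, 0, 3), ((7, 2, 8), 5, 0, 6),
    ((8, 4, 7), 6, 0, 5)]
  Tc := []
  Td := []
  G := [[0, 0, 0x6eee88c4, 0xe4eeac4, 0xee6e8c8], [0, 0xee6e8a8, 0, 0xee6e8c8, 0xee6e8c1], [0,
    0, 0, 0xee6e8c1, 0xe4eeac8]]

noncomputable def n30 : Ent := ⟨e30, noF, [], [], [(5, 11, [4490646669154137815330563540829309386802515929059329, 0])]⟩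

def c30 : PLift (Cov.check n30.C.D v30 = true) := ⟨by decide +kernel⟩

def b30 : PLift (entF (fidx ts) 400 30 n30 = true) := ⟨by decide +kernel⟩

theorem g30 : GoodF (fidx ts) 400 30 := GoodF.ofV v30 n30 c30.down b30.down

/-- 4575:26/1 -/
noncomputable def e31 : SCfg where
  D := {
    a := 4
    L := 8
    kp := 5
    inn := [(0, 1), (1, 0), (1, 2), (2, 1), (2, 3), (3, 2)]
    mix := [(0, 0), (0, 1), (0, 2), (1, 0), (1, 2), (1, 3), (2, 2), (2, 3), (2, 4), (2, 5), (2, 6), (3,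
      1), (3, 4), (3, 5), (3, 7)]
    cl := [3, 4, 0, 0, 1, 1, 2, 5]
    chq := []
    rng := [(0, 1), (0, 3), (1, 0), (1, 2), (1, 4), (1, 7), (2, 1), (2, 4), (3, 0), (3, 6), (4, 1), (4,
      2), (5, 6), (5, 7), (6, 3), (6, 5), (7, 1), (7, 5)]
    lev := [] }
  links := [[1, 4, 5, 6], [4, 0, 6, 2, 7], [7, 1, 6, 8, 3, 9, 10], [9, 2, 8, 5, 11]]
  P := {
    a := 4
    N := 12
    nb := [114, 213, 1994, 2852, 163, 2393, 295, 1046, 108, 3084, 644, 552]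
    tri := [(0, 1, 4), (0, 1, 6), (0, 4, 5), (0, 5, 6), (1, 2, 6), (1, 2, 7), (1, 4, 7), (2, 3, 8), (2,
      3, 9), (2, 6, 8), (2, 7, 10), (2, 9, 10), (3, 5, 8), (3, 5, 11), (3, 9, 11)]
    fin := [0, 0, 2, 3, 0, 5, 2, 2, 3, 3, 10, 11]
    chd := []
    steps := [(0, 1), (0, 4), (2, 6), (2, 7), (3, 8), (3, 9)] }
  rep := [2, 3, 10, 0, 5, 11]

noncomputable def v31 : Cov.CovD where
  P := 3
  N := 3
  pl := [0, 1, 6, 7]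
  lev := [⟨[], [], [], [3, 4], [(2, 0, [])]⟩,
    ⟨[], [(0, 0)], [(0, 0)], [3], [(2, 0, []), (3, 0, [])]⟩,
    ⟨[(0, 1)], [(0, 0), (1, 0), (1, 1)], [(0, 0), (0, 1), (1, 1)], [2], [(2, 0, []), (3, 0,
      []), (4, 1, []), (5, 1, [])]⟩,
    ⟨[(1, 2)], [(2, 0), (2, 1)], [(1, 1)], [4, 5], [(4, 1, []), (5, 1, [])]⟩]
  Ta := [((2, 1), 0, 4), ((2, 4), 0, 1), ((3, 0), 0, 3), ((3, 6), 0, 2), ((4, 1), 1, 4), ((4, 2),
    1, 0), ((5, 6), 1, 2), ((5, 7), 1, 5)]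
  Tb := [((0, 1, 3), 3, 4, 0), ((1, 0, 2), 4, 3, 0), ((1, 0, 4), 4, 3, 1), ((1, 0, 7), 4, 3, 5),
    ((1, 2, 4), 4, 0, 1), ((1, 2, 7), 4, 0, 5), ((1, 4, 7), 4, 1, 5), ((2, 1, 4), 0, 4, 1),
    ((3, 0, 6), 0, 3, 2), ((4, 1, 2), 1, 4, 0), ((5, 6, 7), 1, 2, 5), ((6, 3, 5), 2, 0, 1),
    ((7, 1, 5), 5, 4, 1)]
  Tc := []
  Td := []
  G := [[0, 0xe48e84e42e, 0, 0, 0x98c86584d82e], [0, 0, 0, 0x984584d82e, 0x984588d82e], [0, 0,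
    0xd4d4a1, 0, 0x984588d82d], [0, 0, 0xd4d4a1, 0xd42d483, 0xd82d843]]

noncomputable def n31 : Ent := ⟨e31, noF, [], [], []⟩

def c31 : PLift (Cov.check n31.C.D v31 = true) := ⟨by decide +kernel⟩

def b31 : PLift (entF (fidx ts) 400 31 n31 = true) := ⟨by decide +kernel⟩

theorem g31 : GoodF (fidx ts) 400 31 := GoodF.ofV v31 n31 c31.down b31.down

/-- 4575:26 -/
noncomputable def e32 : SCfg where
  D := {
    a := 4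
    L := 9
    kp := 6
    inn := [(0, 1), (1, 0), (1, 2), (2, 1), (2, 3), (3, 2)]
    mix := [(0, 0), (0, 1), (0, 2), (1, 0), (1, 2), (1, 3), (2, 2), (2, 3), (2, 4), (2, 5), (2, 6), (3,
      4), (3, 5), (3, 7), (3, 8)]
    cl := [1, 2, 0, 0, 3, 3, 4, 5, 6]
    chq := []
    rng := [(0, 1), (0, 3), (1, 0), (1, 2), (2, 1), (2, 4), (3, 0), (3, 6), (4, 2), (4, 7), (5, 6), (5,
      8), (6, 3), (6, 5), (7, 4), (7, 8), (8, 5), (8, 7)]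
    lev := [] }
  links := [[1, 4, 5, 6], [4, 0, 6, 2, 7], [7, 1, 6, 8, 3, 9, 10], [9, 2, 8, 11, 12]]
  P := {
    a := 4
    N := 13
    nb := [114, 213, 1994, 6916, 163, 81, 295, 1046, 2124, 5132, 644, 4360, 2568]
    tri := [(0, 1, 4), (0, 1, 6), (0, 4, 5), (0, 5, 6), (1, 2, 6), (1, 2, 7), (1, 4, 7), (2, 3, 8), (2,
      3, 9), (2, 6, 8), (2, 7, 10), (2, 9, 10), (3, 8, 11), (3, 9, 12), (3, 11, 12)]
    fin := [0, 0, 2, 3, 0, 5, 2, 2, 3, 3, 10, 11, 12]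
    chd := []
    steps := [(0, 1), (0, 4), (2, 6), (2, 7), (3, 8), (3, 9)] }
  rep := [2, 0, 5, 3, 10, 11, 12]

noncomputable def v32 : Cov.CovD where
  P := 3
  N := 4
  pl := [0, 1, 6, 7, 8]
  lev := [⟨[], [], [], [1, 2], [(2, 0, [])]⟩,
    ⟨[], [(0, 0)], [(0, 0)], [1], [(2, 0, []), (3, 0, [])]⟩,
    ⟨[(0, 1)], [(0, 0), (1, 0), (1, 3)], [(0, 0), (0, 3), (3, 3)], [4], [(2, 0, []), (3, 0,
      []), (4, 3, []), (5, 3, [])]⟩,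
    ⟨[(1, 2)], [(2, 0), (2, 3)], [(3, 3)], [5, 6], [(4, 3, []), (5, 3, [])]⟩]
  Ta := [((2, 1), 0, 2), ((2, 4), 0, 3), ((3, 0), 0, 1), ((3, 6), 0, 4), ((4, 2), 3, 0), ((4, 7),
    3, 5), ((5, 6), 3, 4), ((5, 8), 3, 6)]
  Tb := [((0, 1, 3), 1, 2, 0), ((1, 0, 2), 2, 1, 0), ((2, 1, 4), 0, 2, 3), ((3, 0, 6), 0, 1, 4),
    ((4, 2, 7), 3, 0, 5), ((5, 6, 8), 3, 4, 6), ((6, 3, 5), 4, 0, 3), ((7, 4, 8), 5, 3, 6),
    ((8, 5, 7), 6, 3, 5)]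
  Tc := []
  Td := []
  G := [[0, 0, 0xf4ffac4, 0xff6f8c8, 0xff6f8c8], [0, 0, 0xf4ffac8, 0xf4ffac4, 0xff6f8c8], [0,
    0xa2ff5ea8, 0, 0xff6f8c4, 0xf4ffac1], [0, 0xff6f8a8, 0, 0xf4ffac8, 0xf4ffac1]]

noncomputable def n32 : Ent := ⟨e32, noF, [], [], [(5, 11, [4490646669154137815330563540829309386802515929067521, 0])]⟩

def c32 : PLift (Cov.check n32.C.D v32 = true) := ⟨by decide +kernel⟩

def b32 : PLift (entF (fidx ts) 400 32 n32 = true) := ⟨by decide +kernel⟩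

theorem g32 : GoodF (fidx ts) 400 32 := GoodF.ofV v32 n32 c32.down b32.down

/-- 4575:27 -/
noncomputable def e33 : SCfg where
  D := {
    a := 4
    L := 9
    kp := 6
    inn := [(0, 1), (1, 0), (1, 2), (2, 1), (2, 3), (3, 2)]
    mix := [(0, 0), (0, 1), (0, 2), (1, 0), (1, 2), (1, 3), (2, 2), (2, 3), (2, 4), (2, 5), (2, 6), (3,
      5), (3, 6), (3, 7), (3, 8)]
    cl := [1, 2, 0, 0, 4, 3, 3, 5, 6]
    chq := []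
    rng := [(0, 1), (0, 3), (1, 0), (1, 2), (2, 1), (2, 4), (3, 0), (3, 6), (4, 2), (4, 5), (5, 4), (5,
      7), (6, 3), (6, 8), (7, 5), (7, 8), (8, 6), (8, 7)]
    lev := [] }
  links := [[1, 4, 5, 6], [4, 0, 6, 2, 7], [7, 1, 6, 8, 9, 3, 10], [10, 2, 9, 11, 12]]
  P := {
    a := 4
    N := 13
    nb := [114, 213, 1994, 7684, 163, 81, 295, 1046, 580, 2316, 4236, 4616, 3080]
    tri := [(0, 1, 4), (0, 1, 6), (0, 4, 5), (0, 5, 6), (1, 2, 6), (1, 2, 7), (1, 4, 7), (2, 3, 9), (2,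
      3, 10), (2, 6, 8), (2, 7, 10), (2, 8, 9), (3, 9, 11), (3, 10, 12), (3, 11, 12)]
    fin := [0, 0, 2, 3, 0, 5, 2, 2, 8, 3, 3, 11, 12]
    chd := []
    steps := [(0, 1), (0, 4), (2, 6), (2, 7), (3, 9), (3, 10)] }
  rep := [2, 0, 5, 3, 8, 11, 12]

noncomputable def v33 : Cov.CovD where
  P := 3
  N := 4
  pl := [0, 1, 4, 7, 8]
  lev := [⟨[], [], [], [1, 2], [(2, 0, [])]⟩,
    ⟨[], [(0, 0)], [(0, 0)], [1], [(2, 0, []), (3, 0, [])]⟩,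
    ⟨[(0, 1)], [(0, 0), (1, 0), (1, 3)], [(0, 0), (0, 3), (3, 3)], [4], [(2, 0, []), (3, 0,
      []), (5, 3, []), (6, 3, [])]⟩,
    ⟨[(1, 2)], [(2, 0), (2, 3)], [(3, 3)], [5, 6], [(5, 3, []), (6, 3, [])]⟩]
  Ta := [((2, 1), 0, 2), ((2, 4), 0, 4), ((3, 0), 0, 1), ((3, 6), 0, 3), ((5, 4), 3, 4), ((5, 7),
    3, 5), ((6, 3), 3, 0), ((6, 8), 3, 6)]
  Tb := [((0, 1, 3), 1, 2, 0), ((1, 0, 2), 2, 1, 0), ((2, 1, 4), 0, 2, 4), ((3, 0, 6), 0, 1, 3),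
    ((4, 2, 5), 4, 0, 3), ((5, 4, 7), 3, 4, 5), ((6, 3, 8), 3, 0, 6), ((7, 5, 8), 5, 3, 6),
    ((8, 6, 7), 6, 3, 5)]
  Tc := []
  Td := []
  G := [[0, 0, 0xf4ffac4, 0xff6f8c8, 0xff6f8c8], [0, 0, 0xf4ffac4, 0xff6f8c8, 0xff6f8c8], [0,
    0xff6f8c8, 0, 0xff6f8c4, 0xf4ffac1], [0, 0xa2ff5e68, 0, 0xf4ffac8, 0xf4ffac8]]

noncomputable def n33 : Ent := ⟨e33, noF, [], [], []⟩

def c33 : PLift (Cov.check n33.C.D v33 = true) := ⟨by decide +kernel⟩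

def b33 : PLift (entF (fidx ts) 400 33 n33 = true) := ⟨by decide +kernel⟩

theorem g33 : GoodF (fidx ts) 400 33 := GoodF.ofV v33 n33 c33.down b33.down

/-- 4575:28/1 -/
noncomputable def e34 : SCfg where
  D := {
    a := 4
    L := 8
    kp := 5
    inn := [(0, 1), (1, 0), (1, 2), (2, 1), (2, 3), (3, 2)]
    mix := [(0, 0), (0, 1), (0, 2), (1, 0), (1, 2), (1, 3), (2, 2), (2, 3), (2, 4), (2, 5), (2, 6), (3,
      0), (3, 3), (3, 6), (3, 7)]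
    cl := [1, 2, 0, 0, 3, 4, 0, 5]
    chq := []
    rng := [(0, 1), (0, 3), (0, 7), (1, 0), (1, 2), (2, 1), (2, 4), (3, 0), (4, 2), (4, 5), (5, 4), (5,
      6), (6, 5), (6, 7), (7, 0), (7, 6)]
    lev := [] }
  links := [[1, 4, 5, 6], [4, 0, 6, 2, 7], [7, 1, 6, 8, 9, 10, 3], [7, 2, 10, 11, 4]]
  P := {
    a := 4
    N := 12
    nb := [114, 213, 1994, 3220, 2219, 81, 295, 30, 580, 1284, 2572, 1048]
    tri := [(0, 1, 4), (0, 1, 6), (0, 4, 5), (0, 5, 6), (1, 2, 6), (1, 2, 7), (1, 4, 7), (2, 3, 7), (2,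
      3, 10), (2, 6, 8), (2, 8, 9), (2, 9, 10), (3, 4, 7), (3, 4, 11), (3, 10, 11)]
    fin := [0, 0, 2, 0, 0, 5, 2, 2, 8, 9, 2, 11]
    chd := []
    steps := [(0, 1), (0, 4), (2, 6), (2, 10), (2, 7), (0, 3)] }
  rep := [2, 0, 5, 8, 9, 11]

noncomputable def v34 : Cov.CovD where
  P := 3
  N := 3
  pl := [0, 1, 4, 5, 7]
  lev := [⟨[], [], [], [1, 2], [(2, 0, [])]⟩,
    ⟨[], [(0, 0)], [(0, 0)], [1], [(2, 0, []), (3, 0, [])]⟩,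
    ⟨[(0, 1)], [(0, 0), (1, 0)], [(0, 0)], [3, 4], [(2, 0, []), (3, 0, []), (6, 0, [])]⟩,
    ⟨[(1, 2)], [(1, 0), (2, 0)], [(0, 0)], [1, 5], [(3, 0, []), (6, 0, [])]⟩]
  Ta := [((2, 1), 0, 2), ((2, 4), 0, 3), ((3, 0), 0, 1), ((6, 5), 0, 4), ((6, 7), 0, 5)]
  Tb := [((0, 1, 3), 1, 2, 0), ((0, 1, 7), 1, 2, 5), ((0, 3, 7), 1, 0, 5), ((1, 0, 2), 2, 1, 0),
    ((2, 1, 4), 0, 2, 3), ((4, 2, 5), 3, 0, 4), ((5, 4, 6), 4, 3, 0), ((6, 5, 7), 0, 4, 5),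
    ((7, 0, 6), 5, 1, 0)]
  Tc := []
  Td := []
  G := [[0, 0, 0xcc6c8c4, 0xcc6c8c8, 0xcc6c8c8], [0, 0x6ace28, 0, 0xcc6c8c1, 0xc4ccac1], [0, 0,
    0, 0xc4ccac4, 0xc4ccac1]]

noncomputable def n34 : Ent := ⟨e34, noF, [], [], []⟩

def c34 : PLift (Cov.check n34.C.D v34 = true) := ⟨by decide +kernel⟩

def b34 : PLift (entF (fidx ts) 400 34 n34 = true) := ⟨by decide +kernel⟩

theorem g34 : GoodF (fidx ts) 400 34 := GoodF.ofV v34 n34 c34.down b34.down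

/-- 4575:28 -/
noncomputable def e35 : SCfg where
  D := {
    a := 4
    L := 9
    kp := 6
    inn := [(0, 1), (1, 0), (1, 2), (2, 1), (2, 3), (3, 2)]
    mix := [(0, 0), (0, 1), (0, 2), (1, 0), (1, 2), (1, 3), (2, 2), (2, 3), (2, 4), (2, 5), (2, 6), (3,
      3), (3, 6), (3, 7), (3, 8)]
    cl := [1, 2, 0, 0, 3, 4, 0, 5, 6]
    chq := []
    rng := [(0, 1), (0, 3), (1, 0), (1, 2), (2, 1), (2, 4), (3, 0), (3, 8), (4, 2), (4, 5), (5, 4), (5,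
      6), (6, 5), (6, 7), (7, 6), (7, 8), (8, 3), (8, 7)]
    lev := [] }
  links := [[1, 4, 5, 6], [4, 0, 6, 2, 7], [7, 1, 6, 8, 9, 10, 3], [7, 2, 10, 11, 12]]
  P := {
    a := 4
    N := 13
    nb := [114, 213, 1994, 7300, 163, 81, 295, 4126, 580, 1284, 2572, 5128, 2184]
    tri := [(0, 1, 4), (0, 1, 6), (0, 4, 5), (0, 5, 6), (1, 2, 6), (1, 2, 7), (1, 4, 7), (2, 3, 7), (2,
      3, 10), (2, 6, 8), (2, 8, 9), (2, 9, 10), (3, 7, 12), (3, 10, 11), (3, 11, 12)]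
    fin := [0, 0, 2, 2, 0, 5, 2, 2, 8, 9, 2, 11, 12]
    chd := []
    steps := [(0, 1), (0, 4), (2, 3), (2, 6), (2, 10), (2, 7)] }
  rep := [2, 0, 5, 8, 9, 11, 12]

noncomputable def v35 : Cov.CovD where
  P := 3
  N := 4
  pl := [0, 1, 4, 5, 7, 8]
  lev := [⟨[], [], [], [1, 2], [(2, 0, [])]⟩,
    ⟨[], [(0, 0)], [(0, 0)], [1], [(2, 0, []), (3, 0, [])]⟩,
    ⟨[(0, 1)], [(0, 0), (1, 0)], [(0, 0)], [3, 4], [(2, 0, []), (3, 0, []), (6, 0, [])]⟩,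
    ⟨[(1, 2)], [(1, 0), (2, 0)], [(0, 0)], [5, 6], [(3, 0, []), (6, 0, [])]⟩]
  Ta := [((2, 1), 0, 2), ((2, 4), 0, 3), ((3, 0), 0, 1), ((3, 8), 0, 6), ((6, 5), 0, 4), ((6, 7),
    0, 5)]
  Tb := [((0, 1, 3), 1, 2, 0), ((1, 0, 2), 2, 1, 0), ((2, 1, 4), 0, 2, 3), ((3, 0, 8), 0, 1, 6),
    ((4, 2, 5), 3, 0, 4), ((5, 4, 6), 4, 3, 0), ((6, 5, 7), 0, 4, 5), ((7, 6, 8), 5, 0, 6),
    ((8, 3, 7), 6, 0, 5)]
  Tc := []
  Td := []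
  G := [[0, 0, 0x6eee88c4, 0xe4eeac4, 0xe4eeac8], [0, 0x22eecea4, 0, 0xee6e8c8, 0x44eaeec8], [0,
    0, 0, 0xee6e8c1, 0xee6e8c8]]

noncomputable def n35 : Ent := ⟨e35, noF, [], [], [(4, 12, [4116502249997426668270420223653940933770597198077953, 0])]⟩

def c35 : PLift (Cov.check n35.C.D v35 = true) := ⟨by decide +kernel⟩

def b35 : PLift (entF (fidx ts) 400 35 n35 = true) := ⟨by decide +kernel⟩

theorem g35 : GoodF (fidx ts) 400 35 := GoodF.ofV v35 n35 c35.down b35.down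

/-- 5665:29/1 -/
noncomputable def e36 : SCfg where
  D := {
    a := 4
    L := 8
    kp := 5
    inn := [(0, 1), (0, 2), (1, 0), (1, 2), (1, 3), (2, 0), (2, 1), (3, 1)]
    mix := [(0, 0), (0, 1), (0, 2), (1, 2), (1, 3), (1, 4), (2, 0), (2, 4), (2, 5), (2, 6), (3, 1), (3,
      2), (3, 3), (3, 7)]
    cl := [0, 2, 1, 1, 0, 3, 4, 5]
    chq := []
    rng := [(0, 1), (0, 6), (1, 0), (1, 2), (1, 7), (2, 1), (3, 4), (3, 7), (4, 3), (4, 5), (5, 4), (5,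
      6), (6, 0), (6, 5), (7, 1), (7, 3)]
    lev := [] }
  links := [[1, 2, 4, 5, 6], [2, 0, 6, 3, 7, 8], [4, 0, 1, 8, 9, 10], [7, 1, 6, 5, 11]]
  P := {
    a := 4
    N := 12
    nb := [118, 461, 1811, 2274, 1061, 2137, 43, 2314, 646, 1284, 532, 168]
    tri := [(0, 1, 2), (0, 1, 6), (0, 2, 4), (0, 4, 5), (0, 5, 6), (1, 2, 8), (1, 3, 6), (1, 3, 7), (1,
      7, 8), (2, 4, 10), (2, 8, 9), (2, 9, 10), (3, 5, 6), (3, 5, 11), (3, 7, 11)]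
    fin := [0, 1, 0, 3, 0, 3, 1, 1, 0, 9, 10, 11]
    chd := []
    steps := [(0, 2), (0, 4), (0, 8), (1, 6), (1, 7), (3, 5)] }
  rep := [0, 1, 3, 9, 10, 11]

noncomputable def v36 : Cov.CovD where
  P := 3
  N := 3
  pl := [1, 5, 6, 7]
  lev := [⟨[], [], [(0, 1)], [2], [(0, 0, []), (2, 1, [])]⟩,
    ⟨[], [(0, 0), (0, 1)], [(0, 1), (1, 1)], [], [(2, 1, []), (3, 1, []), (4, 0, [])]⟩,
    ⟨[(0, 1)], [(0, 0), (0, 1), (1, 0), (1, 1)], [(0, 0)], [3, 4], [(0, 0, []), (4, 0,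
      [])]⟩,
    ⟨[(0, 1), (1, 2)], [(0, 1), (1, 0), (1, 1)], [(1, 1)], [2, 5], [(2, 1, []), (3, 1,
      [])]⟩]
  Ta := [((0, 1), 0, 2), ((0, 6), 0, 4), ((2, 1), 1, 2), ((3, 4), 1, 0), ((3, 7), 1, 5), ((4, 3),
    0, 1), ((4, 5), 0, 3)]
  Tb := [((0, 1, 6), 0, 2, 4), ((1, 0, 2), 2, 0, 1), ((1, 0, 7), 2, 0, 5), ((1, 2, 7), 2, 1, 5),
    ((3, 4, 7), 1, 0, 5), ((4, 3, 5), 0, 1, 3), ((5, 4, 6), 3, 0, 4), ((6, 0, 5), 4, 0, 3),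
    ((7, 1, 3), 5, 2, 1)]
  Tc := []
  Td := []
  G := [[0, 0, 0xccce14, 0xccce18, 0x999e48], [0, 0, 0xccce18, 0, 0x116988ec8], [0, 0, 0,
    0x59ce41, 0x999e48], [0, 0xccce24, 0, 0, 0x999e41]]

noncomputable def n36 : Ent := ⟨e36, noF, [], [], []⟩

def c36 : PLift (Cov.check n36.C.D v36 = true) := ⟨by decide +kernel⟩

def b36 : PLift (entF (fidx ts) 400 36 n36 = true) := ⟨by decide +kernel⟩

theorem g36 : GoodF (fidx ts) 400 36 := GoodF.ofV v36 n36 c36.down b36.down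

/-- 5665:29 -/
noncomputable def e37 : SCfg where
  D := {
    a := 4
    L := 9
    kp := 6
    inn := [(0, 1), (0, 2), (1, 0), (1, 2), (1, 3), (2, 0), (2, 1), (3, 1)]
    mix := [(0, 0), (0, 1), (0, 2), (1, 2), (1, 3), (1, 4), (2, 0), (2, 4), (2, 5), (2, 6), (3, 2), (3,
      3), (3, 7), (3, 8)]
    cl := [0, 2, 1, 1, 0, 3, 4, 5, 6]
    chq := []
    rng := [(0, 1), (0, 6), (1, 0), (1, 2), (2, 1), (2, 7), (3, 4), (3, 8), (4, 3), (4, 5), (5, 4), (5,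
      6), (6, 0), (6, 5), (7, 2), (7, 8), (8, 3), (8, 7)]
    lev := [] }
  links := [[1, 2, 4, 5, 6], [2, 0, 6, 3, 7, 8], [4, 0, 1, 8, 9, 10], [7, 1, 6, 11, 12]]
  P := {
    a := 4
    N := 13
    nb := [118, 461, 1811, 6338, 1061, 81, 2091, 4362, 646, 1284, 532, 4168, 2184]
    tri := [(0, 1, 2), (0, 1, 6), (0, 2, 4), (0, 4, 5), (0, 5, 6), (1, 2, 8), (1, 3, 6), (1, 3, 7), (1,
      7, 8), (2, 4, 10), (2, 8, 9), (2, 9, 10), (3, 6, 11), (3, 7, 12), (3, 11, 12)]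
    fin := [0, 0, 0, 3, 0, 5, 3, 3, 0, 9, 10, 11, 12]
    chd := []
    steps := [(0, 1), (0, 2), (0, 4), (0, 8), (3, 6), (3, 7)] }
  rep := [0, 3, 5, 9, 10, 11, 12]

noncomputable def v37 : Cov.CovD where
  P := 3
  N := 4
  pl := [1, 5, 6, 7, 8]
  lev := [⟨[], [], [(0, 1)], [2], [(0, 0, []), (2, 1, [])]⟩,
    ⟨[], [(0, 0), (0, 1)], [(0, 1), (1, 1)], [], [(2, 1, []), (3, 1, []), (4, 0, [])]⟩,
    ⟨[(0, 1)], [(0, 0), (0, 1), (1, 0), (1, 1)], [(0, 0)], [3, 4], [(0, 0, []), (4, 0,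
      [])]⟩,
    ⟨[(0, 1), (1, 2)], [(0, 1), (1, 0), (1, 1)], [(1, 1)], [5, 6], [(2, 1, []), (3, 1,
      [])]⟩]
  Ta := [((0, 1), 0, 2), ((0, 6), 0, 4), ((2, 1), 1, 2), ((2, 7), 1, 5), ((3, 4), 1, 0), ((3, 8),
    1, 6), ((4, 3), 0, 1), ((4, 5), 0, 3)]
  Tb := [((0, 1, 6), 0, 2, 4), ((1, 0, 2), 2, 0, 1), ((2, 1, 7), 1, 2, 5), ((3, 4, 8), 1, 0, 6),
    ((4, 3, 5), 0, 1, 3), ((5, 4, 6), 3, 0, 4), ((6, 0, 5), 4, 0, 3), ((7, 2, 8), 5, 1, 6),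
    ((8, 3, 7), 6, 1, 5)]
  Tc := []
  Td := []
  G := [[0, 0, 0xd9de4458, 0x5dde88c4, 0xd9de4458], [0, 0, 0x44d9dec8, 0, 0xd9de4458], [0, 0, 0,
    0x44d9dec8, 0x44d9dec1], [0, 0x6eee88a4, 0, 0, 0xdd6d8c1]]

noncomputable def n37 : Ent := ⟨e37, noF, [], [], [(5, 11, [4490646669154137815330563540829309386802515929088001, 0])]⟩

def c37 : PLift (Cov.check n37.C.D v37 = true) := ⟨by decide +kernel⟩

def b37 : PLift (entF (fidx ts) 400 37 n37 = true) := ⟨by decide +kernel⟩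

theorem g37 : GoodF (fidx ts) 400 37 := GoodF.ofV v37 n37 c37.down b37.down

/-- 4755:32/1 -/
noncomputable def e38 : SCfg where
  D := {
    a := 4
    L := 8
    kp := 5
    inn := [(0, 1), (1, 0), (1, 2), (1, 3), (2, 1), (3, 1)]
    mix := [(0, 0), (0, 1), (0, 2), (1, 0), (1, 2), (1, 3), (1, 4), (2, 2), (2, 3), (2, 5), (2, 6), (3,
      3), (3, 4), (3, 6), (3, 7)]
    cl := [1, 3, 0, 0, 0, 4, 2, 5]
    chq := []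
    rng := [(0, 1), (0, 4), (1, 0), (1, 2), (2, 1), (2, 5), (3, 6), (4, 0), (4, 7), (5, 2), (5, 6), (6,
      3), (6, 5), (6, 7), (7, 4), (7, 6)]
    lev := [] }
  links := [[1, 4, 5, 6], [4, 0, 6, 2, 7, 3, 8], [7, 1, 6, 9, 10], [8, 1, 7, 10, 11]]
  P := {
    a := 4
    N := 12
    nb := [114, 477, 1730, 3458, 291, 81, 551, 1038, 2074, 1092, 2700, 1288]
    tri := [(0, 1, 4), (0, 1, 6), (0, 4, 5), (0, 5, 6), (1, 2, 6), (1, 2, 7), (1, 3, 7), (1, 3, 8), (1,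
      4, 8), (2, 6, 9), (2, 7, 10), (2, 9, 10), (3, 7, 10), (3, 8, 11), (3, 10, 11)]
    fin := [0, 0, 2, 2, 0, 5, 2, 2, 2, 9, 10, 11]
    chd := []
    steps := [(0, 1), (0, 4), (2, 6), (2, 7), (2, 3), (2, 8)] }
  rep := [2, 0, 10, 5, 9, 11]

noncomputable def v38 : Cov.CovD where
  P := 3
  N := 3
  pl := [0, 1, 5, 6, 7]
  lev := [⟨[], [], [], [1, 3], [(2, 0, [])]⟩,
    ⟨[], [(0, 0)], [(0, 0)], [1], [(2, 0, []), (3, 0, []), (4, 0, [])]⟩,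
    ⟨[(0, 1)], [(0, 0), (1, 0)], [(0, 0)], [2, 4], [(2, 0, []), (3, 0, [])]⟩,
    ⟨[(0, 1), (1, 2)], [(1, 0), (2, 0)], [(0, 0)], [2, 5], [(3, 0, []), (4, 0, [])]⟩]
  Ta := [((2, 1), 0, 3), ((2, 5), 0, 4), ((3, 6), 0, 2), ((4, 0), 0, 1), ((4, 7), 0, 5)]
  Tb := [((0, 1, 4), 1, 3, 0), ((1, 0, 2), 3, 1, 0), ((2, 1, 5), 0, 3, 4), ((4, 0, 7), 0, 1, 5),
    ((5, 2, 6), 4, 0, 2), ((6, 3, 5), 2, 0, 4), ((6, 3, 7), 2, 0, 5), ((6, 5, 7), 2, 4, 5),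
    ((7, 4, 6), 5, 0, 2)]
  Tc := []
  Td := []
  G := [[0, 0, 0, 0x44c8cc4cc88cc, 0xaaa42aa88cc], [0, 0, 0x6ca81, 0xc4c8c1, 0xaaa41], [0,
    0xccc2ccc2a, 0, 0x4cc88c1, 0xaaa41]]

noncomputable def n38 : Ent := ⟨e38, noF, [], [], []⟩

def c38 : PLift (Cov.check n38.C.D v38 = true) := ⟨by decide +kernel⟩

def b38 : PLift (entF (fidx ts) 400 38 n38 = true) := ⟨by decide +kernel⟩

theorem g38 : GoodF (fidx ts) 400 38 := GoodF.ofV v38 n38 c38.down b38.down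

/-- 4755:32 -/
noncomputable def e39 : SCfg where
  D := {
    a := 4
    L := 9
    kp := 6
    inn := [(0, 1), (1, 0), (1, 2), (1, 3), (2, 1), (3, 1)]
    mix := [(0, 0), (0, 1), (0, 2), (1, 0), (1, 2), (1, 3), (1, 4), (2, 2), (2, 3), (2, 5), (2, 6), (3,
      3), (3, 4), (3, 7), (3, 8)]
    cl := [1, 2, 0, 0, 0, 3, 4, 5, 6]
    chq := []
    rng := [(0, 1), (0, 4), (1, 0), (1, 2), (2, 1), (2, 5), (3, 6), (3, 7), (4, 0), (4, 8), (5, 2), (5,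
      6), (6, 3), (6, 5), (7, 3), (7, 8), (8, 4), (8, 7)]
    lev := [] }
  links := [[1, 4, 5, 6], [4, 0, 6, 2, 7, 3, 8], [7, 1, 6, 9, 10], [8, 1, 7, 11, 12]]
  P := {
    a := 4
    N := 13
    nb := [114, 477, 1730, 6530, 291, 81, 551, 3086, 4122, 1092, 644, 4232, 2312]
    tri := [(0, 1, 4), (0, 1, 6), (0, 4, 5), (0, 5, 6), (1, 2, 6), (1, 2, 7), (1, 3, 7), (1, 3, 8), (1,
      4, 8), (2, 6, 9), (2, 7, 10), (2, 9, 10), (3, 7, 11), (3, 8, 12), (3, 11, 12)]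
    fin := [0, 0, 2, 2, 0, 5, 2, 2, 2, 9, 10, 11, 12]
    chd := []
    steps := [(0, 1), (0, 4), (2, 6), (2, 7), (2, 3), (2, 8)] }
  rep := [2, 0, 5, 9, 10, 11, 12]

noncomputable def v39 : Cov.CovD where
  P := 3
  N := 4
  pl := [0, 1, 5, 6, 7, 8]
  lev := [⟨[], [], [], [1, 2], [(2, 0, [])]⟩,
    ⟨[], [(0, 0)], [(0, 0)], [1], [(2, 0, []), (3, 0, []), (4, 0, [])]⟩,
    ⟨[(0, 1)], [(0, 0), (1, 0)], [(0, 0)], [3, 4], [(2, 0, []), (3, 0, [])]⟩,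
    ⟨[(0, 1), (1, 2)], [(1, 0), (2, 0)], [(0, 0)], [5, 6], [(3, 0, []), (4, 0, [])]⟩]
  Ta := [((2, 1), 0, 2), ((2, 5), 0, 3), ((3, 6), 0, 4), ((3, 7), 0, 5), ((4, 0), 0, 1), ((4, 8),
    0, 6)]
  Tb := [((0, 1, 4), 1, 2, 0), ((1, 0, 2), 2, 1, 0), ((2, 1, 5), 0, 2, 3), ((3, 6, 7), 0, 4, 5),
    ((4, 0, 8), 0, 1, 6), ((5, 2, 6), 3, 0, 4), ((6, 3, 5), 4, 0, 3), ((7, 3, 8), 5, 0, 6),
    ((8, 4, 7), 6, 0, 5)]
  Tc := []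
  Td := []
  G := [[0, 0, 0x6eee88c4, 0x6eee88c4, 0x44eaeec8], [0, 0, 0, 0xee6e8c1, 0x44eaeec1], [0,
    0x6eee88c4, 0, 0x6eee88c1, 0x44eaeec8]]

noncomputable def n39 : Ent := ⟨e39, noF, [], [], [(10, 11, [4490646669154137815330563540829309386802515929096193, 0])]⟩

def c39 : PLift (Cov.check n39.C.D v39 = true) := ⟨by decide +kernel⟩

def b39 : PLift (entF (fidx ts) 400 39 n39 = true) := ⟨by decide +kernel⟩

theorem g39 : GoodF (fidx ts) 400 39 := GoodF.ofV v39 n39 c39.down b39.down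

/-- 4755:33 -/
noncomputable def e40 : SCfg where
  D := {
    a := 4
    L := 9
    kp := 6
    inn := [(0, 1), (1, 0), (1, 2), (1, 3), (2, 1), (3, 1)]
    mix := [(0, 0), (0, 1), (0, 2), (1, 0), (1, 2), (1, 3), (1, 4), (2, 2), (2, 3), (2, 5), (2, 6), (3,
      0), (3, 4), (3, 7), (3, 8)]
    cl := [0, 2, 1, 1, 0, 3, 4, 5, 6]
    chq := []
    rng := [(0, 1), (0, 8), (1, 0), (1, 2), (2, 1), (2, 5), (3, 4), (3, 6), (4, 3), (4, 7), (5, 2), (5,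
      6), (6, 3), (6, 5), (7, 4), (7, 8), (8, 0), (8, 7)]
    lev := [] }
  links := [[1, 4, 5, 6], [4, 0, 6, 2, 7, 8, 3], [7, 1, 6, 9, 10], [4, 1, 8, 11, 12]]
  P := {
    a := 4
    N := 13
    nb := [114, 477, 1730, 6418, 4139, 81, 551, 1286, 2186, 1092, 644, 4360, 2072]
    tri := [(0, 1, 4), (0, 1, 6), (0, 4, 5), (0, 5, 6), (1, 2, 6), (1, 2, 7), (1, 3, 4), (1, 3, 8), (1,
      7, 8), (2, 6, 9), (2, 7, 10), (2, 9, 10), (3, 4, 12), (3, 8, 11), (3, 11, 12)]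
    fin := [0, 0, 2, 0, 0, 5, 2, 2, 0, 9, 10, 11, 12]
    chd := []
    steps := [(0, 1), (0, 3), (0, 4), (0, 8), (2, 6), (2, 7)] }
  rep := [0, 2, 5, 9, 10, 11, 12]

noncomputable def v40 : Cov.CovD where
  P := 3
  N := 4
  pl := [1, 5, 6, 7, 8]
  lev := [⟨[], [], [(0, 1)], [2], [(0, 0, []), (2, 1, [])]⟩,
    ⟨[], [(0, 0), (0, 1)], [(0, 0), (0, 1), (1, 1)], [], [(0, 0, []), (2, 1, []), (3, 1,
      []), (4, 0, [])]⟩,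
    ⟨[(0, 1)], [(0, 1), (1, 0), (1, 1)], [(1, 1)], [3, 4], [(2, 1, []), (3, 1, [])]⟩,
    ⟨[(0, 1), (1, 2)], [(0, 0), (1, 0), (1, 1)], [(0, 0)], [5, 6], [(0, 0, []), (4, 0,
      [])]⟩]
  Ta := [((0, 1), 0, 2), ((0, 8), 0, 6), ((2, 1), 1, 2), ((2, 5), 1, 3), ((3, 4), 1, 0), ((3, 6),
    1, 4), ((4, 3), 0, 1), ((4, 7), 0, 5)]
  Tb := [((0, 1, 8), 0, 2, 6), ((1, 0, 2), 2, 0, 1), ((2, 1, 5), 1, 2, 3), ((3, 4, 6), 1, 0, 4),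
    ((4, 3, 7), 0, 1, 5), ((5, 2, 6), 3, 1, 4), ((6, 3, 5), 4, 1, 3), ((7, 4, 8), 5, 0, 6),
    ((8, 0, 7), 6, 0, 5)]
  Tc := []
  Td := []
  G := [[0, 0, 0x44eaedc8, 0x6eed88c4, 0x44eaedc8], [0, 0, 0x6eed88c2, 0, 0x6eed88c2], [0, 0, 0,
    0x6eed88c1, 0x44eaedc8], [0, 0x4eeea8a4, 0, 0, 0xe4ee9c2]]

noncomputable def n40 : Ent := ⟨e40, noF, [], [], []⟩

def c40 : PLift (Cov.check n40.C.D v40 = true) := ⟨by decide +kernel⟩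

def b40 : PLift (entF (fidx ts) 400 40 n40 = true) := ⟨by decide +kernel⟩

theorem g40 : GoodF (fidx ts) 400 40 := GoodF.ofV v40 n40 c40.down b40.down

/-- 4675:34/1 -/
noncomputable def e41 : SCfg where
  D := {
    a := 4
    L := 8
    kp := 6
    inn := [(0, 1), (0, 2), (1, 0), (1, 2), (2, 0), (2, 1), (2, 3), (3, 2)]
    mix := [(0, 0), (0, 1), (1, 1), (1, 2), (1, 3), (1, 4), (2, 0), (2, 4), (2, 5), (2, 6), (3, 3), (3,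
      4), (3, 5), (3, 7)]
    cl := [1, 3, 5, 4, 0, 0, 2, 6]
    chq := [(2, 3), (2, 4), (2, 5), (3, 2), (4, 2), (5, 2)]
    rng := [(0, 1), (0, 6), (1, 0), (1, 2), (2, 1), (2, 3), (3, 2), (3, 4), (3, 7), (4, 3), (5, 6), (5,
      7), (6, 0), (6, 5), (7, 3), (7, 5)]
    lev := [] }
  links := [[1, 2, 4, 5], [2, 0, 5, 6, 7, 8], [4, 0, 1, 8, 3, 9, 10], [9, 2, 8, 7, 11]]
  P := {
    a := 4
    N := 12
    nb := [54, 485, 1819, 2948, 1061, 83, 162, 2378, 142, 3084, 532, 648]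
    tri := [(0, 1, 2), (0, 1, 5), (0, 2, 4), (0, 4, 5), (1, 2, 8), (1, 5, 6), (1, 6, 7), (1, 7, 8), (2,
      3, 8), (2, 3, 9), (2, 4, 10), (2, 9, 10), (3, 7, 8), (3, 7, 11), (3, 9, 11)]
    fin := [0, 1, 1, 3, 0, 5, 6, 7, 3, 3, 1, 11]
    chd := [(5, 1), (6, 1), (7, 1)]
    steps := [(0, 4), (1, 2), (1, 10), (3, 8), (3, 9)] }
  rep := [3, 0, 1, 5, 7, 6, 11]

noncomputable def v41 : Cov.CovD where
  P := 3
  N := 4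
  pl := [0, 7]
  lev := [⟨[], [], [], [1], [(1, 3, [2])]⟩,
    ⟨[], [(0, 0), (0, 3), (0, 4), (0, 5)], [(0, 3), (0, 4), (0, 5), (3, 4), (3, 5), (4,
      5)], [], [(1, 3, [2]), (2, 5, [2]), (3, 4, [2]), (4, 0, [])]⟩,
    ⟨[(0, 1)], [(0, 0), (0, 2), (0, 3), (1, 0), (1, 2), (1, 3), (1, 4), (1, 5)], [(0, 0),
      (0, 2)], [1], [(4, 0, []), (5, 0, []), (6, 2, [3, 4, 5])]⟩,
    ⟨[(0, 2), (1, 2)], [(1, 0), (1, 4), (2, 0), (2, 2), (2, 4)], [(0, 0), (0, 4)], [6],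
      [(3, 4, [2]), (4, 0, []), (5, 0, [])]⟩]
  Ta := [((4, 3), 0, 4), ((5, 6), 0, 2), ((5, 7), 0, 6)]
  Tb := [((0, 1, 6), 1, 3, 2), ((1, 0, 2), 3, 1, 5), ((2, 1, 3), 5, 3, 4), ((3, 2, 4), 4, 5, 0),
    ((3, 2, 7), 4, 5, 6), ((3, 4, 7), 4, 0, 6), ((5, 6, 7), 0, 2, 6), ((6, 0, 5), 2, 1, 0),
    ((7, 3, 5), 6, 4, 0)]
  Tc := [(2, 3, 4), (2, 3, 5), (2, 4, 5)]
  Td := [((2, 3), (6, 0), 1), ((2, 3), (6, 5), 0), ((2, 4), (6, 0), 1), ((2, 4), (6, 5), 0), ((2,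
    5), (6, 0), 1), ((2, 5), (6, 5), 0), ((3, 2), (1, 0), 1), ((3, 2), (1, 2), 5), ((4, 2),
    (3, 2), 5), ((4, 2), (3, 4), 0), ((4, 2), (3, 7), 6), ((5, 2), (2, 1), 3), ((5, 2), (2,
    3), 4)]
  G := [[0, 0xe42e82c, 0, 0xe42e82c, 0x8468c88486e84d], [0, 0x68c2e82c, 0xe41e81c, 0xe42e82c,
    0x8468c88486e84d]]

noncomputable def n41 : Ent := ⟨e41, noF, [], [], []⟩

def c41 : PLift (Cov.check n41.C.D v41 = true) := ⟨by decide +kernel⟩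

def b41 : PLift (entF (fidx ts) 400 41 n41 = true) := ⟨by decide +kernel⟩

theorem g41 : GoodF (fidx ts) 400 41 := GoodF.ofV v41 n41 c41.down b41.down

/-- 4675:34 -/
noncomputable def e42 : SCfg where
  D := {
    a := 4
    L := 9
    kp := 7
    inn := [(0, 1), (0, 2), (1, 0), (1, 2), (2, 0), (2, 1), (2, 3), (3, 2)]
    mix := [(0, 0), (0, 1), (1, 1), (1, 2), (1, 3), (1, 4), (2, 0), (2, 4), (2, 5), (2, 6), (3, 4), (3,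
      5), (3, 7), (3, 8)]
    cl := [1, 3, 4, 5, 0, 0, 2, 6, 7]
    chq := [(2, 3), (2, 4), (2, 5), (3, 2), (4, 2), (5, 2)]
    rng := [(0, 1), (0, 6), (1, 0), (1, 2), (2, 1), (2, 3), (3, 2), (3, 4), (4, 3), (4, 7), (5, 6), (5,
      8), (6, 0), (6, 5), (7, 4), (7, 8), (8, 5), (8, 7)]
    lev := [] }
  links := [[1, 2, 4, 5], [2, 0, 5, 6, 7, 8], [4, 0, 1, 8, 3, 9, 10], [9, 2, 8, 11, 12]]
  P := {
    a := 4
    N := 13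
    nb := [54, 485, 1819, 6916, 1061, 83, 162, 322, 2190, 5132, 532, 4360, 2568]
    tri := [(0, 1, 2), (0, 1, 5), (0, 2, 4), (0, 4, 5), (1, 2, 8), (1, 5, 6), (1, 6, 7), (1, 7, 8), (2,
      3, 8), (2, 3, 9), (2, 4, 10), (2, 9, 10), (3, 8, 11), (3, 9, 12), (3, 11, 12)]
    fin := [0, 1, 1, 3, 0, 5, 6, 7, 3, 3, 1, 11, 12]
    chd := [(5, 1), (6, 1), (7, 1)]
    steps := [(0, 4), (1, 2), (1, 10), (3, 8), (3, 9)] }
  rep := [3, 0, 1, 5, 6, 7, 11, 12]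

noncomputable def v42 : Cov.CovD where
  P := 3
  N := 5
  pl := [0, 7, 8]
  lev := [⟨[], [], [], [1], [(1, 3, [2])]⟩,
    ⟨[], [(0, 0), (0, 3), (0, 4), (0, 5)], [(0, 3), (0, 4), (0, 5), (3, 4), (3, 5), (4,
      5)], [], [(1, 3, [2]), (2, 4, [2]), (3, 5, [2]), (4, 0, [])]⟩,
    ⟨[(0, 1)], [(0, 0), (0, 2), (0, 3), (1, 0), (1, 2), (1, 3), (1, 4), (1, 5)], [(0, 0),
      (0, 2)], [1], [(4, 0, []), (5, 0, []), (6, 2, [3, 4, 5])]⟩,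
    ⟨[(0, 2), (1, 2)], [(1, 0), (2, 0), (2, 2)], [(0, 0)], [6, 7], [(4, 0, []), (5, 0,
      [])]⟩]
  Ta := [((4, 3), 0, 5), ((4, 7), 0, 6), ((5, 6), 0, 2), ((5, 8), 0, 7)]
  Tb := [((0, 1, 6), 1, 3, 2), ((1, 0, 2), 3, 1, 4), ((2, 1, 3), 4, 3, 5), ((3, 2, 4), 5, 4, 0),
    ((4, 3, 7), 0, 5, 6), ((5, 6, 8), 0, 2, 7), ((6, 0, 5), 2, 1, 0), ((7, 4, 8), 6, 0, 7),
    ((8, 5, 7), 7, 0, 6)]
  Tc := [(2, 3, 4), (2, 3, 5), (2, 4, 5)]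
  Td := [((2, 3), (6, 0), 1), ((2, 3), (6, 5), 0), ((2, 4), (6, 0), 1), ((2, 4), (6, 5), 0), ((2,
    5), (6, 0), 1), ((2, 5), (6, 5), 0), ((3, 2), (1, 0), 1), ((3, 2), (1, 2), 4), ((4, 2),
    (2, 1), 3), ((4, 2), (2, 3), 5), ((5, 2), (3, 2), 4), ((5, 2), (3, 4), 0)]
  G := [[0, 0xe42e82c, 0, 0xe42e829, 0x8468c88886e84d], [0, 0xe42e82c, 0xe41e81c, 0xe42e82c,
    0x8468c88886e84d]]

noncomputable def n42 : Ent := ⟨e42, noF, [], [], [(7, 11, [4490646669154137815330563540829309386802515929108481, 0])]⟩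

def c42 : PLift (Cov.check n42.C.D v42 = true) := ⟨by decide +kernel⟩

def b42 : PLift (entF (fidx ts) 400 42 n42 = true) := ⟨by decide +kernel⟩

theorem g42 : GoodF (fidx ts) 400 42 := GoodF.ofV v42 n42 c42.down b42.down

/-- 45766:39/1 -/
noncomputable def e43 : SCfg where
  D := {
    a := 5
    L := 9
    kp := 6
    inn := [(0, 1), (0, 2), (1, 0), (1, 2), (2, 0), (2, 1), (2, 3), (2, 4), (3, 2), (3, 4), (4, 2), (4,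
      3)]
    mix := [(0, 0), (0, 1), (1, 1), (1, 2), (1, 3), (2, 0), (2, 3), (2, 4), (3, 2), (3, 3), (3, 5), (3,
      6), (4, 4), (4, 6), (4, 7), (4, 8)]
    cl := [1, 2, 3, 0, 0, 4, 0, 5, 6]
    chq := [(1, 3), (3, 1)]
    rng := [(0, 1), (0, 4), (1, 0), (1, 2), (2, 1), (2, 3), (2, 5), (3, 2), (4, 0), (4, 8), (5, 2), (5,
      6), (6, 5), (6, 7), (7, 6), (7, 8), (8, 4), (8, 7)]
    lev := [] }
  links := [[1, 2, 5, 6], [2, 0, 6, 7, 8], [5, 0, 1, 8, 3, 4, 9], [4, 2, 8, 7, 10, 11], [9, 2, 3, 11, 12,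
    13]]
  P := {
    a := 5
    N := 14
    nb := [102, 453, 827, 3476, 14860, 581, 163, 1354, 142, 8244, 2184, 5144, 10256, 4624]
    tri := [(0, 1, 2), (0, 1, 6), (0, 2, 5), (0, 5, 6), (1, 2, 8), (1, 6, 7), (1, 7, 8), (2, 3, 4), (2,
      3, 8), (2, 4, 9), (2, 5, 9), (3, 4, 11), (3, 7, 8), (3, 7, 10), (3, 10, 11), (4, 9, 13), (4,
      11, 12), (4, 12, 13)]
    fin := [0, 0, 0, 3, 3, 0, 6, 7, 3, 3, 10, 3, 12, 13]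
    chd := [(0, 7)]
    steps := [(0, 1), (0, 2), (0, 5), (3, 4), (3, 8), (3, 11), (3, 9)] }
  rep := [3, 0, 6, 7, 10, 12, 13]

noncomputable def v43 : Cov.CovD where
  P := 3
  N := 4
  pl := [1, 5, 7, 8]
  lev := [⟨[], [], [], [2], [(0, 1, [3])]⟩,
    ⟨[], [(0, 0), (0, 1), (0, 3)], [(0, 3)], [2], [(2, 3, [1]), (3, 0, [])]⟩,
    ⟨[(0, 1)], [(0, 0), (0, 1), (1, 0), (1, 1), (1, 3)], [(0, 0), (0, 1)], [], [(0, 1,
      [3]), (3, 0, []), (4, 0, [])]⟩,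
    ⟨[(0, 2), (1, 2)], [(1, 0), (1, 3), (2, 0), (2, 1), (2, 3)], [(0, 0), (0, 3)], [4],
      [(2, 3, [1]), (3, 0, []), (6, 0, [])]⟩,
    ⟨[(0, 2), (1, 2), (2, 3)], [(2, 0), (2, 1), (3, 0), (3, 3)], [(0, 0)], [5, 6], [(4, 0,
      []), (6, 0, [])]⟩]
  Ta := [((3, 2), 0, 3), ((4, 0), 0, 1), ((4, 8), 0, 6), ((6, 5), 0, 4), ((6, 7), 0, 5)]
  Tb := [((0, 1, 4), 1, 2, 0), ((1, 0, 2), 2, 1, 3), ((2, 1, 3), 3, 2, 0), ((2, 1, 5), 3, 2, 4),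
    ((2, 3, 5), 3, 0, 4), ((4, 0, 8), 0, 1, 6), ((5, 2, 6), 4, 3, 0), ((6, 5, 7), 0, 4, 5),
    ((7, 6, 8), 5, 0, 6), ((8, 4, 7), 6, 0, 5)]
  Tc := []
  Td := [((1, 3), (0, 1), 2), ((1, 3), (0, 4), 0), ((3, 1), (2, 1), 2), ((3, 1), (2, 3), 0), ((3,
    1), (2, 5), 4)]
  G := [[0, 0, 0x6eee88c24, 0xeea4ee68c1, 0xe4eeac21], [0, 0xee6e8a14, 0x44eaeec28, 0x6eee88c14,
    0x44eaeec28], [0, 0, 0x44eaeec28, 0x44eaeec18, 0x44eaeec18]]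

noncomputable def n43 : Ent := ⟨e43, noF, [], [], []⟩

def c43 : PLift (Cov.check n43.C.D v43 = true) := ⟨by decide +kernel⟩

def b43 : PLift (entF (fidx ts) 400 43 n43 = true) := ⟨by decide +kernel⟩

theorem g43 : GoodF (fidx ts) 400 43 := GoodF.ofV v43 n43 c43.down b43.down

/-- 45766:39 -/
noncomputable def e44 : SCfg where
  D := {
    a := 5
    L := 10
    kp := 7
    inn := [(0, 1), (0, 2), (1, 0), (1, 2), (2, 0), (2, 1), (2, 3), (2, 4), (3, 2), (3, 4), (4, 2), (4,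
      3)]
    mix := [(0, 0), (0, 1), (1, 1), (1, 2), (1, 3), (2, 0), (2, 3), (2, 4), (3, 3), (3, 5), (3, 6), (3,
      7), (4, 4), (4, 7), (4, 8), (4, 9)]
    cl := [1, 2, 3, 0, 0, 4, 5, 0, 6, 7]
    chq := [(1, 3), (3, 1)]
    rng := [(0, 1), (0, 4), (1, 0), (1, 2), (2, 1), (2, 3), (3, 2), (3, 5), (4, 0), (4, 9), (5, 3), (5,
      6), (6, 5), (6, 7), (7, 6), (7, 8), (8, 7), (8, 9), (9, 4), (9, 8)]
    lev := [] }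
  links := [[1, 2, 5, 6], [2, 0, 6, 7, 8], [5, 0, 1, 8, 3, 4, 9], [4, 2, 8, 10, 11, 12], [9, 2, 3, 12,
    13, 14]]
  P := {
    a := 5
    N := 15
    nb := [102, 453, 827, 7444, 29196, 581, 163, 322, 1166, 16436, 2312, 5128, 10264, 20496, 8720]
    tri := [(0, 1, 2), (0, 1, 6), (0, 2, 5), (0, 5, 6), (1, 2, 8), (1, 6, 7), (1, 7, 8), (2, 3, 4), (2,
      3, 8), (2, 4, 9), (2, 5, 9), (3, 4, 12), (3, 8, 10), (3, 10, 11), (3, 11, 12), (4, 9, 14),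
      (4, 12, 13), (4, 13, 14)]
    fin := [0, 0, 0, 3, 3, 0, 6, 7, 3, 3, 10, 11, 3, 13, 14]
    chd := [(0, 7)]
    steps := [(0, 1), (0, 2), (0, 5), (3, 4), (3, 8), (3, 12), (3, 9)] }
  rep := [3, 0, 6, 7, 10, 11, 13, 14]

noncomputable def v44 : Cov.CovD where
  P := 3
  N := 5
  pl := [1, 5, 6, 8, 9]
  lev := [⟨[], [], [], [2], [(0, 1, [3])]⟩,
    ⟨[], [(0, 0), (0, 1), (0, 3)], [(0, 3)], [2], [(2, 3, [1]), (3, 0, [])]⟩,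
    ⟨[(0, 1)], [(0, 0), (0, 1), (1, 0), (1, 1), (1, 3)], [(0, 0), (0, 1)], [], [(0, 1,
      [3]), (3, 0, []), (4, 0, [])]⟩,
    ⟨[(0, 2), (1, 2)], [(1, 0), (2, 0), (2, 1)], [(0, 0)], [4, 5], [(3, 0, []), (7, 0,
      [])]⟩,
    ⟨[(0, 2), (1, 2), (2, 3)], [(2, 0), (2, 1), (3, 0)], [(0, 0)], [6, 7], [(4, 0, []), (7,
      0, [])]⟩]
  Ta := [((3, 2), 0, 3), ((3, 5), 0, 4), ((4, 0), 0, 1), ((4, 9), 0, 7), ((7, 6), 0, 5), ((7, 8),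
    0, 6)]
  Tb := [((0, 1, 4), 1, 2, 0), ((1, 0, 2), 2, 1, 3), ((2, 1, 3), 3, 2, 0), ((3, 2, 5), 0, 3, 4),
    ((4, 0, 9), 0, 1, 7), ((5, 3, 6), 4, 0, 5), ((6, 5, 7), 5, 4, 0), ((7, 6, 8), 0, 5, 6),
    ((8, 7, 9), 6, 0, 7), ((9, 4, 8), 7, 0, 6)]
  Tc := []
  Td := [((1, 3), (0, 1), 2), ((1, 3), (0, 4), 0), ((3, 1), (2, 1), 2), ((3, 1), (2, 3), 0)]
  G := [[0, 0, 0x6eee88c24, 0xeaee4a8a4c4484e6e8cc, 0xe4eeac21], [0, 0xe2eeca14, 0x6eee88c24,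
    0x44eaeec18, 0x64e8eec28], [0, 0, 0x6eee88c24, 0x6eee88c14, 0x6eee88c21]]

noncomputable def n44 : Ent := ⟨e44, noF, [], [], [(7, 10, [87899351228182800255330707199211554976174174322329328463873, 0])]⟩

def c44 : PLift (Cov.check n44.C.D v44 = true) := ⟨by decide +kernel⟩

def b44 : PLift (entF (fidx ts) 400 44 n44 = true) := ⟨by decide +kernel⟩

theorem g44 : GoodF (fidx ts) 400 44 := GoodF.ofV v44 n44 c44.down b44.down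

/-- 45764:41 -/
noncomputable def e45 : SCfg where
  D := {
    a := 5
    L := 9
    kp := 7
    inn := [(0, 1), (0, 2), (1, 0), (1, 2), (2, 0), (2, 1), (2, 3), (3, 2), (3, 4), (4, 3)]
    mix := [(0, 0), (0, 1), (1, 1), (1, 2), (1, 3), (2, 0), (2, 3), (2, 4), (2, 5), (3, 3), (3, 4), (3,
      6), (3, 7), (4, 6), (4, 7), (4, 8)]
    cl := [1, 2, 5, 0, 0, 6, 3, 4, 7]
    chq := [(0, 7), (1, 5), (5, 1), (5, 6), (6, 5), (7, 0)]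
    rng := [(0, 1), (0, 5), (1, 0), (1, 2), (2, 1), (2, 3), (3, 2), (3, 6), (4, 5), (4, 7), (5, 0), (5,
      4), (6, 3), (6, 8), (7, 4), (7, 8), (8, 6), (8, 7)]
    lev := [] }
  links := [[1, 2, 5, 6], [2, 0, 6, 7, 8], [5, 0, 1, 8, 3, 9, 10], [9, 2, 8, 11, 4, 12], [12, 3, 11, 13]]
  P := {
    a := 5
    N := 14
    nb := [102, 453, 1835, 6932, 14344, 1093, 163, 322, 2190, 5132, 548, 8472, 8728, 6160]
    tri := [(0, 1, 2), (0, 1, 6), (0, 2, 5), (0, 5, 6), (1, 2, 8), (1, 6, 7), (1, 7, 8), (2, 3, 8), (2,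
      3, 9), (2, 5, 10), (2, 9, 10), (3, 4, 11), (3, 4, 12), (3, 8, 11), (3, 9, 12), (4, 11, 13),
      (4, 12, 13)]
    fin := [0, 1, 1, 3, 3, 0, 6, 1, 3, 3, 10, 11, 12, 13]
    chd := [(0, 1), (1, 10), (3, 13)]
    steps := [(0, 5), (1, 2), (1, 7), (3, 4), (3, 8), (3, 9)] }
  rep := [3, 0, 6, 11, 12, 1, 10, 13]

noncomputable def v45 : Cov.CovD where
  P := 3
  N := 5
  pl := [1, 6, 7]
  lev := [⟨[], [], [], [2], [(0, 1, [5])]⟩,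
    ⟨[], [(0, 0), (0, 1), (0, 5)], [(0, 5)], [2], [(2, 5, [1, 6]), (3, 0, [7])]⟩,
    ⟨[(0, 1)], [(0, 0), (0, 1), (0, 6), (1, 0), (1, 1), (1, 5), (1, 6)], [(0, 0), (0, 1),
      (0, 6), (1, 6)], [], [(0, 1, [5]), (3, 0, [7]), (4, 0, [7]), (5, 6, [5])]⟩,
    ⟨[(0, 2), (1, 2)], [(1, 0), (2, 0), (2, 1), (2, 6)], [(0, 0)], [3, 4], [(3, 0, [7]),
      (4, 0, [7])]⟩,
    ⟨[(2, 3)], [(3, 0), (3, 7)], [], [3, 4], [(8, 7, [0])]⟩]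
  Ta := [((3, 2), 0, 5), ((3, 6), 0, 3), ((4, 5), 0, 6), ((4, 7), 0, 4)]
  Tb := [((0, 1, 5), 1, 2, 6), ((1, 0, 2), 2, 1, 5), ((2, 1, 3), 5, 2, 0), ((3, 2, 6), 0, 5, 3),
    ((4, 5, 7), 0, 6, 4), ((5, 0, 4), 6, 1, 0), ((6, 3, 8), 3, 0, 7), ((7, 4, 8), 4, 0, 7),
    ((8, 6, 7), 7, 3, 4)]
  Tc := [(5, 1, 6)]
  Td := [((0, 7), (3, 2), 5), ((0, 7), (3, 6), 3), ((0, 7), (4, 5), 6), ((0, 7), (4, 7), 4), ((1,
    5), (0, 1), 2), ((1, 5), (0, 5), 6), ((5, 1), (2, 1), 2), ((5, 1), (2, 3), 0), ((5, 6),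
    (2, 1), 2), ((5, 6), (2, 3), 0), ((6, 5), (5, 0), 1), ((6, 5), (5, 4), 0), ((7, 0), (8,
    6), 3), ((7, 0), (8, 7), 4)]
  G := [[0xb71e21dbe8a4, 0xd17e453693a95cec8, 0xd17e421dbe82c, 0xd17e41dbe8c1, 0x1dbed17ec21],
    [0xb71e2d17e468, 0x1dbeb71ea14, 0xd17e421dbe82c, 0x14411dbed7ac1c, 0x1dbed17ec21]]

noncomputable def n45 : Ent := ⟨e45, noF, [], [], []⟩

def c45 : PLift (Cov.check n45.C.D v45 = true) := ⟨by decide +kernel⟩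

def b45 : PLift (entF (fidx ts) 400 45 n45 = true) := ⟨by decide +kernel⟩

theorem g45 : GoodF (fidx ts) 400 45 := GoodF.ofV v45 n45 c45.down b45.down

/-- 46746:43/1 -/
noncomputable def e46 : SCfg where
  D := {
    a := 5
    L := 8
    kp := 5
    inn := [(0, 1), (0, 2), (0, 4), (1, 0), (1, 4), (2, 0), (2, 3), (2, 4), (3, 2), (4, 0), (4, 1), (4,
      2)]
    mix := [(0, 0), (1, 0), (1, 1), (1, 2), (1, 3), (2, 0), (2, 4), (2, 5), (2, 6), (3, 2), (3, 4), (3,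
      5), (4, 1), (4, 6), (4, 7)]
    cl := [0, 0, 1, 2, 3, 4, 3, 5]
    chq := []
    rng := [(0, 3), (0, 4), (1, 2), (1, 7), (2, 1), (2, 3), (2, 4), (2, 5), (3, 0), (3, 2), (4, 0), (4,
      2), (5, 2), (5, 6), (6, 5), (6, 7), (7, 1), (7, 6)]
    lev := [] }
  links := [[1, 5, 2, 4], [5, 0, 4, 6, 7, 8], [4, 0, 5, 9, 3, 10, 11], [10, 2, 9, 7], [6, 1, 0, 2, 11,
    12]]
  P := {
    a := 5
    N := 13
    nb := [54, 497, 3641, 1668, 6215, 775, 4242, 1866, 162, 172, 2188, 5140, 2128]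
    tri := [(0, 1, 4), (0, 1, 5), (0, 2, 4), (0, 2, 5), (1, 4, 6), (1, 5, 8), (1, 6, 7), (1, 7, 8), (2,
      3, 9), (2, 3, 10), (2, 4, 11), (2, 5, 9), (2, 10, 11), (3, 7, 9), (3, 7, 10), (4, 6, 12),
      (4, 11, 12)]
    fin := [0, 0, 2, 2, 0, 0, 0, 7, 8, 2, 10, 2, 12]
    chd := []
    steps := [(0, 1), (0, 4), (0, 5), (0, 6), (2, 3), (2, 9), (2, 11)] }
  rep := [0, 7, 8, 2, 10, 12]

noncomputable def v46 : Cov.CovD where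
  P := 3
  N := 3
  pl := [2, 3, 5, 7]
  lev := [⟨[], [], [], [], [(0, 0, [])]⟩,
    ⟨[], [(0, 0)], [(0, 0)], [1, 2], [(0, 0, []), (1, 0, [])]⟩,
    ⟨[(0, 1)], [(0, 0), (0, 3), (1, 0)], [(0, 3), (3, 3)], [4], [(0, 0, []), (4, 3, []),
      (6, 3, [])]⟩,
    ⟨[(0, 2)], [(2, 0), (2, 3)], [], [1, 4], [(4, 3, [])]⟩,
    ⟨[(0, 1), (0, 2), (1, 2), (2, 3)], [(0, 0), (0, 3), (1, 0), (1, 3), (2, 0), (2, 3)],
      [(0, 3)], [5], [(1, 0, []), (6, 3, [])]⟩]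
  Ta := [((0, 3), 0, 2), ((0, 4), 0, 3), ((1, 2), 0, 1), ((1, 7), 0, 5), ((4, 0), 3, 0), ((4, 2),
    3, 1), ((6, 5), 3, 4), ((6, 7), 3, 5)]
  Tb := [((0, 3, 4), 0, 2, 3), ((1, 2, 7), 0, 1, 5), ((2, 1, 3), 1, 0, 2), ((2, 1, 4), 1, 0, 3),
    ((2, 1, 5), 1, 0, 4), ((2, 3, 4), 1, 2, 3), ((2, 3, 5), 1, 2, 4), ((2, 4, 5), 1, 3, 4),
    ((3, 0, 2), 2, 0, 1), ((4, 0, 2), 3, 0, 1), ((5, 2, 6), 4, 1, 3), ((6, 5, 7), 3, 4, 5),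
    ((7, 1, 6), 5, 0, 3)]
  Tc := []
  Td := []
  G := [[0, 0, 0x181411e82, 0xaa1d244, 0x78b411e82], [0, 0, 0x181811e82, 0x11c282, 0x181411e82],
    [0, 0xce6e182, 0, 0x466d288, 0x68245465e81], [0, 0xeea142, 0, 0xee5281, 0x86c68c384]]

noncomputable def n46 : Ent := ⟨e46, noF, [], [], []⟩

def c46 : PLift (Cov.check n46.C.D v46 = true) := ⟨by decide +kernel⟩

def b46 : PLift (entF (fidx ts) 400 46 n46 = true) := ⟨by decide +kernel⟩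

theorem g46 : GoodF (fidx ts) 400 46 := GoodF.ofV v46 n46 c46.down b46.down

/-- 46746:43 -/
noncomputable def e47 : SCfg where
  D := {
    a := 5
    L := 9
    kp := 6
    inn := [(0, 1), (0, 2), (0, 4), (1, 0), (1, 4), (2, 0), (2, 3), (2, 4), (3, 2), (4, 0), (4, 1), (4,
      2)]
    mix := [(0, 0), (1, 0), (1, 1), (1, 2), (1, 3), (2, 0), (2, 4), (2, 5), (2, 6), (3, 4), (3, 5), (3,
      7), (4, 1), (4, 6), (4, 8)]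
    cl := [0, 0, 3, 4, 1, 2, 1, 5, 6]
    chq := []
    rng := [(0, 3), (0, 4), (1, 2), (1, 8), (2, 1), (2, 3), (3, 0), (3, 2), (4, 0), (4, 7), (5, 6), (5,
      7), (6, 5), (6, 8), (7, 4), (7, 5), (8, 1), (8, 6)]
    lev := [] }
  links := [[1, 5, 2, 4], [5, 0, 4, 6, 7, 8], [4, 0, 5, 9, 3, 10, 11], [10, 2, 9, 12], [6, 1, 0, 2, 11,
    13]]
  P := {
    a := 5
    N := 14
    nb := [54, 497, 3641, 5636, 10311, 775, 8338, 322, 162, 4140, 6156, 9236, 1544, 2128]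
    tri := [(0, 1, 4), (0, 1, 5), (0, 2, 4), (0, 2, 5), (1, 4, 6), (1, 5, 8), (1, 6, 7), (1, 7, 8), (2,
      3, 9), (2, 3, 10), (2, 4, 11), (2, 5, 9), (2, 10, 11), (3, 9, 12), (3, 10, 12), (4, 6, 13),
      (4, 11, 13)]
    fin := [0, 0, 2, 2, 0, 0, 0, 7, 8, 2, 10, 2, 12, 13]
    chd := []
    steps := [(0, 1), (0, 4), (0, 5), (0, 6), (2, 3), (2, 9), (2, 11)] }
  rep := [0, 2, 10, 7, 8, 12, 13]

noncomputable def v47 : Cov.CovD where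
  P := 3
  N := 4
  pl := [2, 3, 5, 7, 8]
  lev := [⟨[], [], [], [], [(0, 0, [])]⟩,
    ⟨[], [(0, 0)], [(0, 0)], [3, 4], [(0, 0, []), (1, 0, [])]⟩,
    ⟨[(0, 1)], [(0, 0), (0, 1), (1, 0)], [(0, 1), (1, 1)], [2], [(0, 0, []), (4, 1, []),
      (6, 1, [])]⟩,
    ⟨[(0, 2)], [(2, 0), (2, 1)], [], [2, 5], [(4, 1, [])]⟩,
    ⟨[(0, 1), (0, 2), (1, 2), (2, 3)], [(0, 0), (0, 1), (1, 0), (1, 1), (2, 0), (2, 1)],
      [(0, 1)], [6], [(1, 0, []), (6, 1, [])]⟩]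
  Ta := [((0, 3), 0, 4), ((0, 4), 0, 1), ((1, 2), 0, 3), ((1, 8), 0, 6), ((4, 0), 1, 0), ((4, 7),
    1, 5), ((6, 5), 1, 2), ((6, 8), 1, 6)]
  Tb := [((0, 3, 4), 0, 4, 1), ((1, 2, 8), 0, 3, 6), ((2, 1, 3), 3, 0, 4), ((3, 0, 2), 4, 0, 3),
    ((4, 0, 7), 1, 0, 5), ((5, 6, 7), 2, 1, 5), ((6, 5, 8), 1, 2, 6), ((7, 4, 5), 5, 1, 2),
    ((8, 1, 6), 6, 0, 1)]
  Tc := []
  Td := []
  G := [[0, 0x6cc82cac4aac4c6, 0x11c411c411c4e2, 0, 0x119811981198e2], [0, 0, 0x124128124e8,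
    0x1198119811c8e4, 0x128128128e4], [0, 0, 0x22c822c8c4c8ce1, 0, 0x2128922984c9889e4], [0,
    0, 0xc24c28c24e1, 0xcc94cc58cc94e2, 0x42829c28c21e2]]

noncomputable def n47 : Ent := ⟨e47, noF, [], [], [(12, 7, [19926558533506552591972921752102252692496414487003455489, 0])]⟩

def c47 : PLift (Cov.check n47.C.D v47 = true) := ⟨by decide +kernel⟩

def b47 : PLift (entF (fidx ts) 400 47 n47 = true) := ⟨by decide +kernel⟩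

theorem g47 : GoodF (fidx ts) 400 47 := GoodF.ofV v47 n47 c47.down b47.down

/-- 46756:44/1 -/
noncomputable def e48 : SCfg where
  D := {
    a := 5
    L := 9
    kp := 6
    inn := [(0, 1), (0, 2), (0, 4), (1, 0), (1, 4), (2, 0), (2, 3), (2, 4), (3, 2), (4, 0), (4, 1), (4,
      2)]
    mix := [(0, 0), (1, 0), (1, 1), (1, 2), (1, 3), (2, 0), (2, 4), (2, 5), (2, 6), (3, 2), (3, 4), (3,
      5), (3, 7), (4, 1), (4, 6), (4, 8)]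
    cl := [0, 0, 2, 5, 1, 1, 3, 6, 4]
    chq := [(1, 4), (4, 1)]
    rng := [(0, 3), (0, 4), (1, 2), (1, 8), (2, 1), (2, 3), (2, 5), (2, 7), (3, 0), (3, 2), (4, 0), (4,
      7), (5, 2), (5, 6), (6, 5), (6, 8), (7, 2), (7, 4), (8, 1), (8, 6)]
    lev := [] }
  links := [[1, 5, 2, 4], [5, 0, 4, 6, 7, 8], [4, 0, 5, 9, 3, 10, 11], [10, 2, 9, 12, 7], [6, 1, 0, 2,
    11, 13]]
  P := {
    a := 5
    N := 14
    nb := [54, 497, 3641, 5764, 10311, 775, 8338, 5450, 162, 4140, 2188, 9236, 648, 2128]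
    tri := [(0, 1, 4), (0, 1, 5), (0, 2, 4), (0, 2, 5), (1, 4, 6), (1, 5, 8), (1, 6, 7), (1, 7, 8), (2,
      3, 9), (2, 3, 10), (2, 4, 11), (2, 5, 9), (2, 10, 11), (3, 7, 10), (3, 7, 12), (3, 9, 12),
      (4, 6, 13), (4, 11, 13)]
    fin := [0, 0, 2, 2, 2, 0, 0, 7, 8, 2, 2, 11, 12, 13]
    chd := [(2, 13)]
    steps := [(0, 1), (0, 5), (0, 6), (2, 3), (2, 4), (2, 9), (2, 10)] }
  rep := [0, 2, 7, 11, 13, 8, 12]

noncomputable def v48 : Cov.CovD where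
  P := 3
  N := 4
  pl := [2, 3, 6, 7]
  lev := [⟨[], [], [], [], [(0, 0, [])]⟩,
    ⟨[], [(0, 0)], [(0, 0)], [2, 5], [(0, 0, []), (1, 0, [])]⟩,
    ⟨[(0, 1)], [(0, 0), (0, 1), (1, 0)], [(0, 1), (1, 1)], [3], [(0, 0, []), (4, 1, [4]),
      (5, 1, [4])]⟩,
    ⟨[(0, 2)], [(2, 0), (2, 1)], [(1, 1)], [2, 6], [(4, 1, [4]), (5, 1, [4])]⟩,
    ⟨[(0, 1), (0, 2), (1, 2), (2, 3)], [(0, 0), (0, 4), (1, 0), (1, 4), (2, 0), (2, 1), (2,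
      4)], [(0, 4)], [3], [(1, 0, []), (8, 4, [1])]⟩]
  Ta := [((0, 3), 0, 5), ((0, 4), 0, 1), ((1, 2), 0, 2), ((1, 8), 0, 4), ((4, 0), 1, 0), ((4, 7),
    1, 6), ((5, 2), 1, 2), ((5, 6), 1, 3)]
  Tb := [((0, 3, 4), 0, 5, 1), ((1, 2, 8), 0, 2, 4), ((2, 1, 3), 2, 0, 5), ((2, 1, 5), 2, 0, 1),
    ((2, 1, 7), 2, 0, 6), ((2, 3, 5), 2, 5, 1), ((2, 3, 7), 2, 5, 6), ((2, 5, 7), 2, 1, 6),
    ((3, 0, 2), 5, 0, 2), ((4, 0, 7), 1, 0, 6), ((5, 2, 6), 1, 2, 3), ((6, 5, 8), 3, 1, 4),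
    ((7, 2, 4), 6, 2, 1), ((8, 1, 6), 4, 0, 3)]
  Tc := []
  Td := [((1, 4), (4, 0), 0), ((1, 4), (4, 7), 6), ((1, 4), (5, 2), 2), ((1, 4), (5, 6), 3), ((4,
    1), (8, 1), 0), ((4, 1), (8, 6), 3)]
  G := [[0, 0x11c11ca11c11cac4, 0, 0, 0x129219c759139ca4], [0, 0, 0, 0x229219c12512ccc2,
    0x129219c7a9119ca4], [0, 0, 0x22c22cc22c22ccc1, 0, 0x8812229229c2a9669ca9], [0, 0,
    0x26ceacc6eca2ccc1, 0x22922c5212824dc8, 0xa6942669a1a8da1e89ac]]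

noncomputable def n48 : Ent := ⟨e48, noF, [], [], []⟩

def c48 : PLift (Cov.check n48.C.D v48 = true) := ⟨by decide +kernel⟩

def b48 : PLift (entF (fidx ts) 400 48 n48 = true) := ⟨by decide +kernel⟩

theorem g48 : GoodF (fidx ts) 400 48 := GoodF.ofV v48 n48 c48.down b48.down

/-- 46756:44 -/
noncomputable def e49 : SCfg where
  D := {
    a := 5
    L := 10
    kp := 7
    inn := [(0, 1), (0, 2), (0, 4), (1, 0), (1, 4), (2, 0), (2, 3), (2, 4), (3, 2), (4, 0), (4, 1), (4,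
      2)]
    mix := [(0, 0), (1, 0), (1, 1), (1, 2), (1, 3), (2, 0), (2, 4), (2, 5), (2, 6), (3, 4), (3, 5), (3,
      7), (3, 8), (4, 1), (4, 6), (4, 9)]
    cl := [0, 0, 4, 5, 1, 1, 2, 6, 7, 3]
    chq := [(1, 3), (3, 1)]
    rng := [(0, 3), (0, 4), (1, 2), (1, 9), (2, 1), (2, 3), (3, 0), (3, 2), (4, 0), (4, 7), (5, 6), (5,
      8), (6, 5), (6, 9), (7, 4), (7, 8), (8, 5), (8, 7), (9, 1), (9, 6)]
    lev := [] }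
  links := [[1, 5, 2, 4], [5, 0, 4, 6, 7, 8], [4, 0, 5, 9, 3, 10, 11], [10, 2, 9, 12, 13], [6, 1, 0, 2,
    11, 14]]
  P := {
    a := 5
    N := 15
    nb := [54, 497, 3641, 13828, 18503, 775, 16530, 322, 162, 4140, 10252, 17428, 8712, 5128, 2128]
    tri := [(0, 1, 4), (0, 1, 5), (0, 2, 4), (0, 2, 5), (1, 4, 6), (1, 5, 8), (1, 6, 7), (1, 7, 8), (2,
      3, 9), (2, 3, 10), (2, 4, 11), (2, 5, 9), (2, 10, 11), (3, 9, 12), (3, 10, 13), (3, 12, 13),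
      (4, 6, 14), (4, 11, 14)]
    fin := [0, 0, 2, 2, 2, 0, 0, 7, 8, 2, 2, 11, 12, 13, 14]
    chd := [(2, 14)]
    steps := [(0, 1), (0, 5), (0, 6), (2, 3), (2, 4), (2, 9), (2, 10)] }
  rep := [0, 2, 11, 14, 7, 8, 12, 13]

noncomputable def v49 : Cov.CovD where
  P := 3
  N := 5
  pl := [2, 3, 6, 7, 8]
  lev := [⟨[], [], [], [], [(0, 0, [])]⟩,
    ⟨[], [(0, 0)], [(0, 0)], [4, 5], [(0, 0, []), (1, 0, [])]⟩,
    ⟨[(0, 1)], [(0, 0), (0, 1), (1, 0)], [(0, 1), (1, 1)], [2], [(0, 0, []), (4, 1, [3]),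
      (5, 1, [3])]⟩,
    ⟨[(0, 2)], [(2, 0), (2, 1)], [(1, 1)], [6, 7], [(4, 1, [3]), (5, 1, [3])]⟩,
    ⟨[(0, 1), (0, 2), (1, 2), (2, 3)], [(0, 0), (0, 3), (1, 0), (1, 3), (2, 0), (2, 1), (2,
      3)], [(0, 3)], [2], [(1, 0, []), (9, 3, [1])]⟩]
  Ta := [((0, 3), 0, 5), ((0, 4), 0, 1), ((1, 2), 0, 4), ((1, 9), 0, 3), ((4, 0), 1, 0), ((4, 7),
    1, 6), ((5, 6), 1, 2), ((5, 8), 1, 7)]
  Tb := [((0, 3, 4), 0, 5, 1), ((1, 2, 9), 0, 4, 3), ((2, 1, 3), 4, 0, 5), ((3, 0, 2), 5, 0, 4),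
    ((4, 0, 7), 1, 0, 6), ((5, 6, 8), 1, 2, 7), ((6, 5, 9), 2, 1, 3), ((7, 4, 8), 6, 1, 7),
    ((8, 5, 7), 7, 1, 6), ((9, 1, 6), 3, 0, 2)]
  Tc := []
  Td := [((1, 3), (4, 0), 0), ((1, 3), (4, 7), 6), ((1, 3), (5, 6), 2), ((1, 3), (5, 8), 7), ((3,
    1), (9, 1), 0), ((3, 1), (9, 6), 2)]
  G := [[0, 0x111e8111e8111e8e4, 0x222d8222d86ccd8e4, 0, 0x121d8222d8111d8e4], [0, 0,
    0x222d4222d46acd4e8, 0x111d8111d8111d8e4, 0x112d8121d8111d8e4], [0, 0,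
    0x222d4222d86aad8e1, 0, 0x222d8222d82aad889e4], [0, 0, 0x222d4222d46aad4e1,
    0x445c88dccc5c894ccd88ce2, 0x8812222d8222d82aad8e5]]

noncomputable def n49 : Ent := ⟨e49, noF, [], [], [(13, 7, [87897818358406171357435995727628066684814757704921600163841, 0])]⟩

def c49 : PLift (Cov.check n49.C.D v49 = true) := ⟨by decide +kernel⟩

def b49 : PLift (entF (fidx ts) 400 49 n49 = true) := ⟨by decide +kernel⟩

theorem g49 : GoodF (fidx ts) 400 49 := GoodF.ofV v49 n49 c49.down b49.down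

/-- 48455:47 -/
noncomputable def e50 : SCfg where
  D := {
    a := 5
    L := 9
    kp := 6
    inn := [(0, 1), (0, 3), (1, 0), (1, 2), (1, 4), (2, 1), (2, 4), (3, 0), (4, 1), (4, 2)]
    mix := [(0, 0), (0, 1), (1, 0), (1, 1), (1, 2), (1, 3), (1, 4), (2, 2), (2, 5), (3, 0), (3, 1), (3,
      6), (3, 7), (4, 3), (4, 5), (4, 8)]
    cl := [0, 0, 1, 1, 2, 3, 4, 5, 6]
    chq := []
    rng := [(0, 4), (0, 6), (1, 2), (1, 7), (2, 1), (2, 5), (3, 4), (3, 8), (4, 0), (4, 3), (5, 2), (5,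
      8), (6, 0), (6, 7), (7, 1), (7, 6), (8, 3), (8, 5)]
    lev := [] }
  links := [[1, 5, 3, 6], [5, 0, 6, 7, 2, 4, 8, 9], [4, 1, 7, 10], [6, 0, 5, 11, 12], [8, 1, 2, 10, 13]]
  P := {
    a := 5
    N := 14
    nb := [106, 1013, 1170, 6241, 9478, 2571, 4235, 1094, 8722, 290, 8340, 4136, 2120, 1296]
    tri := [(0, 1, 5), (0, 1, 6), (0, 3, 5), (0, 3, 6), (1, 2, 4), (1, 2, 7), (1, 4, 8), (1, 5, 9), (1,
      6, 7), (1, 8, 9), (2, 4, 10), (2, 7, 10), (3, 5, 11), (3, 6, 12), (3, 11, 12), (4, 8, 13),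
      (4, 10, 13)]
    fin := [0, 0, 2, 0, 2, 0, 0, 2, 2, 9, 10, 11, 12, 13]
    chd := []
    steps := [(0, 1), (0, 3), (0, 5), (0, 6), (2, 4), (2, 7), (2, 8)] }
  rep := [0, 2, 9, 10, 11, 12, 13]

noncomputable def v50 : Cov.CovD where
  P := 3
  N := 4
  pl := [4, 5, 6, 7, 8]
  lev := [⟨[], [], [(0, 0)], [], [(0, 0, []), (1, 0, [])]⟩,
    ⟨[], [(0, 0), (0, 1)], [(0, 0), (0, 1), (1, 1)], [2], [(0, 0, []), (1, 0, []), (2, 1,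
      []), (3, 1, [])]⟩,
    ⟨[(0, 1)], [(1, 0), (1, 1)], [], [3], [(2, 1, [])]⟩,
    ⟨[(0, 1)], [(0, 0), (1, 0)], [(0, 0)], [4, 5], [(0, 0, []), (1, 0, [])]⟩,
    ⟨[(0, 1), (1, 2)], [(1, 0), (1, 1), (2, 1)], [], [3, 6], [(3, 1, [])]⟩]
  Ta := [((0, 4), 0, 2), ((0, 6), 0, 4), ((1, 2), 0, 1), ((1, 7), 0, 5), ((2, 1), 1, 0), ((2, 5),
    1, 3), ((3, 4), 1, 2), ((3, 8), 1, 6)]
  Tb := [((0, 4, 6), 0, 2, 4), ((1, 2, 7), 0, 1, 5), ((2, 1, 5), 1, 0, 3), ((3, 4, 8), 1, 2, 6),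
    ((4, 0, 3), 2, 0, 1), ((5, 2, 8), 3, 1, 6), ((6, 0, 7), 4, 0, 5), ((7, 1, 6), 5, 0, 4),
    ((8, 3, 5), 6, 1, 3)]
  Tc := []
  Td := []
  G := [[0, 0, 0x6cce322e948, 0, 0xac2e629e582], [0, 0, 0xddde282, 0xddde282, 0xddde282], [0,
    0x111e111e648, 0, 0, 0xc2ce292e582], [0, 0, 0, 0xddde242, 0xddde284]]

noncomputable def n50 : Ent := ⟨e50, noF, [], [], []⟩

def c50 : PLift (Cov.check n50.C.D v50 = true) := ⟨by decide +kernel⟩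

def b50 : PLift (entF (fidx ts) 400 50 n50 = true) := ⟨by decide +kernel⟩

theorem g50 : GoodF (fidx ts) 400 50 := GoodF.ofV v50 n50 c50.down b50.down

/-- 48455:48/1 -/
noncomputable def e51 : SCfg where
  D := {
    a := 5
    L := 9
    kp := 6
    inn := [(0, 1), (0, 3), (1, 0), (1, 2), (1, 4), (2, 1), (3, 0), (4, 1)]
    mix := [(0, 0), (0, 1), (1, 0), (1, 1), (1, 2), (1, 3), (1, 4), (2, 2), (2, 3), (2, 5), (3, 0), (3,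
      1), (3, 6), (3, 7), (4, 3), (4, 4), (4, 6), (4, 8)]
    cl := [0, 0, 2, 1, 1, 4, 3, 5, 6]
    chq := [(0, 4), (4, 0)]
    rng := [(0, 4), (0, 6), (1, 2), (1, 7), (2, 1), (2, 5), (3, 5), (3, 8), (4, 0), (4, 6), (5, 2), (5,
      3), (6, 0), (6, 4), (6, 7), (6, 8), (7, 1), (7, 6), (8, 3), (8, 6)]
    lev := [] }
  links := [[1, 5, 3, 6], [5, 0, 6, 7, 2, 8, 4, 9], [8, 1, 7, 10], [6, 0, 5, 11, 12], [9, 1, 8, 13, 11]]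
  P := {
    a := 5
    N := 14
    nb := [106, 1013, 1410, 6241, 11010, 2571, 4235, 1094, 9238, 2098, 388, 12856, 2120, 2320]
    tri := [(0, 1, 5), (0, 1, 6), (0, 3, 5), (0, 3, 6), (1, 2, 7), (1, 2, 8), (1, 4, 8), (1, 4, 9), (1,
      5, 9), (1, 6, 7), (2, 7, 10), (2, 8, 10), (3, 5, 11), (3, 6, 12), (3, 11, 12), (4, 8, 13),
      (4, 9, 11), (4, 11, 13)]
    fin := [0, 0, 0, 0, 4, 0, 0, 7, 4, 4, 10, 11, 12, 13]
    chd := [(0, 10)]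
    steps := [(0, 1), (0, 2), (0, 3), (0, 5), (0, 6), (4, 8), (4, 9)] }
  rep := [0, 4, 7, 11, 10, 12, 13]

noncomputable def v51 : Cov.CovD where
  P := 3
  N := 4
  pl := [2, 6, 7, 8]
  lev := [⟨[], [], [(0, 0)], [], [(0, 0, [4]), (1, 0, [4])]⟩,
    ⟨[], [(0, 0), (0, 1)], [(0, 0), (0, 1), (1, 1)], [2], [(0, 0, [4]), (1, 0, [4]), (3, 1,
      []), (4, 1, [])]⟩,
    ⟨[(0, 1)], [(1, 0), (1, 1), (1, 4)], [(1, 4)], [2], [(3, 1, []), (5, 4, [0])]⟩,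
    ⟨[(0, 1)], [(0, 0), (1, 0)], [(0, 0)], [3, 5], [(0, 0, [4]), (1, 0, [4])]⟩,
    ⟨[(0, 1), (1, 2)], [(1, 0), (1, 1), (2, 1)], [(1, 1)], [3, 6], [(3, 1, []), (4, 1,
      [])]⟩]
  Ta := [((0, 4), 0, 1), ((0, 6), 0, 3), ((1, 2), 0, 2), ((1, 7), 0, 5), ((3, 5), 1, 4), ((3, 8),
    1, 6), ((4, 0), 1, 0), ((4, 6), 1, 3)]
  Tb := [((0, 4, 6), 0, 1, 3), ((1, 2, 7), 0, 2, 5), ((2, 1, 5), 2, 0, 4), ((3, 5, 8), 1, 4, 6),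
    ((4, 0, 6), 1, 0, 3), ((5, 2, 3), 4, 2, 1), ((6, 0, 4), 3, 0, 1), ((6, 0, 7), 3, 0, 5),
    ((6, 0, 8), 3, 0, 6), ((6, 4, 7), 3, 1, 5), ((6, 4, 8), 3, 1, 6), ((6, 7, 8), 3, 5, 6),
    ((7, 1, 6), 5, 0, 3), ((8, 3, 6), 6, 1, 3)]
  Tc := []
  Td := [((0, 4), (0, 4), 1), ((0, 4), (0, 6), 3), ((0, 4), (1, 2), 2), ((0, 4), (1, 7), 5), ((4,
    0), (5, 2), 2), ((4, 0), (5, 3), 1)]
  G := [[0, 0, 0, 0x95de182, 0x95de182], [0, 0xeeee142, 0, 0x95de182, 0x95de284], [0, 0,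
    0x15c95dec8da8c2, 0x95de142, 0x95de184], [0, 0, 0x95de284, 0x95de148, 0x95de282]]

noncomputable def n51 : Ent := ⟨e51, noF, [], [], []⟩

def c51 : PLift (Cov.check n51.C.D v51 = true) := ⟨by decide +kernel⟩

def b51 : PLift (entF (fidx ts) 400 51 n51 = true) := ⟨by decide +kernel⟩

theorem g51 : GoodF (fidx ts) 400 51 := GoodF.ofV v51 n51 c51.down b51.down

/-- 48455:48 -/
noncomputable def e52 : SCfg where
  D := {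
    a := 5
    L := 10
    kp := 7
    inn := [(0, 1), (0, 3), (1, 0), (1, 2), (1, 4), (2, 1), (3, 0), (4, 1)]
    mix := [(0, 0), (0, 1), (1, 0), (1, 1), (1, 2), (1, 3), (1, 4), (2, 2), (2, 3), (2, 5), (3, 0), (3,
      1), (3, 6), (3, 7), (4, 3), (4, 4), (4, 8), (4, 9)]
    cl := [0, 0, 2, 1, 1, 3, 4, 5, 6, 7]
    chq := [(0, 3), (3, 0)]
    rng := [(0, 4), (0, 6), (1, 2), (1, 7), (2, 1), (2, 5), (3, 5), (3, 8), (4, 0), (4, 9), (5, 2), (5,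
      3), (6, 0), (6, 7), (7, 1), (7, 6), (8, 3), (8, 9), (9, 4), (9, 8)]
    lev := [] }
  links := [[1, 5, 3, 6], [5, 0, 6, 7, 2, 8, 4, 9], [8, 1, 7, 10], [6, 0, 5, 11, 12], [9, 1, 8, 13, 14]]
  P := {
    a := 5
    N := 15
    nb := [106, 1013, 1410, 6241, 25346, 2571, 4235, 1094, 9238, 16434, 388, 4136, 2120, 16656, 8720]
    tri := [(0, 1, 5), (0, 1, 6), (0, 3, 5), (0, 3, 6), (1, 2, 7), (1, 2, 8), (1, 4, 8), (1, 4, 9), (1,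
      5, 9), (1, 6, 7), (2, 7, 10), (2, 8, 10), (3, 5, 11), (3, 6, 12), (3, 11, 12), (4, 8, 13),
      (4, 9, 14), (4, 13, 14)]
    fin := [0, 0, 0, 0, 4, 0, 0, 7, 4, 4, 10, 11, 12, 13, 14]
    chd := [(0, 10)]
    steps := [(0, 1), (0, 2), (0, 3), (0, 5), (0, 6), (4, 8), (4, 9)] }
  rep := [0, 4, 7, 10, 11, 12, 13, 14]

noncomputable def v52 : Cov.CovD where
  P := 3
  N := 5
  pl := [2, 6, 7, 8, 9]
  lev := [⟨[], [], [(0, 0)], [], [(0, 0, [3]), (1, 0, [3])]⟩,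
    ⟨[], [(0, 0), (0, 1)], [(0, 0), (0, 1), (1, 1)], [2], [(0, 0, [3]), (1, 0, [3]), (3, 1,
      []), (4, 1, [])]⟩,
    ⟨[(0, 1)], [(1, 0), (1, 1), (1, 3)], [(1, 3)], [2], [(3, 1, []), (5, 3, [0])]⟩,
    ⟨[(0, 1)], [(0, 0), (1, 0)], [(0, 0)], [4, 5], [(0, 0, [3]), (1, 0, [3])]⟩,
    ⟨[(0, 1), (1, 2)], [(1, 0), (1, 1), (2, 1)], [(1, 1)], [6, 7], [(3, 1, []), (4, 1,
      [])]⟩]
  Ta := [((0, 4), 0, 1), ((0, 6), 0, 4), ((1, 2), 0, 2), ((1, 7), 0, 5), ((3, 5), 1, 3), ((3, 8),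
    1, 6), ((4, 0), 1, 0), ((4, 9), 1, 7)]
  Tb := [((0, 4, 6), 0, 1, 4), ((1, 2, 7), 0, 2, 5), ((2, 1, 5), 2, 0, 3), ((3, 5, 8), 1, 3, 6),
    ((4, 0, 9), 1, 0, 7), ((5, 2, 3), 3, 2, 1), ((6, 0, 7), 4, 0, 5), ((7, 1, 6), 5, 0, 4),
    ((8, 3, 9), 6, 1, 7), ((9, 4, 8), 7, 1, 6)]
  Tc := []
  Td := [((0, 3), (0, 4), 1), ((0, 3), (0, 6), 4), ((0, 3), (1, 2), 2), ((0, 3), (1, 7), 5), ((3,
    0), (5, 2), 2), ((3, 0), (5, 3), 1)]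
  G := [[0, 0, 0, 0xddde184, 0xddde184], [0, 0xeeee148, 0, 0xddde182, 0xddde282], [0, 0,
    0x55cdddec88de8c2, 0xddde184, 0xddde184], [0, 0, 0xddde284, 0xddde182, 0xddde284]]

noncomputable def n52 : Ent := ⟨e52, noF, [], [], [(11, 14, [81620716623019490593592230936445690773474979418095883595777, 0])]⟩

def c52 : PLift (Cov.check n52.C.D v52 = true) := ⟨by decide +kernel⟩

def b52 : PLift (entF (fidx ts) 400 52 n52 = true) := ⟨by decide +kernel⟩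

theorem g52 : GoodF (fidx ts) 400 52 := GoodF.ofV v52 n52 c52.down b52.down

/-- 48454:49/1 -/
noncomputable def e53 : SCfg where
  D := {
    a := 5
    L := 8
    kp := 5
    inn := [(0, 1), (0, 3), (1, 0), (1, 2), (1, 4), (2, 1), (3, 0), (4, 1)]
    mix := [(0, 0), (0, 1), (1, 0), (1, 1), (1, 2), (1, 3), (1, 4), (2, 2), (2, 3), (2, 5), (3, 0), (3,
      1), (3, 6), (3, 7), (4, 0), (4, 4), (4, 6)]
    cl := [0, 0, 1, 0, 2, 4, 3, 5]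
    chq := []
    rng := [(0, 6), (1, 2), (1, 7), (2, 1), (2, 5), (3, 4), (3, 5), (4, 3), (4, 6), (5, 2), (5, 3), (6,
      0), (6, 4), (6, 7), (7, 1), (7, 6)]
    lev := [] }
  links := [[1, 5, 3, 6], [5, 0, 6, 7, 2, 8, 9, 4], [8, 1, 7, 10], [6, 0, 5, 11, 12], [5, 1, 9, 11]]
  P := {
    a := 5
    N := 13
    nb := [106, 1013, 1410, 6241, 2594, 2075, 4235, 1094, 1542, 2322, 388, 4664, 2120]
    tri := [(0, 1, 5), (0, 1, 6), (0, 3, 5), (0, 3, 6), (1, 2, 7), (1, 2, 8), (1, 4, 5), (1, 4, 9), (1,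
      6, 7), (1, 8, 9), (2, 7, 10), (2, 8, 10), (3, 5, 11), (3, 6, 12), (3, 11, 12), (4, 5, 11),
      (4, 9, 11)]
    fin := [0, 0, 0, 0, 0, 0, 0, 7, 0, 9, 10, 11, 12]
    chd := []
    steps := [(0, 1), (0, 2), (0, 3), (0, 5), (0, 4), (0, 6), (0, 8)] }
  rep := [0, 7, 9, 11, 10, 12]

noncomputable def v53 : Cov.CovD where
  P := 3
  N := 3
  pl := [2, 4, 5, 6, 7]
  lev := [⟨[], [], [(0, 0)], [], [(0, 0, []), (1, 0, [])]⟩,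
    ⟨[], [(0, 0)], [(0, 0)], [1, 2], [(0, 0, []), (1, 0, []), (3, 0, [])]⟩,
    ⟨[(0, 1)], [(1, 0)], [], [1, 4], [(3, 0, [])]⟩,
    ⟨[(0, 1)], [(0, 0), (1, 0)], [(0, 0)], [3, 5], [(0, 0, []), (1, 0, [])]⟩,
    ⟨[(0, 1), (1, 2)], [(0, 0), (1, 0), (3, 0)], [], [2, 3], [(0, 0, [])]⟩]
  Ta := [((0, 6), 0, 3), ((1, 2), 0, 1), ((1, 7), 0, 5), ((3, 4), 0, 2), ((3, 5), 0, 4)]
  Tb := [((1, 2, 7), 0, 1, 5), ((2, 1, 5), 1, 0, 4), ((3, 4, 5), 0, 2, 4), ((4, 3, 6), 2, 0, 3),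
    ((5, 2, 3), 4, 1, 0), ((6, 0, 4), 3, 0, 2), ((6, 0, 7), 3, 0, 5), ((6, 4, 7), 3, 2, 5),
    ((7, 1, 6), 5, 0, 3)]
  Tc := []
  Td := []
  G := [[0, 0, 0, 0x84ce184, 0x8a2e182], [0, 0x111e141ec84, 0, 0x111e184, 0x812e184], [0, 0,
    0x842e8a2ec42, 0x111e841ec82, 0x111e111ec84]]

noncomputable def n53 : Ent := ⟨e53, noF, [], [], []⟩

def c53 : PLift (Cov.check n53.C.D v53 = true) := ⟨by decide +kernel⟩

def b53 : PLift (entF (fidx ts) 400 53 n53 = true) := ⟨by decide +kernel⟩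

theorem g53 : GoodF (fidx ts) 400 53 := GoodF.ofV v53 n53 c53.down b53.down

/-- 48454:49 -/
noncomputable def e54 : SCfg where
  D := {
    a := 5
    L := 9
    kp := 6
    inn := [(0, 1), (0, 3), (1, 0), (1, 2), (1, 4), (2, 1), (3, 0), (4, 1)]
    mix := [(0, 0), (0, 1), (1, 0), (1, 1), (1, 2), (1, 3), (1, 4), (2, 2), (2, 3), (2, 5), (3, 0), (3,
      1), (3, 6), (3, 7), (4, 0), (4, 4), (4, 8)]
    cl := [0, 0, 1, 0, 2, 3, 4, 5, 6]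
    chq := []
    rng := [(0, 6), (0, 8), (1, 2), (1, 7), (2, 1), (2, 5), (3, 4), (3, 5), (4, 3), (4, 8), (5, 2), (5,
      3), (6, 0), (6, 7), (7, 1), (7, 6), (8, 0), (8, 4)]
    lev := [] }
  links := [[1, 5, 3, 6], [5, 0, 6, 7, 2, 8, 9, 4], [8, 1, 7, 10], [6, 0, 5, 11, 12], [5, 1, 9, 13]]
  P := {
    a := 5
    N := 14
    nb := [106, 1013, 1410, 6241, 8738, 10267, 4235, 1094, 1542, 8466, 388, 4136, 2120, 560]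
    tri := [(0, 1, 5), (0, 1, 6), (0, 3, 5), (0, 3, 6), (1, 2, 7), (1, 2, 8), (1, 4, 5), (1, 4, 9), (1,
      6, 7), (1, 8, 9), (2, 7, 10), (2, 8, 10), (3, 5, 11), (3, 6, 12), (3, 11, 12), (4, 5, 13),
      (4, 9, 13)]
    fin := [0, 0, 0, 0, 0, 0, 0, 7, 0, 9, 10, 11, 12, 13]
    chd := []
    steps := [(0, 1), (0, 2), (0, 3), (0, 4), (0, 5), (0, 6), (0, 8)] }
  rep := [0, 7, 9, 10, 11, 12, 13]

noncomputable def v54 : Cov.CovD where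
  P := 3
  N := 4
  pl := [2, 4, 5, 6, 7, 8]
  lev := [⟨[], [], [(0, 0)], [], [(0, 0, []), (1, 0, [])]⟩,
    ⟨[], [(0, 0)], [(0, 0)], [1, 2], [(0, 0, []), (1, 0, []), (3, 0, [])]⟩,
    ⟨[(0, 1)], [(1, 0)], [], [1, 3], [(3, 0, [])]⟩,
    ⟨[(0, 1)], [(0, 0), (1, 0)], [(0, 0)], [4, 5], [(0, 0, []), (1, 0, [])]⟩,
    ⟨[(0, 1), (1, 2)], [(0, 0), (1, 0), (3, 0)], [], [2, 6], [(0, 0, [])]⟩]
  Ta := [((0, 6), 0, 4), ((0, 8), 0, 6), ((1, 2), 0, 1), ((1, 7), 0, 5), ((3, 4), 0, 2), ((3, 5),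
    0, 3)]
  Tb := [((0, 6, 8), 0, 4, 6), ((1, 2, 7), 0, 1, 5), ((2, 1, 5), 1, 0, 3), ((3, 4, 5), 0, 2, 3),
    ((4, 3, 8), 2, 0, 6), ((5, 2, 3), 3, 1, 0), ((6, 0, 7), 4, 0, 5), ((7, 1, 6), 5, 0, 4),
    ((8, 0, 4), 6, 0, 2)]
  Tc := []
  Td := []
  G := [[0, 0, 0, 0xccce148, 0xaaae184], [0, 0x111e111e648, 0, 0x111e184, 0x111e182], [0, 0,
    0x666e6c6ec84, 0x111e111ec48, 0x111e111ec82]]

noncomputable def n54 : Ent := ⟨e54, noF, [], [], [(11, 13, [18394062992640663726968434746027364144358640063418159105, 0])]⟩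

def c54 : PLift (Cov.check n54.C.D v54 = true) := ⟨by decide +kernel⟩

def b54 : PLift (entF (fidx ts) 400 54 n54 = true) := ⟨by decide +kernel⟩

theorem g54 : GoodF (fidx ts) 400 54 := GoodF.ofV v54 n54 c54.down b54.down

/-- 45764:51 -/
noncomputable def e55 : SCfg where
  D := {
    a := 5
    L := 9
    kp := 7
    inn := [(0, 1), (0, 2), (1, 0), (1, 2), (2, 0), (2, 1), (2, 3), (3, 2), (3, 4), (4, 3)]
    mix := [(0, 0), (0, 1), (1, 1), (1, 2), (1, 3), (2, 0), (2, 3), (2, 4), (2, 5), (3, 4), (3, 5), (3,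
      6), (3, 7), (4, 4), (4, 6), (4, 8)]
    cl := [1, 3, 5, 2, 0, 0, 4, 6, 7]
    chq := [(0, 5), (1, 5), (5, 0), (5, 1), (6, 7), (7, 6)]
    rng := [(0, 1), (0, 5), (1, 0), (1, 2), (2, 1), (2, 3), (3, 2), (3, 4), (4, 3), (4, 8), (5, 0), (5,
      7), (6, 7), (6, 8), (7, 5), (7, 6), (8, 4), (8, 6)]
    lev := [] }
  links := [[1, 2, 5, 6], [2, 0, 6, 7, 8], [5, 0, 1, 8, 9, 3, 10], [10, 2, 9, 4, 11, 12], [11, 3, 9, 13]]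
  P := {
    a := 5
    N := 14
    nb := [102, 453, 1835, 7700, 10760, 1093, 163, 322, 646, 8476, 4140, 12312, 3080, 2576]
    tri := [(0, 1, 2), (0, 1, 6), (0, 2, 5), (0, 5, 6), (1, 2, 8), (1, 6, 7), (1, 7, 8), (2, 3, 9), (2,
      3, 10), (2, 5, 10), (2, 8, 9), (3, 4, 9), (3, 4, 11), (3, 10, 12), (3, 11, 12), (4, 9, 13),
      (4, 11, 13)]
    fin := [0, 1, 2, 3, 3, 0, 6, 1, 8, 2, 2, 11, 12, 3]
    chd := [(0, 1), (1, 2), (12, 3)]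
    steps := [(0, 5), (1, 7), (2, 9), (2, 10), (3, 4), (3, 13)] }
  rep := [2, 0, 8, 6, 11, 1, 12, 3]

noncomputable def v55 : Cov.CovD where
  P := 3
  N := 5
  pl := [1, 3, 6]
  lev := [⟨[], [], [], [3], [(0, 1, [5])]⟩,
    ⟨[], [(0, 1), (0, 5)], [], [2, 3], [(2, 5, [0, 1])]⟩,
    ⟨[(0, 1)], [(0, 0), (0, 1), (1, 0), (1, 1), (1, 5)], [(0, 0), (0, 1)], [2], [(0, 1,
      [5]), (4, 0, [5]), (5, 0, [5])]⟩,
    ⟨[(0, 2), (1, 2)], [(2, 0), (2, 1), (2, 6)], [(0, 0), (0, 6)], [4], [(4, 0, [5]), (5,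
      0, [5]), (7, 6, [7])]⟩,
    ⟨[(2, 3)], [(2, 0), (3, 0), (3, 6), (3, 7)], [(0, 7)], [4], [(4, 0, [5]), (8, 7, [6])]⟩]
  Ta := [((4, 3), 0, 2), ((4, 8), 0, 7), ((5, 0), 0, 1), ((5, 7), 0, 6)]
  Tb := [((0, 1, 5), 1, 3, 0), ((1, 0, 2), 3, 1, 5), ((2, 1, 3), 5, 3, 2), ((3, 2, 4), 2, 5, 0),
    ((4, 3, 8), 0, 2, 7), ((5, 0, 7), 0, 1, 6), ((6, 7, 8), 4, 6, 7), ((7, 5, 6), 6, 0, 4),
    ((8, 4, 6), 7, 0, 4)]
  Tc := [(5, 0, 1)]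
  Td := [((0, 5), (4, 3), 2), ((0, 5), (4, 8), 7), ((0, 5), (5, 0), 1), ((0, 5), (5, 7), 6), ((1,
    5), (0, 1), 3), ((1, 5), (0, 5), 0), ((5, 0), (2, 1), 3), ((5, 0), (2, 3), 2), ((5, 1),
    (2, 1), 3), ((5, 1), (2, 3), 2), ((6, 7), (7, 5), 0), ((6, 7), (7, 6), 4), ((7, 6), (8,
    4), 0), ((7, 6), (8, 6), 4)]
  G := [[0, 0, 0x6ace486ace846ace42d, 0x6ace486ace846ace81d, 0xa4826ca86ace836ca82d], [0,
    0x619e81591e416, 0, 0x135e48319e84319e81d, 0x3c68131ce818831882d]]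

noncomputable def n55 : Ent := ⟨e55, noF, [], [], []⟩

def c55 : PLift (Cov.check n55.C.D v55 = true) := ⟨by decide +kernel⟩

def b55 : PLift (entF (fidx ts) 400 55 n55 = true) := ⟨by decide +kernel⟩

theorem g55 : GoodF (fidx ts) 400 55 := GoodF.ofV v55 n55 c55.down b55.down

/-- 45764:53 -/
noncomputable def e56 : SCfg where
  D := {
    a := 5
    L := 9
    kp := 7
    inn := [(0, 1), (0, 2), (1, 0), (1, 2), (2, 0), (2, 1), (2, 3), (3, 2), (3, 4), (4, 3)]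
    mix := [(0, 0), (0, 1), (1, 1), (1, 2), (1, 3), (2, 0), (2, 3), (2, 4), (2, 5), (3, 4), (3, 5), (3,
      6), (3, 7), (4, 5), (4, 7), (4, 8)]
    cl := [1, 3, 5, 2, 0, 0, 6, 4, 7]
    chq := [(0, 5), (1, 5), (5, 0), (5, 1), (6, 7), (7, 6)]
    rng := [(0, 1), (0, 5), (1, 0), (1, 2), (2, 1), (2, 3), (3, 2), (3, 4), (4, 3), (4, 6), (5, 0), (5,
      8), (6, 4), (6, 7), (7, 6), (7, 8), (8, 5), (8, 7)]
    lev := [] }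
  links := [[1, 2, 5, 6], [2, 0, 6, 7, 8], [5, 0, 1, 8, 9, 3, 10], [10, 2, 9, 11, 12, 4], [10, 3, 12,
    13]]
  P := {
    a := 5
    N := 14
    nb := [102, 453, 1835, 7700, 13320, 1093, 163, 322, 646, 2316, 8252, 4616, 10264, 5136]
    tri := [(0, 1, 2), (0, 1, 6), (0, 2, 5), (0, 5, 6), (1, 2, 8), (1, 6, 7), (1, 7, 8), (2, 3, 9), (2,
      3, 10), (2, 5, 10), (2, 8, 9), (3, 4, 10), (3, 4, 12), (3, 9, 11), (3, 11, 12), (4, 10, 13),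
      (4, 12, 13)]
    fin := [0, 1, 2, 3, 3, 0, 6, 1, 8, 2, 2, 3, 12, 13]
    chd := [(0, 1), (1, 2), (3, 13)]
    steps := [(0, 5), (1, 7), (2, 9), (2, 10), (3, 4), (3, 11)] }
  rep := [2, 0, 8, 6, 12, 1, 3, 13]

noncomputable def v56 : Cov.CovD where
  P := 3
  N := 5
  pl := [1, 3, 7]
  lev := [⟨[], [], [], [3], [(0, 1, [5])]⟩,
    ⟨[], [(0, 1), (0, 5)], [], [2, 3], [(2, 5, [0, 1])]⟩,
    ⟨[(0, 1)], [(0, 0), (0, 1), (1, 0), (1, 1), (1, 5)], [(0, 0), (0, 1)], [2], [(0, 1,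
      [5]), (4, 0, [5]), (5, 0, [5])]⟩,
    ⟨[(0, 2), (1, 2)], [(2, 0), (2, 1), (2, 6)], [(0, 0), (0, 6)], [4], [(4, 0, [5]), (5,
      0, [5]), (6, 6, [7])]⟩,
    ⟨[(2, 3)], [(2, 0), (3, 0), (3, 6), (3, 7)], [(0, 7)], [4], [(5, 0, [5]), (8, 7, [6])]⟩]
  Ta := [((4, 3), 0, 2), ((4, 6), 0, 6), ((5, 0), 0, 1), ((5, 8), 0, 7)]
  Tb := [((0, 1, 5), 1, 3, 0), ((1, 0, 2), 3, 1, 5), ((2, 1, 3), 5, 3, 2), ((3, 2, 4), 2, 5, 0),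
    ((4, 3, 6), 0, 2, 6), ((5, 0, 8), 0, 1, 7), ((6, 4, 7), 6, 0, 4), ((7, 6, 8), 4, 6, 7),
    ((8, 5, 7), 7, 0, 4)]
  Tc := [(5, 0, 1)]
  Td := [((0, 5), (4, 3), 2), ((0, 5), (4, 6), 6), ((0, 5), (5, 0), 1), ((0, 5), (5, 8), 7), ((1,
    5), (0, 1), 3), ((1, 5), (0, 5), 0), ((5, 0), (2, 1), 3), ((5, 0), (2, 3), 2), ((5, 1),
    (2, 1), 3), ((5, 1), (2, 3), 2), ((6, 7), (6, 4), 0), ((6, 7), (6, 7), 4), ((7, 6), (8,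
    5), 0), ((7, 6), (8, 7), 4)]
  G := [[0, 0, 0xa415ac135e8c319e425, 0x1a5e4813ce8413be81d, 0x13ce8619e83691e825], [0,
    0xac668c16ace41a, 0, 0x6ace486ace846ace81d, 0xac6816ace818831886883d]]

noncomputable def n56 : Ent := ⟨e56, noF, [], [], []⟩

def c56 : PLift (Cov.check n56.C.D v56 = true) := ⟨by decide +kernel⟩

def b56 : PLift (entF (fidx ts) 400 56 n56 = true) := ⟨by decide +kernel⟩

theorem g56 : GoodF (fidx ts) 400 56 := GoodF.ofV v56 n56 c56.down b56.down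

/-- 45766:55 -/
noncomputable def e57 : SCfg where
  D := {
    a := 5
    L := 9
    kp := 7
    inn := [(0, 1), (0, 2), (0, 3), (1, 0), (1, 2), (2, 0), (2, 1), (2, 3), (2, 4), (3, 0), (3, 2), (3,
      4), (4, 2), (4, 3)]
    mix := [(0, 0), (1, 0), (1, 1), (1, 2), (2, 2), (2, 3), (2, 4), (3, 0), (3, 5), (3, 6), (4, 4), (4,
      5), (4, 7), (4, 8)]
    cl := [0, 2, 1, 4, 3, 3, 5, 6, 7]
    chq := [(0, 1), (0, 3), (0, 4), (1, 0), (3, 0), (4, 0)]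
    rng := [(0, 1), (0, 6), (1, 0), (1, 2), (2, 1), (2, 3), (3, 2), (3, 4), (4, 3), (4, 7), (5, 6), (5,
      8), (6, 0), (6, 5), (7, 4), (7, 8), (8, 5), (8, 7)]
    lev := [] }
  links := [[1, 2, 3, 5], [2, 0, 5, 6, 7], [3, 0, 1, 7, 8, 9, 4], [5, 0, 2, 4, 10, 11], [10, 3, 2, 9, 12,
    13]]
  P := {
    a := 5
    N := 14
    nb := [46, 229, 923, 3125, 13836, 2123, 162, 326, 644, 4372, 10264, 1064, 8720, 5136]
    tri := [(0, 1, 2), (0, 1, 5), (0, 2, 3), (0, 3, 5), (1, 2, 7), (1, 5, 6), (1, 6, 7), (2, 3, 4), (2,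
      4, 9), (2, 7, 8), (2, 8, 9), (3, 4, 10), (3, 5, 11), (3, 10, 11), (4, 9, 12), (4, 10, 13),
      (4, 12, 13)]
    fin := [0, 0, 0, 0, 4, 0, 6, 7, 8, 4, 4, 11, 12, 13]
    chd := [(0, 4), (0, 7), (0, 8)]
    steps := [(0, 1), (0, 2), (0, 3), (0, 5), (4, 9), (4, 10)] }
  rep := [0, 7, 6, 4, 8, 11, 12, 13]

noncomputable def v57 : Cov.CovD where
  P := 3
  N := 5
  pl := [1, 6, 7, 8]
  lev := [⟨[], [], [], [], [(0, 0, [1, 3, 4])]⟩,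
    ⟨[], [(0, 0), (0, 1)], [(0, 1)], [2], [(0, 0, [1, 3, 4]), (2, 1, [0])]⟩,
    ⟨[(0, 1)], [(0, 0), (0, 1), (0, 3), (0, 4), (1, 0), (1, 1), (1, 3), (1, 4)], [(1, 3),
      (1, 4), (3, 4)], [], [(2, 1, [0]), (3, 4, [0]), (4, 3, [0])]⟩,
    ⟨[(0, 1), (0, 2), (1, 2)], [(0, 0), (0, 3), (1, 0), (2, 0), (2, 1), (2, 3), (2, 4)],
      [(0, 3)], [5], [(0, 0, [1, 3, 4]), (5, 3, [0])]⟩,
    ⟨[(0, 2), (0, 3), (1, 2), (2, 3)], [(2, 1), (2, 3), (2, 4), (3, 0), (3, 3)], [(3, 3)],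
      [6, 7], [(4, 3, [0]), (5, 3, [0])]⟩]
  Ta := [((4, 3), 3, 4), ((4, 7), 3, 6), ((5, 6), 3, 5), ((5, 8), 3, 7)]
  Tb := [((0, 1, 6), 0, 2, 5), ((1, 0, 2), 2, 0, 1), ((2, 1, 3), 1, 2, 4), ((3, 2, 4), 4, 1, 3),
    ((4, 3, 7), 3, 4, 6), ((5, 6, 8), 3, 5, 7), ((6, 0, 5), 5, 0, 3), ((7, 4, 8), 6, 3, 7),
    ((8, 5, 7), 7, 3, 6)]
  Tc := [(0, 1, 3), (0, 1, 4), (0, 3, 4)]
  Td := [((0, 1), (0, 1), 2), ((0, 1), (0, 6), 5), ((0, 3), (0, 1), 2), ((0, 3), (0, 6), 5), ((0,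
    4), (0, 1), 2), ((0, 4), (0, 6), 5), ((1, 0), (2, 1), 2), ((1, 0), (2, 3), 4), ((3, 0),
    (4, 3), 4), ((3, 0), (4, 7), 6), ((3, 0), (5, 6), 5), ((3, 0), (5, 8), 7), ((4, 0), (3,
    2), 1), ((4, 0), (3, 4), 3)]
  G := [[0, 0x11a411a11aeeabc4, 0xffc182, 0x116ff65148c8, 0x1418ffcd82], [0, 0x111ef4111ef8c2,
    0xff618f814a, 0x7dfe14131e8894a, 0xf1fe18111ee4586]]

noncomputable def n57 : Ent := ⟨e57, noF, [], [], []⟩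

def c57 : PLift (Cov.check n57.C.D v57 = true) := ⟨by decide +kernel⟩

def b57 : PLift (entF (fidx ts) 400 57 n57 = true) := ⟨by decide +kernel⟩

theorem g57 : GoodF (fidx ts) 400 57 := GoodF.ofV v57 n57 c57.down b57.down

/-- 48457:56 -/
noncomputable def e58 : SCfg where
  D := {
    a := 5
    L := 9
    kp := 6
    inn := [(0, 1), (0, 3), (1, 0), (1, 2), (1, 3), (1, 4), (2, 1), (2, 4), (3, 0), (3, 1), (3, 4), (4,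
      1), (4, 2), (4, 3)]
    mix := [(0, 0), (0, 1), (1, 0), (1, 2), (1, 3), (1, 4), (2, 2), (2, 5), (3, 1), (3, 6), (4, 5), (4,
      6), (4, 7), (4, 8)]
    cl := [0, 2, 0, 3, 4, 1, 1, 5, 6]
    chq := []
    rng := [(0, 1), (0, 4), (1, 0), (1, 6), (2, 3), (2, 5), (3, 2), (3, 4), (4, 0), (4, 3), (5, 2), (5,
      8), (6, 1), (6, 7), (7, 6), (7, 8), (8, 5), (8, 7)]
    lev := [] }
  links := [[1, 5, 6, 3], [5, 0, 3, 4, 2, 7, 8, 9], [7, 1, 4, 10], [4, 1, 0, 6, 11], [10, 2, 1, 3, 11,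
    12, 13]]
  P := {
    a := 5
    N := 14
    nb := [106, 957, 1170, 2131, 15374, 579, 2089, 1286, 642, 290, 8340, 4184, 10256, 5136]
    tri := [(0, 1, 3), (0, 1, 5), (0, 3, 6), (0, 5, 6), (1, 2, 4), (1, 2, 7), (1, 3, 4), (1, 5, 9), (1,
      7, 8), (1, 8, 9), (2, 4, 10), (2, 7, 10), (3, 4, 11), (3, 6, 11), (4, 10, 13), (4, 11, 12),
      (4, 12, 13)]
    fin := [0, 0, 0, 0, 4, 0, 6, 0, 8, 9, 4, 4, 12, 13]
    chd := []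
    steps := [(0, 1), (0, 2), (0, 3), (0, 5), (0, 7), (4, 11), (4, 10)] }
  rep := [0, 4, 6, 8, 9, 12, 13]

noncomputable def v58 : Cov.CovD where
  P := 3
  N := 4
  pl := [1, 3, 4, 7, 8]
  lev := [⟨[], [], [], [2], [(0, 0, [])]⟩,
    ⟨[], [(0, 0)], [(0, 0)], [3, 4], [(0, 0, []), (2, 0, [])]⟩,
    ⟨[(0, 1)], [(1, 0), (1, 1)], [(0, 1)], [], [(2, 0, []), (5, 1, [])]⟩,
    ⟨[(0, 1), (1, 2)], [(0, 0), (0, 1), (1, 0), (1, 1)], [], [2], [(6, 1, [])]⟩,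
    ⟨[(0, 1), (0, 3), (1, 2), (1, 3), (2, 3)], [(1, 0), (1, 1), (2, 0), (2, 1), (3, 1)],
      [(1, 1)], [5, 6], [(5, 1, []), (6, 1, [])]⟩]
  Ta := [((0, 1), 0, 2), ((0, 4), 0, 4), ((2, 3), 0, 3), ((2, 5), 0, 1), ((5, 2), 1, 0), ((5, 8),
    1, 6), ((6, 1), 1, 2), ((6, 7), 1, 5)]
  Tb := [((0, 1, 4), 0, 2, 4), ((1, 0, 6), 2, 0, 1), ((2, 3, 5), 0, 3, 1), ((3, 2, 4), 3, 0, 4),
    ((4, 0, 3), 4, 0, 3), ((5, 2, 8), 1, 0, 6), ((6, 1, 7), 1, 2, 5), ((7, 6, 8), 5, 1, 6),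
    ((8, 5, 7), 6, 1, 5)]
  Tc := []
  Td := []
  G := [[0, 0, 0x18c4558c849c4e2, 0, 0x11c19d18d14e2], [0, 0, 0x9824d42482d84e6,
    0x481449c298214c15ec, 0x112d18d14ec118a], [0, 0xe424ac828c8ae1, 0, 0, 0xd145188cd14e2],
    [0, 0, 0, 0x58c4d82d48e1, 0xd148d82d8463]]

noncomputable def n58 : Ent := ⟨e58, noF, [], [], []⟩

def c58 : PLift (Cov.check n58.C.D v58 = true) := ⟨by decide +kernel⟩

def b58 : PLift (entF (fidx ts) 400 58 n58 = true) := ⟨by decide +kernel⟩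

theorem g58 : GoodF (fidx ts) 400 58 := GoodF.ofV v58 n58 c58.down b58.down

/-- 48455:57 -/
noncomputable def e59 : SCfg where
  D := {
    a := 5
    L := 8
    kp := 6
    inn := [(0, 1), (0, 3), (1, 0), (1, 2), (1, 3), (1, 4), (2, 1), (2, 4), (3, 0), (3, 1), (4, 1), (4,
      2)]
    mix := [(0, 0), (0, 1), (1, 0), (1, 2), (1, 3), (1, 4), (2, 2), (2, 5), (3, 1), (3, 2), (3, 6), (4,
      3), (4, 5), (4, 7)]
    cl := [1, 2, 0, 0, 5, 3, 4, 6]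
    chq := [(0, 1), (1, 0), (1, 4), (4, 1)]
    rng := [(0, 1), (0, 4), (1, 0), (1, 6), (2, 5), (2, 6), (3, 4), (3, 7), (4, 0), (4, 3), (5, 2), (5,
      7), (6, 1), (6, 2), (7, 3), (7, 5)]
    lev := [] }
  links := [[1, 5, 6, 3], [5, 0, 3, 7, 2, 4, 8, 9], [4, 1, 7, 10], [7, 1, 0, 6, 11], [8, 1, 2, 10, 12]]
  P := {
    a := 5
    N := 13
    nb := [106, 957, 1170, 2243, 5382, 579, 2089, 3086, 4626, 290, 4244, 200, 1296]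
    tri := [(0, 1, 3), (0, 1, 5), (0, 3, 6), (0, 5, 6), (1, 2, 4), (1, 2, 7), (1, 3, 7), (1, 4, 8), (1,
      5, 9), (1, 8, 9), (2, 4, 10), (2, 7, 10), (3, 6, 11), (3, 7, 11), (4, 8, 12), (4, 10, 12)]
    fin := [0, 0, 2, 0, 2, 0, 6, 2, 2, 9, 10, 11, 12]
    chd := [(0, 2), (0, 11)]
    steps := [(0, 1), (0, 3), (0, 5), (2, 4), (2, 7), (2, 8)] }
  rep := [2, 0, 6, 10, 11, 9, 12]

noncomputable def v59 : Cov.CovD where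
  P := 3
  N := 4
  pl := [1, 4, 5, 7]
  lev := [⟨[], [], [], [2], [(0, 1, [0, 4])]⟩,
    ⟨[], [(0, 0), (0, 1)], [(0, 0), (0, 1)], [5], [(0, 1, [0, 4]), (2, 0, [1]), (3, 0,
      [1])]⟩,
    ⟨[(0, 1)], [(1, 0), (1, 1)], [], [3], [(2, 0, [1])]⟩,
    ⟨[(0, 1), (1, 2)], [(0, 0), (0, 1), (0, 4), (1, 0), (1, 1), (1, 4), (2, 0)], [(0, 4)],
      [2], [(2, 0, [1]), (6, 4, [1])]⟩,
    ⟨[(0, 1), (1, 2), (1, 3)], [(1, 0), (1, 1), (2, 0)], [], [3, 6], [(3, 0, [1])]⟩]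
  Ta := [((2, 5), 0, 3), ((2, 6), 0, 4), ((3, 4), 0, 5), ((3, 7), 0, 6)]
  Tb := [((0, 1, 4), 1, 2, 5), ((1, 0, 6), 2, 1, 4), ((2, 5, 6), 0, 3, 4), ((3, 4, 7), 0, 5, 6),
    ((4, 0, 3), 5, 1, 0), ((5, 2, 7), 3, 0, 6), ((6, 1, 2), 4, 2, 0), ((7, 3, 5), 6, 0, 3)]
  Tc := [(1, 0, 4)]
  Td := [((0, 1), (2, 5), 3), ((0, 1), (2, 6), 4), ((0, 1), (3, 4), 5), ((0, 1), (3, 7), 6), ((1,
    0), (0, 1), 2), ((1, 0), (0, 4), 5), ((1, 4), (0, 1), 2), ((1, 4), (0, 4), 5), ((4, 1),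
    (6, 1), 2), ((4, 1), (6, 2), 0)]
  G := [[0, 0x114118112e4, 0x721261262ac8, 0x5cc31c619c63cac1, 0x7212a5232cc1], [0,
    0x112118114e8, 0xe214e218c, 0xc161a4c1a168c, 0xe21e21c1]]

noncomputable def n59 : Ent := ⟨e59, noF, [], [], []⟩

def c59 : PLift (Cov.check n59.C.D v59 = true) := ⟨by decide +kernel⟩

def b59 : PLift (entF (fidx ts) 400 59 n59 = true) := ⟨by decide +kernel⟩

theorem g59 : GoodF (fidx ts) 400 59 := GoodF.ofV v59 n59 c59.down b59.down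

/-- 48454:59 -/
noncomputable def e60 : SCfg where
  D := {
    a := 5
    L := 8
    kp := 6
    inn := [(0, 1), (0, 3), (1, 0), (1, 2), (1, 3), (1, 4), (2, 1), (3, 0), (3, 1), (4, 1)]
    mix := [(0, 0), (0, 1), (1, 0), (1, 2), (1, 3), (1, 4), (2, 2), (2, 3), (2, 5), (3, 1), (3, 2), (3,
      6), (4, 0), (4, 4), (4, 7)]
    cl := [0, 1, 0, 2, 3, 4, 5, 6]
    chq := [(0, 3), (3, 0), (3, 4), (4, 3)]
    rng := [(0, 1), (0, 7), (1, 0), (1, 6), (2, 5), (2, 6), (3, 4), (3, 5), (4, 3), (4, 7), (5, 2), (5,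
      3), (6, 1), (6, 2), (7, 0), (7, 4)]
    lev := [] }
  links := [[1, 5, 6, 3], [5, 0, 3, 7, 2, 8, 9, 4], [8, 1, 7, 10], [7, 1, 0, 6, 11], [5, 1, 9, 12]]
  P := {
    a := 5
    N := 13
    nb := [106, 957, 1410, 2243, 4642, 4179, 2089, 3086, 1542, 4370, 388, 200, 560]
    tri := [(0, 1, 3), (0, 1, 5), (0, 3, 6), (0, 5, 6), (1, 2, 7), (1, 2, 8), (1, 3, 7), (1, 4, 5), (1,
      4, 9), (1, 8, 9), (2, 7, 10), (2, 8, 10), (3, 6, 11), (3, 7, 11), (4, 5, 12), (4, 9, 12)]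
    fin := [0, 1, 1, 0, 0, 0, 6, 0, 8, 9, 1, 11, 12]
    chd := [(0, 9), (9, 1)]
    steps := [(0, 3), (0, 5), (0, 4), (0, 7), (1, 2), (1, 10)] }
  rep := [0, 6, 8, 9, 1, 11, 12]

noncomputable def v60 : Cov.CovD where
  P := 3
  N := 4
  pl := [1, 3, 6, 7]
  lev := [⟨[], [], [], [1], [(0, 0, [3])]⟩,
    ⟨[], [(0, 0), (0, 3)], [(0, 0), (0, 3)], [2], [(0, 0, [3]), (2, 0, [3]), (4, 3, [0,
      4])]⟩,
    ⟨[(0, 1)], [(1, 0), (1, 3), (1, 4)], [(0, 4)], [2], [(2, 0, [3]), (5, 4, [3])]⟩,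
    ⟨[(0, 1), (1, 2)], [(0, 0), (1, 0), (1, 3), (2, 0)], [], [1, 5], [(2, 0, [3])]⟩,
    ⟨[(0, 1), (1, 2), (1, 3)], [(0, 0), (1, 0), (1, 3)], [(0, 3)], [6], [(0, 0, [3]), (4,
      3, [0, 4])]⟩]
  Ta := [((0, 1), 0, 1), ((0, 7), 0, 6), ((2, 5), 0, 4), ((2, 6), 0, 5)]
  Tb := [((0, 1, 7), 0, 1, 6), ((1, 0, 6), 1, 0, 5), ((2, 5, 6), 0, 4, 5), ((3, 4, 5), 2, 3, 4),
    ((4, 3, 7), 3, 2, 6), ((5, 2, 3), 4, 0, 2), ((6, 1, 2), 5, 1, 0), ((7, 0, 4), 6, 0, 3)]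
  Tc := [(3, 0, 4)]
  Td := [((0, 3), (0, 1), 1), ((0, 3), (0, 7), 6), ((0, 3), (2, 5), 4), ((0, 3), (2, 6), 5), ((3,
    0), (4, 3), 2), ((3, 0), (4, 7), 6), ((3, 4), (4, 3), 2), ((3, 4), (4, 7), 6), ((4, 3),
    (5, 2), 0), ((4, 3), (5, 3), 2)]
  G := [[0xeea2eec468, 0xee6166a8c2, 0xe12e1468, 0xe184e148c, 0xe12e18a4], [0, 0, 0x11c211c468,
    0x538d847ec48c, 0x7dc27bc8a4]]

noncomputable def n60 : Ent := ⟨e60, noF, [], [], []⟩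

def c60 : PLift (Cov.check n60.C.D v60 = true) := ⟨by decide +kernel⟩

def b60 : PLift (entF (fidx ts) 400 60 n60 = true) := ⟨by decide +kernel⟩

theorem g60 : GoodF (fidx ts) 400 60 := GoodF.ofV v60 n60 c60.down b60.down

/-- 48455:60 -/
noncomputable def e61 : SCfg where
  D := {
    a := 5
    L := 9
    kp := 6
    inn := [(0, 1), (0, 3), (1, 0), (1, 2), (1, 3), (1, 4), (2, 1), (3, 0), (3, 1), (4, 1)]
    mix := [(0, 0), (0, 1), (1, 0), (1, 2), (1, 3), (1, 4), (2, 2), (2, 3), (2, 5), (3, 1), (3, 2), (3,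
      6), (4, 0), (4, 4), (4, 7), (4, 8)]
    cl := [0, 1, 0, 2, 0, 3, 4, 5, 6]
    chq := []
    rng := [(0, 1), (0, 8), (1, 0), (1, 6), (2, 5), (2, 6), (3, 4), (3, 5), (4, 3), (4, 7), (5, 2), (5,
      3), (6, 1), (6, 2), (7, 4), (7, 8), (8, 0), (8, 7)]
    lev := [] }
  links := [[1, 5, 6, 3], [5, 0, 3, 7, 2, 8, 9, 4], [8, 1, 7, 10], [7, 1, 0, 6, 11], [5, 1, 9, 12, 13]]
  P := {
    a := 5
    N := 14
    nb := [106, 957, 1410, 2243, 12834, 8275, 2089, 3086, 1542, 4370, 388, 200, 8720, 4144]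
    tri := [(0, 1, 3), (0, 1, 5), (0, 3, 6), (0, 5, 6), (1, 2, 7), (1, 2, 8), (1, 3, 7), (1, 4, 5), (1,
      4, 9), (1, 8, 9), (2, 7, 10), (2, 8, 10), (3, 6, 11), (3, 7, 11), (4, 5, 13), (4, 9, 12),
      (4, 12, 13)]
    fin := [0, 0, 0, 0, 0, 0, 6, 0, 8, 0, 10, 11, 12, 13]
    chd := []
    steps := [(0, 1), (0, 2), (0, 3), (0, 4), (0, 5), (0, 7), (0, 9)] }
  rep := [0, 6, 8, 10, 11, 12, 13]

noncomputable def v61 : Cov.CovD where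
  P := 3
  N := 4
  pl := [1, 3, 5, 6, 7, 8]
  lev := [⟨[], [], [], [1], [(0, 0, [])]⟩,
    ⟨[], [(0, 0)], [(0, 0)], [2], [(0, 0, []), (2, 0, []), (4, 0, [])]⟩,
    ⟨[(0, 1)], [(1, 0)], [], [2, 3], [(2, 0, [])]⟩,
    ⟨[(0, 1), (1, 2)], [(0, 0), (1, 0), (2, 0)], [], [1, 4], [(2, 0, [])]⟩,
    ⟨[(0, 1), (1, 2), (1, 3)], [(0, 0), (1, 0)], [(0, 0)], [5, 6], [(0, 0, []), (4, 0,
      [])]⟩]
  Ta := [((0, 1), 0, 1), ((0, 8), 0, 6), ((2, 5), 0, 3), ((2, 6), 0, 4), ((4, 3), 0, 2), ((4, 7),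
    0, 5)]
  Tb := [((0, 1, 8), 0, 1, 6), ((1, 0, 6), 1, 0, 4), ((2, 5, 6), 0, 3, 4), ((3, 4, 5), 2, 0, 3),
    ((4, 3, 7), 0, 2, 5), ((5, 2, 3), 3, 0, 2), ((6, 1, 2), 4, 1, 0), ((7, 4, 8), 5, 0, 6),
    ((8, 0, 7), 6, 0, 5)]
  Tc := []
  Td := []
  G := [[0, 0xeea142, 0, 0x6ec1881c4, 0xeec124], [0, 0, 0, 0x646ecce8c88cc1, 0x2ec2eecc8aa1],
    [0, 0, 0xe1e1c28, 0xe41e81c1, 0xeec124]]

noncomputable def n61 : Ent := ⟨e61, noF, [], [], []⟩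

def c61 : PLift (Cov.check n61.C.D v61 = true) := ⟨by decide +kernel⟩

def b61 : PLift (entF (fidx ts) 400 61 n61 = true) := ⟨by decide +kernel⟩

theorem g61 : GoodF (fidx ts) 400 61 := GoodF.ofV v61 n61 c61.down b61.down

/-- 45774:62 -/
noncomputable def e62 : SCfg where
  D := {
    a := 5
    L := 9
    kp := 7
    inn := [(0, 1), (0, 2), (0, 3), (1, 0), (1, 2), (2, 0), (2, 1), (2, 3), (3, 0), (3, 2), (3, 4), (4,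
      3)]
    mix := [(0, 0), (1, 0), (1, 1), (1, 2), (2, 2), (2, 3), (2, 4), (2, 5), (3, 0), (3, 5), (3, 6), (3,
      7), (4, 6), (4, 7), (4, 8)]
    cl := [0, 6, 3, 4, 5, 1, 2, 1, 7]
    chq := [(0, 3), (0, 4), (0, 5), (3, 0), (4, 0), (5, 0)]
    rng := [(0, 1), (0, 7), (1, 0), (1, 2), (2, 1), (2, 3), (3, 2), (3, 4), (4, 3), (4, 5), (5, 4), (5,
      6), (6, 5), (6, 8), (7, 0), (7, 8), (8, 6), (8, 7)]
    lev := [] }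
  links := [[1, 2, 3, 5], [2, 0, 5, 6, 7], [3, 0, 1, 7, 8, 9, 10], [5, 0, 2, 10, 11, 4, 12], [12, 3, 11,
    13]]
  P := {
    a := 5
    N := 14
    nb := [46, 229, 1931, 7221, 14344, 4171, 162, 326, 644, 1284, 2572, 9240, 8248, 6160]
    tri := [(0, 1, 2), (0, 1, 5), (0, 2, 3), (0, 3, 5), (1, 2, 7), (1, 5, 6), (1, 6, 7), (2, 3, 10),
      (2, 7, 8), (2, 8, 9), (2, 9, 10), (3, 4, 11), (3, 4, 12), (3, 5, 12), (3, 10, 11), (4, 11,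
      13), (4, 12, 13)]
    fin := [0, 0, 0, 3, 3, 0, 6, 7, 8, 9, 3, 11, 3, 13]
    chd := [(0, 7), (0, 8), (0, 9)]
    steps := [(0, 1), (0, 2), (0, 5), (3, 4), (3, 10), (3, 12)] }
  rep := [0, 3, 11, 7, 8, 9, 6, 13]

noncomputable def v62 : Cov.CovD where
  P := 3
  N := 5
  pl := [1, 6, 8]
  lev := [⟨[], [], [], [], [(0, 0, [3, 4, 5])]⟩,
    ⟨[], [(0, 0), (0, 3)], [(0, 3)], [6], [(0, 0, [3, 4, 5]), (2, 3, [0])]⟩,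
    ⟨[(0, 1)], [(0, 0), (0, 1), (0, 3), (0, 4), (0, 5), (1, 0), (1, 1), (1, 3), (1, 4), (1,
      5)], [(1, 3), (1, 4), (1, 5), (3, 4), (3, 5), (4, 5)], [], [(2, 3, [0]), (3, 4, [0]),
      (4, 5, [0]), (5, 1, [])]⟩,
    ⟨[(0, 1), (0, 2), (1, 2)], [(0, 0), (0, 1), (1, 0), (2, 0), (2, 1), (2, 3), (2, 4), (2,
      5)], [(0, 1), (1, 1)], [2], [(0, 0, [3, 4, 5]), (5, 1, []), (7, 1, [])]⟩,
    ⟨[(0, 3), (2, 3)], [(3, 0), (3, 1)], [], [2, 7], [(7, 1, [])]⟩]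
  Ta := [((5, 4), 1, 5), ((5, 6), 1, 2), ((7, 0), 1, 0), ((7, 8), 1, 7)]
  Tb := [((0, 1, 7), 0, 6, 1), ((1, 0, 2), 6, 0, 3), ((2, 1, 3), 3, 6, 4), ((3, 2, 4), 4, 3, 5),
    ((4, 3, 5), 5, 4, 1), ((5, 4, 6), 1, 5, 2), ((6, 5, 8), 2, 1, 7), ((7, 0, 8), 1, 0, 7),
    ((8, 6, 7), 7, 2, 1)]
  Tc := [(0, 3, 4), (0, 3, 5), (0, 4, 5)]
  Td := [((0, 3), (0, 1), 6), ((0, 3), (0, 7), 1), ((0, 4), (0, 1), 6), ((0, 4), (0, 7), 1), ((0,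
    5), (0, 1), 6), ((0, 5), (0, 7), 1), ((3, 0), (2, 1), 6), ((3, 0), (2, 3), 4), ((4, 0),
    (3, 2), 3), ((4, 0), (3, 4), 5), ((5, 0), (4, 3), 4), ((5, 0), (4, 5), 1)]
  G := [[0, 0, 0x241281281e4, 0x941981c81e4, 0x281281281e2], [0, 0xc41c41c41e2, 0xc41c81c81e2,
    0, 0x981981981e4]]

noncomputable def n62 : Ent := ⟨e62, noF, [], [], []⟩

def c62 : PLift (Cov.check n62.C.D v62 = true) := ⟨by decide +kernel⟩

def b62 : PLift (entF (fidx ts) 400 62 n62 = true) := ⟨by decide +kernel⟩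

theorem g62 : GoodF (fidx ts) 400 62 := GoodF.ofV v62 n62 c62.down b62.down

/-- 45764:65/1 -/
noncomputable def e63 : SCfg where
  D := {
    a := 5
    L := 8
    kp := 5
    inn := [(0, 1), (0, 2), (1, 0), (1, 2), (2, 0), (2, 1), (2, 3), (3, 2), (3, 4), (4, 3)]
    mix := [(0, 0), (0, 1), (1, 1), (1, 2), (1, 3), (2, 0), (2, 3), (2, 4), (2, 5), (3, 0), (3, 5), (3,
      6), (3, 7), (4, 2), (4, 6), (4, 7)]
    cl := [0, 2, 3, 0, 5, 1, 4, 1]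
    chq := []
    rng := [(0, 1), (0, 7), (1, 0), (1, 2), (2, 1), (2, 3), (2, 6), (2, 7), (3, 2), (3, 4), (4, 3), (4,
      5), (5, 4), (5, 6), (6, 2), (6, 5), (7, 0), (7, 2)]
    lev := [] }
  links := [[1, 2, 5, 6], [2, 0, 6, 7, 8], [5, 0, 1, 8, 9, 10, 3], [5, 2, 10, 11, 4, 12], [12, 3, 11, 7]]
  P := {
    a := 5
    N := 13
    nb := [102, 453, 1835, 7220, 6280, 4173, 163, 6482, 646, 1284, 2572, 1176, 184]
    tri := [(0, 1, 2), (0, 1, 6), (0, 2, 5), (0, 5, 6), (1, 2, 8), (1, 6, 7), (1, 7, 8), (2, 3, 5), (2,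
      3, 10), (2, 8, 9), (2, 9, 10), (3, 4, 11), (3, 4, 12), (3, 5, 12), (3, 10, 11), (4, 7, 11),
      (4, 7, 12)]
    fin := [0, 0, 0, 3, 4, 0, 6, 4, 0, 9, 3, 11, 3]
    chd := []
    steps := [(0, 1), (0, 2), (0, 5), (0, 8), (3, 10), (3, 12), (4, 7)] }
  rep := [0, 3, 6, 4, 11, 9]

noncomputable def v63 : Cov.CovD where
  P := 3
  N := 3
  pl := [1, 2, 4, 6]
  lev := [⟨[], [], [], [2], [(0, 0, [])]⟩,
    ⟨[], [(0, 0)], [], [2, 3], [(3, 0, [])]⟩,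
    ⟨[(0, 1)], [(0, 0), (0, 1), (1, 0), (1, 1)], [(0, 0), (0, 1)], [5], [(0, 0, []), (3, 0,
      []), (5, 1, [])]⟩,
    ⟨[(0, 2), (1, 2)], [(0, 0), (2, 0), (2, 1)], [(0, 1), (1, 1)], [4], [(0, 0, []), (5, 1,
      []), (7, 1, [])]⟩,
    ⟨[(2, 3)], [(3, 0), (3, 1)], [], [3, 4], [(7, 1, [])]⟩]
  Ta := [((0, 1), 0, 2), ((0, 7), 0, 1), ((3, 2), 0, 3), ((3, 4), 0, 5), ((5, 4), 1, 5), ((5, 6),
    1, 4), ((7, 0), 1, 0), ((7, 2), 1, 3)]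
  Tb := [((0, 1, 7), 0, 2, 1), ((1, 0, 2), 2, 0, 3), ((2, 1, 3), 3, 2, 0), ((2, 1, 6), 3, 2, 4),
    ((2, 1, 7), 3, 2, 1), ((2, 3, 6), 3, 0, 4), ((2, 3, 7), 3, 0, 1), ((2, 6, 7), 3, 4, 1),
    ((3, 2, 4), 0, 3, 5), ((4, 3, 5), 5, 0, 1), ((5, 4, 6), 1, 5, 4), ((6, 2, 5), 4, 3, 1),
    ((7, 0, 2), 1, 0, 3)]
  Tc := []
  Td := []
  G := [[0, 0, 0x12c12cc22, 0x12c4121c81c, 0x21c12cc12], [0, 0x42686ac8e14, 0x81c214c2c8,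
    0x95c218, 0x1dc218], [0, 0, 0, 0x42944285829c24c8cc, 0x25c63cc21], [0, 0, 0,
    0x81c214c2c4, 0x85c24451cca18829]]

noncomputable def n63 : Ent := ⟨e63, noF, [], [], []⟩

def c63 : PLift (Cov.check n63.C.D v63 = true) := ⟨by decide +kernel⟩

def b63 : PLift (entF (fidx ts) 400 63 n63 = true) := ⟨by decide +kernel⟩

theorem g63 : GoodF (fidx ts) 400 63 := GoodF.ofV v63 n63 c63.down b63.down

/-- 45764:65 -/
noncomputable def e64 : SCfg where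
  D := {
    a := 5
    L := 9
    kp := 6
    inn := [(0, 1), (0, 2), (1, 0), (1, 2), (2, 0), (2, 1), (2, 3), (3, 2), (3, 4), (4, 3)]
    mix := [(0, 0), (0, 1), (1, 1), (1, 2), (1, 3), (2, 0), (2, 3), (2, 4), (2, 5), (3, 0), (3, 5), (3,
      6), (3, 7), (4, 6), (4, 7), (4, 8)]
    cl := [0, 2, 4, 0, 5, 1, 3, 1, 6]
    chq := []
    rng := [(0, 1), (0, 7), (1, 0), (1, 2), (2, 1), (2, 3), (3, 2), (3, 4), (4, 3), (4, 5), (5, 4), (5,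
      6), (6, 5), (6, 8), (7, 0), (7, 8), (8, 6), (8, 7)]
    lev := [] }
  links := [[1, 2, 5, 6], [2, 0, 6, 7, 8], [5, 0, 1, 8, 9, 10, 3], [5, 2, 10, 11, 4, 12], [12, 3, 11,
    13]]
  P := {
    a := 5
    N := 14
    nb := [102, 453, 1835, 7220, 14344, 4173, 163, 322, 646, 1284, 2572, 9240, 8248, 6160]
    tri := [(0, 1, 2), (0, 1, 6), (0, 2, 5), (0, 5, 6), (1, 2, 8), (1, 6, 7), (1, 7, 8), (2, 3, 5), (2,
      3, 10), (2, 8, 9), (2, 9, 10), (3, 4, 11), (3, 4, 12), (3, 5, 12), (3, 10, 11), (4, 11, 13),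
      (4, 12, 13)]
    fin := [0, 0, 0, 3, 3, 0, 6, 7, 0, 9, 3, 11, 3, 13]
    chd := []
    steps := [(0, 1), (0, 2), (0, 5), (0, 8), (3, 4), (3, 10), (3, 12)] }
  rep := [0, 3, 6, 11, 7, 9, 13]

noncomputable def v64 : Cov.CovD where
  P := 3
  N := 4
  pl := [1, 2, 4, 6, 8]
  lev := [⟨[], [], [], [2], [(0, 0, [])]⟩,
    ⟨[], [(0, 0)], [], [2, 4], [(3, 0, [])]⟩,
    ⟨[(0, 1)], [(0, 0), (0, 1), (1, 0), (1, 1)], [(0, 0), (0, 1)], [5], [(0, 0, []), (3, 0,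
      []), (5, 1, [])]⟩,
    ⟨[(0, 2), (1, 2)], [(0, 0), (2, 0), (2, 1)], [(0, 1), (1, 1)], [3], [(0, 0, []), (5, 1,
      []), (7, 1, [])]⟩,
    ⟨[(2, 3)], [(3, 0), (3, 1)], [], [3, 6], [(7, 1, [])]⟩]
  Ta := [((0, 1), 0, 2), ((0, 7), 0, 1), ((3, 2), 0, 4), ((3, 4), 0, 5), ((5, 4), 1, 5), ((5, 6),
    1, 3), ((7, 0), 1, 0), ((7, 8), 1, 6)]
  Tb := [((0, 1, 7), 0, 2, 1), ((1, 0, 2), 2, 0, 4), ((2, 1, 3), 4, 2, 0), ((3, 2, 4), 0, 4, 5),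
    ((4, 3, 5), 5, 0, 1), ((5, 4, 6), 1, 5, 3), ((6, 5, 8), 3, 1, 6), ((7, 0, 8), 1, 0, 6),
    ((8, 6, 7), 6, 3, 1)]
  Tc := []
  Td := []
  G := [[0, 0, 0x34436ca8c25c62cce2, 0x92c4163c81c, 0x25c92cc12], [0, 0xca6a6ca14, 0x95c295c2c8,
    0x95c218, 0x95c218], [0, 0, 0, 0x36944c25c29c36c8cc, 0xc25c29c3ac2e9ca2], [0, 0, 0,
    0x95c295c2c1, 0x1d8dd14dc295c283]]

noncomputable def n64 : Ent := ⟨e64, noF, [], [], [(7, 13, [18394062992640663726968434746027364144358640063418200065, 0])]⟩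

def c64 : PLift (Cov.check n64.C.D v64 = true) := ⟨by decide +kernel⟩

def b64 : PLift (entF (fidx ts) 400 64 n64 = true) := ⟨by decide +kernel⟩

theorem g64 : GoodF (fidx ts) 400 64 := GoodF.ofV v64 n64 c64.down b64.down

/-- 48466:67 -/
noncomputable def e65 : SCfg where
  D := {
    a := 5
    L := 9
    kp := 7
    inn := [(0, 1), (0, 3), (1, 0), (1, 2), (1, 3), (1, 4), (2, 1), (2, 4), (3, 0), (3, 1), (3, 4), (4,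
      1), (4, 2), (4, 3)]
    mix := [(0, 0), (0, 1), (1, 0), (1, 2), (1, 3), (1, 4), (2, 2), (2, 5), (3, 1), (3, 6), (3, 7), (4,
      5), (4, 7), (4, 8)]
    cl := [0, 1, 0, 6, 7, 2, 4, 3, 5]
    chq := [(0, 3), (0, 4), (0, 5), (3, 0), (4, 0), (5, 0)]
    rng := [(0, 1), (0, 4), (1, 0), (1, 6), (2, 3), (2, 5), (3, 2), (3, 4), (4, 0), (4, 3), (5, 2), (5,
      8), (6, 1), (6, 7), (7, 6), (7, 8), (8, 5), (8, 7)]
    lev := [] }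
  links := [[1, 5, 6, 3], [5, 0, 3, 4, 2, 7, 8, 9], [7, 1, 4, 10], [4, 1, 0, 6, 11, 12], [10, 2, 1, 3,
    12, 13]]
  P := {
    a := 5
    N := 14
    nb := [106, 957, 1170, 6227, 13326, 579, 2089, 1286, 642, 290, 8340, 4168, 10264, 5136]
    tri := [(0, 1, 3), (0, 1, 5), (0, 3, 6), (0, 5, 6), (1, 2, 4), (1, 2, 7), (1, 3, 4), (1, 5, 9), (1,
      7, 8), (1, 8, 9), (2, 4, 10), (2, 7, 10), (3, 4, 12), (3, 6, 11), (3, 11, 12), (4, 10, 13),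
      (4, 12, 13)]
    fin := [0, 0, 0, 0, 0, 0, 6, 0, 8, 9, 10, 11, 12, 13]
    chd := [(0, 11), (0, 12), (0, 13)]
    steps := [(0, 1), (0, 2), (0, 3), (0, 4), (0, 5), (0, 7)] }
  rep := [0, 6, 10, 12, 11, 13, 8, 9]

noncomputable def v65 : Cov.CovD where
  P := 3
  N := 5
  pl := [1, 3, 4, 5]
  lev := [⟨[], [], [], [1], [(0, 0, [3, 4, 5])]⟩,
    ⟨[], [(0, 0)], [(0, 0)], [6, 7], [(0, 0, [3, 4, 5]), (2, 0, [3, 4, 5])]⟩,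
    ⟨[(0, 1)], [(1, 0)], [], [2], [(2, 0, [3, 4, 5])]⟩,
    ⟨[(0, 1), (1, 2)], [(0, 0), (0, 3), (0, 4), (1, 0), (1, 3), (1, 4)], [(3, 4)], [1],
      [(6, 4, [0]), (7, 3, [0])]⟩,
    ⟨[(0, 1), (0, 3), (1, 2), (1, 3), (2, 3)], [(1, 0), (1, 3), (1, 5), (2, 0), (2, 3), (2,
      5), (3, 3), (3, 4), (3, 5)], [(3, 5)], [2], [(7, 3, [0]), (8, 5, [0])]⟩]
  Ta := [((0, 1), 0, 1), ((0, 4), 0, 7), ((2, 3), 0, 6), ((2, 5), 0, 2)]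
  Tb := [((0, 1, 4), 0, 1, 7), ((1, 0, 6), 1, 0, 4), ((2, 3, 5), 0, 6, 2), ((3, 2, 4), 6, 0, 7),
    ((4, 0, 3), 7, 0, 6), ((5, 2, 8), 2, 0, 5), ((6, 1, 7), 4, 1, 3), ((7, 6, 8), 3, 4, 5),
    ((8, 5, 7), 5, 2, 3)]
  Tc := [(0, 3, 4), (0, 3, 5), (0, 4, 5)]
  Td := [((0, 3), (0, 1), 1), ((0, 3), (0, 4), 7), ((0, 3), (2, 3), 6), ((0, 3), (2, 5), 2), ((0,
    4), (0, 1), 1), ((0, 4), (0, 4), 7), ((0, 4), (2, 3), 6), ((0, 4), (2, 5), 2), ((0, 5),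
    (0, 1), 1), ((0, 5), (0, 4), 7), ((0, 5), (2, 3), 6), ((0, 5), (2, 5), 2), ((3, 0), (7,
    6), 4), ((3, 0), (7, 8), 5), ((4, 0), (6, 1), 1), ((4, 0), (6, 7), 3), ((5, 0), (8, 5),
    2), ((5, 0), (8, 7), 3)]
  G := [[0, 0x111e4111e8a111e846, 0, 0x155411dd8c189411dd8ac, 0x1b52b181b58e14845], [0, 0,
    0x612e18e14e8148c, 0x155411dd811dd4e18948c, 0x1b52b181b58e14845]]

noncomputable def n65 : Ent := ⟨e65, noF, [], [], []⟩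

def c65 : PLift (Cov.check n65.C.D v65 = true) := ⟨by decide +kernel⟩

def b65 : PLift (entF (fidx ts) 400 65 n65 = true) := ⟨by decide +kernel⟩

theorem g65 : GoodF (fidx ts) 400 65 := GoodF.ofV v65 n65 c65.down b65.down

/-- 48465:68 -/
noncomputable def e66 : SCfg where
  D := {
    a := 5
    L := 9
    kp := 7
    inn := [(0, 1), (0, 3), (1, 0), (1, 2), (1, 3), (1, 4), (2, 1), (2, 4), (3, 0), (3, 1), (4, 1), (4,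
      2)]
    mix := [(0, 0), (0, 1), (1, 0), (1, 2), (1, 3), (1, 4), (2, 2), (2, 5), (3, 1), (3, 2), (3, 6), (3,
      7), (4, 3), (4, 5), (4, 8)]
    cl := [1, 3, 0, 0, 2, 4, 5, 6, 7]
    chq := [(2, 3), (2, 5), (2, 6), (3, 2), (5, 2), (6, 2)]
    rng := [(0, 1), (0, 4), (1, 0), (1, 6), (2, 5), (2, 7), (3, 4), (3, 8), (4, 0), (4, 3), (5, 2), (5,
      8), (6, 1), (6, 7), (7, 2), (7, 6), (8, 3), (8, 5)]
    lev := [] }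
  links := [[1, 5, 6, 3], [5, 0, 3, 7, 2, 4, 8, 9], [4, 1, 7, 10], [7, 1, 0, 6, 11, 12], [8, 1, 2, 10,
    13]]
  P := {
    a := 5
    N := 14
    nb := [106, 957, 1170, 6339, 9478, 579, 2089, 5134, 8722, 290, 8340, 4168, 2184, 1296]
    tri := [(0, 1, 3), (0, 1, 5), (0, 3, 6), (0, 5, 6), (1, 2, 4), (1, 2, 7), (1, 3, 7), (1, 4, 8), (1,
      5, 9), (1, 8, 9), (2, 4, 10), (2, 7, 10), (3, 6, 11), (3, 7, 12), (3, 11, 12), (4, 8, 13),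
      (4, 10, 13)]
    fin := [0, 1, 2, 1, 2, 0, 6, 2, 2, 1, 10, 11, 12, 13]
    chd := [(1, 11), (1, 12), (6, 1)]
    steps := [(0, 5), (1, 3), (1, 9), (2, 4), (2, 7), (2, 8)] }
  rep := [2, 0, 1, 6, 10, 11, 12, 13]

noncomputable def v66 : Cov.CovD where
  P := 3
  N := 5
  pl := [0, 5, 8]
  lev := [⟨[], [], [], [1], [(1, 3, [2])]⟩,
    ⟨[], [(0, 0), (0, 2), (0, 3)], [(0, 0), (0, 2)], [1], [(2, 0, []), (3, 0, []), (4, 2,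
      [3, 5, 6])]⟩,
    ⟨[(0, 1)], [(1, 0), (1, 2)], [], [4], [(2, 0, [])]⟩,
    ⟨[(0, 1), (1, 2)], [(0, 0), (0, 3), (0, 5), (0, 6), (1, 0), (1, 2), (1, 3), (1, 5), (1,
      6), (2, 0)], [(0, 3), (0, 5), (0, 6), (3, 5), (3, 6), (5, 6)], [], [(1, 3, [2]), (2, 0,
      []), (6, 5, [2]), (7, 6, [2])]⟩,
    ⟨[(0, 1), (1, 2), (1, 3)], [(1, 0), (1, 2), (2, 0)], [], [4, 7], [(3, 0, [])]⟩]
  Ta := [((2, 5), 0, 4), ((2, 7), 0, 6), ((3, 4), 0, 2), ((3, 8), 0, 7)]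
  Tb := [((0, 1, 4), 1, 3, 2), ((1, 0, 6), 3, 1, 5), ((2, 5, 7), 0, 4, 6), ((3, 4, 8), 0, 2, 7),
    ((4, 0, 3), 2, 1, 0), ((5, 2, 8), 4, 0, 7), ((6, 1, 7), 5, 3, 6), ((7, 2, 6), 6, 0, 5),
    ((8, 3, 5), 7, 0, 4)]
  Tc := [(2, 3, 5), (2, 3, 6), (2, 5, 6)]
  Td := [((2, 3), (4, 0), 1), ((2, 3), (4, 3), 0), ((2, 5), (4, 0), 1), ((2, 5), (4, 3), 0), ((2,
    6), (4, 0), 1), ((2, 6), (4, 3), 0), ((3, 2), (1, 0), 1), ((3, 2), (1, 6), 5), ((5, 2),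
    (6, 1), 3), ((5, 2), (6, 7), 6), ((6, 2), (7, 2), 0), ((6, 2), (7, 6), 5)]
  G := [[0, 0x1262a412b2a4c, 0, 0x12726812a268c, 0x54346814a4689], [0, 0xe214624a28cc,
    0xc161a4614a18cc, 0x826294c2a268c, 0x88846eee18e418d]]

noncomputable def n66 : Ent := ⟨e66, noF, [], [], []⟩

def c66 : PLift (Cov.check n66.C.D v66 = true) := ⟨by decide +kernel⟩

def b66 : PLift (entF (fidx ts) 400 66 n66 = true) := ⟨by decide +kernel⟩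

theorem g66 : GoodF (fidx ts) 400 66 := GoodF.ofV v66 n66 c66.down b66.down

/-- 46864:69/1 -/
noncomputable def e67 : SCfg where
  D := {
    a := 5
    L := 9
    kp := 8
    inn := [(0, 1), (0, 2), (0, 3), (1, 0), (1, 3), (1, 4), (2, 0), (2, 3), (3, 0), (3, 1), (3, 2), (4,
      1)]
    mix := [(0, 0), (1, 0), (1, 1), (1, 2), (2, 0), (2, 3), (2, 4), (2, 5), (2, 6), (2, 7), (3, 1), (3,
      7), (3, 8), (4, 0), (4, 2), (4, 3)]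
    cl := [0, 1, 2, 3, 5, 6, 7, 4, 8]
    chq := [(0, 1), (0, 2), (1, 0), (1, 3), (1, 4), (1, 5), (1, 6), (1, 7), (2, 0), (3, 1), (4, 1), (5,
      1), (6, 1), (7, 1)]
    rng := [(0, 3), (1, 2), (1, 8), (2, 1), (2, 3), (3, 0), (3, 2), (3, 4), (4, 3), (4, 5), (5, 4), (5,
      6), (6, 5), (6, 7), (7, 6), (7, 8), (8, 1), (8, 7)]
    lev := [] }
  links := [[1, 5, 2, 3], [5, 0, 3, 6, 7, 4], [3, 0, 5, 8, 9, 10, 11, 12], [6, 1, 0, 2, 12, 13], [5, 1,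
    7, 8]]
  P := {
    a := 5
    N := 14
    nb := [46, 249, 7977, 12359, 418, 279, 8330, 338, 692, 1284, 2564, 5124, 10252, 4168]
    tri := [(0, 1, 3), (0, 1, 5), (0, 2, 3), (0, 2, 5), (1, 3, 6), (1, 4, 5), (1, 4, 7), (1, 6, 7), (2,
      3, 12), (2, 5, 8), (2, 8, 9), (2, 9, 10), (2, 10, 11), (2, 11, 12), (3, 6, 13), (3, 12, 13),
      (4, 5, 8), (4, 7, 8)]
    fin := [0, 0, 2, 2, 0, 0, 2, 7, 8, 9, 10, 11, 12, 13]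
    chd := [(0, 2), (0, 7), (2, 8), (2, 9), (2, 10), (2, 11), (2, 12)]
    steps := [(0, 1), (0, 4), (0, 5), (2, 3), (2, 6)] }
  rep := [0, 2, 7, 8, 12, 9, 10, 11, 13]

noncomputable def v67 : Cov.CovD where
  P := 3
  N := 6
  pl := [8]
  lev := [⟨[], [], [], [], [(0, 0, [1, 2])]⟩,
    ⟨[], [(0, 0), (0, 1), (0, 2)], [(0, 1), (0, 2), (1, 2)], [], [(0, 0, [1, 2]), (1, 1,
      [0, 3, 4, 5, 6, 7]), (2, 2, [0])]⟩,
    ⟨[(0, 1)], [(0, 0), (0, 3), (0, 4), (0, 5), (0, 6), (0, 7), (1, 0)], [(0, 3), (0, 4),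
      (0, 5), (0, 6), (0, 7), (3, 4), (3, 5), (3, 6), (3, 7), (4, 5), (4, 6), (4, 7), (5, 6),
      (5, 7), (6, 7)], [], [(0, 0, [1, 2]), (3, 3, [1]), (4, 5, [1]), (5, 6, [1]), (6, 7,
      [1]), (7, 4, [1])]⟩,
    ⟨[(0, 1), (0, 2), (1, 2)], [(0, 0), (0, 1), (0, 4), (1, 0), (1, 1), (1, 2), (1, 4), (2,
      0), (2, 1), (2, 3), (2, 4), (2, 5), (2, 6), (2, 7)], [(1, 4)], [8], [(1, 1, [0, 3, 4,
      5, 6, 7]), (7, 4, [1])]⟩,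
    ⟨[(0, 1), (1, 3)], [(0, 0), (1, 0), (1, 1), (1, 2), (1, 3), (2, 0), (2, 3)], [(0, 2),
      (0, 3), (2, 3)], [], [(0, 0, [1, 2]), (2, 2, [0]), (3, 3, [1])]⟩]
  Ta := []
  Tb := [((1, 2, 8), 1, 2, 8), ((2, 1, 3), 2, 1, 3), ((3, 0, 2), 3, 0, 2), ((3, 0, 4), 3, 0, 5),
    ((3, 2, 4), 3, 2, 5), ((4, 3, 5), 5, 3, 6), ((5, 4, 6), 6, 5, 7), ((6, 5, 7), 7, 6, 4),
    ((7, 6, 8), 4, 7, 8), ((8, 1, 7), 8, 1, 4)]
  Tc := [(0, 1, 2), (1, 0, 3), (1, 0, 4), (1, 0, 5), (1, 0, 6), (1, 0, 7), (1, 3, 4), (1, 3, 5),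
    (1, 3, 6), (1, 3, 7), (1, 4, 5), (1, 4, 6), (1, 4, 7), (1, 5, 6), (1, 5, 7), (1, 6, 7)]
  Td := [((0, 1), (0, 3), 3), ((0, 2), (0, 3), 3), ((1, 0), (1, 2), 2), ((1, 0), (1, 8), 8), ((1,
    3), (1, 2), 2), ((1, 3), (1, 8), 8), ((1, 4), (1, 2), 2), ((1, 4), (1, 8), 8), ((1, 5),
    (1, 2), 2), ((1, 5), (1, 8), 8), ((1, 6), (1, 2), 2), ((1, 6), (1, 8), 8), ((1, 7), (1,
    2), 2), ((1, 7), (1, 8), 8), ((2, 0), (2, 1), 1), ((2, 0), (2, 3), 3), ((3, 1), (3, 0),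
    0), ((3, 1), (3, 2), 2), ((3, 1), (3, 4), 5), ((4, 1), (7, 6), 7), ((4, 1), (7, 8), 8),
    ((5, 1), (4, 3), 3), ((5, 1), (4, 5), 6), ((6, 1), (5, 4), 5), ((6, 1), (5, 6), 7), ((7,
    1), (6, 5), 6), ((7, 1), (6, 7), 4)]
  G := [[0, 0xc41cca1c2, 0x6aad284, 0x442c8cd2c2, 0x2aad2882a4]]

noncomputable def n67 : Ent := ⟨e67, noF, [], [], []⟩

def c67 : PLift (Cov.check n67.C.D v67 = true) := ⟨by decide +kernel⟩

def b67 : PLift (entF (fidx ts) 400 67 n67 = true) := ⟨by decide +kernel⟩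

theorem g67 : GoodF (fidx ts) 400 67 := GoodF.ofV v67 n67 c67.down b67.down

/-- 46864:69 -/
noncomputable def e68 : SCfg where
  D := {
    a := 5
    L := 10
    kp := 9
    inn := [(0, 1), (0, 2), (0, 3), (1, 0), (1, 3), (1, 4), (2, 0), (2, 3), (3, 0), (3, 1), (3, 2), (4,
      1)]
    mix := [(0, 0), (1, 0), (1, 1), (1, 2), (2, 0), (2, 3), (2, 4), (2, 5), (2, 6), (2, 7), (3, 1), (3,
      7), (3, 8), (4, 0), (4, 2), (4, 9)]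
    cl := [0, 1, 2, 4, 5, 6, 7, 3, 9, 8]
    chq := [(0, 1), (1, 0), (1, 3), (1, 4), (1, 5), (1, 6), (1, 7), (1, 8), (3, 1), (4, 1), (5, 1), (6,
      1), (7, 1), (8, 1)]
    rng := [(0, 3), (0, 9), (1, 2), (1, 8), (2, 1), (2, 9), (3, 0), (3, 4), (4, 3), (4, 5), (5, 4), (5,
      6), (6, 5), (6, 7), (7, 6), (7, 8), (8, 1), (8, 7), (9, 0), (9, 2)]
    lev := [] }
  links := [[1, 5, 2, 3], [5, 0, 3, 6, 7, 4], [3, 0, 5, 8, 9, 10, 11, 12], [6, 1, 0, 2, 12, 13], [5, 1,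
    7, 14]]
  P := {
    a := 5
    N := 15
    nb := [46, 249, 7977, 12359, 16546, 16663, 8330, 16466, 548, 1284, 2564, 5124, 10252, 4168, 176]
    tri := [(0, 1, 3), (0, 1, 5), (0, 2, 3), (0, 2, 5), (1, 3, 6), (1, 4, 5), (1, 4, 7), (1, 6, 7), (2,
      3, 12), (2, 5, 8), (2, 8, 9), (2, 9, 10), (2, 10, 11), (2, 11, 12), (3, 6, 13), (3, 12, 13),
      (4, 5, 14), (4, 7, 14)]
    fin := [0, 0, 0, 3, 0, 5, 0, 7, 8, 9, 10, 11, 3, 13, 14]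
    chd := [(0, 3), (0, 8), (0, 9), (0, 10), (0, 11), (0, 14), (5, 0)]
    steps := [(0, 1), (0, 2), (0, 4), (0, 6), (3, 12)] }
  rep := [5, 0, 7, 3, 8, 9, 10, 11, 14, 13]

noncomputable def v68 : Cov.CovD where
  P := 3
  N := 7
  pl := [2, 8]
  lev := [⟨[], [], [], [], [(0, 0, [1])]⟩,
    ⟨[], [(0, 0), (0, 1)], [(0, 1)], [2], [(0, 0, [1]), (1, 1, [0, 3, 4, 5, 6, 7, 8])]⟩,
    ⟨[(0, 1)], [(0, 0), (0, 3), (0, 4), (0, 5), (0, 6), (0, 7), (1, 0)], [(0, 3), (0, 4),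
      (0, 5), (0, 6), (0, 7), (3, 4), (3, 5), (3, 6), (3, 7), (4, 5), (4, 6), (4, 7), (5, 6),
      (5, 7), (6, 7)], [], [(0, 0, [1]), (3, 4, [1]), (4, 5, [1]), (5, 6, [1]), (6, 7, [1]),
      (7, 3, [1])]⟩,
    ⟨[(0, 1), (0, 2), (1, 2)], [(0, 0), (0, 1), (0, 3), (1, 0), (1, 1), (1, 3), (2, 0), (2,
      1), (2, 3), (2, 4), (2, 5), (2, 6), (2, 7)], [(1, 3)], [9], [(1, 1, [0, 3, 4, 5, 6, 7,
      8]), (7, 3, [1])]⟩,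
    ⟨[(0, 1), (1, 3)], [(0, 0), (1, 0), (1, 1), (1, 8), (2, 0)], [(0, 8)], [2], [(0, 0,
      [1]), (9, 8, [1])]⟩]
  Ta := []
  Tb := [((0, 3, 9), 0, 4, 8), ((1, 2, 8), 1, 2, 9), ((2, 1, 9), 2, 1, 8), ((3, 0, 4), 4, 0, 5),
    ((4, 3, 5), 5, 4, 6), ((5, 4, 6), 6, 5, 7), ((6, 5, 7), 7, 6, 3), ((7, 6, 8), 3, 7, 9),
    ((8, 1, 7), 9, 1, 3), ((9, 0, 2), 8, 0, 2)]
  Tc := [(1, 0, 3), (1, 0, 4), (1, 0, 5), (1, 0, 6), (1, 0, 7), (1, 0, 8), (1, 3, 4), (1, 3, 5),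
    (1, 3, 6), (1, 3, 7), (1, 3, 8), (1, 4, 5), (1, 4, 6), (1, 4, 7), (1, 4, 8), (1, 5, 6),
    (1, 5, 7), (1, 5, 8), (1, 6, 7), (1, 6, 8), (1, 7, 8)]
  Td := [((0, 1), (0, 3), 4), ((0, 1), (0, 9), 8), ((1, 0), (1, 2), 2), ((1, 0), (1, 8), 9), ((1,
    3), (1, 2), 2), ((1, 3), (1, 8), 9), ((1, 4), (1, 2), 2), ((1, 4), (1, 8), 9), ((1, 5),
    (1, 2), 2), ((1, 5), (1, 8), 9), ((1, 6), (1, 2), 2), ((1, 6), (1, 8), 9), ((1, 7), (1,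
    2), 2), ((1, 7), (1, 8), 9), ((1, 8), (1, 2), 2), ((1, 8), (1, 8), 9), ((3, 1), (7, 6),
    7), ((3, 1), (7, 8), 9), ((4, 1), (3, 0), 0), ((4, 1), (3, 4), 5), ((5, 1), (4, 3), 4),
    ((5, 1), (4, 5), 6), ((6, 1), (5, 4), 5), ((6, 1), (5, 6), 7), ((7, 1), (6, 5), 6), ((7,
    1), (6, 7), 3), ((8, 1), (9, 0), 0), ((8, 1), (9, 2), 2)]
  G := [[0, 0x4cce1881c4, 0x222d284, 0x4ccd2882c4, 0x222d284]]

noncomputable def n68 : Ent := ⟨e68, noF, [], [], [(8, 14, [81620716623019490593592230936445690773474979418095883661313, 0])]⟩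

def c68 : PLift (Cov.check n68.C.D v68 = true) := ⟨by decide +kernel⟩

def b68 : PLift (entF (fidx ts) 400 68 n68 = true) := ⟨by decide +kernel⟩

theorem g68 : GoodF (fidx ts) 400 68 := GoodF.ofV v68 n68 c68.down b68.down

/-- 48456:70 -/
noncomputable def e69 : SCfg where
  D := {
    a := 5
    L := 9
    kp := 7
    inn := [(0, 1), (1, 0), (1, 2), (1, 3), (1, 4), (2, 1), (2, 3), (3, 1), (3, 2), (3, 4), (4, 1), (4,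
      3)]
    mix := [(0, 0), (0, 1), (0, 2), (1, 0), (1, 2), (1, 3), (1, 4), (2, 3), (2, 5), (3, 5), (3, 6), (4,
      4), (4, 6), (4, 7), (4, 8)]
    cl := [2, 7, 0, 1, 0, 4, 3, 5, 6]
    chq := [(1, 3), (1, 5), (1, 6), (3, 1), (5, 1), (6, 1)]
    rng := [(0, 1), (0, 4), (1, 0), (1, 2), (2, 1), (2, 3), (3, 2), (3, 5), (4, 0), (4, 8), (5, 3), (5,
      6), (6, 5), (6, 7), (7, 6), (7, 8), (8, 4), (8, 7)]
    lev := [] }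
  links := [[1, 5, 6, 7], [5, 0, 7, 8, 2, 3, 4, 9], [3, 1, 8, 10], [4, 1, 2, 10, 11], [9, 1, 3, 11, 12,
    13]]
  P := {
    a := 5
    N := 14
    nb := [226, 957, 1290, 3094, 14858, 579, 161, 323, 1158, 8242, 2316, 5144, 10256, 4624]
    tri := [(0, 1, 5), (0, 1, 7), (0, 5, 6), (0, 6, 7), (1, 2, 3), (1, 2, 8), (1, 3, 4), (1, 4, 9), (1,
      5, 9), (1, 7, 8), (2, 3, 10), (2, 8, 10), (3, 4, 11), (3, 10, 11), (4, 9, 13), (4, 11, 12),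
      (4, 12, 13)]
    fin := [0, 1, 2, 2, 2, 0, 6, 1, 2, 1, 10, 11, 12, 13]
    chd := [(2, 11), (2, 12), (2, 13)]
    steps := [(0, 5), (1, 7), (1, 9), (2, 3), (2, 4), (2, 8)] }
  rep := [1, 2, 0, 11, 10, 12, 13, 6]

noncomputable def v69 : Cov.CovD where
  P := 3
  N := 5
  pl := [0, 1, 5]
  lev := [⟨[], [], [], [2, 7], [(2, 0, [])]⟩,
    ⟨[], [(0, 0), (0, 1)], [(0, 0), (0, 1)], [2], [(2, 0, []), (3, 1, [3, 5, 6]), (4, 0,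
      [])]⟩,
    ⟨[(0, 1)], [(1, 0), (1, 1)], [], [4], [(3, 1, [3, 5, 6])]⟩,
    ⟨[(0, 1), (1, 2)], [(1, 0), (1, 1), (1, 3), (2, 1), (2, 3)], [], [4], [(6, 3, [1])]⟩,
    ⟨[(0, 1), (1, 2), (1, 3), (2, 3)], [(1, 0), (1, 1), (1, 3), (1, 5), (1, 6), (3, 0), (3,
      3), (3, 5), (3, 6)], [(0, 3), (0, 5), (0, 6), (3, 5), (3, 6), (5, 6)], [], [(4, 0, []),
      (6, 3, [1]), (7, 5, [1]), (8, 6, [1])]⟩]
  Ta := [((2, 1), 0, 7), ((2, 3), 0, 1), ((4, 0), 0, 2), ((4, 8), 0, 6)]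
  Tb := [((0, 1, 4), 2, 7, 0), ((1, 0, 2), 7, 2, 0), ((2, 1, 3), 0, 7, 1), ((3, 2, 5), 1, 0, 4),
    ((4, 0, 8), 0, 2, 6), ((5, 3, 6), 4, 1, 3), ((6, 5, 7), 3, 4, 5), ((7, 6, 8), 5, 3, 6),
    ((8, 4, 7), 6, 0, 5)]
  Tc := [(1, 3, 5), (1, 3, 6), (1, 5, 6)]
  Td := [((1, 3), (3, 2), 0), ((1, 3), (3, 5), 4), ((1, 5), (3, 2), 0), ((1, 5), (3, 5), 4), ((1,
    6), (3, 2), 0), ((1, 6), (3, 5), 4), ((3, 1), (6, 5), 4), ((3, 1), (6, 7), 5), ((5, 1),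
    (7, 6), 3), ((5, 1), (7, 8), 6), ((6, 1), (8, 4), 0), ((6, 1), (8, 7), 5)]
  G := [[0, 0x11c116a41441812acc, 0, 0x22c2259422c22958c, 0x236623588885a22c22958a], [0, 0,
    0x22c2259422c22594a, 0x22c229581, 0x22c229581]]

noncomputable def n69 : Ent := ⟨e69, noF, [], [], []⟩

def c69 : PLift (Cov.check n69.C.D v69 = true) := ⟨by decide +kernel⟩

def b69 : PLift (entF (fidx ts) 400 69 n69 = true) := ⟨by decide +kernel⟩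

theorem g69 : GoodF (fidx ts) 400 69 := GoodF.ofV v69 n69 c69.down b69.down

/-- 48455:71/1 -/
noncomputable def e70 : SCfg where
  D := {
    a := 5
    L := 8
    kp := 5
    inn := [(0, 1), (1, 0), (1, 2), (1, 3), (1, 4), (2, 1), (2, 3), (3, 1), (3, 2), (4, 1)]
    mix := [(0, 0), (0, 1), (0, 2), (1, 0), (1, 2), (1, 3), (1, 4), (2, 3), (2, 5), (3, 4), (3, 5), (3,
      6), (4, 0), (4, 4), (4, 6), (4, 7)]
    cl := [0, 4, 1, 0, 0, 2, 3, 5]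
    chq := []
    rng := [(0, 1), (0, 7), (1, 0), (1, 2), (2, 1), (2, 3), (3, 2), (3, 5), (4, 6), (5, 3), (5, 6), (6,
      4), (6, 5), (6, 7), (7, 0), (7, 6)]
    lev := [] }
  links := [[1, 5, 6, 7], [5, 0, 7, 8, 2, 3, 9, 4], [3, 1, 8, 10], [9, 1, 2, 10, 11], [5, 1, 9, 11, 12]]
  P := {
    a := 5
    N := 13
    nb := [226, 957, 1290, 3590, 6690, 4179, 161, 323, 1158, 2074, 2316, 5656, 2096]
    tri := [(0, 1, 5), (0, 1, 7), (0, 5, 6), (0, 6, 7), (1, 2, 3), (1, 2, 8), (1, 3, 9), (1, 4, 5), (1,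
      4, 9), (1, 7, 8), (2, 3, 10), (2, 8, 10), (3, 9, 11), (3, 10, 11), (4, 5, 12), (4, 9, 11),
      (4, 11, 12)]
    fin := [0, 0, 0, 0, 0, 0, 6, 7, 0, 0, 10, 11, 12]
    chd := []
    steps := [(0, 1), (0, 2), (0, 3), (0, 5), (0, 8), (0, 9), (0, 4)] }
  rep := [0, 7, 10, 11, 6, 12]

noncomputable def v70 : Cov.CovD where
  P := 3
  N := 3
  pl := [1, 2, 5, 6, 7]
  lev := [⟨[], [], [], [1, 4], [(0, 0, [])]⟩,
    ⟨[], [(0, 0)], [(0, 0)], [1], [(0, 0, []), (3, 0, []), (4, 0, [])]⟩,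
    ⟨[(0, 1)], [(1, 0)], [], [2], [(3, 0, [])]⟩,
    ⟨[(0, 1), (1, 2)], [(1, 0), (2, 0)], [], [2, 3], [(4, 0, [])]⟩,
    ⟨[(0, 1), (1, 2), (1, 3)], [(0, 0), (1, 0), (3, 0)], [(0, 0)], [3, 5], [(0, 0, []), (4,
      0, [])]⟩]
  Ta := [((0, 1), 0, 4), ((0, 7), 0, 5), ((3, 2), 0, 1), ((3, 5), 0, 2), ((4, 6), 0, 3)]
  Tb := [((0, 1, 7), 0, 4, 5), ((1, 0, 2), 4, 0, 1), ((2, 1, 3), 1, 4, 0), ((3, 2, 5), 0, 1, 2),
    ((5, 3, 6), 2, 0, 3), ((6, 4, 5), 3, 0, 2), ((6, 4, 7), 3, 0, 5), ((6, 5, 7), 3, 2, 5),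
    ((7, 0, 6), 5, 0, 3)]
  Tc := []
  Td := []
  G := [[0, 0, 0, 0xe1846181c8c, 0xe124e128c], [0, 0xe148e1486, 0xca6481, 0xe1841, 0xe1841], [0,
    0, 0, 0x641a84c1, 0xc6a841]]

noncomputable def n70 : Ent := ⟨e70, noF, [], [], []⟩

def c70 : PLift (Cov.check n70.C.D v70 = true) := ⟨by decide +kernel⟩

def b70 : PLift (entF (fidx ts) 400 70 n70 = true) := ⟨by decide +kernel⟩

theorem g70 : GoodF (fidx ts) 400 70 := GoodF.ofV v70 n70 c70.down b70.down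

/-- 48455:71 -/
noncomputable def e71 : SCfg where
  D := {
    a := 5
    L := 9
    kp := 6
    inn := [(0, 1), (1, 0), (1, 2), (1, 3), (1, 4), (2, 1), (2, 3), (3, 1), (3, 2), (4, 1)]
    mix := [(0, 0), (0, 1), (0, 2), (1, 0), (1, 2), (1, 3), (1, 4), (2, 3), (2, 5), (3, 4), (3, 5), (3,
      6), (4, 0), (4, 4), (4, 7), (4, 8)]
    cl := [0, 3, 1, 0, 0, 2, 4, 5, 6]
    chq := []
    rng := [(0, 1), (0, 8), (1, 0), (1, 2), (2, 1), (2, 3), (3, 2), (3, 5), (4, 6), (4, 7), (5, 3), (5,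
      6), (6, 4), (6, 5), (7, 4), (7, 8), (8, 0), (8, 7)]
    lev := [] }
  links := [[1, 5, 6, 7], [5, 0, 7, 8, 2, 3, 9, 4], [3, 1, 8, 10], [9, 1, 2, 10, 11], [5, 1, 9, 12, 13]]
  P := {
    a := 5
    N := 14
    nb := [226, 957, 1290, 3590, 12834, 8275, 161, 323, 1158, 6170, 2316, 1544, 8720, 4144]
    tri := [(0, 1, 5), (0, 1, 7), (0, 5, 6), (0, 6, 7), (1, 2, 3), (1, 2, 8), (1, 3, 9), (1, 4, 5), (1,
      4, 9), (1, 7, 8), (2, 3, 10), (2, 8, 10), (3, 9, 11), (3, 10, 11), (4, 5, 13), (4, 9, 12),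
      (4, 12, 13)]
    fin := [0, 0, 0, 0, 0, 0, 6, 7, 0, 0, 10, 11, 12, 13]
    chd := []
    steps := [(0, 1), (0, 2), (0, 3), (0, 4), (0, 5), (0, 8), (0, 9)] }
  rep := [0, 7, 10, 6, 11, 12, 13]

noncomputable def v71 : Cov.CovD where
  P := 3
  N := 4
  pl := [1, 2, 5, 6, 7, 8]
  lev := [⟨[], [], [], [1, 3], [(0, 0, [])]⟩,
    ⟨[], [(0, 0)], [(0, 0)], [1], [(0, 0, []), (3, 0, []), (4, 0, [])]⟩,
    ⟨[(0, 1)], [(1, 0)], [], [2], [(3, 0, [])]⟩,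
    ⟨[(0, 1), (1, 2)], [(1, 0), (2, 0)], [], [2, 4], [(4, 0, [])]⟩,
    ⟨[(0, 1), (1, 2), (1, 3)], [(0, 0), (1, 0), (3, 0)], [(0, 0)], [5, 6], [(0, 0, []), (4,
      0, [])]⟩]
  Ta := [((0, 1), 0, 3), ((0, 8), 0, 6), ((3, 2), 0, 1), ((3, 5), 0, 2), ((4, 6), 0, 4), ((4, 7),
    0, 5)]
  Tb := [((0, 1, 8), 0, 3, 6), ((1, 0, 2), 3, 0, 1), ((2, 1, 3), 1, 3, 0), ((3, 2, 5), 0, 1, 2),
    ((4, 6, 7), 0, 4, 5), ((5, 3, 6), 2, 0, 4), ((6, 4, 5), 4, 0, 2), ((7, 4, 8), 5, 0, 6),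
    ((8, 0, 7), 6, 0, 5)]
  Tc := []
  Td := []
  G := [[0, 0, 0, 0xe1846181c8c, 0xe124e128c], [0, 0xe182e148c, 0xee6281, 0x6181c81, 0xe1841],
    [0, 0, 0, 0x6ec1881c1, 0xeea841]]

noncomputable def n71 : Ent := ⟨e71, noF, [], [], [(11, 12, [19926558533506552585326781773177673327977379185601830913, 0])]⟩

def c71 : PLift (Cov.check n71.C.D v71 = true) := ⟨by decide +kernel⟩

def b71 : PLift (entF (fidx ts) 400 71 n71 = true) := ⟨by decide +kernel⟩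

theorem g71 : GoodF (fidx ts) 400 71 := GoodF.ofV v71 n71 c71.down b71.down

/-- 48455:72 -/
noncomputable def e72 : SCfg where
  D := {
    a := 5
    L := 8
    kp := 6
    inn := [(0, 1), (0, 4), (1, 0), (1, 2), (1, 3), (1, 4), (2, 1), (2, 3), (3, 1), (3, 2), (4, 0), (4,
      1)]
    mix := [(0, 0), (0, 1), (1, 1), (1, 2), (1, 3), (1, 4), (2, 2), (2, 5), (3, 3), (3, 5), (3, 6), (4,
      0), (4, 4), (4, 7)]
    cl := [2, 0, 1, 0, 3, 4, 5, 6]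
    chq := [(0, 6), (1, 5), (5, 1), (6, 0)]
    rng := [(0, 1), (0, 7), (1, 0), (1, 2), (2, 1), (2, 5), (3, 4), (3, 6), (4, 3), (4, 7), (5, 2), (5,
      6), (6, 3), (6, 5), (7, 0), (7, 4)]
    lev := [] }
  links := [[1, 4, 5, 6], [4, 0, 6, 7, 2, 3, 8, 9], [3, 1, 7, 10], [8, 1, 2, 10, 11], [5, 0, 1, 9, 12]]
  P := {
    a := 5
    N := 13
    nb := [114, 989, 1162, 3334, 4643, 4177, 163, 1094, 2570, 4370, 2188, 1288, 560]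
    tri := [(0, 1, 4), (0, 1, 6), (0, 4, 5), (0, 5, 6), (1, 2, 3), (1, 2, 7), (1, 3, 8), (1, 4, 9), (1,
      6, 7), (1, 8, 9), (2, 3, 10), (2, 7, 10), (3, 8, 11), (3, 10, 11), (4, 5, 12), (4, 9, 12)]
    fin := [0, 1, 2, 2, 1, 0, 1, 2, 1, 9, 10, 11, 12]
    chd := [(1, 12), (2, 11)]
    steps := [(0, 5), (1, 4), (1, 6), (1, 8), (2, 3), (2, 7)] }
  rep := [1, 2, 0, 9, 10, 11, 12]

noncomputable def v72 : Cov.CovD where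
  P := 3
  N := 4
  pl := [0, 4, 5]
  lev := [⟨[], [], [], [2], [(1, 0, [6])]⟩,
    ⟨[], [(0, 0), (0, 1)], [(0, 0), (0, 1)], [3], [(1, 0, [6]), (2, 1, [5]), (3, 0, [6])]⟩,
    ⟨[(0, 1)], [(1, 0), (1, 1)], [], [4], [(2, 1, [5])]⟩,
    ⟨[(0, 1), (1, 2)], [(1, 0), (1, 1), (1, 5), (2, 0), (2, 1), (2, 5)], [(0, 5)], [4],
      [(3, 0, [6]), (6, 5, [1])]⟩,
    ⟨[(0, 1), (1, 2), (1, 3)], [(0, 0), (0, 6), (1, 0), (1, 1), (1, 6)], [], [2, 3], [(7,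
      6, [0])]⟩]
  Ta := [((1, 0), 0, 2), ((1, 2), 0, 1), ((3, 4), 0, 3), ((3, 6), 0, 5)]
  Tb := [((0, 1, 7), 2, 0, 6), ((1, 0, 2), 0, 2, 1), ((2, 1, 5), 1, 0, 4), ((3, 4, 6), 0, 3, 5),
    ((4, 3, 7), 3, 0, 6), ((5, 2, 6), 4, 1, 5), ((6, 3, 5), 5, 0, 4), ((7, 0, 4), 6, 2, 3)]
  Tc := []
  Td := [((0, 6), (1, 0), 2), ((0, 6), (1, 2), 1), ((0, 6), (3, 4), 3), ((0, 6), (3, 6), 5), ((1,
    5), (2, 1), 0), ((1, 5), (2, 5), 4), ((5, 1), (6, 3), 0), ((5, 1), (6, 5), 4), ((6, 0),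
    (7, 0), 2), ((6, 0), (7, 4), 3)]
  G := [[0, 0x114112118e4, 0xaa3a25663629c2, 0x1131251112cc8, 0x1211c1211cc2], [0, 0, 0,
    0x5412599cd29c5848c, 0xb1c92941ac3258a]]

noncomputable def n72 : Ent := ⟨e72, noF, [], [], []⟩

def c72 : PLift (Cov.check n72.C.D v72 = true) := ⟨by decide +kernel⟩

def b72 : PLift (entF (fidx ts) 400 72 n72 = true) := ⟨by decide +kernel⟩

theorem g72 : GoodF (fidx ts) 400 72 := GoodF.ofV v72 n72 c72.down b72.down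

/-- 48464:73 -/
noncomputable def e73 : SCfg where
  D := {
    a := 5
    L := 8
    kp := 6
    inn := [(0, 1), (1, 0), (1, 2), (1, 3), (1, 4), (2, 1), (2, 3), (3, 1), (3, 2), (3, 4), (4, 1), (4,
      3)]
    mix := [(0, 0), (0, 1), (0, 2), (1, 0), (1, 2), (1, 3), (1, 4), (2, 3), (2, 5), (3, 5), (3, 6), (3,
      7), (4, 4), (4, 7)]
    cl := [0, 6, 1, 0, 4, 2, 5, 3]
    chq := [(0, 3), (0, 5), (3, 0), (5, 0)]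
    rng := [(0, 1), (0, 4), (1, 0), (1, 2), (2, 1), (2, 3), (3, 2), (3, 5), (4, 0), (4, 7), (5, 3), (5,
      6), (6, 5), (6, 7), (7, 4), (7, 6)]
    lev := [] }
  links := [[1, 5, 6, 7], [5, 0, 7, 8, 2, 3, 4, 9], [3, 1, 8, 10], [4, 1, 2, 10, 11, 12], [9, 1, 3, 12]]
  P := {
    a := 5
    N := 13
    nb := [226, 957, 1290, 7190, 4618, 579, 161, 323, 1158, 4146, 2316, 5128, 2584]
    tri := [(0, 1, 5), (0, 1, 7), (0, 5, 6), (0, 6, 7), (1, 2, 3), (1, 2, 8), (1, 3, 4), (1, 4, 9), (1,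
      5, 9), (1, 7, 8), (2, 3, 10), (2, 8, 10), (3, 4, 12), (3, 10, 11), (3, 11, 12), (4, 9, 12)]
    fin := [0, 0, 0, 0, 0, 0, 6, 7, 0, 9, 10, 11, 12]
    chd := [(0, 11), (0, 12)]
    steps := [(0, 1), (0, 2), (0, 3), (0, 4), (0, 5), (0, 8)] }
  rep := [0, 7, 10, 12, 9, 11, 6]

noncomputable def v73 : Cov.CovD where
  P := 3
  N := 4
  pl := [1, 2, 4, 5]
  lev := [⟨[], [], [], [1, 6], [(0, 0, [3, 5])]⟩,
    ⟨[], [(0, 0)], [(0, 0)], [1, 4], [(0, 0, [3, 5]), (3, 0, [3, 5])]⟩,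
    ⟨[(0, 1)], [(1, 0)], [], [2], [(3, 0, [3, 5])]⟩,
    ⟨[(0, 1), (1, 2)], [(1, 0), (1, 3), (1, 5), (2, 0), (2, 3), (2, 5)], [(3, 5)], [2],
      [(6, 5, [0]), (7, 3, [0])]⟩,
    ⟨[(0, 1), (1, 2), (1, 3), (2, 3)], [(1, 0), (1, 3), (3, 3), (3, 5)], [], [4], [(7, 3,
      [0])]⟩]
  Ta := [((0, 1), 0, 6), ((0, 4), 0, 4), ((3, 2), 0, 1), ((3, 5), 0, 2)]
  Tb := [((0, 1, 4), 0, 6, 4), ((1, 0, 2), 6, 0, 1), ((2, 1, 3), 1, 6, 0), ((3, 2, 5), 0, 1, 2),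
    ((4, 0, 7), 4, 0, 3), ((5, 3, 6), 2, 0, 5), ((6, 5, 7), 5, 2, 3), ((7, 4, 6), 3, 4, 5)]
  Tc := [(0, 3, 5)]
  Td := [((0, 3), (0, 1), 6), ((0, 3), (0, 4), 4), ((0, 3), (3, 2), 1), ((0, 3), (3, 5), 2), ((0,
    5), (0, 1), 6), ((0, 5), (0, 4), 4), ((0, 5), (3, 2), 1), ((0, 5), (3, 5), 2), ((3, 0),
    (7, 4), 4), ((3, 0), (7, 6), 5), ((5, 0), (6, 5), 2), ((5, 0), (6, 7), 3)]
  G := [[0, 0, 0, 0x1354e18ce141398cc, 0x112612ce121392ca128d], [0, 0x114811841142e,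
    0x111e4111e8c1, 0xa14618c1, 0xa12618c1]]

noncomputable def n73 : Ent := ⟨e73, noF, [], [], []⟩

def c73 : PLift (Cov.check n73.C.D v73 = true) := ⟨by decide +kernel⟩

def b73 : PLift (entF (fidx ts) 400 73 n73 = true) := ⟨by decide +kernel⟩

theorem g73 : GoodF (fidx ts) 400 73 := GoodF.ofV v73 n73 c73.down b73.down

/-- 45774:74 -/
noncomputable def e74 : SCfg where
  D := {
    a := 5
    L := 9
    kp := 7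
    inn := [(0, 1), (0, 2), (1, 0), (1, 2), (1, 3), (2, 0), (2, 1), (2, 3), (3, 1), (3, 2), (3, 4), (4,
      3)]
    mix := [(0, 0), (0, 1), (1, 1), (1, 2), (2, 0), (2, 3), (2, 4), (2, 5), (3, 2), (3, 3), (3, 6), (3,
      7), (4, 6), (4, 7), (4, 8)]
    cl := [1, 2, 0, 3, 5, 6, 3, 4, 7]
    chq := [(0, 1), (0, 5), (0, 6), (1, 0), (5, 0), (6, 0)]
    rng := [(0, 1), (0, 5), (1, 0), (1, 2), (2, 1), (2, 6), (3, 4), (3, 7), (4, 3), (4, 5), (5, 0), (5,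
      4), (6, 2), (6, 8), (7, 3), (7, 8), (8, 6), (8, 7)]
    lev := [] }
  links := [[1, 2, 5, 6], [2, 0, 6, 7, 3], [5, 0, 1, 3, 8, 9, 10], [8, 2, 1, 7, 11, 4, 12], [12, 3, 11,
    13]]
  P := {
    a := 5
    N := 14
    nb := [102, 205, 1835, 6550, 14344, 1093, 163, 2122, 4620, 1284, 548, 8344, 8472, 6160]
    tri := [(0, 1, 2), (0, 1, 6), (0, 2, 5), (0, 5, 6), (1, 2, 3), (1, 3, 7), (1, 6, 7), (2, 3, 8), (2,
      5, 10), (2, 8, 9), (2, 9, 10), (3, 4, 11), (3, 4, 12), (3, 7, 11), (3, 8, 12), (4, 11, 13),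
      (4, 12, 13)]
    fin := [0, 1, 1, 3, 3, 0, 6, 1, 3, 9, 10, 3, 12, 13]
    chd := [(0, 1), (1, 9), (1, 10)]
    steps := [(0, 5), (1, 2), (1, 7), (3, 4), (3, 11), (3, 8)] }
  rep := [1, 0, 6, 3, 12, 9, 10, 13]

noncomputable def v74 : Cov.CovD where
  P := 3
  N := 5
  pl := [1, 7, 8]
  lev := [⟨[], [], [], [2], [(0, 1, [0])]⟩,
    ⟨[], [(0, 0), (0, 1)], [], [2], [(2, 0, [1, 5, 6])]⟩,
    ⟨[(0, 1)], [(0, 1), (0, 3), (0, 5), (0, 6), (1, 0), (1, 1), (1, 3), (1, 5), (1, 6)],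
      [(1, 3), (1, 5), (1, 6), (3, 5), (3, 6), (5, 6)], [], [(0, 1, [0]), (3, 3, []), (4, 5,
      [0]), (5, 6, [0])]⟩,
    ⟨[(0, 1), (0, 2), (1, 2)], [(1, 0), (1, 3), (2, 0), (2, 1), (2, 3), (2, 5), (2, 6)],
      [(0, 3), (3, 3)], [4], [(2, 0, [1, 5, 6]), (3, 3, []), (6, 3, [])]⟩,
    ⟨[(1, 3), (2, 3)], [(3, 0), (3, 3)], [], [4, 7], [(6, 3, [])]⟩]
  Ta := [((3, 4), 3, 5), ((3, 7), 3, 4), ((6, 2), 3, 0), ((6, 8), 3, 7)]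
  Tb := [((0, 1, 5), 1, 2, 6), ((1, 0, 2), 2, 1, 0), ((2, 1, 6), 0, 2, 3), ((3, 4, 7), 3, 5, 4),
    ((4, 3, 5), 5, 3, 6), ((5, 0, 4), 6, 1, 5), ((6, 2, 8), 3, 0, 7), ((7, 3, 8), 4, 3, 7),
    ((8, 6, 7), 7, 3, 4)]
  Tc := [(0, 1, 5), (0, 1, 6), (0, 5, 6)]
  Td := [((0, 1), (2, 1), 2), ((0, 1), (2, 6), 3), ((0, 5), (2, 1), 2), ((0, 5), (2, 6), 3), ((0,
    6), (2, 1), 2), ((0, 6), (2, 6), 3), ((1, 0), (0, 1), 2), ((1, 0), (0, 5), 6), ((5, 0),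
    (4, 3), 3), ((5, 0), (4, 5), 6), ((6, 0), (5, 0), 1), ((6, 0), (5, 4), 5)]
  G := [[0, 0x9a3e148, 0x6a3e184, 0x6a3e184, 0x65ce128], [0, 0x54193a1c4, 0x5361981c4,
    0x54193a1c4, 0x32195c1a8]]

noncomputable def n74 : Ent := ⟨e74, noF, [], [], []⟩

def c74 : PLift (Cov.check n74.C.D v74 = true) := ⟨by decide +kernel⟩

def b74 : PLift (entF (fidx ts) 400 74 n74 = true) := ⟨by decide +kernel⟩

theorem g74 : GoodF (fidx ts) 400 74 := GoodF.ofV v74 n74 c74.down b74.down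

/-- 45774:75 -/
noncomputable def e75 : SCfg where
  D := {
    a := 5
    L := 9
    kp := 7
    inn := [(0, 1), (0, 2), (1, 0), (1, 2), (1, 3), (2, 0), (2, 1), (2, 3), (3, 1), (3, 2), (3, 4), (4,
      3)]
    mix := [(0, 0), (0, 1), (1, 1), (1, 2), (2, 0), (2, 3), (2, 4), (2, 5), (3, 2), (3, 3), (3, 6), (3,
      7), (4, 3), (4, 7), (4, 8)]
    cl := [1, 2, 0, 3, 5, 6, 3, 4, 7]
    chq := [(0, 1), (0, 5), (0, 6), (1, 0), (5, 0), (6, 0)]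
    rng := [(0, 1), (0, 5), (1, 0), (1, 2), (2, 1), (2, 6), (3, 4), (3, 8), (4, 3), (4, 5), (5, 0), (5,
      4), (6, 2), (6, 7), (7, 6), (7, 8), (8, 3), (8, 7)]
    lev := [] }
  links := [[1, 2, 5, 6], [2, 0, 6, 7, 3], [5, 0, 1, 3, 8, 9, 10], [8, 2, 1, 7, 11, 12, 4], [8, 3, 12,
    13]]
  P := {
    a := 5
    N := 14
    nb := [102, 205, 1835, 6550, 12552, 1093, 163, 2122, 8732, 1284, 548, 4232, 10264, 4368]
    tri := [(0, 1, 2), (0, 1, 6), (0, 2, 5), (0, 5, 6), (1, 2, 3), (1, 3, 7), (1, 6, 7), (2, 3, 8), (2,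
      5, 10), (2, 8, 9), (2, 9, 10), (3, 4, 8), (3, 4, 12), (3, 7, 11), (3, 11, 12), (4, 8, 13),
      (4, 12, 13)]
    fin := [0, 1, 1, 3, 3, 0, 6, 1, 3, 9, 10, 3, 12, 13]
    chd := [(0, 1), (1, 9), (1, 10)]
    steps := [(0, 5), (1, 2), (1, 7), (3, 4), (3, 11), (3, 8)] }
  rep := [1, 0, 6, 3, 12, 9, 10, 13]

noncomputable def v75 : Cov.CovD where
  P := 3
  N := 5
  pl := [1, 7, 8]
  lev := [⟨[], [], [], [2], [(0, 1, [0])]⟩,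
    ⟨[], [(0, 0), (0, 1)], [], [2], [(2, 0, [1, 5, 6])]⟩,
    ⟨[(0, 1)], [(0, 1), (0, 3), (0, 5), (0, 6), (1, 0), (1, 1), (1, 3), (1, 5), (1, 6)],
      [(1, 3), (1, 5), (1, 6), (3, 5), (3, 6), (5, 6)], [], [(0, 1, [0]), (3, 3, []), (4, 5,
      [0]), (5, 6, [0])]⟩,
    ⟨[(0, 1), (0, 2), (1, 2)], [(1, 0), (1, 3), (2, 0), (2, 1), (2, 3), (2, 5), (2, 6)],
      [(0, 3), (3, 3)], [4], [(2, 0, [1, 5, 6]), (3, 3, []), (6, 3, [])]⟩,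
    ⟨[(1, 3), (2, 3)], [(2, 3), (3, 0), (3, 3)], [], [4, 7], [(3, 3, [])]⟩]
  Ta := [((3, 4), 3, 5), ((3, 8), 3, 7), ((6, 2), 3, 0), ((6, 7), 3, 4)]
  Tb := [((0, 1, 5), 1, 2, 6), ((1, 0, 2), 2, 1, 0), ((2, 1, 6), 0, 2, 3), ((3, 4, 8), 3, 5, 7),
    ((4, 3, 5), 5, 3, 6), ((5, 0, 4), 6, 1, 5), ((6, 2, 7), 3, 0, 4), ((7, 6, 8), 4, 3, 7),
    ((8, 3, 7), 7, 3, 4)]
  Tc := [(0, 1, 5), (0, 1, 6), (0, 5, 6)]
  Td := [((0, 1), (2, 1), 2), ((0, 1), (2, 6), 3), ((0, 5), (2, 1), 2), ((0, 5), (2, 6), 3), ((0,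
    6), (2, 1), 2), ((0, 6), (2, 6), 3), ((1, 0), (0, 1), 2), ((1, 0), (0, 5), 6), ((5, 0),
    (4, 3), 3), ((5, 0), (4, 5), 6), ((6, 0), (5, 0), 1), ((6, 0), (5, 4), 5)]
  G := [[0, 0x54193a1c4, 0x5361981c4, 0x5361981c8, 0x5361981a8], [0, 0x9ace148, 0x95ce124,
    0xec61b81c8, 0xbece128]]

noncomputable def n75 : Ent := ⟨e75, noF, [], [], []⟩

def c75 : PLift (Cov.check n75.C.D v75 = true) := ⟨by decide +kernel⟩

def b75 : PLift (entF (fidx ts) 400 75 n75 = true) := ⟨by decide +kernel⟩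

theorem g75 : GoodF (fidx ts) 400 75 := GoodF.ofV v75 n75 c75.down b75.down

/-- 47474:76 -/
noncomputable def e76 : SCfg where
  D := {
    a := 5
    L := 8
    kp := 6
    inn := [(0, 1), (1, 0), (1, 2), (1, 3), (1, 4), (2, 1), (2, 3), (3, 1), (3, 2), (3, 4), (4, 1), (4,
      3)]
    mix := [(0, 0), (0, 1), (0, 2), (1, 0), (1, 2), (1, 3), (2, 2), (2, 4), (3, 4), (3, 5), (3, 6), (3,
      7), (4, 3), (4, 7)]
    cl := [2, 4, 0, 1, 3, 5, 6, 3]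
    chq := [(0, 1), (1, 0), (1, 4), (4, 1)]
    rng := [(0, 1), (0, 3), (1, 0), (1, 2), (2, 1), (2, 4), (3, 0), (3, 7), (4, 2), (4, 5), (5, 4), (5,
      6), (6, 5), (6, 7), (7, 3), (7, 6)]
    lev := [] }
  links := [[1, 5, 6, 7], [5, 0, 7, 2, 3, 4, 8], [3, 1, 7, 9], [4, 1, 2, 9, 10, 11, 12], [8, 1, 3, 12]]
  P := {
    a := 5
    N := 13
    nb := [226, 445, 650, 7702, 4362, 323, 161, 583, 4146, 1164, 2568, 5128, 2328]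
    tri := [(0, 1, 5), (0, 1, 7), (0, 5, 6), (0, 6, 7), (1, 2, 3), (1, 2, 7), (1, 3, 4), (1, 4, 8), (1,
      5, 8), (2, 3, 9), (2, 7, 9), (3, 4, 12), (3, 9, 10), (3, 10, 11), (3, 11, 12), (4, 8, 12)]
    fin := [0, 1, 2, 3, 3, 5, 0, 2, 1, 3, 10, 11, 3]
    chd := [(0, 1), (2, 1)]
    steps := [(0, 6), (1, 8), (2, 7), (3, 4), (3, 9), (3, 12)] }
  rep := [2, 1, 5, 3, 0, 10, 11]

noncomputable def v76 : Cov.CovD where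
  P := 3
  N := 4
  pl := [0, 5, 6]
  lev := [⟨[], [], [(0, 4)], [2], [(1, 4, [1]), (2, 0, [1])]⟩,
    ⟨[], [(0, 0), (0, 1), (0, 4)], [(0, 1)], [2], [(2, 0, [1]), (3, 1, [0, 4])]⟩,
    ⟨[(0, 1)], [(0, 0), (1, 0), (1, 1), (1, 3)], [(0, 3)], [], [(2, 0, [1]), (4, 3, [])]⟩,
    ⟨[(0, 1), (1, 2)], [(1, 0), (1, 1), (1, 3), (2, 0), (2, 3)], [(3, 3)], [5, 6], [(4, 3,
      []), (7, 3, [])]⟩,
    ⟨[(0, 1), (1, 2), (1, 3), (2, 3)], [(1, 0), (1, 1), (1, 3), (3, 1), (3, 3)], [(1, 3)],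
      [], [(3, 1, [0, 4]), (7, 3, [])]⟩]
  Ta := [((4, 2), 3, 0), ((4, 5), 3, 5), ((7, 3), 3, 1), ((7, 6), 3, 6)]
  Tb := [((0, 1, 3), 2, 4, 1), ((1, 0, 2), 4, 2, 0), ((2, 1, 4), 0, 4, 3), ((3, 0, 7), 1, 2, 3),
    ((4, 2, 5), 3, 0, 5), ((5, 4, 6), 5, 3, 6), ((6, 5, 7), 6, 5, 3), ((7, 3, 6), 3, 1, 6)]
  Tc := [(1, 0, 4)]
  Td := [((0, 1), (2, 1), 4), ((0, 1), (2, 4), 3), ((1, 0), (3, 0), 2), ((1, 0), (3, 7), 3), ((1,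
    4), (3, 0), 2), ((1, 4), (3, 7), 3), ((4, 1), (1, 0), 2), ((4, 1), (1, 2), 0)]
  G := [[0, 0x124d412b681, 0x8118f242, 0x1881f244114f28c, 0x1441f282], [0, 0x811af241,
    0x1111f482, 0x8111f241111f48c, 0x1111f482]]

noncomputable def n76 : Ent := ⟨e76, noF, [], [], []⟩

def c76 : PLift (Cov.check n76.C.D v76 = true) := ⟨by decide +kernel⟩

def b76 : PLift (entF (fidx ts) 400 76 n76 = true) := ⟨by decide +kernel⟩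

theorem g76 : GoodF (fidx ts) 400 76 := GoodF.ofV v76 n76 c76.down b76.down

/-- 47475:77 -/
noncomputable def e77 : SCfg where
  D := {
    a := 5
    L := 9
    kp := 6
    inn := [(0, 1), (1, 0), (1, 2), (1, 3), (1, 4), (2, 1), (2, 3), (3, 1), (3, 2), (3, 4), (4, 1), (4,
      3)]
    mix := [(0, 0), (0, 1), (0, 2), (1, 0), (1, 2), (1, 3), (2, 2), (2, 4), (3, 4), (3, 5), (3, 6), (3,
      7), (4, 3), (4, 7), (4, 8)]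
    cl := [1, 2, 0, 0, 3, 4, 5, 3, 6]
    chq := []
    rng := [(0, 1), (0, 3), (1, 0), (1, 2), (2, 1), (2, 4), (3, 0), (3, 8), (4, 2), (4, 5), (5, 4), (5,
      6), (6, 5), (6, 7), (7, 6), (7, 8), (8, 3), (8, 7)]
    lev := [] }
  links := [[1, 5, 6, 7], [5, 0, 7, 2, 3, 4, 8], [3, 1, 7, 9], [4, 1, 2, 9, 10, 11, 12], [8, 1, 3, 12,
    13]]
  P := {
    a := 5
    N := 14
    nb := [226, 445, 650, 7702, 12554, 323, 161, 583, 8242, 1164, 2568, 5128, 10264, 4368]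
    tri := [(0, 1, 5), (0, 1, 7), (0, 5, 6), (0, 6, 7), (1, 2, 3), (1, 2, 7), (1, 3, 4), (1, 4, 8), (1,
      5, 8), (2, 3, 9), (2, 7, 9), (3, 4, 12), (3, 9, 10), (3, 10, 11), (3, 11, 12), (4, 8, 13),
      (4, 12, 13)]
    fin := [0, 1, 1, 3, 1, 0, 6, 1, 1, 3, 10, 11, 3, 13]
    chd := []
    steps := [(0, 5), (1, 2), (1, 4), (1, 7), (1, 8), (3, 9), (3, 12)] }
  rep := [1, 0, 6, 3, 10, 11, 13]

noncomputable def v77 : Cov.CovD where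
  P := 3
  N := 4
  pl := [0, 1, 5, 6, 8]
  lev := [⟨[], [], [], [1, 2], [(2, 0, [])]⟩,
    ⟨[], [(0, 0)], [(0, 0)], [1], [(2, 0, []), (3, 0, [])]⟩,
    ⟨[(0, 1)], [(0, 0), (1, 0), (1, 3)], [(0, 3)], [], [(2, 0, []), (4, 3, [])]⟩,
    ⟨[(0, 1), (1, 2)], [(1, 0), (1, 3), (2, 0), (2, 3)], [(3, 3)], [4, 5], [(4, 3, []), (7,
      3, [])]⟩,
    ⟨[(0, 1), (1, 2), (1, 3), (2, 3)], [(1, 0), (1, 3), (3, 0), (3, 3)], [(0, 3)], [6],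
      [(3, 0, []), (7, 3, [])]⟩]
  Ta := [((2, 1), 0, 2), ((2, 4), 0, 3), ((3, 0), 0, 1), ((3, 8), 0, 6), ((4, 2), 3, 0), ((4, 5),
    3, 4), ((7, 6), 3, 5), ((7, 8), 3, 6)]
  Tb := [((0, 1, 3), 1, 2, 0), ((1, 0, 2), 2, 1, 0), ((2, 1, 4), 0, 2, 3), ((3, 0, 8), 0, 1, 6),
    ((4, 2, 5), 3, 0, 4), ((5, 4, 6), 4, 3, 5), ((6, 5, 7), 5, 4, 3), ((7, 6, 8), 3, 5, 6),
    ((8, 3, 7), 6, 0, 3)]
  Tc := []
  Td := []
  G := [[0, 0, 0x112d1187a48, 0x325478cda3ac8, 0x7222f8887a48], [0, 0, 0x111ef284, 0x111ef248,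
    0x111ef248], [0, 0x4181ccced28, 0, 0x2181aaaeb48, 0x41221aaae5c8], [0, 0x224e1eece9a4, 0,
    0xe42ee3e8ac1, 0x6428ee7e8ac8]]

noncomputable def n77 : Ent := ⟨e77, noF, [], [], []⟩

def c77 : PLift (Cov.check n77.C.D v77 = true) := ⟨by decide +kernel⟩

def b77 : PLift (entF (fidx ts) 400 77 n77 = true) := ⟨by decide +kernel⟩

theorem g77 : GoodF (fidx ts) 400 77 := GoodF.ofV v77 n77 c77.down b77.down

/-- 47466:79 -/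
noncomputable def e78 : SCfg where
  D := {
    a := 5
    L := 9
    kp := 7
    inn := [(0, 1), (1, 0), (1, 2), (1, 3), (1, 4), (2, 1), (2, 3), (3, 1), (3, 2), (3, 4), (4, 1), (4,
      3)]
    mix := [(0, 0), (0, 1), (0, 2), (1, 0), (1, 2), (1, 3), (2, 2), (2, 4), (3, 4), (3, 5), (3, 6), (4,
      3), (4, 6), (4, 7), (4, 8)]
    cl := [2, 6, 0, 0, 1, 7, 3, 4, 5]
    chq := [(1, 3), (1, 4), (1, 5), (3, 1), (4, 1), (5, 1)]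
    rng := [(0, 1), (0, 3), (1, 0), (1, 2), (2, 1), (2, 4), (3, 0), (3, 8), (4, 2), (4, 5), (5, 4), (5,
      6), (6, 5), (6, 7), (7, 6), (7, 8), (8, 3), (8, 7)]
    lev := [] }
  links := [[1, 5, 6, 7], [5, 0, 7, 2, 3, 4, 8], [3, 1, 7, 9], [4, 1, 2, 9, 10, 11], [8, 1, 3, 11, 12,
    13]]
  P := {
    a := 5
    N := 14
    nb := [226, 445, 650, 3606, 14602, 323, 161, 583, 8242, 1164, 2568, 5144, 10256, 4368]
    tri := [(0, 1, 5), (0, 1, 7), (0, 5, 6), (0, 6, 7), (1, 2, 3), (1, 2, 7), (1, 3, 4), (1, 4, 8), (1,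
      5, 8), (2, 3, 9), (2, 7, 9), (3, 4, 11), (3, 9, 10), (3, 10, 11), (4, 8, 13), (4, 11, 12),
      (4, 12, 13)]
    fin := [0, 1, 1, 3, 3, 0, 6, 1, 1, 3, 10, 11, 12, 13]
    chd := [(3, 11), (3, 12), (3, 13)]
    steps := [(0, 5), (1, 2), (1, 7), (1, 8), (3, 4), (3, 9)] }
  rep := [1, 3, 0, 11, 12, 13, 6, 10]

noncomputable def v78 : Cov.CovD where
  P := 3
  N := 5
  pl := [0, 1, 5]
  lev := [⟨[], [], [], [2, 6], [(2, 0, [])]⟩,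
    ⟨[], [(0, 0)], [(0, 0)], [2], [(2, 0, []), (3, 0, [])]⟩,
    ⟨[(0, 1)], [(0, 0), (1, 0), (1, 1)], [(0, 1)], [], [(2, 0, []), (4, 1, [3, 4, 5])]⟩,
    ⟨[(0, 1), (1, 2)], [(1, 0), (1, 1), (1, 3), (2, 0), (2, 1), (2, 3)], [(1, 3)], [7],
      [(4, 1, [3, 4, 5]), (6, 3, [1])]⟩,
    ⟨[(0, 1), (1, 2), (1, 3), (2, 3)], [(1, 0), (1, 3), (1, 4), (1, 5), (3, 0), (3, 1), (3,
      3), (3, 4), (3, 5)], [(0, 3), (0, 4), (0, 5), (3, 4), (3, 5), (4, 5)], [], [(3, 0, []),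
      (6, 3, [1]), (7, 4, [1]), (8, 5, [1])]⟩]
  Ta := [((2, 1), 0, 6), ((2, 4), 0, 1), ((3, 0), 0, 2), ((3, 8), 0, 5)]
  Tb := [((0, 1, 3), 2, 6, 0), ((1, 0, 2), 6, 2, 0), ((2, 1, 4), 0, 6, 1), ((3, 0, 8), 0, 2, 5),
    ((4, 2, 5), 1, 0, 7), ((5, 4, 6), 7, 1, 3), ((6, 5, 7), 3, 7, 4), ((7, 6, 8), 4, 3, 5),
    ((8, 3, 7), 5, 0, 4)]
  Tc := [(1, 3, 4), (1, 3, 5), (1, 4, 5)]
  Td := [((1, 3), (4, 2), 0), ((1, 3), (4, 5), 7), ((1, 4), (4, 2), 0), ((1, 4), (4, 5), 7), ((1,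
    5), (4, 2), 0), ((1, 5), (4, 5), 7), ((3, 1), (6, 5), 7), ((3, 1), (6, 7), 4), ((4, 1),
    (7, 6), 3), ((4, 1), (7, 8), 5), ((5, 1), (8, 3), 0), ((5, 1), (8, 7), 4)]
  G := [[0, 0x11618c4111e28c, 0, 0x222d84222d48c, 0x2254f84a222d48a], [0, 0, 0x222d84222d48c,
    0x222d481, 0x222d481]]

noncomputable def n78 : Ent := ⟨e78, noF, [], [], []⟩

def c78 : PLift (Cov.check n78.C.D v78 = true) := ⟨by decide +kernel⟩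

def b78 : PLift (entF (fidx ts) 400 78 n78 = true) := ⟨by decide +kernel⟩

theorem g78 : GoodF (fidx ts) 400 78 := GoodF.ofV v78 n78 c78.down b78.down

/-- 47445:83/1 -/
noncomputable def e79 : SCfg where
  D := {
    a := 5
    L := 7
    kp := 5
    inn := [(0, 1), (0, 4), (1, 0), (1, 2), (1, 3), (2, 1), (3, 1), (4, 0)]
    mix := [(0, 0), (0, 1), (1, 0), (1, 1), (1, 2), (1, 3), (2, 1), (2, 2), (2, 4), (3, 2), (3, 3), (3,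
      5), (4, 0), (4, 1), (4, 4), (4, 6)]
    cl := [0, 0, 1, 2, 3, 4, 5]
    chq := [(0, 1), (0, 4), (1, 0), (4, 0)]
    rng := [(0, 3), (0, 6), (1, 4), (2, 4), (2, 5), (3, 0), (3, 5), (4, 1), (4, 2), (4, 6), (5, 2), (5,
      3), (6, 0), (6, 4)]
    lev := [] }
  links := [[1, 5, 4, 6], [5, 0, 6, 2, 7, 3, 8], [7, 1, 6, 9], [8, 1, 7, 10], [6, 0, 5, 11, 9]]
  P := {
    a := 5
    N := 12
    nb := [114, 493, 706, 1410, 2657, 2323, 535, 1550, 1066, 2260, 392, 560]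
    tri := [(0, 1, 5), (0, 1, 6), (0, 4, 5), (0, 4, 6), (1, 2, 6), (1, 2, 7), (1, 3, 7), (1, 3, 8), (1,
      5, 8), (2, 6, 9), (2, 7, 9), (3, 7, 10), (3, 8, 10), (4, 5, 11), (4, 6, 9), (4, 9, 11)]
    fin := [0, 0, 0, 0, 0, 0, 0, 7, 8, 9, 10, 11]
    chd := [(0, 7), (0, 10)]
    steps := [(0, 1), (0, 2), (0, 3), (0, 5), (0, 6), (0, 4)] }
  rep := [0, 7, 8, 9, 10, 11]

noncomputable def v79 : Cov.CovD where
  P := 3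
  N := 3
  pl := [3, 4, 6]
  lev := [⟨[], [], [(0, 0)], [], [(0, 0, [1, 4]), (1, 0, [1, 4])]⟩,
    ⟨[], [(0, 0), (0, 1)], [(0, 0), (0, 1)], [2], [(0, 0, [1, 4]), (1, 0, [1, 4]), (2, 1,
      [0])]⟩,
    ⟨[(0, 1)], [(0, 0), (1, 0), (1, 1)], [(0, 1)], [3], [(1, 0, [1, 4]), (2, 1, [0])]⟩,
    ⟨[(0, 1), (1, 2)], [(1, 0), (1, 1), (1, 4), (2, 1)], [(1, 4)], [2], [(2, 1, [0]), (5,
      4, [0])]⟩,
    ⟨[(0, 1)], [(0, 0), (1, 0), (2, 0)], [(0, 0)], [3, 5], [(0, 0, [1, 4]), (1, 0, [1,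
      4])]⟩]
  Ta := [((0, 3), 0, 2), ((0, 6), 0, 5), ((1, 4), 0, 3)]
  Tb := [((0, 3, 6), 0, 2, 5), ((2, 4, 5), 1, 3, 4), ((3, 0, 5), 2, 0, 4), ((4, 1, 2), 3, 0, 1),
    ((4, 1, 6), 3, 0, 5), ((4, 2, 6), 3, 1, 5), ((5, 2, 3), 4, 1, 2), ((6, 0, 4), 5, 0, 3)]
  Tc := [(0, 1, 4)]
  Td := [((0, 1), (0, 3), 2), ((0, 1), (0, 6), 5), ((0, 1), (1, 4), 3), ((0, 4), (0, 3), 2), ((0,
    4), (0, 6), 5), ((0, 4), (1, 4), 3), ((1, 0), (2, 4), 3), ((1, 0), (2, 5), 4), ((4, 0),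
    (5, 2), 1), ((4, 0), (5, 3), 2)]
  G := [[0, 0xc161a42, 0xeec184, 0xe1184, 0xe1184], [0, 0xc161a48, 0, 0xa161c84, 0xa161c84]]

noncomputable def n79 : Ent := ⟨e79, noF, [], [], []⟩

def c79 : PLift (Cov.check n79.C.D v79 = true) := ⟨by decide +kernel⟩

def b79 : PLift (entF (fidx ts) 400 79 n79 = true) := ⟨by decide +kernel⟩

theorem g79 : GoodF (fidx ts) 400 79 := GoodF.ofV v79 n79 c79.down b79.down

/-- 47445:83 -/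
noncomputable def e80 : SCfg where
  D := {
    a := 5
    L := 8
    kp := 6
    inn := [(0, 1), (0, 4), (1, 0), (1, 2), (1, 3), (2, 1), (3, 1), (4, 0)]
    mix := [(0, 0), (0, 1), (1, 0), (1, 1), (1, 2), (1, 3), (2, 1), (2, 2), (2, 4), (3, 2), (3, 3), (3,
      5), (4, 0), (4, 1), (4, 6), (4, 7)]
    cl := [0, 0, 1, 2, 4, 3, 5, 6]
    chq := [(0, 1), (0, 3), (1, 0), (3, 0)]
    rng := [(0, 3), (0, 6), (1, 4), (1, 7), (2, 4), (2, 5), (3, 0), (3, 5), (4, 1), (4, 2), (5, 2), (5,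
      3), (6, 0), (6, 7), (7, 1), (7, 6)]
    lev := [] }
  links := [[1, 5, 4, 6], [5, 0, 6, 2, 7, 3, 8], [7, 1, 6, 9], [8, 1, 7, 10], [6, 0, 5, 11, 12]]
  P := {
    a := 5
    N := 13
    nb := [114, 493, 706, 1410, 6241, 2323, 4631, 1550, 1066, 196, 392, 4144, 2128]
    tri := [(0, 1, 5), (0, 1, 6), (0, 4, 5), (0, 4, 6), (1, 2, 6), (1, 2, 7), (1, 3, 7), (1, 3, 8), (1,
      5, 8), (2, 6, 9), (2, 7, 9), (3, 7, 10), (3, 8, 10), (4, 5, 11), (4, 6, 12), (4, 11, 12)]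
    fin := [0, 0, 0, 0, 0, 0, 0, 7, 8, 9, 10, 11, 12]
    chd := [(0, 7), (0, 10)]
    steps := [(0, 1), (0, 2), (0, 3), (0, 4), (0, 5), (0, 6)] }
  rep := [0, 7, 8, 10, 9, 11, 12]

noncomputable def v80 : Cov.CovD where
  P := 3
  N := 4
  pl := [3, 4, 6, 7]
  lev := [⟨[], [], [(0, 0)], [], [(0, 0, [1, 3]), (1, 0, [1, 3])]⟩,
    ⟨[], [(0, 0), (0, 1)], [(0, 0), (0, 1)], [2], [(0, 0, [1, 3]), (1, 0, [1, 3]), (2, 1,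
      [0])]⟩,
    ⟨[(0, 1)], [(0, 0), (1, 0), (1, 1)], [(0, 1)], [4], [(1, 0, [1, 3]), (2, 1, [0])]⟩,
    ⟨[(0, 1), (1, 2)], [(1, 0), (1, 1), (1, 3), (2, 1)], [(1, 3)], [2], [(2, 1, [0]), (5,
      3, [0])]⟩,
    ⟨[(0, 1)], [(0, 0), (1, 0), (2, 0)], [(0, 0)], [5, 6], [(0, 0, [1, 3]), (1, 0, [1,
      3])]⟩]
  Ta := [((0, 3), 0, 2), ((0, 6), 0, 5), ((1, 4), 0, 4), ((1, 7), 0, 6)]
  Tb := [((0, 3, 6), 0, 2, 5), ((1, 4, 7), 0, 4, 6), ((2, 4, 5), 1, 4, 3), ((3, 0, 5), 2, 0, 3),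
    ((4, 1, 2), 4, 0, 1), ((5, 2, 3), 3, 1, 2), ((6, 0, 7), 5, 0, 6), ((7, 1, 6), 6, 0, 5)]
  Tc := [(0, 1, 3)]
  Td := [((0, 1), (0, 3), 2), ((0, 1), (0, 6), 5), ((0, 1), (1, 4), 4), ((0, 1), (1, 7), 6), ((0,
    3), (0, 3), 2), ((0, 3), (0, 6), 5), ((0, 3), (1, 4), 4), ((0, 3), (1, 7), 6), ((1, 0),
    (2, 4), 4), ((1, 0), (2, 5), 3), ((3, 0), (5, 2), 1), ((3, 0), (5, 3), 2)]
  G := [[0, 0xe1e1a84, 0xeec182, 0xe1184, 0xe1184], [0, 0xe1e1c48, 0, 0xe1e1c84, 0xe1e1c82]]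

noncomputable def n80 : Ent := ⟨e80, noF, [], [], [(12, 9, [4116502316899662263862289648261095751715681716203521, 0])]⟩

def c80 : PLift (Cov.check n80.C.D v80 = true) := ⟨by decide +kernel⟩

def b80 : PLift (entF (fidx ts) 400 80 n80 = true) := ⟨by decide +kernel⟩

theorem g80 : GoodF (fidx ts) 400 80 := GoodF.ofV v80 n80 c80.down b80.down

/-- 47445:84/2 -/
noncomputable def e81 : SCfg where
  D := {
    a := 5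
    L := 6
    kp := 4
    inn := [(0, 1), (1, 0), (1, 2), (1, 3), (2, 1), (2, 4), (3, 1), (4, 2)]
    mix := [(0, 0), (0, 1), (0, 2), (1, 0), (1, 2), (1, 3), (1, 4), (2, 2), (2, 3), (3, 3), (3, 4), (3,
      5), (4, 1), (4, 2), (4, 3), (4, 5)]
    cl := [1, 2, 0, 0, 4, 3]
    chq := [(0, 1), (1, 0), (1, 3), (3, 1)]
    rng := [(0, 1), (0, 4), (1, 0), (1, 2), (1, 5), (2, 1), (3, 5), (4, 0), (4, 5), (5, 1), (5, 3), (5,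
      4)]
    lev := [] }
  links := [[1, 5, 6, 7], [5, 0, 7, 2, 8, 3, 9], [8, 1, 7, 4], [9, 1, 8, 10], [8, 2, 7, 6, 10]]
  P := {
    a := 5
    N := 11
    nb := [226, 941, 402, 1794, 1476, 579, 1201, 87, 1054, 1066, 856]
    tri := [(0, 1, 5), (0, 1, 7), (0, 5, 6), (0, 6, 7), (1, 2, 7), (1, 2, 8), (1, 3, 8), (1, 3, 9), (1,
      5, 9), (2, 4, 7), (2, 4, 8), (3, 8, 10), (3, 9, 10), (4, 6, 7), (4, 6, 10), (4, 8, 10)]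
    fin := [0, 0, 0, 0, 4, 0, 6, 4, 4, 9, 10]
    chd := [(0, 4), (0, 10)]
    steps := [(0, 1), (0, 2), (0, 3), (0, 5), (4, 7), (4, 8)] }
  rep := [4, 0, 6, 10, 9]

noncomputable def v81 : Cov.CovD where
  P := 3
  N := 2
  pl := [1, 4]
  lev := [⟨[], [], [(0, 1)], [2], [(0, 1, [0, 3]), (2, 0, [1])]⟩,
    ⟨[], [(0, 0), (0, 1)], [(0, 0), (0, 1)], [4], [(0, 1, [0, 3]), (2, 0, [1]), (3, 0,
      [1])]⟩,
    ⟨[(0, 1)], [(0, 0), (1, 0), (1, 1)], [(0, 0)], [], [(2, 0, [1]), (3, 0, [1])]⟩,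
    ⟨[(0, 1), (1, 2)], [(1, 0), (1, 1), (1, 3), (2, 0)], [(0, 3)], [4], [(3, 0, [1]), (5,
      3, [1])]⟩,
    ⟨[(1, 2)], [(0, 0), (1, 0), (2, 0), (2, 3), (3, 0), (3, 3)], [(0, 0), (0, 3)], [2],
      [(2, 0, [1]), (3, 0, [1]), (5, 3, [1])]⟩]
  Ta := [((2, 1), 0, 2), ((3, 5), 0, 3)]
  Tb := [((0, 1, 4), 1, 2, 4), ((1, 0, 2), 2, 1, 0), ((1, 0, 5), 2, 1, 3), ((1, 2, 5), 2, 0, 3),
    ((4, 0, 5), 4, 1, 3), ((5, 1, 3), 3, 2, 0), ((5, 1, 4), 3, 2, 4), ((5, 3, 4), 3, 0, 4)]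
  Tc := [(1, 0, 3)]
  Td := [((0, 1), (2, 1), 2), ((0, 1), (3, 5), 3), ((1, 0), (0, 1), 2), ((1, 0), (0, 4), 4), ((1,
    3), (0, 1), 2), ((1, 3), (0, 4), 4), ((3, 1), (5, 1), 2), ((3, 1), (5, 3), 0), ((3, 1),
    (5, 4), 4)]
  G := [[0, 0xc12c14a4, 0x624214c8, 0xc12c28c4, 0x214a22c8], [0, 0xc12c12c8, 0, 0xc24c22c8,
    0xa24222e8c8]]

noncomputable def n81 : Ent := ⟨e81, noF, [], [], []⟩

def c81 : PLift (Cov.check n81.C.D v81 = true) := ⟨by decide +kernel⟩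

def b81 : PLift (entF (fidx ts) 400 81 n81 = true) := ⟨by decide +kernel⟩

theorem g81 : GoodF (fidx ts) 400 81 := GoodF.ofV v81 n81 c81.down b81.down

/-- 47445:84/1 -/
noncomputable def e82 : SCfg where
  D := {
    a := 5
    L := 7
    kp := 5
    inn := [(0, 1), (1, 0), (1, 2), (1, 3), (2, 1), (2, 4), (3, 1), (4, 2)]
    mix := [(0, 0), (0, 1), (0, 2), (1, 0), (1, 2), (1, 3), (1, 4), (2, 2), (2, 3), (3, 3), (3, 4), (3,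
      5), (4, 1), (4, 2), (4, 3), (4, 6)]
    cl := [1, 2, 0, 0, 3, 4, 5]
    chq := [(0, 1), (1, 0), (1, 4), (4, 1)]
    rng := [(0, 1), (0, 4), (1, 0), (1, 2), (1, 6), (2, 1), (3, 5), (3, 6), (4, 0), (4, 5), (5, 3), (5,
      4), (6, 1), (6, 3)]
    lev := [] }
  links := [[1, 5, 6, 7], [5, 0, 7, 2, 8, 3, 9], [8, 1, 7, 4], [9, 1, 8, 10], [8, 2, 7, 6, 11]]
  P := {
    a := 5
    N := 12
    nb := [226, 941, 402, 1794, 2500, 579, 2225, 87, 3102, 1066, 776, 336]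
    tri := [(0, 1, 5), (0, 1, 7), (0, 5, 6), (0, 6, 7), (1, 2, 7), (1, 2, 8), (1, 3, 8), (1, 3, 9), (1,
      5, 9), (2, 4, 7), (2, 4, 8), (3, 8, 10), (3, 9, 10), (4, 6, 7), (4, 6, 11), (4, 8, 11)]
    fin := [0, 0, 2, 0, 4, 0, 4, 2, 2, 9, 10, 11]
    chd := [(0, 2), (0, 10)]
    steps := [(0, 1), (0, 3), (0, 5), (2, 7), (2, 8), (4, 6)] }
  rep := [2, 0, 4, 9, 10, 11]

noncomputable def v82 : Cov.CovD where
  P := 3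
  N := 3
  pl := [1, 4, 6]
  lev := [⟨[], [], [(0, 1)], [2], [(0, 1, [0, 4]), (2, 0, [1])]⟩,
    ⟨[], [(0, 0), (0, 1)], [(0, 0), (0, 1)], [3], [(0, 1, [0, 4]), (2, 0, [1]), (3, 0,
      [1])]⟩,
    ⟨[(0, 1)], [(0, 0), (1, 0), (1, 1)], [(0, 0)], [], [(2, 0, [1]), (3, 0, [1])]⟩,
    ⟨[(0, 1), (1, 2)], [(1, 0), (1, 1), (1, 4), (2, 0)], [(0, 4)], [3], [(3, 0, [1]), (5,
      4, [1])]⟩,
    ⟨[(1, 2)], [(0, 0), (1, 0), (2, 0), (3, 0)], [(0, 0)], [2, 5], [(2, 0, [1]), (3, 0,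
      [1])]⟩]
  Ta := [((2, 1), 0, 2), ((3, 5), 0, 4), ((3, 6), 0, 5)]
  Tb := [((0, 1, 4), 1, 2, 3), ((1, 0, 2), 2, 1, 0), ((1, 0, 6), 2, 1, 5), ((1, 2, 6), 2, 0, 5),
    ((3, 5, 6), 0, 4, 5), ((4, 0, 5), 3, 1, 4), ((5, 3, 4), 4, 0, 3), ((6, 1, 3), 5, 2, 0)]
  Tc := [(1, 0, 4)]
  Td := [((0, 1), (2, 1), 2), ((0, 1), (3, 5), 4), ((0, 1), (3, 6), 5), ((1, 0), (0, 1), 2), ((1,
    0), (0, 4), 3), ((1, 4), (0, 1), 2), ((1, 4), (0, 4), 3), ((4, 1), (5, 3), 0), ((4, 1),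
    (5, 4), 3)]
  G := [[0, 0xc18c1864, 0xa24c18c4, 0xc14c28c8, 0xa12a28c8], [0, 0xc12c18a4, 0, 0xc22c22c8,
    0xaaa2aa62c1]]

noncomputable def n82 : Ent := ⟨e82, noF, [], [], [(11, 10, [1004983125937232041231465026932718108219636256769, 0])]⟩

def c82 : PLift (Cov.check n82.C.D v82 = true) := ⟨by decide +kernel⟩

def b82 : PLift (entF (fidx ts) 400 82 n82 = true) := ⟨by decide +kernel⟩

theorem g82 : GoodF (fidx ts) 400 82 := GoodF.ofV v82 n82 c82.down b82.down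

/-- 47445:84/3 -/
noncomputable def e83 : SCfg where
  D := {
    a := 5
    L := 7
    kp := 5
    inn := [(0, 1), (1, 0), (1, 2), (1, 3), (2, 1), (2, 4), (3, 1), (4, 2)]
    mix := [(0, 0), (0, 1), (0, 2), (1, 0), (1, 2), (1, 3), (1, 4), (2, 2), (2, 3), (3, 3), (3, 4), (3,
      5), (4, 2), (4, 3), (4, 5), (4, 6)]
    cl := [1, 2, 0, 0, 4, 3, 5]
    chq := [(0, 1), (1, 0), (1, 3), (3, 1)]
    rng := [(0, 1), (0, 4), (1, 0), (1, 2), (2, 1), (2, 6), (3, 5), (4, 0), (4, 5), (5, 3), (5, 4), (5,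
      6), (6, 2), (6, 5)]
    lev := [] }
  links := [[1, 5, 6, 7], [5, 0, 7, 2, 8, 3, 9], [8, 1, 7, 4], [9, 1, 8, 10], [8, 2, 7, 11, 10]]
  P := {
    a := 5
    N := 12
    nb := [226, 941, 402, 1794, 3460, 579, 161, 2135, 1054, 1066, 2840, 1168]
    tri := [(0, 1, 5), (0, 1, 7), (0, 5, 6), (0, 6, 7), (1, 2, 7), (1, 2, 8), (1, 3, 8), (1, 3, 9), (1,
      5, 9), (2, 4, 7), (2, 4, 8), (3, 8, 10), (3, 9, 10), (4, 7, 11), (4, 8, 10), (4, 10, 11)]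
    fin := [0, 0, 0, 0, 4, 0, 6, 4, 4, 9, 10, 11]
    chd := [(0, 4), (0, 10)]
    steps := [(0, 1), (0, 2), (0, 3), (0, 5), (4, 7), (4, 8)] }
  rep := [4, 0, 6, 10, 9, 11]

noncomputable def v83 : Cov.CovD where
  P := 3
  N := 3
  pl := [1, 4, 6]
  lev := [⟨[], [], [(0, 1)], [2], [(0, 1, [0, 3]), (2, 0, [1])]⟩,
    ⟨[], [(0, 0), (0, 1)], [(0, 0), (0, 1)], [4], [(0, 1, [0, 3]), (2, 0, [1]), (3, 0,
      [1])]⟩,
    ⟨[(0, 1)], [(0, 0), (1, 0), (1, 1)], [(0, 0)], [], [(2, 0, [1]), (3, 0, [1])]⟩,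
    ⟨[(0, 1), (1, 2)], [(1, 0), (1, 1), (1, 3), (2, 0)], [(0, 3)], [4], [(3, 0, [1]), (5,
      3, [1])]⟩,
    ⟨[(1, 2)], [(0, 0), (1, 0), (2, 0), (2, 3), (3, 0), (3, 3)], [(0, 0), (0, 3)], [5],
      [(2, 0, [1]), (3, 0, [1]), (5, 3, [1])]⟩]
  Ta := [((2, 1), 0, 2), ((2, 6), 0, 5), ((3, 5), 0, 3)]
  Tb := [((0, 1, 4), 1, 2, 4), ((1, 0, 2), 2, 1, 0), ((2, 1, 6), 0, 2, 5), ((4, 0, 5), 4, 1, 3),
    ((5, 3, 4), 3, 0, 4), ((5, 3, 6), 3, 0, 5), ((5, 4, 6), 3, 4, 5), ((6, 2, 5), 5, 0, 3)]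
  Tc := [(1, 0, 3)]
  Td := [((0, 1), (2, 1), 2), ((0, 1), (2, 6), 5), ((0, 1), (3, 5), 3), ((1, 0), (0, 1), 2), ((1,
    0), (0, 4), 4), ((1, 3), (0, 1), 2), ((1, 3), (0, 4), 4), ((3, 1), (5, 3), 0), ((3, 1),
    (5, 4), 4), ((3, 1), (5, 6), 5)]
  G := [[0, 0xe12e18c8, 0xe14e28c8, 0xe24e22c8, 0xe14e22c8], [0, 0xe12e1864, 0, 0xe24e22c4,
    0xe24a6ae8c1]]

noncomputable def n83 : Ent := ⟨e83, noF, [], [], [(6, 11, [913639273604050608843734724887950419491140472833, 0])]⟩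

def c83 : PLift (Cov.check n83.C.D v83 = true) := ⟨by decide +kernel⟩

def b83 : PLift (entF (fidx ts) 400 83 n83 = true) := ⟨by decide +kernel⟩

theorem g83 : GoodF (fidx ts) 400 83 := GoodF.ofV v83 n83 c83.down b83.down

/-- 47445:84 -/
noncomputable def e84 : SCfg where
  D := {
    a := 5
    L := 8
    kp := 6
    inn := [(0, 1), (1, 0), (1, 2), (1, 3), (2, 1), (2, 4), (3, 1), (4, 2)]
    mix := [(0, 0), (0, 1), (0, 2), (1, 0), (1, 2), (1, 3), (1, 4), (2, 2), (2, 3), (3, 3), (3, 4), (3,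
      5), (4, 2), (4, 3), (4, 6), (4, 7)]
    cl := [1, 2, 0, 0, 3, 4, 5, 6]
    chq := [(0, 1), (1, 0), (1, 4), (4, 1)]
    rng := [(0, 1), (0, 4), (1, 0), (1, 2), (2, 1), (2, 6), (3, 5), (3, 7), (4, 0), (4, 5), (5, 3), (5,
      4), (6, 2), (6, 7), (7, 3), (7, 6)]
    lev := [] }
  links := [[1, 5, 6, 7], [5, 0, 7, 2, 8, 3, 9], [8, 1, 7, 4], [9, 1, 8, 10], [8, 2, 7, 11, 12]]
  P := {
    a := 5
    N := 13
    nb := [226, 941, 402, 1794, 6532, 579, 161, 2135, 5150, 1066, 776, 4240, 2320]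
    tri := [(0, 1, 5), (0, 1, 7), (0, 5, 6), (0, 6, 7), (1, 2, 7), (1, 2, 8), (1, 3, 8), (1, 3, 9), (1,
      5, 9), (2, 4, 7), (2, 4, 8), (3, 8, 10), (3, 9, 10), (4, 7, 11), (4, 8, 12), (4, 11, 12)]
    fin := [0, 0, 0, 0, 4, 0, 6, 4, 4, 9, 10, 11, 12]
    chd := [(0, 4), (0, 10)]
    steps := [(0, 1), (0, 2), (0, 3), (0, 5), (4, 7), (4, 8)] }
  rep := [4, 0, 6, 9, 10, 11, 12]

noncomputable def v84 : Cov.CovD where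
  P := 3
  N := 4
  pl := [1, 4, 6, 7]
  lev := [⟨[], [], [(0, 1)], [2], [(0, 1, [0, 4]), (2, 0, [1])]⟩,
    ⟨[], [(0, 0), (0, 1)], [(0, 0), (0, 1)], [3], [(0, 1, [0, 4]), (2, 0, [1]), (3, 0,
      [1])]⟩,
    ⟨[(0, 1)], [(0, 0), (1, 0), (1, 1)], [(0, 0)], [], [(2, 0, [1]), (3, 0, [1])]⟩,
    ⟨[(0, 1), (1, 2)], [(1, 0), (1, 1), (1, 4), (2, 0)], [(0, 4)], [3], [(3, 0, [1]), (5,
      4, [1])]⟩,
    ⟨[(1, 2)], [(0, 0), (1, 0), (2, 0), (3, 0)], [(0, 0)], [5, 6], [(2, 0, [1]), (3, 0,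
      [1])]⟩]
  Ta := [((2, 1), 0, 2), ((2, 6), 0, 5), ((3, 5), 0, 4), ((3, 7), 0, 6)]
  Tb := [((0, 1, 4), 1, 2, 3), ((1, 0, 2), 2, 1, 0), ((2, 1, 6), 0, 2, 5), ((3, 5, 7), 0, 4, 6),
    ((4, 0, 5), 3, 1, 4), ((5, 3, 4), 4, 0, 3), ((6, 2, 7), 5, 0, 6), ((7, 3, 6), 6, 0, 5)]
  Tc := [(1, 0, 4)]
  Td := [((0, 1), (2, 1), 2), ((0, 1), (2, 6), 5), ((0, 1), (3, 5), 4), ((0, 1), (3, 7), 6), ((1,
    0), (0, 1), 2), ((1, 0), (0, 4), 3), ((1, 4), (0, 1), 2), ((1, 4), (0, 4), 3), ((4, 1),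
    (5, 3), 0), ((4, 1), (5, 4), 3)]
  G := [[0, 0xe18e1864, 0xe22e12c8, 0xe22e22c8, 0xe24e12c8], [0, 0xe14e12c4, 0, 0xe24e22c1,
    0xee62eea8c8]]

noncomputable def n84 : Ent := ⟨e84, noF, [], [], [(6, 11, [4490646669154137815330563540829309386802515929276417, 0]), (12, 10, [4116684937702093031135195684258030469148054189846529, 0])]⟩

def c84 : PLift (Cov.check n84.C.D v84 = true) := ⟨by decide +kernel⟩

def b84 : PLift (entF (fidx ts) 400 84 n84 = true) := ⟨by decide +kernel⟩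

theorem g84 : GoodF (fidx ts) 400 84 := GoodF.ofV v84 n84 c84.down b84.down

/-- 47454:90/1 -/
noncomputable def e85 : SCfg where
  D := {
    a := 5
    L := 7
    kp := 5
    inn := [(0, 1), (1, 0), (1, 2), (1, 3), (2, 1), (3, 1), (3, 4), (4, 3)]
    mix := [(0, 0), (0, 1), (0, 2), (1, 0), (1, 2), (1, 3), (1, 4), (2, 2), (2, 3), (2, 5), (3, 3), (3,
      4), (3, 6), (4, 3), (4, 5), (4, 6)]
    cl := [0, 5, 1, 0, 2, 3, 4]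
    chq := [(0, 1), (1, 0), (2, 3), (3, 2)]
    rng := [(0, 1), (0, 4), (1, 0), (1, 2), (2, 1), (2, 5), (3, 5), (4, 0), (4, 6), (5, 2), (5, 3), (5,
      6), (6, 4), (6, 5)]
    lev := [] }
  links := [[1, 5, 6, 7], [5, 0, 7, 2, 8, 3, 9], [8, 1, 7, 10], [9, 1, 8, 4, 11], [11, 3, 8, 10]]
  P := {
    a := 5
    N := 12
    nb := [226, 941, 1410, 2834, 3336, 579, 161, 1095, 1054, 2090, 2452, 1560]
    tri := [(0, 1, 5), (0, 1, 7), (0, 5, 6), (0, 6, 7), (1, 2, 7), (1, 2, 8), (1, 3, 8), (1, 3, 9), (1,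
      5, 9), (2, 7, 10), (2, 8, 10), (3, 4, 8), (3, 4, 11), (3, 9, 11), (4, 8, 10), (4, 10, 11)]
    fin := [0, 0, 0, 3, 3, 0, 6, 7, 0, 9, 3, 11]
    chd := [(0, 7), (9, 3)]
    steps := [(0, 1), (0, 2), (0, 5), (0, 8), (3, 4), (3, 10)] }
  rep := [0, 7, 9, 3, 11, 6]

noncomputable def v85 : Cov.CovD where
  P := 3
  N := 3
  pl := [1, 6]
  lev := [⟨[], [], [(0, 1)], [5], [(0, 0, [1]), (2, 1, [0])]⟩,
    ⟨[], [(0, 0), (0, 1), (0, 2)], [(0, 0), (0, 1), (0, 2), (1, 2)], [], [(0, 0, [1]), (2,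
      1, [0]), (3, 0, [1]), (4, 2, [3])]⟩,
    ⟨[(0, 1)], [(0, 1), (1, 0), (1, 1), (1, 2), (1, 3)], [(0, 1), (0, 3), (1, 3)], [], [(2,
      1, [0]), (3, 0, [1]), (5, 3, [2])]⟩,
    ⟨[(0, 1), (1, 2)], [(1, 0), (1, 1), (1, 2), (2, 0)], [(0, 2)], [4], [(3, 0, [1]), (4,
      2, [3])]⟩,
    ⟨[(1, 3)], [(1, 0), (2, 0), (2, 3), (3, 0), (3, 2), (3, 3)], [(0, 3)], [4], [(3, 0,
      [1]), (5, 3, [2])]⟩]
  Ta := [((0, 1), 0, 5), ((0, 4), 0, 2), ((3, 5), 0, 3)]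
  Tb := [((0, 1, 4), 0, 5, 2), ((1, 0, 2), 5, 0, 1), ((2, 1, 5), 1, 5, 3), ((4, 0, 6), 2, 0, 4),
    ((5, 2, 3), 3, 1, 0), ((5, 2, 6), 3, 1, 4), ((5, 3, 6), 3, 0, 4), ((6, 4, 5), 4, 2, 3)]
  Tc := []
  Td := [((0, 1), (0, 1), 5), ((0, 1), (0, 4), 2), ((0, 1), (3, 5), 3), ((1, 0), (2, 1), 5), ((1,
    0), (2, 5), 3), ((2, 3), (4, 0), 0), ((2, 3), (4, 6), 4), ((3, 2), (5, 2), 1), ((3, 2),
    (5, 3), 0), ((3, 2), (5, 6), 4)]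
  G := [[0, 0x16c2816c286, 0xca61811642a98c, 0x6ac14e41281cc, 0x854748124858c], [0,
    0x16c28a1c246, 0, 0x24c482c8c1, 0x48ee481]]

noncomputable def n85 : Ent := ⟨e85, noF, [], [], []⟩

def c85 : PLift (Cov.check n85.C.D v85 = true) := ⟨by decide +kernel⟩

def b85 : PLift (entF (fidx ts) 400 85 n85 = true) := ⟨by decide +kernel⟩

theorem g85 : GoodF (fidx ts) 400 85 := GoodF.ofV v85 n85 c85.down b85.down

/-- 47454:90 -/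
noncomputable def e86 : SCfg where
  D := {
    a := 5
    L := 8
    kp := 6
    inn := [(0, 1), (1, 0), (1, 2), (1, 3), (2, 1), (3, 1), (3, 4), (4, 3)]
    mix := [(0, 0), (0, 1), (0, 2), (1, 0), (1, 2), (1, 3), (1, 4), (2, 2), (2, 3), (2, 5), (3, 3), (3,
      4), (3, 6), (4, 3), (4, 6), (4, 7)]
    cl := [2, 5, 1, 0, 0, 4, 3, 6]
    chq := [(1, 2), (2, 1), (2, 4), (4, 2)]
    rng := [(0, 1), (0, 4), (1, 0), (1, 2), (2, 1), (2, 5), (3, 5), (3, 7), (4, 0), (4, 6), (5, 2), (5,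
      3), (6, 4), (6, 7), (7, 3), (7, 6)]
    lev := [] }
  links := [[1, 5, 6, 7], [5, 0, 7, 2, 8, 3, 9], [8, 1, 7, 10], [9, 1, 8, 4, 11], [11, 3, 8, 12]]
  P := {
    a := 5
    N := 13
    nb := [226, 941, 1410, 2834, 6408, 579, 161, 1095, 5150, 2090, 388, 4632, 2320]
    tri := [(0, 1, 5), (0, 1, 7), (0, 5, 6), (0, 6, 7), (1, 2, 7), (1, 2, 8), (1, 3, 8), (1, 3, 9), (1,
      5, 9), (2, 7, 10), (2, 8, 10), (3, 4, 8), (3, 4, 11), (3, 9, 11), (4, 8, 12), (4, 11, 12)]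
    fin := [0, 0, 0, 3, 3, 0, 6, 7, 3, 3, 10, 11, 12]
    chd := [(0, 7), (0, 10)]
    steps := [(0, 1), (0, 2), (0, 5), (3, 4), (3, 8), (3, 9)] }
  rep := [3, 7, 0, 11, 10, 6, 12]

noncomputable def v86 : Cov.CovD where
  P := 3
  N := 4
  pl := [1, 6, 7]
  lev := [⟨[], [], [(1, 2)], [5], [(0, 2, [1, 4]), (2, 1, [2])]⟩,
    ⟨[], [(0, 0), (0, 1), (0, 2)], [(0, 0), (0, 1), (0, 2), (1, 2)], [], [(0, 2, [1, 4]),
      (2, 1, [2]), (3, 0, []), (4, 0, [])]⟩,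
    ⟨[(0, 1)], [(0, 1), (1, 0), (1, 1), (1, 2), (1, 4)], [(0, 1), (0, 4), (1, 4)], [], [(2,
      1, [2]), (3, 0, []), (5, 4, [2])]⟩,
    ⟨[(0, 1), (1, 2)], [(1, 0), (1, 1), (1, 2), (2, 0)], [(0, 0)], [3], [(3, 0, []), (4, 0,
      [])]⟩,
    ⟨[(1, 3)], [(1, 0), (2, 0), (3, 0)], [], [3, 6], [(3, 0, [])]⟩]
  Ta := [((3, 5), 0, 4), ((3, 7), 0, 6), ((4, 0), 0, 2), ((4, 6), 0, 3)]
  Tb := [((0, 1, 4), 2, 5, 0), ((1, 0, 2), 5, 2, 1), ((2, 1, 5), 1, 5, 4), ((3, 5, 7), 0, 4, 6),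
    ((4, 0, 6), 0, 2, 3), ((5, 2, 3), 4, 1, 0), ((6, 4, 7), 3, 0, 6), ((7, 3, 6), 6, 0, 3)]
  Tc := [(2, 1, 4)]
  Td := [((1, 2), (2, 1), 5), ((1, 2), (2, 5), 4), ((2, 1), (0, 1), 5), ((2, 1), (0, 4), 0), ((2,
    4), (0, 1), 5), ((2, 4), (0, 4), 0), ((4, 2), (5, 2), 1), ((4, 2), (5, 3), 0)]
  G := [[0, 0xca628c6a24c, 0, 0xca628c6a249, 0xca648ca6489], [0, 0x53a2416c28c, 0xc6a14ca618c,
    0x16c2816a285, 0x1a648596489]]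

noncomputable def n86 : Ent := ⟨e86, noF, [], [], [(10, 12, [4116502249997426668270420223653940933770597198286849, 0])]⟩

def c86 : PLift (Cov.check n86.C.D v86 = true) := ⟨by decide +kernel⟩

def b86 : PLift (entF (fidx ts) 400 86 n86 = true) := ⟨by decide +kernel⟩

theorem g86 : GoodF (fidx ts) 400 86 := GoodF.ofV v86 n86 c86.down b86.down

/-- 47454:91 -/
noncomputable def e87 : SCfg where
  D := {
    a := 5
    L := 8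
    kp := 6
    inn := [(0, 1), (1, 0), (1, 2), (1, 3), (2, 1), (3, 1), (3, 4), (4, 3)]
    mix := [(0, 0), (0, 1), (0, 2), (1, 0), (1, 2), (1, 3), (1, 4), (2, 2), (2, 3), (2, 5), (3, 3), (3,
      4), (3, 6), (4, 4), (4, 6), (4, 7)]
    cl := [2, 5, 1, 0, 0, 4, 3, 6]
    chq := [(1, 2), (2, 1), (2, 4), (4, 2)]
    rng := [(0, 1), (0, 4), (1, 0), (1, 2), (2, 1), (2, 5), (3, 5), (3, 6), (4, 0), (4, 7), (5, 2), (5,
      3), (6, 3), (6, 7), (7, 4), (7, 6)]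
    lev := [] }
  links := [[1, 5, 6, 7], [5, 0, 7, 2, 8, 3, 9], [8, 1, 7, 10], [9, 1, 8, 11, 4], [9, 3, 11, 12]]
  P := {
    a := 5
    N := 13
    nb := [226, 941, 1410, 2834, 6664, 579, 161, 1095, 3086, 4154, 388, 4376, 2576]
    tri := [(0, 1, 5), (0, 1, 7), (0, 5, 6), (0, 6, 7), (1, 2, 7), (1, 2, 8), (1, 3, 8), (1, 3, 9), (1,
      5, 9), (2, 7, 10), (2, 8, 10), (3, 4, 9), (3, 4, 11), (3, 8, 11), (4, 9, 12), (4, 11, 12)]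
    fin := [0, 0, 0, 3, 3, 0, 6, 7, 3, 3, 10, 11, 12]
    chd := [(0, 7), (0, 10)]
    steps := [(0, 1), (0, 2), (0, 5), (3, 4), (3, 8), (3, 9)] }
  rep := [3, 7, 0, 11, 10, 6, 12]

noncomputable def v87 : Cov.CovD where
  P := 3
  N := 4
  pl := [1, 6, 7]
  lev := [⟨[], [], [(1, 2)], [5], [(0, 2, [1, 4]), (2, 1, [2])]⟩,
    ⟨[], [(0, 0), (0, 1), (0, 2)], [(0, 0), (0, 1), (0, 2), (1, 2)], [], [(0, 2, [1, 4]),
      (2, 1, [2]), (3, 0, []), (4, 0, [])]⟩,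
    ⟨[(0, 1)], [(0, 1), (1, 0), (1, 1), (1, 2), (1, 4)], [(0, 1), (0, 4), (1, 4)], [], [(2,
      1, [2]), (3, 0, []), (5, 4, [2])]⟩,
    ⟨[(0, 1), (1, 2)], [(1, 0), (1, 1), (1, 2), (2, 0)], [(0, 0)], [3], [(3, 0, []), (4, 0,
      [])]⟩,
    ⟨[(1, 3)], [(1, 0), (3, 0)], [], [3, 6], [(4, 0, [])]⟩]
  Ta := [((3, 5), 0, 4), ((3, 6), 0, 3), ((4, 0), 0, 2), ((4, 7), 0, 6)]
  Tb := [((0, 1, 4), 2, 5, 0), ((1, 0, 2), 5, 2, 1), ((2, 1, 5), 1, 5, 4), ((3, 5, 6), 0, 4, 3),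
    ((4, 0, 7), 0, 2, 6), ((5, 2, 3), 4, 1, 0), ((6, 3, 7), 3, 0, 6), ((7, 4, 6), 6, 0, 3)]
  Tc := [(2, 1, 4)]
  Td := [((1, 2), (2, 1), 5), ((1, 2), (2, 5), 4), ((2, 1), (0, 1), 5), ((2, 1), (0, 4), 0), ((2,
    4), (0, 1), 5), ((2, 4), (0, 4), 0), ((4, 2), (5, 2), 1), ((4, 2), (5, 3), 0)]
  G := [[0, 0xc1a24c1a24c, 0, 0x1a6281a6285, 0xc164816c489], [0, 0xc6a24c6a24c, 0xc6a14c6a14c,
    0xc6a24c6a249, 0xca648ca6189]]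

noncomputable def n87 : Ent := ⟨e87, noF, [], [], []⟩

def c87 : PLift (Cov.check n87.C.D v87 = true) := ⟨by decide +kernel⟩

def b87 : PLift (entF (fidx ts) 400 87 n87 = true) := ⟨by decide +kernel⟩

theorem g87 : GoodF (fidx ts) 400 87 := GoodF.ofV v87 n87 c87.down b87.down

/-- 47466:92 -/
noncomputable def e88 : SCfg where
  D := {
    a := 5
    L := 10
    kp := 7
    inn := [(0, 1), (1, 0), (1, 2), (1, 3), (1, 4), (2, 1), (3, 1), (3, 4), (4, 1), (4, 3)]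
    mix := [(0, 0), (0, 1), (0, 2), (1, 0), (1, 2), (1, 3), (2, 2), (2, 3), (2, 4), (3, 3), (3, 5), (3,
      6), (3, 7), (4, 0), (4, 7), (4, 8), (4, 9)]
    cl := [0, 2, 1, 0, 3, 4, 5, 0, 6, 7]
    chq := [(0, 1), (1, 0)]
    rng := [(0, 1), (0, 9), (1, 0), (1, 2), (2, 1), (2, 4), (3, 4), (3, 5), (4, 2), (4, 3), (5, 3), (5,
      6), (6, 5), (6, 7), (7, 6), (7, 8), (8, 7), (8, 9), (9, 0), (9, 8)]
    lev := [] }
  links := [[1, 5, 6, 7], [5, 0, 7, 2, 8, 3, 4], [8, 1, 7, 9], [4, 1, 8, 10, 11, 12], [5, 1, 3, 12, 13,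
    14]]
  P := {
    a := 5
    N := 15
    nb := [226, 445, 898, 7442, 28714, 16467, 161, 583, 1550, 388, 2312, 5128, 10264, 20496, 8240]
    tri := [(0, 1, 5), (0, 1, 7), (0, 5, 6), (0, 6, 7), (1, 2, 7), (1, 2, 8), (1, 3, 4), (1, 3, 8), (1,
      4, 5), (2, 7, 9), (2, 8, 9), (3, 4, 12), (3, 8, 10), (3, 10, 11), (3, 11, 12), (4, 5, 14),
      (4, 12, 13), (4, 13, 14)]
    fin := [0, 0, 0, 0, 0, 0, 6, 7, 0, 9, 10, 11, 0, 13, 14]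
    chd := [(0, 7)]
    steps := [(0, 1), (0, 2), (0, 3), (0, 4), (0, 5), (0, 8), (0, 12)] }
  rep := [0, 7, 6, 9, 10, 11, 13, 14]

noncomputable def v88 : Cov.CovD where
  P := 3
  N := 5
  pl := [1, 4, 5, 6, 8, 9]
  lev := [⟨[], [], [(0, 1)], [2], [(0, 0, [1]), (2, 1, [0])]⟩,
    ⟨[], [(0, 0), (0, 1)], [(0, 0), (0, 1)], [], [(0, 0, [1]), (2, 1, [0]), (3, 0, [1])]⟩,
    ⟨[(0, 1)], [(0, 1), (1, 0), (1, 1)], [(0, 1)], [3], [(2, 1, [0]), (3, 0, [1])]⟩,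
    ⟨[(0, 1), (1, 2)], [(1, 0), (1, 1), (2, 0)], [(0, 0)], [4, 5], [(3, 0, [1]), (7, 0,
      [1])]⟩,
    ⟨[(0, 1), (1, 2), (1, 3)], [(0, 0), (1, 0), (1, 1), (3, 0)], [(0, 0)], [6, 7], [(0, 0,
      [1]), (7, 0, [1])]⟩]
  Ta := [((0, 1), 0, 2), ((0, 9), 0, 7), ((3, 4), 0, 3), ((3, 5), 0, 4), ((7, 6), 0, 5), ((7, 8),
    0, 6)]
  Tb := [((0, 1, 9), 0, 2, 7), ((1, 0, 2), 2, 0, 1), ((2, 1, 4), 1, 2, 3), ((3, 4, 5), 0, 3, 4),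
    ((4, 2, 3), 3, 1, 0), ((5, 3, 6), 4, 0, 5), ((6, 5, 7), 5, 4, 0), ((7, 6, 8), 0, 5, 6),
    ((8, 7, 9), 6, 0, 7), ((9, 0, 8), 7, 0, 6)]
  Tc := []
  Td := [((0, 1), (0, 1), 2), ((0, 1), (0, 9), 7), ((0, 1), (3, 4), 3), ((0, 1), (3, 5), 4), ((0,
    1), (7, 6), 5), ((0, 1), (7, 8), 6), ((1, 0), (2, 1), 2), ((1, 0), (2, 4), 3)]
  G := [[0, 0x6eee6eee68888ca4, 0x441eaee1c8, 0x6eee1881c4, 0x441eaee1c8], [0,
    0x22e2aeeceeecc68, 0, 0x6666eeec8e88e88c45, 0x646eeece8ee88cc1], [0,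
    0x6662eaeea8ac4cc4e8, 0, 0x4eee1a81c4, 0x441eaee1c1]]

noncomputable def n88 : Ent := ⟨e88, noF, [], [], []⟩

def c88 : PLift (Cov.check n88.C.D v88 = true) := ⟨by decide +kernel⟩

def b88 : PLift (entF (fidx ts) 400 88 n88 = true) := ⟨by decide +kernel⟩

theorem g88 : GoodF (fidx ts) 400 88 := GoodF.ofV v88 n88 c88.down b88.down

/-- 45865:93/1 -/
noncomputable def e89 : SCfg where
  D := {
    a := 5
    L := 9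
    kp := 7
    inn := [(0, 1), (0, 2), (1, 0), (1, 2), (1, 3), (2, 0), (2, 1), (2, 3), (2, 4), (3, 1), (3, 2), (4,
      2)]
    mix := [(0, 0), (0, 1), (1, 1), (1, 2), (2, 0), (2, 3), (2, 4), (2, 5), (3, 2), (3, 3), (3, 6), (3,
      7), (4, 3), (4, 4), (4, 7), (4, 8)]
    cl := [1, 2, 3, 0, 0, 5, 6, 4, 7]
    chq := [(1, 3), (3, 1), (3, 5), (4, 5), (5, 3), (5, 4), (5, 6), (6, 5)]
    rng := [(0, 1), (0, 5), (1, 0), (1, 2), (2, 1), (2, 6), (3, 7), (4, 5), (4, 8), (5, 0), (5, 4), (6,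
      2), (6, 7), (7, 3), (7, 6), (7, 8), (8, 4), (8, 7)]
    lev := [] }
  links := [[1, 2, 5, 6], [2, 0, 6, 7, 3], [5, 0, 1, 3, 8, 4, 9, 10], [8, 2, 1, 7, 11, 12], [9, 2, 8, 12,
    13]]
  P := {
    a := 5
    N := 14
    nb := [102, 205, 1851, 6534, 13060, 1093, 163, 2122, 4124, 9236, 548, 4232, 10520, 4624]
    tri := [(0, 1, 2), (0, 1, 6), (0, 2, 5), (0, 5, 6), (1, 2, 3), (1, 3, 7), (1, 6, 7), (2, 3, 8), (2,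
      4, 8), (2, 4, 9), (2, 5, 10), (2, 9, 10), (3, 7, 11), (3, 8, 12), (3, 11, 12), (4, 8, 12),
      (4, 9, 13), (4, 12, 13)]
    fin := [0, 0, 2, 2, 4, 0, 6, 7, 4, 4, 2, 11, 12, 13]
    chd := [(0, 7), (2, 11), (2, 12), (7, 2)]
    steps := [(0, 1), (0, 5), (2, 3), (2, 10), (4, 8), (4, 9)] }
  rep := [4, 0, 6, 7, 12, 2, 11, 13]

noncomputable def v89 : Cov.CovD where
  P := 3
  N := 5
  pl := [1, 8]
  lev := [⟨[], [], [], [2], [(0, 1, [3])]⟩,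
    ⟨[], [(0, 1), (0, 3)], [], [2], [(2, 3, [1, 5])]⟩,
    ⟨[(0, 1)], [(0, 0), (0, 1), (0, 5), (1, 0), (1, 1), (1, 3), (1, 5)], [(0, 0), (0, 1),
      (0, 5), (1, 5)], [], [(0, 1, [3]), (3, 0, []), (4, 0, []), (5, 5, [3, 4, 6])]⟩,
    ⟨[(0, 1), (0, 2), (1, 2)], [(1, 0), (1, 3), (1, 4), (1, 6), (2, 0), (2, 1), (2, 3), (2,
      4), (2, 5), (2, 6)], [(0, 3), (0, 4), (0, 6), (3, 4), (3, 6), (4, 6)], [], [(2, 3, [1,
      5]), (3, 0, []), (6, 6, [5]), (7, 4, [5])]⟩,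
    ⟨[(0, 2), (1, 2), (2, 3)], [(2, 0), (2, 1), (2, 4), (2, 5), (3, 0), (3, 4)], [(0, 0),
      (0, 4)], [7], [(3, 0, []), (4, 0, []), (7, 4, [5])]⟩]
  Ta := [((3, 7), 0, 4), ((4, 5), 0, 5), ((4, 8), 0, 7)]
  Tb := [((0, 1, 5), 1, 2, 5), ((1, 0, 2), 2, 1, 3), ((2, 1, 6), 3, 2, 6), ((4, 5, 8), 0, 5, 7),
    ((5, 0, 4), 5, 1, 0), ((6, 2, 7), 6, 3, 4), ((7, 3, 6), 4, 0, 6), ((7, 3, 8), 4, 0, 7),
    ((7, 6, 8), 4, 6, 7), ((8, 4, 7), 7, 0, 4)]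
  Tc := [(3, 1, 5), (5, 3, 4), (5, 3, 6), (5, 4, 6)]
  Td := [((1, 3), (0, 1), 2), ((1, 3), (0, 5), 5), ((3, 1), (2, 1), 2), ((3, 1), (2, 6), 6), ((3,
    5), (2, 1), 2), ((3, 5), (2, 6), 6), ((4, 5), (7, 3), 0), ((4, 5), (7, 6), 6), ((4, 5),
    (7, 8), 7), ((5, 3), (5, 0), 1), ((5, 3), (5, 4), 0), ((5, 4), (5, 0), 1), ((5, 4), (5,
    4), 0), ((5, 6), (5, 0), 1), ((5, 6), (5, 4), 0), ((6, 5), (6, 2), 3), ((6, 5), (6, 7),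
    4)]
  G := [[0x42a2e4ee2e8ae4a848ee4, 0xe2eeca14, 0x4842ee6a8c2c, 0xe844e6e88ce4e8cd1, 0xee6e8c21],
    [0xe6ad2eee7a8ca4, 0xe2eec618, 0x64eeebc28482c, 0xe8aef44e4ef8c1, 0xeee7e8c21]]

noncomputable def n89 : Ent := ⟨e89, noF, [], [], []⟩

def c89 : PLift (Cov.check n89.C.D v89 = true) := ⟨by decide +kernel⟩

def b89 : PLift (entF (fidx ts) 400 89 n89 = true) := ⟨by decide +kernel⟩

theorem g89 : GoodF (fidx ts) 400 89 := GoodF.ofV v89 n89 c89.down b89.down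

/-- 45865:93 -/
noncomputable def e90 : SCfg where
  D := {
    a := 5
    L := 10
    kp := 8
    inn := [(0, 1), (0, 2), (1, 0), (1, 2), (1, 3), (2, 0), (2, 1), (2, 3), (2, 4), (3, 1), (3, 2), (4,
      2)]
    mix := [(0, 0), (0, 1), (1, 1), (1, 2), (2, 0), (2, 3), (2, 4), (2, 5), (3, 2), (3, 3), (3, 6), (3,
      7), (4, 3), (4, 4), (4, 8), (4, 9)]
    cl := [1, 4, 3, 0, 0, 2, 5, 6, 7, 8]
    chq := [(1, 3), (2, 3), (2, 5), (2, 6), (3, 1), (3, 2), (5, 2), (6, 2)]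
    rng := [(0, 1), (0, 5), (1, 0), (1, 2), (2, 1), (2, 6), (3, 7), (3, 8), (4, 5), (4, 9), (5, 0), (5,
      4), (6, 2), (6, 7), (7, 3), (7, 6), (8, 3), (8, 9), (9, 4), (9, 8)]
    lev := [] }
  links := [[1, 2, 5, 6], [2, 0, 6, 7, 3], [5, 0, 1, 3, 8, 4, 9, 10], [8, 2, 1, 7, 11, 12], [9, 2, 8, 13,
    14]]
  P := {
    a := 5
    N := 15
    nb := [102, 205, 1851, 6534, 25348, 1093, 163, 2122, 12316, 17428, 548, 4232, 2312, 16656, 8720]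
    tri := [(0, 1, 2), (0, 1, 6), (0, 2, 5), (0, 5, 6), (1, 2, 3), (1, 3, 7), (1, 6, 7), (2, 3, 8), (2,
      4, 8), (2, 4, 9), (2, 5, 10), (2, 9, 10), (3, 7, 11), (3, 8, 12), (3, 11, 12), (4, 8, 13),
      (4, 9, 14), (4, 13, 14)]
    fin := [0, 0, 2, 2, 4, 0, 6, 7, 4, 4, 2, 11, 12, 13, 14]
    chd := [(0, 7), (2, 11), (2, 12), (7, 2)]
    steps := [(0, 1), (0, 5), (2, 3), (2, 10), (4, 8), (4, 9)] }
  rep := [4, 0, 2, 7, 6, 11, 12, 13, 14]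

noncomputable def v90 : Cov.CovD where
  P := 3
  N := 6
  pl := [1, 8, 9]
  lev := [⟨[], [], [], [4], [(0, 1, [3])]⟩,
    ⟨[], [(0, 1), (0, 3)], [], [4], [(2, 3, [1, 2])]⟩,
    ⟨[(0, 1)], [(0, 0), (0, 1), (0, 2), (1, 0), (1, 1), (1, 2), (1, 3)], [(0, 0), (0, 1),
      (0, 2), (1, 2)], [], [(0, 1, [3]), (3, 0, []), (4, 0, []), (5, 2, [3, 5, 6])]⟩,
    ⟨[(0, 1), (0, 2), (1, 2)], [(1, 0), (1, 3), (1, 5), (1, 6), (2, 0), (2, 1), (2, 2), (2,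
      3), (2, 5), (2, 6)], [(0, 3), (0, 5), (0, 6), (3, 5), (3, 6), (5, 6)], [], [(2, 3, [1,
      2]), (3, 0, []), (6, 5, [2]), (7, 6, [2])]⟩,
    ⟨[(0, 2), (1, 2), (2, 3)], [(2, 0), (2, 1), (2, 2), (3, 0)], [(0, 0)], [7, 8], [(3, 0,
      []), (4, 0, [])]⟩]
  Ta := [((3, 7), 0, 6), ((3, 8), 0, 7), ((4, 5), 0, 2), ((4, 9), 0, 8)]
  Tb := [((0, 1, 5), 1, 4, 2), ((1, 0, 2), 4, 1, 3), ((2, 1, 6), 3, 4, 5), ((3, 7, 8), 0, 6, 7),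
    ((4, 5, 9), 0, 2, 8), ((5, 0, 4), 2, 1, 0), ((6, 2, 7), 5, 3, 6), ((7, 3, 6), 6, 0, 5),
    ((8, 3, 9), 7, 0, 8), ((9, 4, 8), 8, 0, 7)]
  Tc := [(2, 3, 5), (2, 3, 6), (2, 5, 6), (3, 1, 2)]
  Td := [((1, 3), (0, 1), 4), ((1, 3), (0, 5), 2), ((2, 3), (5, 0), 1), ((2, 3), (5, 4), 0), ((2,
    5), (5, 0), 1), ((2, 5), (5, 4), 0), ((2, 6), (5, 0), 1), ((2, 6), (5, 4), 0), ((3, 1),
    (2, 1), 4), ((3, 1), (2, 6), 5), ((3, 2), (2, 1), 4), ((3, 2), (2, 6), 5), ((5, 2), (6,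
    2), 3), ((5, 2), (6, 7), 6), ((6, 2), (7, 3), 0), ((6, 2), (7, 6), 5)]
  G := [[0, 0xe246282cce241a, 0, 0xe282e2425, 0xe4826488c8868848e48f5], [0, 0xe248e284e281e,
    0x41a1ce18ce1425, 0xe242e2429, 0xe4826488c8868848e48f5]]

noncomputable def n90 : Ent := ⟨e90, noF, [], [], [(12, 13, [87897818358406171357428020359653357189577334862559918264321, 0])]⟩

def c90 : PLift (Cov.check n90.C.D v90 = true) := ⟨by decide +kernel⟩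

def b90 : PLift (entF (fidx ts) 400 90 n90 = true) := ⟨by decide +kernel⟩

theorem g90 : GoodF (fidx ts) 400 90 := GoodF.ofV v90 n90 c90.down b90.down

/-- 45874:94 -/
noncomputable def e91 : SCfg where
  D := {
    a := 5
    L := 10
    kp := 8
    inn := [(0, 1), (0, 2), (1, 0), (1, 2), (1, 3), (2, 0), (2, 1), (2, 3), (3, 1), (3, 2), (3, 4), (4,
      3)]
    mix := [(0, 0), (0, 1), (1, 1), (1, 2), (2, 0), (2, 3), (2, 4), (2, 5), (2, 6), (3, 2), (3, 3), (3,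
      7), (3, 8), (4, 7), (4, 8), (4, 9)]
    cl := [1, 2, 0, 3, 5, 6, 7, 3, 4, 8]
    chq := [(0, 1), (0, 5), (0, 6), (0, 7), (1, 0), (5, 0), (6, 0), (7, 0)]
    rng := [(0, 1), (0, 6), (1, 0), (1, 2), (2, 1), (2, 7), (3, 4), (3, 8), (4, 3), (4, 5), (5, 4), (5,
      6), (6, 0), (6, 5), (7, 2), (7, 9), (8, 3), (8, 9), (9, 7), (9, 8)]
    lev := [] }
  links := [[1, 2, 5, 6], [2, 0, 6, 7, 3], [5, 0, 1, 3, 8, 9, 10, 11], [8, 2, 1, 7, 12, 4, 13], [13, 3,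
    12, 14]]
  P := {
    a := 5
    N := 15
    nb := [102, 205, 3883, 12694, 28680, 2117, 163, 4170, 8716, 1284, 2564, 1060, 16536, 16664, 12304]
    tri := [(0, 1, 2), (0, 1, 6), (0, 2, 5), (0, 5, 6), (1, 2, 3), (1, 3, 7), (1, 6, 7), (2, 3, 8), (2,
      5, 11), (2, 8, 9), (2, 9, 10), (2, 10, 11), (3, 4, 12), (3, 4, 13), (3, 7, 12), (3, 8, 13),
      (4, 12, 14), (4, 13, 14)]
    fin := [0, 1, 1, 3, 3, 0, 6, 1, 3, 9, 10, 11, 3, 13, 14]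
    chd := [(0, 1), (1, 9), (1, 10), (1, 11)]
    steps := [(0, 5), (1, 2), (1, 7), (3, 4), (3, 12), (3, 8)] }
  rep := [1, 0, 6, 3, 13, 9, 10, 11, 14]

noncomputable def v91 : Cov.CovD where
  P := 3
  N := 6
  pl := [1, 8, 9]
  lev := [⟨[], [], [], [2], [(0, 1, [0])]⟩,
    ⟨[], [(0, 0), (0, 1)], [], [2], [(2, 0, [1, 5, 6, 7])]⟩,
    ⟨[(0, 1)], [(0, 1), (0, 3), (0, 5), (0, 6), (0, 7), (1, 0), (1, 1), (1, 3), (1, 5), (1,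
      6), (1, 7)], [(1, 3), (1, 5), (1, 6), (1, 7), (3, 5), (3, 6), (3, 7), (5, 6), (5, 7),
      (6, 7)], [], [(0, 1, [0]), (3, 3, []), (4, 5, [0]), (5, 6, [0]), (6, 7, [0])]⟩,
    ⟨[(0, 1), (0, 2), (1, 2)], [(1, 0), (1, 3), (2, 0), (2, 1), (2, 3), (2, 5), (2, 6), (2,
      7)], [(0, 3), (3, 3)], [4], [(2, 0, [1, 5, 6, 7]), (3, 3, []), (7, 3, [])]⟩,
    ⟨[(1, 3), (2, 3)], [(3, 0), (3, 3)], [], [4, 8], [(7, 3, [])]⟩]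
  Ta := [((3, 4), 3, 5), ((3, 8), 3, 4), ((7, 2), 3, 0), ((7, 9), 3, 8)]
  Tb := [((0, 1, 6), 1, 2, 7), ((1, 0, 2), 2, 1, 0), ((2, 1, 7), 0, 2, 3), ((3, 4, 8), 3, 5, 4),
    ((4, 3, 5), 5, 3, 6), ((5, 4, 6), 6, 5, 7), ((6, 0, 5), 7, 1, 6), ((7, 2, 9), 3, 0, 8),
    ((8, 3, 9), 4, 3, 8), ((9, 7, 8), 8, 3, 4)]
  Tc := [(0, 1, 5), (0, 1, 6), (0, 1, 7), (0, 5, 6), (0, 5, 7), (0, 6, 7)]
  Td := [((0, 1), (2, 1), 2), ((0, 1), (2, 7), 3), ((0, 5), (2, 1), 2), ((0, 5), (2, 7), 3), ((0,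
    6), (2, 1), 2), ((0, 6), (2, 7), 3), ((0, 7), (2, 1), 2), ((0, 7), (2, 7), 3), ((1, 0),
    (0, 1), 2), ((1, 0), (0, 6), 7), ((5, 0), (4, 3), 3), ((5, 0), (4, 5), 6), ((6, 0), (5,
    4), 5), ((6, 0), (5, 6), 7), ((7, 0), (6, 0), 1), ((7, 0), (6, 5), 6)]
  G := [[0, 0x653e184, 0x65ce184, 0x653e184, 0x9ace128], [0, 0x441913e1c8, 0x32195c1a4,
    0x54193a1c8, 0x5361981a8]]

noncomputable def n91 : Ent := ⟨e91, noF, [], [], []⟩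

def c91 : PLift (Cov.check n91.C.D v91 = true) := ⟨by decide +kernel⟩

def b91 : PLift (entF (fidx ts) 400 91 n91 = true) := ⟨by decide +kernel⟩

theorem g91 : GoodF (fidx ts) 400 91 := GoodF.ofV v91 n91 c91.down b91.down

/-- 45874:95 -/
noncomputable def e92 : SCfg where
  D := {
    a := 5
    L := 10
    kp := 8
    inn := [(0, 1), (0, 2), (1, 0), (1, 2), (1, 3), (2, 0), (2, 1), (2, 3), (3, 1), (3, 2), (3, 4), (4,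
      3)]
    mix := [(0, 0), (0, 1), (1, 1), (1, 2), (2, 0), (2, 3), (2, 4), (2, 5), (2, 6), (3, 2), (3, 3), (3,
      7), (3, 8), (4, 3), (4, 8), (4, 9)]
    cl := [1, 2, 0, 3, 5, 6, 7, 3, 4, 8]
    chq := [(0, 1), (0, 5), (0, 6), (0, 7), (1, 0), (5, 0), (6, 0), (7, 0)]
    rng := [(0, 1), (0, 6), (1, 0), (1, 2), (2, 1), (2, 7), (3, 4), (3, 9), (4, 3), (4, 5), (5, 4), (5,
      6), (6, 0), (6, 5), (7, 2), (7, 8), (8, 7), (8, 9), (9, 3), (9, 8)]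
    lev := [] }
  links := [[1, 2, 5, 6], [2, 0, 6, 7, 3], [5, 0, 1, 3, 8, 9, 10, 11], [8, 2, 1, 7, 12, 13, 4], [8, 3,
    13, 14]]
  P := {
    a := 5
    N := 15
    nb := [102, 205, 3883, 12694, 24840, 2117, 163, 4170, 16924, 1284, 2564, 1060, 8328, 20504, 8464]
    tri := [(0, 1, 2), (0, 1, 6), (0, 2, 5), (0, 5, 6), (1, 2, 3), (1, 3, 7), (1, 6, 7), (2, 3, 8), (2,
      5, 11), (2, 8, 9), (2, 9, 10), (2, 10, 11), (3, 4, 8), (3, 4, 13), (3, 7, 12), (3, 12, 13),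
      (4, 8, 14), (4, 13, 14)]
    fin := [0, 1, 1, 3, 3, 0, 6, 1, 3, 9, 10, 11, 3, 13, 14]
    chd := [(0, 1), (1, 9), (1, 10), (1, 11)]
    steps := [(0, 5), (1, 2), (1, 7), (3, 4), (3, 12), (3, 8)] }
  rep := [1, 0, 6, 3, 13, 9, 10, 11, 14]

noncomputable def v92 : Cov.CovD where
  P := 3
  N := 6
  pl := [1, 8, 9]
  lev := [⟨[], [], [], [2], [(0, 1, [0])]⟩,
    ⟨[], [(0, 0), (0, 1)], [], [2], [(2, 0, [1, 5, 6, 7])]⟩,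
    ⟨[(0, 1)], [(0, 1), (0, 3), (0, 5), (0, 6), (0, 7), (1, 0), (1, 1), (1, 3), (1, 5), (1,
      6), (1, 7)], [(1, 3), (1, 5), (1, 6), (1, 7), (3, 5), (3, 6), (3, 7), (5, 6), (5, 7),
      (6, 7)], [], [(0, 1, [0]), (3, 3, []), (4, 5, [0]), (5, 6, [0]), (6, 7, [0])]⟩,
    ⟨[(0, 1), (0, 2), (1, 2)], [(1, 0), (1, 3), (2, 0), (2, 1), (2, 3), (2, 5), (2, 6), (2,
      7)], [(0, 3), (3, 3)], [4], [(2, 0, [1, 5, 6, 7]), (3, 3, []), (7, 3, [])]⟩,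
    ⟨[(1, 3), (2, 3)], [(2, 3), (3, 0), (3, 3)], [], [4, 8], [(3, 3, [])]⟩]
  Ta := [((3, 4), 3, 5), ((3, 9), 3, 8), ((7, 2), 3, 0), ((7, 8), 3, 4)]
  Tb := [((0, 1, 6), 1, 2, 7), ((1, 0, 2), 2, 1, 0), ((2, 1, 7), 0, 2, 3), ((3, 4, 9), 3, 5, 8),
    ((4, 3, 5), 5, 3, 6), ((5, 4, 6), 6, 5, 7), ((6, 0, 5), 7, 1, 6), ((7, 2, 8), 3, 0, 4),
    ((8, 7, 9), 4, 3, 8), ((9, 3, 8), 8, 3, 4)]
  Tc := [(0, 1, 5), (0, 1, 6), (0, 1, 7), (0, 5, 6), (0, 5, 7), (0, 6, 7)]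
  Td := [((0, 1), (2, 1), 2), ((0, 1), (2, 7), 3), ((0, 5), (2, 1), 2), ((0, 5), (2, 7), 3), ((0,
    6), (2, 1), 2), ((0, 6), (2, 7), 3), ((0, 7), (2, 1), 2), ((0, 7), (2, 7), 3), ((1, 0),
    (0, 1), 2), ((1, 0), (0, 6), 7), ((5, 0), (4, 3), 3), ((5, 0), (4, 5), 6), ((6, 0), (5,
    4), 5), ((6, 0), (5, 6), 7), ((7, 0), (6, 0), 1), ((7, 0), (6, 5), 6)]
  G := [[0, 0x5361981c4, 0x5361981c8, 0x5361981c8, 0x5361981a8], [0, 0x653e184, 0x9a3e148,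
    0x54193a1c4, 0x6ace128]]

noncomputable def n92 : Ent := ⟨e92, noF, [], [], []⟩

def c92 : PLift (Cov.check n92.C.D v92 = true) := ⟨by decide +kernel⟩

def b92 : PLift (entF (fidx ts) 400 92 n92 = true) := ⟨by decide +kernel⟩

theorem g92 : GoodF (fidx ts) 400 92 := GoodF.ofV v92 n92 c92.down b92.down

/-- 48454:96/1 -/
noncomputable def e93 : SCfg where
  D := {
    a := 5
    L := 8
    kp := 5
    inn := [(0, 1), (1, 0), (1, 2), (1, 3), (2, 1), (3, 1), (3, 4), (4, 3)]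
    mix := [(0, 0), (0, 1), (0, 2), (1, 0), (1, 2), (1, 3), (1, 4), (1, 5), (2, 3), (2, 4), (2, 6), (3,
      4), (3, 5), (3, 7), (4, 4), (4, 6), (4, 7)]
    cl := [1, 5, 2, 1, 0, 0, 3, 4]
    chq := []
    rng := [(0, 1), (0, 5), (1, 0), (1, 2), (2, 1), (2, 3), (3, 2), (3, 6), (4, 6), (5, 0), (5, 7), (6,
      3), (6, 4), (6, 7), (7, 5), (7, 6)]
    lev := [] }
  links := [[1, 5, 6, 7], [5, 0, 7, 8, 2, 9, 3, 10], [9, 1, 8, 11], [10, 1, 9, 4, 12], [12, 3, 9, 11]]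
  P := {
    a := 5
    N := 13
    nb := [226, 1965, 2818, 5650, 6664, 1091, 161, 323, 2182, 2078, 4138, 4884, 3096]
    tri := [(0, 1, 5), (0, 1, 7), (0, 5, 6), (0, 6, 7), (1, 2, 8), (1, 2, 9), (1, 3, 9), (1, 3, 10),
      (1, 5, 10), (1, 7, 8), (2, 8, 11), (2, 9, 11), (3, 4, 9), (3, 4, 12), (3, 10, 12), (4, 9,
      11), (4, 11, 12)]
    fin := [0, 0, 0, 3, 4, 0, 6, 7, 0, 3, 3, 4, 12]
    chd := []
    steps := [(0, 1), (0, 2), (0, 5), (0, 8), (3, 9), (3, 10), (4, 11)] }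
  rep := [3, 0, 7, 4, 12, 6]

noncomputable def v93 : Cov.CovD where
  P := 3
  N := 3
  pl := [1, 2, 6, 7]
  lev := [⟨[], [], [], [2, 5], [(0, 1, [])]⟩,
    ⟨[], [(0, 0), (0, 1)], [(0, 0), (0, 1), (1, 1)], [2], [(0, 1, []), (3, 1, []), (4, 0,
      []), (5, 0, [])]⟩,
    ⟨[(0, 1)], [(1, 0), (1, 1)], [(0, 1)], [3], [(3, 1, []), (4, 0, [])]⟩,
    ⟨[(0, 1), (1, 2)], [(1, 0), (1, 1), (2, 0)], [(0, 0)], [4], [(4, 0, []), (5, 0, [])]⟩,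
    ⟨[(1, 3)], [(1, 0), (2, 0), (3, 0)], [], [3, 4], [(4, 0, [])]⟩]
  Ta := [((0, 1), 1, 5), ((0, 5), 1, 0), ((3, 2), 1, 2), ((3, 6), 1, 3), ((4, 6), 0, 3), ((5, 0),
    0, 1), ((5, 7), 0, 4)]
  Tb := [((0, 1, 5), 1, 5, 0), ((1, 0, 2), 5, 1, 2), ((2, 1, 3), 2, 5, 1), ((3, 2, 6), 1, 2, 3),
    ((5, 0, 7), 0, 1, 4), ((6, 3, 4), 3, 1, 0), ((6, 3, 7), 3, 1, 4), ((6, 4, 7), 3, 0, 4),
    ((7, 5, 6), 4, 0, 3)]
  Tc := []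
  Td := []
  G := [[0, 0, 0xc2628c2a24c, 0, 0xc2628c26289], [0, 0, 0x82a46ac42, 0x82c42ac482624cc89,
    0x8264a6c82], [0, 0x81611668116126a8c, 0x1262812c28c, 0, 0x14223821c289], [0, 0,
    0xca6182, 0xc2618c2618c, 0xca6182]]

noncomputable def n93 : Ent := ⟨e93, noF, [], [], []⟩

def c93 : PLift (Cov.check n93.C.D v93 = true) := ⟨by decide +kernel⟩

def b93 : PLift (entF (fidx ts) 400 93 n93 = true) := ⟨by decide +kernel⟩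

theorem g93 : GoodF (fidx ts) 400 93 := GoodF.ofV v93 n93 c93.down b93.down

/-- 48454:96 -/
noncomputable def e94 : SCfg where
  D := {
    a := 5
    L := 9
    kp := 6
    inn := [(0, 1), (1, 0), (1, 2), (1, 3), (2, 1), (3, 1), (3, 4), (4, 3)]
    mix := [(0, 0), (0, 1), (0, 2), (1, 0), (1, 2), (1, 3), (1, 4), (1, 5), (2, 3), (2, 4), (2, 6), (3,
      4), (3, 5), (3, 7), (4, 4), (4, 7), (4, 8)]
    cl := [1, 4, 2, 1, 0, 0, 5, 3, 6]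
    chq := []
    rng := [(0, 1), (0, 5), (1, 0), (1, 2), (2, 1), (2, 3), (3, 2), (3, 6), (4, 6), (4, 8), (5, 0), (5,
      7), (6, 3), (6, 4), (7, 5), (7, 8), (8, 4), (8, 7)]
    lev := [] }
  links := [[1, 5, 6, 7], [5, 0, 7, 8, 2, 9, 3, 10], [9, 1, 8, 11], [10, 1, 9, 4, 12], [12, 3, 9, 13]]
  P := {
    a := 5
    N := 14
    nb := [226, 1965, 2818, 5650, 12808, 1091, 161, 323, 2182, 10270, 4138, 772, 9240, 4624]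
    tri := [(0, 1, 5), (0, 1, 7), (0, 5, 6), (0, 6, 7), (1, 2, 8), (1, 2, 9), (1, 3, 9), (1, 3, 10),
      (1, 5, 10), (1, 7, 8), (2, 8, 11), (2, 9, 11), (3, 4, 9), (3, 4, 12), (3, 10, 12), (4, 9,
      13), (4, 12, 13)]
    fin := [0, 0, 0, 3, 3, 0, 6, 7, 0, 3, 3, 11, 12, 13]
    chd := []
    steps := [(0, 1), (0, 2), (0, 5), (0, 8), (3, 4), (3, 9), (3, 10)] }
  rep := [3, 0, 7, 12, 6, 11, 13]

noncomputable def v94 : Cov.CovD where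
  P := 3
  N := 4
  pl := [1, 2, 6, 7, 8]
  lev := [⟨[], [], [], [2, 4], [(0, 1, [])]⟩,
    ⟨[], [(0, 0), (0, 1)], [(0, 0), (0, 1), (1, 1)], [2], [(0, 1, []), (3, 1, []), (4, 0,
      []), (5, 0, [])]⟩,
    ⟨[(0, 1)], [(1, 0), (1, 1)], [(0, 1)], [5], [(3, 1, []), (4, 0, [])]⟩,
    ⟨[(0, 1), (1, 2)], [(1, 0), (1, 1), (2, 0)], [(0, 0)], [3], [(4, 0, []), (5, 0, [])]⟩,
    ⟨[(1, 3)], [(1, 0), (2, 0), (3, 0)], [], [3, 6], [(4, 0, [])]⟩]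
  Ta := [((0, 1), 1, 4), ((0, 5), 1, 0), ((3, 2), 1, 2), ((3, 6), 1, 5), ((4, 6), 0, 5), ((4, 8),
    0, 6), ((5, 0), 0, 1), ((5, 7), 0, 3)]
  Tb := [((0, 1, 5), 1, 4, 0), ((1, 0, 2), 4, 1, 2), ((2, 1, 3), 2, 4, 1), ((3, 2, 6), 1, 2, 5),
    ((4, 6, 8), 0, 5, 6), ((5, 0, 7), 0, 1, 3), ((6, 3, 4), 5, 1, 0), ((7, 5, 8), 3, 0, 6),
    ((8, 4, 7), 6, 0, 3)]
  Tc := []
  Td := []
  G := [[0, 0, 0xc6a24ca628c, 0, 0xca628ca6289], [0, 0, 0xc6ac6ac42, 0xc6ac6ac4c6ac6ac49,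
    0xca6ca6c82], [0, 0x181214e411611ac8c, 0xca61816c28c, 0, 0xc162816c289], [0, 0, 0xca6182,
    0xc6a14ca6189, 0xca6182]]

noncomputable def n94 : Ent := ⟨e94, noF, [], [], [(11, 13, [18394062992640663726968434746027364144358640063418322945, 0])]⟩

def c94 : PLift (Cov.check n94.C.D v94 = true) := ⟨by decide +kernel⟩

def b94 : PLift (entF (fidx ts) 400 94 n94 = true) := ⟨by decide +kernel⟩

theorem g94 : GoodF (fidx ts) 400 94 := GoodF.ofV v94 n94 c94.down b94.down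

/-- 48454:97 -/
noncomputable def e95 : SCfg where
  D := {
    a := 5
    L := 9
    kp := 6
    inn := [(0, 1), (1, 0), (1, 2), (1, 3), (2, 1), (3, 1), (3, 4), (4, 3)]
    mix := [(0, 0), (0, 1), (0, 2), (1, 0), (1, 2), (1, 3), (1, 4), (1, 5), (2, 3), (2, 4), (2, 6), (3,
      4), (3, 5), (3, 7), (4, 5), (4, 7), (4, 8)]
    cl := [1, 4, 2, 1, 0, 0, 5, 3, 6]
    chq := []
    rng := [(0, 1), (0, 5), (1, 0), (1, 2), (2, 1), (2, 3), (3, 2), (3, 6), (4, 6), (4, 7), (5, 0), (5,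
      8), (6, 3), (6, 4), (7, 4), (7, 8), (8, 5), (8, 7)]
    lev := [] }
  links := [[1, 5, 6, 7], [5, 0, 7, 8, 2, 9, 3, 10], [9, 1, 8, 11], [10, 1, 9, 12, 4], [10, 3, 12, 13]]
  P := {
    a := 5
    N := 14
    nb := [226, 1965, 2818, 5650, 13320, 1091, 161, 323, 2182, 6158, 8250, 772, 8728, 5136]
    tri := [(0, 1, 5), (0, 1, 7), (0, 5, 6), (0, 6, 7), (1, 2, 8), (1, 2, 9), (1, 3, 9), (1, 3, 10),
      (1, 5, 10), (1, 7, 8), (2, 8, 11), (2, 9, 11), (3, 4, 10), (3, 4, 12), (3, 9, 12), (4, 10,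
      13), (4, 12, 13)]
    fin := [0, 0, 0, 3, 3, 0, 6, 7, 0, 3, 3, 11, 12, 13]
    chd := []
    steps := [(0, 1), (0, 2), (0, 5), (0, 8), (3, 4), (3, 9), (3, 10)] }
  rep := [3, 0, 7, 12, 6, 11, 13]

noncomputable def v95 : Cov.CovD where
  P := 3
  N := 4
  pl := [1, 2, 6, 7, 8]
  lev := [⟨[], [], [], [2, 4], [(0, 1, [])]⟩,
    ⟨[], [(0, 0), (0, 1)], [(0, 0), (0, 1), (1, 1)], [2], [(0, 1, []), (3, 1, []), (4, 0,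
      []), (5, 0, [])]⟩,
    ⟨[(0, 1)], [(1, 0), (1, 1)], [(0, 1)], [5], [(3, 1, []), (4, 0, [])]⟩,
    ⟨[(0, 1), (1, 2)], [(1, 0), (1, 1), (2, 0)], [(0, 0)], [3], [(4, 0, []), (5, 0, [])]⟩,
    ⟨[(1, 3)], [(1, 0), (3, 0)], [], [3, 6], [(5, 0, [])]⟩]
  Ta := [((0, 1), 1, 4), ((0, 5), 1, 0), ((3, 2), 1, 2), ((3, 6), 1, 5), ((4, 6), 0, 5), ((4, 7),
    0, 3), ((5, 0), 0, 1), ((5, 8), 0, 6)]
  Tb := [((0, 1, 5), 1, 4, 0), ((1, 0, 2), 4, 1, 2), ((2, 1, 3), 2, 4, 1), ((3, 2, 6), 1, 2, 5),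
    ((4, 6, 7), 0, 5, 3), ((5, 0, 8), 0, 1, 6), ((6, 3, 4), 5, 1, 0), ((7, 4, 8), 3, 0, 6),
    ((8, 5, 7), 6, 0, 3)]
  Tc := []
  Td := []
  G := [[0, 0, 0xc1a2416a24c, 0, 0xc162853a289], [0, 0, 0xa1cc1ac42, 0x1a695ac4c1635cc8c,
    0x59671ac82], [0, 0xca62c6a4cca62c6a8cc, 0xc6a24ca618c, 0, 0xca618ca6289], [0, 0,
    0xc6a142, 0xca618ca6185, 0xca6182]]

noncomputable def n95 : Ent := ⟨e95, noF, [], [], []⟩

def c95 : PLift (Cov.check n95.C.D v95 = true) := ⟨by decide +kernel⟩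

def b95 : PLift (entF (fidx ts) 400 95 n95 = true) := ⟨by decide +kernel⟩

theorem g95 : GoodF (fidx ts) 400 95 := GoodF.ofV v95 n95 c95.down b95.down

/-- 45854:98/1 -/
noncomputable def e96 : SCfg where
  D := {
    a := 5
    L := 7
    kp := 5
    inn := [(0, 1), (0, 2), (1, 0), (1, 2), (2, 0), (2, 1), (2, 3), (2, 4), (3, 2), (3, 4), (4, 2), (4,
      3)]
    mix := [(0, 0), (0, 1), (1, 1), (1, 2), (1, 3), (2, 0), (2, 3), (2, 4), (2, 5), (3, 2), (3, 3), (3,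
      6), (4, 4), (4, 6)]
    cl := [0, 2, 1, 0, 3, 5, 4]
    chq := [(1, 3), (1, 5), (3, 1), (5, 1)]
    rng := [(0, 1), (0, 5), (1, 0), (1, 2), (2, 1), (2, 3), (2, 6), (3, 2), (4, 5), (4, 6), (5, 0), (5,
      4), (6, 2), (6, 4)]
    lev := [] }
  links := [[1, 2, 5, 6], [2, 0, 6, 7, 8], [5, 0, 1, 8, 3, 4, 9, 10], [4, 2, 8, 7, 11], [9, 2, 3, 11]]
  P := {
    a := 5
    N := 12
    nb := [102, 453, 1851, 2452, 2572, 1093, 163, 2378, 142, 3092, 548, 664]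
    tri := [(0, 1, 2), (0, 1, 6), (0, 2, 5), (0, 5, 6), (1, 2, 8), (1, 6, 7), (1, 7, 8), (2, 3, 4), (2,
      3, 8), (2, 4, 9), (2, 5, 10), (2, 9, 10), (3, 4, 11), (3, 7, 8), (3, 7, 11), (4, 9, 11)]
    fin := [0, 0, 2, 2, 2, 0, 6, 2, 0, 9, 10, 11]
    chd := [(2, 9), (2, 10)]
    steps := [(0, 1), (0, 5), (0, 8), (2, 3), (2, 4), (2, 7)] }
  rep := [0, 2, 6, 9, 11, 10]

noncomputable def v96 : Cov.CovD where
  P := 3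
  N := 3
  pl := [1, 6]
  lev := [⟨[], [], [], [2], [(0, 0, [])]⟩,
    ⟨[], [(0, 0), (0, 1)], [(0, 1)], [2], [(2, 1, [3, 5]), (3, 0, [])]⟩,
    ⟨[(0, 1)], [(0, 0), (0, 3), (0, 5), (1, 0), (1, 1), (1, 3), (1, 5)], [(0, 0), (0, 3),
      (0, 5), (3, 5)], [], [(0, 0, []), (3, 0, []), (4, 3, [1]), (5, 5, [1])]⟩,
    ⟨[(0, 2), (1, 2)], [(1, 0), (1, 1), (2, 0), (2, 1), (2, 3), (2, 5)], [(0, 1)], [4],
      [(2, 1, [3, 5]), (3, 0, [])]⟩,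
    ⟨[(0, 2), (1, 2), (2, 3)], [(2, 0), (2, 3), (2, 5), (3, 0), (3, 1), (3, 3)], [], [4],
      [(4, 3, [1])]⟩]
  Ta := [((0, 1), 0, 2), ((0, 5), 0, 5), ((3, 2), 0, 1)]
  Tb := [((0, 1, 5), 0, 2, 5), ((1, 0, 2), 2, 0, 1), ((2, 1, 3), 1, 2, 0), ((2, 1, 6), 1, 2, 4),
    ((2, 3, 6), 1, 0, 4), ((4, 5, 6), 3, 5, 4), ((5, 0, 4), 5, 0, 3), ((6, 2, 4), 4, 1, 3)]
  Tc := [(1, 3, 5)]
  Td := [((1, 3), (2, 1), 2), ((1, 3), (2, 3), 0), ((1, 3), (2, 6), 4), ((1, 5), (2, 1), 2), ((1,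
    5), (2, 3), 0), ((1, 5), (2, 6), 4), ((3, 1), (4, 5), 5), ((3, 1), (4, 6), 4), ((5, 1),
    (5, 0), 0), ((5, 1), (5, 4), 3)]
  G := [[0, 0, 0x95c244, 0x22c284, 0x95c218], [0, 0x18611a11ce41, 0, 0x22c241, 0x95c281]]

noncomputable def n96 : Ent := ⟨e96, noF, [], [], []⟩

def c96 : PLift (Cov.check n96.C.D v96 = true) := ⟨by decide +kernel⟩

def b96 : PLift (entF (fidx ts) 400 96 n96 = true) := ⟨by decide +kernel⟩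

theorem g96 : GoodF (fidx ts) 400 96 := GoodF.ofV v96 n96 c96.down b96.down

/-- 45854:98 -/
noncomputable def e97 : SCfg where
  D := {
    a := 5
    L := 8
    kp := 6
    inn := [(0, 1), (0, 2), (1, 0), (1, 2), (2, 0), (2, 1), (2, 3), (2, 4), (3, 2), (3, 4), (4, 2), (4,
      3)]
    mix := [(0, 0), (0, 1), (1, 1), (1, 2), (1, 3), (2, 0), (2, 3), (2, 4), (2, 5), (3, 3), (3, 6), (3,
      7), (4, 4), (4, 7)]
    cl := [0, 1, 6, 0, 3, 5, 2, 4]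
    chq := [(2, 3), (2, 5), (3, 2), (5, 2)]
    rng := [(0, 1), (0, 5), (1, 0), (1, 2), (2, 1), (2, 3), (3, 2), (3, 6), (4, 5), (4, 7), (5, 0), (5,
      4), (6, 3), (6, 7), (7, 4), (7, 6)]
    lev := [] }
  links := [[1, 2, 5, 6], [2, 0, 6, 7, 8], [5, 0, 1, 8, 3, 4, 9, 10], [4, 2, 8, 11, 12], [9, 2, 3, 12]]
  P := {
    a := 5
    N := 13
    nb := [102, 453, 1851, 6420, 4620, 1093, 163, 322, 2190, 5140, 548, 4360, 2584]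
    tri := [(0, 1, 2), (0, 1, 6), (0, 2, 5), (0, 5, 6), (1, 2, 8), (1, 6, 7), (1, 7, 8), (2, 3, 4), (2,
      3, 8), (2, 4, 9), (2, 5, 10), (2, 9, 10), (3, 4, 12), (3, 8, 11), (3, 11, 12), (4, 9, 12)]
    fin := [0, 0, 2, 2, 2, 0, 6, 7, 0, 9, 10, 2, 12]
    chd := [(9, 2), (10, 2)]
    steps := [(0, 1), (0, 5), (0, 8), (2, 3), (2, 4), (2, 11)] }
  rep := [0, 6, 2, 9, 12, 10, 7]

noncomputable def v97 : Cov.CovD where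
  P := 3
  N := 4
  pl := [1, 2, 7]
  lev := [⟨[], [], [], [1], [(0, 0, [])]⟩,
    ⟨[], [(0, 0)], [], [1, 6], [(3, 0, [])]⟩,
    ⟨[(0, 1)], [(0, 0), (0, 3), (0, 5), (1, 0), (1, 3), (1, 5)], [(0, 0), (0, 3), (0, 5),
      (3, 5)], [], [(0, 0, []), (3, 0, []), (4, 3, [2]), (5, 5, [2])]⟩,
    ⟨[(0, 2), (1, 2)], [(1, 0), (2, 0), (2, 2), (2, 3), (2, 5)], [(0, 2)], [4], [(3, 0,
      []), (6, 2, [3, 5])]⟩,
    ⟨[(0, 2), (1, 2), (2, 3)], [(2, 0), (2, 3), (2, 5), (3, 0), (3, 2), (3, 3)], [], [4],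
      [(4, 3, [2])]⟩]
  Ta := [((0, 1), 0, 1), ((0, 5), 0, 5), ((3, 2), 0, 6), ((3, 6), 0, 2)]
  Tb := [((0, 1, 5), 0, 1, 5), ((1, 0, 2), 1, 0, 6), ((2, 1, 3), 6, 1, 0), ((3, 2, 6), 0, 6, 2),
    ((4, 5, 7), 3, 5, 4), ((5, 0, 4), 5, 0, 3), ((6, 3, 7), 2, 0, 4), ((7, 4, 6), 4, 3, 2)]
  Tc := [(2, 3, 5)]
  Td := [((2, 3), (6, 3), 0), ((2, 3), (6, 7), 4), ((2, 5), (6, 3), 0), ((2, 5), (6, 7), 4), ((3,
    2), (4, 5), 5), ((3, 2), (4, 7), 4), ((5, 2), (5, 0), 0), ((5, 2), (5, 4), 3)]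
  G := [[0, 0x95c295c2c4, 0, 0x95c214, 0x93a418], [0, 0, 0x11611c11ae11c11a11cec1, 0x95c295c2c8,
    0x93a414693ab4ec8]]

noncomputable def n97 : Ent := ⟨e97, noF, [], [], [(7, 11, [4490646669154137815330563540829309386802515929333761, 0])]⟩

def c97 : PLift (Cov.check n97.C.D v97 = true) := ⟨by decide +kernel⟩

def b97 : PLift (entF (fidx ts) 400 97 n97 = true) := ⟨by decide +kernel⟩

theorem g97 : GoodF (fidx ts) 400 97 := GoodF.ofV v97 n97 c97.down b97.down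

/-- 45855:99 -/
noncomputable def e98 : SCfg where
  D := {
    a := 5
    L := 10
    kp := 7
    inn := [(0, 1), (0, 2), (1, 0), (1, 2), (2, 0), (2, 1), (2, 3), (2, 4), (3, 2), (4, 2)]
    mix := [(0, 0), (0, 1), (1, 1), (1, 2), (1, 3), (2, 0), (2, 3), (2, 4), (2, 5), (3, 3), (3, 4), (3,
      6), (3, 7), (4, 4), (4, 5), (4, 8), (4, 9)]
    cl := [1, 2, 3, 0, 0, 0, 4, 5, 6, 7]
    chq := [(1, 3), (3, 1)]
    rng := [(0, 1), (0, 5), (1, 0), (1, 2), (2, 1), (2, 3), (3, 2), (3, 6), (4, 7), (4, 8), (5, 0), (5,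
      9), (6, 3), (6, 7), (7, 4), (7, 6), (8, 4), (8, 9), (9, 5), (9, 8)]
    lev := [] }
  links := [[1, 2, 5, 6], [2, 0, 6, 7, 8], [5, 0, 1, 8, 3, 9, 4, 10], [9, 2, 8, 11, 12], [10, 2, 9, 13,
    14]]
  P := {
    a := 5
    N := 15
    nb := [102, 453, 1851, 6916, 26116, 1093, 163, 322, 2190, 12316, 16436, 4360, 2568, 16912, 9232]
    tri := [(0, 1, 2), (0, 1, 6), (0, 2, 5), (0, 5, 6), (1, 2, 8), (1, 6, 7), (1, 7, 8), (2, 3, 8), (2,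
      3, 9), (2, 4, 9), (2, 4, 10), (2, 5, 10), (3, 8, 11), (3, 9, 12), (3, 11, 12), (4, 9, 13),
      (4, 10, 14), (4, 13, 14)]
    fin := [0, 0, 0, 3, 3, 0, 6, 7, 3, 3, 3, 11, 12, 13, 14]
    chd := [(0, 7)]
    steps := [(0, 1), (0, 2), (0, 5), (3, 8), (3, 9), (3, 4), (3, 10)] }
  rep := [3, 0, 6, 7, 11, 12, 13, 14]

noncomputable def v98 : Cov.CovD where
  P := 3
  N := 5
  pl := [1, 6, 7, 8, 9]
  lev := [⟨[], [], [], [2], [(0, 1, [3])]⟩,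
    ⟨[], [(0, 0), (0, 1), (0, 3)], [(0, 3)], [2], [(2, 3, [1]), (3, 0, [])]⟩,
    ⟨[(0, 1)], [(0, 0), (0, 1), (1, 0), (1, 1), (1, 3)], [(0, 0), (0, 1)], [], [(0, 1,
      [3]), (3, 0, []), (4, 0, []), (5, 0, [])]⟩,
    ⟨[(0, 2), (1, 2)], [(1, 0), (2, 0), (2, 1)], [(0, 0)], [4, 5], [(3, 0, []), (4, 0,
      [])]⟩,
    ⟨[(0, 2), (1, 2), (2, 3)], [(2, 0), (2, 1), (3, 0)], [(0, 0)], [6, 7], [(4, 0, []), (5,
      0, [])]⟩]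
  Ta := [((3, 2), 0, 3), ((3, 6), 0, 4), ((4, 7), 0, 5), ((4, 8), 0, 6), ((5, 0), 0, 1), ((5, 9),
    0, 7)]
  Tb := [((0, 1, 5), 1, 2, 0), ((1, 0, 2), 2, 1, 3), ((2, 1, 3), 3, 2, 0), ((3, 2, 6), 0, 3, 4),
    ((4, 7, 8), 0, 5, 6), ((5, 0, 9), 0, 1, 7), ((6, 3, 7), 4, 0, 5), ((7, 4, 6), 5, 0, 4),
    ((8, 4, 9), 6, 0, 7), ((9, 5, 8), 7, 0, 6)]
  Tc := []
  Td := [((1, 3), (0, 1), 2), ((1, 3), (0, 5), 0), ((3, 1), (2, 1), 2), ((3, 1), (2, 3), 0)]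
  G := [[0, 0, 0x6eee88c24, 0xeaee4a8a4c4484e6e8cc, 0xe4eeac21], [0, 0, 0x64e8eec28,
    0x64e8eec18, 0x44eaeec18], [0, 0xe2eec618, 0x44eaeec28, 0x64e8eec18, 0x44eaeec21]]

noncomputable def n98 : Ent := ⟨e98, noF, [], [], []⟩

def c98 : PLift (Cov.check n98.C.D v98 = true) := ⟨by decide +kernel⟩

def b98 : PLift (entF (fidx ts) 400 98 n98 = true) := ⟨by decide +kernel⟩

theorem g98 : GoodF (fidx ts) 400 98 := GoodF.ofV v98 n98 c98.down b98.down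

/-- 45854:100/1 -/
noncomputable def e99 : SCfg where
  D := {
    a := 5
    L := 8
    kp := 5
    inn := [(0, 1), (0, 2), (1, 0), (1, 2), (2, 0), (2, 1), (2, 3), (2, 4), (3, 2), (4, 2)]
    mix := [(0, 0), (0, 1), (1, 1), (1, 2), (1, 3), (2, 0), (2, 3), (2, 4), (2, 5), (3, 2), (3, 3), (3,
      4), (3, 6), (4, 0), (4, 5), (4, 7)]
    cl := [0, 1, 3, 0, 0, 2, 4, 5]
    chq := []
    rng := [(0, 1), (0, 7), (1, 0), (1, 2), (2, 1), (2, 3), (2, 6), (3, 2), (4, 5), (4, 6), (5, 4), (5,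
      7), (6, 2), (6, 4), (7, 0), (7, 5)]
    lev := [] }
  links := [[1, 2, 5, 6], [2, 0, 6, 7, 8], [5, 0, 1, 8, 3, 9, 10, 4], [9, 2, 8, 7, 11], [5, 2, 10, 12]]
  P := {
    a := 5
    N := 13
    nb := [102, 453, 1851, 2948, 5156, 4181, 163, 2378, 142, 3084, 4628, 648, 1072]
    tri := [(0, 1, 2), (0, 1, 6), (0, 2, 5), (0, 5, 6), (1, 2, 8), (1, 6, 7), (1, 7, 8), (2, 3, 8), (2,
      3, 9), (2, 4, 5), (2, 4, 10), (2, 9, 10), (3, 7, 8), (3, 7, 11), (3, 9, 11), (4, 5, 12), (4,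
      10, 12)]
    fin := [0, 0, 0, 0, 0, 0, 6, 7, 0, 0, 10, 11, 12]
    chd := []
    steps := [(0, 1), (0, 2), (0, 4), (0, 5), (0, 8), (0, 3), (0, 9)] }
  rep := [0, 6, 10, 7, 11, 12]

noncomputable def v99 : Cov.CovD where
  P := 3
  N := 3
  pl := [1, 2, 5, 6, 7]
  lev := [⟨[], [], [], [1], [(0, 0, [])]⟩,
    ⟨[], [(0, 0)], [], [1, 3], [(3, 0, [])]⟩,
    ⟨[(0, 1)], [(0, 0), (1, 0)], [(0, 0)], [2], [(0, 0, []), (3, 0, []), (4, 0, [])]⟩,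
    ⟨[(0, 2), (1, 2)], [(1, 0), (2, 0)], [(0, 0)], [3, 4], [(3, 0, []), (4, 0, [])]⟩,
    ⟨[(0, 2), (1, 2), (2, 3)], [(0, 0), (2, 0)], [], [2, 5], [(0, 0, [])]⟩]
  Ta := [((0, 1), 0, 1), ((0, 7), 0, 5), ((3, 2), 0, 3), ((4, 5), 0, 2), ((4, 6), 0, 4)]
  Tb := [((0, 1, 7), 0, 1, 5), ((1, 0, 2), 1, 0, 3), ((2, 1, 3), 3, 1, 0), ((2, 1, 6), 3, 1, 4),
    ((2, 3, 6), 3, 0, 4), ((4, 5, 6), 0, 2, 4), ((5, 4, 7), 2, 0, 5), ((6, 2, 4), 4, 3, 0),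
    ((7, 0, 5), 5, 0, 2)]
  Tc := []
  Td := []
  G := [[0, 0xcca4cc68c2, 0, 0x44c8cec18, 0x22aa8ea18], [0, 0, 0, 0x11a41168c8, 0x11a21162c4],
    [0, 0, 0x66ae814, 0x111e814, 0x111e214]]

noncomputable def n99 : Ent := ⟨e99, noF, [], [], []⟩

def c99 : PLift (Cov.check n99.C.D v99 = true) := ⟨by decide +kernel⟩

def b99 : PLift (entF (fidx ts) 400 99 n99 = true) := ⟨by decide +kernel⟩

theorem g99 : GoodF (fidx ts) 400 99 := GoodF.ofV v99 n99 c99.down b99.down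

/-- 45854:100 -/
noncomputable def e100 : SCfg where
  D := {
    a := 5
    L := 9
    kp := 6
    inn := [(0, 1), (0, 2), (1, 0), (1, 2), (2, 0), (2, 1), (2, 3), (2, 4), (3, 2), (4, 2)]
    mix := [(0, 0), (0, 1), (1, 1), (1, 2), (1, 3), (2, 0), (2, 3), (2, 4), (2, 5), (3, 3), (3, 4), (3,
      6), (3, 7), (4, 0), (4, 5), (4, 8)]
    cl := [0, 1, 3, 0, 0, 2, 4, 5, 6]
    chq := []
    rng := [(0, 1), (0, 8), (1, 0), (1, 2), (2, 1), (2, 3), (3, 2), (3, 6), (4, 5), (4, 7), (5, 4), (5,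
      8), (6, 3), (6, 7), (7, 4), (7, 6), (8, 0), (8, 5)]
    lev := [] }
  links := [[1, 2, 5, 6], [2, 0, 6, 7, 8], [5, 0, 1, 8, 3, 9, 10, 4], [9, 2, 8, 11, 12], [5, 2, 10, 13]]
  P := {
    a := 5
    N := 14
    nb := [102, 453, 1851, 6916, 9252, 8277, 163, 322, 2190, 5132, 8724, 4360, 2568, 1072]
    tri := [(0, 1, 2), (0, 1, 6), (0, 2, 5), (0, 5, 6), (1, 2, 8), (1, 6, 7), (1, 7, 8), (2, 3, 8), (2,
      3, 9), (2, 4, 5), (2, 4, 10), (2, 9, 10), (3, 8, 11), (3, 9, 12), (3, 11, 12), (4, 5, 13),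
      (4, 10, 13)]
    fin := [0, 0, 0, 0, 0, 0, 6, 7, 0, 0, 10, 11, 12, 13]
    chd := []
    steps := [(0, 1), (0, 2), (0, 3), (0, 4), (0, 5), (0, 8), (0, 9)] }
  rep := [0, 6, 10, 7, 11, 12, 13]

noncomputable def v100 : Cov.CovD where
  P := 3
  N := 4
  pl := [1, 2, 5, 6, 7, 8]
  lev := [⟨[], [], [], [1], [(0, 0, [])]⟩,
    ⟨[], [(0, 0)], [], [1, 3], [(3, 0, [])]⟩,
    ⟨[(0, 1)], [(0, 0), (1, 0)], [(0, 0)], [2], [(0, 0, []), (3, 0, []), (4, 0, [])]⟩,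
    ⟨[(0, 2), (1, 2)], [(1, 0), (2, 0)], [(0, 0)], [4, 5], [(3, 0, []), (4, 0, [])]⟩,
    ⟨[(0, 2), (1, 2), (2, 3)], [(0, 0), (2, 0)], [], [2, 6], [(0, 0, [])]⟩]
  Ta := [((0, 1), 0, 1), ((0, 8), 0, 6), ((3, 2), 0, 3), ((3, 6), 0, 4), ((4, 5), 0, 2), ((4, 7),
    0, 5)]
  Tb := [((0, 1, 8), 0, 1, 6), ((1, 0, 2), 1, 0, 3), ((2, 1, 3), 3, 1, 0), ((3, 2, 6), 0, 3, 4),
    ((4, 5, 7), 0, 2, 5), ((5, 4, 8), 2, 0, 6), ((6, 3, 7), 4, 0, 5), ((7, 4, 6), 5, 0, 4),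
    ((8, 0, 5), 6, 0, 2)]
  Tc := []
  Td := []
  G := [[0, 0x8844cce84cce88ce4, 0, 0x44c8cec18, 0xa2aaca14], [0, 0, 0, 0x11618c111e8c4,
    0x111e2111e8c4], [0, 0, 0xca6e418, 0x111e814, 0x111e218]]

noncomputable def n100 : Ent := ⟨e100, noF, [], [], [(7, 11, [19926932677925709296473841916494848696430411104332951553, 0])]⟩

def c100 : PLift (Cov.check n100.C.D v100 = true) := ⟨by decide +kernel⟩

def b100 : PLift (entF (fidx ts) 400 100 n100 = true) := ⟨by decide +kernel⟩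

theorem g100 : GoodF (fidx ts) 400 100 := GoodF.ofV v100 n100 c100.down b100.down

/-- 45855:101/1 -/
noncomputable def e101 : SCfg where
  D := {
    a := 5
    L := 9
    kp := 6
    inn := [(0, 1), (0, 2), (1, 0), (1, 2), (2, 0), (2, 1), (2, 3), (2, 4), (3, 2), (4, 2)]
    mix := [(0, 0), (0, 1), (1, 1), (1, 2), (1, 3), (2, 0), (2, 3), (2, 4), (2, 5), (3, 2), (3, 3), (3,
      4), (3, 6), (4, 0), (4, 5), (4, 7), (4, 8)]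
    cl := [0, 2, 3, 1, 1, 0, 4, 5, 6]
    chq := [(0, 3), (3, 0)]
    rng := [(0, 1), (0, 8), (1, 0), (1, 2), (2, 1), (2, 3), (2, 6), (3, 2), (4, 5), (4, 6), (5, 4), (5,
      7), (6, 2), (6, 4), (7, 5), (7, 8), (8, 0), (8, 7)]
    lev := [] }
  links := [[1, 2, 5, 6], [2, 0, 6, 7, 8], [5, 0, 1, 8, 3, 9, 10, 4], [9, 2, 8, 7, 11], [5, 2, 10, 12,
    13]]
  P := {
    a := 5
    N := 14
    nb := [102, 453, 1851, 2948, 13348, 8277, 163, 2378, 142, 3084, 4628, 648, 9232, 4144]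
    tri := [(0, 1, 2), (0, 1, 6), (0, 2, 5), (0, 5, 6), (1, 2, 8), (1, 6, 7), (1, 7, 8), (2, 3, 8), (2,
      3, 9), (2, 4, 5), (2, 4, 10), (2, 9, 10), (3, 7, 8), (3, 7, 11), (3, 9, 11), (4, 5, 13), (4,
      10, 12), (4, 12, 13)]
    fin := [0, 0, 2, 3, 0, 0, 6, 3, 2, 2, 0, 11, 12, 13]
    chd := [(0, 3)]
    steps := [(0, 1), (0, 5), (0, 4), (0, 10), (2, 8), (2, 9), (3, 7)] }
  rep := [0, 2, 6, 3, 11, 12, 13]

noncomputable def v101 : Cov.CovD where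
  P := 3
  N := 4
  pl := [1, 6, 7, 8]
  lev := [⟨[], [], [], [2], [(0, 0, [3])]⟩,
    ⟨[], [(0, 0), (0, 1), (0, 3)], [(1, 3)], [2], [(2, 3, [0]), (3, 1, [])]⟩,
    ⟨[(0, 1)], [(0, 0), (0, 1), (1, 0), (1, 1), (1, 3)], [(0, 0), (0, 1), (1, 1)], [], [(0,
      0, [3]), (3, 1, []), (4, 1, []), (5, 0, [3])]⟩,
    ⟨[(0, 2), (1, 2)], [(1, 1), (1, 3), (2, 0), (2, 1), (2, 3)], [(1, 1), (1, 3)], [4],
      [(2, 3, [0]), (3, 1, []), (4, 1, [])]⟩,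
    ⟨[(0, 2), (1, 2), (2, 3)], [(0, 0), (2, 0), (2, 1)], [(0, 0)], [5, 6], [(0, 0, [3]),
      (5, 0, [3])]⟩]
  Ta := [((0, 1), 0, 2), ((0, 8), 0, 6), ((3, 2), 1, 3), ((4, 5), 1, 0), ((4, 6), 1, 4), ((5, 4),
    0, 1), ((5, 7), 0, 5)]
  Tb := [((0, 1, 8), 0, 2, 6), ((1, 0, 2), 2, 0, 3), ((2, 1, 3), 3, 2, 1), ((2, 1, 6), 3, 2, 4),
    ((2, 3, 6), 3, 1, 4), ((4, 5, 6), 1, 0, 4), ((5, 4, 7), 0, 1, 5), ((6, 2, 4), 4, 3, 1),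
    ((7, 5, 8), 5, 0, 6), ((8, 0, 7), 6, 0, 5)]
  Tc := []
  Td := [((0, 3), (0, 1), 2), ((0, 3), (0, 8), 6), ((0, 3), (5, 4), 1), ((0, 3), (5, 7), 5), ((3,
    0), (2, 1), 2), ((3, 0), (2, 3), 1), ((3, 0), (2, 6), 4)]
  G := [[0, 0, 0xee94ee58c2, 0x44eaedc18, 0x44eaedc12], [0, 0, 0x6eed88c24, 0x44eaedc18,
    0x44eaedc18], [0, 0, 0, 0x44eaedc18, 0xe4ee9c12], [0, 0xeaee44618, 0, 0x44eaedc18,
    0x6eed88c21]]

noncomputable def n101 : Ent := ⟨e101, noF, [], [], []⟩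

def c101 : PLift (Cov.check n101.C.D v101 = true) := ⟨by decide +kernel⟩

def b101 : PLift (entF (fidx ts) 400 101 n101 = true) := ⟨by decide +kernel⟩

theorem g101 : GoodF (fidx ts) 400 101 := GoodF.ofV v101 n101 c101.down b101.down

/-- 45855:101 -/
noncomputable def e102 : SCfg where
  D := {
    a := 5
    L := 10
    kp := 7
    inn := [(0, 1), (0, 2), (1, 0), (1, 2), (2, 0), (2, 1), (2, 3), (2, 4), (3, 2), (4, 2)]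
    mix := [(0, 0), (0, 1), (1, 1), (1, 2), (1, 3), (2, 0), (2, 3), (2, 4), (2, 5), (3, 3), (3, 4), (3,
      6), (3, 7), (4, 0), (4, 5), (4, 8), (4, 9)]
    cl := [0, 2, 3, 1, 1, 0, 4, 5, 6, 7]
    chq := [(0, 3), (3, 0)]
    rng := [(0, 1), (0, 9), (1, 0), (1, 2), (2, 1), (2, 3), (3, 2), (3, 6), (4, 5), (4, 7), (5, 4), (5,
      8), (6, 3), (6, 7), (7, 4), (7, 6), (8, 5), (8, 9), (9, 0), (9, 8)]
    lev := [] }
  links := [[1, 2, 5, 6], [2, 0, 6, 7, 8], [5, 0, 1, 8, 3, 9, 10, 4], [9, 2, 8, 11, 12], [5, 2, 10, 13,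
    14]]
  P := {
    a := 5
    N := 15
    nb := [102, 453, 1851, 6916, 25636, 16469, 163, 322, 2190, 5132, 8724, 4360, 2568, 17424, 8240]
    tri := [(0, 1, 2), (0, 1, 6), (0, 2, 5), (0, 5, 6), (1, 2, 8), (1, 6, 7), (1, 7, 8), (2, 3, 8), (2,
      3, 9), (2, 4, 5), (2, 4, 10), (2, 9, 10), (3, 8, 11), (3, 9, 12), (3, 11, 12), (4, 5, 14),
      (4, 10, 13), (4, 13, 14)]
    fin := [0, 0, 0, 3, 0, 0, 6, 7, 3, 3, 0, 11, 12, 13, 14]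
    chd := [(0, 7)]
    steps := [(0, 1), (0, 2), (0, 4), (0, 5), (0, 10), (3, 8), (3, 9)] }
  rep := [0, 3, 6, 7, 11, 12, 13, 14]

noncomputable def v102 : Cov.CovD where
  P := 3
  N := 5
  pl := [1, 6, 7, 8, 9]
  lev := [⟨[], [], [], [2], [(0, 0, [3])]⟩,
    ⟨[], [(0, 0), (0, 1), (0, 3)], [(1, 3)], [2], [(2, 3, [0]), (3, 1, [])]⟩,
    ⟨[(0, 1)], [(0, 0), (0, 1), (1, 0), (1, 1), (1, 3)], [(0, 0), (0, 1), (1, 1)], [], [(0,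
      0, [3]), (3, 1, []), (4, 1, []), (5, 0, [3])]⟩,
    ⟨[(0, 2), (1, 2)], [(1, 1), (2, 0), (2, 1)], [(1, 1)], [4, 5], [(3, 1, []), (4, 1,
      [])]⟩,
    ⟨[(0, 2), (1, 2), (2, 3)], [(0, 0), (2, 0), (2, 1)], [(0, 0)], [6, 7], [(0, 0, [3]),
      (5, 0, [3])]⟩]
  Ta := [((0, 1), 0, 2), ((0, 9), 0, 7), ((3, 2), 1, 3), ((3, 6), 1, 4), ((4, 5), 1, 0), ((4, 7),
    1, 5), ((5, 4), 0, 1), ((5, 8), 0, 6)]
  Tb := [((0, 1, 9), 0, 2, 7), ((1, 0, 2), 2, 0, 3), ((2, 1, 3), 3, 2, 1), ((3, 2, 6), 1, 3, 4),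
    ((4, 5, 7), 1, 0, 5), ((5, 4, 8), 0, 1, 6), ((6, 3, 7), 4, 1, 5), ((7, 4, 6), 5, 1, 4),
    ((8, 5, 9), 6, 0, 7), ((9, 0, 8), 7, 0, 6)]
  Tc := []
  Td := [((0, 3), (0, 1), 2), ((0, 3), (0, 9), 7), ((0, 3), (5, 4), 1), ((0, 3), (5, 8), 6), ((3,
    0), (2, 1), 2), ((3, 0), (2, 3), 1)]
  G := [[0, 0, 0x64e8edc6eed88cc2, 0x6eed88c14, 0x44eaedc18], [0, 0, 0x4eeda8c24, 0x44eaedc18,
    0x44eaedc18], [0, 0, 0, 0x44eaedc18, 0x64e8edc18], [0, 0x22eece614, 0, 0x6eed88c14,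
    0xe4ee9c12]]

noncomputable def n102 : Ent := ⟨e102, noF, [], [], [(7, 11, [87899351228091456402997525766823824674129406633600832917505, 0])]⟩

def c102 : PLift (Cov.check n102.C.D v102 = true) := ⟨by decide +kernel⟩

def b102 : PLift (entF (fidx ts) 400 102 n102 = true) := ⟨by decide +kernel⟩

theorem g102 : GoodF (fidx ts) 400 102 := GoodF.ofV v102 n102 c102.down b102.down

/-- 45854:102/1 -/
noncomputable def e103 : SCfg where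
  D := {
    a := 5
    L := 8
    kp := 5
    inn := [(0, 1), (0, 2), (1, 0), (1, 2), (2, 0), (2, 1), (2, 3), (3, 2), (3, 4), (4, 3)]
    mix := [(0, 0), (0, 1), (1, 1), (1, 2), (1, 3), (2, 0), (2, 3), (2, 4), (2, 5), (2, 6), (3, 3), (3,
      4), (3, 7), (4, 2), (4, 3), (4, 7)]
    cl := [0, 1, 2, 0, 0, 4, 5, 3]
    chq := []
    rng := [(0, 1), (0, 6), (1, 0), (1, 2), (2, 1), (2, 3), (2, 7), (3, 2), (4, 5), (4, 7), (5, 4), (5,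
      6), (6, 0), (6, 5), (7, 2), (7, 4)]
    lev := [] }
  links := [[1, 2, 5, 6], [2, 0, 6, 7, 8], [5, 0, 1, 8, 3, 9, 10, 11], [9, 2, 8, 4, 12], [12, 3, 8, 7]]
  P := {
    a := 5
    N := 13
    nb := [102, 453, 3883, 4884, 4488, 2117, 163, 4434, 158, 5132, 2564, 1060, 664]
    tri := [(0, 1, 2), (0, 1, 6), (0, 2, 5), (0, 5, 6), (1, 2, 8), (1, 6, 7), (1, 7, 8), (2, 3, 8), (2,
      3, 9), (2, 5, 11), (2, 9, 10), (2, 10, 11), (3, 4, 8), (3, 4, 12), (3, 9, 12), (4, 7, 8),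
      (4, 7, 12)]
    fin := [0, 0, 0, 0, 0, 0, 6, 7, 0, 0, 10, 11, 12]
    chd := []
    steps := [(0, 1), (0, 2), (0, 3), (0, 5), (0, 8), (0, 4), (0, 9)] }
  rep := [0, 6, 7, 12, 10, 11]

noncomputable def v103 : Cov.CovD where
  P := 3
  N := 3
  pl := [1, 2, 5, 6, 7]
  lev := [⟨[], [], [], [1], [(0, 0, [])]⟩,
    ⟨[], [(0, 0)], [], [1, 2], [(3, 0, [])]⟩,
    ⟨[(0, 1)], [(0, 0), (1, 0)], [(0, 0)], [4, 5], [(0, 0, []), (3, 0, []), (4, 0, [])]⟩,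
    ⟨[(0, 2), (1, 2)], [(1, 0), (2, 0)], [(0, 0)], [3], [(3, 0, []), (4, 0, [])]⟩,
    ⟨[(2, 3)], [(1, 0), (2, 0), (3, 0)], [], [2, 3], [(3, 0, [])]⟩]
  Ta := [((0, 1), 0, 1), ((0, 6), 0, 5), ((3, 2), 0, 2), ((4, 5), 0, 4), ((4, 7), 0, 3)]
  Tb := [((0, 1, 6), 0, 1, 5), ((1, 0, 2), 1, 0, 2), ((2, 1, 3), 2, 1, 0), ((2, 1, 7), 2, 1, 3),
    ((2, 3, 7), 2, 0, 3), ((4, 5, 7), 0, 4, 3), ((5, 4, 6), 4, 0, 5), ((6, 0, 5), 5, 0, 4),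
    ((7, 2, 4), 3, 2, 0)]
  Tc := []
  Td := []
  G := [[0, 0x18614a416e84, 0, 0x121212e84, 0x21c2826826c98], [0, 0, 0x42684a84ce41,
    0xc2c2c2e81, 0x8268262ace81], [0, 0, 0, 0x9281a52e41, 0x12682a81ce84]]

noncomputable def n103 : Ent := ⟨e103, noF, [], [], []⟩

def c103 : PLift (Cov.check n103.C.D v103 = true) := ⟨by decide +kernel⟩

def b103 : PLift (entF (fidx ts) 400 103 n103 = true) := ⟨by decide +kernel⟩

theorem g103 : GoodF (fidx ts) 400 103 := GoodF.ofV v103 n103 c103.down b103.down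

/-- 45854:102 -/
noncomputable def e104 : SCfg where
  D := {
    a := 5
    L := 9
    kp := 6
    inn := [(0, 1), (0, 2), (1, 0), (1, 2), (2, 0), (2, 1), (2, 3), (3, 2), (3, 4), (4, 3)]
    mix := [(0, 0), (0, 1), (1, 1), (1, 2), (1, 3), (2, 0), (2, 3), (2, 4), (2, 5), (2, 6), (3, 3), (3,
      4), (3, 7), (4, 3), (4, 7), (4, 8)]
    cl := [0, 1, 3, 0, 0, 4, 5, 2, 6]
    chq := []
    rng := [(0, 1), (0, 6), (1, 0), (1, 2), (2, 1), (2, 3), (3, 2), (3, 8), (4, 5), (4, 7), (5, 4), (5,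
      6), (6, 0), (6, 5), (7, 4), (7, 8), (8, 3), (8, 7)]
    lev := [] }
  links := [[1, 2, 5, 6], [2, 0, 6, 7, 8], [5, 0, 1, 8, 3, 9, 10, 11], [9, 2, 8, 4, 12], [12, 3, 8, 13]]
  P := {
    a := 5
    N := 14
    nb := [102, 453, 3883, 4884, 12552, 2117, 163, 322, 8350, 5132, 2564, 1060, 8728, 4368]
    tri := [(0, 1, 2), (0, 1, 6), (0, 2, 5), (0, 5, 6), (1, 2, 8), (1, 6, 7), (1, 7, 8), (2, 3, 8), (2,
      3, 9), (2, 5, 11), (2, 9, 10), (2, 10, 11), (3, 4, 8), (3, 4, 12), (3, 9, 12), (4, 8, 13),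
      (4, 12, 13)]
    fin := [0, 0, 0, 0, 0, 0, 6, 7, 0, 0, 10, 11, 12, 13]
    chd := []
    steps := [(0, 1), (0, 2), (0, 3), (0, 4), (0, 5), (0, 8), (0, 9)] }
  rep := [0, 6, 12, 7, 10, 11, 13]

noncomputable def v104 : Cov.CovD where
  P := 3
  N := 4
  pl := [1, 2, 5, 6, 7, 8]
  lev := [⟨[], [], [], [1], [(0, 0, [])]⟩,
    ⟨[], [(0, 0)], [], [1, 3], [(3, 0, [])]⟩,
    ⟨[(0, 1)], [(0, 0), (1, 0)], [(0, 0)], [4, 5], [(0, 0, []), (3, 0, []), (4, 0, [])]⟩,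
    ⟨[(0, 2), (1, 2)], [(1, 0), (2, 0)], [(0, 0)], [2], [(3, 0, []), (4, 0, [])]⟩,
    ⟨[(2, 3)], [(1, 0), (2, 0), (3, 0)], [], [2, 6], [(3, 0, [])]⟩]
  Ta := [((0, 1), 0, 1), ((0, 6), 0, 5), ((3, 2), 0, 3), ((3, 8), 0, 6), ((4, 5), 0, 4), ((4, 7),
    0, 2)]
  Tb := [((0, 1, 6), 0, 1, 5), ((1, 0, 2), 1, 0, 3), ((2, 1, 3), 3, 1, 0), ((3, 2, 8), 0, 3, 6),
    ((4, 5, 7), 0, 4, 2), ((5, 4, 6), 4, 0, 5), ((6, 0, 5), 5, 0, 4), ((7, 4, 8), 2, 0, 6),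
    ((8, 3, 7), 6, 0, 2)]
  Tc := []
  Td := []
  G := [[0, 0x141814e181818ea4, 0, 0xc4c8c8e14, 0xa2a228ae18], [0, 0, 0, 0xc448cc4ec4c8c8ec1,
    0xa2a8a8ea2a2a8ec1], [0, 0, 0xc268c2e18, 0xc4c8c8e18, 0xa2a2a8e18]]

noncomputable def n104 : Ent := ⟨e104, noF, [], [], [(7, 13, [18394062992640663726968434746027364144358640063418363905, 0])]⟩

def c104 : PLift (Cov.check n104.C.D v104 = true) := ⟨by decide +kernel⟩

def b104 : PLift (entF (fidx ts) 400 104 n104 = true) := ⟨by decide +kernel⟩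

theorem g104 : GoodF (fidx ts) 400 104 := GoodF.ofV v104 n104 c104.down b104.down

/-- 45854:103/1 -/
noncomputable def e105 : SCfg where
  D := {
    a := 5
    L := 8
    kp := 5
    inn := [(0, 1), (0, 2), (1, 0), (1, 2), (2, 0), (2, 1), (2, 3), (3, 2), (3, 4), (4, 3)]
    mix := [(0, 0), (0, 1), (1, 1), (1, 2), (1, 3), (2, 0), (2, 3), (2, 4), (2, 5), (2, 6), (3, 2), (3,
      3), (3, 4), (4, 2), (4, 4), (4, 7)]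
    cl := [0, 2, 1, 0, 0, 3, 4, 5]
    chq := []
    rng := [(0, 1), (0, 6), (1, 0), (1, 2), (2, 1), (2, 3), (2, 7), (3, 2), (4, 5), (4, 7), (5, 4), (5,
      6), (6, 0), (6, 5), (7, 2), (7, 4)]
    lev := [] }
  links := [[1, 2, 5, 6], [2, 0, 6, 7, 8], [5, 0, 1, 8, 3, 9, 10, 11], [9, 2, 8, 7, 4], [9, 3, 7, 12]]
  P := {
    a := 5
    N := 13
    nb := [102, 453, 3883, 916, 4744, 2117, 163, 4442, 142, 5148, 2564, 1060, 656]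
    tri := [(0, 1, 2), (0, 1, 6), (0, 2, 5), (0, 5, 6), (1, 2, 8), (1, 6, 7), (1, 7, 8), (2, 3, 8), (2,
      3, 9), (2, 5, 11), (2, 9, 10), (2, 10, 11), (3, 4, 7), (3, 4, 9), (3, 7, 8), (4, 7, 12), (4,
      9, 12)]
    fin := [0, 0, 0, 0, 0, 0, 6, 7, 0, 0, 10, 11, 12]
    chd := []
    steps := [(0, 1), (0, 2), (0, 5), (0, 8), (0, 3), (0, 4), (0, 9)] }
  rep := [0, 7, 6, 10, 11, 12]

noncomputable def v105 : Cov.CovD where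
  P := 3
  N := 3
  pl := [1, 2, 5, 6, 7]
  lev := [⟨[], [], [], [2], [(0, 0, [])]⟩,
    ⟨[], [(0, 0)], [], [1, 2], [(3, 0, [])]⟩,
    ⟨[(0, 1)], [(0, 0), (1, 0)], [(0, 0)], [3, 4], [(0, 0, []), (3, 0, []), (4, 0, [])]⟩,
    ⟨[(0, 2), (1, 2)], [(1, 0), (2, 0)], [(0, 0)], [1], [(3, 0, []), (4, 0, [])]⟩,
    ⟨[(2, 3)], [(2, 0), (3, 0)], [], [1, 5], [(4, 0, [])]⟩]
  Ta := [((0, 1), 0, 2), ((0, 6), 0, 4), ((3, 2), 0, 1), ((4, 5), 0, 3), ((4, 7), 0, 5)]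
  Tb := [((0, 1, 6), 0, 2, 4), ((1, 0, 2), 2, 0, 1), ((2, 1, 3), 1, 2, 0), ((2, 1, 7), 1, 2, 5),
    ((2, 3, 7), 1, 0, 5), ((4, 5, 7), 0, 3, 5), ((5, 4, 6), 3, 0, 4), ((6, 0, 5), 4, 0, 3),
    ((7, 2, 4), 5, 1, 0)]
  Tc := []
  Td := []
  G := [[0, 0, 0x141818e84, 0x141818e18, 0x181418e12], [0, 0xa2a8a8e48, 0, 0x141818e48,
    0x141814e82], [0, 0, 0, 0xc4c8c4e48, 0xc4c8c4e81]]

noncomputable def n105 : Ent := ⟨e105, noF, [], [], []⟩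

def c105 : PLift (Cov.check n105.C.D v105 = true) := ⟨by decide +kernel⟩

def b105 : PLift (entF (fidx ts) 400 105 n105 = true) := ⟨by decide +kernel⟩

theorem g105 : GoodF (fidx ts) 400 105 := GoodF.ofV v105 n105 c105.down b105.down

/-- 45854:103 -/
noncomputable def e106 : SCfg where
  D := {
    a := 5
    L := 9
    kp := 6
    inn := [(0, 1), (0, 2), (1, 0), (1, 2), (2, 0), (2, 1), (2, 3), (3, 2), (3, 4), (4, 3)]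
    mix := [(0, 0), (0, 1), (1, 1), (1, 2), (1, 3), (2, 0), (2, 3), (2, 4), (2, 5), (2, 6), (3, 3), (3,
      4), (3, 7), (4, 4), (4, 7), (4, 8)]
    cl := [0, 1, 4, 0, 0, 2, 5, 3, 6]
    chq := []
    rng := [(0, 1), (0, 6), (1, 0), (1, 2), (2, 1), (2, 3), (3, 2), (3, 7), (4, 5), (4, 8), (5, 4), (5,
      6), (6, 0), (6, 5), (7, 3), (7, 8), (8, 4), (8, 7)]
    lev := [] }
  links := [[1, 2, 5, 6], [2, 0, 6, 7, 8], [5, 0, 1, 8, 3, 9, 10, 11], [9, 2, 8, 12, 4], [9, 3, 12, 13]]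
  P := {
    a := 5
    N := 14
    nb := [102, 453, 3883, 4884, 12808, 2117, 163, 322, 4238, 9244, 2564, 1060, 8472, 4624]
    tri := [(0, 1, 2), (0, 1, 6), (0, 2, 5), (0, 5, 6), (1, 2, 8), (1, 6, 7), (1, 7, 8), (2, 3, 8), (2,
      3, 9), (2, 5, 11), (2, 9, 10), (2, 10, 11), (3, 4, 9), (3, 4, 12), (3, 8, 12), (4, 9, 13),
      (4, 12, 13)]
    fin := [0, 0, 0, 0, 0, 0, 6, 7, 0, 0, 10, 11, 12, 13]
    chd := []
    steps := [(0, 1), (0, 2), (0, 3), (0, 4), (0, 5), (0, 8), (0, 9)] }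
  rep := [0, 6, 10, 12, 7, 11, 13]

noncomputable def v106 : Cov.CovD where
  P := 3
  N := 4
  pl := [1, 2, 5, 6, 7, 8]
  lev := [⟨[], [], [], [1], [(0, 0, [])]⟩,
    ⟨[], [(0, 0)], [], [1, 4], [(3, 0, [])]⟩,
    ⟨[(0, 1)], [(0, 0), (1, 0)], [(0, 0)], [2, 5], [(0, 0, []), (3, 0, []), (4, 0, [])]⟩,
    ⟨[(0, 2), (1, 2)], [(1, 0), (2, 0)], [(0, 0)], [3], [(3, 0, []), (4, 0, [])]⟩,
    ⟨[(2, 3)], [(2, 0), (3, 0)], [], [3, 6], [(4, 0, [])]⟩]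
  Ta := [((0, 1), 0, 1), ((0, 6), 0, 5), ((3, 2), 0, 4), ((3, 7), 0, 3), ((4, 5), 0, 2), ((4, 8),
    0, 6)]
  Tb := [((0, 1, 6), 0, 1, 5), ((1, 0, 2), 1, 0, 4), ((2, 1, 3), 4, 1, 0), ((3, 2, 7), 0, 4, 3),
    ((4, 5, 8), 0, 2, 6), ((5, 4, 6), 2, 0, 5), ((6, 0, 5), 5, 0, 2), ((7, 3, 8), 3, 0, 6),
    ((8, 4, 7), 6, 0, 3)]
  Tc := []
  Td := []
  G := [[0, 0x11611ac11611aca4, 0, 0x11611cc18, 0x116116a18], [0, 0, 0, 0xc1616acc1616acc1,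
    0x1a6c1aa16ac16ac4], [0, 0, 0xca6a6ca14, 0xca6c6ac18, 0xca6a6ca14]]

noncomputable def n106 : Ent := ⟨e106, noF, [], [], [(7, 12, [19926558533506552585326781773177673327977379185601974273, 0])]⟩

def c106 : PLift (Cov.check n106.C.D v106 = true) := ⟨by decide +kernel⟩

def b106 : PLift (entF (fidx ts) 400 106 n106 = true) := ⟨by decide +kernel⟩

theorem g106 : GoodF (fidx ts) 400 106 := GoodF.ofV v106 n106 c106.down b106.down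

/-- 45864:104/1 -/
noncomputable def e107 : SCfg where
  D := {
    a := 5
    L := 8
    kp := 6
    inn := [(0, 1), (0, 2), (1, 0), (1, 2), (2, 0), (2, 1), (2, 3), (2, 4), (3, 2), (3, 4), (4, 2), (4,
      3)]
    mix := [(0, 0), (0, 1), (1, 1), (1, 2), (1, 3), (2, 0), (2, 3), (2, 4), (2, 5), (3, 2), (3, 3), (3,
      6), (3, 7), (4, 4), (4, 7)]
    cl := [0, 2, 1, 0, 4, 5, 6, 3]
    chq := [(1, 5), (3, 5), (5, 1), (5, 3), (5, 6), (6, 5)]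
    rng := [(0, 1), (0, 5), (1, 0), (1, 2), (2, 1), (2, 3), (2, 6), (3, 2), (4, 5), (4, 7), (5, 0), (5,
      4), (6, 2), (6, 7), (7, 4), (7, 6)]
    lev := [] }
  links := [[1, 2, 5, 6], [2, 0, 6, 7, 8], [5, 0, 1, 8, 3, 4, 9, 10], [4, 2, 8, 7, 11, 12], [9, 2, 3,
    12]]
  P := {
    a := 5
    N := 13
    nb := [102, 453, 1851, 6548, 4620, 1093, 163, 2378, 142, 5140, 548, 4232, 2584]
    tri := [(0, 1, 2), (0, 1, 6), (0, 2, 5), (0, 5, 6), (1, 2, 8), (1, 6, 7), (1, 7, 8), (2, 3, 4), (2,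
      3, 8), (2, 4, 9), (2, 5, 10), (2, 9, 10), (3, 4, 12), (3, 7, 8), (3, 7, 11), (3, 11, 12),
      (4, 9, 12)]
    fin := [0, 0, 2, 2, 4, 0, 6, 7, 0, 9, 2, 11, 4]
    chd := [(2, 4), (2, 11), (7, 2)]
    steps := [(0, 1), (0, 5), (0, 8), (2, 3), (2, 10), (4, 12)] }
  rep := [0, 7, 6, 4, 9, 2, 11]

noncomputable def v107 : Cov.CovD where
  P := 3
  N := 4
  pl := [1, 4]
  lev := [⟨[], [], [], [2], [(0, 0, [])]⟩,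
    ⟨[], [(0, 0), (0, 1)], [(0, 1)], [2], [(2, 1, [5]), (3, 0, [])]⟩,
    ⟨[(0, 1)], [(0, 0), (0, 5), (1, 0), (1, 1), (1, 5)], [(0, 0), (0, 5)], [4], [(0, 0,
      []), (3, 0, []), (5, 5, [1, 3, 6])]⟩,
    ⟨[(0, 2), (1, 2)], [(1, 0), (1, 1), (2, 0), (2, 1), (2, 3), (2, 5), (2, 6)], [(0, 1),
      (0, 3), (0, 6), (1, 3), (1, 6), (3, 6)], [], [(2, 1, [5]), (3, 0, []), (6, 6, [5]), (7,
      3, [5])]⟩,
    ⟨[(0, 2), (1, 2), (2, 3)], [(2, 0), (2, 3), (2, 5), (3, 0), (3, 1), (3, 3), (3, 6)],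
      [], [4], [(7, 3, [5])]⟩]
  Ta := [((0, 1), 0, 2), ((0, 5), 0, 5), ((3, 2), 0, 1)]
  Tb := [((0, 1, 5), 0, 2, 5), ((1, 0, 2), 2, 0, 1), ((2, 1, 3), 1, 2, 0), ((2, 1, 6), 1, 2, 6),
    ((2, 3, 6), 1, 0, 6), ((4, 5, 7), 4, 5, 3), ((5, 0, 4), 5, 0, 4), ((6, 2, 7), 6, 1, 3),
    ((7, 4, 6), 3, 4, 6)]
  Tc := [(5, 1, 3), (5, 1, 6), (5, 3, 6)]
  Td := [((1, 5), (2, 1), 2), ((1, 5), (2, 3), 0), ((1, 5), (2, 6), 6), ((3, 5), (7, 4), 4), ((3,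
    5), (7, 6), 6), ((5, 1), (5, 0), 0), ((5, 1), (5, 4), 4), ((5, 3), (5, 0), 0), ((5, 3),
    (5, 4), 4), ((5, 6), (5, 0), 0), ((5, 6), (5, 4), 4), ((6, 5), (6, 2), 1), ((6, 5), (6,
    7), 3)]
  G := [[0, 0, 0xd29acc65258c8, 0xcc921654a3ca98, 0xae98d2d6851681a], [0, 0x426c5aa3ce81, 0,
    0xd498a3ce41, 0x716ddaa3ce81]]

noncomputable def n107 : Ent := ⟨e107, noF, [], [], []⟩

def c107 : PLift (Cov.check n107.C.D v107 = true) := ⟨by decide +kernel⟩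

def b107 : PLift (entF (fidx ts) 400 107 n107 = true) := ⟨by decide +kernel⟩

theorem g107 : GoodF (fidx ts) 400 107 := GoodF.ofV v107 n107 c107.down b107.down

/-- 45864:104 -/
noncomputable def e108 : SCfg where
  D := {
    a := 5
    L := 9
    kp := 7
    inn := [(0, 1), (0, 2), (1, 0), (1, 2), (2, 0), (2, 1), (2, 3), (2, 4), (3, 2), (3, 4), (4, 2), (4,
      3)]
    mix := [(0, 0), (0, 1), (1, 1), (1, 2), (1, 3), (2, 0), (2, 3), (2, 4), (2, 5), (3, 3), (3, 6), (3,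
      7), (3, 8), (4, 4), (4, 8)]
    cl := [0, 1, 7, 0, 4, 2, 5, 6, 3]
    chq := [(2, 3), (2, 5), (2, 6), (3, 2), (5, 2), (6, 2)]
    rng := [(0, 1), (0, 5), (1, 0), (1, 2), (2, 1), (2, 3), (3, 2), (3, 6), (4, 5), (4, 8), (5, 0), (5,
      4), (6, 3), (6, 7), (7, 6), (7, 8), (8, 4), (8, 7)]
    lev := [] }
  links := [[1, 2, 5, 6], [2, 0, 6, 7, 8], [5, 0, 1, 8, 3, 4, 9, 10], [4, 2, 8, 11, 12, 13], [9, 2, 3,
    13]]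
  P := {
    a := 5
    N := 14
    nb := [102, 453, 1851, 14612, 8716, 1093, 163, 322, 2190, 9236, 548, 4360, 10248, 4632]
    tri := [(0, 1, 2), (0, 1, 6), (0, 2, 5), (0, 5, 6), (1, 2, 8), (1, 6, 7), (1, 7, 8), (2, 3, 4), (2,
      3, 8), (2, 4, 9), (2, 5, 10), (2, 9, 10), (3, 4, 13), (3, 8, 11), (3, 11, 12), (3, 12, 13),
      (4, 9, 13)]
    fin := [0, 0, 2, 2, 4, 0, 6, 7, 0, 9, 2, 11, 12, 4]
    chd := [(2, 4), (2, 11), (2, 12)]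
    steps := [(0, 1), (0, 5), (0, 8), (2, 3), (2, 10), (4, 13)] }
  rep := [0, 6, 2, 4, 9, 11, 12, 7]

noncomputable def v108 : Cov.CovD where
  P := 3
  N := 5
  pl := [1, 2, 4]
  lev := [⟨[], [], [], [1], [(0, 0, [])]⟩,
    ⟨[], [(0, 0)], [], [1, 7], [(3, 0, [])]⟩,
    ⟨[(0, 1)], [(0, 0), (0, 2), (1, 0), (1, 2)], [(0, 0), (0, 2)], [4], [(0, 0, []), (3, 0,
      []), (5, 2, [3, 5, 6])]⟩,
    ⟨[(0, 2), (1, 2)], [(1, 0), (2, 0), (2, 2), (2, 3), (2, 5), (2, 6)], [(0, 3), (0, 5),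
      (0, 6), (3, 5), (3, 6), (5, 6)], [], [(3, 0, []), (6, 5, [2]), (7, 6, [2]), (8, 3,
      [2])]⟩,
    ⟨[(0, 2), (1, 2), (2, 3)], [(2, 0), (2, 2), (2, 3), (3, 0), (3, 3), (3, 5), (3, 6)],
      [], [4], [(8, 3, [2])]⟩]
  Ta := [((0, 1), 0, 1), ((0, 5), 0, 2), ((3, 2), 0, 7), ((3, 6), 0, 5)]
  Tb := [((0, 1, 5), 0, 1, 2), ((1, 0, 2), 1, 0, 7), ((2, 1, 3), 7, 1, 0), ((3, 2, 6), 0, 7, 5),
    ((4, 5, 8), 4, 2, 3), ((5, 0, 4), 2, 0, 4), ((6, 3, 7), 5, 0, 6), ((7, 6, 8), 6, 5, 3),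
    ((8, 4, 7), 3, 4, 6)]
  Tc := [(2, 3, 5), (2, 3, 6), (2, 5, 6)]
  Td := [((2, 3), (5, 0), 0), ((2, 3), (5, 4), 4), ((2, 5), (5, 0), 0), ((2, 5), (5, 4), 4), ((2,
    6), (5, 0), 0), ((2, 6), (5, 4), 4), ((3, 2), (8, 4), 4), ((3, 2), (8, 7), 6), ((5, 2),
    (6, 3), 0), ((5, 2), (6, 7), 6), ((6, 2), (7, 6), 5), ((6, 2), (7, 8), 3)]
  G := [[0, 0x5249289252ce2, 0xc1a168c161a4c, 0x52419281c, 0x9434a14], [0, 0, 0,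
    0x236d288ed223a44ec1, 0x54688b4e9434ac1]]

noncomputable def n108 : Ent := ⟨e108, noF, [], [], [(7, 11, [19926932677925709296473841916494848696430411104332984321, 0])]⟩

def c108 : PLift (Cov.check n108.C.D v108 = true) := ⟨by decide +kernel⟩

def b108 : PLift (entF (fidx ts) 400 108 n108 = true) := ⟨by decide +kernel⟩

theorem g108 : GoodF (fidx ts) 400 108 := GoodF.ofV v108 n108 c108.down b108.down

/-- 46764:105/1 -/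
noncomputable def e109 : SCfg where
  D := {
    a := 5
    L := 8
    kp := 7
    inn := [(0, 1), (0, 2), (0, 3), (1, 0), (1, 3), (1, 4), (2, 0), (2, 3), (3, 0), (3, 1), (3, 2), (4,
      1)]
    mix := [(0, 0), (1, 0), (1, 1), (1, 2), (2, 0), (2, 3), (2, 4), (2, 5), (2, 6), (3, 1), (3, 6), (3,
      7), (4, 0), (4, 2), (4, 3)]
    cl := [0, 1, 2, 3, 5, 6, 4, 7]
    chq := [(0, 1), (0, 2), (1, 0), (1, 3), (1, 4), (1, 5), (1, 6), (2, 0), (3, 1), (4, 1), (5, 1), (6,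
      1)]
    rng := [(0, 3), (1, 2), (1, 7), (2, 1), (2, 3), (3, 0), (3, 2), (3, 4), (4, 3), (4, 5), (5, 4), (5,
      6), (6, 5), (6, 7), (7, 1), (7, 6)]
    lev := [] }
  links := [[1, 5, 2, 3], [5, 0, 3, 6, 7, 4], [3, 0, 5, 8, 9, 10, 11], [6, 1, 0, 2, 11, 12], [5, 1, 7,
    8]]
  P := {
    a := 5
    N := 13
    nb := [46, 249, 3881, 6215, 418, 279, 4234, 338, 692, 1284, 2564, 5132, 2120]
    tri := [(0, 1, 3), (0, 1, 5), (0, 2, 3), (0, 2, 5), (1, 3, 6), (1, 4, 5), (1, 4, 7), (1, 6, 7), (2,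
      3, 11), (2, 5, 8), (2, 8, 9), (2, 9, 10), (2, 10, 11), (3, 6, 12), (3, 11, 12), (4, 5, 8),
      (4, 7, 8)]
    fin := [0, 0, 2, 2, 0, 0, 2, 7, 8, 9, 10, 11, 12]
    chd := [(0, 2), (0, 7), (2, 8), (2, 9), (2, 10), (2, 11)]
    steps := [(0, 1), (0, 4), (0, 5), (2, 3), (2, 6)] }
  rep := [0, 2, 7, 8, 11, 9, 10, 12]

noncomputable def v109 : Cov.CovD where
  P := 3
  N := 5
  pl := [7]
  lev := [⟨[], [], [], [], [(0, 0, [1, 2])]⟩,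
    ⟨[], [(0, 0), (0, 1), (0, 2)], [(0, 1), (0, 2), (1, 2)], [], [(0, 0, [1, 2]), (1, 1,
      [0, 3, 4, 5, 6]), (2, 2, [0])]⟩,
    ⟨[(0, 1)], [(0, 0), (0, 3), (0, 4), (0, 5), (0, 6), (1, 0)], [(0, 3), (0, 4), (0, 5),
      (0, 6), (3, 4), (3, 5), (3, 6), (4, 5), (4, 6), (5, 6)], [], [(0, 0, [1, 2]), (3, 3,
      [1]), (4, 5, [1]), (5, 6, [1]), (6, 4, [1])]⟩,
    ⟨[(0, 1), (0, 2), (1, 2)], [(0, 0), (0, 1), (0, 4), (1, 0), (1, 1), (1, 2), (1, 4), (2,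
      0), (2, 1), (2, 3), (2, 4), (2, 5), (2, 6)], [(1, 4)], [7], [(1, 1, [0, 3, 4, 5, 6]),
      (6, 4, [1])]⟩,
    ⟨[(0, 1), (1, 3)], [(0, 0), (1, 0), (1, 1), (1, 2), (1, 3), (2, 0), (2, 3)], [(0, 2),
      (0, 3), (2, 3)], [], [(0, 0, [1, 2]), (2, 2, [0]), (3, 3, [1])]⟩]
  Ta := []
  Tb := [((1, 2, 7), 1, 2, 7), ((2, 1, 3), 2, 1, 3), ((3, 0, 2), 3, 0, 2), ((3, 0, 4), 3, 0, 5),
    ((3, 2, 4), 3, 2, 5), ((4, 3, 5), 5, 3, 6), ((5, 4, 6), 6, 5, 4), ((6, 5, 7), 4, 6, 7),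
    ((7, 1, 6), 7, 1, 4)]
  Tc := [(0, 1, 2), (1, 0, 3), (1, 0, 4), (1, 0, 5), (1, 0, 6), (1, 3, 4), (1, 3, 5), (1, 3, 6),
    (1, 4, 5), (1, 4, 6), (1, 5, 6)]
  Td := [((0, 1), (0, 3), 3), ((0, 2), (0, 3), 3), ((1, 0), (1, 2), 2), ((1, 0), (1, 7), 7), ((1,
    3), (1, 2), 2), ((1, 3), (1, 7), 7), ((1, 4), (1, 2), 2), ((1, 4), (1, 7), 7), ((1, 5),
    (1, 2), 2), ((1, 5), (1, 7), 7), ((1, 6), (1, 2), 2), ((1, 6), (1, 7), 7), ((2, 0), (2,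
    1), 1), ((2, 0), (2, 3), 3), ((3, 1), (3, 0), 0), ((3, 1), (3, 2), 2), ((3, 1), (3, 4),
    5), ((4, 1), (6, 5), 6), ((4, 1), (6, 7), 7), ((5, 1), (4, 3), 3), ((5, 1), (4, 5), 6),
    ((6, 1), (5, 4), 5), ((6, 1), (5, 6), 4)]
  G := [[0, 0x4cce1881c2, 0x66ad284, 0x4ccd2882c4, 0x2aad2882a4]]

noncomputable def n109 : Ent := ⟨e109, noF, [], [], []⟩

def c109 : PLift (Cov.check n109.C.D v109 = true) := ⟨by decide +kernel⟩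

def b109 : PLift (entF (fidx ts) 400 109 n109 = true) := ⟨by decide +kernel⟩

theorem g109 : GoodF (fidx ts) 400 109 := GoodF.ofV v109 n109 c109.down b109.down

/-- 46764:105 -/
noncomputable def e110 : SCfg where
  D := {
    a := 5
    L := 9
    kp := 8
    inn := [(0, 1), (0, 2), (0, 3), (1, 0), (1, 3), (1, 4), (2, 0), (2, 3), (3, 0), (3, 1), (3, 2), (4,
      1)]
    mix := [(0, 0), (1, 0), (1, 1), (1, 2), (2, 0), (2, 3), (2, 4), (2, 5), (2, 6), (3, 1), (3, 6), (3,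
      7), (4, 0), (4, 2), (4, 8)]
    cl := [0, 1, 2, 4, 5, 6, 3, 8, 7]
    chq := [(0, 1), (1, 0), (1, 3), (1, 4), (1, 5), (1, 6), (1, 7), (3, 1), (4, 1), (5, 1), (6, 1), (7,
      1)]
    rng := [(0, 3), (0, 8), (1, 2), (1, 7), (2, 1), (2, 8), (3, 0), (3, 4), (4, 3), (4, 5), (5, 4), (5,
      6), (6, 5), (6, 7), (7, 1), (7, 6), (8, 0), (8, 2)]
    lev := [] }
  links := [[1, 5, 2, 3], [5, 0, 3, 6, 7, 4], [3, 0, 5, 8, 9, 10, 11], [6, 1, 0, 2, 11, 12], [5, 1, 7,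
    13]]
  P := {
    a := 5
    N := 14
    nb := [46, 249, 3881, 6215, 8354, 8471, 4234, 8274, 548, 1284, 2564, 5132, 2120, 176]
    tri := [(0, 1, 3), (0, 1, 5), (0, 2, 3), (0, 2, 5), (1, 3, 6), (1, 4, 5), (1, 4, 7), (1, 6, 7), (2,
      3, 11), (2, 5, 8), (2, 8, 9), (2, 9, 10), (2, 10, 11), (3, 6, 12), (3, 11, 12), (4, 5, 13),
      (4, 7, 13)]
    fin := [0, 0, 0, 3, 0, 5, 0, 7, 8, 9, 10, 3, 12, 13]
    chd := [(0, 3), (0, 8), (0, 9), (0, 10), (0, 13), (5, 0)]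
    steps := [(0, 1), (0, 2), (0, 4), (0, 6), (3, 11)] }
  rep := [5, 0, 7, 3, 8, 9, 10, 13, 12]

noncomputable def v110 : Cov.CovD where
  P := 3
  N := 6
  pl := [2, 7]
  lev := [⟨[], [], [], [], [(0, 0, [1])]⟩,
    ⟨[], [(0, 0), (0, 1)], [(0, 1)], [2], [(0, 0, [1]), (1, 1, [0, 3, 4, 5, 6, 7])]⟩,
    ⟨[(0, 1)], [(0, 0), (0, 3), (0, 4), (0, 5), (0, 6), (1, 0)], [(0, 3), (0, 4), (0, 5),
      (0, 6), (3, 4), (3, 5), (3, 6), (4, 5), (4, 6), (5, 6)], [], [(0, 0, [1]), (3, 4, [1]),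
      (4, 5, [1]), (5, 6, [1]), (6, 3, [1])]⟩,
    ⟨[(0, 1), (0, 2), (1, 2)], [(0, 0), (0, 1), (0, 3), (1, 0), (1, 1), (1, 3), (2, 0), (2,
      1), (2, 3), (2, 4), (2, 5), (2, 6)], [(1, 3)], [8], [(1, 1, [0, 3, 4, 5, 6, 7]), (6, 3,
      [1])]⟩,
    ⟨[(0, 1), (1, 3)], [(0, 0), (1, 0), (1, 1), (1, 7), (2, 0)], [(0, 7)], [2], [(0, 0,
      [1]), (8, 7, [1])]⟩]
  Ta := []
  Tb := [((0, 3, 8), 0, 4, 7), ((1, 2, 7), 1, 2, 8), ((2, 1, 8), 2, 1, 7), ((3, 0, 4), 4, 0, 5),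
    ((4, 3, 5), 5, 4, 6), ((5, 4, 6), 6, 5, 3), ((6, 5, 7), 3, 6, 8), ((7, 1, 6), 8, 1, 3),
    ((8, 0, 2), 7, 0, 2)]
  Tc := [(1, 0, 3), (1, 0, 4), (1, 0, 5), (1, 0, 6), (1, 0, 7), (1, 3, 4), (1, 3, 5), (1, 3, 6),
    (1, 3, 7), (1, 4, 5), (1, 4, 6), (1, 4, 7), (1, 5, 6), (1, 5, 7), (1, 6, 7)]
  Td := [((0, 1), (0, 3), 4), ((0, 1), (0, 8), 7), ((1, 0), (1, 2), 2), ((1, 0), (1, 7), 8), ((1,
    3), (1, 2), 2), ((1, 3), (1, 7), 8), ((1, 4), (1, 2), 2), ((1, 4), (1, 7), 8), ((1, 5),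
    (1, 2), 2), ((1, 5), (1, 7), 8), ((1, 6), (1, 2), 2), ((1, 6), (1, 7), 8), ((1, 7), (1,
    2), 2), ((1, 7), (1, 7), 8), ((3, 1), (6, 5), 6), ((3, 1), (6, 7), 8), ((4, 1), (3, 0),
    0), ((4, 1), (3, 4), 5), ((5, 1), (4, 3), 4), ((5, 1), (4, 5), 6), ((6, 1), (5, 4), 5),
    ((6, 1), (5, 6), 3), ((7, 1), (8, 0), 0), ((7, 1), (8, 2), 2)]
  G := [[0, 0x4cce1881c4, 0x222d284, 0xc42cc92c2, 0x222d284]]

noncomputable def n110 : Ent := ⟨e110, noF, [], [], [(8, 13, [18394062992640663726968434746027364144358640063418388481, 0])]⟩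

def c110 : PLift (Cov.check n110.C.D v110 = true) := ⟨by decide +kernel⟩

def b110 : PLift (entF (fidx ts) 400 110 n110 = true) := ⟨by decide +kernel⟩

theorem g110 : GoodF (fidx ts) 400 110 := GoodF.ofV v110 n110 c110.down b110.down

/-- 45854:106 -/
noncomputable def e111 : SCfg where
  D := {
    a := 5
    L := 8
    kp := 6
    inn := [(0, 1), (0, 2), (1, 0), (1, 2), (2, 0), (2, 1), (2, 3), (2, 4), (3, 2), (3, 4), (4, 2), (4,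
      3)]
    mix := [(0, 0), (0, 1), (1, 1), (1, 2), (1, 3), (2, 0), (2, 3), (2, 4), (2, 5), (3, 5), (3, 6), (3,
      7), (4, 0), (4, 7)]
    cl := [0, 2, 5, 0, 6, 1, 4, 3]
    chq := [(0, 1), (0, 4), (1, 0), (4, 0)]
    rng := [(0, 1), (0, 7), (1, 0), (1, 2), (2, 1), (2, 3), (3, 2), (3, 4), (4, 3), (4, 5), (5, 4), (5,
      6), (6, 5), (6, 7), (7, 0), (7, 6)]
    lev := [] }
  links := [[1, 2, 5, 6], [2, 0, 6, 7, 8], [5, 0, 1, 8, 9, 10, 3, 4], [4, 2, 10, 11, 12], [5, 2, 3, 12]]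
  P := {
    a := 5
    N := 13
    nb := [102, 453, 1851, 7188, 4140, 4181, 163, 322, 646, 1284, 2572, 5128, 2104]
    tri := [(0, 1, 2), (0, 1, 6), (0, 2, 5), (0, 5, 6), (1, 2, 8), (1, 6, 7), (1, 7, 8), (2, 3, 4), (2,
      3, 10), (2, 4, 5), (2, 8, 9), (2, 9, 10), (3, 4, 12), (3, 10, 11), (3, 11, 12), (4, 5, 12)]
    fin := [0, 0, 0, 0, 0, 0, 6, 7, 0, 9, 10, 11, 12]
    chd := [(0, 10), (0, 11)]
    steps := [(0, 1), (0, 2), (0, 3), (0, 4), (0, 5), (0, 8)] }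
  rep := [0, 10, 6, 12, 11, 7, 9]

noncomputable def v111 : Cov.CovD where
  P := 3
  N := 4
  pl := [1, 2, 4, 7]
  lev := [⟨[], [], [], [2], [(0, 0, [1, 4])]⟩,
    ⟨[], [(0, 0)], [], [2, 5], [(3, 0, [1, 4])]⟩,
    ⟨[(0, 1)], [(0, 0), (0, 1), (1, 0), (1, 1)], [(0, 0), (0, 1)], [6], [(0, 0, [1, 4]),
      (3, 0, [1, 4]), (5, 1, [0])]⟩,
    ⟨[(0, 2), (1, 2)], [(2, 0), (2, 1), (2, 4)], [(1, 4)], [3], [(5, 1, [0]), (6, 4, [0])]⟩,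
    ⟨[(0, 2), (1, 2), (2, 3)], [(0, 0), (2, 0), (2, 1), (3, 0), (3, 1), (3, 4)], [], [3],
      [(0, 0, [1, 4])]⟩]
  Ta := [((0, 1), 0, 2), ((0, 7), 0, 3), ((3, 2), 0, 5), ((3, 4), 0, 6)]
  Tb := [((0, 1, 7), 0, 2, 3), ((1, 0, 2), 2, 0, 5), ((2, 1, 3), 5, 2, 0), ((3, 2, 4), 0, 5, 6),
    ((4, 3, 5), 6, 0, 1), ((5, 4, 6), 1, 6, 4), ((6, 5, 7), 4, 1, 3), ((7, 0, 6), 3, 0, 4)]
  Tc := [(0, 1, 4)]
  Td := [((0, 1), (0, 1), 2), ((0, 1), (0, 7), 3), ((0, 1), (3, 2), 5), ((0, 1), (3, 4), 6), ((0,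
    4), (0, 1), 2), ((0, 4), (0, 7), 3), ((0, 4), (3, 2), 5), ((0, 4), (3, 4), 6), ((1, 0),
    (5, 4), 6), ((1, 0), (5, 6), 4), ((4, 0), (6, 5), 1), ((4, 0), (6, 7), 3)]
  G := [[0, 0xa1c1a14, 0x61a1ca1a1ca4, 0x42ad41226d81c, 0x22cd482dc12], [0, 0xa1a1614, 0,
    0x61c1cc1a1cc1, 0x6161ca1c1ca1]]

noncomputable def n111 : Ent := ⟨e111, noF, [], [], []⟩

def c111 : PLift (Cov.check n111.C.D v111 = true) := ⟨by decide +kernel⟩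

def b111 : PLift (entF (fidx ts) 400 111 n111 = true) := ⟨by decide +kernel⟩

theorem g111 : GoodF (fidx ts) 400 111 := GoodF.ofV v111 n111 c111.down b111.down

/-- 45854:107 -/
noncomputable def e112 : SCfg where
  D := {
    a := 5
    L := 8
    kp := 6
    inn := [(0, 1), (0, 2), (1, 0), (1, 2), (2, 0), (2, 1), (2, 3), (2, 4), (3, 2), (3, 4), (4, 2), (4,
      3)]
    mix := [(0, 0), (0, 1), (1, 1), (1, 2), (1, 3), (2, 0), (2, 3), (2, 4), (2, 5), (3, 5), (3, 6), (3,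
      7), (4, 4), (4, 6)]
    cl := [1, 2, 5, 0, 3, 0, 4, 6]
    chq := [(1, 5), (3, 6), (5, 1), (6, 3)]
    rng := [(0, 1), (0, 5), (1, 0), (1, 2), (2, 1), (2, 3), (3, 2), (3, 4), (4, 3), (4, 6), (5, 0), (5,
      7), (6, 4), (6, 7), (7, 5), (7, 6)]
    lev := [] }
  links := [[1, 2, 5, 6], [2, 0, 6, 7, 8], [5, 0, 1, 8, 9, 4, 3, 10], [10, 2, 4, 11, 12], [11, 3, 2, 9]]
  P := {
    a := 5
    N := 13
    nb := [102, 453, 1851, 7188, 2572, 1093, 163, 322, 646, 2324, 4140, 4632, 3080]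
    tri := [(0, 1, 2), (0, 1, 6), (0, 2, 5), (0, 5, 6), (1, 2, 8), (1, 6, 7), (1, 7, 8), (2, 3, 4), (2,
      3, 10), (2, 4, 9), (2, 5, 10), (2, 8, 9), (3, 4, 11), (3, 10, 12), (3, 11, 12), (4, 9, 11)]
    fin := [0, 0, 2, 3, 3, 0, 6, 7, 2, 3, 2, 11, 12]
    chd := [(0, 7), (3, 12)]
    steps := [(0, 1), (0, 5), (2, 8), (2, 10), (3, 4), (3, 9)] }
  rep := [2, 0, 6, 3, 11, 7, 12]

noncomputable def v112 : Cov.CovD where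
  P := 3
  N := 4
  pl := [1, 6]
  lev := [⟨[], [], [], [2], [(0, 1, [5])]⟩,
    ⟨[], [(0, 0), (0, 1), (0, 5)], [(0, 5)], [2], [(2, 5, [1]), (3, 0, [])]⟩,
    ⟨[(0, 1)], [(0, 0), (0, 1), (0, 3), (1, 0), (1, 1), (1, 3), (1, 5)], [(0, 0), (0, 1),
      (0, 3), (1, 3)], [], [(0, 1, [5]), (3, 0, []), (4, 3, [6]), (5, 0, [])]⟩,
    ⟨[(0, 2), (1, 2)], [(2, 0), (2, 1), (2, 3), (2, 6)], [(0, 6)], [4], [(5, 0, []), (7, 6,
      [3])]⟩,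
    ⟨[(0, 2), (1, 2), (2, 3)], [(2, 0), (2, 1), (2, 3), (3, 0), (3, 3), (3, 6)], [], [4],
      [(4, 3, [6])]⟩]
  Ta := [((3, 2), 0, 5), ((3, 4), 0, 3), ((5, 0), 0, 1), ((5, 7), 0, 6)]
  Tb := [((0, 1, 5), 1, 2, 0), ((1, 0, 2), 2, 1, 5), ((2, 1, 3), 5, 2, 0), ((3, 2, 4), 0, 5, 3),
    ((4, 3, 6), 3, 0, 4), ((5, 0, 7), 0, 1, 6), ((6, 4, 7), 4, 3, 6), ((7, 5, 6), 6, 0, 4)]
  Tc := []
  Td := [((1, 5), (0, 1), 2), ((1, 5), (0, 5), 0), ((3, 6), (4, 3), 0), ((3, 6), (4, 6), 4), ((5,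
    1), (2, 1), 2), ((5, 1), (2, 3), 0), ((6, 3), (7, 5), 0), ((6, 3), (7, 6), 4)]
  G := [[0, 0, 0x2487329c24, 0x325284bc8e5b29cc1, 0x32524cbc28], [0, 0x481e2a8e618,
    0x12124ec22ac82c, 0x124e41218e81c, 0x292e521ec21]]

noncomputable def n112 : Ent := ⟨e112, noF, [], [], []⟩

def c112 : PLift (Cov.check n112.C.D v112 = true) := ⟨by decide +kernel⟩

def b112 : PLift (entF (fidx ts) 400 112 n112 = true) := ⟨by decide +kernel⟩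

theorem g112 : GoodF (fidx ts) 400 112 := GoodF.ofV v112 n112 c112.down b112.down

/-- 45854:108 -/
noncomputable def e113 : SCfg where
  D := {
    a := 5
    L := 9
    kp := 6
    inn := [(0, 1), (0, 2), (1, 0), (1, 2), (2, 0), (2, 1), (2, 3), (3, 2), (3, 4), (4, 3)]
    mix := [(0, 0), (0, 1), (1, 1), (1, 2), (1, 3), (2, 0), (2, 3), (2, 4), (2, 5), (2, 6), (3, 5), (3,
      6), (3, 7), (4, 5), (4, 7), (4, 8)]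
    cl := [0, 2, 4, 0, 5, 1, 1, 3, 6]
    chq := []
    rng := [(0, 1), (0, 6), (1, 0), (1, 2), (2, 1), (2, 3), (3, 2), (3, 4), (4, 3), (4, 5), (5, 4), (5,
      8), (6, 0), (6, 7), (7, 6), (7, 8), (8, 5), (8, 7)]
    lev := [] }
  links := [[1, 2, 5, 6], [2, 0, 6, 7, 8], [5, 0, 1, 8, 9, 10, 3, 11], [11, 2, 10, 4, 12], [12, 3, 10,
    13]]
  P := {
    a := 5
    N := 14
    nb := [102, 453, 3883, 7188, 13320, 2117, 163, 322, 646, 1284, 8732, 4140, 10264, 5136]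
    tri := [(0, 1, 2), (0, 1, 6), (0, 2, 5), (0, 5, 6), (1, 2, 8), (1, 6, 7), (1, 7, 8), (2, 3, 10),
      (2, 3, 11), (2, 5, 11), (2, 8, 9), (2, 9, 10), (3, 4, 10), (3, 4, 12), (3, 11, 12), (4, 10,
      13), (4, 12, 13)]
    fin := [0, 0, 0, 3, 3, 0, 6, 7, 0, 9, 3, 3, 12, 13]
    chd := []
    steps := [(0, 1), (0, 2), (0, 5), (0, 8), (3, 4), (3, 10), (3, 11)] }
  rep := [0, 3, 6, 12, 7, 9, 13]

noncomputable def v113 : Cov.CovD where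
  P := 3
  N := 4
  pl := [1, 2, 4, 7, 8]
  lev := [⟨[], [], [], [2], [(0, 0, [])]⟩,
    ⟨[], [(0, 0)], [], [2, 4], [(3, 0, [])]⟩,
    ⟨[(0, 1)], [(0, 0), (0, 1), (1, 0), (1, 1)], [(0, 0), (0, 1), (1, 1)], [5], [(0, 0,
      []), (3, 0, []), (5, 1, []), (6, 1, [])]⟩,
    ⟨[(0, 2), (1, 2)], [(2, 0), (2, 1)], [(1, 1)], [3], [(5, 1, []), (6, 1, [])]⟩,
    ⟨[(2, 3)], [(2, 1), (3, 1)], [], [3, 6], [(5, 1, [])]⟩]
  Ta := [((0, 1), 0, 2), ((0, 6), 0, 1), ((3, 2), 0, 4), ((3, 4), 0, 5), ((5, 4), 1, 5), ((5, 8),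
    1, 6), ((6, 0), 1, 0), ((6, 7), 1, 3)]
  Tb := [((0, 1, 6), 0, 2, 1), ((1, 0, 2), 2, 0, 4), ((2, 1, 3), 4, 2, 0), ((3, 2, 4), 0, 4, 5),
    ((4, 3, 5), 5, 0, 1), ((5, 4, 8), 1, 5, 6), ((6, 0, 7), 1, 0, 3), ((7, 6, 8), 3, 1, 6),
    ((8, 5, 7), 6, 1, 3)]
  Tc := []
  Td := []
  G := [[0, 0, 0xc95c59cc95c59ca4, 0xc95c59c18, 0xc95c59c18], [0, 0x11a11c618,
    0x29592ccc25c29cc2, 0x635259c14, 0x25992cc12], [0, 0, 0, 0xc95c59cc95c59cc1,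
    0xc95c59cc95c59ca1], [0, 0, 0, 0x6a5639c635c29cc1, 0xc95a35c25c295ca1]]

noncomputable def n113 : Ent := ⟨e113, noF, [], [], []⟩

def c113 : PLift (Cov.check n113.C.D v113 = true) := ⟨by decide +kernel⟩

def b113 : PLift (entF (fidx ts) 400 113 n113 = true) := ⟨by decide +kernel⟩

theorem g113 : GoodF (fidx ts) 400 113 := GoodF.ofV v113 n113 c113.down b113.down

/-- 45854:109 -/
noncomputable def e114 : SCfg where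
  D := {
    a := 5
    L := 9
    kp := 6
    inn := [(0, 1), (0, 2), (1, 0), (1, 2), (2, 0), (2, 1), (2, 3), (3, 2), (3, 4), (4, 3)]
    mix := [(0, 0), (0, 1), (1, 1), (1, 2), (1, 3), (2, 0), (2, 3), (2, 4), (2, 5), (2, 6), (3, 5), (3,
      6), (3, 7), (4, 6), (4, 7), (4, 8)]
    cl := [0, 2, 4, 0, 5, 1, 1, 3, 6]
    chq := []
    rng := [(0, 1), (0, 6), (1, 0), (1, 2), (2, 1), (2, 3), (3, 2), (3, 4), (4, 3), (4, 5), (5, 4), (5,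
      7), (6, 0), (6, 8), (7, 5), (7, 8), (8, 6), (8, 7)]
    lev := [] }
  links := [[1, 2, 5, 6], [2, 0, 6, 7, 8], [5, 0, 1, 8, 9, 10, 3, 11], [11, 2, 10, 12, 4], [11, 3, 12,
    13]]
  P := {
    a := 5
    N := 14
    nb := [102, 453, 3883, 7188, 14344, 2117, 163, 322, 646, 1284, 4620, 8252, 9240, 6160]
    tri := [(0, 1, 2), (0, 1, 6), (0, 2, 5), (0, 5, 6), (1, 2, 8), (1, 6, 7), (1, 7, 8), (2, 3, 10),
      (2, 3, 11), (2, 5, 11), (2, 8, 9), (2, 9, 10), (3, 4, 11), (3, 4, 12), (3, 10, 12), (4, 11,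
      13), (4, 12, 13)]
    fin := [0, 0, 0, 3, 3, 0, 6, 7, 0, 9, 3, 3, 12, 13]
    chd := []
    steps := [(0, 1), (0, 2), (0, 5), (0, 8), (3, 4), (3, 10), (3, 11)] }
  rep := [0, 3, 6, 12, 7, 9, 13]

noncomputable def v114 : Cov.CovD where
  P := 3
  N := 4
  pl := [1, 2, 4, 7, 8]
  lev := [⟨[], [], [], [2], [(0, 0, [])]⟩,
    ⟨[], [(0, 0)], [], [2, 4], [(3, 0, [])]⟩,
    ⟨[(0, 1)], [(0, 0), (0, 1), (1, 0), (1, 1)], [(0, 0), (0, 1), (1, 1)], [5], [(0, 0,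
      []), (3, 0, []), (5, 1, []), (6, 1, [])]⟩,
    ⟨[(0, 2), (1, 2)], [(2, 0), (2, 1)], [(1, 1)], [3], [(5, 1, []), (6, 1, [])]⟩,
    ⟨[(2, 3)], [(2, 1), (3, 1)], [], [3, 6], [(6, 1, [])]⟩]
  Ta := [((0, 1), 0, 2), ((0, 6), 0, 1), ((3, 2), 0, 4), ((3, 4), 0, 5), ((5, 4), 1, 5), ((5, 7),
    1, 3), ((6, 0), 1, 0), ((6, 8), 1, 6)]
  Tb := [((0, 1, 6), 0, 2, 1), ((1, 0, 2), 2, 0, 4), ((2, 1, 3), 4, 2, 0), ((3, 2, 4), 0, 4, 5),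
    ((4, 3, 5), 5, 0, 1), ((5, 4, 7), 1, 5, 3), ((6, 0, 8), 1, 0, 6), ((7, 5, 8), 3, 1, 6),
    ((8, 6, 7), 6, 1, 3)]
  Tc := []
  Td := []
  G := [[0, 0, 0x295c29c259259ca4, 0xc25259c18, 0x25cc29c12], [0, 0xc6aa6c614,
    0xc95c59cc95c59c68, 0xc95c59c14, 0xc95c59c18], [0, 0, 0, 0x3694295c29ccc2588c,
    0x635c29c6ac259ca1], [0, 0, 0, 0xc95c59cc95c59cc1, 0xc95c59cc95c59ca1]]

noncomputable def n114 : Ent := ⟨e114, noF, [], [], []⟩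

def c114 : PLift (Cov.check n114.C.D v114 = true) := ⟨by decide +kernel⟩

def b114 : PLift (entF (fidx ts) 400 114 n114 = true) := ⟨by decide +kernel⟩

theorem g114 : GoodF (fidx ts) 400 114 := GoodF.ofV v114 n114 c114.down b114.down

/-- 45844:110 -/
noncomputable def e115 : SCfg where
  D := {
    a := 5
    L := 8
    kp := 6
    inn := [(0, 1), (0, 2), (1, 0), (1, 2), (2, 0), (2, 1), (2, 3), (2, 4), (3, 2), (4, 2)]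
    mix := [(0, 0), (0, 1), (1, 1), (1, 2), (1, 3), (2, 0), (2, 3), (2, 4), (2, 5), (3, 4), (3, 5), (3,
      6), (4, 0), (4, 5), (4, 7)]
    cl := [0, 1, 5, 0, 2, 3, 4, 6]
    chq := [(0, 3), (0, 4), (3, 0), (4, 0)]
    rng := [(0, 1), (0, 7), (1, 0), (1, 2), (2, 1), (2, 3), (3, 2), (3, 4), (4, 3), (4, 6), (5, 6), (5,
      7), (6, 4), (6, 5), (7, 0), (7, 5)]
    lev := [] }
  links := [[1, 2, 5, 6], [2, 0, 6, 7, 8], [5, 0, 1, 8, 9, 3, 10, 4], [10, 2, 9, 11], [5, 2, 10, 12]]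
  P := {
    a := 5
    N := 13
    nb := [102, 453, 1851, 3588, 5156, 4181, 163, 322, 646, 2316, 6172, 1544, 1072]
    tri := [(0, 1, 2), (0, 1, 6), (0, 2, 5), (0, 5, 6), (1, 2, 8), (1, 6, 7), (1, 7, 8), (2, 3, 9), (2,
      3, 10), (2, 4, 5), (2, 4, 10), (2, 8, 9), (3, 9, 11), (3, 10, 11), (4, 5, 12), (4, 10, 12)]
    fin := [0, 0, 0, 0, 0, 0, 6, 7, 0, 9, 10, 11, 12]
    chd := [(0, 10), (0, 11)]
    steps := [(0, 1), (0, 2), (0, 3), (0, 4), (0, 5), (0, 8)] }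
  rep := [0, 6, 9, 10, 11, 7, 12]

noncomputable def v115 : Cov.CovD where
  P := 3
  N := 4
  pl := [1, 2, 4, 7]
  lev := [⟨[], [], [], [1], [(0, 0, [3, 4])]⟩,
    ⟨[], [(0, 0)], [], [1, 5], [(3, 0, [3, 4])]⟩,
    ⟨[(0, 1)], [(0, 0), (0, 3), (1, 0), (1, 3)], [(0, 0), (0, 3)], [2], [(0, 0, [3, 4]),
      (3, 0, [3, 4]), (5, 3, [0])]⟩,
    ⟨[(0, 2), (1, 2)], [(2, 0), (2, 3), (2, 4)], [(3, 4)], [2], [(5, 3, [0]), (6, 4, [0])]⟩,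
    ⟨[(0, 2), (1, 2), (2, 3)], [(0, 0), (2, 0), (2, 3), (3, 3)], [(0, 3)], [6], [(0, 0, [3,
      4]), (5, 3, [0])]⟩]
  Ta := [((0, 1), 0, 1), ((0, 7), 0, 6), ((3, 2), 0, 5), ((3, 4), 0, 2)]
  Tb := [((0, 1, 7), 0, 1, 6), ((1, 0, 2), 1, 0, 5), ((2, 1, 3), 5, 1, 0), ((3, 2, 4), 0, 5, 2),
    ((4, 3, 6), 2, 0, 4), ((5, 6, 7), 3, 4, 6), ((6, 4, 5), 4, 2, 3), ((7, 0, 5), 6, 0, 3)]
  Tc := [(0, 3, 4)]
  Td := [((0, 3), (0, 1), 1), ((0, 3), (0, 7), 6), ((0, 3), (3, 2), 5), ((0, 3), (3, 4), 2), ((0,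
    4), (0, 1), 1), ((0, 4), (0, 7), 6), ((0, 4), (3, 2), 5), ((0, 4), (3, 4), 2), ((3, 0),
    (5, 6), 4), ((3, 0), (5, 7), 6), ((4, 0), (6, 4), 2), ((4, 0), (6, 5), 3)]
  G := [[0, 0x414a121ca161ce2, 0, 0x4141a121c1c, 0xc161a14], [0, 0, 0x11c11a6811c116a4c,
    0x114411b1ca18cc, 0x5131ab111ac4]]

noncomputable def n115 : Ent := ⟨e115, noF, [], [], []⟩

def c115 : PLift (Cov.check n115.C.D v115 = true) := ⟨by decide +kernel⟩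

def b115 : PLift (entF (fidx ts) 400 115 n115 = true) := ⟨by decide +kernel⟩

theorem g115 : GoodF (fidx ts) 400 115 := GoodF.ofV v115 n115 c115.down b115.down

/-- 45845:111 -/
noncomputable def e116 : SCfg where
  D := {
    a := 5
    L := 9
    kp := 6
    inn := [(0, 1), (0, 2), (1, 0), (1, 2), (2, 0), (2, 1), (2, 3), (2, 4), (3, 2), (4, 2)]
    mix := [(0, 0), (0, 1), (1, 1), (1, 2), (1, 3), (2, 0), (2, 3), (2, 4), (2, 5), (3, 4), (3, 5), (3,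
      6), (4, 0), (4, 5), (4, 7), (4, 8)]
    cl := [0, 1, 3, 0, 2, 0, 4, 5, 6]
    chq := []
    rng := [(0, 1), (0, 8), (1, 0), (1, 2), (2, 1), (2, 3), (3, 2), (3, 4), (4, 3), (4, 6), (5, 6), (5,
      7), (6, 4), (6, 5), (7, 5), (7, 8), (8, 0), (8, 7)]
    lev := [] }
  links := [[1, 2, 5, 6], [2, 0, 6, 7, 8], [5, 0, 1, 8, 9, 3, 10, 4], [10, 2, 9, 11], [5, 2, 10, 12, 13]]
  P := {
    a := 5
    N := 14
    nb := [102, 453, 1851, 3588, 13348, 8277, 163, 322, 646, 2316, 6172, 1544, 9232, 4144]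
    tri := [(0, 1, 2), (0, 1, 6), (0, 2, 5), (0, 5, 6), (1, 2, 8), (1, 6, 7), (1, 7, 8), (2, 3, 9), (2,
      3, 10), (2, 4, 5), (2, 4, 10), (2, 8, 9), (3, 9, 11), (3, 10, 11), (4, 5, 13), (4, 10, 12),
      (4, 12, 13)]
    fin := [0, 0, 0, 0, 0, 0, 6, 7, 0, 9, 0, 11, 12, 13]
    chd := []
    steps := [(0, 1), (0, 2), (0, 3), (0, 4), (0, 5), (0, 8), (0, 10)] }
  rep := [0, 6, 9, 7, 11, 12, 13]

noncomputable def v116 : Cov.CovD where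
  P := 3
  N := 4
  pl := [1, 2, 4, 6, 7, 8]
  lev := [⟨[], [], [], [1], [(0, 0, [])]⟩,
    ⟨[], [(0, 0)], [], [1, 3], [(3, 0, [])]⟩,
    ⟨[(0, 1)], [(0, 0), (1, 0)], [(0, 0)], [2], [(0, 0, []), (3, 0, []), (5, 0, [])]⟩,
    ⟨[(0, 2), (1, 2)], [(2, 0)], [], [2, 4], [(5, 0, [])]⟩,
    ⟨[(0, 2), (1, 2), (2, 3)], [(0, 0), (2, 0), (3, 0)], [(0, 0)], [5, 6], [(0, 0, []), (5,
      0, [])]⟩]
  Ta := [((0, 1), 0, 1), ((0, 8), 0, 6), ((3, 2), 0, 3), ((3, 4), 0, 2), ((5, 6), 0, 4), ((5, 7),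
    0, 5)]
  Tb := [((0, 1, 8), 0, 1, 6), ((1, 0, 2), 1, 0, 3), ((2, 1, 3), 3, 1, 0), ((3, 2, 4), 0, 3, 2),
    ((4, 3, 6), 2, 0, 4), ((5, 6, 7), 0, 4, 5), ((6, 4, 5), 4, 2, 0), ((7, 5, 8), 5, 0, 6),
    ((8, 0, 7), 6, 0, 5)]
  Tc := []
  Td := []
  G := [[0, 0xe18e1864, 0, 0xe1814, 0xe1218], [0, 0, 0xe2ce2eec2c1, 0x6181ce18c4, 0xe12e12c8],
    [0, 0, 0, 0x6ec88c14, 0x22ecaa14]]

noncomputable def n116 : Ent := ⟨e116, noF, [], [], []⟩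

def c116 : PLift (Cov.check n116.C.D v116 = true) := ⟨by decide +kernel⟩

def b116 : PLift (entF (fidx ts) 400 116 n116 = true) := ⟨by decide +kernel⟩

theorem g116 : GoodF (fidx ts) 400 116 := GoodF.ofV v116 n116 c116.down b116.down

/-- 45845:112/1 -/
noncomputable def e117 : SCfg where
  D := {
    a := 5
    L := 8
    kp := 5
    inn := [(0, 1), (0, 2), (1, 0), (1, 2), (2, 0), (2, 1), (2, 3), (3, 2), (3, 4), (4, 3)]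
    mix := [(0, 0), (0, 1), (1, 1), (1, 2), (1, 3), (2, 0), (2, 3), (2, 4), (2, 5), (2, 6), (3, 4), (3,
      5), (4, 2), (4, 4), (4, 5), (4, 7)]
    cl := [0, 3, 4, 0, 1, 1, 2, 5]
    chq := []
    rng := [(0, 1), (0, 6), (1, 0), (1, 2), (2, 1), (2, 3), (2, 4), (2, 7), (3, 2), (3, 4), (4, 2), (4,
      3), (5, 6), (5, 7), (6, 0), (6, 5), (7, 2), (7, 5)]
    lev := [] }
  links := [[1, 2, 5, 6], [2, 0, 6, 7, 8], [5, 0, 1, 8, 9, 3, 10, 11], [10, 2, 9, 4], [10, 3, 9, 7, 12]]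
  P := {
    a := 5
    N := 13
    nb := [102, 453, 3883, 1556, 5768, 2117, 163, 4946, 646, 412, 6172, 1060, 1168]
    tri := [(0, 1, 2), (0, 1, 6), (0, 2, 5), (0, 5, 6), (1, 2, 8), (1, 6, 7), (1, 7, 8), (2, 3, 9), (2,
      3, 10), (2, 5, 11), (2, 8, 9), (2, 10, 11), (3, 4, 9), (3, 4, 10), (4, 7, 9), (4, 7, 12),
      (4, 10, 12)]
    fin := [0, 0, 0, 3, 4, 0, 6, 4, 0, 3, 3, 11, 12]
    chd := []
    steps := [(0, 1), (0, 2), (0, 5), (0, 8), (3, 9), (3, 10), (4, 7)] }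
  rep := [0, 3, 11, 6, 4, 12]

noncomputable def v117 : Cov.CovD where
  P := 3
  N := 3
  pl := [1, 2, 6, 7]
  lev := [⟨[], [], [], [3], [(0, 0, [])]⟩,
    ⟨[], [(0, 0)], [], [3, 4], [(3, 0, [])]⟩,
    ⟨[(0, 1)], [(0, 0), (0, 1), (1, 0), (1, 1)], [(0, 0), (0, 1), (1, 1)], [2], [(0, 0,
      []), (3, 0, []), (4, 1, []), (5, 1, [])]⟩,
    ⟨[(0, 2), (1, 2)], [(2, 0), (2, 1)], [(1, 1)], [], [(4, 1, []), (5, 1, [])]⟩,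
    ⟨[(2, 3)], [(2, 1), (3, 1)], [(1, 1)], [4, 5], [(4, 1, []), (5, 1, [])]⟩]
  Ta := [((0, 1), 0, 3), ((0, 6), 0, 2), ((3, 2), 0, 4), ((3, 4), 0, 1), ((4, 2), 1, 4), ((4, 3),
    1, 0), ((5, 6), 1, 2), ((5, 7), 1, 5)]
  Tb := [((0, 1, 6), 0, 3, 2), ((1, 0, 2), 3, 0, 4), ((2, 1, 3), 4, 3, 0), ((2, 1, 4), 4, 3, 1),
    ((2, 1, 7), 4, 3, 5), ((2, 3, 4), 4, 0, 1), ((2, 3, 7), 4, 0, 5), ((2, 4, 7), 4, 1, 5),
    ((3, 2, 4), 0, 4, 1), ((4, 2, 3), 1, 4, 0), ((5, 6, 7), 1, 2, 5), ((6, 0, 5), 2, 0, 1),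
    ((7, 2, 5), 5, 4, 1)]
  Tc := []
  Td := []
  G := [[0, 0, 0xd181d141a, 0, 0xd181948518a6], [0, 0, 0xd481d182a, 0xd141d842a, 0xd181d182a],
    [0, 0xe28e24e84e1, 0, 0, 0x948588d18e1], [0, 0, 0, 0x914518d48e1, 0x948548d18e1]]

noncomputable def n117 : Ent := ⟨e117, noF, [], [], []⟩

def c117 : PLift (Cov.check n117.C.D v117 = true) := ⟨by decide +kernel⟩

def b117 : PLift (entF (fidx ts) 400 117 n117 = true) := ⟨by decide +kernel⟩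

theorem g117 : GoodF (fidx ts) 400 117 := GoodF.ofV v117 n117 c117.down b117.down

/-- 45845:112 -/
noncomputable def e118 : SCfg where
  D := {
    a := 5
    L := 9
    kp := 6
    inn := [(0, 1), (0, 2), (1, 0), (1, 2), (2, 0), (2, 1), (2, 3), (3, 2), (3, 4), (4, 3)]
    mix := [(0, 0), (0, 1), (1, 1), (1, 2), (1, 3), (2, 0), (2, 3), (2, 4), (2, 5), (2, 6), (3, 4), (3,
      5), (4, 4), (4, 5), (4, 7), (4, 8)]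
    cl := [0, 3, 4, 0, 1, 1, 2, 5, 6]
    chq := []
    rng := [(0, 1), (0, 6), (1, 0), (1, 2), (2, 1), (2, 3), (3, 2), (3, 4), (4, 3), (4, 7), (5, 6), (5,
      8), (6, 0), (6, 5), (7, 4), (7, 8), (8, 5), (8, 7)]
    lev := [] }
  links := [[1, 2, 5, 6], [2, 0, 6, 7, 8], [5, 0, 1, 8, 9, 3, 10, 11], [10, 2, 9, 4], [10, 3, 9, 12, 13]]
  P := {
    a := 5
    N := 14
    nb := [102, 453, 3883, 1556, 13832, 2117, 163, 322, 646, 4380, 10268, 1060, 8720, 5136]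
    tri := [(0, 1, 2), (0, 1, 6), (0, 2, 5), (0, 5, 6), (1, 2, 8), (1, 6, 7), (1, 7, 8), (2, 3, 9), (2,
      3, 10), (2, 5, 11), (2, 8, 9), (2, 10, 11), (3, 4, 9), (3, 4, 10), (4, 9, 12), (4, 10, 13),
      (4, 12, 13)]
    fin := [0, 0, 0, 0, 4, 0, 6, 7, 0, 4, 4, 11, 12, 13]
    chd := []
    steps := [(0, 1), (0, 2), (0, 3), (0, 5), (0, 8), (4, 9), (4, 10)] }
  rep := [0, 4, 11, 6, 7, 12, 13]

noncomputable def v118 : Cov.CovD where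
  P := 3
  N := 4
  pl := [1, 2, 6, 7, 8]
  lev := [⟨[], [], [], [3], [(0, 0, [])]⟩,
    ⟨[], [(0, 0)], [], [3, 4], [(3, 0, [])]⟩,
    ⟨[(0, 1)], [(0, 0), (0, 1), (1, 0), (1, 1)], [(0, 0), (0, 1), (1, 1)], [2], [(0, 0,
      []), (3, 0, []), (4, 1, []), (5, 1, [])]⟩,
    ⟨[(0, 2), (1, 2)], [(2, 0), (2, 1)], [(1, 1)], [], [(4, 1, []), (5, 1, [])]⟩,
    ⟨[(2, 3)], [(2, 1), (3, 1)], [(1, 1)], [5, 6], [(4, 1, []), (5, 1, [])]⟩]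
  Ta := [((0, 1), 0, 3), ((0, 6), 0, 2), ((3, 2), 0, 4), ((3, 4), 0, 1), ((4, 3), 1, 0), ((4, 7),
    1, 5), ((5, 6), 1, 2), ((5, 8), 1, 6)]
  Tb := [((0, 1, 6), 0, 3, 2), ((1, 0, 2), 3, 0, 4), ((2, 1, 3), 4, 3, 0), ((3, 2, 4), 0, 4, 1),
    ((4, 3, 7), 1, 0, 5), ((5, 6, 8), 1, 2, 6), ((6, 0, 5), 2, 0, 1), ((7, 4, 8), 5, 1, 6),
    ((8, 5, 7), 6, 1, 5)]
  Tc := []
  Td := []
  G := [[0, 0, 0xd181d481c, 0, 0xd481d18d186a], [0, 0, 0xd481d841a, 0xd841d48d486c,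
    0xd181d48d186a], [0, 0xe484e84e24a5, 0, 0, 0xd18d48d18e1], [0, 0, 0, 0xd14d14d14e1,
    0xd48d48d48e1]]

noncomputable def n118 : Ent := ⟨e118, noF, [], [], [(7, 12, [19926558533506552585326781773177673327977379185602023425, 0])]⟩

def c118 : PLift (Cov.check n118.C.D v118 = true) := ⟨by decide +kernel⟩

def b118 : PLift (entF (fidx ts) 400 118 n118 = true) := ⟨by decide +kernel⟩

theorem g118 : GoodF (fidx ts) 400 118 := GoodF.ofV v118 n118 c118.down b118.down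

/-- 45854:113 -/
noncomputable def e119 : SCfg where
  D := {
    a := 5
    L := 9
    kp := 6
    inn := [(0, 1), (0, 2), (1, 0), (1, 2), (2, 0), (2, 1), (2, 3), (2, 4), (3, 2), (4, 2)]
    mix := [(0, 0), (0, 1), (1, 1), (1, 2), (1, 3), (2, 0), (2, 3), (2, 4), (2, 5), (3, 4), (3, 5), (3,
      6), (3, 7), (4, 0), (4, 5), (4, 8)]
    cl := [0, 2, 3, 0, 1, 1, 4, 5, 6]
    chq := []
    rng := [(0, 1), (0, 8), (1, 0), (1, 2), (2, 1), (2, 3), (3, 2), (3, 4), (4, 3), (4, 6), (5, 7), (5,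
      8), (6, 4), (6, 7), (7, 5), (7, 6), (8, 0), (8, 5)]
    lev := [] }
  links := [[1, 2, 5, 6], [2, 0, 6, 7, 8], [5, 0, 1, 8, 9, 3, 10, 4], [10, 2, 9, 11, 12], [5, 2, 10, 13]]
  P := {
    a := 5
    N := 14
    nb := [102, 453, 1851, 7684, 9252, 8277, 163, 322, 646, 2316, 12316, 4616, 3080, 1072]
    tri := [(0, 1, 2), (0, 1, 6), (0, 2, 5), (0, 5, 6), (1, 2, 8), (1, 6, 7), (1, 7, 8), (2, 3, 9), (2,
      3, 10), (2, 4, 5), (2, 4, 10), (2, 8, 9), (3, 9, 11), (3, 10, 12), (3, 11, 12), (4, 5, 13),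
      (4, 10, 13)]
    fin := [0, 0, 0, 3, 0, 0, 6, 7, 0, 3, 3, 11, 12, 13]
    chd := []
    steps := [(0, 1), (0, 2), (0, 4), (0, 5), (0, 8), (3, 9), (3, 10)] }
  rep := [0, 3, 6, 7, 11, 12, 13]

noncomputable def v119 : Cov.CovD where
  P := 3
  N := 4
  pl := [1, 2, 6, 7, 8]
  lev := [⟨[], [], [], [2], [(0, 0, [])]⟩,
    ⟨[], [(0, 0)], [], [2, 3], [(3, 0, [])]⟩,
    ⟨[(0, 1)], [(0, 0), (0, 1), (1, 0), (1, 1)], [(0, 0), (0, 1), (1, 1)], [], [(0, 0, []),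
      (3, 0, []), (4, 1, []), (5, 1, [])]⟩,
    ⟨[(0, 2), (1, 2)], [(2, 0), (2, 1)], [(1, 1)], [4, 5], [(4, 1, []), (5, 1, [])]⟩,
    ⟨[(0, 2), (1, 2), (2, 3)], [(0, 0), (2, 0), (2, 1), (3, 1)], [(0, 1)], [6], [(0, 0,
      []), (5, 1, [])]⟩]
  Ta := [((0, 1), 0, 2), ((0, 8), 0, 6), ((3, 2), 0, 3), ((3, 4), 0, 1), ((4, 3), 1, 0), ((4, 6),
    1, 4), ((5, 7), 1, 5), ((5, 8), 1, 6)]
  Tb := [((0, 1, 8), 0, 2, 6), ((1, 0, 2), 2, 0, 3), ((2, 1, 3), 3, 2, 0), ((3, 2, 4), 0, 3, 1),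
    ((4, 3, 6), 1, 0, 4), ((5, 7, 8), 1, 5, 6), ((6, 4, 7), 4, 1, 5), ((7, 5, 6), 5, 1, 4),
    ((8, 0, 5), 6, 0, 1)]
  Tc := []
  Td := []
  G := [[0, 0, 0x22528c222d8c4, 0x222d418, 0x222d812], [0, 0, 0x44c8cdcc4cc9ca2, 0x44c8cdc18,
    0x4ccd88c12], [0, 0xca6e4c6ce2c8, 0, 0x222d4222d8c1, 0x121d4122d4a2], [0, 0, 0,
    0x11518c111d8c4, 0x111d4111d4a8]]

noncomputable def n119 : Ent := ⟨e119, noF, [], [], []⟩

def c119 : PLift (Cov.check n119.C.D v119 = true) := ⟨by decide +kernel⟩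

def b119 : PLift (entF (fidx ts) 400 119 n119 = true) := ⟨by decide +kernel⟩

theorem g119 : GoodF (fidx ts) 400 119 := GoodF.ofV v119 n119 c119.down b119.down

/-- 45855:114/1 -/
noncomputable def e120 : SCfg where
  D := {
    a := 5
    L := 9
    kp := 6
    inn := [(0, 1), (0, 2), (1, 0), (1, 2), (2, 0), (2, 1), (2, 3), (2, 4), (3, 2), (4, 2)]
    mix := [(0, 0), (0, 1), (1, 1), (1, 2), (1, 3), (2, 0), (2, 3), (2, 4), (2, 5), (3, 4), (3, 5), (3,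
      6), (3, 7), (4, 0), (4, 5), (4, 7), (4, 8)]
    cl := [0, 3, 2, 1, 0, 0, 5, 4, 6]
    chq := [(1, 3), (3, 1)]
    rng := [(0, 1), (0, 8), (1, 0), (1, 2), (2, 1), (2, 3), (3, 2), (3, 4), (4, 3), (4, 6), (5, 7), (6,
      4), (6, 7), (7, 5), (7, 6), (7, 8), (8, 0), (8, 7)]
    lev := [] }
  links := [[1, 2, 5, 6], [2, 0, 6, 7, 8], [5, 0, 1, 8, 9, 3, 10, 4], [10, 2, 9, 11, 12], [5, 2, 10, 12,
    13]]
  P := {
    a := 5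
    N := 14
    nb := [102, 453, 1851, 7684, 13348, 8277, 163, 322, 646, 2316, 4124, 4616, 11288, 4144]
    tri := [(0, 1, 2), (0, 1, 6), (0, 2, 5), (0, 5, 6), (1, 2, 8), (1, 6, 7), (1, 7, 8), (2, 3, 9), (2,
      3, 10), (2, 4, 5), (2, 4, 10), (2, 8, 9), (3, 9, 11), (3, 10, 12), (3, 11, 12), (4, 5, 13),
      (4, 10, 12), (4, 12, 13)]
    fin := [0, 1, 0, 0, 0, 0, 1, 7, 8, 0, 0, 11, 12, 13]
    chd := [(1, 8)]
    steps := [(0, 2), (0, 3), (0, 5), (0, 9), (0, 10), (0, 4), (1, 6)] }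
  rep := [0, 8, 7, 1, 12, 11, 13]

noncomputable def v120 : Cov.CovD where
  P := 3
  N := 4
  pl := [2, 6, 7, 8]
  lev := [⟨[], [], [(0, 3)], [], [(0, 0, []), (1, 3, [1])]⟩,
    ⟨[], [(0, 0), (0, 1), (0, 3)], [(1, 3)], [2], [(1, 3, [1]), (3, 1, [3])]⟩,
    ⟨[(0, 1)], [(0, 0), (0, 1), (0, 3), (1, 0), (1, 1), (1, 3)], [(0, 0), (0, 1)], [], [(0,
      0, []), (3, 1, [3]), (4, 0, []), (5, 0, [])]⟩,
    ⟨[(0, 2), (1, 2)], [(2, 0), (2, 1)], [(0, 0)], [4, 5], [(4, 0, []), (5, 0, [])]⟩,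
    ⟨[(0, 2), (1, 2), (2, 3)], [(0, 0), (2, 0), (2, 1), (3, 0)], [(0, 0)], [4, 6], [(0, 0,
      []), (5, 0, [])]⟩]
  Ta := [((0, 1), 0, 3), ((0, 8), 0, 6), ((4, 3), 0, 1), ((4, 6), 0, 5), ((5, 7), 0, 4)]
  Tb := [((0, 1, 8), 0, 3, 6), ((1, 0, 2), 3, 0, 2), ((2, 1, 3), 2, 3, 1), ((3, 2, 4), 1, 2, 0),
    ((4, 3, 6), 0, 1, 5), ((6, 4, 7), 5, 0, 4), ((7, 5, 6), 4, 0, 5), ((7, 5, 8), 4, 0, 6),
    ((7, 6, 8), 4, 5, 6), ((8, 0, 7), 6, 0, 4)]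
  Tc := []
  Td := [((1, 3), (3, 2), 2), ((1, 3), (3, 4), 0), ((3, 1), (1, 0), 0), ((3, 1), (1, 2), 2)]
  G := [[0, 0, 0x64e8eec6eee88cc2, 0x4eeea8ce4eeac52, 0x64e8eec6eee88c92], [0,
    0xeaee4468e2eeca4c, 0x44eaeec4eeea8cc1, 0xe4eeac12, 0xe4eeac12], [0, 0,
    0x44eaeec4eeea8cc1, 0xe4eeac12, 0xe4eeac12]]

noncomputable def n120 : Ent := ⟨e120, noF, [], [], []⟩

def c120 : PLift (Cov.check n120.C.D v120 = true) := ⟨by decide +kernel⟩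

def b120 : PLift (entF (fidx ts) 400 120 n120 = true) := ⟨by decide +kernel⟩

theorem g120 : GoodF (fidx ts) 400 120 := GoodF.ofV v120 n120 c120.down b120.down

/-- 45855:114 -/
noncomputable def e121 : SCfg where
  D := {
    a := 5
    L := 10
    kp := 7
    inn := [(0, 1), (0, 2), (1, 0), (1, 2), (2, 0), (2, 1), (2, 3), (2, 4), (3, 2), (4, 2)]
    mix := [(0, 0), (0, 1), (1, 1), (1, 2), (1, 3), (2, 0), (2, 3), (2, 4), (2, 5), (3, 4), (3, 5), (3,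
      6), (3, 7), (4, 0), (4, 5), (4, 8), (4, 9)]
    cl := [0, 1, 3, 2, 0, 0, 4, 5, 6, 7]
    chq := [(1, 2), (2, 1)]
    rng := [(0, 1), (0, 9), (1, 0), (1, 2), (2, 1), (2, 3), (3, 2), (3, 4), (4, 3), (4, 6), (5, 7), (5,
      8), (6, 4), (6, 7), (7, 5), (7, 6), (8, 5), (8, 9), (9, 0), (9, 8)]
    lev := [] }
  links := [[1, 2, 5, 6], [2, 0, 6, 7, 8], [5, 0, 1, 8, 9, 3, 10, 4], [10, 2, 9, 11, 12], [5, 2, 10, 13,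
    14]]
  P := {
    a := 5
    N := 15
    nb := [102, 453, 1851, 7684, 25636, 16469, 163, 322, 646, 2316, 12316, 4616, 3080, 17424, 8240]
    tri := [(0, 1, 2), (0, 1, 6), (0, 2, 5), (0, 5, 6), (1, 2, 8), (1, 6, 7), (1, 7, 8), (2, 3, 9), (2,
      3, 10), (2, 4, 5), (2, 4, 10), (2, 8, 9), (3, 9, 11), (3, 10, 12), (3, 11, 12), (4, 5, 14),
      (4, 10, 13), (4, 13, 14)]
    fin := [0, 1, 0, 0, 0, 0, 1, 7, 8, 0, 0, 11, 12, 13, 14]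
    chd := [(1, 8)]
    steps := [(0, 2), (0, 3), (0, 4), (0, 5), (0, 9), (0, 10), (1, 6)] }
  rep := [0, 1, 8, 7, 11, 12, 13, 14]

noncomputable def v121 : Cov.CovD where
  P := 3
  N := 5
  pl := [2, 6, 7, 8, 9]
  lev := [⟨[], [], [(0, 1)], [], [(0, 0, []), (1, 1, [2])]⟩,
    ⟨[], [(0, 0), (0, 1), (0, 2)], [(1, 2)], [3], [(1, 1, [2]), (3, 2, [1])]⟩,
    ⟨[(0, 1)], [(0, 0), (0, 1), (0, 2), (1, 0), (1, 1), (1, 2)], [(0, 0), (0, 2)], [], [(0,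
      0, []), (3, 2, [1]), (4, 0, []), (5, 0, [])]⟩,
    ⟨[(0, 2), (1, 2)], [(2, 0), (2, 2)], [(0, 0)], [4, 5], [(4, 0, []), (5, 0, [])]⟩,
    ⟨[(0, 2), (1, 2), (2, 3)], [(0, 0), (2, 0), (2, 2), (3, 0)], [(0, 0)], [6, 7], [(0, 0,
      []), (5, 0, [])]⟩]
  Ta := [((0, 1), 0, 1), ((0, 9), 0, 7), ((4, 3), 0, 2), ((4, 6), 0, 4), ((5, 7), 0, 5), ((5, 8),
    0, 6)]
  Tb := [((0, 1, 9), 0, 1, 7), ((1, 0, 2), 1, 0, 3), ((2, 1, 3), 3, 1, 2), ((3, 2, 4), 2, 3, 0),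
    ((4, 3, 6), 0, 2, 4), ((5, 7, 8), 0, 5, 6), ((6, 4, 7), 4, 0, 5), ((7, 5, 6), 5, 0, 4),
    ((8, 5, 9), 6, 0, 7), ((9, 0, 8), 7, 0, 6)]
  Tc := []
  Td := [((1, 2), (1, 0), 0), ((1, 2), (1, 2), 3), ((2, 1), (3, 2), 3), ((2, 1), (3, 4), 0)]
  G := [[0, 0x666e88ec4eeea8cc2, 0, 0x666e88ec44eaeec92, 0x62ee8eaee6e8a94], [0, 0,
    0xa2ee4e66eee88ac4, 0x64e8eec6eee88ac1, 0x22eecea22eecea94], [0, 0, 0,
    0x44eaeec4eeea8cc2, 0x22eeceaee6e8a94]]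

noncomputable def n121 : Ent := ⟨e121, noF, [], [], [(12, 13, [87897818358406171357428020359653357189577334862559918391297, 0])]⟩

def c121 : PLift (Cov.check n121.C.D v121 = true) := ⟨by decide +kernel⟩

def b121 : PLift (entF (fidx ts) 400 121 n121 = true) := ⟨by decide +kernel⟩

theorem g121 : GoodF (fidx ts) 400 121 := GoodF.ofV v121 n121 c121.down b121.down

/-- 45854:115/1 -/
noncomputable def e122 : SCfg where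
  D := {
    a := 5
    L := 8
    kp := 5
    inn := [(0, 1), (0, 2), (1, 0), (1, 2), (2, 0), (2, 1), (2, 3), (3, 2), (3, 4), (4, 3)]
    mix := [(0, 0), (0, 1), (1, 1), (1, 2), (1, 3), (2, 0), (2, 3), (2, 4), (2, 5), (2, 6), (3, 4), (3,
      5), (3, 7), (4, 2), (4, 4), (4, 7)]
    cl := [0, 2, 3, 0, 1, 1, 5, 4]
    chq := []
    rng := [(0, 1), (0, 6), (1, 0), (1, 2), (2, 1), (2, 3), (2, 4), (2, 7), (3, 2), (3, 4), (4, 2), (4,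
      3), (5, 6), (5, 7), (6, 0), (6, 5), (7, 2), (7, 5)]
    lev := [] }
  links := [[1, 2, 5, 6], [2, 0, 6, 7, 8], [5, 0, 1, 8, 9, 3, 10, 11], [10, 2, 9, 4, 12], [12, 3, 9, 7]]
  P := {
    a := 5
    N := 13
    nb := [102, 453, 3883, 5652, 4744, 2117, 163, 4946, 646, 412, 6156, 1060, 1176]
    tri := [(0, 1, 2), (0, 1, 6), (0, 2, 5), (0, 5, 6), (1, 2, 8), (1, 6, 7), (1, 7, 8), (2, 3, 9), (2,
      3, 10), (2, 5, 11), (2, 8, 9), (2, 10, 11), (3, 4, 9), (3, 4, 12), (3, 10, 12), (4, 7, 9),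
      (4, 7, 12)]
    fin := [0, 0, 2, 3, 3, 0, 6, 3, 0, 2, 2, 11, 12]
    chd := []
    steps := [(0, 1), (0, 5), (0, 8), (2, 9), (2, 10), (3, 4), (3, 7)] }
  rep := [0, 2, 6, 3, 12, 11]

noncomputable def v122 : Cov.CovD where
  P := 3
  N := 3
  pl := [1, 2, 6, 7]
  lev := [⟨[], [], [], [2], [(0, 0, [])]⟩,
    ⟨[], [(0, 0)], [], [2, 3], [(3, 0, [])]⟩,
    ⟨[(0, 1)], [(0, 0), (0, 1), (1, 0), (1, 1)], [(0, 0), (0, 1), (1, 1)], [5], [(0, 0,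
      []), (3, 0, []), (4, 1, []), (5, 1, [])]⟩,
    ⟨[(0, 2), (1, 2)], [(2, 0), (2, 1)], [(1, 1)], [4], [(4, 1, []), (5, 1, [])]⟩,
    ⟨[(2, 3)], [(2, 1), (3, 1)], [], [3, 4], [(4, 1, [])]⟩]
  Ta := [((0, 1), 0, 2), ((0, 6), 0, 5), ((3, 2), 0, 3), ((3, 4), 0, 1), ((4, 2), 1, 3), ((4, 3),
    1, 0), ((5, 6), 1, 5), ((5, 7), 1, 4)]
  Tb := [((0, 1, 6), 0, 2, 5), ((1, 0, 2), 2, 0, 3), ((2, 1, 3), 3, 2, 0), ((2, 1, 4), 3, 2, 1),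
    ((2, 1, 7), 3, 2, 4), ((2, 3, 4), 3, 0, 1), ((2, 3, 7), 3, 0, 4), ((2, 4, 7), 3, 1, 4),
    ((3, 2, 4), 0, 3, 1), ((4, 2, 3), 1, 3, 0), ((5, 6, 7), 1, 5, 4), ((6, 0, 5), 5, 0, 1),
    ((7, 2, 5), 4, 3, 1)]
  Tc := []
  Td := []
  G := [[0, 0, 0x815815c415419cc2, 0xc15c19c18, 0xc15c19c12], [0, 0, 0x215219c24, 0x215219c14,
    0x219219c22], [0, 0x82a82c624c24cac4, 0, 0x895819c14c459cc1, 0xc85849c415419ca2], [0, 0,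
    0, 0x215829c425219cc1, 0xc25c29c28]]

noncomputable def n122 : Ent := ⟨e122, noF, [], [], []⟩

def c122 : PLift (Cov.check n122.C.D v122 = true) := ⟨by decide +kernel⟩

def b122 : PLift (entF (fidx ts) 400 122 n122 = true) := ⟨by decide +kernel⟩

theorem g122 : GoodF (fidx ts) 400 122 := GoodF.ofV v122 n122 c122.down b122.down

/-- 45854:115 -/
noncomputable def e123 : SCfg where
  D := {
    a := 5
    L := 9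
    kp := 6
    inn := [(0, 1), (0, 2), (1, 0), (1, 2), (2, 0), (2, 1), (2, 3), (3, 2), (3, 4), (4, 3)]
    mix := [(0, 0), (0, 1), (1, 1), (1, 2), (1, 3), (2, 0), (2, 3), (2, 4), (2, 5), (2, 6), (3, 4), (3,
      5), (3, 7), (4, 4), (4, 7), (4, 8)]
    cl := [0, 2, 4, 0, 1, 1, 5, 3, 6]
    chq := []
    rng := [(0, 1), (0, 6), (1, 0), (1, 2), (2, 1), (2, 3), (3, 2), (3, 4), (4, 3), (4, 8), (5, 6), (5,
      7), (6, 0), (6, 5), (7, 5), (7, 8), (8, 4), (8, 7)]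
    lev := [] }
  links := [[1, 2, 5, 6], [2, 0, 6, 7, 8], [5, 0, 1, 8, 9, 3, 10, 11], [10, 2, 9, 4, 12], [12, 3, 9, 13]]
  P := {
    a := 5
    N := 14
    nb := [102, 453, 3883, 5652, 12808, 2117, 163, 322, 646, 8476, 6156, 1060, 9240, 4624]
    tri := [(0, 1, 2), (0, 1, 6), (0, 2, 5), (0, 5, 6), (1, 2, 8), (1, 6, 7), (1, 7, 8), (2, 3, 9), (2,
      3, 10), (2, 5, 11), (2, 8, 9), (2, 10, 11), (3, 4, 9), (3, 4, 12), (3, 10, 12), (4, 9, 13),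
      (4, 12, 13)]
    fin := [0, 0, 0, 3, 3, 0, 6, 7, 0, 3, 3, 11, 12, 13]
    chd := []
    steps := [(0, 1), (0, 2), (0, 5), (0, 8), (3, 4), (3, 9), (3, 10)] }
  rep := [0, 3, 6, 12, 7, 11, 13]

noncomputable def v123 : Cov.CovD where
  P := 3
  N := 4
  pl := [1, 2, 6, 7, 8]
  lev := [⟨[], [], [], [2], [(0, 0, [])]⟩,
    ⟨[], [(0, 0)], [], [2, 4], [(3, 0, [])]⟩,
    ⟨[(0, 1)], [(0, 0), (0, 1), (1, 0), (1, 1)], [(0, 0), (0, 1), (1, 1)], [5], [(0, 0,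
      []), (3, 0, []), (4, 1, []), (5, 1, [])]⟩,
    ⟨[(0, 2), (1, 2)], [(2, 0), (2, 1)], [(1, 1)], [3], [(4, 1, []), (5, 1, [])]⟩,
    ⟨[(2, 3)], [(2, 1), (3, 1)], [], [3, 6], [(4, 1, [])]⟩]
  Ta := [((0, 1), 0, 2), ((0, 6), 0, 5), ((3, 2), 0, 4), ((3, 4), 0, 1), ((4, 3), 1, 0), ((4, 8),
    1, 6), ((5, 6), 1, 5), ((5, 7), 1, 3)]
  Tb := [((0, 1, 6), 0, 2, 5), ((1, 0, 2), 2, 0, 4), ((2, 1, 3), 4, 2, 0), ((3, 2, 4), 0, 4, 1),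
    ((4, 3, 8), 1, 0, 6), ((5, 6, 7), 1, 5, 3), ((6, 0, 5), 5, 0, 1), ((7, 5, 8), 3, 1, 6),
    ((8, 4, 7), 6, 1, 3)]
  Tc := []
  Td := []
  G := [[0, 0, 0xc95c59cc95c59c68, 0xc95c59c14, 0xc95c59c18], [0, 0, 0xc95c29cc25295c68,
    0xc25259c14, 0x25cc29c12], [0, 0xc6aa6c6ca6a6cac8, 0, 0xc95c59cc95c59cc1,
    0xc95c59cc95c59ca1], [0, 0, 0, 0x365259c25cc29cc1, 0x295c29c295639ca1]]

noncomputable def n123 : Ent := ⟨e123, noF, [], [], [(7, 13, [18394062992640663726968434746027364144358640063418441729, 0])]⟩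

def c123 : PLift (Cov.check n123.C.D v123 = true) := ⟨by decide +kernel⟩

def b123 : PLift (entF (fidx ts) 400 123 n123 = true) := ⟨by decide +kernel⟩

theorem g123 : GoodF (fidx ts) 400 123 := GoodF.ofV v123 n123 c123.down b123.down

/-- 45854:116 -/
noncomputable def e124 : SCfg where
  D := {
    a := 5
    L := 9
    kp := 6
    inn := [(0, 1), (0, 2), (1, 0), (1, 2), (2, 0), (2, 1), (2, 3), (3, 2), (3, 4), (4, 3)]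
    mix := [(0, 0), (0, 1), (1, 1), (1, 2), (1, 3), (2, 0), (2, 3), (2, 4), (2, 5), (2, 6), (3, 4), (3,
      5), (3, 7), (4, 5), (4, 7), (4, 8)]
    cl := [0, 2, 4, 0, 1, 1, 5, 3, 6]
    chq := []
    rng := [(0, 1), (0, 6), (1, 0), (1, 2), (2, 1), (2, 3), (3, 2), (3, 4), (4, 3), (4, 7), (5, 6), (5,
      8), (6, 0), (6, 5), (7, 4), (7, 8), (8, 5), (8, 7)]
    lev := [] }
  links := [[1, 2, 5, 6], [2, 0, 6, 7, 8], [5, 0, 1, 8, 9, 3, 10, 11], [10, 2, 9, 12, 4], [10, 3, 12,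
    13]]
  P := {
    a := 5
    N := 14
    nb := [102, 453, 3883, 5652, 13320, 2117, 163, 322, 646, 4364, 10268, 1060, 8728, 5136]
    tri := [(0, 1, 2), (0, 1, 6), (0, 2, 5), (0, 5, 6), (1, 2, 8), (1, 6, 7), (1, 7, 8), (2, 3, 9), (2,
      3, 10), (2, 5, 11), (2, 8, 9), (2, 10, 11), (3, 4, 10), (3, 4, 12), (3, 9, 12), (4, 10, 13),
      (4, 12, 13)]
    fin := [0, 0, 0, 3, 3, 0, 6, 7, 0, 3, 3, 11, 12, 13]
    chd := []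
    steps := [(0, 1), (0, 2), (0, 5), (0, 8), (3, 4), (3, 9), (3, 10)] }
  rep := [0, 3, 6, 12, 7, 11, 13]

noncomputable def v124 : Cov.CovD where
  P := 3
  N := 4
  pl := [1, 2, 6, 7, 8]
  lev := [⟨[], [], [], [2], [(0, 0, [])]⟩,
    ⟨[], [(0, 0)], [], [2, 4], [(3, 0, [])]⟩,
    ⟨[(0, 1)], [(0, 0), (0, 1), (1, 0), (1, 1)], [(0, 0), (0, 1), (1, 1)], [5], [(0, 0,
      []), (3, 0, []), (4, 1, []), (5, 1, [])]⟩,
    ⟨[(0, 2), (1, 2)], [(2, 0), (2, 1)], [(1, 1)], [3], [(4, 1, []), (5, 1, [])]⟩,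
    ⟨[(2, 3)], [(2, 1), (3, 1)], [], [3, 6], [(5, 1, [])]⟩]
  Ta := [((0, 1), 0, 2), ((0, 6), 0, 5), ((3, 2), 0, 4), ((3, 4), 0, 1), ((4, 3), 1, 0), ((4, 7),
    1, 3), ((5, 6), 1, 5), ((5, 8), 1, 6)]
  Tb := [((0, 1, 6), 0, 2, 5), ((1, 0, 2), 2, 0, 4), ((2, 1, 3), 4, 2, 0), ((3, 2, 4), 0, 4, 1),
    ((4, 3, 7), 1, 0, 3), ((5, 6, 8), 1, 5, 6), ((6, 0, 5), 5, 0, 1), ((7, 4, 8), 3, 1, 6),
    ((8, 5, 7), 6, 1, 3)]
  Tc := []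
  Td := []
  G := [[0, 0, 0x275295c36cc29cc2, 0x275259c18, 0x295295c18], [0, 0, 0xc95c59cc95c59ca2,
    0xc95c59c18, 0xc95c59c12], [0, 0x141812e116116ac4, 0, 0xc25259c295c29cc1,
    0xc25b25cc2592cca1], [0, 0, 0, 0xc95c59cc95c59cc1, 0xc95c59cc95c59ca1]]

noncomputable def n124 : Ent := ⟨e124, noF, [], [], []⟩

def c124 : PLift (Cov.check n124.C.D v124 = true) := ⟨by decide +kernel⟩

def b124 : PLift (entF (fidx ts) 400 124 n124 = true) := ⟨by decide +kernel⟩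

theorem g124 : GoodF (fidx ts) 400 124 := GoodF.ofV v124 n124 c124.down b124.down

/-- 45854:118 -/
noncomputable def e125 : SCfg where
  D := {
    a := 5
    L := 9
    kp := 6
    inn := [(0, 1), (0, 2), (1, 0), (1, 2), (2, 0), (2, 1), (2, 3), (3, 2), (3, 4), (4, 3)]
    mix := [(0, 0), (0, 1), (1, 1), (1, 2), (1, 3), (2, 0), (2, 3), (2, 4), (2, 5), (2, 6), (3, 0), (3,
      6), (3, 7), (4, 6), (4, 7), (4, 8)]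
    cl := [0, 1, 3, 0, 4, 5, 0, 2, 6]
    chq := []
    rng := [(0, 1), (0, 7), (1, 0), (1, 2), (2, 1), (2, 3), (3, 2), (3, 4), (4, 3), (4, 5), (5, 4), (5,
      6), (6, 5), (6, 8), (7, 0), (7, 8), (8, 6), (8, 7)]
    lev := [] }
  links := [[1, 2, 5, 6], [2, 0, 6, 7, 8], [5, 0, 1, 8, 9, 10, 11, 3], [5, 2, 11, 4, 12], [12, 3, 11,
    13]]
  P := {
    a := 5
    N := 14
    nb := [102, 453, 3883, 6196, 14344, 4173, 163, 322, 646, 1284, 2564, 9244, 8248, 6160]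
    tri := [(0, 1, 2), (0, 1, 6), (0, 2, 5), (0, 5, 6), (1, 2, 8), (1, 6, 7), (1, 7, 8), (2, 3, 5), (2,
      3, 11), (2, 8, 9), (2, 9, 10), (2, 10, 11), (3, 4, 11), (3, 4, 12), (3, 5, 12), (4, 11, 13),
      (4, 12, 13)]
    fin := [0, 0, 0, 0, 0, 0, 6, 7, 0, 9, 10, 0, 12, 13]
    chd := []
    steps := [(0, 1), (0, 2), (0, 3), (0, 4), (0, 5), (0, 8), (0, 11)] }
  rep := [0, 6, 12, 7, 9, 10, 13]

noncomputable def v125 : Cov.CovD where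
  P := 3
  N := 4
  pl := [1, 2, 4, 5, 7, 8]
  lev := [⟨[], [], [], [1], [(0, 0, [])]⟩,
    ⟨[], [(0, 0)], [], [1, 3], [(3, 0, [])]⟩,
    ⟨[(0, 1)], [(0, 0), (1, 0)], [(0, 0)], [4, 5], [(0, 0, []), (3, 0, []), (6, 0, [])]⟩,
    ⟨[(0, 2), (1, 2)], [(0, 0), (2, 0)], [(0, 0)], [2], [(0, 0, []), (6, 0, [])]⟩,
    ⟨[(2, 3)], [(2, 0), (3, 0)], [], [2, 6], [(6, 0, [])]⟩]
  Ta := [((0, 1), 0, 1), ((0, 7), 0, 2), ((3, 2), 0, 3), ((3, 4), 0, 4), ((6, 5), 0, 5), ((6, 8),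
    0, 6)]
  Tb := [((0, 1, 7), 0, 1, 2), ((1, 0, 2), 1, 0, 3), ((2, 1, 3), 3, 1, 0), ((3, 2, 4), 0, 3, 4),
    ((4, 3, 5), 4, 0, 5), ((5, 4, 6), 5, 4, 0), ((6, 5, 8), 0, 5, 6), ((7, 0, 8), 2, 0, 6),
    ((8, 6, 7), 6, 0, 2)]
  Tc := []
  Td := []
  G := [[0, 0x141814e181818ea4, 0x6868c8e14, 0x141814e18, 0x181212e14], [0, 0, 0,
    0x141814e181818ec1, 0x121812e121818ec1], [0, 0, 0, 0xc4c8c8e18, 0xa2a2a8e14]]

noncomputable def n125 : Ent := ⟨e125, noF, [], [], []⟩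

def c125 : PLift (Cov.check n125.C.D v125 = true) := ⟨by decide +kernel⟩

def b125 : PLift (entF (fidx ts) 400 125 n125 = true) := ⟨by decide +kernel⟩

theorem g125 : GoodF (fidx ts) 400 125 := GoodF.ofV v125 n125 c125.down b125.down

/-- 45854:119/1 -/
noncomputable def e126 : SCfg where
  D := {
    a := 5
    L := 8
    kp := 5
    inn := [(0, 1), (0, 2), (1, 0), (1, 2), (2, 0), (2, 1), (2, 3), (3, 2), (3, 4), (4, 3)]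
    mix := [(0, 0), (0, 1), (1, 1), (1, 2), (1, 3), (2, 0), (2, 3), (2, 4), (2, 5), (2, 6), (3, 0), (3,
      6), (3, 7), (4, 0), (4, 1), (4, 7)]
    cl := [0, 1, 2, 0, 4, 5, 0, 3]
    chq := []
    rng := [(0, 1), (1, 0), (1, 2), (1, 7), (2, 1), (2, 3), (3, 2), (3, 4), (4, 3), (4, 5), (5, 4), (5,
      6), (6, 5), (6, 7), (7, 1), (7, 6)]
    lev := [] }
  links := [[1, 2, 5, 6], [2, 0, 6, 7, 8], [5, 0, 1, 8, 9, 10, 11, 3], [5, 2, 11, 12, 4], [5, 3, 12, 6]]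
  P := {
    a := 5
    N := 13
    nb := [102, 453, 3883, 6196, 4200, 93, 4275, 322, 646, 1284, 2564, 5132, 2136]
    tri := [(0, 1, 2), (0, 1, 6), (0, 2, 5), (0, 5, 6), (1, 2, 8), (1, 6, 7), (1, 7, 8), (2, 3, 5), (2,
      3, 11), (2, 8, 9), (2, 9, 10), (2, 10, 11), (3, 4, 5), (3, 4, 12), (3, 11, 12), (4, 5, 6),
      (4, 6, 12)]
    fin := [0, 0, 0, 0, 0, 0, 6, 7, 0, 9, 10, 0, 12]
    chd := []
    steps := [(0, 1), (0, 2), (0, 3), (0, 5), (0, 4), (0, 8), (0, 11)] }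
  rep := [0, 6, 7, 12, 9, 10]

noncomputable def v126 : Cov.CovD where
  P := 3
  N := 3
  pl := [1, 2, 4, 5, 7]
  lev := [⟨[], [], [], [1], [(0, 0, [])]⟩,
    ⟨[], [(0, 0)], [], [1, 2], [(3, 0, [])]⟩,
    ⟨[(0, 1)], [(0, 0), (1, 0)], [(0, 0)], [4, 5], [(0, 0, []), (3, 0, []), (6, 0, [])]⟩,
    ⟨[(0, 2), (1, 2)], [(0, 0), (2, 0)], [(0, 0)], [3], [(0, 0, []), (6, 0, [])]⟩,
    ⟨[(2, 3)], [(0, 0), (2, 0), (3, 0)], [], [1, 3], [(0, 0, [])]⟩]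
  Ta := [((0, 1), 0, 1), ((3, 2), 0, 2), ((3, 4), 0, 4), ((6, 5), 0, 5), ((6, 7), 0, 3)]
  Tb := [((1, 0, 2), 1, 0, 2), ((1, 0, 7), 1, 0, 3), ((1, 2, 7), 1, 2, 3), ((2, 1, 3), 2, 1, 0),
    ((3, 2, 4), 0, 2, 4), ((4, 3, 5), 4, 0, 5), ((5, 4, 6), 5, 4, 0), ((6, 5, 7), 0, 5, 3),
    ((7, 1, 6), 3, 1, 0)]
  Tc := []
  Td := []
  G := [[0, 0x48682a84ce84, 0, 0xc2c284ae18, 0x48684a84ce14], [0, 0, 0x48684a84ae41,
    0x121212e48, 0x18641a81ce84], [0, 0, 0, 0x52c292e48, 0x18684a14ce84]]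

noncomputable def n126 : Ent := ⟨e126, noF, [], [], []⟩

def c126 : PLift (Cov.check n126.C.D v126 = true) := ⟨by decide +kernel⟩

def b126 : PLift (entF (fidx ts) 400 126 n126 = true) := ⟨by decide +kernel⟩

theorem g126 : GoodF (fidx ts) 400 126 := GoodF.ofV v126 n126 c126.down b126.down

/-- 45854:119 -/
noncomputable def e127 : SCfg where
  D := {
    a := 5
    L := 9
    kp := 6
    inn := [(0, 1), (0, 2), (1, 0), (1, 2), (2, 0), (2, 1), (2, 3), (3, 2), (3, 4), (4, 3)]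
    mix := [(0, 0), (0, 1), (1, 1), (1, 2), (1, 3), (2, 0), (2, 3), (2, 4), (2, 5), (2, 6), (3, 0), (3,
      6), (3, 7), (4, 0), (4, 7), (4, 8)]
    cl := [0, 1, 2, 0, 4, 5, 0, 3, 6]
    chq := []
    rng := [(0, 1), (0, 8), (1, 0), (1, 2), (2, 1), (2, 3), (3, 2), (3, 4), (4, 3), (4, 5), (5, 4), (5,
      6), (6, 5), (6, 7), (7, 6), (7, 8), (8, 0), (8, 7)]
    lev := [] }
  links := [[1, 2, 5, 6], [2, 0, 6, 7, 8], [5, 0, 1, 8, 9, 10, 11, 3], [5, 2, 11, 12, 4], [5, 3, 12, 13]]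
  P := {
    a := 5
    N := 14
    nb := [102, 453, 3883, 6196, 12328, 8285, 163, 322, 646, 1284, 2564, 5132, 10264, 4144]
    tri := [(0, 1, 2), (0, 1, 6), (0, 2, 5), (0, 5, 6), (1, 2, 8), (1, 6, 7), (1, 7, 8), (2, 3, 5), (2,
      3, 11), (2, 8, 9), (2, 9, 10), (2, 10, 11), (3, 4, 5), (3, 4, 12), (3, 11, 12), (4, 5, 13),
      (4, 12, 13)]
    fin := [0, 0, 0, 0, 0, 0, 6, 7, 0, 9, 10, 0, 12, 13]
    chd := []
    steps := [(0, 1), (0, 2), (0, 3), (0, 4), (0, 5), (0, 8), (0, 11)] }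
  rep := [0, 6, 7, 12, 9, 10, 13]

noncomputable def v127 : Cov.CovD where
  P := 3
  N := 4
  pl := [1, 2, 4, 5, 7, 8]
  lev := [⟨[], [], [], [1], [(0, 0, [])]⟩,
    ⟨[], [(0, 0)], [], [1, 2], [(3, 0, [])]⟩,
    ⟨[(0, 1)], [(0, 0), (1, 0)], [(0, 0)], [4, 5], [(0, 0, []), (3, 0, []), (6, 0, [])]⟩,
    ⟨[(0, 2), (1, 2)], [(0, 0), (2, 0)], [(0, 0)], [3], [(0, 0, []), (6, 0, [])]⟩,
    ⟨[(2, 3)], [(0, 0), (2, 0), (3, 0)], [], [3, 6], [(0, 0, [])]⟩]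
  Ta := [((0, 1), 0, 1), ((0, 8), 0, 6), ((3, 2), 0, 2), ((3, 4), 0, 4), ((6, 5), 0, 5), ((6, 7),
    0, 3)]
  Tb := [((0, 1, 8), 0, 1, 6), ((1, 0, 2), 1, 0, 2), ((2, 1, 3), 2, 1, 0), ((3, 2, 4), 0, 2, 4),
    ((4, 3, 5), 4, 0, 5), ((5, 4, 6), 5, 4, 0), ((6, 5, 7), 0, 5, 3), ((7, 6, 8), 3, 0, 6),
    ((8, 0, 7), 6, 0, 3)]
  Tc := []
  Td := []
  G := [[0, 0xca6c6aa6ce84, 0, 0xca6c6aa6ce84, 0xca6c6aa6ce18], [0, 0, 0x11611a11ae84,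
    0x11611a11ae48, 0x11611a11ce84], [0, 0, 0, 0x1a616a1d6e18, 0x16c16ac16e14]]

noncomputable def n127 : Ent := ⟨e127, noF, [], [], [(6, 13, [18394062992640663726968434746027364144358640063418458113, 0])]⟩

def c127 : PLift (Cov.check n127.C.D v127 = true) := ⟨by decide +kernel⟩

def b127 : PLift (entF (fidx ts) 400 127 n127 = true) := ⟨by decide +kernel⟩

theorem g127 : GoodF (fidx ts) 400 127 := GoodF.ofV v127 n127 c127.down b127.down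

/-- 48554:120/1 -/
noncomputable def e128 : SCfg where
  D := {
    a := 5
    L := 9
    kp := 6
    inn := [(0, 1), (1, 0), (1, 2), (1, 3), (2, 1), (2, 4), (3, 1), (4, 2)]
    mix := [(0, 0), (0, 1), (0, 2), (1, 0), (1, 2), (1, 3), (1, 4), (1, 5), (2, 3), (2, 4), (2, 6), (3,
      4), (3, 5), (3, 6), (3, 7), (4, 3), (4, 6), (4, 8)]
    cl := [1, 4, 2, 0, 0, 0, 3, 5, 6]
    chq := [(0, 4), (4, 0)]
    rng := [(0, 1), (0, 5), (1, 0), (1, 2), (2, 1), (2, 3), (3, 2), (3, 8), (4, 6), (5, 0), (5, 7), (6,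
      4), (6, 7), (6, 8), (7, 5), (7, 6), (8, 3), (8, 6)]
    lev := [] }
  links := [[1, 5, 6, 7], [5, 0, 7, 8, 2, 9, 3, 10], [9, 1, 8, 4, 11], [10, 1, 9, 11, 12], [11, 2, 8,
    13]]
  P := {
    a := 5
    N := 14
    nb := [226, 1965, 2834, 7682, 10500, 1091, 161, 323, 8342, 2062, 4138, 12828, 3080, 2320]
    tri := [(0, 1, 5), (0, 1, 7), (0, 5, 6), (0, 6, 7), (1, 2, 8), (1, 2, 9), (1, 3, 9), (1, 3, 10),
      (1, 5, 10), (1, 7, 8), (2, 4, 8), (2, 4, 11), (2, 9, 11), (3, 9, 11), (3, 10, 12), (3, 11,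
      12), (4, 8, 13), (4, 11, 13)]
    fin := [0, 0, 2, 2, 2, 5, 0, 7, 2, 2, 2, 11, 12, 13]
    chd := [(0, 2)]
    steps := [(0, 1), (0, 6), (2, 4), (2, 8), (2, 9), (2, 3), (2, 10)] }
  rep := [2, 5, 7, 11, 0, 12, 13]

noncomputable def v128 : Cov.CovD where
  P := 3
  N := 4
  pl := [0, 2, 6, 7, 8]
  lev := [⟨[], [], [], [1, 2], [(1, 4, [0])]⟩,
    ⟨[], [(0, 0), (0, 4)], [(0, 0)], [1, 2], [(3, 0, [4]), (4, 0, [4]), (5, 0, [4])]⟩,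
    ⟨[(0, 1)], [(1, 0)], [(0, 0)], [3], [(3, 0, [4]), (4, 0, [4])]⟩,
    ⟨[(0, 1), (1, 2)], [(1, 0), (2, 0)], [(0, 0)], [3, 5], [(4, 0, [4]), (5, 0, [4])]⟩,
    ⟨[(1, 2)], [(1, 0), (2, 0)], [], [3, 6], [(3, 0, [4])]⟩]
  Ta := [((3, 2), 0, 2), ((3, 8), 0, 6), ((4, 6), 0, 3), ((5, 0), 0, 1), ((5, 7), 0, 5)]
  Tb := [((0, 1, 5), 1, 4, 0), ((1, 0, 2), 4, 1, 2), ((2, 1, 3), 2, 4, 0), ((3, 2, 8), 0, 2, 6),
    ((5, 0, 7), 0, 1, 5), ((6, 4, 7), 3, 0, 5), ((6, 4, 8), 3, 0, 6), ((6, 7, 8), 3, 5, 6),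
    ((7, 5, 6), 5, 0, 3), ((8, 3, 6), 6, 0, 3)]
  Tc := []
  Td := [((0, 4), (3, 2), 2), ((0, 4), (3, 8), 6), ((0, 4), (4, 6), 3), ((0, 4), (5, 0), 1), ((0,
    4), (5, 7), 5), ((4, 0), (1, 0), 1), ((4, 0), (1, 2), 2)]
  G := [[0, 0, 0xecc6e6a4cecaea68c, 0xcecaea681, 0xcecaea681], [0, 0, 0, 0x57c31a681,
    0x95c13a681], [0, 0x1441812ac11c11a68c, 0, 0x11c11a681, 0x11c11a681]]

noncomputable def n128 : Ent := ⟨e128, noF, [], [], []⟩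

def c128 : PLift (Cov.check n128.C.D v128 = true) := ⟨by decide +kernel⟩

def b128 : PLift (entF (fidx ts) 400 128 n128 = true) := ⟨by decide +kernel⟩

theorem g128 : GoodF (fidx ts) 400 128 := GoodF.ofV v128 n128 c128.down b128.down

/-- 48554:120 -/
noncomputable def e129 : SCfg where
  D := {
    a := 5
    L := 10
    kp := 7
    inn := [(0, 1), (1, 0), (1, 2), (1, 3), (2, 1), (2, 4), (3, 1), (4, 2)]
    mix := [(0, 0), (0, 1), (0, 2), (1, 0), (1, 2), (1, 3), (1, 4), (1, 5), (2, 3), (2, 4), (2, 6), (3,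
      4), (3, 5), (3, 7), (3, 8), (4, 3), (4, 6), (4, 9)]
    cl := [1, 4, 2, 0, 0, 0, 3, 5, 6, 7]
    chq := [(0, 4), (4, 0)]
    rng := [(0, 1), (0, 5), (1, 0), (1, 2), (2, 1), (2, 3), (3, 2), (3, 9), (4, 6), (4, 7), (5, 0), (5,
      8), (6, 4), (6, 9), (7, 4), (7, 8), (8, 5), (8, 7), (9, 3), (9, 6)]
    lev := [] }
  links := [[1, 5, 6, 7], [5, 0, 7, 8, 2, 9, 3, 10], [9, 1, 8, 4, 11], [10, 1, 9, 12, 13], [11, 2, 8,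
    14]]
  P := {
    a := 5
    N := 15
    nb := [226, 1965, 2834, 13826, 18692, 1091, 161, 323, 16534, 6158, 8234, 16916, 8712, 5128, 2320]
    tri := [(0, 1, 5), (0, 1, 7), (0, 5, 6), (0, 6, 7), (1, 2, 8), (1, 2, 9), (1, 3, 9), (1, 3, 10),
      (1, 5, 10), (1, 7, 8), (2, 4, 8), (2, 4, 11), (2, 9, 11), (3, 9, 12), (3, 10, 13), (3, 12,
      13), (4, 8, 14), (4, 11, 14)]
    fin := [0, 0, 2, 2, 2, 5, 0, 7, 2, 2, 2, 11, 12, 13, 14]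
    chd := [(0, 2)]
    steps := [(0, 1), (0, 6), (2, 4), (2, 8), (2, 9), (2, 3), (2, 10)] }
  rep := [2, 5, 7, 11, 0, 12, 13, 14]

noncomputable def v129 : Cov.CovD where
  P := 3
  N := 5
  pl := [0, 2, 6, 7, 8, 9]
  lev := [⟨[], [], [], [1, 2], [(1, 4, [0])]⟩,
    ⟨[], [(0, 0), (0, 4)], [(0, 0)], [1, 2], [(3, 0, [4]), (4, 0, [4]), (5, 0, [4])]⟩,
    ⟨[(0, 1)], [(1, 0)], [(0, 0)], [3], [(3, 0, [4]), (4, 0, [4])]⟩,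
    ⟨[(0, 1), (1, 2)], [(1, 0), (2, 0)], [(0, 0)], [5, 6], [(4, 0, [4]), (5, 0, [4])]⟩,
    ⟨[(1, 2)], [(1, 0), (2, 0)], [], [3, 7], [(3, 0, [4])]⟩]
  Ta := [((3, 2), 0, 2), ((3, 9), 0, 7), ((4, 6), 0, 3), ((4, 7), 0, 5), ((5, 0), 0, 1), ((5, 8),
    0, 6)]
  Tb := [((0, 1, 5), 1, 4, 0), ((1, 0, 2), 4, 1, 2), ((2, 1, 3), 2, 4, 0), ((3, 2, 9), 0, 2, 7),
    ((4, 6, 7), 0, 3, 5), ((5, 0, 8), 0, 1, 6), ((6, 4, 9), 3, 0, 7), ((7, 4, 8), 5, 0, 6),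
    ((8, 5, 7), 6, 0, 5), ((9, 3, 6), 7, 0, 3)]
  Tc := []
  Td := [((0, 4), (3, 2), 2), ((0, 4), (3, 9), 7), ((0, 4), (4, 6), 3), ((0, 4), (4, 7), 5), ((0,
    4), (5, 0), 1), ((0, 4), (5, 8), 6), ((4, 0), (1, 0), 1), ((4, 0), (1, 2), 2)]
  G := [[0, 0, 0xccce666ea4ccceaaae68c, 0xccce666ea41, 0xccceaaae681], [0, 0, 0, 0x195e639ea41,
    0xcc1e11ae681], [0, 0x111e111ea414111e11ae8c, 0, 0x111e111ea41, 0x111e111e681]]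

noncomputable def n129 : Ent := ⟨e129, noF, [], [], [(11, 12, [87899350853947037246286378706680507498760953601682102026241, 0])]⟩

def c129 : PLift (Cov.check n129.C.D v129 = true) := ⟨by decide +kernel⟩

def b129 : PLift (entF (fidx ts) 400 129 n129 = true) := ⟨by decide +kernel⟩

theorem g129 : GoodF (fidx ts) 400 129 := GoodF.ofV v129 n129 c129.down b129.down

/-- 48554:121/1 -/
noncomputable def e130 : SCfg where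
  D := {
    a := 5
    L := 9
    kp := 6
    inn := [(0, 1), (1, 0), (1, 2), (1, 3), (2, 1), (2, 4), (3, 1), (4, 2)]
    mix := [(0, 0), (0, 1), (0, 2), (1, 0), (1, 2), (1, 3), (1, 4), (1, 5), (2, 3), (2, 4), (2, 6), (3,
      4), (3, 5), (3, 7), (3, 8), (4, 4), (4, 6), (4, 7)]
    cl := [1, 5, 2, 0, 0, 0, 3, 4, 6]
    chq := [(0, 5), (5, 0)]
    rng := [(0, 1), (0, 5), (1, 0), (1, 2), (2, 1), (2, 3), (3, 2), (3, 6), (4, 7), (5, 0), (5, 8), (6,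
      3), (6, 7), (7, 4), (7, 6), (7, 8), (8, 5), (8, 7)]
    lev := [] }
  links := [[1, 5, 6, 7], [5, 0, 7, 8, 2, 9, 3, 10], [9, 1, 8, 11, 4], [10, 1, 9, 12, 13], [9, 2, 11,
    12]]
  P := {
    a := 5
    N := 14
    nb := [226, 1965, 2834, 13826, 6660, 1091, 161, 323, 2182, 4126, 8234, 4372, 10776, 5128]
    tri := [(0, 1, 5), (0, 1, 7), (0, 5, 6), (0, 6, 7), (1, 2, 8), (1, 2, 9), (1, 3, 9), (1, 3, 10),
      (1, 5, 10), (1, 7, 8), (2, 4, 9), (2, 4, 11), (2, 8, 11), (3, 9, 12), (3, 10, 13), (3, 12,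
      13), (4, 9, 12), (4, 11, 12)]
    fin := [0, 0, 2, 2, 2, 5, 0, 7, 2, 2, 2, 11, 12, 13]
    chd := [(0, 2)]
    steps := [(0, 1), (0, 6), (2, 4), (2, 8), (2, 9), (2, 3), (2, 10)] }
  rep := [2, 5, 7, 11, 12, 0, 13]

noncomputable def v130 : Cov.CovD where
  P := 3
  N := 4
  pl := [0, 2, 6, 7, 8]
  lev := [⟨[], [], [], [1, 2], [(1, 5, [0])]⟩,
    ⟨[], [(0, 0), (0, 5)], [(0, 0)], [1, 2], [(3, 0, [5]), (4, 0, [5]), (5, 0, [5])]⟩,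
    ⟨[(0, 1)], [(1, 0)], [(0, 0)], [3], [(3, 0, [5]), (4, 0, [5])]⟩,
    ⟨[(0, 1), (1, 2)], [(1, 0), (2, 0)], [(0, 0)], [4, 6], [(4, 0, [5]), (5, 0, [5])]⟩,
    ⟨[(1, 2)], [(1, 0), (2, 0), (3, 0)], [], [3, 4], [(4, 0, [5])]⟩]
  Ta := [((3, 2), 0, 2), ((3, 6), 0, 3), ((4, 7), 0, 4), ((5, 0), 0, 1), ((5, 8), 0, 6)]
  Tb := [((0, 1, 5), 1, 5, 0), ((1, 0, 2), 5, 1, 2), ((2, 1, 3), 2, 5, 0), ((3, 2, 6), 0, 2, 3),
    ((5, 0, 8), 0, 1, 6), ((6, 3, 7), 3, 0, 4), ((7, 4, 6), 4, 0, 3), ((7, 4, 8), 4, 0, 6),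
    ((7, 6, 8), 4, 3, 6), ((8, 5, 7), 6, 0, 4)]
  Tc := []
  Td := [((0, 5), (3, 2), 2), ((0, 5), (3, 6), 3), ((0, 5), (4, 7), 4), ((0, 5), (5, 0), 1), ((0,
    5), (5, 8), 6), ((5, 0), (1, 0), 1), ((5, 0), (1, 2), 2)]
  G := [[0, 0, 0x811e12a44e4811e111e68c, 0x841e112ea41, 0x841e112e681], [0, 0, 0, 0x8cce662ea41,
    0xa4ceca2e681], [0, 0x841e112ea411618811ee8c, 0, 0x111e112e681, 0x841e112e681]]

noncomputable def n130 : Ent := ⟨e130, noF, [], [], []⟩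

def c130 : PLift (Cov.check n130.C.D v130 = true) := ⟨by decide +kernel⟩

def b130 : PLift (entF (fidx ts) 400 130 n130 = true) := ⟨by decide +kernel⟩

theorem g130 : GoodF (fidx ts) 400 130 := GoodF.ofV v130 n130 c130.down b130.down

/-- 48554:121 -/
noncomputable def e131 : SCfg where
  D := {
    a := 5
    L := 10
    kp := 7
    inn := [(0, 1), (1, 0), (1, 2), (1, 3), (2, 1), (2, 4), (3, 1), (4, 2)]
    mix := [(0, 0), (0, 1), (0, 2), (1, 0), (1, 2), (1, 3), (1, 4), (1, 5), (2, 3), (2, 4), (2, 6), (3,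
      4), (3, 5), (3, 7), (3, 8), (4, 4), (4, 6), (4, 9)]
    cl := [1, 4, 2, 0, 0, 0, 3, 5, 6, 7]
    chq := [(0, 4), (4, 0)]
    rng := [(0, 1), (0, 5), (1, 0), (1, 2), (2, 1), (2, 3), (3, 2), (3, 6), (4, 7), (4, 9), (5, 0), (5,
      8), (6, 3), (6, 9), (7, 4), (7, 8), (8, 5), (8, 7), (9, 4), (9, 6)]
    lev := [] }
  links := [[1, 5, 6, 7], [5, 0, 7, 8, 2, 9, 3, 10], [9, 1, 8, 11, 4], [10, 1, 9, 12, 13], [9, 2, 11,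
    14]]
  P := {
    a := 5
    N := 15
    nb := [226, 1965, 2834, 13826, 18948, 1091, 161, 323, 2182, 20510, 8234, 16660, 8712, 5128, 2576]
    tri := [(0, 1, 5), (0, 1, 7), (0, 5, 6), (0, 6, 7), (1, 2, 8), (1, 2, 9), (1, 3, 9), (1, 3, 10),
      (1, 5, 10), (1, 7, 8), (2, 4, 9), (2, 4, 11), (2, 8, 11), (3, 9, 12), (3, 10, 13), (3, 12,
      13), (4, 9, 14), (4, 11, 14)]
    fin := [0, 0, 2, 2, 2, 5, 0, 7, 2, 2, 2, 11, 12, 13, 14]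
    chd := [(0, 2)]
    steps := [(0, 1), (0, 6), (2, 4), (2, 8), (2, 9), (2, 3), (2, 10)] }
  rep := [2, 5, 7, 11, 0, 12, 13, 14]

noncomputable def v131 : Cov.CovD where
  P := 3
  N := 5
  pl := [0, 2, 6, 7, 8, 9]
  lev := [⟨[], [], [], [1, 2], [(1, 4, [0])]⟩,
    ⟨[], [(0, 0), (0, 4)], [(0, 0)], [1, 2], [(3, 0, [4]), (4, 0, [4]), (5, 0, [4])]⟩,
    ⟨[(0, 1)], [(1, 0)], [(0, 0)], [3], [(3, 0, [4]), (4, 0, [4])]⟩,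
    ⟨[(0, 1), (1, 2)], [(1, 0), (2, 0)], [(0, 0)], [5, 6], [(4, 0, [4]), (5, 0, [4])]⟩,
    ⟨[(1, 2)], [(1, 0), (2, 0), (3, 0)], [], [3, 7], [(4, 0, [4])]⟩]
  Ta := [((3, 2), 0, 2), ((3, 6), 0, 3), ((4, 7), 0, 5), ((4, 9), 0, 7), ((5, 0), 0, 1), ((5, 8),
    0, 6)]
  Tb := [((0, 1, 5), 1, 4, 0), ((1, 0, 2), 4, 1, 2), ((2, 1, 3), 2, 4, 0), ((3, 2, 6), 0, 2, 3),
    ((4, 7, 9), 0, 5, 7), ((5, 0, 8), 0, 1, 6), ((6, 3, 9), 3, 0, 7), ((7, 4, 8), 5, 0, 6),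
    ((8, 5, 7), 6, 0, 5), ((9, 4, 6), 7, 0, 3)]
  Tc := []
  Td := [((0, 4), (3, 2), 2), ((0, 4), (3, 6), 3), ((0, 4), (4, 7), 5), ((0, 4), (4, 9), 7), ((0,
    4), (5, 0), 1), ((0, 4), (5, 8), 6), ((4, 0), (1, 0), 1), ((4, 0), (1, 2), 2)]
  G := [[0, 0, 0x111e111ea411611c11ae8c, 0x1c1ea1ae681, 0x1c1ea1ae681], [0, 0, 0, 0xccceaaae681,
    0xccceaaae681], [0, 0x111e111ea4111e111e68c, 0, 0x111e111ea41, 0x111e111e681]]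

noncomputable def n131 : Ent := ⟨e131, noF, [], [], [(14, 12, [81623781614101222371308947630499991391842216896340251123713, 0])]⟩

def c131 : PLift (Cov.check n131.C.D v131 = true) := ⟨by decide +kernel⟩

def b131 : PLift (entF (fidx ts) 400 131 n131 = true) := ⟨by decide +kernel⟩

theorem g131 : GoodF (fidx ts) 400 131 := GoodF.ofV v131 n131 c131.down b131.down

/-- 48545:122 -/
noncomputable def e132 : SCfg where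
  D := {
    a := 5
    L := 10
    kp := 7
    inn := [(0, 1), (1, 0), (1, 2), (1, 4), (2, 1), (2, 3), (3, 2), (4, 1)]
    mix := [(0, 0), (0, 1), (0, 2), (1, 0), (1, 2), (1, 3), (1, 4), (1, 5), (2, 3), (2, 4), (2, 6), (3,
      3), (3, 6), (3, 7), (4, 0), (4, 5), (4, 8), (4, 9)]
    cl := [1, 4, 2, 0, 0, 1, 3, 5, 6, 7]
    chq := [(0, 4), (4, 0)]
    rng := [(0, 1), (0, 9), (1, 0), (1, 2), (2, 1), (2, 3), (3, 2), (3, 7), (4, 5), (4, 6), (5, 4), (5,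
      8), (6, 4), (6, 7), (7, 3), (7, 6), (8, 5), (8, 9), (9, 0), (9, 8)]
    lev := [] }
  links := [[1, 5, 6, 7], [5, 0, 7, 8, 2, 9, 10, 4], [9, 1, 8, 3, 11], [11, 2, 8, 12], [5, 1, 10, 13,
    14]]
  P := {
    a := 5
    N := 15
    nb := [226, 1973, 2826, 6404, 25634, 16467, 161, 323, 4238, 3078, 8722, 4620, 2312, 17424, 8240]
    tri := [(0, 1, 5), (0, 1, 7), (0, 5, 6), (0, 6, 7), (1, 2, 8), (1, 2, 9), (1, 4, 5), (1, 4, 10),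
      (1, 7, 8), (1, 9, 10), (2, 3, 8), (2, 3, 11), (2, 9, 11), (3, 8, 12), (3, 11, 12), (4, 5,
      14), (4, 10, 13), (4, 13, 14)]
    fin := [0, 0, 2, 2, 4, 4, 0, 7, 2, 2, 4, 11, 12, 13, 14]
    chd := [(0, 2)]
    steps := [(0, 1), (0, 6), (2, 3), (2, 8), (2, 9), (4, 5), (4, 10)] }
  rep := [2, 4, 7, 11, 0, 12, 13, 14]

noncomputable def v132 : Cov.CovD where
  P := 3
  N := 5
  pl := [2, 6, 7, 8, 9]
  lev := [⟨[], [], [(1, 4)], [2], [(0, 1, []), (1, 4, [0])]⟩,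
    ⟨[], [(0, 0), (0, 1), (0, 4)], [(0, 0), (0, 1), (1, 1)], [2], [(0, 1, []), (3, 0, [4]),
      (4, 0, [4]), (5, 1, [])]⟩,
    ⟨[(0, 1)], [(1, 0), (1, 1)], [(0, 0)], [3], [(3, 0, [4]), (4, 0, [4])]⟩,
    ⟨[(1, 2)], [(1, 0), (2, 0)], [], [3, 5], [(3, 0, [4])]⟩,
    ⟨[(0, 1), (1, 2)], [(0, 1), (1, 0), (1, 1)], [(1, 1)], [6, 7], [(0, 1, []), (5, 1,
      [])]⟩]
  Ta := [((0, 1), 1, 4), ((0, 9), 1, 7), ((3, 2), 0, 2), ((3, 7), 0, 5), ((4, 5), 0, 1), ((4, 6),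
    0, 3), ((5, 4), 1, 0), ((5, 8), 1, 6)]
  Tb := [((0, 1, 9), 1, 4, 7), ((1, 0, 2), 4, 1, 2), ((2, 1, 3), 2, 4, 0), ((3, 2, 7), 0, 2, 5),
    ((4, 5, 6), 0, 1, 3), ((5, 4, 8), 1, 0, 6), ((6, 4, 7), 3, 0, 5), ((7, 3, 6), 5, 0, 3),
    ((8, 5, 9), 6, 1, 7), ((9, 0, 8), 7, 1, 6)]
  Tc := []
  Td := [((0, 4), (3, 2), 2), ((0, 4), (3, 7), 5), ((0, 4), (4, 5), 1), ((0, 4), (4, 6), 3), ((4,
    0), (1, 0), 1), ((4, 0), (1, 2), 2)]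
  G := [[0, 0, 0xddcdd6a44dc4ca69812acc, 0xd4d26d88c1, 0xddcdda681], [0, 0, 0xddcdd6a42,
    0xddcdda681, 0xddcdda682], [0, 0, 0, 0xddcd1a41, 0xd1dda681], [0, 0xe1e1681, 0,
    0xddcd1a41, 0xd1dda681]]

noncomputable def n132 : Ent := ⟨e132, noF, [], [], []⟩

def c132 : PLift (Cov.check n132.C.D v132 = true) := ⟨by decide +kernel⟩

def b132 : PLift (entF (fidx ts) 400 132 n132 = true) := ⟨by decide +kernel⟩

theorem g132 : GoodF (fidx ts) 400 132 := GoodF.ofV v132 n132 c132.down b132.down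

/-- 48545:123/1 -/
noncomputable def e133 : SCfg where
  D := {
    a := 5
    L := 9
    kp := 6
    inn := [(0, 1), (1, 0), (1, 2), (1, 4), (2, 1), (2, 3), (3, 2), (4, 1)]
    mix := [(0, 0), (0, 1), (0, 2), (1, 0), (1, 2), (1, 3), (1, 4), (1, 5), (2, 3), (2, 4), (2, 6), (3,
      4), (3, 6), (3, 7), (4, 0), (4, 5), (4, 7), (4, 8)]
    cl := [1, 5, 2, 0, 0, 1, 3, 4, 6]
    chq := [(0, 5), (5, 0)]
    rng := [(0, 1), (0, 8), (1, 0), (1, 2), (2, 1), (2, 3), (3, 2), (3, 6), (4, 5), (4, 7), (5, 4), (5,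
      7), (6, 3), (6, 7), (7, 4), (7, 5), (7, 6), (7, 8), (8, 0), (8, 7)]
    lev := [] }
  links := [[1, 5, 6, 7], [5, 0, 7, 8, 2, 9, 10, 4], [9, 1, 8, 11, 3], [9, 2, 11, 12], [5, 1, 10, 12,
    13]]
  P := {
    a := 5
    N := 14
    nb := [226, 1973, 2826, 6660, 13346, 8275, 161, 323, 2182, 5134, 4626, 4364, 11800, 4144]
    tri := [(0, 1, 5), (0, 1, 7), (0, 5, 6), (0, 6, 7), (1, 2, 8), (1, 2, 9), (1, 4, 5), (1, 4, 10),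
      (1, 7, 8), (1, 9, 10), (2, 3, 9), (2, 3, 11), (2, 8, 11), (3, 9, 12), (3, 11, 12), (4, 5,
      13), (4, 10, 12), (4, 12, 13)]
    fin := [0, 0, 2, 2, 4, 4, 0, 7, 2, 2, 4, 11, 12, 13]
    chd := [(0, 2)]
    steps := [(0, 1), (0, 6), (2, 3), (2, 8), (2, 9), (4, 5), (4, 10)] }
  rep := [2, 4, 7, 11, 12, 0, 13]

noncomputable def v133 : Cov.CovD where
  P := 3
  N := 4
  pl := [2, 6, 7, 8]
  lev := [⟨[], [], [(1, 5)], [2], [(0, 1, []), (1, 5, [0])]⟩,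
    ⟨[], [(0, 0), (0, 1), (0, 5)], [(0, 0), (0, 1), (1, 1)], [2], [(0, 1, []), (3, 0, [5]),
      (4, 0, [5]), (5, 1, [])]⟩,
    ⟨[(0, 1)], [(1, 0), (1, 1)], [(0, 0)], [3], [(3, 0, [5]), (4, 0, [5])]⟩,
    ⟨[(1, 2)], [(1, 0), (2, 0)], [], [3, 4], [(4, 0, [5])]⟩,
    ⟨[(0, 1), (1, 2)], [(0, 1), (1, 0), (1, 1)], [(1, 1)], [4, 6], [(0, 1, []), (5, 1,
      [])]⟩]
  Ta := [((0, 1), 1, 5), ((0, 8), 1, 6), ((3, 2), 0, 2), ((3, 6), 0, 3), ((4, 5), 0, 1), ((4, 7),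
    0, 4), ((5, 4), 1, 0), ((5, 7), 1, 4)]
  Tb := [((0, 1, 8), 1, 5, 6), ((1, 0, 2), 5, 1, 2), ((2, 1, 3), 2, 5, 0), ((3, 2, 6), 0, 2, 3),
    ((4, 5, 7), 0, 1, 4), ((5, 4, 7), 1, 0, 4), ((6, 3, 7), 3, 0, 4), ((7, 4, 5), 4, 0, 1),
    ((7, 4, 6), 4, 0, 3), ((7, 4, 8), 4, 0, 6), ((7, 5, 6), 4, 1, 3), ((7, 5, 8), 4, 1, 6),
    ((7, 6, 8), 4, 3, 6), ((8, 0, 7), 6, 1, 4)]
  Tc := []
  Td := [((0, 5), (3, 2), 2), ((0, 5), (3, 6), 3), ((0, 5), (4, 5), 1), ((0, 5), (4, 7), 4), ((5,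
    0), (1, 0), 1), ((5, 0), (1, 2), 2)]
  G := [[0, 0, 0x4491d1e451c16918cc, 0xd1d2681, 0xd1d2681], [0, 0, 0xd1d1682, 0x815b495a41,
    0x95cd1681], [0, 0, 0, 0x95cd2681, 0x95cd2681], [0, 0xaeccea681, 0, 0x54d26988c1,
    0x95c9da681]]

noncomputable def n133 : Ent := ⟨e133, noF, [], [], []⟩

def c133 : PLift (Cov.check n133.C.D v133 = true) := ⟨by decide +kernel⟩

def b133 : PLift (entF (fidx ts) 400 133 n133 = true) := ⟨by decide +kernel⟩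

theorem g133 : GoodF (fidx ts) 400 133 := GoodF.ofV v133 n133 c133.down b133.down

/-- 48545:123 -/
noncomputable def e134 : SCfg where
  D := {
    a := 5
    L := 10
    kp := 7
    inn := [(0, 1), (1, 0), (1, 2), (1, 4), (2, 1), (2, 3), (3, 2), (4, 1)]
    mix := [(0, 0), (0, 1), (0, 2), (1, 0), (1, 2), (1, 3), (1, 4), (1, 5), (2, 3), (2, 4), (2, 6), (3,
      4), (3, 6), (3, 7), (4, 0), (4, 5), (4, 8), (4, 9)]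
    cl := [1, 4, 2, 0, 0, 1, 3, 5, 6, 7]
    chq := [(0, 4), (4, 0)]
    rng := [(0, 1), (0, 9), (1, 0), (1, 2), (2, 1), (2, 3), (3, 2), (3, 6), (4, 5), (4, 7), (5, 4), (5,
      8), (6, 3), (6, 7), (7, 4), (7, 6), (8, 5), (8, 9), (9, 0), (9, 8)]
    lev := [] }
  links := [[1, 5, 6, 7], [5, 0, 7, 8, 2, 9, 10, 4], [9, 1, 8, 11, 3], [9, 2, 11, 12], [5, 1, 10, 13,
    14]]
  P := {
    a := 5
    N := 15
    nb := [226, 1973, 2826, 6660, 25634, 16467, 161, 323, 2182, 5134, 8722, 4364, 2568, 17424, 8240]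
    tri := [(0, 1, 5), (0, 1, 7), (0, 5, 6), (0, 6, 7), (1, 2, 8), (1, 2, 9), (1, 4, 5), (1, 4, 10),
      (1, 7, 8), (1, 9, 10), (2, 3, 9), (2, 3, 11), (2, 8, 11), (3, 9, 12), (3, 11, 12), (4, 5,
      14), (4, 10, 13), (4, 13, 14)]
    fin := [0, 0, 2, 2, 4, 4, 0, 7, 2, 2, 4, 11, 12, 13, 14]
    chd := [(0, 2)]
    steps := [(0, 1), (0, 6), (2, 3), (2, 8), (2, 9), (4, 5), (4, 10)] }
  rep := [2, 4, 7, 11, 0, 12, 13, 14]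

noncomputable def v134 : Cov.CovD where
  P := 3
  N := 5
  pl := [2, 6, 7, 8, 9]
  lev := [⟨[], [], [(1, 4)], [2], [(0, 1, []), (1, 4, [0])]⟩,
    ⟨[], [(0, 0), (0, 1), (0, 4)], [(0, 0), (0, 1), (1, 1)], [2], [(0, 1, []), (3, 0, [4]),
      (4, 0, [4]), (5, 1, [])]⟩,
    ⟨[(0, 1)], [(1, 0), (1, 1)], [(0, 0)], [3], [(3, 0, [4]), (4, 0, [4])]⟩,
    ⟨[(1, 2)], [(1, 0), (2, 0)], [], [3, 5], [(4, 0, [4])]⟩,
    ⟨[(0, 1), (1, 2)], [(0, 1), (1, 0), (1, 1)], [(1, 1)], [6, 7], [(0, 1, []), (5, 1,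
      [])]⟩]
  Ta := [((0, 1), 1, 4), ((0, 9), 1, 7), ((3, 2), 0, 2), ((3, 6), 0, 3), ((4, 5), 0, 1), ((4, 7),
    0, 5), ((5, 4), 1, 0), ((5, 8), 1, 6)]
  Tb := [((0, 1, 9), 1, 4, 7), ((1, 0, 2), 4, 1, 2), ((2, 1, 3), 2, 4, 0), ((3, 2, 6), 0, 2, 3),
    ((4, 5, 7), 0, 1, 5), ((5, 4, 8), 1, 0, 6), ((6, 3, 7), 3, 0, 5), ((7, 4, 6), 5, 0, 3),
    ((8, 5, 9), 6, 1, 7), ((9, 0, 8), 7, 1, 6)]
  Tc := []
  Td := [((0, 4), (3, 2), 2), ((0, 4), (3, 6), 3), ((0, 4), (4, 5), 1), ((0, 4), (4, 7), 5), ((4,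
    0), (1, 0), 1), ((4, 0), (1, 2), 2)]
  G := [[0, 0, 0x4191d1e451c191e8c, 0xd1dda681, 0xd1dda681], [0, 0, 0xd1d1682, 0x5d5c95b681,
    0xd1dda681], [0, 0, 0, 0xddcdda681, 0xddcdda681], [0, 0xeeceea681, 0, 0xd4d26d88c1,
    0xddcdda682]]

noncomputable def n134 : Ent := ⟨e134, noF, [], [], [(12, 13, [87897818358406171357428020359653357189577334862559918444545, 0])]⟩

def c134 : PLift (Cov.check n134.C.D v134 = true) := ⟨by decide +kernel⟩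

def b134 : PLift (entF (fidx ts) 400 134 n134 = true) := ⟨by decide +kernel⟩

theorem g134 : GoodF (fidx ts) 400 134 := GoodF.ofV v134 n134 c134.down b134.down

/-- 46464:124/1 -/
noncomputable def e135 : SCfg where
  D := {
    a := 5
    L := 7
    kp := 5
    inn := [(0, 1), (1, 0), (1, 2), (1, 3), (2, 1), (3, 1), (3, 4), (4, 3)]
    mix := [(0, 0), (0, 1), (0, 2), (1, 0), (1, 2), (1, 3), (2, 2), (2, 3), (2, 4), (3, 0), (3, 3), (3,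
      5), (3, 6), (4, 3), (4, 4), (4, 5)]
    cl := [0, 4, 1, 0, 2, 3, 5]
    chq := [(0, 1), (0, 3), (1, 0), (3, 0)]
    rng := [(0, 1), (0, 6), (1, 0), (1, 2), (2, 1), (2, 4), (3, 4), (4, 2), (4, 3), (4, 5), (5, 4), (5,
      6), (6, 0), (6, 5)]
    lev := [] }
  links := [[1, 5, 6, 7], [5, 0, 7, 2, 8, 3], [8, 1, 7, 9], [5, 1, 8, 4, 10, 11], [10, 3, 8, 9]]
  P := {
    a := 5
    N := 12
    nb := [226, 429, 898, 3378, 1800, 2123, 161, 583, 542, 1428, 2584, 1064]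
    tri := [(0, 1, 5), (0, 1, 7), (0, 5, 6), (0, 6, 7), (1, 2, 7), (1, 2, 8), (1, 3, 5), (1, 3, 8), (2,
      7, 9), (2, 8, 9), (3, 4, 8), (3, 4, 10), (3, 5, 11), (3, 10, 11), (4, 8, 9), (4, 9, 10)]
    fin := [0, 0, 0, 0, 0, 0, 6, 7, 0, 9, 10, 11]
    chd := [(0, 7), (0, 10)]
    steps := [(0, 1), (0, 2), (0, 3), (0, 5), (0, 8), (0, 4)] }
  rep := [0, 7, 9, 10, 6, 11]

noncomputable def v135 : Cov.CovD where
  P := 3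
  N := 3
  pl := [1, 4, 6]
  lev := [⟨[], [], [(0, 1)], [4], [(0, 0, [1, 3]), (2, 1, [0])]⟩,
    ⟨[], [(0, 0), (0, 1)], [(0, 0), (0, 1)], [], [(0, 0, [1, 3]), (2, 1, [0]), (3, 0, [1,
      3])]⟩,
    ⟨[(0, 1)], [(0, 1), (1, 0), (1, 1)], [(0, 1)], [2], [(2, 1, [0]), (3, 0, [1, 3])]⟩,
    ⟨[(0, 1), (1, 2)], [(0, 0), (1, 0), (1, 1), (1, 3), (2, 0)], [(0, 0), (0, 3)], [5],
      [(0, 0, [1, 3]), (3, 0, [1, 3]), (5, 3, [0])]⟩,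
    ⟨[(1, 3)], [(1, 0), (2, 0), (3, 0), (3, 3)], [(0, 3)], [2], [(3, 0, [1, 3]), (5, 3,
      [0])]⟩]
  Ta := [((0, 1), 0, 4), ((0, 6), 0, 5), ((3, 4), 0, 2)]
  Tb := [((0, 1, 6), 0, 4, 5), ((1, 0, 2), 4, 0, 1), ((2, 1, 4), 1, 4, 2), ((4, 2, 3), 2, 1, 0),
    ((4, 2, 5), 2, 1, 3), ((4, 3, 5), 2, 0, 3), ((5, 4, 6), 3, 2, 5), ((6, 0, 5), 5, 0, 3)]
  Tc := [(0, 1, 3)]
  Td := [((0, 1), (0, 1), 4), ((0, 1), (0, 6), 5), ((0, 1), (3, 4), 2), ((0, 3), (0, 1), 4), ((0,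
    3), (0, 6), 5), ((0, 3), (3, 4), 2), ((1, 0), (2, 1), 4), ((1, 0), (2, 4), 2), ((3, 0),
    (5, 4), 2), ((3, 0), (5, 6), 5)]
  G := [[0, 0x111e42111e84a, 0, 0x81ce8414885a8cc, 0x8a2e1414882a1cc], [0, 0x111e82111e48a,
    0x8a2e841, 0x4c68888c1, 0x8a2e841]]

noncomputable def n135 : Ent := ⟨e135, noF, [], [], []⟩

def c135 : PLift (Cov.check n135.C.D v135 = true) := ⟨by decide +kernel⟩

def b135 : PLift (entF (fidx ts) 400 135 n135 = true) := ⟨by decide +kernel⟩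

theorem g135 : GoodF (fidx ts) 400 135 := GoodF.ofV v135 n135 c135.down b135.down

/-- 46464:124 -/
noncomputable def e136 : SCfg where
  D := {
    a := 5
    L := 8
    kp := 6
    inn := [(0, 1), (1, 0), (1, 2), (1, 3), (2, 1), (3, 1), (3, 4), (4, 3)]
    mix := [(0, 0), (0, 1), (0, 2), (1, 0), (1, 2), (1, 3), (2, 2), (2, 3), (2, 4), (3, 0), (3, 3), (3,
      5), (3, 6), (4, 3), (4, 5), (4, 7)]
    cl := [0, 2, 1, 0, 4, 3, 5, 6]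
    chq := [(0, 1), (0, 3), (1, 0), (3, 0)]
    rng := [(0, 1), (0, 6), (1, 0), (1, 2), (2, 1), (2, 4), (3, 4), (3, 7), (4, 2), (4, 3), (5, 6), (5,
      7), (6, 0), (6, 5), (7, 3), (7, 5)]
    lev := [] }
  links := [[1, 5, 6, 7], [5, 0, 7, 2, 8, 3], [8, 1, 7, 9], [5, 1, 8, 4, 10, 11], [10, 3, 8, 12]]
  P := {
    a := 5
    N := 13
    nb := [226, 429, 898, 3378, 5384, 2123, 161, 583, 4638, 388, 6168, 1064, 1296]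
    tri := [(0, 1, 5), (0, 1, 7), (0, 5, 6), (0, 6, 7), (1, 2, 7), (1, 2, 8), (1, 3, 5), (1, 3, 8), (2,
      7, 9), (2, 8, 9), (3, 4, 8), (3, 4, 10), (3, 5, 11), (3, 10, 11), (4, 8, 12), (4, 10, 12)]
    fin := [0, 0, 0, 0, 0, 0, 6, 7, 0, 9, 10, 11, 12]
    chd := [(0, 7), (0, 10)]
    steps := [(0, 1), (0, 2), (0, 3), (0, 4), (0, 5), (0, 8)] }
  rep := [0, 7, 6, 10, 9, 11, 12]

noncomputable def v136 : Cov.CovD where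
  P := 3
  N := 4
  pl := [1, 4, 6, 7]
  lev := [⟨[], [], [(0, 1)], [2], [(0, 0, [1, 3]), (2, 1, [0])]⟩,
    ⟨[], [(0, 0), (0, 1)], [(0, 0), (0, 1)], [], [(0, 0, [1, 3]), (2, 1, [0]), (3, 0, [1,
      3])]⟩,
    ⟨[(0, 1)], [(0, 1), (1, 0), (1, 1)], [(0, 1)], [4], [(2, 1, [0]), (3, 0, [1, 3])]⟩,
    ⟨[(0, 1), (1, 2)], [(0, 0), (1, 0), (1, 1), (1, 3), (2, 0)], [(0, 0), (0, 3)], [5],
      [(0, 0, [1, 3]), (3, 0, [1, 3]), (5, 3, [0])]⟩,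
    ⟨[(1, 3)], [(1, 0), (2, 0), (3, 0), (3, 3)], [(0, 3)], [6], [(3, 0, [1, 3]), (5, 3,
      [0])]⟩]
  Ta := [((0, 1), 0, 2), ((0, 6), 0, 5), ((3, 4), 0, 4), ((3, 7), 0, 6)]
  Tb := [((0, 1, 6), 0, 2, 5), ((1, 0, 2), 2, 0, 1), ((2, 1, 4), 1, 2, 4), ((3, 4, 7), 0, 4, 6),
    ((4, 2, 3), 4, 1, 0), ((5, 6, 7), 3, 5, 6), ((6, 0, 5), 5, 0, 3), ((7, 3, 5), 6, 0, 3)]
  Tc := [(0, 1, 3)]
  Td := [((0, 1), (0, 1), 2), ((0, 1), (0, 6), 5), ((0, 1), (3, 4), 4), ((0, 1), (3, 7), 6), ((0,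
    3), (0, 1), 2), ((0, 3), (0, 6), 5), ((0, 3), (3, 4), 4), ((0, 3), (3, 7), 6), ((1, 0),
    (2, 1), 2), ((1, 0), (2, 4), 4), ((3, 0), (5, 6), 5), ((3, 0), (5, 7), 6)]
  G := [[0, 0x111e111e684, 0x14111ec11a8c4, 0xee61e81c8, 0xee61e81c8], [0, 0x111e111ea48, 0,
    0xee6e4ce8eeacc1, 0xee6e4ce8eeacc1]]

noncomputable def n136 : Ent := ⟨e136, noF, [], [], [(9, 12, [4116502249997426668270420223653940933770597198491649, 0])]⟩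

def c136 : PLift (Cov.check n136.C.D v136 = true) := ⟨by decide +kernel⟩

def b136 : PLift (entF (fidx ts) 400 136 n136 = true) := ⟨by decide +kernel⟩

theorem g136 : GoodF (fidx ts) 400 136 := GoodF.ofV v136 n136 c136.down b136.down

/-- 48554:125/1 -/
noncomputable def e137 : SCfg where
  D := {
    a := 5
    L := 9
    kp := 6
    inn := [(0, 1), (1, 0), (1, 2), (1, 3), (2, 1), (3, 1), (3, 4), (4, 3)]
    mix := [(0, 0), (0, 1), (0, 2), (1, 0), (1, 2), (1, 3), (1, 4), (1, 5), (2, 3), (2, 4), (2, 6), (2,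
      7), (3, 0), (3, 5), (3, 8), (4, 5), (4, 7), (4, 8)]
    cl := [0, 5, 2, 1, 1, 0, 6, 3, 4]
    chq := [(1, 5), (5, 1)]
    rng := [(0, 1), (0, 8), (1, 0), (1, 2), (2, 1), (2, 3), (3, 2), (3, 6), (4, 5), (4, 7), (5, 4), (5,
      7), (6, 3), (6, 7), (7, 4), (7, 5), (7, 6), (7, 8), (8, 0), (8, 7)]
    lev := [] }
  links := [[1, 5, 6, 7], [5, 0, 7, 8, 2, 9, 10, 3], [9, 1, 8, 11, 12], [5, 1, 10, 4, 13], [13, 3, 10,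
    12]]
  P := {
    a := 5
    N := 14
    nb := [226, 1965, 6914, 9266, 13320, 8267, 161, 323, 2182, 5126, 4634, 4356, 11796, 4152]
    tri := [(0, 1, 5), (0, 1, 7), (0, 5, 6), (0, 6, 7), (1, 2, 8), (1, 2, 9), (1, 3, 5), (1, 3, 10),
      (1, 7, 8), (1, 9, 10), (2, 8, 11), (2, 9, 12), (2, 11, 12), (3, 4, 10), (3, 4, 13), (3, 5,
      13), (4, 10, 12), (4, 12, 13)]
    fin := [0, 0, 2, 3, 3, 3, 0, 7, 2, 2, 3, 11, 12, 13]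
    chd := [(0, 2)]
    steps := [(0, 1), (0, 6), (2, 8), (2, 9), (3, 4), (3, 5), (3, 10)] }
  rep := [3, 2, 7, 12, 13, 0, 11]

noncomputable def v137 : Cov.CovD where
  P := 3
  N := 4
  pl := [2, 6, 7, 8]
  lev := [⟨[], [], [(0, 5)], [2], [(0, 0, []), (1, 5, [1])]⟩,
    ⟨[], [(0, 0), (0, 1), (0, 5)], [(0, 0), (0, 1), (1, 1)], [2], [(0, 0, []), (3, 1, [5]),
      (4, 1, [5]), (5, 0, [])]⟩,
    ⟨[(0, 1)], [(1, 0), (1, 1)], [(1, 1)], [3, 6], [(3, 1, [5]), (4, 1, [5])]⟩,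
    ⟨[(0, 1), (1, 2)], [(0, 0), (1, 0), (1, 1)], [(0, 0)], [4], [(0, 0, []), (5, 0, [])]⟩,
    ⟨[(1, 3)], [(1, 0), (3, 0)], [], [3, 4], [(5, 0, [])]⟩]
  Ta := [((0, 1), 0, 5), ((0, 8), 0, 4), ((3, 2), 1, 2), ((3, 6), 1, 6), ((4, 5), 1, 0), ((4, 7),
    1, 3), ((5, 4), 0, 1), ((5, 7), 0, 3)]
  Tb := [((0, 1, 8), 0, 5, 4), ((1, 0, 2), 5, 0, 2), ((2, 1, 3), 2, 5, 1), ((3, 2, 6), 1, 2, 6),
    ((4, 5, 7), 1, 0, 3), ((5, 4, 7), 0, 1, 3), ((6, 3, 7), 6, 1, 3), ((7, 4, 5), 3, 1, 0),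
    ((7, 4, 6), 3, 1, 6), ((7, 4, 8), 3, 1, 4), ((7, 5, 6), 3, 0, 6), ((7, 5, 8), 3, 0, 4),
    ((7, 6, 8), 3, 6, 4), ((8, 0, 7), 4, 0, 3)]
  Tc := []
  Td := [((1, 5), (3, 2), 2), ((1, 5), (3, 6), 6), ((1, 5), (4, 5), 0), ((1, 5), (4, 7), 3), ((5,
    1), (1, 0), 0), ((5, 1), (1, 2), 2)]
  G := [[0, 0, 0x81c12a12ad42, 0x82a12a12ad482624c12ad8c, 0x12642612ad82], [0, 0,
    0x82c41a126d42, 0, 0x186416126d82], [0, 0, 0x82a42ac2ad42, 0x82a42ac2ad41,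
    0x82624cc26d81], [0, 0x4a6c26686a8c1, 0x8a6426ca6d82, 0, 0x8a6426ca6d81]]

noncomputable def n137 : Ent := ⟨e137, noF, [], [], []⟩

def c137 : PLift (Cov.check n137.C.D v137 = true) := ⟨by decide +kernel⟩

def b137 : PLift (entF (fidx ts) 400 137 n137 = true) := ⟨by decide +kernel⟩

theorem g137 : GoodF (fidx ts) 400 137 := GoodF.ofV v137 n137 c137.down b137.down

/-- 48554:125 -/
noncomputable def e138 : SCfg where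
  D := {
    a := 5
    L := 10
    kp := 7
    inn := [(0, 1), (1, 0), (1, 2), (1, 3), (2, 1), (3, 1), (3, 4), (4, 3)]
    mix := [(0, 0), (0, 1), (0, 2), (1, 0), (1, 2), (1, 3), (1, 4), (1, 5), (2, 3), (2, 4), (2, 6), (2,
      7), (3, 0), (3, 5), (3, 8), (4, 5), (4, 8), (4, 9)]
    cl := [0, 4, 2, 1, 1, 0, 5, 6, 3, 7]
    chq := [(1, 4), (4, 1)]
    rng := [(0, 1), (0, 8), (1, 0), (1, 2), (2, 1), (2, 3), (3, 2), (3, 6), (4, 5), (4, 7), (5, 4), (5,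
      9), (6, 3), (6, 7), (7, 4), (7, 6), (8, 0), (8, 9), (9, 5), (9, 8)]
    lev := [] }
  links := [[1, 5, 6, 7], [5, 0, 7, 8, 2, 9, 10, 3], [9, 1, 8, 11, 12], [5, 1, 10, 4, 13], [13, 3, 10,
    14]]
  P := {
    a := 5
    N := 15
    nb := [226, 1965, 6914, 9266, 25608, 8267, 161, 323, 2182, 5126, 16922, 4356, 2564, 16440, 9232]
    tri := [(0, 1, 5), (0, 1, 7), (0, 5, 6), (0, 6, 7), (1, 2, 8), (1, 2, 9), (1, 3, 5), (1, 3, 10),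
      (1, 7, 8), (1, 9, 10), (2, 8, 11), (2, 9, 12), (2, 11, 12), (3, 4, 10), (3, 4, 13), (3, 5,
      13), (4, 10, 14), (4, 13, 14)]
    fin := [0, 0, 2, 3, 3, 3, 0, 7, 2, 2, 3, 11, 12, 13, 14]
    chd := [(0, 2)]
    steps := [(0, 1), (0, 6), (2, 8), (2, 9), (3, 4), (3, 5), (3, 10)] }
  rep := [3, 2, 7, 13, 0, 11, 12, 14]

noncomputable def v138 : Cov.CovD where
  P := 3
  N := 5
  pl := [2, 6, 7, 8, 9]
  lev := [⟨[], [], [(0, 4)], [2], [(0, 0, []), (1, 4, [1])]⟩,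
    ⟨[], [(0, 0), (0, 1), (0, 4)], [(0, 0), (0, 1), (1, 1)], [2], [(0, 0, []), (3, 1, [4]),
      (4, 1, [4]), (5, 0, [])]⟩,
    ⟨[(0, 1)], [(1, 0), (1, 1)], [(1, 1)], [5, 6], [(3, 1, [4]), (4, 1, [4])]⟩,
    ⟨[(0, 1), (1, 2)], [(0, 0), (1, 0), (1, 1)], [(0, 0)], [3], [(0, 0, []), (5, 0, [])]⟩,
    ⟨[(1, 3)], [(1, 0), (3, 0)], [], [3, 7], [(5, 0, [])]⟩]
  Ta := [((0, 1), 0, 4), ((0, 8), 0, 3), ((3, 2), 1, 2), ((3, 6), 1, 5), ((4, 5), 1, 0), ((4, 7),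
    1, 6), ((5, 4), 0, 1), ((5, 9), 0, 7)]
  Tb := [((0, 1, 8), 0, 4, 3), ((1, 0, 2), 4, 0, 2), ((2, 1, 3), 2, 4, 1), ((3, 2, 6), 1, 2, 5),
    ((4, 5, 7), 1, 0, 6), ((5, 4, 9), 0, 1, 7), ((6, 3, 7), 5, 1, 6), ((7, 4, 6), 6, 1, 5),
    ((8, 0, 9), 3, 0, 7), ((9, 5, 8), 7, 0, 3)]
  Tc := []
  Td := [((1, 4), (3, 2), 2), ((1, 4), (3, 6), 5), ((1, 4), (4, 5), 0), ((1, 4), (4, 7), 6), ((4,
    1), (1, 0), 0), ((4, 1), (1, 2), 2)]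
  G := [[0, 0, 0x1a616a16ad82, 0xa1cc6aa1cd4c1635cc16d8c, 0x1a616c59ad82], [0, 0,
    0xc1616a16ad82, 0, 0x59616a16ad82], [0, 0, 0xca6ca6ca6d82, 0xca6ca6ca6d81,
    0xca6ca6ca6d82], [0, 0xc6ac6ac6ae41, 0xca6ca6ca6d82, 0, 0xca6ca6ca6d82]]

noncomputable def n138 : Ent := ⟨e138, noF, [], [], [(12, 14, [81620716623019490593592230936445690773474979418095883948033, 0])]⟩

def c138 : PLift (Cov.check n138.C.D v138 = true) := ⟨by decide +kernel⟩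

def b138 : PLift (entF (fidx ts) 400 138 n138 = true) := ⟨by decide +kernel⟩

theorem g138 : GoodF (fidx ts) 400 138 := GoodF.ofV v138 n138 c138.down b138.down

/-- 48554:126/1 -/
noncomputable def e139 : SCfg where
  D := {
    a := 5
    L := 9
    kp := 6
    inn := [(0, 1), (1, 0), (1, 2), (1, 3), (2, 1), (3, 1), (3, 4), (4, 3)]
    mix := [(0, 0), (0, 1), (0, 2), (1, 0), (1, 2), (1, 3), (1, 4), (1, 5), (2, 3), (2, 4), (2, 6), (2,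
      7), (3, 0), (3, 5), (3, 8), (4, 0), (4, 1), (4, 8)]
    cl := [0, 3, 2, 1, 1, 0, 5, 6, 4]
    chq := [(1, 3), (3, 1)]
    rng := [(0, 1), (1, 0), (1, 2), (1, 8), (2, 1), (2, 3), (3, 2), (3, 6), (4, 5), (4, 7), (5, 4), (5,
      8), (6, 3), (6, 7), (7, 4), (7, 6), (8, 1), (8, 5)]
    lev := [] }
  links := [[1, 5, 6, 7], [5, 0, 7, 8, 2, 9, 10, 3], [9, 1, 8, 11, 12], [5, 1, 10, 13, 4], [5, 3, 13, 6]]
  P := {
    a := 5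
    N := 14
    nb := [226, 1965, 6914, 9266, 8296, 91, 8369, 323, 2182, 5126, 8714, 4356, 2564, 1112]
    tri := [(0, 1, 5), (0, 1, 7), (0, 5, 6), (0, 6, 7), (1, 2, 8), (1, 2, 9), (1, 3, 5), (1, 3, 10),
      (1, 7, 8), (1, 9, 10), (2, 8, 11), (2, 9, 12), (2, 11, 12), (3, 4, 5), (3, 4, 13), (3, 10,
      13), (4, 5, 6), (4, 6, 13)]
    fin := [0, 0, 2, 3, 3, 3, 0, 7, 2, 2, 3, 11, 12, 13]
    chd := [(0, 2)]
    steps := [(0, 1), (0, 6), (2, 8), (2, 9), (3, 5), (3, 4), (3, 10)] }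
  rep := [3, 2, 7, 0, 13, 11, 12]

noncomputable def v139 : Cov.CovD where
  P := 3
  N := 4
  pl := [2, 6, 7, 8]
  lev := [⟨[], [], [(0, 3)], [2], [(0, 0, []), (1, 3, [1])]⟩,
    ⟨[], [(0, 0), (0, 1), (0, 3)], [(0, 0), (0, 1), (1, 1)], [2], [(0, 0, []), (3, 1, [3]),
      (4, 1, [3]), (5, 0, [])]⟩,
    ⟨[(0, 1)], [(1, 0), (1, 1)], [(1, 1)], [5, 6], [(3, 1, [3]), (4, 1, [3])]⟩,
    ⟨[(0, 1), (1, 2)], [(0, 0), (1, 0), (1, 1)], [(0, 0)], [4], [(0, 0, []), (5, 0, [])]⟩,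
    ⟨[(1, 3)], [(0, 0), (0, 3), (1, 0), (3, 0), (3, 3)], [(0, 3)], [4], [(0, 0, []), (1, 3,
      [1])]⟩]
  Ta := [((0, 1), 0, 3), ((3, 2), 1, 2), ((3, 6), 1, 5), ((4, 5), 1, 0), ((4, 7), 1, 6), ((5, 4),
    0, 1), ((5, 8), 0, 4)]
  Tb := [((1, 0, 2), 3, 0, 2), ((1, 0, 8), 3, 0, 4), ((1, 2, 8), 3, 2, 4), ((2, 1, 3), 2, 3, 1),
    ((3, 2, 6), 1, 2, 5), ((4, 5, 7), 1, 0, 6), ((5, 4, 8), 0, 1, 4), ((6, 3, 7), 5, 1, 6),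
    ((7, 4, 6), 6, 1, 5), ((8, 1, 5), 4, 3, 0)]
  Tc := []
  Td := [((1, 3), (3, 2), 2), ((1, 3), (3, 6), 5), ((1, 3), (4, 5), 0), ((1, 3), (4, 7), 6), ((3,
    1), (1, 0), 0), ((3, 1), (1, 2), 2), ((3, 1), (1, 8), 4)]
  G := [[0, 0, 0xc6ac6ac6ad42, 0x82c82a82cd4426426426d8c, 0xca6ca6ca6d82], [0, 0,
    0xc6ac6ac6ad42, 0, 0xca6ca6ca6d82], [0, 0, 0x16a95a16ad42, 0xc2ac2ae2cd41,
    0xca62ec2ecd81], [0, 0x81648ca6426ca6e89, 0x1a671a1a6d42, 0, 0x1a653c1a6d82]]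

noncomputable def n139 : Ent := ⟨e139, noF, [], [], []⟩

def c139 : PLift (Cov.check n139.C.D v139 = true) := ⟨by decide +kernel⟩

def b139 : PLift (entF (fidx ts) 400 139 n139 = true) := ⟨by decide +kernel⟩

theorem g139 : GoodF (fidx ts) 400 139 := GoodF.ofV v139 n139 c139.down b139.down

/-- 48554:126 -/
noncomputable def e140 : SCfg where
  D := {
    a := 5
    L := 10
    kp := 7
    inn := [(0, 1), (1, 0), (1, 2), (1, 3), (2, 1), (3, 1), (3, 4), (4, 3)]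
    mix := [(0, 0), (0, 1), (0, 2), (1, 0), (1, 2), (1, 3), (1, 4), (1, 5), (2, 3), (2, 4), (2, 6), (2,
      7), (3, 0), (3, 5), (3, 8), (4, 0), (4, 8), (4, 9)]
    cl := [0, 4, 2, 1, 1, 0, 5, 6, 3, 7]
    chq := [(1, 4), (4, 1)]
    rng := [(0, 1), (0, 9), (1, 0), (1, 2), (2, 1), (2, 3), (3, 2), (3, 6), (4, 5), (4, 7), (5, 4), (5,
      8), (6, 3), (6, 7), (7, 4), (7, 6), (8, 5), (8, 9), (9, 0), (9, 8)]
    lev := [] }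
  links := [[1, 5, 6, 7], [5, 0, 7, 8, 2, 9, 10, 3], [9, 1, 8, 11, 12], [5, 1, 10, 13, 4], [5, 3, 13,
    14]]
  P := {
    a := 5
    N := 15
    nb := [226, 1965, 6914, 9266, 24616, 16475, 161, 323, 2182, 5126, 8714, 4356, 2564, 17432, 8240]
    tri := [(0, 1, 5), (0, 1, 7), (0, 5, 6), (0, 6, 7), (1, 2, 8), (1, 2, 9), (1, 3, 5), (1, 3, 10),
      (1, 7, 8), (1, 9, 10), (2, 8, 11), (2, 9, 12), (2, 11, 12), (3, 4, 5), (3, 4, 13), (3, 10,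
      13), (4, 5, 14), (4, 13, 14)]
    fin := [0, 0, 2, 3, 3, 3, 0, 7, 2, 2, 3, 11, 12, 13, 14]
    chd := [(0, 2)]
    steps := [(0, 1), (0, 6), (2, 8), (2, 9), (3, 4), (3, 5), (3, 10)] }
  rep := [3, 2, 7, 13, 0, 11, 12, 14]

noncomputable def v140 : Cov.CovD where
  P := 3
  N := 5
  pl := [2, 6, 7, 8, 9]
  lev := [⟨[], [], [(0, 4)], [2], [(0, 0, []), (1, 4, [1])]⟩,
    ⟨[], [(0, 0), (0, 1), (0, 4)], [(0, 0), (0, 1), (1, 1)], [2], [(0, 0, []), (3, 1, [4]),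
      (4, 1, [4]), (5, 0, [])]⟩,
    ⟨[(0, 1)], [(1, 0), (1, 1)], [(1, 1)], [5, 6], [(3, 1, [4]), (4, 1, [4])]⟩,
    ⟨[(0, 1), (1, 2)], [(0, 0), (1, 0), (1, 1)], [(0, 0)], [3], [(0, 0, []), (5, 0, [])]⟩,
    ⟨[(1, 3)], [(0, 0), (1, 0), (3, 0)], [], [3, 7], [(0, 0, [])]⟩]
  Ta := [((0, 1), 0, 4), ((0, 9), 0, 7), ((3, 2), 1, 2), ((3, 6), 1, 5), ((4, 5), 1, 0), ((4, 7),
    1, 6), ((5, 4), 0, 1), ((5, 8), 0, 3)]
  Tb := [((0, 1, 9), 0, 4, 7), ((1, 0, 2), 4, 0, 2), ((2, 1, 3), 2, 4, 1), ((3, 2, 6), 1, 2, 5),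
    ((4, 5, 7), 1, 0, 6), ((5, 4, 8), 0, 1, 3), ((6, 3, 7), 5, 1, 6), ((7, 4, 6), 6, 1, 5),
    ((8, 5, 9), 3, 0, 7), ((9, 0, 8), 7, 0, 3)]
  Tc := []
  Td := [((1, 4), (3, 2), 2), ((1, 4), (3, 6), 5), ((1, 4), (4, 5), 0), ((1, 4), (4, 7), 6), ((4,
    1), (1, 0), 0), ((4, 1), (1, 2), 2)]
  G := [[0, 0, 0xc6ac6ac6ad42, 0xc6ac6ac6ad4ca64c6ac6a9cc, 0xca6ca6ca6d82], [0, 0,
    0xca6ca6ca6d82, 0, 0xca6ca6ca6d82], [0, 0, 0x1a671cc16d82, 0xca6ca6ca6d81,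
    0x53616a16cd82], [0, 0xc6ac6ac6ae41, 0x16ac6aa1cd42, 0, 0x596c16ca6d82]]

noncomputable def n140 : Ent := ⟨e140, noF, [], [], [(6, 14, [81620716623019490593592230936445690773474979418095883956225, 0])]⟩

def c140 : PLift (Cov.check n140.C.D v140 = true) := ⟨by decide +kernel⟩

def b140 : PLift (entF (fidx ts) 400 140 n140 = true) := ⟨by decide +kernel⟩

theorem g140 : GoodF (fidx ts) 400 140 := GoodF.ofV v140 n140 c140.down b140.down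

/-- 46475:127/1 -/
noncomputable def e141 : SCfg where
  D := {
    a := 5
    L := 9
    kp := 6
    inn := [(0, 1), (1, 0), (1, 2), (1, 3), (2, 1), (3, 1), (3, 4), (4, 3)]
    mix := [(0, 0), (0, 1), (0, 2), (1, 0), (1, 2), (1, 3), (2, 2), (2, 3), (2, 4), (3, 0), (3, 3), (3,
      5), (3, 6), (3, 7), (4, 3), (4, 4), (4, 5), (4, 8)]
    cl := [0, 2, 1, 0, 3, 0, 4, 5, 6]
    chq := [(0, 1), (1, 0)]
    rng := [(0, 1), (0, 7), (1, 0), (1, 2), (2, 1), (2, 4), (3, 4), (4, 2), (4, 3), (4, 8), (5, 6), (5,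
      8), (6, 5), (6, 7), (7, 0), (7, 6), (8, 4), (8, 5)]
    lev := [] }
  links := [[1, 5, 6, 7], [5, 0, 7, 2, 8, 3], [8, 1, 7, 9], [5, 1, 8, 4, 10, 11, 12], [10, 3, 8, 9, 13]]
  P := {
    a := 5
    N := 14
    nb := [226, 429, 898, 7474, 9992, 4171, 161, 583, 542, 8596, 10264, 5128, 2088, 1552]
    tri := [(0, 1, 5), (0, 1, 7), (0, 5, 6), (0, 6, 7), (1, 2, 7), (1, 2, 8), (1, 3, 5), (1, 3, 8), (2,
      7, 9), (2, 8, 9), (3, 4, 8), (3, 4, 10), (3, 5, 12), (3, 10, 11), (3, 11, 12), (4, 8, 9),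
      (4, 9, 13), (4, 10, 13)]
    fin := [0, 0, 0, 0, 0, 0, 6, 7, 0, 9, 0, 11, 12, 13]
    chd := [(0, 7)]
    steps := [(0, 1), (0, 2), (0, 3), (0, 5), (0, 8), (0, 4), (0, 10)] }
  rep := [0, 7, 6, 9, 11, 12, 13]

noncomputable def v141 : Cov.CovD where
  P := 3
  N := 4
  pl := [1, 4, 6, 7, 8]
  lev := [⟨[], [], [(0, 1)], [2], [(0, 0, [1]), (2, 1, [0])]⟩,
    ⟨[], [(0, 0), (0, 1)], [(0, 0), (0, 1)], [], [(0, 0, [1]), (2, 1, [0]), (3, 0, [1])]⟩,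
    ⟨[(0, 1)], [(0, 1), (1, 0), (1, 1)], [(0, 1)], [3], [(2, 1, [0]), (3, 0, [1])]⟩,
    ⟨[(0, 1), (1, 2)], [(0, 0), (1, 0), (1, 1), (2, 0)], [(0, 0)], [4, 5], [(0, 0, [1]),
      (3, 0, [1]), (5, 0, [1])]⟩,
    ⟨[(1, 3)], [(1, 0), (2, 0), (3, 0)], [(0, 0)], [3, 6], [(3, 0, [1]), (5, 0, [1])]⟩]
  Ta := [((0, 1), 0, 2), ((0, 7), 0, 5), ((3, 4), 0, 3), ((5, 6), 0, 4), ((5, 8), 0, 6)]
  Tb := [((0, 1, 7), 0, 2, 5), ((1, 0, 2), 2, 0, 1), ((2, 1, 4), 1, 2, 3), ((4, 2, 3), 3, 1, 0),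
    ((4, 2, 8), 3, 1, 6), ((4, 3, 8), 3, 0, 6), ((5, 6, 8), 0, 4, 6), ((6, 5, 7), 4, 0, 5),
    ((7, 0, 6), 5, 0, 4), ((8, 4, 5), 6, 3, 0)]
  Tc := []
  Td := [((0, 1), (0, 1), 2), ((0, 1), (0, 7), 5), ((0, 1), (3, 4), 3), ((0, 1), (5, 6), 4), ((0,
    1), (5, 8), 6), ((1, 0), (2, 1), 2), ((1, 0), (2, 4), 3)]
  G := [[0, 0x4448c6c8a26eec8, 0xee61e81c8, 0x441eaee1c8, 0xee61e81c8], [0, 0xa22ccceaac6a8, 0,
    0xa4666ecaaa8c4, 0x644aaae66acc1], [0, 0x444c8cc262aeec8, 0, 0xe41eea1c8, 0xee61e81c8]]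

noncomputable def n141 : Ent := ⟨e141, noF, [], [], []⟩

def c141 : PLift (Cov.check n141.C.D v141 = true) := ⟨by decide +kernel⟩

def b141 : PLift (entF (fidx ts) 400 141 n141 = true) := ⟨by decide +kernel⟩

theorem g141 : GoodF (fidx ts) 400 141 := GoodF.ofV v141 n141 c141.down b141.down

/-- 46475:127 -/
noncomputable def e142 : SCfg where
  D := {
    a := 5
    L := 10
    kp := 7
    inn := [(0, 1), (1, 0), (1, 2), (1, 3), (2, 1), (3, 1), (3, 4), (4, 3)]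
    mix := [(0, 0), (0, 1), (0, 2), (1, 0), (1, 2), (1, 3), (2, 2), (2, 3), (2, 4), (3, 0), (3, 3), (3,
      5), (3, 6), (3, 7), (4, 3), (4, 5), (4, 8), (4, 9)]
    cl := [0, 2, 1, 0, 3, 0, 4, 5, 6, 7]
    chq := [(0, 1), (1, 0)]
    rng := [(0, 1), (0, 7), (1, 0), (1, 2), (2, 1), (2, 4), (3, 4), (3, 8), (4, 2), (4, 3), (5, 6), (5,
      9), (6, 5), (6, 7), (7, 0), (7, 6), (8, 3), (8, 9), (9, 5), (9, 8)]
    lev := [] }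
  links := [[1, 5, 6, 7], [5, 0, 7, 2, 8, 3], [8, 1, 7, 9], [5, 1, 8, 4, 10, 11, 12], [10, 3, 8, 13, 14]]
  P := {
    a := 5
    N := 15
    nb := [226, 429, 898, 7474, 25864, 4171, 161, 583, 8734, 388, 18456, 5128, 2088, 16656, 9232]
    tri := [(0, 1, 5), (0, 1, 7), (0, 5, 6), (0, 6, 7), (1, 2, 7), (1, 2, 8), (1, 3, 5), (1, 3, 8), (2,
      7, 9), (2, 8, 9), (3, 4, 8), (3, 4, 10), (3, 5, 12), (3, 10, 11), (3, 11, 12), (4, 8, 13),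
      (4, 10, 14), (4, 13, 14)]
    fin := [0, 0, 0, 0, 0, 0, 6, 7, 0, 9, 0, 11, 12, 13, 14]
    chd := [(0, 7)]
    steps := [(0, 1), (0, 2), (0, 3), (0, 4), (0, 5), (0, 8), (0, 10)] }
  rep := [0, 7, 6, 9, 11, 12, 13, 14]

noncomputable def v142 : Cov.CovD where
  P := 3
  N := 5
  pl := [1, 4, 6, 7, 8, 9]
  lev := [⟨[], [], [(0, 1)], [2], [(0, 0, [1]), (2, 1, [0])]⟩,
    ⟨[], [(0, 0), (0, 1)], [(0, 0), (0, 1)], [], [(0, 0, [1]), (2, 1, [0]), (3, 0, [1])]⟩,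
    ⟨[(0, 1)], [(0, 1), (1, 0), (1, 1)], [(0, 1)], [3], [(2, 1, [0]), (3, 0, [1])]⟩,
    ⟨[(0, 1), (1, 2)], [(0, 0), (1, 0), (1, 1), (2, 0)], [(0, 0)], [4, 5], [(0, 0, [1]),
      (3, 0, [1]), (5, 0, [1])]⟩,
    ⟨[(1, 3)], [(1, 0), (2, 0), (3, 0)], [(0, 0)], [6, 7], [(3, 0, [1]), (5, 0, [1])]⟩]
  Ta := [((0, 1), 0, 2), ((0, 7), 0, 5), ((3, 4), 0, 3), ((3, 8), 0, 6), ((5, 6), 0, 4), ((5, 9),
    0, 7)]
  Tb := [((0, 1, 7), 0, 2, 5), ((1, 0, 2), 2, 0, 1), ((2, 1, 4), 1, 2, 3), ((3, 4, 8), 0, 3, 6),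
    ((4, 2, 3), 3, 1, 0), ((5, 6, 9), 0, 4, 7), ((6, 5, 7), 4, 0, 5), ((7, 0, 6), 5, 0, 4),
    ((8, 3, 9), 6, 0, 7), ((9, 5, 8), 7, 0, 6)]
  Tc := []
  Td := [((0, 1), (0, 1), 2), ((0, 1), (0, 7), 5), ((0, 1), (3, 4), 3), ((0, 1), (3, 8), 6), ((0,
    1), (5, 6), 4), ((0, 1), (5, 9), 7), ((1, 0), (2, 1), 2), ((1, 0), (2, 4), 3)]
  G := [[0, 0xee6e46eeae8cc8, 0xee61e81c8, 0xee61e81c8, 0xee61e81c8], [0, 0xee66eeec88e8ac4, 0,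
    0xe4e4ceeaeeacc1, 0xee6e4ce8eeacc1], [0, 0x62eaaaeecec6c64, 0, 0xe41eea1c4, 0xe41eea1c1]]

noncomputable def n142 : Ent := ⟨e142, noF, [], [], [(9, 13, [87897818358406171357428020359653357189577334862559918477313, 0])]⟩

def c142 : PLift (Cov.check n142.C.D v142 = true) := ⟨by decide +kernel⟩

def b142 : PLift (entF (fidx ts) 400 142 n142 = true) := ⟨by decide +kernel⟩

theorem g142 : GoodF (fidx ts) 400 142 := GoodF.ofV v142 n142 c142.down b142.down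

/-- 46475:128/1 -/
noncomputable def e143 : SCfg where
  D := {
    a := 5
    L := 9
    kp := 6
    inn := [(0, 1), (1, 0), (1, 2), (1, 3), (2, 1), (3, 1), (3, 4), (4, 3)]
    mix := [(0, 0), (0, 1), (0, 2), (1, 0), (1, 2), (1, 3), (2, 2), (2, 3), (2, 4), (3, 0), (3, 3), (3,
      5), (3, 6), (3, 7), (4, 4), (4, 5), (4, 6), (4, 8)]
    cl := [0, 2, 1, 0, 4, 3, 3, 5, 6]
    chq := [(0, 1), (1, 0)]
    rng := [(0, 1), (0, 7), (1, 0), (1, 2), (2, 1), (2, 4), (3, 4), (3, 5), (4, 2), (4, 3), (4, 5), (4,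
      8), (5, 3), (5, 4), (6, 7), (6, 8), (7, 0), (7, 6), (8, 4), (8, 6)]
    lev := [] }
  links := [[1, 5, 6, 7], [5, 0, 7, 2, 8, 3], [8, 1, 7, 9], [5, 1, 8, 10, 4, 11, 12], [11, 3, 10, 9, 13]]
  P := {
    a := 5
    N := 14
    nb := [226, 429, 898, 7474, 11784, 4171, 161, 583, 1550, 9620, 792, 12312, 2088, 2576]
    tri := [(0, 1, 5), (0, 1, 7), (0, 5, 6), (0, 6, 7), (1, 2, 7), (1, 2, 8), (1, 3, 5), (1, 3, 8), (2,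
      7, 9), (2, 8, 9), (3, 4, 10), (3, 4, 11), (3, 5, 12), (3, 8, 10), (3, 11, 12), (4, 9, 10),
      (4, 9, 13), (4, 11, 13)]
    fin := [0, 0, 0, 3, 4, 0, 6, 7, 0, 4, 3, 3, 12, 13]
    chd := [(0, 7)]
    steps := [(0, 1), (0, 2), (0, 5), (0, 8), (3, 10), (3, 11), (4, 9)] }
  rep := [0, 7, 6, 3, 4, 12, 13]

noncomputable def v143 : Cov.CovD where
  P := 3
  N := 4
  pl := [1, 4, 7, 8]
  lev := [⟨[], [], [(0, 1)], [2], [(0, 0, [1]), (2, 1, [0])]⟩,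
    ⟨[], [(0, 0), (0, 1)], [(0, 0), (0, 1)], [], [(0, 0, [1]), (2, 1, [0]), (3, 0, [1])]⟩,
    ⟨[(0, 1)], [(0, 1), (1, 0), (1, 1)], [(0, 1)], [4], [(2, 1, [0]), (3, 0, [1])]⟩,
    ⟨[(0, 1), (1, 2)], [(0, 0), (1, 0), (1, 1), (1, 3), (2, 0)], [(0, 0), (0, 3), (3, 3)],
      [5], [(0, 0, [1]), (3, 0, [1]), (5, 3, []), (6, 3, [])]⟩,
    ⟨[(1, 3)], [(3, 0), (3, 3)], [(3, 3)], [4, 6], [(5, 3, []), (6, 3, [])]⟩]
  Ta := [((0, 1), 0, 2), ((0, 7), 0, 5), ((3, 4), 0, 4), ((3, 5), 0, 3), ((5, 3), 3, 0), ((5, 4),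
    3, 4), ((6, 7), 3, 5), ((6, 8), 3, 6)]
  Tb := [((0, 1, 7), 0, 2, 5), ((1, 0, 2), 2, 0, 1), ((2, 1, 4), 1, 2, 4), ((3, 4, 5), 0, 4, 3),
    ((4, 2, 3), 4, 1, 0), ((4, 2, 5), 4, 1, 3), ((4, 2, 8), 4, 1, 6), ((4, 3, 5), 4, 0, 3),
    ((4, 3, 8), 4, 0, 6), ((4, 5, 8), 4, 3, 6), ((5, 3, 4), 3, 0, 4), ((6, 7, 8), 3, 5, 6),
    ((7, 0, 6), 5, 0, 3), ((8, 4, 6), 6, 4, 3)]
  Tc := []
  Td := [((0, 1), (0, 1), 2), ((0, 1), (0, 7), 5), ((0, 1), (3, 4), 4), ((0, 1), (3, 5), 3), ((1,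
    0), (2, 1), 2), ((1, 0), (2, 4), 4)]
  G := [[0, 0x75cb3669da8c4, 0xff61f81c8, 0xf361f81c8, 0x444fbfe1c8], [0, 0x3229dde77ca68,
    0xff61f81c4, 0xf41f3a1c4, 0xff61f81c8], [0, 0xbb3e2d5de468, 0, 0x5449bfe73acc1,
    0xbf6753ec988c1], [0, 0x5d67b3e6988a4, 0, 0xb3675fec988c4, 0x753e49bfe8c1]]

noncomputable def n143 : Ent := ⟨e143, noF, [], [], []⟩

def c143 : PLift (Cov.check n143.C.D v143 = true) := ⟨by decide +kernel⟩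

def b143 : PLift (entF (fidx ts) 400 143 n143 = true) := ⟨by decide +kernel⟩

theorem g143 : GoodF (fidx ts) 400 143 := GoodF.ofV v143 n143 c143.down b143.down

/-- 46475:128 -/
noncomputable def e144 : SCfg where
  D := {
    a := 5
    L := 10
    kp := 7
    inn := [(0, 1), (1, 0), (1, 2), (1, 3), (2, 1), (3, 1), (3, 4), (4, 3)]
    mix := [(0, 0), (0, 1), (0, 2), (1, 0), (1, 2), (1, 3), (2, 2), (2, 3), (2, 4), (3, 0), (3, 3), (3,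
      5), (3, 6), (3, 7), (4, 5), (4, 6), (4, 8), (4, 9)]
    cl := [0, 2, 1, 0, 4, 3, 3, 5, 6, 7]
    chq := [(0, 1), (1, 0)]
    rng := [(0, 1), (0, 7), (1, 0), (1, 2), (2, 1), (2, 4), (3, 4), (3, 5), (4, 2), (4, 3), (5, 3), (5,
      8), (6, 7), (6, 9), (7, 0), (7, 6), (8, 5), (8, 9), (9, 6), (9, 8)]
    lev := [] }
  links := [[1, 5, 6, 7], [5, 0, 7, 2, 8, 3], [8, 1, 7, 9], [5, 1, 8, 10, 4, 11, 12], [11, 3, 10, 13,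
    14]]
  P := {
    a := 5
    N := 15
    nb := [226, 429, 898, 7474, 27656, 4171, 161, 583, 1550, 388, 8472, 20504, 2088, 17424, 10256]
    tri := [(0, 1, 5), (0, 1, 7), (0, 5, 6), (0, 6, 7), (1, 2, 7), (1, 2, 8), (1, 3, 5), (1, 3, 8), (2,
      7, 9), (2, 8, 9), (3, 4, 10), (3, 4, 11), (3, 5, 12), (3, 8, 10), (3, 11, 12), (4, 10, 13),
      (4, 11, 14), (4, 13, 14)]
    fin := [0, 0, 0, 0, 4, 0, 6, 7, 0, 9, 4, 4, 12, 13, 14]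
    chd := [(0, 7)]
    steps := [(0, 1), (0, 2), (0, 3), (0, 5), (0, 8), (4, 10), (4, 11)] }
  rep := [0, 7, 6, 4, 9, 12, 13, 14]

noncomputable def v144 : Cov.CovD where
  P := 3
  N := 5
  pl := [1, 4, 7, 8, 9]
  lev := [⟨[], [], [(0, 1)], [2], [(0, 0, [1]), (2, 1, [0])]⟩,
    ⟨[], [(0, 0), (0, 1)], [(0, 0), (0, 1)], [], [(0, 0, [1]), (2, 1, [0]), (3, 0, [1])]⟩,
    ⟨[(0, 1)], [(0, 1), (1, 0), (1, 1)], [(0, 1)], [4], [(2, 1, [0]), (3, 0, [1])]⟩,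
    ⟨[(0, 1), (1, 2)], [(0, 0), (1, 0), (1, 1), (1, 3), (2, 0)], [(0, 0), (0, 3), (3, 3)],
      [5], [(0, 0, [1]), (3, 0, [1]), (5, 3, []), (6, 3, [])]⟩,
    ⟨[(1, 3)], [(3, 0), (3, 3)], [(3, 3)], [6, 7], [(5, 3, []), (6, 3, [])]⟩]
  Ta := [((0, 1), 0, 2), ((0, 7), 0, 5), ((3, 4), 0, 4), ((3, 5), 0, 3), ((5, 3), 3, 0), ((5, 8),
    3, 6), ((6, 7), 3, 5), ((6, 9), 3, 7)]
  Tb := [((0, 1, 7), 0, 2, 5), ((1, 0, 2), 2, 0, 1), ((2, 1, 4), 1, 2, 4), ((3, 4, 5), 0, 4, 3),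
    ((4, 2, 3), 4, 1, 0), ((5, 3, 8), 3, 0, 6), ((6, 7, 9), 3, 5, 7), ((7, 0, 6), 5, 0, 3),
    ((8, 5, 9), 6, 3, 7), ((9, 6, 8), 7, 3, 6)]
  Tc := []
  Td := [((0, 1), (0, 1), 2), ((0, 1), (0, 7), 5), ((0, 1), (3, 4), 4), ((0, 1), (3, 5), 3), ((1,
    0), (2, 1), 2), ((1, 0), (2, 4), 4)]
  G := [[0, 0xf4f4affaffaac4, 0xf41ffa1c4, 0xff61f81c4, 0x641f9fe1c8], [0, 0xffaffaaf4f4664,
    0xf41ffa1c4, 0xff61f81c8, 0xff61f81c8], [0, 0xff6ff6af8f8aa4, 0, 0xf44ffaffaccf4889,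
    0xff67ffecf888cc1], [0, 0xff6ff66f8f8ca8, 0, 0x443fccfbfecfacc1, 0x44ff6cfbfef8cc1]]

noncomputable def n144 : Ent := ⟨e144, noF, [], [], [(9, 13, [87897818358406171357428020359653357189577334862559918485505, 0])]⟩

def c144 : PLift (Cov.check n144.C.D v144 = true) := ⟨by decide +kernel⟩

def b144 : PLift (entF (fidx ts) 400 144 n144 = true) := ⟨by decide +kernel⟩

theorem g144 : GoodF (fidx ts) 400 144 := GoodF.ofV v144 n144 c144.down b144.down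

/-- 46964:129/1 -/
noncomputable def e145 : SCfg where
  D := {
    a := 5
    L := 10
    kp := 9
    inn := [(0, 1), (0, 2), (0, 3), (1, 0), (1, 3), (1, 4), (2, 0), (2, 3), (3, 0), (3, 1), (3, 2), (4,
      1)]
    mix := [(0, 0), (1, 0), (1, 1), (1, 2), (2, 0), (2, 3), (2, 4), (2, 5), (2, 6), (2, 7), (2, 8), (3,
      1), (3, 8), (3, 9), (4, 0), (4, 2), (4, 3)]
    cl := [0, 1, 2, 3, 5, 6, 7, 8, 4, 9]
    chq := [(0, 1), (0, 2), (1, 0), (1, 3), (1, 4), (1, 5), (1, 6), (1, 7), (1, 8), (2, 0), (3, 1), (4,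
      1), (5, 1), (6, 1), (7, 1), (8, 1)]
    rng := [(0, 3), (1, 2), (1, 9), (2, 1), (2, 3), (3, 0), (3, 2), (3, 4), (4, 3), (4, 5), (5, 4), (5,
      6), (6, 5), (6, 7), (7, 6), (7, 8), (8, 7), (8, 9), (9, 1), (9, 8)]
    lev := [] }
  links := [[1, 5, 2, 3], [5, 0, 3, 6, 7, 4], [3, 0, 5, 8, 9, 10, 11, 12, 13], [6, 1, 0, 2, 13, 14], [5,
    1, 7, 8]]
  P := {
    a := 5
    N := 15
    nb := [46, 249, 16169, 24647, 418, 279, 16522, 338, 692, 1284, 2564, 5124, 10244, 20492, 8264]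
    tri := [(0, 1, 3), (0, 1, 5), (0, 2, 3), (0, 2, 5), (1, 3, 6), (1, 4, 5), (1, 4, 7), (1, 6, 7), (2,
      3, 13), (2, 5, 8), (2, 8, 9), (2, 9, 10), (2, 10, 11), (2, 11, 12), (2, 12, 13), (3, 6, 14),
      (3, 13, 14), (4, 5, 8), (4, 7, 8)]
    fin := [0, 0, 2, 2, 0, 0, 2, 7, 8, 9, 10, 11, 12, 13, 14]
    chd := [(0, 2), (0, 7), (2, 8), (2, 9), (2, 10), (2, 11), (2, 12), (2, 13)]
    steps := [(0, 1), (0, 4), (0, 5), (2, 3), (2, 6)] }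
  rep := [0, 2, 7, 8, 13, 9, 10, 11, 12, 14]

noncomputable def v145 : Cov.CovD where
  P := 3
  N := 7
  pl := [9]
  lev := [⟨[], [], [], [], [(0, 0, [1, 2])]⟩,
    ⟨[], [(0, 0), (0, 1), (0, 2)], [(0, 1), (0, 2), (1, 2)], [], [(0, 0, [1, 2]), (1, 1,
      [0, 3, 4, 5, 6, 7, 8]), (2, 2, [0])]⟩,
    ⟨[(0, 1)], [(0, 0), (0, 3), (0, 4), (0, 5), (0, 6), (0, 7), (0, 8), (1, 0)], [(0, 3),
      (0, 4), (0, 5), (0, 6), (0, 7), (0, 8), (3, 4), (3, 5), (3, 6), (3, 7), (3, 8), (4, 5),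
      (4, 6), (4, 7), (4, 8), (5, 6), (5, 7), (5, 8), (6, 7), (6, 8), (7, 8)], [], [(0, 0,
      [1, 2]), (3, 3, [1]), (4, 5, [1]), (5, 6, [1]), (6, 7, [1]), (7, 8, [1]), (8, 4, [1])]⟩,
    ⟨[(0, 1), (0, 2), (1, 2)], [(0, 0), (0, 1), (0, 4), (1, 0), (1, 1), (1, 2), (1, 4), (2,
      0), (2, 1), (2, 3), (2, 4), (2, 5), (2, 6), (2, 7), (2, 8)], [(1, 4)], [9], [(1, 1, [0,
      3, 4, 5, 6, 7, 8]), (8, 4, [1])]⟩,
    ⟨[(0, 1), (1, 3)], [(0, 0), (1, 0), (1, 1), (1, 2), (1, 3), (2, 0), (2, 3)], [(0, 2),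
      (0, 3), (2, 3)], [], [(0, 0, [1, 2]), (2, 2, [0]), (3, 3, [1])]⟩]
  Ta := []
  Tb := [((1, 2, 9), 1, 2, 9), ((2, 1, 3), 2, 1, 3), ((3, 0, 2), 3, 0, 2), ((3, 0, 4), 3, 0, 5),
    ((3, 2, 4), 3, 2, 5), ((4, 3, 5), 5, 3, 6), ((5, 4, 6), 6, 5, 7), ((6, 5, 7), 7, 6, 8),
    ((7, 6, 8), 8, 7, 4), ((8, 7, 9), 4, 8, 9), ((9, 1, 8), 9, 1, 4)]
  Tc := [(0, 1, 2), (1, 0, 3), (1, 0, 4), (1, 0, 5), (1, 0, 6), (1, 0, 7), (1, 0, 8), (1, 3, 4),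
    (1, 3, 5), (1, 3, 6), (1, 3, 7), (1, 3, 8), (1, 4, 5), (1, 4, 6), (1, 4, 7), (1, 4, 8),
    (1, 5, 6), (1, 5, 7), (1, 5, 8), (1, 6, 7), (1, 6, 8), (1, 7, 8)]
  Td := [((0, 1), (0, 3), 3), ((0, 2), (0, 3), 3), ((1, 0), (1, 2), 2), ((1, 0), (1, 9), 9), ((1,
    3), (1, 2), 2), ((1, 3), (1, 9), 9), ((1, 4), (1, 2), 2), ((1, 4), (1, 9), 9), ((1, 5),
    (1, 2), 2), ((1, 5), (1, 9), 9), ((1, 6), (1, 2), 2), ((1, 6), (1, 9), 9), ((1, 7), (1,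
    2), 2), ((1, 7), (1, 9), 9), ((1, 8), (1, 2), 2), ((1, 8), (1, 9), 9), ((2, 0), (2, 1),
    1), ((2, 0), (2, 3), 3), ((3, 1), (3, 0), 0), ((3, 1), (3, 2), 2), ((3, 1), (3, 4), 5),
    ((4, 1), (8, 7), 8), ((4, 1), (8, 9), 9), ((5, 1), (4, 3), 3), ((5, 1), (4, 5), 6), ((6,
    1), (5, 4), 5), ((6, 1), (5, 6), 7), ((7, 1), (6, 5), 6), ((7, 1), (6, 7), 8), ((8, 1),
    (7, 6), 7), ((8, 1), (7, 8), 4)]
  G := [[0, 0x4cce1881c4, 0x6acd284, 0x4ccd2882c4, 0x2aad2882a4]]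

noncomputable def n145 : Ent := ⟨e145, noF, [], [], []⟩

def c145 : PLift (Cov.check n145.C.D v145 = true) := ⟨by decide +kernel⟩

def b145 : PLift (entF (fidx ts) 400 145 n145 = true) := ⟨by decide +kernel⟩

theorem g145 : GoodF (fidx ts) 400 145 := GoodF.ofV v145 n145 c145.down b145.down

/-- 46964:129 -/
noncomputable def e146 : SCfg where
  D := {
    a := 5
    L := 11
    kp := 10
    inn := [(0, 1), (0, 2), (0, 3), (1, 0), (1, 3), (1, 4), (2, 0), (2, 3), (3, 0), (3, 1), (3, 2), (4,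
      1)]
    mix := [(0, 0), (1, 0), (1, 1), (1, 2), (2, 0), (2, 3), (2, 4), (2, 5), (2, 6), (2, 7), (2, 8), (3,
      1), (3, 8), (3, 9), (4, 0), (4, 2), (4, 10)]
    cl := [0, 1, 2, 4, 5, 6, 7, 8, 3, 10, 9]
    chq := [(0, 1), (1, 0), (1, 3), (1, 4), (1, 5), (1, 6), (1, 7), (1, 8), (1, 9), (3, 1), (4, 1), (5,
      1), (6, 1), (7, 1), (8, 1), (9, 1)]
    rng := [(0, 3), (0, 10), (1, 2), (1, 9), (2, 1), (2, 10), (3, 0), (3, 4), (4, 3), (4, 5), (5, 4),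
      (5, 6), (6, 5), (6, 7), (7, 6), (7, 8), (8, 7), (8, 9), (9, 1), (9, 8), (10, 0), (10, 2)]
    lev := [] }
  links := [[1, 5, 2, 3], [5, 0, 3, 6, 7, 4], [3, 0, 5, 8, 9, 10, 11, 12, 13], [6, 1, 0, 2, 13, 14], [5,
    1, 7, 15]]
  P := {
    a := 5
    N := 16
    nb := [46, 249, 16169, 24647, 32930, 33047, 16522, 32850, 548, 1284, 2564, 5124, 10244, 20492,
      8264, 176]
    tri := [(0, 1, 3), (0, 1, 5), (0, 2, 3), (0, 2, 5), (1, 3, 6), (1, 4, 5), (1, 4, 7), (1, 6, 7), (2,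
      3, 13), (2, 5, 8), (2, 8, 9), (2, 9, 10), (2, 10, 11), (2, 11, 12), (2, 12, 13), (3, 6, 14),
      (3, 13, 14), (4, 5, 15), (4, 7, 15)]
    fin := [0, 0, 0, 3, 0, 5, 0, 7, 8, 9, 10, 11, 12, 3, 14, 15]
    chd := [(0, 3), (0, 8), (0, 9), (0, 10), (0, 11), (0, 12), (0, 15), (5, 0)]
    steps := [(0, 1), (0, 2), (0, 4), (0, 6), (3, 13)] }
  rep := [5, 0, 7, 3, 8, 9, 10, 11, 12, 15, 14]

noncomputable def v146 : Cov.CovD where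
  P := 3
  N := 8
  pl := [2, 9]
  lev := [⟨[], [], [], [], [(0, 0, [1])]⟩,
    ⟨[], [(0, 0), (0, 1)], [(0, 1)], [2], [(0, 0, [1]), (1, 1, [0, 3, 4, 5, 6, 7, 8, 9])]⟩,
    ⟨[(0, 1)], [(0, 0), (0, 3), (0, 4), (0, 5), (0, 6), (0, 7), (0, 8), (1, 0)], [(0, 3),
      (0, 4), (0, 5), (0, 6), (0, 7), (0, 8), (3, 4), (3, 5), (3, 6), (3, 7), (3, 8), (4, 5),
      (4, 6), (4, 7), (4, 8), (5, 6), (5, 7), (5, 8), (6, 7), (6, 8), (7, 8)], [], [(0, 0,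
      [1]), (3, 4, [1]), (4, 5, [1]), (5, 6, [1]), (6, 7, [1]), (7, 8, [1]), (8, 3, [1])]⟩,
    ⟨[(0, 1), (0, 2), (1, 2)], [(0, 0), (0, 1), (0, 3), (1, 0), (1, 1), (1, 3), (2, 0), (2,
      1), (2, 3), (2, 4), (2, 5), (2, 6), (2, 7), (2, 8)], [(1, 3)], [10], [(1, 1, [0, 3, 4,
      5, 6, 7, 8, 9]), (8, 3, [1])]⟩,
    ⟨[(0, 1), (1, 3)], [(0, 0), (1, 0), (1, 1), (1, 9), (2, 0)], [(0, 9)], [2], [(0, 0,
      [1]), (10, 9, [1])]⟩]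
  Ta := []
  Tb := [((0, 3, 10), 0, 4, 9), ((1, 2, 9), 1, 2, 10), ((2, 1, 10), 2, 1, 9), ((3, 0, 4), 4, 0,
    5), ((4, 3, 5), 5, 4, 6), ((5, 4, 6), 6, 5, 7), ((6, 5, 7), 7, 6, 8), ((7, 6, 8), 8, 7,
    3), ((8, 7, 9), 3, 8, 10), ((9, 1, 8), 10, 1, 3), ((10, 0, 2), 9, 0, 2)]
  Tc := [(1, 0, 3), (1, 0, 4), (1, 0, 5), (1, 0, 6), (1, 0, 7), (1, 0, 8), (1, 0, 9), (1, 3, 4),
    (1, 3, 5), (1, 3, 6), (1, 3, 7), (1, 3, 8), (1, 3, 9), (1, 4, 5), (1, 4, 6), (1, 4, 7),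
    (1, 4, 8), (1, 4, 9), (1, 5, 6), (1, 5, 7), (1, 5, 8), (1, 5, 9), (1, 6, 7), (1, 6, 8),
    (1, 6, 9), (1, 7, 8), (1, 7, 9), (1, 8, 9)]
  Td := [((0, 1), (0, 3), 4), ((0, 1), (0, 10), 9), ((1, 0), (1, 2), 2), ((1, 0), (1, 9), 10),
    ((1, 3), (1, 2), 2), ((1, 3), (1, 9), 10), ((1, 4), (1, 2), 2), ((1, 4), (1, 9), 10),
    ((1, 5), (1, 2), 2), ((1, 5), (1, 9), 10), ((1, 6), (1, 2), 2), ((1, 6), (1, 9), 10),
    ((1, 7), (1, 2), 2), ((1, 7), (1, 9), 10), ((1, 8), (1, 2), 2), ((1, 8), (1, 9), 10),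
    ((1, 9), (1, 2), 2), ((1, 9), (1, 9), 10), ((3, 1), (8, 7), 8), ((3, 1), (8, 9), 10),
    ((4, 1), (3, 0), 0), ((4, 1), (3, 4), 5), ((5, 1), (4, 3), 4), ((5, 1), (4, 5), 6), ((6,
    1), (5, 4), 5), ((6, 1), (5, 6), 7), ((7, 1), (6, 5), 6), ((7, 1), (6, 7), 8), ((8, 1),
    (7, 6), 7), ((8, 1), (7, 8), 3), ((9, 1), (10, 0), 0), ((9, 1), (10, 2), 2)]
  G := [[0, 0x441c8ce1c2, 0x222d248, 0x442c8cd2c8, 0x222d284]]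

noncomputable def n146 : Ent := ⟨e146, noF, [], [], [(8, 15, [360035742630636841211993100915356868655746945586763691008266241, 0])]⟩

def c146 : PLift (Cov.check n146.C.D v146 = true) := ⟨by decide +kernel⟩

def b146 : PLift (entF (fidx ts) 400 146 n146 = true) := ⟨by decide +kernel⟩

theorem g146 : GoodF (fidx ts) 400 146 := GoodF.ofV v146 n146 c146.down b146.down

/-- 46466:130/1 -/
noncomputable def e147 : SCfg where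
  D := {
    a := 5
    L := 7
    kp := 5
    inn := [(0, 1), (1, 0), (1, 2), (1, 3), (2, 1), (2, 3), (2, 4), (3, 1), (3, 2), (3, 4), (4, 2), (4,
      3)]
    mix := [(0, 0), (0, 1), (0, 2), (1, 0), (1, 2), (1, 3), (2, 2), (3, 3), (3, 4), (3, 5), (4, 1), (4,
      2), (4, 4), (4, 6)]
    cl := [1, 2, 0, 3, 0, 4, 5]
    chq := [(0, 1), (0, 3), (1, 0), (3, 0)]
    rng := [(0, 1), (0, 3), (1, 0), (1, 2), (1, 6), (2, 1), (3, 0), (3, 5), (4, 5), (4, 6), (5, 3), (5,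
      4), (6, 1), (6, 4)]
    lev := [] }
  links := [[1, 5, 6, 7], [5, 0, 7, 2, 3, 8], [3, 1, 7, 4], [8, 1, 2, 4, 9, 10], [9, 3, 2, 7, 6, 11]]
  P := {
    a := 5
    N := 12
    nb := [226, 429, 154, 1814, 2764, 323, 2225, 87, 1066, 3096, 776, 592]
    tri := [(0, 1, 5), (0, 1, 7), (0, 5, 6), (0, 6, 7), (1, 2, 3), (1, 2, 7), (1, 3, 8), (1, 5, 8), (2,
      3, 4), (2, 4, 7), (3, 4, 9), (3, 8, 10), (3, 9, 10), (4, 6, 7), (4, 6, 11), (4, 9, 11)]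
    fin := [0, 0, 0, 3, 3, 0, 6, 3, 8, 3, 10, 11]
    chd := [(0, 3), (3, 8)]
    steps := [(0, 1), (0, 2), (0, 5), (3, 4), (3, 7), (3, 9)] }
  rep := [3, 0, 6, 8, 10, 11]

noncomputable def v147 : Cov.CovD where
  P := 3
  N := 3
  pl := [1, 5, 6]
  lev := [⟨[], [], [(0, 1)], [2], [(0, 1, [0]), (2, 0, [1, 3])]⟩,
    ⟨[], [(0, 0), (0, 1), (0, 3)], [(0, 1), (0, 3), (1, 3)], [], [(0, 1, [0]), (2, 0, [1,
      3]), (3, 3, [0])]⟩,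
    ⟨[(0, 1)], [(0, 0), (1, 0), (1, 1), (1, 3)], [], [], [(2, 0, [1, 3])]⟩,
    ⟨[(0, 1), (1, 2)], [(1, 0), (1, 1), (1, 3), (2, 0), (2, 3)], [(0, 3)], [4], [(3, 3,
      [0]), (4, 0, [1, 3])]⟩,
    ⟨[(1, 2), (1, 3), (2, 3)], [(0, 0), (1, 0), (2, 0), (3, 0), (3, 3)], [(0, 0)], [2, 5],
      [(2, 0, [1, 3]), (4, 0, [1, 3])]⟩]
  Ta := [((2, 1), 0, 2), ((4, 5), 0, 4), ((4, 6), 0, 5)]
  Tb := [((0, 1, 3), 1, 2, 3), ((1, 0, 2), 2, 1, 0), ((1, 0, 6), 2, 1, 5), ((1, 2, 6), 2, 0, 5),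
    ((3, 0, 5), 3, 1, 4), ((4, 5, 6), 0, 4, 5), ((5, 3, 4), 4, 3, 0), ((6, 1, 4), 5, 2, 0)]
  Tc := [(0, 1, 3)]
  Td := [((0, 1), (2, 1), 2), ((0, 1), (4, 5), 4), ((0, 1), (4, 6), 5), ((0, 3), (2, 1), 2), ((0,
    3), (4, 5), 4), ((0, 3), (4, 6), 5), ((1, 0), (0, 1), 2), ((1, 0), (0, 3), 3), ((3, 0),
    (3, 0), 1), ((3, 0), (3, 5), 4)]
  G := [[0, 0xc12c18c4, 0x612a12c8, 0x48c8f4c18c4, 0xa14aa68c8], [0, 0xc12c14a4, 0,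
    0xcc614cce88a98, 0xaa61aaa458]]

noncomputable def n147 : Ent := ⟨e147, noF, [], [], []⟩

def c147 : PLift (Cov.check n147.C.D v147 = true) := ⟨by decide +kernel⟩

def b147 : PLift (entF (fidx ts) 400 147 n147 = true) := ⟨by decide +kernel⟩

theorem g147 : GoodF (fidx ts) 400 147 := GoodF.ofV v147 n147 c147.down b147.down

/-- 46466:130 -/
noncomputable def e148 : SCfg where
  D := {
    a := 5
    L := 8
    kp := 6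
    inn := [(0, 1), (1, 0), (1, 2), (1, 3), (2, 1), (2, 3), (2, 4), (3, 1), (3, 2), (3, 4), (4, 2), (4,
      3)]
    mix := [(0, 0), (0, 1), (0, 2), (1, 0), (1, 2), (1, 3), (2, 2), (3, 3), (3, 4), (3, 5), (4, 2), (4,
      4), (4, 6), (4, 7)]
    cl := [1, 2, 0, 3, 0, 4, 5, 6]
    chq := [(0, 1), (0, 3), (1, 0), (3, 0)]
    rng := [(0, 1), (0, 3), (1, 0), (1, 2), (2, 1), (2, 6), (3, 0), (3, 5), (4, 5), (4, 7), (5, 3), (5,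
      4), (6, 2), (6, 7), (7, 4), (7, 6)]
    lev := [] }
  links := [[1, 5, 6, 7], [5, 0, 7, 2, 3, 8], [3, 1, 7, 4], [8, 1, 2, 4, 9, 10], [9, 3, 2, 7, 11, 12]]
  P := {
    a := 5
    N := 13
    nb := [226, 429, 154, 1814, 6796, 323, 161, 2135, 1066, 5144, 776, 4240, 2576]
    tri := [(0, 1, 5), (0, 1, 7), (0, 5, 6), (0, 6, 7), (1, 2, 3), (1, 2, 7), (1, 3, 8), (1, 5, 8), (2,
      3, 4), (2, 4, 7), (3, 4, 9), (3, 8, 10), (3, 9, 10), (4, 7, 11), (4, 9, 12), (4, 11, 12)]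
    fin := [0, 0, 0, 3, 3, 0, 6, 3, 8, 3, 10, 11, 12]
    chd := [(0, 3), (3, 8)]
    steps := [(0, 1), (0, 2), (0, 5), (3, 4), (3, 7), (3, 9)] }
  rep := [3, 0, 6, 8, 10, 11, 12]

noncomputable def v148 : Cov.CovD where
  P := 3
  N := 4
  pl := [1, 5, 6, 7]
  lev := [⟨[], [], [(0, 1)], [2], [(0, 1, [0]), (2, 0, [1, 3])]⟩,
    ⟨[], [(0, 0), (0, 1), (0, 3)], [(0, 1), (0, 3), (1, 3)], [], [(0, 1, [0]), (2, 0, [1,
      3]), (3, 3, [0])]⟩,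
    ⟨[(0, 1)], [(0, 0), (1, 0), (1, 1), (1, 3)], [], [], [(2, 0, [1, 3])]⟩,
    ⟨[(0, 1), (1, 2)], [(1, 0), (1, 1), (1, 3), (2, 0), (2, 3)], [(0, 3)], [4], [(3, 3,
      [0]), (4, 0, [1, 3])]⟩,
    ⟨[(1, 2), (1, 3), (2, 3)], [(0, 0), (1, 0), (2, 0), (3, 0), (3, 3)], [(0, 0)], [5, 6],
      [(2, 0, [1, 3]), (4, 0, [1, 3])]⟩]
  Ta := [((2, 1), 0, 2), ((2, 6), 0, 5), ((4, 5), 0, 4), ((4, 7), 0, 6)]
  Tb := [((0, 1, 3), 1, 2, 3), ((1, 0, 2), 2, 1, 0), ((2, 1, 6), 0, 2, 5), ((3, 0, 5), 3, 1, 4),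
    ((4, 5, 7), 0, 4, 6), ((5, 3, 4), 4, 3, 0), ((6, 2, 7), 5, 0, 6), ((7, 4, 6), 6, 0, 5)]
  Tc := [(0, 1, 3)]
  Td := [((0, 1), (2, 1), 2), ((0, 1), (2, 6), 5), ((0, 1), (4, 5), 4), ((0, 1), (4, 7), 6), ((0,
    3), (2, 1), 2), ((0, 3), (2, 6), 5), ((0, 3), (4, 5), 4), ((0, 3), (4, 7), 6), ((1, 0),
    (0, 1), 2), ((1, 0), (0, 3), 3), ((3, 0), (3, 0), 1), ((3, 0), (3, 5), 4)]
  G := [[0, 0xe12e18c8, 0xe14e18c8, 0x68e8f4e18c4, 0xee52ee38c8], [0, 0xe12e12c8, 0,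
    0x6ace2eea44658, 0x4aee1eea44658]]

noncomputable def n148 : Ent := ⟨e148, noF, [], [], [(6, 11, [4490646669154137815330563540829309386802515929542657, 0])]⟩

def c148 : PLift (Cov.check n148.C.D v148 = true) := ⟨by decide +kernel⟩

def b148 : PLift (entF (fidx ts) 400 148 n148 = true) := ⟨by decide +kernel⟩

theorem g148 : GoodF (fidx ts) 400 148 := GoodF.ofV v148 n148 c148.down b148.down

/-- 46464:131/1 -/
noncomputable def e149 : SCfg where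
  D := {
    a := 5
    L := 6
    kp := 4
    inn := [(0, 1), (1, 0), (1, 2), (1, 3), (2, 1), (2, 3), (3, 1), (3, 2), (3, 4), (4, 3)]
    mix := [(0, 0), (0, 1), (0, 2), (1, 0), (1, 2), (1, 3), (2, 2), (2, 4), (3, 3), (3, 4), (3, 5), (4,
      1), (4, 4), (4, 5)]
    cl := [1, 2, 0, 0, 3, 4]
    chq := [(3, 4), (4, 3)]
    rng := [(0, 1), (0, 3), (1, 0), (1, 2), (1, 4), (1, 5), (2, 1), (2, 4), (3, 0), (3, 5), (4, 1), (4,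
      2), (5, 1), (5, 3)]
    lev := [] }
  links := [[1, 5, 6, 7], [5, 0, 7, 2, 3, 8], [3, 1, 7, 9], [8, 1, 2, 9, 4, 10], [10, 3, 9, 6]]
  P := {
    a := 5
    N := 11
    nb := [226, 429, 650, 1814, 1608, 323, 1713, 583, 1066, 220, 344]
    tri := [(0, 1, 5), (0, 1, 7), (0, 5, 6), (0, 6, 7), (1, 2, 3), (1, 2, 7), (1, 3, 8), (1, 5, 8), (2,
      3, 9), (2, 7, 9), (3, 4, 9), (3, 4, 10), (3, 8, 10), (4, 6, 9), (4, 6, 10)]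
    fin := [0, 0, 2, 2, 4, 0, 6, 2, 2, 4, 10]
    chd := [(4, 10)]
    steps := [(0, 1), (0, 5), (2, 3), (2, 7), (2, 8), (4, 9)] }
  rep := [2, 0, 6, 4, 10]

noncomputable def v149 : Cov.CovD where
  P := 3
  N := 2
  pl := [0, 1]
  lev := [⟨[], [], [], [1, 2], [(2, 0, [])]⟩,
    ⟨[], [(0, 0)], [(0, 0)], [1], [(2, 0, []), (3, 0, [])]⟩,
    ⟨[(0, 1)], [(0, 0), (1, 0), (1, 3)], [(0, 3)], [], [(2, 0, []), (4, 3, [4])]⟩,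
    ⟨[(0, 1), (1, 2)], [(1, 0), (1, 3), (1, 4), (2, 0), (2, 3), (2, 4)], [(0, 3), (0, 4),
      (3, 4)], [], [(3, 0, []), (4, 3, [4]), (5, 4, [3])]⟩,
    ⟨[(1, 3), (2, 3)], [(2, 3), (3, 0), (3, 3), (3, 4)], [(3, 4)], [2], [(4, 3, [4]), (5,
      4, [3])]⟩]
  Ta := [((2, 1), 0, 2), ((2, 4), 0, 3), ((3, 0), 0, 1), ((3, 5), 0, 4)]
  Tb := [((0, 1, 3), 1, 2, 0), ((1, 0, 2), 2, 1, 0), ((1, 0, 4), 2, 1, 3), ((1, 0, 5), 2, 1, 4),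
    ((1, 2, 4), 2, 0, 3), ((1, 2, 5), 2, 0, 4), ((1, 4, 5), 2, 3, 4), ((2, 1, 4), 0, 2, 3),
    ((3, 0, 5), 0, 1, 4), ((4, 1, 2), 3, 2, 0), ((5, 1, 3), 4, 2, 0)]
  Tc := []
  Td := [((3, 4), (4, 1), 2), ((3, 4), (4, 2), 0), ((4, 3), (5, 1), 2), ((4, 3), (5, 3), 0)]
  G := [[0, 0, 0xa161c84, 0xd2288, 0x192e125a48], [0, 0x811e148, 0, 0xd2184, 0x812e148]]

noncomputable def n149 : Ent := ⟨e149, noF, [], [], []⟩

def c149 : PLift (Cov.check n149.C.D v149 = true) := ⟨by decide +kernel⟩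

def b149 : PLift (entF (fidx ts) 400 149 n149 = true) := ⟨by decide +kernel⟩

theorem g149 : GoodF (fidx ts) 400 149 := GoodF.ofV v149 n149 c149.down b149.down

/-- 46464:131 -/
noncomputable def e150 : SCfg where
  D := {
    a := 5
    L := 7
    kp := 5
    inn := [(0, 1), (1, 0), (1, 2), (1, 3), (2, 1), (2, 3), (3, 1), (3, 2), (3, 4), (4, 3)]
    mix := [(0, 0), (0, 1), (0, 2), (1, 0), (1, 2), (1, 3), (2, 2), (2, 4), (3, 3), (3, 4), (3, 5), (4,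
      4), (4, 5), (4, 6)]
    cl := [2, 4, 0, 0, 1, 3, 5]
    chq := [(1, 3), (3, 1)]
    rng := [(0, 1), (0, 3), (1, 0), (1, 2), (2, 1), (2, 4), (3, 0), (3, 5), (4, 2), (4, 6), (5, 3), (5,
      6), (6, 4), (6, 5)]
    lev := [] }
  links := [[1, 5, 6, 7], [5, 0, 7, 2, 3, 8], [3, 1, 7, 9], [8, 1, 2, 9, 4, 10], [10, 3, 9, 11]]
  P := {
    a := 5
    N := 12
    nb := [226, 429, 650, 1814, 3592, 323, 161, 583, 1066, 2204, 2328, 1552]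
    tri := [(0, 1, 5), (0, 1, 7), (0, 5, 6), (0, 6, 7), (1, 2, 3), (1, 2, 7), (1, 3, 8), (1, 5, 8), (2,
      3, 9), (2, 7, 9), (3, 4, 9), (3, 4, 10), (3, 8, 10), (4, 9, 11), (4, 10, 11)]
    fin := [0, 0, 2, 2, 4, 0, 6, 2, 2, 4, 10, 11]
    chd := [(4, 10)]
    steps := [(0, 1), (0, 5), (2, 3), (2, 7), (2, 8), (4, 9)] }
  rep := [2, 4, 0, 10, 6, 11]

noncomputable def v150 : Cov.CovD where
  P := 3
  N := 3
  pl := [0, 1, 6]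
  lev := [⟨[], [], [], [2, 4], [(2, 0, [])]⟩,
    ⟨[], [(0, 0)], [(0, 0)], [2], [(2, 0, []), (3, 0, [])]⟩,
    ⟨[(0, 1)], [(0, 0), (1, 0), (1, 1)], [(0, 1)], [], [(2, 0, []), (4, 1, [3])]⟩,
    ⟨[(0, 1), (1, 2)], [(1, 0), (1, 1), (1, 3), (2, 0), (2, 1), (2, 3)], [(0, 1), (0, 3),
      (1, 3)], [], [(3, 0, []), (4, 1, [3]), (5, 3, [1])]⟩,
    ⟨[(1, 3), (2, 3)], [(2, 1), (3, 0), (3, 1), (3, 3)], [(1, 3)], [5], [(4, 1, [3]), (5,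
      3, [1])]⟩]
  Ta := [((2, 1), 0, 4), ((2, 4), 0, 1), ((3, 0), 0, 2), ((3, 5), 0, 3)]
  Tb := [((0, 1, 3), 2, 4, 0), ((1, 0, 2), 4, 2, 0), ((2, 1, 4), 0, 4, 1), ((3, 0, 5), 0, 2, 3),
    ((4, 2, 6), 1, 0, 5), ((5, 3, 6), 3, 0, 5), ((6, 4, 5), 5, 1, 3)]
  Tc := []
  Td := [((1, 3), (4, 2), 0), ((1, 3), (4, 6), 5), ((3, 1), (5, 3), 0), ((3, 1), (5, 6), 5)]
  G := [[0, 0xc6a44ca688c, 0, 0x11cd8411cd48c, 0x11cd42914d42a], [0, 0, 0x981548695c12a,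
    0x548984c1, 0x5498c21]]

noncomputable def n150 : Ent := ⟨e150, noF, [], [], [(6, 11, [913639273604050608843734724887950419491140751361, 0])]⟩

def c150 : PLift (Cov.check n150.C.D v150 = true) := ⟨by decide +kernel⟩

def b150 : PLift (entF (fidx ts) 400 150 n150 = true) := ⟨by decide +kernel⟩

theorem g150 : GoodF (fidx ts) 400 150 := GoodF.ofV v150 n150 c150.down b150.down

/-- 45954:132 -/
noncomputable def e151 : SCfg where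
  D := {
    a := 5
    L := 9
    kp := 6
    inn := [(0, 1), (0, 2), (1, 0), (1, 2), (2, 0), (2, 1), (2, 3), (2, 4), (3, 2), (3, 4), (4, 2), (4,
      3)]
    mix := [(0, 0), (0, 1), (1, 1), (1, 2), (1, 3), (2, 0), (2, 3), (2, 4), (2, 5), (2, 6), (3, 4), (3,
      7), (3, 8), (4, 3), (4, 7)]
    cl := [0, 1, 2, 0, 0, 4, 5, 3, 6]
    chq := []
    rng := [(0, 1), (0, 6), (1, 0), (1, 2), (2, 1), (2, 3), (3, 2), (3, 7), (4, 5), (4, 8), (5, 4), (5,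
      6), (6, 0), (6, 5), (7, 3), (7, 8), (8, 4), (8, 7)]
    lev := [] }
  links := [[1, 2, 5, 6], [2, 0, 6, 7, 8], [5, 0, 1, 8, 4, 3, 9, 10, 11], [9, 2, 4, 12, 13], [12, 3, 2,
    8]]
  P := {
    a := 5
    N := 14
    nb := [102, 453, 3899, 12820, 4364, 2117, 163, 322, 4246, 9228, 2564, 1060, 8472, 4616]
    tri := [(0, 1, 2), (0, 1, 6), (0, 2, 5), (0, 5, 6), (1, 2, 8), (1, 6, 7), (1, 7, 8), (2, 3, 4), (2,
      3, 9), (2, 4, 8), (2, 5, 11), (2, 9, 10), (2, 10, 11), (3, 4, 12), (3, 9, 13), (3, 12, 13),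
      (4, 8, 12)]
    fin := [0, 0, 0, 0, 0, 0, 6, 7, 0, 0, 10, 11, 12, 13]
    chd := []
    steps := [(0, 1), (0, 2), (0, 3), (0, 4), (0, 5), (0, 8), (0, 9)] }
  rep := [0, 6, 7, 12, 10, 11, 13]

noncomputable def v151 : Cov.CovD where
  P := 3
  N := 4
  pl := [1, 2, 5, 6, 7, 8]
  lev := [⟨[], [], [], [1], [(0, 0, [])]⟩,
    ⟨[], [(0, 0)], [], [1, 2], [(3, 0, [])]⟩,
    ⟨[(0, 1)], [(0, 0), (1, 0)], [(0, 0)], [4, 5], [(0, 0, []), (3, 0, []), (4, 0, [])]⟩,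
    ⟨[(0, 2), (1, 2)], [(2, 0)], [], [3, 6], [(4, 0, [])]⟩,
    ⟨[(0, 2), (1, 2), (2, 3)], [(1, 0), (2, 0), (3, 0)], [], [3], [(3, 0, [])]⟩]
  Ta := [((0, 1), 0, 1), ((0, 6), 0, 5), ((3, 2), 0, 2), ((3, 7), 0, 3), ((4, 5), 0, 4), ((4, 8),
    0, 6)]
  Tb := [((0, 1, 6), 0, 1, 5), ((1, 0, 2), 1, 0, 2), ((2, 1, 3), 2, 1, 0), ((3, 2, 7), 0, 2, 3),
    ((4, 5, 8), 0, 4, 6), ((5, 4, 6), 4, 0, 5), ((6, 0, 5), 5, 0, 4), ((7, 3, 8), 3, 0, 6),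
    ((8, 4, 7), 6, 0, 3)]
  Tc := []
  Td := []
  G := [[0, 0x61a1c1e84, 0, 0x61a1c1e18, 0xc1a1c1e14], [0, 0, 0x61c1c1e81, 0x2287482d642678c8,
    0x426782ab882de84], [0, 0, 0, 0x111e48112e111ea4c, 0x6881126111e141ee85]]

noncomputable def n151 : Ent := ⟨e151, noF, [], [], []⟩

def c151 : PLift (Cov.check n151.C.D v151 = true) := ⟨by decide +kernel⟩

def b151 : PLift (entF (fidx ts) 400 151 n151 = true) := ⟨by decide +kernel⟩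

theorem g151 : GoodF (fidx ts) 400 151 := GoodF.ofV v151 n151 c151.down b151.down

/-- 46476:133/1 -/
noncomputable def e152 : SCfg where
  D := {
    a := 5
    L := 8
    kp := 5
    inn := [(0, 1), (1, 0), (1, 2), (1, 3), (2, 1), (2, 3), (2, 4), (3, 1), (3, 2), (3, 4), (4, 2), (4,
      3)]
    mix := [(0, 0), (0, 1), (0, 2), (1, 0), (1, 2), (1, 3), (2, 2), (3, 3), (3, 4), (3, 5), (3, 6), (4,
      1), (4, 2), (4, 4), (4, 7)]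
    cl := [1, 2, 0, 0, 0, 3, 4, 5]
    chq := []
    rng := [(0, 1), (0, 3), (1, 0), (1, 2), (1, 7), (2, 1), (3, 0), (3, 6), (4, 5), (4, 7), (5, 4), (5,
      6), (6, 3), (6, 5), (7, 1), (7, 4)]
    lev := [] }
  links := [[1, 5, 6, 7], [5, 0, 7, 2, 3, 8], [3, 1, 7, 4], [8, 1, 2, 4, 9, 10, 11], [9, 3, 2, 7, 6, 12]]
  P := {
    a := 5
    N := 13
    nb := [226, 429, 154, 3862, 4812, 323, 4273, 87, 2090, 5144, 2568, 1288, 592]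
    tri := [(0, 1, 5), (0, 1, 7), (0, 5, 6), (0, 6, 7), (1, 2, 3), (1, 2, 7), (1, 3, 8), (1, 5, 8), (2,
      3, 4), (2, 4, 7), (3, 4, 9), (3, 8, 11), (3, 9, 10), (3, 10, 11), (4, 6, 7), (4, 6, 12), (4,
      9, 12)]
    fin := [0, 0, 0, 3, 3, 0, 6, 3, 3, 3, 10, 11, 12]
    chd := []
    steps := [(0, 1), (0, 2), (0, 5), (3, 4), (3, 7), (3, 9), (3, 8)] }
  rep := [3, 0, 6, 10, 11, 12]

noncomputable def v152 : Cov.CovD where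
  P := 3
  N := 3
  pl := [0, 1, 5, 6, 7]
  lev := [⟨[], [], [], [1, 2], [(2, 0, [])]⟩,
    ⟨[], [(0, 0)], [(0, 0)], [1], [(2, 0, []), (3, 0, [])]⟩,
    ⟨[(0, 1)], [(0, 0), (1, 0)], [], [], [(2, 0, [])]⟩,
    ⟨[(0, 1), (1, 2)], [(1, 0), (2, 0)], [(0, 0)], [3, 4], [(3, 0, []), (4, 0, [])]⟩,
    ⟨[(1, 2), (1, 3), (2, 3)], [(0, 0), (1, 0), (2, 0), (3, 0)], [(0, 0)], [2, 5], [(2, 0,
      []), (4, 0, [])]⟩]
  Ta := [((2, 1), 0, 2), ((3, 0), 0, 1), ((3, 6), 0, 4), ((4, 5), 0, 3), ((4, 7), 0, 5)]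
  Tb := [((0, 1, 3), 1, 2, 0), ((1, 0, 2), 2, 1, 0), ((1, 0, 7), 2, 1, 5), ((1, 2, 7), 2, 0, 5),
    ((3, 0, 6), 0, 1, 4), ((4, 5, 7), 0, 3, 5), ((5, 4, 6), 3, 0, 4), ((6, 3, 5), 4, 0, 3),
    ((7, 1, 4), 5, 2, 0)]
  Tc := []
  Td := []
  G := [[0, 0, 0x6cce284, 0xc42cca2c8, 0xa4aaac48], [0, 0xcc61c81c8, 0, 0xcc61c81c8, 0xaaae148],
    [0, 0, 0, 0xcc62c81c8, 0xaa64a82c8]]

noncomputable def n152 : Ent := ⟨e152, noF, [], [], []⟩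

def c152 : PLift (Cov.check n152.C.D v152 = true) := ⟨by decide +kernel⟩

def b152 : PLift (entF (fidx ts) 400 152 n152 = true) := ⟨by decide +kernel⟩

theorem g152 : GoodF (fidx ts) 400 152 := GoodF.ofV v152 n152 c152.down b152.down

/-- 46476:133 -/
noncomputable def e153 : SCfg where
  D := {
    a := 5
    L := 9
    kp := 6
    inn := [(0, 1), (1, 0), (1, 2), (1, 3), (2, 1), (2, 3), (2, 4), (3, 1), (3, 2), (3, 4), (4, 2), (4,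
      3)]
    mix := [(0, 0), (0, 1), (0, 2), (1, 0), (1, 2), (1, 3), (2, 2), (3, 3), (3, 4), (3, 5), (3, 6), (4,
      2), (4, 4), (4, 7), (4, 8)]
    cl := [1, 2, 0, 0, 0, 3, 4, 5, 6]
    chq := []
    rng := [(0, 1), (0, 3), (1, 0), (1, 2), (2, 1), (2, 7), (3, 0), (3, 6), (4, 5), (4, 8), (5, 4), (5,
      6), (6, 3), (6, 5), (7, 2), (7, 8), (8, 4), (8, 7)]
    lev := [] }
  links := [[1, 5, 6, 7], [5, 0, 7, 2, 3, 8], [3, 1, 7, 4], [8, 1, 2, 4, 9, 10, 11], [9, 3, 2, 7, 12,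
    13]]
  P := {
    a := 5
    N := 14
    nb := [226, 429, 154, 3862, 12940, 323, 161, 4183, 2090, 9240, 2568, 1288, 8336, 4624]
    tri := [(0, 1, 5), (0, 1, 7), (0, 5, 6), (0, 6, 7), (1, 2, 3), (1, 2, 7), (1, 3, 8), (1, 5, 8), (2,
      3, 4), (2, 4, 7), (3, 4, 9), (3, 8, 11), (3, 9, 10), (3, 10, 11), (4, 7, 12), (4, 9, 13),
      (4, 12, 13)]
    fin := [0, 0, 0, 3, 3, 0, 6, 3, 3, 3, 10, 11, 12, 13]
    chd := []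
    steps := [(0, 1), (0, 2), (0, 5), (3, 4), (3, 7), (3, 9), (3, 8)] }
  rep := [3, 0, 6, 10, 11, 12, 13]

noncomputable def v153 : Cov.CovD where
  P := 3
  N := 4
  pl := [0, 1, 5, 6, 7, 8]
  lev := [⟨[], [], [], [1, 2], [(2, 0, [])]⟩,
    ⟨[], [(0, 0)], [(0, 0)], [1], [(2, 0, []), (3, 0, [])]⟩,
    ⟨[(0, 1)], [(0, 0), (1, 0)], [], [], [(2, 0, [])]⟩,
    ⟨[(0, 1), (1, 2)], [(1, 0), (2, 0)], [(0, 0)], [3, 4], [(3, 0, []), (4, 0, [])]⟩,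
    ⟨[(1, 2), (1, 3), (2, 3)], [(0, 0), (1, 0), (2, 0), (3, 0)], [(0, 0)], [5, 6], [(2, 0,
      []), (4, 0, [])]⟩]
  Ta := [((2, 1), 0, 2), ((2, 7), 0, 5), ((3, 0), 0, 1), ((3, 6), 0, 4), ((4, 5), 0, 3), ((4, 8),
    0, 6)]
  Tb := [((0, 1, 3), 1, 2, 0), ((1, 0, 2), 2, 1, 0), ((2, 1, 7), 0, 2, 5), ((3, 0, 6), 0, 1, 4),
    ((4, 5, 8), 0, 3, 6), ((5, 4, 6), 3, 0, 4), ((6, 3, 5), 4, 0, 3), ((7, 2, 8), 5, 0, 6),
    ((8, 4, 7), 6, 0, 5)]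
  Tc := []
  Td := []
  G := [[0, 0, 0x226ecea882c4, 0x22e46eca2c8, 0xe2e46a8486c8], [0, 0xe42a2e4aac8, 0,
    0xee61e81c8, 0xee61e81c8], [0, 0, 0, 0xee61a8485c8, 0x226ecea884c1]]

noncomputable def n153 : Ent := ⟨e153, noF, [], [], [(6, 12, [19926558533506552585326781773177673327977379185602166785, 0])]⟩

def c153 : PLift (Cov.check n153.C.D v153 = true) := ⟨by decide +kernel⟩

def b153 : PLift (entF (fidx ts) 400 153 n153 = true) := ⟨by decide +kernel⟩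

theorem g153 : GoodF (fidx ts) 400 153 := GoodF.ofV v153 n153 c153.down b153.down

/-- 46475:134/1 -/
noncomputable def e154 : SCfg where
  D := {
    a := 5
    L := 8
    kp := 5
    inn := [(0, 1), (1, 0), (1, 2), (1, 3), (2, 1), (2, 3), (3, 1), (3, 2), (3, 4), (4, 3)]
    mix := [(0, 0), (0, 1), (0, 2), (1, 0), (1, 2), (1, 3), (2, 2), (2, 4), (3, 3), (3, 4), (3, 5), (3,
      6), (4, 1), (4, 4), (4, 5), (4, 7)]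
    cl := [1, 2, 0, 0, 3, 3, 4, 5]
    chq := []
    rng := [(0, 1), (0, 3), (1, 0), (1, 2), (1, 4), (1, 7), (2, 1), (2, 4), (3, 0), (3, 6), (4, 1), (4,
      2), (5, 6), (5, 7), (6, 3), (6, 5), (7, 1), (7, 5)]
    lev := [] }
  links := [[1, 5, 6, 7], [5, 0, 7, 2, 3, 8], [3, 1, 7, 9], [8, 1, 2, 9, 4, 10, 11], [10, 3, 9, 6, 12]]
  P := {
    a := 5
    N := 13
    nb := [226, 429, 650, 3862, 5704, 323, 4785, 583, 2090, 220, 6168, 1288, 1104]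
    tri := [(0, 1, 5), (0, 1, 7), (0, 5, 6), (0, 6, 7), (1, 2, 3), (1, 2, 7), (1, 3, 8), (1, 5, 8), (2,
      3, 9), (2, 7, 9), (3, 4, 9), (3, 4, 10), (3, 8, 11), (3, 10, 11), (4, 6, 9), (4, 6, 12), (4,
      10, 12)]
    fin := [0, 1, 1, 3, 4, 0, 4, 1, 1, 3, 3, 11, 12]
    chd := []
    steps := [(0, 5), (1, 2), (1, 7), (1, 8), (3, 9), (3, 10), (4, 6)] }
  rep := [1, 0, 4, 3, 11, 12]

noncomputable def v154 : Cov.CovD where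
  P := 3
  N := 3
  pl := [0, 1, 6, 7]
  lev := [⟨[], [], [], [1, 2], [(2, 0, [])]⟩,
    ⟨[], [(0, 0)], [(0, 0)], [1], [(2, 0, []), (3, 0, [])]⟩,
    ⟨[(0, 1)], [(0, 0), (1, 0), (1, 3)], [(0, 3)], [], [(2, 0, []), (4, 3, [])]⟩,
    ⟨[(0, 1), (1, 2)], [(1, 0), (1, 3), (2, 0), (2, 3)], [(0, 3), (3, 3)], [4], [(3, 0,
      []), (4, 3, []), (5, 3, [])]⟩,
    ⟨[(1, 3), (2, 3)], [(2, 3), (3, 0), (3, 3)], [(3, 3)], [2, 5], [(4, 3, []), (5, 3,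
      [])]⟩]
  Ta := [((2, 1), 0, 2), ((2, 4), 0, 3), ((3, 0), 0, 1), ((3, 6), 0, 4), ((4, 1), 3, 2), ((4, 2),
    3, 0), ((5, 6), 3, 4), ((5, 7), 3, 5)]
  Tb := [((0, 1, 3), 1, 2, 0), ((1, 0, 2), 2, 1, 0), ((1, 0, 4), 2, 1, 3), ((1, 0, 7), 2, 1, 5),
    ((1, 2, 4), 2, 0, 3), ((1, 2, 7), 2, 0, 5), ((1, 4, 7), 2, 3, 5), ((2, 1, 4), 0, 2, 3),
    ((3, 0, 6), 0, 1, 4), ((4, 1, 2), 3, 2, 0), ((5, 6, 7), 3, 4, 5), ((6, 3, 5), 4, 0, 3),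
    ((7, 1, 5), 5, 2, 3)]
  Tc := []
  Td := []
  G := [[0, 0, 0xc161a44, 0x1dd8f284, 0xbb641a98c8], [0, 0, 0xe1484, 0x111cf284, 0x111af248],
    [0, 0x95de124, 0, 0x5419da1c4, 0x9b3e148], [0, 0x5d62982a8, 0, 0x5d62981c8, 0xb4493a1c8]]

noncomputable def n154 : Ent := ⟨e154, noF, [], [], []⟩

def c154 : PLift (Cov.check n154.C.D v154 = true) := ⟨by decide +kernel⟩

def b154 : PLift (entF (fidx ts) 400 154 n154 = true) := ⟨by decide +kernel⟩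

theorem g154 : GoodF (fidx ts) 400 154 := GoodF.ofV v154 n154 c154.down b154.down

/-- 46475:134/2 -/
noncomputable def e155 : SCfg where
  D := {
    a := 5
    L := 8
    kp := 5
    inn := [(0, 1), (1, 0), (1, 2), (1, 3), (2, 1), (2, 3), (3, 1), (3, 2), (3, 4), (4, 3)]
    mix := [(0, 0), (0, 1), (0, 2), (1, 0), (1, 2), (1, 3), (2, 2), (2, 4), (3, 3), (3, 4), (3, 5), (3,
      6), (4, 1), (4, 4), (4, 5), (4, 7)]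
    cl := [1, 2, 0, 0, 3, 3, 4, 5]
    chq := []
    rng := [(0, 1), (0, 3), (1, 0), (1, 2), (1, 5), (1, 7), (2, 1), (2, 4), (3, 0), (3, 6), (4, 2), (4,
      7), (5, 1), (5, 6), (6, 3), (6, 5), (7, 1), (7, 4)]
    lev := [] }
  links := [[1, 5, 6, 7], [5, 0, 7, 2, 3, 8], [3, 1, 7, 9], [8, 1, 2, 9, 4, 10, 11], [10, 3, 9, 12, 6]]
  P := {
    a := 5
    N := 13
    nb := [226, 429, 650, 3862, 5704, 323, 5297, 583, 2090, 4252, 2136, 1288, 592]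
    tri := [(0, 1, 5), (0, 1, 7), (0, 5, 6), (0, 6, 7), (1, 2, 3), (1, 2, 7), (1, 3, 8), (1, 5, 8), (2,
      3, 9), (2, 7, 9), (3, 4, 9), (3, 4, 10), (3, 8, 11), (3, 10, 11), (4, 6, 10), (4, 6, 12),
      (4, 9, 12)]
    fin := [0, 0, 2, 2, 4, 0, 6, 2, 2, 4, 4, 11, 12]
    chd := []
    steps := [(0, 1), (0, 5), (2, 3), (2, 7), (2, 8), (4, 9), (4, 10)] }
  rep := [2, 0, 6, 4, 11, 12]

noncomputable def v155 : Cov.CovD where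
  P := 3
  N := 3
  pl := [0, 1, 6, 7]
  lev := [⟨[], [], [], [1, 2], [(2, 0, [])]⟩,
    ⟨[], [(0, 0)], [(0, 0)], [1], [(2, 0, []), (3, 0, [])]⟩,
    ⟨[(0, 1)], [(0, 0), (1, 0), (1, 3)], [(0, 3)], [], [(2, 0, []), (4, 3, [])]⟩,
    ⟨[(0, 1), (1, 2)], [(1, 0), (1, 3), (2, 0), (2, 3)], [(0, 3), (3, 3)], [4], [(3, 0,
      []), (4, 3, []), (5, 3, [])]⟩,
    ⟨[(1, 3), (2, 3)], [(2, 3), (3, 0), (3, 3)], [(3, 3)], [2, 5], [(4, 3, []), (5, 3,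
      [])]⟩]
  Ta := [((2, 1), 0, 2), ((2, 4), 0, 3), ((3, 0), 0, 1), ((3, 6), 0, 4), ((4, 2), 3, 0), ((4, 7),
    3, 5), ((5, 1), 3, 2), ((5, 6), 3, 4)]
  Tb := [((0, 1, 3), 1, 2, 0), ((1, 0, 2), 2, 1, 0), ((1, 0, 5), 2, 1, 3), ((1, 0, 7), 2, 1, 5),
    ((1, 2, 5), 2, 0, 3), ((1, 2, 7), 2, 0, 5), ((1, 5, 7), 2, 3, 5), ((2, 1, 4), 0, 2, 3),
    ((3, 0, 6), 0, 1, 4), ((4, 2, 7), 3, 0, 5), ((5, 1, 6), 3, 2, 4), ((6, 3, 5), 4, 0, 3),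
    ((7, 1, 4), 5, 2, 3)]
  Tc := []
  Td := []
  G := [[0, 0, 0xc161a44, 0x1dd8f284, 0x144bbab4c8], [0, 0, 0xe1848, 0x111cf484, 0x111af848],
    [0, 0x95de124, 0, 0x5d62982c8, 0xb4193a4c8], [0, 0x95de124, 0, 0x44291de2c1, 0x329bca41]]

noncomputable def n155 : Ent := ⟨e155, noF, [], [], []⟩

def c155 : PLift (Cov.check n155.C.D v155 = true) := ⟨by decide +kernel⟩

def b155 : PLift (entF (fidx ts) 400 155 n155 = true) := ⟨by decide +kernel⟩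

theorem g155 : GoodF (fidx ts) 400 155 := GoodF.ofV v155 n155 c155.down b155.down

/-- 46475:134 -/
noncomputable def e156 : SCfg where
  D := {
    a := 5
    L := 9
    kp := 6
    inn := [(0, 1), (1, 0), (1, 2), (1, 3), (2, 1), (2, 3), (3, 1), (3, 2), (3, 4), (4, 3)]
    mix := [(0, 0), (0, 1), (0, 2), (1, 0), (1, 2), (1, 3), (2, 2), (2, 4), (3, 3), (3, 4), (3, 5), (3,
      6), (4, 4), (4, 5), (4, 7), (4, 8)]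
    cl := [1, 2, 0, 0, 3, 3, 4, 5, 6]
    chq := []
    rng := [(0, 1), (0, 3), (1, 0), (1, 2), (2, 1), (2, 4), (3, 0), (3, 6), (4, 2), (4, 7), (5, 6), (5,
      8), (6, 3), (6, 5), (7, 4), (7, 8), (8, 5), (8, 7)]
    lev := [] }
  links := [[1, 5, 6, 7], [5, 0, 7, 2, 3, 8], [3, 1, 7, 9], [8, 1, 2, 9, 4, 10, 11], [10, 3, 9, 12, 13]]
  P := {
    a := 5
    N := 14
    nb := [226, 429, 650, 3862, 13832, 323, 161, 583, 2090, 4252, 10264, 1288, 8720, 5136]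
    tri := [(0, 1, 5), (0, 1, 7), (0, 5, 6), (0, 6, 7), (1, 2, 3), (1, 2, 7), (1, 3, 8), (1, 5, 8), (2,
      3, 9), (2, 7, 9), (3, 4, 9), (3, 4, 10), (3, 8, 11), (3, 10, 11), (4, 9, 12), (4, 10, 13),
      (4, 12, 13)]
    fin := [0, 0, 2, 2, 4, 0, 6, 2, 2, 4, 4, 11, 12, 13]
    chd := []
    steps := [(0, 1), (0, 5), (2, 3), (2, 7), (2, 8), (4, 9), (4, 10)] }
  rep := [2, 0, 6, 4, 11, 12, 13]

noncomputable def v156 : Cov.CovD where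
  P := 3
  N := 4
  pl := [0, 1, 6, 7, 8]
  lev := [⟨[], [], [], [1, 2], [(2, 0, [])]⟩,
    ⟨[], [(0, 0)], [(0, 0)], [1], [(2, 0, []), (3, 0, [])]⟩,
    ⟨[(0, 1)], [(0, 0), (1, 0), (1, 3)], [(0, 3)], [], [(2, 0, []), (4, 3, [])]⟩,
    ⟨[(0, 1), (1, 2)], [(1, 0), (1, 3), (2, 0), (2, 3)], [(0, 3), (3, 3)], [4], [(3, 0,
      []), (4, 3, []), (5, 3, [])]⟩,
    ⟨[(1, 3), (2, 3)], [(2, 3), (3, 0), (3, 3)], [(3, 3)], [5, 6], [(4, 3, []), (5, 3,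
      [])]⟩]
  Ta := [((2, 1), 0, 2), ((2, 4), 0, 3), ((3, 0), 0, 1), ((3, 6), 0, 4), ((4, 2), 3, 0), ((4, 7),
    3, 5), ((5, 6), 3, 4), ((5, 8), 3, 6)]
  Tb := [((0, 1, 3), 1, 2, 0), ((1, 0, 2), 2, 1, 0), ((2, 1, 4), 0, 2, 3), ((3, 0, 6), 0, 1, 4),
    ((4, 2, 7), 3, 0, 5), ((5, 6, 8), 3, 4, 6), ((6, 3, 5), 4, 0, 3), ((7, 4, 8), 5, 3, 6),
    ((8, 5, 7), 6, 3, 5)]
  Tc := []
  Td := []
  G := [[0, 0, 0x1441c9163ac4, 0x592cf3dab684, 0x5bacf1567a48], [0, 0, 0x111ef284, 0x111ef248,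
    0x111ef848], [0, 0x321ffce1a4, 0, 0x641f9fe1c8, 0xf41ffa1c8], [0, 0x5ffe1a84a4, 0,
    0x441fbfe1c8, 0xc42f3fe1c8]]

noncomputable def n156 : Ent := ⟨e156, noF, [], [], [(6, 12, [19926558533506552585326781773177673327977379185602174977, 0]), (6, 13, [18394062992640663726968434746027364144358640063418576897, 0])]⟩

def c156 : PLift (Cov.check n156.C.D v156 = true) := ⟨by decide +kernel⟩

def b156 : PLift (entF (fidx ts) 400 156 n156 = true) := ⟨by decide +kernel⟩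

theorem g156 : GoodF (fidx ts) 400 156 := GoodF.ofV v156 n156 c156.down b156.down

/-- 46475:135/1 -/
noncomputable def e157 : SCfg where
  D := {
    a := 5
    L := 8
    kp := 5
    inn := [(0, 1), (1, 0), (1, 2), (1, 3), (2, 1), (2, 3), (3, 1), (3, 2), (3, 4), (4, 3)]
    mix := [(0, 0), (0, 1), (0, 2), (1, 0), (1, 2), (1, 3), (2, 2), (2, 4), (3, 3), (3, 4), (3, 5), (3,
      6), (4, 1), (4, 5), (4, 6), (4, 7)]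
    cl := [2, 3, 0, 0, 4, 1, 1, 5]
    chq := []
    rng := [(0, 1), (0, 3), (1, 0), (1, 2), (1, 5), (1, 7), (2, 1), (2, 4), (3, 0), (3, 6), (4, 2), (4,
      5), (5, 1), (5, 4), (6, 3), (6, 7), (7, 1), (7, 6)]
    lev := [] }
  links := [[1, 5, 6, 7], [5, 0, 7, 2, 3, 8], [3, 1, 7, 9], [8, 1, 2, 9, 10, 4, 11], [11, 3, 10, 6, 12]]
  P := {
    a := 5
    N := 13
    nb := [226, 429, 650, 3862, 7240, 323, 5297, 583, 2090, 1164, 600, 4376, 2128]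
    tri := [(0, 1, 5), (0, 1, 7), (0, 5, 6), (0, 6, 7), (1, 2, 3), (1, 2, 7), (1, 3, 8), (1, 5, 8), (2,
      3, 9), (2, 7, 9), (3, 4, 10), (3, 4, 11), (3, 8, 11), (3, 9, 10), (4, 6, 10), (4, 6, 12),
      (4, 11, 12)]
    fin := [0, 0, 2, 2, 4, 0, 6, 2, 2, 9, 4, 4, 12]
    chd := []
    steps := [(0, 1), (0, 5), (2, 3), (2, 7), (2, 8), (4, 10), (4, 11)] }
  rep := [2, 4, 0, 6, 9, 12]

noncomputable def v157 : Cov.CovD where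
  P := 3
  N := 3
  pl := [0, 1, 4, 7]
  lev := [⟨[], [], [], [2, 3], [(2, 0, [])]⟩,
    ⟨[], [(0, 0)], [(0, 0)], [2], [(2, 0, []), (3, 0, [])]⟩,
    ⟨[(0, 1)], [(0, 0), (1, 0)], [], [4], [(2, 0, [])]⟩,
    ⟨[(0, 1), (1, 2)], [(1, 0), (1, 1), (2, 0), (2, 1)], [(0, 1), (1, 1)], [4], [(3, 0,
      []), (5, 1, []), (6, 1, [])]⟩,
    ⟨[(1, 3), (2, 3)], [(3, 0), (3, 1)], [(1, 1)], [3, 5], [(5, 1, []), (6, 1, [])]⟩]
  Ta := [((2, 1), 0, 3), ((2, 4), 0, 4), ((3, 0), 0, 2), ((3, 6), 0, 1), ((5, 1), 1, 3), ((5, 4),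
    1, 4), ((6, 3), 1, 0), ((6, 7), 1, 5)]
  Tb := [((0, 1, 3), 2, 3, 0), ((1, 0, 2), 3, 2, 0), ((1, 0, 5), 3, 2, 1), ((1, 0, 7), 3, 2, 5),
    ((1, 2, 5), 3, 0, 1), ((1, 2, 7), 3, 0, 5), ((1, 5, 7), 3, 1, 5), ((2, 1, 4), 0, 3, 4),
    ((3, 0, 6), 0, 2, 1), ((4, 2, 5), 4, 0, 1), ((5, 1, 4), 1, 3, 4), ((6, 3, 7), 1, 0, 5),
    ((7, 1, 6), 5, 3, 1)]
  Tc := []
  Td := []
  G := [[0, 0, 0, 0x94816188c41c14968c, 0xcc52858945c2a], [0, 0, 0, 0x918d2455c28c, 0x59cd282],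
    [0, 0, 0x99c1455c18c, 0x44258c89cac1, 0x489494ce21], [0, 0x68c2c6a41, 0xddc122,
    0xc42d1c2c1, 0xddc221]]

noncomputable def n157 : Ent := ⟨e157, noF, [], [], []⟩

def c157 : PLift (Cov.check n157.C.D v157 = true) := ⟨by decide +kernel⟩

def b157 : PLift (entF (fidx ts) 400 157 n157 = true) := ⟨by decide +kernel⟩

theorem g157 : GoodF (fidx ts) 400 157 := GoodF.ofV v157 n157 c157.down b157.down

/-- 46475:135/2 -/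
noncomputable def e158 : SCfg where
  D := {
    a := 5
    L := 8
    kp := 5
    inn := [(0, 1), (1, 0), (1, 2), (1, 3), (2, 1), (2, 3), (3, 1), (3, 2), (3, 4), (4, 3)]
    mix := [(0, 0), (0, 1), (0, 2), (1, 0), (1, 2), (1, 3), (2, 2), (2, 4), (3, 3), (3, 4), (3, 5), (3,
      6), (4, 1), (4, 5), (4, 6), (4, 7)]
    cl := [1, 2, 0, 0, 4, 3, 3, 5]
    chq := []
    rng := [(0, 1), (0, 3), (1, 0), (1, 2), (1, 6), (1, 7), (2, 1), (2, 4), (3, 0), (3, 6), (4, 2), (4,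
      5), (5, 4), (5, 7), (6, 1), (6, 3), (7, 1), (7, 5)]
    lev := [] }
  links := [[1, 5, 6, 7], [5, 0, 7, 2, 3, 8], [3, 1, 7, 9], [8, 1, 2, 9, 10, 4, 11], [11, 3, 10, 12, 6]]
  P := {
    a := 5
    N := 13
    nb := [226, 429, 650, 3862, 7240, 323, 6321, 583, 2090, 1164, 4632, 344, 1104]
    tri := [(0, 1, 5), (0, 1, 7), (0, 5, 6), (0, 6, 7), (1, 2, 3), (1, 2, 7), (1, 3, 8), (1, 5, 8), (2,
      3, 9), (2, 7, 9), (3, 4, 10), (3, 4, 11), (3, 8, 11), (3, 9, 10), (4, 6, 11), (4, 6, 12),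
      (4, 10, 12)]
    fin := [0, 1, 1, 3, 4, 0, 4, 1, 1, 9, 3, 3, 12]
    chd := []
    steps := [(0, 5), (1, 2), (1, 7), (1, 8), (3, 10), (3, 11), (4, 6)] }
  rep := [1, 0, 4, 3, 9, 12]

noncomputable def v158 : Cov.CovD where
  P := 3
  N := 3
  pl := [0, 1, 4, 7]
  lev := [⟨[], [], [], [1, 2], [(2, 0, [])]⟩,
    ⟨[], [(0, 0)], [(0, 0)], [1], [(2, 0, []), (3, 0, [])]⟩,
    ⟨[(0, 1)], [(0, 0), (1, 0)], [], [4], [(2, 0, [])]⟩,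
    ⟨[(0, 1), (1, 2)], [(1, 0), (1, 3), (2, 0), (2, 3)], [(0, 3), (3, 3)], [4], [(3, 0,
      []), (5, 3, []), (6, 3, [])]⟩,
    ⟨[(1, 3), (2, 3)], [(3, 0), (3, 3)], [(3, 3)], [2, 5], [(5, 3, []), (6, 3, [])]⟩]
  Ta := [((2, 1), 0, 2), ((2, 4), 0, 4), ((3, 0), 0, 1), ((3, 6), 0, 3), ((5, 4), 3, 4), ((5, 7),
    3, 5), ((6, 1), 3, 2), ((6, 3), 3, 0)]
  Tb := [((0, 1, 3), 1, 2, 0), ((1, 0, 2), 2, 1, 0), ((1, 0, 6), 2, 1, 3), ((1, 0, 7), 2, 1, 5),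
    ((1, 2, 6), 2, 0, 3), ((1, 2, 7), 2, 0, 5), ((1, 6, 7), 2, 3, 5), ((2, 1, 4), 0, 2, 4),
    ((3, 0, 6), 0, 1, 3), ((4, 2, 5), 4, 0, 3), ((5, 4, 7), 3, 4, 5), ((6, 1, 3), 3, 2, 0),
    ((7, 1, 5), 5, 2, 3)]
  Tc := []
  Td := []
  G := [[0, 0, 0xe1e1a44, 0xc1d2611c8c8, 0xb4411ab8c8], [0, 0, 0xe1e1c48, 0x11cdd2a48,
    0x3bc11a7a48], [0, 0x95de124, 0, 0x5489da1c4, 0x9b3e148], [0, 0x95de128, 0, 0x5d61984c8,
    0x9b3e148]]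

noncomputable def n158 : Ent := ⟨e158, noF, [], [], []⟩

def c158 : PLift (Cov.check n158.C.D v158 = true) := ⟨by decide +kernel⟩

def b158 : PLift (entF (fidx ts) 400 158 n158 = true) := ⟨by decide +kernel⟩

theorem g158 : GoodF (fidx ts) 400 158 := GoodF.ofV v158 n158 c158.down b158.down

/-- 46475:135 -/
noncomputable def e159 : SCfg where
  D := {
    a := 5
    L := 9
    kp := 6
    inn := [(0, 1), (1, 0), (1, 2), (1, 3), (2, 1), (2, 3), (3, 1), (3, 2), (3, 4), (4, 3)]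
    mix := [(0, 0), (0, 1), (0, 2), (1, 0), (1, 2), (1, 3), (2, 2), (2, 4), (3, 3), (3, 4), (3, 5), (3,
      6), (4, 5), (4, 6), (4, 7), (4, 8)]
    cl := [1, 4, 0, 0, 2, 3, 3, 5, 6]
    chq := []
    rng := [(0, 1), (0, 3), (1, 0), (1, 2), (2, 1), (2, 4), (3, 0), (3, 6), (4, 2), (4, 5), (5, 4), (5,
      7), (6, 3), (6, 8), (7, 5), (7, 8), (8, 6), (8, 7)]
    lev := [] }
  links := [[1, 5, 6, 7], [5, 0, 7, 2, 3, 8], [3, 1, 7, 9], [8, 1, 2, 9, 10, 4, 11], [11, 3, 10, 12, 13]]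
  P := {
    a := 5
    N := 14
    nb := [226, 429, 650, 3862, 15368, 323, 161, 583, 2090, 1164, 4632, 8472, 9232, 6160]
    tri := [(0, 1, 5), (0, 1, 7), (0, 5, 6), (0, 6, 7), (1, 2, 3), (1, 2, 7), (1, 3, 8), (1, 5, 8), (2,
      3, 9), (2, 7, 9), (3, 4, 10), (3, 4, 11), (3, 8, 11), (3, 9, 10), (4, 10, 12), (4, 11, 13),
      (4, 12, 13)]
    fin := [0, 0, 2, 2, 4, 0, 6, 2, 2, 9, 4, 4, 12, 13]
    chd := []
    steps := [(0, 1), (0, 5), (2, 3), (2, 7), (2, 8), (4, 10), (4, 11)] }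
  rep := [2, 0, 9, 4, 6, 12, 13]

noncomputable def v159 : Cov.CovD where
  P := 3
  N := 4
  pl := [0, 1, 4, 7, 8]
  lev := [⟨[], [], [], [1, 4], [(2, 0, [])]⟩,
    ⟨[], [(0, 0)], [(0, 0)], [1], [(2, 0, []), (3, 0, [])]⟩,
    ⟨[(0, 1)], [(0, 0), (1, 0)], [], [2], [(2, 0, [])]⟩,
    ⟨[(0, 1), (1, 2)], [(1, 0), (1, 3), (2, 0), (2, 3)], [(0, 3), (3, 3)], [2], [(3, 0,
      []), (5, 3, []), (6, 3, [])]⟩,
    ⟨[(1, 3), (2, 3)], [(3, 0), (3, 3)], [(3, 3)], [5, 6], [(5, 3, []), (6, 3, [])]⟩]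
  Ta := [((2, 1), 0, 4), ((2, 4), 0, 2), ((3, 0), 0, 1), ((3, 6), 0, 3), ((5, 4), 3, 2), ((5, 7),
    3, 5), ((6, 3), 3, 0), ((6, 8), 3, 6)]
  Tb := [((0, 1, 3), 1, 4, 0), ((1, 0, 2), 4, 1, 0), ((2, 1, 4), 0, 4, 2), ((3, 0, 6), 0, 1, 3),
    ((4, 2, 5), 2, 0, 3), ((5, 4, 7), 3, 2, 5), ((6, 3, 8), 3, 0, 6), ((7, 5, 8), 5, 3, 6),
    ((8, 6, 7), 6, 3, 5)]
  Tc := []
  Td := []
  G := [[0, 0, 0x49fe84db688c, 0x11ed8411ed48c, 0x11eb2411eb24c], [0, 0, 0xd7a4432d86a8c,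
    0x1e54184c11ed48c, 0x11eb2411eb84c], [0, 0xb7c12b7c12a, 0, 0x748b84c1, 0x57a88a41], [0,
    0xb7c12b7c126, 0, 0x7438c884c1, 0x22d5aa41]]

noncomputable def n159 : Ent := ⟨e159, noF, [], [], [(6, 12, [19926558533506552585326781773177673327977379185602187265, 0]), (6, 13, [18394062992640663726968434746027364144358640063418589185, 0])]⟩

def c159 : PLift (Cov.check n159.C.D v159 = true) := ⟨by decide +kernel⟩

def b159 : PLift (entF (fidx ts) 400 159 n159 = true) := ⟨by decide +kernel⟩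

theorem g159 : GoodF (fidx ts) 400 159 := GoodF.ofV v159 n159 c159.down b159.down

/-- 46464:136/2 -/
noncomputable def e160 : SCfg where
  D := {
    a := 5
    L := 6
    kp := 4
    inn := [(0, 1), (0, 3), (1, 0), (1, 2), (2, 1), (3, 0), (3, 4), (4, 3)]
    mix := [(0, 0), (0, 1), (1, 0), (1, 1), (1, 2), (1, 3), (2, 1), (2, 2), (2, 4), (3, 0), (3, 1), (3,
      4), (3, 5), (4, 0), (4, 3), (4, 5)]
    cl := [0, 0, 1, 2, 4, 3]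
    chq := [(0, 1), (0, 3), (1, 0), (3, 0)]
    rng := [(0, 3), (1, 4), (2, 3), (2, 4), (3, 0), (3, 2), (3, 5), (4, 1), (4, 2), (4, 5), (5, 3), (5,
      4)]
    lev := [] }
  links := [[1, 5, 3, 6], [5, 0, 6, 2, 7, 8], [7, 1, 6, 9], [6, 0, 5, 4, 10, 9], [10, 3, 5, 8]]
  P := {
    a := 5
    N := 11
    nb := [106, 485, 706, 1649, 1320, 283, 527, 774, 1202, 1228, 792]
    tri := [(0, 1, 5), (0, 1, 6), (0, 3, 5), (0, 3, 6), (1, 2, 6), (1, 2, 7), (1, 5, 8), (1, 7, 8), (2,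
      6, 9), (2, 7, 9), (3, 4, 5), (3, 4, 10), (3, 6, 9), (3, 9, 10), (4, 5, 8), (4, 8, 10)]
    fin := [0, 0, 0, 0, 0, 0, 0, 7, 8, 9, 10]
    chd := [(0, 7), (0, 10)]
    steps := [(0, 1), (0, 2), (0, 5), (0, 4), (0, 6), (0, 3)] }
  rep := [0, 7, 8, 10, 9]

noncomputable def v160 : Cov.CovD where
  P := 3
  N := 2
  pl := [3, 4]
  lev := [⟨[], [], [(0, 0)], [], [(0, 0, [1, 3]), (1, 0, [1, 3])]⟩,
    ⟨[], [(0, 0), (0, 1)], [(0, 0), (0, 1)], [2], [(0, 0, [1, 3]), (1, 0, [1, 3]), (2, 1,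
      [0])]⟩,
    ⟨[(0, 1)], [(0, 0), (1, 0), (1, 1)], [(0, 1)], [4], [(1, 0, [1, 3]), (2, 1, [0])]⟩,
    ⟨[(0, 1)], [(0, 0), (0, 3), (1, 0), (2, 0)], [(0, 0), (0, 3)], [4], [(0, 0, [1, 3]),
      (1, 0, [1, 3]), (5, 3, [0])]⟩,
    ⟨[(0, 3)], [(0, 0), (1, 0), (3, 0), (3, 3)], [(0, 3)], [2], [(0, 0, [1, 3]), (5, 3,
      [0])]⟩]
  Ta := [((0, 3), 0, 2), ((1, 4), 0, 4)]
  Tb := [((2, 3, 4), 1, 2, 4), ((3, 0, 2), 2, 0, 1), ((3, 0, 5), 2, 0, 3), ((3, 2, 5), 2, 1, 3),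
    ((4, 1, 2), 4, 0, 1), ((4, 1, 5), 4, 0, 3), ((4, 2, 5), 4, 1, 3), ((5, 3, 4), 3, 2, 4)]
  Tc := [(0, 1, 3)]
  Td := [((0, 1), (0, 3), 2), ((0, 1), (1, 4), 4), ((0, 3), (0, 3), 2), ((0, 3), (1, 4), 4), ((1,
    0), (2, 3), 2), ((1, 0), (2, 4), 4), ((3, 0), (5, 3), 2), ((3, 0), (5, 4), 4)]
  G := [[0, 0x884412e82, 0x642e148, 0xc2142, 0x8a2e184], [0, 0x181412e48, 0, 0x9292c48,
    0x82a126c84]]

noncomputable def n160 : Ent := ⟨e160, noF, [], [], []⟩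

def c160 : PLift (Cov.check n160.C.D v160 = true) := ⟨by decide +kernel⟩

def b160 : PLift (entF (fidx ts) 400 160 n160 = true) := ⟨by decide +kernel⟩

theorem g160 : GoodF (fidx ts) 400 160 := GoodF.ofV v160 n160 c160.down b160.down

/-- 46464:136/1 -/
noncomputable def e161 : SCfg where
  D := {
    a := 5
    L := 7
    kp := 5
    inn := [(0, 1), (0, 3), (1, 0), (1, 2), (2, 1), (3, 0), (3, 4), (4, 3)]
    mix := [(0, 0), (0, 1), (1, 0), (1, 1), (1, 2), (1, 3), (2, 1), (2, 2), (2, 4), (3, 0), (3, 1), (3,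
      5), (3, 6), (4, 0), (4, 3), (4, 5)]
    cl := [0, 0, 1, 2, 4, 3, 5]
    chq := [(0, 1), (0, 3), (1, 0), (3, 0)]
    rng := [(0, 3), (1, 4), (1, 6), (2, 3), (2, 4), (3, 0), (3, 2), (3, 5), (4, 1), (4, 2), (5, 3), (5,
      6), (6, 1), (6, 5)]
    lev := [] }
  links := [[1, 5, 3, 6], [5, 0, 6, 2, 7, 8], [7, 1, 6, 9], [6, 0, 5, 4, 10, 11], [10, 3, 5, 8]]
  P := {
    a := 5
    N := 12
    nb := [106, 485, 706, 3185, 1320, 283, 2575, 774, 1202, 196, 2328, 1096]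
    tri := [(0, 1, 5), (0, 1, 6), (0, 3, 5), (0, 3, 6), (1, 2, 6), (1, 2, 7), (1, 5, 8), (1, 7, 8), (2,
      6, 9), (2, 7, 9), (3, 4, 5), (3, 4, 10), (3, 6, 11), (3, 10, 11), (4, 5, 8), (4, 8, 10)]
    fin := [0, 0, 0, 0, 0, 0, 0, 7, 8, 9, 10, 11]
    chd := [(0, 7), (0, 10)]
    steps := [(0, 1), (0, 2), (0, 3), (0, 5), (0, 4), (0, 6)] }
  rep := [0, 7, 8, 10, 9, 11]

noncomputable def v161 : Cov.CovD where
  P := 3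
  N := 3
  pl := [3, 4, 6]
  lev := [⟨[], [], [(0, 0)], [], [(0, 0, [1, 3]), (1, 0, [1, 3])]⟩,
    ⟨[], [(0, 0), (0, 1)], [(0, 0), (0, 1)], [2], [(0, 0, [1, 3]), (1, 0, [1, 3]), (2, 1,
      [0])]⟩,
    ⟨[(0, 1)], [(0, 0), (1, 0), (1, 1)], [(0, 1)], [4], [(1, 0, [1, 3]), (2, 1, [0])]⟩,
    ⟨[(0, 1)], [(0, 0), (0, 3), (1, 0), (2, 0)], [(0, 0), (0, 3)], [5], [(0, 0, [1, 3]),
      (1, 0, [1, 3]), (5, 3, [0])]⟩,
    ⟨[(0, 3)], [(0, 0), (1, 0), (3, 0), (3, 3)], [(0, 3)], [2], [(0, 0, [1, 3]), (5, 3,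
      [0])]⟩]
  Ta := [((0, 3), 0, 2), ((1, 4), 0, 4), ((1, 6), 0, 5)]
  Tb := [((1, 4, 6), 0, 4, 5), ((2, 3, 4), 1, 2, 4), ((3, 0, 2), 2, 0, 1), ((3, 0, 5), 2, 0, 3),
    ((3, 2, 5), 2, 1, 3), ((4, 1, 2), 4, 0, 1), ((5, 3, 6), 3, 2, 5), ((6, 1, 5), 5, 0, 3)]
  Tc := [(0, 1, 3)]
  Td := [((0, 1), (0, 3), 2), ((0, 1), (1, 4), 4), ((0, 1), (1, 6), 5), ((0, 3), (0, 3), 2), ((0,
    3), (1, 4), 4), ((0, 3), (1, 6), 5), ((1, 0), (2, 3), 2), ((1, 0), (2, 4), 4), ((3, 0),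
    (5, 3), 2), ((3, 0), (5, 6), 5)]
  G := [[0, 0x811e811ea84, 0x8a2e184, 0x84ce142, 0x8a2e184], [0, 0x141e111ec48, 0,
    0x149e149ec48, 0x812e812ec84]]

noncomputable def n161 : Ent := ⟨e161, noF, [], [], [(11, 9, [913683875094447670090017796324495716214152757249, 0])]⟩

def c161 : PLift (Cov.check n161.C.D v161 = true) := ⟨by decide +kernel⟩

def b161 : PLift (entF (fidx ts) 400 161 n161 = true) := ⟨by decide +kernel⟩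

theorem g161 : GoodF (fidx ts) 400 161 := GoodF.ofV v161 n161 c161.down b161.down

/-- 46464:136/3 -/
noncomputable def e162 : SCfg where
  D := {
    a := 5
    L := 7
    kp := 5
    inn := [(0, 1), (0, 3), (1, 0), (1, 2), (2, 1), (3, 0), (3, 4), (4, 3)]
    mix := [(0, 0), (0, 1), (1, 0), (1, 1), (1, 2), (1, 3), (2, 1), (2, 2), (2, 4), (3, 0), (3, 1), (3,
      4), (3, 5), (4, 0), (4, 5), (4, 6)]
    cl := [0, 0, 3, 2, 1, 4, 5]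
    chq := [(0, 3), (0, 4), (3, 0), (4, 0)]
    rng := [(0, 3), (0, 6), (1, 4), (2, 3), (2, 4), (3, 0), (3, 2), (4, 1), (4, 2), (4, 5), (5, 4), (5,
      6), (6, 0), (6, 5)]
    lev := [] }
  links := [[1, 5, 3, 6], [5, 0, 6, 2, 7, 8], [7, 1, 6, 9], [6, 0, 5, 4, 10, 9], [10, 3, 5, 11]]
  P := {
    a := 5
    N := 12
    nb := [106, 485, 706, 1649, 3112, 2331, 527, 774, 162, 1228, 2584, 1072]
    tri := [(0, 1, 5), (0, 1, 6), (0, 3, 5), (0, 3, 6), (1, 2, 6), (1, 2, 7), (1, 5, 8), (1, 7, 8), (2,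
      6, 9), (2, 7, 9), (3, 4, 5), (3, 4, 10), (3, 6, 9), (3, 9, 10), (4, 5, 11), (4, 10, 11)]
    fin := [0, 0, 0, 0, 0, 0, 0, 7, 8, 9, 10, 11]
    chd := [(0, 7), (0, 10)]
    steps := [(0, 1), (0, 2), (0, 5), (0, 4), (0, 6), (0, 3)] }
  rep := [0, 9, 8, 7, 10, 11]

noncomputable def v162 : Cov.CovD where
  P := 3
  N := 3
  pl := [3, 4, 6]
  lev := [⟨[], [], [(0, 0)], [], [(0, 0, [3, 4]), (1, 0, [3, 4])]⟩,
    ⟨[], [(0, 0), (0, 3)], [(0, 0), (0, 3)], [2], [(0, 0, [3, 4]), (1, 0, [3, 4]), (2, 3,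
      [0])]⟩,
    ⟨[(0, 1)], [(0, 0), (1, 0), (1, 3)], [(0, 3)], [1], [(1, 0, [3, 4]), (2, 3, [0])]⟩,
    ⟨[(0, 1)], [(0, 0), (0, 4), (1, 0), (2, 0)], [(0, 0), (0, 4)], [1], [(0, 0, [3, 4]),
      (1, 0, [3, 4]), (5, 4, [0])]⟩,
    ⟨[(0, 3)], [(0, 0), (1, 0), (3, 0), (3, 4)], [(0, 4)], [5], [(0, 0, [3, 4]), (5, 4,
      [0])]⟩]
  Ta := [((0, 3), 0, 2), ((0, 6), 0, 5), ((1, 4), 0, 1)]
  Tb := [((0, 3, 6), 0, 2, 5), ((2, 3, 4), 3, 2, 1), ((3, 0, 2), 2, 0, 3), ((4, 1, 2), 1, 0, 3),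
    ((4, 1, 5), 1, 0, 4), ((4, 2, 5), 1, 3, 4), ((5, 4, 6), 4, 1, 5), ((6, 0, 5), 5, 0, 4)]
  Tc := [(0, 3, 4)]
  Td := [((0, 3), (0, 3), 2), ((0, 3), (0, 6), 5), ((0, 3), (1, 4), 1), ((0, 4), (0, 3), 2), ((0,
    4), (0, 6), 5), ((0, 4), (1, 4), 1), ((3, 0), (2, 3), 2), ((3, 0), (2, 4), 1), ((4, 0),
    (5, 4), 1), ((4, 0), (5, 6), 5)]
  G := [[0, 0, 0xa6c1a6c162, 0xa6c8a6c4c2, 0xa6c8a6c1a2], [0, 0x116811a4c2, 0, 0x16c816c4c2,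
    0xa1c853c4a4]]

noncomputable def n162 : Ent := ⟨e162, noF, [], [], [(11, 8, [913639289937604221048780971129931576216014946305, 0])]⟩

def c162 : PLift (Cov.check n162.C.D v162 = true) := ⟨by decide +kernel⟩

def b162 : PLift (entF (fidx ts) 400 162 n162 = true) := ⟨by decide +kernel⟩

theorem g162 : GoodF (fidx ts) 400 162 := GoodF.ofV v162 n162 c162.down b162.down

/-- 46464:136 -/
noncomputable def e163 : SCfg where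
  D := {
    a := 5
    L := 8
    kp := 6
    inn := [(0, 1), (0, 3), (1, 0), (1, 2), (2, 1), (3, 0), (3, 4), (4, 3)]
    mix := [(0, 0), (0, 1), (1, 0), (1, 1), (1, 2), (1, 3), (2, 1), (2, 2), (2, 4), (3, 0), (3, 1), (3,
      5), (3, 6), (4, 0), (4, 5), (4, 7)]
    cl := [0, 0, 1, 2, 4, 3, 5, 6]
    chq := [(0, 1), (0, 3), (1, 0), (3, 0)]
    rng := [(0, 3), (0, 7), (1, 4), (1, 6), (2, 3), (2, 4), (3, 0), (3, 2), (4, 1), (4, 2), (5, 6), (5,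
      7), (6, 1), (6, 5), (7, 0), (7, 5)]
    lev := [] }
  links := [[1, 5, 3, 6], [5, 0, 6, 2, 7, 8], [7, 1, 6, 9], [6, 0, 5, 4, 10, 11], [10, 3, 5, 12]]
  P := {
    a := 5
    N := 13
    nb := [106, 485, 706, 3185, 5160, 4379, 2575, 774, 162, 196, 6168, 1096, 1072]
    tri := [(0, 1, 5), (0, 1, 6), (0, 3, 5), (0, 3, 6), (1, 2, 6), (1, 2, 7), (1, 5, 8), (1, 7, 8), (2,
      6, 9), (2, 7, 9), (3, 4, 5), (3, 4, 10), (3, 6, 11), (3, 10, 11), (4, 5, 12), (4, 10, 12)]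
    fin := [0, 0, 0, 0, 0, 0, 0, 7, 8, 9, 10, 11, 12]
    chd := [(0, 7), (0, 10)]
    steps := [(0, 1), (0, 2), (0, 3), (0, 4), (0, 5), (0, 6)] }
  rep := [0, 7, 8, 10, 9, 11, 12]

noncomputable def v163 : Cov.CovD where
  P := 3
  N := 4
  pl := [3, 4, 6, 7]
  lev := [⟨[], [], [(0, 0)], [], [(0, 0, [1, 3]), (1, 0, [1, 3])]⟩,
    ⟨[], [(0, 0), (0, 1)], [(0, 0), (0, 1)], [2], [(0, 0, [1, 3]), (1, 0, [1, 3]), (2, 1,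
      [0])]⟩,
    ⟨[(0, 1)], [(0, 0), (1, 0), (1, 1)], [(0, 1)], [4], [(1, 0, [1, 3]), (2, 1, [0])]⟩,
    ⟨[(0, 1)], [(0, 0), (0, 3), (1, 0), (2, 0)], [(0, 0), (0, 3)], [5], [(0, 0, [1, 3]),
      (1, 0, [1, 3]), (5, 3, [0])]⟩,
    ⟨[(0, 3)], [(0, 0), (1, 0), (3, 0), (3, 3)], [(0, 3)], [6], [(0, 0, [1, 3]), (5, 3,
      [0])]⟩]
  Ta := [((0, 3), 0, 2), ((0, 7), 0, 6), ((1, 4), 0, 4), ((1, 6), 0, 5)]
  Tb := [((0, 3, 7), 0, 2, 6), ((1, 4, 6), 0, 4, 5), ((2, 3, 4), 1, 2, 4), ((3, 0, 2), 2, 0, 1),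
    ((4, 1, 2), 4, 0, 1), ((5, 6, 7), 3, 5, 6), ((6, 1, 5), 5, 0, 3), ((7, 0, 5), 6, 0, 3)]
  Tc := [(0, 1, 3)]
  Td := [((0, 1), (0, 3), 2), ((0, 1), (0, 7), 6), ((0, 1), (1, 4), 4), ((0, 1), (1, 6), 5), ((0,
    3), (0, 3), 2), ((0, 3), (0, 7), 6), ((0, 3), (1, 4), 4), ((0, 3), (1, 6), 5), ((1, 0),
    (2, 3), 2), ((1, 0), (2, 4), 4), ((3, 0), (5, 6), 5), ((3, 0), (5, 7), 6)]
  G := [[0, 0x111e111e684, 0xe214eec18a, 0xee618e814c, 0x2218eece186], [0, 0x111e111ec84, 0,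
    0xed1e935ec42, 0xb1ee395ec84]]

noncomputable def n163 : Ent := ⟨e163, noF, [], [], [(12, 8, [4116502250019204739753360285315596908646230364131329, 0]), (11, 9, [4490646713755628212391809823900745932099238941564929, 0])]⟩

def c163 : PLift (Cov.check n163.C.D v163 = true) := ⟨by decide +kernel⟩

def b163 : PLift (entF (fidx ts) 400 163 n163 = true) := ⟨by decide +kernel⟩

theorem g163 : GoodF (fidx ts) 400 163 := GoodF.ofV v163 n163 c163.down b163.down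

/-- 46464:137/1 -/
noncomputable def e164 : SCfg where
  D := {
    a := 5
    L := 7
    kp := 5
    inn := [(0, 1), (0, 3), (1, 0), (1, 2), (2, 1), (3, 0), (3, 4), (4, 3)]
    mix := [(0, 0), (0, 1), (1, 0), (1, 1), (1, 2), (1, 3), (2, 1), (2, 2), (2, 4), (3, 0), (3, 1), (3,
      5), (3, 6), (4, 1), (4, 4), (4, 6)]
    cl := [0, 0, 3, 2, 1, 5, 4]
    chq := [(0, 3), (0, 4), (3, 0), (4, 0)]
    rng := [(0, 3), (0, 5), (1, 4), (2, 3), (2, 4), (3, 0), (3, 2), (4, 1), (4, 2), (4, 6), (5, 0), (5,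
      6), (6, 4), (6, 5)]
    lev := [] }
  links := [[1, 5, 3, 6], [5, 0, 6, 2, 7, 8], [7, 1, 6, 9], [6, 0, 5, 10, 11, 4], [6, 3, 11, 9]]
  P := {
    a := 5
    N := 12
    nb := [106, 485, 706, 3185, 2632, 1291, 543, 774, 162, 2260, 2088, 1560]
    tri := [(0, 1, 5), (0, 1, 6), (0, 3, 5), (0, 3, 6), (1, 2, 6), (1, 2, 7), (1, 5, 8), (1, 7, 8), (2,
      6, 9), (2, 7, 9), (3, 4, 6), (3, 4, 11), (3, 5, 10), (3, 10, 11), (4, 6, 9), (4, 9, 11)]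
    fin := [0, 0, 0, 0, 0, 0, 0, 7, 8, 9, 10, 11]
    chd := [(0, 7), (0, 11)]
    steps := [(0, 1), (0, 2), (0, 3), (0, 5), (0, 6), (0, 4)] }
  rep := [0, 9, 8, 7, 11, 10]

noncomputable def v164 : Cov.CovD where
  P := 3
  N := 3
  pl := [3, 4, 5]
  lev := [⟨[], [], [(0, 0)], [], [(0, 0, [3, 4]), (1, 0, [3, 4])]⟩,
    ⟨[], [(0, 0), (0, 3)], [(0, 0), (0, 3)], [2], [(0, 0, [3, 4]), (1, 0, [3, 4]), (2, 3,
      [0])]⟩,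
    ⟨[(0, 1)], [(0, 0), (1, 0), (1, 3)], [(0, 3)], [1], [(1, 0, [3, 4]), (2, 3, [0])]⟩,
    ⟨[(0, 1)], [(0, 0), (0, 4), (1, 0), (2, 0)], [(0, 0), (0, 4)], [5], [(0, 0, [3, 4]),
      (1, 0, [3, 4]), (6, 4, [0])]⟩,
    ⟨[(0, 3)], [(0, 0), (1, 0), (2, 0), (3, 0), (3, 4)], [(0, 4)], [1], [(1, 0, [3, 4]),
      (6, 4, [0])]⟩]
  Ta := [((0, 3), 0, 2), ((0, 5), 0, 5), ((1, 4), 0, 1)]
  Tb := [((0, 3, 5), 0, 2, 5), ((2, 3, 4), 3, 2, 1), ((3, 0, 2), 2, 0, 3), ((4, 1, 2), 1, 0, 3),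
    ((4, 1, 6), 1, 0, 4), ((4, 2, 6), 1, 3, 4), ((5, 0, 6), 5, 0, 4), ((6, 4, 5), 4, 1, 5)]
  Tc := [(0, 3, 4)]
  Td := [((0, 3), (0, 3), 2), ((0, 3), (0, 5), 5), ((0, 3), (1, 4), 1), ((0, 4), (0, 3), 2), ((0,
    4), (0, 5), 5), ((0, 4), (1, 4), 1), ((3, 0), (2, 3), 2), ((3, 0), (2, 4), 1), ((4, 0),
    (6, 4), 1), ((4, 0), (6, 5), 5)]
  G := [[0, 0, 0x811e8811e4c2, 0x841e8841e4c2, 0x815e8815e4a4], [0, 0x84ce884ce4c2, 0,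
    0x84ce884ce4c2, 0xc24284ce884c4aa]]

noncomputable def n164 : Ent := ⟨e164, noF, [], [], []⟩

def c164 : PLift (Cov.check n164.C.D v164 = true) := ⟨by decide +kernel⟩

def b164 : PLift (entF (fidx ts) 400 164 n164 = true) := ⟨by decide +kernel⟩

theorem g164 : GoodF (fidx ts) 400 164 := GoodF.ofV v164 n164 c164.down b164.down

/-- 46464:137 -/
noncomputable def e165 : SCfg where
  D := {
    a := 5
    L := 8
    kp := 6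
    inn := [(0, 1), (0, 3), (1, 0), (1, 2), (2, 1), (3, 0), (3, 4), (4, 3)]
    mix := [(0, 0), (0, 1), (1, 0), (1, 1), (1, 2), (1, 3), (2, 1), (2, 2), (2, 4), (3, 0), (3, 1), (3,
      5), (3, 6), (4, 1), (4, 6), (4, 7)]
    cl := [0, 0, 1, 2, 4, 5, 3, 6]
    chq := [(0, 1), (0, 3), (1, 0), (3, 0)]
    rng := [(0, 3), (0, 5), (1, 4), (1, 7), (2, 3), (2, 4), (3, 0), (3, 2), (4, 1), (4, 2), (5, 0), (5,
      6), (6, 5), (6, 7), (7, 1), (7, 6)]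
    lev := [] }
  links := [[1, 5, 3, 6], [5, 0, 6, 2, 7, 8], [7, 1, 6, 9], [6, 0, 5, 10, 11, 4], [6, 3, 11, 12]]
  P := {
    a := 5
    N := 13
    nb := [106, 485, 706, 3185, 6216, 1291, 4639, 774, 162, 196, 2088, 5144, 2128]
    tri := [(0, 1, 5), (0, 1, 6), (0, 3, 5), (0, 3, 6), (1, 2, 6), (1, 2, 7), (1, 5, 8), (1, 7, 8), (2,
      6, 9), (2, 7, 9), (3, 4, 6), (3, 4, 11), (3, 5, 10), (3, 10, 11), (4, 6, 12), (4, 11, 12)]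
    fin := [0, 0, 0, 0, 0, 0, 0, 7, 8, 9, 10, 11, 12]
    chd := [(0, 7), (0, 11)]
    steps := [(0, 1), (0, 2), (0, 3), (0, 4), (0, 5), (0, 6)] }
  rep := [0, 7, 8, 11, 9, 10, 12]

noncomputable def v165 : Cov.CovD where
  P := 3
  N := 4
  pl := [3, 4, 5, 7]
  lev := [⟨[], [], [(0, 0)], [], [(0, 0, [1, 3]), (1, 0, [1, 3])]⟩,
    ⟨[], [(0, 0), (0, 1)], [(0, 0), (0, 1)], [2], [(0, 0, [1, 3]), (1, 0, [1, 3]), (2, 1,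
      [0])]⟩,
    ⟨[(0, 1)], [(0, 0), (1, 0), (1, 1)], [(0, 1)], [4], [(1, 0, [1, 3]), (2, 1, [0])]⟩,
    ⟨[(0, 1)], [(0, 0), (0, 3), (1, 0), (2, 0)], [(0, 0), (0, 3)], [5], [(0, 0, [1, 3]),
      (1, 0, [1, 3]), (6, 3, [0])]⟩,
    ⟨[(0, 3)], [(0, 0), (1, 0), (2, 0), (3, 0), (3, 3)], [(0, 3)], [6], [(1, 0, [1, 3]),
      (6, 3, [0])]⟩]
  Ta := [((0, 3), 0, 2), ((0, 5), 0, 5), ((1, 4), 0, 4), ((1, 7), 0, 6)]
  Tb := [((0, 3, 5), 0, 2, 5), ((1, 4, 7), 0, 4, 6), ((2, 3, 4), 1, 2, 4), ((3, 0, 2), 2, 0, 1),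
    ((4, 1, 2), 4, 0, 1), ((5, 0, 6), 5, 0, 3), ((6, 5, 7), 3, 5, 6), ((7, 1, 6), 6, 0, 3)]
  Tc := [(0, 1, 3)]
  Td := [((0, 1), (0, 3), 2), ((0, 1), (0, 5), 5), ((0, 1), (1, 4), 4), ((0, 1), (1, 7), 6), ((0,
    3), (0, 3), 2), ((0, 3), (0, 5), 5), ((0, 3), (1, 4), 4), ((0, 3), (1, 7), 6), ((1, 0),
    (2, 3), 2), ((1, 0), (2, 4), 4), ((3, 0), (6, 5), 5), ((3, 0), (6, 7), 6)]
  G := [[0, 0x111e111e684, 0x111e111ec82, 0xe218eec186, 0x1212eecd82], [0, 0x111e111ea84, 0,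
    0xe2eeac8eece4c86, 0xeea22c8e4eecec86]]

noncomputable def n165 : Ent := ⟨e165, noF, [], [], [(12, 9, [4116502316899662263862289648261095751715681716551681, 0])]⟩

def c165 : PLift (Cov.check n165.C.D v165 = true) := ⟨by decide +kernel⟩

def b165 : PLift (entF (fidx ts) 400 165 n165 = true) := ⟨by decide +kernel⟩

theorem g165 : GoodF (fidx ts) 400 165 := GoodF.ofV v165 n165 c165.down b165.down

/-- 48644:138 -/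
noncomputable def e166 : SCfg where
  D := {
    a := 5
    L := 8
    kp := 6
    inn := [(0, 1), (1, 0), (1, 2), (1, 3), (1, 4), (2, 1), (2, 3), (2, 4), (3, 1), (3, 2), (4, 1), (4,
      2)]
    mix := [(0, 0), (0, 1), (0, 2), (1, 0), (1, 2), (1, 3), (1, 4), (2, 5), (2, 6), (2, 7), (3, 2), (3,
      5), (4, 3), (4, 7)]
    cl := [1, 4, 0, 0, 5, 2, 6, 3]
    chq := [(0, 6), (4, 5), (5, 4), (6, 0)]
    rng := [(0, 1), (0, 4), (1, 0), (1, 2), (2, 1), (2, 5), (3, 4), (3, 7), (4, 0), (4, 3), (5, 2), (5,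
      6), (6, 5), (6, 7), (7, 3), (7, 6)]
    lev := [] }
  links := [[1, 5, 6, 7], [5, 0, 7, 3, 2, 4, 8, 9], [4, 1, 3, 10, 11, 12], [10, 2, 1, 7], [8, 1, 2, 12]]
  P := {
    a := 5
    N := 13
    nb := [226, 957, 7194, 1158, 4358, 579, 161, 1099, 4626, 290, 2188, 5124, 2324]
    tri := [(0, 1, 5), (0, 1, 7), (0, 5, 6), (0, 6, 7), (1, 2, 3), (1, 2, 4), (1, 3, 7), (1, 4, 8), (1,
      5, 9), (1, 8, 9), (2, 3, 10), (2, 4, 12), (2, 10, 11), (2, 11, 12), (3, 7, 10), (4, 8, 12)]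
    fin := [0, 0, 2, 2, 2, 5, 0, 2, 2, 9, 10, 11, 12]
    chd := [(0, 9), (2, 11)]
    steps := [(0, 1), (0, 6), (2, 3), (2, 4), (2, 7), (2, 8)] }
  rep := [2, 5, 10, 12, 0, 9, 11]

noncomputable def v166 : Cov.CovD where
  P := 3
  N := 4
  pl := [0, 5, 7]
  lev := [⟨[], [], [(0, 4)], [1], [(1, 4, [5]), (2, 0, [6])]⟩,
    ⟨[], [(0, 0), (0, 4), (0, 5)], [(0, 0), (0, 5)], [1], [(2, 0, [6]), (3, 0, [6]), (4, 5,
      [4])]⟩,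
    ⟨[(0, 1)], [(1, 0), (1, 5), (1, 6)], [], [2, 3], [(6, 6, [0])]⟩,
    ⟨[(0, 1), (1, 2)], [(0, 0), (1, 0), (1, 5), (2, 0), (2, 6)], [], [2], [(2, 0, [6])]⟩,
    ⟨[(0, 1), (1, 2), (1, 3), (2, 3)], [(1, 0), (1, 5), (2, 0), (2, 6)], [], [3], [(3, 0,
      [6])]⟩]
  Ta := [((2, 1), 0, 4), ((2, 5), 0, 2), ((3, 4), 0, 5), ((3, 7), 0, 3)]
  Tb := [((0, 1, 4), 1, 4, 5), ((1, 0, 2), 4, 1, 0), ((2, 1, 5), 0, 4, 2), ((3, 4, 7), 0, 5, 3),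
    ((4, 0, 3), 5, 1, 0), ((5, 2, 6), 2, 0, 6), ((6, 5, 7), 6, 2, 3), ((7, 3, 6), 3, 0, 6)]
  Tc := []
  Td := [((0, 6), (2, 1), 4), ((0, 6), (2, 5), 2), ((0, 6), (3, 4), 5), ((0, 6), (3, 7), 3), ((4,
    5), (1, 0), 1), ((4, 5), (1, 2), 0), ((5, 4), (4, 0), 1), ((5, 4), (4, 3), 0), ((6, 0),
    (6, 5), 2), ((6, 0), (6, 7), 3)]
  G := [[0x821818e4141428e8c, 0x6412a8146, 0x821818e4121212e8c, 0xa8146818c, 0xa8146218c], [0,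
    0x844828d2212464d8a, 0, 0x2448c4d848828dc1, 0x224262b8242a8bc1]]

noncomputable def n166 : Ent := ⟨e166, noF, [], [], []⟩

def c166 : PLift (Cov.check n166.C.D v166 = true) := ⟨by decide +kernel⟩

def b166 : PLift (entF (fidx ts) 400 166 n166 = true) := ⟨by decide +kernel⟩

theorem g166 : GoodF (fidx ts) 400 166 := GoodF.ofV v166 n166 c166.down b166.down

/-- 45954:139 -/
noncomputable def e167 : SCfg where
  D := {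
    a := 5
    L := 9
    kp := 6
    inn := [(0, 1), (0, 2), (1, 0), (1, 2), (2, 0), (2, 1), (2, 3), (2, 4), (3, 2), (3, 4), (4, 2), (4,
      3)]
    mix := [(0, 0), (0, 1), (1, 1), (1, 2), (1, 3), (2, 0), (2, 3), (2, 4), (2, 5), (2, 6), (3, 6), (3,
      7), (3, 8), (4, 0), (4, 8)]
    cl := [0, 1, 4, 0, 2, 5, 0, 6, 3]
    chq := []
    rng := [(0, 1), (0, 8), (1, 0), (1, 2), (2, 1), (2, 3), (3, 2), (3, 4), (4, 3), (4, 5), (5, 4), (5,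
      6), (6, 5), (6, 7), (7, 6), (7, 8), (8, 0), (8, 7)]
    lev := [] }
  links := [[1, 2, 5, 6], [2, 0, 6, 7, 8], [5, 0, 1, 8, 9, 10, 11, 3, 4], [4, 2, 11, 12, 13], [5, 2, 3,
    13]]
  P := {
    a := 5
    N := 14
    nb := [102, 453, 3899, 14356, 8236, 8277, 163, 322, 646, 1284, 2564, 5132, 10248, 4152]
    tri := [(0, 1, 2), (0, 1, 6), (0, 2, 5), (0, 5, 6), (1, 2, 8), (1, 6, 7), (1, 7, 8), (2, 3, 4), (2,
      3, 11), (2, 4, 5), (2, 8, 9), (2, 9, 10), (2, 10, 11), (3, 4, 13), (3, 11, 12), (3, 12, 13),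
      (4, 5, 13)]
    fin := [0, 0, 0, 0, 0, 0, 6, 7, 0, 9, 10, 0, 12, 13]
    chd := []
    steps := [(0, 1), (0, 2), (0, 3), (0, 4), (0, 5), (0, 8), (0, 11)] }
  rep := [0, 6, 9, 13, 7, 10, 12]

noncomputable def v167 : Cov.CovD where
  P := 3
  N := 4
  pl := [1, 2, 4, 5, 7, 8]
  lev := [⟨[], [], [], [1], [(0, 0, [])]⟩,
    ⟨[], [(0, 0)], [], [1, 4], [(3, 0, [])]⟩,
    ⟨[(0, 1)], [(0, 0), (1, 0)], [(0, 0)], [2, 5], [(0, 0, []), (3, 0, []), (6, 0, [])]⟩,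
    ⟨[(0, 2), (1, 2)], [(2, 0)], [], [3, 6], [(6, 0, [])]⟩,
    ⟨[(0, 2), (1, 2), (2, 3)], [(0, 0), (2, 0), (3, 0)], [], [3], [(0, 0, [])]⟩]
  Ta := [((0, 1), 0, 1), ((0, 8), 0, 3), ((3, 2), 0, 4), ((3, 4), 0, 2), ((6, 5), 0, 5), ((6, 7),
    0, 6)]
  Tb := [((0, 1, 8), 0, 1, 3), ((1, 0, 2), 1, 0, 4), ((2, 1, 3), 4, 1, 0), ((3, 2, 4), 0, 4, 2),
    ((4, 3, 5), 2, 0, 5), ((5, 4, 6), 5, 2, 0), ((6, 5, 7), 0, 5, 6), ((7, 6, 8), 6, 0, 3),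
    ((8, 0, 7), 3, 0, 6)]
  Tc := []
  Td := []
  G := [[0, 0x61a1c61a1ca4, 0, 0x44672287c18, 0x42672487a18], [0, 0, 0x61c1661a1cc8,
    0x61a1c461c1c89, 0x61a1a6161ac1], [0, 0, 0, 0x426811ec11881c, 0x111e141ea14]]

noncomputable def n167 : Ent := ⟨e167, noF, [], [], []⟩

def c167 : PLift (Cov.check n167.C.D v167 = true) := ⟨by decide +kernel⟩

def b167 : PLift (entF (fidx ts) 400 167 n167 = true) := ⟨by decide +kernel⟩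

theorem g167 : GoodF (fidx ts) 400 167 := GoodF.ofV v167 n167 c167.down b167.down

/-- 45944:143 -/
noncomputable def e168 : SCfg where
  D := {
    a := 5
    L := 9
    kp := 6
    inn := [(0, 1), (0, 2), (1, 0), (1, 2), (2, 0), (2, 1), (2, 3), (2, 4), (3, 2), (4, 2)]
    mix := [(0, 0), (0, 1), (1, 1), (1, 2), (1, 3), (2, 0), (2, 3), (2, 4), (2, 5), (2, 6), (3, 0), (3,
      6), (3, 7), (4, 4), (4, 5), (4, 8)]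
    cl := [0, 1, 4, 0, 3, 0, 2, 5, 6]
    chq := []
    rng := [(0, 1), (0, 7), (1, 0), (1, 2), (2, 1), (2, 3), (3, 2), (3, 4), (4, 3), (4, 8), (5, 6), (5,
      8), (6, 5), (6, 7), (7, 0), (7, 6), (8, 4), (8, 5)]
    lev := [] }
  links := [[1, 2, 5, 6], [2, 0, 6, 7, 8], [5, 0, 1, 8, 9, 4, 10, 11, 3], [5, 2, 11, 12], [10, 2, 9, 13]]
  P := {
    a := 5
    N := 14
    nb := [102, 453, 3899, 6180, 9732, 4173, 163, 322, 646, 8468, 10260, 5132, 2088, 1552]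
    tri := [(0, 1, 2), (0, 1, 6), (0, 2, 5), (0, 5, 6), (1, 2, 8), (1, 6, 7), (1, 7, 8), (2, 3, 5), (2,
      3, 11), (2, 4, 9), (2, 4, 10), (2, 8, 9), (2, 10, 11), (3, 5, 12), (3, 11, 12), (4, 9, 13),
      (4, 10, 13)]
    fin := [0, 0, 0, 0, 0, 0, 6, 7, 0, 9, 0, 11, 12, 13]
    chd := []
    steps := [(0, 1), (0, 2), (0, 3), (0, 4), (0, 5), (0, 8), (0, 10)] }
  rep := [0, 6, 11, 9, 7, 12, 13]

noncomputable def v168 : Cov.CovD where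
  P := 3
  N := 4
  pl := [1, 2, 4, 6, 7, 8]
  lev := [⟨[], [], [], [1], [(0, 0, [])]⟩,
    ⟨[], [(0, 0)], [], [1, 4], [(3, 0, [])]⟩,
    ⟨[(0, 1)], [(0, 0), (1, 0)], [(0, 0)], [2, 3], [(0, 0, []), (3, 0, []), (5, 0, [])]⟩,
    ⟨[(0, 2), (1, 2)], [(0, 0), (2, 0)], [], [2, 5], [(0, 0, [])]⟩,
    ⟨[(0, 2), (1, 2), (2, 3)], [(2, 0)], [], [3, 6], [(5, 0, [])]⟩]
  Ta := [((0, 1), 0, 1), ((0, 7), 0, 5), ((3, 2), 0, 4), ((3, 4), 0, 3), ((5, 6), 0, 2), ((5, 8),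
    0, 6)]
  Tb := [((0, 1, 7), 0, 1, 5), ((1, 0, 2), 1, 0, 4), ((2, 1, 3), 4, 1, 0), ((3, 2, 4), 0, 4, 3),
    ((4, 3, 8), 3, 0, 6), ((5, 6, 8), 0, 2, 6), ((6, 5, 7), 2, 0, 5), ((7, 0, 6), 5, 0, 2),
    ((8, 4, 5), 6, 3, 0)]
  Tc := []
  Td := []
  G := [[0, 0x11c4144a11c811c18c6c, 0, 0x11c4111c81c, 0x11a11aa14], [0, 0, 0, 0x3191c411b1c8c,
    0x3191ac111ac4], [0, 0, 0xcc666ca14, 0x6141a181c, 0xc161a14]]

noncomputable def n168 : Ent := ⟨e168, noF, [], [], []⟩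

def c168 : PLift (Cov.check n168.C.D v168 = true) := ⟨by decide +kernel⟩

def b168 : PLift (entF (fidx ts) 400 168 n168 = true) := ⟨by decide +kernel⟩

theorem g168 : GoodF (fidx ts) 400 168 := GoodF.ofV v168 n168 c168.down b168.down

/-- 45974:146 -/
noncomputable def e169 : SCfg where
  D := {
    a := 5
    L := 11
    kp := 9
    inn := [(0, 1), (0, 2), (1, 0), (1, 2), (1, 3), (2, 0), (2, 1), (2, 3), (3, 1), (3, 2), (3, 4), (4,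
      3)]
    mix := [(0, 0), (0, 1), (1, 1), (1, 2), (2, 0), (2, 3), (2, 4), (2, 5), (2, 6), (2, 7), (3, 2), (3,
      3), (3, 8), (3, 9), (4, 8), (4, 9), (4, 10)]
    cl := [1, 2, 0, 3, 5, 6, 7, 8, 3, 4, 9]
    chq := [(0, 1), (0, 5), (0, 6), (0, 7), (0, 8), (1, 0), (5, 0), (6, 0), (7, 0), (8, 0)]
    rng := [(0, 1), (0, 7), (1, 0), (1, 2), (2, 1), (2, 8), (3, 4), (3, 9), (4, 3), (4, 5), (5, 4), (5,
      6), (6, 5), (6, 7), (7, 0), (7, 6), (8, 2), (8, 10), (9, 3), (9, 10), (10, 8), (10, 9)]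
    lev := [] }
  links := [[1, 2, 5, 6], [2, 0, 6, 7, 3], [5, 0, 1, 3, 8, 9, 10, 11, 12], [8, 2, 1, 7, 13, 4, 14], [14,
    3, 13, 15]]
  P := {
    a := 5
    N := 16
    nb := [102, 205, 7979, 24982, 57352, 4165, 163, 8266, 16908, 1284, 2564, 5124, 2084, 32920, 33048,
      24592]
    tri := [(0, 1, 2), (0, 1, 6), (0, 2, 5), (0, 5, 6), (1, 2, 3), (1, 3, 7), (1, 6, 7), (2, 3, 8), (2,
      5, 12), (2, 8, 9), (2, 9, 10), (2, 10, 11), (2, 11, 12), (3, 4, 13), (3, 4, 14), (3, 7, 13),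
      (3, 8, 14), (4, 13, 15), (4, 14, 15)]
    fin := [0, 1, 1, 3, 3, 0, 6, 1, 3, 9, 10, 11, 12, 3, 14, 15]
    chd := [(0, 1), (1, 9), (1, 10), (1, 11), (1, 12)]
    steps := [(0, 5), (1, 2), (1, 7), (3, 4), (3, 13), (3, 8)] }
  rep := [1, 0, 6, 3, 14, 9, 10, 11, 12, 15]

noncomputable def v169 : Cov.CovD where
  P := 3
  N := 7
  pl := [1, 9, 10]
  lev := [⟨[], [], [], [2], [(0, 1, [0])]⟩,
    ⟨[], [(0, 0), (0, 1)], [], [2], [(2, 0, [1, 5, 6, 7, 8])]⟩,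
    ⟨[(0, 1)], [(0, 1), (0, 3), (0, 5), (0, 6), (0, 7), (0, 8), (1, 0), (1, 1), (1, 3), (1,
      5), (1, 6), (1, 7), (1, 8)], [(1, 3), (1, 5), (1, 6), (1, 7), (1, 8), (3, 5), (3, 6),
      (3, 7), (3, 8), (5, 6), (5, 7), (5, 8), (6, 7), (6, 8), (7, 8)], [], [(0, 1, [0]), (3,
      3, []), (4, 5, [0]), (5, 6, [0]), (6, 7, [0]), (7, 8, [0])]⟩,
    ⟨[(0, 1), (0, 2), (1, 2)], [(1, 0), (1, 3), (2, 0), (2, 1), (2, 3), (2, 5), (2, 6), (2,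
      7), (2, 8)], [(0, 3), (3, 3)], [4], [(2, 0, [1, 5, 6, 7, 8]), (3, 3, []), (8, 3, [])]⟩,
    ⟨[(1, 3), (2, 3)], [(3, 0), (3, 3)], [], [4, 9], [(8, 3, [])]⟩]
  Ta := [((3, 4), 3, 5), ((3, 9), 3, 4), ((8, 2), 3, 0), ((8, 10), 3, 9)]
  Tb := [((0, 1, 7), 1, 2, 8), ((1, 0, 2), 2, 1, 0), ((2, 1, 8), 0, 2, 3), ((3, 4, 9), 3, 5, 4),
    ((4, 3, 5), 5, 3, 6), ((5, 4, 6), 6, 5, 7), ((6, 5, 7), 7, 6, 8), ((7, 0, 6), 8, 1, 7),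
    ((8, 2, 10), 3, 0, 9), ((9, 3, 10), 4, 3, 9), ((10, 8, 9), 9, 3, 4)]
  Tc := [(0, 1, 5), (0, 1, 6), (0, 1, 7), (0, 1, 8), (0, 5, 6), (0, 5, 7), (0, 5, 8), (0, 6, 7),
    (0, 6, 8), (0, 7, 8)]
  Td := [((0, 1), (2, 1), 2), ((0, 1), (2, 8), 3), ((0, 5), (2, 1), 2), ((0, 5), (2, 8), 3), ((0,
    6), (2, 1), 2), ((0, 6), (2, 8), 3), ((0, 7), (2, 1), 2), ((0, 7), (2, 8), 3), ((0, 8),
    (2, 1), 2), ((0, 8), (2, 8), 3), ((1, 0), (0, 1), 2), ((1, 0), (0, 7), 8), ((5, 0), (4,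
    3), 3), ((5, 0), (4, 5), 6), ((6, 0), (5, 4), 5), ((6, 0), (5, 6), 7), ((7, 0), (6, 5),
    6), ((7, 0), (6, 7), 8), ((8, 0), (7, 0), 1), ((8, 0), (7, 6), 7)]
  G := [[0, 0x6a3e148, 0x95ce124, 0x9a3e148, 0x9ace128], [0, 0x54193a1c4, 0x93a154164,
    0x5361981c8, 0x32195c1a8]]

noncomputable def n169 : Ent := ⟨e169, noF, [], [], []⟩

def c169 : PLift (Cov.check n169.C.D v169 = true) := ⟨by decide +kernel⟩

def b169 : PLift (entF (fidx ts) 400 169 n169 = true) := ⟨by decide +kernel⟩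

theorem g169 : GoodF (fidx ts) 400 169 := GoodF.ofV v169 n169 c169.down b169.down

/-- 45974:147 -/
noncomputable def e170 : SCfg where
  D := {
    a := 5
    L := 11
    kp := 9
    inn := [(0, 1), (0, 2), (1, 0), (1, 2), (1, 3), (2, 0), (2, 1), (2, 3), (3, 1), (3, 2), (3, 4), (4,
      3)]
    mix := [(0, 0), (0, 1), (1, 1), (1, 2), (2, 0), (2, 3), (2, 4), (2, 5), (2, 6), (2, 7), (3, 2), (3,
      3), (3, 8), (3, 9), (4, 3), (4, 9), (4, 10)]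
    cl := [1, 2, 0, 3, 5, 6, 7, 8, 3, 4, 9]
    chq := [(0, 1), (0, 5), (0, 6), (0, 7), (0, 8), (1, 0), (5, 0), (6, 0), (7, 0), (8, 0)]
    rng := [(0, 1), (0, 7), (1, 0), (1, 2), (2, 1), (2, 8), (3, 4), (3, 10), (4, 3), (4, 5), (5, 4),
      (5, 6), (6, 5), (6, 7), (7, 0), (7, 6), (8, 2), (8, 9), (9, 8), (9, 10), (10, 3), (10, 9)]
    lev := [] }
  links := [[1, 2, 5, 6], [2, 0, 6, 7, 3], [5, 0, 1, 3, 8, 9, 10, 11, 12], [8, 2, 1, 7, 13, 14, 4], [8,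
    3, 14, 15]]
  P := {
    a := 5
    N := 16
    nb := [102, 205, 7979, 24982, 49416, 4165, 163, 8266, 33308, 1284, 2564, 5124, 2084, 16520, 40984,
      16656]
    tri := [(0, 1, 2), (0, 1, 6), (0, 2, 5), (0, 5, 6), (1, 2, 3), (1, 3, 7), (1, 6, 7), (2, 3, 8), (2,
      5, 12), (2, 8, 9), (2, 9, 10), (2, 10, 11), (2, 11, 12), (3, 4, 8), (3, 4, 14), (3, 7, 13),
      (3, 13, 14), (4, 8, 15), (4, 14, 15)]
    fin := [0, 1, 1, 3, 3, 0, 6, 1, 3, 9, 10, 11, 12, 3, 14, 15]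
    chd := [(0, 1), (1, 9), (1, 10), (1, 11), (1, 12)]
    steps := [(0, 5), (1, 2), (1, 7), (3, 4), (3, 13), (3, 8)] }
  rep := [1, 0, 6, 3, 14, 9, 10, 11, 12, 15]

noncomputable def v170 : Cov.CovD where
  P := 3
  N := 7
  pl := [1, 9, 10]
  lev := [⟨[], [], [], [2], [(0, 1, [0])]⟩,
    ⟨[], [(0, 0), (0, 1)], [], [2], [(2, 0, [1, 5, 6, 7, 8])]⟩,
    ⟨[(0, 1)], [(0, 1), (0, 3), (0, 5), (0, 6), (0, 7), (0, 8), (1, 0), (1, 1), (1, 3), (1,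
      5), (1, 6), (1, 7), (1, 8)], [(1, 3), (1, 5), (1, 6), (1, 7), (1, 8), (3, 5), (3, 6),
      (3, 7), (3, 8), (5, 6), (5, 7), (5, 8), (6, 7), (6, 8), (7, 8)], [], [(0, 1, [0]), (3,
      3, []), (4, 5, [0]), (5, 6, [0]), (6, 7, [0]), (7, 8, [0])]⟩,
    ⟨[(0, 1), (0, 2), (1, 2)], [(1, 0), (1, 3), (2, 0), (2, 1), (2, 3), (2, 5), (2, 6), (2,
      7), (2, 8)], [(0, 3), (3, 3)], [4], [(2, 0, [1, 5, 6, 7, 8]), (3, 3, []), (8, 3, [])]⟩,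
    ⟨[(1, 3), (2, 3)], [(2, 3), (3, 0), (3, 3)], [], [4, 9], [(3, 3, [])]⟩]
  Ta := [((3, 4), 3, 5), ((3, 10), 3, 9), ((8, 2), 3, 0), ((8, 9), 3, 4)]
  Tb := [((0, 1, 7), 1, 2, 8), ((1, 0, 2), 2, 1, 0), ((2, 1, 8), 0, 2, 3), ((3, 4, 10), 3, 5, 9),
    ((4, 3, 5), 5, 3, 6), ((5, 4, 6), 6, 5, 7), ((6, 5, 7), 7, 6, 8), ((7, 0, 6), 8, 1, 7),
    ((8, 2, 9), 3, 0, 4), ((9, 8, 10), 4, 3, 9), ((10, 3, 9), 9, 3, 4)]
  Tc := [(0, 1, 5), (0, 1, 6), (0, 1, 7), (0, 1, 8), (0, 5, 6), (0, 5, 7), (0, 5, 8), (0, 6, 7),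
    (0, 6, 8), (0, 7, 8)]
  Td := [((0, 1), (2, 1), 2), ((0, 1), (2, 8), 3), ((0, 5), (2, 1), 2), ((0, 5), (2, 8), 3), ((0,
    6), (2, 1), 2), ((0, 6), (2, 8), 3), ((0, 7), (2, 1), 2), ((0, 7), (2, 8), 3), ((0, 8),
    (2, 1), 2), ((0, 8), (2, 8), 3), ((1, 0), (0, 1), 2), ((1, 0), (0, 7), 8), ((5, 0), (4,
    3), 3), ((5, 0), (4, 5), 6), ((6, 0), (5, 4), 5), ((6, 0), (5, 6), 7), ((7, 0), (6, 5),
    6), ((7, 0), (6, 7), 8), ((8, 0), (7, 0), 1), ((8, 0), (7, 6), 7)]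
  G := [[0, 0x54193a1c4, 0x32195c1a8, 0x54193a1c4, 0x32195c1a8], [0, 0x6a3e148, 0x9a3e148,
    0xda7e148, 0xbece128]]

noncomputable def n170 : Ent := ⟨e170, noF, [], [], []⟩

def c170 : PLift (Cov.check n170.C.D v170 = true) := ⟨by decide +kernel⟩

def b170 : PLift (entF (fidx ts) 400 170 n170 = true) := ⟨by decide +kernel⟩

theorem g170 : GoodF (fidx ts) 400 170 := GoodF.ofV v170 n170 c170.down b170.down

/-- 46674:148 -/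
noncomputable def e171 : SCfg where
  D := {
    a := 5
    L := 8
    kp := 7
    inn := [(0, 1), (0, 3), (1, 0), (1, 2), (1, 3), (2, 1), (2, 3), (2, 4), (3, 0), (3, 1), (3, 2), (3,
      4), (4, 2), (4, 3)]
    mix := [(0, 0), (0, 1), (1, 0), (1, 2), (1, 3), (2, 2), (2, 4), (2, 5), (3, 1), (3, 6), (3, 7), (4,
      4), (4, 7)]
    cl := [0, 2, 1, 7, 3, 5, 6, 4]
    chq := [(0, 1), (0, 3), (0, 4), (0, 5), (0, 6), (1, 0), (3, 0), (4, 0), (5, 0), (6, 0)]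
    rng := [(0, 1), (0, 3), (1, 0), (1, 6), (2, 3), (2, 5), (3, 0), (3, 2), (4, 5), (4, 7), (5, 2), (5,
      4), (6, 1), (6, 7), (7, 4), (7, 6)]
    lev := [] }
  links := [[1, 5, 6, 3], [5, 0, 3, 2, 7, 8], [7, 1, 3, 4, 9, 10], [4, 2, 1, 0, 6, 11, 12], [9, 2, 3,
    12]]
  P := {
    a := 5
    N := 13
    nb := [106, 429, 1690, 6231, 4620, 323, 2089, 1286, 162, 5140, 644, 4168, 2584]
    tri := [(0, 1, 3), (0, 1, 5), (0, 3, 6), (0, 5, 6), (1, 2, 3), (1, 2, 7), (1, 5, 8), (1, 7, 8), (2,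
      3, 4), (2, 4, 9), (2, 7, 10), (2, 9, 10), (3, 4, 12), (3, 6, 11), (3, 11, 12), (4, 9, 12)]
    fin := [0, 0, 0, 0, 0, 0, 6, 7, 8, 9, 10, 11, 12]
    chd := [(0, 7), (0, 9), (0, 10), (0, 11), (0, 12)]
    steps := [(0, 1), (0, 2), (0, 3), (0, 4), (0, 5)] }
  rep := [0, 7, 6, 9, 12, 10, 11, 8]

noncomputable def v171 : Cov.CovD where
  P := 3
  N := 5
  pl := [1, 3]
  lev := [⟨[], [], [], [2], [(0, 0, [1, 3, 4, 5, 6])]⟩,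
    ⟨[], [(0, 0), (0, 1)], [(0, 1)], [7], [(0, 0, [1, 3, 4, 5, 6]), (2, 1, [0])]⟩,
    ⟨[(0, 1)], [(1, 0), (1, 1), (1, 3), (1, 5)], [(1, 3), (1, 5), (3, 5)], [], [(2, 1,
      [0]), (4, 3, [0]), (5, 5, [0])]⟩,
    ⟨[(0, 1), (0, 2), (1, 2)], [(0, 0), (0, 4), (0, 6), (1, 0), (1, 1), (1, 4), (1, 6), (2,
      1), (2, 3), (2, 4), (2, 5), (2, 6)], [(4, 6)], [2], [(6, 6, [0]), (7, 4, [0])]⟩,
    ⟨[(0, 3), (1, 2), (1, 3), (2, 3)], [(2, 1), (2, 3), (2, 4), (2, 5), (3, 3), (3, 4), (3,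
      6)], [(3, 4)], [], [(4, 3, [0]), (7, 4, [0])]⟩]
  Ta := []
  Tb := [((0, 1, 3), 0, 2, 7), ((1, 0, 6), 2, 0, 6), ((2, 3, 5), 1, 7, 5), ((3, 0, 2), 7, 0, 1),
    ((4, 5, 7), 3, 5, 4), ((5, 2, 4), 5, 1, 3), ((6, 1, 7), 6, 2, 4), ((7, 4, 6), 4, 3, 6)]
  Tc := [(0, 1, 3), (0, 1, 4), (0, 1, 5), (0, 1, 6), (0, 3, 4), (0, 3, 5), (0, 3, 6), (0, 4, 5),
    (0, 4, 6), (0, 5, 6)]
  Td := [((0, 1), (0, 1), 2), ((0, 1), (0, 3), 7), ((0, 3), (0, 1), 2), ((0, 3), (0, 3), 7), ((0,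
    4), (0, 1), 2), ((0, 4), (0, 3), 7), ((0, 5), (0, 1), 2), ((0, 5), (0, 3), 7), ((0, 6),
    (0, 1), 2), ((0, 6), (0, 3), 7), ((1, 0), (2, 3), 7), ((1, 0), (2, 5), 5), ((3, 0), (4,
    5), 5), ((3, 0), (4, 7), 4), ((4, 0), (7, 4), 3), ((4, 0), (7, 6), 6), ((5, 0), (5, 2),
    1), ((5, 0), (5, 4), 3), ((6, 0), (6, 1), 2), ((6, 0), (6, 7), 4)]
  G := [[0, 0x111111e111111ea4, 0x111e1111e1c2, 0x31431317b2ddc317b2d98c,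
    0x51613debda1b1cdebdc2]]

noncomputable def n171 : Ent := ⟨e171, noF, [], [], []⟩

def c171 : PLift (Cov.check n171.C.D v171 = true) := ⟨by decide +kernel⟩

def b171 : PLift (entF (fidx ts) 400 171 n171 = true) := ⟨by decide +kernel⟩

theorem g171 : GoodF (fidx ts) 400 171 := GoodF.ofV v171 n171 c171.down b171.down

/-- 46674:150 -/
noncomputable def e172 : SCfg where
  D := {
    a := 5
    L := 9
    kp := 7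
    inn := [(0, 1), (0, 3), (1, 0), (1, 2), (1, 3), (2, 1), (2, 3), (2, 4), (3, 0), (3, 1), (3, 2), (4,
      2)]
    mix := [(0, 0), (0, 1), (1, 0), (1, 2), (1, 3), (2, 2), (2, 4), (2, 5), (3, 1), (3, 4), (3, 6), (3,
      7), (4, 2), (4, 5), (4, 8)]
    cl := [1, 3, 0, 2, 0, 4, 5, 6, 7]
    chq := [(2, 3), (2, 5), (2, 6), (3, 2), (5, 2), (6, 2)]
    rng := [(0, 1), (0, 3), (1, 0), (1, 6), (2, 3), (2, 8), (3, 0), (3, 2), (4, 5), (4, 7), (5, 4), (5,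
      8), (6, 1), (6, 7), (7, 4), (7, 6), (8, 2), (8, 5)]
    lev := [] }
  links := [[1, 5, 6, 3], [5, 0, 3, 2, 7, 8], [7, 1, 3, 9, 10, 4], [9, 2, 1, 0, 6, 11, 12], [7, 2, 10,
    13]]
  P := {
    a := 5
    N := 14
    nb := [106, 429, 1690, 6727, 9348, 323, 2089, 8470, 162, 5132, 8724, 4168, 2568, 1168]
    tri := [(0, 1, 3), (0, 1, 5), (0, 3, 6), (0, 5, 6), (1, 2, 3), (1, 2, 7), (1, 5, 8), (1, 7, 8), (2,
      3, 9), (2, 4, 7), (2, 4, 10), (2, 9, 10), (3, 6, 11), (3, 9, 12), (3, 11, 12), (4, 7, 13),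
      (4, 10, 13)]
    fin := [0, 1, 2, 1, 2, 0, 6, 2, 1, 2, 10, 11, 12, 13]
    chd := [(1, 11), (1, 12), (6, 1)]
    steps := [(0, 5), (1, 3), (1, 8), (2, 4), (2, 9), (2, 7)] }
  rep := [2, 0, 1, 6, 10, 11, 12, 13]

noncomputable def v172 : Cov.CovD where
  P := 3
  N := 5
  pl := [0, 5, 8]
  lev := [⟨[], [], [], [1], [(1, 3, [2])]⟩,
    ⟨[], [(0, 0), (0, 2), (0, 3)], [(0, 2)], [1], [(2, 0, []), (3, 2, [3, 5, 6])]⟩,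
    ⟨[(0, 1)], [(1, 0), (1, 2)], [(0, 0)], [4], [(2, 0, []), (4, 0, [])]⟩,
    ⟨[(0, 1), (0, 2), (1, 2)], [(0, 0), (0, 3), (0, 5), (0, 6), (1, 0), (1, 2), (1, 3), (1,
      5), (1, 6), (2, 0), (2, 3), (2, 5), (2, 6)], [(0, 3), (0, 5), (0, 6), (3, 5), (3, 6),
      (5, 6)], [], [(1, 3, [2]), (4, 0, []), (6, 5, [2]), (7, 6, [2])]⟩,
    ⟨[(1, 2), (2, 3)], [(1, 0), (2, 0)], [], [4, 7], [(2, 0, [])]⟩]
  Ta := [((2, 3), 0, 2), ((2, 8), 0, 7), ((4, 5), 0, 4), ((4, 7), 0, 6)]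
  Tb := [((0, 1, 3), 1, 3, 2), ((1, 0, 6), 3, 1, 5), ((2, 3, 8), 0, 2, 7), ((3, 0, 2), 2, 1, 0),
    ((4, 5, 7), 0, 4, 6), ((5, 4, 8), 4, 0, 7), ((6, 1, 7), 5, 3, 6), ((7, 4, 6), 6, 0, 5),
    ((8, 2, 5), 7, 0, 4)]
  Tc := [(2, 3, 5), (2, 3, 6), (2, 5, 6)]
  Td := [((2, 3), (3, 0), 1), ((2, 3), (3, 2), 0), ((2, 5), (3, 0), 1), ((2, 5), (3, 2), 0), ((2,
    6), (3, 0), 1), ((2, 6), (3, 2), 0), ((3, 2), (1, 0), 1), ((3, 2), (1, 6), 5), ((5, 2),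
    (6, 1), 3), ((5, 2), (6, 7), 6), ((6, 2), (7, 4), 0), ((6, 2), (7, 6), 5)]
  G := [[0, 0x624a28c624a28cc, 0xc161a4c1a168c, 0xe22242e4624a28cc, 0x84e46844cccbc884e468d],
    [0, 0xa212c41262c8c, 0, 0xa212c4c21268c, 0x142c4893494a89]]

noncomputable def n172 : Ent := ⟨e172, noF, [], [], []⟩

def c172 : PLift (Cov.check n172.C.D v172 = true) := ⟨by decide +kernel⟩

def b172 : PLift (entF (fidx ts) 400 172 n172 = true) := ⟨by decide +kernel⟩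

theorem g172 : GoodF (fidx ts) 400 172 := GoodF.ofV v172 n172 c172.down b172.down

/-- 46675:151/1 -/
noncomputable def e173 : SCfg where
  D := {
    a := 5
    L := 9
    kp := 6
    inn := [(0, 1), (0, 3), (1, 0), (1, 2), (1, 3), (2, 1), (2, 3), (2, 4), (3, 0), (3, 1), (3, 2), (4,
      2)]
    mix := [(0, 0), (0, 1), (1, 0), (1, 2), (1, 3), (2, 2), (2, 4), (2, 5), (3, 1), (3, 4), (3, 6), (3,
      7), (4, 2), (4, 3), (4, 5), (4, 8)]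
    cl := [2, 1, 0, 3, 1, 0, 4, 5, 6]
    chq := [(0, 2), (2, 0)]
    rng := [(0, 1), (0, 3), (1, 0), (1, 6), (2, 3), (3, 0), (3, 2), (3, 8), (4, 5), (4, 7), (5, 4), (5,
      8), (6, 1), (6, 7), (7, 4), (7, 6), (8, 3), (8, 5)]
    lev := [] }
  links := [[1, 5, 6, 3], [5, 0, 3, 2, 7, 8], [7, 1, 3, 9, 10, 4], [9, 2, 1, 0, 6, 11, 12], [7, 2, 10,
    13, 8]]
  P := {
    a := 5
    N := 14
    nb := [106, 429, 1690, 6727, 9604, 323, 2089, 278, 8370, 5132, 8724, 4168, 2568, 1296]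
    tri := [(0, 1, 3), (0, 1, 5), (0, 3, 6), (0, 5, 6), (1, 2, 3), (1, 2, 7), (1, 5, 8), (1, 7, 8), (2,
      3, 9), (2, 4, 7), (2, 4, 10), (2, 9, 10), (3, 6, 11), (3, 9, 12), (3, 11, 12), (4, 7, 8),
      (4, 8, 13), (4, 10, 13)]
    fin := [0, 0, 0, 3, 4, 0, 3, 4, 8, 3, 4, 11, 12, 13]
    chd := [(0, 4)]
    steps := [(0, 1), (0, 2), (0, 5), (3, 6), (3, 9), (4, 10), (4, 7)] }
  rep := [4, 3, 0, 8, 11, 12, 13]

noncomputable def v173 : Cov.CovD where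
  P := 3
  N := 4
  pl := [3, 6, 7, 8]
  lev := [⟨[], [], [(1, 2)], [], [(0, 2, [0]), (1, 1, [])]⟩,
    ⟨[], [(0, 0), (0, 1), (0, 2)], [(0, 2)], [3], [(0, 2, [0]), (2, 0, [2])]⟩,
    ⟨[(0, 1)], [(1, 0), (1, 1), (1, 2)], [(0, 0), (0, 1)], [], [(2, 0, [2]), (4, 1, []),
      (5, 0, [2])]⟩,
    ⟨[(0, 1), (0, 2), (1, 2)], [(0, 1), (0, 2), (1, 0), (1, 1), (1, 2), (2, 0), (2, 1)],
      [(1, 1)], [4, 5], [(1, 1, []), (4, 1, [])]⟩,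
    ⟨[(1, 2), (2, 3)], [(1, 0), (2, 0), (2, 1)], [(0, 0)], [3, 6], [(2, 0, [2]), (5, 0,
      [2])]⟩]
  Ta := [((1, 0), 1, 2), ((1, 6), 1, 4), ((2, 3), 0, 3), ((4, 5), 1, 0), ((4, 7), 1, 5), ((5, 4),
    0, 1), ((5, 8), 0, 6)]
  Tb := [((0, 1, 3), 2, 1, 3), ((1, 0, 6), 1, 2, 4), ((3, 0, 2), 3, 2, 0), ((3, 0, 8), 3, 2, 6),
    ((3, 2, 8), 3, 0, 6), ((4, 5, 7), 1, 0, 5), ((5, 4, 8), 0, 1, 6), ((6, 1, 7), 4, 1, 5),
    ((7, 4, 6), 5, 1, 4), ((8, 3, 5), 6, 3, 0)]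
  Tc := []
  Td := [((0, 2), (2, 3), 3), ((0, 2), (5, 4), 1), ((0, 2), (5, 8), 6), ((2, 0), (0, 1), 1), ((2,
    0), (0, 3), 3)]
  G := [[0, 0, 0xcccd2666d8a4, 0x6652848e4aaad489, 0xcccd2666d8a1], [0, 0, 0x44cc9c666d8a84486,
    0, 0x44c8cdc666d8a1], [0, 0, 0xcc9264669cac4285, 0x8a946186ec8d4, 0x44c8cdc666d8a1], [0,
    0x22eece618, 0xaaad4666d8c2, 0, 0xc14618e4e8cb8]]

noncomputable def n173 : Ent := ⟨e173, noF, [], [], []⟩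

def c173 : PLift (Cov.check n173.C.D v173 = true) := ⟨by decide +kernel⟩

def b173 : PLift (entF (fidx ts) 400 173 n173 = true) := ⟨by decide +kernel⟩

theorem g173 : GoodF (fidx ts) 400 173 := GoodF.ofV v173 n173 c173.down b173.down

/-- 46675:151 -/
noncomputable def e174 : SCfg where
  D := {
    a := 5
    L := 10
    kp := 7
    inn := [(0, 1), (0, 3), (1, 0), (1, 2), (1, 3), (2, 1), (2, 3), (2, 4), (3, 0), (3, 1), (3, 2), (4,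
      2)]
    mix := [(0, 0), (0, 1), (1, 0), (1, 2), (1, 3), (2, 2), (2, 4), (2, 5), (3, 1), (3, 4), (3, 6), (3,
      7), (4, 2), (4, 5), (4, 8), (4, 9)]
    cl := [2, 1, 0, 3, 1, 0, 4, 5, 6, 7]
    chq := [(0, 2), (2, 0)]
    rng := [(0, 1), (0, 3), (1, 0), (1, 6), (2, 3), (2, 9), (3, 0), (3, 2), (4, 5), (4, 7), (5, 4), (5,
      8), (6, 1), (6, 7), (7, 4), (7, 6), (8, 5), (8, 9), (9, 2), (9, 8)]
    lev := [] }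
  links := [[1, 5, 6, 3], [5, 0, 3, 2, 7, 8], [7, 1, 3, 9, 10, 4], [9, 2, 1, 0, 6, 11, 12], [7, 2, 10,
    13, 14]]
  P := {
    a := 5
    N := 15
    nb := [106, 429, 1690, 6727, 25732, 323, 2089, 16662, 162, 5132, 8724, 4168, 2568, 17424, 8336]
    tri := [(0, 1, 3), (0, 1, 5), (0, 3, 6), (0, 5, 6), (1, 2, 3), (1, 2, 7), (1, 5, 8), (1, 7, 8), (2,
      3, 9), (2, 4, 7), (2, 4, 10), (2, 9, 10), (3, 6, 11), (3, 9, 12), (3, 11, 12), (4, 7, 14),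
      (4, 10, 13), (4, 13, 14)]
    fin := [0, 0, 0, 3, 4, 0, 3, 4, 8, 3, 4, 11, 12, 13, 14]
    chd := [(0, 4)]
    steps := [(0, 1), (0, 2), (0, 5), (3, 6), (3, 9), (4, 10), (4, 7)] }
  rep := [4, 3, 0, 8, 11, 12, 13, 14]

noncomputable def v174 : Cov.CovD where
  P := 3
  N := 5
  pl := [3, 6, 7, 8, 9]
  lev := [⟨[], [], [(1, 2)], [], [(0, 2, [0]), (1, 1, [])]⟩,
    ⟨[], [(0, 0), (0, 1), (0, 2)], [(0, 2)], [3], [(0, 2, [0]), (2, 0, [2])]⟩,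
    ⟨[(0, 1)], [(1, 0), (1, 1), (1, 2)], [(0, 0), (0, 1)], [], [(2, 0, [2]), (4, 1, []),
      (5, 0, [2])]⟩,
    ⟨[(0, 1), (0, 2), (1, 2)], [(0, 1), (0, 2), (1, 0), (1, 1), (1, 2), (2, 0), (2, 1)],
      [(1, 1)], [4, 5], [(1, 1, []), (4, 1, [])]⟩,
    ⟨[(1, 2), (2, 3)], [(1, 0), (2, 0), (2, 1)], [(0, 0)], [6, 7], [(2, 0, [2]), (5, 0,
      [2])]⟩]
  Ta := [((1, 0), 1, 2), ((1, 6), 1, 4), ((2, 3), 0, 3), ((2, 9), 0, 7), ((4, 5), 1, 0), ((4, 7),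
    1, 5), ((5, 4), 0, 1), ((5, 8), 0, 6)]
  Tb := [((0, 1, 3), 2, 1, 3), ((1, 0, 6), 1, 2, 4), ((2, 3, 9), 0, 3, 7), ((3, 0, 2), 3, 2, 0),
    ((4, 5, 7), 1, 0, 5), ((5, 4, 8), 0, 1, 6), ((6, 1, 7), 4, 1, 5), ((7, 4, 6), 5, 1, 4),
    ((8, 5, 9), 6, 0, 7), ((9, 2, 8), 7, 0, 6)]
  Tc := []
  Td := [((0, 2), (2, 3), 3), ((0, 2), (2, 9), 7), ((0, 2), (5, 4), 1), ((0, 2), (5, 8), 6), ((2,
    0), (0, 1), 1), ((2, 0), (0, 3), 3)]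
  G := [[0, 0, 0x248cca6e98ee5e8ce4, 0xe22dcc562e2dcc9ac1, 0xe2edc4644eaedca1], [0, 0,
    0xee94ee5e8cae4845, 0, 0x445eaadc2eedc8ca1], [0, 0, 0x2e54ce58a6ec88ae8469,
    0x21c16e18e4e8cd8, 0xe14e18eac446b8], [0, 0xe4eeac18, 0x665e88dc4eeda8cc2, 0,
    0xe14e1844eaccb8]]

noncomputable def n174 : Ent := ⟨e174, noF, [], [], [(14, 8, [81620716623019490626259338160855783265958941731545632395265, 0])]⟩

def c174 : PLift (Cov.check n174.C.D v174 = true) := ⟨by decide +kernel⟩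

def b174 : PLift (entF (fidx ts) 400 174 n174 = true) := ⟨by decide +kernel⟩

theorem g174 : GoodF (fidx ts) 400 174 := GoodF.ofV v174 n174 c174.down b174.down

/-- 46675:152 -/
noncomputable def e175 : SCfg where
  D := {
    a := 5
    L := 10
    kp := 7
    inn := [(0, 1), (0, 3), (1, 0), (1, 2), (1, 3), (2, 1), (2, 3), (3, 0), (3, 1), (3, 2), (3, 4), (4,
      3)]
    mix := [(0, 0), (0, 1), (1, 0), (1, 2), (1, 3), (2, 2), (2, 4), (2, 5), (2, 6), (3, 1), (3, 4), (3,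
      7), (4, 1), (4, 7), (4, 8), (4, 9)]
    cl := [2, 1, 0, 3, 0, 4, 5, 1, 6, 7]
    chq := [(0, 2), (2, 0)]
    rng := [(0, 1), (0, 3), (1, 0), (1, 8), (2, 3), (2, 6), (3, 0), (3, 2), (4, 5), (4, 7), (5, 4), (5,
      6), (6, 2), (6, 5), (7, 4), (7, 9), (8, 1), (8, 9), (9, 7), (9, 8)]
    lev := [] }
  links := [[1, 5, 6, 3], [5, 0, 3, 2, 7, 8], [7, 1, 3, 9, 10, 11], [9, 2, 1, 0, 6, 4, 12], [12, 3, 6,
    13, 14]]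
  P := {
    a := 5
    N := 15
    nb := [106, 429, 3722, 4695, 28744, 323, 8249, 2310, 162, 5132, 2564, 1156, 16920, 16464, 12304]
    tri := [(0, 1, 3), (0, 1, 5), (0, 3, 6), (0, 5, 6), (1, 2, 3), (1, 2, 7), (1, 5, 8), (1, 7, 8), (2,
      3, 9), (2, 7, 11), (2, 9, 10), (2, 10, 11), (3, 4, 6), (3, 4, 12), (3, 9, 12), (4, 6, 13),
      (4, 12, 14), (4, 13, 14)]
    fin := [0, 0, 2, 0, 4, 0, 4, 2, 8, 2, 10, 11, 4, 13, 14]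
    chd := [(0, 2)]
    steps := [(0, 1), (0, 3), (0, 5), (2, 9), (2, 7), (4, 6), (4, 12)] }
  rep := [2, 4, 0, 8, 10, 11, 13, 14]

noncomputable def v175 : Cov.CovD where
  P := 3
  N := 5
  pl := [3, 5, 6, 8, 9]
  lev := [⟨[], [], [(1, 2)], [], [(0, 2, [0]), (1, 1, [])]⟩,
    ⟨[], [(0, 0), (0, 1), (0, 2)], [(0, 2)], [3], [(0, 2, [0]), (2, 0, [2])]⟩,
    ⟨[(0, 1)], [(1, 0), (1, 2)], [(0, 0)], [4, 5], [(2, 0, [2]), (4, 0, [2])]⟩,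
    ⟨[(0, 1), (0, 2), (1, 2)], [(0, 0), (0, 1), (0, 2), (1, 0), (1, 1), (1, 2), (2, 0), (2,
      1)], [(0, 1), (1, 1)], [], [(1, 1, []), (4, 0, [2]), (7, 1, [])]⟩,
    ⟨[(0, 3), (1, 3), (2, 3)], [(0, 1), (3, 0), (3, 1)], [(1, 1)], [6, 7], [(1, 1, []), (7,
      1, [])]⟩]
  Ta := [((1, 0), 1, 2), ((1, 8), 1, 6), ((2, 3), 0, 3), ((2, 6), 0, 5), ((4, 5), 0, 4), ((4, 7),
    0, 1), ((7, 4), 1, 0), ((7, 9), 1, 7)]
  Tb := [((0, 1, 3), 2, 1, 3), ((1, 0, 8), 1, 2, 6), ((2, 3, 6), 0, 3, 5), ((3, 0, 2), 3, 2, 0),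
    ((4, 5, 7), 0, 4, 1), ((5, 4, 6), 4, 0, 5), ((6, 2, 5), 5, 0, 4), ((7, 4, 9), 1, 0, 7),
    ((8, 1, 9), 6, 1, 7), ((9, 7, 8), 7, 1, 6)]
  Tc := []
  Td := [((0, 2), (2, 3), 3), ((0, 2), (2, 6), 5), ((0, 2), (4, 5), 4), ((0, 2), (4, 7), 1), ((2,
    0), (0, 1), 1), ((2, 0), (0, 3), 3)]
  G := [[0, 0, 0xd449cd4e49cd849cec1, 0xd449c58ce58cd849cec1, 0xd41c558ce2d458cd4e89], [0, 0,
    0x1c51c958ced41c5d4e68, 0, 0xd449cd4ed4d8d8ea1], [0, 0, 0x58cd8d8ed4d8d4e61,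
    0xd458cd4e18, 0xd458cd4e18], [0, 0xe4e2e4e18, 0x58cd8d8ed458cd8e61, 0, 0xd4d8d4e12]]

noncomputable def n175 : Ent := ⟨e175, noF, [], [], []⟩

def c175 : PLift (Cov.check n175.C.D v175 = true) := ⟨by decide +kernel⟩

def b175 : PLift (entF (fidx ts) 400 175 n175 = true) := ⟨by decide +kernel⟩

theorem g175 : GoodF (fidx ts) 400 175 := GoodF.ofV v175 n175 c175.down b175.down

/-- 46674:153 -/
noncomputable def e176 : SCfg where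
  D := {
    a := 5
    L := 9
    kp := 7
    inn := [(0, 1), (0, 3), (1, 0), (1, 2), (1, 3), (2, 1), (2, 3), (3, 0), (3, 1), (3, 2), (3, 4), (4,
      3)]
    mix := [(0, 0), (0, 1), (1, 0), (1, 2), (1, 3), (2, 2), (2, 4), (2, 5), (2, 6), (3, 1), (3, 4), (3,
      7), (4, 4), (4, 7), (4, 8)]
    cl := [1, 3, 0, 2, 0, 6, 7, 4, 5]
    chq := [(0, 3), (2, 3), (3, 0), (3, 2), (3, 5), (5, 3)]
    rng := [(0, 1), (0, 3), (1, 0), (1, 7), (2, 3), (2, 6), (3, 0), (3, 2), (4, 5), (4, 8), (5, 4), (5,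
      6), (6, 2), (6, 5), (7, 1), (7, 8), (8, 4), (8, 7)]
    lev := [] }
  links := [[1, 5, 6, 3], [5, 0, 3, 2, 7, 8], [7, 1, 3, 9, 10, 11], [9, 2, 1, 0, 6, 12, 4], [9, 3, 12,
    13]]
  P := {
    a := 5
    N := 14
    nb := [106, 429, 3722, 4695, 12808, 323, 4137, 2310, 162, 9244, 2564, 1156, 8280, 4624]
    tri := [(0, 1, 3), (0, 1, 5), (0, 3, 6), (0, 5, 6), (1, 2, 3), (1, 2, 7), (1, 5, 8), (1, 7, 8), (2,
      3, 9), (2, 7, 11), (2, 9, 10), (2, 10, 11), (3, 4, 9), (3, 4, 12), (3, 6, 12), (4, 9, 13),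
      (4, 12, 13)]
    fin := [0, 1, 2, 1, 1, 0, 1, 2, 8, 2, 10, 11, 12, 13]
    chd := [(1, 2), (1, 8), (1, 13)]
    steps := [(0, 5), (1, 3), (1, 4), (1, 6), (2, 9), (2, 7)] }
  rep := [2, 0, 8, 1, 12, 13, 10, 11]

noncomputable def v176 : Cov.CovD where
  P := 3
  N := 5
  pl := [0, 5, 6, 7]
  lev := [⟨[], [], [], [1], [(1, 3, [0, 2, 5])]⟩,
    ⟨[], [(0, 0), (0, 2), (0, 3)], [(0, 2)], [1], [(2, 0, [3]), (3, 2, [3])]⟩,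
    ⟨[(0, 1)], [(1, 0), (1, 2)], [(0, 0)], [6, 7], [(2, 0, [3]), (4, 0, [3])]⟩,
    ⟨[(0, 1), (0, 2), (1, 2)], [(0, 0), (0, 3), (1, 0), (1, 2), (1, 3), (2, 0), (2, 3)],
      [(0, 3)], [4], [(1, 3, [0, 2, 5]), (4, 0, [3])]⟩,
    ⟨[(0, 3), (1, 3), (2, 3)], [(2, 0), (3, 0), (3, 3), (3, 5)], [(0, 5)], [4], [(4, 0,
      [3]), (8, 5, [3])]⟩]
  Ta := [((2, 3), 0, 2), ((2, 6), 0, 7), ((4, 5), 0, 6), ((4, 8), 0, 5)]
  Tb := [((0, 1, 3), 1, 3, 2), ((1, 0, 7), 3, 1, 4), ((2, 3, 6), 0, 2, 7), ((3, 0, 2), 2, 1, 0),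
    ((4, 5, 8), 0, 6, 5), ((5, 4, 6), 6, 0, 7), ((6, 2, 5), 7, 0, 6), ((7, 1, 8), 4, 3, 5),
    ((8, 4, 7), 5, 0, 4)]
  Tc := [(3, 0, 2), (3, 0, 5), (3, 2, 5)]
  Td := [((0, 3), (2, 3), 2), ((0, 3), (2, 6), 7), ((0, 3), (4, 5), 6), ((0, 3), (4, 8), 5), ((2,
    3), (3, 0), 1), ((2, 3), (3, 2), 0), ((3, 0), (1, 0), 1), ((3, 0), (1, 7), 4), ((3, 2),
    (1, 0), 1), ((3, 2), (1, 7), 4), ((3, 5), (1, 0), 1), ((3, 5), (1, 7), 4), ((5, 3), (8,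
    4), 0), ((5, 3), (8, 7), 4)]
  G := [[0, 0x28ebccaba8ede42, 0x31c41a5ec231ceec1, 0x144481e1ca481eec1, 0x356736ab5a1ee84], [0,
    0x4228c224a446ace6caeacece, 0, 0x48c448eee26aceec1, 0x6ace816ace6ace685]]

noncomputable def n176 : Ent := ⟨e176, noF, [], [], []⟩

def c176 : PLift (Cov.check n176.C.D v176 = true) := ⟨by decide +kernel⟩

def b176 : PLift (entF (fidx ts) 400 176 n176 = true) := ⟨by decide +kernel⟩

theorem g176 : GoodF (fidx ts) 400 176 := GoodF.ofV v176 n176 c176.down b176.down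

/-- 46674:155 -/
noncomputable def e177 : SCfg where
  D := {
    a := 5
    L := 10
    kp := 7
    inn := [(0, 1), (1, 0), (1, 2), (1, 3), (2, 1), (2, 3), (3, 1), (3, 2), (3, 4), (4, 3)]
    mix := [(0, 0), (0, 1), (0, 2), (1, 0), (1, 2), (1, 3), (2, 2), (2, 4), (2, 5), (2, 6), (3, 3), (3,
      6), (3, 7), (3, 8), (4, 6), (4, 7), (4, 9)]
    cl := [1, 5, 0, 0, 6, 7, 0, 3, 2, 4]
    chq := [(2, 4), (4, 2)]
    rng := [(0, 1), (0, 3), (1, 0), (1, 2), (2, 1), (2, 4), (3, 0), (3, 8), (4, 2), (4, 5), (5, 4), (5,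
      6), (6, 5), (6, 9), (7, 8), (7, 9), (8, 3), (8, 7), (9, 6), (9, 7)]
    lev := [] }
  links := [[1, 5, 6, 7], [5, 0, 7, 2, 3, 8], [3, 1, 7, 9, 10, 11], [8, 1, 2, 11, 4, 12, 13], [12, 3, 11,
    14]]
  P := {
    a := 5
    N := 15
    nb := [226, 429, 3722, 14614, 22536, 323, 161, 583, 8234, 1156, 2564, 17436, 24600, 4360, 6160]
    tri := [(0, 1, 5), (0, 1, 7), (0, 5, 6), (0, 6, 7), (1, 2, 3), (1, 2, 7), (1, 3, 8), (1, 5, 8), (2,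
      3, 11), (2, 7, 9), (2, 9, 10), (2, 10, 11), (3, 4, 11), (3, 4, 12), (3, 8, 13), (3, 12, 13),
      (4, 11, 14), (4, 12, 14)]
    fin := [0, 1, 1, 3, 3, 0, 6, 1, 1, 9, 10, 1, 12, 13, 3]
    chd := [(13, 3)]
    steps := [(0, 5), (1, 2), (1, 7), (1, 11), (1, 8), (3, 4), (3, 14)] }
  rep := [1, 0, 13, 12, 3, 6, 9, 10]

noncomputable def v177 : Cov.CovD where
  P := 3
  N := 5
  pl := [0, 1, 4, 5, 7]
  lev := [⟨[], [], [], [1, 5], [(2, 0, [])]⟩,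
    ⟨[], [(0, 0)], [(0, 0)], [1], [(2, 0, []), (3, 0, [])]⟩,
    ⟨[(0, 1)], [(0, 0), (1, 0)], [(0, 0)], [6, 7], [(2, 0, []), (6, 0, [])]⟩,
    ⟨[(0, 1), (1, 2)], [(1, 0), (1, 2), (2, 0), (2, 2)], [(0, 0), (0, 2)], [3], [(3, 0,
      []), (6, 0, []), (8, 2, [4])]⟩,
    ⟨[(1, 3), (2, 3)], [(2, 0), (3, 0), (3, 2), (3, 4)], [(0, 4)], [3], [(6, 0, []), (9, 4,
      [2])]⟩]
  Ta := [((2, 1), 0, 5), ((2, 4), 0, 6), ((3, 0), 0, 1), ((3, 8), 0, 2), ((6, 5), 0, 7), ((6, 9),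
    0, 4)]
  Tb := [((0, 1, 3), 1, 5, 0), ((1, 0, 2), 5, 1, 0), ((2, 1, 4), 0, 5, 6), ((3, 0, 8), 0, 1, 2),
    ((4, 2, 5), 6, 0, 7), ((5, 4, 6), 7, 6, 0), ((6, 5, 9), 0, 7, 4), ((7, 8, 9), 3, 2, 4),
    ((8, 3, 7), 2, 0, 3), ((9, 6, 7), 4, 0, 3)]
  Tc := []
  Td := [((2, 4), (8, 3), 0), ((2, 4), (8, 7), 3), ((4, 2), (9, 6), 0), ((4, 2), (9, 7), 3)]
  G := [[0, 0, 0, 0x24421c1821cec1412c21ce288cc, 0x41a14a14ae44241a14ae188cc], [0,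
    0x21c21c21ce212c21c621c8c6, 0x11c11a116e41, 0xd421c21ce188c1, 0x41a14a14ae41], [0, 0, 0,
    0x6ac46ac6acac1, 0x4ea4ea6cae41]]

noncomputable def n177 : Ent := ⟨e177, noF, [], [], []⟩

def c177 : PLift (Cov.check n177.C.D v177 = true) := ⟨by decide +kernel⟩

def b177 : PLift (entF (fidx ts) 400 177 n177 = true) := ⟨by decide +kernel⟩

theorem g177 : GoodF (fidx ts) 400 177 := GoodF.ofV v177 n177 c177.down b177.down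

/-- 46674:156 -/
noncomputable def e178 : SCfg where
  D := {
    a := 5
    L := 10
    kp := 7
    inn := [(0, 1), (1, 0), (1, 2), (1, 3), (2, 1), (2, 3), (3, 1), (3, 2), (3, 4), (4, 3)]
    mix := [(0, 0), (0, 1), (0, 2), (1, 0), (1, 2), (1, 3), (2, 2), (2, 4), (2, 5), (2, 6), (3, 3), (3,
      6), (3, 7), (3, 8), (4, 3), (4, 8), (4, 9)]
    cl := [1, 5, 0, 0, 6, 7, 0, 2, 3, 4]
    chq := [(2, 4), (4, 2)]
    rng := [(0, 1), (0, 3), (1, 0), (1, 2), (2, 1), (2, 4), (3, 0), (3, 9), (4, 2), (4, 5), (5, 4), (5,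
      6), (6, 5), (6, 7), (7, 6), (7, 8), (8, 7), (8, 9), (9, 3), (9, 8)]
    lev := [] }
  links := [[1, 5, 6, 7], [5, 0, 7, 2, 3, 8], [3, 1, 7, 9, 10, 11], [8, 1, 2, 11, 12, 13, 4], [8, 3, 13,
    14]]
  P := {
    a := 5
    N := 15
    nb := [226, 429, 3722, 14614, 24840, 323, 161, 583, 16442, 1156, 2564, 5132, 10248, 20504, 8464]
    tri := [(0, 1, 5), (0, 1, 7), (0, 5, 6), (0, 6, 7), (1, 2, 3), (1, 2, 7), (1, 3, 8), (1, 5, 8), (2,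
      3, 11), (2, 7, 9), (2, 9, 10), (2, 10, 11), (3, 4, 8), (3, 4, 13), (3, 11, 12), (3, 12, 13),
      (4, 8, 14), (4, 13, 14)]
    fin := [0, 1, 1, 3, 3, 0, 6, 1, 1, 9, 10, 1, 3, 13, 14]
    chd := [(3, 14)]
    steps := [(0, 5), (1, 2), (1, 7), (1, 11), (1, 8), (3, 4), (3, 12)] }
  rep := [1, 0, 3, 13, 14, 6, 9, 10]

noncomputable def v178 : Cov.CovD where
  P := 3
  N := 5
  pl := [0, 1, 4, 5, 8]
  lev := [⟨[], [], [], [1, 5], [(2, 0, [])]⟩,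
    ⟨[], [(0, 0)], [(0, 0)], [1], [(2, 0, []), (3, 0, [])]⟩,
    ⟨[(0, 1)], [(0, 0), (1, 0)], [(0, 0)], [6, 7], [(2, 0, []), (6, 0, [])]⟩,
    ⟨[(0, 1), (1, 2)], [(1, 0), (1, 2), (2, 0), (2, 2)], [(0, 0), (0, 2)], [3], [(3, 0,
      []), (6, 0, []), (7, 2, [4])]⟩,
    ⟨[(1, 3), (2, 3)], [(1, 0), (3, 0), (3, 2), (3, 4)], [(0, 4)], [3], [(3, 0, []), (9, 4,
      [2])]⟩]
  Ta := [((2, 1), 0, 5), ((2, 4), 0, 6), ((3, 0), 0, 1), ((3, 9), 0, 4), ((6, 5), 0, 7), ((6, 7),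
    0, 2)]
  Tb := [((0, 1, 3), 1, 5, 0), ((1, 0, 2), 5, 1, 0), ((2, 1, 4), 0, 5, 6), ((3, 0, 9), 0, 1, 4),
    ((4, 2, 5), 6, 0, 7), ((5, 4, 6), 7, 6, 0), ((6, 5, 7), 0, 7, 2), ((7, 6, 8), 2, 0, 3),
    ((8, 7, 9), 3, 2, 4), ((9, 3, 8), 4, 0, 3)]
  Tc := []
  Td := [((2, 4), (7, 6), 0), ((2, 4), (7, 8), 3), ((4, 2), (9, 3), 0), ((4, 2), (9, 8), 3)]
  G := [[0, 0, 0, 0x24421c1821cec1412c21ce288cc, 0x41a14a14ae44241a14ae188cc], [0,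
    0x2ece2c2ece2e46ac2ece288a6, 0, 0xe46ac2ece288c1, 0x4eac6ae4ae41], [0, 0, 0x11611a11ce81,
    0x21c412c12cac1, 0x14a14a41ae41]]

noncomputable def n178 : Ent := ⟨e178, noF, [], [], []⟩

def c178 : PLift (Cov.check n178.C.D v178 = true) := ⟨by decide +kernel⟩

def b178 : PLift (entF (fidx ts) 400 178 n178 = true) := ⟨by decide +kernel⟩

theorem g178 : GoodF (fidx ts) 400 178 := GoodF.ofV v178 n178 c178.down b178.down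

/-- 46656:159 -/
noncomputable def e179 : SCfg where
  D := {
    a := 5
    L := 10
    kp := 7
    inn := [(0, 1), (1, 0), (1, 2), (2, 1), (2, 3), (2, 4), (3, 2), (3, 4), (4, 2), (4, 3)]
    mix := [(0, 0), (0, 1), (0, 2), (1, 0), (1, 2), (1, 3), (1, 4), (2, 2), (2, 3), (2, 5), (3, 3), (3,
      6), (3, 7), (4, 5), (4, 6), (4, 8), (4, 9)]
    cl := [1, 4, 0, 0, 2, 3, 3, 5, 6, 7]
    chq := [(0, 1), (1, 0)]
    rng := [(0, 1), (0, 4), (1, 0), (1, 2), (2, 1), (2, 5), (3, 4), (3, 7), (4, 0), (4, 3), (5, 2), (5,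
      8), (6, 7), (6, 9), (7, 3), (7, 6), (8, 5), (8, 9), (9, 6), (9, 8)]
    lev := [] }
  links := [[1, 5, 6, 7], [5, 0, 7, 2, 8, 9], [8, 1, 7, 10, 4, 3], [8, 2, 4, 11, 12], [11, 3, 2, 10, 13,
    14]]
  P := {
    a := 5
    N := 15
    nb := [226, 933, 1434, 6420, 27660, 579, 161, 1095, 4622, 290, 8340, 20504, 2312, 17424, 10256]
    tri := [(0, 1, 5), (0, 1, 7), (0, 5, 6), (0, 6, 7), (1, 2, 7), (1, 2, 8), (1, 5, 9), (1, 8, 9), (2,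
      3, 4), (2, 3, 8), (2, 4, 10), (2, 7, 10), (3, 4, 11), (3, 8, 12), (3, 11, 12), (4, 10, 13),
      (4, 11, 14), (4, 13, 14)]
    fin := [0, 0, 2, 2, 4, 0, 6, 2, 2, 9, 4, 4, 12, 13, 14]
    chd := [(0, 2)]
    steps := [(0, 1), (0, 5), (2, 3), (2, 7), (2, 8), (4, 10), (4, 11)] }
  rep := [2, 0, 9, 4, 6, 12, 13, 14]

noncomputable def v179 : Cov.CovD where
  P := 3
  N := 5
  pl := [1, 4, 7, 8, 9]
  lev := [⟨[], [], [(0, 1)], [4], [(0, 1, [0]), (2, 0, [1])]⟩,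
    ⟨[], [(0, 0), (0, 1)], [(0, 0), (0, 1)], [2], [(0, 1, [0]), (2, 0, [1]), (3, 0, [1])]⟩,
    ⟨[(0, 1)], [(0, 0), (1, 0), (1, 1), (1, 3)], [(0, 0), (0, 3)], [], [(2, 0, [1]), (3, 0,
      [1]), (5, 3, [])]⟩,
    ⟨[(1, 2)], [(1, 0), (2, 0), (2, 3)], [(0, 3)], [5], [(3, 0, [1]), (6, 3, [])]⟩,
    ⟨[(1, 2), (2, 3)], [(2, 0), (2, 3), (3, 0), (3, 3)], [(3, 3)], [6, 7], [(5, 3, []), (6,
      3, [])]⟩]
  Ta := [((2, 1), 0, 4), ((2, 5), 0, 3), ((3, 4), 0, 2), ((3, 7), 0, 5), ((5, 2), 3, 0), ((5, 8),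
    3, 6), ((6, 7), 3, 5), ((6, 9), 3, 7)]
  Tb := [((0, 1, 4), 1, 4, 2), ((1, 0, 2), 4, 1, 0), ((2, 1, 5), 0, 4, 3), ((3, 4, 7), 0, 2, 5),
    ((4, 0, 3), 2, 1, 0), ((5, 2, 8), 3, 0, 6), ((6, 7, 9), 3, 5, 7), ((7, 3, 6), 5, 0, 3),
    ((8, 5, 9), 6, 3, 7), ((9, 6, 8), 7, 3, 6)]
  Tc := []
  Td := [((0, 1), (2, 1), 4), ((0, 1), (2, 5), 3), ((0, 1), (3, 4), 2), ((0, 1), (3, 7), 5), ((1,
    0), (0, 1), 4), ((1, 0), (0, 4), 2)]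
  G := [[0, 0x1e3b4681c31a568c, 0, 0x1c3efc68f2f8a4c, 0x6dab468f2f468c], [0, 0x111ef28111ef28c,
    0, 0x111ef24111ef48c, 0x111ef48111ef28c], [0, 0x1c3529a4f2f468c, 0xf2f4681, 0xf2f8a41,
    0xf2f4681], [0, 0x111ef48111ef846, 0xffaf4681, 0x22ffdea41, 0xffaf4681]]

noncomputable def n179 : Ent := ⟨e179, noF, [], [], []⟩

def c179 : PLift (Cov.check n179.C.D v179 = true) := ⟨by decide +kernel⟩

def b179 : PLift (entF (fidx ts) 400 179 n179 = true) := ⟨by decide +kernel⟩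

theorem g179 : GoodF (fidx ts) 400 179 := GoodF.ofV v179 n179 c179.down b179.down

/-- 46656:160/1 -/
noncomputable def e180 : SCfg where
  D := {
    a := 5
    L := 9
    kp := 6
    inn := [(0, 1), (1, 0), (1, 2), (2, 1), (2, 3), (2, 4), (3, 2), (3, 4), (4, 2), (4, 3)]
    mix := [(0, 0), (0, 1), (0, 2), (1, 0), (1, 2), (1, 3), (1, 4), (2, 2), (2, 3), (2, 5), (3, 1), (3,
      2), (3, 6), (4, 5), (4, 6), (4, 7), (4, 8)]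
    cl := [3, 2, 0, 0, 4, 1, 1, 5, 6]
    chq := [(0, 3), (3, 0)]
    rng := [(0, 1), (0, 4), (1, 0), (1, 2), (1, 6), (2, 1), (3, 4), (3, 5), (4, 0), (4, 3), (5, 3), (5,
      8), (6, 1), (6, 7), (7, 6), (7, 8), (8, 5), (8, 7)]
    lev := [] }
  links := [[1, 5, 6, 7], [5, 0, 7, 2, 8, 9], [8, 1, 7, 3, 4, 10], [4, 2, 7, 6, 11], [10, 2, 3, 11, 12,
    13]]
  P := {
    a := 5
    N := 14
    nb := [226, 933, 1434, 2260, 15372, 579, 2217, 79, 1542, 290, 8468, 4184, 10256, 5136]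
    tri := [(0, 1, 5), (0, 1, 7), (0, 5, 6), (0, 6, 7), (1, 2, 7), (1, 2, 8), (1, 5, 9), (1, 8, 9), (2,
      3, 4), (2, 3, 7), (2, 4, 10), (2, 8, 10), (3, 4, 11), (3, 6, 7), (3, 6, 11), (4, 10, 13),
      (4, 11, 12), (4, 12, 13)]
    fin := [0, 1, 2, 2, 4, 0, 2, 1, 1, 9, 4, 4, 12, 13]
    chd := [(0, 1)]
    steps := [(0, 5), (1, 7), (1, 8), (2, 3), (2, 6), (4, 11), (4, 10)] }
  rep := [1, 4, 2, 0, 9, 12, 13]

noncomputable def v180 : Cov.CovD where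
  P := 3
  N := 4
  pl := [1, 4, 7, 8]
  lev := [⟨[], [], [(0, 3)], [2], [(0, 3, [0]), (2, 0, [3])]⟩,
    ⟨[], [(0, 0), (0, 3)], [(0, 0), (0, 3)], [4], [(0, 3, [0]), (2, 0, [3]), (3, 0, [3])]⟩,
    ⟨[(0, 1)], [(0, 0), (1, 0), (1, 1), (1, 3)], [(0, 0), (0, 1)], [], [(2, 0, [3]), (3, 0,
      [3]), (5, 1, [])]⟩,
    ⟨[(1, 2)], [(0, 0), (1, 0), (2, 0), (2, 1)], [(0, 1)], [2], [(2, 0, [3]), (6, 1, [])]⟩,
    ⟨[(1, 2), (2, 3)], [(2, 0), (2, 1), (3, 0), (3, 1)], [(1, 1)], [5, 6], [(5, 1, []), (6,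
      1, [])]⟩]
  Ta := [((2, 1), 0, 2), ((3, 4), 0, 4), ((3, 5), 0, 1), ((5, 3), 1, 0), ((5, 8), 1, 6), ((6, 1),
    1, 2), ((6, 7), 1, 5)]
  Tb := [((0, 1, 4), 3, 2, 4), ((1, 0, 2), 2, 3, 0), ((1, 0, 6), 2, 3, 1), ((1, 2, 6), 2, 0, 1),
    ((3, 4, 5), 0, 4, 1), ((4, 0, 3), 4, 3, 0), ((5, 3, 8), 1, 0, 6), ((6, 1, 7), 1, 2, 5),
    ((7, 6, 8), 5, 1, 6), ((8, 5, 7), 6, 1, 5)]
  Tc := []
  Td := [((0, 3), (2, 1), 2), ((0, 3), (3, 4), 4), ((0, 3), (3, 5), 1), ((3, 0), (0, 1), 2), ((3,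
    0), (0, 4), 4)]
  G := [[0, 0, 0xd248d484d282e, 0, 0xd84d28c58a8d846a], [0, 0, 0xd428d824d482e,
    0xd42d84ad42d486c, 0xd824898ccd82d846a], [0, 0xe848e424ac469, 0, 0, 0xd848d242d284b], [0,
    0, 0, 0xd848d424d482d, 0xd82858982d824b]]

noncomputable def n180 : Ent := ⟨e180, noF, [], [], []⟩

def c180 : PLift (Cov.check n180.C.D v180 = true) := ⟨by decide +kernel⟩

def b180 : PLift (entF (fidx ts) 400 180 n180 = true) := ⟨by decide +kernel⟩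

theorem g180 : GoodF (fidx ts) 400 180 := GoodF.ofV v180 n180 c180.down b180.down

/-- 46656:160 -/
noncomputable def e181 : SCfg where
  D := {
    a := 5
    L := 10
    kp := 7
    inn := [(0, 1), (1, 0), (1, 2), (2, 1), (2, 3), (2, 4), (3, 2), (3, 4), (4, 2), (4, 3)]
    mix := [(0, 0), (0, 1), (0, 2), (1, 0), (1, 2), (1, 3), (1, 4), (2, 2), (2, 3), (2, 5), (3, 2), (3,
      6), (3, 7), (4, 5), (4, 7), (4, 8), (4, 9)]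
    cl := [1, 4, 0, 0, 2, 3, 5, 3, 6, 7]
    chq := [(0, 1), (1, 0)]
    rng := [(0, 1), (0, 4), (1, 0), (1, 2), (2, 1), (2, 6), (3, 4), (3, 5), (4, 0), (4, 3), (5, 3), (5,
      9), (6, 2), (6, 7), (7, 6), (7, 8), (8, 7), (8, 9), (9, 5), (9, 8)]
    lev := [] }
  links := [[1, 5, 6, 7], [5, 0, 7, 2, 8, 9], [8, 1, 7, 3, 4, 10], [4, 2, 7, 11, 12], [10, 2, 3, 12, 13,
    14]]
  P := {
    a := 5
    N := 15
    nb := [226, 933, 1434, 6292, 29708, 579, 161, 2127, 1542, 290, 16660, 4232, 10264, 20496, 9232]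
    tri := [(0, 1, 5), (0, 1, 7), (0, 5, 6), (0, 6, 7), (1, 2, 7), (1, 2, 8), (1, 5, 9), (1, 8, 9), (2,
      3, 4), (2, 3, 7), (2, 4, 10), (2, 8, 10), (3, 4, 12), (3, 7, 11), (3, 11, 12), (4, 10, 14),
      (4, 12, 13), (4, 13, 14)]
    fin := [0, 0, 2, 2, 4, 0, 6, 2, 2, 9, 4, 11, 4, 13, 14]
    chd := [(0, 2)]
    steps := [(0, 1), (0, 5), (2, 3), (2, 7), (2, 8), (4, 12), (4, 10)] }
  rep := [2, 0, 9, 4, 6, 11, 13, 14]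

noncomputable def v181 : Cov.CovD where
  P := 3
  N := 5
  pl := [1, 4, 6, 8, 9]
  lev := [⟨[], [], [(0, 1)], [4], [(0, 1, [0]), (2, 0, [1])]⟩,
    ⟨[], [(0, 0), (0, 1)], [(0, 0), (0, 1)], [2], [(0, 1, [0]), (2, 0, [1]), (3, 0, [1])]⟩,
    ⟨[(0, 1)], [(0, 0), (1, 0), (1, 1), (1, 3)], [(0, 0), (0, 3)], [], [(2, 0, [1]), (3, 0,
      [1]), (5, 3, [])]⟩,
    ⟨[(1, 2)], [(0, 0), (1, 0), (2, 0), (2, 3)], [(0, 3)], [5], [(2, 0, [1]), (7, 3, [])]⟩,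
    ⟨[(1, 2), (2, 3)], [(2, 0), (2, 3), (3, 0), (3, 3)], [(3, 3)], [6, 7], [(5, 3, []), (7,
      3, [])]⟩]
  Ta := [((2, 1), 0, 4), ((2, 6), 0, 5), ((3, 4), 0, 2), ((3, 5), 0, 3), ((5, 3), 3, 0), ((5, 9),
    3, 7), ((7, 6), 3, 5), ((7, 8), 3, 6)]
  Tb := [((0, 1, 4), 1, 4, 2), ((1, 0, 2), 4, 1, 0), ((2, 1, 6), 0, 4, 5), ((3, 4, 5), 0, 2, 3),
    ((4, 0, 3), 2, 1, 0), ((5, 3, 9), 3, 0, 7), ((6, 2, 7), 5, 0, 3), ((7, 6, 8), 3, 5, 6),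
    ((8, 7, 9), 6, 3, 7), ((9, 5, 8), 7, 3, 6)]
  Tc := []
  Td := [((0, 1), (2, 1), 4), ((0, 1), (2, 6), 5), ((0, 1), (3, 4), 2), ((0, 1), (3, 5), 3), ((1,
    0), (0, 1), 4), ((1, 0), (0, 4), 2)]
  G := [[0, 0x1e3b4681e378a4c, 0, 0xf2f8a44fab468c, 0x6dab468f2f468c], [0, 0x111ef84111ef846, 0,
    0xff6f8a4a2ff5e68c, 0xf2ffc68ffaf468c], [0, 0x1e3b4684da1a568a, 0xf2f4681, 0xf2f8a41,
    0xf2f4681], [0, 0x111ef24111ef246, 0xfbfe44681, 0x22ffde681, 0xffaf4681]]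

noncomputable def n181 : Ent := ⟨e181, noF, [], [], [(6, 11, [87899351228091456402997525766823824674129406633600833241089, 0])]⟩

def c181 : PLift (Cov.check n181.C.D v181 = true) := ⟨by decide +kernel⟩

def b181 : PLift (entF (fidx ts) 400 181 n181 = true) := ⟨by decide +kernel⟩

theorem g181 : GoodF (fidx ts) 400 181 := GoodF.ofV v181 n181 c181.down b181.down

/-- 46764:167/1 -/
noncomputable def e182 : SCfg where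
  D := {
    a := 5
    L := 9
    kp := 6
    inn := [(0, 1), (1, 0), (1, 2), (1, 3), (2, 1), (2, 3), (2, 4), (3, 1), (3, 2), (4, 2)]
    mix := [(0, 0), (0, 1), (0, 2), (1, 0), (1, 2), (1, 3), (2, 2), (2, 4), (2, 5), (2, 6), (3, 3), (3,
      6), (3, 7), (3, 8), (4, 1), (4, 2), (4, 4)]
    cl := [2, 1, 0, 0, 3, 4, 0, 5, 6]
    chq := [(1, 4), (4, 1)]
    rng := [(0, 1), (0, 3), (1, 0), (1, 2), (1, 4), (2, 1), (3, 0), (3, 8), (4, 1), (4, 5), (5, 4), (5,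
      6), (6, 5), (6, 7), (7, 6), (7, 8), (8, 3), (8, 7)]
    lev := [] }
  links := [[1, 5, 6, 7], [5, 0, 7, 2, 3, 8], [3, 1, 7, 4, 9, 10, 11], [8, 1, 2, 11, 12, 13], [9, 2, 7,
    6]]
  P := {
    a := 5
    N := 14
    nb := [226, 429, 3738, 14598, 708, 323, 689, 87, 8234, 1108, 2564, 5132, 10248, 4360]
    tri := [(0, 1, 5), (0, 1, 7), (0, 5, 6), (0, 6, 7), (1, 2, 3), (1, 2, 7), (1, 3, 8), (1, 5, 8), (2,
      3, 11), (2, 4, 7), (2, 4, 9), (2, 9, 10), (2, 10, 11), (3, 8, 13), (3, 11, 12), (3, 12, 13),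
      (4, 6, 7), (4, 6, 9)]
    fin := [0, 1, 2, 1, 2, 0, 2, 1, 1, 9, 10, 1, 12, 13]
    chd := [(2, 10)]
    steps := [(0, 5), (1, 3), (1, 7), (1, 11), (1, 8), (2, 4), (2, 6)] }
  rep := [1, 2, 0, 9, 10, 12, 13]

noncomputable def v182 : Cov.CovD where
  P := 3
  N := 4
  pl := [0, 4, 7, 8]
  lev := [⟨[], [], [(0, 1)], [2], [(1, 1, [4]), (2, 0, [])]⟩,
    ⟨[], [(0, 0), (0, 1)], [(0, 0)], [2], [(2, 0, []), (3, 0, [])]⟩,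
    ⟨[(0, 1)], [(0, 0), (1, 0), (1, 4)], [(0, 0), (0, 4)], [3], [(2, 0, []), (5, 4, [1]),
      (6, 0, [])]⟩,
    ⟨[(0, 1), (1, 2)], [(1, 0), (2, 0), (2, 4)], [(0, 0)], [5, 6], [(3, 0, []), (6, 0,
      [])]⟩,
    ⟨[(1, 2), (2, 3)], [(0, 0), (0, 1), (1, 0), (2, 0), (2, 1), (2, 4)], [(0, 1)], [3],
      [(1, 1, [4]), (2, 0, [])]⟩]
  Ta := [((2, 1), 0, 1), ((3, 0), 0, 2), ((3, 8), 0, 6), ((6, 5), 0, 4), ((6, 7), 0, 5)]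
  Tb := [((0, 1, 3), 2, 1, 0), ((1, 0, 2), 1, 2, 0), ((1, 0, 4), 1, 2, 3), ((1, 2, 4), 1, 0, 3),
    ((3, 0, 8), 0, 2, 6), ((4, 1, 5), 3, 1, 4), ((5, 4, 6), 4, 3, 0), ((6, 5, 7), 0, 4, 5),
    ((7, 6, 8), 5, 0, 6), ((8, 3, 7), 6, 0, 5)]
  Tc := []
  Td := [((1, 4), (1, 0), 2), ((1, 4), (1, 2), 0), ((1, 4), (1, 4), 3), ((4, 1), (5, 4), 3), ((4,
    1), (5, 6), 0)]
  G := [[0, 0x644a4e22cee68a8c4, 0, 0xccce284, 0xc22688e4a4ecccea8], [0, 0, 0x5162188e414ec8ea8,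
    0xccce281, 0x466484ecccee488a1], [0, 0, 0, 0xcc5e248, 0x484eccce6488e8a1]]

noncomputable def n182 : Ent := ⟨e182, noF, [], [], []⟩

def c182 : PLift (Cov.check n182.C.D v182 = true) := ⟨by decide +kernel⟩

def b182 : PLift (entF (fidx ts) 400 182 n182 = true) := ⟨by decide +kernel⟩

theorem g182 : GoodF (fidx ts) 400 182 := GoodF.ofV v182 n182 c182.down b182.down

/-- 46764:167 -/
noncomputable def e183 : SCfg where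
  D := {
    a := 5
    L := 10
    kp := 7
    inn := [(0, 1), (1, 0), (1, 2), (1, 3), (2, 1), (2, 3), (2, 4), (3, 1), (3, 2), (4, 2)]
    mix := [(0, 0), (0, 1), (0, 2), (1, 0), (1, 2), (1, 3), (2, 2), (2, 4), (2, 5), (2, 6), (3, 3), (3,
      6), (3, 7), (3, 8), (4, 2), (4, 4), (4, 9)]
    cl := [1, 5, 0, 0, 3, 2, 0, 6, 7, 4]
    chq := [(2, 4), (4, 2)]
    rng := [(0, 1), (0, 3), (1, 0), (1, 2), (2, 1), (2, 9), (3, 0), (3, 8), (4, 5), (4, 9), (5, 4), (5,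
      6), (6, 5), (6, 7), (7, 6), (7, 8), (8, 3), (8, 7), (9, 2), (9, 4)]
    lev := [] }
  links := [[1, 5, 6, 7], [5, 0, 7, 2, 3, 8], [3, 1, 7, 4, 9, 10, 11], [8, 1, 2, 11, 12, 13], [9, 2, 7,
    14]]
  P := {
    a := 5
    N := 15
    nb := [226, 429, 3738, 14598, 17028, 323, 161, 16471, 8234, 17428, 2564, 5132, 10248, 4360, 656]
    tri := [(0, 1, 5), (0, 1, 7), (0, 5, 6), (0, 6, 7), (1, 2, 3), (1, 2, 7), (1, 3, 8), (1, 5, 8), (2,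
      3, 11), (2, 4, 7), (2, 4, 9), (2, 9, 10), (2, 10, 11), (3, 8, 13), (3, 11, 12), (3, 12, 13),
      (4, 7, 14), (4, 9, 14)]
    fin := [0, 1, 2, 1, 2, 0, 6, 1, 1, 9, 10, 1, 12, 13, 2]
    chd := [(10, 2)]
    steps := [(0, 5), (1, 3), (1, 7), (1, 11), (1, 8), (2, 4), (2, 14)] }
  rep := [1, 0, 10, 9, 2, 6, 12, 13]

noncomputable def v183 : Cov.CovD where
  P := 3
  N := 5
  pl := [0, 1, 4, 7, 8]
  lev := [⟨[], [], [], [1, 5], [(2, 0, [])]⟩,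
    ⟨[], [(0, 0)], [(0, 0)], [1], [(2, 0, []), (3, 0, [])]⟩,
    ⟨[(0, 1)], [(0, 0), (1, 0), (1, 2)], [(0, 0), (0, 2)], [3], [(2, 0, []), (5, 2, [4]),
      (6, 0, [])]⟩,
    ⟨[(0, 1), (1, 2)], [(1, 0), (2, 0), (2, 2)], [(0, 0)], [6, 7], [(3, 0, []), (6, 0,
      [])]⟩,
    ⟨[(1, 2), (2, 3)], [(0, 0), (1, 0), (2, 0), (2, 2), (2, 4)], [(0, 4)], [3], [(2, 0,
      []), (9, 4, [2])]⟩]
  Ta := [((2, 1), 0, 5), ((2, 9), 0, 4), ((3, 0), 0, 1), ((3, 8), 0, 7), ((6, 5), 0, 2), ((6, 7),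
    0, 6)]
  Tb := [((0, 1, 3), 1, 5, 0), ((1, 0, 2), 5, 1, 0), ((2, 1, 9), 0, 5, 4), ((3, 0, 8), 0, 1, 7),
    ((4, 5, 9), 3, 2, 4), ((5, 4, 6), 2, 3, 0), ((6, 5, 7), 0, 2, 6), ((7, 6, 8), 6, 0, 7),
    ((8, 3, 7), 7, 0, 6), ((9, 2, 4), 4, 0, 3)]
  Tc := []
  Td := [((2, 4), (5, 4), 3), ((2, 4), (5, 6), 0), ((4, 2), (9, 2), 0), ((4, 2), (9, 4), 3)]
  G := [[0, 0, 0, 0x2446eeea2acc626eaeec288cc, 0x44eeee4ea4466cecea688cc], [0,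
    0x112e221ec2226111ec288ca, 0, 0xe2ee42e2e8c1, 0x4ceee64ea41], [0, 0, 0xc6a4ca6a6cac1,
    0x2446e6eaaacc1, 0x44eeee4ea41]]

noncomputable def n183 : Ent := ⟨e183, noF, [], [], [(6, 14, [81620716623019490593592230936445690773474979418095884132353, 0])]⟩

def c183 : PLift (Cov.check n183.C.D v183 = true) := ⟨by decide +kernel⟩

def b183 : PLift (entF (fidx ts) 400 183 n183 = true) := ⟨by decide +kernel⟩

theorem g183 : GoodF (fidx ts) 400 183 := GoodF.ofV v183 n183 c183.down b183.down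

/-- 46764:168 -/
noncomputable def e184 : SCfg where
  D := {
    a := 5
    L := 10
    kp := 7
    inn := [(0, 1), (1, 0), (1, 2), (1, 3), (2, 1), (2, 3), (2, 4), (3, 1), (3, 2), (4, 2)]
    mix := [(0, 0), (0, 1), (0, 2), (1, 0), (1, 2), (1, 3), (2, 2), (2, 4), (2, 5), (2, 6), (3, 3), (3,
      6), (3, 7), (3, 8), (4, 5), (4, 6), (4, 9)]
    cl := [1, 5, 0, 0, 2, 3, 0, 6, 7, 4]
    chq := [(2, 4), (4, 2)]
    rng := [(0, 1), (0, 3), (1, 0), (1, 2), (2, 1), (2, 4), (3, 0), (3, 8), (4, 2), (4, 5), (5, 4), (5,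
      9), (6, 7), (6, 9), (7, 6), (7, 8), (8, 3), (8, 7), (9, 5), (9, 6)]
    lev := [] }
  links := [[1, 5, 6, 7], [5, 0, 7, 2, 3, 8], [3, 1, 7, 9, 10, 4, 11], [8, 1, 2, 11, 12, 13], [11, 2, 10,
    14]]
  P := {
    a := 5
    N := 15
    nb := [226, 429, 3738, 14598, 19460, 323, 161, 583, 8234, 1156, 16916, 20508, 10248, 4360, 3088]
    tri := [(0, 1, 5), (0, 1, 7), (0, 5, 6), (0, 6, 7), (1, 2, 3), (1, 2, 7), (1, 3, 8), (1, 5, 8), (2,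
      3, 11), (2, 4, 10), (2, 4, 11), (2, 7, 9), (2, 9, 10), (3, 8, 13), (3, 11, 12), (3, 12, 13),
      (4, 10, 14), (4, 11, 14)]
    fin := [0, 1, 2, 1, 2, 0, 6, 1, 1, 2, 10, 1, 12, 13, 14]
    chd := [(2, 14)]
    steps := [(0, 5), (1, 3), (1, 7), (1, 11), (1, 8), (2, 4), (2, 9)] }
  rep := [1, 0, 2, 10, 14, 6, 12, 13]

noncomputable def v184 : Cov.CovD where
  P := 3
  N := 5
  pl := [0, 1, 5, 7, 8]
  lev := [⟨[], [], [], [1, 5], [(2, 0, [])]⟩,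
    ⟨[], [(0, 0)], [(0, 0)], [1], [(2, 0, []), (3, 0, [])]⟩,
    ⟨[(0, 1)], [(0, 0), (1, 0), (1, 2)], [(0, 0), (0, 2)], [3], [(2, 0, []), (4, 2, [4]),
      (6, 0, [])]⟩,
    ⟨[(0, 1), (1, 2)], [(1, 0), (2, 0), (2, 2)], [(0, 0)], [6, 7], [(3, 0, []), (6, 0,
      [])]⟩,
    ⟨[(1, 2), (2, 3)], [(2, 0), (2, 2), (2, 4), (3, 0)], [(0, 4)], [3], [(6, 0, []), (9, 4,
      [2])]⟩]
  Ta := [((2, 1), 0, 5), ((2, 4), 0, 2), ((3, 0), 0, 1), ((3, 8), 0, 7), ((6, 7), 0, 6), ((6, 9),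
    0, 4)]
  Tb := [((0, 1, 3), 1, 5, 0), ((1, 0, 2), 5, 1, 0), ((2, 1, 4), 0, 5, 2), ((3, 0, 8), 0, 1, 7),
    ((4, 2, 5), 2, 0, 3), ((5, 4, 9), 3, 2, 4), ((6, 7, 9), 0, 6, 4), ((7, 6, 8), 6, 0, 7),
    ((8, 3, 7), 7, 0, 6), ((9, 5, 6), 4, 3, 0)]
  Tc := []
  Td := [((2, 4), (4, 2), 0), ((2, 4), (4, 5), 3), ((4, 2), (9, 5), 3), ((4, 2), (9, 6), 0)]
  G := [[0, 0, 0x111e111ea4111e111e68c, 0x144121e22acc216212ec188cc, 0x111e444ea4116444ea188cc],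
    [0, 0x221e112ec22164212e18cca, 0, 0x126221ec188c1, 0x414e141ea41], [0, 0, 0,
    0x626eaeec288c1, 0x4ceee64ea41]]

noncomputable def n184 : Ent := ⟨e184, noF, [], [], []⟩

def c184 : PLift (Cov.check n184.C.D v184 = true) := ⟨by decide +kernel⟩

def b184 : PLift (entF (fidx ts) 400 184 n184 = true) := ⟨by decide +kernel⟩

theorem g184 : GoodF (fidx ts) 400 184 := GoodF.ofV v184 n184 c184.down b184.down

/-- 46764:169 -/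
noncomputable def e185 : SCfg where
  D := {
    a := 5
    L := 10
    kp := 8
    inn := [(0, 1), (1, 0), (1, 2), (1, 3), (2, 1), (2, 3), (3, 1), (3, 2), (3, 4), (4, 3)]
    mix := [(0, 0), (0, 1), (0, 2), (1, 0), (1, 2), (1, 3), (2, 2), (2, 4), (2, 5), (2, 6), (2, 7), (3,
      3), (3, 7), (3, 8), (4, 7), (4, 8), (4, 9)]
    cl := [2, 7, 0, 0, 4, 5, 6, 3, 1, 8]
    chq := [(1, 3), (1, 4), (1, 5), (1, 6), (3, 1), (4, 1), (5, 1), (6, 1)]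
    rng := [(0, 1), (0, 3), (1, 0), (1, 2), (2, 1), (2, 4), (3, 0), (3, 8), (4, 2), (4, 5), (5, 4), (5,
      6), (6, 5), (6, 7), (7, 6), (7, 9), (8, 3), (8, 9), (9, 7), (9, 8)]
    lev := [] }
  links := [[1, 5, 6, 7], [5, 0, 7, 2, 3, 8], [3, 1, 7, 9, 10, 11, 12], [8, 1, 2, 12, 4, 13], [13, 3, 12,
    14]]
  P := {
    a := 5
    N := 15
    nb := [226, 429, 7818, 12566, 28680, 323, 161, 583, 8234, 1156, 2564, 5124, 18460, 16664, 12304]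
    tri := [(0, 1, 5), (0, 1, 7), (0, 5, 6), (0, 6, 7), (1, 2, 3), (1, 2, 7), (1, 3, 8), (1, 5, 8), (2,
      3, 12), (2, 7, 9), (2, 9, 10), (2, 10, 11), (2, 11, 12), (3, 4, 12), (3, 4, 13), (3, 8, 13),
      (4, 12, 14), (4, 13, 14)]
    fin := [0, 1, 2, 2, 4, 0, 6, 1, 1, 9, 10, 11, 4, 2, 14]
    chd := [(4, 2), (9, 2), (10, 2), (11, 2)]
    steps := [(0, 5), (1, 7), (1, 8), (2, 3), (2, 13), (4, 12)] }
  rep := [1, 2, 0, 4, 9, 10, 11, 6, 14]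

noncomputable def v185 : Cov.CovD where
  P := 3
  N := 6
  pl := [0, 1, 9]
  lev := [⟨[], [], [], [2, 7], [(2, 0, [])]⟩,
    ⟨[], [(0, 0)], [(0, 0)], [2], [(2, 0, []), (3, 0, [])]⟩,
    ⟨[(0, 1)], [(0, 0), (1, 0), (1, 3), (1, 4), (1, 5), (1, 6)], [(0, 3), (0, 4), (0, 5),
      (0, 6), (3, 4), (3, 5), (3, 6), (4, 5), (4, 6), (5, 6)], [], [(2, 0, []), (4, 4, [1]),
      (5, 5, [1]), (6, 6, [1]), (7, 3, [1])]⟩,
    ⟨[(0, 1), (1, 2)], [(1, 0), (1, 1), (1, 3), (2, 0), (2, 1), (2, 3), (2, 4), (2, 5), (2,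
      6)], [(0, 1), (0, 3), (1, 3)], [], [(3, 0, []), (7, 3, [1]), (8, 1, [3, 4, 5, 6])]⟩,
    ⟨[(1, 3), (2, 3)], [(2, 3), (3, 0), (3, 1), (3, 3)], [(1, 3)], [8], [(7, 3, [1]), (8,
      1, [3, 4, 5, 6])]⟩]
  Ta := [((2, 1), 0, 7), ((2, 4), 0, 4), ((3, 0), 0, 2), ((3, 8), 0, 1)]
  Tb := [((0, 1, 3), 2, 7, 0), ((1, 0, 2), 7, 2, 0), ((2, 1, 4), 0, 7, 4), ((3, 0, 8), 0, 2, 1),
    ((4, 2, 5), 4, 0, 5), ((5, 4, 6), 5, 4, 6), ((6, 5, 7), 6, 5, 3), ((7, 6, 9), 3, 6, 8),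
    ((8, 3, 9), 1, 0, 8), ((9, 7, 8), 8, 3, 1)]
  Tc := [(1, 3, 4), (1, 3, 5), (1, 3, 6), (1, 4, 5), (1, 4, 6), (1, 5, 6)]
  Td := [((1, 3), (8, 3), 0), ((1, 3), (8, 9), 8), ((1, 4), (8, 3), 0), ((1, 4), (8, 9), 8), ((1,
    5), (8, 3), 0), ((1, 5), (8, 9), 8), ((1, 6), (8, 3), 0), ((1, 6), (8, 9), 8), ((3, 1),
    (7, 6), 6), ((3, 1), (7, 9), 8), ((4, 1), (4, 2), 0), ((4, 1), (4, 5), 5), ((5, 1), (5,
    4), 4), ((5, 1), (5, 6), 6), ((6, 1), (6, 5), 5), ((6, 1), (6, 7), 3)]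
  G := [[0, 0, 0, 0xd14d24142d492cc, 0xda52182a1d8d28a], [0, 0xc6a14ca618c, 0x542982c542982ca,
    0x542982c1, 0x35c2882a1]]

noncomputable def n185 : Ent := ⟨e185, noF, [], [], []⟩

def c185 : PLift (Cov.check n185.C.D v185 = true) := ⟨by decide +kernel⟩

def b185 : PLift (entF (fidx ts) 400 185 n185 = true) := ⟨by decide +kernel⟩

theorem g185 : GoodF (fidx ts) 400 185 := GoodF.ofV v185 n185 c185.down b185.down

/-- 46754:173/1 -/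
noncomputable def e186 : SCfg where
  D := {
    a := 5
    L := 9
    kp := 6
    inn := [(0, 1), (1, 0), (1, 2), (2, 1), (2, 3), (2, 4), (3, 2), (4, 2)]
    mix := [(0, 0), (0, 1), (0, 2), (1, 0), (1, 2), (1, 3), (1, 4), (2, 2), (2, 3), (2, 5), (2, 6), (3,
      1), (3, 5), (3, 6), (3, 7), (4, 3), (4, 6), (4, 8)]
    cl := [3, 2, 0, 0, 4, 1, 1, 5, 6]
    chq := [(0, 3), (3, 0)]
    rng := [(0, 1), (0, 4), (1, 0), (1, 2), (1, 5), (1, 7), (2, 1), (2, 5), (3, 4), (3, 8), (4, 0), (4,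
      3), (5, 1), (5, 2), (6, 7), (6, 8), (7, 1), (7, 6), (8, 3), (8, 6)]
    lev := [] }
  links := [[1, 5, 6, 7], [5, 0, 7, 2, 8, 9], [8, 1, 7, 10, 3, 11, 4], [11, 2, 10, 6, 12], [8, 2, 11,
    13]]
  P := {
    a := 5
    N := 14
    nb := [226, 933, 3482, 7236, 10500, 579, 5289, 1095, 8726, 290, 204, 12316, 2120, 2320]
    tri := [(0, 1, 5), (0, 1, 7), (0, 5, 6), (0, 6, 7), (1, 2, 7), (1, 2, 8), (1, 5, 9), (1, 8, 9), (2,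
      3, 10), (2, 3, 11), (2, 4, 8), (2, 4, 11), (2, 7, 10), (3, 6, 10), (3, 6, 12), (3, 11, 12),
      (4, 8, 13), (4, 11, 13)]
    fin := [0, 1, 2, 3, 1, 0, 3, 1, 1, 9, 2, 2, 12, 13]
    chd := [(0, 1)]
    steps := [(0, 5), (1, 7), (1, 8), (1, 4), (2, 10), (2, 11), (3, 6)] }
  rep := [1, 2, 3, 0, 9, 12, 13]

noncomputable def v186 : Cov.CovD where
  P := 3
  N := 4
  pl := [1, 4, 7, 8]
  lev := [⟨[], [], [(0, 3)], [2], [(0, 3, [0]), (2, 0, [3])]⟩,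
    ⟨[], [(0, 0), (0, 3)], [(0, 0), (0, 3)], [4], [(0, 3, [0]), (2, 0, [3]), (3, 0, [3])]⟩,
    ⟨[(0, 1)], [(0, 0), (1, 0), (1, 1), (1, 3)], [(0, 0), (0, 1), (1, 1)], [], [(2, 0,
      [3]), (3, 0, [3]), (5, 1, []), (6, 1, [])]⟩,
    ⟨[(1, 2)], [(2, 0), (2, 1)], [(1, 1)], [2, 5], [(5, 1, []), (6, 1, [])]⟩,
    ⟨[(1, 2), (2, 3)], [(1, 0), (2, 0), (2, 1), (3, 1)], [(0, 1)], [6], [(3, 0, [3]), (6,
      1, [])]⟩]
  Ta := [((2, 1), 0, 2), ((2, 5), 0, 1), ((3, 4), 0, 4), ((3, 8), 0, 6), ((5, 1), 1, 2), ((5, 2),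
    1, 0), ((6, 7), 1, 5), ((6, 8), 1, 6)]
  Tb := [((0, 1, 4), 3, 2, 4), ((1, 0, 2), 2, 3, 0), ((1, 0, 5), 2, 3, 1), ((1, 0, 7), 2, 3, 5),
    ((1, 2, 5), 2, 0, 1), ((1, 2, 7), 2, 0, 5), ((1, 5, 7), 2, 1, 5), ((2, 1, 5), 0, 2, 1),
    ((3, 4, 8), 0, 4, 6), ((4, 0, 3), 4, 3, 0), ((5, 1, 2), 1, 2, 0), ((6, 7, 8), 1, 5, 6),
    ((7, 1, 6), 5, 2, 1), ((8, 3, 6), 6, 0, 1)]
  Tc := []
  Td := [((0, 3), (2, 1), 2), ((0, 3), (2, 5), 1), ((0, 3), (3, 4), 4), ((0, 3), (3, 8), 6), ((3,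
    0), (0, 1), 2), ((3, 0), (0, 4), 4)]
  G := [[0, 0xcac46cc8a66c86ac86c, 0x12c4812c8411c82e, 0x11542254a12c812946c,
    0x11942294c229411946a], [0, 0, 0x11c4811c8411c82e, 0, 0x11941194c119811986a], [0, 0, 0,
    0x229482258422942d, 0x229482294222984b], [0, 0, 0, 0, 0xcc948cc9424c988c4b]]

noncomputable def n186 : Ent := ⟨e186, noF, [], [], []⟩

def c186 : PLift (Cov.check n186.C.D v186 = true) := ⟨by decide +kernel⟩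

def b186 : PLift (entF (fidx ts) 400 186 n186 = true) := ⟨by decide +kernel⟩

theorem g186 : GoodF (fidx ts) 400 186 := GoodF.ofV v186 n186 c186.down b186.down

/-- 46754:173 -/
noncomputable def e187 : SCfg where
  D := {
    a := 5
    L := 10
    kp := 7
    inn := [(0, 1), (1, 0), (1, 2), (2, 1), (2, 3), (2, 4), (3, 2), (4, 2)]
    mix := [(0, 0), (0, 1), (0, 2), (1, 0), (1, 2), (1, 3), (1, 4), (2, 2), (2, 3), (2, 5), (2, 6), (3,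
      5), (3, 6), (3, 7), (3, 8), (4, 3), (4, 6), (4, 9)]
    cl := [3, 4, 0, 0, 2, 1, 1, 5, 6, 7]
    chq := [(0, 3), (3, 0)]
    rng := [(0, 1), (0, 4), (1, 0), (1, 2), (2, 1), (2, 5), (3, 4), (3, 9), (4, 0), (4, 3), (5, 2), (5,
      7), (6, 8), (6, 9), (7, 5), (7, 8), (8, 6), (8, 7), (9, 3), (9, 6)]
    lev := [] }
  links := [[1, 5, 6, 7], [5, 0, 7, 2, 8, 9], [8, 1, 7, 10, 3, 11, 4], [11, 2, 10, 12, 13], [8, 2, 11,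
    14]]
  P := {
    a := 5
    N := 15
    nb := [226, 933, 3482, 15364, 18692, 579, 161, 1095, 16918, 290, 4236, 24604, 9224, 6152, 2320]
    tri := [(0, 1, 5), (0, 1, 7), (0, 5, 6), (0, 6, 7), (1, 2, 7), (1, 2, 8), (1, 5, 9), (1, 8, 9), (2,
      3, 10), (2, 3, 11), (2, 4, 8), (2, 4, 11), (2, 7, 10), (3, 10, 12), (3, 11, 13), (3, 12,
      13), (4, 8, 14), (4, 11, 14)]
    fin := [0, 0, 2, 3, 2, 0, 6, 2, 2, 9, 3, 3, 12, 13, 14]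
    chd := [(0, 2)]
    steps := [(0, 1), (0, 5), (2, 4), (2, 7), (2, 8), (3, 10), (3, 11)] }
  rep := [2, 3, 9, 0, 6, 12, 13, 14]

noncomputable def v187 : Cov.CovD where
  P := 3
  N := 5
  pl := [1, 4, 7, 8, 9]
  lev := [⟨[], [], [(0, 3)], [4], [(0, 3, [0]), (2, 0, [3])]⟩,
    ⟨[], [(0, 0), (0, 3)], [(0, 0), (0, 3)], [2], [(0, 3, [0]), (2, 0, [3]), (3, 0, [3])]⟩,
    ⟨[(0, 1)], [(0, 0), (1, 0), (1, 1), (1, 3)], [(0, 0), (0, 1), (1, 1)], [], [(2, 0,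
      [3]), (3, 0, [3]), (5, 1, []), (6, 1, [])]⟩,
    ⟨[(1, 2)], [(2, 0), (2, 1)], [(1, 1)], [5, 6], [(5, 1, []), (6, 1, [])]⟩,
    ⟨[(1, 2), (2, 3)], [(1, 0), (2, 0), (2, 1), (3, 1)], [(0, 1)], [7], [(3, 0, [3]), (6,
      1, [])]⟩]
  Ta := [((2, 1), 0, 4), ((2, 5), 0, 1), ((3, 4), 0, 2), ((3, 9), 0, 7), ((5, 2), 1, 0), ((5, 7),
    1, 5), ((6, 8), 1, 6), ((6, 9), 1, 7)]
  Tb := [((0, 1, 4), 3, 4, 2), ((1, 0, 2), 4, 3, 0), ((2, 1, 5), 0, 4, 1), ((3, 4, 9), 0, 2, 7),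
    ((4, 0, 3), 2, 3, 0), ((5, 2, 7), 1, 0, 5), ((6, 8, 9), 1, 6, 7), ((7, 5, 8), 5, 1, 6),
    ((8, 6, 7), 6, 1, 5), ((9, 3, 6), 7, 0, 1)]
  Tc := []
  Td := [((0, 3), (2, 1), 4), ((0, 3), (2, 5), 1), ((0, 3), (3, 4), 2), ((0, 3), (3, 9), 7), ((3,
    0), (0, 1), 4), ((3, 0), (0, 4), 2)]
  G := [[0, 0x6aae4866ae84ccce2cace2ce, 0, 0x111d48121d8412528c112d8ce,
    0x121d48212d4212d4a211d82e], [0, 0, 0, 0x111d48111d84111d4111d8ce,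
    0x111d48111d4111d4a111d42e], [0, 0, 0x222d8222d461, 0x222d84222d8422528c87,
    0x222d48222d48222d82d], [0, 0, 0x4ccd88ccc5c8c61, 0x51cd8451cd8444c8cdcc488cc7,
    0x1c1d821c1d8244c8cdccc94a7]]

noncomputable def n187 : Ent := ⟨e187, noF, [], [], [(6, 12, [87899350853947037246286378706680507498760953601682102263809, 0])]⟩

def c187 : PLift (Cov.check n187.C.D v187 = true) := ⟨by decide +kernel⟩

def b187 : PLift (entF (fidx ts) 400 187 n187 = true) := ⟨by decide +kernel⟩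

theorem g187 : GoodF (fidx ts) 400 187 := GoodF.ofV v187 n187 c187.down b187.down

/-- 46754:174/1 -/
noncomputable def e188 : SCfg where
  D := {
    a := 5
    L := 9
    kp := 6
    inn := [(0, 1), (1, 0), (1, 2), (2, 1), (2, 3), (3, 2), (3, 4), (4, 3)]
    mix := [(0, 0), (0, 1), (0, 2), (1, 0), (1, 2), (1, 3), (1, 4), (2, 2), (2, 3), (2, 5), (2, 6), (2,
      7), (3, 5), (3, 6), (3, 8), (4, 1), (4, 5), (4, 8)]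
    cl := [3, 2, 0, 0, 5, 1, 1, 6, 4]
    chq := [(2, 5), (5, 2)]
    rng := [(0, 1), (0, 4), (1, 0), (1, 2), (1, 5), (1, 8), (2, 1), (2, 5), (3, 4), (3, 7), (4, 0), (4,
      3), (5, 1), (5, 2), (6, 7), (6, 8), (7, 3), (7, 6), (8, 1), (8, 6)]
    lev := [] }
  links := [[1, 5, 6, 7], [5, 0, 7, 2, 8, 9], [8, 1, 7, 10, 3, 11, 12], [11, 2, 10, 4, 13], [13, 3, 10,
    6]]
  P := {
    a := 5
    N := 14
    nb := [226, 933, 7562, 11284, 9288, 579, 9393, 1095, 4614, 290, 220, 12300, 2308, 2136]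
    tri := [(0, 1, 5), (0, 1, 7), (0, 5, 6), (0, 6, 7), (1, 2, 7), (1, 2, 8), (1, 5, 9), (1, 8, 9), (2,
      3, 10), (2, 3, 11), (2, 7, 10), (2, 8, 12), (2, 11, 12), (3, 4, 10), (3, 4, 13), (3, 11,
      13), (4, 6, 10), (4, 6, 13)]
    fin := [0, 0, 2, 3, 0, 5, 0, 2, 2, 9, 3, 3, 12, 13]
    chd := [(0, 9)]
    steps := [(0, 1), (0, 6), (0, 4), (2, 7), (2, 8), (3, 10), (3, 11)] }
  rep := [2, 3, 0, 5, 13, 9, 12]

noncomputable def v188 : Cov.CovD where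
  P := 3
  N := 4
  pl := [0, 7, 8]
  lev := [⟨[], [], [(0, 2)], [3], [(1, 2, [5]), (2, 0, [])]⟩,
    ⟨[], [(0, 0), (0, 2), (0, 5)], [(0, 0), (0, 5)], [3], [(2, 0, []), (3, 0, []), (4, 5,
      [2])]⟩,
    ⟨[(0, 1)], [(0, 0), (1, 0), (1, 1), (1, 5)], [(0, 0), (0, 1), (1, 1)], [6], [(2, 0,
      []), (3, 0, []), (5, 1, []), (6, 1, [])]⟩,
    ⟨[(1, 2)], [(2, 0), (2, 1)], [(1, 1)], [4], [(5, 1, []), (6, 1, [])]⟩,
    ⟨[(2, 3)], [(0, 2), (2, 1), (3, 1), (3, 2)], [(1, 2)], [4], [(1, 2, [5]), (5, 1, [])]⟩]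
  Ta := [((2, 1), 0, 2), ((2, 5), 0, 1), ((3, 4), 0, 5), ((3, 7), 0, 6), ((5, 1), 1, 2), ((5, 2),
    1, 0), ((6, 7), 1, 6), ((6, 8), 1, 4)]
  Tb := [((0, 1, 4), 3, 2, 5), ((1, 0, 2), 2, 3, 0), ((1, 0, 5), 2, 3, 1), ((1, 0, 8), 2, 3, 4),
    ((1, 2, 5), 2, 0, 1), ((1, 2, 8), 2, 0, 4), ((1, 5, 8), 2, 1, 4), ((2, 1, 5), 0, 2, 1),
    ((3, 4, 7), 0, 5, 6), ((4, 0, 3), 5, 3, 0), ((5, 1, 2), 1, 2, 0), ((6, 7, 8), 1, 6, 4),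
    ((7, 3, 6), 6, 0, 1), ((8, 1, 6), 4, 2, 1)]
  Tc := []
  Td := [((2, 5), (1, 0), 3), ((2, 5), (1, 2), 0), ((2, 5), (1, 5), 1), ((2, 5), (1, 8), 4), ((5,
    2), (4, 0), 3), ((5, 2), (4, 3), 0)]
  G := [[0, 0xc24866c2c2c84a84c6e48684ac2c, 0xc148494cc18c18cc18c14485c1cee,
    0x14c819c241581cc2c, 0x944815819cc948815819c9494cea], [0, 0,
    0xa14a14c4858618c618c1461a1cee, 0, 0xa44219819cc2158815819ca4a4cea], [0, 0, 0,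
    0x415419c241981cc29, 0x81c4118c94894819ca815819c4b], [0, 0, 0, 0,
    0x82c488158215815ca815219c4b]]

noncomputable def n188 : Ent := ⟨e188, noF, [], [], []⟩

def c188 : PLift (Cov.check n188.C.D v188 = true) := ⟨by decide +kernel⟩

def b188 : PLift (entF (fidx ts) 400 188 n188 = true) := ⟨by decide +kernel⟩

theorem g188 : GoodF (fidx ts) 400 188 := GoodF.ofV v188 n188 c188.down b188.down

/-- 46754:174 -/
noncomputable def e189 : SCfg where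
  D := {
    a := 5
    L := 10
    kp := 7
    inn := [(0, 1), (1, 0), (1, 2), (2, 1), (2, 3), (3, 2), (3, 4), (4, 3)]
    mix := [(0, 0), (0, 1), (0, 2), (1, 0), (1, 2), (1, 3), (1, 4), (2, 2), (2, 3), (2, 5), (2, 6), (2,
      7), (3, 5), (3, 6), (3, 8), (4, 5), (4, 8), (4, 9)]
    cl := [2, 4, 0, 0, 5, 1, 1, 6, 3, 7]
    chq := [(4, 5), (5, 4)]
    rng := [(0, 1), (0, 4), (1, 0), (1, 2), (2, 1), (2, 5), (3, 4), (3, 7), (4, 0), (4, 3), (5, 2), (5,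
      9), (6, 7), (6, 8), (7, 3), (7, 6), (8, 6), (8, 9), (9, 5), (9, 8)]
    lev := [] }
  links := [[1, 5, 6, 7], [5, 0, 7, 2, 8, 9], [8, 1, 7, 10, 3, 11, 12], [11, 2, 10, 4, 13], [13, 3, 10,
    14]]
  P := {
    a := 5
    N := 15
    nb := [226, 933, 7562, 11284, 25608, 579, 161, 1095, 4614, 290, 16540, 12300, 2308, 18456, 9232]
    tri := [(0, 1, 5), (0, 1, 7), (0, 5, 6), (0, 6, 7), (1, 2, 7), (1, 2, 8), (1, 5, 9), (1, 8, 9), (2,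
      3, 10), (2, 3, 11), (2, 7, 10), (2, 8, 12), (2, 11, 12), (3, 4, 10), (3, 4, 13), (3, 11,
      13), (4, 10, 14), (4, 13, 14)]
    fin := [0, 0, 2, 3, 3, 5, 0, 2, 2, 9, 3, 3, 12, 13, 14]
    chd := [(0, 9)]
    steps := [(0, 1), (0, 6), (2, 7), (2, 8), (3, 4), (3, 10), (3, 11)] }
  rep := [2, 3, 5, 13, 0, 9, 12, 14]

noncomputable def v189 : Cov.CovD where
  P := 3
  N := 5
  pl := [0, 7, 8, 9]
  lev := [⟨[], [], [(0, 4)], [2], [(1, 4, [5]), (2, 0, [])]⟩,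
    ⟨[], [(0, 0), (0, 4), (0, 5)], [(0, 0), (0, 5)], [2], [(2, 0, []), (3, 0, []), (4, 5,
      [4])]⟩,
    ⟨[(0, 1)], [(0, 0), (1, 0), (1, 1), (1, 5)], [(0, 0), (0, 1), (1, 1)], [6], [(2, 0,
      []), (3, 0, []), (5, 1, []), (6, 1, [])]⟩,
    ⟨[(1, 2)], [(2, 0), (2, 1)], [(1, 1)], [3], [(5, 1, []), (6, 1, [])]⟩,
    ⟨[(2, 3)], [(2, 1), (3, 1)], [], [3, 7], [(5, 1, [])]⟩]
  Ta := [((2, 1), 0, 4), ((2, 5), 0, 1), ((3, 4), 0, 5), ((3, 7), 0, 6), ((5, 2), 1, 0), ((5, 9),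
    1, 7), ((6, 7), 1, 6), ((6, 8), 1, 3)]
  Tb := [((0, 1, 4), 2, 4, 5), ((1, 0, 2), 4, 2, 0), ((2, 1, 5), 0, 4, 1), ((3, 4, 7), 0, 5, 6),
    ((4, 0, 3), 5, 2, 0), ((5, 2, 9), 1, 0, 7), ((6, 7, 8), 1, 6, 3), ((7, 3, 6), 6, 0, 1),
    ((8, 6, 9), 3, 1, 7), ((9, 5, 8), 7, 1, 3)]
  Tc := []
  Td := [((4, 5), (1, 0), 2), ((4, 5), (1, 2), 0), ((5, 4), (4, 0), 2), ((5, 4), (4, 3), 0)]
  G := [[0xca6a6ca4ca6a6ca8c, 0xca6a6ca4ca6c6ac8c, 0xc95c59c2c95c59c8a, 0xc95c59c4c95c59c8c,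
    0xc95c59c2c95c59c8a], [0, 0, 0x259639c2729259c46, 0x3ac259c46353a9c8c,
    0x295c29c2295a39c8a], [0, 0, 0xc95c59c4c95c59c8c, 0xc95c59cc95c59cc1,
    0xc95c59cc95c59ca1], [0, 0, 0x259a65c2c25295c8a, 0x295c29c2593a9cc1, 0x295c29c259295ca1]]

noncomputable def n189 : Ent := ⟨e189, noF, [], [], [(6, 14, [81620716623019490593592230936445690773474979418095884156929, 0])]⟩

def c189 : PLift (Cov.check n189.C.D v189 = true) := ⟨by decide +kernel⟩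

def b189 : PLift (entF (fidx ts) 400 189 n189 = true) := ⟨by decide +kernel⟩

theorem g189 : GoodF (fidx ts) 400 189 := GoodF.ofV v189 n189 c189.down b189.down

/-- 46754:175/1 -/
noncomputable def e190 : SCfg where
  D := {
    a := 5
    L := 9
    kp := 6
    inn := [(0, 1), (1, 0), (1, 2), (2, 1), (2, 3), (3, 2), (3, 4), (4, 3)]
    mix := [(0, 0), (0, 1), (0, 2), (1, 0), (1, 2), (1, 3), (1, 4), (2, 2), (2, 3), (2, 5), (2, 6), (2,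
      7), (3, 1), (3, 5), (3, 6), (4, 1), (4, 6), (4, 8)]
    cl := [1, 4, 0, 0, 2, 3, 3, 5, 6]
    chq := [(2, 4), (4, 2)]
    rng := [(0, 1), (0, 4), (1, 0), (1, 2), (1, 5), (1, 8), (2, 1), (2, 5), (3, 4), (3, 7), (4, 0), (4,
      3), (5, 1), (5, 2), (6, 7), (6, 8), (7, 3), (7, 6), (8, 1), (8, 6)]
    lev := [] }
  links := [[1, 5, 6, 7], [5, 0, 7, 2, 8, 9], [8, 1, 7, 10, 3, 11, 12], [11, 2, 10, 6, 4], [11, 3, 6,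
    13]]
  P := {
    a := 5
    N := 14
    nb := [226, 933, 7562, 3156, 10312, 579, 9401, 1095, 4614, 290, 204, 12316, 2308, 2128]
    tri := [(0, 1, 5), (0, 1, 7), (0, 5, 6), (0, 6, 7), (1, 2, 7), (1, 2, 8), (1, 5, 9), (1, 8, 9), (2,
      3, 10), (2, 3, 11), (2, 7, 10), (2, 8, 12), (2, 11, 12), (3, 4, 6), (3, 4, 11), (3, 6, 10),
      (4, 6, 13), (4, 11, 13)]
    fin := [0, 0, 2, 3, 0, 5, 0, 2, 2, 9, 3, 3, 12, 13]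
    chd := [(0, 9)]
    steps := [(0, 1), (0, 6), (0, 4), (2, 7), (2, 8), (3, 10), (3, 11)] }
  rep := [2, 5, 9, 3, 0, 12, 13]

noncomputable def v190 : Cov.CovD where
  P := 3
  N := 4
  pl := [0, 7, 8]
  lev := [⟨[], [], [(0, 4)], [1], [(1, 4, [2]), (2, 0, [])]⟩,
    ⟨[], [(0, 0), (0, 2), (0, 4)], [(0, 0), (0, 2)], [1], [(2, 0, []), (3, 0, []), (4, 2,
      [4])]⟩,
    ⟨[(0, 1)], [(0, 0), (1, 0), (1, 2), (1, 3)], [(0, 0), (0, 3), (3, 3)], [5], [(2, 0,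
      []), (3, 0, []), (5, 3, []), (6, 3, [])]⟩,
    ⟨[(1, 2)], [(0, 4), (2, 0), (2, 3), (2, 4)], [(3, 3), (3, 4)], [], [(1, 4, [2]), (5, 3,
      []), (6, 3, [])]⟩,
    ⟨[(2, 3)], [(0, 4), (2, 3), (3, 3), (3, 4)], [(3, 4)], [6], [(1, 4, [2]), (6, 3, [])]⟩]
  Ta := [((2, 1), 0, 4), ((2, 5), 0, 3), ((3, 4), 0, 2), ((3, 7), 0, 5), ((5, 1), 3, 4), ((5, 2),
    3, 0), ((6, 7), 3, 5), ((6, 8), 3, 6)]
  Tb := [((0, 1, 4), 1, 4, 2), ((1, 0, 2), 4, 1, 0), ((1, 0, 5), 4, 1, 3), ((1, 0, 8), 4, 1, 6),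
    ((1, 2, 5), 4, 0, 3), ((1, 2, 8), 4, 0, 6), ((1, 5, 8), 4, 3, 6), ((2, 1, 5), 0, 4, 3),
    ((3, 4, 7), 0, 2, 5), ((4, 0, 3), 2, 1, 0), ((5, 1, 2), 3, 4, 0), ((6, 7, 8), 3, 5, 6),
    ((7, 3, 6), 5, 0, 3), ((8, 1, 6), 6, 4, 3)]
  Tc := []
  Td := [((2, 4), (4, 0), 1), ((2, 4), (4, 3), 0), ((4, 2), (1, 0), 1), ((4, 2), (1, 2), 0), ((4,
    2), (1, 5), 3), ((4, 2), (1, 8), 6)]
  G := [[0, 0x1691a311c7e42, 0, 0x383192e4246b452e8c, 0x3467218afdc3e84], [0, 0xf1f1f1e82, 0,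
    0x91d7a31e4db65122d2fe8c, 0xca97c65ba63de84], [0, 0x71b1b1e42, 0x71b171e41, 0x3131d2e41,
    0x615151e81], [0, 0xf1f1f1e42, 0xf1f1f1e81, 0xf1f131e81, 0xf151f1e81]]

noncomputable def n190 : Ent := ⟨e190, noF, [], [], []⟩

def c190 : PLift (Cov.check n190.C.D v190 = true) := ⟨by decide +kernel⟩

def b190 : PLift (entF (fidx ts) 400 190 n190 = true) := ⟨by decide +kernel⟩

theorem g190 : GoodF (fidx ts) 400 190 := GoodF.ofV v190 n190 c190.down b190.down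

/-- The entries 0 to 190. -/
theorem rE0 : Rng (GoodF (fidx ts) 400) 0 191 :=
  ((((((((((((((((((((((((((((((((((((((((((((((((((((((((((((((((((((((((((((((((((((((((((((((((((((((((((((((((((((((((((((((((((((((((((((((((((((((((((((((((((((((((((((((((((((((((((((((((Rng.nil _ 0).snoc g0 rfl).snoc g1 rfl).snoc g2 rfl).snoc g3 rfl).snoc g4 rfl).snoc g5 rfl).snoc g6 rfl).snoc g7 rfl).snoc g8 rfl).snoc g9 rfl).snoc g10 rfl).snoc g11 rfl).snoc g12 rfl).snoc g13 rfl).snoc g14 rfl).snoc g15 rfl).snoc g16 rfl).snoc g17 rfl).snoc g18 rfl).snoc g19 rfl).snoc g20 rfl).snoc g21 rfl).snoc g22 rfl).snoc g23 rfl).snoc g24 rfl).snoc g25 rfl).snoc g26 rfl).snoc g27 rfl).snoc g28 rfl).snoc g29 rfl).snoc g30 rfl).snoc g31 rfl).snoc g32 rfl).snoc g33 rfl).snoc g34 rfl).snoc g35 rfl).snoc g36 rfl).snoc g37 rfl).snoc g38 rfl).snoc g39 rfl).snoc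 g40 rfl).snoc g41 rfl).snoc g42 rfl).snoc g43 rfl).snoc g44 rfl).snoc g45 rfl).snoc g46 rfl).snoc g47 rfl).snoc g48 rfl).snoc g49 rfl).snoc g50 rfl).snoc g51 rfl).snoc g52 rfl).snoc g53 rfl).snoc g54 rfl).snoc g55 rfl).snoc g56 rfl).snoc g57 rfl).snoc g58 rfl).snoc g59 rfl).snoc g60 rfl).snoc g61 rfl).snoc g62 rfl).snoc g63 rfl).snoc g64 rfl).snoc g65 rfl).snoc g66 rfl).snoc g67 rfl).snoc g68 rfl).snoc g69 rfl).snoc g70 rfl).snoc g71 rfl).snoc g72 rfl).snoc g73 rfl).snoc g74 rfl).snoc g75 rfl).snoc g76 rfl).snoc g77 rfl).snoc g78 rfl).snoc g79 rfl).snoc g80 rfl).snoc g81 rfl).snoc g82 rfl).snoc g83 rfl).snoc g84 rfl).snoc g85 rfl).snoc g86 rfl).snoc g87 rfl).snoc g88 rfl).snoc g89 rfl).snoc g90 rfl).snoc g91 rfl).snoc g92 rfl).snoc g93 rfl).snoc g94 rfl).snoc g95 rfl).snoc g96 rfl).snoc g97 rfl).snoc g98 rfl).snoc g99 rfl).snoc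 g100 rfl).snoc g101 rfl).snoc g102 rfl).snoc g103 rfl).snoc g104 rfl).snoc g105 rfl).snoc g106 rfl).snoc g107 rfl).snoc g108 rfl).snoc g109 rfl).snoc g110 rfl).snoc g111 rfl).snoc g112 rfl).snoc g113 rfl).snoc g114 rfl).snoc g115 rfl).snoc g116 rfl).snoc g117 rfl).snoc g118 rfl).snoc g119 rfl).snoc g120 rfl).snoc g121 rfl).snoc g122 rfl).snoc g123 rfl).snoc g124 rfl).snoc g125 rfl).snoc g126 rfl).snoc g127 rfl).snoc g128 rfl).snoc g129 rfl).snoc g130 rfl).snoc g131 rfl).snoc g132 rfl).snoc g133 rfl).snoc g134 rfl).snoc g135 rfl).snoc g136 rfl).snoc g137 rfl).snoc g138 rfl).snoc g139 rfl).snoc g140 rfl).snoc g141 rfl).snoc g142 rfl).snoc g143 rfl).snoc g144 rfl).snoc g145 rfl).snoc g146 rfl).snoc g147 rfl).snoc g148 rfl).snoc g149 rfl).snoc g150 rfl).snoc g151 rfl).snoc g152 rfl).snoc g153 rfl).snoc g154 rfl).snoc g155 rfl).snoc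 g156 rfl).snoc g157 rfl).snoc g158 rfl).snoc g159 rfl).snoc g160 rfl).snoc g161 rfl).snoc g162 rfl).snoc g163 rfl).snoc g164 rfl).snoc g165 rfl).snoc g166 rfl).snoc g167 rfl).snoc g168 rfl).snoc g169 rfl).snoc g170 rfl).snoc g171 rfl).snoc g172 rfl).snoc g173 rfl).snoc g174 rfl).snoc g175 rfl).snoc g176 rfl).snoc g177 rfl).snoc g178 rfl).snoc g179 rfl).snoc g180 rfl).snoc g181 rfl).snoc g182 rfl).snoc g183 rfl).snoc g184 rfl).snoc g185 rfl).snoc g186 rfl).snoc g187 rfl).snoc g188 rfl).snoc g189 rfl).snoc g190 rfl)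

end Pool.Agent.W986.ST.Dat
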