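import Pool.Agent.W986.Dat.Tab
import Pool.Agent.W986.SubAltB

/-!
# Entries 191 to 361 of the table
-/

set_option autoImplicit false

namespace Pool.Agent.W986.ST.Dat

/-- 46754:175 -/
noncomputable def e191 : SCfg where
  D := {
    a := 5
    L := 10
    kp := 7
    inn := [(0, 1), (1, 0), (1, 2), (2, 1), (2, 3), (3, 2), (3, 4), (4, 3)]
    mix := [(0, 0), (0, 1), (0, 2), (1, 0), (1, 2), (1, 3), (1, 4), (2, 2), (2, 3), (2, 5), (2, 6), (2,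
      7), (3, 5), (3, 6), (3, 8), (4, 6), (4, 8), (4, 9)]
    cl := [2, 4, 0, 0, 5, 1, 1, 6, 3, 7]
    chq := [(4, 5), (5, 4)]
    rng := [(0, 1), (0, 4), (1, 0), (1, 2), (2, 1), (2, 5), (3, 4), (3, 7), (4, 0), (4, 3), (5, 2), (5,
      8), (6, 7), (6, 9), (7, 3), (7, 6), (8, 5), (8, 9), (9, 6), (9, 8)]
    lev := [] }
  links := [[1, 5, 6, 7], [5, 0, 7, 2, 8, 9], [8, 1, 7, 10, 3, 11, 12], [11, 2, 10, 13, 4], [11, 3, 13,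
    14]]
  P := {
    a := 5
    N := 15
    nb := [226, 933, 7562, 11284, 26632, 579, 161, 1095, 4614, 290, 8332, 20508, 2308, 17432, 10256]
    tri := [(0, 1, 5), (0, 1, 7), (0, 5, 6), (0, 6, 7), (1, 2, 7), (1, 2, 8), (1, 5, 9), (1, 8, 9), (2,
      3, 10), (2, 3, 11), (2, 7, 10), (2, 8, 12), (2, 11, 12), (3, 4, 11), (3, 4, 13), (3, 10,
      13), (4, 11, 14), (4, 13, 14)]
    fin := [0, 0, 2, 3, 3, 5, 0, 2, 2, 9, 3, 3, 12, 13, 14]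
    chd := [(0, 9)]
    steps := [(0, 1), (0, 6), (2, 7), (2, 8), (3, 4), (3, 10), (3, 11)] }
  rep := [2, 3, 5, 13, 0, 9, 12, 14]

noncomputable def v191 : Cov.CovD where
  P := 3
  N := 5
  pl := [0, 7, 8, 9]
  lev := [⟨[], [], [(0, 4)], [2], [(1, 4, [5]), (2, 0, [])]⟩,
    ⟨[], [(0, 0), (0, 4), (0, 5)], [(0, 0), (0, 5)], [2], [(2, 0, []), (3, 0, []), (4, 5,
      [4])]⟩,
    ⟨[(0, 1)], [(0, 0), (1, 0), (1, 1), (1, 5)], [(0, 0), (0, 1), (1, 1)], [6], [(2, 0,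
      []), (3, 0, []), (5, 1, []), (6, 1, [])]⟩,
    ⟨[(1, 2)], [(2, 0), (2, 1)], [(1, 1)], [3], [(5, 1, []), (6, 1, [])]⟩,
    ⟨[(2, 3)], [(2, 1), (3, 1)], [], [3, 7], [(6, 1, [])]⟩]
  Ta := [((2, 1), 0, 4), ((2, 5), 0, 1), ((3, 4), 0, 5), ((3, 7), 0, 6), ((5, 2), 1, 0), ((5, 8),
    1, 3), ((6, 7), 1, 6), ((6, 9), 1, 7)]
  Tb := [((0, 1, 4), 2, 4, 5), ((1, 0, 2), 4, 2, 0), ((2, 1, 5), 0, 4, 1), ((3, 4, 7), 0, 5, 6),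
    ((4, 0, 3), 5, 2, 0), ((5, 2, 8), 1, 0, 3), ((6, 7, 9), 1, 6, 7), ((7, 3, 6), 6, 0, 1),
    ((8, 5, 9), 3, 1, 7), ((9, 6, 8), 7, 1, 3)]
  Tc := []
  Td := [((4, 5), (1, 0), 2), ((4, 5), (1, 2), 0), ((5, 4), (4, 0), 2), ((5, 4), (4, 3), 0)]
  G := [[0x11611ac411a11a68c, 0x181214e4141218e8c, 0x25c92cc2259c29c46, 0x25cc29c4c2592cc8c,
    0xc25c29c22953a5c8a], [0, 0, 0xc95c59c2c95c59c46, 0xc95c59c4c95c59c8c,
    0xc95c59c2c95c59c8a], [0, 0, 0xc25259c225cb29c46, 0xc25c29c25cc29cc1,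
    0x295a3ccc2592cca1], [0, 0, 0xc95c59c2c95c59c8a, 0xc95c59cc95c59cc1, 0xc95c59cc95c59ca1]]

noncomputable def n191 : Ent := ⟨e191, noF, [], [], [(6, 13, [87897818358406171357428020359653357189577334862559918678017, 0])]⟩

def c191 : PLift (Cov.check n191.C.D v191 = true) := ⟨by decide +kernel⟩

def b191 : PLift (entF (fidx ts) 400 191 n191 = true) := ⟨by decide +kernel⟩

theorem g191 : GoodF (fidx ts) 400 191 := GoodF.ofV v191 n191 c191.down b191.down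

/-- 46764:176 -/
noncomputable def e192 : SCfg where
  D := {
    a := 5
    L := 9
    kp := 7
    inn := [(0, 1), (0, 3), (1, 0), (1, 2), (1, 3), (2, 1), (2, 3), (2, 4), (3, 0), (3, 1), (3, 2), (4,
      2)]
    mix := [(0, 0), (0, 1), (1, 0), (1, 2), (1, 3), (2, 2), (2, 4), (2, 5), (2, 6), (3, 1), (3, 4), (3,
      7), (4, 5), (4, 6), (4, 8)]
    cl := [1, 2, 0, 7, 0, 3, 4, 5, 6]
    chq := [(0, 1), (0, 6), (1, 0), (1, 5), (5, 1), (6, 0)]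
    rng := [(0, 1), (0, 3), (1, 0), (1, 7), (2, 3), (2, 6), (3, 0), (3, 2), (4, 5), (4, 7), (5, 4), (5,
      8), (6, 2), (6, 8), (7, 1), (7, 4), (8, 5), (8, 6)]
    lev := [] }
  links := [[1, 5, 6, 3], [5, 0, 3, 2, 7, 8], [7, 1, 3, 9, 10, 4, 11], [9, 2, 1, 0, 6, 12], [11, 2, 10,
    13]]
  P := {
    a := 5
    N := 14
    nb := [106, 429, 3738, 4679, 11268, 323, 4137, 2310, 162, 5132, 8724, 8340, 584, 3088]
    tri := [(0, 1, 3), (0, 1, 5), (0, 3, 6), (0, 5, 6), (1, 2, 3), (1, 2, 7), (1, 5, 8), (1, 7, 8), (2,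
      3, 9), (2, 4, 10), (2, 4, 11), (2, 7, 11), (2, 9, 10), (3, 6, 12), (3, 9, 12), (4, 10, 13),
      (4, 11, 13)]
    fin := [0, 0, 2, 0, 2, 0, 6, 2, 8, 2, 10, 11, 12, 13]
    chd := [(0, 2), (0, 12), (2, 13)]
    steps := [(0, 1), (0, 3), (0, 5), (2, 4), (2, 9), (2, 7)] }
  rep := [2, 0, 6, 10, 11, 12, 13, 8]

noncomputable def v192 : Cov.CovD where
  P := 3
  N := 5
  pl := [1, 3, 5, 6]
  lev := [⟨[], [], [], [2], [(0, 1, [0, 5])]⟩,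
    ⟨[], [(0, 0), (0, 1)], [(0, 1)], [7], [(0, 1, [0, 5]), (2, 0, [1, 6])]⟩,
    ⟨[(0, 1)], [(1, 0), (1, 1)], [(0, 0)], [3, 4], [(2, 0, [1, 6]), (4, 0, [1, 6])]⟩,
    ⟨[(0, 1), (0, 2), (1, 2)], [(0, 0), (0, 1), (0, 5), (1, 0), (1, 1), (1, 5), (2, 0), (2,
      5)], [(0, 5)], [2], [(4, 0, [1, 6]), (7, 5, [1])]⟩,
    ⟨[(1, 2), (2, 3)], [(2, 0), (2, 6)], [], [3, 4], [(8, 6, [0])]⟩]
  Ta := [((2, 3), 0, 7), ((2, 6), 0, 4), ((4, 5), 0, 3), ((4, 7), 0, 5)]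
  Tb := [((0, 1, 3), 1, 2, 7), ((1, 0, 7), 2, 1, 5), ((2, 3, 6), 0, 7, 4), ((3, 0, 2), 7, 1, 0),
    ((4, 5, 7), 0, 3, 5), ((5, 4, 8), 3, 0, 6), ((6, 2, 8), 4, 0, 6), ((7, 1, 4), 5, 2, 0),
    ((8, 5, 6), 6, 3, 4)]
  Tc := [(0, 1, 6), (1, 0, 5)]
  Td := [((0, 1), (2, 3), 7), ((0, 1), (2, 6), 4), ((0, 1), (4, 5), 3), ((0, 1), (4, 7), 5), ((0,
    6), (2, 3), 7), ((0, 6), (2, 6), 4), ((0, 6), (4, 5), 3), ((0, 6), (4, 7), 5), ((1, 0),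
    (0, 1), 2), ((1, 0), (0, 3), 7), ((1, 5), (0, 1), 2), ((1, 5), (0, 3), 7), ((5, 1), (7,
    1), 2), ((5, 1), (7, 4), 0), ((6, 0), (8, 5), 3), ((6, 0), (8, 6), 4)]
  G := [[0, 0x111111e111111ea4, 0x324412d2bbcef255aacc, 0xd14d11171ec11b1a8c,
    0xd1b16d11271ec12889], [0, 0x111111e111111e68, 0x925233ce18, 0xd1c411dcb7ca1c,
    0xb27211ae18]]

noncomputable def n192 : Ent := ⟨e192, noF, [], [], []⟩

def c192 : PLift (Cov.check n192.C.D v192 = true) := ⟨by decide +kernel⟩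

def b192 : PLift (entF (fidx ts) 400 192 n192 = true) := ⟨by decide +kernel⟩

theorem g192 : GoodF (fidx ts) 400 192 := GoodF.ofV v192 n192 c192.down b192.down

/-- 46774:177 -/
noncomputable def e193 : SCfg where
  D := {
    a := 5
    L := 9
    kp := 7
    inn := [(0, 1), (0, 3), (1, 0), (1, 2), (1, 3), (2, 1), (2, 3), (2, 4), (3, 0), (3, 1), (3, 2), (3,
      4), (4, 2), (4, 3)]
    mix := [(0, 0), (0, 1), (1, 0), (1, 2), (1, 3), (2, 2), (2, 4), (2, 5), (2, 6), (3, 1), (3, 7), (3,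
      8), (4, 4), (4, 8)]
    cl := [1, 3, 0, 2, 0, 6, 7, 5, 4]
    chq := [(0, 3), (0, 5), (2, 3), (3, 0), (3, 2), (5, 0)]
    rng := [(0, 1), (0, 3), (1, 0), (1, 7), (2, 3), (2, 6), (3, 0), (3, 2), (4, 5), (4, 8), (5, 4), (5,
      6), (6, 2), (6, 5), (7, 1), (7, 8), (8, 4), (8, 7)]
    lev := [] }
  links := [[1, 5, 6, 3], [5, 0, 3, 2, 7, 8], [7, 1, 3, 4, 9, 10, 11], [4, 2, 1, 0, 6, 12, 13], [9, 2, 3,
    13]]
  P := {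
    a := 5
    N := 14
    nb := [106, 429, 3738, 12375, 8716, 323, 4137, 2310, 162, 9236, 2564, 1156, 8264, 4632]
    tri := [(0, 1, 3), (0, 1, 5), (0, 3, 6), (0, 5, 6), (1, 2, 3), (1, 2, 7), (1, 5, 8), (1, 7, 8), (2,
      3, 4), (2, 4, 9), (2, 7, 11), (2, 9, 10), (2, 10, 11), (3, 4, 13), (3, 6, 12), (3, 12, 13),
      (4, 9, 13)]
    fin := [0, 0, 2, 3, 3, 5, 0, 2, 8, 2, 10, 11, 3, 13]
    chd := [(0, 2), (0, 8), (2, 3)]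
    steps := [(0, 1), (0, 6), (2, 9), (2, 7), (3, 4), (3, 12)] }
  rep := [2, 5, 8, 0, 13, 3, 10, 11]

noncomputable def v193 : Cov.CovD where
  P := 3
  N := 5
  pl := [0, 5, 6, 8]
  lev := [⟨[], [], [], [1], [(1, 3, [0, 2])]⟩,
    ⟨[], [(0, 0), (0, 2), (0, 3)], [(0, 2)], [1], [(2, 0, [3, 5]), (3, 2, [3])]⟩,
    ⟨[(0, 1)], [(1, 0), (1, 2)], [(0, 0)], [6, 7], [(2, 0, [3, 5]), (4, 0, [3, 5])]⟩,
    ⟨[(0, 1), (0, 2), (1, 2)], [(0, 3), (0, 5), (1, 0), (1, 2), (1, 3), (1, 5), (2, 0), (2,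
      3), (2, 5)], [(3, 5)], [4], [(1, 3, [0, 2]), (7, 5, [0])]⟩,
    ⟨[(0, 3), (1, 2), (1, 3), (2, 3)], [(2, 0), (3, 0), (3, 3), (3, 5)], [], [4], [(4, 0,
      [3, 5])]⟩]
  Ta := [((2, 3), 0, 2), ((2, 6), 0, 7), ((4, 5), 0, 6), ((4, 8), 0, 4)]
  Tb := [((0, 1, 3), 1, 3, 2), ((1, 0, 7), 3, 1, 5), ((2, 3, 6), 0, 2, 7), ((3, 0, 2), 2, 1, 0),
    ((4, 5, 8), 0, 6, 4), ((5, 4, 6), 6, 0, 7), ((6, 2, 5), 7, 0, 6), ((7, 1, 8), 5, 3, 4),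
    ((8, 4, 7), 4, 0, 5)]
  Tc := [(0, 3, 5), (3, 0, 2)]
  Td := [((0, 3), (2, 3), 2), ((0, 3), (2, 6), 7), ((0, 3), (4, 5), 6), ((0, 3), (4, 8), 4), ((0,
    5), (2, 3), 2), ((0, 5), (2, 6), 7), ((0, 5), (4, 5), 6), ((0, 5), (4, 8), 4), ((2, 3),
    (3, 0), 1), ((2, 3), (3, 2), 0), ((3, 0), (1, 0), 1), ((3, 0), (1, 7), 5), ((3, 2), (1,
    0), 1), ((3, 2), (1, 7), 5), ((5, 0), (7, 1), 3), ((5, 0), (7, 8), 4)]
  G := [[0, 0x61a1a1e42, 0x61a161e41, 0xa1a161e461c1a1e8c, 0x61c161e84], [0,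
    0x4224822822c4424cf8a3426dece, 0, 0x944332cf82ab8accfec1, 0x246724cb488afe488924485]]

noncomputable def n193 : Ent := ⟨e193, noF, [], [], []⟩

def c193 : PLift (Cov.check n193.C.D v193 = true) := ⟨by decide +kernel⟩

def b193 : PLift (entF (fidx ts) 400 193 n193 = true) := ⟨by decide +kernel⟩

theorem g193 : GoodF (fidx ts) 400 193 := GoodF.ofV v193 n193 c193.down b193.down

/-- 46745:178/1 -/
noncomputable def e194 : SCfg where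
  D := {
    a := 5
    L := 9
    kp := 6
    inn := [(0, 1), (1, 0), (1, 2), (2, 1), (2, 3), (2, 4), (3, 2), (4, 2)]
    mix := [(0, 0), (0, 1), (0, 2), (1, 0), (1, 2), (1, 3), (1, 4), (2, 2), (2, 3), (2, 5), (2, 6), (3,
      5), (3, 6), (3, 7), (4, 1), (4, 2), (4, 5), (4, 8)]
    cl := [3, 4, 0, 0, 2, 0, 1, 5, 6]
    chq := [(0, 3), (3, 0)]
    rng := [(0, 1), (0, 4), (1, 0), (1, 2), (1, 8), (2, 1), (3, 4), (3, 6), (4, 0), (4, 3), (5, 7), (5,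
      8), (6, 3), (6, 7), (7, 5), (7, 6), (8, 1), (8, 5)]
    lev := [] }
  links := [[1, 5, 6, 7], [5, 0, 7, 2, 8, 9], [8, 1, 7, 4, 10, 3, 11], [11, 2, 10, 12], [10, 2, 7, 6,
    13]]
  P := {
    a := 5
    N := 14
    nb := [226, 933, 3482, 7172, 9412, 579, 8369, 87, 2566, 290, 12316, 4364, 3080, 1104]
    tri := [(0, 1, 5), (0, 1, 7), (0, 5, 6), (0, 6, 7), (1, 2, 7), (1, 2, 8), (1, 5, 9), (1, 8, 9), (2,
      3, 10), (2, 3, 11), (2, 4, 7), (2, 4, 10), (2, 8, 11), (3, 10, 12), (3, 11, 12), (4, 6, 7),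
      (4, 6, 13), (4, 10, 13)]
    fin := [0, 0, 2, 2, 4, 0, 4, 2, 2, 9, 2, 11, 12, 13]
    chd := [(0, 2)]
    steps := [(0, 1), (0, 5), (2, 3), (2, 7), (2, 10), (2, 8), (4, 6)] }
  rep := [2, 11, 9, 0, 4, 12, 13]

noncomputable def v194 : Cov.CovD where
  P := 3
  N := 4
  pl := [1, 4, 6, 7, 8]
  lev := [⟨[], [], [(0, 3)], [4], [(0, 3, [0]), (2, 0, [3])]⟩,
    ⟨[], [(0, 0), (0, 3)], [(0, 0), (0, 3)], [2], [(0, 3, [0]), (2, 0, [3]), (3, 0, [3])]⟩,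
    ⟨[(0, 1)], [(0, 0), (1, 0), (1, 3)], [(0, 0)], [1], [(2, 0, [3]), (3, 0, [3]), (5, 0,
      [3])]⟩,
    ⟨[(1, 2)], [(2, 0)], [], [1, 5], [(5, 0, [3])]⟩,
    ⟨[(1, 2), (2, 3)], [(0, 0), (1, 0), (2, 0), (3, 0)], [(0, 0)], [4, 6], [(2, 0, [3]),
      (5, 0, [3])]⟩]
  Ta := [((2, 1), 0, 4), ((3, 4), 0, 2), ((3, 6), 0, 1), ((5, 7), 0, 5), ((5, 8), 0, 6)]
  Tb := [((0, 1, 4), 3, 4, 2), ((1, 0, 2), 4, 3, 0), ((1, 0, 8), 4, 3, 6), ((1, 2, 8), 4, 0, 6),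
    ((3, 4, 6), 0, 2, 1), ((4, 0, 3), 2, 3, 0), ((5, 7, 8), 0, 5, 6), ((6, 3, 7), 1, 0, 5),
    ((7, 5, 6), 5, 0, 1), ((8, 1, 5), 6, 4, 0)]
  Tc := []
  Td := [((0, 3), (2, 1), 4), ((0, 3), (3, 4), 2), ((0, 3), (3, 6), 1), ((0, 3), (5, 7), 5), ((0,
    3), (5, 8), 6), ((3, 0), (0, 1), 4), ((3, 0), (0, 4), 2)]
  G := [[0, 0, 0, 0xe148e184614a14ce, 0xe148618c18ae142e], [0, 0xeec2ee68c1, 0xe14e18a1,
    0xc1486148e184b, 0xc142a1826181c87], [0, 0, 0, 0x8a54866c8464e8c2ac88ccd,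
    0x4cc88c2aac4244eacc87]]

noncomputable def n194 : Ent := ⟨e194, noF, [], [], []⟩

def c194 : PLift (Cov.check n194.C.D v194 = true) := ⟨by decide +kernel⟩

def b194 : PLift (entF (fidx ts) 400 194 n194 = true) := ⟨by decide +kernel⟩

theorem g194 : GoodF (fidx ts) 400 194 := GoodF.ofV v194 n194 c194.down b194.down

/-- 46745:178 -/
noncomputable def e195 : SCfg where
  D := {
    a := 5
    L := 10
    kp := 7
    inn := [(0, 1), (1, 0), (1, 2), (2, 1), (2, 3), (2, 4), (3, 2), (4, 2)]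
    mix := [(0, 0), (0, 1), (0, 2), (1, 0), (1, 2), (1, 3), (1, 4), (2, 2), (2, 3), (2, 5), (2, 6), (3,
      5), (3, 6), (3, 7), (4, 2), (4, 5), (4, 8), (4, 9)]
    cl := [1, 4, 0, 0, 2, 0, 3, 5, 6, 7]
    chq := [(0, 1), (1, 0)]
    rng := [(0, 1), (0, 4), (1, 0), (1, 2), (2, 1), (2, 8), (3, 4), (3, 6), (4, 0), (4, 3), (5, 7), (5,
      9), (6, 3), (6, 7), (7, 5), (7, 6), (8, 2), (8, 9), (9, 5), (9, 8)]
    lev := [] }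
  links := [[1, 5, 6, 7], [5, 0, 7, 2, 8, 9], [8, 1, 7, 4, 10, 3, 11], [11, 2, 10, 12], [10, 2, 7, 13,
    14]]
  P := {
    a := 5
    N := 15
    nb := [226, 933, 3482, 7172, 25732, 579, 161, 8279, 2566, 290, 20508, 4364, 3080, 16528, 9232]
    tri := [(0, 1, 5), (0, 1, 7), (0, 5, 6), (0, 6, 7), (1, 2, 7), (1, 2, 8), (1, 5, 9), (1, 8, 9), (2,
      3, 10), (2, 3, 11), (2, 4, 7), (2, 4, 10), (2, 8, 11), (3, 10, 12), (3, 11, 12), (4, 7, 13),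
      (4, 10, 14), (4, 13, 14)]
    fin := [0, 0, 2, 2, 2, 0, 6, 2, 2, 9, 2, 11, 12, 13, 14]
    chd := [(0, 2)]
    steps := [(0, 1), (0, 5), (2, 3), (2, 4), (2, 7), (2, 10), (2, 8)] }
  rep := [2, 0, 9, 11, 6, 12, 13, 14]

noncomputable def v195 : Cov.CovD where
  P := 3
  N := 5
  pl := [1, 4, 6, 7, 8, 9]
  lev := [⟨[], [], [(0, 1)], [4], [(0, 1, [0]), (2, 0, [1])]⟩,
    ⟨[], [(0, 0), (0, 1)], [(0, 0), (0, 1)], [2], [(0, 1, [0]), (2, 0, [1]), (3, 0, [1])]⟩,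
    ⟨[(0, 1)], [(0, 0), (1, 0), (1, 1)], [(0, 0)], [3], [(2, 0, [1]), (3, 0, [1]), (5, 0,
      [1])]⟩,
    ⟨[(1, 2)], [(2, 0)], [], [3, 5], [(5, 0, [1])]⟩,
    ⟨[(1, 2), (2, 3)], [(0, 0), (1, 0), (2, 0), (3, 0)], [(0, 0)], [6, 7], [(2, 0, [1]),
      (5, 0, [1])]⟩]
  Ta := [((2, 1), 0, 4), ((2, 8), 0, 6), ((3, 4), 0, 2), ((3, 6), 0, 3), ((5, 7), 0, 5), ((5, 9),
    0, 7)]
  Tb := [((0, 1, 4), 1, 4, 2), ((1, 0, 2), 4, 1, 0), ((2, 1, 8), 0, 4, 6), ((3, 4, 6), 0, 2, 3),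
    ((4, 0, 3), 2, 1, 0), ((5, 7, 9), 0, 5, 7), ((6, 3, 7), 3, 0, 5), ((7, 5, 6), 5, 0, 3),
    ((8, 2, 9), 6, 0, 7), ((9, 5, 8), 7, 0, 6)]
  Tc := []
  Td := [((0, 1), (2, 1), 4), ((0, 1), (2, 8), 6), ((0, 1), (3, 4), 2), ((0, 1), (3, 6), 3), ((0,
    1), (5, 7), 5), ((0, 1), (5, 9), 7), ((1, 0), (0, 1), 4), ((1, 0), (0, 4), 2)]
  G := [[0, 0xe1e1a4e1e1686, 0, 0xe1a141e4e1e1a4c, 0xe1e168e1e168c], [0, 0xe1e168e1e1a4c,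
    0xe1e1a41, 0xea4d4e5681, 0x2e5ec2b681], [0, 0xe1e1a4e1e168a, 0, 0x426ea2ee4cee81,
    0x426ea2ee4cee81]]

noncomputable def n195 : Ent := ⟨e195, noF, [], [], [(6, 13, [87897818358406171357428020359653357189577334862559918694401, 0])]⟩

def c195 : PLift (Cov.check n195.C.D v195 = true) := ⟨by decide +kernel⟩

def b195 : PLift (entF (fidx ts) 400 195 n195 = true) := ⟨by decide +kernel⟩

theorem g195 : GoodF (fidx ts) 400 195 := GoodF.ofV v195 n195 c195.down b195.down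

/-- 46745:179/1 -/
noncomputable def e196 : SCfg where
  D := {
    a := 5
    L := 9
    kp := 6
    inn := [(0, 1), (1, 0), (1, 2), (2, 1), (2, 3), (3, 2), (3, 4), (4, 3)]
    mix := [(0, 0), (0, 1), (0, 2), (1, 0), (1, 2), (1, 3), (1, 4), (2, 2), (2, 3), (2, 5), (2, 6), (2,
      7), (3, 6), (3, 7), (4, 1), (4, 6), (4, 7), (4, 8)]
    cl := [1, 4, 0, 0, 2, 5, 3, 3, 6]
    chq := [(2, 4), (4, 2)]
    rng := [(0, 1), (0, 4), (1, 0), (1, 2), (1, 6), (1, 8), (2, 1), (2, 5), (3, 4), (3, 7), (4, 0), (4,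
      3), (5, 2), (5, 6), (6, 1), (6, 5), (7, 3), (7, 8), (8, 1), (8, 7)]
    lev := [] }
  links := [[1, 5, 6, 7], [5, 0, 7, 2, 8, 9], [8, 1, 7, 10, 11, 3, 12], [12, 2, 11, 4], [12, 3, 11, 6,
    13]]
  P := {
    a := 5
    N := 14
    nb := [226, 933, 7562, 6164, 14408, 579, 10417, 1095, 4614, 290, 2180, 1116, 8476, 4176]
    tri := [(0, 1, 5), (0, 1, 7), (0, 5, 6), (0, 6, 7), (1, 2, 7), (1, 2, 8), (1, 5, 9), (1, 8, 9), (2,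
      3, 11), (2, 3, 12), (2, 7, 10), (2, 8, 12), (2, 10, 11), (3, 4, 11), (3, 4, 12), (4, 6, 11),
      (4, 6, 13), (4, 12, 13)]
    fin := [0, 0, 2, 3, 0, 5, 0, 2, 2, 9, 10, 3, 3, 13]
    chd := [(0, 9)]
    steps := [(0, 1), (0, 6), (0, 4), (2, 7), (2, 8), (3, 11), (3, 12)] }
  rep := [2, 5, 9, 3, 0, 10, 13]

noncomputable def v196 : Cov.CovD where
  P := 3
  N := 4
  pl := [0, 5, 8]
  lev := [⟨[], [], [(0, 4)], [1], [(1, 4, [2]), (2, 0, [])]⟩,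
    ⟨[], [(0, 0), (0, 2), (0, 4)], [(0, 0), (0, 2)], [1], [(2, 0, []), (3, 0, []), (4, 2,
      [4])]⟩,
    ⟨[(0, 1)], [(0, 0), (1, 0), (1, 2), (1, 3)], [(0, 0), (0, 3), (3, 3)], [5], [(2, 0,
      []), (3, 0, []), (6, 3, []), (7, 3, [])]⟩,
    ⟨[(1, 2)], [(2, 0), (2, 3)], [(3, 3)], [], [(6, 3, []), (7, 3, [])]⟩,
    ⟨[(2, 3)], [(0, 4), (2, 3), (3, 3), (3, 4)], [(3, 3), (3, 4)], [6], [(1, 4, [2]), (6,
      3, []), (7, 3, [])]⟩]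
  Ta := [((2, 1), 0, 4), ((2, 5), 0, 5), ((3, 4), 0, 2), ((3, 7), 0, 3), ((6, 1), 3, 4), ((6, 5),
    3, 5), ((7, 3), 3, 0), ((7, 8), 3, 6)]
  Tb := [((0, 1, 4), 1, 4, 2), ((1, 0, 2), 4, 1, 0), ((1, 0, 6), 4, 1, 3), ((1, 0, 8), 4, 1, 6),
    ((1, 2, 6), 4, 0, 3), ((1, 2, 8), 4, 0, 6), ((1, 6, 8), 4, 3, 6), ((2, 1, 5), 0, 4, 5),
    ((3, 4, 7), 0, 2, 3), ((4, 0, 3), 2, 1, 0), ((5, 2, 6), 5, 0, 3), ((6, 1, 5), 3, 4, 5),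
    ((7, 3, 8), 3, 0, 6), ((8, 1, 7), 6, 4, 3)]
  Tc := []
  Td := [((2, 4), (4, 0), 1), ((2, 4), (4, 3), 0), ((4, 2), (1, 0), 1), ((4, 2), (1, 2), 0), ((4,
    2), (1, 6), 3), ((4, 2), (1, 8), 6)]
  G := [[0, 0xf1f1963e42, 0, 0x91b1b1e4715171e8c, 0xf1f1f1e84], [0, 0xf1f1f1e42, 0,
    0x94f1523e4f158b1e8c, 0xf1f1f1e84], [0, 0xf1f1f1e42, 0x3c9f1f1e41, 0x78cf131e41,
    0xf151f1e81], [0, 0xad3c796f9e82, 0xf1f1f1e41, 0xf1c21be35e81, 0xeb5512dae81]]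

noncomputable def n196 : Ent := ⟨e196, noF, [], [], []⟩

def c196 : PLift (Cov.check n196.C.D v196 = true) := ⟨by decide +kernel⟩

def b196 : PLift (entF (fidx ts) 400 196 n196 = true) := ⟨by decide +kernel⟩

theorem g196 : GoodF (fidx ts) 400 196 := GoodF.ofV v196 n196 c196.down b196.down

/-- 46745:179/2 -/
noncomputable def e197 : SCfg where
  D := {
    a := 5
    L := 9
    kp := 6
    inn := [(0, 1), (1, 0), (1, 2), (2, 1), (2, 3), (3, 2), (3, 4), (4, 3)]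
    mix := [(0, 0), (0, 1), (0, 2), (1, 0), (1, 2), (1, 3), (1, 4), (2, 2), (2, 3), (2, 5), (2, 6), (2,
      7), (3, 6), (3, 7), (4, 4), (4, 6), (4, 7), (4, 8)]
    cl := [3, 4, 0, 0, 2, 5, 1, 1, 6]
    chq := [(2, 4), (4, 2)]
    rng := [(0, 1), (0, 4), (1, 0), (1, 2), (2, 1), (2, 5), (3, 4), (3, 7), (4, 0), (4, 3), (4, 7), (4,
      8), (5, 2), (5, 6), (6, 5), (6, 8), (7, 3), (7, 4), (8, 4), (8, 6)]
    lev := [] }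
  links := [[1, 5, 6, 7], [5, 0, 7, 2, 8, 9], [8, 1, 7, 10, 11, 3, 12], [12, 2, 11, 4], [12, 3, 11, 13,
    9]]
  P := {
    a := 5
    N := 14
    nb := [226, 933, 7562, 6164, 14856, 579, 161, 1095, 4614, 12594, 2180, 9244, 796, 2576]
    tri := [(0, 1, 5), (0, 1, 7), (0, 5, 6), (0, 6, 7), (1, 2, 7), (1, 2, 8), (1, 5, 9), (1, 8, 9), (2,
      3, 11), (2, 3, 12), (2, 7, 10), (2, 8, 12), (2, 10, 11), (3, 4, 11), (3, 4, 12), (4, 9, 12),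
      (4, 9, 13), (4, 11, 13)]
    fin := [0, 0, 2, 2, 4, 5, 0, 2, 2, 9, 10, 4, 4, 13]
    chd := [(0, 9)]
    steps := [(0, 1), (0, 6), (2, 3), (2, 7), (2, 8), (4, 11), (4, 12)] }
  rep := [2, 4, 9, 5, 0, 10, 13]

noncomputable def v197 : Cov.CovD where
  P := 3
  N := 4
  pl := [0, 5, 8]
  lev := [⟨[], [], [(0, 4)], [3], [(1, 4, [2]), (2, 0, [])]⟩,
    ⟨[], [(0, 0), (0, 2), (0, 4)], [(0, 0), (0, 2)], [3], [(2, 0, []), (3, 0, []), (4, 2,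
      [4])]⟩,
    ⟨[(0, 1)], [(0, 0), (1, 0), (1, 1), (1, 2)], [(0, 0), (0, 1), (1, 1)], [5], [(2, 0,
      []), (3, 0, []), (6, 1, []), (7, 1, [])]⟩,
    ⟨[(1, 2)], [(2, 0), (2, 1)], [(1, 1)], [], [(6, 1, []), (7, 1, [])]⟩,
    ⟨[(2, 3)], [(1, 2), (2, 1), (3, 1), (3, 2)], [(1, 1), (1, 2)], [6], [(4, 2, [4]), (6,
      1, []), (7, 1, [])]⟩]
  Ta := [((2, 1), 0, 4), ((2, 5), 0, 5), ((3, 4), 0, 2), ((3, 7), 0, 1), ((6, 5), 1, 5), ((6, 8),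
    1, 6), ((7, 3), 1, 0), ((7, 4), 1, 2)]
  Tb := [((0, 1, 4), 3, 4, 2), ((1, 0, 2), 4, 3, 0), ((2, 1, 5), 0, 4, 5), ((3, 4, 7), 0, 2, 1),
    ((4, 0, 3), 2, 3, 0), ((4, 0, 7), 2, 3, 1), ((4, 0, 8), 2, 3, 6), ((4, 3, 7), 2, 0, 1),
    ((4, 3, 8), 2, 0, 6), ((4, 7, 8), 2, 1, 6), ((5, 2, 6), 5, 0, 1), ((6, 5, 8), 1, 5, 6),
    ((7, 3, 4), 1, 0, 2), ((8, 4, 6), 6, 2, 1)]
  Tc := []
  Td := [((2, 4), (4, 0), 3), ((2, 4), (4, 3), 0), ((2, 4), (4, 7), 1), ((2, 4), (4, 8), 6), ((4,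
    2), (1, 0), 3), ((4, 2), (1, 2), 0)]
  G := [[0, 0, 0, 0, 0x9498c29191c9194ca9494c2e], [0, 0, 0, 0x5458c5158cc2,
    0x9498c29194c9198ca9191c8e], [0, 0, 0xc4c8cc4c1ca1, 0, 0x9494c29198c85], [0,
    0xc2c8c8c2c2c43, 0xc1c8cc4c8cc1, 0x5198c9158cc2, 0x9491c89198c25]]

noncomputable def n197 : Ent := ⟨e197, noF, [], [], []⟩

def c197 : PLift (Cov.check n197.C.D v197 = true) := ⟨by decide +kernel⟩

def b197 : PLift (entF (fidx ts) 400 197 n197 = true) := ⟨by decide +kernel⟩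

theorem g197 : GoodF (fidx ts) 400 197 := GoodF.ofV v197 n197 c197.down b197.down

/-- 46745:179 -/
noncomputable def e198 : SCfg where
  D := {
    a := 5
    L := 10
    kp := 7
    inn := [(0, 1), (1, 0), (1, 2), (2, 1), (2, 3), (3, 2), (3, 4), (4, 3)]
    mix := [(0, 0), (0, 1), (0, 2), (1, 0), (1, 2), (1, 3), (1, 4), (2, 2), (2, 3), (2, 5), (2, 6), (2,
      7), (3, 6), (3, 7), (4, 6), (4, 7), (4, 8), (4, 9)]
    cl := [1, 4, 0, 0, 2, 5, 3, 3, 6, 7]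
    chq := [(2, 4), (4, 2)]
    rng := [(0, 1), (0, 4), (1, 0), (1, 2), (2, 1), (2, 5), (3, 4), (3, 7), (4, 0), (4, 3), (5, 2), (5,
      6), (6, 5), (6, 8), (7, 3), (7, 9), (8, 6), (8, 9), (9, 7), (9, 8)]
    lev := [] }
  links := [[1, 5, 6, 7], [5, 0, 7, 2, 8, 9], [8, 1, 7, 10, 11, 3, 12], [12, 2, 11, 4], [12, 3, 11, 13,
    14]]
  P := {
    a := 5
    N := 15
    nb := [226, 933, 7562, 6164, 30728, 579, 161, 1095, 4614, 290, 2180, 9244, 16668, 18448, 12304]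
    tri := [(0, 1, 5), (0, 1, 7), (0, 5, 6), (0, 6, 7), (1, 2, 7), (1, 2, 8), (1, 5, 9), (1, 8, 9), (2,
      3, 11), (2, 3, 12), (2, 7, 10), (2, 8, 12), (2, 10, 11), (3, 4, 11), (3, 4, 12), (4, 11,
      13), (4, 12, 14), (4, 13, 14)]
    fin := [0, 0, 2, 2, 4, 5, 0, 2, 2, 9, 10, 4, 4, 13, 14]
    chd := [(0, 9)]
    steps := [(0, 1), (0, 6), (2, 3), (2, 7), (2, 8), (4, 11), (4, 12)] }
  rep := [2, 5, 9, 4, 0, 10, 13, 14]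

noncomputable def v198 : Cov.CovD where
  P := 3
  N := 5
  pl := [0, 5, 8, 9]
  lev := [⟨[], [], [(0, 4)], [1], [(1, 4, [2]), (2, 0, [])]⟩,
    ⟨[], [(0, 0), (0, 2), (0, 4)], [(0, 0), (0, 2)], [1], [(2, 0, []), (3, 0, []), (4, 2,
      [4])]⟩,
    ⟨[(0, 1)], [(0, 0), (1, 0), (1, 2), (1, 3)], [(0, 0), (0, 3), (3, 3)], [5], [(2, 0,
      []), (3, 0, []), (6, 3, []), (7, 3, [])]⟩,
    ⟨[(1, 2)], [(2, 0), (2, 3)], [(3, 3)], [], [(6, 3, []), (7, 3, [])]⟩,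
    ⟨[(2, 3)], [(2, 3), (3, 3)], [(3, 3)], [6, 7], [(6, 3, []), (7, 3, [])]⟩]
  Ta := [((2, 1), 0, 4), ((2, 5), 0, 5), ((3, 4), 0, 2), ((3, 7), 0, 3), ((6, 5), 3, 5), ((6, 8),
    3, 6), ((7, 3), 3, 0), ((7, 9), 3, 7)]
  Tb := [((0, 1, 4), 1, 4, 2), ((1, 0, 2), 4, 1, 0), ((2, 1, 5), 0, 4, 5), ((3, 4, 7), 0, 2, 3),
    ((4, 0, 3), 2, 1, 0), ((5, 2, 6), 5, 0, 3), ((6, 5, 8), 3, 5, 6), ((7, 3, 9), 3, 0, 7),
    ((8, 6, 9), 6, 3, 7), ((9, 7, 8), 7, 3, 6)]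
  Tc := []
  Td := [((2, 4), (4, 0), 1), ((2, 4), (4, 3), 0), ((4, 2), (1, 0), 1), ((4, 2), (1, 2), 0)]
  G := [[0, 0xf1f1f1e42, 0, 0xf1f167898cf1f1f1e8c, 0xf1f1f1e84], [0, 0xf1f1f1e82, 0,
    0xf1f1963e4f1f1f1e8c, 0xf1f1f1e84], [0, 0xf1f1f1e42, 0xf1f1f1e81, 0xf1f1f1e41,
    0xf1f1f1e81], [0, 0x2d34b4ed23e82, 0xf1f1f1e41, 0x4b54b4ea79e81, 0xdb63c5d23e81]]

noncomputable def n198 : Ent := ⟨e198, noF, [], [], [(6, 13, [87897818358406171357428020359653357189577334862559918702593, 0]), (14, 9, [81620716623019602097318223589561398452066342659903414095873, 0])]⟩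

def c198 : PLift (Cov.check n198.C.D v198 = true) := ⟨by decide +kernel⟩

def b198 : PLift (entF (fidx ts) 400 198 n198 = true) := ⟨by decide +kernel⟩

theorem g198 : GoodF (fidx ts) 400 198 := GoodF.ofV v198 n198 c198.down b198.down

/-- 46754:180/1 -/
noncomputable def e199 : SCfg where
  D := {
    a := 5
    L := 9
    kp := 6
    inn := [(0, 1), (1, 0), (1, 2), (2, 1), (2, 3), (2, 4), (3, 2), (4, 2)]
    mix := [(0, 0), (0, 1), (0, 2), (1, 0), (1, 2), (1, 3), (1, 4), (2, 2), (2, 3), (2, 5), (2, 6), (3,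
      5), (3, 6), (3, 7), (3, 8), (4, 1), (4, 2), (4, 5)]
    cl := [3, 2, 0, 0, 4, 1, 1, 5, 6]
    chq := [(0, 3), (3, 0)]
    rng := [(0, 1), (0, 4), (1, 0), (1, 2), (1, 5), (2, 1), (3, 4), (3, 6), (4, 0), (4, 3), (5, 1), (5,
      7), (6, 3), (6, 8), (7, 5), (7, 8), (8, 6), (8, 7)]
    lev := [] }
  links := [[1, 5, 6, 7], [5, 0, 7, 2, 8, 9], [8, 1, 7, 4, 10, 3, 11], [11, 2, 10, 12, 13], [10, 2, 7,
    6]]
  P := {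
    a := 5
    N := 14
    nb := [226, 933, 3482, 15364, 1220, 579, 1201, 87, 2566, 290, 4188, 8460, 9224, 6152]
    tri := [(0, 1, 5), (0, 1, 7), (0, 5, 6), (0, 6, 7), (1, 2, 7), (1, 2, 8), (1, 5, 9), (1, 8, 9), (2,
      3, 10), (2, 3, 11), (2, 4, 7), (2, 4, 10), (2, 8, 11), (3, 10, 12), (3, 11, 13), (3, 12,
      13), (4, 6, 7), (4, 6, 10)]
    fin := [0, 0, 2, 3, 4, 0, 4, 2, 2, 9, 3, 3, 12, 13]
    chd := [(0, 2)]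
    steps := [(0, 1), (0, 5), (2, 7), (2, 8), (3, 10), (3, 11), (4, 6)] }
  rep := [2, 3, 4, 0, 9, 12, 13]

noncomputable def v199 : Cov.CovD where
  P := 3
  N := 4
  pl := [1, 4, 7, 8]
  lev := [⟨[], [], [(0, 3)], [2], [(0, 3, [0]), (2, 0, [3])]⟩,
    ⟨[], [(0, 0), (0, 3)], [(0, 0), (0, 3)], [4], [(0, 3, [0]), (2, 0, [3]), (3, 0, [3])]⟩,
    ⟨[(0, 1)], [(0, 0), (1, 0), (1, 1), (1, 3)], [(0, 0), (0, 1), (1, 1)], [], [(2, 0,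
      [3]), (3, 0, [3]), (5, 1, []), (6, 1, [])]⟩,
    ⟨[(1, 2)], [(2, 0), (2, 1)], [(1, 1)], [5, 6], [(5, 1, []), (6, 1, [])]⟩,
    ⟨[(1, 2), (2, 3)], [(0, 0), (1, 0), (2, 0), (2, 1), (3, 1)], [(0, 1)], [2], [(2, 0,
      [3]), (5, 1, [])]⟩]
  Ta := [((2, 1), 0, 2), ((3, 4), 0, 4), ((3, 6), 0, 1), ((5, 1), 1, 2), ((5, 7), 1, 5), ((6, 3),
    1, 0), ((6, 8), 1, 6)]
  Tb := [((0, 1, 4), 3, 2, 4), ((1, 0, 2), 2, 3, 0), ((1, 0, 5), 2, 3, 1), ((1, 2, 5), 2, 0, 1),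
    ((3, 4, 6), 0, 4, 1), ((4, 0, 3), 4, 3, 0), ((5, 1, 7), 1, 2, 5), ((6, 3, 8), 1, 0, 6),
    ((7, 5, 8), 5, 1, 6), ((8, 6, 7), 6, 1, 5)]
  Tc := []
  Td := [((0, 3), (2, 1), 2), ((0, 3), (3, 4), 4), ((0, 3), (3, 6), 1), ((3, 0), (0, 1), 2), ((3,
    0), (0, 4), 4)]
  G := [[0, 0, 0x888d48444d84888d42e, 0x488d4488d8a488d8484d46c, 0x888d484889cc84889c888d46a],
    [0, 0, 0x482d48248d84428d82e, 0, 0x828d4228d8c288d8282d86a], [0, 0, 0,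
    0x881d48141d84888d42d, 0x118d48188d8288588c4b], [0, 0x448e2848e2488e4e1, 0, 0,
    0x888d48112d42282d84b]]

noncomputable def n199 : Ent := ⟨e199, noF, [], [], []⟩

def c199 : PLift (Cov.check n199.C.D v199 = true) := ⟨by decide +kernel⟩

def b199 : PLift (entF (fidx ts) 400 199 n199 = true) := ⟨by decide +kernel⟩

theorem g199 : GoodF (fidx ts) 400 199 := GoodF.ofV v199 n199 c199.down b199.down

/-- 46754:180 -/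
noncomputable def e200 : SCfg where
  D := {
    a := 5
    L := 10
    kp := 7
    inn := [(0, 1), (1, 0), (1, 2), (2, 1), (2, 3), (2, 4), (3, 2), (4, 2)]
    mix := [(0, 0), (0, 1), (0, 2), (1, 0), (1, 2), (1, 3), (1, 4), (2, 2), (2, 3), (2, 5), (2, 6), (3,
      5), (3, 6), (3, 7), (3, 8), (4, 2), (4, 5), (4, 9)]
    cl := [2, 3, 0, 0, 4, 1, 1, 5, 6, 7]
    chq := [(3, 4), (4, 3)]
    rng := [(0, 1), (0, 4), (1, 0), (1, 2), (2, 1), (2, 9), (3, 4), (3, 6), (4, 0), (4, 3), (5, 7), (5,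
      9), (6, 3), (6, 8), (7, 5), (7, 8), (8, 6), (8, 7), (9, 2), (9, 5)]
    lev := [] }
  links := [[1, 5, 6, 7], [5, 0, 7, 2, 8, 9], [8, 1, 7, 4, 10, 3, 11], [11, 2, 10, 12, 13], [10, 2, 7,
    14]]
  P := {
    a := 5
    N := 15
    nb := [226, 933, 3482, 15364, 17540, 579, 161, 16471, 2566, 290, 20508, 8460, 9224, 6152, 1168]
    tri := [(0, 1, 5), (0, 1, 7), (0, 5, 6), (0, 6, 7), (1, 2, 7), (1, 2, 8), (1, 5, 9), (1, 8, 9), (2,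
      3, 10), (2, 3, 11), (2, 4, 7), (2, 4, 10), (2, 8, 11), (3, 10, 12), (3, 11, 13), (3, 12,
      13), (4, 7, 14), (4, 10, 14)]
    fin := [0, 0, 2, 3, 2, 5, 0, 2, 2, 9, 3, 3, 12, 13, 14]
    chd := [(0, 9)]
    steps := [(0, 1), (0, 6), (2, 4), (2, 7), (2, 8), (3, 10), (3, 11)] }
  rep := [2, 3, 5, 0, 9, 12, 13, 14]

noncomputable def v200 : Cov.CovD where
  P := 3
  N := 5
  pl := [0, 7, 8, 9]
  lev := [⟨[], [], [(0, 3)], [2], [(1, 3, [4]), (2, 0, [])]⟩,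
    ⟨[], [(0, 0), (0, 3), (0, 4)], [(0, 0), (0, 4)], [2], [(2, 0, []), (3, 0, []), (4, 4,
      [3])]⟩,
    ⟨[(0, 1)], [(0, 0), (1, 0), (1, 1), (1, 4)], [(0, 0), (0, 1), (1, 1)], [], [(2, 0, []),
      (3, 0, []), (5, 1, []), (6, 1, [])]⟩,
    ⟨[(1, 2)], [(2, 0), (2, 1)], [(1, 1)], [5, 6], [(5, 1, []), (6, 1, [])]⟩,
    ⟨[(1, 2), (2, 3)], [(0, 0), (1, 0), (2, 0), (2, 1), (3, 1)], [(0, 1)], [7], [(2, 0,
      []), (5, 1, [])]⟩]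
  Ta := [((2, 1), 0, 3), ((2, 9), 0, 7), ((3, 4), 0, 4), ((3, 6), 0, 1), ((5, 7), 1, 5), ((5, 9),
    1, 7), ((6, 3), 1, 0), ((6, 8), 1, 6)]
  Tb := [((0, 1, 4), 2, 3, 4), ((1, 0, 2), 3, 2, 0), ((2, 1, 9), 0, 3, 7), ((3, 4, 6), 0, 4, 1),
    ((4, 0, 3), 4, 2, 0), ((5, 7, 9), 1, 5, 7), ((6, 3, 8), 1, 0, 6), ((7, 5, 8), 5, 1, 6),
    ((8, 6, 7), 6, 1, 5), ((9, 2, 5), 7, 0, 1)]
  Tc := []
  Td := [((3, 4), (1, 0), 2), ((3, 4), (1, 2), 0), ((4, 3), (4, 0), 2), ((4, 3), (4, 3), 0)]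
  G := [[0, 0, 0x44c8cdc24ccd88c46, 0x4ccd88c444c8cdc8c, 0xcc5c8c244c8cdc8a], [0, 0,
    0x222d82222d846, 0x222d84222d48c, 0x222d82222d48a], [0, 0, 0x111d84111d48c,
    0x111d84111d48c, 0x111d42111d48a], [0xccce24c6ce28c, 0xaace26cce2c1, 0x212d82112d846,
    0x222d4222d8c1, 0x222d4222d4a1]]

noncomputable def n200 : Ent := ⟨e200, noF, [], [], [(6, 14, [81620716623019490593592230936445690773474979418095884201985, 0])]⟩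

def c200 : PLift (Cov.check n200.C.D v200 = true) := ⟨by decide +kernel⟩

def b200 : PLift (entF (fidx ts) 400 200 n200 = true) := ⟨by decide +kernel⟩

theorem g200 : GoodF (fidx ts) 400 200 := GoodF.ofV v200 n200 c200.down b200.down

/-- 46754:181/1 -/
noncomputable def e201 : SCfg where
  D := {
    a := 5
    L := 9
    kp := 6
    inn := [(0, 1), (1, 0), (1, 2), (2, 1), (2, 3), (3, 2), (3, 4), (4, 3)]
    mix := [(0, 0), (0, 1), (0, 2), (1, 0), (1, 2), (1, 3), (1, 4), (2, 2), (2, 3), (2, 5), (2, 6), (2,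
      7), (3, 6), (3, 7), (3, 8), (4, 1), (4, 6), (4, 8)]
    cl := [3, 2, 0, 0, 5, 6, 1, 1, 4]
    chq := [(2, 5), (5, 2)]
    rng := [(0, 1), (0, 4), (1, 0), (1, 2), (1, 6), (1, 8), (2, 1), (2, 5), (3, 4), (3, 7), (4, 0), (4,
      3), (5, 2), (5, 6), (6, 1), (6, 5), (7, 3), (7, 8), (8, 1), (8, 7)]
    lev := [] }
  links := [[1, 5, 6, 7], [5, 0, 7, 2, 8, 9], [8, 1, 7, 10, 11, 3, 12], [12, 2, 11, 4, 13], [13, 3, 11,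
    6]]
  P := {
    a := 5
    N := 14
    nb := [226, 933, 7562, 14356, 10312, 579, 10417, 1095, 4614, 290, 2180, 1116, 8460, 4184]
    tri := [(0, 1, 5), (0, 1, 7), (0, 5, 6), (0, 6, 7), (1, 2, 7), (1, 2, 8), (1, 5, 9), (1, 8, 9), (2,
      3, 11), (2, 3, 12), (2, 7, 10), (2, 8, 12), (2, 10, 11), (3, 4, 11), (3, 4, 13), (3, 12,
      13), (4, 6, 11), (4, 6, 13)]
    fin := [0, 0, 2, 3, 0, 5, 0, 2, 2, 9, 10, 3, 3, 13]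
    chd := [(0, 9)]
    steps := [(0, 1), (0, 6), (0, 4), (2, 7), (2, 8), (3, 11), (3, 12)] }
  rep := [2, 3, 0, 5, 13, 9, 10]

noncomputable def v201 : Cov.CovD where
  P := 3
  N := 4
  pl := [0, 5, 8]
  lev := [⟨[], [], [(0, 2)], [3], [(1, 2, [5]), (2, 0, [])]⟩,
    ⟨[], [(0, 0), (0, 2), (0, 5)], [(0, 0), (0, 5)], [3], [(2, 0, []), (3, 0, []), (4, 5,
      [2])]⟩,
    ⟨[(0, 1)], [(0, 0), (1, 0), (1, 1), (1, 5)], [(0, 0), (0, 1), (1, 1)], [6], [(2, 0,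
      []), (3, 0, []), (6, 1, []), (7, 1, [])]⟩,
    ⟨[(1, 2)], [(2, 0), (2, 1)], [(1, 1)], [4], [(6, 1, []), (7, 1, [])]⟩,
    ⟨[(2, 3)], [(0, 2), (2, 1), (3, 1), (3, 2)], [(1, 2)], [4], [(1, 2, [5]), (6, 1, [])]⟩]
  Ta := [((2, 1), 0, 2), ((2, 5), 0, 6), ((3, 4), 0, 5), ((3, 7), 0, 1), ((6, 1), 1, 2), ((6, 5),
    1, 6), ((7, 3), 1, 0), ((7, 8), 1, 4)]
  Tb := [((0, 1, 4), 3, 2, 5), ((1, 0, 2), 2, 3, 0), ((1, 0, 6), 2, 3, 1), ((1, 0, 8), 2, 3, 4),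
    ((1, 2, 6), 2, 0, 1), ((1, 2, 8), 2, 0, 4), ((1, 6, 8), 2, 1, 4), ((2, 1, 5), 0, 2, 6),
    ((3, 4, 7), 0, 5, 1), ((4, 0, 3), 5, 3, 0), ((5, 2, 6), 6, 0, 1), ((6, 1, 5), 1, 2, 6),
    ((7, 3, 8), 1, 0, 4), ((8, 1, 7), 4, 2, 1)]
  Tc := []
  Td := [((2, 5), (1, 0), 3), ((2, 5), (1, 2), 0), ((2, 5), (1, 6), 1), ((2, 5), (1, 8), 4), ((5,
    2), (4, 0), 3), ((5, 2), (4, 3), 0)]
  G := [[0, 0, 0xc148494cc18c18cc18c14c1c1cee, 0x41581cc2485819c2c,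
    0x81c4815819cc948815819c9494cea], [0, 0, 0x84948294ca18a18ca18614a161cee, 0,
    0xa44219819cc348815219c94819cea], [0, 0, 0, 0x41981cc2485819c25,
    0x815819c19c819ca944815819cc3], [0, 0x12126182a1212a18861164462d, 0, 0,
    0x81c482858815815ca12c819c4b]]

noncomputable def n201 : Ent := ⟨e201, noF, [], [], []⟩

def c201 : PLift (Cov.check n201.C.D v201 = true) := ⟨by decide +kernel⟩

def b201 : PLift (entF (fidx ts) 400 201 n201 = true) := ⟨by decide +kernel⟩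

theorem g201 : GoodF (fidx ts) 400 201 := GoodF.ofV v201 n201 c201.down b201.down

/-- 46754:181 -/
noncomputable def e202 : SCfg where
  D := {
    a := 5
    L := 10
    kp := 7
    inn := [(0, 1), (1, 0), (1, 2), (2, 1), (2, 3), (3, 2), (3, 4), (4, 3)]
    mix := [(0, 0), (0, 1), (0, 2), (1, 0), (1, 2), (1, 3), (1, 4), (2, 2), (2, 3), (2, 5), (2, 6), (2,
      7), (3, 6), (3, 7), (3, 8), (4, 6), (4, 8), (4, 9)]
    cl := [2, 4, 0, 0, 5, 6, 1, 1, 3, 7]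
    chq := [(4, 5), (5, 4)]
    rng := [(0, 1), (0, 4), (1, 0), (1, 2), (2, 1), (2, 5), (3, 4), (3, 7), (4, 0), (4, 3), (5, 2), (5,
      6), (6, 5), (6, 9), (7, 3), (7, 8), (8, 7), (8, 9), (9, 6), (9, 8)]
    lev := [] }
  links := [[1, 5, 6, 7], [5, 0, 7, 2, 8, 9], [8, 1, 7, 10, 11, 3, 12], [12, 2, 11, 4, 13], [13, 3, 11,
    14]]
  P := {
    a := 5
    N := 15
    nb := [226, 933, 7562, 14356, 26632, 579, 161, 1095, 4614, 290, 2180, 17436, 8460, 20504, 10256]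
    tri := [(0, 1, 5), (0, 1, 7), (0, 5, 6), (0, 6, 7), (1, 2, 7), (1, 2, 8), (1, 5, 9), (1, 8, 9), (2,
      3, 11), (2, 3, 12), (2, 7, 10), (2, 8, 12), (2, 10, 11), (3, 4, 11), (3, 4, 13), (3, 12,
      13), (4, 11, 14), (4, 13, 14)]
    fin := [0, 0, 2, 3, 3, 5, 0, 2, 2, 9, 10, 3, 3, 13, 14]
    chd := [(0, 9)]
    steps := [(0, 1), (0, 6), (2, 7), (2, 8), (3, 4), (3, 11), (3, 12)] }
  rep := [2, 3, 5, 13, 0, 9, 10, 14]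

noncomputable def v202 : Cov.CovD where
  P := 3
  N := 5
  pl := [0, 5, 8, 9]
  lev := [⟨[], [], [(0, 4)], [2], [(1, 4, [5]), (2, 0, [])]⟩,
    ⟨[], [(0, 0), (0, 4), (0, 5)], [(0, 0), (0, 5)], [2], [(2, 0, []), (3, 0, []), (4, 5,
      [4])]⟩,
    ⟨[(0, 1)], [(0, 0), (1, 0), (1, 1), (1, 5)], [(0, 0), (0, 1), (1, 1)], [6], [(2, 0,
      []), (3, 0, []), (6, 1, []), (7, 1, [])]⟩,
    ⟨[(1, 2)], [(2, 0), (2, 1)], [(1, 1)], [3], [(6, 1, []), (7, 1, [])]⟩,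
    ⟨[(2, 3)], [(2, 1), (3, 1)], [], [3, 7], [(6, 1, [])]⟩]
  Ta := [((2, 1), 0, 4), ((2, 5), 0, 6), ((3, 4), 0, 5), ((3, 7), 0, 1), ((6, 5), 1, 6), ((6, 9),
    1, 7), ((7, 3), 1, 0), ((7, 8), 1, 3)]
  Tb := [((0, 1, 4), 2, 4, 5), ((1, 0, 2), 4, 2, 0), ((2, 1, 5), 0, 4, 6), ((3, 4, 7), 0, 5, 1),
    ((4, 0, 3), 5, 2, 0), ((5, 2, 6), 6, 0, 1), ((6, 5, 9), 1, 6, 7), ((7, 3, 8), 1, 0, 3),
    ((8, 7, 9), 3, 1, 7), ((9, 6, 8), 7, 1, 3)]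
  Tc := []
  Td := [((4, 5), (1, 0), 2), ((4, 5), (1, 2), 0), ((5, 4), (4, 0), 2), ((5, 4), (4, 3), 0)]
  G := [[0, 0, 0xc95c59c2c95c59c46, 0xc95c59c4c95c59c8c, 0xc95c59c2c95c59c8a], [0, 0,
    0x6a9c29c236c259c46, 0x295259c4295c59c8c, 0x63cc29c2c25259c8a], [0, 0,
    0xc95c59c2c95c59c46, 0xc95c59cc95c59cc1, 0xc95c59cc95c59ca1], [0x11a11ca211a11668a,
    0x11611a6181214ec1, 0xc25c29c4295c29c8c, 0x295c29c6a5c29cc1, 0x295c29c25992cca1]]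

noncomputable def n202 : Ent := ⟨e202, noF, [], [], [(6, 14, [81620716623019490593592230936445690773474979418095884210177, 0])]⟩

def c202 : PLift (Cov.check n202.C.D v202 = true) := ⟨by decide +kernel⟩

def b202 : PLift (entF (fidx ts) 400 202 n202 = true) := ⟨by decide +kernel⟩

theorem g202 : GoodF (fidx ts) 400 202 := GoodF.ofV v202 n202 c202.down b202.down

/-- 46754:182/1 -/
noncomputable def e203 : SCfg where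
  D := {
    a := 5
    L := 9
    kp := 6
    inn := [(0, 1), (1, 0), (1, 2), (2, 1), (2, 3), (3, 2), (3, 4), (4, 3)]
    mix := [(0, 0), (0, 1), (0, 2), (1, 0), (1, 2), (1, 3), (1, 4), (2, 2), (2, 3), (2, 5), (2, 6), (2,
      7), (3, 6), (3, 7), (3, 8), (4, 4), (4, 7), (4, 8)]
    cl := [3, 5, 0, 0, 2, 6, 1, 1, 4]
    chq := [(2, 5), (5, 2)]
    rng := [(0, 1), (0, 4), (1, 0), (1, 2), (2, 1), (2, 5), (3, 4), (3, 7), (4, 0), (4, 3), (4, 7), (4,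
      8), (5, 2), (5, 6), (6, 5), (6, 8), (7, 3), (7, 4), (8, 4), (8, 6)]
    lev := [] }
  links := [[1, 5, 6, 7], [5, 0, 7, 2, 8, 9], [8, 1, 7, 10, 11, 3, 12], [12, 2, 11, 13, 4], [12, 3, 13,
    9]]
  P := {
    a := 5
    N := 14
    nb := [226, 933, 7562, 14356, 12808, 579, 161, 1095, 4614, 12594, 2180, 9228, 796, 2584]
    tri := [(0, 1, 5), (0, 1, 7), (0, 5, 6), (0, 6, 7), (1, 2, 7), (1, 2, 8), (1, 5, 9), (1, 8, 9), (2,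
      3, 11), (2, 3, 12), (2, 7, 10), (2, 8, 12), (2, 10, 11), (3, 4, 12), (3, 4, 13), (3, 11,
      13), (4, 9, 12), (4, 9, 13)]
    fin := [0, 0, 2, 3, 3, 5, 0, 2, 2, 9, 10, 3, 3, 13]
    chd := [(0, 9)]
    steps := [(0, 1), (0, 6), (2, 7), (2, 8), (3, 4), (3, 11), (3, 12)] }
  rep := [2, 3, 9, 5, 13, 0, 10]

noncomputable def v203 : Cov.CovD where
  P := 3
  N := 4
  pl := [0, 5, 8]
  lev := [⟨[], [], [(0, 5)], [3], [(1, 5, [2]), (2, 0, [])]⟩,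
    ⟨[], [(0, 0), (0, 2), (0, 5)], [(0, 0), (0, 2)], [3], [(2, 0, []), (3, 0, []), (4, 2,
      [5])]⟩,
    ⟨[(0, 1)], [(0, 0), (1, 0), (1, 1), (1, 2)], [(0, 0), (0, 1), (1, 1)], [6], [(2, 0,
      []), (3, 0, []), (6, 1, []), (7, 1, [])]⟩,
    ⟨[(1, 2)], [(2, 0), (2, 1)], [(1, 1)], [4], [(6, 1, []), (7, 1, [])]⟩,
    ⟨[(2, 3)], [(1, 2), (2, 1), (3, 1), (3, 2)], [(1, 2)], [4], [(4, 2, [5]), (7, 1, [])]⟩]
  Ta := [((2, 1), 0, 5), ((2, 5), 0, 6), ((3, 4), 0, 2), ((3, 7), 0, 1), ((6, 5), 1, 6), ((6, 8),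
    1, 4), ((7, 3), 1, 0), ((7, 4), 1, 2)]
  Tb := [((0, 1, 4), 3, 5, 2), ((1, 0, 2), 5, 3, 0), ((2, 1, 5), 0, 5, 6), ((3, 4, 7), 0, 2, 1),
    ((4, 0, 3), 2, 3, 0), ((4, 0, 7), 2, 3, 1), ((4, 0, 8), 2, 3, 4), ((4, 3, 7), 2, 0, 1),
    ((4, 3, 8), 2, 0, 4), ((4, 7, 8), 2, 1, 4), ((5, 2, 6), 6, 0, 1), ((6, 5, 8), 1, 6, 4),
    ((7, 3, 4), 1, 0, 2), ((8, 4, 6), 4, 2, 1)]
  Tc := []
  Td := [((2, 5), (4, 0), 3), ((2, 5), (4, 3), 0), ((2, 5), (4, 7), 1), ((2, 5), (4, 8), 4), ((5,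
    2), (1, 0), 3), ((5, 2), (1, 2), 0)]
  G := [[0, 0, 0, 0, 0xa434c2815829c219285ca34819c2e], [0, 0, 0, 0x485815c419419cc2,
    0x944948a815819c815819ca81594c2e], [0, 0, 0x61a1cc1a1cc1, 0, 0x215819c8215215c25], [0,
    0x48684aa848684ca43, 0xc1c1cc1c1ca1, 0x485419c485849cc2, 0x81581cc2815819c85]]

noncomputable def n203 : Ent := ⟨e203, noF, [], [], []⟩

def c203 : PLift (Cov.check n203.C.D v203 = true) := ⟨by decide +kernel⟩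

def b203 : PLift (entF (fidx ts) 400 203 n203 = true) := ⟨by decide +kernel⟩

theorem g203 : GoodF (fidx ts) 400 203 := GoodF.ofV v203 n203 c203.down b203.down

/-- 46754:182 -/
noncomputable def e204 : SCfg where
  D := {
    a := 5
    L := 10
    kp := 7
    inn := [(0, 1), (1, 0), (1, 2), (2, 1), (2, 3), (3, 2), (3, 4), (4, 3)]
    mix := [(0, 0), (0, 1), (0, 2), (1, 0), (1, 2), (1, 3), (1, 4), (2, 2), (2, 3), (2, 5), (2, 6), (2,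
      7), (3, 6), (3, 7), (3, 8), (4, 7), (4, 8), (4, 9)]
    cl := [2, 4, 0, 0, 5, 6, 1, 1, 3, 7]
    chq := [(4, 5), (5, 4)]
    rng := [(0, 1), (0, 4), (1, 0), (1, 2), (2, 1), (2, 5), (3, 4), (3, 7), (4, 0), (4, 3), (5, 2), (5,
      6), (6, 5), (6, 8), (7, 3), (7, 9), (8, 6), (8, 9), (9, 7), (9, 8)]
    lev := [] }
  links := [[1, 5, 6, 7], [5, 0, 7, 2, 8, 9], [8, 1, 7, 10, 11, 3, 12], [12, 2, 11, 13, 4], [12, 3, 13,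
    14]]
  P := {
    a := 5
    N := 15
    nb := [226, 933, 7562, 14356, 28680, 579, 161, 1095, 4614, 290, 2180, 9228, 16668, 18456, 12304]
    tri := [(0, 1, 5), (0, 1, 7), (0, 5, 6), (0, 6, 7), (1, 2, 7), (1, 2, 8), (1, 5, 9), (1, 8, 9), (2,
      3, 11), (2, 3, 12), (2, 7, 10), (2, 8, 12), (2, 10, 11), (3, 4, 12), (3, 4, 13), (3, 11,
      13), (4, 12, 14), (4, 13, 14)]
    fin := [0, 0, 2, 3, 3, 5, 0, 2, 2, 9, 10, 3, 3, 13, 14]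
    chd := [(0, 9)]
    steps := [(0, 1), (0, 6), (2, 7), (2, 8), (3, 4), (3, 11), (3, 12)] }
  rep := [2, 3, 5, 13, 0, 9, 10, 14]

noncomputable def v204 : Cov.CovD where
  P := 3
  N := 5
  pl := [0, 5, 8, 9]
  lev := [⟨[], [], [(0, 4)], [2], [(1, 4, [5]), (2, 0, [])]⟩,
    ⟨[], [(0, 0), (0, 4), (0, 5)], [(0, 0), (0, 5)], [2], [(2, 0, []), (3, 0, []), (4, 5,
      [4])]⟩,
    ⟨[(0, 1)], [(0, 0), (1, 0), (1, 1), (1, 5)], [(0, 0), (0, 1), (1, 1)], [6], [(2, 0,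
      []), (3, 0, []), (6, 1, []), (7, 1, [])]⟩,
    ⟨[(1, 2)], [(2, 0), (2, 1)], [(1, 1)], [3], [(6, 1, []), (7, 1, [])]⟩,
    ⟨[(2, 3)], [(2, 1), (3, 1)], [], [3, 7], [(7, 1, [])]⟩]
  Ta := [((2, 1), 0, 4), ((2, 5), 0, 6), ((3, 4), 0, 5), ((3, 7), 0, 1), ((6, 5), 1, 6), ((6, 8),
    1, 3), ((7, 3), 1, 0), ((7, 9), 1, 7)]
  Tb := [((0, 1, 4), 2, 4, 5), ((1, 0, 2), 4, 2, 0), ((2, 1, 5), 0, 4, 6), ((3, 4, 7), 0, 5, 1),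
    ((4, 0, 3), 5, 2, 0), ((5, 2, 6), 6, 0, 1), ((6, 5, 8), 1, 6, 3), ((7, 3, 9), 1, 0, 7),
    ((8, 6, 9), 3, 1, 7), ((9, 7, 8), 7, 1, 3)]
  Tc := []
  Td := [((4, 5), (1, 0), 2), ((4, 5), (1, 2), 0), ((5, 4), (4, 0), 2), ((5, 4), (4, 3), 0)]
  G := [[0, 0, 0x295c29c4c2563cc8c, 0x639c29c4275c29c8c, 0x2ec63cc2295295c8a], [0, 0,
    0xc95c59c2c95c59c46, 0xc95c59c4c95c59c8c, 0xc95c59c2c95c59c8a], [0, 0,
    0x295259c2295c29c46, 0xc25259cc25259cc1, 0xc25259c295c29ca1], [0xca6a6ca4c6aa6c68c,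
    0xc6aa6c6ca6c6acc1, 0xc95c59c4c95c59c8c, 0xc95c59cc95c59cc1, 0xc95c59cc95c59ca1]]

noncomputable def n204 : Ent := ⟨e204, noF, [], [], [(14, 9, [81620716623019602097318223589561398452066342659903414120449, 0])]⟩

def c204 : PLift (Cov.check n204.C.D v204 = true) := ⟨by decide +kernel⟩

def b204 : PLift (entF (fidx ts) 400 204 n204 = true) := ⟨by decide +kernel⟩

theorem g204 : GoodF (fidx ts) 400 204 := GoodF.ofV v204 n204 c204.down b204.down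

/-- 46745:183/2 -/
noncomputable def e205 : SCfg where
  D := {
    a := 5
    L := 8
    kp := 5
    inn := [(0, 1), (1, 0), (1, 2), (2, 1), (2, 3), (2, 4), (3, 2), (4, 2)]
    mix := [(0, 0), (0, 1), (0, 2), (1, 0), (1, 2), (1, 3), (1, 4), (2, 2), (2, 3), (2, 5), (2, 6), (3,
      1), (3, 2), (3, 5), (4, 3), (4, 4), (4, 6), (4, 7)]
    cl := [3, 1, 0, 0, 2, 4, 0, 5]
    chq := [(0, 3), (3, 0)]
    rng := [(0, 1), (0, 4), (1, 0), (1, 2), (1, 5), (2, 1), (3, 4), (4, 0), (4, 3), (4, 7), (5, 1), (5,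
      6), (6, 5), (6, 7), (7, 4), (7, 6)]
    lev := [] }
  links := [[1, 5, 6, 7], [5, 0, 7, 2, 8, 9], [8, 1, 7, 3, 10, 11, 4], [10, 2, 7, 6], [8, 2, 11, 12, 9]]
  P := {
    a := 5
    N := 13
    nb := [226, 933, 3482, 1220, 6916, 579, 1193, 79, 534, 4402, 2124, 5140, 2576]
    tri := [(0, 1, 5), (0, 1, 7), (0, 5, 6), (0, 6, 7), (1, 2, 7), (1, 2, 8), (1, 5, 9), (1, 8, 9), (2,
      3, 7), (2, 3, 10), (2, 4, 8), (2, 4, 11), (2, 10, 11), (3, 6, 7), (3, 6, 10), (4, 8, 9), (4,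
      9, 12), (4, 11, 12)]
    fin := [0, 0, 2, 3, 2, 0, 3, 2, 2, 9, 10, 2, 12]
    chd := [(0, 2)]
    steps := [(0, 1), (0, 5), (2, 4), (2, 7), (2, 11), (2, 8), (3, 6)] }
  rep := [2, 3, 9, 0, 10, 12]

noncomputable def v205 : Cov.CovD where
  P := 3
  N := 3
  pl := [1, 4, 5, 7]
  lev := [⟨[], [], [(0, 3)], [1], [(0, 3, [0]), (2, 0, [3])]⟩,
    ⟨[], [(0, 0), (0, 3)], [(0, 0), (0, 3)], [2], [(0, 3, [0]), (2, 0, [3]), (3, 0, [3])]⟩,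
    ⟨[(0, 1)], [(0, 0), (1, 0), (1, 3)], [(0, 0)], [4], [(2, 0, [3]), (3, 0, [3]), (6, 0,
      [3])]⟩,
    ⟨[(1, 2)], [(0, 0), (1, 0), (2, 0)], [], [1, 4], [(2, 0, [3])]⟩,
    ⟨[(1, 2), (2, 3)], [(1, 0), (2, 0)], [(0, 0)], [2, 5], [(3, 0, [3]), (6, 0, [3])]⟩]
  Ta := [((2, 1), 0, 1), ((3, 4), 0, 2), ((6, 5), 0, 4), ((6, 7), 0, 5)]
  Tb := [((0, 1, 4), 3, 1, 2), ((1, 0, 2), 1, 3, 0), ((1, 0, 5), 1, 3, 4), ((1, 2, 5), 1, 0, 4),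
    ((4, 0, 3), 2, 3, 0), ((4, 0, 7), 2, 3, 5), ((4, 3, 7), 2, 0, 5), ((5, 1, 6), 4, 1, 0),
    ((6, 5, 7), 0, 4, 5), ((7, 4, 6), 5, 2, 0)]
  Tc := []
  Td := [((0, 3), (2, 1), 1), ((0, 3), (3, 4), 2), ((0, 3), (6, 5), 4), ((0, 3), (6, 7), 5), ((3,
    0), (0, 1), 1), ((3, 0), (0, 4), 2)]
  G := [[0, 0x48cc268c4c2a4c, 0, 0xc8ccc6848c8cca4c, 0xa4a86828a488e2c], [0, 0, 0xc12868a4c29,
    0xc8c168c1c1a4c, 0xa128a182a442d], [0, 0, 0, 0xc8c16848cc1a4c, 0xa4a168a1a4c2c]]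

noncomputable def n205 : Ent := ⟨e205, noF, [], [], []⟩

def c205 : PLift (Cov.check n205.C.D v205 = true) := ⟨by decide +kernel⟩

def b205 : PLift (entF (fidx ts) 400 205 n205 = true) := ⟨by decide +kernel⟩

theorem g205 : GoodF (fidx ts) 400 205 := GoodF.ofV v205 n205 c205.down b205.down

/-- 46745:183/1 -/
noncomputable def e206 : SCfg where
  D := {
    a := 5
    L := 9
    kp := 6
    inn := [(0, 1), (1, 0), (1, 2), (2, 1), (2, 3), (2, 4), (3, 2), (4, 2)]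
    mix := [(0, 0), (0, 1), (0, 2), (1, 0), (1, 2), (1, 3), (1, 4), (2, 2), (2, 3), (2, 5), (2, 6), (3,
      1), (3, 2), (3, 5), (4, 3), (4, 6), (4, 7), (4, 8)]
    cl := [3, 1, 0, 0, 4, 2, 0, 5, 6]
    chq := [(0, 3), (3, 0)]
    rng := [(0, 1), (0, 4), (1, 0), (1, 2), (1, 5), (2, 1), (3, 4), (3, 8), (4, 0), (4, 3), (5, 1), (5,
      6), (6, 5), (6, 7), (7, 6), (7, 8), (8, 3), (8, 7)]
    lev := [] }
  links := [[1, 5, 6, 7], [5, 0, 7, 2, 8, 9], [8, 1, 7, 3, 10, 11, 4], [10, 2, 7, 6], [8, 2, 11, 12, 13]]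
  P := {
    a := 5
    N := 14
    nb := [226, 933, 3482, 1220, 14596, 579, 1193, 79, 8726, 290, 2124, 5140, 10256, 4368]
    tri := [(0, 1, 5), (0, 1, 7), (0, 5, 6), (0, 6, 7), (1, 2, 7), (1, 2, 8), (1, 5, 9), (1, 8, 9), (2,
      3, 7), (2, 3, 10), (2, 4, 8), (2, 4, 11), (2, 10, 11), (3, 6, 7), (3, 6, 10), (4, 8, 13),
      (4, 11, 12), (4, 12, 13)]
    fin := [0, 0, 2, 3, 2, 0, 3, 2, 2, 9, 10, 2, 12, 13]
    chd := [(0, 2)]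
    steps := [(0, 1), (0, 5), (2, 4), (2, 7), (2, 11), (2, 8), (3, 6)] }
  rep := [2, 3, 10, 0, 9, 12, 13]

noncomputable def v206 : Cov.CovD where
  P := 3
  N := 4
  pl := [1, 4, 5, 7, 8]
  lev := [⟨[], [], [(0, 3)], [1], [(0, 3, [0]), (2, 0, [3])]⟩,
    ⟨[], [(0, 0), (0, 3)], [(0, 0), (0, 3)], [4], [(0, 3, [0]), (2, 0, [3]), (3, 0, [3])]⟩,
    ⟨[(0, 1)], [(0, 0), (1, 0), (1, 3)], [(0, 0)], [2], [(2, 0, [3]), (3, 0, [3]), (6, 0,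
      [3])]⟩,
    ⟨[(1, 2)], [(0, 0), (1, 0), (2, 0)], [], [1, 2], [(2, 0, [3])]⟩,
    ⟨[(1, 2), (2, 3)], [(1, 0), (2, 0)], [(0, 0)], [5, 6], [(3, 0, [3]), (6, 0, [3])]⟩]
  Ta := [((2, 1), 0, 1), ((3, 4), 0, 4), ((3, 8), 0, 6), ((6, 5), 0, 2), ((6, 7), 0, 5)]
  Tb := [((0, 1, 4), 3, 1, 4), ((1, 0, 2), 1, 3, 0), ((1, 0, 5), 1, 3, 2), ((1, 2, 5), 1, 0, 2),
    ((3, 4, 8), 0, 4, 6), ((4, 0, 3), 4, 3, 0), ((5, 1, 6), 2, 1, 0), ((6, 5, 7), 0, 2, 5),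
    ((7, 6, 8), 5, 0, 6), ((8, 3, 7), 6, 0, 5)]
  Tc := []
  Td := [((0, 3), (2, 1), 1), ((0, 3), (3, 4), 4), ((0, 3), (3, 8), 6), ((0, 3), (6, 5), 2), ((0,
    3), (6, 7), 5), ((3, 0), (0, 1), 1), ((3, 0), (0, 4), 4)]
  G := [[0, 0xe848e484e482e, 0, 0xe84e84a68c8e486c, 0xe8228c8aae8228c8a6c], [0, 0, 0,
    0xe848e484e482d, 0xe128e8246888a2d], [0, 0, 0xe848e48e8469, 0xe848e484e842d,
    0xe828e8246888a2d]]

noncomputable def n206 : Ent := ⟨e206, noF, [], [], [(13, 9, [18394062992729866707762557238593507017449233509442703361, 0])]⟩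

def c206 : PLift (Cov.check n206.C.D v206 = true) := ⟨by decide +kernel⟩

def b206 : PLift (entF (fidx ts) 400 206 n206 = true) := ⟨by decide +kernel⟩

theorem g206 : GoodF (fidx ts) 400 206 := GoodF.ofV v206 n206 c206.down b206.down

/-- 46745:183/3 -/
noncomputable def e207 : SCfg where
  D := {
    a := 5
    L := 9
    kp := 6
    inn := [(0, 1), (1, 0), (1, 2), (2, 1), (2, 3), (2, 4), (3, 2), (4, 2)]
    mix := [(0, 0), (0, 1), (0, 2), (1, 0), (1, 2), (1, 3), (1, 4), (2, 2), (2, 3), (2, 5), (2, 6), (3,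
      2), (3, 5), (3, 7), (4, 3), (4, 4), (4, 6), (4, 8)]
    cl := [3, 4, 0, 0, 1, 2, 0, 5, 6]
    chq := [(1, 4), (4, 1)]
    rng := [(0, 1), (0, 4), (1, 0), (1, 2), (2, 1), (2, 7), (3, 4), (4, 0), (4, 3), (4, 8), (5, 6), (5,
      7), (6, 5), (6, 8), (7, 2), (7, 5), (8, 4), (8, 6)]
    lev := [] }
  links := [[1, 5, 6, 7], [5, 0, 7, 2, 8, 9], [8, 1, 7, 3, 10, 11, 4], [10, 2, 7, 12], [8, 2, 11, 13, 9]]
  P := {
    a := 5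
    N := 14
    nb := [226, 933, 3482, 5252, 11012, 579, 161, 4175, 534, 8498, 6156, 9236, 1160, 2576]
    tri := [(0, 1, 5), (0, 1, 7), (0, 5, 6), (0, 6, 7), (1, 2, 7), (1, 2, 8), (1, 5, 9), (1, 8, 9), (2,
      3, 7), (2, 3, 10), (2, 4, 8), (2, 4, 11), (2, 10, 11), (3, 7, 12), (3, 10, 12), (4, 8, 9),
      (4, 9, 13), (4, 11, 13)]
    fin := [0, 0, 2, 2, 2, 5, 0, 2, 2, 9, 10, 2, 12, 13]
    chd := [(0, 9)]
    steps := [(0, 1), (0, 6), (2, 3), (2, 4), (2, 7), (2, 11), (2, 8)] }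
  rep := [2, 9, 10, 5, 0, 12, 13]

noncomputable def v207 : Cov.CovD where
  P := 3
  N := 4
  pl := [0, 5, 7, 8]
  lev := [⟨[], [], [(0, 4)], [3], [(1, 4, [1]), (2, 0, [])]⟩,
    ⟨[], [(0, 0), (0, 1), (0, 4)], [(0, 0), (0, 1)], [3], [(2, 0, []), (3, 0, []), (4, 1,
      [4])]⟩,
    ⟨[(0, 1)], [(0, 0), (1, 0), (1, 1)], [(0, 0)], [2], [(2, 0, []), (3, 0, []), (6, 0,
      [])]⟩,
    ⟨[(1, 2)], [(0, 0), (1, 0), (2, 0)], [], [2, 5], [(2, 0, [])]⟩,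
    ⟨[(1, 2), (2, 3)], [(1, 0), (1, 1), (2, 0), (2, 1)], [(0, 0), (0, 1)], [6], [(3, 0,
      []), (4, 1, [4]), (6, 0, [])]⟩]
  Ta := [((2, 1), 0, 4), ((2, 7), 0, 5), ((3, 4), 0, 1), ((6, 5), 0, 2), ((6, 8), 0, 6)]
  Tb := [((0, 1, 4), 3, 4, 1), ((1, 0, 2), 4, 3, 0), ((2, 1, 7), 0, 4, 5), ((4, 0, 3), 1, 3, 0),
    ((4, 0, 8), 1, 3, 6), ((4, 3, 8), 1, 0, 6), ((5, 6, 7), 2, 0, 5), ((6, 5, 8), 0, 2, 6),
    ((7, 2, 5), 5, 0, 2), ((8, 4, 6), 6, 1, 0)]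
  Tc := []
  Td := [((1, 4), (4, 0), 3), ((1, 4), (4, 3), 0), ((1, 4), (4, 8), 6), ((4, 1), (1, 0), 3), ((4,
    1), (1, 2), 0)]
  G := [[0, 0, 0, 0xc84c48cc84c48c44c8cc4cc88cce, 0xcca24c2c8a4cca2cca2ce], [0, 0xaac46cc8a1, 0,
    0xc1484cc88c43, 0xc128cca243], [0, 0, 0xcca48cc6843, 0xc1484cc88c43, 0xc124cca283]]

noncomputable def n207 : Ent := ⟨e207, noF, [], [], [(6, 12, [19926558533506552585326781773177673327977379185602383873, 0])]⟩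

def c207 : PLift (Cov.check n207.C.D v207 = true) := ⟨by decide +kernel⟩

def b207 : PLift (entF (fidx ts) 400 207 n207 = true) := ⟨by decide +kernel⟩

theorem g207 : GoodF (fidx ts) 400 207 := GoodF.ofV v207 n207 c207.down b207.down

/-- 46745:183 -/
noncomputable def e208 : SCfg where
  D := {
    a := 5
    L := 10
    kp := 7
    inn := [(0, 1), (1, 0), (1, 2), (2, 1), (2, 3), (2, 4), (3, 2), (4, 2)]
    mix := [(0, 0), (0, 1), (0, 2), (1, 0), (1, 2), (1, 3), (1, 4), (2, 2), (2, 3), (2, 5), (2, 6), (3,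
      2), (3, 5), (3, 7), (4, 3), (4, 6), (4, 8), (4, 9)]
    cl := [1, 3, 0, 0, 4, 2, 0, 5, 6, 7]
    chq := [(3, 4), (4, 3)]
    rng := [(0, 1), (0, 4), (1, 0), (1, 2), (2, 1), (2, 7), (3, 4), (3, 9), (4, 0), (4, 3), (5, 6), (5,
      7), (6, 5), (6, 8), (7, 2), (7, 5), (8, 6), (8, 9), (9, 3), (9, 8)]
    lev := [] }
  links := [[1, 5, 6, 7], [5, 0, 7, 2, 8, 9], [8, 1, 7, 3, 10, 11, 4], [10, 2, 7, 12], [8, 2, 11, 13,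
    14]]
  P := {
    a := 5
    N := 15
    nb := [226, 933, 3482, 5252, 26884, 579, 161, 4175, 16918, 290, 6156, 9236, 1160, 18448, 8464]
    tri := [(0, 1, 5), (0, 1, 7), (0, 5, 6), (0, 6, 7), (1, 2, 7), (1, 2, 8), (1, 5, 9), (1, 8, 9), (2,
      3, 7), (2, 3, 10), (2, 4, 8), (2, 4, 11), (2, 10, 11), (3, 7, 12), (3, 10, 12), (4, 8, 14),
      (4, 11, 13), (4, 13, 14)]
    fin := [0, 0, 2, 2, 2, 5, 0, 2, 2, 9, 10, 2, 12, 13, 14]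
    chd := [(0, 9)]
    steps := [(0, 1), (0, 6), (2, 3), (2, 4), (2, 7), (2, 11), (2, 8)] }
  rep := [2, 5, 10, 0, 9, 12, 13, 14]

noncomputable def v208 : Cov.CovD where
  P := 3
  N := 5
  pl := [0, 5, 7, 8, 9]
  lev := [⟨[], [], [(0, 3)], [1], [(1, 3, [4]), (2, 0, [])]⟩,
    ⟨[], [(0, 0), (0, 3), (0, 4)], [(0, 0), (0, 4)], [1], [(2, 0, []), (3, 0, []), (4, 4,
      [3])]⟩,
    ⟨[(0, 1)], [(0, 0), (1, 0), (1, 4)], [(0, 0)], [2], [(2, 0, []), (3, 0, []), (6, 0,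
      [])]⟩,
    ⟨[(1, 2)], [(0, 0), (1, 0), (2, 0)], [], [2, 5], [(2, 0, [])]⟩,
    ⟨[(1, 2), (2, 3)], [(1, 0), (2, 0)], [(0, 0)], [6, 7], [(3, 0, []), (6, 0, [])]⟩]
  Ta := [((2, 1), 0, 3), ((2, 7), 0, 5), ((3, 4), 0, 4), ((3, 9), 0, 7), ((6, 5), 0, 2), ((6, 8),
    0, 6)]
  Tb := [((0, 1, 4), 1, 3, 4), ((1, 0, 2), 3, 1, 0), ((2, 1, 7), 0, 3, 5), ((3, 4, 9), 0, 4, 7),
    ((4, 0, 3), 4, 1, 0), ((5, 6, 7), 2, 0, 5), ((6, 5, 8), 0, 2, 6), ((7, 2, 5), 5, 0, 2),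
    ((8, 6, 9), 6, 0, 7), ((9, 3, 8), 7, 0, 6)]
  Tc := []
  Td := [((3, 4), (1, 0), 1), ((3, 4), (1, 2), 0), ((4, 3), (4, 0), 1), ((4, 3), (4, 3), 0)]
  G := [[0, 0x44eacc26ec88c46, 0, 0x6ec88c444eacc8c, 0xe2e8a422ecaa8c], [0, 0xe184e148c, 0,
    0xe184e148c, 0xe124e128c], [0xeea42eec28a, 0xe142e1846, 0xeec2ee68c1, 0xe184e148c,
    0xe124e128c]]

noncomputable def n208 : Ent := ⟨e208, noF, [], [], [(6, 12, [87899350853947037246286378706680507498760953601682102345729, 0]), (14, 9, [81620716623019602097318223589561398452066342659903414136833, 0])]⟩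

def c208 : PLift (Cov.check n208.C.D v208 = true) := ⟨by decide +kernel⟩

def b208 : PLift (entF (fidx ts) 400 208 n208 = true) := ⟨by decide +kernel⟩

theorem g208 : GoodF (fidx ts) 400 208 := GoodF.ofV v208 n208 c208.down b208.down

/-- 46754:184/1 -/
noncomputable def e209 : SCfg where
  D := {
    a := 5
    L := 9
    kp := 6
    inn := [(0, 1), (1, 0), (1, 2), (2, 1), (2, 3), (2, 4), (3, 2), (4, 2)]
    mix := [(0, 0), (0, 1), (0, 2), (1, 0), (1, 2), (1, 3), (1, 4), (2, 2), (2, 3), (2, 5), (2, 6), (3,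
      1), (3, 2), (3, 5), (3, 7), (4, 3), (4, 6), (4, 8)]
    cl := [3, 1, 0, 0, 4, 0, 2, 5, 6]
    chq := [(0, 3), (3, 0)]
    rng := [(0, 1), (0, 4), (1, 0), (1, 2), (1, 7), (2, 1), (3, 4), (3, 8), (4, 0), (4, 3), (5, 6), (5,
      7), (6, 5), (6, 8), (7, 1), (7, 5), (8, 3), (8, 6)]
    lev := [] }
  links := [[1, 5, 6, 7], [5, 0, 7, 2, 8, 9], [8, 1, 7, 3, 10, 11, 4], [10, 2, 7, 6, 12], [8, 2, 11, 13]]
  P := {
    a := 5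
    N := 14
    nb := [226, 933, 3482, 5316, 10500, 579, 4265, 79, 8726, 290, 6156, 9236, 1096, 2320]
    tri := [(0, 1, 5), (0, 1, 7), (0, 5, 6), (0, 6, 7), (1, 2, 7), (1, 2, 8), (1, 5, 9), (1, 8, 9), (2,
      3, 7), (2, 3, 10), (2, 4, 8), (2, 4, 11), (2, 10, 11), (3, 6, 7), (3, 6, 12), (3, 10, 12),
      (4, 8, 13), (4, 11, 13)]
    fin := [0, 0, 2, 3, 2, 0, 3, 2, 2, 9, 2, 11, 12, 13]
    chd := [(0, 2)]
    steps := [(0, 1), (0, 5), (2, 4), (2, 7), (2, 10), (2, 8), (3, 6)] }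
  rep := [2, 3, 11, 0, 9, 12, 13]

noncomputable def v209 : Cov.CovD where
  P := 3
  N := 4
  pl := [1, 4, 6, 7, 8]
  lev := [⟨[], [], [(0, 3)], [1], [(0, 3, [0]), (2, 0, [3])]⟩,
    ⟨[], [(0, 0), (0, 3)], [(0, 0), (0, 3)], [4], [(0, 3, [0]), (2, 0, [3]), (3, 0, [3])]⟩,
    ⟨[(0, 1)], [(0, 0), (1, 0), (1, 3)], [(0, 0)], [2], [(2, 0, [3]), (3, 0, [3]), (5, 0,
      [3])]⟩,
    ⟨[(1, 2)], [(0, 0), (1, 0), (2, 0)], [(0, 0)], [1, 5], [(2, 0, [3]), (5, 0, [3])]⟩,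
    ⟨[(1, 2), (2, 3)], [(1, 0), (2, 0)], [], [2, 6], [(3, 0, [3])]⟩]
  Ta := [((2, 1), 0, 1), ((3, 4), 0, 4), ((3, 8), 0, 6), ((5, 6), 0, 2), ((5, 7), 0, 5)]
  Tb := [((0, 1, 4), 3, 1, 4), ((1, 0, 2), 1, 3, 0), ((1, 0, 7), 1, 3, 5), ((1, 2, 7), 1, 0, 5),
    ((3, 4, 8), 0, 4, 6), ((4, 0, 3), 4, 3, 0), ((5, 6, 7), 0, 2, 5), ((6, 5, 8), 2, 0, 6),
    ((7, 1, 5), 5, 1, 0), ((8, 3, 6), 6, 0, 2)]
  Tc := []
  Td := [((0, 3), (2, 1), 1), ((0, 3), (3, 4), 4), ((0, 3), (3, 8), 6), ((0, 3), (5, 6), 2), ((0,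
    3), (5, 7), 5), ((3, 0), (0, 1), 1), ((3, 0), (0, 4), 4)]
  G := [[0, 0x11c4811c8411a82e, 0, 0x11c411c4a11c811c46c, 0x11c211c2a11c811c26c], [0, 0, 0,
    0xc9c485cc84448884c4c8ced, 0xaac28aac242ac88a2d], [0, 0, 0xc6c2c6c2ccc2e1,
    0x11c4811c8411c82d, 0x11c2811c2411c82d]]

noncomputable def n209 : Ent := ⟨e209, noF, [], [], []⟩

def c209 : PLift (Cov.check n209.C.D v209 = true) := ⟨by decide +kernel⟩

def b209 : PLift (entF (fidx ts) 400 209 n209 = true) := ⟨by decide +kernel⟩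

theorem g209 : GoodF (fidx ts) 400 209 := GoodF.ofV v209 n209 c209.down b209.down

/-- 46754:184 -/
noncomputable def e210 : SCfg where
  D := {
    a := 5
    L := 10
    kp := 7
    inn := [(0, 1), (1, 0), (1, 2), (2, 1), (2, 3), (2, 4), (3, 2), (4, 2)]
    mix := [(0, 0), (0, 1), (0, 2), (1, 0), (1, 2), (1, 3), (1, 4), (2, 2), (2, 3), (2, 5), (2, 6), (3,
      2), (3, 5), (3, 7), (3, 8), (4, 3), (4, 6), (4, 9)]
    cl := [1, 4, 0, 0, 2, 0, 3, 5, 6, 7]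
    chq := [(0, 1), (1, 0)]
    rng := [(0, 1), (0, 4), (1, 0), (1, 2), (2, 1), (2, 7), (3, 4), (3, 9), (4, 0), (4, 3), (5, 6), (5,
      8), (6, 5), (6, 9), (7, 2), (7, 8), (8, 5), (8, 7), (9, 3), (9, 6)]
    lev := [] }
  links := [[1, 5, 6, 7], [5, 0, 7, 2, 8, 9], [8, 1, 7, 3, 10, 11, 4], [10, 2, 7, 12, 13], [8, 2, 11,
    14]]
  P := {
    a := 5
    N := 15
    nb := [226, 933, 3482, 13444, 18692, 579, 161, 4175, 16918, 290, 10252, 17428, 8328, 5128, 2320]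
    tri := [(0, 1, 5), (0, 1, 7), (0, 5, 6), (0, 6, 7), (1, 2, 7), (1, 2, 8), (1, 5, 9), (1, 8, 9), (2,
      3, 7), (2, 3, 10), (2, 4, 8), (2, 4, 11), (2, 10, 11), (3, 7, 12), (3, 10, 13), (3, 12, 13),
      (4, 8, 14), (4, 11, 14)]
    fin := [0, 0, 2, 2, 2, 0, 6, 2, 2, 9, 2, 11, 12, 13, 14]
    chd := [(0, 2)]
    steps := [(0, 1), (0, 5), (2, 3), (2, 4), (2, 7), (2, 10), (2, 8)] }
  rep := [2, 0, 9, 11, 6, 12, 13, 14]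

noncomputable def v210 : Cov.CovD where
  P := 3
  N := 5
  pl := [1, 4, 6, 7, 8, 9]
  lev := [⟨[], [], [(0, 1)], [4], [(0, 1, [0]), (2, 0, [1])]⟩,
    ⟨[], [(0, 0), (0, 1)], [(0, 0), (0, 1)], [2], [(0, 1, [0]), (2, 0, [1]), (3, 0, [1])]⟩,
    ⟨[(0, 1)], [(0, 0), (1, 0), (1, 1)], [(0, 0)], [3], [(2, 0, [1]), (3, 0, [1]), (5, 0,
      [1])]⟩,
    ⟨[(1, 2)], [(0, 0), (1, 0), (2, 0)], [(0, 0)], [5, 6], [(2, 0, [1]), (5, 0, [1])]⟩,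
    ⟨[(1, 2), (2, 3)], [(1, 0), (2, 0)], [], [3, 7], [(3, 0, [1])]⟩]
  Ta := [((2, 1), 0, 4), ((2, 7), 0, 5), ((3, 4), 0, 2), ((3, 9), 0, 7), ((5, 6), 0, 3), ((5, 8),
    0, 6)]
  Tb := [((0, 1, 4), 1, 4, 2), ((1, 0, 2), 4, 1, 0), ((2, 1, 7), 0, 4, 5), ((3, 4, 9), 0, 2, 7),
    ((4, 0, 3), 2, 1, 0), ((5, 6, 8), 0, 3, 6), ((6, 5, 9), 3, 0, 7), ((7, 2, 8), 5, 0, 6),
    ((8, 5, 7), 6, 0, 5), ((9, 3, 6), 7, 0, 3)]
  Tc := []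
  Td := [((0, 1), (2, 1), 4), ((0, 1), (2, 7), 5), ((0, 1), (3, 4), 2), ((0, 1), (3, 9), 7), ((0,
    1), (5, 6), 3), ((0, 1), (5, 8), 6), ((1, 0), (0, 1), 4), ((1, 0), (0, 4), 2)]
  G := [[0, 0x111e48111e84111e28e, 0, 0x111e111e68111e111e68c, 0x111e111e68111e111e68c], [0,
    0x111e111e68111e1211ce4a, 0xc6a4ca6a6cac1, 0xc6aa6c6ca68c1, 0x426c8eeae8ee81], [0,
    0x111e48111e24111e84e, 0, 0xc1ce1a1e681, 0xb9ce131e681]]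

noncomputable def n210 : Ent := ⟨e210, noF, [], [], [(6, 12, [87899350853947037246286378706680507498760953601682102358017, 0])]⟩

def c210 : PLift (Cov.check n210.C.D v210 = true) := ⟨by decide +kernel⟩

def b210 : PLift (entF (fidx ts) 400 210 n210 = true) := ⟨by decide +kernel⟩

theorem g210 : GoodF (fidx ts) 400 210 := GoodF.ofV v210 n210 c210.down b210.down

/-- 46754:185/1 -/
noncomputable def e211 : SCfg where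
  D := {
    a := 5
    L := 9
    kp := 6
    inn := [(0, 1), (1, 0), (1, 2), (2, 1), (2, 3), (3, 2), (3, 4), (4, 3)]
    mix := [(0, 0), (0, 1), (0, 2), (1, 0), (1, 2), (1, 3), (1, 4), (2, 2), (2, 3), (2, 5), (2, 6), (2,
      7), (3, 2), (3, 5), (3, 8), (4, 1), (4, 2), (4, 8)]
    cl := [1, 3, 0, 0, 2, 0, 5, 6, 4]
    chq := [(2, 3), (3, 2)]
    rng := [(0, 1), (0, 4), (1, 0), (1, 2), (1, 8), (2, 1), (3, 4), (3, 7), (4, 0), (4, 3), (5, 6), (5,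
      8), (6, 5), (6, 7), (7, 3), (7, 6), (8, 1), (8, 5)]
    lev := [] }
  links := [[1, 5, 6, 7], [5, 0, 7, 2, 8, 9], [8, 1, 7, 3, 10, 11, 12], [10, 2, 7, 4, 13], [13, 3, 7, 6]]
  P := {
    a := 5
    N := 14
    nb := [226, 933, 7562, 9364, 8392, 579, 8369, 95, 4614, 290, 10252, 5124, 2308, 1112]
    tri := [(0, 1, 5), (0, 1, 7), (0, 5, 6), (0, 6, 7), (1, 2, 7), (1, 2, 8), (1, 5, 9), (1, 8, 9), (2,
      3, 7), (2, 3, 10), (2, 8, 12), (2, 10, 11), (2, 11, 12), (3, 4, 7), (3, 4, 13), (3, 10, 13),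
      (4, 6, 7), (4, 6, 13)]
    fin := [0, 0, 2, 0, 0, 5, 0, 2, 2, 9, 2, 11, 12, 13]
    chd := [(0, 9)]
    steps := [(0, 1), (0, 6), (0, 4), (2, 7), (0, 3), (2, 10), (2, 8)] }
  rep := [2, 5, 9, 0, 13, 11, 12]

noncomputable def v211 : Cov.CovD where
  P := 3
  N := 4
  pl := [0, 6, 7, 8]
  lev := [⟨[], [], [(0, 3)], [1], [(1, 3, [2]), (2, 0, [])]⟩,
    ⟨[], [(0, 0), (0, 2), (0, 3)], [(0, 0), (0, 2)], [1], [(2, 0, []), (3, 0, []), (4, 2,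
      [3])]⟩,
    ⟨[(0, 1)], [(0, 0), (1, 0), (1, 2)], [(0, 0)], [5, 6], [(2, 0, []), (3, 0, []), (5, 0,
      [])]⟩,
    ⟨[(1, 2)], [(0, 0), (1, 0), (2, 0)], [(0, 0)], [4], [(2, 0, []), (5, 0, [])]⟩,
    ⟨[(2, 3)], [(0, 0), (0, 3), (1, 0), (2, 0), (3, 0), (3, 3)], [(0, 3)], [4], [(1, 3,
      [2]), (2, 0, [])]⟩]
  Ta := [((2, 1), 0, 3), ((3, 4), 0, 2), ((3, 7), 0, 6), ((5, 6), 0, 5), ((5, 8), 0, 4)]
  Tb := [((0, 1, 4), 1, 3, 2), ((1, 0, 2), 3, 1, 0), ((1, 0, 8), 3, 1, 4), ((1, 2, 8), 3, 0, 4),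
    ((3, 4, 7), 0, 2, 6), ((4, 0, 3), 2, 1, 0), ((5, 6, 8), 0, 5, 4), ((6, 5, 7), 5, 0, 6),
    ((7, 3, 6), 6, 0, 5), ((8, 1, 5), 4, 3, 0)]
  Tc := []
  Td := [((2, 3), (4, 0), 1), ((2, 3), (4, 3), 0), ((3, 2), (1, 0), 1), ((3, 2), (1, 2), 0), ((3,
    2), (1, 8), 4)]
  G := [[0, 0xca6c6aa6ce82, 0, 0x82682a82ce442642a24ce8c, 0xca6c6aa6ce84], [0, 0x11c11a11ce42,
    0xca6c6aa6ce41, 0xc26c2aa6ce81, 0x11611611ae84], [0, 0x1a616a16ce82, 0, 0xc26c2ae2ce41,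
    0xca6c6aa6ce81]]

noncomputable def n211 : Ent := ⟨e211, noF, [], [], []⟩

def c211 : PLift (Cov.check n211.C.D v211 = true) := ⟨by decide +kernel⟩

def b211 : PLift (entF (fidx ts) 400 211 n211 = true) := ⟨by decide +kernel⟩

theorem g211 : GoodF (fidx ts) 400 211 := GoodF.ofV v211 n211 c211.down b211.down

/-- 46754:185 -/
noncomputable def e212 : SCfg where
  D := {
    a := 5
    L := 10
    kp := 7
    inn := [(0, 1), (1, 0), (1, 2), (2, 1), (2, 3), (3, 2), (3, 4), (4, 3)]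
    mix := [(0, 0), (0, 1), (0, 2), (1, 0), (1, 2), (1, 3), (1, 4), (2, 2), (2, 3), (2, 5), (2, 6), (2,
      7), (3, 2), (3, 5), (3, 8), (4, 2), (4, 8), (4, 9)]
    cl := [1, 4, 0, 0, 2, 0, 5, 6, 3, 7]
    chq := [(2, 4), (4, 2)]
    rng := [(0, 1), (0, 4), (1, 0), (1, 2), (2, 1), (2, 9), (3, 4), (3, 7), (4, 0), (4, 3), (5, 6), (5,
      8), (6, 5), (6, 7), (7, 3), (7, 6), (8, 5), (8, 9), (9, 2), (9, 8)]
    lev := [] }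
  links := [[1, 5, 6, 7], [5, 0, 7, 2, 8, 9], [8, 1, 7, 3, 10, 11, 12], [10, 2, 7, 4, 13], [13, 3, 7,
    14]]
  P := {
    a := 5
    N := 15
    nb := [226, 933, 7562, 9364, 24712, 579, 161, 16479, 4614, 290, 10252, 5124, 2308, 17432, 8336]
    tri := [(0, 1, 5), (0, 1, 7), (0, 5, 6), (0, 6, 7), (1, 2, 7), (1, 2, 8), (1, 5, 9), (1, 8, 9), (2,
      3, 7), (2, 3, 10), (2, 8, 12), (2, 10, 11), (2, 11, 12), (3, 4, 7), (3, 4, 13), (3, 10, 13),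
      (4, 7, 14), (4, 13, 14)]
    fin := [0, 0, 2, 2, 2, 5, 0, 2, 2, 9, 2, 11, 12, 13, 14]
    chd := [(0, 9)]
    steps := [(0, 1), (0, 6), (2, 3), (2, 4), (2, 7), (2, 10), (2, 8)] }
  rep := [2, 5, 9, 13, 0, 11, 12, 14]

noncomputable def v212 : Cov.CovD where
  P := 3
  N := 5
  pl := [0, 6, 7, 8, 9]
  lev := [⟨[], [], [(0, 4)], [1], [(1, 4, [2]), (2, 0, [])]⟩,
    ⟨[], [(0, 0), (0, 2), (0, 4)], [(0, 0), (0, 2)], [1], [(2, 0, []), (3, 0, []), (4, 2,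
      [4])]⟩,
    ⟨[(0, 1)], [(0, 0), (1, 0), (1, 2)], [(0, 0)], [5, 6], [(2, 0, []), (3, 0, []), (5, 0,
      [])]⟩,
    ⟨[(1, 2)], [(0, 0), (1, 0), (2, 0)], [(0, 0)], [3], [(2, 0, []), (5, 0, [])]⟩,
    ⟨[(2, 3)], [(0, 0), (1, 0), (2, 0), (3, 0)], [], [3, 7], [(2, 0, [])]⟩]
  Ta := [((2, 1), 0, 4), ((2, 9), 0, 7), ((3, 4), 0, 2), ((3, 7), 0, 6), ((5, 6), 0, 5), ((5, 8),
    0, 3)]
  Tb := [((0, 1, 4), 1, 4, 2), ((1, 0, 2), 4, 1, 0), ((2, 1, 9), 0, 4, 7), ((3, 4, 7), 0, 2, 6),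
    ((4, 0, 3), 2, 1, 0), ((5, 6, 8), 0, 5, 3), ((6, 5, 7), 5, 0, 6), ((7, 3, 6), 6, 0, 5),
    ((8, 5, 9), 3, 0, 7), ((9, 2, 8), 7, 0, 3)]
  Tc := []
  Td := [((2, 4), (4, 0), 1), ((2, 4), (4, 3), 0), ((4, 2), (1, 0), 1), ((4, 2), (1, 2), 0)]
  G := [[0, 0xca6c6aa6ce82, 0, 0xca6c6aa6ce4ca6c6aa6ce8c, 0xca6c6aa6ce84], [0, 0x11a11a11ce42,
    0xca6c6aa6ce41, 0xca6c6aa6ce41, 0x11611a11ae84], [0, 0x1a6c1a1d6e42, 0, 0xca6c6aa6ce41,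
    0xc1616a596e84]]

noncomputable def n212 : Ent := ⟨e212, noF, [], [], [(6, 14, [81620716623019490593592230936445690773474979418095884251137, 0])]⟩

def c212 : PLift (Cov.check n212.C.D v212 = true) := ⟨by decide +kernel⟩

def b212 : PLift (entF (fidx ts) 400 212 n212 = true) := ⟨by decide +kernel⟩

theorem g212 : GoodF (fidx ts) 400 212 := GoodF.ofV v212 n212 c212.down b212.down

/-- 46754:186/1 -/
noncomputable def e213 : SCfg where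
  D := {
    a := 5
    L := 9
    kp := 6
    inn := [(0, 1), (1, 0), (1, 2), (2, 1), (2, 3), (3, 2), (3, 4), (4, 3)]
    mix := [(0, 0), (0, 1), (0, 2), (1, 0), (1, 2), (1, 3), (1, 4), (2, 2), (2, 3), (2, 5), (2, 6), (2,
      7), (3, 1), (3, 2), (3, 5), (4, 1), (4, 5), (4, 8)]
    cl := [1, 3, 0, 0, 2, 0, 4, 5, 6]
    chq := [(2, 3), (3, 2)]
    rng := [(0, 1), (0, 4), (1, 0), (1, 2), (1, 8), (2, 1), (3, 4), (3, 7), (4, 0), (4, 3), (5, 6), (5,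
      8), (6, 5), (6, 7), (7, 3), (7, 6), (8, 1), (8, 5)]
    lev := [] }
  links := [[1, 5, 6, 7], [5, 0, 7, 2, 8, 9], [8, 1, 7, 3, 10, 11, 12], [10, 2, 7, 6, 4], [10, 3, 6, 13]]
  P := {
    a := 5
    N := 14
    nb := [226, 933, 7562, 1236, 9288, 579, 8377, 79, 4614, 290, 10268, 5124, 2308, 1104]
    tri := [(0, 1, 5), (0, 1, 7), (0, 5, 6), (0, 6, 7), (1, 2, 7), (1, 2, 8), (1, 5, 9), (1, 8, 9), (2,
      3, 7), (2, 3, 10), (2, 8, 12), (2, 10, 11), (2, 11, 12), (3, 4, 6), (3, 4, 10), (3, 6, 7),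
      (4, 6, 13), (4, 10, 13)]
    fin := [0, 0, 2, 0, 0, 5, 0, 2, 2, 9, 2, 11, 12, 13]
    chd := [(0, 9)]
    steps := [(0, 1), (0, 6), (0, 4), (2, 7), (0, 3), (2, 10), (2, 8)] }
  rep := [2, 5, 9, 0, 11, 12, 13]

noncomputable def v213 : Cov.CovD where
  P := 3
  N := 4
  pl := [0, 6, 7, 8]
  lev := [⟨[], [], [(0, 3)], [1], [(1, 3, [2]), (2, 0, [])]⟩,
    ⟨[], [(0, 0), (0, 2), (0, 3)], [(0, 0), (0, 2)], [1], [(2, 0, []), (3, 0, []), (4, 2,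
      [3])]⟩,
    ⟨[(0, 1)], [(0, 0), (1, 0), (1, 2)], [(0, 0)], [4, 5], [(2, 0, []), (3, 0, []), (5, 0,
      [])]⟩,
    ⟨[(1, 2)], [(0, 0), (0, 3), (1, 0), (2, 0), (2, 3)], [(0, 0), (0, 3)], [], [(1, 3,
      [2]), (2, 0, []), (5, 0, [])]⟩,
    ⟨[(2, 3)], [(0, 3), (2, 0), (3, 0), (3, 3)], [(0, 3)], [6], [(1, 3, [2]), (5, 0, [])]⟩]
  Ta := [((2, 1), 0, 3), ((3, 4), 0, 2), ((3, 7), 0, 5), ((5, 6), 0, 4), ((5, 8), 0, 6)]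
  Tb := [((0, 1, 4), 1, 3, 2), ((1, 0, 2), 3, 1, 0), ((1, 0, 8), 3, 1, 6), ((1, 2, 8), 3, 0, 6),
    ((3, 4, 7), 0, 2, 5), ((4, 0, 3), 2, 1, 0), ((5, 6, 8), 0, 4, 6), ((6, 5, 7), 4, 0, 5),
    ((7, 3, 6), 5, 0, 4), ((8, 1, 5), 6, 3, 0)]
  Tc := []
  Td := [((2, 3), (4, 0), 1), ((2, 3), (4, 3), 0), ((3, 2), (1, 0), 1), ((3, 2), (1, 2), 0), ((3,
    2), (1, 8), 6)]
  G := [[0, 0x11611611ae82, 0, 0x12a8a8e4621214e8c, 0x1a61a61d6e84], [0, 0x11a11a116e42,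
    0x11611a11ae81, 0x121212e41, 0x1441c14e81], [0, 0xa8a868ca66264e8a, 0, 0xe2e2a6ce41,
    0xe4c6ae4e81]]

noncomputable def n213 : Ent := ⟨e213, noF, [], [], []⟩

def c213 : PLift (Cov.check n213.C.D v213 = true) := ⟨by decide +kernel⟩

def b213 : PLift (entF (fidx ts) 400 213 n213 = true) := ⟨by decide +kernel⟩

theorem g213 : GoodF (fidx ts) 400 213 := GoodF.ofV v213 n213 c213.down b213.down

/-- 46754:186 -/
noncomputable def e214 : SCfg where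
  D := {
    a := 5
    L := 10
    kp := 7
    inn := [(0, 1), (1, 0), (1, 2), (2, 1), (2, 3), (3, 2), (3, 4), (4, 3)]
    mix := [(0, 0), (0, 1), (0, 2), (1, 0), (1, 2), (1, 3), (1, 4), (2, 2), (2, 3), (2, 5), (2, 6), (2,
      7), (3, 2), (3, 5), (3, 8), (4, 5), (4, 8), (4, 9)]
    cl := [1, 4, 0, 0, 2, 0, 5, 6, 3, 7]
    chq := [(2, 4), (4, 2)]
    rng := [(0, 1), (0, 4), (1, 0), (1, 2), (2, 1), (2, 8), (3, 4), (3, 7), (4, 0), (4, 3), (5, 6), (5,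
      9), (6, 5), (6, 7), (7, 3), (7, 6), (8, 2), (8, 9), (9, 5), (9, 8)]
    lev := [] }
  links := [[1, 5, 6, 7], [5, 0, 7, 2, 8, 9], [8, 1, 7, 3, 10, 11, 12], [10, 2, 7, 13, 4], [10, 3, 13,
    14]]
  P := {
    a := 5
    N := 15
    nb := [226, 933, 7562, 9364, 25608, 579, 161, 8271, 4614, 290, 18460, 5124, 2308, 16536, 9232]
    tri := [(0, 1, 5), (0, 1, 7), (0, 5, 6), (0, 6, 7), (1, 2, 7), (1, 2, 8), (1, 5, 9), (1, 8, 9), (2,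
      3, 7), (2, 3, 10), (2, 8, 12), (2, 10, 11), (2, 11, 12), (3, 4, 10), (3, 4, 13), (3, 7, 13),
      (4, 10, 14), (4, 13, 14)]
    fin := [0, 0, 2, 2, 2, 5, 0, 2, 2, 9, 2, 11, 12, 13, 14]
    chd := [(0, 9)]
    steps := [(0, 1), (0, 6), (2, 3), (2, 4), (2, 7), (2, 10), (2, 8)] }
  rep := [2, 5, 9, 13, 0, 11, 12, 14]

noncomputable def v214 : Cov.CovD where
  P := 3
  N := 5
  pl := [0, 6, 7, 8, 9]
  lev := [⟨[], [], [(0, 4)], [1], [(1, 4, [2]), (2, 0, [])]⟩,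
    ⟨[], [(0, 0), (0, 2), (0, 4)], [(0, 0), (0, 2)], [1], [(2, 0, []), (3, 0, []), (4, 2,
      [4])]⟩,
    ⟨[(0, 1)], [(0, 0), (1, 0), (1, 2)], [(0, 0)], [5, 6], [(2, 0, []), (3, 0, []), (5, 0,
      [])]⟩,
    ⟨[(1, 2)], [(0, 0), (1, 0), (2, 0)], [(0, 0)], [3], [(2, 0, []), (5, 0, [])]⟩,
    ⟨[(2, 3)], [(2, 0), (3, 0)], [], [3, 7], [(5, 0, [])]⟩]
  Ta := [((2, 1), 0, 4), ((2, 8), 0, 3), ((3, 4), 0, 2), ((3, 7), 0, 6), ((5, 6), 0, 5), ((5, 9),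
    0, 7)]
  Tb := [((0, 1, 4), 1, 4, 2), ((1, 0, 2), 4, 1, 0), ((2, 1, 8), 0, 4, 3), ((3, 4, 7), 0, 2, 6),
    ((4, 0, 3), 2, 1, 0), ((5, 6, 9), 0, 5, 7), ((6, 5, 7), 5, 0, 6), ((7, 3, 6), 6, 0, 5),
    ((8, 2, 9), 3, 0, 7), ((9, 5, 8), 7, 0, 3)]
  Tc := []
  Td := [((2, 4), (4, 0), 1), ((2, 4), (4, 3), 0), ((4, 2), (1, 0), 1), ((4, 2), (1, 2), 0)]
  G := [[0, 0x16c16ac1ae42, 0, 0x35a93ac16e4c16a1cc1ae8c, 0xc1635616ce84], [0, 0x11611a11ce42,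
    0x11611611ae81, 0x11611a11ce41, 0x116116116e81], [0, 0xca6c6aa6ce82, 0, 0xca6c6aa6ce41,
    0xca6c6aa6ce84]]

noncomputable def n214 : Ent := ⟨e214, noF, [], [], [(6, 13, [87897818358406171357428020359653357189577334862559918772225, 0])]⟩

def c214 : PLift (Cov.check n214.C.D v214 = true) := ⟨by decide +kernel⟩

def b214 : PLift (entF (fidx ts) 400 214 n214 = true) := ⟨by decide +kernel⟩

theorem g214 : GoodF (fidx ts) 400 214 := GoodF.ofV v214 n214 c214.down b214.down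

/-- 46754:187/1 -/
noncomputable def e215 : SCfg where
  D := {
    a := 5
    L := 9
    kp := 6
    inn := [(0, 1), (1, 0), (1, 2), (2, 1), (2, 3), (2, 4), (3, 2), (4, 2)]
    mix := [(0, 0), (0, 1), (0, 2), (1, 0), (1, 2), (1, 3), (1, 4), (2, 2), (2, 3), (2, 5), (2, 6), (3,
      3), (3, 4), (3, 6), (3, 7), (4, 5), (4, 6), (4, 8)]
    cl := [1, 4, 0, 0, 2, 3, 0, 5, 6]
    chq := [(0, 1), (1, 0)]
    rng := [(0, 1), (0, 4), (1, 0), (1, 2), (2, 1), (2, 5), (3, 4), (4, 0), (4, 3), (4, 7), (5, 2), (5,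
      8), (6, 7), (6, 8), (7, 4), (7, 6), (8, 5), (8, 6)]
    lev := [] }
  links := [[1, 5, 6, 7], [5, 0, 7, 2, 8, 9], [8, 1, 7, 10, 4, 11, 3], [8, 2, 11, 12, 9], [11, 2, 10,
    13]]
  P := {
    a := 5
    N := 14
    nb := [226, 933, 3482, 6916, 11268, 579, 161, 1095, 526, 4394, 8340, 12316, 2568, 3088]
    tri := [(0, 1, 5), (0, 1, 7), (0, 5, 6), (0, 6, 7), (1, 2, 7), (1, 2, 8), (1, 5, 9), (1, 8, 9), (2,
      3, 8), (2, 3, 11), (2, 4, 10), (2, 4, 11), (2, 7, 10), (3, 8, 9), (3, 9, 12), (3, 11, 12),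
      (4, 10, 13), (4, 11, 13)]
    fin := [0, 0, 2, 2, 2, 0, 6, 2, 2, 9, 10, 2, 12, 13]
    chd := [(0, 2)]
    steps := [(0, 1), (0, 5), (2, 3), (2, 4), (2, 7), (2, 11), (2, 8)] }
  rep := [2, 0, 9, 10, 6, 12, 13]

noncomputable def v215 : Cov.CovD where
  P := 3
  N := 4
  pl := [1, 4, 5, 7, 8]
  lev := [⟨[], [], [(0, 1)], [4], [(0, 1, [0]), (2, 0, [1])]⟩,
    ⟨[], [(0, 0), (0, 1)], [(0, 0), (0, 1)], [2], [(0, 1, [0]), (2, 0, [1]), (3, 0, [1])]⟩,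
    ⟨[(0, 1)], [(0, 0), (1, 0), (1, 1)], [(0, 0)], [3], [(2, 0, [1]), (3, 0, [1]), (6, 0,
      [1])]⟩,
    ⟨[(1, 2)], [(1, 0), (2, 0)], [(0, 0)], [2, 5], [(3, 0, [1]), (6, 0, [1])]⟩,
    ⟨[(1, 2), (2, 3)], [(2, 0), (3, 0)], [], [3, 6], [(6, 0, [1])]⟩]
  Ta := [((2, 1), 0, 4), ((2, 5), 0, 3), ((3, 4), 0, 2), ((6, 7), 0, 5), ((6, 8), 0, 6)]
  Tb := [((0, 1, 4), 1, 4, 2), ((1, 0, 2), 4, 1, 0), ((2, 1, 5), 0, 4, 3), ((4, 0, 3), 2, 1, 0),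
    ((4, 0, 7), 2, 1, 5), ((4, 3, 7), 2, 0, 5), ((5, 2, 8), 3, 0, 6), ((6, 7, 8), 0, 5, 6),
    ((7, 4, 6), 5, 2, 0), ((8, 5, 6), 6, 3, 0)]
  Tc := []
  Td := [((0, 1), (2, 1), 4), ((0, 1), (2, 5), 3), ((0, 1), (3, 4), 2), ((0, 1), (6, 7), 5), ((0,
    1), (6, 8), 6), ((1, 0), (0, 1), 4), ((1, 0), (0, 4), 2)]
  G := [[0, 0x11c2811c4811c84e, 0, 0xc9c15c681ccd1ca4c, 0x33a95a68cca11a68c], [0,
    0x11c4811c8411c28e, 0x121814e81, 0x11c11ca41, 0x11a11a681], [0, 0x11c11c6811c11ca4a, 0,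
    0xc84c4a6cac1, 0x22ceaa8ae81]]

noncomputable def n215 : Ent := ⟨e215, noF, [], [], []⟩

def c215 : PLift (Cov.check n215.C.D v215 = true) := ⟨by decide +kernel⟩

def b215 : PLift (entF (fidx ts) 400 215 n215 = true) := ⟨by decide +kernel⟩

theorem g215 : GoodF (fidx ts) 400 215 := GoodF.ofV v215 n215 c215.down b215.down

/-- 46754:187 -/
noncomputable def e216 : SCfg where
  D := {
    a := 5
    L := 10
    kp := 7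
    inn := [(0, 1), (1, 0), (1, 2), (2, 1), (2, 3), (2, 4), (3, 2), (4, 2)]
    mix := [(0, 0), (0, 1), (0, 2), (1, 0), (1, 2), (1, 3), (1, 4), (2, 2), (2, 3), (2, 5), (2, 6), (3,
      3), (3, 6), (3, 7), (3, 8), (4, 5), (4, 6), (4, 9)]
    cl := [1, 4, 0, 0, 2, 3, 0, 5, 6, 7]
    chq := [(0, 1), (1, 0)]
    rng := [(0, 1), (0, 4), (1, 0), (1, 2), (2, 1), (2, 5), (3, 4), (3, 8), (4, 0), (4, 3), (5, 2), (5,
      9), (6, 7), (6, 9), (7, 6), (7, 8), (8, 3), (8, 7), (9, 5), (9, 6)]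
    lev := [] }
  links := [[1, 5, 6, 7], [5, 0, 7, 2, 8, 9], [8, 1, 7, 10, 4, 11, 3], [8, 2, 11, 12, 13], [11, 2, 10,
    14]]
  P := {
    a := 5
    N := 15
    nb := [226, 933, 3482, 14596, 19460, 579, 161, 1095, 8718, 290, 16532, 20508, 10248, 4360, 3088]
    tri := [(0, 1, 5), (0, 1, 7), (0, 5, 6), (0, 6, 7), (1, 2, 7), (1, 2, 8), (1, 5, 9), (1, 8, 9), (2,
      3, 8), (2, 3, 11), (2, 4, 10), (2, 4, 11), (2, 7, 10), (3, 8, 13), (3, 11, 12), (3, 12, 13),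
      (4, 10, 14), (4, 11, 14)]
    fin := [0, 0, 2, 2, 2, 0, 6, 2, 2, 9, 10, 2, 12, 13, 14]
    chd := [(0, 2)]
    steps := [(0, 1), (0, 5), (2, 3), (2, 4), (2, 7), (2, 11), (2, 8)] }
  rep := [2, 0, 9, 10, 6, 12, 13, 14]

noncomputable def v216 : Cov.CovD where
  P := 3
  N := 5
  pl := [1, 4, 5, 7, 8, 9]
  lev := [⟨[], [], [(0, 1)], [4], [(0, 1, [0]), (2, 0, [1])]⟩,
    ⟨[], [(0, 0), (0, 1)], [(0, 0), (0, 1)], [2], [(0, 1, [0]), (2, 0, [1]), (3, 0, [1])]⟩,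
    ⟨[(0, 1)], [(0, 0), (1, 0), (1, 1)], [(0, 0)], [3], [(2, 0, [1]), (3, 0, [1]), (6, 0,
      [1])]⟩,
    ⟨[(1, 2)], [(1, 0), (2, 0)], [(0, 0)], [5, 6], [(3, 0, [1]), (6, 0, [1])]⟩,
    ⟨[(1, 2), (2, 3)], [(2, 0), (3, 0)], [], [3, 7], [(6, 0, [1])]⟩]
  Ta := [((2, 1), 0, 4), ((2, 5), 0, 3), ((3, 4), 0, 2), ((3, 8), 0, 6), ((6, 7), 0, 5), ((6, 9),
    0, 7)]
  Tb := [((0, 1, 4), 1, 4, 2), ((1, 0, 2), 4, 1, 0), ((2, 1, 5), 0, 4, 3), ((3, 4, 8), 0, 2, 6),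
    ((4, 0, 3), 2, 1, 0), ((5, 2, 9), 3, 0, 7), ((6, 7, 9), 0, 5, 7), ((7, 6, 8), 5, 0, 6),
    ((8, 3, 7), 6, 0, 5), ((9, 5, 6), 7, 3, 0)]
  Tc := []
  Td := [((0, 1), (2, 1), 4), ((0, 1), (2, 5), 3), ((0, 1), (3, 4), 2), ((0, 1), (3, 8), 6), ((0,
    1), (6, 7), 5), ((0, 1), (6, 9), 7), ((1, 0), (0, 1), 4), ((1, 0), (0, 4), 2)]
  G := [[0, 0x111e48111e84111e28e, 0, 0x53ce991e6839ce531ea4c, 0x91ce3a1e68c15e1a9e68c], [0,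
    0x11a14641411a68111e84e, 0x111e111ea41, 0x111e111e681, 0x11618111ee81], [0,
    0x111e84111e28111e48e, 0, 0xc6aa6c6ca68c1, 0x426c8eeae8ee81]]

noncomputable def n216 : Ent := ⟨e216, noF, [], [], [(13, 9, [87897818358406260560408814482145923332450425456005942702081, 0])]⟩

def c216 : PLift (Cov.check n216.C.D v216 = true) := ⟨by decide +kernel⟩

def b216 : PLift (entF (fidx ts) 400 216 n216 = true) := ⟨by decide +kernel⟩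

theorem g216 : GoodF (fidx ts) 400 216 := GoodF.ofV v216 n216 c216.down b216.down

/-- 46754:188/1 -/
noncomputable def e217 : SCfg where
  D := {
    a := 5
    L := 9
    kp := 6
    inn := [(0, 1), (1, 0), (1, 2), (2, 1), (2, 3), (3, 2), (3, 4), (4, 3)]
    mix := [(0, 0), (0, 1), (0, 2), (1, 0), (1, 2), (1, 3), (1, 4), (2, 2), (2, 3), (2, 5), (2, 6), (2,
      7), (3, 3), (3, 4), (3, 7), (4, 4), (4, 7), (4, 8)]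
    cl := [2, 3, 0, 0, 1, 4, 5, 0, 6]
    chq := [(1, 3), (3, 1)]
    rng := [(0, 1), (0, 4), (1, 0), (1, 2), (2, 1), (2, 5), (3, 4), (4, 0), (4, 3), (4, 8), (5, 2), (5,
      6), (6, 5), (6, 7), (7, 6), (7, 8), (8, 4), (8, 7)]
    lev := [] }
  links := [[1, 5, 6, 7], [5, 0, 7, 2, 8, 9], [8, 1, 7, 10, 11, 12, 3], [8, 2, 12, 4, 9], [9, 3, 12, 13]]
  P := {
    a := 5
    N := 14
    nb := [226, 933, 7562, 4884, 12808, 579, 161, 1095, 526, 8506, 2180, 5124, 10268, 4624]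
    tri := [(0, 1, 5), (0, 1, 7), (0, 5, 6), (0, 6, 7), (1, 2, 7), (1, 2, 8), (1, 5, 9), (1, 8, 9), (2,
      3, 8), (2, 3, 12), (2, 7, 10), (2, 10, 11), (2, 11, 12), (3, 4, 9), (3, 4, 12), (3, 8, 9),
      (4, 9, 13), (4, 12, 13)]
    fin := [0, 0, 2, 2, 2, 5, 0, 2, 2, 9, 10, 11, 2, 13]
    chd := [(0, 9)]
    steps := [(0, 1), (0, 6), (2, 3), (2, 4), (2, 7), (2, 12), (2, 8)] }
  rep := [2, 9, 5, 0, 10, 11, 13]

noncomputable def v217 : Cov.CovD where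
  P := 3
  N := 4
  pl := [0, 5, 6, 8]
  lev := [⟨[], [], [(0, 3)], [2], [(1, 3, [1]), (2, 0, [])]⟩,
    ⟨[], [(0, 0), (0, 1), (0, 3)], [(0, 0), (0, 1)], [2], [(2, 0, []), (3, 0, []), (4, 1,
      [3])]⟩,
    ⟨[(0, 1)], [(0, 0), (1, 0), (1, 1)], [(0, 0)], [4, 5], [(2, 0, []), (3, 0, []), (7, 0,
      [])]⟩,
    ⟨[(1, 2)], [(1, 0), (1, 1), (2, 0), (2, 1)], [(0, 0), (0, 1)], [], [(3, 0, []), (4, 1,
      [3]), (7, 0, [])]⟩,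
    ⟨[(2, 3)], [(1, 1), (2, 0), (3, 0), (3, 1)], [(0, 1)], [6], [(4, 1, [3]), (7, 0, [])]⟩]
  Ta := [((2, 1), 0, 3), ((2, 5), 0, 4), ((3, 4), 0, 1), ((7, 6), 0, 5), ((7, 8), 0, 6)]
  Tb := [((0, 1, 4), 2, 3, 1), ((1, 0, 2), 3, 2, 0), ((2, 1, 5), 0, 3, 4), ((4, 0, 3), 1, 2, 0),
    ((4, 0, 8), 1, 2, 6), ((4, 3, 8), 1, 0, 6), ((5, 2, 6), 4, 0, 5), ((6, 5, 7), 5, 4, 0),
    ((7, 6, 8), 0, 5, 6), ((8, 4, 7), 6, 1, 0)]
  Tc := []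
  Td := [((1, 3), (4, 0), 2), ((1, 3), (4, 3), 0), ((1, 3), (4, 8), 6), ((3, 1), (1, 0), 2), ((3,
    1), (1, 2), 0)]
  G := [[0, 0, 0x141414e82, 0x141814e4141818e8c, 0x141414e82], [0, 0xc2c864e41, 0x181814e42,
    0x141414e81, 0x141814e82], [0, 0, 0xc4c8c4e42, 0xc4c8c4e41, 0xc4c8c8e82]]

noncomputable def n217 : Ent := ⟨e217, noF, [], [], []⟩

def c217 : PLift (Cov.check n217.C.D v217 = true) := ⟨by decide +kernel⟩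

def b217 : PLift (entF (fidx ts) 400 217 n217 = true) := ⟨by decide +kernel⟩

theorem g217 : GoodF (fidx ts) 400 217 := GoodF.ofV v217 n217 c217.down b217.down

/-- 46754:188 -/
noncomputable def e218 : SCfg where
  D := {
    a := 5
    L := 10
    kp := 7
    inn := [(0, 1), (1, 0), (1, 2), (2, 1), (2, 3), (3, 2), (3, 4), (4, 3)]
    mix := [(0, 0), (0, 1), (0, 2), (1, 0), (1, 2), (1, 3), (1, 4), (2, 2), (2, 3), (2, 5), (2, 6), (2,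
      7), (3, 3), (3, 7), (3, 8), (4, 7), (4, 8), (4, 9)]
    cl := [1, 4, 0, 0, 2, 5, 6, 0, 3, 7]
    chq := [(2, 4), (4, 2)]
    rng := [(0, 1), (0, 4), (1, 0), (1, 2), (2, 1), (2, 5), (3, 4), (3, 8), (4, 0), (4, 3), (5, 2), (5,
      6), (6, 5), (6, 7), (7, 6), (7, 9), (8, 3), (8, 9), (9, 7), (9, 8)]
    lev := [] }
  links := [[1, 5, 6, 7], [5, 0, 7, 2, 8, 9], [8, 1, 7, 10, 11, 12, 3], [8, 2, 12, 4, 13], [13, 3, 12,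
    14]]
  P := {
    a := 5
    N := 15
    nb := [226, 933, 7562, 12564, 28680, 579, 161, 1095, 8718, 290, 2180, 5124, 18460, 16664, 12304]
    tri := [(0, 1, 5), (0, 1, 7), (0, 5, 6), (0, 6, 7), (1, 2, 7), (1, 2, 8), (1, 5, 9), (1, 8, 9), (2,
      3, 8), (2, 3, 12), (2, 7, 10), (2, 10, 11), (2, 11, 12), (3, 4, 12), (3, 4, 13), (3, 8, 13),
      (4, 12, 14), (4, 13, 14)]
    fin := [0, 0, 2, 2, 2, 5, 0, 2, 2, 9, 10, 11, 2, 13, 14]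
    chd := [(0, 9)]
    steps := [(0, 1), (0, 6), (2, 3), (2, 4), (2, 7), (2, 12), (2, 8)] }
  rep := [2, 5, 9, 13, 0, 10, 11, 14]

noncomputable def v218 : Cov.CovD where
  P := 3
  N := 5
  pl := [0, 5, 6, 8, 9]
  lev := [⟨[], [], [(0, 4)], [1], [(1, 4, [2]), (2, 0, [])]⟩,
    ⟨[], [(0, 0), (0, 2), (0, 4)], [(0, 0), (0, 2)], [1], [(2, 0, []), (3, 0, []), (4, 2,
      [4])]⟩,
    ⟨[(0, 1)], [(0, 0), (1, 0), (1, 2)], [(0, 0)], [5, 6], [(2, 0, []), (3, 0, []), (7, 0,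
      [])]⟩,
    ⟨[(1, 2)], [(1, 0), (2, 0)], [(0, 0)], [3], [(3, 0, []), (7, 0, [])]⟩,
    ⟨[(2, 3)], [(2, 0), (3, 0)], [], [3, 7], [(7, 0, [])]⟩]
  Ta := [((2, 1), 0, 4), ((2, 5), 0, 5), ((3, 4), 0, 2), ((3, 8), 0, 3), ((7, 6), 0, 6), ((7, 9),
    0, 7)]
  Tb := [((0, 1, 4), 1, 4, 2), ((1, 0, 2), 4, 1, 0), ((2, 1, 5), 0, 4, 5), ((3, 4, 8), 0, 2, 3),
    ((4, 0, 3), 2, 1, 0), ((5, 2, 6), 5, 0, 6), ((6, 5, 7), 6, 5, 0), ((7, 6, 9), 0, 6, 7),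
    ((8, 3, 9), 3, 0, 7), ((9, 7, 8), 7, 0, 3)]
  Tc := []
  Td := [((2, 4), (4, 0), 1), ((2, 4), (4, 3), 0), ((4, 2), (1, 0), 1), ((4, 2), (1, 2), 0)]
  G := [[0, 0x11c11a116e42, 0, 0x11a211611acc11611611ce8c, 0x11611a116e84], [0, 0xca616a16ce42,
    0x11611a11ce81, 0x1a6c1a59ae41, 0x17616a16ce84], [0, 0xca6c6aa6ce42, 0, 0xca6c6aa6ce41,
    0xca6c6aa6ce81]]

noncomputable def n218 : Ent := ⟨e218, noF, [], [], [(13, 9, [87897818358406260560408814482145923332450425456005942710273, 0])]⟩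

def c218 : PLift (Cov.check n218.C.D v218 = true) := ⟨by decide +kernel⟩

def b218 : PLift (entF (fidx ts) 400 218 n218 = true) := ⟨by decide +kernel⟩

theorem g218 : GoodF (fidx ts) 400 218 := GoodF.ofV v218 n218 c218.down b218.down

/-- 46754:189/1 -/
noncomputable def e219 : SCfg where
  D := {
    a := 5
    L := 9
    kp := 6
    inn := [(0, 1), (1, 0), (1, 2), (2, 1), (2, 3), (3, 2), (3, 4), (4, 3)]
    mix := [(0, 0), (0, 1), (0, 2), (1, 0), (1, 2), (1, 3), (1, 4), (2, 2), (2, 3), (2, 5), (2, 6), (2,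
      7), (3, 3), (3, 7), (3, 8), (4, 3), (4, 4), (4, 8)]
    cl := [2, 4, 0, 0, 1, 5, 6, 0, 3]
    chq := [(1, 4), (4, 1)]
    rng := [(0, 1), (0, 4), (1, 0), (1, 2), (2, 1), (2, 5), (3, 4), (4, 0), (4, 3), (4, 8), (5, 2), (5,
      6), (6, 5), (6, 7), (7, 6), (7, 8), (8, 4), (8, 7)]
    lev := [] }
  links := [[1, 5, 6, 7], [5, 0, 7, 2, 8, 9], [8, 1, 7, 10, 11, 12, 3], [8, 2, 12, 13, 4], [8, 3, 13, 9]]
  P := {
    a := 5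
    N := 14
    nb := [226, 933, 7562, 12564, 8968, 579, 161, 1095, 542, 8498, 2180, 5124, 10252, 4632]
    tri := [(0, 1, 5), (0, 1, 7), (0, 5, 6), (0, 6, 7), (1, 2, 7), (1, 2, 8), (1, 5, 9), (1, 8, 9), (2,
      3, 8), (2, 3, 12), (2, 7, 10), (2, 10, 11), (2, 11, 12), (3, 4, 8), (3, 4, 13), (3, 12, 13),
      (4, 8, 9), (4, 9, 13)]
    fin := [0, 0, 2, 2, 2, 5, 0, 2, 2, 9, 10, 11, 2, 13]
    chd := [(0, 9)]
    steps := [(0, 1), (0, 6), (2, 3), (2, 4), (2, 7), (2, 12), (2, 8)] }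
  rep := [2, 9, 5, 13, 0, 10, 11]

noncomputable def v219 : Cov.CovD where
  P := 3
  N := 4
  pl := [0, 5, 6, 8]
  lev := [⟨[], [], [(0, 4)], [2], [(1, 4, [1]), (2, 0, [])]⟩,
    ⟨[], [(0, 0), (0, 1), (0, 4)], [(0, 0), (0, 1)], [2], [(2, 0, []), (3, 0, []), (4, 1,
      [4])]⟩,
    ⟨[(0, 1)], [(0, 0), (1, 0), (1, 1)], [(0, 0)], [5, 6], [(2, 0, []), (3, 0, []), (7, 0,
      [])]⟩,
    ⟨[(1, 2)], [(1, 0), (2, 0)], [(0, 0)], [3], [(3, 0, []), (7, 0, [])]⟩,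
    ⟨[(2, 3)], [(1, 0), (1, 1), (2, 0), (3, 0), (3, 1)], [(0, 1)], [3], [(3, 0, []), (4, 1,
      [4])]⟩]
  Ta := [((2, 1), 0, 4), ((2, 5), 0, 5), ((3, 4), 0, 1), ((7, 6), 0, 6), ((7, 8), 0, 3)]
  Tb := [((0, 1, 4), 2, 4, 1), ((1, 0, 2), 4, 2, 0), ((2, 1, 5), 0, 4, 5), ((4, 0, 3), 1, 2, 0),
    ((4, 0, 8), 1, 2, 3), ((4, 3, 8), 1, 0, 3), ((5, 2, 6), 5, 0, 6), ((6, 5, 7), 6, 5, 0),
    ((7, 6, 8), 0, 6, 3), ((8, 4, 7), 3, 1, 0)]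
  Tc := []
  Td := [((1, 4), (4, 0), 2), ((1, 4), (4, 3), 0), ((1, 4), (4, 8), 3), ((4, 1), (1, 0), 2), ((4,
    1), (1, 2), 0)]
  G := [[0, 0, 0x11614a11ae42, 0x121212e4121212e8c, 0x11681614ae82], [0, 0x24c84a24ce41,
    0x48684a486e42, 0xc2c2c2e41, 0x48684a84ce81], [0, 0, 0x48681a14ae42, 0x929292e41,
    0x81681c486e81]]

noncomputable def n219 : Ent := ⟨e219, noF, [], [], []⟩

def c219 : PLift (Cov.check n219.C.D v219 = true) := ⟨by decide +kernel⟩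

def b219 : PLift (entF (fidx ts) 400 219 n219 = true) := ⟨by decide +kernel⟩

theorem g219 : GoodF (fidx ts) 400 219 := GoodF.ofV v219 n219 c219.down b219.down

/-- 46754:189 -/
noncomputable def e220 : SCfg where
  D := {
    a := 5
    L := 10
    kp := 7
    inn := [(0, 1), (1, 0), (1, 2), (2, 1), (2, 3), (3, 2), (3, 4), (4, 3)]
    mix := [(0, 0), (0, 1), (0, 2), (1, 0), (1, 2), (1, 3), (1, 4), (2, 2), (2, 3), (2, 5), (2, 6), (2,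
      7), (3, 3), (3, 7), (3, 8), (4, 3), (4, 8), (4, 9)]
    cl := [1, 4, 0, 0, 2, 5, 6, 0, 3, 7]
    chq := [(2, 4), (4, 2)]
    rng := [(0, 1), (0, 4), (1, 0), (1, 2), (2, 1), (2, 5), (3, 4), (3, 9), (4, 0), (4, 3), (5, 2), (5,
      6), (6, 5), (6, 7), (7, 6), (7, 8), (8, 7), (8, 9), (9, 3), (9, 8)]
    lev := [] }
  links := [[1, 5, 6, 7], [5, 0, 7, 2, 8, 9], [8, 1, 7, 10, 11, 12, 3], [8, 2, 12, 13, 4], [8, 3, 13,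
    14]]
  P := {
    a := 5
    N := 15
    nb := [226, 933, 7562, 12564, 24840, 579, 161, 1095, 16926, 290, 2180, 5124, 10252, 20504, 8464]
    tri := [(0, 1, 5), (0, 1, 7), (0, 5, 6), (0, 6, 7), (1, 2, 7), (1, 2, 8), (1, 5, 9), (1, 8, 9), (2,
      3, 8), (2, 3, 12), (2, 7, 10), (2, 10, 11), (2, 11, 12), (3, 4, 8), (3, 4, 13), (3, 12, 13),
      (4, 8, 14), (4, 13, 14)]
    fin := [0, 0, 2, 2, 2, 5, 0, 2, 2, 9, 10, 11, 2, 13, 14]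
    chd := [(0, 9)]
    steps := [(0, 1), (0, 6), (2, 3), (2, 4), (2, 7), (2, 12), (2, 8)] }
  rep := [2, 5, 9, 13, 0, 10, 11, 14]

noncomputable def v220 : Cov.CovD where
  P := 3
  N := 5
  pl := [0, 5, 6, 8, 9]
  lev := [⟨[], [], [(0, 4)], [1], [(1, 4, [2]), (2, 0, [])]⟩,
    ⟨[], [(0, 0), (0, 2), (0, 4)], [(0, 0), (0, 2)], [1], [(2, 0, []), (3, 0, []), (4, 2,
      [4])]⟩,
    ⟨[(0, 1)], [(0, 0), (1, 0), (1, 2)], [(0, 0)], [5, 6], [(2, 0, []), (3, 0, []), (7, 0,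
      [])]⟩,
    ⟨[(1, 2)], [(1, 0), (2, 0)], [(0, 0)], [3], [(3, 0, []), (7, 0, [])]⟩,
    ⟨[(2, 3)], [(1, 0), (2, 0), (3, 0)], [], [3, 7], [(3, 0, [])]⟩]
  Ta := [((2, 1), 0, 4), ((2, 5), 0, 5), ((3, 4), 0, 2), ((3, 9), 0, 7), ((7, 6), 0, 6), ((7, 8),
    0, 3)]
  Tb := [((0, 1, 4), 1, 4, 2), ((1, 0, 2), 4, 1, 0), ((2, 1, 5), 0, 4, 5), ((3, 4, 9), 0, 2, 7),
    ((4, 0, 3), 2, 1, 0), ((5, 2, 6), 5, 0, 6), ((6, 5, 7), 6, 5, 0), ((7, 6, 8), 0, 6, 3),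
    ((8, 7, 9), 3, 0, 7), ((9, 3, 8), 7, 0, 3)]
  Tc := []
  Td := [((2, 4), (4, 0), 1), ((2, 4), (4, 3), 0), ((4, 2), (1, 0), 1), ((4, 2), (1, 2), 0)]
  G := [[0, 0x11c11a116e42, 0, 0x11a211611acc11611611ce8c, 0x11611a116e84], [0, 0xca6c6aa6ce82,
    0xca6c6aa6ce41, 0xca6c6aa6ce81, 0xca6c6aa6ce81], [0, 0x1a6c1ac1ae82, 0, 0x16a95a39ce41,
    0x936c1a16ce84]]

noncomputable def n220 : Ent := ⟨e220, noF, [], [], [(14, 9, [81620716623019602097318223589561398452066342659903414185985, 0])]⟩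

def c220 : PLift (Cov.check n220.C.D v220 = true) := ⟨by decide +kernel⟩

def b220 : PLift (entF (fidx ts) 400 220 n220 = true) := ⟨by decide +kernel⟩

theorem g220 : GoodF (fidx ts) 400 220 := GoodF.ofV v220 n220 c220.down b220.down

/-- 46745:190/1 -/
noncomputable def e221 : SCfg where
  D := {
    a := 5
    L := 9
    kp := 6
    inn := [(0, 1), (1, 0), (1, 2), (2, 1), (2, 3), (3, 2), (3, 4), (4, 3)]
    mix := [(0, 0), (0, 1), (0, 2), (1, 0), (1, 2), (1, 3), (1, 4), (2, 2), (2, 3), (2, 5), (2, 6), (2,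
      7), (3, 5), (3, 6), (4, 1), (4, 5), (4, 6), (4, 8)]
    cl := [1, 4, 0, 0, 2, 3, 3, 5, 6]
    chq := [(2, 4), (4, 2)]
    rng := [(0, 1), (0, 4), (1, 0), (1, 2), (1, 5), (1, 8), (2, 1), (2, 5), (3, 4), (3, 7), (4, 0), (4,
      3), (5, 1), (5, 2), (6, 7), (6, 8), (7, 3), (7, 6), (8, 1), (8, 6)]
    lev := [] }
  links := [[1, 5, 6, 7], [5, 0, 7, 2, 8, 9], [8, 1, 7, 10, 3, 11, 12], [11, 2, 10, 4], [11, 3, 10, 6,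
    13]]
  P := {
    a := 5
    N := 14
    nb := [226, 933, 7562, 3092, 11336, 579, 9393, 1095, 4614, 290, 220, 12316, 2308, 2128]
    tri := [(0, 1, 5), (0, 1, 7), (0, 5, 6), (0, 6, 7), (1, 2, 7), (1, 2, 8), (1, 5, 9), (1, 8, 9), (2,
      3, 10), (2, 3, 11), (2, 7, 10), (2, 8, 12), (2, 11, 12), (3, 4, 10), (3, 4, 11), (4, 6, 10),
      (4, 6, 13), (4, 11, 13)]
    fin := [0, 0, 2, 3, 0, 5, 0, 2, 2, 9, 3, 3, 12, 13]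
    chd := [(0, 9)]
    steps := [(0, 1), (0, 6), (0, 4), (2, 7), (2, 8), (3, 10), (3, 11)] }
  rep := [2, 5, 9, 3, 0, 12, 13]

noncomputable def v221 : Cov.CovD where
  P := 3
  N := 4
  pl := [0, 7, 8]
  lev := [⟨[], [], [(0, 4)], [1], [(1, 4, [2]), (2, 0, [])]⟩,
    ⟨[], [(0, 0), (0, 2), (0, 4)], [(0, 0), (0, 2)], [1], [(2, 0, []), (3, 0, []), (4, 2,
      [4])]⟩,
    ⟨[(0, 1)], [(0, 0), (1, 0), (1, 2), (1, 3)], [(0, 0), (0, 3), (3, 3)], [5], [(2, 0,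
      []), (3, 0, []), (5, 3, []), (6, 3, [])]⟩,
    ⟨[(1, 2)], [(2, 0), (2, 3)], [(3, 3)], [], [(5, 3, []), (6, 3, [])]⟩,
    ⟨[(2, 3)], [(0, 4), (2, 3), (3, 3), (3, 4)], [(3, 3), (3, 4)], [6], [(1, 4, [2]), (5,
      3, []), (6, 3, [])]⟩]
  Ta := [((2, 1), 0, 4), ((2, 5), 0, 3), ((3, 4), 0, 2), ((3, 7), 0, 5), ((5, 1), 3, 4), ((5, 2),
    3, 0), ((6, 7), 3, 5), ((6, 8), 3, 6)]
  Tb := [((0, 1, 4), 1, 4, 2), ((1, 0, 2), 4, 1, 0), ((1, 0, 5), 4, 1, 3), ((1, 0, 8), 4, 1, 6),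
    ((1, 2, 5), 4, 0, 3), ((1, 2, 8), 4, 0, 6), ((1, 5, 8), 4, 3, 6), ((2, 1, 5), 0, 4, 3),
    ((3, 4, 7), 0, 2, 5), ((4, 0, 3), 2, 1, 0), ((5, 1, 2), 3, 4, 0), ((6, 7, 8), 3, 5, 6),
    ((7, 3, 6), 5, 0, 3), ((8, 1, 6), 6, 4, 3)]
  Tc := []
  Td := [((2, 4), (4, 0), 1), ((2, 4), (4, 3), 0), ((4, 2), (1, 0), 1), ((4, 2), (1, 2), 0), ((4,
    2), (1, 5), 3), ((4, 2), (1, 8), 6)]
  G := [[0, 0xad36d3d23e42, 0, 0x9a697a2d6e463543c31e8c, 0xc297c16ef1e84], [0, 0xf1f1f1e42, 0,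
    0x91b171e47151b1e8c, 0xf1f1f1e84], [0, 0xf1f1f1e82, 0x4b5f1f1e41, 0x4b5f131e41,
    0xf151f1e81], [0, 0xf1f1f1e42, 0xf1f1f1e81, 0xf1f131e81, 0xf151f1e81]]

noncomputable def n221 : Ent := ⟨e221, noF, [], [], []⟩

def c221 : PLift (Cov.check n221.C.D v221 = true) := ⟨by decide +kernel⟩

def b221 : PLift (entF (fidx ts) 400 221 n221 = true) := ⟨by decide +kernel⟩

theorem g221 : GoodF (fidx ts) 400 221 := GoodF.ofV v221 n221 c221.down b221.down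

/-- 46745:190 -/
noncomputable def e222 : SCfg where
  D := {
    a := 5
    L := 10
    kp := 7
    inn := [(0, 1), (1, 0), (1, 2), (2, 1), (2, 3), (3, 2), (3, 4), (4, 3)]
    mix := [(0, 0), (0, 1), (0, 2), (1, 0), (1, 2), (1, 3), (1, 4), (2, 2), (2, 3), (2, 5), (2, 6), (2,
      7), (3, 5), (3, 6), (4, 5), (4, 6), (4, 8), (4, 9)]
    cl := [1, 4, 0, 0, 2, 3, 3, 5, 6, 7]
    chq := [(2, 4), (4, 2)]
    rng := [(0, 1), (0, 4), (1, 0), (1, 2), (2, 1), (2, 5), (3, 4), (3, 7), (4, 0), (4, 3), (5, 2), (5,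
      8), (6, 7), (6, 9), (7, 3), (7, 6), (8, 5), (8, 9), (9, 6), (9, 8)]
    lev := [] }
  links := [[1, 5, 6, 7], [5, 0, 7, 2, 8, 9], [8, 1, 7, 10, 3, 11, 12], [11, 2, 10, 4], [11, 3, 10, 13,
    14]]
  P := {
    a := 5
    N := 15
    nb := [226, 933, 7562, 3092, 27656, 579, 161, 1095, 4614, 290, 8348, 20508, 2308, 17424, 10256]
    tri := [(0, 1, 5), (0, 1, 7), (0, 5, 6), (0, 6, 7), (1, 2, 7), (1, 2, 8), (1, 5, 9), (1, 8, 9), (2,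
      3, 10), (2, 3, 11), (2, 7, 10), (2, 8, 12), (2, 11, 12), (3, 4, 10), (3, 4, 11), (4, 10,
      13), (4, 11, 14), (4, 13, 14)]
    fin := [0, 0, 2, 2, 4, 5, 0, 2, 2, 9, 4, 4, 12, 13, 14]
    chd := [(0, 9)]
    steps := [(0, 1), (0, 6), (2, 3), (2, 7), (2, 8), (4, 10), (4, 11)] }
  rep := [2, 5, 9, 4, 0, 12, 13, 14]

noncomputable def v222 : Cov.CovD where
  P := 3
  N := 5
  pl := [0, 7, 8, 9]
  lev := [⟨[], [], [(0, 4)], [1], [(1, 4, [2]), (2, 0, [])]⟩,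
    ⟨[], [(0, 0), (0, 2), (0, 4)], [(0, 0), (0, 2)], [1], [(2, 0, []), (3, 0, []), (4, 2,
      [4])]⟩,
    ⟨[(0, 1)], [(0, 0), (1, 0), (1, 2), (1, 3)], [(0, 0), (0, 3), (3, 3)], [5], [(2, 0,
      []), (3, 0, []), (5, 3, []), (6, 3, [])]⟩,
    ⟨[(1, 2)], [(2, 0), (2, 3)], [(3, 3)], [], [(5, 3, []), (6, 3, [])]⟩,
    ⟨[(2, 3)], [(2, 3), (3, 3)], [(3, 3)], [6, 7], [(5, 3, []), (6, 3, [])]⟩]
  Ta := [((2, 1), 0, 4), ((2, 5), 0, 3), ((3, 4), 0, 2), ((3, 7), 0, 5), ((5, 2), 3, 0), ((5, 8),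
    3, 6), ((6, 7), 3, 5), ((6, 9), 3, 7)]
  Tb := [((0, 1, 4), 1, 4, 2), ((1, 0, 2), 4, 1, 0), ((2, 1, 5), 0, 4, 3), ((3, 4, 7), 0, 2, 5),
    ((4, 0, 3), 2, 1, 0), ((5, 2, 8), 3, 0, 6), ((6, 7, 9), 3, 5, 7), ((7, 3, 6), 5, 0, 3),
    ((8, 5, 9), 6, 3, 7), ((9, 6, 8), 7, 3, 6)]
  Tc := []
  Td := [((2, 4), (4, 0), 1), ((2, 4), (4, 3), 0), ((4, 2), (1, 0), 1), ((4, 2), (1, 2), 0)]
  G := [[0, 0xdb6e79f1e82, 0, 0xdb6a795a3e4b4546b5d23acc, 0xed3f12d27e84], [0, 0xf1f1f1e82, 0,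
    0x789f1f1e4f1b45f1e8c, 0xf1f1f1e84], [0, 0xf1f1f1e82, 0xf1f1f1e81, 0xf1f1f1e41,
    0xf1f1f1e84], [0, 0xf1f1f1e82, 0xf1f1f1e81, 0xf1f1f1e41, 0xf1f1f1e81]]

noncomputable def n222 : Ent := ⟨e222, noF, [], [], [(6, 13, [87897818358406171357428020359653357189577334862559918804993, 0])]⟩

def c222 : PLift (Cov.check n222.C.D v222 = true) := ⟨by decide +kernel⟩

def b222 : PLift (entF (fidx ts) 400 222 n222 = true) := ⟨by decide +kernel⟩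

theorem g222 : GoodF (fidx ts) 400 222 := GoodF.ofV v222 n222 c222.down b222.down

/-- 48554:192/1 -/
noncomputable def e223 : SCfg where
  D := {
    a := 5
    L := 9
    kp := 6
    inn := [(0, 1), (1, 0), (1, 2), (1, 3), (1, 4), (2, 1), (3, 1), (4, 1)]
    mix := [(0, 0), (0, 1), (0, 2), (1, 0), (1, 2), (1, 3), (1, 4), (2, 3), (2, 4), (2, 5), (2, 6), (3,
      0), (3, 4), (3, 6), (3, 7), (4, 2), (4, 3), (4, 8)]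
    cl := [0, 4, 1, 0, 0, 2, 3, 5, 6]
    chq := [(0, 1), (1, 0)]
    rng := [(0, 1), (0, 7), (1, 0), (1, 2), (2, 1), (2, 8), (3, 5), (3, 8), (4, 6), (5, 3), (5, 6), (6,
      4), (6, 5), (6, 7), (7, 0), (7, 6), (8, 2), (8, 3)]
    lev := [] }
  links := [[1, 5, 6, 7], [5, 0, 7, 4, 8, 2, 9, 3], [9, 1, 8, 10, 11], [5, 1, 9, 11, 12], [8, 1, 7, 13]]
  P := {
    a := 5
    N := 14
    nb := [226, 957, 3842, 6690, 8578, 4171, 161, 8275, 9238, 2062, 2308, 5644, 2088, 400]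
    tri := [(0, 1, 5), (0, 1, 7), (0, 5, 6), (0, 6, 7), (1, 2, 8), (1, 2, 9), (1, 3, 5), (1, 3, 9), (1,
      4, 7), (1, 4, 8), (2, 8, 10), (2, 9, 11), (2, 10, 11), (3, 5, 12), (3, 9, 11), (3, 11, 12),
      (4, 7, 13), (4, 8, 13)]
    fin := [0, 0, 0, 0, 0, 0, 6, 7, 0, 0, 10, 11, 12, 13]
    chd := [(0, 7)]
    steps := [(0, 1), (0, 2), (0, 4), (0, 5), (0, 8), (0, 9), (0, 3)] }
  rep := [0, 7, 10, 11, 6, 12, 13]

noncomputable def v223 : Cov.CovD where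
  P := 3
  N := 4
  pl := [1, 5, 6, 7, 8]
  lev := [⟨[], [], [(0, 1)], [4], [(0, 0, [1]), (2, 1, [0])]⟩,
    ⟨[], [(0, 0), (0, 1)], [(0, 0), (0, 1)], [], [(0, 0, [1]), (2, 1, [0]), (3, 0, [1]),
      (4, 0, [1])]⟩,
    ⟨[(0, 1)], [(1, 0), (1, 1)], [(0, 0)], [2, 3], [(3, 0, [1]), (4, 0, [1])]⟩,
    ⟨[(0, 1), (1, 2)], [(0, 0), (1, 0), (1, 1), (2, 0)], [(0, 0)], [3, 5], [(0, 0, [1]),
      (4, 0, [1])]⟩,
    ⟨[(0, 1), (1, 2), (1, 3)], [(0, 1), (1, 0), (1, 1), (2, 0)], [(0, 1)], [6], [(2, 1,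
      [0]), (3, 0, [1])]⟩]
  Ta := [((0, 1), 0, 4), ((0, 7), 0, 5), ((3, 5), 0, 2), ((3, 8), 0, 6), ((4, 6), 0, 3)]
  Tb := [((0, 1, 7), 0, 4, 5), ((1, 0, 2), 4, 0, 1), ((2, 1, 8), 1, 4, 6), ((3, 5, 8), 0, 2, 6),
    ((5, 3, 6), 2, 0, 3), ((6, 4, 5), 3, 0, 2), ((6, 4, 7), 3, 0, 5), ((6, 5, 7), 3, 2, 5),
    ((7, 0, 6), 5, 0, 3), ((8, 2, 3), 6, 1, 0)]
  Tc := []
  Td := [((0, 1), (0, 1), 4), ((0, 1), (0, 7), 5), ((0, 1), (3, 5), 2), ((0, 1), (3, 8), 6), ((0,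
    1), (4, 6), 3), ((1, 0), (2, 1), 4), ((1, 0), (2, 8), 6)]
  G := [[0, 0xccacc6c26cacc6c2c, 0, 0x116411a8c116411a8cc, 0x11c116a41414a1812acc], [0,
    0xacacc6c2cc64aaa8cc, 0xc4c26c88c1, 0xcc64cca8c1, 0x44cc6ac8c8c1], [0,
    0xacaac6c26caac6c2c, 0, 0x116411a8c1, 0x11c116a41]]

noncomputable def n223 : Ent := ⟨e223, noF, [], [], []⟩

def c223 : PLift (Cov.check n223.C.D v223 = true) := ⟨by decide +kernel⟩

def b223 : PLift (entF (fidx ts) 400 223 n223 = true) := ⟨by decide +kernel⟩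

theorem g223 : GoodF (fidx ts) 400 223 := GoodF.ofV v223 n223 c223.down b223.down

/-- 48554:192 -/
noncomputable def e224 : SCfg where
  D := {
    a := 5
    L := 10
    kp := 7
    inn := [(0, 1), (1, 0), (1, 2), (1, 3), (1, 4), (2, 1), (3, 1), (4, 1)]
    mix := [(0, 0), (0, 1), (0, 2), (1, 0), (1, 2), (1, 3), (1, 4), (2, 3), (2, 4), (2, 5), (2, 6), (3,
      0), (3, 4), (3, 7), (3, 8), (4, 2), (4, 3), (4, 9)]
    cl := [0, 2, 1, 0, 0, 3, 4, 5, 6, 7]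
    chq := [(0, 1), (1, 0)]
    rng := [(0, 1), (0, 8), (1, 0), (1, 2), (2, 1), (2, 9), (3, 5), (3, 9), (4, 6), (4, 7), (5, 3), (5,
      6), (6, 4), (6, 5), (7, 4), (7, 8), (8, 0), (8, 7), (9, 2), (9, 3)]
    lev := [] }
  links := [[1, 5, 6, 7], [5, 0, 7, 4, 8, 2, 9, 3], [9, 1, 8, 10, 11], [5, 1, 9, 12, 13], [8, 1, 7, 14]]
  P := {
    a := 5
    N := 15
    nb := [226, 957, 3842, 12834, 16770, 8267, 161, 16467, 17430, 6158, 2308, 1540, 8712, 4136, 400]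
    tri := [(0, 1, 5), (0, 1, 7), (0, 5, 6), (0, 6, 7), (1, 2, 8), (1, 2, 9), (1, 3, 5), (1, 3, 9), (1,
      4, 7), (1, 4, 8), (2, 8, 10), (2, 9, 11), (2, 10, 11), (3, 5, 13), (3, 9, 12), (3, 12, 13),
      (4, 7, 14), (4, 8, 14)]
    fin := [0, 0, 0, 0, 0, 0, 6, 7, 0, 0, 10, 11, 12, 13, 14]
    chd := [(0, 7)]
    steps := [(0, 1), (0, 2), (0, 3), (0, 4), (0, 5), (0, 8), (0, 9)] }
  rep := [0, 7, 6, 10, 11, 12, 13, 14]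

noncomputable def v224 : Cov.CovD where
  P := 3
  N := 5
  pl := [1, 5, 6, 7, 8, 9]
  lev := [⟨[], [], [(0, 1)], [2], [(0, 0, [1]), (2, 1, [0])]⟩,
    ⟨[], [(0, 0), (0, 1)], [(0, 0), (0, 1)], [], [(0, 0, [1]), (2, 1, [0]), (3, 0, [1]),
      (4, 0, [1])]⟩,
    ⟨[(0, 1)], [(1, 0), (1, 1)], [(0, 0)], [3, 4], [(3, 0, [1]), (4, 0, [1])]⟩,
    ⟨[(0, 1), (1, 2)], [(0, 0), (1, 0), (1, 1), (2, 0)], [(0, 0)], [5, 6], [(0, 0, [1]),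
      (4, 0, [1])]⟩,
    ⟨[(0, 1), (1, 2), (1, 3)], [(0, 1), (1, 0), (1, 1), (2, 0)], [(0, 1)], [7], [(2, 1,
      [0]), (3, 0, [1])]⟩]
  Ta := [((0, 1), 0, 2), ((0, 8), 0, 6), ((3, 5), 0, 3), ((3, 9), 0, 7), ((4, 6), 0, 4), ((4, 7),
    0, 5)]
  Tb := [((0, 1, 8), 0, 2, 6), ((1, 0, 2), 2, 0, 1), ((2, 1, 9), 1, 2, 7), ((3, 5, 9), 0, 3, 7),
    ((4, 6, 7), 0, 4, 5), ((5, 3, 6), 3, 0, 4), ((6, 4, 5), 4, 0, 3), ((7, 4, 8), 5, 0, 6),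
    ((8, 0, 7), 6, 0, 5), ((9, 2, 3), 7, 1, 0)]
  Tc := []
  Td := [((0, 1), (0, 1), 2), ((0, 1), (0, 8), 6), ((0, 1), (3, 5), 3), ((0, 1), (3, 9), 7), ((0,
    1), (4, 6), 4), ((0, 1), (4, 7), 5), ((1, 0), (2, 1), 2), ((1, 0), (2, 9), 7)]
  G := [[0, 0x66666ce666eea88c4, 0x1164111e18111eec8, 0x116111e111ee188c4, 0x144111e11a111eec8],
    [0, 0xc22a6ce6aceccce68, 0, 0x444ccecc6ec8ce88c8ec1, 0x444cce4cceec8ce8888ec1], [0,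
    0x6666cce6aaeea88c4, 0, 0x14111e111ee11a8c1, 0x111e111e6111e8c1]]

noncomputable def n224 : Ent := ⟨e224, noF, [], [], [(11, 12, [87899350853947037246286378706680507498760953601682102415361, 0])]⟩

def c224 : PLift (Cov.check n224.C.D v224 = true) := ⟨by decide +kernel⟩

def b224 : PLift (entF (fidx ts) 400 224 n224 = true) := ⟨by decide +kernel⟩

theorem g224 : GoodF (fidx ts) 400 224 := GoodF.ofV v224 n224 c224.down b224.down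

/-- 48554:193/1 -/
noncomputable def e225 : SCfg where
  D := {
    a := 5
    L := 9
    kp := 6
    inn := [(0, 1), (1, 0), (1, 2), (1, 3), (2, 1), (2, 4), (3, 1), (4, 2)]
    mix := [(0, 0), (0, 1), (0, 2), (1, 0), (1, 2), (1, 3), (1, 4), (1, 5), (2, 4), (2, 5), (2, 6), (3,
      0), (3, 5), (3, 6), (3, 7), (4, 4), (4, 6), (4, 8)]
    cl := [0, 4, 1, 2, 0, 0, 3, 5, 6]
    chq := [(2, 4), (4, 2)]
    rng := [(0, 1), (0, 7), (1, 0), (1, 2), (2, 1), (2, 3), (3, 2), (3, 4), (4, 3), (4, 8), (5, 6), (6,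
      5), (6, 7), (6, 8), (7, 0), (7, 6), (8, 4), (8, 6)]
    lev := [] }
  links := [[1, 5, 6, 7], [5, 0, 7, 8, 9, 2, 10, 3], [10, 1, 9, 4, 11], [5, 1, 10, 11, 12], [11, 2, 9,
    13]]
  P := {
    a := 5
    N := 14
    nb := [226, 1965, 3602, 7202, 10756, 4171, 161, 323, 642, 8470, 2062, 13340, 2088, 2576]
    tri := [(0, 1, 5), (0, 1, 7), (0, 5, 6), (0, 6, 7), (1, 2, 9), (1, 2, 10), (1, 3, 5), (1, 3, 10),
      (1, 7, 8), (1, 8, 9), (2, 4, 9), (2, 4, 11), (2, 10, 11), (3, 5, 12), (3, 10, 11), (3, 11,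
      12), (4, 9, 13), (4, 11, 13)]
    fin := [0, 0, 2, 2, 2, 2, 0, 7, 8, 2, 2, 11, 12, 13]
    chd := [(0, 8)]
    steps := [(0, 1), (0, 6), (2, 4), (2, 9), (2, 10), (2, 3), (2, 5)] }
  rep := [2, 7, 8, 11, 0, 12, 13]

noncomputable def v225 : Cov.CovD where
  P := 3
  N := 4
  pl := [2, 6, 7, 8]
  lev := [⟨[], [], [(0, 4)], [1], [(0, 0, []), (1, 4, [2])]⟩,
    ⟨[], [(0, 0), (0, 2), (0, 4)], [(0, 0), (0, 2)], [1], [(0, 0, []), (3, 2, [4]), (4, 0,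
      []), (5, 0, [])]⟩,
    ⟨[(0, 1)], [(1, 0), (1, 2)], [(0, 0)], [3], [(4, 0, []), (5, 0, [])]⟩,
    ⟨[(0, 1), (1, 2)], [(0, 0), (1, 0), (1, 2), (2, 0)], [(0, 0)], [3, 5], [(0, 0, []), (5,
      0, [])]⟩,
    ⟨[(1, 2)], [(1, 0), (2, 0)], [], [3, 6], [(4, 0, [])]⟩]
  Ta := [((0, 1), 0, 4), ((0, 7), 0, 5), ((4, 3), 0, 2), ((4, 8), 0, 6), ((5, 6), 0, 3)]
  Tb := [((0, 1, 7), 0, 4, 5), ((1, 0, 2), 4, 0, 1), ((2, 1, 3), 1, 4, 2), ((3, 2, 4), 2, 1, 0),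
    ((4, 3, 8), 0, 2, 6), ((6, 5, 7), 3, 0, 5), ((6, 5, 8), 3, 0, 6), ((6, 7, 8), 3, 5, 6),
    ((7, 0, 6), 5, 0, 3), ((8, 4, 6), 6, 0, 3)]
  Tc := []
  Td := [((2, 4), (3, 2), 1), ((2, 4), (3, 4), 0), ((4, 2), (1, 0), 0), ((4, 2), (1, 2), 1)]
  G := [[0, 0x11c116a42, 0, 0x11c116a414126188cc, 0x11c11a684], [0, 0xcecaea682, 0xcecaea681,
    0xecc6e6a41, 0xcecaea684], [0, 0xe1c616a42, 0, 0x11caea681, 0x15ca3a684]]

noncomputable def n225 : Ent := ⟨e225, noF, [], [], []⟩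

def c225 : PLift (Cov.check n225.C.D v225 = true) := ⟨by decide +kernel⟩

def b225 : PLift (entF (fidx ts) 400 225 n225 = true) := ⟨by decide +kernel⟩

theorem g225 : GoodF (fidx ts) 400 225 := GoodF.ofV v225 n225 c225.down b225.down

/-- 48554:193 -/
noncomputable def e226 : SCfg where
  D := {
    a := 5
    L := 10
    kp := 7
    inn := [(0, 1), (1, 0), (1, 2), (1, 3), (2, 1), (2, 4), (3, 1), (4, 2)]
    mix := [(0, 0), (0, 1), (0, 2), (1, 0), (1, 2), (1, 3), (1, 4), (1, 5), (2, 4), (2, 5), (2, 6), (3,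
      0), (3, 5), (3, 7), (3, 8), (4, 4), (4, 6), (4, 9)]
    cl := [0, 4, 1, 2, 0, 0, 3, 5, 6, 7]
    chq := [(2, 4), (4, 2)]
    rng := [(0, 1), (0, 8), (1, 0), (1, 2), (2, 1), (2, 3), (3, 2), (3, 4), (4, 3), (4, 9), (5, 6), (5,
      7), (6, 5), (6, 9), (7, 5), (7, 8), (8, 0), (8, 7), (9, 4), (9, 6)]
    lev := [] }
  links := [[1, 5, 6, 7], [5, 0, 7, 8, 9, 2, 10, 3], [10, 1, 9, 4, 11], [5, 1, 10, 12, 13], [11, 2, 9,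
    14]]
  P := {
    a := 5
    N := 15
    nb := [226, 1965, 3602, 13346, 18948, 8267, 161, 323, 642, 16662, 6158, 17428, 9224, 4136, 2576]
    tri := [(0, 1, 5), (0, 1, 7), (0, 5, 6), (0, 6, 7), (1, 2, 9), (1, 2, 10), (1, 3, 5), (1, 3, 10),
      (1, 7, 8), (1, 8, 9), (2, 4, 9), (2, 4, 11), (2, 10, 11), (3, 5, 13), (3, 10, 12), (3, 12,
      13), (4, 9, 14), (4, 11, 14)]
    fin := [0, 0, 2, 2, 2, 2, 0, 7, 8, 2, 2, 11, 12, 13, 14]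
    chd := [(0, 8)]
    steps := [(0, 1), (0, 6), (2, 4), (2, 9), (2, 10), (2, 3), (2, 5)] }
  rep := [2, 7, 8, 11, 0, 12, 13, 14]

noncomputable def v226 : Cov.CovD where
  P := 3
  N := 5
  pl := [2, 6, 7, 8, 9]
  lev := [⟨[], [], [(0, 4)], [1], [(0, 0, []), (1, 4, [2])]⟩,
    ⟨[], [(0, 0), (0, 2), (0, 4)], [(0, 0), (0, 2)], [1], [(0, 0, []), (3, 2, [4]), (4, 0,
      []), (5, 0, [])]⟩,
    ⟨[(0, 1)], [(1, 0), (1, 2)], [(0, 0)], [3], [(4, 0, []), (5, 0, [])]⟩,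
    ⟨[(0, 1), (1, 2)], [(0, 0), (1, 0), (1, 2), (2, 0)], [(0, 0)], [5, 6], [(0, 0, []), (5,
      0, [])]⟩,
    ⟨[(1, 2)], [(1, 0), (2, 0)], [], [3, 7], [(4, 0, [])]⟩]
  Ta := [((0, 1), 0, 4), ((0, 8), 0, 6), ((4, 3), 0, 2), ((4, 9), 0, 7), ((5, 6), 0, 3), ((5, 7),
    0, 5)]
  Tb := [((0, 1, 8), 0, 4, 6), ((1, 0, 2), 4, 0, 1), ((2, 1, 3), 1, 4, 2), ((3, 2, 4), 2, 1, 0),
    ((4, 3, 9), 0, 2, 7), ((5, 6, 7), 0, 3, 5), ((6, 5, 9), 3, 0, 7), ((7, 5, 8), 5, 0, 6),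
    ((8, 0, 7), 6, 0, 5), ((9, 4, 6), 7, 0, 3)]
  Tc := []
  Td := [((2, 4), (3, 2), 1), ((2, 4), (3, 4), 0), ((4, 2), (1, 0), 0), ((4, 2), (1, 2), 1)]
  G := [[0, 0x111e111e682, 0, 0x111e111ea411618111ee8c, 0x111e111e684], [0, 0xccceaaae682,
    0xccceaaae681, 0x4cc48ca2a6eac1, 0xccceaaae684], [0, 0x11ce661ea42, 0, 0x1c1e616ea41,
    0x13cea91e681]]

noncomputable def n226 : Ent := ⟨e226, noF, [], [], [(11, 12, [87899350853947037246286378706680507498760953601682102423553, 0])]⟩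

def c226 : PLift (Cov.check n226.C.D v226 = true) := ⟨by decide +kernel⟩

def b226 : PLift (entF (fidx ts) 400 226 n226 = true) := ⟨by decide +kernel⟩

theorem g226 : GoodF (fidx ts) 400 226 := GoodF.ofV v226 n226 c226.down b226.down

/-- 48554:194/1 -/
noncomputable def e227 : SCfg where
  D := {
    a := 5
    L := 9
    kp := 6
    inn := [(0, 1), (1, 0), (1, 2), (1, 3), (2, 1), (2, 4), (3, 1), (4, 2)]
    mix := [(0, 0), (0, 1), (0, 2), (1, 0), (1, 2), (1, 3), (1, 4), (1, 5), (2, 4), (2, 5), (2, 6), (3,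
      0), (3, 5), (3, 7), (3, 8), (4, 5), (4, 6), (4, 7)]
    cl := [0, 4, 1, 5, 0, 0, 2, 3, 6]
    chq := [(4, 5), (5, 4)]
    rng := [(0, 1), (0, 8), (1, 0), (1, 2), (2, 1), (2, 3), (3, 2), (3, 4), (4, 3), (4, 6), (5, 7), (6,
      4), (6, 7), (7, 5), (7, 6), (7, 8), (8, 0), (8, 7)]
    lev := [] }
  links := [[1, 5, 6, 7], [5, 0, 7, 8, 9, 2, 10, 3], [10, 1, 9, 11, 4], [5, 1, 10, 12, 13], [10, 2, 11,
    12]]
  P := {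
    a := 5
    N := 14
    nb := [226, 1965, 3602, 13346, 7172, 8267, 161, 323, 642, 2310, 4126, 4628, 11288, 4136]
    tri := [(0, 1, 5), (0, 1, 7), (0, 5, 6), (0, 6, 7), (1, 2, 9), (1, 2, 10), (1, 3, 5), (1, 3, 10),
      (1, 7, 8), (1, 8, 9), (2, 4, 10), (2, 4, 11), (2, 9, 11), (3, 5, 13), (3, 10, 12), (3, 12,
      13), (4, 10, 12), (4, 11, 12)]
    fin := [0, 0, 2, 2, 2, 2, 0, 7, 8, 2, 2, 11, 12, 13]
    chd := [(0, 8)]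
    steps := [(0, 1), (0, 6), (2, 4), (2, 9), (2, 10), (2, 3), (2, 5)] }
  rep := [2, 7, 11, 12, 0, 8, 13]

noncomputable def v227 : Cov.CovD where
  P := 3
  N := 4
  pl := [2, 6, 7, 8]
  lev := [⟨[], [], [(0, 4)], [1], [(0, 0, []), (1, 4, [5])]⟩,
    ⟨[], [(0, 0), (0, 4), (0, 5)], [(0, 0), (0, 5)], [1], [(0, 0, []), (3, 5, [4]), (4, 0,
      []), (5, 0, [])]⟩,
    ⟨[(0, 1)], [(1, 0), (1, 5)], [(0, 0)], [2], [(4, 0, []), (5, 0, [])]⟩,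
    ⟨[(0, 1), (1, 2)], [(0, 0), (1, 0), (1, 5), (2, 0)], [(0, 0)], [3, 6], [(0, 0, []), (5,
      0, [])]⟩,
    ⟨[(1, 2)], [(1, 0), (2, 0), (3, 0)], [], [2, 3], [(5, 0, [])]⟩]
  Ta := [((0, 1), 0, 4), ((0, 8), 0, 6), ((4, 3), 0, 5), ((4, 6), 0, 2), ((5, 7), 0, 3)]
  Tb := [((0, 1, 8), 0, 4, 6), ((1, 0, 2), 4, 0, 1), ((2, 1, 3), 1, 4, 5), ((3, 2, 4), 5, 1, 0),
    ((4, 3, 6), 0, 5, 2), ((6, 4, 7), 2, 0, 3), ((7, 5, 6), 3, 0, 2), ((7, 5, 8), 3, 0, 6),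
    ((7, 6, 8), 3, 2, 6), ((8, 0, 7), 6, 0, 3)]
  Tc := []
  Td := [((4, 5), (1, 0), 0), ((4, 5), (1, 2), 1), ((5, 4), (3, 2), 1), ((5, 4), (3, 4), 0)]
  G := [[0, 0x841e84841e48c, 0, 0x811e84841e48c, 0x111e24812e28c], [0x842e24842e28c,
    0x111e84841e48c, 0x842e4842e8c1, 0x841e4841e8c1, 0x112e2812e2c1], [0, 0x84ce8484ce48c, 0,
    0x84ce484ce8c1, 0x8a2e28a2e2c1]]

noncomputable def n227 : Ent := ⟨e227, noF, [], [], []⟩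

def c227 : PLift (Cov.check n227.C.D v227 = true) := ⟨by decide +kernel⟩

def b227 : PLift (entF (fidx ts) 400 227 n227 = true) := ⟨by decide +kernel⟩

theorem g227 : GoodF (fidx ts) 400 227 := GoodF.ofV v227 n227 c227.down b227.down

/-- 48554:194 -/
noncomputable def e228 : SCfg where
  D := {
    a := 5
    L := 10
    kp := 7
    inn := [(0, 1), (1, 0), (1, 2), (1, 3), (2, 1), (2, 4), (3, 1), (4, 2)]
    mix := [(0, 0), (0, 1), (0, 2), (1, 0), (1, 2), (1, 3), (1, 4), (1, 5), (2, 4), (2, 5), (2, 6), (3,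
      0), (3, 5), (3, 7), (3, 8), (4, 5), (4, 6), (4, 9)]
    cl := [0, 4, 1, 2, 0, 0, 3, 5, 6, 7]
    chq := [(2, 4), (4, 2)]
    rng := [(0, 1), (0, 8), (1, 0), (1, 2), (2, 1), (2, 3), (3, 2), (3, 4), (4, 3), (4, 6), (5, 7), (5,
      9), (6, 4), (6, 9), (7, 5), (7, 8), (8, 0), (8, 7), (9, 5), (9, 6)]
    lev := [] }
  links := [[1, 5, 6, 7], [5, 0, 7, 8, 9, 2, 10, 3], [10, 1, 9, 11, 4], [5, 1, 10, 12, 13], [10, 2, 11,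
    14]]
  P := {
    a := 5
    N := 15
    nb := [226, 1965, 3602, 13346, 19460, 8267, 161, 323, 642, 2310, 20510, 16916, 9224, 4136, 3088]
    tri := [(0, 1, 5), (0, 1, 7), (0, 5, 6), (0, 6, 7), (1, 2, 9), (1, 2, 10), (1, 3, 5), (1, 3, 10),
      (1, 7, 8), (1, 8, 9), (2, 4, 10), (2, 4, 11), (2, 9, 11), (3, 5, 13), (3, 10, 12), (3, 12,
      13), (4, 10, 14), (4, 11, 14)]
    fin := [0, 0, 2, 2, 2, 2, 0, 7, 8, 2, 2, 11, 12, 13, 14]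
    chd := [(0, 8)]
    steps := [(0, 1), (0, 6), (2, 4), (2, 9), (2, 10), (2, 3), (2, 5)] }
  rep := [2, 7, 8, 11, 0, 12, 13, 14]

noncomputable def v228 : Cov.CovD where
  P := 3
  N := 5
  pl := [2, 6, 7, 8, 9]
  lev := [⟨[], [], [(0, 4)], [1], [(0, 0, []), (1, 4, [2])]⟩,
    ⟨[], [(0, 0), (0, 2), (0, 4)], [(0, 0), (0, 2)], [1], [(0, 0, []), (3, 2, [4]), (4, 0,
      []), (5, 0, [])]⟩,
    ⟨[(0, 1)], [(1, 0), (1, 2)], [(0, 0)], [3], [(4, 0, []), (5, 0, [])]⟩,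
    ⟨[(0, 1), (1, 2)], [(0, 0), (1, 0), (1, 2), (2, 0)], [(0, 0)], [5, 6], [(0, 0, []), (5,
      0, [])]⟩,
    ⟨[(1, 2)], [(1, 0), (2, 0), (3, 0)], [], [3, 7], [(5, 0, [])]⟩]
  Ta := [((0, 1), 0, 4), ((0, 8), 0, 6), ((4, 3), 0, 2), ((4, 6), 0, 3), ((5, 7), 0, 5), ((5, 9),
    0, 7)]
  Tb := [((0, 1, 8), 0, 4, 6), ((1, 0, 2), 4, 0, 1), ((2, 1, 3), 1, 4, 2), ((3, 2, 4), 2, 1, 0),
    ((4, 3, 6), 0, 2, 3), ((5, 7, 9), 0, 5, 7), ((6, 4, 9), 3, 0, 7), ((7, 5, 8), 5, 0, 6),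
    ((8, 0, 7), 6, 0, 5), ((9, 5, 6), 7, 0, 3)]
  Tc := []
  Td := [((2, 4), (3, 2), 1), ((2, 4), (3, 4), 0), ((4, 2), (1, 0), 0), ((4, 2), (1, 2), 1)]
  G := [[0, 0x111e111e682, 0, 0x111e111ea411618111ee8c, 0x111e111e684], [0, 0x1ccea11e682,
    0x111e111ea41, 0x1ccea11e681, 0xccce111e681], [0, 0xccce666ea42, 0, 0xccceaaae681,
    0xccceaaae684]]

noncomputable def n228 : Ent := ⟨e228, noF, [], [], [(14, 12, [81623781614101222371308947630499991391842216896340251521025, 0])]⟩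

def c228 : PLift (Cov.check n228.C.D v228 = true) := ⟨by decide +kernel⟩

def b228 : PLift (entF (fidx ts) 400 228 n228 = true) := ⟨by decide +kernel⟩

theorem g228 : GoodF (fidx ts) 400 228 := GoodF.ofV v228 n228 c228.down b228.down

/-- 48554:195/1 -/
noncomputable def e229 : SCfg where
  D := {
    a := 5
    L := 9
    kp := 6
    inn := [(0, 1), (1, 0), (1, 2), (1, 3), (2, 1), (3, 1), (3, 4), (4, 3)]
    mix := [(0, 0), (0, 1), (0, 2), (1, 0), (1, 2), (1, 3), (1, 4), (1, 5), (2, 4), (2, 5), (2, 6), (2,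
      7), (3, 0), (3, 5), (3, 8), (4, 5), (4, 7), (4, 8)]
    cl := [0, 4, 1, 5, 0, 0, 6, 2, 3]
    chq := [(4, 5), (5, 4)]
    rng := [(0, 1), (0, 8), (1, 0), (1, 2), (2, 1), (2, 3), (3, 2), (3, 4), (4, 3), (4, 6), (5, 7), (6,
      4), (6, 7), (7, 5), (7, 6), (7, 8), (8, 0), (8, 7)]
    lev := [] }
  links := [[1, 5, 6, 7], [5, 0, 7, 8, 9, 2, 10, 3], [10, 1, 9, 11, 12], [5, 1, 10, 4, 13], [13, 3, 10,
    12]]
  P := {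
    a := 5
    N := 14
    nb := [226, 1965, 7682, 9266, 13320, 8267, 161, 323, 642, 2310, 4126, 4612, 11284, 4152]
    tri := [(0, 1, 5), (0, 1, 7), (0, 5, 6), (0, 6, 7), (1, 2, 9), (1, 2, 10), (1, 3, 5), (1, 3, 10),
      (1, 7, 8), (1, 8, 9), (2, 9, 11), (2, 10, 12), (2, 11, 12), (3, 4, 10), (3, 4, 13), (3, 5,
      13), (4, 10, 12), (4, 12, 13)]
    fin := [0, 0, 2, 2, 2, 2, 0, 7, 8, 2, 2, 11, 12, 13]
    chd := [(0, 8)]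
    steps := [(0, 1), (0, 6), (2, 9), (2, 10), (2, 3), (2, 4), (2, 5)] }
  rep := [2, 7, 12, 13, 0, 8, 11]

noncomputable def v229 : Cov.CovD where
  P := 3
  N := 4
  pl := [2, 6, 7, 8]
  lev := [⟨[], [], [(0, 4)], [1], [(0, 0, []), (1, 4, [5])]⟩,
    ⟨[], [(0, 0), (0, 4), (0, 5)], [(0, 0), (0, 5)], [1], [(0, 0, []), (3, 5, [4]), (4, 0,
      []), (5, 0, [])]⟩,
    ⟨[(0, 1)], [(1, 0), (1, 5)], [(0, 0)], [2, 6], [(4, 0, []), (5, 0, [])]⟩,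
    ⟨[(0, 1), (1, 2)], [(0, 0), (1, 0), (1, 5), (2, 0)], [(0, 0)], [3], [(0, 0, []), (5, 0,
      [])]⟩,
    ⟨[(1, 3)], [(1, 0), (2, 0), (3, 0)], [], [2, 3], [(5, 0, [])]⟩]
  Ta := [((0, 1), 0, 4), ((0, 8), 0, 3), ((4, 3), 0, 5), ((4, 6), 0, 6), ((5, 7), 0, 2)]
  Tb := [((0, 1, 8), 0, 4, 3), ((1, 0, 2), 4, 0, 1), ((2, 1, 3), 1, 4, 5), ((3, 2, 4), 5, 1, 0),
    ((4, 3, 6), 0, 5, 6), ((6, 4, 7), 6, 0, 2), ((7, 5, 6), 2, 0, 6), ((7, 5, 8), 2, 0, 3),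
    ((7, 6, 8), 2, 6, 3), ((8, 0, 7), 3, 0, 2)]
  Tc := []
  Td := [((4, 5), (1, 0), 0), ((4, 5), (1, 2), 1), ((5, 4), (3, 2), 1), ((5, 4), (3, 4), 0)]
  G := [[0, 0x84a81ac448614cc8c, 0, 0x41a81ac4816486c8c, 0x82682aa412612aa8c], [0,
    0x81c14ac4116416c8c, 0, 0x116116c11a81acc1, 0x186816a81a186ac1], [0x82c82ca442642668c,
    0x84c84cc2486486c8a, 0x826486c82a82cac1, 0x486486c84a84acc1, 0x826826a82c82aac1]]

noncomputable def n229 : Ent := ⟨e229, noF, [], [], []⟩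

def c229 : PLift (Cov.check n229.C.D v229 = true) := ⟨by decide +kernel⟩

def b229 : PLift (entF (fidx ts) 400 229 n229 = true) := ⟨by decide +kernel⟩

theorem g229 : GoodF (fidx ts) 400 229 := GoodF.ofV v229 n229 c229.down b229.down

/-- 48554:195 -/
noncomputable def e230 : SCfg where
  D := {
    a := 5
    L := 10
    kp := 7
    inn := [(0, 1), (1, 0), (1, 2), (1, 3), (2, 1), (3, 1), (3, 4), (4, 3)]
    mix := [(0, 0), (0, 1), (0, 2), (1, 0), (1, 2), (1, 3), (1, 4), (1, 5), (2, 4), (2, 5), (2, 6), (2,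
      7), (3, 0), (3, 5), (3, 8), (4, 5), (4, 8), (4, 9)]
    cl := [0, 4, 1, 2, 0, 0, 5, 6, 3, 7]
    chq := [(2, 4), (4, 2)]
    rng := [(0, 1), (0, 8), (1, 0), (1, 2), (2, 1), (2, 3), (3, 2), (3, 4), (4, 3), (4, 6), (5, 7), (5,
      9), (6, 4), (6, 7), (7, 5), (7, 6), (8, 0), (8, 9), (9, 5), (9, 8)]
    lev := [] }
  links := [[1, 5, 6, 7], [5, 0, 7, 8, 9, 2, 10, 3], [10, 1, 9, 11, 12], [5, 1, 10, 4, 13], [13, 3, 10,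
    14]]
  P := {
    a := 5
    N := 15
    nb := [226, 1965, 7682, 9266, 25608, 8267, 161, 323, 642, 2310, 20510, 4612, 3076, 16440, 9232]
    tri := [(0, 1, 5), (0, 1, 7), (0, 5, 6), (0, 6, 7), (1, 2, 9), (1, 2, 10), (1, 3, 5), (1, 3, 10),
      (1, 7, 8), (1, 8, 9), (2, 9, 11), (2, 10, 12), (2, 11, 12), (3, 4, 10), (3, 4, 13), (3, 5,
      13), (4, 10, 14), (4, 13, 14)]
    fin := [0, 0, 2, 2, 2, 2, 0, 7, 8, 2, 2, 11, 12, 13, 14]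
    chd := [(0, 8)]
    steps := [(0, 1), (0, 6), (2, 9), (2, 10), (2, 3), (2, 4), (2, 5)] }
  rep := [2, 7, 8, 13, 0, 11, 12, 14]

noncomputable def v230 : Cov.CovD where
  P := 3
  N := 5
  pl := [2, 6, 7, 8, 9]
  lev := [⟨[], [], [(0, 4)], [1], [(0, 0, []), (1, 4, [2])]⟩,
    ⟨[], [(0, 0), (0, 2), (0, 4)], [(0, 0), (0, 2)], [1], [(0, 0, []), (3, 2, [4]), (4, 0,
      []), (5, 0, [])]⟩,
    ⟨[(0, 1)], [(1, 0), (1, 2)], [(0, 0)], [5, 6], [(4, 0, []), (5, 0, [])]⟩,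
    ⟨[(0, 1), (1, 2)], [(0, 0), (1, 0), (1, 2), (2, 0)], [(0, 0)], [3], [(0, 0, []), (5, 0,
      [])]⟩,
    ⟨[(1, 3)], [(1, 0), (2, 0), (3, 0)], [], [3, 7], [(5, 0, [])]⟩]
  Ta := [((0, 1), 0, 4), ((0, 8), 0, 3), ((4, 3), 0, 2), ((4, 6), 0, 5), ((5, 7), 0, 6), ((5, 9),
    0, 7)]
  Tb := [((0, 1, 8), 0, 4, 3), ((1, 0, 2), 4, 0, 1), ((2, 1, 3), 1, 4, 2), ((3, 2, 4), 2, 1, 0),
    ((4, 3, 6), 0, 2, 5), ((5, 7, 9), 0, 6, 7), ((6, 4, 7), 5, 0, 6), ((7, 5, 6), 6, 0, 5),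
    ((8, 0, 9), 3, 0, 7), ((9, 5, 8), 7, 0, 3)]
  Tc := []
  Td := [((2, 4), (3, 2), 1), ((2, 4), (3, 4), 0), ((4, 2), (1, 0), 0), ((4, 2), (1, 2), 1)]
  G := [[0, 0xa1c16ac1ae42, 0, 0xc164c1aa1cac71616a1d6e8c, 0x53616c1bce84], [0, 0x11611a11ae42,
    0x11611a11ae81, 0x11611a11ae81, 0x11611611ce81], [0, 0xca6ca6ca6e82, 0, 0xca6ca6ca6e81,
    0xca6ca6ca6e81]]

noncomputable def n230 : Ent := ⟨e230, noF, [], [], [(12, 14, [81620716623019490593592230936445690773474979418095884324865, 0])]⟩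

def c230 : PLift (Cov.check n230.C.D v230 = true) := ⟨by decide +kernel⟩

def b230 : PLift (entF (fidx ts) 400 230 n230 = true) := ⟨by decide +kernel⟩

theorem g230 : GoodF (fidx ts) 400 230 := GoodF.ofV v230 n230 c230.down b230.down

/-- 48554:196/2 -/
noncomputable def e231 : SCfg where
  D := {
    a := 5
    L := 8
    kp := 5
    inn := [(0, 1), (1, 0), (1, 2), (1, 3), (2, 1), (3, 1), (3, 4), (4, 3)]
    mix := [(0, 0), (0, 1), (0, 2), (1, 0), (1, 2), (1, 3), (1, 4), (1, 5), (2, 4), (2, 5), (2, 6), (2,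
      7), (3, 0), (3, 5), (3, 7), (4, 0), (4, 1), (4, 7)]
    cl := [0, 4, 1, 2, 0, 0, 5, 3]
    chq := [(2, 4), (4, 2)]
    rng := [(0, 1), (1, 0), (1, 2), (1, 7), (2, 1), (2, 3), (3, 2), (3, 4), (4, 3), (4, 6), (5, 7), (6,
      4), (6, 7), (7, 1), (7, 5), (7, 6)]
    lev := [] }
  links := [[1, 5, 6, 7], [5, 0, 7, 8, 9, 2, 10, 3], [10, 1, 9, 11, 12], [5, 1, 10, 12, 4], [5, 3, 12,
    6]]
  P := {
    a := 5
    N := 13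
    nb := [226, 1965, 7682, 5170, 4200, 91, 4273, 323, 642, 2310, 4110, 4612, 3164]
    tri := [(0, 1, 5), (0, 1, 7), (0, 5, 6), (0, 6, 7), (1, 2, 9), (1, 2, 10), (1, 3, 5), (1, 3, 10),
      (1, 7, 8), (1, 8, 9), (2, 9, 11), (2, 10, 12), (2, 11, 12), (3, 4, 5), (3, 4, 12), (3, 10,
      12), (4, 5, 6), (4, 6, 12)]
    fin := [0, 0, 2, 2, 2, 2, 0, 7, 8, 2, 2, 11, 12]
    chd := [(0, 8)]
    steps := [(0, 1), (0, 6), (2, 9), (2, 10), (2, 3), (2, 5), (2, 4)] }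
  rep := [2, 7, 8, 12, 0, 11]

noncomputable def v231 : Cov.CovD where
  P := 3
  N := 3
  pl := [2, 6, 7]
  lev := [⟨[], [], [(0, 4)], [1], [(0, 0, []), (1, 4, [2])]⟩,
    ⟨[], [(0, 0), (0, 2), (0, 4)], [(0, 0), (0, 2)], [1], [(0, 0, []), (3, 2, [4]), (4, 0,
      []), (5, 0, [])]⟩,
    ⟨[(0, 1)], [(1, 0), (1, 2)], [(0, 0)], [3, 5], [(4, 0, []), (5, 0, [])]⟩,
    ⟨[(0, 1), (1, 2)], [(0, 0), (1, 0), (1, 2), (2, 0)], [(0, 0)], [3], [(0, 0, []), (5, 0,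
      [])]⟩,
    ⟨[(1, 3)], [(0, 0), (0, 4), (1, 0), (3, 0), (3, 4)], [(0, 4)], [3], [(0, 0, []), (1, 4,
      [2])]⟩]
  Ta := [((0, 1), 0, 4), ((4, 3), 0, 2), ((4, 6), 0, 5), ((5, 7), 0, 3)]
  Tb := [((1, 0, 2), 4, 0, 1), ((1, 0, 7), 4, 0, 3), ((1, 2, 7), 4, 1, 3), ((2, 1, 3), 1, 4, 2),
    ((3, 2, 4), 2, 1, 0), ((4, 3, 6), 0, 2, 5), ((6, 4, 7), 5, 0, 3), ((7, 1, 5), 3, 4, 0),
    ((7, 1, 6), 3, 4, 5), ((7, 5, 6), 3, 0, 5)]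
  Tc := []
  Td := [((2, 4), (3, 2), 1), ((2, 4), (3, 4), 0), ((4, 2), (1, 0), 0), ((4, 2), (1, 2), 1), ((4,
    2), (1, 7), 3)]
  G := [[0, 0xe44e8e2ac2, 0, 0x8882a22e444226688cc, 0xca6e4e2e84], [0, 0x1441812ac2,
    0x141268e882a22e45, 0xe8c2a22e41, 0x1161412e84], [0, 0x94326588c2, 0, 0xe4226e88c1,
    0x11688e4e2685]]

noncomputable def n231 : Ent := ⟨e231, noF, [], [], []⟩

def c231 : PLift (Cov.check n231.C.D v231 = true) := ⟨by decide +kernel⟩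

def b231 : PLift (entF (fidx ts) 400 231 n231 = true) := ⟨by decide +kernel⟩

theorem g231 : GoodF (fidx ts) 400 231 := GoodF.ofV v231 n231 c231.down b231.down

/-- 48554:196/1 -/
noncomputable def e232 : SCfg where
  D := {
    a := 5
    L := 9
    kp := 6
    inn := [(0, 1), (1, 0), (1, 2), (1, 3), (2, 1), (3, 1), (3, 4), (4, 3)]
    mix := [(0, 0), (0, 1), (0, 2), (1, 0), (1, 2), (1, 3), (1, 4), (1, 5), (2, 4), (2, 5), (2, 6), (2,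
      7), (3, 0), (3, 5), (3, 8), (4, 0), (4, 1), (4, 8)]
    cl := [0, 3, 1, 2, 0, 0, 5, 6, 4]
    chq := [(2, 3), (3, 2)]
    rng := [(0, 1), (1, 0), (1, 2), (1, 8), (2, 1), (2, 3), (3, 2), (3, 4), (4, 3), (4, 6), (5, 7), (5,
      8), (6, 4), (6, 7), (7, 5), (7, 6), (8, 1), (8, 5)]
    lev := [] }
  links := [[1, 5, 6, 7], [5, 0, 7, 8, 9, 2, 10, 3], [10, 1, 9, 11, 12], [5, 1, 10, 13, 4], [5, 3, 13,
    6]]
  P := {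
    a := 5
    N := 14
    nb := [226, 1965, 7682, 9266, 8296, 91, 8369, 323, 642, 2310, 12302, 4612, 3076, 1112]
    tri := [(0, 1, 5), (0, 1, 7), (0, 5, 6), (0, 6, 7), (1, 2, 9), (1, 2, 10), (1, 3, 5), (1, 3, 10),
      (1, 7, 8), (1, 8, 9), (2, 9, 11), (2, 10, 12), (2, 11, 12), (3, 4, 5), (3, 4, 13), (3, 10,
      13), (4, 5, 6), (4, 6, 13)]
    fin := [0, 0, 2, 2, 2, 2, 0, 7, 8, 2, 2, 11, 12, 13]
    chd := [(0, 8)]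
    steps := [(0, 1), (0, 6), (2, 9), (2, 10), (2, 3), (2, 5), (2, 4)] }
  rep := [2, 7, 8, 0, 13, 11, 12]

noncomputable def v232 : Cov.CovD where
  P := 3
  N := 4
  pl := [2, 6, 7, 8]
  lev := [⟨[], [], [(0, 3)], [1], [(0, 0, []), (1, 3, [2])]⟩,
    ⟨[], [(0, 0), (0, 2), (0, 3)], [(0, 0), (0, 2)], [1], [(0, 0, []), (3, 2, [3]), (4, 0,
      []), (5, 0, [])]⟩,
    ⟨[(0, 1)], [(1, 0), (1, 2)], [(0, 0)], [5, 6], [(4, 0, []), (5, 0, [])]⟩,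
    ⟨[(0, 1), (1, 2)], [(0, 0), (1, 0), (1, 2), (2, 0)], [(0, 0)], [4], [(0, 0, []), (5, 0,
      [])]⟩,
    ⟨[(1, 3)], [(0, 0), (0, 3), (1, 0), (3, 0), (3, 3)], [(0, 3)], [4], [(0, 0, []), (1, 3,
      [2])]⟩]
  Ta := [((0, 1), 0, 3), ((4, 3), 0, 2), ((4, 6), 0, 5), ((5, 7), 0, 6), ((5, 8), 0, 4)]
  Tb := [((1, 0, 2), 3, 0, 1), ((1, 0, 8), 3, 0, 4), ((1, 2, 8), 3, 1, 4), ((2, 1, 3), 1, 3, 2),
    ((3, 2, 4), 2, 1, 0), ((4, 3, 6), 0, 2, 5), ((5, 7, 8), 0, 6, 4), ((6, 4, 7), 5, 0, 6),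
    ((7, 5, 6), 6, 0, 5), ((8, 1, 5), 4, 3, 0)]
  Tc := []
  Td := [((2, 3), (3, 2), 1), ((2, 3), (3, 4), 0), ((3, 2), (1, 0), 0), ((3, 2), (1, 2), 1), ((3,
    2), (1, 8), 4)]
  G := [[0, 0xca6ca6ca6e82, 0, 0x82a82a82ce442642642ae8c, 0xca6ca6ca6e84], [0, 0x11a11a116e42,
    0x1248c6ac2ac6ae49, 0xc2ac2ac2ae41, 0x11611611ce84], [0, 0xc1ac1ac1ae42, 0,
    0xc26c26c26e81, 0x1a616c53ae84]]

noncomputable def n232 : Ent := ⟨e232, noF, [], [], [(12, 13, [18394062992640663726968434746027364144358640063418888193, 0])]⟩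

def c232 : PLift (Cov.check n232.C.D v232 = true) := ⟨by decide +kernel⟩

def b232 : PLift (entF (fidx ts) 400 232 n232 = true) := ⟨by decide +kernel⟩

theorem g232 : GoodF (fidx ts) 400 232 := GoodF.ofV v232 n232 c232.down b232.down

/-- 48554:196/3 -/
noncomputable def e233 : SCfg where
  D := {
    a := 5
    L := 9
    kp := 6
    inn := [(0, 1), (1, 0), (1, 2), (1, 3), (2, 1), (3, 1), (3, 4), (4, 3)]
    mix := [(0, 0), (0, 1), (0, 2), (1, 0), (1, 2), (1, 3), (1, 4), (1, 5), (2, 4), (2, 5), (2, 6), (2,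
      7), (3, 0), (3, 5), (3, 7), (4, 0), (4, 7), (4, 8)]
    cl := [0, 4, 1, 2, 0, 0, 5, 3, 6]
    chq := [(2, 4), (4, 2)]
    rng := [(0, 1), (0, 8), (1, 0), (1, 2), (2, 1), (2, 3), (3, 2), (3, 4), (4, 3), (4, 6), (5, 7), (6,
      4), (6, 7), (7, 5), (7, 6), (7, 8), (8, 0), (8, 7)]
    lev := [] }
  links := [[1, 5, 6, 7], [5, 0, 7, 8, 9, 2, 10, 3], [10, 1, 9, 11, 12], [5, 1, 10, 12, 4], [5, 3, 12,
    13]]
  P := {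
    a := 5
    N := 14
    nb := [226, 1965, 7682, 5170, 12328, 8283, 161, 323, 642, 2310, 4110, 4612, 11292, 4144]
    tri := [(0, 1, 5), (0, 1, 7), (0, 5, 6), (0, 6, 7), (1, 2, 9), (1, 2, 10), (1, 3, 5), (1, 3, 10),
      (1, 7, 8), (1, 8, 9), (2, 9, 11), (2, 10, 12), (2, 11, 12), (3, 4, 5), (3, 4, 12), (3, 10,
      12), (4, 5, 13), (4, 12, 13)]
    fin := [0, 0, 2, 2, 2, 2, 0, 7, 8, 2, 2, 11, 12, 13]
    chd := [(0, 8)]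
    steps := [(0, 1), (0, 6), (2, 9), (2, 10), (2, 3), (2, 4), (2, 5)] }
  rep := [2, 7, 8, 12, 0, 11, 13]

noncomputable def v233 : Cov.CovD where
  P := 3
  N := 4
  pl := [2, 6, 7, 8]
  lev := [⟨[], [], [(0, 4)], [1], [(0, 0, []), (1, 4, [2])]⟩,
    ⟨[], [(0, 0), (0, 2), (0, 4)], [(0, 0), (0, 2)], [1], [(0, 0, []), (3, 2, [4]), (4, 0,
      []), (5, 0, [])]⟩,
    ⟨[(0, 1)], [(1, 0), (1, 2)], [(0, 0)], [3, 5], [(4, 0, []), (5, 0, [])]⟩,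
    ⟨[(0, 1), (1, 2)], [(0, 0), (1, 0), (1, 2), (2, 0)], [(0, 0)], [3], [(0, 0, []), (5, 0,
      [])]⟩,
    ⟨[(1, 3)], [(0, 0), (1, 0), (3, 0)], [], [3, 6], [(0, 0, [])]⟩]
  Ta := [((0, 1), 0, 4), ((0, 8), 0, 6), ((4, 3), 0, 2), ((4, 6), 0, 5), ((5, 7), 0, 3)]
  Tb := [((0, 1, 8), 0, 4, 6), ((1, 0, 2), 4, 0, 1), ((2, 1, 3), 1, 4, 2), ((3, 2, 4), 2, 1, 0),
    ((4, 3, 6), 0, 2, 5), ((6, 4, 7), 5, 0, 3), ((7, 5, 6), 3, 0, 5), ((7, 5, 8), 3, 0, 6),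
    ((7, 6, 8), 3, 5, 6), ((8, 0, 7), 6, 0, 3)]
  Tc := []
  Td := [((2, 4), (3, 2), 1), ((2, 4), (3, 4), 0), ((4, 2), (1, 0), 0), ((4, 2), (1, 2), 1)]
  G := [[0, 0xe8c6ae2e42, 0, 0xe44e8e2acca6e4e2e8c, 0xca6e4e2e84], [0, 0x14126188c2,
    0x14126188c14126188cc, 0xe4e26e88c1, 0x1161412e84], [0, 0x144d8e2ac2, 0, 0xe8c6ae2e41,
    0xc165432e84]]

noncomputable def n233 : Ent := ⟨e233, noF, [], [], [(6, 13, [18394062992640663726968434746027364144358640063418888193, 0])]⟩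

def c233 : PLift (Cov.check n233.C.D v233 = true) := ⟨by decide +kernel⟩

def b233 : PLift (entF (fidx ts) 400 233 n233 = true) := ⟨by decide +kernel⟩

theorem g233 : GoodF (fidx ts) 400 233 := GoodF.ofV v233 n233 c233.down b233.down

/-- 48554:196 -/
noncomputable def e234 : SCfg where
  D := {
    a := 5
    L := 10
    kp := 7
    inn := [(0, 1), (1, 0), (1, 2), (1, 3), (2, 1), (3, 1), (3, 4), (4, 3)]
    mix := [(0, 0), (0, 1), (0, 2), (1, 0), (1, 2), (1, 3), (1, 4), (1, 5), (2, 4), (2, 5), (2, 6), (2,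
      7), (3, 0), (3, 5), (3, 8), (4, 0), (4, 8), (4, 9)]
    cl := [0, 4, 1, 2, 0, 0, 5, 6, 3, 7]
    chq := [(2, 4), (4, 2)]
    rng := [(0, 1), (0, 9), (1, 0), (1, 2), (2, 1), (2, 3), (3, 2), (3, 4), (4, 3), (4, 6), (5, 7), (5,
      8), (6, 4), (6, 7), (7, 5), (7, 6), (8, 5), (8, 9), (9, 0), (9, 8)]
    lev := [] }
  links := [[1, 5, 6, 7], [5, 0, 7, 8, 9, 2, 10, 3], [10, 1, 9, 11, 12], [5, 1, 10, 13, 4], [5, 3, 13,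
    14]]
  P := {
    a := 5
    N := 15
    nb := [226, 1965, 7682, 9266, 24616, 16475, 161, 323, 642, 2310, 12302, 4612, 3076, 17432, 8240]
    tri := [(0, 1, 5), (0, 1, 7), (0, 5, 6), (0, 6, 7), (1, 2, 9), (1, 2, 10), (1, 3, 5), (1, 3, 10),
      (1, 7, 8), (1, 8, 9), (2, 9, 11), (2, 10, 12), (2, 11, 12), (3, 4, 5), (3, 4, 13), (3, 10,
      13), (4, 5, 14), (4, 13, 14)]
    fin := [0, 0, 2, 2, 2, 2, 0, 7, 8, 2, 2, 11, 12, 13, 14]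
    chd := [(0, 8)]
    steps := [(0, 1), (0, 6), (2, 9), (2, 10), (2, 3), (2, 4), (2, 5)] }
  rep := [2, 7, 8, 13, 0, 11, 12, 14]

noncomputable def v234 : Cov.CovD where
  P := 3
  N := 5
  pl := [2, 6, 7, 8, 9]
  lev := [⟨[], [], [(0, 4)], [1], [(0, 0, []), (1, 4, [2])]⟩,
    ⟨[], [(0, 0), (0, 2), (0, 4)], [(0, 0), (0, 2)], [1], [(0, 0, []), (3, 2, [4]), (4, 0,
      []), (5, 0, [])]⟩,
    ⟨[(0, 1)], [(1, 0), (1, 2)], [(0, 0)], [5, 6], [(4, 0, []), (5, 0, [])]⟩,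
    ⟨[(0, 1), (1, 2)], [(0, 0), (1, 0), (1, 2), (2, 0)], [(0, 0)], [3], [(0, 0, []), (5, 0,
      [])]⟩,
    ⟨[(1, 3)], [(0, 0), (1, 0), (3, 0)], [], [3, 7], [(0, 0, [])]⟩]
  Ta := [((0, 1), 0, 4), ((0, 9), 0, 7), ((4, 3), 0, 2), ((4, 6), 0, 5), ((5, 7), 0, 6), ((5, 8),
    0, 3)]
  Tb := [((0, 1, 9), 0, 4, 7), ((1, 0, 2), 4, 0, 1), ((2, 1, 3), 1, 4, 2), ((3, 2, 4), 2, 1, 0),
    ((4, 3, 6), 0, 2, 5), ((5, 7, 8), 0, 6, 3), ((6, 4, 7), 5, 0, 6), ((7, 5, 6), 6, 0, 5),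
    ((8, 5, 9), 3, 0, 7), ((9, 0, 8), 7, 0, 3)]
  Tc := []
  Td := [((2, 4), (3, 2), 1), ((2, 4), (3, 4), 0), ((4, 2), (1, 0), 0), ((4, 2), (1, 2), 1)]
  G := [[0, 0xca6ca6ca6e82, 0, 0xc6ac6ac6ae4ca6ca6ca6e8c, 0xca6ca6ca6e84], [0, 0x11611a116e82,
    0x11c11a11ae411611c11ce8c, 0xca6ca6cc6a2c1, 0x11611611ae84], [0, 0xc1616cc16e82, 0,
    0xc6ac6ac6ae41, 0xc16c1616ae84]]

noncomputable def n234 : Ent := ⟨e234, noF, [], [], [(6, 14, [81620716623019490593592230936445690773474979418095884337153, 0]), (12, 13, [87897818358406171357428020359653357189577334862559918854145, 0])]⟩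

def c234 : PLift (Cov.check n234.C.D v234 = true) := ⟨by decide +kernel⟩

def b234 : PLift (entF (fidx ts) 400 234 n234 = true) := ⟨by decide +kernel⟩

theorem g234 : GoodF (fidx ts) 400 234 := GoodF.ofV v234 n234 c234.down b234.down

/-- 48454:198/1 -/
noncomputable def e235 : SCfg where
  D := {
    a := 5
    L := 8
    kp := 5
    inn := [(0, 1), (1, 0), (1, 2), (1, 3), (2, 1), (3, 1), (3, 4), (4, 3)]
    mix := [(0, 0), (0, 1), (0, 2), (1, 0), (1, 2), (1, 3), (1, 4), (1, 5), (2, 4), (2, 5), (2, 6), (3,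
      0), (3, 5), (3, 7), (4, 5), (4, 6), (4, 7)]
    cl := [0, 5, 1, 0, 2, 0, 3, 4]
    chq := []
    rng := [(0, 1), (0, 7), (1, 0), (1, 2), (2, 1), (2, 3), (3, 2), (3, 4), (4, 3), (4, 6), (5, 6), (6,
      4), (6, 5), (6, 7), (7, 0), (7, 6)]
    lev := [] }
  links := [[1, 5, 6, 7], [5, 0, 7, 8, 9, 2, 10, 3], [10, 1, 9, 11], [5, 1, 10, 4, 12], [12, 3, 10, 11]]
  P := {
    a := 5
    N := 13
    nb := [226, 1965, 3586, 5170, 7176, 4171, 161, 323, 642, 2310, 2078, 5652, 2104]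
    tri := [(0, 1, 5), (0, 1, 7), (0, 5, 6), (0, 6, 7), (1, 2, 9), (1, 2, 10), (1, 3, 5), (1, 3, 10),
      (1, 7, 8), (1, 8, 9), (2, 9, 11), (2, 10, 11), (3, 4, 10), (3, 4, 12), (3, 5, 12), (4, 10,
      11), (4, 11, 12)]
    fin := [0, 0, 0, 0, 0, 0, 6, 7, 0, 9, 0, 11, 12]
    chd := []
    steps := [(0, 1), (0, 2), (0, 3), (0, 5), (0, 8), (0, 10), (0, 4)] }
  rep := [0, 7, 9, 11, 12, 6]

noncomputable def v235 : Cov.CovD where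
  P := 3
  N := 3
  pl := [1, 2, 4, 6, 7]
  lev := [⟨[], [], [], [1, 5], [(0, 0, [])]⟩,
    ⟨[], [(0, 0)], [(0, 0)], [1, 2], [(0, 0, []), (3, 0, []), (5, 0, [])]⟩,
    ⟨[(0, 1)], [(1, 0)], [], [2, 3], [(5, 0, [])]⟩,
    ⟨[(0, 1), (1, 2)], [(0, 0), (1, 0), (2, 0)], [(0, 0)], [4], [(0, 0, []), (5, 0, [])]⟩,
    ⟨[(1, 3)], [(1, 0), (2, 0), (3, 0)], [], [3, 4], [(5, 0, [])]⟩]
  Ta := [((0, 1), 0, 5), ((0, 7), 0, 4), ((3, 2), 0, 1), ((3, 4), 0, 2), ((5, 6), 0, 3)]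
  Tb := [((0, 1, 7), 0, 5, 4), ((1, 0, 2), 5, 0, 1), ((2, 1, 3), 1, 5, 0), ((3, 2, 4), 0, 1, 2),
    ((4, 3, 6), 2, 0, 3), ((6, 4, 5), 3, 2, 0), ((6, 4, 7), 3, 2, 4), ((6, 5, 7), 3, 0, 4),
    ((7, 0, 6), 4, 0, 3)]
  Tc := []
  Td := []
  G := [[0, 0, 0, 0x448a658c6a14c, 0xca618ca618c], [0, 0x12c2658141822d8a, 0x141822e81,
    0xc6a141, 0x11a486381], [0, 0, 0, 0x8264a6c81, 0x8c642aa81]]

noncomputable def n235 : Ent := ⟨e235, noF, [], [], []⟩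

def c235 : PLift (Cov.check n235.C.D v235 = true) := ⟨by decide +kernel⟩

def b235 : PLift (entF (fidx ts) 400 235 n235 = true) := ⟨by decide +kernel⟩

theorem g235 : GoodF (fidx ts) 400 235 := GoodF.ofV v235 n235 c235.down b235.down

/-- 48454:198 -/
noncomputable def e236 : SCfg where
  D := {
    a := 5
    L := 9
    kp := 6
    inn := [(0, 1), (1, 0), (1, 2), (1, 3), (2, 1), (3, 1), (3, 4), (4, 3)]
    mix := [(0, 0), (0, 1), (0, 2), (1, 0), (1, 2), (1, 3), (1, 4), (1, 5), (2, 4), (2, 5), (2, 6), (3,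
      0), (3, 5), (3, 7), (4, 5), (4, 7), (4, 8)]
    cl := [0, 4, 1, 0, 2, 0, 5, 3, 6]
    chq := []
    rng := [(0, 1), (0, 7), (1, 0), (1, 2), (2, 1), (2, 3), (3, 2), (3, 4), (4, 3), (4, 6), (5, 6), (5,
      8), (6, 4), (6, 5), (7, 0), (7, 8), (8, 5), (8, 7)]
    lev := [] }
  links := [[1, 5, 6, 7], [5, 0, 7, 8, 9, 2, 10, 3], [10, 1, 9, 11], [5, 1, 10, 4, 12], [12, 3, 10, 13]]
  P := {
    a := 5
    N := 14
    nb := [226, 1965, 3586, 5170, 13320, 4171, 161, 323, 642, 2310, 10270, 1540, 8248, 5136]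
    tri := [(0, 1, 5), (0, 1, 7), (0, 5, 6), (0, 6, 7), (1, 2, 9), (1, 2, 10), (1, 3, 5), (1, 3, 10),
      (1, 7, 8), (1, 8, 9), (2, 9, 11), (2, 10, 11), (3, 4, 10), (3, 4, 12), (3, 5, 12), (4, 10,
      13), (4, 12, 13)]
    fin := [0, 0, 0, 0, 0, 0, 6, 7, 0, 9, 0, 11, 12, 13]
    chd := []
    steps := [(0, 1), (0, 2), (0, 3), (0, 4), (0, 5), (0, 8), (0, 10)] }
  rep := [0, 7, 9, 12, 6, 11, 13]

noncomputable def v236 : Cov.CovD where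
  P := 3
  N := 4
  pl := [1, 2, 4, 6, 7, 8]
  lev := [⟨[], [], [], [1, 4], [(0, 0, [])]⟩,
    ⟨[], [(0, 0)], [(0, 0)], [1, 2], [(0, 0, []), (3, 0, []), (5, 0, [])]⟩,
    ⟨[(0, 1)], [(1, 0)], [], [2, 5], [(5, 0, [])]⟩,
    ⟨[(0, 1), (1, 2)], [(0, 0), (1, 0), (2, 0)], [(0, 0)], [3], [(0, 0, []), (5, 0, [])]⟩,
    ⟨[(1, 3)], [(1, 0), (2, 0), (3, 0)], [], [3, 6], [(5, 0, [])]⟩]
  Ta := [((0, 1), 0, 4), ((0, 7), 0, 3), ((3, 2), 0, 1), ((3, 4), 0, 2), ((5, 6), 0, 5), ((5, 8),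
    0, 6)]
  Tb := [((0, 1, 7), 0, 4, 3), ((1, 0, 2), 4, 0, 1), ((2, 1, 3), 1, 4, 0), ((3, 2, 4), 0, 1, 2),
    ((4, 3, 6), 2, 0, 5), ((5, 6, 8), 0, 5, 6), ((6, 4, 5), 5, 2, 0), ((7, 0, 8), 3, 0, 6),
    ((8, 5, 7), 6, 0, 3)]
  Tc := []
  Td := []
  G := [[0, 0, 0, 0xca618ca618c, 0xca618ca618c], [0, 0xca618c6a14c, 0x141812e81, 0xc6a141,
    0xca6181], [0, 0, 0, 0xc6ac6ac41, 0xca6ca6a81]]

noncomputable def n236 : Ent := ⟨e236, noF, [], [], [(11, 13, [18394062992640663726968434746027364144358640063418904577, 0])]⟩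

def c236 : PLift (Cov.check n236.C.D v236 = true) := ⟨by decide +kernel⟩

def b236 : PLift (entF (fidx ts) 400 236 n236 = true) := ⟨by decide +kernel⟩

theorem g236 : GoodF (fidx ts) 400 236 := GoodF.ofV v236 n236 c236.down b236.down

/-- 45764:203/1 -/
noncomputable def e237 : SCfg where
  D := {
    a := 5
    L := 8
    kp := 6
    inn := [(0, 1), (0, 2), (1, 0), (2, 0), (2, 3), (2, 4), (3, 2), (3, 4), (4, 2), (4, 3)]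
    mix := [(0, 0), (0, 1), (1, 0), (1, 1), (1, 2), (1, 3), (2, 0), (2, 1), (2, 4), (2, 5), (3, 0), (3,
      3), (3, 6), (3, 7), (4, 4), (4, 7)]
    cl := [0, 0, 6, 3, 1, 2, 5, 4]
    chq := [(2, 3), (2, 4), (2, 5), (3, 2), (4, 2), (5, 2)]
    rng := [(0, 3), (1, 2), (1, 5), (2, 1), (2, 3), (3, 0), (3, 2), (3, 6), (4, 5), (4, 7), (5, 1), (5,
      4), (6, 3), (6, 7), (7, 4), (7, 6)]
    lev := [] }
  links := [[1, 5, 2, 6], [5, 0, 6, 7, 8], [6, 0, 5, 3, 4, 9, 10], [4, 2, 5, 8, 11, 12], [9, 2, 3, 12]]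
  P := {
    a := 5
    N := 13
    nb := [102, 481, 1657, 6452, 4620, 271, 1159, 322, 2218, 5140, 580, 4360, 2584]
    tri := [(0, 1, 5), (0, 1, 6), (0, 2, 5), (0, 2, 6), (1, 5, 8), (1, 6, 7), (1, 7, 8), (2, 3, 4), (2,
      3, 5), (2, 4, 9), (2, 6, 10), (2, 9, 10), (3, 4, 12), (3, 5, 8), (3, 8, 11), (3, 11, 12),
      (4, 9, 12)]
    fin := [0, 0, 2, 2, 4, 0, 0, 7, 8, 9, 2, 11, 4]
    chd := [(2, 4), (2, 11), (8, 2)]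
    steps := [(0, 1), (0, 5), (0, 6), (2, 3), (2, 10), (4, 12)] }
  rep := [0, 9, 2, 8, 4, 11, 7]

noncomputable def v237 : Cov.CovD where
  P := 3
  N := 4
  pl := [2, 4]
  lev := [⟨[], [], [(0, 0)], [], [(0, 0, []), (1, 0, [])]⟩,
    ⟨[], [(0, 0), (0, 3)], [(0, 0), (0, 3)], [6], [(0, 0, []), (1, 0, []), (3, 3, [2])]⟩,
    ⟨[(0, 1)], [(0, 0), (0, 2), (1, 0)], [(0, 0), (0, 2)], [1], [(0, 0, []), (1, 0, []),
      (5, 2, [3, 4, 5])]⟩,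
    ⟨[(0, 2)], [(0, 0), (1, 0), (1, 3), (2, 0), (2, 2), (2, 3), (2, 4), (2, 5)], [(0, 3),
      (0, 4), (0, 5), (3, 4), (3, 5), (4, 5)], [], [(0, 0, []), (3, 3, [2]), (6, 5, [2]), (7,
      4, [2])]⟩,
    ⟨[(0, 2), (2, 3)], [(2, 0), (2, 2), (2, 4), (3, 0), (3, 3), (3, 4), (3, 5)], [], [1],
      [(7, 4, [2])]⟩]
  Ta := [((0, 3), 0, 3), ((1, 2), 0, 6), ((1, 5), 0, 2)]
  Tb := [((1, 2, 5), 0, 6, 2), ((2, 1, 3), 6, 0, 3), ((3, 0, 2), 3, 0, 6), ((3, 0, 6), 3, 0, 5),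
    ((3, 2, 6), 3, 6, 5), ((4, 5, 7), 1, 2, 4), ((5, 1, 4), 2, 0, 1), ((6, 3, 7), 5, 3, 4),
    ((7, 4, 6), 4, 1, 5)]
  Tc := [(2, 3, 4), (2, 3, 5), (2, 4, 5)]
  Td := [((2, 3), (5, 1), 0), ((2, 3), (5, 4), 1), ((2, 4), (5, 1), 0), ((2, 4), (5, 4), 1), ((2,
    5), (5, 1), 0), ((2, 5), (5, 4), 1), ((3, 2), (3, 0), 0), ((3, 2), (3, 2), 6), ((3, 2),
    (3, 6), 5), ((4, 2), (7, 4), 1), ((4, 2), (7, 6), 5), ((5, 2), (6, 3), 3), ((5, 2), (6,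
    7), 4)]
  G := [[0, 0xc28c28c28e4, 0, 0x528c28924e4, 0x948948948e2], [0, 0xc28c28c28e4, 0xc18c14c14e2,
    0x528528924e4, 0x948948948e2]]

noncomputable def n237 : Ent := ⟨e237, noF, [], [], []⟩

def c237 : PLift (Cov.check n237.C.D v237 = true) := ⟨by decide +kernel⟩

def b237 : PLift (entF (fidx ts) 400 237 n237 = true) := ⟨by decide +kernel⟩

theorem g237 : GoodF (fidx ts) 400 237 := GoodF.ofV v237 n237 c237.down b237.down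

/-- 45764:203 -/
noncomputable def e238 : SCfg where
  D := {
    a := 5
    L := 9
    kp := 7
    inn := [(0, 1), (0, 2), (1, 0), (2, 0), (2, 3), (2, 4), (3, 2), (3, 4), (4, 2), (4, 3)]
    mix := [(0, 0), (0, 1), (1, 0), (1, 1), (1, 2), (1, 3), (2, 0), (2, 1), (2, 4), (2, 5), (3, 0), (3,
      6), (3, 7), (3, 8), (4, 4), (4, 8)]
    cl := [0, 0, 6, 7, 1, 2, 4, 5, 3]
    chq := [(2, 3), (2, 4), (2, 5), (3, 2), (4, 2), (5, 2)]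
    rng := [(0, 3), (0, 6), (1, 2), (1, 5), (2, 1), (2, 3), (3, 0), (3, 2), (4, 5), (4, 8), (5, 1), (5,
      4), (6, 0), (6, 7), (7, 6), (7, 8), (8, 4), (8, 7)]
    lev := [] }
  links := [[1, 5, 2, 6], [5, 0, 6, 7, 8], [6, 0, 5, 3, 4, 9, 10], [4, 2, 5, 11, 12, 13], [9, 2, 3, 13]]
  P := {
    a := 5
    N := 14
    nb := [102, 481, 1657, 14388, 8716, 2319, 1159, 322, 162, 9236, 580, 4136, 10248, 4632]
    tri := [(0, 1, 5), (0, 1, 6), (0, 2, 5), (0, 2, 6), (1, 5, 8), (1, 6, 7), (1, 7, 8), (2, 3, 4), (2,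
      3, 5), (2, 4, 9), (2, 6, 10), (2, 9, 10), (3, 4, 13), (3, 5, 11), (3, 11, 12), (3, 12, 13),
      (4, 9, 13)]
    fin := [0, 0, 2, 2, 4, 0, 0, 7, 8, 9, 2, 11, 12, 4]
    chd := [(2, 4), (2, 11), (2, 12)]
    steps := [(0, 1), (0, 5), (0, 6), (2, 3), (2, 10), (4, 13)] }
  rep := [0, 9, 2, 4, 11, 12, 7, 8]

noncomputable def v238 : Cov.CovD where
  P := 3
  N := 5
  pl := [2, 3, 4]
  lev := [⟨[], [], [(0, 0)], [], [(0, 0, []), (1, 0, [])]⟩,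
    ⟨[], [(0, 0)], [(0, 0)], [6, 7], [(0, 0, []), (1, 0, [])]⟩,
    ⟨[(0, 1)], [(0, 0), (0, 2), (1, 0)], [(0, 0), (0, 2)], [1], [(0, 0, []), (1, 0, []),
      (5, 2, [3, 4, 5])]⟩,
    ⟨[(0, 2)], [(0, 0), (1, 0), (2, 0), (2, 2), (2, 3), (2, 4), (2, 5)], [(0, 3), (0, 4),
      (0, 5), (3, 4), (3, 5), (4, 5)], [], [(0, 0, []), (6, 4, [2]), (7, 5, [2]), (8, 3,
      [2])]⟩,
    ⟨[(0, 2), (2, 3)], [(2, 0), (2, 2), (2, 3), (3, 0), (3, 3), (3, 4), (3, 5)], [], [1],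
      [(8, 3, [2])]⟩]
  Ta := [((0, 3), 0, 7), ((0, 6), 0, 4), ((1, 2), 0, 6), ((1, 5), 0, 2)]
  Tb := [((0, 3, 6), 0, 7, 4), ((1, 2, 5), 0, 6, 2), ((2, 1, 3), 6, 0, 7), ((3, 0, 2), 7, 0, 6),
    ((4, 5, 8), 1, 2, 3), ((5, 1, 4), 2, 0, 1), ((6, 0, 7), 4, 0, 5), ((7, 6, 8), 5, 4, 3),
    ((8, 4, 7), 3, 1, 5)]
  Tc := [(2, 3, 4), (2, 3, 5), (2, 4, 5)]
  Td := [((2, 3), (5, 1), 0), ((2, 3), (5, 4), 1), ((2, 4), (5, 1), 0), ((2, 4), (5, 4), 1), ((2,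
    5), (5, 1), 0), ((2, 5), (5, 4), 1), ((3, 2), (8, 4), 1), ((3, 2), (8, 7), 5), ((4, 2),
    (6, 0), 0), ((4, 2), (6, 7), 5), ((5, 2), (7, 6), 4), ((5, 2), (7, 8), 3)]
  G := [[0, 0xc28c28c28e4, 0, 0x524524c24e8, 0x948948948e4], [0, 0xc24c24c24e8, 0xc14c14c14e8,
    0x924528c24e8, 0x948948948e4]]

noncomputable def n238 : Ent := ⟨e238, noF, [], [], [(11, 8, [19926932677925725630027454121541094938411567829207666689, 0])]⟩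

def c238 : PLift (Cov.check n238.C.D v238 = true) := ⟨by decide +kernel⟩

def b238 : PLift (entF (fidx ts) 400 238 n238 = true) := ⟨by decide +kernel⟩

theorem g238 : GoodF (fidx ts) 400 238 := GoodF.ofV v238 n238 c238.down b238.down

/-- 45764:204/1 -/
noncomputable def e239 : SCfg where
  D := {
    a := 5
    L := 9
    kp := 7
    inn := [(0, 1), (0, 2), (1, 0), (2, 0), (2, 3), (2, 4), (3, 2), (4, 2)]
    mix := [(0, 0), (0, 1), (1, 0), (1, 1), (1, 2), (1, 3), (2, 0), (2, 1), (2, 4), (2, 5), (3, 0), (3,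
      3), (3, 4), (3, 6), (3, 7), (4, 4), (4, 5), (4, 8)]
    cl := [0, 0, 6, 2, 3, 1, 4, 5, 7]
    chq := [(1, 2), (1, 3), (1, 4), (1, 5), (2, 1), (3, 1), (4, 1), (5, 1)]
    rng := [(0, 3), (1, 2), (1, 5), (2, 1), (2, 3), (3, 0), (3, 2), (3, 6), (4, 7), (4, 8), (5, 1), (5,
      8), (6, 3), (6, 7), (7, 4), (7, 6), (8, 4), (8, 5)]
    lev := [] }
  links := [[1, 5, 2, 6], [5, 0, 6, 7, 8], [6, 0, 5, 3, 9, 4, 10], [9, 2, 5, 8, 11, 12], [10, 2, 9, 13]]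
  P := {
    a := 5
    N := 14
    nb := [102, 481, 1657, 6948, 9732, 271, 1159, 322, 2218, 12316, 8276, 4360, 2568, 1552]
    tri := [(0, 1, 5), (0, 1, 6), (0, 2, 5), (0, 2, 6), (1, 5, 8), (1, 6, 7), (1, 7, 8), (2, 3, 5), (2,
      3, 9), (2, 4, 9), (2, 4, 10), (2, 6, 10), (3, 5, 8), (3, 8, 11), (3, 9, 12), (3, 11, 12),
      (4, 9, 13), (4, 10, 13)]
    fin := [0, 0, 2, 2, 4, 0, 0, 7, 8, 4, 2, 11, 12, 13]
    chd := [(2, 11), (2, 12), (4, 2), (8, 2)]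
    steps := [(0, 1), (0, 5), (0, 6), (2, 3), (2, 10), (4, 9)] }
  rep := [0, 2, 8, 4, 11, 12, 7, 13]

noncomputable def v239 : Cov.CovD where
  P := 3
  N := 5
  pl := [2, 8]
  lev := [⟨[], [], [(0, 0)], [], [(0, 0, []), (1, 0, [])]⟩,
    ⟨[], [(0, 0), (0, 2)], [(0, 0), (0, 2)], [6], [(0, 0, []), (1, 0, []), (3, 2, [1])]⟩,
    ⟨[(0, 1)], [(0, 0), (0, 1), (0, 3), (1, 0)], [(0, 0), (0, 1), (0, 3), (1, 3)], [], [(0,
      0, []), (1, 0, []), (4, 3, [1]), (5, 1, [2, 3, 4, 5])]⟩,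
    ⟨[(0, 2)], [(0, 0), (1, 0), (1, 2), (2, 0), (2, 1), (2, 2), (2, 3), (2, 4), (2, 5)],
      [(0, 2), (0, 3), (0, 4), (0, 5), (2, 3), (2, 4), (2, 5), (3, 4), (3, 5), (4, 5)], [],
      [(0, 0, []), (3, 2, [1]), (4, 3, [1]), (6, 4, [1]), (7, 5, [1])]⟩,
    ⟨[(0, 2), (2, 3)], [(2, 0), (2, 1), (2, 3), (3, 3)], [(1, 3)], [7], [(4, 3, [1]), (5,
      1, [2, 3, 4, 5])]⟩]
  Ta := [((0, 3), 0, 2), ((1, 2), 0, 6), ((1, 5), 0, 1)]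
  Tb := [((1, 2, 5), 0, 6, 1), ((2, 1, 3), 6, 0, 2), ((3, 0, 2), 2, 0, 6), ((3, 0, 6), 2, 0, 4),
    ((3, 2, 6), 2, 6, 4), ((4, 7, 8), 3, 5, 7), ((5, 1, 8), 1, 0, 7), ((6, 3, 7), 4, 2, 5),
    ((7, 4, 6), 5, 3, 4), ((8, 4, 5), 7, 3, 1)]
  Tc := [(1, 2, 3), (1, 2, 4), (1, 2, 5), (1, 3, 4), (1, 3, 5), (1, 4, 5)]
  Td := [((1, 2), (5, 1), 0), ((1, 2), (5, 8), 7), ((1, 3), (5, 1), 0), ((1, 3), (5, 8), 7), ((1,
    4), (5, 1), 0), ((1, 4), (5, 8), 7), ((1, 5), (5, 1), 0), ((1, 5), (5, 8), 7), ((2, 1),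
    (3, 0), 0), ((2, 1), (3, 2), 6), ((2, 1), (3, 6), 4), ((3, 1), (4, 7), 5), ((3, 1), (4,
    8), 7), ((4, 1), (6, 3), 2), ((4, 1), (6, 7), 5), ((5, 1), (7, 4), 3), ((5, 1), (7, 6),
    4)]
  G := [[0, 0, 0x9252c9252cc2, 0x2222c2222cc2, 0x9252c9252ca2], [0, 0xc161ac161ac4, 0,
    0x2222c2222cc2, 0x9252c9252ca2]]

noncomputable def n239 : Ent := ⟨e239, noF, [], [], []⟩

def c239 : PLift (Cov.check n239.C.D v239 = true) := ⟨by decide +kernel⟩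

def b239 : PLift (entF (fidx ts) 400 239 n239 = true) := ⟨by decide +kernel⟩

theorem g239 : GoodF (fidx ts) 400 239 := GoodF.ofV v239 n239 c239.down b239.down

/-- 45764:204 -/
noncomputable def e240 : SCfg where
  D := {
    a := 5
    L := 10
    kp := 8
    inn := [(0, 1), (0, 2), (1, 0), (2, 0), (2, 3), (2, 4), (3, 2), (4, 2)]
    mix := [(0, 0), (0, 1), (1, 0), (1, 1), (1, 2), (1, 3), (2, 0), (2, 1), (2, 4), (2, 5), (3, 0), (3,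
      4), (3, 6), (3, 7), (3, 8), (4, 4), (4, 5), (4, 9)]
    cl := [0, 0, 6, 7, 1, 2, 3, 4, 5, 8]
    chq := [(1, 2), (2, 1), (2, 3), (2, 4), (2, 5), (3, 2), (4, 2), (5, 2)]
    rng := [(0, 3), (0, 6), (1, 2), (1, 5), (2, 1), (2, 3), (3, 0), (3, 2), (4, 8), (4, 9), (5, 1), (5,
      9), (6, 0), (6, 7), (7, 6), (7, 8), (8, 4), (8, 7), (9, 4), (9, 5)]
    lev := [] }
  links := [[1, 5, 2, 6], [5, 0, 6, 7, 8], [6, 0, 5, 3, 9, 4, 10], [9, 2, 5, 11, 12, 13], [10, 2, 9, 14]]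
  P := {
    a := 5
    N := 15
    nb := [102, 481, 1657, 14884, 17924, 2319, 1159, 322, 162, 24604, 16468, 4136, 10248, 4616, 1552]
    tri := [(0, 1, 5), (0, 1, 6), (0, 2, 5), (0, 2, 6), (1, 5, 8), (1, 6, 7), (1, 7, 8), (2, 3, 5), (2,
      3, 9), (2, 4, 9), (2, 4, 10), (2, 6, 10), (3, 5, 11), (3, 9, 13), (3, 11, 12), (3, 12, 13),
      (4, 9, 14), (4, 10, 14)]
    fin := [0, 0, 2, 2, 4, 0, 0, 7, 8, 4, 2, 11, 12, 13, 14]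
    chd := [(2, 11), (2, 12), (2, 13), (4, 2)]
    steps := [(0, 1), (0, 5), (0, 6), (2, 3), (2, 10), (4, 9)] }
  rep := [0, 4, 2, 11, 12, 13, 7, 8, 14]

noncomputable def v240 : Cov.CovD where
  P := 3
  N := 6
  pl := [2, 3, 9]
  lev := [⟨[], [], [(0, 0)], [], [(0, 0, []), (1, 0, [])]⟩,
    ⟨[], [(0, 0)], [(0, 0)], [6, 7], [(0, 0, []), (1, 0, [])]⟩,
    ⟨[(0, 1)], [(0, 0), (0, 1), (0, 2), (1, 0)], [(0, 0), (0, 1), (0, 2), (1, 2)], [], [(0,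
      0, []), (1, 0, []), (4, 1, [2]), (5, 2, [1, 3, 4, 5])]⟩,
    ⟨[(0, 2)], [(0, 0), (1, 0), (2, 0), (2, 1), (2, 2), (2, 3), (2, 4), (2, 5)], [(0, 1),
      (0, 3), (0, 4), (0, 5), (1, 3), (1, 4), (1, 5), (3, 4), (3, 5), (4, 5)], [], [(0, 0,
      []), (4, 1, [2]), (6, 3, [2]), (7, 4, [2]), (8, 5, [2])]⟩,
    ⟨[(0, 2), (2, 3)], [(2, 0), (2, 1), (2, 2), (3, 1)], [(1, 2)], [8], [(4, 1, [2]), (5,
      2, [1, 3, 4, 5])]⟩]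
  Ta := [((0, 3), 0, 7), ((0, 6), 0, 3), ((1, 2), 0, 6), ((1, 5), 0, 2)]
  Tb := [((0, 3, 6), 0, 7, 3), ((1, 2, 5), 0, 6, 2), ((2, 1, 3), 6, 0, 7), ((3, 0, 2), 7, 0, 6),
    ((4, 8, 9), 1, 5, 8), ((5, 1, 9), 2, 0, 8), ((6, 0, 7), 3, 0, 4), ((7, 6, 8), 4, 3, 5),
    ((8, 4, 7), 5, 1, 4), ((9, 4, 5), 8, 1, 2)]
  Tc := [(2, 1, 3), (2, 1, 4), (2, 1, 5), (2, 3, 4), (2, 3, 5), (2, 4, 5)]
  Td := [((1, 2), (4, 8), 5), ((1, 2), (4, 9), 8), ((2, 1), (5, 1), 0), ((2, 1), (5, 9), 8), ((2,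
    3), (5, 1), 0), ((2, 3), (5, 9), 8), ((2, 4), (5, 1), 0), ((2, 4), (5, 9), 8), ((2, 5),
    (5, 1), 0), ((2, 5), (5, 9), 8), ((3, 2), (6, 0), 0), ((3, 2), (6, 7), 4), ((4, 2), (7,
    6), 3), ((4, 2), (7, 8), 5), ((5, 2), (8, 4), 1), ((5, 2), (8, 7), 4)]
  G := [[0, 0xc28c24c28e2, 0, 0x924528524e8, 0x948948948e4], [0, 0xc28c24c28e2, 0xc14c14c14e8,
    0xc28528924e4, 0x948948948e4]]

noncomputable def n240 : Ent := ⟨e240, noF, [], [], [(11, 8, [87899351228091456419331079379028870920371387790325707632641, 0])]⟩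

def c240 : PLift (Cov.check n240.C.D v240 = true) := ⟨by decide +kernel⟩

def b240 : PLift (entF (fidx ts) 400 240 n240 = true) := ⟨by decide +kernel⟩

theorem g240 : GoodF (fidx ts) 400 240 := GoodF.ofV v240 n240 c240.down b240.down

/-- 45774:205/1 -/
noncomputable def e241 : SCfg where
  D := {
    a := 5
    L := 9
    kp := 7
    inn := [(0, 1), (0, 2), (1, 0), (2, 0), (2, 3), (2, 4), (3, 2), (3, 4), (4, 2), (4, 3)]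
    mix := [(0, 0), (0, 1), (1, 0), (1, 1), (1, 2), (1, 3), (2, 0), (2, 1), (2, 4), (2, 5), (3, 0), (3,
      3), (3, 6), (3, 7), (3, 8), (4, 4), (4, 8)]
    cl := [0, 0, 7, 1, 4, 2, 5, 6, 3]
    chq := [(1, 2), (2, 1), (2, 3), (2, 5), (2, 6), (3, 2), (5, 2), (6, 2)]
    rng := [(0, 3), (1, 2), (1, 5), (2, 1), (2, 3), (3, 0), (3, 2), (3, 6), (4, 5), (4, 8), (5, 1), (5,
      4), (6, 3), (6, 7), (7, 6), (7, 8), (8, 4), (8, 7)]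
    lev := [] }
  links := [[1, 5, 2, 6], [5, 0, 6, 7, 8], [6, 0, 5, 3, 4, 9, 10], [4, 2, 5, 8, 11, 12, 13], [9, 2, 3,
    13]]
  P := {
    a := 5
    N := 14
    nb := [102, 481, 1657, 14644, 8716, 271, 1159, 322, 2218, 9236, 580, 4360, 10248, 4632]
    tri := [(0, 1, 5), (0, 1, 6), (0, 2, 5), (0, 2, 6), (1, 5, 8), (1, 6, 7), (1, 7, 8), (2, 3, 4), (2,
      3, 5), (2, 4, 9), (2, 6, 10), (2, 9, 10), (3, 4, 13), (3, 5, 8), (3, 8, 11), (3, 11, 12),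
      (3, 12, 13), (4, 9, 13)]
    fin := [0, 0, 2, 2, 4, 0, 0, 7, 8, 9, 2, 11, 12, 4]
    chd := [(2, 4), (2, 11), (2, 12), (8, 2)]
    steps := [(0, 1), (0, 5), (0, 6), (2, 3), (2, 10), (4, 13)] }
  rep := [0, 8, 2, 4, 9, 11, 12, 7]

noncomputable def v241 : Cov.CovD where
  P := 3
  N := 5
  pl := [2, 4]
  lev := [⟨[], [], [(0, 0)], [], [(0, 0, []), (1, 0, [])]⟩,
    ⟨[], [(0, 0), (0, 1)], [(0, 0), (0, 1)], [7], [(0, 0, []), (1, 0, []), (3, 1, [2])]⟩,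
    ⟨[(0, 1)], [(0, 0), (0, 2), (1, 0)], [(0, 0), (0, 2)], [4], [(0, 0, []), (1, 0, []),
      (5, 2, [1, 3, 5, 6])]⟩,
    ⟨[(0, 2)], [(0, 0), (1, 0), (1, 1), (2, 0), (2, 1), (2, 2), (2, 3), (2, 5), (2, 6)],
      [(0, 1), (0, 3), (0, 5), (0, 6), (1, 3), (1, 5), (1, 6), (3, 5), (3, 6), (5, 6)], [],
      [(0, 0, []), (3, 1, [2]), (6, 5, [2]), (7, 6, [2]), (8, 3, [2])]⟩,
    ⟨[(0, 2), (2, 3)], [(2, 0), (2, 2), (2, 3), (3, 0), (3, 1), (3, 3), (3, 5), (3, 6)],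
      [], [4], [(8, 3, [2])]⟩]
  Ta := [((0, 3), 0, 1), ((1, 2), 0, 7), ((1, 5), 0, 2)]
  Tb := [((1, 2, 5), 0, 7, 2), ((2, 1, 3), 7, 0, 1), ((3, 0, 2), 1, 0, 7), ((3, 0, 6), 1, 0, 5),
    ((3, 2, 6), 1, 7, 5), ((4, 5, 8), 4, 2, 3), ((5, 1, 4), 2, 0, 4), ((6, 3, 7), 5, 1, 6),
    ((7, 6, 8), 6, 5, 3), ((8, 4, 7), 3, 4, 6)]
  Tc := [(2, 1, 3), (2, 1, 5), (2, 1, 6), (2, 3, 5), (2, 3, 6), (2, 5, 6)]
  Td := [((1, 2), (3, 0), 0), ((1, 2), (3, 2), 7), ((1, 2), (3, 6), 5), ((2, 1), (5, 1), 0), ((2,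
    1), (5, 4), 4), ((2, 3), (5, 1), 0), ((2, 3), (5, 4), 4), ((2, 5), (5, 1), 0), ((2, 5),
    (5, 4), 4), ((2, 6), (5, 1), 0), ((2, 6), (5, 4), 4), ((3, 2), (8, 4), 4), ((3, 2), (8,
    7), 6), ((5, 2), (6, 3), 1), ((5, 2), (6, 7), 6), ((6, 2), (7, 6), 5), ((6, 2), (7, 8),
    3)]
  G := [[0, 0x9252c9252ca2, 0, 0x52489289252cca, 0x9434a9434ac4], [0, 0, 0xa161ca161cc2,
    0x9252c9252cc2, 0x9434a9434ac4]]

noncomputable def n241 : Ent := ⟨e241, noF, [], [], []⟩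

def c241 : PLift (Cov.check n241.C.D v241 = true) := ⟨by decide +kernel⟩

def b241 : PLift (entF (fidx ts) 400 241 n241 = true) := ⟨by decide +kernel⟩

theorem g241 : GoodF (fidx ts) 400 241 := GoodF.ofV v241 n241 c241.down b241.down

/-- 45774:205 -/
noncomputable def e242 : SCfg where
  D := {
    a := 5
    L := 10
    kp := 8
    inn := [(0, 1), (0, 2), (1, 0), (2, 0), (2, 3), (2, 4), (3, 2), (3, 4), (4, 2), (4, 3)]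
    mix := [(0, 0), (0, 1), (1, 0), (1, 1), (1, 2), (1, 3), (2, 0), (2, 1), (2, 4), (2, 5), (3, 0), (3,
      6), (3, 7), (3, 8), (3, 9), (4, 4), (4, 9)]
    cl := [0, 0, 7, 8, 1, 2, 4, 5, 6, 3]
    chq := [(2, 3), (2, 4), (2, 5), (2, 6), (3, 2), (4, 2), (5, 2), (6, 2)]
    rng := [(0, 3), (0, 6), (1, 2), (1, 5), (2, 1), (2, 3), (3, 0), (3, 2), (4, 5), (4, 9), (5, 1), (5,
      4), (6, 0), (6, 7), (7, 6), (7, 8), (8, 7), (8, 9), (9, 4), (9, 8)]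
    lev := [] }
  links := [[1, 5, 2, 6], [5, 0, 6, 7, 8], [6, 0, 5, 3, 4, 9, 10], [4, 2, 5, 11, 12, 13, 14], [9, 2, 3,
    14]]
  P := {
    a := 5
    N := 15
    nb := [102, 481, 1657, 30772, 16908, 2319, 1159, 322, 162, 17428, 580, 4136, 10248, 20488, 8728]
    tri := [(0, 1, 5), (0, 1, 6), (0, 2, 5), (0, 2, 6), (1, 5, 8), (1, 6, 7), (1, 7, 8), (2, 3, 4), (2,
      3, 5), (2, 4, 9), (2, 6, 10), (2, 9, 10), (3, 4, 14), (3, 5, 11), (3, 11, 12), (3, 12, 13),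
      (3, 13, 14), (4, 9, 14)]
    fin := [0, 0, 2, 2, 4, 0, 0, 7, 8, 9, 2, 11, 12, 13, 4]
    chd := [(2, 4), (2, 11), (2, 12), (2, 13)]
    steps := [(0, 1), (0, 5), (0, 6), (2, 3), (2, 10), (4, 14)] }
  rep := [0, 9, 2, 4, 11, 12, 13, 7, 8]

noncomputable def v242 : Cov.CovD where
  P := 3
  N := 6
  pl := [2, 3, 4]
  lev := [⟨[], [], [(0, 0)], [], [(0, 0, []), (1, 0, [])]⟩,
    ⟨[], [(0, 0)], [(0, 0)], [7, 8], [(0, 0, []), (1, 0, [])]⟩,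
    ⟨[(0, 1)], [(0, 0), (0, 2), (1, 0)], [(0, 0), (0, 2)], [1], [(0, 0, []), (1, 0, []),
      (5, 2, [3, 4, 5, 6])]⟩,
    ⟨[(0, 2)], [(0, 0), (1, 0), (2, 0), (2, 2), (2, 3), (2, 4), (2, 5), (2, 6)], [(0, 3),
      (0, 4), (0, 5), (0, 6), (3, 4), (3, 5), (3, 6), (4, 5), (4, 6), (5, 6)], [], [(0, 0,
      []), (6, 4, [2]), (7, 5, [2]), (8, 6, [2]), (9, 3, [2])]⟩,
    ⟨[(0, 2), (2, 3)], [(2, 0), (2, 2), (2, 3), (3, 0), (3, 3), (3, 4), (3, 5), (3, 6)],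
      [], [1], [(9, 3, [2])]⟩]
  Ta := [((0, 3), 0, 8), ((0, 6), 0, 4), ((1, 2), 0, 7), ((1, 5), 0, 2)]
  Tb := [((0, 3, 6), 0, 8, 4), ((1, 2, 5), 0, 7, 2), ((2, 1, 3), 7, 0, 8), ((3, 0, 2), 8, 0, 7),
    ((4, 5, 9), 1, 2, 3), ((5, 1, 4), 2, 0, 1), ((6, 0, 7), 4, 0, 5), ((7, 6, 8), 5, 4, 6),
    ((8, 7, 9), 6, 5, 3), ((9, 4, 8), 3, 1, 6)]
  Tc := [(2, 3, 4), (2, 3, 5), (2, 3, 6), (2, 4, 5), (2, 4, 6), (2, 5, 6)]
  Td := [((2, 3), (5, 1), 0), ((2, 3), (5, 4), 1), ((2, 4), (5, 1), 0), ((2, 4), (5, 4), 1), ((2,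
    5), (5, 1), 0), ((2, 5), (5, 4), 1), ((2, 6), (5, 1), 0), ((2, 6), (5, 4), 1), ((3, 2),
    (9, 4), 1), ((3, 2), (9, 8), 6), ((4, 2), (6, 0), 0), ((4, 2), (6, 7), 5), ((5, 2), (7,
    6), 4), ((5, 2), (7, 8), 6), ((6, 2), (8, 7), 5), ((6, 2), (8, 9), 3)]
  G := [[0, 0xc24c24c28e2, 0, 0xc24c24524e2, 0x948948948e2], [0, 0xc28c28c24e2, 0xc14c18c18e2,
    0xc24c24924e2, 0x948948948e4]]

noncomputable def n242 : Ent := ⟨e242, noF, [], [], [(11, 8, [87899351228091456419331079379028870920371387790325707640833, 0])]⟩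

def c242 : PLift (Cov.check n242.C.D v242 = true) := ⟨by decide +kernel⟩

def b242 : PLift (entF (fidx ts) 400 242 n242 = true) := ⟨by decide +kernel⟩

theorem g242 : GoodF (fidx ts) 400 242 := GoodF.ofV v242 n242 c242.down b242.down

/-- 45745:209/2 -/
noncomputable def e243 : SCfg where
  D := {
    a := 5
    L := 7
    kp := 4
    inn := [(0, 1), (0, 2), (1, 0), (2, 0), (2, 3), (3, 2), (3, 4), (4, 3)]
    mix := [(0, 0), (0, 1), (1, 0), (1, 1), (1, 2), (1, 3), (2, 0), (2, 1), (2, 4), (2, 5), (2, 6), (3,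
      4), (3, 5), (4, 2), (4, 3), (4, 4), (4, 5)]
    cl := [0, 0, 3, 4, 1, 1, 2]
    chq := []
    rng := [(0, 3), (0, 4), (1, 2), (1, 6), (2, 1), (2, 3), (2, 5), (3, 0), (3, 2), (3, 4), (4, 0), (4,
      3), (5, 2), (5, 6), (6, 1), (6, 5)]
    lev := [] }
  links := [[1, 5, 2, 6], [5, 0, 6, 7, 8], [6, 0, 5, 9, 3, 10, 11], [10, 2, 9, 4], [10, 3, 9, 8, 7]]
  P := {
    a := 5
    N := 12
    nb := [102, 481, 3689, 1556, 1928, 775, 2183, 1362, 690, 316, 2204, 1092]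
    tri := [(0, 1, 5), (0, 1, 6), (0, 2, 5), (0, 2, 6), (1, 5, 8), (1, 6, 7), (1, 7, 8), (2, 3, 9), (2,
      3, 10), (2, 5, 9), (2, 6, 11), (2, 10, 11), (3, 4, 9), (3, 4, 10), (4, 7, 8), (4, 7, 10),
      (4, 8, 9)]
    fin := [0, 0, 0, 0, 4, 0, 0, 7, 8, 4, 4, 11]
    chd := []
    steps := [(0, 1), (0, 2), (0, 3), (0, 5), (0, 6), (4, 9), (4, 10)] }
  rep := [0, 4, 11, 7, 8]

noncomputable def v243 : Cov.CovD where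
  P := 3
  N := 2
  pl := [2, 3, 6]
  lev := [⟨[], [], [(0, 0)], [], [(0, 0, []), (1, 0, [])]⟩,
    ⟨[], [(0, 0)], [(0, 0)], [3, 4], [(0, 0, []), (1, 0, [])]⟩,
    ⟨[(0, 1)], [(0, 0), (0, 1), (1, 0)], [(0, 0), (0, 1), (1, 1)], [2], [(0, 0, []), (1, 0,
      []), (4, 1, []), (5, 1, [])]⟩,
    ⟨[(0, 2)], [(2, 0), (2, 1)], [(1, 1)], [], [(4, 1, []), (5, 1, [])]⟩,
    ⟨[(2, 3)], [(2, 1), (3, 1)], [(1, 1)], [3, 4], [(4, 1, []), (5, 1, [])]⟩]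
  Ta := [((0, 3), 0, 4), ((0, 4), 0, 1), ((1, 2), 0, 3), ((1, 6), 0, 2), ((4, 0), 1, 0), ((4, 3),
    1, 4), ((5, 2), 1, 3), ((5, 6), 1, 2)]
  Tb := [((0, 3, 4), 0, 4, 1), ((1, 2, 6), 0, 3, 2), ((2, 1, 3), 3, 0, 4), ((2, 1, 5), 3, 0, 1),
    ((2, 3, 5), 3, 4, 1), ((3, 0, 2), 4, 0, 3), ((3, 0, 4), 4, 0, 1), ((3, 2, 4), 4, 3, 1),
    ((4, 0, 3), 1, 0, 4), ((5, 2, 6), 1, 3, 2), ((6, 1, 5), 2, 0, 1)]
  Tc := []
  Td := []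
  G := [[0, 0x824448248e4, 0, 0, 0x848448118e4], [0, 0, 0, 0xd1422, 0x818488118e2], [0, 0,
    0x144188144e2, 0, 0x818448118e2], [0, 0, 0x144414118e2, 0xd1424, 0x848488148e2]]

noncomputable def n243 : Ent := ⟨e243, noF, [], [], []⟩

def c243 : PLift (Cov.check n243.C.D v243 = true) := ⟨by decide +kernel⟩

def b243 : PLift (entF (fidx ts) 400 243 n243 = true) := ⟨by decide +kernel⟩

theorem g243 : GoodF (fidx ts) 400 243 := GoodF.ofV v243 n243 c243.down b243.down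

/-- 45745:209/1 -/
noncomputable def e244 : SCfg where
  D := {
    a := 5
    L := 8
    kp := 5
    inn := [(0, 1), (0, 2), (1, 0), (2, 0), (2, 3), (3, 2), (3, 4), (4, 3)]
    mix := [(0, 0), (0, 1), (1, 0), (1, 1), (1, 2), (1, 3), (2, 0), (2, 1), (2, 4), (2, 5), (2, 6), (3,
      4), (3, 5), (4, 3), (4, 4), (4, 5), (4, 7)]
    cl := [0, 0, 4, 3, 1, 1, 2, 5]
    chq := []
    rng := [(0, 3), (0, 4), (1, 2), (1, 6), (2, 1), (2, 3), (3, 0), (3, 2), (3, 4), (3, 7), (4, 0), (4,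
      3), (5, 6), (5, 7), (6, 1), (6, 5), (7, 3), (7, 5)]
    lev := [] }
  links := [[1, 5, 2, 6], [5, 0, 6, 7, 8], [6, 0, 5, 9, 3, 10, 11], [10, 2, 9, 4], [10, 3, 9, 8, 12]]
  P := {
    a := 5
    N := 13
    nb := [102, 481, 3689, 1556, 5896, 775, 2183, 322, 4786, 316, 6172, 1092, 1296]
    tri := [(0, 1, 5), (0, 1, 6), (0, 2, 5), (0, 2, 6), (1, 5, 8), (1, 6, 7), (1, 7, 8), (2, 3, 9), (2,
      3, 10), (2, 5, 9), (2, 6, 11), (2, 10, 11), (3, 4, 9), (3, 4, 10), (4, 8, 9), (4, 8, 12),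
      (4, 10, 12)]
    fin := [0, 0, 0, 0, 4, 0, 0, 7, 8, 4, 4, 11, 12]
    chd := []
    steps := [(0, 1), (0, 2), (0, 3), (0, 5), (0, 6), (4, 9), (4, 10)] }
  rep := [0, 4, 11, 8, 7, 12]

noncomputable def v244 : Cov.CovD where
  P := 3
  N := 3
  pl := [2, 3, 6, 7]
  lev := [⟨[], [], [(0, 0)], [], [(0, 0, []), (1, 0, [])]⟩,
    ⟨[], [(0, 0)], [(0, 0)], [3, 4], [(0, 0, []), (1, 0, [])]⟩,
    ⟨[(0, 1)], [(0, 0), (0, 1), (1, 0)], [(0, 0), (0, 1), (1, 1)], [2], [(0, 0, []), (1, 0,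
      []), (4, 1, []), (5, 1, [])]⟩,
    ⟨[(0, 2)], [(2, 0), (2, 1)], [(1, 1)], [], [(4, 1, []), (5, 1, [])]⟩,
    ⟨[(2, 3)], [(2, 1), (3, 1)], [(1, 1)], [3, 5], [(4, 1, []), (5, 1, [])]⟩]
  Ta := [((0, 3), 0, 3), ((0, 4), 0, 1), ((1, 2), 0, 4), ((1, 6), 0, 2), ((4, 0), 1, 0), ((4, 3),
    1, 3), ((5, 6), 1, 2), ((5, 7), 1, 5)]
  Tb := [((0, 3, 4), 0, 3, 1), ((1, 2, 6), 0, 4, 2), ((2, 1, 3), 4, 0, 3), ((3, 0, 2), 3, 0, 4),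
    ((3, 0, 4), 3, 0, 1), ((3, 0, 7), 3, 0, 5), ((3, 2, 4), 3, 4, 1), ((3, 2, 7), 3, 4, 5),
    ((3, 4, 7), 3, 1, 5), ((4, 0, 3), 1, 0, 3), ((5, 6, 7), 1, 2, 5), ((6, 1, 5), 2, 0, 1),
    ((7, 3, 5), 5, 3, 1)]
  Tc := []
  Td := []
  G := [[0, 0xe84e28e48e2, 0, 0, 0x948588d48e2], [0, 0, 0, 0x944514d84e2, 0x948548d18e2], [0, 0,
    0x984514d14e2, 0, 0x948518d48e4], [0, 0, 0x914518d48e8, 0x948588d14e4, 0x948588d48e2]]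

noncomputable def n244 : Ent := ⟨e244, noF, [], [], [(12, 7, [4116502249997433314410399148233305452805898600656897, 0])]⟩

def c244 : PLift (Cov.check n244.C.D v244 = true) := ⟨by decide +kernel⟩

def b244 : PLift (entF (fidx ts) 400 244 n244 = true) := ⟨by decide +kernel⟩

theorem g244 : GoodF (fidx ts) 400 244 := GoodF.ofV v244 n244 c244.down b244.down

/-- 45745:209/3 -/
noncomputable def e245 : SCfg where
  D := {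
    a := 5
    L := 8
    kp := 5
    inn := [(0, 1), (0, 2), (1, 0), (2, 0), (2, 3), (3, 2), (3, 4), (4, 3)]
    mix := [(0, 0), (0, 1), (1, 0), (1, 1), (1, 2), (1, 3), (2, 0), (2, 1), (2, 4), (2, 5), (2, 6), (3,
      4), (3, 5), (4, 2), (4, 4), (4, 5), (4, 7)]
    cl := [0, 0, 3, 4, 1, 1, 2, 5]
    chq := []
    rng := [(0, 3), (0, 4), (1, 2), (1, 6), (2, 1), (2, 3), (2, 5), (2, 7), (3, 0), (3, 2), (4, 0), (4,
      7), (5, 2), (5, 6), (6, 1), (6, 5), (7, 2), (7, 4)]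
    lev := [] }
  links := [[1, 5, 2, 6], [5, 0, 6, 7, 8], [6, 0, 5, 9, 3, 10, 11], [10, 2, 9, 4], [10, 3, 9, 12, 7]]
  P := {
    a := 5
    N := 13
    nb := [102, 481, 3689, 1556, 5768, 775, 2183, 5458, 162, 4156, 2204, 1092, 656]
    tri := [(0, 1, 5), (0, 1, 6), (0, 2, 5), (0, 2, 6), (1, 5, 8), (1, 6, 7), (1, 7, 8), (2, 3, 9), (2,
      3, 10), (2, 5, 9), (2, 6, 11), (2, 10, 11), (3, 4, 9), (3, 4, 10), (4, 7, 10), (4, 7, 12),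
      (4, 9, 12)]
    fin := [0, 0, 0, 0, 4, 0, 0, 7, 8, 4, 4, 11, 12]
    chd := []
    steps := [(0, 1), (0, 2), (0, 3), (0, 5), (0, 6), (4, 9), (4, 10)] }
  rep := [0, 4, 11, 7, 8, 12]

noncomputable def v245 : Cov.CovD where
  P := 3
  N := 3
  pl := [2, 3, 6, 7]
  lev := [⟨[], [], [(0, 0)], [], [(0, 0, []), (1, 0, [])]⟩,
    ⟨[], [(0, 0)], [(0, 0)], [3, 4], [(0, 0, []), (1, 0, [])]⟩,
    ⟨[(0, 1)], [(0, 0), (0, 1), (1, 0)], [(0, 0), (0, 1), (1, 1)], [2], [(0, 0, []), (1, 0,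
      []), (4, 1, []), (5, 1, [])]⟩,
    ⟨[(0, 2)], [(2, 0), (2, 1)], [(1, 1)], [], [(4, 1, []), (5, 1, [])]⟩,
    ⟨[(2, 3)], [(2, 1), (3, 1)], [(1, 1)], [3, 5], [(4, 1, []), (5, 1, [])]⟩]
  Ta := [((0, 3), 0, 4), ((0, 4), 0, 1), ((1, 2), 0, 3), ((1, 6), 0, 2), ((4, 0), 1, 0), ((4, 7),
    1, 5), ((5, 2), 1, 3), ((5, 6), 1, 2)]
  Tb := [((0, 3, 4), 0, 4, 1), ((1, 2, 6), 0, 3, 2), ((2, 1, 3), 3, 0, 4), ((2, 1, 5), 3, 0, 1),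
    ((2, 1, 7), 3, 0, 5), ((2, 3, 5), 3, 4, 1), ((2, 3, 7), 3, 4, 5), ((2, 5, 7), 3, 1, 5),
    ((3, 0, 2), 4, 0, 3), ((4, 0, 7), 1, 0, 5), ((5, 2, 6), 1, 3, 2), ((6, 1, 5), 2, 0, 1),
    ((7, 2, 4), 5, 3, 1)]
  Tc := []
  Td := []
  G := [[0, 0xe84e28e48e2, 0, 0, 0x91851858c8e2], [0, 0, 0, 0x914518d84e2, 0x948588d48e2], [0,
    0, 0x944514d14e8, 0, 0x948588d18e2], [0, 0, 0x914548d14e4, 0x914518d18e4, 0x948518d48e4]]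

noncomputable def n245 : Ent := ⟨e245, noF, [], [], [(12, 8, [4116502250019204739753360285315596908646230364467201, 0])]⟩

def c245 : PLift (Cov.check n245.C.D v245 = true) := ⟨by decide +kernel⟩

def b245 : PLift (entF (fidx ts) 400 245 n245 = true) := ⟨by decide +kernel⟩

theorem g245 : GoodF (fidx ts) 400 245 := GoodF.ofV v245 n245 c245.down b245.down

/-- 45745:209 -/
noncomputable def e246 : SCfg where
  D := {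
    a := 5
    L := 9
    kp := 6
    inn := [(0, 1), (0, 2), (1, 0), (2, 0), (2, 3), (3, 2), (3, 4), (4, 3)]
    mix := [(0, 0), (0, 1), (1, 0), (1, 1), (1, 2), (1, 3), (2, 0), (2, 1), (2, 4), (2, 5), (2, 6), (3,
      4), (3, 5), (4, 4), (4, 5), (4, 7), (4, 8)]
    cl := [0, 0, 3, 4, 1, 1, 2, 5, 6]
    chq := []
    rng := [(0, 3), (0, 4), (1, 2), (1, 6), (2, 1), (2, 3), (3, 0), (3, 2), (4, 0), (4, 7), (5, 6), (5,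
      8), (6, 1), (6, 5), (7, 4), (7, 8), (8, 5), (8, 7)]
    lev := [] }
  links := [[1, 5, 2, 6], [5, 0, 6, 7, 8], [6, 0, 5, 9, 3, 10, 11], [10, 2, 9, 4], [10, 3, 9, 12, 13]]
  P := {
    a := 5
    N := 14
    nb := [102, 481, 3689, 1556, 13832, 775, 2183, 322, 162, 4156, 10268, 1092, 8720, 5136]
    tri := [(0, 1, 5), (0, 1, 6), (0, 2, 5), (0, 2, 6), (1, 5, 8), (1, 6, 7), (1, 7, 8), (2, 3, 9), (2,
      3, 10), (2, 5, 9), (2, 6, 11), (2, 10, 11), (3, 4, 9), (3, 4, 10), (4, 9, 12), (4, 10, 13),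
      (4, 12, 13)]
    fin := [0, 0, 0, 0, 4, 0, 0, 7, 8, 4, 4, 11, 12, 13]
    chd := []
    steps := [(0, 1), (0, 2), (0, 3), (0, 5), (0, 6), (4, 9), (4, 10)] }
  rep := [0, 4, 11, 7, 8, 12, 13]

noncomputable def v246 : Cov.CovD where
  P := 3
  N := 4
  pl := [2, 3, 6, 7, 8]
  lev := [⟨[], [], [(0, 0)], [], [(0, 0, []), (1, 0, [])]⟩,
    ⟨[], [(0, 0)], [(0, 0)], [3, 4], [(0, 0, []), (1, 0, [])]⟩,
    ⟨[(0, 1)], [(0, 0), (0, 1), (1, 0)], [(0, 0), (0, 1), (1, 1)], [2], [(0, 0, []), (1, 0,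
      []), (4, 1, []), (5, 1, [])]⟩,
    ⟨[(0, 2)], [(2, 0), (2, 1)], [(1, 1)], [], [(4, 1, []), (5, 1, [])]⟩,
    ⟨[(2, 3)], [(2, 1), (3, 1)], [(1, 1)], [5, 6], [(4, 1, []), (5, 1, [])]⟩]
  Ta := [((0, 3), 0, 4), ((0, 4), 0, 1), ((1, 2), 0, 3), ((1, 6), 0, 2), ((4, 0), 1, 0), ((4, 7),
    1, 5), ((5, 6), 1, 2), ((5, 8), 1, 6)]
  Tb := [((0, 3, 4), 0, 4, 1), ((1, 2, 6), 0, 3, 2), ((2, 1, 3), 3, 0, 4), ((3, 0, 2), 4, 0, 3),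
    ((4, 0, 7), 1, 0, 5), ((5, 6, 8), 1, 2, 6), ((6, 1, 5), 2, 0, 1), ((7, 4, 8), 5, 1, 6),
    ((8, 5, 7), 6, 1, 5)]
  Tc := []
  Td := []
  G := [[0, 0xe28e48e48e4, 0, 0, 0xd18d48d48e4], [0, 0, 0, 0xd14d18d84e4, 0xd18d18d48e2], [0, 0,
    0xd48d18d18e2, 0, 0xd18d48d18e4], [0, 0, 0xd84d48d14e8, 0xd48d18d84e2, 0xd48d18d18e2]]

noncomputable def n246 : Ent := ⟨e246, noF, [], [], [(12, 8, [19926558533506574363398264713239334983952254818768076801, 0]), (13, 7, [18394062992640663734943802720736859381781482425101012993, 0])]⟩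

def c246 : PLift (Cov.check n246.C.D v246 = true) := ⟨by decide +kernel⟩

def b246 : PLift (entF (fidx ts) 400 246 n246 = true) := ⟨by decide +kernel⟩

theorem g246 : GoodF (fidx ts) 400 246 := GoodF.ofV v246 n246 c246.down b246.down

/-- 46864:210 -/
noncomputable def e247 : SCfg where
  D := {
    a := 5
    L := 11
    kp := 9
    inn := [(0, 1), (1, 0), (1, 2), (1, 3), (2, 1), (2, 3), (3, 1), (3, 2), (3, 4), (4, 3)]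
    mix := [(0, 0), (0, 1), (0, 2), (1, 0), (1, 2), (1, 3), (2, 2), (2, 4), (2, 5), (2, 6), (2, 7), (2,
      8), (3, 3), (3, 8), (3, 9), (4, 8), (4, 9), (4, 10)]
    cl := [2, 8, 0, 0, 4, 5, 6, 7, 3, 1, 9]
    chq := [(1, 3), (1, 4), (1, 5), (1, 6), (1, 7), (3, 1), (4, 1), (5, 1), (6, 1), (7, 1)]
    rng := [(0, 1), (0, 3), (1, 0), (1, 2), (2, 1), (2, 4), (3, 0), (3, 9), (4, 2), (4, 5), (5, 4), (5,
      6), (6, 5), (6, 7), (7, 6), (7, 8), (8, 7), (8, 10), (9, 3), (9, 10), (10, 8), (10, 9)]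
    lev := [] }
  links := [[1, 5, 6, 7], [5, 0, 7, 2, 3, 8], [3, 1, 7, 9, 10, 11, 12, 13], [8, 1, 2, 13, 4, 14], [14, 3,
    13, 15]]
  P := {
    a := 5
    N := 16
    nb := [226, 429, 16010, 24854, 57352, 323, 161, 583, 16426, 1156, 2564, 5124, 10244, 36892, 33048,
      24592]
    tri := [(0, 1, 5), (0, 1, 7), (0, 5, 6), (0, 6, 7), (1, 2, 3), (1, 2, 7), (1, 3, 8), (1, 5, 8), (2,
      3, 13), (2, 7, 9), (2, 9, 10), (2, 10, 11), (2, 11, 12), (2, 12, 13), (3, 4, 13), (3, 4,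
      14), (3, 8, 14), (4, 13, 15), (4, 14, 15)]
    fin := [0, 1, 2, 2, 4, 0, 6, 1, 1, 9, 10, 11, 12, 4, 2, 15]
    chd := [(4, 2), (9, 2), (10, 2), (11, 2), (12, 2)]
    steps := [(0, 5), (1, 7), (1, 8), (2, 3), (2, 14), (4, 13)] }
  rep := [1, 2, 0, 4, 9, 10, 11, 12, 6, 15]

noncomputable def v247 : Cov.CovD where
  P := 3
  N := 7
  pl := [0, 1, 10]
  lev := [⟨[], [], [], [2, 8], [(2, 0, [])]⟩,
    ⟨[], [(0, 0)], [(0, 0)], [2], [(2, 0, []), (3, 0, [])]⟩,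
    ⟨[(0, 1)], [(0, 0), (1, 0), (1, 3), (1, 4), (1, 5), (1, 6), (1, 7)], [(0, 3), (0, 4),
      (0, 5), (0, 6), (0, 7), (3, 4), (3, 5), (3, 6), (3, 7), (4, 5), (4, 6), (4, 7), (5, 6),
      (5, 7), (6, 7)], [], [(2, 0, []), (4, 4, [1]), (5, 5, [1]), (6, 6, [1]), (7, 7, [1]),
      (8, 3, [1])]⟩,
    ⟨[(0, 1), (1, 2)], [(1, 0), (1, 1), (1, 3), (2, 0), (2, 1), (2, 3), (2, 4), (2, 5), (2,
      6), (2, 7)], [(0, 1), (0, 3), (1, 3)], [], [(3, 0, []), (8, 3, [1]), (9, 1, [3, 4, 5,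
      6, 7])]⟩,
    ⟨[(1, 3), (2, 3)], [(2, 3), (3, 0), (3, 1), (3, 3)], [(1, 3)], [9], [(8, 3, [1]), (9,
      1, [3, 4, 5, 6, 7])]⟩]
  Ta := [((2, 1), 0, 8), ((2, 4), 0, 4), ((3, 0), 0, 2), ((3, 9), 0, 1)]
  Tb := [((0, 1, 3), 2, 8, 0), ((1, 0, 2), 8, 2, 0), ((2, 1, 4), 0, 8, 4), ((3, 0, 9), 0, 2, 1),
    ((4, 2, 5), 4, 0, 5), ((5, 4, 6), 5, 4, 6), ((6, 5, 7), 6, 5, 7), ((7, 6, 8), 7, 6, 3),
    ((8, 7, 10), 3, 7, 9), ((9, 3, 10), 1, 0, 9), ((10, 8, 9), 9, 3, 1)]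
  Tc := [(1, 3, 4), (1, 3, 5), (1, 3, 6), (1, 3, 7), (1, 4, 5), (1, 4, 6), (1, 4, 7), (1, 5, 6),
    (1, 5, 7), (1, 6, 7)]
  Td := [((1, 3), (9, 3), 0), ((1, 3), (9, 10), 9), ((1, 4), (9, 3), 0), ((1, 4), (9, 10), 9),
    ((1, 5), (9, 3), 0), ((1, 5), (9, 10), 9), ((1, 6), (9, 3), 0), ((1, 6), (9, 10), 9),
    ((1, 7), (9, 3), 0), ((1, 7), (9, 10), 9), ((3, 1), (8, 7), 7), ((3, 1), (8, 10), 9),
    ((4, 1), (4, 2), 0), ((4, 1), (4, 5), 5), ((5, 1), (5, 4), 4), ((5, 1), (5, 6), 6), ((6,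
    1), (6, 5), 5), ((6, 1), (6, 7), 7), ((7, 1), (7, 6), 6), ((7, 1), (7, 8), 3)]
  G := [[0, 0, 0, 0xd14d24542982cc, 0xd252982a1d8d28a], [0, 0xc6a14ca618c, 0x542982c542982cc,
    0x44291c2c1, 0x35c2882a1]]

noncomputable def n247 : Ent := ⟨e247, noF, [], [], []⟩

def c247 : PLift (Cov.check n247.C.D v247 = true) := ⟨by decide +kernel⟩

def b247 : PLift (entF (fidx ts) 400 247 n247 = true) := ⟨by decide +kernel⟩

theorem g247 : GoodF (fidx ts) 400 247 := GoodF.ofV v247 n247 c247.down b247.down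

/-- 45764:211/2 -/
noncomputable def e248 : SCfg where
  D := {
    a := 5
    L := 8
    kp := 5
    inn := [(0, 1), (0, 2), (1, 0), (2, 0), (2, 3), (3, 2), (3, 4), (4, 3)]
    mix := [(0, 0), (0, 1), (1, 0), (1, 1), (1, 2), (1, 3), (2, 0), (2, 1), (2, 4), (2, 5), (2, 6), (3,
      3), (3, 4), (3, 5), (3, 7), (4, 2), (4, 3), (4, 7)]
    cl := [0, 0, 3, 1, 2, 2, 5, 4]
    chq := [(2, 3), (3, 2)]
    rng := [(0, 3), (0, 4), (1, 2), (1, 6), (2, 1), (2, 3), (2, 7), (3, 0), (3, 2), (3, 4), (4, 0), (4,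
      3), (5, 6), (5, 7), (6, 1), (6, 5), (7, 2), (7, 5)]
    lev := [] }
  links := [[1, 5, 2, 6], [5, 0, 6, 7, 8], [6, 0, 5, 9, 3, 10, 11], [10, 2, 9, 8, 4, 12], [12, 3, 8, 7]]
  P := {
    a := 5
    N := 13
    nb := [102, 481, 3689, 5908, 4488, 775, 2183, 4434, 698, 300, 6156, 1092, 1176]
    tri := [(0, 1, 5), (0, 1, 6), (0, 2, 5), (0, 2, 6), (1, 5, 8), (1, 6, 7), (1, 7, 8), (2, 3, 9), (2,
      3, 10), (2, 5, 9), (2, 6, 11), (2, 10, 11), (3, 4, 8), (3, 4, 12), (3, 8, 9), (3, 10, 12),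
      (4, 7, 8), (4, 7, 12)]
    fin := [0, 0, 0, 3, 3, 0, 0, 7, 8, 3, 3, 11, 12]
    chd := [(7, 3)]
    steps := [(0, 1), (0, 2), (0, 5), (0, 6), (3, 4), (3, 9), (3, 10)] }
  rep := [0, 8, 3, 7, 12, 11]

noncomputable def v248 : Cov.CovD where
  P := 3
  N := 3
  pl := [3, 6, 7]
  lev := [⟨[], [], [(0, 0)], [], [(0, 0, []), (1, 0, [])]⟩,
    ⟨[], [(0, 0), (0, 3)], [(0, 0), (0, 3)], [1], [(0, 0, []), (1, 0, []), (2, 3, [2])]⟩,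
    ⟨[(0, 1)], [(0, 0), (0, 2), (1, 0)], [(0, 0), (0, 2), (2, 2)], [5], [(0, 0, []), (1, 0,
      []), (4, 2, [3]), (5, 2, [3])]⟩,
    ⟨[(0, 2)], [(2, 0), (2, 2)], [(2, 2)], [1, 4], [(4, 2, [3]), (5, 2, [3])]⟩,
    ⟨[(2, 3)], [(1, 3), (3, 2), (3, 3)], [], [1, 4], [(2, 3, [2])]⟩]
  Ta := [((0, 3), 0, 1), ((0, 4), 0, 2), ((1, 2), 0, 3), ((1, 6), 0, 5), ((4, 0), 2, 0), ((4, 3),
    2, 1), ((5, 6), 2, 5), ((5, 7), 2, 4)]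
  Tb := [((0, 3, 4), 0, 1, 2), ((1, 2, 6), 0, 3, 5), ((2, 1, 3), 3, 0, 1), ((2, 1, 7), 3, 0, 4),
    ((2, 3, 7), 3, 1, 4), ((3, 0, 2), 1, 0, 3), ((3, 0, 4), 1, 0, 2), ((3, 2, 4), 1, 3, 2),
    ((4, 0, 3), 2, 0, 1), ((5, 6, 7), 2, 5, 4), ((6, 1, 5), 5, 0, 2), ((7, 2, 5), 4, 3, 2)]
  Tc := []
  Td := [((2, 3), (4, 0), 0), ((2, 3), (4, 3), 1), ((2, 3), (5, 6), 5), ((2, 3), (5, 7), 4), ((3,
    2), (2, 1), 0), ((3, 2), (2, 3), 1), ((3, 2), (2, 7), 4)]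
  G := [[0, 0x24c82cc22c22cca2, 0x11c81ca11c14c6c2, 0x8154415419cc81588c, 0x488419c19ac2], [0,
    0x244e2c4a2882ec86c, 0, 0, 0x488419c19ac2], [0, 0, 0, 0x895819c4158c459446,
    0x488459c59ac2], [0, 0, 0, 0, 0x4884d9c59ac2]]

noncomputable def n248 : Ent := ⟨e248, noF, [], [], []⟩

def c248 : PLift (Cov.check n248.C.D v248 = true) := ⟨by decide +kernel⟩

def b248 : PLift (entF (fidx ts) 400 248 n248 = true) := ⟨by decide +kernel⟩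

theorem g248 : GoodF (fidx ts) 400 248 := GoodF.ofV v248 n248 c248.down b248.down

/-- 45764:211/1 -/
noncomputable def e249 : SCfg where
  D := {
    a := 5
    L := 9
    kp := 6
    inn := [(0, 1), (0, 2), (1, 0), (2, 0), (2, 3), (3, 2), (3, 4), (4, 3)]
    mix := [(0, 0), (0, 1), (1, 0), (1, 1), (1, 2), (1, 3), (2, 0), (2, 1), (2, 4), (2, 5), (2, 6), (3,
      3), (3, 4), (3, 5), (3, 7), (4, 3), (4, 7), (4, 8)]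
    cl := [0, 0, 5, 1, 2, 2, 6, 3, 4]
    chq := [(2, 4), (4, 2)]
    rng := [(0, 3), (0, 4), (1, 2), (1, 6), (2, 1), (2, 3), (3, 0), (3, 2), (3, 4), (3, 8), (4, 0), (4,
      3), (5, 6), (5, 7), (6, 1), (6, 5), (7, 5), (7, 8), (8, 3), (8, 7)]
    lev := [] }
  links := [[1, 5, 2, 6], [5, 0, 6, 7, 8], [6, 0, 5, 9, 3, 10, 11], [10, 2, 9, 8, 4, 12], [12, 3, 8, 13]]
  P := {
    a := 5
    N := 14
    nb := [102, 481, 3689, 5908, 12552, 775, 2183, 322, 8890, 300, 6156, 1092, 9240, 4368]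
    tri := [(0, 1, 5), (0, 1, 6), (0, 2, 5), (0, 2, 6), (1, 5, 8), (1, 6, 7), (1, 7, 8), (2, 3, 9), (2,
      3, 10), (2, 5, 9), (2, 6, 11), (2, 10, 11), (3, 4, 8), (3, 4, 12), (3, 8, 9), (3, 10, 12),
      (4, 8, 13), (4, 12, 13)]
    fin := [0, 0, 0, 3, 3, 0, 0, 7, 8, 3, 3, 11, 12, 13]
    chd := [(3, 13)]
    steps := [(0, 1), (0, 2), (0, 5), (0, 6), (3, 4), (3, 9), (3, 10)] }
  rep := [0, 8, 3, 12, 13, 7, 11]

noncomputable def v249 : Cov.CovD where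
  P := 3
  N := 4
  pl := [2, 3, 6, 7]
  lev := [⟨[], [], [(0, 0)], [], [(0, 0, []), (1, 0, [])]⟩,
    ⟨[], [(0, 0)], [(0, 0)], [1, 5], [(0, 0, []), (1, 0, [])]⟩,
    ⟨[(0, 1)], [(0, 0), (0, 2), (1, 0)], [(0, 0), (0, 2), (2, 2)], [6], [(0, 0, []), (1, 0,
      []), (4, 2, [4]), (5, 2, [4])]⟩,
    ⟨[(0, 2)], [(2, 0), (2, 2)], [(2, 2)], [1, 3], [(4, 2, [4]), (5, 2, [4])]⟩,
    ⟨[(2, 3)], [(3, 2), (3, 4)], [], [1, 3], [(8, 4, [2])]⟩]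
  Ta := [((0, 3), 0, 1), ((0, 4), 0, 2), ((1, 2), 0, 5), ((1, 6), 0, 6), ((4, 0), 2, 0), ((4, 3),
    2, 1), ((5, 6), 2, 6), ((5, 7), 2, 3)]
  Tb := [((0, 3, 4), 0, 1, 2), ((1, 2, 6), 0, 5, 6), ((2, 1, 3), 5, 0, 1), ((3, 0, 2), 1, 0, 5),
    ((3, 0, 4), 1, 0, 2), ((3, 0, 8), 1, 0, 4), ((3, 2, 4), 1, 5, 2), ((3, 2, 8), 1, 5, 4),
    ((3, 4, 8), 1, 2, 4), ((4, 0, 3), 2, 0, 1), ((5, 6, 7), 2, 6, 3), ((6, 1, 5), 6, 0, 2),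
    ((7, 5, 8), 3, 2, 4), ((8, 3, 7), 4, 1, 3)]
  Tc := []
  Td := [((2, 4), (4, 0), 0), ((2, 4), (4, 3), 1), ((2, 4), (5, 6), 6), ((2, 4), (5, 7), 3), ((4,
    2), (8, 3), 1), ((4, 2), (8, 7), 3)]
  G := [[0, 0x22c22cc22c22cca2, 0x11c11c611c11c6c8, 0xc95c59c4c95c59c8c, 0x449449a449449ac2],
    [0, 0x2ec6acc2ece2cc62, 0, 0, 0x4d9c59a5c9c59ac2], [0, 0, 0, 0xc95c59cc95c59cc2,
    0x449449a449449ac2], [0, 0, 0, 0, 0x4d9c59a4d94d9ac4]]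

noncomputable def n249 : Ent := ⟨e249, noF, [], [], [(13, 7, [18394062992640663734943802720736859381781482425101025281, 0])]⟩

def c249 : PLift (Cov.check n249.C.D v249 = true) := ⟨by decide +kernel⟩

def b249 : PLift (entF (fidx ts) 400 249 n249 = true) := ⟨by decide +kernel⟩

theorem g249 : GoodF (fidx ts) 400 249 := GoodF.ofV v249 n249 c249.down b249.down

/-- 45764:211/3 -/
noncomputable def e250 : SCfg where
  D := {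
    a := 5
    L := 9
    kp := 6
    inn := [(0, 1), (0, 2), (1, 0), (2, 0), (2, 3), (3, 2), (3, 4), (4, 3)]
    mix := [(0, 0), (0, 1), (1, 0), (1, 1), (1, 2), (1, 3), (2, 0), (2, 1), (2, 4), (2, 5), (2, 6), (3,
      4), (3, 5), (3, 7), (3, 8), (4, 2), (4, 7), (4, 8)]
    cl := [0, 0, 2, 5, 1, 1, 6, 3, 4]
    chq := [(1, 2), (2, 1)]
    rng := [(0, 3), (0, 4), (1, 2), (1, 6), (2, 1), (2, 3), (2, 7), (2, 8), (3, 0), (3, 2), (4, 0), (4,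
      7), (5, 6), (5, 8), (6, 1), (6, 5), (7, 2), (7, 4), (8, 2), (8, 5)]
    lev := [] }
  links := [[1, 5, 2, 6], [5, 0, 6, 7, 8], [6, 0, 5, 9, 3, 10, 11], [10, 2, 9, 12, 4, 13], [13, 3, 12,
    7]]
  P := {
    a := 5
    N := 14
    nb := [102, 481, 3689, 13844, 12424, 775, 2183, 12626, 162, 4140, 10252, 1092, 664, 1176]
    tri := [(0, 1, 5), (0, 1, 6), (0, 2, 5), (0, 2, 6), (1, 5, 8), (1, 6, 7), (1, 7, 8), (2, 3, 9), (2,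
      3, 10), (2, 5, 9), (2, 6, 11), (2, 10, 11), (3, 4, 12), (3, 4, 13), (3, 9, 12), (3, 10, 13),
      (4, 7, 12), (4, 7, 13)]
    fin := [0, 0, 0, 3, 3, 0, 0, 7, 8, 3, 3, 11, 12, 13]
    chd := [(7, 3)]
    steps := [(0, 1), (0, 2), (0, 5), (0, 6), (3, 4), (3, 9), (3, 10)] }
  rep := [0, 3, 7, 12, 13, 8, 11]

noncomputable def v250 : Cov.CovD where
  P := 3
  N := 4
  pl := [3, 6, 7, 8]
  lev := [⟨[], [], [(0, 0)], [], [(0, 0, []), (1, 0, [])]⟩,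
    ⟨[], [(0, 0), (0, 2)], [(0, 0), (0, 2)], [5], [(0, 0, []), (1, 0, []), (2, 2, [1])]⟩,
    ⟨[(0, 1)], [(0, 0), (0, 1), (1, 0)], [(0, 0), (0, 1), (1, 1)], [6], [(0, 0, []), (1, 0,
      []), (4, 1, [2]), (5, 1, [2])]⟩,
    ⟨[(0, 2)], [(2, 0), (2, 1)], [(1, 1)], [3, 4], [(4, 1, [2]), (5, 1, [2])]⟩,
    ⟨[(2, 3)], [(1, 2), (3, 1), (3, 2)], [], [3, 4], [(2, 2, [1])]⟩]
  Ta := [((0, 3), 0, 5), ((0, 4), 0, 1), ((1, 2), 0, 2), ((1, 6), 0, 6), ((4, 0), 1, 0), ((4, 7),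
    1, 3), ((5, 6), 1, 6), ((5, 8), 1, 4)]
  Tb := [((0, 3, 4), 0, 5, 1), ((1, 2, 6), 0, 2, 6), ((2, 1, 3), 2, 0, 5), ((2, 1, 7), 2, 0, 3),
    ((2, 1, 8), 2, 0, 4), ((2, 3, 7), 2, 5, 3), ((2, 3, 8), 2, 5, 4), ((2, 7, 8), 2, 3, 4),
    ((3, 0, 2), 5, 0, 2), ((4, 0, 7), 1, 0, 3), ((5, 6, 8), 1, 6, 4), ((6, 1, 5), 6, 0, 1),
    ((7, 2, 4), 3, 2, 1), ((8, 2, 5), 4, 2, 1)]
  Tc := []
  Td := [((1, 2), (4, 0), 0), ((1, 2), (4, 7), 3), ((1, 2), (5, 6), 6), ((1, 2), (5, 8), 4), ((2,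
    1), (2, 1), 0), ((2, 1), (2, 3), 5), ((2, 1), (2, 7), 3), ((2, 1), (2, 8), 4)]
  G := [[0, 0x141e841ea141e811eac4, 0, 0x415819c22824c2824cc6, 0x2a1d821dc2a1d821dca2], [0, 0,
    0, 0x415819c22824c2824cc6, 0x2a1d821dc2a1d821dca2], [0, 0, 0xe1e1ce1e1c68,
    0x415819c22824c2824cca, 0x2a1d821dc2a1d821dca2], [0, 0, 0xe1e1ce1e1c68,
    0x288415819c62824c244c6, 0x2a1d821dc2a1d821dca2]]

noncomputable def n250 : Ent := ⟨e250, noF, [], [], [(12, 8, [19926558533506574363398264713239334983952254818768093185, 0])]⟩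

def c250 : PLift (Cov.check n250.C.D v250 = true) := ⟨by decide +kernel⟩

def b250 : PLift (entF (fidx ts) 400 250 n250 = true) := ⟨by decide +kernel⟩

theorem g250 : GoodF (fidx ts) 400 250 := GoodF.ofV v250 n250 c250.down b250.down

/-- 45764:211/4 -/
noncomputable def e251 : SCfg where
  D := {
    a := 5
    L := 9
    kp := 6
    inn := [(0, 1), (0, 2), (1, 0), (2, 0), (2, 3), (3, 2), (3, 4), (4, 3)]
    mix := [(0, 0), (0, 1), (1, 0), (1, 1), (1, 2), (1, 3), (2, 0), (2, 1), (2, 4), (2, 5), (2, 6), (3,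
      4), (3, 5), (3, 7), (3, 8), (4, 3), (4, 7), (4, 8)]
    cl := [0, 0, 5, 2, 1, 1, 6, 3, 4]
    chq := [(1, 2), (2, 1)]
    rng := [(0, 3), (0, 4), (1, 2), (1, 6), (2, 1), (2, 3), (3, 0), (3, 2), (3, 7), (3, 8), (4, 0), (4,
      7), (5, 6), (5, 8), (6, 1), (6, 5), (7, 3), (7, 4), (8, 3), (8, 5)]
    lev := [] }
  links := [[1, 5, 2, 6], [5, 0, 6, 7, 8], [6, 0, 5, 9, 3, 10, 11], [10, 2, 9, 12, 4, 13], [13, 3, 12,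
    8]]
  P := {
    a := 5
    N := 14
    nb := [102, 481, 3689, 13844, 12552, 775, 2183, 322, 12466, 4140, 10252, 1092, 792, 1304]
    tri := [(0, 1, 5), (0, 1, 6), (0, 2, 5), (0, 2, 6), (1, 5, 8), (1, 6, 7), (1, 7, 8), (2, 3, 9), (2,
      3, 10), (2, 5, 9), (2, 6, 11), (2, 10, 11), (3, 4, 12), (3, 4, 13), (3, 9, 12), (3, 10, 13),
      (4, 8, 12), (4, 8, 13)]
    fin := [0, 0, 0, 3, 3, 0, 0, 7, 8, 3, 3, 11, 12, 13]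
    chd := [(8, 3)]
    steps := [(0, 1), (0, 2), (0, 5), (0, 6), (3, 4), (3, 9), (3, 10)] }
  rep := [0, 3, 8, 12, 13, 7, 11]

noncomputable def v251 : Cov.CovD where
  P := 3
  N := 4
  pl := [2, 6, 7, 8]
  lev := [⟨[], [], [(0, 0)], [], [(0, 0, []), (1, 0, [])]⟩,
    ⟨[], [(0, 0), (0, 2)], [(0, 0), (0, 2)], [5], [(0, 0, []), (1, 0, []), (3, 2, [1])]⟩,
    ⟨[(0, 1)], [(0, 0), (0, 1), (1, 0)], [(0, 0), (0, 1), (1, 1)], [6], [(0, 0, []), (1, 0,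
      []), (4, 1, [2]), (5, 1, [2])]⟩,
    ⟨[(0, 2)], [(2, 0), (2, 1)], [(1, 1)], [3, 4], [(4, 1, [2]), (5, 1, [2])]⟩,
    ⟨[(2, 3)], [(1, 2), (3, 1), (3, 2)], [], [3, 4], [(3, 2, [1])]⟩]
  Ta := [((0, 3), 0, 2), ((0, 4), 0, 1), ((1, 2), 0, 5), ((1, 6), 0, 6), ((4, 0), 1, 0), ((4, 7),
    1, 3), ((5, 6), 1, 6), ((5, 8), 1, 4)]
  Tb := [((0, 3, 4), 0, 2, 1), ((1, 2, 6), 0, 5, 6), ((2, 1, 3), 5, 0, 2), ((3, 0, 2), 2, 0, 5),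
    ((3, 0, 7), 2, 0, 3), ((3, 0, 8), 2, 0, 4), ((3, 2, 7), 2, 5, 3), ((3, 2, 8), 2, 5, 4),
    ((3, 7, 8), 2, 3, 4), ((4, 0, 7), 1, 0, 3), ((5, 6, 8), 1, 6, 4), ((6, 1, 5), 6, 0, 1),
    ((7, 3, 4), 3, 2, 1), ((8, 3, 5), 4, 2, 1)]
  Tc := []
  Td := [((1, 2), (4, 0), 0), ((1, 2), (4, 7), 3), ((1, 2), (5, 6), 6), ((1, 2), (5, 8), 4), ((2,
    1), (3, 0), 0), ((2, 1), (3, 2), 5), ((2, 1), (3, 7), 3), ((2, 1), (3, 8), 4)]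
  G := [[0, 0x141e841ea141e811eac4, 0xe1e1ce1e1ca4, 0x415819c22824c2824cc6,
    0x2a1d821dc2a1d821dca2], [0, 0, 0xe1e1ce1e1ca2, 0x415819c22824c2824cca,
    0x2a1d821dc2a1d821dca2], [0, 0, 0, 0x415819c22824c2824cc6, 0x2a1d821dc2a1d821dca2], [0,
    0, 0, 0x288415819ca2442824cc6, 0x2a1d821dc2a1d821dca2]]

noncomputable def n251 : Ent := ⟨e251, noF, [], [], []⟩

def c251 : PLift (Cov.check n251.C.D v251 = true) := ⟨by decide +kernel⟩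

def b251 : PLift (entF (fidx ts) 400 251 n251 = true) := ⟨by decide +kernel⟩

theorem g251 : GoodF (fidx ts) 400 251 := GoodF.ofV v251 n251 c251.down b251.down

/-- 45764:211 -/
noncomputable def e252 : SCfg where
  D := {
    a := 5
    L := 10
    kp := 7
    inn := [(0, 1), (0, 2), (1, 0), (2, 0), (2, 3), (3, 2), (3, 4), (4, 3)]
    mix := [(0, 0), (0, 1), (1, 0), (1, 1), (1, 2), (1, 3), (2, 0), (2, 1), (2, 4), (2, 5), (2, 6), (3,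
      4), (3, 5), (3, 7), (3, 8), (4, 7), (4, 8), (4, 9)]
    cl := [0, 0, 5, 6, 1, 1, 7, 3, 2, 4]
    chq := [(1, 4), (4, 1)]
    rng := [(0, 3), (0, 4), (1, 2), (1, 6), (2, 1), (2, 3), (3, 0), (3, 2), (4, 0), (4, 7), (5, 6), (5,
      8), (6, 1), (6, 5), (7, 4), (7, 9), (8, 5), (8, 9), (9, 7), (9, 8)]
    lev := [] }
  links := [[1, 5, 2, 6], [5, 0, 6, 7, 8], [6, 0, 5, 9, 3, 10, 11], [10, 2, 9, 12, 4, 13], [13, 3, 12,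
    14]]
  P := {
    a := 5
    N := 15
    nb := [102, 481, 3689, 13844, 28680, 775, 2183, 322, 162, 4140, 10252, 1092, 16920, 17432, 12304]
    tri := [(0, 1, 5), (0, 1, 6), (0, 2, 5), (0, 2, 6), (1, 5, 8), (1, 6, 7), (1, 7, 8), (2, 3, 9), (2,
      3, 10), (2, 5, 9), (2, 6, 11), (2, 10, 11), (3, 4, 12), (3, 4, 13), (3, 9, 12), (3, 10, 13),
      (4, 12, 14), (4, 13, 14)]
    fin := [0, 0, 0, 3, 3, 0, 0, 7, 8, 3, 3, 11, 12, 13, 14]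
    chd := [(3, 14)]
    steps := [(0, 1), (0, 2), (0, 5), (0, 6), (3, 4), (3, 9), (3, 10)] }
  rep := [0, 3, 13, 12, 14, 7, 8, 11]

noncomputable def v252 : Cov.CovD where
  P := 3
  N := 5
  pl := [2, 3, 6, 7, 8]
  lev := [⟨[], [], [(0, 0)], [], [(0, 0, []), (1, 0, [])]⟩,
    ⟨[], [(0, 0)], [(0, 0)], [5, 6], [(0, 0, []), (1, 0, [])]⟩,
    ⟨[(0, 1)], [(0, 0), (0, 1), (1, 0)], [(0, 0), (0, 1), (1, 1)], [7], [(0, 0, []), (1, 0,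
      []), (4, 1, [4]), (5, 1, [4])]⟩,
    ⟨[(0, 2)], [(2, 0), (2, 1)], [(1, 1)], [2, 3], [(4, 1, [4]), (5, 1, [4])]⟩,
    ⟨[(2, 3)], [(3, 1), (3, 4)], [], [2, 3], [(9, 4, [1])]⟩]
  Ta := [((0, 3), 0, 6), ((0, 4), 0, 1), ((1, 2), 0, 5), ((1, 6), 0, 7), ((4, 0), 1, 0), ((4, 7),
    1, 3), ((5, 6), 1, 7), ((5, 8), 1, 2)]
  Tb := [((0, 3, 4), 0, 6, 1), ((1, 2, 6), 0, 5, 7), ((2, 1, 3), 5, 0, 6), ((3, 0, 2), 6, 0, 5),
    ((4, 0, 7), 1, 0, 3), ((5, 6, 8), 1, 7, 2), ((6, 1, 5), 7, 0, 1), ((7, 4, 9), 3, 1, 4),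
    ((8, 5, 9), 2, 1, 4), ((9, 7, 8), 4, 3, 2)]
  Tc := []
  Td := [((1, 4), (4, 0), 0), ((1, 4), (4, 7), 3), ((1, 4), (5, 6), 7), ((1, 4), (5, 8), 2), ((4,
    1), (9, 7), 3), ((4, 1), (9, 8), 2)]
  G := [[0, 0x11c11ca11c11ca11c11cae4, 0x2ece2cc2ece2cc2ece2cce2, 0,
    0x2b9b29c82b9a39c2b92b9c66], [0, 0, 0x22c22cc22c22cc22c22cce2, 0xc95c59cc95c59cc95c59ce2,
    0x229229c229229c229229ce2], [0, 0, 0x2ece2cc2ece2cc2ec6acce2, 0,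
    0x2b9a39c2b9a39c2b9a39ce2], [0, 0, 0x22c22cc22c22cc22c22cce2, 0xc95c59cc95c59cc95c59ce2,
    0x229229c229229c229229ce2]]

noncomputable def n252 : Ent := ⟨e252, noF, [], [], [(12, 8, [87899350853947037268064450189620569160416928477315268055041, 0]), (14, 7, [81620716623019490593601535532416185184585306067517846822913, 0]), (14, 8, [81620716623019490626259338160855783265958941731545632714753, 0])]⟩

def c252 : PLift (Cov.check n252.C.D v252 = true) := ⟨by decide +kernel⟩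

def b252 : PLift (entF (fidx ts) 400 252 n252 = true) := ⟨by decide +kernel⟩

theorem g252 : GoodF (fidx ts) 400 252 := GoodF.ofV v252 n252 c252.down b252.down

/-- 46665:212/1 -/
noncomputable def e253 : SCfg where
  D := {
    a := 5
    L := 9
    kp := 6
    inn := [(0, 1), (0, 3), (1, 0), (1, 2), (1, 3), (2, 1), (2, 4), (3, 0), (3, 1), (4, 2)]
    mix := [(0, 0), (0, 1), (1, 1), (1, 2), (1, 3), (2, 2), (2, 3), (2, 4), (2, 5), (3, 0), (3, 3), (3,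
      6), (3, 7), (4, 2), (4, 4), (4, 7), (4, 8)]
    cl := [0, 1, 3, 0, 3, 4, 5, 2, 6]
    chq := [(1, 4), (4, 1)]
    rng := [(0, 1), (0, 7), (1, 0), (1, 2), (2, 1), (2, 8), (3, 5), (3, 6), (4, 5), (4, 7), (5, 3), (5,
      4), (6, 3), (6, 7), (7, 0), (7, 4), (7, 6), (7, 8), (8, 2), (8, 7)]
    lev := [] }
  links := [[1, 3, 5, 6], [3, 0, 6, 7, 2, 8], [8, 1, 7, 4, 9, 10], [5, 0, 1, 8, 11, 12], [9, 2, 7, 13,
    12]]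
  P := {
    a := 5
    N := 14
    nb := [106, 461, 1938, 6435, 12932, 4169, 163, 8278, 3086, 5140, 772, 4360, 10808, 4240]
    tri := [(0, 1, 3), (0, 1, 6), (0, 3, 5), (0, 5, 6), (1, 2, 7), (1, 2, 8), (1, 3, 8), (1, 6, 7), (2,
      4, 7), (2, 4, 9), (2, 8, 10), (2, 9, 10), (3, 5, 12), (3, 8, 11), (3, 11, 12), (4, 7, 13),
      (4, 9, 12), (4, 12, 13)]
    fin := [0, 1, 1, 0, 4, 0, 1, 4, 0, 4, 10, 11, 12, 13]
    chd := [(1, 10)]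
    steps := [(0, 3), (0, 5), (0, 8), (1, 2), (1, 6), (4, 7), (4, 9)] }
  rep := [0, 1, 12, 4, 10, 11, 13]

noncomputable def v253 : Cov.CovD where
  P := 3
  N := 4
  pl := [6, 7, 8]
  lev := [⟨[], [], [(0, 1)], [], [(0, 0, []), (1, 1, [4])]⟩,
    ⟨[], [(0, 0), (0, 1), (0, 3)], [(0, 1), (0, 3), (1, 3)], [], [(1, 1, [4]), (2, 3, []),
      (3, 0, [])]⟩,
    ⟨[(0, 1)], [(1, 0), (1, 1), (1, 3), (1, 4)], [(0, 3), (0, 4), (3, 3), (3, 4)], [], [(2,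
      3, []), (3, 0, []), (4, 3, []), (5, 4, [1])]⟩,
    ⟨[(0, 1), (1, 2)], [(0, 0), (0, 1), (1, 0), (1, 1), (1, 3), (2, 0)], [(0, 0)], [2, 5],
      [(0, 0, []), (3, 0, [])]⟩,
    ⟨[(1, 2)], [(1, 3), (2, 0), (2, 3), (2, 4)], [(3, 3)], [2, 6], [(2, 3, []), (4, 3,
      [])]⟩]
  Ta := [((0, 1), 0, 1), ((0, 7), 0, 2), ((2, 1), 3, 1), ((2, 8), 3, 6), ((3, 5), 0, 4), ((3, 6),
    0, 5), ((4, 5), 3, 4), ((4, 7), 3, 2)]
  Tb := [((0, 1, 7), 0, 1, 2), ((1, 0, 2), 1, 0, 3), ((2, 1, 8), 3, 1, 6), ((3, 5, 6), 0, 4, 5),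
    ((4, 5, 7), 3, 4, 2), ((5, 3, 4), 4, 0, 3), ((6, 3, 7), 5, 0, 2), ((7, 0, 4), 2, 0, 3),
    ((7, 0, 6), 2, 0, 5), ((7, 0, 8), 2, 0, 6), ((7, 4, 6), 2, 3, 5), ((7, 4, 8), 2, 3, 6),
    ((7, 6, 8), 2, 5, 6), ((8, 2, 7), 6, 3, 2)]
  Tc := []
  Td := [((1, 4), (1, 0), 0), ((1, 4), (1, 2), 3), ((4, 1), (5, 3), 0), ((4, 1), (5, 4), 3)]
  G := [[0, 0x11c11c11ccccf24, 0xaac166a1c4, 0xccc299c258, 0x99abba33ae48], [0,
    0x11c11c11ccccf28, 0xee6184, 0x942d5c2c8, 0x22abba648], [0, 0, 0, 0x99c255c2c1,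
    0x99a3bac488433a2cc], [0, 0, 0, 0x942d5c2c8, 0x22abba648]]

noncomputable def n253 : Ent := ⟨e253, noF, [], [], []⟩

def c253 : PLift (Cov.check n253.C.D v253 = true) := ⟨by decide +kernel⟩

def b253 : PLift (entF (fidx ts) 400 253 n253 = true) := ⟨by decide +kernel⟩

theorem g253 : GoodF (fidx ts) 400 253 := GoodF.ofV v253 n253 c253.down b253.down

/-- 46665:212 -/
noncomputable def e254 : SCfg where
  D := {
    a := 5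
    L := 10
    kp := 7
    inn := [(0, 1), (0, 3), (1, 0), (1, 2), (1, 3), (2, 1), (2, 4), (3, 0), (3, 1), (4, 2)]
    mix := [(0, 0), (0, 1), (1, 1), (1, 2), (1, 3), (2, 2), (2, 3), (2, 4), (2, 5), (3, 0), (3, 3), (3,
      6), (3, 7), (4, 2), (4, 4), (4, 8), (4, 9)]
    cl := [0, 3, 1, 0, 1, 2, 4, 5, 6, 7]
    chq := [(2, 3), (3, 2)]
    rng := [(0, 1), (0, 7), (1, 0), (1, 2), (2, 1), (2, 8), (3, 5), (3, 6), (4, 5), (4, 9), (5, 3), (5,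
      4), (6, 3), (6, 7), (7, 0), (7, 6), (8, 2), (8, 9), (9, 4), (9, 8)]
    lev := [] }
  links := [[1, 3, 5, 6], [3, 0, 6, 7, 2, 8], [8, 1, 7, 4, 9, 10], [5, 0, 1, 8, 11, 12], [9, 2, 7, 13,
    14]]
  P := {
    a := 5
    N := 15
    nb := [106, 461, 1938, 6435, 25220, 4169, 163, 8278, 3086, 17428, 772, 4360, 2088, 16528, 8720]
    tri := [(0, 1, 3), (0, 1, 6), (0, 3, 5), (0, 5, 6), (1, 2, 7), (1, 2, 8), (1, 3, 8), (1, 6, 7), (2,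
      4, 7), (2, 4, 9), (2, 8, 10), (2, 9, 10), (3, 5, 12), (3, 8, 11), (3, 11, 12), (4, 7, 13),
      (4, 9, 14), (4, 13, 14)]
    fin := [0, 1, 1, 0, 4, 0, 1, 4, 0, 4, 10, 11, 12, 13, 14]
    chd := [(1, 10)]
    steps := [(0, 3), (0, 5), (0, 8), (1, 2), (1, 6), (4, 7), (4, 9)] }
  rep := [0, 4, 10, 1, 11, 12, 13, 14]

noncomputable def v254 : Cov.CovD where
  P := 3
  N := 5
  pl := [6, 7, 8, 9]
  lev := [⟨[], [], [(0, 3)], [], [(0, 0, []), (1, 3, [2])]⟩,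
    ⟨[], [(0, 0), (0, 1), (0, 3)], [(0, 1), (0, 3), (1, 3)], [], [(1, 3, [2]), (2, 1, []),
      (3, 0, [])]⟩,
    ⟨[(0, 1)], [(1, 0), (1, 1), (1, 2), (1, 3)], [(0, 1), (0, 2), (1, 1), (1, 2)], [], [(2,
      1, []), (3, 0, []), (4, 1, []), (5, 2, [3])]⟩,
    ⟨[(0, 1), (1, 2)], [(0, 0), (0, 3), (1, 0), (1, 1), (1, 3), (2, 0)], [(0, 0)], [4, 5],
      [(0, 0, []), (3, 0, [])]⟩,
    ⟨[(1, 2)], [(1, 1), (2, 0), (2, 1), (2, 2)], [(1, 1)], [6, 7], [(2, 1, []), (4, 1,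
      [])]⟩]
  Ta := [((0, 1), 0, 3), ((0, 7), 0, 5), ((2, 1), 1, 3), ((2, 8), 1, 6), ((3, 5), 0, 2), ((3, 6),
    0, 4), ((4, 5), 1, 2), ((4, 9), 1, 7)]
  Tb := [((0, 1, 7), 0, 3, 5), ((1, 0, 2), 3, 0, 1), ((2, 1, 8), 1, 3, 6), ((3, 5, 6), 0, 2, 4),
    ((4, 5, 9), 1, 2, 7), ((5, 3, 4), 2, 0, 1), ((6, 3, 7), 4, 0, 5), ((7, 0, 6), 5, 0, 4),
    ((8, 2, 9), 6, 1, 7), ((9, 4, 8), 7, 1, 6)]
  Tc := []
  Td := [((2, 3), (5, 3), 0), ((2, 3), (5, 4), 1), ((3, 2), (1, 0), 0), ((3, 2), (1, 2), 1)]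
  G := [[0, 0xeea84ee64eec8a6, 0, 0, 0xc41d1de8cdda8d485a], [0, 0xee64e84aeea8e486c, 0,
    0xddde4ddde892, 0xddde8d4852], [0, 0xe24eeee4a1, 0xddde4ddde8c1, 0, 0x5484cddde8c1], [0,
    0xe28eeee861, 0xd24d28ddc8e1, 0xd24d28ddc4e1, 0xd28ddc861]]

noncomputable def n254 : Ent := ⟨e254, noF, [], [], [(14, 12, [81623781614101222371308947630499991391842216896340251627521, 0])]⟩

def c254 : PLift (Cov.check n254.C.D v254 = true) := ⟨by decide +kernel⟩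

def b254 : PLift (entF (fidx ts) 400 254 n254 = true) := ⟨by decide +kernel⟩

theorem g254 : GoodF (fidx ts) 400 254 := GoodF.ofV v254 n254 c254.down b254.down

/-- 46664:213 -/
noncomputable def e255 : SCfg where
  D := {
    a := 5
    L := 9
    kp := 7
    inn := [(0, 1), (0, 3), (1, 0), (1, 2), (1, 3), (2, 1), (2, 4), (3, 0), (3, 1), (4, 2)]
    mix := [(0, 0), (0, 1), (1, 1), (1, 2), (1, 3), (2, 2), (2, 3), (2, 4), (2, 5), (3, 0), (3, 3), (3,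
      6), (3, 7), (4, 4), (4, 5), (4, 8)]
    cl := [3, 2, 1, 0, 0, 4, 5, 6, 7]
    chq := [(1, 3), (1, 5), (1, 6), (3, 1), (5, 1), (6, 1)]
    rng := [(0, 1), (0, 7), (1, 0), (1, 2), (2, 1), (2, 4), (3, 5), (3, 6), (4, 2), (4, 8), (5, 3), (5,
      8), (6, 3), (6, 7), (7, 0), (7, 6), (8, 4), (8, 5)]
    lev := [] }
  links := [[1, 3, 5, 6], [3, 0, 6, 7, 2, 8], [8, 1, 7, 9, 4, 10], [5, 0, 1, 8, 11, 12], [10, 2, 9, 13]]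
  P := {
    a := 5
    N := 14
    nb := [106, 461, 1938, 6435, 9732, 4169, 163, 582, 3086, 8340, 8468, 4360, 2088, 1552]
    tri := [(0, 1, 3), (0, 1, 6), (0, 3, 5), (0, 5, 6), (1, 2, 7), (1, 2, 8), (1, 3, 8), (1, 6, 7), (2,
      4, 9), (2, 4, 10), (2, 7, 9), (2, 8, 10), (3, 5, 12), (3, 8, 11), (3, 11, 12), (4, 9, 13),
      (4, 10, 13)]
    fin := [0, 1, 2, 1, 2, 0, 6, 1, 2, 2, 10, 11, 12, 13]
    chd := [(0, 1), (1, 11), (1, 12)]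
    steps := [(0, 5), (1, 3), (1, 7), (2, 4), (2, 9), (2, 8)] }
  rep := [2, 1, 6, 0, 10, 11, 12, 13]

noncomputable def v255 : Cov.CovD where
  P := 3
  N := 5
  pl := [1, 5, 8]
  lev := [⟨[], [], [], [2], [(0, 3, [1])]⟩,
    ⟨[], [(0, 0), (0, 1), (0, 3)], [(0, 1)], [2], [(2, 1, [3, 5, 6]), (3, 0, [])]⟩,
    ⟨[(0, 1)], [(1, 0), (1, 1)], [(0, 0), (0, 1)], [4], [(2, 1, [3, 5, 6]), (3, 0, []), (4,
      0, [])]⟩,
    ⟨[(0, 1), (1, 2)], [(0, 0), (0, 3), (0, 5), (0, 6), (1, 0), (1, 1), (1, 3), (1, 5), (1,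
      6), (2, 0)], [(0, 3), (0, 5), (0, 6), (3, 5), (3, 6), (5, 6)], [], [(0, 3, [1]), (3, 0,
      []), (6, 5, [1]), (7, 6, [1])]⟩,
    ⟨[(1, 2)], [(2, 0), (2, 1)], [], [4, 7], [(4, 0, [])]⟩]
  Ta := [((3, 5), 0, 4), ((3, 6), 0, 5), ((4, 2), 0, 1), ((4, 8), 0, 7)]
  Tb := [((0, 1, 7), 3, 2, 6), ((1, 0, 2), 2, 3, 1), ((2, 1, 4), 1, 2, 0), ((3, 5, 6), 0, 4, 5),
    ((4, 2, 8), 0, 1, 7), ((5, 3, 8), 4, 0, 7), ((6, 3, 7), 5, 0, 6), ((7, 0, 6), 6, 3, 5),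
    ((8, 4, 5), 7, 0, 4)]
  Tc := [(1, 3, 5), (1, 3, 6), (1, 5, 6)]
  Td := [((1, 3), (2, 1), 2), ((1, 3), (2, 4), 0), ((1, 5), (2, 1), 2), ((1, 5), (2, 4), 0), ((1,
    6), (2, 1), 2), ((1, 6), (2, 4), 0), ((3, 1), (0, 1), 2), ((3, 1), (0, 7), 6), ((5, 1),
    (6, 3), 0), ((5, 1), (6, 7), 6), ((6, 1), (7, 0), 3), ((6, 1), (7, 6), 5)]
  G := [[0, 0, 0x9232c41262c8c, 0xa212c4124a28cc, 0xe212681288721268b], [0, 0xc161a4c161a4c,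
    0x624a28c624a28cc, 0xa262c1a262c1c, 0xa262c1828122e282e8b]]

noncomputable def n255 : Ent := ⟨e255, noF, [], [], []⟩

def c255 : PLift (Cov.check n255.C.D v255 = true) := ⟨by decide +kernel⟩

def b255 : PLift (entF (fidx ts) 400 255 n255 = true) := ⟨by decide +kernel⟩

theorem g255 : GoodF (fidx ts) 400 255 := GoodF.ofV v255 n255 c255.down b255.down

/-- 46674:214 -/
noncomputable def e256 : SCfg where
  D := {
    a := 5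
    L := 10
    kp := 8
    inn := [(0, 1), (0, 3), (1, 0), (1, 2), (1, 3), (2, 1), (2, 4), (3, 0), (3, 1), (4, 2)]
    mix := [(0, 0), (0, 1), (1, 1), (1, 2), (1, 3), (2, 2), (2, 3), (2, 4), (2, 5), (3, 0), (3, 3), (3,
      6), (3, 7), (3, 8), (4, 4), (4, 5), (4, 9)]
    cl := [1, 2, 0, 3, 3, 4, 5, 6, 7, 8]
    chq := [(0, 1), (0, 5), (0, 6), (0, 7), (1, 0), (5, 0), (6, 0), (7, 0)]
    rng := [(0, 1), (0, 8), (1, 0), (1, 2), (2, 1), (2, 4), (3, 5), (3, 6), (4, 2), (4, 9), (5, 3), (5,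
      9), (6, 3), (6, 7), (7, 6), (7, 8), (8, 0), (8, 7), (9, 4), (9, 5)]
    lev := [] }
  links := [[1, 3, 5, 6], [3, 0, 6, 7, 2, 8], [8, 1, 7, 9, 4, 10], [5, 0, 1, 8, 11, 12, 13], [10, 2, 9,
    14]]
  P := {
    a := 5
    N := 15
    nb := [106, 461, 1938, 14627, 17924, 8265, 163, 582, 3086, 16532, 16660, 4360, 10248, 4136, 1552]
    tri := [(0, 1, 3), (0, 1, 6), (0, 3, 5), (0, 5, 6), (1, 2, 7), (1, 2, 8), (1, 3, 8), (1, 6, 7), (2,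
      4, 9), (2, 4, 10), (2, 7, 9), (2, 8, 10), (3, 5, 13), (3, 8, 11), (3, 11, 12), (3, 12, 13),
      (4, 9, 14), (4, 10, 14)]
    fin := [0, 1, 2, 1, 2, 0, 6, 1, 2, 2, 10, 11, 12, 13, 14]
    chd := [(0, 1), (1, 11), (1, 12), (1, 13)]
    steps := [(0, 5), (1, 3), (1, 7), (2, 4), (2, 9), (2, 8)] }
  rep := [1, 0, 6, 2, 10, 11, 12, 13, 14]

noncomputable def v256 : Cov.CovD where
  P := 3
  N := 6
  pl := [1, 5, 9]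
  lev := [⟨[], [], [], [2], [(0, 1, [0])]⟩,
    ⟨[], [(0, 0), (0, 1), (0, 3)], [(0, 3)], [2], [(2, 0, [1, 5, 6, 7]), (3, 3, [])]⟩,
    ⟨[(0, 1)], [(1, 0), (1, 3)], [(0, 3), (3, 3)], [4], [(2, 0, [1, 5, 6, 7]), (3, 3, []),
      (4, 3, [])]⟩,
    ⟨[(0, 1), (1, 2)], [(0, 1), (0, 3), (0, 5), (0, 6), (0, 7), (1, 0), (1, 1), (1, 3), (1,
      5), (1, 6), (1, 7), (2, 3)], [(1, 3), (1, 5), (1, 6), (1, 7), (3, 5), (3, 6), (3, 7),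
      (5, 6), (5, 7), (6, 7)], [], [(0, 1, [0]), (3, 3, []), (6, 5, [0]), (7, 6, [0]), (8, 7,
      [0])]⟩,
    ⟨[(1, 2)], [(2, 0), (2, 3)], [], [4, 8], [(4, 3, [])]⟩]
  Ta := [((3, 5), 3, 4), ((3, 6), 3, 5), ((4, 2), 3, 0), ((4, 9), 3, 8)]
  Tb := [((0, 1, 8), 1, 2, 7), ((1, 0, 2), 2, 1, 0), ((2, 1, 4), 0, 2, 3), ((3, 5, 6), 3, 4, 5),
    ((4, 2, 9), 3, 0, 8), ((5, 3, 9), 4, 3, 8), ((6, 3, 7), 5, 3, 6), ((7, 6, 8), 6, 5, 7),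
    ((8, 0, 7), 7, 1, 6), ((9, 4, 5), 8, 3, 4)]
  Tc := [(0, 1, 5), (0, 1, 6), (0, 1, 7), (0, 5, 6), (0, 5, 7), (0, 6, 7)]
  Td := [((0, 1), (2, 1), 2), ((0, 1), (2, 4), 3), ((0, 5), (2, 1), 2), ((0, 5), (2, 4), 3), ((0,
    6), (2, 1), 2), ((0, 6), (2, 4), 3), ((0, 7), (2, 1), 2), ((0, 7), (2, 4), 3), ((1, 0),
    (0, 1), 2), ((1, 0), (0, 8), 7), ((5, 0), (6, 3), 3), ((5, 0), (6, 7), 6), ((6, 0), (7,
    6), 5), ((6, 0), (7, 8), 7), ((7, 0), (8, 0), 1), ((7, 0), (8, 7), 6)]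
  G := [[0, 0xa1613b1815c8, 0xa144618c12ac, 0xa131647141a8c, 0x21e1581d16a71889], [0,
    0x9184513168c, 0x9131a51468, 0x9184513168c, 0x21291711121fa21289]]

noncomputable def n256 : Ent := ⟨e256, noF, [], [], []⟩

def c256 : PLift (Cov.check n256.C.D v256 = true) := ⟨by decide +kernel⟩

def b256 : PLift (entF (fidx ts) 400 256 n256 = true) := ⟨by decide +kernel⟩

theorem g256 : GoodF (fidx ts) 400 256 := GoodF.ofV v256 n256 c256.down b256.down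

/-- 46684:216 -/
noncomputable def e257 : SCfg where
  D := {
    a := 5
    L := 11
    kp := 9
    inn := [(0, 1), (0, 3), (1, 0), (1, 2), (1, 3), (2, 1), (2, 4), (3, 0), (3, 1), (4, 2)]
    mix := [(0, 0), (0, 1), (1, 1), (1, 2), (1, 3), (2, 2), (2, 3), (2, 4), (2, 5), (3, 0), (3, 3), (3,
      6), (3, 7), (3, 8), (3, 9), (4, 4), (4, 5), (4, 10)]
    cl := [1, 2, 0, 3, 3, 4, 5, 6, 7, 8, 9]
    chq := [(0, 1), (0, 5), (0, 6), (0, 7), (0, 8), (1, 0), (5, 0), (6, 0), (7, 0), (8, 0)]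
    rng := [(0, 1), (0, 9), (1, 0), (1, 2), (2, 1), (2, 4), (3, 5), (3, 6), (4, 2), (4, 10), (5, 3),
      (5, 10), (6, 3), (6, 7), (7, 6), (7, 8), (8, 7), (8, 9), (9, 0), (9, 8), (10, 4), (10, 5)]
    lev := [] }
  links := [[1, 3, 5, 6], [3, 0, 6, 7, 2, 8], [8, 1, 7, 9, 4, 10], [5, 0, 1, 8, 11, 12, 13, 14], [10, 2,
    9, 15]]
  P := {
    a := 5
    N := 16
    nb := [106, 461, 1938, 31011, 34308, 16457, 163, 582, 3086, 32916, 33044, 4360, 10248, 20488,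
      8232, 1552]
    tri := [(0, 1, 3), (0, 1, 6), (0, 3, 5), (0, 5, 6), (1, 2, 7), (1, 2, 8), (1, 3, 8), (1, 6, 7), (2,
      4, 9), (2, 4, 10), (2, 7, 9), (2, 8, 10), (3, 5, 14), (3, 8, 11), (3, 11, 12), (3, 12, 13),
      (3, 13, 14), (4, 9, 15), (4, 10, 15)]
    fin := [0, 1, 2, 1, 2, 0, 6, 1, 2, 2, 10, 11, 12, 13, 14, 15]
    chd := [(0, 1), (1, 11), (1, 12), (1, 13), (1, 14)]
    steps := [(0, 5), (1, 3), (1, 7), (2, 4), (2, 9), (2, 8)] }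
  rep := [1, 0, 6, 2, 10, 11, 12, 13, 14, 15]

noncomputable def v257 : Cov.CovD where
  P := 3
  N := 7
  pl := [1, 5, 10]
  lev := [⟨[], [], [], [2], [(0, 1, [0])]⟩,
    ⟨[], [(0, 0), (0, 1), (0, 3)], [(0, 3)], [2], [(2, 0, [1, 5, 6, 7, 8]), (3, 3, [])]⟩,
    ⟨[(0, 1)], [(1, 0), (1, 3)], [(0, 3), (3, 3)], [4], [(2, 0, [1, 5, 6, 7, 8]), (3, 3,
      []), (4, 3, [])]⟩,
    ⟨[(0, 1), (1, 2)], [(0, 1), (0, 3), (0, 5), (0, 6), (0, 7), (0, 8), (1, 0), (1, 1), (1,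
      3), (1, 5), (1, 6), (1, 7), (1, 8), (2, 3)], [(1, 3), (1, 5), (1, 6), (1, 7), (1, 8),
      (3, 5), (3, 6), (3, 7), (3, 8), (5, 6), (5, 7), (5, 8), (6, 7), (6, 8), (7, 8)], [],
      [(0, 1, [0]), (3, 3, []), (6, 5, [0]), (7, 6, [0]), (8, 7, [0]), (9, 8, [0])]⟩,
    ⟨[(1, 2)], [(2, 0), (2, 3)], [], [4, 9], [(4, 3, [])]⟩]
  Ta := [((3, 5), 3, 4), ((3, 6), 3, 5), ((4, 2), 3, 0), ((4, 10), 3, 9)]
  Tb := [((0, 1, 9), 1, 2, 8), ((1, 0, 2), 2, 1, 0), ((2, 1, 4), 0, 2, 3), ((3, 5, 6), 3, 4, 5),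
    ((4, 2, 10), 3, 0, 9), ((5, 3, 10), 4, 3, 9), ((6, 3, 7), 5, 3, 6), ((7, 6, 8), 6, 5, 7),
    ((8, 7, 9), 7, 6, 8), ((9, 0, 8), 8, 1, 7), ((10, 4, 5), 9, 3, 4)]
  Tc := [(0, 1, 5), (0, 1, 6), (0, 1, 7), (0, 1, 8), (0, 5, 6), (0, 5, 7), (0, 5, 8), (0, 6, 7),
    (0, 6, 8), (0, 7, 8)]
  Td := [((0, 1), (2, 1), 2), ((0, 1), (2, 4), 3), ((0, 5), (2, 1), 2), ((0, 5), (2, 4), 3), ((0,
    6), (2, 1), 2), ((0, 6), (2, 4), 3), ((0, 7), (2, 1), 2), ((0, 7), (2, 4), 3), ((0, 8),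
    (2, 1), 2), ((0, 8), (2, 4), 3), ((1, 0), (0, 1), 2), ((1, 0), (0, 9), 8), ((5, 0), (6,
    3), 3), ((5, 0), (6, 7), 6), ((6, 0), (7, 6), 5), ((6, 0), (7, 8), 7), ((7, 0), (8, 7),
    6), ((7, 0), (8, 9), 8), ((8, 0), (9, 0), 1), ((8, 0), (9, 8), 7)]
  G := [[0, 0x71419c1a13c4, 0xa144618c12ac, 0xb181647141a8c, 0x21e1581d16a71889], [0,
    0x9131a45148c, 0x3129151ca4, 0x9184513168c, 0xb1711121f221289]]

noncomputable def n257 : Ent := ⟨e257, noF, [], [], []⟩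

def c257 : PLift (Cov.check n257.C.D v257 = true) := ⟨by decide +kernel⟩

def b257 : PLift (entF (fidx ts) 400 257 n257 = true) := ⟨by decide +kernel⟩

theorem g257 : GoodF (fidx ts) 400 257 := GoodF.ofV v257 n257 c257.down b257.down

/-- 45674:217 -/
noncomputable def e258 : SCfg where
  D := {
    a := 5
    L := 9
    kp := 7
    inn := [(0, 1), (1, 0), (1, 2), (1, 3), (2, 1), (2, 3), (3, 1), (3, 2), (3, 4), (4, 3)]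
    mix := [(0, 0), (0, 1), (0, 2), (1, 0), (1, 2), (2, 2), (2, 3), (2, 4), (2, 5), (3, 0), (3, 5), (3,
      6), (3, 7), (4, 5), (4, 6), (4, 8)]
    cl := [0, 6, 2, 4, 5, 1, 3, 1, 7]
    chq := [(0, 2), (0, 4), (0, 5), (2, 0), (4, 0), (5, 0)]
    rng := [(0, 1), (0, 7), (1, 0), (1, 2), (2, 1), (2, 3), (3, 2), (3, 4), (4, 3), (4, 5), (5, 4), (5,
      8), (6, 7), (6, 8), (7, 0), (7, 6), (8, 5), (8, 6)]
    lev := [] }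
  links := [[1, 5, 6, 7], [5, 0, 7, 2, 3], [3, 1, 7, 8, 9, 10], [5, 1, 2, 10, 4, 11, 12], [11, 3, 10,
    13]]
  P := {
    a := 5
    N := 14
    nb := [226, 173, 1930, 7222, 11272, 4171, 161, 327, 644, 1284, 8732, 12312, 2088, 3088]
    tri := [(0, 1, 5), (0, 1, 7), (0, 5, 6), (0, 6, 7), (1, 2, 3), (1, 2, 7), (1, 3, 5), (2, 3, 10),
      (2, 7, 8), (2, 8, 9), (2, 9, 10), (3, 4, 10), (3, 4, 11), (3, 5, 12), (3, 11, 12), (4, 10,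
      13), (4, 11, 13)]
    fin := [0, 0, 0, 3, 3, 0, 6, 7, 8, 9, 3, 11, 3, 13]
    chd := [(0, 7), (0, 8), (0, 9)]
    steps := [(0, 1), (0, 2), (0, 5), (3, 4), (3, 10), (3, 12)] }
  rep := [0, 3, 7, 11, 8, 9, 6, 13]

noncomputable def v258 : Cov.CovD where
  P := 3
  N := 5
  pl := [1, 6, 8]
  lev := [⟨[], [], [(0, 2)], [6], [(0, 0, [2, 4, 5]), (2, 2, [0])]⟩,
    ⟨[], [(0, 0), (0, 2)], [(0, 2)], [], [(0, 0, [2, 4, 5]), (2, 2, [0])]⟩,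
    ⟨[(0, 1)], [(0, 2), (1, 0), (1, 1), (1, 2), (1, 4), (1, 5)], [(1, 2), (1, 4), (1, 5),
      (2, 4), (2, 5), (4, 5)], [], [(2, 2, [0]), (3, 4, [0]), (4, 5, [0]), (5, 1, [])]⟩,
    ⟨[(0, 1), (1, 2)], [(0, 0), (1, 0), (1, 1), (1, 2), (2, 0), (2, 1), (2, 2), (2, 4), (2,
      5)], [(0, 1), (1, 1)], [3], [(0, 0, [2, 4, 5]), (5, 1, []), (7, 1, [])]⟩,
    ⟨[(1, 3), (2, 3)], [(2, 1), (3, 0), (3, 1)], [], [3, 7], [(5, 1, [])]⟩]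
  Ta := [((5, 4), 1, 5), ((5, 8), 1, 7), ((7, 0), 1, 0), ((7, 6), 1, 3)]
  Tb := [((0, 1, 7), 0, 6, 1), ((1, 0, 2), 6, 0, 2), ((2, 1, 3), 2, 6, 4), ((3, 2, 4), 4, 2, 5),
    ((4, 3, 5), 5, 4, 1), ((5, 4, 8), 1, 5, 7), ((6, 7, 8), 3, 1, 7), ((7, 0, 6), 1, 0, 3),
    ((8, 5, 6), 7, 1, 3)]
  Tc := [(0, 2, 4), (0, 2, 5), (0, 4, 5)]
  Td := [((0, 2), (0, 1), 6), ((0, 2), (0, 7), 1), ((0, 4), (0, 1), 6), ((0, 4), (0, 7), 1), ((0,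
    5), (0, 1), 6), ((0, 5), (0, 7), 1), ((2, 0), (2, 1), 6), ((2, 0), (2, 3), 4), ((4, 0),
    (3, 2), 2), ((4, 0), (3, 4), 5), ((5, 0), (4, 3), 4), ((5, 0), (4, 5), 1)]
  G := [[0, 0, 0x95c1295c12a, 0x541981c541981cc, 0x95c1295c12a], [0, 0xca618ca618c,
    0x92c1425c18a, 0x92c1472c18c, 0x25c1263c18a]]

noncomputable def n258 : Ent := ⟨e258, noF, [], [], []⟩

def c258 : PLift (Cov.check n258.C.D v258 = true) := ⟨by decide +kernel⟩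

def b258 : PLift (entF (fidx ts) 400 258 n258 = true) := ⟨by decide +kernel⟩

theorem g258 : GoodF (fidx ts) 400 258 := GoodF.ofV v258 n258 c258.down b258.down

/-- 45674:218 -/
noncomputable def e259 : SCfg where
  D := {
    a := 5
    L := 9
    kp := 7
    inn := [(0, 1), (1, 0), (1, 2), (1, 3), (2, 1), (2, 3), (3, 1), (3, 2), (3, 4), (4, 3)]
    mix := [(0, 0), (0, 1), (0, 2), (1, 0), (1, 2), (2, 2), (2, 3), (2, 4), (2, 5), (3, 0), (3, 5), (3,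
      6), (3, 7), (4, 6), (4, 7), (4, 8)]
    cl := [0, 6, 2, 4, 5, 1, 3, 1, 7]
    chq := [(0, 2), (0, 4), (0, 5), (2, 0), (4, 0), (5, 0)]
    rng := [(0, 1), (0, 7), (1, 0), (1, 2), (2, 1), (2, 3), (3, 2), (3, 4), (4, 3), (4, 5), (5, 4), (5,
      6), (6, 5), (6, 8), (7, 0), (7, 8), (8, 6), (8, 7)]
    lev := [] }
  links := [[1, 5, 6, 7], [5, 0, 7, 2, 3], [3, 1, 7, 8, 9, 10], [5, 1, 2, 10, 11, 4, 12], [12, 3, 11,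
    13]]
  P := {
    a := 5
    N := 14
    nb := [226, 173, 1930, 7222, 14344, 4171, 161, 327, 644, 1284, 2572, 9240, 8248, 6160]
    tri := [(0, 1, 5), (0, 1, 7), (0, 5, 6), (0, 6, 7), (1, 2, 3), (1, 2, 7), (1, 3, 5), (2, 3, 10),
      (2, 7, 8), (2, 8, 9), (2, 9, 10), (3, 4, 11), (3, 4, 12), (3, 5, 12), (3, 10, 11), (4, 11,
      13), (4, 12, 13)]
    fin := [0, 0, 0, 3, 3, 0, 6, 7, 8, 9, 3, 11, 3, 13]
    chd := [(0, 7), (0, 8), (0, 9)]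
    steps := [(0, 1), (0, 2), (0, 5), (3, 4), (3, 10), (3, 12)] }
  rep := [0, 3, 7, 11, 8, 9, 6, 13]

noncomputable def v259 : Cov.CovD where
  P := 3
  N := 5
  pl := [1, 6, 8]
  lev := [⟨[], [], [(0, 2)], [6], [(0, 0, [2, 4, 5]), (2, 2, [0])]⟩,
    ⟨[], [(0, 0), (0, 2)], [(0, 2)], [], [(0, 0, [2, 4, 5]), (2, 2, [0])]⟩,
    ⟨[(0, 1)], [(0, 2), (1, 0), (1, 1), (1, 2), (1, 4), (1, 5)], [(1, 2), (1, 4), (1, 5),
      (2, 4), (2, 5), (4, 5)], [], [(2, 2, [0]), (3, 4, [0]), (4, 5, [0]), (5, 1, [])]⟩,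
    ⟨[(0, 1), (1, 2)], [(0, 0), (1, 0), (1, 1), (1, 2), (2, 0), (2, 1), (2, 2), (2, 4), (2,
      5)], [(0, 1), (1, 1)], [3], [(0, 0, [2, 4, 5]), (5, 1, []), (7, 1, [])]⟩,
    ⟨[(1, 3), (2, 3)], [(3, 0), (3, 1)], [], [3, 7], [(7, 1, [])]⟩]
  Ta := [((5, 4), 1, 5), ((5, 6), 1, 3), ((7, 0), 1, 0), ((7, 8), 1, 7)]
  Tb := [((0, 1, 7), 0, 6, 1), ((1, 0, 2), 6, 0, 2), ((2, 1, 3), 2, 6, 4), ((3, 2, 4), 4, 2, 5),
    ((4, 3, 5), 5, 4, 1), ((5, 4, 6), 1, 5, 3), ((6, 5, 8), 3, 1, 7), ((7, 0, 8), 1, 0, 7),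
    ((8, 6, 7), 7, 3, 1)]
  Tc := [(0, 2, 4), (0, 2, 5), (0, 4, 5)]
  Td := [((0, 2), (0, 1), 6), ((0, 2), (0, 7), 1), ((0, 4), (0, 1), 6), ((0, 4), (0, 7), 1), ((0,
    5), (0, 1), 6), ((0, 5), (0, 7), 1), ((2, 0), (2, 1), 6), ((2, 0), (2, 3), 4), ((4, 0),
    (3, 2), 2), ((4, 0), (3, 4), 5), ((5, 0), (4, 3), 4), ((5, 0), (4, 5), 1)]
  G := [[0, 0, 0x72c1892c146, 0x92c1472c18c, 0x92c1292c12a], [0, 0xc6a14c6a14c, 0x95c12541981ca,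
    0x541981c541981cc, 0x95c1295c12a]]

noncomputable def n259 : Ent := ⟨e259, noF, [], [], []⟩

def c259 : PLift (Cov.check n259.C.D v259 = true) := ⟨by decide +kernel⟩

def b259 : PLift (entF (fidx ts) 400 259 n259 = true) := ⟨by decide +kernel⟩

theorem g259 : GoodF (fidx ts) 400 259 := GoodF.ofV v259 n259 c259.down b259.down

/-- 46745:219/1 -/
noncomputable def e260 : SCfg where
  D := {
    a := 5
    L := 9
    kp := 6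
    inn := [(0, 1), (1, 0), (1, 2), (2, 1), (2, 3), (2, 4), (3, 2), (4, 2)]
    mix := [(0, 0), (0, 1), (0, 2), (1, 0), (1, 2), (1, 3), (1, 4), (2, 3), (2, 4), (2, 5), (2, 6), (3,
      3), (3, 5), (3, 7), (4, 1), (4, 5), (4, 6), (4, 8)]
    cl := [4, 3, 2, 0, 0, 1, 1, 5, 6]
    chq := [(0, 3), (3, 0)]
    rng := [(0, 1), (0, 4), (1, 0), (1, 2), (1, 5), (1, 8), (2, 1), (2, 3), (3, 2), (3, 7), (4, 0), (4,
      6), (5, 1), (5, 7), (6, 4), (6, 8), (7, 3), (7, 5), (8, 1), (8, 6)]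
    lev := [] }
  links := [[1, 5, 6, 7], [5, 0, 7, 8, 2, 9], [9, 1, 8, 3, 10, 4, 11], [10, 2, 8, 12], [11, 2, 10, 6,
    13]]
  P := {
    a := 5
    N := 14
    nb := [226, 933, 3866, 5380, 11332, 579, 9393, 323, 4238, 2086, 4188, 8724, 1288, 2128]
    tri := [(0, 1, 5), (0, 1, 7), (0, 5, 6), (0, 6, 7), (1, 2, 8), (1, 2, 9), (1, 5, 9), (1, 7, 8), (2,
      3, 8), (2, 3, 10), (2, 4, 10), (2, 4, 11), (2, 9, 11), (3, 8, 12), (3, 10, 12), (4, 6, 10),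
      (4, 6, 13), (4, 11, 13)]
    fin := [0, 1, 2, 1, 0, 5, 0, 7, 1, 1, 2, 2, 12, 13]
    chd := [(0, 1)]
    steps := [(0, 6), (0, 4), (1, 8), (1, 3), (1, 9), (2, 10), (2, 11)] }
  rep := [1, 2, 7, 0, 5, 12, 13]

noncomputable def v260 : Cov.CovD where
  P := 3
  N := 4
  pl := [0, 2, 7, 8]
  lev := [⟨[], [], [], [2, 4], [(1, 3, [0])]⟩,
    ⟨[], [(0, 0), (0, 3)], [(0, 0)], [2, 4], [(3, 0, [3]), (4, 0, [3])]⟩,
    ⟨[(0, 1)], [(1, 0), (1, 1)], [(0, 0), (0, 1), (1, 1)], [], [(3, 0, [3]), (4, 0, [3]),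
      (5, 1, []), (6, 1, [])]⟩,
    ⟨[(1, 2)], [(1, 0), (2, 0), (2, 1)], [(0, 1)], [5], [(3, 0, [3]), (5, 1, [])]⟩,
    ⟨[(1, 2), (2, 3)], [(0, 3), (2, 0), (2, 1), (2, 3), (3, 1)], [(1, 1), (1, 3)], [6],
      [(1, 3, [0]), (5, 1, []), (6, 1, [])]⟩]
  Ta := [((3, 2), 0, 2), ((3, 7), 0, 5), ((4, 0), 0, 4), ((4, 6), 0, 1), ((5, 1), 1, 3), ((5, 7),
    1, 5), ((6, 4), 1, 0), ((6, 8), 1, 6)]
  Tb := [((0, 1, 4), 4, 3, 0), ((1, 0, 2), 3, 4, 2), ((1, 0, 5), 3, 4, 1), ((1, 0, 8), 3, 4, 6),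
    ((1, 2, 5), 3, 2, 1), ((1, 2, 8), 3, 2, 6), ((1, 5, 8), 3, 1, 6), ((2, 1, 3), 2, 3, 0),
    ((3, 2, 7), 0, 2, 5), ((4, 0, 6), 0, 4, 1), ((5, 1, 7), 1, 3, 5), ((6, 4, 8), 1, 0, 6),
    ((7, 3, 5), 5, 0, 1), ((8, 1, 6), 6, 3, 1)]
  Tc := []
  Td := [((0, 3), (3, 2), 2), ((0, 3), (3, 7), 5), ((0, 3), (4, 0), 4), ((0, 3), (4, 6), 1), ((3,
    0), (1, 0), 4), ((3, 0), (1, 2), 2), ((3, 0), (1, 5), 1), ((3, 0), (1, 8), 6)]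
  G := [[0, 0, 0x99c4855c84c4d1cc2e, 0x44d9cc5dc88cc1, 0x44d9ccd4d8ca1], [0, 0, 0x92485284d282e,
    0x5282cd28c1, 0xd282d2483], [0, 0, 0, 0x91485184518918cd, 0x91485142514c14ab], [0,
    0xeec2ee68c1, 0, 0x92485184524928cd, 0xd282d2483]]

noncomputable def n260 : Ent := ⟨e260, noF, [], [], []⟩

def c260 : PLift (Cov.check n260.C.D v260 = true) := ⟨by decide +kernel⟩

def b260 : PLift (entF (fidx ts) 400 260 n260 = true) := ⟨by decide +kernel⟩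

theorem g260 : GoodF (fidx ts) 400 260 := GoodF.ofV v260 n260 c260.down b260.down

/-- 46745:219/2 -/
noncomputable def e261 : SCfg where
  D := {
    a := 5
    L := 9
    kp := 6
    inn := [(0, 1), (1, 0), (1, 2), (2, 1), (2, 3), (2, 4), (3, 2), (4, 2)]
    mix := [(0, 0), (0, 1), (0, 2), (1, 0), (1, 2), (1, 3), (1, 4), (2, 3), (2, 4), (2, 5), (2, 6), (3,
      3), (3, 5), (3, 7), (4, 1), (4, 5), (4, 6), (4, 8)]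
    cl := [4, 3, 2, 0, 0, 1, 1, 5, 6]
    chq := [(0, 3), (3, 0)]
    rng := [(0, 1), (0, 4), (1, 0), (1, 2), (1, 6), (1, 8), (2, 1), (2, 3), (3, 2), (3, 7), (4, 0), (4,
      6), (5, 7), (5, 8), (6, 1), (6, 4), (7, 3), (7, 5), (8, 1), (8, 5)]
    lev := [] }
  links := [[1, 5, 6, 7], [5, 0, 7, 8, 2, 9], [9, 1, 8, 3, 10, 4, 11], [10, 2, 8, 12], [11, 2, 10, 13,
    6]]
  P := {
    a := 5
    N := 14
    nb := [226, 933, 3866, 5380, 11332, 579, 10417, 323, 4238, 2086, 12316, 596, 1288, 1104]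
    tri := [(0, 1, 5), (0, 1, 7), (0, 5, 6), (0, 6, 7), (1, 2, 8), (1, 2, 9), (1, 5, 9), (1, 7, 8), (2,
      3, 8), (2, 3, 10), (2, 4, 10), (2, 4, 11), (2, 9, 11), (3, 8, 12), (3, 10, 12), (4, 6, 11),
      (4, 6, 13), (4, 10, 13)]
    fin := [0, 0, 2, 2, 4, 5, 0, 7, 2, 2, 4, 4, 12, 13]
    chd := [(0, 2)]
    steps := [(0, 1), (0, 6), (2, 3), (2, 8), (2, 9), (4, 10), (4, 11)] }
  rep := [2, 4, 7, 0, 5, 12, 13]

noncomputable def v261 : Cov.CovD where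
  P := 3
  N := 4
  pl := [0, 2, 7, 8]
  lev := [⟨[], [], [], [2, 4], [(1, 3, [0])]⟩,
    ⟨[], [(0, 0), (0, 3)], [(0, 0)], [2, 4], [(3, 0, [3]), (4, 0, [3])]⟩,
    ⟨[(0, 1)], [(1, 0), (1, 1)], [(0, 0), (0, 1), (1, 1)], [], [(3, 0, [3]), (4, 0, [3]),
      (5, 1, []), (6, 1, [])]⟩,
    ⟨[(1, 2)], [(1, 0), (2, 0), (2, 1)], [(0, 1)], [5], [(3, 0, [3]), (5, 1, [])]⟩,
    ⟨[(1, 2), (2, 3)], [(0, 3), (2, 0), (2, 1), (2, 3), (3, 1)], [(1, 1), (1, 3)], [6],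
      [(1, 3, [0]), (5, 1, []), (6, 1, [])]⟩]
  Ta := [((3, 2), 0, 2), ((3, 7), 0, 5), ((4, 0), 0, 4), ((4, 6), 0, 1), ((5, 7), 1, 5), ((5, 8),
    1, 6), ((6, 1), 1, 3), ((6, 4), 1, 0)]
  Tb := [((0, 1, 4), 4, 3, 0), ((1, 0, 2), 3, 4, 2), ((1, 0, 6), 3, 4, 1), ((1, 0, 8), 3, 4, 6),
    ((1, 2, 6), 3, 2, 1), ((1, 2, 8), 3, 2, 6), ((1, 6, 8), 3, 1, 6), ((2, 1, 3), 2, 3, 0),
    ((3, 2, 7), 0, 2, 5), ((4, 0, 6), 0, 4, 1), ((5, 7, 8), 1, 5, 6), ((6, 1, 4), 1, 3, 0),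
    ((7, 3, 5), 5, 0, 1), ((8, 1, 5), 6, 3, 1)]
  Tc := []
  Td := [((0, 3), (3, 2), 2), ((0, 3), (3, 7), 5), ((0, 3), (4, 0), 4), ((0, 3), (4, 6), 1), ((3,
    0), (1, 0), 4), ((3, 0), (1, 2), 2), ((3, 0), (1, 6), 1), ((3, 0), (1, 8), 6)]
  G := [[0, 0, 0x99c4855c8444d9cc2e, 0x44d9cc5dc88cc1, 0x44d9ccd4d8ca1], [0, 0, 0x92485284d282e,
    0xd24d28c1, 0xd24d24a1], [0, 0, 0, 0x91445184d14918cd, 0xd142d1483], [0, 0xeea4ee68c1, 0,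
    0x91485284528918cd, 0x92485242528c24ab]]

noncomputable def n261 : Ent := ⟨e261, noF, [], [], []⟩

def c261 : PLift (Cov.check n261.C.D v261 = true) := ⟨by decide +kernel⟩

def b261 : PLift (entF (fidx ts) 400 261 n261 = true) := ⟨by decide +kernel⟩

theorem g261 : GoodF (fidx ts) 400 261 := GoodF.ofV v261 n261 c261.down b261.down

/-- 46745:219 -/
noncomputable def e262 : SCfg where
  D := {
    a := 5
    L := 10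
    kp := 7
    inn := [(0, 1), (1, 0), (1, 2), (2, 1), (2, 3), (2, 4), (3, 2), (4, 2)]
    mix := [(0, 0), (0, 1), (0, 2), (1, 0), (1, 2), (1, 3), (1, 4), (2, 3), (2, 4), (2, 5), (2, 6), (3,
      3), (3, 5), (3, 7), (4, 5), (4, 6), (4, 8), (4, 9)]
    cl := [1, 4, 2, 0, 0, 3, 3, 5, 6, 7]
    chq := [(0, 4), (4, 0)]
    rng := [(0, 1), (0, 4), (1, 0), (1, 2), (2, 1), (2, 3), (3, 2), (3, 7), (4, 0), (4, 6), (5, 7), (5,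
      8), (6, 4), (6, 9), (7, 3), (7, 5), (8, 5), (8, 9), (9, 6), (9, 8)]
    lev := [] }
  links := [[1, 5, 6, 7], [5, 0, 7, 8, 2, 9], [9, 1, 8, 3, 10, 4, 11], [10, 2, 8, 12], [11, 2, 10, 13,
    14]]
  P := {
    a := 5
    N := 15
    nb := [226, 933, 3866, 5380, 27652, 579, 161, 323, 4238, 2086, 12316, 16916, 1288, 17424, 10256]
    tri := [(0, 1, 5), (0, 1, 7), (0, 5, 6), (0, 6, 7), (1, 2, 8), (1, 2, 9), (1, 5, 9), (1, 7, 8), (2,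
      3, 8), (2, 3, 10), (2, 4, 10), (2, 4, 11), (2, 9, 11), (3, 8, 12), (3, 10, 12), (4, 10, 13),
      (4, 11, 14), (4, 13, 14)]
    fin := [0, 0, 2, 2, 4, 5, 0, 7, 2, 2, 4, 4, 12, 13, 14]
    chd := [(0, 2)]
    steps := [(0, 1), (0, 6), (2, 3), (2, 8), (2, 9), (4, 10), (4, 11)] }
  rep := [2, 5, 7, 4, 0, 12, 13, 14]

noncomputable def v262 : Cov.CovD where
  P := 3
  N := 5
  pl := [0, 2, 7, 8, 9]
  lev := [⟨[], [], [], [1, 2], [(1, 4, [0])]⟩,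
    ⟨[], [(0, 0), (0, 4)], [(0, 0)], [1, 2], [(3, 0, [4]), (4, 0, [4])]⟩,
    ⟨[(0, 1)], [(1, 0), (1, 3)], [(0, 0), (0, 3), (3, 3)], [], [(3, 0, [4]), (4, 0, [4]),
      (5, 3, []), (6, 3, [])]⟩,
    ⟨[(1, 2)], [(1, 0), (2, 0), (2, 3)], [(0, 3)], [5], [(3, 0, [4]), (5, 3, [])]⟩,
    ⟨[(1, 2), (2, 3)], [(2, 0), (2, 3), (3, 3)], [(3, 3)], [6, 7], [(5, 3, []), (6, 3,
      [])]⟩]
  Ta := [((3, 2), 0, 2), ((3, 7), 0, 5), ((4, 0), 0, 1), ((4, 6), 0, 3), ((5, 7), 3, 5), ((5, 8),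
    3, 6), ((6, 4), 3, 0), ((6, 9), 3, 7)]
  Tb := [((0, 1, 4), 1, 4, 0), ((1, 0, 2), 4, 1, 2), ((2, 1, 3), 2, 4, 0), ((3, 2, 7), 0, 2, 5),
    ((4, 0, 6), 0, 1, 3), ((5, 7, 8), 3, 5, 6), ((6, 4, 9), 3, 0, 7), ((7, 3, 5), 5, 0, 3),
    ((8, 5, 9), 6, 3, 7), ((9, 6, 8), 7, 3, 6)]
  Tc := []
  Td := [((0, 4), (3, 2), 2), ((0, 4), (3, 7), 5), ((0, 4), (4, 0), 1), ((0, 4), (4, 6), 3), ((4,
    0), (1, 0), 1), ((4, 0), (1, 2), 2)]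
  G := [[0, 0, 0x7dae82a875ee486a45d2ea79eacc, 0x426db2eb4dee81, 0x426db2eb4dee81], [0, 0,
    0xf2f8a4f24f42cc, 0xf2f4681, 0xf2f4681], [0, 0xd1b168d1b168c, 0, 0xd171a41, 0xd1b1681],
    [0, 0xd171a4f1b468c, 0, 0xf2eb9681, 0xe49bb4681]]

noncomputable def n262 : Ent := ⟨e262, noF, [], [], [(6, 13, [87897818358406171357428020359653357189577334862559918964737, 0]), (6, 14, [81620716623019490593592230936445690773474979418095884455937, 0])]⟩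

def c262 : PLift (Cov.check n262.C.D v262 = true) := ⟨by decide +kernel⟩

def b262 : PLift (entF (fidx ts) 400 262 n262 = true) := ⟨by decide +kernel⟩

theorem g262 : GoodF (fidx ts) 400 262 := GoodF.ofV v262 n262 c262.down b262.down

/-- 46656:220/1 -/
noncomputable def e263 : SCfg where
  D := {
    a := 5
    L := 9
    kp := 6
    inn := [(0, 1), (1, 0), (1, 2), (2, 1), (2, 3), (2, 4), (3, 2), (3, 4), (4, 2), (4, 3)]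
    mix := [(0, 0), (0, 1), (0, 2), (1, 0), (1, 2), (1, 3), (1, 4), (2, 3), (2, 4), (2, 5), (3, 3), (3,
      6), (3, 7), (4, 1), (4, 5), (4, 7), (4, 8)]
    cl := [3, 2, 4, 0, 0, 1, 5, 1, 6]
    chq := [(3, 4), (4, 3)]
    rng := [(0, 1), (0, 4), (1, 0), (1, 2), (1, 7), (1, 8), (2, 1), (2, 3), (3, 2), (3, 6), (4, 0), (4,
      5), (5, 4), (5, 8), (6, 3), (6, 7), (7, 1), (7, 6), (8, 1), (8, 5)]
    lev := [] }
  links := [[1, 5, 6, 7], [5, 0, 7, 8, 2, 9], [9, 1, 8, 3, 4, 10], [4, 2, 8, 11, 12], [10, 2, 3, 12, 6,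
    13]]
  P := {
    a := 5
    N := 14
    nb := [226, 933, 1818, 6420, 13388, 579, 12465, 323, 2190, 1062, 8724, 4360, 2136, 1104]
    tri := [(0, 1, 5), (0, 1, 7), (0, 5, 6), (0, 6, 7), (1, 2, 8), (1, 2, 9), (1, 5, 9), (1, 7, 8), (2,
      3, 4), (2, 3, 8), (2, 4, 10), (2, 9, 10), (3, 4, 12), (3, 8, 11), (3, 11, 12), (4, 6, 12),
      (4, 6, 13), (4, 10, 13)]
    fin := [0, 0, 2, 2, 4, 0, 6, 7, 2, 2, 4, 11, 4, 13]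
    chd := [(0, 7)]
    steps := [(0, 1), (0, 5), (2, 3), (2, 8), (2, 9), (4, 12), (4, 10)] }
  rep := [2, 4, 6, 0, 7, 11, 13]

noncomputable def v263 : Cov.CovD where
  P := 3
  N := 4
  pl := [1, 6, 8]
  lev := [⟨[], [], [(3, 4)], [2], [(0, 3, [4]), (2, 4, [3])]⟩,
    ⟨[], [(0, 0), (0, 3), (0, 4)], [(0, 0), (0, 3), (0, 4), (3, 4)], [], [(0, 3, [4]), (2,
      4, [3]), (3, 0, []), (4, 0, [])]⟩,
    ⟨[(0, 1)], [(1, 0), (1, 1), (1, 3), (1, 4)], [(0, 0), (0, 1)], [], [(3, 0, []), (4, 0,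
      []), (5, 1, [])]⟩,
    ⟨[(1, 2)], [(1, 0), (2, 0), (2, 1)], [(0, 1)], [5], [(3, 0, []), (7, 1, [])]⟩,
    ⟨[(1, 2), (2, 3)], [(2, 0), (2, 1), (3, 0), (3, 1)], [(1, 1)], [2, 6], [(5, 1, []), (7,
      1, [])]⟩]
  Ta := [((3, 2), 0, 4), ((3, 6), 0, 5), ((4, 0), 0, 3), ((4, 5), 0, 1), ((5, 4), 1, 0), ((5, 8),
    1, 6), ((7, 1), 1, 2), ((7, 6), 1, 5)]
  Tb := [((0, 1, 4), 3, 2, 0), ((1, 0, 2), 2, 3, 4), ((1, 0, 7), 2, 3, 1), ((1, 0, 8), 2, 3, 6),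
    ((1, 2, 7), 2, 4, 1), ((1, 2, 8), 2, 4, 6), ((1, 7, 8), 2, 1, 6), ((2, 1, 3), 4, 2, 0),
    ((3, 2, 6), 0, 4, 5), ((4, 0, 5), 0, 3, 1), ((5, 4, 8), 1, 0, 6), ((6, 3, 7), 5, 0, 1),
    ((7, 1, 6), 1, 2, 5), ((8, 1, 5), 6, 2, 1)]
  Tc := []
  Td := [((3, 4), (0, 1), 2), ((3, 4), (0, 4), 0), ((4, 3), (2, 1), 2), ((4, 3), (2, 3), 0)]
  G := [[0, 0, 0xc248c284c282e, 0, 0x924892429244b], [0, 0, 0xccc28ccc24c4c8c2e,
    0x5cc8295c245cc82d, 0x99c2899c4299c24b], [0, 0xccc24cca4ccc2a5, 0xc248c184c182e, 0,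
    0x924892429284b], [0, 0, 0xc128c184c142e, 0xc142c142c182d, 0x99c28118d42118d24b]]

noncomputable def n263 : Ent := ⟨e263, noF, [], [], []⟩

def c263 : PLift (Cov.check n263.C.D v263 = true) := ⟨by decide +kernel⟩

def b263 : PLift (entF (fidx ts) 400 263 n263 = true) := ⟨by decide +kernel⟩

theorem g263 : GoodF (fidx ts) 400 263 := GoodF.ofV v263 n263 c263.down b263.down

/-- 46656:220/2 -/
noncomputable def e264 : SCfg where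
  D := {
    a := 5
    L := 9
    kp := 6
    inn := [(0, 1), (1, 0), (1, 2), (2, 1), (2, 3), (2, 4), (3, 2), (3, 4), (4, 2), (4, 3)]
    mix := [(0, 0), (0, 1), (0, 2), (1, 0), (1, 2), (1, 3), (1, 4), (2, 3), (2, 4), (2, 5), (3, 3), (3,
      6), (3, 7), (4, 1), (4, 5), (4, 7), (4, 8)]
    cl := [3, 2, 4, 0, 0, 1, 5, 1, 6]
    chq := [(3, 4), (4, 3)]
    rng := [(0, 1), (0, 4), (1, 0), (1, 2), (1, 5), (1, 8), (2, 1), (2, 3), (3, 2), (3, 6), (4, 0), (4,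
      5), (5, 1), (5, 4), (6, 3), (6, 7), (7, 6), (7, 8), (8, 1), (8, 7)]
    lev := [] }
  links := [[1, 5, 6, 7], [5, 0, 7, 8, 2, 9], [9, 1, 8, 3, 4, 10], [4, 2, 8, 11, 12], [10, 2, 3, 12, 13,
    6]]
  P := {
    a := 5
    N := 14
    nb := [226, 933, 1818, 6420, 13388, 579, 9393, 323, 2190, 1062, 596, 4360, 10264, 4176]
    tri := [(0, 1, 5), (0, 1, 7), (0, 5, 6), (0, 6, 7), (1, 2, 8), (1, 2, 9), (1, 5, 9), (1, 7, 8), (2,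
      3, 4), (2, 3, 8), (2, 4, 10), (2, 9, 10), (3, 4, 12), (3, 8, 11), (3, 11, 12), (4, 6, 10),
      (4, 6, 13), (4, 12, 13)]
    fin := [0, 0, 2, 2, 4, 0, 6, 7, 2, 2, 4, 11, 4, 13]
    chd := [(0, 7)]
    steps := [(0, 1), (0, 5), (2, 3), (2, 8), (2, 9), (4, 12), (4, 10)] }
  rep := [2, 4, 6, 0, 7, 11, 13]

noncomputable def v264 : Cov.CovD where
  P := 3
  N := 4
  pl := [1, 6, 8]
  lev := [⟨[], [], [(3, 4)], [2], [(0, 3, [4]), (2, 4, [3])]⟩,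
    ⟨[], [(0, 0), (0, 3), (0, 4)], [(0, 0), (0, 3), (0, 4), (3, 4)], [], [(0, 3, [4]), (2,
      4, [3]), (3, 0, []), (4, 0, [])]⟩,
    ⟨[(0, 1)], [(1, 0), (1, 1), (1, 3), (1, 4)], [(0, 0), (0, 1)], [], [(3, 0, []), (4, 0,
      []), (5, 1, [])]⟩,
    ⟨[(1, 2)], [(1, 0), (2, 0), (2, 1)], [(0, 1)], [5], [(3, 0, []), (7, 1, [])]⟩,
    ⟨[(1, 2), (2, 3)], [(2, 0), (2, 1), (3, 0), (3, 1)], [(1, 1)], [2, 6], [(5, 1, []), (7,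
      1, [])]⟩]
  Ta := [((3, 2), 0, 4), ((3, 6), 0, 5), ((4, 0), 0, 3), ((4, 5), 0, 1), ((5, 1), 1, 2), ((5, 4),
    1, 0), ((7, 6), 1, 5), ((7, 8), 1, 6)]
  Tb := [((0, 1, 4), 3, 2, 0), ((1, 0, 2), 2, 3, 4), ((1, 0, 5), 2, 3, 1), ((1, 0, 8), 2, 3, 6),
    ((1, 2, 5), 2, 4, 1), ((1, 2, 8), 2, 4, 6), ((1, 5, 8), 2, 1, 6), ((2, 1, 3), 4, 2, 0),
    ((3, 2, 6), 0, 4, 5), ((4, 0, 5), 0, 3, 1), ((5, 1, 4), 1, 2, 0), ((6, 3, 7), 5, 0, 1),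
    ((7, 6, 8), 1, 5, 6), ((8, 1, 7), 6, 2, 1)]
  Tc := []
  Td := [((3, 4), (0, 1), 2), ((3, 4), (0, 4), 0), ((4, 3), (2, 1), 2), ((4, 3), (2, 3), 0)]
  G := [[0, 0, 0xc248c284c242e, 0xc248c282c282d, 0x924892429244b], [0, 0, 0xccc28ccc24c4c8c2e,
    0, 0x99c2899c4219c88c4b], [0, 0xccc2ccc2cc68e1, 0xc148c284c242e, 0xc1425284c142d,
    0x9248183429284b], [0, 0, 0xc148c184c142e, 0, 0x118d28118d82118d24b]]

noncomputable def n264 : Ent := ⟨e264, noF, [], [], []⟩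

def c264 : PLift (Cov.check n264.C.D v264 = true) := ⟨by decide +kernel⟩

def b264 : PLift (entF (fidx ts) 400 264 n264 = true) := ⟨by decide +kernel⟩

theorem g264 : GoodF (fidx ts) 400 264 := GoodF.ofV v264 n264 c264.down b264.down

/-- 46656:220 -/
noncomputable def e265 : SCfg where
  D := {
    a := 5
    L := 10
    kp := 7
    inn := [(0, 1), (1, 0), (1, 2), (2, 1), (2, 3), (2, 4), (3, 2), (3, 4), (4, 2), (4, 3)]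
    mix := [(0, 0), (0, 1), (0, 2), (1, 0), (1, 2), (1, 3), (1, 4), (2, 3), (2, 4), (2, 5), (3, 3), (3,
      6), (3, 7), (4, 5), (4, 7), (4, 8), (4, 9)]
    cl := [1, 4, 2, 0, 0, 3, 5, 3, 6, 7]
    chq := [(1, 2), (2, 1)]
    rng := [(0, 1), (0, 4), (1, 0), (1, 2), (2, 1), (2, 3), (3, 2), (3, 6), (4, 0), (4, 5), (5, 4), (5,
      9), (6, 3), (6, 7), (7, 6), (7, 8), (8, 7), (8, 9), (9, 5), (9, 8)]
    lev := [] }
  links := [[1, 5, 6, 7], [5, 0, 7, 8, 2, 9], [9, 1, 8, 3, 4, 10], [4, 2, 8, 11, 12], [10, 2, 3, 12, 13,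
    14]]
  P := {
    a := 5
    N := 15
    nb := [226, 933, 1818, 6420, 29708, 579, 161, 323, 2190, 1062, 16916, 4360, 10264, 20496, 9232]
    tri := [(0, 1, 5), (0, 1, 7), (0, 5, 6), (0, 6, 7), (1, 2, 8), (1, 2, 9), (1, 5, 9), (1, 7, 8), (2,
      3, 4), (2, 3, 8), (2, 4, 10), (2, 9, 10), (3, 4, 12), (3, 8, 11), (3, 11, 12), (4, 10, 14),
      (4, 12, 13), (4, 13, 14)]
    fin := [0, 0, 2, 2, 4, 0, 6, 7, 2, 2, 4, 11, 4, 13, 14]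
    chd := [(0, 7)]
    steps := [(0, 1), (0, 5), (2, 3), (2, 8), (2, 9), (4, 12), (4, 10)] }
  rep := [2, 0, 7, 4, 6, 11, 13, 14]

noncomputable def v265 : Cov.CovD where
  P := 3
  N := 5
  pl := [1, 6, 8, 9]
  lev := [⟨[], [], [(1, 2)], [4], [(0, 1, [2]), (2, 2, [1])]⟩,
    ⟨[], [(0, 0), (0, 1), (0, 2)], [(0, 0), (0, 1), (0, 2), (1, 2)], [], [(0, 1, [2]), (2,
      2, [1]), (3, 0, []), (4, 0, [])]⟩,
    ⟨[(0, 1)], [(1, 0), (1, 1), (1, 2), (1, 3)], [(0, 0), (0, 3)], [], [(3, 0, []), (4, 0,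
      []), (5, 3, [])]⟩,
    ⟨[(1, 2)], [(1, 0), (2, 0), (2, 3)], [(0, 3)], [5], [(3, 0, []), (7, 3, [])]⟩,
    ⟨[(1, 2), (2, 3)], [(2, 0), (2, 3), (3, 0), (3, 3)], [(3, 3)], [6, 7], [(5, 3, []), (7,
      3, [])]⟩]
  Ta := [((3, 2), 0, 2), ((3, 6), 0, 5), ((4, 0), 0, 1), ((4, 5), 0, 3), ((5, 4), 3, 0), ((5, 9),
    3, 7), ((7, 6), 3, 5), ((7, 8), 3, 6)]
  Tb := [((0, 1, 4), 1, 4, 0), ((1, 0, 2), 4, 1, 2), ((2, 1, 3), 2, 4, 0), ((3, 2, 6), 0, 2, 5),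
    ((4, 0, 5), 0, 1, 3), ((5, 4, 9), 3, 0, 7), ((6, 3, 7), 5, 0, 3), ((7, 6, 8), 3, 5, 6),
    ((8, 7, 9), 6, 3, 7), ((9, 5, 8), 7, 3, 6)]
  Tc := []
  Td := [((1, 2), (0, 1), 4), ((1, 2), (0, 4), 0), ((2, 1), (2, 1), 4), ((2, 1), (2, 3), 0)]
  G := [[0, 0, 0xd2f2ca4f2f8a4c, 0xad678a4347ca84e85, 0xf2f468d26bc689], [0, 0,
    0xffaf46862ff9e68c, 0xe2ff1e68f2ffc689, 0xf3fec468f2ffc689], [0, 0x1e3b468583169a4c, 0,
    0xf2f468d26bc689, 0x2daf468f2f4689], [0, 0x111ef24111ef24c, 0, 0x111ef84111ef245,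
    0x111ef48111ef489]]

noncomputable def n265 : Ent := ⟨e265, noF, [], [], [(6, 13, [87897818358406171357428020359653357189577334862559918977025, 0]), (6, 14, [81620716623019490593592230936445690773474979418095884468225, 0])]⟩

def c265 : PLift (Cov.check n265.C.D v265 = true) := ⟨by decide +kernel⟩

def b265 : PLift (entF (fidx ts) 400 265 n265 = true) := ⟨by decide +kernel⟩

theorem g265 : GoodF (fidx ts) 400 265 := GoodF.ofV v265 n265 c265.down b265.down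

/-- 46654:222/2 -/
noncomputable def e266 : SCfg where
  D := {
    a := 5
    L := 7
    kp := 4
    inn := [(0, 1), (1, 0), (1, 2), (2, 1), (2, 3), (3, 2), (3, 4), (4, 3)]
    mix := [(0, 0), (0, 1), (0, 2), (1, 0), (1, 2), (1, 3), (1, 4), (2, 3), (2, 4), (2, 5), (2, 6), (3,
      1), (3, 3), (3, 5), (4, 1), (4, 2), (4, 3)]
    cl := [2, 3, 0, 1, 0, 1, 4]
    chq := []
    rng := [(0, 1), (0, 4), (1, 0), (1, 2), (1, 5), (2, 1), (2, 3), (3, 2), (4, 0), (4, 6), (5, 1), (5,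
      6), (6, 4), (6, 5)]
    lev := [] }
  links := [[1, 5, 6, 7], [5, 0, 7, 8, 2, 9], [9, 1, 8, 3, 10, 11], [10, 2, 8, 4, 6], [6, 3, 8, 7]]
  P := {
    a := 5
    N := 12
    nb := [226, 933, 3850, 1364, 456, 579, 1209, 339, 158, 2086, 2124, 1540]
    tri := [(0, 1, 5), (0, 1, 7), (0, 5, 6), (0, 6, 7), (1, 2, 8), (1, 2, 9), (1, 5, 9), (1, 7, 8), (2,
      3, 8), (2, 3, 10), (2, 9, 11), (2, 10, 11), (3, 4, 6), (3, 4, 8), (3, 6, 10), (4, 6, 7), (4,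
      7, 8)]
    fin := [0, 1, 1, 3, 4, 0, 4, 1, 3, 1, 3, 11]
    chd := []
    steps := [(0, 5), (1, 2), (1, 7), (1, 9), (3, 8), (3, 10), (4, 6)] }
  rep := [1, 3, 0, 4, 11]

noncomputable def v266 : Cov.CovD where
  P := 3
  N := 2
  pl := [0, 1, 6]
  lev := [⟨[], [], [], [2, 3], [(2, 0, [])]⟩,
    ⟨[], [(0, 0), (0, 1)], [(0, 0), (0, 1)], [2], [(2, 0, []), (3, 1, []), (4, 0, [])]⟩,
    ⟨[(0, 1)], [(1, 0), (1, 1)], [(0, 1), (1, 1)], [4], [(3, 1, []), (4, 0, []), (5, 1,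
      [])]⟩,
    ⟨[(1, 2)], [(1, 1), (2, 0), (2, 1)], [(1, 1)], [3], [(3, 1, []), (5, 1, [])]⟩,
    ⟨[(2, 3)], [(0, 0), (1, 0), (1, 1), (2, 1), (3, 0), (3, 1)], [(0, 1)], [3], [(2, 0,
      []), (3, 1, [])]⟩]
  Ta := [((2, 1), 0, 3), ((2, 3), 0, 1), ((3, 2), 1, 0), ((4, 0), 0, 2), ((4, 6), 0, 4), ((5, 1),
    1, 3), ((5, 6), 1, 4)]
  Tb := [((0, 1, 4), 2, 3, 0), ((1, 0, 2), 3, 2, 0), ((1, 0, 5), 3, 2, 1), ((1, 2, 5), 3, 0, 1),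
    ((2, 1, 3), 0, 3, 1), ((4, 0, 6), 0, 2, 4), ((5, 1, 6), 1, 3, 4), ((6, 4, 5), 4, 0, 1)]
  Tc := []
  Td := []
  G := [[0, 0x8888682444a4c, 0, 0x88184414c, 0x84c182], [0, 0, 0, 0x88144414c, 0x88182418a], [0,
    0, 0xc1c1c42, 0xc1c1c41, 0xc1c1c82], [0, 0, 0x1884c22121c46, 0x2121c41, 0xc1a1c81]]

noncomputable def n266 : Ent := ⟨e266, noF, [], [], []⟩

def c266 : PLift (Cov.check n266.C.D v266 = true) := ⟨by decide +kernel⟩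

def b266 : PLift (entF (fidx ts) 400 266 n266 = true) := ⟨by decide +kernel⟩

theorem g266 : GoodF (fidx ts) 400 266 := GoodF.ofV v266 n266 c266.down b266.down

/-- 46654:222/1 -/
noncomputable def e267 : SCfg where
  D := {
    a := 5
    L := 8
    kp := 5
    inn := [(0, 1), (1, 0), (1, 2), (2, 1), (2, 3), (3, 2), (3, 4), (4, 3)]
    mix := [(0, 0), (0, 1), (0, 2), (1, 0), (1, 2), (1, 3), (1, 4), (2, 3), (2, 4), (2, 5), (2, 6), (3,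
      1), (3, 3), (3, 5), (4, 1), (4, 3), (4, 7)]
    cl := [2, 3, 1, 0, 1, 0, 4, 5]
    chq := []
    rng := [(0, 1), (0, 4), (1, 0), (1, 2), (1, 5), (1, 7), (2, 1), (2, 3), (3, 2), (3, 7), (4, 0), (4,
      6), (5, 1), (5, 6), (6, 4), (6, 5), (7, 1), (7, 3)]
    lev := [] }
  links := [[1, 5, 6, 7], [5, 0, 7, 8, 2, 9], [9, 1, 8, 3, 10, 11], [10, 2, 8, 4, 6], [6, 3, 8, 12]]
  P := {
    a := 5
    N := 13
    nb := [226, 933, 3850, 1364, 4424, 579, 5305, 323, 4254, 2086, 2124, 1540, 336]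
    tri := [(0, 1, 5), (0, 1, 7), (0, 5, 6), (0, 6, 7), (1, 2, 8), (1, 2, 9), (1, 5, 9), (1, 7, 8), (2,
      3, 8), (2, 3, 10), (2, 9, 11), (2, 10, 11), (3, 4, 6), (3, 4, 8), (3, 6, 10), (4, 6, 12),
      (4, 8, 12)]
    fin := [0, 1, 1, 3, 4, 0, 4, 1, 3, 1, 3, 11, 12]
    chd := []
    steps := [(0, 5), (1, 2), (1, 7), (1, 9), (3, 8), (3, 10), (4, 6)] }
  rep := [3, 1, 0, 4, 11, 12]

noncomputable def v267 : Cov.CovD where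
  P := 3
  N := 3
  pl := [0, 1, 6, 7]
  lev := [⟨[], [], [], [2, 3], [(2, 1, [])]⟩,
    ⟨[], [(0, 0), (0, 1)], [(0, 1), (1, 1)], [2], [(2, 1, []), (3, 0, []), (4, 1, [])]⟩,
    ⟨[(0, 1)], [(1, 0), (1, 1)], [(0, 0), (0, 1)], [4], [(3, 0, []), (4, 1, []), (5, 0,
      [])]⟩,
    ⟨[(1, 2)], [(1, 0), (2, 0), (2, 1)], [(0, 0)], [3], [(3, 0, []), (5, 0, [])]⟩,
    ⟨[(2, 3)], [(1, 0), (2, 0), (3, 0)], [], [3, 5], [(3, 0, [])]⟩]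
  Ta := [((2, 1), 1, 3), ((2, 3), 1, 0), ((3, 2), 0, 1), ((3, 7), 0, 5), ((4, 0), 1, 2), ((4, 6),
    1, 4), ((5, 1), 0, 3), ((5, 6), 0, 4)]
  Tb := [((0, 1, 4), 2, 3, 1), ((1, 0, 2), 3, 2, 1), ((1, 0, 5), 3, 2, 0), ((1, 0, 7), 3, 2, 5),
    ((1, 2, 5), 3, 1, 0), ((1, 2, 7), 3, 1, 5), ((1, 5, 7), 3, 0, 5), ((2, 1, 3), 1, 3, 0),
    ((3, 2, 7), 0, 1, 5), ((4, 0, 6), 1, 2, 4), ((5, 1, 6), 0, 3, 4), ((6, 4, 5), 4, 1, 0),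
    ((7, 1, 3), 5, 3, 0)]
  Tc := []
  Td := []
  G := [[0, 0xa8a8686464a4c, 0xa8286424c, 0, 0xa6c281], [0, 0, 0xe2e2c42, 0xe2e2c41, 0xe2e2c82],
    [0, 0, 0x18241424c, 0, 0xa82814289], [0, 0, 0x1212c42, 0xa4a2c81212c45, 0xb272c82]]

noncomputable def n267 : Ent := ⟨e267, noF, [], [], [(7, 12, [4116502249997426668270420223653940933770597199028225, 0])]⟩

def c267 : PLift (Cov.check n267.C.D v267 = true) := ⟨by decide +kernel⟩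

def b267 : PLift (entF (fidx ts) 400 267 n267 = true) := ⟨by decide +kernel⟩

theorem g267 : GoodF (fidx ts) 400 267 := GoodF.ofV v267 n267 c267.down b267.down

/-- 46654:222/3 -/
noncomputable def e268 : SCfg where
  D := {
    a := 5
    L := 8
    kp := 5
    inn := [(0, 1), (1, 0), (1, 2), (2, 1), (2, 3), (3, 2), (3, 4), (4, 3)]
    mix := [(0, 0), (0, 1), (0, 2), (1, 0), (1, 2), (1, 3), (1, 4), (2, 3), (2, 4), (2, 5), (2, 6), (3,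
      3), (3, 5), (3, 7), (4, 2), (4, 3), (4, 7)]
    cl := [2, 4, 0, 1, 0, 1, 5, 3]
    chq := []
    rng := [(0, 1), (0, 4), (1, 0), (1, 2), (2, 1), (2, 3), (2, 7), (3, 2), (4, 0), (4, 6), (5, 6), (5,
      7), (6, 4), (6, 5), (7, 2), (7, 5)]
    lev := [] }
  links := [[1, 5, 6, 7], [5, 0, 7, 8, 2, 9], [9, 1, 8, 3, 10, 11], [10, 2, 8, 4, 12], [12, 3, 8, 7]]
  P := {
    a := 5
    N := 13
    nb := [226, 933, 3850, 5396, 4488, 579, 161, 4435, 158, 2086, 6156, 1540, 1176]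
    tri := [(0, 1, 5), (0, 1, 7), (0, 5, 6), (0, 6, 7), (1, 2, 8), (1, 2, 9), (1, 5, 9), (1, 7, 8), (2,
      3, 8), (2, 3, 10), (2, 9, 11), (2, 10, 11), (3, 4, 8), (3, 4, 12), (3, 10, 12), (4, 7, 8),
      (4, 7, 12)]
    fin := [0, 1, 1, 3, 1, 0, 6, 1, 3, 1, 3, 11, 12]
    chd := []
    steps := [(0, 5), (1, 2), (1, 7), (1, 9), (3, 8), (1, 4), (3, 10)] }
  rep := [1, 3, 0, 12, 6, 11]

noncomputable def v268 : Cov.CovD where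
  P := 3
  N := 3
  pl := [0, 1, 6, 7]
  lev := [⟨[], [], [], [2, 4], [(2, 0, [])]⟩,
    ⟨[], [(0, 0), (0, 1)], [(0, 0), (0, 1)], [2], [(2, 0, []), (3, 1, []), (4, 0, [])]⟩,
    ⟨[(0, 1)], [(1, 0), (1, 1)], [(0, 1), (1, 1)], [5], [(3, 1, []), (4, 0, []), (5, 1,
      [])]⟩,
    ⟨[(1, 2)], [(1, 1), (2, 0), (2, 1)], [(1, 1)], [3], [(3, 1, []), (5, 1, [])]⟩,
    ⟨[(2, 3)], [(0, 0), (1, 0), (1, 1), (2, 1), (3, 0), (3, 1)], [(0, 1)], [3], [(2, 0,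
      []), (3, 1, [])]⟩]
  Ta := [((2, 1), 0, 4), ((2, 3), 0, 1), ((2, 7), 0, 3), ((3, 2), 1, 0), ((4, 0), 0, 2), ((4, 6),
    0, 5), ((5, 6), 1, 5), ((5, 7), 1, 3)]
  Tb := [((0, 1, 4), 2, 4, 0), ((1, 0, 2), 4, 2, 0), ((2, 1, 3), 0, 4, 1), ((2, 1, 7), 0, 4, 3),
    ((2, 3, 7), 0, 1, 3), ((4, 0, 6), 0, 2, 5), ((5, 6, 7), 1, 5, 3), ((6, 4, 5), 5, 0, 1),
    ((7, 2, 5), 3, 0, 1)]
  Tc := []
  Td := []
  G := [[0, 0x42684aa442a24ca4c, 0, 0x84c1484c14c, 0x84c1884c18a], [0, 0, 0, 0x84c1884c18c,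
    0x84c1284c18a], [0, 0, 0x185c1c4485c1c8a, 0xc1c1c41, 0xc1c1c81], [0, 0, 0x61849c861a1c86,
    0x61a1c41, 0xa161c81]]

noncomputable def n268 : Ent := ⟨e268, noF, [], [], [(6, 12, [4116502249997426668270420223653940933770597199028225, 0])]⟩

def c268 : PLift (Cov.check n268.C.D v268 = true) := ⟨by decide +kernel⟩

def b268 : PLift (entF (fidx ts) 400 268 n268 = true) := ⟨by decide +kernel⟩

theorem g268 : GoodF (fidx ts) 400 268 := GoodF.ofV v268 n268 c268.down b268.down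

/-- 46654:222 -/
noncomputable def e269 : SCfg where
  D := {
    a := 5
    L := 9
    kp := 6
    inn := [(0, 1), (1, 0), (1, 2), (2, 1), (2, 3), (3, 2), (3, 4), (4, 3)]
    mix := [(0, 0), (0, 1), (0, 2), (1, 0), (1, 2), (1, 3), (1, 4), (2, 3), (2, 4), (2, 5), (2, 6), (3,
      3), (3, 5), (3, 7), (4, 3), (4, 7), (4, 8)]
    cl := [2, 4, 1, 0, 1, 0, 5, 3, 6]
    chq := []
    rng := [(0, 1), (0, 4), (1, 0), (1, 2), (2, 1), (2, 3), (3, 2), (3, 8), (4, 0), (4, 6), (5, 6), (5,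
      7), (6, 4), (6, 5), (7, 5), (7, 8), (8, 3), (8, 7)]
    lev := [] }
  links := [[1, 5, 6, 7], [5, 0, 7, 8, 2, 9], [9, 1, 8, 3, 10, 11], [10, 2, 8, 4, 12], [12, 3, 8, 13]]
  P := {
    a := 5
    N := 14
    nb := [226, 933, 3850, 5396, 12552, 579, 161, 323, 8350, 2086, 6156, 1540, 9240, 4368]
    tri := [(0, 1, 5), (0, 1, 7), (0, 5, 6), (0, 6, 7), (1, 2, 8), (1, 2, 9), (1, 5, 9), (1, 7, 8), (2,
      3, 8), (2, 3, 10), (2, 9, 11), (2, 10, 11), (3, 4, 8), (3, 4, 12), (3, 10, 12), (4, 8, 13),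
      (4, 12, 13)]
    fin := [0, 1, 1, 3, 3, 0, 6, 1, 3, 1, 3, 11, 12, 13]
    chd := []
    steps := [(0, 5), (1, 2), (1, 7), (1, 9), (3, 4), (3, 8), (3, 10)] }
  rep := [3, 1, 0, 12, 6, 11, 13]

noncomputable def v269 : Cov.CovD where
  P := 3
  N := 4
  pl := [0, 1, 6, 7, 8]
  lev := [⟨[], [], [], [2, 4], [(2, 1, [])]⟩,
    ⟨[], [(0, 0), (0, 1)], [(0, 1), (1, 1)], [2], [(2, 1, []), (3, 0, []), (4, 1, [])]⟩,
    ⟨[(0, 1)], [(1, 0), (1, 1)], [(0, 0), (0, 1)], [5], [(3, 0, []), (4, 1, []), (5, 0,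
      [])]⟩,
    ⟨[(1, 2)], [(1, 0), (2, 0), (2, 1)], [(0, 0)], [3], [(3, 0, []), (5, 0, [])]⟩,
    ⟨[(2, 3)], [(1, 0), (2, 0), (3, 0)], [], [3, 6], [(3, 0, [])]⟩]
  Ta := [((2, 1), 1, 4), ((2, 3), 1, 0), ((3, 2), 0, 1), ((3, 8), 0, 6), ((4, 0), 1, 2), ((4, 6),
    1, 5), ((5, 6), 0, 5), ((5, 7), 0, 3)]
  Tb := [((0, 1, 4), 2, 4, 1), ((1, 0, 2), 4, 2, 1), ((2, 1, 3), 1, 4, 0), ((3, 2, 8), 0, 1, 6),
    ((4, 0, 6), 1, 2, 5), ((5, 6, 7), 0, 5, 3), ((6, 4, 5), 5, 1, 0), ((7, 5, 8), 3, 0, 6),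
    ((8, 3, 7), 6, 0, 3)]
  Tc := []
  Td := []
  G := [[0, 0xca6c6ac4ca6a6ca4c, 0xa6c28a6c28c, 0, 0xa6c28a6c289], [0, 0, 0xca6c6ac82,
    0xca6c6ac8ca6c6ac45, 0xca6c6ac82], [0, 0, 0xa1c2416c24c, 0, 0xa1c2816c289], [0, 0,
    0x1a616ac42, 0xc16c6ac41a671cc8c, 0x1a6a1cc82]]

noncomputable def n269 : Ent := ⟨e269, noF, [], [], [(6, 12, [19926558533506552585326781773177673327977379185602637825, 0]), (7, 13, [18394062992640663726968434746027364144358640063419039745, 0])]⟩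

def c269 : PLift (Cov.check n269.C.D v269 = true) := ⟨by decide +kernel⟩

def b269 : PLift (entF (fidx ts) 400 269 n269 = true) := ⟨by decide +kernel⟩

theorem g269 : GoodF (fidx ts) 400 269 := GoodF.ofV v269 n269 c269.down b269.down

/-- 46654:223/2 -/
noncomputable def e270 : SCfg where
  D := {
    a := 5
    L := 7
    kp := 4
    inn := [(0, 1), (1, 0), (1, 2), (2, 1), (2, 3), (3, 2), (3, 4), (4, 3)]
    mix := [(0, 0), (0, 1), (0, 2), (1, 0), (1, 2), (1, 3), (1, 4), (2, 3), (2, 4), (2, 5), (2, 6), (3,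
      2), (3, 3), (3, 5), (4, 1), (4, 2), (4, 5)]
    cl := [3, 2, 0, 1, 0, 1, 4]
    chq := []
    rng := [(0, 1), (0, 4), (1, 0), (1, 2), (1, 5), (2, 1), (2, 3), (3, 2), (4, 0), (4, 6), (5, 1), (5,
      6), (6, 4), (6, 5)]
    lev := [] }
  links := [[1, 5, 6, 7], [5, 0, 7, 8, 2, 9], [9, 1, 8, 3, 10, 11], [10, 2, 8, 7, 4], [10, 3, 7, 6]]
  P := {
    a := 5
    N := 12
    nb := [226, 933, 3850, 1428, 1224, 579, 1201, 347, 142, 2086, 2140, 1540]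
    tri := [(0, 1, 5), (0, 1, 7), (0, 5, 6), (0, 6, 7), (1, 2, 8), (1, 2, 9), (1, 5, 9), (1, 7, 8), (2,
      3, 8), (2, 3, 10), (2, 9, 11), (2, 10, 11), (3, 4, 7), (3, 4, 10), (3, 7, 8), (4, 6, 7), (4,
      6, 10)]
    fin := [0, 1, 1, 3, 4, 0, 4, 1, 3, 1, 3, 11]
    chd := []
    steps := [(0, 5), (1, 2), (1, 9), (3, 8), (1, 7), (3, 10), (4, 6)] }
  rep := [1, 3, 4, 0, 11]

noncomputable def v270 : Cov.CovD where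
  P := 3
  N := 2
  pl := [0, 1, 6]
  lev := [⟨[], [], [], [2, 3], [(2, 0, [])]⟩,
    ⟨[], [(0, 0), (0, 1)], [(0, 0), (0, 1)], [3], [(2, 0, []), (3, 1, []), (4, 0, [])]⟩,
    ⟨[(0, 1)], [(1, 0), (1, 1)], [(0, 1), (1, 1)], [4], [(3, 1, []), (4, 0, []), (5, 1,
      [])]⟩,
    ⟨[(1, 2)], [(0, 0), (1, 0), (1, 1), (2, 0), (2, 1)], [(0, 1), (1, 1)], [], [(2, 0, []),
      (3, 1, []), (5, 1, [])]⟩,
    ⟨[(2, 3)], [(0, 0), (1, 0), (2, 1), (3, 0), (3, 1)], [(0, 1)], [2], [(2, 0, []), (5, 1,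
      [])]⟩]
  Ta := [((2, 1), 0, 2), ((2, 3), 0, 1), ((3, 2), 1, 0), ((4, 0), 0, 3), ((4, 6), 0, 4), ((5, 1),
    1, 2), ((5, 6), 1, 4)]
  Tb := [((0, 1, 4), 3, 2, 0), ((1, 0, 2), 2, 3, 0), ((1, 0, 5), 2, 3, 1), ((1, 2, 5), 2, 0, 1),
    ((2, 1, 3), 0, 2, 1), ((4, 0, 6), 0, 3, 4), ((5, 1, 6), 1, 2, 4), ((6, 4, 5), 4, 0, 1)]
  Tc := []
  Td := []
  G := [[0, 0x8848684444a4c, 0x48182414a, 0, 0x84182814a], [0, 0, 0x88184814a, 0x44188412c,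
    0x84188814a], [0, 0, 0, 0, 0x1421c82888c43], [0, 0, 0, 0x4848c44448c29, 0x8114c28488c49]]

noncomputable def n270 : Ent := ⟨e270, noF, [], [], []⟩

def c270 : PLift (Cov.check n270.C.D v270 = true) := ⟨by decide +kernel⟩

def b270 : PLift (entF (fidx ts) 400 270 n270 = true) := ⟨by decide +kernel⟩

theorem g270 : GoodF (fidx ts) 400 270 := GoodF.ofV v270 n270 c270.down b270.down

/-- 46654:223/1 -/
noncomputable def e271 : SCfg where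
  D := {
    a := 5
    L := 8
    kp := 5
    inn := [(0, 1), (1, 0), (1, 2), (2, 1), (2, 3), (3, 2), (3, 4), (4, 3)]
    mix := [(0, 0), (0, 1), (0, 2), (1, 0), (1, 2), (1, 3), (1, 4), (2, 3), (2, 4), (2, 5), (2, 6), (3,
      3), (3, 5), (3, 7), (4, 1), (4, 5), (4, 7)]
    cl := [2, 3, 1, 0, 1, 0, 5, 4]
    chq := []
    rng := [(0, 1), (0, 4), (1, 0), (1, 2), (1, 5), (1, 7), (2, 1), (2, 3), (3, 2), (3, 7), (4, 0), (4,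
      6), (5, 1), (5, 6), (6, 4), (6, 5), (7, 1), (7, 3)]
    lev := [] }
  links := [[1, 5, 6, 7], [5, 0, 7, 8, 2, 9], [9, 1, 8, 3, 10, 11], [10, 2, 8, 12, 4], [10, 3, 12, 6]]
  P := {
    a := 5
    N := 13
    nb := [226, 933, 3850, 5396, 5192, 579, 5297, 323, 4238, 2086, 2140, 1540, 344]
    tri := [(0, 1, 5), (0, 1, 7), (0, 5, 6), (0, 6, 7), (1, 2, 8), (1, 2, 9), (1, 5, 9), (1, 7, 8), (2,
      3, 8), (2, 3, 10), (2, 9, 11), (2, 10, 11), (3, 4, 10), (3, 4, 12), (3, 8, 12), (4, 6, 10),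
      (4, 6, 12)]
    fin := [0, 1, 1, 3, 4, 0, 4, 1, 3, 1, 3, 11, 12]
    chd := []
    steps := [(0, 5), (1, 2), (1, 7), (1, 9), (3, 8), (3, 10), (4, 6)] }
  rep := [3, 1, 0, 4, 12, 11]

noncomputable def v271 : Cov.CovD where
  P := 3
  N := 3
  pl := [0, 1, 6, 7]
  lev := [⟨[], [], [], [2, 3], [(2, 1, [])]⟩,
    ⟨[], [(0, 0), (0, 1)], [(0, 1), (1, 1)], [2], [(2, 1, []), (3, 0, []), (4, 1, [])]⟩,
    ⟨[(0, 1)], [(1, 0), (1, 1)], [(0, 0), (0, 1)], [5], [(3, 0, []), (4, 1, []), (5, 0,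
      [])]⟩,
    ⟨[(1, 2)], [(1, 0), (2, 0), (2, 1)], [(0, 0)], [4], [(3, 0, []), (5, 0, [])]⟩,
    ⟨[(2, 3)], [(2, 0), (3, 0)], [], [3, 4], [(5, 0, [])]⟩]
  Ta := [((2, 1), 1, 3), ((2, 3), 1, 0), ((3, 2), 0, 1), ((3, 7), 0, 4), ((4, 0), 1, 2), ((4, 6),
    1, 5), ((5, 1), 0, 3), ((5, 6), 0, 5)]
  Tb := [((0, 1, 4), 2, 3, 1), ((1, 0, 2), 3, 2, 1), ((1, 0, 5), 3, 2, 0), ((1, 0, 7), 3, 2, 4),
    ((1, 2, 5), 3, 1, 0), ((1, 2, 7), 3, 1, 4), ((1, 5, 7), 3, 0, 4), ((2, 1, 3), 1, 3, 0),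
    ((3, 2, 7), 0, 1, 4), ((4, 0, 6), 1, 2, 5), ((5, 1, 6), 0, 3, 5), ((6, 4, 5), 5, 1, 0),
    ((7, 1, 3), 4, 3, 0)]
  Tc := []
  Td := []
  G := [[0, 0x82a11a6411a41aa4c, 0x82c2824c28c, 0, 0xa1c281], [0, 0, 0x12612ac82, 0x12612ac81,
    0x12612ac82], [0, 0, 0x82c2424c24c, 0, 0x84c2126c289], [0, 0, 0xc26c2ac82,
    0x82684ac442a42ac49, 0xc26c2ac12]]

noncomputable def n271 : Ent := ⟨e271, noF, [], [], [(7, 12, [4116502249997426668270420223653940933770597199044609, 0])]⟩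

def c271 : PLift (Cov.check n271.C.D v271 = true) := ⟨by decide +kernel⟩

def b271 : PLift (entF (fidx ts) 400 271 n271 = true) := ⟨by decide +kernel⟩

theorem g271 : GoodF (fidx ts) 400 271 := GoodF.ofV v271 n271 c271.down b271.down

/-- 46654:223/3 -/
noncomputable def e272 : SCfg where
  D := {
    a := 5
    L := 8
    kp := 5
    inn := [(0, 1), (1, 0), (1, 2), (2, 1), (2, 3), (3, 2), (3, 4), (4, 3)]
    mix := [(0, 0), (0, 1), (0, 2), (1, 0), (1, 2), (1, 3), (1, 4), (2, 3), (2, 4), (2, 5), (2, 6), (3,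
      2), (3, 3), (3, 5), (4, 2), (4, 5), (4, 7)]
    cl := [2, 3, 0, 1, 0, 1, 4, 5]
    chq := []
    rng := [(0, 1), (0, 4), (1, 0), (1, 2), (2, 1), (2, 3), (2, 7), (3, 2), (4, 0), (4, 6), (5, 6), (5,
      7), (6, 4), (6, 5), (7, 2), (7, 5)]
    lev := [] }
  links := [[1, 5, 6, 7], [5, 0, 7, 8, 2, 9], [9, 1, 8, 3, 10, 11], [10, 2, 8, 7, 4], [10, 3, 7, 12]]
  P := {
    a := 5
    N := 13
    nb := [226, 933, 3850, 1428, 5256, 579, 161, 4443, 142, 2086, 6172, 1540, 1168]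
    tri := [(0, 1, 5), (0, 1, 7), (0, 5, 6), (0, 6, 7), (1, 2, 8), (1, 2, 9), (1, 5, 9), (1, 7, 8), (2,
      3, 8), (2, 3, 10), (2, 9, 11), (2, 10, 11), (3, 4, 7), (3, 4, 10), (3, 7, 8), (4, 7, 12),
      (4, 10, 12)]
    fin := [0, 1, 1, 3, 1, 0, 6, 1, 3, 1, 3, 11, 12]
    chd := []
    steps := [(0, 5), (1, 2), (1, 9), (3, 8), (1, 7), (3, 10), (1, 4)] }
  rep := [1, 3, 0, 6, 11, 12]

noncomputable def v272 : Cov.CovD where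
  P := 3
  N := 3
  pl := [0, 1, 6, 7]
  lev := [⟨[], [], [], [2, 3], [(2, 0, [])]⟩,
    ⟨[], [(0, 0), (0, 1)], [(0, 0), (0, 1)], [2], [(2, 0, []), (3, 1, []), (4, 0, [])]⟩,
    ⟨[(0, 1)], [(1, 0), (1, 1)], [(0, 1), (1, 1)], [4], [(3, 1, []), (4, 0, []), (5, 1,
      [])]⟩,
    ⟨[(1, 2)], [(0, 0), (1, 0), (1, 1), (2, 0), (2, 1)], [(0, 1), (1, 1)], [], [(2, 0, []),
      (3, 1, []), (5, 1, [])]⟩,
    ⟨[(2, 3)], [(0, 0), (1, 0), (2, 1), (3, 0), (3, 1)], [(0, 1)], [5], [(2, 0, []), (5, 1,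
      [])]⟩]
  Ta := [((2, 1), 0, 3), ((2, 3), 0, 1), ((2, 7), 0, 5), ((3, 2), 1, 0), ((4, 0), 0, 2), ((4, 6),
    0, 4), ((5, 6), 1, 4), ((5, 7), 1, 5)]
  Tb := [((0, 1, 4), 2, 3, 0), ((1, 0, 2), 3, 2, 0), ((2, 1, 3), 0, 3, 1), ((2, 1, 7), 0, 3, 5),
    ((2, 3, 7), 0, 1, 5), ((4, 0, 6), 0, 2, 4), ((5, 6, 7), 1, 4, 5), ((6, 4, 5), 4, 0, 1),
    ((7, 2, 5), 5, 0, 1)]
  Tc := []
  Td := []
  G := [[0, 0xc4a8c462c4a4c, 0, 0x24182414c, 0x24182818a], [0, 0, 0, 0xc814c818c, 0xc418c818a],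
    [0, 0, 0x2121c42114c8c, 0x2428c41, 0x2428c81], [0, 0, 0x1418c81418c86, 0x1418c41418c8c,
    0x1414c21418c8a]]

noncomputable def n272 : Ent := ⟨e272, noF, [], [], [(6, 12, [4116502249997426668270420223653940933770597199044609, 0])]⟩

def c272 : PLift (Cov.check n272.C.D v272 = true) := ⟨by decide +kernel⟩

def b272 : PLift (entF (fidx ts) 400 272 n272 = true) := ⟨by decide +kernel⟩

theorem g272 : GoodF (fidx ts) 400 272 := GoodF.ofV v272 n272 c272.down b272.down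

/-- 46654:223 -/
noncomputable def e273 : SCfg where
  D := {
    a := 5
    L := 9
    kp := 6
    inn := [(0, 1), (1, 0), (1, 2), (2, 1), (2, 3), (3, 2), (3, 4), (4, 3)]
    mix := [(0, 0), (0, 1), (0, 2), (1, 0), (1, 2), (1, 3), (1, 4), (2, 3), (2, 4), (2, 5), (2, 6), (3,
      3), (3, 5), (3, 7), (4, 5), (4, 7), (4, 8)]
    cl := [2, 4, 1, 0, 1, 0, 5, 3, 6]
    chq := []
    rng := [(0, 1), (0, 4), (1, 0), (1, 2), (2, 1), (2, 3), (3, 2), (3, 7), (4, 0), (4, 6), (5, 6), (5,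
      8), (6, 4), (6, 5), (7, 3), (7, 8), (8, 5), (8, 7)]
    lev := [] }
  links := [[1, 5, 6, 7], [5, 0, 7, 8, 2, 9], [9, 1, 8, 3, 10, 11], [10, 2, 8, 12, 4], [10, 3, 12, 13]]
  P := {
    a := 5
    N := 14
    nb := [226, 933, 3850, 5396, 13320, 579, 161, 323, 4238, 2086, 10268, 1540, 8472, 5136]
    tri := [(0, 1, 5), (0, 1, 7), (0, 5, 6), (0, 6, 7), (1, 2, 8), (1, 2, 9), (1, 5, 9), (1, 7, 8), (2,
      3, 8), (2, 3, 10), (2, 9, 11), (2, 10, 11), (3, 4, 10), (3, 4, 12), (3, 8, 12), (4, 10, 13),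
      (4, 12, 13)]
    fin := [0, 1, 1, 3, 3, 0, 6, 1, 3, 1, 3, 11, 12, 13]
    chd := []
    steps := [(0, 5), (1, 2), (1, 7), (1, 9), (3, 4), (3, 8), (3, 10)] }
  rep := [3, 1, 0, 12, 6, 11, 13]

noncomputable def v273 : Cov.CovD where
  P := 3
  N := 4
  pl := [0, 1, 6, 7, 8]
  lev := [⟨[], [], [], [2, 4], [(2, 1, [])]⟩,
    ⟨[], [(0, 0), (0, 1)], [(0, 1), (1, 1)], [2], [(2, 1, []), (3, 0, []), (4, 1, [])]⟩,
    ⟨[(0, 1)], [(1, 0), (1, 1)], [(0, 0), (0, 1)], [5], [(3, 0, []), (4, 1, []), (5, 0,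
      [])]⟩,
    ⟨[(1, 2)], [(1, 0), (2, 0), (2, 1)], [(0, 0)], [3], [(3, 0, []), (5, 0, [])]⟩,
    ⟨[(2, 3)], [(2, 0), (3, 0)], [], [3, 6], [(5, 0, [])]⟩]
  Ta := [((2, 1), 1, 4), ((2, 3), 1, 0), ((3, 2), 0, 1), ((3, 7), 0, 3), ((4, 0), 1, 2), ((4, 6),
    1, 5), ((5, 6), 0, 5), ((5, 8), 0, 6)]
  Tb := [((0, 1, 4), 2, 4, 1), ((1, 0, 2), 4, 2, 1), ((2, 1, 3), 1, 4, 0), ((3, 2, 7), 0, 1, 3),
    ((4, 0, 6), 1, 2, 5), ((5, 6, 8), 0, 5, 6), ((6, 4, 5), 5, 1, 0), ((7, 3, 8), 3, 0, 6),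
    ((8, 5, 7), 6, 0, 3)]
  Tc := []
  Td := []
  G := [[0, 0x181214e4141218e8c, 0x16c2893c28c, 0, 0xa1c2816c289], [0, 0, 0x16a39ac42,
    0x16c16ac4176396c8c, 0x1a6a1cc82], [0, 0, 0xa6c24a6c24c, 0, 0xa6c21a6c289], [0, 0,
    0xca6c6ac42, 0xca6c6ac4ca6c6ac89, 0xca6c6ac82]]

noncomputable def n273 : Ent := ⟨e273, noF, [], [], [(6, 13, [18394062992640663726968434746027364144358640063419052033, 0]), (7, 12, [19926558533506552585326781773177673327977379185602658305, 0])]⟩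

def c273 : PLift (Cov.check n273.C.D v273 = true) := ⟨by decide +kernel⟩

def b273 : PLift (entF (fidx ts) 400 273 n273 = true) := ⟨by decide +kernel⟩

theorem g273 : GoodF (fidx ts) 400 273 := GoodF.ofV v273 n273 c273.down b273.down

/-- 46764:228 -/
noncomputable def e274 : SCfg where
  D := {
    a := 5
    L := 10
    kp := 8
    inn := [(0, 1), (1, 0), (1, 2), (2, 1), (2, 3), (2, 4), (3, 2), (3, 4), (4, 2), (4, 3)]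
    mix := [(0, 0), (0, 1), (0, 2), (1, 0), (1, 2), (1, 3), (1, 4), (2, 3), (2, 4), (2, 5), (2, 6), (3,
      3), (3, 7), (3, 8), (3, 9), (4, 5), (4, 9)]
    cl := [1, 6, 2, 0, 0, 4, 5, 7, 8, 3]
    chq := [(0, 6), (3, 5), (5, 3), (5, 7), (5, 8), (6, 0), (7, 5), (8, 5)]
    rng := [(0, 1), (0, 4), (1, 0), (1, 2), (2, 1), (2, 3), (3, 2), (3, 7), (4, 0), (4, 6), (5, 6), (5,
      9), (6, 4), (6, 5), (7, 3), (7, 8), (8, 7), (8, 9), (9, 5), (9, 8)]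
    lev := [] }
  links := [[1, 5, 6, 7], [5, 0, 7, 8, 2, 9], [9, 1, 8, 3, 4, 10, 11], [4, 2, 8, 12, 13, 14], [10, 2, 3,
    14]]
  P := {
    a := 5
    N := 15
    nb := [226, 933, 3866, 28948, 17420, 579, 161, 323, 4238, 2086, 18452, 1540, 8456, 20488, 9240]
    tri := [(0, 1, 5), (0, 1, 7), (0, 5, 6), (0, 6, 7), (1, 2, 8), (1, 2, 9), (1, 5, 9), (1, 7, 8), (2,
      3, 4), (2, 3, 8), (2, 4, 10), (2, 9, 11), (2, 10, 11), (3, 4, 14), (3, 8, 12), (3, 12, 13),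
      (3, 13, 14), (4, 10, 14)]
    fin := [0, 1, 2, 2, 4, 5, 0, 7, 1, 1, 10, 2, 12, 13, 4]
    chd := [(0, 1), (2, 4), (2, 12), (2, 13)]
    steps := [(0, 6), (1, 8), (1, 9), (2, 3), (2, 11), (4, 14)] }
  rep := [1, 5, 7, 4, 10, 2, 0, 12, 13]

noncomputable def v274 : Cov.CovD where
  P := 3
  N := 6
  pl := [0, 2, 5]
  lev := [⟨[], [], [], [1, 2], [(1, 6, [0])]⟩,
    ⟨[], [(0, 0), (0, 6)], [(0, 0)], [1, 2], [(3, 0, [6]), (4, 0, [6])]⟩,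
    ⟨[(0, 1)], [(1, 0), (1, 5)], [(0, 0), (0, 5)], [4], [(3, 0, [6]), (4, 0, [6]), (6, 5,
      [3, 7, 8])]⟩,
    ⟨[(1, 2)], [(1, 0), (2, 0), (2, 3), (2, 5), (2, 7), (2, 8)], [(0, 3), (0, 7), (0, 8),
      (3, 7), (3, 8), (7, 8)], [], [(3, 0, [6]), (7, 7, [5]), (8, 8, [5]), (9, 3, [5])]⟩,
    ⟨[(1, 2), (2, 3)], [(2, 0), (2, 3), (2, 5), (3, 0), (3, 3), (3, 7), (3, 8)], [], [4],
      [(9, 3, [5])]⟩]
  Ta := [((3, 2), 0, 2), ((3, 7), 0, 7), ((4, 0), 0, 1), ((4, 6), 0, 5)]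
  Tb := [((0, 1, 4), 1, 6, 0), ((1, 0, 2), 6, 1, 2), ((2, 1, 3), 2, 6, 0), ((3, 2, 7), 0, 2, 7),
    ((4, 0, 6), 0, 1, 5), ((5, 6, 9), 4, 5, 3), ((6, 4, 5), 5, 0, 4), ((7, 3, 8), 7, 0, 8),
    ((8, 7, 9), 8, 7, 3), ((9, 5, 8), 3, 4, 8)]
  Tc := [(5, 3, 7), (5, 3, 8), (5, 7, 8)]
  Td := [((0, 6), (3, 2), 2), ((0, 6), (3, 7), 7), ((0, 6), (4, 0), 1), ((0, 6), (4, 6), 5), ((3,
    5), (9, 5), 4), ((3, 5), (9, 8), 8), ((5, 3), (6, 4), 0), ((5, 3), (6, 5), 4), ((5, 7),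
    (6, 4), 0), ((5, 7), (6, 5), 4), ((5, 8), (6, 4), 0), ((5, 8), (6, 5), 4), ((6, 0), (1,
    0), 1), ((6, 0), (1, 2), 2), ((7, 5), (7, 3), 0), ((7, 5), (7, 8), 8), ((8, 5), (8, 7),
    7), ((8, 5), (8, 9), 3)]
  G := [[0, 0, 0x55a33c69968c55a499633cacc, 0x536ddabbce81, 0x536ddabbce81], [0,
    0xc9479ba77ce4536ddabbce8c, 0, 0x536cdcbabade81, 0x576c5cbabade81]]

noncomputable def n274 : Ent := ⟨e274, noF, [], [], []⟩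

def c274 : PLift (Cov.check n274.C.D v274 = true) := ⟨by decide +kernel⟩

def b274 : PLift (entF (fidx ts) 400 274 n274 = true) := ⟨by decide +kernel⟩

theorem g274 : GoodF (fidx ts) 400 274 := GoodF.ofV v274 n274 c274.down b274.down

/-- 46754:233/1 -/
noncomputable def e275 : SCfg where
  D := {
    a := 5
    L := 9
    kp := 6
    inn := [(0, 1), (1, 0), (1, 2), (2, 1), (2, 3), (3, 2), (3, 4), (4, 3)]
    mix := [(0, 0), (0, 1), (0, 2), (1, 0), (1, 2), (1, 3), (1, 4), (2, 3), (2, 4), (2, 5), (2, 6), (2,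
      7), (3, 5), (3, 6), (3, 8), (4, 1), (4, 5), (4, 8)]
    cl := [1, 4, 2, 0, 0, 3, 3, 6, 5]
    chq := [(0, 4), (4, 0)]
    rng := [(0, 1), (0, 4), (1, 0), (1, 2), (1, 5), (1, 8), (2, 1), (2, 3), (3, 2), (3, 5), (4, 0), (4,
      7), (5, 1), (5, 3), (6, 7), (6, 8), (7, 4), (7, 6), (8, 1), (8, 6)]
    lev := [] }
  links := [[1, 5, 6, 7], [5, 0, 7, 8, 2, 9], [9, 1, 8, 10, 3, 11, 12], [11, 2, 10, 4, 13], [13, 3, 10,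
    6]]
  P := {
    a := 5
    N := 14
    nb := [226, 933, 7946, 11284, 9288, 579, 9393, 323, 1158, 4134, 348, 12300, 2564, 2136]
    tri := [(0, 1, 5), (0, 1, 7), (0, 5, 6), (0, 6, 7), (1, 2, 8), (1, 2, 9), (1, 5, 9), (1, 7, 8), (2,
      3, 10), (2, 3, 11), (2, 8, 10), (2, 9, 12), (2, 11, 12), (3, 4, 10), (3, 4, 13), (3, 11,
      13), (4, 6, 10), (4, 6, 13)]
    fin := [0, 0, 2, 3, 0, 5, 0, 7, 2, 2, 3, 3, 12, 13]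
    chd := [(0, 2)]
    steps := [(0, 1), (0, 6), (0, 4), (2, 8), (2, 9), (3, 10), (3, 11)] }
  rep := [2, 5, 7, 3, 0, 13, 12]

noncomputable def v275 : Cov.CovD where
  P := 3
  N := 4
  pl := [0, 2, 7, 8]
  lev := [⟨[], [], [], [1, 2], [(1, 4, [0])]⟩,
    ⟨[], [(0, 0), (0, 4)], [(0, 0)], [1, 2], [(3, 0, [4]), (4, 0, [4])]⟩,
    ⟨[(0, 1)], [(1, 0), (1, 3)], [(0, 0), (0, 3), (3, 3)], [6], [(3, 0, [4]), (4, 0, [4]),
      (5, 3, []), (6, 3, [])]⟩,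
    ⟨[(1, 2)], [(2, 0), (2, 3)], [(3, 3)], [5], [(5, 3, []), (6, 3, [])]⟩,
    ⟨[(2, 3)], [(0, 4), (2, 3), (3, 3), (3, 4)], [(3, 4)], [5], [(1, 4, [0]), (5, 3, [])]⟩]
  Ta := [((3, 2), 0, 2), ((3, 5), 0, 3), ((4, 0), 0, 1), ((4, 7), 0, 6), ((5, 1), 3, 4), ((5, 3),
    3, 0), ((6, 7), 3, 6), ((6, 8), 3, 5)]
  Tb := [((0, 1, 4), 1, 4, 0), ((1, 0, 2), 4, 1, 2), ((1, 0, 5), 4, 1, 3), ((1, 0, 8), 4, 1, 5),
    ((1, 2, 5), 4, 2, 3), ((1, 2, 8), 4, 2, 5), ((1, 5, 8), 4, 3, 5), ((2, 1, 3), 2, 4, 0),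
    ((3, 2, 5), 0, 2, 3), ((4, 0, 7), 0, 1, 6), ((5, 1, 3), 3, 4, 0), ((6, 7, 8), 3, 6, 5),
    ((7, 4, 6), 6, 0, 3), ((8, 1, 6), 5, 4, 3)]
  Tc := []
  Td := [((0, 4), (3, 2), 2), ((0, 4), (3, 5), 3), ((0, 4), (4, 0), 1), ((0, 4), (4, 7), 6), ((4,
    0), (1, 0), 1), ((4, 0), (1, 2), 2), ((4, 0), (1, 5), 3), ((4, 0), (1, 8), 5)]
  G := [[0, 0, 0x8817861b821de44217421b241be8c, 0xc297c25ba63de81, 0xca97c65ba63de81], [0, 0,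
    0x8154219815ac21554364198cc, 0x3467295dc3e81, 0x2497ba5c53e81], [0,
    0x281d821b821de44a17441b241be8c, 0, 0xc297c25ba63de41, 0xca97c65ba63de81], [0,
    0x219281b816e421941366498cc, 0, 0x295425942adac1, 0x2477a35c53e81]]

noncomputable def n275 : Ent := ⟨e275, noF, [], [], []⟩

def c275 : PLift (Cov.check n275.C.D v275 = true) := ⟨by decide +kernel⟩

def b275 : PLift (entF (fidx ts) 400 275 n275 = true) := ⟨by decide +kernel⟩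

theorem g275 : GoodF (fidx ts) 400 275 := GoodF.ofV v275 n275 c275.down b275.down

/-- 46754:233/3 -/
noncomputable def e276 : SCfg where
  D := {
    a := 5
    L := 8
    kp := 5
    inn := [(0, 1), (1, 0), (1, 2), (2, 1), (2, 3), (3, 2), (3, 4), (4, 3)]
    mix := [(0, 0), (0, 1), (0, 2), (1, 0), (1, 2), (1, 3), (1, 4), (2, 3), (2, 4), (2, 5), (2, 6), (2,
      7), (3, 1), (3, 5), (3, 6), (4, 1), (4, 2), (4, 5)]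
    cl := [2, 4, 0, 1, 1, 3, 3, 5]
    chq := [(1, 4), (4, 1)]
    rng := [(0, 1), (0, 4), (1, 0), (1, 2), (1, 6), (2, 1), (2, 3), (2, 5), (3, 2), (3, 5), (4, 0), (4,
      7), (5, 2), (5, 3), (6, 1), (6, 7), (7, 4), (7, 6)]
    lev := [] }
  links := [[1, 5, 6, 7], [5, 0, 7, 8, 2, 9], [9, 1, 8, 10, 3, 11, 12], [11, 2, 10, 4, 6], [6, 3, 10, 7]]
  P := {
    a := 5
    N := 13
    nb := [226, 933, 7946, 3156, 1224, 579, 2233, 1363, 1158, 4134, 412, 4172, 2564]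
    tri := [(0, 1, 5), (0, 1, 7), (0, 5, 6), (0, 6, 7), (1, 2, 8), (1, 2, 9), (1, 5, 9), (1, 7, 8), (2,
      3, 10), (2, 3, 11), (2, 8, 10), (2, 9, 12), (2, 11, 12), (3, 4, 6), (3, 4, 10), (3, 6, 11),
      (4, 6, 7), (4, 7, 10)]
    fin := [0, 0, 2, 3, 0, 5, 0, 7, 2, 2, 3, 3, 12]
    chd := [(0, 2)]
    steps := [(0, 1), (0, 6), (0, 4), (2, 8), (2, 9), (3, 10), (3, 11)] }
  rep := [7, 2, 5, 3, 0, 12]

noncomputable def v276 : Cov.CovD where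
  P := 3
  N := 3
  pl := [0, 2, 7]
  lev := [⟨[], [], [], [0, 2], [(1, 4, [1])]⟩,
    ⟨[], [(0, 1), (0, 4)], [(1, 1)], [0, 2], [(3, 1, [4]), (4, 1, [4])]⟩,
    ⟨[(0, 1)], [(1, 1), (1, 3)], [(1, 1), (1, 3), (3, 3)], [5], [(3, 1, [4]), (4, 1, [4]),
      (5, 3, []), (6, 3, [])]⟩,
    ⟨[(1, 2)], [(0, 4), (2, 1), (2, 3), (2, 4)], [(3, 3), (3, 4)], [], [(1, 4, [1]), (5, 3,
      []), (6, 3, [])]⟩,
    ⟨[(2, 3)], [(0, 4), (2, 3), (3, 3), (3, 4)], [(3, 4)], [0], [(1, 4, [1]), (5, 3, [])]⟩]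
  Ta := [((3, 2), 1, 0), ((3, 5), 1, 3), ((4, 0), 1, 2), ((4, 7), 1, 5), ((5, 2), 3, 0), ((5, 3),
    3, 1), ((6, 1), 3, 4), ((6, 7), 3, 5)]
  Tb := [((0, 1, 4), 2, 4, 1), ((1, 0, 2), 4, 2, 0), ((1, 0, 6), 4, 2, 3), ((1, 2, 6), 4, 0, 3),
    ((2, 1, 3), 0, 4, 1), ((2, 1, 5), 0, 4, 3), ((2, 3, 5), 0, 1, 3), ((3, 2, 5), 1, 0, 3),
    ((4, 0, 7), 1, 2, 5), ((5, 2, 3), 3, 0, 1), ((6, 1, 7), 3, 4, 5), ((7, 4, 6), 5, 1, 3)]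
  Tc := []
  Td := [((1, 4), (3, 2), 0), ((1, 4), (3, 5), 3), ((1, 4), (4, 0), 2), ((1, 4), (4, 7), 5), ((4,
    1), (1, 0), 2), ((4, 1), (1, 2), 0), ((4, 1), (1, 6), 3)]
  G := [[0, 0x8182ae1e4614121e8c, 0x4287824be1d42, 0, 0x4287824b4287d82], [0,
    0x818181e4214142e8c, 0xc1c161d42, 0, 0x443825283d82], [0, 0, 0x822221d4224221d8c,
    0x282222d4222422d8c, 0x8287824b2c3d82], [0, 0, 0xc161243d82, 0x812222d4222222d8c,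
    0x243826283d82]]

noncomputable def n276 : Ent := ⟨e276, noF, [], [], []⟩

def c276 : PLift (Cov.check n276.C.D v276 = true) := ⟨by decide +kernel⟩

def b276 : PLift (entF (fidx ts) 400 276 n276 = true) := ⟨by decide +kernel⟩

theorem g276 : GoodF (fidx ts) 400 276 := GoodF.ofV v276 n276 c276.down b276.down

/-- 46754:233/2 -/
noncomputable def e277 : SCfg where
  D := {
    a := 5
    L := 9
    kp := 6
    inn := [(0, 1), (1, 0), (1, 2), (2, 1), (2, 3), (3, 2), (3, 4), (4, 3)]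
    mix := [(0, 0), (0, 1), (0, 2), (1, 0), (1, 2), (1, 3), (1, 4), (2, 3), (2, 4), (2, 5), (2, 6), (2,
      7), (3, 1), (3, 5), (3, 6), (4, 1), (4, 5), (4, 8)]
    cl := [1, 4, 2, 0, 0, 3, 3, 5, 6]
    chq := [(0, 4), (4, 0)]
    rng := [(0, 1), (0, 4), (1, 0), (1, 2), (1, 6), (1, 8), (2, 1), (2, 3), (3, 2), (3, 5), (4, 0), (4,
      7), (5, 3), (5, 8), (6, 1), (6, 7), (7, 4), (7, 6), (8, 1), (8, 5)]
    lev := [] }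
  links := [[1, 5, 6, 7], [5, 0, 7, 8, 2, 9], [9, 1, 8, 10, 3, 11, 12], [11, 2, 10, 4, 6], [6, 3, 10,
    13]]
  P := {
    a := 5
    N := 14
    nb := [226, 933, 7946, 3156, 9288, 579, 10425, 323, 1158, 4134, 8476, 4172, 2564, 1104]
    tri := [(0, 1, 5), (0, 1, 7), (0, 5, 6), (0, 6, 7), (1, 2, 8), (1, 2, 9), (1, 5, 9), (1, 7, 8), (2,
      3, 10), (2, 3, 11), (2, 8, 10), (2, 9, 12), (2, 11, 12), (3, 4, 6), (3, 4, 10), (3, 6, 11),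
      (4, 6, 13), (4, 10, 13)]
    fin := [0, 0, 2, 3, 0, 5, 0, 7, 2, 2, 3, 3, 12, 13]
    chd := [(0, 2)]
    steps := [(0, 1), (0, 6), (0, 4), (2, 8), (2, 9), (3, 10), (3, 11)] }
  rep := [2, 5, 7, 3, 0, 12, 13]

noncomputable def v277 : Cov.CovD where
  P := 3
  N := 4
  pl := [0, 2, 7, 8]
  lev := [⟨[], [], [], [1, 2], [(1, 4, [0])]⟩,
    ⟨[], [(0, 0), (0, 4)], [(0, 0)], [1, 2], [(3, 0, [4]), (4, 0, [4])]⟩,
    ⟨[(0, 1)], [(1, 0), (1, 3)], [(0, 0), (0, 3), (3, 3)], [5], [(3, 0, [4]), (4, 0, [4]),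
      (5, 3, []), (6, 3, [])]⟩,
    ⟨[(1, 2)], [(0, 4), (2, 0), (2, 3), (2, 4)], [(3, 3), (3, 4)], [], [(1, 4, [0]), (5, 3,
      []), (6, 3, [])]⟩,
    ⟨[(2, 3)], [(0, 4), (2, 3), (3, 3), (3, 4)], [(3, 4)], [6], [(1, 4, [0]), (5, 3, [])]⟩]
  Ta := [((3, 2), 0, 2), ((3, 5), 0, 3), ((4, 0), 0, 1), ((4, 7), 0, 5), ((5, 3), 3, 0), ((5, 8),
    3, 6), ((6, 1), 3, 4), ((6, 7), 3, 5)]
  Tb := [((0, 1, 4), 1, 4, 0), ((1, 0, 2), 4, 1, 2), ((1, 0, 6), 4, 1, 3), ((1, 0, 8), 4, 1, 6),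
    ((1, 2, 6), 4, 2, 3), ((1, 2, 8), 4, 2, 6), ((1, 6, 8), 4, 3, 6), ((2, 1, 3), 2, 4, 0),
    ((3, 2, 5), 0, 2, 3), ((4, 0, 7), 0, 1, 5), ((5, 3, 8), 3, 0, 6), ((6, 1, 7), 3, 4, 5),
    ((7, 4, 6), 5, 0, 3), ((8, 1, 5), 6, 4, 3)]
  Tc := []
  Td := [((0, 4), (3, 2), 2), ((0, 4), (3, 5), 3), ((0, 4), (4, 0), 1), ((0, 4), (4, 7), 5), ((4,
    0), (1, 0), 1), ((4, 0), (1, 2), 2), ((4, 0), (1, 6), 3), ((4, 0), (1, 8), 6)]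
  G := [[0, 0, 0x91b131e471511e3e8c, 0x1224ca97c65b31e85, 0xca97c65ba63de81], [0, 0,
    0x31a191e4613451e8c, 0x24a7a35d2e81, 0x2467a35c53e81], [0, 0x91b131e471145f1e8c, 0,
    0x5161412e8b1f131e45, 0xca97c65ba63de81], [0, 0x38a191e4613151e8c, 0, 0x639283bc13e41,
    0x2467a35c53e81]]

noncomputable def n277 : Ent := ⟨e277, noF, [], [], [(7, 13, [18394062992640663726968434746027364144358640063419072513, 0])]⟩

def c277 : PLift (Cov.check n277.C.D v277 = true) := ⟨by decide +kernel⟩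

def b277 : PLift (entF (fidx ts) 400 277 n277 = true) := ⟨by decide +kernel⟩

theorem g277 : GoodF (fidx ts) 400 277 := GoodF.ofV v277 n277 c277.down b277.down

/-- 46754:233/4 -/
noncomputable def e278 : SCfg where
  D := {
    a := 5
    L := 9
    kp := 6
    inn := [(0, 1), (1, 0), (1, 2), (2, 1), (2, 3), (3, 2), (3, 4), (4, 3)]
    mix := [(0, 0), (0, 1), (0, 2), (1, 0), (1, 2), (1, 3), (1, 4), (2, 3), (2, 4), (2, 5), (2, 6), (2,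
      7), (3, 5), (3, 6), (3, 8), (4, 2), (4, 5), (4, 8)]
    cl := [2, 5, 0, 1, 1, 3, 3, 6, 4]
    chq := [(1, 5), (5, 1)]
    rng := [(0, 1), (0, 4), (1, 0), (1, 2), (2, 1), (2, 3), (2, 5), (2, 8), (3, 2), (3, 5), (4, 0), (4,
      7), (5, 2), (5, 3), (6, 7), (6, 8), (7, 4), (7, 6), (8, 2), (8, 6)]
    lev := [] }
  links := [[1, 5, 6, 7], [5, 0, 7, 8, 2, 9], [9, 1, 8, 10, 3, 11, 12], [11, 2, 10, 4, 13], [13, 3, 10,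
    7]]
  P := {
    a := 5
    N := 14
    nb := [226, 933, 7946, 11284, 9352, 579, 161, 9555, 1158, 4134, 412, 12300, 2564, 2200]
    tri := [(0, 1, 5), (0, 1, 7), (0, 5, 6), (0, 6, 7), (1, 2, 8), (1, 2, 9), (1, 5, 9), (1, 7, 8), (2,
      3, 10), (2, 3, 11), (2, 8, 10), (2, 9, 12), (2, 11, 12), (3, 4, 10), (3, 4, 13), (3, 11,
      13), (4, 7, 10), (4, 7, 13)]
    fin := [0, 0, 2, 3, 4, 5, 0, 4, 2, 2, 3, 3, 12, 13]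
    chd := [(0, 2)]
    steps := [(0, 1), (0, 6), (2, 8), (2, 9), (3, 10), (3, 11), (4, 7)] }
  rep := [4, 2, 5, 3, 13, 0, 12]

noncomputable def v278 : Cov.CovD where
  P := 3
  N := 4
  pl := [0, 2, 7, 8]
  lev := [⟨[], [], [], [0, 2], [(1, 5, [1])]⟩,
    ⟨[], [(0, 1), (0, 5)], [(1, 1)], [0, 2], [(3, 1, [5]), (4, 1, [5])]⟩,
    ⟨[(0, 1)], [(1, 1), (1, 3)], [(1, 1), (1, 3), (3, 3)], [6], [(3, 1, [5]), (4, 1, [5]),
      (5, 3, []), (6, 3, [])]⟩,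
    ⟨[(1, 2)], [(2, 1), (2, 3)], [(3, 3)], [4], [(5, 3, []), (6, 3, [])]⟩,
    ⟨[(2, 3)], [(2, 3), (3, 3)], [], [0, 4], [(5, 3, [])]⟩]
  Ta := [((3, 2), 1, 0), ((3, 5), 1, 3), ((4, 0), 1, 2), ((4, 7), 1, 6), ((5, 2), 3, 0), ((5, 3),
    3, 1), ((6, 7), 3, 6), ((6, 8), 3, 4)]
  Tb := [((0, 1, 4), 2, 5, 1), ((1, 0, 2), 5, 2, 0), ((2, 1, 3), 0, 5, 1), ((2, 1, 5), 0, 5, 3),
    ((2, 1, 8), 0, 5, 4), ((2, 3, 5), 0, 1, 3), ((2, 3, 8), 0, 1, 4), ((2, 5, 8), 0, 3, 4),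
    ((3, 2, 5), 1, 0, 3), ((4, 0, 7), 1, 2, 6), ((5, 2, 3), 3, 0, 1), ((6, 7, 8), 3, 6, 4),
    ((7, 4, 6), 6, 1, 3), ((8, 2, 6), 4, 0, 3)]
  Tc := []
  Td := [((1, 5), (3, 2), 0), ((1, 5), (3, 5), 3), ((1, 5), (4, 0), 2), ((1, 5), (4, 7), 6), ((5,
    1), (1, 0), 2), ((5, 1), (1, 2), 0)]
  G := [[0, 0xe12e12c3cce1e1e1e8c, 0x4287824b842dd82, 0, 0x4287824b842ed82], [0,
    0xc161a1e461c1a1e8c, 0x843843283d42, 0, 0x843843283d82], [0, 0, 0x428b824b4287d42,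
    0x4287824b2c3d48287824b824bd8c, 0x8287824b2c3d82], [0, 0, 0x843285283d82,
    0x243843243d4843243283d8c, 0x243285283d82]]

noncomputable def n278 : Ent := ⟨e278, noF, [], [], [(6, 13, [18394062992640663726968434746027364144358640063419072513, 0])]⟩

def c278 : PLift (Cov.check n278.C.D v278 = true) := ⟨by decide +kernel⟩

def b278 : PLift (entF (fidx ts) 400 278 n278 = true) := ⟨by decide +kernel⟩

theorem g278 : GoodF (fidx ts) 400 278 := GoodF.ofV v278 n278 c278.down b278.down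

/-- 46754:233 -/
noncomputable def e279 : SCfg where
  D := {
    a := 5
    L := 10
    kp := 7
    inn := [(0, 1), (1, 0), (1, 2), (2, 1), (2, 3), (3, 2), (3, 4), (4, 3)]
    mix := [(0, 0), (0, 1), (0, 2), (1, 0), (1, 2), (1, 3), (1, 4), (2, 3), (2, 4), (2, 5), (2, 6), (2,
      7), (3, 5), (3, 6), (3, 8), (4, 5), (4, 8), (4, 9)]
    cl := [1, 5, 2, 0, 0, 3, 3, 6, 4, 7]
    chq := [(0, 5), (5, 0)]
    rng := [(0, 1), (0, 4), (1, 0), (1, 2), (2, 1), (2, 3), (3, 2), (3, 5), (4, 0), (4, 7), (5, 3), (5,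
      9), (6, 7), (6, 8), (7, 4), (7, 6), (8, 6), (8, 9), (9, 5), (9, 8)]
    lev := [] }
  links := [[1, 5, 6, 7], [5, 0, 7, 8, 2, 9], [9, 1, 8, 10, 3, 11, 12], [11, 2, 10, 4, 13], [13, 3, 10,
    14]]
  P := {
    a := 5
    N := 15
    nb := [226, 933, 7946, 11284, 25608, 579, 161, 323, 1158, 4134, 16668, 12300, 2564, 18456, 9232]
    tri := [(0, 1, 5), (0, 1, 7), (0, 5, 6), (0, 6, 7), (1, 2, 8), (1, 2, 9), (1, 5, 9), (1, 7, 8), (2,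
      3, 10), (2, 3, 11), (2, 8, 10), (2, 9, 12), (2, 11, 12), (3, 4, 10), (3, 4, 13), (3, 11,
      13), (4, 10, 14), (4, 13, 14)]
    fin := [0, 0, 2, 3, 3, 5, 0, 7, 2, 2, 3, 3, 12, 13, 14]
    chd := [(0, 2)]
    steps := [(0, 1), (0, 6), (2, 8), (2, 9), (3, 4), (3, 10), (3, 11)] }
  rep := [2, 5, 7, 3, 13, 0, 12, 14]

noncomputable def v279 : Cov.CovD where
  P := 3
  N := 5
  pl := [0, 2, 7, 8, 9]
  lev := [⟨[], [], [], [1, 2], [(1, 5, [0])]⟩,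
    ⟨[], [(0, 0), (0, 5)], [(0, 0)], [1, 2], [(3, 0, [5]), (4, 0, [5])]⟩,
    ⟨[(0, 1)], [(1, 0), (1, 3)], [(0, 0), (0, 3), (3, 3)], [6], [(3, 0, [5]), (4, 0, [5]),
      (5, 3, []), (6, 3, [])]⟩,
    ⟨[(1, 2)], [(2, 0), (2, 3)], [(3, 3)], [4], [(5, 3, []), (6, 3, [])]⟩,
    ⟨[(2, 3)], [(2, 3), (3, 3)], [], [4, 7], [(5, 3, [])]⟩]
  Ta := [((3, 2), 0, 2), ((3, 5), 0, 3), ((4, 0), 0, 1), ((4, 7), 0, 6), ((5, 3), 3, 0), ((5, 9),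
    3, 7), ((6, 7), 3, 6), ((6, 8), 3, 4)]
  Tb := [((0, 1, 4), 1, 5, 0), ((1, 0, 2), 5, 1, 2), ((2, 1, 3), 2, 5, 0), ((3, 2, 5), 0, 2, 3),
    ((4, 0, 7), 0, 1, 6), ((5, 3, 9), 3, 0, 7), ((6, 7, 8), 3, 6, 4), ((7, 4, 6), 6, 0, 3),
    ((8, 6, 9), 4, 3, 7), ((9, 5, 8), 7, 3, 4)]
  Tc := []
  Td := [((0, 5), (3, 2), 2), ((0, 5), (3, 5), 3), ((0, 5), (4, 0), 1), ((0, 5), (4, 7), 6), ((5,
    0), (1, 0), 1), ((5, 0), (1, 2), 2)]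
  G := [[0, 0, 0xca97c65ba63de4c65b4ca97a63dacc, 0xca97c65ba63de81, 0xca97c65ba63de81], [0, 0,
    0xa95c9366598ca954659c93acc, 0xba54659c93ac1, 0x2497a35c53e81], [0,
    0xca97c65ba63de4ca97c65ba63de8c, 0, 0xca97c65ba63de41, 0xca97c65ba63de81], [0,
    0xa954639c53ac2a77a95c93e8c, 0, 0x2497a95c53e81, 0x2497a35c53e81]]

noncomputable def n279 : Ent := ⟨e279, noF, [], [], [(6, 14, [81620716623019490593592230936445690773474979418095884513281, 0]), (6, 13, [87897818358406171357428020359653357189577334862559919034369, 0]), (7, 14, [81620716623019490593592230936445690773474979418095884525569, 0])]⟩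

def c279 : PLift (Cov.check n279.C.D v279 = true) := ⟨by decide +kernel⟩

def b279 : PLift (entF (fidx ts) 400 279 n279 = true) := ⟨by decide +kernel⟩

theorem g279 : GoodF (fidx ts) 400 279 := GoodF.ofV v279 n279 c279.down b279.down

/-- 46754:234/1 -/
noncomputable def e280 : SCfg where
  D := {
    a := 5
    L := 9
    kp := 6
    inn := [(0, 1), (1, 0), (1, 2), (2, 1), (2, 3), (3, 2), (3, 4), (4, 3)]
    mix := [(0, 0), (0, 1), (0, 2), (1, 0), (1, 2), (1, 3), (1, 4), (2, 3), (2, 4), (2, 5), (2, 6), (2,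
      7), (3, 1), (3, 5), (3, 6), (4, 1), (4, 6), (4, 8)]
    cl := [1, 4, 2, 0, 0, 3, 3, 5, 6]
    chq := [(0, 4), (4, 0)]
    rng := [(0, 1), (0, 4), (1, 0), (1, 2), (1, 5), (1, 8), (2, 1), (2, 3), (3, 2), (3, 5), (4, 0), (4,
      7), (5, 1), (5, 3), (6, 7), (6, 8), (7, 4), (7, 6), (8, 1), (8, 6)]
    lev := [] }
  links := [[1, 5, 6, 7], [5, 0, 7, 8, 2, 9], [9, 1, 8, 10, 3, 11, 12], [11, 2, 10, 6, 4], [11, 3, 6,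
    13]]
  P := {
    a := 5
    N := 14
    nb := [226, 933, 7946, 3156, 10312, 579, 9401, 323, 1158, 4134, 332, 12316, 2564, 2128]
    tri := [(0, 1, 5), (0, 1, 7), (0, 5, 6), (0, 6, 7), (1, 2, 8), (1, 2, 9), (1, 5, 9), (1, 7, 8), (2,
      3, 10), (2, 3, 11), (2, 8, 10), (2, 9, 12), (2, 11, 12), (3, 4, 6), (3, 4, 11), (3, 6, 10),
      (4, 6, 13), (4, 11, 13)]
    fin := [0, 0, 2, 3, 0, 5, 0, 7, 2, 2, 3, 3, 12, 13]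
    chd := [(0, 2)]
    steps := [(0, 1), (0, 6), (0, 4), (2, 8), (2, 9), (3, 10), (3, 11)] }
  rep := [2, 5, 7, 3, 0, 12, 13]

noncomputable def v280 : Cov.CovD where
  P := 3
  N := 4
  pl := [0, 2, 7, 8]
  lev := [⟨[], [], [], [1, 2], [(1, 4, [0])]⟩,
    ⟨[], [(0, 0), (0, 4)], [(0, 0)], [1, 2], [(3, 0, [4]), (4, 0, [4])]⟩,
    ⟨[(0, 1)], [(1, 0), (1, 3)], [(0, 0), (0, 3), (3, 3)], [5], [(3, 0, [4]), (4, 0, [4]),
      (5, 3, []), (6, 3, [])]⟩,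
    ⟨[(1, 2)], [(0, 4), (2, 0), (2, 3), (2, 4)], [(3, 3), (3, 4)], [], [(1, 4, [0]), (5, 3,
      []), (6, 3, [])]⟩,
    ⟨[(2, 3)], [(0, 4), (2, 3), (3, 3), (3, 4)], [(3, 4)], [6], [(1, 4, [0]), (6, 3, [])]⟩]
  Ta := [((3, 2), 0, 2), ((3, 5), 0, 3), ((4, 0), 0, 1), ((4, 7), 0, 5), ((5, 1), 3, 4), ((5, 3),
    3, 0), ((6, 7), 3, 5), ((6, 8), 3, 6)]
  Tb := [((0, 1, 4), 1, 4, 0), ((1, 0, 2), 4, 1, 2), ((1, 0, 5), 4, 1, 3), ((1, 0, 8), 4, 1, 6),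
    ((1, 2, 5), 4, 2, 3), ((1, 2, 8), 4, 2, 6), ((1, 5, 8), 4, 3, 6), ((2, 1, 3), 2, 4, 0),
    ((3, 2, 5), 0, 2, 3), ((4, 0, 7), 0, 1, 5), ((5, 1, 3), 3, 4, 0), ((6, 7, 8), 3, 5, 6),
    ((7, 4, 6), 5, 0, 3), ((8, 1, 6), 6, 4, 3)]
  Tc := []
  Td := [((0, 4), (3, 2), 2), ((0, 4), (3, 5), 3), ((0, 4), (4, 0), 1), ((0, 4), (4, 7), 5), ((4,
    0), (1, 0), 1), ((4, 0), (1, 2), 2), ((4, 0), (1, 5), 3), ((4, 0), (1, 8), 6)]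
  G := [[0, 0, 0x389191e4513451e8c, 0x25273827d2e81, 0x6567a9548dee81], [0, 0,
    0x91b171e47151839e8c, 0xc1e112e42535131e89, 0xca97c65ba63de81], [0, 0x389192e4613451e8c,
    0, 0x639283bd2e41, 0x2467a35c53e81], [0, 0x91b1f1e4715131e8c, 0, 0x141268ca97f131e49,
    0x141268ca97f1f1e89]]

noncomputable def n280 : Ent := ⟨e280, noF, [], [], []⟩

def c280 : PLift (Cov.check n280.C.D v280 = true) := ⟨by decide +kernel⟩

def b280 : PLift (entF (fidx ts) 400 280 n280 = true) := ⟨by decide +kernel⟩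

theorem g280 : GoodF (fidx ts) 400 280 := GoodF.ofV v280 n280 c280.down b280.down

/-- 46754:234/2 -/
noncomputable def e281 : SCfg where
  D := {
    a := 5
    L := 9
    kp := 6
    inn := [(0, 1), (1, 0), (1, 2), (2, 1), (2, 3), (3, 2), (3, 4), (4, 3)]
    mix := [(0, 0), (0, 1), (0, 2), (1, 0), (1, 2), (1, 3), (1, 4), (2, 3), (2, 4), (2, 5), (2, 6), (2,
      7), (3, 5), (3, 6), (3, 8), (4, 1), (4, 6), (4, 8)]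
    cl := [1, 4, 2, 0, 0, 3, 3, 6, 5]
    chq := [(0, 4), (4, 0)]
    rng := [(0, 1), (0, 4), (1, 0), (1, 2), (1, 6), (1, 8), (2, 1), (2, 3), (3, 2), (3, 5), (4, 0), (4,
      7), (5, 3), (5, 8), (6, 1), (6, 7), (7, 4), (7, 6), (8, 1), (8, 5)]
    lev := [] }
  links := [[1, 5, 6, 7], [5, 0, 7, 8, 2, 9], [9, 1, 8, 10, 3, 11, 12], [11, 2, 10, 13, 4], [11, 3, 13,
    6]]
  P := {
    a := 5
    N := 14
    nb := [226, 933, 7946, 11284, 10312, 579, 10417, 323, 1158, 4134, 8460, 4188, 2564, 1112]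
    tri := [(0, 1, 5), (0, 1, 7), (0, 5, 6), (0, 6, 7), (1, 2, 8), (1, 2, 9), (1, 5, 9), (1, 7, 8), (2,
      3, 10), (2, 3, 11), (2, 8, 10), (2, 9, 12), (2, 11, 12), (3, 4, 11), (3, 4, 13), (3, 10,
      13), (4, 6, 11), (4, 6, 13)]
    fin := [0, 0, 2, 3, 0, 5, 0, 7, 2, 2, 3, 3, 12, 13]
    chd := [(0, 2)]
    steps := [(0, 1), (0, 6), (0, 4), (2, 8), (2, 9), (3, 10), (3, 11)] }
  rep := [2, 5, 7, 3, 0, 13, 12]

noncomputable def v281 : Cov.CovD where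
  P := 3
  N := 4
  pl := [0, 2, 7, 8]
  lev := [⟨[], [], [], [1, 2], [(1, 4, [0])]⟩,
    ⟨[], [(0, 0), (0, 4)], [(0, 0)], [1, 2], [(3, 0, [4]), (4, 0, [4])]⟩,
    ⟨[(0, 1)], [(1, 0), (1, 3)], [(0, 0), (0, 3), (3, 3)], [6], [(3, 0, [4]), (4, 0, [4]),
      (5, 3, []), (6, 3, [])]⟩,
    ⟨[(1, 2)], [(2, 0), (2, 3)], [(3, 3)], [5], [(5, 3, []), (6, 3, [])]⟩,
    ⟨[(2, 3)], [(0, 4), (2, 3), (3, 3), (3, 4)], [(3, 4)], [5], [(1, 4, [0]), (6, 3, [])]⟩]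
  Ta := [((3, 2), 0, 2), ((3, 5), 0, 3), ((4, 0), 0, 1), ((4, 7), 0, 6), ((5, 3), 3, 0), ((5, 8),
    3, 5), ((6, 1), 3, 4), ((6, 7), 3, 6)]
  Tb := [((0, 1, 4), 1, 4, 0), ((1, 0, 2), 4, 1, 2), ((1, 0, 6), 4, 1, 3), ((1, 0, 8), 4, 1, 5),
    ((1, 2, 6), 4, 2, 3), ((1, 2, 8), 4, 2, 5), ((1, 6, 8), 4, 3, 5), ((2, 1, 3), 2, 4, 0),
    ((3, 2, 5), 0, 2, 3), ((4, 0, 7), 0, 1, 6), ((5, 3, 8), 3, 0, 5), ((6, 1, 7), 3, 4, 6),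
    ((7, 4, 6), 6, 0, 3), ((8, 1, 5), 5, 4, 3)]
  Tc := []
  Td := [((0, 4), (3, 2), 2), ((0, 4), (3, 5), 3), ((0, 4), (4, 0), 1), ((0, 4), (4, 7), 6), ((4,
    0), (1, 0), 1), ((4, 0), (1, 2), 2), ((4, 0), (1, 6), 3), ((4, 0), (1, 8), 5)]
  G := [[0, 0, 0x81581368158c4417219219e8c, 0x259c25b1c67e41, 0x3567a951d47e81], [0, 0,
    0x8217821d6281d8c4a17441b241de8c, 0xc297c25b22fde81, 0xca97c65ba63de81], [0,
    0x219881b215e42417219413e8c, 0, 0x369285b482de41, 0x2497a95c93e81], [0,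
    0x8817821b221de44217441ba41be8c, 0, 0xc297c25ba63de81, 0xca97c65ba63de81]]

noncomputable def n281 : Ent := ⟨e281, noF, [], [], []⟩

def c281 : PLift (Cov.check n281.C.D v281 = true) := ⟨by decide +kernel⟩

def b281 : PLift (entF (fidx ts) 400 281 n281 = true) := ⟨by decide +kernel⟩

theorem g281 : GoodF (fidx ts) 400 281 := GoodF.ofV v281 n281 c281.down b281.down

/-- 46754:234 -/
noncomputable def e282 : SCfg where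
  D := {
    a := 5
    L := 10
    kp := 7
    inn := [(0, 1), (1, 0), (1, 2), (2, 1), (2, 3), (3, 2), (3, 4), (4, 3)]
    mix := [(0, 0), (0, 1), (0, 2), (1, 0), (1, 2), (1, 3), (1, 4), (2, 3), (2, 4), (2, 5), (2, 6), (2,
      7), (3, 5), (3, 6), (3, 8), (4, 6), (4, 8), (4, 9)]
    cl := [1, 5, 2, 0, 0, 3, 3, 6, 4, 7]
    chq := [(0, 5), (5, 0)]
    rng := [(0, 1), (0, 4), (1, 0), (1, 2), (2, 1), (2, 3), (3, 2), (3, 5), (4, 0), (4, 7), (5, 3), (5,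
      8), (6, 7), (6, 9), (7, 4), (7, 6), (8, 5), (8, 9), (9, 6), (9, 8)]
    lev := [] }
  links := [[1, 5, 6, 7], [5, 0, 7, 8, 2, 9], [9, 1, 8, 10, 3, 11, 12], [11, 2, 10, 13, 4], [11, 3, 13,
    14]]
  P := {
    a := 5
    N := 15
    nb := [226, 933, 7946, 11284, 26632, 579, 161, 323, 1158, 4134, 8460, 20508, 2564, 17432, 10256]
    tri := [(0, 1, 5), (0, 1, 7), (0, 5, 6), (0, 6, 7), (1, 2, 8), (1, 2, 9), (1, 5, 9), (1, 7, 8), (2,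
      3, 10), (2, 3, 11), (2, 8, 10), (2, 9, 12), (2, 11, 12), (3, 4, 11), (3, 4, 13), (3, 10,
      13), (4, 11, 14), (4, 13, 14)]
    fin := [0, 0, 2, 3, 3, 5, 0, 7, 2, 2, 3, 3, 12, 13, 14]
    chd := [(0, 2)]
    steps := [(0, 1), (0, 6), (2, 8), (2, 9), (3, 4), (3, 10), (3, 11)] }
  rep := [2, 5, 7, 3, 13, 0, 12, 14]

noncomputable def v282 : Cov.CovD where
  P := 3
  N := 5
  pl := [0, 2, 7, 8, 9]
  lev := [⟨[], [], [], [1, 2], [(1, 5, [0])]⟩,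
    ⟨[], [(0, 0), (0, 5)], [(0, 0)], [1, 2], [(3, 0, [5]), (4, 0, [5])]⟩,
    ⟨[(0, 1)], [(1, 0), (1, 3)], [(0, 0), (0, 3), (3, 3)], [6], [(3, 0, [5]), (4, 0, [5]),
      (5, 3, []), (6, 3, [])]⟩,
    ⟨[(1, 2)], [(2, 0), (2, 3)], [(3, 3)], [4], [(5, 3, []), (6, 3, [])]⟩,
    ⟨[(2, 3)], [(2, 3), (3, 3)], [], [4, 7], [(6, 3, [])]⟩]
  Ta := [((3, 2), 0, 2), ((3, 5), 0, 3), ((4, 0), 0, 1), ((4, 7), 0, 6), ((5, 3), 3, 0), ((5, 8),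
    3, 4), ((6, 7), 3, 6), ((6, 9), 3, 7)]
  Tb := [((0, 1, 4), 1, 5, 0), ((1, 0, 2), 5, 1, 2), ((2, 1, 3), 2, 5, 0), ((3, 2, 5), 0, 2, 3),
    ((4, 0, 7), 0, 1, 6), ((5, 3, 8), 3, 0, 4), ((6, 7, 9), 3, 6, 7), ((7, 4, 6), 6, 0, 3),
    ((8, 5, 9), 4, 3, 7), ((9, 6, 8), 7, 3, 4)]
  Tc := []
  Td := [((0, 5), (3, 2), 2), ((0, 5), (3, 5), 3), ((0, 5), (4, 0), 1), ((0, 5), (4, 7), 6), ((5,
    0), (1, 0), 1), ((5, 0), (1, 2), 2)]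
  G := [[0, 0, 0xa954659c93aca354659ce3acc, 0xba5dc367698c1, 0x3a97b35d53e81], [0, 0,
    0xca97c65ba63de4c65b4ca97a63dacc, 0xca97c65ba63de81, 0xca97c65ba63de81], [0,
    0xa354659c53aca954659c53acc, 0, 0xa35c5366398c1, 0x2497a35c93e81], [0,
    0xca97c65ba63de4ca97c65ba63de8c, 0, 0xca97c65ba63de41, 0xca97c65ba63de81]]

noncomputable def n282 : Ent := ⟨e282, noF, [], [], [(6, 13, [87897818358406171357428020359653357189577334862559919046657, 0]), (6, 14, [81620716623019490593592230936445690773474979418095884537857, 0])]⟩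

def c282 : PLift (Cov.check n282.C.D v282 = true) := ⟨by decide +kernel⟩

def b282 : PLift (entF (fidx ts) 400 282 n282 = true) := ⟨by decide +kernel⟩

theorem g282 : GoodF (fidx ts) 400 282 := GoodF.ofV v282 n282 c282.down b282.down

/-- 45774:235 -/
noncomputable def e283 : SCfg where
  D := {
    a := 5
    L := 10
    kp := 8
    inn := [(0, 1), (1, 0), (1, 2), (1, 3), (2, 1), (2, 3), (2, 4), (3, 1), (3, 2), (4, 2)]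
    mix := [(0, 0), (0, 1), (0, 2), (1, 0), (1, 2), (2, 2), (2, 3), (2, 4), (2, 5), (3, 0), (3, 5), (3,
      6), (3, 7), (3, 8), (4, 3), (4, 4), (4, 9)]
    cl := [3, 7, 0, 1, 2, 1, 4, 5, 6, 8]
    chq := [(0, 3), (0, 4), (0, 5), (0, 6), (3, 0), (4, 0), (5, 0), (6, 0)]
    rng := [(0, 1), (0, 8), (1, 0), (1, 2), (2, 1), (2, 3), (3, 2), (3, 9), (4, 5), (4, 9), (5, 4), (5,
      6), (6, 5), (6, 7), (7, 6), (7, 8), (8, 0), (8, 7), (9, 3), (9, 4)]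
    lev := [] }
  links := [[1, 5, 6, 7], [5, 0, 7, 2, 3], [3, 1, 7, 8, 4, 9, 10], [5, 1, 2, 10, 11, 12, 13], [9, 2, 8,
    14]]
  P := {
    a := 5
    N := 15
    nb := [226, 173, 1946, 15398, 17156, 8267, 161, 327, 16532, 17428, 2572, 5128, 10248, 4136, 784]
    tri := [(0, 1, 5), (0, 1, 7), (0, 5, 6), (0, 6, 7), (1, 2, 3), (1, 2, 7), (1, 3, 5), (2, 3, 10),
      (2, 4, 8), (2, 4, 9), (2, 7, 8), (2, 9, 10), (3, 5, 13), (3, 10, 11), (3, 11, 12), (3, 12,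
      13), (4, 8, 14), (4, 9, 14)]
    fin := [0, 1, 2, 1, 2, 0, 6, 1, 2, 9, 2, 11, 12, 13, 14]
    chd := [(0, 1), (1, 11), (1, 12), (1, 13)]
    steps := [(0, 5), (1, 3), (1, 7), (2, 4), (2, 8), (2, 10)] }
  rep := [1, 2, 9, 0, 11, 12, 13, 6, 14]

noncomputable def v283 : Cov.CovD where
  P := 3
  N := 6
  pl := [1, 4, 9]
  lev := [⟨[], [], [(0, 3)], [7], [(0, 3, [0]), (2, 0, [3, 4, 5, 6])]⟩,
    ⟨[], [(0, 0), (0, 3)], [(0, 3)], [], [(0, 3, [0]), (2, 0, [3, 4, 5, 6])]⟩,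
    ⟨[(0, 1)], [(0, 0), (1, 0), (1, 1), (1, 3)], [(0, 1), (1, 1)], [2], [(2, 0, [3, 4, 5,
      6]), (3, 1, []), (5, 1, [])]⟩,
    ⟨[(0, 1), (1, 2)], [(0, 3), (1, 0), (1, 1), (1, 3), (1, 4), (1, 5), (1, 6), (2, 0), (2,
      1), (2, 3), (2, 4), (2, 5), (2, 6)], [(1, 3), (1, 4), (1, 5), (1, 6), (3, 4), (3, 5),
      (3, 6), (4, 5), (4, 6), (5, 6)], [], [(0, 3, [0]), (5, 1, []), (6, 4, [0]), (7, 5,
      [0]), (8, 6, [0])]⟩,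
    ⟨[(1, 2), (2, 3)], [(2, 0), (2, 1)], [], [2, 8], [(3, 1, [])]⟩]
  Ta := [((3, 2), 1, 0), ((3, 9), 1, 8), ((5, 4), 1, 2), ((5, 6), 1, 4)]
  Tb := [((0, 1, 8), 3, 7, 6), ((1, 0, 2), 7, 3, 0), ((2, 1, 3), 0, 7, 1), ((3, 2, 9), 1, 0, 8),
    ((4, 5, 9), 2, 1, 8), ((5, 4, 6), 1, 2, 4), ((6, 5, 7), 4, 1, 5), ((7, 6, 8), 5, 4, 6),
    ((8, 0, 7), 6, 3, 5), ((9, 3, 4), 8, 1, 2)]
  Tc := [(0, 3, 4), (0, 3, 5), (0, 3, 6), (0, 4, 5), (0, 4, 6), (0, 5, 6)]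
  Td := [((0, 3), (2, 1), 7), ((0, 3), (2, 3), 1), ((0, 4), (2, 1), 7), ((0, 4), (2, 3), 1), ((0,
    5), (2, 1), 7), ((0, 5), (2, 3), 1), ((0, 6), (2, 1), 7), ((0, 6), (2, 3), 1), ((3, 0),
    (0, 1), 7), ((3, 0), (0, 8), 6), ((4, 0), (6, 5), 1), ((4, 0), (6, 7), 5), ((5, 0), (7,
    6), 4), ((5, 0), (7, 8), 6), ((6, 0), (8, 0), 3), ((6, 0), (8, 7), 5)]
  G := [[0, 0xc148c184c182e, 0xc148c184c142e, 0, 0x918918691849182e], [0, 0, 0x214821842182e,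
    0x9148c1849142e, 0x218218621842182e]]

noncomputable def n283 : Ent := ⟨e283, noF, [], [], []⟩

def c283 : PLift (Cov.check n283.C.D v283 = true) := ⟨by decide +kernel⟩

def b283 : PLift (entF (fidx ts) 400 283 n283 = true) := ⟨by decide +kernel⟩

theorem g283 : GoodF (fidx ts) 400 283 := GoodF.ofV v283 n283 c283.down b283.down

/-- 45774:236 -/
noncomputable def e284 : SCfg where
  D := {
    a := 5
    L := 10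
    kp := 8
    inn := [(0, 1), (1, 0), (1, 2), (1, 3), (2, 1), (2, 3), (2, 4), (3, 1), (3, 2), (4, 2)]
    mix := [(0, 0), (0, 1), (0, 2), (1, 0), (1, 2), (2, 2), (2, 3), (2, 4), (2, 5), (3, 0), (3, 5), (3,
      6), (3, 7), (3, 8), (4, 4), (4, 5), (4, 9)]
    cl := [3, 7, 0, 1, 2, 1, 4, 5, 6, 8]
    chq := [(0, 3), (0, 4), (0, 5), (0, 6), (3, 0), (4, 0), (5, 0), (6, 0)]
    rng := [(0, 1), (0, 8), (1, 0), (1, 2), (2, 1), (2, 3), (3, 2), (3, 4), (4, 3), (4, 9), (5, 6), (5,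
      9), (6, 5), (6, 7), (7, 6), (7, 8), (8, 0), (8, 7), (9, 4), (9, 5)]
    lev := [] }
  links := [[1, 5, 6, 7], [5, 0, 7, 2, 3], [3, 1, 7, 8, 9, 4, 10], [5, 1, 2, 10, 11, 12, 13], [10, 2, 9,
    14]]
  P := {
    a := 5
    N := 15
    nb := [226, 173, 1946, 15398, 17924, 8267, 161, 327, 644, 16660, 18460, 5128, 10248, 4136, 1552]
    tri := [(0, 1, 5), (0, 1, 7), (0, 5, 6), (0, 6, 7), (1, 2, 3), (1, 2, 7), (1, 3, 5), (2, 3, 10),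
      (2, 4, 9), (2, 4, 10), (2, 7, 8), (2, 8, 9), (3, 5, 13), (3, 10, 11), (3, 11, 12), (3, 12,
      13), (4, 9, 14), (4, 10, 14)]
    fin := [0, 1, 2, 1, 2, 0, 6, 1, 2, 9, 2, 11, 12, 13, 14]
    chd := [(0, 1), (1, 11), (1, 12), (1, 13)]
    steps := [(0, 5), (1, 3), (1, 7), (2, 4), (2, 8), (2, 10)] }
  rep := [1, 2, 9, 0, 11, 12, 13, 6, 14]

noncomputable def v284 : Cov.CovD where
  P := 3
  N := 6
  pl := [1, 4, 9]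
  lev := [⟨[], [], [(0, 3)], [7], [(0, 3, [0]), (2, 0, [3, 4, 5, 6])]⟩,
    ⟨[], [(0, 0), (0, 3)], [(0, 3)], [], [(0, 3, [0]), (2, 0, [3, 4, 5, 6])]⟩,
    ⟨[(0, 1)], [(0, 0), (1, 0), (1, 1), (1, 3)], [(0, 1), (1, 1)], [2], [(2, 0, [3, 4, 5,
      6]), (3, 1, []), (5, 1, [])]⟩,
    ⟨[(0, 1), (1, 2)], [(0, 3), (1, 0), (1, 1), (1, 3), (1, 4), (1, 5), (1, 6), (2, 0), (2,
      1), (2, 3), (2, 4), (2, 5), (2, 6)], [(1, 3), (1, 4), (1, 5), (1, 6), (3, 4), (3, 5),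
      (3, 6), (4, 5), (4, 6), (5, 6)], [], [(0, 3, [0]), (5, 1, []), (6, 4, [0]), (7, 5,
      [0]), (8, 6, [0])]⟩,
    ⟨[(1, 2), (2, 3)], [(2, 0), (2, 1), (3, 1)], [], [2, 8], [(5, 1, [])]⟩]
  Ta := [((3, 2), 1, 0), ((3, 4), 1, 2), ((5, 6), 1, 4), ((5, 9), 1, 8)]
  Tb := [((0, 1, 8), 3, 7, 6), ((1, 0, 2), 7, 3, 0), ((2, 1, 3), 0, 7, 1), ((3, 2, 4), 1, 0, 2),
    ((4, 3, 9), 2, 1, 8), ((5, 6, 9), 1, 4, 8), ((6, 5, 7), 4, 1, 5), ((7, 6, 8), 5, 4, 6),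
    ((8, 0, 7), 6, 3, 5), ((9, 4, 5), 8, 2, 1)]
  Tc := [(0, 3, 4), (0, 3, 5), (0, 3, 6), (0, 4, 5), (0, 4, 6), (0, 5, 6)]
  Td := [((0, 3), (2, 1), 7), ((0, 3), (2, 3), 1), ((0, 4), (2, 1), 7), ((0, 4), (2, 3), 1), ((0,
    5), (2, 1), 7), ((0, 5), (2, 3), 1), ((0, 6), (2, 1), 7), ((0, 6), (2, 3), 1), ((3, 0),
    (0, 1), 7), ((3, 0), (0, 8), 6), ((4, 0), (6, 5), 1), ((4, 0), (6, 7), 5), ((5, 0), (7,
    6), 4), ((5, 0), (7, 8), 6), ((6, 0), (8, 0), 3), ((6, 0), (8, 7), 5)]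
  G := [[0, 0xc148c184c182e, 0x214821842142e, 0x51485184c182e, 0x218218621842182e], [0, 0,
    0xc148c184c142e, 0, 0x918918691849182e]]

noncomputable def n284 : Ent := ⟨e284, noF, [], [], []⟩

def c284 : PLift (Cov.check n284.C.D v284 = true) := ⟨by decide +kernel⟩

def b284 : PLift (entF (fidx ts) 400 284 n284 = true) := ⟨by decide +kernel⟩

theorem g284 : GoodF (fidx ts) 400 284 := GoodF.ofV v284 n284 c284.down b284.down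

/-- 45784:237 -/
noncomputable def e285 : SCfg where
  D := {
    a := 5
    L := 11
    kp := 9
    inn := [(0, 1), (1, 0), (1, 2), (1, 3), (2, 1), (2, 3), (2, 4), (3, 1), (3, 2), (4, 2)]
    mix := [(0, 0), (0, 1), (0, 2), (1, 0), (1, 2), (2, 2), (2, 3), (2, 4), (2, 5), (3, 0), (3, 5), (3,
      6), (3, 7), (3, 8), (3, 9), (4, 3), (4, 4), (4, 10)]
    cl := [3, 8, 0, 1, 2, 1, 4, 5, 6, 7, 9]
    chq := [(0, 3), (0, 4), (0, 5), (0, 6), (0, 7), (3, 0), (4, 0), (5, 0), (6, 0), (7, 0)]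
    rng := [(0, 1), (0, 9), (1, 0), (1, 2), (2, 1), (2, 3), (3, 2), (3, 10), (4, 5), (4, 10), (5, 4),
      (5, 6), (6, 5), (6, 7), (7, 6), (7, 8), (8, 7), (8, 9), (9, 0), (9, 8), (10, 3), (10, 4)]
    lev := [] }
  links := [[1, 5, 6, 7], [5, 0, 7, 2, 3], [3, 1, 7, 8, 4, 9, 10], [5, 1, 2, 10, 11, 12, 13, 14], [9, 2,
    8, 15]]
  P := {
    a := 5
    N := 16
    nb := [226, 173, 1946, 31782, 33540, 16459, 161, 327, 32916, 33812, 2572, 5128, 10248, 20488,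
      8232, 784]
    tri := [(0, 1, 5), (0, 1, 7), (0, 5, 6), (0, 6, 7), (1, 2, 3), (1, 2, 7), (1, 3, 5), (2, 3, 10),
      (2, 4, 8), (2, 4, 9), (2, 7, 8), (2, 9, 10), (3, 5, 14), (3, 10, 11), (3, 11, 12), (3, 12,
      13), (3, 13, 14), (4, 8, 15), (4, 9, 15)]
    fin := [0, 1, 2, 1, 2, 0, 6, 1, 2, 9, 2, 11, 12, 13, 14, 15]
    chd := [(0, 1), (1, 11), (1, 12), (1, 13), (1, 14)]
    steps := [(0, 5), (1, 3), (1, 7), (2, 4), (2, 8), (2, 10)] }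
  rep := [1, 2, 9, 0, 11, 12, 13, 14, 6, 15]

noncomputable def v285 : Cov.CovD where
  P := 3
  N := 7
  pl := [1, 4, 10]
  lev := [⟨[], [], [(0, 3)], [8], [(0, 3, [0]), (2, 0, [3, 4, 5, 6, 7])]⟩,
    ⟨[], [(0, 0), (0, 3)], [(0, 3)], [], [(0, 3, [0]), (2, 0, [3, 4, 5, 6, 7])]⟩,
    ⟨[(0, 1)], [(0, 0), (1, 0), (1, 1), (1, 3)], [(0, 1), (1, 1)], [2], [(2, 0, [3, 4, 5,
      6, 7]), (3, 1, []), (5, 1, [])]⟩,
    ⟨[(0, 1), (1, 2)], [(0, 3), (1, 0), (1, 1), (1, 3), (1, 4), (1, 5), (1, 6), (1, 7), (2,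
      0), (2, 1), (2, 3), (2, 4), (2, 5), (2, 6), (2, 7)], [(1, 3), (1, 4), (1, 5), (1, 6),
      (1, 7), (3, 4), (3, 5), (3, 6), (3, 7), (4, 5), (4, 6), (4, 7), (5, 6), (5, 7), (6,
      7)], [], [(0, 3, [0]), (5, 1, []), (6, 4, [0]), (7, 5, [0]), (8, 6, [0]), (9, 7, [0])]⟩,
    ⟨[(1, 2), (2, 3)], [(2, 0), (2, 1)], [], [2, 9], [(3, 1, [])]⟩]
  Ta := [((3, 2), 1, 0), ((3, 10), 1, 9), ((5, 4), 1, 2), ((5, 6), 1, 4)]
  Tb := [((0, 1, 9), 3, 8, 7), ((1, 0, 2), 8, 3, 0), ((2, 1, 3), 0, 8, 1), ((3, 2, 10), 1, 0, 9),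
    ((4, 5, 10), 2, 1, 9), ((5, 4, 6), 1, 2, 4), ((6, 5, 7), 4, 1, 5), ((7, 6, 8), 5, 4, 6),
    ((8, 7, 9), 6, 5, 7), ((9, 0, 8), 7, 3, 6), ((10, 3, 4), 9, 1, 2)]
  Tc := [(0, 3, 4), (0, 3, 5), (0, 3, 6), (0, 3, 7), (0, 4, 5), (0, 4, 6), (0, 4, 7), (0, 5, 6),
    (0, 5, 7), (0, 6, 7)]
  Td := [((0, 3), (2, 1), 8), ((0, 3), (2, 3), 1), ((0, 4), (2, 1), 8), ((0, 4), (2, 3), 1), ((0,
    5), (2, 1), 8), ((0, 5), (2, 3), 1), ((0, 6), (2, 1), 8), ((0, 6), (2, 3), 1), ((0, 7),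
    (2, 1), 8), ((0, 7), (2, 3), 1), ((3, 0), (0, 1), 8), ((3, 0), (0, 9), 7), ((4, 0), (6,
    5), 1), ((4, 0), (6, 7), 5), ((5, 0), (7, 6), 4), ((5, 0), (7, 8), 6), ((6, 0), (8, 7),
    5), ((6, 0), (8, 9), 7), ((7, 0), (9, 0), 3), ((7, 0), (9, 8), 6)]
  G := [[0, 0xc148c184c142e, 0xc148c184c142e, 0, 0x918918691849182e], [0, 0, 0x214821842142e,
    0xc1489184c142e, 0x218218621842182e]]

noncomputable def n285 : Ent := ⟨e285, noF, [], [], []⟩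

def c285 : PLift (Cov.check n285.C.D v285 = true) := ⟨by decide +kernel⟩

def b285 : PLift (entF (fidx ts) 400 285 n285 = true) := ⟨by decide +kernel⟩

theorem g285 : GoodF (fidx ts) 400 285 := GoodF.ofV v285 n285 c285.down b285.down

/-- 45784:238 -/
noncomputable def e286 : SCfg where
  D := {
    a := 5
    L := 11
    kp := 9
    inn := [(0, 1), (1, 0), (1, 2), (1, 3), (2, 1), (2, 3), (2, 4), (3, 1), (3, 2), (4, 2)]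
    mix := [(0, 0), (0, 1), (0, 2), (1, 0), (1, 2), (2, 2), (2, 3), (2, 4), (2, 5), (3, 0), (3, 5), (3,
      6), (3, 7), (3, 8), (3, 9), (4, 4), (4, 5), (4, 10)]
    cl := [3, 8, 0, 1, 2, 1, 4, 5, 6, 7, 9]
    chq := [(0, 3), (0, 4), (0, 5), (0, 6), (0, 7), (3, 0), (4, 0), (5, 0), (6, 0), (7, 0)]
    rng := [(0, 1), (0, 9), (1, 0), (1, 2), (2, 1), (2, 3), (3, 2), (3, 4), (4, 3), (4, 10), (5, 6),
      (5, 10), (6, 5), (6, 7), (7, 6), (7, 8), (8, 7), (8, 9), (9, 0), (9, 8), (10, 4), (10, 5)]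
    lev := [] }
  links := [[1, 5, 6, 7], [5, 0, 7, 2, 3], [3, 1, 7, 8, 9, 4, 10], [5, 1, 2, 10, 11, 12, 13, 14], [10, 2,
    9, 15]]
  P := {
    a := 5
    N := 16
    nb := [226, 173, 1946, 31782, 34308, 16459, 161, 327, 644, 33044, 34844, 5128, 10248, 20488, 8232,
      1552]
    tri := [(0, 1, 5), (0, 1, 7), (0, 5, 6), (0, 6, 7), (1, 2, 3), (1, 2, 7), (1, 3, 5), (2, 3, 10),
      (2, 4, 9), (2, 4, 10), (2, 7, 8), (2, 8, 9), (3, 5, 14), (3, 10, 11), (3, 11, 12), (3, 12,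
      13), (3, 13, 14), (4, 9, 15), (4, 10, 15)]
    fin := [0, 1, 2, 1, 2, 0, 6, 1, 2, 9, 2, 11, 12, 13, 14, 15]
    chd := [(0, 1), (1, 11), (1, 12), (1, 13), (1, 14)]
    steps := [(0, 5), (1, 3), (1, 7), (2, 4), (2, 8), (2, 10)] }
  rep := [1, 2, 9, 0, 11, 12, 13, 14, 6, 15]

noncomputable def v286 : Cov.CovD where
  P := 3
  N := 7
  pl := [1, 4, 10]
  lev := [⟨[], [], [(0, 3)], [8], [(0, 3, [0]), (2, 0, [3, 4, 5, 6, 7])]⟩,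
    ⟨[], [(0, 0), (0, 3)], [(0, 3)], [], [(0, 3, [0]), (2, 0, [3, 4, 5, 6, 7])]⟩,
    ⟨[(0, 1)], [(0, 0), (1, 0), (1, 1), (1, 3)], [(0, 1), (1, 1)], [2], [(2, 0, [3, 4, 5,
      6, 7]), (3, 1, []), (5, 1, [])]⟩,
    ⟨[(0, 1), (1, 2)], [(0, 3), (1, 0), (1, 1), (1, 3), (1, 4), (1, 5), (1, 6), (1, 7), (2,
      0), (2, 1), (2, 3), (2, 4), (2, 5), (2, 6), (2, 7)], [(1, 3), (1, 4), (1, 5), (1, 6),
      (1, 7), (3, 4), (3, 5), (3, 6), (3, 7), (4, 5), (4, 6), (4, 7), (5, 6), (5, 7), (6,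
      7)], [], [(0, 3, [0]), (5, 1, []), (6, 4, [0]), (7, 5, [0]), (8, 6, [0]), (9, 7, [0])]⟩,
    ⟨[(1, 2), (2, 3)], [(2, 0), (2, 1), (3, 1)], [], [2, 9], [(5, 1, [])]⟩]
  Ta := [((3, 2), 1, 0), ((3, 4), 1, 2), ((5, 6), 1, 4), ((5, 10), 1, 9)]
  Tb := [((0, 1, 9), 3, 8, 7), ((1, 0, 2), 8, 3, 0), ((2, 1, 3), 0, 8, 1), ((3, 2, 4), 1, 0, 2),
    ((4, 3, 10), 2, 1, 9), ((5, 6, 10), 1, 4, 9), ((6, 5, 7), 4, 1, 5), ((7, 6, 8), 5, 4, 6),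
    ((8, 7, 9), 6, 5, 7), ((9, 0, 8), 7, 3, 6), ((10, 4, 5), 9, 2, 1)]
  Tc := [(0, 3, 4), (0, 3, 5), (0, 3, 6), (0, 3, 7), (0, 4, 5), (0, 4, 6), (0, 4, 7), (0, 5, 6),
    (0, 5, 7), (0, 6, 7)]
  Td := [((0, 3), (2, 1), 8), ((0, 3), (2, 3), 1), ((0, 4), (2, 1), 8), ((0, 4), (2, 3), 1), ((0,
    5), (2, 1), 8), ((0, 5), (2, 3), 1), ((0, 6), (2, 1), 8), ((0, 6), (2, 3), 1), ((0, 7),
    (2, 1), 8), ((0, 7), (2, 3), 1), ((3, 0), (0, 1), 8), ((3, 0), (0, 9), 7), ((4, 0), (6,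
    5), 1), ((4, 0), (6, 7), 5), ((5, 0), (7, 6), 4), ((5, 0), (7, 8), 6), ((6, 0), (8, 7),
    5), ((6, 0), (8, 9), 7), ((7, 0), (9, 0), 3), ((7, 0), (9, 8), 6)]
  G := [[0, 0xc148c184c142e, 0x214821842182e, 0x514891849142e, 0x218218621842182e], [0, 0,
    0xc148c184c182e, 0, 0x918918691849182e]]

noncomputable def n286 : Ent := ⟨e286, noF, [], [], []⟩

def c286 : PLift (Cov.check n286.C.D v286 = true) := ⟨by decide +kernel⟩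

def b286 : PLift (entF (fidx ts) 400 286 n286 = true) := ⟨by decide +kernel⟩

theorem g286 : GoodF (fidx ts) 400 286 := GoodF.ofV v286 n286 c286.down b286.down

/-- 45746:239/1 -/
noncomputable def e287 : SCfg where
  D := {
    a := 5
    L := 8
    kp := 5
    inn := [(0, 1), (1, 0), (1, 2), (2, 1), (2, 3), (2, 4), (3, 2), (3, 4), (4, 2), (4, 3)]
    mix := [(0, 0), (0, 1), (0, 2), (1, 0), (1, 2), (1, 3), (2, 2), (2, 3), (2, 4), (2, 5), (3, 1), (3,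
      2), (4, 1), (4, 4), (4, 6), (4, 7)]
    cl := [2, 0, 1, 1, 0, 3, 4, 5]
    chq := []
    rng := [(0, 1), (0, 3), (1, 0), (1, 2), (1, 6), (2, 1), (3, 0), (3, 5), (4, 5), (4, 7), (5, 3), (5,
      4), (6, 1), (6, 7), (7, 4), (7, 6)]
    lev := [] }
  links := [[1, 5, 6, 7], [5, 0, 7, 2, 8], [8, 1, 7, 3, 4, 9, 10], [4, 2, 7, 6], [9, 2, 3, 6, 11, 12]]
  P := {
    a := 5
    N := 13
    nb := [226, 421, 1946, 212, 6732, 323, 2233, 79, 1062, 5140, 772, 4176, 2576]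
    tri := [(0, 1, 5), (0, 1, 7), (0, 5, 6), (0, 6, 7), (1, 2, 7), (1, 2, 8), (1, 5, 8), (2, 3, 4), (2,
      3, 7), (2, 4, 9), (2, 8, 10), (2, 9, 10), (3, 4, 6), (3, 6, 7), (4, 6, 11), (4, 9, 12), (4,
      11, 12)]
    fin := [0, 0, 2, 3, 3, 0, 3, 2, 2, 3, 10, 11, 12]
    chd := []
    steps := [(0, 1), (0, 5), (2, 7), (2, 8), (3, 4), (3, 6), (3, 9)] }
  rep := [3, 2, 0, 10, 11, 12]

noncomputable def v287 : Cov.CovD where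
  P := 3
  N := 3
  pl := [0, 5, 6, 7]
  lev := [⟨[], [], [(0, 1)], [2], [(1, 0, []), (2, 1, [])]⟩,
    ⟨[], [(0, 0), (0, 1)], [(1, 1)], [2], [(2, 1, []), (3, 1, [])]⟩,
    ⟨[(0, 1)], [(0, 1), (1, 0), (1, 1)], [(0, 1), (1, 1)], [3], [(2, 1, []), (3, 1, []),
      (4, 0, [])]⟩,
    ⟨[(1, 2)], [(0, 0), (0, 1), (1, 1), (2, 0), (2, 1)], [(0, 1)], [], [(1, 0, []), (2, 1,
      [])]⟩,
    ⟨[(1, 2), (2, 3)], [(0, 0), (2, 0), (2, 1), (3, 0), (3, 1)], [(0, 0)], [4, 5], [(1, 0,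
      []), (4, 0, [])]⟩]
  Ta := [((1, 0), 0, 2), ((1, 2), 0, 1), ((1, 6), 0, 4), ((2, 1), 1, 0), ((3, 0), 1, 2), ((3, 5),
    1, 3), ((4, 5), 0, 3), ((4, 7), 0, 5)]
  Tb := [((0, 1, 3), 2, 0, 1), ((1, 0, 2), 0, 2, 1), ((1, 0, 6), 0, 2, 4), ((1, 2, 6), 0, 1, 4),
    ((3, 0, 5), 1, 2, 3), ((4, 5, 7), 0, 3, 5), ((5, 3, 4), 3, 1, 0), ((6, 1, 7), 4, 0, 5),
    ((7, 4, 6), 5, 0, 4)]
  Tc := []
  Td := []
  G := [[0, 0xe4e4a44, 0xe8148, 0, 0xe8188], [0, 0, 0xe4142, 0xe8184, 0xe8188], [0, 0, 0, 0,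
    0xe1e1c18], [0, 0, 0, 0xe4e8c18, 0xe4e8c12]]

noncomputable def n287 : Ent := ⟨e287, noF, [], [], []⟩

def c287 : PLift (Cov.check n287.C.D v287 = true) := ⟨by decide +kernel⟩

def b287 : PLift (entF (fidx ts) 400 287 n287 = true) := ⟨by decide +kernel⟩

theorem g287 : GoodF (fidx ts) 400 287 := GoodF.ofV v287 n287 c287.down b287.down

/-- 45746:239 -/
noncomputable def e288 : SCfg where
  D := {
    a := 5
    L := 9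
    kp := 6
    inn := [(0, 1), (1, 0), (1, 2), (2, 1), (2, 3), (2, 4), (3, 2), (3, 4), (4, 2), (4, 3)]
    mix := [(0, 0), (0, 1), (0, 2), (1, 0), (1, 2), (1, 3), (2, 2), (2, 3), (2, 4), (2, 5), (3, 2), (3,
      6), (4, 4), (4, 6), (4, 7), (4, 8)]
    cl := [1, 2, 0, 0, 3, 4, 3, 5, 6]
    chq := []
    rng := [(0, 1), (0, 3), (1, 0), (1, 2), (2, 1), (2, 6), (3, 0), (3, 5), (4, 5), (4, 8), (5, 3), (5,
      4), (6, 2), (6, 7), (7, 6), (7, 8), (8, 4), (8, 7)]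
    lev := [] }
  links := [[1, 5, 6, 7], [5, 0, 7, 2, 8], [8, 1, 7, 3, 4, 9, 10], [4, 2, 7, 11], [9, 2, 3, 11, 12, 13]]
  P := {
    a := 5
    N := 14
    nb := [226, 421, 1946, 2196, 14860, 323, 161, 2127, 1062, 9236, 772, 4248, 10256, 4624]
    tri := [(0, 1, 5), (0, 1, 7), (0, 5, 6), (0, 6, 7), (1, 2, 7), (1, 2, 8), (1, 5, 8), (2, 3, 4), (2,
      3, 7), (2, 4, 9), (2, 8, 10), (2, 9, 10), (3, 4, 11), (3, 7, 11), (4, 9, 13), (4, 11, 12),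
      (4, 12, 13)]
    fin := [0, 0, 2, 2, 4, 0, 6, 2, 2, 4, 10, 4, 12, 13]
    chd := []
    steps := [(0, 1), (0, 5), (2, 3), (2, 7), (2, 8), (4, 11), (4, 9)] }
  rep := [2, 0, 6, 4, 10, 12, 13]

noncomputable def v288 : Cov.CovD where
  P := 3
  N := 4
  pl := [0, 1, 5, 7, 8]
  lev := [⟨[], [], [], [1, 2], [(2, 0, [])]⟩,
    ⟨[], [(0, 0)], [(0, 0)], [1], [(2, 0, []), (3, 0, [])]⟩,
    ⟨[(0, 1)], [(0, 0), (1, 0), (1, 3)], [(0, 0), (0, 3)], [4], [(2, 0, []), (3, 0, []),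
      (4, 3, [])]⟩,
    ⟨[(1, 2)], [(0, 0), (1, 0), (2, 0), (2, 3)], [(0, 3)], [], [(2, 0, []), (6, 3, [])]⟩,
    ⟨[(1, 2), (2, 3)], [(2, 0), (2, 3), (3, 0), (3, 3)], [(3, 3)], [5, 6], [(4, 3, []), (6,
      3, [])]⟩]
  Ta := [((2, 1), 0, 2), ((2, 6), 0, 3), ((3, 0), 0, 1), ((3, 5), 0, 4), ((4, 5), 3, 4), ((4, 8),
    3, 6), ((6, 2), 3, 0), ((6, 7), 3, 5)]
  Tb := [((0, 1, 3), 1, 2, 0), ((1, 0, 2), 2, 1, 0), ((2, 1, 6), 0, 2, 3), ((3, 0, 5), 0, 1, 4),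
    ((4, 5, 8), 3, 4, 6), ((5, 3, 4), 4, 0, 3), ((6, 2, 7), 3, 0, 5), ((7, 6, 8), 5, 3, 6),
    ((8, 4, 7), 6, 3, 5)]
  Tc := []
  Td := []
  G := [[0, 0, 0xf84f2f4ac8, 0xf84f4f4ac8, 0xf8f86f28c8], [0, 0, 0xf2f4688, 0xf2f4688,
    0xf2f8a48], [0, 0xf2a5a6f48c8, 0, 0x9694f2f8ac8, 0xf2f46f48c8], [0, 0xd292f2864, 0,
    0xb43f8a48, 0xf2f8a41]]

noncomputable def n288 : Ent := ⟨e288, noF, [], [], [(6, 11, [19926932677925709296473841916494848696430411104333721601, 0])]⟩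

def c288 : PLift (Cov.check n288.C.D v288 = true) := ⟨by decide +kernel⟩

def b288 : PLift (entF (fidx ts) 400 288 n288 = true) := ⟨by decide +kernel⟩

theorem g288 : GoodF (fidx ts) 400 288 := GoodF.ofV v288 n288 c288.down b288.down

/-- 45744:240/1 -/
noncomputable def e289 : SCfg where
  D := {
    a := 5
    L := 7
    kp := 5
    inn := [(0, 1), (1, 0), (1, 2), (2, 1), (2, 3), (2, 4), (3, 2), (4, 2)]
    mix := [(0, 0), (0, 1), (0, 2), (1, 0), (1, 2), (1, 3), (2, 2), (2, 3), (2, 4), (2, 5), (3, 1), (3,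
      2), (3, 4), (4, 3), (4, 5), (4, 6)]
    cl := [2, 1, 0, 3, 4, 0, 5]
    chq := [(0, 3), (1, 3), (3, 0), (3, 1)]
    rng := [(0, 1), (0, 3), (1, 0), (1, 2), (1, 4), (2, 1), (3, 0), (3, 6), (4, 1), (4, 5), (5, 4), (5,
      6), (6, 3), (6, 5)]
    lev := [] }
  links := [[1, 5, 6, 7], [5, 0, 7, 2, 8], [8, 1, 7, 3, 9, 10, 4], [9, 2, 7, 6], [8, 2, 10, 11]]
  P := {
    a := 5
    N := 12
    nb := [226, 421, 1946, 708, 3332, 323, 681, 79, 2102, 1100, 2580, 1296]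
    tri := [(0, 1, 5), (0, 1, 7), (0, 5, 6), (0, 6, 7), (1, 2, 7), (1, 2, 8), (1, 5, 8), (2, 3, 7), (2,
      3, 9), (2, 4, 8), (2, 4, 10), (2, 9, 10), (3, 6, 7), (3, 6, 9), (4, 8, 11), (4, 10, 11)]
    fin := [0, 0, 2, 0, 2, 5, 0, 2, 8, 9, 2, 11]
    chd := [(0, 8), (2, 8)]
    steps := [(0, 1), (0, 6), (2, 4), (2, 7), (0, 3), (2, 10)] }
  rep := [2, 0, 5, 8, 9, 11]

noncomputable def v289 : Cov.CovD where
  P := 3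
  N := 3
  pl := [0, 4, 6]
  lev := [⟨[], [], [(0, 1)], [2], [(1, 1, [3]), (2, 0, [3])]⟩,
    ⟨[], [(0, 0), (0, 1), (0, 3)], [(0, 3)], [2], [(2, 0, [3]), (3, 3, [0, 1])]⟩,
    ⟨[(0, 1)], [(0, 0), (1, 0), (1, 3)], [(0, 0), (0, 3)], [4], [(2, 0, [3]), (3, 3, [0,
      1]), (5, 0, [3])]⟩,
    ⟨[(1, 2)], [(0, 0), (0, 1), (1, 0), (2, 0), (2, 1), (2, 3)], [(0, 1)], [4], [(1, 1,
      [3]), (2, 0, [3])]⟩,
    ⟨[(1, 2), (2, 3)], [(1, 3), (2, 0), (2, 3)], [(0, 3)], [5], [(3, 3, [0, 1]), (5, 0,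
      [3])]⟩]
  Ta := [((2, 1), 0, 1), ((5, 4), 0, 4), ((5, 6), 0, 5)]
  Tb := [((0, 1, 3), 2, 1, 3), ((1, 0, 2), 1, 2, 0), ((1, 0, 4), 1, 2, 4), ((1, 2, 4), 1, 0, 4),
    ((3, 0, 6), 3, 2, 5), ((4, 1, 5), 4, 1, 0), ((5, 4, 6), 0, 4, 5), ((6, 3, 5), 5, 3, 0)]
  Tc := [(3, 0, 1)]
  Td := [((0, 3), (2, 1), 1), ((0, 3), (5, 4), 4), ((0, 3), (5, 6), 5), ((1, 3), (1, 0), 2), ((1,
    3), (1, 2), 0), ((1, 3), (1, 4), 4), ((3, 0), (3, 0), 2), ((3, 0), (3, 6), 5), ((3, 1),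
    (3, 0), 2), ((3, 1), (3, 6), 5)]
  G := [[0, 0x11a186411612a8c, 0x181411ce24, 0x11c266c2c4, 0x18b4d1ce28], [0, 0,
    0x8252682289245ce8, 0xa12e6c298, 0xa161c6ac238]]

noncomputable def n289 : Ent := ⟨e289, noF, [], [], []⟩

def c289 : PLift (Cov.check n289.C.D v289 = true) := ⟨by decide +kernel⟩

def b289 : PLift (entF (fidx ts) 400 289 n289 = true) := ⟨by decide +kernel⟩

theorem g289 : GoodF (fidx ts) 400 289 := GoodF.ofV v289 n289 c289.down b289.down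

/-- 45744:240 -/
noncomputable def e290 : SCfg where
  D := {
    a := 5
    L := 8
    kp := 6
    inn := [(0, 1), (1, 0), (1, 2), (2, 1), (2, 3), (2, 4), (3, 2), (4, 2)]
    mix := [(0, 0), (0, 1), (0, 2), (1, 0), (1, 2), (1, 3), (2, 2), (2, 3), (2, 4), (2, 5), (3, 2), (3,
      4), (3, 6), (4, 3), (4, 5), (4, 7)]
    cl := [1, 2, 0, 0, 3, 4, 5, 6]
    chq := [(0, 3), (0, 4), (3, 0), (4, 0)]
    rng := [(0, 1), (0, 3), (1, 0), (1, 2), (2, 1), (2, 6), (3, 0), (3, 7), (4, 5), (4, 6), (5, 4), (5,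
      7), (6, 2), (6, 4), (7, 3), (7, 5)]
    lev := [] }
  links := [[1, 5, 6, 7], [5, 0, 7, 2, 8], [8, 1, 7, 3, 9, 10, 4], [9, 2, 7, 11], [8, 2, 10, 12]]
  P := {
    a := 5
    N := 13
    nb := [226, 421, 1946, 2692, 5380, 323, 161, 2127, 4150, 3084, 4628, 648, 1296]
    tri := [(0, 1, 5), (0, 1, 7), (0, 5, 6), (0, 6, 7), (1, 2, 7), (1, 2, 8), (1, 5, 8), (2, 3, 7), (2,
      3, 9), (2, 4, 8), (2, 4, 10), (2, 9, 10), (3, 7, 11), (3, 9, 11), (4, 8, 12), (4, 10, 12)]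
    fin := [0, 0, 2, 2, 2, 0, 6, 2, 2, 9, 10, 11, 12]
    chd := [(2, 9), (2, 10)]
    steps := [(0, 1), (0, 5), (2, 3), (2, 4), (2, 7), (2, 8)] }
  rep := [2, 0, 6, 9, 10, 11, 12]

noncomputable def v290 : Cov.CovD where
  P := 3
  N := 4
  pl := [0, 1, 6, 7]
  lev := [⟨[], [], [], [1, 2], [(2, 0, [3, 4])]⟩,
    ⟨[], [(0, 0)], [(0, 0)], [1], [(2, 0, [3, 4]), (3, 0, [3, 4])]⟩,
    ⟨[(0, 1)], [(0, 0), (1, 0), (1, 3), (1, 4)], [(0, 0), (0, 3), (0, 4), (3, 4)], [], [(2,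
      0, [3, 4]), (3, 0, [3, 4]), (4, 3, [0]), (5, 4, [0])]⟩,
    ⟨[(1, 2)], [(0, 0), (1, 0), (2, 0), (2, 3), (2, 4)], [(0, 3)], [5], [(2, 0, [3, 4]),
      (4, 3, [0])]⟩,
    ⟨[(1, 2), (2, 3)], [(1, 0), (2, 0), (2, 3), (2, 4)], [(0, 4)], [6], [(3, 0, [3, 4]),
      (5, 4, [0])]⟩]
  Ta := [((2, 1), 0, 2), ((2, 6), 0, 5), ((3, 0), 0, 1), ((3, 7), 0, 6)]
  Tb := [((0, 1, 3), 1, 2, 0), ((1, 0, 2), 2, 1, 0), ((2, 1, 6), 0, 2, 5), ((3, 0, 7), 0, 1, 6),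
    ((4, 5, 6), 3, 4, 5), ((5, 4, 7), 4, 3, 6), ((6, 2, 4), 5, 0, 3), ((7, 3, 5), 6, 0, 4)]
  Tc := [(0, 3, 4)]
  Td := [((0, 3), (2, 1), 2), ((0, 3), (2, 6), 5), ((0, 3), (3, 0), 1), ((0, 3), (3, 7), 6), ((0,
    4), (2, 1), 2), ((0, 4), (2, 6), 5), ((0, 4), (3, 0), 1), ((0, 4), (3, 7), 6), ((3, 0),
    (4, 5), 4), ((3, 0), (4, 6), 5), ((4, 0), (5, 4), 3), ((4, 0), (5, 7), 6)]
  G := [[0, 0, 0x111e111e6111e8c4, 0x611e6ade61a1e8c4, 0x131e47a1e15deac8], [0, 0xe12e1e1c68, 0,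
    0x1e341e51e9ac8, 0x1e541e31e9ac8]]

noncomputable def n290 : Ent := ⟨e290, noF, [], [], [(6, 11, [4490646669154137815330563540829309386802515930124289, 0])]⟩

def c290 : PLift (Cov.check n290.C.D v290 = true) := ⟨by decide +kernel⟩

def b290 : PLift (entF (fidx ts) 400 290 n290 = true) := ⟨by decide +kernel⟩

theorem g290 : GoodF (fidx ts) 400 290 := GoodF.ofV v290 n290 c290.down b290.down

/-- 45774:241/1 -/
noncomputable def e291 : SCfg where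
  D := {
    a := 5
    L := 10
    kp := 8
    inn := [(0, 1), (1, 0), (1, 2), (2, 1), (2, 3), (2, 4), (3, 2), (4, 2)]
    mix := [(0, 0), (0, 1), (0, 2), (1, 0), (1, 2), (1, 3), (2, 2), (2, 3), (2, 4), (2, 5), (3, 0), (3,
      3), (3, 5), (3, 6), (3, 7), (3, 8), (4, 4), (4, 5), (4, 9)]
    cl := [1, 7, 0, 0, 2, 3, 4, 5, 6, 8]
    chq := [(1, 2), (2, 1), (2, 3), (2, 4), (2, 5), (2, 6), (3, 2), (4, 2), (5, 2), (6, 2)]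
    rng := [(0, 1), (0, 3), (0, 8), (1, 0), (1, 2), (2, 1), (2, 4), (3, 0), (4, 2), (4, 9), (5, 6), (5,
      9), (6, 5), (6, 7), (7, 6), (7, 8), (8, 0), (8, 7), (9, 4), (9, 5)]
    lev := [] }
  links := [[1, 5, 6, 7], [5, 0, 7, 2, 8], [8, 1, 7, 9, 4, 10, 3], [8, 2, 10, 11, 12, 13, 5], [10, 2, 9,
    14]]
  P := {
    a := 5
    N := 15
    nb := [226, 421, 1946, 15652, 17924, 8523, 161, 583, 46, 16532, 18460, 5128, 10248, 4136, 1552]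
    tri := [(0, 1, 5), (0, 1, 7), (0, 5, 6), (0, 6, 7), (1, 2, 7), (1, 2, 8), (1, 5, 8), (2, 3, 8), (2,
      3, 10), (2, 4, 9), (2, 4, 10), (2, 7, 9), (3, 5, 8), (3, 5, 13), (3, 10, 11), (3, 11, 12),
      (3, 12, 13), (4, 9, 14), (4, 10, 14)]
    fin := [0, 1, 2, 2, 2, 0, 6, 1, 1, 2, 10, 11, 12, 13, 14]
    chd := [(0, 2), (2, 10), (2, 11), (2, 12), (2, 13)]
    steps := [(0, 5), (1, 7), (1, 8), (2, 3), (2, 4), (2, 9)] }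
  rep := [1, 0, 2, 10, 11, 12, 13, 6, 14]

noncomputable def v291 : Cov.CovD where
  P := 3
  N := 6
  pl := [1, 9]
  lev := [⟨[], [], [(0, 1)], [7], [(0, 1, [2]), (2, 0, [])]⟩,
    ⟨[], [(0, 0), (0, 1)], [(0, 0), (0, 1)], [], [(0, 1, [2]), (2, 0, []), (3, 0, [])]⟩,
    ⟨[(0, 1)], [(0, 0), (1, 0), (1, 1), (1, 2), (1, 3)], [(0, 0), (0, 2), (0, 3), (2, 3)],
      [], [(2, 0, []), (3, 0, []), (4, 2, [1, 3, 4, 5, 6]), (5, 3, [2])]⟩,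
    ⟨[(1, 2)], [(0, 1), (1, 0), (1, 1), (2, 0), (2, 1), (2, 2), (2, 3), (2, 4), (2, 5), (2,
      6)], [(0, 1), (0, 3), (0, 4), (0, 5), (0, 6), (1, 3), (1, 4), (1, 5), (1, 6), (3, 4),
      (3, 5), (3, 6), (4, 5), (4, 6), (5, 6)], [], [(0, 1, [2]), (3, 0, []), (5, 3, [2]), (6,
      4, [2]), (7, 5, [2]), (8, 6, [2])]⟩,
    ⟨[(1, 2), (2, 3)], [(2, 0), (2, 2), (2, 3), (3, 3)], [(2, 3)], [8], [(4, 2, [1, 3, 4,
      5, 6]), (5, 3, [2])]⟩]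
  Ta := [((2, 1), 0, 7), ((2, 4), 0, 2), ((3, 0), 0, 1)]
  Tb := [((0, 1, 3), 1, 7, 0), ((0, 1, 8), 1, 7, 6), ((0, 3, 8), 1, 0, 6), ((1, 0, 2), 7, 1, 0),
    ((2, 1, 4), 0, 7, 2), ((4, 2, 9), 2, 0, 8), ((5, 6, 9), 3, 4, 8), ((6, 5, 7), 4, 3, 5),
    ((7, 6, 8), 5, 4, 6), ((8, 0, 7), 6, 1, 5), ((9, 4, 5), 8, 2, 3)]
  Tc := [(2, 1, 3), (2, 1, 4), (2, 1, 5), (2, 1, 6), (2, 3, 4), (2, 3, 5), (2, 3, 6), (2, 4, 5),
    (2, 4, 6), (2, 5, 6)]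
  Td := [((1, 2), (0, 1), 7), ((1, 2), (0, 3), 0), ((1, 2), (0, 8), 6), ((2, 1), (4, 2), 0), ((2,
    1), (4, 9), 8), ((2, 3), (4, 2), 0), ((2, 3), (4, 9), 8), ((2, 4), (4, 2), 0), ((2, 4),
    (4, 9), 8), ((2, 5), (4, 2), 0), ((2, 5), (4, 9), 8), ((2, 6), (4, 2), 0), ((2, 6), (4,
    9), 8), ((3, 2), (5, 6), 4), ((3, 2), (5, 9), 8), ((4, 2), (6, 5), 3), ((4, 2), (6, 7),
    5), ((5, 2), (7, 6), 4), ((5, 2), (7, 8), 6), ((6, 2), (8, 0), 1), ((6, 2), (8, 7), 5)]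
  G := [[0, 0, 0xc161a4c161a4c, 0x2222c42222c8c, 0x9434a49434a4c], [0, 0x9252c29252c2a, 0,
    0x2222c41, 0x9434a41]]

noncomputable def n291 : Ent := ⟨e291, noF, [], [], []⟩

def c291 : PLift (Cov.check n291.C.D v291 = true) := ⟨by decide +kernel⟩

def b291 : PLift (entF (fidx ts) 400 291 n291 = true) := ⟨by decide +kernel⟩

theorem g291 : GoodF (fidx ts) 400 291 := GoodF.ofV v291 n291 c291.down b291.down

/-- 45774:241 -/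
noncomputable def e292 : SCfg where
  D := {
    a := 5
    L := 11
    kp := 9
    inn := [(0, 1), (1, 0), (1, 2), (2, 1), (2, 3), (2, 4), (3, 2), (4, 2)]
    mix := [(0, 0), (0, 1), (0, 2), (1, 0), (1, 2), (1, 3), (2, 2), (2, 3), (2, 4), (2, 5), (3, 3), (3,
      5), (3, 6), (3, 7), (3, 8), (3, 9), (4, 4), (4, 5), (4, 10)]
    cl := [2, 8, 0, 0, 1, 3, 4, 5, 6, 7, 9]
    chq := [(1, 3), (1, 4), (1, 5), (1, 6), (1, 7), (3, 1), (4, 1), (5, 1), (6, 1), (7, 1)]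
    rng := [(0, 1), (0, 3), (1, 0), (1, 2), (2, 1), (2, 4), (3, 0), (3, 9), (4, 2), (4, 10), (5, 6),
      (5, 10), (6, 5), (6, 7), (7, 6), (7, 8), (8, 7), (8, 9), (9, 3), (9, 8), (10, 4), (10, 5)]
    lev := [] }
  links := [[1, 5, 6, 7], [5, 0, 7, 2, 8], [8, 1, 7, 9, 4, 10, 3], [8, 2, 10, 11, 12, 13, 14], [10, 2, 9,
    15]]
  P := {
    a := 5
    N := 16
    nb := [226, 421, 1946, 32004, 34308, 323, 161, 583, 16430, 32916, 34844, 5128, 10248, 20488, 8456,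
      1552]
    tri := [(0, 1, 5), (0, 1, 7), (0, 5, 6), (0, 6, 7), (1, 2, 7), (1, 2, 8), (1, 5, 8), (2, 3, 8), (2,
      3, 10), (2, 4, 9), (2, 4, 10), (2, 7, 9), (3, 8, 14), (3, 10, 11), (3, 11, 12), (3, 12, 13),
      (3, 13, 14), (4, 9, 15), (4, 10, 15)]
    fin := [0, 1, 2, 2, 2, 0, 6, 1, 1, 2, 10, 11, 12, 13, 14, 15]
    chd := [(2, 10), (2, 11), (2, 12), (2, 13), (2, 14)]
    steps := [(0, 5), (1, 7), (1, 8), (2, 3), (2, 4), (2, 9)] }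
  rep := [1, 2, 0, 10, 11, 12, 13, 14, 6, 15]

noncomputable def v292 : Cov.CovD where
  P := 3
  N := 7
  pl := [0, 1, 10]
  lev := [⟨[], [], [], [2, 8], [(2, 0, [])]⟩,
    ⟨[], [(0, 0)], [(0, 0)], [2], [(2, 0, []), (3, 0, [])]⟩,
    ⟨[(0, 1)], [(0, 0), (1, 0), (1, 1), (1, 3)], [(0, 0), (0, 1), (0, 3), (1, 3)], [], [(2,
      0, []), (3, 0, []), (4, 1, [3, 4, 5, 6, 7]), (5, 3, [1])]⟩,
    ⟨[(1, 2)], [(1, 0), (2, 0), (2, 1), (2, 3), (2, 4), (2, 5), (2, 6), (2, 7)], [(0, 3),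
      (0, 4), (0, 5), (0, 6), (0, 7), (3, 4), (3, 5), (3, 6), (3, 7), (4, 5), (4, 6), (4, 7),
      (5, 6), (5, 7), (6, 7)], [], [(3, 0, []), (5, 3, [1]), (6, 4, [1]), (7, 5, [1]), (8, 6,
      [1]), (9, 7, [1])]⟩,
    ⟨[(1, 2), (2, 3)], [(2, 0), (2, 1), (2, 3), (3, 3)], [(1, 3)], [9], [(4, 1, [3, 4, 5,
      6, 7]), (5, 3, [1])]⟩]
  Ta := [((2, 1), 0, 8), ((2, 4), 0, 1), ((3, 0), 0, 2), ((3, 9), 0, 7)]
  Tb := [((0, 1, 3), 2, 8, 0), ((1, 0, 2), 8, 2, 0), ((2, 1, 4), 0, 8, 1), ((3, 0, 9), 0, 2, 7),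
    ((4, 2, 10), 1, 0, 9), ((5, 6, 10), 3, 4, 9), ((6, 5, 7), 4, 3, 5), ((7, 6, 8), 5, 4, 6),
    ((8, 7, 9), 6, 5, 7), ((9, 3, 8), 7, 0, 6), ((10, 4, 5), 9, 1, 3)]
  Tc := [(1, 3, 4), (1, 3, 5), (1, 3, 6), (1, 3, 7), (1, 4, 5), (1, 4, 6), (1, 4, 7), (1, 5, 6),
    (1, 5, 7), (1, 6, 7)]
  Td := [((1, 3), (4, 2), 0), ((1, 3), (4, 10), 9), ((1, 4), (4, 2), 0), ((1, 4), (4, 10), 9),
    ((1, 5), (4, 2), 0), ((1, 5), (4, 10), 9), ((1, 6), (4, 2), 0), ((1, 6), (4, 10), 9),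
    ((1, 7), (4, 2), 0), ((1, 7), (4, 10), 9), ((3, 1), (5, 6), 4), ((3, 1), (5, 10), 9),
    ((4, 1), (6, 5), 3), ((4, 1), (6, 7), 5), ((5, 1), (7, 6), 4), ((5, 1), (7, 8), 6), ((6,
    1), (8, 7), 5), ((6, 1), (8, 9), 7), ((7, 1), (9, 3), 0), ((7, 1), (9, 8), 6)]
  G := [[0, 0xc1a168c161a4c, 0, 0x524928c524928cc, 0x9252c29252c2a], [0, 0, 0x9252c29252c2c,
    0x524928c1, 0x9252c21]]

noncomputable def n292 : Ent := ⟨e292, noF, [], [], [(5, 14, [385746751338780685620664494392815470296102193487288376373686273, 0])]⟩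

def c292 : PLift (Cov.check n292.C.D v292 = true) := ⟨by decide +kernel⟩

def b292 : PLift (entF (fidx ts) 400 292 n292 = true) := ⟨by decide +kernel⟩

theorem g292 : GoodF (fidx ts) 400 292 := GoodF.ofV v292 n292 c292.down b292.down

/-- 45774:242/1 -/
noncomputable def e293 : SCfg where
  D := {
    a := 5
    L := 9
    kp := 7
    inn := [(0, 1), (1, 0), (1, 2), (2, 1), (2, 3), (2, 4), (3, 2), (3, 4), (4, 2), (4, 3)]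
    mix := [(0, 0), (0, 1), (0, 2), (1, 0), (1, 2), (1, 3), (2, 2), (2, 3), (2, 4), (2, 5), (3, 0), (3,
      3), (3, 6), (3, 7), (3, 8), (4, 5), (4, 6)]
    cl := [1, 7, 0, 0, 2, 4, 3, 5, 6]
    chq := [(1, 2), (2, 1), (2, 3), (2, 5), (2, 6), (3, 2), (5, 2), (6, 2)]
    rng := [(0, 1), (0, 3), (0, 8), (1, 0), (1, 2), (2, 1), (2, 4), (3, 0), (4, 2), (4, 5), (5, 4), (5,
      6), (6, 5), (6, 7), (7, 6), (7, 8), (8, 0), (8, 7)]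
    lev := [] }
  links := [[1, 5, 6, 7], [5, 0, 7, 2, 8], [8, 1, 7, 9, 10, 4, 3], [8, 2, 4, 11, 12, 13, 5], [11, 3, 2,
    10]]
  P := {
    a := 5
    N := 14
    nb := [226, 421, 1946, 14644, 3084, 8523, 161, 583, 46, 1156, 2580, 5144, 10248, 4136]
    tri := [(0, 1, 5), (0, 1, 7), (0, 5, 6), (0, 6, 7), (1, 2, 7), (1, 2, 8), (1, 5, 8), (2, 3, 4), (2,
      3, 8), (2, 4, 10), (2, 7, 9), (2, 9, 10), (3, 4, 11), (3, 5, 8), (3, 5, 13), (3, 11, 12),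
      (3, 12, 13), (4, 10, 11)]
    fin := [0, 1, 2, 2, 2, 0, 6, 1, 1, 2, 10, 11, 12, 13]
    chd := [(0, 2), (2, 11), (2, 12), (2, 13)]
    steps := [(0, 5), (1, 7), (1, 8), (2, 3), (2, 4), (2, 9)] }
  rep := [1, 0, 2, 11, 10, 12, 13, 6]

noncomputable def v293 : Cov.CovD where
  P := 3
  N := 5
  pl := [1, 5]
  lev := [⟨[], [], [(0, 1)], [7], [(0, 1, [2]), (2, 0, [])]⟩,
    ⟨[], [(0, 0), (0, 1)], [(0, 0), (0, 1)], [], [(0, 1, [2]), (2, 0, []), (3, 0, [])]⟩,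
    ⟨[(0, 1)], [(0, 0), (1, 0), (1, 1), (1, 2)], [(0, 0), (0, 2)], [4], [(2, 0, []), (3, 0,
      []), (4, 2, [1, 3, 5, 6])]⟩,
    ⟨[(1, 2)], [(0, 1), (1, 0), (1, 1), (2, 0), (2, 1), (2, 2), (2, 3), (2, 5), (2, 6)],
      [(0, 1), (0, 3), (0, 5), (0, 6), (1, 3), (1, 5), (1, 6), (3, 5), (3, 6), (5, 6)], [],
      [(0, 1, [2]), (3, 0, []), (6, 3, [2]), (7, 5, [2]), (8, 6, [2])]⟩,
    ⟨[(1, 2), (2, 3)], [(2, 0), (2, 2), (2, 3), (3, 0), (3, 1), (3, 3), (3, 5), (3, 6)],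
      [], [4], [(6, 3, [2])]⟩]
  Ta := [((2, 1), 0, 7), ((2, 4), 0, 2), ((3, 0), 0, 1)]
  Tb := [((0, 1, 3), 1, 7, 0), ((0, 1, 8), 1, 7, 6), ((0, 3, 8), 1, 0, 6), ((1, 0, 2), 7, 1, 0),
    ((2, 1, 4), 0, 7, 2), ((4, 2, 5), 2, 0, 4), ((5, 4, 6), 4, 2, 3), ((6, 5, 7), 3, 4, 5),
    ((7, 6, 8), 5, 3, 6), ((8, 0, 7), 6, 1, 5)]
  Tc := [(2, 1, 3), (2, 1, 5), (2, 1, 6), (2, 3, 5), (2, 3, 6), (2, 5, 6)]
  Td := [((1, 2), (0, 1), 7), ((1, 2), (0, 3), 0), ((1, 2), (0, 8), 6), ((2, 1), (4, 2), 0), ((2,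
    1), (4, 5), 4), ((2, 3), (4, 2), 0), ((2, 3), (4, 5), 4), ((2, 5), (4, 2), 0), ((2, 5),
    (4, 5), 4), ((2, 6), (4, 2), 0), ((2, 6), (4, 5), 4), ((3, 2), (6, 5), 4), ((3, 2), (6,
    7), 5), ((5, 2), (7, 6), 3), ((5, 2), (7, 8), 6), ((6, 2), (8, 0), 1), ((6, 2), (8, 7),
    5)]
  G := [[0, 0, 0xc1a168c161a4c, 0x524928c524928cc, 0x9434a49434a4c], [0, 0x9252c29252c26, 0,
    0x524928c1, 0x9434a41]]

noncomputable def n293 : Ent := ⟨e293, noF, [], [], []⟩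

def c293 : PLift (Cov.check n293.C.D v293 = true) := ⟨by decide +kernel⟩

def b293 : PLift (entF (fidx ts) 400 293 n293 = true) := ⟨by decide +kernel⟩

theorem g293 : GoodF (fidx ts) 400 293 := GoodF.ofV v293 n293 c293.down b293.down

/-- 45774:242 -/
noncomputable def e294 : SCfg where
  D := {
    a := 5
    L := 10
    kp := 8
    inn := [(0, 1), (1, 0), (1, 2), (2, 1), (2, 3), (2, 4), (3, 2), (3, 4), (4, 2), (4, 3)]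
    mix := [(0, 0), (0, 1), (0, 2), (1, 0), (1, 2), (1, 3), (2, 2), (2, 3), (2, 4), (2, 5), (3, 3), (3,
      6), (3, 7), (3, 8), (3, 9), (4, 5), (4, 6)]
    cl := [1, 8, 0, 0, 2, 4, 3, 5, 6, 7]
    chq := [(2, 3), (2, 5), (2, 6), (2, 7), (3, 2), (5, 2), (6, 2), (7, 2)]
    rng := [(0, 1), (0, 3), (1, 0), (1, 2), (2, 1), (2, 4), (3, 0), (3, 9), (4, 2), (4, 5), (5, 4), (5,
      6), (6, 5), (6, 7), (7, 6), (7, 8), (8, 7), (8, 9), (9, 3), (9, 8)]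
    lev := [] }
  links := [[1, 5, 6, 7], [5, 0, 7, 2, 8], [8, 1, 7, 9, 10, 4, 3], [8, 2, 4, 11, 12, 13, 14], [11, 3, 2,
    10]]
  P := {
    a := 5
    N := 15
    nb := [226, 421, 1946, 30996, 3084, 323, 161, 583, 16430, 1156, 2580, 5144, 10248, 20488, 8456]
    tri := [(0, 1, 5), (0, 1, 7), (0, 5, 6), (0, 6, 7), (1, 2, 7), (1, 2, 8), (1, 5, 8), (2, 3, 4), (2,
      3, 8), (2, 4, 10), (2, 7, 9), (2, 9, 10), (3, 4, 11), (3, 8, 14), (3, 11, 12), (3, 12, 13),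
      (3, 13, 14), (4, 10, 11)]
    fin := [0, 1, 2, 2, 2, 0, 6, 1, 1, 2, 10, 11, 12, 13, 14]
    chd := [(2, 11), (2, 12), (2, 13), (2, 14)]
    steps := [(0, 5), (1, 7), (1, 8), (2, 3), (2, 4), (2, 9)] }
  rep := [1, 0, 2, 11, 10, 12, 13, 14, 6]

noncomputable def v294 : Cov.CovD where
  P := 3
  N := 6
  pl := [0, 1, 5]
  lev := [⟨[], [], [], [1, 8], [(2, 0, [])]⟩,
    ⟨[], [(0, 0)], [(0, 0)], [1], [(2, 0, []), (3, 0, [])]⟩,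
    ⟨[(0, 1)], [(0, 0), (1, 0), (1, 2)], [(0, 0), (0, 2)], [4], [(2, 0, []), (3, 0, []),
      (4, 2, [3, 5, 6, 7])]⟩,
    ⟨[(1, 2)], [(1, 0), (2, 0), (2, 2), (2, 3), (2, 5), (2, 6), (2, 7)], [(0, 3), (0, 5),
      (0, 6), (0, 7), (3, 5), (3, 6), (3, 7), (5, 6), (5, 7), (6, 7)], [], [(3, 0, []), (6,
      3, [2]), (7, 5, [2]), (8, 6, [2]), (9, 7, [2])]⟩,
    ⟨[(1, 2), (2, 3)], [(2, 0), (2, 2), (2, 3), (3, 0), (3, 3), (3, 5), (3, 6), (3, 7)],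
      [], [4], [(6, 3, [2])]⟩]
  Ta := [((2, 1), 0, 8), ((2, 4), 0, 2), ((3, 0), 0, 1), ((3, 9), 0, 7)]
  Tb := [((0, 1, 3), 1, 8, 0), ((1, 0, 2), 8, 1, 0), ((2, 1, 4), 0, 8, 2), ((3, 0, 9), 0, 1, 7),
    ((4, 2, 5), 2, 0, 4), ((5, 4, 6), 4, 2, 3), ((6, 5, 7), 3, 4, 5), ((7, 6, 8), 5, 3, 6),
    ((8, 7, 9), 6, 5, 7), ((9, 3, 8), 7, 0, 6)]
  Tc := [(2, 3, 5), (2, 3, 6), (2, 3, 7), (2, 5, 6), (2, 5, 7), (2, 6, 7)]
  Td := [((2, 3), (4, 2), 0), ((2, 3), (4, 5), 4), ((2, 5), (4, 2), 0), ((2, 5), (4, 5), 4), ((2,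
    6), (4, 2), 0), ((2, 6), (4, 5), 4), ((2, 7), (4, 2), 0), ((2, 7), (4, 5), 4), ((3, 2),
    (6, 5), 4), ((3, 2), (6, 7), 5), ((5, 2), (7, 6), 3), ((5, 2), (7, 8), 6), ((6, 2), (8,
    7), 5), ((6, 2), (8, 9), 7), ((7, 2), (9, 3), 0), ((7, 2), (9, 8), 6)]
  G := [[0, 0, 0xc161a4c1a168c, 0x524928c524928cc, 0x9434a49434a4c], [0, 0x524928c9252c2a, 0,
    0x524928c1, 0x9434a41]]

noncomputable def n294 : Ent := ⟨e294, noF, [], [], [(5, 14, [81620716623019490593592230936445690773474979418095884587009, 0])]⟩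

def c294 : PLift (Cov.check n294.C.D v294 = true) := ⟨by decide +kernel⟩

def b294 : PLift (entF (fidx ts) 400 294 n294 = true) := ⟨by decide +kernel⟩

theorem g294 : GoodF (fidx ts) 400 294 := GoodF.ofV v294 n294 c294.down b294.down

/-- 45764:243/1 -/
noncomputable def e295 : SCfg where
  D := {
    a := 5
    L := 9
    kp := 7
    inn := [(0, 1), (1, 0), (1, 2), (2, 1), (2, 3), (2, 4), (3, 2), (4, 2)]
    mix := [(0, 0), (0, 1), (0, 2), (1, 0), (1, 2), (1, 3), (2, 2), (2, 3), (2, 4), (2, 5), (3, 1), (3,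
      2), (3, 4), (3, 6), (3, 7), (4, 4), (4, 5), (4, 8)]
    cl := [2, 4, 0, 0, 3, 1, 5, 6, 7]
    chq := [(1, 3), (1, 4), (1, 5), (1, 6), (3, 1), (4, 1), (5, 1), (6, 1)]
    rng := [(0, 1), (0, 3), (1, 0), (1, 2), (1, 6), (2, 1), (3, 0), (3, 5), (4, 7), (4, 8), (5, 3), (5,
      8), (6, 1), (6, 7), (7, 4), (7, 6), (8, 4), (8, 5)]
    lev := [] }
  links := [[1, 5, 6, 7], [5, 0, 7, 2, 8], [8, 1, 7, 3, 9, 4, 10], [9, 2, 7, 6, 11, 12], [10, 2, 9, 13]]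
  P := {
    a := 5
    N := 14
    nb := [226, 421, 1946, 6852, 9732, 323, 2217, 79, 1062, 12316, 8468, 4168, 2568, 1552]
    tri := [(0, 1, 5), (0, 1, 7), (0, 5, 6), (0, 6, 7), (1, 2, 7), (1, 2, 8), (1, 5, 8), (2, 3, 7), (2,
      3, 9), (2, 4, 9), (2, 4, 10), (2, 8, 10), (3, 6, 7), (3, 6, 11), (3, 9, 12), (3, 11, 12),
      (4, 9, 13), (4, 10, 13)]
    fin := [0, 1, 2, 2, 4, 0, 6, 1, 1, 4, 2, 11, 12, 13]
    chd := [(2, 11), (2, 12), (4, 2), (6, 2)]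
    steps := [(0, 5), (1, 7), (1, 8), (2, 3), (2, 10), (4, 9)] }
  rep := [1, 2, 0, 4, 6, 11, 12, 13]

noncomputable def v295 : Cov.CovD where
  P := 3
  N := 5
  pl := [0, 8]
  lev := [⟨[], [], [(0, 4)], [2], [(1, 4, [1]), (2, 0, [])]⟩,
    ⟨[], [(0, 0), (0, 4)], [(0, 0)], [2], [(2, 0, []), (3, 0, [])]⟩,
    ⟨[(0, 1)], [(0, 0), (1, 0), (1, 1), (1, 3)], [(0, 0), (0, 1), (0, 3), (1, 3)], [], [(2,
      0, []), (3, 0, []), (4, 3, [1]), (5, 1, [3, 4, 5, 6])]⟩,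
    ⟨[(1, 2)], [(0, 0), (0, 4), (1, 0), (2, 0), (2, 1), (2, 3), (2, 4), (2, 5), (2, 6)],
      [(0, 3), (0, 4), (0, 5), (0, 6), (3, 4), (3, 5), (3, 6), (4, 5), (4, 6), (5, 6)], [],
      [(1, 4, [1]), (2, 0, []), (4, 3, [1]), (6, 5, [1]), (7, 6, [1])]⟩,
    ⟨[(1, 2), (2, 3)], [(2, 0), (2, 1), (2, 3), (3, 3)], [(1, 3)], [7], [(4, 3, [1]), (5,
      1, [3, 4, 5, 6])]⟩]
  Ta := [((2, 1), 0, 4), ((3, 0), 0, 2), ((3, 5), 0, 1)]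
  Tb := [((0, 1, 3), 2, 4, 0), ((1, 0, 2), 4, 2, 0), ((1, 0, 6), 4, 2, 5), ((1, 2, 6), 4, 0, 5),
    ((3, 0, 5), 0, 2, 1), ((4, 7, 8), 3, 6, 7), ((5, 3, 8), 1, 0, 7), ((6, 1, 7), 5, 4, 6),
    ((7, 4, 6), 6, 3, 5), ((8, 4, 5), 7, 3, 1)]
  Tc := [(1, 3, 4), (1, 3, 5), (1, 3, 6), (1, 4, 5), (1, 4, 6), (1, 5, 6)]
  Td := [((1, 3), (5, 3), 0), ((1, 3), (5, 8), 7), ((1, 4), (5, 3), 0), ((1, 4), (5, 8), 7), ((1,
    5), (5, 3), 0), ((1, 5), (5, 8), 7), ((1, 6), (5, 3), 0), ((1, 6), (5, 8), 7), ((3, 1),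
    (4, 7), 6), ((3, 1), (4, 8), 7), ((4, 1), (1, 0), 2), ((4, 1), (1, 2), 0), ((4, 1), (1,
    6), 5), ((5, 1), (6, 1), 4), ((5, 1), (6, 7), 6), ((6, 1), (7, 4), 3), ((6, 1), (7, 6),
    5)]
  G := [[0, 0, 0, 0x524928c524928cc, 0x2222c29252c2a], [0, 0xc161a4c1a168c, 0x2252c89252c26,
    0x524928c1, 0x9252c21]]

noncomputable def n295 : Ent := ⟨e295, noF, [], [], []⟩

def c295 : PLift (Cov.check n295.C.D v295 = true) := ⟨by decide +kernel⟩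

def b295 : PLift (entF (fidx ts) 400 295 n295 = true) := ⟨by decide +kernel⟩

theorem g295 : GoodF (fidx ts) 400 295 := GoodF.ofV v295 n295 c295.down b295.down

/-- 45764:243 -/
noncomputable def e296 : SCfg where
  D := {
    a := 5
    L := 10
    kp := 8
    inn := [(0, 1), (1, 0), (1, 2), (2, 1), (2, 3), (2, 4), (3, 2), (4, 2)]
    mix := [(0, 0), (0, 1), (0, 2), (1, 0), (1, 2), (1, 3), (2, 2), (2, 3), (2, 4), (2, 5), (3, 2), (3,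
      4), (3, 6), (3, 7), (3, 8), (4, 4), (4, 5), (4, 9)]
    cl := [2, 7, 0, 0, 3, 1, 4, 5, 6, 8]
    chq := [(1, 3), (1, 4), (1, 5), (1, 6), (3, 1), (4, 1), (5, 1), (6, 1)]
    rng := [(0, 1), (0, 3), (1, 0), (1, 2), (2, 1), (2, 6), (3, 0), (3, 5), (4, 8), (4, 9), (5, 3), (5,
      9), (6, 2), (6, 7), (7, 6), (7, 8), (8, 4), (8, 7), (9, 4), (9, 5)]
    lev := [] }
  links := [[1, 5, 6, 7], [5, 0, 7, 2, 8], [8, 1, 7, 3, 9, 4, 10], [9, 2, 7, 11, 12, 13], [10, 2, 9, 14]]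
  P := {
    a := 5
    N := 15
    nb := [226, 421, 1946, 14980, 17924, 323, 161, 2127, 1062, 24604, 16660, 4232, 10248, 4616, 1552]
    tri := [(0, 1, 5), (0, 1, 7), (0, 5, 6), (0, 6, 7), (1, 2, 7), (1, 2, 8), (1, 5, 8), (2, 3, 7), (2,
      3, 9), (2, 4, 9), (2, 4, 10), (2, 8, 10), (3, 7, 11), (3, 9, 13), (3, 11, 12), (3, 12, 13),
      (4, 9, 14), (4, 10, 14)]
    fin := [0, 1, 2, 2, 4, 0, 6, 1, 1, 4, 2, 11, 12, 13, 14]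
    chd := [(2, 11), (2, 12), (2, 13), (4, 2)]
    steps := [(0, 5), (1, 7), (1, 8), (2, 3), (2, 10), (4, 9)] }
  rep := [1, 2, 0, 4, 11, 12, 13, 6, 14]

noncomputable def v296 : Cov.CovD where
  P := 3
  N := 6
  pl := [0, 1, 9]
  lev := [⟨[], [], [], [2, 7], [(2, 0, [])]⟩,
    ⟨[], [(0, 0)], [(0, 0)], [2], [(2, 0, []), (3, 0, [])]⟩,
    ⟨[(0, 1)], [(0, 0), (1, 0), (1, 1), (1, 3)], [(0, 0), (0, 1), (0, 3), (1, 3)], [], [(2,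
      0, []), (3, 0, []), (4, 3, [1]), (5, 1, [3, 4, 5, 6])]⟩,
    ⟨[(1, 2)], [(0, 0), (1, 0), (2, 0), (2, 1), (2, 3), (2, 4), (2, 5), (2, 6)], [(0, 3),
      (0, 4), (0, 5), (0, 6), (3, 4), (3, 5), (3, 6), (4, 5), (4, 6), (5, 6)], [], [(2, 0,
      []), (4, 3, [1]), (6, 4, [1]), (7, 5, [1]), (8, 6, [1])]⟩,
    ⟨[(1, 2), (2, 3)], [(2, 0), (2, 1), (2, 3), (3, 3)], [(1, 3)], [8], [(4, 3, [1]), (5,
      1, [3, 4, 5, 6])]⟩]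
  Ta := [((2, 1), 0, 7), ((2, 6), 0, 4), ((3, 0), 0, 2), ((3, 5), 0, 1)]
  Tb := [((0, 1, 3), 2, 7, 0), ((1, 0, 2), 7, 2, 0), ((2, 1, 6), 0, 7, 4), ((3, 0, 5), 0, 2, 1),
    ((4, 8, 9), 3, 6, 8), ((5, 3, 9), 1, 0, 8), ((6, 2, 7), 4, 0, 5), ((7, 6, 8), 5, 4, 6),
    ((8, 4, 7), 6, 3, 5), ((9, 4, 5), 8, 3, 1)]
  Tc := [(1, 3, 4), (1, 3, 5), (1, 3, 6), (1, 4, 5), (1, 4, 6), (1, 5, 6)]
  Td := [((1, 3), (5, 3), 0), ((1, 3), (5, 9), 8), ((1, 4), (5, 3), 0), ((1, 4), (5, 9), 8), ((1,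
    5), (5, 3), 0), ((1, 5), (5, 9), 8), ((1, 6), (5, 3), 0), ((1, 6), (5, 9), 8), ((3, 1),
    (4, 8), 6), ((3, 1), (4, 9), 8), ((4, 1), (6, 2), 0), ((4, 1), (6, 7), 5), ((5, 1), (7,
    6), 4), ((5, 1), (7, 8), 6), ((6, 1), (8, 4), 3), ((6, 1), (8, 7), 5)]
  G := [[0, 0, 0, 0x524928c524928cc, 0x9252c29252c2a], [0, 0xc161a4c161a4c, 0x524928c524928c6,
    0x524928c1, 0x9252c21]]

noncomputable def n296 : Ent := ⟨e296, noF, [], [], [(6, 11, [87899351228091456402997525766823824674129406633600833712129, 0])]⟩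

def c296 : PLift (Cov.check n296.C.D v296 = true) := ⟨by decide +kernel⟩

def b296 : PLift (entF (fidx ts) 400 296 n296 = true) := ⟨by decide +kernel⟩

theorem g296 : GoodF (fidx ts) 400 296 := GoodF.ofV v296 n296 c296.down b296.down

/-- 45774:244/1 -/
noncomputable def e297 : SCfg where
  D := {
    a := 5
    L := 9
    kp := 7
    inn := [(0, 1), (1, 0), (1, 2), (2, 1), (2, 3), (2, 4), (3, 2), (3, 4), (4, 2), (4, 3)]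
    mix := [(0, 0), (0, 1), (0, 2), (1, 0), (1, 2), (1, 3), (2, 2), (2, 3), (2, 4), (2, 5), (3, 1), (3,
      2), (3, 6), (3, 7), (3, 8), (4, 4), (4, 8)]
    cl := [2, 1, 0, 0, 4, 5, 6, 7, 3]
    chq := [(1, 5), (3, 5), (5, 1), (5, 3), (5, 6), (5, 7), (6, 5), (7, 5)]
    rng := [(0, 1), (0, 3), (1, 0), (1, 2), (1, 6), (2, 1), (3, 0), (3, 5), (4, 5), (4, 8), (5, 3), (5,
      4), (6, 1), (6, 7), (7, 6), (7, 8), (8, 4), (8, 7)]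
    lev := [] }
  links := [[1, 5, 6, 7], [5, 0, 7, 2, 8], [8, 1, 7, 3, 4, 9, 10], [4, 2, 7, 6, 11, 12, 13], [9, 2, 3,
    13]]
  P := {
    a := 5
    N := 14
    nb := [226, 421, 1946, 14548, 8716, 323, 2217, 79, 1062, 9236, 772, 4168, 10248, 4632]
    tri := [(0, 1, 5), (0, 1, 7), (0, 5, 6), (0, 6, 7), (1, 2, 7), (1, 2, 8), (1, 5, 8), (2, 3, 4), (2,
      3, 7), (2, 4, 9), (2, 8, 10), (2, 9, 10), (3, 4, 13), (3, 6, 7), (3, 6, 11), (3, 11, 12),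
      (3, 12, 13), (4, 9, 13)]
    fin := [0, 1, 2, 2, 4, 0, 6, 1, 1, 9, 2, 11, 12, 4]
    chd := [(2, 4), (2, 11), (2, 12), (6, 2)]
    steps := [(0, 5), (1, 7), (1, 8), (2, 3), (2, 10), (4, 13)] }
  rep := [1, 6, 0, 4, 9, 2, 11, 12]

noncomputable def v297 : Cov.CovD where
  P := 3
  N := 5
  pl := [0, 4]
  lev := [⟨[], [], [(0, 1)], [2], [(1, 1, [5]), (2, 0, [])]⟩,
    ⟨[], [(0, 0), (0, 1)], [(0, 0)], [2], [(2, 0, []), (3, 0, [])]⟩,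
    ⟨[(0, 1)], [(0, 0), (1, 0), (1, 5)], [(0, 0), (0, 5)], [4], [(2, 0, []), (3, 0, []),
      (5, 5, [1, 3, 6, 7])]⟩,
    ⟨[(1, 2)], [(0, 0), (0, 1), (1, 0), (2, 0), (2, 1), (2, 3), (2, 5), (2, 6), (2, 7)],
      [(0, 1), (0, 3), (0, 6), (0, 7), (1, 3), (1, 6), (1, 7), (3, 6), (3, 7), (6, 7)], [],
      [(1, 1, [5]), (2, 0, []), (6, 6, [5]), (7, 7, [5]), (8, 3, [5])]⟩,
    ⟨[(1, 2), (2, 3)], [(2, 0), (2, 3), (2, 5), (3, 0), (3, 1), (3, 3), (3, 6), (3, 7)],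
      [], [4], [(8, 3, [5])]⟩]
  Ta := [((2, 1), 0, 1), ((3, 0), 0, 2), ((3, 5), 0, 5)]
  Tb := [((0, 1, 3), 2, 1, 0), ((1, 0, 2), 1, 2, 0), ((1, 0, 6), 1, 2, 6), ((1, 2, 6), 1, 0, 6),
    ((3, 0, 5), 0, 2, 5), ((4, 5, 8), 4, 5, 3), ((5, 3, 4), 5, 0, 4), ((6, 1, 7), 6, 1, 7),
    ((7, 6, 8), 7, 6, 3), ((8, 4, 7), 3, 4, 7)]
  Tc := [(5, 1, 3), (5, 1, 6), (5, 1, 7), (5, 3, 6), (5, 3, 7), (5, 6, 7)]
  Td := [((1, 5), (1, 0), 2), ((1, 5), (1, 2), 0), ((1, 5), (1, 6), 6), ((3, 5), (8, 4), 4), ((3,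
    5), (8, 7), 7), ((5, 1), (5, 3), 0), ((5, 1), (5, 4), 4), ((5, 3), (5, 3), 0), ((5, 3),
    (5, 4), 4), ((5, 6), (5, 3), 0), ((5, 6), (5, 4), 4), ((5, 7), (5, 3), 0), ((5, 7), (5,
    4), 4), ((6, 5), (6, 1), 1), ((6, 5), (6, 7), 7), ((7, 5), (7, 6), 6), ((7, 5), (7, 8),
    3)]
  G := [[0, 0x736dfabdce84, 0, 0x5849433cac8, 0x55a33c69968a8], [0, 0, 0x55a33c69968a8,
    0x58336d69c58c4, 0x55cba3ad69968a8]]

noncomputable def n297 : Ent := ⟨e297, noF, [], [], []⟩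

def c297 : PLift (Cov.check n297.C.D v297 = true) := ⟨by decide +kernel⟩

def b297 : PLift (entF (fidx ts) 400 297 n297 = true) := ⟨by decide +kernel⟩

theorem g297 : GoodF (fidx ts) 400 297 := GoodF.ofV v297 n297 c297.down b297.down

/-- 45774:244 -/
noncomputable def e298 : SCfg where
  D := {
    a := 5
    L := 10
    kp := 8
    inn := [(0, 1), (1, 0), (1, 2), (2, 1), (2, 3), (2, 4), (3, 2), (3, 4), (4, 2), (4, 3)]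
    mix := [(0, 0), (0, 1), (0, 2), (1, 0), (1, 2), (1, 3), (2, 2), (2, 3), (2, 4), (2, 5), (3, 2), (3,
      6), (3, 7), (3, 8), (3, 9), (4, 4), (4, 9)]
    cl := [1, 8, 0, 0, 4, 2, 5, 6, 7, 3]
    chq := [(2, 3), (2, 5), (2, 6), (2, 7), (3, 2), (5, 2), (6, 2), (7, 2)]
    rng := [(0, 1), (0, 3), (1, 0), (1, 2), (2, 1), (2, 6), (3, 0), (3, 5), (4, 5), (4, 9), (5, 3), (5,
      4), (6, 2), (6, 7), (7, 6), (7, 8), (8, 7), (8, 9), (9, 4), (9, 8)]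
    lev := [] }
  links := [[1, 5, 6, 7], [5, 0, 7, 2, 8], [8, 1, 7, 3, 4, 9, 10], [4, 2, 7, 11, 12, 13, 14], [9, 2, 3,
    14]]
  P := {
    a := 5
    N := 15
    nb := [226, 421, 1946, 30868, 16908, 323, 161, 2127, 1062, 17428, 772, 4232, 10248, 20488, 8728]
    tri := [(0, 1, 5), (0, 1, 7), (0, 5, 6), (0, 6, 7), (1, 2, 7), (1, 2, 8), (1, 5, 8), (2, 3, 4), (2,
      3, 7), (2, 4, 9), (2, 8, 10), (2, 9, 10), (3, 4, 14), (3, 7, 11), (3, 11, 12), (3, 12, 13),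
      (3, 13, 14), (4, 9, 14)]
    fin := [0, 1, 2, 2, 4, 0, 6, 1, 1, 9, 2, 11, 12, 13, 4]
    chd := [(2, 4), (2, 11), (2, 12), (2, 13)]
    steps := [(0, 5), (1, 7), (1, 8), (2, 3), (2, 10), (4, 14)] }
  rep := [1, 0, 2, 4, 9, 11, 12, 13, 6]

noncomputable def v298 : Cov.CovD where
  P := 3
  N := 6
  pl := [0, 1, 4]
  lev := [⟨[], [], [], [1, 8], [(2, 0, [])]⟩,
    ⟨[], [(0, 0)], [(0, 0)], [1], [(2, 0, []), (3, 0, [])]⟩,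
    ⟨[(0, 1)], [(0, 0), (1, 0), (1, 2)], [(0, 0), (0, 2)], [4], [(2, 0, []), (3, 0, []),
      (5, 2, [3, 5, 6, 7])]⟩,
    ⟨[(1, 2)], [(0, 0), (1, 0), (2, 0), (2, 2), (2, 3), (2, 5), (2, 6), (2, 7)], [(0, 3),
      (0, 5), (0, 6), (0, 7), (3, 5), (3, 6), (3, 7), (5, 6), (5, 7), (6, 7)], [], [(2, 0,
      []), (6, 5, [2]), (7, 6, [2]), (8, 7, [2]), (9, 3, [2])]⟩,
    ⟨[(1, 2), (2, 3)], [(2, 0), (2, 2), (2, 3), (3, 0), (3, 3), (3, 5), (3, 6), (3, 7)],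
      [], [4], [(9, 3, [2])]⟩]
  Ta := [((2, 1), 0, 8), ((2, 6), 0, 5), ((3, 0), 0, 1), ((3, 5), 0, 2)]
  Tb := [((0, 1, 3), 1, 8, 0), ((1, 0, 2), 8, 1, 0), ((2, 1, 6), 0, 8, 5), ((3, 0, 5), 0, 1, 2),
    ((4, 5, 9), 4, 2, 3), ((5, 3, 4), 2, 0, 4), ((6, 2, 7), 5, 0, 6), ((7, 6, 8), 6, 5, 7),
    ((8, 7, 9), 7, 6, 3), ((9, 4, 8), 3, 4, 7)]
  Tc := [(2, 3, 5), (2, 3, 6), (2, 3, 7), (2, 5, 6), (2, 5, 7), (2, 6, 7)]
  Td := [((2, 3), (5, 3), 0), ((2, 3), (5, 4), 4), ((2, 5), (5, 3), 0), ((2, 5), (5, 4), 4), ((2,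
    6), (5, 3), 0), ((2, 6), (5, 4), 4), ((2, 7), (5, 3), 0), ((2, 7), (5, 4), 4), ((3, 2),
    (9, 4), 4), ((3, 2), (9, 8), 7), ((5, 2), (6, 2), 0), ((5, 2), (6, 7), 6), ((6, 2), (7,
    6), 5), ((6, 2), (7, 8), 7), ((7, 2), (8, 7), 6), ((7, 2), (8, 9), 3)]
  G := [[0, 0, 0, 0x524928c524928cc, 0x9434a49434a4c], [0, 0x9252c29252c2c, 0xc1a168c161a4c,
    0x524928c1, 0x9434a41]]

noncomputable def n298 : Ent := ⟨e298, noF, [], [], [(6, 11, [87899351228091456402997525766823824674129406633600833720321, 0])]⟩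

def c298 : PLift (Cov.check n298.C.D v298 = true) := ⟨by decide +kernel⟩

def b298 : PLift (entF (fidx ts) 400 298 n298 = true) := ⟨by decide +kernel⟩

theorem g298 : GoodF (fidx ts) 400 298 := GoodF.ofV v298 n298 c298.down b298.down

/-- 45746:247/1 -/
noncomputable def e299 : SCfg where
  D := {
    a := 5
    L := 9
    kp := 7
    inn := [(0, 1), (1, 0), (1, 2), (2, 1), (2, 3), (2, 4), (3, 2), (4, 2)]
    mix := [(0, 0), (0, 1), (0, 2), (1, 0), (1, 2), (1, 3), (2, 2), (2, 3), (2, 4), (2, 5), (3, 4), (3,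
      5), (3, 6), (4, 0), (4, 3), (4, 5), (4, 7), (4, 8)]
    cl := [1, 6, 0, 0, 2, 3, 7, 4, 5]
    chq := [(1, 2), (2, 1), (2, 3), (2, 4), (2, 5), (3, 2), (4, 2), (5, 2)]
    rng := [(0, 1), (0, 3), (0, 8), (1, 0), (1, 2), (2, 1), (2, 4), (3, 0), (4, 2), (4, 6), (5, 6), (5,
      7), (6, 4), (6, 5), (7, 5), (7, 8), (8, 0), (8, 7)]
    lev := [] }
  links := [[1, 5, 6, 7], [5, 0, 7, 2, 8], [8, 1, 7, 9, 3, 10, 4], [10, 2, 9, 11], [8, 2, 10, 12, 13, 5]]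
  P := {
    a := 5
    N := 14
    nb := [226, 421, 1946, 3588, 13604, 8531, 161, 583, 54, 2188, 6172, 1544, 9232, 4144]
    tri := [(0, 1, 5), (0, 1, 7), (0, 5, 6), (0, 6, 7), (1, 2, 7), (1, 2, 8), (1, 5, 8), (2, 3, 9), (2,
      3, 10), (2, 4, 8), (2, 4, 10), (2, 7, 9), (3, 9, 11), (3, 10, 11), (4, 5, 8), (4, 5, 13),
      (4, 10, 12), (4, 12, 13)]
    fin := [0, 1, 2, 2, 2, 0, 6, 1, 1, 2, 10, 11, 12, 13]
    chd := [(0, 2), (2, 10), (2, 12), (2, 13)]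
    steps := [(0, 5), (1, 7), (1, 8), (2, 3), (2, 4), (2, 9)] }
  rep := [1, 0, 2, 10, 12, 13, 6, 11]

noncomputable def v299 : Cov.CovD where
  P := 3
  N := 5
  pl := [1, 6]
  lev := [⟨[], [], [(0, 1)], [6], [(0, 1, [2]), (2, 0, [])]⟩,
    ⟨[], [(0, 0), (0, 1)], [(0, 0), (0, 1)], [], [(0, 1, [2]), (2, 0, []), (3, 0, [])]⟩,
    ⟨[(0, 1)], [(0, 0), (1, 0), (1, 1), (1, 2), (1, 3)], [(0, 0), (0, 2), (0, 3), (2, 3)],
      [], [(2, 0, []), (3, 0, []), (4, 2, [1, 3, 4, 5]), (5, 3, [2])]⟩,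
    ⟨[(1, 2)], [(2, 0), (2, 2), (2, 3)], [(2, 3)], [7], [(4, 2, [1, 3, 4, 5]), (5, 3,
      [2])]⟩,
    ⟨[(1, 2), (2, 3)], [(0, 1), (1, 0), (1, 1), (2, 0), (2, 1), (2, 2), (2, 3), (2, 4), (2,
      5), (3, 3)], [(0, 1), (0, 3), (0, 4), (0, 5), (1, 3), (1, 4), (1, 5), (3, 4), (3, 5),
      (4, 5)], [], [(0, 1, [2]), (3, 0, []), (5, 3, [2]), (7, 4, [2]), (8, 5, [2])]⟩]
  Ta := [((2, 1), 0, 6), ((2, 4), 0, 2), ((3, 0), 0, 1)]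
  Tb := [((0, 1, 3), 1, 6, 0), ((0, 1, 8), 1, 6, 5), ((0, 3, 8), 1, 0, 5), ((1, 0, 2), 6, 1, 0),
    ((2, 1, 4), 0, 6, 2), ((4, 2, 6), 2, 0, 7), ((5, 6, 7), 3, 7, 4), ((6, 4, 5), 7, 2, 3),
    ((7, 5, 8), 4, 3, 5), ((8, 0, 7), 5, 1, 4)]
  Tc := [(2, 1, 3), (2, 1, 4), (2, 1, 5), (2, 3, 4), (2, 3, 5), (2, 4, 5)]
  Td := [((1, 2), (0, 1), 6), ((1, 2), (0, 3), 0), ((1, 2), (0, 8), 5), ((2, 1), (4, 2), 0), ((2,
    1), (4, 6), 7), ((2, 3), (4, 2), 0), ((2, 3), (4, 6), 7), ((2, 4), (4, 2), 0), ((2, 4),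
    (4, 6), 7), ((2, 5), (4, 2), 0), ((2, 5), (4, 6), 7), ((3, 2), (5, 6), 7), ((3, 2), (5,
    7), 4), ((4, 2), (7, 5), 3), ((4, 2), (7, 8), 5), ((5, 2), (8, 0), 1), ((5, 2), (8, 7),
    4)]
  G := [[0, 0, 0x11c116a411c11a68c, 0x2222c42222c8c, 0x449443a4449443a4c], [0,
    0x229225c2229225c2c, 0, 0x2222c81, 0x449443a41]]

noncomputable def n299 : Ent := ⟨e299, noF, [], [], []⟩

def c299 : PLift (Cov.check n299.C.D v299 = true) := ⟨by decide +kernel⟩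

def b299 : PLift (entF (fidx ts) 400 299 n299 = true) := ⟨by decide +kernel⟩

theorem g299 : GoodF (fidx ts) 400 299 := GoodF.ofV v299 n299 c299.down b299.down

/-- 45746:247 -/
noncomputable def e300 : SCfg where
  D := {
    a := 5
    L := 10
    kp := 8
    inn := [(0, 1), (1, 0), (1, 2), (2, 1), (2, 3), (2, 4), (3, 2), (4, 2)]
    mix := [(0, 0), (0, 1), (0, 2), (1, 0), (1, 2), (1, 3), (2, 2), (2, 3), (2, 4), (2, 5), (3, 4), (3,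
      5), (3, 6), (4, 3), (4, 5), (4, 7), (4, 8), (4, 9)]
    cl := [2, 7, 0, 0, 1, 3, 8, 4, 5, 6]
    chq := [(1, 3), (1, 4), (1, 5), (1, 6), (3, 1), (4, 1), (5, 1), (6, 1)]
    rng := [(0, 1), (0, 3), (1, 0), (1, 2), (2, 1), (2, 4), (3, 0), (3, 9), (4, 2), (4, 6), (5, 6), (5,
      7), (6, 4), (6, 5), (7, 5), (7, 8), (8, 7), (8, 9), (9, 3), (9, 8)]
    lev := [] }
  links := [[1, 5, 6, 7], [5, 0, 7, 2, 8], [8, 1, 7, 9, 3, 10, 4], [10, 2, 9, 11], [8, 2, 10, 12, 13,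
    14]]
  P := {
    a := 5
    N := 15
    nb := [226, 421, 1946, 3588, 29956, 323, 161, 583, 16438, 2188, 6172, 1544, 9232, 20496, 8464]
    tri := [(0, 1, 5), (0, 1, 7), (0, 5, 6), (0, 6, 7), (1, 2, 7), (1, 2, 8), (1, 5, 8), (2, 3, 9), (2,
      3, 10), (2, 4, 8), (2, 4, 10), (2, 7, 9), (3, 9, 11), (3, 10, 11), (4, 8, 14), (4, 10, 12),
      (4, 12, 13), (4, 13, 14)]
    fin := [0, 1, 2, 2, 2, 0, 6, 1, 1, 2, 10, 11, 12, 13, 14]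
    chd := [(2, 10), (2, 12), (2, 13), (2, 14)]
    steps := [(0, 5), (1, 7), (1, 8), (2, 3), (2, 4), (2, 9)] }
  rep := [1, 2, 0, 10, 12, 13, 14, 6, 11]

noncomputable def v300 : Cov.CovD where
  P := 3
  N := 6
  pl := [0, 1, 6]
  lev := [⟨[], [], [], [2, 7], [(2, 0, [])]⟩,
    ⟨[], [(0, 0)], [(0, 0)], [2], [(2, 0, []), (3, 0, [])]⟩,
    ⟨[(0, 1)], [(0, 0), (1, 0), (1, 1), (1, 3)], [(0, 0), (0, 1), (0, 3), (1, 3)], [], [(2,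
      0, []), (3, 0, []), (4, 1, [3, 4, 5, 6]), (5, 3, [1])]⟩,
    ⟨[(1, 2)], [(2, 0), (2, 1), (2, 3)], [(1, 3)], [8], [(4, 1, [3, 4, 5, 6]), (5, 3,
      [1])]⟩,
    ⟨[(1, 2), (2, 3)], [(1, 0), (2, 0), (2, 1), (2, 3), (2, 4), (2, 5), (2, 6), (3, 3)],
      [(0, 3), (0, 4), (0, 5), (0, 6), (3, 4), (3, 5), (3, 6), (4, 5), (4, 6), (5, 6)], [],
      [(3, 0, []), (5, 3, [1]), (7, 4, [1]), (8, 5, [1]), (9, 6, [1])]⟩]
  Ta := [((2, 1), 0, 7), ((2, 4), 0, 1), ((3, 0), 0, 2), ((3, 9), 0, 6)]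
  Tb := [((0, 1, 3), 2, 7, 0), ((1, 0, 2), 7, 2, 0), ((2, 1, 4), 0, 7, 1), ((3, 0, 9), 0, 2, 6),
    ((4, 2, 6), 1, 0, 8), ((5, 6, 7), 3, 8, 4), ((6, 4, 5), 8, 1, 3), ((7, 5, 8), 4, 3, 5),
    ((8, 7, 9), 5, 4, 6), ((9, 3, 8), 6, 0, 5)]
  Tc := [(1, 3, 4), (1, 3, 5), (1, 3, 6), (1, 4, 5), (1, 4, 6), (1, 5, 6)]
  Td := [((1, 3), (4, 2), 0), ((1, 3), (4, 6), 8), ((1, 4), (4, 2), 0), ((1, 4), (4, 6), 8), ((1,
    5), (4, 2), 0), ((1, 5), (4, 6), 8), ((1, 6), (4, 2), 0), ((1, 6), (4, 6), 8), ((3, 1),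
    (5, 6), 8), ((3, 1), (5, 7), 4), ((4, 1), (7, 5), 3), ((4, 1), (7, 8), 5), ((5, 1), (8,
    7), 4), ((5, 1), (8, 9), 6), ((6, 1), (9, 3), 0), ((6, 1), (9, 8), 5)]
  G := [[0, 0x14126188c11c116a4c, 0, 0x24422921cc22542298cc, 0x229225c2229225c2a], [0, 0,
    0x229225c2229225c2a, 0x22542298c1, 0x229225c21]]

noncomputable def n300 : Ent := ⟨e300, noF, [], [], [(5, 14, [81620716623019490593592230936445690773474979418095884611585, 0])]⟩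

def c300 : PLift (Cov.check n300.C.D v300 = true) := ⟨by decide +kernel⟩

def b300 : PLift (entF (fidx ts) 400 300 n300 = true) := ⟨by decide +kernel⟩

theorem g300 : GoodF (fidx ts) 400 300 := GoodF.ofV v300 n300 c300.down b300.down

/-- 47745:250 -/
noncomputable def e301 : SCfg where
  D := {
    a := 5
    L := 9
    kp := 6
    inn := [(0, 1), (0, 2), (1, 0), (1, 2), (1, 3), (1, 4), (2, 0), (2, 1), (2, 4), (3, 1), (4, 1), (4,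
      2)]
    mix := [(0, 0), (0, 1), (1, 1), (1, 2), (1, 3), (2, 0), (2, 4), (2, 5), (2, 6), (3, 2), (3, 3), (3,
      7), (4, 3), (4, 4), (4, 8)]
    cl := [1, 0, 2, 0, 1, 3, 4, 5, 6]
    chq := []
    rng := [(0, 1), (0, 6), (1, 0), (1, 2), (2, 1), (2, 7), (3, 7), (3, 8), (4, 5), (4, 8), (5, 4), (5,
      6), (6, 0), (6, 5), (7, 2), (7, 3), (8, 3), (8, 4)]
    lev := [] }
  links := [[1, 2, 5, 6], [2, 0, 6, 7, 3, 8, 4], [5, 0, 1, 4, 9, 10, 11], [8, 1, 7, 12], [9, 2, 1, 8,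
    13]]
  P := {
    a := 5
    N := 14
    nb := [102, 477, 3635, 4482, 8966, 2117, 163, 4170, 12314, 9236, 2564, 1060, 392, 784]
    tri := [(0, 1, 2), (0, 1, 6), (0, 2, 5), (0, 5, 6), (1, 2, 4), (1, 3, 7), (1, 3, 8), (1, 4, 8), (1,
      6, 7), (2, 4, 9), (2, 5, 11), (2, 9, 10), (2, 10, 11), (3, 7, 12), (3, 8, 12), (4, 8, 13),
      (4, 9, 13)]
    fin := [0, 1, 0, 1, 0, 0, 1, 7, 1, 0, 10, 11, 12, 13]
    chd := []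
    steps := [(0, 2), (0, 4), (0, 5), (0, 9), (1, 3), (1, 6), (1, 8)] }
  rep := [1, 0, 7, 10, 11, 12, 13]

noncomputable def v301 : Cov.CovD where
  P := 3
  N := 4
  pl := [2, 5, 6, 7, 8]
  lev := [⟨[], [], [(0, 1)], [], [(0, 1, []), (1, 0, [])]⟩,
    ⟨[], [(0, 0), (0, 1)], [(0, 0)], [2], [(1, 0, []), (3, 0, [])]⟩,
    ⟨[(0, 1)], [(0, 0), (0, 1), (1, 0), (1, 1)], [(1, 1)], [3, 4], [(0, 1, []), (4, 1,
      [])]⟩,
    ⟨[(0, 1), (1, 2)], [(1, 0)], [], [2, 5], [(3, 0, [])]⟩,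
    ⟨[(0, 1), (0, 2), (1, 2), (1, 3)], [(1, 0), (1, 1), (2, 0), (2, 1), (3, 0)], [(0, 1)],
      [6], [(3, 0, []), (4, 1, [])]⟩]
  Ta := [((0, 1), 1, 0), ((0, 6), 1, 4), ((1, 0), 0, 1), ((1, 2), 0, 2), ((3, 7), 0, 5), ((3, 8),
    0, 6), ((4, 5), 1, 3), ((4, 8), 1, 6)]
  Tb := [((0, 1, 6), 1, 0, 4), ((1, 0, 2), 0, 1, 2), ((2, 1, 7), 2, 0, 5), ((3, 7, 8), 0, 5, 6),
    ((4, 5, 8), 1, 3, 6), ((5, 4, 6), 3, 1, 4), ((6, 0, 5), 4, 1, 3), ((7, 2, 3), 5, 2, 0),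
    ((8, 3, 4), 6, 0, 1)]
  Tc := []
  Td := []
  G := [[0, 0x61a1a1e84, 0x12611622ad84, 0x212121d48, 0x212121d84], [0, 0, 0x11611ccc6d82,
    0x1411cc1d188c4, 0x11a11ac1d28], [0, 0, 0, 0x24422c2822cdc8, 0x2222a22adc88a4], [0, 0, 0,
    0x444cc44dc8c88c8cdc2, 0xcca88c8d24cac2586]]

noncomputable def n301 : Ent := ⟨e301, noF, [], [], []⟩

def c301 : PLift (Cov.check n301.C.D v301 = true) := ⟨by decide +kernel⟩

def b301 : PLift (entF (fidx ts) 400 301 n301 = true) := ⟨by decide +kernel⟩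

theorem g301 : GoodF (fidx ts) 400 301 := GoodF.ofV v301 n301 c301.down b301.down

/-- 45748:251/1 -/
noncomputable def e302 : SCfg where
  D := {
    a := 5
    L := 10
    kp := 8
    inn := [(0, 1), (1, 0), (1, 2), (2, 1), (2, 3), (2, 4), (3, 2), (3, 4), (4, 2), (4, 3)]
    mix := [(0, 0), (0, 1), (0, 2), (1, 0), (1, 2), (1, 3), (2, 2), (2, 3), (2, 4), (2, 5), (3, 5), (3,
      6), (4, 0), (4, 3), (4, 6), (4, 7), (4, 8), (4, 9)]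
    cl := [1, 8, 0, 0, 2, 4, 3, 5, 6, 7]
    chq := [(1, 2), (2, 1), (2, 3), (2, 5), (2, 6), (2, 7), (3, 2), (5, 2), (6, 2), (7, 2)]
    rng := [(0, 1), (0, 3), (0, 9), (1, 0), (1, 2), (2, 1), (2, 4), (3, 0), (4, 2), (4, 5), (5, 4), (5,
      6), (6, 5), (6, 7), (7, 6), (7, 8), (8, 7), (8, 9), (9, 0), (9, 8)]
    lev := [] }
  links := [[1, 5, 6, 7], [5, 0, 7, 2, 8], [8, 1, 7, 9, 10, 3, 4], [4, 2, 10, 11], [8, 2, 3, 11, 12, 13,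
    14, 5]]
  P := {
    a := 5
    N := 15
    nb := [226, 421, 1946, 3092, 31020, 16723, 161, 583, 54, 1156, 2572, 5144, 10256, 20496, 8240]
    tri := [(0, 1, 5), (0, 1, 7), (0, 5, 6), (0, 6, 7), (1, 2, 7), (1, 2, 8), (1, 5, 8), (2, 3, 4), (2,
      3, 10), (2, 4, 8), (2, 7, 9), (2, 9, 10), (3, 4, 11), (3, 10, 11), (4, 5, 8), (4, 5, 14),
      (4, 11, 12), (4, 12, 13), (4, 13, 14)]
    fin := [0, 1, 2, 2, 2, 0, 6, 1, 1, 2, 10, 11, 12, 13, 14]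
    chd := [(0, 2), (2, 11), (2, 12), (2, 13), (2, 14)]
    steps := [(0, 5), (1, 7), (1, 8), (2, 3), (2, 4), (2, 9)] }
  rep := [1, 0, 2, 11, 10, 12, 13, 14, 6]

noncomputable def v302 : Cov.CovD where
  P := 3
  N := 6
  pl := [1, 5]
  lev := [⟨[], [], [(0, 1)], [8], [(0, 1, [2]), (2, 0, [])]⟩,
    ⟨[], [(0, 0), (0, 1)], [(0, 0), (0, 1)], [], [(0, 1, [2]), (2, 0, []), (3, 0, [])]⟩,
    ⟨[(0, 1)], [(0, 0), (1, 0), (1, 1), (1, 2)], [(0, 0), (0, 2)], [4], [(2, 0, []), (3, 0,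
      []), (4, 2, [1, 3, 5, 6, 7])]⟩,
    ⟨[(1, 2)], [(2, 0), (2, 2), (2, 3)], [], [4], [(6, 3, [2])]⟩,
    ⟨[(1, 2), (2, 3)], [(0, 1), (1, 0), (1, 1), (2, 0), (2, 1), (2, 2), (2, 3), (2, 5), (2,
      6), (2, 7), (3, 0), (3, 1), (3, 3), (3, 5), (3, 6), (3, 7)], [(0, 1), (0, 3), (0, 5),
      (0, 6), (0, 7), (1, 3), (1, 5), (1, 6), (1, 7), (3, 5), (3, 6), (3, 7), (5, 6), (5, 7),
      (6, 7)], [], [(0, 1, [2]), (3, 0, []), (6, 3, [2]), (7, 5, [2]), (8, 6, [2]), (9, 7,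
      [2])]⟩]
  Ta := [((2, 1), 0, 8), ((2, 4), 0, 2), ((3, 0), 0, 1)]
  Tb := [((0, 1, 3), 1, 8, 0), ((0, 1, 9), 1, 8, 7), ((0, 3, 9), 1, 0, 7), ((1, 0, 2), 8, 1, 0),
    ((2, 1, 4), 0, 8, 2), ((4, 2, 5), 2, 0, 4), ((5, 4, 6), 4, 2, 3), ((6, 5, 7), 3, 4, 5),
    ((7, 6, 8), 5, 3, 6), ((8, 7, 9), 6, 5, 7), ((9, 0, 8), 7, 1, 6)]
  Tc := [(2, 1, 3), (2, 1, 5), (2, 1, 6), (2, 1, 7), (2, 3, 5), (2, 3, 6), (2, 3, 7), (2, 5, 6),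
    (2, 5, 7), (2, 6, 7)]
  Td := [((1, 2), (0, 1), 8), ((1, 2), (0, 3), 0), ((1, 2), (0, 9), 7), ((2, 1), (4, 2), 0), ((2,
    1), (4, 5), 4), ((2, 3), (4, 2), 0), ((2, 3), (4, 5), 4), ((2, 5), (4, 2), 0), ((2, 5),
    (4, 5), 4), ((2, 6), (4, 2), 0), ((2, 6), (4, 5), 4), ((2, 7), (4, 2), 0), ((2, 7), (4,
    5), 4), ((3, 2), (6, 5), 4), ((3, 2), (6, 7), 5), ((5, 2), (7, 6), 3), ((5, 2), (7, 8),
    6), ((6, 2), (8, 7), 5), ((6, 2), (8, 9), 7), ((7, 2), (9, 0), 1), ((7, 2), (9, 8), 6)]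
  G := [[0, 0, 0x11c11a681441812acc, 0x22542298c22542298cc, 0x449443a4449443a4c], [0,
    0x229225c2229225c2c, 0, 0x22542298c1, 0x449443a41]]

noncomputable def n302 : Ent := ⟨e302, noF, [], [], []⟩

def c302 : PLift (Cov.check n302.C.D v302 = true) := ⟨by decide +kernel⟩

def b302 : PLift (entF (fidx ts) 400 302 n302 = true) := ⟨by decide +kernel⟩

theorem g302 : GoodF (fidx ts) 400 302 := GoodF.ofV v302 n302 c302.down b302.down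

/-- 45748:251 -/
noncomputable def e303 : SCfg where
  D := {
    a := 5
    L := 11
    kp := 9
    inn := [(0, 1), (1, 0), (1, 2), (2, 1), (2, 3), (2, 4), (3, 2), (3, 4), (4, 2), (4, 3)]
    mix := [(0, 0), (0, 1), (0, 2), (1, 0), (1, 2), (1, 3), (2, 2), (2, 3), (2, 4), (2, 5), (3, 5), (3,
      6), (4, 3), (4, 6), (4, 7), (4, 8), (4, 9), (4, 10)]
    cl := [1, 9, 0, 0, 2, 4, 3, 5, 6, 7, 8]
    chq := [(2, 3), (2, 5), (2, 6), (2, 7), (2, 8), (3, 2), (5, 2), (6, 2), (7, 2), (8, 2)]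
    rng := [(0, 1), (0, 3), (1, 0), (1, 2), (2, 1), (2, 4), (3, 0), (3, 10), (4, 2), (4, 5), (5, 4),
      (5, 6), (6, 5), (6, 7), (7, 6), (7, 8), (8, 7), (8, 9), (9, 8), (9, 10), (10, 3), (10, 9)]
    lev := [] }
  links := [[1, 5, 6, 7], [5, 0, 7, 2, 8], [8, 1, 7, 9, 10, 3, 4], [4, 2, 10, 11], [8, 2, 3, 11, 12, 13,
    14, 15]]
  P := {
    a := 5
    N := 16
    nb := [226, 421, 1946, 3092, 63756, 323, 161, 583, 32822, 1156, 2572, 5144, 10256, 20496, 40976,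
      16656]
    tri := [(0, 1, 5), (0, 1, 7), (0, 5, 6), (0, 6, 7), (1, 2, 7), (1, 2, 8), (1, 5, 8), (2, 3, 4), (2,
      3, 10), (2, 4, 8), (2, 7, 9), (2, 9, 10), (3, 4, 11), (3, 10, 11), (4, 8, 15), (4, 11, 12),
      (4, 12, 13), (4, 13, 14), (4, 14, 15)]
    fin := [0, 1, 2, 2, 2, 0, 6, 1, 1, 2, 10, 11, 12, 13, 14, 15]
    chd := [(2, 11), (2, 12), (2, 13), (2, 14), (2, 15)]
    steps := [(0, 5), (1, 7), (1, 8), (2, 3), (2, 4), (2, 9)] }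
  rep := [1, 0, 2, 11, 10, 12, 13, 14, 15, 6]

noncomputable def v303 : Cov.CovD where
  P := 3
  N := 7
  pl := [0, 1, 5]
  lev := [⟨[], [], [], [1, 9], [(2, 0, [])]⟩,
    ⟨[], [(0, 0)], [(0, 0)], [1], [(2, 0, []), (3, 0, [])]⟩,
    ⟨[(0, 1)], [(0, 0), (1, 0), (1, 2)], [(0, 0), (0, 2)], [4], [(2, 0, []), (3, 0, []),
      (4, 2, [3, 5, 6, 7, 8])]⟩,
    ⟨[(1, 2)], [(2, 0), (2, 2), (2, 3)], [], [4], [(6, 3, [2])]⟩,
    ⟨[(1, 2), (2, 3)], [(1, 0), (2, 0), (2, 2), (2, 3), (2, 5), (2, 6), (2, 7), (2, 8), (3,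
      0), (3, 3), (3, 5), (3, 6), (3, 7), (3, 8)], [(0, 3), (0, 5), (0, 6), (0, 7), (0, 8),
      (3, 5), (3, 6), (3, 7), (3, 8), (5, 6), (5, 7), (5, 8), (6, 7), (6, 8), (7, 8)], [],
      [(3, 0, []), (6, 3, [2]), (7, 5, [2]), (8, 6, [2]), (9, 7, [2]), (10, 8, [2])]⟩]
  Ta := [((2, 1), 0, 9), ((2, 4), 0, 2), ((3, 0), 0, 1), ((3, 10), 0, 8)]
  Tb := [((0, 1, 3), 1, 9, 0), ((1, 0, 2), 9, 1, 0), ((2, 1, 4), 0, 9, 2), ((3, 0, 10), 0, 1, 8),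
    ((4, 2, 5), 2, 0, 4), ((5, 4, 6), 4, 2, 3), ((6, 5, 7), 3, 4, 5), ((7, 6, 8), 5, 3, 6),
    ((8, 7, 9), 6, 5, 7), ((9, 8, 10), 7, 6, 8), ((10, 3, 9), 8, 0, 7)]
  Tc := [(2, 3, 5), (2, 3, 6), (2, 3, 7), (2, 3, 8), (2, 5, 6), (2, 5, 7), (2, 5, 8), (2, 6, 7),
    (2, 6, 8), (2, 7, 8)]
  Td := [((2, 3), (4, 2), 0), ((2, 3), (4, 5), 4), ((2, 5), (4, 2), 0), ((2, 5), (4, 5), 4), ((2,
    6), (4, 2), 0), ((2, 6), (4, 5), 4), ((2, 7), (4, 2), 0), ((2, 7), (4, 5), 4), ((2, 8),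
    (4, 2), 0), ((2, 8), (4, 5), 4), ((3, 2), (6, 5), 4), ((3, 2), (6, 7), 5), ((5, 2), (7,
    6), 3), ((5, 2), (7, 8), 6), ((6, 2), (8, 7), 5), ((6, 2), (8, 9), 7), ((7, 2), (9, 8),
    6), ((7, 2), (9, 10), 8), ((8, 2), (10, 3), 0), ((8, 2), (10, 9), 7)]
  G := [[0, 0, 0x11c116a411c11a68c, 0x22542298c22542298cc, 0x449443a4449443a4c], [0,
    0x229225c2229822546c, 0, 0x22542298c1, 0x449443a41]]

noncomputable def n303 : Ent := ⟨e303, noF, [], [], [(5, 15, [360035742630636841211993100915356868655746945586763691008909313, 0])]⟩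

def c303 : PLift (Cov.check n303.C.D v303 = true) := ⟨by decide +kernel⟩

def b303 : PLift (entF (fidx ts) 400 303 n303 = true) := ⟨by decide +kernel⟩

theorem g303 : GoodF (fidx ts) 400 303 := GoodF.ofV v303 n303 c303.down b303.down

/-- 45764:252 -/
noncomputable def e304 : SCfg where
  D := {
    a := 5
    L := 9
    kp := 6
    inn := [(0, 1), (1, 0), (1, 2), (2, 1), (2, 3), (2, 4), (3, 2), (3, 4), (4, 2), (4, 3)]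
    mix := [(0, 0), (0, 1), (0, 2), (1, 0), (1, 2), (1, 3), (2, 2), (2, 3), (2, 4), (2, 5), (3, 5), (3,
      6), (3, 7), (3, 8), (4, 3), (4, 8)]
    cl := [2, 3, 0, 0, 4, 1, 5, 6, 1]
    chq := []
    rng := [(0, 1), (0, 3), (1, 0), (1, 2), (2, 1), (2, 4), (3, 0), (3, 8), (4, 2), (4, 5), (5, 4), (5,
      6), (6, 5), (6, 7), (7, 6), (7, 8), (8, 3), (8, 7)]
    lev := [] }
  links := [[1, 5, 6, 7], [5, 0, 7, 2, 8], [8, 1, 7, 9, 10, 3, 4], [4, 2, 10, 11, 12, 13], [8, 2, 3, 13]]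
  P := {
    a := 5
    N := 14
    nb := [226, 421, 1946, 15380, 8460, 323, 161, 583, 8246, 1156, 2572, 5128, 10248, 4376]
    tri := [(0, 1, 5), (0, 1, 7), (0, 5, 6), (0, 6, 7), (1, 2, 7), (1, 2, 8), (1, 5, 8), (2, 3, 4), (2,
      3, 10), (2, 4, 8), (2, 7, 9), (2, 9, 10), (3, 4, 13), (3, 10, 11), (3, 11, 12), (3, 12, 13),
      (4, 8, 13)]
    fin := [0, 0, 2, 3, 2, 0, 6, 2, 2, 9, 3, 11, 12, 3]
    chd := []
    steps := [(0, 1), (0, 5), (2, 4), (2, 7), (2, 8), (3, 10), (3, 13)] }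
  rep := [2, 3, 0, 6, 9, 11, 12]

noncomputable def v304 : Cov.CovD where
  P := 3
  N := 4
  pl := [0, 1, 4, 6, 7]
  lev := [⟨[], [], [], [2, 3], [(2, 0, [])]⟩,
    ⟨[], [(0, 0)], [(0, 0)], [2], [(2, 0, []), (3, 0, [])]⟩,
    ⟨[(0, 1)], [(0, 0), (1, 0), (1, 1)], [(0, 0), (0, 1)], [4], [(2, 0, []), (3, 0, []),
      (5, 1, [])]⟩,
    ⟨[(1, 2)], [(2, 0), (2, 1)], [(1, 1)], [5, 6], [(5, 1, []), (8, 1, [])]⟩,
    ⟨[(1, 2), (2, 3)], [(1, 0), (2, 0), (2, 1), (3, 0), (3, 1)], [(0, 1)], [], [(3, 0, []),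
      (8, 1, [])]⟩]
  Ta := [((2, 1), 0, 3), ((2, 4), 0, 4), ((3, 0), 0, 2), ((3, 8), 0, 1), ((5, 4), 1, 4), ((5, 6),
    1, 5), ((8, 3), 1, 0), ((8, 7), 1, 6)]
  Tb := [((0, 1, 3), 2, 3, 0), ((1, 0, 2), 3, 2, 0), ((2, 1, 4), 0, 3, 4), ((3, 0, 8), 0, 2, 1),
    ((4, 2, 5), 4, 0, 1), ((5, 4, 6), 1, 4, 5), ((6, 5, 7), 5, 1, 6), ((7, 6, 8), 6, 5, 1),
    ((8, 3, 7), 1, 0, 6)]
  Tc := []
  Td := []
  G := [[0, 0, 0, 0x814d4188d8c445182dc188cc, 0x484d4214d8a224d828dc2a], [0, 0, 0,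
    0x188d28848d24c, 0x884d28148d28a], [0, 0, 0x882d4424d8a41288dc44c8ca, 0x445284dc488c1,
    0x244d484dc21], [0, 0x824e824e681, 0x484d24444d246, 0x488d281, 0x484d281]]

noncomputable def n304 : Ent := ⟨e304, noF, [], [], []⟩

def c304 : PLift (Cov.check n304.C.D v304 = true) := ⟨by decide +kernel⟩

def b304 : PLift (entF (fidx ts) 400 304 n304 = true) := ⟨by decide +kernel⟩

theorem g304 : GoodF (fidx ts) 400 304 := GoodF.ofV v304 n304 c304.down b304.down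

/-- 45845:254 -/
noncomputable def e305 : SCfg where
  D := {
    a := 5
    L := 10
    kp := 7
    inn := [(0, 1), (1, 0), (1, 2), (2, 1), (2, 3), (2, 4), (3, 2), (4, 2)]
    mix := [(0, 0), (0, 1), (0, 2), (1, 0), (1, 2), (1, 3), (2, 2), (2, 3), (2, 4), (2, 5), (2, 6), (3,
      3), (3, 6), (3, 7), (4, 5), (4, 6), (4, 8), (4, 9)]
    cl := [1, 5, 0, 0, 2, 3, 3, 4, 6, 7]
    chq := [(2, 4), (4, 2)]
    rng := [(0, 1), (0, 3), (1, 0), (1, 2), (2, 1), (2, 4), (3, 0), (3, 7), (4, 2), (4, 5), (5, 4), (5,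
      8), (6, 7), (6, 9), (7, 3), (7, 6), (8, 5), (8, 9), (9, 6), (9, 8)]
    lev := [] }
  links := [[1, 5, 6, 7], [5, 0, 7, 2, 8], [8, 1, 7, 9, 10, 4, 11, 3], [8, 2, 11, 12], [11, 2, 10, 13,
    14]]
  P := {
    a := 5
    N := 15
    nb := [226, 421, 3994, 6404, 27652, 323, 161, 583, 4142, 1156, 8724, 20508, 2312, 17424, 10256]
    tri := [(0, 1, 5), (0, 1, 7), (0, 5, 6), (0, 6, 7), (1, 2, 7), (1, 2, 8), (1, 5, 8), (2, 3, 8), (2,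
      3, 11), (2, 4, 10), (2, 4, 11), (2, 7, 9), (2, 9, 10), (3, 8, 12), (3, 11, 12), (4, 10, 13),
      (4, 11, 14), (4, 13, 14)]
    fin := [0, 1, 2, 2, 4, 0, 6, 1, 1, 2, 4, 4, 12, 13, 14]
    chd := [(2, 12)]
    steps := [(0, 5), (1, 7), (1, 8), (2, 3), (2, 9), (4, 10), (4, 11)] }
  rep := [1, 0, 2, 4, 12, 6, 13, 14]

noncomputable def v305 : Cov.CovD where
  P := 3
  N := 5
  pl := [0, 1, 8, 9]
  lev := [⟨[], [], [], [1, 5], [(2, 0, [])]⟩,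
    ⟨[], [(0, 0)], [(0, 0)], [1], [(2, 0, []), (3, 0, [])]⟩,
    ⟨[(0, 1)], [(0, 0), (1, 0), (1, 2), (1, 3)], [(0, 0), (0, 2), (0, 3), (2, 3), (3, 3)],
      [], [(2, 0, []), (3, 0, []), (4, 2, [4]), (5, 3, []), (6, 3, [])]⟩,
    ⟨[(1, 2)], [(1, 0), (2, 0), (2, 2), (2, 3), (2, 4)], [(0, 3), (0, 4), (3, 4)], [], [(3,
      0, []), (6, 3, []), (7, 4, [2])]⟩,
    ⟨[(1, 2), (2, 3)], [(2, 0), (2, 2), (2, 3), (3, 3)], [(3, 3)], [6, 7], [(5, 3, []), (6,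
      3, [])]⟩]
  Ta := [((2, 1), 0, 5), ((2, 4), 0, 2), ((3, 0), 0, 1), ((3, 7), 0, 4), ((5, 4), 3, 2), ((5, 8),
    3, 6), ((6, 7), 3, 4), ((6, 9), 3, 7)]
  Tb := [((0, 1, 3), 1, 5, 0), ((1, 0, 2), 5, 1, 0), ((2, 1, 4), 0, 5, 2), ((3, 0, 7), 0, 1, 4),
    ((4, 2, 5), 2, 0, 3), ((5, 4, 8), 3, 2, 6), ((6, 7, 9), 3, 4, 7), ((7, 3, 6), 4, 0, 3),
    ((8, 5, 9), 6, 3, 7), ((9, 6, 8), 7, 3, 6)]
  Tc := []
  Td := [((2, 4), (4, 2), 0), ((2, 4), (4, 5), 3), ((4, 2), (7, 3), 0), ((4, 2), (7, 6), 3)]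
  G := [[0, 0, 0xf1b468d171a4c, 0x724b28c724b28cc, 0xd474a4d474a4c], [0, 0, 0xd171a4d171a4c,
    0x724b28c714f28cc, 0xd474a4d474a4c], [0, 0xb272c2b272c2a, 0, 0x32f2c848c1, 0xd474a41],
    [0, 0xb272c2b272c2c, 0, 0x3272c828c1, 0xd474a41]]

noncomputable def n305 : Ent := ⟨e305, noF, [], [], []⟩

def c305 : PLift (Cov.check n305.C.D v305 = true) := ⟨by decide +kernel⟩

def b305 : PLift (entF (fidx ts) 400 305 n305 = true) := ⟨by decide +kernel⟩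

theorem g305 : GoodF (fidx ts) 400 305 := GoodF.ofV v305 n305 c305.down b305.down

/-- 45855:255 -/
noncomputable def e306 : SCfg where
  D := {
    a := 5
    L := 11
    kp := 8
    inn := [(0, 1), (1, 0), (1, 2), (2, 1), (2, 3), (2, 4), (3, 2), (4, 2)]
    mix := [(0, 0), (0, 1), (0, 2), (1, 0), (1, 2), (1, 3), (2, 2), (2, 3), (2, 4), (2, 5), (2, 6), (3,
      3), (3, 6), (3, 7), (3, 8), (4, 5), (4, 6), (4, 9), (4, 10)]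
    cl := [1, 6, 0, 0, 2, 3, 3, 4, 5, 7, 8]
    chq := [(2, 4), (2, 5), (4, 2), (5, 2)]
    rng := [(0, 1), (0, 3), (1, 0), (1, 2), (2, 1), (2, 4), (3, 0), (3, 8), (4, 2), (4, 5), (5, 4), (5,
      9), (6, 7), (6, 10), (7, 6), (7, 8), (8, 3), (8, 7), (9, 5), (9, 10), (10, 6), (10, 9)]
    lev := [] }
  links := [[1, 5, 6, 7], [5, 0, 7, 2, 8], [8, 1, 7, 9, 10, 4, 11, 3], [8, 2, 11, 12, 13], [11, 2, 10,
    14, 15]]
  P := {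
    a := 5
    N := 16
    nb := [226, 421, 3994, 14596, 52228, 323, 161, 583, 8238, 1156, 16916, 36892, 10248, 4360, 33808,
      18448]
    tri := [(0, 1, 5), (0, 1, 7), (0, 5, 6), (0, 6, 7), (1, 2, 7), (1, 2, 8), (1, 5, 8), (2, 3, 8), (2,
      3, 11), (2, 4, 10), (2, 4, 11), (2, 7, 9), (2, 9, 10), (3, 8, 13), (3, 11, 12), (3, 12, 13),
      (4, 10, 14), (4, 11, 15), (4, 14, 15)]
    fin := [0, 1, 2, 2, 4, 0, 6, 1, 1, 2, 4, 4, 12, 13, 14, 15]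
    chd := [(2, 12), (2, 13)]
    steps := [(0, 5), (1, 7), (1, 8), (2, 3), (2, 9), (4, 10), (4, 11)] }
  rep := [1, 0, 2, 4, 12, 13, 6, 14, 15]

noncomputable def v306 : Cov.CovD where
  P := 3
  N := 6
  pl := [0, 1, 9, 10]
  lev := [⟨[], [], [], [1, 6], [(2, 0, [])]⟩,
    ⟨[], [(0, 0)], [(0, 0)], [1], [(2, 0, []), (3, 0, [])]⟩,
    ⟨[(0, 1)], [(0, 0), (1, 0), (1, 2), (1, 3)], [(0, 0), (0, 2), (0, 3), (2, 3), (3, 3)],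
      [], [(2, 0, []), (3, 0, []), (4, 2, [4, 5]), (5, 3, []), (6, 3, [])]⟩,
    ⟨[(1, 2)], [(1, 0), (2, 0), (2, 2), (2, 3), (2, 4), (2, 5)], [(0, 3), (0, 4), (0, 5),
      (3, 4), (3, 5), (4, 5)], [], [(3, 0, []), (6, 3, []), (7, 4, [2]), (8, 5, [2])]⟩,
    ⟨[(1, 2), (2, 3)], [(2, 0), (2, 2), (2, 3), (3, 3)], [(3, 3)], [7, 8], [(5, 3, []), (6,
      3, [])]⟩]
  Ta := [((2, 1), 0, 6), ((2, 4), 0, 2), ((3, 0), 0, 1), ((3, 8), 0, 5), ((5, 4), 3, 2), ((5, 9),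
    3, 7), ((6, 7), 3, 4), ((6, 10), 3, 8)]
  Tb := [((0, 1, 3), 1, 6, 0), ((1, 0, 2), 6, 1, 0), ((2, 1, 4), 0, 6, 2), ((3, 0, 8), 0, 1, 5),
    ((4, 2, 5), 2, 0, 3), ((5, 4, 9), 3, 2, 7), ((6, 7, 10), 3, 4, 8), ((7, 6, 8), 4, 3, 5),
    ((8, 3, 7), 5, 0, 4), ((9, 5, 10), 7, 3, 8), ((10, 6, 9), 8, 3, 7)]
  Tc := [(2, 4, 5)]
  Td := [((2, 4), (4, 2), 0), ((2, 4), (4, 5), 3), ((2, 5), (4, 2), 0), ((2, 5), (4, 5), 3), ((4,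
    2), (7, 6), 3), ((4, 2), (7, 8), 5), ((5, 2), (8, 3), 0), ((5, 2), (8, 7), 4)]
  G := [[0, 0, 0xd1b168d171a4c, 0x724b28c724b28cc, 0xd474a4d474a4c], [0, 0, 0xd1b168d1b168c,
    0x724b28c724b28cc, 0xd474a4d474a4c], [0, 0x724b28ab272c26, 0, 0x724b28c1, 0xd474a41], [0,
    0xb272c2b272c26, 0, 0x724b28c1, 0xd474a41]]

noncomputable def n306 : Ent := ⟨e306, noF, [], [], []⟩

def c306 : PLift (Cov.check n306.C.D v306 = true) := ⟨by decide +kernel⟩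

def b306 : PLift (entF (fidx ts) 400 306 n306 = true) := ⟨by decide +kernel⟩

theorem g306 : GoodF (fidx ts) 400 306 := GoodF.ofV v306 n306 c306.down b306.down

/-- 45845:257/1 -/
noncomputable def e307 : SCfg where
  D := {
    a := 5
    L := 9
    kp := 6
    inn := [(0, 1), (1, 0), (1, 2), (2, 1), (2, 3), (2, 4), (3, 2), (4, 2)]
    mix := [(0, 0), (0, 1), (0, 2), (1, 0), (1, 2), (1, 3), (2, 2), (2, 3), (2, 4), (2, 5), (2, 6), (3,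
      1), (3, 2), (3, 4), (4, 4), (4, 5), (4, 7), (4, 8)]
    cl := [2, 1, 0, 0, 3, 3, 4, 5, 6]
    chq := [(1, 4), (4, 1)]
    rng := [(0, 1), (0, 3), (1, 0), (1, 2), (1, 4), (2, 1), (3, 0), (3, 6), (4, 1), (4, 7), (5, 6), (5,
      8), (6, 3), (6, 5), (7, 4), (7, 8), (8, 5), (8, 7)]
    lev := [] }
  links := [[1, 5, 6, 7], [5, 0, 7, 2, 8], [8, 1, 7, 3, 9, 4, 10, 11], [9, 2, 7, 6], [10, 2, 9, 12, 13]]
  P := {
    a := 5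
    N := 14
    nb := [226, 421, 3994, 708, 13828, 323, 681, 79, 2086, 4188, 10260, 1284, 8720, 5136]
    tri := [(0, 1, 5), (0, 1, 7), (0, 5, 6), (0, 6, 7), (1, 2, 7), (1, 2, 8), (1, 5, 8), (2, 3, 7), (2,
      3, 9), (2, 4, 9), (2, 4, 10), (2, 8, 11), (2, 10, 11), (3, 6, 7), (3, 6, 9), (4, 9, 12), (4,
      10, 13), (4, 12, 13)]
    fin := [0, 1, 2, 2, 4, 0, 2, 1, 1, 4, 4, 11, 12, 13]
    chd := [(2, 11)]
    steps := [(0, 5), (1, 7), (1, 8), (2, 3), (2, 6), (4, 9), (4, 10)] }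
  rep := [1, 2, 0, 4, 11, 12, 13]

noncomputable def v307 : Cov.CovD where
  P := 3
  N := 4
  pl := [0, 7, 8]
  lev := [⟨[], [], [(0, 1)], [2], [(1, 1, [4]), (2, 0, [])]⟩,
    ⟨[], [(0, 0), (0, 1)], [(0, 0)], [2], [(2, 0, []), (3, 0, [])]⟩,
    ⟨[(0, 1)], [(0, 0), (1, 0), (1, 3), (1, 4)], [(0, 0), (0, 3), (0, 4), (3, 3), (3, 4)],
      [], [(2, 0, []), (3, 0, []), (4, 3, []), (5, 3, []), (6, 4, [1])]⟩,
    ⟨[(1, 2)], [(0, 0), (0, 1), (1, 0), (2, 0), (2, 1), (2, 3), (2, 4)], [(0, 1), (0, 3),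
      (1, 3)], [], [(1, 1, [4]), (2, 0, []), (4, 3, [])]⟩,
    ⟨[(1, 2), (2, 3)], [(2, 0), (2, 3), (2, 4), (3, 3)], [(3, 3)], [5, 6], [(4, 3, []), (5,
      3, [])]⟩]
  Ta := [((2, 1), 0, 1), ((3, 0), 0, 2), ((3, 6), 0, 4), ((4, 1), 3, 1), ((4, 7), 3, 5), ((5, 6),
    3, 4), ((5, 8), 3, 6)]
  Tb := [((0, 1, 3), 2, 1, 0), ((1, 0, 2), 1, 2, 0), ((1, 0, 4), 1, 2, 3), ((1, 2, 4), 1, 0, 3),
    ((3, 0, 6), 0, 2, 4), ((4, 1, 7), 3, 1, 5), ((5, 6, 8), 3, 4, 6), ((6, 3, 5), 4, 0, 3),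
    ((7, 4, 8), 5, 3, 6), ((8, 5, 7), 6, 3, 5)]
  Tc := []
  Td := [((1, 4), (1, 0), 2), ((1, 4), (1, 2), 0), ((1, 4), (1, 4), 3), ((4, 1), (6, 3), 0), ((4,
    1), (6, 5), 3)]
  G := [[0, 0x4b4e4db6a25eac4, 0, 0xb7c284, 0xb7c22dc4bcca8], [0, 0xf2f86f28c8, 0, 0xf4248,
    0xf822424ca8], [0, 0, 0xf1e79ab45468, 0xe79288, 0xc3c8f567898a8], [0, 0, 0x2428f4e48,
    0xf4281, 0x2428f8e81]]

noncomputable def n307 : Ent := ⟨e307, noF, [], [], []⟩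

def c307 : PLift (Cov.check n307.C.D v307 = true) := ⟨by decide +kernel⟩

def b307 : PLift (entF (fidx ts) 400 307 n307 = true) := ⟨by decide +kernel⟩

theorem g307 : GoodF (fidx ts) 400 307 := GoodF.ofV v307 n307 c307.down b307.down

/-- 45845:257 -/
noncomputable def e308 : SCfg where
  D := {
    a := 5
    L := 10
    kp := 7
    inn := [(0, 1), (1, 0), (1, 2), (2, 1), (2, 3), (2, 4), (3, 2), (4, 2)]
    mix := [(0, 0), (0, 1), (0, 2), (1, 0), (1, 2), (1, 3), (2, 2), (2, 3), (2, 4), (2, 5), (2, 6), (3,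
      2), (3, 4), (3, 7), (4, 4), (4, 5), (4, 8), (4, 9)]
    cl := [1, 5, 0, 0, 3, 3, 2, 4, 6, 7]
    chq := [(2, 4), (4, 2)]
    rng := [(0, 1), (0, 3), (1, 0), (1, 2), (2, 1), (2, 7), (3, 0), (3, 6), (4, 7), (4, 8), (5, 6), (5,
      9), (6, 3), (6, 5), (7, 2), (7, 4), (8, 4), (8, 9), (9, 5), (9, 8)]
    lev := [] }
  links := [[1, 5, 6, 7], [5, 0, 7, 2, 8], [8, 1, 7, 3, 9, 4, 10, 11], [9, 2, 7, 12], [10, 2, 9, 13, 14]]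
  P := {
    a := 5
    N := 15
    nb := [226, 421, 3994, 4740, 26116, 323, 161, 4175, 2086, 12316, 18452, 1284, 648, 16912, 9232]
    tri := [(0, 1, 5), (0, 1, 7), (0, 5, 6), (0, 6, 7), (1, 2, 7), (1, 2, 8), (1, 5, 8), (2, 3, 7), (2,
      3, 9), (2, 4, 9), (2, 4, 10), (2, 8, 11), (2, 10, 11), (3, 7, 12), (3, 9, 12), (4, 9, 13),
      (4, 10, 14), (4, 13, 14)]
    fin := [0, 1, 2, 2, 4, 0, 6, 1, 1, 4, 4, 11, 2, 13, 14]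
    chd := [(11, 2)]
    steps := [(0, 5), (1, 7), (1, 8), (2, 3), (2, 12), (4, 9), (4, 10)] }
  rep := [1, 0, 11, 4, 2, 6, 13, 14]

noncomputable def v308 : Cov.CovD where
  P := 3
  N := 5
  pl := [0, 1, 8, 9]
  lev := [⟨[], [], [], [1, 5], [(2, 0, [])]⟩,
    ⟨[], [(0, 0)], [(0, 0)], [1], [(2, 0, []), (3, 0, [])]⟩,
    ⟨[(0, 1)], [(0, 0), (1, 0), (1, 2), (1, 3)], [(0, 0), (0, 2), (0, 3), (2, 3), (3, 3)],
      [], [(2, 0, []), (3, 0, []), (4, 3, []), (5, 3, []), (6, 2, [4])]⟩,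
    ⟨[(1, 2)], [(0, 0), (1, 0), (2, 0), (2, 2), (2, 3), (2, 4)], [(0, 3), (0, 4), (3, 4)],
      [], [(2, 0, []), (4, 3, []), (7, 4, [2])]⟩,
    ⟨[(1, 2), (2, 3)], [(2, 0), (2, 2), (2, 3), (3, 3)], [(3, 3)], [6, 7], [(4, 3, []), (5,
      3, [])]⟩]
  Ta := [((2, 1), 0, 5), ((2, 7), 0, 4), ((3, 0), 0, 1), ((3, 6), 0, 2), ((4, 7), 3, 4), ((4, 8),
    3, 6), ((5, 6), 3, 2), ((5, 9), 3, 7)]
  Tb := [((0, 1, 3), 1, 5, 0), ((1, 0, 2), 5, 1, 0), ((2, 1, 7), 0, 5, 4), ((3, 0, 6), 0, 1, 2),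
    ((4, 7, 8), 3, 4, 6), ((5, 6, 9), 3, 2, 7), ((6, 3, 5), 2, 0, 3), ((7, 2, 4), 4, 0, 3),
    ((8, 4, 9), 6, 3, 7), ((9, 5, 8), 7, 3, 6)]
  Tc := []
  Td := [((2, 4), (6, 3), 0), ((2, 4), (6, 5), 3), ((4, 2), (7, 2), 0), ((4, 2), (7, 4), 3)]
  G := [[0, 0, 0, 0x724b28c724b28cc, 0xd474a4d474a4c], [0, 0, 0, 0x724b28c784f28cc,
    0xd474a4d474a4c], [0, 0xb272c2b1f2c2a, 0xd1b168d171a4c, 0x724b28c1, 0xd474a41], [0,
    0x7248b272c2b282e, 0xf2f8a41, 0x724b28c1, 0xd474a41]]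

noncomputable def n308 : Ent := ⟨e308, noF, [], [], [(6, 12, [87899350853947037246286378706680507498760953601682102759425, 0])]⟩

def c308 : PLift (Cov.check n308.C.D v308 = true) := ⟨by decide +kernel⟩

def b308 : PLift (entF (fidx ts) 400 308 n308 = true) := ⟨by decide +kernel⟩

theorem g308 : GoodF (fidx ts) 400 308 := GoodF.ofV v308 n308 c308.down b308.down

/-- 45855:258/2 -/
noncomputable def e309 : SCfg where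
  D := {
    a := 5
    L := 9
    kp := 6
    inn := [(0, 1), (1, 0), (1, 2), (2, 1), (2, 3), (2, 4), (3, 2), (4, 2)]
    mix := [(0, 0), (0, 1), (0, 2), (1, 0), (1, 2), (1, 3), (2, 2), (2, 3), (2, 4), (2, 5), (2, 6), (3,
      1), (3, 2), (3, 4), (3, 7), (4, 4), (4, 5), (4, 7), (4, 8)]
    cl := [2, 1, 0, 0, 3, 3, 5, 4, 6]
    chq := [(1, 5), (4, 5), (5, 1), (5, 4)]
    rng := [(0, 1), (0, 3), (1, 0), (1, 2), (1, 7), (2, 1), (3, 0), (3, 6), (4, 7), (5, 6), (5, 8), (6,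
      3), (6, 5), (7, 1), (7, 4), (7, 8), (8, 5), (8, 7)]
    lev := [] }
  links := [[1, 5, 6, 7], [5, 0, 7, 2, 8], [8, 1, 7, 3, 9, 4, 10, 11], [9, 2, 7, 6, 12], [10, 2, 9, 12,
    13]]
  P := {
    a := 5
    N := 14
    nb := [226, 421, 3994, 4804, 13828, 323, 4265, 79, 2086, 4124, 10260, 1284, 8792, 5136]
    tri := [(0, 1, 5), (0, 1, 7), (0, 5, 6), (0, 6, 7), (1, 2, 7), (1, 2, 8), (1, 5, 8), (2, 3, 7), (2,
      3, 9), (2, 4, 9), (2, 4, 10), (2, 8, 11), (2, 10, 11), (3, 6, 7), (3, 6, 12), (3, 9, 12),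
      (4, 9, 12), (4, 10, 13), (4, 12, 13)]
    fin := [0, 1, 2, 2, 4, 0, 6, 1, 1, 4, 4, 2, 12, 13]
    chd := [(2, 12), (6, 2)]
    steps := [(0, 5), (1, 7), (1, 8), (2, 3), (2, 11), (4, 9), (4, 10)] }
  rep := [1, 6, 0, 4, 12, 2, 13]

noncomputable def v309 : Cov.CovD where
  P := 3
  N := 4
  pl := [0, 8]
  lev := [⟨[], [], [(0, 1)], [2], [(1, 1, [5]), (2, 0, [])]⟩,
    ⟨[], [(0, 0), (0, 1)], [(0, 0)], [2], [(2, 0, []), (3, 0, [])]⟩,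
    ⟨[(0, 1)], [(0, 0), (1, 0), (1, 3), (1, 5)], [(0, 0), (0, 3), (0, 5), (3, 3), (3, 5)],
      [], [(2, 0, []), (3, 0, []), (4, 3, []), (5, 3, []), (6, 5, [1, 4])]⟩,
    ⟨[(1, 2)], [(0, 0), (0, 1), (1, 0), (2, 0), (2, 1), (2, 3), (2, 4), (2, 5)], [(0, 1),
      (0, 3), (0, 4), (1, 3), (1, 4), (3, 4)], [], [(1, 1, [5]), (2, 0, []), (4, 3, []), (7,
      4, [5])]⟩,
    ⟨[(1, 2), (2, 3)], [(2, 0), (2, 3), (2, 4), (2, 5), (3, 3), (3, 4)], [(3, 3), (3, 4)],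
      [6], [(4, 3, []), (5, 3, []), (7, 4, [5])]⟩]
  Ta := [((2, 1), 0, 1), ((3, 0), 0, 2), ((3, 6), 0, 5), ((4, 7), 3, 4), ((5, 6), 3, 5), ((5, 8),
    3, 6)]
  Tb := [((0, 1, 3), 2, 1, 0), ((1, 0, 2), 1, 2, 0), ((1, 0, 7), 1, 2, 4), ((1, 2, 7), 1, 0, 4),
    ((3, 0, 6), 0, 2, 5), ((5, 6, 8), 3, 5, 6), ((6, 3, 5), 5, 0, 3), ((7, 1, 4), 4, 1, 3),
    ((7, 1, 8), 4, 1, 6), ((7, 4, 8), 4, 3, 6), ((8, 5, 7), 6, 3, 4)]
  Tc := [(5, 1, 4)]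
  Td := [((1, 5), (1, 0), 2), ((1, 5), (1, 2), 0), ((1, 5), (1, 7), 4), ((4, 5), (7, 1), 1), ((4,
    5), (7, 4), 3), ((4, 5), (7, 8), 6), ((5, 1), (6, 3), 0), ((5, 1), (6, 5), 3), ((5, 4),
    (6, 3), 0), ((5, 4), (6, 5), 3)]
  G := [[0, 0xd3693a97ce48, 0, 0xd8b7c6d48c8, 0xd3ab7c6d368a8], [0, 0xf4b8d8e48, 0,
    0xf8e46d48c8, 0xf82f4f8ca8], [0, 0, 0xd2aa61d6d268a8, 0xd84d4a63dac8, 0xd2aa63d6d268a8],
    [0, 0, 0xf8f46f48c8, 0xd84c15e2cac4, 0xf82f4f8ca8]]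

noncomputable def n309 : Ent := ⟨e309, noF, [], [], []⟩

def c309 : PLift (Cov.check n309.C.D v309 = true) := ⟨by decide +kernel⟩

def b309 : PLift (entF (fidx ts) 400 309 n309 = true) := ⟨by decide +kernel⟩

theorem g309 : GoodF (fidx ts) 400 309 := GoodF.ofV v309 n309 c309.down b309.down

/-- 45855:258/1 -/
noncomputable def e310 : SCfg where
  D := {
    a := 5
    L := 10
    kp := 7
    inn := [(0, 1), (1, 0), (1, 2), (2, 1), (2, 3), (2, 4), (3, 2), (4, 2)]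
    mix := [(0, 0), (0, 1), (0, 2), (1, 0), (1, 2), (1, 3), (2, 2), (2, 3), (2, 4), (2, 5), (2, 6), (3,
      1), (3, 2), (3, 4), (3, 7), (4, 4), (4, 5), (4, 8), (4, 9)]
    cl := [2, 1, 0, 0, 3, 3, 4, 5, 6, 7]
    chq := [(1, 4), (4, 1), (4, 5), (5, 4)]
    rng := [(0, 1), (0, 3), (1, 0), (1, 2), (1, 7), (2, 1), (3, 0), (3, 6), (4, 7), (4, 8), (5, 6), (5,
      9), (6, 3), (6, 5), (7, 1), (7, 4), (8, 4), (8, 9), (9, 5), (9, 8)]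
    lev := [] }
  links := [[1, 5, 6, 7], [5, 0, 7, 2, 8], [8, 1, 7, 3, 9, 4, 10, 11], [9, 2, 7, 6, 12], [10, 2, 9, 13,
    14]]
  P := {
    a := 5
    N := 15
    nb := [226, 421, 3994, 4804, 26116, 323, 4265, 79, 2086, 12316, 18452, 1284, 584, 16912, 9232]
    tri := [(0, 1, 5), (0, 1, 7), (0, 5, 6), (0, 6, 7), (1, 2, 7), (1, 2, 8), (1, 5, 8), (2, 3, 7), (2,
      3, 9), (2, 4, 9), (2, 4, 10), (2, 8, 11), (2, 10, 11), (3, 6, 7), (3, 6, 12), (3, 9, 12),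
      (4, 9, 13), (4, 10, 14), (4, 13, 14)]
    fin := [0, 1, 2, 2, 4, 0, 6, 1, 1, 4, 4, 2, 12, 13, 14]
    chd := [(2, 12), (6, 2)]
    steps := [(0, 5), (1, 7), (1, 8), (2, 3), (2, 11), (4, 9), (4, 10)] }
  rep := [1, 6, 0, 4, 2, 12, 13, 14]

noncomputable def v310 : Cov.CovD where
  P := 3
  N := 5
  pl := [0, 8, 9]
  lev := [⟨[], [], [(0, 1)], [2], [(1, 1, [4]), (2, 0, [])]⟩,
    ⟨[], [(0, 0), (0, 1)], [(0, 0)], [2], [(2, 0, []), (3, 0, [])]⟩,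
    ⟨[(0, 1)], [(0, 0), (1, 0), (1, 3), (1, 4)], [(0, 0), (0, 3), (0, 4), (3, 3), (3, 4)],
      [], [(2, 0, []), (3, 0, []), (4, 3, []), (5, 3, []), (6, 4, [1, 5])]⟩,
    ⟨[(1, 2)], [(0, 0), (0, 1), (1, 0), (2, 0), (2, 1), (2, 3), (2, 4), (2, 5)], [(0, 1),
      (0, 3), (0, 5), (1, 3), (1, 5), (3, 5)], [], [(1, 1, [4]), (2, 0, []), (4, 3, []), (7,
      5, [4])]⟩,
    ⟨[(1, 2), (2, 3)], [(2, 0), (2, 3), (2, 4), (3, 3)], [(3, 3)], [6, 7], [(4, 3, []), (5,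
      3, [])]⟩]
  Ta := [((2, 1), 0, 1), ((3, 0), 0, 2), ((3, 6), 0, 4), ((4, 7), 3, 5), ((4, 8), 3, 6), ((5, 6),
    3, 4), ((5, 9), 3, 7)]
  Tb := [((0, 1, 3), 2, 1, 0), ((1, 0, 2), 1, 2, 0), ((1, 0, 7), 1, 2, 5), ((1, 2, 7), 1, 0, 5),
    ((3, 0, 6), 0, 2, 4), ((4, 7, 8), 3, 5, 6), ((5, 6, 9), 3, 4, 7), ((6, 3, 5), 4, 0, 3),
    ((7, 1, 4), 5, 1, 3), ((8, 4, 9), 6, 3, 7), ((9, 5, 8), 7, 3, 6)]
  Tc := [(4, 1, 5)]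
  Td := [((1, 4), (1, 0), 2), ((1, 4), (1, 2), 0), ((1, 4), (1, 7), 5), ((4, 1), (6, 3), 0), ((4,
    1), (6, 5), 3), ((4, 5), (6, 3), 0), ((4, 5), (6, 5), 3), ((5, 4), (7, 1), 1), ((5, 4),
    (7, 4), 3)]
  G := [[0, 0xd7a4db6b7cac4, 0, 0xd8b7c6d48c8, 0xd7ab7c6db68a8], [0, 0xf84f2f8ac8, 0,
    0xd8f86f48c4, 0xf8f86f48a8], [0, 0, 0xb7dd2d26d2aca8, 0xd49b7bd6d48c8, 0xd2ab7fd6d268a8],
    [0, 0, 0xf84f4f8ac8, 0xd84f4f8ac4, 0xf8f46f48a8]]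

noncomputable def n310 : Ent := ⟨e310, noF, [], [], [(12, 13, [87897818358406171357428020359653357189577334862559919165441, 0])]⟩

def c310 : PLift (Cov.check n310.C.D v310 = true) := ⟨by decide +kernel⟩

def b310 : PLift (entF (fidx ts) 400 310 n310 = true) := ⟨by decide +kernel⟩

theorem g310 : GoodF (fidx ts) 400 310 := GoodF.ofV v310 n310 c310.down b310.down

/-- 45855:258/3 -/
noncomputable def e311 : SCfg where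
  D := {
    a := 5
    L := 10
    kp := 7
    inn := [(0, 1), (1, 0), (1, 2), (2, 1), (2, 3), (2, 4), (3, 2), (4, 2)]
    mix := [(0, 0), (0, 1), (0, 2), (1, 0), (1, 2), (1, 3), (2, 2), (2, 3), (2, 4), (2, 5), (2, 6), (3,
      2), (3, 4), (3, 7), (3, 8), (4, 4), (4, 5), (4, 8), (4, 9)]
    cl := [1, 6, 0, 0, 3, 3, 2, 5, 4, 7]
    chq := [(2, 4), (2, 5), (4, 2), (5, 2)]
    rng := [(0, 1), (0, 3), (1, 0), (1, 2), (2, 1), (2, 7), (3, 0), (3, 6), (4, 8), (5, 6), (5, 9), (6,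
      3), (6, 5), (7, 2), (7, 8), (8, 4), (8, 7), (8, 9), (9, 5), (9, 8)]
    lev := [] }
  links := [[1, 5, 6, 7], [5, 0, 7, 2, 8], [8, 1, 7, 3, 9, 4, 10, 11], [9, 2, 7, 12, 13], [10, 2, 9, 13,
    14]]
  P := {
    a := 5
    N := 15
    nb := [226, 421, 3994, 12932, 26116, 323, 161, 4175, 2086, 8220, 18452, 1284, 8328, 21016, 9232]
    tri := [(0, 1, 5), (0, 1, 7), (0, 5, 6), (0, 6, 7), (1, 2, 7), (1, 2, 8), (1, 5, 8), (2, 3, 7), (2,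
      3, 9), (2, 4, 9), (2, 4, 10), (2, 8, 11), (2, 10, 11), (3, 7, 12), (3, 9, 13), (3, 12, 13),
      (4, 9, 13), (4, 10, 14), (4, 13, 14)]
    fin := [0, 1, 2, 2, 4, 0, 6, 1, 1, 4, 4, 2, 12, 13, 14]
    chd := [(2, 12), (2, 13)]
    steps := [(0, 5), (1, 7), (1, 8), (2, 3), (2, 11), (4, 9), (4, 10)] }
  rep := [1, 0, 2, 4, 13, 12, 6, 14]

noncomputable def v311 : Cov.CovD where
  P := 3
  N := 5
  pl := [0, 1, 9]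
  lev := [⟨[], [], [], [1, 6], [(2, 0, [])]⟩,
    ⟨[], [(0, 0)], [(0, 0)], [1], [(2, 0, []), (3, 0, [])]⟩,
    ⟨[(0, 1)], [(0, 0), (1, 0), (1, 2), (1, 3)], [(0, 0), (0, 2), (0, 3), (2, 3), (3, 3)],
      [], [(2, 0, []), (3, 0, []), (4, 3, []), (5, 3, []), (6, 2, [4, 5])]⟩,
    ⟨[(1, 2)], [(0, 0), (1, 0), (2, 0), (2, 2), (2, 3), (2, 4), (2, 5)], [(0, 3), (0, 4),
      (0, 5), (3, 4), (3, 5), (4, 5)], [], [(2, 0, []), (4, 3, []), (7, 5, [2]), (8, 4,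
      [2])]⟩,
    ⟨[(1, 2), (2, 3)], [(2, 0), (2, 2), (2, 3), (2, 4), (3, 3), (3, 4)], [(3, 3), (3, 4)],
      [7], [(4, 3, []), (5, 3, []), (8, 4, [2])]⟩]
  Ta := [((2, 1), 0, 6), ((2, 7), 0, 5), ((3, 0), 0, 1), ((3, 6), 0, 2), ((4, 8), 3, 4), ((5, 6),
    3, 2), ((5, 9), 3, 7)]
  Tb := [((0, 1, 3), 1, 6, 0), ((1, 0, 2), 6, 1, 0), ((2, 1, 7), 0, 6, 5), ((3, 0, 6), 0, 1, 2),
    ((5, 6, 9), 3, 2, 7), ((6, 3, 5), 2, 0, 3), ((7, 2, 8), 5, 0, 4), ((8, 4, 7), 4, 3, 5),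
    ((8, 4, 9), 4, 3, 7), ((8, 7, 9), 4, 5, 7), ((9, 5, 8), 7, 3, 4)]
  Tc := [(2, 4, 5)]
  Td := [((2, 4), (6, 3), 0), ((2, 4), (6, 5), 3), ((2, 5), (6, 3), 0), ((2, 5), (6, 5), 3), ((4,
    2), (8, 4), 3), ((4, 2), (8, 7), 5), ((4, 2), (8, 9), 7), ((5, 2), (7, 2), 0), ((5, 2),
    (7, 8), 4)]
  G := [[0, 0, 0, 0x724b28c724b28cc, 0xd474a4d474a4c], [0, 0, 0, 0x724b28c3272c828cc,
    0xd474a4d474a4c], [0, 0xb272c2b272c2c, 0xd1b168d171a4c, 0x424b232cc1, 0xd474a41], [0,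
    0xb272c23272c828aa, 0xd1b168d171a4c, 0x424b232cc1, 0xd474a41]]

noncomputable def n311 : Ent := ⟨e311, noF, [], [], [(6, 12, [87899350853947037246286378706680507498760953601682102767617, 0])]⟩

def c311 : PLift (Cov.check n311.C.D v311 = true) := ⟨by decide +kernel⟩

def b311 : PLift (entF (fidx ts) 400 311 n311 = true) := ⟨by decide +kernel⟩

theorem g311 : GoodF (fidx ts) 400 311 := GoodF.ofV v311 n311 c311.down b311.down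

/-- 45855:258 -/
noncomputable def e312 : SCfg where
  D := {
    a := 5
    L := 11
    kp := 8
    inn := [(0, 1), (1, 0), (1, 2), (2, 1), (2, 3), (2, 4), (3, 2), (4, 2)]
    mix := [(0, 0), (0, 1), (0, 2), (1, 0), (1, 2), (1, 3), (2, 2), (2, 3), (2, 4), (2, 5), (2, 6), (3,
      2), (3, 4), (3, 7), (3, 8), (4, 4), (4, 5), (4, 9), (4, 10)]
    cl := [1, 6, 0, 0, 3, 3, 2, 4, 5, 7, 8]
    chq := [(2, 4), (2, 5), (4, 2), (5, 2)]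
    rng := [(0, 1), (0, 3), (1, 0), (1, 2), (2, 1), (2, 7), (3, 0), (3, 6), (4, 8), (4, 9), (5, 6), (5,
      10), (6, 3), (6, 5), (7, 2), (7, 8), (8, 4), (8, 7), (9, 4), (9, 10), (10, 5), (10, 9)]
    lev := [] }
  links := [[1, 5, 6, 7], [5, 0, 7, 2, 8], [8, 1, 7, 3, 9, 4, 10, 11], [9, 2, 7, 12, 13], [10, 2, 9, 14,
    15]]
  P := {
    a := 5
    N := 16
    nb := [226, 421, 3994, 12932, 50692, 323, 161, 4175, 2086, 24604, 34836, 1284, 8328, 4616, 33296,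
      17424]
    tri := [(0, 1, 5), (0, 1, 7), (0, 5, 6), (0, 6, 7), (1, 2, 7), (1, 2, 8), (1, 5, 8), (2, 3, 7), (2,
      3, 9), (2, 4, 9), (2, 4, 10), (2, 8, 11), (2, 10, 11), (3, 7, 12), (3, 9, 13), (3, 12, 13),
      (4, 9, 14), (4, 10, 15), (4, 14, 15)]
    fin := [0, 1, 2, 2, 4, 0, 6, 1, 1, 4, 4, 2, 12, 13, 14, 15]
    chd := [(2, 12), (2, 13)]
    steps := [(0, 5), (1, 7), (1, 8), (2, 3), (2, 11), (4, 9), (4, 10)] }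
  rep := [1, 0, 2, 4, 12, 13, 6, 14, 15]

noncomputable def v312 : Cov.CovD where
  P := 3
  N := 6
  pl := [0, 1, 9, 10]
  lev := [⟨[], [], [], [1, 6], [(2, 0, [])]⟩,
    ⟨[], [(0, 0)], [(0, 0)], [1], [(2, 0, []), (3, 0, [])]⟩,
    ⟨[(0, 1)], [(0, 0), (1, 0), (1, 2), (1, 3)], [(0, 0), (0, 2), (0, 3), (2, 3), (3, 3)],
      [], [(2, 0, []), (3, 0, []), (4, 3, []), (5, 3, []), (6, 2, [4, 5])]⟩,
    ⟨[(1, 2)], [(0, 0), (1, 0), (2, 0), (2, 2), (2, 3), (2, 4), (2, 5)], [(0, 3), (0, 4),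
      (0, 5), (3, 4), (3, 5), (4, 5)], [], [(2, 0, []), (4, 3, []), (7, 4, [2]), (8, 5,
      [2])]⟩,
    ⟨[(1, 2), (2, 3)], [(2, 0), (2, 2), (2, 3), (3, 3)], [(3, 3)], [7, 8], [(4, 3, []), (5,
      3, [])]⟩]
  Ta := [((2, 1), 0, 6), ((2, 7), 0, 4), ((3, 0), 0, 1), ((3, 6), 0, 2), ((4, 8), 3, 5), ((4, 9),
    3, 7), ((5, 6), 3, 2), ((5, 10), 3, 8)]
  Tb := [((0, 1, 3), 1, 6, 0), ((1, 0, 2), 6, 1, 0), ((2, 1, 7), 0, 6, 4), ((3, 0, 6), 0, 1, 2),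
    ((4, 8, 9), 3, 5, 7), ((5, 6, 10), 3, 2, 8), ((6, 3, 5), 2, 0, 3), ((7, 2, 8), 4, 0, 5),
    ((8, 4, 7), 5, 3, 4), ((9, 4, 10), 7, 3, 8), ((10, 5, 9), 8, 3, 7)]
  Tc := [(2, 4, 5)]
  Td := [((2, 4), (6, 3), 0), ((2, 4), (6, 5), 3), ((2, 5), (6, 3), 0), ((2, 5), (6, 5), 3), ((4,
    2), (7, 2), 0), ((4, 2), (7, 8), 5), ((5, 2), (8, 4), 3), ((5, 2), (8, 7), 4)]
  G := [[0, 0, 0, 0x724b28c3272c828cc, 0xd474a4d474a4c], [0, 0, 0, 0x724b28c3272c828cc,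
    0xd474a4d474a4c], [0, 0x724b28ab272c2c, 0xd1b168d171a4c, 0x424b232cc1, 0xd474a41], [0,
    0xb272c2b272c26, 0xd1b168d1b168c, 0x724b28c1, 0xd474a41]]

noncomputable def n312 : Ent := ⟨e312, noF, [], [], [(6, 12, [385753029973011613167317188540585705112827479461471962591879169, 0]), (13, 14, [385746751338780685620664494392815470296102193487288376373768193, 0])]⟩

def c312 : PLift (Cov.check n312.C.D v312 = true) := ⟨by decide +kernel⟩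

def b312 : PLift (entF (fidx ts) 400 312 n312 = true) := ⟨by decide +kernel⟩

theorem g312 : GoodF (fidx ts) 400 312 := GoodF.ofV v312 n312 c312.down b312.down

/-- 57756:259 -/
noncomputable def e313 : SCfg where
  D := {
    a := 5
    L := 11
    kp := 8
    inn := [(0, 1), (0, 2), (1, 0), (1, 2), (1, 3), (2, 0), (2, 1), (2, 3), (2, 4), (3, 1), (3, 2), (3,
      4), (4, 2), (4, 3)]
    mix := [(0, 0), (0, 1), (0, 2), (1, 2), (1, 3), (1, 4), (1, 5), (2, 0), (2, 6), (2, 7), (3, 5), (3,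
      8), (4, 6), (4, 8), (4, 9), (4, 10)]
    cl := [1, 2, 0, 5, 6, 0, 3, 4, 3, 7, 8]
    chq := [(0, 1), (0, 4), (1, 0), (4, 0)]
    rng := [(0, 1), (0, 7), (1, 0), (1, 2), (2, 1), (2, 3), (3, 2), (3, 4), (4, 3), (4, 5), (5, 4), (5,
      8), (6, 7), (6, 10), (7, 0), (7, 6), (8, 5), (8, 9), (9, 8), (9, 10), (10, 6), (10, 9)]
    lev := [] }
  links := [[1, 2, 5, 6, 7], [2, 0, 7, 8, 9, 10, 3], [5, 0, 1, 3, 4, 11, 12], [4, 2, 1, 10, 13], [11, 2,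
    3, 13, 14, 15]]
  P := {
    a := 5
    N := 16
    nb := [230, 1933, 6203, 9238, 59404, 4165, 161, 323, 642, 1282, 8714, 36884, 2084, 17432, 40976,
      18448]
    tri := [(0, 1, 2), (0, 1, 7), (0, 2, 5), (0, 5, 6), (0, 6, 7), (1, 2, 3), (1, 3, 10), (1, 7, 8),
      (1, 8, 9), (1, 9, 10), (2, 3, 4), (2, 4, 11), (2, 5, 12), (2, 11, 12), (3, 4, 13), (3, 10,
      13), (4, 11, 15), (4, 13, 14), (4, 14, 15)]
    fin := [0, 1, 1, 1, 4, 0, 6, 1, 8, 9, 1, 4, 12, 4, 14, 15]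
    chd := [(0, 1), (1, 12)]
    steps := [(0, 5), (1, 2), (1, 3), (1, 7), (1, 10), (4, 13), (4, 11)] }
  rep := [1, 0, 6, 4, 12, 8, 9, 14, 15]

noncomputable def v313 : Cov.CovD where
  P := 3
  N := 6
  pl := [1, 3, 4, 9, 10]
  lev := [⟨[], [], [(0, 1)], [2], [(0, 1, [0]), (2, 0, [1, 4])]⟩,
    ⟨[], [(0, 0), (0, 1)], [(0, 0)], [5, 6], [(2, 0, [1, 4]), (5, 0, [1, 4])]⟩,
    ⟨[(0, 1)], [(0, 0), (0, 1), (0, 3), (0, 4), (1, 0), (1, 1), (1, 3), (1, 4)], [(1, 3),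
      (1, 4), (3, 4)], [], [(0, 1, [0]), (6, 3, []), (7, 4, [0])]⟩,
    ⟨[(0, 1), (0, 2), (1, 2)], [(1, 0), (1, 3), (2, 0), (2, 1), (2, 3), (2, 4)], [(0, 3)],
      [], [(5, 0, [1, 4]), (8, 3, [])]⟩,
    ⟨[(0, 2), (1, 2), (1, 3), (2, 3)], [(2, 1), (2, 3), (2, 4), (3, 0), (3, 3)], [(3, 3)],
      [7, 8], [(6, 3, []), (8, 3, [])]⟩]
  Ta := [((2, 1), 0, 2), ((2, 3), 0, 5), ((5, 4), 0, 6), ((5, 8), 0, 3), ((6, 7), 3, 4), ((6,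
    10), 3, 8), ((8, 5), 3, 0), ((8, 9), 3, 7)]
  Tb := [((0, 1, 7), 1, 2, 4), ((1, 0, 2), 2, 1, 0), ((2, 1, 3), 0, 2, 5), ((3, 2, 4), 5, 0, 6),
    ((4, 3, 5), 6, 5, 0), ((5, 4, 8), 0, 6, 3), ((6, 7, 10), 3, 4, 8), ((7, 0, 6), 4, 1, 3),
    ((8, 5, 9), 3, 0, 7), ((9, 8, 10), 7, 3, 8), ((10, 6, 9), 8, 3, 7)]
  Tc := [(0, 1, 4)]
  Td := [((0, 1), (2, 1), 2), ((0, 1), (2, 3), 5), ((0, 1), (5, 4), 6), ((0, 1), (5, 8), 3), ((0,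
    4), (2, 1), 2), ((0, 4), (2, 3), 5), ((0, 4), (5, 4), 6), ((0, 4), (5, 8), 3), ((1, 0),
    (0, 1), 2), ((1, 0), (0, 7), 4), ((4, 0), (7, 0), 1), ((4, 0), (7, 6), 3)]
  G := [[0, 0x1244121212e4f1212e2b141818e8fec, 0xf21f81f81e4, 0xf211218f8d1218f4de1412c8c,
    0xf211218f8d1412f8de1214c89], [0, 0x1214ca671e94af2f8af486c, 0xdb61d16e1b61e1e8,
    0xdb61116bf8917cf89e11c485, 0x116da65d7a1912bf45e11c849], [0,
    0x1844141212e2f1218e8b181814e4fec, 0, 0x1412f4d18f891412f4de12445,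
    0x14f451212f8d1414f4de14889], [0, 0x124384a11aca63f2f8a1486c9ec, 0,
    0x1b648f4111ad6a9116b6c9ec, 0x116da65d6a1116a7c5e116849]]

noncomputable def n313 : Ent := ⟨e313, noF, [], [], []⟩

def c313 : PLift (Cov.check n313.C.D v313 = true) := ⟨by decide +kernel⟩

def b313 : PLift (entF (fidx ts) 400 313 n313 = true) := ⟨by decide +kernel⟩

theorem g313 : GoodF (fidx ts) 400 313 := GoodF.ofV v313 n313 c313.down b313.down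

/-- 57755:260/1 -/
noncomputable def e314 : SCfg where
  D := {
    a := 5
    L := 10
    kp := 7
    inn := [(0, 1), (0, 2), (1, 0), (1, 2), (1, 3), (2, 0), (2, 1), (2, 3), (2, 4), (3, 1), (3, 2), (4,
      2)]
    mix := [(0, 0), (0, 1), (0, 2), (1, 2), (1, 3), (1, 4), (1, 5), (2, 0), (2, 6), (2, 7), (3, 5), (3,
      6), (3, 8), (4, 6), (4, 7), (4, 8), (4, 9)]
    cl := [1, 2, 3, 5, 6, 3, 0, 0, 4, 7]
    chq := [(1, 3), (1, 4), (3, 1), (4, 1)]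
    rng := [(0, 1), (0, 7), (1, 0), (1, 2), (2, 1), (2, 3), (3, 2), (3, 4), (4, 3), (4, 5), (5, 4), (5,
      8), (6, 8), (7, 0), (7, 9), (8, 5), (8, 6), (8, 9), (9, 7), (9, 8)]
    lev := [] }
  links := [[1, 2, 5, 6, 7], [2, 0, 7, 8, 9, 10, 3], [5, 0, 1, 3, 11, 4, 12], [11, 2, 1, 10, 13], [12, 2,
    11, 13, 14]]
  P := {
    a := 5
    N := 15
    nb := [230, 1933, 6203, 11270, 30724, 4165, 161, 323, 642, 1282, 8714, 8220, 16436, 19480, 12304]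
    tri := [(0, 1, 2), (0, 1, 7), (0, 2, 5), (0, 5, 6), (0, 6, 7), (1, 2, 3), (1, 3, 10), (1, 7, 8),
      (1, 8, 9), (1, 9, 10), (2, 3, 11), (2, 4, 11), (2, 4, 12), (2, 5, 12), (3, 10, 13), (3, 11,
      13), (4, 11, 13), (4, 12, 14), (4, 13, 14)]
    fin := [0, 1, 0, 0, 4, 0, 6, 1, 8, 9, 1, 4, 4, 13, 14]
    chd := [(0, 1), (0, 13)]
    steps := [(0, 2), (0, 3), (0, 5), (1, 7), (1, 10), (4, 11), (4, 12)] }
  rep := [4, 0, 6, 1, 13, 8, 9, 14]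

noncomputable def v314 : Cov.CovD where
  P := 3
  N := 5
  pl := [1, 3, 4, 9]
  lev := [⟨[], [], [(1, 3)], [2], [(0, 1, [3, 4]), (2, 3, [1])]⟩,
    ⟨[], [(0, 1), (0, 3)], [(3, 3)], [5, 6], [(2, 3, [1]), (5, 3, [1])]⟩,
    ⟨[(0, 1)], [(0, 0), (0, 1), (0, 3), (1, 0), (1, 1), (1, 3)], [(0, 0), (0, 1)], [], [(0,
      1, [3, 4]), (6, 0, []), (7, 0, [])]⟩,
    ⟨[(0, 1), (0, 2), (1, 2)], [(1, 0), (1, 3), (1, 4), (2, 0), (2, 1), (2, 3), (2, 4)],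
      [(0, 3), (0, 4), (3, 4)], [], [(5, 3, [1]), (6, 0, []), (8, 4, [1])]⟩,
    ⟨[(0, 2), (1, 2), (2, 3)], [(2, 0), (2, 1), (2, 4), (3, 0), (3, 4)], [(0, 0), (0, 4)],
      [7], [(6, 0, []), (7, 0, []), (8, 4, [1])]⟩]
  Ta := [((2, 1), 3, 2), ((2, 3), 3, 5), ((5, 4), 3, 6), ((5, 8), 3, 4), ((6, 8), 0, 4), ((7, 0),
    0, 1), ((7, 9), 0, 7)]
  Tb := [((0, 1, 7), 1, 2, 0), ((1, 0, 2), 2, 1, 3), ((2, 1, 3), 3, 2, 5), ((3, 2, 4), 5, 3, 6),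
    ((4, 3, 5), 6, 5, 3), ((5, 4, 8), 3, 6, 4), ((7, 0, 9), 0, 1, 7), ((8, 5, 6), 4, 3, 0),
    ((8, 5, 9), 4, 3, 7), ((8, 6, 9), 4, 0, 7), ((9, 7, 8), 7, 0, 4)]
  Tc := [(1, 3, 4)]
  Td := [((1, 3), (0, 1), 2), ((1, 3), (0, 7), 0), ((1, 4), (0, 1), 2), ((1, 4), (0, 7), 0), ((3,
    1), (2, 1), 2), ((3, 1), (2, 3), 5), ((3, 1), (5, 4), 6), ((3, 1), (5, 8), 4), ((4, 1),
    (8, 5), 3), ((4, 1), (8, 6), 0), ((4, 1), (8, 9), 7)]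
  G := [[0, 0, 0xe24648648be28a84a847c, 0xe24624ae28a286e281d, 0xe2444a2c64a2cee28a84e2479], [0,
    0, 0xe24a2422ee4e24f4284c, 0x6288ce28e28e24f1, 0xe24e286a68e24f1], [0,
    0xe14e14e42be18e1882a4867c, 0xe24648648be28a84e287c, 0xe24624ae28a246e281d,
    0xe2444a2c2e64ee28a14e2879], [0, 0xe14e12e14c8ee446f8, 0x8148618e18e18e28fc,
    0x6282ce28e28e24f1, 0xe2442a2c2e64e24f1]]

noncomputable def n314 : Ent := ⟨e314, noF, [], [], []⟩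

def c314 : PLift (Cov.check n314.C.D v314 = true) := ⟨by decide +kernel⟩

def b314 : PLift (entF (fidx ts) 400 314 n314 = true) := ⟨by decide +kernel⟩

theorem g314 : GoodF (fidx ts) 400 314 := GoodF.ofV v314 n314 c314.down b314.down

/-- 57755:260 -/
noncomputable def e315 : SCfg where
  D := {
    a := 5
    L := 11
    kp := 8
    inn := [(0, 1), (0, 2), (1, 0), (1, 2), (1, 3), (2, 0), (2, 1), (2, 3), (2, 4), (3, 1), (3, 2), (4,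
      2)]
    mix := [(0, 0), (0, 1), (0, 2), (1, 2), (1, 3), (1, 4), (1, 5), (2, 0), (2, 6), (2, 7), (3, 5), (3,
      6), (3, 8), (4, 6), (4, 7), (4, 9), (4, 10)]
    cl := [1, 2, 3, 5, 6, 3, 0, 0, 4, 7, 8]
    chq := [(1, 3), (1, 4), (3, 1), (4, 1)]
    rng := [(0, 1), (0, 7), (1, 0), (1, 2), (2, 1), (2, 3), (3, 2), (3, 4), (4, 3), (4, 5), (5, 4), (5,
      8), (6, 8), (6, 9), (7, 0), (7, 10), (8, 5), (8, 6), (9, 6), (9, 10), (10, 7), (10, 9)]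
    lev := [] }
  links := [[1, 2, 5, 6, 7], [2, 0, 7, 8, 9, 10, 3], [5, 0, 1, 3, 11, 4, 12], [11, 2, 1, 10, 13], [12, 2,
    11, 14, 15]]
  P := {
    a := 5
    N := 16
    nb := [230, 1933, 6203, 11270, 55300, 4165, 161, 323, 642, 1282, 8714, 24604, 32820, 3080, 34832,
      20496]
    tri := [(0, 1, 2), (0, 1, 7), (0, 2, 5), (0, 5, 6), (0, 6, 7), (1, 2, 3), (1, 3, 10), (1, 7, 8),
      (1, 8, 9), (1, 9, 10), (2, 3, 11), (2, 4, 11), (2, 4, 12), (2, 5, 12), (3, 10, 13), (3, 11,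
      13), (4, 11, 14), (4, 12, 15), (4, 14, 15)]
    fin := [0, 1, 0, 0, 4, 0, 6, 1, 8, 9, 1, 4, 4, 13, 14, 15]
    chd := [(0, 1), (0, 13)]
    steps := [(0, 2), (0, 3), (0, 5), (1, 7), (1, 10), (4, 11), (4, 12)] }
  rep := [4, 0, 6, 1, 13, 8, 9, 14, 15]

noncomputable def v315 : Cov.CovD where
  P := 3
  N := 6
  pl := [1, 3, 4, 9, 10]
  lev := [⟨[], [], [(1, 3)], [2], [(0, 1, [3, 4]), (2, 3, [1])]⟩,
    ⟨[], [(0, 1), (0, 3)], [(3, 3)], [5, 6], [(2, 3, [1]), (5, 3, [1])]⟩,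
    ⟨[(0, 1)], [(0, 0), (0, 1), (0, 3), (1, 0), (1, 1), (1, 3)], [(0, 0), (0, 1)], [], [(0,
      1, [3, 4]), (6, 0, []), (7, 0, [])]⟩,
    ⟨[(0, 1), (0, 2), (1, 2)], [(1, 0), (1, 3), (1, 4), (2, 0), (2, 1), (2, 3), (2, 4)],
      [(0, 3), (0, 4), (3, 4)], [], [(5, 3, [1]), (6, 0, []), (8, 4, [1])]⟩,
    ⟨[(0, 2), (1, 2), (2, 3)], [(2, 0), (2, 1), (3, 0)], [(0, 0)], [7, 8], [(6, 0, []), (7,
      0, [])]⟩]
  Ta := [((2, 1), 3, 2), ((2, 3), 3, 5), ((5, 4), 3, 6), ((5, 8), 3, 4), ((6, 8), 0, 4), ((6, 9),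
    0, 7), ((7, 0), 0, 1), ((7, 10), 0, 8)]
  Tb := [((0, 1, 7), 1, 2, 0), ((1, 0, 2), 2, 1, 3), ((2, 1, 3), 3, 2, 5), ((3, 2, 4), 5, 3, 6),
    ((4, 3, 5), 6, 5, 3), ((5, 4, 8), 3, 6, 4), ((6, 8, 9), 0, 4, 7), ((7, 0, 10), 0, 1, 8),
    ((8, 5, 6), 4, 3, 0), ((9, 6, 10), 7, 0, 8), ((10, 7, 9), 8, 0, 7)]
  Tc := [(1, 3, 4)]
  Td := [((1, 3), (0, 1), 2), ((1, 3), (0, 7), 0), ((1, 4), (0, 1), 2), ((1, 4), (0, 7), 0), ((3,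
    1), (2, 1), 2), ((3, 1), (2, 3), 5), ((3, 1), (5, 4), 6), ((3, 1), (5, 8), 4), ((4, 1),
    (8, 5), 3), ((4, 1), (8, 6), 0)]
  G := [[0, 0, 0xe246488ace24be28446a8ce287c, 0xe24e24ae284e24e283d,
    0xe2442a2c648e6cee28e84e2879], [0, 0, 0x824eea4a628e28e48e28fc, 0xe24e28e24e24f1,
    0xe24e2844ae6ce24f1], [0, 0xe146181ae42be12e18e827c, 0xe24648cace24be2841a8ce287c,
    0xe24e14ae28e286e281d, 0xe2442a2ceea4ee18e14e2479], [0, 0xe12e18e18e2eecaf4,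
    0xe148e28e18e287c, 0xe24e28e28e28f1, 0x6282ce2844ae6ce28f1]]

noncomputable def n315 : Ent := ⟨e315, noF, [], [], [(13, 14, [385746751338780685620664494392815470296102193487288376373780481, 0])]⟩

def c315 : PLift (Cov.check n315.C.D v315 = true) := ⟨by decide +kernel⟩

def b315 : PLift (entF (fidx ts) 400 315 n315 = true) := ⟨by decide +kernel⟩

theorem g315 : GoodF (fidx ts) 400 315 := GoodF.ofV v315 n315 c315.down b315.down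

/-- 56674:262 -/
noncomputable def e316 : SCfg where
  D := {
    a := 5
    L := 10
    kp := 7
    inn := [(0, 1), (0, 2), (0, 3), (1, 0), (1, 2), (2, 0), (2, 1), (2, 3), (3, 0), (3, 2), (3, 4), (4,
      3)]
    mix := [(0, 0), (0, 1), (1, 1), (1, 2), (1, 3), (1, 4), (2, 4), (2, 5), (2, 6), (3, 0), (3, 6), (3,
      7), (3, 8), (4, 6), (4, 7), (4, 9)]
    cl := [2, 0, 5, 6, 0, 4, 1, 3, 1, 7]
    chq := [(2, 4), (4, 2)]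
    rng := [(0, 1), (0, 8), (1, 0), (1, 2), (2, 1), (2, 3), (3, 2), (3, 4), (4, 3), (4, 5), (5, 4), (5,
      6), (6, 5), (6, 9), (7, 8), (7, 9), (8, 0), (8, 7), (9, 6), (9, 7)]
    lev := [] }
  links := [[1, 2, 3, 5, 6], [2, 0, 6, 7, 8, 9], [3, 0, 1, 9, 10, 11], [5, 0, 2, 11, 4, 12, 13], [12, 3,
    11, 14]]
  P := {
    a := 5
    N := 15
    nb := [110, 965, 3595, 14389, 22536, 8265, 163, 322, 642, 1286, 2564, 17436, 24600, 4136, 6160]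
    tri := [(0, 1, 2), (0, 1, 6), (0, 2, 3), (0, 3, 5), (0, 5, 6), (1, 2, 9), (1, 6, 7), (1, 7, 8), (1,
      8, 9), (2, 3, 11), (2, 9, 10), (2, 10, 11), (3, 4, 11), (3, 4, 12), (3, 5, 13), (3, 12, 13),
      (4, 11, 14), (4, 12, 14)]
    fin := [0, 1, 0, 3, 3, 0, 1, 7, 8, 1, 10, 3, 12, 3, 14]
    chd := [(0, 10)]
    steps := [(0, 2), (0, 5), (1, 6), (1, 9), (3, 4), (3, 11), (3, 13)] }
  rep := [1, 3, 0, 12, 10, 7, 8, 14]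

noncomputable def v316 : Cov.CovD where
  P := 3
  N := 5
  pl := [2, 3, 7, 9]
  lev := [⟨[], [], [(0, 2)], [], [(0, 2, [4]), (1, 0, [])]⟩,
    ⟨[], [(0, 0), (0, 2)], [(0, 0)], [5, 6], [(1, 0, []), (4, 0, [])]⟩,
    ⟨[(0, 1)], [(0, 0), (0, 1), (0, 2), (0, 4), (1, 0), (1, 1), (1, 4)], [(0, 1), (0, 4),
      (1, 4)], [], [(4, 0, []), (5, 4, [2]), (6, 1, [])]⟩,
    ⟨[(0, 1), (0, 2), (1, 2)], [(0, 0), (0, 1), (0, 2), (2, 0), (2, 1), (2, 2), (2, 4)],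
      [(1, 1), (1, 2)], [3], [(0, 2, [4]), (6, 1, []), (8, 1, [])]⟩,
    ⟨[(0, 3), (2, 3)], [(2, 1), (3, 1), (3, 2)], [], [3, 7], [(6, 1, [])]⟩]
  Ta := [((1, 0), 0, 2), ((1, 2), 0, 5), ((4, 3), 0, 6), ((4, 5), 0, 4), ((6, 5), 1, 4), ((6, 9),
    1, 7), ((8, 0), 1, 2), ((8, 7), 1, 3)]
  Tb := [((0, 1, 8), 2, 0, 1), ((1, 0, 2), 0, 2, 5), ((2, 1, 3), 5, 0, 6), ((3, 2, 4), 6, 5, 0),
    ((4, 3, 5), 0, 6, 4), ((5, 4, 6), 4, 0, 1), ((6, 5, 9), 1, 4, 7), ((7, 8, 9), 3, 1, 7),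
    ((8, 0, 7), 1, 2, 3), ((9, 6, 7), 7, 1, 3)]
  Tc := []
  Td := [((2, 4), (0, 1), 0), ((2, 4), (0, 8), 1), ((4, 2), (5, 4), 0), ((4, 2), (5, 6), 1)]
  G := [[0, 0x64264224626c6ea82a82e8886ec, 0x95c195c195c1e2, 0, 0x51c855151c8dc594e2], [0,
    0x1424a1c2d821bc53caec, 0x92c198292c1e54146, 0x22c122c1622c18c, 0x259421d2c5c294e2], [0,
    0xa6c2a6c264a8a6cee1, 0, 0, 0xc59448ddc59cc594e2], [0, 0x95c2a1c239ca1c6e1, 0,
    0xc592c59222c229ce4, 0x2848dd64c2942594aa]]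

noncomputable def n316 : Ent := ⟨e316, noF, [], [], []⟩

def c316 : PLift (Cov.check n316.C.D v316 = true) := ⟨by decide +kernel⟩

def b316 : PLift (entF (fidx ts) 400 316 n316 = true) := ⟨by decide +kernel⟩

theorem g316 : GoodF (fidx ts) 400 316 := GoodF.ofV v316 n316 c316.down b316.down

/-- 56675:263/1 -/
noncomputable def e317 : SCfg where
  D := {
    a := 5
    L := 10
    kp := 7
    inn := [(0, 1), (0, 2), (0, 3), (1, 0), (1, 2), (2, 0), (2, 1), (2, 3), (3, 0), (3, 2), (3, 4), (4,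
      3)]
    mix := [(0, 0), (0, 1), (1, 1), (1, 2), (1, 3), (1, 4), (2, 4), (2, 5), (2, 6), (3, 0), (3, 6), (3,
      7), (3, 8), (4, 2), (4, 6), (4, 7), (4, 9)]
    cl := [1, 0, 2, 5, 0, 4, 3, 3, 6, 7]
    chq := [(1, 3), (1, 4), (3, 1), (4, 1)]
    rng := [(0, 1), (0, 8), (1, 0), (1, 2), (2, 1), (2, 3), (2, 7), (2, 9), (3, 2), (3, 4), (4, 3), (4,
      5), (5, 4), (5, 6), (6, 5), (6, 9), (7, 2), (7, 8), (8, 0), (8, 7), (9, 2), (9, 6)]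
    lev := [] }
  links := [[1, 2, 3, 5, 6], [2, 0, 6, 7, 8, 9], [3, 0, 1, 9, 10, 11], [5, 0, 2, 11, 4, 12, 13], [12, 3,
    11, 14, 7]]
  P := {
    a := 5
    N := 15
    nb := [110, 965, 3595, 14389, 22664, 8265, 163, 20818, 642, 1286, 2564, 17436, 8344, 4136, 2192]
    tri := [(0, 1, 2), (0, 1, 6), (0, 2, 3), (0, 3, 5), (0, 5, 6), (1, 2, 9), (1, 6, 7), (1, 7, 8), (1,
      8, 9), (2, 3, 11), (2, 9, 10), (2, 10, 11), (3, 4, 11), (3, 4, 12), (3, 5, 13), (3, 12, 13),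
      (4, 7, 12), (4, 7, 14), (4, 11, 14)]
    fin := [0, 1, 0, 3, 4, 0, 1, 4, 8, 1, 10, 3, 3, 13, 14]
    chd := [(0, 3), (0, 10)]
    steps := [(0, 2), (0, 5), (1, 6), (1, 9), (3, 11), (3, 12), (4, 7)] }
  rep := [1, 0, 4, 3, 10, 8, 13, 14]

noncomputable def v317 : Cov.CovD where
  P := 3
  N := 5
  pl := [2, 3, 8, 9]
  lev := [⟨[], [], [(0, 1)], [], [(0, 1, [3, 4]), (1, 0, [])]⟩,
    ⟨[], [(0, 0), (0, 1)], [(0, 0)], [2, 5], [(1, 0, []), (4, 0, [])]⟩,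
    ⟨[(0, 1)], [(0, 0), (0, 1), (0, 3), (0, 4), (1, 0), (1, 3), (1, 4)], [(0, 3), (0, 4),
      (3, 4)], [], [(4, 0, []), (5, 4, [1]), (6, 3, [1])]⟩,
    ⟨[(0, 1), (0, 2), (1, 2)], [(0, 0), (0, 1), (0, 3), (2, 0), (2, 1), (2, 3), (2, 4)],
      [(1, 3), (3, 3)], [6], [(0, 1, [3, 4]), (6, 3, [1]), (7, 3, [1])]⟩,
    ⟨[(0, 3), (2, 3)], [(2, 3), (3, 1), (3, 3)], [(3, 3)], [2, 7], [(6, 3, [1]), (7, 3,
      [1])]⟩]
  Ta := [((1, 0), 0, 1), ((1, 2), 0, 2), ((4, 3), 0, 5), ((4, 5), 0, 4), ((6, 5), 3, 4), ((6, 9),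
    3, 7), ((7, 2), 3, 2), ((7, 8), 3, 6)]
  Tb := [((0, 1, 8), 1, 0, 6), ((1, 0, 2), 0, 1, 2), ((2, 1, 3), 2, 0, 5), ((2, 1, 7), 2, 0, 3),
    ((2, 1, 9), 2, 0, 7), ((2, 3, 7), 2, 5, 3), ((2, 3, 9), 2, 5, 7), ((2, 7, 9), 2, 3, 7),
    ((3, 2, 4), 5, 2, 0), ((4, 3, 5), 0, 5, 4), ((5, 4, 6), 4, 0, 3), ((6, 5, 9), 3, 4, 7),
    ((7, 2, 8), 3, 2, 6), ((8, 0, 7), 6, 1, 3), ((9, 2, 6), 7, 2, 3)]
  Tc := [(1, 3, 4)]
  Td := [((1, 3), (0, 1), 0), ((1, 3), (0, 8), 6), ((1, 4), (0, 1), 0), ((1, 4), (0, 8), 6), ((3,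
    1), (6, 5), 4), ((3, 1), (6, 9), 7), ((3, 1), (7, 2), 2), ((3, 1), (7, 8), 6), ((4, 1),
    (5, 4), 0), ((4, 1), (5, 6), 3)]
  G := [[0, 0x95de195de1c2, 0x6e526e52ca81a816c, 0xd42d42cdd92dd92cc, 0xab3d2a4a39aa3d9bcfa4],
    [0, 0x95de195de1c2, 0x4e52642cae92a2c16c, 0xdd52d42cd82dd92cc, 0xab3d22283faa9d99cba4],
    [0, 0, 0, 0xdd52dd52cd82d82c9, 0xab3d2398d839a33deab4425], [0, 0, 0,
    0x442dd52cd9dd2d82cc, 0xab3d23bbd999aaadea4]]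

noncomputable def n317 : Ent := ⟨e317, noF, [], [], []⟩

def c317 : PLift (Cov.check n317.C.D v317 = true) := ⟨by decide +kernel⟩

def b317 : PLift (entF (fidx ts) 400 317 n317 = true) := ⟨by decide +kernel⟩

theorem g317 : GoodF (fidx ts) 400 317 := GoodF.ofV v317 n317 c317.down b317.down

/-- 56675:263/3 -/
noncomputable def e318 : SCfg where
  D := {
    a := 5
    L := 9
    kp := 6
    inn := [(0, 1), (0, 2), (0, 3), (1, 0), (1, 2), (2, 0), (2, 1), (2, 3), (3, 0), (3, 2), (3, 4), (4,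
      3)]
    mix := [(0, 0), (0, 1), (1, 1), (1, 2), (1, 3), (1, 4), (2, 4), (2, 5), (2, 6), (3, 0), (3, 6), (3,
      7), (3, 8), (4, 3), (4, 5), (4, 6), (4, 7)]
    cl := [1, 0, 5, 2, 0, 4, 3, 3, 6]
    chq := [(1, 3), (1, 4), (3, 1), (4, 1)]
    rng := [(0, 1), (0, 8), (1, 0), (1, 2), (2, 1), (2, 3), (3, 2), (3, 4), (3, 5), (3, 7), (4, 3), (4,
      5), (5, 3), (5, 4), (5, 6), (6, 5), (7, 3), (7, 8), (8, 0), (8, 7)]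
    lev := [] }
  links := [[1, 2, 3, 5, 6], [2, 0, 6, 7, 8, 9], [3, 0, 1, 9, 10, 11], [5, 0, 2, 11, 4, 12, 13], [12, 3,
    11, 10, 8]]
  P := {
    a := 5
    N := 14
    nb := [110, 965, 3595, 14389, 7432, 8265, 163, 322, 5778, 1286, 2836, 1052, 8472, 4136]
    tri := [(0, 1, 2), (0, 1, 6), (0, 2, 3), (0, 3, 5), (0, 5, 6), (1, 2, 9), (1, 6, 7), (1, 7, 8), (1,
      8, 9), (2, 3, 11), (2, 9, 10), (2, 10, 11), (3, 4, 11), (3, 4, 12), (3, 5, 13), (3, 12, 13),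
      (4, 8, 10), (4, 8, 12), (4, 10, 11)]
    fin := [0, 1, 0, 0, 4, 0, 1, 7, 8, 1, 10, 4, 4, 13]
    chd := [(0, 4), (0, 10)]
    steps := [(0, 2), (0, 3), (0, 5), (1, 6), (1, 9), (4, 11), (4, 12)] }
  rep := [1, 0, 8, 4, 10, 7, 13]

noncomputable def v318 : Cov.CovD where
  P := 3
  N := 4
  pl := [2, 3, 8]
  lev := [⟨[], [], [(0, 1)], [], [(0, 1, [3, 4]), (1, 0, [])]⟩,
    ⟨[], [(0, 0), (0, 1)], [(0, 0)], [2, 5], [(1, 0, []), (4, 0, [])]⟩,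
    ⟨[(0, 1)], [(0, 0), (0, 1), (0, 3), (0, 4), (1, 0), (1, 3), (1, 4)], [(0, 3), (0, 4),
      (3, 4)], [], [(4, 0, []), (5, 4, [1]), (6, 3, [1])]⟩,
    ⟨[(0, 1), (0, 2), (1, 2)], [(0, 0), (0, 1), (0, 3), (2, 0), (2, 1), (2, 3), (2, 4)],
      [(1, 3), (3, 3)], [6], [(0, 1, [3, 4]), (6, 3, [1]), (7, 3, [1])]⟩,
    ⟨[(0, 3), (2, 3)], [(2, 3), (2, 4), (3, 1), (3, 3), (3, 4)], [(3, 3), (3, 4)], [2],
      [(5, 4, [1]), (6, 3, [1]), (7, 3, [1])]⟩]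
  Ta := [((1, 0), 0, 1), ((1, 2), 0, 5), ((4, 3), 0, 2), ((4, 5), 0, 4), ((6, 5), 3, 4), ((7, 3),
    3, 2), ((7, 8), 3, 6)]
  Tb := [((0, 1, 8), 1, 0, 6), ((1, 0, 2), 0, 1, 5), ((2, 1, 3), 5, 0, 2), ((3, 2, 4), 2, 5, 0),
    ((3, 2, 5), 2, 5, 4), ((3, 2, 7), 2, 5, 3), ((3, 4, 5), 2, 0, 4), ((3, 4, 7), 2, 0, 3),
    ((3, 5, 7), 2, 4, 3), ((4, 3, 5), 0, 2, 4), ((5, 3, 4), 4, 2, 0), ((5, 3, 6), 4, 2, 3),
    ((5, 4, 6), 4, 0, 3), ((7, 3, 8), 3, 2, 6), ((8, 0, 7), 6, 1, 3)]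
  Tc := [(1, 3, 4)]
  Td := [((1, 3), (0, 1), 0), ((1, 3), (0, 8), 6), ((1, 4), (0, 1), 0), ((1, 4), (0, 8), 6), ((3,
    1), (6, 5), 4), ((3, 1), (7, 3), 2), ((3, 1), (7, 8), 6), ((4, 1), (5, 3), 2), ((4, 1),
    (5, 4), 0), ((4, 1), (5, 6), 3)]
  G := [[0, 0x111e1111e1c2, 0, 0xd1525d1d2cd82882cc, 0xab1d2813222d81c7a4], [0, 0x111e1111e1c2,
    0, 0xd152d42cd82d192cc, 0xab1d292222d11cba4], [0, 0, 0xe2ed2a12ce6c242465,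
    0xdd52d42cd82dd92cc, 0xab3d2885311b822dea4], [0, 0, 0x843ea562eed2284e8,
    0x442dd52cd9dd2d82cc, 0x321d42ab3d22aad8ac]]

noncomputable def n318 : Ent := ⟨e318, noF, [], [], []⟩

def c318 : PLift (Cov.check n318.C.D v318 = true) := ⟨by decide +kernel⟩

def b318 : PLift (entF (fidx ts) 400 318 n318 = true) := ⟨by decide +kernel⟩

theorem g318 : GoodF (fidx ts) 400 318 := GoodF.ofV v318 n318 c318.down b318.down

/-- 56675:263/2 -/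
noncomputable def e319 : SCfg where
  D := {
    a := 5
    L := 10
    kp := 7
    inn := [(0, 1), (0, 2), (0, 3), (1, 0), (1, 2), (2, 0), (2, 1), (2, 3), (3, 0), (3, 2), (3, 4), (4,
      3)]
    mix := [(0, 0), (0, 1), (1, 1), (1, 2), (1, 3), (1, 4), (2, 4), (2, 5), (2, 6), (3, 0), (3, 6), (3,
      7), (3, 8), (4, 3), (4, 6), (4, 7), (4, 9)]
    cl := [1, 0, 5, 2, 0, 4, 3, 3, 6, 7]
    chq := [(1, 3), (1, 4), (3, 1), (4, 1)]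
    rng := [(0, 1), (0, 8), (1, 0), (1, 2), (2, 1), (2, 3), (3, 2), (3, 4), (3, 7), (3, 9), (4, 3), (4,
      5), (5, 4), (5, 6), (6, 5), (6, 9), (7, 3), (7, 8), (8, 0), (8, 7), (9, 3), (9, 6)]
    lev := [] }
  links := [[1, 2, 3, 5, 6], [2, 0, 6, 7, 8, 9], [3, 0, 1, 9, 10, 11], [5, 0, 2, 11, 4, 12, 13], [12, 3,
    11, 14, 8]]
  P := {
    a := 5
    N := 15
    nb := [110, 965, 3595, 14389, 22792, 8265, 163, 322, 21138, 1286, 2564, 17436, 8472, 4136, 2320]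
    tri := [(0, 1, 2), (0, 1, 6), (0, 2, 3), (0, 3, 5), (0, 5, 6), (1, 2, 9), (1, 6, 7), (1, 7, 8), (1,
      8, 9), (2, 3, 11), (2, 9, 10), (2, 10, 11), (3, 4, 11), (3, 4, 12), (3, 5, 13), (3, 12, 13),
      (4, 8, 12), (4, 8, 14), (4, 11, 14)]
    fin := [0, 1, 0, 3, 4, 0, 1, 7, 4, 1, 10, 3, 3, 13, 14]
    chd := [(0, 3), (0, 10)]
    steps := [(0, 2), (0, 5), (1, 6), (1, 9), (3, 11), (3, 12), (4, 8)] }
  rep := [1, 0, 4, 3, 10, 7, 13, 14]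

noncomputable def v319 : Cov.CovD where
  P := 3
  N := 5
  pl := [2, 3, 8, 9]
  lev := [⟨[], [], [(0, 1)], [], [(0, 1, [3, 4]), (1, 0, [])]⟩,
    ⟨[], [(0, 0), (0, 1)], [(0, 0)], [2, 5], [(1, 0, []), (4, 0, [])]⟩,
    ⟨[(0, 1)], [(0, 0), (0, 1), (0, 3), (0, 4), (1, 0), (1, 3), (1, 4)], [(0, 3), (0, 4),
      (3, 4)], [], [(4, 0, []), (5, 4, [1]), (6, 3, [1])]⟩,
    ⟨[(0, 1), (0, 2), (1, 2)], [(0, 0), (0, 1), (0, 3), (2, 0), (2, 1), (2, 3), (2, 4)],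
      [(1, 3), (3, 3)], [6], [(0, 1, [3, 4]), (6, 3, [1]), (7, 3, [1])]⟩,
    ⟨[(0, 3), (2, 3)], [(2, 3), (3, 1), (3, 3)], [(3, 3)], [2, 7], [(6, 3, [1]), (7, 3,
      [1])]⟩]
  Ta := [((1, 0), 0, 1), ((1, 2), 0, 5), ((4, 3), 0, 2), ((4, 5), 0, 4), ((6, 5), 3, 4), ((6, 9),
    3, 7), ((7, 3), 3, 2), ((7, 8), 3, 6)]
  Tb := [((0, 1, 8), 1, 0, 6), ((1, 0, 2), 0, 1, 5), ((2, 1, 3), 5, 0, 2), ((3, 2, 4), 2, 5, 0),
    ((3, 2, 7), 2, 5, 3), ((3, 2, 9), 2, 5, 7), ((3, 4, 7), 2, 0, 3), ((3, 4, 9), 2, 0, 7),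
    ((3, 7, 9), 2, 3, 7), ((4, 3, 5), 0, 2, 4), ((5, 4, 6), 4, 0, 3), ((6, 5, 9), 3, 4, 7),
    ((7, 3, 8), 3, 2, 6), ((8, 0, 7), 6, 1, 3), ((9, 3, 6), 7, 2, 3)]
  Tc := [(1, 3, 4)]
  Td := [((1, 3), (0, 1), 0), ((1, 3), (0, 8), 6), ((1, 4), (0, 1), 0), ((1, 4), (0, 8), 6), ((3,
    1), (6, 5), 4), ((3, 1), (6, 9), 7), ((3, 1), (7, 3), 2), ((3, 1), (7, 8), 6), ((4, 1),
    (5, 4), 0), ((4, 1), (5, 6), 3)]
  G := [[0, 0x95de195de1c2, 0, 0xd42d42cdd92dd92cc, 0xa442ab3d2a39aa3d99c7ac], [0,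
    0x95de195de1c2, 0, 0xd42d42cdd92dd92cc, 0xab3d22283faa3d99cba4], [0, 0,
    0x6e5226ed2ca82882c9, 0xd42d42cdd92dd92cc, 0x312913131eaabc294abca3cea5], [0, 0,
    0x6e522eed2c882a84a9, 0xdd92d12cd42ddc2c5, 0xab3d2bb511a23deab8c425]]

noncomputable def n319 : Ent := ⟨e319, noF, [], [], [(10, 14, [81620716623019490593592230936445690773474979418095884689409, 0])]⟩

def c319 : PLift (Cov.check n319.C.D v319 = true) := ⟨by decide +kernel⟩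

def b319 : PLift (entF (fidx ts) 400 319 n319 = true) := ⟨by decide +kernel⟩

theorem g319 : GoodF (fidx ts) 400 319 := GoodF.ofV v319 n319 c319.down b319.down

/-- 56675:263/4 -/
noncomputable def e320 : SCfg where
  D := {
    a := 5
    L := 10
    kp := 7
    inn := [(0, 1), (0, 2), (0, 3), (1, 0), (1, 2), (2, 0), (2, 1), (2, 3), (3, 0), (3, 2), (3, 4), (4,
      3)]
    mix := [(0, 0), (0, 1), (1, 1), (1, 2), (1, 3), (1, 4), (2, 4), (2, 5), (2, 6), (3, 0), (3, 6), (3,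
      7), (3, 8), (4, 5), (4, 6), (4, 7), (4, 9)]
    cl := [1, 0, 4, 5, 0, 2, 3, 3, 6, 7]
    chq := [(1, 2), (1, 3), (2, 1), (3, 1)]
    rng := [(0, 1), (0, 8), (1, 0), (1, 2), (2, 1), (2, 3), (3, 2), (3, 4), (4, 3), (4, 5), (5, 4), (5,
      6), (5, 9), (6, 5), (7, 8), (7, 9), (8, 0), (8, 7), (9, 5), (9, 7)]
    lev := [] }
  links := [[1, 2, 3, 5, 6], [2, 0, 6, 7, 8, 9], [3, 0, 1, 9, 10, 11], [5, 0, 2, 11, 4, 12, 13], [12, 3,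
    11, 10, 14]]
  P := {
    a := 5
    N := 15
    nb := [110, 965, 3595, 14389, 23560, 8265, 163, 322, 642, 1286, 18964, 1052, 24600, 4136, 5136]
    tri := [(0, 1, 2), (0, 1, 6), (0, 2, 3), (0, 3, 5), (0, 5, 6), (1, 2, 9), (1, 6, 7), (1, 7, 8), (1,
      8, 9), (2, 3, 11), (2, 9, 10), (2, 10, 11), (3, 4, 11), (3, 4, 12), (3, 5, 13), (3, 12, 13),
      (4, 10, 11), (4, 10, 14), (4, 12, 14)]
    fin := [0, 1, 0, 0, 4, 0, 1, 7, 8, 1, 10, 4, 4, 13, 14]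
    chd := [(0, 4), (0, 10)]
    steps := [(0, 2), (0, 3), (0, 5), (1, 6), (1, 9), (4, 11), (4, 12)] }
  rep := [1, 0, 10, 4, 7, 8, 13, 14]

noncomputable def v320 : Cov.CovD where
  P := 3
  N := 5
  pl := [2, 3, 8, 9]
  lev := [⟨[], [], [(0, 1)], [], [(0, 1, [2, 3]), (1, 0, [])]⟩,
    ⟨[], [(0, 0), (0, 1)], [(0, 0)], [4, 5], [(1, 0, []), (4, 0, [])]⟩,
    ⟨[(0, 1)], [(0, 0), (0, 1), (0, 2), (0, 3), (1, 0), (1, 2), (1, 3)], [(0, 2), (0, 3),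
      (2, 3)], [], [(4, 0, []), (5, 2, [1]), (6, 3, [1])]⟩,
    ⟨[(0, 1), (0, 2), (1, 2)], [(0, 0), (0, 1), (0, 3), (2, 0), (2, 1), (2, 2), (2, 3)],
      [(1, 3), (3, 3)], [6], [(0, 1, [2, 3]), (6, 3, [1]), (7, 3, [1])]⟩,
    ⟨[(0, 3), (2, 3)], [(2, 2), (2, 3), (3, 1), (3, 2), (3, 3)], [(2, 3), (3, 3)], [7],
      [(5, 2, [1]), (6, 3, [1]), (7, 3, [1])]⟩]
  Ta := [((1, 0), 0, 1), ((1, 2), 0, 4), ((4, 3), 0, 5), ((4, 5), 0, 2), ((6, 5), 3, 2), ((7, 8),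
    3, 6), ((7, 9), 3, 7)]
  Tb := [((0, 1, 8), 1, 0, 6), ((1, 0, 2), 0, 1, 4), ((2, 1, 3), 4, 0, 5), ((3, 2, 4), 5, 4, 0),
    ((4, 3, 5), 0, 5, 2), ((5, 4, 6), 2, 0, 3), ((5, 4, 9), 2, 0, 7), ((5, 6, 9), 2, 3, 7),
    ((7, 8, 9), 3, 6, 7), ((8, 0, 7), 6, 1, 3), ((9, 5, 7), 7, 2, 3)]
  Tc := [(1, 2, 3)]
  Td := [((1, 2), (0, 1), 0), ((1, 2), (0, 8), 6), ((1, 3), (0, 1), 0), ((1, 3), (0, 8), 6), ((2,
    1), (5, 4), 0), ((2, 1), (5, 6), 3), ((2, 1), (5, 9), 7), ((3, 1), (6, 5), 2), ((3, 1),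
    (7, 8), 6), ((3, 1), (7, 9), 7)]
  G := [[0, 0x15de1295de11885de9881ea, 0, 0xc2925c25299252ce4, 0x8434a4ab3d2a392995a33daec], [0,
    0x5d61291de44595de1984ea, 0, 0xc2925d28222d8e4, 0xb424ab3d2a3922bbd88aec], [0, 0,
    0x6e526e52cc5665aea82a82a82ec, 0x5249252cc9289252ca9, 0xb424ab3d2a392995a33daec], [0, 0,
    0x6e526e52e14ea84a8264a8ce9, 0xd24d28d24e1, 0xab3d2312bb5a8aeabc245]]

noncomputable def n320 : Ent := ⟨e320, noF, [], [], [(8, 14, [81620716623019490593592230936445690773474979418095884689409, 0])]⟩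

def c320 : PLift (Cov.check n320.C.D v320 = true) := ⟨by decide +kernel⟩

def b320 : PLift (entF (fidx ts) 400 320 n320 = true) := ⟨by decide +kernel⟩

theorem g320 : GoodF (fidx ts) 400 320 := GoodF.ofV v320 n320 c320.down b320.down

/-- 56675:263 -/
noncomputable def e321 : SCfg where
  D := {
    a := 5
    L := 11
    kp := 8
    inn := [(0, 1), (0, 2), (0, 3), (1, 0), (1, 2), (2, 0), (2, 1), (2, 3), (3, 0), (3, 2), (3, 4), (4,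
      3)]
    mix := [(0, 0), (0, 1), (1, 1), (1, 2), (1, 3), (1, 4), (2, 4), (2, 5), (2, 6), (3, 0), (3, 6), (3,
      7), (3, 8), (4, 6), (4, 7), (4, 9), (4, 10)]
    cl := [1, 0, 2, 5, 0, 4, 3, 3, 6, 7, 8]
    chq := [(1, 3), (1, 4), (3, 1), (4, 1)]
    rng := [(0, 1), (0, 8), (1, 0), (1, 2), (2, 1), (2, 3), (3, 2), (3, 4), (4, 3), (4, 5), (5, 4), (5,
      6), (6, 5), (6, 9), (7, 8), (7, 10), (8, 0), (8, 7), (9, 6), (9, 10), (10, 7), (10, 9)]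
    lev := [] }
  links := [[1, 2, 3, 5, 6], [2, 0, 6, 7, 8, 9], [3, 0, 1, 9, 10, 11], [5, 0, 2, 11, 4, 12, 13], [12, 3,
    11, 14, 15]]
  P := {
    a := 5
    N := 16
    nb := [110, 965, 3595, 14389, 55304, 8265, 163, 322, 642, 1286, 2564, 17436, 40984, 4136, 34832,
      20496]
    tri := [(0, 1, 2), (0, 1, 6), (0, 2, 3), (0, 3, 5), (0, 5, 6), (1, 2, 9), (1, 6, 7), (1, 7, 8), (1,
      8, 9), (2, 3, 11), (2, 9, 10), (2, 10, 11), (3, 4, 11), (3, 4, 12), (3, 5, 13), (3, 12, 13),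
      (4, 11, 14), (4, 12, 15), (4, 14, 15)]
    fin := [0, 1, 0, 0, 4, 0, 1, 7, 8, 1, 10, 4, 4, 13, 14, 15]
    chd := [(0, 4), (0, 10)]
    steps := [(0, 2), (0, 3), (0, 5), (1, 6), (1, 9), (4, 11), (4, 12)] }
  rep := [1, 0, 7, 4, 10, 8, 13, 14, 15]

noncomputable def v321 : Cov.CovD where
  P := 3
  N := 6
  pl := [2, 3, 8, 9, 10]
  lev := [⟨[], [], [(0, 1)], [], [(0, 1, [3, 4]), (1, 0, [])]⟩,
    ⟨[], [(0, 0), (0, 1)], [(0, 0)], [2, 5], [(1, 0, []), (4, 0, [])]⟩,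
    ⟨[(0, 1)], [(0, 0), (0, 1), (0, 3), (0, 4), (1, 0), (1, 3), (1, 4)], [(0, 3), (0, 4),
      (3, 4)], [], [(4, 0, []), (5, 4, [1]), (6, 3, [1])]⟩,
    ⟨[(0, 1), (0, 2), (1, 2)], [(0, 0), (0, 1), (0, 3), (2, 0), (2, 1), (2, 3), (2, 4)],
      [(1, 3), (3, 3)], [6], [(0, 1, [3, 4]), (6, 3, [1]), (7, 3, [1])]⟩,
    ⟨[(0, 3), (2, 3)], [(2, 3), (3, 1), (3, 3)], [(3, 3)], [7, 8], [(6, 3, [1]), (7, 3,
      [1])]⟩]
  Ta := [((1, 0), 0, 1), ((1, 2), 0, 2), ((4, 3), 0, 5), ((4, 5), 0, 4), ((6, 5), 3, 4), ((6, 9),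
    3, 7), ((7, 8), 3, 6), ((7, 10), 3, 8)]
  Tb := [((0, 1, 8), 1, 0, 6), ((1, 0, 2), 0, 1, 2), ((2, 1, 3), 2, 0, 5), ((3, 2, 4), 5, 2, 0),
    ((4, 3, 5), 0, 5, 4), ((5, 4, 6), 4, 0, 3), ((6, 5, 9), 3, 4, 7), ((7, 8, 10), 3, 6, 8),
    ((8, 0, 7), 6, 1, 3), ((9, 6, 10), 7, 3, 8), ((10, 7, 9), 8, 3, 7)]
  Tc := [(1, 3, 4)]
  Td := [((1, 3), (0, 1), 0), ((1, 3), (0, 8), 6), ((1, 4), (0, 1), 0), ((1, 4), (0, 8), 6), ((3,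
    1), (6, 5), 4), ((3, 1), (6, 9), 7), ((3, 1), (7, 8), 6), ((3, 1), (7, 10), 8), ((4, 1),
    (5, 4), 0), ((4, 1), (5, 6), 3)]
  G := [[0, 0x221f21cffde1ffc1ca, 0x442ff52cfbfd2f82cc, 0xff52f42cf82ff92cc,
    0xff528632246f6efdeaf8288f91e3ac], [0, 0xff61ff61cf81f81ca, 0x542f42cfafd2ff92cc,
    0xf42f42cff92ff92cc, 0xf427afd446aff924bcffa8aac], [0, 0, 0, 0xff52f12cf82ffc2c9,
    0xf42b4446aff92788ffc47bb3fdeac], [0, 0, 0, 0xff52f42cf82ff92cc,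
    0xff527afd446af824bcffa8aac]]

noncomputable def n321 : Ent := ⟨e321, noF, [], [], [(7, 15, [360035742630636841211993100915356868655746945586763691008970753, 0]), (8, 15, [360035742630636841211993100915356868655746945586763691008978945, 0]), (10, 14, [385746751338780685620664494392815470296102193487288376373805057, 0])]⟩

def c321 : PLift (Cov.check n321.C.D v321 = true) := ⟨by decide +kernel⟩

def b321 : PLift (entF (fidx ts) 400 321 n321 = true) := ⟨by decide +kernel⟩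

theorem g321 : GoodF (fidx ts) 400 321 := GoodF.ofV v321 n321 c321.down b321.down

/-- 56674:264/1 -/
noncomputable def e322 : SCfg where
  D := {
    a := 5
    L := 9
    kp := 6
    inn := [(0, 1), (0, 2), (0, 3), (1, 0), (1, 2), (2, 0), (2, 1), (2, 3), (3, 0), (3, 2), (3, 4), (4,
      3)]
    mix := [(0, 0), (0, 1), (1, 1), (1, 2), (1, 3), (1, 4), (2, 4), (2, 5), (2, 6), (3, 0), (3, 6), (3,
      7), (3, 8), (4, 2), (4, 7), (4, 8)]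
    cl := [1, 0, 2, 6, 0, 5, 3, 4, 3]
    chq := [(1, 5), (5, 1)]
    rng := [(0, 1), (0, 8), (1, 0), (1, 2), (2, 1), (2, 3), (2, 7), (2, 8), (3, 2), (3, 4), (4, 3), (4,
      5), (5, 4), (5, 6), (6, 5), (6, 7), (7, 2), (7, 6), (8, 0), (8, 2)]
    lev := [] }
  links := [[1, 2, 3, 5, 6], [2, 0, 6, 7, 8, 9], [3, 0, 1, 9, 10, 11], [5, 0, 2, 11, 12, 4, 13], [13, 3,
    12, 7]]
  P := {
    a := 5
    N := 14
    nb := [110, 965, 3595, 14389, 12424, 8265, 163, 12626, 642, 1286, 2564, 5132, 2200, 184]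
    tri := [(0, 1, 2), (0, 1, 6), (0, 2, 3), (0, 3, 5), (0, 5, 6), (1, 2, 9), (1, 6, 7), (1, 7, 8), (1,
      8, 9), (2, 3, 11), (2, 9, 10), (2, 10, 11), (3, 4, 12), (3, 4, 13), (3, 5, 13), (3, 11, 12),
      (4, 7, 12), (4, 7, 13)]
    fin := [0, 1, 0, 3, 4, 0, 1, 4, 8, 1, 10, 3, 12, 3]
    chd := [(0, 10)]
    steps := [(0, 2), (0, 5), (1, 6), (1, 9), (3, 11), (3, 13), (4, 7)] }
  rep := [1, 0, 4, 3, 12, 10, 8]

noncomputable def v322 : Cov.CovD where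
  P := 3
  N := 4
  pl := [2, 3, 7]
  lev := [⟨[], [], [(0, 1)], [], [(0, 1, [5]), (1, 0, [])]⟩,
    ⟨[], [(0, 0), (0, 1)], [(0, 0)], [2, 6], [(1, 0, []), (4, 0, [])]⟩,
    ⟨[(0, 1)], [(0, 0), (0, 1), (0, 3), (0, 5), (1, 0), (1, 3), (1, 5)], [(0, 3), (0, 5),
      (3, 5)], [], [(4, 0, []), (5, 5, [1]), (6, 3, [])]⟩,
    ⟨[(0, 1), (0, 2), (1, 2)], [(0, 0), (0, 1), (0, 3), (2, 0), (2, 1), (2, 3), (2, 5)],
      [(1, 3), (3, 3)], [4], [(0, 1, [5]), (6, 3, []), (8, 3, [])]⟩,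
    ⟨[(0, 3), (2, 3)], [(3, 1), (3, 3)], [], [2, 4], [(8, 3, [])]⟩]
  Ta := [((1, 0), 0, 1), ((1, 2), 0, 2), ((4, 3), 0, 6), ((4, 5), 0, 5), ((6, 5), 3, 5), ((6, 7),
    3, 4), ((8, 0), 3, 1), ((8, 2), 3, 2)]
  Tb := [((0, 1, 8), 1, 0, 3), ((1, 0, 2), 0, 1, 2), ((2, 1, 3), 2, 0, 6), ((2, 1, 7), 2, 0, 4),
    ((2, 1, 8), 2, 0, 3), ((2, 3, 7), 2, 6, 4), ((2, 3, 8), 2, 6, 3), ((2, 7, 8), 2, 4, 3),
    ((3, 2, 4), 6, 2, 0), ((4, 3, 5), 0, 6, 5), ((5, 4, 6), 5, 0, 3), ((6, 5, 7), 3, 5, 4),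
    ((7, 2, 6), 4, 2, 3), ((8, 0, 2), 3, 1, 2)]
  Tc := []
  Td := [((1, 5), (0, 1), 0), ((1, 5), (0, 8), 3), ((5, 1), (5, 4), 0), ((5, 1), (5, 6), 3)]
  G := [[0, 0x819e1441e1c2, 0x612612c4, 0x4424891d28192cc, 0x816232d62828d28c], [0,
    0x841e1841e1c2, 0xe12e12c4, 0x4424152c8192882cc, 0x821d2a817821d81cba4], [0, 0, 0,
    0x541d24891d28c, 0xa252186231d6a18289], [0, 0, 0, 0x4152112c88284c2c9,
    0x821d22a1d819821dea4]]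

noncomputable def n322 : Ent := ⟨e322, noF, [], [], []⟩

def c322 : PLift (Cov.check n322.C.D v322 = true) := ⟨by decide +kernel⟩

def b322 : PLift (entF (fidx ts) 400 322 n322 = true) := ⟨by decide +kernel⟩

theorem g322 : GoodF (fidx ts) 400 322 := GoodF.ofV v322 n322 c322.down b322.down

/-- 56674:264/2 -/
noncomputable def e323 : SCfg where
  D := {
    a := 5
    L := 9
    kp := 6
    inn := [(0, 1), (0, 2), (0, 3), (1, 0), (1, 2), (2, 0), (2, 1), (2, 3), (3, 0), (3, 2), (3, 4), (4,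
      3)]
    mix := [(0, 0), (0, 1), (1, 1), (1, 2), (1, 3), (1, 4), (2, 4), (2, 5), (2, 6), (3, 0), (3, 6), (3,
      7), (3, 8), (4, 3), (4, 7), (4, 8)]
    cl := [1, 0, 6, 2, 0, 5, 3, 4, 3]
    chq := [(1, 5), (5, 1)]
    rng := [(0, 1), (0, 8), (1, 0), (1, 2), (2, 1), (2, 3), (3, 2), (3, 4), (3, 7), (3, 8), (4, 3), (4,
      5), (5, 4), (5, 6), (6, 5), (6, 7), (7, 3), (7, 6), (8, 0), (8, 3)]
    lev := [] }
  links := [[1, 2, 3, 5, 6], [2, 0, 6, 7, 8, 9], [3, 0, 1, 9, 10, 11], [5, 0, 2, 11, 12, 4, 13], [13, 3,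
    12, 8]]
  P := {
    a := 5
    N := 14
    nb := [110, 965, 3595, 14389, 12552, 8265, 163, 322, 12946, 1286, 2564, 5132, 2328, 312]
    tri := [(0, 1, 2), (0, 1, 6), (0, 2, 3), (0, 3, 5), (0, 5, 6), (1, 2, 9), (1, 6, 7), (1, 7, 8), (1,
      8, 9), (2, 3, 11), (2, 9, 10), (2, 10, 11), (3, 4, 12), (3, 4, 13), (3, 5, 13), (3, 11, 12),
      (4, 8, 12), (4, 8, 13)]
    fin := [0, 1, 0, 3, 4, 0, 1, 7, 4, 1, 10, 3, 12, 3]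
    chd := [(0, 10)]
    steps := [(0, 2), (0, 5), (1, 6), (1, 9), (3, 11), (3, 13), (4, 8)] }
  rep := [1, 0, 4, 3, 12, 10, 7]

noncomputable def v323 : Cov.CovD where
  P := 3
  N := 4
  pl := [2, 3, 7]
  lev := [⟨[], [], [(0, 1)], [], [(0, 1, [5]), (1, 0, [])]⟩,
    ⟨[], [(0, 0), (0, 1)], [(0, 0)], [2, 6], [(1, 0, []), (4, 0, [])]⟩,
    ⟨[(0, 1)], [(0, 0), (0, 1), (0, 3), (0, 5), (1, 0), (1, 3), (1, 5)], [(0, 3), (0, 5),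
      (3, 5)], [], [(4, 0, []), (5, 5, [1]), (6, 3, [])]⟩,
    ⟨[(0, 1), (0, 2), (1, 2)], [(0, 0), (0, 1), (0, 3), (2, 0), (2, 1), (2, 3), (2, 5)],
      [(1, 3), (3, 3)], [4], [(0, 1, [5]), (6, 3, []), (8, 3, [])]⟩,
    ⟨[(0, 3), (2, 3)], [(3, 1), (3, 3)], [], [2, 4], [(8, 3, [])]⟩]
  Ta := [((1, 0), 0, 1), ((1, 2), 0, 6), ((4, 3), 0, 2), ((4, 5), 0, 5), ((6, 5), 3, 5), ((6, 7),
    3, 4), ((8, 0), 3, 1), ((8, 3), 3, 2)]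
  Tb := [((0, 1, 8), 1, 0, 3), ((1, 0, 2), 0, 1, 6), ((2, 1, 3), 6, 0, 2), ((3, 2, 4), 2, 6, 0),
    ((3, 2, 7), 2, 6, 4), ((3, 2, 8), 2, 6, 3), ((3, 4, 7), 2, 0, 4), ((3, 4, 8), 2, 0, 3),
    ((3, 7, 8), 2, 4, 3), ((4, 3, 5), 0, 2, 5), ((5, 4, 6), 5, 0, 3), ((6, 5, 7), 3, 5, 4),
    ((7, 3, 6), 4, 2, 3), ((8, 0, 3), 3, 1, 2)]
  Tc := []
  Td := [((1, 5), (0, 1), 0), ((1, 5), (0, 8), 3), ((5, 1), (5, 4), 0), ((5, 1), (5, 6), 3)]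
  G := [[0, 0x819e1441e1c2, 0, 0x4424891d28192cc, 0x186238d622a2d28c], [0, 0x841e1841e1c2, 0,
    0x41524152c882882cc, 0x821d2215819822d88fa4], [0, 0, 0xa12612c4, 0x4424891d28192cc,
    0x1a2d2891b828d6a4], [0, 0, 0xe12e12c8, 0x41524152c882882c9, 0x821d2a15219aa83c425]]

noncomputable def n323 : Ent := ⟨e323, noF, [], [], []⟩

def c323 : PLift (Cov.check n323.C.D v323 = true) := ⟨by decide +kernel⟩

def b323 : PLift (entF (fidx ts) 400 323 n323 = true) := ⟨by decide +kernel⟩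

theorem g323 : GoodF (fidx ts) 400 323 := GoodF.ofV v323 n323 c323.down b323.down

/-- 56674:264 -/
noncomputable def e324 : SCfg where
  D := {
    a := 5
    L := 10
    kp := 7
    inn := [(0, 1), (0, 2), (0, 3), (1, 0), (1, 2), (2, 0), (2, 1), (2, 3), (3, 0), (3, 2), (3, 4), (4,
      3)]
    mix := [(0, 0), (0, 1), (1, 1), (1, 2), (1, 3), (1, 4), (2, 4), (2, 5), (2, 6), (3, 0), (3, 6), (3,
      7), (3, 8), (4, 7), (4, 8), (4, 9)]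
    cl := [2, 0, 5, 6, 0, 4, 1, 3, 1, 7]
    chq := [(2, 4), (4, 2)]
    rng := [(0, 1), (0, 8), (1, 0), (1, 2), (2, 1), (2, 3), (3, 2), (3, 4), (4, 3), (4, 5), (5, 4), (5,
      6), (6, 5), (6, 7), (7, 6), (7, 9), (8, 0), (8, 9), (9, 7), (9, 8)]
    lev := [] }
  links := [[1, 2, 3, 5, 6], [2, 0, 6, 7, 8, 9], [3, 0, 1, 9, 10, 11], [5, 0, 2, 11, 12, 4, 13], [13, 3,
    12, 14]]
  P := {
    a := 5
    N := 15
    nb := [110, 965, 3595, 14389, 28680, 8265, 163, 322, 642, 1286, 2564, 5132, 18456, 16440, 12304]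
    tri := [(0, 1, 2), (0, 1, 6), (0, 2, 3), (0, 3, 5), (0, 5, 6), (1, 2, 9), (1, 6, 7), (1, 7, 8), (1,
      8, 9), (2, 3, 11), (2, 9, 10), (2, 10, 11), (3, 4, 12), (3, 4, 13), (3, 5, 13), (3, 11, 12),
      (4, 12, 14), (4, 13, 14)]
    fin := [0, 1, 0, 3, 3, 0, 1, 7, 8, 1, 10, 3, 12, 3, 14]
    chd := [(0, 10)]
    steps := [(0, 2), (0, 5), (1, 6), (1, 9), (3, 4), (3, 11), (3, 13)] }
  rep := [1, 3, 0, 12, 10, 7, 8, 14]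

noncomputable def v324 : Cov.CovD where
  P := 3
  N := 5
  pl := [2, 3, 7, 9]
  lev := [⟨[], [], [(0, 2)], [], [(0, 2, [4]), (1, 0, [])]⟩,
    ⟨[], [(0, 0), (0, 2)], [(0, 0)], [5, 6], [(1, 0, []), (4, 0, [])]⟩,
    ⟨[(0, 1)], [(0, 0), (0, 1), (0, 2), (0, 4), (1, 0), (1, 1), (1, 4)], [(0, 1), (0, 4),
      (1, 4)], [], [(4, 0, []), (5, 4, [2]), (6, 1, [])]⟩,
    ⟨[(0, 1), (0, 2), (1, 2)], [(0, 0), (0, 1), (0, 2), (2, 0), (2, 1), (2, 2), (2, 4)],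
      [(1, 1), (1, 2)], [3], [(0, 2, [4]), (6, 1, []), (8, 1, [])]⟩,
    ⟨[(0, 3), (2, 3)], [(3, 1), (3, 2)], [], [3, 7], [(8, 1, [])]⟩]
  Ta := [((1, 0), 0, 2), ((1, 2), 0, 5), ((4, 3), 0, 6), ((4, 5), 0, 4), ((6, 5), 1, 4), ((6, 7),
    1, 3), ((8, 0), 1, 2), ((8, 9), 1, 7)]
  Tb := [((0, 1, 8), 2, 0, 1), ((1, 0, 2), 0, 2, 5), ((2, 1, 3), 5, 0, 6), ((3, 2, 4), 6, 5, 0),
    ((4, 3, 5), 0, 6, 4), ((5, 4, 6), 4, 0, 1), ((6, 5, 7), 1, 4, 3), ((7, 6, 9), 3, 1, 7),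
    ((8, 0, 9), 1, 2, 7), ((9, 7, 8), 7, 3, 1)]
  Tc := []
  Td := [((2, 4), (0, 1), 0), ((2, 4), (0, 8), 1), ((4, 2), (5, 4), 0), ((4, 2), (5, 6), 1)]
  G := [[0, 0x6424a1c218253ca1caec, 0x25c192c192c1e2, 0, 0xc29421e2c5c294e2], [0,
    0x6426426444aea82a82a8a2c6ec, 0x95c195c195c1e2, 0x5412c592c592981ec,
    0x5124c594c8151c85ea], [0, 0x16c216c2c1a16c6e1, 0, 0, 0x6394295259cb294e2], [0,
    0xa6c2a6c2e24ea6c6e1, 0, 0xc952c952c9548ddce8, 0x5124c594c594ac824b]]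

noncomputable def n324 : Ent := ⟨e324, noF, [], [], [(7, 14, [81620716623019490593592230936445690773474979418095884705793, 0]), (8, 14, [81620716623019490593592230936445690773474979418095884709889, 0])]⟩

def c324 : PLift (Cov.check n324.C.D v324 = true) := ⟨by decide +kernel⟩

def b324 : PLift (entF (fidx ts) 400 324 n324 = true) := ⟨by decide +kernel⟩

theorem g324 : GoodF (fidx ts) 400 324 := GoodF.ofV v324 n324 c324.down b324.down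

/-- 56674:266 -/
noncomputable def e325 : SCfg where
  D := {
    a := 5
    L := 10
    kp := 7
    inn := [(0, 1), (0, 2), (0, 3), (1, 0), (1, 2), (2, 0), (2, 1), (2, 3), (3, 0), (3, 2), (3, 4), (4,
      3)]
    mix := [(0, 0), (0, 1), (1, 1), (1, 2), (1, 3), (1, 4), (2, 4), (2, 5), (2, 6), (3, 0), (3, 6), (3,
      7), (3, 8), (4, 0), (4, 8), (4, 9)]
    cl := [0, 1, 5, 6, 1, 4, 2, 0, 3, 7]
    chq := [(0, 4), (4, 0)]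
    rng := [(0, 1), (0, 9), (1, 0), (1, 2), (2, 1), (2, 3), (3, 2), (3, 4), (4, 3), (4, 5), (5, 4), (5,
      6), (6, 5), (6, 7), (7, 6), (7, 8), (8, 7), (8, 9), (9, 0), (9, 8)]
    lev := [] }
  links := [[1, 2, 3, 5, 6], [2, 0, 6, 7, 8, 9], [3, 0, 1, 9, 10, 11], [5, 0, 2, 11, 12, 13, 4], [5, 3,
    13, 14]]
  P := {
    a := 5
    N := 15
    nb := [110, 965, 3595, 14389, 24616, 16473, 163, 322, 642, 1286, 2564, 5132, 10248, 20504, 8240]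
    tri := [(0, 1, 2), (0, 1, 6), (0, 2, 3), (0, 3, 5), (0, 5, 6), (1, 2, 9), (1, 6, 7), (1, 7, 8), (1,
      8, 9), (2, 3, 11), (2, 9, 10), (2, 10, 11), (3, 4, 5), (3, 4, 13), (3, 11, 12), (3, 12, 13),
      (4, 5, 14), (4, 13, 14)]
    fin := [0, 1, 0, 0, 0, 0, 1, 7, 8, 1, 10, 11, 0, 13, 14]
    chd := [(0, 10)]
    steps := [(0, 2), (0, 3), (0, 4), (0, 5), (0, 12), (1, 6), (1, 9)] }
  rep := [0, 1, 11, 13, 10, 7, 8, 14]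

noncomputable def v325 : Cov.CovD where
  P := 3
  N := 5
  pl := [2, 3, 6, 8, 9]
  lev := [⟨[], [], [(0, 1)], [], [(0, 0, [4]), (1, 1, [])]⟩,
    ⟨[], [(0, 0), (0, 1)], [(1, 1)], [5, 6], [(1, 1, []), (4, 1, [])]⟩,
    ⟨[(0, 1)], [(0, 0), (0, 1), (0, 4), (1, 1), (1, 4)], [(1, 4)], [2], [(4, 1, []), (5, 4,
      [0])]⟩,
    ⟨[(0, 1), (0, 2), (1, 2)], [(0, 0), (0, 1), (2, 0), (2, 1), (2, 4)], [(0, 0)], [2, 3],
      [(0, 0, [4]), (7, 0, [4])]⟩,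
    ⟨[(0, 3), (2, 3)], [(0, 0), (3, 0)], [], [3, 7], [(0, 0, [4])]⟩]
  Ta := [((0, 1), 0, 1), ((0, 9), 0, 7), ((1, 0), 1, 0), ((1, 2), 1, 5), ((4, 3), 1, 6), ((4, 5),
    1, 4), ((7, 6), 0, 2), ((7, 8), 0, 3)]
  Tb := [((0, 1, 9), 0, 1, 7), ((1, 0, 2), 1, 0, 5), ((2, 1, 3), 5, 1, 6), ((3, 2, 4), 6, 5, 1),
    ((4, 3, 5), 1, 6, 4), ((5, 4, 6), 4, 1, 2), ((6, 5, 7), 2, 4, 0), ((7, 6, 8), 0, 2, 3),
    ((8, 7, 9), 3, 0, 7), ((9, 0, 8), 7, 0, 3)]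
  Tc := []
  Td := [((0, 4), (0, 1), 1), ((0, 4), (0, 9), 7), ((0, 4), (7, 6), 2), ((0, 4), (7, 8), 3), ((4,
    0), (5, 4), 1), ((4, 0), (5, 6), 2)]
  G := [[0, 0xa6c1a6c1a6c1e2, 0, 0x641641441da81a8111ca2c9dc, 0xc6a1c6a112c862bd4], [0, 0, 0,
    0xa6c1a6c111ca6c5d2, 0xc6a1c6a111ac6a9d4], [0, 0, 0x14211c211c2d1828c,
    0x141471c1d8111c53c9dc, 0x18623c1a112c812bd4], [0, 0, 0x116411a411c4d116811a811c8dc,
    0xa1c1a1c111ca1c5d2, 0x16a1c1a111a16a9d4]]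

noncomputable def n325 : Ent := ⟨e325, noF, [], [], []⟩

def c325 : PLift (Cov.check n325.C.D v325 = true) := ⟨by decide +kernel⟩

def b325 : PLift (entF (fidx ts) 400 325 n325 = true) := ⟨by decide +kernel⟩

theorem g325 : GoodF (fidx ts) 400 325 := GoodF.ofV v325 n325 c325.down b325.down

/-- 56675:267/1 -/
noncomputable def e326 : SCfg where
  D := {
    a := 5
    L := 10
    kp := 7
    inn := [(0, 1), (0, 2), (0, 3), (1, 0), (1, 2), (2, 0), (2, 1), (2, 3), (3, 0), (3, 2), (3, 4), (4,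
      3)]
    mix := [(0, 0), (0, 1), (1, 1), (1, 2), (1, 3), (1, 4), (2, 4), (2, 5), (2, 6), (3, 0), (3, 6), (3,
      7), (3, 8), (4, 0), (4, 3), (4, 8), (4, 9)]
    cl := [1, 0, 5, 2, 0, 6, 3, 4, 1, 7]
    chq := [(0, 3), (0, 4), (3, 0), (4, 0)]
    rng := [(0, 1), (0, 9), (1, 0), (1, 2), (2, 1), (2, 3), (3, 2), (3, 4), (3, 8), (3, 9), (4, 3), (4,
      5), (5, 4), (5, 6), (6, 5), (6, 7), (7, 6), (7, 8), (8, 3), (8, 7), (9, 0), (9, 3)]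
    lev := [] }
  links := [[1, 2, 3, 5, 6], [2, 0, 6, 7, 8, 9], [3, 0, 1, 9, 10, 11], [5, 0, 2, 11, 12, 13, 4], [5, 3,
    13, 8, 14]]
  P := {
    a := 5
    N := 15
    nb := [110, 965, 3595, 14389, 24872, 16473, 163, 322, 25234, 1286, 2564, 5132, 10248, 4376, 304]
    tri := [(0, 1, 2), (0, 1, 6), (0, 2, 3), (0, 3, 5), (0, 5, 6), (1, 2, 9), (1, 6, 7), (1, 7, 8), (1,
      8, 9), (2, 3, 11), (2, 9, 10), (2, 10, 11), (3, 4, 5), (3, 4, 13), (3, 11, 12), (3, 12, 13),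
      (4, 5, 14), (4, 8, 13), (4, 8, 14)]
    fin := [0, 1, 1, 1, 0, 0, 1, 7, 8, 1, 10, 11, 12, 0, 14]
    chd := [(1, 11), (1, 12)]
    steps := [(0, 5), (0, 4), (0, 13), (1, 2), (1, 3), (1, 6), (1, 9)] }
  rep := [1, 0, 8, 11, 12, 7, 10, 14]

noncomputable def v326 : Cov.CovD where
  P := 3
  N := 5
  pl := [2, 3, 5, 9]
  lev := [⟨[], [], [(0, 1)], [], [(0, 1, []), (1, 0, [3, 4])]⟩,
    ⟨[], [(0, 0), (0, 1)], [(0, 0)], [2, 5], [(1, 0, [3, 4]), (4, 0, [3, 4])]⟩,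
    ⟨[(0, 1)], [(0, 0), (0, 1), (0, 3), (1, 0), (1, 3)], [(0, 3)], [6], [(4, 0, [3, 4]),
      (6, 3, [0])]⟩,
    ⟨[(0, 1), (0, 2), (1, 2)], [(0, 0), (0, 1), (0, 3), (0, 4), (2, 0), (2, 1), (2, 3), (2,
      4)], [(1, 1), (1, 3), (1, 4), (3, 4)], [], [(0, 1, []), (6, 3, [0]), (7, 4, [0]), (8,
      1, [])]⟩,
    ⟨[(0, 3), (2, 3)], [(0, 1), (3, 1), (3, 3), (3, 4)], [(1, 1)], [2, 7], [(0, 1, []), (8,
      1, [])]⟩]
  Ta := [((0, 1), 1, 0), ((0, 9), 1, 7), ((1, 0), 0, 1), ((1, 2), 0, 5), ((4, 3), 0, 2), ((4, 5),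
    0, 6), ((8, 3), 1, 2), ((8, 7), 1, 4)]
  Tb := [((0, 1, 9), 1, 0, 7), ((1, 0, 2), 0, 1, 5), ((2, 1, 3), 5, 0, 2), ((3, 2, 4), 2, 5, 0),
    ((3, 2, 8), 2, 5, 1), ((3, 2, 9), 2, 5, 7), ((3, 4, 8), 2, 0, 1), ((3, 4, 9), 2, 0, 7),
    ((3, 8, 9), 2, 1, 7), ((4, 3, 5), 0, 2, 6), ((5, 4, 6), 6, 0, 3), ((6, 5, 7), 3, 6, 4),
    ((7, 6, 8), 4, 3, 1), ((8, 3, 7), 1, 2, 4), ((9, 0, 3), 7, 1, 2)]
  Tc := [(0, 3, 4)]
  Td := [((0, 3), (1, 0), 1), ((0, 3), (1, 2), 5), ((0, 3), (4, 3), 2), ((0, 3), (4, 5), 6), ((0,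
    4), (1, 0), 1), ((0, 4), (1, 2), 5), ((0, 4), (4, 3), 2), ((0, 4), (4, 5), 6), ((3, 0),
    (6, 5), 6), ((3, 0), (6, 7), 4), ((4, 0), (7, 6), 3), ((4, 0), (7, 8), 1)]
  G := [[0, 0xccce1ccce1c2, 0, 0, 0x195199119d11cf119d91119d14fa4], [0, 0, 0,
    0xc1c1c1ec1c1acc1446, 0x195199119d11cf119d91119d14fa4], [0, 0, 0xc1c1c1ec1c1c1ea4, 0,
    0x1951956195119d6a91181818f1998ac], [0, 0, 0xc1c16c18c1c1c1ee8, 0xc1c1c4c1c1c1ec12cc,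
    0x19542195199119d11cf199119daac]]

noncomputable def n326 : Ent := ⟨e326, noF, [], [], []⟩

def c326 : PLift (Cov.check n326.C.D v326 = true) := ⟨by decide +kernel⟩

def b326 : PLift (entF (fidx ts) 400 326 n326 = true) := ⟨by decide +kernel⟩

theorem g326 : GoodF (fidx ts) 400 326 := GoodF.ofV v326 n326 c326.down b326.down

/-- 56675:267 -/
noncomputable def e327 : SCfg where
  D := {
    a := 5
    L := 11
    kp := 8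
    inn := [(0, 1), (0, 2), (0, 3), (1, 0), (1, 2), (2, 0), (2, 1), (2, 3), (3, 0), (3, 2), (3, 4), (4,
      3)]
    mix := [(0, 0), (0, 1), (1, 1), (1, 2), (1, 3), (1, 4), (2, 4), (2, 5), (2, 6), (3, 0), (3, 6), (3,
      7), (3, 8), (4, 0), (4, 8), (4, 9), (4, 10)]
    cl := [1, 0, 4, 5, 0, 6, 3, 2, 1, 7, 8]
    chq := [(0, 2), (0, 3), (2, 0), (3, 0)]
    rng := [(0, 1), (0, 10), (1, 0), (1, 2), (2, 1), (2, 3), (3, 2), (3, 4), (4, 3), (4, 5), (5, 4),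
      (5, 6), (6, 5), (6, 7), (7, 6), (7, 8), (8, 7), (8, 9), (9, 8), (9, 10), (10, 0), (10, 9)]
    lev := [] }
  links := [[1, 2, 3, 5, 6], [2, 0, 6, 7, 8, 9], [3, 0, 1, 9, 10, 11], [5, 0, 2, 11, 12, 13, 4], [5, 3,
    13, 14, 15]]
  P := {
    a := 5
    N := 16
    nb := [110, 965, 3595, 14389, 57384, 32857, 163, 322, 642, 1286, 2564, 5132, 10248, 20504, 40976,
      16432]
    tri := [(0, 1, 2), (0, 1, 6), (0, 2, 3), (0, 3, 5), (0, 5, 6), (1, 2, 9), (1, 6, 7), (1, 7, 8), (1,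
      8, 9), (2, 3, 11), (2, 9, 10), (2, 10, 11), (3, 4, 5), (3, 4, 13), (3, 11, 12), (3, 12, 13),
      (4, 5, 15), (4, 13, 14), (4, 14, 15)]
    fin := [0, 1, 1, 1, 0, 0, 1, 7, 8, 1, 10, 11, 12, 0, 14, 15]
    chd := [(1, 11), (1, 12)]
    steps := [(0, 5), (0, 4), (0, 13), (1, 2), (1, 3), (1, 6), (1, 9)] }
  rep := [1, 0, 12, 11, 7, 8, 10, 14, 15]

noncomputable def v327 : Cov.CovD where
  P := 3
  N := 6
  pl := [2, 3, 5, 9, 10]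
  lev := [⟨[], [], [(0, 1)], [], [(0, 1, []), (1, 0, [2, 3])]⟩,
    ⟨[], [(0, 0), (0, 1)], [(0, 0)], [4, 5], [(1, 0, [2, 3]), (4, 0, [2, 3])]⟩,
    ⟨[(0, 1)], [(0, 0), (0, 1), (0, 3), (1, 0), (1, 3)], [(0, 3)], [6], [(4, 0, [2, 3]),
      (6, 3, [0])]⟩,
    ⟨[(0, 1), (0, 2), (1, 2)], [(0, 0), (0, 1), (0, 2), (0, 3), (2, 0), (2, 1), (2, 2), (2,
      3)], [(1, 1), (1, 2), (1, 3), (2, 3)], [], [(0, 1, []), (6, 3, [0]), (7, 2, [0]), (8,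
      1, [])]⟩,
    ⟨[(0, 3), (2, 3)], [(0, 1), (3, 1), (3, 2), (3, 3)], [(1, 1)], [7, 8], [(0, 1, []), (8,
      1, [])]⟩]
  Ta := [((0, 1), 1, 0), ((0, 10), 1, 8), ((1, 0), 0, 1), ((1, 2), 0, 4), ((4, 3), 0, 5), ((4,
    5), 0, 6), ((8, 7), 1, 2), ((8, 9), 1, 7)]
  Tb := [((0, 1, 10), 1, 0, 8), ((1, 0, 2), 0, 1, 4), ((2, 1, 3), 4, 0, 5), ((3, 2, 4), 5, 4, 0),
    ((4, 3, 5), 0, 5, 6), ((5, 4, 6), 6, 0, 3), ((6, 5, 7), 3, 6, 2), ((7, 6, 8), 2, 3, 1),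
    ((8, 7, 9), 1, 2, 7), ((9, 8, 10), 7, 1, 8), ((10, 0, 9), 8, 1, 7)]
  Tc := [(0, 2, 3)]
  Td := [((0, 2), (1, 0), 1), ((0, 2), (1, 2), 4), ((0, 2), (4, 3), 5), ((0, 2), (4, 5), 6), ((0,
    3), (1, 0), 1), ((0, 3), (1, 2), 4), ((0, 3), (4, 3), 5), ((0, 3), (4, 5), 6), ((2, 0),
    (7, 6), 3), ((2, 0), (7, 8), 1), ((3, 0), (6, 5), 6), ((3, 0), (6, 7), 2)]
  G := [[0, 0x441e41441eeac1e81eac1ec, 0xd41d41441ed81d81d9c1ec, 0,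
    0xd11d91d9e811d91d958f61d91d9d878c], [0, 0, 0x81815dcb2ddc1ddc1ca,
    0x1c51d561d51c9d4bd11c51d9eed188c, 0xd11d91d9e1d9d1661d91d9d875898ac], [0, 0,
    0xd415dc15dc1ed81881881ec, 0, 0xd14d11d91d9ed11d91d9eed1181d9e8c], [0, 0,
    0x81815dcb2ddc1ddc1ca, 0x1c51d56d11d56d11c51d9eed185898ca,
    0xd11d91d9ed11d966d11d91d9e1c98ac]]

noncomputable def n327 : Ent := ⟨e327, noF, [], [], [(8, 14, [385746751338780685620664494392815470296102193487288376373829633, 0])]⟩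

def c327 : PLift (Cov.check n327.C.D v327 = true) := ⟨by decide +kernel⟩

def b327 : PLift (entF (fidx ts) 400 327 n327 = true) := ⟨by decide +kernel⟩

theorem g327 : GoodF (fidx ts) 400 327 := GoodF.ofV v327 n327 c327.down b327.down

/-- 46764:269/1 -/
noncomputable def e328 : SCfg where
  D := {
    a := 5
    L := 8
    kp := 6
    inn := [(0, 1), (0, 2), (1, 0), (1, 2), (2, 0), (2, 1), (2, 3), (2, 4), (3, 2), (3, 4), (4, 2), (4,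
      3)]
    mix := [(0, 0), (0, 1), (1, 1), (1, 2), (1, 3), (1, 4), (2, 0), (2, 4), (2, 5), (3, 3), (3, 4), (3,
      6), (3, 7), (4, 5), (4, 7)]
    cl := [1, 0, 6, 3, 0, 2, 5, 4]
    chq := [(1, 3), (1, 4), (1, 5), (3, 1), (4, 1), (5, 1)]
    rng := [(0, 1), (0, 5), (1, 0), (1, 2), (2, 1), (2, 3), (3, 2), (3, 4), (3, 6), (4, 3), (5, 0), (5,
      7), (6, 3), (6, 7), (7, 5), (7, 6)]
    lev := [] }
  links := [[1, 2, 5, 6], [2, 0, 6, 7, 8, 9], [5, 0, 1, 9, 3, 4, 10], [4, 2, 9, 8, 11, 12], [10, 2, 3,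
    12]]
  P := {
    a := 5
    N := 13
    nb := [102, 965, 1595, 6932, 5132, 1093, 163, 322, 2698, 270, 4148, 4360, 3096]
    tri := [(0, 1, 2), (0, 1, 6), (0, 2, 5), (0, 5, 6), (1, 2, 9), (1, 6, 7), (1, 7, 8), (1, 8, 9), (2,
      3, 4), (2, 3, 9), (2, 4, 10), (2, 5, 10), (3, 4, 12), (3, 8, 9), (3, 8, 11), (3, 11, 12),
      (4, 10, 12)]
    fin := [0, 1, 0, 0, 0, 0, 1, 7, 8, 1, 10, 11, 12]
    chd := [(0, 8), (0, 11), (0, 12)]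
    steps := [(0, 2), (0, 3), (0, 4), (0, 5), (1, 6), (1, 9)] }
  rep := [1, 0, 10, 8, 12, 11, 7]

noncomputable def v328 : Cov.CovD where
  P := 3
  N := 4
  pl := [2, 5]
  lev := [⟨[], [], [(0, 1)], [], [(0, 1, [3, 4, 5]), (1, 0, [])]⟩,
    ⟨[], [(0, 0), (0, 1), (0, 3)], [(0, 0), (0, 3)], [6], [(1, 0, []), (3, 3, [1]), (4, 0,
      [])]⟩,
    ⟨[(0, 1)], [(0, 0), (0, 1), (1, 0), (1, 1), (1, 3)], [(0, 1)], [2], [(0, 1, [3, 4, 5]),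
      (4, 0, [])]⟩,
    ⟨[(0, 2), (1, 2)], [(1, 0), (1, 3), (2, 0), (2, 1), (2, 3), (2, 4), (2, 5)], [(0, 3),
      (0, 4), (0, 5), (3, 4), (3, 5), (4, 5)], [], [(3, 3, [1]), (4, 0, []), (6, 5, [1]), (7,
      4, [1])]⟩,
    ⟨[(0, 2), (1, 2), (2, 3)], [(2, 0), (2, 1), (2, 4), (3, 0), (3, 3), (3, 4), (3, 5)],
      [], [2], [(7, 4, [1])]⟩]
  Ta := [((1, 0), 0, 1), ((1, 2), 0, 6), ((4, 3), 0, 3)]
  Tb := [((0, 1, 5), 1, 0, 2), ((1, 0, 2), 0, 1, 6), ((2, 1, 3), 6, 0, 3), ((3, 2, 4), 3, 6, 0),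
    ((3, 2, 6), 3, 6, 5), ((3, 4, 6), 3, 0, 5), ((5, 0, 7), 2, 1, 4), ((6, 3, 7), 5, 3, 4),
    ((7, 5, 6), 4, 2, 5)]
  Tc := [(1, 3, 4), (1, 3, 5), (1, 4, 5)]
  Td := [((1, 3), (0, 1), 0), ((1, 3), (0, 5), 2), ((1, 4), (0, 1), 0), ((1, 4), (0, 5), 2), ((1,
    5), (0, 1), 0), ((1, 5), (0, 5), 2), ((3, 1), (3, 2), 6), ((3, 1), (3, 4), 0), ((3, 1),
    (3, 6), 5), ((4, 1), (7, 5), 2), ((4, 1), (7, 6), 5), ((5, 1), (6, 3), 3), ((5, 1), (6,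
    7), 4)]
  G := [[0, 0xc14c18c14e2, 0x4282cc28c28e4, 0xc21c21c21e8, 0x12829928928e4], [0, 0,
    0xc24c28c24e1, 0x524928c28e1, 0x3288ca928928e4]]

noncomputable def n328 : Ent := ⟨e328, noF, [], [], []⟩

def c328 : PLift (Cov.check n328.C.D v328 = true) := ⟨by decide +kernel⟩

def b328 : PLift (entF (fidx ts) 400 328 n328 = true) := ⟨by decide +kernel⟩

theorem g328 : GoodF (fidx ts) 400 328 := GoodF.ofV v328 n328 c328.down b328.down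

/-- 46764:269 -/
noncomputable def e329 : SCfg where
  D := {
    a := 5
    L := 9
    kp := 7
    inn := [(0, 1), (0, 2), (1, 0), (1, 2), (2, 0), (2, 1), (2, 3), (2, 4), (3, 2), (3, 4), (4, 2), (4,
      3)]
    mix := [(0, 0), (0, 1), (1, 1), (1, 2), (1, 3), (1, 4), (2, 0), (2, 4), (2, 5), (3, 4), (3, 6), (3,
      7), (3, 8), (4, 5), (4, 8)]
    cl := [1, 0, 6, 7, 0, 2, 4, 5, 3]
    chq := [(1, 3), (1, 4), (1, 5), (3, 1), (4, 1), (5, 1)]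
    rng := [(0, 1), (0, 5), (1, 0), (1, 2), (2, 1), (2, 3), (3, 2), (3, 4), (4, 3), (4, 6), (5, 0), (5,
      8), (6, 4), (6, 7), (7, 6), (7, 8), (8, 5), (8, 7)]
    lev := [] }
  links := [[1, 2, 5, 6], [2, 0, 6, 7, 8, 9], [5, 0, 1, 9, 3, 4, 10], [4, 2, 9, 11, 12, 13], [10, 2, 3,
    13]]
  P := {
    a := 5
    N := 14
    nb := [102, 965, 1595, 14868, 9228, 1093, 163, 322, 642, 2318, 8244, 4616, 10248, 5144]
    tri := [(0, 1, 2), (0, 1, 6), (0, 2, 5), (0, 5, 6), (1, 2, 9), (1, 6, 7), (1, 7, 8), (1, 8, 9), (2,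
      3, 4), (2, 3, 9), (2, 4, 10), (2, 5, 10), (3, 4, 13), (3, 9, 11), (3, 11, 12), (3, 12, 13),
      (4, 10, 13)]
    fin := [0, 1, 0, 0, 0, 0, 1, 7, 8, 1, 10, 11, 12, 13]
    chd := [(0, 11), (0, 12), (0, 13)]
    steps := [(0, 2), (0, 3), (0, 4), (0, 5), (1, 6), (1, 9)] }
  rep := [1, 0, 10, 13, 11, 12, 7, 8]

noncomputable def v329 : Cov.CovD where
  P := 3
  N := 5
  pl := [2, 3, 5]
  lev := [⟨[], [], [(0, 1)], [], [(0, 1, [3, 4, 5]), (1, 0, [])]⟩,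
    ⟨[], [(0, 0), (0, 1)], [(0, 0)], [6, 7], [(1, 0, []), (4, 0, [])]⟩,
    ⟨[(0, 1)], [(0, 0), (0, 1), (1, 0), (1, 1)], [(0, 1)], [2], [(0, 1, [3, 4, 5]), (4, 0,
      [])]⟩,
    ⟨[(0, 2), (1, 2)], [(1, 0), (2, 0), (2, 1), (2, 3), (2, 4), (2, 5)], [(0, 3), (0, 4),
      (0, 5), (3, 4), (3, 5), (4, 5)], [], [(4, 0, []), (6, 4, [1]), (7, 5, [1]), (8, 3,
      [1])]⟩,
    ⟨[(0, 2), (1, 2), (2, 3)], [(2, 0), (2, 1), (2, 3), (3, 0), (3, 3), (3, 4), (3, 5)],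
      [], [2], [(8, 3, [1])]⟩]
  Ta := [((1, 0), 0, 1), ((1, 2), 0, 6), ((4, 3), 0, 7), ((4, 6), 0, 4)]
  Tb := [((0, 1, 5), 1, 0, 2), ((1, 0, 2), 0, 1, 6), ((2, 1, 3), 6, 0, 7), ((3, 2, 4), 7, 6, 0),
    ((4, 3, 6), 0, 7, 4), ((5, 0, 8), 2, 1, 3), ((6, 4, 7), 4, 0, 5), ((7, 6, 8), 5, 4, 3),
    ((8, 5, 7), 3, 2, 5)]
  Tc := [(1, 3, 4), (1, 3, 5), (1, 4, 5)]
  Td := [((1, 3), (0, 1), 0), ((1, 3), (0, 5), 2), ((1, 4), (0, 1), 0), ((1, 4), (0, 5), 2), ((1,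
    5), (0, 1), 0), ((1, 5), (0, 5), 2), ((3, 1), (8, 5), 2), ((3, 1), (8, 7), 5), ((4, 1),
    (6, 4), 0), ((4, 1), (6, 7), 5), ((5, 1), (7, 6), 4), ((5, 1), (7, 8), 3)]
  G := [[0, 0x4181cc18c18e4, 0xc244282cc24e8, 0x924528528e8, 0x12829928928e4], [0, 0,
    0x4282c4282cc28e1, 0x924528924e4, 0x23688a928928e1]]

noncomputable def n329 : Ent := ⟨e329, noF, [], [], [(8, 11, [19926932677925709296473841916494848696430411104333889537, 0])]⟩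

def c329 : PLift (Cov.check n329.C.D v329 = true) := ⟨by decide +kernel⟩

def b329 : PLift (entF (fidx ts) 400 329 n329 = true) := ⟨by decide +kernel⟩

theorem g329 : GoodF (fidx ts) 400 329 := GoodF.ofV v329 n329 c329.down b329.down

/-- 46746:273 -/
noncomputable def e330 : SCfg where
  D := {
    a := 5
    L := 9
    kp := 6
    inn := [(0, 1), (0, 2), (0, 4), (1, 0), (1, 2), (2, 0), (2, 1), (2, 3), (2, 4), (3, 2), (4, 0), (4,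
      2)]
    mix := [(0, 0), (1, 0), (1, 1), (1, 2), (1, 3), (2, 3), (2, 4), (2, 5), (3, 4), (3, 5), (3, 6), (4,
      0), (4, 5), (4, 7), (4, 8)]
    cl := [0, 2, 3, 0, 1, 0, 4, 5, 6]
    chq := []
    rng := [(0, 1), (0, 8), (1, 0), (1, 2), (2, 1), (2, 3), (3, 2), (3, 4), (4, 3), (4, 6), (5, 6), (5,
      7), (6, 4), (6, 5), (7, 5), (7, 8), (8, 0), (8, 7)]
    lev := [] }
  links := [[1, 2, 4, 5], [2, 0, 5, 6, 7, 8], [4, 0, 1, 8, 9, 3, 10], [10, 2, 9, 11], [5, 0, 2, 10, 12,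
    13]]
  P := {
    a := 5
    N := 14
    nb := [54, 485, 1819, 3588, 13349, 8275, 162, 322, 646, 2316, 6172, 1544, 9232, 4144]
    tri := [(0, 1, 2), (0, 1, 5), (0, 2, 4), (0, 4, 5), (1, 2, 8), (1, 5, 6), (1, 6, 7), (1, 7, 8), (2,
      3, 9), (2, 3, 10), (2, 4, 10), (2, 8, 9), (3, 9, 11), (3, 10, 11), (4, 5, 13), (4, 10, 12),
      (4, 12, 13)]
    fin := [0, 0, 0, 0, 0, 0, 6, 7, 0, 9, 0, 11, 12, 13]
    chd := []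
    steps := [(0, 1), (0, 2), (0, 3), (0, 4), (0, 5), (0, 8), (0, 10)] }
  rep := [0, 9, 6, 7, 11, 12, 13]

noncomputable def v330 : Cov.CovD where
  P := 3
  N := 4
  pl := [1, 2, 4, 6, 7, 8]
  lev := [⟨[], [], [], [], [(0, 0, [])]⟩,
    ⟨[], [(0, 0)], [(0, 0)], [2, 3], [(0, 0, []), (3, 0, [])]⟩,
    ⟨[(0, 1)], [(0, 0), (1, 0)], [(0, 0)], [1], [(3, 0, []), (5, 0, [])]⟩,
    ⟨[(0, 2), (1, 2)], [(2, 0)], [], [1, 4], [(5, 0, [])]⟩,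
    ⟨[(0, 1), (0, 2), (1, 2), (2, 3)], [(0, 0), (1, 0), (2, 0), (3, 0)], [(0, 0)], [5, 6],
      [(0, 0, []), (5, 0, [])]⟩]
  Ta := [((0, 1), 0, 2), ((0, 8), 0, 6), ((3, 2), 0, 3), ((3, 4), 0, 1), ((5, 6), 0, 4), ((5, 7),
    0, 5)]
  Tb := [((0, 1, 8), 0, 2, 6), ((1, 0, 2), 2, 0, 3), ((2, 1, 3), 3, 2, 0), ((3, 2, 4), 0, 3, 1),
    ((4, 3, 6), 1, 0, 4), ((5, 6, 7), 0, 4, 5), ((6, 4, 5), 4, 1, 0), ((7, 5, 8), 5, 0, 6),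
    ((8, 0, 7), 6, 0, 5)]
  Tc := []
  Td := []
  G := [[0, 0, 0x6181ce18a4, 0xe14e18c2, 0x6181ce18a4], [0, 0xe2ce2eec2c1, 0, 0xe14e18c1,
    0x6181ce18a4], [0, 0, 0, 0x44eacc4eca8cc1, 0x64e8cc6ec88ca1]]

noncomputable def n330 : Ent := ⟨e330, noF, [], [], []⟩

def c330 : PLift (Cov.check n330.C.D v330 = true) := ⟨by decide +kernel⟩

def b330 : PLift (entF (fidx ts) 400 330 n330 = true) := ⟨by decide +kernel⟩

theorem g330 : GoodF (fidx ts) 400 330 := GoodF.ofV v330 n330 c330.down b330.down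

/-- 47565:274/1 -/
noncomputable def e331 : SCfg where
  D := {
    a := 5
    L := 9
    kp := 6
    inn := [(0, 1), (1, 0), (1, 2), (1, 3), (2, 1), (2, 3), (3, 1), (3, 2), (3, 4), (4, 3)]
    mix := [(0, 0), (0, 1), (0, 2), (1, 0), (1, 2), (1, 3), (1, 4), (2, 2), (2, 5), (2, 6), (3, 3), (3,
      6), (3, 7), (4, 1), (4, 6), (4, 7), (4, 8)]
    cl := [2, 3, 0, 0, 4, 5, 1, 1, 6]
    chq := [(3, 4), (4, 3)]
    rng := [(0, 1), (0, 4), (1, 0), (1, 2), (1, 7), (1, 8), (2, 1), (2, 5), (3, 4), (3, 7), (4, 0), (4,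
      3), (5, 2), (5, 6), (6, 5), (6, 8), (7, 1), (7, 3), (8, 1), (8, 6)]
    lev := [] }
  links := [[1, 5, 6, 7], [5, 0, 7, 2, 3, 8, 9], [3, 1, 7, 10, 11], [8, 1, 2, 11, 4, 12], [12, 3, 11, 13,
    6]]
  P := {
    a := 5
    N := 14
    nb := [226, 941, 3210, 6422, 14408, 579, 12465, 1095, 4618, 290, 2180, 9244, 344, 2128]
    tri := [(0, 1, 5), (0, 1, 7), (0, 5, 6), (0, 6, 7), (1, 2, 3), (1, 2, 7), (1, 3, 8), (1, 5, 9), (1,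
      8, 9), (2, 3, 11), (2, 7, 10), (2, 10, 11), (3, 4, 11), (3, 4, 12), (3, 8, 12), (4, 6, 12),
      (4, 6, 13), (4, 11, 13)]
    fin := [0, 0, 2, 2, 4, 5, 0, 2, 2, 9, 10, 4, 4, 13]
    chd := [(0, 9)]
    steps := [(0, 1), (0, 6), (2, 3), (2, 7), (2, 8), (4, 11), (4, 12)] }
  rep := [2, 4, 5, 0, 9, 10, 13]

noncomputable def v331 : Cov.CovD where
  P := 3
  N := 4
  pl := [0, 5, 8]
  lev := [⟨[], [], [(0, 3)], [2], [(1, 3, [4]), (2, 0, [])]⟩,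
    ⟨[], [(0, 0), (0, 3), (0, 4)], [(0, 0), (0, 4)], [2], [(2, 0, []), (3, 0, []), (4, 4,
      [3])]⟩,
    ⟨[(0, 1)], [(0, 0), (1, 0), (1, 1), (1, 4)], [(0, 1)], [5], [(2, 0, []), (6, 1, [])]⟩,
    ⟨[(0, 1), (1, 2)], [(1, 0), (1, 1), (1, 4), (2, 0), (2, 1)], [(0, 1), (1, 1)], [], [(3,
      0, []), (6, 1, []), (7, 1, [])]⟩,
    ⟨[(1, 3), (2, 3)], [(0, 3), (2, 1), (3, 0), (3, 1), (3, 3)], [(1, 1), (1, 3)], [6],
      [(1, 3, [4]), (6, 1, []), (7, 1, [])]⟩]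
  Ta := [((2, 1), 0, 3), ((2, 5), 0, 5), ((3, 4), 0, 4), ((3, 7), 0, 1), ((6, 5), 1, 5), ((6, 8),
    1, 6), ((7, 1), 1, 3), ((7, 3), 1, 0)]
  Tb := [((0, 1, 4), 2, 3, 4), ((1, 0, 2), 3, 2, 0), ((1, 0, 7), 3, 2, 1), ((1, 0, 8), 3, 2, 6),
    ((1, 2, 7), 3, 0, 1), ((1, 2, 8), 3, 0, 6), ((1, 7, 8), 3, 1, 6), ((2, 1, 5), 0, 3, 5),
    ((3, 4, 7), 0, 4, 1), ((4, 0, 3), 4, 2, 0), ((5, 2, 6), 5, 0, 1), ((6, 5, 8), 1, 5, 6),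
    ((7, 1, 3), 1, 3, 0), ((8, 1, 6), 6, 3, 1)]
  Tc := []
  Td := [((3, 4), (1, 0), 2), ((3, 4), (1, 2), 0), ((3, 4), (1, 7), 1), ((3, 4), (1, 8), 6), ((4,
    3), (4, 0), 2), ((4, 3), (4, 3), 0)]
  G := [[0, 0, 0x54145c18598cc2, 0x589d8c4d4945c8c, 0x1c549ccd4d8ca2], [0, 0, 0x98245428c,
    0xd824d428c, 0xd4945c2d428a], [0, 0, 0x581d81c2, 0x98145418c, 0xd41941a2],
    [0x642e4c8cae2a8c46, 0xe2e46e2e8ac1, 0x98145428c, 0x582d82c1, 0x9412d4289]]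

noncomputable def n331 : Ent := ⟨e331, noF, [], [], []⟩

def c331 : PLift (Cov.check n331.C.D v331 = true) := ⟨by decide +kernel⟩

def b331 : PLift (entF (fidx ts) 400 331 n331 = true) := ⟨by decide +kernel⟩

theorem g331 : GoodF (fidx ts) 400 331 := GoodF.ofV v331 n331 c331.down b331.down

/-- 47565:274 -/
noncomputable def e332 : SCfg where
  D := {
    a := 5
    L := 10
    kp := 7
    inn := [(0, 1), (1, 0), (1, 2), (1, 3), (2, 1), (2, 3), (3, 1), (3, 2), (3, 4), (4, 3)]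
    mix := [(0, 0), (0, 1), (0, 2), (1, 0), (1, 2), (1, 3), (1, 4), (2, 2), (2, 5), (2, 6), (3, 3), (3,
      6), (3, 7), (4, 6), (4, 7), (4, 8), (4, 9)]
    cl := [1, 4, 0, 0, 2, 5, 3, 3, 6, 7]
    chq := [(2, 4), (4, 2)]
    rng := [(0, 1), (0, 4), (1, 0), (1, 2), (2, 1), (2, 5), (3, 4), (3, 7), (4, 0), (4, 3), (5, 2), (5,
      6), (6, 5), (6, 8), (7, 3), (7, 9), (8, 6), (8, 9), (9, 7), (9, 8)]
    lev := [] }
  links := [[1, 5, 6, 7], [5, 0, 7, 2, 3, 8, 9], [3, 1, 7, 10, 11], [8, 1, 2, 11, 4, 12], [12, 3, 11, 13,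
    14]]
  P := {
    a := 5
    N := 15
    nb := [226, 941, 3210, 6422, 30728, 579, 161, 1095, 4618, 290, 2180, 9244, 16664, 18448, 12304]
    tri := [(0, 1, 5), (0, 1, 7), (0, 5, 6), (0, 6, 7), (1, 2, 3), (1, 2, 7), (1, 3, 8), (1, 5, 9), (1,
      8, 9), (2, 3, 11), (2, 7, 10), (2, 10, 11), (3, 4, 11), (3, 4, 12), (3, 8, 12), (4, 11, 13),
      (4, 12, 14), (4, 13, 14)]
    fin := [0, 0, 2, 2, 4, 5, 0, 2, 2, 9, 10, 4, 4, 13, 14]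
    chd := [(0, 9)]
    steps := [(0, 1), (0, 6), (2, 3), (2, 7), (2, 8), (4, 11), (4, 12)] }
  rep := [2, 5, 9, 4, 0, 10, 13, 14]

noncomputable def v332 : Cov.CovD where
  P := 3
  N := 5
  pl := [0, 5, 8, 9]
  lev := [⟨[], [], [(0, 4)], [1], [(1, 4, [2]), (2, 0, [])]⟩,
    ⟨[], [(0, 0), (0, 2), (0, 4)], [(0, 0), (0, 2)], [1], [(2, 0, []), (3, 0, []), (4, 2,
      [4])]⟩,
    ⟨[(0, 1)], [(0, 0), (1, 0), (1, 2), (1, 3)], [(0, 3)], [5], [(2, 0, []), (6, 3, [])]⟩,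
    ⟨[(0, 1), (1, 2)], [(1, 0), (1, 2), (1, 3), (2, 0), (2, 3)], [(0, 3), (3, 3)], [], [(3,
      0, []), (6, 3, []), (7, 3, [])]⟩,
    ⟨[(1, 3), (2, 3)], [(2, 3), (3, 0), (3, 3)], [(3, 3)], [6, 7], [(6, 3, []), (7, 3,
      [])]⟩]
  Ta := [((2, 1), 0, 4), ((2, 5), 0, 5), ((3, 4), 0, 2), ((3, 7), 0, 3), ((6, 5), 3, 5), ((6, 8),
    3, 6), ((7, 3), 3, 0), ((7, 9), 3, 7)]
  Tb := [((0, 1, 4), 1, 4, 2), ((1, 0, 2), 4, 1, 0), ((2, 1, 5), 0, 4, 5), ((3, 4, 7), 0, 2, 3),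
    ((4, 0, 3), 2, 1, 0), ((5, 2, 6), 5, 0, 3), ((6, 5, 8), 3, 5, 6), ((7, 3, 9), 3, 0, 7),
    ((8, 6, 9), 6, 3, 7), ((9, 7, 8), 7, 3, 6)]
  Tc := []
  Td := [((2, 4), (4, 0), 1), ((2, 4), (4, 3), 0), ((4, 2), (1, 0), 1), ((4, 2), (1, 2), 0)]
  G := [[0, 0x3c55a361e98c2, 0, 0x78911ebd23e451a71e5d23e8c, 0x13c73c5d23e84], [0, 0xf2f8a42, 0,
    0x1e3f468f2f468c, 0xf2f4684], [0, 0xd7a142, 0xd7a14db618c, 0xd7a14db618c, 0xdb6184], [0,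
    0xf2f4682, 0xf2f8a41, 0xf2f4681, 0xf2f4681]]

noncomputable def n332 : Ent := ⟨e332, noF, [], [], [(6, 14, [81620716623019490593592230936445690773474979418095884742657, 0])]⟩

def c332 : PLift (Cov.check n332.C.D v332 = true) := ⟨by decide +kernel⟩

def b332 : PLift (entF (fidx ts) 400 332 n332 = true) := ⟨by decide +kernel⟩

theorem g332 : GoodF (fidx ts) 400 332 := GoodF.ofV v332 n332 c332.down b332.down

/-- 57566:275 -/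
noncomputable def e333 : SCfg where
  D := {
    a := 5
    L := 10
    kp := 8
    inn := [(0, 1), (0, 3), (1, 0), (1, 2), (1, 3), (1, 4), (2, 1), (2, 3), (2, 4), (3, 0), (3, 1), (3,
      2), (4, 1), (4, 2)]
    mix := [(0, 0), (0, 1), (0, 2), (1, 0), (1, 3), (1, 4), (2, 5), (2, 6), (3, 2), (3, 5), (3, 7), (4,
      3), (4, 6), (4, 8), (4, 9)]
    cl := [3, 6, 1, 0, 4, 2, 0, 5, 7, 8]
    chq := [(0, 1), (0, 5), (1, 0), (1, 3), (1, 4), (3, 1), (4, 1), (5, 0)]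
    rng := [(0, 1), (0, 4), (1, 0), (1, 2), (2, 1), (2, 7), (3, 4), (3, 9), (4, 0), (4, 3), (5, 6), (5,
      7), (6, 5), (6, 8), (7, 2), (7, 5), (8, 6), (8, 9), (9, 3), (9, 8)]
    lev := [] }
  links := [[1, 5, 6, 7, 3], [5, 0, 3, 2, 4, 8, 9], [4, 1, 3, 10, 11], [10, 2, 1, 0, 7, 12], [8, 1, 2,
    11, 13, 14]]
  P := {
    a := 5
    N := 15
    nb := [234, 829, 3098, 5255, 26886, 579, 161, 4169, 16914, 290, 6156, 9236, 1160, 18448, 8464]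
    tri := [(0, 1, 3), (0, 1, 5), (0, 3, 7), (0, 5, 6), (0, 6, 7), (1, 2, 3), (1, 2, 4), (1, 4, 8), (1,
      5, 9), (1, 8, 9), (2, 3, 10), (2, 4, 11), (2, 10, 11), (3, 7, 12), (3, 10, 12), (4, 8, 14),
      (4, 11, 13), (4, 13, 14)]
    fin := [0, 0, 2, 2, 4, 5, 6, 0, 4, 9, 10, 4, 2, 13, 14]
    chd := [(0, 4), (0, 9), (4, 2), (5, 0)]
    steps := [(0, 1), (0, 7), (2, 3), (2, 12), (4, 11), (4, 8)] }
  rep := [4, 0, 10, 5, 9, 2, 6, 13, 14]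

noncomputable def v333 : Cov.CovD where
  P := 3
  N := 6
  pl := [1, 5, 8, 9]
  lev := [⟨[], [], [(1, 3)], [6], [(0, 3, [1]), (2, 1, [0, 3, 4])]⟩,
    ⟨[], [(0, 0), (0, 1), (0, 3), (0, 4)], [(0, 3), (0, 4), (3, 4)], [], [(0, 3, [1]), (3,
      0, [1, 5]), (4, 4, [1])]⟩,
    ⟨[(0, 1)], [(1, 0), (1, 3), (1, 4)], [], [2], [(6, 0, [1, 5])]⟩,
    ⟨[(0, 1), (0, 2), (1, 2)], [(0, 1), (0, 3), (0, 5), (1, 0), (1, 1), (1, 3), (1, 4), (1,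
      5), (2, 0), (2, 1), (2, 5)], [(1, 5)], [2], [(2, 1, [0, 3, 4]), (7, 5, [0])]⟩,
    ⟨[(0, 1), (1, 2), (1, 3), (2, 3)], [(1, 0), (1, 3), (1, 4), (2, 0)], [(0, 0)], [7, 8],
      [(3, 0, [1, 5]), (6, 0, [1, 5])]⟩]
  Ta := [((3, 4), 0, 4), ((3, 9), 0, 8), ((6, 5), 0, 2), ((6, 8), 0, 7)]
  Tb := [((0, 1, 4), 3, 6, 4), ((1, 0, 2), 6, 3, 1), ((2, 1, 7), 1, 6, 5), ((3, 4, 9), 0, 4, 8),
    ((4, 0, 3), 4, 3, 0), ((5, 6, 7), 2, 0, 5), ((6, 5, 8), 0, 2, 7), ((7, 2, 5), 5, 1, 2),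
    ((8, 6, 9), 7, 0, 8), ((9, 3, 8), 8, 0, 7)]
  Tc := [(0, 1, 5), (1, 0, 3), (1, 0, 4), (1, 3, 4)]
  Td := [((0, 1), (3, 4), 4), ((0, 1), (3, 9), 8), ((0, 1), (6, 5), 2), ((0, 1), (6, 8), 7), ((0,
    5), (3, 4), 4), ((0, 5), (3, 9), 8), ((0, 5), (6, 5), 2), ((0, 5), (6, 8), 7), ((1, 0),
    (2, 1), 6), ((1, 0), (2, 7), 5), ((1, 3), (2, 1), 6), ((1, 3), (2, 7), 5), ((1, 4), (2,
    1), 6), ((1, 4), (2, 7), 5), ((3, 1), (0, 1), 6), ((3, 1), (0, 4), 4), ((4, 1), (4, 0),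
    3), ((4, 1), (4, 3), 0), ((5, 0), (7, 2), 1), ((5, 0), (7, 5), 2)]
  G := [[0, 0xe4e8c16ec88c144eacc1e, 0, 0x214e18a218e18622c12258ee94ed,
    0x221e18a218e186228228e1e89ed], [0, 0x44eacc1e4e8c144eacc1e,
    0x22444eacca228e4e8c6228224e4e8ced, 0x214e14a218e14622c422c8ee94ed,
    0xe182283e18228321242286e9889af]]

noncomputable def n333 : Ent := ⟨e333, noF, [], [], []⟩

def c333 : PLift (Cov.check n333.C.D v333 = true) := ⟨by decide +kernel⟩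

def b333 : PLift (entF (fidx ts) 400 333 n333 = true) := ⟨by decide +kernel⟩

theorem g333 : GoodF (fidx ts) 400 333 := GoodF.ofV v333 n333 c333.down b333.down

/-- 57565:276/1 -/
noncomputable def e334 : SCfg where
  D := {
    a := 5
    L := 9
    kp := 7
    inn := [(0, 1), (0, 3), (1, 0), (1, 2), (1, 3), (1, 4), (2, 1), (2, 3), (3, 0), (3, 1), (3, 2), (4,
      1)]
    mix := [(0, 0), (0, 1), (0, 2), (1, 0), (1, 3), (1, 4), (2, 3), (2, 5), (2, 6), (3, 2), (3, 5), (3,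
      7), (4, 3), (4, 4), (4, 6), (4, 8)]
    cl := [1, 6, 3, 0, 0, 4, 2, 5, 7]
    chq := [(1, 2), (1, 3), (1, 4), (1, 5), (2, 1), (3, 1), (4, 1), (5, 1)]
    rng := [(0, 1), (0, 4), (1, 0), (1, 2), (2, 1), (2, 7), (3, 6), (4, 0), (4, 8), (5, 6), (5, 7), (6,
      3), (6, 5), (6, 8), (7, 2), (7, 5), (8, 4), (8, 6)]
    lev := [] }
  links := [[1, 5, 6, 7, 3], [5, 0, 3, 2, 8, 4, 9], [8, 1, 3, 10, 11], [10, 2, 1, 0, 7, 12], [9, 1, 8,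
    11, 13]]
  P := {
    a := 5
    N := 14
    nb := [234, 829, 3338, 5255, 11010, 579, 161, 4169, 2070, 8242, 6156, 9492, 1160, 2576]
    tri := [(0, 1, 3), (0, 1, 5), (0, 3, 7), (0, 5, 6), (0, 6, 7), (1, 2, 3), (1, 2, 8), (1, 4, 8), (1,
      4, 9), (1, 5, 9), (2, 3, 10), (2, 8, 11), (2, 10, 11), (3, 7, 12), (3, 10, 12), (4, 8, 11),
      (4, 9, 13), (4, 11, 13)]
    fin := [0, 1, 0, 0, 4, 0, 6, 7, 1, 1, 10, 4, 12, 13]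
    chd := [(0, 4), (0, 7), (0, 10), (0, 12)]
    steps := [(0, 3), (0, 2), (0, 5), (1, 8), (1, 9), (4, 11)] }
  rep := [1, 0, 4, 7, 10, 12, 6, 13]

noncomputable def v334 : Cov.CovD where
  P := 3
  N := 5
  pl := [1, 8]
  lev := [⟨[], [], [(1, 3)], [6], [(0, 1, [2, 3, 4, 5]), (2, 3, [1])]⟩,
    ⟨[], [(0, 0), (0, 1), (0, 3)], [(0, 0), (0, 1)], [], [(0, 1, [2, 3, 4, 5]), (3, 0, []),
      (4, 0, [])]⟩,
    ⟨[(0, 1)], [(1, 0), (1, 1), (1, 2), (1, 4)], [(0, 2), (0, 4), (2, 4)], [], [(3, 0, []),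
      (5, 4, [1]), (6, 2, [1])]⟩,
    ⟨[(0, 1), (0, 2), (1, 2)], [(0, 1), (0, 3), (0, 4), (0, 5), (1, 0), (1, 1), (1, 3), (1,
      4), (1, 5), (2, 0), (2, 2), (2, 3), (2, 4), (2, 5)], [(3, 4), (3, 5), (4, 5)], [], [(2,
      3, [1]), (5, 4, [1]), (7, 5, [1])]⟩,
    ⟨[(0, 1), (1, 2), (1, 3)], [(1, 0), (1, 1), (1, 2), (2, 0), (2, 2)], [(0, 0), (0, 2)],
      [7], [(3, 0, []), (4, 0, []), (6, 2, [1])]⟩]
  Ta := [((3, 6), 0, 2), ((4, 0), 0, 1), ((4, 8), 0, 7)]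
  Tb := [((0, 1, 4), 1, 6, 0), ((1, 0, 2), 6, 1, 3), ((2, 1, 7), 3, 6, 5), ((4, 0, 8), 0, 1, 7),
    ((5, 6, 7), 4, 2, 5), ((6, 3, 5), 2, 0, 4), ((6, 3, 8), 2, 0, 7), ((6, 5, 8), 2, 4, 7),
    ((7, 2, 5), 5, 3, 4), ((8, 4, 6), 7, 0, 2)]
  Tc := [(1, 2, 3), (1, 2, 4), (1, 2, 5), (1, 3, 4), (1, 3, 5), (1, 4, 5)]
  Td := [((1, 2), (0, 1), 6), ((1, 2), (0, 4), 0), ((1, 3), (0, 1), 6), ((1, 3), (0, 4), 0), ((1,
    4), (0, 1), 6), ((1, 4), (0, 4), 0), ((1, 5), (0, 1), 6), ((1, 5), (0, 4), 0), ((2, 1),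
    (6, 3), 0), ((2, 1), (6, 5), 4), ((2, 1), (6, 8), 7), ((3, 1), (2, 1), 6), ((3, 1), (2,
    7), 5), ((4, 1), (5, 6), 2), ((4, 1), (5, 7), 5), ((5, 1), (7, 2), 3), ((5, 1), (7, 5),
    4)]
  G := [[0, 0, 0x62a2c4c24a28ca2a2c4d, 0x2222c42222c82222c8d, 0xaaaaf24aa62a28ca2aa3a4d], [0,
    0xc1c1c2c1c1c2c1c1c2e, 0, 0x2222582222982222c4d, 0xa2a294a2a294a2a294d]]

noncomputable def n334 : Ent := ⟨e334, noF, [], [], []⟩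

def c334 : PLift (Cov.check n334.C.D v334 = true) := ⟨by decide +kernel⟩

def b334 : PLift (entF (fidx ts) 400 334 n334 = true) := ⟨by decide +kernel⟩

theorem g334 : GoodF (fidx ts) 400 334 := GoodF.ofV v334 n334 c334.down b334.down

/-- 57565:276 -/
noncomputable def e335 : SCfg where
  D := {
    a := 5
    L := 10
    kp := 8
    inn := [(0, 1), (0, 3), (1, 0), (1, 2), (1, 3), (1, 4), (2, 1), (2, 3), (3, 0), (3, 1), (3, 2), (4,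
      1)]
    mix := [(0, 0), (0, 1), (0, 2), (1, 0), (1, 3), (1, 4), (2, 3), (2, 5), (2, 6), (3, 2), (3, 5), (3,
      7), (4, 3), (4, 4), (4, 8), (4, 9)]
    cl := [1, 6, 3, 0, 0, 2, 4, 5, 7, 8]
    chq := [(1, 2), (1, 3), (1, 4), (1, 5), (2, 1), (3, 1), (4, 1), (5, 1)]
    rng := [(0, 1), (0, 4), (1, 0), (1, 2), (2, 1), (2, 7), (3, 6), (3, 8), (4, 0), (4, 9), (5, 6), (5,
      7), (6, 3), (6, 5), (7, 2), (7, 5), (8, 3), (8, 9), (9, 4), (9, 8)]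
    lev := [] }
  links := [[1, 5, 6, 7, 3], [5, 0, 3, 2, 8, 4, 9], [8, 1, 3, 10, 11], [10, 2, 1, 0, 7, 12], [9, 1, 8,
    13, 14]]
  P := {
    a := 5
    N := 15
    nb := [234, 829, 3338, 5255, 25346, 579, 161, 4169, 10262, 16434, 6156, 1284, 1160, 16656, 8720]
    tri := [(0, 1, 3), (0, 1, 5), (0, 3, 7), (0, 5, 6), (0, 6, 7), (1, 2, 3), (1, 2, 8), (1, 4, 8), (1,
      4, 9), (1, 5, 9), (2, 3, 10), (2, 8, 11), (2, 10, 11), (3, 7, 12), (3, 10, 12), (4, 8, 13),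
      (4, 9, 14), (4, 13, 14)]
    fin := [0, 0, 0, 0, 4, 0, 6, 7, 4, 4, 10, 11, 12, 13, 14]
    chd := [(0, 7), (0, 10), (0, 11), (0, 12)]
    steps := [(0, 1), (0, 2), (0, 3), (0, 5), (4, 8), (4, 9)] }
  rep := [4, 0, 10, 7, 11, 12, 6, 13, 14]

noncomputable def v335 : Cov.CovD where
  P := 3
  N := 6
  pl := [1, 8, 9]
  lev := [⟨[], [], [(1, 3)], [6], [(0, 1, [2, 3, 4, 5]), (2, 3, [1])]⟩,
    ⟨[], [(0, 0), (0, 1), (0, 3)], [(0, 0), (0, 1)], [], [(0, 1, [2, 3, 4, 5]), (3, 0, []),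
      (4, 0, [])]⟩,
    ⟨[(0, 1)], [(1, 0), (1, 1), (1, 2), (1, 4)], [(0, 2), (0, 4), (2, 4)], [], [(3, 0, []),
      (5, 2, [1]), (6, 4, [1])]⟩,
    ⟨[(0, 1), (0, 2), (1, 2)], [(0, 1), (0, 2), (0, 3), (0, 5), (1, 0), (1, 1), (1, 2), (1,
      3), (1, 5), (2, 0), (2, 2), (2, 3), (2, 4), (2, 5)], [(2, 3), (2, 5), (3, 5)], [], [(2,
      3, [1]), (5, 2, [1]), (7, 5, [1])]⟩,
    ⟨[(0, 1), (1, 2), (1, 3)], [(1, 0), (1, 1), (2, 0)], [(0, 0)], [7, 8], [(3, 0, []), (4,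
      0, [])]⟩]
  Ta := [((3, 6), 0, 4), ((3, 8), 0, 7), ((4, 0), 0, 1), ((4, 9), 0, 8)]
  Tb := [((0, 1, 4), 1, 6, 0), ((1, 0, 2), 6, 1, 3), ((2, 1, 7), 3, 6, 5), ((3, 6, 8), 0, 4, 7),
    ((4, 0, 9), 0, 1, 8), ((5, 6, 7), 2, 4, 5), ((6, 3, 5), 4, 0, 2), ((7, 2, 5), 5, 3, 2),
    ((8, 3, 9), 7, 0, 8), ((9, 4, 8), 8, 0, 7)]
  Tc := [(1, 2, 3), (1, 2, 4), (1, 2, 5), (1, 3, 4), (1, 3, 5), (1, 4, 5)]
  Td := [((1, 2), (0, 1), 6), ((1, 2), (0, 4), 0), ((1, 3), (0, 1), 6), ((1, 3), (0, 4), 0), ((1,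
    4), (0, 1), 6), ((1, 4), (0, 4), 0), ((1, 5), (0, 1), 6), ((1, 5), (0, 4), 0), ((2, 1),
    (5, 6), 4), ((2, 1), (5, 7), 5), ((3, 1), (2, 1), 6), ((3, 1), (2, 7), 5), ((4, 1), (6,
    3), 0), ((4, 1), (6, 5), 2), ((5, 1), (7, 2), 3), ((5, 1), (7, 5), 2)]
  G := [[0, 0, 0x424e2a2cce2ee668e24e28cd, 0x6eed2882c2, 0xe2eeaa44266ebaa288aace2ee3a4d], [0,
    0xe1e1c2a1841e1c6e14e18ce, 0xe2eeaa4e2ee66862e2c828cd, 0x441e1eac3c2, 0xe214e218e214d]]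

noncomputable def n335 : Ent := ⟨e335, noF, [], [], [(11, 13, [87897818358406171357428020359653357189577334862559919267841, 0])]⟩

def c335 : PLift (Cov.check n335.C.D v335 = true) := ⟨by decide +kernel⟩

def b335 : PLift (entF (fidx ts) 400 335 n335 = true) := ⟨by decide +kernel⟩

theorem g335 : GoodF (fidx ts) 400 335 := GoodF.ofV v335 n335 c335.down b335.down

/-- 57665:279/1 -/
noncomputable def e336 : SCfg where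
  D := {
    a := 5
    L := 10
    kp := 7
    inn := [(0, 1), (0, 3), (1, 0), (1, 2), (1, 3), (1, 4), (2, 1), (2, 3), (3, 0), (3, 1), (3, 2), (4,
      1)]
    mix := [(0, 0), (0, 1), (0, 2), (1, 0), (1, 3), (1, 4), (2, 3), (2, 5), (2, 6), (2, 7), (3, 2), (3,
      5), (3, 8), (4, 0), (4, 1), (4, 4), (4, 9)]
    cl := [0, 2, 3, 1, 0, 1, 5, 6, 4, 7]
    chq := [(0, 3), (0, 4), (3, 0), (4, 0)]
    rng := [(0, 1), (1, 0), (1, 2), (1, 9), (2, 1), (2, 8), (3, 4), (3, 7), (4, 3), (4, 9), (5, 6), (5,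
      8), (6, 5), (6, 7), (7, 3), (7, 6), (8, 2), (8, 5), (9, 1), (9, 4)]
    lev := [] }
  links := [[1, 5, 6, 7, 3], [5, 0, 3, 2, 8, 9, 4], [8, 1, 3, 10, 11, 12], [10, 2, 1, 0, 7, 13], [5, 1,
    9, 14, 6]]
  P := {
    a := 5
    N := 15
    nb := [234, 829, 7434, 9351, 16994, 83, 16561, 8265, 4614, 16658, 10252, 5124, 2308, 1160, 592]
    tri := [(0, 1, 3), (0, 1, 5), (0, 3, 7), (0, 5, 6), (0, 6, 7), (1, 2, 3), (1, 2, 8), (1, 4, 5), (1,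
      4, 9), (1, 8, 9), (2, 3, 10), (2, 8, 12), (2, 10, 11), (2, 11, 12), (3, 7, 13), (3, 10, 13),
      (4, 5, 6), (4, 6, 14), (4, 9, 14)]
    fin := [0, 0, 2, 0, 0, 0, 6, 7, 2, 0, 2, 11, 12, 13, 14]
    chd := [(0, 7), (0, 13)]
    steps := [(0, 1), (0, 3), (0, 5), (0, 4), (0, 9), (2, 10), (2, 8)] }
  rep := [0, 2, 6, 7, 13, 11, 12, 14]

noncomputable def v336 : Cov.CovD where
  P := 3
  N := 5
  pl := [1, 6, 7, 9]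
  lev := [⟨[], [], [(0, 3)], [2], [(0, 0, [3, 4]), (2, 3, [0])]⟩,
    ⟨[], [(0, 0), (0, 1), (0, 3)], [(0, 0), (0, 1)], [], [(0, 0, [3, 4]), (3, 1, []), (4,
      0, [3, 4])]⟩,
    ⟨[(0, 1)], [(1, 0), (1, 1)], [(1, 1)], [5, 6], [(3, 1, []), (5, 1, [])]⟩,
    ⟨[(0, 1), (0, 2), (1, 2)], [(0, 0), (0, 1), (0, 3), (0, 4), (1, 0), (1, 1), (1, 3), (1,
      4), (2, 1), (2, 3), (2, 4)], [(1, 3), (1, 4), (3, 4)], [], [(2, 3, [0]), (5, 1, []),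
      (8, 4, [0])]⟩,
    ⟨[(0, 1), (1, 2), (1, 3)], [(0, 0), (1, 0), (1, 1)], [(0, 0)], [2, 7], [(0, 0, [3, 4]),
      (4, 0, [3, 4])]⟩]
  Ta := [((0, 1), 0, 2), ((3, 4), 1, 0), ((3, 7), 1, 6), ((4, 3), 0, 1), ((4, 9), 0, 7), ((5, 6),
    1, 5), ((5, 8), 1, 4)]
  Tb := [((1, 0, 2), 2, 0, 3), ((1, 0, 9), 2, 0, 7), ((1, 2, 9), 2, 3, 7), ((2, 1, 8), 3, 2, 4),
    ((3, 4, 7), 1, 0, 6), ((4, 3, 9), 0, 1, 7), ((5, 6, 8), 1, 5, 4), ((6, 5, 7), 5, 1, 6),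
    ((7, 3, 6), 6, 1, 5), ((8, 2, 5), 4, 3, 1), ((9, 1, 4), 7, 2, 0)]
  Tc := [(0, 3, 4)]
  Td := [((0, 3), (0, 1), 2), ((0, 3), (4, 3), 1), ((0, 3), (4, 9), 7), ((0, 4), (0, 1), 2), ((0,
    4), (4, 3), 1), ((0, 4), (4, 9), 7), ((3, 0), (2, 1), 2), ((3, 0), (2, 8), 4), ((4, 0),
    (8, 2), 3), ((4, 0), (8, 5), 1)]
  G := [[0, 0, 0x61c1a1d861c161d86, 0x414c182c2dc41c1cc5d828cc, 0xa1a1aa9d4a1a1aa5d4a], [0, 0,
    0xc1c1c1d2a1a1c1d4a, 0xc1c1cc9d2c1c1cc5d2c, 0xa1a1aa9d4a1a1aa5d4a], [0,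
    0xc1c1c1e2c1c1c1e2c, 0, 0x414c181cc9dc41c1c2d818cc, 0xa1a1aaad4a2a2aa6d49], [0, 0, 0,
    0xc1c1cc9d2c1c1cc5d2c, 0xa1a1aa9d4a1a1aa5d4a]]

noncomputable def n336 : Ent := ⟨e336, noF, [], [], []⟩

def c336 : PLift (Cov.check n336.C.D v336 = true) := ⟨by decide +kernel⟩

def b336 : PLift (entF (fidx ts) 400 336 n336 = true) := ⟨by decide +kernel⟩

theorem g336 : GoodF (fidx ts) 400 336 := GoodF.ofV v336 n336 c336.down b336.down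

/-- 57665:279 -/
noncomputable def e337 : SCfg where
  D := {
    a := 5
    L := 11
    kp := 8
    inn := [(0, 1), (0, 3), (1, 0), (1, 2), (1, 3), (1, 4), (2, 1), (2, 3), (3, 0), (3, 1), (3, 2), (4,
      1)]
    mix := [(0, 0), (0, 1), (0, 2), (1, 0), (1, 3), (1, 4), (2, 3), (2, 5), (2, 6), (2, 7), (3, 2), (3,
      5), (3, 8), (4, 0), (4, 4), (4, 9), (4, 10)]
    cl := [0, 2, 3, 1, 0, 1, 5, 6, 4, 7, 8]
    chq := [(0, 3), (0, 4), (3, 0), (4, 0)]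
    rng := [(0, 1), (0, 10), (1, 0), (1, 2), (2, 1), (2, 8), (3, 4), (3, 7), (4, 3), (4, 9), (5, 6),
      (5, 8), (6, 5), (6, 7), (7, 3), (7, 6), (8, 2), (8, 5), (9, 4), (9, 10), (10, 0), (10, 9)]
    lev := [] }
  links := [[1, 5, 6, 7, 3], [5, 0, 3, 2, 8, 9, 4], [8, 1, 3, 10, 11, 12], [10, 2, 1, 0, 7, 13], [5, 1,
    9, 14, 15]]
  P := {
    a := 5
    N := 16
    nb := [234, 829, 7434, 9351, 49698, 32851, 161, 8265, 4614, 16658, 10252, 5124, 2308, 1160, 33296,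
      16432]
    tri := [(0, 1, 3), (0, 1, 5), (0, 3, 7), (0, 5, 6), (0, 6, 7), (1, 2, 3), (1, 2, 8), (1, 4, 5), (1,
      4, 9), (1, 8, 9), (2, 3, 10), (2, 8, 12), (2, 10, 11), (2, 11, 12), (3, 7, 13), (3, 10, 13),
      (4, 5, 15), (4, 9, 14), (4, 14, 15)]
    fin := [0, 0, 2, 0, 0, 0, 6, 7, 2, 0, 2, 11, 12, 13, 14, 15]
    chd := [(0, 7), (0, 13)]
    steps := [(0, 1), (0, 3), (0, 4), (0, 5), (0, 9), (2, 10), (2, 8)] }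
  rep := [0, 2, 6, 7, 13, 11, 12, 14, 15]

noncomputable def v337 : Cov.CovD where
  P := 3
  N := 6
  pl := [1, 6, 7, 9, 10]
  lev := [⟨[], [], [(0, 3)], [2], [(0, 0, [3, 4]), (2, 3, [0])]⟩,
    ⟨[], [(0, 0), (0, 1), (0, 3)], [(0, 0), (0, 1)], [], [(0, 0, [3, 4]), (3, 1, []), (4,
      0, [3, 4])]⟩,
    ⟨[(0, 1)], [(1, 0), (1, 1)], [(1, 1)], [5, 6], [(3, 1, []), (5, 1, [])]⟩,
    ⟨[(0, 1), (0, 2), (1, 2)], [(0, 0), (0, 1), (0, 3), (0, 4), (1, 0), (1, 1), (1, 3), (1,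
      4), (2, 1), (2, 3), (2, 4)], [(1, 3), (1, 4), (3, 4)], [], [(2, 3, [0]), (5, 1, []),
      (8, 4, [0])]⟩,
    ⟨[(0, 1), (1, 2), (1, 3)], [(0, 0), (1, 0), (1, 1)], [(0, 0)], [7, 8], [(0, 0, [3, 4]),
      (4, 0, [3, 4])]⟩]
  Ta := [((0, 1), 0, 2), ((0, 10), 0, 8), ((3, 4), 1, 0), ((3, 7), 1, 6), ((4, 3), 0, 1), ((4,
    9), 0, 7), ((5, 6), 1, 5), ((5, 8), 1, 4)]
  Tb := [((0, 1, 10), 0, 2, 8), ((1, 0, 2), 2, 0, 3), ((2, 1, 8), 3, 2, 4), ((3, 4, 7), 1, 0, 6),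
    ((4, 3, 9), 0, 1, 7), ((5, 6, 8), 1, 5, 4), ((6, 5, 7), 5, 1, 6), ((7, 3, 6), 6, 1, 5),
    ((8, 2, 5), 4, 3, 1), ((9, 4, 10), 7, 0, 8), ((10, 0, 9), 8, 0, 7)]
  Tc := [(0, 3, 4)]
  Td := [((0, 3), (0, 1), 2), ((0, 3), (0, 10), 8), ((0, 3), (4, 3), 1), ((0, 3), (4, 9), 7),
    ((0, 4), (0, 1), 2), ((0, 4), (0, 10), 8), ((0, 4), (4, 3), 1), ((0, 4), (4, 9), 7), ((3,
    0), (2, 1), 2), ((3, 0), (2, 8), 4), ((4, 0), (8, 2), 3), ((4, 0), (8, 5), 1)]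
  G := [[0, 0, 0x614e181e1dc61e1e1d818ca, 0x624e181e2dc61e1ee5d818cc,
    0x614e181ee9dc61e1ee5d818ca], [0, 0, 0x414e1a1e1dce1e15e18ca,
    0x614e181ee9dc61e1ee5d818cc, 0xe121ee9dc14661e1ee5d818ca], [0, 0x212e1e1c1eae12e1e1cac,
    0, 0x614e182ee9dc41e1e2da18cc, 0x414e1a1ee9dce1ee55e18ca], [0, 0, 0,
    0xe121ee9dc14641e1ee5da18cc, 0xe1a1ea4dd4146e1445e1ae59ca]]

noncomputable def n337 : Ent := ⟨e337, noF, [], [], [(6, 15, [360035742630636841211993100915356868655746945586763691009048577, 0])]⟩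

def c337 : PLift (Cov.check n337.C.D v337 = true) := ⟨by decide +kernel⟩

def b337 : PLift (entF (fidx ts) 400 337 n337 = true) := ⟨by decide +kernel⟩

theorem g337 : GoodF (fidx ts) 400 337 := GoodF.ofV v337 n337 c337.down b337.down

/-- 47655:280 -/
noncomputable def e338 : SCfg where
  D := {
    a := 5
    L := 10
    kp := 7
    inn := [(0, 1), (1, 0), (1, 2), (1, 3), (2, 1), (2, 3), (2, 4), (3, 1), (3, 2), (4, 2)]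
    mix := [(0, 0), (0, 1), (0, 2), (1, 0), (1, 2), (1, 3), (1, 4), (2, 2), (2, 5), (2, 6), (3, 3), (3,
      6), (3, 7), (4, 5), (4, 6), (4, 8), (4, 9)]
    cl := [1, 4, 0, 0, 2, 3, 3, 5, 6, 7]
    chq := [(0, 1), (1, 0)]
    rng := [(0, 1), (0, 4), (1, 0), (1, 2), (2, 1), (2, 5), (3, 4), (3, 7), (4, 0), (4, 3), (5, 2), (5,
      8), (6, 7), (6, 9), (7, 3), (7, 6), (8, 5), (8, 9), (9, 6), (9, 8)]
    lev := [] }
  links := [[1, 5, 6, 7], [5, 0, 7, 2, 3, 8, 9], [3, 1, 7, 10, 4, 11], [8, 1, 2, 11, 12], [11, 2, 10, 13,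
    14]]
  P := {
    a := 5
    N := 15
    nb := [226, 941, 3226, 6406, 27652, 579, 161, 1095, 4618, 290, 8340, 20508, 2312, 17424, 10256]
    tri := [(0, 1, 5), (0, 1, 7), (0, 5, 6), (0, 6, 7), (1, 2, 3), (1, 2, 7), (1, 3, 8), (1, 5, 9), (1,
      8, 9), (2, 3, 11), (2, 4, 10), (2, 4, 11), (2, 7, 10), (3, 8, 12), (3, 11, 12), (4, 10, 13),
      (4, 11, 14), (4, 13, 14)]
    fin := [0, 0, 2, 2, 4, 0, 6, 2, 2, 9, 4, 4, 12, 13, 14]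
    chd := [(0, 2)]
    steps := [(0, 1), (0, 5), (2, 3), (2, 7), (2, 8), (4, 10), (4, 11)] }
  rep := [2, 0, 9, 4, 6, 12, 13, 14]

noncomputable def v338 : Cov.CovD where
  P := 3
  N := 5
  pl := [1, 4, 7, 8, 9]
  lev := [⟨[], [], [(0, 1)], [4], [(0, 1, [0]), (2, 0, [1])]⟩,
    ⟨[], [(0, 0), (0, 1)], [(0, 0), (0, 1)], [2], [(0, 1, [0]), (2, 0, [1]), (3, 0, [1])]⟩,
    ⟨[(0, 1)], [(0, 0), (1, 0), (1, 1), (1, 3)], [(0, 3), (3, 3)], [], [(2, 0, [1]), (5, 3,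
      []), (6, 3, [])]⟩,
    ⟨[(0, 1), (1, 2)], [(1, 0), (1, 1), (1, 3), (2, 0), (2, 3)], [(0, 3)], [5], [(3, 0,
      [1]), (6, 3, [])]⟩,
    ⟨[(1, 2), (2, 3)], [(2, 0), (2, 3), (3, 3)], [(3, 3)], [6, 7], [(5, 3, []), (6, 3,
      [])]⟩]
  Ta := [((2, 1), 0, 4), ((2, 5), 0, 3), ((3, 4), 0, 2), ((3, 7), 0, 5), ((5, 2), 3, 0), ((5, 8),
    3, 6), ((6, 7), 3, 5), ((6, 9), 3, 7)]
  Tb := [((0, 1, 4), 1, 4, 2), ((1, 0, 2), 4, 1, 0), ((2, 1, 5), 0, 4, 3), ((3, 4, 7), 0, 2, 5),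
    ((4, 0, 3), 2, 1, 0), ((5, 2, 8), 3, 0, 6), ((6, 7, 9), 3, 5, 7), ((7, 3, 6), 5, 0, 3),
    ((8, 5, 9), 6, 3, 7), ((9, 6, 8), 7, 3, 6)]
  Tc := []
  Td := [((0, 1), (2, 1), 4), ((0, 1), (2, 5), 3), ((0, 1), (3, 4), 2), ((0, 1), (3, 7), 5), ((1,
    0), (0, 1), 4), ((1, 0), (0, 4), 2)]
  G := [[0, 0xf124f184f148e, 0, 0xf2e1568e13f468c, 0xf2e1568f2e1568c], [0, 0xd1b168d171a46, 0,
    0xd171a4d1b168c, 0xd1b168d1b168c], [0, 0xf114a478d171a4c, 0xf2f8a41, 0xf2f4681,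
    0xf2f4681], [0, 0xd171a4d1b168a, 0x7d2e82a87dee41, 0x7dae82a875ee41, 0x426db2eb4dee81]]

noncomputable def n338 : Ent := ⟨e338, noF, [], [], []⟩

def c338 : PLift (Cov.check n338.C.D v338 = true) := ⟨by decide +kernel⟩

def b338 : PLift (entF (fidx ts) 400 338 n338 = true) := ⟨by decide +kernel⟩

theorem g338 : GoodF (fidx ts) 400 338 := GoodF.ofV v338 n338 c338.down b338.down

/-- 66754:282/2 -/
noncomputable def e339 : SCfg where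
  D := {
    a := 5
    L := 9
    kp := 6
    inn := [(0, 1), (0, 2), (0, 3), (1, 0), (1, 2), (2, 0), (2, 1), (2, 4), (3, 0), (4, 2)]
    mix := [(0, 0), (0, 1), (0, 2), (1, 2), (1, 3), (1, 4), (1, 5), (2, 0), (2, 5), (2, 6), (2, 7), (3,
      1), (3, 2), (3, 3), (3, 8), (4, 6), (4, 7), (4, 8)]
    cl := [2, 0, 0, 3, 6, 1, 4, 1, 5]
    chq := [(2, 3), (2, 6), (3, 2), (6, 2)]
    rng := [(0, 1), (0, 7), (1, 0), (1, 8), (2, 3), (3, 2), (3, 4), (3, 8), (4, 3), (4, 5), (5, 4), (5,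
      6), (6, 5), (6, 8), (7, 0), (7, 8), (8, 1), (8, 3), (8, 6), (8, 7)]
    lev := [] }
  links := [[1, 2, 5, 6, 3, 7], [2, 0, 7, 8, 9, 10], [5, 0, 1, 10, 11, 4, 12], [7, 0, 6, 13, 8], [12, 2,
    11, 13]]
  P := {
    a := 5
    N := 14
    nb := [238, 1925, 7219, 8641, 14340, 4165, 8233, 267, 8842, 1282, 2566, 9236, 8244, 6488]
    tri := [(0, 1, 2), (0, 1, 7), (0, 2, 5), (0, 3, 6), (0, 3, 7), (0, 5, 6), (1, 2, 10), (1, 7, 8),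
      (1, 8, 9), (1, 9, 10), (2, 4, 11), (2, 4, 12), (2, 5, 12), (2, 10, 11), (3, 6, 13), (3, 7,
      8), (3, 8, 13), (4, 11, 13), (4, 12, 13)]
    fin := [0, 0, 2, 3, 4, 0, 3, 3, 8, 9, 2, 11, 2, 4]
    chd := [(0, 8), (0, 9)]
    steps := [(0, 1), (0, 5), (2, 10), (2, 12), (3, 6), (3, 7), (4, 13)] }
  rep := [3, 2, 0, 8, 11, 4, 9]

noncomputable def v339 : Cov.CovD where
  P := 3
  N := 4
  pl := [6, 8]
  lev := [⟨[], [], [(0, 0), (0, 2)], [], [(0, 2, [3, 6]), (1, 0, []), (2, 0, [])]⟩,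
    ⟨[], [(0, 0), (0, 1), (0, 2), (0, 3), (0, 6)], [(0, 1), (0, 3), (0, 6), (1, 3), (1, 6),
      (3, 6)], [], [(2, 0, []), (3, 3, [2]), (4, 6, [2]), (5, 1, [])]⟩,
    ⟨[(0, 1)], [(0, 0), (0, 1), (0, 2), (1, 0), (1, 1), (1, 2), (1, 3), (1, 6)], [(1, 1),
      (1, 2)], [4], [(0, 2, [3, 6]), (5, 1, []), (7, 1, [])]⟩,
    ⟨[(0, 1), (0, 2)], [(0, 0), (0, 2), (0, 3), (1, 0), (1, 3)], [(0, 0), (0, 3)], [5],
      [(1, 0, []), (2, 0, []), (3, 3, [2])]⟩,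
    ⟨[(0, 2), (1, 2)], [(2, 1), (2, 2)], [], [4, 5], [(7, 1, [])]⟩]
  Ta := [((1, 0), 0, 2), ((1, 8), 0, 5), ((2, 3), 0, 3), ((5, 4), 1, 6), ((5, 6), 1, 4), ((7, 0),
    1, 2), ((7, 8), 1, 5)]
  Tb := [((0, 1, 7), 2, 0, 1), ((1, 0, 8), 0, 2, 5), ((3, 2, 4), 3, 0, 6), ((3, 2, 8), 3, 0, 5),
    ((3, 4, 8), 3, 6, 5), ((4, 3, 5), 6, 3, 1), ((5, 4, 6), 1, 6, 4), ((6, 5, 8), 4, 1, 5),
    ((7, 0, 8), 1, 2, 5), ((8, 1, 3), 5, 0, 3), ((8, 1, 6), 5, 0, 4), ((8, 1, 7), 5, 0, 1),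
    ((8, 3, 6), 5, 3, 4), ((8, 3, 7), 5, 3, 1), ((8, 6, 7), 5, 4, 1)]
  Tc := [(2, 3, 6)]
  Td := [((2, 3), (0, 1), 0), ((2, 3), (0, 7), 1), ((2, 6), (0, 1), 0), ((2, 6), (0, 7), 1), ((3,
    2), (3, 2), 0), ((3, 2), (3, 4), 6), ((3, 2), (3, 8), 5), ((6, 2), (4, 3), 3), ((6, 2),
    (4, 5), 1)]
  G := [[0, 0x142e42811e82c, 0x822e21ac114416, 0, 0x842e221e942], [0, 0x642e428aee82c,
    0x819e145ec12, 0xc292528, 0x84ce515e942], [0, 0x141e42812e82c, 0, 0, 0x842e111e942], [0,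
    0x64c428aee22c2c, 0, 0xc212924, 0x111e1484ce84a]]

noncomputable def n339 : Ent := ⟨e339, noF, [], [], []⟩

def c339 : PLift (Cov.check n339.C.D v339 = true) := ⟨by decide +kernel⟩

def b339 : PLift (entF (fidx ts) 400 339 n339 = true) := ⟨by decide +kernel⟩

theorem g339 : GoodF (fidx ts) 400 339 := GoodF.ofV v339 n339 c339.down b339.down

/-- 66754:282/1 -/
noncomputable def e340 : SCfg where
  D := {
    a := 5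
    L := 10
    kp := 7
    inn := [(0, 1), (0, 2), (0, 3), (1, 0), (1, 2), (2, 0), (2, 1), (2, 4), (3, 0), (4, 2)]
    mix := [(0, 0), (0, 1), (0, 2), (1, 2), (1, 3), (1, 4), (1, 5), (2, 0), (2, 5), (2, 6), (2, 7), (3,
      1), (3, 2), (3, 8), (3, 9), (4, 6), (4, 7), (4, 8)]
    cl := [1, 0, 0, 5, 6, 3, 4, 3, 2, 7]
    chq := [(1, 5), (1, 6), (5, 1), (6, 1)]
    rng := [(0, 1), (0, 7), (1, 0), (1, 8), (2, 3), (2, 9), (3, 2), (3, 4), (4, 3), (4, 5), (5, 4), (5,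
      6), (6, 5), (6, 8), (7, 0), (7, 8), (8, 1), (8, 6), (8, 7), (8, 9), (9, 2), (9, 8)]
    lev := [] }
  links := [[1, 2, 5, 6, 3, 7], [2, 0, 7, 8, 9, 10], [5, 0, 1, 10, 11, 4, 12], [7, 0, 6, 13, 14], [12, 2,
    11, 13]]
  P := {
    a := 5
    N := 15
    nb := [238, 1925, 7219, 24769, 14340, 4165, 8233, 16651, 642, 1282, 2566, 9236, 8244, 22616, 8328]
    tri := [(0, 1, 2), (0, 1, 7), (0, 2, 5), (0, 3, 6), (0, 3, 7), (0, 5, 6), (1, 2, 10), (1, 7, 8),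
      (1, 8, 9), (1, 9, 10), (2, 4, 11), (2, 4, 12), (2, 5, 12), (2, 10, 11), (3, 6, 13), (3, 7,
      14), (3, 13, 14), (4, 11, 13), (4, 12, 13)]
    fin := [0, 0, 2, 3, 4, 0, 3, 3, 8, 9, 2, 11, 2, 4, 14]
    chd := [(0, 8), (0, 9)]
    steps := [(0, 1), (0, 5), (2, 10), (2, 12), (3, 6), (3, 7), (4, 13)] }
  rep := [3, 0, 4, 2, 11, 8, 9, 14]

noncomputable def v340 : Cov.CovD where
  P := 3
  N := 5
  pl := [6, 8, 9]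
  lev := [⟨[], [], [(0, 0), (0, 1)], [], [(0, 1, [5, 6]), (1, 0, []), (2, 0, [])]⟩,
    ⟨[], [(0, 0), (0, 1), (0, 3), (0, 5), (0, 6)], [(0, 3), (0, 5), (0, 6), (3, 5), (3, 6),
      (5, 6)], [], [(2, 0, []), (3, 5, [1]), (4, 6, [1]), (5, 3, [])]⟩,
    ⟨[(0, 1)], [(0, 0), (0, 1), (0, 3), (1, 0), (1, 1), (1, 3), (1, 5), (1, 6)], [(1, 3),
      (3, 3)], [4], [(0, 1, [5, 6]), (5, 3, []), (7, 3, [])]⟩,
    ⟨[(0, 1), (0, 2)], [(0, 0), (0, 1), (1, 0)], [(0, 0)], [2, 7], [(1, 0, []), (2, 0,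
      [])]⟩,
    ⟨[(0, 2), (1, 2)], [(2, 1), (2, 3)], [], [2, 4], [(7, 3, [])]⟩]
  Ta := [((1, 0), 0, 1), ((1, 8), 0, 2), ((2, 3), 0, 5), ((2, 9), 0, 7), ((5, 4), 3, 6), ((5, 6),
    3, 4), ((7, 0), 3, 1), ((7, 8), 3, 2)]
  Tb := [((0, 1, 7), 1, 0, 3), ((1, 0, 8), 0, 1, 2), ((2, 3, 9), 0, 5, 7), ((3, 2, 4), 5, 0, 6),
    ((4, 3, 5), 6, 5, 3), ((5, 4, 6), 3, 6, 4), ((6, 5, 8), 4, 3, 2), ((7, 0, 8), 3, 1, 2),
    ((8, 1, 6), 2, 0, 4), ((8, 1, 7), 2, 0, 3), ((8, 1, 9), 2, 0, 7), ((8, 6, 7), 2, 4, 3),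
    ((8, 6, 9), 2, 4, 7), ((8, 7, 9), 2, 3, 7), ((9, 2, 8), 7, 0, 2)]
  Tc := [(1, 5, 6)]
  Td := [((1, 5), (0, 1), 0), ((1, 5), (0, 7), 3), ((1, 6), (0, 1), 0), ((1, 6), (0, 7), 3), ((5,
    1), (3, 2), 0), ((5, 1), (3, 4), 6), ((6, 1), (4, 3), 5), ((6, 1), (4, 5), 3)]
  G := [[0, 0x48c44c11ce12, 0xc6c124, 0x44c11c5288c82c, 0x82a93a28ad24], [0, 0x88c44c11ce12,
    0xee6128, 0x44c11c5288c82c, 0x88a22a11ad24], [0, 0, 0, 0x44c4288c11c92c, 0x81a99a28ad24],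
    [0, 0, 0, 0x44c11c5288c82c, 0x88a22a11ad24]]

noncomputable def n340 : Ent := ⟨e340, noF, [], [], [(14, 8, [81620716623019490626259338160855783265958941731545633075201, 0])]⟩

def c340 : PLift (Cov.check n340.C.D v340 = true) := ⟨by decide +kernel⟩

def b340 : PLift (entF (fidx ts) 400 340 n340 = true) := ⟨by decide +kernel⟩

theorem g340 : GoodF (fidx ts) 400 340 := GoodF.ofV v340 n340 c340.down b340.down

/-- 66754:282/3 -/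
noncomputable def e341 : SCfg where
  D := {
    a := 5
    L := 10
    kp := 7
    inn := [(0, 1), (0, 2), (0, 3), (1, 0), (1, 2), (2, 0), (2, 1), (2, 4), (3, 0), (4, 2)]
    mix := [(0, 0), (0, 1), (0, 2), (1, 2), (1, 3), (1, 4), (1, 5), (2, 0), (2, 5), (2, 6), (2, 7), (3,
      1), (3, 2), (3, 3), (3, 8), (4, 6), (4, 7), (4, 9)]
    cl := [2, 0, 0, 3, 5, 1, 4, 1, 6, 7]
    chq := [(2, 3), (2, 5), (3, 2), (5, 2)]
    rng := [(0, 1), (0, 7), (1, 0), (1, 8), (2, 3), (3, 2), (3, 4), (3, 8), (4, 3), (4, 5), (5, 4), (5,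
      6), (6, 5), (6, 9), (7, 0), (7, 9), (8, 1), (8, 3), (9, 6), (9, 7)]
    lev := [] }
  links := [[1, 2, 5, 6, 3, 7], [2, 0, 7, 8, 9, 10], [5, 0, 1, 10, 11, 4, 12], [7, 0, 6, 13, 8], [12, 2,
    11, 14]]
  P := {
    a := 5
    N := 15
    nb := [238, 1925, 7219, 8641, 22532, 4165, 8233, 267, 8842, 1282, 2566, 17428, 16436, 328, 6160]
    tri := [(0, 1, 2), (0, 1, 7), (0, 2, 5), (0, 3, 6), (0, 3, 7), (0, 5, 6), (1, 2, 10), (1, 7, 8),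
      (1, 8, 9), (1, 9, 10), (2, 4, 11), (2, 4, 12), (2, 5, 12), (2, 10, 11), (3, 6, 13), (3, 7,
      8), (3, 8, 13), (4, 11, 14), (4, 12, 14)]
    fin := [0, 0, 2, 3, 2, 0, 3, 3, 8, 9, 2, 11, 2, 13, 14]
    chd := [(0, 8), (0, 9)]
    steps := [(0, 1), (0, 5), (2, 4), (2, 10), (2, 12), (3, 6), (3, 7)] }
  rep := [3, 2, 0, 8, 11, 9, 13, 14]

noncomputable def v341 : Cov.CovD where
  P := 3
  N := 5
  pl := [6, 8, 9]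
  lev := [⟨[], [], [(0, 0), (0, 2)], [], [(0, 2, [3, 5]), (1, 0, []), (2, 0, [])]⟩,
    ⟨[], [(0, 0), (0, 1), (0, 2), (0, 3), (0, 5)], [(0, 1), (0, 3), (0, 5), (1, 3), (1, 5),
      (3, 5)], [], [(2, 0, []), (3, 3, [2]), (4, 5, [2]), (5, 1, [])]⟩,
    ⟨[(0, 1)], [(0, 0), (0, 1), (0, 2), (1, 0), (1, 1), (1, 2), (1, 3), (1, 5)], [(1, 1),
      (1, 2)], [4], [(0, 2, [3, 5]), (5, 1, []), (7, 1, [])]⟩,
    ⟨[(0, 1), (0, 2)], [(0, 0), (0, 2), (0, 3), (1, 0), (1, 3)], [(0, 0), (0, 3)], [6],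
      [(1, 0, []), (2, 0, []), (3, 3, [2])]⟩,
    ⟨[(0, 2), (1, 2)], [(2, 1), (2, 2)], [], [4, 7], [(7, 1, [])]⟩]
  Ta := [((1, 0), 0, 2), ((1, 8), 0, 6), ((2, 3), 0, 3), ((5, 4), 1, 5), ((5, 6), 1, 4), ((7, 0),
    1, 2), ((7, 9), 1, 7)]
  Tb := [((0, 1, 7), 2, 0, 1), ((1, 0, 8), 0, 2, 6), ((3, 2, 4), 3, 0, 5), ((3, 2, 8), 3, 0, 6),
    ((3, 4, 8), 3, 5, 6), ((4, 3, 5), 5, 3, 1), ((5, 4, 6), 1, 5, 4), ((6, 5, 9), 4, 1, 7),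
    ((7, 0, 9), 1, 2, 7), ((8, 1, 3), 6, 0, 3), ((9, 6, 7), 7, 4, 1)]
  Tc := [(2, 3, 5)]
  Td := [((2, 3), (0, 1), 0), ((2, 3), (0, 7), 1), ((2, 5), (0, 1), 0), ((2, 5), (0, 7), 1), ((3,
    2), (3, 2), 0), ((3, 2), (3, 4), 5), ((3, 2), (3, 8), 6), ((5, 2), (4, 3), 3), ((5, 2),
    (4, 5), 1)]
  G := [[0, 0x6442a1ae11ac2c, 0x922e255ec12, 0, 0xa7ce622e942], [0, 0x666e42aaae82c,
    0x999e555ec12, 0xccce555e924, 0xccce555e942], [0, 0x166e42a11e82c, 0, 0, 0xc2ce2b2e942],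
    [0, 0x664e42aaae22c2c, 0, 0xccce555e924, 0xccce555e942]]

noncomputable def n341 : Ent := ⟨e341, noF, [], [], [(13, 14, [81620716623019490593592230936445690773474979418095884775425, 0])]⟩

def c341 : PLift (Cov.check n341.C.D v341 = true) := ⟨by decide +kernel⟩

def b341 : PLift (entF (fidx ts) 400 341 n341 = true) := ⟨by decide +kernel⟩

theorem g341 : GoodF (fidx ts) 400 341 := GoodF.ofV v341 n341 c341.down b341.down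

/-- 66754:282/4 -/
noncomputable def e342 : SCfg where
  D := {
    a := 5
    L := 10
    kp := 7
    inn := [(0, 1), (0, 2), (0, 3), (1, 0), (1, 2), (2, 0), (2, 1), (2, 4), (3, 0), (4, 2)]
    mix := [(0, 0), (0, 1), (0, 2), (1, 2), (1, 3), (1, 4), (1, 5), (2, 0), (2, 5), (2, 6), (2, 7), (3,
      1), (3, 2), (3, 8), (3, 9), (4, 6), (4, 7), (4, 9)]
    cl := [1, 0, 0, 5, 6, 3, 4, 3, 7, 2]
    chq := [(1, 5), (1, 6), (5, 1), (6, 1)]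
    rng := [(0, 1), (0, 7), (1, 0), (1, 8), (2, 3), (2, 9), (3, 2), (3, 4), (4, 3), (4, 5), (5, 4), (5,
      6), (6, 5), (6, 9), (7, 0), (7, 9), (8, 1), (8, 9), (9, 2), (9, 6), (9, 7), (9, 8)]
    lev := [] }
  links := [[1, 2, 5, 6, 3, 7], [2, 0, 7, 8, 9, 10], [5, 0, 1, 10, 11, 4, 12], [7, 0, 6, 13, 14], [12, 2,
    11, 14]]
  P := {
    a := 5
    N := 15
    nb := [238, 1925, 7219, 24769, 22532, 4165, 8233, 16651, 642, 1282, 2566, 17428, 16436, 16456,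
      14488]
    tri := [(0, 1, 2), (0, 1, 7), (0, 2, 5), (0, 3, 6), (0, 3, 7), (0, 5, 6), (1, 2, 10), (1, 7, 8),
      (1, 8, 9), (1, 9, 10), (2, 4, 11), (2, 4, 12), (2, 5, 12), (2, 10, 11), (3, 6, 13), (3, 7,
      14), (3, 13, 14), (4, 11, 14), (4, 12, 14)]
    fin := [0, 0, 2, 3, 4, 0, 3, 3, 8, 9, 2, 11, 2, 13, 4]
    chd := [(0, 8), (0, 9)]
    steps := [(0, 1), (0, 5), (2, 10), (2, 12), (3, 6), (3, 7), (4, 14)] }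
  rep := [3, 0, 4, 2, 11, 8, 9, 13]

noncomputable def v342 : Cov.CovD where
  P := 3
  N := 5
  pl := [6, 8, 9]
  lev := [⟨[], [], [(0, 0), (0, 1)], [], [(0, 1, [5, 6]), (1, 0, []), (2, 0, [])]⟩,
    ⟨[], [(0, 0), (0, 1), (0, 3), (0, 5), (0, 6)], [(0, 3), (0, 5), (0, 6), (3, 5), (3, 6),
      (5, 6)], [], [(2, 0, []), (3, 5, [1]), (4, 6, [1]), (5, 3, [])]⟩,
    ⟨[(0, 1)], [(0, 0), (0, 1), (0, 3), (1, 0), (1, 1), (1, 3), (1, 5), (1, 6)], [(1, 3),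
      (3, 3)], [4], [(0, 1, [5, 6]), (5, 3, []), (7, 3, [])]⟩,
    ⟨[(0, 1), (0, 2)], [(0, 0), (0, 1), (1, 0)], [(0, 0)], [2, 7], [(1, 0, []), (2, 0,
      [])]⟩,
    ⟨[(0, 2), (1, 2)], [(2, 1), (2, 3)], [], [2, 4], [(7, 3, [])]⟩]
  Ta := [((1, 0), 0, 1), ((1, 8), 0, 7), ((2, 3), 0, 5), ((2, 9), 0, 2), ((5, 4), 3, 6), ((5, 6),
    3, 4), ((7, 0), 3, 1), ((7, 9), 3, 2)]
  Tb := [((0, 1, 7), 1, 0, 3), ((1, 0, 8), 0, 1, 7), ((2, 3, 9), 0, 5, 2), ((3, 2, 4), 5, 0, 6),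
    ((4, 3, 5), 6, 5, 3), ((5, 4, 6), 3, 6, 4), ((6, 5, 9), 4, 3, 2), ((7, 0, 9), 3, 1, 2),
    ((8, 1, 9), 7, 0, 2), ((9, 2, 6), 2, 0, 4), ((9, 2, 7), 2, 0, 3), ((9, 2, 8), 2, 0, 7),
    ((9, 6, 7), 2, 4, 3), ((9, 6, 8), 2, 4, 7), ((9, 7, 8), 2, 3, 7)]
  Tc := [(1, 5, 6)]
  Td := [((1, 5), (0, 1), 0), ((1, 5), (0, 7), 3), ((1, 6), (0, 1), 0), ((1, 6), (0, 7), 3), ((5,
    1), (3, 2), 0), ((5, 1), (3, 4), 6), ((6, 1), (4, 3), 5), ((6, 1), (4, 5), 3)]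
  G := [[0, 0x48c44c11ce12, 0, 0x44c4288c11c92c, 0x82a29a11ad24], [0, 0x88c44c11ce12, 0,
    0x44c4288c11c92c, 0x88a22a11ad24], [0, 0, 0xcca124, 0x44c4288c11c92c, 0x22a3aa12ad24],
    [0, 0, 0xeea128, 0x44c11c5288c82c, 0x88a22a11ad24]]

noncomputable def n342 : Ent := ⟨e342, noF, [], [], []⟩

def c342 : PLift (Cov.check n342.C.D v342 = true) := ⟨by decide +kernel⟩

def b342 : PLift (entF (fidx ts) 400 342 n342 = true) := ⟨by decide +kernel⟩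

theorem g342 : GoodF (fidx ts) 400 342 := GoodF.ofV v342 n342 c342.down b342.down

/-- 66754:282 -/
noncomputable def e343 : SCfg where
  D := {
    a := 5
    L := 11
    kp := 8
    inn := [(0, 1), (0, 2), (0, 3), (1, 0), (1, 2), (2, 0), (2, 1), (2, 4), (3, 0), (4, 2)]
    mix := [(0, 0), (0, 1), (0, 2), (1, 2), (1, 3), (1, 4), (1, 5), (2, 0), (2, 5), (2, 6), (2, 7), (3,
      1), (3, 2), (3, 8), (3, 9), (4, 6), (4, 7), (4, 10)]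
    cl := [2, 0, 0, 4, 5, 1, 3, 1, 6, 7, 8]
    chq := [(2, 4), (2, 5), (4, 2), (5, 2)]
    rng := [(0, 1), (0, 7), (1, 0), (1, 8), (2, 3), (2, 9), (3, 2), (3, 4), (4, 3), (4, 5), (5, 4), (5,
      6), (6, 5), (6, 10), (7, 0), (7, 10), (8, 1), (8, 9), (9, 2), (9, 8), (10, 6), (10, 7)]
    lev := [] }
  links := [[1, 2, 5, 6, 3, 7], [2, 0, 7, 8, 9, 10], [5, 0, 1, 10, 11, 4, 12], [7, 0, 6, 13, 14], [12, 2,
    11, 15]]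
  P := {
    a := 5
    N := 16
    nb := [238, 1925, 7219, 24769, 38916, 4165, 8233, 16651, 642, 1282, 2566, 33812, 32820, 16456,
      8328, 6160]
    tri := [(0, 1, 2), (0, 1, 7), (0, 2, 5), (0, 3, 6), (0, 3, 7), (0, 5, 6), (1, 2, 10), (1, 7, 8),
      (1, 8, 9), (1, 9, 10), (2, 4, 11), (2, 4, 12), (2, 5, 12), (2, 10, 11), (3, 6, 13), (3, 7,
      14), (3, 13, 14), (4, 11, 15), (4, 12, 15)]
    fin := [0, 0, 2, 3, 2, 0, 3, 3, 8, 9, 2, 11, 2, 13, 14, 15]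
    chd := [(0, 8), (0, 9)]
    steps := [(0, 1), (0, 5), (2, 4), (2, 10), (2, 12), (3, 6), (3, 7)] }
  rep := [3, 2, 0, 11, 8, 9, 13, 14, 15]

noncomputable def v343 : Cov.CovD where
  P := 3
  N := 6
  pl := [6, 8, 9, 10]
  lev := [⟨[], [], [(0, 0), (0, 2)], [], [(0, 2, [4, 5]), (1, 0, []), (2, 0, [])]⟩,
    ⟨[], [(0, 0), (0, 1), (0, 2), (0, 4), (0, 5)], [(0, 1), (0, 4), (0, 5), (1, 4), (1, 5),
      (4, 5)], [], [(2, 0, []), (3, 4, [2]), (4, 5, [2]), (5, 1, [])]⟩,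
    ⟨[(0, 1)], [(0, 0), (0, 1), (0, 2), (1, 0), (1, 1), (1, 2), (1, 4), (1, 5)], [(1, 1),
      (1, 2)], [3], [(0, 2, [4, 5]), (5, 1, []), (7, 1, [])]⟩,
    ⟨[(0, 1), (0, 2)], [(0, 0), (0, 2), (1, 0)], [(0, 0)], [6, 7], [(1, 0, []), (2, 0,
      [])]⟩,
    ⟨[(0, 2), (1, 2)], [(2, 1), (2, 2)], [], [3, 8], [(7, 1, [])]⟩]
  Ta := [((1, 0), 0, 2), ((1, 8), 0, 6), ((2, 3), 0, 4), ((2, 9), 0, 7), ((5, 4), 1, 5), ((5, 6),
    1, 3), ((7, 0), 1, 2), ((7, 10), 1, 8)]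
  Tb := [((0, 1, 7), 2, 0, 1), ((1, 0, 8), 0, 2, 6), ((2, 3, 9), 0, 4, 7), ((3, 2, 4), 4, 0, 5),
    ((4, 3, 5), 5, 4, 1), ((5, 4, 6), 1, 5, 3), ((6, 5, 10), 3, 1, 8), ((7, 0, 10), 1, 2, 8),
    ((8, 1, 9), 6, 0, 7), ((9, 2, 8), 7, 0, 6), ((10, 6, 7), 8, 3, 1)]
  Tc := [(2, 4, 5)]
  Td := [((2, 4), (0, 1), 0), ((2, 4), (0, 7), 1), ((2, 5), (0, 1), 0), ((2, 5), (0, 7), 1), ((4,
    2), (3, 2), 0), ((4, 2), (3, 4), 5), ((5, 2), (4, 3), 4), ((5, 2), (4, 5), 1)]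
  G := [[0, 0x5442a3ae11ac2c, 0x292e525ec12, 0, 0xcc3e226e942], [0, 0x666e42aaae82c,
    0x999e555ec12, 0xccce555e924, 0xccce555e942], [0, 0x631e4219ae82c, 0, 0, 0xac2e325e942],
    [0, 0x666e42aaae82c, 0, 0xccce555e924, 0xccce555e942]]

noncomputable def n343 : Ent := ⟨e343, noF, [], [], [(13, 15, [360035742630636841211993100915356868655746945586763691009064961, 0]), (14, 8, [385746751338780685620697161500039880388594677449601826122190849, 0]), (14, 15, [360035742630636841211993100915356868655746945586763691009073153, 0])]⟩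

def c343 : PLift (Cov.check n343.C.D v343 = true) := ⟨by decide +kernel⟩

def b343 : PLift (entF (fidx ts) 400 343 n343 = true) := ⟨by decide +kernel⟩

theorem g343 : GoodF (fidx ts) 400 343 := GoodF.ofV v343 n343 c343.down b343.down

/-- 47565:286/1 -/
noncomputable def e344 : SCfg where
  D := {
    a := 5
    L := 9
    kp := 6
    inn := [(0, 1), (1, 0), (1, 2), (1, 3), (2, 1), (2, 3), (3, 1), (3, 2), (3, 4), (4, 3)]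
    mix := [(0, 0), (0, 1), (0, 2), (1, 0), (1, 2), (1, 3), (1, 4), (2, 3), (2, 5), (2, 6), (3, 4), (3,
      6), (3, 7), (4, 1), (4, 6), (4, 7), (4, 8)]
    cl := [0, 4, 2, 0, 1, 5, 3, 3, 6]
    chq := [(1, 5), (5, 1)]
    rng := [(0, 1), (0, 4), (1, 0), (1, 2), (1, 6), (1, 8), (2, 1), (2, 3), (3, 2), (3, 5), (4, 0), (4,
      7), (5, 3), (5, 6), (6, 1), (6, 5), (7, 4), (7, 8), (8, 1), (8, 7)]
    lev := [] }
  links := [[1, 5, 6, 7], [5, 0, 7, 8, 2, 3, 9], [3, 1, 8, 10, 11], [9, 1, 2, 11, 4, 12], [12, 3, 11, 6,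
    13]]
  P := {
    a := 5
    N := 14
    nb := [226, 941, 3338, 6678, 14408, 579, 10417, 323, 1158, 4138, 2308, 1116, 8728, 4176]
    tri := [(0, 1, 5), (0, 1, 7), (0, 5, 6), (0, 6, 7), (1, 2, 3), (1, 2, 8), (1, 3, 9), (1, 5, 9), (1,
      7, 8), (2, 3, 11), (2, 8, 10), (2, 10, 11), (3, 4, 11), (3, 4, 12), (3, 9, 12), (4, 6, 11),
      (4, 6, 13), (4, 12, 13)]
    fin := [0, 0, 2, 2, 4, 0, 6, 7, 0, 9, 2, 4, 4, 13]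
    chd := [(9, 2)]
    steps := [(0, 1), (0, 5), (0, 8), (2, 3), (2, 10), (4, 11), (4, 12)] }
  rep := [0, 9, 7, 4, 6, 2, 13]

noncomputable def v344 : Cov.CovD where
  P := 3
  N := 4
  pl := [1, 2, 8]
  lev := [⟨[], [], [], [2, 4], [(0, 0, [])]⟩,
    ⟨[], [(0, 0), (0, 1)], [(0, 0), (0, 1)], [2], [(0, 0, []), (3, 0, []), (4, 1, [5])]⟩,
    ⟨[(0, 1)], [(1, 0), (1, 1), (1, 3), (1, 5)], [(0, 3), (0, 5), (3, 5)], [], [(3, 0, []),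
      (5, 5, [1]), (6, 3, [])]⟩,
    ⟨[(0, 1), (1, 2)], [(1, 0), (1, 1), (1, 3), (2, 0), (2, 1), (2, 3), (2, 5)], [(1, 3),
      (3, 3)], [], [(4, 1, [5]), (6, 3, []), (7, 3, [])]⟩,
    ⟨[(1, 3), (2, 3)], [(2, 3), (3, 1), (3, 3)], [(3, 3)], [4, 6], [(6, 3, []), (7, 3,
      [])]⟩]
  Ta := [((0, 1), 0, 4), ((0, 4), 0, 1), ((3, 2), 0, 2), ((3, 5), 0, 5), ((6, 1), 3, 4), ((6, 5),
    3, 5), ((7, 4), 3, 1), ((7, 8), 3, 6)]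
  Tb := [((0, 1, 4), 0, 4, 1), ((1, 0, 2), 4, 0, 2), ((1, 0, 6), 4, 0, 3), ((1, 0, 8), 4, 0, 6),
    ((1, 2, 6), 4, 2, 3), ((1, 2, 8), 4, 2, 6), ((1, 6, 8), 4, 3, 6), ((2, 1, 3), 2, 4, 0),
    ((3, 2, 5), 0, 2, 5), ((4, 0, 7), 1, 0, 3), ((5, 3, 6), 5, 0, 3), ((6, 1, 5), 3, 4, 5),
    ((7, 4, 8), 3, 1, 6), ((8, 1, 7), 6, 4, 3)]
  Tc := []
  Td := [((1, 5), (4, 0), 0), ((1, 5), (4, 7), 3), ((5, 1), (5, 3), 0), ((5, 1), (5, 6), 3)]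
  G := [[0, 0x93a1456a18c, 0, 0xa952836c28c, 0xc952863528a], [0, 0xf418f814c, 0, 0xf428f824c,
    0xe95287828a], [0, 0, 0xa952836c28c, 0xe79241, 0xeb5281], [0, 0, 0xcb528b4246, 0xe79241,
    0xeb5281]]

noncomputable def n344 : Ent := ⟨e344, noF, [], [], []⟩

def c344 : PLift (Cov.check n344.C.D v344 = true) := ⟨by decide +kernel⟩

def b344 : PLift (entF (fidx ts) 400 344 n344 = true) := ⟨by decide +kernel⟩

theorem g344 : GoodF (fidx ts) 400 344 := GoodF.ofV v344 n344 c344.down b344.down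

/-- 47565:286/3 -/
noncomputable def e345 : SCfg where
  D := {
    a := 5
    L := 8
    kp := 5
    inn := [(0, 1), (1, 0), (1, 2), (1, 3), (2, 1), (2, 3), (3, 1), (3, 2), (3, 4), (4, 3)]
    mix := [(0, 0), (0, 1), (0, 2), (1, 0), (1, 2), (1, 3), (1, 4), (2, 3), (2, 5), (2, 6), (3, 4), (3,
      6), (3, 7), (4, 1), (4, 5), (4, 6), (4, 7)]
    cl := [0, 2, 5, 0, 1, 4, 3, 3]
    chq := [(1, 4), (4, 1)]
    rng := [(0, 1), (0, 4), (1, 0), (1, 2), (1, 5), (1, 7), (2, 1), (2, 3), (3, 2), (3, 5), (4, 0), (4,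
      7), (5, 1), (5, 3), (5, 6), (6, 5), (7, 1), (7, 4)]
    lev := [] }
  links := [[1, 5, 6, 7], [5, 0, 7, 8, 2, 3, 9], [3, 1, 8, 10, 11], [9, 1, 2, 11, 4, 12], [12, 3, 11, 10,
    6]]
  P := {
    a := 5
    N := 13
    nb := [226, 941, 3338, 6678, 7240, 579, 5297, 323, 1158, 4138, 2388, 1052, 600]
    tri := [(0, 1, 5), (0, 1, 7), (0, 5, 6), (0, 6, 7), (1, 2, 3), (1, 2, 8), (1, 3, 9), (1, 5, 9), (1,
      7, 8), (2, 3, 11), (2, 8, 10), (2, 10, 11), (3, 4, 11), (3, 4, 12), (3, 9, 12), (4, 6, 10),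
      (4, 6, 12), (4, 10, 11)]
    fin := [0, 0, 2, 2, 4, 0, 6, 7, 0, 9, 2, 4, 4]
    chd := [(9, 2)]
    steps := [(0, 1), (0, 5), (0, 8), (2, 3), (4, 11), (2, 10), (4, 12)] }
  rep := [0, 9, 6, 4, 2, 7]

noncomputable def v345 : Cov.CovD where
  P := 3
  N := 3
  pl := [1, 2]
  lev := [⟨[], [], [], [2, 5], [(0, 0, [])]⟩,
    ⟨[], [(0, 0), (0, 1)], [(0, 0), (0, 1)], [5], [(0, 0, []), (3, 0, []), (4, 1, [4])]⟩,
    ⟨[(0, 1)], [(1, 0), (1, 1), (1, 3), (1, 4)], [(0, 3), (0, 4), (3, 4)], [], [(3, 0, []),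
      (5, 4, [1]), (6, 3, [])]⟩,
    ⟨[(0, 1), (1, 2)], [(1, 0), (1, 1), (1, 3), (2, 0), (2, 1), (2, 3), (2, 4)], [(1, 3),
      (3, 3)], [], [(4, 1, [4]), (6, 3, []), (7, 3, [])]⟩,
    ⟨[(1, 3), (2, 3)], [(2, 3), (2, 4), (3, 1), (3, 3), (3, 4)], [(3, 3), (3, 4)], [2],
      [(5, 4, [1]), (6, 3, []), (7, 3, [])]⟩]
  Ta := [((0, 1), 0, 2), ((0, 4), 0, 1), ((3, 2), 0, 5), ((3, 5), 0, 4), ((6, 5), 3, 4), ((7, 1),
    3, 2), ((7, 4), 3, 1)]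
  Tb := [((0, 1, 4), 0, 2, 1), ((1, 0, 2), 2, 0, 5), ((1, 0, 5), 2, 0, 4), ((1, 0, 7), 2, 0, 3),
    ((1, 2, 5), 2, 5, 4), ((1, 2, 7), 2, 5, 3), ((1, 5, 7), 2, 4, 3), ((2, 1, 3), 5, 2, 0),
    ((3, 2, 5), 0, 5, 4), ((4, 0, 7), 1, 0, 3), ((5, 1, 3), 4, 2, 0), ((5, 1, 6), 4, 2, 3),
    ((5, 3, 6), 4, 0, 3), ((7, 1, 4), 3, 2, 1)]
  Tc := []
  Td := [((1, 4), (4, 0), 0), ((1, 4), (4, 7), 3), ((4, 1), (5, 1), 2), ((4, 1), (5, 3), 0), ((4,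
    1), (5, 6), 3)]
  G := [[0, 0x12181214c, 0xe128612834c, 0xc1528c1924c, 0x242468b424a], [0, 0x1161811a14c,
    0xe128a168a4c, 0xc1528c1924c, 0xa1528a1c24a], [0, 0, 0, 0xc9528c5924c, 0xb428b424a], [0,
    0, 0, 0xc9528c5924c, 0x2481568a39249]]

noncomputable def n345 : Ent := ⟨e345, noF, [], [], []⟩

def c345 : PLift (Cov.check n345.C.D v345 = true) := ⟨by decide +kernel⟩

def b345 : PLift (entF (fidx ts) 400 345 n345 = true) := ⟨by decide +kernel⟩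

theorem g345 : GoodF (fidx ts) 400 345 := GoodF.ofV v345 n345 c345.down b345.down

/-- 47565:286/2 -/
noncomputable def e346 : SCfg where
  D := {
    a := 5
    L := 9
    kp := 6
    inn := [(0, 1), (1, 0), (1, 2), (1, 3), (2, 1), (2, 3), (3, 1), (3, 2), (3, 4), (4, 3)]
    mix := [(0, 0), (0, 1), (0, 2), (1, 0), (1, 2), (1, 3), (1, 4), (2, 3), (2, 5), (2, 6), (3, 4), (3,
      6), (3, 7), (4, 1), (4, 6), (4, 7), (4, 8)]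
    cl := [0, 4, 2, 0, 1, 5, 3, 3, 6]
    chq := [(1, 5), (5, 1)]
    rng := [(0, 1), (0, 4), (1, 0), (1, 2), (1, 7), (1, 8), (2, 1), (2, 3), (3, 2), (3, 5), (4, 0), (4,
      7), (5, 3), (5, 6), (6, 5), (6, 8), (7, 1), (7, 4), (8, 1), (8, 6)]
    lev := [] }
  links := [[1, 5, 6, 7], [5, 0, 7, 8, 2, 3, 9], [3, 1, 8, 10, 11], [9, 1, 2, 11, 4, 12], [12, 3, 11, 13,
    6]]
  P := {
    a := 5
    N := 14
    nb := [226, 941, 3338, 6678, 14408, 579, 12465, 323, 1158, 4138, 2308, 9244, 600, 2128]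
    tri := [(0, 1, 5), (0, 1, 7), (0, 5, 6), (0, 6, 7), (1, 2, 3), (1, 2, 8), (1, 3, 9), (1, 5, 9), (1,
      7, 8), (2, 3, 11), (2, 8, 10), (2, 10, 11), (3, 4, 11), (3, 4, 12), (3, 9, 12), (4, 6, 12),
      (4, 6, 13), (4, 11, 13)]
    fin := [0, 0, 2, 2, 4, 0, 6, 7, 0, 9, 2, 4, 4, 13]
    chd := [(9, 2)]
    steps := [(0, 1), (0, 5), (0, 8), (2, 3), (2, 10), (4, 11), (4, 12)] }
  rep := [0, 9, 7, 4, 6, 2, 13]

noncomputable def v346 : Cov.CovD where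
  P := 3
  N := 4
  pl := [1, 2, 8]
  lev := [⟨[], [], [], [2, 4], [(0, 0, [])]⟩,
    ⟨[], [(0, 0), (0, 1)], [(0, 0), (0, 1)], [2], [(0, 0, []), (3, 0, []), (4, 1, [5])]⟩,
    ⟨[(0, 1)], [(1, 0), (1, 1), (1, 3), (1, 5)], [(0, 3), (0, 5), (3, 5)], [], [(3, 0, []),
      (5, 5, [1]), (6, 3, [])]⟩,
    ⟨[(0, 1), (1, 2)], [(1, 0), (1, 1), (1, 3), (2, 0), (2, 1), (2, 3), (2, 5)], [(1, 3),
      (3, 3)], [], [(4, 1, [5]), (6, 3, []), (7, 3, [])]⟩,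
    ⟨[(1, 3), (2, 3)], [(2, 3), (3, 1), (3, 3)], [(3, 3)], [4, 6], [(6, 3, []), (7, 3,
      [])]⟩]
  Ta := [((0, 1), 0, 4), ((0, 4), 0, 1), ((3, 2), 0, 2), ((3, 5), 0, 5), ((6, 5), 3, 5), ((6, 8),
    3, 6), ((7, 1), 3, 4), ((7, 4), 3, 1)]
  Tb := [((0, 1, 4), 0, 4, 1), ((1, 0, 2), 4, 0, 2), ((1, 0, 7), 4, 0, 3), ((1, 0, 8), 4, 0, 6),
    ((1, 2, 7), 4, 2, 3), ((1, 2, 8), 4, 2, 6), ((1, 7, 8), 4, 3, 6), ((2, 1, 3), 2, 4, 0),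
    ((3, 2, 5), 0, 2, 5), ((4, 0, 7), 1, 0, 3), ((5, 3, 6), 5, 0, 3), ((6, 5, 8), 3, 5, 6),
    ((7, 1, 4), 3, 4, 1), ((8, 1, 6), 6, 4, 3)]
  Tc := []
  Td := [((1, 5), (4, 0), 0), ((1, 5), (4, 7), 3), ((5, 1), (5, 3), 0), ((5, 1), (5, 6), 3)]
  G := [[0, 0x834e147818c, 0, 0xf428f824c, 0xe95287828a], [0, 0x97a1453a14c, 0, 0xa952836c28c,
    0xc952863528a], [0, 0, 0xc79247828a, 0xe79241, 0xeb5281], [0, 0, 0xa392463528c, 0xe79241,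
    0xeb5281]]

noncomputable def n346 : Ent := ⟨e346, noF, [], [], [(10, 13, [18394062992640663726968434746027364144358640063419355137, 0])]⟩

def c346 : PLift (Cov.check n346.C.D v346 = true) := ⟨by decide +kernel⟩

def b346 : PLift (entF (fidx ts) 400 346 n346 = true) := ⟨by decide +kernel⟩

theorem g346 : GoodF (fidx ts) 400 346 := GoodF.ofV v346 n346 c346.down b346.down

/-- 47565:286/4 -/
noncomputable def e347 : SCfg where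
  D := {
    a := 5
    L := 9
    kp := 6
    inn := [(0, 1), (1, 0), (1, 2), (1, 3), (2, 1), (2, 3), (3, 1), (3, 2), (3, 4), (4, 3)]
    mix := [(0, 0), (0, 1), (0, 2), (1, 0), (1, 2), (1, 3), (1, 4), (2, 3), (2, 5), (2, 6), (3, 4), (3,
      6), (3, 7), (4, 5), (4, 6), (4, 7), (4, 8)]
    cl := [0, 5, 2, 0, 1, 4, 3, 3, 6]
    chq := [(1, 4), (4, 1)]
    rng := [(0, 1), (0, 4), (1, 0), (1, 2), (2, 1), (2, 3), (3, 2), (3, 5), (4, 0), (4, 7), (5, 3), (5,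
      6), (5, 8), (6, 5), (7, 4), (7, 8), (8, 5), (8, 7)]
    lev := [] }
  links := [[1, 5, 6, 7], [5, 0, 7, 8, 2, 3, 9], [3, 1, 8, 10, 11], [9, 1, 2, 11, 4, 12], [12, 3, 11, 10,
    13]]
  P := {
    a := 5
    N := 14
    nb := [226, 941, 3338, 6678, 15368, 579, 161, 323, 1158, 4138, 10516, 1052, 8728, 5136]
    tri := [(0, 1, 5), (0, 1, 7), (0, 5, 6), (0, 6, 7), (1, 2, 3), (1, 2, 8), (1, 3, 9), (1, 5, 9), (1,
      7, 8), (2, 3, 11), (2, 8, 10), (2, 10, 11), (3, 4, 11), (3, 4, 12), (3, 9, 12), (4, 10, 11),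
      (4, 10, 13), (4, 12, 13)]
    fin := [0, 0, 2, 2, 4, 0, 6, 7, 0, 9, 2, 4, 4, 13]
    chd := [(9, 2)]
    steps := [(0, 1), (0, 5), (0, 8), (2, 3), (4, 11), (2, 10), (4, 12)] }
  rep := [0, 9, 7, 4, 2, 6, 13]

noncomputable def v347 : Cov.CovD where
  P := 3
  N := 4
  pl := [1, 2, 8]
  lev := [⟨[], [], [], [2, 5], [(0, 0, [])]⟩,
    ⟨[], [(0, 0), (0, 1)], [(0, 0), (0, 1)], [2], [(0, 0, []), (3, 0, []), (4, 1, [4])]⟩,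
    ⟨[(0, 1)], [(1, 0), (1, 1), (1, 3), (1, 4)], [(0, 3), (0, 4), (3, 4)], [], [(3, 0, []),
      (5, 4, [1]), (6, 3, [])]⟩,
    ⟨[(0, 1), (1, 2)], [(1, 0), (1, 1), (1, 3), (2, 0), (2, 1), (2, 3), (2, 4)], [(1, 3),
      (3, 3)], [], [(4, 1, [4]), (6, 3, []), (7, 3, [])]⟩,
    ⟨[(1, 3), (2, 3)], [(2, 3), (2, 4), (3, 1), (3, 3), (3, 4)], [(3, 3), (3, 4)], [6],
      [(5, 4, [1]), (6, 3, []), (7, 3, [])]⟩]
  Ta := [((0, 1), 0, 5), ((0, 4), 0, 1), ((3, 2), 0, 2), ((3, 5), 0, 4), ((6, 5), 3, 4), ((7, 4),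
    3, 1), ((7, 8), 3, 6)]
  Tb := [((0, 1, 4), 0, 5, 1), ((1, 0, 2), 5, 0, 2), ((2, 1, 3), 2, 5, 0), ((3, 2, 5), 0, 2, 4),
    ((4, 0, 7), 1, 0, 3), ((5, 3, 6), 4, 0, 3), ((5, 3, 8), 4, 0, 6), ((5, 6, 8), 4, 3, 6),
    ((7, 4, 8), 3, 1, 6), ((8, 5, 7), 6, 4, 3)]
  Tc := []
  Td := [((1, 4), (4, 0), 0), ((1, 4), (4, 7), 3), ((4, 1), (5, 3), 0), ((4, 1), (5, 6), 3), ((4,
    1), (5, 8), 6)]
  G := [[0, 0xd7a14d7a14c, 0, 0xeb528eb528c, 0xeb528eb528a], [0, 0xdb618db618c, 0,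
    0xeb5282e9d28c, 0xeb5281fad28a], [0, 0, 0xeb528e7924a, 0xeb5281, 0x68fd281], [0, 0,
    0xf4287848a7924e, 0xe79241, 0x299f4681]]

noncomputable def n347 : Ent := ⟨e347, noF, [], [], [(6, 13, [18394062992640663726968434746027364144358640063419355137, 0])]⟩

def c347 : PLift (Cov.check n347.C.D v347 = true) := ⟨by decide +kernel⟩

def b347 : PLift (entF (fidx ts) 400 347 n347 = true) := ⟨by decide +kernel⟩

theorem g347 : GoodF (fidx ts) 400 347 := GoodF.ofV v347 n347 c347.down b347.down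

/-- 47565:286 -/
noncomputable def e348 : SCfg where
  D := {
    a := 5
    L := 10
    kp := 7
    inn := [(0, 1), (1, 0), (1, 2), (1, 3), (2, 1), (2, 3), (3, 1), (3, 2), (3, 4), (4, 3)]
    mix := [(0, 0), (0, 1), (0, 2), (1, 0), (1, 2), (1, 3), (1, 4), (2, 3), (2, 5), (2, 6), (3, 4), (3,
      6), (3, 7), (4, 6), (4, 7), (4, 8), (4, 9)]
    cl := [0, 5, 2, 0, 1, 4, 3, 3, 6, 7]
    chq := [(1, 4), (4, 1)]
    rng := [(0, 1), (0, 4), (1, 0), (1, 2), (2, 1), (2, 3), (3, 2), (3, 5), (4, 0), (4, 7), (5, 3), (5,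
      6), (6, 5), (6, 8), (7, 4), (7, 9), (8, 6), (8, 9), (9, 7), (9, 8)]
    lev := [] }
  links := [[1, 5, 6, 7], [5, 0, 7, 8, 2, 3, 9], [3, 1, 8, 10, 11], [9, 1, 2, 11, 4, 12], [12, 3, 11, 13,
    14]]
  P := {
    a := 5
    N := 15
    nb := [226, 941, 3338, 6678, 30728, 579, 161, 323, 1158, 4138, 2308, 9244, 16920, 18448, 12304]
    tri := [(0, 1, 5), (0, 1, 7), (0, 5, 6), (0, 6, 7), (1, 2, 3), (1, 2, 8), (1, 3, 9), (1, 5, 9), (1,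
      7, 8), (2, 3, 11), (2, 8, 10), (2, 10, 11), (3, 4, 11), (3, 4, 12), (3, 9, 12), (4, 11, 13),
      (4, 12, 14), (4, 13, 14)]
    fin := [0, 0, 2, 2, 4, 0, 6, 7, 0, 9, 2, 4, 4, 13, 14]
    chd := [(9, 2)]
    steps := [(0, 1), (0, 5), (0, 8), (2, 3), (2, 10), (4, 11), (4, 12)] }
  rep := [0, 9, 7, 4, 2, 6, 13, 14]

noncomputable def v348 : Cov.CovD where
  P := 3
  N := 5
  pl := [1, 2, 8, 9]
  lev := [⟨[], [], [], [2, 5], [(0, 0, [])]⟩,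
    ⟨[], [(0, 0), (0, 1)], [(0, 0), (0, 1)], [2], [(0, 0, []), (3, 0, []), (4, 1, [4])]⟩,
    ⟨[(0, 1)], [(1, 0), (1, 1), (1, 3), (1, 4)], [(0, 3), (0, 4), (3, 4)], [], [(3, 0, []),
      (5, 4, [1]), (6, 3, [])]⟩,
    ⟨[(0, 1), (1, 2)], [(1, 0), (1, 1), (1, 3), (2, 0), (2, 1), (2, 3), (2, 4)], [(1, 3),
      (3, 3)], [], [(4, 1, [4]), (6, 3, []), (7, 3, [])]⟩,
    ⟨[(1, 3), (2, 3)], [(2, 3), (3, 1), (3, 3)], [(3, 3)], [6, 7], [(6, 3, []), (7, 3,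
      [])]⟩]
  Ta := [((0, 1), 0, 5), ((0, 4), 0, 1), ((3, 2), 0, 2), ((3, 5), 0, 4), ((6, 5), 3, 4), ((6, 8),
    3, 6), ((7, 4), 3, 1), ((7, 9), 3, 7)]
  Tb := [((0, 1, 4), 0, 5, 1), ((1, 0, 2), 5, 0, 2), ((2, 1, 3), 2, 5, 0), ((3, 2, 5), 0, 2, 4),
    ((4, 0, 7), 1, 0, 3), ((5, 3, 6), 4, 0, 3), ((6, 5, 8), 3, 4, 6), ((7, 4, 9), 3, 1, 7),
    ((8, 6, 9), 6, 3, 7), ((9, 7, 8), 7, 3, 6)]
  Tc := []
  Td := [((1, 4), (4, 0), 0), ((1, 4), (4, 7), 3), ((4, 1), (5, 3), 0), ((4, 1), (5, 6), 3)]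
  G := [[0, 0xdb618d7a14c, 0, 0xeb528e7924c, 0xeb528eb528a], [0, 0xd7a14db618c, 0,
    0xeb528e7924c, 0xeb528eb528a], [0, 0, 0xeb528e7924a, 0xe79241, 0xeb5281], [0, 0,
    0xe7924eb528a, 0xe79241, 0xeb5281]]

noncomputable def n348 : Ent := ⟨e348, noF, [], [], [(6, 13, [87897818358406171357428020359653357189577334862559919308801, 0]), (6, 14, [81620716623019490593592230936445690773474979418095884804097, 0]), (10, 13, [87897818358406171357428020359653357189577334862559919321089, 0])]⟩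

def c348 : PLift (Cov.check n348.C.D v348 = true) := ⟨by decide +kernel⟩

def b348 : PLift (entF (fidx ts) 400 348 n348 = true) := ⟨by decide +kernel⟩

theorem g348 : GoodF (fidx ts) 400 348 := GoodF.ofV v348 n348 c348.down b348.down

/-- 484745:290/1 -/
noncomputable def e349 : SCfg where
  D := {
    a := 6
    L := 10
    kp := 8
    inn := [(0, 1), (1, 0), (1, 2), (1, 3), (1, 4), (2, 1), (2, 5), (3, 1), (3, 4), (4, 1), (4, 3), (5,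
      2)]
    mix := [(0, 0), (0, 1), (0, 2), (1, 0), (1, 2), (1, 3), (1, 4), (2, 3), (2, 4), (3, 4), (3, 5), (3,
      6), (3, 7), (3, 8), (4, 0), (4, 8), (5, 3), (5, 4), (5, 5), (5, 9)]
    cl := [1, 7, 2, 0, 0, 3, 5, 6, 4, 8]
    chq := [(1, 2), (2, 1), (2, 3), (2, 4), (2, 5), (2, 6), (3, 2), (4, 2), (5, 2), (6, 2)]
    rng := [(0, 1), (0, 8), (1, 0), (1, 2), (2, 1), (2, 3), (3, 2), (3, 9), (4, 5), (5, 4), (5, 6), (5,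
      9), (6, 5), (6, 7), (7, 6), (7, 8), (8, 0), (8, 7), (9, 3), (9, 5)]
    lev := [] }
  links := [[1, 6, 7, 8], [6, 0, 8, 9, 2, 10, 3, 4], [10, 1, 9, 5], [4, 1, 10, 11, 12, 13, 14], [6, 1, 3,
    14], [10, 2, 9, 15, 11]]
  P := {
    a := 6
    N := 16
    nb := [450, 1885, 1570, 31762, 16458, 36356, 16531, 321, 643, 33062, 2094, 37928, 10248, 20488,
      8280, 2592]
    tri := [(0, 1, 6), (0, 1, 8), (0, 6, 7), (0, 7, 8), (1, 2, 9), (1, 2, 10), (1, 3, 4), (1, 3, 10),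
      (1, 4, 6), (1, 8, 9), (2, 5, 9), (2, 5, 10), (3, 4, 14), (3, 10, 11), (3, 11, 12), (3, 12,
      13), (3, 13, 14), (4, 6, 14), (5, 9, 15), (5, 10, 11), (5, 11, 15)]
    fin := [0, 1, 1, 1, 0, 5, 0, 7, 1, 5, 5, 11, 12, 13, 14, 15]
    chd := [(0, 1), (1, 11), (1, 12), (1, 13), (1, 14)]
    steps := [(0, 6), (0, 4), (1, 2), (1, 3), (1, 8), (5, 9), (5, 10)] }
  rep := [5, 0, 1, 11, 14, 12, 13, 7, 15]

noncomputable def v349 : Cov.CovD where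
  P := 3
  N := 6
  pl := [1, 9]
  lev := [⟨[], [], [(1, 2)], [7], [(0, 1, [2]), (2, 2, [1, 3, 4, 5, 6])]⟩,
    ⟨[], [(0, 0), (0, 1), (0, 2)], [(0, 0), (0, 1), (0, 2), (1, 2)], [], [(0, 1, [2]), (2,
      2, [1, 3, 4, 5, 6]), (3, 0, []), (4, 0, [])]⟩,
    ⟨[(0, 1)], [(1, 0), (1, 1), (1, 2)], [(0, 0)], [], [(3, 0, []), (4, 0, [])]⟩,
    ⟨[(0, 1), (1, 2)], [(1, 0), (1, 1), (1, 2), (1, 3), (1, 4), (1, 5), (1, 6), (2, 0)],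
      [(0, 3), (0, 4), (0, 5), (0, 6), (3, 4), (3, 5), (3, 6), (4, 5), (4, 6), (5, 6)], [],
      [(4, 0, []), (5, 3, [2]), (6, 5, [2]), (7, 6, [2]), (8, 4, [2])]⟩,
    ⟨[(0, 1), (1, 2), (1, 3)], [(0, 1), (1, 0), (1, 1), (1, 2), (1, 4), (3, 0), (3, 1), (3,
      3), (3, 4), (3, 5), (3, 6)], [(1, 4)], [], [(0, 1, [2]), (8, 4, [2])]⟩,
    ⟨[(1, 2)], [(1, 0), (2, 0), (2, 3), (3, 0), (3, 3)], [(0, 0), (0, 3)], [8], [(3, 0,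
      []), (4, 0, []), (5, 3, [2])]⟩]
  Ta := [((3, 2), 0, 2), ((3, 9), 0, 8), ((4, 5), 0, 3)]
  Tb := [((0, 1, 8), 1, 7, 4), ((1, 0, 2), 7, 1, 2), ((2, 1, 3), 2, 7, 0), ((3, 2, 9), 0, 2, 8),
    ((5, 4, 6), 3, 0, 5), ((5, 4, 9), 3, 0, 8), ((5, 6, 9), 3, 5, 8), ((6, 5, 7), 5, 3, 6),
    ((7, 6, 8), 6, 5, 4), ((8, 0, 7), 4, 1, 6), ((9, 3, 5), 8, 0, 3)]
  Tc := [(2, 1, 3), (2, 1, 4), (2, 1, 5), (2, 1, 6), (2, 3, 4), (2, 3, 5), (2, 3, 6), (2, 4, 5),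
    (2, 4, 6), (2, 5, 6)]
  Td := [((1, 2), (0, 1), 7), ((1, 2), (0, 8), 4), ((2, 1), (2, 1), 7), ((2, 1), (2, 3), 0), ((2,
    3), (2, 1), 7), ((2, 3), (2, 3), 0), ((2, 4), (2, 1), 7), ((2, 4), (2, 3), 0), ((2, 5),
    (2, 1), 7), ((2, 5), (2, 3), 0), ((2, 6), (2, 1), 7), ((2, 6), (2, 3), 0), ((3, 2), (5,
    4), 0), ((3, 2), (5, 6), 5), ((3, 2), (5, 9), 8), ((4, 2), (8, 0), 1), ((4, 2), (8, 7),
    6), ((5, 2), (6, 5), 3), ((5, 2), (6, 7), 6), ((6, 2), (7, 6), 5), ((6, 2), (7, 8), 4)]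
  G := [[0, 0xeec284eec248c, 0xe412e818ceec148c, 0xee5228ee92285, 0xee5448e8448ee9428d], [0,
    0x8826ec264eec228c, 0, 0xee9224eec248c, 0xe4448ee9428ee9428d]]

noncomputable def n349 : Ent := ⟨e349, noF, [], [], []⟩

def c349 : PLift (Cov.check n349.C.D v349 = true) := ⟨by decide +kernel⟩

def b349 : PLift (entF (fidx ts) 400 349 n349 = true) := ⟨by decide +kernel⟩

theorem g349 : GoodF (fidx ts) 400 349 := GoodF.ofV v349 n349 c349.down b349.down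

/-- 484745:290 -/
noncomputable def e350 : SCfg where
  D := {
    a := 6
    L := 11
    kp := 9
    inn := [(0, 1), (1, 0), (1, 2), (1, 3), (1, 4), (2, 1), (2, 5), (3, 1), (3, 4), (4, 1), (4, 3), (5,
      2)]
    mix := [(0, 0), (0, 1), (0, 2), (1, 0), (1, 2), (1, 3), (1, 4), (2, 3), (2, 4), (3, 4), (3, 5), (3,
      6), (3, 7), (3, 8), (4, 0), (4, 8), (5, 3), (5, 4), (5, 9), (5, 10)]
    cl := [1, 7, 2, 0, 0, 4, 5, 6, 3, 8, 9]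
    chq := [(1, 2), (2, 1), (2, 3), (2, 4), (2, 5), (2, 6), (3, 2), (4, 2), (5, 2), (6, 2)]
    rng := [(0, 1), (0, 8), (1, 0), (1, 2), (2, 1), (2, 3), (3, 2), (3, 9), (4, 5), (4, 10), (5, 4),
      (5, 6), (6, 5), (6, 7), (7, 6), (7, 8), (8, 0), (8, 7), (9, 3), (9, 10), (10, 4), (10, 9)]
    lev := [] }
  links := [[1, 6, 7, 8], [6, 0, 8, 9, 2, 10, 3, 4], [10, 1, 9, 5], [4, 1, 10, 11, 12, 13, 14], [6, 1, 3,
    14], [10, 2, 9, 15, 16]]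
  P := {
    a := 6
    N := 17
    nb := [450, 1885, 1570, 31762, 16458, 99844, 16531, 321, 643, 33062, 67630, 5128, 10248, 20488,
      8280, 66080, 33824]
    tri := [(0, 1, 6), (0, 1, 8), (0, 6, 7), (0, 7, 8), (1, 2, 9), (1, 2, 10), (1, 3, 4), (1, 3, 10),
      (1, 4, 6), (1, 8, 9), (2, 5, 9), (2, 5, 10), (3, 4, 14), (3, 10, 11), (3, 11, 12), (3, 12,
      13), (3, 13, 14), (4, 6, 14), (5, 9, 15), (5, 10, 16), (5, 15, 16)]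
    fin := [0, 1, 1, 1, 0, 5, 0, 7, 1, 5, 5, 11, 12, 13, 14, 15, 16]
    chd := [(0, 1), (1, 11), (1, 12), (1, 13), (1, 14)]
    steps := [(0, 6), (0, 4), (1, 2), (1, 3), (1, 8), (5, 9), (5, 10)] }
  rep := [5, 0, 1, 14, 11, 12, 13, 7, 15, 16]

noncomputable def v350 : Cov.CovD where
  P := 3
  N := 7
  pl := [1, 9, 10]
  lev := [⟨[], [], [(1, 2)], [7], [(0, 1, [2]), (2, 2, [1, 3, 4, 5, 6])]⟩,
    ⟨[], [(0, 0), (0, 1), (0, 2)], [(0, 0), (0, 1), (0, 2), (1, 2)], [], [(0, 1, [2]), (2,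
      2, [1, 3, 4, 5, 6]), (3, 0, []), (4, 0, [])]⟩,
    ⟨[(0, 1)], [(1, 0), (1, 1), (1, 2)], [(0, 0)], [], [(3, 0, []), (4, 0, [])]⟩,
    ⟨[(0, 1), (1, 2)], [(1, 0), (1, 1), (1, 2), (1, 3), (1, 4), (1, 5), (1, 6), (2, 0)],
      [(0, 3), (0, 4), (0, 5), (0, 6), (3, 4), (3, 5), (3, 6), (4, 5), (4, 6), (5, 6)], [],
      [(4, 0, []), (5, 4, [2]), (6, 5, [2]), (7, 6, [2]), (8, 3, [2])]⟩,
    ⟨[(0, 1), (1, 2), (1, 3)], [(0, 1), (1, 0), (1, 1), (1, 2), (1, 3), (3, 0), (3, 1), (3,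
      3), (3, 4), (3, 5), (3, 6)], [(1, 3)], [], [(0, 1, [2]), (8, 3, [2])]⟩,
    ⟨[(1, 2)], [(1, 0), (2, 0), (3, 0)], [(0, 0)], [8, 9], [(3, 0, []), (4, 0, [])]⟩]
  Ta := [((3, 2), 0, 2), ((3, 9), 0, 8), ((4, 5), 0, 4), ((4, 10), 0, 9)]
  Tb := [((0, 1, 8), 1, 7, 3), ((1, 0, 2), 7, 1, 2), ((2, 1, 3), 2, 7, 0), ((3, 2, 9), 0, 2, 8),
    ((4, 5, 10), 0, 4, 9), ((5, 4, 6), 4, 0, 5), ((6, 5, 7), 5, 4, 6), ((7, 6, 8), 6, 5, 3),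
    ((8, 0, 7), 3, 1, 6), ((9, 3, 10), 8, 0, 9), ((10, 4, 9), 9, 0, 8)]
  Tc := [(2, 1, 3), (2, 1, 4), (2, 1, 5), (2, 1, 6), (2, 3, 4), (2, 3, 5), (2, 3, 6), (2, 4, 5),
    (2, 4, 6), (2, 5, 6)]
  Td := [((1, 2), (0, 1), 7), ((1, 2), (0, 8), 3), ((2, 1), (2, 1), 7), ((2, 1), (2, 3), 0), ((2,
    3), (2, 1), 7), ((2, 3), (2, 3), 0), ((2, 4), (2, 1), 7), ((2, 4), (2, 3), 0), ((2, 5),
    (2, 1), 7), ((2, 5), (2, 3), 0), ((2, 6), (2, 1), 7), ((2, 6), (2, 3), 0), ((3, 2), (8,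
    0), 1), ((3, 2), (8, 7), 6), ((4, 2), (5, 4), 0), ((4, 2), (5, 6), 5), ((5, 2), (6, 5),
    4), ((5, 2), (6, 7), 6), ((6, 2), (7, 6), 5), ((6, 2), (7, 8), 3)]
  G := [[0, 0xeec224eec248c, 0xeec124eec128c, 0xee9224ee52285, 0xee5448e8448ee9448d], [0,
    0xeec284e422e828cc, 0, 0xee5248eec2489, 0xee5428e8448ee9428d]]

noncomputable def n350 : Ent := ⟨e350, noF, [], [], [(16, 11, [1580044410770990308032078191911707142368668054796088592099345551361, 0])]⟩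

def c350 : PLift (Cov.check n350.C.D v350 = true) := ⟨by decide +kernel⟩

def b350 : PLift (entF (fidx ts) 400 350 n350 = true) := ⟨by decide +kernel⟩

theorem g350 : GoodF (fidx ts) 400 350 := GoodF.ofV v350 n350 c350.down b350.down

/-- 484746:291 -/
noncomputable def e351 : SCfg where
  D := {
    a := 6
    L := 10
    kp := 7
    inn := [(0, 1), (1, 0), (1, 2), (1, 3), (1, 4), (1, 5), (2, 1), (2, 5), (3, 1), (3, 4), (3, 5), (4,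
      1), (4, 3), (5, 1), (5, 2), (5, 3)]
    mix := [(0, 0), (0, 1), (0, 2), (1, 0), (1, 2), (1, 3), (2, 3), (2, 4), (3, 5), (3, 6), (3, 7), (3,
      8), (4, 0), (4, 8), (5, 4), (5, 5), (5, 9)]
    cl := [0, 5, 1, 0, 2, 3, 6, 7, 3, 4]
    chq := [(0, 4), (4, 0)]
    rng := [(0, 1), (0, 8), (1, 0), (1, 2), (2, 1), (2, 3), (3, 2), (3, 4), (4, 3), (4, 9), (5, 6), (5,
      9), (6, 5), (6, 7), (7, 6), (7, 8), (8, 0), (8, 7), (9, 4), (9, 5)]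
    lev := [] }
  links := [[1, 6, 7, 8], [6, 0, 8, 9, 2, 5, 3, 4], [5, 1, 9, 10], [4, 1, 5, 11, 12, 13, 14], [6, 1, 3,
    14], [11, 3, 1, 2, 10, 15]]
  P := {
    a := 6
    N := 16
    nb := [450, 893, 1570, 30770, 16458, 35854, 16531, 321, 643, 1286, 33316, 36904, 10248, 20488,
      8280, 3104]
    tri := [(0, 1, 6), (0, 1, 8), (0, 6, 7), (0, 7, 8), (1, 2, 5), (1, 2, 9), (1, 3, 4), (1, 3, 5), (1,
      4, 6), (1, 8, 9), (2, 5, 10), (2, 9, 10), (3, 4, 14), (3, 5, 11), (3, 11, 12), (3, 12, 13),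
      (3, 13, 14), (4, 6, 14), (5, 10, 15), (5, 11, 15)]
    fin := [0, 0, 0, 3, 0, 0, 0, 7, 8, 0, 10, 3, 12, 13, 3, 15]
    chd := [(0, 15)]
    steps := [(0, 1), (0, 2), (0, 4), (0, 5), (0, 6), (0, 9), (3, 11), (3, 14)] }
  rep := [0, 8, 10, 3, 15, 7, 12, 13]

noncomputable def v351 : Cov.CovD where
  P := 3
  N := 5
  pl := [1, 2, 4, 6, 7]
  lev := [⟨[], [], [], [1, 5], [(0, 0, [4])]⟩,
    ⟨[], [(0, 0)], [(0, 0)], [1], [(0, 0, [4]), (3, 0, [4])]⟩,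
    ⟨[(0, 1)], [(1, 0)], [], [2], [(3, 0, [4])]⟩,
    ⟨[(0, 1), (1, 2)], [(1, 0), (1, 3)], [(3, 3)], [6, 7], [(5, 3, []), (8, 3, [])]⟩,
    ⟨[(0, 1), (1, 2), (1, 3)], [(0, 0), (1, 0), (1, 3), (3, 0), (3, 3)], [(0, 3)], [], [(0,
      0, [4]), (8, 3, [])]⟩,
    ⟨[(0, 1), (1, 2), (1, 3), (1, 4), (2, 3), (3, 4)], [(1, 0), (1, 3), (1, 4), (2, 0), (2,
      3), (2, 4), (3, 3), (3, 4)], [(3, 4)], [2], [(5, 3, []), (9, 4, [0])]⟩]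
  Ta := [((0, 1), 0, 5), ((0, 8), 0, 3), ((3, 2), 0, 1), ((3, 4), 0, 2), ((5, 6), 3, 6), ((5, 9),
    3, 4), ((8, 0), 3, 0), ((8, 7), 3, 7)]
  Tb := [((0, 1, 8), 0, 5, 3), ((1, 0, 2), 5, 0, 1), ((2, 1, 3), 1, 5, 0), ((3, 2, 4), 0, 1, 2),
    ((4, 3, 9), 2, 0, 4), ((5, 6, 9), 3, 6, 4), ((6, 5, 7), 6, 3, 7), ((7, 6, 8), 7, 6, 3),
    ((8, 0, 7), 3, 0, 7), ((9, 4, 5), 4, 2, 3)]
  Tc := []
  Td := [((0, 4), (0, 1), 5), ((0, 4), (0, 8), 3), ((0, 4), (3, 2), 1), ((0, 4), (3, 4), 2), ((4,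
    0), (9, 4), 2), ((4, 0), (9, 5), 3)]
  G := [[0, 0, 0, 0x12485121892bc4121414d2f48c, 0x121812b2f84121414b2f28c], [0, 0, 0,
    0x1441654181288b8c1412546781888cc, 0x1811a1298cf241161412183ef28c], [0,
    0x18141114f8212121114f48a, 0x242e2e25ae2c8a2c1, 0x141214d4f481, 0x141212b2f281], [0,
    0x18111118cf4211111211af48a, 0x24624624842424ecbe81, 0x1448181298ab4c1,
    0x1442181223ab8c1]]

noncomputable def n351 : Ent := ⟨e351, noF, [], [], []⟩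

def c351 : PLift (Cov.check n351.C.D v351 = true) := ⟨by decide +kernel⟩

def b351 : PLift (entF (fidx ts) 400 351 n351 = true) := ⟨by decide +kernel⟩

theorem g351 : GoodF (fidx ts) 400 351 := GoodF.ofV v351 n351 c351.down b351.down

/-- 484756:294 -/
noncomputable def e352 : SCfg where
  D := {
    a := 6
    L := 11
    kp := 8
    inn := [(0, 1), (1, 0), (1, 2), (1, 3), (1, 4), (1, 5), (2, 1), (2, 5), (3, 1), (3, 4), (3, 5), (4,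
      1), (4, 3), (5, 1), (5, 2), (5, 3)]
    mix := [(0, 0), (0, 1), (0, 2), (1, 0), (1, 2), (1, 3), (2, 3), (2, 4), (3, 5), (3, 6), (3, 7), (3,
      8), (4, 0), (4, 8), (4, 9), (5, 4), (5, 5), (5, 10)]
    cl := [0, 5, 1, 0, 2, 3, 6, 7, 3, 8, 4]
    chq := [(0, 3), (0, 4), (3, 0), (4, 0)]
    rng := [(0, 1), (0, 9), (1, 0), (1, 2), (2, 1), (2, 3), (3, 2), (3, 4), (4, 3), (4, 10), (5, 6),
      (5, 10), (6, 5), (6, 7), (7, 6), (7, 8), (8, 7), (8, 9), (9, 0), (9, 8), (10, 4), (10, 5)]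
    lev := [] }
  links := [[1, 6, 7, 8], [6, 0, 8, 9, 2, 5, 3, 4], [5, 1, 9, 10], [4, 1, 5, 11, 12, 13, 14], [6, 1, 3,
    14, 15], [11, 3, 1, 2, 10, 16]]
  P := {
    a := 6
    N := 17
    nb := [450, 893, 1570, 30770, 49226, 68622, 32915, 321, 643, 1286, 66084, 69672, 10248, 20488,
      40984, 16464, 3104]
    tri := [(0, 1, 6), (0, 1, 8), (0, 6, 7), (0, 7, 8), (1, 2, 5), (1, 2, 9), (1, 3, 4), (1, 3, 5), (1,
      4, 6), (1, 8, 9), (2, 5, 10), (2, 9, 10), (3, 4, 14), (3, 5, 11), (3, 11, 12), (3, 12, 13),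
      (3, 13, 14), (4, 6, 15), (4, 14, 15), (5, 10, 16), (5, 11, 16)]
    fin := [0, 0, 0, 3, 0, 0, 0, 7, 8, 0, 10, 3, 12, 13, 3, 15, 16]
    chd := [(0, 3), (0, 16)]
    steps := [(0, 1), (0, 2), (0, 4), (0, 5), (0, 6), (0, 9), (3, 11), (3, 14)] }
  rep := [0, 8, 10, 3, 16, 7, 12, 13, 15]

noncomputable def v352 : Cov.CovD where
  P := 3
  N := 6
  pl := [1, 2, 4, 6, 7, 9]
  lev := [⟨[], [], [], [1, 5], [(0, 0, [3, 4])]⟩,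
    ⟨[], [(0, 0)], [(0, 0)], [1], [(0, 0, [3, 4]), (3, 0, [3, 4])]⟩,
    ⟨[(0, 1)], [(1, 0)], [], [2], [(3, 0, [3, 4])]⟩,
    ⟨[(0, 1), (1, 2)], [(1, 0), (1, 3)], [(3, 3)], [6, 7], [(5, 3, [0]), (8, 3, [0])]⟩,
    ⟨[(0, 1), (1, 2), (1, 3)], [(0, 0), (1, 0), (1, 3), (3, 0), (3, 3)], [(0, 3)], [8],
      [(0, 0, [3, 4]), (8, 3, [0])]⟩,
    ⟨[(0, 1), (1, 2), (1, 3), (1, 4), (2, 3), (3, 4)], [(1, 0), (1, 3), (1, 4), (2, 0), (2,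
      3), (2, 4), (3, 3), (3, 4)], [(3, 4)], [2], [(5, 3, [0]), (10, 4, [0])]⟩]
  Ta := [((0, 1), 0, 5), ((0, 9), 0, 8), ((3, 2), 0, 1), ((3, 4), 0, 2), ((5, 6), 3, 6), ((5,
    10), 3, 4), ((8, 7), 3, 7), ((8, 9), 3, 8)]
  Tb := [((0, 1, 9), 0, 5, 8), ((1, 0, 2), 5, 0, 1), ((2, 1, 3), 1, 5, 0), ((3, 2, 4), 0, 1, 2),
    ((4, 3, 10), 2, 0, 4), ((5, 6, 10), 3, 6, 4), ((6, 5, 7), 6, 3, 7), ((7, 6, 8), 7, 6, 3),
    ((8, 7, 9), 3, 7, 8), ((9, 0, 8), 8, 0, 3), ((10, 4, 5), 4, 2, 3)]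
  Tc := [(0, 3, 4)]
  Td := [((0, 3), (0, 1), 5), ((0, 3), (0, 9), 8), ((0, 3), (3, 2), 1), ((0, 3), (3, 4), 2), ((0,
    4), (0, 1), 5), ((0, 4), (0, 9), 8), ((0, 4), (3, 2), 1), ((0, 4), (3, 4), 2), ((3, 0),
    (5, 6), 6), ((3, 0), (5, 10), 4), ((3, 0), (8, 7), 7), ((3, 0), (8, 9), 8), ((4, 0), (10,
    4), 2), ((4, 0), (10, 5), 3)]
  G := [[0, 0, 0, 0x11a11a11ad9af84116116116d56f48c, 0x11a11a11a39af241161163b6d211a22cc], [0,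
    0, 0, 0x1164454111e18111e91def8c14111e111e546f411a99a98cc,
    0x11611662111e1818333ef8c14111e14b4f211a11a99ab2cc], [0, 0x11111111cf4211111111af846,
    0x61428184c61488182c6282e46e4eea12828accd, 0x11a11a11ad9af841, 0x1161161163b6f281], [0,
    0x111111111ef42111111111ef48a, 0x214a1a1a814e4416162121c418e86661281481e8d,
    0x11655658111e18111e98f8c1, 0x1442111e11a111e999ef2c1]]

noncomputable def n352 : Ent := ⟨e352, noF, [], [], []⟩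

def c352 : PLift (Cov.check n352.C.D v352 = true) := ⟨by decide +kernel⟩

def b352 : PLift (entF (fidx ts) 400 352 n352 = true) := ⟨by decide +kernel⟩

theorem g352 : GoodF (fidx ts) 400 352 := GoodF.ofV v352 n352 c352.down b352.down

/-- 457674:297 -/
noncomputable def e353 : SCfg where
  D := {
    a := 6
    L := 10
    kp := 8
    inn := [(0, 1), (0, 2), (1, 0), (1, 2), (1, 4), (2, 0), (2, 1), (2, 3), (2, 4), (3, 2), (3, 4), (3,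
      5), (4, 1), (4, 2), (4, 3), (5, 3)]
    mix := [(0, 0), (0, 1), (1, 1), (1, 2), (2, 0), (2, 3), (2, 4), (3, 3), (3, 5), (3, 6), (4, 2), (4,
      5), (4, 7), (4, 8), (5, 3), (5, 6), (5, 9)]
    cl := [1, 4, 3, 0, 7, 0, 2, 5, 6, 8]
    chq := [(0, 1), (1, 0), (1, 3), (1, 5), (1, 6), (3, 1), (5, 1), (6, 1)]
    rng := [(0, 1), (0, 4), (1, 0), (1, 2), (2, 1), (2, 7), (3, 4), (3, 9), (4, 0), (4, 3), (5, 6), (5,
      8), (6, 5), (6, 9), (7, 2), (7, 8), (8, 5), (8, 7), (9, 3), (9, 6)]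
    lev := [] }
  links := [[1, 2, 6, 7], [2, 0, 7, 8, 4], [6, 0, 1, 4, 3, 9, 10], [9, 2, 4, 11, 12, 5], [11, 3, 2, 1, 8,
    13, 14], [9, 3, 12, 15]]
  P := {
    a := 6
    N := 16
    nb := [198, 405, 1627, 6708, 26894, 37384, 1157, 323, 8338, 33836, 580, 20504, 34856, 16656,
      10256, 4640]
    tri := [(0, 1, 2), (0, 1, 7), (0, 2, 6), (0, 6, 7), (1, 2, 4), (1, 4, 8), (1, 7, 8), (2, 3, 4), (2,
      3, 9), (2, 6, 10), (2, 9, 10), (3, 4, 11), (3, 5, 9), (3, 5, 12), (3, 11, 12), (4, 8, 13),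
      (4, 11, 14), (4, 13, 14), (5, 9, 15), (5, 12, 15)]
    fin := [0, 0, 0, 3, 0, 3, 0, 7, 8, 3, 10, 3, 12, 13, 14, 15]
    chd := [(0, 3), (0, 8), (0, 13), (0, 14)]
    steps := [(0, 1), (0, 2), (0, 4), (0, 6), (3, 5), (3, 11), (3, 9)] }
  rep := [3, 0, 12, 8, 7, 13, 14, 10, 15]

noncomputable def v353 : Cov.CovD where
  P := 3
  N := 6
  pl := [1, 4, 6, 9]
  lev := [⟨[], [], [], [4], [(0, 1, [0, 3, 5, 6])]⟩,
    ⟨[], [(0, 1), (0, 3)], [], [4], [(2, 3, [1])]⟩,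
    ⟨[(0, 1)], [(0, 0), (0, 1), (1, 0), (1, 1), (1, 3)], [(0, 1)], [7], [(0, 1, [0, 3, 5,
      6]), (3, 0, [1])]⟩,
    ⟨[(0, 2), (1, 2)], [(2, 0), (2, 1)], [(0, 0)], [2], [(3, 0, [1]), (5, 0, [1])]⟩,
    ⟨[(0, 1), (0, 2), (1, 2), (1, 3), (2, 3)], [(1, 0), (1, 3), (1, 5), (1, 6), (2, 0), (2,
      1), (2, 3), (2, 5), (2, 6), (3, 0), (3, 3), (3, 5), (3, 6)], [(0, 3), (0, 5), (0, 6),
      (3, 5), (3, 6), (5, 6)], [], [(2, 3, [1]), (5, 0, [1]), (7, 5, [1]), (8, 6, [1])]⟩,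
    ⟨[(2, 3), (3, 4)], [(2, 0), (3, 0)], [], [2, 8], [(3, 0, [1])]⟩]
  Ta := [((3, 4), 0, 7), ((3, 9), 0, 8), ((5, 6), 0, 2), ((5, 8), 0, 6)]
  Tb := [((0, 1, 4), 1, 4, 7), ((1, 0, 2), 4, 1, 3), ((2, 1, 7), 3, 4, 5), ((3, 4, 9), 0, 7, 8),
    ((4, 0, 3), 7, 1, 0), ((5, 6, 8), 0, 2, 6), ((6, 5, 9), 2, 0, 8), ((7, 2, 8), 5, 3, 6),
    ((8, 5, 7), 6, 0, 5), ((9, 3, 6), 8, 0, 2)]
  Tc := [(1, 0, 3), (1, 0, 5), (1, 0, 6), (1, 3, 5), (1, 3, 6), (1, 5, 6)]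
  Td := [((0, 1), (3, 4), 7), ((0, 1), (3, 9), 8), ((0, 1), (5, 6), 2), ((0, 1), (5, 8), 6), ((1,
    0), (0, 1), 4), ((1, 0), (0, 4), 7), ((1, 3), (0, 1), 4), ((1, 3), (0, 4), 7), ((1, 5),
    (0, 1), 4), ((1, 5), (0, 4), 7), ((1, 6), (0, 1), 4), ((1, 6), (0, 4), 7), ((3, 1), (2,
    1), 4), ((3, 1), (2, 7), 5), ((5, 1), (7, 2), 3), ((5, 1), (7, 8), 6), ((6, 1), (8, 5),
    0), ((6, 1), (8, 7), 5)]
  G := [[0, 0x1181146114118c114114ae1, 0, 0xc284c284cc2484282c8cc248c284c24c28cdd,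
    0xa284882282282a822a8adaa28cea2844822822aa8da82282aa28cbf], [0,
    0x114118a1181146114118ae1, 0xc2818c2814628a24c1d, 0xc2818c2414124128c1d,
    0xa2818a2814128128c1d]]

noncomputable def n353 : Ent := ⟨e353, noF, [], [], []⟩

def c353 : PLift (Cov.check n353.C.D v353 = true) := ⟨by decide +kernel⟩

def b353 : PLift (entF (fidx ts) 400 353 n353 = true) := ⟨by decide +kernel⟩

theorem g353 : GoodF (fidx ts) 400 353 := GoodF.ofV v353 n353 c353.down b353.down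

/-- 457684:299 -/
noncomputable def e354 : SCfg where
  D := {
    a := 6
    L := 10
    kp := 8
    inn := [(0, 1), (0, 2), (1, 0), (1, 2), (1, 4), (2, 0), (2, 1), (2, 3), (2, 4), (3, 2), (3, 4), (3,
      5), (4, 1), (4, 2), (4, 3), (4, 5), (5, 3), (5, 4)]
    mix := [(0, 0), (0, 1), (1, 1), (1, 2), (2, 0), (2, 3), (2, 4), (3, 3), (3, 5), (3, 6), (4, 2), (4,
      7), (4, 8), (4, 9), (5, 5), (5, 9)]
    cl := [1, 2, 0, 3, 6, 4, 5, 7, 8, 0]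
    chq := [(0, 1), (1, 0), (1, 3), (1, 4), (1, 5), (3, 1), (4, 1), (5, 1)]
    rng := [(0, 1), (0, 4), (1, 0), (1, 2), (2, 1), (2, 7), (3, 4), (3, 6), (4, 0), (4, 3), (5, 6), (5,
      9), (6, 3), (6, 5), (7, 2), (7, 8), (8, 7), (8, 9), (9, 5), (9, 8)]
    lev := [] }
  links := [[1, 2, 6, 7], [2, 0, 7, 8, 4], [6, 0, 1, 4, 3, 9, 10], [9, 2, 4, 5, 11, 12], [5, 3, 2, 1, 8,
    13, 14, 15], [11, 3, 4, 15]]
  P := {
    a := 6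
    N := 16
    nb := [198, 405, 1627, 6708, 57646, 34840, 1157, 323, 8338, 5132, 580, 36904, 2568, 16656, 40976,
      18480]
    tri := [(0, 1, 2), (0, 1, 7), (0, 2, 6), (0, 6, 7), (1, 2, 4), (1, 4, 8), (1, 7, 8), (2, 3, 4), (2,
      3, 9), (2, 6, 10), (2, 9, 10), (3, 4, 5), (3, 5, 11), (3, 9, 12), (3, 11, 12), (4, 5, 15),
      (4, 8, 13), (4, 13, 14), (4, 14, 15), (5, 11, 15)]
    fin := [0, 0, 0, 0, 4, 0, 0, 7, 4, 9, 10, 11, 12, 13, 14, 4]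
    chd := [(0, 4), (0, 9), (0, 11), (0, 12)]
    steps := [(0, 1), (0, 2), (0, 3), (0, 5), (0, 6), (4, 8), (4, 15)] }
  rep := [4, 0, 7, 9, 11, 12, 10, 13, 14]

noncomputable def v354 : Cov.CovD where
  P := 3
  N := 6
  pl := [1, 4, 7, 8]
  lev := [⟨[], [], [], [2], [(0, 1, [0, 3, 4, 5])]⟩,
    ⟨[], [(0, 0), (0, 1)], [], [2], [(2, 0, [1])]⟩,
    ⟨[(0, 1)], [(0, 1), (0, 3), (1, 0), (1, 1), (1, 3)], [(1, 3)], [6], [(0, 1, [0, 3, 4,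
      5]), (3, 3, [1])]⟩,
    ⟨[(0, 2), (1, 2)], [(2, 1), (2, 3), (2, 4), (2, 5)], [(3, 4), (3, 5), (4, 5)], [], [(3,
      3, [1]), (5, 4, [1]), (6, 5, [1])]⟩,
    ⟨[(0, 1), (0, 2), (1, 2), (1, 3), (2, 3)], [(1, 0), (2, 0), (2, 1), (2, 3), (3, 0), (3,
      3), (3, 4), (3, 5)], [(0, 0)], [7, 8], [(2, 0, [1]), (9, 0, [1])]⟩,
    ⟨[(1, 4), (2, 3), (2, 4), (3, 4)], [(3, 0), (3, 3), (3, 4), (3, 5), (4, 0), (4, 4)],
      [(0, 4)], [], [(5, 4, [1]), (9, 0, [1])]⟩]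
  Ta := [((2, 1), 0, 2), ((2, 7), 0, 7), ((9, 5), 0, 4), ((9, 8), 0, 8)]
  Tb := [((0, 1, 4), 1, 2, 6), ((1, 0, 2), 2, 1, 0), ((2, 1, 7), 0, 2, 7), ((3, 4, 6), 3, 6, 5),
    ((4, 0, 3), 6, 1, 3), ((5, 6, 9), 4, 5, 0), ((6, 3, 5), 5, 3, 4), ((7, 2, 8), 7, 0, 8),
    ((8, 7, 9), 8, 7, 0), ((9, 5, 8), 0, 4, 8)]
  Tc := [(1, 0, 3), (1, 0, 4), (1, 0, 5), (1, 3, 4), (1, 3, 5), (1, 4, 5)]
  Td := [((0, 1), (2, 1), 2), ((0, 1), (2, 7), 7), ((0, 1), (9, 5), 4), ((0, 1), (9, 8), 8), ((1,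
    0), (0, 1), 2), ((1, 0), (0, 4), 6), ((1, 3), (0, 1), 2), ((1, 3), (0, 4), 6), ((1, 4),
    (0, 1), 2), ((1, 4), (0, 4), 6), ((1, 5), (0, 1), 2), ((1, 5), (0, 4), 6), ((3, 1), (3,
    4), 6), ((3, 1), (3, 6), 5), ((4, 1), (5, 6), 5), ((4, 1), (5, 9), 0), ((5, 1), (6, 3),
    3), ((5, 1), (6, 5), 4)]
  G := [[0, 0x6a6e166ce166aae18c1, 0x12121482f41211642711a28242111ea2fdc1218a84c,
    0x2424111e221a2111e2dc1, 0x82c25121221282312111ead121211c42f121211ceca9], [0,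
    0x6aae16ace166ace18c1, 0, 0x2c622c625822ce2282282d49,
    0x42c2a2712824c2962881c2a23a2c26c426cc682cac82b82cccadab]]

noncomputable def n354 : Ent := ⟨e354, noF, [], [], []⟩

def c354 : PLift (Cov.check n354.C.D v354 = true) := ⟨by decide +kernel⟩

def b354 : PLift (entF (fidx ts) 400 354 n354 = true) := ⟨by decide +kernel⟩

theorem g354 : GoodF (fidx ts) 400 354 := GoodF.ofV v354 n354 c354.down b354.down

/-- 457685:300 -/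
noncomputable def e355 : SCfg where
  D := {
    a := 6
    L := 11
    kp := 9
    inn := [(0, 1), (0, 2), (1, 0), (1, 2), (1, 4), (2, 0), (2, 1), (2, 3), (2, 4), (3, 2), (3, 4), (3,
      5), (4, 1), (4, 2), (4, 3), (4, 5), (5, 3), (5, 4)]
    mix := [(0, 0), (0, 1), (1, 1), (1, 2), (2, 0), (2, 3), (2, 4), (3, 3), (3, 5), (3, 6), (4, 2), (4,
      7), (4, 8), (4, 9), (5, 5), (5, 9), (5, 10)]
    cl := [1, 2, 0, 3, 5, 4, 7, 8, 9, 0, 6]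
    chq := [(0, 1), (0, 3), (0, 5), (1, 0), (3, 0), (3, 4), (3, 6), (4, 3), (5, 0), (6, 3)]
    rng := [(0, 1), (0, 4), (1, 0), (1, 2), (2, 1), (2, 7), (3, 4), (3, 6), (4, 0), (4, 3), (5, 6), (5,
      10), (6, 3), (6, 5), (7, 2), (7, 8), (8, 7), (8, 9), (9, 8), (9, 10), (10, 5), (10, 9)]
    lev := [] }
  links := [[1, 2, 6, 7], [2, 0, 7, 8, 4], [6, 0, 1, 4, 3, 9, 10], [9, 2, 4, 5, 11, 12], [5, 3, 2, 1, 8,
    13, 14, 15], [11, 3, 4, 15, 16]]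
  P := {
    a := 6
    N := 17
    nb := [198, 405, 1627, 6708, 57646, 100376, 1157, 323, 8338, 5132, 580, 69672, 2568, 16656, 40976,
      81968, 34848]
    tri := [(0, 1, 2), (0, 1, 7), (0, 2, 6), (0, 6, 7), (1, 2, 4), (1, 4, 8), (1, 7, 8), (2, 3, 4), (2,
      3, 9), (2, 6, 10), (2, 9, 10), (3, 4, 5), (3, 5, 11), (3, 9, 12), (3, 11, 12), (4, 5, 15),
      (4, 8, 13), (4, 13, 14), (4, 14, 15), (5, 11, 16), (5, 15, 16)]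
    fin := [0, 0, 2, 3, 2, 5, 0, 7, 2, 3, 10, 11, 12, 13, 14, 2, 5]
    chd := [(0, 2), (2, 3), (2, 10), (3, 5), (3, 11)]
    steps := [(0, 1), (0, 6), (2, 4), (2, 8), (2, 15), (3, 9), (5, 16)] }
  rep := [2, 0, 7, 3, 11, 10, 5, 12, 13, 14]

noncomputable def v355 : Cov.CovD where
  P := 3
  N := 7
  pl := [1, 6, 7, 8]
  lev := [⟨[], [], [], [2], [(0, 1, [0])]⟩,
    ⟨[], [(0, 0), (0, 1)], [], [2], [(2, 0, [1, 3, 5])]⟩,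
    ⟨[(0, 1)], [(0, 1), (0, 3), (0, 5), (1, 0), (1, 1), (1, 3), (1, 5)], [(1, 3), (1, 5),
      (3, 5)], [], [(0, 1, [0]), (3, 3, [0, 4, 6]), (4, 5, [0])]⟩,
    ⟨[(0, 2), (1, 2)], [(2, 1), (2, 3), (2, 4), (2, 5)], [(3, 4)], [7], [(3, 3, [0, 4, 6]),
      (5, 4, [3])]⟩,
    ⟨[(0, 1), (0, 2), (1, 2), (1, 3), (2, 3)], [(1, 0), (2, 0), (2, 1), (2, 3), (2, 5), (3,
      0), (3, 3), (3, 4)], [(0, 0)], [8, 9], [(2, 0, [1, 3, 5]), (9, 0, [1, 3, 5])]⟩,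
    ⟨[(1, 4), (2, 3), (2, 4), (3, 4)], [(3, 0), (3, 3), (3, 4), (3, 6), (4, 0), (4, 4), (4,
      6)], [(0, 4), (0, 6), (4, 6)], [], [(5, 4, [3]), (9, 0, [1, 3, 5]), (10, 6, [3])]⟩]
  Ta := [((2, 1), 0, 2), ((2, 7), 0, 8), ((9, 8), 0, 9), ((9, 10), 0, 6)]
  Tb := [((0, 1, 4), 1, 2, 5), ((1, 0, 2), 2, 1, 0), ((2, 1, 7), 0, 2, 8), ((3, 4, 6), 3, 5, 7),
    ((4, 0, 3), 5, 1, 3), ((5, 6, 10), 4, 7, 6), ((6, 3, 5), 7, 3, 4), ((7, 2, 8), 8, 0, 9),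
    ((8, 7, 9), 9, 8, 0), ((9, 8, 10), 0, 9, 6), ((10, 5, 9), 6, 4, 0)]
  Tc := [(0, 1, 3), (0, 1, 5), (0, 3, 5), (3, 0, 4), (3, 0, 6), (3, 4, 6)]
  Td := [((0, 1), (2, 1), 2), ((0, 1), (2, 7), 8), ((0, 1), (9, 8), 9), ((0, 1), (9, 10), 6),
    ((0, 3), (2, 1), 2), ((0, 3), (2, 7), 8), ((0, 3), (9, 8), 9), ((0, 3), (9, 10), 6), ((0,
    5), (2, 1), 2), ((0, 5), (2, 7), 8), ((0, 5), (9, 8), 9), ((0, 5), (9, 10), 6), ((1, 0),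
    (0, 1), 2), ((1, 0), (0, 4), 5), ((3, 0), (3, 4), 5), ((3, 0), (3, 6), 7), ((3, 4), (3,
    4), 5), ((3, 4), (3, 6), 7), ((3, 6), (3, 4), 5), ((3, 6), (3, 6), 7), ((4, 3), (5, 6),
    7), ((4, 3), (5, 10), 6), ((5, 0), (4, 0), 1), ((5, 0), (4, 3), 3), ((6, 3), (10, 5), 4),
    ((6, 3), (10, 9), 0)]
  G := [[0, 0x8ac141ee616ea1e41ed67aee7eceef681eca1688bcc, 0xc2223167debade7eceecef168,
    0x8861b44455e817bde7eaebdeeaeef5ce41846a18c9, 0xa21d22235e8c17bdeebdedbceecef5a4e4e1829],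
    [0, 0xae61a4452e61e81e8ce16bde7badbceefcc41641a6818c9, 0,
    0xe661a21ee6b46ecee4fd48178eea88ecaf9e814d841485,
    0xa212222d2e2f57eceebceeeceecf1a4e4e1e8c1c29]]

noncomputable def n355 : Ent := ⟨e355, noF, [], [], []⟩

def c355 : PLift (Cov.check n355.C.D v355 = true) := ⟨by decide +kernel⟩

def b355 : PLift (entF (fidx ts) 400 355 n355 = true) := ⟨by decide +kernel⟩

theorem g355 : GoodF (fidx ts) 400 355 := GoodF.ofV v355 n355 c355.down b355.down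

/-- 467446:303/2 -/
noncomputable def e356 : SCfg where
  D := {
    a := 6
    L := 8
    kp := 6
    inn := [(0, 1), (0, 2), (1, 0), (1, 4), (2, 0), (2, 3), (2, 5), (3, 2), (3, 5), (4, 1), (5, 2), (5,
      3)]
    mix := [(0, 0), (0, 1), (1, 0), (1, 1), (1, 2), (1, 3), (2, 0), (2, 1), (2, 4), (2, 5), (3, 4), (3,
      6), (4, 1), (4, 2), (4, 7), (5, 0), (5, 2), (5, 3), (5, 6)]
    cl := [0, 0, 1, 2, 4, 5, 3, 6]
    chq := [(0, 1), (1, 0), (1, 5), (2, 5), (3, 5), (5, 1), (5, 2), (5, 3)]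
    rng := [(0, 3), (1, 5), (1, 7), (2, 3), (2, 6), (2, 7), (3, 0), (3, 2), (4, 5), (4, 6), (5, 1), (5,
      4), (6, 2), (6, 4), (7, 1), (7, 2)]
    lev := [] }
  links := [[1, 6, 2, 7], [6, 0, 7, 4, 8, 9], [7, 0, 6, 5, 3, 10, 11], [10, 2, 5, 12], [8, 1, 7, 13],
    [12, 3, 2, 6, 9, 8]]
  P := {
    a := 6
    N := 14
    nb := [198, 977, 3305, 5156, 8578, 4940, 551, 10263, 12850, 354, 6156, 1156, 1320, 400]
    tri := [(0, 1, 6), (0, 1, 7), (0, 2, 6), (0, 2, 7), (1, 4, 7), (1, 4, 8), (1, 6, 9), (1, 8, 9), (2,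
      3, 5), (2, 3, 10), (2, 5, 6), (2, 7, 11), (2, 10, 11), (3, 5, 12), (3, 10, 12), (4, 7, 13),
      (4, 8, 13), (5, 6, 9), (5, 8, 9), (5, 8, 12)]
    fin := [0, 0, 2, 3, 0, 2, 0, 0, 8, 9, 10, 2, 3, 13]
    chd := [(0, 8), (2, 3), (8, 2), (9, 2)]
    steps := [(0, 1), (0, 4), (0, 6), (0, 7), (2, 5), (2, 11), (3, 12)] }
  rep := [0, 8, 9, 3, 10, 2, 13]

noncomputable def v356 : Cov.CovD where
  P := 3
  N := 4
  pl := [4, 7]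
  lev := [⟨[], [], [(0, 0)], [], [(0, 0, [1]), (1, 0, [1])]⟩,
    ⟨[], [(0, 0), (0, 1), (0, 2)], [(0, 0), (0, 1), (0, 2), (1, 2)], [], [(0, 0, [1]), (1,
      0, [1]), (2, 1, [0, 5]), (3, 2, [5])]⟩,
    ⟨[(0, 1)], [(0, 0), (0, 5), (1, 0)], [(0, 0), (0, 5)], [4], [(0, 0, [1]), (1, 0, [1]),
      (5, 5, [1, 2, 3])]⟩,
    ⟨[(0, 2)], [(2, 0), (2, 3), (2, 5)], [], [4], [(6, 3, [5])]⟩,
    ⟨[(0, 1)], [(0, 0), (1, 0), (1, 1), (1, 2), (2, 0)], [(0, 1)], [6], [(1, 0, [1]), (2,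
      1, [0, 5])]⟩,
    ⟨[(0, 2), (2, 3)], [(0, 0), (1, 0), (1, 1), (1, 2), (2, 0), (2, 1), (2, 2), (2, 3), (2,
      5), (3, 0), (3, 1), (3, 2), (3, 3), (4, 1)], [(0, 1), (0, 2), (0, 3), (1, 2), (1, 3),
      (2, 3)], [], [(0, 0, [1]), (2, 1, [0, 5]), (3, 2, [5]), (6, 3, [5])]⟩]
  Ta := [((0, 3), 0, 2), ((1, 5), 0, 5), ((1, 7), 0, 6)]
  Tb := [((1, 5, 7), 0, 5, 6), ((2, 3, 6), 1, 2, 3), ((2, 3, 7), 1, 2, 6), ((2, 6, 7), 1, 3, 6),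
    ((3, 0, 2), 2, 0, 1), ((4, 5, 6), 4, 5, 3), ((5, 1, 4), 5, 0, 4), ((6, 2, 4), 3, 1, 4),
    ((7, 1, 2), 6, 0, 1)]
  Tc := [(1, 0, 5), (5, 1, 2), (5, 1, 3), (5, 2, 3)]
  Td := [((0, 1), (0, 3), 2), ((0, 1), (1, 5), 5), ((0, 1), (1, 7), 6), ((1, 0), (2, 3), 2), ((1,
    0), (2, 6), 3), ((1, 0), (2, 7), 6), ((1, 5), (2, 3), 2), ((1, 5), (2, 6), 3), ((1, 5),
    (2, 7), 6), ((2, 5), (3, 0), 0), ((2, 5), (3, 2), 1), ((3, 5), (6, 2), 1), ((3, 5), (6,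
    4), 4), ((5, 1), (5, 1), 0), ((5, 1), (5, 4), 4), ((5, 2), (5, 1), 0), ((5, 2), (5, 4),
    4), ((5, 3), (5, 1), 0), ((5, 3), (5, 4), 4)]
  G := [[0, 0x446488c18cc4844cde48, 0x4148181c8181c1be48, 0xc14818c12e84,
    0x81c1a2841619a1815c86], [0, 0x44a4cca1a488c8486, 0, 0xc8c44588c89cc2e84,
    0x99c11c688c82a88c19c81cee84]]

noncomputable def n356 : Ent := ⟨e356, noF, [], [], []⟩

def c356 : PLift (Cov.check n356.C.D v356 = true) := ⟨by decide +kernel⟩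

def b356 : PLift (entF (fidx ts) 400 356 n356 = true) := ⟨by decide +kernel⟩

theorem g356 : GoodF (fidx ts) 400 356 := GoodF.ofV v356 n356 c356.down b356.down

/-- 467446:303/3 -/
noncomputable def e357 : SCfg where
  D := {
    a := 6
    L := 8
    kp := 6
    inn := [(0, 1), (0, 2), (1, 0), (1, 4), (2, 0), (2, 3), (2, 5), (3, 2), (3, 5), (4, 1), (5, 2), (5,
      3)]
    mix := [(0, 0), (0, 1), (1, 0), (1, 1), (1, 2), (1, 3), (2, 0), (2, 1), (2, 4), (2, 5), (3, 4), (3,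
      6), (4, 1), (4, 2), (4, 5), (5, 0), (5, 3), (5, 6), (5, 7)]
    cl := [0, 0, 2, 3, 5, 1, 4, 6]
    chq := [(0, 2), (1, 3), (1, 4), (1, 6), (2, 0), (3, 1), (4, 1), (6, 1)]
    rng := [(0, 3), (1, 5), (2, 3), (2, 5), (3, 0), (3, 2), (3, 7), (4, 5), (4, 6), (5, 1), (5, 2), (5,
      4), (6, 4), (6, 7), (7, 3), (7, 6)]
    lev := [] }
  links := [[1, 6, 2, 7], [6, 0, 7, 4, 8, 9], [7, 0, 6, 5, 3, 10, 11], [10, 2, 5, 12], [8, 1, 7, 11],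
    [12, 3, 2, 6, 9, 13]]
  P := {
    a := 6
    N := 14
    nb := [198, 977, 3305, 5156, 2434, 12876, 551, 2071, 2578, 8546, 6156, 1428, 9256, 4640]
    tri := [(0, 1, 6), (0, 1, 7), (0, 2, 6), (0, 2, 7), (1, 4, 7), (1, 4, 8), (1, 6, 9), (1, 8, 9), (2,
      3, 5), (2, 3, 10), (2, 5, 6), (2, 7, 11), (2, 10, 11), (3, 5, 12), (3, 10, 12), (4, 7, 11),
      (4, 8, 11), (5, 6, 9), (5, 9, 13), (5, 12, 13)]
    fin := [0, 0, 2, 3, 0, 2, 0, 0, 8, 9, 10, 2, 3, 13]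
    chd := [(0, 8), (2, 3), (2, 13), (9, 2)]
    steps := [(0, 1), (0, 4), (0, 6), (0, 7), (2, 5), (2, 11), (3, 12)] }
  rep := [0, 2, 8, 9, 3, 10, 13]

noncomputable def v357 : Cov.CovD where
  P := 3
  N := 4
  pl := [4]
  lev := [⟨[], [], [(0, 0)], [], [(0, 0, [2]), (1, 0, [2])]⟩,
    ⟨[], [(0, 0), (0, 2), (0, 3)], [(0, 0), (0, 2), (0, 3), (2, 3)], [], [(0, 0, [2]), (1,
      0, [2]), (2, 2, [0]), (3, 3, [1])]⟩,
    ⟨[(0, 1)], [(0, 0), (0, 1), (1, 0)], [(0, 0), (0, 1)], [5], [(0, 0, [2]), (1, 0, [2]),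
      (5, 1, [3, 4, 6])]⟩,
    ⟨[(0, 2)], [(2, 0), (2, 1), (2, 4)], [], [5], [(6, 4, [1])]⟩,
    ⟨[(0, 1)], [(0, 0), (1, 0), (1, 1), (1, 2), (1, 3), (2, 0), (2, 1)], [(0, 1), (0, 2),
      (1, 2)], [], [(1, 0, [2]), (2, 2, [0]), (5, 1, [3, 4, 6])]⟩,
    ⟨[(0, 2), (2, 3)], [(0, 0), (1, 0), (1, 3), (2, 0), (2, 1), (2, 3), (2, 4), (2, 6), (3,
      0), (3, 3), (3, 4), (3, 6)], [(0, 3), (0, 4), (0, 6), (3, 4), (3, 6), (4, 6)], [], [(0,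
      0, [2]), (3, 3, [1]), (6, 4, [1]), (7, 6, [1])]⟩]
  Ta := [((0, 3), 0, 3), ((1, 5), 0, 1)]
  Tb := [((2, 3, 5), 2, 3, 1), ((3, 0, 2), 3, 0, 2), ((3, 0, 7), 3, 0, 6), ((3, 2, 7), 3, 2, 6),
    ((4, 5, 6), 5, 1, 4), ((5, 1, 2), 1, 0, 2), ((5, 1, 4), 1, 0, 5), ((5, 2, 4), 1, 2, 5),
    ((6, 4, 7), 4, 5, 6), ((7, 3, 6), 6, 3, 4)]
  Tc := [(1, 3, 4), (1, 3, 6), (1, 4, 6)]
  Td := [((0, 2), (0, 3), 3), ((0, 2), (1, 5), 1), ((1, 3), (5, 1), 0), ((1, 3), (5, 2), 2), ((1,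
    3), (5, 4), 5), ((1, 4), (5, 1), 0), ((1, 4), (5, 2), 2), ((1, 4), (5, 4), 5), ((1, 6),
    (5, 1), 0), ((1, 6), (5, 2), 2), ((1, 6), (5, 4), 5), ((2, 0), (2, 3), 3), ((2, 0), (2,
    5), 1), ((3, 1), (3, 0), 0), ((3, 1), (3, 2), 2), ((3, 1), (3, 7), 6), ((4, 1), (6, 4),
    5), ((4, 1), (6, 7), 6), ((6, 1), (7, 3), 3), ((6, 1), (7, 6), 4)]
  G := [[0, 0, 0x24f4ab8283444e24, 0x242282c4282212c8a, 0x2821921285c2828921215ca2], [0,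
    0x1822188182ac188184c1844c6, 0x742a458a87888e28, 0x282242c282282cc2, 0x782a858a87888e28]]

noncomputable def n357 : Ent := ⟨e357, noF, [], [], []⟩

def c357 : PLift (Cov.check n357.C.D v357 = true) := ⟨by decide +kernel⟩

def b357 : PLift (entF (fidx ts) 400 357 n357 = true) := ⟨by decide +kernel⟩

theorem g357 : GoodF (fidx ts) 400 357 := GoodF.ofV v357 n357 c357.down b357.down

/-- 467446:303/1 -/
noncomputable def e358 : SCfg where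
  D := {
    a := 6
    L := 9
    kp := 7
    inn := [(0, 1), (0, 2), (1, 0), (1, 4), (2, 0), (2, 3), (2, 5), (3, 2), (3, 5), (4, 1), (5, 2), (5,
      3)]
    mix := [(0, 0), (0, 1), (1, 0), (1, 1), (1, 2), (1, 3), (2, 0), (2, 1), (2, 4), (2, 5), (3, 4), (3,
      6), (4, 1), (4, 2), (4, 7), (5, 0), (5, 3), (5, 6), (5, 8)]
    cl := [0, 0, 1, 2, 4, 5, 3, 7, 6]
    chq := [(0, 1), (1, 0), (2, 5), (3, 5), (5, 2), (5, 3), (5, 6), (6, 5)]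
    rng := [(0, 3), (1, 5), (1, 7), (2, 3), (2, 7), (3, 0), (3, 2), (3, 8), (4, 5), (4, 6), (5, 1), (5,
      4), (6, 4), (6, 8), (7, 1), (7, 2), (8, 3), (8, 6)]
    lev := [] }
  links := [[1, 6, 2, 7], [6, 0, 7, 4, 8, 9], [7, 0, 6, 5, 3, 10, 11], [10, 2, 5, 12], [8, 1, 7, 13],
    [12, 3, 2, 6, 9, 14]]
  P := {
    a := 6
    N := 15
    nb := [198, 977, 3305, 5156, 8578, 21068, 551, 10263, 8722, 16738, 6156, 1156, 17448, 400, 4640]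
    tri := [(0, 1, 6), (0, 1, 7), (0, 2, 6), (0, 2, 7), (1, 4, 7), (1, 4, 8), (1, 6, 9), (1, 8, 9), (2,
      3, 5), (2, 3, 10), (2, 5, 6), (2, 7, 11), (2, 10, 11), (3, 5, 12), (3, 10, 12), (4, 7, 13),
      (4, 8, 13), (5, 6, 9), (5, 9, 14), (5, 12, 14)]
    fin := [0, 0, 2, 3, 0, 2, 0, 0, 8, 9, 10, 2, 3, 13, 14]
    chd := [(0, 8), (2, 3), (2, 14), (9, 2)]
    steps := [(0, 1), (0, 4), (0, 6), (0, 7), (2, 5), (2, 11), (3, 12)] }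
  rep := [0, 8, 9, 3, 10, 2, 14, 13]

noncomputable def v358 : Cov.CovD where
  P := 3
  N := 5
  pl := [4, 7]
  lev := [⟨[], [], [(0, 0)], [], [(0, 0, [1]), (1, 0, [1])]⟩,
    ⟨[], [(0, 0), (0, 1), (0, 2)], [(0, 0), (0, 1), (0, 2), (1, 2)], [], [(0, 0, [1]), (1,
      0, [1]), (2, 1, [0]), (3, 2, [5])]⟩,
    ⟨[(0, 1)], [(0, 0), (0, 5), (1, 0)], [(0, 0), (0, 5)], [4], [(0, 0, [1]), (1, 0, [1]),
      (5, 5, [2, 3, 6])]⟩,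
    ⟨[(0, 2)], [(2, 0), (2, 3), (2, 5)], [], [4], [(6, 3, [5])]⟩,
    ⟨[(0, 1)], [(0, 0), (1, 0), (1, 1), (1, 2), (2, 0)], [(0, 1)], [7], [(1, 0, [1]), (2,
      1, [0])]⟩,
    ⟨[(0, 2), (2, 3)], [(0, 0), (1, 0), (1, 2), (2, 0), (2, 2), (2, 3), (2, 5), (2, 6), (3,
      0), (3, 2), (3, 3), (3, 6)], [(0, 2), (0, 3), (0, 6), (2, 3), (2, 6), (3, 6)], [], [(0,
      0, [1]), (3, 2, [5]), (6, 3, [5]), (8, 6, [5])]⟩]
  Ta := [((0, 3), 0, 2), ((1, 5), 0, 5), ((1, 7), 0, 7)]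
  Tb := [((1, 5, 7), 0, 5, 7), ((2, 3, 7), 1, 2, 7), ((3, 0, 2), 2, 0, 1), ((3, 0, 8), 2, 0, 6),
    ((3, 2, 8), 2, 1, 6), ((4, 5, 6), 4, 5, 3), ((5, 1, 4), 5, 0, 4), ((6, 4, 8), 3, 4, 6),
    ((7, 1, 2), 7, 0, 1), ((8, 3, 6), 6, 2, 3)]
  Tc := [(5, 2, 3), (5, 2, 6), (5, 3, 6)]
  Td := [((0, 1), (0, 3), 2), ((0, 1), (1, 5), 5), ((0, 1), (1, 7), 7), ((1, 0), (2, 3), 2), ((1,
    0), (2, 7), 7), ((2, 5), (3, 0), 0), ((2, 5), (3, 2), 1), ((2, 5), (3, 8), 6), ((3, 5),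
    (6, 4), 4), ((3, 5), (6, 8), 6), ((5, 2), (5, 1), 0), ((5, 2), (5, 4), 4), ((5, 3), (5,
    1), 0), ((5, 3), (5, 4), 4), ((5, 6), (5, 1), 0), ((5, 6), (5, 4), 4), ((6, 5), (8, 3),
    2), ((6, 5), (8, 6), 3)]
  G := [[0, 0x144eddc44799add6a88cc4cc2de42, 0xa1a15c1c13686161988c, 0x818154441419c1c13a4c,
    0xc1c132861619a1a15c86], [0, 0x6254d468f98a2d1c84fc8ac4682de42, 0,
    0xddcccc32455c499c8c8a, 0x37c983864fcdcccc3a8bbcaac5486]]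

noncomputable def n358 : Ent := ⟨e358, noF, [], [], [(14, 8, [81620716623019490626259338160855783265958941731545633144833, 0]), (11, 13, [87897818358406171357428020359653357189577334862559919362049, 0])]⟩

def c358 : PLift (Cov.check n358.C.D v358 = true) := ⟨by decide +kernel⟩

def b358 : PLift (entF (fidx ts) 400 358 n358 = true) := ⟨by decide +kernel⟩

theorem g358 : GoodF (fidx ts) 400 358 := GoodF.ofV v358 n358 c358.down b358.down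

/-- 467446:303/4 -/
noncomputable def e359 : SCfg where
  D := {
    a := 6
    L := 9
    kp := 7
    inn := [(0, 1), (0, 2), (1, 0), (1, 4), (2, 0), (2, 3), (2, 5), (3, 2), (3, 5), (4, 1), (5, 2), (5,
      3)]
    mix := [(0, 0), (0, 1), (1, 0), (1, 1), (1, 2), (1, 3), (2, 0), (2, 1), (2, 4), (2, 5), (3, 4), (3,
      6), (4, 1), (4, 2), (4, 7), (5, 0), (5, 2), (5, 6), (5, 8)]
    cl := [0, 0, 1, 6, 4, 2, 3, 7, 5]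
    chq := [(0, 1), (1, 0), (1, 2), (2, 1), (2, 3), (2, 5), (3, 2), (5, 2)]
    rng := [(0, 3), (0, 8), (1, 5), (1, 7), (2, 3), (2, 6), (2, 7), (2, 8), (3, 0), (3, 2), (4, 5), (4,
      6), (5, 1), (5, 4), (6, 2), (6, 4), (7, 1), (7, 2), (8, 0), (8, 2)]
    lev := [] }
  links := [[1, 6, 2, 7], [6, 0, 7, 4, 8, 9], [7, 0, 6, 5, 3, 10, 11], [10, 2, 5, 12], [8, 1, 7, 13],
    [12, 3, 2, 6, 14, 8]]
  P := {
    a := 6
    N := 15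
    nb := [198, 977, 3305, 5156, 8578, 20812, 16935, 10263, 29234, 322, 6156, 1156, 1320, 400, 352]
    tri := [(0, 1, 6), (0, 1, 7), (0, 2, 6), (0, 2, 7), (1, 4, 7), (1, 4, 8), (1, 6, 9), (1, 8, 9), (2,
      3, 5), (2, 3, 10), (2, 5, 6), (2, 7, 11), (2, 10, 11), (3, 5, 12), (3, 10, 12), (4, 7, 13),
      (4, 8, 13), (5, 6, 14), (5, 8, 12), (5, 8, 14)]
    fin := [0, 0, 2, 3, 0, 2, 0, 0, 8, 9, 10, 2, 3, 13, 14]
    chd := [(0, 8), (2, 3), (2, 14), (8, 2)]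
    steps := [(0, 1), (0, 4), (0, 6), (0, 7), (2, 5), (2, 11), (3, 12)] }
  rep := [0, 8, 2, 3, 10, 14, 9, 13]

noncomputable def v359 : Cov.CovD where
  P := 3
  N := 5
  pl := [3, 4, 7]
  lev := [⟨[], [], [(0, 0)], [], [(0, 0, [1]), (1, 0, [1])]⟩,
    ⟨[], [(0, 0), (0, 1)], [(0, 0), (0, 1)], [6], [(0, 0, [1]), (1, 0, [1]), (2, 1, [0,
      2])]⟩,
    ⟨[(0, 1)], [(0, 0), (0, 2), (1, 0)], [(0, 0), (0, 2)], [4], [(0, 0, [1]), (1, 0, [1]),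
      (5, 2, [1, 3, 5])]⟩,
    ⟨[(0, 2)], [(2, 0), (2, 2), (2, 3)], [], [4], [(6, 3, [2])]⟩,
    ⟨[(0, 1)], [(0, 0), (1, 0), (1, 1), (2, 0)], [(0, 1)], [7], [(1, 0, [1]), (2, 1, [0,
      2])]⟩,
    ⟨[(0, 2), (2, 3)], [(0, 0), (1, 0), (1, 1), (2, 0), (2, 1), (2, 2), (2, 3), (2, 5), (3,
      0), (3, 1), (3, 3), (3, 5), (4, 1)], [(0, 1), (0, 3), (0, 5), (1, 3), (1, 5), (3, 5)],
      [], [(0, 0, [1]), (2, 1, [0, 2]), (6, 3, [2]), (8, 5, [2])]⟩]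
  Ta := [((0, 3), 0, 6), ((0, 8), 0, 5), ((1, 5), 0, 2), ((1, 7), 0, 7)]
  Tb := [((0, 3, 8), 0, 6, 5), ((1, 5, 7), 0, 2, 7), ((2, 3, 6), 1, 6, 3), ((2, 3, 7), 1, 6, 7),
    ((2, 3, 8), 1, 6, 5), ((2, 6, 7), 1, 3, 7), ((2, 6, 8), 1, 3, 5), ((2, 7, 8), 1, 7, 5),
    ((3, 0, 2), 6, 0, 1), ((4, 5, 6), 4, 2, 3), ((5, 1, 4), 2, 0, 4), ((6, 2, 4), 3, 1, 4),
    ((7, 1, 2), 7, 0, 1), ((8, 0, 2), 5, 0, 1)]
  Tc := [(1, 0, 2), (2, 1, 3), (2, 1, 5), (2, 3, 5)]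
  Td := [((0, 1), (0, 3), 6), ((0, 1), (0, 8), 5), ((0, 1), (1, 5), 2), ((0, 1), (1, 7), 7), ((1,
    0), (2, 3), 6), ((1, 0), (2, 6), 3), ((1, 0), (2, 7), 7), ((1, 0), (2, 8), 5), ((1, 2),
    (2, 3), 6), ((1, 2), (2, 6), 3), ((1, 2), (2, 7), 7), ((1, 2), (2, 8), 5), ((2, 1), (5,
    1), 0), ((2, 1), (5, 4), 4), ((2, 3), (5, 1), 0), ((2, 3), (5, 4), 4), ((2, 5), (5, 1),
    0), ((2, 5), (5, 4), 4), ((3, 2), (6, 2), 1), ((3, 2), (6, 4), 4), ((5, 2), (8, 0), 0),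
    ((5, 2), (8, 2), 1)]
  G := [[0, 0xe4222a1ce828e2222a1ce4, 0, 0x2121921215c2121921215cc2,
    0x4141941413a4141941413ac4], [0, 0x22aac6422c1284c624e6aa2261c8c,
    0x1422411c811c2a1822c11c4411c811c4cce, 0x11c2ddc2ccc8e28,
    0x55c488c844c44c3e444c44c911c44c6a8c]]

noncomputable def n359 : Ent := ⟨e359, noF, [], [], [(14, 9, [81620716623019602097318223589561398452066342659903414747137, 0])]⟩

def c359 : PLift (Cov.check n359.C.D v359 = true) := ⟨by decide +kernel⟩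

def b359 : PLift (entF (fidx ts) 400 359 n359 = true) := ⟨by decide +kernel⟩

theorem g359 : GoodF (fidx ts) 400 359 := GoodF.ofV v359 n359 c359.down b359.down

/-- 467446:303/5 -/
noncomputable def e360 : SCfg where
  D := {
    a := 6
    L := 9
    kp := 7
    inn := [(0, 1), (0, 2), (1, 0), (1, 4), (2, 0), (2, 3), (2, 5), (3, 2), (3, 5), (4, 1), (5, 2), (5,
      3)]
    mix := [(0, 0), (0, 1), (1, 0), (1, 1), (1, 2), (1, 3), (2, 0), (2, 1), (2, 4), (2, 5), (3, 4), (3,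
      6), (4, 1), (4, 2), (4, 5), (5, 0), (5, 6), (5, 7), (5, 8)]
    cl := [0, 0, 3, 7, 2, 1, 4, 5, 6]
    chq := [(0, 3), (1, 4), (1, 5), (1, 6), (3, 0), (4, 1), (5, 1), (6, 1)]
    rng := [(0, 3), (0, 7), (1, 5), (2, 3), (2, 5), (3, 0), (3, 2), (4, 5), (4, 6), (5, 1), (5, 2), (5,
      4), (6, 4), (6, 8), (7, 0), (7, 8), (8, 6), (8, 7)]
    lev := [] }
  links := [[1, 6, 2, 7], [6, 0, 7, 4, 8, 9], [7, 0, 6, 5, 3, 10, 11], [10, 2, 5, 12], [8, 1, 7, 11],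
    [12, 3, 2, 6, 13, 14]]
  P := {
    a := 6
    N := 15
    nb := [198, 977, 3305, 5156, 2434, 28748, 8743, 2071, 2578, 322, 6156, 1428, 17448, 16480, 12320]
    tri := [(0, 1, 6), (0, 1, 7), (0, 2, 6), (0, 2, 7), (1, 4, 7), (1, 4, 8), (1, 6, 9), (1, 8, 9), (2,
      3, 5), (2, 3, 10), (2, 5, 6), (2, 7, 11), (2, 10, 11), (3, 5, 12), (3, 10, 12), (4, 7, 11),
      (4, 8, 11), (5, 6, 13), (5, 12, 14), (5, 13, 14)]
    fin := [0, 0, 2, 3, 0, 2, 0, 0, 8, 9, 10, 2, 3, 13, 14]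
    chd := [(0, 8), (2, 3), (2, 13), (2, 14)]
    steps := [(0, 1), (0, 4), (0, 6), (0, 7), (2, 5), (2, 11), (3, 12)] }
  rep := [0, 2, 10, 8, 3, 13, 14, 9]

noncomputable def v360 : Cov.CovD where
  P := 3
  N := 5
  pl := [3, 4]
  lev := [⟨[], [], [(0, 0)], [], [(0, 0, [3]), (1, 0, [3])]⟩,
    ⟨[], [(0, 0), (0, 3)], [(0, 0), (0, 3)], [7], [(0, 0, [3]), (1, 0, [3]), (2, 3, [0])]⟩,
    ⟨[(0, 1)], [(0, 0), (0, 1), (1, 0)], [(0, 0), (0, 1)], [2], [(0, 0, [3]), (1, 0, [3]),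
      (5, 1, [4, 5, 6])]⟩,
    ⟨[(0, 2)], [(2, 0), (2, 1), (2, 4)], [], [2], [(6, 4, [1])]⟩,
    ⟨[(0, 1)], [(0, 0), (1, 0), (1, 1), (1, 3), (2, 0), (2, 1)], [(0, 1), (0, 3), (1, 3)],
      [], [(1, 0, [3]), (2, 3, [0]), (5, 1, [4, 5, 6])]⟩,
    ⟨[(0, 2), (2, 3)], [(0, 0), (1, 0), (2, 0), (2, 1), (2, 4), (2, 5), (2, 6), (3, 0), (3,
      4), (3, 5), (3, 6)], [(0, 4), (0, 5), (0, 6), (4, 5), (4, 6), (5, 6)], [], [(0, 0,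
      [3]), (6, 4, [1]), (7, 5, [1]), (8, 6, [1])]⟩]
  Ta := [((0, 3), 0, 7), ((0, 7), 0, 5), ((1, 5), 0, 1)]
  Tb := [((0, 3, 7), 0, 7, 5), ((2, 3, 5), 3, 7, 1), ((3, 0, 2), 7, 0, 3), ((4, 5, 6), 2, 1, 4),
    ((5, 1, 2), 1, 0, 3), ((5, 1, 4), 1, 0, 2), ((5, 2, 4), 1, 3, 2), ((6, 4, 8), 4, 2, 6),
    ((7, 0, 8), 5, 0, 6), ((8, 6, 7), 6, 4, 5)]
  Tc := [(1, 4, 5), (1, 4, 6), (1, 5, 6)]
  Td := [((0, 3), (0, 3), 7), ((0, 3), (0, 7), 5), ((0, 3), (1, 5), 1), ((1, 4), (5, 1), 0), ((1,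
    4), (5, 2), 3), ((1, 4), (5, 4), 2), ((1, 5), (5, 1), 0), ((1, 5), (5, 2), 3), ((1, 5),
    (5, 4), 2), ((1, 6), (5, 1), 0), ((1, 6), (5, 2), 3), ((1, 6), (5, 4), 2), ((3, 0), (2,
    3), 7), ((3, 0), (2, 5), 1), ((4, 1), (6, 4), 2), ((4, 1), (6, 8), 6), ((5, 1), (7, 0),
    0), ((5, 1), (7, 8), 6), ((6, 1), (8, 6), 4), ((6, 1), (8, 7), 5)]
  G := [[0, 0, 0x2828c42424c82121c8e2, 0x2828982424c8212154e2, 0x282898242498212198e2], [0,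
    0x1414c41212c461818c48a, 0x2828c82424c822c22cc4e2, 0x28289822c22cc8a24245446,
    0x28289824249822c22c98e2]]

noncomputable def n360 : Ent := ⟨e360, noF, [], [], [(13, 9, [87897818358406260560408814482145923332450425456005943283713, 0])]⟩

def c360 : PLift (Cov.check n360.C.D v360 = true) := ⟨by decide +kernel⟩

def b360 : PLift (entF (fidx ts) 400 360 n360 = true) := ⟨by decide +kernel⟩

theorem g360 : GoodF (fidx ts) 400 360 := GoodF.ofV v360 n360 c360.down b360.down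

/-- 467446:303 -/
noncomputable def e361 : SCfg where
  D := {
    a := 6
    L := 10
    kp := 8
    inn := [(0, 1), (0, 2), (1, 0), (1, 4), (2, 0), (2, 3), (2, 5), (3, 2), (3, 5), (4, 1), (5, 2), (5,
      3)]
    mix := [(0, 0), (0, 1), (1, 0), (1, 1), (1, 2), (1, 3), (2, 0), (2, 1), (2, 4), (2, 5), (3, 4), (3,
      6), (4, 1), (4, 2), (4, 7), (5, 0), (5, 6), (5, 8), (5, 9)]
    cl := [0, 0, 3, 7, 1, 2, 4, 8, 5, 6]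
    chq := [(0, 3), (2, 4), (2, 5), (2, 6), (3, 0), (4, 2), (5, 2), (6, 2)]
    rng := [(0, 3), (0, 8), (1, 5), (1, 7), (2, 3), (2, 7), (3, 0), (3, 2), (4, 5), (4, 6), (5, 1), (5,
      4), (6, 4), (6, 9), (7, 1), (7, 2), (8, 0), (8, 9), (9, 6), (9, 8)]
    lev := [] }
  links := [[1, 6, 2, 7], [6, 0, 7, 4, 8, 9], [7, 0, 6, 5, 3, 10, 11], [10, 2, 5, 12], [8, 1, 7, 13],
    [12, 3, 2, 6, 14, 15]]
  P := {
    a := 6
    N := 16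
    nb := [198, 977, 3305, 5156, 8578, 53324, 16935, 10263, 8722, 322, 6156, 1156, 33832, 400, 32864,
      20512]
    tri := [(0, 1, 6), (0, 1, 7), (0, 2, 6), (0, 2, 7), (1, 4, 7), (1, 4, 8), (1, 6, 9), (1, 8, 9), (2,
      3, 5), (2, 3, 10), (2, 5, 6), (2, 7, 11), (2, 10, 11), (3, 5, 12), (3, 10, 12), (4, 7, 13),
      (4, 8, 13), (5, 6, 14), (5, 12, 15), (5, 14, 15)]
    fin := [0, 0, 2, 3, 0, 2, 0, 0, 8, 9, 10, 2, 3, 13, 14, 15]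
    chd := [(0, 8), (2, 3), (2, 14), (2, 15)]
    steps := [(0, 1), (0, 4), (0, 6), (0, 7), (2, 5), (2, 11), (3, 12)] }
  rep := [0, 10, 2, 8, 3, 14, 15, 9, 13]

noncomputable def v361 : Cov.CovD where
  P := 3
  N := 6
  pl := [3, 4, 7]
  lev := [⟨[], [], [(0, 0)], [], [(0, 0, [3]), (1, 0, [3])]⟩,
    ⟨[], [(0, 0), (0, 3)], [(0, 0), (0, 3)], [7], [(0, 0, [3]), (1, 0, [3]), (2, 3, [0])]⟩,
    ⟨[(0, 1)], [(0, 0), (0, 2), (1, 0)], [(0, 0), (0, 2)], [1], [(0, 0, [3]), (1, 0, [3]),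
      (5, 2, [4, 5, 6])]⟩,
    ⟨[(0, 2)], [(2, 0), (2, 2), (2, 4)], [], [1], [(6, 4, [2])]⟩,
    ⟨[(0, 1)], [(0, 0), (1, 0), (1, 3), (2, 0)], [(0, 3)], [8], [(1, 0, [3]), (2, 3, [0])]⟩,
    ⟨[(0, 2), (2, 3)], [(0, 0), (1, 0), (2, 0), (2, 2), (2, 4), (2, 5), (2, 6), (3, 0), (3,
      4), (3, 5), (3, 6)], [(0, 4), (0, 5), (0, 6), (4, 5), (4, 6), (5, 6)], [], [(0, 0,
      [3]), (6, 4, [2]), (8, 5, [2]), (9, 6, [2])]⟩]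
  Ta := [((0, 3), 0, 7), ((0, 8), 0, 5), ((1, 5), 0, 2), ((1, 7), 0, 8)]
  Tb := [((0, 3, 8), 0, 7, 5), ((1, 5, 7), 0, 2, 8), ((2, 3, 7), 3, 7, 8), ((3, 0, 2), 7, 0, 3),
    ((4, 5, 6), 1, 2, 4), ((5, 1, 4), 2, 0, 1), ((6, 4, 9), 4, 1, 6), ((7, 1, 2), 8, 0, 3),
    ((8, 0, 9), 5, 0, 6), ((9, 6, 8), 6, 4, 5)]
  Tc := [(2, 4, 5), (2, 4, 6), (2, 5, 6)]
  Td := [((0, 3), (0, 3), 7), ((0, 3), (0, 8), 5), ((0, 3), (1, 5), 2), ((0, 3), (1, 7), 8), ((2,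
    4), (5, 1), 0), ((2, 4), (5, 4), 1), ((2, 5), (5, 1), 0), ((2, 5), (5, 4), 1), ((2, 6),
    (5, 1), 0), ((2, 6), (5, 4), 1), ((3, 0), (2, 3), 7), ((3, 0), (2, 7), 8), ((4, 2), (6,
    4), 1), ((4, 2), (6, 9), 6), ((5, 2), (8, 0), 0), ((5, 2), (8, 9), 6), ((6, 2), (9, 6),
    4), ((6, 2), (9, 8), 5)]
  G := [[0, 0x225225c8223223c8229229c8e4, 0, 0x21222ec821222b98222721c8e4,
    0x445443984494499844344598e4], [0, 0x226226f8e4222e222ec46222e222ec88c,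
    0x111e111ec4111e4111e8c6111e111ec88a, 0x222e222ec82222e222e98222e222e94c6,
    0x444e444e98444e444e98a444e444e9846]]

noncomputable def n361 : Ent := ⟨e361, noF, [], [], [(14, 9, [385746751338780685732168220385468586003780784850530183903862785, 0]), (15, 8, [360035742630636841212031212540452013763654843542796049048825857, 0]), (11, 13, [385753028440516072301428330182238677962518295842732840408481793, 0])]⟩

def c361 : PLift (Cov.check n361.C.D v361 = true) := ⟨by decide +kernel⟩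

def b361 : PLift (entF (fidx ts) 400 361 n361 = true) := ⟨by decide +kernel⟩

theorem g361 : GoodF (fidx ts) 400 361 := GoodF.ofV v361 n361 c361.down b361.down

/-- The entries 191 to 361. -/
theorem rE1 : Rng (GoodF (fidx ts) 400) 191 362 :=
  ((((((((((((((((((((((((((((((((((((((((((((((((((((((((((((((((((((((((((((((((((((((((((((((((((((((((((((((((((((((((((((((((((((((((((((((((((((((((((((((((((((((((((((Rng.nil _ 191).snoc g191 rfl).snoc g192 rfl).snoc g193 rfl).snoc g194 rfl).snoc g195 rfl).snoc g196 rfl).snoc g197 rfl).snoc g198 rfl).snoc g199 rfl).snoc g200 rfl).snoc g201 rfl).snoc g202 rfl).snoc g203 rfl).snoc g204 rfl).snoc g205 rfl).snoc g206 rfl).snoc g207 rfl).snoc g208 rfl).snoc g209 rfl).snoc g210 rfl).snoc g211 rfl).snoc g212 rfl).snoc g213 rfl).snoc g214 rfl).snoc g215 rfl).snoc g216 rfl).snoc g217 rfl).snoc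 g218 rfl).snoc g219 rfl).snoc g220 rfl).snoc g221 rfl).snoc g222 rfl).snoc g223 rfl).snoc g224 rfl).snoc g225 rfl).snoc g226 rfl).snoc g227 rfl).snoc g228 rfl).snoc g229 rfl).snoc g230 rfl).snoc g231 rfl).snoc g232 rfl).snoc g233 rfl).snoc g234 rfl).snoc g235 rfl).snoc g236 rfl).snoc g237 rfl).snoc g238 rfl).snoc g239 rfl).snoc g240 rfl).snoc g241 rfl).snoc g242 rfl).snoc g243 rfl).snoc g244 rfl).snoc g245 rfl).snoc g246 rfl).snoc g247 rfl).snoc g248 rfl).snoc g249 rfl).snoc g250 rfl).snoc g251 rfl).snoc g252 rfl).snoc g253 rfl).snoc g254 rfl).snoc g255 rfl).snoc g256 rfl).snoc g257 rfl).snoc g258 rfl).snoc g259 rfl).snoc g260 rfl).snoc g261 rfl).snoc g262 rfl).snoc g263 rfl).snoc g264 rfl).snoc g265 rfl).snoc g266 rfl).snoc g267 rfl).snoc g268 rfl).snoc g269 rfl).snoc g270 rfl).snoc g271 rfl).snoc g272 rfl).snoc g273 rfl).snoc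 g274 rfl).snoc g275 rfl).snoc g276 rfl).snoc g277 rfl).snoc g278 rfl).snoc g279 rfl).snoc g280 rfl).snoc g281 rfl).snoc g282 rfl).snoc g283 rfl).snoc g284 rfl).snoc g285 rfl).snoc g286 rfl).snoc g287 rfl).snoc g288 rfl).snoc g289 rfl).snoc g290 rfl).snoc g291 rfl).snoc g292 rfl).snoc g293 rfl).snoc g294 rfl).snoc g295 rfl).snoc g296 rfl).snoc g297 rfl).snoc g298 rfl).snoc g299 rfl).snoc g300 rfl).snoc g301 rfl).snoc g302 rfl).snoc g303 rfl).snoc g304 rfl).snoc g305 rfl).snoc g306 rfl).snoc g307 rfl).snoc g308 rfl).snoc g309 rfl).snoc g310 rfl).snoc g311 rfl).snoc g312 rfl).snoc g313 rfl).snoc g314 rfl).snoc g315 rfl).snoc g316 rfl).snoc g317 rfl).snoc g318 rfl).snoc g319 rfl).snoc g320 rfl).snoc g321 rfl).snoc g322 rfl).snoc g323 rfl).snoc g324 rfl).snoc g325 rfl).snoc g326 rfl).snoc g327 rfl).snoc g328 rfl).snoc g329 rfl).snoc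 g330 rfl).snoc g331 rfl).snoc g332 rfl).snoc g333 rfl).snoc g334 rfl).snoc g335 rfl).snoc g336 rfl).snoc g337 rfl).snoc g338 rfl).snoc g339 rfl).snoc g340 rfl).snoc g341 rfl).snoc g342 rfl).snoc g343 rfl).snoc g344 rfl).snoc g345 rfl).snoc g346 rfl).snoc g347 rfl).snoc g348 rfl).snoc g349 rfl).snoc g350 rfl).snoc g351 rfl).snoc g352 rfl).snoc g353 rfl).snoc g354 rfl).snoc g355 rfl).snoc g356 rfl).snoc g357 rfl).snoc g358 rfl).snoc g359 rfl).snoc g360 rfl).snoc g361 rfl)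

end Pool.Agent.W986.ST.Dat
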