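import Pool.Agent.W986.Dat.Tab
import Pool.Agent.W986.SubAltB

/-!
# Entries 1557 to 1678 of the table
-/

set_option autoImplicit false

namespace Pool.Agent.W986.ST.Dat

/-- 475465:1266/7 -/
noncomputable def e1557 : SCfg where
  D := {
    a := 6
    L := 9
    kp := 6
    inn := [(0, 1), (1, 0), (1, 2), (1, 3), (2, 1), (2, 4), (3, 1), (4, 2), (4, 5), (5, 4)]
    mix := [(0, 0), (0, 1), (0, 2), (1, 0), (1, 2), (1, 3), (1, 4), (2, 2), (2, 3), (2, 5), (3, 3), (3,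
      4), (3, 6), (4, 2), (4, 5), (4, 7), (4, 8), (5, 4), (5, 5), (5, 6), (5, 8)]
    cl := [2, 5, 0, 0, 3, 1, 4, 6, 1]
    chq := [(0, 2), (2, 0), (2, 4), (4, 2)]
    rng := [(0, 1), (0, 4), (1, 0), (1, 2), (2, 1), (2, 7), (3, 5), (3, 6), (4, 0), (4, 6), (4, 8), (5,
      3), (5, 6), (6, 3), (6, 4), (6, 5), (7, 2), (7, 8), (8, 4), (8, 7)]
    lev := [] }
  links := [[1, 6, 7, 8], [6, 0, 8, 2, 9, 3, 10], [9, 1, 8, 4, 11], [10, 1, 9, 12], [11, 2, 8, 13, 14,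
    5], [11, 4, 14, 10, 12]]
  P := {
    a := 6
    N := 15
    nb := [450, 1869, 2834, 5634, 26916, 23568, 1155, 321, 8343, 6158, 20586, 4660, 3624, 16656, 9264]
    tri := [(0, 1, 6), (0, 1, 8), (0, 6, 7), (0, 7, 8), (1, 2, 8), (1, 2, 9), (1, 3, 9), (1, 3, 10),
      (1, 6, 10), (2, 4, 8), (2, 4, 11), (2, 9, 11), (3, 9, 12), (3, 10, 12), (4, 5, 11), (4, 5,
      14), (4, 8, 13), (4, 13, 14), (5, 10, 12), (5, 10, 14), (5, 11, 12)]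
    fin := [0, 0, 2, 0, 2, 5, 0, 7, 2, 2, 10, 5, 12, 13, 5]
    chd := [(0, 2), (0, 12)]
    steps := [(0, 1), (0, 3), (0, 6), (2, 4), (2, 8), (2, 9), (5, 14), (5, 11)] }
  rep := [2, 5, 0, 10, 12, 7, 13]

noncomputable def v1557 : Cov.CovD where
  P := 3
  N := 4
  pl := [1, 4, 7]
  lev := [⟨[], [], [(0, 2)], [5], [(0, 2, [0, 4]), (2, 0, [2])]⟩,
    ⟨[], [(0, 0), (0, 2)], [(0, 0), (0, 2)], [3], [(0, 2, [0, 4]), (2, 0, [2]), (3, 0,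
      [2])]⟩,
    ⟨[(0, 1)], [(0, 0), (1, 0), (1, 1), (1, 2)], [(0, 0), (0, 1)], [], [(2, 0, [2]), (3, 0,
      [2]), (5, 1, [])]⟩,
    ⟨[(0, 1), (1, 2)], [(1, 0), (1, 2), (1, 4), (2, 0)], [(0, 4)], [3], [(3, 0, [2]), (6,
      4, [2])]⟩,
    ⟨[(1, 2)], [(0, 0), (1, 0), (2, 0), (2, 1)], [(0, 1), (1, 1)], [6], [(2, 0, [2]), (5,
      1, []), (8, 1, [])]⟩,
    ⟨[(2, 4)], [(2, 1), (3, 4), (4, 0), (4, 1), (4, 4)], [(1, 1), (1, 4)], [3], [(5, 1,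
      []), (6, 4, [2]), (8, 1, [])]⟩]
  Ta := [((2, 1), 0, 5), ((2, 7), 0, 6), ((3, 5), 0, 1), ((3, 6), 0, 4), ((5, 3), 1, 0), ((5, 6),
    1, 4), ((8, 4), 1, 3), ((8, 7), 1, 6)]
  Tb := [((0, 1, 4), 2, 5, 3), ((1, 0, 2), 5, 2, 0), ((2, 1, 7), 0, 5, 6), ((3, 5, 6), 0, 1, 4),
    ((4, 0, 6), 3, 2, 4), ((4, 0, 8), 3, 2, 1), ((4, 6, 8), 3, 4, 1), ((5, 3, 6), 1, 0, 4),
    ((6, 3, 4), 4, 0, 3), ((6, 3, 5), 4, 0, 1), ((6, 4, 5), 4, 3, 1), ((7, 2, 8), 6, 0, 1),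
    ((8, 4, 7), 1, 3, 6)]
  Tc := [(2, 0, 4)]
  Td := [((0, 2), (2, 1), 5), ((0, 2), (2, 7), 6), ((0, 2), (3, 5), 1), ((0, 2), (3, 6), 4), ((2,
    0), (0, 1), 5), ((2, 0), (0, 4), 3), ((2, 4), (0, 1), 5), ((2, 4), (0, 4), 3), ((4, 2),
    (6, 3), 0), ((4, 2), (6, 4), 3), ((4, 2), (6, 5), 1)]
  G := [[0, 0, 0x11c18211c1426, 0x99c2455c28cd9c244411c38cc, 0x442c8c11c5c2c44c811c5c2a], [0, 0,
    0x11c18411c18211c148e, 0x11c24ddc22c91c245dc28cc, 0x11c144dc28ac448187241c18aa], [0,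
    0x88c22ca244622668c1, 0x11c14211c182c, 0x942982c55c28c1, 0x8141c428141c8211c242b], [0, 0,
    0x11c24211c12811c124e, 0x99c2455c28c1, 0x88c11cc255c28a1]]

noncomputable def n1557 : Ent := ⟨e1557, noF, [], [], [(7, 13, [87897818358406171357428020359653357189577334862559924260865, 0])]⟩

def c1557 : PLift (Cov.check n1557.C.D v1557 = true) := ⟨by decide +kernel⟩

def b1557 : PLift (entF (fidx ts) 400 1557 n1557 = true) := ⟨by decide +kernel⟩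

theorem g1557 : GoodF (fidx ts) 400 1557 := GoodF.ofV v1557 n1557 c1557.down b1557.down

/-- 475465:1266/6 -/
noncomputable def e1558 : SCfg where
  D := {
    a := 6
    L := 10
    kp := 7
    inn := [(0, 1), (1, 0), (1, 2), (1, 3), (2, 1), (2, 4), (3, 1), (4, 2), (4, 5), (5, 4)]
    mix := [(0, 0), (0, 1), (0, 2), (1, 0), (1, 2), (1, 3), (1, 4), (2, 2), (2, 3), (2, 5), (3, 3), (3,
      4), (3, 6), (4, 2), (4, 5), (4, 7), (4, 8), (5, 4), (5, 5), (5, 8), (5, 9)]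
    cl := [2, 5, 0, 0, 1, 3, 4, 6, 3, 7]
    chq := [(0, 2), (2, 0), (2, 4), (4, 2)]
    rng := [(0, 1), (0, 4), (1, 0), (1, 2), (2, 1), (2, 7), (3, 5), (3, 6), (4, 0), (4, 6), (4, 8), (4,
      9), (5, 3), (5, 9), (6, 3), (6, 4), (7, 2), (7, 8), (8, 4), (8, 7), (9, 4), (9, 5)]
    lev := [] }
  links := [[1, 6, 7, 8], [6, 0, 8, 2, 9, 3, 10], [9, 1, 8, 4, 11], [10, 1, 9, 12], [11, 2, 8, 13, 14,
    5], [11, 4, 14, 10, 15]]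
  P := {
    a := 6
    N := 16
    nb := [450, 1869, 2834, 5634, 26916, 52240, 1155, 321, 8343, 6158, 53354, 33332, 1544, 16656,
      9264, 3104]
    tri := [(0, 1, 6), (0, 1, 8), (0, 6, 7), (0, 7, 8), (1, 2, 8), (1, 2, 9), (1, 3, 9), (1, 3, 10),
      (1, 6, 10), (2, 4, 8), (2, 4, 11), (2, 9, 11), (3, 9, 12), (3, 10, 12), (4, 5, 11), (4, 5,
      14), (4, 8, 13), (4, 13, 14), (5, 10, 14), (5, 10, 15), (5, 11, 15)]
    fin := [0, 0, 2, 0, 2, 5, 0, 7, 2, 2, 10, 5, 12, 13, 5, 15]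
    chd := [(0, 2), (0, 12)]
    steps := [(0, 1), (0, 3), (0, 6), (2, 4), (2, 8), (2, 9), (5, 14), (5, 11)] }
  rep := [2, 10, 0, 5, 12, 7, 13, 15]

noncomputable def v1558 : Cov.CovD where
  P := 3
  N := 5
  pl := [1, 4, 7, 9]
  lev := [⟨[], [], [(0, 2)], [5], [(0, 2, [0, 4]), (2, 0, [2])]⟩,
    ⟨[], [(0, 0), (0, 2)], [(0, 0), (0, 2)], [1], [(0, 2, [0, 4]), (2, 0, [2]), (3, 0,
      [2])]⟩,
    ⟨[(0, 1)], [(0, 0), (1, 0), (1, 2), (1, 3)], [(0, 0), (0, 3)], [], [(2, 0, [2]), (3, 0,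
      [2]), (5, 3, [])]⟩,
    ⟨[(0, 1), (1, 2)], [(1, 0), (1, 2), (1, 4), (2, 0)], [(0, 4)], [1], [(3, 0, [2]), (6,
      4, [2])]⟩,
    ⟨[(1, 2)], [(0, 0), (1, 0), (2, 0), (2, 3)], [(0, 3), (3, 3)], [6], [(2, 0, [2]), (5,
      3, []), (8, 3, [])]⟩,
    ⟨[(2, 4)], [(2, 3), (4, 0), (4, 3)], [(3, 3)], [1, 7], [(5, 3, []), (8, 3, [])]⟩]
  Ta := [((2, 1), 0, 5), ((2, 7), 0, 6), ((3, 5), 0, 3), ((3, 6), 0, 4), ((5, 3), 3, 0), ((5, 9),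
    3, 7), ((8, 4), 3, 1), ((8, 7), 3, 6)]
  Tb := [((0, 1, 4), 2, 5, 1), ((1, 0, 2), 5, 2, 0), ((2, 1, 7), 0, 5, 6), ((3, 5, 6), 0, 3, 4),
    ((4, 0, 6), 1, 2, 4), ((4, 0, 8), 1, 2, 3), ((4, 0, 9), 1, 2, 7), ((4, 6, 8), 1, 4, 3),
    ((4, 6, 9), 1, 4, 7), ((4, 8, 9), 1, 3, 7), ((5, 3, 9), 3, 0, 7), ((6, 3, 4), 4, 0, 1),
    ((7, 2, 8), 6, 0, 3), ((8, 4, 7), 3, 1, 6), ((9, 4, 5), 7, 1, 3)]
  Tc := [(2, 0, 4)]
  Td := [((0, 2), (2, 1), 5), ((0, 2), (2, 7), 6), ((0, 2), (3, 5), 3), ((0, 2), (3, 6), 4), ((2,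
    0), (0, 1), 5), ((2, 0), (0, 4), 1), ((2, 4), (0, 1), 5), ((2, 4), (0, 4), 1), ((4, 2),
    (6, 3), 0), ((4, 2), (6, 4), 1)]
  G := [[0, 0xca62c6a2a6c2e44a62ca6e2a4c2e8c, 0x111cf128111cf124c, 0x95de12895de124c,
    0x95de42895de428a], [0, 0xe22eec268ee62e82a4c, 0x111cf148111cf124a, 0x95de12495de124c,
    0x95de12895de128a], [0, 0xa12612c4c12612a4c, 0x111cf128111cf128a, 0x95de95dec281,
    0x95de4281], [0, 0xe22eec2681, 0x111cf124111cf128c, 0x95de95dec281, 0x95de4281]]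

noncomputable def n1558 : Ent := ⟨e1558, noF, [], [], [(7, 13, [385753028440516072301428330182238677962518295842732840413372417, 0]), (15, 12, [360035747228123463809659675990397950106674496442981057564856321, 0])]⟩

def c1558 : PLift (Cov.check n1558.C.D v1558 = true) := ⟨by decide +kernel⟩

def b1558 : PLift (entF (fidx ts) 400 1558 n1558 = true) := ⟨by decide +kernel⟩

theorem g1558 : GoodF (fidx ts) 400 1558 := GoodF.ofV v1558 n1558 c1558.down b1558.down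

/-- 475465:1266/8 -/
noncomputable def e1559 : SCfg where
  D := {
    a := 6
    L := 10
    kp := 7
    inn := [(0, 1), (1, 0), (1, 2), (1, 3), (2, 1), (2, 4), (3, 1), (4, 2), (4, 5), (5, 4)]
    mix := [(0, 0), (0, 1), (0, 2), (1, 0), (1, 2), (1, 3), (1, 4), (2, 2), (2, 3), (2, 5), (3, 3), (3,
      4), (3, 6), (4, 2), (4, 5), (4, 7), (4, 8), (5, 5), (5, 6), (5, 8), (5, 9)]
    cl := [4, 5, 0, 0, 3, 1, 2, 6, 1, 7]
    chq := [(0, 3), (3, 0), (3, 5), (5, 3)]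
    rng := [(0, 1), (0, 4), (1, 0), (1, 2), (2, 1), (2, 7), (3, 5), (3, 6), (4, 0), (4, 6), (5, 3), (5,
      6), (6, 3), (6, 4), (6, 5), (6, 9), (7, 2), (7, 8), (8, 7), (8, 9), (9, 6), (9, 8)]
    lev := [] }
  links := [[1, 6, 7, 8], [6, 0, 8, 2, 9, 3, 10], [9, 1, 8, 4, 11], [10, 1, 9, 12], [11, 2, 8, 13, 14,
    5], [11, 4, 14, 15, 12]]
  P := {
    a := 6
    N := 16
    nb := [450, 1869, 2834, 5634, 26916, 55312, 1155, 321, 8343, 6158, 4170, 4660, 36392, 16656,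
      41008, 20512]
    tri := [(0, 1, 6), (0, 1, 8), (0, 6, 7), (0, 7, 8), (1, 2, 8), (1, 2, 9), (1, 3, 9), (1, 3, 10),
      (1, 6, 10), (2, 4, 8), (2, 4, 11), (2, 9, 11), (3, 9, 12), (3, 10, 12), (4, 5, 11), (4, 5,
      14), (4, 8, 13), (4, 13, 14), (5, 11, 12), (5, 12, 15), (5, 14, 15)]
    fin := [0, 0, 2, 2, 2, 5, 6, 0, 2, 2, 10, 5, 12, 13, 5, 15]
    chd := [(0, 10), (2, 10)]
    steps := [(0, 1), (0, 7), (2, 4), (2, 8), (2, 9), (2, 3), (5, 14), (5, 11)] }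
  rep := [2, 5, 12, 10, 6, 0, 13, 15]

noncomputable def v1559 : Cov.CovD where
  P := 3
  N := 5
  pl := [0, 6, 7, 9]
  lev := [⟨[], [], [(0, 5)], [4], [(1, 5, [3]), (2, 0, [3])]⟩,
    ⟨[], [(0, 0), (0, 3), (0, 5)], [(0, 0), (0, 3)], [4], [(2, 0, [3]), (3, 0, [3]), (4, 3,
      [0, 5])]⟩,
    ⟨[(0, 1)], [(0, 0), (1, 0), (1, 1), (1, 3)], [(0, 0), (0, 1)], [], [(2, 0, [3]), (3, 0,
      [3]), (5, 1, [])]⟩,
    ⟨[(0, 1), (1, 2)], [(1, 0), (1, 3), (2, 0)], [(0, 3)], [2], [(3, 0, [3]), (4, 3, [0,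
      5])]⟩,
    ⟨[(1, 2)], [(0, 0), (1, 0), (2, 0), (2, 1)], [(0, 1), (1, 1)], [6], [(2, 0, [3]), (5,
      1, []), (8, 1, [])]⟩,
    ⟨[(2, 4)], [(2, 1), (4, 0), (4, 1)], [(1, 1)], [2, 7], [(5, 1, []), (8, 1, [])]⟩]
  Ta := [((2, 1), 0, 5), ((2, 7), 0, 6), ((3, 5), 0, 1), ((3, 6), 0, 2), ((5, 3), 1, 0), ((5, 6),
    1, 2), ((8, 7), 1, 6), ((8, 9), 1, 7)]
  Tb := [((0, 1, 4), 4, 5, 3), ((1, 0, 2), 5, 4, 0), ((2, 1, 7), 0, 5, 6), ((3, 5, 6), 0, 1, 2),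
    ((4, 0, 6), 3, 4, 2), ((5, 3, 6), 1, 0, 2), ((6, 3, 4), 2, 0, 3), ((6, 3, 5), 2, 0, 1),
    ((6, 3, 9), 2, 0, 7), ((6, 4, 5), 2, 3, 1), ((6, 4, 9), 2, 3, 7), ((6, 5, 9), 2, 1, 7),
    ((7, 2, 8), 6, 0, 1), ((8, 7, 9), 1, 6, 7), ((9, 6, 8), 7, 2, 1)]
  Tc := [(3, 0, 5)]
  Td := [((0, 3), (2, 1), 5), ((0, 3), (2, 7), 6), ((0, 3), (3, 5), 1), ((0, 3), (3, 6), 2), ((3,
    0), (4, 0), 4), ((3, 0), (4, 6), 2), ((3, 5), (4, 0), 4), ((3, 5), (4, 6), 2), ((5, 3),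
    (1, 0), 4), ((5, 3), (1, 2), 0)]
  G := [[0, 0, 0, 0x55c48c159c54699c84c1c9c94a59c5ccc82e,
    0x14949189983c99c24699c8499c24a99c8419c8888c99c14ee], [0, 0, 0, 0,
    0x99c2419c1881a99c24e99c8299c24a99c82948981c1899494ee], [0,
    0xcca4244c8e882ccc424cca84cca44af, 0xc148c1246c184c128ac184c148ce,
    0xc1484c184859cc9cc42d, 0x1421892c4118d248118d88499c8499c24af], [0, 0,
    0xc1242c182c184ac1828ccc424f, 0, 0x118d224118d242118d88499c8299c24af]]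

noncomputable def n1559 : Ent := ⟨e1559, noF, [], [], [(7, 13, [385753028440516072301428330182238677962518295842732840413376513, 0]), (15, 10, [360035742630637297931254766822518807307257169425207333492969473, 0])]⟩

def c1559 : PLift (Cov.check n1559.C.D v1559 = true) := ⟨by decide +kernel⟩

def b1559 : PLift (entF (fidx ts) 400 1559 n1559 = true) := ⟨by decide +kernel⟩

theorem g1559 : GoodF (fidx ts) 400 1559 := GoodF.ofV v1559 n1559 c1559.down b1559.down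

/-- 475465:1266 -/
noncomputable def e1560 : SCfg where
  D := {
    a := 6
    L := 11
    kp := 8
    inn := [(0, 1), (1, 0), (1, 2), (1, 3), (2, 1), (2, 4), (3, 1), (4, 2), (4, 5), (5, 4)]
    mix := [(0, 0), (0, 1), (0, 2), (1, 0), (1, 2), (1, 3), (1, 4), (2, 2), (2, 3), (2, 5), (3, 3), (3,
      4), (3, 6), (4, 2), (4, 5), (4, 7), (4, 8), (5, 5), (5, 8), (5, 9), (5, 10)]
    cl := [2, 4, 0, 0, 1, 3, 5, 6, 3, 7, 8]
    chq := [(0, 1), (1, 0), (1, 4), (4, 1)]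
    rng := [(0, 1), (0, 4), (1, 0), (1, 2), (2, 1), (2, 7), (3, 5), (3, 6), (4, 0), (4, 6), (5, 3), (5,
      10), (6, 3), (6, 4), (7, 2), (7, 8), (8, 7), (8, 9), (9, 8), (9, 10), (10, 5), (10, 9)]
    lev := [] }
  links := [[1, 6, 7, 8], [6, 0, 8, 2, 9, 3, 10], [9, 1, 8, 4, 11], [10, 1, 9, 12], [11, 2, 8, 13, 14,
    5], [11, 4, 14, 15, 16]]
  P := {
    a := 6
    N := 17
    nb := [450, 1869, 2834, 5634, 26916, 116752, 1155, 321, 8343, 6158, 4170, 66100, 1544, 16656,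
      41008, 81952, 34848]
    tri := [(0, 1, 6), (0, 1, 8), (0, 6, 7), (0, 7, 8), (1, 2, 8), (1, 2, 9), (1, 3, 9), (1, 3, 10),
      (1, 6, 10), (2, 4, 8), (2, 4, 11), (2, 9, 11), (3, 9, 12), (3, 10, 12), (4, 5, 11), (4, 5,
      14), (4, 8, 13), (4, 13, 14), (5, 11, 16), (5, 14, 15), (5, 15, 16)]
    fin := [0, 0, 2, 2, 2, 5, 6, 0, 2, 2, 10, 5, 12, 13, 5, 15, 16]
    chd := [(0, 10), (2, 10)]
    steps := [(0, 1), (0, 7), (2, 4), (2, 8), (2, 9), (2, 3), (5, 14), (5, 11)] }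
  rep := [2, 10, 6, 5, 0, 12, 13, 15, 16]

noncomputable def v1560 : Cov.CovD where
  P := 3
  N := 6
  pl := [0, 6, 7, 9, 10]
  lev := [⟨[], [], [(0, 4)], [2], [(1, 4, [1]), (2, 0, [1])]⟩,
    ⟨[], [(0, 0), (0, 1), (0, 4)], [(0, 0), (0, 1)], [2], [(2, 0, [1]), (3, 0, [1]), (4, 1,
      [0, 4])]⟩,
    ⟨[(0, 1)], [(0, 0), (1, 0), (1, 1), (1, 3)], [(0, 0), (0, 3)], [], [(2, 0, [1]), (3, 0,
      [1]), (5, 3, [])]⟩,
    ⟨[(0, 1), (1, 2)], [(1, 0), (1, 1), (2, 0)], [(0, 1)], [5], [(3, 0, [1]), (4, 1, [0,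
      4])]⟩,
    ⟨[(1, 2)], [(0, 0), (1, 0), (2, 0), (2, 3)], [(0, 3), (3, 3)], [6], [(2, 0, [1]), (5,
      3, []), (8, 3, [])]⟩,
    ⟨[(2, 4)], [(2, 3), (4, 0), (4, 3)], [(3, 3)], [7, 8], [(5, 3, []), (8, 3, [])]⟩]
  Ta := [((2, 1), 0, 4), ((2, 7), 0, 6), ((3, 5), 0, 3), ((3, 6), 0, 5), ((5, 3), 3, 0), ((5,
    10), 3, 8), ((8, 7), 3, 6), ((8, 9), 3, 7)]
  Tb := [((0, 1, 4), 2, 4, 1), ((1, 0, 2), 4, 2, 0), ((2, 1, 7), 0, 4, 6), ((3, 5, 6), 0, 3, 5),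
    ((4, 0, 6), 1, 2, 5), ((5, 3, 10), 3, 0, 8), ((6, 3, 4), 5, 0, 1), ((7, 2, 8), 6, 0, 3),
    ((8, 7, 9), 3, 6, 7), ((9, 8, 10), 7, 3, 8), ((10, 5, 9), 8, 3, 7)]
  Tc := [(1, 0, 4)]
  Td := [((0, 1), (2, 1), 4), ((0, 1), (2, 7), 6), ((0, 1), (3, 5), 3), ((0, 1), (3, 6), 5), ((1,
    0), (4, 0), 2), ((1, 0), (4, 6), 5), ((1, 4), (4, 0), 2), ((1, 4), (4, 6), 5), ((4, 1),
    (1, 0), 2), ((4, 1), (1, 2), 0)]
  G := [[0, 0xe161648188ce1c16a1268141166433a32aa89a4acd, 0x4b61d97e1b6c1e82,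
    0x3d2e1c2a187de1e44261db2e1b4de1e8c, 0xcb61d17e1b6c1e82], [0, 0x6222aff9effdeca41,
    0xff61f81a42, 0xf9fe164168ffa1f4168c, 0xfbfe1441682], [0,
    0xe14618e12e4e14412e18e813c992e611a11a668d, 0xfd27a116fc231cd5f8dc8c2,
    0x82a892ec47d2e742ec87de86decac1, 0x53cdfb4dcbd2b15abc682], [0, 0x62b2affcffdeca41,
    0x111ef111efc482, 0xf27ffecffc88ca41, 0x111ef111efc482]]

noncomputable def n1560 : Ent := ⟨e1560, noF, [], [], [(6, 15, [1685356702439545624007900436039642273970977273354372543760006447105, 0]), (7, 13, [1685382419725355503238989871268909155780284044704628512909405798401, 0]), (15, 10, [1685356702439545624464619697705549435909628783578210987402485391361, 0]), (16, 12, [1580044410777118419473445963789405229760683414688298388994429906945, 0])]⟩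

def c1560 : PLift (Cov.check n1560.C.D v1560 = true) := ⟨by decide +kernel⟩

def b1560 : PLift (entF (fidx ts) 400 1560 n1560 = true) := ⟨by decide +kernel⟩

theorem g1560 : GoodF (fidx ts) 400 1560 := GoodF.ofV v1560 n1560 c1560.down b1560.down

/-- 475746:1280/1 -/
noncomputable def e1561 : SCfg where
  D := {
    a := 6
    L := 10
    kp := 7
    inn := [(0, 1), (1, 0), (1, 2), (1, 5), (2, 1), (2, 3), (2, 5), (3, 2), (3, 4), (3, 5), (4, 3), (5,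
      1), (5, 2), (5, 3)]
    mix := [(0, 0), (0, 1), (0, 2), (1, 0), (1, 2), (1, 3), (1, 4), (2, 2), (2, 5), (3, 5), (3, 6), (3,
      7), (3, 8), (4, 0), (4, 6), (4, 7), (5, 3), (5, 8), (5, 9)]
    cl := [1, 7, 0, 2, 0, 3, 4, 5, 3, 6]
    chq := [(0, 6), (1, 3), (3, 1), (6, 0)]
    rng := [(0, 1), (0, 4), (0, 6), (0, 7), (1, 0), (1, 2), (2, 1), (2, 5), (3, 4), (3, 9), (4, 0), (4,
      3), (5, 2), (5, 6), (6, 0), (6, 5), (7, 0), (7, 8), (8, 7), (8, 9), (9, 3), (9, 8)]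
    lev := [] }
  links := [[1, 6, 7, 8], [6, 0, 8, 2, 5, 9, 10], [5, 1, 8, 11, 3], [5, 2, 11, 12, 4, 13, 14], [13, 3,
    12, 6], [9, 1, 2, 3, 14, 15]]
  P := {
    a := 6
    N := 16
    nb := [450, 1893, 2346, 30772, 12360, 49678, 13459, 321, 2183, 33826, 578, 4364, 2136, 16472,
      41000, 16928]
    tri := [(0, 1, 6), (0, 1, 8), (0, 6, 7), (0, 7, 8), (1, 2, 5), (1, 2, 8), (1, 5, 9), (1, 6, 10),
      (1, 9, 10), (2, 3, 5), (2, 3, 11), (2, 8, 11), (3, 4, 12), (3, 4, 13), (3, 5, 14), (3, 11,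
      12), (3, 13, 14), (4, 6, 12), (4, 6, 13), (5, 9, 15), (5, 14, 15)]
    fin := [0, 1, 1, 3, 0, 1, 0, 7, 1, 9, 1, 3, 12, 13, 3, 15]
    chd := [(0, 3), (1, 15)]
    steps := [(0, 6), (0, 4), (1, 2), (1, 5), (1, 8), (1, 10), (3, 11), (3, 14)] }
  rep := [1, 0, 9, 3, 12, 13, 15, 7]

noncomputable def v1561 : Cov.CovD where
  P := 3
  N := 5
  pl := [1, 3, 6, 7]
  lev := [⟨[], [], [(0, 1)], [7], [(0, 1, [3]), (2, 0, [6])]⟩,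
    ⟨[], [(0, 0), (0, 1)], [(0, 0), (0, 1)], [2], [(0, 1, [3]), (2, 0, [6]), (4, 0, [6])]⟩,
    ⟨[(0, 1)], [(0, 0), (1, 0), (1, 1), (1, 3)], [(0, 3)], [], [(2, 0, [6]), (5, 3, [1])]⟩,
    ⟨[(1, 2)], [(2, 0), (2, 3)], [(3, 3)], [4, 5], [(5, 3, [1]), (8, 3, [1])]⟩,
    ⟨[(2, 3)], [(0, 1), (1, 1), (3, 1), (3, 3)], [], [4, 5], [(0, 1, [3])]⟩,
    ⟨[(0, 1), (1, 2), (1, 3), (2, 3), (3, 4)], [(1, 0), (1, 1), (1, 3), (1, 6), (2, 0), (2,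
      3), (2, 6), (3, 3), (3, 6)], [(3, 6)], [2], [(8, 3, [1]), (9, 6, [0])]⟩]
  Ta := [((2, 1), 0, 7), ((2, 5), 0, 3), ((4, 0), 0, 1), ((4, 3), 0, 2), ((5, 2), 3, 0), ((5, 6),
    3, 4), ((8, 7), 3, 5), ((8, 9), 3, 6)]
  Tb := [((0, 1, 4), 1, 7, 0), ((0, 1, 6), 1, 7, 4), ((0, 1, 7), 1, 7, 5), ((0, 4, 6), 1, 0, 4),
    ((0, 4, 7), 1, 0, 5), ((0, 6, 7), 1, 4, 5), ((1, 0, 2), 7, 1, 0), ((2, 1, 5), 0, 7, 3),
    ((3, 4, 9), 2, 0, 6), ((4, 0, 3), 0, 1, 2), ((5, 2, 6), 3, 0, 4), ((6, 0, 5), 4, 1, 3),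
    ((7, 0, 8), 5, 1, 3), ((8, 7, 9), 3, 5, 6), ((9, 3, 8), 6, 2, 3)]
  Tc := []
  Td := [((0, 6), (2, 1), 7), ((0, 6), (2, 5), 3), ((0, 6), (4, 0), 1), ((0, 6), (4, 3), 2), ((1,
    3), (0, 1), 7), ((1, 3), (0, 4), 0), ((1, 3), (0, 6), 4), ((1, 3), (0, 7), 5), ((3, 1),
    (5, 2), 0), ((3, 1), (5, 6), 4), ((3, 1), (8, 7), 5), ((3, 1), (8, 9), 6), ((6, 0), (9,
    3), 2), ((6, 0), (9, 8), 3)]
  G := [[0, 0, 0, 0x1814111d1c5f241814111d1c9f28c, 0x2111814111d112df681814111d11abf28c], [0, 0,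
    0, 0x18111da21411cd52c1814111d11cdf28c, 0x18111d112db144681a911814111de68c], [0,
    0x111e124111e148111e188e, 0x484244e2828488e1f2c1, 0x1814111d1c5f241, 0x1814111d11abf281],
    [0, 0x111e184111e184a, 0x48422224eece1fa48ac1, 0x1814111d11cdf241, 0x18111d1a9b144681]]

noncomputable def n1561 : Ent := ⟨e1561, noF, [], [], []⟩

def c1561 : PLift (Cov.check n1561.C.D v1561 = true) := ⟨by decide +kernel⟩

def b1561 : PLift (entF (fidx ts) 400 1561 n1561 = true) := ⟨by decide +kernel⟩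

theorem g1561 : GoodF (fidx ts) 400 1561 := GoodF.ofV v1561 n1561 c1561.down b1561.down

/-- 475746:1280/2 -/
noncomputable def e1562 : SCfg where
  D := {
    a := 6
    L := 10
    kp := 7
    inn := [(0, 1), (1, 0), (1, 2), (1, 5), (2, 1), (2, 3), (2, 5), (3, 2), (3, 4), (3, 5), (4, 3), (5,
      1), (5, 2), (5, 3)]
    mix := [(0, 0), (0, 1), (0, 2), (1, 0), (1, 2), (1, 3), (1, 4), (2, 2), (2, 5), (3, 5), (3, 6), (3,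
      7), (3, 8), (4, 1), (4, 6), (4, 7), (5, 3), (5, 8), (5, 9)]
    cl := [2, 1, 0, 4, 0, 3, 5, 6, 3, 7]
    chq := [(0, 7), (1, 3), (3, 1), (7, 0)]
    rng := [(0, 1), (0, 4), (1, 0), (1, 2), (1, 6), (1, 7), (2, 1), (2, 5), (3, 4), (3, 9), (4, 0), (4,
      3), (5, 2), (5, 6), (6, 1), (6, 5), (7, 1), (7, 8), (8, 7), (8, 9), (9, 3), (9, 8)]
    lev := [] }
  links := [[1, 6, 7, 8], [6, 0, 8, 2, 5, 9, 10], [5, 1, 8, 11, 3], [5, 2, 11, 12, 4, 13, 14], [13, 3,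
    12, 7], [9, 1, 2, 3, 14, 15]]
  P := {
    a := 6
    N := 16
    nb := [450, 1893, 2346, 30772, 12424, 49678, 1155, 12625, 2183, 33826, 578, 4364, 2200, 16536,
      41000, 16928]
    tri := [(0, 1, 6), (0, 1, 8), (0, 6, 7), (0, 7, 8), (1, 2, 5), (1, 2, 8), (1, 5, 9), (1, 6, 10),
      (1, 9, 10), (2, 3, 5), (2, 3, 11), (2, 8, 11), (3, 4, 12), (3, 4, 13), (3, 5, 14), (3, 11,
      12), (3, 13, 14), (4, 7, 12), (4, 7, 13), (5, 9, 15), (5, 14, 15)]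
    fin := [0, 1, 1, 3, 4, 1, 0, 4, 1, 9, 1, 3, 12, 13, 3, 15]
    chd := [(1, 15), (4, 3)]
    steps := [(0, 6), (1, 2), (1, 5), (1, 8), (1, 10), (3, 11), (3, 14), (4, 7)] }
  rep := [1, 4, 0, 3, 9, 12, 13, 15]

noncomputable def v1562 : Cov.CovD where
  P := 3
  N := 5
  pl := [0, 3, 6, 7]
  lev := [⟨[], [], [(0, 1)], [2], [(1, 1, [3]), (2, 0, [7])]⟩,
    ⟨[], [(0, 0), (0, 1)], [(0, 0)], [2, 4], [(2, 0, [7]), (4, 0, [7])]⟩,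
    ⟨[(0, 1)], [(0, 0), (1, 0), (1, 3)], [(0, 3)], [], [(2, 0, [7]), (5, 3, [1])]⟩,
    ⟨[(1, 2)], [(2, 0), (2, 3)], [(3, 3)], [5, 6], [(5, 3, [1]), (8, 3, [1])]⟩,
    ⟨[(2, 3)], [(0, 1), (3, 1), (3, 3)], [], [5, 6], [(1, 1, [3])]⟩,
    ⟨[(0, 1), (1, 2), (1, 3), (2, 3), (3, 4)], [(1, 0), (1, 3), (1, 7), (2, 0), (2, 3), (2,
      7), (3, 3), (3, 7)], [(3, 7)], [4], [(8, 3, [1]), (9, 7, [0])]⟩]
  Ta := [((2, 1), 0, 1), ((2, 5), 0, 3), ((4, 0), 0, 2), ((4, 3), 0, 4), ((5, 2), 3, 0), ((5, 6),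
    3, 5), ((8, 7), 3, 6), ((8, 9), 3, 7)]
  Tb := [((0, 1, 4), 2, 1, 0), ((1, 0, 2), 1, 2, 0), ((1, 0, 6), 1, 2, 5), ((1, 0, 7), 1, 2, 6),
    ((1, 2, 6), 1, 0, 5), ((1, 2, 7), 1, 0, 6), ((1, 6, 7), 1, 5, 6), ((2, 1, 5), 0, 1, 3),
    ((3, 4, 9), 4, 0, 7), ((4, 0, 3), 0, 2, 4), ((5, 2, 6), 3, 0, 5), ((6, 1, 5), 5, 1, 3),
    ((7, 1, 8), 6, 1, 3), ((8, 7, 9), 3, 6, 7), ((9, 3, 8), 7, 4, 3)]
  Tc := []
  Td := [((0, 7), (2, 1), 1), ((0, 7), (2, 5), 3), ((0, 7), (4, 0), 2), ((0, 7), (4, 3), 4), ((1,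
    3), (1, 0), 2), ((1, 3), (1, 2), 0), ((1, 3), (1, 6), 5), ((1, 3), (1, 7), 6), ((3, 1),
    (5, 2), 0), ((3, 1), (5, 6), 5), ((3, 1), (8, 7), 6), ((3, 1), (8, 9), 7), ((7, 0), (9,
    3), 4), ((7, 0), (9, 8), 3)]
  G := [[0, 0x111e1111e1c221e1111e1ac4, 0, 0x111d22111d22c8,
    0x1814111d116bf21214115e181e33181454dea8], [0, 0x111e12111e18c4, 0, 0x111d22111d28c4,
    0x18111d111eb1446141167518111dacac11289], [0, 0, 0x1814111d11abf21814111d111ef2c4,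
    0x555d22999d22c8, 0x5894141d1e9f2521452792919a4894149dea1], [0, 0,
    0x181a9914111d661814111d111ef2c4, 0x157d24fb9d28c8,
    0x28331da44b4e418cdd1d1167bca11cd11814c689]]

noncomputable def n1562 : Ent := ⟨e1562, noF, [], [], []⟩

def c1562 : PLift (Cov.check n1562.C.D v1562 = true) := ⟨by decide +kernel⟩

def b1562 : PLift (entF (fidx ts) 400 1562 n1562 = true) := ⟨by decide +kernel⟩

theorem g1562 : GoodF (fidx ts) 400 1562 := GoodF.ofV v1562 n1562 c1562.down b1562.down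

/-- 475746:1280/3 -/
noncomputable def e1563 : SCfg where
  D := {
    a := 6
    L := 10
    kp := 7
    inn := [(0, 1), (1, 0), (1, 2), (1, 5), (2, 1), (2, 3), (2, 5), (3, 2), (3, 4), (3, 5), (4, 3), (5,
      1), (5, 2), (5, 3)]
    mix := [(0, 0), (0, 1), (0, 2), (1, 0), (1, 2), (1, 3), (1, 4), (2, 2), (2, 5), (3, 5), (3, 6), (3,
      7), (3, 8), (4, 4), (4, 6), (4, 7), (5, 3), (5, 8), (5, 9)]
    cl := [2, 7, 0, 5, 0, 1, 3, 4, 1, 6]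
    chq := [(0, 6), (3, 4), (4, 3), (6, 0)]
    rng := [(0, 1), (0, 4), (1, 0), (1, 2), (2, 1), (2, 5), (3, 4), (3, 9), (4, 0), (4, 3), (4, 6), (4,
      7), (5, 2), (5, 6), (6, 4), (6, 5), (7, 4), (7, 8), (8, 7), (8, 9), (9, 3), (9, 8)]
    lev := [] }
  links := [[1, 6, 7, 8], [6, 0, 8, 2, 5, 9, 10], [5, 1, 8, 11, 3], [5, 2, 11, 12, 4, 13, 14], [13, 3,
    12, 10], [9, 1, 2, 3, 14, 15]]
  P := {
    a := 6
    N := 16
    nb := [450, 1893, 2346, 30772, 13320, 49678, 1155, 321, 2183, 33826, 12882, 4364, 3096, 17432,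
      41000, 16928]
    tri := [(0, 1, 6), (0, 1, 8), (0, 6, 7), (0, 7, 8), (1, 2, 5), (1, 2, 8), (1, 5, 9), (1, 6, 10),
      (1, 9, 10), (2, 3, 5), (2, 3, 11), (2, 8, 11), (3, 4, 12), (3, 4, 13), (3, 5, 14), (3, 11,
      12), (3, 13, 14), (4, 10, 12), (4, 10, 13), (5, 9, 15), (5, 14, 15)]
    fin := [0, 1, 1, 3, 4, 1, 0, 7, 1, 9, 1, 3, 4, 13, 3, 15]
    chd := [(1, 15), (4, 13)]
    steps := [(0, 6), (1, 2), (1, 5), (1, 8), (1, 10), (3, 11), (3, 14), (4, 12)] }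
  rep := [1, 3, 0, 4, 13, 9, 15, 7]

noncomputable def v1563 : Cov.CovD where
  P := 3
  N := 5
  pl := [0, 1, 3]
  lev := [⟨[], [], [], [2, 7], [(2, 0, [6])]⟩,
    ⟨[], [(0, 0)], [(0, 0)], [2, 5], [(2, 0, [6]), (4, 0, [6])]⟩,
    ⟨[(0, 1)], [(0, 0), (1, 0), (1, 1)], [(0, 1)], [], [(2, 0, [6]), (5, 1, [])]⟩,
    ⟨[(1, 2)], [(2, 0), (2, 1), (2, 3), (2, 4)], [(1, 1), (1, 3), (1, 4), (3, 4)], [], [(5,
      1, []), (6, 3, [4]), (7, 4, [3]), (8, 1, [])]⟩,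
    ⟨[(2, 3)], [(1, 0), (3, 0), (3, 1), (3, 3), (3, 4)], [(0, 3), (0, 4), (3, 4)], [], [(4,
      0, [6]), (6, 3, [4]), (7, 4, [3])]⟩,
    ⟨[(0, 1), (1, 2), (1, 3), (2, 3), (3, 4)], [(1, 0), (1, 1), (1, 6), (2, 0), (2, 1), (2,
      6), (3, 1), (3, 3), (3, 4), (3, 6)], [(1, 6)], [5], [(8, 1, []), (9, 6, [0])]⟩]
  Ta := [((2, 1), 0, 7), ((2, 5), 0, 1), ((4, 0), 0, 2), ((4, 3), 0, 5), ((4, 6), 0, 3), ((4, 7),
    0, 4), ((5, 2), 1, 0), ((5, 6), 1, 3), ((8, 7), 1, 4), ((8, 9), 1, 6)]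
  Tb := [((0, 1, 4), 2, 7, 0), ((1, 0, 2), 7, 2, 0), ((2, 1, 5), 0, 7, 1), ((3, 4, 9), 5, 0, 6),
    ((4, 0, 3), 0, 2, 5), ((4, 0, 6), 0, 2, 3), ((4, 0, 7), 0, 2, 4), ((4, 3, 6), 0, 5, 3),
    ((4, 3, 7), 0, 5, 4), ((4, 6, 7), 0, 3, 4), ((5, 2, 6), 1, 0, 3), ((6, 4, 5), 3, 0, 1),
    ((7, 4, 8), 4, 0, 1), ((8, 7, 9), 1, 4, 6), ((9, 3, 8), 6, 5, 1)]
  Tc := []
  Td := [((0, 6), (2, 1), 7), ((0, 6), (2, 5), 1), ((0, 6), (4, 0), 2), ((0, 6), (4, 3), 5), ((0,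
    6), (4, 6), 3), ((0, 6), (4, 7), 4), ((3, 4), (6, 4), 0), ((3, 4), (6, 5), 1), ((4, 3),
    (7, 4), 0), ((4, 3), (7, 8), 1), ((6, 0), (9, 3), 5), ((6, 0), (9, 8), 1)]
  G := [[0, 0x111411e2111411e8c111411e2181111e2cc, 0, 0x181122d4225e18c299e141122698cc,
    0x1157a541155698a1455a581111d2d8aa], [0, 0, 0,
    0x111412d2551e18c1191a54111412d2c82124212cd, 0x111152d4185d694acc9e14111152d8aa], [0, 0,
    0x111e148111e184111e142e, 0x2822296d414418229cc1, 0x34725388c14525188ca1], [0, 0,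
    0x111e182111e148111e144e, 0x189489ad25814456d2c1, 0x58148cad21812d56d4a1]]

noncomputable def n1563 : Ent := ⟨e1563, noF, [], [], []⟩

def c1563 : PLift (Cov.check n1563.C.D v1563 = true) := ⟨by decide +kernel⟩

def b1563 : PLift (entF (fidx ts) 400 1563 n1563 = true) := ⟨by decide +kernel⟩

theorem g1563 : GoodF (fidx ts) 400 1563 := GoodF.ofV v1563 n1563 c1563.down b1563.down

/-- 475746:1280 -/
noncomputable def e1564 : SCfg where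
  D := {
    a := 6
    L := 11
    kp := 8
    inn := [(0, 1), (1, 0), (1, 2), (1, 5), (2, 1), (2, 3), (2, 5), (3, 2), (3, 4), (3, 5), (4, 3), (5,
      1), (5, 2), (5, 3)]
    mix := [(0, 0), (0, 1), (0, 2), (1, 0), (1, 2), (1, 3), (1, 4), (2, 2), (2, 5), (3, 5), (3, 6), (3,
      7), (3, 8), (4, 6), (4, 7), (4, 9), (5, 3), (5, 8), (5, 10)]
    cl := [2, 8, 0, 3, 0, 1, 4, 5, 1, 6, 7]
    chq := [(0, 7), (1, 6), (6, 1), (7, 0)]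
    rng := [(0, 1), (0, 4), (1, 0), (1, 2), (2, 1), (2, 5), (3, 4), (3, 10), (4, 0), (4, 3), (5, 2),
      (5, 6), (6, 5), (6, 9), (7, 8), (7, 9), (8, 7), (8, 10), (9, 6), (9, 7), (10, 3), (10, 8)]
    lev := [] }
  links := [[1, 6, 7, 8], [6, 0, 8, 2, 5, 9, 10], [5, 1, 8, 11, 3], [5, 2, 11, 12, 4, 13, 14], [13, 3,
    12, 15], [9, 1, 2, 3, 14, 16]]
  P := {
    a := 6
    N := 17
    nb := [450, 1893, 2346, 30772, 45064, 82446, 1155, 321, 2183, 66594, 578, 4364, 34840, 49176,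
      73768, 12304, 16928]
    tri := [(0, 1, 6), (0, 1, 8), (0, 6, 7), (0, 7, 8), (1, 2, 5), (1, 2, 8), (1, 5, 9), (1, 6, 10),
      (1, 9, 10), (2, 3, 5), (2, 3, 11), (2, 8, 11), (3, 4, 12), (3, 4, 13), (3, 5, 14), (3, 11,
      12), (3, 13, 14), (4, 12, 15), (4, 13, 15), (5, 9, 16), (5, 14, 16)]
    fin := [0, 1, 1, 3, 3, 1, 0, 7, 1, 9, 1, 3, 12, 13, 3, 15, 16]
    chd := [(1, 16), (3, 15)]
    steps := [(0, 6), (1, 2), (1, 5), (1, 8), (1, 10), (3, 4), (3, 11), (3, 14)] }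
  rep := [1, 3, 0, 9, 12, 13, 15, 16, 7]

noncomputable def v1564 : Cov.CovD where
  P := 3
  N := 6
  pl := [0, 1, 3, 6, 7]
  lev := [⟨[], [], [], [2, 8], [(2, 0, [7])]⟩,
    ⟨[], [(0, 0)], [(0, 0)], [2, 3], [(2, 0, [7]), (4, 0, [7])]⟩,
    ⟨[(0, 1)], [(0, 0), (1, 0), (1, 1)], [(0, 1)], [], [(2, 0, [7]), (5, 1, [6])]⟩,
    ⟨[(1, 2)], [(2, 0), (2, 1)], [(1, 1)], [4, 5], [(5, 1, [6]), (8, 1, [6])]⟩,
    ⟨[(2, 3)], [(3, 1), (3, 6)], [], [4, 5], [(9, 6, [1])]⟩,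
    ⟨[(0, 1), (1, 2), (1, 3), (2, 3), (3, 4)], [(1, 0), (1, 1), (1, 7), (2, 0), (2, 1), (2,
      7), (3, 1), (3, 7)], [(1, 7)], [3], [(8, 1, [6]), (10, 7, [0])]⟩]
  Ta := [((2, 1), 0, 8), ((2, 5), 0, 1), ((4, 0), 0, 2), ((4, 3), 0, 3), ((5, 2), 1, 0), ((5, 6),
    1, 4), ((8, 7), 1, 5), ((8, 10), 1, 7)]
  Tb := [((0, 1, 4), 2, 8, 0), ((1, 0, 2), 8, 2, 0), ((2, 1, 5), 0, 8, 1), ((3, 4, 10), 3, 0, 7),
    ((4, 0, 3), 0, 2, 3), ((5, 2, 6), 1, 0, 4), ((6, 5, 9), 4, 1, 6), ((7, 8, 9), 5, 1, 6),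
    ((8, 7, 10), 1, 5, 7), ((9, 6, 7), 6, 4, 5), ((10, 3, 8), 7, 3, 1)]
  Tc := []
  Td := [((0, 7), (2, 1), 8), ((0, 7), (2, 5), 1), ((0, 7), (4, 0), 2), ((0, 7), (4, 3), 3), ((1,
    6), (5, 2), 0), ((1, 6), (5, 6), 4), ((1, 6), (8, 7), 5), ((1, 6), (8, 10), 7), ((6, 1),
    (9, 6), 4), ((6, 1), (9, 7), 5), ((7, 0), (10, 3), 3), ((7, 0), (10, 8), 1)]
  G := [[0, 0x111111e4111111e2c111111e2111111e8cc, 0,
    0x111e122227d41165e3512a8cc14411a12ae3dc12211e232bd8cc,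
    0x1111f113556d41131117d2d188ca111e1299c7d4144111b11352dcaa], [0, 0, 0,
    0x111b111712d2111b111712d2c111b111712d2113111712d188ac82124212cd,
    0x111b111752d21117d25111b8ca116411a9c39a144111b11352dcaa], [0, 0,
    0x113111712d188c414411a121e3dc81111f113116d42e, 0x226412a2a39c12211e256bd8c1,
    0x336433a9c39c1154111b1252dca1], [0, 0, 0x11174111b129c2111b111712d28111b111712d24e,
    0x151b1d1789cbd25491f8911f456d2c1, 0x15a811e49c7d29d1745491f85a9ca1]]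

noncomputable def n1564 : Ent := ⟨e1564, noF, [], [], [(6, 15, [1685356702439545624007900436039642273970977273354372543760006483969, 0]), (7, 15, [1685356702439545624007900436039642273970977273354372543760006488065, 0]), (15, 10, [1685356702439545624464619697705549435909628783578210987402485411841, 0])]⟩

def c1564 : PLift (Cov.check n1564.C.D v1564 = true) := ⟨by decide +kernel⟩

def b1564 : PLift (entF (fidx ts) 400 1564 n1564 = true) := ⟨by decide +kernel⟩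

theorem g1564 : GoodF (fidx ts) 400 1564 := GoodF.ofV v1564 n1564 c1564.down b1564.down

/-- 577464:1281/1 -/
noncomputable def e1565 : SCfg where
  D := {
    a := 6
    L := 10
    kp := 7
    inn := [(0, 1), (0, 2), (0, 4), (1, 0), (1, 3), (1, 4), (2, 0), (2, 4), (2, 5), (3, 1), (4, 0), (4,
      1), (4, 2), (5, 2)]
    mix := [(0, 0), (0, 1), (1, 1), (1, 2), (1, 3), (1, 4), (2, 0), (2, 5), (2, 6), (2, 7), (3, 2), (3,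
      3), (3, 8), (4, 4), (4, 5), (4, 9), (5, 5), (5, 6), (5, 8)]
    cl := [1, 0, 2, 5, 0, 3, 6, 3, 4, 7]
    chq := [(0, 4), (1, 7), (4, 0), (7, 1)]
    rng := [(0, 1), (0, 7), (1, 0), (1, 2), (2, 1), (2, 8), (3, 4), (3, 8), (4, 3), (4, 9), (5, 8), (5,
      9), (6, 7), (6, 8), (7, 0), (7, 6), (8, 2), (8, 3), (8, 5), (8, 6), (9, 4), (9, 5)]
    lev := [] }
  links := [[1, 4, 2, 6, 7], [4, 0, 7, 8, 3, 9, 10], [6, 0, 4, 11, 5, 12, 13], [9, 1, 8, 14], [11, 2, 0,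
    1, 10, 15], [12, 2, 11, 14]]
  P := {
    a := 6
    N := 16
    nb := [214, 1945, 14449, 17154, 35847, 22532, 8325, 323, 16522, 17418, 33298, 49204, 24612, 4164,
      6952, 3088]
    tri := [(0, 1, 4), (0, 1, 7), (0, 2, 4), (0, 2, 6), (0, 6, 7), (1, 3, 8), (1, 3, 9), (1, 4, 10),
      (1, 7, 8), (1, 9, 10), (2, 4, 11), (2, 5, 11), (2, 5, 12), (2, 6, 13), (2, 12, 13), (3, 8,
      14), (3, 9, 14), (4, 10, 15), (4, 11, 15), (5, 11, 14), (5, 12, 14)]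
    fin := [0, 1, 2, 1, 0, 5, 0, 1, 8, 9, 1, 2, 12, 2, 5, 15]
    chd := [(0, 15), (1, 5)]
    steps := [(0, 4), (0, 6), (1, 3), (1, 7), (1, 10), (2, 11), (2, 13), (5, 14)] }
  rep := [1, 0, 8, 2, 5, 9, 12, 15]

noncomputable def v1565 : Cov.CovD where
  P := 3
  N := 5
  pl := [2, 3, 6]
  lev := [⟨[], [], [(0, 1)], [], [(0, 1, [7]), (1, 0, [4])]⟩,
    ⟨[], [(0, 0), (0, 1)], [(0, 0)], [2, 5], [(1, 0, [4]), (4, 0, [4])]⟩,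
    ⟨[(0, 1)], [(0, 0), (0, 1), (0, 3)], [(1, 3), (3, 3)], [6], [(0, 1, [7]), (5, 3, []),
      (7, 3, [])]⟩,
    ⟨[(0, 1)], [(1, 0), (1, 4)], [], [2, 5], [(8, 4, [0])]⟩,
    ⟨[(0, 1), (0, 2), (1, 2), (1, 3)], [(0, 0), (0, 1), (0, 3), (0, 7), (1, 0), (1, 3), (1,
      7), (2, 0), (2, 1), (2, 3), (2, 7)], [(0, 3), (0, 7), (3, 7)], [], [(4, 0, [4]), (5, 3,
      []), (9, 7, [1])]⟩,
    ⟨[(0, 2), (2, 4)], [(2, 1), (2, 3), (2, 4), (3, 4), (4, 3)], [(3, 4)], [6], [(5, 3,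
      []), (8, 4, [0])]⟩]
  Ta := [((1, 0), 0, 1), ((1, 2), 0, 2), ((4, 3), 0, 5), ((4, 9), 0, 7), ((5, 8), 3, 4), ((5, 9),
    3, 7), ((7, 0), 3, 1), ((7, 6), 3, 6)]
  Tb := [((0, 1, 7), 1, 0, 3), ((1, 0, 2), 0, 1, 2), ((2, 1, 8), 2, 0, 4), ((3, 4, 8), 5, 0, 4),
    ((4, 3, 9), 0, 5, 7), ((5, 8, 9), 3, 4, 7), ((6, 7, 8), 6, 3, 4), ((7, 0, 6), 3, 1, 6),
    ((8, 2, 3), 4, 2, 5), ((8, 2, 5), 4, 2, 3), ((8, 2, 6), 4, 2, 6), ((8, 3, 5), 4, 5, 3),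
    ((8, 3, 6), 4, 5, 6), ((8, 5, 6), 4, 3, 6), ((9, 4, 5), 7, 0, 3)]
  Tc := []
  Td := [((0, 4), (1, 0), 1), ((0, 4), (1, 2), 2), ((0, 4), (4, 3), 5), ((0, 4), (4, 9), 7), ((1,
    7), (0, 1), 0), ((1, 7), (0, 7), 3), ((4, 0), (8, 2), 2), ((4, 0), (8, 3), 5), ((4, 0),
    (8, 5), 3), ((4, 0), (8, 6), 6), ((7, 1), (9, 4), 0), ((7, 1), (9, 5), 3)]
  G := [[0, 0x5113116111d11b11ec91188a, 0x22242a2612126d42846822262e2222a4481212af824884aac,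
    0x6213215422253215ca218a218cc, 0x6213215666b14aa21828a8f1333e19ac], [0,
    0x611311511e511a11111ec2, 0x522264292612126d11c2168252a9222a128d8c,
    0x62144521921c21dd213219cc, 0x62132153547161cd1caa21834a11ac], [0, 0, 0,
    0x82229123259123291c2242942282542225cc5,
    0x121232b138ca63373e19a822222b624242bc266184c16a5], [0, 0, 0,
    0xd21d215125212da242a2d121232ddca2188c, 0x2421438639212229188252962129c2818c331c9463cad]]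

noncomputable def n1565 : Ent := ⟨e1565, noF, [], [], []⟩

def c1565 : PLift (Cov.check n1565.C.D v1565 = true) := ⟨by decide +kernel⟩

def b1565 : PLift (entF (fidx ts) 400 1565 n1565 = true) := ⟨by decide +kernel⟩

theorem g1565 : GoodF (fidx ts) 400 1565 := GoodF.ofV v1565 n1565 c1565.down b1565.down

/-- 577464:1281/2 -/
noncomputable def e1566 : SCfg where
  D := {
    a := 6
    L := 10
    kp := 7
    inn := [(0, 1), (0, 2), (0, 4), (1, 0), (1, 3), (1, 4), (2, 0), (2, 4), (2, 5), (3, 1), (4, 0), (4,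
      1), (4, 2), (5, 2)]
    mix := [(0, 0), (0, 1), (1, 1), (1, 2), (1, 3), (1, 4), (2, 0), (2, 5), (2, 6), (2, 7), (3, 2), (3,
      3), (3, 6), (4, 4), (4, 5), (4, 8), (5, 5), (5, 6), (5, 9)]
    cl := [2, 3, 4, 5, 3, 0, 1, 0, 6, 7]
    chq := [(1, 3), (2, 6), (3, 1), (6, 2)]
    rng := [(0, 1), (0, 7), (1, 0), (1, 2), (2, 1), (2, 6), (3, 4), (3, 6), (4, 3), (4, 8), (5, 8), (5,
      9), (6, 2), (6, 3), (6, 7), (6, 9), (7, 0), (7, 6), (8, 4), (8, 5), (9, 5), (9, 6)]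
    lev := [] }
  links := [[1, 4, 2, 6, 7], [4, 0, 7, 8, 3, 9, 10], [6, 0, 4, 11, 5, 12, 13], [9, 1, 8, 12], [11, 2, 0,
    1, 10, 14], [12, 2, 11, 15]]
  P := {
    a := 6
    N := 16
    nb := [214, 1945, 14449, 4866, 19463, 38916, 8325, 323, 4234, 5130, 16914, 49204, 41772, 4164,
      3088, 6176]
    tri := [(0, 1, 4), (0, 1, 7), (0, 2, 4), (0, 2, 6), (0, 6, 7), (1, 3, 8), (1, 3, 9), (1, 4, 10),
      (1, 7, 8), (1, 9, 10), (2, 4, 11), (2, 5, 11), (2, 5, 12), (2, 6, 13), (2, 12, 13), (3, 8,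
      12), (3, 9, 12), (4, 10, 14), (4, 11, 14), (5, 11, 15), (5, 12, 15)]
    fin := [0, 1, 2, 1, 0, 5, 0, 1, 8, 9, 1, 2, 5, 2, 14, 15]
    chd := [(0, 14), (1, 5)]
    steps := [(0, 4), (0, 6), (1, 3), (1, 7), (1, 10), (2, 11), (2, 13), (5, 12)] }
  rep := [2, 5, 0, 1, 8, 9, 14, 15]

noncomputable def v1566 : Cov.CovD where
  P := 3
  N := 5
  pl := [2, 3, 9]
  lev := [⟨[], [], [(2, 3)], [], [(0, 2, [6]), (1, 3, [1])]⟩,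
    ⟨[], [(0, 2), (0, 3)], [(3, 3)], [4, 5], [(1, 3, [1]), (4, 3, [1])]⟩,
    ⟨[(0, 1)], [(0, 0), (0, 1), (0, 2), (0, 3)], [(0, 0), (0, 1), (0, 2), (1, 2)], [], [(0,
      2, [6]), (5, 0, []), (6, 1, [3]), (7, 0, [])]⟩,
    ⟨[(0, 1)], [(1, 1), (1, 3), (2, 1)], [], [4, 5], [(6, 1, [3])]⟩,
    ⟨[(0, 1), (0, 2), (1, 2), (1, 3)], [(0, 0), (0, 2), (0, 3), (0, 6), (1, 0), (1, 3), (1,
      6), (2, 0), (2, 1), (2, 2), (2, 3), (2, 6)], [(0, 3), (0, 6), (3, 6)], [], [(4, 3,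
      [1]), (5, 0, []), (8, 6, [2])]⟩,
    ⟨[(0, 2), (2, 4)], [(2, 0), (2, 1), (2, 2), (3, 1), (4, 0)], [(0, 1)], [7], [(5, 0,
      []), (6, 1, [3])]⟩]
  Ta := [((1, 0), 3, 2), ((1, 2), 3, 4), ((4, 3), 3, 5), ((4, 8), 3, 6), ((5, 8), 0, 6), ((5, 9),
    0, 7), ((7, 0), 0, 2), ((7, 6), 0, 1)]
  Tb := [((0, 1, 7), 2, 3, 0), ((1, 0, 2), 3, 2, 4), ((2, 1, 6), 4, 3, 1), ((3, 4, 6), 5, 3, 1),
    ((4, 3, 8), 3, 5, 6), ((5, 8, 9), 0, 6, 7), ((6, 2, 3), 1, 4, 5), ((6, 2, 7), 1, 4, 0),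
    ((6, 2, 9), 1, 4, 7), ((6, 3, 7), 1, 5, 0), ((6, 3, 9), 1, 5, 7), ((6, 7, 9), 1, 0, 7),
    ((7, 0, 6), 0, 2, 1), ((8, 4, 5), 6, 3, 0), ((9, 5, 6), 7, 0, 1)]
  Tc := []
  Td := [((1, 3), (6, 2), 4), ((1, 3), (6, 3), 5), ((1, 3), (6, 7), 0), ((1, 3), (6, 9), 7), ((2,
    6), (0, 1), 3), ((2, 6), (0, 7), 0), ((3, 1), (1, 0), 2), ((3, 1), (1, 2), 4), ((3, 1),
    (4, 3), 5), ((3, 1), (4, 8), 6), ((6, 2), (8, 4), 3), ((6, 2), (8, 5), 0)]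
  G := [[0, 0, 0, 0xc244c2145c288cc61888cc218bc288c844446c4c8ed,
    0xc488c46cac484f8c4c4c4d8c418f2], [0, 0, 0, 0xc244ccacca546c288cc688c218bc,
    0xc488c4189c44ca84d8c4c4c4d863], [0, 0x62a2a2e411, 0xc18812944144188c111e18f2,
    0x1212541414c81214b121298181811ad412147c, 0x148811cb48141414d81418f2], [0, 0xc262a2e814,
    0xc1444c184c1c1c8111e14ba, 0x1244c1c111ad41214712888c, 0x141414d81418314881411ac8c3]]

noncomputable def n1566 : Ent := ⟨e1566, noF, [], [], []⟩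

def c1566 : PLift (Cov.check n1566.C.D v1566 = true) := ⟨by decide +kernel⟩

def b1566 : PLift (entF (fidx ts) 400 1566 n1566 = true) := ⟨by decide +kernel⟩

theorem g1566 : GoodF (fidx ts) 400 1566 := GoodF.ofV v1566 n1566 c1566.down b1566.down

/-- 577464:1281/3 -/
noncomputable def e1567 : SCfg where
  D := {
    a := 6
    L := 10
    kp := 7
    inn := [(0, 1), (0, 2), (0, 4), (1, 0), (1, 3), (1, 4), (2, 0), (2, 4), (2, 5), (3, 1), (4, 0), (4,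
      1), (4, 2), (5, 2)]
    mix := [(0, 0), (0, 1), (1, 1), (1, 2), (1, 3), (1, 4), (2, 0), (2, 5), (2, 6), (2, 7), (3, 2), (3,
      3), (3, 7), (4, 4), (4, 5), (4, 8), (5, 5), (5, 6), (5, 9)]
    cl := [3, 1, 2, 1, 4, 0, 5, 0, 6, 7]
    chq := [(3, 4), (3, 6), (4, 3), (6, 3)]
    rng := [(0, 1), (0, 7), (1, 0), (1, 2), (2, 1), (2, 7), (3, 4), (3, 7), (4, 3), (4, 8), (5, 8), (5,
      9), (6, 7), (6, 9), (7, 0), (7, 2), (7, 3), (7, 6), (8, 4), (8, 5), (9, 5), (9, 6)]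
    lev := [] }
  links := [[1, 4, 2, 6, 7], [4, 0, 7, 8, 3, 9, 10], [6, 0, 4, 11, 5, 12, 13], [9, 1, 8, 13], [11, 2, 0,
    1, 10, 14], [12, 2, 11, 15]]
  P := {
    a := 6
    N := 16
    nb := [214, 1945, 14449, 8962, 19463, 38916, 8325, 323, 8330, 9226, 16914, 49204, 40996, 4940,
      3088, 6176]
    tri := [(0, 1, 4), (0, 1, 7), (0, 2, 4), (0, 2, 6), (0, 6, 7), (1, 3, 8), (1, 3, 9), (1, 4, 10),
      (1, 7, 8), (1, 9, 10), (2, 4, 11), (2, 5, 11), (2, 5, 12), (2, 6, 13), (2, 12, 13), (3, 8,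
      13), (3, 9, 13), (4, 10, 14), (4, 11, 14), (5, 11, 15), (5, 12, 15)]
    fin := [0, 1, 2, 1, 0, 2, 0, 1, 8, 1, 10, 2, 12, 2, 14, 15]
    chd := [(0, 10), (0, 14)]
    steps := [(0, 4), (0, 6), (1, 3), (1, 7), (1, 9), (2, 5), (2, 13), (2, 11)] }
  rep := [2, 1, 8, 0, 10, 12, 14, 15]

noncomputable def v1567 : Cov.CovD where
  P := 3
  N := 5
  pl := [2, 6, 9]
  lev := [⟨[], [], [(1, 3)], [], [(0, 3, [4, 6]), (1, 1, [])]⟩,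
    ⟨[], [(0, 1), (0, 3), (0, 4)], [(1, 1), (1, 4)], [2], [(1, 1, []), (3, 1, []), (4, 4,
      [3])]⟩,
    ⟨[(0, 1)], [(0, 0), (0, 1), (0, 3)], [(0, 0), (0, 3)], [5], [(0, 3, [4, 6]), (5, 0,
      []), (7, 0, [])]⟩,
    ⟨[(0, 1)], [(1, 0), (1, 1), (1, 4), (2, 0)], [(0, 1)], [2], [(3, 1, []), (7, 0, [])]⟩,
    ⟨[(0, 1), (0, 2), (1, 2), (1, 3)], [(0, 0), (0, 1), (0, 3), (0, 4), (0, 6), (1, 0), (1,
      1), (1, 4), (1, 6), (2, 0), (2, 3), (2, 4), (2, 6)], [(0, 4), (0, 6), (4, 6)], [], [(4,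
      4, [3]), (5, 0, []), (8, 6, [3])]⟩,
    ⟨[(0, 2), (2, 4)], [(2, 0), (2, 3), (4, 0)], [], [5, 7], [(5, 0, [])]⟩]
  Ta := [((1, 0), 1, 3), ((1, 2), 1, 2), ((3, 4), 1, 4), ((3, 7), 1, 0), ((5, 8), 0, 6), ((5, 9),
    0, 7), ((7, 0), 0, 3), ((7, 2), 0, 2), ((7, 3), 0, 1), ((7, 6), 0, 5)]
  Tb := [((0, 1, 7), 3, 1, 0), ((1, 0, 2), 1, 3, 2), ((2, 1, 7), 2, 1, 0), ((3, 4, 7), 1, 4, 0),
    ((4, 3, 8), 4, 1, 6), ((5, 8, 9), 0, 6, 7), ((6, 7, 9), 5, 0, 7), ((7, 0, 2), 0, 3, 2),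
    ((7, 0, 3), 0, 3, 1), ((7, 0, 6), 0, 3, 5), ((7, 2, 3), 0, 2, 1), ((7, 2, 6), 0, 2, 5),
    ((7, 3, 6), 0, 1, 5), ((8, 4, 5), 6, 4, 0), ((9, 5, 6), 7, 0, 5)]
  Tc := [(3, 4, 6)]
  Td := [((3, 4), (0, 1), 1), ((3, 4), (0, 7), 0), ((3, 6), (0, 1), 1), ((3, 6), (0, 7), 0), ((4,
    3), (4, 3), 1), ((4, 3), (4, 8), 6), ((6, 3), (8, 4), 4), ((6, 3), (8, 5), 0)]
  G := [[0, 0, 0, 0x4cce8c81e6c1ec88a6c8651, 0xca68cea1aec2eca6886a886c2e91], [0, 0, 0, 0,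
    0xc48c8ce1aec1ec48a6c8a91], [0, 0, 0x12411a4184e1162122142ec1,
    0x11681e98d458e411a4aa9468c, 0x1168d22642e11c32182a8142c6a2642e8d], [0,
    0x12811a4184e1168124148ec1, 0x11a411a4611681168ac1, 0,
    0x11686168a1188a886114811687d68e8d]]

noncomputable def n1567 : Ent := ⟨e1567, noF, [], [], []⟩

def c1567 : PLift (Cov.check n1567.C.D v1567 = true) := ⟨by decide +kernel⟩

def b1567 : PLift (entF (fidx ts) 400 1567 n1567 = true) := ⟨by decide +kernel⟩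

theorem g1567 : GoodF (fidx ts) 400 1567 := GoodF.ofV v1567 n1567 c1567.down b1567.down

/-- 577464:1281 -/
noncomputable def e1568 : SCfg where
  D := {
    a := 6
    L := 11
    kp := 8
    inn := [(0, 1), (0, 2), (0, 4), (1, 0), (1, 3), (1, 4), (2, 0), (2, 4), (2, 5), (3, 1), (4, 0), (4,
      1), (4, 2), (5, 2)]
    mix := [(0, 0), (0, 1), (1, 1), (1, 2), (1, 3), (1, 4), (2, 0), (2, 5), (2, 6), (2, 7), (3, 2), (3,
      3), (3, 8), (4, 4), (4, 5), (4, 9), (5, 5), (5, 6), (5, 10)]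
    cl := [1, 0, 4, 2, 0, 3, 5, 3, 6, 7, 8]
    chq := [(0, 6), (1, 7), (6, 0), (7, 1)]
    rng := [(0, 1), (0, 7), (1, 0), (1, 2), (2, 1), (2, 8), (3, 4), (3, 8), (4, 3), (4, 9), (5, 9), (5,
      10), (6, 7), (6, 10), (7, 0), (7, 6), (8, 2), (8, 3), (9, 4), (9, 5), (10, 5), (10, 6)]
    lev := [] }
  links := [[1, 4, 2, 6, 7], [4, 0, 7, 8, 3, 9, 10], [6, 0, 4, 11, 5, 12, 13], [9, 1, 8, 14], [11, 2, 0,
    1, 10, 15], [12, 2, 11, 16]]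
  P := {
    a := 6
    N := 17
    nb := [214, 1945, 14449, 17154, 35847, 71684, 8325, 323, 16522, 17418, 33298, 98356, 73764, 4164,
      776, 3088, 6176]
    tri := [(0, 1, 4), (0, 1, 7), (0, 2, 4), (0, 2, 6), (0, 6, 7), (1, 3, 8), (1, 3, 9), (1, 4, 10),
      (1, 7, 8), (1, 9, 10), (2, 4, 11), (2, 5, 11), (2, 5, 12), (2, 6, 13), (2, 12, 13), (3, 8,
      14), (3, 9, 14), (4, 10, 15), (4, 11, 15), (5, 11, 16), (5, 12, 16)]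
    fin := [0, 1, 2, 1, 0, 2, 0, 1, 8, 9, 1, 2, 12, 2, 14, 15, 16]
    chd := [(0, 15), (1, 14)]
    steps := [(0, 4), (0, 6), (1, 3), (1, 7), (1, 10), (2, 5), (2, 11), (2, 13)] }
  rep := [1, 0, 9, 2, 8, 12, 14, 15, 16]

noncomputable def v1568 : Cov.CovD where
  P := 3
  N := 6
  pl := [2, 3, 6, 10]
  lev := [⟨[], [], [(0, 1)], [], [(0, 1, [7]), (1, 0, [6])]⟩,
    ⟨[], [(0, 0), (0, 1)], [(0, 0)], [2, 4], [(1, 0, [6]), (4, 0, [6])]⟩,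
    ⟨[(0, 1)], [(0, 0), (0, 1), (0, 3)], [(1, 3), (3, 3)], [5], [(0, 1, [7]), (5, 3, []),
      (7, 3, [])]⟩,
    ⟨[(0, 1)], [(1, 0), (1, 6)], [], [2, 4], [(8, 6, [0])]⟩,
    ⟨[(0, 1), (0, 2), (1, 2), (1, 3)], [(0, 0), (0, 1), (0, 3), (0, 7), (1, 0), (1, 3), (1,
      7), (2, 0), (2, 1), (2, 3), (2, 7)], [(0, 3), (0, 7), (3, 7)], [], [(4, 0, [6]), (5, 3,
      []), (9, 7, [1])]⟩,
    ⟨[(0, 2), (2, 4)], [(2, 1), (2, 3), (4, 3)], [], [5, 8], [(5, 3, [])]⟩]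
  Ta := [((1, 0), 0, 1), ((1, 2), 0, 4), ((4, 3), 0, 2), ((4, 9), 0, 7), ((5, 9), 3, 7), ((5,
    10), 3, 8), ((7, 0), 3, 1), ((7, 6), 3, 5)]
  Tb := [((0, 1, 7), 1, 0, 3), ((1, 0, 2), 0, 1, 4), ((2, 1, 8), 4, 0, 6), ((3, 4, 8), 2, 0, 6),
    ((4, 3, 9), 0, 2, 7), ((5, 9, 10), 3, 7, 8), ((6, 7, 10), 5, 3, 8), ((7, 0, 6), 3, 1, 5),
    ((8, 2, 3), 6, 4, 2), ((9, 4, 5), 7, 0, 3), ((10, 5, 6), 8, 3, 5)]
  Tc := []
  Td := [((0, 6), (1, 0), 1), ((0, 6), (1, 2), 4), ((0, 6), (4, 3), 2), ((0, 6), (4, 9), 7), ((1,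
    7), (0, 1), 0), ((1, 7), (0, 7), 3), ((6, 0), (8, 2), 4), ((6, 0), (8, 3), 2), ((7, 1),
    (9, 4), 0), ((7, 1), (9, 5), 3)]
  G := [[0, 0x911311a3112c5114911511cc6, 0, 0x6214626262d4ca2a2a2d323232d9a213219cc,
    0x626233232354264f666b9333e15aa282a2b3289222daaa738ac], [0, 0x911511c11e911a11c11ec2, 0,
    0x52525e2e2572b2d2dd4d2e2992929d21d8c, 0x6262348e2d29928d23232bd11ad4a7e311ab134a1dac],
    [0, 0, 0x6262632326543232a18a2a2a6262aca2a268cd, 0x32113211ca21621ca21621cc9,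
    0xa213219b73e11a62142aa1c26e184c1ea5], [0, 0, 0x524d24b2326d4a28d2c2a9862843ac263c2cad,
    0x6213215521e21d21dca21889, 0x321134a11aa21621c1ac163c1ca5]]

noncomputable def n1568 : Ent := ⟨e1568, noF, [], [], [(14, 16, [1580044410770988437309982408355971841652082177953823432505695522817, 0]), (14, 12, [1685382413451318758934040885149836426626918246969510546689738530817, 0]), (14, 13, [1685382419725355503238989871268909155780284044704628512909405843457, 0])]⟩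

def c1568 : PLift (Cov.check n1568.C.D v1568 = true) := ⟨by decide +kernel⟩

def b1568 : PLift (entF (fidx ts) 400 1568 n1568 = true) := ⟨by decide +kernel⟩

theorem g1568 : GoodF (fidx ts) 400 1568 := GoodF.ofV v1568 n1568 c1568.down b1568.down

/-- 4847454:1288/1 -/
noncomputable def e1569 : SCfg where
  D := {
    a := 7
    L := 9
    kp := 6
    inn := [(0, 1), (1, 0), (1, 2), (1, 3), (1, 4), (1, 5), (2, 1), (2, 5), (3, 1), (3, 4), (3, 6), (4,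
      1), (4, 3), (5, 1), (5, 2), (6, 3)]
    mix := [(0, 0), (0, 1), (0, 2), (1, 0), (1, 2), (1, 3), (2, 3), (2, 4), (3, 3), (3, 5), (3, 6), (3,
      7), (4, 0), (4, 7), (5, 2), (5, 4), (5, 8), (6, 1), (6, 6), (6, 7)]
    cl := [1, 2, 0, 0, 4, 3, 5, 3, 6]
    chq := [(0, 1), (1, 0)]
    rng := [(0, 1), (0, 7), (1, 0), (1, 2), (1, 6), (1, 7), (2, 1), (2, 8), (3, 4), (3, 5), (4, 3), (4,
      8), (5, 3), (5, 6), (6, 1), (6, 5), (7, 0), (7, 1), (8, 2), (8, 4)]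
    lev := [] }
  links := [[1, 7, 8, 9], [7, 0, 9, 5, 2, 10, 3, 4], [10, 1, 5, 11], [4, 1, 10, 12, 13, 6, 14], [7, 1, 3,
    14], [11, 2, 1, 9, 15], [14, 3, 13, 8]]
  P := {
    a := 7
    N := 16
    nb := [898, 1725, 3106, 29778, 16522, 35334, 24840, 16659, 25281, 33059, 6158, 33828, 9224, 4424,
      472, 2592]
    tri := [(0, 1, 7), (0, 1, 9), (0, 7, 8), (0, 8, 9), (1, 2, 5), (1, 2, 10), (1, 3, 4), (1, 3, 10),
      (1, 4, 7), (1, 5, 9), (2, 5, 11), (2, 10, 11), (3, 4, 14), (3, 6, 13), (3, 6, 14), (3, 10,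
      12), (3, 12, 13), (4, 7, 14), (5, 9, 15), (5, 11, 15), (6, 8, 13), (6, 8, 14)]
    fin := [0, 0, 2, 3, 0, 2, 6, 0, 6, 2, 2, 11, 3, 13, 3, 15]
    chd := [(0, 2)]
    steps := [(0, 1), (0, 4), (0, 7), (2, 5), (2, 9), (2, 10), (3, 12), (3, 14), (6, 8)] }
  rep := [2, 0, 6, 3, 11, 13, 15]

noncomputable def v1569 : Cov.CovD where
  P := 3
  N := 4
  pl := [1, 4, 6, 8]
  lev := [⟨[], [], [(0, 1)], [2], [(0, 1, [0]), (2, 0, [1])]⟩,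
    ⟨[], [(0, 0), (0, 1)], [(0, 0), (0, 1)], [], [(0, 1, [0]), (2, 0, [1]), (3, 0, [1])]⟩,
    ⟨[(0, 1)], [(1, 0), (1, 1)], [], [4], [(3, 0, [1])]⟩,
    ⟨[(0, 1), (1, 2)], [(1, 0), (1, 1), (1, 3), (2, 0)], [(0, 3), (3, 3)], [5], [(3, 0,
      [1]), (5, 3, []), (7, 3, [])]⟩,
    ⟨[(0, 1), (1, 2), (1, 3)], [(0, 1), (1, 0), (1, 1), (1, 3), (3, 0), (3, 1), (3, 3)],
      [(1, 3)], [], [(0, 1, [0]), (7, 3, [])]⟩,
    ⟨[(0, 1), (1, 2), (1, 3), (1, 4)], [(0, 0), (1, 0), (1, 1), (2, 0)], [], [4, 6], [(2,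
      0, [1])]⟩,
    ⟨[(1, 3), (3, 4)], [(3, 0), (3, 3), (4, 3)], [], [2, 5], [(7, 3, [])]⟩]
  Ta := [((2, 1), 0, 2), ((2, 8), 0, 6), ((3, 4), 0, 4), ((3, 5), 0, 3), ((5, 3), 3, 0), ((5, 6),
    3, 5), ((7, 0), 3, 1), ((7, 1), 3, 2)]
  Tb := [((0, 1, 7), 1, 2, 3), ((1, 0, 2), 2, 1, 0), ((1, 0, 6), 2, 1, 5), ((1, 0, 7), 2, 1, 3),
    ((1, 2, 6), 2, 0, 5), ((1, 2, 7), 2, 0, 3), ((1, 6, 7), 2, 5, 3), ((2, 1, 8), 0, 2, 6),
    ((3, 4, 5), 0, 4, 3), ((4, 3, 8), 4, 0, 6), ((5, 3, 6), 3, 0, 5), ((6, 1, 5), 5, 2, 3),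
    ((7, 0, 1), 3, 1, 2), ((8, 2, 4), 6, 0, 4)]
  Tc := []
  Td := [((0, 1), (2, 1), 2), ((0, 1), (2, 8), 6), ((0, 1), (3, 4), 4), ((0, 1), (3, 5), 3), ((1,
    0), (0, 1), 2), ((1, 0), (0, 7), 3)]
  G := [[0, 0x81241834118123a44, 0xa441468816281ac4, 0x999e42184, 0x8414411a8822e161c8], [0,
    0x41144811411111e811111aca8, 0x88681444e1222e16588a818c4, 0xdd6121d8121c8,
    0x14441888e113a1221e1e1c8], [0, 0x41181434118143c84, 0, 0x518255a82648,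
    0x11422646488a121168c8], [0, 0x811114511e811411111ec28, 0, 0xd112dda12684,
    0x11914811211a88a1113122a1ee48]]

noncomputable def n1569 : Ent := ⟨e1569, noF, [], [], []⟩

def c1569 : PLift (Cov.check n1569.C.D v1569 = true) := ⟨by decide +kernel⟩

def b1569 : PLift (entF (fidx ts) 400 1569 n1569 = true) := ⟨by decide +kernel⟩

theorem g1569 : GoodF (fidx ts) 400 1569 := GoodF.ofV v1569 n1569 c1569.down b1569.down

/-- 4847454:1288/2 -/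
noncomputable def e1570 : SCfg where
  D := {
    a := 7
    L := 9
    kp := 6
    inn := [(0, 1), (1, 0), (1, 2), (1, 3), (1, 4), (1, 5), (2, 1), (2, 5), (3, 1), (3, 4), (3, 6), (4,
      1), (4, 3), (5, 1), (5, 2), (6, 3)]
    mix := [(0, 0), (0, 1), (0, 2), (1, 0), (1, 2), (1, 3), (2, 3), (2, 4), (3, 3), (3, 5), (3, 6), (3,
      7), (4, 0), (4, 7), (5, 2), (5, 4), (5, 8), (6, 6), (6, 7), (6, 8)]
    cl := [2, 6, 0, 0, 3, 1, 4, 1, 5]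
    chq := [(0, 2), (2, 0)]
    rng := [(0, 1), (0, 7), (1, 0), (1, 2), (2, 1), (2, 8), (3, 4), (3, 5), (4, 3), (4, 8), (5, 3), (5,
      6), (6, 5), (6, 8), (7, 0), (7, 8), (8, 2), (8, 4), (8, 6), (8, 7)]
    lev := [] }
  links := [[1, 7, 8, 9], [7, 0, 9, 5, 2, 10, 3, 4], [10, 1, 5, 11], [4, 1, 10, 12, 13, 6, 14], [7, 1, 3,
    14], [11, 2, 1, 9, 15], [14, 3, 13, 15]]
  P := {
    a := 7
    N := 16
    nb := [898, 1725, 3106, 29778, 16522, 35334, 57352, 16659, 641, 33059, 6158, 33828, 9224, 36936,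
      32984, 27232]
    tri := [(0, 1, 7), (0, 1, 9), (0, 7, 8), (0, 8, 9), (1, 2, 5), (1, 2, 10), (1, 3, 4), (1, 3, 10),
      (1, 4, 7), (1, 5, 9), (2, 5, 11), (2, 10, 11), (3, 4, 14), (3, 6, 13), (3, 6, 14), (3, 10,
      12), (3, 12, 13), (4, 7, 14), (5, 9, 15), (5, 11, 15), (6, 13, 15), (6, 14, 15)]
    fin := [0, 0, 2, 3, 0, 2, 6, 0, 8, 2, 2, 11, 3, 13, 3, 6]
    chd := [(0, 2)]
    steps := [(0, 1), (0, 4), (0, 7), (2, 5), (2, 9), (2, 10), (3, 12), (3, 14), (6, 15)] }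
  rep := [2, 3, 0, 11, 13, 6, 8]

noncomputable def v1570 : Cov.CovD where
  P := 3
  N := 4
  pl := [1, 4, 6, 8]
  lev := [⟨[], [], [(0, 2)], [6], [(0, 2, [0]), (2, 0, [2])]⟩,
    ⟨[], [(0, 0), (0, 2)], [(0, 0), (0, 2)], [], [(0, 2, [0]), (2, 0, [2]), (3, 0, [2])]⟩,
    ⟨[(0, 1)], [(1, 0), (1, 2)], [], [3], [(3, 0, [2])]⟩,
    ⟨[(0, 1), (1, 2)], [(1, 0), (1, 1), (1, 2), (2, 0)], [(0, 1), (1, 1)], [4], [(3, 0,
      [2]), (5, 1, []), (7, 1, [])]⟩,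
    ⟨[(0, 1), (1, 2), (1, 3)], [(0, 2), (1, 0), (1, 1), (1, 2), (3, 0), (3, 1), (3, 2)],
      [(1, 2)], [], [(0, 2, [0]), (7, 1, [])]⟩,
    ⟨[(0, 1), (1, 2), (1, 3), (1, 4)], [(0, 0), (1, 0), (1, 2), (2, 0)], [], [3, 5], [(2,
      0, [2])]⟩,
    ⟨[(1, 3), (3, 4)], [(3, 0), (3, 1), (4, 1)], [], [4, 5], [(7, 1, [])]⟩]
  Ta := [((2, 1), 0, 6), ((2, 8), 0, 5), ((3, 4), 0, 3), ((3, 5), 0, 1), ((5, 3), 1, 0), ((5, 6),
    1, 4), ((7, 0), 1, 2), ((7, 8), 1, 5)]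
  Tb := [((0, 1, 7), 2, 6, 1), ((1, 0, 2), 6, 2, 0), ((2, 1, 8), 0, 6, 5), ((3, 4, 5), 0, 3, 1),
    ((4, 3, 8), 3, 0, 5), ((5, 3, 6), 1, 0, 4), ((6, 5, 8), 4, 1, 5), ((7, 0, 8), 1, 2, 5),
    ((8, 2, 4), 5, 0, 3), ((8, 2, 6), 5, 0, 4), ((8, 2, 7), 5, 0, 1), ((8, 4, 6), 5, 3, 4),
    ((8, 4, 7), 5, 3, 1), ((8, 6, 7), 5, 4, 1)]
  Tc := []
  Td := [((0, 2), (2, 1), 6), ((0, 2), (2, 8), 5), ((0, 2), (3, 4), 3), ((0, 2), (3, 5), 1), ((2,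
    0), (0, 1), 6), ((2, 0), (0, 7), 1)]
  G := [[0, 0, 0x218118c42211114c82214121c28e, 0, 0x2281c9241e1c12a286285282c124c8c1aa], [0, 0,
    0xd11891146251881184c29184d148a4e, 0x45614111688c188c9218cc1161145e1c188a181cc,
    0x1489a9145e8c12121d21c289c114c1c1aa], [0, 0x118411881182e4114411421148e8c,
    0x1124421188a128224c1211442118c2e, 0, 0x14c24221122c681c188a1], [0, 0,
    0x118d11c2251849118c2111851848848d2e, 0x116114c1c9214685a488c1, 0x81a114a1c11684961cc21]]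

noncomputable def n1570 : Ent := ⟨e1570, noF, [], [], []⟩

def c1570 : PLift (Cov.check n1570.C.D v1570 = true) := ⟨by decide +kernel⟩

def b1570 : PLift (entF (fidx ts) 400 1570 n1570 = true) := ⟨by decide +kernel⟩

theorem g1570 : GoodF (fidx ts) 400 1570 := GoodF.ofV v1570 n1570 c1570.down b1570.down

/-- 4847454:1288 -/
noncomputable def e1571 : SCfg where
  D := {
    a := 7
    L := 10
    kp := 7
    inn := [(0, 1), (1, 0), (1, 2), (1, 3), (1, 4), (1, 5), (2, 1), (2, 5), (3, 1), (3, 4), (3, 6), (4,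
      1), (4, 3), (5, 1), (5, 2), (6, 3)]
    mix := [(0, 0), (0, 1), (0, 2), (1, 0), (1, 2), (1, 3), (2, 3), (2, 4), (3, 3), (3, 5), (3, 6), (3,
      7), (4, 0), (4, 7), (5, 2), (5, 4), (5, 8), (6, 6), (6, 7), (6, 9)]
    cl := [2, 5, 0, 0, 3, 1, 4, 1, 6, 7]
    chq := [(0, 2), (2, 0)]
    rng := [(0, 1), (0, 7), (1, 0), (1, 2), (2, 1), (2, 8), (3, 4), (3, 5), (4, 3), (4, 8), (5, 3), (5,
      6), (6, 5), (6, 9), (7, 0), (7, 9), (8, 2), (8, 4), (9, 6), (9, 7)]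
    lev := [] }
  links := [[1, 7, 8, 9], [7, 0, 9, 5, 2, 10, 3, 4], [10, 1, 5, 11], [4, 1, 10, 12, 13, 6, 14], [7, 1, 3,
    14], [11, 2, 1, 9, 15], [14, 3, 13, 16]]
  P := {
    a := 7
    N := 17
    nb := [898, 1725, 3106, 29778, 16522, 35334, 90120, 16659, 641, 33059, 6158, 33828, 9224, 69704,
      65752, 2592, 24640]
    tri := [(0, 1, 7), (0, 1, 9), (0, 7, 8), (0, 8, 9), (1, 2, 5), (1, 2, 10), (1, 3, 4), (1, 3, 10),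
      (1, 4, 7), (1, 5, 9), (2, 5, 11), (2, 10, 11), (3, 4, 14), (3, 6, 13), (3, 6, 14), (3, 10,
      12), (3, 12, 13), (4, 7, 14), (5, 9, 15), (5, 11, 15), (6, 13, 16), (6, 14, 16)]
    fin := [0, 0, 2, 3, 0, 2, 3, 0, 8, 2, 2, 11, 3, 13, 3, 15, 16]
    chd := [(0, 2)]
    steps := [(0, 1), (0, 4), (0, 7), (2, 5), (2, 9), (2, 10), (3, 6), (3, 12), (3, 14)] }
  rep := [2, 3, 0, 11, 13, 8, 15, 16]

noncomputable def v1571 : Cov.CovD where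
  P := 3
  N := 5
  pl := [1, 4, 6, 8, 9]
  lev := [⟨[], [], [(0, 2)], [5], [(0, 2, [0]), (2, 0, [2])]⟩,
    ⟨[], [(0, 0), (0, 2)], [(0, 0), (0, 2)], [], [(0, 2, [0]), (2, 0, [2]), (3, 0, [2])]⟩,
    ⟨[(0, 1)], [(1, 0), (1, 2)], [], [3], [(3, 0, [2])]⟩,
    ⟨[(0, 1), (1, 2)], [(1, 0), (1, 1), (1, 2), (2, 0)], [(0, 1), (1, 1)], [4], [(3, 0,
      [2]), (5, 1, []), (7, 1, [])]⟩,
    ⟨[(0, 1), (1, 2), (1, 3)], [(0, 2), (1, 0), (1, 1), (1, 2), (3, 0), (3, 1), (3, 2)],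
      [(1, 2)], [], [(0, 2, [0]), (7, 1, [])]⟩,
    ⟨[(0, 1), (1, 2), (1, 3), (1, 4)], [(0, 0), (1, 0), (1, 2), (2, 0)], [], [3, 6], [(2,
      0, [2])]⟩,
    ⟨[(1, 3), (3, 4)], [(3, 0), (3, 1), (4, 1)], [], [4, 7], [(7, 1, [])]⟩]
  Ta := [((2, 1), 0, 5), ((2, 8), 0, 6), ((3, 4), 0, 3), ((3, 5), 0, 1), ((5, 3), 1, 0), ((5, 6),
    1, 4), ((7, 0), 1, 2), ((7, 9), 1, 7)]
  Tb := [((0, 1, 7), 2, 5, 1), ((1, 0, 2), 5, 2, 0), ((2, 1, 8), 0, 5, 6), ((3, 4, 5), 0, 3, 1),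
    ((4, 3, 8), 3, 0, 6), ((5, 3, 6), 1, 0, 4), ((6, 5, 9), 4, 1, 7), ((7, 0, 9), 1, 2, 7),
    ((8, 2, 4), 6, 0, 3), ((9, 6, 7), 7, 4, 1)]
  Tc := []
  Td := [((0, 2), (2, 1), 5), ((0, 2), (2, 8), 6), ((0, 2), (3, 4), 3), ((0, 2), (3, 5), 1), ((2,
    0), (0, 1), 5), ((2, 0), (0, 7), 1)]
  G := [[0, 0, 0x211511c22c18214582214518c42e, 0, 0x399e1622e8c122261255e1c198181aa], [0, 0,
    0x91185184c2914518c225114891184ae, 0x5561414881d9a945188c9c848111645d5e1c598a181cc,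
    0x999e1555e8c12d288285116154589c398c181aa], [0, 0x11682116446111e8184a8c1,
    0xd1142821417148c8d1482181c2e, 0, 0x23a856a1ca2616561cc21], [0, 0,
    0x911518c914518cc2911518c911518c62c, 0x544894524894699c1181c929458ac1,
    0x99a155a8c99615568cc21]]

noncomputable def n1571 : Ent := ⟨e1571, noF, [], [], [(8, 16, [1580044410770988437309982408355971841652082177953823432505695539201, 0]), (15, 16, [1580044410770988437309982408355971841652082177953823432505695543297, 0])]⟩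

def c1571 : PLift (Cov.check n1571.C.D v1571 = true) := ⟨by decide +kernel⟩

def b1571 : PLift (entF (fidx ts) 400 1571 n1571 = true) := ⟨by decide +kernel⟩

theorem g1571 : GoodF (fidx ts) 400 1571 := GoodF.ofV v1571 n1571 c1571.down b1571.down

/-- 4847564:1303/1 -/
noncomputable def e1572 : SCfg where
  D := {
    a := 7
    L := 10
    kp := 7
    inn := [(0, 1), (0, 4), (1, 0), (1, 2), (1, 3), (1, 4), (1, 5), (2, 1), (2, 5), (3, 1), (3, 5), (3,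
      6), (4, 0), (4, 1), (5, 1), (5, 2), (5, 3), (6, 3)]
    mix := [(0, 0), (0, 1), (1, 1), (1, 2), (1, 3), (2, 2), (2, 4), (3, 3), (3, 5), (3, 6), (3, 7), (4,
      0), (4, 3), (4, 8), (5, 4), (5, 5), (5, 9), (6, 0), (6, 5), (6, 6)]
    cl := [1, 0, 2, 0, 4, 3, 5, 3, 7, 6]
    chq := [(0, 4), (0, 6), (4, 0), (6, 0)]
    rng := [(0, 1), (0, 5), (0, 6), (0, 8), (1, 0), (1, 2), (2, 1), (2, 4), (3, 7), (3, 8), (4, 2), (4,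
      9), (5, 0), (5, 9), (6, 0), (6, 7), (7, 3), (7, 6), (8, 0), (8, 3), (9, 4), (9, 5)]
    lev := [] }
  links := [[1, 4, 7, 8], [4, 0, 8, 9, 2, 5, 3, 10], [5, 1, 9, 11], [10, 1, 5, 12, 6, 13, 14], [7, 0, 1,
    10, 15], [12, 3, 1, 2, 11, 16], [13, 3, 12, 7]]
  P := {
    a := 7
    N := 17
    nb := [402, 1853, 2594, 29794, 33923, 71694, 12424, 45393, 643, 2310, 49178, 66084, 65768, 16584,
      9224, 1168, 6176]
    tri := [(0, 1, 4), (0, 1, 8), (0, 4, 7), (0, 7, 8), (1, 2, 5), (1, 2, 9), (1, 3, 5), (1, 3, 10),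
      (1, 4, 10), (1, 8, 9), (2, 5, 11), (2, 9, 11), (3, 5, 12), (3, 6, 12), (3, 6, 13), (3, 10,
      14), (3, 13, 14), (4, 7, 15), (4, 10, 15), (5, 11, 16), (5, 12, 16), (6, 7, 12), (6, 7, 13)]
    fin := [0, 1, 1, 3, 0, 1, 0, 0, 1, 9, 1, 11, 3, 13, 3, 15, 16]
    chd := [(1, 11), (1, 16)]
    steps := [(0, 4), (0, 7), (0, 6), (1, 2), (1, 5), (1, 8), (1, 10), (3, 12), (3, 14)] }
  rep := [1, 0, 9, 3, 11, 13, 16, 15]

noncomputable def v1572 : Cov.CovD where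
  P := 3
  N := 5
  pl := [0, 2, 6, 8]
  lev := [⟨[], [], [], [1], [(1, 0, [4, 6])]⟩,
    ⟨[], [(0, 0)], [(0, 0)], [2], [(1, 0, [4, 6]), (3, 0, [4, 6])]⟩,
    ⟨[(0, 1)], [(1, 0), (1, 4)], [], [2], [(4, 4, [0])]⟩,
    ⟨[(0, 1), (1, 2)], [(1, 0), (1, 3)], [(0, 3), (3, 3)], [5], [(3, 0, [4, 6]), (5, 3,
      []), (7, 3, [])]⟩,
    ⟨[(0, 1), (1, 2), (1, 3)], [(0, 0), (1, 0), (3, 0)], [], [1, 7], [(3, 0, [4, 6])]⟩,
    ⟨[(0, 1), (1, 2), (1, 3), (1, 4), (2, 3)], [(1, 0), (1, 3), (1, 4), (1, 6), (2, 3), (2,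
      4), (2, 6), (3, 0), (3, 3), (3, 4), (3, 6)], [(3, 4), (3, 6), (4, 6)], [], [(4, 4,
      [0]), (5, 3, []), (9, 6, [0])]⟩,
    ⟨[(1, 3), (3, 5)], [(3, 0), (3, 3), (5, 3)], [], [1, 5], [(5, 3, [])]⟩]
  Ta := [((1, 0), 0, 1), ((1, 2), 0, 2), ((3, 7), 0, 3), ((3, 8), 0, 7), ((5, 0), 3, 1), ((5, 9),
    3, 6), ((7, 3), 3, 0), ((7, 6), 3, 5)]
  Tb := [((0, 1, 5), 1, 0, 3), ((0, 1, 6), 1, 0, 5), ((0, 1, 8), 1, 0, 7), ((0, 5, 6), 1, 3, 5),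
    ((0, 5, 8), 1, 3, 7), ((0, 6, 8), 1, 5, 7), ((1, 0, 2), 0, 1, 2), ((2, 1, 4), 2, 0, 4),
    ((3, 7, 8), 0, 3, 7), ((4, 2, 9), 4, 2, 6), ((5, 0, 9), 3, 1, 6), ((6, 0, 7), 5, 1, 3),
    ((7, 3, 6), 3, 0, 5), ((8, 0, 3), 7, 1, 0), ((9, 4, 5), 6, 4, 3)]
  Tc := [(0, 4, 6)]
  Td := [((0, 4), (1, 0), 1), ((0, 4), (1, 2), 2), ((0, 4), (3, 7), 3), ((0, 4), (3, 8), 7), ((0,
    6), (1, 0), 1), ((0, 6), (1, 2), 2), ((0, 6), (3, 7), 3), ((0, 6), (3, 8), 7), ((4, 0),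
    (4, 2), 2), ((4, 0), (4, 9), 6), ((6, 0), (9, 4), 4), ((6, 0), (9, 5), 3)]
  G := [[0, 0x4141c2121c618181a81c4, 0x811411111e811411111ec24, 0x4119116111411911ec11188c4,
    0x11122811411111e811411caa4], [0, 0x4141c418181a2121aa1c4, 0x811411111e111411511ec28,
    0x81151161119851846846cb984, 0xc112845184511418282cf924], [0, 0, 0,
    0x8181c1111151ce818118ac41144141c914e44341c4589,
    0x1111c228111c4141c1191ce8181c4141ccaa4], [0, 0, 0,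
    0x41451c1ca44381384d4588181c51c1ca8188c45, 0x8141cc1861151117c238181c4141cc8181c8aa1]]

noncomputable def n1572 : Ent := ⟨e1572, noF, [], [], []⟩

def c1572 : PLift (Cov.check n1572.C.D v1572 = true) := ⟨by decide +kernel⟩

def b1572 : PLift (entF (fidx ts) 400 1572 n1572 = true) := ⟨by decide +kernel⟩

theorem g1572 : GoodF (fidx ts) 400 1572 := GoodF.ofV v1572 n1572 c1572.down b1572.down

/-- 4847564:1303/2 -/
noncomputable def e1573 : SCfg where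
  D := {
    a := 7
    L := 10
    kp := 7
    inn := [(0, 1), (0, 4), (1, 0), (1, 2), (1, 3), (1, 4), (1, 5), (2, 1), (2, 5), (3, 1), (3, 5), (3,
      6), (4, 0), (4, 1), (5, 1), (5, 2), (5, 3), (6, 3)]
    mix := [(0, 0), (0, 1), (1, 1), (1, 2), (1, 3), (2, 2), (2, 4), (3, 3), (3, 5), (3, 6), (3, 7), (4,
      0), (4, 3), (4, 7), (5, 4), (5, 5), (5, 8), (6, 5), (6, 6), (6, 9)]
    cl := [2, 0, 4, 0, 3, 1, 5, 1, 6, 7]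
    chq := [(0, 3), (0, 6), (3, 0), (6, 0)]
    rng := [(0, 1), (0, 7), (1, 0), (1, 2), (2, 1), (2, 4), (3, 7), (4, 2), (4, 8), (5, 8), (5, 9), (6,
      7), (6, 9), (7, 0), (7, 3), (7, 6), (8, 4), (8, 5), (9, 5), (9, 6)]
    lev := [] }
  links := [[1, 4, 7, 8], [4, 0, 8, 9, 2, 5, 3, 10], [5, 1, 9, 11], [10, 1, 5, 12, 6, 13, 14], [7, 0, 1,
    10, 14], [12, 3, 1, 2, 11, 15], [13, 3, 12, 16]]
  P := {
    a := 7
    N := 17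
    nb := [402, 1853, 2594, 29794, 17539, 38926, 77832, 16657, 643, 2310, 16410, 33316, 98408, 81992,
      9368, 6176, 12352]
    tri := [(0, 1, 4), (0, 1, 8), (0, 4, 7), (0, 7, 8), (1, 2, 5), (1, 2, 9), (1, 3, 5), (1, 3, 10),
      (1, 4, 10), (1, 8, 9), (2, 5, 11), (2, 9, 11), (3, 5, 12), (3, 6, 12), (3, 6, 13), (3, 10,
      14), (3, 13, 14), (4, 7, 14), (4, 10, 14), (5, 11, 15), (5, 12, 15), (6, 12, 16), (6, 13,
      16)]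
    fin := [0, 1, 1, 3, 0, 1, 3, 0, 1, 9, 1, 11, 3, 13, 3, 15, 16]
    chd := [(1, 11), (1, 15)]
    steps := [(0, 4), (0, 7), (1, 2), (1, 5), (1, 8), (1, 10), (3, 6), (3, 12), (3, 14)] }
  rep := [1, 3, 0, 11, 9, 13, 15, 16]

noncomputable def v1573 : Cov.CovD where
  P := 3
  N := 5
  pl := [0, 2, 6, 9]
  lev := [⟨[], [], [], [2], [(1, 0, [3, 6])]⟩,
    ⟨[], [(0, 0)], [(0, 0)], [4], [(1, 0, [3, 6]), (3, 0, [3, 6])]⟩,
    ⟨[(0, 1)], [(1, 0), (1, 3)], [], [4], [(4, 3, [0])]⟩,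
    ⟨[(0, 1), (1, 2)], [(1, 0), (1, 1)], [(0, 1), (1, 1)], [5], [(3, 0, [3, 6]), (5, 1,
      []), (7, 1, [])]⟩,
    ⟨[(0, 1), (1, 2), (1, 3)], [(0, 0), (0, 1), (1, 0), (1, 1), (3, 0), (3, 1)], [(0, 1)],
      [2], [(3, 0, [3, 6]), (7, 1, [])]⟩,
    ⟨[(0, 1), (1, 2), (1, 3), (1, 4), (2, 3)], [(1, 0), (1, 1), (1, 3), (1, 6), (2, 1), (2,
      3), (2, 6), (3, 0), (3, 1), (3, 3), (3, 6)], [(1, 3), (1, 6), (3, 6)], [], [(4, 3,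
      [0]), (5, 1, []), (8, 6, [0])]⟩,
    ⟨[(1, 3), (3, 5)], [(3, 0), (3, 1), (5, 1)], [], [5, 7], [(5, 1, [])]⟩]
  Ta := [((1, 0), 0, 2), ((1, 2), 0, 4), ((3, 7), 0, 1), ((5, 8), 1, 6), ((5, 9), 1, 7), ((7, 0),
    1, 2), ((7, 3), 1, 0), ((7, 6), 1, 5)]
  Tb := [((0, 1, 7), 2, 0, 1), ((1, 0, 2), 0, 2, 4), ((2, 1, 4), 4, 0, 3), ((4, 2, 8), 3, 4, 6),
    ((5, 8, 9), 1, 6, 7), ((6, 7, 9), 5, 1, 7), ((7, 0, 3), 1, 2, 0), ((7, 0, 6), 1, 2, 5),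
    ((7, 3, 6), 1, 0, 5), ((8, 4, 5), 6, 3, 1), ((9, 5, 6), 7, 1, 5)]
  Tc := [(0, 3, 6)]
  Td := [((0, 3), (1, 0), 2), ((0, 3), (1, 2), 4), ((0, 3), (3, 7), 1), ((0, 6), (1, 0), 2), ((0,
    6), (1, 2), 4), ((0, 6), (3, 7), 1), ((3, 0), (4, 2), 4), ((3, 0), (4, 8), 6), ((6, 0),
    (8, 4), 3), ((6, 0), (8, 5), 1)]
  G := [[0, 0, 0x5144191281918518c1e4, 0, 0x91289118c91185114911511ce651145114c8a], [0, 0,
    0x918218c1218518c162, 0x21182118c421142144c214214c22c813ac,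
    0x611318c22d114225189a118111264e855ca], [0, 0, 0, 0,
    0xd12451848821d199d21192c191884184918518cee1], [0, 0x14411a46111a814861111e481e1, 0,
    0x214421424899218821828455214218c2e1, 0x51238e94121842a9e883229d862c8c1e2]]

noncomputable def n1573 : Ent := ⟨e1573, noF, [], [], []⟩

def c1573 : PLift (Cov.check n1573.C.D v1573 = true) := ⟨by decide +kernel⟩

def b1573 : PLift (entF (fidx ts) 400 1573 n1573 = true) := ⟨by decide +kernel⟩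

theorem g1573 : GoodF (fidx ts) 400 1573 := GoodF.ofV v1573 n1573 c1573.down b1573.down

/-- 4847564:1303 -/
noncomputable def e1574 : SCfg where
  D := {
    a := 7
    L := 11
    kp := 8
    inn := [(0, 1), (0, 4), (1, 0), (1, 2), (1, 3), (1, 4), (1, 5), (2, 1), (2, 5), (3, 1), (3, 5), (3,
      6), (4, 0), (4, 1), (5, 1), (5, 2), (5, 3), (6, 3)]
    mix := [(0, 0), (0, 1), (1, 1), (1, 2), (1, 3), (2, 2), (2, 4), (3, 3), (3, 5), (3, 6), (3, 7), (4,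
      0), (4, 3), (4, 8), (5, 4), (5, 5), (5, 9), (6, 5), (6, 6), (6, 10)]
    cl := [1, 0, 2, 0, 4, 3, 5, 3, 7, 6, 8]
    chq := [(0, 4), (0, 6), (4, 0), (6, 0)]
    rng := [(0, 1), (0, 8), (1, 0), (1, 2), (2, 1), (2, 4), (3, 7), (3, 8), (4, 2), (4, 9), (5, 9), (5,
      10), (6, 7), (6, 10), (7, 3), (7, 6), (8, 0), (8, 3), (9, 4), (9, 5), (10, 5), (10, 6)]
    lev := [] }
  links := [[1, 4, 7, 8], [4, 0, 8, 9, 2, 5, 3, 10], [5, 1, 9, 11], [10, 1, 5, 12, 6, 13, 14], [7, 0, 1,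
    10, 15], [12, 3, 1, 2, 11, 16], [13, 3, 12, 17]]
  P := {
    a := 7
    N := 18
    nb := [402, 1853, 2594, 29794, 33923, 71694, 143368, 33041, 643, 2310, 49178, 66084, 196712,
      147528, 9224, 1168, 6176, 12352]
    tri := [(0, 1, 4), (0, 1, 8), (0, 4, 7), (0, 7, 8), (1, 2, 5), (1, 2, 9), (1, 3, 5), (1, 3, 10),
      (1, 4, 10), (1, 8, 9), (2, 5, 11), (2, 9, 11), (3, 5, 12), (3, 6, 12), (3, 6, 13), (3, 10,
      14), (3, 13, 14), (4, 7, 15), (4, 10, 15), (5, 11, 16), (5, 12, 16), (6, 12, 17), (6, 13,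
      17)]
    fin := [0, 1, 1, 3, 0, 1, 3, 0, 1, 9, 1, 11, 3, 13, 3, 15, 16, 17]
    chd := [(1, 11), (1, 16)]
    steps := [(0, 4), (0, 7), (1, 2), (1, 5), (1, 8), (1, 10), (3, 6), (3, 12), (3, 14)] }
  rep := [1, 0, 9, 3, 11, 13, 16, 15, 17]

noncomputable def v1574 : Cov.CovD where
  P := 3
  N := 6
  pl := [0, 2, 6, 8, 10]
  lev := [⟨[], [], [], [1], [(1, 0, [4, 6])]⟩,
    ⟨[], [(0, 0)], [(0, 0)], [2], [(1, 0, [4, 6]), (3, 0, [4, 6])]⟩,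
    ⟨[(0, 1)], [(1, 0), (1, 4)], [], [2], [(4, 4, [0])]⟩,
    ⟨[(0, 1), (1, 2)], [(1, 0), (1, 3)], [(0, 3), (3, 3)], [5], [(3, 0, [4, 6]), (5, 3,
      []), (7, 3, [])]⟩,
    ⟨[(0, 1), (1, 2), (1, 3)], [(0, 0), (1, 0), (3, 0)], [], [1, 7], [(3, 0, [4, 6])]⟩,
    ⟨[(0, 1), (1, 2), (1, 3), (1, 4), (2, 3)], [(1, 0), (1, 3), (1, 4), (1, 6), (2, 3), (2,
      4), (2, 6), (3, 0), (3, 3), (3, 4), (3, 6)], [(3, 4), (3, 6), (4, 6)], [], [(4, 4,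
      [0]), (5, 3, []), (9, 6, [0])]⟩,
    ⟨[(1, 3), (3, 5)], [(3, 0), (3, 3), (5, 3)], [], [5, 8], [(5, 3, [])]⟩]
  Ta := [((1, 0), 0, 1), ((1, 2), 0, 2), ((3, 7), 0, 3), ((3, 8), 0, 7), ((5, 9), 3, 6), ((5,
    10), 3, 8), ((7, 3), 3, 0), ((7, 6), 3, 5)]
  Tb := [((0, 1, 8), 1, 0, 7), ((1, 0, 2), 0, 1, 2), ((2, 1, 4), 2, 0, 4), ((3, 7, 8), 0, 3, 7),
    ((4, 2, 9), 4, 2, 6), ((5, 9, 10), 3, 6, 8), ((6, 7, 10), 5, 3, 8), ((7, 3, 6), 3, 0, 5),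
    ((8, 0, 3), 7, 1, 0), ((9, 4, 5), 6, 4, 3), ((10, 5, 6), 8, 3, 5)]
  Tc := [(0, 4, 6)]
  Td := [((0, 4), (1, 0), 1), ((0, 4), (1, 2), 2), ((0, 4), (3, 7), 3), ((0, 4), (3, 8), 7), ((0,
    6), (1, 0), 1), ((0, 6), (1, 2), 2), ((0, 6), (3, 7), 3), ((0, 6), (3, 8), 7), ((4, 0),
    (4, 2), 2), ((4, 0), (4, 9), 6), ((6, 0), (9, 4), 4), ((6, 0), (9, 5), 3)]
  G := [[0, 0x5151a419191a3131aa1c4, 0x51131165113116a91189118ac4,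
    0x91189118c451131165113116c8c, 0x31125113116a911511c9118aa4], [0, 0x616165151631316e182,
    0x51131162911a11c11e9118aa4, 0x51144911a11c11e611311acc8, 0x31122911511c11e911511caa8],
    [0, 0, 0, 0x51415314611451d1c3131ce4188445d911318a8c11849997893c8945,
    0x3131523131c23182b9191c5151cc9191c5151ccaa4], [0, 0, 0,
    0xb142b5a7445d1e1ca1871e1ce9188cc614e18318e489, 0x5151ce131c626161ca1a1cc1c1ce9191c8aa4]]

noncomputable def n1574 : Ent := ⟨e1574, noF, [], [], [(7, 17, [6903326391201334775872065844685381424292761054348340378595029936128001, 0]), (14, 15, [7334790850167413569773436004105379185503274260204390087403942011097089, 0])]⟩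

def c1574 : PLift (Cov.check n1574.C.D v1574 = true) := ⟨by decide +kernel⟩

def b1574 : PLift (entF (fidx ts) 400 1574 n1574 = true) := ⟨by decide +kernel⟩

theorem g1574 : GoodF (fidx ts) 400 1574 := GoodF.ofV v1574 n1574 c1574.down b1574.down

/-- 4847564:1304 -/
noncomputable def e1575 : SCfg where
  D := {
    a := 7
    L := 11
    kp := 8
    inn := [(0, 1), (0, 4), (1, 0), (1, 2), (1, 3), (1, 4), (1, 5), (2, 1), (2, 5), (3, 1), (3, 5), (3,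
      6), (4, 0), (4, 1), (5, 1), (5, 2), (5, 3), (6, 3)]
    mix := [(0, 0), (0, 1), (1, 1), (1, 2), (1, 3), (2, 2), (2, 4), (3, 3), (3, 5), (3, 6), (3, 7), (4,
      0), (4, 3), (4, 8), (5, 4), (5, 5), (5, 9), (6, 6), (6, 7), (6, 10)]
    cl := [1, 0, 2, 0, 4, 3, 5, 3, 7, 6, 8]
    chq := [(0, 4), (0, 6), (4, 0), (6, 0)]
    rng := [(0, 1), (0, 8), (1, 0), (1, 2), (2, 1), (2, 4), (3, 7), (3, 8), (4, 2), (4, 9), (5, 6), (5,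
      9), (6, 5), (6, 10), (7, 3), (7, 10), (8, 0), (8, 3), (9, 4), (9, 5), (10, 6), (10, 7)]
    lev := [] }
  links := [[1, 4, 7, 8], [4, 0, 8, 9, 2, 5, 3, 10], [5, 1, 9, 11], [10, 1, 5, 12, 13, 6, 14], [7, 0, 1,
    10, 15], [12, 3, 1, 2, 11, 16], [14, 3, 13, 17]]
  P := {
    a := 7
    N := 18
    nb := [402, 1853, 2594, 29794, 33923, 71694, 155656, 33041, 643, 2310, 49178, 66084, 73768,
      135240, 132168, 1168, 6176, 24640]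
    tri := [(0, 1, 4), (0, 1, 8), (0, 4, 7), (0, 7, 8), (1, 2, 5), (1, 2, 9), (1, 3, 5), (1, 3, 10),
      (1, 4, 10), (1, 8, 9), (2, 5, 11), (2, 9, 11), (3, 5, 12), (3, 6, 13), (3, 6, 14), (3, 10,
      14), (3, 12, 13), (4, 7, 15), (4, 10, 15), (5, 11, 16), (5, 12, 16), (6, 13, 17), (6, 14,
      17)]
    fin := [0, 1, 1, 3, 0, 1, 3, 0, 1, 9, 1, 11, 3, 13, 3, 15, 16, 17]
    chd := [(1, 11), (1, 16)]
    steps := [(0, 4), (0, 7), (1, 2), (1, 5), (1, 8), (1, 10), (3, 6), (3, 12), (3, 14)] }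
  rep := [1, 0, 9, 3, 11, 13, 16, 15, 17]

noncomputable def v1575 : Cov.CovD where
  P := 3
  N := 6
  pl := [0, 2, 6, 8, 10]
  lev := [⟨[], [], [], [1], [(1, 0, [4, 6])]⟩,
    ⟨[], [(0, 0)], [(0, 0)], [2], [(1, 0, [4, 6]), (3, 0, [4, 6])]⟩,
    ⟨[(0, 1)], [(1, 0), (1, 4)], [], [2], [(4, 4, [0])]⟩,
    ⟨[(0, 1), (1, 2)], [(1, 0), (1, 3)], [(0, 3), (3, 3)], [5], [(3, 0, [4, 6]), (5, 3,
      []), (7, 3, [])]⟩,
    ⟨[(0, 1), (1, 2), (1, 3)], [(0, 0), (1, 0), (3, 0)], [], [1, 7], [(3, 0, [4, 6])]⟩,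
    ⟨[(0, 1), (1, 2), (1, 3), (1, 4), (2, 3)], [(1, 0), (1, 3), (1, 4), (1, 6), (2, 3), (2,
      4), (2, 6), (3, 0), (3, 3), (3, 4), (3, 6)], [(3, 4), (3, 6), (4, 6)], [], [(4, 4,
      [0]), (5, 3, []), (9, 6, [0])]⟩,
    ⟨[(1, 3), (3, 5)], [(3, 0), (3, 3)], [], [5, 8], [(7, 3, [])]⟩]
  Ta := [((1, 0), 0, 1), ((1, 2), 0, 2), ((3, 7), 0, 3), ((3, 8), 0, 7), ((5, 6), 3, 5), ((5, 9),
    3, 6), ((7, 3), 3, 0), ((7, 10), 3, 8)]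
  Tb := [((0, 1, 8), 1, 0, 7), ((1, 0, 2), 0, 1, 2), ((2, 1, 4), 2, 0, 4), ((3, 7, 8), 0, 3, 7),
    ((4, 2, 9), 4, 2, 6), ((5, 6, 9), 3, 5, 6), ((6, 5, 10), 5, 3, 8), ((7, 3, 10), 3, 0, 8),
    ((8, 0, 3), 7, 1, 0), ((9, 4, 5), 6, 4, 3), ((10, 6, 7), 8, 5, 3)]
  Tc := [(0, 4, 6)]
  Td := [((0, 4), (1, 0), 1), ((0, 4), (1, 2), 2), ((0, 4), (3, 7), 3), ((0, 4), (3, 8), 7), ((0,
    6), (1, 0), 1), ((0, 6), (1, 2), 2), ((0, 6), (3, 7), 3), ((0, 6), (3, 8), 7), ((4, 0),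
    (4, 2), 2), ((4, 0), (4, 9), 6), ((6, 0), (9, 4), 4), ((6, 0), (9, 5), 3)]
  G := [[0, 0x6161651a163131ce184, 0x911511c11e911a11c11ec24, 0x51144911a11311e911311acc8,
    0x51131162911a11c11e9118aa8], [0, 0x5151641919163131aa1c8, 0x31123112a911511c911511cc64,
    0x5113116553145911311a9118cc8, 0x51131163112a9118911511caa4], [0, 0, 0,
    0x514314661451a1cc131cec9191ca18318e9188cc1, 0x31423131c2a9191ca151cc18e6161ca1a1ccaa4],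
    [0, 0, 0, 0x199b4814d14b146d1d1cb1b1c655384dd1819718a993889cc,
    0x31423131c222582bb191c7151c118e9191c5151ccaa1]]

noncomputable def n1575 : Ent := ⟨e1575, noF, [], [], []⟩

def c1575 : PLift (Cov.check n1575.C.D v1575 = true) := ⟨by decide +kernel⟩

def b1575 : PLift (entF (fidx ts) 400 1575 n1575 = true) := ⟨by decide +kernel⟩

theorem g1575 : GoodF (fidx ts) 400 1575 := GoodF.ofV v1575 n1575 c1575.down b1575.down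

/-- 4847564:1309/1 -/
noncomputable def e1576 : SCfg where
  D := {
    a := 7
    L := 10
    kp := 7
    inn := [(0, 1), (1, 0), (1, 2), (1, 3), (1, 4), (1, 5), (2, 1), (2, 4), (2, 5), (3, 1), (3, 5), (3,
      6), (4, 1), (4, 2), (5, 1), (5, 2), (5, 3), (6, 3)]
    mix := [(0, 0), (0, 1), (0, 2), (1, 0), (1, 2), (1, 3), (2, 4), (3, 3), (3, 5), (3, 6), (3, 7), (4,
      2), (4, 4), (4, 8), (5, 4), (5, 5), (5, 9), (6, 1), (6, 6), (6, 7)]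
    cl := [1, 2, 0, 0, 4, 3, 5, 3, 7, 6]
    chq := [(0, 4), (0, 6), (4, 0), (6, 0)]
    rng := [(0, 1), (0, 3), (1, 0), (1, 2), (1, 6), (1, 7), (2, 1), (2, 8), (3, 0), (3, 7), (4, 8), (4,
      9), (5, 6), (5, 9), (6, 1), (6, 5), (7, 1), (7, 3), (8, 2), (8, 4), (9, 4), (9, 5)]
    lev := [] }
  links := [[1, 7, 8, 9], [7, 0, 9, 4, 2, 5, 3, 10], [5, 1, 4, 11], [10, 1, 5, 12, 13, 6, 14], [11, 2, 1,
    9, 15], [12, 3, 1, 2, 11, 16], [14, 3, 13, 8]]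
  P := {
    a := 7
    N := 17
    nb := [898, 1725, 2098, 29794, 35334, 71694, 24840, 1283, 25281, 33043, 16522, 98356, 73768, 4424,
      1352, 2576, 6176]
    tri := [(0, 1, 7), (0, 1, 9), (0, 7, 8), (0, 8, 9), (1, 2, 4), (1, 2, 5), (1, 3, 5), (1, 3, 10),
      (1, 4, 9), (1, 7, 10), (2, 4, 11), (2, 5, 11), (3, 5, 12), (3, 6, 13), (3, 6, 14), (3, 10,
      14), (3, 12, 13), (4, 9, 15), (4, 11, 15), (5, 11, 16), (5, 12, 16), (6, 8, 13), (6, 8, 14)]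
    fin := [0, 1, 1, 3, 1, 1, 6, 0, 6, 1, 1, 11, 3, 13, 3, 15, 16]
    chd := [(1, 11), (1, 16)]
    steps := [(0, 7), (1, 2), (1, 4), (1, 5), (1, 9), (1, 10), (3, 12), (3, 14), (6, 8)] }
  rep := [1, 0, 6, 3, 11, 13, 16, 15]

noncomputable def v1576 : Cov.CovD where
  P := 3
  N := 5
  pl := [0, 1, 6, 8]
  lev := [⟨[], [], [], [1, 2], [(2, 0, [4, 6])]⟩,
    ⟨[], [(0, 0)], [(0, 0)], [1], [(2, 0, [4, 6]), (3, 0, [4, 6])]⟩,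
    ⟨[(0, 1)], [(1, 0), (1, 4)], [], [], [(4, 4, [0])]⟩,
    ⟨[(0, 1), (1, 2)], [(1, 0), (1, 3)], [(0, 3), (3, 3)], [5], [(3, 0, [4, 6]), (5, 3,
      []), (7, 3, [])]⟩,
    ⟨[(0, 1), (1, 2), (1, 3)], [(0, 0), (1, 0), (1, 4), (2, 0), (2, 4)], [(0, 4)], [7],
      [(2, 0, [4, 6]), (4, 4, [0])]⟩,
    ⟨[(0, 1), (1, 2), (1, 3), (1, 4), (2, 3), (2, 4)], [(1, 0), (1, 3), (1, 4), (1, 6), (2,
      3), (2, 4), (2, 6), (3, 0), (3, 3), (3, 4), (3, 6), (4, 4)], [(3, 4), (3, 6), (4, 6)],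
      [], [(4, 4, [0]), (5, 3, []), (9, 6, [0])]⟩,
    ⟨[(1, 3), (3, 5)], [(3, 0), (3, 3)], [], [2, 5], [(7, 3, [])]⟩]
  Ta := [((2, 1), 0, 2), ((2, 8), 0, 7), ((3, 0), 0, 1), ((3, 7), 0, 3), ((5, 6), 3, 5), ((5, 9),
    3, 6), ((7, 1), 3, 2), ((7, 3), 3, 0)]
  Tb := [((0, 1, 3), 1, 2, 0), ((1, 0, 2), 2, 1, 0), ((1, 0, 6), 2, 1, 5), ((1, 0, 7), 2, 1, 3),
    ((1, 2, 6), 2, 0, 5), ((1, 2, 7), 2, 0, 3), ((1, 6, 7), 2, 5, 3), ((2, 1, 8), 0, 2, 7),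
    ((3, 0, 7), 0, 1, 3), ((4, 8, 9), 4, 7, 6), ((5, 6, 9), 3, 5, 6), ((6, 1, 5), 5, 2, 3),
    ((7, 1, 3), 3, 2, 0), ((8, 2, 4), 7, 0, 4), ((9, 4, 5), 6, 4, 3)]
  Tc := [(0, 4, 6)]
  Td := [((0, 4), (2, 1), 2), ((0, 4), (2, 8), 7), ((0, 4), (3, 0), 1), ((0, 4), (3, 7), 3), ((0,
    6), (2, 1), 2), ((0, 6), (2, 8), 7), ((0, 6), (3, 0), 1), ((0, 6), (3, 7), 3), ((4, 0),
    (4, 8), 7), ((4, 0), (4, 9), 6), ((6, 0), (9, 4), 4), ((6, 0), (9, 5), 3)]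
  G := [[0, 0, 0x818181e212121ea14414141e418c, 0x5151c2c1c1a2684,
    0x114814642121c118818e81816112212eac8], [0, 0, 0x414141e212121e888e4718181a81c4,
    0xd142d1226d1828c4, 0x114214648181c118218e81816112212eac8], [0,
    0x411111c11e111111511ec28, 0, 0xc191c2c112a48, 0x811111192181ce8181611a13811ea48], [0,
    0x811411111e811411111ec24, 0, 0xd1d1c2d112a48, 0x8181c11113211e8111111921216ea48]]

noncomputable def n1576 : Ent := ⟨e1576, noF, [], [], []⟩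

def c1576 : PLift (Cov.check n1576.C.D v1576 = true) := ⟨by decide +kernel⟩

def b1576 : PLift (entF (fidx ts) 400 1576 n1576 = true) := ⟨by decide +kernel⟩

theorem g1576 : GoodF (fidx ts) 400 1576 := GoodF.ofV v1576 n1576 c1576.down b1576.down

/-- 4847564:1309/2 -/
noncomputable def e1577 : SCfg where
  D := {
    a := 7
    L := 10
    kp := 7
    inn := [(0, 1), (1, 0), (1, 2), (1, 3), (1, 4), (1, 5), (2, 1), (2, 4), (2, 5), (3, 1), (3, 5), (3,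
      6), (4, 1), (4, 2), (5, 1), (5, 2), (5, 3), (6, 3)]
    mix := [(0, 0), (0, 1), (0, 2), (1, 0), (1, 2), (1, 3), (2, 4), (3, 3), (3, 5), (3, 6), (3, 7), (4,
      2), (4, 4), (4, 8), (5, 4), (5, 5), (5, 9), (6, 6), (6, 7), (6, 8)]
    cl := [2, 7, 0, 0, 3, 1, 4, 1, 5, 6]
    chq := [(0, 3), (0, 6), (3, 0), (6, 0)]
    rng := [(0, 1), (0, 3), (1, 0), (1, 2), (2, 1), (2, 8), (3, 0), (3, 7), (4, 8), (4, 9), (5, 6), (5,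
      9), (6, 5), (6, 8), (7, 3), (7, 8), (8, 2), (8, 4), (8, 6), (8, 7), (9, 4), (9, 5)]
    lev := [] }
  links := [[1, 7, 8, 9], [7, 0, 9, 4, 2, 5, 3, 10], [5, 1, 4, 11], [10, 1, 5, 12, 13, 6, 14], [11, 2, 1,
    9, 15], [12, 3, 1, 2, 11, 16], [14, 3, 13, 15]]
  P := {
    a := 7
    N := 17
    nb := [898, 1725, 2098, 29794, 35334, 71694, 57352, 1283, 641, 33043, 16522, 98356, 73768, 36936,
      33864, 27216, 6176]
    tri := [(0, 1, 7), (0, 1, 9), (0, 7, 8), (0, 8, 9), (1, 2, 4), (1, 2, 5), (1, 3, 5), (1, 3, 10),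
      (1, 4, 9), (1, 7, 10), (2, 4, 11), (2, 5, 11), (3, 5, 12), (3, 6, 13), (3, 6, 14), (3, 10,
      14), (3, 12, 13), (4, 9, 15), (4, 11, 15), (5, 11, 16), (5, 12, 16), (6, 13, 15), (6, 14,
      15)]
    fin := [0, 1, 1, 3, 1, 1, 6, 0, 8, 1, 1, 11, 3, 13, 3, 6, 16]
    chd := [(1, 11), (1, 16)]
    steps := [(0, 7), (1, 2), (1, 4), (1, 5), (1, 9), (1, 10), (3, 12), (3, 14), (6, 15)] }
  rep := [1, 3, 0, 11, 13, 6, 16, 8]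

noncomputable def v1577 : Cov.CovD where
  P := 3
  N := 5
  pl := [0, 1, 6, 8]
  lev := [⟨[], [], [], [2, 7], [(2, 0, [3, 6])]⟩,
    ⟨[], [(0, 0)], [(0, 0)], [2], [(2, 0, [3, 6]), (3, 0, [3, 6])]⟩,
    ⟨[(0, 1)], [(1, 0), (1, 3)], [], [], [(4, 3, [0])]⟩,
    ⟨[(0, 1), (1, 2)], [(1, 0), (1, 1)], [(0, 1), (1, 1)], [4], [(3, 0, [3, 6]), (5, 1,
      []), (7, 1, [])]⟩,
    ⟨[(0, 1), (1, 2), (1, 3)], [(0, 0), (1, 0), (1, 3), (2, 0), (2, 3)], [(0, 3)], [5],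
      [(2, 0, [3, 6]), (4, 3, [0])]⟩,
    ⟨[(0, 1), (1, 2), (1, 3), (1, 4), (2, 3), (2, 4)], [(1, 0), (1, 1), (1, 3), (1, 6), (2,
      1), (2, 3), (2, 6), (3, 0), (3, 1), (3, 3), (3, 6), (4, 3)], [(1, 3), (1, 6), (3, 6)],
      [], [(4, 3, [0]), (5, 1, []), (9, 6, [0])]⟩,
    ⟨[(1, 3), (3, 5)], [(3, 0), (3, 1)], [], [4, 5], [(7, 1, [])]⟩]
  Ta := [((2, 1), 0, 7), ((2, 8), 0, 5), ((3, 0), 0, 2), ((3, 7), 0, 1), ((5, 6), 1, 4), ((5, 9),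
    1, 6), ((7, 3), 1, 0), ((7, 8), 1, 5)]
  Tb := [((0, 1, 3), 2, 7, 0), ((1, 0, 2), 7, 2, 0), ((2, 1, 8), 0, 7, 5), ((3, 0, 7), 0, 2, 1),
    ((4, 8, 9), 3, 5, 6), ((5, 6, 9), 1, 4, 6), ((6, 5, 8), 4, 1, 5), ((7, 3, 8), 1, 0, 5),
    ((8, 2, 4), 5, 0, 3), ((8, 2, 6), 5, 0, 4), ((8, 2, 7), 5, 0, 1), ((8, 4, 6), 5, 3, 4),
    ((8, 4, 7), 5, 3, 1), ((8, 6, 7), 5, 4, 1), ((9, 4, 5), 6, 3, 1)]
  Tc := [(0, 3, 6)]
  Td := [((0, 3), (2, 1), 7), ((0, 3), (2, 8), 5), ((0, 3), (3, 0), 2), ((0, 3), (3, 7), 1), ((0,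
    6), (2, 1), 7), ((0, 6), (2, 8), 5), ((0, 6), (3, 0), 2), ((0, 6), (3, 7), 1), ((3, 0),
    (4, 8), 5), ((3, 0), (4, 9), 6), ((6, 0), (9, 4), 3), ((6, 0), (9, 5), 1)]
  G := [[0, 0, 0, 0x414448111c218c212112cac2142141cc112212c681888cc,
    0x312428121c2111cc219d285a2142141cc112212c681888aa], [0, 0, 0,
    0x414448111c118428d11d16112cac114414c141752a45818892289cc,
    0x512428111a118c11816414cca122d22c1818118c914414ccaa], [0, 0,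
    0x111211c84211111c42112212c14e, 0x1142141cc48188212112c6c1, 0x212112c28161c1121cc8a1],
    [0, 0x41816448141a6121ca812162ac1, 0x9118825114d11111ca25114d11111cc2e,
    0x114414c4818118cd22122c9c1, 0x8111a1141ac1181641116cc21]]

noncomputable def n1577 : Ent := ⟨e1577, noF, [], [], []⟩

def c1577 : PLift (Cov.check n1577.C.D v1577 = true) := ⟨by decide +kernel⟩

def b1577 : PLift (entF (fidx ts) 400 1577 n1577 = true) := ⟨by decide +kernel⟩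

theorem g1577 : GoodF (fidx ts) 400 1577 := GoodF.ofV v1577 n1577 c1577.down b1577.down

/-- 4847564:1309 -/
noncomputable def e1578 : SCfg where
  D := {
    a := 7
    L := 11
    kp := 8
    inn := [(0, 1), (1, 0), (1, 2), (1, 3), (1, 4), (1, 5), (2, 1), (2, 4), (2, 5), (3, 1), (3, 5), (3,
      6), (4, 1), (4, 2), (5, 1), (5, 2), (5, 3), (6, 3)]
    mix := [(0, 0), (0, 1), (0, 2), (1, 0), (1, 2), (1, 3), (2, 4), (3, 3), (3, 5), (3, 6), (3, 7), (4,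
      2), (4, 4), (4, 8), (5, 4), (5, 5), (5, 9), (6, 6), (6, 7), (6, 10)]
    cl := [2, 6, 0, 0, 3, 1, 4, 1, 7, 5, 8]
    chq := [(0, 3), (0, 5), (3, 0), (5, 0)]
    rng := [(0, 1), (0, 3), (1, 0), (1, 2), (2, 1), (2, 8), (3, 0), (3, 7), (4, 8), (4, 9), (5, 6), (5,
      9), (6, 5), (6, 10), (7, 3), (7, 10), (8, 2), (8, 4), (9, 4), (9, 5), (10, 6), (10, 7)]
    lev := [] }
  links := [[1, 7, 8, 9], [7, 0, 9, 4, 2, 5, 3, 10], [5, 1, 4, 11], [10, 1, 5, 12, 13, 6, 14], [11, 2, 1,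
    9, 15], [12, 3, 1, 2, 11, 16], [14, 3, 13, 17]]
  P := {
    a := 7
    N := 18
    nb := [898, 1725, 2098, 29794, 35334, 71694, 155656, 1283, 641, 33043, 16522, 98356, 73768,
      135240, 132168, 2576, 6176, 24640]
    tri := [(0, 1, 7), (0, 1, 9), (0, 7, 8), (0, 8, 9), (1, 2, 4), (1, 2, 5), (1, 3, 5), (1, 3, 10),
      (1, 4, 9), (1, 7, 10), (2, 4, 11), (2, 5, 11), (3, 5, 12), (3, 6, 13), (3, 6, 14), (3, 10,
      14), (3, 12, 13), (4, 9, 15), (4, 11, 15), (5, 11, 16), (5, 12, 16), (6, 13, 17), (6, 14,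
      17)]
    fin := [0, 1, 1, 3, 1, 1, 3, 0, 8, 1, 1, 11, 3, 13, 3, 15, 16, 17]
    chd := [(1, 11), (1, 16)]
    steps := [(0, 7), (1, 2), (1, 4), (1, 5), (1, 9), (1, 10), (3, 6), (3, 12), (3, 14)] }
  rep := [1, 3, 0, 11, 13, 16, 8, 15, 17]

noncomputable def v1578 : Cov.CovD where
  P := 3
  N := 6
  pl := [0, 1, 6, 8, 10]
  lev := [⟨[], [], [], [2, 6], [(2, 0, [3, 5])]⟩,
    ⟨[], [(0, 0)], [(0, 0)], [2], [(2, 0, [3, 5]), (3, 0, [3, 5])]⟩,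
    ⟨[(0, 1)], [(1, 0), (1, 3)], [], [], [(4, 3, [0])]⟩,
    ⟨[(0, 1), (1, 2)], [(1, 0), (1, 1)], [(0, 1), (1, 1)], [4], [(3, 0, [3, 5]), (5, 1,
      []), (7, 1, [])]⟩,
    ⟨[(0, 1), (1, 2), (1, 3)], [(0, 0), (1, 0), (1, 3), (2, 0), (2, 3)], [(0, 3)], [7],
      [(2, 0, [3, 5]), (4, 3, [0])]⟩,
    ⟨[(0, 1), (1, 2), (1, 3), (1, 4), (2, 3), (2, 4)], [(1, 0), (1, 1), (1, 3), (1, 5), (2,
      1), (2, 3), (2, 5), (3, 0), (3, 1), (3, 3), (3, 5), (4, 3)], [(1, 3), (1, 5), (3, 5)],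
      [], [(4, 3, [0]), (5, 1, []), (9, 5, [0])]⟩,
    ⟨[(1, 3), (3, 5)], [(3, 0), (3, 1)], [], [4, 8], [(7, 1, [])]⟩]
  Ta := [((2, 1), 0, 6), ((2, 8), 0, 7), ((3, 0), 0, 2), ((3, 7), 0, 1), ((5, 6), 1, 4), ((5, 9),
    1, 5), ((7, 3), 1, 0), ((7, 10), 1, 8)]
  Tb := [((0, 1, 3), 2, 6, 0), ((1, 0, 2), 6, 2, 0), ((2, 1, 8), 0, 6, 7), ((3, 0, 7), 0, 2, 1),
    ((4, 8, 9), 3, 7, 5), ((5, 6, 9), 1, 4, 5), ((6, 5, 10), 4, 1, 8), ((7, 3, 10), 1, 0, 8),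
    ((8, 2, 4), 7, 0, 3), ((9, 4, 5), 5, 3, 1), ((10, 6, 7), 8, 4, 1)]
  Tc := [(0, 3, 5)]
  Td := [((0, 3), (2, 1), 6), ((0, 3), (2, 8), 7), ((0, 3), (3, 0), 2), ((0, 3), (3, 7), 1), ((0,
    5), (2, 1), 6), ((0, 5), (2, 8), 7), ((0, 5), (3, 0), 2), ((0, 5), (3, 7), 1), ((3, 0),
    (4, 8), 7), ((3, 0), (4, 9), 5), ((5, 0), (9, 4), 3), ((5, 0), (9, 5), 1)]
  G := [[0, 0, 0, 0x51444e121c218c21a16312cac2145151cc61251a1ac621888cc,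
    0x212423191aa18c21916514cca2145151cc2122151ac6e1888aa], [0, 0, 0,
    0x514451246d1819118c199b926444e899c11451d1cc5252a888e455918892289cc,
    0x522419191a518c91916514cca122d22822d1918518c914514ccaa], [0, 0,
    0x611a11c82611311c22611a11c42e, 0x614a14c4218b18c612a12cac1,
    0x214514c612312c6218518c8a1], [0, 0xe1142e118e112ccc11611ac11611aa4c,
    0x911511c425114291182a911511c82e, 0x1144151cc151752a459181c88292689c1,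
    0x9191a5151ac9191651516cc21]]

noncomputable def n1578 : Ent := ⟨e1578, noF, [], [], [(8, 17, [6903326391201334775872065844685381424292761054348340378595029936144385, 0]), (15, 17, [6903326391201334775872065844685381424292761054348340378595029936148481, 0])]⟩

def c1578 : PLift (Cov.check n1578.C.D v1578 = true) := ⟨by decide +kernel⟩

def b1578 : PLift (entF (fidx ts) 400 1578 n1578 = true) := ⟨by decide +kernel⟩

theorem g1578 : GoodF (fidx ts) 400 1578 := GoodF.ofV v1578 n1578 c1578.down b1578.down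

/-- 4847448:1312 -/
noncomputable def e1579 : SCfg where
  D := {
    a := 7
    L := 11
    kp := 8
    inn := [(0, 1), (1, 0), (1, 2), (1, 3), (1, 4), (1, 6), (2, 1), (2, 6), (3, 1), (3, 4), (3, 5), (3,
      6), (4, 1), (4, 3), (5, 3), (5, 6), (6, 1), (6, 2), (6, 3), (6, 5)]
    mix := [(0, 0), (0, 1), (0, 2), (1, 0), (1, 2), (1, 3), (2, 3), (2, 4), (3, 5), (3, 6), (3, 7), (4,
      0), (4, 7), (5, 5), (5, 8), (6, 4), (6, 8), (6, 9), (6, 10)]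
    cl := [0, 6, 2, 0, 1, 3, 5, 4, 1, 7, 8]
    chq := [(0, 3), (0, 5), (3, 0), (5, 0)]
    rng := [(0, 1), (0, 7), (1, 0), (1, 2), (2, 1), (2, 3), (3, 2), (3, 4), (4, 3), (4, 9), (5, 6), (5,
      8), (6, 5), (6, 7), (7, 0), (7, 6), (8, 5), (8, 10), (9, 4), (9, 10), (10, 8), (10, 9)]
    lev := [] }
  links := [[1, 7, 8, 9], [7, 0, 9, 10, 2, 6, 3, 4], [6, 1, 10, 11], [4, 1, 6, 5, 12, 13, 14], [7, 1, 3,
    14], [12, 3, 6, 15], [15, 5, 3, 1, 2, 11, 16, 17]]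
  P := {
    a := 7
    N := 18
    nb := [898, 1757, 3138, 28786, 16522, 36936, 231470, 16659, 641, 1283, 2566, 66628, 41000, 20488,
      8344, 135264, 133184, 98368]
    tri := [(0, 1, 7), (0, 1, 9), (0, 7, 8), (0, 8, 9), (1, 2, 6), (1, 2, 10), (1, 3, 4), (1, 3, 6),
      (1, 4, 7), (1, 9, 10), (2, 6, 11), (2, 10, 11), (3, 4, 14), (3, 5, 6), (3, 5, 12), (3, 12,
      13), (3, 13, 14), (4, 7, 14), (5, 6, 15), (5, 12, 15), (6, 11, 16), (6, 15, 17), (6, 16,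
      17)]
    fin := [0, 0, 0, 0, 0, 0, 6, 0, 8, 9, 0, 6, 12, 13, 14, 6, 16, 17]
    chd := [(0, 12), (0, 13)]
    steps := [(0, 1), (0, 2), (0, 3), (0, 4), (0, 5), (0, 7), (0, 10), (6, 11), (6, 15)] }
  rep := [0, 6, 9, 12, 14, 13, 8, 16, 17]

noncomputable def v1579 : Cov.CovD where
  P := 3
  N := 6
  pl := [1, 2, 7, 9, 10]
  lev := [⟨[], [], [], [2, 6], [(0, 0, [3, 5])]⟩,
    ⟨[], [(0, 0)], [(0, 0)], [2], [(0, 0, [3, 5]), (3, 0, [3, 5])]⟩,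
    ⟨[(0, 1)], [(1, 0), (1, 1)], [(0, 1)], [], [(3, 0, [3, 5]), (4, 1, [])]⟩,
    ⟨[(0, 1), (1, 2)], [(1, 0), (1, 3), (1, 5)], [(3, 5)], [4], [(5, 3, [0]), (6, 5, [0])]⟩,
    ⟨[(0, 1), (1, 2), (1, 3)], [(0, 0), (1, 0), (3, 0), (3, 3), (3, 5)], [], [4], [(0, 0,
      [3, 5])]⟩,
    ⟨[(1, 3), (3, 4)], [(3, 1), (3, 3), (3, 5)], [(1, 3)], [], [(5, 3, [0]), (8, 1, [])]⟩,
    ⟨[(0, 1), (1, 2), (1, 3), (1, 4), (1, 5), (2, 3), (2, 5), (3, 4), (3, 5)], [(1, 0), (1,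
      1), (2, 0), (2, 1), (3, 1), (3, 3), (3, 5), (5, 1), (5, 3)], [(1, 1)], [7, 8], [(4, 1,
      []), (8, 1, [])]⟩]
  Ta := [((0, 1), 0, 6), ((0, 7), 0, 4), ((3, 2), 0, 2), ((3, 4), 0, 1), ((4, 3), 1, 0), ((4, 9),
    1, 7), ((8, 5), 1, 3), ((8, 10), 1, 8)]
  Tb := [((0, 1, 7), 0, 6, 4), ((1, 0, 2), 6, 0, 2), ((2, 1, 3), 2, 6, 0), ((3, 2, 4), 0, 2, 1),
    ((4, 3, 9), 1, 0, 7), ((5, 6, 8), 3, 5, 1), ((6, 5, 7), 5, 3, 4), ((7, 0, 6), 4, 0, 5),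
    ((8, 5, 10), 1, 3, 8), ((9, 4, 10), 7, 1, 8), ((10, 8, 9), 8, 1, 7)]
  Tc := [(0, 3, 5)]
  Td := [((0, 3), (0, 1), 6), ((0, 3), (0, 7), 4), ((0, 3), (3, 2), 2), ((0, 3), (3, 4), 1), ((0,
    5), (0, 1), 6), ((0, 5), (0, 7), 4), ((0, 5), (3, 2), 2), ((0, 5), (3, 4), 1), ((3, 0),
    (5, 6), 5), ((3, 0), (5, 8), 1), ((5, 0), (6, 5), 3), ((5, 0), (6, 7), 4)]
  G := [[0, 0, 0, 0x412415289212a1d921212cf814c2c2a99c12416155252475212682482d26dc812812a1cc,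
    0x52892416141c9cd2d2af82489241211526c122c5282c18349c5d2cd4aa], [0, 0, 0,
    0x5114534214518c8121d5241589af81299c89cc412119c161d9254588d84ef2115888181383cc,
    0x159222155894518a11cd146d8148148cc2b9a155224188126a141c9c1994d94d5c9cd4aa], [0,
    0x4aee6acea1841, 0x1c3d2c14252811c3e148a, 0x124d2d26541281152a8c1,
    0x12411c264128d2d2c94a1], [0, 0, 0x11cd11cda124145118d1c9e124a,
    0x1194548521158194d25888cdc9eb2c1, 0x1818611941418c445dcaf89cd8c1c21]]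

noncomputable def n1579 : Ent := ⟨e1579, noF, [], [], []⟩

def c1579 : PLift (Cov.check n1579.C.D v1579 = true) := ⟨by decide +kernel⟩

def b1579 : PLift (entF (fidx ts) 400 1579 n1579 = true) := ⟨by decide +kernel⟩

theorem g1579 : GoodF (fidx ts) 400 1579 := GoodF.ofV v1579 n1579 c1579.down b1579.down

/-- 4847544:1314/2 -/
noncomputable def e1580 : SCfg where
  D := {
    a := 7
    L := 9
    kp := 6
    inn := [(0, 1), (0, 4), (1, 0), (1, 2), (1, 3), (1, 4), (2, 1), (3, 1), (3, 5), (3, 6), (4, 0), (4,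
      1), (5, 3), (6, 3)]
    mix := [(0, 0), (0, 1), (1, 1), (1, 2), (1, 3), (1, 4), (2, 2), (2, 3), (2, 5), (3, 3), (3, 4), (3,
      6), (3, 7), (4, 0), (4, 4), (4, 8), (5, 0), (5, 6), (5, 7), (6, 4), (6, 7), (6, 8)]
    cl := [1, 0, 2, 0, 0, 6, 4, 3, 5]
    chq := [(0, 3), (3, 0), (3, 4), (4, 3)]
    rng := [(0, 1), (0, 6), (0, 7), (0, 8), (1, 0), (1, 2), (2, 1), (2, 5), (3, 5), (3, 6), (4, 8), (5,
      2), (5, 3), (6, 0), (6, 3), (7, 0), (7, 8), (8, 0), (8, 4), (8, 7)]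
    lev := [] }
  links := [[1, 4, 7, 8], [4, 0, 8, 9, 2, 10, 3, 11], [10, 1, 9, 12], [11, 1, 10, 13, 5, 14, 6], [7, 0,
    1, 11, 15], [14, 3, 13, 7], [11, 3, 14, 15]]
  P := {
    a := 7
    N := 16
    nb := [402, 3869, 5634, 27746, 34947, 24712, 51208, 57649, 643, 4358, 12302, 32858, 1540, 1192,
      33000, 18640]
    tri := [(0, 1, 4), (0, 1, 8), (0, 4, 7), (0, 7, 8), (1, 2, 9), (1, 2, 10), (1, 3, 10), (1, 3, 11),
      (1, 4, 11), (1, 8, 9), (2, 9, 12), (2, 10, 12), (3, 5, 13), (3, 5, 14), (3, 6, 11), (3, 6,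
      14), (3, 10, 13), (4, 7, 15), (4, 11, 15), (5, 7, 13), (5, 7, 14), (6, 11, 15), (6, 14, 15)]
    fin := [0, 1, 1, 1, 0, 5, 1, 0, 1, 9, 1, 1, 12, 5, 14, 15]
    chd := [(1, 14), (5, 14)]
    steps := [(0, 4), (0, 7), (1, 2), (1, 3), (1, 6), (1, 8), (1, 10), (1, 11), (5, 13)] }
  rep := [1, 0, 9, 14, 5, 15, 12]

noncomputable def v1580 : Cov.CovD where
  P := 3
  N := 4
  pl := [0, 2, 5, 8]
  lev := [⟨[], [], [], [1], [(1, 0, [3])]⟩,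
    ⟨[], [(0, 0)], [(0, 0)], [2], [(1, 0, [3]), (3, 0, [3]), (4, 0, [3])]⟩,
    ⟨[(0, 1)], [(1, 0)], [], [2, 6], [(3, 0, [3])]⟩,
    ⟨[(0, 1), (1, 2)], [(1, 0), (1, 3), (1, 4), (2, 0)], [(0, 0), (0, 3), (0, 4), (3, 4)],
      [], [(3, 0, [3]), (4, 0, [3]), (6, 4, [3]), (7, 3, [0, 4])]⟩,
    ⟨[(0, 1), (1, 2), (1, 3)], [(0, 0), (1, 0), (3, 0)], [], [1, 5], [(4, 0, [3])]⟩,
    ⟨[(1, 3)], [(3, 0), (3, 3), (3, 4)], [(3, 4)], [1], [(6, 4, [3]), (7, 3, [0, 4])]⟩,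
    ⟨[(1, 3), (3, 5)], [(1, 0), (3, 0), (3, 3), (3, 4), (4, 0), (5, 3)], [(0, 3)], [5],
      [(4, 0, [3]), (7, 3, [0, 4])]⟩]
  Ta := [((1, 0), 0, 1), ((1, 2), 0, 2), ((3, 5), 0, 6), ((3, 6), 0, 4), ((4, 8), 0, 5)]
  Tb := [((0, 1, 6), 1, 0, 4), ((0, 1, 7), 1, 0, 3), ((0, 1, 8), 1, 0, 5), ((0, 6, 7), 1, 4, 3),
    ((0, 6, 8), 1, 4, 5), ((0, 7, 8), 1, 3, 5), ((1, 0, 2), 0, 1, 2), ((2, 1, 5), 2, 0, 6),
    ((3, 5, 6), 0, 6, 4), ((5, 2, 3), 6, 2, 0), ((6, 0, 3), 4, 1, 0), ((7, 0, 8), 3, 1, 5),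
    ((8, 0, 4), 5, 1, 0), ((8, 0, 7), 5, 1, 3), ((8, 4, 7), 5, 0, 3)]
  Tc := [(3, 0, 4)]
  Td := [((0, 3), (1, 0), 1), ((0, 3), (1, 2), 2), ((0, 3), (3, 5), 6), ((0, 3), (3, 6), 4), ((0,
    3), (4, 8), 5), ((3, 0), (7, 0), 1), ((3, 0), (7, 8), 5), ((3, 4), (7, 0), 1), ((3, 4),
    (7, 8), 5), ((4, 3), (6, 0), 1), ((4, 3), (6, 3), 0)]
  G := [[0, 0x1414a1212c611818a81c4, 0xe11a11114ee11118a2112ee1144144668, 0xa451e1161689181c8,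
    0xe11e111111ce128], [0, 0, 0, 0x1868984414a454142459e116c6891819219a8cc,
    0x14a45e1162186891424591111ce1818c8aa8], [0, 0, 0, 0x614a441ca161ce181881c4,
    0xa161c218161ca141cc1a4]]

noncomputable def n1580 : Ent := ⟨e1580, noF, [], [], []⟩

def c1580 : PLift (Cov.check n1580.C.D v1580 = true) := ⟨by decide +kernel⟩

def b1580 : PLift (entF (fidx ts) 400 1580 n1580 = true) := ⟨by decide +kernel⟩

theorem g1580 : GoodF (fidx ts) 400 1580 := GoodF.ofV v1580 n1580 c1580.down b1580.down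

/-- 4847544:1314/1 -/
noncomputable def e1581 : SCfg where
  D := {
    a := 7
    L := 10
    kp := 7
    inn := [(0, 1), (0, 4), (1, 0), (1, 2), (1, 3), (1, 4), (2, 1), (3, 1), (3, 5), (3, 6), (4, 0), (4,
      1), (5, 3), (6, 3)]
    mix := [(0, 0), (0, 1), (1, 1), (1, 2), (1, 3), (1, 4), (2, 2), (2, 3), (2, 5), (3, 3), (3, 4), (3,
      6), (3, 7), (4, 0), (4, 4), (4, 8), (5, 0), (5, 6), (5, 7), (6, 4), (6, 7), (6, 9)]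
    cl := [1, 0, 2, 0, 0, 5, 4, 3, 6, 7]
    chq := [(0, 3), (3, 0), (3, 4), (4, 3)]
    rng := [(0, 1), (0, 6), (0, 7), (0, 8), (1, 0), (1, 2), (2, 1), (2, 5), (3, 5), (3, 6), (4, 8), (4,
      9), (5, 2), (5, 3), (6, 0), (6, 3), (7, 0), (7, 9), (8, 0), (8, 4), (9, 4), (9, 7)]
    lev := [] }
  links := [[1, 4, 7, 8], [4, 0, 8, 9, 2, 10, 3, 11], [10, 1, 9, 12], [11, 1, 10, 13, 5, 14, 6], [7, 0,
    1, 11, 15], [14, 3, 13, 7], [11, 3, 14, 16]]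
  P := {
    a := 7
    N := 17
    nb := [402, 3869, 5634, 27746, 34947, 24712, 83976, 57649, 643, 4358, 12302, 98394, 1540, 1192,
      65768, 2192, 18496]
    tri := [(0, 1, 4), (0, 1, 8), (0, 4, 7), (0, 7, 8), (1, 2, 9), (1, 2, 10), (1, 3, 10), (1, 3, 11),
      (1, 4, 11), (1, 8, 9), (2, 9, 12), (2, 10, 12), (3, 5, 13), (3, 5, 14), (3, 6, 11), (3, 6,
      14), (3, 10, 13), (4, 7, 15), (4, 11, 15), (5, 7, 13), (5, 7, 14), (6, 11, 16), (6, 14, 16)]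
    fin := [0, 1, 1, 3, 0, 0, 1, 0, 1, 9, 1, 1, 12, 3, 14, 15, 16]
    chd := [(1, 14), (3, 14)]
    steps := [(0, 4), (0, 7), (0, 5), (1, 2), (1, 8), (1, 10), (1, 11), (1, 6), (3, 13)] }
  rep := [1, 0, 9, 14, 3, 12, 15, 16]

noncomputable def v1581 : Cov.CovD where
  P := 3
  N := 5
  pl := [0, 2, 5, 8, 9]
  lev := [⟨[], [], [], [1], [(1, 0, [3])]⟩,
    ⟨[], [(0, 0)], [(0, 0)], [2], [(1, 0, [3]), (3, 0, [3]), (4, 0, [3])]⟩,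
    ⟨[(0, 1)], [(1, 0)], [], [2, 5], [(3, 0, [3])]⟩,
    ⟨[(0, 1), (1, 2)], [(1, 0), (1, 3), (1, 4), (2, 0)], [(0, 0), (0, 3), (0, 4), (3, 4)],
      [], [(3, 0, [3]), (4, 0, [3]), (6, 4, [3]), (7, 3, [0, 4])]⟩,
    ⟨[(0, 1), (1, 2), (1, 3)], [(0, 0), (1, 0), (3, 0)], [], [1, 6], [(4, 0, [3])]⟩,
    ⟨[(1, 3)], [(3, 0), (3, 3), (3, 4)], [(3, 4)], [1], [(6, 4, [3]), (7, 3, [0, 4])]⟩,
    ⟨[(1, 3), (3, 5)], [(1, 0), (3, 0), (3, 3), (3, 4), (4, 0), (5, 3)], [(0, 3)], [7],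
      [(4, 0, [3]), (7, 3, [0, 4])]⟩]
  Ta := [((1, 0), 0, 1), ((1, 2), 0, 2), ((3, 5), 0, 5), ((3, 6), 0, 4), ((4, 8), 0, 6), ((4, 9),
    0, 7)]
  Tb := [((0, 1, 6), 1, 0, 4), ((0, 1, 7), 1, 0, 3), ((0, 1, 8), 1, 0, 6), ((0, 6, 7), 1, 4, 3),
    ((0, 6, 8), 1, 4, 6), ((0, 7, 8), 1, 3, 6), ((1, 0, 2), 0, 1, 2), ((2, 1, 5), 2, 0, 5),
    ((3, 5, 6), 0, 5, 4), ((4, 8, 9), 0, 6, 7), ((5, 2, 3), 5, 2, 0), ((6, 0, 3), 4, 1, 0),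
    ((7, 0, 9), 3, 1, 7), ((8, 0, 4), 6, 1, 0), ((9, 4, 7), 7, 0, 3)]
  Tc := [(3, 0, 4)]
  Td := [((0, 3), (1, 0), 1), ((0, 3), (1, 2), 2), ((0, 3), (3, 5), 5), ((0, 3), (3, 6), 4), ((0,
    3), (4, 8), 6), ((0, 3), (4, 9), 7), ((3, 0), (7, 0), 1), ((3, 0), (7, 9), 7), ((3, 4),
    (7, 0), 1), ((3, 4), (7, 9), 7), ((4, 3), (6, 0), 1), ((4, 3), (6, 3), 0)]
  G := [[0, 0x1414612126611818a81c4, 0x114e111111ce114e11e11e611881188ac4, 0xe11e1161e1181c8,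
    0xe11e111111ce128], [0, 0, 0, 0x188844a45184ed16116151414cae91ec689188cc,
    0x2c514e51621818ca45111114c5de1818c8aa8], [0, 0, 0, 0xa45e1ce1e1c61689689c81c1,
    0x614e1e1ce1e1ce1e181c81a4]]

noncomputable def n1581 : Ent := ⟨e1581, noF, [], [], [(16, 15, [1685356702439545624007900436039642273970977273354372543760006561793, 0])]⟩

def c1581 : PLift (Cov.check n1581.C.D v1581 = true) := ⟨by decide +kernel⟩

def b1581 : PLift (entF (fidx ts) 400 1581 n1581 = true) := ⟨by decide +kernel⟩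

theorem g1581 : GoodF (fidx ts) 400 1581 := GoodF.ofV v1581 n1581 c1581.down b1581.down

/-- 4847544:1314/3 -/
noncomputable def e1582 : SCfg where
  D := {
    a := 7
    L := 10
    kp := 7
    inn := [(0, 1), (0, 4), (1, 0), (1, 2), (1, 3), (1, 4), (2, 1), (3, 1), (3, 5), (3, 6), (4, 0), (4,
      1), (5, 3), (6, 3)]
    mix := [(0, 0), (0, 1), (1, 1), (1, 2), (1, 3), (1, 4), (2, 2), (2, 3), (2, 5), (3, 3), (3, 4), (3,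
      6), (3, 7), (4, 0), (4, 4), (4, 8), (5, 6), (5, 7), (5, 9), (6, 4), (6, 7), (6, 8)]
    cl := [2, 0, 5, 0, 0, 6, 4, 3, 1, 7]
    chq := [(1, 4), (3, 4), (4, 1), (4, 3)]
    rng := [(0, 1), (0, 8), (1, 0), (1, 2), (2, 1), (2, 5), (3, 5), (3, 6), (4, 8), (5, 2), (5, 3), (6,
      3), (6, 9), (7, 8), (7, 9), (8, 0), (8, 4), (8, 7), (9, 6), (9, 7)]
    lev := [] }
  links := [[1, 4, 7, 8], [4, 0, 8, 9, 2, 10, 3, 11], [10, 1, 9, 12], [11, 1, 10, 13, 5, 14, 6], [7, 0,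
    1, 11, 15], [14, 3, 13, 16], [11, 3, 14, 15]]
  P := {
    a := 7
    N := 17
    nb := [402, 3869, 5634, 27746, 34947, 90120, 51208, 33041, 643, 4358, 12302, 32858, 1540, 66600,
      98408, 18640, 24608]
    tri := [(0, 1, 4), (0, 1, 8), (0, 4, 7), (0, 7, 8), (1, 2, 9), (1, 2, 10), (1, 3, 10), (1, 3, 11),
      (1, 4, 11), (1, 8, 9), (2, 9, 12), (2, 10, 12), (3, 5, 13), (3, 5, 14), (3, 6, 11), (3, 6,
      14), (3, 10, 13), (4, 7, 15), (4, 11, 15), (5, 13, 16), (5, 14, 16), (6, 11, 15), (6, 14,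
      15)]
    fin := [0, 1, 1, 3, 0, 3, 3, 0, 1, 9, 1, 1, 12, 3, 14, 15, 16]
    chd := [(3, 14), (3, 15)]
    steps := [(0, 4), (0, 7), (1, 2), (1, 8), (1, 10), (1, 11), (3, 5), (3, 6), (3, 13)] }
  rep := [1, 15, 0, 14, 3, 9, 12, 16]

noncomputable def v1582 : Cov.CovD where
  P := 3
  N := 5
  pl := [0, 2, 5, 9]
  lev := [⟨[], [], [], [2], [(1, 0, [])]⟩,
    ⟨[], [(0, 0)], [(0, 0)], [5], [(1, 0, []), (3, 0, []), (4, 0, [])]⟩,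
    ⟨[(0, 1)], [(1, 0)], [], [5, 6], [(3, 0, [])]⟩,
    ⟨[(0, 1), (1, 2)], [(1, 0), (1, 3), (1, 4), (2, 0)], [(0, 0), (0, 3), (0, 4), (3, 4)],
      [], [(3, 0, []), (4, 0, []), (6, 4, [1, 3]), (7, 3, [4])]⟩,
    ⟨[(0, 1), (1, 2), (1, 3)], [(0, 0), (0, 1), (1, 0), (1, 1), (3, 0)], [(0, 1)], [2],
      [(4, 0, []), (8, 1, [4])]⟩,
    ⟨[(1, 3)], [(3, 0), (3, 3), (3, 4)], [(3, 4)], [7], [(6, 4, [1, 3]), (7, 3, [4])]⟩,
    ⟨[(1, 3), (3, 5)], [(1, 0), (3, 0), (3, 1), (3, 3), (3, 4), (4, 0), (4, 1), (5, 3)],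
      [(0, 1), (0, 3), (1, 3)], [], [(4, 0, []), (7, 3, [4]), (8, 1, [4])]⟩]
  Ta := [((1, 0), 0, 2), ((1, 2), 0, 5), ((3, 5), 0, 6), ((3, 6), 0, 4), ((4, 8), 0, 1)]
  Tb := [((0, 1, 8), 2, 0, 1), ((1, 0, 2), 0, 2, 5), ((2, 1, 5), 5, 0, 6), ((3, 5, 6), 0, 6, 4),
    ((5, 2, 3), 6, 5, 0), ((6, 3, 9), 4, 0, 7), ((7, 8, 9), 3, 1, 7), ((8, 0, 4), 1, 2, 0),
    ((8, 0, 7), 1, 2, 3), ((8, 4, 7), 1, 0, 3), ((9, 6, 7), 7, 4, 3)]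
  Tc := [(4, 1, 3)]
  Td := [((1, 4), (8, 0), 2), ((1, 4), (8, 4), 0), ((1, 4), (8, 7), 3), ((3, 4), (7, 8), 1), ((3,
    4), (7, 9), 7), ((4, 1), (6, 3), 0), ((4, 1), (6, 9), 7), ((4, 3), (6, 3), 0), ((4, 3),
    (6, 9), 7)]
  G := [[0, 0, 0x9858851b8614498c138a1189884878c1e4, 0x8851f4244c1f42a84c1f821c4,
    0xa451c2161619886491c21a51382d1182a45149158468918fec138228a], [0, 0, 0,
    0x8491f8284c1f82648451f4284c1f82a8c,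
    0x845184ccf168451411382e811988549845178a11382e1898884584584b894178ce63], [0,
    0xa454c238616898c238a16894a458c1e4, 0, 0x44ccf42148ccf821c8,
    0x88588ccb86148984cc78a1484b884478c1e2]]

noncomputable def n1582 : Ent := ⟨e1582, noF, [], [], [(7, 16, [1580044410770988437309982408355971841652082177953823432505695584257, 0])]⟩

def c1582 : PLift (Cov.check n1582.C.D v1582 = true) := ⟨by decide +kernel⟩

def b1582 : PLift (entF (fidx ts) 400 1582 n1582 = true) := ⟨by decide +kernel⟩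

theorem g1582 : GoodF (fidx ts) 400 1582 := GoodF.ofV v1582 n1582 c1582.down b1582.down

/-- 4847544:1314 -/
noncomputable def e1583 : SCfg where
  D := {
    a := 7
    L := 11
    kp := 8
    inn := [(0, 1), (0, 4), (1, 0), (1, 2), (1, 3), (1, 4), (2, 1), (3, 1), (3, 5), (3, 6), (4, 0), (4,
      1), (5, 3), (6, 3)]
    mix := [(0, 0), (0, 1), (1, 1), (1, 2), (1, 3), (1, 4), (2, 2), (2, 3), (2, 5), (3, 3), (3, 4), (3,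
      6), (3, 7), (4, 0), (4, 4), (4, 8), (5, 6), (5, 7), (5, 9), (6, 4), (6, 7), (6, 10)]
    cl := [1, 0, 2, 0, 0, 6, 4, 3, 7, 8, 5]
    chq := [(3, 4), (4, 3), (4, 5), (5, 4)]
    rng := [(0, 1), (0, 8), (1, 0), (1, 2), (2, 1), (2, 5), (3, 5), (3, 6), (4, 8), (4, 10), (5, 2),
      (5, 3), (6, 3), (6, 9), (7, 9), (7, 10), (8, 0), (8, 4), (9, 6), (9, 7), (10, 4), (10, 7)]
    lev := [] }
  links := [[1, 4, 7, 8], [4, 0, 8, 9, 2, 10, 3, 11], [10, 1, 9, 12], [11, 1, 10, 13, 5, 14, 6], [7, 0,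
    1, 11, 15], [14, 3, 13, 16], [11, 3, 14, 17]]
  P := {
    a := 7
    N := 18
    nb := [402, 3869, 5634, 27746, 34947, 90120, 149512, 33041, 643, 4358, 12302, 163930, 1540, 66600,
      196712, 2192, 24608, 18496]
    tri := [(0, 1, 4), (0, 1, 8), (0, 4, 7), (0, 7, 8), (1, 2, 9), (1, 2, 10), (1, 3, 10), (1, 3, 11),
      (1, 4, 11), (1, 8, 9), (2, 9, 12), (2, 10, 12), (3, 5, 13), (3, 5, 14), (3, 6, 11), (3, 6,
      14), (3, 10, 13), (4, 7, 15), (4, 11, 15), (5, 13, 16), (5, 14, 16), (6, 11, 17), (6, 14,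
      17)]
    fin := [0, 1, 1, 3, 0, 3, 3, 0, 1, 9, 1, 1, 12, 3, 14, 15, 16, 17]
    chd := [(3, 14), (3, 17)]
    steps := [(0, 4), (0, 7), (1, 2), (1, 8), (1, 10), (1, 11), (3, 5), (3, 6), (3, 13)] }
  rep := [1, 0, 9, 14, 3, 17, 12, 15, 16]

noncomputable def v1583 : Cov.CovD where
  P := 3
  N := 6
  pl := [0, 2, 5, 8, 9]
  lev := [⟨[], [], [], [1], [(1, 0, [])]⟩,
    ⟨[], [(0, 0)], [(0, 0)], [2], [(1, 0, []), (3, 0, []), (4, 0, [])]⟩,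
    ⟨[(0, 1)], [(1, 0)], [], [2, 6], [(3, 0, [])]⟩,
    ⟨[(0, 1), (1, 2)], [(1, 0), (1, 3), (1, 4), (2, 0)], [(0, 0), (0, 3), (0, 4), (3, 4)],
      [], [(3, 0, []), (4, 0, []), (6, 4, [3, 5]), (7, 3, [4])]⟩,
    ⟨[(0, 1), (1, 2), (1, 3)], [(0, 0), (1, 0), (3, 0)], [], [1, 7], [(4, 0, [])]⟩,
    ⟨[(1, 3)], [(3, 0), (3, 3), (3, 4)], [(3, 4)], [8], [(6, 4, [3, 5]), (7, 3, [4])]⟩,
    ⟨[(1, 3), (3, 5)], [(1, 0), (3, 0), (3, 3), (3, 4), (3, 5), (4, 0), (5, 3)], [(0, 3),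
      (0, 5), (3, 5)], [], [(4, 0, []), (7, 3, [4]), (10, 5, [4])]⟩]
  Ta := [((1, 0), 0, 1), ((1, 2), 0, 2), ((3, 5), 0, 6), ((3, 6), 0, 4), ((4, 8), 0, 7), ((4,
    10), 0, 5)]
  Tb := [((0, 1, 8), 1, 0, 7), ((1, 0, 2), 0, 1, 2), ((2, 1, 5), 2, 0, 6), ((3, 5, 6), 0, 6, 4),
    ((4, 8, 10), 0, 7, 5), ((5, 2, 3), 6, 2, 0), ((6, 3, 9), 4, 0, 8), ((7, 9, 10), 3, 8, 5),
    ((8, 0, 4), 7, 1, 0), ((9, 6, 7), 8, 4, 3), ((10, 4, 7), 5, 0, 3)]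
  Tc := [(4, 3, 5)]
  Td := [((3, 4), (7, 9), 8), ((3, 4), (7, 10), 5), ((4, 3), (6, 3), 0), ((4, 3), (6, 9), 8),
    ((4, 5), (6, 3), 0), ((4, 5), (6, 9), 8), ((5, 4), (10, 4), 0), ((5, 4), (10, 7), 3)]
  G := [[0, 0x8a1da156c13c13c61619519a81c4, 0xaa514aa51cc31666691cc31a66918ac8,
    0xaa51416691cc31a1c8, 0x11c25216691aa51118e1a8], [0, 0, 0,
    0x646d1121284ccfda1162a98ccb1ac48aad1411414148a2afdcc8c,
    0x8a2af184ccf166111151158acd12128ccbdea6426f186818aa4], [0, 0, 0,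
    0xaa5aa5ccc3cc3c61669669c81c1, 0xcc3cc3c21669669caa5aa5cc1a1]]

noncomputable def n1583 : Ent := ⟨e1583, noF, [], [], [(7, 16, [7334685537875745012586738086077695515070955365108989538292687700152321, 0]), (17, 15, [6903537015784671890245461680740748765157398844539141476817538558124033, 0])]⟩

def c1583 : PLift (Cov.check n1583.C.D v1583 = true) := ⟨by decide +kernel⟩

def b1583 : PLift (entF (fidx ts) 400 1583 n1583 = true) := ⟨by decide +kernel⟩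

theorem g1583 : GoodF (fidx ts) 400 1583 := GoodF.ofV v1583 n1583 c1583.down b1583.down

/-- 4847545:1319/1 -/
noncomputable def e1584 : SCfg where
  D := {
    a := 7
    L := 10
    kp := 7
    inn := [(0, 1), (0, 4), (1, 0), (1, 2), (1, 3), (1, 4), (2, 1), (3, 1), (3, 5), (3, 6), (4, 0), (4,
      1), (5, 3), (5, 6), (6, 3), (6, 5)]
    mix := [(0, 0), (0, 1), (1, 1), (1, 2), (1, 3), (1, 4), (2, 2), (2, 3), (2, 5), (3, 3), (3, 4), (3,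
      6), (3, 7), (4, 0), (4, 4), (4, 8), (5, 7), (5, 9), (6, 4), (6, 8), (6, 9)]
    cl := [1, 0, 2, 0, 0, 7, 6, 5, 3, 4]
    chq := [(3, 6), (4, 6), (6, 3), (6, 4)]
    rng := [(0, 1), (0, 8), (1, 0), (1, 2), (2, 1), (2, 5), (3, 5), (3, 6), (4, 8), (5, 2), (5, 3), (6,
      3), (6, 7), (7, 6), (7, 9), (8, 0), (8, 4), (8, 9), (9, 7), (9, 8)]
    lev := [] }
  links := [[1, 4, 7, 8], [4, 0, 8, 9, 2, 10, 3, 11], [10, 1, 9, 12], [11, 1, 10, 13, 14, 5, 6], [7, 0,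
    1, 11, 15], [6, 3, 14, 16], [11, 3, 5, 16, 15]]
  P := {
    a := 7
    N := 17
    nb := [402, 3869, 5634, 27746, 34947, 81992, 100392, 33041, 643, 4358, 12302, 32858, 1540, 17416,
      73768, 67792, 49248]
    tri := [(0, 1, 4), (0, 1, 8), (0, 4, 7), (0, 7, 8), (1, 2, 9), (1, 2, 10), (1, 3, 10), (1, 3, 11),
      (1, 4, 11), (1, 8, 9), (2, 9, 12), (2, 10, 12), (3, 5, 6), (3, 5, 14), (3, 6, 11), (3, 10,
      13), (3, 13, 14), (4, 7, 15), (4, 11, 15), (5, 6, 16), (5, 14, 16), (6, 11, 15), (6, 15,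
      16)]
    fin := [0, 1, 1, 3, 0, 3, 3, 0, 1, 9, 1, 1, 12, 3, 14, 15, 16]
    chd := [(3, 15), (3, 16)]
    steps := [(0, 4), (0, 7), (1, 2), (1, 8), (1, 10), (1, 11), (3, 5), (3, 6), (3, 13)] }
  rep := [1, 0, 9, 15, 16, 14, 3, 12]

noncomputable def v1584 : Cov.CovD where
  P := 3
  N := 5
  pl := [0, 2, 5, 7]
  lev := [⟨[], [], [], [1], [(1, 0, [])]⟩,
    ⟨[], [(0, 0)], [(0, 0)], [2], [(1, 0, []), (3, 0, []), (4, 0, [])]⟩,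
    ⟨[(0, 1)], [(1, 0)], [], [2, 7], [(3, 0, [])]⟩,
    ⟨[(0, 1), (1, 2)], [(1, 0), (1, 6), (2, 0)], [(0, 0), (0, 6)], [5], [(3, 0, []), (4, 0,
      []), (6, 6, [3, 4])]⟩,
    ⟨[(0, 1), (1, 2), (1, 3)], [(0, 0), (0, 3), (1, 0), (1, 3), (3, 0)], [(0, 3)], [1],
      [(4, 0, []), (8, 3, [6])]⟩,
    ⟨[(1, 3)], [(3, 0), (3, 4), (3, 6)], [], [5], [(9, 4, [6])]⟩,
    ⟨[(1, 3), (3, 5)], [(1, 0), (3, 0), (3, 3), (3, 4), (3, 6), (4, 0), (4, 3), (5, 0), (5,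
      3), (5, 4)], [(0, 3), (0, 4), (3, 4)], [], [(4, 0, []), (8, 3, [6]), (9, 4, [6])]⟩]
  Ta := [((1, 0), 0, 1), ((1, 2), 0, 2), ((3, 5), 0, 7), ((3, 6), 0, 6), ((4, 8), 0, 3)]
  Tb := [((0, 1, 8), 1, 0, 3), ((1, 0, 2), 0, 1, 2), ((2, 1, 5), 2, 0, 7), ((3, 5, 6), 0, 7, 6),
    ((5, 2, 3), 7, 2, 0), ((6, 3, 7), 6, 0, 5), ((7, 6, 9), 5, 6, 4), ((8, 0, 4), 3, 1, 0),
    ((8, 0, 9), 3, 1, 4), ((8, 4, 9), 3, 0, 4), ((9, 7, 8), 4, 5, 3)]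
  Tc := [(6, 3, 4)]
  Td := [((3, 6), (8, 0), 1), ((3, 6), (8, 4), 0), ((3, 6), (8, 9), 4), ((4, 6), (9, 7), 5), ((4,
    6), (9, 8), 3), ((6, 3), (6, 3), 0), ((6, 3), (6, 7), 5), ((6, 4), (6, 3), 0), ((6, 4),
    (6, 7), 5)]
  G := [[0, 0x144e26968822a89c2c5ce142, 0xa2a18c8e16aa51cc31666691842618ac8, 0x6261e2a1cc31e184,
    0x4261c22d1cc31e184], [0, 0, 0, 0xaa51cc31642271e2a1cc31ec669188c4,
    0xc2a1cc3162624b1a287184c1e66918aa4], [0, 0, 0, 0x426482a223c883443ce1626881c1,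
    0xa2244dc88ab62c8844ce124]]

noncomputable def n1584 : Ent := ⟨e1584, noF, [], [], []⟩

def c1584 : PLift (Cov.check n1584.C.D v1584 = true) := ⟨by decide +kernel⟩

def b1584 : PLift (entF (fidx ts) 400 1584 n1584 = true) := ⟨by decide +kernel⟩

theorem g1584 : GoodF (fidx ts) 400 1584 := GoodF.ofV v1584 n1584 c1584.down b1584.down

/-- 4847545:1319 -/
noncomputable def e1585 : SCfg where
  D := {
    a := 7
    L := 11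
    kp := 8
    inn := [(0, 1), (0, 4), (1, 0), (1, 2), (1, 3), (1, 4), (2, 1), (3, 1), (3, 5), (3, 6), (4, 0), (4,
      1), (5, 3), (5, 6), (6, 3), (6, 5)]
    mix := [(0, 0), (0, 1), (1, 1), (1, 2), (1, 3), (1, 4), (2, 2), (2, 3), (2, 5), (3, 3), (3, 4), (3,
      6), (3, 7), (4, 0), (4, 4), (4, 8), (5, 7), (5, 9), (6, 4), (6, 9), (6, 10)]
    cl := [1, 0, 2, 0, 0, 7, 5, 4, 8, 3, 6]
    chq := [(3, 5), (5, 3), (5, 6), (6, 5)]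
    rng := [(0, 1), (0, 8), (1, 0), (1, 2), (2, 1), (2, 5), (3, 5), (3, 6), (4, 8), (4, 10), (5, 2),
      (5, 3), (6, 3), (6, 7), (7, 6), (7, 9), (8, 0), (8, 4), (9, 7), (9, 10), (10, 4), (10, 9)]
    lev := [] }
  links := [[1, 4, 7, 8], [4, 0, 8, 9, 2, 10, 3, 11], [10, 1, 9, 12], [11, 1, 10, 13, 14, 5, 6], [7, 0,
    1, 11, 15], [6, 3, 14, 16], [11, 3, 5, 16, 17]]
  P := {
    a := 7
    N := 18
    nb := [402, 3869, 5634, 27746, 34947, 81992, 198696, 33041, 643, 4358, 12302, 163930, 1540, 17416,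
      73768, 2192, 147552, 67648]
    tri := [(0, 1, 4), (0, 1, 8), (0, 4, 7), (0, 7, 8), (1, 2, 9), (1, 2, 10), (1, 3, 10), (1, 3, 11),
      (1, 4, 11), (1, 8, 9), (2, 9, 12), (2, 10, 12), (3, 5, 6), (3, 5, 14), (3, 6, 11), (3, 10,
      13), (3, 13, 14), (4, 7, 15), (4, 11, 15), (5, 6, 16), (5, 14, 16), (6, 11, 17), (6, 16,
      17)]
    fin := [0, 1, 1, 3, 0, 3, 3, 0, 1, 9, 1, 1, 12, 3, 14, 15, 16, 17]
    chd := [(3, 16), (3, 17)]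
    steps := [(0, 4), (0, 7), (1, 2), (1, 8), (1, 10), (1, 11), (3, 5), (3, 6), (3, 13)] }
  rep := [1, 0, 9, 16, 14, 3, 17, 12, 15]

noncomputable def v1585 : Cov.CovD where
  P := 3
  N := 6
  pl := [0, 2, 5, 7, 8]
  lev := [⟨[], [], [], [1], [(1, 0, [])]⟩,
    ⟨[], [(0, 0)], [(0, 0)], [2], [(1, 0, []), (3, 0, []), (4, 0, [])]⟩,
    ⟨[(0, 1)], [(1, 0)], [], [2, 7], [(3, 0, [])]⟩,
    ⟨[(0, 1), (1, 2)], [(1, 0), (1, 5), (2, 0)], [(0, 0), (0, 5)], [4], [(3, 0, []), (4, 0,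
      []), (6, 5, [3, 6])]⟩,
    ⟨[(0, 1), (1, 2), (1, 3)], [(0, 0), (1, 0), (3, 0)], [], [1, 8], [(4, 0, [])]⟩,
    ⟨[(1, 3)], [(3, 0), (3, 3), (3, 5)], [], [4], [(9, 3, [5])]⟩,
    ⟨[(1, 3), (3, 5)], [(1, 0), (3, 0), (3, 3), (3, 5), (3, 6), (4, 0), (5, 0), (5, 3), (5,
      6)], [(0, 3), (0, 6), (3, 6)], [], [(4, 0, []), (9, 3, [5]), (10, 6, [5])]⟩]
  Ta := [((1, 0), 0, 1), ((1, 2), 0, 2), ((3, 5), 0, 7), ((3, 6), 0, 5), ((4, 8), 0, 8), ((4,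
    10), 0, 6)]
  Tb := [((0, 1, 8), 1, 0, 8), ((1, 0, 2), 0, 1, 2), ((2, 1, 5), 2, 0, 7), ((3, 5, 6), 0, 7, 5),
    ((4, 8, 10), 0, 8, 6), ((5, 2, 3), 7, 2, 0), ((6, 3, 7), 5, 0, 4), ((7, 6, 9), 4, 5, 3),
    ((8, 0, 4), 8, 1, 0), ((9, 7, 10), 3, 4, 6), ((10, 4, 9), 6, 0, 3)]
  Tc := [(5, 3, 6)]
  Td := [((3, 5), (9, 7), 4), ((3, 5), (9, 10), 6), ((5, 3), (6, 3), 0), ((5, 3), (6, 7), 4),
    ((5, 6), (6, 3), 0), ((5, 6), (6, 7), 4), ((6, 5), (10, 4), 0), ((6, 5), (10, 9), 3)]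
  G := [[0, 0x246d612dc828ba2aaadc9c87ae148, 0x242d18ea1c4cd1e426b1aea18cc1ec24,
    0x6261eaa184cb1e184, 0x624b1aa518cc1e124], [0, 0, 0, 0xaa51cc3166661628b1e4c1ec642e188c4,
    0xa2a164cd162669186871c4c1e62618aa8], [0, 0, 0, 0xaaa441642d669c8aa8cc3cccce1c8,
    0x4a4b624bcaa5aa5c8cc8ccce128]]

noncomputable def n1585 : Ent := ⟨e1585, noF, [], [], [(17, 15, [6903537015784671890245461680740748765157398844539141476817538558132225, 0])]⟩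

def c1585 : PLift (Cov.check n1585.C.D v1585 = true) := ⟨by decide +kernel⟩

def b1585 : PLift (entF (fidx ts) 400 1585 n1585 = true) := ⟨by decide +kernel⟩

theorem g1585 : GoodF (fidx ts) 400 1585 := GoodF.ofV v1585 n1585 c1585.down b1585.down

/-- 4576474:1322/2 -/
noncomputable def e1586 : SCfg where
  D := {
    a := 7
    L := 9
    kp := 6
    inn := [(0, 1), (0, 2), (1, 0), (1, 2), (2, 0), (2, 1), (2, 3), (3, 2), (3, 4), (3, 5), (4, 3), (4,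
      5), (5, 3), (5, 4), (5, 6), (6, 5)]
    mix := [(0, 0), (0, 1), (1, 1), (1, 2), (1, 3), (2, 0), (2, 3), (2, 4), (2, 5), (3, 3), (3, 4), (3,
      6), (4, 2), (4, 3), (5, 1), (5, 2), (5, 6), (5, 7), (6, 6), (6, 7), (6, 8)]
    cl := [1, 2, 0, 1, 3, 5, 0, 4, 6]
    chq := [(0, 5), (2, 6), (5, 0), (6, 2)]
    rng := [(0, 1), (0, 5), (1, 0), (1, 2), (1, 7), (2, 1), (2, 3), (3, 2), (4, 5), (4, 6), (5, 0), (5,
      4), (6, 4), (6, 8), (7, 1), (7, 8), (8, 6), (8, 7)]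
    lev := [] }
  links := [[1, 2, 7, 8], [2, 0, 8, 9, 10], [7, 0, 1, 10, 3, 11, 12], [11, 2, 10, 4, 5, 13], [5, 3, 10,
    9], [13, 3, 4, 9, 8, 14, 6], [13, 5, 14, 15]]
  P := {
    a := 7
    N := 16
    nb := [390, 1797, 7307, 11316, 1576, 25432, 57376, 4357, 17059, 1330, 542, 12300, 2180, 34920,
      33120, 24640]
    tri := [(0, 1, 2), (0, 1, 8), (0, 2, 7), (0, 7, 8), (1, 2, 10), (1, 8, 9), (1, 9, 10), (2, 3, 10),
      (2, 3, 11), (2, 7, 12), (2, 11, 12), (3, 4, 5), (3, 4, 10), (3, 5, 13), (3, 11, 13), (4, 5,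
      9), (4, 9, 10), (5, 6, 13), (5, 6, 14), (5, 8, 9), (5, 8, 14), (6, 13, 15), (6, 14, 15)]
    fin := [0, 0, 2, 2, 2, 5, 5, 0, 5, 2, 0, 11, 12, 2, 14, 15]
    chd := [(2, 12), (5, 15)]
    steps := [(0, 1), (0, 7), (0, 10), (2, 3), (2, 4), (2, 9), (2, 13), (5, 6), (5, 8)] }
  rep := [2, 0, 5, 11, 14, 12, 15]

noncomputable def v1586 : Cov.CovD where
  P := 3
  N := 4
  pl := [4, 7]
  lev := [⟨[], [], [(1, 2)], [], [(0, 1, []), (1, 2, [6])]⟩,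
    ⟨[], [(0, 0), (0, 1), (0, 2)], [(0, 1), (0, 2), (1, 2)], [], [(1, 2, [6]), (2, 0, [5]),
      (3, 1, [])]⟩,
    ⟨[(0, 1)], [(0, 1), (0, 2), (0, 5), (1, 0), (1, 1), (1, 2), (1, 5)], [(1, 1), (1, 5)],
      [3], [(0, 1, []), (3, 1, []), (5, 5, [0])]⟩,
    ⟨[(0, 2), (1, 2)], [(1, 1), (2, 0), (2, 1), (2, 5)], [(0, 1)], [3], [(3, 1, []), (6, 0,
      [5])]⟩,
    ⟨[(2, 3)], [(1, 0), (1, 1), (2, 1), (3, 0), (3, 1)], [(0, 1)], [], [(2, 0, [5]), (3, 1,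
      [])]⟩,
    ⟨[(2, 3), (3, 4)], [(0, 2), (1, 0), (1, 2), (3, 0), (3, 1), (3, 2), (4, 0), (4, 1), (4,
      2)], [(0, 0), (0, 2)], [4], [(1, 2, [6]), (2, 0, [5]), (6, 0, [5])]⟩,
    ⟨[(3, 5), (4, 5)], [(3, 0), (5, 0), (5, 2), (5, 6)], [(0, 6)], [4], [(6, 0, [5]), (8,
      6, [2])]⟩]
  Ta := [((0, 1), 1, 2), ((0, 5), 1, 5), ((2, 1), 0, 2), ((2, 3), 0, 1), ((3, 2), 1, 0), ((6, 4),
    0, 3), ((6, 8), 0, 6)]
  Tb := [((0, 1, 5), 1, 2, 5), ((1, 0, 2), 2, 1, 0), ((1, 0, 7), 2, 1, 4), ((1, 2, 7), 2, 0, 4),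
    ((2, 1, 3), 0, 2, 1), ((4, 5, 6), 3, 5, 0), ((5, 0, 4), 5, 1, 3), ((6, 4, 8), 0, 3, 6),
    ((7, 1, 8), 4, 2, 6), ((8, 6, 7), 6, 0, 4)]
  Tc := []
  Td := [((0, 5), (2, 1), 2), ((0, 5), (2, 3), 1), ((0, 5), (6, 4), 3), ((0, 5), (6, 8), 6), ((2,
    6), (1, 0), 1), ((2, 6), (1, 2), 0), ((2, 6), (1, 7), 4), ((5, 0), (5, 0), 1), ((5, 0),
    (5, 4), 3), ((6, 2), (8, 6), 0), ((6, 2), (8, 7), 4)]
  G := [[0, 0, 0x11a411c86144, 0x22c221c2c144, 0x1248a41a8c188], [0,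
    0x244382144e21c42621c221c268c8, 0x116411a4c148, 0, 0x41a441a8c182], [0, 0, 0,
    0x22c82122c2422c48cc8, 0xe4a144ea484ea14ea8cd28], [0, 0, 0, 0,
    0xc6a144ea14ea8c5e24484c892]]

noncomputable def n1586 : Ent := ⟨e1586, noF, [], [], []⟩

def c1586 : PLift (Cov.check n1586.C.D v1586 = true) := ⟨by decide +kernel⟩

def b1586 : PLift (entF (fidx ts) 400 1586 n1586 = true) := ⟨by decide +kernel⟩

theorem g1586 : GoodF (fidx ts) 400 1586 := GoodF.ofV v1586 n1586 c1586.down b1586.down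

/-- 4576474:1322/1 -/
noncomputable def e1587 : SCfg where
  D := {
    a := 7
    L := 10
    kp := 7
    inn := [(0, 1), (0, 2), (1, 0), (1, 2), (2, 0), (2, 1), (2, 3), (3, 2), (3, 4), (3, 5), (4, 3), (4,
      5), (5, 3), (5, 4), (5, 6), (6, 5)]
    mix := [(0, 0), (0, 1), (1, 1), (1, 2), (1, 3), (2, 0), (2, 3), (2, 4), (2, 5), (3, 3), (3, 4), (3,
      6), (4, 3), (4, 7), (5, 1), (5, 6), (5, 7), (5, 8), (6, 6), (6, 8), (6, 9)]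
    cl := [2, 0, 5, 1, 1, 6, 0, 3, 4, 7]
    chq := [(1, 2), (2, 1), (2, 5), (5, 2)]
    rng := [(0, 1), (0, 5), (1, 0), (1, 2), (1, 7), (1, 8), (2, 1), (2, 3), (3, 2), (3, 7), (4, 5), (4,
      6), (5, 0), (5, 4), (6, 4), (6, 9), (7, 1), (7, 3), (8, 1), (8, 9), (9, 6), (9, 8)]
    lev := [] }
  links := [[1, 2, 7, 8], [2, 0, 8, 9, 10], [7, 0, 1, 10, 3, 11, 12], [11, 2, 10, 4, 5, 13], [5, 3, 10,
    14], [13, 3, 4, 14, 8, 15, 6], [13, 5, 15, 16]]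
  P := {
    a := 7
    N := 17
    nb := [390, 1797, 7307, 11316, 17448, 57688, 106528, 4357, 49827, 1282, 16926, 12300, 2180, 67688,
      1328, 65888, 41024]
    tri := [(0, 1, 2), (0, 1, 8), (0, 2, 7), (0, 7, 8), (1, 2, 10), (1, 8, 9), (1, 9, 10), (2, 3, 10),
      (2, 3, 11), (2, 7, 12), (2, 11, 12), (3, 4, 5), (3, 4, 10), (3, 5, 13), (3, 11, 13), (4, 5,
      14), (4, 10, 14), (5, 6, 13), (5, 6, 15), (5, 8, 14), (5, 8, 15), (6, 13, 16), (6, 15, 16)]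
    fin := [0, 0, 0, 3, 4, 4, 4, 0, 4, 9, 3, 3, 12, 4, 14, 15, 16]
    chd := [(0, 3), (0, 9)]
    steps := [(0, 1), (0, 2), (0, 7), (3, 10), (3, 11), (4, 5), (4, 6), (4, 8), (4, 13)] }
  rep := [4, 3, 0, 14, 15, 9, 12, 16]

noncomputable def v1587 : Cov.CovD where
  P := 3
  N := 5
  pl := [5, 7, 8, 9]
  lev := [⟨[], [], [(0, 2)], [], [(0, 2, [1, 5]), (1, 0, [])]⟩,
    ⟨[], [(0, 0), (0, 1), (0, 2), (0, 5)], [(0, 1), (0, 5), (1, 5)], [], [(1, 0, []), (2,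
      5, [2]), (3, 1, [2])]⟩,
    ⟨[(0, 1)], [(0, 0), (0, 1), (0, 2), (1, 0), (1, 1), (1, 2), (1, 5)], [(1, 1), (1, 2)],
      [6], [(0, 2, [1, 5]), (3, 1, [2]), (4, 1, [2])]⟩,
    ⟨[(0, 2), (1, 2)], [(1, 1), (2, 0), (2, 1), (2, 2)], [(0, 1), (1, 1)], [], [(3, 1,
      [2]), (4, 1, [2]), (6, 0, [])]⟩,
    ⟨[(2, 3)], [(1, 1), (2, 1), (3, 0), (3, 1)], [], [3], [(3, 1, [2])]⟩,
    ⟨[(2, 3), (3, 4)], [(0, 0), (1, 0), (3, 0), (3, 1), (4, 0), (4, 1)], [(0, 0)], [3, 4],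
      [(1, 0, []), (6, 0, [])]⟩,
    ⟨[(3, 5), (4, 5)], [(3, 0), (5, 0)], [], [4, 7], [(6, 0, [])]⟩]
  Ta := [((1, 0), 0, 2), ((1, 2), 0, 5), ((1, 7), 0, 3), ((1, 8), 0, 4), ((3, 2), 1, 5), ((3, 7),
    1, 3), ((4, 5), 1, 6), ((4, 6), 1, 0), ((6, 4), 0, 1), ((6, 9), 0, 7)]
  Tb := [((0, 1, 5), 2, 0, 6), ((1, 0, 2), 0, 2, 5), ((1, 0, 7), 0, 2, 3), ((1, 0, 8), 0, 2, 4),
    ((1, 2, 7), 0, 5, 3), ((1, 2, 8), 0, 5, 4), ((1, 7, 8), 0, 3, 4), ((2, 1, 3), 5, 0, 1),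
    ((3, 2, 7), 1, 5, 3), ((4, 5, 6), 1, 6, 0), ((5, 0, 4), 6, 2, 1), ((6, 4, 9), 0, 1, 7),
    ((7, 1, 3), 3, 0, 1), ((8, 1, 9), 4, 0, 7), ((9, 6, 8), 7, 0, 4)]
  Tc := [(2, 1, 5)]
  Td := [((1, 2), (3, 2), 5), ((1, 2), (3, 7), 3), ((1, 2), (4, 5), 6), ((1, 2), (4, 6), 0), ((2,
    1), (0, 1), 0), ((2, 1), (0, 5), 6), ((2, 5), (0, 1), 0), ((2, 5), (0, 5), 6), ((5, 2),
    (2, 1), 0), ((5, 2), (2, 3), 1)]
  G := [[0, 0, 0x18116941411a58c111e14111e18cc2, 0x11c1b69414418729cc28,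
    0x11ac16e5431656a58942], [0, 0, 0x111e14111e18c24, 0x1161ba5816a93694528,
    0x181472b411cd238942], [0, 0, 0, 0x4cee1881c441c8ee1c528, 0x6eee1881c14e41eea1c843], [0,
    0xe21eec16eea1e416c28, 0, 0xc8141ce61c81cce618c34, 0xce61c81c442c8ee1c942]]

noncomputable def n1587 : Ent := ⟨e1587, noF, [], [], [(9, 14, [1685382413448253767852309107433119732572617628602273068445371408385, 0])]⟩

def c1587 : PLift (Cov.check n1587.C.D v1587 = true) := ⟨by decide +kernel⟩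

def b1587 : PLift (entF (fidx ts) 400 1587 n1587 = true) := ⟨by decide +kernel⟩

theorem g1587 : GoodF (fidx ts) 400 1587 := GoodF.ofV v1587 n1587 c1587.down b1587.down

/-- 4576474:1322/3 -/
noncomputable def e1588 : SCfg where
  D := {
    a := 7
    L := 10
    kp := 7
    inn := [(0, 1), (0, 2), (1, 0), (1, 2), (2, 0), (2, 1), (2, 3), (3, 2), (3, 4), (3, 5), (4, 3), (4,
      5), (5, 3), (5, 4), (5, 6), (6, 5)]
    mix := [(0, 0), (0, 1), (1, 1), (1, 2), (1, 3), (2, 0), (2, 3), (2, 4), (2, 5), (3, 3), (3, 4), (3,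
      6), (4, 3), (4, 7), (5, 1), (5, 6), (5, 7), (5, 8), (6, 1), (6, 6), (6, 9)]
    cl := [2, 1, 5, 0, 0, 6, 3, 4, 3, 7]
    chq := [(0, 2), (2, 0), (2, 5), (5, 2)]
    rng := [(0, 1), (0, 5), (1, 0), (1, 2), (1, 8), (1, 9), (2, 1), (2, 3), (3, 2), (3, 7), (4, 5), (4,
      6), (5, 0), (5, 4), (6, 4), (6, 9), (7, 3), (7, 8), (8, 1), (8, 7), (9, 1), (9, 6)]
    lev := [] }
  links := [[1, 2, 7, 8], [2, 0, 8, 9, 10], [7, 0, 1, 10, 3, 11, 12], [11, 2, 10, 4, 5, 13], [5, 3, 10,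
    14], [13, 3, 4, 14, 15, 8, 6], [13, 5, 8, 16]]
  P := {
    a := 7
    N := 17
    nb := [390, 1797, 7307, 11316, 17448, 57688, 74016, 4357, 99043, 1282, 16926, 12300, 2180, 67688,
      33840, 16672, 8512]
    tri := [(0, 1, 2), (0, 1, 8), (0, 2, 7), (0, 7, 8), (1, 2, 10), (1, 8, 9), (1, 9, 10), (2, 3, 10),
      (2, 3, 11), (2, 7, 12), (2, 11, 12), (3, 4, 5), (3, 4, 10), (3, 5, 13), (3, 11, 13), (4, 5,
      14), (4, 10, 14), (5, 6, 8), (5, 6, 13), (5, 8, 15), (5, 14, 15), (6, 8, 16), (6, 13, 16)]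
    fin := [0, 0, 0, 3, 3, 5, 6, 0, 6, 9, 3, 3, 12, 5, 14, 5, 16]
    chd := [(0, 3), (0, 9)]
    steps := [(0, 1), (0, 2), (0, 7), (3, 4), (3, 10), (3, 11), (5, 15), (5, 13), (6, 8)] }
  rep := [3, 6, 0, 5, 14, 9, 12, 16]

noncomputable def v1588 : Cov.CovD where
  P := 3
  N := 5
  pl := [1, 5, 7, 9]
  lev := [⟨[], [], [], [1], [(0, 2, [0, 5])]⟩,
    ⟨[], [(0, 0), (0, 2), (0, 5)], [(0, 5)], [1], [(2, 5, [2]), (3, 0, [2])]⟩,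
    ⟨[(0, 1)], [(0, 0), (0, 2), (1, 0), (1, 2), (1, 5)], [(0, 0), (0, 2)], [6], [(0, 2, [0,
      5]), (3, 0, [2]), (4, 0, [2])]⟩,
    ⟨[(0, 2), (1, 2)], [(1, 0), (2, 0), (2, 2), (2, 3)], [(0, 0), (0, 3)], [], [(3, 0,
      [2]), (4, 0, [2]), (6, 3, [])]⟩,
    ⟨[(2, 3)], [(1, 0), (2, 0), (3, 0), (3, 3)], [], [4], [(3, 0, [2])]⟩,
    ⟨[(2, 3), (3, 4)], [(3, 0), (3, 3), (4, 0), (4, 3)], [(3, 3)], [1, 4], [(6, 3, []), (8,
      3, [])]⟩,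
    ⟨[(3, 5), (4, 5)], [(3, 3), (5, 3)], [], [1, 7], [(6, 3, [])]⟩]
  Ta := [((3, 2), 0, 5), ((3, 7), 0, 4), ((4, 5), 0, 6), ((4, 6), 0, 3), ((6, 4), 3, 0), ((6, 9),
    3, 7), ((8, 1), 3, 1), ((8, 7), 3, 4)]
  Tb := [((0, 1, 5), 2, 1, 6), ((1, 0, 2), 1, 2, 5), ((1, 0, 8), 1, 2, 3), ((1, 0, 9), 1, 2, 7),
    ((1, 2, 8), 1, 5, 3), ((1, 2, 9), 1, 5, 7), ((1, 8, 9), 1, 3, 7), ((2, 1, 3), 5, 1, 0),
    ((3, 2, 7), 0, 5, 4), ((4, 5, 6), 0, 6, 3), ((5, 0, 4), 6, 2, 0), ((6, 4, 9), 3, 0, 7),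
    ((7, 3, 8), 4, 0, 3), ((8, 1, 7), 3, 1, 4), ((9, 1, 6), 7, 1, 3)]
  Tc := [(2, 0, 5)]
  Td := [((0, 2), (3, 2), 5), ((0, 2), (3, 7), 4), ((0, 2), (4, 5), 6), ((0, 2), (4, 6), 3), ((2,
    0), (0, 1), 1), ((2, 0), (0, 5), 6), ((2, 5), (0, 1), 1), ((2, 5), (0, 5), 6), ((5, 2),
    (2, 1), 1), ((5, 2), (2, 3), 0)]
  G := [[0, 0x2288a442a2c46266c8a44a8ce224c8e6264e88cac2c, 0xd122d142d182e18,
    0x555999c2555999c2c145d819dc28c9d955562445, 0x555999c2455919dc2a48], [0,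
    0x28a24a484e462424a6488e8ac24, 0x918491425128e18,
    0x489845c24448cc162145445d68c489845c28cc, 0xc1484dc251455d68a48], [0,
    0xca2e1a4ce168a664c56288a64889ec24261882c, 0x5191c25191c2c18, 0x45989584ce251c99ccce2c18,
    0xd1ddc32459918ccd2a41], [0, 0xaaae14666e18c24, 0x9191a4515168c14, 0xc1c1a2515168c18,
    0x9191a4515168a41]]

noncomputable def n1588 : Ent := ⟨e1588, noF, [], [], []⟩

def c1588 : PLift (Cov.check n1588.C.D v1588 = true) := ⟨by decide +kernel⟩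

def b1588 : PLift (entF (fidx ts) 400 1588 n1588 = true) := ⟨by decide +kernel⟩

theorem g1588 : GoodF (fidx ts) 400 1588 := GoodF.ofV v1588 n1588 c1588.down b1588.down

/-- 4576474:1322/4 -/
noncomputable def e1589 : SCfg where
  D := {
    a := 7
    L := 10
    kp := 7
    inn := [(0, 1), (0, 2), (1, 0), (1, 2), (2, 0), (2, 1), (2, 3), (3, 2), (3, 4), (3, 5), (4, 3), (4,
      5), (5, 3), (5, 4), (5, 6), (6, 5)]
    mix := [(0, 0), (0, 1), (1, 1), (1, 2), (1, 3), (2, 0), (2, 3), (2, 4), (2, 5), (3, 3), (3, 4), (3,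
      6), (4, 3), (4, 7), (5, 6), (5, 7), (5, 8), (5, 9), (6, 1), (6, 6), (6, 9)]
    cl := [2, 1, 6, 0, 0, 7, 3, 4, 3, 5]
    chq := [(0, 2), (2, 0), (2, 6), (6, 2)]
    rng := [(0, 1), (0, 5), (1, 0), (1, 2), (1, 6), (1, 9), (2, 1), (2, 3), (3, 2), (3, 7), (4, 5), (4,
      6), (5, 0), (5, 4), (6, 1), (6, 4), (7, 3), (7, 8), (8, 7), (8, 9), (9, 1), (9, 8)]
    lev := [] }
  links := [[1, 2, 7, 8], [2, 0, 8, 9, 10], [7, 0, 1, 10, 3, 11, 12], [11, 2, 10, 4, 5, 13], [5, 3, 10,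
    14], [13, 3, 4, 14, 15, 16, 6], [13, 5, 16, 8]]
  P := {
    a := 7
    N := 17
    nb := [390, 1797, 7307, 11316, 17448, 122968, 74016, 4357, 74435, 1282, 16926, 12300, 2180, 2408,
      33840, 81952, 33120]
    tri := [(0, 1, 2), (0, 1, 8), (0, 2, 7), (0, 7, 8), (1, 2, 10), (1, 8, 9), (1, 9, 10), (2, 3, 10),
      (2, 3, 11), (2, 7, 12), (2, 11, 12), (3, 4, 5), (3, 4, 10), (3, 5, 13), (3, 11, 13), (4, 5,
      14), (4, 10, 14), (5, 6, 13), (5, 6, 16), (5, 14, 15), (5, 15, 16), (6, 8, 13), (6, 8, 16)]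
    fin := [0, 0, 0, 3, 3, 5, 6, 0, 6, 9, 3, 3, 12, 5, 14, 5, 16]
    chd := [(0, 3), (0, 9)]
    steps := [(0, 1), (0, 2), (0, 7), (3, 4), (3, 10), (3, 11), (5, 15), (5, 13), (6, 8)] }
  rep := [3, 6, 0, 5, 14, 16, 9, 12]

noncomputable def v1589 : Cov.CovD where
  P := 3
  N := 5
  pl := [1, 5, 7, 9]
  lev := [⟨[], [], [], [1], [(0, 2, [0, 6])]⟩,
    ⟨[], [(0, 0), (0, 2), (0, 6)], [(0, 6)], [1], [(2, 6, [2]), (3, 0, [2])]⟩,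
    ⟨[(0, 1)], [(0, 0), (0, 2), (1, 0), (1, 2), (1, 6)], [(0, 0), (0, 2)], [7], [(0, 2, [0,
      6]), (3, 0, [2]), (4, 0, [2])]⟩,
    ⟨[(0, 2), (1, 2)], [(1, 0), (2, 0), (2, 2), (2, 3)], [(0, 0), (0, 3)], [], [(3, 0,
      [2]), (4, 0, [2]), (6, 3, [])]⟩,
    ⟨[(2, 3)], [(1, 0), (2, 0), (3, 0), (3, 3)], [], [4], [(3, 0, [2])]⟩,
    ⟨[(2, 3), (3, 4)], [(3, 0), (3, 3), (4, 0), (4, 3)], [(3, 3)], [4, 5], [(6, 3, []), (8,
      3, [])]⟩,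
    ⟨[(3, 5), (4, 5)], [(3, 3), (5, 3)], [], [1, 5], [(6, 3, [])]⟩]
  Ta := [((3, 2), 0, 6), ((3, 7), 0, 4), ((4, 5), 0, 7), ((4, 6), 0, 3), ((6, 1), 3, 1), ((6, 4),
    3, 0), ((8, 7), 3, 4), ((8, 9), 3, 5)]
  Tb := [((0, 1, 5), 2, 1, 7), ((1, 0, 2), 1, 2, 6), ((1, 0, 6), 1, 2, 3), ((1, 0, 9), 1, 2, 5),
    ((1, 2, 6), 1, 6, 3), ((1, 2, 9), 1, 6, 5), ((1, 6, 9), 1, 3, 5), ((2, 1, 3), 6, 1, 0),
    ((3, 2, 7), 0, 6, 4), ((4, 5, 6), 0, 7, 3), ((5, 0, 4), 7, 2, 0), ((6, 1, 4), 3, 1, 0),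
    ((7, 3, 8), 4, 0, 3), ((8, 7, 9), 3, 4, 5), ((9, 1, 8), 5, 1, 3)]
  Tc := [(2, 0, 6)]
  Td := [((0, 2), (3, 2), 6), ((0, 2), (3, 7), 4), ((0, 2), (4, 5), 7), ((0, 2), (4, 6), 3), ((2,
    0), (0, 1), 1), ((2, 0), (0, 5), 7), ((2, 6), (0, 1), 1), ((2, 6), (0, 5), 7), ((6, 2),
    (2, 1), 1), ((6, 2), (2, 3), 0)]
  G := [[0, 0x22446228c9a448a9ce4228344622849a42588ce82c, 0x4841f24446881bc24881f241588cae14,
    0x441789ac2456881bc2c456881bc2441789ac2cc1, 0x48172882451788ce4917285a241588cea41], [0,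
    0x444cf888cfc22226f4446f68c28, 0x481b8417c28132481d86a18,
    0x81592a88461152648c4ac81592a4846522881d4acc1, 0x446881b11e25432881d4aa48], [0,
    0x81484582a32286f4e44cd2612184cebac24, 0x4481f2441788ca8224841f244819ce618,
    0x4c178dac24d68c1bc2c18, 0x881d21184ce568132884e11184c9ea41], [0,
    0x4c98c582d22141642e78c28, 0x441b8817c2484815813aca18, 0x922881d46441b8c6c2c14,
    0x1111888eb41111444e78a48]]

noncomputable def n1589 : Ent := ⟨e1589, noF, [], [], []⟩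

def c1589 : PLift (Cov.check n1589.C.D v1589 = true) := ⟨by decide +kernel⟩

def b1589 : PLift (entF (fidx ts) 400 1589 n1589 = true) := ⟨by decide +kernel⟩

theorem g1589 : GoodF (fidx ts) 400 1589 := GoodF.ofV v1589 n1589 c1589.down b1589.down

/-- 4576474:1322/5 -/
noncomputable def e1590 : SCfg where
  D := {
    a := 7
    L := 10
    kp := 7
    inn := [(0, 1), (0, 2), (1, 0), (1, 2), (2, 0), (2, 1), (2, 3), (3, 2), (3, 4), (3, 5), (4, 3), (4,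
      5), (5, 3), (5, 4), (5, 6), (6, 5)]
    mix := [(0, 0), (0, 1), (1, 1), (1, 2), (1, 3), (2, 0), (2, 3), (2, 4), (2, 5), (3, 3), (3, 4), (3,
      6), (4, 2), (4, 3), (5, 2), (5, 6), (5, 7), (5, 8), (6, 6), (6, 8), (6, 9)]
    cl := [1, 2, 0, 1, 3, 5, 0, 6, 4, 7]
    chq := [(0, 5), (5, 0), (6, 7), (7, 6)]
    rng := [(0, 1), (0, 5), (1, 0), (1, 2), (2, 1), (2, 3), (2, 7), (3, 2), (4, 5), (4, 6), (5, 0), (5,
      4), (6, 4), (6, 9), (7, 2), (7, 8), (8, 7), (8, 9), (9, 6), (9, 8)]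
    lev := [] }
  links := [[1, 2, 7, 8], [2, 0, 8, 9, 10], [7, 0, 1, 10, 3, 11, 12], [11, 2, 10, 4, 5, 13], [5, 3, 10,
    9], [13, 3, 4, 9, 14, 15, 6], [13, 5, 15, 16]]
  P := {
    a := 7
    N := 17
    nb := [390, 1797, 7307, 11316, 1576, 57944, 106528, 4357, 643, 17714, 542, 12300, 2180, 67688,
      33312, 82016, 41024]
    tri := [(0, 1, 2), (0, 1, 8), (0, 2, 7), (0, 7, 8), (1, 2, 10), (1, 8, 9), (1, 9, 10), (2, 3, 10),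
      (2, 3, 11), (2, 7, 12), (2, 11, 12), (3, 4, 5), (3, 4, 10), (3, 5, 13), (3, 11, 13), (4, 5,
      9), (4, 9, 10), (5, 6, 13), (5, 6, 15), (5, 9, 14), (5, 14, 15), (6, 13, 16), (6, 15, 16)]
    fin := [0, 0, 2, 2, 2, 5, 5, 0, 8, 2, 0, 11, 12, 2, 5, 15, 16]
    chd := [(2, 12), (5, 16)]
    steps := [(0, 1), (0, 7), (0, 10), (2, 3), (2, 4), (2, 9), (2, 13), (5, 6), (5, 14)] }
  rep := [2, 0, 8, 11, 15, 12, 5, 16]

noncomputable def v1590 : Cov.CovD where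
  P := 3
  N := 5
  pl := [1, 4, 8]
  lev := [⟨[], [], [], [2], [(0, 1, [])]⟩,
    ⟨[], [(0, 0), (0, 1)], [(0, 1)], [2], [(2, 0, [5]), (3, 1, [])]⟩,
    ⟨[(0, 1)], [(0, 1), (0, 5), (1, 0), (1, 1), (1, 5)], [(1, 1), (1, 5)], [3], [(0, 1,
      []), (3, 1, []), (5, 5, [0])]⟩,
    ⟨[(0, 2), (1, 2)], [(1, 1), (2, 0), (2, 1), (2, 5)], [(0, 1)], [3], [(3, 1, []), (6, 0,
      [5])]⟩,
    ⟨[(2, 3)], [(1, 0), (1, 1), (2, 1), (3, 0), (3, 1)], [(0, 1)], [], [(2, 0, [5]), (3, 1,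
      [])]⟩,
    ⟨[(2, 3), (3, 4)], [(1, 0), (3, 0), (3, 1), (3, 6), (4, 0), (4, 1), (4, 6)], [(0, 0),
      (0, 6)], [4], [(2, 0, [5]), (6, 0, [5]), (7, 6, [7])]⟩,
    ⟨[(3, 5), (4, 5)], [(3, 0), (5, 0), (5, 6), (5, 7)], [(0, 7)], [4], [(6, 0, [5]), (9,
      7, [6])]⟩]
  Ta := [((0, 1), 1, 2), ((0, 5), 1, 5), ((2, 1), 0, 2), ((2, 3), 0, 1), ((2, 7), 0, 6), ((3, 2),
    1, 0), ((6, 4), 0, 3), ((6, 9), 0, 7)]
  Tb := [((0, 1, 5), 1, 2, 5), ((1, 0, 2), 2, 1, 0), ((2, 1, 3), 0, 2, 1), ((2, 1, 7), 0, 2, 6),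
    ((2, 3, 7), 0, 1, 6), ((4, 5, 6), 3, 5, 0), ((5, 0, 4), 5, 1, 3), ((6, 4, 9), 0, 3, 7),
    ((7, 2, 8), 6, 0, 4), ((8, 7, 9), 4, 6, 7), ((9, 6, 8), 7, 0, 4)]
  Tc := []
  Td := [((0, 5), (2, 1), 2), ((0, 5), (2, 3), 1), ((0, 5), (2, 7), 6), ((0, 5), (6, 4), 3), ((0,
    5), (6, 9), 7), ((5, 0), (5, 0), 1), ((5, 0), (5, 4), 3), ((6, 7), (7, 2), 0), ((6, 7),
    (7, 8), 4), ((7, 6), (9, 6), 0), ((7, 6), (9, 8), 4)]
  G := [[0, 0, 0xc281a1e861c8e144, 0x6a1e452813c8e148, 0x156839a413c8e188], [0,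
    0x3c64184184e12812459c4ea4148d9a2144e485, 0x19638c1439acc184, 0, 0x3c618c691e8c188], [0,
    0, 0, 0x6acc2346ace18c21c21a468ced84, 0xa416ca1cc28c246ac1e5c26ac64898], [0, 0, 0, 0,
    0xa446ca8c6ace468ac65c5ac64684c892]]

noncomputable def n1590 : Ent := ⟨e1590, noF, [], [], [(8, 14, [1685382413448253767852309107433119732572617628602273068445371408385, 0])]⟩

def c1590 : PLift (Cov.check n1590.C.D v1590 = true) := ⟨by decide +kernel⟩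

def b1590 : PLift (entF (fidx ts) 400 1590 n1590 = true) := ⟨by decide +kernel⟩

theorem g1590 : GoodF (fidx ts) 400 1590 := GoodF.ofV v1590 n1590 c1590.down b1590.down

/-- 4576474:1322 -/
noncomputable def e1591 : SCfg where
  D := {
    a := 7
    L := 11
    kp := 8
    inn := [(0, 1), (0, 2), (1, 0), (1, 2), (2, 0), (2, 1), (2, 3), (3, 2), (3, 4), (3, 5), (4, 3), (4,
      5), (5, 3), (5, 4), (5, 6), (6, 5)]
    mix := [(0, 0), (0, 1), (1, 1), (1, 2), (1, 3), (2, 0), (2, 3), (2, 4), (2, 5), (3, 3), (3, 4), (3,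
      6), (4, 3), (4, 7), (5, 6), (5, 7), (5, 8), (5, 9), (6, 6), (6, 9), (6, 10)]
    cl := [3, 2, 6, 0, 0, 7, 1, 4, 1, 5, 8]
    chq := [(3, 6), (6, 3), (6, 7), (7, 6)]
    rng := [(0, 1), (0, 5), (1, 0), (1, 2), (2, 1), (2, 3), (3, 2), (3, 7), (4, 5), (4, 6), (5, 0), (5,
      4), (6, 4), (6, 10), (7, 3), (7, 8), (8, 7), (8, 9), (9, 8), (9, 10), (10, 6), (10, 9)]
    lev := [] }
  links := [[1, 2, 7, 8], [2, 0, 8, 9, 10], [7, 0, 1, 10, 3, 11, 12], [11, 2, 10, 4, 5, 13], [5, 3, 10,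
    14], [13, 3, 4, 14, 15, 16, 6], [13, 5, 16, 17]]
  P := {
    a := 7
    N := 18
    nb := [390, 1797, 7307, 11316, 17448, 122968, 204832, 4357, 643, 1282, 16926, 12300, 2180, 133224,
      33840, 81952, 163936, 73792]
    tri := [(0, 1, 2), (0, 1, 8), (0, 2, 7), (0, 7, 8), (1, 2, 10), (1, 8, 9), (1, 9, 10), (2, 3, 10),
      (2, 3, 11), (2, 7, 12), (2, 11, 12), (3, 4, 5), (3, 4, 10), (3, 5, 13), (3, 11, 13), (4, 5,
      14), (4, 10, 14), (5, 6, 13), (5, 6, 16), (5, 14, 15), (5, 15, 16), (6, 13, 17), (6, 16,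
      17)]
    fin := [0, 1, 1, 3, 3, 5, 5, 0, 8, 1, 3, 3, 12, 5, 14, 5, 16, 17]
    chd := [(0, 1), (1, 12)]
    steps := [(0, 7), (1, 2), (1, 9), (3, 4), (3, 10), (3, 11), (5, 6), (5, 15), (5, 13)] }
  rep := [3, 5, 8, 0, 14, 16, 1, 12, 17]

noncomputable def v1591 : Cov.CovD where
  P := 3
  N := 6
  pl := [1, 7, 9, 10]
  lev := [⟨[], [], [], [2], [(0, 3, [6])]⟩,
    ⟨[], [(0, 0), (0, 3), (0, 6)], [(0, 6)], [2], [(2, 6, [3, 7]), (3, 0, [])]⟩,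
    ⟨[(0, 1)], [(0, 0), (0, 3), (0, 7), (1, 0), (1, 3), (1, 6), (1, 7)], [(0, 0), (0, 3),
      (0, 7), (3, 7)], [], [(0, 3, [6]), (3, 0, []), (4, 0, []), (5, 7, [6])]⟩,
    ⟨[(0, 2), (1, 2)], [(1, 0), (2, 0), (2, 1), (2, 3), (2, 7)], [(0, 0), (0, 1)], [], [(3,
      0, []), (4, 0, []), (6, 1, [])]⟩,
    ⟨[(2, 3)], [(1, 0), (2, 0), (3, 0), (3, 1)], [], [4], [(3, 0, [])]⟩,
    ⟨[(2, 3), (3, 4)], [(3, 0), (3, 1), (4, 0), (4, 1)], [(1, 1)], [4, 5], [(6, 1, []), (8,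
      1, [])]⟩,
    ⟨[(3, 5), (4, 5)], [(3, 1), (5, 1)], [], [5, 8], [(6, 1, [])]⟩]
  Ta := [((3, 2), 0, 6), ((3, 7), 0, 4), ((4, 5), 0, 7), ((4, 6), 0, 1), ((6, 4), 1, 0), ((6,
    10), 1, 8), ((8, 7), 1, 4), ((8, 9), 1, 5)]
  Tb := [((0, 1, 5), 3, 2, 7), ((1, 0, 2), 2, 3, 6), ((2, 1, 3), 6, 2, 0), ((3, 2, 7), 0, 6, 4),
    ((4, 5, 6), 0, 7, 1), ((5, 0, 4), 7, 3, 0), ((6, 4, 10), 1, 0, 8), ((7, 3, 8), 4, 0, 1),
    ((8, 7, 9), 1, 4, 5), ((9, 8, 10), 5, 1, 8), ((10, 6, 9), 8, 1, 5)]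
  Tc := [(6, 3, 7)]
  Td := [((3, 6), (0, 1), 2), ((3, 6), (0, 5), 7), ((6, 3), (2, 1), 2), ((6, 3), (2, 3), 0), ((6,
    7), (2, 1), 2), ((6, 7), (2, 3), 0), ((7, 6), (5, 0), 3), ((7, 6), (5, 4), 0)]
  G := [[0, 0, 0x882448442d9dd2c5ddd28c28824dd52d82c6d42dd92c8ce,
    0xd9dd244428d42dd92ce488245ddd285ddd2882ce88824444288cd,
    0xd9dd24824428d42dd92c644288a44285dc28d92cc2b], [0, 0,
    0x3256a9682629a25d648629572968729295a468c, 0x229b95a48421b4299e84823c6a96824d,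
    0x62c235a84468222c7b968282954b292c42b], [0xe21eec16826eee1881a48c41e2ee1c28e,
    0xa21ee4e16e218a4ee61e81ae21468eec1224d,
    0x881442441c8dd2c4cdd28c28824cd92464424888ddacc428ace,
    0xc8dd24c8528442c592ce14cdd2881cc42d1c83c644188c9,
    0xcd52c82c442c8dd2c61c42cd92cc41cd92cc23], [0, 0, 0x2299124b47122c38c2316ac38b122c3868a,
    0x229295a45129528e8a12252596824428d1ac61c, 0x2821255e424d16288cc17122c38b122c34689]]

noncomputable def n1591 : Ent := ⟨e1591, noF, [], [], [(8, 15, [7334790850167413569773436004105379185503274260204390087403942011154433, 0]), (8, 16, [7334685537875745012586738086077695515070955365108989538292687700180993, 0]), (8, 17, [6903326391201334775872065844685381424292761054348340378595029936197633, 0]), (9, 14, [7334790875878422277917280412776772662961875900559637987928627375988737, 0])]⟩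

def c1591 : PLift (Cov.check n1591.C.D v1591 = true) := ⟨by decide +kernel⟩

def b1591 : PLift (entF (fidx ts) 400 1591 n1591 = true) := ⟨by decide +kernel⟩

theorem g1591 : GoodF (fidx ts) 400 1591 := GoodF.ofV v1591 n1591 c1591.down b1591.down

/-- 4847545:1323/2 -/
noncomputable def e1592 : SCfg where
  D := {
    a := 7
    L := 9
    kp := 6
    inn := [(0, 1), (0, 4), (1, 0), (1, 2), (1, 3), (1, 4), (2, 1), (3, 1), (3, 5), (3, 6), (4, 0), (4,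
      1), (5, 3), (5, 6), (6, 3), (6, 5)]
    mix := [(0, 0), (0, 1), (1, 1), (1, 2), (1, 3), (1, 4), (2, 2), (2, 3), (2, 5), (3, 3), (3, 4), (3,
      6), (3, 7), (4, 0), (4, 4), (4, 8), (5, 4), (5, 8), (6, 0), (6, 7), (6, 8)]
    cl := [1, 0, 2, 0, 0, 5, 6, 4, 3]
    chq := [(0, 4), (3, 4), (4, 0), (4, 3)]
    rng := [(0, 1), (0, 7), (0, 8), (1, 0), (1, 2), (2, 1), (2, 5), (3, 5), (3, 6), (4, 8), (5, 2), (5,
      3), (6, 3), (6, 7), (7, 0), (7, 6), (8, 0), (8, 4)]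
    lev := [] }
  links := [[1, 4, 7, 8], [4, 0, 8, 9, 2, 10, 3, 11], [10, 1, 9, 12], [11, 1, 10, 13, 14, 6, 5], [7, 0,
    1, 11, 15], [11, 3, 6, 15], [15, 5, 3, 14, 7]]
  P := {
    a := 7
    N := 16
    nb := [402, 3869, 5634, 27746, 34947, 34888, 49320, 49489, 643, 4358, 12302, 32826, 1540, 17416,
      8392, 2288]
    tri := [(0, 1, 4), (0, 1, 8), (0, 4, 7), (0, 7, 8), (1, 2, 9), (1, 2, 10), (1, 3, 10), (1, 3, 11),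
      (1, 4, 11), (1, 8, 9), (2, 9, 12), (2, 10, 12), (3, 5, 6), (3, 5, 11), (3, 6, 14), (3, 10,
      13), (3, 13, 14), (4, 7, 15), (4, 11, 15), (5, 6, 15), (5, 11, 15), (6, 7, 14), (6, 7, 15)]
    fin := [0, 1, 1, 1, 0, 1, 6, 0, 1, 9, 1, 1, 12, 13, 6, 15]
    chd := [(1, 6), (6, 15)]
    steps := [(0, 4), (0, 7), (1, 2), (1, 3), (1, 5), (1, 8), (1, 10), (1, 11), (6, 14)] }
  rep := [1, 0, 9, 15, 6, 12, 13]

noncomputable def v1592 : Cov.CovD where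
  P := 3
  N := 4
  pl := [0, 2, 5, 6]
  lev := [⟨[], [], [], [1], [(1, 0, [4])]⟩,
    ⟨[], [(0, 0)], [(0, 0)], [2], [(1, 0, [4]), (3, 0, [4]), (4, 0, [4])]⟩,
    ⟨[(0, 1)], [(1, 0)], [], [2, 5], [(3, 0, [4])]⟩,
    ⟨[(0, 1), (1, 2)], [(1, 0), (1, 4), (2, 0)], [(0, 0), (0, 4)], [6], [(3, 0, [4]), (4,
      0, [4]), (7, 4, [0, 3])]⟩,
    ⟨[(0, 1), (1, 2), (1, 3)], [(0, 0), (0, 3), (1, 0), (1, 3), (3, 0)], [(0, 3)], [1],
      [(4, 0, [4]), (8, 3, [4])]⟩,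
    ⟨[(1, 3)], [(1, 0), (3, 0), (3, 3), (3, 4), (4, 0), (4, 3)], [(0, 3)], [], [(4, 0,
      [4]), (8, 3, [4])]⟩,
    ⟨[(1, 3), (3, 5)], [(3, 0), (3, 3), (3, 4), (4, 3), (5, 0), (5, 3), (5, 4)], [(3, 4)],
      [1], [(7, 4, [0, 3]), (8, 3, [4])]⟩]
  Ta := [((1, 0), 0, 1), ((1, 2), 0, 2), ((3, 5), 0, 5), ((3, 6), 0, 6), ((4, 8), 0, 3)]
  Tb := [((0, 1, 7), 1, 0, 4), ((0, 1, 8), 1, 0, 3), ((0, 7, 8), 1, 4, 3), ((1, 0, 2), 0, 1, 2),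
    ((2, 1, 5), 2, 0, 5), ((3, 5, 6), 0, 5, 6), ((5, 2, 3), 5, 2, 0), ((6, 3, 7), 6, 0, 4),
    ((7, 0, 6), 4, 1, 6), ((8, 0, 4), 3, 1, 0)]
  Tc := [(4, 0, 3)]
  Td := [((0, 4), (1, 0), 1), ((0, 4), (1, 2), 2), ((0, 4), (3, 5), 5), ((0, 4), (3, 6), 6), ((0,
    4), (4, 8), 3), ((3, 4), (8, 0), 1), ((3, 4), (8, 4), 0), ((4, 0), (7, 0), 1), ((4, 0),
    (7, 6), 6), ((4, 3), (7, 0), 1), ((4, 3), (7, 6), 6)]
  G := [[0, 0x41a86418161ae824aa1c4, 0x816141a111c1e116111c111c1ec28, 0x186111a111c1e148,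
    0x116111c11814ce128], [0, 0, 0, 0x11a14411c111a111c1e11a111c1acc8,
    0x11c12211a141a111c1e116111a1caa4], [0, 0, 0, 0x424418214c18818d4ce1c8,
    0x8214c1842c9854ce128]]

noncomputable def n1592 : Ent := ⟨e1592, noF, [], [], []⟩

def c1592 : PLift (Cov.check n1592.C.D v1592 = true) := ⟨by decide +kernel⟩

def b1592 : PLift (entF (fidx ts) 400 1592 n1592 = true) := ⟨by decide +kernel⟩

theorem g1592 : GoodF (fidx ts) 400 1592 := GoodF.ofV v1592 n1592 c1592.down b1592.down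

/-- 4847545:1323/1 -/
noncomputable def e1593 : SCfg where
  D := {
    a := 7
    L := 10
    kp := 7
    inn := [(0, 1), (0, 4), (1, 0), (1, 2), (1, 3), (1, 4), (2, 1), (3, 1), (3, 5), (3, 6), (4, 0), (4,
      1), (5, 3), (5, 6), (6, 3), (6, 5)]
    mix := [(0, 0), (0, 1), (1, 1), (1, 2), (1, 3), (1, 4), (2, 2), (2, 3), (2, 5), (3, 3), (3, 4), (3,
      6), (3, 7), (4, 0), (4, 4), (4, 8), (5, 4), (5, 9), (6, 0), (6, 7), (6, 9)]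
    cl := [1, 0, 2, 0, 0, 5, 6, 3, 7, 4]
    chq := [(0, 3), (3, 0), (3, 4), (4, 3)]
    rng := [(0, 1), (0, 7), (0, 8), (0, 9), (1, 0), (1, 2), (2, 1), (2, 5), (3, 5), (3, 6), (4, 8), (4,
      9), (5, 2), (5, 3), (6, 3), (6, 7), (7, 0), (7, 6), (8, 0), (8, 4), (9, 0), (9, 4)]
    lev := [] }
  links := [[1, 4, 7, 8], [4, 0, 8, 9, 2, 10, 3, 11], [10, 1, 9, 12], [11, 1, 10, 13, 14, 6, 5], [7, 0,
    1, 11, 15], [11, 3, 6, 16], [16, 5, 3, 14, 7]]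
  P := {
    a := 7
    N := 17
    nb := [402, 3869, 5634, 27746, 34947, 67656, 82088, 115025, 643, 4358, 12302, 98362, 1540, 17416,
      8392, 2192, 2272]
    tri := [(0, 1, 4), (0, 1, 8), (0, 4, 7), (0, 7, 8), (1, 2, 9), (1, 2, 10), (1, 3, 10), (1, 3, 11),
      (1, 4, 11), (1, 8, 9), (2, 9, 12), (2, 10, 12), (3, 5, 6), (3, 5, 11), (3, 6, 14), (3, 10,
      13), (3, 13, 14), (4, 7, 15), (4, 11, 15), (5, 6, 16), (5, 11, 16), (6, 7, 14), (6, 7, 16)]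
    fin := [0, 1, 1, 3, 0, 3, 0, 0, 1, 9, 1, 1, 12, 13, 3, 15, 16]
    chd := [(1, 3), (3, 16)]
    steps := [(0, 4), (0, 7), (0, 6), (1, 2), (1, 8), (1, 10), (1, 11), (3, 5), (3, 14)] }
  rep := [1, 0, 9, 3, 16, 12, 13, 15]

noncomputable def v1593 : Cov.CovD where
  P := 3
  N := 5
  pl := [0, 2, 5, 6, 8]
  lev := [⟨[], [], [], [1], [(1, 0, [3])]⟩,
    ⟨[], [(0, 0)], [(0, 0)], [2], [(1, 0, [3]), (3, 0, [3]), (4, 0, [3])]⟩,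
    ⟨[(0, 1)], [(1, 0)], [], [2, 5], [(3, 0, [3])]⟩,
    ⟨[(0, 1), (1, 2)], [(1, 0), (1, 3), (2, 0)], [(0, 0), (0, 3)], [6], [(3, 0, [3]), (4,
      0, [3]), (7, 3, [0, 4])]⟩,
    ⟨[(0, 1), (1, 2), (1, 3)], [(0, 0), (1, 0), (3, 0)], [], [1, 7], [(4, 0, [3])]⟩,
    ⟨[(1, 3)], [(1, 0), (3, 0), (3, 3), (3, 4), (4, 0)], [(0, 4)], [], [(4, 0, [3]), (9, 4,
      [3])]⟩,
    ⟨[(1, 3), (3, 5)], [(3, 0), (3, 3), (3, 4), (5, 0), (5, 3), (5, 4)], [(3, 4)], [1],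
      [(7, 3, [0, 4]), (9, 4, [3])]⟩]
  Ta := [((1, 0), 0, 1), ((1, 2), 0, 2), ((3, 5), 0, 5), ((3, 6), 0, 6), ((4, 8), 0, 7), ((4, 9),
    0, 4)]
  Tb := [((0, 1, 7), 1, 0, 3), ((0, 1, 8), 1, 0, 7), ((0, 1, 9), 1, 0, 4), ((0, 7, 8), 1, 3, 7),
    ((0, 7, 9), 1, 3, 4), ((0, 8, 9), 1, 7, 4), ((1, 0, 2), 0, 1, 2), ((2, 1, 5), 2, 0, 5),
    ((3, 5, 6), 0, 5, 6), ((4, 8, 9), 0, 7, 4), ((5, 2, 3), 5, 2, 0), ((6, 3, 7), 6, 0, 3),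
    ((7, 0, 6), 3, 1, 6), ((8, 0, 4), 7, 1, 0), ((9, 0, 4), 4, 1, 0)]
  Tc := [(3, 0, 4)]
  Td := [((0, 3), (1, 0), 1), ((0, 3), (1, 2), 2), ((0, 3), (3, 5), 5), ((0, 3), (3, 6), 6), ((0,
    3), (4, 8), 7), ((0, 3), (4, 9), 4), ((3, 0), (7, 0), 1), ((3, 0), (7, 6), 6), ((3, 4),
    (7, 0), 1), ((3, 4), (7, 6), 6), ((4, 3), (9, 0), 1), ((4, 3), (9, 4), 0)]
  G := [[0, 0xe1e1641e1e1ae1e1ca1c2, 0x116111a11161e116111611161e684, 0x116111a111c1e184,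
    0x1161116111c1e184], [0, 0, 0, 0x11c14411c111a111a1e816111a1acc8,
    0x11c111616211a111a111c1e11618aa8], [0, 0, 0, 0x12451c14acc1695cce1186881c8448145,
    0x816186c14a51cc95c1dcce124]]

noncomputable def n1593 : Ent := ⟨e1593, noF, [], [], [(16, 15, [1685356702439545624007900436039642273970977273354372543760006610945, 0])]⟩

def c1593 : PLift (Cov.check n1593.C.D v1593 = true) := ⟨by decide +kernel⟩

def b1593 : PLift (entF (fidx ts) 400 1593 n1593 = true) := ⟨by decide +kernel⟩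

theorem g1593 : GoodF (fidx ts) 400 1593 := GoodF.ofV v1593 n1593 c1593.down b1593.down

/-- 4847545:1323/3 -/
noncomputable def e1594 : SCfg where
  D := {
    a := 7
    L := 10
    kp := 7
    inn := [(0, 1), (0, 4), (1, 0), (1, 2), (1, 3), (1, 4), (2, 1), (3, 1), (3, 5), (3, 6), (4, 0), (4,
      1), (5, 3), (5, 6), (6, 3), (6, 5)]
    mix := [(0, 0), (0, 1), (1, 1), (1, 2), (1, 3), (1, 4), (2, 2), (2, 3), (2, 5), (3, 3), (3, 4), (3,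
      6), (3, 7), (4, 0), (4, 4), (4, 8), (5, 4), (5, 8), (6, 7), (6, 8), (6, 9)]
    cl := [1, 0, 2, 0, 0, 5, 6, 4, 3, 7]
    chq := [(0, 4), (3, 4), (4, 0), (4, 3)]
    rng := [(0, 1), (0, 8), (1, 0), (1, 2), (2, 1), (2, 5), (3, 5), (3, 6), (4, 8), (5, 2), (5, 3), (6,
      3), (6, 7), (7, 6), (7, 9), (8, 0), (8, 4), (8, 9), (9, 7), (9, 8)]
    lev := [] }
  links := [[1, 4, 7, 8], [4, 0, 8, 9, 2, 10, 3, 11], [10, 1, 9, 12], [11, 1, 10, 13, 14, 6, 5], [7, 0,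
    1, 11, 15], [11, 3, 6, 15], [15, 5, 3, 14, 16]]
  P := {
    a := 7
    N := 17
    nb := [402, 3869, 5634, 27746, 34947, 34888, 114728, 33041, 643, 4358, 12302, 32826, 1540, 17416,
      73800, 67824, 49216]
    tri := [(0, 1, 4), (0, 1, 8), (0, 4, 7), (0, 7, 8), (1, 2, 9), (1, 2, 10), (1, 3, 10), (1, 3, 11),
      (1, 4, 11), (1, 8, 9), (2, 9, 12), (2, 10, 12), (3, 5, 6), (3, 5, 11), (3, 6, 14), (3, 10,
      13), (3, 13, 14), (4, 7, 15), (4, 11, 15), (5, 6, 15), (5, 11, 15), (6, 14, 16), (6, 15,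
      16)]
    fin := [0, 1, 1, 1, 0, 1, 6, 0, 1, 9, 1, 1, 12, 13, 6, 15, 16]
    chd := [(1, 6), (6, 15)]
    steps := [(0, 4), (0, 7), (1, 2), (1, 3), (1, 5), (1, 8), (1, 10), (1, 11), (6, 14)] }
  rep := [1, 0, 9, 15, 6, 12, 13, 16]

noncomputable def v1594 : Cov.CovD where
  P := 3
  N := 5
  pl := [0, 2, 5, 6, 9]
  lev := [⟨[], [], [], [1], [(1, 0, [4])]⟩,
    ⟨[], [(0, 0)], [(0, 0)], [2], [(1, 0, [4]), (3, 0, [4]), (4, 0, [4])]⟩,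
    ⟨[(0, 1)], [(1, 0)], [], [2, 5], [(3, 0, [4])]⟩,
    ⟨[(0, 1), (1, 2)], [(1, 0), (1, 4), (2, 0)], [(0, 0), (0, 4)], [6], [(3, 0, [4]), (4,
      0, [4]), (7, 4, [0, 3])]⟩,
    ⟨[(0, 1), (1, 2), (1, 3)], [(0, 0), (0, 3), (1, 0), (1, 3), (3, 0)], [(0, 3)], [1],
      [(4, 0, [4]), (8, 3, [4])]⟩,
    ⟨[(1, 3)], [(1, 0), (3, 0), (3, 3), (3, 4), (4, 0), (4, 3)], [(0, 3)], [], [(4, 0,
      [4]), (8, 3, [4])]⟩,
    ⟨[(1, 3), (3, 5)], [(3, 0), (3, 3), (3, 4), (4, 3), (5, 0), (5, 3), (5, 4)], [(3, 4)],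
      [7], [(7, 4, [0, 3]), (8, 3, [4])]⟩]
  Ta := [((1, 0), 0, 1), ((1, 2), 0, 2), ((3, 5), 0, 5), ((3, 6), 0, 6), ((4, 8), 0, 3)]
  Tb := [((0, 1, 8), 1, 0, 3), ((1, 0, 2), 0, 1, 2), ((2, 1, 5), 2, 0, 5), ((3, 5, 6), 0, 5, 6),
    ((5, 2, 3), 5, 2, 0), ((6, 3, 7), 6, 0, 4), ((7, 6, 9), 4, 6, 7), ((8, 0, 4), 3, 1, 0),
    ((8, 0, 9), 3, 1, 7), ((8, 4, 9), 3, 0, 7), ((9, 7, 8), 7, 4, 3)]
  Tc := [(4, 0, 3)]
  Td := [((0, 4), (1, 0), 1), ((0, 4), (1, 2), 2), ((0, 4), (3, 5), 5), ((0, 4), (3, 6), 6), ((0,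
    4), (4, 8), 3), ((3, 4), (8, 0), 1), ((3, 4), (8, 4), 0), ((3, 4), (8, 9), 7), ((4, 0),
    (7, 6), 6), ((4, 0), (7, 9), 7), ((4, 3), (7, 6), 6), ((4, 3), (7, 9), 7)]
  G := [[0, 0x149441b4d26b22d4123ae1c2, 0xd7a17bc16f14e1b7c16681356988117c98ac8,
    0xf5a141189729f4385a1c8, 0x6128521f961b8143c91c1e1a8], [0, 0, 0,
    0x818844f5a143561d7a13fc1ec18fe17a1e1a8cc, 0xf3c12f8123c2abd61f14e1c18374c5fa1caa4], [0,
    0, 0, 0xf852c4189674cb874ca1c1, 0xf852cf8216c6118af4c81a4]]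

noncomputable def n1594 : Ent := ⟨e1594, noF, [], [], [(7, 16, [1580044410770988437309982408355971841652082177953823432505695633409, 0])]⟩

def c1594 : PLift (Cov.check n1594.C.D v1594 = true) := ⟨by decide +kernel⟩

def b1594 : PLift (entF (fidx ts) 400 1594 n1594 = true) := ⟨by decide +kernel⟩

theorem g1594 : GoodF (fidx ts) 400 1594 := GoodF.ofV v1594 n1594 c1594.down b1594.down

/-- 4847545:1323 -/
noncomputable def e1595 : SCfg where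
  D := {
    a := 7
    L := 11
    kp := 8
    inn := [(0, 1), (0, 4), (1, 0), (1, 2), (1, 3), (1, 4), (2, 1), (3, 1), (3, 5), (3, 6), (4, 0), (4,
      1), (5, 3), (5, 6), (6, 3), (6, 5)]
    mix := [(0, 0), (0, 1), (1, 1), (1, 2), (1, 3), (1, 4), (2, 2), (2, 3), (2, 5), (3, 3), (3, 4), (3,
      6), (3, 7), (4, 0), (4, 4), (4, 8), (5, 4), (5, 9), (6, 7), (6, 9), (6, 10)]
    cl := [1, 0, 2, 0, 0, 5, 6, 3, 7, 4, 8]
    chq := [(0, 3), (3, 0), (3, 4), (4, 3)]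
    rng := [(0, 1), (0, 8), (1, 0), (1, 2), (2, 1), (2, 5), (3, 5), (3, 6), (4, 8), (4, 9), (5, 2), (5,
      3), (6, 3), (6, 7), (7, 6), (7, 10), (8, 0), (8, 4), (9, 4), (9, 10), (10, 7), (10, 9)]
    lev := [] }
  links := [[1, 4, 7, 8], [4, 0, 8, 9, 2, 10, 3, 11], [10, 1, 9, 12], [11, 1, 10, 13, 14, 6, 5], [7, 0,
    1, 11, 15], [11, 3, 6, 16], [16, 5, 3, 14, 17]]
  P := {
    a := 7
    N := 18
    nb := [402, 3869, 5634, 27746, 34947, 67656, 213032, 33041, 643, 4358, 12302, 98362, 1540, 17416,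
      139336, 2192, 133216, 81984]
    tri := [(0, 1, 4), (0, 1, 8), (0, 4, 7), (0, 7, 8), (1, 2, 9), (1, 2, 10), (1, 3, 10), (1, 3, 11),
      (1, 4, 11), (1, 8, 9), (2, 9, 12), (2, 10, 12), (3, 5, 6), (3, 5, 11), (3, 6, 14), (3, 10,
      13), (3, 13, 14), (4, 7, 15), (4, 11, 15), (5, 6, 16), (5, 11, 16), (6, 14, 17), (6, 16,
      17)]
    fin := [0, 1, 1, 1, 0, 1, 6, 0, 1, 9, 1, 1, 12, 13, 6, 15, 16, 17]
    chd := [(1, 6), (6, 16)]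
    steps := [(0, 4), (0, 7), (1, 2), (1, 3), (1, 5), (1, 8), (1, 10), (1, 11), (6, 14)] }
  rep := [1, 0, 9, 6, 16, 12, 13, 15, 17]

noncomputable def v1595 : Cov.CovD where
  P := 3
  N := 6
  pl := [0, 2, 5, 6, 8, 10]
  lev := [⟨[], [], [], [1], [(1, 0, [3])]⟩,
    ⟨[], [(0, 0)], [(0, 0)], [2], [(1, 0, [3]), (3, 0, [3]), (4, 0, [3])]⟩,
    ⟨[(0, 1)], [(1, 0)], [], [2, 5], [(3, 0, [3])]⟩,
    ⟨[(0, 1), (1, 2)], [(1, 0), (1, 3), (2, 0)], [(0, 0), (0, 3)], [6], [(3, 0, [3]), (4,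
      0, [3]), (7, 3, [0, 4])]⟩,
    ⟨[(0, 1), (1, 2), (1, 3)], [(0, 0), (1, 0), (3, 0)], [], [1, 7], [(4, 0, [3])]⟩,
    ⟨[(1, 3)], [(1, 0), (3, 0), (3, 3), (3, 4), (4, 0)], [(0, 4)], [], [(4, 0, [3]), (9, 4,
      [3])]⟩,
    ⟨[(1, 3), (3, 5)], [(3, 0), (3, 3), (3, 4), (5, 0), (5, 3), (5, 4)], [(3, 4)], [8],
      [(7, 3, [0, 4]), (9, 4, [3])]⟩]
  Ta := [((1, 0), 0, 1), ((1, 2), 0, 2), ((3, 5), 0, 5), ((3, 6), 0, 6), ((4, 8), 0, 7), ((4, 9),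
    0, 4)]
  Tb := [((0, 1, 8), 1, 0, 7), ((1, 0, 2), 0, 1, 2), ((2, 1, 5), 2, 0, 5), ((3, 5, 6), 0, 5, 6),
    ((4, 8, 9), 0, 7, 4), ((5, 2, 3), 5, 2, 0), ((6, 3, 7), 6, 0, 3), ((7, 6, 10), 3, 6, 8),
    ((8, 0, 4), 7, 1, 0), ((9, 4, 10), 4, 0, 8), ((10, 7, 9), 8, 3, 4)]
  Tc := [(3, 0, 4)]
  Td := [((0, 3), (1, 0), 1), ((0, 3), (1, 2), 2), ((0, 3), (3, 5), 5), ((0, 3), (3, 6), 6), ((0,
    3), (4, 8), 7), ((0, 3), (4, 9), 4), ((3, 0), (7, 6), 6), ((3, 0), (7, 10), 8), ((3, 4),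
    (7, 6), 6), ((3, 4), (7, 10), 8), ((4, 3), (9, 4), 0), ((4, 3), (9, 10), 8)]
  G := [[0, 0xb4314b49e41178bf96a592dd127aa1c4, 0x41fe14d7a1469f61f3c1abd613fc1aac4,
    0x7da141bd61b7c1a1c4, 0x7da1b7c1611f8e181a8], [0, 0, 0,
    0xbd61b81f3c1edb61f3c1ac445a145fa14c8c, 0x23c127bc12abd615fa1d81ef9615fa1caa4], [0, 0, 0,
    0x64af5ac41db6f96c91a82f1eb7cce1c1, 0x5faf5acf3c2f1ec61db6db6c81a4]]

noncomputable def n1595 : Ent := ⟨e1595, noF, [], [], [(7, 17, [6903326391201334775872065844685381424292761054348340378595029936214017, 0]), (16, 15, [7334790850167413569773436004105379185503274260204390087403942011183105, 0])]⟩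

def c1595 : PLift (Cov.check n1595.C.D v1595 = true) := ⟨by decide +kernel⟩

def b1595 : PLift (entF (fidx ts) 400 1595 n1595 = true) := ⟨by decide +kernel⟩

theorem g1595 : GoodF (fidx ts) 400 1595 := GoodF.ofV v1595 n1595 c1595.down b1595.down

/-- 4576844:1326/1 -/
noncomputable def e1596 : SCfg where
  D := {
    a := 7
    L := 10
    kp := 7
    inn := [(0, 1), (0, 2), (1, 0), (1, 2), (1, 4), (2, 0), (2, 1), (2, 3), (2, 4), (3, 2), (3, 4), (3,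
      5), (4, 1), (4, 2), (4, 3), (4, 6), (5, 3), (6, 4)]
    mix := [(0, 0), (0, 1), (1, 1), (1, 2), (2, 0), (2, 3), (2, 4), (3, 3), (3, 5), (3, 6), (4, 2), (4,
      5), (4, 7), (4, 8), (5, 3), (5, 6), (5, 9), (6, 2), (6, 7), (6, 9)]
    cl := [3, 2, 1, 0, 7, 0, 4, 5, 1, 6]
    chq := [(0, 3), (1, 3), (3, 0), (3, 1)]
    rng := [(0, 1), (0, 4), (1, 0), (1, 2), (2, 1), (2, 9), (3, 4), (3, 9), (4, 0), (4, 3), (5, 6), (5,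
      8), (6, 5), (6, 9), (7, 8), (7, 9), (8, 5), (8, 7), (9, 2), (9, 3), (9, 6), (9, 7)]
    lev := [] }
  links := [[1, 2, 7, 8], [2, 0, 8, 9, 4], [7, 0, 1, 4, 3, 10, 11], [10, 2, 4, 12, 13, 5], [12, 3, 2, 1,
    9, 6, 14, 15], [10, 3, 13, 16], [14, 4, 9, 16]]
  P := {
    a := 7
    N := 17
    nb := [390, 789, 3227, 13364, 53838, 74760, 82448, 2309, 643, 65874, 67628, 1156, 40984, 69672,
      98384, 20496, 26208]
    tri := [(0, 1, 2), (0, 1, 8), (0, 2, 7), (0, 7, 8), (1, 2, 4), (1, 4, 9), (1, 8, 9), (2, 3, 4), (2,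
      3, 10), (2, 7, 11), (2, 10, 11), (3, 4, 12), (3, 5, 10), (3, 5, 13), (3, 12, 13), (4, 6, 9),
      (4, 6, 14), (4, 12, 15), (4, 14, 15), (5, 10, 16), (5, 13, 16), (6, 9, 16), (6, 14, 16)]
    fin := [0, 0, 0, 3, 4, 5, 4, 0, 8, 4, 3, 11, 3, 13, 14, 4, 5]
    chd := [(0, 3), (0, 4)]
    steps := [(0, 1), (0, 2), (0, 7), (3, 12), (3, 10), (4, 6), (4, 9), (4, 15), (5, 16)] }
  rep := [3, 4, 8, 0, 13, 14, 5, 11]

noncomputable def v1596 : Cov.CovD where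
  P := 3
  N := 5
  pl := [1, 4, 6, 7, 9]
  lev := [⟨[], [], [], [2], [(0, 3, [0, 1])]⟩,
    ⟨[], [(0, 1), (0, 3)], [], [2], [(2, 1, [3])]⟩,
    ⟨[(0, 1)], [(0, 0), (0, 3), (1, 0), (1, 1), (1, 3)], [(0, 3)], [7], [(0, 3, [0, 1]),
      (3, 0, [3])]⟩,
    ⟨[(0, 2), (1, 2)], [(2, 0), (2, 3)], [(0, 0)], [4], [(3, 0, [3]), (5, 0, [3])]⟩,
    ⟨[(0, 1), (0, 2), (1, 2), (1, 3), (2, 3)], [(1, 0), (1, 1), (2, 0), (2, 1), (2, 3), (3,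
      0), (3, 1)], [(0, 1), (1, 1)], [5], [(2, 1, [3]), (5, 0, [3]), (8, 1, [3])]⟩,
    ⟨[(2, 3), (3, 4)], [(2, 0), (3, 0)], [], [4, 6], [(3, 0, [3])]⟩,
    ⟨[(1, 4), (2, 4), (3, 4)], [(1, 1), (4, 0), (4, 1)], [], [5, 6], [(2, 1, [3])]⟩]
  Ta := [((2, 1), 1, 2), ((2, 9), 1, 6), ((3, 4), 0, 7), ((3, 9), 0, 6), ((5, 6), 0, 4), ((5, 8),
    0, 1), ((8, 5), 1, 0), ((8, 7), 1, 5)]
  Tb := [((0, 1, 4), 3, 2, 7), ((1, 0, 2), 2, 3, 1), ((2, 1, 9), 1, 2, 6), ((3, 4, 9), 0, 7, 6),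
    ((4, 0, 3), 7, 3, 0), ((5, 6, 8), 0, 4, 1), ((6, 5, 9), 4, 0, 6), ((7, 8, 9), 5, 1, 6),
    ((8, 5, 7), 1, 0, 5), ((9, 2, 3), 6, 1, 0), ((9, 2, 6), 6, 1, 4), ((9, 2, 7), 6, 1, 5),
    ((9, 3, 6), 6, 0, 4), ((9, 3, 7), 6, 0, 5), ((9, 6, 7), 6, 4, 5)]
  Tc := [(3, 0, 1)]
  Td := [((0, 3), (3, 4), 7), ((0, 3), (3, 9), 6), ((0, 3), (5, 6), 4), ((0, 3), (5, 8), 1), ((1,
    3), (2, 1), 2), ((1, 3), (2, 9), 6), ((1, 3), (8, 5), 0), ((1, 3), (8, 7), 5), ((3, 0),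
    (0, 1), 2), ((3, 0), (0, 4), 7), ((3, 1), (0, 1), 2), ((3, 1), (0, 4), 7)]
  G := [[0, 0, 0x9884c54da4691c4124a1244e54811a829654c898d6449a529884ad586449cec2,
    0x9844984124a1244e5484c95292c2d65484c9d2429a5298844ed586429cec1,
    0x15c98c124dac65491cc8d6116ca1288e1c418816c81421a94a8855492486dce83], [0, 0,
    0x2882c572225622c86c532629a62a22e5243e229ce44848c2, 0,
    0x22c132a25622c86c56232ca82a625436222e9ce4488c4892], [0, 0, 0x94c411c815a496ce182,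
    0x518d28a41914d246914124ad145292cce51812861188ac5,
    0xd145191cc984115e496ca35191c11865191c8c92], [0, 0x1124112118114ea114118a1111a1111aacc1,
    0x14c421c81222ce182, 0, 0x1222c211121c42231c118224e2211c218ce92]]

noncomputable def n1596 : Ent := ⟨e1596, noF, [], [], []⟩

def c1596 : PLift (Cov.check n1596.C.D v1596 = true) := ⟨by decide +kernel⟩

def b1596 : PLift (entF (fidx ts) 400 1596 n1596 = true) := ⟨by decide +kernel⟩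

theorem g1596 : GoodF (fidx ts) 400 1596 := GoodF.ofV v1596 n1596 c1596.down b1596.down

/-- 4576844:1326 -/
noncomputable def e1597 : SCfg where
  D := {
    a := 7
    L := 11
    kp := 8
    inn := [(0, 1), (0, 2), (1, 0), (1, 2), (1, 4), (2, 0), (2, 1), (2, 3), (2, 4), (3, 2), (3, 4), (3,
      5), (4, 1), (4, 2), (4, 3), (4, 6), (5, 3), (6, 4)]
    mix := [(0, 0), (0, 1), (1, 1), (1, 2), (2, 0), (2, 3), (2, 4), (3, 3), (3, 5), (3, 6), (4, 2), (4,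
      5), (4, 7), (4, 8), (5, 3), (5, 6), (5, 9), (6, 2), (6, 7), (6, 10)]
    cl := [3, 2, 1, 0, 6, 0, 4, 5, 1, 7, 8]
    chq := [(1, 3), (1, 6), (3, 1), (6, 1)]
    rng := [(0, 1), (0, 4), (1, 0), (1, 2), (2, 1), (2, 10), (3, 4), (3, 9), (4, 0), (4, 3), (5, 6),
      (5, 8), (6, 5), (6, 9), (7, 8), (7, 10), (8, 5), (8, 7), (9, 3), (9, 6), (10, 2), (10, 7)]
    lev := [] }
  links := [[1, 2, 7, 8], [2, 0, 8, 9, 4], [7, 0, 1, 4, 3, 10, 11], [10, 2, 4, 12, 13, 5], [12, 3, 2, 1,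
    9, 6, 14, 15], [10, 3, 13, 16], [14, 4, 9, 17]]
  P := {
    a := 7
    N := 18
    nb := [390, 789, 3227, 13364, 53838, 74760, 147984, 2309, 643, 131410, 67628, 1156, 40984, 69672,
      163920, 20496, 9248, 16960]
    tri := [(0, 1, 2), (0, 1, 8), (0, 2, 7), (0, 7, 8), (1, 2, 4), (1, 4, 9), (1, 8, 9), (2, 3, 4), (2,
      3, 10), (2, 7, 11), (2, 10, 11), (3, 4, 12), (3, 5, 10), (3, 5, 13), (3, 12, 13), (4, 6, 9),
      (4, 6, 14), (4, 12, 15), (4, 14, 15), (5, 10, 16), (5, 13, 16), (6, 9, 17), (6, 14, 17)]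
    fin := [0, 0, 2, 3, 2, 3, 2, 0, 8, 2, 3, 11, 3, 13, 14, 2, 16, 17]
    chd := [(0, 2), (2, 11)]
    steps := [(0, 1), (0, 7), (2, 4), (2, 6), (2, 9), (2, 15), (3, 5), (3, 12), (3, 10)] }
  rep := [3, 2, 8, 0, 13, 14, 11, 16, 17]

noncomputable def v1597 : Cov.CovD where
  P := 3
  N := 6
  pl := [1, 6, 7, 9, 10]
  lev := [⟨[], [], [], [2], [(0, 3, [1])]⟩,
    ⟨[], [(0, 1), (0, 3)], [], [2], [(2, 1, [3, 6])]⟩,
    ⟨[(0, 1)], [(0, 0), (0, 3), (0, 6), (1, 0), (1, 1), (1, 3), (1, 6)], [(0, 3), (0, 6),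
      (3, 6)], [], [(0, 3, [1]), (3, 0, []), (4, 6, [1])]⟩,
    ⟨[(0, 2), (1, 2)], [(2, 0), (2, 3), (2, 6)], [(0, 0)], [4], [(3, 0, []), (5, 0, [])]⟩,
    ⟨[(0, 1), (0, 2), (1, 2), (1, 3), (2, 3)], [(1, 0), (1, 1), (2, 0), (2, 1), (2, 3), (2,
      6), (3, 0), (3, 1)], [(0, 1), (1, 1)], [5], [(2, 1, [3, 6]), (5, 0, []), (8, 1, [3,
      6])]⟩,
    ⟨[(2, 3), (3, 4)], [(2, 0), (3, 0)], [], [4, 7], [(3, 0, [])]⟩,
    ⟨[(1, 4), (2, 4), (3, 4)], [(1, 1), (4, 0), (4, 1)], [], [5, 8], [(2, 1, [3, 6])]⟩]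
  Ta := [((2, 1), 1, 2), ((2, 10), 1, 8), ((3, 4), 0, 6), ((3, 9), 0, 7), ((5, 6), 0, 4), ((5,
    8), 0, 1), ((8, 5), 1, 0), ((8, 7), 1, 5)]
  Tb := [((0, 1, 4), 3, 2, 6), ((1, 0, 2), 2, 3, 1), ((2, 1, 10), 1, 2, 8), ((3, 4, 9), 0, 6, 7),
    ((4, 0, 3), 6, 3, 0), ((5, 6, 8), 0, 4, 1), ((6, 5, 9), 4, 0, 7), ((7, 8, 10), 5, 1, 8),
    ((8, 5, 7), 1, 0, 5), ((9, 3, 6), 7, 0, 4), ((10, 2, 7), 8, 1, 5)]
  Tc := [(1, 3, 6)]
  Td := [((1, 3), (2, 1), 2), ((1, 3), (2, 10), 8), ((1, 3), (8, 5), 0), ((1, 3), (8, 7), 5),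
    ((1, 6), (2, 1), 2), ((1, 6), (2, 10), 8), ((1, 6), (8, 5), 0), ((1, 6), (8, 7), 5), ((3,
    1), (0, 1), 2), ((3, 1), (0, 4), 6), ((6, 1), (4, 0), 3), ((6, 1), (4, 3), 0)]
  G := [[0, 0, 0xd1deaaa5124c2162e24691814c62cd1dea8a516c12246d1814ce28228241289d6449c2ce,
    0x88a1421c212d5dec19de12c1854ce29821421c21255dec99de12c9854ce299,
    0xd3deaaa5126465c21814c2292224c21281dde8c61d1dea8a52432466d1814ce28b], [0, 0,
    0x2bae2a5ac66269c243caa2a5276e269c28c, 0, 0x281641c222c5aca9622cc292cae2a52432e66dc289],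
    [0, 0, 0x545e4314414e2998d891862c514118c5564238218888c899a8654e,
    0x555499c891559ce2155c4514a299c891862cc,
    0x31545ec998731c8141ce2121555dc992d31c9141ce219], [0,
    0x11116111166114118112e112118114ee81, 0x61329c9a68c2481421233cc2822a655ec218e, 0,
    0x21638bc9a631cc21e5c422c826a536ce18a]]

noncomputable def n1597 : Ent := ⟨e1597, noF, [], [], [(17, 16, [7334685537875745012586738086077695515070955365108989538292687700213761, 0])]⟩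

def c1597 : PLift (Cov.check n1597.C.D v1597 = true) := ⟨by decide +kernel⟩

def b1597 : PLift (entF (fidx ts) 400 1597 n1597 = true) := ⟨by decide +kernel⟩

theorem g1597 : GoodF (fidx ts) 400 1597 := GoodF.ofV v1597 n1597 c1597.down b1597.down

/-- 4576844:1327/1 -/
noncomputable def e1598 : SCfg where
  D := {
    a := 7
    L := 10
    kp := 7
    inn := [(0, 1), (0, 2), (1, 0), (1, 2), (1, 4), (2, 0), (2, 1), (2, 3), (2, 4), (3, 2), (3, 4), (3,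
      5), (4, 1), (4, 2), (4, 3), (4, 6), (5, 3), (6, 4)]
    mix := [(0, 0), (0, 1), (1, 1), (1, 2), (2, 0), (2, 3), (2, 4), (3, 3), (3, 5), (3, 6), (4, 2), (4,
      5), (4, 7), (4, 8), (5, 3), (5, 6), (5, 9), (6, 7), (6, 8), (6, 9)]
    cl := [3, 2, 1, 0, 7, 0, 4, 5, 1, 6]
    chq := [(0, 3), (1, 3), (3, 0), (3, 1)]
    rng := [(0, 1), (0, 4), (1, 0), (1, 2), (2, 1), (2, 7), (3, 4), (3, 9), (4, 0), (4, 3), (5, 6), (5,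
      8), (6, 5), (6, 9), (7, 2), (7, 9), (8, 5), (8, 9), (9, 3), (9, 6), (9, 7), (9, 8)]
    lev := [] }
  links := [[1, 2, 7, 8], [2, 0, 8, 9, 4], [7, 0, 1, 4, 3, 10, 11], [10, 2, 4, 12, 13, 5], [12, 3, 2, 1,
    9, 14, 6, 15], [10, 3, 13, 16], [15, 4, 14, 16]]
  P := {
    a := 7
    N := 17
    nb := [390, 789, 3227, 13364, 53838, 74760, 114704, 2309, 643, 16658, 67628, 1156, 40984, 69672,
      66128, 69712, 58464]
    tri := [(0, 1, 2), (0, 1, 8), (0, 2, 7), (0, 7, 8), (1, 2, 4), (1, 4, 9), (1, 8, 9), (2, 3, 4), (2,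
      3, 10), (2, 7, 11), (2, 10, 11), (3, 4, 12), (3, 5, 10), (3, 5, 13), (3, 12, 13), (4, 6,
      14), (4, 6, 15), (4, 9, 14), (4, 12, 15), (5, 10, 16), (5, 13, 16), (6, 14, 16), (6, 15,
      16)]
    fin := [0, 0, 0, 3, 4, 5, 4, 0, 8, 4, 3, 11, 3, 13, 14, 4, 5]
    chd := [(0, 3), (0, 4)]
    steps := [(0, 1), (0, 2), (0, 7), (3, 12), (3, 10), (4, 6), (4, 9), (4, 15), (5, 16)] }
  rep := [3, 4, 8, 0, 13, 14, 5, 11]

noncomputable def v1598 : Cov.CovD where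
  P := 3
  N := 5
  pl := [1, 4, 6, 7, 9]
  lev := [⟨[], [], [], [2], [(0, 3, [0, 1])]⟩,
    ⟨[], [(0, 1), (0, 3)], [], [2], [(2, 1, [3])]⟩,
    ⟨[(0, 1)], [(0, 0), (0, 3), (1, 0), (1, 1), (1, 3)], [(0, 3)], [7], [(0, 3, [0, 1]),
      (3, 0, [3])]⟩,
    ⟨[(0, 2), (1, 2)], [(2, 0), (2, 3)], [(0, 0)], [4], [(3, 0, [3]), (5, 0, [3])]⟩,
    ⟨[(0, 1), (0, 2), (1, 2), (1, 3), (2, 3)], [(1, 0), (1, 1), (2, 0), (2, 1), (2, 3), (3,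
      0), (3, 1)], [(0, 1), (1, 1)], [5], [(2, 1, [3]), (5, 0, [3]), (8, 1, [3])]⟩,
    ⟨[(2, 3), (3, 4)], [(2, 0), (3, 0)], [], [4, 6], [(3, 0, [3])]⟩,
    ⟨[(1, 4), (2, 4), (3, 4)], [(4, 0), (4, 1)], [], [5, 6], [(8, 1, [3])]⟩]
  Ta := [((2, 1), 1, 2), ((2, 7), 1, 5), ((3, 4), 0, 7), ((3, 9), 0, 6), ((5, 6), 0, 4), ((5, 8),
    0, 1), ((8, 5), 1, 0), ((8, 9), 1, 6)]
  Tb := [((0, 1, 4), 3, 2, 7), ((1, 0, 2), 2, 3, 1), ((2, 1, 7), 1, 2, 5), ((3, 4, 9), 0, 7, 6),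
    ((4, 0, 3), 7, 3, 0), ((5, 6, 8), 0, 4, 1), ((6, 5, 9), 4, 0, 6), ((7, 2, 9), 5, 1, 6),
    ((8, 5, 9), 1, 0, 6), ((9, 3, 6), 6, 0, 4), ((9, 3, 7), 6, 0, 5), ((9, 3, 8), 6, 0, 1),
    ((9, 6, 7), 6, 4, 5), ((9, 6, 8), 6, 4, 1), ((9, 7, 8), 6, 5, 1)]
  Tc := [(3, 0, 1)]
  Td := [((0, 3), (3, 4), 7), ((0, 3), (3, 9), 6), ((0, 3), (5, 6), 4), ((0, 3), (5, 8), 1), ((1,
    3), (2, 1), 2), ((1, 3), (2, 7), 5), ((1, 3), (8, 5), 0), ((1, 3), (8, 9), 6), ((3, 0),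
    (0, 1), 2), ((3, 0), (0, 4), 7), ((3, 1), (0, 1), 2), ((3, 1), (0, 4), 7)]
  G := [[0, 0, 0x8822c5c2225682c26c56232ca844e22a5226865ce44848c2,
    0x24c22c92222c64422c922229a82a22a52264269ce8848451,
    0x8822c572225682c26c56232ca84a2254482222edce4484891], [0, 0,
    0x988cc5484698c4c545692c4da94a885124ce548529288d65488128586449cec2, 0,
    0x988cc54da4694a885541244dca548128896549884cd8d611642dac128828c2b1], [0, 0,
    0x12c421c82212ce182, 0x2142182222ce21421312c118e61142182222ce8c1,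
    0x2112314218c11441222c2f2111c43188a92], [0,
    0xc142a8441e1ac4148e81e1641826ace141a2214e144a82921ceec1, 0x11c485c88da116ce142, 0,
    0x11a496c21d14518c5191c8111ca1141cd111cce92]]

noncomputable def n1598 : Ent := ⟨e1598, noF, [], [], []⟩

def c1598 : PLift (Cov.check n1598.C.D v1598 = true) := ⟨by decide +kernel⟩

def b1598 : PLift (entF (fidx ts) 400 1598 n1598 = true) := ⟨by decide +kernel⟩

theorem g1598 : GoodF (fidx ts) 400 1598 := GoodF.ofV v1598 n1598 c1598.down b1598.down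

/-- 4576844:1327 -/
noncomputable def e1599 : SCfg where
  D := {
    a := 7
    L := 11
    kp := 8
    inn := [(0, 1), (0, 2), (1, 0), (1, 2), (1, 4), (2, 0), (2, 1), (2, 3), (2, 4), (3, 2), (3, 4), (3,
      5), (4, 1), (4, 2), (4, 3), (4, 6), (5, 3), (6, 4)]
    mix := [(0, 0), (0, 1), (1, 1), (1, 2), (2, 0), (2, 3), (2, 4), (3, 3), (3, 5), (3, 6), (4, 2), (4,
      5), (4, 7), (4, 8), (5, 3), (5, 6), (5, 9), (6, 7), (6, 8), (6, 10)]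
    cl := [3, 2, 1, 0, 6, 0, 4, 5, 1, 7, 8]
    chq := [(0, 3), (1, 3), (3, 0), (3, 1)]
    rng := [(0, 1), (0, 4), (1, 0), (1, 2), (2, 1), (2, 7), (3, 4), (3, 9), (4, 0), (4, 3), (5, 6), (5,
      8), (6, 5), (6, 9), (7, 2), (7, 10), (8, 5), (8, 10), (9, 3), (9, 6), (10, 7), (10, 8)]
    lev := [] }
  links := [[1, 2, 7, 8], [2, 0, 8, 9, 4], [7, 0, 1, 4, 3, 10, 11], [10, 2, 4, 12, 13, 5], [12, 3, 2, 1,
    9, 14, 6, 15], [10, 3, 13, 16], [15, 4, 14, 17]]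
  P := {
    a := 7
    N := 18
    nb := [390, 789, 3227, 13364, 53838, 74760, 180240, 2309, 643, 16658, 67628, 1156, 40984, 69672,
      131664, 135248, 9248, 49216]
    tri := [(0, 1, 2), (0, 1, 8), (0, 2, 7), (0, 7, 8), (1, 2, 4), (1, 4, 9), (1, 8, 9), (2, 3, 4), (2,
      3, 10), (2, 7, 11), (2, 10, 11), (3, 4, 12), (3, 5, 10), (3, 5, 13), (3, 12, 13), (4, 6,
      14), (4, 6, 15), (4, 9, 14), (4, 12, 15), (5, 10, 16), (5, 13, 16), (6, 14, 17), (6, 15,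
      17)]
    fin := [0, 0, 0, 3, 4, 3, 4, 0, 8, 4, 3, 11, 3, 13, 14, 4, 16, 17]
    chd := [(0, 3), (0, 4)]
    steps := [(0, 1), (0, 2), (0, 7), (3, 5), (3, 12), (3, 10), (4, 6), (4, 9), (4, 15)] }
  rep := [3, 4, 8, 0, 13, 14, 11, 16, 17]

noncomputable def v1599 : Cov.CovD where
  P := 3
  N := 6
  pl := [1, 4, 6, 7, 9, 10]
  lev := [⟨[], [], [], [2], [(0, 3, [0, 1])]⟩,
    ⟨[], [(0, 1), (0, 3)], [], [2], [(2, 1, [3])]⟩,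
    ⟨[(0, 1)], [(0, 0), (0, 3), (1, 0), (1, 1), (1, 3)], [(0, 3)], [6], [(0, 3, [0, 1]),
      (3, 0, [3])]⟩,
    ⟨[(0, 2), (1, 2)], [(2, 0), (2, 3)], [(0, 0)], [4], [(3, 0, [3]), (5, 0, [3])]⟩,
    ⟨[(0, 1), (0, 2), (1, 2), (1, 3), (2, 3)], [(1, 0), (1, 1), (2, 0), (2, 1), (2, 3), (3,
      0), (3, 1)], [(0, 1), (1, 1)], [5], [(2, 1, [3]), (5, 0, [3]), (8, 1, [3])]⟩,
    ⟨[(2, 3), (3, 4)], [(2, 0), (3, 0)], [], [4, 7], [(3, 0, [3])]⟩,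
    ⟨[(1, 4), (2, 4), (3, 4)], [(4, 0), (4, 1)], [], [5, 8], [(8, 1, [3])]⟩]
  Ta := [((2, 1), 1, 2), ((2, 7), 1, 5), ((3, 4), 0, 6), ((3, 9), 0, 7), ((5, 6), 0, 4), ((5, 8),
    0, 1), ((8, 5), 1, 0), ((8, 10), 1, 8)]
  Tb := [((0, 1, 4), 3, 2, 6), ((1, 0, 2), 2, 3, 1), ((2, 1, 7), 1, 2, 5), ((3, 4, 9), 0, 6, 7),
    ((4, 0, 3), 6, 3, 0), ((5, 6, 8), 0, 4, 1), ((6, 5, 9), 4, 0, 7), ((7, 2, 10), 5, 1, 8),
    ((8, 5, 10), 1, 0, 8), ((9, 3, 6), 7, 0, 4), ((10, 7, 8), 8, 5, 1)]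
  Tc := [(3, 0, 1)]
  Td := [((0, 3), (3, 4), 6), ((0, 3), (3, 9), 7), ((0, 3), (5, 6), 4), ((0, 3), (5, 8), 1), ((1,
    3), (2, 1), 2), ((1, 3), (2, 7), 5), ((1, 3), (8, 5), 0), ((1, 3), (8, 10), 8), ((3, 0),
    (0, 1), 2), ((3, 0), (0, 4), 6), ((3, 1), (0, 1), 2), ((3, 1), (0, 4), 6)]
  G := [[0, 0, 0x2ace6c52b6e265a26aeaa526632e4dc672c2ec9a3a6aa568c2,
    0x22c22c58422c22c922a22a962262269222a22a52262269cec1,
    0xa86ec5cca22a562bce2c572624e2dac7a22a5636a669ce2484891], [0, 0,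
    0x1814c22984d9de88a56861814c22899cccc55881164465ed1de88a5124c694455cccc911a8e5485dde8a1281dde4469cece,
    0, 0x88a1124465c2d4451c98c8cd11addde88ade5419c4ccdd88ddde116446dec12d1dec1dde81814ce2b1],
    [0, 0, 0x56c423c826aaa6ce182, 0x214226226ca421421822a226ce21882222cc2182821ceec1,
    0xa2c4262e435eca16131c4918a131c62151c8e92], [0,
    0xc8a4a681c4646ae222c61c66a2ccc666acca8e14c, 0x55c45564a199c899a861c2, 0,
    0x88c898a861255c411c812556ce1881d8429914418156d14118aad141999a11c6481822bb]]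

noncomputable def n1599 : Ent := ⟨e1599, noF, [], [], [(17, 16, [7334685537875745012586738086077695515070955365108989538292687700221953, 0])]⟩

def c1599 : PLift (Cov.check n1599.C.D v1599 = true) := ⟨by decide +kernel⟩

def b1599 : PLift (entF (fidx ts) 400 1599 n1599 = true) := ⟨by decide +kernel⟩

theorem g1599 : GoodF (fidx ts) 400 1599 := GoodF.ofV v1599 n1599 c1599.down b1599.down

/-- 4576495:1339 -/
noncomputable def e1600 : SCfg where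
  D := {
    a := 7
    L := 11
    kp := 9
    inn := [(0, 1), (0, 2), (1, 0), (1, 2), (1, 5), (2, 0), (2, 1), (2, 3), (2, 5), (3, 2), (3, 4), (3,
      5), (4, 3), (4, 5), (4, 6), (5, 1), (5, 2), (5, 3), (5, 4), (5, 6), (6, 4), (6, 5)]
    mix := [(0, 0), (0, 1), (1, 1), (1, 2), (2, 0), (2, 3), (2, 4), (3, 3), (3, 5), (3, 6), (4, 5), (5,
      2), (5, 7), (5, 8), (5, 9), (6, 5), (6, 9), (6, 10)]
    cl := [3, 2, 0, 4, 5, 1, 6, 7, 8, 0, 9]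
    chq := [(0, 1), (0, 3), (0, 4), (0, 5), (0, 6), (1, 0), (3, 0), (4, 0), (5, 0), (6, 0)]
    rng := [(0, 1), (0, 4), (1, 0), (1, 2), (2, 1), (2, 7), (3, 4), (3, 6), (4, 0), (4, 3), (5, 6), (5,
      10), (6, 3), (6, 5), (7, 2), (7, 8), (8, 7), (8, 9), (9, 8), (9, 10), (10, 5), (10, 9)]
    lev := [] }
  links := [[1, 2, 7, 8], [2, 0, 8, 9, 5], [7, 0, 1, 5, 3, 10, 11], [10, 2, 5, 4, 12, 13], [12, 3, 5, 6],
    [6, 4, 3, 2, 1, 9, 14, 15, 16], [12, 4, 5, 16, 17]]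
  P := {
    a := 7
    N := 18
    nb := [390, 805, 3243, 13364, 4200, 115294, 200752, 2309, 643, 16674, 10252, 1156, 139352, 5128,
      33312, 81952, 163936, 69696]
    tri := [(0, 1, 2), (0, 1, 8), (0, 2, 7), (0, 7, 8), (1, 2, 5), (1, 5, 9), (1, 8, 9), (2, 3, 5), (2,
      3, 10), (2, 7, 11), (2, 10, 11), (3, 4, 5), (3, 4, 12), (3, 10, 13), (3, 12, 13), (4, 5, 6),
      (4, 6, 12), (5, 6, 16), (5, 9, 14), (5, 14, 15), (5, 15, 16), (6, 12, 17), (6, 16, 17)]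
    fin := [0, 0, 2, 2, 2, 2, 2, 0, 8, 2, 10, 11, 12, 13, 14, 15, 2, 17]
    chd := [(0, 2), (2, 10), (2, 11), (2, 12), (2, 13)]
    steps := [(0, 1), (0, 7), (2, 3), (2, 4), (2, 5), (2, 6), (2, 9), (2, 16)] }
  rep := [2, 12, 8, 0, 10, 11, 13, 14, 15, 17]

noncomputable def v1600 : Cov.CovD where
  P := 3
  N := 7
  pl := [1, 7, 8, 10]
  lev := [⟨[], [], [], [2], [(0, 3, [0])]⟩,
    ⟨[], [(0, 0), (0, 3)], [], [2], [(2, 0, [1, 3, 4, 5, 6])]⟩,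
    ⟨[(0, 1)], [(0, 3), (0, 4), (0, 5), (1, 0), (1, 3), (1, 4), (1, 5)], [(3, 4), (3, 5),
      (4, 5)], [], [(0, 3, [0]), (3, 4, [0]), (4, 5, [0])]⟩,
    ⟨[(0, 2), (1, 2)], [(2, 1), (2, 3), (2, 4), (2, 5), (2, 6)], [(1, 4), (1, 6), (4, 6)],
      [], [(3, 4, [0]), (5, 1, [0]), (6, 6, [0])]⟩,
    ⟨[(2, 3)], [(3, 1), (3, 4), (3, 6)], [], [], [(5, 1, [0])]⟩,
    ⟨[(0, 1), (0, 2), (1, 2), (1, 3), (1, 4), (2, 3), (2, 4), (3, 4)], [(1, 0), (2, 0), (2,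
      3), (2, 4), (2, 5), (3, 0), (3, 1), (3, 4), (3, 6), (4, 0), (4, 1)], [(0, 0)], [7, 8],
      [(2, 0, [1, 3, 4, 5, 6]), (9, 0, [1, 3, 4, 5, 6])]⟩,
    ⟨[(1, 5), (2, 5), (3, 4), (3, 5), (4, 5)], [(3, 1), (4, 0), (4, 1), (5, 0), (5, 1)],
      [(0, 1)], [9], [(5, 1, [0]), (9, 0, [1, 3, 4, 5, 6])]⟩]
  Ta := [((2, 1), 0, 2), ((2, 7), 0, 7), ((9, 8), 0, 8), ((9, 10), 0, 9)]
  Tb := [((0, 1, 4), 3, 2, 5), ((1, 0, 2), 2, 3, 0), ((2, 1, 7), 0, 2, 7), ((3, 4, 6), 4, 5, 6),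
    ((4, 0, 3), 5, 3, 4), ((5, 6, 10), 1, 6, 9), ((6, 3, 5), 6, 4, 1), ((7, 2, 8), 7, 0, 8),
    ((8, 7, 9), 8, 7, 0), ((9, 8, 10), 0, 8, 9), ((10, 5, 9), 9, 1, 0)]
  Tc := [(0, 1, 3), (0, 1, 4), (0, 1, 5), (0, 1, 6), (0, 3, 4), (0, 3, 5), (0, 3, 6), (0, 4, 5),
    (0, 4, 6), (0, 5, 6)]
  Td := [((0, 1), (2, 1), 2), ((0, 1), (2, 7), 7), ((0, 1), (9, 8), 8), ((0, 1), (9, 10), 9),
    ((0, 3), (2, 1), 2), ((0, 3), (2, 7), 7), ((0, 3), (9, 8), 8), ((0, 3), (9, 10), 9), ((0,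
    4), (2, 1), 2), ((0, 4), (2, 7), 7), ((0, 4), (9, 8), 8), ((0, 4), (9, 10), 9), ((0, 5),
    (2, 1), 2), ((0, 5), (2, 7), 7), ((0, 5), (9, 8), 8), ((0, 5), (9, 10), 9), ((0, 6), (2,
    1), 2), ((0, 6), (2, 7), 7), ((0, 6), (9, 8), 8), ((0, 6), (9, 10), 9), ((1, 0), (5, 6),
    6), ((1, 0), (5, 10), 9), ((3, 0), (0, 1), 2), ((3, 0), (0, 4), 5), ((4, 0), (3, 4), 5),
    ((4, 0), (3, 6), 6), ((5, 0), (4, 0), 3), ((5, 0), (4, 3), 4), ((6, 0), (6, 3), 4), ((6,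
    0), (6, 5), 1)]
  G := [[0, 0x6ac1416ace2a21cace1e1c1, 0x111e8114111e4118a,
    0x111e811411618c11811618c1111e4111618c471411ac11411ac89cd,
    0x1241111e8111e4592111e41181281211c411411ac111c81111e48fab], [0,
    0xa446aae16ace4e166a481c1, 0,
    0xc4811cca411c448c6c11c8411c11618c111ce41cc611c618cc7141cac118489cd,
    0xcc6c8c112c2811c4c8c11acc6811c618c1cc618c1e184111ce41411acc9ab]]

noncomputable def n1600 : Ent := ⟨e1600, noF, [], [], []⟩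

def c1600 : PLift (Cov.check n1600.C.D v1600 = true) := ⟨by decide +kernel⟩

def b1600 : PLift (entF (fidx ts) 400 1600 n1600 = true) := ⟨by decide +kernel⟩

theorem g1600 : GoodF (fidx ts) 400 1600 := GoodF.ofV v1600 n1600 c1600.down b1600.down

/-- 4576494:1340 -/
noncomputable def e1601 : SCfg where
  D := {
    a := 7
    L := 11
    kp := 9
    inn := [(0, 1), (0, 2), (1, 0), (1, 2), (1, 5), (2, 0), (2, 1), (2, 3), (2, 5), (3, 2), (3, 4), (3,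
      5), (4, 3), (4, 5), (5, 1), (5, 2), (5, 3), (5, 4), (5, 6), (6, 5)]
    mix := [(0, 0), (0, 1), (1, 1), (1, 2), (2, 0), (2, 3), (2, 4), (3, 3), (3, 5), (3, 6), (4, 5), (4,
      7), (5, 2), (5, 7), (5, 8), (5, 9), (6, 2), (6, 8), (6, 10)]
    cl := [1, 2, 0, 3, 6, 5, 7, 0, 4, 8, 9]
    chq := [(0, 1), (0, 3), (0, 4), (0, 6), (0, 7), (1, 0), (3, 0), (4, 0), (6, 0), (7, 0)]
    rng := [(0, 1), (0, 4), (1, 0), (1, 2), (2, 1), (2, 10), (3, 4), (3, 6), (4, 0), (4, 3), (5, 6),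
      (5, 7), (6, 3), (6, 5), (7, 5), (7, 9), (8, 9), (8, 10), (9, 7), (9, 8), (10, 2), (10, 8)]
    lev := [] }
  links := [[1, 2, 7, 8], [2, 0, 8, 9, 5], [7, 0, 1, 5, 3, 10, 11], [10, 2, 5, 4, 12, 13], [12, 3, 5,
    14], [14, 4, 3, 2, 1, 9, 6, 15, 16], [15, 5, 9, 17]]
  P := {
    a := 7
    N := 18
    nb := [390, 805, 3243, 13364, 20520, 115294, 164384, 2309, 643, 131426, 10252, 1156, 24600, 5128,
      69680, 196704, 49184, 33344]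
    tri := [(0, 1, 2), (0, 1, 8), (0, 2, 7), (0, 7, 8), (1, 2, 5), (1, 5, 9), (1, 8, 9), (2, 3, 5), (2,
      3, 10), (2, 7, 11), (2, 10, 11), (3, 4, 5), (3, 4, 12), (3, 10, 13), (3, 12, 13), (4, 5,
      14), (4, 12, 14), (5, 6, 9), (5, 6, 15), (5, 14, 16), (5, 15, 16), (6, 9, 17), (6, 15, 17)]
    fin := [0, 0, 2, 2, 2, 2, 2, 0, 8, 2, 10, 11, 12, 13, 2, 15, 16, 17]
    chd := [(0, 2), (2, 10), (2, 11), (2, 13), (2, 15)]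
    steps := [(0, 1), (0, 7), (2, 3), (2, 4), (2, 5), (2, 6), (2, 9), (2, 14)] }
  rep := [2, 0, 8, 10, 15, 12, 11, 13, 16, 17]

noncomputable def v1601 : Cov.CovD where
  P := 3
  N := 7
  pl := [1, 5, 9, 10]
  lev := [⟨[], [], [], [2], [(0, 1, [0])]⟩,
    ⟨[], [(0, 0), (0, 1)], [], [2], [(2, 0, [1, 3, 4, 6, 7])]⟩,
    ⟨[(0, 1)], [(0, 1), (0, 3), (0, 6), (1, 0), (1, 1), (1, 3), (1, 6)], [(1, 3), (1, 6),
      (3, 6)], [], [(0, 1, [0]), (3, 3, [0]), (4, 6, [0])]⟩,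
    ⟨[(0, 2), (1, 2)], [(2, 1), (2, 3), (2, 6), (2, 7)], [(3, 7)], [5], [(3, 3, [0]), (6,
      7, [0])]⟩,
    ⟨[(2, 3)], [(3, 0), (3, 3), (3, 7)], [], [5], [(7, 0, [1, 3, 4, 6, 7])]⟩,
    ⟨[(0, 1), (0, 2), (1, 2), (1, 3), (1, 4), (2, 3), (2, 4), (3, 4)], [(1, 0), (1, 4), (2,
      0), (2, 1), (2, 3), (2, 4), (2, 6), (3, 0), (3, 3), (3, 4), (3, 7), (4, 0), (4, 4)],
      [(0, 0), (0, 4)], [8], [(2, 0, [1, 3, 4, 6, 7]), (7, 0, [1, 3, 4, 6, 7]), (8, 4, [0])]⟩,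
    ⟨[(1, 5), (2, 5), (3, 5), (4, 5)], [(1, 0), (5, 0), (5, 4)], [(0, 4)], [9], [(2, 0, [1,
      3, 4, 6, 7]), (8, 4, [0])]⟩]
  Ta := [((2, 1), 0, 2), ((2, 10), 0, 9), ((7, 5), 0, 5), ((7, 9), 0, 8)]
  Tb := [((0, 1, 4), 1, 2, 6), ((1, 0, 2), 2, 1, 0), ((2, 1, 10), 0, 2, 9), ((3, 4, 6), 3, 6, 7),
    ((4, 0, 3), 6, 1, 3), ((5, 6, 7), 5, 7, 0), ((6, 3, 5), 7, 3, 5), ((7, 5, 9), 0, 5, 8),
    ((8, 9, 10), 4, 8, 9), ((9, 7, 8), 8, 0, 4), ((10, 2, 8), 9, 0, 4)]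
  Tc := [(0, 1, 3), (0, 1, 4), (0, 1, 6), (0, 1, 7), (0, 3, 4), (0, 3, 6), (0, 3, 7), (0, 4, 6),
    (0, 4, 7), (0, 6, 7)]
  Td := [((0, 1), (2, 1), 2), ((0, 1), (2, 10), 9), ((0, 1), (7, 5), 5), ((0, 1), (7, 9), 8),
    ((0, 3), (2, 1), 2), ((0, 3), (2, 10), 9), ((0, 3), (7, 5), 5), ((0, 3), (7, 9), 8), ((0,
    4), (2, 1), 2), ((0, 4), (2, 10), 9), ((0, 4), (7, 5), 5), ((0, 4), (7, 9), 8), ((0, 6),
    (2, 1), 2), ((0, 6), (2, 10), 9), ((0, 6), (7, 5), 5), ((0, 6), (7, 9), 8), ((0, 7), (2,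
    1), 2), ((0, 7), (2, 10), 9), ((0, 7), (7, 5), 5), ((0, 7), (7, 9), 8), ((1, 0), (0, 1),
    2), ((1, 0), (0, 4), 6), ((3, 0), (3, 4), 6), ((3, 0), (3, 6), 7), ((4, 0), (8, 9), 8),
    ((4, 0), (8, 10), 9), ((6, 0), (4, 0), 1), ((6, 0), (4, 3), 3), ((7, 0), (6, 3), 3), ((7,
    0), (6, 5), 5)]
  G := [[0, 0x11618111ee1411618111ee1111e11a14e1ac1, 0xee6e4a11eeae8611c8,
    0x1481141ee6e4a551412c111a81111e111a4111e1eeae86fdc181461849,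
    0x1168116114123ee6ae6cf1111e81181184181e8e4c6f5a111e41829], [0,
    0x116116c111618111ee112111e11ce1e1818618c1, 0,
    0x1481141214d4511a811161818b184121211ce35652a991eef5c1441811a418cc,
    0x1212c211241111e811161818d11a1414711c252935e93cefda11c41829]]

noncomputable def n1601 : Ent := ⟨e1601, noF, [], [], []⟩

def c1601 : PLift (Cov.check n1601.C.D v1601 = true) := ⟨by decide +kernel⟩

def b1601 : PLift (entF (fidx ts) 400 1601 n1601 = true) := ⟨by decide +kernel⟩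

theorem g1601 : GoodF (fidx ts) 400 1601 := GoodF.ofV v1601 n1601 c1601.down b1601.down

/-- 4576494:1341 -/
noncomputable def e1602 : SCfg where
  D := {
    a := 7
    L := 11
    kp := 9
    inn := [(0, 1), (0, 2), (1, 0), (1, 2), (1, 5), (2, 0), (2, 1), (2, 3), (2, 5), (3, 2), (3, 4), (3,
      5), (4, 3), (4, 5), (5, 1), (5, 2), (5, 3), (5, 4), (5, 6), (6, 5)]
    mix := [(0, 0), (0, 1), (1, 1), (1, 2), (2, 0), (2, 3), (2, 4), (3, 3), (3, 5), (3, 6), (4, 5), (4,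
      7), (5, 2), (5, 7), (5, 8), (5, 9), (6, 8), (6, 9), (6, 10)]
    cl := [1, 2, 0, 3, 9, 4, 7, 0, 5, 6, 8]
    chq := [(0, 1), (0, 8), (1, 0), (1, 3), (1, 4), (1, 7), (3, 1), (4, 1), (7, 1), (8, 0)]
    rng := [(0, 1), (0, 4), (1, 0), (1, 2), (2, 1), (2, 8), (3, 4), (3, 6), (4, 0), (4, 3), (5, 6), (5,
      7), (6, 3), (6, 5), (7, 5), (7, 9), (8, 2), (8, 10), (9, 7), (9, 10), (10, 8), (10, 9)]
    lev := [] }
  links := [[1, 2, 7, 8], [2, 0, 8, 9, 5], [7, 0, 1, 5, 3, 10, 11], [10, 2, 5, 4, 12, 13], [12, 3, 5,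
    14], [14, 4, 3, 2, 1, 9, 15, 6, 16], [16, 5, 15, 17]]
  P := {
    a := 7
    N := 18
    nb := [390, 805, 3243, 13364, 20520, 115294, 229408, 2309, 643, 33058, 10252, 1156, 24600, 5128,
      69680, 131680, 147552, 98368]
    tri := [(0, 1, 2), (0, 1, 8), (0, 2, 7), (0, 7, 8), (1, 2, 5), (1, 5, 9), (1, 8, 9), (2, 3, 5), (2,
      3, 10), (2, 7, 11), (2, 10, 11), (3, 4, 5), (3, 4, 12), (3, 10, 13), (3, 12, 13), (4, 5,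
      14), (4, 12, 14), (5, 6, 15), (5, 6, 16), (5, 9, 15), (5, 14, 16), (6, 15, 17), (6, 16, 17)]
    fin := [0, 0, 0, 0, 0, 5, 5, 0, 8, 5, 10, 11, 12, 13, 5, 15, 16, 17]
    chd := [(0, 5), (0, 10), (0, 12), (0, 13), (5, 17)]
    steps := [(0, 1), (0, 2), (0, 3), (0, 4), (0, 7), (5, 6), (5, 9), (5, 14)] }
  rep := [5, 0, 8, 10, 12, 15, 16, 13, 17, 11]

noncomputable def v1602 : Cov.CovD where
  P := 3
  N := 7
  pl := [1, 4, 8, 9]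
  lev := [⟨[], [], [], [2], [(0, 1, [0, 3, 4, 7])]⟩,
    ⟨[], [(0, 0), (0, 1)], [], [2], [(2, 0, [1, 8])]⟩,
    ⟨[(0, 1)], [(0, 1), (0, 3), (1, 0), (1, 1), (1, 3)], [(1, 3)], [9], [(0, 1, [0, 3, 4,
      7]), (3, 3, [1])]⟩,
    ⟨[(0, 2), (1, 2)], [(2, 1), (2, 3), (2, 4), (2, 7)], [(3, 4), (3, 7), (4, 7)], [], [(3,
      3, [1]), (5, 4, [1]), (6, 7, [1])]⟩,
    ⟨[(2, 3)], [(3, 0), (3, 3), (3, 4), (3, 7)], [(0, 4)], [], [(5, 4, [1]), (7, 0, [1,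
      8])]⟩,
    ⟨[(0, 1), (0, 2), (1, 2), (1, 3), (1, 4), (2, 3), (2, 4), (3, 4)], [(1, 0), (2, 0), (2,
      1), (2, 3), (3, 0), (3, 3), (3, 4), (3, 7), (4, 0), (4, 4)], [(0, 0)], [5, 6], [(2, 0,
      [1, 8]), (7, 0, [1, 8])]⟩,
    ⟨[(1, 5), (2, 5), (3, 5), (4, 5)], [(5, 0), (5, 8)], [], [5, 6], [(10, 8, [0])]⟩]
  Ta := [((2, 1), 0, 2), ((2, 8), 0, 5), ((7, 5), 0, 4), ((7, 9), 0, 6)]
  Tb := [((0, 1, 4), 1, 2, 9), ((1, 0, 2), 2, 1, 0), ((2, 1, 8), 0, 2, 5), ((3, 4, 6), 3, 9, 7),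
    ((4, 0, 3), 9, 1, 3), ((5, 6, 7), 4, 7, 0), ((6, 3, 5), 7, 3, 4), ((7, 5, 9), 0, 4, 6),
    ((8, 2, 10), 5, 0, 8), ((9, 7, 10), 6, 0, 8), ((10, 8, 9), 8, 5, 6)]
  Tc := [(0, 1, 8), (1, 0, 3), (1, 0, 4), (1, 0, 7), (1, 3, 4), (1, 3, 7), (1, 4, 7)]
  Td := [((0, 1), (2, 1), 2), ((0, 1), (2, 8), 5), ((0, 1), (7, 5), 4), ((0, 1), (7, 9), 6), ((0,
    8), (2, 1), 2), ((0, 8), (2, 8), 5), ((0, 8), (7, 5), 4), ((0, 8), (7, 9), 6), ((1, 0),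
    (0, 1), 2), ((1, 0), (0, 4), 9), ((1, 3), (0, 1), 2), ((1, 3), (0, 4), 9), ((1, 4), (0,
    1), 2), ((1, 4), (0, 4), 9), ((1, 7), (0, 1), 2), ((1, 7), (0, 4), 9), ((3, 1), (3, 4),
    9), ((3, 1), (3, 6), 7), ((4, 1), (5, 6), 7), ((4, 1), (5, 7), 0), ((7, 1), (6, 3), 3),
    ((7, 1), (6, 5), 4), ((8, 0), (10, 8), 5), ((8, 0), (10, 9), 6)]
  G := [[0, 0x116116611411a111ee1116111e18e1e1818618c1,
    0x1281211161128f4812114112471812121121111e112126fd12111a1a8cc,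
    0x341247bde12f85232f35e12dc1,
    0x1211211212c718921924352852152152526fc9219243fc1ef3c12121b7c1ada9], [0,
    0x116111ea1411618111ee1188111611a11ce1ec1, 0, 0x92923fce252f862c15234a292923fce2585,
    0x12d2a11382342c29922881f9692c92d2a3d285252abd675a34ed28ff96356c2d924d247bc34c6e7888c212812838f8cedab]]

noncomputable def n1602 : Ent := ⟨e1602, noF, [], [], []⟩

def c1602 : PLift (Cov.check n1602.C.D v1602 = true) := ⟨by decide +kernel⟩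

def b1602 : PLift (entF (fidx ts) 400 1602 n1602 = true) := ⟨by decide +kernel⟩

theorem g1602 : GoodF (fidx ts) 400 1602 := GoodF.ofV v1602 n1602 c1602.down b1602.down

/-- 4576494:1342 -/
noncomputable def e1603 : SCfg where
  D := {
    a := 7
    L := 11
    kp := 9
    inn := [(0, 1), (0, 2), (1, 0), (1, 2), (1, 5), (2, 0), (2, 1), (2, 3), (2, 5), (3, 2), (3, 4), (3,
      5), (4, 3), (4, 5), (5, 1), (5, 2), (5, 3), (5, 4), (5, 6), (6, 5)]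
    mix := [(0, 0), (0, 1), (1, 1), (1, 2), (2, 0), (2, 3), (2, 4), (3, 3), (3, 5), (3, 6), (4, 5), (4,
      7), (5, 2), (5, 7), (5, 8), (5, 9), (6, 7), (6, 9), (6, 10)]
    cl := [3, 1, 0, 4, 6, 2, 7, 0, 8, 5, 9]
    chq := [(0, 3), (0, 4), (0, 6), (0, 7), (3, 0), (4, 0), (6, 0), (7, 0), (8, 9), (9, 8)]
    rng := [(0, 1), (0, 4), (1, 0), (1, 2), (2, 1), (2, 8), (3, 4), (3, 6), (4, 0), (4, 3), (5, 6), (5,
      7), (6, 3), (6, 5), (7, 5), (7, 10), (8, 2), (8, 9), (9, 8), (9, 10), (10, 7), (10, 9)]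
    lev := [] }
  links := [[1, 2, 7, 8], [2, 0, 8, 9, 5], [7, 0, 1, 5, 3, 10, 11], [10, 2, 5, 4, 12, 13], [12, 3, 5,
    14], [14, 4, 3, 2, 1, 9, 15, 16, 6], [14, 5, 16, 17]]
  P := {
    a := 7
    N := 18
    nb := [390, 805, 3243, 13364, 20520, 115294, 213024, 2309, 643, 33058, 10252, 1156, 24600, 5128,
      135280, 66080, 163936, 81984]
    tri := [(0, 1, 2), (0, 1, 8), (0, 2, 7), (0, 7, 8), (1, 2, 5), (1, 5, 9), (1, 8, 9), (2, 3, 5), (2,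
      3, 10), (2, 7, 11), (2, 10, 11), (3, 4, 5), (3, 4, 12), (3, 10, 13), (3, 12, 13), (4, 5,
      14), (4, 12, 14), (5, 6, 14), (5, 6, 16), (5, 9, 15), (5, 15, 16), (6, 14, 17), (6, 16, 17)]
    fin := [0, 1, 1, 1, 1, 5, 5, 0, 8, 1, 10, 11, 12, 13, 1, 5, 16, 17]
    chd := [(0, 1), (1, 10), (1, 11), (1, 13), (5, 17)]
    steps := [(0, 7), (1, 2), (1, 3), (1, 4), (1, 9), (1, 14), (5, 6), (5, 15)] }
  rep := [1, 8, 12, 0, 10, 16, 11, 13, 5, 17]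

noncomputable def v1603 : Cov.CovD where
  P := 3
  N := 7
  pl := [1, 5, 9]
  lev := [⟨[], [], [], [1], [(0, 3, [0])]⟩,
    ⟨[], [(0, 0), (0, 3)], [], [1], [(2, 0, [3, 4, 6, 7])]⟩,
    ⟨[(0, 1)], [(0, 3), (0, 4), (0, 6), (1, 0), (1, 3), (1, 4), (1, 6)], [(3, 4), (3, 6),
      (4, 6)], [], [(0, 3, [0]), (3, 4, [0]), (4, 6, [0])]⟩,
    ⟨[(0, 2), (1, 2)], [(2, 3), (2, 4), (2, 6), (2, 7)], [(4, 7)], [2], [(3, 4, [0]), (6,
      7, [0])]⟩,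
    ⟨[(2, 3)], [(3, 0), (3, 4), (3, 7)], [], [2], [(7, 0, [3, 4, 6, 7])]⟩,
    ⟨[(0, 1), (0, 2), (1, 2), (1, 3), (1, 4), (2, 3), (2, 4), (3, 4)], [(1, 0), (1, 8), (2,
      0), (2, 3), (2, 4), (2, 6), (2, 8), (3, 0), (3, 4), (3, 7), (3, 8), (4, 0), (4, 8)],
      [(0, 0), (0, 8)], [5], [(2, 0, [3, 4, 6, 7]), (7, 0, [3, 4, 6, 7]), (8, 8, [9])]⟩,
    ⟨[(1, 5), (2, 5), (3, 5), (4, 5)], [(4, 0), (5, 0), (5, 8), (5, 9)], [(0, 9)], [5],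
      [(7, 0, [3, 4, 6, 7]), (10, 9, [8])]⟩]
  Ta := [((2, 1), 0, 1), ((2, 8), 0, 8), ((7, 5), 0, 2), ((7, 10), 0, 9)]
  Tb := [((0, 1, 4), 3, 1, 6), ((1, 0, 2), 1, 3, 0), ((2, 1, 8), 0, 1, 8), ((3, 4, 6), 4, 6, 7),
    ((4, 0, 3), 6, 3, 4), ((5, 6, 7), 2, 7, 0), ((6, 3, 5), 7, 4, 2), ((7, 5, 10), 0, 2, 9),
    ((8, 2, 9), 8, 0, 5), ((9, 8, 10), 5, 8, 9), ((10, 7, 9), 9, 0, 5)]
  Tc := [(0, 3, 4), (0, 3, 6), (0, 3, 7), (0, 4, 6), (0, 4, 7), (0, 6, 7)]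
  Td := [((0, 3), (2, 1), 1), ((0, 3), (2, 8), 8), ((0, 3), (7, 5), 2), ((0, 3), (7, 10), 9),
    ((0, 4), (2, 1), 1), ((0, 4), (2, 8), 8), ((0, 4), (7, 5), 2), ((0, 4), (7, 10), 9), ((0,
    6), (2, 1), 1), ((0, 6), (2, 8), 8), ((0, 6), (7, 5), 2), ((0, 6), (7, 10), 9), ((0, 7),
    (2, 1), 1), ((0, 7), (2, 8), 8), ((0, 7), (7, 5), 2), ((0, 7), (7, 10), 9), ((3, 0), (0,
    1), 1), ((3, 0), (0, 4), 6), ((4, 0), (3, 4), 6), ((4, 0), (3, 6), 7), ((6, 0), (4, 0),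
    3), ((6, 0), (4, 3), 4), ((7, 0), (6, 3), 4), ((7, 0), (6, 5), 2), ((8, 9), (8, 2), 0),
    ((8, 9), (8, 9), 5), ((9, 8), (10, 7), 0), ((9, 8), (10, 9), 5)]
  G := [[0, 0x1a5e4112135e41186, 0,
    0x3ca4143cac514ac61691e4918a568114811484d184139a41691e811848fcd,
    0x5a1e2114a5618a118948145a1e2135a81c213ca1126ac9126acaafcd], [0, 0,
    0xac686ace2ac668ce168281c1,
    0x6ace8114ac668c1181481ac668c114847a1668c169a4191668cdca4cdcd,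
    0xac681168211cac668a1181481461ce216ca21c231ca16a1e29261caafcd]]

noncomputable def n1603 : Ent := ⟨e1603, noF, [], [], []⟩

def c1603 : PLift (Cov.check n1603.C.D v1603 = true) := ⟨by decide +kernel⟩

def b1603 : PLift (entF (fidx ts) 400 1603 n1603 = true) := ⟨by decide +kernel⟩

theorem g1603 : GoodF (fidx ts) 400 1603 := GoodF.ofV v1603 n1603 c1603.down b1603.down

/-- 4674648:1343/1 -/
noncomputable def e1604 : SCfg where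
  D := {
    a := 7
    L := 10
    kp := 7
    inn := [(0, 1), (0, 2), (0, 6), (1, 0), (1, 4), (1, 6), (2, 0), (2, 3), (2, 5), (2, 6), (3, 2), (4,
      1), (4, 6), (5, 2), (5, 6), (6, 0), (6, 1), (6, 2), (6, 4), (6, 5)]
    mix := [(0, 0), (1, 0), (1, 1), (1, 2), (2, 0), (2, 3), (2, 4), (3, 3), (3, 4), (3, 5), (4, 1), (4,
      5), (4, 6), (4, 7), (5, 4), (5, 8), (6, 6), (6, 8), (6, 9)]
    cl := [0, 3, 5, 2, 0, 4, 3, 6, 1, 7]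
    chq := [(1, 3), (1, 5), (3, 1), (5, 1)]
    rng := [(0, 2), (0, 3), (1, 2), (1, 7), (2, 0), (2, 1), (3, 0), (3, 5), (4, 5), (4, 8), (5, 3), (5,
      4), (5, 6), (5, 7), (6, 5), (6, 9), (7, 1), (7, 5), (8, 4), (8, 9), (9, 6), (9, 8)]
    lev := [] }
  links := [[1, 7, 2, 6], [7, 0, 6, 4, 8, 9], [6, 0, 7, 10, 3, 11, 5], [11, 2, 10, 12], [8, 1, 6, 13, 12,
    14], [6, 2, 11, 15], [13, 4, 1, 0, 2, 5, 15, 16]]
  P := {
    a := 7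
    N := 17
    nb := [198, 977, 3305, 7172, 28994, 34884, 106551, 1543, 16914, 386, 4236, 36908, 27672, 69712,
      4368, 67680, 41024]
    tri := [(0, 1, 6), (0, 1, 7), (0, 2, 6), (0, 2, 7), (1, 4, 6), (1, 4, 8), (1, 7, 9), (1, 8, 9), (2,
      3, 10), (2, 3, 11), (2, 5, 6), (2, 5, 11), (2, 7, 10), (3, 10, 12), (3, 11, 12), (4, 6, 13),
      (4, 8, 14), (4, 12, 13), (4, 12, 14), (5, 6, 15), (5, 11, 15), (6, 13, 16), (6, 15, 16)]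
    fin := [0, 1, 0, 0, 4, 0, 1, 0, 4, 9, 10, 0, 12, 4, 14, 1, 16]
    chd := [(4, 1), (9, 1)]
    steps := [(0, 2), (0, 3), (0, 5), (0, 7), (0, 11), (1, 6), (1, 15), (4, 13), (4, 8)] }
  rep := [0, 1, 10, 4, 12, 9, 14, 16]

noncomputable def v1604 : Cov.CovD where
  P := 3
  N := 5
  pl := [3, 5, 7, 9]
  lev := [⟨[], [], [], [], [(0, 0, [])]⟩,
    ⟨[], [(0, 0), (0, 3), (0, 5)], [(0, 3), (0, 5), (3, 5)], [], [(0, 0, []), (1, 3, [1]),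
      (2, 5, [1])]⟩,
    ⟨[(0, 1)], [(0, 0), (1, 0)], [(0, 0)], [2], [(0, 0, []), (4, 0, [])]⟩,
    ⟨[(0, 2)], [(2, 0)], [], [2, 4], [(4, 0, [])]⟩,
    ⟨[(0, 1)], [(1, 0), (1, 3), (1, 5)], [(3, 3)], [4, 6], [(1, 3, [1]), (6, 3, [1])]⟩,
    ⟨[(0, 2), (2, 3)], [(2, 0), (2, 1), (3, 0)], [(0, 1)], [], [(4, 0, []), (8, 1, [3,
      5])]⟩,
    ⟨[(0, 1), (0, 2), (0, 4), (0, 5), (1, 2), (1, 4), (1, 5), (2, 3), (2, 4), (2, 5), (4,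
      5)], [(0, 0), (0, 1), (0, 3), (1, 0), (1, 1), (1, 3), (1, 5), (2, 0), (2, 1), (2, 3),
      (4, 1), (4, 3), (5, 0), (5, 1), (5, 3)], [(1, 3)], [7], [(6, 3, [1]), (8, 1, [3, 5])]⟩]
  Ta := [((0, 2), 0, 5), ((0, 3), 0, 2), ((1, 2), 3, 5), ((1, 7), 3, 6), ((4, 5), 0, 4), ((4, 8),
    0, 1), ((6, 5), 3, 4), ((6, 9), 3, 7)]
  Tb := [((0, 2, 3), 0, 5, 2), ((1, 2, 7), 3, 5, 6), ((2, 0, 1), 5, 0, 3), ((3, 0, 5), 2, 0, 4),
    ((4, 5, 8), 0, 4, 1), ((5, 3, 4), 4, 2, 0), ((5, 3, 6), 4, 2, 3), ((5, 3, 7), 4, 2, 6),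
    ((5, 4, 6), 4, 0, 3), ((5, 4, 7), 4, 0, 6), ((5, 6, 7), 4, 3, 6), ((6, 5, 9), 3, 4, 7),
    ((7, 1, 5), 6, 3, 4), ((8, 4, 9), 1, 0, 7), ((9, 6, 8), 7, 3, 1)]
  Tc := [(1, 3, 5)]
  Td := [((1, 3), (8, 4), 0), ((1, 3), (8, 9), 7), ((1, 5), (8, 4), 0), ((1, 5), (8, 9), 7), ((3,
    1), (1, 2), 5), ((3, 1), (1, 7), 6), ((3, 1), (6, 5), 4), ((3, 1), (6, 9), 7), ((5, 1),
    (2, 0), 0), ((5, 1), (2, 1), 3)]
  G := [[0, 0, 0x41242145222145145145d54145145b68e8, 0x411454141f545454b5824821884214ca,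
    0x4821258212585841c58f12e8], [0, 0, 0x1c5222149849cd4558c543e26818842c,
    0x42219421c414486589458c49cf18188c2c, 0x58cd4d4712258c2121c5882ac], [0,
    0x241281c4281281c4c481484218842148218c42842426c8284a824ccfa, 0,
    0x1462182c84824854848cc448cf448c8448c48cf8c23, 0x14228949494d9818987a284222b4], [0,
    0x6844246e238c2424a68ca43c8288c8462ca54c2c298ce1, 0,
    0x1494a18a2c41858318185c46422482c848cc4847448cc8a8c69,
    0x58c22258c943258c9849cd8aa484c84a225]]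

noncomputable def n1604 : Ent := ⟨e1604, noF, [], [], []⟩

def c1604 : PLift (Cov.check n1604.C.D v1604 = true) := ⟨by decide +kernel⟩

def b1604 : PLift (entF (fidx ts) 400 1604 n1604 = true) := ⟨by decide +kernel⟩

theorem g1604 : GoodF (fidx ts) 400 1604 := GoodF.ofV v1604 n1604 c1604.down b1604.down

/-- 4674648:1343/2 -/
noncomputable def e1605 : SCfg where
  D := {
    a := 7
    L := 10
    kp := 7
    inn := [(0, 1), (0, 2), (0, 6), (1, 0), (1, 4), (1, 6), (2, 0), (2, 3), (2, 5), (2, 6), (3, 2), (4,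
      1), (4, 6), (5, 2), (5, 6), (6, 0), (6, 1), (6, 2), (6, 4), (6, 5)]
    mix := [(0, 0), (1, 0), (1, 1), (1, 2), (2, 0), (2, 3), (2, 4), (3, 3), (3, 4), (3, 5), (4, 1), (4,
      5), (4, 6), (4, 7), (5, 4), (5, 8), (6, 6), (6, 8), (6, 9)]
    cl := [0, 3, 5, 2, 0, 4, 3, 6, 1, 7]
    chq := [(1, 3), (1, 5), (3, 1), (5, 1)]
    rng := [(0, 2), (0, 3), (1, 2), (1, 5), (2, 0), (2, 1), (3, 0), (3, 5), (4, 5), (4, 8), (5, 1), (5,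
      3), (5, 4), (5, 7), (6, 7), (6, 9), (7, 5), (7, 6), (8, 4), (8, 9), (9, 6), (9, 8)]
    lev := [] }
  links := [[1, 7, 2, 6], [7, 0, 6, 4, 8, 9], [6, 0, 7, 10, 3, 11, 5], [11, 2, 10, 12], [8, 1, 6, 13, 14,
    12], [6, 2, 11, 15], [13, 4, 1, 0, 2, 5, 15, 16]]
  P := {
    a := 7
    N := 17
    nb := [198, 977, 3305, 7172, 28994, 34884, 106551, 1543, 4626, 386, 4236, 36908, 19736, 82000,
      12304, 67680, 41024]
    tri := [(0, 1, 6), (0, 1, 7), (0, 2, 6), (0, 2, 7), (1, 4, 6), (1, 4, 8), (1, 7, 9), (1, 8, 9), (2,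
      3, 10), (2, 3, 11), (2, 5, 6), (2, 5, 11), (2, 7, 10), (3, 10, 12), (3, 11, 12), (4, 6, 13),
      (4, 8, 12), (4, 12, 14), (4, 13, 14), (5, 6, 15), (5, 11, 15), (6, 13, 16), (6, 15, 16)]
    fin := [0, 1, 0, 0, 4, 0, 1, 0, 4, 9, 10, 0, 12, 4, 14, 1, 16]
    chd := [(4, 1), (9, 1)]
    steps := [(0, 2), (0, 3), (0, 5), (0, 7), (0, 11), (1, 6), (1, 15), (4, 13), (4, 8)] }
  rep := [0, 1, 10, 4, 12, 9, 14, 16]

noncomputable def v1605 : Cov.CovD where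
  P := 3
  N := 5
  pl := [3, 5, 7, 9]
  lev := [⟨[], [], [], [], [(0, 0, [])]⟩,
    ⟨[], [(0, 0), (0, 3), (0, 5)], [(0, 3), (0, 5), (3, 5)], [], [(0, 0, []), (1, 3, [1]),
      (2, 5, [1])]⟩,
    ⟨[(0, 1)], [(0, 0), (1, 0)], [(0, 0)], [2], [(0, 0, []), (4, 0, [])]⟩,
    ⟨[(0, 2)], [(2, 0)], [], [2, 4], [(4, 0, [])]⟩,
    ⟨[(0, 1)], [(1, 0), (1, 3), (1, 5)], [(3, 3)], [4, 6], [(1, 3, [1]), (6, 3, [1])]⟩,
    ⟨[(0, 2), (2, 3)], [(2, 0), (2, 1), (3, 0)], [(0, 1)], [], [(4, 0, []), (8, 1, [3,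
      5])]⟩,
    ⟨[(0, 1), (0, 2), (0, 4), (0, 5), (1, 2), (1, 4), (1, 5), (2, 3), (2, 4), (2, 5), (4,
      5)], [(0, 0), (0, 1), (0, 3), (1, 0), (1, 1), (1, 3), (1, 5), (2, 0), (2, 1), (2, 3),
      (4, 1), (4, 3), (5, 0), (5, 1), (5, 3)], [(1, 3)], [7], [(6, 3, [1]), (8, 1, [3, 5])]⟩]
  Ta := [((0, 2), 0, 5), ((0, 3), 0, 2), ((1, 2), 3, 5), ((1, 5), 3, 4), ((4, 5), 0, 4), ((4, 8),
    0, 1), ((6, 7), 3, 6), ((6, 9), 3, 7)]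
  Tb := [((0, 2, 3), 0, 5, 2), ((1, 2, 5), 3, 5, 4), ((2, 0, 1), 5, 0, 3), ((3, 0, 5), 2, 0, 4),
    ((4, 5, 8), 0, 4, 1), ((5, 1, 3), 4, 3, 2), ((5, 1, 4), 4, 3, 0), ((5, 1, 7), 4, 3, 6),
    ((5, 3, 4), 4, 2, 0), ((5, 3, 7), 4, 2, 6), ((5, 4, 7), 4, 0, 6), ((6, 7, 9), 3, 6, 7),
    ((7, 5, 6), 6, 4, 3), ((8, 4, 9), 1, 0, 7), ((9, 6, 8), 7, 3, 1)]
  Tc := [(1, 3, 5)]
  Td := [((1, 3), (8, 4), 0), ((1, 3), (8, 9), 7), ((1, 5), (8, 4), 0), ((1, 5), (8, 9), 7), ((3,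
    1), (1, 2), 5), ((3, 1), (1, 5), 4), ((3, 1), (6, 7), 6), ((3, 1), (6, 9), 7), ((5, 1),
    (2, 0), 0), ((5, 1), (2, 1), 3)]
  G := [[0, 0, 0x4822218224122658589145c151452e2e8, 0x1821848483118981c18a989879c64821841288c6,
    0x48222884212949418c94f126c], [0, 0, 0x584422189224122649c145984945d82e2ac,
    0x4144589449c58cf1c248219221c81884ac, 0x49c21258c58cd4712649c8122c], [0,
    0x241281c4848148421421c841821cc4214821821cc4242a68c426c8484a8cfa, 0,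
    0x122142c8141414b1414947c8a4848648428c1848498427, 0x949494d9418947a22142284822856], [0,
    0xa21444244852466238842429c21c8218c28a4a4e48288cbc, 0,
    0x422494218a183cc141849c41cf8464228448cc4c47448c88ca9,
    0x49c22249c448c58c947a2649cd89822c]]

noncomputable def n1605 : Ent := ⟨e1605, noF, [], [], []⟩

def c1605 : PLift (Cov.check n1605.C.D v1605 = true) := ⟨by decide +kernel⟩

def b1605 : PLift (entF (fidx ts) 400 1605 n1605 = true) := ⟨by decide +kernel⟩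

theorem g1605 : GoodF (fidx ts) 400 1605 := GoodF.ofV v1605 n1605 c1605.down b1605.down

/-- 4674648:1343/3 -/
noncomputable def e1606 : SCfg where
  D := {
    a := 7
    L := 10
    kp := 7
    inn := [(0, 1), (0, 2), (0, 6), (1, 0), (1, 4), (1, 6), (2, 0), (2, 3), (2, 5), (2, 6), (3, 2), (4,
      1), (4, 6), (5, 2), (5, 6), (6, 0), (6, 1), (6, 2), (6, 4), (6, 5)]
    mix := [(0, 0), (1, 0), (1, 1), (1, 2), (2, 0), (2, 3), (2, 4), (3, 1), (3, 3), (3, 4), (4, 1), (4,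
      5), (4, 6), (4, 7), (5, 4), (5, 8), (6, 5), (6, 8), (6, 9)]
    cl := [0, 1, 4, 2, 0, 1, 5, 6, 3, 7]
    chq := [(1, 3), (3, 1), (3, 4), (4, 3)]
    rng := [(0, 2), (0, 3), (1, 2), (1, 3), (1, 4), (1, 7), (2, 0), (2, 1), (3, 0), (3, 1), (4, 1), (4,
      8), (5, 6), (5, 9), (6, 5), (6, 7), (7, 1), (7, 6), (8, 4), (8, 9), (9, 5), (9, 8)]
    lev := [] }
  links := [[1, 7, 2, 6], [7, 0, 6, 4, 8, 9], [6, 0, 7, 10, 3, 11, 5], [11, 2, 10, 8], [8, 1, 6, 12, 13,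
    14], [6, 2, 11, 15], [12, 4, 1, 0, 2, 5, 15, 16]]
  P := {
    a := 7
    N := 17
    nb := [198, 977, 3305, 3332, 28994, 34884, 102455, 1543, 19994, 386, 396, 33068, 73808, 20496,
      8464, 67680, 36928]
    tri := [(0, 1, 6), (0, 1, 7), (0, 2, 6), (0, 2, 7), (1, 4, 6), (1, 4, 8), (1, 7, 9), (1, 8, 9), (2,
      3, 10), (2, 3, 11), (2, 5, 6), (2, 5, 11), (2, 7, 10), (3, 8, 10), (3, 8, 11), (4, 6, 12),
      (4, 8, 14), (4, 12, 13), (4, 13, 14), (5, 6, 15), (5, 11, 15), (6, 12, 16), (6, 15, 16)]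
    fin := [0, 1, 0, 0, 4, 0, 1, 0, 4, 9, 10, 0, 4, 13, 14, 1, 16]
    chd := [(4, 1), (9, 1)]
    steps := [(0, 2), (0, 3), (0, 5), (0, 7), (0, 11), (1, 6), (1, 15), (4, 8), (4, 12)] }
  rep := [0, 4, 10, 1, 9, 13, 14, 16]

noncomputable def v1606 : Cov.CovD where
  P := 3
  N := 5
  pl := [3, 6, 7, 9]
  lev := [⟨[], [], [], [], [(0, 0, [])]⟩,
    ⟨[], [(0, 0), (0, 1), (0, 4)], [(0, 1), (0, 4), (1, 4)], [], [(0, 0, []), (1, 1, [3]),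
      (2, 4, [3])]⟩,
    ⟨[(0, 1)], [(0, 0), (1, 0)], [(0, 0)], [2], [(0, 0, []), (4, 0, [])]⟩,
    ⟨[(0, 2)], [(1, 1), (2, 0), (2, 1)], [(0, 1)], [2], [(1, 1, [3]), (4, 0, [])]⟩,
    ⟨[(0, 1)], [(1, 0), (1, 1), (1, 4), (3, 1)], [(1, 1)], [5, 6], [(1, 1, [3]), (5, 1,
      [3])]⟩,
    ⟨[(0, 2), (2, 3)], [(2, 0), (2, 3), (3, 0)], [(0, 3)], [], [(4, 0, []), (8, 3, [1,
      4])]⟩,
    ⟨[(0, 1), (0, 2), (0, 4), (0, 5), (1, 2), (1, 4), (1, 5), (2, 3), (2, 4), (2, 5), (4,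
      5)], [(0, 0), (0, 1), (0, 3), (1, 0), (1, 1), (1, 3), (1, 4), (2, 0), (2, 1), (2, 3),
      (4, 1), (4, 3), (5, 0), (5, 1), (5, 3)], [(1, 3)], [7], [(5, 1, [3]), (8, 3, [1, 4])]⟩]
  Ta := [((0, 2), 0, 4), ((0, 3), 0, 2), ((1, 2), 1, 4), ((1, 3), 1, 2), ((1, 4), 1, 0), ((1, 7),
    1, 6), ((4, 1), 0, 1), ((4, 8), 0, 3), ((5, 6), 1, 5), ((5, 9), 1, 7)]
  Tb := [((0, 2, 3), 0, 4, 2), ((1, 2, 3), 1, 4, 2), ((1, 2, 4), 1, 4, 0), ((1, 2, 7), 1, 4, 6),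
    ((1, 3, 4), 1, 2, 0), ((1, 3, 7), 1, 2, 6), ((1, 4, 7), 1, 0, 6), ((2, 0, 1), 4, 0, 1),
    ((3, 0, 1), 2, 0, 1), ((4, 1, 8), 0, 1, 3), ((5, 6, 9), 1, 5, 7), ((6, 5, 7), 5, 1, 6),
    ((7, 1, 6), 6, 1, 5), ((8, 4, 9), 3, 0, 7), ((9, 5, 8), 7, 1, 3)]
  Tc := [(3, 1, 4)]
  Td := [((1, 3), (1, 2), 4), ((1, 3), (1, 3), 2), ((1, 3), (1, 4), 0), ((1, 3), (1, 7), 6), ((1,
    3), (5, 6), 5), ((1, 3), (5, 9), 7), ((3, 1), (8, 4), 0), ((3, 1), (8, 9), 7), ((3, 4),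
    (8, 4), 0), ((3, 4), (8, 9), 7), ((4, 3), (2, 0), 0), ((4, 3), (2, 1), 1)]
  G := [[0, 0, 0x42821259292d8c452849231a358c8c, 0x282828d144212121d888c,
    0x1451c5145d8212185899881d8ac2], [0, 0, 0x4141c8221292d2d48188c2c, 0,
    0x4248229d6118b1c3d822c], [0, 0x121212e48181818e84a4, 0, 0x241842818422c22cc84d8,
    0x24624c888688c8a118d4582121252d88818ac6], [0, 0, 0, 0, 0x42428112489d68295ad8a2c]]

noncomputable def n1606 : Ent := ⟨e1606, noF, [], [], []⟩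

def c1606 : PLift (Cov.check n1606.C.D v1606 = true) := ⟨by decide +kernel⟩

def b1606 : PLift (entF (fidx ts) 400 1606 n1606 = true) := ⟨by decide +kernel⟩

theorem g1606 : GoodF (fidx ts) 400 1606 := GoodF.ofV v1606 n1606 c1606.down b1606.down

/-- 4674648:1343 -/
noncomputable def e1607 : SCfg where
  D := {
    a := 7
    L := 11
    kp := 9
    inn := [(0, 1), (0, 2), (0, 6), (1, 0), (1, 4), (1, 6), (2, 0), (2, 3), (2, 5), (2, 6), (3, 2), (4,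
      1), (4, 6), (5, 2), (5, 6), (6, 0), (6, 1), (6, 2), (6, 4), (6, 5)]
    mix := [(0, 0), (1, 0), (1, 1), (1, 2), (2, 0), (2, 3), (2, 4), (3, 3), (3, 4), (3, 5), (4, 1), (4,
      6), (4, 7), (4, 8), (5, 4), (5, 9), (6, 6), (6, 9), (6, 10)]
    cl := [0, 3, 7, 2, 1, 5, 3, 8, 9, 4, 6]
    chq := [(0, 1), (0, 3), (0, 4), (0, 5), (0, 6), (1, 0), (3, 0), (4, 0), (5, 0), (6, 0)]
    rng := [(0, 2), (0, 3), (1, 2), (1, 8), (2, 0), (2, 1), (3, 0), (3, 5), (4, 5), (4, 9), (5, 3), (5,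
      4), (6, 7), (6, 10), (7, 6), (7, 8), (8, 1), (8, 7), (9, 4), (9, 10), (10, 6), (10, 9)]
    lev := [] }
  links := [[1, 7, 2, 6], [7, 0, 6, 4, 8, 9], [6, 0, 7, 10, 3, 11, 5], [11, 2, 10, 12], [8, 1, 6, 13, 14,
    15], [6, 2, 11, 16], [13, 4, 1, 0, 2, 5, 16, 17]]
  P := {
    a := 7
    N := 18
    nb := [198, 977, 3305, 7172, 57666, 67652, 204855, 1543, 33298, 386, 4236, 69676, 3080, 147536,
      40976, 16656, 133216, 73792]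
    tri := [(0, 1, 6), (0, 1, 7), (0, 2, 6), (0, 2, 7), (1, 4, 6), (1, 4, 8), (1, 7, 9), (1, 8, 9), (2,
      3, 10), (2, 3, 11), (2, 5, 6), (2, 5, 11), (2, 7, 10), (3, 10, 12), (3, 11, 12), (4, 6, 13),
      (4, 8, 15), (4, 13, 14), (4, 14, 15), (5, 6, 16), (5, 11, 16), (6, 13, 17), (6, 16, 17)]
    fin := [0, 0, 0, 0, 4, 0, 0, 0, 4, 9, 10, 11, 12, 4, 14, 15, 16, 17]
    chd := [(0, 4), (0, 11), (0, 12), (0, 16), (0, 17)]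
    steps := [(0, 1), (0, 2), (0, 3), (0, 5), (0, 6), (0, 7), (4, 13), (4, 8)] }
  rep := [0, 11, 10, 4, 16, 12, 17, 9, 14, 15]

noncomputable def v1607 : Cov.CovD where
  P := 3
  N := 7
  pl := [2, 3, 7, 8]
  lev := [⟨[], [], [], [], [(0, 0, [1, 3, 4, 5, 6])]⟩,
    ⟨[], [(0, 0), (0, 3)], [(0, 3)], [7], [(0, 0, [1, 3, 4, 5, 6]), (1, 3, [0])]⟩,
    ⟨[(0, 1)], [(0, 0), (0, 1), (1, 0)], [(0, 1)], [2], [(0, 0, [1, 3, 4, 5, 6]), (4, 1,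
      [0])]⟩,
    ⟨[(0, 2)], [(2, 0), (2, 1), (2, 5)], [(1, 5)], [2], [(4, 1, [0]), (5, 5, [0])]⟩,
    ⟨[(0, 1)], [(1, 0), (1, 3)], [(3, 3)], [8, 9], [(1, 3, [0]), (6, 3, [0])]⟩,
    ⟨[(0, 2), (2, 3)], [(2, 0), (2, 1), (2, 4), (3, 1)], [(1, 4)], [], [(4, 1, [0]), (9, 4,
      [0])]⟩,
    ⟨[(0, 1), (0, 2), (0, 4), (0, 5), (1, 2), (1, 4), (1, 5), (2, 3), (2, 4), (2, 5), (4,
      5)], [(0, 0), (0, 3), (0, 4), (0, 6), (1, 0), (1, 3), (1, 4), (1, 6), (2, 0), (2, 1),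
      (2, 3), (2, 4), (2, 6), (4, 3), (4, 4), (4, 6), (5, 1), (5, 3), (5, 4), (5, 6)], [(3,
      4), (3, 6), (4, 6)], [], [(6, 3, [0]), (9, 4, [0]), (10, 6, [0])]⟩]
  Ta := [((1, 2), 3, 7), ((1, 8), 3, 9), ((6, 7), 3, 8), ((6, 10), 3, 6)]
  Tb := [((0, 2, 3), 0, 7, 2), ((1, 2, 8), 3, 7, 9), ((2, 0, 1), 7, 0, 3), ((3, 0, 5), 2, 0, 5),
    ((4, 5, 9), 1, 5, 4), ((5, 3, 4), 5, 2, 1), ((6, 7, 10), 3, 8, 6), ((7, 6, 8), 8, 3, 9),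
    ((8, 1, 7), 9, 3, 8), ((9, 4, 10), 4, 1, 6), ((10, 6, 9), 6, 3, 4)]
  Tc := [(0, 1, 3), (0, 1, 4), (0, 1, 5), (0, 1, 6), (0, 3, 4), (0, 3, 5), (0, 3, 6), (0, 4, 5),
    (0, 4, 6), (0, 5, 6)]
  Td := [((0, 1), (0, 2), 7), ((0, 1), (0, 3), 2), ((0, 3), (0, 2), 7), ((0, 3), (0, 3), 2), ((0,
    4), (0, 2), 7), ((0, 4), (0, 3), 2), ((0, 5), (0, 2), 7), ((0, 5), (0, 3), 2), ((0, 6),
    (0, 2), 7), ((0, 6), (0, 3), 2), ((1, 0), (4, 5), 5), ((1, 0), (4, 9), 4), ((3, 0), (1,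
    2), 7), ((3, 0), (1, 8), 9), ((3, 0), (6, 7), 8), ((3, 0), (6, 10), 6), ((4, 0), (9, 4),
    1), ((4, 0), (9, 10), 6), ((5, 0), (5, 3), 2), ((5, 0), (5, 4), 1), ((6, 0), (10, 6), 3),
    ((6, 0), (10, 9), 4)]
  G := [[0, 0x11a11a11a11af1411c11a11c116f18a11611611c116f1446,
    0x111111125f11111111cfc8118c11111114f11111111cfc1818ca11111111cf411111111cf8c46,
    0x2111811c11c1414f118a131c611c11c11c13cdf1411c11c11c149f18c6,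
    0x2111811c11c11c196df18a11c11c149149f1811c11c11c11edf18c6], [0,
    0x116116116116f1811c11a11c11cf1468, 0x141411111111cf11111118fcc11111111cf411111111cf8cc2,
    0x11c11c11c15cf1a111c11c11c11c11edf18c2, 0x11c11c11c169f1811c11c11c13cdf18a9411846]]

noncomputable def n1607 : Ent := ⟨e1607, noF, [], [], [(12, 14, [7334790875878422277917280412776772662961875900559637987928627376046081, 0]), (12, 15, [7334790850167413569773436004105379185503274260204390087403942011228161, 0]), (12, 8, [7334790875884700912148207959451244882215050778946579936987846759702529, 0])]⟩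

def c1607 : PLift (Cov.check n1607.C.D v1607 = true) := ⟨by decide +kernel⟩

def b1607 : PLift (entF (fidx ts) 400 1607 n1607 = true) := ⟨by decide +kernel⟩

theorem g1607 : GoodF (fidx ts) 400 1607 := GoodF.ofV v1607 n1607 c1607.down b1607.down

/-- 4674864:1344 -/
noncomputable def e1608 : SCfg where
  D := {
    a := 7
    L := 10
    kp := 8
    inn := [(0, 1), (0, 2), (0, 4), (0, 5), (1, 0), (1, 4), (1, 5), (2, 0), (2, 3), (2, 4), (2, 5), (2,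
      6), (3, 2), (4, 0), (4, 1), (4, 2), (4, 6), (5, 0), (5, 1), (5, 2), (6, 2), (6, 4)]
    mix := [(1, 0), (1, 1), (1, 2), (2, 3), (2, 4), (3, 3), (3, 4), (3, 5), (4, 0), (4, 6), (4, 7), (4,
      8), (5, 2), (5, 3), (5, 9), (6, 4), (6, 6)]
    cl := [0, 4, 3, 1, 2, 5, 0, 6, 7, 8]
    chq := [(0, 1), (1, 0), (1, 2), (1, 3), (1, 4), (2, 1), (3, 1), (4, 1)]
    rng := [(0, 1), (0, 8), (1, 0), (1, 2), (2, 1), (2, 9), (3, 5), (3, 9), (4, 5), (4, 6), (5, 3), (5,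
      4), (6, 4), (6, 7), (7, 6), (7, 8), (8, 0), (8, 7), (9, 2), (9, 3)]
    lev := [] }
  links := [[1, 5, 2, 4], [5, 0, 4, 7, 8, 9], [4, 0, 5, 10, 3, 11, 6], [11, 2, 10, 12], [7, 1, 0, 2, 6,
    13, 14, 15], [10, 2, 0, 1, 9, 16], [13, 4, 2, 11]]
  P := {
    a := 7
    N := 17
    nb := [54, 945, 3193, 7172, 57543, 67079, 10260, 33042, 642, 65826, 69676, 12364, 3080, 18512,
      40976, 16528, 1568]
    tri := [(0, 1, 4), (0, 1, 5), (0, 2, 4), (0, 2, 5), (1, 4, 7), (1, 5, 9), (1, 7, 8), (1, 8, 9), (2,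
      3, 10), (2, 3, 11), (2, 4, 6), (2, 5, 10), (2, 6, 11), (3, 10, 12), (3, 11, 12), (4, 6, 13),
      (4, 7, 15), (4, 13, 14), (4, 14, 15), (5, 9, 16), (5, 10, 16), (6, 11, 13)]
    fin := [0, 0, 2, 2, 4, 5, 4, 4, 0, 5, 2, 11, 12, 4, 14, 15, 16]
    chd := [(0, 2), (2, 11), (4, 2), (5, 2)]
    steps := [(0, 1), (0, 8), (2, 3), (2, 10), (4, 6), (4, 7), (4, 13), (5, 9)] }
  rep := [4, 2, 11, 5, 0, 12, 14, 15, 16]

noncomputable def v1608 : Cov.CovD where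
  P := 3
  N := 6
  pl := [5, 7, 8, 9]
  lev := [⟨[], [], [], [], []⟩,
    ⟨[], [(0, 0), (0, 3), (0, 4)], [(0, 3), (0, 4), (3, 4)], [], [(0, 0, [1]), (1, 4, [1]),
      (2, 3, [1])]⟩,
    ⟨[(0, 1)], [(0, 1), (0, 2)], [(1, 2)], [], [(3, 1, [0, 2, 3, 4]), (4, 2, [1])]⟩,
    ⟨[(0, 2)], [(2, 1), (2, 2)], [(1, 2)], [5], [(3, 1, [0, 2, 3, 4]), (4, 2, [1])]⟩,
    ⟨[(0, 1), (0, 2), (1, 2), (2, 3)], [(0, 0), (1, 0), (1, 3), (1, 4), (2, 0), (2, 1), (2,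
      2)], [(0, 0)], [6, 7], [(0, 0, [1]), (6, 0, [1])]⟩,
    ⟨[(0, 1), (0, 2), (0, 4), (1, 2), (1, 4), (2, 3), (2, 4)], [(0, 1), (0, 3), (1, 0), (1,
      1), (1, 3), (1, 4), (2, 1), (2, 2), (2, 3), (3, 1)], [(1, 3)], [8], [(2, 3, [1]), (3,
      1, [0, 2, 3, 4])]⟩,
    ⟨[(0, 2), (0, 4), (1, 4), (2, 3), (2, 4), (2, 5)], [(2, 0), (2, 1), (2, 2), (3, 2), (4,
      0), (4, 2)], [(0, 2)], [], [(4, 2, [1]), (6, 0, [1])]⟩]
  Ta := [((0, 1), 0, 4), ((0, 8), 0, 7), ((6, 4), 0, 2), ((6, 7), 0, 6)]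
  Tb := [((0, 1, 8), 0, 4, 7), ((1, 0, 2), 4, 0, 3), ((2, 1, 9), 3, 4, 8), ((3, 5, 9), 1, 5, 8),
    ((4, 5, 6), 2, 5, 0), ((5, 3, 4), 5, 1, 2), ((6, 4, 7), 0, 2, 6), ((7, 6, 8), 6, 0, 7),
    ((8, 0, 7), 7, 0, 6), ((9, 2, 3), 8, 3, 1)]
  Tc := [(1, 0, 2), (1, 0, 3), (1, 0, 4), (1, 2, 3), (1, 2, 4), (1, 3, 4)]
  Td := [((0, 1), (0, 1), 4), ((0, 1), (0, 8), 7), ((0, 1), (6, 4), 2), ((0, 1), (6, 7), 6), ((1,
    0), (3, 5), 5), ((1, 0), (3, 9), 8), ((1, 2), (3, 5), 5), ((1, 2), (3, 9), 8), ((1, 3),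
    (3, 5), 5), ((1, 3), (3, 9), 8), ((1, 4), (3, 5), 5), ((1, 4), (3, 9), 8), ((2, 1), (4,
    5), 5), ((2, 1), (4, 6), 0), ((3, 1), (2, 1), 4), ((3, 1), (2, 9), 8), ((4, 1), (1, 0),
    0), ((4, 1), (1, 2), 3)]
  G := [[0, 0x488e2118a81c144441ec1816, 0, 0x445484d844de488d844d6c12488212d89429,
    0x229221282d889888de28891a185228144215218d111de9865], [0, 0x8888aa141416418e44e1816,
    0x44228122c225289488de846229224444425288d488dec488288cca9,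
    0x445488da18222242e2249134824cc82c28c48cec125,
    0x22522822541225282dc896889221225885a128888da882888e99ac]]

noncomputable def n1608 : Ent := ⟨e1608, noF, [], [], []⟩

def c1608 : PLift (Cov.check n1608.C.D v1608 = true) := ⟨by decide +kernel⟩

def b1608 : PLift (entF (fidx ts) 400 1608 n1608 = true) := ⟨by decide +kernel⟩

theorem g1608 : GoodF (fidx ts) 400 1608 := GoodF.ofV v1608 n1608 c1608.down b1608.down

/-- 4576549:1347 -/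
noncomputable def e1609 : SCfg where
  D := {
    a := 7
    L := 11
    kp := 9
    inn := [(0, 1), (0, 2), (1, 0), (1, 2), (1, 6), (2, 0), (2, 1), (2, 3), (2, 6), (3, 2), (3, 4), (3,
      6), (4, 3), (4, 5), (4, 6), (5, 4), (5, 6), (6, 1), (6, 2), (6, 3), (6, 4), (6, 5)]
    mix := [(0, 0), (0, 1), (1, 1), (1, 2), (2, 0), (2, 3), (2, 4), (3, 3), (3, 5), (3, 6), (4, 5), (4,
      7), (5, 7), (5, 8), (6, 2), (6, 8), (6, 9), (6, 10)]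
    cl := [1, 2, 0, 4, 7, 3, 6, 5, 0, 8, 9]
    chq := [(0, 1), (0, 3), (1, 0), (1, 3), (1, 4), (1, 6), (3, 0), (3, 1), (4, 1), (6, 1)]
    rng := [(0, 1), (0, 4), (1, 0), (1, 2), (2, 1), (2, 9), (3, 4), (3, 6), (4, 0), (4, 3), (5, 6), (5,
      7), (6, 3), (6, 5), (7, 5), (7, 8), (8, 7), (8, 10), (9, 2), (9, 10), (10, 8), (10, 9)]
    lev := [] }
  links := [[1, 2, 7, 8], [2, 0, 8, 9, 6], [7, 0, 1, 6, 3, 10, 11], [10, 2, 6, 4, 12, 13], [12, 3, 6, 5,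
    14], [14, 4, 6, 15], [15, 5, 4, 3, 2, 1, 9, 16, 17]]
  P := {
    a := 7
    N := 18
    nb := [390, 837, 3275, 13396, 20584, 49232, 229950, 2309, 643, 65858, 10252, 1156, 24600, 5128,
      36912, 147552, 131648, 98368]
    tri := [(0, 1, 2), (0, 1, 8), (0, 2, 7), (0, 7, 8), (1, 2, 6), (1, 6, 9), (1, 8, 9), (2, 3, 6), (2,
      3, 10), (2, 7, 11), (2, 10, 11), (3, 4, 6), (3, 4, 12), (3, 10, 13), (3, 12, 13), (4, 5, 6),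
      (4, 5, 14), (4, 12, 14), (5, 6, 15), (5, 14, 15), (6, 9, 16), (6, 15, 17), (6, 16, 17)]
    fin := [0, 0, 0, 0, 4, 4, 4, 0, 8, 4, 10, 11, 12, 13, 14, 4, 16, 17]
    chd := [(0, 4), (0, 10), (0, 12), (0, 13), (4, 12)]
    steps := [(0, 1), (0, 2), (0, 3), (0, 7), (4, 5), (4, 6), (4, 9), (4, 15)] }
  rep := [4, 0, 8, 12, 10, 14, 13, 11, 16, 17]

noncomputable def v1609 : Cov.CovD where
  P := 3
  N := 7
  pl := [1, 4, 7, 9, 10]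
  lev := [⟨[], [], [], [2], [(0, 1, [0, 3, 4, 6])]⟩,
    ⟨[], [(0, 0), (0, 1)], [], [2], [(2, 0, [1, 3])]⟩,
    ⟨[(0, 1)], [(0, 1), (0, 4), (1, 0), (1, 1), (1, 4)], [(1, 4)], [7], [(0, 1, [0, 3, 4,
      6]), (3, 4, [1])]⟩,
    ⟨[(0, 2), (1, 2)], [(2, 1), (2, 3), (2, 4), (2, 6)], [(3, 4), (3, 6), (4, 6)], [], [(3,
      4, [1]), (5, 3, [0, 1]), (6, 6, [1])]⟩,
    ⟨[(2, 3)], [(3, 3), (3, 4), (3, 6)], [], [5], [(5, 3, [0, 1])]⟩,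
    ⟨[(3, 4)], [(4, 0), (4, 3)], [], [5], [(8, 0, [1, 3])]⟩,
    ⟨[(0, 1), (0, 2), (1, 2), (1, 3), (1, 4), (1, 5), (2, 3), (2, 4), (2, 5), (3, 4), (3,
      5), (4, 5)], [(1, 0), (2, 0), (2, 1), (2, 4), (3, 0), (3, 3), (3, 4), (3, 6), (4, 0),
      (4, 3), (5, 0)], [(0, 0)], [8, 9], [(2, 0, [1, 3]), (8, 0, [1, 3])]⟩]
  Ta := [((2, 1), 0, 2), ((2, 9), 0, 8), ((8, 7), 0, 5), ((8, 10), 0, 9)]
  Tb := [((0, 1, 4), 1, 2, 7), ((1, 0, 2), 2, 1, 0), ((2, 1, 9), 0, 2, 8), ((3, 4, 6), 4, 7, 6),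
    ((4, 0, 3), 7, 1, 4), ((5, 6, 7), 3, 6, 5), ((6, 3, 5), 6, 4, 3), ((7, 5, 8), 5, 3, 0),
    ((8, 7, 10), 0, 5, 9), ((9, 2, 10), 8, 0, 9), ((10, 8, 9), 9, 0, 8)]
  Tc := [(0, 1, 3), (1, 0, 3), (1, 0, 4), (1, 0, 6), (1, 3, 4), (1, 3, 6), (1, 4, 6), (3, 0, 1)]
  Td := [((0, 1), (2, 1), 2), ((0, 1), (2, 9), 8), ((0, 1), (8, 7), 5), ((0, 1), (8, 10), 9),
    ((0, 3), (2, 1), 2), ((0, 3), (2, 9), 8), ((0, 3), (8, 7), 5), ((0, 3), (8, 10), 9), ((1,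
    0), (0, 1), 2), ((1, 0), (0, 4), 7), ((1, 3), (0, 1), 2), ((1, 3), (0, 4), 7), ((1, 4),
    (0, 1), 2), ((1, 4), (0, 4), 7), ((1, 6), (0, 1), 2), ((1, 6), (0, 4), 7), ((3, 0), (5,
    6), 6), ((3, 0), (5, 7), 5), ((3, 1), (5, 6), 6), ((3, 1), (5, 7), 5), ((4, 1), (3, 4),
    7), ((4, 1), (3, 6), 6), ((6, 1), (6, 3), 4), ((6, 1), (6, 5), 3)]
  G := [[0, 0x6411eea112ece11e18e611849,
    0x226164a1648244e122a132261a86122c1b2212212ece1282121efd22a122c1a861e8cc,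
    0x44a1246ace12aac12e2ce12dc1,
    0x2122c282421e91822c1264e122617226122616ace121249f22c12d22c18861a22c1ccc169a3], [0,
    0x6811eea112ece11e18e611849, 0, 0x2426c92282448c6acef22424c46a8ef2d2448c886728c1,
    0x221282242422cde2422928225682422cd282422cef5822c22c2928288122285282822cd24285782822c54848c848c6fa2482824948ac8484eb28249f84c8c2d2dab]]

noncomputable def n1609 : Ent := ⟨e1609, noF, [], [], []⟩

def c1609 : PLift (Cov.check n1609.C.D v1609 = true) := ⟨by decide +kernel⟩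

def b1609 : PLift (entF (fidx ts) 400 1609 n1609 = true) := ⟨by decide +kernel⟩

theorem g1609 : GoodF (fidx ts) 400 1609 := GoodF.ofV v1609 n1609 c1609.down b1609.down

/-- 4576547:1350/2 -/
noncomputable def e1610 : SCfg where
  D := {
    a := 7
    L := 9
    kp := 6
    inn := [(0, 1), (0, 2), (1, 0), (1, 2), (2, 0), (2, 1), (2, 3), (3, 2), (3, 4), (3, 6), (4, 3), (4,
      5), (4, 6), (5, 4), (5, 6), (6, 3), (6, 4), (6, 5)]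
    mix := [(0, 0), (0, 1), (1, 1), (1, 2), (1, 3), (2, 0), (2, 3), (2, 4), (2, 5), (3, 3), (3, 4), (3,
      6), (4, 2), (4, 3), (5, 1), (5, 2), (6, 1), (6, 6), (6, 7), (6, 8)]
    cl := [3, 0, 2, 1, 1, 4, 0, 5, 6]
    chq := [(1, 3), (2, 3), (3, 1), (3, 2)]
    rng := [(0, 1), (0, 5), (1, 0), (1, 2), (1, 7), (2, 1), (2, 3), (3, 2), (4, 5), (4, 6), (5, 0), (5,
      4), (6, 4), (6, 8), (7, 1), (7, 8), (8, 6), (8, 7)]
    lev := [] }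
  links := [[1, 2, 7, 8], [2, 0, 8, 9, 10], [7, 0, 1, 10, 3, 11, 12], [11, 2, 10, 4, 6, 13], [6, 3, 10,
    9, 5], [6, 4, 9, 8], [13, 3, 4, 5, 8, 14, 15]]
  P := {
    a := 7
    N := 16
    nb := [390, 1797, 7307, 11348, 1640, 848, 57656, 4357, 17123, 1330, 542, 12300, 2180, 34888,
      33088, 24640]
    tri := [(0, 1, 2), (0, 1, 8), (0, 2, 7), (0, 7, 8), (1, 2, 10), (1, 8, 9), (1, 9, 10), (2, 3, 10),
      (2, 3, 11), (2, 7, 12), (2, 11, 12), (3, 4, 6), (3, 4, 10), (3, 6, 13), (3, 11, 13), (4, 5,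
      6), (4, 5, 9), (4, 9, 10), (5, 6, 8), (5, 8, 9), (6, 8, 14), (6, 13, 15), (6, 14, 15)]
    fin := [0, 0, 0, 3, 4, 4, 4, 0, 4, 9, 3, 3, 12, 4, 14, 15]
    chd := [(0, 3), (0, 9)]
    steps := [(0, 1), (0, 2), (0, 7), (3, 10), (3, 11), (4, 5), (4, 6), (4, 8), (4, 13)] }
  rep := [4, 3, 9, 0, 12, 14, 15]

noncomputable def v1610 : Cov.CovD where
  P := 3
  N := 4
  pl := [5, 7, 8]
  lev := [⟨[], [], [(0, 3)], [], [(0, 3, [1, 2]), (1, 0, [])]⟩,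
    ⟨[], [(0, 0), (0, 1), (0, 2), (0, 3)], [(0, 1), (0, 2), (1, 2)], [], [(1, 0, []), (2,
      2, [3]), (3, 1, [3])]⟩,
    ⟨[(0, 1)], [(0, 0), (0, 1), (0, 3), (1, 0), (1, 1), (1, 2), (1, 3)], [(1, 1), (1, 3)],
      [4], [(0, 3, [1, 2]), (3, 1, [3]), (4, 1, [3])]⟩,
    ⟨[(0, 2), (1, 2)], [(1, 1), (2, 0), (2, 1), (2, 3)], [(0, 1), (1, 1)], [], [(3, 1,
      [3]), (4, 1, [3]), (6, 0, [])]⟩,
    ⟨[(2, 3)], [(1, 1), (1, 2), (2, 1), (3, 0), (3, 1), (3, 2)], [(1, 2)], [], [(2, 2,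
      [3]), (3, 1, [3])]⟩,
    ⟨[(3, 4)], [(0, 0), (1, 0), (1, 2), (4, 0), (4, 1), (4, 2)], [(0, 2)], [], [(1, 0, []),
      (2, 2, [3])]⟩,
    ⟨[(2, 3), (3, 4), (3, 5), (4, 5)], [(0, 0), (1, 0), (3, 0), (3, 1), (4, 0), (4, 1), (4,
      2), (5, 0), (5, 2)], [(0, 0)], [5, 6], [(1, 0, []), (6, 0, [])]⟩]
  Ta := [((1, 0), 0, 3), ((1, 2), 0, 2), ((1, 7), 0, 5), ((3, 2), 1, 2), ((4, 5), 1, 4), ((4, 6),
    1, 0), ((6, 4), 0, 1), ((6, 8), 0, 6)]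
  Tb := [((0, 1, 5), 3, 0, 4), ((1, 0, 2), 0, 3, 2), ((1, 0, 7), 0, 3, 5), ((1, 2, 7), 0, 2, 5),
    ((2, 1, 3), 2, 0, 1), ((4, 5, 6), 1, 4, 0), ((5, 0, 4), 4, 3, 1), ((6, 4, 8), 0, 1, 6),
    ((7, 1, 8), 5, 0, 6), ((8, 6, 7), 6, 0, 5)]
  Tc := [(3, 1, 2)]
  Td := [((1, 3), (3, 2), 2), ((1, 3), (4, 5), 4), ((1, 3), (4, 6), 0), ((2, 3), (2, 1), 0), ((2,
    3), (2, 3), 1), ((3, 1), (0, 1), 0), ((3, 1), (0, 5), 4), ((3, 2), (0, 1), 0), ((3, 2),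
    (0, 5), 4)]
  G := [[0, 0, 0xa4641a4648a4684d82, 0x68c84e418e418d42, 0xe8144aa81e218d82], [0, 0,
    0x28c864e241e248d82, 0, 0x68a84e28168a84d82], [0, 0, 0, 0xe814e41868c48d42,
    0xe21868a18582], [0, 0x68c84e482e418e41, 0, 0, 0xe8141e218492]]

noncomputable def n1610 : Ent := ⟨e1610, noF, [], [], []⟩

def c1610 : PLift (Cov.check n1610.C.D v1610 = true) := ⟨by decide +kernel⟩

def b1610 : PLift (entF (fidx ts) 400 1610 n1610 = true) := ⟨by decide +kernel⟩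

theorem g1610 : GoodF (fidx ts) 400 1610 := GoodF.ofV v1610 n1610 c1610.down b1610.down

/-- 4576547:1350/1 -/
noncomputable def e1611 : SCfg where
  D := {
    a := 7
    L := 10
    kp := 7
    inn := [(0, 1), (0, 2), (1, 0), (1, 2), (2, 0), (2, 1), (2, 3), (3, 2), (3, 4), (3, 6), (4, 3), (4,
      5), (4, 6), (5, 4), (5, 6), (6, 3), (6, 4), (6, 5)]
    mix := [(0, 0), (0, 1), (1, 1), (1, 2), (1, 3), (2, 0), (2, 3), (2, 4), (2, 5), (3, 3), (3, 4), (3,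
      6), (4, 3), (4, 7), (5, 1), (5, 7), (6, 1), (6, 6), (6, 8), (6, 9)]
    cl := [3, 0, 2, 1, 1, 5, 0, 4, 6, 7]
    chq := [(1, 3), (2, 3), (3, 1), (3, 2)]
    rng := [(0, 1), (0, 5), (1, 0), (1, 2), (1, 7), (1, 8), (2, 1), (2, 3), (3, 2), (3, 7), (4, 5), (4,
      6), (5, 0), (5, 4), (6, 4), (6, 9), (7, 1), (7, 3), (8, 1), (8, 9), (9, 6), (9, 8)]
    lev := [] }
  links := [[1, 2, 7, 8], [2, 0, 8, 9, 10], [7, 0, 1, 10, 3, 11, 12], [11, 2, 10, 4, 6, 13], [6, 3, 10,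
    14, 5], [6, 4, 14, 8], [13, 3, 4, 5, 8, 15, 16]]
  P := {
    a := 7
    N := 17
    nb := [390, 1797, 7307, 11348, 17512, 16720, 106808, 4357, 49891, 1282, 16926, 12300, 2180, 67656,
      1328, 65856, 41024]
    tri := [(0, 1, 2), (0, 1, 8), (0, 2, 7), (0, 7, 8), (1, 2, 10), (1, 8, 9), (1, 9, 10), (2, 3, 10),
      (2, 3, 11), (2, 7, 12), (2, 11, 12), (3, 4, 6), (3, 4, 10), (3, 6, 13), (3, 11, 13), (4, 5,
      6), (4, 5, 14), (4, 10, 14), (5, 6, 8), (5, 8, 14), (6, 8, 15), (6, 13, 16), (6, 15, 16)]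
    fin := [0, 0, 0, 3, 4, 4, 4, 0, 4, 9, 3, 3, 12, 4, 14, 15, 16]
    chd := [(0, 3), (0, 9)]
    steps := [(0, 1), (0, 2), (0, 7), (3, 10), (3, 11), (4, 5), (4, 6), (4, 8), (4, 13)] }
  rep := [4, 3, 9, 0, 14, 12, 15, 16]

noncomputable def v1611 : Cov.CovD where
  P := 3
  N := 5
  pl := [5, 7, 8, 9]
  lev := [⟨[], [], [(0, 3)], [], [(0, 3, [1, 2]), (1, 0, [])]⟩,
    ⟨[], [(0, 0), (0, 1), (0, 2), (0, 3)], [(0, 1), (0, 2), (1, 2)], [], [(1, 0, []), (2,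
      2, [3]), (3, 1, [3])]⟩,
    ⟨[(0, 1)], [(0, 0), (0, 1), (0, 3), (1, 0), (1, 1), (1, 2), (1, 3)], [(1, 1), (1, 3)],
      [5], [(0, 3, [1, 2]), (3, 1, [3]), (4, 1, [3])]⟩,
    ⟨[(0, 2), (1, 2)], [(1, 1), (2, 0), (2, 1), (2, 3)], [(0, 1), (1, 1)], [], [(3, 1,
      [3]), (4, 1, [3]), (6, 0, [])]⟩,
    ⟨[(2, 3)], [(1, 1), (2, 1), (3, 0), (3, 1)], [], [4], [(3, 1, [3])]⟩,
    ⟨[(3, 4)], [(0, 0), (1, 0), (4, 0), (4, 1)], [], [4], [(1, 0, [])]⟩,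
    ⟨[(2, 3), (3, 4), (3, 5), (4, 5)], [(0, 0), (1, 0), (3, 0), (3, 1), (4, 0), (4, 1), (5,
      0)], [(0, 0)], [6, 7], [(1, 0, []), (6, 0, [])]⟩]
  Ta := [((1, 0), 0, 3), ((1, 2), 0, 2), ((1, 7), 0, 4), ((1, 8), 0, 6), ((3, 2), 1, 2), ((3, 7),
    1, 4), ((4, 5), 1, 5), ((4, 6), 1, 0), ((6, 4), 0, 1), ((6, 9), 0, 7)]
  Tb := [((0, 1, 5), 3, 0, 5), ((1, 0, 2), 0, 3, 2), ((1, 0, 7), 0, 3, 4), ((1, 0, 8), 0, 3, 6),
    ((1, 2, 7), 0, 2, 4), ((1, 2, 8), 0, 2, 6), ((1, 7, 8), 0, 4, 6), ((2, 1, 3), 2, 0, 1),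
    ((3, 2, 7), 1, 2, 4), ((4, 5, 6), 1, 5, 0), ((5, 0, 4), 5, 3, 1), ((6, 4, 9), 0, 1, 7),
    ((7, 1, 3), 4, 0, 1), ((8, 1, 9), 6, 0, 7), ((9, 6, 8), 7, 0, 6)]
  Tc := [(3, 1, 2)]
  Td := [((1, 3), (3, 2), 2), ((1, 3), (3, 7), 4), ((1, 3), (4, 5), 5), ((1, 3), (4, 6), 0), ((2,
    3), (2, 1), 0), ((2, 3), (2, 3), 1), ((3, 1), (0, 1), 0), ((3, 1), (0, 5), 5), ((3, 2),
    (0, 1), 0), ((3, 2), (0, 5), 5)]
  G := [[0, 0, 0xea4e1468ee1868ee18d42, 0xe2e2946482e2d8e2e294d82, 0xeea1468aa46c14ac2ca58d82],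
    [0, 0, 0xe214e218e218d82, 0, 0xe21422c4e2b868ce294d82], [0, 0, 0, 0xe214e218e214d82,
    0xee61818ee618485], [0, 0xe1e2948468e8692ee618689, 0, 0, 0xe2181e218492]]

noncomputable def n1611 : Ent := ⟨e1611, noF, [], [], [(9, 14, [1685382413448253767852309107433119732572617628602273068445371506689, 0])]⟩

def c1611 : PLift (Cov.check n1611.C.D v1611 = true) := ⟨by decide +kernel⟩

def b1611 : PLift (entF (fidx ts) 400 1611 n1611 = true) := ⟨by decide +kernel⟩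

theorem g1611 : GoodF (fidx ts) 400 1611 := GoodF.ofV v1611 n1611 c1611.down b1611.down

/-- 4576547:1350/3 -/
noncomputable def e1612 : SCfg where
  D := {
    a := 7
    L := 10
    kp := 7
    inn := [(0, 1), (0, 2), (1, 0), (1, 2), (2, 0), (2, 1), (2, 3), (3, 2), (3, 4), (3, 6), (4, 3), (4,
      5), (4, 6), (5, 4), (5, 6), (6, 3), (6, 4), (6, 5)]
    mix := [(0, 0), (0, 1), (1, 1), (1, 2), (1, 3), (2, 0), (2, 3), (2, 4), (2, 5), (3, 3), (3, 4), (3,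
      6), (4, 3), (4, 7), (5, 7), (5, 8), (6, 1), (6, 6), (6, 8), (6, 9)]
    cl := [2, 1, 5, 0, 0, 6, 3, 4, 3, 7]
    chq := [(0, 2), (2, 0), (2, 5), (5, 2)]
    rng := [(0, 1), (0, 5), (1, 0), (1, 2), (1, 8), (1, 9), (2, 1), (2, 3), (3, 2), (3, 7), (4, 5), (4,
      6), (5, 0), (5, 4), (6, 4), (6, 9), (7, 3), (7, 8), (8, 1), (8, 7), (9, 1), (9, 6)]
    lev := [] }
  links := [[1, 2, 7, 8], [2, 0, 8, 9, 10], [7, 0, 1, 10, 3, 11, 12], [11, 2, 10, 4, 6, 13], [6, 3, 10,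
    14, 5], [6, 4, 14, 15], [13, 3, 4, 5, 15, 8, 16]]
  P := {
    a := 7
    N := 17
    nb := [390, 1797, 7307, 11348, 17512, 49232, 106808, 4357, 99011, 1282, 16926, 12300, 2180, 67656,
      33840, 16736, 8512]
    tri := [(0, 1, 2), (0, 1, 8), (0, 2, 7), (0, 7, 8), (1, 2, 10), (1, 8, 9), (1, 9, 10), (2, 3, 10),
      (2, 3, 11), (2, 7, 12), (2, 11, 12), (3, 4, 6), (3, 4, 10), (3, 6, 13), (3, 11, 13), (4, 5,
      6), (4, 5, 14), (4, 10, 14), (5, 6, 15), (5, 14, 15), (6, 8, 15), (6, 8, 16), (6, 13, 16)]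
    fin := [0, 0, 0, 3, 3, 3, 6, 0, 8, 9, 3, 3, 12, 6, 14, 6, 16]
    chd := [(0, 3), (0, 9)]
    steps := [(0, 1), (0, 2), (0, 7), (3, 4), (3, 5), (3, 10), (3, 11), (6, 15), (6, 13)] }
  rep := [3, 8, 0, 6, 14, 9, 12, 16]

noncomputable def v1612 : Cov.CovD where
  P := 3
  N := 5
  pl := [1, 5, 7, 9]
  lev := [⟨[], [], [], [1], [(0, 2, [0, 5])]⟩,
    ⟨[], [(0, 0), (0, 2), (0, 5)], [(0, 5)], [1], [(2, 5, [2]), (3, 0, [2])]⟩,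
    ⟨[(0, 1)], [(0, 0), (0, 2), (1, 0), (1, 2), (1, 5)], [(0, 0), (0, 2)], [6], [(0, 2, [0,
      5]), (3, 0, [2]), (4, 0, [2])]⟩,
    ⟨[(0, 2), (1, 2)], [(1, 0), (2, 0), (2, 2), (2, 3)], [(0, 0), (0, 3)], [], [(3, 0,
      [2]), (4, 0, [2]), (6, 3, [])]⟩,
    ⟨[(2, 3)], [(1, 0), (2, 0), (3, 0), (3, 3)], [], [4], [(3, 0, [2])]⟩,
    ⟨[(3, 4)], [(4, 0), (4, 3)], [], [4], [(8, 3, [])]⟩,
    ⟨[(2, 3), (3, 4), (3, 5), (4, 5)], [(3, 0), (3, 3), (4, 0), (4, 3), (5, 3)], [(3, 3)],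
      [1, 7], [(6, 3, []), (8, 3, [])]⟩]
  Ta := [((3, 2), 0, 5), ((3, 7), 0, 4), ((4, 5), 0, 6), ((4, 6), 0, 3), ((6, 4), 3, 0), ((6, 9),
    3, 7), ((8, 1), 3, 1), ((8, 7), 3, 4)]
  Tb := [((0, 1, 5), 2, 1, 6), ((1, 0, 2), 1, 2, 5), ((1, 0, 8), 1, 2, 3), ((1, 0, 9), 1, 2, 7),
    ((1, 2, 8), 1, 5, 3), ((1, 2, 9), 1, 5, 7), ((1, 8, 9), 1, 3, 7), ((2, 1, 3), 5, 1, 0),
    ((3, 2, 7), 0, 5, 4), ((4, 5, 6), 0, 6, 3), ((5, 0, 4), 6, 2, 0), ((6, 4, 9), 3, 0, 7),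
    ((7, 3, 8), 4, 0, 3), ((8, 1, 7), 3, 1, 4), ((9, 1, 6), 7, 1, 3)]
  Tc := [(2, 0, 5)]
  Td := [((0, 2), (3, 2), 5), ((0, 2), (3, 7), 4), ((0, 2), (4, 5), 6), ((0, 2), (4, 6), 3), ((2,
    0), (0, 1), 1), ((2, 0), (0, 5), 6), ((2, 5), (0, 1), 1), ((2, 5), (0, 5), 6), ((5, 2),
    (2, 1), 1), ((5, 2), (2, 3), 0)]
  G := [[0, 0xec92ae946c2e1661e8cac24, 0x5191c25191c2c14, 0xd459ca2c995862cd8d162d8d162cc1,
    0xd4d1a2d5591c2a48], [0, 0x6e3ce9a4ae3ce568c28, 0xd182d142d124e14,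
    0xd2d1c2d1d268cd1d2a4d1d268cc1, 0xd19d6a4d195cba4a41], [0, 0xe21e416e21e81ac28,
    0x5191c2d192c2a18, 0xd1d1c2d1d1a2c18, 0xd18d146d14d18aa18], [0, 0xe1e1a4e1e168c24,
    0xd124d142d184e14, 0xd1d2a4d1d268c14, 0xd1d1a4d1d168a48]]

noncomputable def n1612 : Ent := ⟨e1612, noF, [], [], []⟩

def c1612 : PLift (Cov.check n1612.C.D v1612 = true) := ⟨by decide +kernel⟩

def b1612 : PLift (entF (fidx ts) 400 1612 n1612 = true) := ⟨by decide +kernel⟩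

theorem g1612 : GoodF (fidx ts) 400 1612 := GoodF.ofV v1612 n1612 c1612.down b1612.down

/-- 4576547:1350/4 -/
noncomputable def e1613 : SCfg where
  D := {
    a := 7
    L := 10
    kp := 7
    inn := [(0, 1), (0, 2), (1, 0), (1, 2), (2, 0), (2, 1), (2, 3), (3, 2), (3, 4), (3, 6), (4, 3), (4,
      5), (4, 6), (5, 4), (5, 6), (6, 3), (6, 4), (6, 5)]
    mix := [(0, 0), (0, 1), (1, 1), (1, 2), (1, 3), (2, 0), (2, 3), (2, 4), (2, 5), (3, 3), (3, 4), (3,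
      6), (4, 3), (4, 7), (5, 7), (5, 8), (6, 1), (6, 6), (6, 8), (6, 9)]
    cl := [2, 1, 5, 0, 0, 6, 3, 4, 3, 7]
    chq := [(0, 2), (2, 0), (2, 5), (5, 2)]
    rng := [(0, 1), (0, 5), (1, 0), (1, 2), (1, 6), (1, 9), (2, 1), (2, 3), (3, 2), (3, 7), (4, 5), (4,
      6), (5, 0), (5, 4), (6, 1), (6, 4), (7, 3), (7, 8), (8, 7), (8, 9), (9, 1), (9, 8)]
    lev := [] }
  links := [[1, 2, 7, 8], [2, 0, 8, 9, 10], [7, 0, 1, 10, 3, 11, 12], [11, 2, 10, 4, 6, 13], [6, 3, 10,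
    14, 5], [6, 4, 14, 15], [13, 3, 4, 5, 15, 16, 8]]
  P := {
    a := 7
    N := 17
    nb := [390, 1797, 7307, 11348, 17512, 49232, 106808, 4357, 74435, 1282, 16926, 12300, 2180, 2376,
      33840, 82016, 33088]
    tri := [(0, 1, 2), (0, 1, 8), (0, 2, 7), (0, 7, 8), (1, 2, 10), (1, 8, 9), (1, 9, 10), (2, 3, 10),
      (2, 3, 11), (2, 7, 12), (2, 11, 12), (3, 4, 6), (3, 4, 10), (3, 6, 13), (3, 11, 13), (4, 5,
      6), (4, 5, 14), (4, 10, 14), (5, 6, 15), (5, 14, 15), (6, 8, 13), (6, 8, 16), (6, 15, 16)]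
    fin := [0, 0, 0, 3, 3, 3, 6, 0, 8, 9, 3, 3, 12, 6, 14, 6, 16]
    chd := [(0, 3), (0, 9)]
    steps := [(0, 1), (0, 2), (0, 7), (3, 4), (3, 5), (3, 10), (3, 11), (6, 15), (6, 13)] }
  rep := [3, 8, 0, 6, 14, 9, 12, 16]

noncomputable def v1613 : Cov.CovD where
  P := 3
  N := 5
  pl := [1, 5, 7, 9]
  lev := [⟨[], [], [], [1], [(0, 2, [0, 5])]⟩,
    ⟨[], [(0, 0), (0, 2), (0, 5)], [(0, 5)], [1], [(2, 5, [2]), (3, 0, [2])]⟩,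
    ⟨[(0, 1)], [(0, 0), (0, 2), (1, 0), (1, 2), (1, 5)], [(0, 0), (0, 2)], [6], [(0, 2, [0,
      5]), (3, 0, [2]), (4, 0, [2])]⟩,
    ⟨[(0, 2), (1, 2)], [(1, 0), (2, 0), (2, 2), (2, 3)], [(0, 0), (0, 3)], [], [(3, 0,
      [2]), (4, 0, [2]), (6, 3, [])]⟩,
    ⟨[(2, 3)], [(1, 0), (2, 0), (3, 0), (3, 3)], [], [4], [(3, 0, [2])]⟩,
    ⟨[(3, 4)], [(4, 0), (4, 3)], [], [4], [(8, 3, [])]⟩,
    ⟨[(2, 3), (3, 4), (3, 5), (4, 5)], [(3, 0), (3, 3), (4, 0), (4, 3), (5, 3)], [(3, 3)],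
      [1, 7], [(6, 3, []), (8, 3, [])]⟩]
  Ta := [((3, 2), 0, 5), ((3, 7), 0, 4), ((4, 5), 0, 6), ((4, 6), 0, 3), ((6, 1), 3, 1), ((6, 4),
    3, 0), ((8, 7), 3, 4), ((8, 9), 3, 7)]
  Tb := [((0, 1, 5), 2, 1, 6), ((1, 0, 2), 1, 2, 5), ((1, 0, 6), 1, 2, 3), ((1, 0, 9), 1, 2, 7),
    ((1, 2, 6), 1, 5, 3), ((1, 2, 9), 1, 5, 7), ((1, 6, 9), 1, 3, 7), ((2, 1, 3), 5, 1, 0),
    ((3, 2, 7), 0, 5, 4), ((4, 5, 6), 0, 6, 3), ((5, 0, 4), 6, 2, 0), ((6, 1, 4), 3, 1, 0),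
    ((7, 3, 8), 4, 0, 3), ((8, 7, 9), 3, 4, 7), ((9, 1, 8), 7, 1, 3)]
  Tc := [(2, 0, 5)]
  Td := [((0, 2), (3, 2), 5), ((0, 2), (3, 7), 4), ((0, 2), (4, 5), 6), ((0, 2), (4, 6), 3), ((2,
    0), (0, 1), 1), ((2, 0), (0, 5), 6), ((2, 5), (0, 1), 1), ((2, 5), (0, 5), 6), ((5, 2),
    (2, 1), 1), ((5, 2), (2, 3), 0)]
  G := [[0, 0xc2e1aea946ec52e658ac24, 0x912d18a914518c614, 0xd5591c2d8d162c451d83c2d4d1a2c8c,
    0xc592d994699345158aca48], [0, 0x6e3ce9a44e3e2edc2c28, 0xd182d128d148e18,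
    0xd1d2a4d1d268cd2d1c2d1d268cc1, 0xd1d2a4d1d2a4a48], [0, 0xe12e146e21e81ac24,
    0x512d146914518ca18, 0xd1d1c2d1d162c18, 0xd12d14691c25518ca48], [0, 0xe1e1a4e1e1c2c24,
    0xd224d182d148e14, 0xd2d1c2d1d2c2c18, 0xd1d2a4d1d168a18]]

noncomputable def n1613 : Ent := ⟨e1613, noF, [], [], []⟩

def c1613 : PLift (Cov.check n1613.C.D v1613 = true) := ⟨by decide +kernel⟩

def b1613 : PLift (entF (fidx ts) 400 1613 n1613 = true) := ⟨by decide +kernel⟩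

theorem g1613 : GoodF (fidx ts) 400 1613 := GoodF.ofV v1613 n1613 c1613.down b1613.down

/-- 4576547:1350/5 -/
noncomputable def e1614 : SCfg where
  D := {
    a := 7
    L := 10
    kp := 7
    inn := [(0, 1), (0, 2), (1, 0), (1, 2), (2, 0), (2, 1), (2, 3), (3, 2), (3, 4), (3, 6), (4, 3), (4,
      5), (4, 6), (5, 4), (5, 6), (6, 3), (6, 4), (6, 5)]
    mix := [(0, 0), (0, 1), (1, 1), (1, 2), (1, 3), (2, 0), (2, 3), (2, 4), (2, 5), (3, 3), (3, 4), (3,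
      6), (4, 2), (4, 3), (5, 2), (5, 7), (6, 6), (6, 7), (6, 8), (6, 9)]
    cl := [4, 2, 1, 0, 0, 5, 3, 3, 6, 7]
    chq := [(0, 4), (1, 4), (4, 0), (4, 1)]
    rng := [(0, 1), (0, 5), (1, 0), (1, 2), (2, 1), (2, 3), (2, 7), (3, 2), (4, 5), (4, 6), (5, 0), (5,
      4), (6, 4), (6, 9), (7, 2), (7, 8), (8, 7), (8, 9), (9, 6), (9, 8)]
    lev := [] }
  links := [[1, 2, 7, 8], [2, 0, 8, 9, 10], [7, 0, 1, 10, 3, 11, 12], [11, 2, 10, 4, 6, 13], [6, 3, 10,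
    9, 5], [6, 4, 9, 14], [13, 3, 4, 5, 14, 15, 16]]
  P := {
    a := 7
    N := 17
    nb := [390, 1797, 7307, 11348, 1640, 16976, 122936, 4357, 643, 17714, 542, 12300, 2180, 67656,
      33376, 81984, 41024]
    tri := [(0, 1, 2), (0, 1, 8), (0, 2, 7), (0, 7, 8), (1, 2, 10), (1, 8, 9), (1, 9, 10), (2, 3, 10),
      (2, 3, 11), (2, 7, 12), (2, 11, 12), (3, 4, 6), (3, 4, 10), (3, 6, 13), (3, 11, 13), (4, 5,
      6), (4, 5, 9), (4, 9, 10), (5, 6, 14), (5, 9, 14), (6, 13, 16), (6, 14, 15), (6, 15, 16)]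
    fin := [0, 0, 2, 3, 3, 3, 6, 0, 8, 3, 2, 2, 12, 6, 6, 15, 16]
    chd := [(0, 2), (0, 3)]
    steps := [(0, 1), (0, 7), (2, 10), (2, 11), (3, 4), (3, 5), (3, 9), (6, 14), (6, 13)] }
  rep := [2, 3, 8, 6, 0, 12, 15, 16]

noncomputable def v1614 : Cov.CovD where
  P := 3
  N := 5
  pl := [1, 5, 8, 9]
  lev := [⟨[], [], [], [2], [(0, 4, [0, 1])]⟩,
    ⟨[], [(0, 0), (0, 1), (0, 4)], [(0, 1)], [2], [(2, 1, [4]), (3, 0, [4])]⟩,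
    ⟨[(0, 1)], [(0, 0), (0, 4), (1, 0), (1, 1), (1, 4)], [(0, 0), (0, 4)], [5], [(0, 4, [0,
      1]), (3, 0, [4]), (4, 0, [4])]⟩,
    ⟨[(0, 2), (1, 2)], [(1, 0), (2, 0), (2, 3), (2, 4)], [(0, 0), (0, 3)], [], [(3, 0,
      [4]), (4, 0, [4]), (6, 3, [])]⟩,
    ⟨[(2, 3)], [(1, 0), (1, 1), (2, 0), (3, 0), (3, 1), (3, 3)], [(0, 1)], [], [(2, 1,
      [4]), (3, 0, [4])]⟩,
    ⟨[(3, 4)], [(1, 1), (4, 0), (4, 1), (4, 3)], [(1, 3)], [], [(2, 1, [4]), (7, 3, [])]⟩,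
    ⟨[(2, 3), (3, 4), (3, 5), (4, 5)], [(3, 0), (3, 3), (4, 0), (4, 1), (4, 3), (5, 1), (5,
      3)], [(3, 3)], [6, 7], [(6, 3, []), (7, 3, [])]⟩]
  Ta := [((3, 2), 0, 1), ((4, 5), 0, 5), ((4, 6), 0, 3), ((6, 4), 3, 0), ((6, 9), 3, 7), ((7, 2),
    3, 1), ((7, 8), 3, 6)]
  Tb := [((0, 1, 5), 4, 2, 5), ((1, 0, 2), 2, 4, 1), ((2, 1, 3), 1, 2, 0), ((2, 1, 7), 1, 2, 3),
    ((2, 3, 7), 1, 0, 3), ((4, 5, 6), 0, 5, 3), ((5, 0, 4), 5, 4, 0), ((6, 4, 9), 3, 0, 7),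
    ((7, 2, 8), 3, 1, 6), ((8, 7, 9), 6, 3, 7), ((9, 6, 8), 7, 3, 6)]
  Tc := [(4, 0, 1)]
  Td := [((0, 4), (3, 2), 1), ((0, 4), (4, 5), 5), ((0, 4), (4, 6), 3), ((1, 4), (2, 1), 2), ((1,
    4), (2, 3), 0), ((1, 4), (2, 7), 3), ((4, 0), (0, 1), 2), ((4, 0), (0, 5), 5), ((4, 1),
    (0, 1), 2), ((4, 1), (0, 5), 5)]
  G := [[0, 0x49c2b84684d24784ab24728c689, 0xf142f142b14718ce82, 0xf842f842b14718ce81,
    0xf842f182b14718ce81], [0, 0xf34e42b2d46822d9668e81, 0xf184f148f184e82,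
    0xf184f182f184e41, 0xf184f148f148e81], [0, 0, 0xf142f4822491c718ce82,
    0xf142f142a41618184ee41, 0xf142f142c1218218d14e283], [0, 0, 0xf184f148f148e82,
    0xf142f148f184e41, 0xf184f148f148e81]]

noncomputable def n1614 : Ent := ⟨e1614, noF, [], [], [(8, 14, [1685382413448253767852309107433119732572617628602273068445371506689, 0])]⟩

def c1614 : PLift (Cov.check n1614.C.D v1614 = true) := ⟨by decide +kernel⟩

def b1614 : PLift (entF (fidx ts) 400 1614 n1614 = true) := ⟨by decide +kernel⟩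

theorem g1614 : GoodF (fidx ts) 400 1614 := GoodF.ofV v1614 n1614 c1614.down b1614.down

/-- 4576547:1350 -/
noncomputable def e1615 : SCfg where
  D := {
    a := 7
    L := 11
    kp := 8
    inn := [(0, 1), (0, 2), (1, 0), (1, 2), (2, 0), (2, 1), (2, 3), (3, 2), (3, 4), (3, 6), (4, 3), (4,
      5), (4, 6), (5, 4), (5, 6), (6, 3), (6, 4), (6, 5)]
    mix := [(0, 0), (0, 1), (1, 1), (1, 2), (1, 3), (2, 0), (2, 3), (2, 4), (2, 5), (3, 3), (3, 4), (3,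
      6), (4, 3), (4, 7), (5, 7), (5, 8), (6, 6), (6, 8), (6, 9), (6, 10)]
    cl := [1, 2, 5, 0, 0, 6, 3, 4, 3, 7, 8]
    chq := [(0, 1), (1, 0), (1, 5), (5, 1)]
    rng := [(0, 1), (0, 5), (1, 0), (1, 2), (2, 1), (2, 3), (3, 2), (3, 7), (4, 5), (4, 6), (5, 0), (5,
      4), (6, 4), (6, 10), (7, 3), (7, 8), (8, 7), (8, 9), (9, 8), (9, 10), (10, 6), (10, 9)]
    lev := [] }
  links := [[1, 2, 7, 8], [2, 0, 8, 9, 10], [7, 0, 1, 10, 3, 11, 12], [11, 2, 10, 4, 6, 13], [6, 3, 10,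
    14, 5], [6, 4, 14, 15], [13, 3, 4, 5, 15, 16, 17]]
  P := {
    a := 7
    N := 18
    nb := [390, 1797, 7307, 11348, 17512, 49232, 237624, 4357, 643, 1282, 16926, 12300, 2180, 133192,
      33840, 82016, 163904, 73792]
    tri := [(0, 1, 2), (0, 1, 8), (0, 2, 7), (0, 7, 8), (1, 2, 10), (1, 8, 9), (1, 9, 10), (2, 3, 10),
      (2, 3, 11), (2, 7, 12), (2, 11, 12), (3, 4, 6), (3, 4, 10), (3, 6, 13), (3, 11, 13), (4, 5,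
      6), (4, 5, 14), (4, 10, 14), (5, 6, 15), (5, 14, 15), (6, 13, 17), (6, 15, 16), (6, 16, 17)]
    fin := [0, 0, 0, 3, 3, 3, 6, 0, 8, 9, 3, 3, 12, 6, 14, 6, 16, 17]
    chd := [(0, 3), (0, 9)]
    steps := [(0, 1), (0, 2), (0, 7), (3, 4), (3, 5), (3, 10), (3, 11), (6, 15), (6, 13)] }
  rep := [3, 0, 8, 6, 14, 9, 12, 16, 17]

noncomputable def v1615 : Cov.CovD where
  P := 3
  N := 6
  pl := [1, 5, 7, 9, 10]
  lev := [⟨[], [], [], [2], [(0, 1, [0, 5])]⟩,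
    ⟨[], [(0, 0), (0, 1), (0, 5)], [(0, 5)], [2], [(2, 5, [1]), (3, 0, [1])]⟩,
    ⟨[(0, 1)], [(0, 0), (0, 1), (1, 0), (1, 1), (1, 5)], [(0, 0), (0, 1)], [6], [(0, 1, [0,
      5]), (3, 0, [1]), (4, 0, [1])]⟩,
    ⟨[(0, 2), (1, 2)], [(1, 0), (2, 0), (2, 1), (2, 3)], [(0, 0), (0, 3)], [], [(3, 0,
      [1]), (4, 0, [1]), (6, 3, [])]⟩,
    ⟨[(2, 3)], [(1, 0), (2, 0), (3, 0), (3, 3)], [], [4], [(3, 0, [1])]⟩,
    ⟨[(3, 4)], [(4, 0), (4, 3)], [], [4], [(8, 3, [])]⟩,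
    ⟨[(2, 3), (3, 4), (3, 5), (4, 5)], [(3, 0), (3, 3), (4, 0), (4, 3), (5, 3)], [(3, 3)],
      [7, 8], [(6, 3, []), (8, 3, [])]⟩]
  Ta := [((3, 2), 0, 5), ((3, 7), 0, 4), ((4, 5), 0, 6), ((4, 6), 0, 3), ((6, 4), 3, 0), ((6,
    10), 3, 8), ((8, 7), 3, 4), ((8, 9), 3, 7)]
  Tb := [((0, 1, 5), 1, 2, 6), ((1, 0, 2), 2, 1, 5), ((2, 1, 3), 5, 2, 0), ((3, 2, 7), 0, 5, 4),
    ((4, 5, 6), 0, 6, 3), ((5, 0, 4), 6, 1, 0), ((6, 4, 10), 3, 0, 8), ((7, 3, 8), 4, 0, 3),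
    ((8, 7, 9), 3, 4, 7), ((9, 8, 10), 7, 3, 8), ((10, 6, 9), 8, 3, 7)]
  Tc := [(1, 0, 5)]
  Td := [((0, 1), (3, 2), 5), ((0, 1), (3, 7), 4), ((0, 1), (4, 5), 6), ((0, 1), (4, 6), 3), ((1,
    0), (0, 1), 2), ((1, 0), (0, 5), 6), ((1, 5), (0, 1), 2), ((1, 5), (0, 5), 6), ((5, 1),
    (2, 1), 2), ((5, 1), (2, 3), 0)]
  G := [[0, 0x2142f12f18af12d146e14, 0xf2945af4923c6da3d167758ac24,
    0xd63d1ab42194e6df52f758acdf92f4b1c6fd527f58acc1, 0xf2d1af4b1c6fd52f758ac21], [0,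
    0xf1f1c2f1f1a4614, 0xf1e35efa44f5b3fdc2c28,
    0x7f3df9a42f35d2b6882cc4f5a31efc2b2446f194cacc1, 0x57fb8f9a4361ef8f9c2c28], [0,
    0xf184f14218af14d18ce14, 0xd12b16856f1231c89ac28, 0xf12f146f12f18ac14,
    0xf12f146f12f18ac18], [0, 0xf124f182f148e18, 0xf1f1a4f1f1c2c24, 0xf1f1c2f1f168c14,
    0xf1f1a4f1f168c21]]

noncomputable def n1615 : Ent := ⟨e1615, noF, [], [], [(8, 15, [7334790850167413569773436004105379185503274260204390087403942011252737, 0]), (8, 16, [7334685537875745012586738086077695515070955365108989538292687700279297, 0]), (8, 17, [6903326391201334775872065844685381424292761054348340378595029936295937, 0]), (9, 14, [7334790875878422277917280412776772662961875900559637987928627376087041, 0])]⟩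

def c1615 : PLift (Cov.check n1615.C.D v1615 = true) := ⟨by decide +kernel⟩

def b1615 : PLift (entF (fidx ts) 400 1615 n1615 = true) := ⟨by decide +kernel⟩

theorem g1615 : GoodF (fidx ts) 400 1615 := GoodF.ofV v1615 n1615 c1615.down b1615.down

/-- 4847456:1351/1 -/
noncomputable def e1616 : SCfg where
  D := {
    a := 7
    L := 10
    kp := 7
    inn := [(0, 1), (1, 0), (1, 2), (1, 3), (1, 6), (2, 1), (2, 6), (3, 1), (3, 4), (3, 5), (3, 6), (4,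
      3), (4, 5), (5, 3), (5, 4), (6, 1), (6, 2), (6, 3)]
    mix := [(0, 0), (0, 1), (0, 2), (1, 0), (1, 2), (1, 3), (1, 4), (2, 3), (2, 5), (3, 4), (3, 6), (3,
      7), (4, 1), (4, 6), (5, 1), (5, 7), (5, 8), (6, 5), (6, 6), (6, 9)]
    cl := [0, 1, 5, 0, 2, 4, 3, 3, 7, 6]
    chq := [(2, 4), (2, 6), (4, 2), (6, 2)]
    rng := [(0, 1), (0, 4), (1, 0), (1, 2), (1, 6), (1, 8), (2, 1), (2, 3), (3, 2), (3, 5), (4, 0), (4,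
      7), (5, 3), (5, 9), (6, 1), (6, 9), (7, 4), (7, 8), (8, 1), (8, 7), (9, 5), (9, 6)]
    lev := [] }
  links := [[1, 7, 8, 9], [7, 0, 9, 10, 2, 6, 3, 11], [6, 1, 10, 12], [11, 1, 6, 13, 4, 5, 14], [5, 3,
    13, 8], [14, 3, 4, 8, 15], [13, 3, 1, 2, 12, 16]]
  P := {
    a := 7
    N := 17
    nb := [898, 3789, 5186, 26738, 8488, 49432, 77838, 2307, 41649, 1283, 4614, 16522, 66628, 65880,
      34856, 16672, 12352]
    tri := [(0, 1, 7), (0, 1, 9), (0, 7, 8), (0, 8, 9), (1, 2, 6), (1, 2, 10), (1, 3, 6), (1, 3, 11),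
      (1, 7, 11), (1, 9, 10), (2, 6, 12), (2, 10, 12), (3, 4, 5), (3, 4, 13), (3, 5, 14), (3, 6,
      13), (3, 11, 14), (4, 5, 8), (4, 8, 13), (5, 8, 15), (5, 14, 15), (6, 12, 16), (6, 13, 16)]
    fin := [0, 0, 0, 3, 4, 4, 3, 0, 8, 9, 0, 3, 12, 4, 4, 15, 16]
    chd := [(3, 12), (3, 16)]
    steps := [(0, 1), (0, 2), (0, 7), (0, 10), (3, 6), (3, 11), (4, 5), (4, 13), (4, 14)] }
  rep := [0, 8, 3, 4, 12, 9, 16, 15]

noncomputable def v1616 : Cov.CovD where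
  P := 3
  N := 5
  pl := [1, 2, 8]
  lev := [⟨[], [], [], [1, 5], [(0, 0, [])]⟩,
    ⟨[], [(0, 0), (0, 2)], [(0, 0), (0, 2)], [5], [(0, 0, []), (3, 0, []), (4, 2, [4, 6])]⟩,
    ⟨[(0, 1)], [(1, 0), (1, 2), (1, 4)], [(0, 4)], [], [(3, 0, []), (5, 4, [2])]⟩,
    ⟨[(0, 1), (1, 2)], [(1, 0), (1, 2), (1, 3)], [(2, 3), (3, 3)], [], [(4, 2, [4, 6]), (6,
      3, []), (7, 3, [])]⟩,
    ⟨[(1, 3)], [(3, 2), (3, 3)], [], [1], [(6, 3, [])]⟩,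
    ⟨[(1, 3), (3, 4)], [(3, 2), (3, 3), (4, 3)], [], [1, 7], [(7, 3, [])]⟩,
    ⟨[(0, 1), (1, 2), (1, 3), (2, 3), (3, 4), (3, 5)], [(1, 0), (1, 2), (1, 3), (1, 4), (1,
      6), (2, 0), (2, 3), (2, 4), (2, 6), (3, 2), (3, 3), (3, 4), (3, 6), (4, 3)], [(3, 4),
      (3, 6), (4, 6)], [], [(5, 4, [2]), (6, 3, []), (9, 6, [2])]⟩]
  Ta := [((0, 1), 0, 1), ((0, 4), 0, 2), ((3, 2), 0, 5), ((3, 5), 0, 4), ((6, 1), 3, 1), ((6, 9),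
    3, 6), ((7, 4), 3, 2), ((7, 8), 3, 7)]
  Tb := [((0, 1, 4), 0, 1, 2), ((1, 0, 2), 1, 0, 5), ((1, 0, 6), 1, 0, 3), ((1, 0, 8), 1, 0, 7),
    ((1, 2, 6), 1, 5, 3), ((1, 2, 8), 1, 5, 7), ((1, 6, 8), 1, 3, 7), ((2, 1, 3), 5, 1, 0),
    ((3, 2, 5), 0, 5, 4), ((4, 0, 7), 2, 0, 3), ((5, 3, 9), 4, 0, 6), ((6, 1, 9), 3, 1, 6),
    ((7, 4, 8), 3, 2, 7), ((8, 1, 7), 7, 1, 3), ((9, 5, 6), 6, 4, 3)]
  Tc := [(2, 4, 6)]
  Td := [((2, 4), (4, 0), 0), ((2, 4), (4, 7), 3), ((2, 6), (4, 0), 0), ((2, 6), (4, 7), 3), ((4,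
    2), (5, 3), 0), ((4, 2), (5, 9), 6), ((6, 2), (9, 5), 4), ((6, 2), (9, 6), 3)]
  G := [[0, 0x22a211822c2114c, 0x1158181a141181cc21158184a11c411c1aa4c, 0x214241518218281914c,
    0x414445431841444c4312c], [0, 0x222e4118222e4114c, 0x111d42111d1268111d42111d82a4c,
    0x22c1229451822c12254914c, 0x444d8218444d1212c], [0, 0, 0,
    0x21424154821422c19842142415821828194cd, 0x584141444436841484811a24142848417188cad], [0,
    0, 0, 0x73c84158769872822c4218931c4111b254ba4c, 0x373d4248449128844944c244c144589a2d]]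

noncomputable def n1616 : Ent := ⟨e1616, noF, [], [], []⟩

def c1616 : PLift (Cov.check n1616.C.D v1616 = true) := ⟨by decide +kernel⟩

def b1616 : PLift (entF (fidx ts) 400 1616 n1616 = true) := ⟨by decide +kernel⟩

theorem g1616 : GoodF (fidx ts) 400 1616 := GoodF.ofV v1616 n1616 c1616.down b1616.down

/-- 4847456:1351/2 -/
noncomputable def e1617 : SCfg where
  D := {
    a := 7
    L := 10
    kp := 7
    inn := [(0, 1), (1, 0), (1, 2), (1, 3), (1, 6), (2, 1), (2, 6), (3, 1), (3, 4), (3, 5), (3, 6), (4,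
      3), (4, 5), (5, 3), (5, 4), (6, 1), (6, 2), (6, 3)]
    mix := [(0, 0), (0, 1), (0, 2), (1, 0), (1, 2), (1, 3), (1, 4), (2, 3), (2, 5), (3, 4), (3, 6), (3,
      7), (4, 6), (4, 8), (5, 1), (5, 7), (5, 8), (6, 5), (6, 6), (6, 9)]
    cl := [0, 2, 5, 0, 1, 4, 3, 3, 6, 7]
    chq := [(1, 4), (1, 7), (4, 1), (7, 1)]
    rng := [(0, 1), (0, 4), (1, 0), (1, 2), (1, 7), (1, 8), (2, 1), (2, 3), (3, 2), (3, 5), (4, 0), (4,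
      7), (5, 3), (5, 9), (6, 8), (6, 9), (7, 1), (7, 4), (8, 1), (8, 6), (9, 5), (9, 6)]
    lev := [] }
  links := [[1, 7, 8, 9], [7, 0, 9, 10, 2, 6, 3, 11], [6, 1, 10, 12], [11, 1, 6, 13, 4, 5, 14], [5, 3,
    13, 15], [14, 3, 4, 15, 8], [13, 3, 1, 2, 12, 16]]
  P := {
    a := 7
    N := 17
    nb := [898, 3789, 5186, 26738, 41000, 49432, 77838, 2307, 49825, 1283, 4614, 16522, 66628, 98392,
      2344, 8496, 12352]
    tri := [(0, 1, 7), (0, 1, 9), (0, 7, 8), (0, 8, 9), (1, 2, 6), (1, 2, 10), (1, 3, 6), (1, 3, 11),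
      (1, 7, 11), (1, 9, 10), (2, 6, 12), (2, 10, 12), (3, 4, 5), (3, 4, 13), (3, 5, 14), (3, 6,
      13), (3, 11, 14), (4, 5, 15), (4, 13, 15), (5, 8, 14), (5, 8, 15), (6, 12, 16), (6, 13, 16)]
    fin := [0, 0, 0, 3, 4, 4, 3, 0, 8, 9, 0, 3, 12, 4, 4, 15, 16]
    chd := [(3, 12), (3, 16)]
    steps := [(0, 1), (0, 2), (0, 7), (0, 10), (3, 6), (3, 11), (4, 5), (4, 13), (4, 14)] }
  rep := [0, 3, 8, 4, 12, 9, 15, 16]

noncomputable def v1617 : Cov.CovD where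
  P := 3
  N := 5
  pl := [1, 2, 8]
  lev := [⟨[], [], [], [2, 5], [(0, 0, [])]⟩,
    ⟨[], [(0, 0), (0, 1)], [(0, 0), (0, 1)], [5], [(0, 0, []), (3, 0, []), (4, 1, [4, 7])]⟩,
    ⟨[(0, 1)], [(1, 0), (1, 1), (1, 4)], [(0, 4)], [], [(3, 0, []), (5, 4, [1])]⟩,
    ⟨[(0, 1), (1, 2)], [(1, 0), (1, 1), (1, 3)], [(1, 3), (3, 3)], [], [(4, 1, [4, 7]), (6,
      3, []), (7, 3, [])]⟩,
    ⟨[(1, 3)], [(3, 1), (3, 3)], [], [6], [(6, 3, [])]⟩,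
    ⟨[(1, 3), (3, 4)], [(3, 1), (3, 3), (4, 3)], [], [2, 6], [(7, 3, [])]⟩,
    ⟨[(0, 1), (1, 2), (1, 3), (2, 3), (3, 4), (3, 5)], [(1, 0), (1, 1), (1, 3), (1, 4), (1,
      7), (2, 0), (2, 3), (2, 4), (2, 7), (3, 1), (3, 3), (3, 4), (3, 7), (4, 3)], [(3, 4),
      (3, 7), (4, 7)], [], [(5, 4, [1]), (6, 3, []), (9, 7, [1])]⟩]
  Ta := [((0, 1), 0, 2), ((0, 4), 0, 1), ((3, 2), 0, 5), ((3, 5), 0, 4), ((6, 8), 3, 6), ((6, 9),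
    3, 7), ((7, 1), 3, 2), ((7, 4), 3, 1)]
  Tb := [((0, 1, 4), 0, 2, 1), ((1, 0, 2), 2, 0, 5), ((1, 0, 7), 2, 0, 3), ((1, 0, 8), 2, 0, 6),
    ((1, 2, 7), 2, 5, 3), ((1, 2, 8), 2, 5, 6), ((1, 7, 8), 2, 3, 6), ((2, 1, 3), 5, 2, 0),
    ((3, 2, 5), 0, 5, 4), ((4, 0, 7), 1, 0, 3), ((5, 3, 9), 4, 0, 7), ((6, 8, 9), 3, 6, 7),
    ((7, 1, 4), 3, 2, 1), ((8, 1, 6), 6, 2, 3), ((9, 5, 6), 7, 4, 3)]
  Tc := [(1, 4, 7)]
  Td := [((1, 4), (4, 0), 0), ((1, 4), (4, 7), 3), ((1, 7), (4, 0), 0), ((1, 7), (4, 7), 3), ((4,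
    1), (5, 3), 0), ((4, 1), (5, 9), 7), ((7, 1), (9, 5), 4), ((7, 1), (9, 6), 3)]
  G := [[0, 0x18113218113268181132141132a4c, 0x22a111822c1114c, 0x28216242835182421a24285914c,
    0x28226418282221b414a], [0, 0x11c218119611c21811966811c214113a119214119aa4c,
    0x222e1118222e1114a, 0x242293229451824222da2258914c, 0x2822a2821c5182822a2221c514a], [0,
    0, 0, 0x288242835245218289568244282439a128a421286242582421a2428594cd,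
    0x214438726468882a48a282228b421226212269c49], [0, 0, 0,
    0x72c34a441157861a728282225892bbd1868a42258144d,
    0x229417872a4682821c1812482c2822a2294528229522389c4b]]

noncomputable def n1617 : Ent := ⟨e1617, noF, [], [], []⟩

def c1617 : PLift (Cov.check n1617.C.D v1617 = true) := ⟨by decide +kernel⟩

def b1617 : PLift (entF (fidx ts) 400 1617 n1617 = true) := ⟨by decide +kernel⟩

theorem g1617 : GoodF (fidx ts) 400 1617 := GoodF.ofV v1617 n1617 c1617.down b1617.down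

/-- 4847456:1351 -/
noncomputable def e1618 : SCfg where
  D := {
    a := 7
    L := 11
    kp := 8
    inn := [(0, 1), (1, 0), (1, 2), (1, 3), (1, 6), (2, 1), (2, 6), (3, 1), (3, 4), (3, 5), (3, 6), (4,
      3), (4, 5), (5, 3), (5, 4), (6, 1), (6, 2), (6, 3)]
    mix := [(0, 0), (0, 1), (0, 2), (1, 0), (1, 2), (1, 3), (1, 4), (2, 3), (2, 5), (3, 4), (3, 6), (3,
      7), (4, 6), (4, 8), (5, 7), (5, 8), (5, 9), (6, 5), (6, 6), (6, 10)]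
    cl := [0, 7, 2, 0, 1, 4, 3, 3, 5, 8, 6]
    chq := [(1, 4), (1, 6), (4, 1), (6, 1)]
    rng := [(0, 1), (0, 4), (1, 0), (1, 2), (2, 1), (2, 3), (3, 2), (3, 5), (4, 0), (4, 7), (5, 3), (5,
      10), (6, 8), (6, 10), (7, 4), (7, 9), (8, 6), (8, 9), (9, 7), (9, 8), (10, 5), (10, 6)]
    lev := [] }
  links := [[1, 7, 8, 9], [7, 0, 9, 10, 2, 6, 3, 11], [6, 1, 10, 12], [11, 1, 6, 13, 4, 5, 14], [5, 3,
    13, 15], [14, 3, 4, 15, 16], [13, 3, 1, 2, 12, 17]]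
  P := {
    a := 7
    N := 18
    nb := [898, 3789, 5186, 26738, 41000, 114712, 143374, 2307, 641, 1283, 4614, 16522, 132164,
      163928, 67624, 73776, 49184, 12352]
    tri := [(0, 1, 7), (0, 1, 9), (0, 7, 8), (0, 8, 9), (1, 2, 6), (1, 2, 10), (1, 3, 6), (1, 3, 11),
      (1, 7, 11), (1, 9, 10), (2, 6, 12), (2, 10, 12), (3, 4, 5), (3, 4, 13), (3, 5, 14), (3, 6,
      13), (3, 11, 14), (4, 5, 15), (4, 13, 15), (5, 14, 16), (5, 15, 16), (6, 12, 17), (6, 13,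
      17)]
    fin := [0, 0, 0, 3, 4, 4, 3, 0, 8, 9, 0, 3, 12, 4, 4, 15, 16, 17]
    chd := [(3, 12), (3, 17)]
    steps := [(0, 1), (0, 2), (0, 7), (0, 10), (3, 6), (3, 11), (4, 5), (4, 13), (4, 14)] }
  rep := [0, 3, 9, 4, 12, 15, 17, 8, 16]

noncomputable def v1618 : Cov.CovD where
  P := 3
  N := 6
  pl := [1, 2, 8, 9]
  lev := [⟨[], [], [], [2, 7], [(0, 0, [])]⟩,
    ⟨[], [(0, 0), (0, 1)], [(0, 0), (0, 1)], [2], [(0, 0, []), (3, 0, []), (4, 1, [4, 6])]⟩,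
    ⟨[(0, 1)], [(1, 0), (1, 1), (1, 4)], [(0, 4)], [], [(3, 0, []), (5, 4, [1])]⟩,
    ⟨[(0, 1), (1, 2)], [(1, 0), (1, 1), (1, 3)], [(1, 3), (3, 3)], [], [(4, 1, [4, 6]), (6,
      3, []), (7, 3, [])]⟩,
    ⟨[(1, 3)], [(3, 1), (3, 3)], [], [5], [(6, 3, [])]⟩,
    ⟨[(1, 3), (3, 4)], [(3, 1), (3, 3), (4, 3)], [], [5, 8], [(7, 3, [])]⟩,
    ⟨[(0, 1), (1, 2), (1, 3), (2, 3), (3, 4), (3, 5)], [(1, 0), (1, 1), (1, 3), (1, 4), (1,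
      6), (2, 0), (2, 3), (2, 4), (2, 6), (3, 1), (3, 3), (3, 4), (3, 6), (4, 3)], [(3, 4),
      (3, 6), (4, 6)], [], [(5, 4, [1]), (6, 3, []), (10, 6, [1])]⟩]
  Ta := [((0, 1), 0, 7), ((0, 4), 0, 1), ((3, 2), 0, 2), ((3, 5), 0, 4), ((6, 8), 3, 5), ((6,
    10), 3, 6), ((7, 4), 3, 1), ((7, 9), 3, 8)]
  Tb := [((0, 1, 4), 0, 7, 1), ((1, 0, 2), 7, 0, 2), ((2, 1, 3), 2, 7, 0), ((3, 2, 5), 0, 2, 4),
    ((4, 0, 7), 1, 0, 3), ((5, 3, 10), 4, 0, 6), ((6, 8, 10), 3, 5, 6), ((7, 4, 9), 3, 1, 8),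
    ((8, 6, 9), 5, 3, 8), ((9, 7, 8), 8, 3, 5), ((10, 5, 6), 6, 4, 3)]
  Tc := [(1, 4, 6)]
  Td := [((1, 4), (4, 0), 0), ((1, 4), (4, 7), 3), ((1, 6), (4, 0), 0), ((1, 6), (4, 7), 3), ((4,
    1), (5, 3), 0), ((4, 1), (5, 10), 6), ((6, 1), (10, 5), 4), ((6, 1), (10, 6), 3)]
  G := [[0, 0x12115c181153a121159181153ac412119514861411932113111a4ce8c, 0,
    0x2122a622a2495182122a622a243518c, 0x222b21624223a5182122a622a243518a], [0,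
    0x1111f21111f4611c115911a113966814811a11396111e11341414e11a119382cc, 0,
    0x22c22287223225c91422222d32222f4518c, 0x22c2269229223c5182292224b2222f4518a], [0, 0,
    0x375e4a818a242822622c1522221286241dc822921622a252222262839c8e,
    0x2124a22a222c1d21226a2262859c41, 0x2122a622a24952252229422c1dc81], [0, 0,
    0x1475361198d37efc85cd282222f12222f89222e121222d22e9c46,
    0x2222f1222d2265222d126a2422f45c81, 0x22222d32222f452822279222d2265c81]]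

noncomputable def n1618 : Ent := ⟨e1618, noF, [], [], [(8, 15, [7334790850167413569773436004105379185503274260204390087403942011273217, 0]), (8, 16, [7334685537875745012586738086077695515070955365108989538292687700299777, 0])]⟩

def c1618 : PLift (Cov.check n1618.C.D v1618 = true) := ⟨by decide +kernel⟩

def b1618 : PLift (entF (fidx ts) 400 1618 n1618 = true) := ⟨by decide +kernel⟩

theorem g1618 : GoodF (fidx ts) 400 1618 := GoodF.ofV v1618 n1618 c1618.down b1618.down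

/-- 4847645:1352/1 -/
noncomputable def e1619 : SCfg where
  D := {
    a := 7
    L := 10
    kp := 7
    inn := [(0, 1), (1, 0), (1, 2), (1, 3), (1, 4), (2, 1), (2, 4), (3, 1), (3, 4), (3, 5), (3, 6), (4,
      1), (4, 2), (4, 3), (5, 3), (5, 6), (6, 3), (6, 5)]
    mix := [(0, 0), (0, 1), (0, 2), (1, 0), (1, 2), (1, 3), (1, 4), (2, 3), (2, 5), (3, 4), (3, 6), (3,
      7), (4, 5), (4, 6), (4, 8), (5, 7), (5, 9), (6, 1), (6, 6), (6, 9)]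
    cl := [0, 2, 5, 0, 1, 4, 3, 3, 7, 6]
    chq := [(1, 4), (1, 7), (4, 1), (7, 1)]
    rng := [(0, 1), (0, 4), (1, 0), (1, 2), (1, 6), (1, 9), (2, 1), (2, 3), (3, 2), (3, 5), (4, 0), (4,
      7), (5, 3), (5, 8), (6, 1), (6, 8), (7, 4), (7, 9), (8, 5), (8, 6), (9, 1), (9, 7)]
    lev := [] }
  links := [[1, 7, 8, 9], [7, 0, 9, 10, 2, 4, 3, 11], [4, 1, 10, 12], [11, 1, 4, 13, 6, 5, 14], [13, 3,
    1, 2, 12, 15], [14, 3, 6, 16], [16, 5, 3, 13, 8]]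
  P := {
    a := 7
    N := 17
    nb := [898, 3741, 5138, 26738, 45070, 81992, 74024, 2307, 74433, 1283, 4614, 16522, 33812, 33112,
      67624, 12304, 16736]
    tri := [(0, 1, 7), (0, 1, 9), (0, 7, 8), (0, 8, 9), (1, 2, 4), (1, 2, 10), (1, 3, 4), (1, 3, 11),
      (1, 7, 11), (1, 9, 10), (2, 4, 12), (2, 10, 12), (3, 4, 13), (3, 5, 6), (3, 5, 14), (3, 6,
      13), (3, 11, 14), (4, 12, 15), (4, 13, 15), (5, 6, 16), (5, 14, 16), (6, 8, 13), (6, 8, 16)]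
    fin := [0, 0, 0, 3, 3, 5, 5, 0, 8, 9, 0, 3, 12, 5, 5, 15, 16]
    chd := [(3, 12), (3, 15)]
    steps := [(0, 1), (0, 2), (0, 7), (0, 10), (3, 4), (3, 11), (5, 6), (5, 13), (5, 14)] }
  rep := [0, 3, 8, 5, 12, 9, 16, 15]

noncomputable def v1619 : Cov.CovD where
  P := 3
  N := 5
  pl := [1, 2, 9]
  lev := [⟨[], [], [], [2, 5], [(0, 0, [])]⟩,
    ⟨[], [(0, 0), (0, 1)], [(0, 0), (0, 1)], [5], [(0, 0, []), (3, 0, []), (4, 1, [4, 7])]⟩,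
    ⟨[(0, 1)], [(1, 0), (1, 1), (1, 4)], [(0, 4)], [], [(3, 0, []), (5, 4, [1])]⟩,
    ⟨[(0, 1), (1, 2)], [(1, 0), (1, 1), (1, 3)], [(1, 3), (3, 3)], [], [(4, 1, [4, 7]), (6,
      3, []), (7, 3, [])]⟩,
    ⟨[(0, 1), (1, 2), (1, 3), (2, 3)], [(1, 0), (1, 1), (1, 3), (1, 4), (1, 7), (2, 0), (2,
      3), (2, 4), (2, 7), (3, 1), (3, 3), (3, 4), (3, 7)], [(3, 4), (3, 7), (4, 7)], [], [(5,
      4, [1]), (6, 3, []), (8, 7, [1])]⟩,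
    ⟨[(1, 3), (3, 4)], [(3, 1), (3, 3)], [], [6], [(7, 3, [])]⟩,
    ⟨[(1, 3), (3, 4), (3, 5)], [(3, 1), (3, 3), (4, 3), (5, 3)], [], [2, 6], [(6, 3, [])]⟩]
  Ta := [((0, 1), 0, 2), ((0, 4), 0, 1), ((3, 2), 0, 5), ((3, 5), 0, 4), ((6, 1), 3, 2), ((6, 8),
    3, 7), ((7, 4), 3, 1), ((7, 9), 3, 6)]
  Tb := [((0, 1, 4), 0, 2, 1), ((1, 0, 2), 2, 0, 5), ((1, 0, 6), 2, 0, 3), ((1, 0, 9), 2, 0, 6),
    ((1, 2, 6), 2, 5, 3), ((1, 2, 9), 2, 5, 6), ((1, 6, 9), 2, 3, 6), ((2, 1, 3), 5, 2, 0),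
    ((3, 2, 5), 0, 5, 4), ((4, 0, 7), 1, 0, 3), ((5, 3, 8), 4, 0, 7), ((6, 1, 8), 3, 2, 7),
    ((7, 4, 9), 3, 1, 6), ((8, 5, 6), 7, 4, 3), ((9, 1, 7), 6, 2, 3)]
  Tc := [(1, 4, 7)]
  Td := [((1, 4), (4, 0), 0), ((1, 4), (4, 7), 3), ((1, 7), (4, 0), 0), ((1, 7), (4, 7), 3), ((4,
    1), (5, 3), 0), ((4, 1), (5, 8), 7), ((7, 1), (8, 5), 4), ((7, 1), (8, 6), 3)]
  G := [[0, 0x41914c19126813188a81514151a9214151aa4c, 0xe12118c262114c, 0xc1295c2518d12d82914c,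
    0x82a23425188262382914a], [0, 0x8431281312684131281312a4c, 0xc12118c12114c,
    0x8162849251848628432914c, 0x812e2418821b2414a], [0, 0, 0,
    0x5832942548496258298494a294258c12c16294cd, 0x283212a254882629425882832382c28323829c4b],
    [0, 0, 0, 0x8162484a181a84384ce756841a2814a2841d1416485aba4c,
    0x81172448198e2488821b249852182a14e4b]]

noncomputable def n1619 : Ent := ⟨e1619, noF, [], [], []⟩

def c1619 : PLift (Cov.check n1619.C.D v1619 = true) := ⟨by decide +kernel⟩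

def b1619 : PLift (entF (fidx ts) 400 1619 n1619 = true) := ⟨by decide +kernel⟩

theorem g1619 : GoodF (fidx ts) 400 1619 := GoodF.ofV v1619 n1619 c1619.down b1619.down

/-- 4847645:1352/3 -/
noncomputable def e1620 : SCfg where
  D := {
    a := 7
    L := 9
    kp := 6
    inn := [(0, 1), (1, 0), (1, 2), (1, 3), (1, 4), (2, 1), (2, 4), (3, 1), (3, 4), (3, 5), (3, 6), (4,
      1), (4, 2), (4, 3), (5, 3), (5, 6), (6, 3), (6, 5)]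
    mix := [(0, 0), (0, 1), (0, 2), (1, 0), (1, 2), (1, 3), (1, 4), (2, 3), (2, 5), (3, 4), (3, 6), (3,
      7), (4, 5), (4, 6), (4, 8), (5, 1), (5, 7), (6, 1), (6, 6), (6, 8)]
    cl := [0, 1, 6, 0, 2, 4, 3, 3, 5]
    chq := [(2, 4), (2, 5), (4, 2), (5, 2)]
    rng := [(0, 1), (0, 4), (1, 0), (1, 2), (1, 7), (1, 8), (2, 1), (2, 3), (3, 2), (3, 5), (4, 0), (4,
      7), (5, 3), (5, 8), (6, 8), (7, 1), (7, 4), (8, 1), (8, 5), (8, 6)]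
    lev := [] }
  links := [[1, 7, 8, 9], [7, 0, 9, 10, 2, 4, 3, 11], [4, 1, 10, 12], [11, 1, 4, 13, 6, 5, 14], [13, 3,
    1, 2, 12, 15], [14, 3, 6, 8], [8, 5, 3, 13, 15]]
  P := {
    a := 7
    N := 16
    nb := [898, 3741, 5138, 26738, 45070, 16712, 41256, 2307, 49889, 1283, 4614, 16522, 33812, 32856,
      2344, 12624]
    tri := [(0, 1, 7), (0, 1, 9), (0, 7, 8), (0, 8, 9), (1, 2, 4), (1, 2, 10), (1, 3, 4), (1, 3, 11),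
      (1, 7, 11), (1, 9, 10), (2, 4, 12), (2, 10, 12), (3, 4, 13), (3, 5, 6), (3, 5, 14), (3, 6,
      13), (3, 11, 14), (4, 12, 15), (4, 13, 15), (5, 6, 8), (5, 8, 14), (6, 8, 15), (6, 13, 15)]
    fin := [0, 0, 0, 3, 3, 5, 5, 0, 8, 9, 0, 3, 12, 5, 5, 15]
    chd := [(3, 12), (3, 15)]
    steps := [(0, 1), (0, 2), (0, 7), (0, 10), (3, 4), (3, 11), (5, 6), (5, 13), (5, 14)] }
  rep := [0, 8, 3, 5, 12, 15, 9]

noncomputable def v1620 : Cov.CovD where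
  P := 3
  N := 4
  pl := [1, 2]
  lev := [⟨[], [], [], [1, 6], [(0, 0, [])]⟩,
    ⟨[], [(0, 0), (0, 2)], [(0, 0), (0, 2)], [6], [(0, 0, []), (3, 0, []), (4, 2, [4, 5])]⟩,
    ⟨[(0, 1)], [(1, 0), (1, 2), (1, 4)], [(0, 4)], [], [(3, 0, []), (5, 4, [2])]⟩,
    ⟨[(0, 1), (1, 2)], [(1, 0), (1, 2), (1, 3)], [(2, 3), (3, 3)], [], [(4, 2, [4, 5]), (6,
      3, []), (7, 3, [])]⟩,
    ⟨[(0, 1), (1, 2), (1, 3), (2, 3)], [(1, 0), (1, 2), (1, 3), (1, 4), (1, 5), (2, 0), (2,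
      3), (2, 4), (2, 5), (3, 2), (3, 3), (3, 4), (3, 5)], [(3, 4), (3, 5), (4, 5)], [], [(5,
      4, [2]), (6, 3, []), (8, 5, [2])]⟩,
    ⟨[(1, 3), (3, 4)], [(3, 2), (3, 3)], [], [1], [(7, 3, [])]⟩,
    ⟨[(1, 3), (3, 4), (3, 5)], [(3, 2), (3, 3), (3, 5), (4, 3), (4, 5), (5, 3), (5, 5)],
      [(3, 5)], [1], [(6, 3, []), (8, 5, [2])]⟩]
  Ta := [((0, 1), 0, 1), ((0, 4), 0, 2), ((3, 2), 0, 6), ((3, 5), 0, 4), ((6, 8), 3, 5), ((7, 1),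
    3, 1), ((7, 4), 3, 2)]
  Tb := [((0, 1, 4), 0, 1, 2), ((1, 0, 2), 1, 0, 6), ((1, 0, 7), 1, 0, 3), ((1, 0, 8), 1, 0, 5),
    ((1, 2, 7), 1, 6, 3), ((1, 2, 8), 1, 6, 5), ((1, 7, 8), 1, 3, 5), ((2, 1, 3), 6, 1, 0),
    ((3, 2, 5), 0, 6, 4), ((4, 0, 7), 2, 0, 3), ((5, 3, 8), 4, 0, 5), ((7, 1, 4), 3, 1, 2),
    ((8, 1, 5), 5, 1, 4), ((8, 1, 6), 5, 1, 3), ((8, 5, 6), 5, 4, 3)]
  Tc := [(2, 4, 5)]
  Td := [((2, 4), (4, 0), 0), ((2, 4), (4, 7), 3), ((2, 5), (4, 0), 0), ((2, 5), (4, 7), 3), ((4,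
    2), (5, 3), 0), ((4, 2), (5, 8), 5), ((5, 2), (8, 1), 1), ((5, 2), (8, 5), 4), ((5, 2),
    (8, 6), 3)]
  G := [[0, 0x241128281124c, 0x181214126814121112a4c, 0xc12942518c42542914c, 0xd14218d84212c],
    [0, 0x22c112828c1124c, 0x1112418181414aa1112211141118c6c, 0x142412518182812914c,
    0x184c14318184814912c], [0, 0, 0, 0xc829825c82982568c125829c125829a4c,
    0x81484118f248d1429124146c25], [0, 0, 0, 0x1424125182c1256818281291828129a4c,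
    0x144493412348c14188481414481e9184862d]]

noncomputable def n1620 : Ent := ⟨e1620, noF, [], [], []⟩

def c1620 : PLift (Cov.check n1620.C.D v1620 = true) := ⟨by decide +kernel⟩

def b1620 : PLift (entF (fidx ts) 400 1620 n1620 = true) := ⟨by decide +kernel⟩

theorem g1620 : GoodF (fidx ts) 400 1620 := GoodF.ofV v1620 n1620 c1620.down b1620.down

/-- 4847645:1352/2 -/
noncomputable def e1621 : SCfg where
  D := {
    a := 7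
    L := 10
    kp := 7
    inn := [(0, 1), (1, 0), (1, 2), (1, 3), (1, 4), (2, 1), (2, 4), (3, 1), (3, 4), (3, 5), (3, 6), (4,
      1), (4, 2), (4, 3), (5, 3), (5, 6), (6, 3), (6, 5)]
    mix := [(0, 0), (0, 1), (0, 2), (1, 0), (1, 2), (1, 3), (1, 4), (2, 3), (2, 5), (3, 4), (3, 6), (3,
      7), (4, 5), (4, 6), (4, 8), (5, 1), (5, 7), (6, 1), (6, 6), (6, 9)]
    cl := [0, 1, 5, 0, 2, 4, 3, 3, 6, 7]
    chq := [(2, 4), (2, 6), (4, 2), (6, 2)]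
    rng := [(0, 1), (0, 4), (1, 0), (1, 2), (1, 7), (1, 9), (2, 1), (2, 3), (3, 2), (3, 5), (4, 0), (4,
      7), (5, 3), (5, 8), (6, 8), (6, 9), (7, 1), (7, 4), (8, 5), (8, 6), (9, 1), (9, 6)]
    lev := [] }
  links := [[1, 7, 8, 9], [7, 0, 9, 10, 2, 4, 3, 11], [4, 1, 10, 12], [11, 1, 4, 13, 6, 5, 14], [13, 3,
    1, 2, 12, 15], [14, 3, 6, 8], [8, 5, 3, 13, 16]]
  P := {
    a := 7
    N := 17
    nb := [898, 3741, 5138, 26738, 45070, 16712, 74024, 2307, 82657, 1283, 4614, 16522, 33812, 98392,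
      2344, 12304, 8512]
    tri := [(0, 1, 7), (0, 1, 9), (0, 7, 8), (0, 8, 9), (1, 2, 4), (1, 2, 10), (1, 3, 4), (1, 3, 11),
      (1, 7, 11), (1, 9, 10), (2, 4, 12), (2, 10, 12), (3, 4, 13), (3, 5, 6), (3, 5, 14), (3, 6,
      13), (3, 11, 14), (4, 12, 15), (4, 13, 15), (5, 6, 8), (5, 8, 14), (6, 8, 16), (6, 13, 16)]
    fin := [0, 0, 0, 3, 3, 5, 5, 0, 8, 9, 0, 3, 12, 5, 5, 15, 16]
    chd := [(3, 12), (3, 15)]
    steps := [(0, 1), (0, 2), (0, 7), (0, 10), (3, 4), (3, 11), (5, 6), (5, 13), (5, 14)] }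
  rep := [0, 8, 3, 5, 12, 9, 15, 16]

noncomputable def v1621 : Cov.CovD where
  P := 3
  N := 5
  pl := [1, 2, 9]
  lev := [⟨[], [], [], [1, 5], [(0, 0, [])]⟩,
    ⟨[], [(0, 0), (0, 2)], [(0, 0), (0, 2)], [5], [(0, 0, []), (3, 0, []), (4, 2, [4, 6])]⟩,
    ⟨[(0, 1)], [(1, 0), (1, 2), (1, 4)], [(0, 4)], [], [(3, 0, []), (5, 4, [2])]⟩,
    ⟨[(0, 1), (1, 2)], [(1, 0), (1, 2), (1, 3)], [(2, 3), (3, 3)], [], [(4, 2, [4, 6]), (6,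
      3, []), (7, 3, [])]⟩,
    ⟨[(0, 1), (1, 2), (1, 3), (2, 3)], [(1, 0), (1, 2), (1, 3), (1, 4), (1, 6), (2, 0), (2,
      3), (2, 4), (2, 6), (3, 2), (3, 3), (3, 4), (3, 6)], [(3, 4), (3, 6), (4, 6)], [], [(5,
      4, [2]), (6, 3, []), (8, 6, [2])]⟩,
    ⟨[(1, 3), (3, 4)], [(3, 2), (3, 3)], [], [1], [(7, 3, [])]⟩,
    ⟨[(1, 3), (3, 4), (3, 5)], [(3, 2), (3, 3), (4, 3), (5, 3)], [], [1, 7], [(6, 3, [])]⟩]
  Ta := [((0, 1), 0, 1), ((0, 4), 0, 2), ((3, 2), 0, 5), ((3, 5), 0, 4), ((6, 8), 3, 6), ((6, 9),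
    3, 7), ((7, 1), 3, 1), ((7, 4), 3, 2)]
  Tb := [((0, 1, 4), 0, 1, 2), ((1, 0, 2), 1, 0, 5), ((1, 0, 7), 1, 0, 3), ((1, 0, 9), 1, 0, 7),
    ((1, 2, 7), 1, 5, 3), ((1, 2, 9), 1, 5, 7), ((1, 7, 9), 1, 3, 7), ((2, 1, 3), 5, 1, 0),
    ((3, 2, 5), 0, 5, 4), ((4, 0, 7), 2, 0, 3), ((5, 3, 8), 4, 0, 6), ((6, 8, 9), 3, 6, 7),
    ((7, 1, 4), 3, 1, 2), ((8, 5, 6), 6, 4, 3), ((9, 1, 6), 7, 1, 3)]
  Tc := [(2, 4, 6)]
  Td := [((2, 4), (4, 0), 0), ((2, 4), (4, 7), 3), ((2, 6), (4, 0), 0), ((2, 6), (4, 7), 3), ((4,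
    2), (5, 3), 0), ((4, 2), (5, 8), 6), ((6, 2), (8, 5), 4), ((6, 2), (8, 6), 3)]
  G := [[0, 0xe22118e42114c, 0xd812d11268d112d812a4c, 0xc12982518c12582914c, 0xd84218d84212c],
    [0, 0xc8a211848c2114c, 0x911451126c1188a58185112a941446c, 0x942482518582842914c,
    0x184c14318184814912c], [0, 0, 0, 0xc12942548c12542984c1298258c4254294cd,
    0xd14228d842c445449a2d44288d], [0, 0, 0, 0x14241254841211821448c9812ba4142412588d,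
    0x48c184c1634189488a9842818481491848149aa9]]

noncomputable def n1621 : Ent := ⟨e1621, noF, [], [], [(15, 16, [1580044410770988437309982408355971841652082177953823432505695748097, 0])]⟩

def c1621 : PLift (Cov.check n1621.C.D v1621 = true) := ⟨by decide +kernel⟩

def b1621 : PLift (entF (fidx ts) 400 1621 n1621 = true) := ⟨by decide +kernel⟩

theorem g1621 : GoodF (fidx ts) 400 1621 := GoodF.ofV v1621 n1621 c1621.down b1621.down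

/-- 4847645:1352/4 -/
noncomputable def e1622 : SCfg where
  D := {
    a := 7
    L := 10
    kp := 7
    inn := [(0, 1), (1, 0), (1, 2), (1, 3), (1, 4), (2, 1), (2, 4), (3, 1), (3, 4), (3, 5), (3, 6), (4,
      1), (4, 2), (4, 3), (5, 3), (5, 6), (6, 3), (6, 5)]
    mix := [(0, 0), (0, 1), (0, 2), (1, 0), (1, 2), (1, 3), (1, 4), (2, 3), (2, 5), (3, 4), (3, 6), (3,
      7), (4, 5), (4, 6), (4, 8), (5, 7), (5, 9), (6, 6), (6, 8), (6, 9)]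
    cl := [1, 7, 5, 1, 2, 3, 0, 0, 4, 6]
    chq := [(2, 3), (2, 4), (3, 2), (4, 2)]
    rng := [(0, 1), (0, 4), (1, 0), (1, 2), (2, 1), (2, 3), (3, 2), (3, 5), (4, 0), (4, 7), (5, 3), (5,
      8), (6, 8), (7, 4), (7, 9), (8, 5), (8, 6), (8, 9), (9, 7), (9, 8)]
    lev := [] }
  links := [[1, 7, 8, 9], [7, 0, 9, 10, 2, 4, 3, 11], [4, 1, 10, 12], [11, 1, 4, 13, 6, 5, 14], [13, 3,
    1, 2, 12, 15], [14, 3, 6, 16], [16, 5, 3, 13, 15]]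
  P := {
    a := 7
    N := 17
    nb := [898, 3741, 5138, 26738, 45070, 81992, 106536, 2307, 641, 1283, 4614, 16522, 33812, 32856,
      67624, 77904, 49248]
    tri := [(0, 1, 7), (0, 1, 9), (0, 7, 8), (0, 8, 9), (1, 2, 4), (1, 2, 10), (1, 3, 4), (1, 3, 11),
      (1, 7, 11), (1, 9, 10), (2, 4, 12), (2, 10, 12), (3, 4, 13), (3, 5, 6), (3, 5, 14), (3, 6,
      13), (3, 11, 14), (4, 12, 15), (4, 13, 15), (5, 6, 16), (5, 14, 16), (6, 13, 15), (6, 15,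
      16)]
    fin := [0, 0, 0, 3, 3, 5, 5, 0, 8, 9, 0, 3, 12, 5, 5, 15, 16]
    chd := [(3, 12), (3, 15)]
    steps := [(0, 1), (0, 2), (0, 7), (0, 10), (3, 4), (3, 11), (5, 6), (5, 13), (5, 14)] }
  rep := [5, 0, 3, 12, 15, 9, 16, 8]

noncomputable def v1622 : Cov.CovD where
  P := 3
  N := 5
  pl := [1, 2, 9]
  lev := [⟨[], [], [], [5, 7], [(0, 1, [])]⟩,
    ⟨[], [(0, 1), (0, 2)], [(1, 1), (1, 2)], [5], [(0, 1, []), (3, 1, []), (4, 2, [3, 4])]⟩,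
    ⟨[(0, 1)], [(1, 1), (1, 2), (1, 3)], [(1, 3)], [], [(3, 1, []), (5, 3, [2])]⟩,
    ⟨[(0, 1), (1, 2)], [(1, 0), (1, 1), (1, 2)], [(0, 0), (0, 2)], [], [(4, 2, [3, 4]), (6,
      0, []), (7, 0, [])]⟩,
    ⟨[(0, 1), (1, 2), (1, 3), (2, 3)], [(1, 0), (1, 1), (1, 2), (1, 3), (1, 4), (2, 0), (2,
      1), (2, 3), (2, 4), (3, 0), (3, 2), (3, 3), (3, 4)], [(0, 3), (0, 4), (3, 4)], [], [(5,
      3, [2]), (6, 0, []), (8, 4, [2])]⟩,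
    ⟨[(1, 3), (3, 4)], [(3, 0), (3, 2)], [], [6], [(7, 0, [])]⟩,
    ⟨[(1, 3), (3, 4), (3, 5)], [(3, 0), (3, 2), (3, 4), (4, 0), (4, 4), (5, 0), (5, 4)],
      [(0, 4)], [6], [(6, 0, []), (8, 4, [2])]⟩]
  Ta := [((0, 1), 1, 7), ((0, 4), 1, 2), ((3, 2), 1, 5), ((3, 5), 1, 3), ((6, 8), 0, 4), ((7, 4),
    0, 2), ((7, 9), 0, 6)]
  Tb := [((0, 1, 4), 1, 7, 2), ((1, 0, 2), 7, 1, 5), ((2, 1, 3), 5, 7, 1), ((3, 2, 5), 1, 5, 3),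
    ((4, 0, 7), 2, 1, 0), ((5, 3, 8), 3, 1, 4), ((7, 4, 9), 0, 2, 6), ((8, 5, 6), 4, 3, 0),
    ((8, 5, 9), 4, 3, 6), ((8, 6, 9), 4, 0, 6), ((9, 7, 8), 6, 0, 4)]
  Tc := [(2, 3, 4)]
  Td := [((2, 3), (4, 0), 1), ((2, 3), (4, 7), 0), ((2, 4), (4, 0), 1), ((2, 4), (4, 7), 0), ((3,
    2), (5, 3), 1), ((3, 2), (5, 8), 4), ((4, 2), (8, 5), 3), ((4, 2), (8, 6), 0), ((4, 2),
    (8, 9), 6)]
  G := [[0, 0xe12418e12814e1241e1281ce, 0, 0xc2a24c2a2458e128e12894e124e128c1d,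
    0x4a54228e1422e142294a54221d], [0, 0xe128444a52884e128e128c4e12461482c2cc21e1682cf, 0, 0,
    0xa84218222c18a4e141684941a4941e24e14819c16141e241f], [0, 0x1a6241816a2814e2c142ca6182ce,
    0x86a14182238ca61824a6c122a6c122cd, 0x12a2412a245812a28126289421c2812628c1d,
    0x95a422871648235c48291d64221d], [0, 0xe2c1428e2c14281a624834c281422c386cb,
    0x41a11c6218486188481a82111611c11ce21c11611a11ce218f, 0,
    0x14c41c6241a42587164253648984812414c316681a8c49e]]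

noncomputable def n1622 : Ent := ⟨e1622, noF, [], [], [(8, 16, [1580044410770988437309982408355971841652082177953823432505695748097, 0])]⟩

def c1622 : PLift (Cov.check n1622.C.D v1622 = true) := ⟨by decide +kernel⟩

def b1622 : PLift (entF (fidx ts) 400 1622 n1622 = true) := ⟨by decide +kernel⟩

theorem g1622 : GoodF (fidx ts) 400 1622 := GoodF.ofV v1622 n1622 c1622.down b1622.down

/-- 4847645:1352 -/
noncomputable def e1623 : SCfg where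
  D := {
    a := 7
    L := 11
    kp := 8
    inn := [(0, 1), (1, 0), (1, 2), (1, 3), (1, 4), (2, 1), (2, 4), (3, 1), (3, 4), (3, 5), (3, 6), (4,
      1), (4, 2), (4, 3), (5, 3), (5, 6), (6, 3), (6, 5)]
    mix := [(0, 0), (0, 1), (0, 2), (1, 0), (1, 2), (1, 3), (1, 4), (2, 3), (2, 5), (3, 4), (3, 6), (3,
      7), (4, 5), (4, 6), (4, 8), (5, 7), (5, 9), (6, 6), (6, 9), (6, 10)]
    cl := [0, 7, 2, 0, 1, 4, 3, 3, 6, 5, 8]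
    chq := [(1, 4), (1, 6), (4, 1), (6, 1)]
    rng := [(0, 1), (0, 4), (1, 0), (1, 2), (2, 1), (2, 3), (3, 2), (3, 5), (4, 0), (4, 7), (5, 3), (5,
      8), (6, 8), (6, 10), (7, 4), (7, 9), (8, 5), (8, 6), (9, 7), (9, 10), (10, 6), (10, 9)]
    lev := [] }
  links := [[1, 7, 8, 9], [7, 0, 9, 10, 2, 4, 3, 11], [4, 1, 10, 12], [11, 1, 4, 13, 6, 5, 14], [13, 3,
    1, 2, 12, 15], [14, 3, 6, 16], [16, 5, 3, 13, 17]]
  P := {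
    a := 7
    N := 18
    nb := [898, 3741, 5138, 26738, 45070, 81992, 204840, 2307, 641, 1283, 4614, 16522, 33812, 163928,
      67624, 12304, 147552, 73792]
    tri := [(0, 1, 7), (0, 1, 9), (0, 7, 8), (0, 8, 9), (1, 2, 4), (1, 2, 10), (1, 3, 4), (1, 3, 11),
      (1, 7, 11), (1, 9, 10), (2, 4, 12), (2, 10, 12), (3, 4, 13), (3, 5, 6), (3, 5, 14), (3, 6,
      13), (3, 11, 14), (4, 12, 15), (4, 13, 15), (5, 6, 16), (5, 14, 16), (6, 13, 17), (6, 16,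
      17)]
    fin := [0, 0, 0, 3, 3, 5, 5, 0, 8, 9, 0, 3, 12, 5, 5, 15, 16, 17]
    chd := [(3, 12), (3, 15)]
    steps := [(0, 1), (0, 2), (0, 7), (0, 10), (3, 4), (3, 11), (5, 6), (5, 13), (5, 14)] }
  rep := [0, 3, 9, 5, 12, 16, 15, 8, 17]

noncomputable def v1623 : Cov.CovD where
  P := 3
  N := 6
  pl := [1, 2, 9, 10]
  lev := [⟨[], [], [], [2, 7], [(0, 0, [])]⟩,
    ⟨[], [(0, 0), (0, 1)], [(0, 0), (0, 1)], [2], [(0, 0, []), (3, 0, []), (4, 1, [4, 6])]⟩,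
    ⟨[(0, 1)], [(1, 0), (1, 1), (1, 4)], [(0, 4)], [], [(3, 0, []), (5, 4, [1])]⟩,
    ⟨[(0, 1), (1, 2)], [(1, 0), (1, 1), (1, 3)], [(1, 3), (3, 3)], [], [(4, 1, [4, 6]), (6,
      3, []), (7, 3, [])]⟩,
    ⟨[(0, 1), (1, 2), (1, 3), (2, 3)], [(1, 0), (1, 1), (1, 3), (1, 4), (1, 6), (2, 0), (2,
      3), (2, 4), (2, 6), (3, 1), (3, 3), (3, 4), (3, 6)], [(3, 4), (3, 6), (4, 6)], [], [(5,
      4, [1]), (6, 3, []), (8, 6, [1])]⟩,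
    ⟨[(1, 3), (3, 4)], [(3, 1), (3, 3)], [], [5], [(7, 3, [])]⟩,
    ⟨[(1, 3), (3, 4), (3, 5)], [(3, 1), (3, 3), (4, 3), (5, 3)], [], [5, 8], [(6, 3, [])]⟩]
  Ta := [((0, 1), 0, 7), ((0, 4), 0, 1), ((3, 2), 0, 2), ((3, 5), 0, 4), ((6, 8), 3, 6), ((6,
    10), 3, 8), ((7, 4), 3, 1), ((7, 9), 3, 5)]
  Tb := [((0, 1, 4), 0, 7, 1), ((1, 0, 2), 7, 0, 2), ((2, 1, 3), 2, 7, 0), ((3, 2, 5), 0, 2, 4),
    ((4, 0, 7), 1, 0, 3), ((5, 3, 8), 4, 0, 6), ((6, 8, 10), 3, 6, 8), ((7, 4, 9), 3, 1, 5),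
    ((8, 5, 6), 6, 4, 3), ((9, 7, 10), 5, 3, 8), ((10, 6, 9), 8, 3, 5)]
  Tc := [(1, 4, 6)]
  Td := [((1, 4), (4, 0), 0), ((1, 4), (4, 7), 3), ((1, 6), (4, 0), 0), ((1, 6), (4, 7), 3), ((4,
    1), (5, 3), 0), ((4, 1), (5, 8), 6), ((6, 1), (8, 5), 4), ((6, 1), (8, 6), 3)]
  G := [[0, 0x36c12e531b4166c95184cd216b91ad21e351aa4c, 0, 0xe1297a2518d6a2b42518c,
    0x6d32b42518e129762518a], [0, 0x482d149316295149316682591ca31a7291a951aa4c, 0,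
    0x71a2d28729141bc24e92518c, 0xd1c26c325181a62d492518a], [0, 0,
    0xb4212a2ce12f1629c4c4924e124c85a52f829d3621c4e, 0xf12d2a2952872f829c41,
    0xe12d3a25c69293625c81], [0, 0, 0x1d2cf21ca17146988a9648852488ca971935e6a56c3e924e,
    0xd1c2a432547472a952cc81, 0x1a62944e2517172e8529c81]]

noncomputable def n1623 : Ent := ⟨e1623, noF, [], [], [(8, 17, [6903326391201334775872065844685381424292761054348340378595029936320513, 0]), (8, 16, [7334685537875745012586738086077695515070955365108989538292687700316161, 0]), (15, 17, [6903326391201334775872065844685381424292761054348340378595029936332801, 0])]⟩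

def c1623 : PLift (Cov.check n1623.C.D v1623 = true) := ⟨by decide +kernel⟩

def b1623 : PLift (entF (fidx ts) 400 1623 n1623 = true) := ⟨by decide +kernel⟩

theorem g1623 : GoodF (fidx ts) 400 1623 := GoodF.ofV v1623 n1623 c1623.down b1623.down

/-- 4847446:1353/1 -/
noncomputable def e1624 : SCfg where
  D := {
    a := 7
    L := 10
    kp := 7
    inn := [(0, 1), (1, 0), (1, 2), (1, 3), (1, 6), (2, 1), (3, 1), (3, 4), (3, 5), (3, 6), (4, 3), (5,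
      3), (5, 6), (6, 1), (6, 3), (6, 5)]
    mix := [(0, 0), (0, 1), (0, 2), (1, 0), (1, 2), (1, 3), (1, 4), (2, 3), (2, 4), (2, 5), (3, 4), (3,
      6), (3, 7), (4, 1), (4, 6), (4, 7), (5, 7), (5, 8), (6, 0), (6, 8), (6, 9)]
    cl := [1, 3, 2, 1, 0, 7, 4, 0, 5, 6]
    chq := [(0, 1), (0, 6), (1, 0), (6, 0)]
    rng := [(0, 1), (0, 9), (1, 0), (1, 2), (1, 6), (1, 7), (2, 1), (2, 3), (3, 2), (3, 5), (4, 5), (4,
      6), (5, 3), (5, 4), (6, 1), (6, 4), (7, 1), (7, 8), (8, 7), (8, 9), (9, 0), (9, 8)]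
    lev := [] }
  links := [[1, 7, 8, 9], [7, 0, 9, 10, 2, 11, 3, 6], [11, 1, 10, 12], [6, 1, 11, 13, 4, 14, 5], [14, 3,
    13, 8], [6, 3, 14, 15], [7, 1, 3, 5, 15, 16]]
  P := {
    a := 7
    N := 17
    nb := [898, 3789, 7170, 26738, 24840, 49224, 98474, 65859, 25233, 1283, 4614, 12302, 3076, 2328,
      33080, 82016, 32960]
    tri := [(0, 1, 7), (0, 1, 9), (0, 7, 8), (0, 8, 9), (1, 2, 10), (1, 2, 11), (1, 3, 6), (1, 3, 11),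
      (1, 6, 7), (1, 9, 10), (2, 10, 12), (2, 11, 12), (3, 4, 13), (3, 4, 14), (3, 5, 6), (3, 5,
      14), (3, 11, 13), (4, 8, 13), (4, 8, 14), (5, 6, 15), (5, 14, 15), (6, 7, 16), (6, 15, 16)]
    fin := [0, 0, 0, 3, 4, 3, 3, 0, 4, 9, 0, 3, 12, 13, 3, 15, 16]
    chd := [(0, 3), (3, 16)]
    steps := [(0, 1), (0, 2), (0, 7), (0, 10), (3, 5), (3, 6), (3, 11), (3, 14), (4, 8)] }
  rep := [3, 0, 9, 4, 13, 15, 16, 12]

noncomputable def v1624 : Cov.CovD where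
  P := 3
  N := 5
  pl := [1, 2, 5, 6, 8]
  lev := [⟨[], [], [], [2, 3], [(0, 1, [0])]⟩,
    ⟨[], [(0, 0), (0, 1)], [(0, 1), (1, 1)], [2], [(0, 1, [0]), (3, 1, [0]), (4, 0, [1,
      6])]⟩,
    ⟨[(0, 1)], [(1, 0), (1, 1)], [(0, 1)], [7], [(3, 1, [0]), (4, 0, [1, 6])]⟩,
    ⟨[(0, 1), (1, 2)], [(1, 0), (1, 1), (2, 0)], [(0, 0)], [4], [(4, 0, [1, 6]), (7, 0, [1,
      6])]⟩,
    ⟨[(1, 3)], [(3, 0)], [], [3, 4], [(7, 0, [1, 6])]⟩,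
    ⟨[(1, 3), (3, 4)], [(3, 0), (4, 0)], [], [5], [(7, 0, [1, 6])]⟩,
    ⟨[(0, 1), (1, 2), (1, 3), (1, 5), (3, 4), (3, 5)], [(0, 1), (1, 0), (1, 1), (1, 6), (3,
      0), (3, 1), (3, 6), (5, 0), (5, 1), (5, 6)], [(1, 6)], [5], [(0, 1, [0]), (9, 6, [0])]⟩]
  Ta := [((0, 1), 1, 3), ((0, 9), 1, 6), ((3, 2), 1, 2), ((3, 5), 1, 7), ((4, 5), 0, 7), ((4, 6),
    0, 4), ((7, 1), 0, 3), ((7, 8), 0, 5)]
  Tb := [((0, 1, 9), 1, 3, 6), ((1, 0, 2), 3, 1, 2), ((1, 0, 6), 3, 1, 4), ((1, 0, 7), 3, 1, 0),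
    ((1, 2, 6), 3, 2, 4), ((1, 2, 7), 3, 2, 0), ((1, 6, 7), 3, 4, 0), ((2, 1, 3), 2, 3, 1),
    ((3, 2, 5), 1, 2, 7), ((4, 5, 6), 0, 7, 4), ((5, 3, 4), 7, 1, 0), ((6, 1, 4), 4, 3, 0),
    ((7, 1, 8), 0, 3, 5), ((8, 7, 9), 5, 0, 6), ((9, 0, 8), 6, 1, 5)]
  Tc := [(0, 1, 6)]
  Td := [((0, 1), (4, 5), 7), ((0, 1), (4, 6), 4), ((0, 1), (7, 1), 3), ((0, 1), (7, 8), 5), ((0,
    6), (4, 5), 7), ((0, 6), (4, 6), 4), ((0, 6), (7, 1), 3), ((0, 6), (7, 8), 5), ((1, 0),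
    (0, 1), 3), ((1, 0), (0, 9), 6), ((1, 0), (3, 2), 2), ((1, 0), (3, 5), 7), ((6, 0), (9,
    0), 1), ((6, 0), (9, 8), 5)]
  G := [[0, 0x18184462144261814e861e6418e8814e812ac9, 0x116811a1a2411a411a1628c, 0,
    0x116111c11ca6281], [0, 0x1168811c1211a14e41812121141c141121ce8c,
    0x116111c2611c111c26c82, 0x116111c2612c111c26c81, 0x11c111c26116111c26c81], [0,
    0x441e41a42614861a682a1a81682a14ac1, 0x15688288242d1cee2444419a41dc2e18c, 0,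
    0x11a415c86284441da19ac84421dcee289], [0, 0x441441a4412e8e1a682a148a618cc1,
    0x1561d6c888d1c2e142, 0x316881431a44181dc2218d, 0x156459a82c59c2e182]]

noncomputable def n1624 : Ent := ⟨e1624, noF, [], [], []⟩

def c1624 : PLift (Cov.check n1624.C.D v1624 = true) := ⟨by decide +kernel⟩

def b1624 : PLift (entF (fidx ts) 400 1624 n1624 = true) := ⟨by decide +kernel⟩

theorem g1624 : GoodF (fidx ts) 400 1624 := GoodF.ofV v1624 n1624 c1624.down b1624.down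

/-- 4847446:1353 -/
noncomputable def e1625 : SCfg where
  D := {
    a := 7
    L := 11
    kp := 8
    inn := [(0, 1), (1, 0), (1, 2), (1, 3), (1, 6), (2, 1), (3, 1), (3, 4), (3, 5), (3, 6), (4, 3), (5,
      3), (5, 6), (6, 1), (6, 3), (6, 5)]
    mix := [(0, 0), (0, 1), (0, 2), (1, 0), (1, 2), (1, 3), (1, 4), (2, 3), (2, 4), (2, 5), (3, 4), (3,
      6), (3, 7), (4, 6), (4, 7), (4, 8), (5, 7), (5, 9), (6, 0), (6, 9), (6, 10)]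
    cl := [1, 6, 2, 1, 0, 7, 3, 0, 8, 4, 5]
    chq := [(0, 1), (0, 5), (1, 0), (5, 0)]
    rng := [(0, 1), (0, 10), (1, 0), (1, 2), (2, 1), (2, 3), (3, 2), (3, 5), (4, 5), (4, 6), (5, 3),
      (5, 4), (6, 4), (6, 8), (7, 8), (7, 9), (8, 6), (8, 7), (9, 7), (9, 10), (10, 0), (10, 9)]
    lev := [] }
  links := [[1, 7, 8, 9], [7, 0, 9, 10, 2, 11, 3, 6], [11, 1, 10, 12], [6, 1, 11, 13, 4, 14, 5], [14, 3,
    13, 15], [6, 3, 14, 16], [7, 1, 3, 5, 16, 17]]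
  P := {
    a := 7
    N := 18
    nb := [898, 3789, 7170, 26738, 57352, 81992, 196778, 131395, 641, 1283, 4614, 12302, 3076, 34840,
      98360, 24592, 147552, 65728]
    tri := [(0, 1, 7), (0, 1, 9), (0, 7, 8), (0, 8, 9), (1, 2, 10), (1, 2, 11), (1, 3, 6), (1, 3, 11),
      (1, 6, 7), (1, 9, 10), (2, 10, 12), (2, 11, 12), (3, 4, 13), (3, 4, 14), (3, 5, 6), (3, 5,
      14), (3, 11, 13), (4, 13, 15), (4, 14, 15), (5, 6, 16), (5, 14, 16), (6, 7, 17), (6, 16,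
      17)]
    fin := [0, 0, 0, 3, 3, 3, 3, 0, 8, 9, 0, 3, 12, 13, 3, 15, 16, 17]
    chd := [(0, 3), (3, 17)]
    steps := [(0, 1), (0, 2), (0, 7), (0, 10), (3, 4), (3, 5), (3, 6), (3, 11), (3, 14)] }
  rep := [3, 0, 9, 13, 16, 17, 8, 12, 15]

noncomputable def v1625 : Cov.CovD where
  P := 3
  N := 6
  pl := [1, 2, 5, 6, 8, 9]
  lev := [⟨[], [], [], [2, 6], [(0, 1, [0])]⟩,
    ⟨[], [(0, 0), (0, 1)], [(0, 1), (1, 1)], [2], [(0, 1, [0]), (3, 1, [0]), (4, 0, [1,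
      5])]⟩,
    ⟨[(0, 1)], [(1, 0), (1, 1)], [(0, 1)], [7], [(3, 1, [0]), (4, 0, [1, 5])]⟩,
    ⟨[(0, 1), (1, 2)], [(1, 0), (1, 1), (2, 0)], [(0, 0)], [3], [(4, 0, [1, 5]), (7, 0, [1,
      5])]⟩,
    ⟨[(1, 3)], [(3, 0)], [], [3, 8], [(7, 0, [1, 5])]⟩,
    ⟨[(1, 3), (3, 4)], [(3, 0), (4, 0)], [], [4], [(7, 0, [1, 5])]⟩,
    ⟨[(0, 1), (1, 2), (1, 3), (1, 5), (3, 4), (3, 5)], [(0, 1), (1, 0), (1, 1), (1, 5), (3,
      0), (3, 1), (3, 5), (5, 0), (5, 1), (5, 5)], [(1, 5)], [4], [(0, 1, [0]), (10, 5,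
      [0])]⟩]
  Ta := [((0, 1), 1, 6), ((0, 10), 1, 5), ((3, 2), 1, 2), ((3, 5), 1, 7), ((4, 5), 0, 7), ((4,
    6), 0, 3), ((7, 8), 0, 8), ((7, 9), 0, 4)]
  Tb := [((0, 1, 10), 1, 6, 5), ((1, 0, 2), 6, 1, 2), ((2, 1, 3), 2, 6, 1), ((3, 2, 5), 1, 2, 7),
    ((4, 5, 6), 0, 7, 3), ((5, 3, 4), 7, 1, 0), ((6, 4, 8), 3, 0, 8), ((7, 8, 9), 0, 8, 4),
    ((8, 6, 7), 8, 3, 0), ((9, 7, 10), 4, 0, 5), ((10, 0, 9), 5, 1, 4)]
  Tc := [(0, 1, 5)]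
  Td := [((0, 1), (4, 5), 7), ((0, 1), (4, 6), 3), ((0, 1), (7, 8), 8), ((0, 1), (7, 9), 4), ((0,
    5), (4, 5), 7), ((0, 5), (4, 6), 3), ((0, 5), (7, 8), 8), ((0, 5), (7, 9), 4), ((1, 0),
    (0, 1), 6), ((1, 0), (0, 10), 5), ((1, 0), (3, 2), 2), ((1, 0), (3, 5), 7), ((5, 0), (10,
    0), 1), ((5, 0), (10, 9), 4)]
  G := [[0, 0x11c181161211a14e411a14411a1811612acc, 0x11611ac11a1628116111a411c2e28c, 0,
    0x11c11ac1161628116111a1166c289], [0, 0x11a1411a1211c18e41161411c1211618e8c,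
    0x11611ac11c16411c111c11c6a8c2,
    0x116111611ca64125e1a11a1c8c121452114a14185e411c111c11c6a8cc,
    0x11a114121812f611c111611ca6c82], [0, 0xc41244ea182a1c46a182a1c4a1eac1,
    0x15659ac82884956d1cee144441d619acc16421dcee28c, 0,
    0x41a12c124415ce614848888cc484ae294441d619ac596441dcee289], [0,
    0x11c144811a1448e24e1248ee18a4d, 0x8219ac84441dce6115648c81c2,
    0x31a451c2613168842a1c31a4413168d1c2a1c9, 0x4441da19ac596441dcee182]]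

noncomputable def n1625 : Ent := ⟨e1625, noF, [], [], [(8, 15, [7334790850167413569773436004105379185503274260204390087403942011305985, 0])]⟩

def c1625 : PLift (Cov.check n1625.C.D v1625 = true) := ⟨by decide +kernel⟩

def b1625 : PLift (entF (fidx ts) 400 1625 n1625 = true) := ⟨by decide +kernel⟩

theorem g1625 : GoodF (fidx ts) 400 1625 := GoodF.ofV v1625 n1625 c1625.down b1625.down

/-- 4847646:1354 -/
noncomputable def e1626 : SCfg where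
  D := {
    a := 7
    L := 11
    kp := 9
    inn := [(0, 1), (1, 0), (1, 2), (1, 3), (1, 4), (1, 6), (2, 1), (2, 4), (3, 1), (3, 4), (3, 5), (3,
      6), (4, 1), (4, 2), (4, 3), (5, 3), (5, 6), (6, 1), (6, 3), (6, 5)]
    mix := [(0, 0), (0, 1), (0, 2), (1, 0), (1, 2), (1, 3), (2, 3), (2, 4), (3, 5), (3, 6), (3, 7), (4,
      4), (4, 5), (4, 8), (5, 7), (5, 9), (6, 0), (6, 9), (6, 10)]
    cl := [0, 8, 2, 0, 5, 3, 6, 4, 7, 1, 9]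
    chq := [(0, 1), (0, 3), (0, 4), (0, 6), (0, 7), (1, 0), (3, 0), (4, 0), (6, 0), (7, 0)]
    rng := [(0, 1), (0, 10), (1, 0), (1, 2), (2, 1), (2, 3), (3, 2), (3, 4), (4, 3), (4, 8), (5, 6),
      (5, 8), (6, 5), (6, 7), (7, 6), (7, 9), (8, 4), (8, 5), (9, 7), (9, 10), (10, 0), (10, 9)]
    lev := [] }
  links := [[1, 7, 8, 9], [7, 0, 9, 10, 2, 4, 3, 6], [4, 1, 10, 11], [6, 1, 4, 12, 13, 14, 5], [12, 3, 1,
    2, 11, 15], [6, 3, 14, 16], [7, 1, 3, 5, 16, 17]]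
  P := {
    a := 7
    N := 18
    nb := [898, 1757, 3090, 28786, 38926, 81992, 196778, 131395, 641, 1283, 2566, 33812, 40984, 20488,
      73768, 6160, 147552, 65728]
    tri := [(0, 1, 7), (0, 1, 9), (0, 7, 8), (0, 8, 9), (1, 2, 4), (1, 2, 10), (1, 3, 4), (1, 3, 6),
      (1, 6, 7), (1, 9, 10), (2, 4, 11), (2, 10, 11), (3, 4, 12), (3, 5, 6), (3, 5, 14), (3, 12,
      13), (3, 13, 14), (4, 11, 15), (4, 12, 15), (5, 6, 16), (5, 14, 16), (6, 7, 17), (6, 16,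
      17)]
    fin := [0, 0, 0, 0, 0, 0, 0, 0, 8, 9, 0, 11, 12, 13, 14, 15, 16, 17]
    chd := [(0, 12), (0, 13), (0, 14), (0, 15), (0, 16)]
    steps := [(0, 1), (0, 2), (0, 3), (0, 4), (0, 5), (0, 6), (0, 7), (0, 10)] }
  rep := [0, 16, 9, 12, 14, 11, 13, 15, 8, 17]

noncomputable def v1626 : Cov.CovD where
  P := 3
  N := 7
  pl := [1, 2, 4, 10]
  lev := [⟨[], [], [], [2, 8], [(0, 0, [1, 3, 4, 6, 7])]⟩,
    ⟨[], [(0, 0)], [(0, 0)], [2], [(0, 0, [1, 3, 4, 6, 7]), (3, 0, [1, 3, 4, 6, 7])]⟩,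
    ⟨[(0, 1)], [(1, 0)], [], [5], [(3, 0, [1, 3, 4, 6, 7])]⟩,
    ⟨[(0, 1), (1, 2)], [(1, 0), (1, 3), (1, 4), (1, 6)], [(3, 4), (3, 6), (4, 6)], [], [(5,
      3, [0]), (6, 6, [0]), (7, 4, [0])]⟩,
    ⟨[(0, 1), (1, 2), (1, 3), (2, 3)], [(1, 0), (1, 3), (1, 7), (2, 0), (2, 3), (2, 7), (3,
      3), (3, 4), (3, 6), (3, 7)], [(3, 7)], [5], [(5, 3, [0]), (8, 7, [0])]⟩,
    ⟨[(1, 3), (3, 4)], [(3, 1), (3, 3), (3, 4), (3, 6)], [(1, 4)], [], [(7, 4, [0]), (9, 1,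
      [0])]⟩,
    ⟨[(0, 1), (1, 2), (1, 3), (1, 4), (1, 5), (3, 4), (3, 5)], [(0, 0), (1, 0), (1, 1), (3,
      0), (3, 1), (3, 3), (3, 4), (3, 6), (5, 0), (5, 1), (5, 4)], [(0, 1)], [9], [(0, 0, [1,
      3, 4, 6, 7]), (9, 1, [0])]⟩]
  Ta := [((0, 1), 0, 8), ((0, 10), 0, 9), ((3, 2), 0, 2), ((3, 4), 0, 5)]
  Tb := [((0, 1, 10), 0, 8, 9), ((1, 0, 2), 8, 0, 2), ((2, 1, 3), 2, 8, 0), ((3, 2, 4), 0, 2, 5),
    ((4, 3, 8), 5, 0, 7), ((5, 6, 8), 3, 6, 7), ((6, 5, 7), 6, 3, 4), ((7, 6, 9), 4, 6, 1),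
    ((8, 4, 5), 7, 5, 3), ((9, 7, 10), 1, 4, 9), ((10, 0, 9), 9, 0, 1)]
  Tc := [(0, 1, 3), (0, 1, 4), (0, 1, 6), (0, 1, 7), (0, 3, 4), (0, 3, 6), (0, 3, 7), (0, 4, 6),
    (0, 4, 7), (0, 6, 7)]
  Td := [((0, 1), (0, 1), 8), ((0, 1), (0, 10), 9), ((0, 1), (3, 2), 2), ((0, 1), (3, 4), 5),
    ((0, 3), (0, 1), 8), ((0, 3), (0, 10), 9), ((0, 3), (3, 2), 2), ((0, 3), (3, 4), 5), ((0,
    4), (0, 1), 8), ((0, 4), (0, 10), 9), ((0, 4), (3, 2), 2), ((0, 4), (3, 4), 5), ((0, 6),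
    (0, 1), 8), ((0, 6), (0, 10), 9), ((0, 6), (3, 2), 2), ((0, 6), (3, 4), 5), ((0, 7), (0,
    1), 8), ((0, 7), (0, 10), 9), ((0, 7), (3, 2), 2), ((0, 7), (3, 4), 5), ((1, 0), (9, 7),
    4), ((1, 0), (9, 10), 9), ((3, 0), (5, 6), 6), ((3, 0), (5, 8), 7), ((4, 0), (7, 6), 6),
    ((4, 0), (7, 9), 1), ((6, 0), (6, 5), 3), ((6, 0), (6, 7), 4), ((7, 0), (8, 4), 5), ((7,
    0), (8, 5), 3)]
  G := [[0, 0xaca11aac11c41, 0,
    0x14141445544116c8c11181c11c1c8c3bacc11414cc53411c11c144c3d688c118118819ac41148c11811c11884d8f88c419cd,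
    0x181141c11ccc1f181ccc19c2c114cc132181ccc19c11141881dcac112c114c1cccccce172b], [0,
    0x6ac11aa611c41, 0xccc11ccc11624cc1128cc11c811caa,
    0x411c114c8dc457c11448d4cc356c11881c118c5c89fc118819ac1,
    0xc118451c11cccc1cccbfc11c11c11cccc4ccc7fc21]]

noncomputable def n1626 : Ent := ⟨e1626, noF, [], [], []⟩

def c1626 : PLift (Cov.check n1626.C.D v1626 = true) := ⟨by decide +kernel⟩

def b1626 : PLift (entF (fidx ts) 400 1626 n1626 = true) := ⟨by decide +kernel⟩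

theorem g1626 : GoodF (fidx ts) 400 1626 := GoodF.ofV v1626 n1626 c1626.down b1626.down

/-- 4576644:1357/1 -/
noncomputable def e1627 : SCfg where
  D := {
    a := 7
    L := 10
    kp := 7
    inn := [(0, 1), (0, 2), (1, 0), (1, 2), (2, 0), (2, 1), (2, 3), (3, 2), (3, 4), (3, 5), (4, 3), (4,
      6), (5, 3), (6, 4)]
    mix := [(0, 0), (0, 1), (1, 1), (1, 2), (1, 3), (2, 0), (2, 3), (2, 4), (2, 5), (3, 3), (3, 4), (3,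
      6), (4, 3), (4, 6), (4, 7), (4, 8), (5, 4), (5, 6), (5, 9), (6, 1), (6, 6), (6, 8)]
    cl := [2, 1, 5, 0, 0, 6, 3, 3, 4, 7]
    chq := [(0, 2), (2, 0), (2, 5), (5, 2)]
    rng := [(0, 1), (0, 5), (1, 0), (1, 2), (1, 6), (1, 8), (2, 1), (2, 3), (3, 2), (3, 7), (4, 5), (4,
      9), (5, 0), (5, 4), (6, 1), (6, 9), (7, 3), (7, 8), (8, 1), (8, 7), (9, 4), (9, 6)]
    lev := [] }
  links := [[1, 2, 7, 8], [2, 0, 8, 9, 10], [7, 0, 1, 10, 3, 11, 12], [11, 2, 10, 4, 13, 5], [13, 3, 10,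
    14, 15, 6], [11, 3, 13, 16], [13, 4, 15, 8]]
  P := {
    a := 7
    N := 17
    nb := [390, 1797, 7307, 11316, 58440, 75784, 41232, 4357, 41667, 1282, 16926, 69676, 2180, 65912,
      33808, 16720, 10272]
    tri := [(0, 1, 2), (0, 1, 8), (0, 2, 7), (0, 7, 8), (1, 2, 10), (1, 8, 9), (1, 9, 10), (2, 3, 10),
      (2, 3, 11), (2, 7, 12), (2, 11, 12), (3, 4, 10), (3, 4, 13), (3, 5, 11), (3, 5, 13), (4, 6,
      13), (4, 6, 15), (4, 10, 14), (4, 14, 15), (5, 11, 16), (5, 13, 16), (6, 8, 13), (6, 8, 15)]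
    fin := [0, 0, 0, 3, 4, 3, 6, 0, 6, 9, 3, 3, 12, 4, 4, 15, 16]
    chd := [(0, 3), (0, 9)]
    steps := [(0, 1), (0, 2), (0, 7), (3, 5), (3, 10), (3, 11), (4, 14), (4, 13), (6, 8)] }
  rep := [3, 6, 0, 4, 15, 9, 12, 16]

noncomputable def v1627 : Cov.CovD where
  P := 3
  N := 5
  pl := [1, 5, 8, 9]
  lev := [⟨[], [], [], [1], [(0, 2, [0, 5])]⟩,
    ⟨[], [(0, 0), (0, 2), (0, 5)], [(0, 5)], [1], [(2, 5, [2]), (3, 0, [2])]⟩,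
    ⟨[(0, 1)], [(0, 0), (0, 2), (1, 0), (1, 2), (1, 5)], [(0, 0), (0, 2)], [6], [(0, 2, [0,
      5]), (3, 0, [2]), (4, 0, [2])]⟩,
    ⟨[(0, 2), (1, 2)], [(1, 0), (2, 0), (2, 2), (2, 3)], [(0, 0), (0, 3)], [], [(3, 0,
      [2]), (4, 0, [2]), (6, 3, [])]⟩,
    ⟨[(2, 3)], [(1, 0), (2, 0), (3, 0), (3, 3)], [(0, 3), (3, 3)], [4], [(3, 0, [2]), (6,
      3, []), (7, 3, [])]⟩,
    ⟨[(2, 3), (3, 4)], [(2, 0), (3, 0), (3, 3), (4, 3)], [(0, 3)], [7], [(4, 0, [2]), (6,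
      3, [])]⟩,
    ⟨[(3, 4)], [(3, 3), (4, 0), (4, 3), (5, 3)], [], [1, 4], [(6, 3, [])]⟩]
  Ta := [((3, 2), 0, 5), ((3, 7), 0, 3), ((4, 5), 0, 6), ((4, 9), 0, 7), ((6, 1), 3, 1), ((6, 9),
    3, 7), ((7, 3), 3, 0), ((7, 8), 3, 4)]
  Tb := [((0, 1, 5), 2, 1, 6), ((1, 0, 2), 1, 2, 5), ((1, 0, 6), 1, 2, 3), ((1, 0, 8), 1, 2, 4),
    ((1, 2, 6), 1, 5, 3), ((1, 2, 8), 1, 5, 4), ((1, 6, 8), 1, 3, 4), ((2, 1, 3), 5, 1, 0),
    ((3, 2, 7), 0, 5, 3), ((4, 5, 9), 0, 6, 7), ((5, 0, 4), 6, 2, 0), ((6, 1, 9), 3, 1, 7),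
    ((7, 3, 8), 3, 0, 4), ((8, 1, 7), 4, 1, 3), ((9, 4, 6), 7, 0, 3)]
  Tc := [(2, 0, 5)]
  Td := [((0, 2), (3, 2), 5), ((0, 2), (3, 7), 3), ((0, 2), (4, 5), 6), ((0, 2), (4, 9), 7), ((2,
    0), (0, 1), 1), ((2, 0), (0, 5), 6), ((2, 5), (0, 1), 1), ((2, 5), (0, 5), 6), ((5, 2),
    (2, 1), 1), ((5, 2), (2, 3), 0)]
  G := [[0, 0x8121a442412168121a8141ce412168141cac2c, 0xd1221141c11516a8111c8186e18,
    0xd122d122cd1228cd122445, 0x8111c8151a6112811111e8141cea41], [0, 0x81a121e42128141cac24,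
    0x841191e2811891e4a14, 0x59c22c18d22c114d2259c22cc1, 0x844811ce211328448c6a48], [0,
    0x88c44c988a426226ed644c2888c782446226dac28, 0x8111c51261141c41916a8182e14,
    0x52244192252295c2e92295c2ac1c, 0x81c1248b88a44611ce644c99a888e712556447ca4441268849],
    [0, 0x822862b48168448a6cd2c24, 0x811191e4811151e4a18, 0x59c2259c22c14,
    0x48c4ca32c9a248c16a41]]

noncomputable def n1627 : Ent := ⟨e1627, noF, [], [], []⟩

def c1627 : PLift (Cov.check n1627.C.D v1627 = true) := ⟨by decide +kernel⟩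

def b1627 : PLift (entF (fidx ts) 400 1627 n1627 = true) := ⟨by decide +kernel⟩

theorem g1627 : GoodF (fidx ts) 400 1627 := GoodF.ofV v1627 n1627 c1627.down b1627.down

/-- 4576644:1357/3 -/
noncomputable def e1628 : SCfg where
  D := {
    a := 7
    L := 9
    kp := 6
    inn := [(0, 1), (0, 2), (1, 0), (1, 2), (2, 0), (2, 1), (2, 3), (3, 2), (3, 4), (3, 5), (4, 3), (4,
      6), (5, 3), (6, 4)]
    mix := [(0, 0), (0, 1), (1, 1), (1, 2), (1, 3), (2, 0), (2, 3), (2, 4), (2, 5), (3, 3), (3, 4), (3,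
      6), (4, 2), (4, 3), (4, 6), (4, 7), (5, 4), (5, 6), (5, 8), (6, 6), (6, 7), (6, 8)]
    cl := [3, 2, 0, 1, 1, 6, 0, 4, 5]
    chq := [(0, 3), (1, 3), (3, 0), (3, 1)]
    rng := [(0, 1), (0, 5), (1, 0), (1, 2), (2, 1), (2, 3), (2, 7), (3, 2), (4, 5), (4, 8), (5, 0), (5,
      4), (6, 8), (7, 2), (7, 8), (8, 4), (8, 6), (8, 7)]
    lev := [] }
  links := [[1, 2, 7, 8], [2, 0, 8, 9, 10], [7, 0, 1, 10, 3, 11, 12], [11, 2, 10, 4, 13, 5], [13, 3, 10,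
    9, 14, 6], [11, 3, 13, 15], [13, 4, 14, 15]]
  P := {
    a := 7
    N := 16
    nb := [390, 1797, 7307, 11316, 26184, 43016, 57360, 4357, 643, 17682, 542, 36908, 2180, 32888,
      33360, 26720]
    tri := [(0, 1, 2), (0, 1, 8), (0, 2, 7), (0, 7, 8), (1, 2, 10), (1, 8, 9), (1, 9, 10), (2, 3, 10),
      (2, 3, 11), (2, 7, 12), (2, 11, 12), (3, 4, 10), (3, 4, 13), (3, 5, 11), (3, 5, 13), (4, 6,
      13), (4, 6, 14), (4, 9, 10), (4, 9, 14), (5, 11, 15), (5, 13, 15), (6, 13, 15), (6, 14, 15)]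
    fin := [0, 0, 0, 3, 4, 4, 4, 0, 8, 4, 3, 3, 12, 4, 14, 15]
    chd := [(0, 3), (0, 4)]
    steps := [(0, 1), (0, 2), (0, 7), (3, 10), (3, 11), (4, 6), (4, 9), (4, 13), (4, 5)] }
  rep := [4, 3, 8, 0, 14, 15, 12]

noncomputable def v1628 : Cov.CovD where
  P := 3
  N := 4
  pl := [1, 5, 7, 8]
  lev := [⟨[], [], [], [2], [(0, 3, [0, 1])]⟩,
    ⟨[], [(0, 0), (0, 1), (0, 3)], [(0, 1)], [2], [(2, 0, [3]), (3, 1, [3])]⟩,
    ⟨[(0, 1)], [(0, 1), (0, 3), (1, 0), (1, 1), (1, 3)], [(1, 1), (1, 3)], [6], [(0, 3, [0,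
      1]), (3, 1, [3]), (4, 1, [3])]⟩,
    ⟨[(0, 2), (1, 2)], [(1, 1), (2, 0), (2, 1), (2, 3)], [(0, 1), (1, 1)], [], [(3, 1,
      [3]), (4, 1, [3]), (6, 0, [3])]⟩,
    ⟨[(2, 3)], [(1, 0), (1, 1), (2, 1), (3, 0), (3, 1)], [(0, 0), (0, 1)], [4], [(2, 0,
      [3]), (3, 1, [3]), (6, 0, [3])]⟩,
    ⟨[(2, 3), (3, 4)], [(2, 1), (3, 0), (3, 1), (4, 0)], [(0, 1)], [5], [(4, 1, [3]), (6,
      0, [3])]⟩,
    ⟨[(3, 4)], [(3, 0), (4, 0), (4, 1), (5, 0)], [], [4, 5], [(6, 0, [3])]⟩]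
  Ta := [((2, 1), 0, 2), ((2, 3), 0, 1), ((2, 7), 0, 4), ((3, 2), 1, 0), ((4, 5), 1, 6), ((4, 8),
    1, 5), ((6, 8), 0, 5)]
  Tb := [((0, 1, 5), 3, 2, 6), ((1, 0, 2), 2, 3, 0), ((2, 1, 3), 0, 2, 1), ((2, 1, 7), 0, 2, 4),
    ((2, 3, 7), 0, 1, 4), ((4, 5, 8), 1, 6, 5), ((5, 0, 4), 6, 3, 1), ((7, 2, 8), 4, 0, 5),
    ((8, 4, 6), 5, 1, 0), ((8, 4, 7), 5, 1, 4), ((8, 6, 7), 5, 0, 4)]
  Tc := [(3, 0, 1)]
  Td := [((0, 3), (2, 1), 2), ((0, 3), (2, 3), 1), ((0, 3), (2, 7), 4), ((0, 3), (6, 8), 5), ((1,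
    3), (3, 2), 0), ((1, 3), (4, 5), 6), ((1, 3), (4, 8), 5), ((3, 0), (0, 1), 2), ((3, 0),
    (0, 5), 6), ((3, 1), (0, 1), 2), ((3, 1), (0, 5), 6)]
  G := [[0, 0x11c11c62121418e2181214e4e81, 0x1221c42112c81212c4d42, 0x1221c42212c82212c8d41,
    0x1221c41222c81221c8d82], [0, 0, 0x14c11ca44418185e8125129c8d82,
    0x81c129c482c24cc186c149a4d81, 0xc111ca4125e1c8611814e4d82], [0, 0, 0,
    0xe222c422e2c886a22c4d81, 0xe222c422e2c8e222c4d82], [0, 0, 0,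
    0x86c2844e42424cc888c24c482c8cd81, 0x2424cc888c24c482c8c544482c28cc892]]

noncomputable def n1628 : Ent := ⟨e1628, noF, [], [], []⟩

def c1628 : PLift (Cov.check n1628.C.D v1628 = true) := ⟨by decide +kernel⟩

def b1628 : PLift (entF (fidx ts) 400 1628 n1628 = true) := ⟨by decide +kernel⟩

theorem g1628 : GoodF (fidx ts) 400 1628 := GoodF.ofV v1628 n1628 c1628.down b1628.down

/-- 4576644:1357/2 -/
noncomputable def e1629 : SCfg where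
  D := {
    a := 7
    L := 10
    kp := 7
    inn := [(0, 1), (0, 2), (1, 0), (1, 2), (2, 0), (2, 1), (2, 3), (3, 2), (3, 4), (3, 5), (4, 3), (4,
      6), (5, 3), (6, 4)]
    mix := [(0, 0), (0, 1), (1, 1), (1, 2), (1, 3), (2, 0), (2, 3), (2, 4), (2, 5), (3, 3), (3, 4), (3,
      6), (4, 2), (4, 3), (4, 6), (4, 7), (5, 4), (5, 6), (5, 8), (6, 6), (6, 7), (6, 9)]
    cl := [3, 2, 0, 1, 1, 5, 0, 4, 6, 7]
    chq := [(0, 3), (1, 3), (3, 0), (3, 1)]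
    rng := [(0, 1), (0, 5), (1, 0), (1, 2), (2, 1), (2, 3), (2, 7), (3, 2), (4, 5), (4, 8), (5, 0), (5,
      4), (6, 8), (6, 9), (7, 2), (7, 9), (8, 4), (8, 6), (9, 6), (9, 7)]
    lev := [] }
  links := [[1, 2, 7, 8], [2, 0, 8, 9, 10], [7, 0, 1, 10, 3, 11, 12], [11, 2, 10, 4, 13, 5], [13, 3, 10,
    9, 14, 6], [11, 3, 13, 15], [13, 4, 14, 16]]
  P := {
    a := 7
    N := 17
    nb := [390, 1797, 7307, 11316, 26184, 43016, 90128, 4357, 643, 17682, 542, 36908, 2180, 98424,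
      66128, 10272, 24640]
    tri := [(0, 1, 2), (0, 1, 8), (0, 2, 7), (0, 7, 8), (1, 2, 10), (1, 8, 9), (1, 9, 10), (2, 3, 10),
      (2, 3, 11), (2, 7, 12), (2, 11, 12), (3, 4, 10), (3, 4, 13), (3, 5, 11), (3, 5, 13), (4, 6,
      13), (4, 6, 14), (4, 9, 10), (4, 9, 14), (5, 11, 15), (5, 13, 15), (6, 13, 16), (6, 14, 16)]
    fin := [0, 0, 0, 3, 4, 4, 4, 0, 8, 4, 3, 3, 12, 4, 14, 15, 16]
    chd := [(0, 3), (0, 4)]
    steps := [(0, 1), (0, 2), (0, 7), (3, 10), (3, 11), (4, 6), (4, 9), (4, 13), (4, 5)] }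
  rep := [4, 3, 8, 0, 14, 12, 15, 16]

noncomputable def v1629 : Cov.CovD where
  P := 3
  N := 5
  pl := [1, 5, 7, 8, 9]
  lev := [⟨[], [], [], [2], [(0, 3, [0, 1])]⟩,
    ⟨[], [(0, 0), (0, 1), (0, 3)], [(0, 1)], [2], [(2, 0, [3]), (3, 1, [3])]⟩,
    ⟨[(0, 1)], [(0, 1), (0, 3), (1, 0), (1, 1), (1, 3)], [(1, 1), (1, 3)], [5], [(0, 3, [0,
      1]), (3, 1, [3]), (4, 1, [3])]⟩,
    ⟨[(0, 2), (1, 2)], [(1, 1), (2, 0), (2, 1), (2, 3)], [(0, 1), (1, 1)], [], [(3, 1,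
      [3]), (4, 1, [3]), (6, 0, [3])]⟩,
    ⟨[(2, 3)], [(1, 0), (1, 1), (2, 1), (3, 0), (3, 1)], [(0, 0), (0, 1)], [4], [(2, 0,
      [3]), (3, 1, [3]), (6, 0, [3])]⟩,
    ⟨[(2, 3), (3, 4)], [(2, 1), (3, 0), (3, 1), (4, 0)], [(0, 1)], [6], [(4, 1, [3]), (6,
      0, [3])]⟩,
    ⟨[(3, 4)], [(3, 0), (4, 0), (4, 1), (5, 0)], [], [4, 7], [(6, 0, [3])]⟩]
  Ta := [((2, 1), 0, 2), ((2, 3), 0, 1), ((2, 7), 0, 4), ((3, 2), 1, 0), ((4, 5), 1, 5), ((4, 8),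
    1, 6), ((6, 8), 0, 6), ((6, 9), 0, 7)]
  Tb := [((0, 1, 5), 3, 2, 5), ((1, 0, 2), 2, 3, 0), ((2, 1, 3), 0, 2, 1), ((2, 1, 7), 0, 2, 4),
    ((2, 3, 7), 0, 1, 4), ((4, 5, 8), 1, 5, 6), ((5, 0, 4), 5, 3, 1), ((6, 8, 9), 0, 6, 7),
    ((7, 2, 9), 4, 0, 7), ((8, 4, 6), 6, 1, 0), ((9, 6, 7), 7, 0, 4)]
  Tc := [(3, 0, 1)]
  Td := [((0, 3), (2, 1), 2), ((0, 3), (2, 3), 1), ((0, 3), (2, 7), 4), ((0, 3), (6, 8), 6), ((0,
    3), (6, 9), 7), ((1, 3), (3, 2), 0), ((1, 3), (4, 5), 5), ((1, 3), (4, 8), 6), ((3, 0),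
    (0, 1), 2), ((3, 0), (0, 5), 5), ((3, 1), (0, 1), 2), ((3, 1), (0, 5), 5)]
  G := [[0, 0x121814e4141812e81221814cae81, 0x1212c41212c81212c4d42, 0x12862451262c81262c8d41,
    0xa212c412b2c81262c8d82], [0, 0, 0x11c2141e4c111c68614a18cd42,
    0xc111ca4c111c68e12141e4d41, 0xc111ca4c111c68e12141e4d82], [0, 0, 0,
    0x624a28c4424a222cc624a28c9c1, 0xa284624a28c424a222ccd6248892], [0, 0, 0,
    0xa88466c4aac8c5644eac2848ec246ec84e8cc1, 0x66c4aac8c1644eac2848ec246ec84ea88cc92]]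

noncomputable def n1629 : Ent := ⟨e1629, noF, [], [], [(16, 15, [1685356702439545624007900436039642273970977273354372543760006758401, 0])]⟩

def c1629 : PLift (Cov.check n1629.C.D v1629 = true) := ⟨by decide +kernel⟩

def b1629 : PLift (entF (fidx ts) 400 1629 n1629 = true) := ⟨by decide +kernel⟩

theorem g1629 : GoodF (fidx ts) 400 1629 := GoodF.ofV v1629 n1629 c1629.down b1629.down

/-- 4576644:1357/4 -/
noncomputable def e1630 : SCfg where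
  D := {
    a := 7
    L := 10
    kp := 7
    inn := [(0, 1), (0, 2), (1, 0), (1, 2), (2, 0), (2, 1), (2, 3), (3, 2), (3, 4), (3, 5), (4, 3), (4,
      6), (5, 3), (6, 4)]
    mix := [(0, 0), (0, 1), (1, 1), (1, 2), (1, 3), (2, 0), (2, 3), (2, 4), (2, 5), (3, 3), (3, 4), (3,
      6), (4, 3), (4, 6), (4, 7), (4, 8), (5, 4), (5, 6), (5, 9), (6, 6), (6, 8), (6, 9)]
    cl := [1, 2, 6, 0, 0, 7, 3, 3, 4, 5]
    chq := [(0, 1), (1, 0), (1, 6), (6, 1)]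
    rng := [(0, 1), (0, 5), (1, 0), (1, 2), (2, 1), (2, 3), (3, 2), (3, 7), (4, 5), (4, 9), (5, 0), (5,
      4), (6, 9), (7, 3), (7, 8), (8, 7), (8, 9), (9, 4), (9, 6), (9, 8)]
    lev := [] }
  links := [[1, 2, 7, 8], [2, 0, 8, 9, 10], [7, 0, 1, 10, 3, 11, 12], [11, 2, 10, 4, 13, 5], [13, 3, 10,
    14, 15, 6], [11, 3, 13, 16], [13, 4, 15, 16]]
  P := {
    a := 7
    N := 17
    nb := [390, 1797, 7307, 11316, 58440, 75784, 106512, 4357, 643, 1282, 16926, 69676, 2180, 65656,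
      33808, 82000, 43104]
    tri := [(0, 1, 2), (0, 1, 8), (0, 2, 7), (0, 7, 8), (1, 2, 10), (1, 8, 9), (1, 9, 10), (2, 3, 10),
      (2, 3, 11), (2, 7, 12), (2, 11, 12), (3, 4, 10), (3, 4, 13), (3, 5, 11), (3, 5, 13), (4, 6,
      13), (4, 6, 15), (4, 10, 14), (4, 14, 15), (5, 11, 16), (5, 13, 16), (6, 13, 16), (6, 15,
      16)]
    fin := [0, 0, 0, 3, 4, 3, 4, 0, 8, 9, 3, 3, 12, 4, 4, 15, 16]
    chd := [(0, 3), (0, 9)]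
    steps := [(0, 1), (0, 2), (0, 7), (3, 5), (3, 10), (3, 11), (4, 6), (4, 14), (4, 13)] }
  rep := [3, 0, 8, 4, 15, 16, 9, 12]

noncomputable def v1630 : Cov.CovD where
  P := 3
  N := 5
  pl := [1, 5, 8, 9]
  lev := [⟨[], [], [], [2], [(0, 1, [0, 6])]⟩,
    ⟨[], [(0, 0), (0, 1), (0, 6)], [(0, 6)], [2], [(2, 6, [1]), (3, 0, [1])]⟩,
    ⟨[(0, 1)], [(0, 0), (0, 1), (1, 0), (1, 1), (1, 6)], [(0, 0), (0, 1)], [7], [(0, 1, [0,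
      6]), (3, 0, [1]), (4, 0, [1])]⟩,
    ⟨[(0, 2), (1, 2)], [(1, 0), (2, 0), (2, 1), (2, 3)], [(0, 0), (0, 3)], [], [(3, 0,
      [1]), (4, 0, [1]), (6, 3, [])]⟩,
    ⟨[(2, 3)], [(1, 0), (2, 0), (3, 0), (3, 3)], [(0, 3), (3, 3)], [4], [(3, 0, [1]), (6,
      3, []), (7, 3, [])]⟩,
    ⟨[(2, 3), (3, 4)], [(2, 0), (3, 0), (3, 3), (4, 3)], [(0, 3)], [5], [(4, 0, [1]), (6,
      3, [])]⟩,
    ⟨[(3, 4)], [(3, 3), (4, 0), (4, 3), (5, 3)], [], [4, 5], [(6, 3, [])]⟩]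
  Ta := [((3, 2), 0, 6), ((3, 7), 0, 3), ((4, 5), 0, 7), ((4, 9), 0, 5), ((6, 9), 3, 5), ((7, 3),
    3, 0), ((7, 8), 3, 4)]
  Tb := [((0, 1, 5), 1, 2, 7), ((1, 0, 2), 2, 1, 6), ((2, 1, 3), 6, 2, 0), ((3, 2, 7), 0, 6, 3),
    ((4, 5, 9), 0, 7, 5), ((5, 0, 4), 7, 1, 0), ((7, 3, 8), 3, 0, 4), ((8, 7, 9), 4, 3, 5),
    ((9, 4, 6), 5, 0, 3), ((9, 4, 8), 5, 0, 4), ((9, 6, 8), 5, 3, 4)]
  Tc := [(1, 0, 6)]
  Td := [((0, 1), (3, 2), 6), ((0, 1), (3, 7), 3), ((0, 1), (4, 5), 7), ((0, 1), (4, 9), 5), ((1,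
    0), (0, 1), 2), ((1, 0), (0, 5), 7), ((1, 6), (0, 1), 2), ((1, 6), (0, 5), 7), ((6, 1),
    (2, 1), 2), ((6, 1), (2, 3), 0)]
  G := [[0, 0x91421d166718851b1ab1516ce14, 0xd131cb151a67191c71916ac28,
    0x85c31c83951a631d1c71916ac851b1c83951a611d1ca17111eac45, 0xd131c83a51a631d1c31d16ac28],
    [0, 0x11d151e2311191e4a18, 0x81aa112ae4116412751e8c24,
    0x51b4c11ce261416126e8c17a31a91e411c419751e2cc1, 0x83c34c11e281c34c51e2c28], [0,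
    0xb14d126718d12a718b14ce18, 0x22285c11a52644f81a18ae1494c88d3243691c22fac24,
    0x11614c22e8822a8841611cee414422681c1822e81a41611cee81c,
    0x44481c18c83a43611c22fe13694c9888f43614227ac21], [0, 0x311191e46111253e8c14,
    0x81a12aa14c46126281c14ccac24, 0x12a281c14cc6126281c14ccac14,
    0x81a12aa14c46416126681c8ac28]]

noncomputable def n1630 : Ent := ⟨e1630, noF, [], [], [(9, 14, [1685382413448253767852309107433119732572617628602273068445371580417, 0])]⟩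

def c1630 : PLift (Cov.check n1630.C.D v1630 = true) := ⟨by decide +kernel⟩

def b1630 : PLift (entF (fidx ts) 400 1630 n1630 = true) := ⟨by decide +kernel⟩

theorem g1630 : GoodF (fidx ts) 400 1630 := GoodF.ofV v1630 n1630 c1630.down b1630.down

/-- 4576644:1357 -/
noncomputable def e1631 : SCfg where
  D := {
    a := 7
    L := 11
    kp := 8
    inn := [(0, 1), (0, 2), (1, 0), (1, 2), (2, 0), (2, 1), (2, 3), (3, 2), (3, 4), (3, 5), (4, 3), (4,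
      6), (5, 3), (6, 4)]
    mix := [(0, 0), (0, 1), (1, 1), (1, 2), (1, 3), (2, 0), (2, 3), (2, 4), (2, 5), (3, 3), (3, 4), (3,
      6), (4, 3), (4, 6), (4, 7), (4, 8), (5, 4), (5, 6), (5, 9), (6, 6), (6, 8), (6, 10)]
    cl := [3, 2, 5, 0, 0, 6, 1, 1, 4, 7, 8]
    chq := [(3, 5), (5, 3), (5, 6), (6, 5)]
    rng := [(0, 1), (0, 5), (1, 0), (1, 2), (2, 1), (2, 3), (3, 2), (3, 7), (4, 5), (4, 9), (5, 0), (5,
      4), (6, 9), (6, 10), (7, 3), (7, 8), (8, 7), (8, 10), (9, 4), (9, 6), (10, 6), (10, 8)]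
    lev := [] }
  links := [[1, 2, 7, 8], [2, 0, 8, 9, 10], [7, 0, 1, 10, 3, 11, 12], [11, 2, 10, 4, 13, 5], [13, 3, 10,
    14, 15, 6], [11, 3, 13, 16], [13, 4, 15, 17]]
  P := {
    a := 7
    N := 18
    nb := [390, 1797, 7307, 11316, 58440, 75784, 172048, 4357, 643, 1282, 16926, 69676, 2180, 196728,
      33808, 147536, 10272, 41024]
    tri := [(0, 1, 2), (0, 1, 8), (0, 2, 7), (0, 7, 8), (1, 2, 10), (1, 8, 9), (1, 9, 10), (2, 3, 10),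
      (2, 3, 11), (2, 7, 12), (2, 11, 12), (3, 4, 10), (3, 4, 13), (3, 5, 11), (3, 5, 13), (4, 6,
      13), (4, 6, 15), (4, 10, 14), (4, 14, 15), (5, 11, 16), (5, 13, 16), (6, 13, 17), (6, 15,
      17)]
    fin := [0, 1, 1, 3, 4, 3, 4, 0, 8, 1, 3, 3, 12, 4, 4, 15, 16, 17]
    chd := [(0, 1), (1, 12)]
    steps := [(0, 7), (1, 2), (1, 9), (3, 5), (3, 10), (3, 11), (4, 6), (4, 14), (4, 13)] }
  rep := [3, 4, 8, 0, 15, 1, 12, 16, 17]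

noncomputable def v1631 : Cov.CovD where
  P := 3
  N := 6
  pl := [1, 8, 9, 10]
  lev := [⟨[], [], [], [2], [(0, 3, [5])]⟩,
    ⟨[], [(0, 0), (0, 3), (0, 5)], [(0, 5)], [2], [(2, 5, [3, 6]), (3, 0, [])]⟩,
    ⟨[(0, 1)], [(0, 0), (0, 3), (0, 6), (1, 0), (1, 3), (1, 5), (1, 6)], [(0, 0), (0, 3),
      (0, 6), (3, 6)], [], [(0, 3, [5]), (3, 0, []), (4, 0, []), (5, 6, [5])]⟩,
    ⟨[(0, 2), (1, 2)], [(1, 0), (2, 0), (2, 1), (2, 3), (2, 6)], [(0, 0), (0, 1)], [], [(3,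
      0, []), (4, 0, []), (6, 1, [])]⟩,
    ⟨[(2, 3)], [(1, 0), (2, 0), (3, 0), (3, 1)], [(0, 1), (1, 1)], [4], [(3, 0, []), (6, 1,
      []), (7, 1, [])]⟩,
    ⟨[(2, 3), (3, 4)], [(2, 0), (3, 0), (3, 1), (4, 1)], [(0, 1)], [7], [(4, 0, []), (6, 1,
      [])]⟩,
    ⟨[(3, 4)], [(3, 1), (4, 0), (4, 1), (5, 1)], [], [4, 8], [(6, 1, [])]⟩]
  Ta := [((3, 2), 0, 5), ((3, 7), 0, 1), ((4, 5), 0, 6), ((4, 9), 0, 7), ((6, 9), 1, 7), ((6,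
    10), 1, 8), ((7, 3), 1, 0), ((7, 8), 1, 4)]
  Tb := [((0, 1, 5), 3, 2, 6), ((1, 0, 2), 2, 3, 5), ((2, 1, 3), 5, 2, 0), ((3, 2, 7), 0, 5, 1),
    ((4, 5, 9), 0, 6, 7), ((5, 0, 4), 6, 3, 0), ((6, 9, 10), 1, 7, 8), ((7, 3, 8), 1, 0, 4),
    ((8, 7, 10), 4, 1, 8), ((9, 4, 6), 7, 0, 1), ((10, 6, 8), 8, 1, 4)]
  Tc := [(5, 3, 6)]
  Td := [((3, 5), (0, 1), 2), ((3, 5), (0, 5), 6), ((5, 3), (2, 1), 2), ((5, 3), (2, 3), 0), ((5,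
    6), (2, 1), 2), ((5, 6), (2, 3), 0), ((6, 5), (5, 0), 3), ((6, 5), (5, 4), 0)]
  G := [[0, 0, 0x9111c4514918cc2414884514918c514918c641488ce,
    0x9111c44148514918ce481841151c84149111cce88184441488cd,
    0x9111c41151c818c4148e2514918c514918c68414882b], [0x116116a482121814e84811611aa428e,
    0x11a1166484181214e248116116a824d, 0x9151c2822151c8429221c424e,
    0x9221c4842151c8489121c428d, 0xe121c482e121c42861a1c842b], [0, 0,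
    0xd9c1848d45448a145dc84d988c465448825459cc4d988c55c499c8c654488ae,
    0x8418499c84145dcc855c4988ce998844544d9c1848dc55c499c8cac5,
    0x1844c548ddc84145dcc988cc3145dcc988c55c499c8c618418414488ab], [0, 0,
    0xc222c94c222c58c2c222c941222c82d8a46, 0x9228c54462452c288ca121652c888a524928c61c,
    0x92855c46524928cc1524928c524928c689]]

noncomputable def n1631 : Ent := ⟨e1631, noF, [], [], [(8, 17, [6903326391201334775872065844685381424292761054348340378595029936353281, 0]), (9, 14, [7334790875878422277917280412776772662961875900559637987928627376148481, 0]), (17, 16, [7334685537875745012586738086077695515070955365108989538292687700353025, 0])]⟩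

def c1631 : PLift (Cov.check n1631.C.D v1631 = true) := ⟨by decide +kernel⟩

def b1631 : PLift (entF (fidx ts) 400 1631 n1631 = true) := ⟨by decide +kernel⟩

theorem g1631 : GoodF (fidx ts) 400 1631 := GoodF.ofV v1631 n1631 c1631.down b1631.down

/-- 4576484:1358/2 -/
noncomputable def e1632 : SCfg where
  D := {
    a := 7
    L := 9
    kp := 6
    inn := [(0, 1), (0, 2), (1, 0), (1, 2), (2, 0), (2, 1), (2, 3), (2, 5), (3, 2), (3, 4), (3, 5), (4,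
      3), (4, 5), (5, 2), (5, 3), (5, 4), (5, 6), (6, 5)]
    mix := [(0, 0), (0, 1), (1, 1), (1, 2), (1, 3), (2, 0), (2, 3), (2, 4), (3, 2), (3, 3), (3, 5), (4,
      5), (4, 6), (5, 4), (5, 6), (5, 7), (5, 8), (6, 1), (6, 6), (6, 7)]
    cl := [0, 1, 2, 0, 4, 5, 3, 6, 3]
    chq := [(2, 4), (4, 2), (4, 5), (5, 4)]
    rng := [(0, 1), (0, 4), (1, 0), (1, 2), (1, 6), (1, 7), (2, 1), (2, 3), (2, 5), (3, 2), (4, 0), (4,
      8), (5, 2), (5, 6), (6, 1), (6, 5), (7, 1), (7, 8), (8, 4), (8, 7)]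
    lev := [] }
  links := [[1, 2, 7, 8], [2, 0, 8, 9, 10], [7, 0, 1, 10, 3, 5, 11], [5, 2, 10, 9, 12, 4], [5, 3, 12,
    13], [11, 2, 3, 4, 13, 6, 14, 15], [14, 5, 13, 8]]
  P := {
    a := 7
    N := 16
    nb := [390, 1797, 3243, 5684, 12328, 59484, 24864, 2309, 25283, 5386, 526, 32932, 8728, 4464,
      33120, 18464]
    tri := [(0, 1, 2), (0, 1, 8), (0, 2, 7), (0, 7, 8), (1, 2, 10), (1, 8, 9), (1, 9, 10), (2, 3, 5),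
      (2, 3, 10), (2, 5, 11), (2, 7, 11), (3, 4, 5), (3, 4, 12), (3, 9, 10), (3, 9, 12), (4, 5,
      13), (4, 12, 13), (5, 6, 13), (5, 6, 14), (5, 11, 15), (5, 14, 15), (6, 8, 13), (6, 8, 14)]
    fin := [0, 0, 2, 2, 4, 5, 6, 0, 6, 9, 0, 2, 4, 5, 14, 5]
    chd := [(2, 4), (9, 2)]
    steps := [(0, 1), (0, 7), (0, 10), (2, 3), (2, 11), (4, 12), (5, 13), (5, 15), (6, 8)] }
  rep := [0, 6, 9, 5, 2, 4, 14]

noncomputable def v1632 : Cov.CovD where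
  P := 3
  N := 4
  pl := [1, 7]
  lev := [⟨[], [], [], [1], [(0, 0, [])]⟩,
    ⟨[], [(0, 0), (0, 2)], [(0, 2)], [1], [(2, 2, [4]), (3, 0, [])]⟩,
    ⟨[(0, 1)], [(0, 0), (0, 4), (1, 0), (1, 2), (1, 4)], [(0, 0), (0, 4)], [], [(0, 0, []),
      (3, 0, []), (4, 4, [2, 5])]⟩,
    ⟨[(0, 2), (1, 2)], [(1, 0), (1, 2), (2, 0), (2, 2), (2, 4), (2, 5)], [(0, 2), (0, 5),
      (2, 5)], [], [(2, 2, [4]), (3, 0, []), (5, 5, [4])]⟩,
    ⟨[(2, 3)], [(3, 0), (3, 2), (3, 3), (3, 5)], [(3, 5)], [], [(5, 5, [4]), (6, 3, [])]⟩,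
    ⟨[(0, 2), (1, 2), (2, 3), (2, 4), (3, 4)], [(2, 0), (2, 3), (2, 4), (3, 0), (3, 2), (3,
      3), (3, 4), (3, 5), (4, 3), (4, 4), (4, 5)], [(3, 3), (3, 4)], [6], [(4, 4, [2, 5]),
      (6, 3, []), (8, 3, [])]⟩,
    ⟨[(2, 5), (3, 5), (4, 5)], [(4, 3), (5, 3), (5, 4)], [], [1, 6], [(6, 3, [])]⟩]
  Ta := [((0, 1), 0, 1), ((0, 4), 0, 4), ((3, 2), 0, 2), ((6, 1), 3, 1), ((6, 5), 3, 5), ((8, 4),
    3, 4), ((8, 7), 3, 6)]
  Tb := [((0, 1, 4), 0, 1, 4), ((1, 0, 2), 1, 0, 2), ((1, 0, 6), 1, 0, 3), ((1, 0, 7), 1, 0, 6),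
    ((1, 2, 6), 1, 2, 3), ((1, 2, 7), 1, 2, 6), ((1, 6, 7), 1, 3, 6), ((2, 1, 3), 2, 1, 0),
    ((2, 1, 5), 2, 1, 5), ((2, 3, 5), 2, 0, 5), ((4, 0, 8), 4, 0, 3), ((5, 2, 6), 5, 2, 3),
    ((6, 1, 5), 3, 1, 5), ((7, 1, 8), 6, 1, 3), ((8, 4, 7), 3, 4, 6)]
  Tc := [(4, 2, 5)]
  Td := [((2, 4), (2, 1), 1), ((2, 4), (2, 3), 0), ((2, 4), (2, 5), 5), ((4, 2), (4, 0), 0), ((4,
    2), (4, 8), 3), ((4, 5), (4, 0), 0), ((4, 5), (4, 8), 3), ((5, 4), (5, 2), 2), ((5, 4),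
    (5, 6), 3)]
  G := [[0, 0xe11c1a16c288, 0, 0xd224d228c18, 0x4ca41244416328c171194f9841b8196ac98], [0,
    0xc12611c248, 0, 0x92284c2248c8, 0x8834891d211681acb488], [0, 0,
    0x88224c254394c1b4156648178484cac4, 0xd224d228c81, 0x8c17441b82e441b8196a484422889], [0,
    0, 0x8c61148c93a4c8b14688, 0x5224c228c81, 0x181b8c65891d423a481]]

noncomputable def n1632 : Ent := ⟨e1632, noF, [], [], []⟩

def c1632 : PLift (Cov.check n1632.C.D v1632 = true) := ⟨by decide +kernel⟩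

def b1632 : PLift (entF (fidx ts) 400 1632 n1632 = true) := ⟨by decide +kernel⟩

theorem g1632 : GoodF (fidx ts) 400 1632 := GoodF.ofV v1632 n1632 c1632.down b1632.down

/-- 4576484:1358/1 -/
noncomputable def e1633 : SCfg where
  D := {
    a := 7
    L := 10
    kp := 7
    inn := [(0, 1), (0, 2), (1, 0), (1, 2), (2, 0), (2, 1), (2, 3), (2, 5), (3, 2), (3, 4), (3, 5), (4,
      3), (4, 5), (5, 2), (5, 3), (5, 4), (5, 6), (6, 5)]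
    mix := [(0, 0), (0, 1), (1, 1), (1, 2), (1, 3), (2, 0), (2, 3), (2, 4), (3, 3), (3, 5), (3, 6), (4,
      6), (4, 7), (5, 4), (5, 7), (5, 8), (5, 9), (6, 1), (6, 7), (6, 8)]
    cl := [0, 1, 7, 0, 2, 6, 4, 3, 5, 3]
    chq := [(2, 4), (2, 6), (4, 2), (6, 2)]
    rng := [(0, 1), (0, 4), (1, 0), (1, 2), (1, 7), (1, 8), (2, 1), (2, 3), (3, 2), (3, 5), (4, 0), (4,
      9), (5, 3), (5, 6), (6, 5), (6, 7), (7, 1), (7, 6), (8, 1), (8, 9), (9, 4), (9, 8)]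
    lev := [] }
  links := [[1, 2, 7, 8], [2, 0, 8, 9, 10], [7, 0, 1, 10, 3, 5, 11], [5, 2, 10, 12, 13, 4], [5, 3, 13,
    14], [11, 2, 3, 4, 14, 6, 15, 16], [15, 5, 14, 8]]
  P := {
    a := 7
    N := 17
    nb := [390, 1797, 3243, 13364, 24616, 116828, 49440, 2309, 49859, 1282, 4622, 65700, 9224, 20504,
      8560, 65888, 34848]
    tri := [(0, 1, 2), (0, 1, 8), (0, 2, 7), (0, 7, 8), (1, 2, 10), (1, 8, 9), (1, 9, 10), (2, 3, 5),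
      (2, 3, 10), (2, 5, 11), (2, 7, 11), (3, 4, 5), (3, 4, 13), (3, 10, 12), (3, 12, 13), (4, 5,
      14), (4, 13, 14), (5, 6, 14), (5, 6, 15), (5, 11, 16), (5, 15, 16), (6, 8, 14), (6, 8, 15)]
    fin := [0, 0, 2, 2, 4, 5, 6, 0, 6, 9, 0, 2, 12, 4, 5, 15, 5]
    chd := [(2, 4), (2, 12)]
    steps := [(0, 1), (0, 7), (0, 10), (2, 3), (2, 11), (4, 13), (5, 14), (5, 16), (6, 8)] }
  rep := [0, 6, 2, 5, 4, 15, 12, 9]

noncomputable def v1633 : Cov.CovD where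
  P := 3
  N := 5
  pl := [1, 2, 8]
  lev := [⟨[], [], [], [1], [(0, 0, [])]⟩,
    ⟨[], [(0, 0)], [], [1, 7], [(3, 0, [])]⟩,
    ⟨[(0, 1)], [(0, 0), (0, 2), (1, 0), (1, 2)], [(0, 0), (0, 2)], [], [(0, 0, []), (3, 0,
      []), (4, 2, [4, 6])]⟩,
    ⟨[(0, 2), (1, 2)], [(1, 0), (2, 0), (2, 2), (2, 4), (2, 6)], [(0, 4), (0, 6), (4, 6)],
      [], [(3, 0, []), (5, 6, [2]), (6, 4, [2])]⟩,
    ⟨[(2, 3)], [(3, 0), (3, 3), (3, 4), (3, 6)], [(3, 4)], [], [(6, 4, [2]), (7, 3, [])]⟩,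
    ⟨[(0, 2), (1, 2), (2, 3), (2, 4), (3, 4)], [(2, 0), (2, 2), (2, 3), (3, 0), (3, 2), (3,
      3), (3, 4), (3, 6), (4, 2), (4, 3), (4, 4)], [(2, 3), (3, 3)], [5], [(4, 2, [4, 6]),
      (7, 3, []), (9, 3, [])]⟩,
    ⟨[(2, 5), (3, 5), (4, 5)], [(4, 3), (5, 2), (5, 3)], [], [1, 5], [(7, 3, [])]⟩]
  Ta := [((0, 1), 0, 1), ((0, 4), 0, 2), ((3, 2), 0, 7), ((3, 5), 0, 6), ((7, 1), 3, 1), ((7, 6),
    3, 4), ((9, 4), 3, 2), ((9, 8), 3, 5)]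
  Tb := [((0, 1, 4), 0, 1, 2), ((1, 0, 2), 1, 0, 7), ((1, 0, 7), 1, 0, 3), ((1, 0, 8), 1, 0, 5),
    ((1, 2, 7), 1, 7, 3), ((1, 2, 8), 1, 7, 5), ((1, 7, 8), 1, 3, 5), ((2, 1, 3), 7, 1, 0),
    ((3, 2, 5), 0, 7, 6), ((4, 0, 9), 2, 0, 3), ((5, 3, 6), 6, 0, 4), ((6, 5, 7), 4, 6, 3),
    ((7, 1, 6), 3, 1, 4), ((8, 1, 9), 5, 1, 3), ((9, 4, 8), 3, 2, 5)]
  Tc := [(2, 4, 6)]
  Td := [((2, 4), (4, 0), 0), ((2, 4), (4, 9), 3), ((2, 6), (4, 0), 0), ((2, 6), (4, 9), 3), ((4,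
    2), (6, 5), 6), ((4, 2), (6, 7), 3), ((6, 2), (5, 3), 0), ((6, 2), (5, 6), 4)]
  G := [[0, 0xa161e1d24a161e1d28c4, 0x1212149e1815e184c1e618, 0x4152424442e8288192a81924e14,
    0x42244c1b4841b48194ea14], [0, 0xa1a152861a1c28a4, 0x41681ac12148185a8261cc8,
    0x4414c241984992c18, 0x41384a94214], [0, 0, 0,
    0x42441526c241942b8192882ec4152421164152e8288888887acc1,
    0x42244c1b4841b48194ea4224c13448841bc8194eac4], [0, 0, 0,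
    0x81548552888852c441514c28198852c8c, 0x41384a9424211848bb42c8]]

noncomputable def n1633 : Ent := ⟨e1633, noF, [], [], [(9, 12, [1685382419726887998779855760127267502807434353888247252031589711873, 0])]⟩

def c1633 : PLift (Cov.check n1633.C.D v1633 = true) := ⟨by decide +kernel⟩

def b1633 : PLift (entF (fidx ts) 400 1633 n1633 = true) := ⟨by decide +kernel⟩

theorem g1633 : GoodF (fidx ts) 400 1633 := GoodF.ofV v1633 n1633 c1633.down b1633.down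

/-- 4576484:1358/3 -/
noncomputable def e1634 : SCfg where
  D := {
    a := 7
    L := 10
    kp := 7
    inn := [(0, 1), (0, 2), (1, 0), (1, 2), (2, 0), (2, 1), (2, 3), (2, 5), (3, 2), (3, 4), (3, 5), (4,
      3), (4, 5), (5, 2), (5, 3), (5, 4), (5, 6), (6, 5)]
    mix := [(0, 0), (0, 1), (1, 1), (1, 2), (1, 3), (2, 0), (2, 3), (2, 4), (3, 2), (3, 3), (3, 5), (4,
      5), (4, 6), (5, 4), (5, 6), (5, 7), (5, 8), (6, 6), (6, 7), (6, 9)]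
    cl := [1, 2, 3, 1, 0, 4, 0, 5, 6, 7]
    chq := [(0, 3), (3, 0), (6, 7), (7, 6)]
    rng := [(0, 1), (0, 4), (1, 0), (1, 2), (2, 1), (2, 3), (2, 5), (3, 2), (4, 0), (4, 8), (5, 2), (5,
      6), (6, 5), (6, 9), (7, 8), (7, 9), (8, 4), (8, 7), (9, 6), (9, 7)]
    lev := [] }
  links := [[1, 2, 7, 8], [2, 0, 8, 9, 10], [7, 0, 1, 10, 3, 5, 11], [5, 2, 10, 9, 12, 4], [5, 3, 12,
    13], [11, 2, 3, 4, 13, 6, 14, 15], [14, 5, 13, 16]]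
  P := {
    a := 7
    N := 17
    nb := [390, 1797, 3243, 5684, 12328, 59484, 90144, 2309, 643, 5386, 526, 32932, 8728, 69744,
      98400, 18464, 24640]
    tri := [(0, 1, 2), (0, 1, 8), (0, 2, 7), (0, 7, 8), (1, 2, 10), (1, 8, 9), (1, 9, 10), (2, 3, 5),
      (2, 3, 10), (2, 5, 11), (2, 7, 11), (3, 4, 5), (3, 4, 12), (3, 9, 10), (3, 9, 12), (4, 5,
      13), (4, 12, 13), (5, 6, 13), (5, 6, 14), (5, 11, 15), (5, 14, 15), (6, 13, 16), (6, 14,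
      16)]
    fin := [0, 0, 2, 2, 2, 5, 5, 0, 8, 9, 0, 2, 12, 2, 14, 15, 5]
    chd := [(9, 2), (15, 5)]
    steps := [(0, 1), (0, 7), (0, 10), (2, 3), (2, 4), (2, 13), (2, 11), (5, 6), (5, 16)] }
  rep := [2, 0, 8, 9, 12, 14, 15, 5]

noncomputable def v1634 : Cov.CovD where
  P := 3
  N := 5
  pl := [1, 5, 7]
  lev := [⟨[], [], [], [2], [(0, 1, [])]⟩,
    ⟨[], [(0, 1), (0, 3)], [(1, 3)], [2], [(2, 3, [0]), (3, 1, [])]⟩,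
    ⟨[(0, 1)], [(0, 0), (0, 1), (1, 0), (1, 1), (1, 3)], [(0, 1), (1, 1)], [], [(0, 1, []),
      (3, 1, []), (4, 0, [3])]⟩,
    ⟨[(0, 2), (1, 2)], [(1, 1), (1, 3), (2, 0), (2, 1), (2, 3)], [(1, 3)], [4], [(2, 3,
      [0]), (3, 1, [])]⟩,
    ⟨[(2, 3)], [(3, 0), (3, 1), (3, 3)], [], [4], [(6, 0, [3])]⟩,
    ⟨[(0, 2), (1, 2), (2, 3), (2, 4), (3, 4)], [(2, 0), (2, 1), (2, 6), (3, 0), (3, 1), (3,
      3), (3, 6), (4, 0), (4, 6)], [(0, 0), (0, 6)], [5], [(4, 0, [3]), (6, 0, [3]), (8, 6,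
      [7])]⟩,
    ⟨[(2, 5), (3, 5), (4, 5)], [(4, 0), (5, 0), (5, 6), (5, 7)], [(0, 7)], [5], [(6, 0,
      [3]), (9, 7, [6])]⟩]
  Ta := [((0, 1), 1, 2), ((0, 4), 1, 0), ((3, 2), 1, 3), ((4, 0), 0, 1), ((4, 8), 0, 6), ((6, 5),
    0, 4), ((6, 9), 0, 7)]
  Tb := [((0, 1, 4), 1, 2, 0), ((1, 0, 2), 2, 1, 3), ((2, 1, 3), 3, 2, 1), ((2, 1, 5), 3, 2, 4),
    ((2, 3, 5), 3, 1, 4), ((4, 0, 8), 0, 1, 6), ((5, 2, 6), 4, 3, 0), ((6, 5, 9), 0, 4, 7),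
    ((7, 8, 9), 5, 6, 7), ((8, 4, 7), 6, 0, 5), ((9, 6, 7), 7, 0, 5)]
  Tc := []
  Td := [((0, 3), (4, 0), 1), ((0, 3), (4, 8), 6), ((0, 3), (6, 5), 4), ((0, 3), (6, 9), 7), ((3,
    0), (2, 1), 2), ((3, 0), (2, 3), 1), ((3, 0), (2, 5), 4), ((6, 7), (8, 4), 0), ((6, 7),
    (8, 7), 5), ((7, 6), (9, 6), 0), ((7, 6), (9, 7), 5)]
  G := [[0, 0x13ce14a141492c4681146ca36c98, 0x916691e58e1824, 0xac6111a46ac1944f5812a1c14,
    0x319e1acea1428], [0, 0, 0xa161bab1ce14916319e68e18c2, 0, 0xac613ca14614619e6d6818c12],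
    [0, 0, 0xa46cac686ace65ac668a8924, 0xa4c214eac625ac618c6868c684bc18,
    0xc268ca46acea94c268ca486831], [0, 0, 0x6ace21ac668c85ac6216821a46cac4dc8, 0,
    0x6caa46a46acea5ac668a6849c12]]

noncomputable def n1634 : Ent := ⟨e1634, noF, [], [], [(8, 16, [1580044410770988437309982408355971841652082177953823432505695797249, 0])]⟩

def c1634 : PLift (Cov.check n1634.C.D v1634 = true) := ⟨by decide +kernel⟩

def b1634 : PLift (entF (fidx ts) 400 1634 n1634 = true) := ⟨by decide +kernel⟩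

theorem g1634 : GoodF (fidx ts) 400 1634 := GoodF.ofV v1634 n1634 c1634.down b1634.down

/-- 4576484:1358/4 -/
noncomputable def e1635 : SCfg where
  D := {
    a := 7
    L := 10
    kp := 7
    inn := [(0, 1), (0, 2), (1, 0), (1, 2), (2, 0), (2, 1), (2, 3), (2, 5), (3, 2), (3, 4), (3, 5), (4,
      3), (4, 5), (5, 2), (5, 3), (5, 4), (5, 6), (6, 5)]
    mix := [(0, 0), (0, 1), (1, 1), (1, 2), (1, 3), (2, 0), (2, 3), (2, 4), (3, 3), (3, 5), (3, 6), (4,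
      6), (4, 7), (5, 4), (5, 7), (5, 8), (5, 9), (6, 2), (6, 7), (6, 8)]
    cl := [0, 2, 5, 0, 1, 7, 4, 3, 6, 3]
    chq := [(1, 4), (1, 7), (4, 1), (7, 1)]
    rng := [(0, 1), (0, 4), (1, 0), (1, 2), (2, 1), (2, 3), (2, 7), (2, 8), (3, 2), (3, 5), (4, 0), (4,
      9), (5, 3), (5, 6), (6, 5), (6, 7), (7, 2), (7, 6), (8, 2), (8, 9), (9, 4), (9, 8)]
    lev := [] }
  links := [[1, 2, 7, 8], [2, 0, 8, 9, 10], [7, 0, 1, 10, 3, 5, 11], [5, 2, 10, 12, 13, 4], [5, 3, 13,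
    14], [11, 2, 3, 4, 14, 6, 15, 16], [15, 5, 14, 9]]
  P := {
    a := 7
    N := 17
    nb := [390, 1797, 3243, 13364, 24616, 116828, 49696, 2309, 643, 50498, 4622, 65700, 9224, 20504,
      8816, 66144, 34848]
    tri := [(0, 1, 2), (0, 1, 8), (0, 2, 7), (0, 7, 8), (1, 2, 10), (1, 8, 9), (1, 9, 10), (2, 3, 5),
      (2, 3, 10), (2, 5, 11), (2, 7, 11), (3, 4, 5), (3, 4, 13), (3, 10, 12), (3, 12, 13), (4, 5,
      14), (4, 13, 14), (5, 6, 14), (5, 6, 15), (5, 11, 16), (5, 15, 16), (6, 9, 14), (6, 9, 15)]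
    fin := [0, 0, 2, 2, 4, 5, 6, 0, 8, 6, 0, 2, 12, 4, 5, 15, 5]
    chd := [(2, 4), (2, 12)]
    steps := [(0, 1), (0, 7), (0, 10), (2, 3), (2, 11), (4, 13), (5, 14), (5, 16), (6, 9)] }
  rep := [0, 2, 8, 5, 4, 6, 15, 12]

noncomputable def v1635 : Cov.CovD where
  P := 3
  N := 5
  pl := [1, 2, 8]
  lev := [⟨[], [], [], [2], [(0, 0, [])]⟩,
    ⟨[], [(0, 0)], [], [2, 5], [(3, 0, [])]⟩,
    ⟨[(0, 1)], [(0, 0), (0, 1), (1, 0), (1, 1)], [(0, 0), (0, 1)], [], [(0, 0, []), (3, 0,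
      []), (4, 1, [4, 7])]⟩,
    ⟨[(0, 2), (1, 2)], [(1, 0), (2, 0), (2, 1), (2, 4), (2, 7)], [(0, 4), (0, 7), (4, 7)],
      [], [(3, 0, []), (5, 7, [1]), (6, 4, [1])]⟩,
    ⟨[(2, 3)], [(3, 0), (3, 3), (3, 4), (3, 7)], [(3, 4)], [], [(6, 4, [1]), (7, 3, [])]⟩,
    ⟨[(0, 2), (1, 2), (2, 3), (2, 4), (3, 4)], [(2, 0), (2, 1), (2, 3), (3, 0), (3, 1), (3,
      3), (3, 4), (3, 7), (4, 1), (4, 3), (4, 4)], [(1, 3), (3, 3)], [6], [(4, 1, [4, 7]),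
      (7, 3, []), (9, 3, [])]⟩,
    ⟨[(2, 5), (3, 5), (4, 5)], [(4, 3), (5, 1), (5, 3)], [], [5, 6], [(7, 3, [])]⟩]
  Ta := [((0, 1), 0, 2), ((0, 4), 0, 1), ((3, 2), 0, 5), ((3, 5), 0, 7), ((7, 2), 3, 5), ((7, 6),
    3, 4), ((9, 4), 3, 1), ((9, 8), 3, 6)]
  Tb := [((0, 1, 4), 0, 2, 1), ((1, 0, 2), 2, 0, 5), ((2, 1, 3), 5, 2, 0), ((2, 1, 7), 5, 2, 3),
    ((2, 1, 8), 5, 2, 6), ((2, 3, 7), 5, 0, 3), ((2, 3, 8), 5, 0, 6), ((2, 7, 8), 5, 3, 6),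
    ((3, 2, 5), 0, 5, 7), ((4, 0, 9), 1, 0, 3), ((5, 3, 6), 7, 0, 4), ((6, 5, 7), 4, 7, 3),
    ((7, 2, 6), 3, 5, 4), ((8, 2, 9), 6, 5, 3), ((9, 4, 8), 3, 1, 6)]
  Tc := [(1, 4, 7)]
  Td := [((1, 4), (4, 0), 0), ((1, 4), (4, 9), 3), ((1, 7), (4, 0), 0), ((1, 7), (4, 9), 3), ((4,
    1), (6, 5), 7), ((4, 1), (6, 7), 3), ((7, 1), (5, 3), 0), ((7, 1), (5, 6), 4)]
  G := [[0, 0xdb6159fe13f9e1e1818c14, 0x241121722882c2819288283c2744152415234c2b8ca,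
    0x8828823424c218615282219aa4261d6e8d4, 0x88214615242621d6261d2e282882882ec92], [0,
    0x17681ca1431a14c612c8, 0x61514c2888852c219414c238c4, 0x8156855248a892c14,
    0x41594c2a19a2c52c18], [0, 0, 0, 0x82a15a8392821d2e2424684b52426596243d2e2828a4c,
    0x421254443544b68291a8888887ace252623d2261d2e3882ca1], [0, 0, 0,
    0x423d82c924283d24c528c1, 0x63514c24884992c32924c528a1]]

noncomputable def n1635 : Ent := ⟨e1635, noF, [], [], []⟩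

def c1635 : PLift (Cov.check n1635.C.D v1635 = true) := ⟨by decide +kernel⟩

def b1635 : PLift (entF (fidx ts) 400 1635 n1635 = true) := ⟨by decide +kernel⟩

theorem g1635 : GoodF (fidx ts) 400 1635 := GoodF.ofV v1635 n1635 c1635.down b1635.down

/-- 4576484:1358 -/
noncomputable def e1636 : SCfg where
  D := {
    a := 7
    L := 11
    kp := 8
    inn := [(0, 1), (0, 2), (1, 0), (1, 2), (2, 0), (2, 1), (2, 3), (2, 5), (3, 2), (3, 4), (3, 5), (4,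
      3), (4, 5), (5, 2), (5, 3), (5, 4), (5, 6), (6, 5)]
    mix := [(0, 0), (0, 1), (1, 1), (1, 2), (1, 3), (2, 0), (2, 3), (2, 4), (3, 3), (3, 5), (3, 6), (4,
      6), (4, 7), (5, 4), (5, 7), (5, 8), (5, 9), (6, 7), (6, 8), (6, 10)]
    cl := [1, 2, 8, 1, 0, 5, 3, 0, 4, 6, 7]
    chq := [(0, 5), (5, 0), (6, 7), (7, 6)]
    rng := [(0, 1), (0, 4), (1, 0), (1, 2), (2, 1), (2, 3), (3, 2), (3, 5), (4, 0), (4, 9), (5, 3), (5,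
      6), (6, 5), (6, 7), (7, 6), (7, 10), (8, 9), (8, 10), (9, 4), (9, 8), (10, 7), (10, 8)]
    lev := [] }
  links := [[1, 2, 7, 8], [2, 0, 8, 9, 10], [7, 0, 1, 10, 3, 5, 11], [5, 2, 10, 12, 13, 4], [5, 3, 13,
    14], [11, 2, 3, 4, 14, 6, 15, 16], [15, 5, 14, 17]]
  P := {
    a := 7
    N := 18
    nb := [390, 1797, 3243, 13364, 24616, 116828, 180256, 2309, 643, 1282, 4622, 65700, 9224, 20504,
      139376, 196704, 34848, 49216]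
    tri := [(0, 1, 2), (0, 1, 8), (0, 2, 7), (0, 7, 8), (1, 2, 10), (1, 8, 9), (1, 9, 10), (2, 3, 5),
      (2, 3, 10), (2, 5, 11), (2, 7, 11), (3, 4, 5), (3, 4, 13), (3, 10, 12), (3, 12, 13), (4, 5,
      14), (4, 13, 14), (5, 6, 14), (5, 6, 15), (5, 11, 16), (5, 15, 16), (6, 14, 17), (6, 15,
      17)]
    fin := [0, 0, 2, 2, 2, 5, 5, 0, 8, 9, 0, 2, 12, 13, 2, 15, 16, 5]
    chd := [(2, 12), (16, 5)]
    steps := [(0, 1), (0, 7), (0, 10), (2, 3), (2, 4), (2, 14), (2, 11), (5, 6), (5, 17)] }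
  rep := [2, 0, 8, 13, 15, 12, 16, 5, 9]

noncomputable def v1636 : Cov.CovD where
  P := 3
  N := 6
  pl := [1, 2, 6, 8]
  lev := [⟨[], [], [], [2], [(0, 1, [])]⟩,
    ⟨[], [(0, 1)], [], [2, 8], [(3, 1, [])]⟩,
    ⟨[(0, 1)], [(0, 0), (0, 1), (1, 0), (1, 1)], [(0, 1), (1, 1)], [], [(0, 1, []), (3, 1,
      []), (4, 0, [5])]⟩,
    ⟨[(0, 2), (1, 2)], [(1, 1), (2, 0), (2, 1), (2, 5)], [(1, 5)], [3], [(3, 1, []), (5, 5,
      [0])]⟩,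
    ⟨[(2, 3)], [(3, 0), (3, 1), (3, 5)], [], [3], [(7, 0, [5])]⟩,
    ⟨[(0, 2), (1, 2), (2, 3), (2, 4), (3, 4)], [(2, 0), (2, 1), (2, 6), (3, 0), (3, 1), (3,
      5), (3, 6), (4, 0), (4, 6)], [(0, 0), (0, 6)], [4], [(4, 0, [5]), (7, 0, [5]), (9, 6,
      [7])]⟩,
    ⟨[(2, 5), (3, 5), (4, 5)], [(4, 0), (5, 0), (5, 6), (5, 7)], [(0, 7)], [4], [(7, 0,
      [5]), (10, 7, [6])]⟩]
  Ta := [((0, 1), 1, 2), ((0, 4), 1, 0), ((3, 2), 1, 8), ((3, 5), 1, 5), ((4, 0), 0, 1), ((4, 9),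
    0, 6), ((7, 6), 0, 3), ((7, 10), 0, 7)]
  Tb := [((0, 1, 4), 1, 2, 0), ((1, 0, 2), 2, 1, 8), ((2, 1, 3), 8, 2, 1), ((3, 2, 5), 1, 8, 5),
    ((4, 0, 9), 0, 1, 6), ((5, 3, 6), 5, 1, 3), ((6, 5, 7), 3, 5, 0), ((7, 6, 10), 0, 3, 7),
    ((8, 9, 10), 4, 6, 7), ((9, 4, 8), 6, 0, 4), ((10, 7, 8), 7, 0, 4)]
  Tc := []
  Td := [((0, 5), (4, 0), 1), ((0, 5), (4, 9), 6), ((0, 5), (7, 6), 3), ((0, 5), (7, 10), 7),
    ((5, 0), (5, 3), 1), ((5, 0), (5, 6), 3), ((6, 7), (9, 4), 0), ((6, 7), (9, 8), 4), ((7,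
    6), (10, 7), 0), ((7, 6), (10, 8), 4)]
  G := [[0, 0xa4151aa451acc23e126898c14, 0x319ed19ea1428, 0x35638119ee18356619e18e1851,
    0x135e691ea1428], [0, 0, 0x319e31cea14619e135e618c2, 0, 0x691e591ea14a415a619ee1891], [0,
    0, 0x2c6846a46cac846acead6848c24, 0xc226acec2c96ac425c2848c22a446c286846acc2abcd8,
    0xac6216821c26acca46caccd28], [0, 0, 0x6ace21ac668c6ace8c5c2ac6a4e16821ac668c6caa46cdc8,
    0, 0x6ace21ac668ca46cacc5ac62ac6ac6c5a46cac688682dc98]]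

noncomputable def n1636 : Ent := ⟨e1636, noF, [], [], [(8, 17, [6903326391201334775872065844685381424292761054348340378595029936377857, 0]), (9, 12, [7334790875884700912148207959429466810732110717284923962112213594284033, 0]), (9, 17, [6903326391201334775872065844685381424292761054348340378595029936386049, 0])]⟩

def c1636 : PLift (Cov.check n1636.C.D v1636 = true) := ⟨by decide +kernel⟩

def b1636 : PLift (entF (fidx ts) 400 1636 n1636 = true) := ⟨by decide +kernel⟩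

theorem g1636 : GoodF (fidx ts) 400 1636 := GoodF.ofV v1636 n1636 c1636.down b1636.down

/-- 4576484:1359/1 -/
noncomputable def e1637 : SCfg where
  D := {
    a := 7
    L := 10
    kp := 7
    inn := [(0, 1), (0, 2), (1, 0), (1, 2), (2, 0), (2, 1), (2, 3), (2, 5), (3, 2), (3, 4), (3, 5), (4,
      3), (4, 5), (5, 2), (5, 3), (5, 4), (5, 6), (6, 5)]
    mix := [(0, 0), (0, 1), (1, 1), (1, 2), (1, 3), (2, 0), (2, 3), (2, 4), (3, 2), (3, 3), (3, 5), (4,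
      5), (4, 6), (5, 4), (5, 6), (5, 7), (5, 8), (6, 4), (6, 8), (6, 9)]
    cl := [1, 2, 3, 1, 0, 5, 0, 6, 4, 7]
    chq := [(0, 3), (0, 4), (3, 0), (4, 0)]
    rng := [(0, 1), (0, 4), (1, 0), (1, 2), (2, 1), (2, 3), (2, 5), (3, 2), (4, 0), (4, 9), (5, 2), (5,
      6), (6, 5), (6, 7), (7, 6), (7, 8), (8, 7), (8, 9), (9, 4), (9, 8)]
    lev := [] }
  links := [[1, 2, 7, 8], [2, 0, 8, 9, 10], [7, 0, 1, 10, 3, 5, 11], [5, 2, 10, 9, 12, 4], [5, 3, 12,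
    13], [11, 2, 3, 4, 13, 14, 15, 6], [11, 5, 15, 16]]
  P := {
    a := 7
    N := 17
    nb := [390, 1797, 3243, 5684, 12328, 59484, 100384, 2309, 643, 5386, 526, 65764, 8728, 20528,
      40992, 82016, 34880]
    tri := [(0, 1, 2), (0, 1, 8), (0, 2, 7), (0, 7, 8), (1, 2, 10), (1, 8, 9), (1, 9, 10), (2, 3, 5),
      (2, 3, 10), (2, 5, 11), (2, 7, 11), (3, 4, 5), (3, 4, 12), (3, 9, 10), (3, 9, 12), (4, 5,
      13), (4, 12, 13), (5, 6, 11), (5, 6, 15), (5, 13, 14), (5, 14, 15), (6, 11, 16), (6, 15,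
      16)]
    fin := [0, 0, 0, 3, 3, 5, 5, 0, 8, 3, 0, 5, 12, 5, 14, 15, 16]
    chd := [(3, 5), (5, 15)]
    steps := [(0, 1), (0, 2), (0, 7), (0, 10), (3, 4), (3, 9), (5, 6), (5, 13), (5, 11)] }
  rep := [5, 0, 8, 3, 15, 12, 14, 16]

noncomputable def v1637 : Cov.CovD where
  P := 3
  N := 5
  pl := [1, 5, 7, 9]
  lev := [⟨[], [], [], [2], [(0, 1, [])]⟩,
    ⟨[], [(0, 1), (0, 3)], [(1, 3)], [2], [(2, 3, [0]), (3, 1, [])]⟩,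
    ⟨[(0, 1)], [(0, 0), (0, 1), (1, 0), (1, 1), (1, 3)], [(0, 1), (1, 1)], [], [(0, 1, []),
      (3, 1, []), (4, 0, [3, 4])]⟩,
    ⟨[(0, 2), (1, 2)], [(1, 1), (1, 3), (2, 0), (2, 1), (2, 3)], [(1, 3)], [5], [(2, 3,
      [0]), (3, 1, [])]⟩,
    ⟨[(2, 3)], [(3, 0), (3, 1), (3, 3)], [], [5], [(6, 0, [3, 4])]⟩,
    ⟨[(0, 2), (1, 2), (2, 3), (2, 4), (3, 4)], [(2, 0), (2, 1), (2, 4), (3, 0), (3, 1), (3,
      3), (3, 4), (4, 0), (4, 4)], [(0, 0), (0, 4)], [6], [(4, 0, [3, 4]), (6, 0, [3, 4]),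
      (8, 4, [0])]⟩,
    ⟨[(2, 5), (3, 5), (4, 5)], [(2, 0), (5, 0), (5, 4)], [(0, 4)], [7], [(4, 0, [3, 4]),
      (8, 4, [0])]⟩]
  Ta := [((0, 1), 1, 2), ((0, 4), 1, 0), ((3, 2), 1, 3), ((4, 0), 0, 1), ((4, 9), 0, 7), ((6, 5),
    0, 5), ((6, 7), 0, 6)]
  Tb := [((0, 1, 4), 1, 2, 0), ((1, 0, 2), 2, 1, 3), ((2, 1, 3), 3, 2, 1), ((2, 1, 5), 3, 2, 5),
    ((2, 3, 5), 3, 1, 5), ((4, 0, 9), 0, 1, 7), ((5, 2, 6), 5, 3, 0), ((6, 5, 7), 0, 5, 6),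
    ((7, 6, 8), 6, 0, 4), ((8, 7, 9), 4, 6, 7), ((9, 4, 8), 7, 0, 4)]
  Tc := [(0, 3, 4)]
  Td := [((0, 3), (4, 0), 1), ((0, 3), (4, 9), 7), ((0, 3), (6, 5), 5), ((0, 3), (6, 7), 6), ((0,
    4), (4, 0), 1), ((0, 4), (4, 9), 7), ((0, 4), (6, 5), 5), ((0, 4), (6, 7), 6), ((3, 0),
    (2, 1), 2), ((3, 0), (2, 3), 1), ((3, 0), (2, 5), 5), ((4, 0), (8, 7), 6), ((4, 0), (8,
    9), 7)]
  G := [[0, 0x2eaeeac144a4cece16e222c1e4ecaeece1ac4, 0xe444a14eaa2aeacee1c28,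
    0x1161e41ee68711a1e81eea4bc18, 0x44e4a1ae6eeae8e1c21], [0, 0,
    0xee644a1eeaeac61cea62ecea1e6ac861cc2, 0, 0x111ee11ea14ee6e4a1eeae861c91], [0, 0,
    0x31641431ac4aa359e6d1848c24, 0x11a14594832593ec7128588ac14,
    0x11658c826539e651451ac8c21], [0, 0, 0x37658c935e2941439ac826155ea58c2, 0,
    0x9435a14e359e259361858d8c12]]

noncomputable def n1637 : Ent := ⟨e1637, noF, [], [], []⟩

def c1637 : PLift (Cov.check n1637.C.D v1637 = true) := ⟨by decide +kernel⟩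

def b1637 : PLift (entF (fidx ts) 400 1637 n1637 = true) := ⟨by decide +kernel⟩

theorem g1637 : GoodF (fidx ts) 400 1637 := GoodF.ofV v1637 n1637 c1637.down b1637.down

/-- 4576484:1359 -/
noncomputable def e1638 : SCfg where
  D := {
    a := 7
    L := 11
    kp := 8
    inn := [(0, 1), (0, 2), (1, 0), (1, 2), (2, 0), (2, 1), (2, 3), (2, 5), (3, 2), (3, 4), (3, 5), (4,
      3), (4, 5), (5, 2), (5, 3), (5, 4), (5, 6), (6, 5)]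
    mix := [(0, 0), (0, 1), (1, 1), (1, 2), (1, 3), (2, 0), (2, 3), (2, 4), (3, 3), (3, 5), (3, 6), (4,
      6), (4, 7), (5, 4), (5, 7), (5, 8), (5, 9), (6, 4), (6, 9), (6, 10)]
    cl := [1, 4, 6, 1, 0, 5, 2, 0, 7, 3, 8]
    chq := [(0, 3), (0, 5), (3, 0), (5, 0)]
    rng := [(0, 1), (0, 4), (1, 0), (1, 2), (2, 1), (2, 3), (3, 2), (3, 5), (4, 0), (4, 10), (5, 3),
      (5, 6), (6, 5), (6, 7), (7, 6), (7, 8), (8, 7), (8, 9), (9, 8), (9, 10), (10, 4), (10, 9)]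
    lev := [] }
  links := [[1, 2, 7, 8], [2, 0, 8, 9, 10], [7, 0, 1, 10, 3, 5, 11], [5, 2, 10, 12, 13, 4], [5, 3, 13,
    14], [11, 2, 3, 4, 14, 15, 16, 6], [11, 5, 16, 17]]
  P := {
    a := 7
    N := 18
    nb := [390, 1797, 3243, 13364, 24616, 116828, 198688, 2309, 643, 1282, 4622, 131300, 9224, 20504,
      41008, 81952, 163936, 67648]
    tri := [(0, 1, 2), (0, 1, 8), (0, 2, 7), (0, 7, 8), (1, 2, 10), (1, 8, 9), (1, 9, 10), (2, 3, 5),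
      (2, 3, 10), (2, 5, 11), (2, 7, 11), (3, 4, 5), (3, 4, 13), (3, 10, 12), (3, 12, 13), (4, 5,
      14), (4, 13, 14), (5, 6, 11), (5, 6, 16), (5, 14, 15), (5, 15, 16), (6, 11, 17), (6, 16,
      17)]
    fin := [0, 0, 0, 3, 3, 5, 5, 0, 8, 9, 0, 5, 3, 13, 5, 15, 16, 17]
    chd := [(5, 3), (5, 16)]
    steps := [(0, 1), (0, 2), (0, 7), (0, 10), (3, 4), (3, 12), (5, 6), (5, 14), (5, 11)] }
  rep := [5, 0, 13, 16, 8, 3, 9, 15, 17]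

noncomputable def v1638 : Cov.CovD where
  P := 3
  N := 6
  pl := [1, 2, 6, 8, 10]
  lev := [⟨[], [], [], [4], [(0, 1, [])]⟩,
    ⟨[], [(0, 1)], [], [4, 6], [(3, 1, [])]⟩,
    ⟨[(0, 1)], [(0, 0), (0, 1), (1, 0), (1, 1)], [(0, 1), (1, 1)], [], [(0, 1, []), (3, 1,
      []), (4, 0, [3, 5])]⟩,
    ⟨[(0, 2), (1, 2)], [(1, 1), (2, 0), (2, 1), (2, 5)], [(1, 5)], [2], [(3, 1, []), (5, 5,
      [0])]⟩,
    ⟨[(2, 3)], [(3, 0), (3, 1), (3, 5)], [], [2], [(7, 0, [3, 5])]⟩,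
    ⟨[(0, 2), (1, 2), (2, 3), (2, 4), (3, 4)], [(2, 0), (2, 1), (2, 3), (3, 0), (3, 1), (3,
      3), (3, 5), (4, 0), (4, 3)], [(0, 0), (0, 3)], [7], [(4, 0, [3, 5]), (7, 0, [3, 5]),
      (9, 3, [0])]⟩,
    ⟨[(2, 5), (3, 5), (4, 5)], [(2, 0), (5, 0), (5, 3)], [(0, 3)], [8], [(4, 0, [3, 5]),
      (9, 3, [0])]⟩]
  Ta := [((0, 1), 1, 4), ((0, 4), 1, 0), ((3, 2), 1, 6), ((3, 5), 1, 5), ((4, 0), 0, 1), ((4,
    10), 0, 8), ((7, 6), 0, 2), ((7, 8), 0, 7)]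
  Tb := [((0, 1, 4), 1, 4, 0), ((1, 0, 2), 4, 1, 6), ((2, 1, 3), 6, 4, 1), ((3, 2, 5), 1, 6, 5),
    ((4, 0, 10), 0, 1, 8), ((5, 3, 6), 5, 1, 2), ((6, 5, 7), 2, 5, 0), ((7, 6, 8), 0, 2, 7),
    ((8, 7, 9), 7, 0, 3), ((9, 8, 10), 3, 7, 8), ((10, 4, 9), 8, 0, 3)]
  Tc := [(0, 3, 5)]
  Td := [((0, 3), (4, 0), 1), ((0, 3), (4, 10), 8), ((0, 3), (7, 6), 2), ((0, 3), (7, 8), 7),
    ((0, 5), (4, 0), 1), ((0, 5), (4, 10), 8), ((0, 5), (7, 6), 2), ((0, 5), (7, 8), 7), ((3,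
    0), (9, 8), 7), ((3, 0), (9, 10), 8), ((5, 0), (5, 3), 1), ((5, 0), (5, 6), 2)]
  G := [[0, 0xe24144eacc1682281ec6e8c1a4ee668c18841c2e, 0, 0xee681e841c2ee681e841ce481eea41c95,
    0xe4128ee6818e2e8a14ee8124e2e4a18e81e2834b5], [0, 0, 0,
    0xe481eea41cee681e841ce481eea41cd2, 0xe2e4a1e821cee681e821c2ece2122c8a1cd2], [0, 0,
    0x12812811c8e481221281418ce8412212411c4e81d, 0x593e8148b441b1a41c2395e4181d,
    0x3b9e81481ede2184539e2182d], [0, 0, 0x14241411ac11a2cc11641411acc1848c111e2411a1468cd2,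
    0x3495ac1471be41853678c18d2, 0x59621e821c771e218593e814d2]]

noncomputable def n1638 : Ent := ⟨e1638, noF, [], [], [(9, 12, [7334790875884700912148207959429466810732110717284923962112213594296321, 0])]⟩

def c1638 : PLift (Cov.check n1638.C.D v1638 = true) := ⟨by decide +kernel⟩

def b1638 : PLift (entF (fidx ts) 400 1638 n1638 = true) := ⟨by decide +kernel⟩

theorem g1638 : GoodF (fidx ts) 400 1638 := GoodF.ofV v1638 n1638 c1638.down b1638.down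

/-- 4847464:1361/1 -/
noncomputable def e1639 : SCfg where
  D := {
    a := 7
    L := 10
    kp := 7
    inn := [(0, 1), (1, 0), (1, 2), (1, 3), (1, 5), (2, 1), (3, 1), (3, 4), (3, 5), (3, 6), (4, 3), (4,
      5), (5, 1), (5, 3), (5, 4), (6, 3)]
    mix := [(0, 0), (0, 1), (0, 2), (1, 0), (1, 2), (1, 3), (1, 4), (2, 3), (2, 4), (2, 5), (3, 4), (3,
      6), (3, 7), (4, 7), (4, 8), (5, 0), (5, 8), (5, 9), (6, 4), (6, 5), (6, 6)]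
    cl := [1, 7, 2, 1, 0, 3, 4, 0, 5, 6]
    chq := [(0, 1), (0, 6), (1, 0), (6, 0)]
    rng := [(0, 1), (0, 9), (1, 0), (1, 2), (2, 1), (2, 3), (3, 2), (3, 5), (4, 5), (5, 3), (5, 4), (5,
      6), (6, 5), (6, 7), (7, 6), (7, 8), (8, 7), (8, 9), (9, 0), (9, 8)]
    lev := [] }
  links := [[1, 7, 8, 9], [7, 0, 9, 10, 2, 11, 3, 5], [11, 1, 10, 12], [5, 1, 11, 6, 13, 14, 4], [5, 3,
    14, 15], [7, 1, 3, 4, 15, 16], [13, 3, 11, 12]]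
  P := {
    a := 7
    N := 17
    nb := [898, 3757, 7170, 26738, 49192, 98458, 14344, 65827, 641, 1283, 4614, 4174, 11332, 20552,
      40984, 81968, 32928]
    tri := [(0, 1, 7), (0, 1, 9), (0, 7, 8), (0, 8, 9), (1, 2, 10), (1, 2, 11), (1, 3, 5), (1, 3, 11),
      (1, 5, 7), (1, 9, 10), (2, 10, 12), (2, 11, 12), (3, 4, 5), (3, 4, 14), (3, 6, 11), (3, 6,
      13), (3, 13, 14), (4, 5, 15), (4, 14, 15), (5, 7, 16), (5, 15, 16), (6, 11, 12), (6, 12,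
      13)]
    fin := [0, 0, 0, 3, 3, 3, 6, 0, 8, 9, 0, 3, 6, 13, 3, 15, 16]
    chd := [(0, 3), (3, 16)]
    steps := [(0, 1), (0, 2), (0, 7), (0, 10), (3, 4), (3, 5), (3, 11), (3, 14), (6, 12)] }
  rep := [3, 0, 9, 6, 13, 15, 16, 8]

noncomputable def v1639 : Cov.CovD where
  P := 3
  N := 5
  pl := [1, 2, 5, 6, 8]
  lev := [⟨[], [], [], [2, 7], [(0, 1, [0])]⟩,
    ⟨[], [(0, 0), (0, 1)], [(0, 1), (1, 1)], [2], [(0, 1, [0]), (3, 1, [0]), (4, 0, [1,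
      6])]⟩,
    ⟨[(0, 1)], [(1, 0), (1, 1)], [(0, 1)], [3], [(3, 1, [0]), (4, 0, [1, 6])]⟩,
    ⟨[(0, 1), (1, 2)], [(1, 0), (1, 1), (2, 0)], [(0, 0)], [4], [(4, 0, [1, 6]), (7, 0, [1,
      6])]⟩,
    ⟨[(1, 3)], [(3, 0)], [], [5], [(7, 0, [1, 6])]⟩,
    ⟨[(0, 1), (1, 2), (1, 3), (1, 4), (3, 4)], [(0, 1), (1, 0), (1, 1), (1, 6), (3, 0), (3,
      1), (3, 6), (4, 0), (4, 1), (4, 6)], [(1, 6)], [5], [(0, 1, [0]), (9, 6, [0])]⟩,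
    ⟨[(1, 3), (3, 4), (3, 5)], [(1, 0), (2, 0), (3, 0)], [], [3, 4], [(4, 0, [1, 6])]⟩]
  Ta := [((0, 1), 1, 7), ((0, 9), 1, 6), ((3, 2), 1, 2), ((3, 5), 1, 3), ((4, 5), 0, 3), ((7, 6),
    0, 4), ((7, 8), 0, 5)]
  Tb := [((0, 1, 9), 1, 7, 6), ((1, 0, 2), 7, 1, 2), ((2, 1, 3), 2, 7, 1), ((3, 2, 5), 1, 2, 3),
    ((5, 3, 4), 3, 1, 0), ((5, 3, 6), 3, 1, 4), ((5, 4, 6), 3, 0, 4), ((6, 5, 7), 4, 3, 0),
    ((7, 6, 8), 0, 4, 5), ((8, 7, 9), 5, 0, 6), ((9, 0, 8), 6, 1, 5)]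
  Tc := [(0, 1, 6)]
  Td := [((0, 1), (4, 5), 3), ((0, 1), (7, 6), 4), ((0, 1), (7, 8), 5), ((0, 6), (4, 5), 3), ((0,
    6), (7, 6), 4), ((0, 6), (7, 8), 5), ((1, 0), (0, 1), 7), ((1, 0), (0, 9), 6), ((1, 0),
    (3, 2), 2), ((1, 0), (3, 5), 3), ((6, 0), (9, 0), 1), ((6, 0), (9, 8), 5)]
  G := [[0, 0x111e1114e1a1221c311a1441ea41, 0xc1c1a2121c628c1c162121ca24c, 0,
    0xc1c1a2121c62841481c1a2121ce289], [0, 0x111e1118e16116111c111a1e681,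
    0x4141a2121c64818162121ac8c2, 0x818252121ca4141a2121cac4818252121c64141a2121c6c8c,
    0x81816a1a1c64141a2121c6c82], [0, 0x84111a1141e11a18141111e1ae41,
    0x181356118c22c21c234115119c125129c628c, 0, 0x1411a21125c62c882886291154123d2c2128c2389],
    [0, 0x111e12111e146111e188c1, 0x4448c5cc9a21ae2d81ee182,
    0xe122124c6186c382c2294618ec342298a14d, 0x11541158a81c8ed6a2c8166582]]

noncomputable def n1639 : Ent := ⟨e1639, noF, [], [], []⟩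

def c1639 : PLift (Cov.check n1639.C.D v1639 = true) := ⟨by decide +kernel⟩

def b1639 : PLift (entF (fidx ts) 400 1639 n1639 = true) := ⟨by decide +kernel⟩

theorem g1639 : GoodF (fidx ts) 400 1639 := GoodF.ofV v1639 n1639 c1639.down b1639.down

/-- 4847464:1361 -/
noncomputable def e1640 : SCfg where
  D := {
    a := 7
    L := 11
    kp := 8
    inn := [(0, 1), (1, 0), (1, 2), (1, 3), (1, 5), (2, 1), (3, 1), (3, 4), (3, 5), (3, 6), (4, 3), (4,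
      5), (5, 1), (5, 3), (5, 4), (6, 3)]
    mix := [(0, 0), (0, 1), (0, 2), (1, 0), (1, 2), (1, 3), (1, 4), (2, 3), (2, 4), (2, 5), (3, 4), (3,
      6), (3, 7), (4, 7), (4, 8), (5, 0), (5, 8), (5, 9), (6, 4), (6, 6), (6, 10)]
    cl := [1, 6, 2, 1, 0, 7, 3, 0, 4, 5, 8]
    chq := [(0, 1), (0, 5), (1, 0), (5, 0)]
    rng := [(0, 1), (0, 9), (1, 0), (1, 2), (2, 1), (2, 3), (3, 2), (3, 5), (4, 5), (4, 10), (5, 3),
      (5, 4), (6, 7), (6, 10), (7, 6), (7, 8), (8, 7), (8, 9), (9, 0), (9, 8), (10, 4), (10, 6)]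
    lev := [] }
  links := [[1, 7, 8, 9], [7, 0, 9, 10, 2, 11, 3, 5], [11, 1, 10, 12], [5, 1, 11, 6, 13, 14, 4], [5, 3,
    14, 15], [7, 1, 3, 4, 15, 16], [13, 3, 11, 17]]
  P := {
    a := 7
    N := 18
    nb := [898, 3757, 7170, 26738, 49192, 98458, 141320, 65827, 641, 1283, 4614, 135246, 3076, 147528,
      40984, 81968, 32928, 10304]
    tri := [(0, 1, 7), (0, 1, 9), (0, 7, 8), (0, 8, 9), (1, 2, 10), (1, 2, 11), (1, 3, 5), (1, 3, 11),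
      (1, 5, 7), (1, 9, 10), (2, 10, 12), (2, 11, 12), (3, 4, 5), (3, 4, 14), (3, 6, 11), (3, 6,
      13), (3, 13, 14), (4, 5, 15), (4, 14, 15), (5, 7, 16), (5, 15, 16), (6, 11, 17), (6, 13,
      17)]
    fin := [0, 0, 0, 3, 3, 3, 3, 0, 8, 9, 0, 3, 12, 13, 3, 15, 16, 17]
    chd := [(0, 3), (3, 16)]
    steps := [(0, 1), (0, 2), (0, 7), (0, 10), (3, 4), (3, 5), (3, 6), (3, 11), (3, 14)] }
  rep := [3, 0, 9, 13, 15, 16, 8, 12, 17]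

noncomputable def v1640 : Cov.CovD where
  P := 3
  N := 6
  pl := [1, 2, 5, 6, 8, 10]
  lev := [⟨[], [], [], [2, 6], [(0, 1, [0])]⟩,
    ⟨[], [(0, 0), (0, 1)], [(0, 1), (1, 1)], [2], [(0, 1, [0]), (3, 1, [0]), (4, 0, [1,
      5])]⟩,
    ⟨[(0, 1)], [(1, 0), (1, 1)], [(0, 1)], [7], [(3, 1, [0]), (4, 0, [1, 5])]⟩,
    ⟨[(0, 1), (1, 2)], [(1, 0), (1, 1), (2, 0)], [(0, 0)], [3], [(4, 0, [1, 5]), (7, 0, [1,
      5])]⟩,
    ⟨[(1, 3)], [(3, 0)], [], [4], [(7, 0, [1, 5])]⟩,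
    ⟨[(0, 1), (1, 2), (1, 3), (1, 4), (3, 4)], [(0, 1), (1, 0), (1, 1), (1, 5), (3, 0), (3,
      1), (3, 5), (4, 0), (4, 1), (4, 5)], [(1, 5)], [4], [(0, 1, [0]), (9, 5, [0])]⟩,
    ⟨[(1, 3), (3, 4), (3, 5)], [(1, 0), (2, 0), (3, 0)], [], [3, 8], [(4, 0, [1, 5])]⟩]
  Ta := [((0, 1), 1, 6), ((0, 9), 1, 5), ((3, 2), 1, 2), ((3, 5), 1, 7), ((4, 5), 0, 7), ((4,
    10), 0, 8), ((7, 6), 0, 3), ((7, 8), 0, 4)]
  Tb := [((0, 1, 9), 1, 6, 5), ((1, 0, 2), 6, 1, 2), ((2, 1, 3), 2, 6, 1), ((3, 2, 5), 1, 2, 7),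
    ((4, 5, 10), 0, 7, 8), ((5, 3, 4), 7, 1, 0), ((6, 7, 10), 3, 0, 8), ((7, 6, 8), 0, 3, 4),
    ((8, 7, 9), 4, 0, 5), ((9, 0, 8), 5, 1, 4), ((10, 4, 6), 8, 0, 3)]
  Tc := [(0, 1, 5)]
  Td := [((0, 1), (4, 5), 7), ((0, 1), (4, 10), 8), ((0, 1), (7, 6), 3), ((0, 1), (7, 8), 4),
    ((0, 5), (4, 5), 7), ((0, 5), (4, 10), 8), ((0, 5), (7, 6), 3), ((0, 5), (7, 8), 4), ((1,
    0), (0, 1), 6), ((1, 0), (0, 9), 5), ((1, 0), (3, 2), 2), ((1, 0), (3, 5), 7), ((5, 0),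
    (9, 0), 1), ((5, 0), (9, 8), 4)]
  G := [[0, 0x111e144111e18111e12ac1, 0xc1c1aa1a1c628c1c16612141ea24c, 0,
    0xc1c1aa1a1c628c1c1aa1a1c6289], [0, 0x116141161181c111e12e18188c1,
    0xc1c1aa1a1c6c1c1aa1a1c6c82, 0xc1c1aa1a1c64e1e1c28ce1e1a488e1e168c1c256161cac4d,
    0xc1c1aa12181e6c1c1aa1a1c6c82], [0, 0x121434111e121161181ce18188c1,
    0x1c9cc5611c11aa241451614139cc2a69821cc, 0, 0x15531c1491662c88a886291418c1e1111adc6289],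
    [0, 0x111e144111e12111e18ac1, 0x444845884c9eea5aa9ce182,
    0xe24814ec341aa121c618c1c16ee6d61ca14d, 0x444c1c8cdaa1aeadce182]]

noncomputable def n1640 : Ent := ⟨e1640, noF, [], [], [(12, 17, [6903326391201334775872065844685381424292761054348340378595029936402433, 0])]⟩

def c1640 : PLift (Cov.check n1640.C.D v1640 = true) := ⟨by decide +kernel⟩

def b1640 : PLift (entF (fidx ts) 400 1640 n1640 = true) := ⟨by decide +kernel⟩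

theorem g1640 : GoodF (fidx ts) 400 1640 := GoodF.ofV v1640 n1640 c1640.down b1640.down

/-- 4576474:1362/2 -/
noncomputable def e1641 : SCfg where
  D := {
    a := 7
    L := 9
    kp := 6
    inn := [(0, 1), (0, 2), (1, 0), (1, 2), (2, 0), (2, 1), (2, 3), (3, 2), (3, 4), (3, 5), (4, 3), (4,
      5), (5, 3), (5, 4), (5, 6), (6, 5)]
    mix := [(0, 0), (0, 1), (1, 1), (1, 2), (1, 3), (2, 0), (2, 3), (2, 4), (2, 5), (3, 3), (3, 4), (3,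
      6), (4, 4), (4, 7), (5, 1), (5, 6), (5, 7), (5, 8), (6, 1), (6, 2), (6, 6)]
    cl := [3, 1, 4, 0, 0, 6, 2, 5, 2]
    chq := [(0, 3), (3, 0), (3, 4), (4, 3)]
    rng := [(0, 1), (0, 5), (1, 0), (1, 2), (1, 8), (2, 1), (2, 3), (2, 6), (3, 2), (3, 6), (4, 5), (4,
      7), (5, 0), (5, 4), (6, 2), (6, 3), (7, 4), (7, 8), (8, 1), (8, 7)]
    lev := [] }
  links := [[1, 2, 7, 8], [2, 0, 8, 9, 10], [7, 0, 1, 10, 3, 11, 12], [11, 2, 10, 13, 5, 4], [11, 3, 5,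
    14], [14, 4, 3, 13, 6, 8, 15], [8, 5, 13, 9]]
  P := {
    a := 7
    N := 16
    nb := [390, 1797, 7307, 11316, 18472, 57688, 8992, 4357, 33507, 9538, 8718, 20508, 2180, 1640,
      34864, 16672]
    tri := [(0, 1, 2), (0, 1, 8), (0, 2, 7), (0, 7, 8), (1, 2, 10), (1, 8, 9), (1, 9, 10), (2, 3, 10),
      (2, 3, 11), (2, 7, 12), (2, 11, 12), (3, 4, 5), (3, 4, 11), (3, 5, 13), (3, 10, 13), (4, 5,
      14), (4, 11, 14), (5, 6, 8), (5, 6, 13), (5, 8, 15), (5, 14, 15), (6, 8, 9), (6, 9, 13)]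
    fin := [0, 0, 0, 3, 3, 5, 6, 0, 6, 9, 3, 3, 12, 5, 14, 5]
    chd := [(0, 3), (0, 9)]
    steps := [(0, 1), (0, 2), (0, 7), (3, 4), (3, 10), (3, 11), (5, 13), (5, 15), (6, 8)] }
  rep := [3, 6, 5, 0, 9, 14, 12]

noncomputable def v1641 : Cov.CovD where
  P := 3
  N := 4
  pl := [1, 5, 7]
  lev := [⟨[], [], [], [1], [(0, 3, [0, 4])]⟩,
    ⟨[], [(0, 0), (0, 3), (0, 4)], [(0, 4)], [1], [(2, 4, [3]), (3, 0, [3])]⟩,
    ⟨[(0, 1)], [(0, 0), (0, 3), (1, 0), (1, 3), (1, 4)], [(0, 0), (0, 3)], [6], [(0, 3, [0,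
      4]), (3, 0, [3]), (4, 0, [3])]⟩,
    ⟨[(0, 2), (1, 2)], [(1, 0), (2, 0), (2, 2), (2, 3)], [(0, 0), (0, 2)], [], [(3, 0,
      [3]), (4, 0, [3]), (6, 2, [])]⟩,
    ⟨[(2, 3)], [(2, 0), (3, 0), (3, 2)], [], [5], [(4, 0, [3])]⟩,
    ⟨[(2, 3), (3, 4)], [(3, 0), (3, 2), (4, 0), (4, 2)], [(2, 2)], [1, 5], [(6, 2, []), (8,
      2, [])]⟩,
    ⟨[(3, 5), (4, 5)], [(1, 4), (3, 2), (5, 2), (5, 4)], [(2, 4)], [1], [(2, 4, [3]), (6,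
      2, [])]⟩]
  Ta := [((3, 2), 0, 4), ((3, 6), 0, 2), ((4, 5), 0, 6), ((4, 7), 0, 5), ((6, 2), 2, 4), ((6, 3),
    2, 0), ((8, 1), 2, 1), ((8, 7), 2, 5)]
  Tb := [((0, 1, 5), 3, 1, 6), ((1, 0, 2), 1, 3, 4), ((1, 0, 8), 1, 3, 2), ((1, 2, 8), 1, 4, 2),
    ((2, 1, 3), 4, 1, 0), ((2, 1, 6), 4, 1, 2), ((2, 3, 6), 4, 0, 2), ((3, 2, 6), 0, 4, 2),
    ((4, 5, 7), 0, 6, 5), ((5, 0, 4), 6, 3, 0), ((6, 2, 3), 2, 4, 0), ((7, 4, 8), 5, 0, 2),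
    ((8, 1, 7), 2, 1, 5)]
  Tc := [(3, 0, 4)]
  Td := [((0, 3), (3, 2), 4), ((0, 3), (3, 6), 2), ((0, 3), (4, 5), 6), ((0, 3), (4, 7), 5), ((3,
    0), (0, 1), 1), ((3, 0), (0, 5), 6), ((3, 4), (0, 1), 1), ((3, 4), (0, 5), 6), ((4, 3),
    (2, 1), 1), ((4, 3), (2, 3), 0), ((4, 3), (2, 6), 2)]
  G := [[0, 0x882448c41c82c4cc2888c14e2442882c4441488c441488cace,
    0x88c1488c1288c12e44c1244c1844c18ec1, 0, 0x814281428148e114211421148ec1], [0,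
    0x22c1422c14a222c1828249462c, 0, 0x51281124641284124ac1, 0x4148324141624141c2e41], [0,
    0xc8244cc2882cc2c42882842882c88c246442488c44c28ace, 0, 0, 0x1194211948a1119428194261c],
    [0, 0x2824a4242868242868e2842288c2824a468a, 0, 0x11928141868611524144868ac1,
    0x1811a41811a21811a4e41]]

noncomputable def n1641 : Ent := ⟨e1641, noF, [], [], []⟩

def c1641 : PLift (Cov.check n1641.C.D v1641 = true) := ⟨by decide +kernel⟩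

def b1641 : PLift (entF (fidx ts) 400 1641 n1641 = true) := ⟨by decide +kernel⟩

theorem g1641 : GoodF (fidx ts) 400 1641 := GoodF.ofV v1641 n1641 c1641.down b1641.down

/-- 4576474:1362/1 -/
noncomputable def e1642 : SCfg where
  D := {
    a := 7
    L := 10
    kp := 7
    inn := [(0, 1), (0, 2), (1, 0), (1, 2), (2, 0), (2, 1), (2, 3), (3, 2), (3, 4), (3, 5), (4, 3), (4,
      5), (5, 3), (5, 4), (5, 6), (6, 5)]
    mix := [(0, 0), (0, 1), (1, 1), (1, 2), (1, 3), (2, 0), (2, 3), (2, 4), (2, 5), (3, 3), (3, 4), (3,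
      6), (4, 4), (4, 7), (5, 1), (5, 6), (5, 7), (5, 8), (6, 1), (6, 6), (6, 9)]
    cl := [2, 3, 5, 0, 0, 6, 1, 4, 1, 7]
    chq := [(0, 2), (2, 0), (2, 5), (5, 2)]
    rng := [(0, 1), (0, 5), (1, 0), (1, 2), (1, 8), (1, 9), (2, 1), (2, 3), (3, 2), (3, 6), (4, 5), (4,
      7), (5, 0), (5, 4), (6, 3), (6, 9), (7, 4), (7, 8), (8, 1), (8, 7), (9, 1), (9, 6)]
    lev := [] }
  links := [[1, 2, 7, 8], [2, 0, 8, 9, 10], [7, 0, 1, 10, 3, 11, 12], [11, 2, 10, 13, 5, 4], [11, 3, 5,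
    14], [14, 4, 3, 13, 6, 8, 15], [8, 5, 13, 16]]
  P := {
    a := 7
    N := 17
    nb := [390, 1797, 7307, 11316, 18472, 57688, 74016, 4357, 99043, 1282, 8718, 20508, 2180, 66664,
      34864, 16672, 8512]
    tri := [(0, 1, 2), (0, 1, 8), (0, 2, 7), (0, 7, 8), (1, 2, 10), (1, 8, 9), (1, 9, 10), (2, 3, 10),
      (2, 3, 11), (2, 7, 12), (2, 11, 12), (3, 4, 5), (3, 4, 11), (3, 5, 13), (3, 10, 13), (4, 5,
      14), (4, 11, 14), (5, 6, 8), (5, 6, 13), (5, 8, 15), (5, 14, 15), (6, 8, 16), (6, 13, 16)]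
    fin := [0, 0, 0, 3, 3, 5, 6, 0, 6, 9, 3, 3, 12, 5, 14, 5, 16]
    chd := [(0, 3), (0, 9)]
    steps := [(0, 1), (0, 2), (0, 7), (3, 4), (3, 10), (3, 11), (5, 13), (5, 15), (6, 8)] }
  rep := [3, 5, 0, 6, 14, 9, 12, 16]

noncomputable def v1642 : Cov.CovD where
  P := 3
  N := 5
  pl := [1, 5, 7, 9]
  lev := [⟨[], [], [], [3], [(0, 2, [0, 5])]⟩,
    ⟨[], [(0, 0), (0, 2), (0, 5)], [(0, 5)], [3], [(2, 5, [2]), (3, 0, [2])]⟩,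
    ⟨[(0, 1)], [(0, 0), (0, 2), (1, 0), (1, 2), (1, 5)], [(0, 0), (0, 2)], [6], [(0, 2, [0,
      5]), (3, 0, [2]), (4, 0, [2])]⟩,
    ⟨[(0, 2), (1, 2)], [(1, 0), (2, 0), (2, 1), (2, 2)], [(0, 0), (0, 1)], [], [(3, 0,
      [2]), (4, 0, [2]), (6, 1, [])]⟩,
    ⟨[(2, 3)], [(2, 0), (3, 0), (3, 1)], [], [4], [(4, 0, [2])]⟩,
    ⟨[(2, 3), (3, 4)], [(3, 0), (3, 1), (4, 0), (4, 1)], [(1, 1)], [3, 4], [(6, 1, []), (8,
      1, [])]⟩,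
    ⟨[(3, 5), (4, 5)], [(3, 1), (5, 1)], [], [3, 7], [(6, 1, [])]⟩]
  Ta := [((3, 2), 0, 5), ((3, 6), 0, 1), ((4, 5), 0, 6), ((4, 7), 0, 4), ((6, 3), 1, 0), ((6, 9),
    1, 7), ((8, 1), 1, 3), ((8, 7), 1, 4)]
  Tb := [((0, 1, 5), 2, 3, 6), ((1, 0, 2), 3, 2, 5), ((1, 0, 8), 3, 2, 1), ((1, 0, 9), 3, 2, 7),
    ((1, 2, 8), 3, 5, 1), ((1, 2, 9), 3, 5, 7), ((1, 8, 9), 3, 1, 7), ((2, 1, 3), 5, 3, 0),
    ((3, 2, 6), 0, 5, 1), ((4, 5, 7), 0, 6, 4), ((5, 0, 4), 6, 2, 0), ((6, 3, 9), 1, 0, 7),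
    ((7, 4, 8), 4, 0, 1), ((8, 1, 7), 1, 3, 4), ((9, 1, 6), 7, 3, 1)]
  Tc := [(2, 0, 5)]
  Td := [((0, 2), (3, 2), 5), ((0, 2), (3, 6), 1), ((0, 2), (4, 5), 6), ((0, 2), (4, 7), 4), ((2,
    0), (0, 1), 3), ((2, 0), (0, 5), 6), ((2, 5), (0, 1), 3), ((2, 5), (0, 5), 6), ((5, 2),
    (2, 1), 3), ((5, 2), (2, 3), 0)]
  G := [[0, 0x84c4c52ccc12cc8c144264cc1881ac6e61a81a6e61a84ace1, 0xd124d128a12,
    0xc8c24c42c82cc2442882d128d128c2d, 0x8992422912489924ac552c82c4c5d28a91288ea], [0, 0,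
    0xc124c128c1214421842128e1a, 0x22c14242858c22121c42121c8c25,
    0x2821c4212834a22821c42821c4a24482414ac51285124a4b], [0, 0, 0xd128d124612,
    0xd9924d9924c2d5528d5528c2c, 0xd42c82cd42c82cad121888cc9d924a52], [0, 0,
    0x51289128c1212421842148e16, 0x244282c242868c22821a42821a4c25,
    0xc59247c928a424482448a28216421229c8a5a]]

noncomputable def n1642 : Ent := ⟨e1642, noF, [], [], [(9, 16, [1580044410770988437309982408355971841652082177953823432505695834113, 0])]⟩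

def c1642 : PLift (Cov.check n1642.C.D v1642 = true) := ⟨by decide +kernel⟩

def b1642 : PLift (entF (fidx ts) 400 1642 n1642 = true) := ⟨by decide +kernel⟩

theorem g1642 : GoodF (fidx ts) 400 1642 := GoodF.ofV v1642 n1642 c1642.down b1642.down

/-- 4576474:1362/3 -/
noncomputable def e1643 : SCfg where
  D := {
    a := 7
    L := 10
    kp := 7
    inn := [(0, 1), (0, 2), (1, 0), (1, 2), (2, 0), (2, 1), (2, 3), (3, 2), (3, 4), (3, 5), (4, 3), (4,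
      5), (5, 3), (5, 4), (5, 6), (6, 5)]
    mix := [(0, 0), (0, 1), (1, 1), (1, 2), (1, 3), (2, 0), (2, 3), (2, 4), (2, 5), (3, 3), (3, 4), (3,
      6), (4, 4), (4, 7), (5, 1), (5, 6), (5, 7), (5, 8), (6, 6), (6, 8), (6, 9)]
    cl := [2, 0, 5, 1, 1, 6, 0, 3, 4, 7]
    chq := [(1, 2), (2, 1), (2, 5), (5, 2)]
    rng := [(0, 1), (0, 5), (1, 0), (1, 2), (1, 7), (1, 8), (2, 1), (2, 3), (3, 2), (3, 6), (4, 5), (4,
      7), (5, 0), (5, 4), (6, 3), (6, 9), (7, 1), (7, 4), (8, 1), (8, 9), (9, 6), (9, 8)]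
    lev := [] }
  links := [[1, 2, 7, 8], [2, 0, 8, 9, 10], [7, 0, 1, 10, 3, 11, 12], [11, 2, 10, 13, 5, 4], [11, 3, 5,
    14], [14, 4, 3, 13, 6, 15, 8], [15, 5, 13, 16]]
  P := {
    a := 7
    N := 17
    nb := [390, 1797, 7307, 11316, 18472, 57688, 106528, 4357, 49827, 1282, 8718, 20508, 2180, 66664,
      2352, 65888, 41024]
    tri := [(0, 1, 2), (0, 1, 8), (0, 2, 7), (0, 7, 8), (1, 2, 10), (1, 8, 9), (1, 9, 10), (2, 3, 10),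
      (2, 3, 11), (2, 7, 12), (2, 11, 12), (3, 4, 5), (3, 4, 11), (3, 5, 13), (3, 10, 13), (4, 5,
      14), (4, 11, 14), (5, 6, 13), (5, 6, 15), (5, 8, 14), (5, 8, 15), (6, 13, 16), (6, 15, 16)]
    fin := [0, 0, 0, 3, 4, 4, 4, 0, 4, 9, 3, 3, 12, 4, 14, 15, 16]
    chd := [(0, 3), (0, 9)]
    steps := [(0, 1), (0, 2), (0, 7), (3, 10), (3, 11), (4, 5), (4, 6), (4, 8), (4, 13)] }
  rep := [4, 3, 0, 14, 15, 9, 12, 16]

noncomputable def v1643 : Cov.CovD where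
  P := 3
  N := 5
  pl := [5, 7, 8, 9]
  lev := [⟨[], [], [(0, 2)], [], [(0, 2, [1, 5]), (1, 0, [])]⟩,
    ⟨[], [(0, 0), (0, 1), (0, 2), (0, 5)], [(0, 1), (0, 5), (1, 5)], [], [(1, 0, []), (2,
      5, [2]), (3, 1, [2])]⟩,
    ⟨[(0, 1)], [(0, 0), (0, 1), (0, 2), (1, 0), (1, 1), (1, 2), (1, 5)], [(1, 1), (1, 2)],
      [6], [(0, 2, [1, 5]), (3, 1, [2]), (4, 1, [2])]⟩,
    ⟨[(0, 2), (1, 2)], [(1, 1), (2, 0), (2, 1), (2, 2)], [(0, 1), (1, 1)], [], [(3, 1,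
      [2]), (4, 1, [2]), (6, 0, [])]⟩,
    ⟨[(2, 3)], [(2, 1), (3, 0), (3, 1)], [], [3], [(4, 1, [2])]⟩,
    ⟨[(2, 3), (3, 4)], [(0, 0), (1, 0), (3, 0), (3, 1), (4, 0), (4, 1)], [(0, 0)], [3, 4],
      [(1, 0, []), (6, 0, [])]⟩,
    ⟨[(3, 5), (4, 5)], [(3, 0), (5, 0)], [], [4, 7], [(6, 0, [])]⟩]
  Ta := [((1, 0), 0, 2), ((1, 2), 0, 5), ((1, 7), 0, 3), ((1, 8), 0, 4), ((3, 2), 1, 5), ((3, 6),
    1, 0), ((4, 5), 1, 6), ((4, 7), 1, 3), ((6, 3), 0, 1), ((6, 9), 0, 7)]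
  Tb := [((0, 1, 5), 2, 0, 6), ((1, 0, 2), 0, 2, 5), ((1, 0, 7), 0, 2, 3), ((1, 0, 8), 0, 2, 4),
    ((1, 2, 7), 0, 5, 3), ((1, 2, 8), 0, 5, 4), ((1, 7, 8), 0, 3, 4), ((2, 1, 3), 5, 0, 1),
    ((3, 2, 6), 1, 5, 0), ((4, 5, 7), 1, 6, 3), ((5, 0, 4), 6, 2, 1), ((6, 3, 9), 0, 1, 7),
    ((7, 1, 4), 3, 0, 1), ((8, 1, 9), 4, 0, 7), ((9, 6, 8), 7, 0, 4)]
  Tc := [(2, 1, 5)]
  Td := [((1, 2), (3, 2), 5), ((1, 2), (3, 6), 0), ((1, 2), (4, 5), 6), ((1, 2), (4, 7), 3), ((2,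
    1), (0, 1), 0), ((2, 1), (0, 5), 6), ((2, 5), (0, 1), 0), ((2, 5), (0, 5), 6), ((5, 2),
    (2, 1), 0), ((5, 2), (2, 3), 1)]
  G := [[0, 0, 0x111e14111e18c41811694111e18c8c, 0x11c723811cd238528, 0x11c723411cd238948], [0,
    0, 0x111e14111e18c24, 0x11cb23811cd234528, 0x13c9d6941a671a58928], [0,
    0x221eece16ee61e81ac28, 0, 0xc41cea1cce61c81cc21, 0xce61c81c4cee1881c942], [0, 0, 0,
    0x441c8ee1cc42cea1cc21, 0xee61e81ce41eea1c942]]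

noncomputable def n1643 : Ent := ⟨e1643, noF, [], [], []⟩

def c1643 : PLift (Cov.check n1643.C.D v1643 = true) := ⟨by decide +kernel⟩

def b1643 : PLift (entF (fidx ts) 400 1643 n1643 = true) := ⟨by decide +kernel⟩

theorem g1643 : GoodF (fidx ts) 400 1643 := GoodF.ofV v1643 n1643 c1643.down b1643.down

/-- 4576474:1362/4 -/
noncomputable def e1644 : SCfg where
  D := {
    a := 7
    L := 10
    kp := 7
    inn := [(0, 1), (0, 2), (1, 0), (1, 2), (2, 0), (2, 1), (2, 3), (3, 2), (3, 4), (3, 5), (4, 3), (4,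
      5), (5, 3), (5, 4), (5, 6), (6, 5)]
    mix := [(0, 0), (0, 1), (1, 1), (1, 2), (1, 3), (2, 0), (2, 3), (2, 4), (2, 5), (3, 3), (3, 4), (3,
      6), (4, 4), (4, 7), (5, 6), (5, 7), (5, 8), (5, 9), (6, 2), (6, 6), (6, 8)]
    cl := [3, 4, 2, 0, 0, 7, 1, 5, 6, 1]
    chq := [(0, 3), (2, 3), (3, 0), (3, 2)]
    rng := [(0, 1), (0, 5), (1, 0), (1, 2), (2, 1), (2, 3), (2, 6), (2, 8), (3, 2), (3, 6), (4, 5), (4,
      7), (5, 0), (5, 4), (6, 2), (6, 3), (7, 4), (7, 9), (8, 2), (8, 9), (9, 7), (9, 8)]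
    lev := [] }
  links := [[1, 2, 7, 8], [2, 0, 8, 9, 10], [7, 0, 1, 10, 3, 11, 12], [11, 2, 10, 13, 5, 4], [11, 3, 5,
    14], [14, 4, 3, 13, 6, 15, 16], [15, 5, 13, 9]]
  P := {
    a := 7
    N := 17
    nb := [390, 1797, 7307, 11316, 18472, 122968, 41504, 4357, 643, 42306, 8718, 20508, 2180, 1640,
      67632, 66144, 49184]
    tri := [(0, 1, 2), (0, 1, 8), (0, 2, 7), (0, 7, 8), (1, 2, 10), (1, 8, 9), (1, 9, 10), (2, 3, 10),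
      (2, 3, 11), (2, 7, 12), (2, 11, 12), (3, 4, 5), (3, 4, 11), (3, 5, 13), (3, 10, 13), (4, 5,
      14), (4, 11, 14), (5, 6, 13), (5, 6, 15), (5, 14, 16), (5, 15, 16), (6, 9, 13), (6, 9, 15)]
    fin := [0, 0, 0, 3, 3, 5, 6, 0, 8, 6, 3, 3, 12, 5, 14, 15, 5]
    chd := [(0, 3), (0, 6)]
    steps := [(0, 1), (0, 2), (0, 7), (3, 4), (3, 10), (3, 11), (5, 13), (5, 16), (6, 9)] }
  rep := [3, 5, 6, 0, 8, 14, 15, 12]

noncomputable def v1644 : Cov.CovD where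
  P := 3
  N := 5
  pl := [1, 5, 7, 8]
  lev := [⟨[], [], [], [4], [(0, 3, [0, 2])]⟩,
    ⟨[], [(0, 0), (0, 2), (0, 3)], [(0, 2)], [4], [(2, 2, [3]), (3, 0, [3])]⟩,
    ⟨[(0, 1)], [(0, 0), (0, 3), (1, 0), (1, 2), (1, 3)], [(0, 0), (0, 3)], [7], [(0, 3, [0,
      2]), (3, 0, [3]), (4, 0, [3])]⟩,
    ⟨[(0, 2), (1, 2)], [(1, 0), (2, 0), (2, 1), (2, 3)], [(0, 0), (0, 1)], [], [(3, 0,
      [3]), (4, 0, [3]), (6, 1, [])]⟩,
    ⟨[(2, 3)], [(2, 0), (3, 0), (3, 1)], [], [5], [(4, 0, [3])]⟩,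
    ⟨[(2, 3), (3, 4)], [(3, 0), (3, 1), (4, 0), (4, 1)], [(1, 1)], [5, 6], [(6, 1, []), (9,
      1, [])]⟩,
    ⟨[(3, 5), (4, 5)], [(1, 2), (3, 1), (5, 1), (5, 2)], [(1, 2)], [6], [(2, 2, [3]), (6,
      1, [])]⟩]
  Ta := [((3, 2), 0, 2), ((3, 6), 0, 1), ((4, 5), 0, 7), ((4, 7), 0, 5), ((6, 2), 1, 2), ((6, 3),
    1, 0), ((9, 7), 1, 5), ((9, 8), 1, 6)]
  Tb := [((0, 1, 5), 3, 4, 7), ((1, 0, 2), 4, 3, 2), ((2, 1, 3), 2, 4, 0), ((2, 1, 6), 2, 4, 1),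
    ((2, 1, 8), 2, 4, 6), ((2, 3, 6), 2, 0, 1), ((2, 3, 8), 2, 0, 6), ((2, 6, 8), 2, 1, 6),
    ((3, 2, 6), 0, 2, 1), ((4, 5, 7), 0, 7, 5), ((5, 0, 4), 7, 3, 0), ((6, 2, 3), 1, 2, 0),
    ((7, 4, 9), 5, 0, 1), ((8, 2, 9), 6, 2, 1), ((9, 7, 8), 1, 5, 6)]
  Tc := [(3, 0, 2)]
  Td := [((0, 3), (3, 2), 2), ((0, 3), (3, 6), 1), ((0, 3), (4, 5), 7), ((0, 3), (4, 7), 5), ((2,
    3), (2, 1), 4), ((2, 3), (2, 3), 0), ((2, 3), (2, 6), 1), ((2, 3), (2, 8), 6), ((3, 0),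
    (0, 1), 4), ((3, 0), (0, 5), 7), ((3, 2), (0, 1), 4), ((3, 2), (0, 5), 7)]
  G := [[0, 0x84ce124c61881a4c61881ce484ce1284ce124c61881ce83, 0xc124c128c128ec128c124c124ea1,
    0x881d24441d28481d28e4152481c1144c38481d24ec2,
    0x8814488152881c81528881d24e2882442881d248428192c881d24e88144af], [0, 0,
    0x21c1a421c168216168e2161a42161a421c164e61, 0,
    0x1182c341122c381182c34e81182c341122c381182c34e25], [0, 0, 0,
    0x891d24541d28541d28e4428192c541d284428192ce52,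
    0x88244891d24899411684891d24891d24aa8824488824891d2469152882c4af], [0, 0, 0, 0,
    0x12c21968424116388c219325a4aa21c815a412c21968a11a4219e84a5]]

noncomputable def n1644 : Ent := ⟨e1644, noF, [], [], [(8, 15, [1685356702439545624007900436039642273970977273354372543760006811649, 0])]⟩

def c1644 : PLift (Cov.check n1644.C.D v1644 = true) := ⟨by decide +kernel⟩

def b1644 : PLift (entF (fidx ts) 400 1644 n1644 = true) := ⟨by decide +kernel⟩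

theorem g1644 : GoodF (fidx ts) 400 1644 := GoodF.ofV v1644 n1644 c1644.down b1644.down

/-- 4576474:1362 -/
noncomputable def e1645 : SCfg where
  D := {
    a := 7
    L := 11
    kp := 8
    inn := [(0, 1), (0, 2), (1, 0), (1, 2), (2, 0), (2, 1), (2, 3), (3, 2), (3, 4), (3, 5), (4, 3), (4,
      5), (5, 3), (5, 4), (5, 6), (6, 5)]
    mix := [(0, 0), (0, 1), (1, 1), (1, 2), (1, 3), (2, 0), (2, 3), (2, 4), (2, 5), (3, 3), (3, 4), (3,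
      6), (4, 4), (4, 7), (5, 6), (5, 7), (5, 8), (5, 9), (6, 6), (6, 8), (6, 10)]
    cl := [3, 2, 6, 0, 0, 7, 1, 4, 5, 1, 8]
    chq := [(3, 6), (6, 3), (6, 7), (7, 6)]
    rng := [(0, 1), (0, 5), (1, 0), (1, 2), (2, 1), (2, 3), (3, 2), (3, 6), (4, 5), (4, 7), (5, 0), (5,
      4), (6, 3), (6, 10), (7, 4), (7, 9), (8, 9), (8, 10), (9, 7), (9, 8), (10, 6), (10, 8)]
    lev := [] }
  links := [[1, 2, 7, 8], [2, 0, 8, 9, 10], [7, 0, 1, 10, 3, 11, 12], [11, 2, 10, 13, 5, 4], [11, 3, 5,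
    14], [14, 4, 3, 13, 6, 15, 16], [15, 5, 13, 17]]
  P := {
    a := 7
    N := 18
    nb := [390, 1797, 7307, 11316, 18472, 122968, 172064, 4357, 643, 1282, 8718, 20508, 2180, 132200,
      67632, 196704, 49184, 41024]
    tri := [(0, 1, 2), (0, 1, 8), (0, 2, 7), (0, 7, 8), (1, 2, 10), (1, 8, 9), (1, 9, 10), (2, 3, 10),
      (2, 3, 11), (2, 7, 12), (2, 11, 12), (3, 4, 5), (3, 4, 11), (3, 5, 13), (3, 10, 13), (4, 5,
      14), (4, 11, 14), (5, 6, 13), (5, 6, 15), (5, 14, 16), (5, 15, 16), (6, 13, 17), (6, 15,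
      17)]
    fin := [0, 1, 1, 3, 3, 5, 5, 0, 8, 1, 3, 3, 12, 5, 14, 15, 5, 17]
    chd := [(0, 1), (1, 12)]
    steps := [(0, 7), (1, 2), (1, 9), (3, 4), (3, 10), (3, 11), (5, 6), (5, 13), (5, 16)] }
  rep := [3, 5, 8, 0, 14, 15, 1, 12, 17]

noncomputable def v1645 : Cov.CovD where
  P := 3
  N := 6
  pl := [1, 7, 8, 10]
  lev := [⟨[], [], [], [2], [(0, 3, [6])]⟩,
    ⟨[], [(0, 0), (0, 3), (0, 6)], [(0, 6)], [2], [(2, 6, [3, 7]), (3, 0, [])]⟩,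
    ⟨[(0, 1)], [(0, 0), (0, 3), (0, 7), (1, 0), (1, 3), (1, 6), (1, 7)], [(0, 0), (0, 3),
      (0, 7), (3, 7)], [], [(0, 3, [6]), (3, 0, []), (4, 0, []), (5, 7, [6])]⟩,
    ⟨[(0, 2), (1, 2)], [(1, 0), (2, 0), (2, 1), (2, 3), (2, 7)], [(0, 0), (0, 1)], [], [(3,
      0, []), (4, 0, []), (6, 1, [])]⟩,
    ⟨[(2, 3)], [(2, 0), (3, 0), (3, 1)], [], [4], [(4, 0, [])]⟩,
    ⟨[(2, 3), (3, 4)], [(3, 0), (3, 1), (4, 0), (4, 1)], [(1, 1)], [4, 5], [(6, 1, []), (9,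
      1, [])]⟩,
    ⟨[(3, 5), (4, 5)], [(3, 1), (5, 1)], [], [5, 8], [(6, 1, [])]⟩]
  Ta := [((3, 2), 0, 6), ((3, 6), 0, 1), ((4, 5), 0, 7), ((4, 7), 0, 4), ((6, 3), 1, 0), ((6,
    10), 1, 8), ((9, 7), 1, 4), ((9, 8), 1, 5)]
  Tb := [((0, 1, 5), 3, 2, 7), ((1, 0, 2), 2, 3, 6), ((2, 1, 3), 6, 2, 0), ((3, 2, 6), 0, 6, 1),
    ((4, 5, 7), 0, 7, 4), ((5, 0, 4), 7, 3, 0), ((6, 3, 10), 1, 0, 8), ((7, 4, 9), 4, 0, 1),
    ((8, 9, 10), 5, 1, 8), ((9, 7, 8), 1, 4, 5), ((10, 6, 8), 8, 1, 5)]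
  Tc := [(6, 3, 7)]
  Td := [((3, 6), (0, 1), 2), ((3, 6), (0, 5), 7), ((6, 3), (2, 1), 2), ((6, 3), (2, 3), 0), ((6,
    7), (2, 1), 2), ((6, 7), (2, 3), 0), ((7, 6), (5, 0), 3), ((7, 6), (5, 4), 0)]
  G := [[0xeea1e41684621ee8e1a486eee1881c24e, 0xeea1e41684e21a4e4c5a48e21eec1628d,
    0xc8dd244cdd2881cc24428824d9c43882c44428441c8dd2cace,
    0xd1c8c3444284428e488144cdd288824e88814444284cdd2881cacd,
    0xc8dd24824428c42cd92c644288a44284cdd2881cc2b], [0, 0,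
    0xb122c345129528d8c2d122c3822c2d5a468a, 0xb122c34842252596848d122c3828d,
    0x28b124b482d122c3828212b5287842b], [0, 0,
    0xd9dd24dd52d82cc24428844ddd2982c4ddd2982c644288ce,
    0xd9dd24d42dd92ca1dd5285ddd2882c61d824444288cd,
    0xd9dd24dd52d82cc1d42dd92c5ddd2882c61442882b], [0, 0,
    0x62c3a5a422575968c2629395a4a4616388ca46, 0x22c2e5a5886629395a4a1a253596879522298c61c,
    0x23c827da42257b968c1a2535968a446831ac61a]]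

noncomputable def n1645 : Ent := ⟨e1645, noF, [], [], [(8, 15, [7334790850167413569773436004105379185503274260204390087403942011379713, 0]), (8, 16, [7334685537875745012586738086077695515070955365108989538292687700406273, 0]), (9, 17, [6903326391201334775872065844685381424292761054348340378595029936422913, 0])]⟩

def c1645 : PLift (Cov.check n1645.C.D v1645 = true) := ⟨by decide +kernel⟩

def b1645 : PLift (entF (fidx ts) 400 1645 n1645 = true) := ⟨by decide +kernel⟩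

theorem g1645 : GoodF (fidx ts) 400 1645 := GoodF.ofV v1645 n1645 c1645.down b1645.down

/-- 4576474:1363/2 -/
noncomputable def e1646 : SCfg where
  D := {
    a := 7
    L := 9
    kp := 6
    inn := [(0, 1), (0, 2), (1, 0), (1, 2), (2, 0), (2, 1), (2, 3), (3, 2), (3, 4), (3, 5), (4, 3), (4,
      5), (5, 3), (5, 4), (5, 6), (6, 5)]
    mix := [(0, 0), (0, 1), (1, 1), (1, 2), (1, 3), (2, 0), (2, 3), (2, 4), (2, 5), (3, 3), (3, 4), (3,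
      6), (4, 4), (4, 7), (5, 1), (5, 6), (5, 7), (5, 8), (6, 0), (6, 1), (6, 8)]
    cl := [0, 1, 6, 0, 3, 5, 4, 2, 2]
    chq := [(3, 4), (4, 3), (4, 5), (5, 4)]
    rng := [(0, 1), (0, 5), (0, 8), (1, 0), (1, 2), (1, 7), (2, 1), (2, 3), (3, 2), (3, 6), (4, 5), (4,
      7), (5, 0), (5, 4), (6, 3), (6, 8), (7, 1), (7, 4), (8, 0), (8, 6)]
    lev := [] }
  links := [[1, 2, 7, 8], [2, 0, 8, 9, 10], [7, 0, 1, 10, 3, 11, 12], [11, 2, 10, 13, 5, 4], [11, 3, 5,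
    14], [14, 4, 3, 13, 15, 6, 8], [8, 5, 15, 7]]
  P := {
    a := 7
    N := 16
    nb := [390, 1797, 7307, 11316, 18472, 57688, 33184, 37189, 17123, 1282, 8718, 20508, 2180, 33832,
      2352, 8416]
    tri := [(0, 1, 2), (0, 1, 8), (0, 2, 7), (0, 7, 8), (1, 2, 10), (1, 8, 9), (1, 9, 10), (2, 3, 10),
      (2, 3, 11), (2, 7, 12), (2, 11, 12), (3, 4, 5), (3, 4, 11), (3, 5, 13), (3, 10, 13), (4, 5,
      14), (4, 11, 14), (5, 6, 8), (5, 6, 15), (5, 8, 14), (5, 13, 15), (6, 7, 8), (6, 7, 15)]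
    fin := [0, 0, 2, 2, 2, 5, 0, 0, 8, 9, 0, 11, 12, 2, 5, 5]
    chd := [(11, 2), (12, 2)]
    steps := [(0, 1), (0, 7), (0, 6), (0, 10), (2, 3), (2, 4), (2, 13), (5, 15), (5, 14)] }
  rep := [0, 8, 5, 11, 2, 12, 9]

noncomputable def v1646 : Cov.CovD where
  P := 3
  N := 4
  pl := [1, 2]
  lev := [⟨[], [], [], [1], [(0, 0, [])]⟩,
    ⟨[], [(0, 0)], [], [1, 6], [(3, 0, [])]⟩,
    ⟨[(0, 1)], [(0, 0), (0, 3), (0, 5), (1, 0), (1, 3), (1, 5)], [(0, 0), (0, 3), (0, 5),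
      (3, 5)], [], [(0, 0, []), (3, 0, []), (4, 3, [4]), (5, 5, [4])]⟩,
    ⟨[(0, 2), (1, 2)], [(1, 0), (2, 0), (2, 3), (2, 4), (2, 5)], [(0, 3), (0, 4), (3, 4)],
      [], [(3, 0, []), (4, 3, [4]), (6, 4, [3, 5])]⟩,
    ⟨[(2, 3)], [(2, 3), (3, 0), (3, 2), (3, 3), (3, 4)], [(2, 3)], [], [(4, 3, [4]), (7, 2,
      [])]⟩,
    ⟨[(2, 3), (3, 4)], [(3, 0), (3, 2), (3, 3), (3, 4), (4, 2), (4, 3), (4, 4)], [(2, 2),
      (2, 4)], [1], [(6, 4, [3, 5]), (7, 2, []), (8, 2, [])]⟩,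
    ⟨[(3, 5), (4, 5)], [(0, 0), (2, 0), (5, 0), (5, 2), (5, 4)], [(0, 2)], [1], [(0, 0,
      []), (8, 2, [])]⟩]
  Ta := [((0, 1), 0, 1), ((0, 5), 0, 5), ((0, 8), 0, 2), ((3, 2), 0, 6), ((3, 6), 0, 4), ((7, 1),
    2, 1), ((7, 4), 2, 3), ((8, 0), 2, 0), ((8, 6), 2, 4)]
  Tb := [((0, 1, 5), 0, 1, 5), ((0, 1, 8), 0, 1, 2), ((0, 5, 8), 0, 5, 2), ((1, 0, 2), 1, 0, 6),
    ((1, 0, 7), 1, 0, 2), ((1, 2, 7), 1, 6, 2), ((2, 1, 3), 6, 1, 0), ((3, 2, 6), 0, 6, 4),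
    ((4, 5, 7), 3, 5, 2), ((5, 0, 4), 5, 0, 3), ((6, 3, 8), 4, 0, 2), ((7, 1, 4), 2, 1, 3),
    ((8, 0, 6), 2, 0, 4)]
  Tc := [(4, 3, 5)]
  Td := [((3, 4), (4, 5), 5), ((3, 4), (4, 7), 2), ((4, 3), (6, 3), 0), ((4, 3), (6, 8), 2), ((4,
    5), (6, 3), 0), ((4, 5), (6, 8), 2), ((5, 4), (5, 0), 0), ((5, 4), (5, 4), 3)]
  G := [[0, 0x48418482648484c24844834842a848142c42c6c, 0, 0x818281124842e14,
    0x4114126418812ca14], [0, 0x484248246848248428428ea84824821a4c,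
    0x4841842164848148414821e84818cc, 0, 0x8184818814a8114e14], [0, 0, 0,
    0x848248428412e848248428412ec1, 0x48984898648144492481ce449848926481882a482481cec1], [0,
    0, 0, 0, 0x184184a44189841891184a1824e8118941814acc]]

noncomputable def n1646 : Ent := ⟨e1646, noF, [], [], []⟩

def c1646 : PLift (Cov.check n1646.C.D v1646 = true) := ⟨by decide +kernel⟩

def b1646 : PLift (entF (fidx ts) 400 1646 n1646 = true) := ⟨by decide +kernel⟩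

theorem g1646 : GoodF (fidx ts) 400 1646 := GoodF.ofV v1646 n1646 c1646.down b1646.down

/-- 4576474:1363/1 -/
noncomputable def e1647 : SCfg where
  D := {
    a := 7
    L := 10
    kp := 7
    inn := [(0, 1), (0, 2), (1, 0), (1, 2), (2, 0), (2, 1), (2, 3), (3, 2), (3, 4), (3, 5), (4, 3), (4,
      5), (5, 3), (5, 4), (5, 6), (6, 5)]
    mix := [(0, 0), (0, 1), (1, 1), (1, 2), (1, 3), (2, 0), (2, 3), (2, 4), (2, 5), (3, 3), (3, 4), (3,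
      6), (4, 4), (4, 7), (5, 6), (5, 7), (5, 8), (5, 9), (6, 0), (6, 8), (6, 9)]
    cl := [0, 2, 7, 0, 4, 6, 1, 3, 3, 5]
    chq := [(1, 4), (1, 6), (4, 1), (6, 1)]
    rng := [(0, 1), (0, 5), (0, 8), (0, 9), (1, 0), (1, 2), (2, 1), (2, 3), (3, 2), (3, 6), (4, 5), (4,
      7), (5, 0), (5, 4), (6, 3), (6, 8), (7, 4), (7, 9), (8, 0), (8, 6), (9, 0), (9, 7)]
    lev := [] }
  links := [[1, 2, 7, 8], [2, 0, 8, 9, 10], [7, 0, 1, 10, 3, 11, 12], [11, 2, 10, 13, 5, 4], [11, 3, 5,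
    14], [14, 4, 3, 13, 15, 6, 16], [16, 5, 15, 7]]
  P := {
    a := 7
    N := 17
    nb := [390, 1797, 7307, 11316, 18472, 122968, 98464, 102725, 643, 1282, 8718, 20508, 2180, 33832,
      67632, 8416, 16608]
    tri := [(0, 1, 2), (0, 1, 8), (0, 2, 7), (0, 7, 8), (1, 2, 10), (1, 8, 9), (1, 9, 10), (2, 3, 10),
      (2, 3, 11), (2, 7, 12), (2, 11, 12), (3, 4, 5), (3, 4, 11), (3, 5, 13), (3, 10, 13), (4, 5,
      14), (4, 11, 14), (5, 6, 15), (5, 6, 16), (5, 13, 15), (5, 14, 16), (6, 7, 15), (6, 7, 16)]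
    fin := [0, 0, 2, 2, 2, 5, 0, 0, 8, 9, 0, 11, 12, 2, 5, 5, 16]
    chd := [(11, 2), (12, 2)]
    steps := [(0, 1), (0, 7), (0, 6), (0, 10), (2, 3), (2, 4), (2, 13), (5, 15), (5, 14)] }
  rep := [0, 2, 8, 5, 11, 16, 12, 9]

noncomputable def v1647 : Cov.CovD where
  P := 3
  N := 5
  pl := [1, 2, 9]
  lev := [⟨[], [], [], [2], [(0, 0, [])]⟩,
    ⟨[], [(0, 0)], [], [2, 7], [(3, 0, [])]⟩,
    ⟨[(0, 1)], [(0, 0), (0, 4), (0, 6), (1, 0), (1, 4), (1, 6)], [(0, 0), (0, 4), (0, 6),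
      (4, 6)], [], [(0, 0, []), (3, 0, []), (4, 4, [1]), (5, 6, [1])]⟩,
    ⟨[(0, 2), (1, 2)], [(1, 0), (2, 0), (2, 1), (2, 4), (2, 6)], [(0, 1), (0, 4), (1, 4)],
      [], [(3, 0, []), (4, 4, [1]), (6, 1, [4, 6])]⟩,
    ⟨[(2, 3)], [(2, 4), (3, 0), (3, 1), (3, 3), (3, 4)], [(3, 4)], [], [(4, 4, [1]), (7, 3,
      [])]⟩,
    ⟨[(2, 3), (3, 4)], [(3, 0), (3, 1), (3, 3), (3, 4), (4, 1), (4, 3), (4, 4)], [(1, 3),
      (3, 3)], [5], [(6, 1, [4, 6]), (7, 3, []), (8, 3, [])]⟩,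
    ⟨[(3, 5), (4, 5)], [(0, 0), (2, 0), (5, 0), (5, 1), (5, 3)], [(0, 3)], [5], [(0, 0,
      []), (8, 3, [])]⟩]
  Ta := [((0, 1), 0, 2), ((0, 5), 0, 6), ((0, 8), 0, 3), ((0, 9), 0, 5), ((3, 2), 0, 7), ((3, 6),
    0, 1), ((7, 4), 3, 4), ((7, 9), 3, 5), ((8, 0), 3, 0), ((8, 6), 3, 1)]
  Tb := [((0, 1, 5), 0, 2, 6), ((0, 1, 8), 0, 2, 3), ((0, 1, 9), 0, 2, 5), ((0, 5, 8), 0, 6, 3),
    ((0, 5, 9), 0, 6, 5), ((0, 8, 9), 0, 3, 5), ((1, 0, 2), 2, 0, 7), ((2, 1, 3), 7, 2, 0),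
    ((3, 2, 6), 0, 7, 1), ((4, 5, 7), 4, 6, 3), ((5, 0, 4), 6, 0, 4), ((6, 3, 8), 1, 0, 3),
    ((7, 4, 9), 3, 4, 5), ((8, 0, 6), 3, 0, 1), ((9, 0, 7), 5, 0, 3)]
  Tc := [(1, 4, 6)]
  Td := [((1, 4), (6, 3), 0), ((1, 4), (6, 8), 3), ((1, 6), (6, 3), 0), ((1, 6), (6, 8), 3), ((4,
    1), (4, 5), 6), ((4, 1), (4, 7), 3), ((6, 1), (5, 0), 0), ((6, 1), (5, 4), 4)]
  G := [[0, 0, 0xa12611c2c12a11c2c4, 0x28ad122cd2c218, 0x22cd1882d2c218], [0, 0,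
    0xe12e11c2e11e12c2c8, 0x24ad1826d2c214, 0x24ad2826d1c218], [0,
    0x8a2e184ce1644182a1441e22122184c1ee4261881881e642e184ce1a22122184c1eec1, 0,
    0xc11c12c2c11c12c2c4, 0x612c11c2c1286124612c12cea1], [0,
    0x11c4111e4a44112e8811e16142e1111e1a12112111c1ee1161188881e12112111c1eac221844d, 0,
    0xe12e11c2e12e11c2c4, 0xe11e12c2e128e1248161ae11cea1]]

noncomputable def n1647 : Ent := ⟨e1647, noF, [], [], [(8, 16, [1580044410770988437309982408355971841652082177953823432505695854593, 0])]⟩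

def c1647 : PLift (Cov.check n1647.C.D v1647 = true) := ⟨by decide +kernel⟩

def b1647 : PLift (entF (fidx ts) 400 1647 n1647 = true) := ⟨by decide +kernel⟩

theorem g1647 : GoodF (fidx ts) 400 1647 := GoodF.ofV v1647 n1647 c1647.down b1647.down

/-- 4576474:1363/3 -/
noncomputable def e1648 : SCfg where
  D := {
    a := 7
    L := 10
    kp := 7
    inn := [(0, 1), (0, 2), (1, 0), (1, 2), (2, 0), (2, 1), (2, 3), (3, 2), (3, 4), (3, 5), (4, 3), (4,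
      5), (5, 3), (5, 4), (5, 6), (6, 5)]
    mix := [(0, 0), (0, 1), (1, 1), (1, 2), (1, 3), (2, 0), (2, 3), (2, 4), (2, 5), (3, 3), (3, 4), (3,
      6), (4, 4), (4, 7), (5, 6), (5, 7), (5, 8), (5, 9), (6, 1), (6, 8), (6, 9)]
    cl := [2, 1, 6, 0, 0, 7, 3, 4, 5, 3]
    chq := [(0, 2), (2, 0), (2, 6), (6, 2)]
    rng := [(0, 1), (0, 5), (1, 0), (1, 2), (1, 8), (1, 9), (2, 1), (2, 3), (3, 2), (3, 6), (4, 5), (4,
      7), (5, 0), (5, 4), (6, 3), (6, 8), (7, 4), (7, 9), (8, 1), (8, 6), (9, 1), (9, 7)]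
    lev := [] }
  links := [[1, 2, 7, 8], [2, 0, 8, 9, 10], [7, 0, 1, 10, 3, 11, 12], [11, 2, 10, 13, 5, 4], [11, 3, 5,
    14], [14, 4, 3, 13, 15, 6, 16], [16, 5, 15, 8]]
  P := {
    a := 7
    N := 17
    nb := [390, 1797, 7307, 11316, 18472, 122968, 98592, 4357, 99011, 1282, 8718, 20508, 2180, 33832,
      67632, 8544, 16736]
    tri := [(0, 1, 2), (0, 1, 8), (0, 2, 7), (0, 7, 8), (1, 2, 10), (1, 8, 9), (1, 9, 10), (2, 3, 10),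
      (2, 3, 11), (2, 7, 12), (2, 11, 12), (3, 4, 5), (3, 4, 11), (3, 5, 13), (3, 10, 13), (4, 5,
      14), (4, 11, 14), (5, 6, 15), (5, 6, 16), (5, 13, 15), (5, 14, 16), (6, 8, 15), (6, 8, 16)]
    fin := [0, 0, 0, 3, 3, 5, 6, 0, 6, 9, 3, 3, 12, 5, 14, 15, 5]
    chd := [(0, 3), (0, 9)]
    steps := [(0, 1), (0, 2), (0, 7), (3, 4), (3, 10), (3, 11), (5, 13), (5, 16), (6, 8)] }
  rep := [3, 6, 0, 5, 14, 15, 9, 12]

noncomputable def v1648 : Cov.CovD where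
  P := 3
  N := 5
  pl := [1, 5, 7, 8]
  lev := [⟨[], [], [], [1], [(0, 2, [0, 6])]⟩,
    ⟨[], [(0, 0), (0, 2), (0, 6)], [(0, 6)], [1], [(2, 6, [2]), (3, 0, [2])]⟩,
    ⟨[(0, 1)], [(0, 0), (0, 2), (1, 0), (1, 2), (1, 6)], [(0, 0), (0, 2)], [7], [(0, 2, [0,
      6]), (3, 0, [2]), (4, 0, [2])]⟩,
    ⟨[(0, 2), (1, 2)], [(1, 0), (2, 0), (2, 2), (2, 3)], [(0, 0), (0, 3)], [], [(3, 0,
      [2]), (4, 0, [2]), (6, 3, [])]⟩,
    ⟨[(2, 3)], [(2, 0), (3, 0), (3, 3)], [], [4], [(4, 0, [2])]⟩,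
    ⟨[(2, 3), (3, 4)], [(3, 0), (3, 3), (4, 0), (4, 3)], [(3, 3)], [4, 5], [(6, 3, []), (9,
      3, [])]⟩,
    ⟨[(3, 5), (4, 5)], [(5, 3)], [], [1, 5], [(9, 3, [])]⟩]
  Ta := [((3, 2), 0, 6), ((3, 6), 0, 3), ((4, 5), 0, 7), ((4, 7), 0, 4), ((6, 3), 3, 0), ((6, 8),
    3, 5), ((9, 1), 3, 1), ((9, 7), 3, 4)]
  Tb := [((0, 1, 5), 2, 1, 7), ((1, 0, 2), 1, 2, 6), ((1, 0, 8), 1, 2, 5), ((1, 0, 9), 1, 2, 3),
    ((1, 2, 8), 1, 6, 5), ((1, 2, 9), 1, 6, 3), ((1, 8, 9), 1, 5, 3), ((2, 1, 3), 6, 1, 0),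
    ((3, 2, 6), 0, 6, 3), ((4, 5, 7), 0, 7, 4), ((5, 0, 4), 7, 2, 0), ((6, 3, 8), 3, 0, 5),
    ((7, 4, 9), 4, 0, 3), ((8, 1, 6), 5, 1, 3), ((9, 1, 7), 3, 1, 4)]
  Tc := [(2, 0, 6)]
  Td := [((0, 2), (3, 2), 6), ((0, 2), (3, 6), 3), ((0, 2), (4, 5), 7), ((0, 2), (4, 7), 4), ((2,
    0), (0, 1), 1), ((2, 0), (0, 5), 7), ((2, 6), (0, 1), 1), ((2, 6), (0, 5), 7), ((6, 2),
    (2, 1), 1), ((6, 2), (2, 3), 0)]
  G := [[0, 0x4c92432694256a144c32a5429ac24, 0x481d425211848e321182e18,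
    0x1184ce521184ce92c11849e9211849e92cc1, 0x4111845ed254324221184c9ea41], [0,
    0x82a1618144d62a94c942678c28, 0xc1388341184ce92114458e18,
    0x1184de921184de92c41184de52114d65881ac8c, 0x11c13a84c1644111118cabca48], [0,
    0x2a8af2824cf46628cf248ccf8ac28, 0x41881d82d21111848ed2c18, 0x496881bc24481fc2c2c14,
    0x4847891bc29134828441d8ea41], [0, 0x2238ceba4488cc62264c87646988cac24,
    0x111184ced211c13684c1ac18, 0x4c178dac2d2241588cac14, 0x1188d1fa4488c61154d1f64488caa41]]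

noncomputable def n1648 : Ent := ⟨e1648, noF, [], [], []⟩

def c1648 : PLift (Cov.check n1648.C.D v1648 = true) := ⟨by decide +kernel⟩

def b1648 : PLift (entF (fidx ts) 400 1648 n1648 = true) := ⟨by decide +kernel⟩

theorem g1648 : GoodF (fidx ts) 400 1648 := GoodF.ofV v1648 n1648 c1648.down b1648.down

/-- 4576474:1363/5 -/
noncomputable def e1649 : SCfg where
  D := {
    a := 7
    L := 9
    kp := 6
    inn := [(0, 1), (0, 2), (1, 0), (1, 2), (2, 0), (2, 1), (2, 3), (3, 2), (3, 4), (3, 5), (4, 3), (4,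
      5), (5, 3), (5, 4), (5, 6), (6, 5)]
    mix := [(0, 0), (0, 1), (1, 1), (1, 2), (1, 3), (2, 0), (2, 3), (2, 4), (2, 5), (3, 3), (3, 4), (3,
      6), (4, 4), (4, 7), (5, 1), (5, 6), (5, 7), (5, 8), (6, 1), (6, 2), (6, 8)]
    cl := [3, 0, 2, 1, 1, 6, 0, 4, 5]
    chq := [(1, 3), (2, 3), (3, 1), (3, 2)]
    rng := [(0, 1), (0, 5), (1, 0), (1, 2), (1, 7), (2, 1), (2, 3), (2, 8), (3, 2), (3, 6), (4, 5), (4,
      7), (5, 0), (5, 4), (6, 3), (6, 8), (7, 1), (7, 4), (8, 2), (8, 6)]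
    lev := [] }
  links := [[1, 2, 7, 8], [2, 0, 8, 9, 10], [7, 0, 1, 10, 3, 11, 12], [11, 2, 10, 13, 5, 4], [11, 3, 5,
    14], [14, 4, 3, 13, 15, 6, 8], [8, 5, 15, 9]]
  P := {
    a := 7
    N := 16
    nb := [390, 1797, 7307, 11316, 18472, 57688, 33568, 4357, 17123, 34114, 8718, 20508, 2180, 33832,
      2352, 8800]
    tri := [(0, 1, 2), (0, 1, 8), (0, 2, 7), (0, 7, 8), (1, 2, 10), (1, 8, 9), (1, 9, 10), (2, 3, 10),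
      (2, 3, 11), (2, 7, 12), (2, 11, 12), (3, 4, 5), (3, 4, 11), (3, 5, 13), (3, 10, 13), (4, 5,
      14), (4, 11, 14), (5, 6, 8), (5, 6, 15), (5, 8, 14), (5, 13, 15), (6, 8, 9), (6, 9, 15)]
    fin := [0, 0, 0, 3, 4, 4, 4, 0, 4, 9, 3, 3, 12, 4, 14, 15]
    chd := [(0, 3), (0, 9)]
    steps := [(0, 1), (0, 2), (0, 7), (3, 10), (3, 11), (4, 5), (4, 6), (4, 8), (4, 13)] }
  rep := [4, 3, 9, 0, 14, 15, 12]

noncomputable def v1649 : Cov.CovD where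
  P := 3
  N := 4
  pl := [5, 7, 8]
  lev := [⟨[], [], [(0, 3)], [], [(0, 3, [1, 2]), (1, 0, [])]⟩,
    ⟨[], [(0, 0), (0, 1), (0, 2), (0, 3)], [(0, 1), (0, 2), (1, 2)], [], [(1, 0, []), (2,
      2, [3]), (3, 1, [3])]⟩,
    ⟨[(0, 1)], [(0, 0), (0, 1), (0, 3), (1, 0), (1, 1), (1, 2), (1, 3)], [(1, 1), (1, 3)],
      [6], [(0, 3, [1, 2]), (3, 1, [3]), (4, 1, [3])]⟩,
    ⟨[(0, 2), (1, 2)], [(1, 1), (2, 0), (2, 1), (2, 3)], [(0, 1), (1, 1)], [], [(3, 1,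
      [3]), (4, 1, [3]), (6, 0, [])]⟩,
    ⟨[(2, 3)], [(2, 1), (3, 0), (3, 1)], [], [4], [(4, 1, [3])]⟩,
    ⟨[(2, 3), (3, 4)], [(0, 0), (1, 0), (3, 0), (3, 1), (4, 0), (4, 1)], [(0, 0)], [4, 5],
      [(1, 0, []), (6, 0, [])]⟩,
    ⟨[(3, 5), (4, 5)], [(0, 0), (1, 0), (1, 2), (5, 0), (5, 2)], [(0, 2)], [5], [(1, 0,
      []), (2, 2, [3])]⟩]
  Ta := [((1, 0), 0, 3), ((1, 2), 0, 2), ((1, 7), 0, 4), ((3, 2), 1, 2), ((3, 6), 1, 0), ((4, 5),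
    1, 6), ((4, 7), 1, 4), ((6, 3), 0, 1), ((6, 8), 0, 5)]
  Tb := [((0, 1, 5), 3, 0, 6), ((1, 0, 2), 0, 3, 2), ((1, 0, 7), 0, 3, 4), ((1, 2, 7), 0, 2, 4),
    ((2, 1, 3), 2, 0, 1), ((2, 1, 8), 2, 0, 5), ((2, 3, 8), 2, 1, 5), ((3, 2, 6), 1, 2, 0),
    ((4, 5, 7), 1, 6, 4), ((5, 0, 4), 6, 3, 1), ((6, 3, 8), 0, 1, 5), ((7, 1, 4), 4, 0, 1),
    ((8, 2, 6), 5, 2, 0)]
  Tc := [(3, 1, 2)]
  Td := [((1, 3), (3, 2), 2), ((1, 3), (3, 6), 0), ((1, 3), (4, 5), 6), ((1, 3), (4, 7), 4), ((2,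
    3), (2, 1), 0), ((2, 3), (2, 3), 1), ((2, 3), (2, 8), 5), ((3, 1), (0, 1), 0), ((3, 1),
    (0, 5), 6), ((3, 2), (0, 1), 0), ((3, 2), (0, 5), 6)]
  G := [[0, 0, 0x882e1484442e18442e1858a, 0xc2c294c2c258c2c298d82,
    0x22188c252218ac29222288ce4d82], [0, 0, 0x4261881c642e18642e18d42, 0,
    0x8a2e1488122a26c5a26482a1cd82], [0, 0x1161881a1214c38111e14e42, 0, 0x92145218c214d42,
    0x112e18112e18582], [0, 0, 0, 0, 0x192e18812e14582]]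

noncomputable def n1649 : Ent := ⟨e1649, noF, [], [], []⟩

def c1649 : PLift (Cov.check n1649.C.D v1649 = true) := ⟨by decide +kernel⟩

def b1649 : PLift (entF (fidx ts) 400 1649 n1649 = true) := ⟨by decide +kernel⟩

theorem g1649 : GoodF (fidx ts) 400 1649 := GoodF.ofV v1649 n1649 c1649.down b1649.down

/-- 4576474:1363/4 -/
noncomputable def e1650 : SCfg where
  D := {
    a := 7
    L := 10
    kp := 7
    inn := [(0, 1), (0, 2), (1, 0), (1, 2), (2, 0), (2, 1), (2, 3), (3, 2), (3, 4), (3, 5), (4, 3), (4,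
      5), (5, 3), (5, 4), (5, 6), (6, 5)]
    mix := [(0, 0), (0, 1), (1, 1), (1, 2), (1, 3), (2, 0), (2, 3), (2, 4), (2, 5), (3, 3), (3, 4), (3,
      6), (4, 4), (4, 7), (5, 1), (5, 6), (5, 7), (5, 8), (6, 1), (6, 8), (6, 9)]
    cl := [2, 0, 5, 1, 1, 6, 0, 3, 4, 7]
    chq := [(1, 2), (2, 1), (2, 5), (5, 2)]
    rng := [(0, 1), (0, 5), (1, 0), (1, 2), (1, 7), (1, 9), (2, 1), (2, 3), (3, 2), (3, 6), (4, 5), (4,
      7), (5, 0), (5, 4), (6, 3), (6, 8), (7, 1), (7, 4), (8, 6), (8, 9), (9, 1), (9, 8)]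
    lev := [] }
  links := [[1, 2, 7, 8], [2, 0, 8, 9, 10], [7, 0, 1, 10, 3, 11, 12], [11, 2, 10, 13, 5, 4], [11, 3, 5,
    14], [14, 4, 3, 13, 15, 6, 8], [8, 5, 15, 16]]
  P := {
    a := 7
    N := 17
    nb := [390, 1797, 7307, 11316, 18472, 57688, 98592, 4357, 82659, 1282, 8718, 20508, 2180, 33832,
      2352, 73824, 33088]
    tri := [(0, 1, 2), (0, 1, 8), (0, 2, 7), (0, 7, 8), (1, 2, 10), (1, 8, 9), (1, 9, 10), (2, 3, 10),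
      (2, 3, 11), (2, 7, 12), (2, 11, 12), (3, 4, 5), (3, 4, 11), (3, 5, 13), (3, 10, 13), (4, 5,
      14), (4, 11, 14), (5, 6, 8), (5, 6, 15), (5, 8, 14), (5, 13, 15), (6, 8, 16), (6, 15, 16)]
    fin := [0, 0, 0, 3, 4, 4, 4, 0, 4, 9, 3, 3, 12, 4, 14, 15, 16]
    chd := [(0, 3), (0, 9)]
    steps := [(0, 1), (0, 2), (0, 7), (3, 10), (3, 11), (4, 5), (4, 6), (4, 8), (4, 13)] }
  rep := [4, 3, 0, 14, 15, 9, 12, 16]

noncomputable def v1650 : Cov.CovD where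
  P := 3
  N := 5
  pl := [5, 7, 8, 9]
  lev := [⟨[], [], [(0, 2)], [], [(0, 2, [1, 5]), (1, 0, [])]⟩,
    ⟨[], [(0, 0), (0, 1), (0, 2), (0, 5)], [(0, 1), (0, 5), (1, 5)], [], [(1, 0, []), (2,
      5, [2]), (3, 1, [2])]⟩,
    ⟨[(0, 1)], [(0, 0), (0, 1), (0, 2), (1, 0), (1, 1), (1, 2), (1, 5)], [(1, 1), (1, 2)],
      [6], [(0, 2, [1, 5]), (3, 1, [2]), (4, 1, [2])]⟩,
    ⟨[(0, 2), (1, 2)], [(1, 1), (2, 0), (2, 1), (2, 2)], [(0, 1), (1, 1)], [], [(3, 1,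
      [2]), (4, 1, [2]), (6, 0, [])]⟩,
    ⟨[(2, 3)], [(2, 1), (3, 0), (3, 1)], [], [3], [(4, 1, [2])]⟩,
    ⟨[(2, 3), (3, 4)], [(0, 0), (1, 0), (3, 0), (3, 1), (4, 0), (4, 1)], [(0, 0)], [3, 4],
      [(1, 0, []), (6, 0, [])]⟩,
    ⟨[(3, 5), (4, 5)], [(0, 0), (1, 0), (5, 0)], [], [4, 7], [(1, 0, [])]⟩]
  Ta := [((1, 0), 0, 2), ((1, 2), 0, 5), ((1, 7), 0, 3), ((1, 9), 0, 7), ((3, 2), 1, 5), ((3, 6),
    1, 0), ((4, 5), 1, 6), ((4, 7), 1, 3), ((6, 3), 0, 1), ((6, 8), 0, 4)]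
  Tb := [((0, 1, 5), 2, 0, 6), ((1, 0, 2), 0, 2, 5), ((1, 0, 7), 0, 2, 3), ((1, 0, 9), 0, 2, 7),
    ((1, 2, 7), 0, 5, 3), ((1, 2, 9), 0, 5, 7), ((1, 7, 9), 0, 3, 7), ((2, 1, 3), 5, 0, 1),
    ((3, 2, 6), 1, 5, 0), ((4, 5, 7), 1, 6, 3), ((5, 0, 4), 6, 2, 1), ((6, 3, 8), 0, 1, 4),
    ((7, 1, 4), 3, 0, 1), ((8, 6, 9), 4, 0, 7), ((9, 1, 8), 7, 0, 4)]
  Tc := [(2, 1, 5)]
  Td := [((1, 2), (3, 2), 5), ((1, 2), (3, 6), 0), ((1, 2), (4, 5), 6), ((1, 2), (4, 7), 3), ((2,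
    1), (0, 1), 0), ((2, 1), (0, 5), 6), ((2, 5), (0, 1), 0), ((2, 5), (0, 5), 6), ((5, 2),
    (2, 1), 0), ((5, 2), (2, 3), 1)]
  G := [[0, 0, 0xe21ccc254cee18829c8c8ee144254cee18829c46, 0xe21eec25e21eec25c28,
    0xe21eec25642e88e63c948], [0, 0, 0xe81442ee61e81cee618c2c, 0x62ccca1a2ccc61e218d28,
    0xc41ceae26e5c448a6666de81c942], [0, 0x1811692111e12c24, 0, 0x11ee147c1e18c24,
    0x11be14117e18948], [0, 0, 0, 0x117e1811be18528, 0xb1ee14359e18928]]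

noncomputable def n1650 : Ent := ⟨e1650, noF, [], [], [(7, 16, [1580044410770988437309982408355971841652082177953823432505695854593, 0]), (9, 16, [1580044410770988437309982408355971841652082177953823432505695866881, 0])]⟩

def c1650 : PLift (Cov.check n1650.C.D v1650 = true) := ⟨by decide +kernel⟩

def b1650 : PLift (entF (fidx ts) 400 1650 n1650 = true) := ⟨by decide +kernel⟩

theorem g1650 : GoodF (fidx ts) 400 1650 := GoodF.ofV v1650 n1650 c1650.down b1650.down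

/-- 4576474:1363/6 -/
noncomputable def e1651 : SCfg where
  D := {
    a := 7
    L := 10
    kp := 7
    inn := [(0, 1), (0, 2), (1, 0), (1, 2), (2, 0), (2, 1), (2, 3), (3, 2), (3, 4), (3, 5), (4, 3), (4,
      5), (5, 3), (5, 4), (5, 6), (6, 5)]
    mix := [(0, 0), (0, 1), (1, 1), (1, 2), (1, 3), (2, 0), (2, 3), (2, 4), (2, 5), (3, 3), (3, 4), (3,
      6), (4, 4), (4, 7), (5, 6), (5, 7), (5, 8), (5, 9), (6, 2), (6, 8), (6, 9)]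
    cl := [3, 4, 2, 0, 0, 7, 1, 5, 6, 1]
    chq := [(0, 3), (2, 3), (3, 0), (3, 2)]
    rng := [(0, 1), (0, 5), (1, 0), (1, 2), (2, 1), (2, 3), (2, 8), (2, 9), (3, 2), (3, 6), (4, 5), (4,
      7), (5, 0), (5, 4), (6, 3), (6, 8), (7, 4), (7, 9), (8, 2), (8, 6), (9, 2), (9, 7)]
    lev := [] }
  links := [[1, 2, 7, 8], [2, 0, 8, 9, 10], [7, 0, 1, 10, 3, 11, 12], [11, 2, 10, 13, 5, 4], [11, 3, 5,
    14], [14, 4, 3, 13, 15, 6, 16], [16, 5, 15, 9]]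
  P := {
    a := 7
    N := 17
    nb := [390, 1797, 7307, 11316, 18472, 122968, 98848, 4357, 643, 99650, 8718, 20508, 2180, 33832,
      67632, 8800, 16992]
    tri := [(0, 1, 2), (0, 1, 8), (0, 2, 7), (0, 7, 8), (1, 2, 10), (1, 8, 9), (1, 9, 10), (2, 3, 10),
      (2, 3, 11), (2, 7, 12), (2, 11, 12), (3, 4, 5), (3, 4, 11), (3, 5, 13), (3, 10, 13), (4, 5,
      14), (4, 11, 14), (5, 6, 15), (5, 6, 16), (5, 13, 15), (5, 14, 16), (6, 9, 15), (6, 9, 16)]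
    fin := [0, 0, 0, 3, 3, 5, 6, 0, 8, 6, 3, 3, 12, 5, 14, 15, 5]
    chd := [(0, 3), (0, 6)]
    steps := [(0, 1), (0, 2), (0, 7), (3, 4), (3, 10), (3, 11), (5, 13), (5, 16), (6, 9)] }
  rep := [3, 5, 6, 0, 8, 14, 15, 12]

noncomputable def v1651 : Cov.CovD where
  P := 3
  N := 5
  pl := [1, 5, 7, 8]
  lev := [⟨[], [], [], [4], [(0, 3, [0, 2])]⟩,
    ⟨[], [(0, 0), (0, 2), (0, 3)], [(0, 2)], [4], [(2, 2, [3]), (3, 0, [3])]⟩,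
    ⟨[(0, 1)], [(0, 0), (0, 3), (1, 0), (1, 2), (1, 3)], [(0, 0), (0, 3)], [7], [(0, 3, [0,
      2]), (3, 0, [3]), (4, 0, [3])]⟩,
    ⟨[(0, 2), (1, 2)], [(1, 0), (2, 0), (2, 1), (2, 3)], [(0, 0), (0, 1)], [], [(3, 0,
      [3]), (4, 0, [3]), (6, 1, [])]⟩,
    ⟨[(2, 3)], [(2, 0), (3, 0), (3, 1)], [], [5], [(4, 0, [3])]⟩,
    ⟨[(2, 3), (3, 4)], [(3, 0), (3, 1), (4, 0), (4, 1)], [(1, 1)], [5, 6], [(6, 1, []), (9,
      1, [])]⟩,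
    ⟨[(3, 5), (4, 5)], [(1, 2), (5, 1), (5, 2)], [(1, 2)], [6], [(2, 2, [3]), (9, 1, [])]⟩]
  Ta := [((3, 2), 0, 2), ((3, 6), 0, 1), ((4, 5), 0, 7), ((4, 7), 0, 5), ((6, 3), 1, 0), ((6, 8),
    1, 6), ((9, 2), 1, 2), ((9, 7), 1, 5)]
  Tb := [((0, 1, 5), 3, 4, 7), ((1, 0, 2), 4, 3, 2), ((2, 1, 3), 2, 4, 0), ((2, 1, 8), 2, 4, 6),
    ((2, 1, 9), 2, 4, 1), ((2, 3, 8), 2, 0, 6), ((2, 3, 9), 2, 0, 1), ((2, 8, 9), 2, 6, 1),
    ((3, 2, 6), 0, 2, 1), ((4, 5, 7), 0, 7, 5), ((5, 0, 4), 7, 3, 0), ((6, 3, 8), 1, 0, 6),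
    ((7, 4, 9), 5, 0, 1), ((8, 2, 6), 6, 2, 1), ((9, 2, 7), 1, 2, 5)]
  Tc := [(3, 0, 2)]
  Td := [((0, 3), (3, 2), 2), ((0, 3), (3, 6), 1), ((0, 3), (4, 5), 7), ((0, 3), (4, 7), 5), ((2,
    3), (2, 1), 4), ((2, 3), (2, 3), 0), ((2, 3), (2, 8), 6), ((2, 3), (2, 9), 1), ((3, 0),
    (0, 1), 4), ((3, 0), (0, 5), 7), ((3, 2), (0, 1), 4), ((3, 2), (0, 5), 7)]
  G := [[0, 0x841e1244181a1c111e14e8841e12141e18811e14e43, 0xc1246128c128ea128c128c124ea1, 0,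
    0x221d24281d28881d24e2281d24281d28221d28e85], [0, 0,
    0xc142c188c144ec128c128c188ec184c148c128ee1,
    0x11284c16481d28481d28e881d24441d28441d28ec2,
    0x1189c341111c88c1a111184b881ce21189c341111847882c815116881ce85], [0, 0, 0, 0,
    0x821d24231d28821d24e2821d242448192c821d24e85], [0, 0, 0,
    0x891d24541d28891d24e891d242891d244152882ccd2,
    0x8824481488881de4298548192c11915c2ca88244288921194c688211915c6c8824819891d646af]]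

noncomputable def n1651 : Ent := ⟨e1651, noF, [], [], [(8, 16, [1580044410770988437309982408355971841652082177953823432505695866881, 0])]⟩

def c1651 : PLift (Cov.check n1651.C.D v1651 = true) := ⟨by decide +kernel⟩

def b1651 : PLift (entF (fidx ts) 400 1651 n1651 = true) := ⟨by decide +kernel⟩

theorem g1651 : GoodF (fidx ts) 400 1651 := GoodF.ofV v1651 n1651 c1651.down b1651.down

/-- 4576474:1363/7 -/
noncomputable def e1652 : SCfg where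
  D := {
    a := 7
    L := 10
    kp := 7
    inn := [(0, 1), (0, 2), (1, 0), (1, 2), (2, 0), (2, 1), (2, 3), (3, 2), (3, 4), (3, 5), (4, 3), (4,
      5), (5, 3), (5, 4), (5, 6), (6, 5)]
    mix := [(0, 0), (0, 1), (1, 1), (1, 2), (1, 3), (2, 0), (2, 3), (2, 4), (2, 5), (3, 3), (3, 4), (3,
      6), (4, 4), (4, 7), (5, 6), (5, 7), (5, 8), (5, 9), (6, 5), (6, 8), (6, 9)]
    cl := [1, 4, 7, 0, 0, 2, 3, 5, 6, 3]
    chq := [(0, 1), (1, 0), (1, 7), (7, 1)]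
    rng := [(0, 1), (0, 5), (1, 0), (1, 2), (2, 1), (2, 3), (3, 2), (3, 6), (4, 5), (4, 7), (5, 0), (5,
      4), (5, 8), (5, 9), (6, 3), (6, 8), (7, 4), (7, 9), (8, 5), (8, 6), (9, 5), (9, 7)]
    lev := [] }
  links := [[1, 2, 7, 8], [2, 0, 8, 9, 10], [7, 0, 1, 10, 3, 11, 12], [11, 2, 10, 13, 5, 4], [11, 3, 5,
    14], [14, 4, 3, 13, 15, 6, 16], [16, 5, 15, 12]]
  P := {
    a := 7
    N := 17
    nb := [390, 1797, 7307, 11316, 18472, 122968, 102432, 4357, 643, 1282, 8718, 20508, 100548, 33832,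
      67632, 12384, 20576]
    tri := [(0, 1, 2), (0, 1, 8), (0, 2, 7), (0, 7, 8), (1, 2, 10), (1, 8, 9), (1, 9, 10), (2, 3, 10),
      (2, 3, 11), (2, 7, 12), (2, 11, 12), (3, 4, 5), (3, 4, 11), (3, 5, 13), (3, 10, 13), (4, 5,
      14), (4, 11, 14), (5, 6, 15), (5, 6, 16), (5, 13, 15), (5, 14, 16), (6, 12, 15), (6, 12,
      16)]
    fin := [0, 0, 0, 3, 3, 5, 5, 0, 8, 9, 3, 3, 12, 5, 14, 15, 5]
    chd := [(0, 3), (0, 9)]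
    steps := [(0, 1), (0, 2), (0, 7), (3, 4), (3, 10), (3, 11), (5, 6), (5, 13), (5, 16)] }
  rep := [3, 0, 12, 5, 8, 14, 15, 9]

noncomputable def v1652 : Cov.CovD where
  P := 3
  N := 5
  pl := [1, 5, 7, 8]
  lev := [⟨[], [], [], [4], [(0, 1, [0, 7])]⟩,
    ⟨[], [(0, 0), (0, 1), (0, 7)], [(0, 7)], [4], [(2, 7, [1]), (3, 0, [1])]⟩,
    ⟨[(0, 1)], [(0, 0), (0, 1), (1, 0), (1, 1), (1, 7)], [(0, 0), (0, 1)], [2], [(0, 1, [0,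
      7]), (3, 0, [1]), (4, 0, [1])]⟩,
    ⟨[(0, 2), (1, 2)], [(1, 0), (2, 0), (2, 1), (2, 3)], [(0, 0), (0, 3)], [], [(3, 0,
      [1]), (4, 0, [1]), (6, 3, [])]⟩,
    ⟨[(2, 3)], [(2, 0), (3, 0), (3, 3)], [], [5], [(4, 0, [1])]⟩,
    ⟨[(2, 3), (3, 4)], [(3, 0), (3, 3), (4, 0), (4, 3)], [(3, 3)], [5, 6], [(6, 3, []), (9,
      3, [])]⟩,
    ⟨[(3, 5), (4, 5)], [(5, 3)], [], [2, 6], [(9, 3, [])]⟩]
  Ta := [((3, 2), 0, 7), ((3, 6), 0, 3), ((4, 5), 0, 2), ((4, 7), 0, 5), ((6, 3), 3, 0), ((6, 8),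
    3, 6), ((9, 5), 3, 2), ((9, 7), 3, 5)]
  Tb := [((0, 1, 5), 1, 4, 2), ((1, 0, 2), 4, 1, 7), ((2, 1, 3), 7, 4, 0), ((3, 2, 6), 0, 7, 3),
    ((4, 5, 7), 0, 2, 5), ((5, 0, 4), 2, 1, 0), ((5, 0, 8), 2, 1, 6), ((5, 0, 9), 2, 1, 3),
    ((5, 4, 8), 2, 0, 6), ((5, 4, 9), 2, 0, 3), ((5, 8, 9), 2, 6, 3), ((6, 3, 8), 3, 0, 6),
    ((7, 4, 9), 5, 0, 3), ((8, 5, 6), 6, 2, 3), ((9, 5, 7), 3, 2, 5)]
  Tc := [(1, 0, 7)]
  Td := [((0, 1), (3, 2), 7), ((0, 1), (3, 6), 3), ((0, 1), (4, 5), 2), ((0, 1), (4, 7), 5), ((1,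
    0), (0, 1), 4), ((1, 0), (0, 5), 2), ((1, 7), (0, 1), 4), ((1, 7), (0, 5), 2), ((7, 1),
    (2, 1), 4), ((7, 1), (2, 3), 0)]
  G := [[0, 0x441d1182b28111881d42d2816, 0, 0x11845e928211849e52825,
    0x1111892eb4811818a2eb48c8111892eb4825], [0, 0x1111684ce1a41111184ced281c, 0,
    0x1184de5242118da94486829, 0x11815822eb4811118a2eb48ca261111188d6825], [0,
    0x481d1182b2411181588ad241a, 0x614a18c41a14a18c82c, 0xc28841fc242456441bc282c,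
    0x2221f825a4822817281da481c], [0, 0x1184ce928111484111284ce1a41e, 0xe1e16842e1e1c241c,
    0xd2244819ca42d2241588c682c, 0x21388a8b81f46812b21f8a81fa482c]]

noncomputable def n1652 : Ent := ⟨e1652, noF, [], [], []⟩

def c1652 : PLift (Cov.check n1652.C.D v1652 = true) := ⟨by decide +kernel⟩

def b1652 : PLift (entF (fidx ts) 400 1652 n1652 = true) := ⟨by decide +kernel⟩

theorem g1652 : GoodF (fidx ts) 400 1652 := GoodF.ofV v1652 n1652 c1652.down b1652.down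

/-- 4576474:1363 -/
noncomputable def e1653 : SCfg where
  D := {
    a := 7
    L := 11
    kp := 8
    inn := [(0, 1), (0, 2), (1, 0), (1, 2), (2, 0), (2, 1), (2, 3), (3, 2), (3, 4), (3, 5), (4, 3), (4,
      5), (5, 3), (5, 4), (5, 6), (6, 5)]
    mix := [(0, 0), (0, 1), (1, 1), (1, 2), (1, 3), (2, 0), (2, 3), (2, 4), (2, 5), (3, 3), (3, 4), (3,
      6), (4, 4), (4, 7), (5, 6), (5, 7), (5, 8), (5, 9), (6, 8), (6, 9), (6, 10)]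
    cl := [1, 4, 6, 0, 0, 7, 3, 2, 5, 3, 8]
    chq := [(0, 1), (1, 0), (1, 6), (6, 1)]
    rng := [(0, 1), (0, 5), (1, 0), (1, 2), (2, 1), (2, 3), (3, 2), (3, 6), (4, 5), (4, 7), (5, 0), (5,
      4), (6, 3), (6, 8), (7, 4), (7, 9), (8, 6), (8, 10), (9, 7), (9, 10), (10, 8), (10, 9)]
    lev := [] }
  links := [[1, 2, 7, 8], [2, 0, 8, 9, 10], [7, 0, 1, 10, 3, 11, 12], [11, 2, 10, 13, 5, 4], [11, 3, 5,
    14], [14, 4, 3, 13, 15, 6, 16], [16, 5, 15, 17]]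
  P := {
    a := 7
    N := 18
    nb := [390, 1797, 7307, 11316, 18472, 122968, 229408, 4357, 643, 1282, 8718, 20508, 2180, 33832,
      67632, 139360, 147552, 98368]
    tri := [(0, 1, 2), (0, 1, 8), (0, 2, 7), (0, 7, 8), (1, 2, 10), (1, 8, 9), (1, 9, 10), (2, 3, 10),
      (2, 3, 11), (2, 7, 12), (2, 11, 12), (3, 4, 5), (3, 4, 11), (3, 5, 13), (3, 10, 13), (4, 5,
      14), (4, 11, 14), (5, 6, 15), (5, 6, 16), (5, 13, 15), (5, 14, 16), (6, 15, 17), (6, 16,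
      17)]
    fin := [0, 0, 0, 3, 3, 5, 5, 0, 8, 9, 3, 3, 12, 5, 14, 15, 5, 17]
    chd := [(0, 3), (0, 9)]
    steps := [(0, 1), (0, 2), (0, 7), (3, 4), (3, 10), (3, 11), (5, 6), (5, 13), (5, 16)] }
  rep := [3, 0, 14, 5, 8, 15, 9, 12, 17]

noncomputable def v1653 : Cov.CovD where
  P := 3
  N := 6
  pl := [1, 5, 7, 8, 10]
  lev := [⟨[], [], [], [4], [(0, 1, [0, 6])]⟩,
    ⟨[], [(0, 0), (0, 1), (0, 6)], [(0, 6)], [4], [(2, 6, [1]), (3, 0, [1])]⟩,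
    ⟨[(0, 1)], [(0, 0), (0, 1), (1, 0), (1, 1), (1, 6)], [(0, 0), (0, 1)], [7], [(0, 1, [0,
      6]), (3, 0, [1]), (4, 0, [1])]⟩,
    ⟨[(0, 2), (1, 2)], [(1, 0), (2, 0), (2, 1), (2, 3)], [(0, 0), (0, 3)], [], [(3, 0,
      [1]), (4, 0, [1]), (6, 3, [])]⟩,
    ⟨[(2, 3)], [(2, 0), (3, 0), (3, 3)], [], [2], [(4, 0, [1])]⟩,
    ⟨[(2, 3), (3, 4)], [(3, 0), (3, 3), (4, 0), (4, 3)], [(3, 3)], [2, 5], [(6, 3, []), (9,
      3, [])]⟩,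
    ⟨[(3, 5), (4, 5)], [(5, 3)], [], [5, 8], [(9, 3, [])]⟩]
  Ta := [((3, 2), 0, 6), ((3, 6), 0, 3), ((4, 5), 0, 7), ((4, 7), 0, 2), ((6, 3), 3, 0), ((6, 8),
    3, 5), ((9, 7), 3, 2), ((9, 10), 3, 8)]
  Tb := [((0, 1, 5), 1, 4, 7), ((1, 0, 2), 4, 1, 6), ((2, 1, 3), 6, 4, 0), ((3, 2, 6), 0, 6, 3),
    ((4, 5, 7), 0, 7, 2), ((5, 0, 4), 7, 1, 0), ((6, 3, 8), 3, 0, 5), ((7, 4, 9), 2, 0, 3),
    ((8, 6, 10), 5, 3, 8), ((9, 7, 10), 3, 2, 8), ((10, 8, 9), 8, 5, 3)]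
  Tc := [(1, 0, 6)]
  Td := [((0, 1), (3, 2), 6), ((0, 1), (3, 6), 3), ((0, 1), (4, 5), 7), ((0, 1), (4, 7), 2), ((1,
    0), (0, 1), 4), ((1, 0), (0, 5), 7), ((1, 6), (0, 1), 4), ((1, 6), (0, 5), 7), ((6, 1),
    (2, 1), 4), ((6, 1), (2, 3), 0)]
  G := [[0, 0x8414d98621483d8241483d8281e, 0, 0x31a6c524a93d424ca93d428a9cd428c56cd82563d82c2d,
    0x653c8944217839a38a4c395b24851c8a92168c39ab84395b24c2d], [0,
    0x635a8c241b1842ec1884aa1a6c12b148a1e, 0,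
    0x263d88c24635a8c24c263d88c2831a2c944868c235a894416314a6c1ac2d,
    0x62151c89a451c6a9462151c89acc51c6a9488c59623451623c81ac2d], [0,
    0x483d8221483d428148dd8241e, 0x3ac84da8663c25c68ac12bc25ca8665c28d64ac2c,
    0x6acd4248dd82c1483d82483d82c2c, 0x285b2428bb24c128eb842592d838ac2c], [0,
    0x31a6c524131445a2c1c21263d88c281e, 0x3298a548632546984ac2113e88a448622451698cac1c,
    0x64a39c24263d88c283435a2cc2844a23dc243c,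
    0x28bb262c49ac4653c8a42288a4c362c59a486cfb82432288a442d]]

noncomputable def n1653 : Ent := ⟨e1653, noF, [], [], [(7, 17, [6903326391201334775872065844685381424292761054348340378595029936435201, 0]), (8, 17, [6903326391201334775872065844685381424292761054348340378595029936439297, 0]), (8, 16, [7334685537875745012586738086077695515070955365108989538292687700434945, 0]), (9, 17, [6903326391201334775872065844685381424292761054348340378595029936451585, 0]), (17, 12, [6903326391201342438349770174129673216027896805894258472290640854466561, 0])]⟩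

def c1653 : PLift (Cov.check n1653.C.D v1653 = true) := ⟨by decide +kernel⟩

def b1653 : PLift (entF (fidx ts) 400 1653 n1653 = true) := ⟨by decide +kernel⟩

theorem g1653 : GoodF (fidx ts) 400 1653 := GoodF.ofV v1653 n1653 c1653.down b1653.down

/-- 4576474:1364/2 -/
noncomputable def e1654 : SCfg where
  D := {
    a := 7
    L := 9
    kp := 6
    inn := [(0, 1), (0, 2), (1, 0), (1, 2), (2, 0), (2, 1), (2, 3), (3, 2), (3, 4), (3, 5), (4, 3), (4,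
      5), (5, 3), (5, 4), (5, 6), (6, 5)]
    mix := [(0, 0), (0, 1), (1, 1), (1, 2), (1, 3), (2, 0), (2, 3), (2, 4), (2, 5), (3, 3), (3, 4), (3,
      6), (4, 4), (4, 7), (5, 1), (5, 6), (5, 7), (5, 8), (6, 1), (6, 2), (6, 7)]
    cl := [3, 1, 4, 0, 0, 6, 5, 2, 2]
    chq := [(0, 3), (3, 0), (3, 4), (4, 3)]
    rng := [(0, 1), (0, 5), (1, 0), (1, 2), (1, 8), (2, 1), (2, 3), (2, 7), (3, 2), (3, 6), (4, 5), (4,
      7), (5, 0), (5, 4), (6, 3), (6, 8), (7, 2), (7, 4), (8, 1), (8, 6)]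
    lev := [] }
  links := [[1, 2, 7, 8], [2, 0, 8, 9, 10], [7, 0, 1, 10, 3, 11, 12], [11, 2, 10, 13, 5, 4], [11, 3, 5,
    14], [14, 4, 3, 13, 15, 8, 6], [14, 5, 8, 9]]
  P := {
    a := 7
    N := 16
    nb := [390, 1797, 7307, 11316, 18472, 57688, 17184, 4357, 33507, 17730, 8718, 20508, 2180, 33832,
      2672, 8480]
    tri := [(0, 1, 2), (0, 1, 8), (0, 2, 7), (0, 7, 8), (1, 2, 10), (1, 8, 9), (1, 9, 10), (2, 3, 10),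
      (2, 3, 11), (2, 7, 12), (2, 11, 12), (3, 4, 5), (3, 4, 11), (3, 5, 13), (3, 10, 13), (4, 5,
      14), (4, 11, 14), (5, 6, 8), (5, 6, 14), (5, 8, 15), (5, 13, 15), (6, 8, 9), (6, 9, 14)]
    fin := [0, 0, 0, 3, 3, 5, 6, 0, 6, 9, 3, 3, 12, 13, 5, 5]
    chd := [(0, 3), (0, 9)]
    steps := [(0, 1), (0, 2), (0, 7), (3, 4), (3, 10), (3, 11), (5, 15), (5, 14), (6, 8)] }
  rep := [3, 6, 5, 0, 9, 13, 12]

noncomputable def v1654 : Cov.CovD where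
  P := 3
  N := 4
  pl := [1, 5, 6]
  lev := [⟨[], [], [], [1], [(0, 3, [0, 4])]⟩,
    ⟨[], [(0, 0), (0, 3), (0, 4)], [(0, 4)], [1], [(2, 4, [3]), (3, 0, [3])]⟩,
    ⟨[(0, 1)], [(0, 0), (0, 3), (1, 0), (1, 3), (1, 4)], [(0, 0), (0, 3)], [6], [(0, 3, [0,
      4]), (3, 0, [3]), (4, 0, [3])]⟩,
    ⟨[(0, 2), (1, 2)], [(1, 0), (2, 0), (2, 3)], [(0, 0)], [5], [(3, 0, [3]), (4, 0, [3])]⟩,
    ⟨[(2, 3)], [(2, 0), (3, 0), (3, 2)], [(0, 2)], [], [(4, 0, [3]), (7, 2, [])]⟩,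
    ⟨[(2, 3), (3, 4)], [(3, 0), (3, 2), (4, 0), (4, 2)], [(2, 2)], [1, 5], [(7, 2, []), (8,
      2, [])]⟩,
    ⟨[(3, 5), (4, 5)], [(1, 4), (4, 2), (5, 2), (5, 4)], [(2, 4)], [1], [(2, 4, [3]), (7,
      2, [])]⟩]
  Ta := [((3, 2), 0, 4), ((3, 6), 0, 5), ((4, 5), 0, 6), ((4, 7), 0, 2), ((7, 2), 2, 4), ((7, 4),
    2, 0), ((8, 1), 2, 1), ((8, 6), 2, 5)]
  Tb := [((0, 1, 5), 3, 1, 6), ((1, 0, 2), 1, 3, 4), ((1, 0, 8), 1, 3, 2), ((1, 2, 8), 1, 4, 2),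
    ((2, 1, 3), 4, 1, 0), ((2, 1, 7), 4, 1, 2), ((2, 3, 7), 4, 0, 2), ((3, 2, 6), 0, 4, 5),
    ((4, 5, 7), 0, 6, 2), ((5, 0, 4), 6, 3, 0), ((6, 3, 8), 5, 0, 2), ((7, 2, 4), 2, 4, 0),
    ((8, 1, 6), 2, 1, 5)]
  Tc := [(3, 0, 4)]
  Td := [((0, 3), (3, 2), 4), ((0, 3), (3, 6), 5), ((0, 3), (4, 5), 6), ((0, 3), (4, 7), 2), ((3,
    0), (0, 1), 1), ((3, 0), (0, 5), 6), ((3, 4), (0, 1), 1), ((3, 4), (0, 5), 6), ((4, 3),
    (2, 1), 1), ((4, 3), (2, 3), 0), ((4, 3), (2, 7), 2)]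
  G := [[0, 0x44c1244c824482e488c428488c28488816e8481824e, 0, 0,
    0x189841898418984e11984181112a11924ec1], [0, 0x2412886481248ca2284244a284241c62c, 0,
    0x88c128854261494214542ac1, 0x4124886482412a482418ae41], [0,
    0x44822488c4288c4264cc88c244c82ca44c824848a4e,
    0x848884688288c468428846e48244c26482442a484448aec1, 0, 0x118411841124e111841124689], [0,
    0x24828868224822c8a284248c62284248c24e, 0, 0x11824182a11182118261c,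
    0x1181146418112a182118ce41]]

noncomputable def n1654 : Ent := ⟨e1654, noF, [], [], []⟩

def c1654 : PLift (Cov.check n1654.C.D v1654 = true) := ⟨by decide +kernel⟩

def b1654 : PLift (entF (fidx ts) 400 1654 n1654 = true) := ⟨by decide +kernel⟩

theorem g1654 : GoodF (fidx ts) 400 1654 := GoodF.ofV v1654 n1654 c1654.down b1654.down

/-- 4576474:1364/1 -/
noncomputable def e1655 : SCfg where
  D := {
    a := 7
    L := 10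
    kp := 7
    inn := [(0, 1), (0, 2), (1, 0), (1, 2), (2, 0), (2, 1), (2, 3), (3, 2), (3, 4), (3, 5), (4, 3), (4,
      5), (5, 3), (5, 4), (5, 6), (6, 5)]
    mix := [(0, 0), (0, 1), (1, 1), (1, 2), (1, 3), (2, 0), (2, 3), (2, 4), (2, 5), (3, 3), (3, 4), (3,
      6), (4, 4), (4, 7), (5, 1), (5, 6), (5, 7), (5, 8), (6, 1), (6, 7), (6, 9)]
    cl := [2, 1, 5, 0, 0, 6, 4, 3, 3, 7]
    chq := [(0, 2), (2, 0), (2, 5), (5, 2)]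
    rng := [(0, 1), (0, 5), (1, 0), (1, 2), (1, 8), (1, 9), (2, 1), (2, 3), (3, 2), (3, 6), (4, 5), (4,
      7), (5, 0), (5, 4), (6, 3), (6, 8), (7, 4), (7, 9), (8, 1), (8, 6), (9, 1), (9, 7)]
    lev := [] }
  links := [[1, 2, 7, 8], [2, 0, 8, 9, 10], [7, 0, 1, 10, 3, 11, 12], [11, 2, 10, 13, 5, 4], [11, 3, 5,
    14], [14, 4, 3, 13, 15, 8, 6], [14, 5, 8, 16]]
  P := {
    a := 7
    N := 17
    nb := [390, 1797, 7307, 11316, 18472, 57688, 82208, 4357, 99043, 1282, 8718, 20508, 2180, 33832,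
      67696, 8480, 16704]
    tri := [(0, 1, 2), (0, 1, 8), (0, 2, 7), (0, 7, 8), (1, 2, 10), (1, 8, 9), (1, 9, 10), (2, 3, 10),
      (2, 3, 11), (2, 7, 12), (2, 11, 12), (3, 4, 5), (3, 4, 11), (3, 5, 13), (3, 10, 13), (4, 5,
      14), (4, 11, 14), (5, 6, 8), (5, 6, 14), (5, 8, 15), (5, 13, 15), (6, 8, 16), (6, 14, 16)]
    fin := [0, 0, 0, 3, 3, 5, 6, 0, 6, 9, 3, 3, 12, 13, 5, 5, 16]
    chd := [(0, 3), (0, 9)]
    steps := [(0, 1), (0, 2), (0, 7), (3, 4), (3, 10), (3, 11), (5, 15), (5, 14), (6, 8)] }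
  rep := [3, 6, 0, 5, 13, 9, 12, 16]

noncomputable def v1655 : Cov.CovD where
  P := 3
  N := 5
  pl := [1, 5, 6, 9]
  lev := [⟨[], [], [], [1], [(0, 2, [0, 5])]⟩,
    ⟨[], [(0, 0), (0, 2), (0, 5)], [(0, 5)], [1], [(2, 5, [2]), (3, 0, [2])]⟩,
    ⟨[(0, 1)], [(0, 0), (0, 2), (1, 0), (1, 2), (1, 5)], [(0, 0), (0, 2)], [6], [(0, 2, [0,
      5]), (3, 0, [2]), (4, 0, [2])]⟩,
    ⟨[(0, 2), (1, 2)], [(1, 0), (2, 0), (2, 2)], [(0, 0)], [4], [(3, 0, [2]), (4, 0, [2])]⟩,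
    ⟨[(2, 3)], [(2, 0), (3, 0), (3, 3)], [(0, 3)], [], [(4, 0, [2]), (7, 3, [])]⟩,
    ⟨[(2, 3), (3, 4)], [(3, 0), (3, 3), (4, 0), (4, 3)], [(3, 3)], [1, 4], [(7, 3, []), (8,
      3, [])]⟩,
    ⟨[(3, 5), (4, 5)], [(4, 3), (5, 3)], [], [1, 7], [(7, 3, [])]⟩]
  Ta := [((3, 2), 0, 5), ((3, 6), 0, 4), ((4, 5), 0, 6), ((4, 7), 0, 3), ((7, 4), 3, 0), ((7, 9),
    3, 7), ((8, 1), 3, 1), ((8, 6), 3, 4)]
  Tb := [((0, 1, 5), 2, 1, 6), ((1, 0, 2), 1, 2, 5), ((1, 0, 8), 1, 2, 3), ((1, 0, 9), 1, 2, 7),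
    ((1, 2, 8), 1, 5, 3), ((1, 2, 9), 1, 5, 7), ((1, 8, 9), 1, 3, 7), ((2, 1, 3), 5, 1, 0),
    ((3, 2, 6), 0, 5, 4), ((4, 5, 7), 0, 6, 3), ((5, 0, 4), 6, 2, 0), ((6, 3, 8), 4, 0, 3),
    ((7, 4, 9), 3, 0, 7), ((8, 1, 6), 3, 1, 4), ((9, 1, 7), 7, 1, 3)]
  Tc := [(2, 0, 5)]
  Td := [((0, 2), (3, 2), 5), ((0, 2), (3, 6), 4), ((0, 2), (4, 5), 6), ((0, 2), (4, 7), 3), ((2,
    0), (0, 1), 1), ((2, 0), (0, 5), 6), ((2, 5), (0, 1), 1), ((2, 5), (0, 5), 6), ((5, 2),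
    (2, 1), 1), ((5, 2), (2, 3), 0)]
  G := [[0, 0x82a14426661a2a1cc8e1e666e1c86889ac2c, 0x8151a4d122d128e18,
    0x4191c34d526155d28992cc55529992c915439d92acc1, 0xd12955d26155d29188aca48], [0,
    0x4ac12ca1668c12c61ac28, 0xc12491425128e14, 0x48c1518648c1512ac912885483648c2518acc1,
    0x48c1914648c15186a48], [0, 0x22a8a44222446a2a2ca44c84ece22646c86c4acac2c,
    0xd122d124d128e18, 0x48dd2c45d2648dd28c9d2ac18, 0xcd52cc9d2a459489524488cea41], [0,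
    0x42c846a28a46282e4862468ac28, 0x51829148c124e14, 0xc12912c912914ac14,
    0x5189146c125186a41]]

noncomputable def n1655 : Ent := ⟨e1655, noF, [], [], [(9, 16, [1580044410770988437309982408355971841652082177953823432505695887361, 0])]⟩

def c1655 : PLift (Cov.check n1655.C.D v1655 = true) := ⟨by decide +kernel⟩

def b1655 : PLift (entF (fidx ts) 400 1655 n1655 = true) := ⟨by decide +kernel⟩

theorem g1655 : GoodF (fidx ts) 400 1655 := GoodF.ofV v1655 n1655 c1655.down b1655.down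

/-- 4576474:1364/3 -/
noncomputable def e1656 : SCfg where
  D := {
    a := 7
    L := 10
    kp := 7
    inn := [(0, 1), (0, 2), (1, 0), (1, 2), (2, 0), (2, 1), (2, 3), (3, 2), (3, 4), (3, 5), (4, 3), (4,
      5), (5, 3), (5, 4), (5, 6), (6, 5)]
    mix := [(0, 0), (0, 1), (1, 1), (1, 2), (1, 3), (2, 0), (2, 3), (2, 4), (2, 5), (3, 3), (3, 4), (3,
      6), (4, 4), (4, 7), (5, 6), (5, 7), (5, 8), (5, 9), (6, 1), (6, 7), (6, 9)]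
    cl := [3, 2, 6, 0, 0, 7, 4, 1, 1, 5]
    chq := [(3, 6), (6, 3), (6, 7), (7, 6)]
    rng := [(0, 1), (0, 5), (1, 0), (1, 2), (1, 7), (1, 9), (2, 1), (2, 3), (3, 2), (3, 6), (4, 5), (4,
      7), (5, 0), (5, 4), (6, 3), (6, 8), (7, 1), (7, 4), (8, 6), (8, 9), (9, 1), (9, 8)]
    lev := [] }
  links := [[1, 2, 7, 8], [2, 0, 8, 9, 10], [7, 0, 1, 10, 3, 11, 12], [11, 2, 10, 13, 5, 4], [11, 3, 5,
    14], [14, 4, 3, 13, 15, 16, 6], [14, 5, 16, 8]]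
  P := {
    a := 7
    N := 17
    nb := [390, 1797, 7307, 11316, 18472, 122968, 82208, 4357, 82627, 1282, 8718, 20508, 2180, 33832,
      2416, 73760, 33120]
    tri := [(0, 1, 2), (0, 1, 8), (0, 2, 7), (0, 7, 8), (1, 2, 10), (1, 8, 9), (1, 9, 10), (2, 3, 10),
      (2, 3, 11), (2, 7, 12), (2, 11, 12), (3, 4, 5), (3, 4, 11), (3, 5, 13), (3, 10, 13), (4, 5,
      14), (4, 11, 14), (5, 6, 14), (5, 6, 16), (5, 13, 15), (5, 15, 16), (6, 8, 14), (6, 8, 16)]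
    fin := [0, 1, 1, 3, 3, 5, 6, 0, 6, 1, 3, 3, 12, 13, 5, 5, 16]
    chd := [(0, 1), (1, 12)]
    steps := [(0, 7), (1, 2), (1, 9), (3, 4), (3, 10), (3, 11), (5, 15), (5, 14), (6, 8)] }
  rep := [3, 5, 6, 0, 13, 16, 1, 12]

noncomputable def v1656 : Cov.CovD where
  P := 3
  N := 5
  pl := [1, 6, 9]
  lev := [⟨[], [], [], [2], [(0, 3, [6])]⟩,
    ⟨[], [(0, 0), (0, 3), (0, 6)], [(0, 6)], [2], [(2, 6, [3, 7]), (3, 0, [])]⟩,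
    ⟨[(0, 1)], [(0, 0), (0, 3), (0, 7), (1, 0), (1, 3), (1, 6), (1, 7)], [(0, 0), (0, 3),
      (0, 7), (3, 7)], [], [(0, 3, [6]), (3, 0, []), (4, 0, []), (5, 7, [6])]⟩,
    ⟨[(0, 2), (1, 2)], [(1, 0), (2, 0), (2, 3), (2, 7)], [(0, 0)], [4], [(3, 0, []), (4, 0,
      [])]⟩,
    ⟨[(2, 3)], [(2, 0), (3, 0), (3, 1)], [(0, 1)], [], [(4, 0, []), (7, 1, [])]⟩,
    ⟨[(2, 3), (3, 4)], [(3, 0), (3, 1), (4, 0), (4, 1)], [(1, 1)], [4, 5], [(7, 1, []), (8,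
      1, [])]⟩,
    ⟨[(3, 5), (4, 5)], [(4, 1), (5, 1)], [], [2, 5], [(7, 1, [])]⟩]
  Ta := [((3, 2), 0, 6), ((3, 6), 0, 4), ((4, 5), 0, 7), ((4, 7), 0, 1), ((7, 1), 1, 2), ((7, 4),
    1, 0), ((8, 6), 1, 4), ((8, 9), 1, 5)]
  Tb := [((0, 1, 5), 3, 2, 7), ((1, 0, 2), 2, 3, 6), ((1, 0, 7), 2, 3, 1), ((1, 0, 9), 2, 3, 5),
    ((1, 2, 7), 2, 6, 1), ((1, 2, 9), 2, 6, 5), ((1, 7, 9), 2, 1, 5), ((2, 1, 3), 6, 2, 0),
    ((3, 2, 6), 0, 6, 4), ((4, 5, 7), 0, 7, 1), ((5, 0, 4), 7, 3, 0), ((6, 3, 8), 4, 0, 1),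
    ((7, 1, 4), 1, 2, 0), ((8, 6, 9), 1, 4, 5), ((9, 1, 8), 5, 2, 1)]
  Tc := [(6, 3, 7)]
  Td := [((3, 6), (0, 1), 2), ((3, 6), (0, 5), 7), ((6, 3), (2, 1), 2), ((6, 3), (2, 3), 0), ((6,
    7), (2, 1), 2), ((6, 7), (2, 3), 0), ((7, 6), (5, 0), 3), ((7, 6), (5, 4), 0)]
  G := [[0, 0, 0x8c944528c94452a4c184c524c5889268c, 0x1184c92891d42a441588c21184c9268c,
    0x891d4291588c2c281942891d429414e88194228b], [0, 0,
    0x8ac14294642984184c96c222944858a649481243c68a, 0,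
    0xa258219468192821d46c2243892158a2194a858c68a], [0,
    0x88248ce464468844288a24488cee144888244ce8e4c62c288cc644288c9,
    0x88cd4288cd42a444cd82448c9c268c, 0x441d82481d42a1481d42489,
    0x81588c2881d42c181588c2881d42689], [0, 0, 0x28588494642942854ac222582498624942184aca46,
    0, 0x2158219862254821d4ac12194118244e1128c2158c61a]]

noncomputable def n1656 : Ent := ⟨e1656, noF, [], [], []⟩

def c1656 : PLift (Cov.check n1656.C.D v1656 = true) := ⟨by decide +kernel⟩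

def b1656 : PLift (entF (fidx ts) 400 1656 n1656 = true) := ⟨by decide +kernel⟩

theorem g1656 : GoodF (fidx ts) 400 1656 := GoodF.ofV v1656 n1656 c1656.down b1656.down

/-- 4576474:1364/4 -/
noncomputable def e1657 : SCfg where
  D := {
    a := 7
    L := 10
    kp := 7
    inn := [(0, 1), (0, 2), (1, 0), (1, 2), (2, 0), (2, 1), (2, 3), (3, 2), (3, 4), (3, 5), (4, 3), (4,
      5), (5, 3), (5, 4), (5, 6), (6, 5)]
    mix := [(0, 0), (0, 1), (1, 1), (1, 2), (1, 3), (2, 0), (2, 3), (2, 4), (2, 5), (3, 3), (3, 4), (3,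
      6), (4, 4), (4, 7), (5, 6), (5, 7), (5, 8), (5, 9), (6, 2), (6, 7), (6, 9)]
    cl := [3, 4, 2, 0, 0, 7, 5, 1, 1, 6]
    chq := [(2, 3), (2, 7), (3, 2), (7, 2)]
    rng := [(0, 1), (0, 5), (1, 0), (1, 2), (2, 1), (2, 3), (2, 7), (2, 9), (3, 2), (3, 6), (4, 5), (4,
      7), (5, 0), (5, 4), (6, 3), (6, 8), (7, 2), (7, 4), (8, 6), (8, 9), (9, 2), (9, 8)]
    lev := [] }
  links := [[1, 2, 7, 8], [2, 0, 8, 9, 10], [7, 0, 1, 10, 3, 11, 12], [11, 2, 10, 13, 5, 4], [11, 3, 5,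
    14], [14, 4, 3, 13, 15, 16, 6], [14, 5, 16, 9]]
  P := {
    a := 7
    N := 17
    nb := [390, 1797, 7307, 11316, 18472, 122968, 82464, 4357, 643, 83266, 8718, 20508, 2180, 33832,
      2672, 73760, 33376]
    tri := [(0, 1, 2), (0, 1, 8), (0, 2, 7), (0, 7, 8), (1, 2, 10), (1, 8, 9), (1, 9, 10), (2, 3, 10),
      (2, 3, 11), (2, 7, 12), (2, 11, 12), (3, 4, 5), (3, 4, 11), (3, 5, 13), (3, 10, 13), (4, 5,
      14), (4, 11, 14), (5, 6, 14), (5, 6, 16), (5, 13, 15), (5, 15, 16), (6, 9, 14), (6, 9, 16)]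
    fin := [0, 1, 1, 3, 3, 5, 1, 0, 8, 1, 3, 3, 12, 13, 5, 5, 16]
    chd := [(0, 1), (1, 12)]
    steps := [(0, 7), (1, 2), (1, 9), (1, 6), (3, 4), (3, 10), (3, 11), (5, 15), (5, 14)] }
  rep := [3, 5, 1, 0, 8, 13, 16, 12]

noncomputable def v1657 : Cov.CovD where
  P := 3
  N := 5
  pl := [1, 6, 9]
  lev := [⟨[], [], [], [4], [(0, 3, [2])]⟩,
    ⟨[], [(0, 0), (0, 2), (0, 3)], [(0, 2)], [4], [(2, 2, [3, 7]), (3, 0, [])]⟩,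
    ⟨[(0, 1)], [(0, 0), (0, 3), (0, 7), (1, 0), (1, 2), (1, 3), (1, 7)], [(0, 0), (0, 3),
      (0, 7), (3, 7)], [], [(0, 3, [2]), (3, 0, []), (4, 0, []), (5, 7, [2])]⟩,
    ⟨[(0, 2), (1, 2)], [(1, 0), (2, 0), (2, 3), (2, 7)], [(0, 0)], [5], [(3, 0, []), (4, 0,
      [])]⟩,
    ⟨[(2, 3)], [(2, 0), (3, 0), (3, 1)], [(0, 1)], [], [(4, 0, []), (7, 1, [])]⟩,
    ⟨[(2, 3), (3, 4)], [(3, 0), (3, 1), (4, 0), (4, 1)], [(1, 1)], [5, 6], [(7, 1, []), (8,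
      1, [])]⟩,
    ⟨[(3, 5), (4, 5)], [(1, 2), (4, 1), (5, 1), (5, 2)], [(1, 2)], [6], [(2, 2, [3, 7]),
      (7, 1, [])]⟩]
  Ta := [((3, 2), 0, 2), ((3, 6), 0, 5), ((4, 5), 0, 7), ((4, 7), 0, 1), ((7, 2), 1, 2), ((7, 4),
    1, 0), ((8, 6), 1, 5), ((8, 9), 1, 6)]
  Tb := [((0, 1, 5), 3, 4, 7), ((1, 0, 2), 4, 3, 2), ((2, 1, 3), 2, 4, 0), ((2, 1, 7), 2, 4, 1),
    ((2, 1, 9), 2, 4, 6), ((2, 3, 7), 2, 0, 1), ((2, 3, 9), 2, 0, 6), ((2, 7, 9), 2, 1, 6),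
    ((3, 2, 6), 0, 2, 5), ((4, 5, 7), 0, 7, 1), ((5, 0, 4), 7, 3, 0), ((6, 3, 8), 5, 0, 1),
    ((7, 2, 4), 1, 2, 0), ((8, 6, 9), 1, 5, 6), ((9, 2, 8), 6, 2, 1)]
  Tc := [(2, 3, 7)]
  Td := [((2, 3), (2, 1), 4), ((2, 3), (2, 3), 0), ((2, 3), (2, 7), 1), ((2, 3), (2, 9), 6), ((2,
    7), (2, 1), 4), ((2, 7), (2, 3), 0), ((2, 7), (2, 7), 1), ((2, 7), (2, 9), 6), ((3, 2),
    (0, 1), 4), ((3, 2), (0, 5), 7), ((7, 2), (5, 0), 3), ((7, 2), (5, 4), 0)]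
  G := [[0, 0, 0xc142c142c142ec142c142c142ec1, 0x44558c8411cc2419494819cc2c2,
    0x891d4248891d42421189c52491588924ab], [0, 0,
    0x214c186214c18a214c146e214a18a218a14a2186186ec1, 0,
    0x225883c1a48281118a4822c48154a4241c12158a48152215889a4af], [0,
    0x4c688ca4c284c688ca44488ce242428ac24a44ce288ce2c6844ce2848cacc24f, 0,
    0x41949858c241948158c252, 0x81588c248881d4242881d42481588c24ab], [0, 0, 0, 0,
    0x22942154a48248249461128c8158a24821986e122c48154a42e]]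

noncomputable def n1657 : Ent := ⟨e1657, noF, [], [], [(8, 16, [1580044410770988437309982408355971841652082177953823432505695887361, 0])]⟩

def c1657 : PLift (Cov.check n1657.C.D v1657 = true) := ⟨by decide +kernel⟩

def b1657 : PLift (entF (fidx ts) 400 1657 n1657 = true) := ⟨by decide +kernel⟩

theorem g1657 : GoodF (fidx ts) 400 1657 := GoodF.ofV v1657 n1657 c1657.down b1657.down

/-- 4576474:1364/5 -/
noncomputable def e1658 : SCfg where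
  D := {
    a := 7
    L := 10
    kp := 7
    inn := [(0, 1), (0, 2), (1, 0), (1, 2), (2, 0), (2, 1), (2, 3), (3, 2), (3, 4), (3, 5), (4, 3), (4,
      5), (5, 3), (5, 4), (5, 6), (6, 5)]
    mix := [(0, 0), (0, 1), (1, 1), (1, 2), (1, 3), (2, 0), (2, 3), (2, 4), (2, 5), (3, 3), (3, 4), (3,
      6), (4, 4), (4, 7), (5, 6), (5, 7), (5, 8), (5, 9), (6, 5), (6, 7), (6, 9)]
    cl := [0, 5, 7, 0, 1, 2, 4, 3, 3, 6]
    chq := [(1, 4), (2, 4), (4, 1), (4, 2)]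
    rng := [(0, 1), (0, 5), (1, 0), (1, 2), (2, 1), (2, 3), (3, 2), (3, 6), (4, 5), (4, 7), (5, 0), (5,
      4), (5, 7), (5, 9), (6, 3), (6, 8), (7, 4), (7, 5), (8, 6), (8, 9), (9, 5), (9, 8)]
    lev := [] }
  links := [[1, 2, 7, 8], [2, 0, 8, 9, 10], [7, 0, 1, 10, 3, 11, 12], [11, 2, 10, 13, 5, 4], [11, 3, 5,
    14], [14, 4, 3, 13, 15, 16, 6], [14, 5, 16, 12]]
  P := {
    a := 7
    N := 17
    nb := [390, 1797, 7307, 11316, 18472, 122968, 86048, 4357, 643, 1282, 8718, 20508, 84164, 33832,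
      6256, 73760, 36960]
    tri := [(0, 1, 2), (0, 1, 8), (0, 2, 7), (0, 7, 8), (1, 2, 10), (1, 8, 9), (1, 9, 10), (2, 3, 10),
      (2, 3, 11), (2, 7, 12), (2, 11, 12), (3, 4, 5), (3, 4, 11), (3, 5, 13), (3, 10, 13), (4, 5,
      14), (4, 11, 14), (5, 6, 14), (5, 6, 16), (5, 13, 15), (5, 15, 16), (6, 12, 14), (6, 12,
      16)]
    fin := [0, 0, 2, 2, 2, 5, 5, 0, 8, 9, 0, 11, 12, 2, 5, 5, 16]
    chd := [(11, 2), (12, 2)]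
    steps := [(0, 1), (0, 7), (0, 10), (2, 3), (2, 4), (2, 13), (5, 6), (5, 15), (5, 14)] }
  rep := [0, 11, 12, 5, 2, 8, 16, 9]

noncomputable def v1658 : Cov.CovD where
  P := 3
  N := 5
  pl := [1, 2, 9]
  lev := [⟨[], [], [], [5], [(0, 0, [])]⟩,
    ⟨[], [(0, 0)], [], [5, 7], [(3, 0, [])]⟩,
    ⟨[(0, 1)], [(0, 0), (0, 1), (0, 2), (1, 0), (1, 1), (1, 2)], [(0, 0), (0, 1), (0, 2),
      (1, 2)], [], [(0, 0, []), (3, 0, []), (4, 1, [4]), (5, 2, [4])]⟩,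
    ⟨[(0, 2), (1, 2)], [(1, 0), (2, 0), (2, 1), (2, 2), (2, 4)], [(0, 1), (0, 4), (1, 4)],
      [], [(3, 0, []), (4, 1, [4]), (6, 4, [1, 2])]⟩,
    ⟨[(2, 3)], [(2, 1), (3, 0), (3, 1), (3, 3), (3, 4)], [(1, 3)], [], [(4, 1, [4]), (7, 3,
      [])]⟩,
    ⟨[(2, 3), (3, 4)], [(3, 0), (3, 1), (3, 3), (3, 4), (4, 1), (4, 3), (4, 4)], [(3, 3),
      (3, 4)], [6], [(6, 4, [1, 2]), (7, 3, []), (8, 3, [])]⟩,
    ⟨[(3, 5), (4, 5)], [(2, 2), (4, 3), (5, 2), (5, 3), (5, 4)], [(2, 3)], [6], [(5, 2,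
      [4]), (7, 3, [])]⟩]
  Ta := [((0, 1), 0, 5), ((0, 5), 0, 2), ((3, 2), 0, 7), ((3, 6), 0, 4), ((7, 4), 3, 1), ((7, 5),
    3, 2), ((8, 6), 3, 4), ((8, 9), 3, 6)]
  Tb := [((0, 1, 5), 0, 5, 2), ((1, 0, 2), 5, 0, 7), ((2, 1, 3), 7, 5, 0), ((3, 2, 6), 0, 7, 4),
    ((4, 5, 7), 1, 2, 3), ((5, 0, 4), 2, 0, 1), ((5, 0, 7), 2, 0, 3), ((5, 0, 9), 2, 0, 6),
    ((5, 4, 7), 2, 1, 3), ((5, 4, 9), 2, 1, 6), ((5, 7, 9), 2, 3, 6), ((6, 3, 8), 4, 0, 3),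
    ((7, 4, 5), 3, 1, 2), ((8, 6, 9), 3, 4, 6), ((9, 5, 8), 6, 2, 3)]
  Tc := [(4, 1, 2)]
  Td := [((1, 4), (4, 5), 2), ((1, 4), (4, 7), 3), ((2, 4), (5, 0), 0), ((2, 4), (5, 4), 1), ((2,
    4), (5, 7), 3), ((2, 4), (5, 9), 6), ((4, 1), (6, 3), 0), ((4, 1), (6, 8), 3), ((4, 2),
    (6, 3), 0), ((4, 2), (6, 8), 3)]
  G := [[0, 0x2481f8241fc24841348c178884e8481388a41f4642e, 0xe11e11c41e114e148c1c,
    0x9252c1489252c1849252c142e, 0x4821f821d443b48111245118a868d848134198b3e4582e], [0,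
    0x8244138a484441f82412281f4242e, 0xa11a11c41c11a11c81c, 0x528148528184924182e,
    0x52884d948131681843168182e], [0, 0x6481f2417c244242481f819ca42481f8241fc28e1, 0,
    0xc2125d28c42d24c2129c4d24c2925c8c3, 0x7a21f33479483414aa1f81a9c814158a1f2432bc8e1], [0,
    0x8281f4282881f424428813468e1, 0, 0xc21c21c4c21528c8924c21c4e1,
    0x4331f8488a28f1488413168c8e1]]

noncomputable def n1658 : Ent := ⟨e1658, noF, [], [], []⟩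

def c1658 : PLift (Cov.check n1658.C.D v1658 = true) := ⟨by decide +kernel⟩

def b1658 : PLift (entF (fidx ts) 400 1658 n1658 = true) := ⟨by decide +kernel⟩

theorem g1658 : GoodF (fidx ts) 400 1658 := GoodF.ofV v1658 n1658 c1658.down b1658.down

/-- 4576474:1364 -/
noncomputable def e1659 : SCfg where
  D := {
    a := 7
    L := 11
    kp := 8
    inn := [(0, 1), (0, 2), (1, 0), (1, 2), (2, 0), (2, 1), (2, 3), (3, 2), (3, 4), (3, 5), (4, 3), (4,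
      5), (5, 3), (5, 4), (5, 6), (6, 5)]
    mix := [(0, 0), (0, 1), (1, 1), (1, 2), (1, 3), (2, 0), (2, 3), (2, 4), (2, 5), (3, 3), (3, 4), (3,
      6), (4, 4), (4, 7), (5, 6), (5, 7), (5, 8), (5, 9), (6, 7), (6, 9), (6, 10)]
    cl := [4, 1, 6, 0, 0, 7, 2, 3, 3, 5, 8]
    chq := [(4, 6), (6, 4), (6, 7), (7, 6)]
    rng := [(0, 1), (0, 5), (1, 0), (1, 2), (2, 1), (2, 3), (3, 2), (3, 6), (4, 5), (4, 7), (5, 0), (5,
      4), (6, 3), (6, 8), (7, 4), (7, 10), (8, 6), (8, 9), (9, 8), (9, 10), (10, 7), (10, 9)]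
    lev := [] }
  links := [[1, 2, 7, 8], [2, 0, 8, 9, 10], [7, 0, 1, 10, 3, 11, 12], [11, 2, 10, 13, 5, 4], [11, 3, 5,
    14], [14, 4, 3, 13, 15, 16, 6], [14, 5, 16, 17]]
  P := {
    a := 7
    N := 18
    nb := [390, 1797, 7307, 11316, 18472, 122968, 213024, 4357, 643, 1282, 8718, 20508, 2180, 33832,
      133232, 73760, 163936, 81984]
    tri := [(0, 1, 2), (0, 1, 8), (0, 2, 7), (0, 7, 8), (1, 2, 10), (1, 8, 9), (1, 9, 10), (2, 3, 10),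
      (2, 3, 11), (2, 7, 12), (2, 11, 12), (3, 4, 5), (3, 4, 11), (3, 5, 13), (3, 10, 13), (4, 5,
      14), (4, 11, 14), (5, 6, 14), (5, 6, 16), (5, 13, 15), (5, 15, 16), (6, 14, 17), (6, 16,
      17)]
    fin := [0, 1, 1, 3, 3, 5, 5, 0, 8, 1, 3, 3, 12, 13, 5, 5, 16, 17]
    chd := [(0, 1), (1, 12)]
    steps := [(0, 7), (1, 2), (1, 9), (3, 4), (3, 10), (3, 11), (5, 6), (5, 15), (5, 14)] }
  rep := [3, 8, 13, 5, 0, 16, 1, 12, 17]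

noncomputable def v1659 : Cov.CovD where
  P := 3
  N := 6
  pl := [1, 6, 9, 10]
  lev := [⟨[], [], [], [1], [(0, 4, [6])]⟩,
    ⟨[], [(0, 0), (0, 4), (0, 6)], [(0, 6)], [1], [(2, 6, [4, 7]), (3, 0, [])]⟩,
    ⟨[(0, 1)], [(0, 0), (0, 4), (0, 7), (1, 0), (1, 4), (1, 6), (1, 7)], [(0, 0), (0, 4),
      (0, 7), (4, 7)], [], [(0, 4, [6]), (3, 0, []), (4, 0, []), (5, 7, [6])]⟩,
    ⟨[(0, 2), (1, 2)], [(1, 0), (2, 0), (2, 4), (2, 7)], [(0, 0)], [2], [(3, 0, []), (4, 0,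
      [])]⟩,
    ⟨[(2, 3)], [(2, 0), (3, 0), (3, 3)], [(0, 3)], [], [(4, 0, []), (7, 3, [])]⟩,
    ⟨[(2, 3), (3, 4)], [(3, 0), (3, 3), (4, 0), (4, 3)], [(3, 3)], [2, 5], [(7, 3, []), (8,
      3, [])]⟩,
    ⟨[(3, 5), (4, 5)], [(4, 3), (5, 3)], [], [5, 8], [(7, 3, [])]⟩]
  Ta := [((3, 2), 0, 6), ((3, 6), 0, 2), ((4, 5), 0, 7), ((4, 7), 0, 3), ((7, 4), 3, 0), ((7,
    10), 3, 8), ((8, 6), 3, 2), ((8, 9), 3, 5)]
  Tb := [((0, 1, 5), 4, 1, 7), ((1, 0, 2), 1, 4, 6), ((2, 1, 3), 6, 1, 0), ((3, 2, 6), 0, 6, 2),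
    ((4, 5, 7), 0, 7, 3), ((5, 0, 4), 7, 4, 0), ((6, 3, 8), 2, 0, 3), ((7, 4, 10), 3, 0, 8),
    ((8, 6, 9), 3, 2, 5), ((9, 8, 10), 5, 3, 8), ((10, 7, 9), 8, 3, 5)]
  Tc := [(6, 4, 7)]
  Td := [((4, 6), (0, 1), 1), ((4, 6), (0, 5), 7), ((6, 4), (2, 1), 1), ((6, 4), (2, 3), 0), ((6,
    7), (2, 1), 1), ((6, 7), (2, 3), 0), ((7, 6), (5, 0), 4), ((7, 6), (5, 4), 0)]
  G := [[0x913e1441632195c16c232195c16153e1881c68a,
    0x44282a23d246352a81cc6441884239643882c6352a81c644188ae,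
    0x93a1541632195c16a432195c1a441913e1c68c,
    0x235a83444184418e48824263d288814e88824444286352a81cacd,
    0xc45b428451625c81a2218622488c624c594a222188cd], [0x23698ca415ce2882cc2653e189a3e1468a,
    0x48dd248354858c23146c583148c5868a, 0x95ce12846ace12489ca1548628d,
    0x48dd24843148c5848316ac3824d, 0x259829284288536848824a794a24d], [0,
    0xa23d246352a82cc2442884263d2882c442a23d2c644288ce, 0,
    0xa392488246428e1263d28418824642a392c664288cd,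
    0x624c594a24624c594a624c594a61624c594a84d], [0, 0x48dd248448dd284248dd2824e, 0,
    0x48dd2443984a4a448dd28835486861c, 0xa87b4228bb48a15128ac28242598a61c]]

noncomputable def n1659 : Ent := ⟨e1659, noF, [], [], [(8, 16, [7334685537875745012586738086077695515070955365108989538292687700455425, 0]), (8, 17, [6903326391201334775872065844685381424292761054348340378595029936472065, 0]), (9, 17, [6903326391201334775872065844685381424292761054348340378595029936476161, 0]), (17, 12, [6903326391201342438349770174129673216027896805894258472290640854491137, 0])]⟩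

def c1659 : PLift (Cov.check n1659.C.D v1659 = true) := ⟨by decide +kernel⟩

def b1659 : PLift (entF (fidx ts) 400 1659 n1659 = true) := ⟨by decide +kernel⟩

theorem g1659 : GoodF (fidx ts) 400 1659 := GoodF.ofV v1659 n1659 c1659.down b1659.down

/-- 4577456:1373/2 -/
noncomputable def e1660 : SCfg where
  D := {
    a := 7
    L := 9
    kp := 6
    inn := [(0, 1), (0, 2), (1, 0), (1, 2), (2, 0), (2, 1), (2, 3), (3, 2), (3, 4), (3, 5), (3, 6), (4,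
      3), (4, 5), (5, 3), (5, 4), (5, 6), (6, 3), (6, 5)]
    mix := [(0, 0), (0, 1), (1, 1), (1, 2), (1, 3), (2, 0), (2, 3), (2, 4), (2, 5), (3, 3), (3, 4), (3,
      6), (4, 2), (4, 3), (5, 1), (5, 2), (6, 1), (6, 6), (6, 7), (6, 8)]
    cl := [3, 0, 2, 1, 1, 4, 0, 5, 6]
    chq := [(1, 3), (2, 3), (3, 1), (3, 2)]
    rng := [(0, 1), (0, 5), (1, 0), (1, 2), (1, 7), (2, 1), (2, 3), (3, 2), (4, 5), (4, 6), (5, 0), (5,
      4), (6, 4), (6, 8), (7, 1), (7, 8), (8, 6), (8, 7)]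
    lev := [] }
  links := [[1, 2, 7, 8], [2, 0, 8, 9, 10], [7, 0, 1, 10, 3, 11, 12], [11, 2, 10, 4, 5, 6, 13], [5, 3,
    10, 9], [6, 3, 4, 9, 8], [13, 3, 5, 8, 14, 15]]
  P := {
    a := 7
    N := 16
    nb := [390, 1797, 7307, 11380, 1576, 856, 57640, 4357, 17123, 1330, 542, 12300, 2180, 34888,
      33088, 24640]
    tri := [(0, 1, 2), (0, 1, 8), (0, 2, 7), (0, 7, 8), (1, 2, 10), (1, 8, 9), (1, 9, 10), (2, 3, 10),
      (2, 3, 11), (2, 7, 12), (2, 11, 12), (3, 4, 5), (3, 4, 10), (3, 5, 6), (3, 6, 13), (3, 11,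
      13), (4, 5, 9), (4, 9, 10), (5, 6, 8), (5, 8, 9), (6, 8, 14), (6, 13, 15), (6, 14, 15)]
    fin := [0, 0, 0, 3, 4, 4, 4, 0, 4, 9, 3, 3, 12, 4, 14, 15]
    chd := [(0, 3), (0, 9)]
    steps := [(0, 1), (0, 2), (0, 7), (3, 10), (3, 11), (4, 5), (4, 6), (4, 8), (4, 13)] }
  rep := [4, 3, 9, 0, 12, 14, 15]

noncomputable def v1660 : Cov.CovD where
  P := 3
  N := 4
  pl := [5, 7, 8]
  lev := [⟨[], [], [(0, 3)], [], [(0, 3, [1, 2]), (1, 0, [])]⟩,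
    ⟨[], [(0, 0), (0, 1), (0, 2), (0, 3)], [(0, 1), (0, 2), (1, 2)], [], [(1, 0, []), (2,
      2, [3]), (3, 1, [3])]⟩,
    ⟨[(0, 1)], [(0, 0), (0, 1), (0, 3), (1, 0), (1, 1), (1, 2), (1, 3)], [(1, 1), (1, 3)],
      [4], [(0, 3, [1, 2]), (3, 1, [3]), (4, 1, [3])]⟩,
    ⟨[(0, 2), (1, 2)], [(1, 1), (2, 0), (2, 1), (2, 3)], [(0, 1), (1, 1)], [], [(3, 1,
      [3]), (4, 1, [3]), (6, 0, [])]⟩,
    ⟨[(2, 3)], [(1, 1), (1, 2), (2, 1), (3, 0), (3, 1), (3, 2)], [(1, 2)], [], [(2, 2,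
      [3]), (3, 1, [3])]⟩,
    ⟨[(2, 3), (3, 4)], [(0, 0), (1, 0), (1, 2), (3, 0), (3, 1), (3, 2), (4, 0), (4, 1), (4,
      2)], [(0, 2)], [], [(1, 0, []), (2, 2, [3])]⟩,
    ⟨[(2, 3), (3, 4), (3, 5), (4, 5)], [(0, 0), (1, 0), (3, 0), (3, 1), (5, 0), (5, 2)],
      [(0, 0)], [5, 6], [(1, 0, []), (6, 0, [])]⟩]
  Ta := [((1, 0), 0, 3), ((1, 2), 0, 2), ((1, 7), 0, 5), ((3, 2), 1, 2), ((4, 5), 1, 4), ((4, 6),
    1, 0), ((6, 4), 0, 1), ((6, 8), 0, 6)]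
  Tb := [((0, 1, 5), 3, 0, 4), ((1, 0, 2), 0, 3, 2), ((1, 0, 7), 0, 3, 5), ((1, 2, 7), 0, 2, 5),
    ((2, 1, 3), 2, 0, 1), ((4, 5, 6), 1, 4, 0), ((5, 0, 4), 4, 3, 1), ((6, 4, 8), 0, 1, 6),
    ((7, 1, 8), 5, 0, 6), ((8, 6, 7), 6, 0, 5)]
  Tc := [(3, 1, 2)]
  Td := [((1, 3), (3, 2), 2), ((1, 3), (4, 5), 4), ((1, 3), (4, 6), 0), ((2, 3), (2, 1), 0), ((2,
    3), (2, 3), 1), ((3, 1), (0, 1), 0), ((3, 1), (0, 5), 4), ((3, 2), (0, 1), 0), ((3, 2),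
    (0, 5), 4)]
  G := [[0, 0, 0x2ca846484c8e248d82, 0x68c84e48168c18d42, 0xe281e218e218d82], [0, 0,
    0xe841e428a24864d82, 0, 0xe814e281e284d24], [0, 0, 0, 0xe814e1484ac84d42,
    0xe21868a84582], [0, 0x4ac84e812e418e81, 0, 0, 0x68a18e184582]]

noncomputable def n1660 : Ent := ⟨e1660, noF, [], [], []⟩

def c1660 : PLift (Cov.check n1660.C.D v1660 = true) := ⟨by decide +kernel⟩

def b1660 : PLift (entF (fidx ts) 400 1660 n1660 = true) := ⟨by decide +kernel⟩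

theorem g1660 : GoodF (fidx ts) 400 1660 := GoodF.ofV v1660 n1660 c1660.down b1660.down

/-- 4577456:1373/1 -/
noncomputable def e1661 : SCfg where
  D := {
    a := 7
    L := 10
    kp := 7
    inn := [(0, 1), (0, 2), (1, 0), (1, 2), (2, 0), (2, 1), (2, 3), (3, 2), (3, 4), (3, 5), (3, 6), (4,
      3), (4, 5), (5, 3), (5, 4), (5, 6), (6, 3), (6, 5)]
    mix := [(0, 0), (0, 1), (1, 1), (1, 2), (1, 3), (2, 0), (2, 3), (2, 4), (2, 5), (3, 3), (3, 4), (3,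
      6), (4, 3), (4, 7), (5, 1), (5, 7), (6, 1), (6, 6), (6, 8), (6, 9)]
    cl := [3, 0, 2, 1, 1, 5, 0, 4, 6, 7]
    chq := [(1, 3), (2, 3), (3, 1), (3, 2)]
    rng := [(0, 1), (0, 5), (1, 0), (1, 2), (1, 7), (1, 8), (2, 1), (2, 3), (3, 2), (3, 7), (4, 5), (4,
      6), (5, 0), (5, 4), (6, 4), (6, 9), (7, 1), (7, 3), (8, 1), (8, 9), (9, 6), (9, 8)]
    lev := [] }
  links := [[1, 2, 7, 8], [2, 0, 8, 9, 10], [7, 0, 1, 10, 3, 11, 12], [11, 2, 10, 4, 5, 6, 13], [5, 3,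
    10, 14], [6, 3, 4, 14, 8], [13, 3, 5, 8, 15, 16]]
  P := {
    a := 7
    N := 17
    nb := [390, 1797, 7307, 11380, 17448, 16728, 106792, 4357, 49891, 1282, 16926, 12300, 2180, 67656,
      1328, 65856, 41024]
    tri := [(0, 1, 2), (0, 1, 8), (0, 2, 7), (0, 7, 8), (1, 2, 10), (1, 8, 9), (1, 9, 10), (2, 3, 10),
      (2, 3, 11), (2, 7, 12), (2, 11, 12), (3, 4, 5), (3, 4, 10), (3, 5, 6), (3, 6, 13), (3, 11,
      13), (4, 5, 14), (4, 10, 14), (5, 6, 8), (5, 8, 14), (6, 8, 15), (6, 13, 16), (6, 15, 16)]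
    fin := [0, 0, 0, 3, 4, 4, 4, 0, 4, 9, 3, 3, 12, 4, 14, 15, 16]
    chd := [(0, 3), (0, 9)]
    steps := [(0, 1), (0, 2), (0, 7), (3, 10), (3, 11), (4, 5), (4, 6), (4, 8), (4, 13)] }
  rep := [4, 3, 9, 0, 14, 12, 15, 16]

noncomputable def v1661 : Cov.CovD where
  P := 3
  N := 5
  pl := [5, 7, 8, 9]
  lev := [⟨[], [], [(0, 3)], [], [(0, 3, [1, 2]), (1, 0, [])]⟩,
    ⟨[], [(0, 0), (0, 1), (0, 2), (0, 3)], [(0, 1), (0, 2), (1, 2)], [], [(1, 0, []), (2,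
      2, [3]), (3, 1, [3])]⟩,
    ⟨[(0, 1)], [(0, 0), (0, 1), (0, 3), (1, 0), (1, 1), (1, 2), (1, 3)], [(1, 1), (1, 3)],
      [5], [(0, 3, [1, 2]), (3, 1, [3]), (4, 1, [3])]⟩,
    ⟨[(0, 2), (1, 2)], [(1, 1), (2, 0), (2, 1), (2, 3)], [(0, 1), (1, 1)], [], [(3, 1,
      [3]), (4, 1, [3]), (6, 0, [])]⟩,
    ⟨[(2, 3)], [(1, 1), (2, 1), (3, 0), (3, 1)], [], [4], [(3, 1, [3])]⟩,
    ⟨[(2, 3), (3, 4)], [(0, 0), (1, 0), (3, 0), (3, 1), (4, 0), (4, 1)], [], [4], [(1, 0,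
      [])]⟩,
    ⟨[(2, 3), (3, 4), (3, 5), (4, 5)], [(0, 0), (1, 0), (3, 0), (3, 1), (5, 0)], [(0, 0)],
      [6, 7], [(1, 0, []), (6, 0, [])]⟩]
  Ta := [((1, 0), 0, 3), ((1, 2), 0, 2), ((1, 7), 0, 4), ((1, 8), 0, 6), ((3, 2), 1, 2), ((3, 7),
    1, 4), ((4, 5), 1, 5), ((4, 6), 1, 0), ((6, 4), 0, 1), ((6, 9), 0, 7)]
  Tb := [((0, 1, 5), 3, 0, 5), ((1, 0, 2), 0, 3, 2), ((1, 0, 7), 0, 3, 4), ((1, 0, 8), 0, 3, 6),
    ((1, 2, 7), 0, 2, 4), ((1, 2, 8), 0, 2, 6), ((1, 7, 8), 0, 4, 6), ((2, 1, 3), 2, 0, 1),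
    ((3, 2, 7), 1, 2, 4), ((4, 5, 6), 1, 5, 0), ((5, 0, 4), 5, 3, 1), ((6, 4, 9), 0, 1, 7),
    ((7, 1, 3), 4, 0, 1), ((8, 1, 9), 6, 0, 7), ((9, 6, 8), 7, 0, 6)]
  Tc := [(3, 1, 2)]
  Td := [((1, 3), (3, 2), 2), ((1, 3), (3, 7), 4), ((1, 3), (4, 5), 5), ((1, 3), (4, 6), 0), ((2,
    3), (2, 1), 0), ((2, 3), (2, 3), 1), ((3, 1), (0, 1), 0), ((3, 1), (0, 5), 5), ((3, 2),
    (0, 1), 0), ((3, 2), (0, 5), 5)]
  G := [[0, 0, 0xca6e142ece1868ee18d42, 0xe2e294e2e258e2e258d82, 0xeea1468aa46c168c22c2d4d82],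
    [0, 0, 0xe214e218e218d82, 0, 0xe21468ce25862e482b8d82], [0, 0, 0, 0xe214e218e214d82,
    0x68ee184aee14582], [0, 0xeea14eec12c26ac38e41, 0, 0, 0xe128e214582]]

noncomputable def n1661 : Ent := ⟨e1661, noF, [], [], [(9, 14, [1685382413448253767852309107433119732572617628602273068445371711489, 0])]⟩

def c1661 : PLift (Cov.check n1661.C.D v1661 = true) := ⟨by decide +kernel⟩

def b1661 : PLift (entF (fidx ts) 400 1661 n1661 = true) := ⟨by decide +kernel⟩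

theorem g1661 : GoodF (fidx ts) 400 1661 := GoodF.ofV v1661 n1661 c1661.down b1661.down

/-- 4577456:1373/4 -/
noncomputable def e1662 : SCfg where
  D := {
    a := 7
    L := 9
    kp := 6
    inn := [(0, 1), (0, 2), (1, 0), (1, 2), (2, 0), (2, 1), (2, 3), (3, 2), (3, 4), (3, 5), (3, 6), (4,
      3), (4, 5), (5, 3), (5, 4), (5, 6), (6, 3), (6, 5)]
    mix := [(0, 0), (0, 1), (1, 1), (1, 2), (1, 3), (2, 0), (2, 3), (2, 4), (2, 5), (3, 3), (3, 4), (3,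
      6), (4, 2), (4, 3), (5, 2), (5, 7), (6, 1), (6, 6), (6, 7), (6, 8)]
    cl := [4, 2, 1, 0, 0, 5, 3, 3, 6]
    chq := [(0, 4), (1, 4), (4, 0), (4, 1)]
    rng := [(0, 1), (0, 5), (1, 0), (1, 2), (1, 7), (1, 8), (2, 1), (2, 3), (2, 7), (3, 2), (4, 5), (4,
      6), (5, 0), (5, 4), (6, 4), (6, 8), (7, 1), (7, 2), (8, 1), (8, 6)]
    lev := [] }
  links := [[1, 2, 7, 8], [2, 0, 8, 9, 10], [7, 0, 1, 10, 3, 11, 12], [11, 2, 10, 4, 5, 6, 13], [5, 3,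
    10, 9], [6, 3, 4, 9, 14], [13, 3, 5, 14, 8, 15]]
  P := {
    a := 7
    N := 16
    nb := [390, 1797, 7307, 11380, 1576, 16984, 57640, 4357, 49859, 17714, 542, 12300, 2180, 34888,
      864, 8512]
    tri := [(0, 1, 2), (0, 1, 8), (0, 2, 7), (0, 7, 8), (1, 2, 10), (1, 8, 9), (1, 9, 10), (2, 3, 10),
      (2, 3, 11), (2, 7, 12), (2, 11, 12), (3, 4, 5), (3, 4, 10), (3, 5, 6), (3, 6, 13), (3, 11,
      13), (4, 5, 9), (4, 9, 10), (5, 6, 14), (5, 9, 14), (6, 8, 14), (6, 8, 15), (6, 13, 15)]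
    fin := [0, 0, 2, 3, 3, 3, 6, 0, 8, 3, 2, 2, 12, 6, 6, 15]
    chd := [(0, 2), (0, 3)]
    steps := [(0, 1), (0, 7), (2, 10), (2, 11), (3, 4), (3, 5), (3, 9), (6, 14), (6, 13)] }
  rep := [2, 3, 8, 6, 0, 12, 15]

noncomputable def v1662 : Cov.CovD where
  P := 3
  N := 4
  pl := [1, 5, 8]
  lev := [⟨[], [], [], [2], [(0, 4, [0, 1])]⟩,
    ⟨[], [(0, 0), (0, 1), (0, 4)], [(0, 1)], [2], [(2, 1, [4]), (3, 0, [4])]⟩,
    ⟨[(0, 1)], [(0, 0), (0, 4), (1, 0), (1, 1), (1, 4)], [(0, 0), (0, 4)], [5], [(0, 4, [0,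
      1]), (3, 0, [4]), (4, 0, [4])]⟩,
    ⟨[(0, 2), (1, 2)], [(1, 0), (2, 0), (2, 3), (2, 4)], [(0, 0), (0, 3)], [], [(3, 0,
      [4]), (4, 0, [4]), (6, 3, [])]⟩,
    ⟨[(2, 3)], [(1, 0), (1, 1), (2, 0), (3, 0), (3, 1), (3, 3)], [(0, 1)], [], [(2, 1,
      [4]), (3, 0, [4])]⟩,
    ⟨[(2, 3), (3, 4)], [(1, 1), (3, 0), (3, 1), (3, 3), (4, 0), (4, 1), (4, 3)], [(1, 3)],
      [], [(2, 1, [4]), (7, 3, [])]⟩,
    ⟨[(2, 3), (3, 4), (3, 5), (4, 5)], [(3, 0), (3, 3), (5, 1), (5, 3)], [(3, 3)], [2, 6],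
      [(6, 3, []), (7, 3, [])]⟩]
  Ta := [((3, 2), 0, 1), ((4, 5), 0, 5), ((4, 6), 0, 3), ((6, 4), 3, 0), ((6, 8), 3, 6), ((7, 1),
    3, 2), ((7, 2), 3, 1)]
  Tb := [((0, 1, 5), 4, 2, 5), ((1, 0, 2), 2, 4, 1), ((1, 0, 7), 2, 4, 3), ((1, 0, 8), 2, 4, 6),
    ((1, 2, 7), 2, 1, 3), ((1, 2, 8), 2, 1, 6), ((1, 7, 8), 2, 3, 6), ((2, 1, 3), 1, 2, 0),
    ((2, 1, 7), 1, 2, 3), ((2, 3, 7), 1, 0, 3), ((4, 5, 6), 0, 5, 3), ((5, 0, 4), 5, 4, 0),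
    ((6, 4, 8), 3, 0, 6), ((7, 1, 2), 3, 2, 1), ((8, 1, 6), 6, 2, 3)]
  Tc := [(4, 0, 1)]
  Td := [((0, 4), (3, 2), 1), ((0, 4), (4, 5), 5), ((0, 4), (4, 6), 3), ((1, 4), (2, 1), 2), ((1,
    4), (2, 3), 0), ((1, 4), (2, 7), 3), ((4, 0), (0, 1), 2), ((4, 0), (0, 5), 5), ((4, 1),
    (0, 1), 2), ((4, 1), (0, 5), 5)]
  G := [[0, 0xd482d482d842e41, 0xe842e482a14618ce82, 0xd182d142d142e41, 0x384438423184e81], [0,
    0x95a4292c46895a24e81, 0xe142e148e184e82, 0xd184d148d148e41, 0xb142b182b148e82], [0, 0,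
    0xe182e482a14681ce42, 0xd142d812d142e81, 0xb142b142b184e82], [0, 0, 0xe184e142e148e42,
    0xd184d142d148e81, 0xb184b182b148e81]]

noncomputable def n1662 : Ent := ⟨e1662, noF, [], [], []⟩

def c1662 : PLift (Cov.check n1662.C.D v1662 = true) := ⟨by decide +kernel⟩

def b1662 : PLift (entF (fidx ts) 400 1662 n1662 = true) := ⟨by decide +kernel⟩

theorem g1662 : GoodF (fidx ts) 400 1662 := GoodF.ofV v1662 n1662 c1662.down b1662.down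

/-- 4577456:1373/3 -/
noncomputable def e1663 : SCfg where
  D := {
    a := 7
    L := 10
    kp := 7
    inn := [(0, 1), (0, 2), (1, 0), (1, 2), (2, 0), (2, 1), (2, 3), (3, 2), (3, 4), (3, 5), (3, 6), (4,
      3), (4, 5), (5, 3), (5, 4), (5, 6), (6, 3), (6, 5)]
    mix := [(0, 0), (0, 1), (1, 1), (1, 2), (1, 3), (2, 0), (2, 3), (2, 4), (2, 5), (3, 3), (3, 4), (3,
      6), (4, 3), (4, 7), (5, 7), (5, 8), (6, 1), (6, 6), (6, 8), (6, 9)]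
    cl := [2, 1, 5, 0, 0, 6, 3, 4, 3, 7]
    chq := [(0, 2), (2, 0), (2, 5), (5, 2)]
    rng := [(0, 1), (0, 5), (1, 0), (1, 2), (1, 8), (1, 9), (2, 1), (2, 3), (3, 2), (3, 7), (4, 5), (4,
      6), (5, 0), (5, 4), (6, 4), (6, 9), (7, 3), (7, 8), (8, 1), (8, 7), (9, 1), (9, 6)]
    lev := [] }
  links := [[1, 2, 7, 8], [2, 0, 8, 9, 10], [7, 0, 1, 10, 3, 11, 12], [11, 2, 10, 4, 5, 6, 13], [5, 3,
    10, 14], [6, 3, 4, 14, 15], [13, 3, 5, 15, 8, 16]]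
  P := {
    a := 7
    N := 17
    nb := [390, 1797, 7307, 11380, 17448, 49240, 106792, 4357, 99011, 1282, 16926, 12300, 2180, 67656,
      33840, 16736, 8512]
    tri := [(0, 1, 2), (0, 1, 8), (0, 2, 7), (0, 7, 8), (1, 2, 10), (1, 8, 9), (1, 9, 10), (2, 3, 10),
      (2, 3, 11), (2, 7, 12), (2, 11, 12), (3, 4, 5), (3, 4, 10), (3, 5, 6), (3, 6, 13), (3, 11,
      13), (4, 5, 14), (4, 10, 14), (5, 6, 15), (5, 14, 15), (6, 8, 15), (6, 8, 16), (6, 13, 16)]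
    fin := [0, 0, 0, 3, 3, 3, 6, 0, 8, 9, 3, 3, 12, 6, 14, 6, 16]
    chd := [(0, 3), (0, 9)]
    steps := [(0, 1), (0, 2), (0, 7), (3, 4), (3, 5), (3, 10), (3, 11), (6, 15), (6, 13)] }
  rep := [3, 8, 0, 6, 14, 9, 12, 16]

noncomputable def v1663 : Cov.CovD where
  P := 3
  N := 5
  pl := [1, 5, 7, 9]
  lev := [⟨[], [], [], [1], [(0, 2, [0, 5])]⟩,
    ⟨[], [(0, 0), (0, 2), (0, 5)], [(0, 5)], [1], [(2, 5, [2]), (3, 0, [2])]⟩,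
    ⟨[(0, 1)], [(0, 0), (0, 2), (1, 0), (1, 2), (1, 5)], [(0, 0), (0, 2)], [6], [(0, 2, [0,
      5]), (3, 0, [2]), (4, 0, [2])]⟩,
    ⟨[(0, 2), (1, 2)], [(1, 0), (2, 0), (2, 2), (2, 3)], [(0, 0), (0, 3)], [], [(3, 0,
      [2]), (4, 0, [2]), (6, 3, [])]⟩,
    ⟨[(2, 3)], [(1, 0), (2, 0), (3, 0), (3, 3)], [], [4], [(3, 0, [2])]⟩,
    ⟨[(2, 3), (3, 4)], [(3, 0), (3, 3), (4, 0), (4, 3)], [], [4], [(8, 3, [])]⟩,
    ⟨[(2, 3), (3, 4), (3, 5), (4, 5)], [(3, 0), (3, 3), (5, 3)], [(3, 3)], [1, 7], [(6, 3,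
      []), (8, 3, [])]⟩]
  Ta := [((3, 2), 0, 5), ((3, 7), 0, 4), ((4, 5), 0, 6), ((4, 6), 0, 3), ((6, 4), 3, 0), ((6, 9),
    3, 7), ((8, 1), 3, 1), ((8, 7), 3, 4)]
  Tb := [((0, 1, 5), 2, 1, 6), ((1, 0, 2), 1, 2, 5), ((1, 0, 8), 1, 2, 3), ((1, 0, 9), 1, 2, 7),
    ((1, 2, 8), 1, 5, 3), ((1, 2, 9), 1, 5, 7), ((1, 8, 9), 1, 3, 7), ((2, 1, 3), 5, 1, 0),
    ((3, 2, 7), 0, 5, 4), ((4, 5, 6), 0, 6, 3), ((5, 0, 4), 6, 2, 0), ((6, 4, 9), 3, 0, 7),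
    ((7, 3, 8), 4, 0, 3), ((8, 1, 7), 3, 1, 4), ((9, 1, 6), 7, 1, 3)]
  Tc := [(2, 0, 5)]
  Td := [((0, 2), (3, 2), 5), ((0, 2), (3, 7), 4), ((0, 2), (4, 5), 6), ((0, 2), (4, 6), 3), ((2,
    0), (0, 1), 1), ((2, 0), (0, 5), 6), ((2, 5), (0, 1), 1), ((2, 5), (0, 5), 6), ((5, 2),
    (2, 1), 1), ((5, 2), (2, 3), 0)]
  G := [[0, 0xec92ae946ec52e658ac24, 0x5191c2d191a2c14, 0xd4d1a2c995862cd8d162d5591c2cc1,
    0xd1d86251d99c2a48], [0, 0x6e3ce9a426ed8e9c2c24, 0xd124d182d148e18,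
    0xd1d2a4d1d268c4d1d2a4d2d1c2c8c, 0xd19d6a4d195cba4a41], [0, 0xe124ac16e21e18ac28,
    0x5191c25191c2618, 0xd1d1c2d1d1c2c18, 0xdda12ddc12a48], [0, 0xe1e1a4e1e168c24,
    0xd124d142d184e14, 0xd1d1a2d1d162c14, 0xd1d1a4d1d1a4a41]]

noncomputable def n1663 : Ent := ⟨e1663, noF, [], [], [(9, 14, [1685382413448253767852309107433119732572617628602273068445371719681, 0])]⟩

def c1663 : PLift (Cov.check n1663.C.D v1663 = true) := ⟨by decide +kernel⟩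

def b1663 : PLift (entF (fidx ts) 400 1663 n1663 = true) := ⟨by decide +kernel⟩

theorem g1663 : GoodF (fidx ts) 400 1663 := GoodF.ofV v1663 n1663 c1663.down b1663.down

/-- 4577456:1373/5 -/
noncomputable def e1664 : SCfg where
  D := {
    a := 7
    L := 10
    kp := 7
    inn := [(0, 1), (0, 2), (1, 0), (1, 2), (2, 0), (2, 1), (2, 3), (3, 2), (3, 4), (3, 5), (3, 6), (4,
      3), (4, 5), (5, 3), (5, 4), (5, 6), (6, 3), (6, 5)]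
    mix := [(0, 0), (0, 1), (1, 1), (1, 2), (1, 3), (2, 0), (2, 3), (2, 4), (2, 5), (3, 3), (3, 4), (3,
      6), (4, 3), (4, 7), (5, 7), (5, 8), (6, 1), (6, 6), (6, 8), (6, 9)]
    cl := [2, 1, 5, 0, 0, 6, 3, 4, 3, 7]
    chq := [(0, 2), (2, 0), (2, 5), (5, 2)]
    rng := [(0, 1), (0, 5), (1, 0), (1, 2), (1, 6), (1, 9), (2, 1), (2, 3), (3, 2), (3, 7), (4, 5), (4,
      6), (5, 0), (5, 4), (6, 1), (6, 4), (7, 3), (7, 8), (8, 7), (8, 9), (9, 1), (9, 8)]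
    lev := [] }
  links := [[1, 2, 7, 8], [2, 0, 8, 9, 10], [7, 0, 1, 10, 3, 11, 12], [11, 2, 10, 4, 5, 6, 13], [5, 3,
    10, 14], [6, 3, 4, 14, 15], [13, 3, 5, 15, 16, 8]]
  P := {
    a := 7
    N := 17
    nb := [390, 1797, 7307, 11380, 17448, 49240, 106792, 4357, 74435, 1282, 16926, 12300, 2180, 2376,
      33840, 82016, 33088]
    tri := [(0, 1, 2), (0, 1, 8), (0, 2, 7), (0, 7, 8), (1, 2, 10), (1, 8, 9), (1, 9, 10), (2, 3, 10),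
      (2, 3, 11), (2, 7, 12), (2, 11, 12), (3, 4, 5), (3, 4, 10), (3, 5, 6), (3, 6, 13), (3, 11,
      13), (4, 5, 14), (4, 10, 14), (5, 6, 15), (5, 14, 15), (6, 8, 13), (6, 8, 16), (6, 15, 16)]
    fin := [0, 0, 0, 3, 3, 3, 6, 0, 8, 9, 3, 3, 12, 6, 14, 6, 16]
    chd := [(0, 3), (0, 9)]
    steps := [(0, 1), (0, 2), (0, 7), (3, 4), (3, 5), (3, 10), (3, 11), (6, 15), (6, 13)] }
  rep := [3, 8, 0, 6, 14, 9, 12, 16]

noncomputable def v1664 : Cov.CovD where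
  P := 3
  N := 5
  pl := [1, 5, 7, 9]
  lev := [⟨[], [], [], [1], [(0, 2, [0, 5])]⟩,
    ⟨[], [(0, 0), (0, 2), (0, 5)], [(0, 5)], [1], [(2, 5, [2]), (3, 0, [2])]⟩,
    ⟨[(0, 1)], [(0, 0), (0, 2), (1, 0), (1, 2), (1, 5)], [(0, 0), (0, 2)], [6], [(0, 2, [0,
      5]), (3, 0, [2]), (4, 0, [2])]⟩,
    ⟨[(0, 2), (1, 2)], [(1, 0), (2, 0), (2, 2), (2, 3)], [(0, 0), (0, 3)], [], [(3, 0,
      [2]), (4, 0, [2]), (6, 3, [])]⟩,
    ⟨[(2, 3)], [(1, 0), (2, 0), (3, 0), (3, 3)], [], [4], [(3, 0, [2])]⟩,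
    ⟨[(2, 3), (3, 4)], [(3, 0), (3, 3), (4, 0), (4, 3)], [], [4], [(8, 3, [])]⟩,
    ⟨[(2, 3), (3, 4), (3, 5), (4, 5)], [(3, 0), (3, 3), (5, 3)], [(3, 3)], [1, 7], [(6, 3,
      []), (8, 3, [])]⟩]
  Ta := [((3, 2), 0, 5), ((3, 7), 0, 4), ((4, 5), 0, 6), ((4, 6), 0, 3), ((6, 1), 3, 1), ((6, 4),
    3, 0), ((8, 7), 3, 4), ((8, 9), 3, 7)]
  Tb := [((0, 1, 5), 2, 1, 6), ((1, 0, 2), 1, 2, 5), ((1, 0, 6), 1, 2, 3), ((1, 0, 9), 1, 2, 7),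
    ((1, 2, 6), 1, 5, 3), ((1, 2, 9), 1, 5, 7), ((1, 6, 9), 1, 3, 7), ((2, 1, 3), 5, 1, 0),
    ((3, 2, 7), 0, 5, 4), ((4, 5, 6), 0, 6, 3), ((5, 0, 4), 6, 2, 0), ((6, 1, 4), 3, 1, 0),
    ((7, 3, 8), 4, 0, 3), ((8, 7, 9), 3, 4, 7), ((9, 1, 8), 7, 1, 3)]
  Tc := [(2, 0, 5)]
  Td := [((0, 2), (3, 2), 5), ((0, 2), (3, 7), 4), ((0, 2), (4, 5), 6), ((0, 2), (4, 6), 3), ((2,
    0), (0, 1), 1), ((2, 0), (0, 5), 6), ((2, 5), (0, 1), 1), ((2, 5), (0, 5), 6), ((5, 2),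
    (2, 1), 1), ((5, 2), (2, 3), 0)]
  G := [[0, 0xc2c1aa65a1c6ec526e58ac24, 0x912d18a912d18a618, 0xd4d1a24d592c2cd4591a2914d538acc1,
    0x5592d491c6c291ad9946a41], [0, 0x26ed8e9c22e8efe1c2c28, 0xd1d1c2d1d2c2c14,
    0xd2d1c2d1d268cd1d2a4d1d268cc1, 0xd1d2a4d1d268a48], [0, 0xe12e146e21e81ac24,
    0x81916518a912d18a614, 0xd1d162d1d1c2c18, 0xd12d146d14d18ca18], [0, 0xe1e1a4e1e1c2c24,
    0xd1d1a2d1d1a4a14, 0xd1d2a4d1d268c18, 0xd1d162d1d1c2a18]]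

noncomputable def n1664 : Ent := ⟨e1664, noF, [], [], []⟩

def c1664 : PLift (Cov.check n1664.C.D v1664 = true) := ⟨by decide +kernel⟩

def b1664 : PLift (entF (fidx ts) 400 1664 n1664 = true) := ⟨by decide +kernel⟩

theorem g1664 : GoodF (fidx ts) 400 1664 := GoodF.ofV v1664 n1664 c1664.down b1664.down

/-- 4577456:1373/6 -/
noncomputable def e1665 : SCfg where
  D := {
    a := 7
    L := 10
    kp := 7
    inn := [(0, 1), (0, 2), (1, 0), (1, 2), (2, 0), (2, 1), (2, 3), (3, 2), (3, 4), (3, 5), (3, 6), (4,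
      3), (4, 5), (5, 3), (5, 4), (5, 6), (6, 3), (6, 5)]
    mix := [(0, 0), (0, 1), (1, 1), (1, 2), (1, 3), (2, 0), (2, 3), (2, 4), (2, 5), (3, 3), (3, 4), (3,
      6), (4, 2), (4, 3), (5, 2), (5, 7), (6, 6), (6, 7), (6, 8), (6, 9)]
    cl := [4, 2, 1, 0, 0, 5, 3, 3, 6, 7]
    chq := [(0, 4), (1, 4), (4, 0), (4, 1)]
    rng := [(0, 1), (0, 5), (1, 0), (1, 2), (2, 1), (2, 3), (2, 7), (3, 2), (4, 5), (4, 6), (5, 0), (5,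
      4), (6, 4), (6, 9), (7, 2), (7, 8), (8, 7), (8, 9), (9, 6), (9, 8)]
    lev := [] }
  links := [[1, 2, 7, 8], [2, 0, 8, 9, 10], [7, 0, 1, 10, 3, 11, 12], [11, 2, 10, 4, 5, 6, 13], [5, 3,
    10, 9], [6, 3, 4, 9, 14], [13, 3, 5, 14, 15, 16]]
  P := {
    a := 7
    N := 17
    nb := [390, 1797, 7307, 11380, 1576, 16984, 122920, 4357, 643, 17714, 542, 12300, 2180, 67656,
      33376, 81984, 41024]
    tri := [(0, 1, 2), (0, 1, 8), (0, 2, 7), (0, 7, 8), (1, 2, 10), (1, 8, 9), (1, 9, 10), (2, 3, 10),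
      (2, 3, 11), (2, 7, 12), (2, 11, 12), (3, 4, 5), (3, 4, 10), (3, 5, 6), (3, 6, 13), (3, 11,
      13), (4, 5, 9), (4, 9, 10), (5, 6, 14), (5, 9, 14), (6, 13, 16), (6, 14, 15), (6, 15, 16)]
    fin := [0, 0, 2, 3, 3, 3, 6, 0, 8, 3, 2, 2, 12, 6, 6, 15, 16]
    chd := [(0, 2), (0, 3)]
    steps := [(0, 1), (0, 7), (2, 10), (2, 11), (3, 4), (3, 5), (3, 9), (6, 14), (6, 13)] }
  rep := [2, 3, 8, 6, 0, 12, 15, 16]

noncomputable def v1665 : Cov.CovD where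
  P := 3
  N := 5
  pl := [1, 5, 8, 9]
  lev := [⟨[], [], [], [2], [(0, 4, [0, 1])]⟩,
    ⟨[], [(0, 0), (0, 1), (0, 4)], [(0, 1)], [2], [(2, 1, [4]), (3, 0, [4])]⟩,
    ⟨[(0, 1)], [(0, 0), (0, 4), (1, 0), (1, 1), (1, 4)], [(0, 0), (0, 4)], [5], [(0, 4, [0,
      1]), (3, 0, [4]), (4, 0, [4])]⟩,
    ⟨[(0, 2), (1, 2)], [(1, 0), (2, 0), (2, 3), (2, 4)], [(0, 0), (0, 3)], [], [(3, 0,
      [4]), (4, 0, [4]), (6, 3, [])]⟩,
    ⟨[(2, 3)], [(1, 0), (1, 1), (2, 0), (3, 0), (3, 1), (3, 3)], [(0, 1)], [], [(2, 1,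
      [4]), (3, 0, [4])]⟩,
    ⟨[(2, 3), (3, 4)], [(1, 1), (3, 0), (3, 1), (3, 3), (4, 0), (4, 1), (4, 3)], [(1, 3)],
      [], [(2, 1, [4]), (7, 3, [])]⟩,
    ⟨[(2, 3), (3, 4), (3, 5), (4, 5)], [(3, 0), (3, 3), (5, 1), (5, 3)], [(3, 3)], [6, 7],
      [(6, 3, []), (7, 3, [])]⟩]
  Ta := [((3, 2), 0, 1), ((4, 5), 0, 5), ((4, 6), 0, 3), ((6, 4), 3, 0), ((6, 9), 3, 7), ((7, 2),
    3, 1), ((7, 8), 3, 6)]
  Tb := [((0, 1, 5), 4, 2, 5), ((1, 0, 2), 2, 4, 1), ((2, 1, 3), 1, 2, 0), ((2, 1, 7), 1, 2, 3),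
    ((2, 3, 7), 1, 0, 3), ((4, 5, 6), 0, 5, 3), ((5, 0, 4), 5, 4, 0), ((6, 4, 9), 3, 0, 7),
    ((7, 2, 8), 3, 1, 6), ((8, 7, 9), 6, 3, 7), ((9, 6, 8), 7, 3, 6)]
  Tc := [(4, 0, 1)]
  Td := [((0, 4), (3, 2), 1), ((0, 4), (4, 5), 5), ((0, 4), (4, 6), 3), ((1, 4), (2, 1), 2), ((1,
    4), (2, 3), 0), ((1, 4), (2, 7), 3), ((4, 0), (0, 1), 2), ((4, 0), (0, 5), 5), ((4, 1),
    (0, 1), 2), ((4, 1), (0, 5), 5)]
  G := [[0, 0xd42784a48d82b846b42782ca85, 0xf482f182b14718ce42, 0xf482f1823894718ce81,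
    0xf142f182b14718ce81], [0, 0x3f8e8264b1ac2f25e24e41, 0xf184f142f184e42,
    0xf142f142f184e41, 0xf182f148f148e81], [0, 0, 0xf412f142b14718ce82,
    0xf812f412284214d84ee81, 0xf412f482b41781ce81], [0, 0, 0xf182f148f148e82,
    0xf184f148f148e41, 0xf142f148f148e12]]

noncomputable def n1665 : Ent := ⟨e1665, noF, [], [], [(8, 14, [1685382413448253767852309107433119732572617628602273068445371711489, 0]), (8, 15, [1685356702439545624007900436039642273970977273354372543760006897665, 0])]⟩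

def c1665 : PLift (Cov.check n1665.C.D v1665 = true) := ⟨by decide +kernel⟩

def b1665 : PLift (entF (fidx ts) 400 1665 n1665 = true) := ⟨by decide +kernel⟩

theorem g1665 : GoodF (fidx ts) 400 1665 := GoodF.ofV v1665 n1665 c1665.down b1665.down

/-- 4577456:1373 -/
noncomputable def e1666 : SCfg where
  D := {
    a := 7
    L := 11
    kp := 8
    inn := [(0, 1), (0, 2), (1, 0), (1, 2), (2, 0), (2, 1), (2, 3), (3, 2), (3, 4), (3, 5), (3, 6), (4,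
      3), (4, 5), (5, 3), (5, 4), (5, 6), (6, 3), (6, 5)]
    mix := [(0, 0), (0, 1), (1, 1), (1, 2), (1, 3), (2, 0), (2, 3), (2, 4), (2, 5), (3, 3), (3, 4), (3,
      6), (4, 3), (4, 7), (5, 7), (5, 8), (6, 6), (6, 8), (6, 9), (6, 10)]
    cl := [1, 2, 5, 0, 0, 6, 3, 4, 3, 7, 8]
    chq := [(0, 1), (1, 0), (1, 5), (5, 1)]
    rng := [(0, 1), (0, 5), (1, 0), (1, 2), (2, 1), (2, 3), (3, 2), (3, 7), (4, 5), (4, 6), (5, 0), (5,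
      4), (6, 4), (6, 10), (7, 3), (7, 8), (8, 7), (8, 9), (9, 8), (9, 10), (10, 6), (10, 9)]
    lev := [] }
  links := [[1, 2, 7, 8], [2, 0, 8, 9, 10], [7, 0, 1, 10, 3, 11, 12], [11, 2, 10, 4, 5, 6, 13], [5, 3,
    10, 14], [6, 3, 4, 14, 15], [13, 3, 5, 15, 16, 17]]
  P := {
    a := 7
    N := 18
    nb := [390, 1797, 7307, 11380, 17448, 49240, 237608, 4357, 643, 1282, 16926, 12300, 2180, 133192,
      33840, 82016, 163904, 73792]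
    tri := [(0, 1, 2), (0, 1, 8), (0, 2, 7), (0, 7, 8), (1, 2, 10), (1, 8, 9), (1, 9, 10), (2, 3, 10),
      (2, 3, 11), (2, 7, 12), (2, 11, 12), (3, 4, 5), (3, 4, 10), (3, 5, 6), (3, 6, 13), (3, 11,
      13), (4, 5, 14), (4, 10, 14), (5, 6, 15), (5, 14, 15), (6, 13, 17), (6, 15, 16), (6, 16,
      17)]
    fin := [0, 0, 0, 3, 3, 3, 6, 0, 8, 9, 3, 3, 12, 6, 14, 6, 16, 17]
    chd := [(0, 3), (0, 9)]
    steps := [(0, 1), (0, 2), (0, 7), (3, 4), (3, 5), (3, 10), (3, 11), (6, 15), (6, 13)] }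
  rep := [3, 0, 8, 6, 14, 9, 12, 16, 17]

noncomputable def v1666 : Cov.CovD where
  P := 3
  N := 6
  pl := [1, 5, 7, 9, 10]
  lev := [⟨[], [], [], [2], [(0, 1, [0, 5])]⟩,
    ⟨[], [(0, 0), (0, 1), (0, 5)], [(0, 5)], [2], [(2, 5, [1]), (3, 0, [1])]⟩,
    ⟨[(0, 1)], [(0, 0), (0, 1), (1, 0), (1, 1), (1, 5)], [(0, 0), (0, 1)], [6], [(0, 1, [0,
      5]), (3, 0, [1]), (4, 0, [1])]⟩,
    ⟨[(0, 2), (1, 2)], [(1, 0), (2, 0), (2, 1), (2, 3)], [(0, 0), (0, 3)], [], [(3, 0,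
      [1]), (4, 0, [1]), (6, 3, [])]⟩,
    ⟨[(2, 3)], [(1, 0), (2, 0), (3, 0), (3, 3)], [], [4], [(3, 0, [1])]⟩,
    ⟨[(2, 3), (3, 4)], [(3, 0), (3, 3), (4, 0), (4, 3)], [], [4], [(8, 3, [])]⟩,
    ⟨[(2, 3), (3, 4), (3, 5), (4, 5)], [(3, 0), (3, 3), (5, 3)], [(3, 3)], [7, 8], [(6, 3,
      []), (8, 3, [])]⟩]
  Ta := [((3, 2), 0, 5), ((3, 7), 0, 4), ((4, 5), 0, 6), ((4, 6), 0, 3), ((6, 4), 3, 0), ((6,
    10), 3, 8), ((8, 7), 3, 4), ((8, 9), 3, 7)]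
  Tb := [((0, 1, 5), 1, 2, 6), ((1, 0, 2), 2, 1, 5), ((2, 1, 3), 5, 2, 0), ((3, 2, 7), 0, 5, 4),
    ((4, 5, 6), 0, 6, 3), ((5, 0, 4), 6, 1, 0), ((6, 4, 10), 3, 0, 8), ((7, 3, 8), 4, 0, 3),
    ((8, 7, 9), 3, 4, 7), ((9, 8, 10), 7, 3, 8), ((10, 6, 9), 8, 3, 7)]
  Tc := [(1, 0, 5)]
  Td := [((0, 1), (3, 2), 5), ((0, 1), (3, 7), 4), ((0, 1), (4, 5), 6), ((0, 1), (4, 6), 3), ((1,
    0), (0, 1), 2), ((1, 0), (0, 5), 6), ((1, 5), (0, 1), 2), ((1, 5), (0, 5), 6), ((5, 1),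
    (2, 1), 2), ((5, 1), (2, 3), 0)]
  G := [[0, 0xf12f146d12f121cac14, 0xdf92bf9464dbd2f758ac28,
    0xfd92fb946df5271f8cac869dd2bf946d2f1671f8cac45, 0xfd92f4b1c641da3cb827458ec28], [0,
    0xf1f1a4f1f1a4a14, 0x3efd9f3c2af31dfd68c24,
    0x2f3d9f76846f5b1fbc2bd341cfd8acc48f73bfdc288c, 0x7dabaf5c29b6446f18ac21], [0,
    0xf1241b1c6f12f18ac18, 0xf12f146f12f81ac28, 0x61d1ab146f12f18ac18,
    0x21d1af146f21f18ac28], [0, 0xf1f168f1f1a4614, 0xf1f1a4f1f168c28, 0xf1f1c2f1f168c14,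
    0xf1f1c2f1f168c21]]

noncomputable def n1666 : Ent := ⟨e1666, noF, [], [], [(8, 15, [7334790850167413569773436004105379185503274260204390087403942011457537, 0]), (8, 16, [7334685537875745012586738086077695515070955365108989538292687700488193, 0]), (8, 17, [6903326391201334775872065844685381424292761054348340378595029936504833, 0]), (9, 14, [7334790875878422277917280412776772662961875900559637987928627376295937, 0])]⟩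

def c1666 : PLift (Cov.check n1666.C.D v1666 = true) := ⟨by decide +kernel⟩

def b1666 : PLift (entF (fidx ts) 400 1666 n1666 = true) := ⟨by decide +kernel⟩

theorem g1666 : GoodF (fidx ts) 400 1666 := GoodF.ofV v1666 n1666 c1666.down b1666.down

/-- 4674684:1390/1 -/
noncomputable def e1667 : SCfg where
  D := {
    a := 7
    L := 10
    kp := 7
    inn := [(0, 1), (0, 2), (0, 4), (1, 0), (1, 4), (2, 0), (2, 3), (2, 4), (2, 5), (3, 2), (3, 5), (4,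
      0), (4, 1), (4, 2), (4, 5), (5, 2), (5, 3), (5, 4), (5, 6), (6, 5)]
    mix := [(0, 0), (1, 0), (1, 1), (1, 2), (1, 3), (2, 0), (2, 4), (2, 5), (3, 4), (3, 6), (4, 3), (4,
      7), (5, 6), (5, 7), (5, 8), (5, 9), (6, 2), (6, 7), (6, 8)]
    cl := [0, 7, 3, 0, 4, 6, 2, 1, 5, 1]
    chq := [(1, 6), (2, 6), (6, 1), (6, 2)]
    rng := [(0, 1), (0, 5), (1, 0), (1, 2), (2, 1), (2, 3), (2, 7), (2, 8), (3, 2), (3, 7), (4, 5), (4,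
      6), (5, 0), (5, 4), (6, 4), (6, 9), (7, 2), (7, 3), (8, 2), (8, 9), (9, 6), (9, 8)]
    lev := [] }
  links := [[1, 4, 2, 7], [4, 0, 7, 8, 9, 10], [7, 0, 4, 5, 3, 11, 12], [11, 2, 5, 13], [5, 2, 0, 1, 10,
    14], [13, 3, 2, 4, 14, 6, 15, 16], [15, 5, 14, 9]]
  P := {
    a := 7
    N := 17
    nb := [150, 1937, 6329, 10276, 17447, 122972, 49696, 4359, 642, 50498, 16914, 12300, 2180, 67624,
      1648, 66144, 40992]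
    tri := [(0, 1, 4), (0, 1, 7), (0, 2, 4), (0, 2, 7), (1, 4, 10), (1, 7, 8), (1, 8, 9), (1, 9, 10),
      (2, 3, 5), (2, 3, 11), (2, 4, 5), (2, 7, 12), (2, 11, 12), (3, 5, 13), (3, 11, 13), (4, 5,
      14), (4, 10, 14), (5, 6, 14), (5, 6, 15), (5, 13, 16), (5, 15, 16), (6, 9, 14), (6, 9, 15)]
    fin := [0, 0, 2, 3, 0, 5, 6, 0, 8, 6, 0, 11, 2, 3, 5, 15, 5]
    chd := [(2, 3), (2, 5)]
    steps := [(0, 1), (0, 4), (0, 7), (0, 10), (2, 12), (3, 13), (5, 14), (5, 16), (6, 9)] }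
  rep := [0, 5, 3, 6, 11, 15, 2, 8]

noncomputable def v1667 : Cov.CovD where
  P := 3
  N := 5
  pl := [1, 2, 4, 8]
  lev := [⟨[], [], [], [], [(0, 0, [])]⟩,
    ⟨[], [(0, 0)], [(0, 0)], [3, 7], [(0, 0, []), (3, 0, [])]⟩,
    ⟨[(0, 1)], [(0, 0), (0, 6), (1, 0)], [(0, 6)], [4], [(0, 0, []), (5, 6, [1, 2])]⟩,
    ⟨[(0, 2)], [(2, 0), (2, 2), (2, 6)], [], [4], [(6, 2, [6])]⟩,
    ⟨[(0, 1), (0, 2), (1, 2), (2, 3)], [(0, 0), (0, 1), (1, 0), (1, 1), (2, 0), (2, 1), (2,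
      6)], [(0, 1)], [], [(3, 0, []), (7, 1, [6])]⟩,
    ⟨[(0, 2), (0, 4), (1, 4), (2, 3), (2, 4), (3, 4)], [(2, 0), (2, 1), (2, 2), (2, 6), (3,
      1), (3, 2), (4, 0), (4, 1), (4, 2)], [(1, 1), (1, 2)], [5], [(6, 2, [6]), (7, 1, [6]),
      (9, 1, [6])]⟩,
    ⟨[(2, 5), (3, 5), (4, 5)], [(4, 1), (5, 1), (5, 2)], [], [3, 5], [(7, 1, [6])]⟩]
  Ta := [((0, 1), 0, 7), ((0, 5), 0, 6), ((3, 2), 0, 3), ((3, 7), 0, 1), ((7, 2), 1, 3), ((7, 3),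
    1, 0), ((9, 6), 1, 2), ((9, 8), 1, 5)]
  Tb := [((0, 1, 5), 0, 7, 6), ((1, 0, 2), 7, 0, 3), ((2, 1, 3), 3, 7, 0), ((2, 1, 7), 3, 7, 1),
    ((2, 1, 8), 3, 7, 5), ((2, 3, 7), 3, 0, 1), ((2, 3, 8), 3, 0, 5), ((2, 7, 8), 3, 1, 5),
    ((3, 2, 7), 0, 3, 1), ((4, 5, 6), 4, 6, 2), ((5, 0, 4), 6, 0, 4), ((6, 4, 9), 2, 4, 1),
    ((7, 2, 3), 1, 3, 0), ((8, 2, 9), 5, 3, 1), ((9, 6, 8), 1, 2, 5)]
  Tc := [(6, 1, 2)]
  Td := [((1, 6), (7, 2), 3), ((1, 6), (7, 3), 0), ((1, 6), (9, 6), 2), ((1, 6), (9, 8), 5), ((2,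
    6), (6, 4), 4), ((2, 6), (6, 9), 1), ((6, 1), (5, 0), 0), ((6, 1), (5, 4), 4), ((6, 2),
    (5, 0), 0), ((6, 2), (5, 4), 4)]
  G := [[0, 0,
    0x24181c16218114814c1e258945859c1d1c1c6e941181284e141881cc441184c148581cc59c148ea, 0,
    0x21885121948194a61148981182148c3611811c89c81b118c8496e118848a], [0, 0,
    0x141882c22c1141881e6248182c21c112c1c6148281c12c114289c6e12c14821c148241181c8ec,
    0x12c182585224c122c1c222c1229452e4, 0x21948211489821128c82ea128914249814112892198a4e6],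
    [0, 0x4482488cc1448a82c1e428c86ac843e6488844488cd24428c8844488cd2c5,
    0x1428c4488ca3488c4353c8444818814c8e35428c984a44814d8cc3e4, 0,
    0x1128c518884b88488465c184598a58485219484835181184888cbce518884a241482c19422e3], [0, 0,
    0x2428c884a1488c4312c8448614c2832438c823c843e4, 0x82582258c242982294522158225892e1,
    0x218882938421496429811148c863182889284884614b6e1]]

noncomputable def n1667 : Ent := ⟨e1667, noF, [], [], []⟩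

def c1667 : PLift (Cov.check n1667.C.D v1667 = true) := ⟨by decide +kernel⟩

def b1667 : PLift (entF (fidx ts) 400 1667 n1667 = true) := ⟨by decide +kernel⟩

theorem g1667 : GoodF (fidx ts) 400 1667 := GoodF.ofV v1667 n1667 c1667.down b1667.down

/-- 4674684:1390 -/
noncomputable def e1668 : SCfg where
  D := {
    a := 7
    L := 11
    kp := 8
    inn := [(0, 1), (0, 2), (0, 4), (1, 0), (1, 4), (2, 0), (2, 3), (2, 4), (2, 5), (3, 2), (3, 5), (4,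
      0), (4, 1), (4, 2), (4, 5), (5, 2), (5, 3), (5, 4), (5, 6), (6, 5)]
    mix := [(0, 0), (1, 0), (1, 1), (1, 2), (1, 3), (2, 0), (2, 4), (2, 5), (3, 4), (3, 6), (4, 3), (4,
      7), (5, 6), (5, 7), (5, 8), (5, 9), (6, 7), (6, 8), (6, 10)]
    cl := [1, 5, 6, 1, 2, 4, 0, 0, 3, 7, 8]
    chq := [(0, 3), (0, 4), (3, 0), (4, 0)]
    rng := [(0, 1), (0, 5), (1, 0), (1, 2), (2, 1), (2, 3), (3, 2), (3, 7), (4, 5), (4, 6), (5, 0), (5,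
      4), (6, 4), (6, 9), (7, 3), (7, 10), (8, 9), (8, 10), (9, 6), (9, 8), (10, 7), (10, 8)]
    lev := [] }
  links := [[1, 4, 2, 7], [4, 0, 7, 8, 9, 10], [7, 0, 4, 5, 3, 11, 12], [11, 2, 5, 13], [5, 2, 0, 1, 10,
    14], [13, 3, 2, 4, 14, 6, 15, 16], [15, 5, 14, 17]]
  P := {
    a := 7
    N := 18
    nb := [150, 1937, 6329, 10276, 17447, 122972, 180256, 4359, 642, 1282, 16914, 12300, 2180, 67624,
      132208, 196704, 40992, 49216]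
    tri := [(0, 1, 4), (0, 1, 7), (0, 2, 4), (0, 2, 7), (1, 4, 10), (1, 7, 8), (1, 8, 9), (1, 9, 10),
      (2, 3, 5), (2, 3, 11), (2, 4, 5), (2, 7, 12), (2, 11, 12), (3, 5, 13), (3, 11, 13), (4, 5,
      14), (4, 10, 14), (5, 6, 14), (5, 6, 15), (5, 13, 16), (5, 15, 16), (6, 14, 17), (6, 15,
      17)]
    fin := [0, 0, 2, 2, 0, 2, 2, 0, 8, 9, 0, 11, 12, 2, 2, 15, 16, 17]
    chd := [(2, 15), (12, 2)]
    steps := [(0, 1), (0, 4), (0, 7), (0, 10), (2, 3), (2, 5), (2, 6), (2, 14), (2, 13)] }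
  rep := [2, 0, 11, 15, 12, 8, 9, 16, 17]

noncomputable def v1668 : Cov.CovD where
  P := 3
  N := 6
  pl := [1, 2, 4, 9, 10]
  lev := [⟨[], [], [], [], [(0, 1, [])]⟩,
    ⟨[], [(0, 1)], [(1, 1)], [5, 6], [(0, 1, []), (3, 1, [])]⟩,
    ⟨[(0, 1)], [(0, 1), (0, 4), (1, 1)], [(1, 4)], [2], [(0, 1, []), (5, 4, [0])]⟩,
    ⟨[(0, 2)], [(2, 0), (2, 1), (2, 4)], [], [2], [(6, 0, [3, 4])]⟩,
    ⟨[(0, 1), (0, 2), (1, 2), (2, 3)], [(0, 0), (0, 1), (1, 0), (1, 1), (2, 0), (2, 1), (2,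
      4)], [(0, 1)], [], [(3, 1, []), (7, 0, [3, 4])]⟩,
    ⟨[(0, 2), (0, 4), (1, 4), (2, 3), (2, 4), (3, 4)], [(2, 0), (2, 1), (2, 3), (2, 4), (3,
      0), (3, 3), (4, 0), (4, 1), (4, 3)], [(0, 0), (0, 3)], [7], [(6, 0, [3, 4]), (7, 0, [3,
      4]), (8, 3, [0])]⟩,
    ⟨[(2, 5), (3, 5), (4, 5)], [(4, 0), (5, 0), (5, 3)], [(0, 3)], [8], [(7, 0, [3, 4]),
      (8, 3, [0])]⟩]
  Ta := [((0, 1), 1, 5), ((0, 5), 1, 4), ((3, 2), 1, 6), ((3, 7), 1, 0), ((6, 4), 0, 2), ((6, 9),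
    0, 7), ((7, 3), 0, 1), ((7, 10), 0, 8)]
  Tb := [((0, 1, 5), 1, 5, 4), ((1, 0, 2), 5, 1, 6), ((2, 1, 3), 6, 5, 1), ((3, 2, 7), 1, 6, 0),
    ((4, 5, 6), 2, 4, 0), ((5, 0, 4), 4, 1, 2), ((6, 4, 9), 0, 2, 7), ((7, 3, 10), 0, 1, 8),
    ((8, 9, 10), 3, 7, 8), ((9, 6, 8), 7, 0, 3), ((10, 7, 8), 8, 0, 3)]
  Tc := [(0, 3, 4)]
  Td := [((0, 3), (6, 4), 2), ((0, 3), (6, 9), 7), ((0, 3), (7, 3), 1), ((0, 3), (7, 10), 8),
    ((0, 4), (6, 4), 2), ((0, 4), (6, 9), 7), ((0, 4), (7, 3), 1), ((0, 4), (7, 10), 8), ((3,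
    0), (8, 9), 7), ((3, 0), (8, 10), 8), ((4, 0), (5, 0), 1), ((4, 0), (5, 4), 2)]
  G := [[0, 0, 0x11a14621282c1411ac41218a8c911c2241211ca21211ca8c14884d5,
    0x3b9e48195638c41593e481d8, 0xdb1e42117ad4681dd618c21d8], [0, 0,
    0x124412821418c4e128211c84a124211c84ad128441242456, 0x593e48159638c81593e481d2,
    0x95638c8114bdac21395e421d2], [0, 0, 0, 0xe42e2e8ac1e2e4ae82c1ee68e82c1d4,
    0xe24eec2a1e2e46e82a1e24eec2a1d8], [0, 0xe42eea4c1ee628cc82c1ee68e82c1e8, 0,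
    0x448ae6e8cc1ee68e84c19e48eea4c146, 0xee68e84a1ee68e84a15224e4ecaca18c]]

noncomputable def n1668 : Ent := ⟨e1668, noF, [], [], [(9, 17, [6903326391201334775872065844685381424292761054348340378595029936517121, 0])]⟩

def c1668 : PLift (Cov.check n1668.C.D v1668 = true) := ⟨by decide +kernel⟩

def b1668 : PLift (entF (fidx ts) 400 1668 n1668 = true) := ⟨by decide +kernel⟩

theorem g1668 : GoodF (fidx ts) 400 1668 := GoodF.ofV v1668 n1668 c1668.down b1668.down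

/-- 4674684:1391/1 -/
noncomputable def e1669 : SCfg where
  D := {
    a := 7
    L := 10
    kp := 7
    inn := [(0, 1), (0, 2), (0, 4), (1, 0), (1, 4), (2, 0), (2, 3), (2, 4), (2, 5), (3, 2), (3, 5), (4,
      0), (4, 1), (4, 2), (4, 5), (5, 2), (5, 3), (5, 4), (5, 6), (6, 5)]
    mix := [(0, 0), (1, 0), (1, 1), (1, 2), (1, 3), (2, 0), (2, 4), (2, 5), (3, 4), (3, 6), (4, 3), (4,
      7), (5, 6), (5, 7), (5, 8), (5, 9), (6, 1), (6, 6), (6, 9)]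
    cl := [1, 2, 7, 1, 3, 5, 0, 0, 6, 4]
    chq := [(0, 5), (2, 6), (5, 0), (6, 2)]
    rng := [(0, 1), (0, 5), (1, 0), (1, 2), (1, 6), (1, 9), (2, 1), (2, 3), (3, 2), (3, 7), (4, 5), (4,
      6), (5, 0), (5, 4), (6, 1), (6, 4), (7, 3), (7, 8), (8, 7), (8, 9), (9, 1), (9, 8)]
    lev := [] }
  links := [[1, 4, 2, 7], [4, 0, 7, 8, 9, 10], [7, 0, 4, 5, 3, 11, 12], [11, 2, 5, 13], [5, 2, 0, 1, 10,
    14], [13, 3, 2, 4, 14, 15, 16, 6], [13, 5, 16, 8]]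
  P := {
    a := 7
    N := 17
    nb := [150, 1937, 6329, 10276, 17447, 122972, 74016, 4359, 74434, 1282, 16914, 12300, 2180, 2408,
      33840, 81952, 33120]
    tri := [(0, 1, 4), (0, 1, 7), (0, 2, 4), (0, 2, 7), (1, 4, 10), (1, 7, 8), (1, 8, 9), (1, 9, 10),
      (2, 3, 5), (2, 3, 11), (2, 4, 5), (2, 7, 12), (2, 11, 12), (3, 5, 13), (3, 11, 13), (4, 5,
      14), (4, 10, 14), (5, 6, 13), (5, 6, 16), (5, 14, 15), (5, 15, 16), (6, 8, 13), (6, 8, 16)]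
    fin := [0, 0, 2, 2, 2, 5, 5, 0, 5, 9, 0, 11, 12, 2, 2, 15, 16]
    chd := [(5, 15), (12, 2)]
    steps := [(0, 1), (0, 7), (0, 10), (2, 3), (2, 4), (2, 14), (2, 13), (5, 6), (5, 8)] }
  rep := [2, 0, 5, 11, 16, 12, 15, 9]

noncomputable def v1669 : Cov.CovD where
  P := 3
  N := 5
  pl := [2, 4, 9]
  lev := [⟨[], [], [], [], [(0, 1, [])]⟩,
    ⟨[], [(0, 1), (0, 2)], [(1, 1), (1, 2)], [7], [(0, 1, []), (1, 2, [6]), (3, 1, [])]⟩,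
    ⟨[(0, 1)], [(0, 1), (0, 5), (1, 1)], [(1, 5)], [3], [(0, 1, []), (5, 5, [0])]⟩,
    ⟨[(0, 2)], [(2, 0), (2, 1), (2, 5)], [], [3], [(6, 0, [5])]⟩,
    ⟨[(0, 1), (0, 2), (1, 2), (2, 3)], [(0, 0), (0, 1), (1, 0), (1, 1), (1, 2), (2, 0), (2,
      1), (2, 5)], [(0, 1)], [], [(3, 1, []), (7, 0, [5])]⟩,
    ⟨[(0, 2), (0, 4), (1, 4), (2, 3), (2, 4), (3, 4)], [(2, 0), (2, 1), (2, 5), (2, 6), (3,
      0), (3, 6), (4, 0), (4, 1), (4, 6)], [(0, 0), (0, 6)], [4], [(6, 0, [5]), (7, 0, [5]),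
      (8, 6, [2])]⟩,
    ⟨[(2, 5), (3, 5), (4, 5)], [(1, 2), (3, 0), (5, 0), (5, 2), (5, 6)], [(0, 2)], [4],
      [(1, 2, [6]), (6, 0, [5])]⟩]
  Ta := [((0, 1), 1, 2), ((0, 5), 1, 5), ((3, 2), 1, 7), ((3, 7), 1, 0), ((6, 1), 0, 2), ((6, 4),
    0, 3), ((7, 3), 0, 1), ((7, 8), 0, 6)]
  Tb := [((0, 1, 5), 1, 2, 5), ((1, 0, 2), 2, 1, 7), ((1, 0, 6), 2, 1, 0), ((1, 0, 9), 2, 1, 4),
    ((1, 2, 6), 2, 7, 0), ((1, 2, 9), 2, 7, 4), ((1, 6, 9), 2, 0, 4), ((2, 1, 3), 7, 2, 1),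
    ((3, 2, 7), 1, 7, 0), ((4, 5, 6), 3, 5, 0), ((5, 0, 4), 5, 1, 3), ((6, 1, 4), 0, 2, 3),
    ((7, 3, 8), 0, 1, 6), ((8, 7, 9), 6, 0, 4), ((9, 1, 8), 4, 2, 6)]
  Tc := []
  Td := [((0, 5), (6, 1), 2), ((0, 5), (6, 4), 3), ((0, 5), (7, 3), 1), ((0, 5), (7, 8), 6), ((2,
    6), (1, 0), 1), ((2, 6), (1, 2), 7), ((2, 6), (1, 6), 0), ((2, 6), (1, 9), 4), ((5, 0),
    (5, 0), 1), ((5, 0), (5, 4), 3), ((6, 2), (8, 7), 0), ((6, 2), (8, 9), 4)]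
  G := [[0, 0, 0x426882a484c2e1426882a484c2e1c1, 0xc212c218cc28c2861c248c282c242dd4,
    0xa261282c828aca2922a46282c828aca299226aca84a4862a8c495], [0, 0,
    0x4422c82a44488ce1426862a864c8e1c4, 0,
    0x22188ac14a428cc24ab82428288a428c8a482ac8246f92284485], [0, 0, 0, 0x9242192841c2881d8,
    0x12688c91618a61192e8122ac66194], [0, 0x481e4c281c6c11ca8468c688ac1c8, 0, 0,
    0x612e48a1e4a191628c12688cc198]]

noncomputable def n1669 : Ent := ⟨e1669, noF, [], [], []⟩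

def c1669 : PLift (Cov.check n1669.C.D v1669 = true) := ⟨by decide +kernel⟩

def b1669 : PLift (entF (fidx ts) 400 1669 n1669 = true) := ⟨by decide +kernel⟩

theorem g1669 : GoodF (fidx ts) 400 1669 := GoodF.ofV v1669 n1669 c1669.down b1669.down

/-- 4674684:1391/2 -/
noncomputable def e1670 : SCfg where
  D := {
    a := 7
    L := 10
    kp := 7
    inn := [(0, 1), (0, 2), (0, 4), (1, 0), (1, 4), (2, 0), (2, 3), (2, 4), (2, 5), (3, 2), (3, 5), (4,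
      0), (4, 1), (4, 2), (4, 5), (5, 2), (5, 3), (5, 4), (5, 6), (6, 5)]
    mix := [(0, 0), (1, 0), (1, 1), (1, 2), (1, 3), (2, 0), (2, 4), (2, 5), (3, 4), (3, 6), (4, 3), (4,
      7), (5, 6), (5, 7), (5, 8), (5, 9), (6, 2), (6, 6), (6, 9)]
    cl := [1, 7, 2, 1, 3, 5, 0, 0, 6, 4]
    chq := [(0, 5), (2, 6), (5, 0), (6, 2)]
    rng := [(0, 1), (0, 5), (1, 0), (1, 2), (2, 1), (2, 3), (2, 6), (2, 9), (3, 2), (3, 7), (4, 5), (4,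
      6), (5, 0), (5, 4), (6, 2), (6, 4), (7, 3), (7, 8), (8, 7), (8, 9), (9, 2), (9, 8)]
    lev := [] }
  links := [[1, 4, 2, 7], [4, 0, 7, 8, 9, 10], [7, 0, 4, 5, 3, 11, 12], [11, 2, 5, 13], [5, 2, 0, 1, 10,
    14], [13, 3, 2, 4, 14, 15, 16, 6], [13, 5, 16, 9]]
  P := {
    a := 7
    N := 17
    nb := [150, 1937, 6329, 10276, 17447, 122972, 74272, 4359, 642, 75074, 16914, 12300, 2180, 2664,
      33840, 81952, 33376]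
    tri := [(0, 1, 4), (0, 1, 7), (0, 2, 4), (0, 2, 7), (1, 4, 10), (1, 7, 8), (1, 8, 9), (1, 9, 10),
      (2, 3, 5), (2, 3, 11), (2, 4, 5), (2, 7, 12), (2, 11, 12), (3, 5, 13), (3, 11, 13), (4, 5,
      14), (4, 10, 14), (5, 6, 13), (5, 6, 16), (5, 14, 15), (5, 15, 16), (6, 9, 13), (6, 9, 16)]
    fin := [0, 0, 2, 2, 2, 5, 5, 0, 8, 5, 0, 11, 12, 2, 2, 15, 16]
    chd := [(5, 15), (12, 2)]
    steps := [(0, 1), (0, 7), (0, 10), (2, 3), (2, 4), (2, 14), (2, 13), (5, 6), (5, 9)] }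
  rep := [2, 0, 5, 11, 16, 12, 15, 8]

noncomputable def v1670 : Cov.CovD where
  P := 3
  N := 5
  pl := [1, 4, 9]
  lev := [⟨[], [], [], [], [(0, 1, [])]⟩,
    ⟨[], [(0, 1), (0, 2)], [(1, 1), (1, 2)], [7], [(0, 1, []), (2, 2, [6]), (3, 1, [])]⟩,
    ⟨[(0, 1)], [(0, 1), (0, 5), (1, 1)], [(1, 5)], [3], [(0, 1, []), (5, 5, [0])]⟩,
    ⟨[(0, 2)], [(2, 0), (2, 1), (2, 5)], [], [3], [(6, 0, [5])]⟩,
    ⟨[(0, 1), (0, 2), (1, 2), (2, 3)], [(0, 0), (0, 1), (1, 0), (1, 1), (1, 2), (2, 0), (2,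
      1), (2, 5)], [(0, 1)], [], [(3, 1, []), (7, 0, [5])]⟩,
    ⟨[(0, 2), (0, 4), (1, 4), (2, 3), (2, 4), (3, 4)], [(2, 0), (2, 1), (2, 5), (2, 6), (3,
      0), (3, 6), (4, 0), (4, 1), (4, 6)], [(0, 0), (0, 6)], [4], [(6, 0, [5]), (7, 0, [5]),
      (8, 6, [2])]⟩,
    ⟨[(2, 5), (3, 5), (4, 5)], [(1, 2), (3, 0), (5, 0), (5, 2), (5, 6)], [(0, 2)], [4],
      [(2, 2, [6]), (6, 0, [5])]⟩]
  Ta := [((0, 1), 1, 7), ((0, 5), 1, 5), ((3, 2), 1, 2), ((3, 7), 1, 0), ((6, 2), 0, 2), ((6, 4),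
    0, 3), ((7, 3), 0, 1), ((7, 8), 0, 6)]
  Tb := [((0, 1, 5), 1, 7, 5), ((1, 0, 2), 7, 1, 2), ((2, 1, 3), 2, 7, 1), ((2, 1, 6), 2, 7, 0),
    ((2, 1, 9), 2, 7, 4), ((2, 3, 6), 2, 1, 0), ((2, 3, 9), 2, 1, 4), ((2, 6, 9), 2, 0, 4),
    ((3, 2, 7), 1, 2, 0), ((4, 5, 6), 3, 5, 0), ((5, 0, 4), 5, 1, 3), ((6, 2, 4), 0, 2, 3),
    ((7, 3, 8), 0, 1, 6), ((8, 7, 9), 6, 0, 4), ((9, 2, 8), 4, 2, 6)]
  Tc := []
  Td := [((0, 5), (6, 2), 2), ((0, 5), (6, 4), 3), ((0, 5), (7, 3), 1), ((0, 5), (7, 8), 6), ((2,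
    6), (2, 1), 7), ((2, 6), (2, 3), 1), ((2, 6), (2, 6), 0), ((2, 6), (2, 9), 4), ((5, 0),
    (5, 0), 1), ((5, 0), (5, 4), 3), ((6, 2), (8, 7), 0), ((6, 2), (8, 9), 4)]
  G := [[0, 0, 0x426882a484c2e142682288a84c2e1c4, 0,
    0x2ac288aa46a1a482288aca8688a2598242ac26a422288acc82a46282c899], [0, 0,
    0xa2688c4c688c61426882a44488ce1c2, 0xc218c284c282dc248c284c242d92,
    0x221822182ac18224a482accf22488288248a488cca2628c224cf94], [0, 0, 0, 0,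
    0x312e4831e4a138618a38618aa198], [0, 0x481e441688ca181648a18ce8c1c2, 0,
    0x92441c2421c2481d8, 0xa1628c1482acc11482ac218e86194]]

noncomputable def n1670 : Ent := ⟨e1670, noF, [], [], []⟩

def c1670 : PLift (Cov.check n1670.C.D v1670 = true) := ⟨by decide +kernel⟩

def b1670 : PLift (entF (fidx ts) 400 1670 n1670 = true) := ⟨by decide +kernel⟩

theorem g1670 : GoodF (fidx ts) 400 1670 := GoodF.ofV v1670 n1670 c1670.down b1670.down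

/-- 4674684:1391 -/
noncomputable def e1671 : SCfg where
  D := {
    a := 7
    L := 11
    kp := 8
    inn := [(0, 1), (0, 2), (0, 4), (1, 0), (1, 4), (2, 0), (2, 3), (2, 4), (2, 5), (3, 2), (3, 5), (4,
      0), (4, 1), (4, 2), (4, 5), (5, 2), (5, 3), (5, 4), (5, 6), (6, 5)]
    mix := [(0, 0), (1, 0), (1, 1), (1, 2), (1, 3), (2, 0), (2, 4), (2, 5), (3, 4), (3, 6), (4, 3), (4,
      7), (5, 6), (5, 7), (5, 8), (5, 9), (6, 6), (6, 9), (6, 10)]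
    cl := [1, 7, 8, 1, 2, 4, 0, 0, 5, 3, 6]
    chq := [(0, 4), (4, 0), (5, 6), (6, 5)]
    rng := [(0, 1), (0, 5), (1, 0), (1, 2), (2, 1), (2, 3), (3, 2), (3, 7), (4, 5), (4, 6), (5, 0), (5,
      4), (6, 4), (6, 10), (7, 3), (7, 8), (8, 7), (8, 9), (9, 8), (9, 10), (10, 6), (10, 9)]
    lev := [] }
  links := [[1, 4, 2, 7], [4, 0, 7, 8, 9, 10], [7, 0, 4, 5, 3, 11, 12], [11, 2, 5, 13], [5, 2, 0, 1, 10,
    14], [13, 3, 2, 4, 14, 15, 16, 6], [13, 5, 16, 17]]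
  P := {
    a := 7
    N := 18
    nb := [150, 1937, 6329, 10276, 17447, 122972, 204832, 4359, 642, 1282, 16914, 12300, 2180, 133224,
      33840, 81952, 163936, 73792]
    tri := [(0, 1, 4), (0, 1, 7), (0, 2, 4), (0, 2, 7), (1, 4, 10), (1, 7, 8), (1, 8, 9), (1, 9, 10),
      (2, 3, 5), (2, 3, 11), (2, 4, 5), (2, 7, 12), (2, 11, 12), (3, 5, 13), (3, 11, 13), (4, 5,
      14), (4, 10, 14), (5, 6, 13), (5, 6, 16), (5, 14, 15), (5, 15, 16), (6, 13, 17), (6, 16,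
      17)]
    fin := [0, 0, 2, 2, 2, 5, 5, 0, 8, 9, 0, 11, 12, 2, 2, 5, 16, 17]
    chd := [(5, 17), (12, 2)]
    steps := [(0, 1), (0, 7), (0, 10), (2, 3), (2, 4), (2, 14), (2, 13), (5, 6), (5, 15)] }
  rep := [2, 0, 11, 16, 12, 5, 17, 8, 9]

noncomputable def v1671 : Cov.CovD where
  P := 3
  N := 6
  pl := [1, 2, 4, 9]
  lev := [⟨[], [], [], [], [(0, 1, [])]⟩,
    ⟨[], [(0, 1)], [(1, 1)], [7, 8], [(0, 1, []), (3, 1, [])]⟩,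
    ⟨[(0, 1)], [(0, 1), (0, 4), (1, 1)], [(1, 4)], [2], [(0, 1, []), (5, 4, [0])]⟩,
    ⟨[(0, 2)], [(2, 0), (2, 1), (2, 4)], [], [2], [(6, 0, [4])]⟩,
    ⟨[(0, 1), (0, 2), (1, 2), (2, 3)], [(0, 0), (0, 1), (1, 0), (1, 1), (2, 0), (2, 1), (2,
      4)], [(0, 1)], [], [(3, 1, []), (7, 0, [4])]⟩,
    ⟨[(0, 2), (0, 4), (1, 4), (2, 3), (2, 4), (3, 4)], [(2, 0), (2, 1), (2, 4), (2, 5), (3,
      0), (3, 5), (4, 0), (4, 1), (4, 5)], [(0, 0), (0, 5)], [3], [(6, 0, [4]), (7, 0, [4]),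
      (8, 5, [6])]⟩,
    ⟨[(2, 5), (3, 5), (4, 5)], [(3, 0), (5, 0), (5, 5), (5, 6)], [(0, 6)], [3], [(6, 0,
      [4]), (10, 6, [5])]⟩]
  Ta := [((0, 1), 1, 7), ((0, 5), 1, 4), ((3, 2), 1, 8), ((3, 7), 1, 0), ((6, 4), 0, 2), ((6,
    10), 0, 6), ((7, 3), 0, 1), ((7, 8), 0, 5)]
  Tb := [((0, 1, 5), 1, 7, 4), ((1, 0, 2), 7, 1, 8), ((2, 1, 3), 8, 7, 1), ((3, 2, 7), 1, 8, 0),
    ((4, 5, 6), 2, 4, 0), ((5, 0, 4), 4, 1, 2), ((6, 4, 10), 0, 2, 6), ((7, 3, 8), 0, 1, 5),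
    ((8, 7, 9), 5, 0, 3), ((9, 8, 10), 3, 5, 6), ((10, 6, 9), 6, 0, 3)]
  Tc := []
  Td := [((0, 4), (6, 4), 2), ((0, 4), (6, 10), 6), ((0, 4), (7, 3), 1), ((0, 4), (7, 8), 5),
    ((4, 0), (5, 0), 1), ((4, 0), (5, 4), 2), ((5, 6), (8, 7), 0), ((5, 6), (8, 9), 3), ((6,
    5), (10, 6), 0), ((6, 5), (10, 9), 3)]
  G := [[0, 0, 0xc246ac2aa46cac2ca46cac26ca8a486cc26aca2a48c268accd1,
    0xc26ac681ac668a81c26aca41d4, 0xc26ac6216caa46816ace421d8], [0, 0,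
    0xc2146ac146c242c282a48681cec242c284a48684cedc21488a, 0xac668c81a46cac416ace841d2,
    0x6ace481a46cac816ace481d2], [0, 0, 0, 0x1437ac415213ca81341cac41d4,
    0x1259c62119638a81591e481d8], [0, 0x31ce2411a5e841ac618c81e4, 0,
    0x91668c8119668c81341cac41d2, 0x13ce481a41cac215a1e481d8]]

noncomputable def n1671 : Ent := ⟨e1671, noF, [], [], [(8, 17, [6903326391201334775872065844685381424292761054348340378595029936525313, 0]), (9, 17, [6903326391201334775872065844685381424292761054348340378595029936529409, 0])]⟩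

def c1671 : PLift (Cov.check n1671.C.D v1671 = true) := ⟨by decide +kernel⟩

def b1671 : PLift (entF (fidx ts) 400 1671 n1671 = true) := ⟨by decide +kernel⟩

theorem g1671 : GoodF (fidx ts) 400 1671 := GoodF.ofV v1671 n1671 c1671.down b1671.down

/-- 4674674:1395/1 -/
noncomputable def e1672 : SCfg where
  D := {
    a := 7
    L := 10
    kp := 7
    inn := [(0, 1), (0, 2), (0, 4), (1, 0), (1, 4), (1, 5), (2, 0), (2, 3), (2, 4), (3, 2), (4, 0), (4,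
      1), (4, 2), (4, 5), (5, 1), (5, 4), (5, 6), (6, 5)]
    mix := [(0, 0), (1, 0), (1, 1), (1, 2), (2, 0), (2, 3), (2, 4), (2, 5), (3, 3), (3, 4), (3, 6), (4,
      3), (4, 7), (5, 2), (5, 7), (5, 8), (5, 9), (6, 2), (6, 6), (6, 8)]
    cl := [0, 6, 1, 0, 3, 7, 2, 1, 4, 5]
    chq := [(0, 3), (2, 5), (3, 0), (5, 2)]
    rng := [(0, 1), (0, 5), (1, 0), (1, 2), (2, 1), (2, 6), (3, 6), (3, 7), (4, 5), (4, 6), (5, 0), (5,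
      4), (6, 2), (6, 3), (6, 4), (6, 8), (7, 3), (7, 9), (8, 6), (8, 9), (9, 7), (9, 8)]
    lev := [] }
  links := [[1, 4, 2, 7], [4, 0, 7, 8, 9, 5], [7, 0, 4, 10, 3, 11, 12], [11, 2, 10, 13], [10, 2, 0, 1, 5,
    14], [14, 4, 1, 9, 6, 15, 16], [15, 5, 9, 13]]
  P := {
    a := 7
    N := 17
    nb := [150, 945, 7321, 11268, 17447, 115282, 41504, 4359, 642, 8546, 24604, 12300, 2180, 36424,
      66608, 73824, 49184]
    tri := [(0, 1, 4), (0, 1, 7), (0, 2, 4), (0, 2, 7), (1, 4, 5), (1, 5, 9), (1, 7, 8), (1, 8, 9), (2,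
      3, 10), (2, 3, 11), (2, 4, 10), (2, 7, 12), (2, 11, 12), (3, 10, 13), (3, 11, 13), (4, 5,
      14), (4, 10, 14), (5, 6, 9), (5, 6, 15), (5, 14, 16), (5, 15, 16), (6, 9, 13), (6, 13, 15)]
    fin := [0, 1, 0, 0, 1, 5, 5, 0, 8, 1, 0, 11, 12, 5, 1, 15, 16]
    chd := [(0, 11), (5, 16)]
    steps := [(0, 2), (0, 3), (0, 7), (0, 10), (1, 4), (1, 9), (1, 14), (5, 6), (5, 13)] }
  rep := [0, 1, 5, 11, 15, 16, 8, 12]

noncomputable def v1672 : Cov.CovD where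
  P := 3
  N := 5
  pl := [1, 5, 8]
  lev := [⟨[], [], [], [], [(0, 0, [3])]⟩,
    ⟨[], [(0, 0), (0, 1)], [(0, 1)], [6], [(0, 0, [3]), (2, 1, [])]⟩,
    ⟨[(0, 1)], [(0, 0), (0, 3), (1, 0)], [(0, 0), (0, 3)], [7], [(0, 0, [3]), (3, 0, [3]),
      (4, 3, [0])]⟩,
    ⟨[(0, 2)], [(2, 0), (2, 2), (2, 3)], [(0, 2), (0, 3), (2, 3)], [], [(3, 0, [3]), (4, 3,
      [0]), (6, 2, [5])]⟩,
    ⟨[(0, 1), (0, 2), (1, 2), (2, 3)], [(0, 0), (0, 1), (1, 0), (1, 1), (2, 0), (2, 1), (2,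
      3), (3, 0)], [(0, 1)], [], [(3, 0, [3]), (7, 1, [])]⟩,
    ⟨[(0, 1), (0, 4), (1, 4), (2, 4)], [(1, 0), (1, 1), (1, 5), (4, 0), (4, 1), (4, 5)],
      [(1, 1), (1, 5)], [4], [(2, 1, []), (7, 1, []), (9, 5, [2])]⟩,
    ⟨[(1, 5), (4, 5)], [(1, 1), (3, 2), (5, 1), (5, 2), (5, 5)], [(1, 2)], [4], [(2, 1,
      []), (6, 2, [5])]⟩]
  Ta := [((0, 1), 0, 6), ((0, 5), 0, 7), ((2, 1), 1, 6), ((2, 6), 1, 2), ((3, 6), 0, 2), ((3, 7),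
    0, 1), ((7, 3), 1, 0), ((7, 9), 1, 5)]
  Tb := [((0, 1, 5), 0, 6, 7), ((1, 0, 2), 6, 0, 1), ((2, 1, 6), 1, 6, 2), ((3, 6, 7), 0, 2, 1),
    ((4, 5, 6), 3, 7, 2), ((5, 0, 4), 7, 0, 3), ((6, 2, 3), 2, 1, 0), ((6, 2, 4), 2, 1, 3),
    ((6, 2, 8), 2, 1, 4), ((6, 3, 4), 2, 0, 3), ((6, 3, 8), 2, 0, 4), ((6, 4, 8), 2, 3, 4),
    ((7, 3, 9), 1, 0, 5), ((8, 6, 9), 4, 2, 5), ((9, 7, 8), 5, 1, 4)]
  Tc := []
  Td := [((0, 3), (0, 1), 6), ((0, 3), (0, 5), 7), ((0, 3), (3, 6), 2), ((0, 3), (3, 7), 1), ((2,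
    5), (6, 2), 1), ((2, 5), (6, 3), 0), ((2, 5), (6, 4), 3), ((2, 5), (6, 8), 4), ((3, 0),
    (4, 5), 7), ((3, 0), (4, 6), 2), ((5, 2), (9, 7), 1), ((5, 2), (9, 8), 4)]
  G := [[0, 0, 0, 0x1154c581154c9441558c1e8199458915889491588c1ec2,
    0x891d21819945264198d281119ca198518c2e819288c941884e], [0, 0, 0, 0,
    0x1189c58191d81191d82e24], [0, 0, 0xc148c184c182ec148c124c142ec1,
    0x11481184118114ce11481184118118ce89c4854c8454c84488cced2,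
    0x8128812118a8142e89c2889c289c2a19c82e98128112818a1142e45], [0,
    0x8c688a48481ac81a846c64415e4845618a449618c41648cce1248c688c9, 0xc148c184c142e21, 0,
    0x891d48191d8198d8a191d82e21]]

noncomputable def n1672 : Ent := ⟨e1672, noF, [], [], []⟩

def c1672 : PLift (Cov.check n1672.C.D v1672 = true) := ⟨by decide +kernel⟩

def b1672 : PLift (entF (fidx ts) 400 1672 n1672 = true) := ⟨by decide +kernel⟩

theorem g1672 : GoodF (fidx ts) 400 1672 := GoodF.ofV v1672 n1672 c1672.down b1672.down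

/-- 4674674:1395/2 -/
noncomputable def e1673 : SCfg where
  D := {
    a := 7
    L := 10
    kp := 7
    inn := [(0, 1), (0, 2), (0, 4), (1, 0), (1, 4), (1, 5), (2, 0), (2, 3), (2, 4), (3, 2), (4, 0), (4,
      1), (4, 2), (4, 5), (5, 1), (5, 4), (5, 6), (6, 5)]
    mix := [(0, 0), (1, 0), (1, 1), (1, 2), (2, 0), (2, 3), (2, 4), (2, 5), (3, 3), (3, 4), (3, 6), (4,
      3), (4, 7), (5, 2), (5, 7), (5, 8), (5, 9), (6, 2), (6, 4), (6, 8)]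
    cl := [0, 5, 1, 0, 2, 6, 7, 1, 3, 4]
    chq := [(0, 2), (2, 0), (2, 4), (4, 2)]
    rng := [(0, 1), (0, 5), (1, 0), (1, 2), (2, 1), (2, 4), (3, 6), (3, 7), (4, 2), (4, 5), (4, 6), (4,
      8), (5, 0), (5, 4), (6, 3), (6, 4), (7, 3), (7, 9), (8, 4), (8, 9), (9, 7), (9, 8)]
    lev := [] }
  links := [[1, 4, 2, 7], [4, 0, 7, 8, 9, 5], [7, 0, 4, 10, 3, 11, 12], [11, 2, 10, 13], [10, 2, 0, 1, 5,
    14], [14, 4, 1, 9, 6, 15, 16], [15, 5, 9, 11]]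
  P := {
    a := 7
    N := 17
    nb := [150, 945, 7321, 11268, 17447, 115282, 35360, 4359, 642, 2402, 24604, 45644, 2180, 3080,
      66608, 67680, 49184]
    tri := [(0, 1, 4), (0, 1, 7), (0, 2, 4), (0, 2, 7), (1, 4, 5), (1, 5, 9), (1, 7, 8), (1, 8, 9), (2,
      3, 10), (2, 3, 11), (2, 4, 10), (2, 7, 12), (2, 11, 12), (3, 10, 13), (3, 11, 13), (4, 5,
      14), (4, 10, 14), (5, 6, 9), (5, 6, 15), (5, 14, 16), (5, 15, 16), (6, 9, 11), (6, 11, 15)]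
    fin := [0, 1, 0, 0, 1, 5, 5, 0, 8, 1, 0, 5, 12, 13, 1, 15, 16]
    chd := [(0, 5), (5, 16)]
    steps := [(0, 2), (0, 3), (0, 7), (0, 10), (1, 4), (1, 9), (1, 14), (5, 6), (5, 11)] }
  rep := [0, 1, 5, 15, 16, 8, 12, 13]

noncomputable def v1673 : Cov.CovD where
  P := 3
  N := 5
  pl := [1, 5, 6, 8]
  lev := [⟨[], [], [], [], [(0, 0, [2])]⟩,
    ⟨[], [(0, 0), (0, 1)], [(0, 1)], [5], [(0, 0, [2]), (2, 1, [])]⟩,
    ⟨[(0, 1)], [(0, 0), (0, 2), (1, 0)], [(0, 0), (0, 2)], [6], [(0, 0, [2]), (3, 0, [2]),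
      (4, 2, [0, 4])]⟩,
    ⟨[(0, 2)], [(2, 0), (2, 2)], [(0, 2)], [7], [(3, 0, [2]), (4, 2, [0, 4])]⟩,
    ⟨[(0, 1), (0, 2), (1, 2), (2, 3)], [(0, 0), (0, 1), (1, 0), (1, 1), (2, 0), (2, 1), (2,
      2), (3, 0)], [(0, 1)], [], [(3, 0, [2]), (7, 1, [])]⟩,
    ⟨[(0, 1), (0, 4), (1, 4), (2, 4)], [(1, 0), (1, 1), (1, 4), (4, 0), (4, 1), (4, 4)],
      [(1, 1), (1, 4)], [3], [(2, 1, []), (7, 1, []), (9, 4, [2])]⟩,
    ⟨[(1, 5), (4, 5)], [(1, 1), (2, 2), (3, 2), (5, 1), (5, 2), (5, 4)], [(1, 2)], [3],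
      [(2, 1, []), (4, 2, [0, 4])]⟩]
  Ta := [((0, 1), 0, 5), ((0, 5), 0, 6), ((2, 1), 1, 5), ((2, 4), 1, 2), ((3, 6), 0, 7), ((3, 7),
    0, 1), ((7, 3), 1, 0), ((7, 9), 1, 4)]
  Tb := [((0, 1, 5), 0, 5, 6), ((1, 0, 2), 5, 0, 1), ((2, 1, 4), 1, 5, 2), ((3, 6, 7), 0, 7, 1),
    ((4, 2, 5), 2, 1, 6), ((4, 2, 6), 2, 1, 7), ((4, 2, 8), 2, 1, 3), ((4, 5, 6), 2, 6, 7),
    ((4, 5, 8), 2, 6, 3), ((4, 6, 8), 2, 7, 3), ((5, 0, 4), 6, 0, 2), ((6, 3, 4), 7, 0, 2),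
    ((7, 3, 9), 1, 0, 4), ((8, 4, 9), 3, 2, 4), ((9, 7, 8), 4, 1, 3)]
  Tc := [(2, 0, 4)]
  Td := [((0, 2), (0, 1), 5), ((0, 2), (0, 5), 6), ((0, 2), (3, 6), 7), ((0, 2), (3, 7), 1), ((2,
    0), (4, 2), 1), ((2, 0), (4, 5), 6), ((2, 0), (4, 6), 7), ((2, 0), (4, 8), 3), ((2, 4),
    (4, 2), 1), ((2, 4), (4, 5), 6), ((2, 4), (4, 6), 7), ((2, 4), (4, 8), 3), ((4, 2), (9,
    7), 1), ((4, 2), (9, 8), 3)]
  G := [[0, 0, 0xc144c182c188ec182c184c188ec2, 0x891d21891d21c4541d21541d21c8c,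
    0x891d2191588c1a4591d4194189c1a8a], [0, 0, 0xc184c182c188e21, 0, 0x891d4191518c1a28], [0,
    0, 0xc144c142c188ec142c188c184ec2,
    0x84c2441114114c118118cc114114c118118cc89c44488cc4488c8cda,
    0x114114a118114aa112118a118118aa19c219c2a19c89488caad4], [0,
    0x149e2481e4c1449ac41648acc815e21489acc115e8481e8ccc1, 0xc142c184c148e28, 0,
    0x891d491518ca191d8191d8aa21]]

noncomputable def n1673 : Ent := ⟨e1673, noF, [], [], []⟩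

def c1673 : PLift (Cov.check n1673.C.D v1673 = true) := ⟨by decide +kernel⟩

def b1673 : PLift (entF (fidx ts) 400 1673 n1673 = true) := ⟨by decide +kernel⟩

theorem g1673 : GoodF (fidx ts) 400 1673 := GoodF.ofV v1673 n1673 c1673.down b1673.down

/-- 4674674:1395 -/
noncomputable def e1674 : SCfg where
  D := {
    a := 7
    L := 11
    kp := 8
    inn := [(0, 1), (0, 2), (0, 4), (1, 0), (1, 4), (1, 5), (2, 0), (2, 3), (2, 4), (3, 2), (4, 0), (4,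
      1), (4, 2), (4, 5), (5, 1), (5, 4), (5, 6), (6, 5)]
    mix := [(0, 0), (1, 0), (1, 1), (1, 2), (2, 0), (2, 3), (2, 4), (2, 5), (3, 3), (3, 4), (3, 6), (4,
      3), (4, 7), (5, 2), (5, 7), (5, 8), (5, 9), (6, 2), (6, 8), (6, 10)]
    cl := [0, 6, 1, 0, 2, 7, 8, 1, 3, 4, 5]
    chq := [(0, 2), (2, 0), (4, 5), (5, 4)]
    rng := [(0, 1), (0, 5), (1, 0), (1, 2), (2, 1), (2, 10), (3, 6), (3, 7), (4, 5), (4, 6), (5, 0),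
      (5, 4), (6, 3), (6, 4), (7, 3), (7, 9), (8, 9), (8, 10), (9, 7), (9, 8), (10, 2), (10, 8)]
    lev := [] }
  links := [[1, 4, 2, 7], [4, 0, 7, 8, 9, 5], [7, 0, 4, 10, 3, 11, 12], [11, 2, 10, 13], [10, 2, 0, 1, 5,
    14], [14, 4, 1, 9, 6, 15, 16], [15, 5, 9, 17]]
  P := {
    a := 7
    N := 18
    nb := [150, 945, 7321, 11268, 17447, 115282, 164384, 4359, 642, 131426, 24604, 12300, 2180, 3080,
      66608, 196704, 49184, 33344]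
    tri := [(0, 1, 4), (0, 1, 7), (0, 2, 4), (0, 2, 7), (1, 4, 5), (1, 5, 9), (1, 7, 8), (1, 8, 9), (2,
      3, 10), (2, 3, 11), (2, 4, 10), (2, 7, 12), (2, 11, 12), (3, 10, 13), (3, 11, 13), (4, 5,
      14), (4, 10, 14), (5, 6, 9), (5, 6, 15), (5, 14, 16), (5, 15, 16), (6, 9, 17), (6, 15, 17)]
    fin := [0, 1, 0, 0, 1, 5, 5, 0, 8, 1, 0, 11, 12, 13, 1, 15, 16, 5]
    chd := [(0, 11), (16, 5)]
    steps := [(0, 2), (0, 3), (0, 7), (0, 10), (1, 4), (1, 9), (1, 14), (5, 6), (5, 17)] }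
  rep := [0, 1, 11, 15, 16, 5, 8, 12, 13]

noncomputable def v1674 : Cov.CovD where
  P := 3
  N := 6
  pl := [1, 5, 6, 8]
  lev := [⟨[], [], [], [], [(0, 0, [2])]⟩,
    ⟨[], [(0, 0), (0, 1)], [(0, 1)], [6], [(0, 0, [2]), (2, 1, [])]⟩,
    ⟨[(0, 1)], [(0, 0), (0, 2), (1, 0)], [(0, 0), (0, 2)], [7], [(0, 0, [2]), (3, 0, [2]),
      (4, 2, [0])]⟩,
    ⟨[(0, 2)], [(2, 0), (2, 2)], [(0, 2)], [8], [(3, 0, [2]), (4, 2, [0])]⟩,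
    ⟨[(0, 1), (0, 2), (1, 2), (2, 3)], [(0, 0), (0, 1), (1, 0), (1, 1), (2, 0), (2, 1), (2,
      2), (3, 0)], [(0, 1)], [], [(3, 0, [2]), (7, 1, [])]⟩,
    ⟨[(0, 1), (0, 4), (1, 4), (2, 4)], [(1, 0), (1, 1), (1, 4), (4, 0), (4, 1), (4, 4)],
      [(1, 1), (1, 4)], [3], [(2, 1, []), (7, 1, []), (9, 4, [5])]⟩,
    ⟨[(1, 5), (4, 5)], [(1, 1), (5, 1), (5, 4), (5, 5)], [(1, 5)], [3], [(2, 1, []), (10,
      5, [4])]⟩]
  Ta := [((0, 1), 0, 6), ((0, 5), 0, 7), ((2, 1), 1, 6), ((2, 10), 1, 5), ((3, 6), 0, 8), ((3,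
    7), 0, 1), ((7, 3), 1, 0), ((7, 9), 1, 4)]
  Tb := [((0, 1, 5), 0, 6, 7), ((1, 0, 2), 6, 0, 1), ((2, 1, 10), 1, 6, 5), ((3, 6, 7), 0, 8, 1),
    ((4, 5, 6), 2, 7, 8), ((5, 0, 4), 7, 0, 2), ((6, 3, 4), 8, 0, 2), ((7, 3, 9), 1, 0, 4),
    ((8, 9, 10), 3, 4, 5), ((9, 7, 8), 4, 1, 3), ((10, 2, 8), 5, 1, 3)]
  Tc := []
  Td := [((0, 2), (0, 1), 6), ((0, 2), (0, 5), 7), ((0, 2), (3, 6), 8), ((0, 2), (3, 7), 1), ((2,
    0), (4, 5), 7), ((2, 0), (4, 6), 8), ((4, 5), (9, 7), 1), ((4, 5), (9, 8), 3), ((5, 4),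
    (10, 2), 1), ((5, 4), (10, 8), 3)]
  G := [[0, 0, 0xc142c1486c144c128c182e59c245894689458c2edc14488c,
    0x59cd419c558c1c945c9c159cd81cc2, 0x59cd419c558c1a945c9c1945c9c1ac2], [0, 0,
    0xc14294c1c8c184e52c442842284348ae38, 0x9c558c159cd81c24, 0x59cd4159cd41a28], [0, 0,
    0xc122c188c144ec128c184a59c2459c889458c2edc122445,
    0xc12c14c8c12c12c859c259c2c59c28cdc14c18c4c18c18c459c844d6,
    0xc12c14ac14c18aac12c18ac18c18aa59c29458ca59c89458caad4], [0,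
    0x319e213ce2c691e219638acc591e269a146c1a5e2691e2ccc1, 0xc18459cd82c148e3428c423c88a34,
    0x59cd49c558cc945c9c59cd8cc21, 0x59cd49c558ca59cd459cd4aa21]]

noncomputable def n1674 : Ent := ⟨e1674, noF, [], [], [(17, 13, [6903326391226443182813612567740724581985591720012749800372886074589185, 0]), (17, 11, [6903326391201334778116932359625648306653620957400551096786542322552833, 0])]⟩

def c1674 : PLift (Cov.check n1674.C.D v1674 = true) := ⟨by decide +kernel⟩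

def b1674 : PLift (entF (fidx ts) 400 1674 n1674 = true) := ⟨by decide +kernel⟩

theorem g1674 : GoodF (fidx ts) 400 1674 := GoodF.ofV v1674 n1674 c1674.down b1674.down

/-- 4674674:1396/1 -/
noncomputable def e1675 : SCfg where
  D := {
    a := 7
    L := 10
    kp := 7
    inn := [(0, 1), (0, 2), (0, 4), (1, 0), (1, 4), (1, 5), (2, 0), (2, 3), (2, 4), (3, 2), (4, 0), (4,
      1), (4, 2), (4, 5), (5, 1), (5, 4), (5, 6), (6, 5)]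
    mix := [(0, 0), (1, 0), (1, 1), (1, 2), (2, 0), (2, 3), (2, 4), (2, 5), (3, 3), (3, 4), (3, 6), (4,
      3), (4, 7), (5, 2), (5, 7), (5, 8), (5, 9), (6, 6), (6, 7), (6, 9)]
    cl := [0, 5, 1, 0, 3, 6, 2, 1, 7, 4]
    chq := [(0, 3), (1, 4), (3, 0), (4, 1)]
    rng := [(0, 1), (0, 5), (1, 0), (1, 2), (2, 1), (2, 8), (3, 6), (3, 7), (4, 5), (4, 6), (5, 0), (5,
      4), (6, 3), (6, 4), (6, 7), (6, 9), (7, 3), (7, 6), (8, 2), (8, 9), (9, 6), (9, 8)]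
    lev := [] }
  links := [[1, 4, 2, 7], [4, 0, 7, 8, 9, 5], [7, 0, 4, 10, 3, 11, 12], [11, 2, 10, 13], [10, 2, 0, 1, 5,
    14], [14, 4, 1, 9, 15, 16, 6], [14, 5, 16, 13]]
  P := {
    a := 7
    N := 17
    nb := [150, 945, 7321, 11268, 17447, 115282, 90144, 4359, 642, 33058, 24604, 12300, 2180, 85064,
      9328, 66080, 41056]
    tri := [(0, 1, 4), (0, 1, 7), (0, 2, 4), (0, 2, 7), (1, 4, 5), (1, 5, 9), (1, 7, 8), (1, 8, 9), (2,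
      3, 10), (2, 3, 11), (2, 4, 10), (2, 7, 12), (2, 11, 12), (3, 10, 13), (3, 11, 13), (4, 5,
      14), (4, 10, 14), (5, 6, 14), (5, 6, 16), (5, 9, 15), (5, 15, 16), (6, 13, 14), (6, 13, 16)]
    fin := [0, 0, 0, 0, 0, 5, 5, 0, 8, 5, 0, 11, 12, 13, 5, 15, 16]
    chd := [(0, 11), (5, 16)]
    steps := [(0, 1), (0, 2), (0, 3), (0, 4), (0, 7), (0, 10), (5, 6), (5, 9), (5, 14)] }
  rep := [0, 5, 13, 11, 16, 8, 12, 15]

noncomputable def v1675 : Cov.CovD where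
  P := 3
  N := 5
  pl := [1, 5, 6, 8]
  lev := [⟨[], [], [], [], [(0, 0, [3])]⟩,
    ⟨[], [(0, 0), (0, 1)], [(0, 1)], [5], [(0, 0, [3]), (2, 1, [4])]⟩,
    ⟨[(0, 1)], [(0, 0), (0, 3), (1, 0)], [(0, 0), (0, 3)], [6], [(0, 0, [3]), (3, 0, [3]),
      (4, 3, [0])]⟩,
    ⟨[(0, 2)], [(2, 0), (2, 3)], [(0, 3)], [2], [(3, 0, [3]), (4, 3, [0])]⟩,
    ⟨[(0, 1), (0, 2), (1, 2), (2, 3)], [(0, 0), (0, 1), (1, 0), (1, 1), (2, 0), (2, 1), (2,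
      3), (3, 0)], [(0, 1)], [], [(3, 0, [3]), (7, 1, [4])]⟩,
    ⟨[(0, 1), (0, 4), (1, 4), (2, 4)], [(1, 0), (1, 1), (1, 4), (4, 0), (4, 1), (4, 4)],
      [(1, 1), (1, 4)], [7], [(2, 1, [4]), (7, 1, [4]), (9, 4, [1])]⟩,
    ⟨[(1, 5), (4, 5)], [(4, 1), (5, 1), (5, 4)], [(1, 4)], [2], [(7, 1, [4]), (9, 4, [1])]⟩]
  Ta := [((0, 1), 0, 5), ((0, 5), 0, 6), ((2, 1), 1, 5), ((2, 8), 1, 7), ((3, 6), 0, 2), ((3, 7),
    0, 1), ((7, 3), 1, 0), ((7, 6), 1, 2)]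
  Tb := [((0, 1, 5), 0, 5, 6), ((1, 0, 2), 5, 0, 1), ((2, 1, 8), 1, 5, 7), ((3, 6, 7), 0, 2, 1),
    ((4, 5, 6), 3, 6, 2), ((5, 0, 4), 6, 0, 3), ((6, 3, 4), 2, 0, 3), ((6, 3, 7), 2, 0, 1),
    ((6, 3, 9), 2, 0, 4), ((6, 4, 7), 2, 3, 1), ((6, 4, 9), 2, 3, 4), ((6, 7, 9), 2, 1, 4),
    ((7, 3, 6), 1, 0, 2), ((8, 2, 9), 7, 1, 4), ((9, 6, 8), 4, 2, 7)]
  Tc := []
  Td := [((0, 3), (0, 1), 5), ((0, 3), (0, 5), 6), ((0, 3), (3, 6), 2), ((0, 3), (3, 7), 1), ((1,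
    4), (2, 1), 5), ((1, 4), (2, 8), 7), ((1, 4), (7, 3), 0), ((1, 4), (7, 6), 2), ((3, 0),
    (4, 5), 6), ((3, 0), (4, 6), 2), ((4, 1), (9, 6), 2), ((4, 1), (9, 8), 7)]
  G := [[0, 0, 0, 0, 0x91542221588a181924526c284228291d48a4219c1c81924588ce], [0, 0, 0,
    0x1184c9442819445841588c1a2c, 0x8841421189c589158191588c2e2c], [0, 0,
    0x214222184218264488c22d21482184c214888ac4864c84cda, 0,
    0x1148118118a1142e11281182a89c2889c289c2a32c82ed112112a445], [0,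
    0x4c62844844c684c68ce8ca488ca24882c288ace84c28c284ca44c688c4488ccee1,
    0x8c94448448e8844c58884e4c588c2e21, 0x891d48541d84541d844819cce21,
    0x891d4891588c91588ca891d42e21]]

noncomputable def n1675 : Ent := ⟨e1675, noF, [], [], []⟩

def c1675 : PLift (Cov.check n1675.C.D v1675 = true) := ⟨by decide +kernel⟩

def b1675 : PLift (entF (fidx ts) 400 1675 n1675 = true) := ⟨by decide +kernel⟩

theorem g1675 : GoodF (fidx ts) 400 1675 := GoodF.ofV v1675 n1675 c1675.down b1675.down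

/-- 4674674:1396 -/
noncomputable def e1676 : SCfg where
  D := {
    a := 7
    L := 11
    kp := 8
    inn := [(0, 1), (0, 2), (0, 4), (1, 0), (1, 4), (1, 5), (2, 0), (2, 3), (2, 4), (3, 2), (4, 0), (4,
      1), (4, 2), (4, 5), (5, 1), (5, 4), (5, 6), (6, 5)]
    mix := [(0, 0), (1, 0), (1, 1), (1, 2), (2, 0), (2, 3), (2, 4), (2, 5), (3, 3), (3, 4), (3, 6), (4,
      3), (4, 7), (5, 2), (5, 7), (5, 8), (5, 9), (6, 7), (6, 9), (6, 10)]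
    cl := [0, 6, 1, 0, 4, 2, 5, 1, 7, 3, 8]
    chq := [(1, 3), (2, 5), (3, 1), (5, 2)]
    rng := [(0, 1), (0, 5), (1, 0), (1, 2), (2, 1), (2, 8), (3, 6), (3, 7), (4, 5), (4, 6), (5, 0), (5,
      4), (6, 3), (6, 4), (7, 3), (7, 10), (8, 2), (8, 9), (9, 8), (9, 10), (10, 7), (10, 9)]
    lev := [] }
  links := [[1, 4, 2, 7], [4, 0, 7, 8, 9, 5], [7, 0, 4, 10, 3, 11, 12], [11, 2, 10, 13], [10, 2, 0, 1, 5,
    14], [14, 4, 1, 9, 15, 16, 6], [14, 5, 16, 17]]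
  P := {
    a := 7
    N := 18
    nb := [150, 945, 7321, 11268, 17447, 115282, 213024, 4359, 642, 33058, 24604, 12300, 2180, 3080,
      132208, 66080, 163936, 81984]
    tri := [(0, 1, 4), (0, 1, 7), (0, 2, 4), (0, 2, 7), (1, 4, 5), (1, 5, 9), (1, 7, 8), (1, 8, 9), (2,
      3, 10), (2, 3, 11), (2, 4, 10), (2, 7, 12), (2, 11, 12), (3, 10, 13), (3, 11, 13), (4, 5,
      14), (4, 10, 14), (5, 6, 14), (5, 6, 16), (5, 9, 15), (5, 15, 16), (6, 14, 17), (6, 16, 17)]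
    fin := [0, 0, 2, 2, 0, 5, 5, 0, 8, 5, 0, 11, 12, 2, 5, 15, 16, 17]
    chd := [(5, 16), (12, 2)]
    steps := [(0, 1), (0, 4), (0, 7), (0, 10), (2, 3), (2, 13), (5, 6), (5, 9), (5, 14)] }
  rep := [0, 5, 12, 16, 11, 2, 8, 15, 17]

noncomputable def v1676 : Cov.CovD where
  P := 3
  N := 6
  pl := [1, 4, 8, 10]
  lev := [⟨[], [], [], [], [(0, 0, [])]⟩,
    ⟨[], [(0, 0), (0, 1)], [(0, 1)], [6], [(0, 0, []), (2, 1, [3])]⟩,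
    ⟨[(0, 1)], [(0, 0), (0, 2), (1, 0)], [(0, 0), (0, 2)], [4], [(0, 0, []), (3, 0, []),
      (5, 2, [5])]⟩,
    ⟨[(0, 2)], [(2, 0), (2, 2), (2, 5)], [(0, 5)], [4], [(3, 0, []), (6, 5, [2])]⟩,
    ⟨[(0, 1), (0, 2), (1, 2), (2, 3)], [(0, 0), (0, 1), (1, 0), (1, 1), (2, 0), (2, 1), (2,
      2), (3, 0)], [(0, 1)], [], [(3, 0, []), (7, 1, [3])]⟩,
    ⟨[(0, 1), (0, 4), (1, 4), (2, 4)], [(1, 0), (1, 1), (1, 3), (4, 0), (4, 1), (4, 3)],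
      [(1, 1), (1, 3)], [7], [(2, 1, [3]), (7, 1, [3]), (9, 3, [1])]⟩,
    ⟨[(1, 5), (4, 5)], [(4, 1), (5, 1), (5, 3)], [(1, 3)], [8], [(7, 1, [3]), (9, 3, [1])]⟩]
  Ta := [((0, 1), 0, 6), ((0, 5), 0, 2), ((2, 1), 1, 6), ((2, 8), 1, 7), ((3, 6), 0, 5), ((3, 7),
    0, 1), ((7, 3), 1, 0), ((7, 10), 1, 8)]
  Tb := [((0, 1, 5), 0, 6, 2), ((1, 0, 2), 6, 0, 1), ((2, 1, 8), 1, 6, 7), ((3, 6, 7), 0, 5, 1),
    ((4, 5, 6), 4, 2, 5), ((5, 0, 4), 2, 0, 4), ((6, 3, 4), 5, 0, 4), ((7, 3, 10), 1, 0, 8),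
    ((8, 2, 9), 7, 1, 3), ((9, 8, 10), 3, 7, 8), ((10, 7, 9), 8, 1, 3)]
  Tc := []
  Td := [((1, 3), (2, 1), 6), ((1, 3), (2, 8), 7), ((1, 3), (7, 3), 0), ((1, 3), (7, 10), 8),
    ((2, 5), (5, 0), 0), ((2, 5), (5, 4), 4), ((3, 1), (9, 8), 7), ((3, 1), (9, 10), 8), ((5,
    2), (6, 3), 0), ((5, 2), (6, 4), 4)]
  G := [[0, 0, 0x3a6d41a4369c1c34d69c1736d81ac2, 0x8d9243384314289ab583c472ed4273568c1c8a,
    0x63ad41a136c94ae1424e8c5b2c1d185ac2], [0, 0, 0xdd5d8c1d4dd9c1a24, 0xdd9d452dd5d8c1c28,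
    0xd4dd9c1d4dd9c4a24], [0, 0, 0, 0x214214a218b186c214218a2186186cebc4bbc4a7dc834a8c6cd2,
    0x2144218a14218ea2184218318218ea78d46b4d8ac76c87bc86ad4], [0,
    0xe2e4624e2eac62e2e8a2ceec22ec6e8ac2eecae4e8cecee2e4626ae46e2446e822e86caa4c8c9, 0,
    0xd8dd4dd5d8cd4dd9ce548dd5d8cac21, 0xdd94d4dd9ccd48d4dd9c44d9ddcea21]]

noncomputable def n1676 : Ent := ⟨e1676, noF, [], [], [(17, 13, [6903326391226443182813612567740724581985591720012749800372886074601473, 0])]⟩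

def c1676 : PLift (Cov.check n1676.C.D v1676 = true) := ⟨by decide +kernel⟩

def b1676 : PLift (entF (fidx ts) 400 1676 n1676 = true) := ⟨by decide +kernel⟩

theorem g1676 : GoodF (fidx ts) 400 1676 := GoodF.ofV v1676 n1676 c1676.down b1676.down

/-- 4577548:1397 -/
noncomputable def e1677 : SCfg where
  D := {
    a := 7
    L := 11
    kp := 9
    inn := [(0, 1), (0, 2), (1, 0), (1, 2), (1, 6), (2, 0), (2, 1), (2, 3), (2, 6), (3, 2), (3, 4), (3,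
      5), (3, 6), (4, 3), (4, 5), (4, 6), (5, 3), (5, 4), (6, 1), (6, 2), (6, 3), (6, 4)]
    mix := [(0, 0), (0, 1), (1, 1), (1, 2), (2, 0), (2, 3), (2, 4), (3, 3), (3, 5), (3, 6), (4, 7), (4,
      8), (5, 5), (5, 8), (6, 2), (6, 7), (6, 9), (6, 10)]
    cl := [1, 2, 0, 4, 7, 3, 6, 0, 5, 8, 9]
    chq := [(0, 1), (0, 3), (1, 0), (1, 3), (1, 4), (1, 6), (3, 0), (3, 1), (4, 1), (6, 1)]
    rng := [(0, 1), (0, 4), (1, 0), (1, 2), (2, 1), (2, 9), (3, 4), (3, 6), (4, 0), (4, 3), (5, 6), (5,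
      8), (6, 3), (6, 5), (7, 8), (7, 10), (8, 5), (8, 7), (9, 2), (9, 10), (10, 7), (10, 9)]
    lev := [] }
  links := [[1, 2, 7, 8], [2, 0, 8, 9, 6], [7, 0, 1, 6, 3, 10, 11], [10, 2, 6, 4, 5, 12, 13], [5, 3, 6,
    14, 15], [12, 3, 4, 15], [14, 4, 3, 2, 1, 9, 16, 17]]
  P := {
    a := 7
    N := 18
    nb := [390, 837, 3275, 13428, 49256, 36888, 213534, 2309, 643, 65858, 10252, 1156, 41000, 5128,
      163920, 20528, 131648, 81984]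
    tri := [(0, 1, 2), (0, 1, 8), (0, 2, 7), (0, 7, 8), (1, 2, 6), (1, 6, 9), (1, 8, 9), (2, 3, 6), (2,
      3, 10), (2, 7, 11), (2, 10, 11), (3, 4, 5), (3, 4, 6), (3, 5, 12), (3, 10, 13), (3, 12, 13),
      (4, 5, 15), (4, 6, 14), (4, 14, 15), (5, 12, 15), (6, 9, 16), (6, 14, 17), (6, 16, 17)]
    fin := [0, 0, 0, 0, 4, 4, 4, 0, 8, 4, 10, 11, 12, 13, 4, 15, 16, 17]
    chd := [(0, 4), (0, 10), (0, 12), (0, 13), (4, 12)]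
    steps := [(0, 1), (0, 2), (0, 3), (0, 7), (4, 5), (4, 6), (4, 9), (4, 14)] }
  rep := [4, 0, 8, 12, 10, 15, 13, 11, 16, 17]

noncomputable def v1677 : Cov.CovD where
  P := 3
  N := 7
  pl := [1, 4, 8, 9, 10]
  lev := [⟨[], [], [], [2], [(0, 1, [0, 3, 4, 6])]⟩,
    ⟨[], [(0, 0), (0, 1)], [], [2], [(2, 0, [1, 3])]⟩,
    ⟨[(0, 1)], [(0, 1), (0, 4), (1, 0), (1, 1), (1, 4)], [(1, 4)], [7], [(0, 1, [0, 3, 4,
      6]), (3, 4, [1])]⟩,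
    ⟨[(0, 2), (1, 2)], [(2, 1), (2, 3), (2, 4), (2, 6)], [(3, 4), (3, 6), (4, 6)], [], [(3,
      4, [1]), (5, 3, [0, 1]), (6, 6, [1])]⟩,
    ⟨[(2, 3)], [(3, 0), (3, 3), (3, 4), (3, 6)], [], [5], [(7, 0, [1, 3])]⟩,
    ⟨[(2, 3), (3, 4)], [(3, 3), (3, 4), (3, 6), (4, 0), (4, 3)], [], [5], [(5, 3, [0, 1])]⟩,
    ⟨[(0, 1), (0, 2), (1, 2), (1, 3), (1, 4), (2, 3), (2, 4), (3, 4), (3, 5), (4, 5)], [(1,
      0), (2, 0), (2, 1), (2, 4), (3, 0), (3, 3), (3, 4), (3, 6), (4, 0)], [(0, 0)], [8, 9],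
      [(2, 0, [1, 3]), (7, 0, [1, 3])]⟩]
  Ta := [((2, 1), 0, 2), ((2, 9), 0, 8), ((7, 8), 0, 5), ((7, 10), 0, 9)]
  Tb := [((0, 1, 4), 1, 2, 7), ((1, 0, 2), 2, 1, 0), ((2, 1, 9), 0, 2, 8), ((3, 4, 6), 4, 7, 6),
    ((4, 0, 3), 7, 1, 4), ((5, 6, 8), 3, 6, 5), ((6, 3, 5), 6, 4, 3), ((7, 8, 10), 0, 5, 9),
    ((8, 5, 7), 5, 3, 0), ((9, 2, 10), 8, 0, 9), ((10, 7, 9), 9, 0, 8)]
  Tc := [(0, 1, 3), (1, 0, 3), (1, 0, 4), (1, 0, 6), (1, 3, 4), (1, 3, 6), (1, 4, 6), (3, 0, 1)]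
  Td := [((0, 1), (2, 1), 2), ((0, 1), (2, 9), 8), ((0, 1), (7, 8), 5), ((0, 1), (7, 10), 9),
    ((0, 3), (2, 1), 2), ((0, 3), (2, 9), 8), ((0, 3), (7, 8), 5), ((0, 3), (7, 10), 9), ((1,
    0), (0, 1), 2), ((1, 0), (0, 4), 7), ((1, 3), (0, 1), 2), ((1, 3), (0, 4), 7), ((1, 4),
    (0, 1), 2), ((1, 4), (0, 4), 7), ((1, 6), (0, 1), 2), ((1, 6), (0, 4), 7), ((3, 0), (5,
    6), 6), ((3, 0), (5, 8), 5), ((3, 1), (5, 6), 6), ((3, 1), (5, 8), 5), ((4, 1), (3, 4),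
    7), ((4, 1), (3, 6), 6), ((6, 1), (6, 3), 4), ((6, 1), (6, 5), 3)]
  G := [[0, 0xe1c1a14161e181e12121e121c1e1e1c,
    0x21423a21229414144b2161af22141422a226c756182143a1a1c2221e1a1cadc61428212162182368188a5a12f8cc,
    0x414292461a1c2d2a1a1c2e121c2d2dc1,
    0x22a122a226c9126121c26121c22121c2d212252a61c188a5212481ef21a141ea12298cce122a141ef2261c1c1c6da9],
    [0, 0x6161a161a1c1e1ae1e1a145818161849, 0, 0x2242f61c2662d8a3c1e22292ce7c1e2d88381628c1,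
    0x2122c2421a21626dc222e62cf1465226dc2224c32128622321a64ad8aad41e2861afc12c12828de9212881223422622cc8c816e4c38887c292b]]

noncomputable def n1677 : Ent := ⟨e1677, noF, [], [], []⟩

def c1677 : PLift (Cov.check n1677.C.D v1677 = true) := ⟨by decide +kernel⟩

def b1677 : PLift (entF (fidx ts) 400 1677 n1677 = true) := ⟨by decide +kernel⟩

theorem g1677 : GoodF (fidx ts) 400 1677 := GoodF.ofV v1677 n1677 c1677.down b1677.down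

/-- 4674484:1401/1 -/
noncomputable def e1678 : SCfg where
  D := {
    a := 7
    L := 10
    kp := 7
    inn := [(0, 1), (0, 2), (0, 5), (1, 0), (1, 5), (2, 0), (2, 3), (2, 4), (2, 5), (3, 2), (4, 2), (5,
      0), (5, 1), (5, 2), (5, 6), (6, 5)]
    mix := [(0, 0), (1, 0), (1, 1), (1, 2), (1, 3), (2, 0), (2, 4), (2, 5), (3, 4), (3, 5), (3, 6), (4,
      0), (4, 1), (4, 5), (5, 3), (5, 4), (5, 7), (5, 8), (6, 3), (6, 7), (6, 9)]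
    cl := [0, 2, 6, 0, 0, 1, 7, 3, 4, 5]
    chq := [(0, 1), (1, 0), (4, 5), (5, 4)]
    rng := [(0, 1), (1, 0), (1, 2), (1, 5), (2, 1), (2, 3), (3, 2), (3, 9), (4, 6), (4, 8), (5, 1), (5,
      6), (6, 4), (6, 5), (7, 8), (7, 9), (8, 4), (8, 7), (9, 3), (9, 7)]
    lev := [] }
  links := [[1, 5, 2, 7], [5, 0, 7, 8, 9, 10], [7, 0, 5, 11, 3, 12, 4], [12, 2, 11, 13], [7, 2, 12, 8],
    [11, 2, 0, 1, 10, 6, 14, 15], [14, 5, 10, 16]]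
  P := {
    a := 7
    N := 17
    nb := [166, 1953, 6329, 14340, 4484, 52295, 82976, 279, 4754, 1282, 66146, 41004, 8476, 6152,
      98400, 18464, 17472]
    tri := [(0, 1, 5), (0, 1, 7), (0, 2, 5), (0, 2, 7), (1, 5, 10), (1, 7, 8), (1, 8, 9), (1, 9, 10),
      (2, 3, 11), (2, 3, 12), (2, 4, 7), (2, 4, 12), (2, 5, 11), (3, 11, 13), (3, 12, 13), (4, 7,
      8), (4, 8, 12), (5, 6, 10), (5, 6, 14), (5, 11, 15), (5, 14, 15), (6, 10, 16), (6, 14, 16)]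
    fin := [0, 0, 0, 0, 0, 5, 5, 0, 8, 9, 0, 0, 12, 13, 14, 15, 5]
    chd := [(0, 12), (15, 5)]
    steps := [(0, 1), (0, 2), (0, 3), (0, 7), (0, 4), (0, 10), (0, 11), (5, 6), (5, 16)] }
  rep := [0, 12, 8, 14, 15, 5, 9, 13]

noncomputable def v1678 : Cov.CovD where
  P := 3
  N := 5
  pl := [1, 2, 6, 7]
  lev := [⟨[], [], [], [], [(0, 0, [1])]⟩,
    ⟨[], [(0, 0)], [(0, 0)], [2, 6], [(0, 0, [1]), (3, 0, [1])]⟩,
    ⟨[(0, 1)], [(0, 0), (0, 1), (1, 0)], [(0, 0), (0, 1)], [], [(0, 0, [1]), (4, 0, [1]),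
      (5, 1, [0])]⟩,
    ⟨[(0, 2)], [(2, 0), (2, 1)], [(0, 1)], [7], [(4, 0, [1]), (5, 1, [0])]⟩,
    ⟨[(0, 2), (2, 3)], [(0, 0), (1, 0), (2, 0), (2, 1), (3, 1)], [(0, 1)], [2], [(0, 0,
      [1]), (5, 1, [0])]⟩,
    ⟨[(0, 1), (0, 2), (1, 2), (2, 3), (2, 4)], [(0, 0), (0, 4), (1, 0), (1, 4), (2, 0), (2,
      1), (2, 4), (3, 0)], [(0, 0), (0, 4)], [3], [(3, 0, [1]), (4, 0, [1]), (8, 4, [5])]⟩,
    ⟨[(0, 5), (1, 5), (2, 5)], [(1, 0), (5, 0), (5, 4), (5, 5)], [(0, 5)], [3], [(3, 0,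
      [1]), (9, 5, [4])]⟩]
  Ta := [((0, 1), 0, 2), ((3, 2), 0, 6), ((3, 9), 0, 5), ((4, 6), 0, 7), ((4, 8), 0, 4)]
  Tb := [((1, 0, 2), 2, 0, 6), ((1, 0, 5), 2, 0, 1), ((1, 2, 5), 2, 6, 1), ((2, 1, 3), 6, 2, 0),
    ((3, 2, 9), 0, 6, 5), ((4, 6, 8), 0, 7, 4), ((5, 1, 6), 1, 2, 7), ((6, 4, 5), 7, 0, 1),
    ((7, 8, 9), 3, 4, 5), ((8, 4, 7), 4, 0, 3), ((9, 3, 7), 5, 0, 3)]
  Tc := []
  Td := [((0, 1), (0, 1), 2), ((0, 1), (3, 2), 6), ((0, 1), (3, 9), 5), ((0, 1), (4, 6), 7), ((0,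
    1), (4, 8), 4), ((1, 0), (5, 1), 2), ((1, 0), (5, 6), 7), ((4, 5), (8, 4), 0), ((4, 5),
    (8, 7), 3), ((5, 4), (9, 3), 0), ((5, 4), (9, 7), 3)]
  G := [[0, 0x3564c28661c4188ca1c645ac431a4e8c2, 0x9564185ca4143418c18e2,
    0x3c6811841c344115a81cc2, 0x3c6814135e814a188148c], [0,
    0x11a4356459c4e239a851a8c144948a6c1, 0, 0xac6416841cac668c18c2, 0xac6116881c86ace81423],
    [0, 0xa16421ca461c4ca8128128659c869c8c646, 0, 0x19613c68c688188cc9164196689c6888cc2,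
    0xa5684135e8188cc94845a1e835a8cca1]]

noncomputable def n1678 : Ent := ⟨e1678, noF, [], [], []⟩

def c1678 : PLift (Cov.check n1678.C.D v1678 = true) := ⟨by decide +kernel⟩

def b1678 : PLift (entF (fidx ts) 400 1678 n1678 = true) := ⟨by decide +kernel⟩

theorem g1678 : GoodF (fidx ts) 400 1678 := GoodF.ofV v1678 n1678 c1678.down b1678.down

/-- The entries 1557 to 1678. -/
theorem rE10 : Rng (GoodF (fidx ts) 400) 1557 1679 :=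
  (((((((((((((((((((((((((((((((((((((((((((((((((((((((((((((((((((((((((((((((((((((((((((((((((((((((((((((((((((((((((((Rng.nil _ 1557).snoc g1557 rfl).snoc g1558 rfl).snoc g1559 rfl).snoc g1560 rfl).snoc g1561 rfl).snoc g1562 rfl).snoc g1563 rfl).snoc g1564 rfl).snoc g1565 rfl).snoc g1566 rfl).snoc g1567 rfl).snoc g1568 rfl).snoc g1569 rfl).snoc g1570 rfl).snoc g1571 rfl).snoc g1572 rfl).snoc g1573 rfl).snoc g1574 rfl).snoc g1575 rfl).snoc g1576 rfl).snoc g1577 rfl).snoc g1578 rfl).snoc g1579 rfl).snoc g1580 rfl).snoc g1581 rfl).snoc g1582 rfl).snoc g1583 rfl).snoc g1584 rfl).snoc g1585 rfl).snoc g1586 rfl).snoc g1587 rfl).snoc g1588 rfl).snoc g1589 rfl).snoc g1590 rfl).snoc g1591 rfl).snoc g1592 rfl).snoc g1593 rfl).snoc g1594 rfl).snoc g1595 rfl).snoc g1596 rfl).snoc g1597 rfl).snoc g1598 rfl).snoc g1599 rfl).snoc g1600 rfl).snoc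 g1601 rfl).snoc g1602 rfl).snoc g1603 rfl).snoc g1604 rfl).snoc g1605 rfl).snoc g1606 rfl).snoc g1607 rfl).snoc g1608 rfl).snoc g1609 rfl).snoc g1610 rfl).snoc g1611 rfl).snoc g1612 rfl).snoc g1613 rfl).snoc g1614 rfl).snoc g1615 rfl).snoc g1616 rfl).snoc g1617 rfl).snoc g1618 rfl).snoc g1619 rfl).snoc g1620 rfl).snoc g1621 rfl).snoc g1622 rfl).snoc g1623 rfl).snoc g1624 rfl).snoc g1625 rfl).snoc g1626 rfl).snoc g1627 rfl).snoc g1628 rfl).snoc g1629 rfl).snoc g1630 rfl).snoc g1631 rfl).snoc g1632 rfl).snoc g1633 rfl).snoc g1634 rfl).snoc g1635 rfl).snoc g1636 rfl).snoc g1637 rfl).snoc g1638 rfl).snoc g1639 rfl).snoc g1640 rfl).snoc g1641 rfl).snoc g1642 rfl).snoc g1643 rfl).snoc g1644 rfl).snoc g1645 rfl).snoc g1646 rfl).snoc g1647 rfl).snoc g1648 rfl).snoc g1649 rfl).snoc g1650 rfl).snoc g1651 rfl).snoc g1652 rfl).snoc g1653 rfl).snoc g1654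 rfl).snoc g1655 rfl).snoc g1656 rfl).snoc g1657 rfl).snoc g1658 rfl).snoc g1659 rfl).snoc g1660 rfl).snoc g1661 rfl).snoc g1662 rfl).snoc g1663 rfl).snoc g1664 rfl).snoc g1665 rfl).snoc g1666 rfl).snoc g1667 rfl).snoc g1668 rfl).snoc g1669 rfl).snoc g1670 rfl).snoc g1671 rfl).snoc g1672 rfl).snoc g1673 rfl).snoc g1674 rfl).snoc g1675 rfl).snoc g1676 rfl).snoc g1677 rfl).snoc g1678 rfl)

end Pool.Agent.W986.ST.Dat
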