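import Pool.Agent.W986.Dat.Tab
import Pool.Agent.W986.SubAltB

/-!
# Entries 1679 to 1808 of the table
-/

set_option autoImplicit false

namespace Pool.Agent.W986.ST.Dat

/-- 4674484:1401 -/
noncomputable def e1679 : SCfg where
  D := {
    a := 7
    L := 11
    kp := 8
    inn := [(0, 1), (0, 2), (0, 5), (1, 0), (1, 5), (2, 0), (2, 3), (2, 4), (2, 5), (3, 2), (4, 2), (5,
      0), (5, 1), (5, 2), (5, 6), (6, 5)]
    mix := [(0, 0), (1, 0), (1, 1), (1, 2), (1, 3), (2, 0), (2, 4), (2, 5), (3, 4), (3, 5), (3, 6), (4,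
      0), (4, 5), (4, 7), (5, 3), (5, 4), (5, 8), (5, 9), (6, 3), (6, 8), (6, 10)]
    cl := [0, 5, 6, 0, 0, 1, 7, 8, 3, 2, 4]
    chq := [(0, 1), (1, 0), (2, 4), (4, 2)]
    rng := [(0, 1), (0, 7), (1, 0), (1, 2), (2, 1), (2, 3), (3, 2), (3, 10), (4, 6), (4, 9), (5, 6),
      (5, 7), (6, 4), (6, 5), (7, 0), (7, 5), (8, 9), (8, 10), (9, 4), (9, 8), (10, 3), (10, 8)]
    lev := [] }
  links := [[1, 5, 2, 7], [5, 0, 7, 8, 9, 10], [7, 0, 5, 11, 3, 12, 4], [12, 2, 11, 13], [7, 2, 12, 14],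
    [11, 2, 0, 1, 10, 6, 15, 16], [15, 5, 10, 17]]
  P := {
    a := 7
    N := 18
    nb := [166, 1953, 6329, 14340, 20612, 101447, 164896, 16663, 642, 1282, 131682, 73772, 24604,
      6152, 4240, 196704, 34848, 33856]
    tri := [(0, 1, 5), (0, 1, 7), (0, 2, 5), (0, 2, 7), (1, 5, 10), (1, 7, 8), (1, 8, 9), (1, 9, 10),
      (2, 3, 11), (2, 3, 12), (2, 4, 7), (2, 4, 12), (2, 5, 11), (3, 11, 13), (3, 12, 13), (4, 7,
      14), (4, 12, 14), (5, 6, 10), (5, 6, 15), (5, 11, 16), (5, 15, 16), (6, 10, 17), (6, 15,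
      17)]
    fin := [0, 0, 0, 0, 0, 5, 5, 0, 8, 9, 0, 0, 12, 13, 14, 15, 16, 5]
    chd := [(0, 12), (16, 5)]
    steps := [(0, 1), (0, 2), (0, 3), (0, 4), (0, 7), (0, 10), (0, 11), (5, 6), (5, 17)] }
  rep := [0, 12, 16, 15, 5, 8, 9, 13, 14]

noncomputable def v1679 : Cov.CovD where
  P := 3
  N := 6
  pl := [1, 2, 6, 7, 8]
  lev := [⟨[], [], [], [], [(0, 0, [1])]⟩,
    ⟨[], [(0, 0)], [(0, 0)], [5, 6], [(0, 0, [1]), (3, 0, [1])]⟩,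
    ⟨[(0, 1)], [(0, 0), (0, 1), (1, 0)], [(0, 0), (0, 1)], [], [(0, 0, [1]), (4, 0, [1]),
      (5, 1, [0])]⟩,
    ⟨[(0, 2)], [(2, 0), (2, 1)], [(0, 1)], [7], [(4, 0, [1]), (5, 1, [0])]⟩,
    ⟨[(0, 2), (2, 3)], [(0, 0), (1, 0), (2, 0), (2, 1), (3, 1)], [(0, 1)], [8], [(0, 0,
      [1]), (5, 1, [0])]⟩,
    ⟨[(0, 1), (0, 2), (1, 2), (2, 3), (2, 4)], [(0, 0), (0, 2), (1, 0), (1, 2), (2, 0), (2,
      1), (2, 2), (3, 0)], [(0, 0), (0, 2)], [3], [(3, 0, [1]), (4, 0, [1]), (9, 2, [4])]⟩,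
    ⟨[(0, 5), (1, 5), (2, 5)], [(1, 0), (5, 0), (5, 2), (5, 4)], [(0, 4)], [3], [(3, 0,
      [1]), (10, 4, [2])]⟩]
  Ta := [((0, 1), 0, 5), ((0, 7), 0, 8), ((3, 2), 0, 6), ((3, 10), 0, 4), ((4, 6), 0, 7), ((4,
    9), 0, 2)]
  Tb := [((0, 1, 7), 0, 5, 8), ((1, 0, 2), 5, 0, 6), ((2, 1, 3), 6, 5, 0), ((3, 2, 10), 0, 6, 4),
    ((4, 6, 9), 0, 7, 2), ((5, 6, 7), 1, 7, 8), ((6, 4, 5), 7, 0, 1), ((7, 0, 5), 8, 0, 1),
    ((8, 9, 10), 3, 2, 4), ((9, 4, 8), 2, 0, 3), ((10, 3, 8), 4, 0, 3)]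
  Tc := []
  Td := [((0, 1), (0, 1), 5), ((0, 1), (0, 7), 8), ((0, 1), (3, 2), 6), ((0, 1), (3, 10), 4),
    ((0, 1), (4, 6), 7), ((0, 1), (4, 9), 2), ((1, 0), (5, 6), 7), ((1, 0), (5, 7), 8), ((2,
    4), (9, 4), 0), ((2, 4), (9, 8), 3), ((4, 2), (10, 3), 0), ((4, 2), (10, 8), 3)]
  G := [[0, 0x243814e18221c24ae421c21c621c12c66821c4421c812c2ace2, 0,
    0x2421cc11881c2144112c28c1c1412cc12881cc6, 0x4212c1414a14ac1414a41ac14e1848c148a], [0,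
    0x1421ca388241824ee412c21c621c12cc62341822ce21c12c6c2e1, 0, 0xe4112811c6ac118e2c114e2,
    0x4ea1146ca118e4a114e4], [0, 0x18812c2612c4248c6242341828e21c186e824212c21c621c186e8e1,
    0x11a111a1c411611161c8141411c1181cce2, 0x241421c1181cc24121c1c1818c24112c1c1818ce2,
    0x421414a18c14a14841a1414a18ce1814441a184c6]]

noncomputable def n1679 : Ent := ⟨e1679, noF, [], [], [(8, 14, [7334790875878422277917280412776772662961875900559637987928627376349185, 0])]⟩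

def c1679 : PLift (Cov.check n1679.C.D v1679 = true) := ⟨by decide +kernel⟩

def b1679 : PLift (entF (fidx ts) 400 1679 n1679 = true) := ⟨by decide +kernel⟩

theorem g1679 : GoodF (fidx ts) 400 1679 := GoodF.ofV v1679 n1679 c1679.down b1679.down

/-- 4674484:1402/2 -/
noncomputable def e1680 : SCfg where
  D := {
    a := 7
    L := 9
    kp := 6
    inn := [(0, 1), (0, 2), (0, 5), (1, 0), (1, 5), (2, 0), (2, 3), (2, 4), (2, 5), (3, 2), (4, 2), (5,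
      0), (5, 1), (5, 2), (5, 6), (6, 5)]
    mix := [(0, 0), (1, 0), (1, 1), (1, 2), (1, 3), (2, 0), (2, 4), (2, 5), (3, 4), (3, 5), (3, 6), (4,
      0), (4, 1), (4, 5), (5, 3), (5, 4), (5, 7), (5, 8), (6, 4), (6, 6), (6, 8)]
    cl := [0, 2, 6, 0, 0, 1, 3, 5, 4]
    chq := [(0, 1), (1, 0), (3, 5), (5, 3)]
    rng := [(0, 1), (1, 0), (1, 2), (1, 5), (2, 1), (2, 3), (3, 2), (3, 7), (4, 6), (5, 1), (5, 6), (6,
      4), (6, 5), (6, 8), (7, 3), (7, 8), (8, 6), (8, 7)]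
    lev := [] }
  links := [[1, 5, 2, 7], [5, 0, 7, 8, 9, 10], [7, 0, 5, 11, 3, 12, 4], [12, 2, 11, 13], [7, 2, 12, 8],
    [11, 2, 0, 1, 10, 14, 15, 6], [11, 5, 15, 13]]
  P := {
    a := 7
    N := 16
    nb := [166, 1953, 6329, 14340, 4484, 52295, 43040, 279, 4754, 1282, 16930, 8300, 8476, 38984,
      33824, 24672]
    tri := [(0, 1, 5), (0, 1, 7), (0, 2, 5), (0, 2, 7), (1, 5, 10), (1, 7, 8), (1, 8, 9), (1, 9, 10),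
      (2, 3, 11), (2, 3, 12), (2, 4, 7), (2, 4, 12), (2, 5, 11), (3, 11, 13), (3, 12, 13), (4, 7,
      8), (4, 8, 12), (5, 6, 11), (5, 6, 15), (5, 10, 14), (5, 14, 15), (6, 11, 13), (6, 13, 15)]
    fin := [0, 0, 0, 0, 0, 5, 5, 0, 8, 9, 0, 0, 12, 13, 5, 15]
    chd := [(0, 12), (13, 5)]
    steps := [(0, 1), (0, 2), (0, 3), (0, 7), (0, 4), (0, 10), (0, 11), (5, 6), (5, 14)] }
  rep := [0, 12, 8, 13, 15, 5, 9]

noncomputable def v1680 : Cov.CovD where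
  P := 3
  N := 4
  pl := [1, 2, 8]
  lev := [⟨[], [], [], [], [(0, 0, [1])]⟩,
    ⟨[], [(0, 0)], [(0, 0)], [2, 6], [(0, 0, [1]), (3, 0, [1])]⟩,
    ⟨[(0, 1)], [(0, 0), (0, 1), (1, 0)], [(0, 0), (0, 1)], [], [(0, 0, [1]), (4, 0, [1]),
      (5, 1, [0])]⟩,
    ⟨[(0, 2)], [(2, 0), (2, 1), (2, 3)], [(0, 1), (0, 3), (1, 3)], [], [(4, 0, [1]), (5, 1,
      [0]), (6, 3, [5])]⟩,
    ⟨[(0, 2), (2, 3)], [(0, 0), (1, 0), (2, 0), (2, 1), (3, 1)], [(0, 1)], [2], [(0, 0,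
      [1]), (5, 1, [0])]⟩,
    ⟨[(0, 1), (0, 2), (1, 2), (2, 3), (2, 4)], [(0, 0), (0, 5), (1, 0), (1, 5), (2, 0), (2,
      1), (2, 5), (3, 0)], [(0, 0), (0, 5)], [4], [(3, 0, [1]), (4, 0, [1]), (7, 5, [3])]⟩,
    ⟨[(0, 5), (1, 5), (2, 5)], [(2, 0), (3, 0), (3, 3), (5, 0), (5, 3), (5, 5)], [(0, 3)],
      [4], [(4, 0, [1]), (6, 3, [5])]⟩]
  Ta := [((0, 1), 0, 2), ((3, 2), 0, 6), ((3, 7), 0, 5), ((4, 6), 0, 3)]
  Tb := [((1, 0, 2), 2, 0, 6), ((1, 0, 5), 2, 0, 1), ((1, 2, 5), 2, 6, 1), ((2, 1, 3), 6, 2, 0),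
    ((3, 2, 7), 0, 6, 5), ((5, 1, 6), 1, 2, 3), ((6, 4, 5), 3, 0, 1), ((6, 4, 8), 3, 0, 4),
    ((6, 5, 8), 3, 1, 4), ((7, 3, 8), 5, 0, 4), ((8, 6, 7), 4, 3, 5)]
  Tc := []
  Td := [((0, 1), (0, 1), 2), ((0, 1), (3, 2), 6), ((0, 1), (3, 7), 5), ((0, 1), (4, 6), 3), ((1,
    0), (5, 1), 2), ((1, 0), (5, 6), 3), ((3, 5), (6, 4), 0), ((3, 5), (6, 5), 1), ((3, 5),
    (6, 8), 4), ((5, 3), (7, 3), 0), ((5, 3), (7, 8), 4)]
  G := [[0, 0xa444168c11a4588cc1c6418491628ce8c2, 0xa4c2c146841412446a8e81ce8,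
    0xa264184ac641184188cc68814ca, 0xac68146ace814a688148c], [0,
    0x218e8145e4c288812a8a9168248a6c1, 0, 0xa2668c14144248962a81cc1,
    0xac6816881c141148c6ca81ca4], [0, 0x4564344648818a4ac81a812a4a848248a6c1, 0,
    0x426846a2e8688cca446a4e4c82a48cc1, 0xca6842a6e8688cc246848a8e8688cca1]]

noncomputable def n1680 : Ent := ⟨e1680, noF, [], [], []⟩

def c1680 : PLift (Cov.check n1680.C.D v1680 = true) := ⟨by decide +kernel⟩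

def b1680 : PLift (entF (fidx ts) 400 1680 n1680 = true) := ⟨by decide +kernel⟩

theorem g1680 : GoodF (fidx ts) 400 1680 := GoodF.ofV v1680 n1680 c1680.down b1680.down

/-- 4674484:1402/1 -/
noncomputable def e1681 : SCfg where
  D := {
    a := 7
    L := 10
    kp := 7
    inn := [(0, 1), (0, 2), (0, 5), (1, 0), (1, 5), (2, 0), (2, 3), (2, 4), (2, 5), (3, 2), (4, 2), (5,
      0), (5, 1), (5, 2), (5, 6), (6, 5)]
    mix := [(0, 0), (1, 0), (1, 1), (1, 2), (1, 3), (2, 0), (2, 4), (2, 5), (3, 4), (3, 5), (3, 6), (4,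
      0), (4, 1), (4, 5), (5, 3), (5, 4), (5, 7), (5, 8), (6, 4), (6, 8), (6, 9)]
    cl := [0, 2, 6, 0, 0, 1, 7, 4, 3, 5]
    chq := [(0, 1), (1, 0), (4, 5), (5, 4)]
    rng := [(0, 1), (1, 0), (1, 2), (1, 5), (2, 1), (2, 3), (3, 2), (3, 7), (4, 6), (4, 9), (5, 1), (5,
      6), (6, 4), (6, 5), (7, 3), (7, 8), (8, 7), (8, 9), (9, 4), (9, 8)]
    lev := [] }
  links := [[1, 5, 2, 7], [5, 0, 7, 8, 9, 10], [7, 0, 5, 11, 3, 12, 4], [12, 2, 11, 13], [7, 2, 12, 8],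
    [11, 2, 0, 1, 10, 14, 15, 6], [11, 5, 15, 16]]
  P := {
    a := 7
    N := 17
    nb := [166, 1953, 6329, 14340, 4484, 52295, 100384, 279, 4754, 1282, 16930, 73836, 8476, 6152,
      33824, 82016, 34880]
    tri := [(0, 1, 5), (0, 1, 7), (0, 2, 5), (0, 2, 7), (1, 5, 10), (1, 7, 8), (1, 8, 9), (1, 9, 10),
      (2, 3, 11), (2, 3, 12), (2, 4, 7), (2, 4, 12), (2, 5, 11), (3, 11, 13), (3, 12, 13), (4, 7,
      8), (4, 8, 12), (5, 6, 11), (5, 6, 15), (5, 10, 14), (5, 14, 15), (6, 11, 16), (6, 15, 16)]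
    fin := [0, 0, 0, 0, 0, 5, 5, 0, 8, 9, 0, 0, 12, 13, 5, 15, 16]
    chd := [(0, 12), (5, 16)]
    steps := [(0, 1), (0, 2), (0, 3), (0, 7), (0, 4), (0, 10), (0, 11), (5, 6), (5, 14)] }
  rep := [0, 12, 8, 15, 5, 16, 9, 13]

noncomputable def v1681 : Cov.CovD where
  P := 3
  N := 5
  pl := [1, 2, 6, 8]
  lev := [⟨[], [], [], [], [(0, 0, [1])]⟩,
    ⟨[], [(0, 0)], [(0, 0)], [2, 6], [(0, 0, [1]), (3, 0, [1])]⟩,
    ⟨[(0, 1)], [(0, 0), (0, 1), (1, 0)], [(0, 0), (0, 1)], [], [(0, 0, [1]), (4, 0, [1]),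
      (5, 1, [0])]⟩,
    ⟨[(0, 2)], [(2, 0), (2, 1)], [(0, 1)], [7], [(4, 0, [1]), (5, 1, [0])]⟩,
    ⟨[(0, 2), (2, 3)], [(0, 0), (1, 0), (2, 0), (2, 1), (3, 1)], [(0, 1)], [2], [(0, 0,
      [1]), (5, 1, [0])]⟩,
    ⟨[(0, 1), (0, 2), (1, 2), (2, 3), (2, 4)], [(0, 0), (0, 4), (1, 0), (1, 4), (2, 0), (2,
      1), (2, 4), (3, 0)], [(0, 0), (0, 4)], [3], [(3, 0, [1]), (4, 0, [1]), (7, 4, [5])]⟩,
    ⟨[(0, 5), (1, 5), (2, 5)], [(2, 0), (3, 0), (5, 0), (5, 4), (5, 5)], [(0, 5)], [3],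
      [(4, 0, [1]), (9, 5, [4])]⟩]
  Ta := [((0, 1), 0, 2), ((3, 2), 0, 6), ((3, 7), 0, 4), ((4, 6), 0, 7), ((4, 9), 0, 5)]
  Tb := [((1, 0, 2), 2, 0, 6), ((1, 0, 5), 2, 0, 1), ((1, 2, 5), 2, 6, 1), ((2, 1, 3), 6, 2, 0),
    ((3, 2, 7), 0, 6, 4), ((4, 6, 9), 0, 7, 5), ((5, 1, 6), 1, 2, 7), ((6, 4, 5), 7, 0, 1),
    ((7, 3, 8), 4, 0, 3), ((8, 7, 9), 3, 4, 5), ((9, 4, 8), 5, 0, 3)]
  Tc := []
  Td := [((0, 1), (0, 1), 2), ((0, 1), (3, 2), 6), ((0, 1), (3, 7), 4), ((0, 1), (4, 6), 7), ((0,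
    1), (4, 9), 5), ((1, 0), (5, 1), 2), ((1, 0), (5, 6), 7), ((4, 5), (7, 3), 0), ((4, 5),
    (7, 8), 3), ((5, 4), (9, 4), 0), ((5, 4), (9, 8), 3)]
  G := [[0, 0x3564c28661c4188ca1c645ac431a4e8c2, 0xa4416ca81cac6416841c68,
    0xac6416841ca4816ca41cc2, 0x6ace8142ac6816881c8a], [0, 0x61a81c681ac4e23c6491668c184e8c1,
    0, 0xac6116811ca4416ca81cc2, 0x6ace814a468918ac281423], [0,
    0x356821418c69a8cc1168944639a4584acc2, 0, 0xac64a44c6886ca8ccac646ace4c6848cc1,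
    0xa4846ace86ca8cca4846ace86ca8cca1]]

noncomputable def n1681 : Ent := ⟨e1681, noF, [], [], [(16, 13, [1580044429602293643470024699863340111275081426260889765897799532545, 0])]⟩

def c1681 : PLift (Cov.check n1681.C.D v1681 = true) := ⟨by decide +kernel⟩

def b1681 : PLift (entF (fidx ts) 400 1681 n1681 = true) := ⟨by decide +kernel⟩

theorem g1681 : GoodF (fidx ts) 400 1681 := GoodF.ofV v1681 n1681 c1681.down b1681.down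

/-- 4674484:1402/3 -/
noncomputable def e1682 : SCfg where
  D := {
    a := 7
    L := 10
    kp := 7
    inn := [(0, 1), (0, 2), (0, 5), (1, 0), (1, 5), (2, 0), (2, 3), (2, 4), (2, 5), (3, 2), (4, 2), (5,
      0), (5, 1), (5, 2), (5, 6), (6, 5)]
    mix := [(0, 0), (1, 0), (1, 1), (1, 2), (1, 3), (2, 0), (2, 4), (2, 5), (3, 4), (3, 5), (3, 6), (4,
      0), (4, 5), (4, 7), (5, 3), (5, 4), (5, 8), (5, 9), (6, 4), (6, 6), (6, 9)]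
    cl := [0, 5, 6, 0, 0, 1, 2, 7, 4, 3]
    chq := [(0, 1), (1, 0), (2, 4), (4, 2)]
    rng := [(0, 1), (0, 7), (1, 0), (1, 2), (2, 1), (2, 3), (3, 2), (3, 8), (4, 6), (5, 6), (5, 7), (6,
      4), (6, 5), (6, 9), (7, 0), (7, 5), (8, 3), (8, 9), (9, 6), (9, 8)]
    lev := [] }
  links := [[1, 5, 2, 7], [5, 0, 7, 8, 9, 10], [7, 0, 5, 11, 3, 12, 4], [12, 2, 11, 13], [7, 2, 12, 14],
    [11, 2, 0, 1, 10, 15, 16, 6], [11, 5, 16, 13]]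
  P := {
    a := 7
    N := 17
    nb := [166, 1953, 6329, 14340, 20612, 101447, 75808, 16663, 642, 1282, 33314, 8300, 24604, 71752,
      4240, 66592, 41056]
    tri := [(0, 1, 5), (0, 1, 7), (0, 2, 5), (0, 2, 7), (1, 5, 10), (1, 7, 8), (1, 8, 9), (1, 9, 10),
      (2, 3, 11), (2, 3, 12), (2, 4, 7), (2, 4, 12), (2, 5, 11), (3, 11, 13), (3, 12, 13), (4, 7,
      14), (4, 12, 14), (5, 6, 11), (5, 6, 16), (5, 10, 15), (5, 15, 16), (6, 11, 13), (6, 13,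
      16)]
    fin := [0, 0, 0, 0, 0, 5, 5, 0, 8, 9, 0, 0, 12, 13, 14, 5, 16]
    chd := [(0, 12), (13, 5)]
    steps := [(0, 1), (0, 2), (0, 3), (0, 4), (0, 7), (0, 10), (0, 11), (5, 6), (5, 15)] }
  rep := [0, 12, 13, 16, 5, 8, 9, 14]

noncomputable def v1682 : Cov.CovD where
  P := 3
  N := 5
  pl := [1, 2, 7, 9]
  lev := [⟨[], [], [], [], [(0, 0, [1])]⟩,
    ⟨[], [(0, 0)], [(0, 0)], [5, 6], [(0, 0, [1]), (3, 0, [1])]⟩,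
    ⟨[(0, 1)], [(0, 0), (0, 1), (1, 0)], [(0, 0), (0, 1)], [], [(0, 0, [1]), (4, 0, [1]),
      (5, 1, [0])]⟩,
    ⟨[(0, 2)], [(2, 0), (2, 1), (2, 2)], [(0, 1), (0, 2), (1, 2)], [], [(4, 0, [1]), (5, 1,
      [0]), (6, 2, [4])]⟩,
    ⟨[(0, 2), (2, 3)], [(0, 0), (1, 0), (2, 0), (2, 1), (3, 1)], [(0, 1)], [7], [(0, 0,
      [1]), (5, 1, [0])]⟩,
    ⟨[(0, 1), (0, 2), (1, 2), (2, 3), (2, 4)], [(0, 0), (0, 4), (1, 0), (1, 4), (2, 0), (2,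
      1), (2, 4), (3, 0)], [(0, 0), (0, 4)], [3], [(3, 0, [1]), (4, 0, [1]), (8, 4, [2])]⟩,
    ⟨[(0, 5), (1, 5), (2, 5)], [(2, 0), (3, 0), (3, 2), (5, 0), (5, 2), (5, 4)], [(0, 2)],
      [3], [(4, 0, [1]), (6, 2, [4])]⟩]
  Ta := [((0, 1), 0, 5), ((0, 7), 0, 7), ((3, 2), 0, 6), ((3, 8), 0, 4), ((4, 6), 0, 2)]
  Tb := [((0, 1, 7), 0, 5, 7), ((1, 0, 2), 5, 0, 6), ((2, 1, 3), 6, 5, 0), ((3, 2, 8), 0, 6, 4),
    ((5, 6, 7), 1, 2, 7), ((6, 4, 5), 2, 0, 1), ((6, 4, 9), 2, 0, 3), ((6, 5, 9), 2, 1, 3),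
    ((7, 0, 5), 7, 0, 1), ((8, 3, 9), 4, 0, 3), ((9, 6, 8), 3, 2, 4)]
  Tc := []
  Td := [((0, 1), (0, 1), 5), ((0, 1), (0, 7), 7), ((0, 1), (3, 2), 6), ((0, 1), (3, 8), 4), ((0,
    1), (4, 6), 2), ((1, 0), (5, 6), 2), ((1, 0), (5, 7), 7), ((2, 4), (6, 4), 0), ((2, 4),
    (6, 5), 1), ((2, 4), (6, 9), 3), ((4, 2), (8, 3), 0), ((4, 2), (8, 9), 3)]
  G := [[0, 0x1c6896a41818a8a1468261161818ec8a481a815ee84e1, 0, 0xc2c2c149244c281c5252c84e8,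
    0x124818a88c218648631e28c8c144a4c2c981a88c8ca44a428c98e6], [0,
    0x1441ca15ac2ac48961c6618486c8814e81a186e84e1, 0, 0x52144c2148c2184e8,
    0x121842186182811c316188811c89c184ea], [0,
    0x4162448c1cac8c19a81ac81484c8641612c48884cc4ae1, 0xa26146818c8ca184aac6148818c4414866,
    0xc2184c2144c2184e8, 0x821882a86182818ca4188ca18ca4188818ce6]]

noncomputable def n1682 : Ent := ⟨e1682, noF, [], [], [(8, 14, [1685382413448253767852309107433119732572617628602273068445371793409, 0])]⟩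

def c1682 : PLift (Cov.check n1682.C.D v1682 = true) := ⟨by decide +kernel⟩

def b1682 : PLift (entF (fidx ts) 400 1682 n1682 = true) := ⟨by decide +kernel⟩

theorem g1682 : GoodF (fidx ts) 400 1682 := GoodF.ofV v1682 n1682 c1682.down b1682.down

/-- 4674484:1402 -/
noncomputable def e1683 : SCfg where
  D := {
    a := 7
    L := 11
    kp := 8
    inn := [(0, 1), (0, 2), (0, 5), (1, 0), (1, 5), (2, 0), (2, 3), (2, 4), (2, 5), (3, 2), (4, 2), (5,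
      0), (5, 1), (5, 2), (5, 6), (6, 5)]
    mix := [(0, 0), (1, 0), (1, 1), (1, 2), (1, 3), (2, 0), (2, 4), (2, 5), (3, 4), (3, 5), (3, 6), (4,
      0), (4, 5), (4, 7), (5, 3), (5, 4), (5, 8), (5, 9), (6, 4), (6, 9), (6, 10)]
    cl := [0, 5, 6, 0, 0, 1, 7, 8, 2, 3, 4]
    chq := [(0, 1), (1, 0), (2, 4), (4, 2)]
    rng := [(0, 1), (0, 7), (1, 0), (1, 2), (2, 1), (2, 3), (3, 2), (3, 8), (4, 6), (4, 10), (5, 6),
      (5, 7), (6, 4), (6, 5), (7, 0), (7, 5), (8, 3), (8, 9), (9, 8), (9, 10), (10, 4), (10, 9)]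
    lev := [] }
  links := [[1, 5, 2, 7], [5, 0, 7, 8, 9, 10], [7, 0, 5, 11, 3, 12, 4], [12, 2, 11, 13], [7, 2, 12, 14],
    [11, 2, 0, 1, 10, 15, 16, 6], [11, 5, 16, 17]]
  P := {
    a := 7
    N := 18
    nb := [166, 1953, 6329, 14340, 20612, 101447, 198688, 16663, 642, 1282, 33314, 139372, 24604,
      6152, 4240, 66592, 163936, 67648]
    tri := [(0, 1, 5), (0, 1, 7), (0, 2, 5), (0, 2, 7), (1, 5, 10), (1, 7, 8), (1, 8, 9), (1, 9, 10),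
      (2, 3, 11), (2, 3, 12), (2, 4, 7), (2, 4, 12), (2, 5, 11), (3, 11, 13), (3, 12, 13), (4, 7,
      14), (4, 12, 14), (5, 6, 11), (5, 6, 16), (5, 10, 15), (5, 15, 16), (6, 11, 17), (6, 16,
      17)]
    fin := [0, 0, 0, 0, 0, 5, 5, 0, 8, 9, 0, 0, 12, 13, 14, 5, 16, 17]
    chd := [(0, 12), (5, 17)]
    steps := [(0, 1), (0, 2), (0, 3), (0, 4), (0, 7), (0, 10), (0, 11), (5, 6), (5, 15)] }
  rep := [0, 12, 5, 16, 17, 8, 9, 13, 14]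

noncomputable def v1683 : Cov.CovD where
  P := 3
  N := 6
  pl := [1, 2, 6, 7, 9]
  lev := [⟨[], [], [], [], [(0, 0, [1])]⟩,
    ⟨[], [(0, 0)], [(0, 0)], [5, 6], [(0, 0, [1]), (3, 0, [1])]⟩,
    ⟨[(0, 1)], [(0, 0), (0, 1), (1, 0)], [(0, 0), (0, 1)], [], [(0, 0, [1]), (4, 0, [1]),
      (5, 1, [0])]⟩,
    ⟨[(0, 2)], [(2, 0), (2, 1)], [(0, 1)], [7], [(4, 0, [1]), (5, 1, [0])]⟩,
    ⟨[(0, 2), (2, 3)], [(0, 0), (1, 0), (2, 0), (2, 1), (3, 1)], [(0, 1)], [8], [(0, 0,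
      [1]), (5, 1, [0])]⟩,
    ⟨[(0, 1), (0, 2), (1, 2), (2, 3), (2, 4)], [(0, 0), (0, 2), (1, 0), (1, 2), (2, 0), (2,
      1), (2, 2), (3, 0)], [(0, 0), (0, 2)], [3], [(3, 0, [1]), (4, 0, [1]), (8, 2, [4])]⟩,
    ⟨[(0, 5), (1, 5), (2, 5)], [(2, 0), (3, 0), (5, 0), (5, 2), (5, 4)], [(0, 4)], [3],
      [(4, 0, [1]), (10, 4, [2])]⟩]
  Ta := [((0, 1), 0, 5), ((0, 7), 0, 8), ((3, 2), 0, 6), ((3, 8), 0, 2), ((4, 6), 0, 7), ((4,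
    10), 0, 4)]
  Tb := [((0, 1, 7), 0, 5, 8), ((1, 0, 2), 5, 0, 6), ((2, 1, 3), 6, 5, 0), ((3, 2, 8), 0, 6, 2),
    ((4, 6, 10), 0, 7, 4), ((5, 6, 7), 1, 7, 8), ((6, 4, 5), 7, 0, 1), ((7, 0, 5), 8, 0, 1),
    ((8, 3, 9), 2, 0, 3), ((9, 8, 10), 3, 2, 4), ((10, 4, 9), 4, 0, 3)]
  Tc := []
  Td := [((0, 1), (0, 1), 5), ((0, 1), (0, 7), 8), ((0, 1), (3, 2), 6), ((0, 1), (3, 8), 2), ((0,
    1), (4, 6), 7), ((0, 1), (4, 10), 4), ((1, 0), (5, 6), 7), ((1, 0), (5, 7), 8), ((2, 4),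
    (8, 3), 0), ((2, 4), (8, 9), 3), ((4, 2), (10, 4), 0), ((4, 2), (10, 9), 3)]
  G := [[0, 0x243814e18221c24ae421c21c621c12c66821c4421c812c2ace2, 0,
    0xe4416ac28c1c144144248de828c1c64416aca8c1ce2, 0x4241c281c26ca6cac14e4a6cac1468e8c14e6],
    [0, 0x12c21ca12c21caa414412c21428ce2888a241824e18221c24ae4e2,
    0x84114ea11c11a1482411e4a11ce11a18446, 0x2411181181cc6ac1182ec118e2,
    0xe2114811c4ea118e4a114e4], [0,
    0x244142628222418c188ce21c21ca142821cea4621c812c212c4e289, 0,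
    0xe4146ac1281cc2416ac1ce818c2414e2c1e81cce2, 0x6214ea1c84216ca1ce818c66ca16ca1c4c8184c6]]

noncomputable def n1683 : Ent := ⟨e1683, noF, [], [], [(8, 14, [7334790875878422277917280412776772662961875900559637987928627376361473, 0]), (17, 13, [6903326391226443182813612567740724581985591720012749800372886074630145, 0])]⟩

def c1683 : PLift (Cov.check n1683.C.D v1683 = true) := ⟨by decide +kernel⟩

def b1683 : PLift (entF (fidx ts) 400 1683 n1683 = true) := ⟨by decide +kernel⟩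

theorem g1683 : GoodF (fidx ts) 400 1683 := GoodF.ofV v1683 n1683 c1683.down b1683.down

/-- 4674845:1406/1 -/
noncomputable def e1684 : SCfg where
  D := {
    a := 7
    L := 10
    kp := 7
    inn := [(0, 1), (0, 2), (0, 4), (1, 0), (1, 4), (2, 0), (2, 3), (2, 4), (3, 2), (4, 0), (4, 1), (4,
      2), (4, 5), (4, 6), (5, 4), (5, 6), (6, 4), (6, 5)]
    mix := [(0, 0), (1, 0), (1, 1), (1, 2), (1, 3), (2, 0), (2, 4), (2, 5), (2, 6), (3, 4), (3, 5), (3,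
      7), (4, 3), (4, 4), (4, 8), (5, 8), (5, 9), (6, 4), (6, 7), (6, 9)]
    cl := [0, 5, 6, 0, 0, 3, 7, 1, 2, 4]
    chq := [(0, 3), (1, 2), (2, 1), (3, 0)]
    rng := [(0, 1), (0, 6), (1, 0), (1, 2), (2, 1), (2, 3), (3, 2), (3, 8), (4, 7), (5, 6), (5, 7), (6,
      0), (6, 5), (7, 4), (7, 5), (7, 9), (8, 3), (8, 9), (9, 7), (9, 8)]
    lev := [] }
  links := [[1, 4, 2, 7], [4, 0, 7, 8, 9, 10], [7, 0, 4, 11, 3, 12, 13], [12, 2, 11, 14], [11, 2, 0, 1,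
    10, 15, 5, 6], [6, 4, 15, 16], [11, 4, 5, 16, 14]]
  P := {
    a := 7
    N := 17
    nb := [150, 1937, 14489, 22532, 35943, 98384, 84016, 8455, 642, 1282, 33298, 16476, 24588, 4228,
      71752, 66608, 49248]
    tri := [(0, 1, 4), (0, 1, 7), (0, 2, 4), (0, 2, 7), (1, 4, 10), (1, 7, 8), (1, 8, 9), (1, 9, 10),
      (2, 3, 11), (2, 3, 12), (2, 4, 11), (2, 7, 13), (2, 12, 13), (3, 11, 14), (3, 12, 14), (4,
      5, 6), (4, 5, 15), (4, 6, 11), (4, 10, 15), (5, 6, 16), (5, 15, 16), (6, 11, 14), (6, 14,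
      16)]
    fin := [0, 0, 0, 0, 0, 5, 5, 0, 8, 9, 0, 0, 12, 13, 14, 5, 16]
    chd := [(0, 12), (14, 5)]
    steps := [(0, 1), (0, 2), (0, 3), (0, 4), (0, 7), (0, 10), (0, 11), (5, 6), (5, 15)] }
  rep := [0, 14, 5, 12, 16, 8, 9, 13]

noncomputable def v1684 : Cov.CovD where
  P := 3
  N := 5
  pl := [1, 2, 6, 9]
  lev := [⟨[], [], [], [], [(0, 0, [3])]⟩,
    ⟨[], [(0, 0)], [(0, 0)], [5, 6], [(0, 0, [3]), (3, 0, [3])]⟩,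
    ⟨[(0, 1)], [(0, 0), (0, 3), (1, 0)], [(0, 0), (0, 3)], [7], [(0, 0, [3]), (4, 0, [3]),
      (5, 3, [0])]⟩,
    ⟨[(0, 2)], [(2, 0), (2, 1), (2, 3)], [(0, 1), (0, 3), (1, 3)], [], [(4, 0, [3]), (5, 3,
      [0]), (7, 1, [2])]⟩,
    ⟨[(0, 1), (0, 2), (1, 2), (2, 3)], [(0, 0), (0, 2), (1, 0), (1, 2), (2, 0), (2, 2), (2,
      3), (3, 0)], [(0, 0), (0, 2)], [], [(3, 0, [3]), (4, 0, [3]), (8, 2, [1])]⟩,
    ⟨[(0, 4), (1, 4), (2, 4)], [(4, 0), (4, 2)], [], [4], [(8, 2, [1])]⟩,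
    ⟨[(0, 4), (1, 4), (2, 4), (4, 5)], [(2, 0), (3, 0), (3, 1), (4, 0), (4, 1), (4, 2), (5,
      0), (5, 1), (5, 2)], [(0, 1)], [4], [(4, 0, [3]), (7, 1, [2])]⟩]
  Ta := [((0, 1), 0, 5), ((0, 6), 0, 7), ((3, 2), 0, 6), ((3, 8), 0, 2), ((4, 7), 0, 1)]
  Tb := [((0, 1, 6), 0, 5, 7), ((1, 0, 2), 5, 0, 6), ((2, 1, 3), 6, 5, 0), ((3, 2, 8), 0, 6, 2),
    ((5, 6, 7), 3, 7, 1), ((6, 0, 5), 7, 0, 3), ((7, 4, 5), 1, 0, 3), ((7, 4, 9), 1, 0, 4),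
    ((7, 5, 9), 1, 3, 4), ((8, 3, 9), 2, 0, 4), ((9, 7, 8), 4, 1, 2)]
  Tc := []
  Td := [((0, 3), (0, 1), 5), ((0, 3), (0, 6), 7), ((0, 3), (3, 2), 6), ((0, 3), (3, 8), 2), ((0,
    3), (4, 7), 1), ((1, 2), (7, 4), 0), ((1, 2), (7, 5), 3), ((1, 2), (7, 9), 4), ((2, 1),
    (8, 3), 0), ((2, 1), (8, 9), 4), ((3, 0), (5, 6), 7), ((3, 0), (5, 7), 1)]
  G := [[0, 0, 0, 0xc241229242528282c41e21a48c28282381e82c48c284cea,
    0x84924428492884921a14a2884921a8492884381ae849244849244ce], [0, 0,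
    0x1164841a244488c1e81a4811a2484c21e1164884c2148681ee1,
    0x924881a4242381e52822298482341e82348c28442341ee1,
    0x8492881a2484921e4832884a2484921e849288492448381ee1], [0,
    0xa18444c1486184c142ea148a182a82c4824c8482942ee3, 0,
    0x485284258422584238ce2294822c84c282298cec24842984c24c28cee1,
    0x84a2884a2484928492ce84a284838484928492ce4c9288492484384ca8cee1]]

noncomputable def n1684 : Ent := ⟨e1684, noF, [], [], []⟩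

def c1684 : PLift (Cov.check n1684.C.D v1684 = true) := ⟨by decide +kernel⟩

def b1684 : PLift (entF (fidx ts) 400 1684 n1684 = true) := ⟨by decide +kernel⟩

theorem g1684 : GoodF (fidx ts) 400 1684 := GoodF.ofV v1684 n1684 c1684.down b1684.down

/-- 4674845:1406 -/
noncomputable def e1685 : SCfg where
  D := {
    a := 7
    L := 11
    kp := 8
    inn := [(0, 1), (0, 2), (0, 4), (1, 0), (1, 4), (2, 0), (2, 3), (2, 4), (3, 2), (4, 0), (4, 1), (4,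
      2), (4, 5), (4, 6), (5, 4), (5, 6), (6, 4), (6, 5)]
    mix := [(0, 0), (1, 0), (1, 1), (1, 2), (1, 3), (2, 0), (2, 4), (2, 5), (2, 6), (3, 4), (3, 5), (3,
      7), (4, 3), (4, 4), (4, 8), (5, 8), (5, 9), (6, 4), (6, 9), (6, 10)]
    cl := [0, 7, 8, 0, 0, 3, 2, 5, 1, 4, 6]
    chq := [(1, 6), (2, 5), (5, 2), (6, 1)]
    rng := [(0, 1), (0, 6), (1, 0), (1, 2), (2, 1), (2, 3), (3, 2), (3, 8), (4, 7), (4, 10), (5, 6),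
      (5, 7), (6, 0), (6, 5), (7, 4), (7, 5), (8, 3), (8, 9), (9, 8), (9, 10), (10, 4), (10, 9)]
    lev := [] }
  links := [[1, 4, 2, 7], [4, 0, 7, 8, 9, 10], [7, 0, 4, 11, 3, 12, 13], [12, 2, 11, 14], [11, 2, 0, 1,
    10, 15, 5, 6], [6, 4, 15, 16], [11, 4, 5, 16, 17]]
  P := {
    a := 7
    N := 18
    nb := [150, 1937, 14489, 22532, 35943, 98384, 198704, 8455, 642, 1282, 33298, 147548, 24588, 4228,
      6152, 66608, 163936, 67648]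
    tri := [(0, 1, 4), (0, 1, 7), (0, 2, 4), (0, 2, 7), (1, 4, 10), (1, 7, 8), (1, 8, 9), (1, 9, 10),
      (2, 3, 11), (2, 3, 12), (2, 4, 11), (2, 7, 13), (2, 12, 13), (3, 11, 14), (3, 12, 14), (4,
      5, 6), (4, 5, 15), (4, 6, 11), (4, 10, 15), (5, 6, 16), (5, 15, 16), (6, 11, 17), (6, 16,
      17)]
    fin := [0, 0, 2, 2, 0, 5, 5, 0, 8, 9, 0, 0, 12, 13, 2, 5, 16, 17]
    chd := [(5, 17), (13, 2)]
    steps := [(0, 1), (0, 4), (0, 7), (0, 10), (0, 11), (2, 3), (2, 14), (5, 6), (5, 15)] }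
  rep := [0, 5, 13, 12, 16, 2, 17, 8, 9]

noncomputable def v1685 : Cov.CovD where
  P := 3
  N := 6
  pl := [1, 2, 5, 9]
  lev := [⟨[], [], [], [], [(0, 0, [])]⟩,
    ⟨[], [(0, 0)], [(0, 0)], [7, 8], [(0, 0, []), (3, 0, [])]⟩,
    ⟨[(0, 1)], [(0, 0), (0, 2), (1, 0)], [(0, 0), (0, 2)], [3], [(0, 0, []), (4, 0, []),
      (6, 2, [5])]⟩,
    ⟨[(0, 2)], [(2, 0), (2, 2), (2, 5)], [(0, 5)], [3], [(4, 0, []), (7, 5, [2])]⟩,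
    ⟨[(0, 1), (0, 2), (1, 2), (2, 3)], [(0, 0), (0, 1), (1, 0), (1, 1), (2, 0), (2, 1), (2,
      2), (3, 0)], [(0, 0), (0, 1)], [], [(3, 0, []), (4, 0, []), (8, 1, [6])]⟩,
    ⟨[(0, 4), (1, 4), (2, 4)], [(4, 0), (4, 1)], [], [4], [(8, 1, [6])]⟩,
    ⟨[(0, 4), (1, 4), (2, 4), (4, 5)], [(2, 0), (3, 0), (4, 0), (4, 1), (4, 6), (5, 0), (5,
      1), (5, 6)], [(0, 6)], [4], [(4, 0, []), (10, 6, [1])]⟩]
  Ta := [((0, 1), 0, 7), ((0, 6), 0, 2), ((3, 2), 0, 8), ((3, 8), 0, 1), ((4, 7), 0, 5), ((4,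
    10), 0, 6)]
  Tb := [((0, 1, 6), 0, 7, 2), ((1, 0, 2), 7, 0, 8), ((2, 1, 3), 8, 7, 0), ((3, 2, 8), 0, 8, 1),
    ((4, 7, 10), 0, 5, 6), ((5, 6, 7), 3, 2, 5), ((6, 0, 5), 2, 0, 3), ((7, 4, 5), 5, 0, 3),
    ((8, 3, 9), 1, 0, 4), ((9, 8, 10), 4, 1, 6), ((10, 4, 9), 6, 0, 4)]
  Tc := []
  Td := [((1, 6), (8, 3), 0), ((1, 6), (8, 9), 4), ((2, 5), (6, 0), 0), ((2, 5), (6, 5), 3), ((5,
    2), (7, 4), 0), ((5, 2), (7, 5), 3), ((6, 1), (10, 4), 0), ((6, 1), (10, 9), 4)]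
  G := [[0, 0, 0x144814828456a941e2ec8148829c162e541442a9c1ce2,
    0x21c4241a29c1c64a1c132582ce2c411428c2ce2, 0x2e541226a94121c44a442a9c132944a325848ea],
    [0, 0xa6c2111682c11a42a6c21cc6a4111a82ce1, 0,
    0x3258241428c28a2e5418329422ec81c48829c14e6, 0x3294441a29c1a325846a981a32584c2581ae4],
    [0, 0, 0, 0xe2c4814e2c4e625864a1c6c829462581ca448482d82ec8ecc294c294a2e986a586ce2,
    0x2e946a94c2148cc6ac46a829462581cc4886a586a98eaa65442588c6c294c258cae1]]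

noncomputable def n1685 : Ent := ⟨e1685, noF, [], [], [(17, 14, [6903326468334360900303599070699561856668565975414084080169086031052801, 0])]⟩

def c1685 : PLift (Cov.check n1685.C.D v1685 = true) := ⟨by decide +kernel⟩

def b1685 : PLift (entF (fidx ts) 400 1685 n1685 = true) := ⟨by decide +kernel⟩

theorem g1685 : GoodF (fidx ts) 400 1685 := GoodF.ofV v1685 n1685 c1685.down b1685.down

/-- 4674845:1407/1 -/
noncomputable def e1686 : SCfg where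
  D := {
    a := 7
    L := 10
    kp := 7
    inn := [(0, 1), (0, 2), (0, 4), (1, 0), (1, 4), (2, 0), (2, 3), (2, 4), (3, 2), (4, 0), (4, 1), (4,
      2), (4, 5), (4, 6), (5, 4), (5, 6), (6, 4), (6, 5)]
    mix := [(0, 0), (1, 0), (1, 1), (1, 2), (1, 3), (2, 0), (2, 4), (2, 5), (2, 6), (3, 4), (3, 5), (3,
      7), (4, 3), (4, 4), (4, 8), (5, 4), (5, 7), (6, 7), (6, 8), (6, 9)]
    cl := [0, 4, 5, 0, 0, 2, 6, 1, 3, 7]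
    chq := [(0, 2), (1, 3), (2, 0), (3, 1)]
    rng := [(0, 1), (0, 6), (1, 0), (1, 2), (2, 1), (2, 3), (3, 2), (3, 8), (4, 7), (5, 6), (5, 7), (6,
      0), (6, 5), (7, 4), (7, 5), (7, 9), (8, 3), (8, 9), (9, 7), (9, 8)]
    lev := [] }
  links := [[1, 4, 2, 7], [4, 0, 7, 8, 9, 10], [7, 0, 4, 11, 3, 12, 13], [12, 2, 11, 14], [11, 2, 0, 1,
    10, 15, 6, 5], [11, 4, 6, 14], [14, 5, 4, 15, 16]]
  P := {
    a := 7
    N := 17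
    nb := [150, 1937, 14489, 22532, 35943, 18512, 114736, 8455, 642, 1282, 33298, 16444, 24588, 4228,
      71784, 66640, 49216]
    tri := [(0, 1, 4), (0, 1, 7), (0, 2, 4), (0, 2, 7), (1, 4, 10), (1, 7, 8), (1, 8, 9), (1, 9, 10),
      (2, 3, 11), (2, 3, 12), (2, 4, 11), (2, 7, 13), (2, 12, 13), (3, 11, 14), (3, 12, 14), (4,
      5, 6), (4, 5, 11), (4, 6, 15), (4, 10, 15), (5, 6, 14), (5, 11, 14), (6, 14, 16), (6, 15,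
      16)]
    fin := [0, 0, 0, 0, 0, 0, 6, 0, 8, 9, 0, 0, 12, 13, 14, 6, 16]
    chd := [(0, 12), (14, 6)]
    steps := [(0, 1), (0, 2), (0, 3), (0, 4), (0, 7), (0, 10), (0, 11), (0, 5), (6, 15)] }
  rep := [0, 14, 12, 6, 8, 9, 13, 16]

noncomputable def v1686 : Cov.CovD where
  P := 3
  N := 5
  pl := [1, 2, 6, 9]
  lev := [⟨[], [], [], [], [(0, 0, [2])]⟩,
    ⟨[], [(0, 0)], [(0, 0)], [4, 5], [(0, 0, [2]), (3, 0, [2])]⟩,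
    ⟨[(0, 1)], [(0, 0), (0, 2), (1, 0)], [(0, 0), (0, 2)], [6], [(0, 0, [2]), (4, 0, [2]),
      (5, 2, [0])]⟩,
    ⟨[(0, 2)], [(2, 0), (2, 1), (2, 2)], [(0, 1), (0, 2), (1, 2)], [], [(4, 0, [2]), (5, 2,
      [0]), (7, 1, [3])]⟩,
    ⟨[(0, 1), (0, 2), (1, 2), (2, 3)], [(0, 0), (0, 3), (1, 0), (1, 3), (2, 0), (2, 2), (2,
      3), (3, 0)], [(0, 0), (0, 3)], [], [(3, 0, [2]), (4, 0, [2]), (8, 3, [1])]⟩,
    ⟨[(0, 4), (1, 4), (2, 4)], [(2, 0), (3, 0), (3, 1), (4, 0), (4, 1), (4, 3)], [(0, 1)],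
      [], [(4, 0, [2]), (7, 1, [3])]⟩,
    ⟨[(0, 4), (1, 4), (2, 4), (4, 5)], [(3, 1), (4, 0), (4, 1), (4, 3), (5, 0), (5, 1), (5,
      3)], [(1, 3)], [7], [(7, 1, [3]), (8, 3, [1])]⟩]
  Ta := [((0, 1), 0, 4), ((0, 6), 0, 6), ((3, 2), 0, 5), ((3, 8), 0, 3), ((4, 7), 0, 1)]
  Tb := [((0, 1, 6), 0, 4, 6), ((1, 0, 2), 4, 0, 5), ((2, 1, 3), 5, 4, 0), ((3, 2, 8), 0, 5, 3),
    ((5, 6, 7), 2, 6, 1), ((6, 0, 5), 6, 0, 2), ((7, 4, 5), 1, 0, 2), ((7, 4, 9), 1, 0, 7),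
    ((7, 5, 9), 1, 2, 7), ((8, 3, 9), 3, 0, 7), ((9, 7, 8), 7, 1, 3)]
  Tc := []
  Td := [((0, 2), (0, 1), 4), ((0, 2), (0, 6), 6), ((0, 2), (3, 2), 5), ((0, 2), (3, 8), 3), ((0,
    2), (4, 7), 1), ((1, 3), (7, 4), 0), ((1, 3), (7, 5), 2), ((1, 3), (7, 9), 7), ((2, 0),
    (5, 6), 6), ((2, 0), (5, 7), 1), ((3, 1), (8, 3), 0), ((3, 1), (8, 9), 7)]
  G := [[0, 0, 0xd8284d424d424c581856454d4a4ced428889, 0xd421d828c2d424d428cd424d424cca,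
    0xc894611458c1a2d82152d4a8ad8219458a1a84882ec], [0, 0,
    0x489868d424cd428d824cc19864c154a8ce1, 0x1c524d824cd428d828cd42858528ce1,
    0xd421c89868ad42194149a8ac894619458c1ae1], [0,
    0xc8a46464a2c4e8c4482e4e4c468a8c24e888e4e42844e8ce1,
    0xd824c198686d8241c924cc8816498241458c8ee8, 0xd424d424cd424d428c6d424d424c89,
    0xd828c89868ad828c2d8a8a5894689458c8ae1]]

noncomputable def n1686 : Ent := ⟨e1686, noF, [], [], []⟩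

def c1686 : PLift (Cov.check n1686.C.D v1686 = true) := ⟨by decide +kernel⟩

def b1686 : PLift (entF (fidx ts) 400 1686 n1686 = true) := ⟨by decide +kernel⟩

theorem g1686 : GoodF (fidx ts) 400 1686 := GoodF.ofV v1686 n1686 c1686.down b1686.down

/-- 4674845:1407 -/
noncomputable def e1687 : SCfg where
  D := {
    a := 7
    L := 11
    kp := 8
    inn := [(0, 1), (0, 2), (0, 4), (1, 0), (1, 4), (2, 0), (2, 3), (2, 4), (3, 2), (4, 0), (4, 1), (4,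
      2), (4, 5), (4, 6), (5, 4), (5, 6), (6, 4), (6, 5)]
    mix := [(0, 0), (1, 0), (1, 1), (1, 2), (1, 3), (2, 0), (2, 4), (2, 5), (2, 6), (3, 4), (3, 5), (3,
      7), (4, 3), (4, 4), (4, 8), (5, 4), (5, 9), (6, 8), (6, 9), (6, 10)]
    cl := [0, 6, 7, 0, 0, 1, 2, 5, 3, 4, 8]
    chq := [(2, 5), (3, 4), (4, 3), (5, 2)]
    rng := [(0, 1), (0, 6), (1, 0), (1, 2), (2, 1), (2, 3), (3, 2), (3, 8), (4, 7), (4, 9), (5, 6), (5,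
      7), (6, 0), (6, 5), (7, 4), (7, 5), (8, 3), (8, 10), (9, 4), (9, 10), (10, 8), (10, 9)]
    lev := [] }
  links := [[1, 4, 2, 7], [4, 0, 7, 8, 9, 10], [7, 0, 4, 11, 3, 12, 13], [12, 2, 11, 14], [11, 2, 0, 1,
    10, 15, 6, 5], [11, 4, 6, 16], [16, 5, 4, 15, 17]]
  P := {
    a := 7
    N := 18
    nb := [150, 1937, 14489, 22532, 35943, 67664, 229424, 8455, 642, 1282, 33298, 81980, 24588, 4228,
      6152, 132176, 133216, 98368]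
    tri := [(0, 1, 4), (0, 1, 7), (0, 2, 4), (0, 2, 7), (1, 4, 10), (1, 7, 8), (1, 8, 9), (1, 9, 10),
      (2, 3, 11), (2, 3, 12), (2, 4, 11), (2, 7, 13), (2, 12, 13), (3, 11, 14), (3, 12, 14), (4,
      5, 6), (4, 5, 11), (4, 6, 15), (4, 10, 15), (5, 6, 16), (5, 11, 16), (6, 15, 17), (6, 16,
      17)]
    fin := [0, 0, 2, 2, 0, 0, 6, 0, 8, 9, 0, 0, 12, 13, 2, 6, 16, 17]
    chd := [(6, 16), (13, 2)]
    steps := [(0, 1), (0, 4), (0, 5), (0, 7), (0, 10), (0, 11), (2, 3), (2, 14), (6, 15)] }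
  rep := [0, 12, 13, 6, 16, 2, 8, 9, 17]

noncomputable def v1687 : Cov.CovD where
  P := 3
  N := 6
  pl := [1, 2, 5, 10]
  lev := [⟨[], [], [], [], [(0, 0, [])]⟩,
    ⟨[], [(0, 0)], [(0, 0)], [6, 7], [(0, 0, []), (3, 0, [])]⟩,
    ⟨[(0, 1)], [(0, 0), (0, 2), (1, 0)], [(0, 0), (0, 2)], [1], [(0, 0, []), (4, 0, []),
      (6, 2, [5])]⟩,
    ⟨[(0, 2)], [(2, 0), (2, 2), (2, 5)], [(0, 5)], [1], [(4, 0, []), (7, 5, [2])]⟩,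
    ⟨[(0, 1), (0, 2), (1, 2), (2, 3)], [(0, 0), (0, 3), (1, 0), (1, 3), (2, 0), (2, 2), (2,
      3), (3, 0)], [(0, 0), (0, 3)], [], [(3, 0, []), (4, 0, []), (8, 3, [4])]⟩,
    ⟨[(0, 4), (1, 4), (2, 4)], [(2, 0), (3, 0), (4, 0), (4, 3), (4, 4)], [(0, 4)], [], [(4,
      0, []), (9, 4, [3])]⟩,
    ⟨[(0, 4), (1, 4), (2, 4), (4, 5)], [(4, 0), (4, 3), (4, 4), (5, 0), (5, 3), (5, 4)],
      [(3, 4)], [8], [(8, 3, [4]), (9, 4, [3])]⟩]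
  Ta := [((0, 1), 0, 6), ((0, 6), 0, 2), ((3, 2), 0, 7), ((3, 8), 0, 3), ((4, 7), 0, 5), ((4, 9),
    0, 4)]
  Tb := [((0, 1, 6), 0, 6, 2), ((1, 0, 2), 6, 0, 7), ((2, 1, 3), 7, 6, 0), ((3, 2, 8), 0, 7, 3),
    ((4, 7, 9), 0, 5, 4), ((5, 6, 7), 1, 2, 5), ((6, 0, 5), 2, 0, 1), ((7, 4, 5), 5, 0, 1),
    ((8, 3, 10), 3, 0, 8), ((9, 4, 10), 4, 0, 8), ((10, 8, 9), 8, 3, 4)]
  Tc := []
  Td := [((2, 5), (6, 0), 0), ((2, 5), (6, 5), 1), ((3, 4), (8, 3), 0), ((3, 4), (8, 10), 8),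
    ((4, 3), (9, 4), 0), ((4, 3), (9, 10), 8), ((5, 2), (7, 4), 0), ((5, 2), (7, 5), 1)]
  G := [[0, 0x96984623482c2242f2d8a2c34169c28182ce2, 0xf884617481c2841f2d8a1c4841f4b8c1ce2,
    0xb2f4614b2f4614481c74b8c4e14e428148c, 0x6421872f8a1862b2d4e48ef29461888418c6], [0,
    0x1e3b4628f2f8a24241e394e28e1, 0, 0x74b8c8e14a84172d8a1c74f8c18481ce2,
    0xd25a564844b2f4e1822f2d4e18e1], [0, 0x4fab4628496f2ca2422f2d4e28e1, 0,
    0xf2f46f2f46c8d2f2caf2f8ac47844e962258eda68cce1, 0xf2f46487282f8e4832e2d8e48e1]]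

noncomputable def n1687 : Ent := ⟨e1687, noF, [], [], [(16, 14, [7334685589297762428874426903420482469988158645819485339342058430226433, 0])]⟩

def c1687 : PLift (Cov.check n1687.C.D v1687 = true) := ⟨by decide +kernel⟩

def b1687 : PLift (entF (fidx ts) 400 1687 n1687 = true) := ⟨by decide +kernel⟩

theorem g1687 : GoodF (fidx ts) 400 1687 := GoodF.ofV v1687 n1687 c1687.down b1687.down

/-- 4578445:1415/2 -/
noncomputable def e1688 : SCfg where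
  D := {
    a := 7
    L := 9
    kp := 6
    inn := [(0, 1), (0, 2), (1, 0), (1, 2), (2, 0), (2, 1), (2, 3), (3, 2), (3, 4), (3, 5), (3, 6), (4,
      3), (4, 6), (5, 3), (6, 3), (6, 4)]
    mix := [(0, 0), (0, 1), (1, 1), (1, 2), (1, 3), (2, 0), (2, 3), (2, 4), (2, 5), (3, 3), (3, 4), (3,
      6), (3, 7), (4, 6), (4, 8), (5, 1), (5, 6), (5, 7), (6, 2), (6, 3), (6, 8)]
    cl := [3, 1, 2, 0, 0, 6, 0, 4, 5]
    chq := [(0, 3), (2, 3), (3, 0), (3, 2)]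
    rng := [(0, 1), (0, 5), (1, 0), (1, 2), (1, 6), (1, 7), (2, 1), (2, 3), (2, 8), (3, 2), (4, 5), (4,
      7), (5, 0), (5, 4), (6, 1), (6, 8), (7, 1), (7, 4), (8, 2), (8, 6)]
    lev := [] }
  links := [[1, 2, 7, 8], [2, 0, 8, 9, 10], [7, 0, 1, 10, 3, 11, 12], [11, 2, 10, 6, 4, 13, 5, 14], [13,
    3, 6, 15], [14, 3, 13, 8], [15, 4, 3, 10, 9]]
  P := {
    a := 7
    N := 16
    nb := [390, 1797, 7307, 27764, 41032, 24840, 34328, 4357, 25251, 34114, 590, 20492, 2180, 33080,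
      2344, 8784]
    tri := [(0, 1, 2), (0, 1, 8), (0, 2, 7), (0, 7, 8), (1, 2, 10), (1, 8, 9), (1, 9, 10), (2, 3, 10),
      (2, 3, 11), (2, 7, 12), (2, 11, 12), (3, 4, 6), (3, 4, 13), (3, 5, 13), (3, 5, 14), (3, 6,
      10), (3, 11, 14), (4, 6, 15), (4, 13, 15), (5, 8, 13), (5, 8, 14), (6, 9, 10), (6, 9, 15)]
    fin := [0, 0, 0, 3, 4, 5, 4, 0, 5, 4, 3, 3, 12, 3, 14, 15]
    chd := [(0, 3), (0, 4)]
    steps := [(0, 1), (0, 2), (0, 7), (3, 10), (3, 13), (3, 11), (4, 6), (4, 9), (5, 8)] }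
  rep := [3, 5, 4, 0, 14, 15, 12]

noncomputable def v1688 : Cov.CovD where
  P := 3
  N := 4
  pl := [1, 5, 7, 8]
  lev := [⟨[], [], [], [1], [(0, 3, [0, 2])]⟩,
    ⟨[], [(0, 0), (0, 2), (0, 3)], [(0, 2)], [1], [(2, 2, [3]), (3, 0, [3])]⟩,
    ⟨[(0, 1)], [(0, 0), (0, 3), (1, 0), (1, 2), (1, 3)], [(0, 0), (0, 3)], [6], [(0, 3, [0,
      2]), (3, 0, [3]), (4, 0, [3])]⟩,
    ⟨[(0, 2), (1, 2)], [(1, 0), (2, 0), (2, 3)], [(0, 0)], [4], [(3, 0, [3]), (4, 0, [3]),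
      (6, 0, [3])]⟩,
    ⟨[(2, 3)], [(3, 0)], [], [5], [(6, 0, [3])]⟩,
    ⟨[(2, 3), (3, 4)], [(3, 0), (4, 0)], [], [1, 4], [(6, 0, [3])]⟩,
    ⟨[(2, 3), (3, 4), (3, 5)], [(1, 0), (1, 2), (2, 0), (3, 0), (3, 2), (4, 0), (4, 2)],
      [(0, 2)], [5], [(2, 2, [3]), (3, 0, [3])]⟩]
  Ta := [((3, 2), 0, 2), ((4, 5), 0, 6), ((4, 7), 0, 4), ((6, 1), 0, 1), ((6, 8), 0, 5)]
  Tb := [((0, 1, 5), 3, 1, 6), ((1, 0, 2), 1, 3, 2), ((1, 0, 6), 1, 3, 0), ((1, 0, 7), 1, 3, 4),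
    ((1, 2, 6), 1, 2, 0), ((1, 2, 7), 1, 2, 4), ((1, 6, 7), 1, 0, 4), ((2, 1, 3), 2, 1, 0),
    ((2, 1, 8), 2, 1, 5), ((2, 3, 8), 2, 0, 5), ((4, 5, 7), 0, 6, 4), ((5, 0, 4), 6, 3, 0),
    ((6, 1, 8), 0, 1, 5), ((7, 1, 4), 4, 1, 0), ((8, 2, 6), 5, 2, 0)]
  Tc := [(3, 0, 2)]
  Td := [((0, 3), (3, 2), 2), ((0, 3), (4, 5), 6), ((0, 3), (4, 7), 4), ((0, 3), (6, 1), 1), ((0,
    3), (6, 8), 5), ((2, 3), (2, 1), 1), ((2, 3), (2, 3), 0), ((2, 3), (2, 8), 5), ((3, 0),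
    (0, 1), 1), ((3, 0), (0, 5), 6), ((3, 2), (0, 1), 1), ((3, 2), (0, 5), 6)]
  G := [[0, 0, 0xc818141a6484212818ea41488856e81, 0xc1228141c28141c2e41,
    0x8121c228c18124ca284a41818ee81], [0, 0, 0, 0x1152211922182142ce81,
    0x1128c52182852114caa418111c6e81], [0, 0x1418c1212c61418a42146a188261442ace82, 0,
    0xc5c22c5c22582942ce81, 0x88c11ca2182868414aa182868424ace81]]

noncomputable def n1688 : Ent := ⟨e1688, noF, [], [], []⟩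

def c1688 : PLift (Cov.check n1688.C.D v1688 = true) := ⟨by decide +kernel⟩

def b1688 : PLift (entF (fidx ts) 400 1688 n1688 = true) := ⟨by decide +kernel⟩

theorem g1688 : GoodF (fidx ts) 400 1688 := GoodF.ofV v1688 n1688 c1688.down b1688.down

/-- 4578445:1415/1 -/
noncomputable def e1689 : SCfg where
  D := {
    a := 7
    L := 10
    kp := 7
    inn := [(0, 1), (0, 2), (1, 0), (1, 2), (2, 0), (2, 1), (2, 3), (3, 2), (3, 4), (3, 5), (3, 6), (4,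
      3), (4, 6), (5, 3), (6, 3), (6, 4)]
    mix := [(0, 0), (0, 1), (1, 1), (1, 2), (1, 3), (2, 0), (2, 3), (2, 4), (2, 5), (3, 3), (3, 4), (3,
      6), (3, 7), (4, 6), (4, 8), (5, 1), (5, 6), (5, 7), (6, 3), (6, 8), (6, 9)]
    cl := [2, 1, 5, 0, 0, 6, 0, 3, 4, 7]
    chq := [(0, 2), (2, 0), (2, 5), (5, 2)]
    rng := [(0, 1), (0, 5), (1, 0), (1, 2), (1, 6), (1, 7), (2, 1), (2, 3), (3, 2), (3, 9), (4, 5), (4,
      7), (5, 0), (5, 4), (6, 1), (6, 8), (7, 1), (7, 4), (8, 6), (8, 9), (9, 3), (9, 8)]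
    lev := [] }
  links := [[1, 2, 7, 8], [2, 0, 8, 9, 10], [7, 0, 1, 10, 3, 11, 12], [11, 2, 10, 6, 4, 13, 5, 14], [13,
    3, 6, 15], [14, 3, 13, 8], [15, 4, 3, 10, 16]]
  P := {
    a := 7
    N := 17
    nb := [390, 1797, 7307, 27764, 41032, 24840, 99352, 4357, 25251, 1282, 66126, 20492, 2180, 33080,
      2344, 73808, 33856]
    tri := [(0, 1, 2), (0, 1, 8), (0, 2, 7), (0, 7, 8), (1, 2, 10), (1, 8, 9), (1, 9, 10), (2, 3, 10),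
      (2, 3, 11), (2, 7, 12), (2, 11, 12), (3, 4, 6), (3, 4, 13), (3, 5, 13), (3, 5, 14), (3, 6,
      10), (3, 11, 14), (4, 6, 15), (4, 13, 15), (5, 8, 13), (5, 8, 14), (6, 10, 16), (6, 15, 16)]
    fin := [0, 0, 2, 3, 2, 3, 2, 0, 3, 9, 2, 2, 12, 2, 14, 15, 16]
    chd := [(0, 2), (0, 9)]
    steps := [(0, 1), (0, 7), (2, 10), (2, 6), (2, 4), (2, 13), (2, 11), (3, 5), (3, 8)] }
  rep := [2, 3, 0, 14, 15, 9, 12, 16]

noncomputable def v1689 : Cov.CovD where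
  P := 3
  N := 5
  pl := [1, 5, 7, 8, 9]
  lev := [⟨[], [], [], [1], [(0, 2, [0, 5])]⟩,
    ⟨[], [(0, 0), (0, 2), (0, 5)], [(0, 5)], [1], [(2, 5, [2]), (3, 0, [2])]⟩,
    ⟨[(0, 1)], [(0, 0), (0, 2), (1, 0), (1, 2), (1, 5)], [(0, 0), (0, 2)], [6], [(0, 2, [0,
      5]), (3, 0, [2]), (4, 0, [2])]⟩,
    ⟨[(0, 2), (1, 2)], [(1, 0), (2, 0), (2, 2)], [(0, 0)], [3], [(3, 0, [2]), (4, 0, [2]),
      (6, 0, [2])]⟩,
    ⟨[(2, 3)], [(3, 0)], [], [4], [(6, 0, [2])]⟩,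
    ⟨[(2, 3), (3, 4)], [(3, 0), (4, 0)], [], [1, 3], [(6, 0, [2])]⟩,
    ⟨[(2, 3), (3, 4), (3, 5)], [(1, 0), (2, 0), (3, 0), (4, 0)], [], [4, 7], [(3, 0, [2])]⟩]
  Ta := [((3, 2), 0, 5), ((3, 9), 0, 7), ((4, 5), 0, 6), ((4, 7), 0, 3), ((6, 1), 0, 1), ((6, 8),
    0, 4)]
  Tb := [((0, 1, 5), 2, 1, 6), ((1, 0, 2), 1, 2, 5), ((1, 0, 6), 1, 2, 0), ((1, 0, 7), 1, 2, 3),
    ((1, 2, 6), 1, 5, 0), ((1, 2, 7), 1, 5, 3), ((1, 6, 7), 1, 0, 3), ((2, 1, 3), 5, 1, 0),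
    ((3, 2, 9), 0, 5, 7), ((4, 5, 7), 0, 6, 3), ((5, 0, 4), 6, 2, 0), ((6, 1, 8), 0, 1, 4),
    ((7, 1, 4), 3, 1, 0), ((8, 6, 9), 4, 0, 7), ((9, 3, 8), 7, 0, 4)]
  Tc := [(2, 0, 5)]
  Td := [((0, 2), (3, 2), 5), ((0, 2), (3, 9), 7), ((0, 2), (4, 5), 6), ((0, 2), (4, 7), 3), ((0,
    2), (6, 1), 1), ((0, 2), (6, 8), 4), ((2, 0), (0, 1), 1), ((2, 0), (0, 5), 6), ((2, 5),
    (0, 1), 1), ((2, 5), (0, 5), 6), ((5, 2), (2, 1), 1), ((5, 2), (2, 3), 0)]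
  G := [[0, 0, 0xa161c24818121ac68c18144cae18, 0xa161c2a161c2ca161c2a161c2cc1,
    0x2448c341a85668c1612c18ea48], [0, 0, 0xa161c268c184ac18141c6e18, 0x41aec52eec12c18,
    0x1418a181166184142118ea48], [0, 0x1418c1218661418a12146ac28,
    0x11224212848c14e48484ac1c186e91122445, 0xaac66cc2aac66cc2c14,
    0x14b4a9858c67818614d4caa41]]

noncomputable def n1689 : Ent := ⟨e1689, noF, [], [], [(9, 16, [1580044410770988437309982408355971841652082177953823432505696026625, 0])]⟩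

def c1689 : PLift (Cov.check n1689.C.D v1689 = true) := ⟨by decide +kernel⟩

def b1689 : PLift (entF (fidx ts) 400 1689 n1689 = true) := ⟨by decide +kernel⟩

theorem g1689 : GoodF (fidx ts) 400 1689 := GoodF.ofV v1689 n1689 c1689.down b1689.down

/-- 4578445:1415/3 -/
noncomputable def e1690 : SCfg where
  D := {
    a := 7
    L := 10
    kp := 7
    inn := [(0, 1), (0, 2), (1, 0), (1, 2), (2, 0), (2, 1), (2, 3), (3, 2), (3, 4), (3, 5), (3, 6), (4,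
      3), (4, 6), (5, 3), (6, 3), (6, 4)]
    mix := [(0, 0), (0, 1), (1, 1), (1, 2), (1, 3), (2, 0), (2, 3), (2, 4), (2, 5), (3, 3), (3, 4), (3,
      6), (3, 7), (4, 6), (4, 8), (5, 6), (5, 7), (5, 9), (6, 2), (6, 3), (6, 8)]
    cl := [3, 4, 1, 0, 0, 6, 0, 2, 5, 7]
    chq := [(0, 3), (1, 3), (3, 0), (3, 1)]
    rng := [(0, 1), (0, 5), (1, 0), (1, 2), (2, 1), (2, 3), (2, 8), (3, 2), (4, 5), (4, 7), (5, 0), (5,
      4), (6, 8), (6, 9), (7, 4), (7, 9), (8, 2), (8, 6), (9, 6), (9, 7)]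
    lev := [] }
  links := [[1, 2, 7, 8], [2, 0, 8, 9, 10], [7, 0, 1, 10, 3, 11, 12], [11, 2, 10, 6, 4, 13, 5, 14], [13,
    3, 6, 15], [14, 3, 13, 16], [15, 4, 3, 10, 9]]
  P := {
    a := 7
    N := 17
    nb := [390, 1797, 7307, 27764, 41032, 90120, 34328, 4357, 643, 34114, 590, 20492, 2180, 98360,
      67624, 8784, 24608]
    tri := [(0, 1, 2), (0, 1, 8), (0, 2, 7), (0, 7, 8), (1, 2, 10), (1, 8, 9), (1, 9, 10), (2, 3, 10),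
      (2, 3, 11), (2, 7, 12), (2, 11, 12), (3, 4, 6), (3, 4, 13), (3, 5, 13), (3, 5, 14), (3, 6,
      10), (3, 11, 14), (4, 6, 15), (4, 13, 15), (5, 13, 16), (5, 14, 16), (6, 9, 10), (6, 9, 15)]
    fin := [0, 0, 0, 3, 4, 3, 4, 0, 8, 4, 3, 3, 12, 3, 14, 15, 16]
    chd := [(0, 3), (0, 4)]
    steps := [(0, 1), (0, 2), (0, 7), (3, 5), (3, 10), (3, 13), (3, 11), (4, 6), (4, 9)] }
  rep := [3, 4, 14, 0, 8, 15, 12, 16]

noncomputable def v1690 : Cov.CovD where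
  P := 3
  N := 5
  pl := [1, 5, 7, 8, 9]
  lev := [⟨[], [], [], [4], [(0, 3, [0, 1])]⟩,
    ⟨[], [(0, 0), (0, 1), (0, 3)], [(0, 1)], [4], [(2, 1, [3]), (3, 0, [3])]⟩,
    ⟨[(0, 1)], [(0, 0), (0, 3), (1, 0), (1, 1), (1, 3)], [(0, 0), (0, 3)], [6], [(0, 3, [0,
      1]), (3, 0, [3]), (4, 0, [3])]⟩,
    ⟨[(0, 2), (1, 2)], [(1, 0), (2, 0), (2, 3)], [(0, 0)], [2], [(3, 0, [3]), (4, 0, [3]),
      (6, 0, [3])]⟩,
    ⟨[(2, 3)], [(3, 0)], [], [5], [(6, 0, [3])]⟩,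
    ⟨[(2, 3), (3, 4)], [(3, 0), (4, 0)], [], [2, 7], [(6, 0, [3])]⟩,
    ⟨[(2, 3), (3, 4), (3, 5)], [(1, 0), (1, 1), (2, 0), (3, 0), (3, 1), (4, 0), (4, 1)],
      [(0, 1)], [5], [(2, 1, [3]), (3, 0, [3])]⟩]
  Ta := [((3, 2), 0, 1), ((4, 5), 0, 6), ((4, 7), 0, 2), ((6, 8), 0, 5), ((6, 9), 0, 7)]
  Tb := [((0, 1, 5), 3, 4, 6), ((1, 0, 2), 4, 3, 1), ((2, 1, 3), 1, 4, 0), ((2, 1, 8), 1, 4, 5),
    ((2, 3, 8), 1, 0, 5), ((4, 5, 7), 0, 6, 2), ((5, 0, 4), 6, 3, 0), ((6, 8, 9), 0, 5, 7),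
    ((7, 4, 9), 2, 0, 7), ((8, 2, 6), 5, 1, 0), ((9, 6, 7), 7, 0, 2)]
  Tc := [(3, 0, 1)]
  Td := [((0, 3), (3, 2), 1), ((0, 3), (4, 5), 6), ((0, 3), (4, 7), 2), ((0, 3), (6, 8), 5), ((0,
    3), (6, 9), 7), ((1, 3), (2, 1), 4), ((1, 3), (2, 3), 0), ((1, 3), (2, 8), 5), ((3, 0),
    (0, 1), 4), ((3, 0), (0, 5), 6), ((3, 1), (0, 1), 4), ((3, 1), (0, 5), 6)]
  G := [[0, 0x8121a4412168812164e8121c48121688121c4e61, 0,
    0x8141a4418168418168e48141a4418168418168e83,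
    0x8141c28141c2418168e48141a2418168418168e83], [0, 0,
    0x148c634c84e14a1248c38846186c141218e24841248b411c28ac3,
    0x8111c41111a4411168e81111c44111684111a4e43,
    0x8111a21141a81141a8e4148291141c21111a21128e43], [0, 0, 0,
    0x18c41ca444c18c6844c18c68e488c41ca414c58c6881c19ca4e83,
    0x81a14ac218a44ac21244a18e8e481a44ac288a4248e244a18a68e83]]

noncomputable def n1690 : Ent := ⟨e1690, noF, [], [], [(8, 16, [1580044410770988437309982408355971841652082177953823432505696026625, 0])]⟩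

def c1690 : PLift (Cov.check n1690.C.D v1690 = true) := ⟨by decide +kernel⟩

def b1690 : PLift (entF (fidx ts) 400 1690 n1690 = true) := ⟨by decide +kernel⟩

theorem g1690 : GoodF (fidx ts) 400 1690 := GoodF.ofV v1690 n1690 c1690.down b1690.down

/-- 4578445:1415 -/
noncomputable def e1691 : SCfg where
  D := {
    a := 7
    L := 11
    kp := 8
    inn := [(0, 1), (0, 2), (1, 0), (1, 2), (2, 0), (2, 1), (2, 3), (3, 2), (3, 4), (3, 5), (3, 6), (4,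
      3), (4, 6), (5, 3), (6, 3), (6, 4)]
    mix := [(0, 0), (0, 1), (1, 1), (1, 2), (1, 3), (2, 0), (2, 3), (2, 4), (2, 5), (3, 3), (3, 4), (3,
      6), (3, 7), (4, 6), (4, 8), (5, 6), (5, 7), (5, 9), (6, 3), (6, 8), (6, 10)]
    cl := [1, 3, 5, 0, 0, 6, 0, 2, 4, 7, 8]
    chq := [(0, 1), (1, 0), (1, 5), (5, 1)]
    rng := [(0, 1), (0, 5), (1, 0), (1, 2), (2, 1), (2, 3), (3, 2), (3, 10), (4, 5), (4, 7), (5, 0),
      (5, 4), (6, 8), (6, 9), (7, 4), (7, 9), (8, 6), (8, 10), (9, 6), (9, 7), (10, 3), (10, 8)]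
    lev := [] }
  links := [[1, 2, 7, 8], [2, 0, 8, 9, 10], [7, 0, 1, 10, 3, 11, 12], [11, 2, 10, 6, 4, 13, 5, 14], [13,
    3, 6, 15], [14, 3, 13, 16], [15, 4, 3, 10, 17]]
  P := {
    a := 7
    N := 18
    nb := [390, 1797, 7307, 27764, 41032, 90120, 164888, 4357, 643, 1282, 131662, 20492, 2180, 98360,
      67624, 139344, 24608, 33856]
    tri := [(0, 1, 2), (0, 1, 8), (0, 2, 7), (0, 7, 8), (1, 2, 10), (1, 8, 9), (1, 9, 10), (2, 3, 10),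
      (2, 3, 11), (2, 7, 12), (2, 11, 12), (3, 4, 6), (3, 4, 13), (3, 5, 13), (3, 5, 14), (3, 6,
      10), (3, 11, 14), (4, 6, 15), (4, 13, 15), (5, 13, 16), (5, 14, 16), (6, 10, 17), (6, 15,
      17)]
    fin := [0, 0, 0, 3, 3, 3, 3, 0, 8, 9, 3, 3, 12, 3, 14, 15, 16, 17]
    chd := [(0, 3), (0, 9)]
    steps := [(0, 1), (0, 2), (0, 7), (3, 4), (3, 5), (3, 6), (3, 10), (3, 13), (3, 11)] }
  rep := [3, 0, 14, 8, 15, 9, 12, 16, 17]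

noncomputable def v1691 : Cov.CovD where
  P := 3
  N := 6
  pl := [1, 5, 7, 8, 9, 10]
  lev := [⟨[], [], [], [3], [(0, 1, [0, 5])]⟩,
    ⟨[], [(0, 0), (0, 1), (0, 5)], [(0, 5)], [3], [(2, 5, [1]), (3, 0, [1])]⟩,
    ⟨[(0, 1)], [(0, 0), (0, 1), (1, 0), (1, 1), (1, 5)], [(0, 0), (0, 1)], [6], [(0, 1, [0,
      5]), (3, 0, [1]), (4, 0, [1])]⟩,
    ⟨[(0, 2), (1, 2)], [(1, 0), (2, 0), (2, 1)], [(0, 0)], [2], [(3, 0, [1]), (4, 0, [1]),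
      (6, 0, [1])]⟩,
    ⟨[(2, 3)], [(3, 0)], [], [4], [(6, 0, [1])]⟩,
    ⟨[(2, 3), (3, 4)], [(3, 0), (4, 0)], [], [2, 7], [(6, 0, [1])]⟩,
    ⟨[(2, 3), (3, 4), (3, 5)], [(1, 0), (2, 0), (3, 0), (4, 0)], [], [4, 8], [(3, 0, [1])]⟩]
  Ta := [((3, 2), 0, 5), ((3, 10), 0, 8), ((4, 5), 0, 6), ((4, 7), 0, 2), ((6, 8), 0, 4), ((6,
    9), 0, 7)]
  Tb := [((0, 1, 5), 1, 3, 6), ((1, 0, 2), 3, 1, 5), ((2, 1, 3), 5, 3, 0), ((3, 2, 10), 0, 5, 8),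
    ((4, 5, 7), 0, 6, 2), ((5, 0, 4), 6, 1, 0), ((6, 8, 9), 0, 4, 7), ((7, 4, 9), 2, 0, 7),
    ((8, 6, 10), 4, 0, 8), ((9, 6, 7), 7, 0, 2), ((10, 3, 8), 8, 0, 4)]
  Tc := [(1, 0, 5)]
  Td := [((0, 1), (3, 2), 5), ((0, 1), (3, 10), 8), ((0, 1), (4, 5), 6), ((0, 1), (4, 7), 2),
    ((0, 1), (6, 8), 4), ((0, 1), (6, 9), 7), ((1, 0), (0, 1), 3), ((1, 0), (0, 5), 6), ((1,
    5), (0, 1), 3), ((1, 5), (0, 5), 6), ((5, 1), (2, 1), 3), ((5, 1), (2, 3), 0)]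
  G := [[0, 0xc161a4c1a168a11111641111a8c112811481184e69, 0,
    0x614a18c42c161a4c1a168c41216818c8cc1a1684c161a4c1a168c6d,
    0x612c18a44a161c2c1a168ca161c28ca161c2c1a168c2d], [0, 0x614a18c41614881a164a1a1846148a1e,
    0x181214e2116116c8c2442266c8a1c6ace12c1c, 0x1111c41111a4c2614a18cc1a168c1c,
    0xa161c2a12c14ac11111681111a2c2c], [0, 0xe1484111848614a18c251184441216818c83112448f, 0,
    0x19c63ca45cc31c68c888443444c8c62cac4cc2ac68c1888442d,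
    0x95a59ac2c9a5218e2c2222a8a64aca66a2cca8ac1c]]

noncomputable def n1691 : Ent := ⟨e1691, noF, [], [], [(8, 16, [7334685537875745012586738086077695515070955365108989538292687700594689, 0]), (9, 17, [6903326391201334775872065844685381424292761054348340378595029936611329, 0])]⟩

def c1691 : PLift (Cov.check n1691.C.D v1691 = true) := ⟨by decide +kernel⟩

def b1691 : PLift (entF (fidx ts) 400 1691 n1691 = true) := ⟨by decide +kernel⟩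

theorem g1691 : GoodF (fidx ts) 400 1691 := GoodF.ofV v1691 n1691 c1691.down b1691.down

/-- 4845764:1417/1 -/
noncomputable def e1692 : SCfg where
  D := {
    a := 7
    L := 10
    kp := 8
    inn := [(0, 1), (0, 3), (0, 4), (1, 0), (1, 2), (1, 4), (1, 5), (2, 1), (2, 5), (3, 0), (3, 4), (4,
      0), (4, 1), (4, 3), (5, 1), (5, 2), (5, 6), (6, 5)]
    mix := [(0, 0), (1, 0), (1, 1), (1, 2), (1, 3), (2, 1), (2, 4), (3, 0), (3, 5), (3, 6), (4, 1), (4,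
      6), (4, 7), (4, 8), (5, 2), (5, 4), (5, 9), (6, 4), (6, 5), (6, 9)]
    cl := [1, 0, 0, 8, 2, 3, 4, 6, 7, 5]
    chq := [(0, 1), (0, 3), (1, 0), (1, 4), (1, 6), (1, 7), (3, 0), (4, 1), (6, 1), (7, 1)]
    rng := [(0, 3), (0, 5), (1, 4), (1, 8), (2, 3), (2, 9), (3, 0), (3, 2), (4, 1), (4, 5), (5, 0), (5,
      4), (5, 6), (5, 9), (6, 5), (6, 7), (7, 6), (7, 8), (8, 1), (8, 7), (9, 2), (9, 5)]
    lev := [] }
  links := [[1, 7, 3, 4], [7, 0, 4, 8, 2, 5, 9, 10], [5, 1, 8, 11], [4, 0, 7, 12, 13], [8, 1, 0, 3, 13,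
    14, 15], [9, 1, 2, 11, 6, 16], [16, 5, 11, 12]]
  P := {
    a := 7
    N := 17
    nb := [154, 1973, 2338, 12433, 57611, 68166, 71712, 5131, 34838, 66594, 642, 4452, 75976, 20504,
      40976, 16656, 4704]
    tri := [(0, 1, 4), (0, 1, 7), (0, 3, 4), (0, 3, 7), (1, 2, 5), (1, 2, 8), (1, 4, 8), (1, 5, 9), (1,
      7, 10), (1, 9, 10), (2, 5, 11), (2, 8, 11), (3, 4, 13), (3, 7, 12), (3, 12, 13), (4, 8, 15),
      (4, 13, 14), (4, 14, 15), (5, 6, 11), (5, 6, 16), (5, 9, 16), (6, 11, 12), (6, 12, 16)]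
    fin := [0, 1, 2, 0, 0, 2, 2, 0, 1, 1, 10, 11, 2, 13, 14, 15, 16]
    chd := [(0, 1), (0, 13), (0, 14), (0, 15), (1, 2)]
    steps := [(0, 3), (0, 4), (0, 7), (1, 8), (1, 9), (2, 5), (2, 6), (2, 12)] }
  rep := [1, 0, 11, 2, 13, 16, 14, 15, 10]

noncomputable def v1692 : Cov.CovD where
  P := 3
  N := 6
  pl := [3, 4, 9]
  lev := [⟨[], [], [], [], [(0, 1, [0, 4, 6, 7])]⟩,
    ⟨[], [(0, 0), (0, 1)], [(0, 0), (0, 1)], [8], [(0, 1, [0, 4, 6, 7]), (1, 0, [1, 3]),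
      (2, 0, [1, 3])]⟩,
    ⟨[(0, 1)], [(1, 0), (1, 1)], [], [2], [(1, 0, [1, 3])]⟩,
    ⟨[(0, 1)], [(0, 1), (0, 3), (0, 4), (1, 1)], [(1, 3), (1, 4), (3, 4)], [], [(0, 1, [0,
      4, 6, 7]), (5, 3, [0]), (6, 4, [1])]⟩,
    ⟨[(0, 1), (0, 3), (1, 2), (1, 3)], [(0, 0), (0, 1), (0, 4), (0, 6), (0, 7), (1, 0), (1,
      1), (1, 4), (1, 6), (1, 7), (2, 0), (3, 0), (3, 1), (3, 3), (3, 4), (3, 6), (3, 7)],
      [(0, 4), (0, 6), (0, 7), (4, 6), (4, 7), (6, 7)], [], [(1, 0, [1, 3]), (6, 4, [1]), (7,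
      6, [1]), (8, 7, [1])]⟩,
    ⟨[(0, 1), (1, 2), (1, 4)], [(1, 0), (1, 1), (2, 0)], [], [2, 5], [(2, 0, [1, 3])]⟩,
    ⟨[(1, 5), (2, 5)], [(3, 3), (5, 0), (5, 3)], [], [2, 5], [(5, 3, [0])]⟩]
  Ta := [((1, 4), 0, 2), ((1, 8), 0, 7), ((2, 3), 0, 8), ((2, 9), 0, 5)]
  Tb := [((0, 3, 5), 1, 8, 3), ((1, 4, 8), 0, 2, 7), ((2, 3, 9), 0, 8, 5), ((3, 0, 2), 8, 1, 0),
    ((4, 1, 5), 2, 0, 3), ((5, 0, 4), 3, 1, 2), ((5, 0, 6), 3, 1, 4), ((5, 0, 9), 3, 1, 5),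
    ((5, 4, 6), 3, 2, 4), ((5, 4, 9), 3, 2, 5), ((5, 6, 9), 3, 4, 5), ((6, 5, 7), 4, 3, 6),
    ((7, 6, 8), 6, 4, 7), ((8, 1, 7), 7, 0, 6), ((9, 2, 5), 5, 0, 3)]
  Tc := [(0, 1, 3), (1, 0, 4), (1, 0, 6), (1, 0, 7), (1, 4, 6), (1, 4, 7), (1, 6, 7)]
  Td := [((0, 1), (1, 4), 2), ((0, 1), (1, 8), 7), ((0, 1), (2, 3), 8), ((0, 1), (2, 9), 5), ((0,
    3), (1, 4), 2), ((0, 3), (1, 8), 7), ((0, 3), (2, 3), 8), ((0, 3), (2, 9), 5), ((1, 0),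
    (0, 3), 8), ((1, 0), (0, 5), 3), ((1, 4), (0, 3), 8), ((1, 4), (0, 5), 3), ((1, 6), (0,
    3), 8), ((1, 6), (0, 5), 3), ((1, 7), (0, 3), 8), ((1, 7), (0, 5), 3), ((3, 0), (5, 0),
    1), ((3, 0), (5, 4), 2), ((3, 0), (5, 6), 4), ((3, 0), (5, 9), 5), ((4, 1), (6, 5), 3),
    ((4, 1), (6, 7), 6), ((6, 1), (7, 6), 4), ((6, 1), (7, 8), 7), ((7, 1), (8, 1), 0), ((7,
    1), (8, 7), 6)]
  G := [[0, 0x11c111c111c1e411c1149111c1e8a4, 0x82624a62ca62d882a246a2c6a2d4c1,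
    0x11c211c211c2d8411c2149211c2d48c, 0x11a211a21292d281a211a211a2d2c1], [0,
    0x11c1149111c1e411c111c111c1e8c2, 0, 0x81c251c2d1c2d1419c214c259c2d189,
    0x19a21aa213a2d181a213a292a2d1c1]]

noncomputable def n1692 : Ent := ⟨e1692, noF, [], [], []⟩

def c1692 : PLift (Cov.check n1692.C.D v1692 = true) := ⟨by decide +kernel⟩

def b1692 : PLift (entF (fidx ts) 400 1692 n1692 = true) := ⟨by decide +kernel⟩

theorem g1692 : GoodF (fidx ts) 400 1692 := GoodF.ofV v1692 n1692 c1692.down b1692.down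

/-- 4845764:1417/2 -/
noncomputable def e1693 : SCfg where
  D := {
    a := 7
    L := 10
    kp := 8
    inn := [(0, 1), (0, 3), (0, 4), (1, 0), (1, 2), (1, 4), (1, 5), (2, 1), (2, 5), (3, 0), (3, 4), (4,
      0), (4, 1), (4, 3), (5, 1), (5, 2), (5, 6), (6, 5)]
    mix := [(0, 0), (1, 0), (1, 1), (1, 2), (1, 3), (2, 1), (2, 4), (3, 0), (3, 5), (3, 6), (4, 1), (4,
      6), (4, 7), (4, 8), (5, 2), (5, 4), (5, 9), (6, 4), (6, 7), (6, 9)]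
    cl := [1, 0, 0, 7, 2, 8, 4, 3, 6, 5]
    chq := [(0, 1), (0, 3), (1, 0), (1, 3), (1, 4), (1, 6), (3, 0), (3, 1), (4, 1), (6, 1)]
    rng := [(0, 3), (0, 5), (1, 4), (1, 8), (2, 3), (2, 9), (3, 0), (3, 2), (4, 1), (4, 7), (5, 0), (5,
      6), (6, 5), (6, 7), (7, 4), (7, 6), (7, 8), (7, 9), (8, 1), (8, 7), (9, 2), (9, 7)]
    lev := [] }
  links := [[1, 7, 3, 4], [7, 0, 4, 8, 2, 5, 9, 10], [5, 1, 8, 11], [4, 0, 7, 12, 13], [8, 1, 0, 3, 13,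
    14, 15], [9, 1, 2, 11, 6, 16], [16, 5, 11, 14]]
  P := {
    a := 7
    N := 17
    nb := [154, 1973, 2338, 12433, 57611, 68166, 84000, 5131, 34838, 66594, 642, 16740, 8328, 20504,
      108624, 16656, 16992]
    tri := [(0, 1, 4), (0, 1, 7), (0, 3, 4), (0, 3, 7), (1, 2, 5), (1, 2, 8), (1, 4, 8), (1, 5, 9), (1,
      7, 10), (1, 9, 10), (2, 5, 11), (2, 8, 11), (3, 4, 13), (3, 7, 12), (3, 12, 13), (4, 8, 15),
      (4, 13, 14), (4, 14, 15), (5, 6, 11), (5, 6, 16), (5, 9, 16), (6, 11, 14), (6, 14, 16)]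
    fin := [0, 1, 2, 0, 0, 2, 2, 0, 1, 1, 10, 11, 12, 13, 2, 15, 16]
    chd := [(0, 1), (0, 2), (0, 13), (0, 15), (1, 2)]
    steps := [(0, 3), (0, 4), (0, 7), (1, 8), (1, 9), (2, 5), (2, 6), (2, 14)] }
  rep := [1, 0, 11, 2, 13, 16, 15, 10, 12]

noncomputable def v1693 : Cov.CovD where
  P := 3
  N := 6
  pl := [3, 4, 5, 9]
  lev := [⟨[], [], [], [], [(0, 1, [0, 3, 4, 6])]⟩,
    ⟨[], [(0, 0), (0, 1)], [(0, 0), (0, 1)], [7], [(0, 1, [0, 3, 4, 6]), (1, 0, [1, 3]),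
      (2, 0, [1, 3])]⟩,
    ⟨[(0, 1)], [(1, 0), (1, 1)], [], [2], [(1, 0, [1, 3])]⟩,
    ⟨[(0, 1)], [(0, 1), (0, 4), (1, 1)], [(1, 4)], [8], [(0, 1, [0, 3, 4, 6]), (6, 4,
      [1])]⟩,
    ⟨[(0, 1), (0, 3), (1, 2), (1, 3)], [(0, 0), (0, 1), (0, 3), (0, 4), (0, 6), (1, 0), (1,
      1), (1, 3), (1, 4), (1, 6), (2, 0), (3, 0), (3, 1), (3, 3), (3, 4), (3, 6)], [(0, 3),
      (0, 4), (0, 6), (3, 4), (3, 6), (4, 6)], [], [(1, 0, [1, 3]), (6, 4, [1]), (7, 3, [0,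
      1]), (8, 6, [1])]⟩,
    ⟨[(0, 1), (1, 2), (1, 4)], [(1, 0), (1, 1), (2, 0)], [], [2, 5], [(2, 0, [1, 3])]⟩,
    ⟨[(1, 5), (2, 5)], [(4, 3), (5, 0), (5, 3)], [], [2, 5], [(7, 3, [0, 1])]⟩]
  Ta := [((1, 4), 0, 2), ((1, 8), 0, 6), ((2, 3), 0, 7), ((2, 9), 0, 5)]
  Tb := [((0, 3, 5), 1, 7, 8), ((1, 4, 8), 0, 2, 6), ((2, 3, 9), 0, 7, 5), ((3, 0, 2), 7, 1, 0),
    ((4, 1, 7), 2, 0, 3), ((5, 0, 6), 8, 1, 4), ((6, 5, 7), 4, 8, 3), ((7, 4, 6), 3, 2, 4),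
    ((7, 4, 8), 3, 2, 6), ((7, 4, 9), 3, 2, 5), ((7, 6, 8), 3, 4, 6), ((7, 6, 9), 3, 4, 5),
    ((7, 8, 9), 3, 6, 5), ((8, 1, 7), 6, 0, 3), ((9, 2, 7), 5, 0, 3)]
  Tc := [(0, 1, 3), (1, 0, 3), (1, 0, 4), (1, 0, 6), (1, 3, 4), (1, 3, 6), (1, 4, 6), (3, 0, 1)]
  Td := [((0, 1), (1, 4), 2), ((0, 1), (1, 8), 6), ((0, 1), (2, 3), 7), ((0, 1), (2, 9), 5), ((0,
    3), (1, 4), 2), ((0, 3), (1, 8), 6), ((0, 3), (2, 3), 7), ((0, 3), (2, 9), 5), ((1, 0),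
    (0, 3), 7), ((1, 0), (0, 5), 8), ((1, 3), (0, 3), 7), ((1, 3), (0, 5), 8), ((1, 4), (0,
    3), 7), ((1, 4), (0, 5), 8), ((1, 6), (0, 3), 7), ((1, 6), (0, 5), 8), ((3, 0), (7, 4),
    2), ((3, 0), (7, 6), 4), ((3, 0), (7, 8), 6), ((3, 0), (7, 9), 5), ((3, 1), (7, 4), 2),
    ((3, 1), (7, 6), 4), ((3, 1), (7, 8), 6), ((3, 1), (7, 9), 5), ((4, 1), (6, 5), 8), ((4,
    1), (6, 7), 3), ((6, 1), (8, 1), 0), ((6, 1), (8, 7), 3)]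
  G := [[0, 0x11c111c111c1e411c111c111c1e8c2, 0x48ee248ee248ee2d448ee248ee29c6a24cc1,
    0x11c211c211c2d8411c211c211c2d48c, 0x11a211a211a2d211a211a298c11a24245], [0,
    0x11c111c111c1e811c111c111c1e868, 0, 0x59c259c21dc2d159c259c259c2d8c1,
    0x1ba21ba239a2d841ba239a21ba2d18c]]

noncomputable def n1693 : Ent := ⟨e1693, noF, [], [], []⟩

def c1693 : PLift (Cov.check n1693.C.D v1693 = true) := ⟨by decide +kernel⟩

def b1693 : PLift (entF (fidx ts) 400 1693 n1693 = true) := ⟨by decide +kernel⟩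

theorem g1693 : GoodF (fidx ts) 400 1693 := GoodF.ofV v1693 n1693 c1693.down b1693.down

/-- 4845764:1417/3 -/
noncomputable def e1694 : SCfg where
  D := {
    a := 7
    L := 10
    kp := 8
    inn := [(0, 1), (0, 3), (0, 4), (1, 0), (1, 2), (1, 4), (1, 5), (2, 1), (2, 5), (3, 0), (3, 4), (4,
      0), (4, 1), (4, 3), (5, 1), (5, 2), (5, 6), (6, 5)]
    mix := [(0, 0), (1, 0), (1, 1), (1, 2), (1, 3), (2, 1), (2, 4), (3, 0), (3, 5), (3, 6), (4, 1), (4,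
      6), (4, 7), (4, 8), (5, 2), (5, 4), (5, 9), (6, 4), (6, 8), (6, 9)]
    cl := [1, 0, 0, 7, 2, 8, 3, 6, 4, 5]
    chq := [(0, 1), (1, 0), (1, 3), (1, 4), (1, 6), (2, 5), (3, 1), (4, 1), (5, 2), (6, 1)]
    rng := [(0, 3), (0, 5), (1, 4), (1, 8), (2, 3), (2, 9), (3, 0), (3, 2), (4, 1), (4, 8), (5, 0), (5,
      6), (6, 5), (6, 7), (7, 6), (7, 8), (8, 1), (8, 4), (8, 7), (8, 9), (9, 2), (9, 8)]
    lev := [] }
  links := [[1, 7, 3, 4], [7, 0, 4, 8, 2, 5, 9, 10], [5, 1, 8, 11], [4, 0, 7, 12, 13], [8, 1, 0, 3, 13,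
    14, 15], [9, 1, 2, 11, 6, 16], [16, 5, 11, 15]]
  P := {
    a := 7
    N := 17
    nb := [154, 1973, 2338, 12433, 57611, 68166, 100384, 5131, 34838, 66594, 642, 33124, 8328, 20504,
      40976, 84304, 33376]
    tri := [(0, 1, 4), (0, 1, 7), (0, 3, 4), (0, 3, 7), (1, 2, 5), (1, 2, 8), (1, 4, 8), (1, 5, 9), (1,
      7, 10), (1, 9, 10), (2, 5, 11), (2, 8, 11), (3, 4, 13), (3, 7, 12), (3, 12, 13), (4, 8, 15),
      (4, 13, 14), (4, 14, 15), (5, 6, 11), (5, 6, 16), (5, 9, 16), (6, 11, 15), (6, 15, 16)]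
    fin := [0, 0, 2, 0, 0, 2, 6, 0, 2, 2, 10, 6, 12, 13, 14, 15, 16]
    chd := [(0, 2), (0, 13), (0, 14), (0, 15), (6, 16)]
    steps := [(0, 1), (0, 3), (0, 4), (0, 7), (2, 5), (2, 8), (2, 9), (6, 11)] }
  rep := [2, 0, 6, 13, 15, 16, 14, 10, 12]

noncomputable def v1694 : Cov.CovD where
  P := 3
  N := 6
  pl := [3, 5]
  lev := [⟨[], [], [], [], [(0, 1, [0, 3, 4, 6])]⟩,
    ⟨[], [(0, 0), (0, 1)], [(0, 0), (0, 1)], [7], [(0, 1, [0, 3, 4, 6]), (1, 0, [1]), (2,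
      0, [1])]⟩,
    ⟨[(0, 1)], [(1, 0), (1, 1), (1, 2)], [(0, 2)], [], [(1, 0, [1]), (4, 2, [5])]⟩,
    ⟨[(0, 1)], [(0, 1), (0, 3), (1, 1)], [(1, 3)], [8], [(0, 1, [0, 3, 4, 6]), (6, 3,
      [1])]⟩,
    ⟨[(0, 1), (0, 3), (1, 2), (1, 3)], [(0, 0), (0, 1), (0, 3), (0, 4), (0, 6), (1, 0), (1,
      1), (1, 3), (1, 4), (1, 6), (2, 0), (3, 0), (3, 1), (3, 3), (3, 4), (3, 6)], [(0, 3),
      (0, 4), (0, 6), (3, 4), (3, 6), (4, 6)], [], [(1, 0, [1]), (6, 3, [1]), (7, 6, [1]),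
      (8, 4, [1])]⟩,
    ⟨[(0, 1), (1, 2), (1, 4)], [(1, 0), (1, 1), (1, 2), (1, 5), (2, 0), (2, 2), (2, 5)],
      [(0, 2), (0, 5), (2, 5)], [], [(2, 0, [1]), (4, 2, [5]), (9, 5, [2])]⟩,
    ⟨[(1, 5), (2, 5)], [(2, 2), (4, 4), (5, 0), (5, 2), (5, 4), (5, 5)], [(2, 4), (2, 5),
      (4, 5)], [], [(4, 2, [5]), (8, 4, [1]), (9, 5, [2])]⟩]
  Ta := [((1, 4), 0, 2), ((1, 8), 0, 4), ((2, 3), 0, 7), ((2, 9), 0, 5)]
  Tb := [((0, 3, 5), 1, 7, 8), ((1, 4, 8), 0, 2, 4), ((2, 3, 9), 0, 7, 5), ((3, 0, 2), 7, 1, 0),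
    ((4, 1, 8), 2, 0, 4), ((5, 0, 6), 8, 1, 3), ((6, 5, 7), 3, 8, 6), ((7, 6, 8), 6, 3, 4),
    ((8, 1, 4), 4, 0, 2), ((8, 1, 7), 4, 0, 6), ((8, 1, 9), 4, 0, 5), ((8, 4, 7), 4, 2, 6),
    ((8, 4, 9), 4, 2, 5), ((8, 7, 9), 4, 6, 5), ((9, 2, 8), 5, 0, 4)]
  Tc := [(1, 0, 3), (1, 0, 4), (1, 0, 6), (1, 3, 4), (1, 3, 6), (1, 4, 6)]
  Td := [((0, 1), (1, 4), 2), ((0, 1), (1, 8), 4), ((0, 1), (2, 3), 7), ((0, 1), (2, 9), 5), ((1,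
    0), (0, 3), 7), ((1, 0), (0, 5), 8), ((1, 3), (0, 3), 7), ((1, 3), (0, 5), 8), ((1, 4),
    (0, 3), 7), ((1, 4), (0, 5), 8), ((1, 6), (0, 3), 7), ((1, 6), (0, 5), 8), ((2, 5), (4,
    1), 0), ((2, 5), (4, 8), 4), ((3, 1), (6, 5), 8), ((3, 1), (6, 7), 6), ((4, 1), (8, 1),
    0), ((4, 1), (8, 4), 2), ((4, 1), (8, 7), 6), ((4, 1), (8, 9), 5), ((5, 2), (9, 2), 0),
    ((5, 2), (9, 8), 4), ((6, 1), (7, 6), 3), ((6, 1), (7, 8), 4)]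
  G := [[0, 0x11c111c111c1e411c111c111c1e8a4, 0xca62ca62ca62d848ee28c6a2c6a25cc1,
    0x11cd211cd211cd2d4811cd211cd211cd2d845, 0x11ab211ab211ab2d211ab2138b2138b2d8c1], [0,
    0x11c111c111c1e811c111c111c1e468, 0, 0x59c21dc21dc2d1859c259c259c2d845,
    0x39a239a239a2d21ba2b1a21ba2d1c1]]

noncomputable def n1694 : Ent := ⟨e1694, noF, [], [], []⟩

def c1694 : PLift (Cov.check n1694.C.D v1694 = true) := ⟨by decide +kernel⟩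

def b1694 : PLift (entF (fidx ts) 400 1694 n1694 = true) := ⟨by decide +kernel⟩

theorem g1694 : GoodF (fidx ts) 400 1694 := GoodF.ofV v1694 n1694 c1694.down b1694.down

/-- 4845764:1417 -/
noncomputable def e1695 : SCfg where
  D := {
    a := 7
    L := 11
    kp := 9
    inn := [(0, 1), (0, 3), (0, 4), (1, 0), (1, 2), (1, 4), (1, 5), (2, 1), (2, 5), (3, 0), (3, 4), (4,
      0), (4, 1), (4, 3), (5, 1), (5, 2), (5, 6), (6, 5)]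
    mix := [(0, 0), (1, 0), (1, 1), (1, 2), (1, 3), (2, 1), (2, 4), (3, 0), (3, 5), (3, 6), (4, 1), (4,
      6), (4, 7), (4, 8), (5, 2), (5, 4), (5, 9), (6, 4), (6, 9), (6, 10)]
    cl := [0, 1, 2, 1, 3, 9, 4, 6, 7, 5, 8]
    chq := [(0, 4), (0, 6), (0, 7), (2, 3), (2, 8), (3, 2), (4, 0), (6, 0), (7, 0), (8, 2)]
    rng := [(0, 3), (0, 5), (1, 4), (1, 8), (2, 3), (2, 9), (3, 0), (3, 2), (4, 1), (4, 10), (5, 0),
      (5, 6), (6, 5), (6, 7), (7, 6), (7, 8), (8, 1), (8, 7), (9, 2), (9, 10), (10, 4), (10, 9)]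
    lev := [] }
  links := [[1, 7, 3, 4], [7, 0, 4, 8, 2, 5, 9, 10], [5, 1, 8, 11], [4, 0, 7, 12, 13], [8, 1, 0, 3, 13,
    14, 15], [9, 1, 2, 11, 6, 16], [16, 5, 11, 17]]
  P := {
    a := 7
    N := 18
    nb := [154, 1973, 2338, 12433, 57611, 68166, 198688, 5131, 34838, 66594, 642, 131428, 8328, 20504,
      40976, 16656, 131680, 67648]
    tri := [(0, 1, 4), (0, 1, 7), (0, 3, 4), (0, 3, 7), (1, 2, 5), (1, 2, 8), (1, 4, 8), (1, 5, 9), (1,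
      7, 10), (1, 9, 10), (2, 5, 11), (2, 8, 11), (3, 4, 13), (3, 7, 12), (3, 12, 13), (4, 8, 15),
      (4, 13, 14), (4, 14, 15), (5, 6, 11), (5, 6, 16), (5, 9, 16), (6, 11, 17), (6, 16, 17)]
    fin := [0, 1, 1, 0, 0, 5, 6, 0, 1, 5, 1, 11, 12, 13, 14, 15, 16, 6]
    chd := [(0, 13), (0, 14), (0, 15), (5, 6), (5, 11)]
    steps := [(0, 3), (0, 4), (0, 7), (1, 2), (1, 8), (1, 10), (5, 9), (6, 17)] }
  rep := [0, 1, 5, 11, 13, 16, 14, 15, 6, 12]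

noncomputable def v1695 : Cov.CovD where
  P := 3
  N := 7
  pl := [5, 9]
  lev := [⟨[], [], [], [], [(0, 0, [4, 6, 7])]⟩,
    ⟨[], [(0, 0), (0, 1), (0, 2)], [(0, 1), (0, 2), (1, 1), (1, 2)], [], [(0, 0, [4, 6,
      7]), (1, 1, []), (2, 2, [3, 8]), (3, 1, [])]⟩,
    ⟨[(0, 1)], [(1, 0), (1, 1), (1, 2), (1, 3)], [(1, 3)], [], [(1, 1, []), (4, 3, [2])]⟩,
    ⟨[(0, 1)], [(0, 0), (0, 4), (1, 0)], [(0, 4)], [9], [(0, 0, [4, 6, 7]), (6, 4, [0])]⟩,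
    ⟨[(0, 1), (0, 3), (1, 2), (1, 3)], [(0, 0), (0, 1), (0, 4), (0, 6), (0, 7), (1, 0), (1,
      1), (1, 2), (1, 4), (1, 6), (1, 7), (2, 1), (3, 0), (3, 1), (3, 4), (3, 6), (3, 7)],
      [(1, 4), (1, 6), (1, 7), (4, 6), (4, 7), (6, 7)], [], [(1, 1, []), (6, 4, [0]), (7, 6,
      [0]), (8, 7, [0])]⟩,
    ⟨[(0, 1), (1, 2), (1, 4)], [(1, 0), (1, 1), (1, 2), (1, 3), (2, 1), (2, 2), (2, 3)],
      [(2, 3)], [5], [(2, 2, [3, 8]), (4, 3, [2])]⟩,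
    ⟨[(1, 5), (2, 5)], [(2, 3), (5, 2), (5, 3), (5, 8)], [(3, 8)], [5], [(4, 3, [2]), (10,
      8, [2])]⟩]
  Ta := [((1, 4), 1, 3), ((1, 8), 1, 7), ((3, 0), 1, 0), ((3, 2), 1, 2)]
  Tb := [((0, 3, 5), 0, 1, 9), ((1, 4, 8), 1, 3, 7), ((2, 3, 9), 2, 1, 5), ((3, 0, 2), 1, 0, 2),
    ((4, 1, 10), 3, 1, 8), ((5, 0, 6), 9, 0, 4), ((6, 5, 7), 4, 9, 6), ((7, 6, 8), 6, 4, 7),
    ((8, 1, 7), 7, 1, 6), ((9, 2, 10), 5, 2, 8), ((10, 4, 9), 8, 3, 5)]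
  Tc := [(0, 4, 6), (0, 4, 7), (0, 6, 7), (2, 3, 8)]
  Td := [((0, 4), (0, 3), 1), ((0, 4), (0, 5), 9), ((0, 6), (0, 3), 1), ((0, 6), (0, 5), 9), ((0,
    7), (0, 3), 1), ((0, 7), (0, 5), 9), ((2, 3), (2, 3), 1), ((2, 3), (2, 9), 5), ((2, 8),
    (2, 3), 1), ((2, 8), (2, 9), 5), ((3, 2), (4, 1), 1), ((3, 2), (4, 10), 8), ((4, 0), (6,
    5), 9), ((4, 0), (6, 7), 6), ((6, 0), (7, 6), 4), ((6, 0), (7, 8), 7), ((7, 0), (8, 1),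
    1), ((7, 0), (8, 7), 6), ((8, 2), (10, 4), 3), ((8, 2), (10, 9), 5)]
  G := [[0, 0, 0x1dbe11dbe11dbe1e184, 0, 0x4edb14edb14edb1e484], [0, 0xe27d1e27d1e27d1e248,
    0x11c18f21d17e1d17e1e348, 0x222d1222d1222d1e282, 0x4edb14edb14edb1e482]]

noncomputable def n1695 : Ent := ⟨e1695, noF, [], [], [(12, 17, [6903326391201334775872065844685381424292761054348340378595029936619521, 0]), (14, 17, [6903326391201334775872065844685381424292761054348340378595029936623617, 0]), (15, 17, [6903326391201334775872065844685381424292761054348340378595029936627713, 0])]⟩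

def c1695 : PLift (Cov.check n1695.C.D v1695 = true) := ⟨by decide +kernel⟩

def b1695 : PLift (entF (fidx ts) 400 1695 n1695 = true) := ⟨by decide +kernel⟩

theorem g1695 : GoodF (fidx ts) 400 1695 := GoodF.ofV v1695 n1695 c1695.down b1695.down

/-- 4845748:1421 -/
noncomputable def e1696 : SCfg where
  D := {
    a := 7
    L := 11
    kp := 9
    inn := [(0, 1), (0, 3), (0, 6), (1, 0), (1, 2), (1, 4), (1, 6), (2, 1), (2, 4), (3, 0), (3, 6), (4,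
      1), (4, 2), (4, 5), (4, 6), (5, 4), (5, 6), (6, 0), (6, 1), (6, 3), (6, 4), (6, 5)]
    mix := [(0, 0), (1, 0), (1, 1), (1, 2), (1, 3), (2, 1), (2, 4), (3, 0), (3, 5), (3, 6), (4, 4), (4,
      7), (4, 8), (5, 7), (5, 9), (6, 6), (6, 9), (6, 10)]
    cl := [0, 0, 7, 8, 2, 9, 1, 3, 5, 4, 6]
    chq := [(0, 1), (0, 3), (0, 4), (0, 5), (0, 6), (1, 0), (3, 0), (4, 0), (5, 0), (6, 0)]
    rng := [(0, 3), (0, 5), (1, 2), (1, 4), (2, 1), (2, 3), (3, 0), (3, 2), (4, 1), (4, 8), (5, 0), (5,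
      6), (6, 5), (6, 10), (7, 8), (7, 9), (8, 4), (8, 7), (9, 7), (9, 10), (10, 6), (10, 9)]
    lev := [] }
  links := [[1, 7, 3, 6], [7, 0, 6, 4, 2, 8, 9, 10], [8, 1, 4, 11], [6, 0, 7, 12, 13], [11, 2, 1, 6, 5,
    14, 15], [14, 4, 6, 16], [16, 5, 4, 1, 0, 3, 13, 17]]
  P := {
    a := 7
    N := 18
    nb := [202, 2005, 2322, 12481, 51302, 82000, 204859, 5131, 2566, 1282, 642, 33044, 8328, 135240,
      98352, 18448, 147552, 73792]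
    tri := [(0, 1, 6), (0, 1, 7), (0, 3, 6), (0, 3, 7), (1, 2, 4), (1, 2, 8), (1, 4, 6), (1, 7, 10),
      (1, 8, 9), (1, 9, 10), (2, 4, 11), (2, 8, 11), (3, 6, 13), (3, 7, 12), (3, 12, 13), (4, 5,
      6), (4, 5, 14), (4, 11, 15), (4, 14, 15), (5, 6, 16), (5, 14, 16), (6, 13, 17), (6, 16, 17)]
    fin := [0, 0, 0, 0, 0, 0, 0, 0, 0, 9, 10, 11, 12, 13, 14, 15, 16, 17]
    chd := [(0, 13), (0, 14), (0, 15), (0, 16), (0, 17)]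
    steps := [(0, 1), (0, 2), (0, 3), (0, 4), (0, 5), (0, 6), (0, 7), (0, 8)] }
  rep := [0, 13, 11, 14, 16, 15, 17, 9, 10, 12]

noncomputable def v1696 : Cov.CovD where
  P := 3
  N := 7
  pl := [2, 3, 4, 5]
  lev := [⟨[], [], [], [], [(0, 0, [1, 3, 4, 5, 6])]⟩,
    ⟨[], [(0, 0)], [(0, 0)], [7, 8], [(0, 0, [1, 3, 4, 5, 6]), (1, 0, [1, 3, 4, 5, 6])]⟩,
    ⟨[(0, 1)], [(1, 0)], [], [2], [(1, 0, [1, 3, 4, 5, 6])]⟩,
    ⟨[(0, 1)], [(0, 0), (0, 1), (1, 0)], [(0, 1)], [9], [(0, 0, [1, 3, 4, 5, 6]), (6, 1,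
      [0])]⟩,
    ⟨[(0, 1), (1, 2)], [(1, 0), (1, 3), (1, 5), (2, 0), (2, 3), (2, 5)], [(3, 5)], [2],
      [(7, 3, [0]), (8, 5, [0])]⟩,
    ⟨[(1, 4), (2, 4)], [(4, 3), (4, 4), (4, 5)], [(3, 4)], [], [(7, 3, [0]), (9, 4, [0])]⟩,
    ⟨[(0, 1), (0, 3), (0, 4), (0, 5), (1, 2), (1, 3), (1, 4), (1, 5), (2, 4), (3, 4), (3,
      5), (4, 5)], [(0, 0), (0, 1), (0, 4), (0, 6), (1, 0), (1, 1), (1, 4), (1, 6), (3, 0),
      (3, 1), (3, 4), (3, 6), (4, 1), (4, 3), (4, 4), (4, 5), (4, 6), (5, 1), (5, 3), (5, 4),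
      (5, 6)], [(1, 4), (1, 6), (4, 6)], [], [(6, 1, [0]), (9, 4, [0]), (10, 6, [0])]⟩]
  Ta := [((0, 3), 0, 8), ((0, 5), 0, 9), ((1, 2), 0, 7), ((1, 4), 0, 2)]
  Tb := [((0, 3, 5), 0, 8, 9), ((1, 2, 4), 0, 7, 2), ((2, 1, 3), 7, 0, 8), ((3, 0, 2), 8, 0, 7),
    ((4, 1, 8), 2, 0, 5), ((5, 0, 6), 9, 0, 1), ((6, 5, 10), 1, 9, 6), ((7, 8, 9), 3, 5, 4),
    ((8, 4, 7), 5, 2, 3), ((9, 7, 10), 4, 3, 6), ((10, 6, 9), 6, 1, 4)]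
  Tc := [(0, 1, 3), (0, 1, 4), (0, 1, 5), (0, 1, 6), (0, 3, 4), (0, 3, 5), (0, 3, 6), (0, 4, 5),
    (0, 4, 6), (0, 5, 6)]
  Td := [((0, 1), (0, 3), 8), ((0, 1), (0, 5), 9), ((0, 1), (1, 2), 7), ((0, 1), (1, 4), 2), ((0,
    3), (0, 3), 8), ((0, 3), (0, 5), 9), ((0, 3), (1, 2), 7), ((0, 3), (1, 4), 2), ((0, 4),
    (0, 3), 8), ((0, 4), (0, 5), 9), ((0, 4), (1, 2), 7), ((0, 4), (1, 4), 2), ((0, 5), (0,
    3), 8), ((0, 5), (0, 5), 9), ((0, 5), (1, 2), 7), ((0, 5), (1, 4), 2), ((0, 6), (0, 3),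
    8), ((0, 6), (0, 5), 9), ((0, 6), (1, 2), 7), ((0, 6), (1, 4), 2), ((1, 0), (6, 5), 9),
    ((1, 0), (6, 10), 6), ((3, 0), (7, 8), 5), ((3, 0), (7, 9), 4), ((4, 0), (9, 7), 3), ((4,
    0), (9, 10), 6), ((5, 0), (8, 4), 2), ((5, 0), (8, 7), 3), ((6, 0), (10, 6), 1), ((6, 0),
    (10, 9), 4)]
  G := [[0, 0x611a11c11e84611a11c11e4e11a11411e4ac, 0,
    0x11312111ed1131131c3dcc871d4111b9c3512113991ed44cb1d111e889113121dd8fddc31c111d111dc45e2,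
    0x113111d111eb111d2c821228113111e9113111d111ebc4871da14113119eb1131131918fbc44b1d1888a113111e984ce158e6],
    [0, 0x411a11411ea112c611e11811e86e11e116489,
    0x111111e111111ec2111111e111111ec46111111e111111ec48c,
    0x11311312d11311312d4cc8f1d411311312d11311312dcccb1d811311312d11311312dccce1d4e2,
    0x113111d11deb111d2c82122122c113111e9113111e9c851da11621132c113111e911c111e9484cf1da11311de984c158e6]]

noncomputable def n1696 : Ent := ⟨e1696, noF, [], [], []⟩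

def c1696 : PLift (Cov.check n1696.C.D v1696 = true) := ⟨by decide +kernel⟩

def b1696 : PLift (entF (fidx ts) 400 1696 n1696 = true) := ⟨by decide +kernel⟩

theorem g1696 : GoodF (fidx ts) 400 1696 := GoodF.ofV v1696 n1696 c1696.down b1696.down

/-- 4845674:1432/1 -/
noncomputable def e1697 : SCfg where
  D := {
    a := 7
    L := 10
    kp := 7
    inn := [(0, 1), (0, 3), (0, 5), (1, 0), (1, 2), (1, 4), (1, 5), (2, 1), (3, 0), (3, 5), (4, 1), (4,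
      5), (4, 6), (5, 0), (5, 1), (5, 3), (5, 4), (6, 4)]
    mix := [(0, 0), (1, 0), (1, 1), (1, 2), (1, 3), (2, 1), (2, 2), (2, 4), (3, 0), (3, 5), (3, 6), (4,
      3), (4, 7), (4, 8), (5, 5), (5, 8), (5, 9), (6, 4), (6, 7), (6, 8)]
    cl := [0, 1, 0, 3, 2, 4, 7, 5, 3, 6]
    chq := [(0, 4), (0, 6), (4, 0), (6, 0)]
    rng := [(0, 1), (0, 6), (1, 0), (1, 4), (2, 3), (2, 4), (3, 2), (3, 7), (4, 1), (4, 2), (4, 7), (4,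
      8), (5, 6), (5, 9), (6, 0), (6, 5), (7, 3), (7, 4), (8, 4), (8, 9), (9, 5), (9, 8)]
    lev := [] }
  links := [[1, 5, 3, 7], [5, 0, 7, 8, 2, 9, 10, 4], [9, 1, 8, 11], [7, 0, 5, 12, 13], [5, 1, 10, 14, 6,
    15], [12, 3, 0, 1, 4, 15, 16], [15, 4, 14, 11]]
  P := {
    a := 7
    N := 17
    nb := [170, 1973, 2818, 12449, 50274, 102427, 51216, 8459, 2182, 3078, 16914, 49988, 73768, 4232,
      3152, 67696, 36896]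
    tri := [(0, 1, 5), (0, 1, 7), (0, 3, 5), (0, 3, 7), (1, 2, 8), (1, 2, 9), (1, 4, 5), (1, 4, 10),
      (1, 7, 8), (1, 9, 10), (2, 8, 11), (2, 9, 11), (3, 5, 12), (3, 7, 13), (3, 12, 13), (4, 5,
      15), (4, 6, 14), (4, 6, 15), (4, 10, 14), (5, 12, 16), (5, 15, 16), (6, 11, 14), (6, 11,
      15)]
    fin := [0, 0, 0, 0, 4, 0, 6, 0, 8, 0, 4, 6, 12, 13, 14, 4, 16]
    chd := [(0, 12), (0, 16)]
    steps := [(0, 1), (0, 2), (0, 3), (0, 5), (0, 7), (0, 9), (4, 10), (4, 15), (6, 11)] }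
  rep := [0, 8, 6, 4, 12, 14, 16, 13]

noncomputable def v1697 : Cov.CovD where
  P := 3
  N := 5
  pl := [1, 4, 6, 7]
  lev := [⟨[], [], [], [], [(0, 0, [4, 6])]⟩,
    ⟨[], [(0, 0), (0, 3)], [(0, 0), (0, 3)], [1], [(0, 0, [4, 6]), (2, 0, [4, 6]), (3, 3,
      [])]⟩,
    ⟨[(0, 1)], [(1, 0), (1, 3)], [], [1, 2], [(2, 0, [4, 6])]⟩,
    ⟨[(0, 1)], [(0, 0), (0, 4), (1, 0)], [(0, 4)], [7], [(0, 0, [4, 6]), (5, 4, [0])]⟩,
    ⟨[(0, 1), (1, 2)], [(1, 0), (1, 3)], [(3, 3)], [5], [(3, 3, []), (8, 3, [])]⟩,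
    ⟨[(0, 1), (0, 3), (0, 4), (1, 2), (1, 3), (1, 4), (3, 4)], [(0, 0), (0, 3), (0, 4), (0,
      6), (1, 0), (1, 3), (1, 4), (1, 6), (3, 0), (3, 3), (3, 4), (3, 6), (4, 3), (4, 4), (4,
      6)], [(3, 4), (3, 6), (4, 6)], [], [(5, 4, [0]), (8, 3, []), (9, 6, [0])]⟩,
    ⟨[(1, 4), (4, 5)], [(4, 3), (5, 3)], [], [2, 5], [(8, 3, [])]⟩]
  Ta := [((0, 1), 0, 1), ((0, 6), 0, 7), ((2, 3), 0, 3), ((2, 4), 0, 2), ((3, 2), 3, 0), ((3, 7),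
    3, 5), ((8, 4), 3, 2), ((8, 9), 3, 6)]
  Tb := [((0, 1, 6), 0, 1, 7), ((1, 0, 4), 1, 0, 2), ((2, 3, 4), 0, 3, 2), ((3, 2, 7), 3, 0, 5),
    ((4, 1, 2), 2, 1, 0), ((4, 1, 7), 2, 1, 5), ((4, 1, 8), 2, 1, 3), ((4, 2, 7), 2, 0, 5),
    ((4, 2, 8), 2, 0, 3), ((4, 7, 8), 2, 5, 3), ((5, 6, 9), 4, 7, 6), ((6, 0, 5), 7, 0, 4),
    ((7, 3, 4), 5, 3, 2), ((8, 4, 9), 3, 2, 6), ((9, 5, 8), 6, 4, 3)]
  Tc := [(0, 4, 6)]
  Td := [((0, 4), (0, 1), 1), ((0, 4), (0, 6), 7), ((0, 4), (2, 3), 3), ((0, 4), (2, 4), 2), ((0,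
    6), (0, 1), 1), ((0, 6), (0, 6), 7), ((0, 6), (2, 3), 3), ((0, 6), (2, 4), 2), ((4, 0),
    (5, 6), 7), ((4, 0), (5, 9), 6), ((6, 0), (9, 5), 4), ((6, 0), (9, 8), 3)]
  G := [[0, 0x418135141341813e424, 0, 0x512c12512e8c12c12912e1c2,
    0x119111e8111212b7811121ee148], [0, 0x814111e811151e814111ee428, 0, 0xd12d12d12e182,
    0x811121e811121e811121ee842], [0, 0, 0xaa6114c11a11a11e8cc81148c,
    0x512c12942b8912c12512e4c2, 0x8121c811121e81a181e181f842], [0, 0, 0xe1121c13e11e848,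
    0xd12d12d12e848, 0x119121e811121e119121ee848]]

noncomputable def n1697 : Ent := ⟨e1697, noF, [], [], []⟩

def c1697 : PLift (Cov.check n1697.C.D v1697 = true) := ⟨by decide +kernel⟩

def b1697 : PLift (entF (fidx ts) 400 1697 n1697 = true) := ⟨by decide +kernel⟩

theorem g1697 : GoodF (fidx ts) 400 1697 := GoodF.ofV v1697 n1697 c1697.down b1697.down

/-- 4845674:1432 -/
noncomputable def e1698 : SCfg where
  D := {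
    a := 7
    L := 11
    kp := 8
    inn := [(0, 1), (0, 3), (0, 5), (1, 0), (1, 2), (1, 4), (1, 5), (2, 1), (3, 0), (3, 5), (4, 1), (4,
      5), (4, 6), (5, 0), (5, 1), (5, 3), (5, 4), (6, 4)]
    mix := [(0, 0), (1, 0), (1, 1), (1, 2), (1, 3), (2, 1), (2, 2), (2, 4), (3, 0), (3, 5), (3, 6), (4,
      3), (4, 7), (4, 8), (5, 5), (5, 8), (5, 9), (6, 7), (6, 8), (6, 10)]
    cl := [0, 2, 0, 1, 6, 3, 7, 4, 1, 5, 8]
    chq := [(0, 3), (0, 5), (3, 0), (5, 0)]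
    rng := [(0, 1), (0, 6), (1, 0), (1, 4), (2, 3), (2, 4), (3, 2), (3, 7), (4, 1), (4, 2), (5, 6), (5,
      9), (6, 0), (6, 5), (7, 3), (7, 10), (8, 9), (8, 10), (9, 5), (9, 8), (10, 7), (10, 8)]
    lev := [] }
  links := [[1, 5, 3, 7], [5, 0, 7, 8, 2, 9, 10, 4], [9, 1, 8, 11], [7, 0, 5, 12, 13], [5, 1, 10, 14, 6,
    15], [12, 3, 0, 1, 4, 15, 16], [15, 4, 14, 17]]
  P := {
    a := 7
    N := 18
    nb := [170, 1973, 2818, 12449, 50274, 102427, 180240, 8459, 2182, 3078, 16914, 772, 73768, 4232,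
      132176, 196720, 36896, 49216]
    tri := [(0, 1, 5), (0, 1, 7), (0, 3, 5), (0, 3, 7), (1, 2, 8), (1, 2, 9), (1, 4, 5), (1, 4, 10),
      (1, 7, 8), (1, 9, 10), (2, 8, 11), (2, 9, 11), (3, 5, 12), (3, 7, 13), (3, 12, 13), (4, 5,
      15), (4, 6, 14), (4, 6, 15), (4, 10, 14), (5, 12, 16), (5, 15, 16), (6, 14, 17), (6, 15,
      17)]
    fin := [0, 0, 0, 0, 4, 0, 4, 0, 8, 0, 4, 11, 12, 13, 14, 4, 16, 17]
    chd := [(0, 12), (0, 16)]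
    steps := [(0, 1), (0, 2), (0, 3), (0, 5), (0, 7), (0, 9), (4, 6), (4, 10), (4, 15)] }
  rep := [0, 4, 8, 12, 14, 16, 11, 13, 17]

noncomputable def v1698 : Cov.CovD where
  P := 3
  N := 6
  pl := [1, 4, 6, 7, 10]
  lev := [⟨[], [], [], [], [(0, 0, [3, 5])]⟩,
    ⟨[], [(0, 0), (0, 1)], [(0, 0), (0, 1)], [2], [(0, 0, [3, 5]), (2, 0, [3, 5]), (3, 1,
      [])]⟩,
    ⟨[(0, 1)], [(1, 0), (1, 1)], [], [2, 6], [(2, 0, [3, 5])]⟩,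
    ⟨[(0, 1)], [(0, 0), (0, 3), (1, 0)], [(0, 3)], [7], [(0, 0, [3, 5]), (5, 3, [0])]⟩,
    ⟨[(0, 1), (1, 2)], [(1, 0), (1, 1)], [(1, 1)], [4], [(3, 1, []), (8, 1, [])]⟩,
    ⟨[(0, 1), (0, 3), (0, 4), (1, 2), (1, 3), (1, 4), (3, 4)], [(0, 0), (0, 1), (0, 3), (0,
      5), (1, 0), (1, 1), (1, 3), (1, 5), (3, 0), (3, 1), (3, 3), (3, 5), (4, 1), (4, 3), (4,
      5)], [(1, 3), (1, 5), (3, 5)], [], [(5, 3, [0]), (8, 1, []), (9, 5, [0])]⟩,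
    ⟨[(1, 4), (4, 5)], [(4, 1), (5, 1)], [], [4, 8], [(8, 1, [])]⟩]
  Ta := [((0, 1), 0, 2), ((0, 6), 0, 7), ((2, 3), 0, 1), ((2, 4), 0, 6), ((3, 2), 1, 0), ((3, 7),
    1, 4), ((8, 9), 1, 5), ((8, 10), 1, 8)]
  Tb := [((0, 1, 6), 0, 2, 7), ((1, 0, 4), 2, 0, 6), ((2, 3, 4), 0, 1, 6), ((3, 2, 7), 1, 0, 4),
    ((4, 1, 2), 6, 2, 0), ((5, 6, 9), 3, 7, 5), ((6, 0, 5), 7, 0, 3), ((7, 3, 10), 4, 1, 8),
    ((8, 9, 10), 1, 5, 8), ((9, 5, 8), 5, 3, 1), ((10, 7, 8), 8, 4, 1)]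
  Tc := [(0, 3, 5)]
  Td := [((0, 3), (0, 1), 2), ((0, 3), (0, 6), 7), ((0, 3), (2, 3), 1), ((0, 3), (2, 4), 6), ((0,
    5), (0, 1), 2), ((0, 5), (0, 6), 7), ((0, 5), (2, 3), 1), ((0, 5), (2, 4), 6), ((3, 0),
    (5, 6), 7), ((3, 0), (5, 9), 5), ((5, 0), (9, 5), 3), ((5, 0), (9, 8), 1)]
  G := [[0, 0, 0xc1219c1219314e6182c121931a15a11ee48, 0x3161c2151c7121ce184,
    0x2151c21e1c31a1ce182], [0, 0, 0x9151c9151c9151ce9151c9151c9151cec24,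
    0x514514514e191821c918918c146, 0x9151c9151c9151ce128], [0,
    0x1411a111ee11218a1c4111e146148a, 0, 0x614c19235c22965d3161ce1421892de1fca1888c4,
    0xc19235619a35c29965d2151ce1421822de1fa84], [0, 0, 0,
    0x514514514e514514514ec918918918e918918918ecc2,
    0x9151c9151c9151ce8211d181d11d1888dd11d1888dd881f286]]

noncomputable def n1698 : Ent := ⟨e1698, noF, [], [], [(11, 17, [6903326391201334775872065844685381424292761054348340378595029936640001, 0])]⟩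

def c1698 : PLift (Cov.check n1698.C.D v1698 = true) := ⟨by decide +kernel⟩

def b1698 : PLift (entF (fidx ts) 400 1698 n1698 = true) := ⟨by decide +kernel⟩

theorem g1698 : GoodF (fidx ts) 400 1698 := GoodF.ofV v1698 n1698 c1698.down b1698.down

/-- 4846574:1444/1 -/
noncomputable def e1699 : SCfg where
  D := {
    a := 7
    L := 10
    kp := 7
    inn := [(0, 1), (0, 3), (0, 5), (1, 0), (1, 2), (1, 4), (1, 5), (2, 1), (2, 4), (3, 0), (3, 5), (3,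
      6), (4, 1), (4, 2), (5, 0), (5, 1), (5, 3), (6, 3)]
    mix := [(0, 0), (1, 0), (1, 1), (1, 2), (1, 3), (2, 1), (2, 4), (3, 0), (3, 5), (3, 6), (4, 0), (4,
      4), (4, 7), (5, 3), (5, 5), (5, 8), (5, 9), (6, 0), (6, 6), (6, 7)]
    cl := [0, 3, 5, 0, 4, 0, 2, 1, 6, 7]
    chq := [(1, 3), (1, 5), (3, 1), (5, 1)]
    rng := [(0, 7), (1, 2), (1, 4), (2, 1), (2, 3), (3, 2), (3, 8), (4, 1), (4, 7), (5, 6), (5, 9), (6,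
      5), (6, 7), (7, 0), (7, 4), (7, 6), (8, 3), (8, 9), (9, 5), (9, 8)]
    lev := [] }
  links := [[1, 5, 3, 7], [5, 0, 7, 4, 2, 8, 9, 10], [8, 1, 4, 11], [7, 0, 5, 12, 13, 6], [11, 2, 1, 7,
    14], [12, 3, 0, 1, 10, 15, 16], [7, 3, 13, 14]]
  P := {
    a := 7
    N := 17
    nb := [170, 1973, 2322, 12513, 18566, 103435, 24712, 16475, 2566, 1282, 33314, 16660, 73768,
      20552, 10448, 66592, 36896]
    tri := [(0, 1, 5), (0, 1, 7), (0, 3, 5), (0, 3, 7), (1, 2, 4), (1, 2, 8), (1, 4, 7), (1, 5, 10),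
      (1, 8, 9), (1, 9, 10), (2, 4, 11), (2, 8, 11), (3, 5, 12), (3, 6, 7), (3, 6, 13), (3, 12,
      13), (4, 7, 14), (4, 11, 14), (5, 10, 15), (5, 12, 16), (5, 15, 16), (6, 7, 14), (6, 13,
      14)]
    fin := [0, 1, 1, 0, 1, 0, 0, 0, 8, 9, 0, 11, 0, 13, 1, 15, 16]
    chd := [(8, 1), (9, 1)]
    steps := [(0, 3), (0, 5), (0, 6), (0, 7), (0, 10), (0, 12), (1, 2), (1, 4), (1, 14)] }
  rep := [0, 1, 13, 8, 11, 9, 15, 16]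

noncomputable def v1699 : Cov.CovD where
  P := 3
  N := 5
  pl := [4, 6, 8, 9]
  lev := [⟨[], [], [], [], [(0, 0, [])]⟩,
    ⟨[], [(0, 0), (0, 3), (0, 5)], [(0, 0), (0, 3), (0, 5), (3, 5)], [], [(0, 0, []), (1,
      3, [1]), (2, 5, [1]), (3, 0, [])]⟩,
    ⟨[(0, 1)], [(1, 0), (1, 3), (1, 5)], [], [4], [(1, 3, [1])]⟩,
    ⟨[(0, 1)], [(0, 0), (1, 0)], [(0, 0)], [2], [(0, 0, []), (5, 0, [])]⟩,
    ⟨[(0, 1), (1, 2)], [(0, 0), (1, 0), (1, 1), (1, 3), (1, 5), (2, 0), (2, 1), (2, 3), (3,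
      0)], [(0, 1)], [4], [(0, 0, []), (7, 1, [3, 5])]⟩,
    ⟨[(0, 1), (0, 3), (1, 2), (1, 3), (1, 4)], [(0, 0), (1, 0), (1, 3), (1, 5), (3, 0)],
      [(0, 0)], [6, 7], [(3, 0, []), (5, 0, [])]⟩,
    ⟨[(0, 3), (3, 5)], [(0, 0), (1, 0), (3, 0), (3, 1), (4, 0), (4, 1)], [(0, 1)], [2],
      [(0, 0, []), (7, 1, [3, 5])]⟩]
  Ta := [((0, 7), 0, 1), ((3, 2), 0, 5), ((3, 8), 0, 6), ((5, 6), 0, 2), ((5, 9), 0, 7)]
  Tb := [((1, 2, 4), 3, 5, 4), ((2, 1, 3), 5, 3, 0), ((3, 2, 8), 0, 5, 6), ((4, 1, 7), 4, 3, 1),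
    ((5, 6, 9), 0, 2, 7), ((6, 5, 7), 2, 0, 1), ((7, 0, 4), 1, 0, 4), ((7, 0, 6), 1, 0, 2),
    ((7, 4, 6), 1, 4, 2), ((8, 3, 9), 6, 0, 7), ((9, 5, 8), 7, 0, 6)]
  Tc := [(1, 3, 5)]
  Td := [((1, 3), (7, 0), 0), ((1, 3), (7, 4), 4), ((1, 3), (7, 6), 2), ((1, 5), (7, 0), 0), ((1,
    5), (7, 4), 4), ((1, 5), (7, 6), 2), ((3, 1), (1, 2), 5), ((3, 1), (1, 4), 4), ((5, 1),
    (2, 1), 3), ((5, 1), (2, 3), 0)]
  G := [[0, 0x8484688a88a6c1488e488ec81a448e484ea8146, 0, 0x8284824448c48cc88282c4f24,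
    0x8282c2282828228382888c8a8864884a88682c8888ccade4], [0, 0, 0,
    0x4284824448c44cc88242c8f21, 0x8282922828292212418c8a188e48111e12c81c4ade4], [0, 0,
    0x4282c824242c4282888c86484e48884e884ec4de1, 0x8284124414c44c981282c4f24,
    0x82829221282922188e88188e48181e118ec8de4]]

noncomputable def n1699 : Ent := ⟨e1699, noF, [], [], []⟩

def c1699 : PLift (Cov.check n1699.C.D v1699 = true) := ⟨by decide +kernel⟩

def b1699 : PLift (entF (fidx ts) 400 1699 n1699 = true) := ⟨by decide +kernel⟩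

theorem g1699 : GoodF (fidx ts) 400 1699 := GoodF.ofV v1699 n1699 c1699.down b1699.down

/-- 4846574:1444 -/
noncomputable def e1700 : SCfg where
  D := {
    a := 7
    L := 11
    kp := 8
    inn := [(0, 1), (0, 3), (0, 5), (1, 0), (1, 2), (1, 4), (1, 5), (2, 1), (2, 4), (3, 0), (3, 5), (3,
      6), (4, 1), (4, 2), (5, 0), (5, 1), (5, 3), (6, 3)]
    mix := [(0, 0), (1, 0), (1, 1), (1, 2), (1, 3), (2, 1), (2, 4), (3, 0), (3, 5), (3, 6), (4, 0), (4,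
      4), (4, 7), (5, 3), (5, 5), (5, 8), (5, 9), (6, 0), (6, 6), (6, 10)]
    cl := [0, 3, 5, 0, 4, 0, 1, 2, 6, 7, 8]
    chq := [(2, 3), (2, 5), (3, 2), (5, 2)]
    rng := [(0, 7), (0, 10), (1, 2), (1, 4), (2, 1), (2, 3), (3, 2), (3, 8), (4, 1), (4, 7), (5, 6),
      (5, 9), (6, 5), (6, 10), (7, 0), (7, 4), (8, 3), (8, 9), (9, 5), (9, 8), (10, 0), (10, 6)]
    lev := [] }
  links := [[1, 5, 3, 7], [5, 0, 7, 4, 2, 8, 9, 10], [8, 1, 4, 11], [7, 0, 5, 12, 13, 6], [11, 2, 1, 7,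
    14], [12, 3, 0, 1, 10, 15, 16], [7, 3, 13, 17]]
  P := {
    a := 7
    N := 18
    nb := [170, 1973, 2322, 12513, 18566, 103435, 139400, 147547, 2566, 1282, 33314, 16660, 73768,
      135240, 2192, 66592, 36896, 8384]
    tri := [(0, 1, 5), (0, 1, 7), (0, 3, 5), (0, 3, 7), (1, 2, 4), (1, 2, 8), (1, 4, 7), (1, 5, 10),
      (1, 8, 9), (1, 9, 10), (2, 4, 11), (2, 8, 11), (3, 5, 12), (3, 6, 7), (3, 6, 13), (3, 12,
      13), (4, 7, 14), (4, 11, 14), (5, 10, 15), (5, 12, 16), (5, 15, 16), (6, 7, 17), (6, 13,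
      17)]
    fin := [0, 1, 1, 0, 1, 0, 0, 0, 8, 9, 0, 11, 0, 13, 1, 15, 16, 17]
    chd := [(8, 1), (9, 1)]
    steps := [(0, 3), (0, 5), (0, 6), (0, 7), (0, 10), (0, 12), (1, 2), (1, 4), (1, 14)] }
  rep := [0, 13, 1, 8, 11, 9, 15, 16, 17]

noncomputable def v1700 : Cov.CovD where
  P := 3
  N := 6
  pl := [4, 6, 8, 9, 10]
  lev := [⟨[], [], [], [], [(0, 0, [])]⟩,
    ⟨[], [(0, 0), (0, 3), (0, 5)], [(0, 0), (0, 3), (0, 5), (3, 5)], [], [(0, 0, []), (1,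
      3, [2]), (2, 5, [2]), (3, 0, [])]⟩,
    ⟨[(0, 1)], [(1, 0), (1, 3), (1, 5)], [], [4], [(1, 3, [2])]⟩,
    ⟨[(0, 1)], [(0, 0), (1, 0)], [(0, 0)], [1], [(0, 0, []), (5, 0, [])]⟩,
    ⟨[(0, 1), (1, 2)], [(0, 0), (1, 0), (1, 2), (1, 3), (1, 5), (2, 0), (2, 2), (2, 3), (3,
      0)], [(0, 2)], [4], [(0, 0, []), (7, 2, [3, 5])]⟩,
    ⟨[(0, 1), (0, 3), (1, 2), (1, 3), (1, 4)], [(0, 0), (1, 0), (1, 3), (1, 5), (3, 0)],
      [(0, 0)], [6, 7], [(3, 0, []), (5, 0, [])]⟩,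
    ⟨[(0, 3), (3, 5)], [(0, 0), (1, 0), (3, 0), (4, 0)], [], [1, 8], [(0, 0, [])]⟩]
  Ta := [((0, 7), 0, 2), ((0, 10), 0, 8), ((3, 2), 0, 5), ((3, 8), 0, 6), ((5, 6), 0, 1), ((5,
    9), 0, 7)]
  Tb := [((0, 7, 10), 0, 2, 8), ((1, 2, 4), 3, 5, 4), ((2, 1, 3), 5, 3, 0), ((3, 2, 8), 0, 5, 6),
    ((4, 1, 7), 4, 3, 2), ((5, 6, 9), 0, 1, 7), ((6, 5, 10), 1, 0, 8), ((7, 0, 4), 2, 0, 4),
    ((8, 3, 9), 6, 0, 7), ((9, 5, 8), 7, 0, 6), ((10, 0, 6), 8, 0, 1)]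
  Tc := [(2, 3, 5)]
  Td := [((2, 3), (7, 0), 0), ((2, 3), (7, 4), 4), ((2, 5), (7, 0), 0), ((2, 5), (7, 4), 4), ((3,
    2), (1, 2), 5), ((3, 2), (1, 4), 4), ((5, 2), (2, 1), 3), ((5, 2), (2, 3), 0)]
  G := [[0, 0, 0x44cc6c81c24caa814cce4ccec88886c1ec8c8ce641c4c4ac888ac1c6,
    0xc2c2c824cce8888c4cce4884c4cce4ccec8888ccdac2c2c4246,
    0xc444a842c4c48cca8c4cce2882ccc6c4ac8ccaacbc488c4485e2], [0, 0, 0,
    0x1212c4212c298214811a8c111e48111e111ec8de4,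
    0x1414a84111e88111e28111e111ea8b148414445e2], [0,
    0xc2c29828c2a2c82ca6e84624acc466cce66aec8d63, 0,
    0x12481228312c2982111e88111e48111e111ec8de4,
    0x1414a8414811a8c14211a2c111e111ea8b14c4984e2]]

noncomputable def n1700 : Ent := ⟨e1700, noF, [], [], [(14, 17, [6903326391201334775872065844685381424292761054348340378595029936648193, 0])]⟩

def c1700 : PLift (Cov.check n1700.C.D v1700 = true) := ⟨by decide +kernel⟩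

def b1700 : PLift (entF (fidx ts) 400 1700 n1700 = true) := ⟨by decide +kernel⟩

theorem g1700 : GoodF (fidx ts) 400 1700 := GoodF.ofV v1700 n1700 c1700.down b1700.down

/-- 4576766:1449 -/
noncomputable def e1701 : SCfg where
  D := {
    a := 7
    L := 10
    kp := 9
    inn := [(0, 1), (0, 2), (0, 3), (0, 4), (1, 0), (1, 2), (1, 4), (1, 5), (1, 6), (2, 0), (2, 1), (2,
      3), (2, 6), (3, 0), (3, 2), (3, 4), (4, 0), (4, 1), (4, 3), (4, 5), (5, 1), (5, 4), (5, 6),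
      (6, 1), (6, 2), (6, 5)]
    mix := [(2, 0), (2, 1), (2, 2), (3, 2), (3, 3), (3, 4), (4, 4), (4, 5), (4, 6), (5, 6), (5, 7), (5,
      8), (6, 0), (6, 8), (6, 9)]
    cl := [0, 9, 4, 6, 3, 7, 1, 5, 2, 8]
    chq := [(0, 3), (0, 4), (0, 5), (0, 6), (3, 0), (3, 5), (4, 0), (5, 0), (5, 3), (5, 7), (5, 8), (6,
      0), (7, 5), (8, 5)]
    rng := [(0, 1), (0, 9), (1, 0), (1, 2), (2, 1), (2, 3), (3, 2), (3, 4), (4, 3), (4, 5), (5, 4), (5,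
      6), (6, 5), (6, 7), (7, 6), (7, 8), (8, 7), (8, 9), (9, 0), (9, 8)]
    lev := [] }
  links := [[1, 2, 3, 4], [2, 0, 4, 5, 6], [3, 0, 1, 6, 7, 8, 9], [4, 0, 2, 9, 10, 11], [5, 1, 0, 3, 11,
    12, 13], [6, 1, 4, 13, 14, 15], [7, 2, 1, 5, 15, 16]]
  P := {
    a := 7
    N := 17
    nb := [30, 117, 971, 3605, 14379, 57426, 98470, 65860, 644, 1292, 2568, 5144, 10256, 20528, 40992,
      82016, 32960]
    tri := [(0, 1, 2), (0, 1, 4), (0, 2, 3), (0, 3, 4), (1, 2, 6), (1, 4, 5), (1, 5, 6), (2, 3, 9), (2,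
      6, 7), (2, 7, 8), (2, 8, 9), (3, 4, 11), (3, 9, 10), (3, 10, 11), (4, 5, 13), (4, 11, 12),
      (4, 12, 13), (5, 6, 15), (5, 13, 14), (5, 14, 15), (6, 7, 16), (6, 15, 16)]
    fin := [0, 0, 0, 0, 4, 4, 4, 0, 8, 9, 10, 11, 12, 13, 4, 15, 16]
    chd := [(0, 4), (0, 9), (0, 10), (0, 11), (4, 16), (11, 4), (12, 4)]
    steps := [(0, 1), (0, 2), (0, 3), (0, 7), (4, 5), (4, 6), (4, 14)] }
  rep := [0, 13, 15, 11, 9, 4, 10, 12, 16, 8]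

noncomputable def v1701 : Cov.CovD where
  P := 3
  N := 7
  pl := [1, 6, 8]
  lev := [⟨[], [], [], [], []⟩,
    ⟨[], [], [], [], []⟩,
    ⟨[(0, 1)], [(0, 0), (0, 4), (1, 0), (1, 4)], [(0, 4)], [9], [(0, 0, [3, 4, 5, 6]), (2,
      4, [0])]⟩,
    ⟨[(0, 1), (0, 2), (1, 2)], [(0, 3), (0, 4), (0, 6), (2, 0), (2, 3), (2, 4), (2, 6)],
      [(3, 4), (3, 6), (4, 6)], [], [(2, 4, [0]), (3, 6, [0]), (4, 3, [0, 5])]⟩,
    ⟨[(0, 1), (0, 2), (0, 3), (1, 2), (1, 3), (2, 3)], [(0, 3), (0, 7), (1, 3), (1, 7), (3,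
      3), (3, 4), (3, 6), (3, 7)], [(3, 7)], [1], [(4, 3, [0, 5]), (5, 7, [5])]⟩,
    ⟨[(0, 1), (0, 4), (1, 2), (1, 4), (3, 4)], [(1, 5), (4, 3), (4, 5), (4, 7)], [], [1,
      2], [(7, 5, [0, 3, 7, 8])]⟩,
    ⟨[(0, 1), (0, 2), (1, 2), (1, 4), (1, 5), (2, 3), (2, 5), (4, 5)], [(1, 0), (1, 8), (2,
      0), (2, 4), (2, 8), (5, 0), (5, 5), (5, 8)], [(0, 8)], [2], [(0, 0, [3, 4, 5, 6]), (9,
      8, [5])]⟩]
  Ta := []
  Tb := [((0, 1, 9), 0, 9, 8), ((1, 0, 2), 9, 0, 4), ((2, 1, 3), 4, 9, 6), ((3, 2, 4), 6, 4, 3),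
    ((4, 3, 5), 3, 6, 7), ((5, 4, 6), 7, 3, 1), ((6, 5, 7), 1, 7, 5), ((7, 6, 8), 5, 1, 2),
    ((8, 7, 9), 2, 5, 8), ((9, 0, 8), 8, 0, 2)]
  Tc := [(0, 3, 4), (0, 3, 5), (0, 3, 6), (0, 4, 5), (0, 4, 6), (0, 5, 6), (3, 0, 5), (5, 0, 3),
    (5, 0, 7), (5, 0, 8), (5, 3, 7), (5, 3, 8), (5, 7, 8)]
  Td := [((0, 3), (0, 1), 9), ((0, 3), (0, 9), 8), ((0, 4), (0, 1), 9), ((0, 4), (0, 9), 8), ((0,
    5), (0, 1), 9), ((0, 5), (0, 9), 8), ((0, 6), (0, 1), 9), ((0, 6), (0, 9), 8), ((3, 0),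
    (4, 3), 6), ((3, 0), (4, 5), 7), ((3, 5), (4, 3), 6), ((3, 5), (4, 5), 7), ((4, 0), (2,
    1), 9), ((4, 0), (2, 3), 6), ((5, 0), (7, 6), 1), ((5, 0), (7, 8), 2), ((5, 3), (7, 6),
    1), ((5, 3), (7, 8), 2), ((5, 7), (7, 6), 1), ((5, 7), (7, 8), 2), ((5, 8), (7, 6), 1),
    ((5, 8), (7, 8), 2), ((6, 0), (3, 2), 4), ((6, 0), (3, 4), 3), ((7, 5), (5, 4), 3), ((7,
    5), (5, 6), 1), ((8, 5), (9, 0), 0), ((8, 5), (9, 8), 2)]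
  G := [[0xa481c248a8e161646824e1682461c16, 0xc8c861414cc4848ce1848148c48c8e1e1c,
    0x2812816847681281241a468a4df441a416d2241a4249948cc8c8d1a2c,
    0x41c4512c14118d181c8c8d1c81812b2,
    0x21121a138d542181a1432a1a8912181181211a1a138df181211818bcec]]

noncomputable def n1701 : Ent := ⟨e1701, noF, [], [], []⟩

def c1701 : PLift (Cov.check n1701.C.D v1701 = true) := ⟨by decide +kernel⟩

def b1701 : PLift (entF (fidx ts) 400 1701 n1701 = true) := ⟨by decide +kernel⟩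

theorem g1701 : GoodF (fidx ts) 400 1701 := GoodF.ofV v1701 n1701 c1701.down b1701.down

/-- 4576774:1450/1 -/
noncomputable def e1702 : SCfg where
  D := {
    a := 7
    L := 10
    kp := 7
    inn := [(0, 1), (0, 2), (0, 3), (0, 4), (1, 0), (1, 2), (1, 4), (2, 0), (2, 1), (2, 3), (2, 5), (3,
      0), (3, 2), (3, 4), (3, 5), (4, 0), (4, 1), (4, 3), (5, 2), (5, 3), (5, 6), (6, 5)]
    mix := [(1, 0), (1, 1), (2, 1), (2, 2), (2, 3), (3, 4), (3, 5), (4, 0), (4, 5), (4, 6), (4, 7), (5,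
      3), (5, 4), (5, 8), (5, 9), (6, 3), (6, 6), (6, 8)]
    cl := [1, 2, 6, 0, 0, 1, 3, 7, 4, 5]
    chq := [(0, 2), (2, 0), (3, 5), (5, 3)]
    rng := [(0, 1), (0, 7), (1, 0), (1, 2), (2, 1), (2, 3), (3, 2), (3, 6), (4, 5), (4, 9), (5, 4), (5,
      6), (6, 3), (6, 5), (6, 7), (6, 8), (7, 0), (7, 6), (8, 6), (8, 9), (9, 4), (9, 8)]
    lev := [] }
  links := [[1, 2, 3, 4], [2, 0, 4, 7, 8], [3, 0, 1, 8, 9, 10, 5], [4, 0, 2, 5, 11, 12], [7, 1, 0, 3, 12,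
    13, 14], [11, 3, 2, 10, 6, 15, 16], [15, 5, 10, 13]]
  P := {
    a := 7
    N := 17
    nb := [30, 405, 1835, 6197, 28811, 101452, 42016, 16658, 646, 1284, 8804, 69672, 10264, 54352,
      8336, 73824, 34848]
    tri := [(0, 1, 2), (0, 1, 4), (0, 2, 3), (0, 3, 4), (1, 2, 8), (1, 4, 7), (1, 7, 8), (2, 3, 5), (2,
      5, 10), (2, 8, 9), (2, 9, 10), (3, 4, 12), (3, 5, 11), (3, 11, 12), (4, 7, 14), (4, 12, 13),
      (4, 13, 14), (5, 6, 10), (5, 6, 15), (5, 11, 16), (5, 15, 16), (6, 10, 13), (6, 13, 15)]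
    fin := [0, 0, 2, 2, 0, 5, 5, 0, 8, 9, 2, 2, 0, 5, 14, 15, 16]
    chd := [(5, 16), (8, 2)]
    steps := [(0, 1), (0, 4), (0, 7), (0, 12), (2, 3), (2, 10), (2, 11), (5, 6), (5, 13)] }
  rep := [2, 0, 8, 5, 15, 16, 9, 14]

noncomputable def v1702 : Cov.CovD where
  P := 3
  N := 5
  pl := [2, 7, 8]
  lev := [⟨[], [], [], [], []⟩,
    ⟨[], [(0, 1), (0, 2)], [(1, 2)], [], [(0, 1, []), (1, 2, [0])]⟩,
    ⟨[(0, 1)], [(0, 0), (0, 2), (1, 0), (1, 1), (1, 2)], [(0, 2)], [6], [(1, 2, [0]), (3,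
      0, [2])]⟩,
    ⟨[(0, 1), (0, 2), (1, 2)], [(0, 0), (0, 1), (2, 0), (2, 1), (2, 2)], [(0, 1)], [], [(4,
      0, [2]), (5, 1, [])]⟩,
    ⟨[(0, 1), (0, 2), (0, 3), (1, 2), (1, 3), (2, 3)], [(0, 1), (0, 3), (1, 1), (1, 2), (1,
      3), (3, 0), (3, 1), (3, 3)], [(1, 1), (1, 3)], [7], [(0, 1, []), (5, 1, []), (6, 3,
      [5])]⟩,
    ⟨[(0, 2), (0, 3), (1, 2), (2, 3), (3, 4)], [(2, 0), (2, 2), (2, 5), (3, 0), (3, 1), (3,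
      5)], [(0, 0), (0, 5)], [4], [(3, 0, [2]), (4, 0, [2]), (9, 5, [3])]⟩,
    ⟨[(2, 5), (3, 5)], [(2, 0), (4, 3), (5, 0), (5, 3), (5, 5)], [(0, 3)], [4], [(3, 0,
      [2]), (6, 3, [5])]⟩]
  Ta := [((0, 1), 1, 2), ((0, 7), 1, 7), ((3, 2), 0, 6), ((3, 6), 0, 3), ((4, 5), 0, 1), ((4, 9),
    0, 5), ((5, 4), 1, 0), ((5, 6), 1, 3)]
  Tb := [((0, 1, 7), 1, 2, 7), ((1, 0, 2), 2, 1, 6), ((2, 1, 3), 6, 2, 0), ((3, 2, 6), 0, 6, 3),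
    ((4, 5, 9), 0, 1, 5), ((5, 4, 6), 1, 0, 3), ((6, 3, 5), 3, 0, 1), ((6, 3, 7), 3, 0, 7),
    ((6, 3, 8), 3, 0, 4), ((6, 5, 7), 3, 1, 7), ((6, 5, 8), 3, 1, 4), ((6, 7, 8), 3, 7, 4),
    ((7, 0, 6), 7, 1, 3), ((8, 6, 9), 4, 3, 5), ((9, 4, 8), 5, 0, 4)]
  Tc := []
  Td := [((0, 2), (3, 2), 6), ((0, 2), (3, 6), 3), ((0, 2), (4, 5), 1), ((0, 2), (4, 9), 5), ((2,
    0), (1, 0), 1), ((2, 0), (1, 2), 6), ((3, 5), (6, 3), 0), ((3, 5), (6, 5), 1), ((3, 5),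
    (6, 7), 7), ((3, 5), (6, 8), 4), ((5, 3), (9, 4), 0), ((5, 3), (9, 8), 4)]
  G := [[0, 0, 0x212e81331e1231e89a4312e691e58614e48685, 0x6a2e16a2e642ec56a2e18a2e6a2ec9c12,
    0xa261426458ace6ace964ce45a16a2e6868d481a], [0, 0,
    0x244618e15a5a1edc34124ea4d1ca51a9cc21, 0, 0xaa616816a6e64cecda418ca6ca9a464cecda14], [0,
    0, 0x222258ac12c13cda2441264acc6132e132e948c1, 0x642e6a2e58a2e8c182,
    0x2448a2e64a6a2edc182], [0, 0x64ce2268ace6acaa184,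
    0x126818419614125e488689c24631e5818e14acce85, 0, 0x646e48a8e6ace9c182]]

noncomputable def n1702 : Ent := ⟨e1702, noF, [], [], []⟩

def c1702 : PLift (Cov.check n1702.C.D v1702 = true) := ⟨by decide +kernel⟩

def b1702 : PLift (entF (fidx ts) 400 1702 n1702 = true) := ⟨by decide +kernel⟩

theorem g1702 : GoodF (fidx ts) 400 1702 := GoodF.ofV v1702 n1702 c1702.down b1702.down

/-- 4576774:1450/2 -/
noncomputable def e1703 : SCfg where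
  D := {
    a := 7
    L := 10
    kp := 7
    inn := [(0, 1), (0, 2), (0, 3), (0, 4), (1, 0), (1, 2), (1, 4), (2, 0), (2, 1), (2, 3), (2, 5), (3,
      0), (3, 2), (3, 4), (3, 5), (4, 0), (4, 1), (4, 3), (5, 2), (5, 3), (5, 6), (6, 5)]
    mix := [(1, 0), (1, 1), (2, 1), (2, 2), (2, 3), (3, 4), (3, 5), (4, 0), (4, 5), (4, 6), (4, 7), (5,
      3), (5, 4), (5, 8), (5, 9), (6, 3), (6, 7), (6, 8)]
    cl := [1, 2, 6, 0, 0, 1, 7, 3, 4, 5]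
    chq := [(0, 2), (2, 0), (3, 5), (5, 3)]
    rng := [(0, 1), (0, 7), (1, 0), (1, 2), (2, 1), (2, 3), (3, 2), (3, 7), (4, 5), (4, 9), (5, 4), (5,
      6), (6, 5), (6, 7), (7, 0), (7, 3), (7, 6), (7, 8), (8, 7), (8, 9), (9, 4), (9, 8)]
    lev := [] }
  links := [[1, 2, 3, 4], [2, 0, 4, 7, 8], [3, 0, 1, 8, 9, 10, 5], [4, 0, 2, 5, 11, 12], [7, 1, 0, 3, 12,
    13, 14], [11, 3, 2, 10, 6, 15, 16], [15, 5, 10, 14]]
  P := {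
    a := 7
    N := 17
    nb := [30, 405, 1835, 6197, 28811, 101452, 50208, 16658, 646, 1284, 16996, 69672, 10264, 20496,
      42192, 82016, 34848]
    tri := [(0, 1, 2), (0, 1, 4), (0, 2, 3), (0, 3, 4), (1, 2, 8), (1, 4, 7), (1, 7, 8), (2, 3, 5), (2,
      5, 10), (2, 8, 9), (2, 9, 10), (3, 4, 12), (3, 5, 11), (3, 11, 12), (4, 7, 14), (4, 12, 13),
      (4, 13, 14), (5, 6, 10), (5, 6, 15), (5, 11, 16), (5, 15, 16), (6, 10, 14), (6, 14, 15)]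
    fin := [0, 0, 2, 2, 0, 5, 5, 0, 8, 9, 2, 2, 0, 13, 5, 15, 16]
    chd := [(5, 16), (8, 2)]
    steps := [(0, 1), (0, 4), (0, 7), (0, 12), (2, 3), (2, 10), (2, 11), (5, 6), (5, 14)] }
  rep := [2, 0, 8, 5, 15, 16, 9, 13]

noncomputable def v1703 : Cov.CovD where
  P := 3
  N := 5
  pl := [2, 6, 8]
  lev := [⟨[], [], [], [], []⟩,
    ⟨[], [(0, 1), (0, 2)], [(1, 2)], [], [(0, 1, []), (1, 2, [0])]⟩,
    ⟨[(0, 1)], [(0, 0), (0, 2), (1, 0), (1, 1), (1, 2)], [(0, 2)], [6], [(1, 2, [0]), (3,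
      0, [2])]⟩,
    ⟨[(0, 1), (0, 2), (1, 2)], [(0, 0), (0, 1), (2, 0), (2, 1), (2, 2)], [(0, 1)], [], [(4,
      0, [2]), (5, 1, [])]⟩,
    ⟨[(0, 1), (0, 2), (0, 3), (1, 2), (1, 3), (2, 3)], [(0, 1), (0, 3), (1, 1), (1, 2), (1,
      3), (3, 0), (3, 1), (3, 3)], [(1, 1), (1, 3)], [7], [(0, 1, []), (5, 1, []), (7, 3,
      [5])]⟩,
    ⟨[(0, 2), (0, 3), (1, 2), (2, 3), (3, 4)], [(2, 0), (2, 2), (2, 5), (3, 0), (3, 1), (3,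
      5)], [(0, 0), (0, 5)], [4], [(3, 0, [2]), (4, 0, [2]), (9, 5, [3])]⟩,
    ⟨[(2, 5), (3, 5)], [(2, 0), (4, 3), (5, 0), (5, 3), (5, 5)], [(0, 3)], [4], [(3, 0,
      [2]), (7, 3, [5])]⟩]
  Ta := [((0, 1), 1, 2), ((0, 7), 1, 3), ((3, 2), 0, 6), ((3, 7), 0, 3), ((4, 5), 0, 1), ((4, 9),
    0, 5), ((5, 4), 1, 0), ((5, 6), 1, 7)]
  Tb := [((0, 1, 7), 1, 2, 3), ((1, 0, 2), 2, 1, 6), ((2, 1, 3), 6, 2, 0), ((3, 2, 7), 0, 6, 3),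
    ((4, 5, 9), 0, 1, 5), ((5, 4, 6), 1, 0, 7), ((6, 5, 7), 7, 1, 3), ((7, 0, 3), 3, 1, 0),
    ((7, 0, 6), 3, 1, 7), ((7, 0, 8), 3, 1, 4), ((7, 3, 6), 3, 0, 7), ((7, 3, 8), 3, 0, 4),
    ((7, 6, 8), 3, 7, 4), ((8, 7, 9), 4, 3, 5), ((9, 4, 8), 5, 0, 4)]
  Tc := []
  Td := [((0, 2), (3, 2), 6), ((0, 2), (3, 7), 3), ((0, 2), (4, 5), 1), ((0, 2), (4, 9), 5), ((2,
    0), (1, 0), 1), ((2, 0), (1, 2), 6), ((3, 5), (7, 0), 1), ((3, 5), (7, 3), 0), ((3, 5),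
    (7, 6), 7), ((3, 5), (7, 8), 4), ((5, 3), (9, 4), 0), ((5, 3), (9, 8), 4)]
  G := [[0, 0, 0x4569451418ca2292988589a144e4218e611e9ce41,
    0x2241a4162a18a2e6a2ecdca2616816a2e64ccd8c2, 0x6ca6ace5a44528ace81296ace16aae646ec581a],
    [0, 0, 0x916319e98214132a1231e312ecd888611ec1274, 0,
    0x22a2656816a2e64ccd4c66ace58ace68c9a14], [0, 0, 0x1212528a81464c53cde641e4819e1ace9ca41,
    0x24648a2e686a2edc182, 0x64ae6ace58a6e8c182], [0, 0xac664ce6a2ee888c142,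
    0xa16311ec1422a312e9481c3ac94ac611e1258283, 0, 0x642e6a2e58a2e8c182]]

noncomputable def n1703 : Ent := ⟨e1703, noF, [], [], []⟩

def c1703 : PLift (Cov.check n1703.C.D v1703 = true) := ⟨by decide +kernel⟩

def b1703 : PLift (entF (fidx ts) 400 1703 n1703 = true) := ⟨by decide +kernel⟩

theorem g1703 : GoodF (fidx ts) 400 1703 := GoodF.ofV v1703 n1703 c1703.down b1703.down

/-- 4576774:1450 -/
noncomputable def e1704 : SCfg where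
  D := {
    a := 7
    L := 11
    kp := 8
    inn := [(0, 1), (0, 2), (0, 3), (0, 4), (1, 0), (1, 2), (1, 4), (2, 0), (2, 1), (2, 3), (2, 5), (3,
      0), (3, 2), (3, 4), (3, 5), (4, 0), (4, 1), (4, 3), (5, 2), (5, 3), (5, 6), (6, 5)]
    mix := [(1, 0), (1, 1), (2, 1), (2, 2), (2, 3), (3, 4), (3, 5), (4, 0), (4, 5), (4, 6), (4, 7), (5,
      3), (5, 4), (5, 8), (5, 9), (6, 3), (6, 8), (6, 10)]
    cl := [1, 2, 6, 0, 0, 1, 7, 8, 3, 4, 5]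
    chq := [(0, 2), (2, 0), (4, 5), (5, 4)]
    rng := [(0, 1), (0, 7), (1, 0), (1, 2), (2, 1), (2, 3), (3, 2), (3, 10), (4, 5), (4, 9), (5, 4),
      (5, 6), (6, 5), (6, 7), (7, 0), (7, 6), (8, 9), (8, 10), (9, 4), (9, 8), (10, 3), (10, 8)]
    lev := [] }
  links := [[1, 2, 3, 4], [2, 0, 4, 7, 8], [3, 0, 1, 8, 9, 10, 5], [4, 0, 2, 5, 11, 12], [7, 1, 0, 3, 12,
    13, 14], [11, 3, 2, 10, 6, 15, 16], [15, 5, 10, 17]]
  P := {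
    a := 7
    N := 18
    nb := [30, 405, 1835, 6197, 28811, 101452, 164896, 16658, 646, 1284, 131684, 69672, 10264, 20496,
      8336, 196704, 34848, 33856]
    tri := [(0, 1, 2), (0, 1, 4), (0, 2, 3), (0, 3, 4), (1, 2, 8), (1, 4, 7), (1, 7, 8), (2, 3, 5), (2,
      5, 10), (2, 8, 9), (2, 9, 10), (3, 4, 12), (3, 5, 11), (3, 11, 12), (4, 7, 14), (4, 12, 13),
      (4, 13, 14), (5, 6, 10), (5, 6, 15), (5, 11, 16), (5, 15, 16), (6, 10, 17), (6, 15, 17)]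
    fin := [0, 0, 2, 2, 0, 5, 5, 0, 8, 9, 2, 2, 0, 13, 14, 15, 16, 5]
    chd := [(8, 2), (16, 5)]
    steps := [(0, 1), (0, 4), (0, 7), (0, 12), (2, 3), (2, 10), (2, 11), (5, 6), (5, 17)] }
  rep := [2, 0, 8, 15, 16, 5, 9, 13, 14]

noncomputable def v1704 : Cov.CovD where
  P := 3
  N := 6
  pl := [2, 6, 7, 8]
  lev := [⟨[], [], [], [], []⟩,
    ⟨[], [(0, 1), (0, 2)], [(1, 2)], [], [(0, 1, []), (1, 2, [0])]⟩,
    ⟨[(0, 1)], [(0, 0), (0, 2), (1, 0), (1, 1), (1, 2)], [(0, 2)], [6], [(1, 2, [0]), (3,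
      0, [2])]⟩,
    ⟨[(0, 1), (0, 2), (1, 2)], [(0, 0), (0, 1), (2, 0), (2, 1), (2, 2)], [(0, 1)], [], [(4,
      0, [2]), (5, 1, [])]⟩,
    ⟨[(0, 1), (0, 2), (0, 3), (1, 2), (1, 3), (2, 3)], [(0, 1), (1, 1), (1, 2), (3, 0), (3,
      1)], [(1, 1)], [7, 8], [(0, 1, []), (5, 1, [])]⟩,
    ⟨[(0, 2), (0, 3), (1, 2), (2, 3), (3, 4)], [(2, 0), (2, 2), (2, 4), (3, 0), (3, 1), (3,
      4)], [(0, 0), (0, 4)], [3], [(3, 0, [2]), (4, 0, [2]), (9, 4, [5])]⟩,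
    ⟨[(2, 5), (3, 5)], [(2, 0), (5, 0), (5, 4), (5, 5)], [(0, 5)], [3], [(3, 0, [2]), (10,
      5, [4])]⟩]
  Ta := [((0, 1), 1, 2), ((0, 7), 1, 8), ((3, 2), 0, 6), ((3, 10), 0, 5), ((4, 5), 0, 1), ((4,
    9), 0, 4), ((5, 4), 1, 0), ((5, 6), 1, 7)]
  Tb := [((0, 1, 7), 1, 2, 8), ((1, 0, 2), 2, 1, 6), ((2, 1, 3), 6, 2, 0), ((3, 2, 10), 0, 6, 5),
    ((4, 5, 9), 0, 1, 4), ((5, 4, 6), 1, 0, 7), ((6, 5, 7), 7, 1, 8), ((7, 0, 6), 8, 1, 7),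
    ((8, 9, 10), 3, 4, 5), ((9, 4, 8), 4, 0, 3), ((10, 3, 8), 5, 0, 3)]
  Tc := []
  Td := [((0, 2), (3, 2), 6), ((0, 2), (3, 10), 5), ((0, 2), (4, 5), 1), ((0, 2), (4, 9), 4),
    ((2, 0), (1, 0), 1), ((2, 0), (1, 2), 6), ((4, 5), (9, 4), 0), ((4, 5), (9, 8), 3), ((5,
    4), (10, 3), 0), ((5, 4), (10, 8), 3)]
  G := [[0, 0, 0x92431c4a4591e319e95846a16413ce1ace9cac1, 0x6ace16ace6acec5a416ca16ace6acecdc12,
    0x6ca1a416ace6acec76ace16ace6acec9a14], [0, 0, 0x3441a5e1ca319edca4591e14d1ca3ca9cc21, 0,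
    0x6aceac656ace689c2a4ac656ace6ca68dc8a1], [0, 0,
    0xc2134161812591e619e91ace45e319e13cec1458, 0x6ace6ace56ace8c142, 0x6ace6ace56ace8c182],
    [0, 0x6ace6ca6aceea446182, 0x3564161a11ca891ac1611e591ec9e1c61a418c98a4, 0,
    0xa446ace6ca6acedc182]]

noncomputable def n1704 : Ent := ⟨e1704, noF, [], [], [(17, 13, [6903326391226443182813612567740724581985591720012749800372886074712065, 0]), (17, 14, [6903326468334360900303599070699561856668565975414084080169086031130625, 0])]⟩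

def c1704 : PLift (Cov.check n1704.C.D v1704 = true) := ⟨by decide +kernel⟩

def b1704 : PLift (entF (fidx ts) 400 1704 n1704 = true) := ⟨by decide +kernel⟩

theorem g1704 : GoodF (fidx ts) 400 1704 := GoodF.ofV v1704 n1704 c1704.down b1704.down

/-- 4576774:1451/1 -/
noncomputable def e1705 : SCfg where
  D := {
    a := 7
    L := 10
    kp := 7
    inn := [(0, 1), (0, 2), (0, 3), (0, 4), (1, 0), (1, 2), (1, 4), (2, 0), (2, 1), (2, 3), (2, 5), (3,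
      0), (3, 2), (3, 4), (3, 5), (4, 0), (4, 1), (4, 3), (5, 2), (5, 3), (5, 6), (6, 5)]
    mix := [(1, 0), (1, 1), (2, 1), (2, 2), (2, 3), (3, 4), (3, 5), (4, 0), (4, 5), (4, 6), (4, 7), (5,
      3), (5, 4), (5, 8), (5, 9), (6, 4), (6, 6), (6, 9)]
    cl := [1, 2, 5, 0, 0, 1, 4, 6, 7, 3]
    chq := [(0, 2), (0, 3), (2, 0), (3, 0)]
    rng := [(0, 1), (0, 7), (1, 0), (1, 2), (2, 1), (2, 3), (3, 2), (3, 8), (4, 5), (4, 6), (5, 4), (5,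
      6), (6, 4), (6, 5), (6, 7), (6, 9), (7, 0), (7, 6), (8, 3), (8, 9), (9, 6), (9, 8)]
    lev := [] }
  links := [[1, 2, 3, 4], [2, 0, 4, 7, 8], [3, 0, 1, 8, 9, 10, 5], [4, 0, 2, 5, 11, 12], [7, 1, 0, 3, 12,
    13, 14], [11, 3, 2, 10, 15, 16, 6], [11, 5, 16, 13]]
  P := {
    a := 7
    N := 17
    nb := [30, 405, 1835, 6197, 28811, 101452, 75808, 16658, 646, 1284, 33316, 12392, 10264, 88144,
      8336, 66592, 41056]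
    tri := [(0, 1, 2), (0, 1, 4), (0, 2, 3), (0, 3, 4), (1, 2, 8), (1, 4, 7), (1, 7, 8), (2, 3, 5), (2,
      5, 10), (2, 8, 9), (2, 9, 10), (3, 4, 12), (3, 5, 11), (3, 11, 12), (4, 7, 14), (4, 12, 13),
      (4, 13, 14), (5, 6, 11), (5, 6, 16), (5, 10, 15), (5, 15, 16), (6, 11, 13), (6, 13, 16)]
    fin := [0, 0, 2, 0, 0, 5, 5, 0, 2, 9, 5, 5, 0, 13, 14, 15, 16]
    chd := [(2, 5), (5, 16)]
    steps := [(0, 1), (0, 3), (0, 4), (0, 7), (0, 12), (2, 8), (5, 6), (5, 10), (5, 11)] }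
  rep := [5, 0, 2, 16, 13, 9, 14, 15]

noncomputable def v1705 : Cov.CovD where
  P := 3
  N := 5
  pl := [2, 6, 7, 8]
  lev := [⟨[], [], [], [], []⟩,
    ⟨[], [(0, 1), (0, 2)], [(1, 2)], [], [(0, 1, []), (1, 2, [0])]⟩,
    ⟨[(0, 1)], [(0, 0), (0, 2), (1, 0), (1, 1), (1, 2)], [(0, 2)], [5], [(1, 2, [0]), (3,
      0, [2, 3])]⟩,
    ⟨[(0, 1), (0, 2), (1, 2)], [(0, 0), (0, 1), (2, 0), (2, 1), (2, 2)], [(0, 1)], [], [(4,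
      0, [2, 3]), (5, 1, [])]⟩,
    ⟨[(0, 1), (0, 2), (0, 3), (1, 2), (1, 3), (2, 3)], [(0, 1), (1, 1), (1, 2), (3, 0), (3,
      1)], [(1, 1)], [4, 6], [(0, 1, []), (5, 1, [])]⟩,
    ⟨[(0, 2), (0, 3), (1, 2), (2, 3), (3, 4)], [(2, 0), (2, 2), (2, 3), (3, 0), (3, 1), (3,
      3)], [(0, 0), (0, 3)], [7], [(3, 0, [2, 3]), (4, 0, [2, 3]), (9, 3, [0])]⟩,
    ⟨[(2, 5), (3, 5)], [(3, 0), (5, 0), (5, 3)], [(0, 3)], [4], [(4, 0, [2, 3]), (9, 3,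
      [0])]⟩]
  Ta := [((0, 1), 1, 2), ((0, 7), 1, 6), ((3, 2), 0, 5), ((3, 8), 0, 7), ((4, 5), 0, 1), ((4, 6),
    0, 4), ((5, 4), 1, 0), ((5, 6), 1, 4)]
  Tb := [((0, 1, 7), 1, 2, 6), ((1, 0, 2), 2, 1, 5), ((2, 1, 3), 5, 2, 0), ((3, 2, 8), 0, 5, 7),
    ((4, 5, 6), 0, 1, 4), ((5, 4, 6), 1, 0, 4), ((6, 4, 5), 4, 0, 1), ((6, 4, 7), 4, 0, 6),
    ((6, 4, 9), 4, 0, 3), ((6, 5, 7), 4, 1, 6), ((6, 5, 9), 4, 1, 3), ((6, 7, 9), 4, 6, 3),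
    ((7, 0, 6), 6, 1, 4), ((8, 3, 9), 7, 0, 3), ((9, 6, 8), 3, 4, 7)]
  Tc := [(0, 2, 3)]
  Td := [((0, 2), (3, 2), 5), ((0, 2), (3, 8), 7), ((0, 2), (4, 5), 1), ((0, 2), (4, 6), 4), ((0,
    3), (3, 2), 5), ((0, 3), (3, 8), 7), ((0, 3), (4, 5), 1), ((0, 3), (4, 6), 4), ((2, 0),
    (1, 0), 1), ((2, 0), (1, 2), 5), ((3, 0), (9, 6), 4), ((3, 0), (9, 8), 7)]
  G := [[0, 0, 0x11c1492283116111e98a412611a51818ca141e48685,
    0x2212654612e132e522881c8ec1a2e38914c468c1, 0x22e26531c14c18d228b14341e331ed89a8ca14],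
    [0, 0, 0x11c111e58811e11a111ed461164112e8c8c1, 0, 0x145e4831e935e9c24441a2e15a395edc8a1],
    [0, 0, 0x126116511a8141818de111e4111e111e9ca41, 0x642ee2658a2ee89c182,
    0x642e6e2e58a2e889c182], [0, 0x444468eaeeaea2eee48e182,
    0x1211654111e111e52289441858e111e8481c18c4a92, 0, 0x64eee458a2eeea9c182]]

noncomputable def n1705 : Ent := ⟨e1705, noF, [], [], []⟩

def c1705 : PLift (Cov.check n1705.C.D v1705 = true) := ⟨by decide +kernel⟩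

def b1705 : PLift (entF (fidx ts) 400 1705 n1705 = true) := ⟨by decide +kernel⟩

theorem g1705 : GoodF (fidx ts) 400 1705 := GoodF.ofV v1705 n1705 c1705.down b1705.down

/-- 4576774:1451 -/
noncomputable def e1706 : SCfg where
  D := {
    a := 7
    L := 11
    kp := 8
    inn := [(0, 1), (0, 2), (0, 3), (0, 4), (1, 0), (1, 2), (1, 4), (2, 0), (2, 1), (2, 3), (2, 5), (3,
      0), (3, 2), (3, 4), (3, 5), (4, 0), (4, 1), (4, 3), (5, 2), (5, 3), (5, 6), (6, 5)]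
    mix := [(1, 0), (1, 1), (2, 1), (2, 2), (2, 3), (3, 4), (3, 5), (4, 0), (4, 5), (4, 6), (4, 7), (5,
      3), (5, 4), (5, 8), (5, 9), (6, 4), (6, 9), (6, 10)]
    cl := [1, 2, 4, 0, 0, 1, 5, 6, 7, 3, 8]
    chq := [(0, 2), (0, 3), (2, 0), (3, 0)]
    rng := [(0, 1), (0, 7), (1, 0), (1, 2), (2, 1), (2, 3), (3, 2), (3, 8), (4, 5), (4, 10), (5, 4),
      (5, 6), (6, 5), (6, 7), (7, 0), (7, 6), (8, 3), (8, 9), (9, 8), (9, 10), (10, 4), (10, 9)]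
    lev := [] }
  links := [[1, 2, 3, 4], [2, 0, 4, 7, 8], [3, 0, 1, 8, 9, 10, 5], [4, 0, 2, 5, 11, 12], [7, 1, 0, 3, 12,
    13, 14], [11, 3, 2, 10, 15, 16, 6], [11, 5, 16, 17]]
  P := {
    a := 7
    N := 18
    nb := [30, 405, 1835, 6197, 28811, 101452, 198688, 16658, 646, 1284, 33316, 135272, 10264, 20496,
      8336, 66592, 163936, 67648]
    tri := [(0, 1, 2), (0, 1, 4), (0, 2, 3), (0, 3, 4), (1, 2, 8), (1, 4, 7), (1, 7, 8), (2, 3, 5), (2,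
      5, 10), (2, 8, 9), (2, 9, 10), (3, 4, 12), (3, 5, 11), (3, 11, 12), (4, 7, 14), (4, 12, 13),
      (4, 13, 14), (5, 6, 11), (5, 6, 16), (5, 10, 15), (5, 15, 16), (6, 11, 17), (6, 16, 17)]
    fin := [0, 0, 2, 0, 0, 5, 5, 0, 2, 9, 5, 5, 0, 13, 14, 15, 16, 17]
    chd := [(2, 5), (5, 16)]
    steps := [(0, 1), (0, 3), (0, 4), (0, 7), (0, 12), (2, 8), (5, 6), (5, 10), (5, 11)] }
  rep := [5, 0, 2, 16, 9, 13, 14, 15, 17]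

noncomputable def v1706 : Cov.CovD where
  P := 3
  N := 6
  pl := [2, 6, 7, 8, 10]
  lev := [⟨[], [], [], [], []⟩,
    ⟨[], [(0, 1), (0, 2)], [(1, 2)], [], [(0, 1, []), (1, 2, [0])]⟩,
    ⟨[(0, 1)], [(0, 0), (0, 2), (1, 0), (1, 1), (1, 2)], [(0, 2)], [4], [(1, 2, [0]), (3,
      0, [2, 3])]⟩,
    ⟨[(0, 1), (0, 2), (1, 2)], [(0, 0), (0, 1), (2, 0), (2, 1), (2, 2)], [(0, 1)], [], [(4,
      0, [2, 3]), (5, 1, [])]⟩,
    ⟨[(0, 1), (0, 2), (0, 3), (1, 2), (1, 3), (2, 3)], [(0, 1), (1, 1), (1, 2), (3, 0), (3,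
      1)], [(1, 1)], [5, 6], [(0, 1, []), (5, 1, [])]⟩,
    ⟨[(0, 2), (0, 3), (1, 2), (2, 3), (3, 4)], [(2, 0), (2, 2), (2, 3), (3, 0), (3, 1), (3,
      3)], [(0, 0), (0, 3)], [7], [(3, 0, [2, 3]), (4, 0, [2, 3]), (9, 3, [0])]⟩,
    ⟨[(2, 5), (3, 5)], [(3, 0), (5, 0), (5, 3)], [(0, 3)], [8], [(4, 0, [2, 3]), (9, 3,
      [0])]⟩]
  Ta := [((0, 1), 1, 2), ((0, 7), 1, 6), ((3, 2), 0, 4), ((3, 8), 0, 7), ((4, 5), 0, 1), ((4,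
    10), 0, 8), ((5, 4), 1, 0), ((5, 6), 1, 5)]
  Tb := [((0, 1, 7), 1, 2, 6), ((1, 0, 2), 2, 1, 4), ((2, 1, 3), 4, 2, 0), ((3, 2, 8), 0, 4, 7),
    ((4, 5, 10), 0, 1, 8), ((5, 4, 6), 1, 0, 5), ((6, 5, 7), 5, 1, 6), ((7, 0, 6), 6, 1, 5),
    ((8, 3, 9), 7, 0, 3), ((9, 8, 10), 3, 7, 8), ((10, 4, 9), 8, 0, 3)]
  Tc := [(0, 2, 3)]
  Td := [((0, 2), (3, 2), 4), ((0, 2), (3, 8), 7), ((0, 2), (4, 5), 1), ((0, 2), (4, 10), 8),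
    ((0, 3), (3, 2), 4), ((0, 3), (3, 8), 7), ((0, 3), (4, 5), 1), ((0, 3), (4, 10), 8), ((2,
    0), (1, 0), 1), ((2, 0), (1, 2), 4), ((3, 0), (9, 8), 7), ((3, 0), (9, 10), 8)]
  G := [[0, 0, 0x12125144612811c11c11cd6111e11a111ed4e81,
    0x39be11a59eed6ec451b6539e593ede889c12, 0x3b9e1481344539e95a395edc25964593e38cc893], [0,
    0, 0x111e14121811c11c94e116411a18cc116111ec8c52, 0,
    0xbb6141259a935edeece4c5a13964593e5818dc829], [0, 0,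
    0x121165144611c18512811c8e11a111e5111e8ce81, 0xee6ee65e28eece8e8de148,
    0x448218e4ee65eaeeeeae8dc186], [0, 0xee6ee66e28eece8e8ee148,
    0x1164111e111e9c116111e111ed8a184188c461, 0, 0xe4ee65eaeeeeae8dc12448812c]]

noncomputable def n1706 : Ent := ⟨e1706, noF, [], [], [(17, 13, [6903326391226443182813612567740724581985591720012749800372886074724353, 0])]⟩

def c1706 : PLift (Cov.check n1706.C.D v1706 = true) := ⟨by decide +kernel⟩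

def b1706 : PLift (entF (fidx ts) 400 1706 n1706 = true) := ⟨by decide +kernel⟩

theorem g1706 : GoodF (fidx ts) 400 1706 := GoodF.ofV v1706 n1706 c1706.down b1706.down

/-- 4846644:1452/3 -/
noncomputable def e1707 : SCfg where
  D := {
    a := 7
    L := 8
    kp := 6
    inn := [(0, 1), (0, 3), (1, 0), (1, 2), (1, 4), (1, 5), (2, 1), (2, 4), (3, 0), (3, 6), (4, 1), (4,
      2), (5, 1), (6, 3)]
    mix := [(0, 0), (0, 1), (1, 0), (1, 1), (1, 2), (1, 3), (2, 2), (2, 4), (3, 0), (3, 1), (3, 5), (3,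
      6), (4, 1), (4, 4), (4, 6), (4, 7), (5, 2), (5, 3), (5, 5), (6, 0), (6, 3), (6, 5)]
    cl := [0, 0, 2, 1, 4, 3, 5, 6]
    chq := [(0, 3), (1, 2), (1, 4), (1, 5), (1, 6), (2, 1), (3, 0), (4, 1), (5, 1), (6, 1)]
    rng := [(0, 3), (1, 6), (2, 4), (2, 5), (3, 0), (3, 5), (4, 2), (4, 7), (5, 2), (5, 3), (5, 6), (6,
      1), (6, 5), (6, 7), (7, 4), (7, 6)]
    lev := [] }
  links := [[1, 7, 3, 8], [7, 0, 8, 4, 2, 9, 5, 10], [9, 1, 4, 11], [8, 0, 7, 6, 12, 13], [11, 2, 1, 8,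
    13, 14], [10, 1, 9, 12], [12, 3, 7, 10]]
  P := {
    a := 7
    N := 15
    nb := [394, 1973, 2578, 12737, 26886, 5634, 5256, 1099, 8219, 6182, 4322, 16916, 9832, 20760,
      10256]
    tri := [(0, 1, 7), (0, 1, 8), (0, 3, 7), (0, 3, 8), (1, 2, 4), (1, 2, 9), (1, 4, 8), (1, 5, 9), (1,
      5, 10), (1, 7, 10), (2, 4, 11), (2, 9, 11), (3, 6, 7), (3, 6, 12), (3, 8, 13), (3, 12, 13),
      (4, 8, 13), (4, 11, 14), (4, 13, 14), (5, 9, 12), (5, 10, 12), (6, 7, 10), (6, 10, 12)]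
    fin := [0, 1, 1, 0, 1, 1, 0, 0, 0, 9, 1, 11, 12, 13, 14]
    chd := [(0, 12), (1, 11), (1, 13), (1, 14), (9, 1)]
    steps := [(0, 3), (0, 6), (0, 7), (0, 8), (1, 2), (1, 4), (1, 5), (1, 10)] }
  rep := [0, 1, 9, 12, 11, 13, 14]

noncomputable def v1707 : Cov.CovD where
  P := 3
  N := 4
  pl := []
  lev := [⟨[], [], [(0, 0)], [], [(0, 0, [3]), (1, 0, [3])]⟩,
    ⟨[], [(0, 0), (0, 1), (0, 2)], [(0, 0), (0, 1), (0, 2), (1, 2)], [], [(0, 0, [3]), (1,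
      0, [3]), (2, 2, [1]), (3, 1, [2, 4, 5, 6])]⟩,
    ⟨[(0, 1)], [(1, 0), (1, 1), (1, 2), (1, 4)], [(2, 4)], [], [(2, 2, [1]), (4, 4, [1])]⟩,
    ⟨[(0, 1)], [(0, 0), (0, 3), (0, 5), (1, 0)], [(0, 0), (0, 3), (0, 5), (3, 5)], [], [(0,
      0, [3]), (1, 0, [3]), (5, 3, [0]), (6, 5, [1])]⟩,
    ⟨[(0, 1), (1, 2)], [(0, 0), (1, 0), (1, 1), (1, 2), (1, 4), (1, 5), (1, 6), (2, 0), (2,
      2), (2, 4), (2, 5), (2, 6), (3, 0), (3, 5)], [(0, 4), (0, 5), (0, 6), (4, 5), (4, 6),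
      (5, 6)], [], [(1, 0, [3]), (4, 4, [1]), (6, 5, [1]), (7, 6, [1])]⟩,
    ⟨[(0, 1), (1, 2), (1, 4)], [(1, 0), (1, 1), (1, 2), (1, 3), (2, 2), (3, 3)], [(1, 2),
      (1, 3), (2, 3)], [], [(2, 2, [1]), (3, 1, [2, 4, 5, 6]), (5, 3, [0])]⟩,
    ⟨[(0, 3)], [(0, 0), (1, 0), (1, 1), (3, 0), (3, 1), (3, 3), (3, 5), (5, 1), (5, 3)],
      [(0, 1), (0, 3), (1, 3)], [], [(0, 0, [3]), (3, 1, [2, 4, 5, 6]), (5, 3, [0])]⟩]
  Ta := [((0, 3), 0, 1), ((1, 6), 0, 5)]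
  Tb := [((2, 4, 5), 2, 4, 3), ((3, 0, 5), 1, 0, 3), ((4, 2, 7), 4, 2, 6), ((5, 2, 3), 3, 2, 1),
    ((5, 2, 6), 3, 2, 5), ((5, 3, 6), 3, 1, 5), ((6, 1, 5), 5, 0, 3), ((6, 1, 7), 5, 0, 6),
    ((6, 5, 7), 5, 3, 6), ((7, 4, 6), 6, 4, 5)]
  Tc := [(1, 2, 4), (1, 2, 5), (1, 2, 6), (1, 4, 5), (1, 4, 6), (1, 5, 6)]
  Td := [((0, 3), (0, 3), 1), ((0, 3), (1, 6), 5), ((1, 2), (3, 0), 0), ((1, 2), (3, 5), 3), ((1,
    4), (3, 0), 0), ((1, 4), (3, 5), 3), ((1, 5), (3, 0), 0), ((1, 5), (3, 5), 3), ((1, 6),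
    (3, 0), 0), ((1, 6), (3, 5), 3), ((2, 1), (2, 4), 4), ((2, 1), (2, 5), 3), ((3, 0), (5,
    2), 2), ((3, 0), (5, 3), 1), ((3, 0), (5, 6), 5), ((4, 1), (4, 2), 2), ((4, 1), (4, 7),
    6), ((5, 1), (6, 1), 0), ((5, 1), (6, 5), 3), ((5, 1), (6, 7), 6), ((6, 1), (7, 4), 4),
    ((6, 1), (7, 6), 5)]
  G := [[0, 0x88144184c1e488144184c1e8c2, 0x88244284c2e488244284c2e8c2, 0xc122c122948,
    0x812412c12e812412c12e982], [0, 0, 0x18244211c2e488244284c2e8c2, 0x51225122584,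
    0x812412112e182412512e982]]

noncomputable def n1707 : Ent := ⟨e1707, noF, [], [], []⟩

def c1707 : PLift (Cov.check n1707.C.D v1707 = true) := ⟨by decide +kernel⟩

def b1707 : PLift (entF (fidx ts) 400 1707 n1707 = true) := ⟨by decide +kernel⟩

theorem g1707 : GoodF (fidx ts) 400 1707 := GoodF.ofV v1707 n1707 c1707.down b1707.down

/-- 4846644:1452/2 -/
noncomputable def e1708 : SCfg where
  D := {
    a := 7
    L := 9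
    kp := 7
    inn := [(0, 1), (0, 3), (1, 0), (1, 2), (1, 4), (1, 5), (2, 1), (2, 4), (3, 0), (3, 6), (4, 1), (4,
      2), (5, 1), (6, 3)]
    mix := [(0, 0), (0, 1), (1, 0), (1, 1), (1, 2), (1, 3), (2, 2), (2, 4), (3, 0), (3, 1), (3, 5), (3,
      6), (4, 1), (4, 4), (4, 7), (4, 8), (5, 2), (5, 3), (5, 5), (6, 0), (6, 3), (6, 5)]
    cl := [0, 0, 2, 1, 4, 3, 7, 5, 6]
    chq := [(0, 3), (1, 2), (1, 4), (1, 5), (1, 6), (2, 1), (3, 0), (4, 1), (5, 1), (6, 1)]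
    rng := [(0, 3), (1, 6), (1, 7), (2, 4), (2, 5), (3, 0), (3, 5), (4, 2), (4, 8), (5, 2), (5, 3), (5,
      6), (6, 1), (6, 5), (7, 1), (7, 8), (8, 4), (8, 7)]
    lev := [] }
  links := [[1, 7, 3, 8], [7, 0, 8, 4, 2, 9, 5, 10], [9, 1, 4, 11], [8, 0, 7, 6, 12, 13], [11, 2, 1, 8,
    14, 15], [10, 1, 9, 12], [12, 3, 7, 10]]
  P := {
    a := 7
    N := 16
    nb := [394, 1973, 2578, 12737, 51462, 5634, 5256, 1099, 24603, 6182, 4322, 33300, 9832, 4360,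
      33040, 18448]
    tri := [(0, 1, 7), (0, 1, 8), (0, 3, 7), (0, 3, 8), (1, 2, 4), (1, 2, 9), (1, 4, 8), (1, 5, 9), (1,
      5, 10), (1, 7, 10), (2, 4, 11), (2, 9, 11), (3, 6, 7), (3, 6, 12), (3, 8, 13), (3, 12, 13),
      (4, 8, 14), (4, 11, 15), (4, 14, 15), (5, 9, 12), (5, 10, 12), (6, 7, 10), (6, 10, 12)]
    fin := [0, 1, 1, 0, 1, 1, 0, 0, 0, 9, 1, 11, 12, 13, 14, 15]
    chd := [(0, 12), (1, 11), (1, 14), (1, 15), (9, 1)]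
    steps := [(0, 3), (0, 6), (0, 7), (0, 8), (1, 2), (1, 4), (1, 5), (1, 10)] }
  rep := [0, 1, 9, 12, 11, 14, 15, 13]

noncomputable def v1708 : Cov.CovD where
  P := 3
  N := 5
  pl := [6]
  lev := [⟨[], [], [(0, 0)], [], [(0, 0, [3]), (1, 0, [3])]⟩,
    ⟨[], [(0, 0), (0, 1), (0, 2)], [(0, 0), (0, 1), (0, 2), (1, 2)], [], [(0, 0, [3]), (1,
      0, [3]), (2, 2, [1]), (3, 1, [2, 4, 5, 6])]⟩,
    ⟨[(0, 1)], [(1, 0), (1, 1), (1, 2), (1, 4)], [(2, 4)], [], [(2, 2, [1]), (4, 4, [1])]⟩,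
    ⟨[(0, 1)], [(0, 0), (0, 3), (1, 0)], [(0, 0), (0, 3)], [7], [(0, 0, [3]), (1, 0, [3]),
      (5, 3, [0])]⟩,
    ⟨[(0, 1), (1, 2)], [(0, 0), (1, 0), (1, 1), (1, 2), (1, 4), (1, 5), (1, 6), (2, 0), (2,
      2), (2, 4), (2, 5), (2, 6), (3, 0)], [(0, 4), (0, 5), (0, 6), (4, 5), (4, 6), (5, 6)],
      [], [(1, 0, [3]), (4, 4, [1]), (7, 5, [1]), (8, 6, [1])]⟩,
    ⟨[(0, 1), (1, 2), (1, 4)], [(1, 0), (1, 1), (1, 2), (1, 3), (2, 2), (3, 3)], [(1, 2),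
      (1, 3), (2, 3)], [], [(2, 2, [1]), (3, 1, [2, 4, 5, 6]), (5, 3, [0])]⟩,
    ⟨[(0, 3)], [(0, 0), (1, 0), (1, 1), (3, 0), (3, 1), (3, 3), (5, 1), (5, 3)], [(0, 1),
      (0, 3), (1, 3)], [], [(0, 0, [3]), (3, 1, [2, 4, 5, 6]), (5, 3, [0])]⟩]
  Ta := [((0, 3), 0, 1), ((1, 6), 0, 7), ((1, 7), 0, 5)]
  Tb := [((1, 6, 7), 0, 7, 5), ((2, 4, 5), 2, 4, 3), ((3, 0, 5), 1, 0, 3), ((4, 2, 8), 4, 2, 6),
    ((5, 2, 3), 3, 2, 1), ((5, 2, 6), 3, 2, 7), ((5, 3, 6), 3, 1, 7), ((6, 1, 5), 7, 0, 3),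
    ((7, 1, 8), 5, 0, 6), ((8, 4, 7), 6, 4, 5)]
  Tc := [(1, 2, 4), (1, 2, 5), (1, 2, 6), (1, 4, 5), (1, 4, 6), (1, 5, 6)]
  Td := [((0, 3), (0, 3), 1), ((0, 3), (1, 6), 7), ((0, 3), (1, 7), 5), ((1, 2), (3, 0), 0), ((1,
    2), (3, 5), 3), ((1, 4), (3, 0), 0), ((1, 4), (3, 5), 3), ((1, 5), (3, 0), 0), ((1, 5),
    (3, 5), 3), ((1, 6), (3, 0), 0), ((1, 6), (3, 5), 3), ((2, 1), (2, 4), 4), ((2, 1), (2,
    5), 3), ((3, 0), (5, 2), 2), ((3, 0), (5, 3), 1), ((3, 0), (5, 6), 7), ((4, 1), (4, 2),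
    2), ((4, 1), (4, 8), 6), ((5, 1), (7, 1), 0), ((5, 1), (7, 8), 6), ((6, 1), (8, 4), 4),
    ((6, 1), (8, 7), 5)]
  G := [[0, 0x88144184c1e488144184c1e8c2, 0x88284c2a4844244424c88284c2a8c6,
    0x812212c12e212242c12ec84, 0x812412c12e882412c12e982], [0, 0,
    0x142442618214214c2ec182882a8c4, 0x812212112e112212512ec84, 0x812412112e812412112e982]]

noncomputable def n1708 : Ent := ⟨e1708, noF, [], [], [(13, 14, [385746751338780685620664494392815470296102193487288376379486209, 0])]⟩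

def c1708 : PLift (Cov.check n1708.C.D v1708 = true) := ⟨by decide +kernel⟩

def b1708 : PLift (entF (fidx ts) 400 1708 n1708 = true) := ⟨by decide +kernel⟩

theorem g1708 : GoodF (fidx ts) 400 1708 := GoodF.ofV v1708 n1708 c1708.down b1708.down

/-- 4846644:1452/4 -/
noncomputable def e1709 : SCfg where
  D := {
    a := 7
    L := 9
    kp := 7
    inn := [(0, 1), (0, 3), (1, 0), (1, 2), (1, 4), (1, 5), (2, 1), (2, 4), (3, 0), (3, 6), (4, 1), (4,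
      2), (5, 1), (6, 3)]
    mix := [(0, 0), (0, 1), (1, 0), (1, 1), (1, 2), (1, 3), (2, 2), (2, 4), (3, 0), (3, 1), (3, 5), (3,
      6), (4, 1), (4, 4), (4, 6), (4, 7), (5, 2), (5, 3), (5, 8), (6, 0), (6, 3), (6, 5)]
    cl := [0, 0, 2, 1, 3, 4, 5, 6, 7]
    chq := [(0, 4), (1, 2), (1, 3), (1, 5), (1, 6), (2, 1), (3, 1), (4, 0), (5, 1), (6, 1)]
    rng := [(0, 3), (1, 6), (2, 4), (2, 8), (3, 0), (3, 5), (3, 8), (4, 2), (4, 7), (5, 3), (5, 6), (6,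
      1), (6, 5), (6, 7), (7, 4), (7, 6), (8, 2), (8, 3)]
    lev := [] }
  links := [[1, 7, 3, 8], [7, 0, 8, 4, 2, 9, 5, 10], [9, 1, 4, 11], [8, 0, 7, 6, 12, 13], [11, 2, 1, 8,
    13, 14], [10, 1, 9, 15], [12, 3, 7, 10]]
  P := {
    a := 7
    N := 16
    nb := [394, 1973, 2578, 12737, 26886, 34306, 5256, 1099, 8219, 34854, 37090, 16916, 9288, 20760,
      10256, 1568]
    tri := [(0, 1, 7), (0, 1, 8), (0, 3, 7), (0, 3, 8), (1, 2, 4), (1, 2, 9), (1, 4, 8), (1, 5, 9), (1,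
      5, 10), (1, 7, 10), (2, 4, 11), (2, 9, 11), (3, 6, 7), (3, 6, 12), (3, 8, 13), (3, 12, 13),
      (4, 8, 13), (4, 11, 14), (4, 13, 14), (5, 9, 15), (5, 10, 15), (6, 7, 10), (6, 10, 12)]
    fin := [0, 1, 1, 0, 1, 1, 0, 0, 0, 9, 1, 11, 12, 13, 14, 15]
    chd := [(0, 12), (1, 11), (1, 13), (1, 14), (9, 1)]
    steps := [(0, 3), (0, 6), (0, 7), (0, 8), (1, 2), (1, 4), (1, 5), (1, 10)] }
  rep := [0, 1, 9, 11, 12, 13, 14, 15]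

noncomputable def v1709 : Cov.CovD where
  P := 3
  N := 5
  pl := [8]
  lev := [⟨[], [], [(0, 0)], [], [(0, 0, [4]), (1, 0, [4])]⟩,
    ⟨[], [(0, 0), (0, 1), (0, 2)], [(0, 0), (0, 1), (0, 2), (1, 2)], [], [(0, 0, [4]), (1,
      0, [4]), (2, 2, [1]), (3, 1, [2, 3, 5, 6])]⟩,
    ⟨[(0, 1)], [(1, 0), (1, 1), (1, 2), (1, 3)], [(2, 3)], [], [(2, 2, [1]), (4, 3, [1])]⟩,
    ⟨[(0, 1)], [(0, 0), (0, 4), (0, 5), (1, 0)], [(0, 0), (0, 4), (0, 5), (4, 5)], [], [(0,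
      0, [4]), (1, 0, [4]), (5, 4, [0]), (6, 5, [1])]⟩,
    ⟨[(0, 1), (1, 2)], [(0, 0), (1, 0), (1, 1), (1, 2), (1, 3), (1, 5), (1, 6), (2, 0), (2,
      2), (2, 3), (2, 5), (2, 6), (3, 0), (3, 5)], [(0, 3), (0, 5), (0, 6), (3, 5), (3, 6),
      (5, 6)], [], [(1, 0, [4]), (4, 3, [1]), (6, 5, [1]), (7, 6, [1])]⟩,
    ⟨[(0, 1), (1, 2), (1, 4)], [(1, 0), (1, 1), (1, 2), (2, 2)], [(1, 2)], [7], [(2, 2,
      [1]), (3, 1, [2, 3, 5, 6])]⟩,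
    ⟨[(0, 3)], [(0, 0), (1, 0), (1, 1), (3, 0), (3, 1), (3, 4), (3, 5), (5, 1)], [(0, 1),
      (0, 4), (1, 4)], [], [(0, 0, [4]), (3, 1, [2, 3, 5, 6]), (5, 4, [0])]⟩]
  Ta := [((0, 3), 0, 1), ((1, 6), 0, 5)]
  Tb := [((2, 4, 8), 2, 3, 7), ((3, 0, 5), 1, 0, 4), ((3, 0, 8), 1, 0, 7), ((3, 5, 8), 1, 4, 7),
    ((4, 2, 7), 3, 2, 6), ((5, 3, 6), 4, 1, 5), ((6, 1, 5), 5, 0, 4), ((6, 1, 7), 5, 0, 6),
    ((6, 5, 7), 5, 4, 6), ((7, 4, 6), 6, 3, 5), ((8, 2, 3), 7, 2, 1)]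
  Tc := [(1, 2, 3), (1, 2, 5), (1, 2, 6), (1, 3, 5), (1, 3, 6), (1, 5, 6)]
  Td := [((0, 4), (0, 3), 1), ((0, 4), (1, 6), 5), ((1, 2), (3, 0), 0), ((1, 2), (3, 5), 4), ((1,
    2), (3, 8), 7), ((1, 3), (3, 0), 0), ((1, 3), (3, 5), 4), ((1, 3), (3, 8), 7), ((1, 5),
    (3, 0), 0), ((1, 5), (3, 5), 4), ((1, 5), (3, 8), 7), ((1, 6), (3, 0), 0), ((1, 6), (3,
    5), 4), ((1, 6), (3, 8), 7), ((2, 1), (2, 4), 3), ((2, 1), (2, 8), 7), ((3, 1), (4, 2),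
    2), ((3, 1), (4, 7), 6), ((4, 0), (5, 3), 1), ((4, 0), (5, 6), 5), ((5, 1), (6, 1), 0),
    ((5, 1), (6, 5), 4), ((5, 1), (6, 7), 6), ((6, 1), (7, 4), 3), ((6, 1), (7, 6), 5)]
  G := [[0, 0x84122c1a4844c14488c144c1ccc1e8818cc6, 0x44c248c2c2c2ccccccfe248, 0xcc922cc922942,
    0x8832422c482424494274282cc9c2fe88928b82], [0, 0, 0x842442c88c214c2c1c2ec18248291c2e8c2,
    0x95c2259522942, 0x8224221132e88921892c82e8224221192eb82]]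

noncomputable def n1709 : Ent := ⟨e1709, noF, [], [], [(12, 15, [360035742630636841211993100915356868655746945586763691014664193, 0])]⟩

def c1709 : PLift (Cov.check n1709.C.D v1709 = true) := ⟨by decide +kernel⟩

def b1709 : PLift (entF (fidx ts) 400 1709 n1709 = true) := ⟨by decide +kernel⟩

theorem g1709 : GoodF (fidx ts) 400 1709 := GoodF.ofV v1709 n1709 c1709.down b1709.down

/-- 4846644:1452/1 -/
noncomputable def e1710 : SCfg where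
  D := {
    a := 7
    L := 10
    kp := 8
    inn := [(0, 1), (0, 3), (1, 0), (1, 2), (1, 4), (1, 5), (2, 1), (2, 4), (3, 0), (3, 6), (4, 1), (4,
      2), (5, 1), (6, 3)]
    mix := [(0, 0), (0, 1), (1, 0), (1, 1), (1, 2), (1, 3), (2, 2), (2, 4), (3, 0), (3, 1), (3, 5), (3,
      6), (4, 1), (4, 4), (4, 7), (4, 8), (5, 2), (5, 3), (5, 9), (6, 0), (6, 3), (6, 5)]
    cl := [0, 0, 2, 1, 3, 4, 7, 5, 6, 8]
    chq := [(0, 4), (1, 2), (1, 3), (1, 5), (1, 6), (2, 1), (3, 1), (4, 0), (5, 1), (6, 1)]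
    rng := [(0, 3), (1, 6), (1, 7), (2, 4), (2, 9), (3, 0), (3, 5), (3, 9), (4, 2), (4, 8), (5, 3), (5,
      6), (6, 1), (6, 5), (7, 1), (7, 8), (8, 4), (8, 7), (9, 2), (9, 3)]
    lev := [] }
  links := [[1, 7, 3, 8], [7, 0, 8, 4, 2, 9, 5, 10], [9, 1, 4, 11], [8, 0, 7, 6, 12, 13], [11, 2, 1, 8,
    14, 15], [10, 1, 9, 16], [12, 3, 7, 10]]
  P := {
    a := 7
    N := 17
    nb := [394, 1973, 2578, 12737, 51462, 67074, 5256, 1099, 24603, 67622, 69858, 33300, 9288, 4360,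
      33040, 18448, 1568]
    tri := [(0, 1, 7), (0, 1, 8), (0, 3, 7), (0, 3, 8), (1, 2, 4), (1, 2, 9), (1, 4, 8), (1, 5, 9), (1,
      5, 10), (1, 7, 10), (2, 4, 11), (2, 9, 11), (3, 6, 7), (3, 6, 12), (3, 8, 13), (3, 12, 13),
      (4, 8, 14), (4, 11, 15), (4, 14, 15), (5, 9, 16), (5, 10, 16), (6, 7, 10), (6, 10, 12)]
    fin := [0, 1, 1, 0, 1, 1, 0, 0, 0, 9, 1, 11, 12, 13, 14, 15, 16]
    chd := [(0, 12), (1, 11), (1, 14), (1, 15), (9, 1)]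
    steps := [(0, 3), (0, 6), (0, 7), (0, 8), (1, 2), (1, 4), (1, 5), (1, 10)] }
  rep := [0, 1, 9, 11, 12, 14, 15, 13, 16]

noncomputable def v1710 : Cov.CovD where
  P := 3
  N := 6
  pl := [6, 9]
  lev := [⟨[], [], [(0, 0)], [], [(0, 0, [4]), (1, 0, [4])]⟩,
    ⟨[], [(0, 0), (0, 1), (0, 2)], [(0, 0), (0, 1), (0, 2), (1, 2)], [], [(0, 0, [4]), (1,
      0, [4]), (2, 2, [1]), (3, 1, [2, 3, 5, 6])]⟩,
    ⟨[(0, 1)], [(1, 0), (1, 1), (1, 2), (1, 3)], [(2, 3)], [], [(2, 2, [1]), (4, 3, [1])]⟩,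
    ⟨[(0, 1)], [(0, 0), (0, 4), (1, 0)], [(0, 0), (0, 4)], [7], [(0, 0, [4]), (1, 0, [4]),
      (5, 4, [0])]⟩,
    ⟨[(0, 1), (1, 2)], [(0, 0), (1, 0), (1, 1), (1, 2), (1, 3), (1, 5), (1, 6), (2, 0), (2,
      2), (2, 3), (2, 5), (2, 6), (3, 0)], [(0, 3), (0, 5), (0, 6), (3, 5), (3, 6), (5, 6)],
      [], [(1, 0, [4]), (4, 3, [1]), (7, 5, [1]), (8, 6, [1])]⟩,
    ⟨[(0, 1), (1, 2), (1, 4)], [(1, 0), (1, 1), (1, 2), (2, 2)], [(1, 2)], [8], [(2, 2,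
      [1]), (3, 1, [2, 3, 5, 6])]⟩,
    ⟨[(0, 3)], [(0, 0), (1, 0), (1, 1), (3, 0), (3, 1), (3, 4), (5, 1)], [(0, 1), (0, 4),
      (1, 4)], [], [(0, 0, [4]), (3, 1, [2, 3, 5, 6]), (5, 4, [0])]⟩]
  Ta := [((0, 3), 0, 1), ((1, 6), 0, 7), ((1, 7), 0, 5)]
  Tb := [((1, 6, 7), 0, 7, 5), ((2, 4, 9), 2, 3, 8), ((3, 0, 5), 1, 0, 4), ((3, 0, 9), 1, 0, 8),
    ((3, 5, 9), 1, 4, 8), ((4, 2, 8), 3, 2, 6), ((5, 3, 6), 4, 1, 7), ((6, 1, 5), 7, 0, 4),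
    ((7, 1, 8), 5, 0, 6), ((8, 4, 7), 6, 3, 5), ((9, 2, 3), 8, 2, 1)]
  Tc := [(1, 2, 3), (1, 2, 5), (1, 2, 6), (1, 3, 5), (1, 3, 6), (1, 5, 6)]
  Td := [((0, 4), (0, 3), 1), ((0, 4), (1, 6), 7), ((0, 4), (1, 7), 5), ((1, 2), (3, 0), 0), ((1,
    2), (3, 5), 4), ((1, 2), (3, 9), 8), ((1, 3), (3, 0), 0), ((1, 3), (3, 5), 4), ((1, 3),
    (3, 9), 8), ((1, 5), (3, 0), 0), ((1, 5), (3, 5), 4), ((1, 5), (3, 9), 8), ((1, 6), (3,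
    0), 0), ((1, 6), (3, 5), 4), ((1, 6), (3, 9), 8), ((2, 1), (2, 4), 3), ((2, 1), (2, 9),
    8), ((3, 1), (4, 2), 2), ((3, 1), (4, 8), 6), ((4, 0), (5, 3), 1), ((4, 0), (5, 6), 7),
    ((5, 1), (7, 1), 0), ((5, 1), (7, 8), 6), ((6, 1), (8, 4), 3), ((6, 1), (8, 7), 5)]
  G := [[0, 0x241288c122c1ac28128c841844c14c88144c1c8c6, 0x842442c88c244c2ccc2ec882482ccc2e8c2,
    0x22524452cc52e285222c2cc92ec82, 0x8832422cc32e8824492c82e8892422cc92eb82], [0, 0,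
    0x88c244c211c2e418c244c251c2e8c2, 0x21921592a229241921192e24c24d48,
    0x82211325c32e8892182982e82211929c92eb84]]

noncomputable def n1710 : Ent := ⟨e1710, noF, [], [], [(12, 16, [1580044410770988437309982408355971841652082177953823432505696108545, 0]), (13, 14, [1685382413448253767852309107433119732572617628602273068445371912193, 0])]⟩

def c1710 : PLift (Cov.check n1710.C.D v1710 = true) := ⟨by decide +kernel⟩

def b1710 : PLift (entF (fidx ts) 400 1710 n1710 = true) := ⟨by decide +kernel⟩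

theorem g1710 : GoodF (fidx ts) 400 1710 := GoodF.ofV v1710 n1710 c1710.down b1710.down

/-- 4846644:1452/6 -/
noncomputable def e1711 : SCfg where
  D := {
    a := 7
    L := 9
    kp := 7
    inn := [(0, 1), (0, 3), (1, 0), (1, 2), (1, 4), (1, 5), (2, 1), (2, 4), (3, 0), (3, 6), (4, 1), (4,
      2), (5, 1), (6, 3)]
    mix := [(0, 0), (0, 1), (1, 0), (1, 1), (1, 2), (1, 3), (2, 2), (2, 4), (3, 0), (3, 1), (3, 5), (3,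
      6), (4, 1), (4, 4), (4, 5), (4, 6), (5, 2), (5, 3), (5, 7), (6, 0), (6, 5), (6, 8)]
    cl := [0, 0, 1, 2, 4, 3, 5, 6, 7]
    chq := [(0, 3), (1, 2), (2, 1), (2, 3), (2, 4), (2, 5), (3, 0), (3, 2), (4, 2), (5, 2)]
    rng := [(0, 3), (0, 8), (1, 6), (2, 4), (2, 7), (3, 0), (3, 7), (4, 2), (4, 5), (5, 4), (5, 6), (5,
      8), (6, 1), (6, 5), (7, 2), (7, 3), (8, 0), (8, 5)]
    lev := [] }
  links := [[1, 7, 3, 8], [7, 0, 8, 4, 2, 9, 5, 10], [9, 1, 4, 11], [8, 0, 7, 6, 12, 13], [11, 2, 1, 8,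
    13, 12], [10, 1, 9, 14], [12, 3, 7, 15]]
  P := {
    a := 7
    N := 16
    nb := [394, 1973, 2578, 12737, 14598, 17922, 37000, 33867, 8219, 18470, 16546, 4628, 43096, 4376,
      1568, 4288]
    tri := [(0, 1, 7), (0, 1, 8), (0, 3, 7), (0, 3, 8), (1, 2, 4), (1, 2, 9), (1, 4, 8), (1, 5, 9), (1,
      5, 10), (1, 7, 10), (2, 4, 11), (2, 9, 11), (3, 6, 7), (3, 6, 12), (3, 8, 13), (3, 12, 13),
      (4, 8, 13), (4, 11, 12), (4, 12, 13), (5, 9, 14), (5, 10, 14), (6, 7, 15), (6, 12, 15)]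
    fin := [0, 1, 2, 0, 1, 5, 0, 0, 0, 5, 1, 2, 12, 13, 14, 15]
    chd := [(0, 12), (1, 2), (1, 12), (1, 13), (5, 1)]
    steps := [(0, 3), (0, 6), (0, 7), (0, 8), (1, 4), (1, 10), (2, 11), (5, 9)] }
  rep := [0, 5, 1, 12, 2, 13, 14, 15]

noncomputable def v1711 : Cov.CovD where
  P := 3
  N := 5
  pl := [7, 8]
  lev := [⟨[], [], [(0, 0)], [], [(0, 0, [3]), (1, 0, [3])]⟩,
    ⟨[], [(0, 0), (0, 1), (0, 2)], [(0, 0), (0, 1), (0, 2), (1, 2)], [], [(0, 0, [3]), (1,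
      0, [3]), (2, 1, [2]), (3, 2, [1, 3, 4, 5])]⟩,
    ⟨[(0, 1)], [(1, 0), (1, 1), (1, 2), (1, 4)], [(1, 4)], [], [(2, 1, [2]), (4, 4, [2])]⟩,
    ⟨[(0, 1)], [(0, 0), (0, 3), (0, 5), (1, 0)], [(0, 0), (0, 3), (0, 5), (3, 5)], [], [(0,
      0, [3]), (1, 0, [3]), (5, 3, [0, 2]), (6, 5, [2])]⟩,
    ⟨[(0, 1), (1, 2)], [(0, 0), (1, 0), (1, 1), (1, 2), (1, 3), (1, 4), (1, 5), (2, 0), (2,
      1), (2, 3), (2, 4), (2, 5), (3, 0), (3, 3), (3, 5)], [(0, 3), (0, 4), (0, 5), (3, 4),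
      (3, 5), (4, 5)], [], [(1, 0, [3]), (4, 4, [2]), (5, 3, [0, 2]), (6, 5, [2])]⟩,
    ⟨[(0, 1), (1, 2), (1, 4)], [(1, 0), (1, 1), (1, 2), (2, 1)], [(1, 2)], [6], [(2, 1,
      [2]), (3, 2, [1, 3, 4, 5])]⟩,
    ⟨[(0, 3)], [(0, 0), (1, 0), (3, 0), (3, 3), (3, 5), (4, 3)], [(0, 3)], [7], [(0, 0,
      [3]), (5, 3, [0, 2])]⟩]
  Ta := [((0, 3), 0, 2), ((0, 8), 0, 7), ((1, 6), 0, 5)]
  Tb := [((0, 3, 8), 0, 2, 7), ((2, 4, 7), 1, 4, 6), ((3, 0, 7), 2, 0, 6), ((4, 2, 5), 4, 1, 3),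
    ((5, 4, 6), 3, 4, 5), ((5, 4, 8), 3, 4, 7), ((5, 6, 8), 3, 5, 7), ((6, 1, 5), 5, 0, 3),
    ((7, 2, 3), 6, 1, 2), ((8, 0, 5), 7, 0, 3)]
  Tc := [(2, 1, 3), (2, 1, 4), (2, 1, 5), (2, 3, 4), (2, 3, 5), (2, 4, 5), (3, 0, 2)]
  Td := [((0, 3), (0, 3), 2), ((0, 3), (0, 8), 7), ((0, 3), (1, 6), 5), ((1, 2), (2, 4), 4), ((1,
    2), (2, 7), 6), ((2, 1), (3, 0), 0), ((2, 1), (3, 7), 6), ((2, 3), (3, 0), 0), ((2, 3),
    (3, 7), 6), ((2, 4), (3, 0), 0), ((2, 4), (3, 7), 6), ((2, 5), (3, 0), 0), ((2, 5), (3,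
    7), 6), ((3, 0), (5, 4), 4), ((3, 0), (5, 6), 5), ((3, 0), (5, 8), 7), ((3, 2), (5, 4),
    4), ((3, 2), (5, 6), 5), ((3, 2), (5, 8), 7), ((4, 2), (4, 2), 1), ((4, 2), (4, 5), 3),
    ((5, 2), (6, 1), 0), ((5, 2), (6, 5), 3)]
  G := [[0, 0xa22292222542eece27e284, 0xeec1eec16681e81ceec22d4e4188ec18e444de8188ca,
    0xee922ee922944, 0xc4449ee924ee9744443e482], [0, 0x3224322122a9292b7ce2e84, 0,
    0x11c22bd522948, 0xe441446147e914e4e448d82]]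

noncomputable def n1711 : Ent := ⟨e1711, noF, [], [], []⟩

def c1711 : PLift (Cov.check n1711.C.D v1711 = true) := ⟨by decide +kernel⟩

def b1711 : PLift (entF (fidx ts) 400 1711 n1711 = true) := ⟨by decide +kernel⟩

theorem g1711 : GoodF (fidx ts) 400 1711 := GoodF.ofV v1711 n1711 c1711.down b1711.down

/-- 4846644:1452/5 -/
noncomputable def e1712 : SCfg where
  D := {
    a := 7
    L := 10
    kp := 8
    inn := [(0, 1), (0, 3), (1, 0), (1, 2), (1, 4), (1, 5), (2, 1), (2, 4), (3, 0), (3, 6), (4, 1), (4,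
      2), (5, 1), (6, 3)]
    mix := [(0, 0), (0, 1), (1, 0), (1, 1), (1, 2), (1, 3), (2, 2), (2, 4), (3, 0), (3, 1), (3, 5), (3,
      6), (4, 1), (4, 4), (4, 5), (4, 7), (5, 2), (5, 3), (5, 8), (6, 0), (6, 5), (6, 9)]
    cl := [0, 0, 1, 2, 4, 3, 6, 5, 7, 8]
    chq := [(0, 3), (1, 2), (2, 1), (2, 3), (2, 4), (2, 5), (3, 0), (3, 2), (4, 2), (5, 2)]
    rng := [(0, 3), (0, 9), (1, 6), (1, 7), (2, 4), (2, 8), (3, 0), (3, 8), (4, 2), (4, 5), (5, 4), (5,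
      6), (5, 7), (5, 9), (6, 1), (6, 5), (7, 1), (7, 5), (8, 2), (8, 3), (9, 0), (9, 5)]
    lev := [] }
  links := [[1, 7, 3, 8], [7, 0, 8, 4, 2, 9, 5, 10], [9, 1, 4, 11], [8, 0, 7, 6, 12, 13], [11, 2, 1, 8,
    14, 12], [10, 1, 9, 15], [12, 3, 7, 16]]
  P := {
    a := 7
    N := 17
    nb := [394, 1973, 2578, 12737, 22790, 34306, 69768, 66635, 24603, 34854, 32930, 4628, 92248, 4360,
      4368, 1568, 4288]
    tri := [(0, 1, 7), (0, 1, 8), (0, 3, 7), (0, 3, 8), (1, 2, 4), (1, 2, 9), (1, 4, 8), (1, 5, 9), (1,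
      5, 10), (1, 7, 10), (2, 4, 11), (2, 9, 11), (3, 6, 7), (3, 6, 12), (3, 8, 13), (3, 12, 13),
      (4, 8, 14), (4, 11, 12), (4, 12, 14), (5, 9, 15), (5, 10, 15), (6, 7, 16), (6, 12, 16)]
    fin := [0, 1, 2, 0, 1, 5, 0, 0, 0, 5, 1, 2, 12, 13, 14, 15, 16]
    chd := [(0, 12), (1, 2), (1, 12), (1, 14), (5, 1)]
    steps := [(0, 3), (0, 6), (0, 7), (0, 8), (1, 4), (1, 10), (2, 11), (5, 9)] }
  rep := [0, 5, 1, 12, 2, 14, 13, 15, 16]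

noncomputable def v1712 : Cov.CovD where
  P := 3
  N := 6
  pl := [6, 8, 9]
  lev := [⟨[], [], [(0, 0)], [], [(0, 0, [3]), (1, 0, [3])]⟩,
    ⟨[], [(0, 0), (0, 1), (0, 2)], [(0, 0), (0, 1), (0, 2), (1, 2)], [], [(0, 0, [3]), (1,
      0, [3]), (2, 1, [2]), (3, 2, [1, 3, 4, 5])]⟩,
    ⟨[(0, 1)], [(1, 0), (1, 1), (1, 2), (1, 4)], [(1, 4)], [], [(2, 1, [2]), (4, 4, [2])]⟩,
    ⟨[(0, 1)], [(0, 0), (0, 3), (1, 0)], [(0, 0), (0, 3)], [6], [(0, 0, [3]), (1, 0, [3]),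
      (5, 3, [0, 2])]⟩,
    ⟨[(0, 1), (1, 2)], [(0, 0), (1, 0), (1, 1), (1, 2), (1, 3), (1, 4), (1, 5), (2, 0), (2,
      1), (2, 3), (2, 4), (2, 5), (3, 0), (3, 3)], [(0, 3), (0, 4), (0, 5), (3, 4), (3, 5),
      (4, 5)], [], [(1, 0, [3]), (4, 4, [2]), (5, 3, [0, 2]), (7, 5, [2])]⟩,
    ⟨[(0, 1), (1, 2), (1, 4)], [(1, 0), (1, 1), (1, 2), (2, 1)], [(1, 2)], [7], [(2, 1,
      [2]), (3, 2, [1, 3, 4, 5])]⟩,
    ⟨[(0, 3)], [(0, 0), (1, 0), (3, 0), (3, 3), (4, 3)], [(0, 3)], [8], [(0, 0, [3]), (5,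
      3, [0, 2])]⟩]
  Ta := [((0, 3), 0, 2), ((0, 9), 0, 8), ((1, 6), 0, 6), ((1, 7), 0, 5)]
  Tb := [((0, 3, 9), 0, 2, 8), ((1, 6, 7), 0, 6, 5), ((2, 4, 8), 1, 4, 7), ((3, 0, 8), 2, 0, 7),
    ((4, 2, 5), 4, 1, 3), ((5, 4, 6), 3, 4, 6), ((5, 4, 7), 3, 4, 5), ((5, 4, 9), 3, 4, 8),
    ((5, 6, 7), 3, 6, 5), ((5, 6, 9), 3, 6, 8), ((5, 7, 9), 3, 5, 8), ((6, 1, 5), 6, 0, 3),
    ((7, 1, 5), 5, 0, 3), ((8, 2, 3), 7, 1, 2), ((9, 0, 5), 8, 0, 3)]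
  Tc := [(2, 1, 3), (2, 1, 4), (2, 1, 5), (2, 3, 4), (2, 3, 5), (2, 4, 5), (3, 0, 2)]
  Td := [((0, 3), (0, 3), 2), ((0, 3), (0, 9), 8), ((0, 3), (1, 6), 6), ((0, 3), (1, 7), 5), ((1,
    2), (2, 4), 4), ((1, 2), (2, 8), 7), ((2, 1), (3, 0), 0), ((2, 1), (3, 8), 7), ((2, 3),
    (3, 0), 0), ((2, 3), (3, 8), 7), ((2, 4), (3, 0), 0), ((2, 4), (3, 8), 7), ((2, 5), (3,
    0), 0), ((2, 5), (3, 8), 7), ((3, 0), (5, 4), 4), ((3, 0), (5, 6), 6), ((3, 0), (5, 7),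
    5), ((3, 0), (5, 9), 8), ((3, 2), (5, 4), 4), ((3, 2), (5, 6), 6), ((3, 2), (5, 7), 5),
    ((3, 2), (5, 9), 8), ((4, 2), (4, 2), 1), ((4, 2), (4, 5), 3), ((5, 2), (7, 1), 0), ((5,
    2), (7, 5), 3)]
  G := [[0, 0xeac28224a262eece2f66866c244aec266c2c8c6,
    0xa412eec1aac1eec1eca8128c44c144eec1eec144c1e8c6, 0x6692ee926246d2ee92694a128a828a428d4a,
    0xc446654acc94684a66942d8e4ee9e4e4f4cc948586], [0,
    0x6162d426b3c215c2d9c2ec71c2182d82e8c2, 0, 0x115211c21152e3a5261c29552e582,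
    0x14411541154e5194184184e5449b943e94ed84]]

noncomputable def n1712 : Ent := ⟨e1712, noF, [], [], [(13, 14, [1685382413448253767852309107433119732572617628602273068445371920385, 0])]⟩

def c1712 : PLift (Cov.check n1712.C.D v1712 = true) := ⟨by decide +kernel⟩

def b1712 : PLift (entF (fidx ts) 400 1712 n1712 = true) := ⟨by decide +kernel⟩

theorem g1712 : GoodF (fidx ts) 400 1712 := GoodF.ofV v1712 n1712 c1712.down b1712.down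

/-- 4846644:1452/8 -/
noncomputable def e1713 : SCfg where
  D := {
    a := 7
    L := 9
    kp := 7
    inn := [(0, 1), (0, 3), (1, 0), (1, 2), (1, 4), (1, 5), (2, 1), (2, 4), (3, 0), (3, 6), (4, 1), (4,
      2), (5, 1), (6, 3)]
    mix := [(0, 0), (0, 1), (1, 0), (1, 1), (1, 2), (1, 3), (2, 2), (2, 4), (3, 0), (3, 1), (3, 5), (3,
      6), (4, 1), (4, 4), (4, 6), (4, 7), (5, 2), (5, 3), (5, 5), (6, 0), (6, 5), (6, 8)]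
    cl := [0, 0, 1, 2, 4, 3, 5, 6, 7]
    chq := [(0, 3), (1, 2), (2, 1), (2, 4), (2, 5), (2, 6), (3, 0), (4, 2), (5, 2), (6, 2)]
    rng := [(0, 3), (0, 8), (1, 6), (2, 4), (2, 5), (3, 0), (3, 5), (4, 2), (4, 7), (5, 2), (5, 3), (5,
      6), (5, 8), (6, 1), (6, 5), (6, 7), (7, 4), (7, 6), (8, 0), (8, 5)]
    lev := [] }
  links := [[1, 7, 3, 8], [7, 0, 8, 4, 2, 9, 5, 10], [9, 1, 4, 11], [8, 0, 7, 6, 12, 13], [11, 2, 1, 8,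
    13, 14], [10, 1, 9, 12], [12, 3, 7, 15]]
  P := {
    a := 7
    N := 16
    nb := [394, 1973, 2578, 12737, 26886, 5634, 37000, 33867, 8219, 6182, 4258, 16916, 42600, 20760,
      10256, 4288]
    tri := [(0, 1, 7), (0, 1, 8), (0, 3, 7), (0, 3, 8), (1, 2, 4), (1, 2, 9), (1, 4, 8), (1, 5, 9), (1,
      5, 10), (1, 7, 10), (2, 4, 11), (2, 9, 11), (3, 6, 7), (3, 6, 12), (3, 8, 13), (3, 12, 13),
      (4, 8, 13), (4, 11, 14), (4, 13, 14), (5, 9, 12), (5, 10, 12), (6, 7, 15), (6, 12, 15)]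
    fin := [0, 1, 2, 0, 1, 5, 0, 0, 0, 9, 1, 2, 5, 13, 14, 15]
    chd := [(0, 5), (1, 2), (1, 13), (1, 14), (9, 1)]
    steps := [(0, 3), (0, 6), (0, 7), (0, 8), (1, 4), (1, 10), (2, 11), (5, 12)] }
  rep := [0, 9, 1, 5, 2, 13, 14, 15]

noncomputable def v1713 : Cov.CovD where
  P := 3
  N := 5
  pl := [8]
  lev := [⟨[], [], [(0, 0)], [], [(0, 0, [3]), (1, 0, [3])]⟩,
    ⟨[], [(0, 0), (0, 1), (0, 2)], [(0, 0), (0, 1), (0, 2), (1, 2)], [], [(0, 0, [3]), (1,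
      0, [3]), (2, 1, [2]), (3, 2, [1, 4, 5, 6])]⟩,
    ⟨[(0, 1)], [(1, 0), (1, 1), (1, 2), (1, 4)], [(1, 4)], [], [(2, 1, [2]), (4, 4, [2])]⟩,
    ⟨[(0, 1)], [(0, 0), (0, 3), (0, 5), (1, 0)], [(0, 0), (0, 3), (0, 5), (3, 5)], [], [(0,
      0, [3]), (1, 0, [3]), (5, 3, [0]), (6, 5, [2])]⟩,
    ⟨[(0, 1), (1, 2)], [(0, 0), (1, 0), (1, 1), (1, 2), (1, 4), (1, 5), (1, 6), (2, 0), (2,
      1), (2, 4), (2, 5), (2, 6), (3, 0), (3, 5)], [(0, 4), (0, 5), (0, 6), (4, 5), (4, 6),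
      (5, 6)], [], [(1, 0, [3]), (4, 4, [2]), (6, 5, [2]), (7, 6, [2])]⟩,
    ⟨[(0, 1), (1, 2), (1, 4)], [(1, 0), (1, 1), (1, 2), (1, 3), (2, 1), (3, 3)], [(1, 2),
      (1, 3), (2, 3)], [], [(2, 1, [2]), (3, 2, [1, 4, 5, 6]), (5, 3, [0])]⟩,
    ⟨[(0, 3)], [(0, 0), (1, 0), (3, 0), (3, 3), (3, 5), (5, 3)], [(0, 3)], [7], [(0, 0,
      [3]), (5, 3, [0])]⟩]
  Ta := [((0, 3), 0, 2), ((0, 8), 0, 7), ((1, 6), 0, 5)]
  Tb := [((0, 3, 8), 0, 2, 7), ((2, 4, 5), 1, 4, 3), ((3, 0, 5), 2, 0, 3), ((4, 2, 7), 4, 1, 6),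
    ((5, 2, 3), 3, 1, 2), ((5, 2, 6), 3, 1, 5), ((5, 2, 8), 3, 1, 7), ((5, 3, 6), 3, 2, 5),
    ((5, 3, 8), 3, 2, 7), ((5, 6, 8), 3, 5, 7), ((6, 1, 5), 5, 0, 3), ((6, 1, 7), 5, 0, 6),
    ((6, 5, 7), 5, 3, 6), ((7, 4, 6), 6, 4, 5), ((8, 0, 5), 7, 0, 3)]
  Tc := [(2, 1, 4), (2, 1, 5), (2, 1, 6), (2, 4, 5), (2, 4, 6), (2, 5, 6)]
  Td := [((0, 3), (0, 3), 2), ((0, 3), (0, 8), 7), ((0, 3), (1, 6), 5), ((1, 2), (2, 4), 4), ((1,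
    2), (2, 5), 3), ((2, 1), (3, 0), 0), ((2, 1), (3, 5), 3), ((2, 4), (3, 0), 0), ((2, 4),
    (3, 5), 3), ((2, 5), (3, 0), 0), ((2, 5), (3, 5), 3), ((2, 6), (3, 0), 0), ((2, 6), (3,
    5), 3), ((3, 0), (5, 2), 1), ((3, 0), (5, 3), 2), ((3, 0), (5, 6), 5), ((3, 0), (5, 8),
    7), ((4, 2), (4, 2), 1), ((4, 2), (4, 7), 6), ((5, 2), (6, 1), 0), ((5, 2), (6, 5), 3),
    ((5, 2), (6, 7), 6), ((6, 2), (7, 4), 4), ((6, 2), (7, 6), 5)]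
  G := [[0, 0xe82a6c2a64226e82a6a2a8ce4244e4248c6, 0xe414444164168ca414e81a6c1ace81a81a8cc,
    0xe122e122c84, 0xe14a14e14e814e146984144e14614c986], [0, 0x14211c26418214211c2e1828cc2,
    0, 0xd122d122c42, 0x314514914e914314514e982]]

noncomputable def n1713 : Ent := ⟨e1713, noF, [], [], [(15, 10, [360035742630637297931254766822518807307257169425207333493583873, 0])]⟩

def c1713 : PLift (Cov.check n1713.C.D v1713 = true) := ⟨by decide +kernel⟩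

def b1713 : PLift (entF (fidx ts) 400 1713 n1713 = true) := ⟨by decide +kernel⟩

theorem g1713 : GoodF (fidx ts) 400 1713 := GoodF.ofV v1713 n1713 c1713.down b1713.down

/-- 4846644:1452/7 -/
noncomputable def e1714 : SCfg where
  D := {
    a := 7
    L := 10
    kp := 8
    inn := [(0, 1), (0, 3), (1, 0), (1, 2), (1, 4), (1, 5), (2, 1), (2, 4), (3, 0), (3, 6), (4, 1), (4,
      2), (5, 1), (6, 3)]
    mix := [(0, 0), (0, 1), (1, 0), (1, 1), (1, 2), (1, 3), (2, 2), (2, 4), (3, 0), (3, 1), (3, 5), (3,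
      6), (4, 1), (4, 4), (4, 7), (4, 8), (5, 2), (5, 3), (5, 5), (6, 0), (6, 5), (6, 9)]
    cl := [0, 0, 1, 2, 4, 3, 7, 5, 6, 8]
    chq := [(0, 3), (1, 2), (2, 1), (2, 4), (2, 5), (2, 6), (3, 0), (4, 2), (5, 2), (6, 2)]
    rng := [(0, 3), (0, 9), (1, 6), (1, 7), (2, 4), (2, 5), (3, 0), (3, 5), (4, 2), (4, 8), (5, 2), (5,
      3), (5, 6), (5, 9), (6, 1), (6, 5), (7, 1), (7, 8), (8, 4), (8, 7), (9, 0), (9, 5)]
    lev := [] }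
  links := [[1, 7, 3, 8], [7, 0, 8, 4, 2, 9, 5, 10], [9, 1, 4, 11], [8, 0, 7, 6, 12, 13], [11, 2, 1, 8,
    14, 15], [10, 1, 9, 12], [12, 3, 7, 16]]
  P := {
    a := 7
    N := 17
    nb := [394, 1973, 2578, 12737, 51462, 5634, 69768, 66635, 24603, 6182, 4258, 33300, 75368, 4360,
      33040, 18448, 4288]
    tri := [(0, 1, 7), (0, 1, 8), (0, 3, 7), (0, 3, 8), (1, 2, 4), (1, 2, 9), (1, 4, 8), (1, 5, 9), (1,
      5, 10), (1, 7, 10), (2, 4, 11), (2, 9, 11), (3, 6, 7), (3, 6, 12), (3, 8, 13), (3, 12, 13),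
      (4, 8, 14), (4, 11, 15), (4, 14, 15), (5, 9, 12), (5, 10, 12), (6, 7, 16), (6, 12, 16)]
    fin := [0, 1, 2, 0, 1, 5, 0, 0, 0, 9, 1, 2, 5, 13, 14, 15, 16]
    chd := [(0, 5), (1, 2), (1, 14), (1, 15), (9, 1)]
    steps := [(0, 3), (0, 6), (0, 7), (0, 8), (1, 4), (1, 10), (2, 11), (5, 12)] }
  rep := [0, 9, 1, 5, 2, 14, 15, 13, 16]

noncomputable def v1714 : Cov.CovD where
  P := 3
  N := 6
  pl := [6, 9]
  lev := [⟨[], [], [(0, 0)], [], [(0, 0, [3]), (1, 0, [3])]⟩,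
    ⟨[], [(0, 0), (0, 1), (0, 2)], [(0, 0), (0, 1), (0, 2), (1, 2)], [], [(0, 0, [3]), (1,
      0, [3]), (2, 1, [2]), (3, 2, [1, 4, 5, 6])]⟩,
    ⟨[(0, 1)], [(1, 0), (1, 1), (1, 2), (1, 4)], [(1, 4)], [], [(2, 1, [2]), (4, 4, [2])]⟩,
    ⟨[(0, 1)], [(0, 0), (0, 3), (1, 0)], [(0, 0), (0, 3)], [7], [(0, 0, [3]), (1, 0, [3]),
      (5, 3, [0])]⟩,
    ⟨[(0, 1), (1, 2)], [(0, 0), (1, 0), (1, 1), (1, 2), (1, 4), (1, 5), (1, 6), (2, 0), (2,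
      1), (2, 4), (2, 5), (2, 6), (3, 0)], [(0, 4), (0, 5), (0, 6), (4, 5), (4, 6), (5, 6)],
      [], [(1, 0, [3]), (4, 4, [2]), (7, 5, [2]), (8, 6, [2])]⟩,
    ⟨[(0, 1), (1, 2), (1, 4)], [(1, 0), (1, 1), (1, 2), (1, 3), (2, 1), (3, 3)], [(1, 2),
      (1, 3), (2, 3)], [], [(2, 1, [2]), (3, 2, [1, 4, 5, 6]), (5, 3, [0])]⟩,
    ⟨[(0, 3)], [(0, 0), (1, 0), (3, 0), (3, 3), (5, 3)], [(0, 3)], [8], [(0, 0, [3]), (5,
      3, [0])]⟩]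
  Ta := [((0, 3), 0, 2), ((0, 9), 0, 8), ((1, 6), 0, 7), ((1, 7), 0, 5)]
  Tb := [((0, 3, 9), 0, 2, 8), ((1, 6, 7), 0, 7, 5), ((2, 4, 5), 1, 4, 3), ((3, 0, 5), 2, 0, 3),
    ((4, 2, 8), 4, 1, 6), ((5, 2, 3), 3, 1, 2), ((5, 2, 6), 3, 1, 7), ((5, 2, 9), 3, 1, 8),
    ((5, 3, 6), 3, 2, 7), ((5, 3, 9), 3, 2, 8), ((5, 6, 9), 3, 7, 8), ((6, 1, 5), 7, 0, 3),
    ((7, 1, 8), 5, 0, 6), ((8, 4, 7), 6, 4, 5), ((9, 0, 5), 8, 0, 3)]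
  Tc := [(2, 1, 4), (2, 1, 5), (2, 1, 6), (2, 4, 5), (2, 4, 6), (2, 5, 6)]
  Td := [((0, 3), (0, 3), 2), ((0, 3), (0, 9), 8), ((0, 3), (1, 6), 7), ((0, 3), (1, 7), 5), ((1,
    2), (2, 4), 4), ((1, 2), (2, 5), 3), ((2, 1), (3, 0), 0), ((2, 1), (3, 5), 3), ((2, 4),
    (3, 0), 0), ((2, 4), (3, 5), 3), ((2, 5), (3, 0), 0), ((2, 5), (3, 5), 3), ((2, 6), (3,
    0), 0), ((2, 6), (3, 5), 3), ((3, 0), (5, 2), 1), ((3, 0), (5, 3), 2), ((3, 0), (5, 6),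
    7), ((3, 0), (5, 9), 8), ((4, 2), (4, 2), 1), ((4, 2), (4, 8), 6), ((5, 2), (7, 1), 0),
    ((5, 2), (7, 8), 6), ((6, 2), (8, 4), 4), ((6, 2), (8, 7), 5)]
  G := [[0, 0x6a622a82a6c2aa2e8a8ba82ae8e424e424c86, 0xe4144e41a6c168ce81a6c1a4e8188cc,
    0x612e126642458a82e12aa82894c, 0xe14e14ae84e14a98e144e144986], [0,
    0x142142618214211c2ec182182a8c4, 0, 0xa12642112ea82642112e982,
    0xe14714114e384514914e982]]

noncomputable def n1714 : Ent := ⟨e1714, noF, [], [], [(16, 10, [1580044410770988437858045522355060435978463990222429564876670812161, 0]), (13, 14, [1685382413448253767852309107433119732572617628602273068445371928577, 0])]⟩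

def c1714 : PLift (Cov.check n1714.C.D v1714 = true) := ⟨by decide +kernel⟩

def b1714 : PLift (entF (fidx ts) 400 1714 n1714 = true) := ⟨by decide +kernel⟩

theorem g1714 : GoodF (fidx ts) 400 1714 := GoodF.ofV v1714 n1714 c1714.down b1714.down

/-- 4846644:1452/9 -/
noncomputable def e1715 : SCfg where
  D := {
    a := 7
    L := 10
    kp := 8
    inn := [(0, 1), (0, 3), (1, 0), (1, 2), (1, 4), (1, 5), (2, 1), (2, 4), (3, 0), (3, 6), (4, 1), (4,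
      2), (5, 1), (6, 3)]
    mix := [(0, 0), (0, 1), (1, 0), (1, 1), (1, 2), (1, 3), (2, 2), (2, 4), (3, 0), (3, 1), (3, 5), (3,
      6), (4, 1), (4, 4), (4, 6), (4, 7), (5, 2), (5, 3), (5, 8), (6, 0), (6, 5), (6, 9)]
    cl := [0, 0, 1, 2, 3, 4, 5, 6, 7, 8]
    chq := [(0, 4), (1, 2), (2, 1), (2, 3), (2, 5), (2, 6), (3, 2), (4, 0), (5, 2), (6, 2)]
    rng := [(0, 3), (0, 9), (1, 6), (2, 4), (2, 8), (3, 0), (3, 8), (4, 2), (4, 7), (5, 6), (5, 9), (6,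
      1), (6, 5), (6, 7), (7, 4), (7, 6), (8, 2), (8, 3), (9, 0), (9, 5)]
    lev := [] }
  links := [[1, 7, 3, 8], [7, 0, 8, 4, 2, 9, 5, 10], [9, 1, 4, 11], [8, 0, 7, 6, 12, 13], [11, 2, 1, 8,
    13, 14], [10, 1, 9, 15], [12, 3, 7, 16]]
  P := {
    a := 7
    N := 17
    nb := [394, 1973, 2578, 12737, 26886, 34306, 69768, 66635, 8219, 34854, 32930, 16916, 73800,
      20760, 10256, 1568, 4288]
    tri := [(0, 1, 7), (0, 1, 8), (0, 3, 7), (0, 3, 8), (1, 2, 4), (1, 2, 9), (1, 4, 8), (1, 5, 9), (1,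
      5, 10), (1, 7, 10), (2, 4, 11), (2, 9, 11), (3, 6, 7), (3, 6, 12), (3, 8, 13), (3, 12, 13),
      (4, 8, 13), (4, 11, 14), (4, 13, 14), (5, 9, 15), (5, 10, 15), (6, 7, 16), (6, 12, 16)]
    fin := [0, 1, 2, 0, 1, 5, 0, 0, 0, 5, 1, 2, 12, 13, 14, 15, 16]
    chd := [(0, 12), (1, 2), (1, 13), (1, 14), (5, 1)]
    steps := [(0, 3), (0, 6), (0, 7), (0, 8), (1, 4), (1, 10), (2, 11), (5, 9)] }
  rep := [0, 5, 1, 2, 12, 13, 14, 15, 16]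

noncomputable def v1715 : Cov.CovD where
  P := 3
  N := 6
  pl := [8, 9]
  lev := [⟨[], [], [(0, 0)], [], [(0, 0, [4]), (1, 0, [4])]⟩,
    ⟨[], [(0, 0), (0, 1), (0, 2)], [(0, 0), (0, 1), (0, 2), (1, 2)], [], [(0, 0, [4]), (1,
      0, [4]), (2, 1, [2]), (3, 2, [1, 3, 5, 6])]⟩,
    ⟨[(0, 1)], [(1, 0), (1, 1), (1, 2), (1, 3)], [(1, 3)], [], [(2, 1, [2]), (4, 3, [2])]⟩,
    ⟨[(0, 1)], [(0, 0), (0, 4), (0, 5), (1, 0)], [(0, 0), (0, 4), (0, 5), (4, 5)], [], [(0,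
      0, [4]), (1, 0, [4]), (5, 4, [0]), (6, 5, [2])]⟩,
    ⟨[(0, 1), (1, 2)], [(0, 0), (1, 0), (1, 1), (1, 2), (1, 3), (1, 5), (1, 6), (2, 0), (2,
      1), (2, 3), (2, 5), (2, 6), (3, 0), (3, 5)], [(0, 3), (0, 5), (0, 6), (3, 5), (3, 6),
      (5, 6)], [], [(1, 0, [4]), (4, 3, [2]), (6, 5, [2]), (7, 6, [2])]⟩,
    ⟨[(0, 1), (1, 2), (1, 4)], [(1, 0), (1, 1), (1, 2), (2, 1)], [(1, 2)], [7], [(2, 1,
      [2]), (3, 2, [1, 3, 5, 6])]⟩,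
    ⟨[(0, 3)], [(0, 0), (1, 0), (3, 0), (3, 4), (3, 5)], [(0, 4)], [8], [(0, 0, [4]), (5,
      4, [0])]⟩]
  Ta := [((0, 3), 0, 2), ((0, 9), 0, 8), ((1, 6), 0, 5)]
  Tb := [((0, 3, 9), 0, 2, 8), ((2, 4, 8), 1, 3, 7), ((3, 0, 8), 2, 0, 7), ((4, 2, 7), 3, 1, 6),
    ((5, 6, 9), 4, 5, 8), ((6, 1, 5), 5, 0, 4), ((6, 1, 7), 5, 0, 6), ((6, 5, 7), 5, 4, 6),
    ((7, 4, 6), 6, 3, 5), ((8, 2, 3), 7, 1, 2), ((9, 0, 5), 8, 0, 4)]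
  Tc := [(2, 1, 3), (2, 1, 5), (2, 1, 6), (2, 3, 5), (2, 3, 6), (2, 5, 6)]
  Td := [((0, 4), (0, 3), 2), ((0, 4), (0, 9), 8), ((0, 4), (1, 6), 5), ((1, 2), (2, 4), 3), ((1,
    2), (2, 8), 7), ((2, 1), (3, 0), 0), ((2, 1), (3, 8), 7), ((2, 3), (3, 0), 0), ((2, 3),
    (3, 8), 7), ((2, 5), (3, 0), 0), ((2, 5), (3, 8), 7), ((2, 6), (3, 0), 0), ((2, 6), (3,
    8), 7), ((3, 2), (4, 2), 1), ((3, 2), (4, 7), 6), ((4, 0), (5, 6), 5), ((4, 0), (5, 9),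
    8), ((5, 2), (6, 1), 0), ((5, 2), (6, 5), 4), ((5, 2), (6, 7), 6), ((6, 2), (7, 4), 3),
    ((6, 2), (7, 6), 5)]
  G := [[0, 0x24224482e82eec2ee822ccca62e42ceec2eec2c42e8828e8a,
    0xe4144641eec1eec1ee814cc8418eec1eec1ace8188cc, 0xcc52a6c2a6ac2258cc52c126cc92cc92c986,
    0xea54ea54aa842ee94ee94ad8a8464ee9c4ece444586], [0,
    0x3422411c2394e2dec2e8ccc1e219c2782e48c, 0, 0x1c92c1c2d152e1c921c92c59c22d42,
    0x51542d4119c14b7934e184eb44e9941194ed82]]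

noncomputable def n1715 : Ent := ⟨e1715, noF, [], [], [(16, 10, [1580044410770988437858045522355060435978463990222429564876670816257, 0]), (12, 14, [1685382413448253767852309107433119732572617628602273068445371920385, 0]), (12, 15, [1685356702439545624007900436039642273970977273354372543760007106561, 0])]⟩

def c1715 : PLift (Cov.check n1715.C.D v1715 = true) := ⟨by decide +kernel⟩

def b1715 : PLift (entF (fidx ts) 400 1715 n1715 = true) := ⟨by decide +kernel⟩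

theorem g1715 : GoodF (fidx ts) 400 1715 := GoodF.ofV v1715 n1715 c1715.down b1715.down

/-- 4846644:1452 -/
noncomputable def e1716 : SCfg where
  D := {
    a := 7
    L := 11
    kp := 9
    inn := [(0, 1), (0, 3), (1, 0), (1, 2), (1, 4), (1, 5), (2, 1), (2, 4), (3, 0), (3, 6), (4, 1), (4,
      2), (5, 1), (6, 3)]
    mix := [(0, 0), (0, 1), (1, 0), (1, 1), (1, 2), (1, 3), (2, 2), (2, 4), (3, 0), (3, 1), (3, 5), (3,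
      6), (4, 1), (4, 4), (4, 7), (4, 8), (5, 2), (5, 3), (5, 9), (6, 0), (6, 5), (6, 10)]
    cl := [0, 0, 1, 2, 3, 4, 7, 5, 6, 8, 9]
    chq := [(0, 4), (1, 2), (2, 1), (2, 3), (2, 5), (2, 6), (3, 2), (4, 0), (5, 2), (6, 2)]
    rng := [(0, 3), (0, 10), (1, 6), (1, 7), (2, 4), (2, 9), (3, 0), (3, 9), (4, 2), (4, 8), (5, 6),
      (5, 10), (6, 1), (6, 5), (7, 1), (7, 8), (8, 4), (8, 7), (9, 2), (9, 3), (10, 0), (10, 5)]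
    lev := [] }
  links := [[1, 7, 3, 8], [7, 0, 8, 4, 2, 9, 5, 10], [9, 1, 4, 11], [8, 0, 7, 6, 12, 13], [11, 2, 1, 8,
    14, 15], [10, 1, 9, 16], [12, 3, 7, 17]]
  P := {
    a := 7
    N := 18
    nb := [394, 1973, 2578, 12737, 51462, 67074, 135304, 132171, 24603, 67622, 65698, 33300, 139336,
      4360, 33040, 18448, 1568, 4288]
    tri := [(0, 1, 7), (0, 1, 8), (0, 3, 7), (0, 3, 8), (1, 2, 4), (1, 2, 9), (1, 4, 8), (1, 5, 9), (1,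
      5, 10), (1, 7, 10), (2, 4, 11), (2, 9, 11), (3, 6, 7), (3, 6, 12), (3, 8, 13), (3, 12, 13),
      (4, 8, 14), (4, 11, 15), (4, 14, 15), (5, 9, 16), (5, 10, 16), (6, 7, 17), (6, 12, 17)]
    fin := [0, 1, 2, 0, 1, 5, 0, 0, 0, 5, 1, 2, 12, 13, 14, 15, 16, 17]
    chd := [(0, 12), (1, 2), (1, 14), (1, 15), (5, 1)]
    steps := [(0, 3), (0, 6), (0, 7), (0, 8), (1, 4), (1, 10), (2, 11), (5, 9)] }
  rep := [0, 5, 1, 2, 12, 14, 15, 13, 16, 17]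

noncomputable def v1716 : Cov.CovD where
  P := 3
  N := 7
  pl := [6, 9, 10]
  lev := [⟨[], [], [(0, 0)], [], [(0, 0, [4]), (1, 0, [4])]⟩,
    ⟨[], [(0, 0), (0, 1), (0, 2)], [(0, 0), (0, 1), (0, 2), (1, 2)], [], [(0, 0, [4]), (1,
      0, [4]), (2, 1, [2]), (3, 2, [1, 3, 5, 6])]⟩,
    ⟨[(0, 1)], [(1, 0), (1, 1), (1, 2), (1, 3)], [(1, 3)], [], [(2, 1, [2]), (4, 3, [2])]⟩,
    ⟨[(0, 1)], [(0, 0), (0, 4), (1, 0)], [(0, 0), (0, 4)], [7], [(0, 0, [4]), (1, 0, [4]),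
      (5, 4, [0])]⟩,
    ⟨[(0, 1), (1, 2)], [(0, 0), (1, 0), (1, 1), (1, 2), (1, 3), (1, 5), (1, 6), (2, 0), (2,
      1), (2, 3), (2, 5), (2, 6), (3, 0)], [(0, 3), (0, 5), (0, 6), (3, 5), (3, 6), (5, 6)],
      [], [(1, 0, [4]), (4, 3, [2]), (7, 5, [2]), (8, 6, [2])]⟩,
    ⟨[(0, 1), (1, 2), (1, 4)], [(1, 0), (1, 1), (1, 2), (2, 1)], [(1, 2)], [8], [(2, 1,
      [2]), (3, 2, [1, 3, 5, 6])]⟩,
    ⟨[(0, 3)], [(0, 0), (1, 0), (3, 0), (3, 4)], [(0, 4)], [9], [(0, 0, [4]), (5, 4, [0])]⟩]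
  Ta := [((0, 3), 0, 2), ((0, 10), 0, 9), ((1, 6), 0, 7), ((1, 7), 0, 5)]
  Tb := [((0, 3, 10), 0, 2, 9), ((1, 6, 7), 0, 7, 5), ((2, 4, 9), 1, 3, 8), ((3, 0, 9), 2, 0, 8),
    ((4, 2, 8), 3, 1, 6), ((5, 6, 10), 4, 7, 9), ((6, 1, 5), 7, 0, 4), ((7, 1, 8), 5, 0, 6),
    ((8, 4, 7), 6, 3, 5), ((9, 2, 3), 8, 1, 2), ((10, 0, 5), 9, 0, 4)]
  Tc := [(2, 1, 3), (2, 1, 5), (2, 1, 6), (2, 3, 5), (2, 3, 6), (2, 5, 6)]
  Td := [((0, 4), (0, 3), 2), ((0, 4), (0, 10), 9), ((0, 4), (1, 6), 7), ((0, 4), (1, 7), 5),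
    ((1, 2), (2, 4), 3), ((1, 2), (2, 9), 8), ((2, 1), (3, 0), 0), ((2, 1), (3, 9), 8), ((2,
    3), (3, 0), 0), ((2, 3), (3, 9), 8), ((2, 5), (3, 0), 0), ((2, 5), (3, 9), 8), ((2, 6),
    (3, 0), 0), ((2, 6), (3, 9), 8), ((3, 2), (4, 2), 1), ((3, 2), (4, 8), 6), ((4, 0), (5,
    6), 7), ((4, 0), (5, 10), 9), ((5, 2), (7, 1), 0), ((5, 2), (7, 8), 6), ((6, 2), (8, 4),
    3), ((6, 2), (8, 7), 5)]
  G := [[0, 0xe4224e82eec26e822cce42e42ceec2eec2cce8288ca,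
    0xe412eec12ce8128ce414eec1eec1cceec1e81c8c6, 0xee52ee52aee522c8ee524ee92eec2cc86,
    0xee54ee54ae84e84aee94a84ee94ed8ee544e8444e944d86], [0,
    0x342942542ee3c275c219c2ec382582982e8c2, 0, 0x535299523552e959213c25992ec84,
    0x5443354944e95943845e94e9443394544ed84]]

noncomputable def n1716 : Ent := ⟨e1716, noF, [], [], [(17, 10, [6903326391201334775872705251651713694319475166462653752416129407180801, 0]), (12, 15, [7334790850167413569773436004105379185503274260204390087403942011666433, 0]), (12, 16, [7334685537875745012586738086077695515070955365108989538292687700697089, 0]), (13, 14, [7334790875878422277917280412776772662961875900559637987928627376500737, 0])]⟩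

def c1716 : PLift (Cov.check n1716.C.D v1716 = true) := ⟨by decide +kernel⟩

def b1716 : PLift (entF (fidx ts) 400 1716 n1716 = true) := ⟨by decide +kernel⟩

theorem g1716 : GoodF (fidx ts) 400 1716 := GoodF.ofV v1716 n1716 c1716.down b1716.down

/-- 4576944:1456/1 -/
noncomputable def e1717 : SCfg where
  D := {
    a := 7
    L := 10
    kp := 7
    inn := [(0, 1), (0, 2), (0, 3), (0, 4), (1, 0), (1, 2), (1, 4), (2, 0), (2, 1), (2, 3), (3, 0), (3,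
      2), (3, 4), (4, 0), (4, 1), (4, 3), (4, 5), (4, 6), (5, 4), (6, 4)]
    mix := [(1, 0), (1, 1), (2, 1), (2, 2), (2, 3), (2, 4), (3, 4), (3, 5), (3, 6), (4, 0), (4, 6), (4,
      7), (4, 8), (5, 6), (5, 7), (5, 9), (6, 2), (6, 7), (6, 8)]
    cl := [1, 0, 2, 6, 0, 5, 3, 4, 3, 7]
    chq := [(1, 5), (3, 4), (4, 3), (5, 1)]
    rng := [(0, 1), (0, 8), (1, 0), (1, 2), (2, 1), (2, 3), (2, 7), (2, 8), (3, 2), (3, 4), (4, 3), (4,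
      5), (5, 4), (5, 6), (6, 5), (6, 9), (7, 2), (7, 9), (8, 0), (8, 2), (9, 6), (9, 7)]
    lev := [] }
  links := [[1, 2, 3, 4], [2, 0, 4, 7, 8], [3, 0, 1, 8, 9, 10, 11], [4, 0, 2, 11, 12, 13], [7, 1, 0, 3,
    13, 5, 14, 6, 15], [14, 4, 13, 16], [15, 4, 14, 9]]
  P := {
    a := 7
    N := 17
    nb := [30, 405, 3851, 14357, 57579, 90128, 49680, 33042, 646, 50500, 2564, 5132, 10248, 69688,
      66160, 720, 24608]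
    tri := [(0, 1, 2), (0, 1, 4), (0, 2, 3), (0, 3, 4), (1, 2, 8), (1, 4, 7), (1, 7, 8), (2, 3, 11),
      (2, 8, 9), (2, 9, 10), (2, 10, 11), (3, 4, 13), (3, 11, 12), (3, 12, 13), (4, 5, 13), (4, 5,
      14), (4, 6, 14), (4, 6, 15), (4, 7, 15), (5, 13, 16), (5, 14, 16), (6, 9, 14), (6, 9, 15)]
    fin := [0, 0, 2, 0, 4, 4, 6, 0, 2, 6, 10, 2, 12, 4, 14, 4, 16]
    chd := [(0, 12), (4, 14)]
    steps := [(0, 1), (0, 3), (0, 7), (2, 8), (2, 11), (4, 5), (4, 13), (4, 15), (6, 9)] }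
  rep := [2, 0, 6, 4, 14, 12, 10, 16]

noncomputable def v1717 : Cov.CovD where
  P := 3
  N := 5
  pl := [2, 3, 9]
  lev := [⟨[], [], [], [], []⟩,
    ⟨[], [(0, 0), (0, 1)], [(0, 1)], [], [(0, 1, [5]), (1, 0, [])]⟩,
    ⟨[(0, 1)], [(0, 0), (1, 0), (1, 1)], [(0, 0)], [2, 6], [(1, 0, []), (4, 0, [])]⟩,
    ⟨[(0, 1), (0, 2), (1, 2)], [(0, 0), (0, 3), (0, 5), (2, 0), (2, 3), (2, 5)], [(0, 3),
      (0, 5), (3, 5)], [], [(4, 0, []), (5, 5, [1]), (6, 3, [4])]⟩,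
    ⟨[(0, 1), (0, 2), (0, 3), (1, 2), (1, 3), (2, 3)], [(0, 1), (0, 3), (0, 4), (1, 0), (1,
      1), (1, 3), (1, 4), (3, 0), (3, 1), (3, 3), (3, 4), (3, 5)], [(1, 3), (1, 4), (3, 3),
      (3, 4)], [], [(0, 1, [5]), (6, 3, [4]), (7, 4, [3]), (8, 3, [4])]⟩,
    ⟨[(0, 4), (1, 4), (3, 4)], [(3, 3), (4, 1), (4, 3), (4, 4)], [(3, 4)], [7], [(6, 3,
      [4]), (7, 4, [3])]⟩,
    ⟨[(0, 4), (1, 4), (3, 4), (4, 5)], [(4, 1), (4, 3), (4, 4), (5, 4)], [(3, 4)], [2],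
      [(7, 4, [3]), (8, 3, [4])]⟩]
  Ta := [((1, 0), 0, 1), ((1, 2), 0, 2), ((4, 3), 0, 6), ((4, 5), 0, 5), ((6, 5), 3, 5), ((6, 9),
    3, 7), ((8, 0), 3, 1), ((8, 2), 3, 2)]
  Tb := [((0, 1, 8), 1, 0, 3), ((1, 0, 2), 0, 1, 2), ((2, 1, 3), 2, 0, 6), ((2, 1, 7), 2, 0, 4),
    ((2, 1, 8), 2, 0, 3), ((2, 3, 7), 2, 6, 4), ((2, 3, 8), 2, 6, 3), ((2, 7, 8), 2, 4, 3),
    ((3, 2, 4), 6, 2, 0), ((4, 3, 5), 0, 6, 5), ((5, 4, 6), 5, 0, 3), ((6, 5, 9), 3, 5, 7),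
    ((7, 2, 9), 4, 2, 7), ((8, 0, 2), 3, 1, 2), ((9, 6, 7), 7, 3, 4)]
  Tc := []
  Td := [((1, 5), (0, 1), 0), ((1, 5), (0, 8), 3), ((3, 4), (6, 5), 5), ((3, 4), (6, 9), 7), ((3,
    4), (8, 0), 1), ((3, 4), (8, 2), 2), ((4, 3), (7, 2), 2), ((4, 3), (7, 9), 7), ((5, 1),
    (5, 4), 0), ((5, 1), (5, 6), 3)]
  G := [[0, 0x844188541c2814191321c419c13a18449814ec, 0x842cf128426f12c48,
    0x9461c3524858a1c3928494642858a824cd,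
    0x22883532688358447281128ca26225281c4228aa12a8212a81886ac9], [0,
    0x44a41488611a51ce188611ca1cc2, 0x842ef12a6cd12c48,
    0x11c1211c12c44494244942c8858288582cc9,
    0xa3911c5288858288588483ac8321f1235218a3123dc286], [0, 0, 0,
    0x9461c3524946428958a1c392858a8245c,
    0x183121887188316aa26422294622892ec6a518a82188e82886a1c], [0, 0, 0,
    0x44911c52411c128449428d8858288582c1c,
    0x11c128182a4a931127538a1239c2244214c25885a39c2847]]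

noncomputable def n1717 : Ent := ⟨e1717, noF, [], [], []⟩

def c1717 : PLift (Cov.check n1717.C.D v1717 = true) := ⟨by decide +kernel⟩

def b1717 : PLift (entF (fidx ts) 400 1717 n1717 = true) := ⟨by decide +kernel⟩

theorem g1717 : GoodF (fidx ts) 400 1717 := GoodF.ofV v1717 n1717 c1717.down b1717.down

/-- 4576944:1456/2 -/
noncomputable def e1718 : SCfg where
  D := {
    a := 7
    L := 10
    kp := 7
    inn := [(0, 1), (0, 2), (0, 3), (0, 4), (1, 0), (1, 2), (1, 4), (2, 0), (2, 1), (2, 3), (3, 0), (3,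
      2), (3, 4), (4, 0), (4, 1), (4, 3), (4, 5), (4, 6), (5, 4), (6, 4)]
    mix := [(1, 0), (1, 1), (2, 1), (2, 2), (2, 3), (2, 4), (3, 4), (3, 5), (3, 6), (4, 0), (4, 6), (4,
      7), (4, 8), (5, 6), (5, 7), (5, 9), (6, 3), (6, 7), (6, 8)]
    cl := [1, 0, 6, 2, 0, 5, 3, 4, 3, 7]
    chq := [(1, 5), (3, 4), (4, 3), (5, 1)]
    rng := [(0, 1), (0, 8), (1, 0), (1, 2), (2, 1), (2, 3), (3, 2), (3, 4), (3, 7), (3, 8), (4, 3), (4,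
      5), (5, 4), (5, 6), (6, 5), (6, 9), (7, 3), (7, 9), (8, 0), (8, 3), (9, 6), (9, 7)]
    lev := [] }
  links := [[1, 2, 3, 4], [2, 0, 4, 7, 8], [3, 0, 1, 8, 9, 10, 11], [4, 0, 2, 11, 12, 13], [7, 1, 0, 3,
    13, 5, 14, 6, 15], [14, 4, 13, 16], [15, 4, 14, 10]]
  P := {
    a := 7
    N := 17
    nb := [30, 405, 3851, 14357, 57579, 90128, 50192, 33042, 646, 1284, 51780, 5132, 10248, 69688,
      66672, 1232, 24608]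
    tri := [(0, 1, 2), (0, 1, 4), (0, 2, 3), (0, 3, 4), (1, 2, 8), (1, 4, 7), (1, 7, 8), (2, 3, 11),
      (2, 8, 9), (2, 9, 10), (2, 10, 11), (3, 4, 13), (3, 11, 12), (3, 12, 13), (4, 5, 13), (4, 5,
      14), (4, 6, 14), (4, 6, 15), (4, 7, 15), (5, 13, 16), (5, 14, 16), (6, 10, 14), (6, 10, 15)]
    fin := [0, 0, 2, 0, 4, 4, 6, 0, 2, 9, 6, 2, 12, 4, 14, 4, 16]
    chd := [(0, 12), (4, 14)]
    steps := [(0, 1), (0, 3), (0, 7), (2, 8), (2, 11), (4, 5), (4, 13), (4, 15), (6, 10)] }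
  rep := [2, 0, 6, 4, 14, 12, 9, 16]

noncomputable def v1718 : Cov.CovD where
  P := 3
  N := 5
  pl := [2, 3, 9]
  lev := [⟨[], [], [], [], []⟩,
    ⟨[], [(0, 0), (0, 1)], [(0, 1)], [], [(0, 1, [5]), (1, 0, [])]⟩,
    ⟨[(0, 1)], [(0, 0), (1, 0), (1, 1)], [(0, 0)], [2, 6], [(1, 0, []), (4, 0, [])]⟩,
    ⟨[(0, 1), (0, 2), (1, 2)], [(0, 0), (0, 3), (0, 5), (2, 0), (2, 3), (2, 5)], [(0, 3),
      (0, 5), (3, 5)], [], [(4, 0, []), (5, 5, [1]), (6, 3, [4])]⟩,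
    ⟨[(0, 1), (0, 2), (0, 3), (1, 2), (1, 3), (2, 3)], [(0, 1), (0, 3), (0, 4), (1, 0), (1,
      1), (1, 3), (1, 4), (3, 0), (3, 1), (3, 3), (3, 4), (3, 5)], [(1, 3), (1, 4), (3, 3),
      (3, 4)], [], [(0, 1, [5]), (6, 3, [4]), (7, 4, [3]), (8, 3, [4])]⟩,
    ⟨[(0, 4), (1, 4), (3, 4)], [(3, 3), (4, 1), (4, 3), (4, 4)], [(3, 4)], [7], [(6, 3,
      [4]), (7, 4, [3])]⟩,
    ⟨[(0, 4), (1, 4), (3, 4), (4, 5)], [(4, 1), (4, 3), (4, 4), (5, 4)], [(3, 4)], [2],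
      [(7, 4, [3]), (8, 3, [4])]⟩]
  Ta := [((1, 0), 0, 1), ((1, 2), 0, 6), ((4, 3), 0, 2), ((4, 5), 0, 5), ((6, 5), 3, 5), ((6, 9),
    3, 7), ((8, 0), 3, 1), ((8, 3), 3, 2)]
  Tb := [((0, 1, 8), 1, 0, 3), ((1, 0, 2), 0, 1, 6), ((2, 1, 3), 6, 0, 2), ((3, 2, 4), 2, 6, 0),
    ((3, 2, 7), 2, 6, 4), ((3, 2, 8), 2, 6, 3), ((3, 4, 7), 2, 0, 4), ((3, 4, 8), 2, 0, 3),
    ((3, 7, 8), 2, 4, 3), ((4, 3, 5), 0, 2, 5), ((5, 4, 6), 5, 0, 3), ((6, 5, 9), 3, 5, 7),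
    ((7, 3, 9), 4, 2, 7), ((8, 0, 3), 3, 1, 2), ((9, 6, 7), 7, 3, 4)]
  Tc := []
  Td := [((1, 5), (0, 1), 0), ((1, 5), (0, 8), 3), ((3, 4), (6, 5), 5), ((3, 4), (6, 9), 7), ((3,
    4), (8, 0), 1), ((3, 4), (8, 3), 2), ((4, 3), (7, 3), 2), ((4, 3), (7, 9), 7), ((5, 1),
    (5, 4), 0), ((5, 1), (5, 6), 3)]
  G := [[0, 0x844188541c2814191321c419c13a18449814ec, 0, 0x1c312458a1c3928c9464294642c58a824c5,
    0x211211a28392a41921f2252213432646a21a82118e985886b4ac5], [0,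
    0x44a11c6111644a19ce1c28868184c, 0, 0x44911c524888511c9284449428885824cd,
    0xa39422a388912277212235211b4ba88511c92288d88283ac4], [0, 0, 0x8426f12842cf12c84,
    0x1c3121c312c9464294642c558a82858a8245c,
    0x19c88873423264211682ac92646a912a2839211a18392a4c], [0, 0, 0x842ef12a6cd12c84,
    0x11c12488511c928c4494244942c885824c5, 0xa3911c52a2112758a885828111c92ac244288b133cc216]]

noncomputable def n1718 : Ent := ⟨e1718, noF, [], [], []⟩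

def c1718 : PLift (Cov.check n1718.C.D v1718 = true) := ⟨by decide +kernel⟩

def b1718 : PLift (entF (fidx ts) 400 1718 n1718 = true) := ⟨by decide +kernel⟩

theorem g1718 : GoodF (fidx ts) 400 1718 := GoodF.ofV v1718 n1718 c1718.down b1718.down

/-- 4576944:1456 -/
noncomputable def e1719 : SCfg where
  D := {
    a := 7
    L := 11
    kp := 8
    inn := [(0, 1), (0, 2), (0, 3), (0, 4), (1, 0), (1, 2), (1, 4), (2, 0), (2, 1), (2, 3), (3, 0), (3,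
      2), (3, 4), (4, 0), (4, 1), (4, 3), (4, 5), (4, 6), (5, 4), (6, 4)]
    mix := [(1, 0), (1, 1), (2, 1), (2, 2), (2, 3), (2, 4), (3, 4), (3, 5), (3, 6), (4, 0), (4, 6), (4,
      7), (4, 8), (5, 6), (5, 7), (5, 9), (6, 7), (6, 8), (6, 10)]
    cl := [2, 3, 5, 6, 3, 4, 0, 1, 0, 7, 8]
    chq := [(0, 1), (1, 0), (2, 4), (4, 2)]
    rng := [(0, 1), (0, 8), (1, 0), (1, 2), (2, 1), (2, 3), (3, 2), (3, 4), (4, 3), (4, 5), (5, 4), (5,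
      6), (6, 5), (6, 9), (7, 9), (7, 10), (8, 0), (8, 10), (9, 6), (9, 7), (10, 7), (10, 8)]
    lev := [] }
  links := [[1, 2, 3, 4], [2, 0, 4, 7, 8], [3, 0, 1, 8, 9, 10, 11], [4, 0, 2, 11, 12, 13], [7, 1, 0, 3,
    13, 5, 14, 6, 15], [14, 4, 13, 16], [15, 4, 14, 17]]
  P := {
    a := 7
    N := 18
    nb := [30, 405, 3851, 14357, 57579, 90128, 180240, 33042, 646, 1284, 2564, 5132, 10248, 69688,
      196720, 131280, 24608, 49216]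
    tri := [(0, 1, 2), (0, 1, 4), (0, 2, 3), (0, 3, 4), (1, 2, 8), (1, 4, 7), (1, 7, 8), (2, 3, 11),
      (2, 8, 9), (2, 9, 10), (2, 10, 11), (3, 4, 13), (3, 11, 12), (3, 12, 13), (4, 5, 13), (4, 5,
      14), (4, 6, 14), (4, 6, 15), (4, 7, 15), (5, 13, 16), (5, 14, 16), (6, 14, 17), (6, 15, 17)]
    fin := [0, 0, 2, 0, 4, 4, 4, 0, 2, 9, 10, 2, 12, 4, 14, 4, 16, 17]
    chd := [(0, 12), (4, 14)]
    steps := [(0, 1), (0, 3), (0, 7), (2, 8), (2, 11), (4, 5), (4, 6), (4, 13), (4, 15)] }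
  rep := [4, 14, 0, 2, 12, 9, 10, 16, 17]

noncomputable def v1719 : Cov.CovD where
  P := 3
  N := 6
  pl := [2, 3, 9, 10]
  lev := [⟨[], [], [], [], []⟩,
    ⟨[], [(0, 2), (0, 3)], [(2, 3)], [], [(0, 2, [4]), (1, 3, [])]⟩,
    ⟨[(0, 1)], [(0, 3), (1, 2), (1, 3)], [(3, 3)], [5, 6], [(1, 3, []), (4, 3, [])]⟩,
    ⟨[(0, 1), (0, 2), (1, 2)], [(0, 0), (0, 3), (0, 4), (2, 0), (2, 3), (2, 4)], [(0, 3),
      (0, 4), (3, 4)], [], [(4, 3, []), (5, 4, [2]), (6, 0, [1])]⟩,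
    ⟨[(0, 1), (0, 2), (0, 3), (1, 2), (1, 3), (2, 3)], [(0, 0), (0, 1), (0, 2), (1, 0), (1,
      1), (1, 2), (1, 3), (3, 0), (3, 1), (3, 2), (3, 3), (3, 4)], [(0, 0), (0, 1), (0, 2),
      (1, 2)], [], [(0, 2, [4]), (6, 0, [1]), (7, 1, [0]), (8, 0, [1])]⟩,
    ⟨[(0, 4), (1, 4), (3, 4)], [(3, 0), (4, 0), (4, 1), (4, 2)], [(0, 1)], [7], [(6, 0,
      [1]), (7, 1, [0])]⟩,
    ⟨[(0, 4), (1, 4), (3, 4), (4, 5)], [(4, 0), (4, 1), (4, 2), (5, 1)], [(0, 1)], [8],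
      [(7, 1, [0]), (8, 0, [1])]⟩]
  Ta := [((1, 0), 3, 2), ((1, 2), 3, 5), ((4, 3), 3, 6), ((4, 5), 3, 4), ((6, 5), 0, 4), ((6, 9),
    0, 7), ((8, 0), 0, 2), ((8, 10), 0, 8)]
  Tb := [((0, 1, 8), 2, 3, 0), ((1, 0, 2), 3, 2, 5), ((2, 1, 3), 5, 3, 6), ((3, 2, 4), 6, 5, 3),
    ((4, 3, 5), 3, 6, 4), ((5, 4, 6), 4, 3, 0), ((6, 5, 9), 0, 4, 7), ((7, 9, 10), 1, 7, 8),
    ((8, 0, 10), 0, 2, 8), ((9, 6, 7), 7, 0, 1), ((10, 7, 8), 8, 1, 0)]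
  Tc := []
  Td := [((0, 1), (6, 5), 4), ((0, 1), (6, 9), 7), ((0, 1), (8, 0), 2), ((0, 1), (8, 10), 8),
    ((1, 0), (7, 9), 7), ((1, 0), (7, 10), 8), ((2, 4), (0, 1), 3), ((2, 4), (0, 8), 0), ((4,
    2), (5, 4), 3), ((4, 2), (5, 6), 0)]
  G := [[0, 0x66682666824688c664aaa428aaa4166a8239c, 0,
    0x1418c21111c421842a11c821418c148a611c842d5,
    0x11c841418c11c8cc11c8411c849311c84211c82433], [0, 0x6cc8266c8266686ac86ca8e6aa82f41, 0,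
    0x11c4211c4211c41418c1418ce11c42f18, 0x11c841418c11c811c8e11c8411c84f21], [0,
    0x6ac4211a664266684a6a682aaa486c9, 0xc1428c182c1825c184c148c14c18cc184fe1,
    0x41824c14215c142418c146a818281486c1482d9, 0xc182c182c1c18411c184c18c186c184e27], [0,
    0x6ca426ac4266686ac4a6a4766682f18, 0xc84144c8cc144c8cc1c144181cc14ef2c48184a,
    0xc142c142c14c14ac142fc1842c1, 0xc1844181cc18c18ec184c184f12]]

noncomputable def n1719 : Ent := ⟨e1719, noF, [], [], [(9, 17, [6903326391201334775872065844685381424292761054348340378595029936721921, 0]), (10, 17, [6903326391201334775872065844685381424292761054348340378595029936726017, 0])]⟩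

def c1719 : PLift (Cov.check n1719.C.D v1719 = true) := ⟨by decide +kernel⟩

def b1719 : PLift (entF (fidx ts) 400 1719 n1719 = true) := ⟨by decide +kernel⟩

theorem g1719 : GoodF (fidx ts) 400 1719 := GoodF.ofV v1719 n1719 c1719.down b1719.down

/-- 4576944:1457/1 -/
noncomputable def e1720 : SCfg where
  D := {
    a := 7
    L := 10
    kp := 7
    inn := [(0, 1), (0, 2), (0, 3), (0, 4), (1, 0), (1, 2), (1, 4), (2, 0), (2, 1), (2, 3), (3, 0), (3,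
      2), (3, 4), (4, 0), (4, 1), (4, 3), (4, 5), (4, 6), (5, 4), (6, 4)]
    mix := [(1, 0), (1, 1), (2, 1), (2, 2), (2, 3), (2, 4), (3, 4), (3, 5), (3, 6), (4, 0), (4, 6), (4,
      7), (4, 8), (5, 6), (5, 7), (5, 9), (6, 0), (6, 2), (6, 8)]
    cl := [0, 1, 2, 6, 1, 5, 3, 0, 4, 7]
    chq := [(0, 3), (0, 5), (3, 0), (5, 0)]
    rng := [(0, 1), (0, 2), (1, 0), (1, 2), (2, 0), (2, 1), (2, 3), (2, 8), (3, 2), (3, 4), (4, 3), (4,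
      5), (5, 4), (5, 6), (6, 5), (6, 9), (7, 8), (7, 9), (8, 2), (8, 7), (9, 6), (9, 7)]
    lev := [] }
  links := [[1, 2, 3, 4], [2, 0, 4, 7, 8], [3, 0, 1, 8, 9, 10, 11], [4, 0, 2, 11, 12, 13], [7, 1, 0, 3,
    13, 5, 14, 15, 6], [14, 4, 13, 16], [7, 4, 15, 9]]
  P := {
    a := 7
    N := 17
    nb := [30, 405, 3851, 14357, 57579, 90128, 33424, 850, 646, 34244, 2564, 5132, 10248, 69688,
      98352, 16976, 24608]
    tri := [(0, 1, 2), (0, 1, 4), (0, 2, 3), (0, 3, 4), (1, 2, 8), (1, 4, 7), (1, 7, 8), (2, 3, 11),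
      (2, 8, 9), (2, 9, 10), (2, 10, 11), (3, 4, 13), (3, 11, 12), (3, 12, 13), (4, 5, 13), (4, 5,
      14), (4, 6, 7), (4, 6, 15), (4, 14, 15), (5, 13, 16), (5, 14, 16), (6, 7, 9), (6, 9, 15)]
    fin := [0, 0, 2, 0, 0, 0, 0, 0, 2, 9, 10, 2, 12, 13, 0, 15, 16]
    chd := [(0, 12), (0, 13)]
    steps := [(0, 1), (0, 3), (0, 4), (0, 5), (0, 6), (0, 7), (0, 14), (2, 8), (2, 11)] }
  rep := [0, 2, 9, 13, 15, 12, 10, 16]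

noncomputable def v1720 : Cov.CovD where
  P := 3
  N := 5
  pl := [2, 3, 8, 9]
  lev := [⟨[], [], [], [], []⟩,
    ⟨[], [(0, 0), (0, 1)], [(0, 1)], [], [(0, 0, [3, 5]), (1, 1, [])]⟩,
    ⟨[(0, 1)], [(0, 1), (1, 0), (1, 1)], [(1, 1)], [2, 6], [(1, 1, []), (4, 1, [])]⟩,
    ⟨[(0, 1), (0, 2), (1, 2)], [(0, 1), (0, 3), (0, 5), (2, 1), (2, 3), (2, 5)], [(1, 3),
      (1, 5), (3, 5)], [], [(4, 1, []), (5, 5, [0]), (6, 3, [0])]⟩,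
    ⟨[(0, 1), (0, 2), (0, 3), (1, 2), (1, 3), (2, 3)], [(0, 0), (0, 3), (1, 0), (1, 1), (1,
      3), (3, 0), (3, 1), (3, 3), (3, 5)], [(0, 0), (0, 3)], [4], [(0, 0, [3, 5]), (6, 3,
      [0]), (7, 0, [3, 5])]⟩,
    ⟨[(0, 4), (1, 4), (3, 4)], [(3, 3), (4, 0), (4, 3)], [(0, 3)], [7], [(6, 3, [0]), (7,
      0, [3, 5])]⟩,
    ⟨[(0, 4), (1, 4), (3, 4), (4, 5)], [(1, 0), (4, 0), (4, 3)], [], [2, 4], [(0, 0, [3,
      5])]⟩]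
  Ta := [((0, 1), 0, 1), ((0, 2), 0, 2), ((1, 0), 1, 0), ((1, 2), 1, 2), ((4, 3), 1, 6), ((4, 5),
    1, 5), ((7, 8), 0, 4), ((7, 9), 0, 7)]
  Tb := [((0, 1, 2), 0, 1, 2), ((1, 0, 2), 1, 0, 2), ((2, 0, 1), 2, 0, 1), ((2, 0, 3), 2, 0, 6),
    ((2, 0, 8), 2, 0, 4), ((2, 1, 3), 2, 1, 6), ((2, 1, 8), 2, 1, 4), ((2, 3, 8), 2, 6, 4),
    ((3, 2, 4), 6, 2, 1), ((4, 3, 5), 1, 6, 5), ((5, 4, 6), 5, 1, 3), ((6, 5, 9), 3, 5, 7),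
    ((7, 8, 9), 0, 4, 7), ((8, 2, 7), 4, 2, 0), ((9, 6, 7), 7, 3, 0)]
  Tc := [(0, 3, 5)]
  Td := [((0, 3), (0, 1), 1), ((0, 3), (0, 2), 2), ((0, 3), (7, 8), 4), ((0, 3), (7, 9), 7), ((0,
    5), (0, 1), 1), ((0, 5), (0, 2), 2), ((0, 5), (7, 8), 4), ((0, 5), (7, 9), 7), ((3, 0),
    (6, 5), 5), ((3, 0), (6, 9), 7), ((5, 0), (5, 4), 1), ((5, 0), (5, 6), 3)]
  G := [[0, 0x41414141c81c1a181c1a1cc2, 0x4141412161c8121a18181cc1,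
    0x41414111cd61c8111cda18181cc2, 0x1a9418883125a11188121a99c21216212162169a6ce185], [0, 0,
    0x21212121c8141c18141c1ca1, 0, 0x1a3125611821a614216aa1216d91134416189811138818994c], [0,
    0, 0, 0x41c985e614485e218c49c41811c8118c81cca,
    0x21981614451892418431128e229ea121229a18a822c181eab9c211e4188e], [0, 0, 0, 0,
    0x181b11662a1e219e651218e418a128e221ea1111711aa118e8994c]]

noncomputable def n1720 : Ent := ⟨e1720, noF, [], [], []⟩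

def c1720 : PLift (Cov.check n1720.C.D v1720 = true) := ⟨by decide +kernel⟩

def b1720 : PLift (entF (fidx ts) 400 1720 n1720 = true) := ⟨by decide +kernel⟩

theorem g1720 : GoodF (fidx ts) 400 1720 := GoodF.ofV v1720 n1720 c1720.down b1720.down

/-- 4576944:1457 -/
noncomputable def e1721 : SCfg where
  D := {
    a := 7
    L := 11
    kp := 8
    inn := [(0, 1), (0, 2), (0, 3), (0, 4), (1, 0), (1, 2), (1, 4), (2, 0), (2, 1), (2, 3), (3, 0), (3,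
      2), (3, 4), (4, 0), (4, 1), (4, 3), (4, 5), (4, 6), (5, 4), (6, 4)]
    mix := [(1, 0), (1, 1), (2, 1), (2, 2), (2, 3), (2, 4), (3, 4), (3, 5), (3, 6), (4, 0), (4, 6), (4,
      7), (4, 8), (5, 6), (5, 7), (5, 9), (6, 0), (6, 8), (6, 10)]
    cl := [0, 1, 5, 6, 1, 4, 3, 0, 2, 7, 8]
    chq := [(0, 3), (0, 4), (3, 0), (4, 0)]
    rng := [(0, 1), (0, 10), (1, 0), (1, 2), (2, 1), (2, 3), (3, 2), (3, 4), (4, 3), (4, 5), (5, 4),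
      (5, 6), (6, 5), (6, 9), (7, 8), (7, 9), (8, 7), (8, 10), (9, 6), (9, 7), (10, 0), (10, 8)]
    lev := [] }
  links := [[1, 2, 3, 4], [2, 0, 4, 7, 8], [3, 0, 1, 8, 9, 10, 11], [4, 0, 2, 11, 12, 13], [7, 1, 0, 3,
    13, 5, 14, 15, 6], [14, 4, 13, 16], [7, 4, 15, 17]]
  P := {
    a := 7
    N := 18
    nb := [30, 405, 3851, 14357, 57579, 90128, 163984, 131410, 646, 1284, 2564, 5132, 10248, 69688,
      98352, 147536, 24608, 32960]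
    tri := [(0, 1, 2), (0, 1, 4), (0, 2, 3), (0, 3, 4), (1, 2, 8), (1, 4, 7), (1, 7, 8), (2, 3, 11),
      (2, 8, 9), (2, 9, 10), (2, 10, 11), (3, 4, 13), (3, 11, 12), (3, 12, 13), (4, 5, 13), (4, 5,
      14), (4, 6, 7), (4, 6, 15), (4, 14, 15), (5, 13, 16), (5, 14, 16), (6, 7, 17), (6, 15, 17)]
    fin := [0, 0, 2, 0, 0, 0, 0, 0, 2, 9, 10, 2, 12, 13, 0, 15, 16, 17]
    chd := [(0, 12), (0, 13)]
    steps := [(0, 1), (0, 3), (0, 4), (0, 5), (0, 6), (0, 7), (0, 14), (2, 8), (2, 11)] }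
  rep := [0, 2, 15, 13, 12, 9, 10, 16, 17]

noncomputable def v1721 : Cov.CovD where
  P := 3
  N := 6
  pl := [2, 3, 8, 9, 10]
  lev := [⟨[], [], [], [], []⟩,
    ⟨[], [(0, 0), (0, 1)], [(0, 1)], [], [(0, 0, [3, 4]), (1, 1, [])]⟩,
    ⟨[(0, 1)], [(0, 1), (1, 0), (1, 1)], [(1, 1)], [5, 6], [(1, 1, []), (4, 1, [])]⟩,
    ⟨[(0, 1), (0, 2), (1, 2)], [(0, 1), (0, 3), (0, 4), (2, 1), (2, 3), (2, 4)], [(1, 3),
      (1, 4), (3, 4)], [], [(4, 1, []), (5, 4, [0]), (6, 3, [0])]⟩,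
    ⟨[(0, 1), (0, 2), (0, 3), (1, 2), (1, 3), (2, 3)], [(0, 0), (0, 3), (1, 0), (1, 1), (1,
      3), (3, 0), (3, 1), (3, 3), (3, 4)], [(0, 0), (0, 3)], [2], [(0, 0, [3, 4]), (6, 3,
      [0]), (7, 0, [3, 4])]⟩,
    ⟨[(0, 4), (1, 4), (3, 4)], [(3, 3), (4, 0), (4, 3)], [(0, 3)], [7], [(6, 3, [0]), (7,
      0, [3, 4])]⟩,
    ⟨[(0, 4), (1, 4), (3, 4), (4, 5)], [(1, 0), (4, 0), (4, 3)], [], [2, 8], [(0, 0, [3,
      4])]⟩]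
  Ta := [((0, 1), 0, 1), ((0, 10), 0, 8), ((1, 0), 1, 0), ((1, 2), 1, 5), ((4, 3), 1, 6), ((4,
    5), 1, 4), ((7, 8), 0, 2), ((7, 9), 0, 7)]
  Tb := [((0, 1, 10), 0, 1, 8), ((1, 0, 2), 1, 0, 5), ((2, 1, 3), 5, 1, 6), ((3, 2, 4), 6, 5, 1),
    ((4, 3, 5), 1, 6, 4), ((5, 4, 6), 4, 1, 3), ((6, 5, 9), 3, 4, 7), ((7, 8, 9), 0, 2, 7),
    ((8, 7, 10), 2, 0, 8), ((9, 6, 7), 7, 3, 0), ((10, 0, 8), 8, 0, 2)]
  Tc := [(0, 3, 4)]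
  Td := [((0, 3), (0, 1), 1), ((0, 3), (0, 10), 8), ((0, 3), (7, 8), 2), ((0, 3), (7, 9), 7),
    ((0, 4), (0, 1), 1), ((0, 4), (0, 10), 8), ((0, 4), (7, 8), 2), ((0, 4), (7, 9), 7), ((3,
    0), (6, 5), 4), ((3, 0), (6, 9), 7), ((4, 0), (5, 4), 1), ((4, 0), (5, 6), 3)]
  G := [[0, 0x81412414126c1812c1c1c1c1c1c1c6a, 0, 0x118b82141c54152c1c111441c1c5d1c98158981cc6,
    0x21a1a7a11111a45a1a927a111a8a1a1a39c8181446], [0, 0, 0,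
    0x11c741c141111b4c145d2c1811ccb8111178c189d2c,
    0xa1211162451a51a3a111178a1a1a9911ad814e4], [0, 0, 0xaaccca611866aa66c166aa66c1c1a,
    0x11642181164111641c11a8111a81118111e89dca,
    0x116214411c116a111a811c116a39411c811111a454e], [0, 0, 0x66ccc6a16cccc6a196ac6c6a1454,
    0x111b41164511164111641ca11a8111a8111318c11a89d2c,
    0x14116a111624511c116a11117811c116a9918814e4]]

noncomputable def n1721 : Ent := ⟨e1721, noF, [], [], [(9, 17, [6903326391201334775872065844685381424292761054348340378595029936734209, 0])]⟩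

def c1721 : PLift (Cov.check n1721.C.D v1721 = true) := ⟨by decide +kernel⟩

def b1721 : PLift (entF (fidx ts) 400 1721 n1721 = true) := ⟨by decide +kernel⟩

theorem g1721 : GoodF (fidx ts) 400 1721 := GoodF.ofV v1721 n1721 c1721.down b1721.down

/-- 4576945:1458/2 -/
noncomputable def e1722 : SCfg where
  D := {
    a := 7
    L := 9
    kp := 6
    inn := [(0, 1), (0, 2), (0, 3), (0, 4), (1, 0), (1, 2), (1, 4), (2, 0), (2, 1), (2, 3), (3, 0), (3,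
      2), (3, 4), (4, 0), (4, 1), (4, 3), (4, 5), (4, 6), (5, 4), (5, 6), (6, 4), (6, 5)]
    mix := [(1, 0), (1, 1), (2, 1), (2, 2), (2, 3), (2, 4), (3, 4), (3, 5), (3, 6), (4, 0), (4, 6), (4,
      7), (4, 8), (5, 2), (5, 7), (6, 2), (6, 3), (6, 8)]
    cl := [0, 1, 3, 4, 1, 6, 0, 2, 5]
    chq := [(0, 3), (0, 4), (3, 0), (4, 0)]
    rng := [(0, 1), (0, 8), (1, 0), (1, 2), (2, 1), (2, 3), (2, 7), (3, 2), (3, 4), (3, 8), (4, 3), (4,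
      5), (5, 4), (5, 6), (6, 5), (6, 7), (7, 2), (7, 6), (8, 0), (8, 3)]
    lev := [] }
  links := [[1, 2, 3, 4], [2, 0, 4, 7, 8], [3, 0, 1, 8, 9, 10, 11], [4, 0, 2, 11, 12, 13], [7, 1, 0, 3,
    13, 14, 5, 6, 15], [6, 4, 14, 9], [15, 4, 5, 9, 10]]
  P := {
    a := 7
    N := 16
    nb := [30, 405, 3851, 14357, 57579, 16976, 34352, 33042, 646, 17764, 35396, 5132, 10248, 20504,
      8752, 1232]
    tri := [(0, 1, 2), (0, 1, 4), (0, 2, 3), (0, 3, 4), (1, 2, 8), (1, 4, 7), (1, 7, 8), (2, 3, 11),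
      (2, 8, 9), (2, 9, 10), (2, 10, 11), (3, 4, 13), (3, 11, 12), (3, 12, 13), (4, 5, 6), (4, 5,
      14), (4, 6, 15), (4, 7, 15), (4, 13, 14), (5, 6, 9), (5, 9, 14), (6, 9, 10), (6, 10, 15)]
    fin := [0, 0, 2, 0, 0, 0, 0, 0, 2, 9, 10, 2, 12, 0, 14, 15]
    chd := [(0, 9), (0, 10)]
    steps := [(0, 1), (0, 3), (0, 4), (0, 5), (0, 6), (0, 7), (0, 13), (2, 8), (2, 11)] }
  rep := [0, 2, 14, 9, 10, 15, 12]

noncomputable def v1722 : Cov.CovD where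
  P := 3
  N := 4
  pl := [5, 7, 8]
  lev := [⟨[], [], [], [], []⟩,
    ⟨[], [(0, 0), (0, 1)], [(0, 1)], [], [(0, 0, [3, 4]), (1, 1, [])]⟩,
    ⟨[(0, 1)], [(0, 1), (0, 3), (0, 4), (1, 0), (1, 1), (1, 3), (1, 4)], [(1, 1), (1, 3),
      (1, 4), (3, 4)], [], [(1, 1, []), (2, 3, [0]), (3, 4, [0]), (4, 1, [])]⟩,
    ⟨[(0, 1), (0, 2), (1, 2)], [(0, 0), (0, 1), (2, 0), (2, 1), (2, 3), (2, 4)], [(0, 1)],
      [6], [(4, 1, []), (6, 0, [3, 4])]⟩,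
    ⟨[(0, 1), (0, 2), (0, 3), (1, 2), (1, 3), (2, 3)], [(0, 0), (1, 0), (1, 1), (3, 0), (3,
      1)], [(0, 0)], [2, 5], [(0, 0, [3, 4]), (6, 0, [3, 4])]⟩,
    ⟨[(0, 4), (1, 4), (3, 4)], [(2, 3), (4, 0), (4, 3)], [], [2], [(2, 3, [0])]⟩,
    ⟨[(0, 4), (1, 4), (3, 4), (4, 5)], [(2, 3), (2, 4), (4, 0), (4, 3), (4, 4), (5, 3), (5,
      4)], [(3, 4)], [5], [(2, 3, [0]), (3, 4, [0])]⟩]
  Ta := [((0, 1), 0, 1), ((0, 8), 0, 5), ((1, 0), 1, 0), ((1, 2), 1, 3), ((4, 3), 1, 4), ((4, 5),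
    1, 6), ((6, 5), 0, 6), ((6, 7), 0, 2)]
  Tb := [((0, 1, 8), 0, 1, 5), ((1, 0, 2), 1, 0, 3), ((2, 1, 3), 3, 1, 4), ((2, 1, 7), 3, 1, 2),
    ((2, 3, 7), 3, 4, 2), ((3, 2, 4), 4, 3, 1), ((3, 2, 8), 4, 3, 5), ((3, 4, 8), 4, 1, 5),
    ((4, 3, 5), 1, 4, 6), ((5, 4, 6), 6, 1, 0), ((6, 5, 7), 0, 6, 2), ((7, 2, 6), 2, 3, 0),
    ((8, 0, 3), 5, 0, 4)]
  Tc := [(0, 3, 4)]
  Td := [((0, 3), (0, 1), 1), ((0, 3), (0, 8), 5), ((0, 3), (6, 5), 6), ((0, 3), (6, 7), 2), ((0,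
    4), (0, 1), 1), ((0, 4), (0, 8), 5), ((0, 4), (6, 5), 6), ((0, 4), (6, 7), 2), ((3, 0),
    (2, 1), 1), ((3, 0), (2, 3), 4), ((3, 0), (2, 7), 2), ((4, 0), (3, 2), 3), ((4, 0), (3,
    4), 1), ((4, 0), (3, 8), 5)]
  G := [[0, 0x1141181818ce14881111c118ce21141414ca1144686, 0, 0x635a29c2148,
    0x212e938a14182141211124d46], [0, 0, 0, 0x98411441c123511c4d23521c81c2,
    0x1242a11221a458118a13212a89c4], [0, 0, 0x11612ac2184, 0x635a29c2184,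
    0x639263924138e14188184c], [0, 0, 0x121261212ac148, 0x8181215889441412194215219cc586,
    0x1221522413239ac9818112881288da4]]

noncomputable def n1722 : Ent := ⟨e1722, noF, [], [], []⟩

def c1722 : PLift (Cov.check n1722.C.D v1722 = true) := ⟨by decide +kernel⟩

def b1722 : PLift (entF (fidx ts) 400 1722 n1722 = true) := ⟨by decide +kernel⟩

theorem g1722 : GoodF (fidx ts) 400 1722 := GoodF.ofV v1722 n1722 c1722.down b1722.down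

/-- 4576945:1458/1 -/
noncomputable def e1723 : SCfg where
  D := {
    a := 7
    L := 10
    kp := 7
    inn := [(0, 1), (0, 2), (0, 3), (0, 4), (1, 0), (1, 2), (1, 4), (2, 0), (2, 1), (2, 3), (3, 0), (3,
      2), (3, 4), (4, 0), (4, 1), (4, 3), (4, 5), (4, 6), (5, 4), (5, 6), (6, 4), (6, 5)]
    mix := [(1, 0), (1, 1), (2, 1), (2, 2), (2, 3), (2, 4), (3, 4), (3, 5), (3, 6), (4, 0), (4, 6), (4,
      7), (4, 8), (5, 2), (5, 7), (6, 2), (6, 8), (6, 9)]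
    cl := [1, 3, 4, 6, 3, 5, 0, 2, 0, 7]
    chq := [(0, 4), (1, 5), (4, 0), (5, 1)]
    rng := [(0, 1), (0, 8), (1, 0), (1, 2), (2, 1), (2, 3), (2, 7), (2, 9), (3, 2), (3, 4), (4, 3), (4,
      5), (5, 4), (5, 6), (6, 5), (6, 7), (7, 2), (7, 6), (8, 0), (8, 9), (9, 2), (9, 8)]
    lev := [] }
  links := [[1, 2, 3, 4], [2, 0, 4, 7, 8], [3, 0, 1, 8, 9, 10, 11], [4, 0, 2, 11, 12, 13], [7, 1, 0, 3,
    13, 14, 5, 6, 15], [6, 4, 14, 9], [15, 4, 5, 9, 16]]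
  P := {
    a := 7
    N := 17
    nb := [30, 405, 3851, 14357, 57579, 16976, 98864, 33042, 646, 83300, 2564, 5132, 10248, 20504,
      8752, 65744, 33344]
    tri := [(0, 1, 2), (0, 1, 4), (0, 2, 3), (0, 3, 4), (1, 2, 8), (1, 4, 7), (1, 7, 8), (2, 3, 11),
      (2, 8, 9), (2, 9, 10), (2, 10, 11), (3, 4, 13), (3, 11, 12), (3, 12, 13), (4, 5, 6), (4, 5,
      14), (4, 6, 15), (4, 7, 15), (4, 13, 14), (5, 6, 9), (5, 9, 14), (6, 9, 16), (6, 15, 16)]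
    fin := [0, 0, 2, 0, 4, 5, 5, 0, 2, 5, 10, 2, 12, 4, 14, 4, 16]
    chd := [(0, 12), (5, 4)]
    steps := [(0, 1), (0, 3), (0, 7), (2, 8), (2, 11), (4, 13), (4, 15), (5, 6), (5, 9)] }
  rep := [4, 0, 14, 2, 5, 12, 10, 16]

noncomputable def v1723 : Cov.CovD where
  P := 3
  N := 5
  pl := [3, 7, 9]
  lev := [⟨[], [], [], [], []⟩,
    ⟨[], [(0, 1), (0, 3)], [(1, 3)], [], [(0, 1, [5]), (1, 3, [])]⟩,
    ⟨[(0, 1)], [(0, 3), (0, 4), (1, 1), (1, 3), (1, 4)], [(3, 3), (3, 4)], [6], [(1, 3,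
      []), (2, 4, [0]), (4, 3, [])]⟩,
    ⟨[(0, 1), (0, 2), (1, 2)], [(0, 0), (0, 3), (0, 5), (2, 0), (2, 3), (2, 4), (2, 5)],
      [(0, 3), (0, 5), (3, 5)], [], [(4, 3, []), (5, 5, [1]), (6, 0, [4])]⟩,
    ⟨[(0, 1), (0, 2), (0, 3), (1, 2), (1, 3), (2, 3)], [(0, 0), (0, 1), (1, 0), (1, 1), (1,
      3), (3, 0), (3, 1), (3, 3), (3, 5)], [(0, 0), (0, 1)], [2], [(0, 1, [5]), (6, 0, [4]),
      (8, 0, [4])]⟩,
    ⟨[(0, 4), (1, 4), (3, 4)], [(2, 4), (4, 0), (4, 1), (4, 4)], [], [2], [(2, 4, [0])]⟩,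
    ⟨[(0, 4), (1, 4), (3, 4), (4, 5)], [(2, 4), (4, 0), (4, 1), (4, 4), (5, 0), (5, 4)],
      [(0, 4)], [7], [(2, 4, [0]), (8, 0, [4])]⟩]
  Ta := [((1, 0), 3, 1), ((1, 2), 3, 4), ((4, 3), 3, 6), ((4, 5), 3, 5), ((6, 5), 0, 5), ((6, 7),
    0, 2), ((8, 0), 0, 1), ((8, 9), 0, 7)]
  Tb := [((0, 1, 8), 1, 3, 0), ((1, 0, 2), 3, 1, 4), ((2, 1, 3), 4, 3, 6), ((2, 1, 7), 4, 3, 2),
    ((2, 1, 9), 4, 3, 7), ((2, 3, 7), 4, 6, 2), ((2, 3, 9), 4, 6, 7), ((2, 7, 9), 4, 2, 7),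
    ((3, 2, 4), 6, 4, 3), ((4, 3, 5), 3, 6, 5), ((5, 4, 6), 5, 3, 0), ((6, 5, 7), 0, 5, 2),
    ((7, 2, 6), 2, 4, 0), ((8, 0, 9), 0, 1, 7), ((9, 2, 8), 7, 4, 0)]
  Tc := []
  Td := [((0, 4), (6, 5), 5), ((0, 4), (6, 7), 2), ((0, 4), (8, 0), 1), ((0, 4), (8, 9), 7), ((1,
    5), (0, 1), 3), ((1, 5), (0, 8), 0), ((4, 0), (2, 1), 3), ((4, 0), (2, 3), 6), ((4, 0),
    (2, 7), 2), ((4, 0), (2, 9), 7), ((5, 1), (5, 4), 3), ((5, 1), (5, 6), 0)]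
  G := [[0, 0, 0x116821118421284a148212486c9, 0x1418c211d842618c146ae182829486c9,
    0xc18211a8291188216a82128d286e6184255], [0, 0, 0x18421442142124124e11a42f81,
    0x148272588c2541842144a14e14ea89, 0x7882e182618a28b28e11a82f41], [0,
    0xa8416181c2941a1c12ae18144881e148966, 0, 0xe18211e142618c146ae482a1486c5,
    0xc1816181e182b1e182e1826281ae28ae45], [0, 0xe841e141e141e146188c6188cef28, 0,
    0xe182e482618a18e18e4a582f41, 0xe182e182628a28e18ee182f14]]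

noncomputable def n1723 : Ent := ⟨e1723, noF, [], [], [(10, 16, [1580044410770988437309982408355971841652082177953823432505696165889, 0])]⟩

def c1723 : PLift (Cov.check n1723.C.D v1723 = true) := ⟨by decide +kernel⟩

def b1723 : PLift (entF (fidx ts) 400 1723 n1723 = true) := ⟨by decide +kernel⟩

theorem g1723 : GoodF (fidx ts) 400 1723 := GoodF.ofV v1723 n1723 c1723.down b1723.down

/-- 4576945:1458/4 -/
noncomputable def e1724 : SCfg where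
  D := {
    a := 7
    L := 9
    kp := 6
    inn := [(0, 1), (0, 2), (0, 3), (0, 4), (1, 0), (1, 2), (1, 4), (2, 0), (2, 1), (2, 3), (3, 0), (3,
      2), (3, 4), (4, 0), (4, 1), (4, 3), (4, 5), (4, 6), (5, 4), (5, 6), (6, 4), (6, 5)]
    mix := [(1, 0), (1, 1), (2, 1), (2, 2), (2, 3), (2, 4), (3, 4), (3, 5), (3, 6), (4, 0), (4, 6), (4,
      7), (4, 8), (5, 3), (5, 7), (6, 2), (6, 3), (6, 8)]
    cl := [2, 0, 4, 1, 0, 6, 3, 5, 3]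
    chq := [(2, 6), (4, 5), (5, 4), (6, 2)]
    rng := [(0, 1), (0, 8), (1, 0), (1, 2), (2, 1), (2, 3), (2, 8), (3, 2), (3, 4), (3, 7), (4, 3), (4,
      5), (5, 4), (5, 6), (6, 5), (6, 7), (7, 3), (7, 6), (8, 0), (8, 2)]
    lev := [] }
  links := [[1, 2, 3, 4], [2, 0, 4, 7, 8], [3, 0, 1, 8, 9, 10, 11], [4, 0, 2, 11, 12, 13], [7, 1, 0, 3,
    13, 14, 5, 6, 15], [6, 4, 14, 10], [15, 4, 5, 10, 9]]
  P := {
    a := 7
    N := 16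
    nb := [30, 405, 3851, 14357, 57579, 17488, 34352, 33042, 646, 34116, 19044, 5132, 10248, 20504,
      9264, 720]
    tri := [(0, 1, 2), (0, 1, 4), (0, 2, 3), (0, 3, 4), (1, 2, 8), (1, 4, 7), (1, 7, 8), (2, 3, 11),
      (2, 8, 9), (2, 9, 10), (2, 10, 11), (3, 4, 13), (3, 11, 12), (3, 12, 13), (4, 5, 6), (4, 5,
      14), (4, 6, 15), (4, 7, 15), (4, 13, 14), (5, 6, 10), (5, 10, 14), (6, 9, 10), (6, 9, 15)]
    fin := [0, 0, 2, 0, 4, 5, 5, 0, 2, 5, 10, 2, 12, 4, 14, 4]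
    chd := [(0, 12), (5, 14)]
    steps := [(0, 1), (0, 3), (0, 7), (2, 8), (2, 11), (4, 13), (4, 15), (5, 6), (5, 9)] }
  rep := [2, 10, 0, 4, 5, 14, 12]

noncomputable def v1724 : Cov.CovD where
  P := 3
  N := 4
  pl := [3]
  lev := [⟨[], [], [], [], []⟩,
    ⟨[], [(0, 0), (0, 2)], [(0, 2)], [], [(0, 2, [6]), (1, 0, [])]⟩,
    ⟨[(0, 1)], [(0, 0), (0, 4), (1, 0), (1, 2), (1, 4)], [(0, 0), (0, 4)], [1], [(1, 0,
      []), (2, 4, [5]), (4, 0, [])]⟩,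
    ⟨[(0, 1), (0, 2), (1, 2)], [(0, 0), (0, 3), (0, 6), (2, 0), (2, 3), (2, 4), (2, 6)],
      [(0, 3), (0, 6), (3, 6)], [], [(4, 0, []), (5, 6, [2]), (6, 3, [])]⟩,
    ⟨[(0, 1), (0, 2), (0, 3), (1, 2), (1, 3), (2, 3)], [(0, 2), (0, 3), (0, 5), (1, 0), (1,
      2), (1, 3), (1, 5), (3, 0), (3, 2), (3, 3), (3, 5), (3, 6)], [(2, 3), (2, 5), (3, 3),
      (3, 5)], [], [(0, 2, [6]), (6, 3, []), (7, 5, [4]), (8, 3, [])]⟩,
    ⟨[(0, 4), (1, 4), (3, 4)], [(4, 2), (4, 3), (4, 5)], [], [1], [(7, 5, [4])]⟩,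
    ⟨[(0, 4), (1, 4), (3, 4), (4, 5)], [(2, 4), (4, 2), (4, 3), (4, 4), (4, 5), (5, 3), (5,
      4), (5, 5)], [(3, 4)], [1], [(2, 4, [5]), (8, 3, [])]⟩]
  Ta := [((1, 0), 0, 2), ((1, 2), 0, 4), ((4, 3), 0, 1), ((4, 5), 0, 6), ((6, 5), 3, 6), ((6, 7),
    3, 5), ((8, 0), 3, 2), ((8, 2), 3, 4)]
  Tb := [((0, 1, 8), 2, 0, 3), ((1, 0, 2), 0, 2, 4), ((2, 1, 3), 4, 0, 1), ((2, 1, 8), 4, 0, 3),
    ((2, 3, 8), 4, 1, 3), ((3, 2, 4), 1, 4, 0), ((3, 2, 7), 1, 4, 5), ((3, 4, 7), 1, 0, 5),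
    ((4, 3, 5), 0, 1, 6), ((5, 4, 6), 6, 0, 3), ((6, 5, 7), 3, 6, 5), ((7, 3, 6), 5, 1, 3),
    ((8, 0, 2), 3, 2, 4)]
  Tc := []
  Td := [((2, 6), (0, 1), 0), ((2, 6), (0, 8), 3), ((4, 5), (2, 1), 0), ((4, 5), (2, 3), 1), ((4,
    5), (2, 8), 3), ((5, 4), (7, 3), 1), ((5, 4), (7, 6), 3), ((6, 2), (5, 4), 0), ((6, 2),
    (5, 6), 3)]
  G := [[0, 0, 0x8121414411881ca2, 0x1818948cd24882c41, 0x148448cb41458488cc21], [0, 0,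
    0x48484841114e11818a1cc2, 0x18984521454848d2c14828c1,
    0x94244828c1c91459444489488188dca2], [0, 0x28c4252842a824c1, 0, 0x11c824188548c52885,
    0x1414584b41458488cc21], [0, 0x2428ac2d2684892c41, 0, 0x9484529842c14821454892cc1,
    0x941434888484115848b418548ec23]]

noncomputable def n1724 : Ent := ⟨e1724, noF, [], [], []⟩

def c1724 : PLift (Cov.check n1724.C.D v1724 = true) := ⟨by decide +kernel⟩

def b1724 : PLift (entF (fidx ts) 400 1724 n1724 = true) := ⟨by decide +kernel⟩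

theorem g1724 : GoodF (fidx ts) 400 1724 := GoodF.ofV v1724 n1724 c1724.down b1724.down

/-- 4576945:1458/3 -/
noncomputable def e1725 : SCfg where
  D := {
    a := 7
    L := 10
    kp := 7
    inn := [(0, 1), (0, 2), (0, 3), (0, 4), (1, 0), (1, 2), (1, 4), (2, 0), (2, 1), (2, 3), (3, 0), (3,
      2), (3, 4), (4, 0), (4, 1), (4, 3), (4, 5), (4, 6), (5, 4), (5, 6), (6, 4), (6, 5)]
    mix := [(1, 0), (1, 1), (2, 1), (2, 2), (2, 3), (2, 4), (3, 4), (3, 5), (3, 6), (4, 0), (4, 6), (4,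
      7), (4, 8), (5, 7), (5, 9), (6, 2), (6, 8), (6, 9)]
    cl := [1, 0, 2, 7, 0, 6, 3, 4, 3, 5]
    chq := [(1, 6), (2, 4), (4, 2), (6, 1)]
    rng := [(0, 1), (0, 8), (1, 0), (1, 2), (2, 1), (2, 3), (2, 8), (2, 9), (3, 2), (3, 4), (4, 3), (4,
      5), (5, 4), (5, 6), (6, 5), (6, 7), (7, 6), (7, 9), (8, 0), (8, 2), (9, 2), (9, 7)]
    lev := [] }
  links := [[1, 2, 3, 4], [2, 0, 4, 7, 8], [3, 0, 1, 8, 9, 10, 11], [4, 0, 2, 11, 12, 13], [7, 1, 0, 3,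
    13, 14, 5, 6, 15], [6, 4, 14, 16], [15, 4, 5, 16, 9]]
  P := {
    a := 7
    N := 17
    nb := [30, 405, 3851, 14357, 57579, 82000, 98864, 33042, 646, 99652, 2564, 5132, 10248, 20504,
      73776, 720, 16992]
    tri := [(0, 1, 2), (0, 1, 4), (0, 2, 3), (0, 3, 4), (1, 2, 8), (1, 4, 7), (1, 7, 8), (2, 3, 11),
      (2, 8, 9), (2, 9, 10), (2, 10, 11), (3, 4, 13), (3, 11, 12), (3, 12, 13), (4, 5, 6), (4, 5,
      14), (4, 6, 15), (4, 7, 15), (4, 13, 14), (5, 6, 16), (5, 14, 16), (6, 9, 15), (6, 9, 16)]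
    fin := [0, 0, 2, 0, 4, 5, 5, 0, 2, 5, 10, 2, 12, 4, 14, 4, 16]
    chd := [(0, 12), (5, 14)]
    steps := [(0, 1), (0, 3), (0, 7), (2, 8), (2, 11), (4, 13), (4, 15), (5, 6), (5, 9)] }
  rep := [2, 0, 5, 4, 14, 16, 12, 10]

noncomputable def v1725 : Cov.CovD where
  P := 3
  N := 5
  pl := [3, 9]
  lev := [⟨[], [], [], [], []⟩,
    ⟨[], [(0, 0), (0, 1)], [(0, 1)], [], [(0, 1, [6]), (1, 0, [])]⟩,
    ⟨[(0, 1)], [(0, 0), (0, 2), (1, 0), (1, 1), (1, 2)], [(0, 0), (0, 2)], [7], [(1, 0,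
      []), (2, 2, [4]), (4, 0, [])]⟩,
    ⟨[(0, 1), (0, 2), (1, 2)], [(0, 0), (0, 3), (0, 6), (2, 0), (2, 2), (2, 3), (2, 6)],
      [(0, 3), (0, 6), (3, 6)], [], [(4, 0, []), (5, 6, [1]), (6, 3, [])]⟩,
    ⟨[(0, 1), (0, 2), (0, 3), (1, 2), (1, 3), (2, 3)], [(0, 1), (0, 3), (0, 4), (1, 0), (1,
      1), (1, 3), (1, 4), (3, 0), (3, 1), (3, 3), (3, 4), (3, 6)], [(1, 3), (1, 4), (3, 3),
      (3, 4)], [], [(0, 1, [6]), (6, 3, []), (7, 4, [2]), (8, 3, [])]⟩,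
    ⟨[(0, 4), (1, 4), (3, 4)], [(4, 1), (4, 3), (4, 4)], [], [5], [(7, 4, [2])]⟩,
    ⟨[(0, 4), (1, 4), (3, 4), (4, 5)], [(2, 2), (4, 1), (4, 2), (4, 3), (4, 4), (5, 2), (5,
      3), (5, 4)], [(2, 3)], [5], [(2, 2, [4]), (8, 3, [])]⟩]
  Ta := [((1, 0), 0, 1), ((1, 2), 0, 2), ((4, 3), 0, 7), ((4, 5), 0, 6), ((6, 5), 3, 6), ((6, 7),
    3, 4), ((8, 0), 3, 1), ((8, 2), 3, 2)]
  Tb := [((0, 1, 8), 1, 0, 3), ((1, 0, 2), 0, 1, 2), ((2, 1, 3), 2, 0, 7), ((2, 1, 8), 2, 0, 3),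
    ((2, 1, 9), 2, 0, 5), ((2, 3, 8), 2, 7, 3), ((2, 3, 9), 2, 7, 5), ((2, 8, 9), 2, 3, 5),
    ((3, 2, 4), 7, 2, 0), ((4, 3, 5), 0, 7, 6), ((5, 4, 6), 6, 0, 3), ((6, 5, 7), 3, 6, 4),
    ((7, 6, 9), 4, 3, 5), ((8, 0, 2), 3, 1, 2), ((9, 2, 7), 5, 2, 4)]
  Tc := []
  Td := [((1, 6), (0, 1), 0), ((1, 6), (0, 8), 3), ((2, 4), (2, 1), 0), ((2, 4), (2, 3), 7), ((2,
    4), (2, 8), 3), ((2, 4), (2, 9), 5), ((4, 2), (7, 6), 3), ((4, 2), (7, 9), 5), ((6, 1),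
    (5, 4), 0), ((6, 1), (5, 6), 3)]
  G := [[0, 0x541b214c1b21c48, 0x61126112c48, 0x844281642c14a1248ced214a48ce92cc1,
    0x192e42329946928746a81], [0, 0x521c1b614481d218c9292c19281c4a, 0xe112e112c48,
    0x1451d479241847dc3928c148b4218ce42c82824c5, 0x1b8d42a93d48b34ca3482692a16a494ac1], [0,
    0, 0, 0x186483524843128c14a198bc214a82c49, 0x1a2e42329946312e46a81], [0, 0, 0,
    0x1c4b498b524481e128148b428d48de82894782c49, 0x9a3e43834c2b4138b4acd2b4a494ac1]]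

noncomputable def n1725 : Ent := ⟨e1725, noF, [], [], [(10, 16, [1580044410770988437309982408355971841652082177953823432505696174081, 0])]⟩

def c1725 : PLift (Cov.check n1725.C.D v1725 = true) := ⟨by decide +kernel⟩

def b1725 : PLift (entF (fidx ts) 400 1725 n1725 = true) := ⟨by decide +kernel⟩

theorem g1725 : GoodF (fidx ts) 400 1725 := GoodF.ofV v1725 n1725 c1725.down b1725.down

/-- 4576945:1458/5 -/
noncomputable def e1726 : SCfg where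
  D := {
    a := 7
    L := 10
    kp := 7
    inn := [(0, 1), (0, 2), (0, 3), (0, 4), (1, 0), (1, 2), (1, 4), (2, 0), (2, 1), (2, 3), (3, 0), (3,
      2), (3, 4), (4, 0), (4, 1), (4, 3), (4, 5), (4, 6), (5, 4), (5, 6), (6, 4), (6, 5)]
    mix := [(1, 0), (1, 1), (2, 1), (2, 2), (2, 3), (2, 4), (3, 4), (3, 5), (3, 6), (4, 0), (4, 6), (4,
      7), (4, 8), (5, 3), (5, 7), (6, 3), (6, 8), (6, 9)]
    cl := [2, 0, 6, 1, 0, 5, 3, 4, 3, 7]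
    chq := [(1, 3), (2, 5), (3, 1), (5, 2)]
    rng := [(0, 1), (0, 8), (1, 0), (1, 2), (2, 1), (2, 3), (3, 2), (3, 4), (3, 7), (3, 9), (4, 3), (4,
      5), (5, 4), (5, 6), (6, 5), (6, 7), (7, 3), (7, 6), (8, 0), (8, 9), (9, 3), (9, 8)]
    lev := [] }
  links := [[1, 2, 3, 4], [2, 0, 4, 7, 8], [3, 0, 1, 8, 9, 10, 11], [4, 0, 2, 11, 12, 13], [7, 1, 0, 3,
    13, 14, 5, 6, 15], [6, 4, 14, 10], [15, 4, 5, 10, 16]]
  P := {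
    a := 7
    N := 17
    nb := [30, 405, 3851, 14357, 57579, 17488, 99376, 33042, 646, 1284, 84580, 5132, 10248, 20504,
      9264, 65744, 33856]
    tri := [(0, 1, 2), (0, 1, 4), (0, 2, 3), (0, 3, 4), (1, 2, 8), (1, 4, 7), (1, 7, 8), (2, 3, 11),
      (2, 8, 9), (2, 9, 10), (2, 10, 11), (3, 4, 13), (3, 11, 12), (3, 12, 13), (4, 5, 6), (4, 5,
      14), (4, 6, 15), (4, 7, 15), (4, 13, 14), (5, 6, 10), (5, 10, 14), (6, 10, 16), (6, 15, 16)]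
    fin := [0, 0, 2, 0, 4, 5, 5, 0, 2, 9, 5, 2, 12, 4, 14, 4, 16]
    chd := [(0, 12), (5, 4)]
    steps := [(0, 1), (0, 3), (0, 7), (2, 8), (2, 11), (4, 13), (4, 15), (5, 6), (5, 10)] }
  rep := [2, 5, 0, 4, 14, 12, 9, 16]

noncomputable def v1726 : Cov.CovD where
  P := 3
  N := 5
  pl := [2, 7, 9]
  lev := [⟨[], [], [], [], []⟩,
    ⟨[], [(0, 0), (0, 2)], [(0, 2)], [], [(0, 2, [5]), (1, 0, [])]⟩,
    ⟨[(0, 1)], [(0, 0), (0, 1), (1, 0), (1, 1), (1, 2)], [(0, 0), (0, 1)], [6], [(1, 0,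
      []), (3, 1, [3]), (4, 0, [])]⟩,
    ⟨[(0, 1), (0, 2), (1, 2)], [(0, 0), (0, 3), (0, 5), (2, 0), (2, 1), (2, 3), (2, 5)],
      [(0, 3), (0, 5), (3, 5)], [], [(4, 0, []), (5, 5, [2]), (6, 3, [1])]⟩,
    ⟨[(0, 1), (0, 2), (0, 3), (1, 2), (1, 3), (2, 3)], [(0, 2), (0, 3), (1, 0), (1, 2), (1,
      3), (3, 0), (3, 2), (3, 3), (3, 5)], [(2, 3), (3, 3)], [4], [(0, 2, [5]), (6, 3, [1]),
      (8, 3, [1])]⟩,
    ⟨[(0, 4), (1, 4), (3, 4)], [(2, 1), (4, 1), (4, 2), (4, 3)], [], [4], [(3, 1, [3])]⟩,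
    ⟨[(0, 4), (1, 4), (3, 4), (4, 5)], [(2, 1), (4, 1), (4, 2), (4, 3), (5, 1), (5, 3)],
      [(1, 3)], [7], [(3, 1, [3]), (8, 3, [1])]⟩]
  Ta := [((1, 0), 0, 2), ((1, 2), 0, 6), ((4, 3), 0, 1), ((4, 5), 0, 5), ((6, 5), 3, 5), ((6, 7),
    3, 4), ((8, 0), 3, 2), ((8, 9), 3, 7)]
  Tb := [((0, 1, 8), 2, 0, 3), ((1, 0, 2), 0, 2, 6), ((2, 1, 3), 6, 0, 1), ((3, 2, 4), 1, 6, 0),
    ((3, 2, 7), 1, 6, 4), ((3, 2, 9), 1, 6, 7), ((3, 4, 7), 1, 0, 4), ((3, 4, 9), 1, 0, 7),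
    ((3, 7, 9), 1, 4, 7), ((4, 3, 5), 0, 1, 5), ((5, 4, 6), 5, 0, 3), ((6, 5, 7), 3, 5, 4),
    ((7, 3, 6), 4, 1, 3), ((8, 0, 9), 3, 2, 7), ((9, 3, 8), 7, 1, 3)]
  Tc := []
  Td := [((1, 3), (3, 2), 6), ((1, 3), (3, 4), 0), ((1, 3), (3, 7), 4), ((1, 3), (3, 9), 7), ((2,
    5), (0, 1), 0), ((2, 5), (0, 8), 3), ((3, 1), (6, 5), 5), ((3, 1), (6, 7), 4), ((3, 1),
    (8, 0), 2), ((3, 1), (8, 9), 7), ((5, 2), (5, 4), 0), ((5, 2), (5, 6), 3)]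
  G := [[0, 0, 0x9441425891895e15851a1c2c, 0x94c1524c1128c9442858825882cc9,
    0x1414a58c19582b4241cc134c18134c58848a6], [0, 0, 0x49959c611149c955e1c189818181cc2,
    0x14559c9249c5194d928c5c94241cd42c885824c5,
    0x1814c41c93541942dc89c5d44ccb4c1c1a489d86c23], [0, 0xa6612284e12c41, 0,
    0x94c1524c112894428d58825882c1c, 0x548c5c1b24858855c4b4188c584b4c25], [0,
    0xeea12ee612c84, 0, 0x194d1219c12c45c9425c942c9c5829c54892cc9,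
    0x5411c916dc91c538cd4185924ad4ddca4489c4a4c16]]

noncomputable def n1726 : Ent := ⟨e1726, noF, [], [], [(9, 16, [1580044410770988437309982408355971841652082177953823432505696174081, 0])]⟩

def c1726 : PLift (Cov.check n1726.C.D v1726 = true) := ⟨by decide +kernel⟩

def b1726 : PLift (entF (fidx ts) 400 1726 n1726 = true) := ⟨by decide +kernel⟩

theorem g1726 : GoodF (fidx ts) 400 1726 := GoodF.ofV v1726 n1726 c1726.down b1726.down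

/-- 4576945:1458/6 -/
noncomputable def e1727 : SCfg where
  D := {
    a := 7
    L := 10
    kp := 7
    inn := [(0, 1), (0, 2), (0, 3), (0, 4), (1, 0), (1, 2), (1, 4), (2, 0), (2, 1), (2, 3), (3, 0), (3,
      2), (3, 4), (4, 0), (4, 1), (4, 3), (4, 5), (4, 6), (5, 4), (5, 6), (6, 4), (6, 5)]
    mix := [(1, 0), (1, 1), (2, 1), (2, 2), (2, 3), (2, 4), (3, 4), (3, 5), (3, 6), (4, 0), (4, 6), (4,
      7), (4, 8), (5, 7), (5, 9), (6, 3), (6, 8), (6, 9)]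
    cl := [1, 0, 7, 2, 0, 6, 3, 4, 3, 5]
    chq := [(1, 6), (2, 4), (4, 2), (6, 1)]
    rng := [(0, 1), (0, 8), (1, 0), (1, 2), (2, 1), (2, 3), (3, 2), (3, 4), (3, 8), (3, 9), (4, 3), (4,
      5), (5, 4), (5, 6), (6, 5), (6, 7), (7, 6), (7, 9), (8, 0), (8, 3), (9, 3), (9, 7)]
    lev := [] }
  links := [[1, 2, 3, 4], [2, 0, 4, 7, 8], [3, 0, 1, 8, 9, 10, 11], [4, 0, 2, 11, 12, 13], [7, 1, 0, 3,
    13, 14, 5, 6, 15], [6, 4, 14, 16], [15, 4, 5, 16, 10]]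
  P := {
    a := 7
    N := 17
    nb := [30, 405, 3851, 14357, 57579, 82000, 99376, 33042, 646, 1284, 100932, 5132, 10248, 20504,
      73776, 1232, 17504]
    tri := [(0, 1, 2), (0, 1, 4), (0, 2, 3), (0, 3, 4), (1, 2, 8), (1, 4, 7), (1, 7, 8), (2, 3, 11),
      (2, 8, 9), (2, 9, 10), (2, 10, 11), (3, 4, 13), (3, 11, 12), (3, 12, 13), (4, 5, 6), (4, 5,
      14), (4, 6, 15), (4, 7, 15), (4, 13, 14), (5, 6, 16), (5, 14, 16), (6, 10, 15), (6, 10, 16)]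
    fin := [0, 0, 2, 0, 4, 5, 5, 0, 2, 9, 5, 2, 12, 4, 14, 4, 16]
    chd := [(0, 12), (5, 14)]
    steps := [(0, 1), (0, 3), (0, 7), (2, 8), (2, 11), (4, 13), (4, 15), (5, 6), (5, 10)] }
  rep := [2, 0, 5, 4, 14, 16, 12, 9]

noncomputable def v1727 : Cov.CovD where
  P := 3
  N := 5
  pl := [2, 9]
  lev := [⟨[], [], [], [], []⟩,
    ⟨[], [(0, 0), (0, 1)], [(0, 1)], [], [(0, 1, [6]), (1, 0, [])]⟩,
    ⟨[(0, 1)], [(0, 0), (0, 2), (1, 0), (1, 1), (1, 2)], [(0, 0), (0, 2)], [7], [(1, 0,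
      []), (3, 2, [4]), (4, 0, [])]⟩,
    ⟨[(0, 1), (0, 2), (1, 2)], [(0, 0), (0, 3), (0, 6), (2, 0), (2, 2), (2, 3), (2, 6)],
      [(0, 3), (0, 6), (3, 6)], [], [(4, 0, []), (5, 6, [1]), (6, 3, [])]⟩,
    ⟨[(0, 1), (0, 2), (0, 3), (1, 2), (1, 3), (2, 3)], [(0, 1), (0, 3), (0, 4), (1, 0), (1,
      1), (1, 3), (1, 4), (3, 0), (3, 1), (3, 3), (3, 4), (3, 6)], [(1, 3), (1, 4), (3, 3),
      (3, 4)], [], [(0, 1, [6]), (6, 3, []), (7, 4, [2]), (8, 3, [])]⟩,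
    ⟨[(0, 4), (1, 4), (3, 4)], [(4, 1), (4, 3), (4, 4)], [], [5], [(7, 4, [2])]⟩,
    ⟨[(0, 4), (1, 4), (3, 4), (4, 5)], [(2, 2), (4, 1), (4, 2), (4, 3), (4, 4), (5, 2), (5,
      3), (5, 4)], [(2, 3)], [5], [(3, 2, [4]), (8, 3, [])]⟩]
  Ta := [((1, 0), 0, 1), ((1, 2), 0, 7), ((4, 3), 0, 2), ((4, 5), 0, 6), ((6, 5), 3, 6), ((6, 7),
    3, 4), ((8, 0), 3, 1), ((8, 3), 3, 2)]
  Tb := [((0, 1, 8), 1, 0, 3), ((1, 0, 2), 0, 1, 7), ((2, 1, 3), 7, 0, 2), ((3, 2, 4), 2, 7, 0),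
    ((3, 2, 8), 2, 7, 3), ((3, 2, 9), 2, 7, 5), ((3, 4, 8), 2, 0, 3), ((3, 4, 9), 2, 0, 5),
    ((3, 8, 9), 2, 3, 5), ((4, 3, 5), 0, 2, 6), ((5, 4, 6), 6, 0, 3), ((6, 5, 7), 3, 6, 4),
    ((7, 6, 9), 4, 3, 5), ((8, 0, 3), 3, 1, 2), ((9, 3, 7), 5, 2, 4)]
  Tc := []
  Td := [((1, 6), (0, 1), 0), ((1, 6), (0, 8), 3), ((2, 4), (3, 2), 7), ((2, 4), (3, 4), 0), ((2,
    4), (3, 8), 3), ((2, 4), (3, 9), 5), ((4, 2), (7, 6), 3), ((4, 2), (7, 9), 5), ((6, 1),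
    (5, 4), 0), ((6, 1), (5, 6), 3)]
  G := [[0, 0x541b214c1b21c48, 0, 0x154718648ced2441a198b48ced28c1, 0x312e422a994682a746a81],
    [0, 0x52481d61485629a481de19281cc2, 0, 0x1212481e12c8494b48c52148b42c1c8782858782cc5,
    0x39aba4528b3d41242834ea9482b4a494ac1], [0, 0, 0xa112c112c48,
    0x81642414a198b48ced214a48ce92cc1, 0x9287422a9946192e46a81], [0, 0, 0xe112e112c84,
    0x185e12145498b92c148b429d642c51847828282c49, 0x983e42a93d43458b3a4dca34a4928c1]]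

noncomputable def n1727 : Ent := ⟨e1727, noF, [], [], [(9, 16, [1580044410770988437309982408355971841652082177953823432505696165889, 0])]⟩

def c1727 : PLift (Cov.check n1727.C.D v1727 = true) := ⟨by decide +kernel⟩

def b1727 : PLift (entF (fidx ts) 400 1727 n1727 = true) := ⟨by decide +kernel⟩

theorem g1727 : GoodF (fidx ts) 400 1727 := GoodF.ofV v1727 n1727 c1727.down b1727.down

/-- 4576945:1458 -/
noncomputable def e1728 : SCfg where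
  D := {
    a := 7
    L := 11
    kp := 8
    inn := [(0, 1), (0, 2), (0, 3), (0, 4), (1, 0), (1, 2), (1, 4), (2, 0), (2, 1), (2, 3), (3, 0), (3,
      2), (3, 4), (4, 0), (4, 1), (4, 3), (4, 5), (4, 6), (5, 4), (5, 6), (6, 4), (6, 5)]
    mix := [(1, 0), (1, 1), (2, 1), (2, 2), (2, 3), (2, 4), (3, 4), (3, 5), (3, 6), (4, 0), (4, 6), (4,
      7), (4, 8), (5, 7), (5, 9), (6, 8), (6, 9), (6, 10)]
    cl := [1, 3, 6, 7, 3, 5, 0, 2, 0, 4, 8]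
    chq := [(0, 4), (1, 5), (4, 0), (5, 1)]
    rng := [(0, 1), (0, 8), (1, 0), (1, 2), (2, 1), (2, 3), (3, 2), (3, 4), (4, 3), (4, 5), (5, 4), (5,
      6), (6, 5), (6, 7), (7, 6), (7, 9), (8, 0), (8, 10), (9, 7), (9, 10), (10, 8), (10, 9)]
    lev := [] }
  links := [[1, 2, 3, 4], [2, 0, 4, 7, 8], [3, 0, 1, 8, 9, 10, 11], [4, 0, 2, 11, 12, 13], [7, 1, 0, 3,
    13, 14, 5, 6, 15], [6, 4, 14, 16], [15, 4, 5, 16, 17]]
  P := {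
    a := 7
    N := 18
    nb := [30, 405, 3851, 14357, 57579, 82000, 229424, 33042, 646, 1284, 2564, 5132, 10248, 20504,
      73776, 131280, 147552, 98368]
    tri := [(0, 1, 2), (0, 1, 4), (0, 2, 3), (0, 3, 4), (1, 2, 8), (1, 4, 7), (1, 7, 8), (2, 3, 11),
      (2, 8, 9), (2, 9, 10), (2, 10, 11), (3, 4, 13), (3, 11, 12), (3, 12, 13), (4, 5, 6), (4, 5,
      14), (4, 6, 15), (4, 7, 15), (4, 13, 14), (5, 6, 16), (5, 14, 16), (6, 15, 17), (6, 16, 17)]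
    fin := [0, 0, 2, 0, 4, 4, 4, 0, 2, 9, 10, 2, 12, 4, 14, 4, 16, 17]
    chd := [(0, 12), (4, 16)]
    steps := [(0, 1), (0, 3), (0, 7), (2, 8), (2, 11), (4, 5), (4, 6), (4, 13), (4, 15)] }
  rep := [4, 0, 14, 2, 16, 12, 9, 10, 17]

noncomputable def v1728 : Cov.CovD where
  P := 3
  N := 6
  pl := [2, 3, 7, 10]
  lev := [⟨[], [], [], [], []⟩,
    ⟨[], [(0, 1), (0, 3)], [(1, 3)], [], [(0, 1, [5]), (1, 3, [])]⟩,
    ⟨[(0, 1)], [(0, 3), (1, 1), (1, 3)], [(3, 3)], [6, 7], [(1, 3, []), (4, 3, [])]⟩,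
    ⟨[(0, 1), (0, 2), (1, 2)], [(0, 0), (0, 3), (0, 5), (2, 0), (2, 3), (2, 5)], [(0, 3),
      (0, 5), (3, 5)], [], [(4, 3, []), (5, 5, [1]), (6, 0, [4])]⟩,
    ⟨[(0, 1), (0, 2), (0, 3), (1, 2), (1, 3), (2, 3)], [(0, 0), (0, 1), (1, 0), (1, 1), (1,
      3), (3, 0), (3, 1), (3, 3), (3, 5)], [(0, 0), (0, 1)], [2], [(0, 1, [5]), (6, 0, [4]),
      (8, 0, [4])]⟩,
    ⟨[(0, 4), (1, 4), (3, 4)], [(4, 0), (4, 1), (4, 4)], [], [2], [(9, 4, [0])]⟩,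
    ⟨[(0, 4), (1, 4), (3, 4), (4, 5)], [(4, 0), (4, 1), (4, 4), (5, 0), (5, 4)], [(0, 4)],
      [8], [(8, 0, [4]), (9, 4, [0])]⟩]
  Ta := [((1, 0), 3, 1), ((1, 2), 3, 6), ((4, 3), 3, 7), ((4, 5), 3, 5), ((6, 5), 0, 5), ((6, 7),
    0, 2), ((8, 0), 0, 1), ((8, 10), 0, 8)]
  Tb := [((0, 1, 8), 1, 3, 0), ((1, 0, 2), 3, 1, 6), ((2, 1, 3), 6, 3, 7), ((3, 2, 4), 7, 6, 3),
    ((4, 3, 5), 3, 7, 5), ((5, 4, 6), 5, 3, 0), ((6, 5, 7), 0, 5, 2), ((7, 6, 9), 2, 0, 4),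
    ((8, 0, 10), 0, 1, 8), ((9, 7, 10), 4, 2, 8), ((10, 8, 9), 8, 0, 4)]
  Tc := []
  Td := [((0, 4), (6, 5), 5), ((0, 4), (6, 7), 2), ((0, 4), (8, 0), 1), ((0, 4), (8, 10), 8),
    ((1, 5), (0, 1), 3), ((1, 5), (0, 8), 0), ((4, 0), (9, 7), 2), ((4, 0), (9, 10), 8), ((5,
    1), (5, 4), 3), ((5, 1), (5, 6), 0)]
  G := [[0, 0, 0x11c82111164211684a1168211a486c5, 0x1a5821116942814618814eae182a14148148e6c5,
    0xe1828e18215e1841c384a16118a4216a82e1826c7], [0, 0, 0x11a4211a82116811a811a8e11a42f14,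
    0x16942e142e14a1c4ae142f4a5842c1, 0xe18216a826188a2c381698ee182f14], [0,
    0x41a1c218694126e1418e1814e1841ea, 0, 0xe141e14231e1428e18241a1c4a58a6c9,
    0x61816182312c38281818182b1e182e1826181ae18ae4d], [0, 0xe14186941e141e148f4a58e1861c2, 0,
    0xe182e182618e184858a14fe182f14, 0x6188ae18921e182e182e182e182f45]]

noncomputable def n1728 : Ent := ⟨e1728, noF, [], [], [(9, 16, [7334685537875745012586738086077695515070955365108989538292687700733953, 0]), (9, 17, [6903326391201334775872065844685381424292761054348340378595029936754689, 0]), (10, 16, [7334685537875745012586738086077695515070955365108989538292687700746241, 0]), (10, 17, [6903326391201334775872065844685381424292761054348340378595029936762881, 0])]⟩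

def c1728 : PLift (Cov.check n1728.C.D v1728 = true) := ⟨by decide +kernel⟩

def b1728 : PLift (entF (fidx ts) 400 1728 n1728 = true) := ⟨by decide +kernel⟩

theorem g1728 : GoodF (fidx ts) 400 1728 := GoodF.ofV v1728 n1728 c1728.down b1728.down

/-- 4576944:1459/1 -/
noncomputable def e1729 : SCfg where
  D := {
    a := 7
    L := 10
    kp := 7
    inn := [(0, 1), (0, 2), (0, 3), (0, 4), (1, 0), (1, 2), (1, 4), (2, 0), (2, 1), (2, 3), (3, 0), (3,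
      2), (3, 4), (4, 0), (4, 1), (4, 3), (4, 5), (4, 6), (5, 4), (6, 4)]
    mix := [(1, 0), (1, 1), (2, 1), (2, 2), (2, 3), (2, 4), (3, 4), (3, 5), (3, 6), (4, 0), (4, 6), (4,
      7), (4, 8), (5, 2), (5, 7), (5, 8), (6, 0), (6, 8), (6, 9)]
    cl := [0, 1, 2, 6, 1, 5, 4, 0, 3, 7]
    chq := [(0, 3), (0, 5), (3, 0), (5, 0)]
    rng := [(0, 1), (0, 9), (1, 0), (1, 2), (2, 1), (2, 3), (2, 7), (2, 8), (3, 2), (3, 4), (4, 3), (4,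
      5), (5, 4), (5, 6), (6, 5), (6, 7), (7, 2), (7, 6), (8, 2), (8, 9), (9, 0), (9, 8)]
    lev := [] }
  links := [[1, 2, 3, 4], [2, 0, 4, 7, 8], [3, 0, 1, 8, 9, 10, 11], [4, 0, 2, 11, 12, 13], [7, 1, 0, 3,
    13, 14, 5, 15, 6], [15, 4, 14, 9], [7, 4, 15, 16]]
  P := {
    a := 7
    N := 17
    nb := [30, 405, 3851, 14357, 57579, 49680, 98448, 65874, 646, 50468, 2564, 5132, 10248, 20504,
      8752, 66160, 32960]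
    tri := [(0, 1, 2), (0, 1, 4), (0, 2, 3), (0, 3, 4), (1, 2, 8), (1, 4, 7), (1, 7, 8), (2, 3, 11),
      (2, 8, 9), (2, 9, 10), (2, 10, 11), (3, 4, 13), (3, 11, 12), (3, 12, 13), (4, 5, 14), (4, 5,
      15), (4, 6, 7), (4, 6, 15), (4, 13, 14), (5, 9, 14), (5, 9, 15), (6, 7, 16), (6, 15, 16)]
    fin := [0, 0, 2, 0, 0, 0, 0, 0, 2, 9, 10, 2, 12, 13, 0, 15, 16]
    chd := [(0, 12), (0, 15)]
    steps := [(0, 1), (0, 3), (0, 4), (0, 5), (0, 6), (0, 7), (0, 14), (2, 8), (2, 11)] }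
  rep := [0, 2, 9, 15, 13, 12, 10, 16]

noncomputable def v1729 : Cov.CovD where
  P := 3
  N := 5
  pl := [2, 3, 6, 9]
  lev := [⟨[], [], [], [], []⟩,
    ⟨[], [(0, 0), (0, 1)], [(0, 1)], [], [(0, 0, [3, 5]), (1, 1, [])]⟩,
    ⟨[(0, 1)], [(0, 1), (1, 0), (1, 1)], [(1, 1)], [2, 6], [(1, 1, []), (4, 1, [])]⟩,
    ⟨[(0, 1), (0, 2), (1, 2)], [(0, 1), (0, 5), (2, 1), (2, 5)], [(1, 5)], [4], [(4, 1,
      []), (5, 5, [0])]⟩,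
    ⟨[(0, 1), (0, 2), (0, 3), (1, 2), (1, 3), (2, 3)], [(0, 0), (0, 3), (1, 0), (1, 1), (1,
      3), (3, 0), (3, 1), (3, 3), (3, 5)], [(0, 0), (0, 3)], [4], [(0, 0, [3, 5]), (7, 0, [3,
      5]), (8, 3, [0])]⟩,
    ⟨[(0, 4), (1, 4), (3, 4)], [(4, 0), (4, 3)], [(0, 3)], [2], [(7, 0, [3, 5]), (8, 3,
      [0])]⟩,
    ⟨[(0, 4), (1, 4), (3, 4), (4, 5)], [(1, 0), (4, 0), (4, 3), (5, 3)], [(0, 3)], [7],
      [(0, 0, [3, 5]), (8, 3, [0])]⟩]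
  Ta := [((0, 1), 0, 1), ((0, 9), 0, 7), ((1, 0), 1, 0), ((1, 2), 1, 2), ((4, 3), 1, 6), ((4, 5),
    1, 5), ((7, 2), 0, 2), ((7, 6), 0, 4)]
  Tb := [((0, 1, 9), 0, 1, 7), ((1, 0, 2), 1, 0, 2), ((2, 1, 3), 2, 1, 6), ((2, 1, 7), 2, 1, 0),
    ((2, 1, 8), 2, 1, 3), ((2, 3, 7), 2, 6, 0), ((2, 3, 8), 2, 6, 3), ((2, 7, 8), 2, 0, 3),
    ((3, 2, 4), 6, 2, 1), ((4, 3, 5), 1, 6, 5), ((5, 4, 6), 5, 1, 4), ((6, 5, 7), 4, 5, 0),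
    ((7, 2, 6), 0, 2, 4), ((8, 2, 9), 3, 2, 7), ((9, 0, 8), 7, 0, 3)]
  Tc := [(0, 3, 5)]
  Td := [((0, 3), (0, 1), 1), ((0, 3), (0, 9), 7), ((0, 3), (7, 2), 2), ((0, 3), (7, 6), 4), ((0,
    5), (0, 1), 1), ((0, 5), (0, 9), 7), ((0, 5), (7, 2), 2), ((0, 5), (7, 6), 4), ((3, 0),
    (8, 2), 2), ((3, 0), (8, 9), 7), ((5, 0), (5, 4), 1), ((5, 0), (5, 6), 4)]
  G := [[0, 0xe121e121c8e14186541ce181e181cc6, 0, 0x61842d61a45415869218c68911c128981c4a,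
    0x4a321a6921948694111186e1459689811111a689899ca], [0, 0, 0, 0,
    0x824b41114c6a459211241689e1a11112ae1c23a99cc], [0, 0, 0x144141811a12e11812a1cc1,
    0x14441ca1c63483441141868918211c25819cad18838859ca,
    0x11a4325263121261112a1843291a52ef943882188294588184e], [0, 0,
    0x12211221c41814c11814c1c29, 0,
    0x18126d2251d22112289c124411a4c1a49911a1861881892acd11818899ca]]

noncomputable def n1729 : Ent := ⟨e1729, noF, [], [], []⟩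

def c1729 : PLift (Cov.check n1729.C.D v1729 = true) := ⟨by decide +kernel⟩

def b1729 : PLift (entF (fidx ts) 400 1729 n1729 = true) := ⟨by decide +kernel⟩

theorem g1729 : GoodF (fidx ts) 400 1729 := GoodF.ofV v1729 n1729 c1729.down b1729.down

/-- 4576944:1459/2 -/
noncomputable def e1730 : SCfg where
  D := {
    a := 7
    L := 10
    kp := 7
    inn := [(0, 1), (0, 2), (0, 3), (0, 4), (1, 0), (1, 2), (1, 4), (2, 0), (2, 1), (2, 3), (3, 0), (3,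
      2), (3, 4), (4, 0), (4, 1), (4, 3), (4, 5), (4, 6), (5, 4), (6, 4)]
    mix := [(1, 0), (1, 1), (2, 1), (2, 2), (2, 3), (2, 4), (3, 4), (3, 5), (3, 6), (4, 0), (4, 6), (4,
      7), (4, 8), (5, 3), (5, 7), (5, 8), (6, 0), (6, 8), (6, 9)]
    cl := [0, 1, 6, 2, 1, 5, 4, 0, 3, 7]
    chq := [(0, 3), (0, 5), (3, 0), (5, 0)]
    rng := [(0, 1), (0, 9), (1, 0), (1, 2), (2, 1), (2, 3), (3, 2), (3, 4), (3, 7), (3, 8), (4, 3), (4,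
      5), (5, 4), (5, 6), (6, 5), (6, 7), (7, 3), (7, 6), (8, 3), (8, 9), (9, 0), (9, 8)]
    lev := [] }
  links := [[1, 2, 3, 4], [2, 0, 4, 7, 8], [3, 0, 1, 8, 9, 10, 11], [4, 0, 2, 11, 12, 13], [7, 1, 0, 3,
    13, 14, 5, 15, 6], [15, 4, 14, 10], [7, 4, 15, 16]]
  P := {
    a := 7
    N := 17
    nb := [30, 405, 3851, 14357, 57579, 50192, 98448, 65874, 646, 1284, 51748, 5132, 10248, 20504,
      9264, 66672, 32960]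
    tri := [(0, 1, 2), (0, 1, 4), (0, 2, 3), (0, 3, 4), (1, 2, 8), (1, 4, 7), (1, 7, 8), (2, 3, 11),
      (2, 8, 9), (2, 9, 10), (2, 10, 11), (3, 4, 13), (3, 11, 12), (3, 12, 13), (4, 5, 14), (4, 5,
      15), (4, 6, 7), (4, 6, 15), (4, 13, 14), (5, 10, 14), (5, 10, 15), (6, 7, 16), (6, 15, 16)]
    fin := [0, 0, 2, 0, 0, 0, 0, 0, 2, 9, 10, 2, 12, 13, 0, 15, 16]
    chd := [(0, 12), (0, 15)]
    steps := [(0, 1), (0, 3), (0, 4), (0, 5), (0, 6), (0, 7), (0, 14), (2, 8), (2, 11)] }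
  rep := [0, 2, 10, 15, 13, 12, 9, 16]

noncomputable def v1730 : Cov.CovD where
  P := 3
  N := 5
  pl := [2, 3, 6, 9]
  lev := [⟨[], [], [], [], []⟩,
    ⟨[], [(0, 0), (0, 1)], [(0, 1)], [], [(0, 0, [3, 5]), (1, 1, [])]⟩,
    ⟨[(0, 1)], [(0, 1), (1, 0), (1, 1)], [(1, 1)], [2, 6], [(1, 1, []), (4, 1, [])]⟩,
    ⟨[(0, 1), (0, 2), (1, 2)], [(0, 1), (0, 5), (2, 1), (2, 5)], [(1, 5)], [4], [(4, 1,
      []), (5, 5, [0])]⟩,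
    ⟨[(0, 1), (0, 2), (0, 3), (1, 2), (1, 3), (2, 3)], [(0, 0), (0, 3), (1, 0), (1, 1), (1,
      3), (3, 0), (3, 1), (3, 3), (3, 5)], [(0, 0), (0, 3)], [4], [(0, 0, [3, 5]), (7, 0, [3,
      5]), (8, 3, [0])]⟩,
    ⟨[(0, 4), (1, 4), (3, 4)], [(4, 0), (4, 3)], [(0, 3)], [2], [(7, 0, [3, 5]), (8, 3,
      [0])]⟩,
    ⟨[(0, 4), (1, 4), (3, 4), (4, 5)], [(1, 0), (4, 0), (4, 3), (5, 3)], [(0, 3)], [7],
      [(0, 0, [3, 5]), (8, 3, [0])]⟩]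
  Ta := [((0, 1), 0, 1), ((0, 9), 0, 7), ((1, 0), 1, 0), ((1, 2), 1, 6), ((4, 3), 1, 2), ((4, 5),
    1, 5), ((7, 3), 0, 2), ((7, 6), 0, 4)]
  Tb := [((0, 1, 9), 0, 1, 7), ((1, 0, 2), 1, 0, 6), ((2, 1, 3), 6, 1, 2), ((3, 2, 4), 2, 6, 1),
    ((3, 2, 7), 2, 6, 0), ((3, 2, 8), 2, 6, 3), ((3, 4, 7), 2, 1, 0), ((3, 4, 8), 2, 1, 3),
    ((3, 7, 8), 2, 0, 3), ((4, 3, 5), 1, 2, 5), ((5, 4, 6), 5, 1, 4), ((6, 5, 7), 4, 5, 0),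
    ((7, 3, 6), 0, 2, 4), ((8, 3, 9), 3, 2, 7), ((9, 0, 8), 7, 0, 3)]
  Tc := [(0, 3, 5)]
  Td := [((0, 3), (0, 1), 1), ((0, 3), (0, 9), 7), ((0, 3), (7, 3), 2), ((0, 3), (7, 6), 4), ((0,
    5), (0, 1), 1), ((0, 5), (0, 9), 7), ((0, 5), (7, 3), 2), ((0, 5), (7, 6), 4), ((3, 0),
    (8, 3), 2), ((3, 0), (8, 9), 7), ((5, 0), (5, 4), 1), ((5, 0), (5, 6), 4)]
  G := [[0, 0xe121e121c8e14186541ce181e181cc6, 0, 0,
    0x11116824bc236518689c23a11112ae18994e14188e], [0, 0, 0,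
    0xa45ca5612121541418a6892195ce1a181c4a,
    0x6c3e1611c232186c34111422859ee1811111a1124898d94a], [0, 0, 0x1441141261c1812a11881cc1,
    0, 0x32411a926311411291a47231a12ef918821112a188a9a2818d4], [0, 0,
    0x1411c611161411ce1c18818c2, 0x11c2411c244a1ca918211c2cd94411443449963815ca18188146c,
    0x12218a1aa91112a58d2a9918488611a18616a4518411a18691a4d986]]

noncomputable def n1730 : Ent := ⟨e1730, noF, [], [], []⟩

def c1730 : PLift (Cov.check n1730.C.D v1730 = true) := ⟨by decide +kernel⟩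

def b1730 : PLift (entF (fidx ts) 400 1730 n1730 = true) := ⟨by decide +kernel⟩

theorem g1730 : GoodF (fidx ts) 400 1730 := GoodF.ofV v1730 n1730 c1730.down b1730.down

/-- 4576944:1459 -/
noncomputable def e1731 : SCfg where
  D := {
    a := 7
    L := 11
    kp := 8
    inn := [(0, 1), (0, 2), (0, 3), (0, 4), (1, 0), (1, 2), (1, 4), (2, 0), (2, 1), (2, 3), (3, 0), (3,
      2), (3, 4), (4, 0), (4, 1), (4, 3), (4, 5), (4, 6), (5, 4), (6, 4)]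
    mix := [(1, 0), (1, 1), (2, 1), (2, 2), (2, 3), (2, 4), (3, 4), (3, 5), (3, 6), (4, 0), (4, 6), (4,
      7), (4, 8), (5, 7), (5, 8), (5, 9), (6, 0), (6, 8), (6, 10)]
    cl := [0, 1, 5, 6, 1, 4, 2, 0, 3, 7, 8]
    chq := [(0, 3), (0, 4), (3, 0), (4, 0)]
    rng := [(0, 1), (0, 10), (1, 0), (1, 2), (2, 1), (2, 3), (3, 2), (3, 4), (4, 3), (4, 5), (5, 4),
      (5, 6), (6, 5), (6, 7), (7, 6), (7, 9), (8, 9), (8, 10), (9, 7), (9, 8), (10, 0), (10, 8)]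
    lev := [] }
  links := [[1, 2, 3, 4], [2, 0, 4, 7, 8], [3, 0, 1, 8, 9, 10, 11], [4, 0, 2, 11, 12, 13], [7, 1, 0, 3,
    13, 14, 5, 15, 6], [15, 4, 14, 16], [7, 4, 15, 17]]
  P := {
    a := 7
    N := 18
    nb := [30, 405, 3851, 14357, 57579, 114704, 163984, 131410, 646, 1284, 2564, 5132, 10248, 20504,
      73776, 196720, 49184, 32960]
    tri := [(0, 1, 2), (0, 1, 4), (0, 2, 3), (0, 3, 4), (1, 2, 8), (1, 4, 7), (1, 7, 8), (2, 3, 11),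
      (2, 8, 9), (2, 9, 10), (2, 10, 11), (3, 4, 13), (3, 11, 12), (3, 12, 13), (4, 5, 14), (4, 5,
      15), (4, 6, 7), (4, 6, 15), (4, 13, 14), (5, 14, 16), (5, 15, 16), (6, 7, 17), (6, 15, 17)]
    fin := [0, 0, 2, 0, 0, 0, 0, 0, 2, 9, 10, 2, 12, 13, 0, 15, 16, 17]
    chd := [(0, 12), (0, 15)]
    steps := [(0, 1), (0, 3), (0, 4), (0, 5), (0, 6), (0, 7), (0, 14), (2, 8), (2, 11)] }
  rep := [0, 2, 13, 15, 12, 9, 10, 16, 17]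

noncomputable def v1731 : Cov.CovD where
  P := 3
  N := 6
  pl := [2, 3, 6, 9, 10]
  lev := [⟨[], [], [], [], []⟩,
    ⟨[], [(0, 0), (0, 1)], [(0, 1)], [], [(0, 0, [3, 4]), (1, 1, [])]⟩,
    ⟨[(0, 1)], [(0, 1), (1, 0), (1, 1)], [(1, 1)], [5, 6], [(1, 1, []), (4, 1, [])]⟩,
    ⟨[(0, 1), (0, 2), (1, 2)], [(0, 1), (0, 4), (2, 1), (2, 4)], [(1, 4)], [2], [(4, 1,
      []), (5, 4, [0])]⟩,
    ⟨[(0, 1), (0, 2), (0, 3), (1, 2), (1, 3), (2, 3)], [(0, 0), (0, 3), (1, 0), (1, 1), (1,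
      3), (3, 0), (3, 1), (3, 3), (3, 4)], [(0, 0), (0, 3)], [2], [(0, 0, [3, 4]), (7, 0, [3,
      4]), (8, 3, [0])]⟩,
    ⟨[(0, 4), (1, 4), (3, 4)], [(4, 0), (4, 3)], [(0, 3)], [7], [(7, 0, [3, 4]), (8, 3,
      [0])]⟩,
    ⟨[(0, 4), (1, 4), (3, 4), (4, 5)], [(1, 0), (4, 0), (4, 3), (5, 3)], [(0, 3)], [8],
      [(0, 0, [3, 4]), (8, 3, [0])]⟩]
  Ta := [((0, 1), 0, 1), ((0, 10), 0, 8), ((1, 0), 1, 0), ((1, 2), 1, 5), ((4, 3), 1, 6), ((4,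
    5), 1, 4), ((7, 6), 0, 2), ((7, 9), 0, 7)]
  Tb := [((0, 1, 10), 0, 1, 8), ((1, 0, 2), 1, 0, 5), ((2, 1, 3), 5, 1, 6), ((3, 2, 4), 6, 5, 1),
    ((4, 3, 5), 1, 6, 4), ((5, 4, 6), 4, 1, 2), ((6, 5, 7), 2, 4, 0), ((7, 6, 9), 0, 2, 7),
    ((8, 9, 10), 3, 7, 8), ((9, 7, 8), 7, 0, 3), ((10, 0, 8), 8, 0, 3)]
  Tc := [(0, 3, 4)]
  Td := [((0, 3), (0, 1), 1), ((0, 3), (0, 10), 8), ((0, 3), (7, 6), 2), ((0, 3), (7, 9), 7),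
    ((0, 4), (0, 1), 1), ((0, 4), (0, 10), 8), ((0, 4), (7, 6), 2), ((0, 4), (7, 9), 7), ((3,
    0), (8, 9), 7), ((3, 0), (8, 10), 8), ((4, 0), (5, 4), 1), ((4, 0), (5, 6), 2)]
  G := [[0, 0x61412a1812a161c1a161c1ce2, 0, 0x4634161411111c223a65c5d628b816a8b8188381dc2,
    0x6c27212642f21581126c38a652bc182112c18ad49], [0, 0, 0,
    0xca6d41a63411111c62a65c5da1816a981a181dc2, 0x6461a146acb61a11161a6c9a65a99689814e4], [0,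
    0, 0x1164212116c211642d11a82188211a82dc1, 0x11641366411441d7aa8151a811111c349e12c9dc2,
    0x1156d6a143cc156a11125cc81962b9c1881445], [0, 0,
    0x1162411a214111eac9811c11a61162c11c4184c511a28811c411c8c11c84ce5,
    0x1164112b66c13441d7aa8118811111c5aa12c9dc2, 0x14269ea14318e516a111116a7cc116a9918814e4]]

noncomputable def n1731 : Ent := ⟨e1731, noF, [], [], [(9, 16, [7334685537875745012586738086077695515070955365108989538292687700758529, 0]), (10, 16, [7334685537875745012586738086077695515070955365108989538292687700762625, 0])]⟩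

def c1731 : PLift (Cov.check n1731.C.D v1731 = true) := ⟨by decide +kernel⟩

def b1731 : PLift (entF (fidx ts) 400 1731 n1731 = true) := ⟨by decide +kernel⟩

theorem g1731 : GoodF (fidx ts) 400 1731 := GoodF.ofV v1731 n1731 c1731.down b1731.down

/-- 4576945:1460/1 -/
noncomputable def e1732 : SCfg where
  D := {
    a := 7
    L := 10
    kp := 7
    inn := [(0, 1), (0, 2), (0, 3), (0, 4), (1, 0), (1, 2), (1, 4), (2, 0), (2, 1), (2, 3), (3, 0), (3,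
      2), (3, 4), (4, 0), (4, 1), (4, 3), (4, 5), (4, 6), (5, 4), (5, 6), (6, 4), (6, 5)]
    mix := [(1, 0), (1, 1), (2, 1), (2, 2), (2, 3), (2, 4), (3, 4), (3, 5), (3, 6), (4, 0), (4, 6), (4,
      7), (4, 8), (5, 2), (5, 7), (6, 2), (6, 6), (6, 9)]
    cl := [2, 0, 1, 5, 0, 4, 3, 3, 6, 7]
    chq := [(2, 3), (2, 4), (3, 2), (4, 2)]
    rng := [(0, 1), (0, 8), (1, 0), (1, 2), (2, 1), (2, 3), (2, 7), (2, 9), (3, 2), (3, 4), (4, 3), (4,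
      5), (5, 4), (5, 6), (6, 5), (6, 9), (7, 2), (7, 8), (8, 0), (8, 7), (9, 2), (9, 6)]
    lev := [] }
  links := [[1, 2, 3, 4], [2, 0, 4, 7, 8], [3, 0, 1, 8, 9, 10, 11], [4, 0, 2, 11, 12, 13], [7, 1, 0, 3,
    13, 6, 5, 14, 15], [14, 4, 6, 9], [9, 5, 4, 13, 16]]
  P := {
    a := 7
    N := 17
    nb := [30, 405, 3851, 14357, 57579, 16976, 74288, 33042, 646, 83300, 2564, 5132, 10248, 69720,
      33328, 16528, 8768]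
    tri := [(0, 1, 2), (0, 1, 4), (0, 2, 3), (0, 3, 4), (1, 2, 8), (1, 4, 7), (1, 7, 8), (2, 3, 11),
      (2, 8, 9), (2, 9, 10), (2, 10, 11), (3, 4, 13), (3, 11, 12), (3, 12, 13), (4, 5, 6), (4, 5,
      14), (4, 6, 13), (4, 7, 15), (4, 14, 15), (5, 6, 9), (5, 9, 14), (6, 9, 16), (6, 13, 16)]
    fin := [0, 0, 2, 0, 4, 5, 5, 0, 2, 5, 10, 2, 12, 4, 4, 15, 16]
    chd := [(0, 4), (0, 12)]
    steps := [(0, 1), (0, 3), (0, 7), (2, 8), (2, 11), (4, 13), (4, 14), (5, 6), (5, 9)] }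
  rep := [2, 5, 0, 4, 12, 10, 15, 16]

noncomputable def v1732 : Cov.CovD where
  P := 3
  N := 5
  pl := [2, 3, 8, 9]
  lev := [⟨[], [], [], [], []⟩,
    ⟨[], [(0, 0), (0, 2)], [(0, 2)], [], [(0, 2, [3, 4]), (1, 0, [])]⟩,
    ⟨[(0, 1)], [(0, 0), (1, 0), (1, 2)], [(0, 0)], [1, 5], [(1, 0, []), (4, 0, [])]⟩,
    ⟨[(0, 1), (0, 2), (1, 2)], [(0, 0), (0, 3), (0, 4), (2, 0), (2, 3), (2, 4)], [(0, 3),
      (0, 4), (3, 4)], [], [(4, 0, []), (5, 4, [2]), (6, 3, [2])]⟩,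
    ⟨[(0, 1), (0, 2), (0, 3), (1, 2), (1, 3), (2, 3)], [(0, 2), (0, 3), (1, 0), (1, 2), (1,
      3), (3, 0), (3, 2), (3, 3), (3, 4)], [(2, 3), (3, 3)], [6], [(0, 2, [3, 4]), (6, 3,
      [2]), (7, 3, [2])]⟩,
    ⟨[(0, 4), (1, 4), (3, 4)], [(4, 2), (4, 3)], [], [1], [(7, 3, [2])]⟩,
    ⟨[(0, 4), (1, 4), (3, 4), (4, 5)], [(3, 3), (4, 2), (4, 3), (5, 3)], [], [1, 7], [(6,
      3, [2])]⟩]
  Ta := [((1, 0), 0, 2), ((1, 2), 0, 1), ((4, 3), 0, 5), ((4, 5), 0, 4), ((6, 5), 3, 4), ((6, 9),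
    3, 7), ((7, 2), 3, 1), ((7, 8), 3, 6)]
  Tb := [((0, 1, 8), 2, 0, 6), ((1, 0, 2), 0, 2, 1), ((2, 1, 3), 1, 0, 5), ((2, 1, 7), 1, 0, 3),
    ((2, 1, 9), 1, 0, 7), ((2, 3, 7), 1, 5, 3), ((2, 3, 9), 1, 5, 7), ((2, 7, 9), 1, 3, 7),
    ((3, 2, 4), 5, 1, 0), ((4, 3, 5), 0, 5, 4), ((5, 4, 6), 4, 0, 3), ((6, 5, 9), 3, 4, 7),
    ((7, 2, 8), 3, 1, 6), ((8, 0, 7), 6, 2, 3), ((9, 2, 6), 7, 1, 3)]
  Tc := [(2, 3, 4)]
  Td := [((2, 3), (0, 1), 0), ((2, 3), (0, 8), 6), ((2, 4), (0, 1), 0), ((2, 4), (0, 8), 6), ((3,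
    2), (6, 5), 4), ((3, 2), (6, 9), 7), ((3, 2), (7, 2), 1), ((3, 2), (7, 8), 6), ((4, 2),
    (5, 4), 0), ((4, 2), (5, 6), 3)]
  G := [[0, 0xe416843684168e21a483a281a4c, 0x41cd861d121c294819451c1c2a,
    0xd1d4524d4128cd8428d482d482cc9, 0xc4149341c254541441241589acac4d4a44188c848cc29], [0,
    0x82c25242c2924282c1e48, 0x91516148919191e15881c2c, 0x94429442c5848c925848c92cc1,
    0x9494341854514c454b4194adc94848a2], [0, 0, 0, 0xd4124d4d8928c49c42d842cd4824c5,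
    0x482415154ba48d45434d424cc4844188c81589cca6], [0, 0, 0, 0xc112458c1928c944214594c2c85,
    0x5494c4b4145d4a148439448c9ec21]]

noncomputable def n1732 : Ent := ⟨e1732, noF, [], [], []⟩

def c1732 : PLift (Cov.check n1732.C.D v1732 = true) := ⟨by decide +kernel⟩

def b1732 : PLift (entF (fidx ts) 400 1732 n1732 = true) := ⟨by decide +kernel⟩

theorem g1732 : GoodF (fidx ts) 400 1732 := GoodF.ofV v1732 n1732 c1732.down b1732.down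

/-- 4576945:1460/3 -/
noncomputable def e1733 : SCfg where
  D := {
    a := 7
    L := 9
    kp := 6
    inn := [(0, 1), (0, 2), (0, 3), (0, 4), (1, 0), (1, 2), (1, 4), (2, 0), (2, 1), (2, 3), (3, 0), (3,
      2), (3, 4), (4, 0), (4, 1), (4, 3), (4, 5), (4, 6), (5, 4), (5, 6), (6, 4), (6, 5)]
    mix := [(1, 0), (1, 1), (2, 1), (2, 2), (2, 3), (2, 4), (3, 4), (3, 5), (3, 6), (4, 0), (4, 6), (4,
      7), (4, 8), (5, 3), (5, 7), (6, 3), (6, 5), (6, 6)]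
    cl := [0, 1, 6, 2, 1, 3, 0, 4, 5]
    chq := [(0, 2), (2, 0), (2, 5), (5, 2)]
    rng := [(0, 1), (0, 8), (1, 0), (1, 2), (2, 1), (2, 3), (3, 2), (3, 4), (3, 5), (3, 7), (4, 3), (4,
      5), (5, 3), (5, 4), (5, 6), (6, 5), (7, 3), (7, 8), (8, 0), (8, 7)]
    lev := [] }
  links := [[1, 2, 3, 4], [2, 0, 4, 7, 8], [3, 0, 1, 8, 9, 10, 11], [4, 0, 2, 11, 12, 13], [7, 1, 0, 3,
    13, 6, 5, 14, 15], [14, 4, 6, 10], [10, 5, 4, 13, 12]]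
  P := {
    a := 7
    N := 16
    nb := [30, 405, 3851, 14357, 57579, 17488, 13360, 33042, 646, 1284, 23140, 5132, 11336, 4184,
      33840, 16528]
    tri := [(0, 1, 2), (0, 1, 4), (0, 2, 3), (0, 3, 4), (1, 2, 8), (1, 4, 7), (1, 7, 8), (2, 3, 11),
      (2, 8, 9), (2, 9, 10), (2, 10, 11), (3, 4, 13), (3, 11, 12), (3, 12, 13), (4, 5, 6), (4, 5,
      14), (4, 6, 13), (4, 7, 15), (4, 14, 15), (5, 6, 10), (5, 10, 14), (6, 10, 12), (6, 12, 13)]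
    fin := [0, 0, 2, 0, 4, 4, 0, 0, 2, 9, 4, 2, 12, 0, 14, 15]
    chd := [(0, 4), (4, 15)]
    steps := [(0, 1), (0, 3), (0, 7), (0, 13), (0, 6), (2, 8), (2, 11), (4, 5), (4, 10)] }
  rep := [0, 2, 4, 12, 14, 15, 9]

noncomputable def v1733 : Cov.CovD where
  P := 3
  N := 4
  pl := [2, 5, 7]
  lev := [⟨[], [], [], [], []⟩,
    ⟨[], [(0, 0), (0, 1)], [(0, 1)], [], [(0, 0, [2]), (1, 1, [])]⟩,
    ⟨[(0, 1)], [(0, 1), (0, 2), (1, 0), (1, 1), (1, 2)], [(1, 1), (1, 2)], [6], [(1, 1,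
      []), (3, 2, [0, 5]), (4, 1, [])]⟩,
    ⟨[(0, 1), (0, 2), (1, 2)], [(0, 0), (0, 1), (2, 0), (2, 1), (2, 2)], [(0, 1)], [3],
      [(4, 1, []), (6, 0, [2])]⟩,
    ⟨[(0, 1), (0, 2), (0, 3), (1, 2), (1, 3), (2, 3)], [(0, 0), (0, 5), (1, 0), (1, 1), (1,
      5), (3, 0), (3, 1), (3, 5)], [(0, 0), (0, 5)], [4], [(0, 0, [2]), (6, 0, [2]), (8, 5,
      [2])]⟩,
    ⟨[(0, 4), (1, 4), (3, 4)], [(2, 2), (4, 0), (4, 2), (4, 5)], [], [4], [(3, 2, [0, 5])]⟩,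
    ⟨[(0, 4), (1, 4), (3, 4), (4, 5)], [(2, 2), (3, 0), (4, 0), (4, 2), (4, 5), (5, 0), (5,
      2)], [(0, 2)], [3], [(3, 2, [0, 5]), (6, 0, [2])]⟩]
  Ta := [((0, 1), 0, 1), ((0, 8), 0, 5), ((1, 0), 1, 0), ((1, 2), 1, 6), ((4, 3), 1, 2), ((4, 5),
    1, 3), ((6, 5), 0, 3)]
  Tb := [((0, 1, 8), 0, 1, 5), ((1, 0, 2), 1, 0, 6), ((2, 1, 3), 6, 1, 2), ((3, 2, 4), 2, 6, 1),
    ((3, 2, 5), 2, 6, 3), ((3, 2, 7), 2, 6, 4), ((3, 4, 5), 2, 1, 3), ((3, 4, 7), 2, 1, 4),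
    ((3, 5, 7), 2, 3, 4), ((4, 3, 5), 1, 2, 3), ((5, 3, 4), 3, 2, 1), ((5, 3, 6), 3, 2, 0),
    ((5, 4, 6), 3, 1, 0), ((7, 3, 8), 4, 2, 5), ((8, 0, 7), 5, 0, 4)]
  Tc := [(2, 0, 5)]
  Td := [((0, 2), (0, 1), 1), ((0, 2), (0, 8), 5), ((0, 2), (6, 5), 3), ((2, 0), (3, 2), 6), ((2,
    0), (3, 4), 1), ((2, 0), (3, 5), 3), ((2, 0), (3, 7), 4), ((2, 5), (3, 2), 6), ((2, 5),
    (3, 4), 1), ((2, 5), (3, 5), 3), ((2, 5), (3, 7), 4), ((5, 2), (8, 0), 0), ((5, 2), (8,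
    7), 4)]
  G := [[0, 0x8421818aa84412144688c24121418cec85, 0x21212442582121288294c, 0,
    0x21221a468218221228229c69c1], [0, 0, 0x24418488c644c2c56821c16881cc2, 0xcc5214cc5218c4,
    0x8a341183414311a11cec91818a48c2], [0, 0, 0x21212442582121288294c, 0,
    0x22a422122122ac692221a48c1], [0, 0, 0x822422c184422a4c162268488c14a,
    0x885244c2c88c244c2c581, 0xa124a124988a428a223cc8834289229cc961]]

noncomputable def n1733 : Ent := ⟨e1733, noF, [], [], []⟩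

def c1733 : PLift (Cov.check n1733.C.D v1733 = true) := ⟨by decide +kernel⟩

def b1733 : PLift (entF (fidx ts) 400 1733 n1733 = true) := ⟨by decide +kernel⟩

theorem g1733 : GoodF (fidx ts) 400 1733 := GoodF.ofV v1733 n1733 c1733.down b1733.down

/-- 4576945:1460/2 -/
noncomputable def e1734 : SCfg where
  D := {
    a := 7
    L := 10
    kp := 7
    inn := [(0, 1), (0, 2), (0, 3), (0, 4), (1, 0), (1, 2), (1, 4), (2, 0), (2, 1), (2, 3), (3, 0), (3,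
      2), (3, 4), (4, 0), (4, 1), (4, 3), (4, 5), (4, 6), (5, 4), (5, 6), (6, 4), (6, 5)]
    mix := [(1, 0), (1, 1), (2, 1), (2, 2), (2, 3), (2, 4), (3, 4), (3, 5), (3, 6), (4, 0), (4, 6), (4,
      7), (4, 8), (5, 3), (5, 7), (6, 3), (6, 6), (6, 9)]
    cl := [2, 0, 5, 1, 0, 4, 3, 3, 6, 7]
    chq := [(2, 3), (2, 4), (3, 2), (4, 2)]
    rng := [(0, 1), (0, 8), (1, 0), (1, 2), (2, 1), (2, 3), (3, 2), (3, 4), (3, 7), (3, 9), (4, 3), (4,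
      5), (5, 4), (5, 6), (6, 5), (6, 9), (7, 3), (7, 8), (8, 0), (8, 7), (9, 3), (9, 6)]
    lev := [] }
  links := [[1, 2, 3, 4], [2, 0, 4, 7, 8], [3, 0, 1, 8, 9, 10, 11], [4, 0, 2, 11, 12, 13], [7, 1, 0, 3,
    13, 6, 5, 14, 15], [14, 4, 6, 10], [10, 5, 4, 13, 16]]
  P := {
    a := 7
    N := 17
    nb := [30, 405, 3851, 14357, 57579, 17488, 74800, 33042, 646, 1284, 84580, 5132, 10248, 69720,
      33840, 16528, 9280]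
    tri := [(0, 1, 2), (0, 1, 4), (0, 2, 3), (0, 3, 4), (1, 2, 8), (1, 4, 7), (1, 7, 8), (2, 3, 11),
      (2, 8, 9), (2, 9, 10), (2, 10, 11), (3, 4, 13), (3, 11, 12), (3, 12, 13), (4, 5, 6), (4, 5,
      14), (4, 6, 13), (4, 7, 15), (4, 14, 15), (5, 6, 10), (5, 10, 14), (6, 10, 16), (6, 13, 16)]
    fin := [0, 0, 2, 0, 4, 5, 5, 0, 2, 9, 5, 2, 12, 4, 4, 15, 16]
    chd := [(0, 4), (0, 12)]
    steps := [(0, 1), (0, 3), (0, 7), (2, 8), (2, 11), (4, 13), (4, 14), (5, 6), (5, 10)] }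
  rep := [2, 5, 0, 4, 12, 9, 15, 16]

noncomputable def v1734 : Cov.CovD where
  P := 3
  N := 5
  pl := [2, 3, 8, 9]
  lev := [⟨[], [], [], [], []⟩,
    ⟨[], [(0, 0), (0, 2)], [(0, 2)], [], [(0, 2, [3, 4]), (1, 0, [])]⟩,
    ⟨[(0, 1)], [(0, 0), (1, 0), (1, 2)], [(0, 0)], [1, 5], [(1, 0, []), (4, 0, [])]⟩,
    ⟨[(0, 1), (0, 2), (1, 2)], [(0, 0), (0, 3), (0, 4), (2, 0), (2, 3), (2, 4)], [(0, 3),
      (0, 4), (3, 4)], [], [(4, 0, []), (5, 4, [2]), (6, 3, [2])]⟩,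
    ⟨[(0, 1), (0, 2), (0, 3), (1, 2), (1, 3), (2, 3)], [(0, 2), (0, 3), (1, 0), (1, 2), (1,
      3), (3, 0), (3, 2), (3, 3), (3, 4)], [(2, 3), (3, 3)], [6], [(0, 2, [3, 4]), (6, 3,
      [2]), (7, 3, [2])]⟩,
    ⟨[(0, 4), (1, 4), (3, 4)], [(4, 2), (4, 3)], [], [1], [(7, 3, [2])]⟩,
    ⟨[(0, 4), (1, 4), (3, 4), (4, 5)], [(3, 3), (4, 2), (4, 3), (5, 3)], [], [1, 7], [(6,
      3, [2])]⟩]
  Ta := [((1, 0), 0, 2), ((1, 2), 0, 5), ((4, 3), 0, 1), ((4, 5), 0, 4), ((6, 5), 3, 4), ((6, 9),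
    3, 7), ((7, 3), 3, 1), ((7, 8), 3, 6)]
  Tb := [((0, 1, 8), 2, 0, 6), ((1, 0, 2), 0, 2, 5), ((2, 1, 3), 5, 0, 1), ((3, 2, 4), 1, 5, 0),
    ((3, 2, 7), 1, 5, 3), ((3, 2, 9), 1, 5, 7), ((3, 4, 7), 1, 0, 3), ((3, 4, 9), 1, 0, 7),
    ((3, 7, 9), 1, 3, 7), ((4, 3, 5), 0, 1, 4), ((5, 4, 6), 4, 0, 3), ((6, 5, 9), 3, 4, 7),
    ((7, 3, 8), 3, 1, 6), ((8, 0, 7), 6, 2, 3), ((9, 3, 6), 7, 1, 3)]
  Tc := [(2, 3, 4)]
  Td := [((2, 3), (0, 1), 0), ((2, 3), (0, 8), 6), ((2, 4), (0, 1), 0), ((2, 4), (0, 8), 6), ((3,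
    2), (6, 5), 4), ((3, 2), (6, 9), 7), ((3, 2), (7, 3), 1), ((3, 2), (7, 8), 6), ((4, 2),
    (5, 4), 0), ((4, 2), (5, 6), 3)]
  G := [[0, 0, 0x1454158d161c291d8a19481c2c, 0xd4124d4d8928cd842d842cd1824c5,
    0xd4543444413c82419841d582fc2c184c114994c2a], [0, 0, 0x589151e1c121c51c1c1462,
    0x1459448cd245818948cd28c1, 0x949434184141454b418141edc94848a2], [0,
    0x48426842ca428e8d228ce292cc1, 0, 0x1412d412cd842d842c5d4c492d482c49,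
    0xc15494418c1589cc2d42491251298c8487ec83], [0, 0xc2124282c2d2c4282c28c1, 0,
    0x9448c529442c58825848c92cc1, 0x94c1341484c245c145354c4c1ba48588482d]]

noncomputable def n1734 : Ent := ⟨e1734, noF, [], [], [(12, 16, [1580044410770988437309982408355971841652082177953823432505696210945, 0])]⟩

def c1734 : PLift (Cov.check n1734.C.D v1734 = true) := ⟨by decide +kernel⟩

def b1734 : PLift (entF (fidx ts) 400 1734 n1734 = true) := ⟨by decide +kernel⟩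

theorem g1734 : GoodF (fidx ts) 400 1734 := GoodF.ofV v1734 n1734 c1734.down b1734.down

/-- 4576945:1460/4 -/
noncomputable def e1735 : SCfg where
  D := {
    a := 7
    L := 10
    kp := 7
    inn := [(0, 1), (0, 2), (0, 3), (0, 4), (1, 0), (1, 2), (1, 4), (2, 0), (2, 1), (2, 3), (3, 0), (3,
      2), (3, 4), (4, 0), (4, 1), (4, 3), (4, 5), (4, 6), (5, 4), (5, 6), (6, 4), (6, 5)]
    mix := [(1, 0), (1, 1), (2, 1), (2, 2), (2, 3), (2, 4), (3, 4), (3, 5), (3, 6), (4, 0), (4, 6), (4,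
      7), (4, 8), (5, 7), (5, 9), (6, 5), (6, 6), (6, 9)]
    cl := [0, 1, 6, 7, 1, 2, 0, 3, 5, 4]
    chq := [(2, 3), (2, 5), (3, 2), (5, 2)]
    rng := [(0, 1), (0, 8), (1, 0), (1, 2), (2, 1), (2, 3), (3, 2), (3, 4), (4, 3), (4, 5), (5, 4), (5,
      6), (5, 9), (6, 5), (7, 8), (7, 9), (8, 0), (8, 7), (9, 5), (9, 7)]
    lev := [] }
  links := [[1, 2, 3, 4], [2, 0, 4, 7, 8], [3, 0, 1, 8, 9, 10, 11], [4, 0, 2, 11, 12, 13], [7, 1, 0, 3,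
    13, 6, 5, 14, 15], [14, 4, 6, 16], [16, 5, 4, 13, 12]]
  P := {
    a := 7
    N := 17
    nb := [30, 405, 3851, 14357, 57579, 82000, 77872, 33042, 646, 1284, 2564, 5132, 75848, 4184,
      98352, 16528, 20576]
    tri := [(0, 1, 2), (0, 1, 4), (0, 2, 3), (0, 3, 4), (1, 2, 8), (1, 4, 7), (1, 7, 8), (2, 3, 11),
      (2, 8, 9), (2, 9, 10), (2, 10, 11), (3, 4, 13), (3, 11, 12), (3, 12, 13), (4, 5, 6), (4, 5,
      14), (4, 6, 13), (4, 7, 15), (4, 14, 15), (5, 6, 16), (5, 14, 16), (6, 12, 13), (6, 12, 16)]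
    fin := [0, 0, 2, 0, 4, 4, 4, 0, 2, 9, 10, 2, 4, 0, 14, 15, 16]
    chd := [(4, 14), (4, 15)]
    steps := [(0, 1), (0, 3), (0, 7), (0, 13), (2, 8), (2, 11), (4, 5), (4, 6), (4, 12)] }
  rep := [0, 2, 4, 14, 16, 15, 9, 10]

noncomputable def v1735 : Cov.CovD where
  P := 3
  N := 5
  pl := [2, 3, 9]
  lev := [⟨[], [], [], [], []⟩,
    ⟨[], [(0, 0), (0, 1)], [(0, 1)], [], [(0, 0, []), (1, 1, [])]⟩,
    ⟨[(0, 1)], [(0, 1), (1, 0), (1, 1)], [(1, 1)], [6, 7], [(1, 1, []), (4, 1, [])]⟩,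
    ⟨[(0, 1), (0, 2), (1, 2)], [(0, 0), (0, 1), (0, 2), (2, 0), (2, 1), (2, 2)], [(0, 1),
      (0, 2), (1, 2)], [], [(4, 1, []), (5, 2, [3, 5]), (6, 0, [])]⟩,
    ⟨[(0, 1), (0, 2), (0, 3), (1, 2), (1, 3), (2, 3)], [(0, 0), (0, 3), (0, 5), (1, 0), (1,
      1), (1, 3), (1, 5), (3, 0), (3, 1), (3, 2), (3, 3), (3, 5)], [(0, 0), (0, 3), (0, 5),
      (3, 5)], [], [(0, 0, []), (6, 0, []), (7, 3, [2]), (8, 5, [2])]⟩,
    ⟨[(0, 4), (1, 4), (3, 4)], [(4, 0), (4, 3), (4, 5)], [], [4], [(7, 3, [2])]⟩,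
    ⟨[(0, 4), (1, 4), (3, 4), (4, 5)], [(3, 0), (3, 2), (4, 0), (4, 2), (4, 3), (4, 5), (5,
      0), (5, 2), (5, 3)], [(0, 2)], [4], [(5, 2, [3, 5]), (6, 0, [])]⟩]
  Ta := [((0, 1), 0, 1), ((0, 8), 0, 5), ((1, 0), 1, 0), ((1, 2), 1, 6), ((4, 3), 1, 7), ((4, 5),
    1, 2), ((6, 5), 0, 2)]
  Tb := [((0, 1, 8), 0, 1, 5), ((1, 0, 2), 1, 0, 6), ((2, 1, 3), 6, 1, 7), ((3, 2, 4), 7, 6, 1),
    ((4, 3, 5), 1, 7, 2), ((5, 4, 6), 2, 1, 0), ((5, 4, 9), 2, 1, 4), ((5, 6, 9), 2, 0, 4),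
    ((7, 8, 9), 3, 5, 4), ((8, 0, 7), 5, 0, 3), ((9, 5, 7), 4, 2, 3)]
  Tc := [(2, 3, 5)]
  Td := [((2, 3), (5, 4), 1), ((2, 3), (5, 6), 0), ((2, 3), (5, 9), 4), ((2, 5), (5, 4), 1), ((2,
    5), (5, 6), 0), ((2, 5), (5, 9), 4), ((3, 2), (7, 8), 5), ((3, 2), (7, 9), 4), ((5, 2),
    (8, 0), 0), ((5, 2), (8, 7), 3)]
  G := [[0, 0x84cd2484cd2884cd28e81, 0, 0, 0x82ab4282ab4882ab48d81], [0, 0, 0,
    0xc2289228c228d41, 0x82ab4182ab4182ab48d82], [0, 0, 0xa1c164c1461c1aca1c16618cdc184892,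
    0, 0x82ab4282ab4282ab48d81], [0, 0, 0xa1616c18c61c1a861a161e8dc148461, 0xc224c228c228d84,
    0x82ab4882ab4882ab48d21]]

noncomputable def n1735 : Ent := ⟨e1735, noF, [], [], [(10, 16, [1580044410770988437309982408355971841652082177953823432505696210945, 0])]⟩

def c1735 : PLift (Cov.check n1735.C.D v1735 = true) := ⟨by decide +kernel⟩

def b1735 : PLift (entF (fidx ts) 400 1735 n1735 = true) := ⟨by decide +kernel⟩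

theorem g1735 : GoodF (fidx ts) 400 1735 := GoodF.ofV v1735 n1735 c1735.down b1735.down

/-- 4576945:1460 -/
noncomputable def e1736 : SCfg where
  D := {
    a := 7
    L := 11
    kp := 8
    inn := [(0, 1), (0, 2), (0, 3), (0, 4), (1, 0), (1, 2), (1, 4), (2, 0), (2, 1), (2, 3), (3, 0), (3,
      2), (3, 4), (4, 0), (4, 1), (4, 3), (4, 5), (4, 6), (5, 4), (5, 6), (6, 4), (6, 5)]
    mix := [(1, 0), (1, 1), (2, 1), (2, 2), (2, 3), (2, 4), (3, 4), (3, 5), (3, 6), (4, 0), (4, 6), (4,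
      7), (4, 8), (5, 7), (5, 9), (6, 6), (6, 9), (6, 10)]
    cl := [2, 1, 5, 6, 1, 4, 0, 0, 7, 3, 8]
    chq := [(0, 2), (2, 0), (2, 4), (4, 2)]
    rng := [(0, 1), (0, 8), (1, 0), (1, 2), (2, 1), (2, 3), (3, 2), (3, 4), (4, 3), (4, 5), (5, 4), (5,
      6), (6, 5), (6, 10), (7, 8), (7, 9), (8, 0), (8, 7), (9, 7), (9, 10), (10, 6), (10, 9)]
    lev := [] }
  links := [[1, 2, 3, 4], [2, 0, 4, 7, 8], [3, 0, 1, 8, 9, 10, 11], [4, 0, 2, 11, 12, 13], [7, 1, 0, 3,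
    13, 6, 5, 14, 15], [14, 4, 6, 16], [16, 5, 4, 13, 17]]
  P := {
    a := 7
    N := 18
    nb := [30, 405, 3851, 14357, 57579, 82000, 204848, 33042, 646, 1284, 2564, 5132, 10248, 135256,
      98352, 16528, 147552, 73792]
    tri := [(0, 1, 2), (0, 1, 4), (0, 2, 3), (0, 3, 4), (1, 2, 8), (1, 4, 7), (1, 7, 8), (2, 3, 11),
      (2, 8, 9), (2, 9, 10), (2, 10, 11), (3, 4, 13), (3, 11, 12), (3, 12, 13), (4, 5, 6), (4, 5,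
      14), (4, 6, 13), (4, 7, 15), (4, 14, 15), (5, 6, 16), (5, 14, 16), (6, 13, 17), (6, 16, 17)]
    fin := [0, 0, 2, 0, 0, 5, 5, 0, 2, 9, 10, 2, 12, 5, 5, 15, 16, 17]
    chd := [(0, 5), (0, 12)]
    steps := [(0, 1), (0, 3), (0, 4), (0, 7), (2, 8), (2, 11), (5, 6), (5, 13), (5, 14)] }
  rep := [5, 2, 0, 16, 12, 9, 10, 15, 17]

noncomputable def v1736 : Cov.CovD where
  P := 3
  N := 6
  pl := [2, 3, 8, 9, 10]
  lev := [⟨[], [], [], [], []⟩,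
    ⟨[], [(0, 1), (0, 2)], [(1, 2)], [], [(0, 2, [0, 4]), (1, 1, [])]⟩,
    ⟨[(0, 1)], [(0, 1), (1, 1), (1, 2)], [(1, 1)], [5, 6], [(1, 1, []), (4, 1, [])]⟩,
    ⟨[(0, 1), (0, 2), (1, 2)], [(0, 0), (0, 1), (0, 4), (2, 0), (2, 1), (2, 4)], [(0, 1),
      (0, 4), (1, 4)], [], [(4, 1, []), (5, 4, [2]), (6, 0, [2])]⟩,
    ⟨[(0, 1), (0, 2), (0, 3), (1, 2), (1, 3), (2, 3)], [(0, 0), (0, 2), (1, 0), (1, 1), (1,
      2), (3, 0), (3, 1), (3, 2), (3, 4)], [(0, 0), (0, 2)], [7], [(0, 2, [0, 4]), (6, 0,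
      [2]), (7, 0, [2])]⟩,
    ⟨[(0, 4), (1, 4), (3, 4)], [(4, 0), (4, 2)], [], [3], [(7, 0, [2])]⟩,
    ⟨[(0, 4), (1, 4), (3, 4), (4, 5)], [(3, 0), (4, 0), (4, 2), (5, 0)], [], [3, 8], [(6,
      0, [2])]⟩]
  Ta := [((1, 0), 1, 2), ((1, 2), 1, 5), ((4, 3), 1, 6), ((4, 5), 1, 4), ((6, 5), 0, 4), ((6,
    10), 0, 8), ((7, 8), 0, 7), ((7, 9), 0, 3)]
  Tb := [((0, 1, 8), 2, 1, 7), ((1, 0, 2), 1, 2, 5), ((2, 1, 3), 5, 1, 6), ((3, 2, 4), 6, 5, 1),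
    ((4, 3, 5), 1, 6, 4), ((5, 4, 6), 4, 1, 0), ((6, 5, 10), 0, 4, 8), ((7, 8, 9), 0, 7, 3),
    ((8, 0, 7), 7, 2, 0), ((9, 7, 10), 3, 0, 8), ((10, 6, 9), 8, 0, 3)]
  Tc := [(2, 0, 4)]
  Td := [((0, 2), (6, 5), 4), ((0, 2), (6, 10), 8), ((0, 2), (7, 8), 7), ((0, 2), (7, 9), 3),
    ((2, 0), (0, 1), 1), ((2, 0), (0, 8), 7), ((2, 4), (0, 1), 1), ((2, 4), (0, 8), 7), ((4,
    2), (5, 4), 1), ((4, 2), (5, 6), 0)]
  G := [[0, 0xe14222e1c2c142ee182c182222184cee122caec1, 0x1168e12311611ac2511a8e1238c4,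
    0x61e1c2612c3c258182818252c3e1c28d1, 0x81821161e1a41e1e1a4412e12e1a1cec95], [0,
    0x4142e142c142e1e1a1c2e18222422485ae122cee1c, 0x11611c6141218ec12c3e1c1e1c6ac1c92, 0,
    0xa14168692c41e1a45a1841e1e1a4448e18ccb1], [0, 0x93c42416cb1ac216a821dc253693acaec1,
    0x11a4842d231168e12311611ac2d48, 0x7161a6c2416a93ac2ca693ac29c1,
    0x71616ca411c168a6c2335c8a6c23c1c], [0, 0x16a423561a6c2d1c2536396c6e59a828c1,
    0xe1e16111a11664511a116681e1e1618d8, 0, 0x16c241ba4536c1aac176218ea4d1a6848a1]]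

noncomputable def n1736 : Ent := ⟨e1736, noF, [], [], [(9, 16, [7334685537875745012586738086077695515070955365108989538292687700770817, 0]), (10, 16, [7334685537875745012586738086077695515070955365108989538292687700779009, 0]), (12, 17, [6903326391201334775872065844685381424292761054348340378595029936795649, 0])]⟩

def c1736 : PLift (Cov.check n1736.C.D v1736 = true) := ⟨by decide +kernel⟩

def b1736 : PLift (entF (fidx ts) 400 1736 n1736 = true) := ⟨by decide +kernel⟩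

theorem g1736 : GoodF (fidx ts) 400 1736 := GoodF.ofV v1736 n1736 c1736.down b1736.down

/-- 4576945:1462/2 -/
noncomputable def e1737 : SCfg where
  D := {
    a := 7
    L := 9
    kp := 6
    inn := [(0, 1), (0, 2), (0, 3), (0, 4), (1, 0), (1, 2), (1, 4), (2, 0), (2, 1), (2, 3), (3, 0), (3,
      2), (3, 4), (4, 0), (4, 1), (4, 3), (4, 5), (4, 6), (5, 4), (5, 6), (6, 4), (6, 5)]
    mix := [(1, 0), (1, 1), (2, 1), (2, 2), (2, 3), (2, 4), (3, 4), (3, 5), (3, 6), (4, 0), (4, 6), (4,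
      7), (4, 8), (5, 3), (5, 8), (6, 2), (6, 3), (6, 7)]
    cl := [0, 1, 4, 3, 1, 6, 0, 2, 5]
    chq := [(0, 3), (0, 4), (3, 0), (4, 0)]
    rng := [(0, 1), (0, 8), (1, 0), (1, 2), (2, 1), (2, 3), (2, 7), (3, 2), (3, 4), (3, 8), (4, 3), (4,
      5), (5, 4), (5, 6), (6, 5), (6, 7), (7, 2), (7, 6), (8, 0), (8, 3)]
    lev := [] }
  links := [[1, 2, 3, 4], [2, 0, 4, 7, 8], [3, 0, 1, 8, 9, 10, 11], [4, 0, 2, 11, 12, 13], [7, 1, 0, 3,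
    13, 14, 6, 5, 15], [15, 4, 6, 10], [10, 5, 4, 14, 9]]
  P := {
    a := 7
    N := 16
    nb := [30, 405, 3851, 14357, 57579, 33872, 17968, 33042, 646, 17732, 35428, 5132, 10248, 20504,
      8784, 1200]
    tri := [(0, 1, 2), (0, 1, 4), (0, 2, 3), (0, 3, 4), (1, 2, 8), (1, 4, 7), (1, 7, 8), (2, 3, 11),
      (2, 8, 9), (2, 9, 10), (2, 10, 11), (3, 4, 13), (3, 11, 12), (3, 12, 13), (4, 5, 6), (4, 5,
      15), (4, 6, 14), (4, 7, 15), (4, 13, 14), (5, 6, 10), (5, 10, 15), (6, 9, 10), (6, 9, 14)]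
    fin := [0, 0, 2, 0, 0, 0, 0, 0, 2, 9, 10, 2, 12, 0, 14, 15]
    chd := [(0, 9), (0, 10)]
    steps := [(0, 1), (0, 3), (0, 4), (0, 5), (0, 6), (0, 7), (0, 13), (2, 8), (2, 11)] }
  rep := [0, 2, 14, 10, 9, 15, 12]

noncomputable def v1737 : Cov.CovD where
  P := 3
  N := 4
  pl := [5, 7, 8]
  lev := [⟨[], [], [], [], []⟩,
    ⟨[], [(0, 0), (0, 1)], [(0, 1)], [], [(0, 0, [3, 4]), (1, 1, [])]⟩,
    ⟨[(0, 1)], [(0, 1), (0, 3), (0, 4), (1, 0), (1, 1), (1, 3), (1, 4)], [(1, 1), (1, 3),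
      (1, 4), (3, 4)], [], [(1, 1, []), (2, 4, [0]), (3, 3, [0]), (4, 1, [])]⟩,
    ⟨[(0, 1), (0, 2), (1, 2)], [(0, 0), (0, 1), (2, 0), (2, 1), (2, 3), (2, 4)], [(0, 1)],
      [6], [(4, 1, []), (6, 0, [3, 4])]⟩,
    ⟨[(0, 1), (0, 2), (0, 3), (1, 2), (1, 3), (2, 3)], [(0, 0), (1, 0), (1, 1), (3, 0), (3,
      1)], [(0, 0)], [2, 5], [(0, 0, [3, 4]), (6, 0, [3, 4])]⟩,
    ⟨[(0, 4), (1, 4), (3, 4)], [(2, 3), (4, 0), (4, 3)], [], [5], [(3, 3, [0])]⟩,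
    ⟨[(0, 4), (1, 4), (3, 4), (4, 5)], [(2, 3), (2, 4), (4, 0), (4, 3), (4, 4), (5, 3), (5,
      4)], [(3, 4)], [2], [(2, 4, [0]), (3, 3, [0])]⟩]
  Ta := [((0, 1), 0, 1), ((0, 8), 0, 5), ((1, 0), 1, 0), ((1, 2), 1, 4), ((4, 3), 1, 3), ((4, 5),
    1, 6), ((6, 5), 0, 6), ((6, 7), 0, 2)]
  Tb := [((0, 1, 8), 0, 1, 5), ((1, 0, 2), 1, 0, 4), ((2, 1, 3), 4, 1, 3), ((2, 1, 7), 4, 1, 2),
    ((2, 3, 7), 4, 3, 2), ((3, 2, 4), 3, 4, 1), ((3, 2, 8), 3, 4, 5), ((3, 4, 8), 3, 1, 5),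
    ((4, 3, 5), 1, 3, 6), ((5, 4, 6), 6, 1, 0), ((6, 5, 7), 0, 6, 2), ((7, 2, 6), 2, 4, 0),
    ((8, 0, 3), 5, 0, 3)]
  Tc := [(0, 3, 4)]
  Td := [((0, 3), (0, 1), 1), ((0, 3), (0, 8), 5), ((0, 3), (6, 5), 6), ((0, 3), (6, 7), 2), ((0,
    4), (0, 1), 1), ((0, 4), (0, 8), 5), ((0, 4), (6, 5), 6), ((0, 4), (6, 7), 2), ((3, 0),
    (3, 2), 4), ((3, 0), (3, 4), 1), ((3, 0), (3, 8), 5), ((4, 0), (2, 1), 1), ((4, 0), (2,
    3), 3), ((4, 0), (2, 7), 2)]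
  G := [[0, 0x1811c1111c61114c418144e1112c1211cce21, 0, 0x4114c241812c21211c29c1,
    0x1412a19229222358e584], [0, 0, 0, 0x4114c1114451881c11112c128c9c2,
    0x812182114a1225119a21c11ac5c2], [0, 0, 0x41424e1a2c21c1, 0x413881bc21412811441c1a,
    0x12219228132c5283d821c4], [0, 0, 0x21e1621e1ac184, 0x114411881c11111c118c94241c14d2,
    0x295221295ac122278288c1a4]]

noncomputable def n1737 : Ent := ⟨e1737, noF, [], [], []⟩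

def c1737 : PLift (Cov.check n1737.C.D v1737 = true) := ⟨by decide +kernel⟩

def b1737 : PLift (entF (fidx ts) 400 1737 n1737 = true) := ⟨by decide +kernel⟩

theorem g1737 : GoodF (fidx ts) 400 1737 := GoodF.ofV v1737 n1737 c1737.down b1737.down

/-- 4576945:1462/1 -/
noncomputable def e1738 : SCfg where
  D := {
    a := 7
    L := 10
    kp := 7
    inn := [(0, 1), (0, 2), (0, 3), (0, 4), (1, 0), (1, 2), (1, 4), (2, 0), (2, 1), (2, 3), (3, 0), (3,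
      2), (3, 4), (4, 0), (4, 1), (4, 3), (4, 5), (4, 6), (5, 4), (5, 6), (6, 4), (6, 5)]
    mix := [(1, 0), (1, 1), (2, 1), (2, 2), (2, 3), (2, 4), (3, 4), (3, 5), (3, 6), (4, 0), (4, 6), (4,
      7), (4, 8), (5, 8), (5, 9), (6, 2), (6, 7), (6, 9)]
    cl := [1, 0, 2, 7, 0, 6, 3, 4, 3, 5]
    chq := [(1, 6), (2, 3), (3, 2), (6, 1)]
    rng := [(0, 1), (0, 8), (1, 0), (1, 2), (2, 1), (2, 3), (2, 7), (2, 9), (3, 2), (3, 4), (4, 3), (4,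
      5), (5, 4), (5, 6), (6, 5), (6, 7), (7, 2), (7, 6), (8, 0), (8, 9), (9, 2), (9, 8)]
    lev := [] }
  links := [[1, 2, 3, 4], [2, 0, 4, 7, 8], [3, 0, 1, 8, 9, 10, 11], [4, 0, 2, 11, 12, 13], [7, 1, 0, 3,
    13, 14, 6, 5, 15], [15, 4, 6, 16], [16, 5, 4, 14, 9]]
  P := {
    a := 7
    N := 17
    nb := [30, 405, 3851, 14357, 57579, 98384, 82480, 33042, 646, 83268, 2564, 5132, 10248, 20504,
      8784, 65712, 33376]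
    tri := [(0, 1, 2), (0, 1, 4), (0, 2, 3), (0, 3, 4), (1, 2, 8), (1, 4, 7), (1, 7, 8), (2, 3, 11),
      (2, 8, 9), (2, 9, 10), (2, 10, 11), (3, 4, 13), (3, 11, 12), (3, 12, 13), (4, 5, 6), (4, 5,
      15), (4, 6, 14), (4, 7, 15), (4, 13, 14), (5, 6, 16), (5, 15, 16), (6, 9, 14), (6, 9, 16)]
    fin := [0, 0, 2, 0, 4, 5, 5, 0, 2, 5, 10, 2, 12, 4, 14, 4, 16]
    chd := [(0, 12), (5, 4)]
    steps := [(0, 1), (0, 3), (0, 7), (2, 8), (2, 11), (4, 13), (4, 15), (5, 6), (5, 9)] }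
  rep := [2, 0, 5, 4, 14, 16, 12, 10]

noncomputable def v1738 : Cov.CovD where
  P := 3
  N := 5
  pl := [3, 7, 9]
  lev := [⟨[], [], [], [], []⟩,
    ⟨[], [(0, 0), (0, 1)], [(0, 1)], [], [(0, 1, [6]), (1, 0, [])]⟩,
    ⟨[(0, 1)], [(0, 0), (0, 2), (1, 0), (1, 1), (1, 2)], [(0, 0), (0, 2)], [7], [(1, 0,
      []), (2, 2, [3]), (4, 0, [])]⟩,
    ⟨[(0, 1), (0, 2), (1, 2)], [(0, 0), (0, 3), (0, 6), (2, 0), (2, 2), (2, 3), (2, 6)],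
      [(0, 3), (0, 6), (3, 6)], [], [(4, 0, []), (5, 6, [1]), (6, 3, [2])]⟩,
    ⟨[(0, 1), (0, 2), (0, 3), (1, 2), (1, 3), (2, 3)], [(0, 1), (0, 3), (1, 0), (1, 1), (1,
      3), (3, 0), (3, 1), (3, 3), (3, 6)], [(1, 3), (3, 3)], [4], [(0, 1, [6]), (6, 3, [2]),
      (8, 3, [2])]⟩,
    ⟨[(0, 4), (1, 4), (3, 4)], [(4, 1), (4, 3)], [], [5], [(8, 3, [2])]⟩,
    ⟨[(0, 4), (1, 4), (3, 4), (4, 5)], [(2, 2), (4, 1), (4, 2), (4, 3), (5, 2), (5, 3)],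
      [], [4, 5], [(2, 2, [3])]⟩]
  Ta := [((1, 0), 0, 1), ((1, 2), 0, 2), ((4, 3), 0, 7), ((4, 5), 0, 6), ((6, 5), 3, 6), ((6, 7),
    3, 4), ((8, 0), 3, 1), ((8, 9), 3, 5)]
  Tb := [((0, 1, 8), 1, 0, 3), ((1, 0, 2), 0, 1, 2), ((2, 1, 3), 2, 0, 7), ((2, 1, 7), 2, 0, 4),
    ((2, 1, 9), 2, 0, 5), ((2, 3, 7), 2, 7, 4), ((2, 3, 9), 2, 7, 5), ((2, 7, 9), 2, 4, 5),
    ((3, 2, 4), 7, 2, 0), ((4, 3, 5), 0, 7, 6), ((5, 4, 6), 6, 0, 3), ((6, 5, 7), 3, 6, 4),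
    ((7, 2, 6), 4, 2, 3), ((8, 0, 9), 3, 1, 5), ((9, 2, 8), 5, 2, 3)]
  Tc := []
  Td := [((1, 6), (0, 1), 0), ((1, 6), (0, 8), 3), ((2, 3), (2, 1), 0), ((2, 3), (2, 3), 7), ((2,
    3), (2, 7), 4), ((2, 3), (2, 9), 5), ((3, 2), (6, 5), 6), ((3, 2), (6, 7), 4), ((3, 2),
    (8, 0), 1), ((3, 2), (8, 9), 5), ((6, 1), (5, 4), 0), ((6, 1), (5, 6), 3)]
  G := [[0, 0x52c489d61256d259ce1c2d28182c, 0xe1124e1128c8, 0x94348ce525c948ce52c856829c582cc1,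
    0x9a64ac52345a1944acf149a684d6ab4828c1], [0, 0x5248dd61256d2489de1c92818c2,
    0xe112e112c84, 0x145185e9245da12928c9d648c529d642c82824c5,
    0x2b3ea4534532a34dc28b4138b4acd29482a43], [0, 0, 0,
    0x5c3424159c121c612c856198bc285682c9c, 0x3a5484e52228241383144caf14182e84d6e94828c1], [0,
    0, 0, 0x52dc3924858712928885824d9d648c52158742c85,
    0x34123418a4b41a8bc2341a8bcb8562c912a4ea45]]

noncomputable def n1738 : Ent := ⟨e1738, noF, [], [], [(10, 16, [1580044410770988437309982408355971841652082177953823432505696227329, 0])]⟩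

def c1738 : PLift (Cov.check n1738.C.D v1738 = true) := ⟨by decide +kernel⟩

def b1738 : PLift (entF (fidx ts) 400 1738 n1738 = true) := ⟨by decide +kernel⟩

theorem g1738 : GoodF (fidx ts) 400 1738 := GoodF.ofV v1738 n1738 c1738.down b1738.down

/-- 4576945:1462/4 -/
noncomputable def e1739 : SCfg where
  D := {
    a := 7
    L := 9
    kp := 6
    inn := [(0, 1), (0, 2), (0, 3), (0, 4), (1, 0), (1, 2), (1, 4), (2, 0), (2, 1), (2, 3), (3, 0), (3,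
      2), (3, 4), (4, 0), (4, 1), (4, 3), (4, 5), (4, 6), (5, 4), (5, 6), (6, 4), (6, 5)]
    mix := [(1, 0), (1, 1), (2, 1), (2, 2), (2, 3), (2, 4), (3, 4), (3, 5), (3, 6), (4, 0), (4, 6), (4,
      7), (4, 8), (5, 2), (5, 8), (6, 2), (6, 3), (6, 7)]
    cl := [0, 1, 3, 4, 1, 6, 0, 2, 5]
    chq := [(0, 3), (0, 4), (3, 0), (4, 0)]
    rng := [(0, 1), (0, 8), (1, 0), (1, 2), (2, 1), (2, 3), (2, 8), (3, 2), (3, 4), (3, 7), (4, 3), (4,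
      5), (5, 4), (5, 6), (6, 5), (6, 7), (7, 3), (7, 6), (8, 0), (8, 2)]
    lev := [] }
  links := [[1, 2, 3, 4], [2, 0, 4, 7, 8], [3, 0, 1, 8, 9, 10, 11], [4, 0, 2, 11, 12, 13], [7, 1, 0, 3,
    13, 14, 6, 5, 15], [15, 4, 6, 9], [9, 5, 4, 14, 10]]
  P := {
    a := 7
    N := 16
    nb := [30, 405, 3851, 14357, 57579, 33360, 17968, 33042, 646, 34148, 19012, 5132, 10248, 20504,
      9296, 688]
    tri := [(0, 1, 2), (0, 1, 4), (0, 2, 3), (0, 3, 4), (1, 2, 8), (1, 4, 7), (1, 7, 8), (2, 3, 11),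
      (2, 8, 9), (2, 9, 10), (2, 10, 11), (3, 4, 13), (3, 11, 12), (3, 12, 13), (4, 5, 6), (4, 5,
      15), (4, 6, 14), (4, 7, 15), (4, 13, 14), (5, 6, 9), (5, 9, 15), (6, 9, 10), (6, 10, 14)]
    fin := [0, 0, 2, 0, 0, 0, 0, 0, 2, 9, 10, 2, 12, 0, 14, 15]
    chd := [(0, 9), (0, 10)]
    steps := [(0, 1), (0, 3), (0, 4), (0, 5), (0, 6), (0, 7), (0, 13), (2, 8), (2, 11)] }
  rep := [0, 2, 14, 9, 10, 15, 12]

noncomputable def v1739 : Cov.CovD where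
  P := 3
  N := 4
  pl := [5, 7, 8]
  lev := [⟨[], [], [], [], []⟩,
    ⟨[], [(0, 0), (0, 1)], [(0, 1)], [], [(0, 0, [3, 4]), (1, 1, [])]⟩,
    ⟨[(0, 1)], [(0, 1), (0, 3), (0, 4), (1, 0), (1, 1), (1, 3), (1, 4)], [(1, 1), (1, 3),
      (1, 4), (3, 4)], [], [(1, 1, []), (2, 3, [0]), (3, 4, [0]), (4, 1, [])]⟩,
    ⟨[(0, 1), (0, 2), (1, 2)], [(0, 0), (0, 1), (2, 0), (2, 1), (2, 3), (2, 4)], [(0, 1)],
      [6], [(4, 1, []), (6, 0, [3, 4])]⟩,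
    ⟨[(0, 1), (0, 2), (0, 3), (1, 2), (1, 3), (2, 3)], [(0, 0), (1, 0), (1, 1), (3, 0), (3,
      1)], [(0, 0)], [2, 5], [(0, 0, [3, 4]), (6, 0, [3, 4])]⟩,
    ⟨[(0, 4), (1, 4), (3, 4)], [(2, 3), (4, 0), (4, 3)], [], [5], [(2, 3, [0])]⟩,
    ⟨[(0, 4), (1, 4), (3, 4), (4, 5)], [(2, 3), (2, 4), (4, 0), (4, 3), (4, 4), (5, 3), (5,
      4)], [(3, 4)], [2], [(2, 3, [0]), (3, 4, [0])]⟩]
  Ta := [((0, 1), 0, 1), ((0, 8), 0, 5), ((1, 0), 1, 0), ((1, 2), 1, 3), ((4, 3), 1, 4), ((4, 5),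
    1, 6), ((6, 5), 0, 6), ((6, 7), 0, 2)]
  Tb := [((0, 1, 8), 0, 1, 5), ((1, 0, 2), 1, 0, 3), ((2, 1, 3), 3, 1, 4), ((2, 1, 8), 3, 1, 5),
    ((2, 3, 8), 3, 4, 5), ((3, 2, 4), 4, 3, 1), ((3, 2, 7), 4, 3, 2), ((3, 4, 7), 4, 1, 2),
    ((4, 3, 5), 1, 4, 6), ((5, 4, 6), 6, 1, 0), ((6, 5, 7), 0, 6, 2), ((7, 3, 6), 2, 4, 0),
    ((8, 0, 2), 5, 0, 3)]
  Tc := [(0, 3, 4)]
  Td := [((0, 3), (0, 1), 1), ((0, 3), (0, 8), 5), ((0, 3), (6, 5), 6), ((0, 3), (6, 7), 2), ((0,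
    4), (0, 1), 1), ((0, 4), (0, 8), 5), ((0, 4), (6, 5), 6), ((0, 4), (6, 7), 2), ((3, 0),
    (2, 1), 1), ((3, 0), (2, 3), 4), ((3, 0), (2, 8), 5), ((4, 0), (3, 2), 3), ((4, 0), (3,
    4), 1), ((4, 0), (3, 7), 2)]
  G := [[0, 0x1811c1111c61114c418144e1112c1211cce21, 0, 0x14424413898bc21c8182849,
    0x2952295232278e184], [0, 0, 0, 0x8141144141312c4d218815211c894a,
    0x1412a19222192ac5188121889a4], [0, 0, 0x8128126161ce181, 0x14414413813c21c818284c,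
    0xa35241a3522a98a1c4], [0, 0, 0x6182a486ee1e1ac141, 0x4141c11244521882c11112c118c92c,
    0x12214821511a21511ac18181a1856]]

noncomputable def n1739 : Ent := ⟨e1739, noF, [], [], []⟩

def c1739 : PLift (Cov.check n1739.C.D v1739 = true) := ⟨by decide +kernel⟩

def b1739 : PLift (entF (fidx ts) 400 1739 n1739 = true) := ⟨by decide +kernel⟩

theorem g1739 : GoodF (fidx ts) 400 1739 := GoodF.ofV v1739 n1739 c1739.down b1739.down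

/-- 4576945:1462/3 -/
noncomputable def e1740 : SCfg where
  D := {
    a := 7
    L := 10
    kp := 7
    inn := [(0, 1), (0, 2), (0, 3), (0, 4), (1, 0), (1, 2), (1, 4), (2, 0), (2, 1), (2, 3), (3, 0), (3,
      2), (3, 4), (4, 0), (4, 1), (4, 3), (4, 5), (4, 6), (5, 4), (5, 6), (6, 4), (6, 5)]
    mix := [(1, 0), (1, 1), (2, 1), (2, 2), (2, 3), (2, 4), (3, 4), (3, 5), (3, 6), (4, 0), (4, 6), (4,
      7), (4, 8), (5, 2), (5, 8), (6, 2), (6, 7), (6, 9)]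
    cl := [2, 0, 1, 6, 0, 5, 3, 4, 3, 7]
    chq := [(1, 4), (2, 5), (4, 1), (5, 2)]
    rng := [(0, 1), (0, 8), (1, 0), (1, 2), (2, 1), (2, 3), (2, 8), (2, 9), (3, 2), (3, 4), (4, 3), (4,
      5), (5, 4), (5, 6), (6, 5), (6, 7), (7, 6), (7, 9), (8, 0), (8, 2), (9, 2), (9, 7)]
    lev := [] }
  links := [[1, 2, 3, 4], [2, 0, 4, 7, 8], [3, 0, 1, 8, 9, 10, 11], [4, 0, 2, 11, 12, 13], [7, 1, 0, 3,
    13, 14, 6, 5, 15], [15, 4, 6, 9], [9, 5, 4, 14, 16]]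
  P := {
    a := 7
    N := 17
    nb := [30, 405, 3851, 14357, 57579, 33360, 82480, 33042, 646, 99684, 2564, 5132, 10248, 20504,
      73808, 688, 16960]
    tri := [(0, 1, 2), (0, 1, 4), (0, 2, 3), (0, 3, 4), (1, 2, 8), (1, 4, 7), (1, 7, 8), (2, 3, 11),
      (2, 8, 9), (2, 9, 10), (2, 10, 11), (3, 4, 13), (3, 11, 12), (3, 12, 13), (4, 5, 6), (4, 5,
      15), (4, 6, 14), (4, 7, 15), (4, 13, 14), (5, 6, 9), (5, 9, 15), (6, 9, 16), (6, 14, 16)]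
    fin := [0, 0, 2, 0, 4, 5, 5, 0, 2, 5, 10, 2, 12, 4, 14, 4, 16]
    chd := [(0, 12), (5, 14)]
    steps := [(0, 1), (0, 3), (0, 7), (2, 8), (2, 11), (4, 13), (4, 15), (5, 6), (5, 9)] }
  rep := [2, 5, 0, 4, 14, 12, 10, 16]

noncomputable def v1740 : Cov.CovD where
  P := 3
  N := 5
  pl := [3, 9]
  lev := [⟨[], [], [], [], []⟩,
    ⟨[], [(0, 0), (0, 2)], [(0, 2)], [], [(0, 2, [5]), (1, 0, [])]⟩,
    ⟨[(0, 1)], [(0, 0), (0, 1), (1, 0), (1, 1), (1, 2)], [(0, 0), (0, 1)], [6], [(1, 0,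
      []), (2, 1, [4]), (4, 0, [])]⟩,
    ⟨[(0, 1), (0, 2), (1, 2)], [(0, 0), (0, 3), (0, 5), (2, 0), (2, 1), (2, 3), (2, 5)],
      [(0, 3), (0, 5), (3, 5)], [], [(4, 0, []), (5, 5, [2]), (6, 3, [])]⟩,
    ⟨[(0, 1), (0, 2), (0, 3), (1, 2), (1, 3), (2, 3)], [(0, 2), (0, 3), (0, 4), (1, 0), (1,
      2), (1, 3), (1, 4), (3, 0), (3, 2), (3, 3), (3, 4), (3, 5)], [(2, 3), (2, 4), (3, 3),
      (3, 4)], [], [(0, 2, [5]), (6, 3, []), (7, 4, [1]), (8, 3, [])]⟩,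
    ⟨[(0, 4), (1, 4), (3, 4)], [(2, 1), (4, 1), (4, 2), (4, 3), (4, 4)], [(1, 3)], [], [(2,
      1, [4]), (8, 3, [])]⟩,
    ⟨[(0, 4), (1, 4), (3, 4), (4, 5)], [(2, 1), (4, 1), (4, 2), (4, 3), (4, 4), (5, 1), (5,
      3), (5, 4)], [(1, 4)], [7], [(2, 1, [4]), (7, 4, [1])]⟩]
  Ta := [((1, 0), 0, 2), ((1, 2), 0, 1), ((4, 3), 0, 6), ((4, 5), 0, 5), ((6, 5), 3, 5), ((6, 7),
    3, 4), ((8, 0), 3, 2), ((8, 2), 3, 1)]
  Tb := [((0, 1, 8), 2, 0, 3), ((1, 0, 2), 0, 2, 1), ((2, 1, 3), 1, 0, 6), ((2, 1, 8), 1, 0, 3),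
    ((2, 1, 9), 1, 0, 7), ((2, 3, 8), 1, 6, 3), ((2, 3, 9), 1, 6, 7), ((2, 8, 9), 1, 3, 7),
    ((3, 2, 4), 6, 1, 0), ((4, 3, 5), 0, 6, 5), ((5, 4, 6), 5, 0, 3), ((6, 5, 7), 3, 5, 4),
    ((7, 6, 9), 4, 3, 7), ((8, 0, 2), 3, 2, 1), ((9, 2, 7), 7, 1, 4)]
  Tc := []
  Td := [((1, 4), (2, 1), 0), ((1, 4), (2, 3), 6), ((1, 4), (2, 8), 3), ((1, 4), (2, 9), 7), ((2,
    5), (0, 1), 0), ((2, 5), (0, 8), 3), ((4, 1), (7, 6), 3), ((4, 1), (7, 9), 7), ((5, 2),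
    (5, 4), 0), ((5, 2), (5, 6), 3)]
  G := [[0, 0xe2124ac12c41, 0xd12194521c84, 0x589589524849c94592841c5428945824cd,
    0x1cc241c521891c966c81], [0, 0xeea12eec12c48, 0xd121d121c89151c19451c1c26,
    0x494d59c5248588d11cd92845c9428588d824cd, 0xd55284c15892581c183caddc24d424c85], [0, 0, 0,
    0x49c121412c58c4258942c51c5821c548c92c49, 0xd424d4218958c66c81], [0, 0, 0,
    0x494d59c5245c94214582c99c511cd9288858245c, 0x581411c12c2d424dcc28cc1845429c54896ca9]]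

noncomputable def n1740 : Ent := ⟨e1740, noF, [], [], [(10, 16, [1580044410770988437309982408355971841652082177953823432505696235521, 0])]⟩

def c1740 : PLift (Cov.check n1740.C.D v1740 = true) := ⟨by decide +kernel⟩

def b1740 : PLift (entF (fidx ts) 400 1740 n1740 = true) := ⟨by decide +kernel⟩

theorem g1740 : GoodF (fidx ts) 400 1740 := GoodF.ofV v1740 n1740 c1740.down b1740.down

/-- 4576945:1462/5 -/
noncomputable def e1741 : SCfg where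
  D := {
    a := 7
    L := 10
    kp := 7
    inn := [(0, 1), (0, 2), (0, 3), (0, 4), (1, 0), (1, 2), (1, 4), (2, 0), (2, 1), (2, 3), (3, 0), (3,
      2), (3, 4), (4, 0), (4, 1), (4, 3), (4, 5), (4, 6), (5, 4), (5, 6), (6, 4), (6, 5)]
    mix := [(1, 0), (1, 1), (2, 1), (2, 2), (2, 3), (2, 4), (3, 4), (3, 5), (3, 6), (4, 0), (4, 6), (4,
      7), (4, 8), (5, 8), (5, 9), (6, 3), (6, 7), (6, 9)]
    cl := [1, 0, 7, 2, 0, 6, 3, 4, 3, 5]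
    chq := [(1, 6), (2, 3), (3, 2), (6, 1)]
    rng := [(0, 1), (0, 8), (1, 0), (1, 2), (2, 1), (2, 3), (3, 2), (3, 4), (3, 7), (3, 9), (4, 3), (4,
      5), (5, 4), (5, 6), (6, 5), (6, 7), (7, 3), (7, 6), (8, 0), (8, 9), (9, 3), (9, 8)]
    lev := [] }
  links := [[1, 2, 3, 4], [2, 0, 4, 7, 8], [3, 0, 1, 8, 9, 10, 11], [4, 0, 2, 11, 12, 13], [7, 1, 0, 3,
    13, 14, 6, 5, 15], [15, 4, 6, 16], [16, 5, 4, 14, 10]]
  P := {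
    a := 7
    N := 17
    nb := [30, 405, 3851, 14357, 57579, 98384, 82992, 33042, 646, 1284, 84548, 5132, 10248, 20504,
      9296, 65712, 33888]
    tri := [(0, 1, 2), (0, 1, 4), (0, 2, 3), (0, 3, 4), (1, 2, 8), (1, 4, 7), (1, 7, 8), (2, 3, 11),
      (2, 8, 9), (2, 9, 10), (2, 10, 11), (3, 4, 13), (3, 11, 12), (3, 12, 13), (4, 5, 6), (4, 5,
      15), (4, 6, 14), (4, 7, 15), (4, 13, 14), (5, 6, 16), (5, 15, 16), (6, 10, 14), (6, 10, 16)]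
    fin := [0, 0, 2, 0, 4, 5, 5, 0, 2, 9, 5, 2, 12, 4, 14, 4, 16]
    chd := [(0, 12), (5, 4)]
    steps := [(0, 1), (0, 3), (0, 7), (2, 8), (2, 11), (4, 13), (4, 15), (5, 6), (5, 10)] }
  rep := [2, 0, 5, 4, 14, 16, 12, 9]

noncomputable def v1741 : Cov.CovD where
  P := 3
  N := 5
  pl := [2, 7, 9]
  lev := [⟨[], [], [], [], []⟩,
    ⟨[], [(0, 0), (0, 1)], [(0, 1)], [], [(0, 1, [6]), (1, 0, [])]⟩,
    ⟨[(0, 1)], [(0, 0), (0, 2), (1, 0), (1, 1), (1, 2)], [(0, 0), (0, 2)], [7], [(1, 0,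
      []), (3, 2, [3]), (4, 0, [])]⟩,
    ⟨[(0, 1), (0, 2), (1, 2)], [(0, 0), (0, 3), (0, 6), (2, 0), (2, 2), (2, 3), (2, 6)],
      [(0, 3), (0, 6), (3, 6)], [], [(4, 0, []), (5, 6, [1]), (6, 3, [2])]⟩,
    ⟨[(0, 1), (0, 2), (0, 3), (1, 2), (1, 3), (2, 3)], [(0, 1), (0, 3), (1, 0), (1, 1), (1,
      3), (3, 0), (3, 1), (3, 3), (3, 6)], [(1, 3), (3, 3)], [4], [(0, 1, [6]), (6, 3, [2]),
      (8, 3, [2])]⟩,
    ⟨[(0, 4), (1, 4), (3, 4)], [(4, 1), (4, 3)], [], [5], [(8, 3, [2])]⟩,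
    ⟨[(0, 4), (1, 4), (3, 4), (4, 5)], [(2, 2), (4, 1), (4, 2), (4, 3), (5, 2), (5, 3)],
      [], [4, 5], [(3, 2, [3])]⟩]
  Ta := [((1, 0), 0, 1), ((1, 2), 0, 7), ((4, 3), 0, 2), ((4, 5), 0, 6), ((6, 5), 3, 6), ((6, 7),
    3, 4), ((8, 0), 3, 1), ((8, 9), 3, 5)]
  Tb := [((0, 1, 8), 1, 0, 3), ((1, 0, 2), 0, 1, 7), ((2, 1, 3), 7, 0, 2), ((3, 2, 4), 2, 7, 0),
    ((3, 2, 7), 2, 7, 4), ((3, 2, 9), 2, 7, 5), ((3, 4, 7), 2, 0, 4), ((3, 4, 9), 2, 0, 5),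
    ((3, 7, 9), 2, 4, 5), ((4, 3, 5), 0, 2, 6), ((5, 4, 6), 6, 0, 3), ((6, 5, 7), 3, 6, 4),
    ((7, 3, 6), 4, 2, 3), ((8, 0, 9), 3, 1, 5), ((9, 3, 8), 5, 2, 3)]
  Tc := []
  Td := [((1, 6), (0, 1), 0), ((1, 6), (0, 8), 3), ((2, 3), (3, 2), 7), ((2, 3), (3, 4), 0), ((2,
    3), (3, 7), 4), ((2, 3), (3, 9), 5), ((3, 2), (6, 5), 6), ((3, 2), (6, 7), 4), ((3, 2),
    (8, 0), 1), ((3, 2), (8, 9), 5), ((6, 1), (5, 4), 0), ((6, 1), (5, 6), 3)]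
  G := [[0, 0x52c489d61256d259ce1c2d28182c, 0, 0x5c348ce52525ca48ced2c9c5828182cc1,
    0x42b83c42b4128b484ed29448394128ba4d6ac1], [0, 0x5248dd6152489d61c9281d281cc2, 0,
    0x18312481e12c49d648a529d642c1847825da82cc9, 0x812713c9424b4138b4acd2341a8ba4d31a4aa43],
    [0, 0, 0xe112e112c84, 0x52943c2419c5198b48ced28448ce92c49,
    0x9364ac523453a94acd14128b84d6a836828c1], [0, 0, 0xe112e112c48,
    0x1212441ce481e928c1c4b42148b48c52c8947824c5,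
    0x34128428494462a439abc234129ba4da1642c9cac5]]

noncomputable def n1741 : Ent := ⟨e1741, noF, [], [], [(9, 16, [1580044410770988437309982408355971841652082177953823432505696235521, 0])]⟩

def c1741 : PLift (Cov.check n1741.C.D v1741 = true) := ⟨by decide +kernel⟩

def b1741 : PLift (entF (fidx ts) 400 1741 n1741 = true) := ⟨by decide +kernel⟩

theorem g1741 : GoodF (fidx ts) 400 1741 := GoodF.ofV v1741 n1741 c1741.down b1741.down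

/-- 4576945:1462/6 -/
noncomputable def e1742 : SCfg where
  D := {
    a := 7
    L := 10
    kp := 7
    inn := [(0, 1), (0, 2), (0, 3), (0, 4), (1, 0), (1, 2), (1, 4), (2, 0), (2, 1), (2, 3), (3, 0), (3,
      2), (3, 4), (4, 0), (4, 1), (4, 3), (4, 5), (4, 6), (5, 4), (5, 6), (6, 4), (6, 5)]
    mix := [(1, 0), (1, 1), (2, 1), (2, 2), (2, 3), (2, 4), (3, 4), (3, 5), (3, 6), (4, 0), (4, 6), (4,
      7), (4, 8), (5, 3), (5, 8), (6, 3), (6, 7), (6, 9)]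
    cl := [2, 0, 6, 1, 0, 5, 3, 4, 3, 7]
    chq := [(1, 4), (2, 5), (4, 1), (5, 2)]
    rng := [(0, 1), (0, 8), (1, 0), (1, 2), (2, 1), (2, 3), (3, 2), (3, 4), (3, 8), (3, 9), (4, 3), (4,
      5), (5, 4), (5, 6), (6, 5), (6, 7), (7, 6), (7, 9), (8, 0), (8, 3), (9, 3), (9, 7)]
    lev := [] }
  links := [[1, 2, 3, 4], [2, 0, 4, 7, 8], [3, 0, 1, 8, 9, 10, 11], [4, 0, 2, 11, 12, 13], [7, 1, 0, 3,
    13, 14, 6, 5, 15], [15, 4, 6, 10], [10, 5, 4, 14, 16]]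
  P := {
    a := 7
    N := 17
    nb := [30, 405, 3851, 14357, 57579, 33872, 82992, 33042, 646, 1284, 100964, 5132, 10248, 20504,
      73808, 1200, 17472]
    tri := [(0, 1, 2), (0, 1, 4), (0, 2, 3), (0, 3, 4), (1, 2, 8), (1, 4, 7), (1, 7, 8), (2, 3, 11),
      (2, 8, 9), (2, 9, 10), (2, 10, 11), (3, 4, 13), (3, 11, 12), (3, 12, 13), (4, 5, 6), (4, 5,
      15), (4, 6, 14), (4, 7, 15), (4, 13, 14), (5, 6, 10), (5, 10, 15), (6, 10, 16), (6, 14, 16)]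
    fin := [0, 0, 2, 0, 4, 5, 5, 0, 2, 9, 5, 2, 12, 4, 14, 4, 16]
    chd := [(0, 12), (5, 14)]
    steps := [(0, 1), (0, 3), (0, 7), (2, 8), (2, 11), (4, 13), (4, 15), (5, 6), (5, 10)] }
  rep := [2, 5, 0, 4, 14, 12, 9, 16]

noncomputable def v1742 : Cov.CovD where
  P := 3
  N := 5
  pl := [2, 9]
  lev := [⟨[], [], [], [], []⟩,
    ⟨[], [(0, 0), (0, 2)], [(0, 2)], [], [(0, 2, [5]), (1, 0, [])]⟩,
    ⟨[(0, 1)], [(0, 0), (0, 1), (1, 0), (1, 1), (1, 2)], [(0, 0), (0, 1)], [6], [(1, 0,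
      []), (3, 1, [4]), (4, 0, [])]⟩,
    ⟨[(0, 1), (0, 2), (1, 2)], [(0, 0), (0, 3), (0, 5), (2, 0), (2, 1), (2, 3), (2, 5)],
      [(0, 3), (0, 5), (3, 5)], [], [(4, 0, []), (5, 5, [2]), (6, 3, [])]⟩,
    ⟨[(0, 1), (0, 2), (0, 3), (1, 2), (1, 3), (2, 3)], [(0, 2), (0, 3), (0, 4), (1, 0), (1,
      2), (1, 3), (1, 4), (3, 0), (3, 2), (3, 3), (3, 4), (3, 5)], [(2, 3), (2, 4), (3, 3),
      (3, 4)], [], [(0, 2, [5]), (6, 3, []), (7, 4, [1]), (8, 3, [])]⟩,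
    ⟨[(0, 4), (1, 4), (3, 4)], [(2, 1), (4, 1), (4, 2), (4, 3), (4, 4)], [(1, 3)], [], [(3,
      1, [4]), (8, 3, [])]⟩,
    ⟨[(0, 4), (1, 4), (3, 4), (4, 5)], [(2, 1), (4, 1), (4, 2), (4, 3), (4, 4), (5, 1), (5,
      3), (5, 4)], [(1, 4)], [7], [(3, 1, [4]), (7, 4, [1])]⟩]
  Ta := [((1, 0), 0, 2), ((1, 2), 0, 6), ((4, 3), 0, 1), ((4, 5), 0, 5), ((6, 5), 3, 5), ((6, 7),
    3, 4), ((8, 0), 3, 2), ((8, 3), 3, 1)]
  Tb := [((0, 1, 8), 2, 0, 3), ((1, 0, 2), 0, 2, 6), ((2, 1, 3), 6, 0, 1), ((3, 2, 4), 1, 6, 0),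
    ((3, 2, 8), 1, 6, 3), ((3, 2, 9), 1, 6, 7), ((3, 4, 8), 1, 0, 3), ((3, 4, 9), 1, 0, 7),
    ((3, 8, 9), 1, 3, 7), ((4, 3, 5), 0, 1, 5), ((5, 4, 6), 5, 0, 3), ((6, 5, 7), 3, 5, 4),
    ((7, 6, 9), 4, 3, 7), ((8, 0, 3), 3, 2, 1), ((9, 3, 7), 7, 1, 4)]
  Tc := []
  Td := [((1, 4), (3, 2), 6), ((1, 4), (3, 4), 0), ((1, 4), (3, 8), 3), ((1, 4), (3, 9), 7), ((2,
    5), (0, 1), 0), ((2, 5), (0, 8), 3), ((4, 1), (7, 6), 3), ((4, 1), (7, 9), 7), ((5, 2),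
    (5, 4), 0), ((5, 2), (5, 6), 3)]
  G := [[0, 0, 0xd12194521c84, 0x1c549c52481c91c992841c542849c824cd, 0x58c24d4292d466c81], [0,
    0, 0xd12148d12189151c19158c1ca6, 0x11c124588d11cd928c5c942145494d48cd2c885824c5,
    0x181c183581c183c25dc44345dc2d42cc85], [0, 0xe21268a12c41, 0,
    0x1c54258c42c194512449c58c92849c824dc, 0x58924d4292d466c81], [0, 0xeea12ee612c84, 0,
    0x194d1211c12c45c9425c942c588d82588d48c92cc9, 0xd5524815812dc9143581acc4d8a249c18481e]]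

noncomputable def n1742 : Ent := ⟨e1742, noF, [], [], [(9, 16, [1580044410770988437309982408355971841652082177953823432505696227329, 0])]⟩

def c1742 : PLift (Cov.check n1742.C.D v1742 = true) := ⟨by decide +kernel⟩

def b1742 : PLift (entF (fidx ts) 400 1742 n1742 = true) := ⟨by decide +kernel⟩

theorem g1742 : GoodF (fidx ts) 400 1742 := GoodF.ofV v1742 n1742 c1742.down b1742.down

/-- 4576945:1462 -/
noncomputable def e1743 : SCfg where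
  D := {
    a := 7
    L := 11
    kp := 8
    inn := [(0, 1), (0, 2), (0, 3), (0, 4), (1, 0), (1, 2), (1, 4), (2, 0), (2, 1), (2, 3), (3, 0), (3,
      2), (3, 4), (4, 0), (4, 1), (4, 3), (4, 5), (4, 6), (5, 4), (5, 6), (6, 4), (6, 5)]
    mix := [(1, 0), (1, 1), (2, 1), (2, 2), (2, 3), (2, 4), (3, 4), (3, 5), (3, 6), (4, 0), (4, 6), (4,
      7), (4, 8), (5, 8), (5, 9), (6, 7), (6, 9), (6, 10)]
    cl := [1, 3, 6, 7, 3, 5, 0, 2, 0, 4, 8]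
    chq := [(1, 5), (2, 4), (4, 2), (5, 1)]
    rng := [(0, 1), (0, 8), (1, 0), (1, 2), (2, 1), (2, 3), (3, 2), (3, 4), (4, 3), (4, 5), (5, 4), (5,
      6), (6, 5), (6, 7), (7, 6), (7, 10), (8, 0), (8, 9), (9, 8), (9, 10), (10, 7), (10, 9)]
    lev := [] }
  links := [[1, 2, 3, 4], [2, 0, 4, 7, 8], [3, 0, 1, 8, 9, 10, 11], [4, 0, 2, 11, 12, 13], [7, 1, 0, 3,
    13, 14, 6, 5, 15], [15, 4, 6, 16], [16, 5, 4, 14, 17]]
  P := {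
    a := 7
    N := 18
    nb := [30, 405, 3851, 14357, 57579, 98384, 213040, 33042, 646, 1284, 2564, 5132, 10248, 20504,
      139344, 65712, 163936, 81984]
    tri := [(0, 1, 2), (0, 1, 4), (0, 2, 3), (0, 3, 4), (1, 2, 8), (1, 4, 7), (1, 7, 8), (2, 3, 11),
      (2, 8, 9), (2, 9, 10), (2, 10, 11), (3, 4, 13), (3, 11, 12), (3, 12, 13), (4, 5, 6), (4, 5,
      15), (4, 6, 14), (4, 7, 15), (4, 13, 14), (5, 6, 16), (5, 15, 16), (6, 14, 17), (6, 16, 17)]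
    fin := [0, 0, 2, 0, 4, 4, 6, 0, 2, 9, 10, 2, 12, 4, 6, 4, 16, 17]
    chd := [(0, 12), (6, 16)]
    steps := [(0, 1), (0, 3), (0, 7), (2, 8), (2, 11), (4, 5), (4, 13), (4, 15), (6, 14)] }
  rep := [4, 0, 6, 2, 16, 12, 9, 10, 17]

noncomputable def v1743 : Cov.CovD where
  P := 3
  N := 6
  pl := [2, 3, 10]
  lev := [⟨[], [], [], [], []⟩,
    ⟨[], [(0, 1), (0, 3)], [(1, 3)], [], [(0, 1, [5]), (1, 3, [])]⟩,
    ⟨[(0, 1)], [(0, 3), (1, 1), (1, 3)], [(3, 3)], [6, 7], [(1, 3, []), (4, 3, [])]⟩,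
    ⟨[(0, 1), (0, 2), (1, 2)], [(0, 0), (0, 3), (0, 5), (2, 0), (2, 3), (2, 5)], [(0, 3),
      (0, 5), (3, 5)], [], [(4, 3, []), (5, 5, [1]), (6, 0, [])]⟩,
    ⟨[(0, 1), (0, 2), (0, 3), (1, 2), (1, 3), (2, 3)], [(0, 0), (0, 1), (0, 2), (1, 0), (1,
      1), (1, 2), (1, 3), (3, 0), (3, 1), (3, 2), (3, 3), (3, 5)], [(0, 0), (0, 1), (0, 2),
      (1, 2)], [], [(0, 1, [5]), (6, 0, []), (7, 2, [4]), (8, 0, [])]⟩,
    ⟨[(0, 4), (1, 4), (3, 4)], [(4, 0), (4, 1), (4, 2), (4, 4)], [(0, 4)], [], [(8, 0, []),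
      (9, 4, [2])]⟩,
    ⟨[(0, 4), (1, 4), (3, 4), (4, 5)], [(4, 0), (4, 1), (4, 2), (4, 4), (5, 0), (5, 2), (5,
      4)], [(2, 4)], [8], [(7, 2, [4]), (9, 4, [2])]⟩]
  Ta := [((1, 0), 3, 1), ((1, 2), 3, 6), ((4, 3), 3, 7), ((4, 5), 3, 5), ((6, 5), 0, 5), ((6, 7),
    0, 2), ((8, 0), 0, 1), ((8, 9), 0, 4)]
  Tb := [((0, 1, 8), 1, 3, 0), ((1, 0, 2), 3, 1, 6), ((2, 1, 3), 6, 3, 7), ((3, 2, 4), 7, 6, 3),
    ((4, 3, 5), 3, 7, 5), ((5, 4, 6), 5, 3, 0), ((6, 5, 7), 0, 5, 2), ((7, 6, 10), 2, 0, 8),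
    ((8, 0, 9), 0, 1, 4), ((9, 8, 10), 4, 0, 8), ((10, 7, 9), 8, 2, 4)]
  Tc := []
  Td := [((1, 5), (0, 1), 3), ((1, 5), (0, 8), 0), ((2, 4), (7, 6), 0), ((2, 4), (7, 10), 8),
    ((4, 2), (9, 8), 0), ((4, 2), (9, 10), 8), ((5, 1), (5, 4), 3), ((5, 1), (5, 6), 0)]
  G := [[0, 0, 0xe18211a14824e1426184ae182c1826c1842d7,
    0x1c38211d242814528884ead28281a4418428e6c5, 0xb48211b482b4822494ab48aeb482b484a55], [0,
    0, 0x86942e142e14a14468694e2c342f18, 0xd2425288c21c344292cd24ed242f18,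
    0xb482b4822194a1a58b48eb482f41], [0, 0x416821d241528824636d24188489d28182845ca, 0,
    0x41682c185a4231d2428d2824292cd28a6c9, 0xb482b481b482b192682b4829268b486e45], [0,
    0xd241d241d248dd281d28d2863c2, 0, 0xd24285a42d244292cd24d85a42f18,
    0xb482b482348b48848b48fb482f14]]

noncomputable def n1743 : Ent := ⟨e1743, noF, [], [], [(9, 17, [6903326391201334775872065844685381424292761054348340378595029936807937, 0]), (9, 16, [7334685537875745012586738086077695515070955365108989538292687700803585, 0]), (10, 17, [6903326391201334775872065844685381424292761054348340378595029936820225, 0]), (10, 16, [7334685537875745012586738086077695515070955365108989538292687700811777, 0])]⟩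

def c1743 : PLift (Cov.check n1743.C.D v1743 = true) := ⟨by decide +kernel⟩

def b1743 : PLift (entF (fidx ts) 400 1743 n1743 = true) := ⟨by decide +kernel⟩

theorem g1743 : GoodF (fidx ts) 400 1743 := GoodF.ofV v1743 n1743 c1743.down b1743.down

/-- 4846648:1463 -/
noncomputable def e1744 : SCfg where
  D := {
    a := 7
    L := 11
    kp := 9
    inn := [(0, 1), (0, 3), (0, 6), (1, 0), (1, 2), (1, 4), (1, 6), (2, 1), (2, 4), (3, 0), (3, 5), (3,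
      6), (4, 1), (4, 2), (4, 6), (5, 3), (5, 6), (6, 0), (6, 1), (6, 3), (6, 4), (6, 5)]
    mix := [(0, 0), (1, 0), (1, 1), (1, 2), (1, 3), (2, 1), (2, 4), (3, 0), (3, 5), (3, 6), (4, 4), (4,
      7), (4, 8), (5, 6), (5, 9), (6, 7), (6, 9), (6, 10)]
    cl := [0, 0, 8, 9, 1, 5, 2, 4, 6, 3, 7]
    chq := [(0, 3), (0, 4), (0, 6), (0, 7), (3, 0), (3, 5), (4, 0), (5, 3), (6, 0), (7, 0)]
    rng := [(0, 3), (0, 5), (1, 2), (1, 4), (2, 1), (2, 3), (3, 0), (3, 2), (4, 1), (4, 8), (5, 0), (5,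
      6), (6, 5), (6, 9), (7, 8), (7, 10), (8, 4), (8, 7), (9, 6), (9, 10), (10, 7), (10, 9)]
    lev := [] }
  links := [[1, 7, 3, 6], [7, 0, 6, 4, 2, 8, 9, 10], [8, 1, 4, 11], [6, 0, 7, 12, 13, 5], [11, 2, 1, 6,
    14, 15], [6, 3, 13, 16], [14, 4, 1, 0, 3, 5, 16, 17]]
  P := {
    a := 7
    N := 18
    nb := [202, 2005, 2322, 12513, 51270, 73800, 213051, 5131, 2566, 1282, 642, 33044, 8328, 69672,
      163920, 18448, 139360, 81984]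
    tri := [(0, 1, 6), (0, 1, 7), (0, 3, 6), (0, 3, 7), (1, 2, 4), (1, 2, 8), (1, 4, 6), (1, 7, 10),
      (1, 8, 9), (1, 9, 10), (2, 4, 11), (2, 8, 11), (3, 5, 6), (3, 5, 13), (3, 7, 12), (3, 12,
      13), (4, 6, 14), (4, 11, 15), (4, 14, 15), (5, 6, 16), (5, 13, 16), (6, 14, 17), (6, 16,
      17)]
    fin := [0, 0, 0, 3, 0, 3, 0, 0, 0, 9, 10, 11, 3, 13, 14, 15, 16, 17]
    chd := [(0, 14), (0, 15), (0, 16), (0, 17), (3, 16)]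
    steps := [(0, 1), (0, 2), (0, 4), (0, 6), (0, 7), (0, 8), (3, 5), (3, 12)] }
  rep := [0, 11, 13, 16, 14, 3, 15, 17, 9, 10]

noncomputable def v1744 : Cov.CovD where
  P := 3
  N := 7
  pl := [2, 3, 4, 6]
  lev := [⟨[], [], [], [], [(0, 0, [3, 4, 6, 7])]⟩,
    ⟨[], [(0, 0)], [(0, 0)], [8, 9], [(0, 0, [3, 4, 6, 7]), (1, 0, [3, 4, 6, 7])]⟩,
    ⟨[(0, 1)], [(1, 0)], [], [1], [(1, 0, [3, 4, 6, 7])]⟩,
    ⟨[(0, 1)], [(0, 0), (0, 5), (1, 0)], [(0, 5)], [2], [(0, 0, [3, 4, 6, 7]), (5, 5,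
      [3])]⟩,
    ⟨[(0, 1), (1, 2)], [(1, 0), (1, 4), (1, 6), (2, 0), (2, 4), (2, 6)], [(4, 6)], [1],
      [(7, 4, [0]), (8, 6, [0])]⟩,
    ⟨[(0, 3)], [(3, 0), (3, 3), (3, 5)], [], [2], [(9, 3, [0, 5])]⟩,
    ⟨[(0, 1), (0, 3), (0, 4), (0, 5), (1, 2), (1, 3), (1, 4), (1, 5), (2, 4), (3, 4), (3,
      5), (4, 5)], [(0, 0), (0, 3), (0, 4), (0, 7), (1, 0), (1, 3), (1, 4), (1, 7), (3, 0),
      (3, 3), (3, 4), (3, 5), (3, 7), (4, 3), (4, 4), (4, 6), (4, 7), (5, 3), (5, 4), (5,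
      7)], [(3, 4), (3, 7), (4, 7)], [], [(7, 4, [0]), (9, 3, [0, 5]), (10, 7, [0])]⟩]
  Ta := [((0, 3), 0, 9), ((0, 5), 0, 5), ((1, 2), 0, 8), ((1, 4), 0, 1)]
  Tb := [((0, 3, 5), 0, 9, 5), ((1, 2, 4), 0, 8, 1), ((2, 1, 3), 8, 0, 9), ((3, 0, 2), 9, 0, 8),
    ((4, 1, 8), 1, 0, 6), ((5, 0, 6), 5, 0, 2), ((6, 5, 9), 2, 5, 3), ((7, 8, 10), 4, 6, 7),
    ((8, 4, 7), 6, 1, 4), ((9, 6, 10), 3, 2, 7), ((10, 7, 9), 7, 4, 3)]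
  Tc := [(0, 3, 4), (0, 3, 6), (0, 3, 7), (0, 4, 6), (0, 4, 7), (0, 6, 7), (3, 0, 5)]
  Td := [((0, 3), (0, 3), 9), ((0, 3), (0, 5), 5), ((0, 3), (1, 2), 8), ((0, 3), (1, 4), 1), ((0,
    4), (0, 3), 9), ((0, 4), (0, 5), 5), ((0, 4), (1, 2), 8), ((0, 4), (1, 4), 1), ((0, 6),
    (0, 3), 9), ((0, 6), (0, 5), 5), ((0, 6), (1, 2), 8), ((0, 6), (1, 4), 1), ((0, 7), (0,
    3), 9), ((0, 7), (0, 5), 5), ((0, 7), (1, 2), 8), ((0, 7), (1, 4), 1), ((3, 0), (9, 6),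
    2), ((3, 0), (9, 10), 7), ((3, 5), (9, 6), 2), ((3, 5), (9, 10), 7), ((4, 0), (7, 8), 6),
    ((4, 0), (7, 10), 7), ((5, 3), (5, 0), 0), ((5, 3), (5, 6), 2), ((6, 0), (8, 4), 1), ((6,
    0), (8, 7), 4), ((7, 0), (10, 7), 4), ((7, 0), (10, 9), 3)]
  G := [[0, 0, 0x121232d281181858cde41212216d2811818d8de4a346129a118d85e1212c188a946,
    0x141414d11181a9de41d4234118385c1118c188c41dc14111e5d1818189d681d8ca,
    0x1214351c91a21b1281818ca94121872d18111e9d821b41218163d181818de81b4ac],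
    [0x121212e181818ea21414a88121212e181818ea4e144181818ec846,
    0x111111e181818ec2111411e111111ec4a141111e111111ec846,
    0x121232d181878cda8141474d181878d841e86121232d181878cda48c,
    0x141421d111138dc42111814d181818d2ec1d4141434d1118129dc81d8141c8194e6,
    0x121272d18181e9d821b4121291818982a1b811121e3d18181c9d281b8e1242511415a846]]

noncomputable def n1744 : Ent := ⟨e1744, noF, [], [], []⟩

def c1744 : PLift (Cov.check n1744.C.D v1744 = true) := ⟨by decide +kernel⟩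

def b1744 : PLift (entF (fidx ts) 400 1744 n1744 = true) := ⟨by decide +kernel⟩

theorem g1744 : GoodF (fidx ts) 400 1744 := GoodF.ofV v1744 n1744 c1744.down b1744.down

/-- 4846485:1485/1 -/
noncomputable def e1745 : SCfg where
  D := {
    a := 7
    L := 10
    kp := 8
    inn := [(0, 1), (0, 3), (0, 5), (1, 0), (1, 2), (1, 5), (1, 6), (2, 1), (3, 0), (3, 4), (3, 5), (4,
      3), (4, 5), (5, 0), (5, 1), (5, 3), (5, 4), (5, 6), (6, 1), (6, 5)]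
    mix := [(0, 0), (1, 0), (1, 1), (1, 2), (1, 3), (2, 1), (2, 2), (2, 4), (3, 0), (3, 4), (3, 5), (4,
      4), (4, 6), (5, 6), (5, 7), (5, 8), (6, 3), (6, 7), (6, 9)]
    cl := [0, 1, 2, 0, 3, 7, 4, 5, 6, 8]
    chq := [(0, 3), (0, 4), (0, 5), (0, 6), (1, 2), (2, 1), (3, 0), (4, 0), (5, 0), (6, 0)]
    rng := [(0, 1), (0, 5), (1, 0), (1, 4), (2, 3), (2, 4), (3, 2), (3, 9), (4, 1), (4, 2), (4, 5), (4,
      6), (5, 0), (5, 4), (6, 4), (6, 8), (7, 8), (7, 9), (8, 6), (8, 7), (9, 3), (9, 7)]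
    lev := [] }
  links := [[1, 5, 3, 7], [5, 0, 7, 8, 2, 9, 10, 6], [9, 1, 8, 11], [7, 0, 5, 4, 11, 12], [11, 3, 5, 13],
    [13, 4, 3, 0, 1, 6, 14, 15], [14, 5, 1, 10, 16]]
  P := {
    a := 7
    N := 17
    nb := [170, 2021, 2818, 6321, 10280, 57435, 82978, 4363, 2182, 3078, 66114, 13084, 2184, 34864,
      98400, 24608, 17472]
    tri := [(0, 1, 5), (0, 1, 7), (0, 3, 5), (0, 3, 7), (1, 2, 8), (1, 2, 9), (1, 5, 6), (1, 6, 10),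
      (1, 7, 8), (1, 9, 10), (2, 8, 11), (2, 9, 11), (3, 4, 5), (3, 4, 11), (3, 7, 12), (3, 11,
      12), (4, 5, 13), (4, 11, 13), (5, 6, 14), (5, 13, 15), (5, 14, 15), (6, 10, 16), (6, 14,
      16)]
    fin := [0, 0, 2, 0, 0, 0, 0, 0, 2, 9, 0, 11, 12, 13, 14, 15, 16]
    chd := [(0, 11), (0, 13), (0, 14), (0, 15), (2, 9)]
    steps := [(0, 1), (0, 3), (0, 4), (0, 5), (0, 6), (0, 7), (0, 10), (2, 8)] }
  rep := [0, 2, 9, 11, 13, 14, 15, 12, 16]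

noncomputable def v1745 : Cov.CovD where
  P := 3
  N := 6
  pl := [5, 9]
  lev := [⟨[], [], [], [], [(0, 0, [3, 4, 5, 6])]⟩,
    ⟨[], [(0, 0), (0, 1), (0, 2)], [(0, 0), (0, 1), (0, 2), (1, 2)], [], [(0, 0, [3, 4, 5,
      6]), (1, 1, [2]), (2, 2, [1]), (3, 0, [3, 4, 5, 6])]⟩,
    ⟨[(0, 1)], [(1, 0), (1, 1), (1, 2), (1, 3)], [(1, 2), (1, 3), (2, 3)], [], [(1, 1,
      [2]), (2, 2, [1]), (4, 3, [0])]⟩,
    ⟨[(0, 1)], [(0, 0), (0, 3), (1, 0), (2, 3)], [(0, 3)], [7], [(0, 0, [3, 4, 5, 6]), (4,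
      3, [0])]⟩,
    ⟨[(0, 3)], [(2, 3), (3, 0), (3, 3), (3, 4)], [(3, 4)], [], [(4, 3, [0]), (6, 4, [0])]⟩,
    ⟨[(0, 1), (0, 3), (0, 4), (1, 2), (1, 3), (1, 4), (3, 4)], [(0, 0), (0, 4), (0, 5), (0,
      6), (1, 0), (1, 1), (1, 2), (1, 4), (1, 5), (1, 6), (3, 0), (3, 3), (3, 4), (3, 5), (3,
      6), (4, 3), (4, 4), (4, 5), (4, 6)], [(4, 5), (4, 6), (5, 6)], [], [(6, 4, [0]), (7, 5,
      [0]), (8, 6, [0])]⟩,
    ⟨[(0, 1), (0, 5), (1, 2), (1, 5), (3, 5), (4, 5)], [(1, 0), (1, 1), (1, 2), (1, 5), (5,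
      0), (5, 4), (5, 5), (5, 6)], [(0, 5)], [8], [(3, 0, [3, 4, 5, 6]), (7, 5, [0])]⟩]
  Ta := [((0, 1), 0, 1), ((0, 5), 0, 7), ((3, 2), 0, 2), ((3, 9), 0, 8)]
  Tb := [((0, 1, 5), 0, 1, 7), ((1, 0, 4), 1, 0, 3), ((2, 3, 4), 2, 0, 3), ((3, 2, 9), 0, 2, 8),
    ((4, 1, 2), 3, 1, 2), ((4, 1, 5), 3, 1, 7), ((4, 1, 6), 3, 1, 4), ((4, 2, 5), 3, 2, 7),
    ((4, 2, 6), 3, 2, 4), ((4, 5, 6), 3, 7, 4), ((5, 0, 4), 7, 0, 3), ((6, 4, 8), 4, 3, 6),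
    ((7, 8, 9), 5, 6, 8), ((8, 6, 7), 6, 4, 5), ((9, 3, 7), 8, 0, 5)]
  Tc := [(0, 3, 4), (0, 3, 5), (0, 3, 6), (0, 4, 5), (0, 4, 6), (0, 5, 6)]
  Td := [((0, 3), (0, 1), 1), ((0, 3), (0, 5), 7), ((0, 3), (3, 2), 2), ((0, 3), (3, 9), 8), ((0,
    4), (0, 1), 1), ((0, 4), (0, 5), 7), ((0, 4), (3, 2), 2), ((0, 4), (3, 9), 8), ((0, 5),
    (0, 1), 1), ((0, 5), (0, 5), 7), ((0, 5), (3, 2), 2), ((0, 5), (3, 9), 8), ((0, 6), (0,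
    1), 1), ((0, 6), (0, 5), 7), ((0, 6), (3, 2), 2), ((0, 6), (3, 9), 8), ((1, 2), (1, 0),
    0), ((1, 2), (1, 4), 3), ((2, 1), (2, 3), 0), ((2, 1), (2, 4), 3), ((3, 0), (4, 1), 1),
    ((3, 0), (4, 2), 2), ((3, 0), (4, 5), 7), ((3, 0), (4, 6), 4), ((4, 0), (6, 4), 3), ((4,
    0), (6, 8), 6), ((5, 0), (7, 8), 6), ((5, 0), (7, 9), 8), ((6, 0), (8, 6), 4), ((6, 0),
    (8, 7), 5)]
  G := [[0, 0x611411ae11e116c811a11a8c4, 0, 0xe1e1ae12e1e1e1ee18e144146,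
    0xe1b7e79e1e1ae17bed3e18e144186], [0, 0, 0x611611ae11e116c811811a8c4,
    0x614448e1e1ae11893e1e1e1ee18c, 0xe1e1e1e7deb1e1e1e1ee18e144186]]

noncomputable def n1745 : Ent := ⟨e1745, noF, [], [], []⟩

def c1745 : PLift (Cov.check n1745.C.D v1745 = true) := ⟨by decide +kernel⟩

def b1745 : PLift (entF (fidx ts) 400 1745 n1745 = true) := ⟨by decide +kernel⟩

theorem g1745 : GoodF (fidx ts) 400 1745 := GoodF.ofV v1745 n1745 c1745.down b1745.down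

/-- 4846485:1485 -/
noncomputable def e1746 : SCfg where
  D := {
    a := 7
    L := 11
    kp := 9
    inn := [(0, 1), (0, 3), (0, 5), (1, 0), (1, 2), (1, 5), (1, 6), (2, 1), (3, 0), (3, 4), (3, 5), (4,
      3), (4, 5), (5, 0), (5, 1), (5, 3), (5, 4), (5, 6), (6, 1), (6, 5)]
    mix := [(0, 0), (1, 0), (1, 1), (1, 2), (1, 3), (2, 1), (2, 2), (2, 4), (3, 0), (3, 5), (3, 6), (4,
      5), (4, 7), (5, 7), (5, 8), (5, 9), (6, 3), (6, 8), (6, 10)]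
    cl := [0, 1, 2, 0, 6, 5, 7, 3, 4, 8, 9]
    chq := [(0, 3), (0, 4), (0, 6), (0, 8), (3, 0), (3, 7), (4, 0), (6, 0), (7, 3), (8, 0)]
    rng := [(0, 1), (0, 6), (1, 0), (1, 4), (2, 3), (2, 4), (3, 2), (3, 10), (4, 1), (4, 2), (5, 6),
      (5, 7), (6, 0), (6, 5), (7, 5), (7, 9), (8, 9), (8, 10), (9, 7), (9, 8), (10, 3), (10, 8)]
    lev := [] }
  links := [[1, 5, 3, 7], [5, 0, 7, 8, 2, 9, 10, 6], [9, 1, 8, 11], [7, 0, 5, 4, 12, 13], [12, 3, 5, 14],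
    [14, 4, 3, 0, 1, 6, 15, 16], [15, 5, 1, 10, 17]]
  P := {
    a := 7
    N := 18
    nb := [170, 2021, 2818, 12465, 20520, 114779, 164898, 8459, 2182, 3078, 131650, 772, 24600, 4232,
      69680, 196704, 49184, 33856]
    tri := [(0, 1, 5), (0, 1, 7), (0, 3, 5), (0, 3, 7), (1, 2, 8), (1, 2, 9), (1, 5, 6), (1, 6, 10),
      (1, 7, 8), (1, 9, 10), (2, 8, 11), (2, 9, 11), (3, 4, 5), (3, 4, 12), (3, 7, 13), (3, 12,
      13), (4, 5, 14), (4, 12, 14), (5, 6, 15), (5, 14, 16), (5, 15, 16), (6, 10, 17), (6, 15,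
      17)]
    fin := [0, 0, 0, 3, 3, 0, 0, 0, 8, 9, 0, 11, 12, 13, 3, 15, 16, 17]
    chd := [(0, 3), (0, 11), (0, 15), (0, 16), (13, 3)]
    steps := [(0, 1), (0, 2), (0, 5), (0, 6), (0, 7), (0, 10), (3, 4), (3, 14)] }
  rep := [0, 8, 9, 3, 15, 12, 11, 13, 16, 17]

noncomputable def v1746 : Cov.CovD where
  P := 3
  N := 7
  pl := [1, 2, 5, 10]
  lev := [⟨[], [], [], [], [(0, 0, [3, 4, 6, 8])]⟩,
    ⟨[], [(0, 0)], [(0, 0)], [1, 2], [(0, 0, [3, 4, 6, 8]), (3, 0, [3, 4, 6, 8])]⟩,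
    ⟨[(0, 1)], [(1, 0), (1, 6)], [], [1, 2], [(4, 6, [0])]⟩,
    ⟨[(0, 1)], [(0, 0), (0, 7), (1, 0)], [(0, 7)], [5], [(0, 0, [3, 4, 6, 8]), (6, 7,
      [3])]⟩,
    ⟨[(0, 3)], [(3, 0), (3, 3), (3, 7)], [], [5], [(7, 3, [0, 7])]⟩,
    ⟨[(0, 1), (0, 3), (0, 4), (1, 2), (1, 3), (1, 4), (3, 4)], [(0, 0), (0, 3), (0, 4), (0,
      8), (1, 0), (1, 3), (1, 4), (1, 8), (3, 0), (3, 3), (3, 4), (3, 7), (3, 8), (4, 3), (4,
      4), (4, 8)], [(3, 4), (3, 8), (4, 8)], [], [(7, 3, [0, 7]), (8, 4, [0]), (9, 8, [0])]⟩,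
    ⟨[(0, 1), (0, 5), (1, 2), (1, 5), (3, 5), (4, 5)], [(1, 0), (1, 4), (5, 0), (5, 3), (5,
      4), (5, 8)], [(0, 4)], [9], [(3, 0, [3, 4, 6, 8]), (8, 4, [0])]⟩]
  Ta := [((0, 1), 0, 1), ((0, 6), 0, 7), ((3, 2), 0, 2), ((3, 10), 0, 9)]
  Tb := [((0, 1, 6), 0, 1, 7), ((1, 0, 4), 1, 0, 6), ((2, 3, 4), 2, 0, 6), ((3, 2, 10), 0, 2, 9),
    ((4, 1, 2), 6, 1, 2), ((5, 6, 7), 5, 7, 3), ((6, 0, 5), 7, 0, 5), ((7, 5, 9), 3, 5, 8),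
    ((8, 9, 10), 4, 8, 9), ((9, 7, 8), 8, 3, 4), ((10, 3, 8), 9, 0, 4)]
  Tc := [(0, 3, 4), (0, 3, 6), (0, 3, 8), (0, 4, 6), (0, 4, 8), (0, 6, 8), (3, 0, 7)]
  Td := [((0, 3), (0, 1), 1), ((0, 3), (0, 6), 7), ((0, 3), (3, 2), 2), ((0, 3), (3, 10), 9),
    ((0, 4), (0, 1), 1), ((0, 4), (0, 6), 7), ((0, 4), (3, 2), 2), ((0, 4), (3, 10), 9), ((0,
    6), (0, 1), 1), ((0, 6), (0, 6), 7), ((0, 6), (3, 2), 2), ((0, 6), (3, 10), 9), ((0, 8),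
    (0, 1), 1), ((0, 8), (0, 6), 7), ((0, 8), (3, 2), 2), ((0, 8), (3, 10), 9), ((3, 0), (7,
    5), 5), ((3, 0), (7, 9), 8), ((3, 7), (7, 5), 5), ((3, 7), (7, 9), 8), ((4, 0), (8, 9),
    8), ((4, 0), (8, 10), 9), ((6, 0), (4, 1), 1), ((6, 0), (4, 2), 2), ((7, 3), (6, 0), 0),
    ((7, 3), (6, 5), 5), ((8, 0), (9, 7), 3), ((8, 0), (9, 8), 4)]
  G := [[0, 0xe11e1e13e1e1ce4e161817e1e19e11e8c2, 0, 0xe1e16e1e1ae1e1ce184,
    0xe1e16e1e1ae1e1ce184], [0, 0, 0x614611ce1e13e11e1e1cec81e15e1819e11e8c2,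
    0xe1e16e1e1ae1e1ce184, 0xe1e16e1e1ae1e1ce182]]

noncomputable def n1746 : Ent := ⟨e1746, noF, [], [], [(11, 12, [7334790875884700912148207959429466810732110717284923962112213594738689, 0])]⟩

def c1746 : PLift (Cov.check n1746.C.D v1746 = true) := ⟨by decide +kernel⟩

def b1746 : PLift (entF (fidx ts) 400 1746 n1746 = true) := ⟨by decide +kernel⟩

theorem g1746 : GoodF (fidx ts) 400 1746 := GoodF.ofV v1746 n1746 c1746.down b1746.down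

/-- 4845844:1500/1 -/
noncomputable def e1747 : SCfg where
  D := {
    a := 7
    L := 9
    kp := 6
    inn := [(0, 1), (0, 3), (1, 0), (1, 2), (1, 3), (1, 4), (1, 5), (2, 1), (2, 4), (3, 0), (3, 1), (4,
      1), (4, 2), (4, 5), (4, 6), (5, 1), (5, 4), (6, 4)]
    mix := [(0, 0), (0, 1), (1, 0), (1, 2), (1, 3), (2, 2), (2, 4), (3, 1), (3, 2), (3, 5), (4, 4), (4,
      6), (4, 7), (4, 8), (5, 3), (5, 8), (6, 1), (6, 6), (6, 7)]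
    cl := [0, 1, 0, 2, 3, 6, 5, 3, 4]
    chq := [(0, 4), (4, 0)]
    rng := [(0, 1), (0, 3), (1, 0), (1, 5), (1, 6), (1, 7), (2, 4), (2, 5), (3, 0), (3, 8), (4, 2), (4,
      6), (5, 1), (5, 2), (6, 1), (6, 4), (7, 1), (7, 8), (8, 3), (8, 7)]
    lev := [] }
  links := [[1, 7, 8, 3], [7, 0, 3, 9, 2, 4, 5, 10], [4, 1, 9, 11], [9, 1, 0, 8, 12], [5, 1, 2, 11, 13,
    6, 14, 15], [10, 1, 4, 15], [14, 4, 13, 8]]
  P := {
    a := 7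
    N := 16
    nb := [394, 1725, 2578, 4867, 59494, 33810, 24848, 1283, 28873, 6158, 32930, 8724, 776, 2384,
      33104, 17456]
    tri := [(0, 1, 3), (0, 1, 7), (0, 3, 8), (0, 7, 8), (1, 2, 4), (1, 2, 9), (1, 3, 9), (1, 4, 5), (1,
      5, 10), (1, 7, 10), (2, 4, 11), (2, 9, 11), (3, 8, 12), (3, 9, 12), (4, 5, 15), (4, 6, 13),
      (4, 6, 14), (4, 11, 13), (4, 14, 15), (5, 10, 15), (6, 8, 13), (6, 8, 14)]
    fin := [0, 0, 0, 0, 4, 0, 6, 0, 6, 0, 10, 4, 12, 13, 4, 15]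
    chd := [(0, 15)]
    steps := [(0, 1), (0, 2), (0, 3), (0, 5), (0, 7), (0, 9), (4, 11), (4, 14), (6, 8)] }
  rep := [0, 6, 10, 4, 15, 13, 12]

noncomputable def v1747 : Cov.CovD where
  P := 3
  N := 4
  pl := [1, 3, 5, 6]
  lev := [⟨[], [], [], [1], [(0, 0, [4])]⟩,
    ⟨[], [(0, 0)], [(0, 0)], [2], [(0, 0, [4]), (2, 0, [4])]⟩,
    ⟨[(0, 1)], [(1, 0), (1, 3)], [(0, 3)], [], [(2, 0, [4]), (4, 3, [])]⟩,
    ⟨[(0, 1), (1, 2)], [(0, 0), (1, 0), (2, 0)], [], [1, 6], [(2, 0, [4])]⟩,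
    ⟨[(0, 1), (1, 2), (1, 3)], [(1, 0), (1, 3), (1, 4), (2, 0), (2, 3), (2, 4)], [(3, 3),
      (3, 4)], [5], [(4, 3, []), (7, 3, []), (8, 4, [0])]⟩,
    ⟨[(0, 1), (1, 2), (1, 3), (1, 4), (2, 4)], [(1, 0), (1, 4), (4, 3), (4, 4)], [], [2],
      [(8, 4, [0])]⟩,
    ⟨[(1, 4), (2, 4), (4, 5)], [(4, 3), (4, 4)], [], [1, 5], [(7, 3, [])]⟩]
  Ta := [((0, 1), 0, 1), ((0, 3), 0, 2), ((2, 4), 0, 3), ((2, 5), 0, 6), ((4, 2), 3, 0), ((4, 6),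
    3, 5), ((7, 1), 3, 1), ((7, 8), 3, 4)]
  Tb := [((0, 1, 3), 0, 1, 2), ((1, 0, 5), 1, 0, 6), ((1, 0, 6), 1, 0, 5), ((1, 0, 7), 1, 0, 3),
    ((1, 5, 6), 1, 6, 5), ((1, 5, 7), 1, 6, 3), ((1, 6, 7), 1, 5, 3), ((2, 4, 5), 0, 3, 6),
    ((3, 0, 8), 2, 0, 4), ((4, 2, 6), 3, 0, 5), ((5, 1, 2), 6, 1, 0), ((6, 1, 4), 5, 1, 3),
    ((7, 1, 8), 3, 1, 4), ((8, 3, 7), 4, 2, 3)]
  Tc := []
  Td := [((0, 4), (0, 1), 1), ((0, 4), (0, 3), 2), ((0, 4), (2, 4), 3), ((0, 4), (2, 5), 6), ((4,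
    0), (8, 3), 2), ((4, 0), (8, 7), 3)]
  G := [[0, 0xc112c114c118e82, 0x444888c11cf1284, 0x48818141cf1248, 0x4151c171241812a8], [0,
    0xe11e11c282, 0x48a4cc1167188681c24, 0x4141281d111cb12c8, 0x414181d111ab1c28], [0, 0, 0,
    0x414855428191c141cf8151ac2c8, 0x512514151c1fc28141149d82a4], [0, 0, 0,
    0x414414c28185541cb81d1189bc2c1, 0x41d164111a5c8111a981d1acc28]]

noncomputable def n1747 : Ent := ⟨e1747, noF, [], [], []⟩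

def c1747 : PLift (Cov.check n1747.C.D v1747 = true) := ⟨by decide +kernel⟩

def b1747 : PLift (entF (fidx ts) 400 1747 n1747 = true) := ⟨by decide +kernel⟩

theorem g1747 : GoodF (fidx ts) 400 1747 := GoodF.ofV v1747 n1747 c1747.down b1747.down

/-- 4845844:1500/2 -/
noncomputable def e1748 : SCfg where
  D := {
    a := 7
    L := 9
    kp := 6
    inn := [(0, 1), (0, 3), (1, 0), (1, 2), (1, 3), (1, 4), (1, 5), (2, 1), (2, 4), (3, 0), (3, 1), (4,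
      1), (4, 2), (4, 5), (4, 6), (5, 1), (5, 4), (6, 4)]
    mix := [(0, 0), (0, 1), (1, 0), (1, 2), (1, 3), (2, 2), (2, 4), (3, 1), (3, 2), (3, 5), (4, 4), (4,
      6), (4, 7), (4, 8), (5, 3), (5, 8), (6, 5), (6, 6), (6, 7)]
    cl := [0, 1, 0, 2, 3, 5, 6, 3, 4]
    chq := [(0, 4), (4, 0)]
    rng := [(0, 1), (0, 3), (1, 0), (1, 5), (2, 4), (2, 5), (3, 0), (3, 8), (4, 2), (4, 6), (5, 1), (5,
      2), (5, 6), (5, 7), (6, 4), (6, 5), (7, 5), (7, 8), (8, 3), (8, 7)]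
    lev := [] }
  links := [[1, 7, 8, 3], [7, 0, 3, 9, 2, 4, 5, 10], [4, 1, 9, 11], [9, 1, 0, 8, 12], [5, 1, 2, 11, 13,
    6, 14, 15], [10, 1, 4, 15], [14, 4, 13, 12]]
  P := {
    a := 7
    N := 16
    nb := [394, 1725, 2578, 4867, 59494, 33810, 28688, 1283, 4233, 6158, 32930, 8724, 25416, 6224,
      36944, 17456]
    tri := [(0, 1, 3), (0, 1, 7), (0, 3, 8), (0, 7, 8), (1, 2, 4), (1, 2, 9), (1, 3, 9), (1, 4, 5), (1,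
      5, 10), (1, 7, 10), (2, 4, 11), (2, 9, 11), (3, 8, 12), (3, 9, 12), (4, 5, 15), (4, 6, 13),
      (4, 6, 14), (4, 11, 13), (4, 14, 15), (5, 10, 15), (6, 12, 13), (6, 12, 14)]
    fin := [0, 0, 0, 0, 4, 0, 6, 0, 8, 0, 10, 4, 6, 13, 4, 15]
    chd := [(0, 15)]
    steps := [(0, 1), (0, 2), (0, 3), (0, 5), (0, 7), (0, 9), (4, 11), (4, 14), (6, 12)] }
  rep := [0, 8, 10, 4, 15, 6, 13]

noncomputable def v1748 : Cov.CovD where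
  P := 3
  N := 4
  pl := [1, 3, 5, 6]
  lev := [⟨[], [], [], [1], [(0, 0, [4])]⟩,
    ⟨[], [(0, 0)], [(0, 0)], [2], [(0, 0, [4]), (2, 0, [4])]⟩,
    ⟨[(0, 1)], [(1, 0), (1, 3)], [(0, 3)], [], [(2, 0, [4]), (4, 3, [])]⟩,
    ⟨[(0, 1), (1, 2)], [(0, 0), (1, 0), (2, 0)], [], [1, 5], [(2, 0, [4])]⟩,
    ⟨[(0, 1), (1, 2), (1, 3)], [(1, 0), (1, 3), (1, 4), (2, 0), (2, 3), (2, 4)], [(3, 3),
      (3, 4)], [6], [(4, 3, []), (7, 3, []), (8, 4, [0])]⟩,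
    ⟨[(0, 1), (1, 2), (1, 3), (1, 4), (2, 4)], [(1, 0), (1, 4), (4, 3), (4, 4)], [], [2],
      [(8, 4, [0])]⟩,
    ⟨[(1, 4), (2, 4), (4, 5)], [(4, 3), (4, 4)], [], [5, 6], [(7, 3, [])]⟩]
  Ta := [((0, 1), 0, 1), ((0, 3), 0, 2), ((2, 4), 0, 3), ((2, 5), 0, 5), ((4, 2), 3, 0), ((4, 6),
    3, 6), ((7, 5), 3, 5), ((7, 8), 3, 4)]
  Tb := [((0, 1, 3), 0, 1, 2), ((1, 0, 5), 1, 0, 5), ((2, 4, 5), 0, 3, 5), ((3, 0, 8), 2, 0, 4),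
    ((4, 2, 6), 3, 0, 6), ((5, 1, 2), 5, 1, 0), ((5, 1, 6), 5, 1, 6), ((5, 1, 7), 5, 1, 3),
    ((5, 2, 6), 5, 0, 6), ((5, 2, 7), 5, 0, 3), ((5, 6, 7), 5, 6, 3), ((6, 4, 5), 6, 3, 5),
    ((7, 5, 8), 3, 5, 4), ((8, 3, 7), 4, 2, 3)]
  Tc := []
  Td := [((0, 4), (0, 1), 1), ((0, 4), (0, 3), 2), ((0, 4), (2, 4), 3), ((0, 4), (2, 5), 5), ((4,
    0), (8, 3), 2), ((4, 0), (8, 7), 3)]
  G := [[0, 0x411212124a1f681818118f8a42, 0x426244412f11811848868b28, 0xb1a151c11431661818c8,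
    0x61411eab1a1911871c28], [0, 0x11c1612892111cf641c164681882c4,
    0x22ce21a4444a4c5688e11a914a4, 0x4144111b1f111cf1e181ac8, 0xf121471f111ad181889a8], [0,
    0, 0, 0x415164919168c5161948182998cc1, 0x51415161f481919138af8c24], [0, 0, 0,
    0xb121c1771f113cbc414468118982c1, 0xb1f16212c5a31714111adc681884a1]]

noncomputable def n1748 : Ent := ⟨e1748, noF, [], [], []⟩

def c1748 : PLift (Cov.check n1748.C.D v1748 = true) := ⟨by decide +kernel⟩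

def b1748 : PLift (entF (fidx ts) 400 1748 n1748 = true) := ⟨by decide +kernel⟩

theorem g1748 : GoodF (fidx ts) 400 1748 := GoodF.ofV v1748 n1748 c1748.down b1748.down

/-- 4845844:1500 -/
noncomputable def e1749 : SCfg where
  D := {
    a := 7
    L := 10
    kp := 7
    inn := [(0, 1), (0, 3), (1, 0), (1, 2), (1, 3), (1, 4), (1, 5), (2, 1), (2, 4), (3, 0), (3, 1), (4,
      1), (4, 2), (4, 5), (4, 6), (5, 1), (5, 4), (6, 4)]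
    mix := [(0, 0), (0, 1), (1, 0), (1, 2), (1, 3), (2, 2), (2, 4), (3, 1), (3, 2), (3, 5), (4, 4), (4,
      6), (4, 7), (4, 8), (5, 3), (5, 8), (6, 6), (6, 7), (6, 9)]
    cl := [0, 1, 0, 2, 3, 6, 5, 3, 4, 7]
    chq := [(0, 4), (4, 0)]
    rng := [(0, 1), (0, 3), (1, 0), (1, 5), (2, 4), (2, 5), (3, 0), (3, 8), (4, 2), (4, 6), (5, 1), (5,
      2), (6, 4), (6, 9), (7, 8), (7, 9), (8, 3), (8, 7), (9, 6), (9, 7)]
    lev := [] }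
  links := [[1, 7, 8, 3], [7, 0, 3, 9, 2, 4, 5, 10], [4, 1, 9, 11], [9, 1, 0, 8, 12], [5, 1, 2, 11, 13,
    6, 14, 15], [10, 1, 4, 15], [14, 4, 13, 16]]
  P := {
    a := 7
    N := 17
    nb := [394, 1725, 2578, 4867, 59494, 33810, 90128, 1283, 4233, 6158, 32930, 8724, 776, 67664,
      98384, 17456, 24640]
    tri := [(0, 1, 3), (0, 1, 7), (0, 3, 8), (0, 7, 8), (1, 2, 4), (1, 2, 9), (1, 3, 9), (1, 4, 5), (1,
      5, 10), (1, 7, 10), (2, 4, 11), (2, 9, 11), (3, 8, 12), (3, 9, 12), (4, 5, 15), (4, 6, 13),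
      (4, 6, 14), (4, 11, 13), (4, 14, 15), (5, 10, 15), (6, 13, 16), (6, 14, 16)]
    fin := [0, 0, 0, 0, 4, 0, 4, 0, 8, 0, 10, 4, 12, 13, 4, 15, 16]
    chd := [(0, 15)]
    steps := [(0, 1), (0, 2), (0, 3), (0, 5), (0, 7), (0, 9), (4, 6), (4, 11), (4, 14)] }
  rep := [0, 8, 10, 4, 15, 13, 12, 16]

noncomputable def v1749 : Cov.CovD where
  P := 3
  N := 5
  pl := [1, 3, 5, 6, 9]
  lev := [⟨[], [], [], [1], [(0, 0, [4])]⟩,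
    ⟨[], [(0, 0)], [(0, 0)], [2], [(0, 0, [4]), (2, 0, [4])]⟩,
    ⟨[(0, 1)], [(1, 0), (1, 3)], [(0, 3)], [], [(2, 0, [4]), (4, 3, [])]⟩,
    ⟨[(0, 1), (1, 2)], [(0, 0), (1, 0), (2, 0)], [], [1, 6], [(2, 0, [4])]⟩,
    ⟨[(0, 1), (1, 2), (1, 3)], [(1, 0), (1, 3), (1, 4), (2, 0), (2, 3), (2, 4)], [(3, 3),
      (3, 4)], [5], [(4, 3, []), (7, 3, []), (8, 4, [0])]⟩,
    ⟨[(0, 1), (1, 2), (1, 3), (1, 4), (2, 4)], [(1, 0), (1, 4), (4, 3), (4, 4)], [], [2],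
      [(8, 4, [0])]⟩,
    ⟨[(1, 4), (2, 4), (4, 5)], [(4, 3), (4, 4)], [], [5, 7], [(7, 3, [])]⟩]
  Ta := [((0, 1), 0, 1), ((0, 3), 0, 2), ((2, 4), 0, 3), ((2, 5), 0, 6), ((4, 2), 3, 0), ((4, 6),
    3, 5), ((7, 8), 3, 4), ((7, 9), 3, 7)]
  Tb := [((0, 1, 3), 0, 1, 2), ((1, 0, 5), 1, 0, 6), ((2, 4, 5), 0, 3, 6), ((3, 0, 8), 2, 0, 4),
    ((4, 2, 6), 3, 0, 5), ((5, 1, 2), 6, 1, 0), ((6, 4, 9), 5, 3, 7), ((7, 8, 9), 3, 4, 7),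
    ((8, 3, 7), 4, 2, 3), ((9, 6, 7), 7, 5, 3)]
  Tc := []
  Td := [((0, 4), (0, 1), 1), ((0, 4), (0, 3), 2), ((0, 4), (2, 4), 3), ((0, 4), (2, 5), 6), ((4,
    0), (8, 3), 2), ((4, 0), (8, 7), 3)]
  G := [[0, 0xe114a1e15a14ac12c1e13a6186186f82, 0x2282d2718444d4716688688c1c8,
    0xa178514716191c121ac4, 0xa16251c1e131671818a8], [0, 0xe124e1b45e158579c1e6e18e1e1aa1c4,
    0x6ac3d6318684e41ac681c68, 0xf1412f1214881b15bc91ec8, 0xf121f1416f179a914a8], [0, 0, 0,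
    0xb14447121c71219ce11891d1447d1c13cec8, 0x715146ab71c161bcb1c1a87b191c87cc24], [0, 0, 0,
    0xf1228f15bc7cf14d14c679c18f18f18cac1, 0xf1271f179abcf1d235f14c6f1189818c4a4]]

noncomputable def n1749 : Ent := ⟨e1749, noF, [], [], [(8, 16, [1580044410770988437309982408355971841652082177953823432505696268289, 0]), (12, 16, [1580044410770988437309982408355971841652082177953823432505696272385, 0])]⟩

def c1749 : PLift (Cov.check n1749.C.D v1749 = true) := ⟨by decide +kernel⟩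

def b1749 : PLift (entF (fidx ts) 400 1749 n1749 = true) := ⟨by decide +kernel⟩

theorem g1749 : GoodF (fidx ts) 400 1749 := GoodF.ofV v1749 n1749 c1749.down b1749.down

/-- 4845844:1502/1 -/
noncomputable def e1750 : SCfg where
  D := {
    a := 7
    L := 9
    kp := 6
    inn := [(0, 1), (0, 3), (1, 0), (1, 2), (1, 3), (1, 4), (1, 5), (2, 1), (2, 4), (3, 0), (3, 1), (4,
      1), (4, 2), (4, 5), (4, 6), (5, 1), (5, 4), (6, 4)]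
    mix := [(0, 0), (0, 1), (1, 0), (1, 2), (1, 3), (2, 2), (2, 4), (3, 1), (3, 2), (3, 5), (4, 4), (4,
      6), (4, 7), (4, 8), (5, 3), (5, 8), (6, 1), (6, 7), (6, 8)]
    cl := [1, 2, 1, 4, 0, 5, 6, 3, 0]
    chq := [(0, 3), (3, 0)]
    rng := [(0, 1), (0, 3), (1, 0), (1, 5), (1, 7), (1, 8), (2, 4), (2, 5), (3, 0), (3, 8), (4, 2), (4,
      6), (5, 1), (5, 2), (6, 4), (6, 7), (7, 1), (7, 6), (8, 1), (8, 3)]
    lev := [] }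
  links := [[1, 7, 8, 3], [7, 0, 3, 9, 2, 4, 5, 10], [4, 1, 9, 11], [9, 1, 0, 8, 12], [5, 1, 2, 11, 13,
    14, 6, 15], [10, 1, 4, 15], [15, 4, 14, 8]]
  P := {
    a := 7
    N := 16
    nb := [394, 1725, 2578, 4867, 59494, 33810, 49424, 1283, 53449, 6158, 32930, 8724, 776, 18448,
      8528, 1392]
    tri := [(0, 1, 3), (0, 1, 7), (0, 3, 8), (0, 7, 8), (1, 2, 4), (1, 2, 9), (1, 3, 9), (1, 4, 5), (1,
      5, 10), (1, 7, 10), (2, 4, 11), (2, 9, 11), (3, 8, 12), (3, 9, 12), (4, 5, 15), (4, 6, 14),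
      (4, 6, 15), (4, 11, 13), (4, 13, 14), (5, 10, 15), (6, 8, 14), (6, 8, 15)]
    fin := [0, 0, 0, 0, 4, 0, 6, 0, 6, 0, 10, 4, 12, 13, 14, 4]
    chd := [(4, 14)]
    steps := [(0, 1), (0, 2), (0, 3), (0, 5), (0, 7), (0, 9), (4, 11), (4, 15), (6, 8)] }
  rep := [4, 0, 6, 14, 10, 12, 13]

noncomputable def v1750 : Cov.CovD where
  P := 3
  N := 4
  pl := [1, 3, 5, 6]
  lev := [⟨[], [], [], [2], [(0, 1, [])]⟩,
    ⟨[], [(0, 1)], [(1, 1)], [4], [(0, 1, []), (2, 1, [])]⟩,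
    ⟨[(0, 1)], [(1, 0), (1, 1)], [(0, 1)], [], [(2, 1, []), (4, 0, [3])]⟩,
    ⟨[(0, 1), (1, 2)], [(0, 1), (1, 1), (2, 1)], [], [2, 5], [(2, 1, [])]⟩,
    ⟨[(0, 1), (1, 2), (1, 3)], [(1, 0), (1, 1), (1, 3), (2, 0), (2, 1), (2, 3)], [(0, 0),
      (0, 3)], [6], [(4, 0, [3]), (7, 3, [0]), (8, 0, [3])]⟩,
    ⟨[(0, 1), (1, 2), (1, 3), (1, 4), (2, 4)], [(1, 0), (1, 1), (4, 0), (4, 3)], [], [4],
      [(8, 0, [3])]⟩,
    ⟨[(1, 4), (2, 4), (4, 5)], [(4, 0), (4, 3), (5, 0)], [(0, 3)], [2], [(7, 3, [0]), (8,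
      0, [3])]⟩]
  Ta := [((0, 1), 1, 2), ((0, 3), 1, 4), ((2, 4), 1, 0), ((2, 5), 1, 5), ((4, 2), 0, 1), ((4, 6),
    0, 6), ((8, 1), 0, 2), ((8, 3), 0, 4)]
  Tb := [((0, 1, 3), 1, 2, 4), ((1, 0, 5), 2, 1, 5), ((1, 0, 7), 2, 1, 3), ((1, 0, 8), 2, 1, 0),
    ((1, 5, 7), 2, 5, 3), ((1, 5, 8), 2, 5, 0), ((1, 7, 8), 2, 3, 0), ((2, 4, 5), 1, 0, 5),
    ((3, 0, 8), 4, 1, 0), ((4, 2, 6), 0, 1, 6), ((5, 1, 2), 5, 2, 1), ((6, 4, 7), 6, 0, 3),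
    ((7, 1, 6), 3, 2, 6), ((8, 1, 3), 0, 2, 4)]
  Tc := []
  Td := [((0, 3), (4, 2), 1), ((0, 3), (4, 6), 6), ((0, 3), (8, 1), 2), ((0, 3), (8, 3), 4), ((3,
    0), (7, 1), 2), ((3, 0), (7, 6), 6)]
  G := [[0, 0, 0, 0x124252e124292e5814, 0x88611a22ce2418], [0,
    0x18186441486811214e818c21218a124114ec8e1, 0, 0, 0x823212e82a212e9418], [0, 0,
    0x44a4288622ca2c14, 0x42442c26c182882c2a9142c2688288242c5ad4, 0x84a824e21a228628282c58],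
    [0, 0, 0x42442c26c82c2a828cc12, 0, 0xa2246882882a224e9982a228e82a228e9458]]

noncomputable def n1750 : Ent := ⟨e1750, noF, [], [], []⟩

def c1750 : PLift (Cov.check n1750.C.D v1750 = true) := ⟨by decide +kernel⟩

def b1750 : PLift (entF (fidx ts) 400 1750 n1750 = true) := ⟨by decide +kernel⟩

theorem g1750 : GoodF (fidx ts) 400 1750 := GoodF.ofV v1750 n1750 c1750.down b1750.down

/-- 4845844:1502/2 -/
noncomputable def e1751 : SCfg where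
  D := {
    a := 7
    L := 9
    kp := 6
    inn := [(0, 1), (0, 3), (1, 0), (1, 2), (1, 3), (1, 4), (1, 5), (2, 1), (2, 4), (3, 0), (3, 1), (4,
      1), (4, 2), (4, 5), (4, 6), (5, 1), (5, 4), (6, 4)]
    mix := [(0, 0), (0, 1), (1, 0), (1, 2), (1, 3), (2, 2), (2, 4), (3, 1), (3, 2), (3, 5), (4, 4), (4,
      6), (4, 7), (4, 8), (5, 3), (5, 8), (6, 5), (6, 7), (6, 8)]
    cl := [1, 4, 1, 2, 0, 5, 6, 3, 0]
    chq := [(0, 3), (3, 0)]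
    rng := [(0, 1), (0, 3), (1, 0), (1, 5), (2, 4), (2, 5), (3, 0), (3, 8), (4, 2), (4, 6), (5, 1), (5,
      2), (5, 7), (5, 8), (6, 4), (6, 7), (7, 5), (7, 6), (8, 3), (8, 5)]
    lev := [] }
  links := [[1, 7, 8, 3], [7, 0, 3, 9, 2, 4, 5, 10], [4, 1, 9, 11], [9, 1, 0, 8, 12], [5, 1, 2, 11, 13,
    14, 6, 15], [10, 1, 4, 15], [15, 4, 14, 12]]
  P := {
    a := 7
    N := 16
    nb := [394, 1725, 2578, 4867, 59494, 33810, 53264, 1283, 4233, 6158, 32930, 8724, 49992, 18448,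
      12368, 5232]
    tri := [(0, 1, 3), (0, 1, 7), (0, 3, 8), (0, 7, 8), (1, 2, 4), (1, 2, 9), (1, 3, 9), (1, 4, 5), (1,
      5, 10), (1, 7, 10), (2, 4, 11), (2, 9, 11), (3, 8, 12), (3, 9, 12), (4, 5, 15), (4, 6, 14),
      (4, 6, 15), (4, 11, 13), (4, 13, 14), (5, 10, 15), (6, 12, 14), (6, 12, 15)]
    fin := [0, 0, 0, 0, 4, 0, 6, 0, 8, 0, 10, 4, 6, 13, 14, 4]
    chd := [(4, 14)]
    steps := [(0, 1), (0, 2), (0, 3), (0, 5), (0, 7), (0, 9), (4, 11), (4, 15), (6, 12)] }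
  rep := [4, 0, 10, 14, 8, 6, 13]

noncomputable def v1751 : Cov.CovD where
  P := 3
  N := 4
  pl := [1, 3, 5, 6]
  lev := [⟨[], [], [], [4], [(0, 1, [])]⟩,
    ⟨[], [(0, 1)], [(1, 1)], [2], [(0, 1, []), (2, 1, [])]⟩,
    ⟨[(0, 1)], [(1, 0), (1, 1)], [(0, 1)], [], [(2, 1, []), (4, 0, [3])]⟩,
    ⟨[(0, 1), (1, 2)], [(0, 1), (1, 1), (2, 1)], [], [4, 5], [(2, 1, [])]⟩,
    ⟨[(0, 1), (1, 2), (1, 3)], [(1, 0), (1, 1), (1, 3), (2, 0), (2, 1), (2, 3)], [(0, 0),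
      (0, 3)], [6], [(4, 0, [3]), (7, 3, [0]), (8, 0, [3])]⟩,
    ⟨[(0, 1), (1, 2), (1, 3), (1, 4), (2, 4)], [(1, 0), (1, 1), (4, 0), (4, 3)], [], [2],
      [(8, 0, [3])]⟩,
    ⟨[(1, 4), (2, 4), (4, 5)], [(4, 0), (4, 3), (5, 0)], [(0, 3)], [5], [(7, 3, [0]), (8,
      0, [3])]⟩]
  Ta := [((0, 1), 1, 4), ((0, 3), 1, 2), ((2, 4), 1, 0), ((2, 5), 1, 5), ((4, 2), 0, 1), ((4, 6),
    0, 6), ((8, 3), 0, 2), ((8, 5), 0, 5)]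
  Tb := [((0, 1, 3), 1, 4, 2), ((1, 0, 5), 4, 1, 5), ((2, 4, 5), 1, 0, 5), ((3, 0, 8), 2, 1, 0),
    ((4, 2, 6), 0, 1, 6), ((5, 1, 2), 5, 4, 1), ((5, 1, 7), 5, 4, 3), ((5, 1, 8), 5, 4, 0),
    ((5, 2, 7), 5, 1, 3), ((5, 2, 8), 5, 1, 0), ((5, 7, 8), 5, 3, 0), ((6, 4, 7), 6, 0, 3),
    ((7, 5, 6), 3, 5, 6), ((8, 3, 5), 0, 2, 5)]
  Tc := []
  Td := [((0, 3), (4, 2), 1), ((0, 3), (4, 6), 6), ((0, 3), (8, 3), 2), ((0, 3), (8, 5), 5), ((3,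
    0), (7, 5), 5), ((3, 0), (7, 6), 6)]
  G := [[0, 0, 0, 0x143824e281183824e2419, 0x381828e241123821e1489], [0,
    0x141818e141821e64141814e82c1, 0, 0, 0x829218e621828e1838d8ed412], [0, 0,
    0x82a2c82442446224a298c2412e22828e11cd, 0x64e828e28488c14841168ca824e21c9,
    0x282282982a8c6242c9a162e228e21828129c], [0, 0, 0x42e4642451a8e86184a824e688e48d9c2, 0,
    0x624268e22e868ae582a8a8ec289c12]]

noncomputable def n1751 : Ent := ⟨e1751, noF, [], [], []⟩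

def c1751 : PLift (Cov.check n1751.C.D v1751 = true) := ⟨by decide +kernel⟩

def b1751 : PLift (entF (fidx ts) 400 1751 n1751 = true) := ⟨by decide +kernel⟩

theorem g1751 : GoodF (fidx ts) 400 1751 := GoodF.ofV v1751 n1751 c1751.down b1751.down

/-- 4845844:1502 -/
noncomputable def e1752 : SCfg where
  D := {
    a := 7
    L := 10
    kp := 7
    inn := [(0, 1), (0, 3), (1, 0), (1, 2), (1, 3), (1, 4), (1, 5), (2, 1), (2, 4), (3, 0), (3, 1), (4,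
      1), (4, 2), (4, 5), (4, 6), (5, 1), (5, 4), (6, 4)]
    mix := [(0, 0), (0, 1), (1, 0), (1, 2), (1, 3), (2, 2), (2, 4), (3, 1), (3, 2), (3, 5), (4, 4), (4,
      6), (4, 7), (4, 8), (5, 3), (5, 8), (6, 7), (6, 8), (6, 9)]
    cl := [1, 4, 1, 2, 0, 5, 6, 3, 0, 7]
    chq := [(0, 3), (3, 0)]
    rng := [(0, 1), (0, 3), (1, 0), (1, 5), (2, 4), (2, 5), (3, 0), (3, 8), (4, 2), (4, 6), (5, 1), (5,
      2), (6, 4), (6, 7), (7, 6), (7, 9), (8, 3), (8, 9), (9, 7), (9, 8)]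
    lev := [] }
  links := [[1, 7, 8, 3], [7, 0, 3, 9, 2, 4, 5, 10], [4, 1, 9, 11], [9, 1, 0, 8, 12], [5, 1, 2, 11, 13,
    14, 6, 15], [10, 1, 4, 15], [15, 4, 14, 16]]
  P := {
    a := 7
    N := 17
    nb := [394, 1725, 2578, 4867, 59494, 33810, 114704, 1283, 4233, 6158, 32930, 8724, 776, 18448,
      73808, 66672, 49216]
    tri := [(0, 1, 3), (0, 1, 7), (0, 3, 8), (0, 7, 8), (1, 2, 4), (1, 2, 9), (1, 3, 9), (1, 4, 5), (1,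
      5, 10), (1, 7, 10), (2, 4, 11), (2, 9, 11), (3, 8, 12), (3, 9, 12), (4, 5, 15), (4, 6, 14),
      (4, 6, 15), (4, 11, 13), (4, 13, 14), (5, 10, 15), (6, 14, 16), (6, 15, 16)]
    fin := [0, 0, 0, 0, 4, 0, 4, 0, 8, 0, 10, 4, 12, 13, 14, 4, 16]
    chd := [(4, 14)]
    steps := [(0, 1), (0, 2), (0, 3), (0, 5), (0, 7), (0, 9), (4, 6), (4, 11), (4, 15)] }
  rep := [4, 0, 10, 14, 8, 12, 13, 16]

noncomputable def v1752 : Cov.CovD where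
  P := 3
  N := 5
  pl := [1, 3, 5, 6, 9]
  lev := [⟨[], [], [], [4], [(0, 1, [])]⟩,
    ⟨[], [(0, 1)], [(1, 1)], [2], [(0, 1, []), (2, 1, [])]⟩,
    ⟨[(0, 1)], [(1, 0), (1, 1)], [(0, 1)], [], [(2, 1, []), (4, 0, [3])]⟩,
    ⟨[(0, 1), (1, 2)], [(0, 1), (1, 1), (2, 1)], [], [4, 5], [(2, 1, [])]⟩,
    ⟨[(0, 1), (1, 2), (1, 3)], [(1, 0), (1, 1), (1, 3), (2, 0), (2, 1), (2, 3)], [(0, 0),
      (0, 3)], [6], [(4, 0, [3]), (7, 3, [0]), (8, 0, [3])]⟩,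
    ⟨[(0, 1), (1, 2), (1, 3), (1, 4), (2, 4)], [(1, 0), (1, 1), (4, 0), (4, 3)], [], [2],
      [(8, 0, [3])]⟩,
    ⟨[(1, 4), (2, 4), (4, 5)], [(4, 0), (4, 3), (5, 0)], [(0, 3)], [7], [(7, 3, [0]), (8,
      0, [3])]⟩]
  Ta := [((0, 1), 1, 4), ((0, 3), 1, 2), ((2, 4), 1, 0), ((2, 5), 1, 5), ((4, 2), 0, 1), ((4, 6),
    0, 6), ((8, 3), 0, 2), ((8, 9), 0, 7)]
  Tb := [((0, 1, 3), 1, 4, 2), ((1, 0, 5), 4, 1, 5), ((2, 4, 5), 1, 0, 5), ((3, 0, 8), 2, 1, 0),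
    ((4, 2, 6), 0, 1, 6), ((5, 1, 2), 5, 4, 1), ((6, 4, 7), 6, 0, 3), ((7, 6, 9), 3, 6, 7),
    ((8, 3, 9), 0, 2, 7), ((9, 7, 8), 7, 3, 0)]
  Tc := []
  Td := [((0, 3), (4, 2), 1), ((0, 3), (4, 6), 6), ((0, 3), (8, 3), 2), ((0, 3), (8, 9), 7), ((3,
    0), (7, 6), 6), ((3, 0), (7, 9), 7)]
  G := [[0, 0, 0, 0x1259854e24814b8e1e2485, 0x529238e281e1d2612e1651287285a89], [0,
    0x14146141818e141814ee214882c1, 0, 0, 0x583298ee23852e583292ed412], [0, 0,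
    0xe2421e4e4a81ce2e4648e2821ce2e4611e4812cd, 0xe8e862e482c1e842e4e4a2c1c,
    0xe2e86e2e869e282c1628e8e8661828e28549c], [0, 0, 0xe24e8462e8e4ed1e2e8ae2e8a828d1c2, 0,
    0xe2e86e84e24de28e2e8ae2e8adc12]]

noncomputable def n1752 : Ent := ⟨e1752, noF, [], [], [(8, 16, [1580044410770988437309982408355971841652082177953823432505696280577, 0]), (12, 16, [1580044410770988437309982408355971841652082177953823432505696284673, 0])]⟩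

def c1752 : PLift (Cov.check n1752.C.D v1752 = true) := ⟨by decide +kernel⟩

def b1752 : PLift (entF (fidx ts) 400 1752 n1752 = true) := ⟨by decide +kernel⟩

theorem g1752 : GoodF (fidx ts) 400 1752 := GoodF.ofV v1752 n1752 c1752.down b1752.down

/-- 4576744:1510/2 -/
noncomputable def e1753 : SCfg where
  D := {
    a := 7
    L := 9
    kp := 7
    inn := [(0, 1), (0, 2), (0, 3), (1, 0), (1, 2), (2, 0), (2, 1), (2, 3), (3, 0), (3, 2), (3, 4), (4,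
      3), (4, 5), (4, 6), (5, 4), (6, 4)]
    mix := [(0, 0), (1, 0), (1, 1), (1, 2), (2, 2), (2, 3), (2, 4), (2, 5), (3, 0), (3, 5), (3, 6), (4,
      5), (4, 6), (4, 7), (4, 8), (5, 4), (5, 5), (5, 7), (6, 1), (6, 6), (6, 8)]
    cl := [1, 2, 4, 7, 3, 0, 0, 5, 6]
    chq := [(1, 3), (1, 4), (1, 7), (2, 3), (2, 5), (3, 1), (3, 2), (4, 1), (5, 2), (7, 1)]
    rng := [(0, 1), (0, 6), (1, 0), (1, 2), (1, 6), (1, 8), (2, 1), (2, 3), (3, 2), (3, 4), (4, 3), (4,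
      5), (4, 7), (5, 4), (6, 0), (6, 1), (7, 4), (7, 8), (8, 1), (8, 7)]
    lev := [] }
  links := [[1, 2, 3, 7], [2, 0, 7, 8, 9], [3, 0, 1, 9, 10, 11, 12], [7, 0, 2, 12, 4, 13], [13, 3, 12, 5,
    14, 15, 6], [14, 4, 12, 11], [13, 4, 15, 8]]
  P := {
    a := 7
    N := 16
    nb := [142, 901, 7691, 12437, 61544, 22544, 41232, 8459, 41666, 1286, 2564, 21540, 2108, 472,
      34864, 16720]
    tri := [(0, 1, 2), (0, 1, 7), (0, 2, 3), (0, 3, 7), (1, 2, 9), (1, 7, 8), (1, 8, 9), (2, 3, 12),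
      (2, 9, 10), (2, 10, 11), (2, 11, 12), (3, 4, 12), (3, 4, 13), (3, 7, 13), (4, 5, 12), (4, 5,
      14), (4, 6, 13), (4, 6, 15), (4, 14, 15), (5, 11, 12), (5, 11, 14), (6, 8, 13), (6, 8, 15)]
    fin := [0, 0, 0, 3, 4, 4, 4, 0, 4, 9, 10, 11, 3, 3, 14, 15]
    chd := [(0, 9), (0, 10), (0, 11), (4, 11), (4, 14)]
    steps := [(0, 1), (0, 2), (0, 7), (3, 12), (3, 13), (4, 5), (4, 6), (4, 8)] }
  rep := [3, 0, 4, 11, 9, 14, 15, 10]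

noncomputable def v1753 : Cov.CovD where
  P := 3
  N := 5
  pl := [8]
  lev := [⟨[], [], [], [], [(0, 1, [3, 4, 7])]⟩,
    ⟨[], [(0, 1), (0, 2), (0, 4)], [(1, 2), (1, 4), (2, 4)], [], [(0, 1, [3, 4, 7]), (1, 2,
      [3, 5]), (2, 4, [1])]⟩,
    ⟨[(0, 1)], [(0, 0), (0, 1), (0, 3), (0, 4), (0, 7), (1, 0), (1, 1), (1, 2), (1, 3), (1,
      4), (1, 7)], [(0, 3), (0, 4), (0, 7), (3, 4), (3, 7), (4, 7)], [], [(2, 4, [1]), (3, 7,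
      [1]), (4, 3, [1, 2]), (5, 0, [])]⟩,
    ⟨[(0, 1), (0, 2), (1, 2)], [(0, 0), (0, 1), (1, 1), (2, 0), (2, 1), (2, 3), (2, 4), (2,
      7)], [(0, 0), (0, 1)], [], [(0, 1, [3, 4, 7]), (5, 0, []), (6, 0, [])]⟩,
    ⟨[(0, 3), (2, 3)], [(2, 0), (3, 0), (3, 1), (3, 5)], [(0, 0), (0, 5)], [6], [(5, 0,
      []), (6, 0, []), (7, 5, [2])]⟩,
    ⟨[(3, 4)], [(2, 0), (2, 3), (3, 0), (4, 0), (4, 3), (4, 5)], [(0, 3), (0, 5), (3, 5)],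
      [], [(4, 3, [1, 2]), (5, 0, []), (7, 5, [2])]⟩,
    ⟨[(3, 4), (4, 5)], [(1, 2), (3, 0), (4, 0), (4, 2), (4, 5)], [(0, 2)], [6], [(1, 2, [3,
      5]), (6, 0, [])]⟩]
  Ta := [((5, 4), 0, 3), ((6, 0), 0, 1), ((6, 1), 0, 2)]
  Tb := [((0, 1, 6), 1, 2, 0), ((1, 0, 2), 2, 1, 4), ((1, 0, 6), 2, 1, 0), ((1, 0, 8), 2, 1, 6),
    ((1, 2, 6), 2, 4, 0), ((1, 2, 8), 2, 4, 6), ((1, 6, 8), 2, 0, 6), ((2, 1, 3), 4, 2, 7),
    ((3, 2, 4), 7, 4, 3), ((4, 3, 5), 3, 7, 0), ((4, 3, 7), 3, 7, 5), ((4, 5, 7), 3, 0, 5),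
    ((6, 0, 1), 0, 1, 2), ((7, 4, 8), 5, 3, 6), ((8, 1, 7), 6, 2, 5)]
  Tc := [(1, 3, 4), (1, 3, 7), (1, 4, 7), (2, 3, 5), (3, 1, 2)]
  Td := [((1, 3), (0, 1), 2), ((1, 3), (0, 6), 0), ((1, 4), (0, 1), 2), ((1, 4), (0, 6), 0), ((1,
    7), (0, 1), 2), ((1, 7), (0, 6), 0), ((2, 3), (1, 0), 1), ((2, 3), (1, 2), 4), ((2, 3),
    (1, 6), 0), ((2, 3), (1, 8), 6), ((2, 5), (1, 0), 1), ((2, 5), (1, 2), 4), ((2, 5), (1,
    6), 0), ((2, 5), (1, 8), 6), ((3, 1), (4, 3), 7), ((3, 1), (4, 5), 0), ((3, 1), (4, 7),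
    5), ((3, 2), (4, 3), 7), ((3, 2), (4, 5), 0), ((3, 2), (4, 7), 5), ((4, 1), (2, 1), 2),
    ((4, 1), (2, 3), 7), ((5, 2), (7, 4), 3), ((5, 2), (7, 8), 6), ((7, 1), (3, 2), 4), ((7,
    1), (3, 4), 3)]
  G := [[0, 0, 0, 0x9224252282c4, 0x218e246848c214231e24e8291], [0, 0x4248ce6828c14242c8cee81c4,
    0x4148121ac2614121e82c4, 0xc2242c2282c4, 0xa1246848c284a124e4291]]

noncomputable def n1753 : Ent := ⟨e1753, noF, [], [], []⟩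

def c1753 : PLift (Cov.check n1753.C.D v1753 = true) := ⟨by decide +kernel⟩

def b1753 : PLift (entF (fidx ts) 400 1753 n1753 = true) := ⟨by decide +kernel⟩

theorem g1753 : GoodF (fidx ts) 400 1753 := GoodF.ofV v1753 n1753 c1753.down b1753.down

/-- 4576744:1510/1 -/
noncomputable def e1754 : SCfg where
  D := {
    a := 7
    L := 10
    kp := 8
    inn := [(0, 1), (0, 2), (0, 3), (1, 0), (1, 2), (2, 0), (2, 1), (2, 3), (3, 0), (3, 2), (3, 4), (4,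
      3), (4, 5), (4, 6), (5, 4), (6, 4)]
    mix := [(0, 0), (1, 0), (1, 1), (1, 2), (2, 2), (2, 3), (2, 4), (2, 5), (3, 0), (3, 5), (3, 6), (4,
      5), (4, 6), (4, 7), (4, 8), (5, 5), (5, 7), (5, 9), (6, 1), (6, 6), (6, 8)]
    cl := [1, 2, 4, 6, 7, 0, 0, 3, 5, 8]
    chq := [(0, 3), (1, 4), (1, 6), (1, 7), (2, 3), (3, 0), (3, 2), (4, 1), (6, 1), (7, 1)]
    rng := [(0, 1), (0, 6), (1, 0), (1, 2), (1, 6), (1, 8), (2, 1), (2, 3), (3, 2), (3, 4), (4, 3), (4,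
      5), (5, 4), (5, 9), (6, 0), (6, 1), (7, 8), (7, 9), (8, 1), (8, 7), (9, 5), (9, 7)]
    lev := [] }
  links := [[1, 2, 3, 7], [2, 0, 7, 8, 9], [3, 0, 1, 9, 10, 11, 12], [7, 0, 2, 12, 4, 13], [13, 3, 12, 5,
    14, 15, 6], [14, 4, 12, 16], [13, 4, 15, 8]]
  P := {
    a := 7
    N := 17
    nb := [142, 901, 7691, 12437, 61544, 86032, 41232, 8459, 41666, 1286, 2564, 5124, 67644, 472,
      98352, 16720, 20512]
    tri := [(0, 1, 2), (0, 1, 7), (0, 2, 3), (0, 3, 7), (1, 2, 9), (1, 7, 8), (1, 8, 9), (2, 3, 12),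
      (2, 9, 10), (2, 10, 11), (2, 11, 12), (3, 4, 12), (3, 4, 13), (3, 7, 13), (4, 5, 12), (4, 5,
      14), (4, 6, 13), (4, 6, 15), (4, 14, 15), (5, 12, 16), (5, 14, 16), (6, 8, 13), (6, 8, 15)]
    fin := [0, 0, 0, 3, 4, 3, 4, 0, 4, 9, 10, 11, 3, 3, 14, 15, 16]
    chd := [(0, 9), (0, 10), (0, 11), (3, 14), (4, 14)]
    steps := [(0, 1), (0, 2), (0, 7), (3, 12), (3, 5), (3, 13), (4, 6), (4, 8)] }
  rep := [3, 0, 4, 14, 9, 15, 10, 11, 16]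

noncomputable def v1754 : Cov.CovD where
  P := 3
  N := 6
  pl := [8, 9]
  lev := [⟨[], [], [], [], [(0, 1, [4, 6, 7])]⟩,
    ⟨[], [(0, 1), (0, 2), (0, 4)], [(1, 2), (1, 4), (2, 4)], [], [(0, 1, [4, 6, 7]), (1, 2,
      [3]), (2, 4, [1])]⟩,
    ⟨[(0, 1)], [(0, 0), (0, 1), (0, 4), (0, 6), (0, 7), (1, 0), (1, 1), (1, 2), (1, 4), (1,
      6), (1, 7)], [(0, 4), (0, 6), (0, 7), (4, 6), (4, 7), (6, 7)], [], [(2, 4, [1]), (3, 6,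
      [1]), (4, 7, [1]), (5, 0, [3])]⟩,
    ⟨[(0, 1), (0, 2), (1, 2)], [(0, 0), (0, 1), (1, 1), (2, 0), (2, 1), (2, 4), (2, 6), (2,
      7)], [(0, 0), (0, 1)], [], [(0, 1, [4, 6, 7]), (5, 0, [3]), (6, 0, [3])]⟩,
    ⟨[(0, 3), (2, 3)], [(2, 0), (3, 0), (3, 1), (3, 3)], [(0, 0), (0, 3)], [5], [(5, 0,
      [3]), (6, 0, [3]), (7, 3, [0, 2])]⟩,
    ⟨[(3, 4)], [(2, 0), (3, 0), (4, 0), (4, 3)], [(0, 3)], [8], [(5, 0, [3]), (7, 3, [0,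
      2])]⟩,
    ⟨[(3, 4), (4, 5)], [(1, 2), (3, 0), (4, 0), (4, 2), (4, 3)], [(0, 2)], [5], [(1, 2,
      [3]), (6, 0, [3])]⟩]
  Ta := [((5, 4), 0, 7), ((5, 9), 0, 8), ((6, 0), 0, 1), ((6, 1), 0, 2)]
  Tb := [((0, 1, 6), 1, 2, 0), ((1, 0, 2), 2, 1, 4), ((1, 0, 6), 2, 1, 0), ((1, 0, 8), 2, 1, 5),
    ((1, 2, 6), 2, 4, 0), ((1, 2, 8), 2, 4, 5), ((1, 6, 8), 2, 0, 5), ((2, 1, 3), 4, 2, 6),
    ((3, 2, 4), 6, 4, 7), ((4, 3, 5), 7, 6, 0), ((5, 4, 9), 0, 7, 8), ((6, 0, 1), 0, 1, 2),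
    ((7, 8, 9), 3, 5, 8), ((8, 1, 7), 5, 2, 3), ((9, 5, 7), 8, 0, 3)]
  Tc := [(1, 4, 6), (1, 4, 7), (1, 6, 7), (3, 0, 2)]
  Td := [((0, 3), (5, 4), 7), ((0, 3), (5, 9), 8), ((0, 3), (6, 0), 1), ((0, 3), (6, 1), 2), ((1,
    4), (0, 1), 2), ((1, 4), (0, 6), 0), ((1, 6), (0, 1), 2), ((1, 6), (0, 6), 0), ((1, 7),
    (0, 1), 2), ((1, 7), (0, 6), 0), ((2, 3), (1, 0), 1), ((2, 3), (1, 2), 4), ((2, 3), (1,
    6), 0), ((2, 3), (1, 8), 5), ((3, 0), (7, 8), 5), ((3, 0), (7, 9), 8), ((3, 2), (7, 8),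
    5), ((3, 2), (7, 9), 8), ((4, 1), (2, 1), 2), ((4, 1), (2, 3), 6), ((6, 1), (3, 2), 4),
    ((6, 1), (3, 4), 7), ((7, 1), (4, 3), 6), ((7, 1), (4, 5), 0)]
  G := [[0, 0, 0, 0xccce282c99e282c4, 0x1a1e428c186ac2218e216618c8c294], [0,
    0x48acccea846461846ccce644a8a1c8, 0x81a121e424148121ac2c8, 0x11cd24211cb242c8,
    0x1231a9285e8228c1a9123e4291]]

noncomputable def n1754 : Ent := ⟨e1754, noF, [], [], [(11, 16, [1580044410770988437309982408355971841652082177953823432505696292865, 0])]⟩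

def c1754 : PLift (Cov.check n1754.C.D v1754 = true) := ⟨by decide +kernel⟩

def b1754 : PLift (entF (fidx ts) 400 1754 n1754 = true) := ⟨by decide +kernel⟩

theorem g1754 : GoodF (fidx ts) 400 1754 := GoodF.ofV v1754 n1754 c1754.down b1754.down

/-- 4576744:1510/3 -/
noncomputable def e1755 : SCfg where
  D := {
    a := 7
    L := 10
    kp := 8
    inn := [(0, 1), (0, 2), (0, 3), (1, 0), (1, 2), (2, 0), (2, 1), (2, 3), (3, 0), (3, 2), (3, 4), (4,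
      3), (4, 5), (4, 6), (5, 4), (6, 4)]
    mix := [(0, 0), (1, 0), (1, 1), (1, 2), (2, 2), (2, 3), (2, 4), (2, 5), (3, 0), (3, 5), (3, 6), (4,
      5), (4, 6), (4, 7), (4, 8), (5, 4), (5, 5), (5, 7), (6, 6), (6, 8), (6, 9)]
    cl := [1, 7, 4, 6, 2, 0, 0, 5, 3, 8]
    chq := [(0, 3), (1, 2), (1, 4), (1, 6), (2, 1), (2, 3), (3, 0), (3, 2), (4, 1), (6, 1)]
    rng := [(0, 1), (0, 6), (1, 0), (1, 2), (2, 1), (2, 3), (3, 2), (3, 4), (4, 3), (4, 5), (4, 7), (5,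
      4), (6, 0), (6, 9), (7, 4), (7, 8), (8, 7), (8, 9), (9, 6), (9, 8)]
    lev := [] }
  links := [[1, 2, 3, 7], [2, 0, 7, 8, 9], [3, 0, 1, 9, 10, 11, 12], [7, 0, 2, 12, 4, 13], [13, 3, 12, 5,
    14, 15, 6], [14, 4, 12, 11], [13, 4, 15, 16]]
  P := {
    a := 7
    N := 17
    nb := [142, 901, 7691, 12437, 61544, 22544, 106512, 8459, 642, 1286, 2564, 21540, 2108, 65752,
      34864, 82000, 41024]
    tri := [(0, 1, 2), (0, 1, 7), (0, 2, 3), (0, 3, 7), (1, 2, 9), (1, 7, 8), (1, 8, 9), (2, 3, 12),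
      (2, 9, 10), (2, 10, 11), (2, 11, 12), (3, 4, 12), (3, 4, 13), (3, 7, 13), (4, 5, 12), (4, 5,
      14), (4, 6, 13), (4, 6, 15), (4, 14, 15), (5, 11, 12), (5, 11, 14), (6, 13, 16), (6, 15,
      16)]
    fin := [0, 0, 0, 3, 4, 4, 3, 0, 8, 9, 10, 4, 3, 3, 14, 15, 16]
    chd := [(0, 4), (0, 9), (0, 10), (3, 15), (4, 15)]
    steps := [(0, 1), (0, 2), (0, 7), (3, 12), (3, 13), (3, 6), (4, 5), (4, 11)] }
  rep := [3, 0, 4, 15, 9, 14, 10, 8, 16]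

noncomputable def v1755 : Cov.CovD where
  P := 3
  N := 6
  pl := [1, 7, 9]
  lev := [⟨[], [], [], [], [(0, 1, [2, 4, 6])]⟩,
    ⟨[], [(0, 1), (0, 4)], [(1, 4)], [7], [(0, 1, [2, 4, 6]), (2, 4, [1])]⟩,
    ⟨[(0, 1)], [(0, 0), (0, 1), (0, 2), (0, 4), (0, 6), (1, 0), (1, 1), (1, 2), (1, 4), (1,
      6)], [(0, 2), (0, 4), (0, 6), (2, 4), (2, 6), (4, 6)], [], [(2, 4, [1]), (3, 6, [1]),
      (4, 2, [1, 3]), (5, 0, [3])]⟩,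
    ⟨[(0, 1), (0, 2), (1, 2)], [(0, 0), (0, 1), (1, 1), (2, 0), (2, 1), (2, 2), (2, 4), (2,
      6)], [(0, 0), (0, 1)], [], [(0, 1, [2, 4, 6]), (5, 0, [3]), (6, 0, [3])]⟩,
    ⟨[(0, 3), (2, 3)], [(2, 0), (3, 0), (3, 1), (3, 3)], [(0, 0), (0, 3)], [5], [(5, 0,
      [3]), (6, 0, [3]), (8, 3, [0, 2])]⟩,
    ⟨[(3, 4)], [(2, 0), (2, 2), (3, 0), (4, 0), (4, 2), (4, 3)], [(0, 2)], [5], [(4, 2, [1,
      3]), (5, 0, [3])]⟩,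
    ⟨[(3, 4), (4, 5)], [(3, 0), (4, 0), (4, 3)], [(0, 3)], [8], [(6, 0, [3]), (8, 3, [0,
      2])]⟩]
  Ta := [((5, 4), 0, 2), ((6, 0), 0, 1), ((6, 9), 0, 8)]
  Tb := [((0, 1, 6), 1, 7, 0), ((1, 0, 2), 7, 1, 4), ((2, 1, 3), 4, 7, 6), ((3, 2, 4), 6, 4, 2),
    ((4, 3, 5), 2, 6, 0), ((4, 3, 7), 2, 6, 5), ((4, 5, 7), 2, 0, 5), ((6, 0, 9), 0, 1, 8),
    ((7, 4, 8), 5, 2, 3), ((8, 7, 9), 3, 5, 8), ((9, 6, 8), 8, 0, 3)]
  Tc := [(1, 2, 4), (1, 2, 6), (1, 4, 6), (2, 1, 3), (3, 0, 2)]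
  Td := [((0, 3), (5, 4), 2), ((0, 3), (6, 0), 1), ((0, 3), (6, 9), 8), ((1, 2), (0, 1), 7), ((1,
    2), (0, 6), 0), ((1, 4), (0, 1), 7), ((1, 4), (0, 6), 0), ((1, 6), (0, 1), 7), ((1, 6),
    (0, 6), 0), ((2, 1), (4, 3), 6), ((2, 1), (4, 5), 0), ((2, 1), (4, 7), 5), ((2, 3), (4,
    3), 6), ((2, 3), (4, 5), 0), ((2, 3), (4, 7), 5), ((3, 0), (8, 7), 5), ((3, 0), (8, 9),
    8), ((3, 2), (8, 7), 5), ((3, 2), (8, 9), 8), ((4, 1), (2, 1), 7), ((4, 1), (2, 3), 6),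
    ((6, 1), (3, 2), 4), ((6, 1), (3, 4), 2)]
  G := [[0, 0, 0x1441812ac21161412e8214126188c2d4, 0xdbc242ebc242334d242d8,
    0x7811ad2e4248a39a52e427811ad2e42d1], [0, 0x42ceec6a48a1eec228c42cca12442cc84eecac1e4, 0,
    0xee9282ee5282ee9242d4, 0x6ca4236c18c284344892124aec242e168e828c2d1]]

noncomputable def n1755 : Ent := ⟨e1755, noF, [], [], [(8, 16, [1580044410770988437309982408355971841652082177953823432505696292865, 0])]⟩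

def c1755 : PLift (Cov.check n1755.C.D v1755 = true) := ⟨by decide +kernel⟩

def b1755 : PLift (entF (fidx ts) 400 1755 n1755 = true) := ⟨by decide +kernel⟩

theorem g1755 : GoodF (fidx ts) 400 1755 := GoodF.ofV v1755 n1755 c1755.down b1755.down

/-- 4576744:1510 -/
noncomputable def e1756 : SCfg where
  D := {
    a := 7
    L := 11
    kp := 9
    inn := [(0, 1), (0, 2), (0, 3), (1, 0), (1, 2), (2, 0), (2, 1), (2, 3), (3, 0), (3, 2), (3, 4), (4,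
      3), (4, 5), (4, 6), (5, 4), (6, 4)]
    mix := [(0, 0), (1, 0), (1, 1), (1, 2), (2, 2), (2, 3), (2, 4), (2, 5), (3, 0), (3, 5), (3, 6), (4,
      5), (4, 6), (4, 7), (4, 8), (5, 5), (5, 7), (5, 9), (6, 6), (6, 8), (6, 10)]
    cl := [1, 8, 3, 5, 6, 0, 0, 2, 4, 9, 7]
    chq := [(0, 2), (1, 3), (1, 5), (1, 6), (2, 0), (2, 7), (3, 1), (5, 1), (6, 1), (7, 2)]
    rng := [(0, 1), (0, 6), (1, 0), (1, 2), (2, 1), (2, 3), (3, 2), (3, 4), (4, 3), (4, 5), (5, 4), (5,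
      9), (6, 0), (6, 10), (7, 8), (7, 9), (8, 7), (8, 10), (9, 5), (9, 7), (10, 6), (10, 8)]
    lev := [] }
  links := [[1, 2, 3, 7], [2, 0, 7, 8, 9], [3, 0, 1, 9, 10, 11, 12], [7, 0, 2, 12, 4, 13], [13, 3, 12, 5,
    14, 15, 6], [14, 4, 12, 16], [13, 4, 15, 17]]
  P := {
    a := 7
    N := 18
    nb := [142, 901, 7691, 12437, 61544, 86032, 172048, 8459, 642, 1286, 2564, 5124, 67644, 131288,
      98352, 147536, 20512, 41024]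
    tri := [(0, 1, 2), (0, 1, 7), (0, 2, 3), (0, 3, 7), (1, 2, 9), (1, 7, 8), (1, 8, 9), (2, 3, 12),
      (2, 9, 10), (2, 10, 11), (2, 11, 12), (3, 4, 12), (3, 4, 13), (3, 7, 13), (4, 5, 12), (4, 5,
      14), (4, 6, 13), (4, 6, 15), (4, 14, 15), (5, 12, 16), (5, 14, 16), (6, 13, 17), (6, 15,
      17)]
    fin := [0, 0, 0, 3, 4, 3, 4, 0, 8, 9, 10, 11, 3, 3, 4, 15, 16, 17]
    chd := [(0, 9), (0, 10), (0, 11), (3, 4), (4, 17)]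
    steps := [(0, 1), (0, 2), (0, 7), (3, 12), (3, 5), (3, 13), (4, 6), (4, 14)] }
  rep := [3, 0, 4, 9, 15, 10, 11, 17, 8, 16]

noncomputable def v1756 : Cov.CovD where
  P := 3
  N := 7
  pl := [1, 8, 9]
  lev := [⟨[], [], [], [], [(0, 1, [3, 5, 6])]⟩,
    ⟨[], [(0, 1), (0, 3)], [(1, 3)], [8], [(0, 1, [3, 5, 6]), (2, 3, [1])]⟩,
    ⟨[(0, 1)], [(0, 0), (0, 1), (0, 3), (0, 5), (0, 6), (1, 0), (1, 1), (1, 3), (1, 5), (1,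
      6)], [(0, 3), (0, 5), (0, 6), (3, 5), (3, 6), (5, 6)], [], [(2, 3, [1]), (3, 5, [1]),
      (4, 6, [1]), (5, 0, [2])]⟩,
    ⟨[(0, 1), (0, 2), (1, 2)], [(0, 0), (0, 1), (1, 1), (2, 0), (2, 1), (2, 3), (2, 5), (2,
      6)], [(0, 0), (0, 1)], [], [(0, 1, [3, 5, 6]), (5, 0, [2]), (6, 0, [2])]⟩,
    ⟨[(0, 3), (2, 3)], [(2, 0), (3, 0), (3, 1), (3, 2)], [(0, 0), (0, 2)], [4], [(5, 0,
      [2]), (6, 0, [2]), (7, 2, [0, 7])]⟩,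
    ⟨[(3, 4)], [(2, 0), (3, 0), (4, 0), (4, 2)], [(0, 2)], [9], [(5, 0, [2]), (7, 2, [0,
      7])]⟩,
    ⟨[(3, 4), (4, 5)], [(3, 0), (4, 0), (4, 2), (4, 7)], [(0, 7)], [4], [(6, 0, [2]), (10,
      7, [2])]⟩]
  Ta := [((5, 4), 0, 6), ((5, 9), 0, 9), ((6, 0), 0, 1), ((6, 10), 0, 7)]
  Tb := [((0, 1, 6), 1, 8, 0), ((1, 0, 2), 8, 1, 3), ((2, 1, 3), 3, 8, 5), ((3, 2, 4), 5, 3, 6),
    ((4, 3, 5), 6, 5, 0), ((5, 4, 9), 0, 6, 9), ((6, 0, 10), 0, 1, 7), ((7, 8, 9), 2, 4, 9),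
    ((8, 7, 10), 4, 2, 7), ((9, 5, 7), 9, 0, 2), ((10, 6, 8), 7, 0, 4)]
  Tc := [(1, 3, 5), (1, 3, 6), (1, 5, 6), (2, 0, 7)]
  Td := [((0, 2), (5, 4), 6), ((0, 2), (5, 9), 9), ((0, 2), (6, 0), 1), ((0, 2), (6, 10), 7),
    ((1, 3), (0, 1), 8), ((1, 3), (0, 6), 0), ((1, 5), (0, 1), 8), ((1, 5), (0, 6), 0), ((1,
    6), (0, 1), 8), ((1, 6), (0, 6), 0), ((2, 0), (7, 8), 4), ((2, 0), (7, 9), 9), ((2, 7),
    (7, 8), 4), ((2, 7), (7, 9), 9), ((3, 1), (2, 1), 8), ((3, 1), (2, 3), 5), ((5, 1), (3,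
    2), 3), ((5, 1), (3, 4), 6), ((6, 1), (4, 3), 5), ((6, 1), (4, 5), 0), ((7, 2), (10, 6),
    0), ((7, 2), (10, 8), 4)]
  G := [[0, 0, 0x121418e82141218e82141218e82d4, 0x14412c28cc22421cc188c221c412c8c2d1,
    0x11a44aa4244a11aa4244a11aa42d1], [0, 0x26ceacc212ec8e2c46126ceacc21e8,
    0x141812e8211a11a64211c116a42d1, 0x614a18c221e1c8221e1c82d4, 0xc161a42e141a42c161a42d8]]

noncomputable def n1756 : Ent := ⟨e1756, noF, [], [], [(8, 17, [6903326391201334775872065844685381424292761054348340378595029936873473, 0]), (11, 16, [7334685537875745012586738086077695515070955365108989538292687700865025, 0])]⟩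

def c1756 : PLift (Cov.check n1756.C.D v1756 = true) := ⟨by decide +kernel⟩

def b1756 : PLift (entF (fidx ts) 400 1756 n1756 = true) := ⟨by decide +kernel⟩

theorem g1756 : GoodF (fidx ts) 400 1756 := GoodF.ofV v1756 n1756 c1756.down b1756.down

/-- 4576744:1511/1 -/
noncomputable def e1757 : SCfg where
  D := {
    a := 7
    L := 10
    kp := 8
    inn := [(0, 1), (0, 2), (0, 3), (1, 0), (1, 2), (2, 0), (2, 1), (2, 3), (3, 0), (3, 2), (3, 4), (4,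
      3), (4, 5), (4, 6), (5, 4), (6, 4)]
    mix := [(0, 0), (1, 0), (1, 1), (1, 2), (2, 2), (2, 3), (2, 4), (2, 5), (3, 0), (3, 5), (3, 6), (4,
      5), (4, 6), (4, 7), (4, 8), (5, 1), (5, 7), (5, 8), (6, 6), (6, 8), (6, 9)]
    cl := [1, 2, 4, 6, 7, 0, 0, 5, 3, 8]
    chq := [(0, 2), (0, 3), (1, 4), (1, 6), (1, 7), (2, 0), (3, 0), (4, 1), (6, 1), (7, 1)]
    rng := [(0, 1), (0, 6), (1, 0), (1, 2), (1, 7), (1, 8), (2, 1), (2, 3), (3, 2), (3, 4), (4, 3), (4,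
      5), (5, 4), (5, 7), (6, 0), (6, 9), (7, 1), (7, 5), (8, 1), (8, 9), (9, 6), (9, 8)]
    lev := [] }
  links := [[1, 2, 3, 7], [2, 0, 7, 8, 9], [3, 0, 1, 9, 10, 11, 12], [7, 0, 2, 12, 4, 13], [13, 3, 12,
    14, 5, 15, 6], [15, 4, 14, 8], [13, 4, 15, 16]]
  P := {
    a := 7
    N := 17
    nb := [142, 901, 7691, 12437, 61544, 49424, 106512, 8459, 49826, 1286, 2564, 5124, 18460, 65752,
      4400, 65904, 41024]
    tri := [(0, 1, 2), (0, 1, 7), (0, 2, 3), (0, 3, 7), (1, 2, 9), (1, 7, 8), (1, 8, 9), (2, 3, 12),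
      (2, 9, 10), (2, 10, 11), (2, 11, 12), (3, 4, 12), (3, 4, 13), (3, 7, 13), (4, 5, 14), (4, 5,
      15), (4, 6, 13), (4, 6, 15), (4, 12, 14), (5, 8, 14), (5, 8, 15), (6, 13, 16), (6, 15, 16)]
    fin := [0, 0, 0, 3, 4, 4, 3, 0, 4, 9, 10, 11, 3, 3, 14, 15, 16]
    chd := [(0, 9), (0, 10), (0, 11), (3, 15), (4, 3)]
    steps := [(0, 1), (0, 2), (0, 7), (3, 12), (3, 13), (3, 6), (4, 5), (4, 8)] }
  rep := [3, 0, 4, 15, 9, 14, 10, 11, 16]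

noncomputable def v1757 : Cov.CovD where
  P := 3
  N := 6
  pl := [7, 9]
  lev := [⟨[], [], [], [], [(0, 1, [4, 6, 7])]⟩,
    ⟨[], [(0, 1), (0, 2), (0, 4)], [(1, 2), (1, 4), (2, 4)], [], [(0, 1, [4, 6, 7]), (1, 2,
      [0]), (2, 4, [1])]⟩,
    ⟨[(0, 1)], [(0, 0), (0, 1), (0, 4), (0, 6), (0, 7), (1, 0), (1, 1), (1, 2), (1, 4), (1,
      6), (1, 7)], [(0, 4), (0, 6), (0, 7), (4, 6), (4, 7), (6, 7)], [], [(2, 4, [1]), (3, 6,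
      [1]), (4, 7, [1]), (5, 0, [2, 3])]⟩,
    ⟨[(0, 1), (0, 2), (1, 2)], [(0, 0), (0, 1), (1, 1), (2, 0), (2, 1), (2, 4), (2, 6), (2,
      7)], [(0, 0), (0, 1)], [], [(0, 1, [4, 6, 7]), (5, 0, [2, 3]), (6, 0, [2, 3])]⟩,
    ⟨[(0, 3), (2, 3)], [(2, 0), (3, 0), (3, 1), (3, 3)], [(0, 0), (0, 3)], [5], [(5, 0, [2,
      3]), (6, 0, [2, 3]), (8, 3, [0])]⟩,
    ⟨[(3, 4)], [(1, 2), (4, 0), (4, 2), (4, 3)], [(2, 3)], [5], [(1, 2, [0]), (8, 3, [0])]⟩,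
    ⟨[(3, 4), (4, 5)], [(3, 0), (4, 0), (4, 3), (5, 3)], [(0, 3)], [8], [(6, 0, [2, 3]),
      (8, 3, [0])]⟩]
  Ta := [((5, 4), 0, 7), ((5, 7), 0, 5), ((6, 0), 0, 1), ((6, 9), 0, 8)]
  Tb := [((0, 1, 6), 1, 2, 0), ((1, 0, 2), 2, 1, 4), ((1, 0, 7), 2, 1, 5), ((1, 0, 8), 2, 1, 3),
    ((1, 2, 7), 2, 4, 5), ((1, 2, 8), 2, 4, 3), ((1, 7, 8), 2, 5, 3), ((2, 1, 3), 4, 2, 6),
    ((3, 2, 4), 6, 4, 7), ((4, 3, 5), 7, 6, 0), ((5, 4, 7), 0, 7, 5), ((6, 0, 9), 0, 1, 8),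
    ((7, 1, 5), 5, 2, 0), ((8, 1, 9), 3, 2, 8), ((9, 6, 8), 8, 0, 3)]
  Tc := [(0, 2, 3), (1, 4, 6), (1, 4, 7), (1, 6, 7)]
  Td := [((0, 2), (5, 4), 7), ((0, 2), (5, 7), 5), ((0, 2), (6, 0), 1), ((0, 2), (6, 9), 8), ((0,
    3), (5, 4), 7), ((0, 3), (5, 7), 5), ((0, 3), (6, 0), 1), ((0, 3), (6, 9), 8), ((1, 4),
    (0, 1), 2), ((1, 4), (0, 6), 0), ((1, 6), (0, 1), 2), ((1, 6), (0, 6), 0), ((1, 7), (0,
    1), 2), ((1, 7), (0, 6), 0), ((2, 0), (1, 0), 1), ((2, 0), (1, 2), 4), ((2, 0), (1, 7),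
    5), ((2, 0), (1, 8), 3), ((3, 0), (8, 1), 2), ((3, 0), (8, 9), 8), ((4, 1), (2, 1), 2),
    ((4, 1), (2, 3), 6), ((6, 1), (3, 2), 4), ((6, 1), (3, 4), 7), ((7, 1), (4, 3), 6), ((7,
    1), (4, 5), 0)]
  G := [[0, 0, 0x1441812ac214, 0x335d24211bd282c8, 0x389152e42389152e4298], [0,
    0xe14e1e1ac161e1e1e818a1c4, 0x1441812ac218, 0xe1282e124251, 0xe1e16e18c2e1e16e18c291]]

noncomputable def n1757 : Ent := ⟨e1757, noF, [], [], []⟩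

def c1757 : PLift (Cov.check n1757.C.D v1757 = true) := ⟨by decide +kernel⟩

def b1757 : PLift (entF (fidx ts) 400 1757 n1757 = true) := ⟨by decide +kernel⟩

theorem g1757 : GoodF (fidx ts) 400 1757 := GoodF.ofV v1757 n1757 c1757.down b1757.down

/-- 4576744:1511/2 -/
noncomputable def e1758 : SCfg where
  D := {
    a := 7
    L := 10
    kp := 8
    inn := [(0, 1), (0, 2), (0, 3), (1, 0), (1, 2), (2, 0), (2, 1), (2, 3), (3, 0), (3, 2), (3, 4), (4,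
      3), (4, 5), (4, 6), (5, 4), (6, 4)]
    mix := [(0, 0), (1, 0), (1, 1), (1, 2), (2, 2), (2, 3), (2, 4), (2, 5), (3, 0), (3, 5), (3, 6), (4,
      5), (4, 6), (4, 7), (4, 8), (5, 7), (5, 8), (5, 9), (6, 1), (6, 6), (6, 8)]
    cl := [1, 2, 4, 6, 7, 0, 0, 5, 3, 8]
    chq := [(0, 3), (0, 8), (1, 4), (1, 6), (1, 7), (3, 0), (4, 1), (6, 1), (7, 1), (8, 0)]
    rng := [(0, 1), (0, 6), (1, 0), (1, 2), (1, 6), (1, 8), (2, 1), (2, 3), (3, 2), (3, 4), (4, 3), (4,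
      5), (5, 4), (5, 7), (6, 0), (6, 1), (7, 5), (7, 9), (8, 1), (8, 9), (9, 7), (9, 8)]
    lev := [] }
  links := [[1, 2, 3, 7], [2, 0, 7, 8, 9], [3, 0, 1, 9, 10, 11, 12], [7, 0, 2, 12, 4, 13], [13, 3, 12,
    14, 5, 15, 6], [15, 4, 14, 16], [13, 4, 15, 8]]
  P := {
    a := 7
    N := 17
    nb := [142, 901, 7691, 12437, 61544, 114704, 41232, 8459, 41666, 1286, 2564, 5124, 18460, 472,
      69680, 65904, 49184]
    tri := [(0, 1, 2), (0, 1, 7), (0, 2, 3), (0, 3, 7), (1, 2, 9), (1, 7, 8), (1, 8, 9), (2, 3, 12),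
      (2, 9, 10), (2, 10, 11), (2, 11, 12), (3, 4, 12), (3, 4, 13), (3, 7, 13), (4, 5, 14), (4, 5,
      15), (4, 6, 13), (4, 6, 15), (4, 12, 14), (5, 14, 16), (5, 15, 16), (6, 8, 13), (6, 8, 15)]
    fin := [0, 0, 0, 0, 4, 4, 6, 0, 6, 9, 10, 11, 4, 4, 14, 15, 16]
    chd := [(0, 9), (0, 10), (0, 11), (4, 15), (4, 16)]
    steps := [(0, 1), (0, 2), (0, 3), (0, 7), (4, 5), (4, 12), (4, 13), (6, 8)] }
  rep := [4, 0, 6, 15, 9, 14, 10, 11, 16]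

noncomputable def v1758 : Cov.CovD where
  P := 3
  N := 6
  pl := [1, 7]
  lev := [⟨[], [], [], [], [(0, 1, [4, 6, 7])]⟩,
    ⟨[], [(0, 1), (0, 4)], [(1, 4)], [2], [(0, 1, [4, 6, 7]), (2, 4, [1])]⟩,
    ⟨[(0, 1)], [(0, 0), (0, 1), (0, 4), (0, 6), (0, 7), (1, 0), (1, 1), (1, 4), (1, 6), (1,
      7)], [(0, 4), (0, 6), (0, 7), (4, 6), (4, 7), (6, 7)], [], [(2, 4, [1]), (3, 6, [1]),
      (4, 7, [1]), (5, 0, [3, 8])]⟩,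
    ⟨[(0, 1), (0, 2), (1, 2)], [(0, 0), (0, 1), (1, 1), (2, 0), (2, 1), (2, 4), (2, 6), (2,
      7)], [(0, 0), (0, 1)], [], [(0, 1, [4, 6, 7]), (5, 0, [3, 8]), (6, 0, [3, 8])]⟩,
    ⟨[(0, 3), (2, 3)], [(2, 0), (3, 0), (3, 1), (3, 3)], [(0, 0), (0, 3)], [5], [(5, 0, [3,
      8]), (6, 0, [3, 8]), (8, 3, [0])]⟩,
    ⟨[(3, 4)], [(4, 0), (4, 3), (4, 8)], [(3, 8)], [5], [(8, 3, [0]), (9, 8, [0])]⟩,
    ⟨[(3, 4), (4, 5)], [(3, 0), (4, 0), (4, 3), (5, 3)], [(0, 3)], [2], [(6, 0, [3, 8]),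
      (8, 3, [0])]⟩]
  Ta := [((5, 4), 0, 7), ((5, 7), 0, 5), ((6, 0), 0, 1), ((6, 1), 0, 2)]
  Tb := [((0, 1, 6), 1, 2, 0), ((1, 0, 2), 2, 1, 4), ((1, 0, 6), 2, 1, 0), ((1, 0, 8), 2, 1, 3),
    ((1, 2, 6), 2, 4, 0), ((1, 2, 8), 2, 4, 3), ((1, 6, 8), 2, 0, 3), ((2, 1, 3), 4, 2, 6),
    ((3, 2, 4), 6, 4, 7), ((4, 3, 5), 7, 6, 0), ((5, 4, 7), 0, 7, 5), ((6, 0, 1), 0, 1, 2),
    ((7, 5, 9), 5, 0, 8), ((8, 1, 9), 3, 2, 8), ((9, 7, 8), 8, 5, 3)]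
  Tc := [(0, 3, 8), (1, 4, 6), (1, 4, 7), (1, 6, 7)]
  Td := [((0, 3), (5, 4), 7), ((0, 3), (5, 7), 5), ((0, 3), (6, 0), 1), ((0, 3), (6, 1), 2), ((0,
    8), (5, 4), 7), ((0, 8), (5, 7), 5), ((0, 8), (6, 0), 1), ((0, 8), (6, 1), 2), ((1, 4),
    (0, 1), 2), ((1, 4), (0, 6), 0), ((1, 6), (0, 1), 2), ((1, 6), (0, 6), 0), ((1, 7), (0,
    1), 2), ((1, 7), (0, 6), 0), ((3, 0), (8, 1), 2), ((3, 0), (8, 9), 8), ((4, 1), (2, 1),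
    2), ((4, 1), (2, 3), 6), ((6, 1), (3, 2), 4), ((6, 1), (3, 4), 7), ((7, 1), (4, 3), 6),
    ((7, 1), (4, 5), 0), ((8, 0), (9, 7), 5), ((8, 0), (9, 8), 3)]
  G := [[0, 0, 0, 0x51145811be82145481111bac254, 0x31111d812be82118d111127e4291], [0,
    0x8141c1e218141c1e21c4, 0x4148121ac2614121e82c4, 0x41c16818c241481c1ac2c1,
    0x81a121e42a1216818c298]]

noncomputable def n1758 : Ent := ⟨e1758, noF, [], [], []⟩

def c1758 : PLift (Cov.check n1758.C.D v1758 = true) := ⟨by decide +kernel⟩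

def b1758 : PLift (entF (fidx ts) 400 1758 n1758 = true) := ⟨by decide +kernel⟩

theorem g1758 : GoodF (fidx ts) 400 1758 := GoodF.ofV v1758 n1758 c1758.down b1758.down

/-- 4576744:1511 -/
noncomputable def e1759 : SCfg where
  D := {
    a := 7
    L := 11
    kp := 9
    inn := [(0, 1), (0, 2), (0, 3), (1, 0), (1, 2), (2, 0), (2, 1), (2, 3), (3, 0), (3, 2), (3, 4), (4,
      3), (4, 5), (4, 6), (5, 4), (6, 4)]
    mix := [(0, 0), (1, 0), (1, 1), (1, 2), (2, 2), (2, 3), (2, 4), (2, 5), (3, 0), (3, 5), (3, 6), (4,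
      5), (4, 6), (4, 7), (4, 8), (5, 7), (5, 8), (5, 9), (6, 6), (6, 8), (6, 10)]
    cl := [1, 8, 4, 5, 6, 0, 0, 2, 3, 7, 9]
    chq := [(0, 3), (0, 7), (1, 4), (1, 5), (1, 6), (3, 0), (4, 1), (5, 1), (6, 1), (7, 0)]
    rng := [(0, 1), (0, 6), (1, 0), (1, 2), (2, 1), (2, 3), (3, 2), (3, 4), (4, 3), (4, 5), (5, 4), (5,
      7), (6, 0), (6, 10), (7, 5), (7, 9), (8, 9), (8, 10), (9, 7), (9, 8), (10, 6), (10, 8)]
    lev := [] }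
  links := [[1, 2, 3, 7], [2, 0, 7, 8, 9], [3, 0, 1, 9, 10, 11, 12], [7, 0, 2, 12, 4, 13], [13, 3, 12,
    14, 5, 15, 6], [15, 4, 14, 16], [13, 4, 15, 17]]
  P := {
    a := 7
    N := 18
    nb := [142, 901, 7691, 12437, 61544, 114704, 172048, 8459, 642, 1286, 2564, 5124, 18460, 131288,
      69680, 196720, 49184, 41024]
    tri := [(0, 1, 2), (0, 1, 7), (0, 2, 3), (0, 3, 7), (1, 2, 9), (1, 7, 8), (1, 8, 9), (2, 3, 12),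
      (2, 9, 10), (2, 10, 11), (2, 11, 12), (3, 4, 12), (3, 4, 13), (3, 7, 13), (4, 5, 14), (4, 5,
      15), (4, 6, 13), (4, 6, 15), (4, 12, 14), (5, 14, 16), (5, 15, 16), (6, 13, 17), (6, 15,
      17)]
    fin := [0, 0, 0, 0, 4, 4, 4, 0, 8, 9, 10, 11, 4, 4, 14, 15, 16, 17]
    chd := [(0, 9), (0, 10), (0, 11), (4, 15), (4, 16)]
    steps := [(0, 1), (0, 2), (0, 3), (0, 7), (4, 5), (4, 6), (4, 12), (4, 13)] }
  rep := [4, 0, 14, 15, 9, 10, 11, 16, 8, 17]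

noncomputable def v1759 : Cov.CovD where
  P := 3
  N := 7
  pl := [1, 7, 10]
  lev := [⟨[], [], [], [], [(0, 1, [4, 5, 6])]⟩,
    ⟨[], [(0, 1), (0, 4)], [(1, 4)], [8], [(0, 1, [4, 5, 6]), (2, 4, [1])]⟩,
    ⟨[(0, 1)], [(0, 0), (0, 1), (0, 4), (0, 5), (0, 6), (1, 0), (1, 1), (1, 4), (1, 5), (1,
      6)], [(0, 4), (0, 5), (0, 6), (4, 5), (4, 6), (5, 6)], [], [(2, 4, [1]), (3, 5, [1]),
      (4, 6, [1]), (5, 0, [3, 7])]⟩,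
    ⟨[(0, 1), (0, 2), (1, 2)], [(0, 0), (0, 1), (1, 1), (2, 0), (2, 1), (2, 4), (2, 5), (2,
      6)], [(0, 0), (0, 1)], [], [(0, 1, [4, 5, 6]), (5, 0, [3, 7]), (6, 0, [3, 7])]⟩,
    ⟨[(0, 3), (2, 3)], [(2, 0), (3, 0), (3, 1), (3, 3)], [(0, 0), (0, 3)], [2], [(5, 0, [3,
      7]), (6, 0, [3, 7]), (8, 3, [0])]⟩,
    ⟨[(3, 4)], [(4, 0), (4, 3), (4, 7)], [(3, 7)], [2], [(8, 3, [0]), (9, 7, [0])]⟩,
    ⟨[(3, 4), (4, 5)], [(3, 0), (4, 0), (4, 3), (5, 3)], [(0, 3)], [9], [(6, 0, [3, 7]),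
      (8, 3, [0])]⟩]
  Ta := [((5, 4), 0, 6), ((5, 7), 0, 2), ((6, 0), 0, 1), ((6, 10), 0, 9)]
  Tb := [((0, 1, 6), 1, 8, 0), ((1, 0, 2), 8, 1, 4), ((2, 1, 3), 4, 8, 5), ((3, 2, 4), 5, 4, 6),
    ((4, 3, 5), 6, 5, 0), ((5, 4, 7), 0, 6, 2), ((6, 0, 10), 0, 1, 9), ((7, 5, 9), 2, 0, 7),
    ((8, 9, 10), 3, 7, 9), ((9, 7, 8), 7, 2, 3), ((10, 6, 8), 9, 0, 3)]
  Tc := [(0, 3, 7), (1, 4, 5), (1, 4, 6), (1, 5, 6)]
  Td := [((0, 3), (5, 4), 6), ((0, 3), (5, 7), 2), ((0, 3), (6, 0), 1), ((0, 3), (6, 10), 9),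
    ((0, 7), (5, 4), 6), ((0, 7), (5, 7), 2), ((0, 7), (6, 0), 1), ((0, 7), (6, 10), 9), ((1,
    4), (0, 1), 8), ((1, 4), (0, 6), 0), ((1, 5), (0, 1), 8), ((1, 5), (0, 6), 0), ((1, 6),
    (0, 1), 8), ((1, 6), (0, 6), 0), ((3, 0), (8, 9), 7), ((3, 0), (8, 10), 9), ((4, 1), (2,
    1), 8), ((4, 1), (2, 3), 5), ((5, 1), (3, 2), 4), ((5, 1), (3, 4), 6), ((6, 1), (4, 3),
    5), ((6, 1), (4, 5), 0), ((7, 0), (9, 7), 2), ((7, 0), (9, 8), 3)]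
  G := [[0, 0, 0x11c116a4211c11a68211c116a42d4, 0x5131c821161c823191c82d4,
    0x1161a821161a4211b1a82d1], [0, 0xa161c21a161c21a161c21e4, 0,
    0x614a18c2614a18c29414a121cc245, 0xc161a42c161a42c161a42d8]]

noncomputable def n1759 : Ent := ⟨e1759, noF, [], [], [(8, 16, [7334685537875745012586738086077695515070955365108989538292687700873217, 0]), (8, 17, [6903326391201334775872065844685381424292761054348340378595029936889857, 0])]⟩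

def c1759 : PLift (Cov.check n1759.C.D v1759 = true) := ⟨by decide +kernel⟩

def b1759 : PLift (entF (fidx ts) 400 1759 n1759 = true) := ⟨by decide +kernel⟩

theorem g1759 : GoodF (fidx ts) 400 1759 := GoodF.ofV v1759 n1759 c1759.down b1759.down

/-- 4576744:1512/1 -/
noncomputable def e1760 : SCfg where
  D := {
    a := 7
    L := 9
    kp := 7
    inn := [(0, 1), (0, 2), (0, 3), (1, 0), (1, 2), (2, 0), (2, 1), (2, 3), (2, 4), (3, 0), (3, 2), (3,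
      4), (4, 2), (4, 3), (4, 5), (4, 6), (5, 4), (6, 4)]
    mix := [(0, 0), (1, 0), (1, 1), (1, 2), (2, 2), (2, 3), (2, 4), (3, 0), (3, 5), (3, 6), (4, 4), (4,
      5), (4, 7), (5, 1), (5, 5), (5, 7), (6, 4), (6, 7), (6, 8)]
    cl := [1, 4, 2, 5, 0, 0, 6, 3, 7]
    chq := [(0, 1), (0, 2), (0, 3), (1, 0), (1, 2), (2, 0), (2, 1), (3, 0)]
    rng := [(0, 1), (0, 6), (1, 0), (1, 2), (1, 5), (1, 7), (2, 1), (2, 3), (3, 2), (3, 4), (4, 3), (4,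
      8), (5, 1), (5, 6), (6, 0), (6, 5), (7, 1), (7, 8), (8, 4), (8, 7)]
    lev := [] }
  links := [[1, 2, 3, 7], [2, 0, 7, 8, 9], [3, 0, 1, 9, 10, 11, 4], [7, 0, 2, 4, 12, 13], [12, 3, 2, 11,
    6, 14, 5], [12, 4, 14, 8], [14, 4, 11, 15]]
  P := {
    a := 7
    N := 16
    nb := [142, 901, 3611, 12437, 22636, 20752, 51216, 8459, 21154, 1286, 2564, 33876, 8504, 4232,
      33136, 18496]
    tri := [(0, 1, 2), (0, 1, 7), (0, 2, 3), (0, 3, 7), (1, 2, 9), (1, 7, 8), (1, 8, 9), (2, 3, 4), (2,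
      4, 11), (2, 9, 10), (2, 10, 11), (3, 4, 12), (3, 7, 13), (3, 12, 13), (4, 5, 12), (4, 5,
      14), (4, 6, 11), (4, 6, 14), (5, 8, 12), (5, 8, 14), (6, 11, 15), (6, 14, 15)]
    fin := [0, 0, 2, 2, 4, 4, 2, 0, 4, 9, 10, 2, 2, 13, 14, 15]
    chd := [(0, 2), (0, 9), (2, 14), (9, 2)]
    steps := [(0, 1), (0, 7), (2, 3), (2, 11), (2, 6), (2, 12), (4, 5), (4, 8)] }
  rep := [2, 0, 9, 14, 4, 10, 13, 15]

noncomputable def v1760 : Cov.CovD where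
  P := 3
  N := 5
  pl := [1, 3, 6, 8]
  lev := [⟨[], [], [], [], [(0, 1, [0, 2])]⟩,
    ⟨[], [(0, 1), (0, 2)], [(1, 2)], [4], [(0, 1, [0, 2]), (2, 2, [0, 1])]⟩,
    ⟨[(0, 1)], [(0, 0), (0, 1), (0, 2), (1, 0), (1, 1), (1, 2)], [(0, 2)], [5], [(2, 2, [0,
      1]), (4, 0, [1, 2, 3])]⟩,
    ⟨[(0, 1), (0, 2), (1, 2)], [(0, 0), (0, 1), (1, 1), (2, 0), (2, 1), (2, 2)], [(0, 1)],
      [6], [(0, 1, [0, 2]), (5, 0, [1, 2, 3])]⟩,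
    ⟨[(0, 2), (0, 3), (1, 2), (2, 3)], [(2, 0), (2, 2), (2, 3), (3, 0), (3, 1), (3, 3)],
      [(0, 0), (0, 3)], [], [(4, 0, [1, 2, 3]), (5, 0, [1, 2, 3]), (7, 3, [0])]⟩,
    ⟨[(2, 4), (3, 4)], [(3, 0), (4, 0), (4, 3)], [(0, 3)], [4], [(5, 0, [1, 2, 3]), (7, 3,
      [0])]⟩,
    ⟨[(2, 4), (3, 4), (4, 5)], [(2, 0), (4, 0), (4, 3), (5, 3)], [(0, 3)], [7], [(4, 0, [1,
      2, 3]), (7, 3, [0])]⟩]
  Ta := [((4, 3), 0, 5), ((4, 8), 0, 7), ((5, 1), 0, 4), ((5, 6), 0, 6)]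
  Tb := [((0, 1, 6), 1, 4, 6), ((1, 0, 2), 4, 1, 2), ((1, 0, 5), 4, 1, 0), ((1, 0, 7), 4, 1, 3),
    ((1, 2, 5), 4, 2, 0), ((1, 2, 7), 4, 2, 3), ((1, 5, 7), 4, 0, 3), ((2, 1, 3), 2, 4, 5),
    ((3, 2, 4), 5, 2, 0), ((4, 3, 8), 0, 5, 7), ((5, 1, 6), 0, 4, 6), ((6, 0, 5), 6, 1, 0),
    ((7, 1, 8), 3, 4, 7), ((8, 4, 7), 7, 0, 3)]
  Tc := [(0, 1, 2), (0, 1, 3), (0, 2, 3), (1, 0, 2), (2, 0, 1)]
  Td := [((0, 1), (4, 3), 5), ((0, 1), (4, 8), 7), ((0, 1), (5, 1), 4), ((0, 1), (5, 6), 6), ((0,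
    2), (4, 3), 5), ((0, 2), (4, 8), 7), ((0, 2), (5, 1), 4), ((0, 2), (5, 6), 6), ((0, 3),
    (4, 3), 5), ((0, 3), (4, 8), 7), ((0, 3), (5, 1), 4), ((0, 3), (5, 6), 6), ((1, 0), (0,
    1), 4), ((1, 0), (0, 6), 6), ((1, 2), (0, 1), 4), ((1, 2), (0, 6), 6), ((2, 0), (2, 1),
    4), ((2, 0), (2, 3), 5), ((2, 1), (2, 1), 4), ((2, 1), (2, 3), 5), ((3, 0), (7, 1), 4),
    ((3, 0), (7, 8), 7)]
  G := [[0, 0x114112118e112118114ec12, 0x1111a411c116a11111c8e14, 0x4a6c86ec1218,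
    0x426c82ea6cee164ae8a6e84ce1a14], [0, 0x114112118e118112114ec12,
    0x11c11a61111161111aca14, 0x68a86ac21ca662c21c4,
    0x884418c6aa8648a6cac18b41265492ac32146cc1612cca1d]]

noncomputable def n1760 : Ent := ⟨e1760, noF, [], [], []⟩

def c1760 : PLift (Cov.check n1760.C.D v1760 = true) := ⟨by decide +kernel⟩

def b1760 : PLift (entF (fidx ts) 400 1760 n1760 = true) := ⟨by decide +kernel⟩

theorem g1760 : GoodF (fidx ts) 400 1760 := GoodF.ofV v1760 n1760 c1760.down b1760.down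

/-- 4576744:1512 -/
noncomputable def e1761 : SCfg where
  D := {
    a := 7
    L := 10
    kp := 8
    inn := [(0, 1), (0, 2), (0, 3), (1, 0), (1, 2), (2, 0), (2, 1), (2, 3), (2, 4), (3, 0), (3, 2), (3,
      4), (4, 2), (4, 3), (4, 5), (4, 6), (5, 4), (6, 4)]
    mix := [(0, 0), (1, 0), (1, 1), (1, 2), (2, 2), (2, 3), (2, 4), (3, 0), (3, 5), (3, 6), (4, 4), (4,
      5), (4, 7), (5, 5), (5, 7), (5, 8), (6, 4), (6, 7), (6, 9)]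
    cl := [1, 5, 3, 4, 0, 0, 6, 2, 7, 8]
    chq := [(0, 1), (0, 2), (1, 0), (1, 3), (1, 4), (2, 0), (3, 1), (4, 1)]
    rng := [(0, 1), (0, 6), (1, 0), (1, 2), (2, 1), (2, 3), (3, 2), (3, 4), (4, 3), (4, 9), (5, 6), (5,
      8), (6, 0), (6, 5), (7, 8), (7, 9), (8, 5), (8, 7), (9, 4), (9, 7)]
    lev := [] }
  links := [[1, 2, 3, 7], [2, 0, 7, 8, 9], [3, 0, 1, 9, 10, 11, 4], [7, 0, 2, 4, 12, 13], [12, 3, 2, 11,
    6, 14, 5], [12, 4, 14, 15], [14, 4, 11, 16]]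
  P := {
    a := 7
    N := 17
    nb := [142, 901, 3611, 12437, 22636, 53264, 83984, 8459, 642, 1286, 2564, 66644, 41016, 4232,
      98416, 20512, 18496]
    tri := [(0, 1, 2), (0, 1, 7), (0, 2, 3), (0, 3, 7), (1, 2, 9), (1, 7, 8), (1, 8, 9), (2, 3, 4), (2,
      4, 11), (2, 9, 10), (2, 10, 11), (3, 4, 12), (3, 7, 13), (3, 12, 13), (4, 5, 12), (4, 5,
      14), (4, 6, 11), (4, 6, 14), (5, 12, 15), (5, 14, 15), (6, 11, 16), (6, 14, 16)]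
    fin := [0, 0, 0, 0, 4, 4, 4, 0, 8, 9, 10, 4, 4, 13, 14, 15, 16]
    chd := [(0, 4), (0, 9), (0, 10), (4, 14)]
    steps := [(0, 1), (0, 2), (0, 3), (0, 7), (4, 5), (4, 6), (4, 11), (4, 12)] }
  rep := [4, 0, 14, 9, 10, 8, 13, 15, 16]

noncomputable def v1761 : Cov.CovD where
  P := 3
  N := 6
  pl := [1, 6, 8, 9]
  lev := [⟨[], [], [], [], [(0, 1, [0, 3, 4])]⟩,
    ⟨[], [(0, 1), (0, 3)], [(1, 3)], [5], [(0, 1, [0, 3, 4]), (2, 3, [1])]⟩,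
    ⟨[(0, 1)], [(0, 0), (0, 1), (0, 3), (0, 4), (1, 0), (1, 1), (1, 3), (1, 4)], [(0, 3),
      (0, 4), (3, 4)], [], [(2, 3, [1]), (3, 4, [1]), (4, 0, [1, 2])]⟩,
    ⟨[(0, 1), (0, 2), (1, 2)], [(0, 0), (0, 1), (1, 1), (2, 0), (2, 1), (2, 3), (2, 4)],
      [(0, 1)], [6], [(0, 1, [0, 3, 4]), (5, 0, [1, 2])]⟩,
    ⟨[(0, 2), (0, 3), (1, 2), (2, 3)], [(2, 0), (2, 2), (2, 3), (2, 4), (3, 0), (3, 1), (3,
      2)], [(0, 0), (0, 2)], [], [(4, 0, [1, 2]), (5, 0, [1, 2]), (7, 2, [0])]⟩,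
    ⟨[(2, 4), (3, 4)], [(3, 0), (4, 0), (4, 2)], [(0, 2)], [7], [(5, 0, [1, 2]), (7, 2,
      [0])]⟩,
    ⟨[(2, 4), (3, 4), (4, 5)], [(2, 0), (4, 0), (4, 2), (5, 2)], [(0, 2)], [8], [(4, 0, [1,
      2]), (7, 2, [0])]⟩]
  Ta := [((4, 3), 0, 4), ((4, 9), 0, 8), ((5, 6), 0, 6), ((5, 8), 0, 7)]
  Tb := [((0, 1, 6), 1, 5, 6), ((1, 0, 2), 5, 1, 3), ((2, 1, 3), 3, 5, 4), ((3, 2, 4), 4, 3, 0),
    ((4, 3, 9), 0, 4, 8), ((5, 6, 8), 0, 6, 7), ((6, 0, 5), 6, 1, 0), ((7, 8, 9), 2, 7, 8),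
    ((8, 5, 7), 7, 0, 2), ((9, 4, 7), 8, 0, 2)]
  Tc := [(0, 1, 2), (1, 0, 3), (1, 0, 4), (1, 3, 4)]
  Td := [((0, 1), (4, 3), 4), ((0, 1), (4, 9), 8), ((0, 1), (5, 6), 6), ((0, 1), (5, 8), 7), ((0,
    2), (4, 3), 4), ((0, 2), (4, 9), 8), ((0, 2), (5, 6), 6), ((0, 2), (5, 8), 7), ((1, 0),
    (0, 1), 5), ((1, 0), (0, 6), 6), ((1, 3), (0, 1), 5), ((1, 3), (0, 6), 6), ((1, 4), (0,
    1), 5), ((1, 4), (0, 6), 6), ((2, 0), (7, 8), 7), ((2, 0), (7, 9), 8), ((3, 1), (2, 1),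
    5), ((3, 1), (2, 3), 4), ((4, 1), (3, 2), 3), ((4, 1), (3, 4), 0)]
  G := [[0, 0x114118c118118a118118ce14, 0x6c6812ac641266a412d4, 0x44c8cc12c4c8c1244c8cc12d8,
    0x88214488212aa88a1a2aa88a12812888288182aa88a5edc], [0, 0x114118a114118a114118ce12,
    0x66a8126ac812c66812d8, 0x11c411c8c211c41418cc21418c11c8c2d1,
    0xa8281818281218a11a8c618821218a11a8c6182818821218a11a8ced5]]

noncomputable def n1761 : Ent := ⟨e1761, noF, [], [], [(8, 15, [1685356702439545624007900436039642273970977273354372543760007299073, 0])]⟩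

def c1761 : PLift (Cov.check n1761.C.D v1761 = true) := ⟨by decide +kernel⟩

def b1761 : PLift (entF (fidx ts) 400 1761 n1761 = true) := ⟨by decide +kernel⟩

theorem g1761 : GoodF (fidx ts) 400 1761 := GoodF.ofV v1761 n1761 c1761.down b1761.down

/-- 4576654:1531/1 -/
noncomputable def e1762 : SCfg where
  D := {
    a := 7
    L := 10
    kp := 7
    inn := [(0, 1), (0, 2), (0, 3), (1, 0), (1, 2), (2, 0), (2, 1), (2, 3), (3, 0), (3, 2), (3, 4), (4,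
      3), (4, 5), (5, 4), (5, 6), (6, 5)]
    mix := [(0, 0), (1, 0), (1, 1), (1, 2), (2, 2), (2, 3), (2, 4), (2, 5), (3, 0), (3, 5), (3, 6), (4,
      0), (4, 6), (4, 7), (4, 8), (5, 0), (5, 8), (5, 9), (6, 0), (6, 1), (6, 9)]
    cl := [0, 2, 1, 5, 6, 1, 0, 7, 3, 4]
    chq := [(0, 3), (2, 3), (3, 0), (3, 2)]
    rng := [(0, 1), (1, 0), (1, 2), (1, 9), (2, 1), (2, 3), (3, 2), (3, 4), (4, 3), (4, 5), (5, 4), (5,
      6), (6, 5), (6, 7), (7, 6), (7, 8), (8, 7), (8, 9), (9, 1), (9, 8)]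
    lev := [] }
  links := [[1, 2, 3, 7], [2, 0, 7, 8, 9], [3, 0, 1, 9, 10, 11, 12], [7, 0, 2, 12, 13, 4], [7, 3, 13, 14,
    15, 5], [7, 4, 15, 16, 6], [7, 5, 16, 8]]
  P := {
    a := 7
    N := 17
    nb := [142, 901, 7691, 12437, 57512, 98512, 65952, 379, 66242, 1286, 2564, 5124, 10252, 20504,
      40976, 81968, 33120]
    tri := [(0, 1, 2), (0, 1, 7), (0, 2, 3), (0, 3, 7), (1, 2, 9), (1, 7, 8), (1, 8, 9), (2, 3, 12),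
      (2, 9, 10), (2, 10, 11), (2, 11, 12), (3, 4, 7), (3, 4, 13), (3, 12, 13), (4, 5, 7), (4, 5,
      15), (4, 13, 14), (4, 14, 15), (5, 6, 7), (5, 6, 16), (5, 15, 16), (6, 7, 8), (6, 8, 16)]
    fin := [0, 0, 2, 0, 0, 5, 5, 0, 5, 2, 10, 11, 2, 0, 14, 15, 16]
    chd := [(0, 15), (5, 15)]
    steps := [(0, 1), (0, 3), (0, 4), (0, 7), (0, 13), (2, 9), (2, 12), (5, 6), (5, 8)] }
  rep := [0, 2, 5, 15, 16, 10, 11, 14]

noncomputable def v1762 : Cov.CovD where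
  P := 3
  N := 5
  pl := [3, 4, 7, 9]
  lev := [⟨[], [], [], [], [(0, 0, [3])]⟩,
    ⟨[], [(0, 0), (0, 1), (0, 2)], [(0, 1), (0, 2), (1, 2)], [], [(0, 0, [3]), (1, 2, [3]),
      (2, 1, [])]⟩,
    ⟨[(0, 1)], [(0, 0), (0, 1), (1, 0), (1, 1), (1, 2)], [(1, 1)], [5, 6], [(2, 1, []), (5,
      1, [])]⟩,
    ⟨[(0, 1), (0, 2), (1, 2)], [(0, 0), (0, 1), (1, 0), (2, 0), (2, 1)], [(0, 0), (0, 1)],
      [], [(0, 0, [3]), (5, 1, []), (6, 0, [3])]⟩,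
    ⟨[(0, 3), (2, 3)], [(0, 0), (1, 0), (3, 0), (3, 1), (3, 3)], [(0, 0), (0, 3)], [7],
      [(0, 0, [3]), (6, 0, [3]), (8, 3, [0, 2])]⟩,
    ⟨[(3, 4)], [(0, 0), (1, 0), (3, 0), (4, 0), (4, 3)], [(0, 3)], [4], [(0, 0, [3]), (8,
      3, [0, 2])]⟩,
    ⟨[(4, 5)], [(0, 0), (1, 0), (1, 2), (3, 0), (4, 0), (5, 0), (5, 2), (5, 3)], [(0, 2)],
      [4], [(0, 0, [3]), (1, 2, [3])]⟩]
  Ta := [((0, 1), 0, 2), ((2, 1), 1, 2), ((2, 3), 1, 5), ((5, 4), 1, 6), ((5, 6), 1, 0), ((6, 5),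
    0, 1), ((6, 7), 0, 7)]
  Tb := [((1, 0, 2), 2, 0, 1), ((1, 0, 9), 2, 0, 4), ((1, 2, 9), 2, 1, 4), ((2, 1, 3), 1, 2, 5),
    ((3, 2, 4), 5, 1, 6), ((4, 3, 5), 6, 5, 1), ((5, 4, 6), 1, 6, 0), ((6, 5, 7), 0, 1, 7),
    ((7, 6, 8), 7, 0, 3), ((8, 7, 9), 3, 7, 4), ((9, 1, 8), 4, 2, 3)]
  Tc := [(3, 0, 2)]
  Td := [((0, 3), (0, 1), 2), ((0, 3), (6, 5), 1), ((0, 3), (6, 7), 7), ((2, 3), (1, 0), 0), ((2,
    3), (1, 2), 1), ((2, 3), (1, 9), 4), ((3, 0), (8, 7), 7), ((3, 0), (8, 9), 4), ((3, 2),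
    (8, 7), 7), ((3, 2), (8, 9), 4)]
  G := [[0, 0, 0x88ce2642e2a2ec648ce2622e8a2eca84ce2642e8a2ecad84,
    0xc2c2c2e4c2c2cc22cc2c2c2e8d82, 0xa8622ac8a2ec6a8622ac2a2eca8a2e42aca86acd84], [0, 0,
    0x6884428a2e4642e84ceac4268a2e88cee88a8e4622e44ceacd2c, 0,
    0x8a2ea8662ac8ca48a2ea86e88a2ea8662ac8cd22884486], [0, 0, 0,
    0x52c292e49245252ac9252c2e4d82, 0x12c816a4825212e186e8812e4825816acd8a2e48892], [0,
    0x843483483e481648368438a48384364838ae48, 0, 0,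
    0x812e186621c8c285812e186e8812e421c825acd24]]

noncomputable def n1762 : Ent := ⟨e1762, noF, [], [], []⟩

def c1762 : PLift (Cov.check n1762.C.D v1762 = true) := ⟨by decide +kernel⟩

def b1762 : PLift (entF (fidx ts) 400 1762 n1762 = true) := ⟨by decide +kernel⟩

theorem g1762 : GoodF (fidx ts) 400 1762 := GoodF.ofV v1762 n1762 c1762.down b1762.down

/-- 4576654:1531/2 -/
noncomputable def e1763 : SCfg where
  D := {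
    a := 7
    L := 10
    kp := 7
    inn := [(0, 1), (0, 2), (0, 3), (1, 0), (1, 2), (2, 0), (2, 1), (2, 3), (3, 0), (3, 2), (3, 4), (4,
      3), (4, 5), (5, 4), (5, 6), (6, 5)]
    mix := [(0, 0), (1, 0), (1, 1), (1, 2), (2, 2), (2, 3), (2, 4), (2, 5), (3, 0), (3, 5), (3, 6), (4,
      0), (4, 6), (4, 7), (4, 8), (5, 0), (5, 3), (5, 8), (6, 0), (6, 3), (6, 9)]
    cl := [0, 5, 1, 2, 6, 1, 0, 7, 3, 4]
    chq := [(0, 3), (3, 0), (3, 4), (4, 3)]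
    rng := [(0, 1), (0, 9), (1, 0), (1, 2), (2, 1), (2, 3), (3, 2), (3, 4), (3, 8), (3, 9), (4, 3), (4,
      5), (5, 4), (5, 6), (6, 5), (6, 7), (7, 6), (7, 8), (8, 3), (8, 7), (9, 0), (9, 3)]
    lev := [] }
  links := [[1, 2, 3, 7], [2, 0, 7, 8, 9], [3, 0, 1, 9, 10, 11, 12], [7, 0, 2, 12, 13, 4], [7, 3, 13, 14,
    15, 5], [7, 4, 15, 10, 6], [7, 5, 10, 16]]
  P := {
    a := 7
    N := 17
    nb := [142, 901, 7691, 12437, 57512, 34000, 66720, 65915, 642, 1286, 100964, 5124, 10252, 20504,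
      40976, 17456, 1216]
    tri := [(0, 1, 2), (0, 1, 7), (0, 2, 3), (0, 3, 7), (1, 2, 9), (1, 7, 8), (1, 8, 9), (2, 3, 12),
      (2, 9, 10), (2, 10, 11), (2, 11, 12), (3, 4, 7), (3, 4, 13), (3, 12, 13), (4, 5, 7), (4, 5,
      15), (4, 13, 14), (4, 14, 15), (5, 6, 7), (5, 6, 10), (5, 10, 15), (6, 7, 16), (6, 10, 16)]
    fin := [0, 0, 2, 0, 0, 5, 5, 0, 8, 2, 10, 11, 2, 0, 14, 5, 16]
    chd := [(0, 5), (5, 16)]
    steps := [(0, 1), (0, 3), (0, 4), (0, 7), (0, 13), (2, 9), (2, 12), (5, 6), (5, 15)] }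
  rep := [0, 2, 10, 5, 16, 8, 11, 14]

noncomputable def v1763 : Cov.CovD where
  P := 3
  N := 5
  pl := [1, 3, 4, 7]
  lev := [⟨[], [], [], [], [(0, 0, [3])]⟩,
    ⟨[], [(0, 0), (0, 1)], [(0, 1)], [5], [(0, 0, [3]), (2, 1, [])]⟩,
    ⟨[(0, 1)], [(0, 0), (0, 1), (1, 0), (1, 1)], [(1, 1)], [2, 6], [(2, 1, []), (5, 1,
      [])]⟩,
    ⟨[(0, 1), (0, 2), (1, 2)], [(0, 0), (0, 1), (1, 0), (2, 0), (2, 1)], [(0, 0), (0, 1)],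
      [], [(0, 0, [3]), (5, 1, []), (6, 0, [3])]⟩,
    ⟨[(0, 3), (2, 3)], [(0, 0), (1, 0), (3, 0), (3, 1), (3, 3)], [(0, 0), (0, 3)], [7],
      [(0, 0, [3]), (6, 0, [3]), (8, 3, [0, 4])]⟩,
    ⟨[(3, 4)], [(0, 0), (1, 0), (3, 0), (4, 0), (4, 3)], [(0, 3)], [2], [(0, 0, [3]), (8,
      3, [0, 4])]⟩,
    ⟨[(4, 5)], [(0, 0), (1, 0), (3, 0), (4, 0), (5, 0), (5, 3), (5, 4)], [(0, 4)], [2],
      [(0, 0, [3]), (9, 4, [3])]⟩]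
  Ta := [((0, 1), 0, 5), ((0, 9), 0, 4), ((2, 1), 1, 5), ((2, 3), 1, 2), ((5, 4), 1, 6), ((5, 6),
    1, 0), ((6, 5), 0, 1), ((6, 7), 0, 7)]
  Tb := [((0, 1, 9), 0, 5, 4), ((1, 0, 2), 5, 0, 1), ((2, 1, 3), 1, 5, 2), ((3, 2, 4), 2, 1, 6),
    ((3, 2, 8), 2, 1, 3), ((3, 2, 9), 2, 1, 4), ((3, 4, 8), 2, 6, 3), ((3, 4, 9), 2, 6, 4),
    ((3, 8, 9), 2, 3, 4), ((4, 3, 5), 6, 2, 1), ((5, 4, 6), 1, 6, 0), ((6, 5, 7), 0, 1, 7),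
    ((7, 6, 8), 7, 0, 3), ((8, 3, 7), 3, 2, 7), ((9, 0, 3), 4, 0, 2)]
  Tc := [(3, 0, 4)]
  Td := [((0, 3), (0, 1), 5), ((0, 3), (0, 9), 4), ((0, 3), (6, 5), 1), ((0, 3), (6, 7), 7), ((3,
    0), (8, 3), 2), ((3, 0), (8, 7), 7), ((3, 4), (8, 3), 2), ((3, 4), (8, 7), 7), ((4, 3),
    (9, 0), 0), ((4, 3), (9, 3), 2)]
  G := [[0, 0, 0x6828a48ae4a4424648cacca4c26688c246a4c2e8cc2,
    0x4848ca844648c24884cac48c24884ca8448c6488a9c4,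
    0x28a28a28ae428a28a628a8c928a28a28ae428a28a28ae49c2], [0, 0, 0xa4468c2ac24628ac2e8c24, 0,
    0x28a28a28ae428a28a28ae4928], [0, 0, 0xa4c26688a246a4c2e8c14, 0x8448c6488c8448c6488cc12,
    0x1812312e41a118a12e8128a28a28ae48d2], [0, 0x18c1c1e218c1c1e2cc1c1c1e21814c1e2ca4,
    0x6828ac2e4246a4c2e8c12, 0, 0xa111a12e418a126188c928]]

noncomputable def n1763 : Ent := ⟨e1763, noF, [], [], []⟩

def c1763 : PLift (Cov.check n1763.C.D v1763 = true) := ⟨by decide +kernel⟩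

def b1763 : PLift (entF (fidx ts) 400 1763 n1763 = true) := ⟨by decide +kernel⟩

theorem g1763 : GoodF (fidx ts) 400 1763 := GoodF.ofV v1763 n1763 c1763.down b1763.down

/-- 4576654:1531/3 -/
noncomputable def e1764 : SCfg where
  D := {
    a := 7
    L := 10
    kp := 7
    inn := [(0, 1), (0, 2), (0, 3), (1, 0), (1, 2), (2, 0), (2, 1), (2, 3), (3, 0), (3, 2), (3, 4), (4,
      3), (4, 5), (5, 4), (5, 6), (6, 5)]
    mix := [(0, 0), (1, 0), (1, 1), (1, 2), (2, 2), (2, 3), (2, 4), (2, 5), (3, 0), (3, 5), (3, 6), (4,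
      0), (4, 6), (4, 7), (4, 8), (5, 0), (5, 4), (5, 8), (6, 0), (6, 4), (6, 9)]
    cl := [0, 5, 1, 6, 2, 1, 0, 7, 3, 4]
    chq := [(0, 3), (3, 0), (3, 4), (4, 3)]
    rng := [(0, 1), (0, 9), (1, 0), (1, 2), (2, 1), (2, 3), (3, 2), (3, 4), (4, 3), (4, 5), (4, 8), (4,
      9), (5, 4), (5, 6), (6, 5), (6, 7), (7, 6), (7, 8), (8, 4), (8, 7), (9, 0), (9, 4)]
    lev := [] }
  links := [[1, 2, 3, 7], [2, 0, 7, 8, 9], [3, 0, 1, 9, 10, 11, 12], [7, 0, 2, 12, 13, 4], [7, 3, 13, 14,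
    15, 5], [7, 4, 15, 11, 6], [7, 5, 11, 16]]
  P := {
    a := 7
    N := 17
    nb := [142, 901, 7691, 12437, 57512, 35024, 67744, 65915, 642, 1286, 2564, 103524, 10252, 20504,
      40976, 18480, 2240]
    tri := [(0, 1, 2), (0, 1, 7), (0, 2, 3), (0, 3, 7), (1, 2, 9), (1, 7, 8), (1, 8, 9), (2, 3, 12),
      (2, 9, 10), (2, 10, 11), (2, 11, 12), (3, 4, 7), (3, 4, 13), (3, 12, 13), (4, 5, 7), (4, 5,
      15), (4, 13, 14), (4, 14, 15), (5, 6, 7), (5, 6, 11), (5, 11, 15), (6, 7, 16), (6, 11, 16)]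
    fin := [0, 0, 2, 0, 0, 5, 5, 0, 8, 2, 10, 11, 2, 0, 14, 5, 16]
    chd := [(0, 5), (5, 16)]
    steps := [(0, 1), (0, 3), (0, 4), (0, 7), (0, 13), (2, 9), (2, 12), (5, 6), (5, 15)] }
  rep := [0, 2, 11, 5, 16, 8, 10, 14]

noncomputable def v1764 : Cov.CovD where
  P := 3
  N := 5
  pl := [1, 3, 4, 7]
  lev := [⟨[], [], [], [], [(0, 0, [3])]⟩,
    ⟨[], [(0, 0), (0, 1)], [(0, 1)], [5], [(0, 0, [3]), (2, 1, [])]⟩,
    ⟨[(0, 1)], [(0, 0), (0, 1), (1, 0), (1, 1)], [(1, 1)], [2, 6], [(2, 1, []), (5, 1,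
      [])]⟩,
    ⟨[(0, 1), (0, 2), (1, 2)], [(0, 0), (0, 1), (1, 0), (2, 0), (2, 1)], [(0, 0), (0, 1)],
      [], [(0, 0, [3]), (5, 1, []), (6, 0, [3])]⟩,
    ⟨[(0, 3), (2, 3)], [(0, 0), (1, 0), (3, 0), (3, 1), (3, 3)], [(0, 0), (0, 3)], [7],
      [(0, 0, [3]), (6, 0, [3]), (8, 3, [0, 4])]⟩,
    ⟨[(3, 4)], [(0, 0), (1, 0), (3, 0), (4, 0), (4, 3)], [(0, 3)], [2], [(0, 0, [3]), (8,
      3, [0, 4])]⟩,
    ⟨[(4, 5)], [(0, 0), (1, 0), (3, 0), (4, 0), (5, 0), (5, 3), (5, 4)], [(0, 4)], [2],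
      [(0, 0, [3]), (9, 4, [3])]⟩]
  Ta := [((0, 1), 0, 5), ((0, 9), 0, 4), ((2, 1), 1, 5), ((2, 3), 1, 6), ((5, 4), 1, 2), ((5, 6),
    1, 0), ((6, 5), 0, 1), ((6, 7), 0, 7)]
  Tb := [((0, 1, 9), 0, 5, 4), ((1, 0, 2), 5, 0, 1), ((2, 1, 3), 1, 5, 6), ((3, 2, 4), 6, 1, 2),
    ((4, 3, 5), 2, 6, 1), ((4, 3, 8), 2, 6, 3), ((4, 3, 9), 2, 6, 4), ((4, 5, 8), 2, 1, 3),
    ((4, 5, 9), 2, 1, 4), ((4, 8, 9), 2, 3, 4), ((5, 4, 6), 1, 2, 0), ((6, 5, 7), 0, 1, 7),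
    ((7, 6, 8), 7, 0, 3), ((8, 4, 7), 3, 2, 7), ((9, 0, 4), 4, 0, 2)]
  Tc := [(3, 0, 4)]
  Td := [((0, 3), (0, 1), 5), ((0, 3), (0, 9), 4), ((0, 3), (6, 5), 1), ((0, 3), (6, 7), 7), ((3,
    0), (8, 4), 2), ((3, 0), (8, 7), 7), ((3, 4), (8, 4), 2), ((3, 4), (8, 7), 7), ((4, 3),
    (9, 0), 0), ((4, 3), (9, 4), 2)]
  G := [[0, 0, 0xc2268a4c6c226828acac4c2268a4c6c2268a4cac8c, 0,
    0x28a28a28ae428a28a28ae4928a28a628a8c28a28a28ae49c2], [0, 0, 0xa4468c2ac246a4c2e8c24,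
    0x8444848cac8448c6488c528, 0x28a28a28ae428a28a28ae4928], [0, 0, 0xa4c26688ca44246c2acc12,
    0, 0x18a112e411811a12e4128a28a28ae48d8], [0, 0x18c1a1446c114c1e2cc1418c1acc114c1e2ca4,
    0xa448a6688c246a4c2e8c21, 0x41189145e8411418ce8524, 0xa141812aca141812ac924]]

noncomputable def n1764 : Ent := ⟨e1764, noF, [], [], []⟩

def c1764 : PLift (Cov.check n1764.C.D v1764 = true) := ⟨by decide +kernel⟩

def b1764 : PLift (entF (fidx ts) 400 1764 n1764 = true) := ⟨by decide +kernel⟩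

theorem g1764 : GoodF (fidx ts) 400 1764 := GoodF.ofV v1764 n1764 c1764.down b1764.down

/-- 4576654:1531 -/
noncomputable def e1765 : SCfg where
  D := {
    a := 7
    L := 11
    kp := 8
    inn := [(0, 1), (0, 2), (0, 3), (1, 0), (1, 2), (2, 0), (2, 1), (2, 3), (3, 0), (3, 2), (3, 4), (4,
      3), (4, 5), (5, 4), (5, 6), (6, 5)]
    mix := [(0, 0), (1, 0), (1, 1), (1, 2), (2, 2), (2, 3), (2, 4), (2, 5), (3, 0), (3, 5), (3, 6), (4,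
      0), (4, 6), (4, 7), (4, 8), (5, 0), (5, 8), (5, 9), (6, 0), (6, 9), (6, 10)]
    cl := [0, 5, 1, 6, 7, 1, 0, 8, 2, 3, 4]
    chq := [(0, 2), (2, 0), (2, 4), (4, 2)]
    rng := [(0, 1), (0, 10), (1, 0), (1, 2), (2, 1), (2, 3), (3, 2), (3, 4), (4, 3), (4, 5), (5, 4),
      (5, 6), (6, 5), (6, 7), (7, 6), (7, 8), (8, 7), (8, 9), (9, 8), (9, 10), (10, 0), (10, 9)]
    lev := [] }
  links := [[1, 2, 3, 7], [2, 0, 7, 8, 9], [3, 0, 1, 9, 10, 11, 12], [7, 0, 2, 12, 13, 4], [7, 3, 13, 14,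
    15, 5], [7, 4, 15, 16, 6], [7, 5, 16, 17]]
  P := {
    a := 7
    N := 18
    nb := [142, 901, 7691, 12437, 57512, 98512, 196768, 131451, 642, 1286, 2564, 5124, 10252, 20504,
      40976, 81968, 163936, 65728]
    tri := [(0, 1, 2), (0, 1, 7), (0, 2, 3), (0, 3, 7), (1, 2, 9), (1, 7, 8), (1, 8, 9), (2, 3, 12),
      (2, 9, 10), (2, 10, 11), (2, 11, 12), (3, 4, 7), (3, 4, 13), (3, 12, 13), (4, 5, 7), (4, 5,
      15), (4, 13, 14), (4, 14, 15), (5, 6, 7), (5, 6, 16), (5, 15, 16), (6, 7, 17), (6, 16, 17)]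
    fin := [0, 0, 2, 0, 0, 5, 5, 0, 8, 2, 10, 11, 2, 0, 14, 5, 16, 17]
    chd := [(0, 5), (5, 17)]
    steps := [(0, 1), (0, 3), (0, 4), (0, 7), (0, 13), (2, 9), (2, 12), (5, 6), (5, 15)] }
  rep := [0, 2, 5, 16, 17, 8, 10, 11, 14]

noncomputable def v1765 : Cov.CovD where
  P := 3
  N := 6
  pl := [1, 3, 4, 7, 9]
  lev := [⟨[], [], [], [], [(0, 0, [2])]⟩,
    ⟨[], [(0, 0), (0, 1)], [(0, 1)], [5], [(0, 0, [2]), (2, 1, [])]⟩,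
    ⟨[(0, 1)], [(0, 0), (0, 1), (1, 0), (1, 1)], [(1, 1)], [6, 7], [(2, 1, []), (5, 1,
      [])]⟩,
    ⟨[(0, 1), (0, 2), (1, 2)], [(0, 0), (0, 1), (1, 0), (2, 0), (2, 1)], [(0, 0), (0, 1)],
      [], [(0, 0, [2]), (5, 1, []), (6, 0, [2])]⟩,
    ⟨[(0, 3), (2, 3)], [(0, 0), (1, 0), (3, 0), (3, 1), (3, 2)], [(0, 0), (0, 2)], [8],
      [(0, 0, [2]), (6, 0, [2]), (8, 2, [0, 4])]⟩,
    ⟨[(3, 4)], [(0, 0), (1, 0), (3, 0), (4, 0), (4, 2)], [(0, 2)], [3], [(0, 0, [2]), (8,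
      2, [0, 4])]⟩,
    ⟨[(4, 5)], [(0, 0), (1, 0), (3, 0), (4, 0), (5, 0), (5, 2), (5, 4)], [(0, 4)], [3],
      [(0, 0, [2]), (10, 4, [2])]⟩]
  Ta := [((0, 1), 0, 5), ((0, 10), 0, 4), ((2, 1), 1, 5), ((2, 3), 1, 6), ((5, 4), 1, 7), ((5,
    6), 1, 0), ((6, 5), 0, 1), ((6, 7), 0, 8)]
  Tb := [((0, 1, 10), 0, 5, 4), ((1, 0, 2), 5, 0, 1), ((2, 1, 3), 1, 5, 6), ((3, 2, 4), 6, 1, 7),
    ((4, 3, 5), 7, 6, 1), ((5, 4, 6), 1, 7, 0), ((6, 5, 7), 0, 1, 8), ((7, 6, 8), 8, 0, 2),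
    ((8, 7, 9), 2, 8, 3), ((9, 8, 10), 3, 2, 4), ((10, 0, 9), 4, 0, 3)]
  Tc := [(2, 0, 4)]
  Td := [((0, 2), (0, 1), 5), ((0, 2), (0, 10), 4), ((0, 2), (6, 5), 1), ((0, 2), (6, 7), 8),
    ((2, 0), (8, 7), 8), ((2, 0), (8, 9), 3), ((2, 4), (8, 7), 8), ((2, 4), (8, 9), 3), ((4,
    2), (10, 0), 0), ((4, 2), (10, 9), 3)]
  G := [[0, 0, 0x11c11ca41141812e81ca6c6ac2ca6c6ac8cd4,
    0x2ece8c24466ac6acc22ece2cc2d46ace2cc2e4e2cc288a6ac6acc2d8c,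
    0x4eae4aa4e4a24ea8656cae4aa4e4a24ea8ae4a24ea86dc6ca24ea8688c], [0, 0,
    0x121814e411a11c6811a11c64d28, 0x288442e2c42ec8ce4e2cc8e2c42ec8cd2c,
    0x4ea6caa46ca24ea8c6cae4aa4d28], [0, 0, 0x141218e41141812e41ca6a6ca4c6aa6c68cd8,
    0x32521cc8121cc29c212ece2cc22ece2cc2cd4, 0x14a41aa4141a41aa416ca24ea8c6cae4aa4cd2], [0,
    0x32521cc2c2521cc821cc29c4e21cc29c432512cc8c2512cc8ec2, 0x141812e411c116a411a11c68d28,
    0x21c43298c32521cc812c4c258cd24, 0x41a214a8c543a49a841a14aa4d24]]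

noncomputable def n1765 : Ent := ⟨e1765, noF, [], [], [(8, 17, [6903326391201334775872065844685381424292761054348340378595029936906241, 0]), (10, 16, [7334685537875745012586738086077695515070955365108989538292687700897793, 0]), (11, 16, [7334685537875745012586738086077695515070955365108989538292687700901889, 0])]⟩

def c1765 : PLift (Cov.check n1765.C.D v1765 = true) := ⟨by decide +kernel⟩

def b1765 : PLift (entF (fidx ts) 400 1765 n1765 = true) := ⟨by decide +kernel⟩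

theorem g1765 : GoodF (fidx ts) 400 1765 := GoodF.ofV v1765 n1765 c1765.down b1765.down

/-- 4576744:1532/2 -/
noncomputable def e1766 : SCfg where
  D := {
    a := 7
    L := 9
    kp := 6
    inn := [(0, 1), (0, 2), (0, 3), (1, 0), (1, 2), (2, 0), (2, 1), (2, 3), (3, 0), (3, 2), (3, 4), (4,
      3), (4, 5), (4, 6), (5, 4), (6, 4)]
    mix := [(0, 0), (1, 0), (1, 1), (1, 2), (2, 2), (2, 3), (2, 4), (2, 5), (3, 0), (3, 5), (3, 6), (4,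
      0), (4, 1), (4, 6), (4, 7), (5, 6), (5, 7), (5, 8), (6, 1), (6, 2), (6, 7)]
    cl := [0, 2, 1, 4, 5, 1, 0, 3, 6]
    chq := [(0, 3), (2, 3), (3, 0), (3, 2)]
    rng := [(0, 1), (1, 0), (1, 2), (2, 1), (2, 3), (2, 7), (3, 2), (3, 4), (4, 3), (4, 5), (5, 4), (5,
      6), (6, 5), (6, 8), (7, 2), (7, 8), (8, 6), (8, 7)]
    lev := [] }
  links := [[1, 2, 3, 7], [2, 0, 7, 8, 9], [3, 0, 1, 9, 10, 11, 12], [7, 0, 2, 12, 13, 4], [7, 3, 13, 5,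
    14, 6, 8], [14, 4, 13, 15], [8, 4, 14, 9]]
  P := {
    a := 7
    N := 16
    nb := [142, 901, 7691, 12437, 25064, 57360, 17168, 283, 722, 17734, 2564, 5124, 10252, 36920,
      33392, 24608]
    tri := [(0, 1, 2), (0, 1, 7), (0, 2, 3), (0, 3, 7), (1, 2, 9), (1, 7, 8), (1, 8, 9), (2, 3, 12),
      (2, 9, 10), (2, 10, 11), (2, 11, 12), (3, 4, 7), (3, 4, 13), (3, 12, 13), (4, 5, 13), (4, 5,
      14), (4, 6, 8), (4, 6, 14), (4, 7, 8), (5, 13, 15), (5, 14, 15), (6, 8, 9), (6, 9, 14)]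
    fin := [0, 0, 2, 0, 0, 0, 6, 0, 6, 2, 10, 11, 2, 0, 14, 15]
    chd := [(0, 14), (6, 14)]
    steps := [(0, 1), (0, 3), (0, 7), (0, 4), (0, 5), (0, 13), (2, 9), (2, 12), (6, 8)] }
  rep := [0, 2, 6, 14, 10, 11, 15]

noncomputable def v1766 : Cov.CovD where
  P := 3
  N := 4
  pl := [3, 4, 8]
  lev := [⟨[], [], [], [], [(0, 0, [3])]⟩,
    ⟨[], [(0, 0), (0, 1), (0, 2)], [(0, 1), (0, 2), (1, 2)], [], [(0, 0, [3]), (1, 2, [3]),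
      (2, 1, [])]⟩,
    ⟨[(0, 1)], [(0, 0), (0, 1), (1, 0), (1, 1), (1, 2)], [(1, 1)], [4, 5], [(2, 1, []), (5,
      1, [])]⟩,
    ⟨[(0, 1), (0, 2), (1, 2)], [(0, 0), (0, 1), (1, 0), (2, 0), (2, 1)], [(0, 0), (0, 1)],
      [], [(0, 0, [3]), (5, 1, []), (6, 0, [3])]⟩,
    ⟨[(0, 3), (2, 3)], [(0, 0), (1, 0), (1, 2), (3, 0), (3, 1), (3, 2), (3, 3)], [(0, 0),
      (0, 2), (0, 3), (2, 3)], [], [(0, 0, [3]), (1, 2, [3]), (6, 0, [3]), (7, 3, [0, 2])]⟩,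
    ⟨[(3, 4)], [(3, 0), (4, 0), (4, 2), (4, 3)], [(0, 3)], [6], [(6, 0, [3]), (7, 3, [0,
      2])]⟩,
    ⟨[(3, 4), (4, 5)], [(1, 1), (1, 2), (2, 1), (4, 0), (4, 1), (4, 2), (4, 3), (5, 3)],
      [(1, 2), (1, 3), (2, 3)], [], [(1, 2, [3]), (2, 1, []), (7, 3, [0, 2])]⟩]
  Ta := [((0, 1), 0, 2), ((2, 1), 1, 2), ((2, 3), 1, 4), ((2, 7), 1, 3), ((5, 4), 1, 5), ((5, 6),
    1, 0), ((6, 5), 0, 1), ((6, 8), 0, 6)]
  Tb := [((1, 0, 2), 2, 0, 1), ((2, 1, 3), 1, 2, 4), ((2, 1, 7), 1, 2, 3), ((2, 3, 7), 1, 4, 3),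
    ((3, 2, 4), 4, 1, 5), ((4, 3, 5), 5, 4, 1), ((5, 4, 6), 1, 5, 0), ((6, 5, 8), 0, 1, 6),
    ((7, 2, 8), 3, 1, 6), ((8, 6, 7), 6, 0, 3)]
  Tc := [(3, 0, 2)]
  Td := [((0, 3), (0, 1), 2), ((0, 3), (6, 5), 1), ((0, 3), (6, 8), 6), ((2, 3), (1, 0), 0), ((2,
    3), (1, 2), 1), ((3, 0), (7, 2), 1), ((3, 0), (7, 8), 6), ((3, 2), (7, 2), 1), ((3, 2),
    (7, 8), 6)]
  G := [[0, 0, 0x8141a4418168418168d42, 0x11a8414611a41c211a41c2d84,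
    0x81116a481116a418c11a4d82], [0, 0, 0xc124c124c124d82, 0, 0x116241162411628d82], [0, 0,
    0, 0x18a146c2111a814646116411a8cc98, 0x11c116a4118c116a411c116a4c98], [0,
    0x14418a12cc11a116c214411a12cce42, 0, 0, 0x116241162811624d24]]

noncomputable def n1766 : Ent := ⟨e1766, noF, [], [], []⟩

def c1766 : PLift (Cov.check n1766.C.D v1766 = true) := ⟨by decide +kernel⟩

def b1766 : PLift (entF (fidx ts) 400 1766 n1766 = true) := ⟨by decide +kernel⟩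

theorem g1766 : GoodF (fidx ts) 400 1766 := GoodF.ofV v1766 n1766 c1766.down b1766.down

/-- 4576744:1532/1 -/
noncomputable def e1767 : SCfg where
  D := {
    a := 7
    L := 10
    kp := 7
    inn := [(0, 1), (0, 2), (0, 3), (1, 0), (1, 2), (2, 0), (2, 1), (2, 3), (3, 0), (3, 2), (3, 4), (4,
      3), (4, 5), (4, 6), (5, 4), (6, 4)]
    mix := [(0, 0), (1, 0), (1, 1), (1, 2), (2, 2), (2, 3), (2, 4), (2, 5), (3, 0), (3, 5), (3, 6), (4,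
      0), (4, 1), (4, 6), (4, 7), (5, 6), (5, 7), (5, 8), (6, 1), (6, 7), (6, 9)]
    cl := [0, 2, 1, 5, 6, 1, 0, 3, 7, 4]
    chq := [(0, 3), (0, 4), (3, 0), (4, 0)]
    rng := [(0, 1), (1, 0), (1, 2), (1, 9), (2, 1), (2, 3), (3, 2), (3, 4), (4, 3), (4, 5), (5, 4), (5,
      6), (6, 5), (6, 8), (7, 8), (7, 9), (8, 6), (8, 7), (9, 1), (9, 7)]
    lev := [] }
  links := [[1, 2, 3, 7], [2, 0, 7, 8, 9], [3, 0, 1, 9, 10, 11, 12], [7, 0, 2, 12, 13, 4], [7, 3, 13, 5,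
    14, 6, 8], [14, 4, 13, 15], [8, 4, 14, 16]]
  P := {
    a := 7
    N := 17
    nb := [142, 901, 7691, 12437, 25064, 57360, 82192, 283, 66258, 1286, 2564, 5124, 10252, 36920,
      98416, 24608, 16704]
    tri := [(0, 1, 2), (0, 1, 7), (0, 2, 3), (0, 3, 7), (1, 2, 9), (1, 7, 8), (1, 8, 9), (2, 3, 12),
      (2, 9, 10), (2, 10, 11), (2, 11, 12), (3, 4, 7), (3, 4, 13), (3, 12, 13), (4, 5, 13), (4, 5,
      14), (4, 6, 8), (4, 6, 14), (4, 7, 8), (5, 13, 15), (5, 14, 15), (6, 8, 16), (6, 14, 16)]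
    fin := [0, 0, 2, 0, 0, 0, 0, 0, 8, 2, 10, 11, 2, 0, 14, 15, 16]
    chd := [(0, 14), (0, 16)]
    steps := [(0, 1), (0, 3), (0, 7), (0, 4), (0, 5), (0, 6), (0, 13), (2, 9), (2, 12)] }
  rep := [0, 2, 8, 14, 16, 10, 11, 15]

noncomputable def v1767 : Cov.CovD where
  P := 3
  N := 5
  pl := [1, 3, 4, 8]
  lev := [⟨[], [], [], [], [(0, 0, [3, 4])]⟩,
    ⟨[], [(0, 0), (0, 1)], [(0, 1)], [2], [(0, 0, [3, 4]), (2, 1, [])]⟩,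
    ⟨[(0, 1)], [(0, 0), (0, 1), (1, 0), (1, 1)], [(1, 1)], [5, 6], [(2, 1, []), (5, 1,
      [])]⟩,
    ⟨[(0, 1), (0, 2), (1, 2)], [(0, 0), (0, 1), (1, 0), (2, 0), (2, 1)], [(0, 0), (0, 1)],
      [], [(0, 0, [3, 4]), (5, 1, []), (6, 0, [3, 4])]⟩,
    ⟨[(0, 3), (2, 3)], [(0, 0), (1, 0), (3, 0), (3, 1), (3, 3)], [(0, 0), (0, 3)], [2],
      [(0, 0, [3, 4]), (6, 0, [3, 4]), (7, 3, [0])]⟩,
    ⟨[(3, 4)], [(3, 0), (4, 0), (4, 3)], [(0, 3)], [7], [(6, 0, [3, 4]), (7, 3, [0])]⟩,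
    ⟨[(3, 4), (4, 5)], [(4, 0), (4, 3), (4, 4), (5, 3)], [(3, 4)], [2], [(7, 3, [0]), (9,
      4, [0])]⟩]
  Ta := [((0, 1), 0, 2), ((2, 1), 1, 2), ((2, 3), 1, 5), ((5, 4), 1, 6), ((5, 6), 1, 0), ((6, 5),
    0, 1), ((6, 8), 0, 7)]
  Tb := [((1, 0, 2), 2, 0, 1), ((1, 0, 9), 2, 0, 4), ((1, 2, 9), 2, 1, 4), ((2, 1, 3), 1, 2, 5),
    ((3, 2, 4), 5, 1, 6), ((4, 3, 5), 6, 5, 1), ((5, 4, 6), 1, 6, 0), ((6, 5, 8), 0, 1, 7),
    ((7, 8, 9), 3, 7, 4), ((8, 6, 7), 7, 0, 3), ((9, 1, 7), 4, 2, 3)]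
  Tc := [(0, 3, 4)]
  Td := [((0, 3), (0, 1), 2), ((0, 3), (6, 5), 1), ((0, 3), (6, 8), 7), ((0, 4), (0, 1), 2), ((0,
    4), (6, 5), 1), ((0, 4), (6, 8), 7), ((3, 0), (7, 8), 7), ((3, 0), (7, 9), 4), ((4, 0),
    (9, 1), 2), ((4, 0), (9, 7), 3)]
  G := [[0, 0, 0xa161c2c1a168c161a4d84, 0x113119c411116c811116c8d42,
    0x11c11a411116a411116a8d82], [0, 0, 0xc161a4c1a168614a18cd84, 0,
    0x11116a411c11a411c11a4d28], [0, 0, 0, 0x11a81164611a116c211a116c2d84,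
    0x11c116a4111c116a411c116a4c92], [0, 0x14411a12cc11a116c211a116c2e41, 0, 0,
    0x11c116a411c116a4116211c8cd28]]

noncomputable def n1767 : Ent := ⟨e1767, noF, [], [], [(9, 16, [1580044410770988437309982408355971841652082177953823432505696346113, 0])]⟩

def c1767 : PLift (Cov.check n1767.C.D v1767 = true) := ⟨by decide +kernel⟩

def b1767 : PLift (entF (fidx ts) 400 1767 n1767 = true) := ⟨by decide +kernel⟩

theorem g1767 : GoodF (fidx ts) 400 1767 := GoodF.ofV v1767 n1767 c1767.down b1767.down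

/-- 4576744:1532/3 -/
noncomputable def e1768 : SCfg where
  D := {
    a := 7
    L := 10
    kp := 7
    inn := [(0, 1), (0, 2), (0, 3), (1, 0), (1, 2), (2, 0), (2, 1), (2, 3), (3, 0), (3, 2), (3, 4), (4,
      3), (4, 5), (4, 6), (5, 4), (6, 4)]
    mix := [(0, 0), (1, 0), (1, 1), (1, 2), (2, 2), (2, 3), (2, 4), (2, 5), (3, 0), (3, 5), (3, 6), (4,
      0), (4, 6), (4, 7), (4, 8), (5, 6), (5, 7), (5, 9), (6, 2), (6, 7), (6, 8)]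
    cl := [0, 2, 1, 5, 6, 1, 0, 3, 4, 7]
    chq := [(0, 3), (3, 0), (3, 4), (4, 3)]
    rng := [(0, 1), (0, 8), (1, 0), (1, 2), (2, 1), (2, 3), (2, 7), (2, 8), (3, 2), (3, 4), (4, 3), (4,
      5), (5, 4), (5, 6), (6, 5), (6, 9), (7, 2), (7, 9), (8, 0), (8, 2), (9, 6), (9, 7)]
    lev := [] }
  links := [[1, 2, 3, 7], [2, 0, 7, 8, 9], [3, 0, 1, 9, 10, 11, 12], [7, 0, 2, 12, 13, 4], [7, 3, 13, 5,
    14, 6, 15], [14, 4, 13, 16], [15, 4, 14, 9]]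
  P := {
    a := 7
    N := 17
    nb := [142, 901, 7691, 12437, 57576, 90128, 49680, 33051, 642, 50502, 2564, 5124, 10252, 69688,
      66160, 720, 24608]
    tri := [(0, 1, 2), (0, 1, 7), (0, 2, 3), (0, 3, 7), (1, 2, 9), (1, 7, 8), (1, 8, 9), (2, 3, 12),
      (2, 9, 10), (2, 10, 11), (2, 11, 12), (3, 4, 7), (3, 4, 13), (3, 12, 13), (4, 5, 13), (4, 5,
      14), (4, 6, 14), (4, 6, 15), (4, 7, 15), (5, 13, 16), (5, 14, 16), (6, 9, 14), (6, 9, 15)]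
    fin := [0, 0, 2, 0, 4, 0, 2, 0, 8, 2, 10, 11, 2, 0, 4, 15, 16]
    chd := [(0, 4), (4, 15)]
    steps := [(0, 1), (0, 3), (0, 7), (0, 13), (0, 5), (2, 9), (2, 6), (2, 12), (4, 14)] }
  rep := [0, 2, 8, 4, 15, 10, 11, 16]

noncomputable def v1768 : Cov.CovD where
  P := 3
  N := 5
  pl := [1, 3, 4, 9]
  lev := [⟨[], [], [], [], [(0, 0, [3])]⟩,
    ⟨[], [(0, 0), (0, 1)], [(0, 1)], [2], [(0, 0, [3]), (2, 1, [])]⟩,
    ⟨[(0, 1)], [(0, 0), (0, 1), (1, 0), (1, 1)], [(1, 1)], [5, 6], [(2, 1, []), (5, 1,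
      [])]⟩,
    ⟨[(0, 1), (0, 2), (1, 2)], [(0, 0), (0, 1), (1, 0), (2, 0), (2, 1)], [(0, 0), (0, 1)],
      [], [(0, 0, [3]), (5, 1, []), (6, 0, [3])]⟩,
    ⟨[(0, 3), (2, 3)], [(0, 0), (1, 0), (3, 0), (3, 1), (3, 3), (3, 4)], [(0, 0), (0, 3),
      (0, 4), (3, 4)], [], [(0, 0, [3]), (6, 0, [3]), (7, 3, [0, 4]), (8, 4, [3])]⟩,
    ⟨[(3, 4)], [(3, 0), (4, 0), (4, 3), (4, 4)], [(0, 3)], [7], [(6, 0, [3]), (7, 3, [0,
      4])]⟩,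
    ⟨[(3, 4), (4, 5)], [(1, 1), (2, 1), (4, 0), (4, 1), (4, 3), (4, 4), (5, 3)], [(1, 3),
      (1, 4), (3, 4)], [], [(2, 1, []), (7, 3, [0, 4]), (8, 4, [3])]⟩]
  Ta := [((0, 1), 0, 2), ((0, 8), 0, 4), ((2, 1), 1, 2), ((2, 3), 1, 5), ((2, 7), 1, 3), ((2, 8),
    1, 4), ((5, 4), 1, 6), ((5, 6), 1, 0), ((6, 5), 0, 1), ((6, 9), 0, 7)]
  Tb := [((0, 1, 8), 0, 2, 4), ((1, 0, 2), 2, 0, 1), ((2, 1, 3), 1, 2, 5), ((2, 1, 7), 1, 2, 3),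
    ((2, 1, 8), 1, 2, 4), ((2, 3, 7), 1, 5, 3), ((2, 3, 8), 1, 5, 4), ((2, 7, 8), 1, 3, 4),
    ((3, 2, 4), 5, 1, 6), ((4, 3, 5), 6, 5, 1), ((5, 4, 6), 1, 6, 0), ((6, 5, 9), 0, 1, 7),
    ((7, 2, 9), 3, 1, 7), ((8, 0, 2), 4, 0, 1), ((9, 6, 7), 7, 0, 3)]
  Tc := [(3, 0, 4)]
  Td := [((0, 3), (0, 1), 2), ((0, 3), (0, 8), 4), ((0, 3), (6, 5), 1), ((0, 3), (6, 9), 7), ((3,
    0), (7, 2), 1), ((3, 0), (7, 9), 7), ((3, 4), (7, 2), 1), ((3, 4), (7, 9), 7), ((4, 3),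
    (8, 0), 0), ((4, 3), (8, 2), 1)]
  G := [[0, 0, 0x811111e4114111e8111111e4d42, 0x9c5b2411d72895de24d82,
    0x183119155e444311961858c41411b6188b8cd82], [0, 0, 0x112411281124d48, 0,
    0x11d72495de289c5b24d82], [0, 0, 0, 0x111e24111e28111e28d48,
    0x188e111ea111e46114e111e6188e8a414e4118e111eacd84], [0,
    0x188e211ea111e46114e121e6118e8a188e121ea414e46e84, 0, 0, 0x111e24111e28111e24d84]]

noncomputable def n1768 : Ent := ⟨e1768, noF, [], [], [(8, 15, [1685356702439545624007900436039642273970977273354372543760007323649, 0])]⟩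

def c1768 : PLift (Cov.check n1768.C.D v1768 = true) := ⟨by decide +kernel⟩

def b1768 : PLift (entF (fidx ts) 400 1768 n1768 = true) := ⟨by decide +kernel⟩

theorem g1768 : GoodF (fidx ts) 400 1768 := GoodF.ofV v1768 n1768 c1768.down b1768.down

/-- 4576744:1532/4 -/
noncomputable def e1769 : SCfg where
  D := {
    a := 7
    L := 10
    kp := 7
    inn := [(0, 1), (0, 2), (0, 3), (1, 0), (1, 2), (2, 0), (2, 1), (2, 3), (3, 0), (3, 2), (3, 4), (4,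
      3), (4, 5), (4, 6), (5, 4), (6, 4)]
    mix := [(0, 0), (1, 0), (1, 1), (1, 2), (2, 2), (2, 3), (2, 4), (2, 5), (3, 0), (3, 5), (3, 6), (4,
      0), (4, 6), (4, 7), (4, 8), (5, 6), (5, 7), (5, 9), (6, 3), (6, 7), (6, 8)]
    cl := [0, 5, 1, 2, 6, 1, 0, 3, 4, 7]
    chq := [(0, 2), (0, 3), (2, 0), (3, 0)]
    rng := [(0, 1), (0, 8), (1, 0), (1, 2), (2, 1), (2, 3), (3, 2), (3, 4), (3, 7), (3, 8), (4, 3), (4,
      5), (5, 4), (5, 6), (6, 5), (6, 9), (7, 3), (7, 9), (8, 0), (8, 3), (9, 6), (9, 7)]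
    lev := [] }
  links := [[1, 2, 3, 7], [2, 0, 7, 8, 9], [3, 0, 1, 9, 10, 11, 12], [7, 0, 2, 12, 13, 4], [7, 3, 13, 5,
    14, 6, 15], [14, 4, 13, 16], [15, 4, 14, 10]]
  P := {
    a := 7
    N := 17
    nb := [142, 901, 7691, 12437, 57576, 90128, 50192, 33051, 642, 1286, 51780, 5124, 10252, 69688,
      66672, 1232, 24608]
    tri := [(0, 1, 2), (0, 1, 7), (0, 2, 3), (0, 3, 7), (1, 2, 9), (1, 7, 8), (1, 8, 9), (2, 3, 12),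
      (2, 9, 10), (2, 10, 11), (2, 11, 12), (3, 4, 7), (3, 4, 13), (3, 12, 13), (4, 5, 13), (4, 5,
      14), (4, 6, 14), (4, 6, 15), (4, 7, 15), (5, 13, 16), (5, 14, 16), (6, 10, 14), (6, 10, 15)]
    fin := [0, 0, 2, 0, 0, 0, 0, 0, 8, 2, 10, 11, 2, 0, 14, 15, 16]
    chd := [(0, 10), (0, 14)]
    steps := [(0, 1), (0, 3), (0, 4), (0, 5), (0, 6), (0, 7), (0, 13), (2, 9), (2, 12)] }
  rep := [0, 2, 10, 14, 15, 8, 11, 16]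

noncomputable def v1769 : Cov.CovD where
  P := 3
  N := 5
  pl := [1, 4, 8, 9]
  lev := [⟨[], [], [], [], [(0, 0, [2, 3])]⟩,
    ⟨[], [(0, 0), (0, 1)], [(0, 1)], [5], [(0, 0, [2, 3]), (2, 1, [])]⟩,
    ⟨[(0, 1)], [(0, 0), (0, 1), (0, 2), (1, 0), (1, 1), (1, 2)], [(1, 1), (1, 2)], [6],
      [(2, 1, []), (3, 2, [0]), (5, 1, [])]⟩,
    ⟨[(0, 1), (0, 2), (1, 2)], [(0, 0), (0, 1), (1, 0), (2, 0), (2, 1), (2, 2)], [(0, 0),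
      (0, 1)], [], [(0, 0, [2, 3]), (5, 1, []), (6, 0, [2, 3])]⟩,
    ⟨[(0, 3), (2, 3)], [(0, 0), (1, 0), (3, 0), (3, 1), (3, 3)], [(0, 0), (0, 3)], [4],
      [(0, 0, [2, 3]), (6, 0, [2, 3]), (7, 3, [0])]⟩,
    ⟨[(3, 4)], [(3, 0), (4, 0), (4, 3)], [(0, 3)], [7], [(6, 0, [2, 3]), (7, 3, [0])]⟩,
    ⟨[(3, 4), (4, 5)], [(2, 2), (4, 0), (4, 2), (4, 3), (5, 3)], [(2, 3)], [4], [(3, 2,
      [0]), (7, 3, [0])]⟩]
  Ta := [((0, 1), 0, 5), ((0, 8), 0, 4), ((2, 1), 1, 5), ((2, 3), 1, 2), ((5, 4), 1, 6), ((5, 6),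
    1, 0), ((6, 5), 0, 1), ((6, 9), 0, 7)]
  Tb := [((0, 1, 8), 0, 5, 4), ((1, 0, 2), 5, 0, 1), ((2, 1, 3), 1, 5, 2), ((3, 2, 4), 2, 1, 6),
    ((3, 2, 7), 2, 1, 3), ((3, 2, 8), 2, 1, 4), ((3, 4, 7), 2, 6, 3), ((3, 4, 8), 2, 6, 4),
    ((3, 7, 8), 2, 3, 4), ((4, 3, 5), 6, 2, 1), ((5, 4, 6), 1, 6, 0), ((6, 5, 9), 0, 1, 7),
    ((7, 3, 9), 3, 2, 7), ((8, 0, 3), 4, 0, 2), ((9, 6, 7), 7, 0, 3)]
  Tc := [(0, 2, 3)]
  Td := [((0, 2), (0, 1), 5), ((0, 2), (0, 8), 4), ((0, 2), (6, 5), 1), ((0, 2), (6, 9), 7), ((0,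
    3), (0, 1), 5), ((0, 3), (0, 8), 4), ((0, 3), (6, 5), 1), ((0, 3), (6, 9), 7), ((2, 0),
    (3, 2), 1), ((2, 0), (3, 4), 6), ((2, 0), (3, 7), 3), ((2, 0), (3, 8), 4), ((3, 0), (7,
    3), 2), ((3, 0), (7, 9), 7)]
  G := [[0, 0, 0x2128141ca141216818a1c4, 0xc5972495de24511d72811dd285c8,
    0x189113225e4111e21681878c9188d219123e419322561198c9c2], [0, 0, 0x41216818c128, 0,
    0x189113225e4883119225e4928], [0, 0, 0x8121a4146141216818a1c4, 0x111e28111e28c14,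
    0x111e4188e121eac1111e111e6188e8c1111e221e6111e8c8d2], [0,
    0x111e2111e111ec6111e111e6118e8cc188e12a111e11c66414e111e6181e8acc1, 0x41216818c124, 0,
    0x111e4188e121eac111e4118e221eac924]]

noncomputable def n1769 : Ent := ⟨e1769, noF, [], [], []⟩

def c1769 : PLift (Cov.check n1769.C.D v1769 = true) := ⟨by decide +kernel⟩

def b1769 : PLift (entF (fidx ts) 400 1769 n1769 = true) := ⟨by decide +kernel⟩

theorem g1769 : GoodF (fidx ts) 400 1769 := GoodF.ofV v1769 n1769 c1769.down b1769.down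

/-- 4576744:1532/5 -/
noncomputable def e1770 : SCfg where
  D := {
    a := 7
    L := 10
    kp := 7
    inn := [(0, 1), (0, 2), (0, 3), (1, 0), (1, 2), (2, 0), (2, 1), (2, 3), (3, 0), (3, 2), (3, 4), (4,
      3), (4, 5), (4, 6), (5, 4), (6, 4)]
    mix := [(0, 0), (1, 0), (1, 1), (1, 2), (2, 2), (2, 3), (2, 4), (2, 5), (3, 0), (3, 5), (3, 6), (4,
      0), (4, 6), (4, 7), (4, 8), (5, 6), (5, 7), (5, 9), (6, 4), (6, 7), (6, 8)]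
    cl := [0, 5, 1, 6, 2, 1, 0, 3, 4, 7]
    chq := [(0, 2), (0, 3), (2, 0), (3, 0)]
    rng := [(0, 1), (0, 8), (1, 0), (1, 2), (2, 1), (2, 3), (3, 2), (3, 4), (4, 3), (4, 5), (4, 7), (4,
      8), (5, 4), (5, 6), (6, 5), (6, 9), (7, 4), (7, 9), (8, 0), (8, 4), (9, 6), (9, 7)]
    lev := [] }
  links := [[1, 2, 3, 7], [2, 0, 7, 8, 9], [3, 0, 1, 9, 10, 11, 12], [7, 0, 2, 12, 13, 4], [7, 3, 13, 5,
    14, 6, 15], [14, 4, 13, 16], [15, 4, 14, 11]]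
  P := {
    a := 7
    N := 17
    nb := [142, 901, 7691, 12437, 57576, 90128, 51216, 33051, 642, 1286, 2564, 54340, 10252, 69688,
      67696, 2256, 24608]
    tri := [(0, 1, 2), (0, 1, 7), (0, 2, 3), (0, 3, 7), (1, 2, 9), (1, 7, 8), (1, 8, 9), (2, 3, 12),
      (2, 9, 10), (2, 10, 11), (2, 11, 12), (3, 4, 7), (3, 4, 13), (3, 12, 13), (4, 5, 13), (4, 5,
      14), (4, 6, 14), (4, 6, 15), (4, 7, 15), (5, 13, 16), (5, 14, 16), (6, 11, 14), (6, 11, 15)]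
    fin := [0, 0, 2, 0, 0, 0, 0, 0, 8, 2, 10, 11, 2, 0, 14, 15, 16]
    chd := [(0, 11), (0, 14)]
    steps := [(0, 1), (0, 3), (0, 4), (0, 5), (0, 6), (0, 7), (0, 13), (2, 9), (2, 12)] }
  rep := [0, 2, 11, 14, 15, 8, 10, 16]

noncomputable def v1770 : Cov.CovD where
  P := 3
  N := 5
  pl := [1, 3, 8, 9]
  lev := [⟨[], [], [], [], [(0, 0, [2, 3])]⟩,
    ⟨[], [(0, 0), (0, 1)], [(0, 1)], [5], [(0, 0, [2, 3]), (2, 1, [])]⟩,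
    ⟨[(0, 1)], [(0, 0), (0, 1), (0, 2), (1, 0), (1, 1), (1, 2)], [(1, 1), (1, 2)], [6],
      [(2, 1, []), (4, 2, [0]), (5, 1, [])]⟩,
    ⟨[(0, 1), (0, 2), (1, 2)], [(0, 0), (0, 1), (1, 0), (2, 0), (2, 1), (2, 2)], [(0, 0),
      (0, 1)], [], [(0, 0, [2, 3]), (5, 1, []), (6, 0, [2, 3])]⟩,
    ⟨[(0, 3), (2, 3)], [(0, 0), (1, 0), (3, 0), (3, 1), (3, 3)], [(0, 0), (0, 3)], [4],
      [(0, 0, [2, 3]), (6, 0, [2, 3]), (7, 3, [0])]⟩,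
    ⟨[(3, 4)], [(3, 0), (4, 0), (4, 3)], [(0, 3)], [7], [(6, 0, [2, 3]), (7, 3, [0])]⟩,
    ⟨[(3, 4), (4, 5)], [(2, 2), (4, 0), (4, 2), (4, 3), (5, 3)], [(2, 3)], [4], [(4, 2,
      [0]), (7, 3, [0])]⟩]
  Ta := [((0, 1), 0, 5), ((0, 8), 0, 4), ((2, 1), 1, 5), ((2, 3), 1, 6), ((5, 4), 1, 2), ((5, 6),
    1, 0), ((6, 5), 0, 1), ((6, 9), 0, 7)]
  Tb := [((0, 1, 8), 0, 5, 4), ((1, 0, 2), 5, 0, 1), ((2, 1, 3), 1, 5, 6), ((3, 2, 4), 6, 1, 2),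
    ((4, 3, 5), 2, 6, 1), ((4, 3, 7), 2, 6, 3), ((4, 3, 8), 2, 6, 4), ((4, 5, 7), 2, 1, 3),
    ((4, 5, 8), 2, 1, 4), ((4, 7, 8), 2, 3, 4), ((5, 4, 6), 1, 2, 0), ((6, 5, 9), 0, 1, 7),
    ((7, 4, 9), 3, 2, 7), ((8, 0, 4), 4, 0, 2), ((9, 6, 7), 7, 0, 3)]
  Tc := [(0, 2, 3)]
  Td := [((0, 2), (0, 1), 5), ((0, 2), (0, 8), 4), ((0, 2), (6, 5), 1), ((0, 2), (6, 9), 7), ((0,
    3), (0, 1), 5), ((0, 3), (0, 8), 4), ((0, 3), (6, 5), 1), ((0, 3), (6, 9), 7), ((2, 0),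
    (4, 3), 6), ((2, 0), (4, 5), 1), ((2, 0), (4, 7), 3), ((2, 0), (4, 8), 4), ((3, 0), (7,
    4), 2), ((3, 0), (7, 9), 7)]
  G := [[0, 0, 0x811121e4111121e8c12, 0, 0x883119225e4885119123e49885119123e4111e82562898c9c2],
    [0, 0, 0x41216818c128, 0x95de2811db28524, 0x1194183225ac11322561898c924], [0, 0,
    0x111121e4114111e8c12, 0, 0x211e2118e111ec61111e221e6111e8c1118e121ea111e468d8], [0,
    0x122181e411e11ce6111e2188e414ecac118e111ea411e46122111e411e11ceac68, 0x4148121ac128,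
    0x111e28111e24c12, 0x111e221e6188e8c111e4118e211eac924]]

noncomputable def n1770 : Ent := ⟨e1770, noF, [], [], []⟩

def c1770 : PLift (Cov.check n1770.C.D v1770 = true) := ⟨by decide +kernel⟩

def b1770 : PLift (entF (fidx ts) 400 1770 n1770 = true) := ⟨by decide +kernel⟩

theorem g1770 : GoodF (fidx ts) 400 1770 := GoodF.ofV v1770 n1770 c1770.down b1770.down

/-- 4576744:1532 -/
noncomputable def e1771 : SCfg where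
  D := {
    a := 7
    L := 11
    kp := 8
    inn := [(0, 1), (0, 2), (0, 3), (1, 0), (1, 2), (2, 0), (2, 1), (2, 3), (3, 0), (3, 2), (3, 4), (4,
      3), (4, 5), (4, 6), (5, 4), (6, 4)]
    mix := [(0, 0), (1, 0), (1, 1), (1, 2), (2, 2), (2, 3), (2, 4), (2, 5), (3, 0), (3, 5), (3, 6), (4,
      0), (4, 6), (4, 7), (4, 8), (5, 6), (5, 7), (5, 9), (6, 7), (6, 8), (6, 10)]
    cl := [0, 5, 1, 6, 7, 1, 0, 3, 2, 8, 4]
    chq := [(0, 3), (0, 4), (3, 0), (4, 0)]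
    rng := [(0, 1), (0, 8), (1, 0), (1, 2), (2, 1), (2, 3), (3, 2), (3, 4), (4, 3), (4, 5), (5, 4), (5,
      6), (6, 5), (6, 9), (7, 9), (7, 10), (8, 0), (8, 10), (9, 6), (9, 7), (10, 7), (10, 8)]
    lev := [] }
  links := [[1, 2, 3, 7], [2, 0, 7, 8, 9], [3, 0, 1, 9, 10, 11, 12], [7, 0, 2, 12, 13, 4], [7, 3, 13, 5,
    14, 6, 15], [14, 4, 13, 16], [15, 4, 14, 17]]
  P := {
    a := 7
    N := 18
    nb := [142, 901, 7691, 12437, 57576, 90128, 180240, 33051, 642, 1286, 2564, 5124, 10252, 69688,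
      196720, 131280, 24608, 49216]
    tri := [(0, 1, 2), (0, 1, 7), (0, 2, 3), (0, 3, 7), (1, 2, 9), (1, 7, 8), (1, 8, 9), (2, 3, 12),
      (2, 9, 10), (2, 10, 11), (2, 11, 12), (3, 4, 7), (3, 4, 13), (3, 12, 13), (4, 5, 13), (4, 5,
      14), (4, 6, 14), (4, 6, 15), (4, 7, 15), (5, 13, 16), (5, 14, 16), (6, 14, 17), (6, 15, 17)]
    fin := [0, 0, 2, 0, 0, 0, 0, 0, 8, 2, 10, 11, 2, 0, 14, 15, 16, 17]
    chd := [(0, 14), (0, 17)]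
    steps := [(0, 1), (0, 3), (0, 4), (0, 5), (0, 6), (0, 7), (0, 13), (2, 9), (2, 12)] }
  rep := [0, 2, 15, 14, 17, 8, 10, 11, 16]

noncomputable def v1771 : Cov.CovD where
  P := 3
  N := 6
  pl := [1, 3, 4, 8, 9]
  lev := [⟨[], [], [], [], [(0, 0, [3, 4])]⟩,
    ⟨[], [(0, 0), (0, 1)], [(0, 1)], [5], [(0, 0, [3, 4]), (2, 1, [])]⟩,
    ⟨[(0, 1)], [(0, 0), (0, 1), (1, 0), (1, 1)], [(1, 1)], [6, 7], [(2, 1, []), (5, 1,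
      [])]⟩,
    ⟨[(0, 1), (0, 2), (1, 2)], [(0, 0), (0, 1), (1, 0), (2, 0), (2, 1)], [(0, 0), (0, 1)],
      [], [(0, 0, [3, 4]), (5, 1, []), (6, 0, [3, 4])]⟩,
    ⟨[(0, 3), (2, 3)], [(0, 0), (1, 0), (3, 0), (3, 1), (3, 3)], [(0, 0), (0, 3)], [2],
      [(0, 0, [3, 4]), (6, 0, [3, 4]), (7, 3, [0])]⟩,
    ⟨[(3, 4)], [(3, 0), (4, 0), (4, 3)], [(0, 3)], [8], [(6, 0, [3, 4]), (7, 3, [0])]⟩,
    ⟨[(3, 4), (4, 5)], [(4, 0), (4, 3), (4, 4), (5, 3)], [(3, 4)], [2], [(7, 3, [0]), (10,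
      4, [0])]⟩]
  Ta := [((0, 1), 0, 5), ((0, 8), 0, 2), ((2, 1), 1, 5), ((2, 3), 1, 6), ((5, 4), 1, 7), ((5, 6),
    1, 0), ((6, 5), 0, 1), ((6, 9), 0, 8)]
  Tb := [((0, 1, 8), 0, 5, 2), ((1, 0, 2), 5, 0, 1), ((2, 1, 3), 1, 5, 6), ((3, 2, 4), 6, 1, 7),
    ((4, 3, 5), 7, 6, 1), ((5, 4, 6), 1, 7, 0), ((6, 5, 9), 0, 1, 8), ((7, 9, 10), 3, 8, 4),
    ((8, 0, 10), 2, 0, 4), ((9, 6, 7), 8, 0, 3), ((10, 7, 8), 4, 3, 2)]
  Tc := [(0, 3, 4)]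
  Td := [((0, 3), (0, 1), 5), ((0, 3), (0, 8), 2), ((0, 3), (6, 5), 1), ((0, 3), (6, 9), 8), ((0,
    4), (0, 1), 5), ((0, 4), (0, 8), 2), ((0, 4), (6, 5), 1), ((0, 4), (6, 9), 8), ((3, 0),
    (7, 9), 8), ((3, 0), (7, 10), 4), ((4, 0), (10, 7), 3), ((4, 0), (10, 8), 2)]
  G := [[0, 0, 0x612c18a44a161c2a161c2c1a168d612c18ac1a1689cc,
    0x11a11c24411116c211a11c211116c2d1164118a11116c29cc,
    0x11c11a411116a411116a8d1162118c11116a811c11a4dc2], [0, 0, 0xc161a4c1a168c161a4d24,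
    0x1164118c11116c81164118cd24, 0x11116a411116a811116a4d24], [0, 0, 0,
    0x116411a8a111a116c21116411a8c11a116c2cd4, 0x11c116a4111c116a4111c116a411c116a4cd2], [0,
    0x11a81164611a116c2611a116c211a116c2a11a116c2116411a8cce8, 0,
    0x11a84116411a8c116411a8cd21164881a, 0x11c116a41211c116a411c116a4c16]]

noncomputable def n1771 : Ent := ⟨e1771, noF, [], [], [(8, 15, [7334790850167413569773436004105379185503274260204390087403942011891713, 0]), (9, 17, [6903326391201334775872065844685381424292761054348340378595029936930817, 0]), (10, 17, [6903326391201334775872065844685381424292761054348340378595029936934913, 0]), (11, 17, [6903326391201334775872065844685381424292761054348340378595029936939009, 0])]⟩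

def c1771 : PLift (Cov.check n1771.C.D v1771 = true) := ⟨by decide +kernel⟩

def b1771 : PLift (entF (fidx ts) 400 1771 n1771 = true) := ⟨by decide +kernel⟩

theorem g1771 : GoodF (fidx ts) 400 1771 := GoodF.ofV v1771 n1771 c1771.down b1771.down

/-- 4576744:1533/2 -/
noncomputable def e1772 : SCfg where
  D := {
    a := 7
    L := 9
    kp := 6
    inn := [(0, 1), (0, 2), (0, 3), (1, 0), (1, 2), (2, 0), (2, 1), (2, 3), (3, 0), (3, 2), (3, 4), (4,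
      3), (4, 5), (4, 6), (5, 4), (6, 4)]
    mix := [(0, 0), (1, 0), (1, 1), (1, 2), (2, 2), (2, 3), (2, 4), (2, 5), (3, 0), (3, 5), (3, 6), (4,
      0), (4, 6), (4, 7), (4, 8), (5, 4), (5, 6), (5, 7), (6, 0), (6, 1), (6, 8)]
    cl := [0, 2, 1, 6, 5, 1, 0, 3, 4]
    chq := [(0, 3), (0, 4), (3, 0), (4, 0)]
    rng := [(0, 1), (1, 0), (1, 2), (1, 8), (2, 1), (2, 3), (3, 2), (3, 4), (4, 3), (4, 5), (4, 6), (4,
      7), (5, 4), (5, 6), (6, 4), (6, 5), (7, 4), (7, 8), (8, 1), (8, 7)]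
    lev := [] }
  links := [[1, 2, 3, 7], [2, 0, 7, 8, 9], [3, 0, 1, 9, 10, 11, 12], [7, 0, 2, 12, 13, 4], [7, 3, 13, 5,
    14, 15, 6], [14, 4, 13, 11], [7, 4, 15, 8]]
  P := {
    a := 7
    N := 16
    nb := [142, 901, 7691, 12437, 57576, 26640, 33168, 347, 33474, 1286, 2564, 29732, 10252, 6200,
      34864, 16720]
    tri := [(0, 1, 2), (0, 1, 7), (0, 2, 3), (0, 3, 7), (1, 2, 9), (1, 7, 8), (1, 8, 9), (2, 3, 12),
      (2, 9, 10), (2, 10, 11), (2, 11, 12), (3, 4, 7), (3, 4, 13), (3, 12, 13), (4, 5, 13), (4, 5,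
      14), (4, 6, 7), (4, 6, 15), (4, 14, 15), (5, 11, 13), (5, 11, 14), (6, 7, 8), (6, 8, 15)]
    fin := [0, 0, 2, 0, 0, 0, 0, 0, 8, 2, 10, 11, 2, 0, 14, 15]
    chd := [(0, 14), (0, 15)]
    steps := [(0, 1), (0, 3), (0, 4), (0, 5), (0, 7), (0, 6), (0, 13), (2, 9), (2, 12)] }
  rep := [0, 2, 8, 14, 15, 11, 10]

noncomputable def v1772 : Cov.CovD where
  P := 3
  N := 4
  pl := [1, 3, 4]
  lev := [⟨[], [], [], [], [(0, 0, [3, 4])]⟩,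
    ⟨[], [(0, 0), (0, 1)], [(0, 1)], [2], [(0, 0, [3, 4]), (2, 1, [])]⟩,
    ⟨[(0, 1)], [(0, 0), (0, 1), (1, 0), (1, 1)], [(1, 1)], [5, 6], [(2, 1, []), (5, 1,
      [])]⟩,
    ⟨[(0, 1), (0, 2), (1, 2)], [(0, 0), (0, 1), (1, 0), (2, 0), (2, 1)], [(0, 0), (0, 1)],
      [], [(0, 0, [3, 4]), (5, 1, []), (6, 0, [3, 4])]⟩,
    ⟨[(0, 3), (2, 3)], [(0, 0), (1, 0), (3, 0), (3, 1), (3, 3), (3, 4)], [(0, 0), (0, 3),
      (0, 4), (3, 4)], [], [(0, 0, [3, 4]), (6, 0, [3, 4]), (7, 3, [0]), (8, 4, [0])]⟩,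
    ⟨[(3, 4)], [(3, 0), (4, 0), (4, 3), (4, 4)], [(0, 3)], [5], [(6, 0, [3, 4]), (7, 3,
      [0])]⟩,
    ⟨[(3, 4), (4, 5)], [(0, 0), (1, 0), (3, 0), (4, 0), (4, 3), (4, 4)], [(0, 4)], [2],
      [(0, 0, [3, 4]), (8, 4, [0])]⟩]
  Ta := [((0, 1), 0, 2), ((2, 1), 1, 2), ((2, 3), 1, 6), ((5, 4), 1, 5), ((5, 6), 1, 0), ((6, 4),
    0, 5), ((6, 5), 0, 1)]
  Tb := [((1, 0, 2), 2, 0, 1), ((1, 0, 8), 2, 0, 4), ((1, 2, 8), 2, 1, 4), ((2, 1, 3), 1, 2, 6),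
    ((3, 2, 4), 6, 1, 5), ((4, 3, 5), 5, 6, 1), ((4, 3, 6), 5, 6, 0), ((4, 3, 7), 5, 6, 3),
    ((4, 5, 6), 5, 1, 0), ((4, 5, 7), 5, 1, 3), ((4, 6, 7), 5, 0, 3), ((5, 4, 6), 1, 5, 0),
    ((6, 4, 5), 0, 5, 1), ((7, 4, 8), 3, 5, 4), ((8, 1, 7), 4, 2, 3)]
  Tc := [(0, 3, 4)]
  Td := [((0, 3), (0, 1), 2), ((0, 3), (6, 4), 5), ((0, 3), (6, 5), 1), ((0, 4), (0, 1), 2), ((0,
    4), (6, 4), 5), ((0, 4), (6, 5), 1), ((3, 0), (7, 4), 5), ((3, 0), (7, 8), 4), ((4, 0),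
    (8, 1), 2), ((4, 0), (8, 7), 3)]
  G := [[0, 0, 0x41216818c614121e841216818cd42, 0xc228441ca441c26818a41c26818a9c4,
    0x18928921e4a42162868c883a1123e4d82], [0, 0, 0x4148121ac614121e84148121acd24, 0,
    0x18928921e4a42256818c81823222de4d28], [0, 0, 0, 0x48926188c541452e841c52618c8cd42,
    0x3828a12e4236a412e8211e4121e92acd82], [0, 0x111e218111ec6481e2184e14ca144111e11a12ece82,
    0, 0, 0x3828a12e4144886221eac218e221e6128e8cd82]]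

noncomputable def n1772 : Ent := ⟨e1772, noF, [], [], []⟩

def c1772 : PLift (Cov.check n1772.C.D v1772 = true) := ⟨by decide +kernel⟩

def b1772 : PLift (entF (fidx ts) 400 1772 n1772 = true) := ⟨by decide +kernel⟩

theorem g1772 : GoodF (fidx ts) 400 1772 := GoodF.ofV v1772 n1772 c1772.down b1772.down

/-- 4576744:1533/1 -/
noncomputable def e1773 : SCfg where
  D := {
    a := 7
    L := 10
    kp := 7
    inn := [(0, 1), (0, 2), (0, 3), (1, 0), (1, 2), (2, 0), (2, 1), (2, 3), (3, 0), (3, 2), (3, 4), (4,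
      3), (4, 5), (4, 6), (5, 4), (6, 4)]
    mix := [(0, 0), (1, 0), (1, 1), (1, 2), (2, 2), (2, 3), (2, 4), (2, 5), (3, 0), (3, 5), (3, 6), (4,
      0), (4, 6), (4, 7), (4, 8), (5, 6), (5, 7), (5, 9), (6, 0), (6, 1), (6, 8)]
    cl := [0, 2, 1, 5, 6, 1, 0, 3, 4, 7]
    chq := [(0, 3), (0, 4), (3, 0), (4, 0)]
    rng := [(0, 1), (1, 0), (1, 2), (1, 8), (2, 1), (2, 3), (3, 2), (3, 4), (4, 3), (4, 5), (5, 4), (5,
      6), (6, 5), (6, 9), (7, 8), (7, 9), (8, 1), (8, 7), (9, 6), (9, 7)]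
    lev := [] }
  links := [[1, 2, 3, 7], [2, 0, 7, 8, 9], [3, 0, 1, 9, 10, 11, 12], [7, 0, 2, 12, 13, 4], [7, 3, 13, 5,
    14, 15, 6], [14, 4, 13, 16], [7, 4, 15, 8]]
  P := {
    a := 7
    N := 17
    nb := [142, 901, 7691, 12437, 57576, 90128, 33168, 347, 33474, 1286, 2564, 5124, 10252, 69688,
      98352, 16720, 24608]
    tri := [(0, 1, 2), (0, 1, 7), (0, 2, 3), (0, 3, 7), (1, 2, 9), (1, 7, 8), (1, 8, 9), (2, 3, 12),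
      (2, 9, 10), (2, 10, 11), (2, 11, 12), (3, 4, 7), (3, 4, 13), (3, 12, 13), (4, 5, 13), (4, 5,
      14), (4, 6, 7), (4, 6, 15), (4, 14, 15), (5, 13, 16), (5, 14, 16), (6, 7, 8), (6, 8, 15)]
    fin := [0, 0, 2, 0, 0, 0, 0, 0, 8, 2, 10, 11, 2, 0, 14, 15, 16]
    chd := [(0, 14), (0, 15)]
    steps := [(0, 1), (0, 3), (0, 4), (0, 5), (0, 7), (0, 6), (0, 13), (2, 9), (2, 12)] }
  rep := [0, 2, 8, 14, 15, 10, 11, 16]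

noncomputable def v1773 : Cov.CovD where
  P := 3
  N := 5
  pl := [1, 3, 4, 9]
  lev := [⟨[], [], [], [], [(0, 0, [3, 4])]⟩,
    ⟨[], [(0, 0), (0, 1)], [(0, 1)], [2], [(0, 0, [3, 4]), (2, 1, [])]⟩,
    ⟨[(0, 1)], [(0, 0), (0, 1), (1, 0), (1, 1)], [(1, 1)], [5, 6], [(2, 1, []), (5, 1,
      [])]⟩,
    ⟨[(0, 1), (0, 2), (1, 2)], [(0, 0), (0, 1), (1, 0), (2, 0), (2, 1)], [(0, 0), (0, 1)],
      [], [(0, 0, [3, 4]), (5, 1, []), (6, 0, [3, 4])]⟩,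
    ⟨[(0, 3), (2, 3)], [(0, 0), (1, 0), (3, 0), (3, 1), (3, 3), (3, 4)], [(0, 0), (0, 3),
      (0, 4), (3, 4)], [], [(0, 0, [3, 4]), (6, 0, [3, 4]), (7, 3, [0]), (8, 4, [0])]⟩,
    ⟨[(3, 4)], [(3, 0), (4, 0), (4, 3), (4, 4)], [(0, 3)], [7], [(6, 0, [3, 4]), (7, 3,
      [0])]⟩,
    ⟨[(3, 4), (4, 5)], [(0, 0), (1, 0), (3, 0), (4, 0), (4, 3), (4, 4)], [(0, 4)], [2],
      [(0, 0, [3, 4]), (8, 4, [0])]⟩]
  Ta := [((0, 1), 0, 2), ((2, 1), 1, 2), ((2, 3), 1, 5), ((5, 4), 1, 6), ((5, 6), 1, 0), ((6, 5),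
    0, 1), ((6, 9), 0, 7)]
  Tb := [((1, 0, 2), 2, 0, 1), ((1, 0, 8), 2, 0, 4), ((1, 2, 8), 2, 1, 4), ((2, 1, 3), 1, 2, 5),
    ((3, 2, 4), 5, 1, 6), ((4, 3, 5), 6, 5, 1), ((5, 4, 6), 1, 6, 0), ((6, 5, 9), 0, 1, 7),
    ((7, 8, 9), 3, 4, 7), ((8, 1, 7), 4, 2, 3), ((9, 6, 7), 7, 0, 3)]
  Tc := [(0, 3, 4)]
  Td := [((0, 3), (0, 1), 2), ((0, 3), (6, 5), 1), ((0, 3), (6, 9), 7), ((0, 4), (0, 1), 2), ((0,
    4), (6, 5), 1), ((0, 4), (6, 9), 7), ((3, 0), (7, 8), 4), ((3, 0), (7, 9), 7), ((4, 0),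
    (8, 1), 2), ((4, 0), (8, 7), 3)]
  G := [[0, 0, 0x4148121ac614121e841216818cd42, 0x48ce28141c6548b288541ca4111cb6818ad48,
    0x12321852a8ec68851a3129e4581891a3225e488a], [0, 0, 0x8121a4614121e841216818cd41488c4, 0,
    0x883125a4885aa9123e458851a9123e41a948ca8], [0, 0, 0,
    0x58c18cea41c465441c1118fe188a58c15cea11c46d84,
    0x289e2328e111ec6221e2388e118eca229e2181e218ec6d84], [0,
    0x181e2184e414ec6118e111e6188e8a118e4184e111eace48, 0, 0,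
    0x211e4128e1212fac118e181e6388e8c521a3e221e6388e8c82c]]

noncomputable def n1773 : Ent := ⟨e1773, noF, [], [], [(11, 16, [1580044410770988437309982408355971841652082177953823432505696370689, 0])]⟩

def c1773 : PLift (Cov.check n1773.C.D v1773 = true) := ⟨by decide +kernel⟩

def b1773 : PLift (entF (fidx ts) 400 1773 n1773 = true) := ⟨by decide +kernel⟩

theorem g1773 : GoodF (fidx ts) 400 1773 := GoodF.ofV v1773 n1773 c1773.down b1773.down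

/-- 4576744:1533/3 -/
noncomputable def e1774 : SCfg where
  D := {
    a := 7
    L := 10
    kp := 7
    inn := [(0, 1), (0, 2), (0, 3), (1, 0), (1, 2), (2, 0), (2, 1), (2, 3), (3, 0), (3, 2), (3, 4), (4,
      3), (4, 5), (4, 6), (5, 4), (6, 4)]
    mix := [(0, 0), (1, 0), (1, 1), (1, 2), (2, 2), (2, 3), (2, 4), (2, 5), (3, 0), (3, 5), (3, 6), (4,
      0), (4, 6), (4, 7), (4, 8), (5, 4), (5, 6), (5, 7), (6, 0), (6, 8), (6, 9)]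
    cl := [0, 5, 1, 6, 2, 1, 0, 3, 4, 7]
    chq := [(0, 3), (0, 4), (3, 0), (4, 0)]
    rng := [(0, 1), (0, 9), (1, 0), (1, 2), (2, 1), (2, 3), (3, 2), (3, 4), (4, 3), (4, 5), (4, 6), (4,
      7), (5, 4), (5, 6), (6, 4), (6, 5), (7, 4), (7, 8), (8, 7), (8, 9), (9, 0), (9, 8)]
    lev := [] }
  links := [[1, 2, 3, 7], [2, 0, 7, 8, 9], [3, 0, 1, 9, 10, 11, 12], [7, 0, 2, 12, 13, 4], [7, 3, 13, 5,
    14, 15, 6], [14, 4, 13, 11], [7, 4, 15, 16]]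
  P := {
    a := 7
    N := 17
    nb := [142, 901, 7691, 12437, 57576, 26640, 98448, 65883, 642, 1286, 2564, 29732, 10252, 6200,
      34864, 82000, 32960]
    tri := [(0, 1, 2), (0, 1, 7), (0, 2, 3), (0, 3, 7), (1, 2, 9), (1, 7, 8), (1, 8, 9), (2, 3, 12),
      (2, 9, 10), (2, 10, 11), (2, 11, 12), (3, 4, 7), (3, 4, 13), (3, 12, 13), (4, 5, 13), (4, 5,
      14), (4, 6, 7), (4, 6, 15), (4, 14, 15), (5, 11, 13), (5, 11, 14), (6, 7, 16), (6, 15, 16)]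
    fin := [0, 0, 2, 0, 0, 0, 0, 0, 8, 2, 10, 11, 2, 0, 14, 15, 16]
    chd := [(0, 14), (0, 15)]
    steps := [(0, 1), (0, 3), (0, 4), (0, 5), (0, 6), (0, 7), (0, 13), (2, 9), (2, 12)] }
  rep := [0, 2, 11, 14, 15, 8, 10, 16]

noncomputable def v1774 : Cov.CovD where
  P := 3
  N := 5
  pl := [1, 3, 4, 9]
  lev := [⟨[], [], [], [], [(0, 0, [3, 4])]⟩,
    ⟨[], [(0, 0), (0, 1)], [(0, 1)], [5], [(0, 0, [3, 4]), (2, 1, [])]⟩,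
    ⟨[(0, 1)], [(0, 0), (0, 1), (1, 0), (1, 1)], [(1, 1)], [2, 6], [(2, 1, []), (5, 1,
      [])]⟩,
    ⟨[(0, 1), (0, 2), (1, 2)], [(0, 0), (0, 1), (1, 0), (2, 0), (2, 1)], [(0, 0), (0, 1)],
      [], [(0, 0, [3, 4]), (5, 1, []), (6, 0, [3, 4])]⟩,
    ⟨[(0, 3), (2, 3)], [(0, 0), (1, 0), (3, 0), (3, 1), (3, 3), (3, 4)], [(0, 0), (0, 3),
      (0, 4), (3, 4)], [], [(0, 0, [3, 4]), (6, 0, [3, 4]), (7, 3, [0]), (8, 4, [0])]⟩,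
    ⟨[(3, 4)], [(3, 0), (4, 0), (4, 3), (4, 4)], [(0, 3)], [2], [(6, 0, [3, 4]), (7, 3,
      [0])]⟩,
    ⟨[(3, 4), (4, 5)], [(0, 0), (1, 0), (3, 0), (4, 0), (4, 3), (4, 4)], [(0, 4)], [7],
      [(0, 0, [3, 4]), (8, 4, [0])]⟩]
  Ta := [((0, 1), 0, 5), ((0, 9), 0, 7), ((2, 1), 1, 5), ((2, 3), 1, 6), ((5, 4), 1, 2), ((5, 6),
    1, 0), ((6, 4), 0, 2), ((6, 5), 0, 1)]
  Tb := [((0, 1, 9), 0, 5, 7), ((1, 0, 2), 5, 0, 1), ((2, 1, 3), 1, 5, 6), ((3, 2, 4), 6, 1, 2),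
    ((4, 3, 5), 2, 6, 1), ((4, 3, 6), 2, 6, 0), ((4, 3, 7), 2, 6, 3), ((4, 5, 6), 2, 1, 0),
    ((4, 5, 7), 2, 1, 3), ((4, 6, 7), 2, 0, 3), ((5, 4, 6), 1, 2, 0), ((6, 4, 5), 0, 2, 1),
    ((7, 4, 8), 3, 2, 4), ((8, 7, 9), 4, 3, 7), ((9, 0, 8), 7, 0, 4)]
  Tc := [(0, 3, 4)]
  Td := [((0, 3), (0, 1), 5), ((0, 3), (0, 9), 7), ((0, 3), (6, 4), 2), ((0, 3), (6, 5), 1), ((0,
    4), (0, 1), 5), ((0, 4), (0, 9), 7), ((0, 4), (6, 4), 2), ((0, 4), (6, 5), 1), ((3, 0),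
    (7, 4), 2), ((3, 0), (7, 8), 4), ((4, 0), (8, 7), 3), ((4, 0), (8, 9), 7)]
  G := [[0, 0, 0, 0, 0xd232789e1c6c2326896cac69e127896caca8631e964a98a9c4], [0, 0, 0,
    0xc11e9a4945e168c141c58cd28, 0x8632c2b66898c1e34789e1ac924], [0, 0,
    0x1811a12e41441812acc14126188c1161412e8cc2, 0,
    0x18d2a435a926588c9522388a1ca126788a96ca488d4], [0,
    0x181411ce21411c6188ac181411ce2181411ce2c68, 0x14126188c1161412e8c24,
    0x144186dcac144183a4dac528, 0x7813a92e45833a92e4928]]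

noncomputable def n1774 : Ent := ⟨e1774, noF, [], [], [(8, 16, [1580044410770988437309982408355971841652082177953823432505696370689, 0])]⟩

def c1774 : PLift (Cov.check n1774.C.D v1774 = true) := ⟨by decide +kernel⟩

def b1774 : PLift (entF (fidx ts) 400 1774 n1774 = true) := ⟨by decide +kernel⟩

theorem g1774 : GoodF (fidx ts) 400 1774 := GoodF.ofV v1774 n1774 c1774.down b1774.down

/-- 4576744:1533 -/
noncomputable def e1775 : SCfg where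
  D := {
    a := 7
    L := 11
    kp := 8
    inn := [(0, 1), (0, 2), (0, 3), (1, 0), (1, 2), (2, 0), (2, 1), (2, 3), (3, 0), (3, 2), (3, 4), (4,
      3), (4, 5), (4, 6), (5, 4), (6, 4)]
    mix := [(0, 0), (1, 0), (1, 1), (1, 2), (2, 2), (2, 3), (2, 4), (2, 5), (3, 0), (3, 5), (3, 6), (4,
      0), (4, 6), (4, 7), (4, 8), (5, 6), (5, 7), (5, 9), (6, 0), (6, 8), (6, 10)]
    cl := [0, 2, 1, 5, 6, 1, 0, 3, 4, 7, 8]
    chq := [(0, 3), (0, 4), (3, 0), (4, 0)]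
    rng := [(0, 1), (0, 10), (1, 0), (1, 2), (2, 1), (2, 3), (3, 2), (3, 4), (4, 3), (4, 5), (5, 4),
      (5, 6), (6, 5), (6, 9), (7, 8), (7, 9), (8, 7), (8, 10), (9, 6), (9, 7), (10, 0), (10, 8)]
    lev := [] }
  links := [[1, 2, 3, 7], [2, 0, 7, 8, 9], [3, 0, 1, 9, 10, 11, 12], [7, 0, 2, 12, 13, 4], [7, 3, 13, 5,
    14, 15, 6], [14, 4, 13, 16], [7, 4, 15, 17]]
  P := {
    a := 7
    N := 18
    nb := [142, 901, 7691, 12437, 57576, 90128, 163984, 131419, 642, 1286, 2564, 5124, 10252, 69688,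
      98352, 147536, 24608, 32960]
    tri := [(0, 1, 2), (0, 1, 7), (0, 2, 3), (0, 3, 7), (1, 2, 9), (1, 7, 8), (1, 8, 9), (2, 3, 12),
      (2, 9, 10), (2, 10, 11), (2, 11, 12), (3, 4, 7), (3, 4, 13), (3, 12, 13), (4, 5, 13), (4, 5,
      14), (4, 6, 7), (4, 6, 15), (4, 14, 15), (5, 13, 16), (5, 14, 16), (6, 7, 17), (6, 15, 17)]
    fin := [0, 0, 2, 0, 0, 0, 0, 0, 8, 2, 10, 11, 2, 0, 14, 15, 16, 17]
    chd := [(0, 14), (0, 15)]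
    steps := [(0, 1), (0, 3), (0, 4), (0, 5), (0, 6), (0, 7), (0, 13), (2, 9), (2, 12)] }
  rep := [0, 2, 8, 14, 15, 10, 11, 16, 17]

noncomputable def v1775 : Cov.CovD where
  P := 3
  N := 6
  pl := [1, 3, 4, 9, 10]
  lev := [⟨[], [], [], [], [(0, 0, [3, 4])]⟩,
    ⟨[], [(0, 0), (0, 1)], [(0, 1)], [2], [(0, 0, [3, 4]), (2, 1, [])]⟩,
    ⟨[(0, 1)], [(0, 0), (0, 1), (1, 0), (1, 1)], [(1, 1)], [5, 6], [(2, 1, []), (5, 1,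
      [])]⟩,
    ⟨[(0, 1), (0, 2), (1, 2)], [(0, 0), (0, 1), (1, 0), (2, 0), (2, 1)], [(0, 0), (0, 1)],
      [], [(0, 0, [3, 4]), (5, 1, []), (6, 0, [3, 4])]⟩,
    ⟨[(0, 3), (2, 3)], [(0, 0), (1, 0), (3, 0), (3, 1), (3, 3), (3, 4)], [(0, 0), (0, 3),
      (0, 4), (3, 4)], [], [(0, 0, [3, 4]), (6, 0, [3, 4]), (7, 3, [0]), (8, 4, [0])]⟩,
    ⟨[(3, 4)], [(3, 0), (4, 0), (4, 3), (4, 4)], [(0, 3)], [7], [(6, 0, [3, 4]), (7, 3,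
      [0])]⟩,
    ⟨[(3, 4), (4, 5)], [(0, 0), (1, 0), (3, 0), (4, 0), (4, 3), (4, 4)], [(0, 4)], [8],
      [(0, 0, [3, 4]), (8, 4, [0])]⟩]
  Ta := [((0, 1), 0, 2), ((0, 10), 0, 8), ((2, 1), 1, 2), ((2, 3), 1, 5), ((5, 4), 1, 6), ((5,
    6), 1, 0), ((6, 5), 0, 1), ((6, 9), 0, 7)]
  Tb := [((0, 1, 10), 0, 2, 8), ((1, 0, 2), 2, 0, 1), ((2, 1, 3), 1, 2, 5), ((3, 2, 4), 5, 1, 6),
    ((4, 3, 5), 6, 5, 1), ((5, 4, 6), 1, 6, 0), ((6, 5, 9), 0, 1, 7), ((7, 8, 9), 3, 4, 7),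
    ((8, 7, 10), 4, 3, 8), ((9, 6, 7), 7, 0, 3), ((10, 0, 8), 8, 0, 4)]
  Tc := [(0, 3, 4)]
  Td := [((0, 3), (0, 1), 2), ((0, 3), (0, 10), 8), ((0, 3), (6, 5), 1), ((0, 3), (6, 9), 7),
    ((0, 4), (0, 1), 2), ((0, 4), (0, 10), 8), ((0, 4), (6, 5), 1), ((0, 4), (6, 9), 7), ((3,
    0), (7, 8), 4), ((3, 0), (7, 9), 7), ((4, 0), (8, 7), 3), ((4, 0), (8, 10), 8)]
  G := [[0, 0, 0xe1e1ae146e12e1e1cae1e16e18ad84, 0x1e31e5a1e9461e521e31e9ca1e321e91e5cad84,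
    0x1e31e9a1e5461e921e31e5ca1e91e561e38ad84], [0, 0, 0xe14e1e1ac61e1e1e8e14e1e1acd28184486,
    0, 0x1e9ee5a4481e51e961e38c1e348611e51e3e1898cd2c], [0, 0, 0,
    0x13de2731e191ec6191e27ace13ceca6b5e619e611ce8ad84,
    0x3ade25a1e611ec61bce611e671ce8a1ade27a1e111ecad84], [0,
    0x111e111ea111e46111e111e6111e8a111e111e6111e8ce48, 0, 0,
    0x611e111af61a1e8c82119e45912f1a5eac1116f411ce611eac586]]

noncomputable def n1775 : Ent := ⟨e1775, noF, [], [], [(8, 17, [6903326391201334775872065844685381424292761054348340378595029936951297, 0]), (11, 16, [7334685537875745012586738086077695515070955365108989538292687700942849, 0])]⟩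

def c1775 : PLift (Cov.check n1775.C.D v1775 = true) := ⟨by decide +kernel⟩

def b1775 : PLift (entF (fidx ts) 400 1775 n1775 = true) := ⟨by decide +kernel⟩

theorem g1775 : GoodF (fidx ts) 400 1775 := GoodF.ofV v1775 n1775 c1775.down b1775.down

/-- 4576744:1535/2 -/
noncomputable def e1776 : SCfg where
  D := {
    a := 7
    L := 9
    kp := 6
    inn := [(0, 1), (0, 2), (0, 3), (1, 0), (1, 2), (2, 0), (2, 1), (2, 3), (3, 0), (3, 2), (3, 4), (4,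
      3), (4, 5), (4, 6), (5, 4), (6, 4)]
    mix := [(0, 0), (1, 0), (1, 1), (1, 2), (2, 2), (2, 3), (2, 4), (2, 5), (3, 0), (3, 5), (3, 6), (4,
      0), (4, 6), (4, 7), (4, 8), (5, 2), (5, 7), (5, 8), (6, 0), (6, 1), (6, 8)]
    cl := [0, 2, 1, 5, 6, 1, 0, 4, 3]
    chq := [(0, 3), (3, 0), (3, 4), (4, 3)]
    rng := [(0, 1), (1, 0), (1, 2), (1, 8), (2, 1), (2, 3), (2, 7), (2, 8), (3, 2), (3, 4), (4, 3), (4,
      5), (5, 4), (5, 6), (6, 5), (6, 7), (7, 2), (7, 6), (8, 1), (8, 2)]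
    lev := [] }
  links := [[1, 2, 3, 7], [2, 0, 7, 8, 9], [3, 0, 1, 9, 10, 11, 12], [7, 0, 2, 12, 13, 4], [7, 3, 13, 14,
    5, 15, 6], [15, 4, 14, 9], [7, 4, 15, 8]]
  P := {
    a := 7
    N := 16
    nb := [142, 901, 7691, 12437, 57576, 49680, 33168, 347, 33474, 50470, 2564, 5124, 10252, 20504,
      8752, 880]
    tri := [(0, 1, 2), (0, 1, 7), (0, 2, 3), (0, 3, 7), (1, 2, 9), (1, 7, 8), (1, 8, 9), (2, 3, 12),
      (2, 9, 10), (2, 10, 11), (2, 11, 12), (3, 4, 7), (3, 4, 13), (3, 12, 13), (4, 5, 14), (4, 5,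
      15), (4, 6, 7), (4, 6, 15), (4, 13, 14), (5, 9, 14), (5, 9, 15), (6, 7, 8), (6, 8, 15)]
    fin := [0, 0, 2, 0, 0, 5, 0, 0, 8, 2, 10, 11, 2, 0, 5, 15]
    chd := [(0, 15), (5, 15)]
    steps := [(0, 1), (0, 3), (0, 4), (0, 7), (0, 6), (0, 13), (2, 9), (2, 12), (5, 14)] }
  rep := [0, 2, 8, 15, 5, 10, 11]

noncomputable def v1776 : Cov.CovD where
  P := 3
  N := 4
  pl := [1, 3, 4]
  lev := [⟨[], [], [], [], [(0, 0, [3])]⟩,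
    ⟨[], [(0, 0), (0, 1)], [(0, 1)], [2], [(0, 0, [3]), (2, 1, [])]⟩,
    ⟨[(0, 1)], [(0, 0), (0, 1), (1, 0), (1, 1)], [(1, 1)], [5, 6], [(2, 1, []), (5, 1,
      [])]⟩,
    ⟨[(0, 1), (0, 2), (1, 2)], [(0, 0), (0, 1), (1, 0), (2, 0), (2, 1)], [(0, 0), (0, 1)],
      [], [(0, 0, [3]), (5, 1, []), (6, 0, [3])]⟩,
    ⟨[(0, 3), (2, 3)], [(0, 0), (1, 0), (3, 0), (3, 1), (3, 3), (3, 4)], [(0, 0), (0, 3),
      (0, 4), (3, 4)], [], [(0, 0, [3]), (6, 0, [3]), (7, 4, [3]), (8, 3, [0, 4])]⟩,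
    ⟨[(3, 4)], [(1, 1), (2, 1), (4, 0), (4, 1), (4, 3), (4, 4)], [(1, 3), (1, 4), (3, 4)],
      [], [(2, 1, []), (7, 4, [3]), (8, 3, [0, 4])]⟩,
    ⟨[(3, 4), (4, 5)], [(0, 0), (1, 0), (3, 0), (4, 0), (4, 3), (4, 4), (5, 3)], [(0, 3)],
      [2], [(0, 0, [3]), (8, 3, [0, 4])]⟩]
  Ta := [((0, 1), 0, 2), ((2, 1), 1, 2), ((2, 3), 1, 5), ((2, 7), 1, 4), ((2, 8), 1, 3), ((5, 4),
    1, 6), ((5, 6), 1, 0), ((6, 5), 0, 1), ((6, 7), 0, 4)]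
  Tb := [((1, 0, 2), 2, 0, 1), ((1, 0, 8), 2, 0, 3), ((1, 2, 8), 2, 1, 3), ((2, 1, 3), 1, 2, 5),
    ((2, 1, 7), 1, 2, 4), ((2, 1, 8), 1, 2, 3), ((2, 3, 7), 1, 5, 4), ((2, 3, 8), 1, 5, 3),
    ((2, 7, 8), 1, 4, 3), ((3, 2, 4), 5, 1, 6), ((4, 3, 5), 6, 5, 1), ((5, 4, 6), 1, 6, 0),
    ((6, 5, 7), 0, 1, 4), ((7, 2, 6), 4, 1, 0), ((8, 1, 2), 3, 2, 1)]
  Tc := [(3, 0, 4)]
  Td := [((0, 3), (0, 1), 2), ((0, 3), (6, 5), 1), ((0, 3), (6, 7), 4), ((3, 0), (8, 1), 2), ((3,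
    0), (8, 2), 1), ((3, 4), (8, 1), 2), ((3, 4), (8, 2), 1), ((4, 3), (7, 2), 1), ((4, 3),
    (7, 6), 0)]
  G := [[0, 0, 0x8121a414641216818a41216818cd84, 0xc124c128c128d84,
    0x81a121e4a1216818c81a121e4d82], [0, 0, 0x212421282124d82, 0, 0x212821282124d24], [0, 0,
    0, 0x119d24841d28815d28d82, 0x21218a4c61821a9446582123814c688c], [0,
    0x181111e4111411e8181111e4e82, 0, 0, 0x812d28222d28222d28d24]]

noncomputable def n1776 : Ent := ⟨e1776, noF, [], [], []⟩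

def c1776 : PLift (Cov.check n1776.C.D v1776 = true) := ⟨by decide +kernel⟩

def b1776 : PLift (entF (fidx ts) 400 1776 n1776 = true) := ⟨by decide +kernel⟩

theorem g1776 : GoodF (fidx ts) 400 1776 := GoodF.ofV v1776 n1776 c1776.down b1776.down

/-- 4576744:1535/3 -/
noncomputable def e1777 : SCfg where
  D := {
    a := 7
    L := 9
    kp := 6
    inn := [(0, 1), (0, 2), (0, 3), (1, 0), (1, 2), (2, 0), (2, 1), (2, 3), (3, 0), (3, 2), (3, 4), (4,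
      3), (4, 5), (4, 6), (5, 4), (6, 4)]
    mix := [(0, 0), (1, 0), (1, 1), (1, 2), (2, 2), (2, 3), (2, 4), (2, 5), (3, 0), (3, 5), (3, 6), (4,
      0), (4, 6), (4, 7), (4, 8), (5, 3), (5, 7), (5, 8), (6, 0), (6, 1), (6, 8)]
    cl := [0, 4, 1, 2, 6, 1, 0, 5, 3]
    chq := [(0, 2), (0, 3), (2, 0), (3, 0)]
    rng := [(0, 1), (1, 0), (1, 2), (1, 8), (2, 1), (2, 3), (3, 2), (3, 4), (3, 7), (3, 8), (4, 3), (4,
      5), (5, 4), (5, 6), (6, 5), (6, 7), (7, 3), (7, 6), (8, 1), (8, 3)]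
    lev := [] }
  links := [[1, 2, 3, 7], [2, 0, 7, 8, 9], [3, 0, 1, 9, 10, 11, 12], [7, 0, 2, 12, 13, 4], [7, 3, 13, 14,
    5, 15, 6], [15, 4, 14, 10], [7, 4, 15, 8]]
  P := {
    a := 7
    N := 16
    nb := [142, 901, 7691, 12437, 57576, 50192, 33168, 347, 33474, 1286, 51748, 5124, 10252, 20504,
      9264, 1392]
    tri := [(0, 1, 2), (0, 1, 7), (0, 2, 3), (0, 3, 7), (1, 2, 9), (1, 7, 8), (1, 8, 9), (2, 3, 12),
      (2, 9, 10), (2, 10, 11), (2, 11, 12), (3, 4, 7), (3, 4, 13), (3, 12, 13), (4, 5, 14), (4, 5,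
      15), (4, 6, 7), (4, 6, 15), (4, 13, 14), (5, 10, 14), (5, 10, 15), (6, 7, 8), (6, 8, 15)]
    fin := [0, 0, 2, 0, 0, 0, 0, 0, 8, 2, 10, 11, 2, 0, 14, 15]
    chd := [(0, 10), (0, 15)]
    steps := [(0, 1), (0, 3), (0, 4), (0, 5), (0, 7), (0, 6), (0, 13), (2, 9), (2, 12)] }
  rep := [0, 2, 10, 15, 8, 14, 11]

noncomputable def v1777 : Cov.CovD where
  P := 3
  N := 4
  pl := [1, 4, 7]
  lev := [⟨[], [], [], [], [(0, 0, [2, 3])]⟩,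
    ⟨[], [(0, 0), (0, 1)], [(0, 1)], [4], [(0, 0, [2, 3]), (2, 1, [])]⟩,
    ⟨[(0, 1)], [(0, 0), (0, 1), (0, 2), (1, 0), (1, 1), (1, 2)], [(1, 1), (1, 2)], [6],
      [(2, 1, []), (3, 2, [0]), (5, 1, [])]⟩,
    ⟨[(0, 1), (0, 2), (1, 2)], [(0, 0), (0, 1), (1, 0), (2, 0), (2, 1), (2, 2)], [(0, 0),
      (0, 1)], [], [(0, 0, [2, 3]), (5, 1, []), (6, 0, [2, 3])]⟩,
    ⟨[(0, 3), (2, 3)], [(0, 0), (1, 0), (3, 0), (3, 1), (3, 3)], [(0, 0), (0, 3)], [5],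
      [(0, 0, [2, 3]), (6, 0, [2, 3]), (8, 3, [0])]⟩,
    ⟨[(3, 4)], [(2, 2), (4, 0), (4, 2), (4, 3)], [(2, 3)], [5], [(3, 2, [0]), (8, 3, [0])]⟩,
    ⟨[(3, 4), (4, 5)], [(0, 0), (1, 0), (3, 0), (4, 0), (4, 3), (5, 3)], [(0, 3)], [4],
      [(0, 0, [2, 3]), (8, 3, [0])]⟩]
  Ta := [((0, 1), 0, 4), ((2, 1), 1, 4), ((2, 3), 1, 2), ((5, 4), 1, 6), ((5, 6), 1, 0), ((6, 5),
    0, 1), ((6, 7), 0, 5)]
  Tb := [((1, 0, 2), 4, 0, 1), ((1, 0, 8), 4, 0, 3), ((1, 2, 8), 4, 1, 3), ((2, 1, 3), 1, 4, 2),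
    ((3, 2, 4), 2, 1, 6), ((3, 2, 7), 2, 1, 5), ((3, 2, 8), 2, 1, 3), ((3, 4, 7), 2, 6, 5),
    ((3, 4, 8), 2, 6, 3), ((3, 7, 8), 2, 5, 3), ((4, 3, 5), 6, 2, 1), ((5, 4, 6), 1, 6, 0),
    ((6, 5, 7), 0, 1, 5), ((7, 3, 6), 5, 2, 0), ((8, 1, 3), 3, 4, 2)]
  Tc := [(0, 2, 3)]
  Td := [((0, 2), (0, 1), 4), ((0, 2), (6, 5), 1), ((0, 2), (6, 7), 5), ((0, 3), (0, 1), 4), ((0,
    3), (6, 5), 1), ((0, 3), (6, 7), 5), ((2, 0), (3, 2), 1), ((2, 0), (3, 4), 6), ((2, 0),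
    (3, 7), 5), ((2, 0), (3, 8), 3), ((3, 0), (8, 1), 4), ((3, 0), (8, 3), 2)]
  G := [[0, 0, 0x1221814ca114126188a1c4, 0x212421289212821289c4,
    0x81a1a1e481a121e49414236618c6141e1e89c2], [0, 0, 0x14126188c128, 0,
    0xe14e121ace14e121ac924], [0, 0, 0x1812a1446114126188c1c8, 0x222d24222d28c18,
    0x189192e41891192e49414236188c4141852ac9c2], [0, 0x181111e4111411e8c11116188c111121e8ca2,
    0x1441812ac124, 0, 0x383112e4383112e4928]]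

noncomputable def n1777 : Ent := ⟨e1777, noF, [], [], []⟩

def c1777 : PLift (Cov.check n1777.C.D v1777 = true) := ⟨by decide +kernel⟩

def b1777 : PLift (entF (fidx ts) 400 1777 n1777 = true) := ⟨by decide +kernel⟩

theorem g1777 : GoodF (fidx ts) 400 1777 := GoodF.ofV v1777 n1777 c1777.down b1777.down

/-- 4576744:1535/4 -/
noncomputable def e1778 : SCfg where
  D := {
    a := 7
    L := 9
    kp := 6
    inn := [(0, 1), (0, 2), (0, 3), (1, 0), (1, 2), (2, 0), (2, 1), (2, 3), (3, 0), (3, 2), (3, 4), (4,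
      3), (4, 5), (4, 6), (5, 4), (6, 4)]
    mix := [(0, 0), (1, 0), (1, 1), (1, 2), (2, 2), (2, 3), (2, 4), (2, 5), (3, 0), (3, 5), (3, 6), (4,
      0), (4, 6), (4, 7), (4, 8), (5, 4), (5, 7), (5, 8), (6, 0), (6, 1), (6, 8)]
    cl := [0, 4, 1, 6, 2, 1, 0, 5, 3]
    chq := [(0, 2), (0, 3), (2, 0), (3, 0)]
    rng := [(0, 1), (1, 0), (1, 2), (1, 8), (2, 1), (2, 3), (3, 2), (3, 4), (4, 3), (4, 5), (4, 7), (4,
      8), (5, 4), (5, 6), (6, 5), (6, 7), (7, 4), (7, 6), (8, 1), (8, 4)]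
    lev := [] }
  links := [[1, 2, 3, 7], [2, 0, 7, 8, 9], [3, 0, 1, 9, 10, 11, 12], [7, 0, 2, 12, 13, 4], [7, 3, 13, 14,
    5, 15, 6], [15, 4, 14, 11], [7, 4, 15, 8]]
  P := {
    a := 7
    N := 16
    nb := [142, 901, 7691, 12437, 57576, 51216, 33168, 347, 33474, 1286, 2564, 54308, 10252, 20504,
      10288, 2416]
    tri := [(0, 1, 2), (0, 1, 7), (0, 2, 3), (0, 3, 7), (1, 2, 9), (1, 7, 8), (1, 8, 9), (2, 3, 12),
      (2, 9, 10), (2, 10, 11), (2, 11, 12), (3, 4, 7), (3, 4, 13), (3, 12, 13), (4, 5, 14), (4, 5,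
      15), (4, 6, 7), (4, 6, 15), (4, 13, 14), (5, 11, 14), (5, 11, 15), (6, 7, 8), (6, 8, 15)]
    fin := [0, 0, 2, 0, 0, 0, 0, 0, 8, 2, 10, 11, 2, 0, 14, 15]
    chd := [(0, 11), (0, 15)]
    steps := [(0, 1), (0, 3), (0, 4), (0, 5), (0, 7), (0, 6), (0, 13), (2, 9), (2, 12)] }
  rep := [0, 2, 11, 15, 8, 14, 10]

noncomputable def v1778 : Cov.CovD where
  P := 3
  N := 4
  pl := [1, 3, 7]
  lev := [⟨[], [], [], [], [(0, 0, [2, 3])]⟩,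
    ⟨[], [(0, 0), (0, 1)], [(0, 1)], [4], [(0, 0, [2, 3]), (2, 1, [])]⟩,
    ⟨[(0, 1)], [(0, 0), (0, 1), (0, 2), (1, 0), (1, 1), (1, 2)], [(1, 1), (1, 2)], [6],
      [(2, 1, []), (4, 2, [0]), (5, 1, [])]⟩,
    ⟨[(0, 1), (0, 2), (1, 2)], [(0, 0), (0, 1), (1, 0), (2, 0), (2, 1), (2, 2)], [(0, 0),
      (0, 1)], [], [(0, 0, [2, 3]), (5, 1, []), (6, 0, [2, 3])]⟩,
    ⟨[(0, 3), (2, 3)], [(0, 0), (1, 0), (3, 0), (3, 1), (3, 3)], [(0, 0), (0, 3)], [5],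
      [(0, 0, [2, 3]), (6, 0, [2, 3]), (8, 3, [0])]⟩,
    ⟨[(3, 4)], [(2, 2), (4, 0), (4, 2), (4, 3)], [(2, 3)], [5], [(4, 2, [0]), (8, 3, [0])]⟩,
    ⟨[(3, 4), (4, 5)], [(0, 0), (1, 0), (3, 0), (4, 0), (4, 3), (5, 3)], [(0, 3)], [4],
      [(0, 0, [2, 3]), (8, 3, [0])]⟩]
  Ta := [((0, 1), 0, 4), ((2, 1), 1, 4), ((2, 3), 1, 6), ((5, 4), 1, 2), ((5, 6), 1, 0), ((6, 5),
    0, 1), ((6, 7), 0, 5)]
  Tb := [((1, 0, 2), 4, 0, 1), ((1, 0, 8), 4, 0, 3), ((1, 2, 8), 4, 1, 3), ((2, 1, 3), 1, 4, 6),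
    ((3, 2, 4), 6, 1, 2), ((4, 3, 5), 2, 6, 1), ((4, 3, 7), 2, 6, 5), ((4, 3, 8), 2, 6, 3),
    ((4, 5, 7), 2, 1, 5), ((4, 5, 8), 2, 1, 3), ((4, 7, 8), 2, 5, 3), ((5, 4, 6), 1, 2, 0),
    ((6, 5, 7), 0, 1, 5), ((7, 4, 6), 5, 2, 0), ((8, 1, 4), 3, 4, 2)]
  Tc := [(0, 2, 3)]
  Td := [((0, 2), (0, 1), 4), ((0, 2), (6, 5), 1), ((0, 2), (6, 7), 5), ((0, 3), (0, 1), 4), ((0,
    3), (6, 5), 1), ((0, 3), (6, 7), 5), ((2, 0), (4, 3), 6), ((2, 0), (4, 5), 1), ((2, 0),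
    (4, 7), 5), ((2, 0), (4, 8), 3), ((3, 0), (8, 1), 4), ((3, 0), (8, 4), 2)]
  G := [[0, 0, 0x1812a1446114126188a1c4, 0, 0x81e1aa146a1281a1c692126841ca614161e89c4], [0, 0,
    0x1441812ac124, 0x21242128c24, 0xe1216e18ce14e121ac924], [0, 0, 0x1221814c611812a14461c8,
    0, 0x1831123e41122441126588a921268982ebc68d8], [0,
    0x181411e2111111e2c114111e2111411e2ca4, 0x14126188c124, 0x222d24222d28c21,
    0x31126388c31126388c924]]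

noncomputable def n1778 : Ent := ⟨e1778, noF, [], [], []⟩

def c1778 : PLift (Cov.check n1778.C.D v1778 = true) := ⟨by decide +kernel⟩

def b1778 : PLift (entF (fidx ts) 400 1778 n1778 = true) := ⟨by decide +kernel⟩

theorem g1778 : GoodF (fidx ts) 400 1778 := GoodF.ofV v1778 n1778 c1778.down b1778.down

/-- 4576744:1535/1 -/
noncomputable def e1779 : SCfg where
  D := {
    a := 7
    L := 10
    kp := 7
    inn := [(0, 1), (0, 2), (0, 3), (1, 0), (1, 2), (2, 0), (2, 1), (2, 3), (3, 0), (3, 2), (3, 4), (4,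
      3), (4, 5), (4, 6), (5, 4), (6, 4)]
    mix := [(0, 0), (1, 0), (1, 1), (1, 2), (2, 2), (2, 3), (2, 4), (2, 5), (3, 0), (3, 5), (3, 6), (4,
      0), (4, 6), (4, 7), (4, 8), (5, 7), (5, 8), (5, 9), (6, 0), (6, 1), (6, 8)]
    cl := [0, 2, 1, 6, 7, 1, 0, 4, 3, 5]
    chq := [(0, 3), (0, 5), (3, 0), (5, 0)]
    rng := [(0, 1), (1, 0), (1, 2), (1, 8), (2, 1), (2, 3), (3, 2), (3, 4), (4, 3), (4, 5), (5, 4), (5,
      6), (6, 5), (6, 7), (7, 6), (7, 9), (8, 1), (8, 9), (9, 7), (9, 8)]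
    lev := [] }
  links := [[1, 2, 3, 7], [2, 0, 7, 8, 9], [3, 0, 1, 9, 10, 11, 12], [7, 0, 2, 12, 13, 4], [7, 3, 13, 14,
    5, 15, 6], [15, 4, 14, 16], [7, 4, 15, 8]]
  P := {
    a := 7
    N := 17
    nb := [142, 901, 7691, 12437, 57576, 114704, 33168, 347, 33474, 1286, 2564, 5124, 10252, 20504,
      73776, 65904, 49184]
    tri := [(0, 1, 2), (0, 1, 7), (0, 2, 3), (0, 3, 7), (1, 2, 9), (1, 7, 8), (1, 8, 9), (2, 3, 12),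
      (2, 9, 10), (2, 10, 11), (2, 11, 12), (3, 4, 7), (3, 4, 13), (3, 12, 13), (4, 5, 14), (4, 5,
      15), (4, 6, 7), (4, 6, 15), (4, 13, 14), (5, 14, 16), (5, 15, 16), (6, 7, 8), (6, 8, 15)]
    fin := [0, 0, 2, 0, 0, 0, 0, 0, 8, 2, 10, 11, 2, 0, 14, 15, 16]
    chd := [(0, 15), (0, 16)]
    steps := [(0, 1), (0, 3), (0, 4), (0, 5), (0, 7), (0, 6), (0, 13), (2, 9), (2, 12)] }
  rep := [0, 2, 8, 15, 14, 16, 10, 11]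

noncomputable def v1779 : Cov.CovD where
  P := 3
  N := 5
  pl := [1, 3, 4, 7]
  lev := [⟨[], [], [], [], [(0, 0, [3, 5])]⟩,
    ⟨[], [(0, 0), (0, 1)], [(0, 1)], [2], [(0, 0, [3, 5]), (2, 1, [])]⟩,
    ⟨[(0, 1)], [(0, 0), (0, 1), (1, 0), (1, 1)], [(1, 1)], [6, 7], [(2, 1, []), (5, 1,
      [])]⟩,
    ⟨[(0, 1), (0, 2), (1, 2)], [(0, 0), (0, 1), (1, 0), (2, 0), (2, 1)], [(0, 0), (0, 1)],
      [], [(0, 0, [3, 5]), (5, 1, []), (6, 0, [3, 5])]⟩,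
    ⟨[(0, 3), (2, 3)], [(0, 0), (1, 0), (3, 0), (3, 1), (3, 3)], [(0, 0), (0, 3)], [4],
      [(0, 0, [3, 5]), (6, 0, [3, 5]), (8, 3, [0])]⟩,
    ⟨[(3, 4)], [(4, 0), (4, 3), (4, 5)], [(3, 5)], [4], [(8, 3, [0]), (9, 5, [0])]⟩,
    ⟨[(3, 4), (4, 5)], [(0, 0), (1, 0), (3, 0), (4, 0), (4, 3), (5, 3)], [(0, 3)], [2],
      [(0, 0, [3, 5]), (8, 3, [0])]⟩]
  Ta := [((0, 1), 0, 2), ((2, 1), 1, 2), ((2, 3), 1, 6), ((5, 4), 1, 7), ((5, 6), 1, 0), ((6, 5),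
    0, 1), ((6, 7), 0, 4)]
  Tb := [((1, 0, 2), 2, 0, 1), ((1, 0, 8), 2, 0, 3), ((1, 2, 8), 2, 1, 3), ((2, 1, 3), 1, 2, 6),
    ((3, 2, 4), 6, 1, 7), ((4, 3, 5), 7, 6, 1), ((5, 4, 6), 1, 7, 0), ((6, 5, 7), 0, 1, 4),
    ((7, 6, 9), 4, 0, 5), ((8, 1, 9), 3, 2, 5), ((9, 7, 8), 5, 4, 3)]
  Tc := [(0, 3, 5)]
  Td := [((0, 3), (0, 1), 2), ((0, 3), (6, 5), 1), ((0, 3), (6, 7), 4), ((0, 5), (0, 1), 2), ((0,
    5), (6, 5), 1), ((0, 5), (6, 7), 4), ((3, 0), (8, 1), 2), ((3, 0), (8, 9), 5), ((5, 0),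
    (9, 7), 4), ((5, 0), (9, 8), 3)]
  G := [[0, 0, 0x2128141c641216818a8121a4146d48, 0x81c1a414641c16818a41c16818cd48,
    0x81a121e4a148121ac81a121e4d82], [0, 0, 0x81a121e44148121ac41216818cd82, 0,
    0x8121a481a121e4581a121e4a148ca8], [0, 0, 0, 0x189114197e441111761898c1141111cfe8d82,
    0x1232189115c611512361898a12321891a5cad84], [0, 0x811111e2111111e46811111e48c8, 0, 0,
    0x118d111127e41a512361198c118d111127e4d82]]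

noncomputable def n1779 : Ent := ⟨e1779, noF, [], [], [(9, 16, [1580044410770988437309982408355971841652082177953823432505696387073, 0]), (10, 16, [1580044410770988437309982408355971841652082177953823432505696391169, 0]), (11, 16, [1580044410770988437309982408355971841652082177953823432505696395265, 0])]⟩

def c1779 : PLift (Cov.check n1779.C.D v1779 = true) := ⟨by decide +kernel⟩

def b1779 : PLift (entF (fidx ts) 400 1779 n1779 = true) := ⟨by decide +kernel⟩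

theorem g1779 : GoodF (fidx ts) 400 1779 := GoodF.ofV v1779 n1779 c1779.down b1779.down

/-- 4576744:1535/5 -/
noncomputable def e1780 : SCfg where
  D := {
    a := 7
    L := 10
    kp := 7
    inn := [(0, 1), (0, 2), (0, 3), (1, 0), (1, 2), (2, 0), (2, 1), (2, 3), (3, 0), (3, 2), (3, 4), (4,
      3), (4, 5), (4, 6), (5, 4), (6, 4)]
    mix := [(0, 0), (1, 0), (1, 1), (1, 2), (2, 2), (2, 3), (2, 4), (2, 5), (3, 0), (3, 5), (3, 6), (4,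
      0), (4, 6), (4, 7), (4, 8), (5, 2), (5, 7), (5, 8), (6, 0), (6, 8), (6, 9)]
    cl := [0, 2, 1, 5, 6, 1, 0, 4, 3, 7]
    chq := [(0, 3), (3, 0), (3, 4), (4, 3)]
    rng := [(0, 1), (0, 9), (1, 0), (1, 2), (2, 1), (2, 3), (2, 7), (2, 8), (3, 2), (3, 4), (4, 3), (4,
      5), (5, 4), (5, 6), (6, 5), (6, 7), (7, 2), (7, 6), (8, 2), (8, 9), (9, 0), (9, 8)]
    lev := [] }
  links := [[1, 2, 3, 7], [2, 0, 7, 8, 9], [3, 0, 1, 9, 10, 11, 12], [7, 0, 2, 12, 13, 4], [7, 3, 13, 14,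
    5, 15, 6], [15, 4, 14, 9], [7, 4, 15, 16]]
  P := {
    a := 7
    N := 17
    nb := [142, 901, 7691, 12437, 57576, 49680, 98448, 65883, 642, 50470, 2564, 5124, 10252, 20504,
      8752, 66160, 32960]
    tri := [(0, 1, 2), (0, 1, 7), (0, 2, 3), (0, 3, 7), (1, 2, 9), (1, 7, 8), (1, 8, 9), (2, 3, 12),
      (2, 9, 10), (2, 10, 11), (2, 11, 12), (3, 4, 7), (3, 4, 13), (3, 12, 13), (4, 5, 14), (4, 5,
      15), (4, 6, 7), (4, 6, 15), (4, 13, 14), (5, 9, 14), (5, 9, 15), (6, 7, 16), (6, 15, 16)]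
    fin := [0, 0, 2, 0, 4, 2, 0, 0, 8, 2, 10, 11, 2, 0, 4, 15, 16]
    chd := [(0, 15), (4, 15)]
    steps := [(0, 1), (0, 3), (0, 7), (0, 6), (0, 13), (2, 9), (2, 5), (2, 12), (4, 14)] }
  rep := [0, 2, 8, 15, 4, 10, 11, 16]

noncomputable def v1780 : Cov.CovD where
  P := 3
  N := 5
  pl := [1, 3, 4, 9]
  lev := [⟨[], [], [], [], [(0, 0, [3])]⟩,
    ⟨[], [(0, 0), (0, 1)], [(0, 1)], [2], [(0, 0, [3]), (2, 1, [])]⟩,
    ⟨[(0, 1)], [(0, 0), (0, 1), (1, 0), (1, 1)], [(1, 1)], [5, 6], [(2, 1, []), (5, 1,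
      [])]⟩,
    ⟨[(0, 1), (0, 2), (1, 2)], [(0, 0), (0, 1), (1, 0), (2, 0), (2, 1)], [(0, 0), (0, 1)],
      [], [(0, 0, [3]), (5, 1, []), (6, 0, [3])]⟩,
    ⟨[(0, 3), (2, 3)], [(0, 0), (1, 0), (3, 0), (3, 1), (3, 3), (3, 4)], [(0, 0), (0, 3),
      (0, 4), (3, 4)], [], [(0, 0, [3]), (6, 0, [3]), (7, 4, [3]), (8, 3, [0, 4])]⟩,
    ⟨[(3, 4)], [(1, 1), (2, 1), (4, 0), (4, 1), (4, 3), (4, 4)], [(1, 3), (1, 4), (3, 4)],
      [], [(2, 1, []), (7, 4, [3]), (8, 3, [0, 4])]⟩,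
    ⟨[(3, 4), (4, 5)], [(0, 0), (1, 0), (3, 0), (4, 0), (4, 3), (4, 4), (5, 3)], [(0, 3)],
      [7], [(0, 0, [3]), (8, 3, [0, 4])]⟩]
  Ta := [((0, 1), 0, 2), ((0, 9), 0, 7), ((2, 1), 1, 2), ((2, 3), 1, 5), ((2, 7), 1, 4), ((2, 8),
    1, 3), ((5, 4), 1, 6), ((5, 6), 1, 0), ((6, 5), 0, 1), ((6, 7), 0, 4)]
  Tb := [((0, 1, 9), 0, 2, 7), ((1, 0, 2), 2, 0, 1), ((2, 1, 3), 1, 2, 5), ((2, 1, 7), 1, 2, 4),
    ((2, 1, 8), 1, 2, 3), ((2, 3, 7), 1, 5, 4), ((2, 3, 8), 1, 5, 3), ((2, 7, 8), 1, 4, 3),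
    ((3, 2, 4), 5, 1, 6), ((4, 3, 5), 6, 5, 1), ((5, 4, 6), 1, 6, 0), ((6, 5, 7), 0, 1, 4),
    ((7, 2, 6), 4, 1, 0), ((8, 2, 9), 3, 1, 7), ((9, 0, 8), 7, 0, 3)]
  Tc := [(3, 0, 4)]
  Td := [((0, 3), (0, 1), 2), ((0, 3), (0, 9), 7), ((0, 3), (6, 5), 1), ((0, 3), (6, 7), 4), ((3,
    0), (8, 2), 1), ((3, 0), (8, 9), 7), ((3, 4), (8, 2), 1), ((3, 4), (8, 9), 7), ((4, 3),
    (7, 2), 1), ((4, 3), (7, 6), 0)]
  G := [[0, 0, 0xe1e16e18a4e1e16e18ae1e16e18a9c4, 0xe124e124e128d82,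
    0x689e1ae146e1e16e18ae12689e1cad84], [0, 0, 0xe128e128e124d42, 0, 0xe124e124e128d28], [0,
    0, 0, 0x953d24a61d2811bd28d84, 0x91238b4c634e16588a5123894c6d84], [0,
    0x181112e4111111e8111111e8e42, 0, 0, 0xa39d24117d2811ed24d84]]

noncomputable def n1780 : Ent := ⟨e1780, noF, [], [], [(8, 16, [1580044410770988437309982408355971841652082177953823432505696387073, 0])]⟩

def c1780 : PLift (Cov.check n1780.C.D v1780 = true) := ⟨by decide +kernel⟩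

def b1780 : PLift (entF (fidx ts) 400 1780 n1780 = true) := ⟨by decide +kernel⟩

theorem g1780 : GoodF (fidx ts) 400 1780 := GoodF.ofV v1780 n1780 c1780.down b1780.down

/-- 4576744:1535/6 -/
noncomputable def e1781 : SCfg where
  D := {
    a := 7
    L := 10
    kp := 7
    inn := [(0, 1), (0, 2), (0, 3), (1, 0), (1, 2), (2, 0), (2, 1), (2, 3), (3, 0), (3, 2), (3, 4), (4,
      3), (4, 5), (4, 6), (5, 4), (6, 4)]
    mix := [(0, 0), (1, 0), (1, 1), (1, 2), (2, 2), (2, 3), (2, 4), (2, 5), (3, 0), (3, 5), (3, 6), (4,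
      0), (4, 6), (4, 7), (4, 8), (5, 3), (5, 7), (5, 8), (6, 0), (6, 8), (6, 9)]
    cl := [0, 5, 1, 2, 6, 1, 0, 4, 3, 7]
    chq := [(0, 2), (0, 3), (2, 0), (3, 0)]
    rng := [(0, 1), (0, 9), (1, 0), (1, 2), (2, 1), (2, 3), (3, 2), (3, 4), (3, 7), (3, 8), (4, 3), (4,
      5), (5, 4), (5, 6), (6, 5), (6, 7), (7, 3), (7, 6), (8, 3), (8, 9), (9, 0), (9, 8)]
    lev := [] }
  links := [[1, 2, 3, 7], [2, 0, 7, 8, 9], [3, 0, 1, 9, 10, 11, 12], [7, 0, 2, 12, 13, 4], [7, 3, 13, 14,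
    5, 15, 6], [15, 4, 14, 10], [7, 4, 15, 16]]
  P := {
    a := 7
    N := 17
    nb := [142, 901, 7691, 12437, 57576, 50192, 98448, 65883, 642, 1286, 51748, 5124, 10252, 20504,
      9264, 66672, 32960]
    tri := [(0, 1, 2), (0, 1, 7), (0, 2, 3), (0, 3, 7), (1, 2, 9), (1, 7, 8), (1, 8, 9), (2, 3, 12),
      (2, 9, 10), (2, 10, 11), (2, 11, 12), (3, 4, 7), (3, 4, 13), (3, 12, 13), (4, 5, 14), (4, 5,
      15), (4, 6, 7), (4, 6, 15), (4, 13, 14), (5, 10, 14), (5, 10, 15), (6, 7, 16), (6, 15, 16)]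
    fin := [0, 0, 2, 0, 0, 0, 0, 0, 8, 2, 10, 11, 2, 0, 14, 15, 16]
    chd := [(0, 10), (0, 15)]
    steps := [(0, 1), (0, 3), (0, 4), (0, 5), (0, 6), (0, 7), (0, 13), (2, 9), (2, 12)] }
  rep := [0, 2, 10, 15, 14, 8, 11, 16]

noncomputable def v1781 : Cov.CovD where
  P := 3
  N := 5
  pl := [1, 4, 7, 9]
  lev := [⟨[], [], [], [], [(0, 0, [2, 3])]⟩,
    ⟨[], [(0, 0), (0, 1)], [(0, 1)], [5], [(0, 0, [2, 3]), (2, 1, [])]⟩,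
    ⟨[(0, 1)], [(0, 0), (0, 1), (0, 2), (1, 0), (1, 1), (1, 2)], [(1, 1), (1, 2)], [6],
      [(2, 1, []), (3, 2, [0]), (5, 1, [])]⟩,
    ⟨[(0, 1), (0, 2), (1, 2)], [(0, 0), (0, 1), (1, 0), (2, 0), (2, 1), (2, 2)], [(0, 0),
      (0, 1)], [], [(0, 0, [2, 3]), (5, 1, []), (6, 0, [2, 3])]⟩,
    ⟨[(0, 3), (2, 3)], [(0, 0), (1, 0), (3, 0), (3, 1), (3, 3)], [(0, 0), (0, 3)], [4],
      [(0, 0, [2, 3]), (6, 0, [2, 3]), (8, 3, [0])]⟩,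
    ⟨[(3, 4)], [(2, 2), (4, 0), (4, 2), (4, 3)], [(2, 3)], [4], [(3, 2, [0]), (8, 3, [0])]⟩,
    ⟨[(3, 4), (4, 5)], [(0, 0), (1, 0), (3, 0), (4, 0), (4, 3), (5, 3)], [(0, 3)], [7],
      [(0, 0, [2, 3]), (8, 3, [0])]⟩]
  Ta := [((0, 1), 0, 5), ((0, 9), 0, 7), ((2, 1), 1, 5), ((2, 3), 1, 2), ((5, 4), 1, 6), ((5, 6),
    1, 0), ((6, 5), 0, 1), ((6, 7), 0, 4)]
  Tb := [((0, 1, 9), 0, 5, 7), ((1, 0, 2), 5, 0, 1), ((2, 1, 3), 1, 5, 2), ((3, 2, 4), 2, 1, 6),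
    ((3, 2, 7), 2, 1, 4), ((3, 2, 8), 2, 1, 3), ((3, 4, 7), 2, 6, 4), ((3, 4, 8), 2, 6, 3),
    ((3, 7, 8), 2, 4, 3), ((4, 3, 5), 6, 2, 1), ((5, 4, 6), 1, 6, 0), ((6, 5, 7), 0, 1, 4),
    ((7, 3, 6), 4, 2, 0), ((8, 3, 9), 3, 2, 7), ((9, 0, 8), 7, 0, 3)]
  Tc := [(0, 2, 3)]
  Td := [((0, 2), (0, 1), 5), ((0, 2), (0, 9), 7), ((0, 2), (6, 5), 1), ((0, 2), (6, 7), 4), ((0,
    3), (0, 1), 5), ((0, 3), (0, 9), 7), ((0, 3), (6, 5), 1), ((0, 3), (6, 7), 4), ((2, 0),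
    (3, 2), 1), ((2, 0), (3, 4), 6), ((2, 0), (3, 7), 4), ((2, 0), (3, 8), 3), ((3, 0), (8,
    3), 2), ((3, 0), (8, 9), 7)]
  G := [[0, 0, 0x1221814c6114126188a1c4, 0xe124e1245e128e1245c2,
    0xe12e1e1c6e12e1e1c69c232e1e1cae12e1e1ca9c4], [0, 0, 0x1441812ac124, 0,
    0xe14e1e1ace1e16e18c924], [0, 0, 0x14126188a11221814ca1c4, 0xa6ed28a6ed28c14,
    0x5891d2e4191526388c12c9c23ac2eb468d8], [0, 0x181111e4111411e8c181111e4111111e8c62,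
    0x1441812ac128, 0, 0x583192e4389152e4928]]

noncomputable def n1781 : Ent := ⟨e1781, noF, [], [], [(8, 16, [1580044410770988437309982408355971841652082177953823432505696391169, 0])]⟩

def c1781 : PLift (Cov.check n1781.C.D v1781 = true) := ⟨by decide +kernel⟩

def b1781 : PLift (entF (fidx ts) 400 1781 n1781 = true) := ⟨by decide +kernel⟩

theorem g1781 : GoodF (fidx ts) 400 1781 := GoodF.ofV v1781 n1781 c1781.down b1781.down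

/-- 4576744:1535/7 -/
noncomputable def e1782 : SCfg where
  D := {
    a := 7
    L := 10
    kp := 7
    inn := [(0, 1), (0, 2), (0, 3), (1, 0), (1, 2), (2, 0), (2, 1), (2, 3), (3, 0), (3, 2), (3, 4), (4,
      3), (4, 5), (4, 6), (5, 4), (6, 4)]
    mix := [(0, 0), (1, 0), (1, 1), (1, 2), (2, 2), (2, 3), (2, 4), (2, 5), (3, 0), (3, 5), (3, 6), (4,
      0), (4, 6), (4, 7), (4, 8), (5, 4), (5, 7), (5, 8), (6, 0), (6, 8), (6, 9)]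
    cl := [0, 5, 1, 6, 2, 1, 0, 4, 3, 7]
    chq := [(0, 2), (0, 3), (2, 0), (3, 0)]
    rng := [(0, 1), (0, 9), (1, 0), (1, 2), (2, 1), (2, 3), (3, 2), (3, 4), (4, 3), (4, 5), (4, 7), (4,
      8), (5, 4), (5, 6), (6, 5), (6, 7), (7, 4), (7, 6), (8, 4), (8, 9), (9, 0), (9, 8)]
    lev := [] }
  links := [[1, 2, 3, 7], [2, 0, 7, 8, 9], [3, 0, 1, 9, 10, 11, 12], [7, 0, 2, 12, 13, 4], [7, 3, 13, 14,
    5, 15, 6], [15, 4, 14, 11], [7, 4, 15, 16]]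
  P := {
    a := 7
    N := 17
    nb := [142, 901, 7691, 12437, 57576, 51216, 98448, 65883, 642, 1286, 2564, 54308, 10252, 20504,
      10288, 67696, 32960]
    tri := [(0, 1, 2), (0, 1, 7), (0, 2, 3), (0, 3, 7), (1, 2, 9), (1, 7, 8), (1, 8, 9), (2, 3, 12),
      (2, 9, 10), (2, 10, 11), (2, 11, 12), (3, 4, 7), (3, 4, 13), (3, 12, 13), (4, 5, 14), (4, 5,
      15), (4, 6, 7), (4, 6, 15), (4, 13, 14), (5, 11, 14), (5, 11, 15), (6, 7, 16), (6, 15, 16)]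
    fin := [0, 0, 2, 0, 0, 0, 0, 0, 8, 2, 10, 11, 2, 0, 14, 15, 16]
    chd := [(0, 11), (0, 15)]
    steps := [(0, 1), (0, 3), (0, 4), (0, 5), (0, 6), (0, 7), (0, 13), (2, 9), (2, 12)] }
  rep := [0, 2, 11, 15, 14, 8, 10, 16]

noncomputable def v1782 : Cov.CovD where
  P := 3
  N := 5
  pl := [1, 3, 7, 9]
  lev := [⟨[], [], [], [], [(0, 0, [2, 3])]⟩,
    ⟨[], [(0, 0), (0, 1)], [(0, 1)], [5], [(0, 0, [2, 3]), (2, 1, [])]⟩,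
    ⟨[(0, 1)], [(0, 0), (0, 1), (0, 2), (1, 0), (1, 1), (1, 2)], [(1, 1), (1, 2)], [6],
      [(2, 1, []), (4, 2, [0]), (5, 1, [])]⟩,
    ⟨[(0, 1), (0, 2), (1, 2)], [(0, 0), (0, 1), (1, 0), (2, 0), (2, 1), (2, 2)], [(0, 0),
      (0, 1)], [], [(0, 0, [2, 3]), (5, 1, []), (6, 0, [2, 3])]⟩,
    ⟨[(0, 3), (2, 3)], [(0, 0), (1, 0), (3, 0), (3, 1), (3, 3)], [(0, 0), (0, 3)], [4],
      [(0, 0, [2, 3]), (6, 0, [2, 3]), (8, 3, [0])]⟩,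
    ⟨[(3, 4)], [(2, 2), (4, 0), (4, 2), (4, 3)], [(2, 3)], [4], [(4, 2, [0]), (8, 3, [0])]⟩,
    ⟨[(3, 4), (4, 5)], [(0, 0), (1, 0), (3, 0), (4, 0), (4, 3), (5, 3)], [(0, 3)], [7],
      [(0, 0, [2, 3]), (8, 3, [0])]⟩]
  Ta := [((0, 1), 0, 5), ((0, 9), 0, 7), ((2, 1), 1, 5), ((2, 3), 1, 6), ((5, 4), 1, 2), ((5, 6),
    1, 0), ((6, 5), 0, 1), ((6, 7), 0, 4)]
  Tb := [((0, 1, 9), 0, 5, 7), ((1, 0, 2), 5, 0, 1), ((2, 1, 3), 1, 5, 6), ((3, 2, 4), 6, 1, 2),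
    ((4, 3, 5), 2, 6, 1), ((4, 3, 7), 2, 6, 4), ((4, 3, 8), 2, 6, 3), ((4, 5, 7), 2, 1, 4),
    ((4, 5, 8), 2, 1, 3), ((4, 7, 8), 2, 4, 3), ((5, 4, 6), 1, 2, 0), ((6, 5, 7), 0, 1, 4),
    ((7, 4, 6), 4, 2, 0), ((8, 4, 9), 3, 2, 7), ((9, 0, 8), 7, 0, 3)]
  Tc := [(0, 2, 3)]
  Td := [((0, 2), (0, 1), 5), ((0, 2), (0, 9), 7), ((0, 2), (6, 5), 1), ((0, 2), (6, 7), 4), ((0,
    3), (0, 1), 5), ((0, 3), (0, 9), 7), ((0, 3), (6, 5), 1), ((0, 3), (6, 7), 4), ((2, 0),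
    (4, 3), 6), ((2, 0), (4, 5), 1), ((2, 0), (4, 7), 4), ((2, 0), (4, 8), 3), ((3, 0), (8,
    4), 2), ((3, 0), (8, 9), 7)]
  G := [[0, 0, 0x1221814c6114126188a1c4, 0, 0xe12e1e1c61e1e1ae146e1e16e18c9ce12e1e1c688c], [0,
    0, 0x1441812ac124, 0xe124e124528, 0xe14e1e1ace1e16e18c924], [0, 0,
    0x1812a144611812a14461c8, 0, 0x91526388c1389152e4182eb4689c23ac8d2], [0,
    0x111411e2111111e8c181111e2111411e8ca4, 0x1441812ac124, 0xa6ed28a6ed24c21,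
    0x389152e418b1d2e4928]]

noncomputable def n1782 : Ent := ⟨e1782, noF, [], [], [(8, 16, [1580044410770988437309982408355971841652082177953823432505696395265, 0])]⟩

def c1782 : PLift (Cov.check n1782.C.D v1782 = true) := ⟨by decide +kernel⟩

def b1782 : PLift (entF (fidx ts) 400 1782 n1782 = true) := ⟨by decide +kernel⟩

theorem g1782 : GoodF (fidx ts) 400 1782 := GoodF.ofV v1782 n1782 c1782.down b1782.down

/-- 4576744:1535 -/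
noncomputable def e1783 : SCfg where
  D := {
    a := 7
    L := 11
    kp := 8
    inn := [(0, 1), (0, 2), (0, 3), (1, 0), (1, 2), (2, 0), (2, 1), (2, 3), (3, 0), (3, 2), (3, 4), (4,
      3), (4, 5), (4, 6), (5, 4), (6, 4)]
    mix := [(0, 0), (1, 0), (1, 1), (1, 2), (2, 2), (2, 3), (2, 4), (2, 5), (3, 0), (3, 5), (3, 6), (4,
      0), (4, 6), (4, 7), (4, 8), (5, 7), (5, 8), (5, 9), (6, 0), (6, 8), (6, 10)]
    cl := [0, 5, 1, 6, 7, 1, 0, 2, 3, 4, 8]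
    chq := [(0, 3), (0, 4), (3, 0), (4, 0)]
    rng := [(0, 1), (0, 10), (1, 0), (1, 2), (2, 1), (2, 3), (3, 2), (3, 4), (4, 3), (4, 5), (5, 4),
      (5, 6), (6, 5), (6, 7), (7, 6), (7, 9), (8, 9), (8, 10), (9, 7), (9, 8), (10, 0), (10, 8)]
    lev := [] }
  links := [[1, 2, 3, 7], [2, 0, 7, 8, 9], [3, 0, 1, 9, 10, 11, 12], [7, 0, 2, 12, 13, 4], [7, 3, 13, 14,
    5, 15, 6], [15, 4, 14, 16], [7, 4, 15, 17]]
  P := {
    a := 7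
    N := 18
    nb := [142, 901, 7691, 12437, 57576, 114704, 163984, 131419, 642, 1286, 2564, 5124, 10252, 20504,
      73776, 196720, 49184, 32960]
    tri := [(0, 1, 2), (0, 1, 7), (0, 2, 3), (0, 3, 7), (1, 2, 9), (1, 7, 8), (1, 8, 9), (2, 3, 12),
      (2, 9, 10), (2, 10, 11), (2, 11, 12), (3, 4, 7), (3, 4, 13), (3, 12, 13), (4, 5, 14), (4, 5,
      15), (4, 6, 7), (4, 6, 15), (4, 13, 14), (5, 14, 16), (5, 15, 16), (6, 7, 17), (6, 15, 17)]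
    fin := [0, 0, 2, 0, 0, 0, 0, 0, 8, 2, 10, 11, 2, 0, 14, 15, 16, 17]
    chd := [(0, 15), (0, 16)]
    steps := [(0, 1), (0, 3), (0, 4), (0, 5), (0, 6), (0, 7), (0, 13), (2, 9), (2, 12)] }
  rep := [0, 2, 14, 15, 16, 8, 10, 11, 17]

noncomputable def v1783 : Cov.CovD where
  P := 3
  N := 6
  pl := [1, 3, 4, 7, 10]
  lev := [⟨[], [], [], [], [(0, 0, [3, 4])]⟩,
    ⟨[], [(0, 0), (0, 1)], [(0, 1)], [5], [(0, 0, [3, 4]), (2, 1, [])]⟩,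
    ⟨[(0, 1)], [(0, 0), (0, 1), (1, 0), (1, 1)], [(1, 1)], [6, 7], [(2, 1, []), (5, 1,
      [])]⟩,
    ⟨[(0, 1), (0, 2), (1, 2)], [(0, 0), (0, 1), (1, 0), (2, 0), (2, 1)], [(0, 0), (0, 1)],
      [], [(0, 0, [3, 4]), (5, 1, []), (6, 0, [3, 4])]⟩,
    ⟨[(0, 3), (2, 3)], [(0, 0), (1, 0), (3, 0), (3, 1), (3, 3)], [(0, 0), (0, 3)], [2],
      [(0, 0, [3, 4]), (6, 0, [3, 4]), (8, 3, [0])]⟩,
    ⟨[(3, 4)], [(4, 0), (4, 3), (4, 4)], [(3, 4)], [2], [(8, 3, [0]), (9, 4, [0])]⟩,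
    ⟨[(3, 4), (4, 5)], [(0, 0), (1, 0), (3, 0), (4, 0), (4, 3), (5, 3)], [(0, 3)], [8],
      [(0, 0, [3, 4]), (8, 3, [0])]⟩]
  Ta := [((0, 1), 0, 5), ((0, 10), 0, 8), ((2, 1), 1, 5), ((2, 3), 1, 6), ((5, 4), 1, 7), ((5,
    6), 1, 0), ((6, 5), 0, 1), ((6, 7), 0, 2)]
  Tb := [((0, 1, 10), 0, 5, 8), ((1, 0, 2), 5, 0, 1), ((2, 1, 3), 1, 5, 6), ((3, 2, 4), 6, 1, 7),
    ((4, 3, 5), 7, 6, 1), ((5, 4, 6), 1, 7, 0), ((6, 5, 7), 0, 1, 2), ((7, 6, 9), 2, 0, 4),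
    ((8, 9, 10), 3, 4, 8), ((9, 7, 8), 4, 2, 3), ((10, 0, 8), 8, 0, 3)]
  Tc := [(0, 3, 4)]
  Td := [((0, 3), (0, 1), 5), ((0, 3), (0, 10), 8), ((0, 3), (6, 5), 1), ((0, 3), (6, 7), 2),
    ((0, 4), (0, 1), 5), ((0, 4), (0, 10), 8), ((0, 4), (6, 5), 1), ((0, 4), (6, 7), 2), ((3,
    0), (8, 9), 4), ((3, 0), (8, 10), 8), ((4, 0), (9, 7), 2), ((4, 0), (9, 8), 3)]
  G := [[0, 0, 0, 0xa161c244a161c2a161c2614a18cda161c2a161c29cc,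
    0xc161a4612c18ac161a4d4c161a4c161a4c161a4d8a], [0, 0, 0, 0xa18442614a18c6148614a18cd2c,
    0xc161a4c161a4c161a4d28], [0, 0,
    0x11c116a414126188c11c11a68d11c11a6811c11a6814126188cdc2,
    0xa111c211161c21a161c2614a18ccd8, 0x1161a81c111a41c161a4c161a4cd2], [0,
    0x1111c21111c81111c8e1111c21111c81111c8ea4, 0x11c116a411c11a6811c116a4d28,
    0xa111c4114a18c9131c4d28, 0x1161a411b1a8c161a4d24]]

noncomputable def n1783 : Ent := ⟨e1783, noF, [], [], [(8, 17, [6903326391201334775872065844685381424292761054348340378595029936975873, 0]), (9, 16, [7334685537875745012586738086077695515070955365108989538292687700967425, 0]), (10, 16, [7334685537875745012586738086077695515070955365108989538292687700971521, 0]), (11, 16, [7334685537875745012586738086077695515070955365108989538292687700975617, 0])]⟩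

def c1783 : PLift (Cov.check n1783.C.D v1783 = true) := ⟨by decide +kernel⟩

def b1783 : PLift (entF (fidx ts) 400 1783 n1783 = true) := ⟨by decide +kernel⟩

theorem g1783 : GoodF (fidx ts) 400 1783 := GoodF.ofV v1783 n1783 c1783.down b1783.down

/-- 4845684:1538/1 -/
noncomputable def e1784 : SCfg where
  D := {
    a := 7
    L := 10
    kp := 7
    inn := [(0, 1), (0, 3), (0, 4), (0, 5), (1, 0), (1, 2), (1, 3), (1, 4), (2, 1), (3, 0), (3, 1), (3,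
      5), (4, 0), (4, 1), (4, 5), (5, 0), (5, 3), (5, 4), (5, 6), (6, 5)]
    mix := [(1, 0), (1, 1), (1, 2), (1, 3), (2, 0), (2, 1), (2, 4), (3, 0), (3, 5), (4, 3), (4, 6), (4,
      7), (5, 5), (5, 7), (5, 8), (5, 9), (6, 4), (6, 8), (6, 9)]
    cl := [0, 2, 0, 4, 1, 3, 7, 3, 5, 6]
    chq := [(0, 7), (1, 3), (3, 1), (7, 0)]
    rng := [(0, 4), (0, 5), (1, 2), (1, 4), (2, 1), (2, 3), (3, 2), (3, 6), (4, 0), (4, 1), (4, 8), (4,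
      9), (5, 0), (5, 9), (6, 3), (6, 7), (7, 6), (7, 8), (8, 4), (8, 7), (9, 4), (9, 5)]
    lev := [] }
  links := [[1, 4, 5, 3], [4, 0, 3, 7, 2, 8, 9, 10], [8, 1, 7, 11], [7, 1, 0, 5, 12], [5, 0, 1, 10, 13,
    14], [12, 3, 0, 4, 14, 15, 6, 16], [16, 5, 15, 11]]
  P := {
    a := 7
    N := 17
    nb := [58, 1949, 2434, 4259, 25635, 118873, 100384, 6158, 2566, 1282, 8722, 98756, 65704, 17424,
      41008, 18528, 6240]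
    tri := [(0, 1, 3), (0, 1, 4), (0, 3, 5), (0, 4, 5), (1, 2, 7), (1, 2, 8), (1, 3, 7), (1, 4, 10),
      (1, 8, 9), (1, 9, 10), (2, 7, 11), (2, 8, 11), (3, 5, 12), (3, 7, 12), (4, 5, 14), (4, 10,
      13), (4, 13, 14), (5, 6, 15), (5, 6, 16), (5, 12, 16), (5, 14, 15), (6, 11, 15), (6, 11,
      16)]
    fin := [0, 0, 0, 0, 0, 5, 6, 0, 8, 0, 10, 6, 5, 13, 5, 15, 16]
    chd := [(0, 13), (6, 5)]
    steps := [(0, 1), (0, 2), (0, 3), (0, 4), (0, 7), (0, 9), (5, 14), (5, 12), (6, 11)] }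
  rep := [0, 6, 8, 5, 10, 15, 16, 13]

noncomputable def v1784 : Cov.CovD where
  P := 3
  N := 5
  pl := [1, 3, 8, 9]
  lev := [⟨[], [], [], [], []⟩,
    ⟨[], [(0, 0)], [(0, 0)], [2, 4], [(0, 0, [7]), (2, 0, [7])]⟩,
    ⟨[(0, 1)], [(1, 0), (1, 1)], [(0, 1)], [2], [(0, 0, [7]), (4, 1, [3])]⟩,
    ⟨[(0, 1), (1, 2)], [(0, 0), (0, 3), (1, 0), (1, 3), (2, 0)], [(0, 3)], [], [(0, 0,
      [7]), (5, 3, [1])]⟩,
    ⟨[(0, 1), (0, 3), (1, 2), (1, 3)], [(0, 3), (0, 7), (1, 0), (1, 3), (1, 7)], [(3, 7)],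
      [4], [(6, 7, [0]), (7, 3, [1])]⟩,
    ⟨[(0, 1), (0, 3), (0, 4), (1, 3), (1, 4), (3, 4)], [(0, 3), (3, 0), (3, 3), (4, 3), (4,
      7)], [(3, 3)], [5, 6], [(5, 3, [1]), (7, 3, [1])]⟩,
    ⟨[(0, 5), (3, 5), (4, 5)], [(2, 1), (5, 1), (5, 3)], [], [5, 6], [(4, 1, [3])]⟩]
  Ta := [((0, 4), 0, 1), ((0, 5), 0, 3), ((2, 1), 0, 2), ((2, 3), 0, 4), ((5, 0), 3, 0), ((5, 9),
    3, 6), ((7, 6), 3, 7), ((7, 8), 3, 5)]
  Tb := [((0, 4, 5), 0, 1, 3), ((1, 2, 4), 2, 0, 1), ((2, 1, 3), 0, 2, 4), ((3, 2, 6), 4, 0, 7),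
    ((4, 0, 1), 1, 0, 2), ((4, 0, 8), 1, 0, 5), ((4, 0, 9), 1, 0, 6), ((4, 1, 8), 1, 2, 5),
    ((4, 1, 9), 1, 2, 6), ((4, 8, 9), 1, 5, 6), ((5, 0, 9), 3, 0, 6), ((6, 3, 7), 7, 4, 3),
    ((7, 6, 8), 3, 7, 5), ((8, 4, 7), 5, 1, 3), ((9, 4, 5), 6, 1, 3)]
  Tc := []
  Td := [((0, 7), (0, 4), 1), ((0, 7), (0, 5), 3), ((0, 7), (2, 1), 2), ((0, 7), (2, 3), 4), ((1,
    3), (4, 0), 0), ((1, 3), (4, 1), 2), ((1, 3), (4, 8), 5), ((1, 3), (4, 9), 6), ((3, 1),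
    (5, 0), 0), ((3, 1), (5, 9), 6), ((3, 1), (7, 6), 7), ((3, 1), (7, 8), 5), ((7, 0), (6,
    3), 4), ((7, 0), (6, 7), 3)]
  G := [[0, 0xe12e1168e11e11a8c4, 0, 0xd2124d2128c4, 0x11421c134329af1419445e8a118bdef3288c],
    [0, 0xe1144e1184c2, 0, 0xd2144d2184c2, 0x118adef521182911117ad6f788a4], [0, 0,
    0x4de71241164dcf324c881142c, 0xd2d2514d2d2918c2,
    0x822c13415e1761118a35815452178a88849e5182884c918aa], [0, 0, 0x4de712464def124c881482a,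
    0xd2d2314d2d2d2d28c8, 0x8ace21811116adef7488a1a8c684de51c1311c1d4986]]

noncomputable def n1784 : Ent := ⟨e1784, noF, [], [], []⟩

def c1784 : PLift (Cov.check n1784.C.D v1784 = true) := ⟨by decide +kernel⟩

def b1784 : PLift (entF (fidx ts) 400 1784 n1784 = true) := ⟨by decide +kernel⟩

theorem g1784 : GoodF (fidx ts) 400 1784 := GoodF.ofV v1784 n1784 c1784.down b1784.down

/-- 4845684:1538/2 -/
noncomputable def e1785 : SCfg where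
  D := {
    a := 7
    L := 10
    kp := 7
    inn := [(0, 1), (0, 3), (0, 4), (0, 5), (1, 0), (1, 2), (1, 3), (1, 4), (2, 1), (3, 0), (3, 1), (3,
      5), (4, 0), (4, 1), (4, 5), (5, 0), (5, 3), (5, 4), (5, 6), (6, 5)]
    mix := [(1, 0), (1, 1), (1, 2), (1, 3), (2, 0), (2, 1), (2, 4), (3, 0), (3, 5), (4, 3), (4, 6), (4,
      7), (5, 5), (5, 7), (5, 8), (5, 9), (6, 1), (6, 8), (6, 9)]
    cl := [0, 1, 0, 2, 7, 3, 6, 3, 4, 5]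
    chq := [(0, 6), (1, 3), (3, 1), (6, 0)]
    rng := [(0, 4), (0, 5), (1, 2), (1, 4), (1, 8), (1, 9), (2, 1), (2, 3), (3, 2), (3, 6), (4, 0), (4,
      1), (5, 0), (5, 9), (6, 3), (6, 7), (7, 6), (7, 8), (8, 1), (8, 7), (9, 1), (9, 5)]
    lev := [] }
  links := [[1, 4, 5, 3], [4, 0, 3, 7, 2, 8, 9, 10], [8, 1, 7, 11], [7, 1, 0, 5, 12], [5, 0, 1, 10, 13,
    14], [12, 3, 0, 4, 14, 15, 6, 16], [16, 5, 15, 8]]
  P := {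
    a := 7
    N := 17
    nb := [58, 1949, 2434, 4259, 25635, 118873, 98592, 6158, 100934, 1282, 8722, 388, 65704, 17424,
      41008, 16736, 4448]
    tri := [(0, 1, 3), (0, 1, 4), (0, 3, 5), (0, 4, 5), (1, 2, 7), (1, 2, 8), (1, 3, 7), (1, 4, 10),
      (1, 8, 9), (1, 9, 10), (2, 7, 11), (2, 8, 11), (3, 5, 12), (3, 7, 12), (4, 5, 14), (4, 10,
      13), (4, 13, 14), (5, 6, 15), (5, 6, 16), (5, 12, 16), (5, 14, 15), (6, 8, 15), (6, 8, 16)]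
    fin := [0, 0, 0, 0, 0, 5, 6, 0, 6, 0, 10, 11, 5, 13, 5, 15, 16]
    chd := [(0, 13), (6, 5)]
    steps := [(0, 1), (0, 2), (0, 3), (0, 4), (0, 7), (0, 9), (5, 14), (5, 12), (6, 8)] }
  rep := [0, 6, 10, 5, 15, 16, 13, 11]

noncomputable def v1785 : Cov.CovD where
  P := 3
  N := 5
  pl := [3, 4, 8, 9]
  lev := [⟨[], [], [], [], []⟩,
    ⟨[], [(0, 0), (0, 1)], [(0, 0), (0, 1)], [2], [(0, 0, [6]), (1, 1, [3]), (2, 0, [6])]⟩,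
    ⟨[(0, 1)], [(1, 0), (1, 1)], [(0, 1)], [7], [(0, 0, [6]), (1, 1, [3])]⟩,
    ⟨[(0, 1), (1, 2)], [(0, 0), (0, 3), (1, 0), (1, 1), (1, 3), (2, 0)], [(0, 3)], [], [(0,
      0, [6]), (5, 3, [1])]⟩,
    ⟨[(0, 1), (0, 3), (1, 2), (1, 3)], [(0, 3), (0, 6), (1, 0), (1, 1), (1, 3), (1, 6)],
      [(3, 6)], [2], [(6, 6, [0]), (7, 3, [1])]⟩,
    ⟨[(0, 1), (0, 3), (0, 4), (1, 3), (1, 4), (3, 4)], [(0, 3), (3, 0), (3, 3), (4, 3), (4,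
      6)], [(3, 3)], [4, 5], [(5, 3, [1]), (7, 3, [1])]⟩,
    ⟨[(0, 5), (3, 5), (4, 5)], [(1, 1), (2, 1), (5, 1), (5, 3)], [], [4, 5], [(1, 1, [3])]⟩]
  Ta := [((0, 4), 0, 7), ((0, 5), 0, 3), ((2, 1), 0, 1), ((2, 3), 0, 2), ((5, 0), 3, 0), ((5, 9),
    3, 5), ((7, 6), 3, 6), ((7, 8), 3, 4)]
  Tb := [((0, 4, 5), 0, 7, 3), ((1, 2, 4), 1, 0, 7), ((1, 2, 8), 1, 0, 4), ((1, 2, 9), 1, 0, 5),
    ((1, 4, 8), 1, 7, 4), ((1, 4, 9), 1, 7, 5), ((1, 8, 9), 1, 4, 5), ((2, 1, 3), 0, 1, 2),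
    ((3, 2, 6), 2, 0, 6), ((4, 0, 1), 7, 0, 1), ((5, 0, 9), 3, 0, 5), ((6, 3, 7), 6, 2, 3),
    ((7, 6, 8), 3, 6, 4), ((8, 1, 7), 4, 1, 3), ((9, 1, 5), 5, 1, 3)]
  Tc := []
  Td := [((0, 6), (0, 4), 7), ((0, 6), (0, 5), 3), ((0, 6), (2, 1), 1), ((0, 6), (2, 3), 2), ((1,
    3), (1, 2), 0), ((1, 3), (1, 4), 7), ((1, 3), (1, 8), 4), ((1, 3), (1, 9), 5), ((3, 1),
    (5, 0), 0), ((3, 1), (5, 9), 5), ((3, 1), (7, 6), 6), ((3, 1), (7, 8), 4), ((6, 0), (6,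
    3), 2), ((6, 0), (6, 7), 3)]
  G := [[0, 0, 0, 0x8bdef128bdef12c11821c4, 0x114d63248118bdcf328c912c8c], [0, 0, 0,
    0x111164dcfd28411118adcfd248c, 0x118adcf3221588dcf32c84], [0, 0xe11e11ce11e11ac48,
    0x846446218481b819a214c, 0x1142164daf121c8, 0x118adcf32184], [0, 0xe114e114a82,
    0x8c17446218c136c1ba488a14c, 0x111164dcfd8142, 0x118adcf32184]]

noncomputable def n1785 : Ent := ⟨e1785, noF, [], [], []⟩

def c1785 : PLift (Cov.check n1785.C.D v1785 = true) := ⟨by decide +kernel⟩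

def b1785 : PLift (entF (fidx ts) 400 1785 n1785 = true) := ⟨by decide +kernel⟩

theorem g1785 : GoodF (fidx ts) 400 1785 := GoodF.ofV v1785 n1785 c1785.down b1785.down

/-- 4845684:1538/3 -/
noncomputable def e1786 : SCfg where
  D := {
    a := 7
    L := 10
    kp := 7
    inn := [(0, 1), (0, 3), (0, 4), (0, 5), (1, 0), (1, 2), (1, 3), (1, 4), (2, 1), (3, 0), (3, 1), (3,
      5), (4, 0), (4, 1), (4, 5), (5, 0), (5, 3), (5, 4), (5, 6), (6, 5)]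
    mix := [(1, 0), (1, 1), (1, 2), (1, 3), (2, 0), (2, 1), (2, 4), (3, 0), (3, 5), (4, 3), (4, 6), (4,
      7), (5, 5), (5, 7), (5, 8), (5, 9), (6, 2), (6, 8), (6, 9)]
    cl := [0, 1, 0, 2, 7, 4, 6, 3, 5, 3]
    chq := [(0, 6), (4, 6), (6, 0), (6, 4)]
    rng := [(0, 4), (0, 5), (1, 2), (1, 4), (2, 1), (2, 3), (2, 8), (2, 9), (3, 2), (3, 6), (4, 0), (4,
      1), (5, 0), (5, 9), (6, 3), (6, 7), (7, 6), (7, 8), (8, 2), (8, 7), (9, 2), (9, 5)]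
    lev := [] }
  links := [[1, 4, 5, 3], [4, 0, 3, 7, 2, 8, 9, 10], [8, 1, 7, 11], [7, 1, 0, 5, 12], [5, 0, 1, 10, 13,
    14], [12, 3, 0, 4, 14, 15, 6, 16], [16, 5, 15, 9]]
  P := {
    a := 7
    N := 17
    nb := [58, 1949, 2434, 4259, 25635, 118873, 98848, 6158, 2566, 99650, 8722, 388, 65704, 17424,
      41008, 16992, 4704]
    tri := [(0, 1, 3), (0, 1, 4), (0, 3, 5), (0, 4, 5), (1, 2, 7), (1, 2, 8), (1, 3, 7), (1, 4, 10),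
      (1, 8, 9), (1, 9, 10), (2, 7, 11), (2, 8, 11), (3, 5, 12), (3, 7, 12), (4, 5, 14), (4, 10,
      13), (4, 13, 14), (5, 6, 15), (5, 6, 16), (5, 12, 16), (5, 14, 15), (6, 9, 15), (6, 9, 16)]
    fin := [0, 1, 1, 0, 0, 5, 1, 1, 8, 1, 10, 11, 12, 0, 5, 15, 5]
    chd := [(1, 0), (12, 0)]
    steps := [(0, 3), (0, 4), (0, 13), (1, 2), (1, 7), (1, 9), (1, 6), (5, 14), (5, 16)] }
  rep := [1, 8, 10, 5, 12, 15, 0, 11]

noncomputable def v1786 : Cov.CovD where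
  P := 3
  N := 5
  pl := [1, 3, 4, 8]
  lev := [⟨[], [], [], [], []⟩,
    ⟨[], [(0, 0)], [(0, 0)], [1, 2], [(0, 0, [6]), (2, 0, [6])]⟩,
    ⟨[(0, 1)], [(1, 0)], [], [1, 7], [(0, 0, [6])]⟩,
    ⟨[(0, 1), (1, 2)], [(0, 0), (0, 4), (1, 0), (1, 4), (2, 0)], [(0, 4)], [], [(0, 0,
      [6]), (5, 4, [6])]⟩,
    ⟨[(0, 1), (0, 3), (1, 2), (1, 3)], [(0, 3), (0, 6), (1, 0), (1, 3), (1, 6)], [(3, 6)],
      [2], [(6, 6, [0, 4]), (7, 3, [])]⟩,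
    ⟨[(0, 1), (0, 3), (0, 4), (1, 3), (1, 4), (3, 4)], [(0, 3), (0, 4), (3, 0), (3, 3), (3,
      4), (4, 3), (4, 4), (4, 6)], [(3, 3), (3, 4)], [5], [(5, 4, [6]), (7, 3, []), (9, 3,
      [])]⟩,
    ⟨[(0, 5), (3, 5), (4, 5)], [(1, 0), (5, 0), (5, 3), (5, 4)], [(0, 3)], [5], [(2, 0,
      [6]), (9, 3, [])]⟩]
  Ta := [((0, 4), 0, 7), ((0, 5), 0, 4), ((2, 1), 0, 1), ((2, 3), 0, 2), ((2, 8), 0, 5), ((2, 9),
    0, 3), ((7, 6), 3, 6), ((7, 8), 3, 5), ((9, 2), 3, 0), ((9, 5), 3, 4)]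
  Tb := [((0, 4, 5), 0, 7, 4), ((1, 2, 4), 1, 0, 7), ((2, 1, 3), 0, 1, 2), ((2, 1, 8), 0, 1, 5),
    ((2, 1, 9), 0, 1, 3), ((2, 3, 8), 0, 2, 5), ((2, 3, 9), 0, 2, 3), ((2, 8, 9), 0, 5, 3),
    ((3, 2, 6), 2, 0, 6), ((4, 0, 1), 7, 0, 1), ((5, 0, 9), 4, 0, 3), ((6, 3, 7), 6, 2, 3),
    ((7, 6, 8), 3, 6, 5), ((8, 2, 7), 5, 0, 3), ((9, 2, 5), 3, 0, 4)]
  Tc := [(6, 0, 4)]
  Td := [((0, 6), (0, 4), 7), ((0, 6), (0, 5), 4), ((0, 6), (2, 1), 1), ((0, 6), (2, 3), 2), ((0,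
    6), (2, 8), 5), ((0, 6), (2, 9), 3), ((4, 6), (5, 0), 0), ((4, 6), (5, 9), 3), ((6, 0),
    (6, 3), 2), ((6, 0), (6, 7), 3), ((6, 4), (6, 3), 2), ((6, 4), (6, 7), 3)]
  G := [[0, 0, 0, 0x11a711691c6111418f1aa14c18cd48, 0x116711c916c111118f1ca12a18ad82], [0, 0, 0,
    0xa111a7561185621811af5e146c82, 0xe1241111cf36e128118911c71ec84], [0, 0xc114c112a118e42,
    0xc1261c1ca141, 0x814469214418122add814a, 0x2c5248161288af9e184], [0, 0xe114e112e118e42,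
    0xe12e18a141, 0x2122541844618a918e9445e18a, 0x822e11822e11e12418c536d84]]

noncomputable def n1786 : Ent := ⟨e1786, noF, [], [], []⟩

def c1786 : PLift (Cov.check n1786.C.D v1786 = true) := ⟨by decide +kernel⟩

def b1786 : PLift (entF (fidx ts) 400 1786 n1786 = true) := ⟨by decide +kernel⟩

theorem g1786 : GoodF (fidx ts) 400 1786 := GoodF.ofV v1786 n1786 c1786.down b1786.down

/-- 4845684:1538 -/
noncomputable def e1787 : SCfg where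
  D := {
    a := 7
    L := 11
    kp := 8
    inn := [(0, 1), (0, 3), (0, 4), (0, 5), (1, 0), (1, 2), (1, 3), (1, 4), (2, 1), (3, 0), (3, 1), (3,
      5), (4, 0), (4, 1), (4, 5), (5, 0), (5, 3), (5, 4), (5, 6), (6, 5)]
    mix := [(1, 0), (1, 1), (1, 2), (1, 3), (2, 0), (2, 1), (2, 4), (3, 0), (3, 5), (4, 3), (4, 6), (4,
      7), (5, 5), (5, 7), (5, 8), (5, 9), (6, 8), (6, 9), (6, 10)]
    cl := [0, 1, 0, 2, 8, 3, 6, 3, 4, 5, 7]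
    chq := [(0, 6), (3, 7), (6, 0), (7, 3)]
    rng := [(0, 4), (0, 5), (1, 2), (1, 4), (2, 1), (2, 3), (3, 2), (3, 6), (4, 0), (4, 1), (5, 0), (5,
      9), (6, 3), (6, 7), (7, 6), (7, 8), (8, 7), (8, 10), (9, 5), (9, 10), (10, 8), (10, 9)]
    lev := [] }
  links := [[1, 4, 5, 3], [4, 0, 3, 7, 2, 8, 9, 10], [8, 1, 7, 11], [7, 1, 0, 5, 12], [5, 0, 1, 10, 13,
    14], [12, 3, 0, 4, 14, 15, 6, 16], [16, 5, 15, 17]]
  P := {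
    a := 7
    N := 18
    nb := [58, 1949, 2434, 4259, 25635, 118873, 229408, 6158, 2566, 1282, 8722, 388, 65704, 17424,
      41008, 147552, 135264, 98368]
    tri := [(0, 1, 3), (0, 1, 4), (0, 3, 5), (0, 4, 5), (1, 2, 7), (1, 2, 8), (1, 3, 7), (1, 4, 10),
      (1, 8, 9), (1, 9, 10), (2, 7, 11), (2, 8, 11), (3, 5, 12), (3, 7, 12), (4, 5, 14), (4, 10,
      13), (4, 13, 14), (5, 6, 15), (5, 6, 16), (5, 12, 16), (5, 14, 15), (6, 15, 17), (6, 16,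
      17)]
    fin := [0, 0, 0, 0, 0, 5, 5, 0, 8, 0, 10, 11, 5, 13, 5, 15, 16, 17]
    chd := [(0, 13), (5, 17)]
    steps := [(0, 1), (0, 2), (0, 3), (0, 4), (0, 7), (0, 9), (5, 6), (5, 14), (5, 12)] }
  rep := [0, 8, 10, 5, 15, 16, 13, 17, 11]

noncomputable def v1787 : Cov.CovD where
  P := 3
  N := 6
  pl := [1, 3, 4, 8, 9]
  lev := [⟨[], [], [], [], []⟩,
    ⟨[], [(0, 0)], [(0, 0)], [1, 2], [(0, 0, [6]), (2, 0, [6])]⟩,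
    ⟨[(0, 1)], [(1, 0)], [], [1, 8], [(0, 0, [6])]⟩,
    ⟨[(0, 1), (1, 2)], [(0, 0), (0, 3), (1, 0), (1, 3), (2, 0)], [(0, 3)], [], [(0, 0,
      [6]), (5, 3, [7])]⟩,
    ⟨[(0, 1), (0, 3), (1, 2), (1, 3)], [(0, 3), (0, 6), (1, 0), (1, 3), (1, 6)], [(3, 6)],
      [2], [(6, 6, [0]), (7, 3, [7])]⟩,
    ⟨[(0, 1), (0, 3), (0, 4), (1, 3), (1, 4), (3, 4)], [(0, 3), (3, 0), (3, 3), (4, 3), (4,
      6)], [(3, 3)], [4, 5], [(5, 3, [7]), (7, 3, [7])]⟩,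
    ⟨[(0, 5), (3, 5), (4, 5)], [(5, 3), (5, 7)], [], [4, 5], [(10, 7, [3])]⟩]
  Ta := [((0, 4), 0, 8), ((0, 5), 0, 3), ((2, 1), 0, 1), ((2, 3), 0, 2), ((5, 0), 3, 0), ((5, 9),
    3, 5), ((7, 6), 3, 6), ((7, 8), 3, 4)]
  Tb := [((0, 4, 5), 0, 8, 3), ((1, 2, 4), 1, 0, 8), ((2, 1, 3), 0, 1, 2), ((3, 2, 6), 2, 0, 6),
    ((4, 0, 1), 8, 0, 1), ((5, 0, 9), 3, 0, 5), ((6, 3, 7), 6, 2, 3), ((7, 6, 8), 3, 6, 4),
    ((8, 7, 10), 4, 3, 7), ((9, 5, 10), 5, 3, 7), ((10, 8, 9), 7, 4, 5)]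
  Tc := []
  Td := [((0, 6), (0, 4), 8), ((0, 6), (0, 5), 3), ((0, 6), (2, 1), 1), ((0, 6), (2, 3), 2), ((3,
    7), (5, 0), 0), ((3, 7), (5, 9), 5), ((3, 7), (7, 6), 6), ((3, 7), (7, 8), 4), ((6, 0),
    (6, 3), 2), ((6, 0), (6, 7), 3), ((7, 3), (10, 8), 4), ((7, 3), (10, 9), 5)]
  G := [[0, 0, 0, 0xbb87144466188c21bbdef5cd946b144275381c1e4c5ec8a,
    0x61f83e17deb362752e2a1c179def3ec8b414886], [0, 0, 0, 0x7bdef1487bdef18e1e1c85c2,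
    0xe1fbdef34e1fbdef346184d82], [0, 0xeace11411e11fbfe1d6871484f1848c6, 0x7bdef27bdef46181,
    0xe1b454187e91e1d29a14c, 0xa426f9261fbdef3e184], [0, 0x7bdef187bdef18642,
    0x6cfb6afd621c226cfb8a1ca4a4c2185, 0x61e1fbdefd4182, 0xe1221861fbdef9218c]]

noncomputable def n1787 : Ent := ⟨e1787, noF, [], [], [(11, 17, [6903326391201334775872065844685381424292761054348340378595029936996353, 0]), (8, 17, [6903326391201334775872065844685381424292761054348340378595029937000449, 0]), (9, 17, [6903326391201334775872065844685381424292761054348340378595029937004545, 0])]⟩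

def c1787 : PLift (Cov.check n1787.C.D v1787 = true) := ⟨by decide +kernel⟩

def b1787 : PLift (entF (fidx ts) 400 1787 n1787 = true) := ⟨by decide +kernel⟩

theorem g1787 : GoodF (fidx ts) 400 1787 := GoodF.ofV v1787 n1787 c1787.down b1787.down

/-- 4576744:1539/1 -/
noncomputable def e1788 : SCfg where
  D := {
    a := 7
    L := 10
    kp := 7
    inn := [(0, 1), (0, 2), (1, 0), (1, 2), (1, 4), (2, 0), (2, 1), (2, 3), (2, 4), (3, 2), (3, 6), (4,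
      1), (4, 2), (4, 5), (5, 4), (6, 3)]
    mix := [(0, 0), (0, 1), (1, 1), (1, 2), (2, 0), (2, 3), (2, 4), (3, 0), (3, 4), (3, 5), (3, 6), (4,
      2), (4, 3), (4, 7), (4, 8), (5, 2), (5, 7), (5, 9), (6, 4), (6, 5), (6, 9)]
    cl := [0, 2, 1, 1, 0, 3, 6, 4, 7, 5]
    chq := [(0, 3), (1, 4), (3, 0), (4, 1)]
    rng := [(0, 1), (0, 6), (1, 0), (1, 2), (2, 1), (2, 9), (3, 4), (3, 8), (4, 3), (4, 9), (5, 6), (5,
      9), (6, 0), (6, 5), (7, 8), (7, 9), (8, 3), (8, 7), (9, 2), (9, 4), (9, 5), (9, 7)]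
    lev := [] }
  links := [[1, 2, 7, 8], [2, 0, 8, 9, 4], [7, 0, 1, 4, 10, 11, 3], [7, 2, 11, 6, 12, 13], [10, 2, 1, 9,
    5, 14, 15], [14, 4, 9, 16], [12, 3, 11, 16]]
  P := {
    a := 7
    N := 17
    nb := [390, 789, 3227, 14532, 50726, 82448, 71688, 8461, 643, 65842, 34836, 66636, 73800, 4232,
      98352, 17424, 23136]
    tri := [(0, 1, 2), (0, 1, 8), (0, 2, 7), (0, 7, 8), (1, 2, 4), (1, 4, 9), (1, 8, 9), (2, 3, 7), (2,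
      3, 11), (2, 4, 10), (2, 10, 11), (3, 6, 11), (3, 6, 12), (3, 7, 13), (3, 12, 13), (4, 5, 9),
      (4, 5, 14), (4, 10, 15), (4, 14, 15), (5, 9, 16), (5, 14, 16), (6, 11, 16), (6, 12, 16)]
    fin := [0, 0, 0, 0, 4, 4, 0, 0, 8, 4, 4, 0, 12, 13, 14, 15, 16]
    chd := [(0, 12), (4, 14)]
    steps := [(0, 1), (0, 2), (0, 3), (0, 6), (0, 7), (0, 11), (4, 5), (4, 9), (4, 10)] }
  rep := [0, 4, 8, 12, 14, 16, 13, 15]

noncomputable def v1788 : Cov.CovD where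
  P := 3
  N := 5
  pl := [1, 6, 8, 9]
  lev := [⟨[], [], [], [2], [(0, 0, [3])]⟩,
    ⟨[], [(0, 0), (0, 1)], [], [2], [(2, 1, [4])]⟩,
    ⟨[(0, 1)], [(0, 0), (0, 1), (1, 0), (1, 1)], [(0, 0), (0, 1)], [], [(0, 0, [3]), (3, 1,
      [4]), (4, 0, [3])]⟩,
    ⟨[(0, 2), (1, 2)], [(0, 0), (2, 0), (2, 1), (2, 3)], [(0, 0), (0, 3)], [6], [(0, 0,
      [3]), (4, 0, [3]), (5, 3, [0])]⟩,
    ⟨[(0, 1), (0, 2), (1, 2), (2, 3)], [(1, 1), (1, 4), (2, 0), (2, 1), (2, 4)], [(1, 1),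
      (1, 4)], [7], [(2, 1, [4]), (3, 1, [4]), (7, 4, [1])]⟩,
    ⟨[(1, 4), (2, 4)], [(1, 1), (4, 1), (4, 4)], [(1, 4)], [5], [(2, 1, [4]), (7, 4, [1])]⟩,
    ⟨[(2, 3)], [(2, 0), (3, 0), (3, 3)], [(0, 3)], [5], [(4, 0, [3]), (5, 3, [0])]⟩]
  Ta := [((0, 1), 0, 2), ((0, 6), 0, 6), ((2, 1), 1, 2), ((2, 9), 1, 5), ((3, 4), 1, 0), ((3, 8),
    1, 7), ((4, 3), 0, 1), ((4, 9), 0, 5)]
  Tb := [((0, 1, 6), 0, 2, 6), ((1, 0, 2), 2, 0, 1), ((2, 1, 9), 1, 2, 5), ((3, 4, 8), 1, 0, 7),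
    ((4, 3, 9), 0, 1, 5), ((5, 6, 9), 3, 6, 5), ((6, 0, 5), 6, 0, 3), ((7, 8, 9), 4, 7, 5),
    ((8, 3, 7), 7, 1, 4), ((9, 2, 4), 5, 1, 0), ((9, 2, 5), 5, 1, 3), ((9, 2, 7), 5, 1, 4),
    ((9, 4, 5), 5, 0, 3), ((9, 4, 7), 5, 0, 4), ((9, 5, 7), 5, 3, 4)]
  Tc := []
  Td := [((0, 3), (0, 1), 2), ((0, 3), (0, 6), 6), ((0, 3), (4, 3), 1), ((0, 3), (4, 9), 5), ((1,
    4), (2, 1), 2), ((1, 4), (2, 9), 5), ((1, 4), (3, 4), 0), ((1, 4), (3, 8), 7), ((3, 0),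
    (5, 6), 6), ((3, 0), (5, 9), 5), ((4, 1), (7, 8), 7), ((4, 1), (7, 9), 5)]
  G := [[0, 0, 0x111d4111d46811d48a111192111d119111d119cac12c82446,
    0x111311211e8225222dc22882811d818dc144d141dcce54,
    0x111d315252d51569118c5448853d889c111d8922d8ec92], [0, 0,
    0x1131151232156881131211d128128e486, 0, 0x31311541331231d3282222321dec82], [0, 0, 0,
    0xa144ed5229222d56866d88ed9222d8ac2442868d4a44da4ccca58,
    0xe22d2296ccd2866d868d88cda44d8c61a4ad44ed5e4a156e118c89], [0,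
    0xe1e1626182e1e1e1ee14a5e1e818ee81, 0, 0, 0xa4aeaa4b54ea38e4b6e6d222722222bdace284892]]

noncomputable def n1788 : Ent := ⟨e1788, noF, [], [], []⟩

def c1788 : PLift (Cov.check n1788.C.D v1788 = true) := ⟨by decide +kernel⟩

def b1788 : PLift (entF (fidx ts) 400 1788 n1788 = true) := ⟨by decide +kernel⟩

theorem g1788 : GoodF (fidx ts) 400 1788 := GoodF.ofV v1788 n1788 c1788.down b1788.down

/-- 4576744:1539/2 -/
noncomputable def e1789 : SCfg where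
  D := {
    a := 7
    L := 10
    kp := 7
    inn := [(0, 1), (0, 2), (1, 0), (1, 2), (1, 4), (2, 0), (2, 1), (2, 3), (2, 4), (3, 2), (3, 6), (4,
      1), (4, 2), (4, 5), (5, 4), (6, 3)]
    mix := [(0, 0), (0, 1), (1, 1), (1, 2), (2, 0), (2, 3), (2, 4), (3, 0), (3, 4), (3, 5), (3, 6), (4,
      2), (4, 3), (4, 7), (4, 8), (5, 2), (5, 5), (5, 7), (6, 4), (6, 5), (6, 9)]
    cl := [0, 2, 1, 1, 0, 3, 5, 4, 6, 7]
    chq := [(0, 3), (1, 4), (3, 0), (4, 1)]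
    rng := [(0, 1), (0, 6), (1, 0), (1, 2), (2, 1), (2, 5), (3, 4), (3, 8), (4, 3), (4, 9), (5, 2), (5,
      6), (5, 7), (5, 9), (6, 0), (6, 5), (7, 5), (7, 8), (8, 3), (8, 7), (9, 4), (9, 5)]
    lev := [] }
  links := [[1, 2, 7, 8], [2, 0, 8, 9, 4], [7, 0, 1, 4, 10, 11, 3], [7, 2, 11, 6, 12, 13], [10, 2, 1, 9,
    5, 14, 15], [14, 4, 9, 12], [12, 3, 11, 16]]
  P := {
    a := 7
    N := 17
    nb := [390, 789, 3227, 14532, 50726, 21008, 71688, 8461, 643, 4402, 34836, 66636, 90728, 4232,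
      36912, 17424, 6208]
    tri := [(0, 1, 2), (0, 1, 8), (0, 2, 7), (0, 7, 8), (1, 2, 4), (1, 4, 9), (1, 8, 9), (2, 3, 7), (2,
      3, 11), (2, 4, 10), (2, 10, 11), (3, 6, 11), (3, 6, 12), (3, 7, 13), (3, 12, 13), (4, 5, 9),
      (4, 5, 14), (4, 10, 15), (4, 14, 15), (5, 9, 12), (5, 12, 14), (6, 11, 16), (6, 12, 16)]
    fin := [0, 0, 0, 0, 4, 4, 0, 0, 8, 4, 4, 0, 12, 13, 14, 15, 16]
    chd := [(0, 12), (4, 14)]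
    steps := [(0, 1), (0, 2), (0, 3), (0, 6), (0, 7), (0, 11), (4, 5), (4, 9), (4, 10)] }
  rep := [0, 4, 8, 12, 14, 13, 15, 16]

noncomputable def v1789 : Cov.CovD where
  P := 3
  N := 5
  pl := [1, 6, 8, 9]
  lev := [⟨[], [], [], [2], [(0, 0, [3])]⟩,
    ⟨[], [(0, 0), (0, 1)], [], [2], [(2, 1, [4])]⟩,
    ⟨[(0, 1)], [(0, 0), (0, 1), (1, 0), (1, 1)], [(0, 0), (0, 1)], [], [(0, 0, [3]), (3, 1,
      [4]), (4, 0, [3])]⟩,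
    ⟨[(0, 2), (1, 2)], [(0, 0), (2, 0), (2, 1), (2, 3)], [(0, 0), (0, 3)], [5], [(0, 0,
      [3]), (4, 0, [3]), (5, 3, [0])]⟩,
    ⟨[(0, 1), (0, 2), (1, 2), (2, 3)], [(1, 1), (1, 4), (2, 0), (2, 1), (2, 4)], [(1, 1),
      (1, 4)], [6], [(2, 1, [4]), (3, 1, [4]), (7, 4, [1])]⟩,
    ⟨[(1, 4), (2, 4)], [(1, 1), (3, 3), (4, 1), (4, 3), (4, 4)], [(1, 3), (1, 4), (3, 4)],
      [], [(2, 1, [4]), (5, 3, [0]), (7, 4, [1])]⟩,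
    ⟨[(2, 3)], [(2, 0), (3, 0), (3, 3), (5, 3)], [(0, 3)], [7], [(4, 0, [3]), (5, 3, [0])]⟩]
  Ta := [((0, 1), 0, 2), ((0, 6), 0, 5), ((2, 1), 1, 2), ((2, 5), 1, 3), ((3, 4), 1, 0), ((3, 8),
    1, 6), ((4, 3), 0, 1), ((4, 9), 0, 7)]
  Tb := [((0, 1, 6), 0, 2, 5), ((1, 0, 2), 2, 0, 1), ((2, 1, 5), 1, 2, 3), ((3, 4, 8), 1, 0, 6),
    ((4, 3, 9), 0, 1, 7), ((5, 2, 6), 3, 1, 5), ((5, 2, 7), 3, 1, 4), ((5, 2, 9), 3, 1, 7),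
    ((5, 6, 7), 3, 5, 4), ((5, 6, 9), 3, 5, 7), ((5, 7, 9), 3, 4, 7), ((6, 0, 5), 5, 0, 3),
    ((7, 5, 8), 4, 3, 6), ((8, 3, 7), 6, 1, 4), ((9, 4, 5), 7, 0, 3)]
  Tc := []
  Td := [((0, 3), (0, 1), 2), ((0, 3), (0, 6), 5), ((0, 3), (4, 3), 1), ((0, 3), (4, 9), 7), ((1,
    4), (2, 1), 2), ((1, 4), (2, 5), 3), ((1, 4), (3, 4), 0), ((1, 4), (3, 8), 6), ((3, 0),
    (5, 2), 1), ((3, 0), (5, 6), 5), ((3, 0), (5, 7), 4), ((3, 0), (5, 9), 7), ((4, 1), (7,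
    5), 3), ((4, 1), (7, 8), 6)]
  G := [[0, 0, 0x111d11521191151151411dca8188111d8a446,
    0x155c199115aa1d96a861598a1794144161d4e3882c54,
    0x1b9ca1d5a1516191e4161d42a11d8218817514cce98], [0, 0,
    0x18119113119a414115486124128124e48a, 0, 0x641254a8a93a2d1b38113133e2dec18], [0, 0, 0,
    0x644a6ad46866561966566ed96a882a8aa9a6add8ec1,
    0xa6516446a11e11acee5e4c8d4e8ee9cccda66daa9cac92], [0, 0xe1e162e182e1e1e1ee1e4e1ece81, 0,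
    0, 0x6656462d4a8aaaa2d866bee3e2dac12]]

noncomputable def n1789 : Ent := ⟨e1789, noF, [], [], []⟩

def c1789 : PLift (Cov.check n1789.C.D v1789 = true) := ⟨by decide +kernel⟩

def b1789 : PLift (entF (fidx ts) 400 1789 n1789 = true) := ⟨by decide +kernel⟩

theorem g1789 : GoodF (fidx ts) 400 1789 := GoodF.ofV v1789 n1789 c1789.down b1789.down

/-- 4576744:1539/4 -/
noncomputable def e1790 : SCfg where
  D := {
    a := 7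
    L := 9
    kp := 6
    inn := [(0, 1), (0, 2), (1, 0), (1, 2), (1, 4), (2, 0), (2, 1), (2, 3), (2, 4), (3, 2), (3, 6), (4,
      1), (4, 2), (4, 5), (5, 4), (6, 3)]
    mix := [(0, 0), (0, 1), (1, 1), (1, 2), (2, 0), (2, 3), (2, 4), (3, 0), (3, 4), (3, 5), (3, 6), (4,
      2), (4, 3), (4, 7), (4, 8), (5, 2), (5, 6), (5, 7), (6, 4), (6, 5), (6, 8)]
    cl := [0, 3, 1, 2, 0, 4, 5, 6, 1]
    chq := [(0, 4), (2, 3), (3, 2), (4, 0)]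
    rng := [(0, 1), (0, 6), (1, 0), (1, 2), (2, 1), (2, 6), (3, 4), (3, 8), (4, 3), (4, 8), (5, 6), (5,
      8), (6, 0), (6, 2), (6, 5), (6, 7), (7, 6), (7, 8), (8, 3), (8, 4), (8, 5), (8, 7)]
    lev := [] }
  links := [[1, 2, 7, 8], [2, 0, 8, 9, 4], [7, 0, 1, 4, 10, 11, 3], [7, 2, 11, 6, 12, 13], [10, 2, 1, 9,
    5, 14, 15], [14, 4, 9, 13], [12, 3, 11, 15]]
  P := {
    a := 7
    N := 16
    nb := [390, 789, 3227, 14532, 50726, 25104, 38920, 8461, 643, 8498, 34836, 33868, 41032, 21160,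
      41008, 23632]
    tri := [(0, 1, 2), (0, 1, 8), (0, 2, 7), (0, 7, 8), (1, 2, 4), (1, 4, 9), (1, 8, 9), (2, 3, 7), (2,
      3, 11), (2, 4, 10), (2, 10, 11), (3, 6, 11), (3, 6, 12), (3, 7, 13), (3, 12, 13), (4, 5, 9),
      (4, 5, 14), (4, 10, 15), (4, 14, 15), (5, 9, 13), (5, 13, 14), (6, 11, 15), (6, 12, 15)]
    fin := [0, 1, 1, 0, 4, 4, 0, 0, 1, 4, 10, 0, 12, 13, 14, 4]
    chd := [(0, 12), (1, 10)]
    steps := [(0, 7), (0, 3), (0, 6), (0, 11), (1, 2), (1, 8), (4, 5), (4, 9), (4, 15)] }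
  rep := [0, 4, 10, 1, 12, 13, 14]

noncomputable def v1790 : Cov.CovD where
  P := 3
  N := 4
  pl := [6, 7]
  lev := [⟨[], [], [(0, 3)], [], [(0, 0, [4]), (1, 3, [2])]⟩,
    ⟨[], [(0, 0), (0, 1), (0, 3)], [(1, 3)], [], [(1, 3, [2]), (2, 1, [])]⟩,
    ⟨[(0, 1)], [(0, 0), (0, 2), (0, 3), (1, 0), (1, 1), (1, 2), (1, 3)], [(0, 0), (0, 2)],
      [], [(0, 0, [4]), (3, 2, [3]), (4, 0, [4])]⟩,
    ⟨[(0, 2), (1, 2)], [(0, 0), (2, 0), (2, 2), (2, 4)], [(0, 0), (0, 4)], [5], [(0, 0,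
      [4]), (4, 0, [4]), (5, 4, [0])]⟩,
    ⟨[(0, 1), (0, 2), (1, 2), (2, 3)], [(1, 1), (1, 2), (1, 3), (2, 0), (2, 1), (2, 2)],
      [(1, 1), (1, 2)], [6], [(2, 1, []), (3, 2, [3]), (8, 1, [])]⟩,
    ⟨[(1, 4), (2, 4)], [(1, 1), (4, 1), (4, 2)], [], [5, 6], [(2, 1, [])]⟩,
    ⟨[(2, 3)], [(2, 0), (3, 0), (3, 1), (3, 4), (4, 1)], [(0, 1), (0, 4), (1, 4)], [], [(4,
      0, [4]), (5, 4, [0]), (8, 1, [])]⟩]
  Ta := [((0, 1), 0, 3), ((0, 6), 0, 5), ((2, 1), 1, 3), ((2, 6), 1, 5), ((4, 3), 0, 2), ((4, 8),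
    0, 1), ((8, 3), 1, 2), ((8, 4), 1, 0), ((8, 5), 1, 4), ((8, 7), 1, 6)]
  Tb := [((0, 1, 6), 0, 3, 5), ((1, 0, 2), 3, 0, 1), ((2, 1, 6), 1, 3, 5), ((3, 4, 8), 2, 0, 1),
    ((4, 3, 8), 0, 2, 1), ((5, 6, 8), 4, 5, 1), ((6, 0, 2), 5, 0, 1), ((6, 0, 5), 5, 0, 4),
    ((6, 0, 7), 5, 0, 6), ((6, 2, 5), 5, 1, 4), ((6, 2, 7), 5, 1, 6), ((6, 5, 7), 5, 4, 6),
    ((7, 6, 8), 6, 5, 1), ((8, 3, 4), 1, 2, 0), ((8, 3, 5), 1, 2, 4), ((8, 3, 7), 1, 2, 6),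
    ((8, 4, 5), 1, 0, 4), ((8, 4, 7), 1, 0, 6), ((8, 5, 7), 1, 4, 6)]
  Tc := []
  Td := [((0, 4), (0, 1), 3), ((0, 4), (0, 6), 5), ((0, 4), (4, 3), 2), ((0, 4), (4, 8), 1), ((2,
    3), (3, 4), 0), ((2, 3), (3, 8), 1), ((3, 2), (1, 0), 0), ((3, 2), (1, 2), 1), ((4, 0),
    (5, 6), 5), ((4, 0), (5, 8), 1)]
  G := [[0, 0, 0, 0, 0x18c519224424948c84962511121821914219ca46], [0, 0, 0, 0x1212524c2c2c2492,
    0x1211928882944429ca42], [0, 0, 0xcccdc1c2212124cc1484dc68821c8a16, 0,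
    0x882192421948cc19e241], [0, 0x4144c2122c68881c8c21, 0x8841cc2c1ca8144c4612, 0xc2c2c2812,
    0x888294244948ac19e241]]

noncomputable def n1790 : Ent := ⟨e1790, noF, [], [], []⟩

def c1790 : PLift (Cov.check n1790.C.D v1790 = true) := ⟨by decide +kernel⟩

def b1790 : PLift (entF (fidx ts) 400 1790 n1790 = true) := ⟨by decide +kernel⟩

theorem g1790 : GoodF (fidx ts) 400 1790 := GoodF.ofV v1790 n1790 c1790.down b1790.down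

/-- 4576744:1539/3 -/
noncomputable def e1791 : SCfg where
  D := {
    a := 7
    L := 10
    kp := 7
    inn := [(0, 1), (0, 2), (1, 0), (1, 2), (1, 4), (2, 0), (2, 1), (2, 3), (2, 4), (3, 2), (3, 6), (4,
      1), (4, 2), (4, 5), (5, 4), (6, 3)]
    mix := [(0, 0), (0, 1), (1, 1), (1, 2), (2, 0), (2, 3), (2, 4), (3, 0), (3, 4), (3, 5), (3, 6), (4,
      2), (4, 3), (4, 7), (4, 8), (5, 2), (5, 6), (5, 7), (6, 4), (6, 5), (6, 9)]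
    cl := [0, 2, 1, 1, 0, 3, 5, 4, 6, 7]
    chq := [(0, 3), (1, 4), (3, 0), (4, 1)]
    rng := [(0, 1), (0, 6), (1, 0), (1, 2), (2, 1), (2, 6), (3, 4), (3, 8), (4, 3), (4, 9), (5, 6), (5,
      9), (6, 0), (6, 2), (6, 5), (6, 7), (7, 6), (7, 8), (8, 3), (8, 7), (9, 4), (9, 5)]
    lev := [] }
  links := [[1, 2, 7, 8], [2, 0, 8, 9, 4], [7, 0, 1, 4, 10, 11, 3], [7, 2, 11, 6, 12, 13], [10, 2, 1, 9,
    5, 14, 15], [14, 4, 9, 13], [12, 3, 11, 16]]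
  P := {
    a := 7
    N := 17
    nb := [390, 789, 3227, 14532, 50726, 25104, 71688, 8461, 643, 8498, 34836, 66636, 73800, 21160,
      41008, 17424, 6208]
    tri := [(0, 1, 2), (0, 1, 8), (0, 2, 7), (0, 7, 8), (1, 2, 4), (1, 4, 9), (1, 8, 9), (2, 3, 7), (2,
      3, 11), (2, 4, 10), (2, 10, 11), (3, 6, 11), (3, 6, 12), (3, 7, 13), (3, 12, 13), (4, 5, 9),
      (4, 5, 14), (4, 10, 15), (4, 14, 15), (5, 9, 13), (5, 13, 14), (6, 11, 16), (6, 12, 16)]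
    fin := [0, 0, 0, 0, 4, 4, 0, 0, 8, 4, 4, 0, 12, 13, 14, 15, 16]
    chd := [(0, 12), (4, 14)]
    steps := [(0, 1), (0, 2), (0, 3), (0, 6), (0, 7), (0, 11), (4, 5), (4, 9), (4, 10)] }
  rep := [0, 4, 8, 12, 14, 13, 15, 16]

noncomputable def v1791 : Cov.CovD where
  P := 3
  N := 5
  pl := [1, 6, 8, 9]
  lev := [⟨[], [], [], [2], [(0, 0, [3])]⟩,
    ⟨[], [(0, 0), (0, 1)], [], [2], [(2, 1, [4])]⟩,
    ⟨[(0, 1)], [(0, 0), (0, 1), (1, 0), (1, 1)], [(0, 0), (0, 1)], [], [(0, 0, [3]), (3, 1,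
      [4]), (4, 0, [3])]⟩,
    ⟨[(0, 2), (1, 2)], [(0, 0), (2, 0), (2, 1), (2, 3)], [(0, 0), (0, 3)], [5], [(0, 0,
      [3]), (4, 0, [3]), (5, 3, [0])]⟩,
    ⟨[(0, 1), (0, 2), (1, 2), (2, 3)], [(1, 1), (1, 4), (2, 0), (2, 1), (2, 4)], [(1, 1),
      (1, 4)], [6], [(2, 1, [4]), (3, 1, [4]), (7, 4, [1])]⟩,
    ⟨[(1, 4), (2, 4)], [(1, 1), (4, 1), (4, 4)], [(1, 4)], [5], [(2, 1, [4]), (7, 4, [1])]⟩,
    ⟨[(2, 3)], [(2, 0), (3, 0), (3, 3)], [(0, 3)], [7], [(4, 0, [3]), (5, 3, [0])]⟩]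
  Ta := [((0, 1), 0, 2), ((0, 6), 0, 5), ((2, 1), 1, 2), ((2, 6), 1, 5), ((3, 4), 1, 0), ((3, 8),
    1, 6), ((4, 3), 0, 1), ((4, 9), 0, 7)]
  Tb := [((0, 1, 6), 0, 2, 5), ((1, 0, 2), 2, 0, 1), ((2, 1, 6), 1, 2, 5), ((3, 4, 8), 1, 0, 6),
    ((4, 3, 9), 0, 1, 7), ((5, 6, 9), 3, 5, 7), ((6, 0, 2), 5, 0, 1), ((6, 0, 5), 5, 0, 3),
    ((6, 0, 7), 5, 0, 4), ((6, 2, 5), 5, 1, 3), ((6, 2, 7), 5, 1, 4), ((6, 5, 7), 5, 3, 4),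
    ((7, 6, 8), 4, 5, 6), ((8, 3, 7), 6, 1, 4), ((9, 4, 5), 7, 0, 3)]
  Tc := []
  Td := [((0, 3), (0, 1), 2), ((0, 3), (0, 6), 5), ((0, 3), (4, 3), 1), ((0, 3), (4, 9), 7), ((1,
    4), (2, 1), 2), ((1, 4), (2, 6), 5), ((1, 4), (3, 4), 0), ((1, 4), (3, 8), 6), ((3, 0),
    (5, 6), 5), ((3, 0), (5, 9), 7), ((4, 1), (7, 6), 5), ((4, 1), (7, 8), 6)]
  G := [[0, 0, 0x144111d46119115115119cc188111d119a4c2,
    0x117d12c191195c1514115dc61a6d42188daad8ac94,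
    0x1c51111a1c9146116d421aad82d8d1918d115d414dce98], [0, 0,
    0x1411511311561211a11d128128ec82, 0, 0x1254116d418c211adee39b3b2dac12], [0, 0, 0,
    0x6a6de152aa582cc9c15cc5c4c1dcec88688a4c1, 0xe8ee9c6aad669ca41a4e152e11ee5e4e1dca89], [0,
    0xe1e1e1ee1e1e2eae1e1e1e4681, 0, 0, 0xc24ee3e2ca4cc5c4c1d4c8c19e11aca1]]

noncomputable def n1791 : Ent := ⟨e1791, noF, [], [], [(15, 16, [1580044410770988437309982408355971841652082177953823432505696444417, 0])]⟩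

def c1791 : PLift (Cov.check n1791.C.D v1791 = true) := ⟨by decide +kernel⟩

def b1791 : PLift (entF (fidx ts) 400 1791 n1791 = true) := ⟨by decide +kernel⟩

theorem g1791 : GoodF (fidx ts) 400 1791 := GoodF.ofV v1791 n1791 c1791.down b1791.down

/-- 4576744:1539/5 -/
noncomputable def e1792 : SCfg where
  D := {
    a := 7
    L := 10
    kp := 7
    inn := [(0, 1), (0, 2), (1, 0), (1, 2), (1, 4), (2, 0), (2, 1), (2, 3), (2, 4), (3, 2), (3, 6), (4,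
      1), (4, 2), (4, 5), (5, 4), (6, 3)]
    mix := [(0, 0), (0, 1), (1, 1), (1, 2), (2, 0), (2, 3), (2, 4), (3, 0), (3, 4), (3, 5), (3, 6), (4,
      2), (4, 3), (4, 7), (4, 8), (5, 2), (5, 7), (5, 9), (6, 4), (6, 5), (6, 8)]
    cl := [0, 3, 1, 2, 0, 4, 6, 5, 1, 7]
    chq := [(0, 4), (2, 3), (3, 2), (4, 0)]
    rng := [(0, 1), (0, 6), (1, 0), (1, 2), (2, 1), (2, 9), (3, 4), (3, 8), (4, 3), (4, 8), (5, 6), (5,
      8), (6, 0), (6, 5), (7, 8), (7, 9), (8, 3), (8, 4), (8, 5), (8, 7), (9, 2), (9, 7)]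
    lev := [] }
  links := [[1, 2, 7, 8], [2, 0, 8, 9, 4], [7, 0, 1, 4, 10, 11, 3], [7, 2, 11, 6, 12, 13], [10, 2, 1, 9,
    5, 14, 15], [14, 4, 9, 16], [12, 3, 11, 15]]
  P := {
    a := 7
    N := 17
    nb := [390, 789, 3227, 14532, 50726, 82448, 38920, 8461, 643, 65842, 34836, 33868, 41032, 4232,
      98352, 23632, 16928]
    tri := [(0, 1, 2), (0, 1, 8), (0, 2, 7), (0, 7, 8), (1, 2, 4), (1, 4, 9), (1, 8, 9), (2, 3, 7), (2,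
      3, 11), (2, 4, 10), (2, 10, 11), (3, 6, 11), (3, 6, 12), (3, 7, 13), (3, 12, 13), (4, 5, 9),
      (4, 5, 14), (4, 10, 15), (4, 14, 15), (5, 9, 16), (5, 14, 16), (6, 11, 15), (6, 12, 15)]
    fin := [0, 1, 1, 0, 4, 4, 0, 0, 1, 4, 10, 0, 12, 13, 14, 4, 16]
    chd := [(0, 12), (1, 10)]
    steps := [(0, 7), (0, 3), (0, 6), (0, 11), (1, 2), (1, 8), (4, 5), (4, 9), (4, 15)] }
  rep := [0, 4, 10, 1, 12, 14, 13, 16]

noncomputable def v1792 : Cov.CovD where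
  P := 3
  N := 5
  pl := [6, 7, 9]
  lev := [⟨[], [], [(0, 3)], [], [(0, 0, [4]), (1, 3, [2])]⟩,
    ⟨[], [(0, 0), (0, 1), (0, 3)], [(1, 3)], [], [(1, 3, [2]), (2, 1, [])]⟩,
    ⟨[(0, 1)], [(0, 0), (0, 2), (0, 3), (1, 0), (1, 1), (1, 2), (1, 3)], [(0, 0), (0, 2)],
      [], [(0, 0, [4]), (3, 2, [3]), (4, 0, [4])]⟩,
    ⟨[(0, 2), (1, 2)], [(0, 0), (2, 0), (2, 2), (2, 4)], [(0, 0), (0, 4)], [6], [(0, 0,
      [4]), (4, 0, [4]), (5, 4, [0])]⟩,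
    ⟨[(0, 1), (0, 2), (1, 2), (2, 3)], [(1, 1), (1, 2), (1, 3), (2, 0), (2, 1), (2, 2)],
      [(1, 1), (1, 2)], [5], [(2, 1, []), (3, 2, [3]), (8, 1, [])]⟩,
    ⟨[(1, 4), (2, 4)], [(1, 1), (4, 1), (4, 2)], [], [5, 7], [(2, 1, [])]⟩,
    ⟨[(2, 3)], [(2, 0), (3, 0), (3, 1), (3, 4), (4, 1)], [(0, 1), (0, 4), (1, 4)], [], [(4,
      0, [4]), (5, 4, [0]), (8, 1, [])]⟩]
  Ta := [((0, 1), 0, 3), ((0, 6), 0, 6), ((2, 1), 1, 3), ((2, 9), 1, 7), ((4, 3), 0, 2), ((4, 8),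
    0, 1), ((8, 3), 1, 2), ((8, 4), 1, 0), ((8, 5), 1, 4), ((8, 7), 1, 5)]
  Tb := [((0, 1, 6), 0, 3, 6), ((1, 0, 2), 3, 0, 1), ((2, 1, 9), 1, 3, 7), ((3, 4, 8), 2, 0, 1),
    ((4, 3, 8), 0, 2, 1), ((5, 6, 8), 4, 6, 1), ((6, 0, 5), 6, 0, 4), ((7, 8, 9), 5, 1, 7),
    ((8, 3, 4), 1, 2, 0), ((8, 3, 5), 1, 2, 4), ((8, 3, 7), 1, 2, 5), ((8, 4, 5), 1, 0, 4),
    ((8, 4, 7), 1, 0, 5), ((8, 5, 7), 1, 4, 5), ((9, 2, 7), 7, 1, 5)]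
  Tc := []
  Td := [((0, 4), (0, 1), 3), ((0, 4), (0, 6), 6), ((0, 4), (4, 3), 2), ((0, 4), (4, 8), 1), ((2,
    3), (3, 4), 0), ((2, 3), (3, 8), 1), ((3, 2), (1, 0), 0), ((3, 2), (1, 2), 1), ((4, 0),
    (5, 6), 6), ((4, 0), (5, 8), 1)]
  G := [[0, 0, 0, 0, 0x245115516888c225921c21911c1159e2882d1184d22c24911c8e2d4], [0, 0, 0,
    0x121254212c12125e8421291252c6828298c52, 0x121159282885944c429ca42], [0, 0,
    0x889825c449425ccc9cc5ce21225441425ccc54e2298288cc98ec1a, 0,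
    0x28c285942c4259ccccc59e241], [0, 0x4141c48181c2121cac21, 0x8281ccc9c2ca84442445cc612,
    0x4242548282cc2c25ac12, 0xc2cc592828859424459ca42]]

noncomputable def n1792 : Ent := ⟨e1792, noF, [], [], [(16, 13, [1580044429602293643470024699863340111275081426260889765897799983105, 0])]⟩

def c1792 : PLift (Cov.check n1792.C.D v1792 = true) := ⟨by decide +kernel⟩

def b1792 : PLift (entF (fidx ts) 400 1792 n1792 = true) := ⟨by decide +kernel⟩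

theorem g1792 : GoodF (fidx ts) 400 1792 := GoodF.ofV v1792 n1792 c1792.down b1792.down

/-- 4576744:1539 -/
noncomputable def e1793 : SCfg where
  D := {
    a := 7
    L := 11
    kp := 8
    inn := [(0, 1), (0, 2), (1, 0), (1, 2), (1, 4), (2, 0), (2, 1), (2, 3), (2, 4), (3, 2), (3, 6), (4,
      1), (4, 2), (4, 5), (5, 4), (6, 3)]
    mix := [(0, 0), (0, 1), (1, 1), (1, 2), (2, 0), (2, 3), (2, 4), (3, 0), (3, 4), (3, 5), (3, 6), (4,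
      2), (4, 3), (4, 7), (4, 8), (5, 2), (5, 7), (5, 9), (6, 4), (6, 5), (6, 10)]
    cl := [0, 2, 1, 1, 0, 3, 5, 4, 6, 7, 8]
    chq := [(0, 3), (1, 4), (3, 0), (4, 1)]
    rng := [(0, 1), (0, 6), (1, 0), (1, 2), (2, 1), (2, 9), (3, 4), (3, 8), (4, 3), (4, 10), (5, 6),
      (5, 10), (6, 0), (6, 5), (7, 8), (7, 9), (8, 3), (8, 7), (9, 2), (9, 7), (10, 4), (10, 5)]
    lev := [] }
  links := [[1, 2, 7, 8], [2, 0, 8, 9, 4], [7, 0, 1, 4, 10, 11, 3], [7, 2, 11, 6, 12, 13], [10, 2, 1, 9,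
    5, 14, 15], [14, 4, 9, 16], [12, 3, 11, 17]]
  P := {
    a := 7
    N := 18
    nb := [390, 789, 3227, 14532, 50726, 82448, 137224, 8461, 643, 65842, 34836, 132172, 139336, 4232,
      98352, 17424, 16928, 6208]
    tri := [(0, 1, 2), (0, 1, 8), (0, 2, 7), (0, 7, 8), (1, 2, 4), (1, 4, 9), (1, 8, 9), (2, 3, 7), (2,
      3, 11), (2, 4, 10), (2, 10, 11), (3, 6, 11), (3, 6, 12), (3, 7, 13), (3, 12, 13), (4, 5, 9),
      (4, 5, 14), (4, 10, 15), (4, 14, 15), (5, 9, 16), (5, 14, 16), (6, 11, 17), (6, 12, 17)]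
    fin := [0, 0, 0, 0, 4, 4, 0, 0, 8, 4, 4, 0, 12, 13, 14, 15, 16, 17]
    chd := [(0, 12), (4, 14)]
    steps := [(0, 1), (0, 2), (0, 3), (0, 6), (0, 7), (0, 11), (4, 5), (4, 9), (4, 10)] }
  rep := [0, 4, 8, 12, 14, 13, 15, 16, 17]

noncomputable def v1793 : Cov.CovD where
  P := 3
  N := 6
  pl := [1, 6, 8, 9, 10]
  lev := [⟨[], [], [], [2], [(0, 0, [3])]⟩,
    ⟨[], [(0, 0), (0, 1)], [], [2], [(2, 1, [4])]⟩,
    ⟨[(0, 1)], [(0, 0), (0, 1), (1, 0), (1, 1)], [(0, 0), (0, 1)], [], [(0, 0, [3]), (3, 1,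
      [4]), (4, 0, [3])]⟩,
    ⟨[(0, 2), (1, 2)], [(0, 0), (2, 0), (2, 1), (2, 3)], [(0, 0), (0, 3)], [5], [(0, 0,
      [3]), (4, 0, [3]), (5, 3, [0])]⟩,
    ⟨[(0, 1), (0, 2), (1, 2), (2, 3)], [(1, 1), (1, 4), (2, 0), (2, 1), (2, 4)], [(1, 1),
      (1, 4)], [6], [(2, 1, [4]), (3, 1, [4]), (7, 4, [1])]⟩,
    ⟨[(1, 4), (2, 4)], [(1, 1), (4, 1), (4, 4)], [(1, 4)], [7], [(2, 1, [4]), (7, 4, [1])]⟩,
    ⟨[(2, 3)], [(2, 0), (3, 0), (3, 3)], [(0, 3)], [8], [(4, 0, [3]), (5, 3, [0])]⟩]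
  Ta := [((0, 1), 0, 2), ((0, 6), 0, 5), ((2, 1), 1, 2), ((2, 9), 1, 7), ((3, 4), 1, 0), ((3, 8),
    1, 6), ((4, 3), 0, 1), ((4, 10), 0, 8)]
  Tb := [((0, 1, 6), 0, 2, 5), ((1, 0, 2), 2, 0, 1), ((2, 1, 9), 1, 2, 7), ((3, 4, 8), 1, 0, 6),
    ((4, 3, 10), 0, 1, 8), ((5, 6, 10), 3, 5, 8), ((6, 0, 5), 5, 0, 3), ((7, 8, 9), 4, 6, 7),
    ((8, 3, 7), 6, 1, 4), ((9, 2, 7), 7, 1, 4), ((10, 4, 5), 8, 0, 3)]
  Tc := []
  Td := [((0, 3), (0, 1), 2), ((0, 3), (0, 6), 5), ((0, 3), (4, 3), 1), ((0, 3), (4, 10), 8),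
    ((1, 4), (2, 1), 2), ((1, 4), (2, 9), 7), ((1, 4), (3, 4), 0), ((1, 4), (3, 8), 6), ((3,
    0), (5, 6), 5), ((3, 0), (5, 10), 8), ((4, 1), (7, 8), 6), ((4, 1), (7, 9), 7)]
  G := [[0, 0, 0x111d8244111d4111d111d56111d48a111d111d9111d111d9c2cc,
    0xd59d4344c273bd353d9219ed999d9de1d739535ddc6195d428d8,
    0xb33d1959d16399d395d5535d4c695c423edd893bd8591d31cec98], [0, 0,
    0x11341131c4111d844a116411a1165611611a91138ac8c, 0,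
    0x3e9d44158b953156d933d92979a5138e3edec12], [0, 0, 0,
    0xeeed12eeedeeed5eeed1c6eeed42eeed8eeed8aeeedeeedc4e98,
    0xeeed82eeed8eeed8c61eeedeeed5eeedeeed56eeedeeed58a89], [0,
    0xe142e1e1ae1e1aae14e1e1e1ece48, 0, 0, 0xeeeeeeed54ee6ee3eeadee3eeaee6dace284892]]

noncomputable def n1793 : Ent := ⟨e1793, noF, [], [], [(16, 17, [6903326391201334775872065844685381424292761054348340378595029937012737, 0]), (16, 12, [7334685537875751142568901549633128948459063966345724013249176435412993, 0]), (16, 13, [7334685537894576317792898128369202883340578364357296604626079804551169, 0]), (15, 17, [6903326391201334775872065844685381424292761054348340378595029937029121, 0])]⟩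

def c1793 : PLift (Cov.check n1793.C.D v1793 = true) := ⟨by decide +kernel⟩

def b1793 : PLift (entF (fidx ts) 400 1793 n1793 = true) := ⟨by decide +kernel⟩

theorem g1793 : GoodF (fidx ts) 400 1793 := GoodF.ofV v1793 n1793 c1793.down b1793.down

/-- 4576744:1540/2 -/
noncomputable def e1794 : SCfg where
  D := {
    a := 7
    L := 9
    kp := 6
    inn := [(0, 1), (0, 2), (1, 0), (1, 2), (1, 4), (2, 0), (2, 1), (2, 3), (2, 4), (3, 2), (3, 6), (4,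
      1), (4, 2), (4, 5), (5, 4), (6, 3)]
    mix := [(0, 0), (0, 1), (1, 1), (1, 2), (2, 0), (2, 3), (2, 4), (3, 0), (3, 4), (3, 5), (3, 6), (4,
      2), (4, 3), (4, 7), (4, 8), (5, 2), (5, 5), (5, 7), (6, 0), (6, 1), (6, 6)]
    cl := [0, 3, 4, 1, 2, 0, 5, 6, 4]
    chq := [(1, 3), (2, 3), (3, 1), (3, 2)]
    rng := [(0, 1), (1, 0), (1, 2), (1, 6), (2, 1), (2, 5), (3, 4), (3, 8), (4, 3), (4, 5), (5, 2), (5,
      4), (5, 6), (5, 7), (6, 1), (6, 5), (7, 5), (7, 8), (8, 3), (8, 7)]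
    lev := [] }
  links := [[1, 2, 7, 8], [2, 0, 8, 9, 4], [7, 0, 1, 4, 10, 11, 3], [7, 2, 11, 12, 13, 6], [10, 2, 1, 9,
    5, 14, 15], [14, 4, 9, 12], [7, 3, 13, 8]]
  P := {
    a := 7
    N := 16
    nb := [390, 789, 3227, 14532, 50726, 21008, 8584, 333, 8899, 4402, 34836, 5132, 27176, 4424,
      36912, 17424]
    tri := [(0, 1, 2), (0, 1, 8), (0, 2, 7), (0, 7, 8), (1, 2, 4), (1, 4, 9), (1, 8, 9), (2, 3, 7), (2,
      3, 11), (2, 4, 10), (2, 10, 11), (3, 6, 7), (3, 6, 13), (3, 11, 12), (3, 12, 13), (4, 5, 9),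
      (4, 5, 14), (4, 10, 15), (4, 14, 15), (5, 9, 12), (5, 12, 14), (6, 7, 8), (6, 8, 13)]
    fin := [0, 1, 1, 0, 4, 0, 0, 0, 1, 4, 10, 11, 0, 13, 14, 4]
    chd := [(1, 10), (1, 11)]
    steps := [(0, 7), (0, 3), (0, 6), (0, 12), (0, 5), (1, 2), (1, 8), (4, 9), (4, 15)] }
  rep := [0, 10, 11, 1, 4, 13, 14]

noncomputable def v1794 : Cov.CovD where
  P := 3
  N := 4
  pl := [6, 7]
  lev := [⟨[], [], [(0, 3)], [], [(0, 0, []), (1, 3, [1, 2])]⟩,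
    ⟨[], [(0, 0), (0, 3), (0, 4)], [(3, 4)], [], [(1, 3, [1, 2]), (2, 4, [])]⟩,
    ⟨[(0, 1)], [(0, 0), (0, 1), (0, 2), (0, 3), (1, 0), (1, 1), (1, 2), (1, 3), (1, 4)],
      [(0, 1), (0, 2), (1, 2)], [], [(0, 0, []), (3, 1, [3]), (4, 2, [3])]⟩,
    ⟨[(0, 2), (1, 2)], [(0, 0), (2, 0), (2, 1), (2, 2)], [(0, 0), (0, 2)], [5], [(0, 0,
      []), (4, 2, [3]), (5, 0, [])]⟩,
    ⟨[(0, 1), (0, 2), (1, 2), (2, 3)], [(1, 1), (1, 3), (1, 4), (2, 0), (2, 1), (2, 2), (2,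
      4)], [(1, 4), (4, 4)], [6], [(2, 4, []), (3, 1, [3]), (8, 4, [])]⟩,
    ⟨[(1, 4), (2, 4)], [(1, 4), (3, 0), (4, 0), (4, 1), (4, 4)], [(0, 4)], [6], [(2, 4,
      []), (5, 0, [])]⟩,
    ⟨[(2, 3)], [(0, 0), (0, 3), (1, 3), (2, 0), (3, 0), (3, 2), (3, 3)], [(0, 3)], [5],
      [(0, 0, []), (1, 3, [1, 2])]⟩]
  Ta := [((0, 1), 0, 3), ((2, 1), 4, 3), ((2, 5), 4, 0), ((5, 2), 0, 4), ((5, 4), 0, 2), ((5, 6),
    0, 5), ((5, 7), 0, 6), ((8, 3), 4, 1), ((8, 7), 4, 6)]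
  Tb := [((1, 0, 2), 3, 0, 4), ((1, 0, 6), 3, 0, 5), ((1, 2, 6), 3, 4, 5), ((2, 1, 5), 4, 3, 0),
    ((3, 4, 8), 1, 2, 4), ((4, 3, 5), 2, 1, 0), ((5, 2, 4), 0, 4, 2), ((5, 2, 6), 0, 4, 5),
    ((5, 2, 7), 0, 4, 6), ((5, 4, 6), 0, 2, 5), ((5, 4, 7), 0, 2, 6), ((5, 6, 7), 0, 5, 6),
    ((6, 1, 5), 5, 3, 0), ((7, 5, 8), 6, 0, 4), ((8, 3, 7), 4, 1, 6)]
  Tc := [(3, 1, 2)]
  Td := [((1, 3), (3, 4), 2), ((1, 3), (3, 8), 4), ((2, 3), (4, 3), 1), ((2, 3), (4, 5), 0), ((3,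
    1), (1, 0), 0), ((3, 1), (1, 2), 4), ((3, 1), (1, 6), 5), ((3, 2), (1, 0), 0), ((3, 2),
    (1, 2), 4), ((3, 2), (1, 6), 5)]
  G := [[0, 0x416461e4a8a1a2e218cc12, 0, 0xeeee1222e1c422, 0xeeee12824444a58826], [0,
    0x616161e4a8a1a2e8c12, 0, 0x66a14aa618c22, 0x44a18861eea1e842], [0,
    0x744144ca832a1892acc12, 0x111e1111e1a812, 0x14225122421adc1888c22,
    0x1412512b416adac888924], [0, 0x341264269462ec1888c12, 0x11c111a1a412,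
    0x141421ad41818216d8c12, 0x4888144125141442da852]]

noncomputable def n1794 : Ent := ⟨e1794, noF, [], [], []⟩

def c1794 : PLift (Cov.check n1794.C.D v1794 = true) := ⟨by decide +kernel⟩

def b1794 : PLift (entF (fidx ts) 400 1794 n1794 = true) := ⟨by decide +kernel⟩

theorem g1794 : GoodF (fidx ts) 400 1794 := GoodF.ofV v1794 n1794 c1794.down b1794.down

/-- 4576744:1540/3 -/
noncomputable def e1795 : SCfg where
  D := {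
    a := 7
    L := 9
    kp := 6
    inn := [(0, 1), (0, 2), (1, 0), (1, 2), (1, 4), (2, 0), (2, 1), (2, 3), (2, 4), (3, 2), (3, 6), (4,
      1), (4, 2), (4, 5), (5, 4), (6, 3)]
    mix := [(0, 0), (0, 1), (1, 1), (1, 2), (2, 0), (2, 3), (2, 4), (3, 0), (3, 4), (3, 5), (3, 6), (4,
      2), (4, 3), (4, 7), (4, 8), (5, 2), (5, 6), (5, 7), (6, 0), (6, 1), (6, 6)]
    cl := [0, 2, 1, 1, 0, 5, 3, 4, 6]
    chq := [(0, 3), (1, 4), (3, 0), (4, 1)]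
    rng := [(0, 1), (1, 0), (1, 2), (1, 6), (2, 1), (2, 6), (3, 4), (3, 8), (4, 3), (4, 5), (5, 4), (5,
      6), (6, 1), (6, 2), (6, 5), (6, 7), (7, 6), (7, 8), (8, 3), (8, 7)]
    lev := [] }
  links := [[1, 2, 7, 8], [2, 0, 8, 9, 4], [7, 0, 1, 4, 10, 11, 3], [7, 2, 11, 12, 13, 6], [10, 2, 1, 9,
    5, 14, 15], [14, 4, 9, 13], [7, 3, 13, 8]]
  P := {
    a := 7
    N := 16
    nb := [390, 789, 3227, 14532, 50726, 25104, 8584, 333, 8899, 8498, 34836, 5132, 10248, 21352,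
      41008, 17424]
    tri := [(0, 1, 2), (0, 1, 8), (0, 2, 7), (0, 7, 8), (1, 2, 4), (1, 4, 9), (1, 8, 9), (2, 3, 7), (2,
      3, 11), (2, 4, 10), (2, 10, 11), (3, 6, 7), (3, 6, 13), (3, 11, 12), (3, 12, 13), (4, 5, 9),
      (4, 5, 14), (4, 10, 15), (4, 14, 15), (5, 9, 13), (5, 13, 14), (6, 7, 8), (6, 8, 13)]
    fin := [0, 0, 0, 0, 4, 4, 0, 0, 8, 4, 4, 0, 12, 13, 14, 15]
    chd := [(0, 13), (4, 14)]
    steps := [(0, 1), (0, 2), (0, 3), (0, 7), (0, 6), (0, 11), (4, 5), (4, 9), (4, 10)] }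
  rep := [0, 4, 8, 13, 14, 12, 15]

noncomputable def v1795 : Cov.CovD where
  P := 3
  N := 4
  pl := [1, 5, 8]
  lev := [⟨[], [], [], [2], [(0, 0, [3])]⟩,
    ⟨[], [(0, 0), (0, 1)], [], [2], [(2, 1, [4])]⟩,
    ⟨[(0, 1)], [(0, 0), (0, 1), (1, 0), (1, 1)], [(0, 0), (0, 1)], [], [(0, 0, [3]), (3, 1,
      [4]), (4, 0, [3])]⟩,
    ⟨[(0, 2), (1, 2)], [(0, 0), (2, 0), (2, 1), (2, 3)], [(0, 0), (0, 3)], [5], [(0, 0,
      [3]), (4, 0, [3]), (6, 3, [0])]⟩,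
    ⟨[(0, 1), (0, 2), (1, 2), (2, 3)], [(1, 1), (1, 4), (2, 0), (2, 1), (2, 4)], [(1, 1),
      (1, 4)], [6], [(2, 1, [4]), (3, 1, [4]), (7, 4, [1])]⟩,
    ⟨[(1, 4), (2, 4)], [(1, 1), (3, 3), (4, 1), (4, 3), (4, 4)], [(1, 3), (1, 4), (3, 4)],
      [], [(2, 1, [4]), (6, 3, [0]), (7, 4, [1])]⟩,
    ⟨[(2, 3)], [(0, 0), (2, 0), (3, 0), (3, 3), (5, 3)], [(0, 3)], [2], [(0, 0, [3]), (6,
      3, [0])]⟩]
  Ta := [((0, 1), 0, 2), ((2, 1), 1, 2), ((2, 6), 1, 3), ((3, 4), 1, 0), ((3, 8), 1, 6), ((4, 3),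
    0, 1), ((4, 5), 0, 5)]
  Tb := [((1, 0, 2), 2, 0, 1), ((1, 0, 6), 2, 0, 3), ((1, 2, 6), 2, 1, 3), ((2, 1, 6), 1, 2, 3),
    ((3, 4, 8), 1, 0, 6), ((4, 3, 5), 0, 1, 5), ((5, 4, 6), 5, 0, 3), ((6, 1, 2), 3, 2, 1),
    ((6, 1, 5), 3, 2, 5), ((6, 1, 7), 3, 2, 4), ((6, 2, 5), 3, 1, 5), ((6, 2, 7), 3, 1, 4),
    ((6, 5, 7), 3, 5, 4), ((7, 6, 8), 4, 3, 6), ((8, 3, 7), 6, 1, 4)]
  Tc := []
  Td := [((0, 3), (0, 1), 2), ((0, 3), (4, 3), 1), ((0, 3), (4, 5), 5), ((1, 4), (2, 1), 2), ((1,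
    4), (2, 6), 3), ((1, 4), (3, 4), 0), ((1, 4), (3, 8), 6), ((3, 0), (6, 1), 2), ((3, 0),
    (6, 2), 1), ((3, 0), (6, 5), 5), ((3, 0), (6, 7), 4), ((4, 1), (7, 6), 3), ((4, 1), (7,
    8), 6)]
  G := [[0, 0, 0x222d8244444828d215688948a88819445419c2cc,
    0x848d4244584cd92889889544544845dce888888a494,
    0xa48295822d21568118c8888988cd822d849222d8e492], [0, 0, 0x2292154252221d2232221de2888c42,
    0, 0x2442121568888222ad2252292222ce438], [0, 0, 0,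
    0x44445544468445844588984cdd6888288889889d8ec1,
    0x2191281d18251e411514c144688189c212d829cac92], [0, 0x1122118111e111141e1111ce684, 0, 0,
    0x2422652221562282a28ad2282238ec81]]

noncomputable def n1795 : Ent := ⟨e1795, noF, [], [], []⟩

def c1795 : PLift (Cov.check n1795.C.D v1795 = true) := ⟨by decide +kernel⟩

def b1795 : PLift (entF (fidx ts) 400 1795 n1795 = true) := ⟨by decide +kernel⟩

theorem g1795 : GoodF (fidx ts) 400 1795 := GoodF.ofV v1795 n1795 c1795.down b1795.down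

/-- 4576744:1540/1 -/
noncomputable def e1796 : SCfg where
  D := {
    a := 7
    L := 10
    kp := 7
    inn := [(0, 1), (0, 2), (1, 0), (1, 2), (1, 4), (2, 0), (2, 1), (2, 3), (2, 4), (3, 2), (3, 6), (4,
      1), (4, 2), (4, 5), (5, 4), (6, 3)]
    mix := [(0, 0), (0, 1), (1, 1), (1, 2), (2, 0), (2, 3), (2, 4), (3, 0), (3, 4), (3, 5), (3, 6), (4,
      2), (4, 3), (4, 7), (4, 8), (5, 2), (5, 7), (5, 9), (6, 0), (6, 1), (6, 6)]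
    cl := [0, 2, 1, 1, 0, 5, 3, 4, 6, 7]
    chq := [(0, 3), (1, 4), (3, 0), (4, 1)]
    rng := [(0, 1), (1, 0), (1, 2), (1, 6), (2, 1), (2, 9), (3, 4), (3, 8), (4, 3), (4, 5), (5, 4), (5,
      6), (6, 1), (6, 5), (7, 8), (7, 9), (8, 3), (8, 7), (9, 2), (9, 7)]
    lev := [] }
  links := [[1, 2, 7, 8], [2, 0, 8, 9, 4], [7, 0, 1, 4, 10, 11, 3], [7, 2, 11, 12, 13, 6], [10, 2, 1, 9,
    5, 14, 15], [14, 4, 9, 16], [7, 3, 13, 8]]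
  P := {
    a := 7
    N := 17
    nb := [390, 789, 3227, 14532, 50726, 82448, 8584, 333, 8899, 65842, 34836, 5132, 10248, 4424,
      98352, 17424, 16928]
    tri := [(0, 1, 2), (0, 1, 8), (0, 2, 7), (0, 7, 8), (1, 2, 4), (1, 4, 9), (1, 8, 9), (2, 3, 7), (2,
      3, 11), (2, 4, 10), (2, 10, 11), (3, 6, 7), (3, 6, 13), (3, 11, 12), (3, 12, 13), (4, 5, 9),
      (4, 5, 14), (4, 10, 15), (4, 14, 15), (5, 9, 16), (5, 14, 16), (6, 7, 8), (6, 8, 13)]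
    fin := [0, 0, 0, 0, 4, 4, 0, 0, 8, 4, 4, 0, 12, 13, 14, 15, 16]
    chd := [(0, 13), (4, 14)]
    steps := [(0, 1), (0, 2), (0, 3), (0, 7), (0, 6), (0, 11), (4, 5), (4, 9), (4, 10)] }
  rep := [0, 4, 8, 13, 14, 12, 15, 16]

noncomputable def v1796 : Cov.CovD where
  P := 3
  N := 5
  pl := [1, 5, 8, 9]
  lev := [⟨[], [], [], [2], [(0, 0, [3])]⟩,
    ⟨[], [(0, 0), (0, 1)], [], [2], [(2, 1, [4])]⟩,
    ⟨[(0, 1)], [(0, 0), (0, 1), (1, 0), (1, 1)], [(0, 0), (0, 1)], [], [(0, 0, [3]), (3, 1,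
      [4]), (4, 0, [3])]⟩,
    ⟨[(0, 2), (1, 2)], [(0, 0), (2, 0), (2, 1), (2, 3)], [(0, 0), (0, 3)], [5], [(0, 0,
      [3]), (4, 0, [3]), (6, 3, [0])]⟩,
    ⟨[(0, 1), (0, 2), (1, 2), (2, 3)], [(1, 1), (1, 4), (2, 0), (2, 1), (2, 4)], [(1, 1),
      (1, 4)], [6], [(2, 1, [4]), (3, 1, [4]), (7, 4, [1])]⟩,
    ⟨[(1, 4), (2, 4)], [(1, 1), (4, 1), (4, 4)], [(1, 4)], [7], [(2, 1, [4]), (7, 4, [1])]⟩,
    ⟨[(2, 3)], [(0, 0), (2, 0), (3, 0), (3, 3)], [(0, 3)], [2], [(0, 0, [3]), (6, 3, [0])]⟩]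
  Ta := [((0, 1), 0, 2), ((2, 1), 1, 2), ((2, 9), 1, 7), ((3, 4), 1, 0), ((3, 8), 1, 6), ((4, 3),
    0, 1), ((4, 5), 0, 5)]
  Tb := [((1, 0, 2), 2, 0, 1), ((1, 0, 6), 2, 0, 3), ((1, 2, 6), 2, 1, 3), ((2, 1, 9), 1, 2, 7),
    ((3, 4, 8), 1, 0, 6), ((4, 3, 5), 0, 1, 5), ((5, 4, 6), 5, 0, 3), ((6, 1, 5), 3, 2, 5),
    ((7, 8, 9), 4, 6, 7), ((8, 3, 7), 6, 1, 4), ((9, 2, 7), 7, 1, 4)]
  Tc := []
  Td := [((0, 3), (0, 1), 2), ((0, 3), (4, 3), 1), ((0, 3), (4, 5), 5), ((1, 4), (2, 1), 2), ((1,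
    4), (2, 9), 7), ((1, 4), (3, 4), 0), ((1, 4), (3, 8), 6), ((3, 0), (6, 1), 2), ((3, 0),
    (6, 5), 5), ((4, 1), (7, 8), 6), ((4, 1), (7, 9), 7)]
  G := [[0, 0, 0x444d444d5222d222d56888d48a888d888d9444d8c2c222d82446,
    0xcccdcccd52888d888d5444d444d5ca888d8cccd8a444d84694,
    0x888d1aaad1229222d5e42442222d82888d888dcaaadaaadcce98], [0, 0,
    0x44a448887828887d22622a223dac446443948c2, 0, 0xaaad4488388a886da2aaa7922622a223dec82],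
    [0, 0, 0, 0x11cd11952885888d888dd444d444d5ca911d1492188444d8c694,
    0x191d111d5222d222d56888d18c1448888d889c111d8222d8ec92], [0,
    0x1111a2111111e111141e114e684, 0, 0, 0x311e4488318a816d121a1b9228ec8222d222d52823]]

noncomputable def n1796 : Ent := ⟨e1796, noF, [], [], [(16, 12, [1580044410777118419473445963789405229760683414688298388994430869505, 0]), (16, 13, [1580044429602293643470024699863340111275081426260889765897800003585, 0])]⟩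

def c1796 : PLift (Cov.check n1796.C.D v1796 = true) := ⟨by decide +kernel⟩

def b1796 : PLift (entF (fidx ts) 400 1796 n1796 = true) := ⟨by decide +kernel⟩

theorem g1796 : GoodF (fidx ts) 400 1796 := GoodF.ofV v1796 n1796 c1796.down b1796.down

/-- 4576744:1540/4 -/
noncomputable def e1797 : SCfg where
  D := {
    a := 7
    L := 10
    kp := 7
    inn := [(0, 1), (0, 2), (1, 0), (1, 2), (1, 4), (2, 0), (2, 1), (2, 3), (2, 4), (3, 2), (3, 6), (4,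
      1), (4, 2), (4, 5), (5, 4), (6, 3)]
    mix := [(0, 0), (0, 1), (1, 1), (1, 2), (2, 0), (2, 3), (2, 4), (3, 0), (3, 4), (3, 5), (3, 6), (4,
      2), (4, 3), (4, 7), (4, 8), (5, 2), (5, 5), (5, 7), (6, 0), (6, 6), (6, 9)]
    cl := [0, 2, 1, 1, 0, 5, 3, 4, 6, 7]
    chq := [(0, 3), (1, 4), (3, 0), (4, 1)]
    rng := [(0, 1), (0, 9), (1, 0), (1, 2), (2, 1), (2, 5), (3, 4), (3, 8), (4, 3), (4, 5), (5, 2), (5,
      4), (5, 6), (5, 7), (6, 5), (6, 9), (7, 5), (7, 8), (8, 3), (8, 7), (9, 0), (9, 6)]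
    lev := [] }
  links := [[1, 2, 7, 8], [2, 0, 8, 9, 4], [7, 0, 1, 4, 10, 11, 3], [7, 2, 11, 12, 13, 6], [10, 2, 1, 9,
    5, 14, 15], [14, 4, 9, 12], [7, 3, 13, 16]]
  P := {
    a := 7
    N := 17
    nb := [390, 789, 3227, 14532, 50726, 21008, 73864, 65869, 643, 4402, 34836, 5132, 27176, 69704,
      36912, 17424, 8384]
    tri := [(0, 1, 2), (0, 1, 8), (0, 2, 7), (0, 7, 8), (1, 2, 4), (1, 4, 9), (1, 8, 9), (2, 3, 7), (2,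
      3, 11), (2, 4, 10), (2, 10, 11), (3, 6, 7), (3, 6, 13), (3, 11, 12), (3, 12, 13), (4, 5, 9),
      (4, 5, 14), (4, 10, 15), (4, 14, 15), (5, 9, 12), (5, 12, 14), (6, 7, 16), (6, 13, 16)]
    fin := [0, 0, 0, 0, 4, 4, 0, 0, 8, 4, 4, 0, 12, 13, 14, 15, 16]
    chd := [(0, 13), (4, 14)]
    steps := [(0, 1), (0, 2), (0, 3), (0, 6), (0, 7), (0, 11), (4, 5), (4, 9), (4, 10)] }
  rep := [0, 4, 8, 13, 14, 12, 15, 16]

noncomputable def v1797 : Cov.CovD where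
  P := 3
  N := 5
  pl := [1, 5, 8, 9]
  lev := [⟨[], [], [], [2], [(0, 0, [3])]⟩,
    ⟨[], [(0, 0), (0, 1)], [], [2], [(2, 1, [4])]⟩,
    ⟨[(0, 1)], [(0, 0), (0, 1), (1, 0), (1, 1)], [(0, 0), (0, 1)], [], [(0, 0, [3]), (3, 1,
      [4]), (4, 0, [3])]⟩,
    ⟨[(0, 2), (1, 2)], [(0, 0), (2, 0), (2, 1), (2, 3)], [(0, 0), (0, 3)], [5], [(0, 0,
      [3]), (4, 0, [3]), (6, 3, [0])]⟩,
    ⟨[(0, 1), (0, 2), (1, 2), (2, 3)], [(1, 1), (1, 4), (2, 0), (2, 1), (2, 4)], [(1, 1),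
      (1, 4)], [6], [(2, 1, [4]), (3, 1, [4]), (7, 4, [1])]⟩,
    ⟨[(1, 4), (2, 4)], [(1, 1), (4, 1), (4, 4)], [(1, 4)], [5], [(2, 1, [4]), (7, 4, [1])]⟩,
    ⟨[(2, 3)], [(0, 0), (2, 0), (3, 0), (3, 3)], [(0, 3)], [7], [(0, 0, [3]), (6, 3, [0])]⟩]
  Ta := [((0, 1), 0, 2), ((0, 9), 0, 7), ((2, 1), 1, 2), ((2, 5), 1, 5), ((3, 4), 1, 0), ((3, 8),
    1, 6), ((4, 3), 0, 1), ((4, 5), 0, 5)]
  Tb := [((0, 1, 9), 0, 2, 7), ((1, 0, 2), 2, 0, 1), ((2, 1, 5), 1, 2, 5), ((3, 4, 8), 1, 0, 6),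
    ((4, 3, 5), 0, 1, 5), ((5, 2, 4), 5, 1, 0), ((5, 2, 6), 5, 1, 3), ((5, 2, 7), 5, 1, 4),
    ((5, 4, 6), 5, 0, 3), ((5, 4, 7), 5, 0, 4), ((5, 6, 7), 5, 3, 4), ((6, 5, 9), 3, 5, 7),
    ((7, 5, 8), 4, 5, 6), ((8, 3, 7), 6, 1, 4), ((9, 0, 6), 7, 0, 3)]
  Tc := []
  Td := [((0, 3), (0, 1), 2), ((0, 3), (0, 9), 7), ((0, 3), (4, 3), 1), ((0, 3), (4, 5), 5), ((1,
    4), (2, 1), 2), ((1, 4), (2, 5), 5), ((1, 4), (3, 4), 0), ((1, 4), (3, 8), 6), ((3, 0),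
    (6, 5), 5), ((3, 0), (6, 9), 7), ((4, 1), (7, 5), 5), ((4, 1), (7, 8), 6)]
  G := [[0, 0, 0xe886aade19a446a6d42ee9e15ee5e4e1dca8c, 0x6a6de152cc9c15cc5c4c1dcac886aad8a494,
    0xe4e156a6de156e118cee584e8ee9c6aad8ac92], [0, 0, 0xc83c43c1dee3e2e1da4c2cc3c1d48c2, 0,
    0xcc5c4c2dee3ea34ead6c8ccac2d8c12], [0, 0, 0,
    0x181c99d37d1159a1c9146116d42c194515c414dca58,
    0x113d12739119d594515c6156d42988293d8335d8ec98], [0, 0x111162111111e111411e118ea84, 0, 0,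
    0x144d2b1568181c912d12116986378e492]]

noncomputable def n1797 : Ent := ⟨e1797, noF, [], [], [(8, 16, [1580044410770988437309982408355971841652082177953823432505696460801, 0])]⟩

def c1797 : PLift (Cov.check n1797.C.D v1797 = true) := ⟨by decide +kernel⟩

def b1797 : PLift (entF (fidx ts) 400 1797 n1797 = true) := ⟨by decide +kernel⟩

theorem g1797 : GoodF (fidx ts) 400 1797 := GoodF.ofV v1797 n1797 c1797.down b1797.down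

/-- 4576744:1540/5 -/
noncomputable def e1798 : SCfg where
  D := {
    a := 7
    L := 10
    kp := 7
    inn := [(0, 1), (0, 2), (1, 0), (1, 2), (1, 4), (2, 0), (2, 1), (2, 3), (2, 4), (3, 2), (3, 6), (4,
      1), (4, 2), (4, 5), (5, 4), (6, 3)]
    mix := [(0, 0), (0, 1), (1, 1), (1, 2), (2, 0), (2, 3), (2, 4), (3, 0), (3, 4), (3, 5), (3, 6), (4,
      2), (4, 3), (4, 7), (4, 8), (5, 2), (5, 6), (5, 7), (6, 0), (6, 6), (6, 9)]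
    cl := [0, 2, 1, 1, 0, 5, 3, 4, 6, 7]
    chq := [(0, 3), (1, 4), (3, 0), (4, 1)]
    rng := [(0, 1), (0, 9), (1, 0), (1, 2), (2, 1), (2, 6), (3, 4), (3, 8), (4, 3), (4, 5), (5, 4), (5,
      6), (6, 2), (6, 5), (6, 7), (6, 9), (7, 6), (7, 8), (8, 3), (8, 7), (9, 0), (9, 6)]
    lev := [] }
  links := [[1, 2, 7, 8], [2, 0, 8, 9, 4], [7, 0, 1, 4, 10, 11, 3], [7, 2, 11, 12, 13, 6], [10, 2, 1, 9,
    5, 14, 15], [14, 4, 9, 13], [7, 3, 13, 16]]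
  P := {
    a := 7
    N := 17
    nb := [390, 789, 3227, 14532, 50726, 25104, 73864, 65869, 643, 8498, 34836, 5132, 10248, 86632,
      41008, 17424, 8384]
    tri := [(0, 1, 2), (0, 1, 8), (0, 2, 7), (0, 7, 8), (1, 2, 4), (1, 4, 9), (1, 8, 9), (2, 3, 7), (2,
      3, 11), (2, 4, 10), (2, 10, 11), (3, 6, 7), (3, 6, 13), (3, 11, 12), (3, 12, 13), (4, 5, 9),
      (4, 5, 14), (4, 10, 15), (4, 14, 15), (5, 9, 13), (5, 13, 14), (6, 7, 16), (6, 13, 16)]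
    fin := [0, 0, 0, 0, 4, 4, 0, 0, 8, 4, 4, 0, 12, 13, 14, 15, 16]
    chd := [(0, 13), (4, 14)]
    steps := [(0, 1), (0, 2), (0, 3), (0, 6), (0, 7), (0, 11), (4, 5), (4, 9), (4, 10)] }
  rep := [0, 4, 8, 13, 14, 12, 15, 16]

noncomputable def v1798 : Cov.CovD where
  P := 3
  N := 5
  pl := [1, 5, 8, 9]
  lev := [⟨[], [], [], [2], [(0, 0, [3])]⟩,
    ⟨[], [(0, 0), (0, 1)], [], [2], [(2, 1, [4])]⟩,
    ⟨[(0, 1)], [(0, 0), (0, 1), (1, 0), (1, 1)], [(0, 0), (0, 1)], [], [(0, 0, [3]), (3, 1,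
      [4]), (4, 0, [3])]⟩,
    ⟨[(0, 2), (1, 2)], [(0, 0), (2, 0), (2, 1), (2, 3)], [(0, 0), (0, 3)], [5], [(0, 0,
      [3]), (4, 0, [3]), (6, 3, [0])]⟩,
    ⟨[(0, 1), (0, 2), (1, 2), (2, 3)], [(1, 1), (1, 4), (2, 0), (2, 1), (2, 4)], [(1, 1),
      (1, 4)], [6], [(2, 1, [4]), (3, 1, [4]), (7, 4, [1])]⟩,
    ⟨[(1, 4), (2, 4)], [(1, 1), (3, 3), (4, 1), (4, 3), (4, 4)], [(1, 3), (1, 4), (3, 4)],
      [], [(2, 1, [4]), (6, 3, [0]), (7, 4, [1])]⟩,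
    ⟨[(2, 3)], [(0, 0), (2, 0), (3, 0), (3, 3), (5, 3)], [(0, 3)], [7], [(0, 0, [3]), (6,
      3, [0])]⟩]
  Ta := [((0, 1), 0, 2), ((0, 9), 0, 7), ((2, 1), 1, 2), ((2, 6), 1, 3), ((3, 4), 1, 0), ((3, 8),
    1, 6), ((4, 3), 0, 1), ((4, 5), 0, 5)]
  Tb := [((0, 1, 9), 0, 2, 7), ((1, 0, 2), 2, 0, 1), ((2, 1, 6), 1, 2, 3), ((3, 4, 8), 1, 0, 6),
    ((4, 3, 5), 0, 1, 5), ((5, 4, 6), 5, 0, 3), ((6, 2, 5), 3, 1, 5), ((6, 2, 7), 3, 1, 4),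
    ((6, 2, 9), 3, 1, 7), ((6, 5, 7), 3, 5, 4), ((6, 5, 9), 3, 5, 7), ((6, 7, 9), 3, 4, 7),
    ((7, 6, 8), 4, 3, 6), ((8, 3, 7), 6, 1, 4), ((9, 0, 6), 7, 0, 3)]
  Tc := []
  Td := [((0, 3), (0, 1), 2), ((0, 3), (0, 9), 7), ((0, 3), (4, 3), 1), ((0, 3), (4, 5), 5), ((1,
    4), (2, 1), 2), ((1, 4), (2, 6), 3), ((1, 4), (3, 4), 0), ((1, 4), (3, 8), 6), ((3, 0),
    (6, 2), 1), ((3, 0), (6, 5), 5), ((3, 0), (6, 7), 4), ((3, 0), (6, 9), 7), ((4, 1), (7,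
    6), 3), ((4, 1), (7, 8), 6)]
  G := [[0, 0, 0xee9e15aa9e15ae4e1546e88a66d8aee5846c644288c,
    0xa6ad66ed52aa9466564a65dcaa8aa9982a66d824d4,
    0xee9ae958a2d1aa926ed5e411466442a66d82e88ee5e4cce98], [0, 0,
    0x824842246636261dee3e2e1dea8a198cc2, 0, 0x6656462dee3ee3e2d6a8aa3a2d8c12], [0, 0, 0,
    0x111116dc61d9aa1914664645111d46a81a9c1158cc58,
    0x14414461e961551b5aa1d911c199ec188a1c1a9ca492], [0, 0x1111a122a114111111e1111ce648, 0,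
    0, 0x6444a81a9a2d133129153113e2dec18]]

noncomputable def n1798 : Ent := ⟨e1798, noF, [], [], [(8, 16, [1580044410770988437309982408355971841652082177953823432505696464897, 0])]⟩

def c1798 : PLift (Cov.check n1798.C.D v1798 = true) := ⟨by decide +kernel⟩

def b1798 : PLift (entF (fidx ts) 400 1798 n1798 = true) := ⟨by decide +kernel⟩

theorem g1798 : GoodF (fidx ts) 400 1798 := GoodF.ofV v1798 n1798 c1798.down b1798.down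

/-- 4576744:1540/6 -/
noncomputable def e1799 : SCfg where
  D := {
    a := 7
    L := 10
    kp := 7
    inn := [(0, 1), (0, 2), (1, 0), (1, 2), (1, 4), (2, 0), (2, 1), (2, 3), (2, 4), (3, 2), (3, 6), (4,
      1), (4, 2), (4, 5), (5, 4), (6, 3)]
    mix := [(0, 0), (0, 1), (1, 1), (1, 2), (2, 0), (2, 3), (2, 4), (3, 0), (3, 4), (3, 5), (3, 6), (4,
      2), (4, 3), (4, 7), (4, 8), (5, 2), (5, 7), (5, 9), (6, 0), (6, 6), (6, 9)]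
    cl := [0, 2, 1, 1, 0, 6, 3, 4, 7, 5]
    chq := [(0, 3), (1, 4), (3, 0), (4, 1)]
    rng := [(0, 1), (0, 9), (1, 0), (1, 2), (2, 1), (2, 9), (3, 4), (3, 8), (4, 3), (4, 5), (5, 4), (5,
      6), (6, 5), (6, 9), (7, 8), (7, 9), (8, 3), (8, 7), (9, 0), (9, 2), (9, 6), (9, 7)]
    lev := [] }
  links := [[1, 2, 7, 8], [2, 0, 8, 9, 4], [7, 0, 1, 4, 10, 11, 3], [7, 2, 11, 12, 13, 6], [10, 2, 1, 9,
    5, 14, 15], [14, 4, 9, 16], [7, 3, 13, 16]]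
  P := {
    a := 7
    N := 17
    nb := [390, 789, 3227, 14532, 50726, 82448, 73864, 65869, 643, 65842, 34836, 5132, 10248, 69704,
      98352, 17424, 25312]
    tri := [(0, 1, 2), (0, 1, 8), (0, 2, 7), (0, 7, 8), (1, 2, 4), (1, 4, 9), (1, 8, 9), (2, 3, 7), (2,
      3, 11), (2, 4, 10), (2, 10, 11), (3, 6, 7), (3, 6, 13), (3, 11, 12), (3, 12, 13), (4, 5, 9),
      (4, 5, 14), (4, 10, 15), (4, 14, 15), (5, 9, 16), (5, 14, 16), (6, 7, 16), (6, 13, 16)]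
    fin := [0, 0, 0, 0, 4, 4, 0, 0, 8, 4, 4, 0, 12, 13, 14, 15, 16]
    chd := [(0, 13), (4, 14)]
    steps := [(0, 1), (0, 2), (0, 3), (0, 6), (0, 7), (0, 11), (4, 5), (4, 9), (4, 10)] }
  rep := [0, 4, 8, 13, 14, 16, 12, 15]

noncomputable def v1799 : Cov.CovD where
  P := 3
  N := 5
  pl := [1, 5, 8, 9]
  lev := [⟨[], [], [], [2], [(0, 0, [3])]⟩,
    ⟨[], [(0, 0), (0, 1)], [], [2], [(2, 1, [4])]⟩,
    ⟨[(0, 1)], [(0, 0), (0, 1), (1, 0), (1, 1)], [(0, 0), (0, 1)], [], [(0, 0, [3]), (3, 1,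
      [4]), (4, 0, [3])]⟩,
    ⟨[(0, 2), (1, 2)], [(0, 0), (2, 0), (2, 1), (2, 3)], [(0, 0), (0, 3)], [6], [(0, 0,
      [3]), (4, 0, [3]), (6, 3, [0])]⟩,
    ⟨[(0, 1), (0, 2), (1, 2), (2, 3)], [(1, 1), (1, 4), (2, 0), (2, 1), (2, 4)], [(1, 1),
      (1, 4)], [7], [(2, 1, [4]), (3, 1, [4]), (7, 4, [1])]⟩,
    ⟨[(1, 4), (2, 4)], [(1, 1), (4, 1), (4, 4)], [(1, 4)], [5], [(2, 1, [4]), (7, 4, [1])]⟩,
    ⟨[(2, 3)], [(0, 0), (2, 0), (3, 0), (3, 3)], [(0, 3)], [5], [(0, 0, [3]), (6, 3, [0])]⟩]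
  Ta := [((0, 1), 0, 2), ((0, 9), 0, 5), ((2, 1), 1, 2), ((2, 9), 1, 5), ((3, 4), 1, 0), ((3, 8),
    1, 7), ((4, 3), 0, 1), ((4, 5), 0, 6)]
  Tb := [((0, 1, 9), 0, 2, 5), ((1, 0, 2), 2, 0, 1), ((2, 1, 9), 1, 2, 5), ((3, 4, 8), 1, 0, 7),
    ((4, 3, 5), 0, 1, 6), ((5, 4, 6), 6, 0, 3), ((6, 5, 9), 3, 6, 5), ((7, 8, 9), 4, 7, 5),
    ((8, 3, 7), 7, 1, 4), ((9, 0, 2), 5, 0, 1), ((9, 0, 6), 5, 0, 3), ((9, 0, 7), 5, 0, 4),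
    ((9, 2, 6), 5, 1, 3), ((9, 2, 7), 5, 1, 4), ((9, 6, 7), 5, 3, 4)]
  Tc := []
  Td := [((0, 3), (0, 1), 2), ((0, 3), (0, 9), 5), ((0, 3), (4, 3), 1), ((0, 3), (4, 5), 6), ((1,
    4), (2, 1), 2), ((1, 4), (2, 9), 5), ((1, 4), (3, 4), 0), ((1, 4), (3, 8), 7), ((3, 0),
    (6, 5), 6), ((3, 0), (6, 9), 5), ((4, 1), (7, 8), 7), ((4, 1), (7, 9), 5)]
  G := [[0, 0, 0xe22de19244a6ad42868d4a4ad4ca866de19a44de19c2cc,
    0x222d222d92866d88ed9a44d44ed9c6a4ad4222d46868d48a58,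
    0xa4ad44ed52e2d22ed5688988ed58c6444458c866d8a88e22d8ec92], [0, 0,
    0xa4ade1544e6ea3e1da282232221dec42848c2, 0, 0x424a6a4eed4866b8ea6e6da8822622322adec12],
    [0, 0, 0, 0x242192818d315141d115c6222d42811d82298a144d84e94,
    0x511139315a91146a442922d82815d811dc141d34adcce98], [0, 0x1122111111e111111e1111cea84, 0,
    0, 0x32441331211d3133192222321dec82]]

noncomputable def n1799 : Ent := ⟨e1799, noF, [], [], []⟩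

def c1799 : PLift (Cov.check n1799.C.D v1799 = true) := ⟨by decide +kernel⟩

def b1799 : PLift (entF (fidx ts) 400 1799 n1799 = true) := ⟨by decide +kernel⟩

theorem g1799 : GoodF (fidx ts) 400 1799 := GoodF.ofV v1799 n1799 c1799.down b1799.down

/-- 4576744:1540 -/
noncomputable def e1800 : SCfg where
  D := {
    a := 7
    L := 11
    kp := 8
    inn := [(0, 1), (0, 2), (1, 0), (1, 2), (1, 4), (2, 0), (2, 1), (2, 3), (2, 4), (3, 2), (3, 6), (4,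
      1), (4, 2), (4, 5), (5, 4), (6, 3)]
    mix := [(0, 0), (0, 1), (1, 1), (1, 2), (2, 0), (2, 3), (2, 4), (3, 0), (3, 4), (3, 5), (3, 6), (4,
      2), (4, 3), (4, 7), (4, 8), (5, 2), (5, 7), (5, 9), (6, 0), (6, 6), (6, 10)]
    cl := [0, 2, 1, 1, 0, 5, 3, 4, 6, 7, 8]
    chq := [(0, 3), (1, 4), (3, 0), (4, 1)]
    rng := [(0, 1), (0, 10), (1, 0), (1, 2), (2, 1), (2, 9), (3, 4), (3, 8), (4, 3), (4, 5), (5, 4),
      (5, 6), (6, 5), (6, 10), (7, 8), (7, 9), (8, 3), (8, 7), (9, 2), (9, 7), (10, 0), (10, 6)]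
    lev := [] }
  links := [[1, 2, 7, 8], [2, 0, 8, 9, 4], [7, 0, 1, 4, 10, 11, 3], [7, 2, 11, 12, 13, 6], [10, 2, 1, 9,
    5, 14, 15], [14, 4, 9, 16], [7, 3, 13, 17]]
  P := {
    a := 7
    N := 18
    nb := [390, 789, 3227, 14532, 50726, 82448, 139400, 131405, 643, 65842, 34836, 5132, 10248,
      135240, 98352, 17424, 16928, 8384]
    tri := [(0, 1, 2), (0, 1, 8), (0, 2, 7), (0, 7, 8), (1, 2, 4), (1, 4, 9), (1, 8, 9), (2, 3, 7), (2,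
      3, 11), (2, 4, 10), (2, 10, 11), (3, 6, 7), (3, 6, 13), (3, 11, 12), (3, 12, 13), (4, 5, 9),
      (4, 5, 14), (4, 10, 15), (4, 14, 15), (5, 9, 16), (5, 14, 16), (6, 7, 17), (6, 13, 17)]
    fin := [0, 0, 0, 0, 4, 4, 0, 0, 8, 4, 4, 0, 12, 13, 14, 15, 16, 17]
    chd := [(0, 13), (4, 14)]
    steps := [(0, 1), (0, 2), (0, 3), (0, 6), (0, 7), (0, 11), (4, 5), (4, 9), (4, 10)] }
  rep := [0, 4, 8, 13, 14, 12, 15, 16, 17]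

noncomputable def v1800 : Cov.CovD where
  P := 3
  N := 6
  pl := [1, 5, 8, 9, 10]
  lev := [⟨[], [], [], [2], [(0, 0, [3])]⟩,
    ⟨[], [(0, 0), (0, 1)], [], [2], [(2, 1, [4])]⟩,
    ⟨[(0, 1)], [(0, 0), (0, 1), (1, 0), (1, 1)], [(0, 0), (0, 1)], [], [(0, 0, [3]), (3, 1,
      [4]), (4, 0, [3])]⟩,
    ⟨[(0, 2), (1, 2)], [(0, 0), (2, 0), (2, 1), (2, 3)], [(0, 0), (0, 3)], [5], [(0, 0,
      [3]), (4, 0, [3]), (6, 3, [0])]⟩,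
    ⟨[(0, 1), (0, 2), (1, 2), (2, 3)], [(1, 1), (1, 4), (2, 0), (2, 1), (2, 4)], [(1, 1),
      (1, 4)], [6], [(2, 1, [4]), (3, 1, [4]), (7, 4, [1])]⟩,
    ⟨[(1, 4), (2, 4)], [(1, 1), (4, 1), (4, 4)], [(1, 4)], [7], [(2, 1, [4]), (7, 4, [1])]⟩,
    ⟨[(2, 3)], [(0, 0), (2, 0), (3, 0), (3, 3)], [(0, 3)], [8], [(0, 0, [3]), (6, 3, [0])]⟩]
  Ta := [((0, 1), 0, 2), ((0, 10), 0, 8), ((2, 1), 1, 2), ((2, 9), 1, 7), ((3, 4), 1, 0), ((3,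
    8), 1, 6), ((4, 3), 0, 1), ((4, 5), 0, 5)]
  Tb := [((0, 1, 10), 0, 2, 8), ((1, 0, 2), 2, 0, 1), ((2, 1, 9), 1, 2, 7), ((3, 4, 8), 1, 0, 6),
    ((4, 3, 5), 0, 1, 5), ((5, 4, 6), 5, 0, 3), ((6, 5, 10), 3, 5, 8), ((7, 8, 9), 4, 6, 7),
    ((8, 3, 7), 6, 1, 4), ((9, 2, 7), 7, 1, 4), ((10, 0, 6), 8, 0, 3)]
  Tc := []
  Td := [((0, 3), (0, 1), 2), ((0, 3), (0, 10), 8), ((0, 3), (4, 3), 1), ((0, 3), (4, 5), 5),
    ((1, 4), (2, 1), 2), ((1, 4), (2, 9), 7), ((1, 4), (3, 4), 0), ((1, 4), (3, 8), 6), ((3,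
    0), (6, 5), 5), ((3, 0), (6, 10), 8), ((4, 1), (7, 8), 6), ((4, 1), (7, 9), 7)]
  G := [[0, 0, 0xeeed4eeedeeed56eeed48aeeedeeed9eeedeeed9c2ceeed82446,
    0xeeed12eeedeeed9eeedeeed9caeeed4eeed46eeed82eeed48e54,
    0xeeed1eeed1aeeed146eeed42eeed82eeedeeedceeedeeedcce98], [0, 0,
    0xe2484eeaee354eeedeeed98ccee68ee6eeaee3d684a, 0,
    0xee6eeaee3da11ee6ee3eeade4e43eee7ee6d4892], [0, 0, 0,
    0x357d955d5991de99d56333d18a919d825ebd53bdc3d3d8c694,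
    0xebdd1111117d1e4555d4793d77c533ed4ee39d8193d8e55d8ec92], [0,
    0x111162111111e111111e118ea84, 0, 0, 0x525e53655637917815edc9938e13e331b92dac12]]

noncomputable def n1800 : Ent := ⟨e1800, noF, [], [], [(8, 17, [6903326391201334775872065844685381424292761054348340378595029937045505, 0]), (16, 12, [7334685537875751142568901549633128948459063966345724013249176435445761, 0]), (16, 13, [7334685537894576317792898128369202883340578364357296604626079804579841, 0]), (16, 17, [6903326391201334775872065844685381424292761054348340378595029937057793, 0])]⟩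

def c1800 : PLift (Cov.check n1800.C.D v1800 = true) := ⟨by decide +kernel⟩

def b1800 : PLift (entF (fidx ts) 400 1800 n1800 = true) := ⟨by decide +kernel⟩

theorem g1800 : GoodF (fidx ts) 400 1800 := GoodF.ofV v1800 n1800 c1800.down b1800.down

/-- 4845664:1541/2 -/
noncomputable def e1801 : SCfg where
  D := {
    a := 7
    L := 9
    kp := 6
    inn := [(0, 1), (0, 3), (0, 4), (1, 0), (1, 2), (1, 3), (1, 4), (2, 1), (3, 0), (3, 1), (4, 0), (4,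
      1), (4, 5), (5, 4), (5, 6), (6, 5)]
    mix := [(0, 0), (1, 1), (1, 2), (1, 3), (1, 4), (2, 1), (2, 2), (2, 5), (3, 0), (3, 1), (3, 6), (4,
      0), (4, 4), (4, 7), (5, 0), (5, 6), (5, 7), (5, 8), (6, 5), (6, 7), (6, 8)]
    cl := [3, 0, 5, 0, 1, 6, 2, 3, 4]
    chq := [(1, 2), (2, 1), (3, 4), (4, 3)]
    rng := [(0, 6), (1, 5), (1, 6), (2, 3), (2, 5), (3, 2), (3, 4), (4, 3), (4, 7), (5, 1), (5, 2), (5,
      7), (5, 8), (6, 0), (6, 1), (6, 8), (7, 4), (7, 5), (8, 5), (8, 6)]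
    lev := [] }
  links := [[1, 4, 7, 3], [4, 0, 3, 8, 2, 9, 10, 11], [9, 1, 8, 12], [8, 1, 0, 7, 13], [7, 0, 1, 11, 14,
    5], [7, 4, 14, 6, 15, 13], [15, 5, 14, 12]]
  P := {
    a := 7
    N := 16
    nb := [154, 3869, 4866, 8579, 18595, 57552, 53280, 8249, 12302, 5126, 2562, 17426, 49988, 33192,
      6256, 12384]
    tri := [(0, 1, 3), (0, 1, 4), (0, 3, 7), (0, 4, 7), (1, 2, 8), (1, 2, 9), (1, 3, 8), (1, 4, 11),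
      (1, 9, 10), (1, 10, 11), (2, 8, 12), (2, 9, 12), (3, 7, 13), (3, 8, 13), (4, 5, 7), (4, 5,
      14), (4, 11, 14), (5, 6, 14), (5, 6, 15), (5, 7, 13), (5, 13, 15), (6, 12, 14), (6, 12, 15)]
    fin := [0, 1, 1, 0, 0, 5, 5, 5, 1, 9, 1, 11, 12, 0, 5, 15]
    chd := [(5, 15), (11, 0)]
    steps := [(0, 3), (0, 4), (1, 2), (1, 8), (1, 10), (5, 6), (5, 7), (0, 13), (5, 14)] }
  rep := [1, 11, 0, 5, 15, 9, 12]

noncomputable def v1801 : Cov.CovD where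
  P := 3
  N := 4
  pl := [2, 5]
  lev := [⟨[], [], [], [], [(0, 3, [4])]⟩,
    ⟨[], [(0, 0), (0, 1), (0, 3)], [(0, 0), (0, 1)], [5], [(1, 0, []), (3, 0, []), (4, 1,
      [2])]⟩,
    ⟨[(0, 1)], [(1, 0), (1, 1)], [], [5, 6], [(1, 0, [])]⟩,
    ⟨[(0, 1), (1, 2)], [(0, 0), (0, 2), (0, 3), (1, 0), (1, 1), (1, 2), (1, 3), (2, 0)],
      [(0, 2), (0, 3), (2, 3)], [], [(0, 3, [4]), (1, 0, []), (6, 2, [1])]⟩,
    ⟨[(0, 1), (0, 3), (1, 2), (1, 3)], [(0, 1), (0, 3), (1, 0), (1, 1), (1, 3), (3, 3)],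
      [(1, 3), (3, 3)], [], [(0, 3, [4]), (4, 1, [2]), (7, 3, [4])]⟩,
    ⟨[(0, 4), (1, 4)], [(0, 3), (3, 2), (3, 3), (4, 1), (4, 2), (4, 3), (4, 4)], [(2, 3),
      (2, 4), (3, 3), (3, 4)], [], [(0, 3, [4]), (6, 2, [1]), (7, 3, [4]), (8, 4, [3])]⟩,
    ⟨[(4, 5)], [(4, 3), (5, 2), (5, 3), (5, 4)], [(3, 4)], [6], [(7, 3, [4]), (8, 4, [3])]⟩]
  Ta := [((0, 6), 3, 2), ((1, 5), 0, 6), ((1, 6), 0, 2), ((3, 2), 0, 5), ((3, 4), 0, 1), ((7, 4),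
    3, 1), ((7, 5), 3, 6)]
  Tb := [((1, 5, 6), 0, 6, 2), ((2, 3, 5), 5, 0, 6), ((3, 2, 4), 0, 5, 1), ((4, 3, 7), 1, 0, 3),
    ((5, 1, 2), 6, 0, 5), ((5, 1, 7), 6, 0, 3), ((5, 1, 8), 6, 0, 4), ((5, 2, 7), 6, 5, 3),
    ((5, 2, 8), 6, 5, 4), ((5, 7, 8), 6, 3, 4), ((6, 0, 1), 2, 3, 0), ((6, 0, 8), 2, 3, 4),
    ((6, 1, 8), 2, 0, 4), ((7, 4, 5), 3, 1, 6), ((8, 5, 6), 4, 6, 2)]
  Tc := []
  Td := [((1, 2), (4, 3), 0), ((1, 2), (4, 7), 3), ((2, 1), (6, 0), 3), ((2, 1), (6, 1), 0), ((2,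
    1), (6, 8), 4), ((3, 4), (0, 6), 2), ((3, 4), (7, 4), 1), ((3, 4), (7, 5), 6), ((4, 3),
    (8, 5), 6), ((4, 3), (8, 6), 2)]
  G := [[0, 0, 0x411e1214a12a411e12116146c2, 0x128d222492441248a52884c41883242922a92144a7,
    0x81a6835221348c2a14a48392828b426c2], [0, 0, 0x111e141411a54a1811698811e186c1,
    0x863d22221d22aa41d22822d286c1, 0x5431844865b42421b42a7ca82821b486c3], [0,
    0x4192a154c161988152c1c1, 0, 0x3812c821c1292444218952884c6,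
    0x198b4241318c2941a88191b425c2], [0, 0xa61d241a61d281a1, 0, 0xa61d24128215a22c252984e1,
    0x841b42421b42ac61b481c1]]

noncomputable def n1801 : Ent := ⟨e1801, noF, [], [], []⟩

def c1801 : PLift (Cov.check n1801.C.D v1801 = true) := ⟨by decide +kernel⟩

def b1801 : PLift (entF (fidx ts) 400 1801 n1801 = true) := ⟨by decide +kernel⟩

theorem g1801 : GoodF (fidx ts) 400 1801 := GoodF.ofV v1801 n1801 c1801.down b1801.down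

/-- 4845664:1541/3 -/
noncomputable def e1802 : SCfg where
  D := {
    a := 7
    L := 9
    kp := 6
    inn := [(0, 1), (0, 3), (0, 4), (1, 0), (1, 2), (1, 3), (1, 4), (2, 1), (3, 0), (3, 1), (4, 0), (4,
      1), (4, 5), (5, 4), (5, 6), (6, 5)]
    mix := [(0, 0), (1, 1), (1, 2), (1, 3), (1, 4), (2, 1), (2, 2), (2, 5), (3, 0), (3, 1), (3, 6), (4,
      0), (4, 4), (4, 7), (5, 0), (5, 5), (5, 6), (5, 7), (6, 5), (6, 7), (6, 8)]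
    cl := [0, 1, 3, 5, 1, 2, 4, 0, 6]
    chq := [(0, 2), (2, 0), (2, 5), (5, 2)]
    rng := [(0, 6), (1, 5), (1, 6), (2, 3), (2, 5), (3, 2), (3, 4), (4, 3), (4, 7), (5, 1), (5, 2), (5,
      6), (5, 8), (6, 0), (6, 1), (6, 5), (7, 4), (7, 8), (8, 5), (8, 7)]
    lev := [] }
  links := [[1, 4, 7, 3], [4, 0, 3, 8, 2, 9, 10, 11], [9, 1, 8, 12], [8, 1, 0, 7, 13], [7, 0, 1, 11, 14,
    5], [7, 4, 14, 6, 12, 13], [12, 5, 14, 15]]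
  P := {
    a := 7
    N := 16
    nb := [154, 3869, 4866, 8579, 18595, 28880, 53280, 8249, 12302, 5126, 2562, 17426, 41828, 4520,
      34928, 20544]
    tri := [(0, 1, 3), (0, 1, 4), (0, 3, 7), (0, 4, 7), (1, 2, 8), (1, 2, 9), (1, 3, 8), (1, 4, 11),
      (1, 9, 10), (1, 10, 11), (2, 8, 12), (2, 9, 12), (3, 7, 13), (3, 8, 13), (4, 5, 7), (4, 5,
      14), (4, 11, 14), (5, 6, 12), (5, 6, 14), (5, 7, 13), (5, 12, 13), (6, 12, 15), (6, 14, 15)]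
    fin := [0, 1, 1, 0, 0, 5, 5, 5, 0, 9, 10, 0, 1, 13, 5, 15]
    chd := [(5, 1), (10, 1)]
    steps := [(0, 3), (0, 4), (0, 8), (0, 11), (1, 2), (1, 12), (5, 6), (5, 7), (5, 14)] }
  rep := [5, 0, 1, 9, 13, 10, 15]

noncomputable def v1802 : Cov.CovD where
  P := 3
  N := 4
  pl := [2, 6, 8]
  lev := [⟨[], [], [], [], [(0, 0, [2])]⟩,
    ⟨[], [(0, 0), (0, 1), (0, 5)], [(1, 1), (1, 5)], [3], [(1, 1, []), (3, 5, [2]), (4, 1,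
      [])]⟩,
    ⟨[(0, 1)], [(1, 1), (1, 2), (1, 5)], [(1, 2)], [3], [(1, 1, []), (5, 2, [0, 5])]⟩,
    ⟨[(0, 1), (1, 2)], [(0, 0), (0, 1), (1, 0), (1, 1), (1, 5), (2, 1)], [(0, 1)], [4],
      [(0, 0, [2]), (1, 1, [])]⟩,
    ⟨[(0, 1), (0, 3), (1, 2), (1, 3)], [(0, 0), (0, 1), (1, 0), (1, 1), (1, 5), (3, 0)],
      [(0, 0), (0, 1)], [], [(0, 0, [2]), (4, 1, []), (7, 0, [2])]⟩,
    ⟨[(0, 4), (1, 4)], [(0, 0), (2, 2), (3, 0), (4, 0), (4, 1), (4, 2)], [(0, 0), (0, 2)],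
      [4], [(0, 0, [2]), (5, 2, [0, 5]), (7, 0, [2])]⟩,
    ⟨[(4, 5)], [(2, 2), (4, 0), (5, 0), (5, 2)], [(0, 2)], [6], [(5, 2, [0, 5]), (7, 0,
      [2])]⟩]
  Ta := [((0, 6), 0, 4), ((1, 5), 1, 2), ((1, 6), 1, 4), ((4, 3), 1, 5), ((4, 7), 1, 0), ((7, 4),
    0, 1), ((7, 8), 0, 6)]
  Tb := [((1, 5, 6), 1, 2, 4), ((2, 3, 5), 3, 5, 2), ((3, 2, 4), 5, 3, 1), ((4, 3, 7), 1, 5, 0),
    ((5, 1, 2), 2, 1, 3), ((5, 1, 6), 2, 1, 4), ((5, 1, 8), 2, 1, 6), ((5, 2, 6), 2, 3, 4),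
    ((5, 2, 8), 2, 3, 6), ((5, 6, 8), 2, 4, 6), ((6, 0, 1), 4, 0, 1), ((6, 0, 5), 4, 0, 2),
    ((6, 1, 5), 4, 1, 2), ((7, 4, 8), 0, 1, 6), ((8, 5, 7), 6, 2, 0)]
  Tc := [(2, 0, 5)]
  Td := [((0, 2), (0, 6), 4), ((0, 2), (7, 4), 1), ((0, 2), (7, 8), 6), ((2, 0), (5, 1), 1), ((2,
    0), (5, 2), 3), ((2, 0), (5, 6), 4), ((2, 0), (5, 8), 6), ((2, 5), (5, 1), 1), ((2, 5),
    (5, 2), 3), ((2, 5), (5, 6), 4), ((2, 5), (5, 8), 6), ((5, 2), (3, 2), 3), ((5, 2), (3,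
    4), 1)]
  G := [[0, 0, 0x682c48cc84c42cc14, 0x144418481848d148418881484d184144c1d2,
    0x11a448188128c188128c911a441d2], [0, 0, 0x6242a242c14, 0, 0x1244112821282912442d8], [0,
    0, 0xa82a48c688a48cc14, 0xccc214c84c42c15ccc2188c, 0xaaa411a2a8a1a2a8a19a2a8641d8], [0,
    0xccc228c4c8a24c484c84c48c9e1, 0x6282c282c14, 0, 0xa2812a24215a242189]]

noncomputable def n1802 : Ent := ⟨e1802, noF, [], [], []⟩

def c1802 : PLift (Cov.check n1802.C.D v1802 = true) := ⟨by decide +kernel⟩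

def b1802 : PLift (entF (fidx ts) 400 1802 n1802 = true) := ⟨by decide +kernel⟩

theorem g1802 : GoodF (fidx ts) 400 1802 := GoodF.ofV v1802 n1802 c1802.down b1802.down

/-- 4845664:1541/1 -/
noncomputable def e1803 : SCfg where
  D := {
    a := 7
    L := 10
    kp := 7
    inn := [(0, 1), (0, 3), (0, 4), (1, 0), (1, 2), (1, 3), (1, 4), (2, 1), (3, 0), (3, 1), (4, 0), (4,
      1), (4, 5), (5, 4), (5, 6), (6, 5)]
    mix := [(0, 0), (1, 1), (1, 2), (1, 3), (1, 4), (2, 1), (2, 2), (2, 5), (3, 0), (3, 1), (3, 6), (4,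
      0), (4, 4), (4, 7), (5, 0), (5, 6), (5, 7), (5, 8), (6, 7), (6, 8), (6, 9)]
    cl := [0, 1, 2, 5, 1, 6, 4, 0, 3, 7]
    chq := [(0, 3), (3, 0), (5, 6), (6, 5)]
    rng := [(0, 6), (1, 5), (1, 6), (2, 3), (2, 5), (3, 2), (3, 4), (4, 3), (4, 7), (5, 1), (5, 2), (6,
      0), (6, 1), (6, 8), (7, 4), (7, 9), (8, 6), (8, 9), (9, 7), (9, 8)]
    lev := [] }
  links := [[1, 4, 7, 3], [4, 0, 3, 8, 2, 9, 10, 11], [9, 1, 8, 12], [8, 1, 0, 7, 13], [7, 0, 1, 11, 14,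
    5], [7, 4, 14, 6, 15, 13], [15, 5, 14, 16]]
  P := {
    a := 7
    N := 17
    nb := [154, 3869, 4866, 8579, 18595, 57552, 114720, 8249, 12302, 5126, 2562, 17426, 772, 33192,
      67696, 73824, 49216]
    tri := [(0, 1, 3), (0, 1, 4), (0, 3, 7), (0, 4, 7), (1, 2, 8), (1, 2, 9), (1, 3, 8), (1, 4, 11),
      (1, 9, 10), (1, 10, 11), (2, 8, 12), (2, 9, 12), (3, 7, 13), (3, 8, 13), (4, 5, 7), (4, 5,
      14), (4, 11, 14), (5, 6, 14), (5, 6, 15), (5, 7, 13), (5, 13, 15), (6, 14, 16), (6, 15, 16)]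
    fin := [0, 1, 1, 0, 0, 5, 5, 5, 0, 9, 10, 0, 1, 13, 5, 15, 16]
    chd := [(5, 15), (10, 1)]
    steps := [(0, 3), (0, 4), (0, 8), (0, 11), (1, 2), (1, 12), (5, 6), (5, 7), (5, 14)] }
  rep := [5, 0, 9, 15, 13, 10, 1, 16]

noncomputable def v1803 : Cov.CovD where
  P := 3
  N := 5
  pl := [2, 6, 9]
  lev := [⟨[], [], [], [], [(0, 0, [3])]⟩,
    ⟨[], [(0, 0), (0, 1), (0, 5)], [(1, 1), (1, 5)], [2], [(1, 1, []), (3, 5, [6]), (4, 1,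
      [])]⟩,
    ⟨[(0, 1)], [(1, 1), (1, 5), (1, 6)], [(1, 6)], [2], [(1, 1, []), (5, 6, [5])]⟩,
    ⟨[(0, 1), (1, 2)], [(0, 0), (0, 1), (1, 0), (1, 1), (1, 5), (2, 1)], [(0, 1)], [4],
      [(0, 0, [3]), (1, 1, [])]⟩,
    ⟨[(0, 1), (0, 3), (1, 2), (1, 3)], [(0, 0), (0, 1), (1, 0), (1, 1), (1, 5), (3, 0)],
      [(0, 0), (0, 1)], [], [(0, 0, [3]), (4, 1, []), (7, 0, [3])]⟩,
    ⟨[(0, 4), (1, 4)], [(0, 0), (3, 0), (4, 0), (4, 1), (4, 3)], [(0, 0), (0, 3)], [4],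
      [(0, 0, [3]), (7, 0, [3]), (8, 3, [0])]⟩,
    ⟨[(4, 5)], [(4, 0), (5, 0), (5, 3)], [(0, 3)], [7], [(7, 0, [3]), (8, 3, [0])]⟩]
  Ta := [((0, 6), 0, 4), ((1, 5), 1, 6), ((1, 6), 1, 4), ((4, 3), 1, 5), ((4, 7), 1, 0), ((7, 4),
    0, 1), ((7, 9), 0, 7)]
  Tb := [((1, 5, 6), 1, 6, 4), ((2, 3, 5), 2, 5, 6), ((3, 2, 4), 5, 2, 1), ((4, 3, 7), 1, 5, 0),
    ((5, 1, 2), 6, 1, 2), ((6, 0, 1), 4, 0, 1), ((6, 0, 8), 4, 0, 3), ((6, 1, 8), 4, 1, 3),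
    ((7, 4, 9), 0, 1, 7), ((8, 6, 9), 3, 4, 7), ((9, 7, 8), 7, 0, 3)]
  Tc := []
  Td := [((0, 3), (0, 6), 4), ((0, 3), (7, 4), 1), ((0, 3), (7, 9), 7), ((3, 0), (8, 6), 4), ((3,
    0), (8, 9), 7), ((5, 6), (3, 2), 2), ((5, 6), (3, 4), 1), ((6, 5), (5, 1), 1), ((6, 5),
    (5, 2), 2)]
  G := [[0, 0, 0x96a43a68c471a81a68c8c2, 0xb1a41a64c416a8e168c8c2, 0xb1a49364c116a4d168c892],
    [0, 0, 0x11ee42495698c28c8, 0x1b618c2111ee42458, 0x11be428116a41a64c28a], [0, 0,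
    0xe2eec6146eee88a18c4, 0xe2eec614ee6e8a18c8, 0xe8ee64611e6a4ea68c898],
    [0xaec2cea464e6c2ce68a8c4, 0xaec2cea461e6c2ce68a1c2, 0xc4ceac12ce6c8c12c2,
    0xc4ceac21c4ceac2894, 0xc4ceac12c4ceac2894]]

noncomputable def n1803 : Ent := ⟨e1803, noF, [], [], [(12, 16, [1580044410770988437309982408355971841652082177953823432505696489473, 0]), (12, 15, [1685356702439545624007900436039642273970977273354372543760007471105, 0])]⟩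

def c1803 : PLift (Cov.check n1803.C.D v1803 = true) := ⟨by decide +kernel⟩

def b1803 : PLift (entF (fidx ts) 400 1803 n1803 = true) := ⟨by decide +kernel⟩

theorem g1803 : GoodF (fidx ts) 400 1803 := GoodF.ofV v1803 n1803 c1803.down b1803.down

/-- 4845664:1541/4 -/
noncomputable def e1804 : SCfg where
  D := {
    a := 7
    L := 10
    kp := 7
    inn := [(0, 1), (0, 3), (0, 4), (1, 0), (1, 2), (1, 3), (1, 4), (2, 1), (3, 0), (3, 1), (4, 0), (4,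
      1), (4, 5), (5, 4), (5, 6), (6, 5)]
    mix := [(0, 0), (1, 1), (1, 2), (1, 3), (1, 4), (2, 1), (2, 2), (2, 5), (3, 0), (3, 1), (3, 6), (4,
      0), (4, 4), (4, 7), (5, 0), (5, 7), (5, 8), (5, 9), (6, 5), (6, 7), (6, 8)]
    cl := [0, 1, 2, 5, 1, 3, 6, 0, 4, 7]
    chq := [(0, 4), (3, 5), (4, 0), (5, 3)]
    rng := [(0, 6), (0, 9), (1, 5), (1, 6), (2, 3), (2, 5), (3, 2), (3, 4), (4, 3), (4, 7), (5, 1), (5,
      2), (5, 7), (5, 8), (6, 0), (6, 1), (7, 4), (7, 5), (8, 5), (8, 9), (9, 0), (9, 8)]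
    lev := [] }
  links := [[1, 4, 7, 3], [4, 0, 3, 8, 2, 9, 10, 11], [9, 1, 8, 12], [8, 1, 0, 7, 13], [7, 0, 1, 11, 14,
    5], [7, 4, 14, 6, 15, 16], [15, 5, 14, 12]]
  P := {
    a := 7
    N := 17
    nb := [154, 3869, 4866, 8579, 18595, 114896, 53280, 73785, 12302, 5126, 2562, 17426, 49988, 392,
      6256, 69728, 32928]
    tri := [(0, 1, 3), (0, 1, 4), (0, 3, 7), (0, 4, 7), (1, 2, 8), (1, 2, 9), (1, 3, 8), (1, 4, 11),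
      (1, 9, 10), (1, 10, 11), (2, 8, 12), (2, 9, 12), (3, 7, 13), (3, 8, 13), (4, 5, 7), (4, 5,
      14), (4, 11, 14), (5, 6, 14), (5, 6, 15), (5, 7, 16), (5, 15, 16), (6, 12, 14), (6, 12, 15)]
    fin := [0, 1, 1, 0, 0, 5, 5, 5, 0, 9, 10, 0, 1, 13, 5, 15, 16]
    chd := [(5, 15), (10, 1)]
    steps := [(0, 3), (0, 4), (0, 8), (0, 11), (1, 2), (1, 12), (5, 6), (5, 7), (5, 14)] }
  rep := [5, 0, 9, 1, 15, 10, 13, 16]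

noncomputable def v1804 : Cov.CovD where
  P := 3
  N := 5
  pl := [2, 6, 9]
  lev := [⟨[], [], [], [], [(0, 0, [4])]⟩,
    ⟨[], [(0, 0), (0, 1), (0, 5)], [(1, 1), (1, 5)], [2], [(1, 1, []), (3, 5, [3]), (4, 1,
      [])]⟩,
    ⟨[(0, 1)], [(1, 1), (1, 3), (1, 5)], [(1, 3)], [2], [(1, 1, []), (5, 3, [5])]⟩,
    ⟨[(0, 1), (1, 2)], [(0, 0), (0, 1), (1, 0), (1, 1), (1, 5), (2, 1)], [(0, 1)], [6],
      [(0, 0, [4]), (1, 1, [])]⟩,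
    ⟨[(0, 1), (0, 3), (1, 2), (1, 3)], [(0, 0), (0, 1), (1, 0), (1, 1), (1, 5), (3, 0)],
      [(0, 0), (0, 1)], [], [(0, 0, [4]), (4, 1, []), (7, 0, [4])]⟩,
    ⟨[(0, 4), (1, 4)], [(0, 0), (3, 0), (4, 0), (4, 1), (4, 4)], [(0, 0), (0, 4)], [7],
      [(0, 0, [4]), (7, 0, [4]), (8, 4, [0])]⟩,
    ⟨[(4, 5)], [(2, 3), (4, 0), (5, 0), (5, 3), (5, 4)], [(0, 3), (0, 4), (3, 4)], [], [(5,
      3, [5]), (7, 0, [4]), (8, 4, [0])]⟩]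
  Ta := [((0, 6), 0, 6), ((0, 9), 0, 7), ((1, 5), 1, 3), ((1, 6), 1, 6), ((4, 3), 1, 5), ((4, 7),
    1, 0), ((7, 4), 0, 1), ((7, 5), 0, 3)]
  Tb := [((0, 6, 9), 0, 6, 7), ((1, 5, 6), 1, 3, 6), ((2, 3, 5), 2, 5, 3), ((3, 2, 4), 5, 2, 1),
    ((4, 3, 7), 1, 5, 0), ((5, 1, 2), 3, 1, 2), ((5, 1, 7), 3, 1, 0), ((5, 1, 8), 3, 1, 4),
    ((5, 2, 7), 3, 2, 0), ((5, 2, 8), 3, 2, 4), ((5, 7, 8), 3, 0, 4), ((6, 0, 1), 6, 0, 1),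
    ((7, 4, 5), 0, 1, 3), ((8, 5, 9), 4, 3, 7), ((9, 0, 8), 7, 0, 4)]
  Tc := []
  Td := [((0, 4), (0, 6), 6), ((0, 4), (0, 9), 7), ((0, 4), (7, 4), 1), ((0, 4), (7, 5), 3), ((3,
    5), (5, 1), 1), ((3, 5), (5, 2), 2), ((3, 5), (5, 7), 0), ((3, 5), (5, 8), 4), ((4, 0),
    (8, 5), 3), ((4, 0), (8, 9), 7), ((5, 3), (3, 2), 2), ((5, 3), (3, 4), 1)]
  G := [[0, 0, 0x515e4593e4c493658c199e8c8c2, 0x132e4132e4c1132e8312e8c1c2,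
    0x935e4e1be4c1199e8199e8c192], [0, 0, 0x312e4243412ac28c8, 0x32618c2142618c2458,
    0x3412ac21192e82194], [0, 0, 0xeeae4614ee688a18c4, 0x22eec614228aca18c4,
    0xeeae4611ee688ae28ecac894], [0xe2e4c644eeac64e28ec6ee688ca8c2,
    0xe2e4c6eea44661e48eac8eae46a1c1, 0x4462ac128a2688c1246, 0xe4e2ac21e482ac2894,
    0xe4e2ac12e2688c2894]]

noncomputable def n1804 : Ent := ⟨e1804, noF, [], [], [(13, 16, [1580044410770988437309982408355971841652082177953823432505696489473, 0])]⟩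

def c1804 : PLift (Cov.check n1804.C.D v1804 = true) := ⟨by decide +kernel⟩

def b1804 : PLift (entF (fidx ts) 400 1804 n1804 = true) := ⟨by decide +kernel⟩

theorem g1804 : GoodF (fidx ts) 400 1804 := GoodF.ofV v1804 n1804 c1804.down b1804.down

/-- 4845664:1541/5 -/
noncomputable def e1805 : SCfg where
  D := {
    a := 7
    L := 10
    kp := 7
    inn := [(0, 1), (0, 3), (0, 4), (1, 0), (1, 2), (1, 3), (1, 4), (2, 1), (3, 0), (3, 1), (4, 0), (4,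
      1), (4, 5), (5, 4), (5, 6), (6, 5)]
    mix := [(0, 0), (1, 1), (1, 2), (1, 3), (1, 4), (2, 1), (2, 2), (2, 5), (3, 0), (3, 1), (3, 6), (4,
      0), (4, 4), (4, 7), (5, 0), (5, 5), (5, 7), (5, 8), (6, 5), (6, 7), (6, 9)]
    cl := [0, 1, 3, 4, 1, 2, 5, 0, 6, 7]
    chq := [(0, 2), (2, 0), (2, 4), (4, 2)]
    rng := [(0, 6), (0, 8), (1, 5), (1, 6), (2, 3), (2, 5), (3, 2), (3, 4), (4, 3), (4, 7), (5, 1), (5,
      2), (5, 8), (5, 9), (6, 0), (6, 1), (7, 4), (7, 9), (8, 0), (8, 5), (9, 5), (9, 7)]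
    lev := [] }
  links := [[1, 4, 7, 3], [4, 0, 3, 8, 2, 9, 10, 11], [9, 1, 8, 12], [8, 1, 0, 7, 13], [7, 0, 1, 11, 14,
    5], [7, 4, 14, 6, 12, 15], [12, 5, 14, 16]]
  P := {
    a := 7
    N := 17
    nb := [154, 3869, 4866, 8579, 18595, 53456, 86048, 41017, 12302, 5126, 2562, 17426, 99172, 392,
      67696, 4256, 20544]
    tri := [(0, 1, 3), (0, 1, 4), (0, 3, 7), (0, 4, 7), (1, 2, 8), (1, 2, 9), (1, 3, 8), (1, 4, 11),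
      (1, 9, 10), (1, 10, 11), (2, 8, 12), (2, 9, 12), (3, 7, 13), (3, 8, 13), (4, 5, 7), (4, 5,
      14), (4, 11, 14), (5, 6, 12), (5, 6, 14), (5, 7, 15), (5, 12, 15), (6, 12, 16), (6, 14, 16)]
    fin := [0, 1, 1, 0, 0, 5, 5, 5, 0, 9, 10, 0, 1, 13, 5, 15, 16]
    chd := [(5, 1), (10, 1)]
    steps := [(0, 3), (0, 4), (0, 8), (0, 11), (1, 2), (1, 12), (5, 6), (5, 7), (5, 14)] }
  rep := [5, 0, 1, 9, 10, 13, 15, 16]

noncomputable def v1805 : Cov.CovD where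
  P := 3
  N := 5
  pl := [2, 6, 8, 9]
  lev := [⟨[], [], [], [], [(0, 0, [2])]⟩,
    ⟨[], [(0, 0), (0, 1), (0, 4)], [(1, 1), (1, 4)], [3], [(1, 1, []), (3, 4, [2]), (4, 1,
      [])]⟩,
    ⟨[(0, 1)], [(1, 1), (1, 2), (1, 4)], [(1, 2)], [3], [(1, 1, []), (5, 2, [0, 4])]⟩,
    ⟨[(0, 1), (1, 2)], [(0, 0), (0, 1), (1, 0), (1, 1), (1, 4), (2, 1)], [(0, 1)], [5],
      [(0, 0, [2]), (1, 1, [])]⟩,
    ⟨[(0, 1), (0, 3), (1, 2), (1, 3)], [(0, 0), (0, 1), (1, 0), (1, 1), (1, 4), (3, 0)],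
      [(0, 0), (0, 1)], [], [(0, 0, [2]), (4, 1, []), (7, 0, [2])]⟩,
    ⟨[(0, 4), (1, 4)], [(0, 0), (2, 2), (3, 0), (4, 0), (4, 1), (4, 2)], [(0, 0), (0, 2)],
      [6], [(0, 0, [2]), (5, 2, [0, 4]), (7, 0, [2])]⟩,
    ⟨[(4, 5)], [(2, 2), (4, 0), (5, 0), (5, 2)], [(0, 2)], [7], [(5, 2, [0, 4]), (7, 0,
      [2])]⟩]
  Ta := [((0, 6), 0, 5), ((0, 8), 0, 6), ((1, 5), 1, 2), ((1, 6), 1, 5), ((4, 3), 1, 4), ((4, 7),
    1, 0), ((7, 4), 0, 1), ((7, 9), 0, 7)]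
  Tb := [((0, 6, 8), 0, 5, 6), ((1, 5, 6), 1, 2, 5), ((2, 3, 5), 3, 4, 2), ((3, 2, 4), 4, 3, 1),
    ((4, 3, 7), 1, 4, 0), ((5, 1, 2), 2, 1, 3), ((5, 1, 8), 2, 1, 6), ((5, 1, 9), 2, 1, 7),
    ((5, 2, 8), 2, 3, 6), ((5, 2, 9), 2, 3, 7), ((5, 8, 9), 2, 6, 7), ((6, 0, 1), 5, 0, 1),
    ((7, 4, 9), 0, 1, 7), ((8, 0, 5), 6, 0, 2), ((9, 5, 7), 7, 2, 0)]
  Tc := [(2, 0, 4)]
  Td := [((0, 2), (0, 6), 5), ((0, 2), (0, 8), 6), ((0, 2), (7, 4), 1), ((0, 2), (7, 9), 7), ((2,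
    0), (5, 1), 1), ((2, 0), (5, 2), 3), ((2, 0), (5, 8), 6), ((2, 0), (5, 9), 7), ((2, 4),
    (5, 1), 1), ((2, 4), (5, 2), 3), ((2, 4), (5, 8), 6), ((2, 4), (5, 9), 7), ((4, 2), (3,
    2), 3), ((4, 2), (3, 4), 1)]
  G := [[0, 0, 0xccc2aac2cccc2a664cc18, 0x11c4411c4811c48d11c8411c8811c84d11c411c4c1d2,
    0x11a4411a48911a811a8c11a811a8c911a411a4c1d2], [0, 0, 0x6c682ac682c18, 0,
    0x11a42811a821911a811a8c246], [0, 0, 0xaaa4ccc2c66a4a668cc18,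
    0xccc2144ccc218ccc24cc88ac19c, 0xaaa411a2a8a1a2a8a19aaa4a2a8ac8d8], [0,
    0x8cc2244c4c8c4cc88ac12ccc24ccc28c4cc88a488a4ce, 0xcc68266682c18, 0,
    0xa2a8c12aaa4215aaa4188c]]

noncomputable def n1805 : Ent := ⟨e1805, noF, [], [], [(13, 15, [1685356702439545624007900436039642273970977273354372543760007471105, 0])]⟩

def c1805 : PLift (Cov.check n1805.C.D v1805 = true) := ⟨by decide +kernel⟩

def b1805 : PLift (entF (fidx ts) 400 1805 n1805 = true) := ⟨by decide +kernel⟩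

theorem g1805 : GoodF (fidx ts) 400 1805 := GoodF.ofV v1805 n1805 c1805.down b1805.down

/-- 4845664:1541 -/
noncomputable def e1806 : SCfg where
  D := {
    a := 7
    L := 11
    kp := 8
    inn := [(0, 1), (0, 3), (0, 4), (1, 0), (1, 2), (1, 3), (1, 4), (2, 1), (3, 0), (3, 1), (4, 0), (4,
      1), (4, 5), (5, 4), (5, 6), (6, 5)]
    mix := [(0, 0), (1, 1), (1, 2), (1, 3), (1, 4), (2, 1), (2, 2), (2, 5), (3, 0), (3, 1), (3, 6), (4,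
      0), (4, 4), (4, 7), (5, 0), (5, 7), (5, 8), (5, 9), (6, 7), (6, 8), (6, 10)]
    cl := [0, 1, 2, 4, 1, 5, 6, 0, 3, 7, 8]
    chq := [(0, 3), (3, 0), (4, 5), (5, 4)]
    rng := [(0, 6), (0, 9), (1, 5), (1, 6), (2, 3), (2, 5), (3, 2), (3, 4), (4, 3), (4, 7), (5, 1), (5,
      2), (6, 0), (6, 1), (7, 4), (7, 10), (8, 9), (8, 10), (9, 0), (9, 8), (10, 7), (10, 8)]
    lev := [] }
  links := [[1, 4, 7, 3], [4, 0, 3, 8, 2, 9, 10, 11], [9, 1, 8, 12], [8, 1, 0, 7, 13], [7, 0, 1, 11, 14,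
    5], [7, 4, 14, 6, 15, 16], [15, 5, 14, 17]]
  P := {
    a := 7
    N := 18
    nb := [154, 3869, 4866, 8579, 18595, 114896, 180256, 73785, 12302, 5126, 2562, 17426, 772, 392,
      133232, 196704, 32928, 49216]
    tri := [(0, 1, 3), (0, 1, 4), (0, 3, 7), (0, 4, 7), (1, 2, 8), (1, 2, 9), (1, 3, 8), (1, 4, 11),
      (1, 9, 10), (1, 10, 11), (2, 8, 12), (2, 9, 12), (3, 7, 13), (3, 8, 13), (4, 5, 7), (4, 5,
      14), (4, 11, 14), (5, 6, 14), (5, 6, 15), (5, 7, 16), (5, 15, 16), (6, 14, 17), (6, 15, 17)]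
    fin := [0, 1, 1, 0, 0, 5, 5, 5, 0, 9, 10, 0, 1, 13, 5, 15, 16, 17]
    chd := [(5, 15), (10, 1)]
    steps := [(0, 3), (0, 4), (0, 8), (0, 11), (1, 2), (1, 12), (5, 6), (5, 7), (5, 14)] }
  rep := [5, 0, 9, 15, 10, 1, 13, 16, 17]

noncomputable def v1806 : Cov.CovD where
  P := 3
  N := 6
  pl := [2, 6, 9, 10]
  lev := [⟨[], [], [], [], [(0, 0, [3])]⟩,
    ⟨[], [(0, 0), (0, 1), (0, 4)], [(1, 1), (1, 4)], [2], [(1, 1, []), (3, 4, [5]), (4, 1,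
      [])]⟩,
    ⟨[(0, 1)], [(1, 1), (1, 4), (1, 5)], [(1, 5)], [2], [(1, 1, []), (5, 5, [4])]⟩,
    ⟨[(0, 1), (1, 2)], [(0, 0), (0, 1), (1, 0), (1, 1), (1, 4), (2, 1)], [(0, 1)], [6],
      [(0, 0, [3]), (1, 1, [])]⟩,
    ⟨[(0, 1), (0, 3), (1, 2), (1, 3)], [(0, 0), (0, 1), (1, 0), (1, 1), (1, 4), (3, 0)],
      [(0, 0), (0, 1)], [], [(0, 0, [3]), (4, 1, []), (7, 0, [3])]⟩,
    ⟨[(0, 4), (1, 4)], [(0, 0), (3, 0), (4, 0), (4, 1), (4, 3)], [(0, 0), (0, 3)], [7],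
      [(0, 0, [3]), (7, 0, [3]), (8, 3, [0])]⟩,
    ⟨[(4, 5)], [(4, 0), (5, 0), (5, 3)], [(0, 3)], [8], [(7, 0, [3]), (8, 3, [0])]⟩]
  Ta := [((0, 6), 0, 6), ((0, 9), 0, 7), ((1, 5), 1, 5), ((1, 6), 1, 6), ((4, 3), 1, 4), ((4, 7),
    1, 0), ((7, 4), 0, 1), ((7, 10), 0, 8)]
  Tb := [((0, 6, 9), 0, 6, 7), ((1, 5, 6), 1, 5, 6), ((2, 3, 5), 2, 4, 5), ((3, 2, 4), 4, 2, 1),
    ((4, 3, 7), 1, 4, 0), ((5, 1, 2), 5, 1, 2), ((6, 0, 1), 6, 0, 1), ((7, 4, 10), 0, 1, 8),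
    ((8, 9, 10), 3, 7, 8), ((9, 0, 8), 7, 0, 3), ((10, 7, 8), 8, 0, 3)]
  Tc := []
  Td := [((0, 3), (0, 6), 6), ((0, 3), (0, 9), 7), ((0, 3), (7, 4), 1), ((0, 3), (7, 10), 8),
    ((3, 0), (8, 9), 7), ((3, 0), (8, 10), 8), ((4, 5), (3, 2), 2), ((4, 5), (3, 4), 1), ((5,
    4), (5, 1), 1), ((5, 4), (5, 2), 2)]
  G := [[0, 0, 0x93ee4e17e4c41dee8539e8c8c2, 0x593e4bb1e4c1395e893ee4c892,
    0x35a9463295cac1359e853ee8c894], [0, 0, 0x935e42435698c28c8, 0x539e421935e42898,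
    0x395e421bb1e42898], [0, 0, 0xeeae4614e2eeca18c8, 0xe2eec614ee6e8a18c4,
    0xeeae4611e2eecae2eecac894], [0xe2eecaee6e8a62eeae46ee6e8cc468,
    0xe2eec644eaeec61e2eecaee6e8ca1c2, 0xe4eeac126eee88c12c2, 0xee6e8c116eee88c2894,
    0xe4eeac12ee6e8c2894]]

noncomputable def n1806 : Ent := ⟨e1806, noF, [], [], [(13, 16, [7334685537875745012586738086077695515070955365108989538292687701061633, 0]), (12, 17, [6903326391201334775872065844685381424292761054348340378595029937078273, 0]), (12, 15, [7334790850167413569773436004105379185503274260204390087403942012047361, 0])]⟩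

def c1806 : PLift (Cov.check n1806.C.D v1806 = true) := ⟨by decide +kernel⟩

def b1806 : PLift (entF (fidx ts) 400 1806 n1806 = true) := ⟨by decide +kernel⟩

theorem g1806 : GoodF (fidx ts) 400 1806 := GoodF.ofV v1806 n1806 c1806.down b1806.down

/-- 4845664:1542/2 -/
noncomputable def e1807 : SCfg where
  D := {
    a := 7
    L := 9
    kp := 6
    inn := [(0, 1), (0, 3), (0, 4), (1, 0), (1, 2), (1, 3), (1, 4), (2, 1), (3, 0), (3, 1), (4, 0), (4,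
      1), (4, 5), (5, 4), (5, 6), (6, 5)]
    mix := [(0, 0), (1, 1), (1, 2), (1, 3), (1, 4), (2, 1), (2, 2), (2, 5), (3, 0), (3, 1), (3, 6), (4,
      0), (4, 4), (4, 7), (5, 0), (5, 5), (5, 7), (5, 8), (6, 0), (6, 6), (6, 8)]
    cl := [0, 1, 5, 1, 2, 0, 3, 4, 6]
    chq := [(2, 3), (3, 2), (3, 4), (4, 3)]
    rng := [(0, 6), (1, 5), (1, 6), (2, 3), (2, 5), (3, 2), (3, 4), (4, 3), (4, 7), (5, 1), (5, 2), (5,
      7), (5, 8), (6, 0), (6, 1), (6, 8), (7, 4), (7, 5), (8, 5), (8, 6)]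
    lev := [] }
  links := [[1, 4, 7, 3], [4, 0, 3, 8, 2, 9, 10, 11], [9, 1, 8, 12], [8, 1, 0, 7, 13], [7, 0, 1, 11, 14,
    5], [7, 4, 14, 12, 15, 6], [7, 5, 15, 13]]
  P := {
    a := 7
    N := 16
    nb := [154, 3869, 4866, 8579, 18595, 53456, 41120, 8313, 12302, 5126, 2562, 17426, 49956, 33224,
      6192, 12384]
    tri := [(0, 1, 3), (0, 1, 4), (0, 3, 7), (0, 4, 7), (1, 2, 8), (1, 2, 9), (1, 3, 8), (1, 4, 11),
      (1, 9, 10), (1, 10, 11), (2, 8, 12), (2, 9, 12), (3, 7, 13), (3, 8, 13), (4, 5, 7), (4, 5,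
      14), (4, 11, 14), (5, 6, 7), (5, 6, 15), (5, 12, 14), (5, 12, 15), (6, 7, 13), (6, 13, 15)]
    fin := [0, 1, 2, 0, 0, 2, 2, 2, 1, 9, 1, 11, 2, 0, 14, 15]
    chd := [(0, 14), (11, 0)]
    steps := [(0, 3), (0, 4), (0, 13), (1, 8), (1, 10), (2, 12), (2, 5), (2, 7), (2, 6)] }
  rep := [2, 1, 11, 0, 14, 9, 15]

noncomputable def v1807 : Cov.CovD where
  P := 3
  N := 4
  pl := [2, 8]
  lev := [⟨[], [], [], [], [(0, 0, [])]⟩,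
    ⟨[], [(0, 0), (0, 1), (0, 2)], [(1, 1), (1, 2)], [5], [(1, 1, []), (3, 1, []), (4, 2,
      [3])]⟩,
    ⟨[(0, 1)], [(1, 0), (1, 1), (1, 2)], [(0, 1)], [5], [(1, 1, []), (5, 0, [])]⟩,
    ⟨[(0, 1), (1, 2)], [(0, 0), (0, 1), (0, 3), (1, 0), (1, 1), (1, 2), (1, 3), (2, 1)],
      [(0, 1), (0, 3), (1, 3)], [], [(0, 0, []), (1, 1, []), (6, 3, [2, 4])]⟩,
    ⟨[(0, 1), (0, 3), (1, 2), (1, 3)], [(0, 0), (0, 2), (0, 4), (1, 0), (1, 1), (1, 2), (1,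
      4), (3, 0)], [(0, 2), (0, 4), (2, 4)], [], [(0, 0, []), (4, 2, [3]), (7, 4, [3])]⟩,
    ⟨[(0, 4), (1, 4)], [(0, 0), (2, 0), (3, 0), (4, 0), (4, 2), (4, 4)], [(0, 0), (0, 4)],
      [6], [(0, 0, []), (5, 0, []), (7, 4, [3])]⟩,
    ⟨[(4, 5)], [(0, 0), (3, 0), (3, 3), (4, 0), (5, 0), (5, 3), (5, 4)], [(0, 3)], [6],
      [(0, 0, []), (6, 3, [2, 4])]⟩]
  Ta := [((0, 6), 0, 3), ((1, 5), 1, 0), ((1, 6), 1, 3), ((3, 2), 1, 5), ((3, 4), 1, 2), ((5, 1),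
    0, 1), ((5, 2), 0, 5), ((5, 7), 0, 4), ((5, 8), 0, 6)]
  Tb := [((1, 5, 6), 1, 0, 3), ((2, 3, 5), 5, 1, 0), ((3, 2, 4), 1, 5, 2), ((4, 3, 7), 2, 1, 4),
    ((5, 1, 2), 0, 1, 5), ((5, 1, 7), 0, 1, 4), ((5, 1, 8), 0, 1, 6), ((5, 2, 7), 0, 5, 4),
    ((5, 2, 8), 0, 5, 6), ((5, 7, 8), 0, 4, 6), ((6, 0, 1), 3, 0, 1), ((6, 0, 8), 3, 0, 6),
    ((6, 1, 8), 3, 1, 6), ((7, 4, 5), 4, 2, 0), ((8, 5, 6), 6, 0, 3)]
  Tc := [(3, 2, 4)]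
  Td := [((2, 3), (4, 3), 1), ((2, 3), (4, 7), 4), ((3, 2), (6, 0), 0), ((3, 2), (6, 1), 1), ((3,
    2), (6, 8), 6), ((3, 4), (6, 0), 0), ((3, 4), (6, 1), 1), ((3, 4), (6, 8), 6), ((4, 3),
    (7, 4), 2), ((4, 3), (7, 5), 0)]
  G := [[0, 0, 0x6ca24188a2e44428cc1a42ea84e64ce8c1ca, 0, 0x8c6288228c16a2e846acee4a4c1a], [0,
    0, 0x284a8e62e268296a2ea86a21c4, 0x482e442a8c212, 0x62c8c6a262c8c6a2c14], [0,
    0xc216a2e1688e61111e8a4c2, 0xa4ac6a1441224886a2e4861868814ce, 0,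
    0x82284111c2ece348316e14a449a], [0, 0, 0x6a2e64a6286a2ea86a24c1, 0x482e1288186412a8c216,
    0x11662c328612e94a2494]]

noncomputable def n1807 : Ent := ⟨e1807, noF, [], [], []⟩

def c1807 : PLift (Cov.check n1807.C.D v1807 = true) := ⟨by decide +kernel⟩

def b1807 : PLift (entF (fidx ts) 400 1807 n1807 = true) := ⟨by decide +kernel⟩

theorem g1807 : GoodF (fidx ts) 400 1807 := GoodF.ofV v1807 n1807 c1807.down b1807.down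

/-- 4845664:1542/3 -/
noncomputable def e1808 : SCfg where
  D := {
    a := 7
    L := 9
    kp := 6
    inn := [(0, 1), (0, 3), (0, 4), (1, 0), (1, 2), (1, 3), (1, 4), (2, 1), (3, 0), (3, 1), (4, 0), (4,
      1), (4, 5), (5, 4), (5, 6), (6, 5)]
    mix := [(0, 0), (1, 1), (1, 2), (1, 3), (1, 4), (2, 1), (2, 2), (2, 5), (3, 0), (3, 1), (3, 6), (4,
      0), (4, 4), (4, 7), (5, 0), (5, 5), (5, 7), (5, 8), (6, 0), (6, 5), (6, 6)]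
    cl := [0, 1, 3, 5, 1, 2, 4, 0, 6]
    chq := [(0, 2), (2, 0), (2, 5), (5, 2)]
    rng := [(0, 6), (1, 5), (1, 6), (2, 3), (2, 5), (3, 2), (3, 4), (4, 3), (4, 7), (5, 1), (5, 2), (5,
      6), (5, 8), (6, 0), (6, 1), (6, 5), (7, 4), (7, 8), (8, 5), (8, 7)]
    lev := [] }
  links := [[1, 4, 7, 3], [4, 0, 3, 8, 2, 9, 10, 11], [9, 1, 8, 12], [8, 1, 0, 7, 13], [7, 0, 1, 11, 14,
    5], [7, 4, 14, 15, 12, 6], [7, 5, 12, 13]]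
  P := {
    a := 7
    N := 16
    nb := [154, 3869, 4866, 8579, 18595, 53456, 12448, 8313, 12302, 5126, 2562, 17426, 41828, 4552,
      34864, 20512]
    tri := [(0, 1, 3), (0, 1, 4), (0, 3, 7), (0, 4, 7), (1, 2, 8), (1, 2, 9), (1, 3, 8), (1, 4, 11),
      (1, 9, 10), (1, 10, 11), (2, 8, 12), (2, 9, 12), (3, 7, 13), (3, 8, 13), (4, 5, 7), (4, 5,
      14), (4, 11, 14), (5, 6, 7), (5, 6, 12), (5, 12, 15), (5, 14, 15), (6, 7, 13), (6, 12, 13)]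
    fin := [0, 1, 1, 0, 0, 5, 5, 5, 0, 9, 10, 0, 1, 13, 5, 15]
    chd := [(5, 1), (10, 1)]
    steps := [(0, 3), (0, 4), (0, 8), (0, 11), (1, 2), (1, 12), (5, 6), (5, 7), (5, 14)] }
  rep := [5, 0, 1, 9, 13, 10, 15]

noncomputable def v1808 : Cov.CovD where
  P := 3
  N := 4
  pl := [2, 6, 8]
  lev := [⟨[], [], [], [], [(0, 0, [2])]⟩,
    ⟨[], [(0, 0), (0, 1), (0, 5)], [(1, 1), (1, 5)], [3], [(1, 1, []), (3, 5, [2]), (4, 1,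
      [])]⟩,
    ⟨[(0, 1)], [(1, 1), (1, 2), (1, 5)], [(1, 2)], [3], [(1, 1, []), (5, 2, [0, 5])]⟩,
    ⟨[(0, 1), (1, 2)], [(0, 0), (0, 1), (1, 0), (1, 1), (1, 5), (2, 1)], [(0, 1)], [4],
      [(0, 0, [2]), (1, 1, [])]⟩,
    ⟨[(0, 1), (0, 3), (1, 2), (1, 3)], [(0, 0), (0, 1), (1, 0), (1, 1), (1, 5), (3, 0)],
      [(0, 0), (0, 1)], [], [(0, 0, [2]), (4, 1, []), (7, 0, [2])]⟩,
    ⟨[(0, 4), (1, 4)], [(0, 0), (2, 2), (3, 0), (4, 0), (4, 1), (4, 2)], [(0, 0), (0, 2)],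
      [6], [(0, 0, [2]), (5, 2, [0, 5]), (7, 0, [2])]⟩,
    ⟨[(4, 5)], [(0, 0), (2, 2), (3, 0), (4, 0), (5, 0), (5, 2)], [(0, 2)], [4], [(0, 0,
      [2]), (5, 2, [0, 5])]⟩]
  Ta := [((0, 6), 0, 4), ((1, 5), 1, 2), ((1, 6), 1, 4), ((4, 3), 1, 5), ((4, 7), 1, 0), ((7, 4),
    0, 1), ((7, 8), 0, 6)]
  Tb := [((1, 5, 6), 1, 2, 4), ((2, 3, 5), 3, 5, 2), ((3, 2, 4), 5, 3, 1), ((4, 3, 7), 1, 5, 0),
    ((5, 1, 2), 2, 1, 3), ((5, 1, 6), 2, 1, 4), ((5, 1, 8), 2, 1, 6), ((5, 2, 6), 2, 3, 4),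
    ((5, 2, 8), 2, 3, 6), ((5, 6, 8), 2, 4, 6), ((6, 0, 1), 4, 0, 1), ((6, 0, 5), 4, 0, 2),
    ((6, 1, 5), 4, 1, 2), ((7, 4, 8), 0, 1, 6), ((8, 5, 7), 6, 2, 0)]
  Tc := [(2, 0, 5)]
  Td := [((0, 2), (0, 6), 4), ((0, 2), (7, 4), 1), ((0, 2), (7, 8), 6), ((2, 0), (5, 1), 1), ((2,
    0), (5, 2), 3), ((2, 0), (5, 6), 4), ((2, 0), (5, 8), 6), ((2, 5), (5, 1), 1), ((2, 5),
    (5, 2), 3), ((2, 5), (5, 6), 4), ((2, 5), (5, 8), 6), ((5, 2), (3, 2), 3), ((5, 2), (3,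
    4), 1)]
  G := [[0, 0, 0x88a42468c886824c2cc14, 0x44c2488c2844c24d88c444c2c1544c2488846888c28d8c,
    0xaaa4488288c22a8c88a422a8c9aaa441d2], [0, 0, 0x22a4222c42c18, 0,
    0x22a4422228c222a42922a421d8], [0, 0, 0x88c244c2c28c444c2cc18,
    0xccc2144442c8c25881c241c2c19c, 0x11a441a2a8a1a2a8a191218c48d8], [0,
    0x11c2211418a2411c4288c484418c4de8, 0x2268222642c18, 0, 0x21a421122a41822a812ca]]

noncomputable def n1808 : Ent := ⟨e1808, noF, [], [], []⟩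

def c1808 : PLift (Cov.check n1808.C.D v1808 = true) := ⟨by decide +kernel⟩

def b1808 : PLift (entF (fidx ts) 400 1808 n1808 = true) := ⟨by decide +kernel⟩

theorem g1808 : GoodF (fidx ts) 400 1808 := GoodF.ofV v1808 n1808 c1808.down b1808.down

/-- The entries 1679 to 1808. -/
theorem rE11 : Rng (GoodF (fidx ts) 400) 1679 1809 :=
  (((((((((((((((((((((((((((((((((((((((((((((((((((((((((((((((((((((((((((((((((((((((((((((((((((((((((((((((((((((((((((((((((((Rng.nil _ 1679).snoc g1679 rfl).snoc g1680 rfl).snoc g1681 rfl).snoc g1682 rfl).snoc g1683 rfl).snoc g1684 rfl).snoc g1685 rfl).snoc g1686 rfl).snoc g1687 rfl).snoc g1688 rfl).snoc g1689 rfl).snoc g1690 rfl).snoc g1691 rfl).snoc g1692 rfl).snoc g1693 rfl).snoc g1694 rfl).snoc g1695 rfl).snoc g1696 rfl).snoc g1697 rfl).snoc g1698 rfl).snoc g1699 rfl).snoc g1700 rfl).snoc g1701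 rfl).snoc g1702 rfl).snoc g1703 rfl).snoc g1704 rfl).snoc g1705 rfl).snoc g1706 rfl).snoc g1707 rfl).snoc g1708 rfl).snoc g1709 rfl).snoc g1710 rfl).snoc g1711 rfl).snoc g1712 rfl).snoc g1713 rfl).snoc g1714 rfl).snoc g1715 rfl).snoc g1716 rfl).snoc g1717 rfl).snoc g1718 rfl).snoc g1719 rfl).snoc g1720 rfl).snoc g1721 rfl).snoc g1722 rfl).snoc g1723 rfl).snoc g1724 rfl).snoc g1725 rfl).snoc g1726 rfl).snoc g1727 rfl).snoc g1728 rfl).snoc g1729 rfl).snoc g1730 rfl).snoc g1731 rfl).snoc g1732 rfl).snoc g1733 rfl).snoc g1734 rfl).snoc g1735 rfl).snoc g1736 rfl).snoc g1737 rfl).snoc g1738 rfl).snoc g1739 rfl).snoc g1740 rfl).snoc g1741 rfl).snoc g1742 rfl).snoc g1743 rfl).snoc g1744 rfl).snoc g1745 rfl).snoc g1746 rfl).snoc g1747 rfl).snoc g1748 rfl).snoc g1749 rfl).snoc g1750 rfl).snoc g1751 rfl).snoc g1752 rfl).snoc g1753 rfl).snoc g1754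 rfl).snoc g1755 rfl).snoc g1756 rfl).snoc g1757 rfl).snoc g1758 rfl).snoc g1759 rfl).snoc g1760 rfl).snoc g1761 rfl).snoc g1762 rfl).snoc g1763 rfl).snoc g1764 rfl).snoc g1765 rfl).snoc g1766 rfl).snoc g1767 rfl).snoc g1768 rfl).snoc g1769 rfl).snoc g1770 rfl).snoc g1771 rfl).snoc g1772 rfl).snoc g1773 rfl).snoc g1774 rfl).snoc g1775 rfl).snoc g1776 rfl).snoc g1777 rfl).snoc g1778 rfl).snoc g1779 rfl).snoc g1780 rfl).snoc g1781 rfl).snoc g1782 rfl).snoc g1783 rfl).snoc g1784 rfl).snoc g1785 rfl).snoc g1786 rfl).snoc g1787 rfl).snoc g1788 rfl).snoc g1789 rfl).snoc g1790 rfl).snoc g1791 rfl).snoc g1792 rfl).snoc g1793 rfl).snoc g1794 rfl).snoc g1795 rfl).snoc g1796 rfl).snoc g1797 rfl).snoc g1798 rfl).snoc g1799 rfl).snoc g1800 rfl).snoc g1801 rfl).snoc g1802 rfl).snoc g1803 rfl).snoc g1804 rfl).snoc g1805 rfl).snoc g1806 rfl).snoc g1807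 rfl).snoc g1808 rfl)

end Pool.Agent.W986.ST.Dat
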