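import Pool.Agent.W986.Dat.Tab
import Pool.Agent.W986.SubAltB

/-!
# Entries 1809 to 1934 of the table
-/

set_option autoImplicit false

namespace Pool.Agent.W986.ST.Dat

/-- 4845664:1542/1 -/
noncomputable def e1809 : SCfg where
  D := {
    a := 7
    L := 10
    kp := 7
    inn := [(0, 1), (0, 3), (0, 4), (1, 0), (1, 2), (1, 3), (1, 4), (2, 1), (3, 0), (3, 1), (4, 0), (4,
      1), (4, 5), (5, 4), (5, 6), (6, 5)]
    mix := [(0, 0), (1, 1), (1, 2), (1, 3), (1, 4), (2, 1), (2, 2), (2, 5), (3, 0), (3, 1), (3, 6), (4,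
      0), (4, 4), (4, 7), (5, 0), (5, 7), (5, 8), (5, 9), (6, 0), (6, 6), (6, 9)]
    cl := [0, 1, 2, 5, 1, 6, 4, 0, 7, 3]
    chq := [(0, 3), (3, 0), (5, 6), (6, 5)]
    rng := [(0, 6), (1, 5), (1, 6), (2, 3), (2, 5), (3, 2), (3, 4), (4, 3), (4, 7), (5, 1), (5, 2), (6,
      0), (6, 1), (6, 9), (7, 4), (7, 8), (8, 7), (8, 9), (9, 6), (9, 8)]
    lev := [] }
  links := [[1, 4, 7, 3], [4, 0, 3, 8, 2, 9, 10, 11], [9, 1, 8, 12], [8, 1, 0, 7, 13], [7, 0, 1, 11, 14,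
    5], [7, 4, 14, 15, 16, 6], [7, 5, 16, 13]]
  P := {
    a := 7
    N := 17
    nb := [154, 3869, 4866, 8579, 18595, 114896, 73888, 8313, 12302, 5126, 2562, 17426, 772, 65992,
      34864, 81952, 41056]
    tri := [(0, 1, 3), (0, 1, 4), (0, 3, 7), (0, 4, 7), (1, 2, 8), (1, 2, 9), (1, 3, 8), (1, 4, 11),
      (1, 9, 10), (1, 10, 11), (2, 8, 12), (2, 9, 12), (3, 7, 13), (3, 8, 13), (4, 5, 7), (4, 5,
      14), (4, 11, 14), (5, 6, 7), (5, 6, 16), (5, 14, 15), (5, 15, 16), (6, 7, 13), (6, 13, 16)]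
    fin := [0, 1, 1, 0, 0, 5, 5, 5, 0, 9, 10, 0, 1, 13, 5, 15, 16]
    chd := [(5, 16), (10, 1)]
    steps := [(0, 3), (0, 4), (0, 8), (0, 11), (1, 2), (1, 12), (5, 6), (5, 7), (5, 14)] }
  rep := [5, 0, 9, 16, 13, 10, 1, 15]

noncomputable def v1809 : Cov.CovD where
  P := 3
  N := 5
  pl := [2, 6, 8]
  lev := [⟨[], [], [], [], [(0, 0, [3])]⟩,
    ⟨[], [(0, 0), (0, 1), (0, 5)], [(1, 1), (1, 5)], [2], [(1, 1, []), (3, 5, [6]), (4, 1,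
      [])]⟩,
    ⟨[(0, 1)], [(1, 1), (1, 5), (1, 6)], [(1, 6)], [2], [(1, 1, []), (5, 6, [5])]⟩,
    ⟨[(0, 1), (1, 2)], [(0, 0), (0, 1), (1, 0), (1, 1), (1, 5), (2, 1)], [(0, 1)], [4],
      [(0, 0, [3]), (1, 1, [])]⟩,
    ⟨[(0, 1), (0, 3), (1, 2), (1, 3)], [(0, 0), (0, 1), (1, 0), (1, 1), (1, 5), (3, 0)],
      [(0, 0), (0, 1)], [], [(0, 0, [3]), (4, 1, []), (7, 0, [3])]⟩,
    ⟨[(0, 4), (1, 4)], [(0, 0), (3, 0), (4, 0), (4, 1), (4, 3)], [(0, 0), (0, 3)], [7],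
      [(0, 0, [3]), (7, 0, [3]), (9, 3, [0])]⟩,
    ⟨[(4, 5)], [(0, 0), (3, 0), (4, 0), (5, 0), (5, 3)], [(0, 3)], [4], [(0, 0, [3]), (9,
      3, [0])]⟩]
  Ta := [((0, 6), 0, 4), ((1, 5), 1, 6), ((1, 6), 1, 4), ((4, 3), 1, 5), ((4, 7), 1, 0), ((7, 4),
    0, 1), ((7, 8), 0, 7)]
  Tb := [((1, 5, 6), 1, 6, 4), ((2, 3, 5), 2, 5, 6), ((3, 2, 4), 5, 2, 1), ((4, 3, 7), 1, 5, 0),
    ((5, 1, 2), 6, 1, 2), ((6, 0, 1), 4, 0, 1), ((6, 0, 9), 4, 0, 3), ((6, 1, 9), 4, 1, 3),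
    ((7, 4, 8), 0, 1, 7), ((8, 7, 9), 7, 0, 3), ((9, 6, 8), 3, 4, 7)]
  Tc := []
  Td := [((0, 3), (0, 6), 4), ((0, 3), (7, 4), 1), ((0, 3), (7, 8), 7), ((3, 0), (9, 6), 4), ((3,
    0), (9, 8), 7), ((5, 6), (3, 2), 2), ((5, 6), (3, 4), 1), ((6, 5), (5, 1), 1), ((6, 5),
    (5, 2), 2)]
  G := [[0, 0, 0x8aae446668cc4ae688c642e8c8c2, 0x8aae44466acc18aee44462acc892,
    0x8a2e4446eacc18aee4642e8c892], [0, 0, 0x884884e4e2ac246e2e828cc, 0xe26e8c21e4e2ac2894,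
    0xe26e8c281e4e2ac218c], [0, 0, 0xeeae4614e2eeca18c8, 0xeeae46146eee88a18c4,
    0xe4eeac11819e4142e8c892], [0x811e2111e262111e8111e8c8a4, 0x111e4812e461141e8111e8a1c2,
    0x1432ac24312e828c4, 0x312e42416e2e88c2149, 0xe4e2ac12312e82894]]

noncomputable def n1809 : Ent := ⟨e1809, noF, [], [], [(12, 15, [1685356702439545624007900436039642273970977273354372543760007491585, 0]), (12, 16, [1580044410770988437309982408355971841652082177953823432505696518145, 0])]⟩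

def c1809 : PLift (Cov.check n1809.C.D v1809 = true) := ⟨by decide +kernel⟩

def b1809 : PLift (entF (fidx ts) 400 1809 n1809 = true) := ⟨by decide +kernel⟩

theorem g1809 : GoodF (fidx ts) 400 1809 := GoodF.ofV v1809 n1809 c1809.down b1809.down

/-- 4845664:1542/4 -/
noncomputable def e1810 : SCfg where
  D := {
    a := 7
    L := 10
    kp := 7
    inn := [(0, 1), (0, 3), (0, 4), (1, 0), (1, 2), (1, 3), (1, 4), (2, 1), (3, 0), (3, 1), (4, 0), (4,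
      1), (4, 5), (5, 4), (5, 6), (6, 5)]
    mix := [(0, 0), (1, 1), (1, 2), (1, 3), (1, 4), (2, 1), (2, 2), (2, 5), (3, 0), (3, 1), (3, 6), (4,
      0), (4, 4), (4, 7), (5, 0), (5, 5), (5, 7), (5, 8), (6, 0), (6, 8), (6, 9)]
    cl := [0, 1, 4, 5, 1, 2, 6, 0, 3, 7]
    chq := [(0, 3), (2, 5), (3, 0), (5, 2)]
    rng := [(0, 6), (0, 9), (1, 5), (1, 6), (2, 3), (2, 5), (3, 2), (3, 4), (4, 3), (4, 7), (5, 1), (5,
      2), (5, 7), (5, 8), (6, 0), (6, 1), (7, 4), (7, 5), (8, 5), (8, 9), (9, 0), (9, 8)]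
    lev := [] }
  links := [[1, 4, 7, 3], [4, 0, 3, 8, 2, 9, 10, 11], [9, 1, 8, 12], [8, 1, 0, 7, 13], [7, 0, 1, 11, 14,
    5], [7, 4, 14, 12, 15, 6], [7, 5, 15, 16]]
  P := {
    a := 7
    N := 17
    nb := [154, 3869, 4866, 8579, 18595, 53456, 98464, 73849, 12302, 5126, 2562, 17426, 49956, 392,
      6192, 69728, 32960]
    tri := [(0, 1, 3), (0, 1, 4), (0, 3, 7), (0, 4, 7), (1, 2, 8), (1, 2, 9), (1, 3, 8), (1, 4, 11),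
      (1, 9, 10), (1, 10, 11), (2, 8, 12), (2, 9, 12), (3, 7, 13), (3, 8, 13), (4, 5, 7), (4, 5,
      14), (4, 11, 14), (5, 6, 7), (5, 6, 15), (5, 12, 14), (5, 12, 15), (6, 7, 16), (6, 15, 16)]
    fin := [0, 1, 1, 0, 0, 5, 5, 5, 0, 9, 10, 0, 1, 13, 5, 15, 16]
    chd := [(5, 15), (10, 1)]
    steps := [(0, 3), (0, 4), (0, 8), (0, 11), (1, 2), (1, 12), (5, 6), (5, 7), (5, 14)] }
  rep := [5, 0, 1, 15, 9, 10, 13, 16]

noncomputable def v1810 : Cov.CovD where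
  P := 3
  N := 5
  pl := [2, 6, 9]
  lev := [⟨[], [], [], [], [(0, 0, [3])]⟩,
    ⟨[], [(0, 0), (0, 1), (0, 5)], [(1, 1), (1, 5)], [4], [(1, 1, []), (3, 5, [2]), (4, 1,
      [])]⟩,
    ⟨[(0, 1)], [(1, 1), (1, 2), (1, 5)], [(1, 2)], [4], [(1, 1, []), (5, 2, [5])]⟩,
    ⟨[(0, 1), (1, 2)], [(0, 0), (0, 1), (1, 0), (1, 1), (1, 5), (2, 1)], [(0, 1)], [6],
      [(0, 0, [3]), (1, 1, [])]⟩,
    ⟨[(0, 1), (0, 3), (1, 2), (1, 3)], [(0, 0), (0, 1), (1, 0), (1, 1), (1, 5), (3, 0)],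
      [(0, 0), (0, 1)], [], [(0, 0, [3]), (4, 1, []), (7, 0, [3])]⟩,
    ⟨[(0, 4), (1, 4)], [(0, 0), (2, 2), (3, 0), (4, 0), (4, 1), (4, 2), (4, 3)], [(0, 0),
      (0, 2), (0, 3), (2, 3)], [], [(0, 0, [3]), (5, 2, [5]), (7, 0, [3]), (8, 3, [0])]⟩,
    ⟨[(4, 5)], [(0, 0), (3, 0), (4, 0), (5, 0), (5, 2), (5, 3)], [(0, 3)], [7], [(0, 0,
      [3]), (8, 3, [0])]⟩]
  Ta := [((0, 6), 0, 6), ((0, 9), 0, 7), ((1, 5), 1, 2), ((1, 6), 1, 6), ((4, 3), 1, 5), ((4, 7),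
    1, 0), ((7, 4), 0, 1), ((7, 5), 0, 2)]
  Tb := [((0, 6, 9), 0, 6, 7), ((1, 5, 6), 1, 2, 6), ((2, 3, 5), 4, 5, 2), ((3, 2, 4), 5, 4, 1),
    ((4, 3, 7), 1, 5, 0), ((5, 1, 2), 2, 1, 4), ((5, 1, 7), 2, 1, 0), ((5, 1, 8), 2, 1, 3),
    ((5, 2, 7), 2, 4, 0), ((5, 2, 8), 2, 4, 3), ((5, 7, 8), 2, 0, 3), ((6, 0, 1), 6, 0, 1),
    ((7, 4, 5), 0, 1, 2), ((8, 5, 9), 3, 2, 7), ((9, 0, 8), 7, 0, 3)]
  Tc := []
  Td := [((0, 3), (0, 6), 6), ((0, 3), (0, 9), 7), ((0, 3), (7, 4), 1), ((0, 3), (7, 5), 2), ((2,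
    5), (5, 1), 1), ((2, 5), (5, 2), 4), ((2, 5), (5, 7), 0), ((2, 5), (5, 8), 3), ((3, 0),
    (8, 5), 2), ((3, 0), (8, 9), 7), ((5, 2), (3, 2), 4), ((5, 2), (3, 4), 1)]
  G := [[0, 0, 0, 0xa6c24a6c28a6c24d4a6c24a6c28a6c28d26c88aa6c2c19c,
    0x88262c8ac882494c6a44c6a48946a8862c8c46a8c9c6a4c6a4c1da], [0, 0, 0, 0,
    0x62c8c262c8c29c6a4215c6a4288c], [0, 0, 0x116411c2c11c21168cc18,
    0x882144a6c218826c81453c4a1c4c15e, 0xc6a41862c8c146a88c1995a4c1a4c1d2], [0,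
    0x11c21418aa4411c2181466814818811c8e1ac, 0x1168211682c18, 0, 0x16a8211c6a41846a88c12c6]]

noncomputable def n1810 : Ent := ⟨e1810, noF, [], [], [(13, 16, [1580044410770988437309982408355971841652082177953823432505696514049, 0])]⟩

def c1810 : PLift (Cov.check n1810.C.D v1810 = true) := ⟨by decide +kernel⟩

def b1810 : PLift (entF (fidx ts) 400 1810 n1810 = true) := ⟨by decide +kernel⟩

theorem g1810 : GoodF (fidx ts) 400 1810 := GoodF.ofV v1810 n1810 c1810.down b1810.down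

/-- 4845664:1542/5 -/
noncomputable def e1811 : SCfg where
  D := {
    a := 7
    L := 10
    kp := 7
    inn := [(0, 1), (0, 3), (0, 4), (1, 0), (1, 2), (1, 3), (1, 4), (2, 1), (3, 0), (3, 1), (4, 0), (4,
      1), (4, 5), (5, 4), (5, 6), (6, 5)]
    mix := [(0, 0), (1, 1), (1, 2), (1, 3), (1, 4), (2, 1), (2, 2), (2, 5), (3, 0), (3, 1), (3, 6), (4,
      0), (4, 4), (4, 7), (5, 0), (5, 5), (5, 7), (5, 8), (6, 0), (6, 5), (6, 9)]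
    cl := [0, 1, 2, 4, 1, 3, 5, 0, 6, 7]
    chq := [(0, 3), (3, 0), (3, 4), (4, 3)]
    rng := [(0, 6), (0, 9), (1, 5), (1, 6), (2, 3), (2, 5), (3, 2), (3, 4), (4, 3), (4, 7), (5, 1), (5,
      2), (5, 8), (5, 9), (6, 0), (6, 1), (7, 4), (7, 8), (8, 5), (8, 7), (9, 0), (9, 5)]
    lev := [] }
  links := [[1, 4, 7, 3], [4, 0, 3, 8, 2, 9, 10, 11], [9, 1, 8, 12], [8, 1, 0, 7, 13], [7, 0, 1, 11, 14,
    5], [7, 4, 14, 15, 12, 6], [7, 5, 12, 16]]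
  P := {
    a := 7
    N := 17
    nb := [154, 3869, 4866, 8579, 18595, 53456, 69792, 73849, 12302, 5126, 2562, 17426, 99172, 392,
      34864, 20512, 4288]
    tri := [(0, 1, 3), (0, 1, 4), (0, 3, 7), (0, 4, 7), (1, 2, 8), (1, 2, 9), (1, 3, 8), (1, 4, 11),
      (1, 9, 10), (1, 10, 11), (2, 8, 12), (2, 9, 12), (3, 7, 13), (3, 8, 13), (4, 5, 7), (4, 5,
      14), (4, 11, 14), (5, 6, 7), (5, 6, 12), (5, 12, 15), (5, 14, 15), (6, 7, 16), (6, 12, 16)]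
    fin := [0, 1, 1, 0, 0, 5, 5, 5, 0, 9, 10, 0, 1, 13, 5, 15, 16]
    chd := [(5, 1), (10, 1)]
    steps := [(0, 3), (0, 4), (0, 8), (0, 11), (1, 2), (1, 12), (5, 6), (5, 7), (5, 14)] }
  rep := [5, 0, 9, 1, 10, 13, 15, 16]

noncomputable def v1811 : Cov.CovD where
  P := 3
  N := 5
  pl := [2, 6, 8, 9]
  lev := [⟨[], [], [], [], [(0, 0, [3])]⟩,
    ⟨[], [(0, 0), (0, 1), (0, 4)], [(1, 1), (1, 4)], [2], [(1, 1, []), (3, 4, [3]), (4, 1,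
      [])]⟩,
    ⟨[(0, 1)], [(1, 1), (1, 3), (1, 4)], [(1, 3)], [2], [(1, 1, []), (5, 3, [0, 4])]⟩,
    ⟨[(0, 1), (1, 2)], [(0, 0), (0, 1), (1, 0), (1, 1), (1, 4), (2, 1)], [(0, 1)], [5],
      [(0, 0, [3]), (1, 1, [])]⟩,
    ⟨[(0, 1), (0, 3), (1, 2), (1, 3)], [(0, 0), (0, 1), (1, 0), (1, 1), (1, 4), (3, 0)],
      [(0, 0), (0, 1)], [], [(0, 0, [3]), (4, 1, []), (7, 0, [3])]⟩,
    ⟨[(0, 4), (1, 4)], [(0, 0), (2, 3), (3, 0), (4, 0), (4, 1), (4, 3)], [(0, 0), (0, 3)],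
      [6], [(0, 0, [3]), (5, 3, [0, 4]), (7, 0, [3])]⟩,
    ⟨[(4, 5)], [(0, 0), (2, 3), (3, 0), (4, 0), (5, 0), (5, 3)], [(0, 3)], [7], [(0, 0,
      [3]), (5, 3, [0, 4])]⟩]
  Ta := [((0, 6), 0, 5), ((0, 9), 0, 7), ((1, 5), 1, 3), ((1, 6), 1, 5), ((4, 3), 1, 4), ((4, 7),
    1, 0), ((7, 4), 0, 1), ((7, 8), 0, 6)]
  Tb := [((0, 6, 9), 0, 5, 7), ((1, 5, 6), 1, 3, 5), ((2, 3, 5), 2, 4, 3), ((3, 2, 4), 4, 2, 1),
    ((4, 3, 7), 1, 4, 0), ((5, 1, 2), 3, 1, 2), ((5, 1, 8), 3, 1, 6), ((5, 1, 9), 3, 1, 7),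
    ((5, 2, 8), 3, 2, 6), ((5, 2, 9), 3, 2, 7), ((5, 8, 9), 3, 6, 7), ((6, 0, 1), 5, 0, 1),
    ((7, 4, 8), 0, 1, 6), ((8, 5, 7), 6, 3, 0), ((9, 0, 5), 7, 0, 3)]
  Tc := [(3, 0, 4)]
  Td := [((0, 3), (0, 6), 5), ((0, 3), (0, 9), 7), ((0, 3), (7, 4), 1), ((0, 3), (7, 8), 6), ((3,
    0), (5, 1), 1), ((3, 0), (5, 2), 2), ((3, 0), (5, 8), 6), ((3, 0), (5, 9), 7), ((3, 4),
    (5, 1), 1), ((3, 4), (5, 2), 2), ((3, 4), (5, 8), 6), ((3, 4), (5, 9), 7), ((4, 3), (3,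
    2), 2), ((4, 3), (3, 4), 1)]
  G := [[0, 0, 0xa2a86a2eccac4cc28c4ceae46e2eecac48c, 0xa2e86a2e8ac1462646e668c18c,
    0xe2eec6e2eecac1eeae46a2eccac894], [0, 0, 0x88428488426e668c2c2aa828cc,
    0xeaa4214e668218c, 0x6e6e8c21aaa42894], [0, 0, 0x111e4111e4c4111e8111e8c8c2,
    0x6446ac11aaa411c2, 0xe4eeac1153ae471ae8c892], [0x111e2111e264111e2111e2a8c4,
    0x111e2111e261111e8111e2a1c4, 0x1411ac2411a828c4, 0xb6642435698c21c8,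
    0x1411ac21aaa42894]]

noncomputable def n1811 : Ent := ⟨e1811, noF, [], [], [(13, 16, [1580044410770988437309982408355971841652082177953823432505696518145, 0])]⟩

def c1811 : PLift (Cov.check n1811.C.D v1811 = true) := ⟨by decide +kernel⟩

def b1811 : PLift (entF (fidx ts) 400 1811 n1811 = true) := ⟨by decide +kernel⟩

theorem g1811 : GoodF (fidx ts) 400 1811 := GoodF.ofV v1811 n1811 c1811.down b1811.down

/-- 4845664:1542/6 -/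
noncomputable def e1812 : SCfg where
  D := {
    a := 7
    L := 10
    kp := 7
    inn := [(0, 1), (0, 3), (0, 4), (1, 0), (1, 2), (1, 3), (1, 4), (2, 1), (3, 0), (3, 1), (4, 0), (4,
      1), (4, 5), (5, 4), (5, 6), (6, 5)]
    mix := [(0, 0), (1, 1), (1, 2), (1, 3), (1, 4), (2, 1), (2, 2), (2, 5), (3, 0), (3, 1), (3, 6), (4,
      0), (4, 4), (4, 7), (5, 0), (5, 7), (5, 8), (5, 9), (6, 0), (6, 5), (6, 9)]
    cl := [0, 1, 2, 5, 1, 3, 6, 0, 7, 4]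
    chq := [(0, 4), (3, 5), (4, 0), (5, 3)]
    rng := [(0, 5), (0, 6), (1, 5), (1, 6), (2, 3), (2, 5), (3, 2), (3, 4), (4, 3), (4, 7), (5, 0), (5,
      1), (5, 2), (5, 9), (6, 0), (6, 1), (7, 4), (7, 8), (8, 7), (8, 9), (9, 5), (9, 8)]
    lev := [] }
  links := [[1, 4, 7, 3], [4, 0, 3, 8, 2, 9, 10, 11], [9, 1, 8, 12], [8, 1, 0, 7, 13], [7, 0, 1, 11, 14,
    5], [7, 4, 14, 15, 16, 6], [7, 5, 16, 12]]
  P := {
    a := 7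
    N := 17
    nb := [154, 3869, 4866, 8579, 18595, 114896, 69792, 12409, 12302, 5126, 2562, 17426, 66500, 392,
      34864, 81952, 36960]
    tri := [(0, 1, 3), (0, 1, 4), (0, 3, 7), (0, 4, 7), (1, 2, 8), (1, 2, 9), (1, 3, 8), (1, 4, 11),
      (1, 9, 10), (1, 10, 11), (2, 8, 12), (2, 9, 12), (3, 7, 13), (3, 8, 13), (4, 5, 7), (4, 5,
      14), (4, 11, 14), (5, 6, 7), (5, 6, 16), (5, 14, 15), (5, 15, 16), (6, 7, 12), (6, 12, 16)]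
    fin := [0, 1, 1, 0, 0, 5, 5, 5, 0, 9, 10, 0, 1, 13, 5, 15, 16]
    chd := [(5, 16), (10, 1)]
    steps := [(0, 3), (0, 4), (0, 8), (0, 11), (1, 2), (1, 12), (5, 6), (5, 7), (5, 14)] }
  rep := [5, 0, 9, 1, 16, 10, 13, 15]

noncomputable def v1812 : Cov.CovD where
  P := 3
  N := 5
  pl := [2, 6, 8]
  lev := [⟨[], [], [], [], [(0, 0, [4])]⟩,
    ⟨[], [(0, 0), (0, 1), (0, 5)], [(1, 1), (1, 5)], [2], [(1, 1, []), (3, 5, [3]), (4, 1,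
      [])]⟩,
    ⟨[(0, 1)], [(1, 1), (1, 3), (1, 5)], [(1, 3)], [2], [(1, 1, []), (5, 3, [5])]⟩,
    ⟨[(0, 1), (1, 2)], [(0, 0), (0, 1), (1, 0), (1, 1), (1, 5), (2, 1)], [(0, 1)], [6],
      [(0, 0, [4]), (1, 1, [])]⟩,
    ⟨[(0, 1), (0, 3), (1, 2), (1, 3)], [(0, 0), (0, 1), (1, 0), (1, 1), (1, 5), (3, 0)],
      [(0, 0), (0, 1)], [], [(0, 0, [4]), (4, 1, []), (7, 0, [4])]⟩,
    ⟨[(0, 4), (1, 4)], [(0, 0), (3, 0), (4, 0), (4, 1), (4, 4)], [(0, 0), (0, 4)], [7],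
      [(0, 0, [4]), (7, 0, [4]), (9, 4, [0])]⟩,
    ⟨[(4, 5)], [(0, 0), (2, 3), (3, 0), (4, 0), (5, 0), (5, 3), (5, 4)], [(0, 3), (0, 4),
      (3, 4)], [], [(0, 0, [4]), (5, 3, [5]), (9, 4, [0])]⟩]
  Ta := [((0, 5), 0, 3), ((0, 6), 0, 6), ((1, 5), 1, 3), ((1, 6), 1, 6), ((4, 3), 1, 5), ((4, 7),
    1, 0), ((7, 4), 0, 1), ((7, 8), 0, 7)]
  Tb := [((0, 5, 6), 0, 3, 6), ((1, 5, 6), 1, 3, 6), ((2, 3, 5), 2, 5, 3), ((3, 2, 4), 5, 2, 1),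
    ((4, 3, 7), 1, 5, 0), ((5, 0, 1), 3, 0, 1), ((5, 0, 2), 3, 0, 2), ((5, 0, 9), 3, 0, 4),
    ((5, 1, 2), 3, 1, 2), ((5, 1, 9), 3, 1, 4), ((5, 2, 9), 3, 2, 4), ((6, 0, 1), 6, 0, 1),
    ((7, 4, 8), 0, 1, 7), ((8, 7, 9), 7, 0, 4), ((9, 5, 8), 4, 3, 7)]
  Tc := []
  Td := [((0, 4), (0, 5), 3), ((0, 4), (0, 6), 6), ((0, 4), (7, 4), 1), ((0, 4), (7, 8), 7), ((3,
    5), (5, 0), 0), ((3, 5), (5, 1), 1), ((3, 5), (5, 2), 2), ((3, 5), (5, 9), 4), ((4, 0),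
    (9, 5), 3), ((4, 0), (9, 8), 7), ((5, 3), (3, 2), 2), ((5, 3), (3, 4), 1)]
  G := [[0, 0, 0xeeae46e28ecac84e2e4c6848e4eeac448e, 0xeac288464c2822422eecac54268a2688ac89c,
    0xeeae46e2eecac1ee6e8ae28ecac894], [0, 0, 0xe2688c28444e2ac248c, 0xe4e2ac21e482ac2894,
    0xe4e2ac21e2688c2894], [0, 0, 0xe2e4c614e2eeca18c8, 0x62a44614a26e8a11c8,
    0xe2eec61181a946199e8c894], [0x111e2111e2c21211c6111e4a468,
    0x1211c6111e461111e8111e8a1c2, 0x132e42432618c28c8, 0x92658c21132e42458,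
    0xe26e8c121a2e82194]]

noncomputable def n1812 : Ent := ⟨e1812, noF, [], [], []⟩

def c1812 : PLift (Cov.check n1812.C.D v1812 = true) := ⟨by decide +kernel⟩

def b1812 : PLift (entF (fidx ts) 400 1812 n1812 = true) := ⟨by decide +kernel⟩

theorem g1812 : GoodF (fidx ts) 400 1812 := GoodF.ofV v1812 n1812 c1812.down b1812.down

/-- 4845664:1542 -/
noncomputable def e1813 : SCfg where
  D := {
    a := 7
    L := 11
    kp := 8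
    inn := [(0, 1), (0, 3), (0, 4), (1, 0), (1, 2), (1, 3), (1, 4), (2, 1), (3, 0), (3, 1), (4, 0), (4,
      1), (4, 5), (5, 4), (5, 6), (6, 5)]
    mix := [(0, 0), (1, 1), (1, 2), (1, 3), (1, 4), (2, 1), (2, 2), (2, 5), (3, 0), (3, 1), (3, 6), (4,
      0), (4, 4), (4, 7), (5, 0), (5, 7), (5, 8), (5, 9), (6, 0), (6, 9), (6, 10)]
    cl := [0, 1, 2, 4, 1, 5, 6, 0, 7, 3, 8]
    chq := [(0, 3), (3, 0), (4, 5), (5, 4)]
    rng := [(0, 6), (0, 10), (1, 5), (1, 6), (2, 3), (2, 5), (3, 2), (3, 4), (4, 3), (4, 7), (5, 1),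
      (5, 2), (6, 0), (6, 1), (7, 4), (7, 8), (8, 7), (8, 9), (9, 8), (9, 10), (10, 0), (10, 9)]
    lev := [] }
  links := [[1, 4, 7, 3], [4, 0, 3, 8, 2, 9, 10, 11], [9, 1, 8, 12], [8, 1, 0, 7, 13], [7, 0, 1, 11, 14,
    5], [7, 4, 14, 15, 16, 6], [7, 5, 16, 17]]
  P := {
    a := 7
    N := 18
    nb := [154, 3869, 4866, 8579, 18595, 114896, 196768, 139385, 12302, 5126, 2562, 17426, 772, 392,
      34864, 81952, 163936, 65728]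
    tri := [(0, 1, 3), (0, 1, 4), (0, 3, 7), (0, 4, 7), (1, 2, 8), (1, 2, 9), (1, 3, 8), (1, 4, 11),
      (1, 9, 10), (1, 10, 11), (2, 8, 12), (2, 9, 12), (3, 7, 13), (3, 8, 13), (4, 5, 7), (4, 5,
      14), (4, 11, 14), (5, 6, 7), (5, 6, 16), (5, 14, 15), (5, 15, 16), (6, 7, 17), (6, 16, 17)]
    fin := [0, 1, 1, 0, 0, 5, 5, 5, 0, 9, 10, 0, 1, 13, 5, 15, 16, 17]
    chd := [(5, 16), (10, 1)]
    steps := [(0, 3), (0, 4), (0, 8), (0, 11), (1, 2), (1, 12), (5, 6), (5, 7), (5, 14)] }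
  rep := [5, 0, 9, 16, 10, 1, 13, 15, 17]

noncomputable def v1813 : Cov.CovD where
  P := 3
  N := 6
  pl := [2, 6, 8, 10]
  lev := [⟨[], [], [], [], [(0, 0, [3])]⟩,
    ⟨[], [(0, 0), (0, 1), (0, 4)], [(1, 1), (1, 4)], [2], [(1, 1, []), (3, 4, [5]), (4, 1,
      [])]⟩,
    ⟨[(0, 1)], [(1, 1), (1, 4), (1, 5)], [(1, 5)], [2], [(1, 1, []), (5, 5, [4])]⟩,
    ⟨[(0, 1), (1, 2)], [(0, 0), (0, 1), (1, 0), (1, 1), (1, 4), (2, 1)], [(0, 1)], [6],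
      [(0, 0, [3]), (1, 1, [])]⟩,
    ⟨[(0, 1), (0, 3), (1, 2), (1, 3)], [(0, 0), (0, 1), (1, 0), (1, 1), (1, 4), (3, 0)],
      [(0, 0), (0, 1)], [], [(0, 0, [3]), (4, 1, []), (7, 0, [3])]⟩,
    ⟨[(0, 4), (1, 4)], [(0, 0), (3, 0), (4, 0), (4, 1), (4, 3)], [(0, 0), (0, 3)], [7],
      [(0, 0, [3]), (7, 0, [3]), (9, 3, [0])]⟩,
    ⟨[(4, 5)], [(0, 0), (3, 0), (4, 0), (5, 0), (5, 3)], [(0, 3)], [8], [(0, 0, [3]), (9,
      3, [0])]⟩]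
  Ta := [((0, 6), 0, 6), ((0, 10), 0, 8), ((1, 5), 1, 5), ((1, 6), 1, 6), ((4, 3), 1, 4), ((4,
    7), 1, 0), ((7, 4), 0, 1), ((7, 8), 0, 7)]
  Tb := [((0, 6, 10), 0, 6, 8), ((1, 5, 6), 1, 5, 6), ((2, 3, 5), 2, 4, 5), ((3, 2, 4), 4, 2, 1),
    ((4, 3, 7), 1, 4, 0), ((5, 1, 2), 5, 1, 2), ((6, 0, 1), 6, 0, 1), ((7, 4, 8), 0, 1, 7),
    ((8, 7, 9), 7, 0, 3), ((9, 8, 10), 3, 7, 8), ((10, 0, 9), 8, 0, 3)]
  Tc := []
  Td := [((0, 3), (0, 6), 6), ((0, 3), (0, 10), 8), ((0, 3), (7, 4), 1), ((0, 3), (7, 8), 7),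
    ((3, 0), (9, 8), 7), ((3, 0), (9, 10), 8), ((4, 5), (3, 2), 2), ((4, 5), (3, 4), 1), ((5,
    4), (5, 1), 1), ((5, 4), (5, 2), 2)]
  G := [[0, 0, 0xe2eec6e2eecac84e2eec6e2eecac48c, 0xe2eec6ee6e8ac1eeae46eaee446c458,
    0xeeae46e2eecac1e4eeacee6e8ac894], [0, 0, 0xe4eeac284ee6e8c248c, 0xee6e8c21ee6e8c2458,
    0xee6e8c281ee6e8c218c], [0, 0, 0xe4eeac14ee6e8c18c2, 0xe2eec614e2eeca18c4,
    0xe2eec6117d1e87e1e8c894], [0x1211c6111e2a2111e8111e8c8a4, 0x111e2111e261111e2111e2a1c4,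
    0x3495ac248ee6e8c1246, 0x17be821359e82454, 0x5493ac219453ac2894]]

noncomputable def n1813 : Ent := ⟨e1813, noF, [], [], [(13, 17, [6903326391201334775872065844685381424292761054348340378595029937098753, 0]), (12, 15, [7334790850167413569773436004105379185503274260204390087403942012067841, 0]), (12, 16, [7334685537875745012586738086077695515070955365108989538292687701094401, 0]), (12, 17, [6903326391201334775872065844685381424292761054348340378595029937111041, 0])]⟩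

def c1813 : PLift (Cov.check n1813.C.D v1813 = true) := ⟨by decide +kernel⟩

def b1813 : PLift (entF (fidx ts) 400 1813 n1813 = true) := ⟨by decide +kernel⟩

theorem g1813 : GoodF (fidx ts) 400 1813 := GoodF.ofV v1813 n1813 c1813.down b1813.down

/-- 4578446:1550/1 -/
noncomputable def e1814 : SCfg where
  D := {
    a := 7
    L := 10
    kp := 7
    inn := [(0, 1), (0, 2), (1, 0), (1, 2), (2, 0), (2, 1), (2, 3), (2, 6), (3, 2), (3, 4), (3, 5), (3,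
      6), (4, 3), (5, 3), (5, 6), (6, 2), (6, 3), (6, 5)]
    mix := [(0, 0), (0, 1), (1, 1), (1, 2), (1, 3), (2, 0), (2, 3), (2, 4), (3, 4), (3, 5), (3, 6), (3,
      7), (4, 2), (4, 4), (4, 5), (5, 7), (5, 8), (6, 0), (6, 8), (6, 9)]
    cl := [0, 4, 2, 0, 1, 5, 1, 3, 6, 7]
    chq := [(1, 7), (3, 7), (7, 1), (7, 3)]
    rng := [(0, 1), (0, 9), (1, 0), (1, 2), (2, 1), (2, 3), (2, 4), (2, 5), (3, 2), (3, 4), (4, 2), (4,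
      3), (5, 2), (5, 6), (6, 5), (6, 7), (7, 6), (7, 8), (8, 7), (8, 9), (9, 0), (9, 8)]
    lev := [] }
  links := [[1, 2, 7, 8], [2, 0, 8, 9, 10], [7, 0, 1, 10, 11, 3, 6], [6, 2, 11, 4, 12, 13, 14, 5], [12,
    3, 11, 9], [6, 3, 14, 15], [7, 2, 3, 5, 15, 16]]
  P := {
    a := 7
    N := 17
    nb := [390, 1797, 3275, 30836, 6664, 49224, 98476, 65861, 643, 7442, 2566, 1564, 8728, 20488,
      41000, 82016, 32960]
    tri := [(0, 1, 2), (0, 1, 8), (0, 2, 7), (0, 7, 8), (1, 2, 10), (1, 8, 9), (1, 9, 10), (2, 3, 6),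
      (2, 3, 11), (2, 6, 7), (2, 10, 11), (3, 4, 11), (3, 4, 12), (3, 5, 6), (3, 5, 14), (3, 12,
      13), (3, 13, 14), (4, 9, 11), (4, 9, 12), (5, 6, 15), (5, 14, 15), (6, 7, 16), (6, 15, 16)]
    fin := [0, 0, 0, 3, 4, 5, 6, 0, 8, 4, 0, 3, 12, 3, 5, 15, 6]
    chd := [(3, 6), (5, 6)]
    steps := [(0, 1), (0, 2), (0, 7), (0, 10), (3, 11), (3, 13), (4, 9), (5, 14), (6, 16)] }
  rep := [0, 3, 4, 5, 8, 12, 15, 6]

noncomputable def v1814 : Cov.CovD where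
  P := 3
  N := 5
  pl := [1, 2, 5, 8]
  lev := [⟨[], [], [], [4], [(0, 0, [])]⟩,
    ⟨[], [(0, 0)], [], [2, 4], [(3, 0, [])]⟩,
    ⟨[(0, 1)], [(0, 0), (0, 1), (1, 0), (1, 1)], [(0, 0), (0, 1)], [], [(0, 0, []), (3, 0,
      []), (4, 1, [7])]⟩,
    ⟨[(0, 2), (1, 2)], [(2, 0), (2, 1), (2, 3)], [(1, 1), (1, 3)], [5], [(4, 1, [7]), (6,
      1, [7]), (7, 3, [7])]⟩,
    ⟨[(2, 3)], [(2, 1), (3, 1), (3, 3)], [], [2, 5], [(4, 1, [7])]⟩,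
    ⟨[(2, 3), (3, 4)], [(3, 1), (3, 3)], [], [6], [(7, 3, [7])]⟩,
    ⟨[(0, 2), (1, 2), (2, 3), (2, 5), (3, 4), (3, 5)], [(0, 0), (2, 0), (2, 1), (2, 7), (3,
      0), (3, 1), (3, 3), (3, 7), (5, 0), (5, 3), (5, 7)], [(0, 7)], [6], [(0, 0, []), (9, 7,
      [1, 3])]⟩]
  Ta := [((0, 1), 0, 4), ((0, 9), 0, 7), ((3, 2), 0, 2), ((3, 4), 0, 1), ((4, 2), 1, 2), ((4, 3),
    1, 0), ((6, 5), 1, 5), ((6, 7), 1, 3)]
  Tb := [((0, 1, 9), 0, 4, 7), ((1, 0, 2), 4, 0, 2), ((2, 1, 3), 2, 4, 0), ((2, 1, 4), 2, 4, 1),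
    ((2, 1, 5), 2, 4, 5), ((2, 3, 4), 2, 0, 1), ((2, 3, 5), 2, 0, 5), ((2, 4, 5), 2, 1, 5),
    ((3, 2, 4), 0, 2, 1), ((4, 2, 3), 1, 2, 0), ((5, 2, 6), 5, 2, 1), ((6, 5, 7), 1, 5, 3),
    ((7, 6, 8), 3, 1, 6), ((8, 7, 9), 6, 3, 7), ((9, 0, 8), 7, 0, 6)]
  Tc := [(7, 1, 3)]
  Td := [((1, 7), (4, 2), 2), ((1, 7), (4, 3), 0), ((1, 7), (6, 5), 5), ((1, 7), (6, 7), 3), ((3,
    7), (7, 6), 1), ((3, 7), (7, 8), 6), ((7, 1), (9, 0), 0), ((7, 1), (9, 8), 6), ((7, 3),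
    (9, 0), 0), ((7, 3), (9, 8), 6)]
  G := [[0, 0, 0, 0x2248542248c48cd81889482e1dc28348c5422484d48cd482e19c92,
    0x6438248cb8282a948ee1d484a8d42c94814894ac9466368c9829a2948ee1dc2e], [0, 0, 0, 0,
    0x6268ca2182aac1482dad8444a94686a2d246638468cb48ee19c2a], [0,
    0x3567839ab4985549ce2839ab4c1614ac6356788a4c,
    0x31688411a448c31a441488c2ac36c3c14a2442c74e3c582282a84eb,
    0x12a4412478818482e1dc128b4482e1512618c8cc2,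
    0x1747898331a948ee1d4811688426c348ee948ee1564388c2d], [0, 0,
    0x17681ba22c5482d6d48338b4482d25334788c2a, 0,
    0x35478398b221482e3d4816618a398b24aee1d42a]]

noncomputable def n1814 : Ent := ⟨e1814, noF, [], [], []⟩

def c1814 : PLift (Cov.check n1814.C.D v1814 = true) := ⟨by decide +kernel⟩

def b1814 : PLift (entF (fidx ts) 400 1814 n1814 = true) := ⟨by decide +kernel⟩

theorem g1814 : GoodF (fidx ts) 400 1814 := GoodF.ofV v1814 n1814 c1814.down b1814.down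

/-- 4578446:1550 -/
noncomputable def e1815 : SCfg where
  D := {
    a := 7
    L := 11
    kp := 8
    inn := [(0, 1), (0, 2), (1, 0), (1, 2), (2, 0), (2, 1), (2, 3), (2, 6), (3, 2), (3, 4), (3, 5), (3,
      6), (4, 3), (5, 3), (5, 6), (6, 2), (6, 3), (6, 5)]
    mix := [(0, 0), (0, 1), (1, 1), (1, 2), (1, 3), (2, 0), (2, 3), (2, 4), (3, 4), (3, 5), (3, 6), (3,
      7), (4, 4), (4, 5), (4, 8), (5, 7), (5, 9), (6, 0), (6, 9), (6, 10)]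
    cl := [1, 2, 6, 1, 0, 3, 7, 0, 8, 4, 5]
    chq := [(0, 3), (0, 5), (3, 0), (5, 0)]
    rng := [(0, 1), (0, 10), (1, 0), (1, 2), (2, 1), (2, 3), (3, 2), (3, 4), (4, 3), (4, 8), (5, 6),
      (5, 8), (6, 5), (6, 7), (7, 6), (7, 9), (8, 4), (8, 5), (9, 7), (9, 10), (10, 0), (10, 9)]
    lev := [] }
  links := [[1, 2, 7, 8], [2, 0, 8, 9, 10], [7, 0, 1, 10, 11, 3, 6], [6, 2, 11, 4, 12, 13, 14, 5], [12,
    3, 11, 15], [6, 3, 14, 16], [7, 2, 3, 5, 16, 17]]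
  P := {
    a := 7
    N := 18
    nb := [390, 1797, 3275, 30836, 38920, 81992, 196780, 131397, 643, 1282, 2566, 33820, 40984, 20488,
      73768, 6160, 147552, 65728]
    tri := [(0, 1, 2), (0, 1, 8), (0, 2, 7), (0, 7, 8), (1, 2, 10), (1, 8, 9), (1, 9, 10), (2, 3, 6),
      (2, 3, 11), (2, 6, 7), (2, 10, 11), (3, 4, 11), (3, 4, 12), (3, 5, 6), (3, 5, 14), (3, 12,
      13), (3, 13, 14), (4, 11, 15), (4, 12, 15), (5, 6, 16), (5, 14, 16), (6, 7, 17), (6, 16,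
      17)]
    fin := [0, 0, 0, 3, 3, 3, 3, 0, 8, 9, 0, 3, 12, 13, 3, 15, 16, 17]
    chd := [(3, 12), (3, 17)]
    steps := [(0, 1), (0, 2), (0, 7), (0, 10), (3, 4), (3, 5), (3, 6), (3, 11), (3, 14)] }
  rep := [3, 0, 8, 12, 16, 17, 9, 13, 15]

noncomputable def v1815 : Cov.CovD where
  P := 3
  N := 6
  pl := [1, 2, 6, 8, 9]
  lev := [⟨[], [], [], [2], [(0, 1, [])]⟩,
    ⟨[], [(0, 1)], [], [2, 6], [(3, 1, [])]⟩,
    ⟨[(0, 1)], [(0, 0), (0, 1), (1, 0), (1, 1)], [(0, 1), (1, 1)], [], [(0, 1, []), (3, 1,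
      []), (4, 0, [3, 5])]⟩,
    ⟨[(0, 2), (1, 2)], [(2, 0), (2, 1), (2, 3)], [(0, 0), (0, 3)], [7], [(4, 0, [3, 5]),
      (5, 3, [0]), (7, 0, [3, 5])]⟩,
    ⟨[(2, 3)], [(2, 0), (3, 0), (3, 3)], [(0, 3)], [8], [(4, 0, [3, 5]), (5, 3, [0])]⟩,
    ⟨[(2, 3), (3, 4)], [(3, 0), (3, 3)], [], [4], [(7, 0, [3, 5])]⟩,
    ⟨[(0, 2), (1, 2), (2, 3), (2, 5), (3, 4), (3, 5)], [(0, 1), (2, 0), (2, 1), (2, 5), (3,
      0), (3, 1), (3, 3), (3, 5), (5, 0), (5, 1), (5, 5)], [(1, 5)], [4], [(0, 1, []), (10,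
      5, [0])]⟩]
  Ta := [((0, 1), 1, 2), ((0, 10), 1, 5), ((3, 2), 1, 6), ((3, 4), 1, 0), ((4, 3), 0, 1), ((4,
    8), 0, 8), ((7, 6), 0, 7), ((7, 9), 0, 4)]
  Tb := [((0, 1, 10), 1, 2, 5), ((1, 0, 2), 2, 1, 6), ((2, 1, 3), 6, 2, 1), ((3, 2, 4), 1, 6, 0),
    ((4, 3, 8), 0, 1, 8), ((5, 6, 8), 3, 7, 8), ((6, 5, 7), 7, 3, 0), ((7, 6, 9), 0, 7, 4),
    ((8, 4, 5), 8, 0, 3), ((9, 7, 10), 4, 0, 5), ((10, 0, 9), 5, 1, 4)]
  Tc := [(0, 3, 5)]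
  Td := [((0, 3), (4, 3), 1), ((0, 3), (4, 8), 8), ((0, 3), (7, 6), 7), ((0, 3), (7, 9), 4), ((0,
    5), (4, 3), 1), ((0, 5), (4, 8), 8), ((0, 5), (7, 6), 7), ((0, 5), (7, 9), 4), ((3, 0),
    (5, 6), 7), ((3, 0), (5, 8), 8), ((5, 0), (10, 0), 1), ((5, 0), (10, 9), 4)]
  G := [[0, 0, 0x11a11a11ae11611611ce611611611ce8c24,
    0x11a11a116e11611611ce611611c11ce8c11c11a11ae11611611ce6116116116e8c58,
    0x11a11a116e411611c11ae11611a11ceac28], [0,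
    0x11611a11ce211611a116e11611a11cec611611c116e11c11611cea11a11a11ce46c8,
    0x11a11a11ce411611c116e11c11a11ceac11c11a116e11a11a11ce611611c11ce8cc2, 0,
    0x11a4411611a116e129129a11a11a11ceec12911a11ae4116e111ae11a11a11ceac91], [0, 0,
    0x1848541459a91281a312181d67ec28,
    0x1449c391a11218c1ade45214121818ad1481a3ac181248d4521881481ecd8,
    0x12145471211a956d18c169e9218c21], [0, 0,
    0x21c383412f12141814cf63161921ac116316511612c911c5963e8c4, 0,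
    0x1412c5121831ab1811cc1a7e411a31651418481eb61214316b8c91]]

noncomputable def n1815 : Ent := ⟨e1815, noF, [], [], [(9, 15, [7334790850167413569773436004105379185503274260204390087403942012084225, 0])]⟩

def c1815 : PLift (Cov.check n1815.C.D v1815 = true) := ⟨by decide +kernel⟩

def b1815 : PLift (entF (fidx ts) 400 1815 n1815 = true) := ⟨by decide +kernel⟩

theorem g1815 : GoodF (fidx ts) 400 1815 := GoodF.ofV v1815 n1815 c1815.down b1815.down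

/-- 4578644:1552/1 -/
noncomputable def e1816 : SCfg where
  D := {
    a := 7
    L := 10
    kp := 7
    inn := [(0, 1), (0, 2), (0, 3), (1, 0), (1, 2), (2, 0), (2, 1), (2, 3), (2, 4), (3, 0), (3, 2), (3,
      4), (3, 5), (4, 2), (4, 3), (4, 6), (5, 3), (6, 4)]
    mix := [(0, 0), (1, 0), (1, 1), (1, 2), (2, 2), (2, 3), (2, 4), (3, 0), (3, 5), (3, 6), (3, 7), (4,
      4), (4, 5), (4, 8), (5, 0), (5, 1), (5, 7), (6, 4), (6, 8), (6, 9)]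
    cl := [0, 4, 3, 6, 1, 1, 0, 2, 5, 7]
    chq := [(0, 3), (0, 6), (3, 0), (6, 0)]
    rng := [(0, 1), (1, 0), (1, 2), (1, 7), (2, 1), (2, 3), (3, 2), (3, 4), (4, 3), (4, 9), (5, 6), (5,
      8), (6, 5), (6, 7), (7, 1), (7, 6), (8, 5), (8, 9), (9, 4), (9, 8)]
    lev := [] }
  links := [[1, 2, 3, 7], [2, 0, 7, 8, 9], [3, 0, 1, 9, 10, 11, 4], [7, 0, 2, 4, 12, 13, 14, 5], [12, 3,
    2, 11, 6, 15], [7, 3, 14, 8], [15, 4, 11, 16]]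
  P := {
    a := 7
    N := 17
    nb := [142, 901, 3611, 28853, 38988, 16776, 100368, 299, 17058, 1286, 2564, 66644, 40984, 20488,
      8488, 69712, 34880]
    tri := [(0, 1, 2), (0, 1, 7), (0, 2, 3), (0, 3, 7), (1, 2, 9), (1, 7, 8), (1, 8, 9), (2, 3, 4), (2,
      4, 11), (2, 9, 10), (2, 10, 11), (3, 4, 12), (3, 5, 7), (3, 5, 14), (3, 12, 13), (3, 13,
      14), (4, 6, 11), (4, 6, 15), (4, 12, 15), (5, 7, 8), (5, 8, 14), (6, 11, 16), (6, 15, 16)]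
    fin := [0, 0, 0, 0, 4, 0, 4, 0, 8, 9, 10, 4, 4, 0, 14, 15, 16]
    chd := [(0, 9), (0, 10)]
    steps := [(0, 1), (0, 2), (0, 3), (0, 7), (0, 5), (0, 13), (4, 6), (4, 11), (4, 12)] }
  rep := [0, 4, 14, 9, 8, 15, 10, 16]

noncomputable def v1816 : Cov.CovD where
  P := 3
  N := 5
  pl := [1, 7, 8, 9]
  lev := [⟨[], [], [], [], [(0, 0, [3, 6])]⟩,
    ⟨[], [(0, 0), (0, 3)], [(0, 3)], [4], [(0, 0, [3, 6]), (2, 3, [0])]⟩,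
    ⟨[(0, 1)], [(0, 0), (0, 1), (0, 3), (0, 6), (1, 0), (1, 1), (1, 3), (1, 6)], [(1, 3),
      (1, 6), (3, 6)], [], [(2, 3, [0]), (3, 6, [0]), (4, 1, [])]⟩,
    ⟨[(0, 1), (0, 2), (1, 2)], [(0, 0), (0, 1), (1, 0), (2, 0), (2, 1), (2, 3), (2, 6)],
      [(0, 0), (0, 1)], [2], [(0, 0, [3, 6]), (5, 1, []), (6, 0, [3, 6])]⟩,
    ⟨[(0, 2), (0, 3), (1, 2), (2, 3)], [(2, 1), (2, 3), (2, 6), (3, 0), (3, 1)], [(1, 1)],
      [5], [(4, 1, []), (5, 1, [])]⟩,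
    ⟨[(0, 3), (2, 3), (3, 4)], [(0, 0), (1, 0), (3, 0), (3, 1)], [], [2, 4], [(0, 0, [3,
      6])]⟩,
    ⟨[(2, 4), (3, 4)], [(2, 1), (4, 1)], [], [5, 7], [(4, 1, [])]⟩]
  Ta := [((0, 1), 0, 4), ((4, 3), 1, 6), ((4, 9), 1, 7), ((5, 6), 1, 0), ((5, 8), 1, 5), ((6, 5),
    0, 1), ((6, 7), 0, 2)]
  Tb := [((1, 0, 2), 4, 0, 3), ((1, 0, 7), 4, 0, 2), ((1, 2, 7), 4, 3, 2), ((2, 1, 3), 3, 4, 6),
    ((3, 2, 4), 6, 3, 1), ((4, 3, 9), 1, 6, 7), ((5, 6, 8), 1, 0, 5), ((6, 5, 7), 0, 1, 2),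
    ((7, 1, 6), 2, 4, 0), ((8, 5, 9), 5, 1, 7), ((9, 4, 8), 7, 1, 5)]
  Tc := [(0, 3, 6)]
  Td := [((0, 3), (0, 1), 4), ((0, 3), (6, 5), 1), ((0, 3), (6, 7), 2), ((0, 6), (0, 1), 4), ((0,
    6), (6, 5), 1), ((0, 6), (6, 7), 2), ((3, 0), (2, 1), 4), ((3, 0), (2, 3), 6), ((6, 0),
    (3, 2), 3), ((6, 0), (3, 4), 1)]
  G := [[0, 0, 0, 0x584988c1544948c155c499c8c1e2, 0x9858c21125da82d9898a112d282d818a1e4], [0, 0,
    0, 0x584288c124b4c812425cc988c1e4, 0x21e828d81323eaa28d8132a2c81e2], [0, 0,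
    0x9858c219454c21524928c1e4, 0x4849111cc1544948c1514918c1e2, 0x9858c219151c219151c21e8],
    [0, 0x141461818ac1411ca188c14411c18cce12, 0x7828581c424581a262581e2,
    0x9128c413461c812151c81e2, 0x2158c812151c812151c81e2]]

noncomputable def n1816 : Ent := ⟨e1816, noF, [], [], []⟩

def c1816 : PLift (Cov.check n1816.C.D v1816 = true) := ⟨by decide +kernel⟩

def b1816 : PLift (entF (fidx ts) 400 1816 n1816 = true) := ⟨by decide +kernel⟩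

theorem g1816 : GoodF (fidx ts) 400 1816 := GoodF.ofV v1816 n1816 c1816.down b1816.down

/-- 4578644:1552/2 -/
noncomputable def e1817 : SCfg where
  D := {
    a := 7
    L := 10
    kp := 7
    inn := [(0, 1), (0, 2), (0, 3), (1, 0), (1, 2), (2, 0), (2, 1), (2, 3), (2, 4), (3, 0), (3, 2), (3,
      4), (3, 5), (4, 2), (4, 3), (4, 6), (5, 3), (6, 4)]
    mix := [(0, 0), (1, 0), (1, 1), (1, 2), (2, 2), (2, 3), (2, 4), (3, 0), (3, 5), (3, 6), (3, 7), (4,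
      4), (4, 5), (4, 8), (5, 0), (5, 7), (5, 9), (6, 4), (6, 8), (6, 9)]
    cl := [0, 7, 3, 6, 1, 1, 0, 2, 4, 5]
    chq := [(0, 3), (0, 6), (3, 0), (6, 0)]
    rng := [(0, 1), (0, 9), (1, 0), (1, 2), (2, 1), (2, 3), (3, 2), (3, 4), (4, 3), (4, 9), (5, 6), (5,
      8), (6, 5), (6, 7), (7, 6), (7, 9), (8, 5), (8, 9), (9, 0), (9, 4), (9, 7), (9, 8)]
    lev := [] }
  links := [[1, 2, 3, 7], [2, 0, 7, 8, 9], [3, 0, 1, 9, 10, 11, 4], [7, 0, 2, 4, 12, 13, 14, 5], [12, 3,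
    2, 11, 6, 15], [7, 3, 14, 16], [15, 4, 11, 16]]
  P := {
    a := 7
    N := 17
    nb := [142, 901, 3611, 28853, 38988, 82056, 100368, 65835, 642, 1286, 2564, 66644, 40984, 20488,
      73768, 69712, 51424]
    tri := [(0, 1, 2), (0, 1, 7), (0, 2, 3), (0, 3, 7), (1, 2, 9), (1, 7, 8), (1, 8, 9), (2, 3, 4), (2,
      4, 11), (2, 9, 10), (2, 10, 11), (3, 4, 12), (3, 5, 7), (3, 5, 14), (3, 12, 13), (3, 13,
      14), (4, 6, 11), (4, 6, 15), (4, 12, 15), (5, 7, 16), (5, 14, 16), (6, 11, 16), (6, 15, 16)]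
    fin := [0, 0, 0, 0, 4, 0, 4, 0, 8, 9, 10, 4, 4, 0, 14, 15, 16]
    chd := [(0, 9), (0, 10)]
    steps := [(0, 1), (0, 2), (0, 3), (0, 5), (0, 7), (0, 13), (4, 6), (4, 11), (4, 12)] }
  rep := [0, 4, 14, 9, 15, 16, 10, 8]

noncomputable def v1817 : Cov.CovD where
  P := 3
  N := 5
  pl := [1, 7, 8, 9]
  lev := [⟨[], [], [], [], [(0, 0, [3, 6])]⟩,
    ⟨[], [(0, 0), (0, 3)], [(0, 3)], [7], [(0, 0, [3, 6]), (2, 3, [0])]⟩,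
    ⟨[(0, 1)], [(0, 0), (0, 1), (0, 3), (0, 6), (1, 0), (1, 1), (1, 3), (1, 6)], [(1, 3),
      (1, 6), (3, 6)], [], [(2, 3, [0]), (3, 6, [0]), (4, 1, [])]⟩,
    ⟨[(0, 1), (0, 2), (1, 2)], [(0, 0), (0, 1), (1, 0), (2, 0), (2, 1), (2, 3), (2, 6)],
      [(0, 0), (0, 1)], [2], [(0, 0, [3, 6]), (5, 1, []), (6, 0, [3, 6])]⟩,
    ⟨[(0, 2), (0, 3), (1, 2), (2, 3)], [(2, 1), (2, 3), (2, 6), (3, 0), (3, 1)], [(1, 1)],
      [4], [(4, 1, []), (5, 1, [])]⟩,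
    ⟨[(0, 3), (2, 3), (3, 4)], [(0, 0), (1, 0), (3, 0), (3, 1)], [], [2, 5], [(0, 0, [3,
      6])]⟩,
    ⟨[(2, 4), (3, 4)], [(2, 1), (4, 1)], [], [4, 5], [(4, 1, [])]⟩]
  Ta := [((0, 1), 0, 7), ((0, 9), 0, 5), ((4, 3), 1, 6), ((4, 9), 1, 5), ((5, 6), 1, 0), ((5, 8),
    1, 4), ((6, 5), 0, 1), ((6, 7), 0, 2)]
  Tb := [((0, 1, 9), 0, 7, 5), ((1, 0, 2), 7, 0, 3), ((2, 1, 3), 3, 7, 6), ((3, 2, 4), 6, 3, 1),
    ((4, 3, 9), 1, 6, 5), ((5, 6, 8), 1, 0, 4), ((6, 5, 7), 0, 1, 2), ((7, 6, 9), 2, 0, 5),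
    ((8, 5, 9), 4, 1, 5), ((9, 0, 4), 5, 0, 1), ((9, 0, 7), 5, 0, 2), ((9, 0, 8), 5, 0, 4),
    ((9, 4, 7), 5, 1, 2), ((9, 4, 8), 5, 1, 4), ((9, 7, 8), 5, 2, 4)]
  Tc := [(0, 3, 6)]
  Td := [((0, 3), (0, 1), 7), ((0, 3), (0, 9), 5), ((0, 3), (6, 5), 1), ((0, 3), (6, 7), 2), ((0,
    6), (0, 1), 7), ((0, 6), (0, 9), 5), ((0, 6), (6, 5), 1), ((0, 6), (6, 7), 2), ((3, 0),
    (2, 1), 7), ((3, 0), (2, 3), 6), ((6, 0), (3, 2), 3), ((6, 0), (3, 4), 1)]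
  G := [[0, 0, 0, 0x14c481c8c144481c18cc185c11944d41e2, 0x1252c8848ca11245ac888a11214ac888a1e4],
    [0, 0, 0, 0x24c481c8c114c482c8c114c481c8c1e2, 0x6232c8122b2c812252c81e4], [0, 0,
    0x81c14cc2185c11cc2181c14cc21e8, 0x11d1c8111d1c8185911c41e2, 0x9151c219151c219151c21e8],
    [0, 0x84c61a41c161a4184961a41e8, 0x2212542212944861258e18, 0x1121c412111c412111c41e2,
    0x2211c811122c811221c81e2]]

noncomputable def n1817 : Ent := ⟨e1817, noF, [], [], []⟩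

def c1817 : PLift (Cov.check n1817.C.D v1817 = true) := ⟨by decide +kernel⟩

def b1817 : PLift (entF (fidx ts) 400 1817 n1817 = true) := ⟨by decide +kernel⟩

theorem g1817 : GoodF (fidx ts) 400 1817 := GoodF.ofV v1817 n1817 c1817.down b1817.down

/-- 4578644:1552 -/
noncomputable def e1818 : SCfg where
  D := {
    a := 7
    L := 11
    kp := 8
    inn := [(0, 1), (0, 2), (0, 3), (1, 0), (1, 2), (2, 0), (2, 1), (2, 3), (2, 4), (3, 0), (3, 2), (3,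
      4), (3, 5), (4, 2), (4, 3), (4, 6), (5, 3), (6, 4)]
    mix := [(0, 0), (1, 0), (1, 1), (1, 2), (2, 2), (2, 3), (2, 4), (3, 0), (3, 5), (3, 6), (3, 7), (4,
      4), (4, 5), (4, 8), (5, 0), (5, 7), (5, 9), (6, 4), (6, 8), (6, 10)]
    cl := [0, 6, 3, 5, 1, 1, 0, 2, 4, 7, 8]
    chq := [(0, 3), (0, 5), (3, 0), (5, 0)]
    rng := [(0, 1), (0, 9), (1, 0), (1, 2), (2, 1), (2, 3), (3, 2), (3, 4), (4, 3), (4, 10), (5, 6),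
      (5, 8), (6, 5), (6, 7), (7, 6), (7, 9), (8, 5), (8, 10), (9, 0), (9, 7), (10, 4), (10, 8)]
    lev := [] }
  links := [[1, 2, 3, 7], [2, 0, 7, 8, 9], [3, 0, 1, 9, 10, 11, 4], [7, 0, 2, 4, 12, 13, 14, 5], [12, 3,
    2, 11, 6, 15], [7, 3, 14, 16], [15, 4, 11, 17]]
  P := {
    a := 7
    N := 18
    nb := [142, 901, 3611, 28853, 38988, 82056, 165904, 65835, 642, 1286, 2564, 132180, 40984, 20488,
      73768, 135248, 16544, 34880]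
    tri := [(0, 1, 2), (0, 1, 7), (0, 2, 3), (0, 3, 7), (1, 2, 9), (1, 7, 8), (1, 8, 9), (2, 3, 4), (2,
      4, 11), (2, 9, 10), (2, 10, 11), (3, 4, 12), (3, 5, 7), (3, 5, 14), (3, 12, 13), (3, 13,
      14), (4, 6, 11), (4, 6, 15), (4, 12, 15), (5, 7, 16), (5, 14, 16), (6, 11, 17), (6, 15, 17)]
    fin := [0, 0, 0, 0, 4, 0, 4, 0, 8, 9, 10, 4, 4, 0, 14, 15, 16, 17]
    chd := [(0, 9), (0, 10)]
    steps := [(0, 1), (0, 2), (0, 3), (0, 5), (0, 7), (0, 13), (4, 6), (4, 11), (4, 12)] }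
  rep := [0, 4, 14, 9, 15, 10, 8, 16, 17]

noncomputable def v1818 : Cov.CovD where
  P := 3
  N := 6
  pl := [1, 7, 8, 9, 10]
  lev := [⟨[], [], [], [], [(0, 0, [3, 5])]⟩,
    ⟨[], [(0, 0), (0, 3)], [(0, 3)], [6], [(0, 0, [3, 5]), (2, 3, [0])]⟩,
    ⟨[(0, 1)], [(0, 0), (0, 1), (0, 3), (0, 5), (1, 0), (1, 1), (1, 3), (1, 5)], [(1, 3),
      (1, 5), (3, 5)], [], [(2, 3, [0]), (3, 5, [0]), (4, 1, [])]⟩,
    ⟨[(0, 1), (0, 2), (1, 2)], [(0, 0), (0, 1), (1, 0), (2, 0), (2, 1), (2, 3), (2, 5)],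
      [(0, 0), (0, 1)], [2], [(0, 0, [3, 5]), (5, 1, []), (6, 0, [3, 5])]⟩,
    ⟨[(0, 2), (0, 3), (1, 2), (2, 3)], [(2, 1), (2, 3), (2, 5), (3, 0), (3, 1)], [(1, 1)],
      [4], [(4, 1, []), (5, 1, [])]⟩,
    ⟨[(0, 3), (2, 3), (3, 4)], [(0, 0), (1, 0), (3, 0), (3, 1)], [], [2, 7], [(0, 0, [3,
      5])]⟩,
    ⟨[(2, 4), (3, 4)], [(2, 1), (4, 1)], [], [4, 8], [(4, 1, [])]⟩]
  Ta := [((0, 1), 0, 6), ((0, 9), 0, 7), ((4, 3), 1, 5), ((4, 10), 1, 8), ((5, 6), 1, 0), ((5,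
    8), 1, 4), ((6, 5), 0, 1), ((6, 7), 0, 2)]
  Tb := [((0, 1, 9), 0, 6, 7), ((1, 0, 2), 6, 0, 3), ((2, 1, 3), 3, 6, 5), ((3, 2, 4), 5, 3, 1),
    ((4, 3, 10), 1, 5, 8), ((5, 6, 8), 1, 0, 4), ((6, 5, 7), 0, 1, 2), ((7, 6, 9), 2, 0, 7),
    ((8, 5, 10), 4, 1, 8), ((9, 0, 7), 7, 0, 2), ((10, 4, 8), 8, 1, 4)]
  Tc := [(0, 3, 5)]
  Td := [((0, 3), (0, 1), 6), ((0, 3), (0, 9), 7), ((0, 3), (6, 5), 1), ((0, 3), (6, 7), 2), ((0,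
    5), (0, 1), 6), ((0, 5), (0, 9), 7), ((0, 5), (6, 5), 1), ((0, 5), (6, 7), 2), ((3, 0),
    (2, 1), 6), ((3, 0), (2, 3), 5), ((5, 0), (3, 2), 3), ((5, 0), (3, 4), 1)]
  G := [[0, 0, 0, 0x55c499c8c155c499c8c145c499c18cc1e2,
    0x125da82d9898a1125da82d9898a1125da82d9898a1e4], [0, 0, 0,
    0x25c492c8c12ec4e2c8c12455cc288c1e2, 0x223b5a28d8131d6a2aad81223d5a28d81e4], [0, 0,
    0x99c55cc2199c55cc2155a499a8c1e4, 0x514918c14149111cc1514918c1e2,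
    0x9151c219151c219151c21e4], [0, 0xc161a41c161a41c161a41e8,
    0x2c6a6c94132a864d41cc6556942d8, 0x9121c419121c419121c41e2, 0x2151c812151c8121b1c81e4]]

noncomputable def n1818 : Ent := ⟨e1818, noF, [], [], [(8, 16, [7334685537875745012586738086077695515070955365108989538292687701114881, 0]), (17, 16, [7334685537875745012586738086077695515070955365108989538292687701118977, 0])]⟩

def c1818 : PLift (Cov.check n1818.C.D v1818 = true) := ⟨by decide +kernel⟩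

def b1818 : PLift (entF (fidx ts) 400 1818 n1818 = true) := ⟨by decide +kernel⟩

theorem g1818 : GoodF (fidx ts) 400 1818 := GoodF.ofV v1818 n1818 c1818.down b1818.down

/-- 4578446:1554/1 -/
noncomputable def e1819 : SCfg where
  D := {
    a := 7
    L := 10
    kp := 7
    inn := [(0, 1), (0, 2), (1, 0), (1, 2), (2, 0), (2, 1), (2, 3), (2, 6), (3, 2), (3, 4), (3, 5), (3,
      6), (4, 3), (5, 3), (5, 6), (6, 2), (6, 3), (6, 5)]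
    mix := [(0, 0), (0, 1), (1, 1), (1, 2), (1, 3), (2, 0), (2, 3), (2, 4), (3, 4), (3, 5), (3, 6), (3,
      7), (4, 1), (4, 6), (4, 7), (5, 7), (5, 8), (6, 0), (6, 8), (6, 9)]
    cl := [1, 2, 7, 1, 0, 5, 3, 0, 4, 6]
    chq := [(0, 6), (2, 5), (5, 2), (6, 0)]
    rng := [(0, 1), (0, 9), (1, 0), (1, 2), (1, 6), (1, 7), (2, 1), (2, 3), (3, 2), (3, 4), (4, 3), (4,
      5), (5, 4), (5, 6), (6, 1), (6, 5), (7, 1), (7, 8), (8, 7), (8, 9), (9, 0), (9, 8)]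
    lev := [] }
  links := [[1, 2, 7, 8], [2, 0, 8, 9, 10], [7, 0, 1, 10, 11, 3, 6], [6, 2, 11, 12, 13, 4, 14, 5], [14,
    3, 13, 8], [6, 3, 14, 15], [7, 2, 3, 5, 15, 16]]
  P := {
    a := 7
    N := 17
    nb := [390, 1797, 3275, 30836, 24840, 49224, 98476, 65861, 25235, 1282, 2566, 5132, 10248, 4376,
      33080, 82016, 32960]
    tri := [(0, 1, 2), (0, 1, 8), (0, 2, 7), (0, 7, 8), (1, 2, 10), (1, 8, 9), (1, 9, 10), (2, 3, 6),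
      (2, 3, 11), (2, 6, 7), (2, 10, 11), (3, 4, 13), (3, 4, 14), (3, 5, 6), (3, 5, 14), (3, 11,
      12), (3, 12, 13), (4, 8, 13), (4, 8, 14), (5, 6, 15), (5, 14, 15), (6, 7, 16), (6, 15, 16)]
    fin := [0, 0, 2, 3, 3, 2, 2, 0, 3, 9, 0, 2, 12, 13, 2, 15, 16]
    chd := [(2, 16), (3, 12)]
    steps := [(0, 1), (0, 7), (0, 10), (2, 6), (2, 5), (2, 11), (2, 14), (3, 4), (3, 8)] }
  rep := [2, 0, 3, 13, 15, 12, 16, 9]

noncomputable def v1819 : Cov.CovD where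
  P := 3
  N := 5
  pl := [2, 6, 8]
  lev := [⟨[], [], [(1, 2)], [], [(0, 1, []), (1, 2, [5])]⟩,
    ⟨[], [(0, 1), (0, 2)], [(1, 2)], [7], [(1, 2, [5]), (3, 1, [])]⟩,
    ⟨[(0, 1)], [(0, 0), (0, 1), (0, 2), (1, 0), (1, 1), (1, 2)], [(0, 1), (1, 1)], [], [(0,
      1, []), (3, 1, []), (4, 0, [6])]⟩,
    ⟨[(0, 2), (1, 2)], [(2, 0), (2, 1), (2, 5)], [(0, 0), (0, 5)], [3], [(4, 0, [6]), (5,
      5, [2]), (7, 0, [6])]⟩,
    ⟨[(2, 3)], [(0, 2), (1, 2), (3, 0), (3, 2), (3, 5)], [(0, 2)], [3], [(1, 2, [5]), (7,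
      0, [6])]⟩,
    ⟨[(2, 3), (3, 4)], [(3, 0), (3, 5), (4, 0)], [], [4], [(7, 0, [6])]⟩,
    ⟨[(0, 2), (1, 2), (2, 3), (2, 5), (3, 4), (3, 5)], [(0, 1), (2, 0), (2, 1), (2, 6), (3,
      0), (3, 1), (3, 5), (3, 6), (5, 0), (5, 1), (5, 6)], [(1, 6)], [4], [(0, 1, []), (9, 6,
      [0])]⟩]
  Ta := [((0, 1), 1, 2), ((0, 9), 1, 6), ((3, 2), 1, 7), ((3, 4), 1, 0), ((4, 3), 0, 1), ((4, 5),
    0, 5), ((7, 1), 0, 2), ((7, 8), 0, 4)]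
  Tb := [((0, 1, 9), 1, 2, 6), ((1, 0, 2), 2, 1, 7), ((1, 0, 6), 2, 1, 3), ((1, 0, 7), 2, 1, 0),
    ((1, 2, 6), 2, 7, 3), ((1, 2, 7), 2, 7, 0), ((1, 6, 7), 2, 3, 0), ((2, 1, 3), 7, 2, 1),
    ((3, 2, 4), 1, 7, 0), ((4, 3, 5), 0, 1, 5), ((5, 4, 6), 5, 0, 3), ((6, 1, 5), 3, 2, 5),
    ((7, 1, 8), 0, 2, 4), ((8, 7, 9), 4, 0, 6), ((9, 0, 8), 6, 1, 4)]
  Tc := []
  Td := [((0, 6), (4, 3), 1), ((0, 6), (4, 5), 5), ((0, 6), (7, 1), 2), ((0, 6), (7, 8), 4), ((2,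
    5), (1, 0), 1), ((2, 5), (1, 2), 7), ((2, 5), (1, 6), 3), ((2, 5), (1, 7), 0), ((5, 2),
    (5, 4), 0), ((5, 2), (5, 6), 3), ((6, 0), (9, 0), 1), ((6, 0), (9, 8), 4)]
  G := [[0, 0, 0, 0x121418d24121418d2494, 0x116811a111c2e428], [0,
    0x11a811c1611688c11a41161611688ac4, 0, 0, 0x125811a111c2e4116211a111c2e891], [0, 0,
    0x11a411c2611688c24, 0x4452c281a98c2cd1cd1cc2451, 0x1215aa14c2615682a948ac882a4d28], [0,
    0, 0x11a44116811c2ac811a411c2611688c46, 0, 0x12c316a43168d1c2ac12c31aac168631688c91]]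

noncomputable def n1819 : Ent := ⟨e1819, noF, [], [], []⟩

def c1819 : PLift (Cov.check n1819.C.D v1819 = true) := ⟨by decide +kernel⟩

def b1819 : PLift (entF (fidx ts) 400 1819 n1819 = true) := ⟨by decide +kernel⟩

theorem g1819 : GoodF (fidx ts) 400 1819 := GoodF.ofV v1819 n1819 c1819.down b1819.down

/-- 4578446:1554/2 -/
noncomputable def e1820 : SCfg where
  D := {
    a := 7
    L := 10
    kp := 7
    inn := [(0, 1), (0, 2), (1, 0), (1, 2), (2, 0), (2, 1), (2, 3), (2, 6), (3, 2), (3, 4), (3, 5), (3,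
      6), (4, 3), (5, 3), (5, 6), (6, 2), (6, 3), (6, 5)]
    mix := [(0, 0), (0, 1), (1, 1), (1, 2), (1, 3), (2, 0), (2, 3), (2, 4), (3, 4), (3, 5), (3, 6), (3,
      7), (4, 2), (4, 6), (4, 7), (5, 7), (5, 8), (6, 0), (6, 8), (6, 9)]
    cl := [1, 3, 2, 1, 0, 6, 4, 0, 5, 7]
    chq := [(0, 7), (2, 6), (6, 2), (7, 0)]
    rng := [(0, 1), (0, 9), (1, 0), (1, 2), (2, 1), (2, 3), (2, 6), (2, 7), (3, 2), (3, 4), (4, 3), (4,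
      5), (5, 4), (5, 6), (6, 2), (6, 5), (7, 2), (7, 8), (8, 7), (8, 9), (9, 0), (9, 8)]
    lev := [] }
  links := [[1, 2, 7, 8], [2, 0, 8, 9, 10], [7, 0, 1, 10, 11, 3, 6], [6, 2, 11, 12, 13, 4, 14, 5], [14,
    3, 13, 9], [6, 3, 14, 15], [7, 2, 3, 5, 15, 16]]
  P := {
    a := 7
    N := 17
    nb := [390, 1797, 3275, 30836, 25096, 49224, 98476, 65861, 643, 25874, 2566, 5132, 10248, 4632,
      33336, 82016, 32960]
    tri := [(0, 1, 2), (0, 1, 8), (0, 2, 7), (0, 7, 8), (1, 2, 10), (1, 8, 9), (1, 9, 10), (2, 3, 6),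
      (2, 3, 11), (2, 6, 7), (2, 10, 11), (3, 4, 13), (3, 4, 14), (3, 5, 6), (3, 5, 14), (3, 11,
      12), (3, 12, 13), (4, 9, 13), (4, 9, 14), (5, 6, 15), (5, 14, 15), (6, 7, 16), (6, 15, 16)]
    fin := [0, 0, 2, 3, 3, 2, 2, 0, 8, 3, 0, 2, 12, 13, 2, 15, 16]
    chd := [(2, 16), (3, 12)]
    steps := [(0, 1), (0, 7), (0, 10), (2, 6), (2, 5), (2, 11), (2, 14), (3, 4), (3, 9)] }
  rep := [2, 0, 3, 8, 13, 15, 12, 16]

noncomputable def v1820 : Cov.CovD where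
  P := 3
  N := 5
  pl := [1, 6, 8]
  lev := [⟨[], [], [], [3], [(0, 1, [])]⟩,
    ⟨[], [(0, 1), (0, 2)], [(1, 2)], [3], [(2, 2, [6]), (3, 1, [])]⟩,
    ⟨[(0, 1)], [(0, 0), (0, 1), (1, 0), (1, 1), (1, 2)], [(0, 1), (1, 1)], [], [(0, 1, []),
      (3, 1, []), (4, 0, [7])]⟩,
    ⟨[(0, 2), (1, 2)], [(2, 0), (2, 1), (2, 6)], [(0, 0), (0, 6)], [4], [(4, 0, [7]), (5,
      6, [2]), (7, 0, [7])]⟩,
    ⟨[(2, 3)], [(1, 2), (3, 0), (3, 2), (3, 6)], [(0, 2)], [4], [(2, 2, [6]), (7, 0, [7])]⟩,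
    ⟨[(2, 3), (3, 4)], [(3, 0), (3, 6), (4, 0)], [], [5], [(7, 0, [7])]⟩,
    ⟨[(0, 2), (1, 2), (2, 3), (2, 5), (3, 4), (3, 5)], [(0, 1), (2, 0), (2, 1), (2, 7), (3,
      0), (3, 1), (3, 6), (3, 7), (5, 0), (5, 1), (5, 7)], [(1, 7)], [5], [(0, 1, []), (9, 7,
      [0])]⟩]
  Ta := [((0, 1), 1, 3), ((0, 9), 1, 7), ((3, 2), 1, 2), ((3, 4), 1, 0), ((4, 3), 0, 1), ((4, 5),
    0, 6), ((7, 2), 0, 2), ((7, 8), 0, 5)]
  Tb := [((0, 1, 9), 1, 3, 7), ((1, 0, 2), 3, 1, 2), ((2, 1, 3), 2, 3, 1), ((2, 1, 6), 2, 3, 4),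
    ((2, 1, 7), 2, 3, 0), ((2, 3, 6), 2, 1, 4), ((2, 3, 7), 2, 1, 0), ((2, 6, 7), 2, 4, 0),
    ((3, 2, 4), 1, 2, 0), ((4, 3, 5), 0, 1, 6), ((5, 4, 6), 6, 0, 4), ((6, 2, 5), 4, 2, 6),
    ((7, 2, 8), 0, 2, 5), ((8, 7, 9), 5, 0, 7), ((9, 0, 8), 7, 1, 5)]
  Tc := []
  Td := [((0, 7), (4, 3), 1), ((0, 7), (4, 5), 6), ((0, 7), (7, 2), 2), ((0, 7), (7, 8), 5), ((2,
    6), (2, 1), 3), ((2, 6), (2, 3), 1), ((2, 6), (2, 6), 4), ((2, 6), (2, 7), 0), ((6, 2),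
    (5, 4), 0), ((6, 2), (5, 6), 4), ((7, 0), (9, 0), 1), ((7, 0), (9, 8), 5)]
  G := [[0, 0, 0, 0, 0x116811a111c2e48116211a111c2e819], [0, 0x116811a811c1e48116811a411c1e24c,
    0, 0x11a116928121814d2492, 0x11a11168611688c116811a111c2e492], [0, 0,
    0x11a44116811c2ac11a44116811c2ac61, 0,
    0x5218ca882c8ac426551a12a12868a425261da59aa1dc2e9428c19], [0, 0,
    0x11a44116811c2ac11a411c2611688cc1, 0x956d1cc248c16c16c2819,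
    0x2418a88228a45851a11aa4d1c22c8185e12ca1dc2631688c17]]

noncomputable def n1820 : Ent := ⟨e1820, noF, [], [], []⟩

def c1820 : PLift (Cov.check n1820.C.D v1820 = true) := ⟨by decide +kernel⟩

def b1820 : PLift (entF (fidx ts) 400 1820 n1820 = true) := ⟨by decide +kernel⟩

theorem g1820 : GoodF (fidx ts) 400 1820 := GoodF.ofV v1820 n1820 c1820.down b1820.down

/-- 4578446:1554 -/
noncomputable def e1821 : SCfg where
  D := {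
    a := 7
    L := 11
    kp := 8
    inn := [(0, 1), (0, 2), (1, 0), (1, 2), (2, 0), (2, 1), (2, 3), (2, 6), (3, 2), (3, 4), (3, 5), (3,
      6), (4, 3), (5, 3), (5, 6), (6, 2), (6, 3), (6, 5)]
    mix := [(0, 0), (0, 1), (1, 1), (1, 2), (1, 3), (2, 0), (2, 3), (2, 4), (3, 4), (3, 5), (3, 6), (3,
      7), (4, 6), (4, 7), (4, 8), (5, 7), (5, 9), (6, 0), (6, 9), (6, 10)]
    cl := [1, 2, 8, 1, 0, 5, 3, 0, 6, 4, 7]
    chq := [(0, 7), (5, 6), (6, 5), (7, 0)]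
    rng := [(0, 1), (0, 10), (1, 0), (1, 2), (2, 1), (2, 3), (3, 2), (3, 4), (4, 3), (4, 5), (5, 4),
      (5, 6), (6, 5), (6, 8), (7, 8), (7, 9), (8, 6), (8, 7), (9, 7), (9, 10), (10, 0), (10, 9)]
    lev := [] }
  links := [[1, 2, 7, 8], [2, 0, 8, 9, 10], [7, 0, 1, 10, 11, 3, 6], [6, 2, 11, 12, 13, 4, 14, 5], [14,
    3, 13, 15], [6, 3, 14, 16], [7, 2, 3, 5, 16, 17]]
  P := {
    a := 7
    N := 18
    nb := [390, 1797, 3275, 30836, 57352, 81992, 196780, 131397, 643, 1282, 2566, 5132, 10248, 36888,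
      98360, 24592, 147552, 65728]
    tri := [(0, 1, 2), (0, 1, 8), (0, 2, 7), (0, 7, 8), (1, 2, 10), (1, 8, 9), (1, 9, 10), (2, 3, 6),
      (2, 3, 11), (2, 6, 7), (2, 10, 11), (3, 4, 13), (3, 4, 14), (3, 5, 6), (3, 5, 14), (3, 11,
      12), (3, 12, 13), (4, 13, 15), (4, 14, 15), (5, 6, 16), (5, 14, 16), (6, 7, 17), (6, 16,
      17)]
    fin := [0, 0, 2, 3, 3, 2, 2, 0, 8, 9, 0, 2, 3, 13, 2, 15, 16, 17]
    chd := [(2, 17), (3, 15)]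
    steps := [(0, 1), (0, 7), (0, 10), (2, 6), (2, 5), (2, 11), (2, 14), (3, 4), (3, 12)] }
  rep := [2, 0, 8, 13, 16, 3, 15, 17, 9]

noncomputable def v1821 : Cov.CovD where
  P := 3
  N := 6
  pl := [1, 2, 6, 9]
  lev := [⟨[], [], [], [2], [(0, 1, [])]⟩,
    ⟨[], [(0, 1)], [], [2, 8], [(3, 1, [])]⟩,
    ⟨[(0, 1)], [(0, 0), (0, 1), (1, 0), (1, 1)], [(0, 1), (1, 1)], [], [(0, 1, []), (3, 1,
      []), (4, 0, [7])]⟩,
    ⟨[(0, 2), (1, 2)], [(2, 0), (2, 1), (2, 5)], [(0, 0), (0, 5)], [3], [(4, 0, [7]), (5,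
      5, [6]), (7, 0, [7])]⟩,
    ⟨[(2, 3)], [(3, 0), (3, 5), (3, 6)], [(0, 6)], [3], [(7, 0, [7]), (8, 6, [5])]⟩,
    ⟨[(2, 3), (3, 4)], [(3, 0), (3, 5), (4, 0)], [], [4], [(7, 0, [7])]⟩,
    ⟨[(0, 2), (1, 2), (2, 3), (2, 5), (3, 4), (3, 5)], [(0, 1), (2, 0), (2, 1), (2, 7), (3,
      0), (3, 1), (3, 5), (3, 7), (5, 0), (5, 1), (5, 7)], [(1, 7)], [4], [(0, 1, []), (10,
      7, [0])]⟩]
  Ta := [((0, 1), 1, 2), ((0, 10), 1, 7), ((3, 2), 1, 8), ((3, 4), 1, 0), ((4, 3), 0, 1), ((4,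
    5), 0, 5), ((7, 8), 0, 6), ((7, 9), 0, 4)]
  Tb := [((0, 1, 10), 1, 2, 7), ((1, 0, 2), 2, 1, 8), ((2, 1, 3), 8, 2, 1), ((3, 2, 4), 1, 8, 0),
    ((4, 3, 5), 0, 1, 5), ((5, 4, 6), 5, 0, 3), ((6, 5, 8), 3, 5, 6), ((7, 8, 9), 0, 6, 4),
    ((8, 6, 7), 6, 3, 0), ((9, 7, 10), 4, 0, 7), ((10, 0, 9), 7, 1, 4)]
  Tc := []
  Td := [((0, 7), (4, 3), 1), ((0, 7), (4, 5), 5), ((0, 7), (7, 8), 6), ((0, 7), (7, 9), 4), ((5,
    6), (5, 4), 0), ((5, 6), (5, 6), 3), ((6, 5), (8, 6), 3), ((6, 5), (8, 7), 0), ((7, 0),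
    (10, 0), 1), ((7, 0), (10, 9), 4)]
  G := [[0, 0, 0x116116311a111c1169e824, 0x12121814f11c116c611618c116111a11aa11c11a5e458,
    0x11c116511a11a911c1e428], [0, 0x11611a611a11a91161e41411651811a5a141218b46c8,
    0x11614129116312141818fac1251165e1125a11c1e8c4, 0,
    0x1812c14711a111a11ace411a11161169611ae168c98], [0, 0, 0x9561d6681a19aac1ad1cce4842a4528,
    0x12116659a481eac161dccec4c26891565166419e59aa1dcc16ce848268c54,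
    0x1d659aa495659a6c1a59ccac21], [0, 0,
    0x12c31aa5842c621c21c681c91ccac431a12ca15a15ac62ec2ec68884ca98c, 0,
    0x21c31a631a31aad1c1d6ce412c12c631a31aac1a95ace498]]

noncomputable def n1821 : Ent := ⟨e1821, noF, [], [], [(8, 15, [7334790850167413569773436004105379185503274260204390087403942012104705, 0]), (9, 15, [7334790850167413569773436004105379185503274260204390087403942012108801, 0])]⟩

def c1821 : PLift (Cov.check n1821.C.D v1821 = true) := ⟨by decide +kernel⟩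

def b1821 : PLift (entF (fidx ts) 400 1821 n1821 = true) := ⟨by decide +kernel⟩

theorem g1821 : GoodF (fidx ts) 400 1821 := GoodF.ofV v1821 n1821 c1821.down b1821.down

/-- 4578644:1559/2 -/
noncomputable def e1822 : SCfg where
  D := {
    a := 7
    L := 9
    kp := 6
    inn := [(0, 1), (0, 2), (0, 3), (1, 0), (1, 2), (1, 4), (2, 0), (2, 1), (2, 3), (2, 4), (3, 0), (3,
      2), (3, 5), (3, 6), (4, 1), (4, 2), (5, 3), (6, 3)]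
    mix := [(0, 0), (1, 0), (1, 1), (2, 2), (2, 3), (2, 4), (3, 0), (3, 4), (3, 5), (3, 6), (4, 1), (4,
      2), (4, 7), (4, 8), (5, 5), (5, 6), (5, 7), (6, 0), (6, 1), (6, 6)]
    cl := [0, 1, 1, 5, 0, 2, 3, 4, 6]
    chq := [(1, 2), (2, 1), (2, 3), (3, 2)]
    rng := [(0, 1), (1, 0), (1, 6), (1, 7), (2, 3), (2, 8), (3, 2), (3, 4), (4, 3), (4, 5), (5, 4), (5,
      7), (6, 1), (6, 7), (7, 1), (7, 5), (7, 6), (7, 8), (8, 2), (8, 7)]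
    lev := [] }
  links := [[1, 2, 3, 7], [2, 0, 7, 8, 4], [3, 0, 1, 4, 9, 10, 11], [7, 0, 2, 11, 12, 5, 13, 6], [9, 2,
    1, 8, 14, 15], [13, 3, 12, 14], [7, 3, 13, 8]]
  P := {
    a := 7
    N := 16
    nb := [142, 405, 3611, 14565, 49926, 28680, 8584, 331, 24786, 33812, 2564, 5132, 18472, 16744,
      45360, 16912]
    tri := [(0, 1, 2), (0, 1, 7), (0, 2, 3), (0, 3, 7), (1, 2, 4), (1, 4, 8), (1, 7, 8), (2, 3, 11),
      (2, 4, 9), (2, 9, 10), (2, 10, 11), (3, 5, 12), (3, 5, 13), (3, 6, 7), (3, 6, 13), (3, 11,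
      12), (4, 8, 14), (4, 9, 15), (4, 14, 15), (5, 12, 14), (5, 13, 14), (6, 7, 8), (6, 8, 13)]
    fin := [0, 0, 0, 3, 3, 5, 3, 0, 3, 3, 10, 0, 5, 13, 14, 15]
    chd := [(3, 5), (5, 13)]
    steps := [(0, 1), (0, 2), (0, 7), (0, 11), (3, 6), (3, 8), (3, 4), (3, 9), (5, 12)] }
  rep := [0, 3, 5, 13, 14, 10, 15]

noncomputable def v1822 : Cov.CovD where
  P := 3
  N := 4
  pl := [3, 7, 8]
  lev := [⟨[], [], [], [], [(0, 0, [])]⟩,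
    ⟨[], [(0, 0), (0, 1)], [(0, 1)], [], [(0, 0, []), (1, 1, [2])]⟩,
    ⟨[(0, 1)], [(0, 0), (0, 1), (1, 0), (1, 1)], [(0, 1)], [5], [(2, 1, [2]), (4, 0, [])]⟩,
    ⟨[(0, 1), (0, 2), (1, 2)], [(0, 0), (0, 2), (0, 3), (1, 0), (2, 0), (2, 1), (2, 2), (2,
      3)], [(0, 0), (0, 2), (0, 3), (2, 3)], [], [(0, 0, []), (4, 0, []), (5, 2, [1, 3]), (6,
      3, [2])]⟩,
    ⟨[(0, 1), (0, 2), (1, 2), (2, 3)], [(1, 0), (1, 1), (2, 0), (2, 1)], [(1, 1)], [4, 6],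
      [(1, 1, [2]), (2, 1, [2])]⟩,
    ⟨[(0, 3), (2, 3)], [(3, 0), (3, 2), (3, 3)], [(2, 3)], [4], [(5, 2, [1, 3]), (6, 3,
      [2])]⟩,
    ⟨[(0, 3), (2, 3), (3, 5)], [(0, 0), (1, 0), (1, 1), (3, 0), (3, 1), (3, 2), (3, 3), (4,
      1), (5, 3)], [(0, 1), (0, 3), (1, 3)], [], [(0, 0, []), (1, 1, [2]), (6, 3, [2])]⟩]
  Ta := [((0, 1), 0, 1), ((1, 0), 1, 0), ((1, 6), 1, 3), ((1, 7), 1, 4), ((2, 3), 1, 5), ((2, 8),
    1, 6), ((4, 3), 0, 5), ((4, 5), 0, 2)]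
  Tb := [((1, 0, 6), 1, 0, 3), ((1, 0, 7), 1, 0, 4), ((1, 6, 7), 1, 3, 4), ((2, 3, 8), 1, 5, 6),
    ((3, 2, 4), 5, 1, 0), ((4, 3, 5), 0, 5, 2), ((5, 4, 7), 2, 0, 4), ((6, 1, 7), 3, 1, 4),
    ((7, 1, 5), 4, 1, 2), ((7, 1, 6), 4, 1, 3), ((7, 1, 8), 4, 1, 6), ((7, 5, 6), 4, 2, 3),
    ((7, 5, 8), 4, 2, 6), ((7, 6, 8), 4, 3, 6), ((8, 2, 7), 6, 1, 4)]
  Tc := [(2, 1, 3)]
  Td := [((1, 2), (1, 0), 0), ((1, 2), (1, 6), 3), ((1, 2), (1, 7), 4), ((1, 2), (2, 3), 5), ((1,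
    2), (2, 8), 6), ((2, 1), (5, 4), 0), ((2, 1), (5, 7), 4), ((2, 3), (5, 4), 0), ((2, 3),
    (5, 7), 4), ((3, 2), (6, 1), 1), ((3, 2), (6, 7), 4)]
  G := [[0, 0x2124221216212121ec2121a88181c2121ccea4, 0, 0x22142425c2222c228c348,
    0x411242124431848449c443443caf84], [0, 0, 0, 0x222282d222222dc284, 0x421242124242c2d84],
    [0, 0, 0x1241214146dc241818a9824c, 0x282221d221222dc284,
    0x4434244434241d242419248449443d8ec1], [0, 0, 0x121212d242121212d282c,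
    0x122222d222421dc248, 0x424242d242424242d2849]]

noncomputable def n1822 : Ent := ⟨e1822, noF, [], [], []⟩

def c1822 : PLift (Cov.check n1822.C.D v1822 = true) := ⟨by decide +kernel⟩

def b1822 : PLift (entF (fidx ts) 400 1822 n1822 = true) := ⟨by decide +kernel⟩

theorem g1822 : GoodF (fidx ts) 400 1822 := GoodF.ofV v1822 n1822 c1822.down b1822.down

/-- 4578644:1559/1 -/
noncomputable def e1823 : SCfg where
  D := {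
    a := 7
    L := 10
    kp := 7
    inn := [(0, 1), (0, 2), (0, 3), (1, 0), (1, 2), (1, 4), (2, 0), (2, 1), (2, 3), (2, 4), (3, 0), (3,
      2), (3, 5), (3, 6), (4, 1), (4, 2), (5, 3), (6, 3)]
    mix := [(0, 0), (1, 0), (1, 1), (2, 2), (2, 3), (2, 4), (3, 0), (3, 4), (3, 5), (3, 6), (4, 1), (4,
      2), (4, 7), (4, 8), (5, 5), (5, 6), (5, 9), (6, 0), (6, 1), (6, 6)]
    cl := [0, 1, 1, 2, 0, 4, 3, 5, 6, 7]
    chq := [(1, 4), (3, 4), (4, 1), (4, 3)]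
    rng := [(0, 1), (1, 0), (1, 6), (1, 7), (2, 3), (2, 8), (3, 2), (3, 4), (4, 3), (4, 5), (5, 4), (5,
      9), (6, 1), (6, 9), (7, 1), (7, 8), (8, 2), (8, 7), (9, 5), (9, 6)]
    lev := [] }
  links := [[1, 2, 3, 7], [2, 0, 7, 8, 4], [3, 0, 1, 4, 9, 10, 11], [7, 0, 2, 11, 12, 5, 13, 6], [9, 2,
    1, 8, 14, 15], [13, 3, 12, 16], [7, 3, 13, 8]]
  P := {
    a := 7
    N := 17
    nb := [142, 405, 3611, 14565, 49926, 77832, 8584, 331, 24786, 33812, 2564, 5132, 67624, 65896,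
      33040, 16912, 12320]
    tri := [(0, 1, 2), (0, 1, 7), (0, 2, 3), (0, 3, 7), (1, 2, 4), (1, 4, 8), (1, 7, 8), (2, 3, 11),
      (2, 4, 9), (2, 9, 10), (2, 10, 11), (3, 5, 12), (3, 5, 13), (3, 6, 7), (3, 6, 13), (3, 11,
      12), (4, 8, 14), (4, 9, 15), (4, 14, 15), (5, 12, 16), (5, 13, 16), (6, 7, 8), (6, 8, 13)]
    fin := [0, 0, 0, 3, 3, 5, 3, 0, 3, 3, 10, 0, 5, 13, 14, 15, 16]
    chd := [(3, 5), (5, 13)]
    steps := [(0, 1), (0, 2), (0, 7), (0, 11), (3, 6), (3, 8), (3, 4), (3, 9), (5, 12)] }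
  rep := [0, 3, 10, 13, 5, 14, 15, 16]

noncomputable def v1823 : Cov.CovD where
  P := 3
  N := 5
  pl := [3, 7, 8, 9]
  lev := [⟨[], [], [], [], [(0, 0, [])]⟩,
    ⟨[], [(0, 0), (0, 1)], [(0, 1)], [], [(0, 0, []), (1, 1, [4])]⟩,
    ⟨[(0, 1)], [(0, 0), (0, 1), (1, 0), (1, 1)], [(0, 1)], [2], [(2, 1, [4]), (4, 0, [])]⟩,
    ⟨[(0, 1), (0, 2), (1, 2)], [(0, 0), (0, 3), (0, 4), (1, 0), (2, 0), (2, 1), (2, 3), (2,
      4)], [(0, 0), (0, 3), (0, 4), (3, 4)], [], [(0, 0, []), (4, 0, []), (5, 4, [1, 3]), (6,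
      3, [4])]⟩,
    ⟨[(0, 1), (0, 2), (1, 2), (2, 3)], [(1, 0), (1, 1), (2, 0), (2, 1)], [(1, 1)], [5, 6],
      [(1, 1, [4]), (2, 1, [4])]⟩,
    ⟨[(0, 3), (2, 3)], [(3, 0), (3, 3), (3, 4)], [(3, 4)], [7], [(5, 4, [1, 3]), (6, 3,
      [4])]⟩,
    ⟨[(0, 3), (2, 3), (3, 5)], [(0, 0), (1, 0), (1, 1), (3, 0), (3, 1), (3, 3), (3, 4), (4,
      1), (5, 3)], [(0, 1), (0, 3), (1, 3)], [], [(0, 0, []), (1, 1, [4]), (6, 3, [4])]⟩]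
  Ta := [((0, 1), 0, 1), ((1, 0), 1, 0), ((1, 6), 1, 3), ((1, 7), 1, 5), ((2, 3), 1, 2), ((2, 8),
    1, 6), ((4, 3), 0, 2), ((4, 5), 0, 4)]
  Tb := [((1, 0, 6), 1, 0, 3), ((1, 0, 7), 1, 0, 5), ((1, 6, 7), 1, 3, 5), ((2, 3, 8), 1, 2, 6),
    ((3, 2, 4), 2, 1, 0), ((4, 3, 5), 0, 2, 4), ((5, 4, 9), 4, 0, 7), ((6, 1, 9), 3, 1, 7),
    ((7, 1, 8), 5, 1, 6), ((8, 2, 7), 6, 1, 5), ((9, 5, 6), 7, 4, 3)]
  Tc := [(4, 1, 3)]
  Td := [((1, 4), (1, 0), 0), ((1, 4), (1, 6), 3), ((1, 4), (1, 7), 5), ((1, 4), (2, 3), 2), ((1,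
    4), (2, 8), 6), ((3, 4), (6, 1), 1), ((3, 4), (6, 9), 7), ((4, 1), (5, 4), 0), ((4, 1),
    (5, 9), 7), ((4, 3), (5, 4), 0), ((4, 3), (5, 9), 7)]
  G := [[0, 0xc23c2362c2382c4a45a4564689689689e8ca45848aa, 0, 0,
    0x84ccf42a45845845d4a448918689489c83cc384ccf928cc], [0, 0, 0, 0x44ccf1248ccf48ccfc2524,
    0x84ccf1284ccf84ccfc2924], [0, 0, 0x51384c1f5244cc78249689649449d845a45845dc289, 0,
    0x84ccf84ccf84ccfd2449449489d885885885dca41], [0, 0, 0x84ccf84ccf84ccfd2481,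
    0x84ccf84ccf84ccfd2421, 0x84ccf84ccf84ccfd2821]]

noncomputable def n1823 : Ent := ⟨e1823, noF, [], [], [(14, 16, [1580044410770988437309982408355971841652082177953823432505696575489, 0])]⟩

def c1823 : PLift (Cov.check n1823.C.D v1823 = true) := ⟨by decide +kernel⟩

def b1823 : PLift (entF (fidx ts) 400 1823 n1823 = true) := ⟨by decide +kernel⟩

theorem g1823 : GoodF (fidx ts) 400 1823 := GoodF.ofV v1823 n1823 c1823.down b1823.down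

/-- 4578644:1559/3 -/
noncomputable def e1824 : SCfg where
  D := {
    a := 7
    L := 10
    kp := 7
    inn := [(0, 1), (0, 2), (0, 3), (1, 0), (1, 2), (1, 4), (2, 0), (2, 1), (2, 3), (2, 4), (3, 0), (3,
      2), (3, 5), (3, 6), (4, 1), (4, 2), (5, 3), (6, 3)]
    mix := [(0, 0), (1, 0), (1, 1), (2, 2), (2, 3), (2, 4), (3, 0), (3, 4), (3, 5), (3, 6), (4, 1), (4,
      2), (4, 7), (4, 8), (5, 5), (5, 6), (5, 7), (6, 0), (6, 6), (6, 9)]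
    cl := [0, 1, 1, 5, 2, 0, 3, 4, 6, 7]
    chq := [(0, 3), (0, 5), (3, 0), (5, 0)]
    rng := [(0, 1), (0, 9), (1, 0), (1, 7), (2, 3), (2, 8), (3, 2), (3, 4), (4, 3), (4, 5), (5, 4), (5,
      7), (6, 7), (6, 9), (7, 1), (7, 5), (7, 6), (7, 8), (8, 2), (8, 7), (9, 0), (9, 6)]
    lev := [] }
  links := [[1, 2, 3, 7], [2, 0, 7, 8, 4], [3, 0, 1, 4, 9, 10, 11], [7, 0, 2, 11, 12, 5, 13, 6], [9, 2,
    1, 8, 14, 15], [13, 3, 12, 14], [7, 3, 13, 16]]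
  P := {
    a := 7
    N := 17
    nb := [142, 405, 3611, 14565, 49926, 28680, 73864, 65867, 16530, 33812, 2564, 5132, 18472, 82024,
      45360, 16912, 8384]
    tri := [(0, 1, 2), (0, 1, 7), (0, 2, 3), (0, 3, 7), (1, 2, 4), (1, 4, 8), (1, 7, 8), (2, 3, 11),
      (2, 4, 9), (2, 9, 10), (2, 10, 11), (3, 5, 12), (3, 5, 13), (3, 6, 7), (3, 6, 13), (3, 11,
      12), (4, 8, 14), (4, 9, 15), (4, 14, 15), (5, 12, 14), (5, 13, 14), (6, 7, 16), (6, 13, 16)]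
    fin := [0, 0, 0, 0, 4, 0, 0, 0, 4, 4, 10, 11, 0, 13, 14, 15, 16]
    chd := [(0, 10), (0, 13)]
    steps := [(0, 1), (0, 2), (0, 3), (0, 5), (0, 6), (0, 7), (0, 12), (4, 8), (4, 9)] }
  rep := [0, 4, 11, 13, 14, 10, 15, 16]

noncomputable def v1824 : Cov.CovD where
  P := 3
  N := 5
  pl := [4, 7, 8, 9]
  lev := [⟨[], [], [], [], [(0, 0, [3, 5])]⟩,
    ⟨[], [(0, 0), (0, 1)], [(0, 1)], [], [(0, 0, [3, 5]), (1, 1, [])]⟩,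
    ⟨[(0, 1)], [(0, 0), (0, 1), (0, 5), (1, 0), (1, 1), (1, 5)], [(1, 5)], [2], [(2, 1,
      []), (3, 5, [0])]⟩,
    ⟨[(0, 1), (0, 2), (1, 2)], [(0, 0), (0, 3), (1, 0), (2, 0), (2, 1), (2, 3), (2, 5)],
      [(0, 0), (0, 3)], [2], [(0, 0, [3, 5]), (5, 0, [3, 5]), (6, 3, [0])]⟩,
    ⟨[(0, 1), (0, 2), (1, 2), (2, 3)], [(1, 0), (1, 1), (2, 1), (2, 5)], [(1, 1)], [4, 6],
      [(1, 1, []), (2, 1, [])]⟩,
    ⟨[(0, 3), (2, 3)], [(3, 0), (3, 3)], [(0, 3)], [4], [(5, 0, [3, 5]), (6, 3, [0])]⟩,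
    ⟨[(0, 3), (2, 3), (3, 5)], [(0, 0), (1, 0), (3, 0), (3, 3), (5, 3)], [(0, 3)], [7],
      [(0, 0, [3, 5]), (6, 3, [0])]⟩]
  Ta := [((0, 1), 0, 1), ((0, 9), 0, 7), ((1, 0), 1, 0), ((1, 7), 1, 4), ((2, 3), 1, 5), ((2, 8),
    1, 6), ((5, 4), 0, 2), ((5, 7), 0, 4)]
  Tb := [((0, 1, 9), 0, 1, 7), ((1, 0, 7), 1, 0, 4), ((2, 3, 8), 1, 5, 6), ((3, 2, 4), 5, 1, 2),
    ((4, 3, 5), 2, 5, 0), ((5, 4, 7), 0, 2, 4), ((6, 7, 9), 3, 4, 7), ((7, 1, 5), 4, 1, 0),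
    ((7, 1, 6), 4, 1, 3), ((7, 1, 8), 4, 1, 6), ((7, 5, 6), 4, 0, 3), ((7, 5, 8), 4, 0, 6),
    ((7, 6, 8), 4, 3, 6), ((8, 2, 7), 6, 1, 4), ((9, 0, 6), 7, 0, 3)]
  Tc := [(0, 3, 5)]
  Td := [((0, 3), (0, 1), 1), ((0, 3), (0, 9), 7), ((0, 3), (5, 4), 2), ((0, 3), (5, 7), 4), ((0,
    5), (0, 1), 1), ((0, 5), (0, 9), 7), ((0, 5), (5, 4), 2), ((0, 5), (5, 7), 4), ((3, 0),
    (6, 7), 4), ((3, 0), (6, 9), 7), ((5, 0), (3, 2), 1), ((5, 0), (3, 4), 2)]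
  G := [[0, 0xa1a1a1e6124561ec182, 0, 0x1114481118689a1683d61a4561dc54a,
    0x1112489c42c3d8269e1423d2b84], [0, 0, 0, 0x9114a118a2a2a2dc6ae1243dcd42,
    0x111121a689c85c1d6161c23da924], [0, 0, 0x1214116d424181211ad828c,
    0x111111c3811aa2d52b4c11edc942, 0x11121cc181814c1d6616d2dab84], [0, 0,
    0x1212412125214145181891212ceca11a1411cd188684a, 0x111111c78a21caed121412dc582,
    0x121218c411cdd212d2da911188a4]]

noncomputable def n1824 : Ent := ⟨e1824, noF, [], [], [(8, 16, [1580044410770988437309982408355971841652082177953823432505696575489, 0])]⟩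

def c1824 : PLift (Cov.check n1824.C.D v1824 = true) := ⟨by decide +kernel⟩

def b1824 : PLift (entF (fidx ts) 400 1824 n1824 = true) := ⟨by decide +kernel⟩

theorem g1824 : GoodF (fidx ts) 400 1824 := GoodF.ofV v1824 n1824 c1824.down b1824.down

/-- 4578644:1559/4 -/
noncomputable def e1825 : SCfg where
  D := {
    a := 7
    L := 10
    kp := 7
    inn := [(0, 1), (0, 2), (0, 3), (1, 0), (1, 2), (1, 4), (2, 0), (2, 1), (2, 3), (2, 4), (3, 0), (3,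
      2), (3, 5), (3, 6), (4, 1), (4, 2), (5, 3), (6, 3)]
    mix := [(0, 0), (1, 0), (1, 1), (2, 2), (2, 3), (2, 4), (3, 0), (3, 4), (3, 5), (3, 6), (4, 1), (4,
      2), (4, 7), (4, 8), (5, 5), (5, 6), (5, 8), (6, 0), (6, 6), (6, 9)]
    cl := [0, 1, 1, 5, 2, 0, 3, 6, 4, 7]
    chq := [(0, 3), (0, 5), (3, 0), (5, 0)]
    rng := [(0, 1), (0, 9), (1, 0), (1, 7), (2, 3), (2, 8), (3, 2), (3, 4), (4, 3), (4, 5), (5, 4), (5,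
      8), (6, 8), (6, 9), (7, 1), (7, 8), (8, 2), (8, 5), (8, 6), (8, 7), (9, 0), (9, 6)]
    lev := [] }
  links := [[1, 2, 3, 7], [2, 0, 7, 8, 4], [3, 0, 1, 4, 9, 10, 11], [7, 0, 2, 11, 12, 5, 13, 6], [9, 2,
    1, 8, 14, 15], [13, 3, 12, 15], [7, 3, 13, 16]]
  P := {
    a := 7
    N := 17
    nb := [142, 405, 3611, 14565, 49926, 45064, 73864, 65867, 16530, 33812, 2564, 5132, 34856, 98408,
      33040, 29232, 8384]
    tri := [(0, 1, 2), (0, 1, 7), (0, 2, 3), (0, 3, 7), (1, 2, 4), (1, 4, 8), (1, 7, 8), (2, 3, 11),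
      (2, 4, 9), (2, 9, 10), (2, 10, 11), (3, 5, 12), (3, 5, 13), (3, 6, 7), (3, 6, 13), (3, 11,
      12), (4, 8, 14), (4, 9, 15), (4, 14, 15), (5, 12, 15), (5, 13, 15), (6, 7, 16), (6, 13, 16)]
    fin := [0, 0, 0, 0, 4, 0, 0, 0, 4, 4, 10, 11, 0, 13, 14, 15, 16]
    chd := [(0, 10), (0, 13)]
    steps := [(0, 1), (0, 2), (0, 3), (0, 5), (0, 6), (0, 7), (0, 12), (4, 8), (4, 9)] }
  rep := [0, 4, 11, 13, 15, 10, 14, 16]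

noncomputable def v1825 : Cov.CovD where
  P := 3
  N := 5
  pl := [4, 7, 8, 9]
  lev := [⟨[], [], [], [], [(0, 0, [3, 5])]⟩,
    ⟨[], [(0, 0), (0, 1)], [(0, 1)], [], [(0, 0, [3, 5]), (1, 1, [])]⟩,
    ⟨[(0, 1)], [(0, 0), (0, 1), (0, 5), (1, 0), (1, 1), (1, 5)], [(1, 5)], [2], [(2, 1,
      []), (3, 5, [0])]⟩,
    ⟨[(0, 1), (0, 2), (1, 2)], [(0, 0), (0, 3), (1, 0), (2, 0), (2, 1), (2, 3), (2, 5)],
      [(0, 0), (0, 3)], [2], [(0, 0, [3, 5]), (5, 0, [3, 5]), (6, 3, [0])]⟩,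
    ⟨[(0, 1), (0, 2), (1, 2), (2, 3)], [(1, 0), (1, 1), (2, 1), (2, 5)], [(1, 1)], [4, 6],
      [(1, 1, []), (2, 1, [])]⟩,
    ⟨[(0, 3), (2, 3)], [(3, 0), (3, 3)], [(0, 3)], [4], [(5, 0, [3, 5]), (6, 3, [0])]⟩,
    ⟨[(0, 3), (2, 3), (3, 5)], [(0, 0), (1, 0), (3, 0), (3, 3), (5, 3)], [(0, 3)], [7],
      [(0, 0, [3, 5]), (6, 3, [0])]⟩]
  Ta := [((0, 1), 0, 1), ((0, 9), 0, 7), ((1, 0), 1, 0), ((1, 7), 1, 6), ((2, 3), 1, 5), ((2, 8),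
    1, 4), ((5, 4), 0, 2), ((5, 8), 0, 4)]
  Tb := [((0, 1, 9), 0, 1, 7), ((1, 0, 7), 1, 0, 6), ((2, 3, 8), 1, 5, 4), ((3, 2, 4), 5, 1, 2),
    ((4, 3, 5), 2, 5, 0), ((5, 4, 8), 0, 2, 4), ((6, 8, 9), 3, 4, 7), ((7, 1, 8), 6, 1, 4),
    ((8, 2, 5), 4, 1, 0), ((8, 2, 6), 4, 1, 3), ((8, 2, 7), 4, 1, 6), ((8, 5, 6), 4, 0, 3),
    ((8, 5, 7), 4, 0, 6), ((8, 6, 7), 4, 3, 6), ((9, 0, 6), 7, 0, 3)]
  Tc := [(0, 3, 5)]
  Td := [((0, 3), (0, 1), 1), ((0, 3), (0, 9), 7), ((0, 3), (5, 4), 2), ((0, 3), (5, 8), 4), ((0,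
    5), (0, 1), 1), ((0, 5), (0, 9), 7), ((0, 5), (5, 4), 2), ((0, 5), (5, 8), 4), ((3, 0),
    (6, 8), 4), ((3, 0), (6, 9), 7), ((5, 0), (3, 2), 1), ((5, 0), (3, 4), 2)]
  G := [[0, 0xa1a1a1e6124561ec182, 0, 0x11141218683683a2d6161e1dcd82,
    0x1212c1c852c3d8c2361423d2b84], [0, 0, 0, 0x111111c289a1e1d869a4562dc582,
    0x111111a489c856c3d8696161da924], [0, 0, 0x121212d11a14111edc248,
    0x111111c18121aad62b4116dc942, 0x1212181718381418d92d252dab84], [0, 0,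
    0x1411c548144116116ca4611a81811a12d61811c9121ac2c, 0x111111c781211ad12b4166dc582,
    0x111121a18c41caed1d611612da924]]

noncomputable def n1825 : Ent := ⟨e1825, noF, [], [], []⟩

def c1825 : PLift (Cov.check n1825.C.D v1825 = true) := ⟨by decide +kernel⟩

def b1825 : PLift (entF (fidx ts) 400 1825 n1825 = true) := ⟨by decide +kernel⟩

theorem g1825 : GoodF (fidx ts) 400 1825 := GoodF.ofV v1825 n1825 c1825.down b1825.down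

/-- 4578644:1559 -/
noncomputable def e1826 : SCfg where
  D := {
    a := 7
    L := 11
    kp := 8
    inn := [(0, 1), (0, 2), (0, 3), (1, 0), (1, 2), (1, 4), (2, 0), (2, 1), (2, 3), (2, 4), (3, 0), (3,
      2), (3, 5), (3, 6), (4, 1), (4, 2), (5, 3), (6, 3)]
    mix := [(0, 0), (1, 0), (1, 1), (2, 2), (2, 3), (2, 4), (3, 0), (3, 4), (3, 5), (3, 6), (4, 1), (4,
      2), (4, 7), (4, 8), (5, 5), (5, 6), (5, 9), (6, 0), (6, 6), (6, 10)]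
    cl := [0, 1, 1, 4, 2, 0, 3, 5, 6, 7, 8]
    chq := [(0, 3), (0, 4), (3, 0), (4, 0)]
    rng := [(0, 1), (0, 10), (1, 0), (1, 7), (2, 3), (2, 8), (3, 2), (3, 4), (4, 3), (4, 5), (5, 4),
      (5, 9), (6, 9), (6, 10), (7, 1), (7, 8), (8, 2), (8, 7), (9, 5), (9, 6), (10, 0), (10, 6)]
    lev := [] }
  links := [[1, 2, 3, 7], [2, 0, 7, 8, 4], [3, 0, 1, 4, 9, 10, 11], [7, 0, 2, 11, 12, 5, 13, 6], [9, 2,
    1, 8, 14, 15], [13, 3, 12, 16], [7, 3, 13, 17]]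
  P := {
    a := 7
    N := 18
    nb := [142, 405, 3611, 14565, 49926, 77832, 139400, 131403, 16530, 33812, 2564, 5132, 67624,
      196712, 33040, 16912, 12320, 8384]
    tri := [(0, 1, 2), (0, 1, 7), (0, 2, 3), (0, 3, 7), (1, 2, 4), (1, 4, 8), (1, 7, 8), (2, 3, 11),
      (2, 4, 9), (2, 9, 10), (2, 10, 11), (3, 5, 12), (3, 5, 13), (3, 6, 7), (3, 6, 13), (3, 11,
      12), (4, 8, 14), (4, 9, 15), (4, 14, 15), (5, 12, 16), (5, 13, 16), (6, 7, 17), (6, 13, 17)]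
    fin := [0, 0, 0, 0, 4, 0, 0, 0, 4, 4, 10, 11, 0, 13, 14, 15, 16, 17]
    chd := [(0, 10), (0, 13)]
    steps := [(0, 1), (0, 2), (0, 3), (0, 5), (0, 6), (0, 7), (0, 12), (4, 8), (4, 9)] }
  rep := [0, 4, 11, 13, 10, 14, 15, 16, 17]

noncomputable def v1826 : Cov.CovD where
  P := 3
  N := 6
  pl := [4, 7, 8, 9, 10]
  lev := [⟨[], [], [], [], [(0, 0, [3, 4])]⟩,
    ⟨[], [(0, 0), (0, 1)], [(0, 1)], [], [(0, 0, [3, 4]), (1, 1, [])]⟩,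
    ⟨[(0, 1)], [(0, 0), (0, 1), (0, 4), (1, 0), (1, 1), (1, 4)], [(1, 4)], [2], [(2, 1,
      []), (3, 4, [0])]⟩,
    ⟨[(0, 1), (0, 2), (1, 2)], [(0, 0), (0, 3), (1, 0), (2, 0), (2, 1), (2, 3), (2, 4)],
      [(0, 0), (0, 3)], [2], [(0, 0, [3, 4]), (5, 0, [3, 4]), (6, 3, [0])]⟩,
    ⟨[(0, 1), (0, 2), (1, 2), (2, 3)], [(1, 0), (1, 1), (2, 1), (2, 4)], [(1, 1)], [5, 6],
      [(1, 1, []), (2, 1, [])]⟩,
    ⟨[(0, 3), (2, 3)], [(3, 0), (3, 3)], [(0, 3)], [7], [(5, 0, [3, 4]), (6, 3, [0])]⟩,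
    ⟨[(0, 3), (2, 3), (3, 5)], [(0, 0), (1, 0), (3, 0), (3, 3), (5, 3)], [(0, 3)], [8],
      [(0, 0, [3, 4]), (6, 3, [0])]⟩]
  Ta := [((0, 1), 0, 1), ((0, 10), 0, 8), ((1, 0), 1, 0), ((1, 7), 1, 5), ((2, 3), 1, 4), ((2,
    8), 1, 6), ((5, 4), 0, 2), ((5, 9), 0, 7)]
  Tb := [((0, 1, 10), 0, 1, 8), ((1, 0, 7), 1, 0, 5), ((2, 3, 8), 1, 4, 6), ((3, 2, 4), 4, 1, 2),
    ((4, 3, 5), 2, 4, 0), ((5, 4, 9), 0, 2, 7), ((6, 9, 10), 3, 7, 8), ((7, 1, 8), 5, 1, 6),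
    ((8, 2, 7), 6, 1, 5), ((9, 5, 6), 7, 0, 3), ((10, 0, 6), 8, 0, 3)]
  Tc := [(0, 3, 4)]
  Td := [((0, 3), (0, 1), 1), ((0, 3), (0, 10), 8), ((0, 3), (5, 4), 2), ((0, 3), (5, 9), 7),
    ((0, 4), (0, 1), 1), ((0, 4), (0, 10), 8), ((0, 4), (5, 4), 2), ((0, 4), (5, 9), 7), ((3,
    0), (6, 9), 7), ((3, 0), (6, 10), 8), ((4, 0), (3, 2), 1), ((4, 0), (3, 4), 2)]
  G := [[0, 0xa1a1a1e616161ec182, 0, 0x111111ca124ad6a8bdaa4786361dc942,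
    0x6c94a69c6361da11112ac36c8d98ac4], [0, 0, 0, 0x111111c6a8ba16a9d61a647663dc582,
    0x1112c16c96c5dcc27665c63da911188a4], [0, 0, 0x128116116116dc241811a11ad828c,
    0xb661165418111111c53a11a7aad9168c58a, 0x111271c11c1caed86166d6116d2b84], [0, 0,
    0x11c11c51246116116116d2c211c11c98411a11a928c11c48411c818468ce,
    0x1118b66916166d454111411a3aa71ad858a, 0x111211c7cc7ccd6d6616116da911188a4]]

noncomputable def n1826 : Ent := ⟨e1826, noF, [], [], [(8, 17, [6903326391201334775872065844685381424292761054348340378595029937156097, 0]), (14, 16, [7334685537875745012586738086077695515070955365108989538292687701147649, 0]), (15, 16, [7334685537875745012586738086077695515070955365108989538292687701151745, 0])]⟩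

def c1826 : PLift (Cov.check n1826.C.D v1826 = true) := ⟨by decide +kernel⟩

def b1826 : PLift (entF (fidx ts) 400 1826 n1826 = true) := ⟨by decide +kernel⟩

theorem g1826 : GoodF (fidx ts) 400 1826 := GoodF.ofV v1826 n1826 c1826.down b1826.down

/-- 4576654:1563/2 -/
noncomputable def e1827 : SCfg where
  D := {
    a := 7
    L := 9
    kp := 6
    inn := [(0, 1), (0, 2), (1, 0), (1, 2), (1, 4), (2, 0), (2, 1), (2, 3), (2, 4), (3, 2), (3, 5), (4,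
      1), (4, 2), (5, 3), (5, 6), (6, 5)]
    mix := [(0, 0), (0, 1), (1, 1), (1, 2), (2, 0), (2, 3), (2, 4), (3, 0), (3, 4), (3, 5), (3, 6), (4,
      2), (4, 3), (4, 7), (4, 8), (5, 0), (5, 1), (5, 6), (6, 1), (6, 2), (6, 6)]
    cl := [0, 2, 1, 1, 0, 4, 3, 5, 6]
    chq := [(0, 3), (2, 3), (3, 0), (3, 2)]
    rng := [(0, 1), (1, 0), (1, 2), (2, 1), (2, 6), (2, 7), (3, 4), (3, 8), (4, 3), (4, 5), (5, 4), (5,
      6), (6, 2), (6, 5), (7, 2), (7, 8), (8, 3), (8, 7)]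
    lev := [] }
  links := [[1, 2, 7, 8], [2, 0, 8, 9, 4], [7, 0, 1, 4, 10, 11, 3], [7, 2, 11, 12, 13, 5], [10, 2, 1, 9,
    14, 15], [7, 3, 13, 6, 8], [8, 5, 13, 9]]
  P := {
    a := 7
    N := 16
    nb := [390, 789, 3227, 14500, 50694, 8648, 8992, 301, 739, 24914, 34836, 5132, 10248, 4712, 33296,
      17424]
    tri := [(0, 1, 2), (0, 1, 8), (0, 2, 7), (0, 7, 8), (1, 2, 4), (1, 4, 9), (1, 8, 9), (2, 3, 7), (2,
      3, 11), (2, 4, 10), (2, 10, 11), (3, 5, 7), (3, 5, 13), (3, 11, 12), (3, 12, 13), (4, 9,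
      14), (4, 10, 15), (4, 14, 15), (5, 6, 8), (5, 6, 13), (5, 7, 8), (6, 8, 9), (6, 9, 13)]
    fin := [0, 0, 0, 0, 4, 0, 6, 0, 6, 4, 4, 0, 12, 13, 14, 15]
    chd := [(0, 13), (6, 13)]
    steps := [(0, 1), (0, 2), (0, 3), (0, 7), (0, 5), (0, 11), (4, 9), (4, 10), (6, 8)] }
  rep := [0, 4, 6, 13, 12, 14, 15]

noncomputable def v1827 : Cov.CovD where
  P := 3
  N := 4
  pl := [5, 7, 8]
  lev := [⟨[], [], [(0, 2)], [], [(0, 0, [3]), (1, 2, [3])]⟩,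
    ⟨[], [(0, 0), (0, 1), (0, 2)], [(1, 2)], [], [(1, 2, [3]), (2, 1, [])]⟩,
    ⟨[(0, 1)], [(0, 0), (0, 1), (0, 2), (1, 0), (1, 1), (1, 2)], [(0, 0), (0, 1)], [], [(0,
      0, [3]), (3, 1, []), (4, 0, [3])]⟩,
    ⟨[(0, 2), (1, 2)], [(0, 0), (2, 0), (2, 1), (2, 3)], [(0, 0), (0, 3)], [4], [(0, 0,
      [3]), (4, 0, [3]), (6, 3, [0, 2])]⟩,
    ⟨[(0, 1), (0, 2), (1, 2), (2, 3)], [(1, 1), (1, 2), (2, 0), (2, 1)], [(1, 1)], [5, 6],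
      [(2, 1, []), (3, 1, [])]⟩,
    ⟨[(2, 3)], [(0, 0), (0, 2), (1, 2), (2, 0), (3, 0), (3, 2), (3, 3)], [(0, 2), (0, 3),
      (2, 3)], [], [(0, 0, [3]), (1, 2, [3]), (6, 3, [0, 2])]⟩,
    ⟨[(3, 5)], [(0, 2), (1, 1), (1, 2), (3, 3), (4, 1), (5, 0), (5, 1), (5, 2), (5, 3)],
      [(1, 2), (1, 3), (2, 3)], [], [(1, 2, [3]), (2, 1, []), (6, 3, [0, 2])]⟩]
  Ta := [((0, 1), 0, 2), ((2, 1), 1, 2), ((2, 6), 1, 3), ((2, 7), 1, 5), ((3, 4), 1, 0), ((3, 8),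
    1, 6), ((4, 3), 0, 1), ((4, 5), 0, 4)]
  Tb := [((1, 0, 2), 2, 0, 1), ((2, 1, 6), 1, 2, 3), ((2, 1, 7), 1, 2, 5), ((2, 6, 7), 1, 3, 5),
    ((3, 4, 8), 1, 0, 6), ((4, 3, 5), 0, 1, 4), ((5, 4, 6), 4, 0, 3), ((6, 2, 5), 3, 1, 4),
    ((7, 2, 8), 5, 1, 6), ((8, 3, 7), 6, 1, 5)]
  Tc := [(3, 0, 2)]
  Td := [((0, 3), (0, 1), 2), ((0, 3), (4, 3), 1), ((0, 3), (4, 5), 4), ((2, 3), (1, 0), 0), ((2,
    3), (1, 2), 1), ((3, 0), (6, 2), 1), ((3, 0), (6, 5), 4), ((3, 2), (6, 2), 1), ((3, 2),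
    (6, 5), 4)]
  G := [[0, 0, 0xc2c252c28288648a486d84684684adce84, 0x84c81c14cd2181818d141414dc618,
    0x81a81a81ad121212d6181818d8c12], [0, 0, 0x82825424242dc2c2c2de8288c24, 0,
    0x121212d121212d6812], [0, 0, 0, 0x48584c485d2188118d411414dca14,
    0x11a44181818d11a1839121212dec18], [0, 0x48584c62818181e414141ec18ea18, 0, 0,
    0x121212d121212d6821]]

noncomputable def n1827 : Ent := ⟨e1827, noF, [], [], []⟩

def c1827 : PLift (Cov.check n1827.C.D v1827 = true) := ⟨by decide +kernel⟩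

def b1827 : PLift (entF (fidx ts) 400 1827 n1827 = true) := ⟨by decide +kernel⟩

theorem g1827 : GoodF (fidx ts) 400 1827 := GoodF.ofV v1827 n1827 c1827.down b1827.down

/-- 4576654:1563/3 -/
noncomputable def e1828 : SCfg where
  D := {
    a := 7
    L := 9
    kp := 6
    inn := [(0, 1), (0, 2), (1, 0), (1, 2), (1, 4), (2, 0), (2, 1), (2, 3), (2, 4), (3, 2), (3, 5), (4,
      1), (4, 2), (5, 3), (5, 6), (6, 5)]
    mix := [(0, 0), (0, 1), (1, 1), (1, 2), (2, 0), (2, 3), (2, 4), (3, 0), (3, 4), (3, 5), (3, 6), (4,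
      2), (4, 3), (4, 7), (4, 8), (5, 0), (5, 1), (5, 6), (6, 1), (6, 6), (6, 7)]
    cl := [0, 1, 2, 2, 0, 5, 3, 4, 6]
    chq := [(0, 3), (0, 4), (3, 0), (4, 0)]
    rng := [(0, 1), (1, 0), (1, 2), (1, 7), (2, 1), (2, 7), (3, 4), (3, 8), (4, 3), (4, 5), (5, 4), (5,
      6), (6, 5), (6, 7), (7, 1), (7, 2), (7, 6), (7, 8), (8, 3), (8, 7)]
    lev := [] }
  links := [[1, 2, 7, 8], [2, 0, 8, 9, 4], [7, 0, 1, 4, 10, 11, 3], [7, 2, 11, 12, 13, 5], [10, 2, 1, 9,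
    14, 15], [7, 3, 13, 6, 8], [8, 5, 13, 14]]
  P := {
    a := 7
    N := 16
    nb := [390, 789, 3227, 14500, 50694, 8648, 24864, 301, 17123, 16658, 34836, 5132, 10248, 20584,
      41808, 17424]
    tri := [(0, 1, 2), (0, 1, 8), (0, 2, 7), (0, 7, 8), (1, 2, 4), (1, 4, 9), (1, 8, 9), (2, 3, 7), (2,
      3, 11), (2, 4, 10), (2, 10, 11), (3, 5, 7), (3, 5, 13), (3, 11, 12), (3, 12, 13), (4, 9,
      14), (4, 10, 15), (4, 14, 15), (5, 6, 8), (5, 6, 13), (5, 7, 8), (6, 8, 14), (6, 13, 14)]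
    fin := [0, 0, 0, 0, 4, 0, 0, 0, 8, 4, 4, 0, 12, 13, 14, 15]
    chd := [(0, 13), (0, 14)]
    steps := [(0, 1), (0, 2), (0, 3), (0, 7), (0, 5), (0, 6), (0, 11), (4, 9), (4, 10)] }
  rep := [0, 8, 4, 13, 14, 12, 15]

noncomputable def v1828 : Cov.CovD where
  P := 3
  N := 4
  pl := [1, 5, 8]
  lev := [⟨[], [], [], [1], [(0, 0, [3, 4])]⟩,
    ⟨[], [(0, 0), (0, 2)], [], [1], [(2, 2, [])]⟩,
    ⟨[(0, 1)], [(0, 0), (0, 2), (1, 0), (1, 2)], [(0, 0), (0, 2)], [], [(0, 0, [3, 4]), (3,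
      2, []), (4, 0, [3, 4])]⟩,
    ⟨[(0, 2), (1, 2)], [(0, 0), (2, 0), (2, 2), (2, 3)], [(0, 0), (0, 3)], [5], [(0, 0, [3,
      4]), (4, 0, [3, 4]), (6, 3, [0])]⟩,
    ⟨[(0, 1), (0, 2), (1, 2), (2, 3)], [(1, 2), (1, 4), (2, 0), (2, 2), (2, 4)], [(2, 2),
      (2, 4)], [6], [(2, 2, []), (3, 2, []), (7, 4, [0])]⟩,
    ⟨[(2, 3)], [(0, 0), (2, 0), (3, 0), (3, 3)], [(0, 3)], [1], [(0, 0, [3, 4]), (6, 3,
      [0])]⟩,
    ⟨[(3, 5)], [(3, 3), (4, 4), (5, 0), (5, 3), (5, 4)], [(3, 4)], [1], [(6, 3, [0]), (7,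
      4, [0])]⟩]
  Ta := [((0, 1), 0, 1), ((2, 1), 2, 1), ((2, 7), 2, 4), ((3, 4), 2, 0), ((3, 8), 2, 6), ((4, 3),
    0, 2), ((4, 5), 0, 5)]
  Tb := [((1, 0, 2), 1, 0, 2), ((1, 0, 7), 1, 0, 4), ((1, 2, 7), 1, 2, 4), ((2, 1, 7), 2, 1, 4),
    ((3, 4, 8), 2, 0, 6), ((4, 3, 5), 0, 2, 5), ((5, 4, 6), 5, 0, 3), ((6, 5, 7), 3, 5, 4),
    ((7, 1, 2), 4, 1, 2), ((7, 1, 6), 4, 1, 3), ((7, 1, 8), 4, 1, 6), ((7, 2, 6), 4, 2, 3),
    ((7, 2, 8), 4, 2, 6), ((7, 6, 8), 4, 3, 6), ((8, 3, 7), 6, 2, 4)]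
  Tc := [(0, 3, 4)]
  Td := [((0, 3), (0, 1), 1), ((0, 3), (4, 3), 2), ((0, 3), (4, 5), 5), ((0, 4), (0, 1), 1), ((0,
    4), (4, 3), 2), ((0, 4), (4, 5), 5), ((3, 0), (6, 5), 5), ((3, 0), (6, 7), 4), ((4, 0),
    (7, 1), 1), ((4, 0), (7, 2), 2), ((4, 0), (7, 6), 3), ((4, 0), (7, 8), 6)]
  G := [[0, 0x4ac1a4aa2c5626c8288668ca6d86a44acce84, 0, 0x14c4281c11c92181818d141414dce48,
    0x84c11c11cb2181818b141414bc618], [0, 0x44a448266868cd82ac2a982c24c22cdec28, 0, 0,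
    0x11c22181818b141414b81c11c9ea18], [0, 0, 0, 0x14911c52181818d1858a141414d4e18,
    0x14c22811818b141414b11c11c9ea18], [0, 0, 0x144114e18514911ce6181818e8a14, 0,
    0x11c22181818b141441bc114c9ea84]]

noncomputable def n1828 : Ent := ⟨e1828, noF, [], [], []⟩

def c1828 : PLift (Cov.check n1828.C.D v1828 = true) := ⟨by decide +kernel⟩

def b1828 : PLift (entF (fidx ts) 400 1828 n1828 = true) := ⟨by decide +kernel⟩

theorem g1828 : GoodF (fidx ts) 400 1828 := GoodF.ofV v1828 n1828 c1828.down b1828.down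

/-- 4576654:1563/1 -/
noncomputable def e1829 : SCfg where
  D := {
    a := 7
    L := 10
    kp := 7
    inn := [(0, 1), (0, 2), (1, 0), (1, 2), (1, 4), (2, 0), (2, 1), (2, 3), (2, 4), (3, 2), (3, 5), (4,
      1), (4, 2), (5, 3), (5, 6), (6, 5)]
    mix := [(0, 0), (0, 1), (1, 1), (1, 2), (2, 0), (2, 3), (2, 4), (3, 0), (3, 4), (3, 5), (3, 6), (4,
      2), (4, 3), (4, 7), (4, 8), (5, 0), (5, 1), (5, 6), (6, 1), (6, 6), (6, 9)]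
    cl := [0, 1, 2, 2, 0, 4, 3, 5, 6, 7]
    chq := [(1, 3), (1, 4), (3, 1), (4, 1)]
    rng := [(0, 1), (1, 0), (1, 2), (1, 9), (2, 1), (2, 7), (3, 4), (3, 8), (4, 3), (4, 5), (5, 4), (5,
      6), (6, 5), (6, 9), (7, 2), (7, 8), (8, 3), (8, 7), (9, 1), (9, 6)]
    lev := [] }
  links := [[1, 2, 7, 8], [2, 0, 8, 9, 4], [7, 0, 1, 4, 10, 11, 3], [7, 2, 11, 12, 13, 5], [10, 2, 1, 9,
    14, 15], [7, 3, 13, 6, 8], [8, 5, 13, 16]]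
  P := {
    a := 7
    N := 17
    nb := [390, 789, 3227, 14500, 50694, 8648, 74016, 301, 66275, 16658, 34836, 5132, 10248, 69736,
      33296, 17424, 8512]
    tri := [(0, 1, 2), (0, 1, 8), (0, 2, 7), (0, 7, 8), (1, 2, 4), (1, 4, 9), (1, 8, 9), (2, 3, 7), (2,
      3, 11), (2, 4, 10), (2, 10, 11), (3, 5, 7), (3, 5, 13), (3, 11, 12), (3, 12, 13), (4, 9,
      14), (4, 10, 15), (4, 14, 15), (5, 6, 8), (5, 6, 13), (5, 7, 8), (6, 8, 16), (6, 13, 16)]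
    fin := [0, 0, 0, 3, 4, 3, 3, 0, 3, 4, 4, 0, 12, 13, 14, 15, 16]
    chd := [(3, 12), (3, 13)]
    steps := [(0, 1), (0, 2), (0, 7), (0, 11), (3, 5), (3, 6), (3, 8), (4, 9), (4, 10)] }
  rep := [0, 3, 4, 13, 12, 14, 15, 16]

noncomputable def v1829 : Cov.CovD where
  P := 3
  N := 5
  pl := [7, 8, 9]
  lev := [⟨[], [], [(0, 1)], [], [(0, 0, []), (1, 1, [3, 4])]⟩,
    ⟨[], [(0, 0), (0, 1), (0, 2)], [(1, 2)], [], [(1, 1, [3, 4]), (2, 2, [])]⟩,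
    ⟨[(0, 1)], [(0, 0), (0, 1), (0, 2), (1, 0), (1, 1), (1, 2)], [(0, 0), (0, 2)], [], [(0,
      0, []), (3, 2, []), (4, 0, [])]⟩,
    ⟨[(0, 2), (1, 2)], [(0, 0), (2, 0), (2, 2), (2, 3), (2, 4)], [(0, 0), (0, 3), (0, 4),
      (3, 4)], [], [(0, 0, []), (4, 0, []), (5, 4, [1]), (6, 3, [1])]⟩,
    ⟨[(0, 1), (0, 2), (1, 2), (2, 3)], [(1, 1), (1, 2), (2, 0), (2, 2)], [(2, 2)], [5, 6],
      [(2, 2, []), (3, 2, [])]⟩,
    ⟨[(2, 3)], [(0, 0), (0, 1), (1, 1), (2, 0), (3, 0), (3, 1), (3, 3), (3, 4)], [(0, 1),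
      (0, 3), (1, 3)], [], [(0, 0, []), (1, 1, [3, 4]), (6, 3, [1])]⟩,
    ⟨[(3, 5)], [(0, 1), (1, 1), (3, 3), (5, 0), (5, 1), (5, 3)], [(1, 3)], [7], [(1, 1, [3,
      4]), (6, 3, [1])]⟩]
  Ta := [((0, 1), 0, 1), ((2, 1), 2, 1), ((2, 7), 2, 5), ((3, 4), 2, 0), ((3, 8), 2, 6), ((4, 3),
    0, 2), ((4, 5), 0, 4)]
  Tb := [((1, 0, 2), 1, 0, 2), ((1, 0, 9), 1, 0, 7), ((1, 2, 9), 1, 2, 7), ((2, 1, 7), 2, 1, 5),
    ((3, 4, 8), 2, 0, 6), ((4, 3, 5), 0, 2, 4), ((5, 4, 6), 4, 0, 3), ((6, 5, 9), 3, 4, 7),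
    ((7, 2, 8), 5, 2, 6), ((8, 3, 7), 6, 2, 5), ((9, 1, 6), 7, 1, 3)]
  Tc := [(1, 3, 4)]
  Td := [((1, 3), (1, 0), 0), ((1, 3), (1, 2), 2), ((1, 3), (1, 9), 7), ((1, 4), (1, 0), 0), ((1,
    4), (1, 2), 2), ((1, 4), (1, 9), 7), ((3, 1), (6, 5), 4), ((3, 1), (6, 9), 7), ((4, 1),
    (5, 4), 0), ((4, 1), (5, 6), 3)]
  G := [[0, 0xa6c22ce52a6c822c8eca6ca6dc6ac6a4a4edce48, 0, 0x95c95c5295c82c48,
    0x95c95c95cb2418], [0, 0xca64c6a4a4ec6ada24ea6c22cedeca6ca698c42, 0, 0,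
    0x95c95c95cb2814], [0, 0, 0, 0x95c95c95cd2841, 0x95c95c95cb2481], [0, 0,
    0x95c95c95ce2481, 0, 0x95c95c95cb2841]]

noncomputable def n1829 : Ent := ⟨e1829, noF, [], [], [(9, 16, [1580044410770988437309982408355971841652082177953823432505696595969, 0]), (14, 16, [1580044410770988437309982408355971841652082177953823432505696600065, 0])]⟩

def c1829 : PLift (Cov.check n1829.C.D v1829 = true) := ⟨by decide +kernel⟩

def b1829 : PLift (entF (fidx ts) 400 1829 n1829 = true) := ⟨by decide +kernel⟩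

theorem g1829 : GoodF (fidx ts) 400 1829 := GoodF.ofV v1829 n1829 c1829.down b1829.down

/-- 4576654:1563/4 -/
noncomputable def e1830 : SCfg where
  D := {
    a := 7
    L := 10
    kp := 7
    inn := [(0, 1), (0, 2), (1, 0), (1, 2), (1, 4), (2, 0), (2, 1), (2, 3), (2, 4), (3, 2), (3, 5), (4,
      1), (4, 2), (5, 3), (5, 6), (6, 5)]
    mix := [(0, 0), (0, 1), (1, 1), (1, 2), (2, 0), (2, 3), (2, 4), (3, 0), (3, 4), (3, 5), (3, 6), (4,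
      2), (4, 3), (4, 7), (4, 8), (5, 0), (5, 6), (5, 9), (6, 2), (6, 6), (6, 9)]
    cl := [0, 2, 1, 1, 0, 5, 3, 6, 7, 4]
    chq := [(0, 3), (3, 0), (3, 4), (4, 3)]
    rng := [(0, 1), (0, 9), (1, 0), (1, 2), (2, 1), (2, 6), (2, 7), (2, 9), (3, 4), (3, 8), (4, 3), (4,
      5), (5, 4), (5, 6), (6, 2), (6, 5), (7, 2), (7, 8), (8, 3), (8, 7), (9, 0), (9, 2)]
    lev := [] }
  links := [[1, 2, 7, 8], [2, 0, 8, 9, 4], [7, 0, 1, 4, 10, 11, 3], [7, 2, 11, 12, 13, 5], [10, 2, 1, 9,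
    14, 15], [7, 3, 13, 6, 16], [16, 5, 13, 9]]
  P := {
    a := 7
    N := 17
    nb := [390, 789, 3227, 14500, 50694, 73928, 74272, 65837, 643, 90450, 34836, 5132, 10248, 4712,
      33296, 17424, 736]
    tri := [(0, 1, 2), (0, 1, 8), (0, 2, 7), (0, 7, 8), (1, 2, 4), (1, 4, 9), (1, 8, 9), (2, 3, 7), (2,
      3, 11), (2, 4, 10), (2, 10, 11), (3, 5, 7), (3, 5, 13), (3, 11, 12), (3, 12, 13), (4, 9,
      14), (4, 10, 15), (4, 14, 15), (5, 6, 13), (5, 6, 16), (5, 7, 16), (6, 9, 13), (6, 9, 16)]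
    fin := [0, 0, 0, 0, 4, 5, 4, 0, 8, 4, 4, 0, 12, 5, 14, 15, 16]
    chd := [(0, 5), (5, 16)]
    steps := [(0, 1), (0, 2), (0, 3), (0, 7), (0, 11), (4, 9), (4, 6), (4, 10), (5, 13)] }
  rep := [0, 4, 8, 5, 16, 12, 14, 15]

noncomputable def v1830 : Cov.CovD where
  P := 3
  N := 5
  pl := [1, 5, 7, 8]
  lev := [⟨[], [], [], [2], [(0, 0, [3])]⟩,
    ⟨[], [(0, 0), (0, 1)], [], [2], [(2, 1, [])]⟩,
    ⟨[(0, 1)], [(0, 0), (0, 1), (1, 0), (1, 1)], [(0, 0), (0, 1)], [], [(0, 0, [3]), (3, 1,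
      []), (4, 0, [3])]⟩,
    ⟨[(0, 2), (1, 2)], [(0, 0), (2, 0), (2, 1), (2, 3)], [(0, 0), (0, 3)], [5], [(0, 0,
      [3]), (4, 0, [3]), (6, 3, [0, 4])]⟩,
    ⟨[(0, 1), (0, 2), (1, 2), (2, 3)], [(1, 1), (2, 0), (2, 1)], [(1, 1)], [6, 7], [(2, 1,
      []), (3, 1, [])]⟩,
    ⟨[(2, 3)], [(0, 0), (2, 0), (3, 0), (3, 3), (3, 4)], [(0, 3), (0, 4), (3, 4)], [], [(0,
      0, [3]), (6, 3, [0, 4]), (9, 4, [3])]⟩,
    ⟨[(3, 5)], [(1, 1), (3, 3), (4, 1), (5, 0), (5, 1), (5, 3), (5, 4)], [(1, 3), (1, 4),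
      (3, 4)], [], [(2, 1, []), (6, 3, [0, 4]), (9, 4, [3])]⟩]
  Ta := [((0, 1), 0, 2), ((0, 9), 0, 4), ((2, 1), 1, 2), ((2, 6), 1, 3), ((2, 7), 1, 6), ((2, 9),
    1, 4), ((3, 4), 1, 0), ((3, 8), 1, 7), ((4, 3), 0, 1), ((4, 5), 0, 5)]
  Tb := [((0, 1, 9), 0, 2, 4), ((1, 0, 2), 2, 0, 1), ((2, 1, 6), 1, 2, 3), ((2, 1, 7), 1, 2, 6),
    ((2, 1, 9), 1, 2, 4), ((2, 6, 7), 1, 3, 6), ((2, 6, 9), 1, 3, 4), ((2, 7, 9), 1, 6, 4),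
    ((3, 4, 8), 1, 0, 7), ((4, 3, 5), 0, 1, 5), ((5, 4, 6), 5, 0, 3), ((6, 2, 5), 3, 1, 5),
    ((7, 2, 8), 6, 1, 7), ((8, 3, 7), 7, 1, 6), ((9, 0, 2), 4, 0, 1)]
  Tc := [(3, 0, 4)]
  Td := [((0, 3), (0, 1), 2), ((0, 3), (0, 9), 4), ((0, 3), (4, 3), 1), ((0, 3), (4, 5), 5), ((3,
    0), (6, 2), 1), ((3, 0), (6, 5), 5), ((3, 4), (6, 2), 1), ((3, 4), (6, 5), 5), ((4, 3),
    (9, 0), 0), ((4, 3), (9, 2), 1)]
  G := [[0, 0, 0x111e811e54141e111e111ed841e811e811edac111e848c2,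
    0x52525d2d256d282929292d528ce84, 0x841e841e841ed2149e149e149ed815e815e815edc618], [0, 0,
    0x1244121212d12129121212dec82, 0, 0x5244929292d52529d2d2d2dec28], [0, 0, 0,
    0x1212521282121212d121212dce48, 0x1c31c35111e811e111ed1187841e811ede1c388c12], [0,
    0xe12e1e1664e1e1e1ee1e1ce18e298, 0, 0, 0x121254121212d128121212dec81]]

noncomputable def n1830 : Ent := ⟨e1830, noF, [], [], [(8, 16, [1580044410770988437309982408355971841652082177953823432505696595969, 0])]⟩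

def c1830 : PLift (Cov.check n1830.C.D v1830 = true) := ⟨by decide +kernel⟩

def b1830 : PLift (entF (fidx ts) 400 1830 n1830 = true) := ⟨by decide +kernel⟩

theorem g1830 : GoodF (fidx ts) 400 1830 := GoodF.ofV v1830 n1830 c1830.down b1830.down

/-- 4576654:1563/5 -/
noncomputable def e1831 : SCfg where
  D := {
    a := 7
    L := 10
    kp := 7
    inn := [(0, 1), (0, 2), (1, 0), (1, 2), (1, 4), (2, 0), (2, 1), (2, 3), (2, 4), (3, 2), (3, 5), (4,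
      1), (4, 2), (5, 3), (5, 6), (6, 5)]
    mix := [(0, 0), (0, 1), (1, 1), (1, 2), (2, 0), (2, 3), (2, 4), (3, 0), (3, 4), (3, 5), (3, 6), (4,
      2), (4, 3), (4, 7), (4, 8), (5, 0), (5, 6), (5, 9), (6, 6), (6, 7), (6, 9)]
    cl := [0, 2, 1, 1, 0, 6, 3, 4, 7, 5]
    chq := [(0, 3), (0, 4), (3, 0), (4, 0)]
    rng := [(0, 1), (0, 9), (1, 0), (1, 2), (2, 1), (2, 7), (3, 4), (3, 8), (4, 3), (4, 5), (5, 4), (5,
      6), (6, 5), (6, 7), (7, 2), (7, 6), (7, 8), (7, 9), (8, 3), (8, 7), (9, 0), (9, 7)]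
    lev := [] }
  links := [[1, 2, 7, 8], [2, 0, 8, 9, 4], [7, 0, 1, 4, 10, 11, 3], [7, 2, 11, 12, 13, 5], [10, 2, 1, 9,
    14, 15], [7, 3, 13, 6, 16], [16, 5, 13, 14]]
  P := {
    a := 7
    N := 17
    nb := [390, 789, 3227, 14500, 50694, 73928, 90144, 65837, 643, 16658, 34836, 5132, 10248, 20584,
      107088, 17424, 16608]
    tri := [(0, 1, 2), (0, 1, 8), (0, 2, 7), (0, 7, 8), (1, 2, 4), (1, 4, 9), (1, 8, 9), (2, 3, 7), (2,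
      3, 11), (2, 4, 10), (2, 10, 11), (3, 5, 7), (3, 5, 13), (3, 11, 12), (3, 12, 13), (4, 9,
      14), (4, 10, 15), (4, 14, 15), (5, 6, 13), (5, 6, 16), (5, 7, 16), (6, 13, 14), (6, 14, 16)]
    fin := [0, 0, 0, 0, 4, 0, 0, 0, 8, 4, 4, 0, 12, 13, 14, 15, 16]
    chd := [(0, 13), (0, 14)]
    steps := [(0, 1), (0, 2), (0, 3), (0, 5), (0, 6), (0, 7), (0, 11), (4, 9), (4, 10)] }
  rep := [0, 4, 8, 13, 14, 16, 12, 15]

noncomputable def v1831 : Cov.CovD where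
  P := 3
  N := 5
  pl := [1, 5, 8, 9]
  lev := [⟨[], [], [], [2], [(0, 0, [3, 4])]⟩,
    ⟨[], [(0, 0), (0, 1)], [], [2], [(2, 1, [])]⟩,
    ⟨[(0, 1)], [(0, 0), (0, 1), (1, 0), (1, 1)], [(0, 0), (0, 1)], [], [(0, 0, [3, 4]), (3,
      1, []), (4, 0, [3, 4])]⟩,
    ⟨[(0, 2), (1, 2)], [(0, 0), (2, 0), (2, 1), (2, 3)], [(0, 0), (0, 3)], [6], [(0, 0, [3,
      4]), (4, 0, [3, 4]), (6, 3, [0])]⟩,
    ⟨[(0, 1), (0, 2), (1, 2), (2, 3)], [(1, 1), (1, 4), (2, 0), (2, 1), (2, 4)], [(1, 1),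
      (1, 4)], [7], [(2, 1, []), (3, 1, []), (7, 4, [0])]⟩,
    ⟨[(2, 3)], [(0, 0), (2, 0), (3, 0), (3, 3)], [(0, 3)], [5], [(0, 0, [3, 4]), (6, 3,
      [0])]⟩,
    ⟨[(3, 5)], [(3, 3), (4, 4), (5, 0), (5, 3), (5, 4)], [(3, 4)], [5], [(6, 3, [0]), (7,
      4, [0])]⟩]
  Ta := [((0, 1), 0, 2), ((0, 9), 0, 5), ((2, 1), 1, 2), ((2, 7), 1, 4), ((3, 4), 1, 0), ((3, 8),
    1, 7), ((4, 3), 0, 1), ((4, 5), 0, 6)]
  Tb := [((0, 1, 9), 0, 2, 5), ((1, 0, 2), 2, 0, 1), ((2, 1, 7), 1, 2, 4), ((3, 4, 8), 1, 0, 7),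
    ((4, 3, 5), 0, 1, 6), ((5, 4, 6), 6, 0, 3), ((6, 5, 7), 3, 6, 4), ((7, 2, 6), 4, 1, 3),
    ((7, 2, 8), 4, 1, 7), ((7, 2, 9), 4, 1, 5), ((7, 6, 8), 4, 3, 7), ((7, 6, 9), 4, 3, 5),
    ((7, 8, 9), 4, 7, 5), ((8, 3, 7), 7, 1, 4), ((9, 0, 7), 5, 0, 4)]
  Tc := [(0, 3, 4)]
  Td := [((0, 3), (0, 1), 2), ((0, 3), (0, 9), 5), ((0, 3), (4, 3), 1), ((0, 3), (4, 5), 6), ((0,
    4), (0, 1), 2), ((0, 4), (0, 9), 5), ((0, 4), (4, 3), 1), ((0, 4), (4, 5), 6), ((3, 0),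
    (6, 5), 6), ((3, 0), (6, 7), 4), ((4, 0), (7, 2), 1), ((4, 0), (7, 6), 3), ((4, 0), (7,
    8), 7), ((4, 0), (7, 9), 5)]
  G := [[0, 0, 0x111e111e5141e111e56811e82111e111e111ed112e8ce48,
    0x831e341e331ed2192e142e592ed812e512e592edc618,
    0xd961835e512ed17ed831e315eb35ede199e142e38d8c12], [0, 0,
    0x112e142e112ed811e111e111eda4111e112e111ed48c2, 0,
    0x391e142e1d2ed831e341e331eda42812e512ed12ed481a], [0, 0, 0,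
    0x112e111e112ed111e111e111eda112e112e112ed4681,
    0x111e111e111ed2111e141e112ed812e111e111edc681], [0,
    0x114b111e6212821187111e111ee111e114b112de1858ee84, 0, 0,
    0x112e111e112ed4112e111e112ed811e141e111edac21]]

noncomputable def n1831 : Ent := ⟨e1831, noF, [], [], [(8, 16, [1580044410770988437309982408355971841652082177953823432505696600065, 0])]⟩

def c1831 : PLift (Cov.check n1831.C.D v1831 = true) := ⟨by decide +kernel⟩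

def b1831 : PLift (entF (fidx ts) 400 1831 n1831 = true) := ⟨by decide +kernel⟩

theorem g1831 : GoodF (fidx ts) 400 1831 := GoodF.ofV v1831 n1831 c1831.down b1831.down

/-- 4576654:1563/6 -/
noncomputable def e1832 : SCfg where
  D := {
    a := 7
    L := 10
    kp := 7
    inn := [(0, 1), (0, 2), (1, 0), (1, 2), (1, 4), (2, 0), (2, 1), (2, 3), (2, 4), (3, 2), (3, 5), (4,
      1), (4, 2), (5, 3), (5, 6), (6, 5)]
    mix := [(0, 0), (0, 1), (1, 1), (1, 2), (2, 0), (2, 3), (2, 4), (3, 0), (3, 4), (3, 5), (3, 6), (4,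
      2), (4, 3), (4, 7), (4, 8), (5, 0), (5, 6), (5, 9), (6, 6), (6, 8), (6, 9)]
    cl := [0, 2, 3, 3, 0, 6, 4, 7, 5, 1]
    chq := [(1, 4), (1, 6), (4, 1), (6, 1)]
    rng := [(0, 1), (0, 9), (1, 0), (1, 2), (2, 1), (2, 7), (3, 4), (3, 8), (4, 3), (4, 5), (5, 4), (5,
      6), (6, 5), (6, 8), (7, 2), (7, 8), (8, 3), (8, 6), (8, 7), (8, 9), (9, 0), (9, 8)]
    lev := [] }
  links := [[1, 2, 7, 8], [2, 0, 8, 9, 4], [7, 0, 1, 4, 10, 11, 3], [7, 2, 11, 12, 13, 5], [10, 2, 1, 9,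
    14, 15], [7, 3, 13, 6, 16], [16, 5, 13, 15]]
  P := {
    a := 7
    N := 17
    nb := [390, 789, 3227, 14500, 50694, 73928, 106528, 65837, 643, 16658, 34836, 5132, 10248, 36968,
      33296, 91216, 32992]
    tri := [(0, 1, 2), (0, 1, 8), (0, 2, 7), (0, 7, 8), (1, 2, 4), (1, 4, 9), (1, 8, 9), (2, 3, 7), (2,
      3, 11), (2, 4, 10), (2, 10, 11), (3, 5, 7), (3, 5, 13), (3, 11, 12), (3, 12, 13), (4, 9,
      14), (4, 10, 15), (4, 14, 15), (5, 6, 13), (5, 6, 16), (5, 7, 16), (6, 13, 15), (6, 15, 16)]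
    fin := [0, 0, 0, 3, 4, 5, 6, 0, 8, 4, 4, 0, 3, 13, 14, 6, 5]
    chd := [(3, 5), (13, 5)]
    steps := [(0, 1), (0, 2), (0, 7), (0, 11), (3, 12), (4, 9), (4, 10), (5, 16), (6, 15)] }
  rep := [0, 5, 8, 4, 13, 6, 3, 14]

noncomputable def v1832 : Cov.CovD where
  P := 3
  N := 5
  pl := [1, 7, 8]
  lev := [⟨[], [], [], [2], [(0, 0, [])]⟩,
    ⟨[], [(0, 0), (0, 3)], [], [2], [(2, 3, [])]⟩,
    ⟨[(0, 1)], [(0, 0), (0, 3), (1, 0), (1, 3)], [(0, 0), (0, 3)], [], [(0, 0, []), (3, 3,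
      []), (4, 0, [])]⟩,
    ⟨[(0, 2), (1, 2)], [(0, 0), (2, 0), (2, 3), (2, 4), (2, 6)], [(0, 0), (0, 4), (0, 6),
      (4, 6)], [], [(0, 0, []), (4, 0, []), (5, 6, [1]), (6, 4, [1])]⟩,
    ⟨[(0, 1), (0, 2), (1, 2), (2, 3)], [(1, 3), (2, 0), (2, 3)], [(3, 3)], [5, 7], [(2, 3,
      []), (3, 3, [])]⟩,
    ⟨[(2, 3)], [(0, 0), (2, 0), (3, 0), (3, 1), (3, 4), (3, 6)], [(0, 1), (0, 4), (1, 4)],
      [], [(0, 0, []), (6, 4, [1]), (9, 1, [4, 6])]⟩,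
    ⟨[(3, 5)], [(3, 4), (5, 0), (5, 1), (5, 4)], [(1, 4)], [5], [(6, 4, [1]), (9, 1, [4,
      6])]⟩]
  Ta := [((0, 1), 0, 2), ((0, 9), 0, 1), ((2, 1), 3, 2), ((2, 7), 3, 7), ((3, 4), 3, 0), ((3, 8),
    3, 5), ((4, 3), 0, 3), ((4, 5), 0, 6)]
  Tb := [((0, 1, 9), 0, 2, 1), ((1, 0, 2), 2, 0, 3), ((2, 1, 7), 3, 2, 7), ((3, 4, 8), 3, 0, 5),
    ((4, 3, 5), 0, 3, 6), ((5, 4, 6), 6, 0, 4), ((6, 5, 8), 4, 6, 5), ((7, 2, 8), 7, 3, 5),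
    ((8, 3, 6), 5, 3, 4), ((8, 3, 7), 5, 3, 7), ((8, 3, 9), 5, 3, 1), ((8, 6, 7), 5, 4, 7),
    ((8, 6, 9), 5, 4, 1), ((8, 7, 9), 5, 7, 1), ((9, 0, 8), 1, 0, 5)]
  Tc := [(1, 4, 6)]
  Td := [((1, 4), (9, 0), 0), ((1, 4), (9, 8), 5), ((1, 6), (9, 0), 0), ((1, 6), (9, 8), 5), ((4,
    1), (6, 5), 6), ((4, 1), (6, 8), 5), ((6, 1), (5, 4), 0), ((6, 1), (5, 6), 4)]
  G := [[0, 0x86c2ca22ca6cf28864a6c2648aefa4644ac2ac6afca14, 0x85c94c14cb2494c85c81c728c2,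
    0x85c94c95c1dcf2418, 0x85c94c95c1dcf2418], [0,
    0x22c2282c2288648a68cca6f846846c2cc6af84ca4ca6cdee14, 0x94c85c91c72485c94c15cb28c2,
    0x84c95c19c724184c95c51cb281c, 0x85c94c85c1dcf2412], [0, 0, 0, 0x85c94c95cd1cf2418,
    0x85c94c95c95cf2412], [0, 0, 0, 0x148d85c91c724185c95c14cb2849, 0x85c94c95c1dcf2481]]

noncomputable def n1832 : Ent := ⟨e1832, noF, [], [], []⟩

def c1832 : PLift (Cov.check n1832.C.D v1832 = true) := ⟨by decide +kernel⟩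

def b1832 : PLift (entF (fidx ts) 400 1832 n1832 = true) := ⟨by decide +kernel⟩

theorem g1832 : GoodF (fidx ts) 400 1832 := GoodF.ofV v1832 n1832 c1832.down b1832.down

/-- 4576654:1563 -/
noncomputable def e1833 : SCfg where
  D := {
    a := 7
    L := 11
    kp := 8
    inn := [(0, 1), (0, 2), (1, 0), (1, 2), (1, 4), (2, 0), (2, 1), (2, 3), (2, 4), (3, 2), (3, 5), (4,
      1), (4, 2), (5, 3), (5, 6), (6, 5)]
    mix := [(0, 0), (0, 1), (1, 1), (1, 2), (2, 0), (2, 3), (2, 4), (3, 0), (3, 4), (3, 5), (3, 6), (4,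
      2), (4, 3), (4, 7), (4, 8), (5, 0), (5, 6), (5, 9), (6, 6), (6, 9), (6, 10)]
    cl := [0, 2, 3, 3, 0, 5, 4, 6, 7, 1, 8]
    chq := [(1, 4), (1, 5), (4, 1), (5, 1)]
    rng := [(0, 1), (0, 9), (1, 0), (1, 2), (2, 1), (2, 7), (3, 4), (3, 8), (4, 3), (4, 5), (5, 4), (5,
      6), (6, 5), (6, 10), (7, 2), (7, 8), (8, 3), (8, 7), (9, 0), (9, 10), (10, 6), (10, 9)]
    lev := [] }
  links := [[1, 2, 7, 8], [2, 0, 8, 9, 4], [7, 0, 1, 4, 10, 11, 3], [7, 2, 11, 12, 13, 5], [10, 2, 1, 9,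
    14, 15], [7, 3, 13, 6, 16], [16, 5, 13, 17]]
  P := {
    a := 7
    N := 18
    nb := [390, 789, 3227, 14500, 50694, 73928, 204832, 65837, 643, 16658, 34836, 5132, 10248, 135272,
      33296, 17424, 131296, 73792]
    tri := [(0, 1, 2), (0, 1, 8), (0, 2, 7), (0, 7, 8), (1, 2, 4), (1, 4, 9), (1, 8, 9), (2, 3, 7), (2,
      3, 11), (2, 4, 10), (2, 10, 11), (3, 5, 7), (3, 5, 13), (3, 11, 12), (3, 12, 13), (4, 9,
      14), (4, 10, 15), (4, 14, 15), (5, 6, 13), (5, 6, 16), (5, 7, 16), (6, 13, 17), (6, 16, 17)]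
    fin := [0, 0, 0, 3, 4, 3, 6, 0, 8, 4, 4, 0, 3, 6, 14, 15, 16, 17]
    chd := [(3, 16), (6, 16)]
    steps := [(0, 1), (0, 2), (0, 7), (0, 11), (3, 5), (3, 12), (4, 9), (4, 10), (6, 13)] }
  rep := [0, 16, 8, 4, 6, 3, 14, 15, 17]

noncomputable def v1833 : Cov.CovD where
  P := 3
  N := 6
  pl := [1, 7, 8, 10]
  lev := [⟨[], [], [], [2], [(0, 0, [])]⟩,
    ⟨[], [(0, 0), (0, 3)], [], [2], [(2, 3, [])]⟩,
    ⟨[(0, 1)], [(0, 0), (0, 3), (1, 0), (1, 3)], [(0, 0), (0, 3)], [], [(0, 0, []), (3, 3,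
      []), (4, 0, [])]⟩,
    ⟨[(0, 2), (1, 2)], [(0, 0), (2, 0), (2, 3), (2, 4), (2, 5)], [(0, 0), (0, 4), (0, 5),
      (4, 5)], [], [(0, 0, []), (4, 0, []), (5, 5, [1]), (6, 4, [1])]⟩,
    ⟨[(0, 1), (0, 2), (1, 2), (2, 3)], [(1, 3), (2, 0), (2, 3)], [(3, 3)], [6, 7], [(2, 3,
      []), (3, 3, [])]⟩,
    ⟨[(2, 3)], [(0, 0), (2, 0), (3, 0), (3, 1), (3, 4), (3, 5)], [(0, 1), (0, 4), (1, 4)],
      [], [(0, 0, []), (6, 4, [1]), (9, 1, [4, 5])]⟩,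
    ⟨[(3, 5)], [(3, 4), (5, 0), (5, 1), (5, 4)], [(1, 4)], [8], [(6, 4, [1]), (9, 1, [4,
      5])]⟩]
  Ta := [((0, 1), 0, 2), ((0, 9), 0, 1), ((2, 1), 3, 2), ((2, 7), 3, 6), ((3, 4), 3, 0), ((3, 8),
    3, 7), ((4, 3), 0, 3), ((4, 5), 0, 5)]
  Tb := [((0, 1, 9), 0, 2, 1), ((1, 0, 2), 2, 0, 3), ((2, 1, 7), 3, 2, 6), ((3, 4, 8), 3, 0, 7),
    ((4, 3, 5), 0, 3, 5), ((5, 4, 6), 5, 0, 4), ((6, 5, 10), 4, 5, 8), ((7, 2, 8), 6, 3, 7),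
    ((8, 3, 7), 7, 3, 6), ((9, 0, 10), 1, 0, 8), ((10, 6, 9), 8, 4, 1)]
  Tc := [(1, 4, 5)]
  Td := [((1, 4), (9, 0), 0), ((1, 4), (9, 10), 8), ((1, 5), (9, 0), 0), ((1, 5), (9, 10), 8),
    ((4, 1), (6, 5), 5), ((4, 1), (6, 10), 8), ((5, 1), (5, 4), 0), ((5, 1), (5, 6), 4)]
  G := [[0, 0x22cea6ca6ca6cf22c8e688eca6ca6fc6ac6ac6ac6afc618, 0x95c95c328295c95c92495c428c6,
    0x95c95c95c95cf2814, 0x95c95c95c95cf2412], [0,
    0xa6c22268e22ca6ca6688eca6fc6ac6a4a4ec6afa6ca6ca6cdee18, 0x95c95c3295c95c95c72c95c828c2,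
    0x95c95c3295c95c95c72c195c8281c, 0x95c95c95c95cf2412], [0, 0, 0, 0x95c95c95c95cf2418,
    0x95c95c95c95cf2812], [0, 0, 0, 0x95c95c3295c95c95c72c95c828c1, 0x95c95c95c95cf2481]]

noncomputable def n1833 : Ent := ⟨e1833, noF, [], [], [(8, 16, [7334685537875745012586738086077695515070955365108989538292687701168129, 0]), (9, 17, [6903326391201334775872065844685381424292761054348340378595029937184769, 0]), (14, 17, [6903326391201334775872065844685381424292761054348340378595029937188865, 0]), (15, 17, [6903326391201334775872065844685381424292761054348340378595029937192961, 0])]⟩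

def c1833 : PLift (Cov.check n1833.C.D v1833 = true) := ⟨by decide +kernel⟩

def b1833 : PLift (entF (fidx ts) 400 1833 n1833 = true) := ⟨by decide +kernel⟩

theorem g1833 : GoodF (fidx ts) 400 1833 := GoodF.ofV v1833 n1833 c1833.down b1833.down

/-- 4576654:1564/2 -/
noncomputable def e1834 : SCfg where
  D := {
    a := 7
    L := 9
    kp := 6
    inn := [(0, 1), (0, 2), (1, 0), (1, 2), (1, 4), (2, 0), (2, 1), (2, 3), (2, 4), (3, 2), (3, 5), (4,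
      1), (4, 2), (5, 3), (5, 6), (6, 5)]
    mix := [(0, 0), (0, 1), (1, 1), (1, 2), (2, 0), (2, 3), (2, 4), (3, 0), (3, 4), (3, 5), (3, 6), (4,
      2), (4, 3), (4, 7), (4, 8), (5, 0), (5, 2), (5, 6), (6, 0), (6, 1), (6, 2)]
    cl := [0, 2, 1, 1, 0, 4, 3, 5, 6]
    chq := [(0, 3), (2, 3), (3, 0), (3, 2)]
    rng := [(0, 1), (1, 0), (1, 2), (2, 1), (2, 6), (2, 7), (3, 4), (3, 8), (4, 3), (4, 5), (5, 4), (5,
      6), (6, 2), (6, 5), (7, 2), (7, 8), (8, 3), (8, 7)]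
    lev := [] }
  links := [[1, 2, 7, 8], [2, 0, 8, 9, 4], [7, 0, 1, 4, 10, 11, 3], [7, 2, 11, 12, 13, 5], [10, 2, 1, 9,
    14, 15], [7, 3, 13, 9, 6], [7, 5, 9, 8]]
  P := {
    a := 7
    N := 16
    nb := [390, 789, 3227, 14500, 50694, 8904, 928, 365, 707, 24946, 34836, 5132, 10248, 4648, 33296,
      17424]
    tri := [(0, 1, 2), (0, 1, 8), (0, 2, 7), (0, 7, 8), (1, 2, 4), (1, 4, 9), (1, 8, 9), (2, 3, 7), (2,
      3, 11), (2, 4, 10), (2, 10, 11), (3, 5, 7), (3, 5, 13), (3, 11, 12), (3, 12, 13), (4, 9,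
      14), (4, 10, 15), (4, 14, 15), (5, 6, 7), (5, 6, 9), (5, 9, 13), (6, 7, 8), (6, 8, 9)]
    fin := [0, 0, 0, 0, 4, 5, 5, 0, 5, 4, 4, 0, 12, 13, 14, 15]
    chd := [(0, 13), (5, 13)]
    steps := [(0, 1), (0, 2), (0, 3), (0, 7), (0, 11), (4, 9), (4, 10), (5, 6), (5, 8)] }
  rep := [0, 4, 5, 13, 12, 14, 15]

noncomputable def v1834 : Cov.CovD where
  P := 3
  N := 4
  pl := [5, 7, 8]
  lev := [⟨[], [], [(0, 2)], [], [(0, 0, [3]), (1, 2, [3])]⟩,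
    ⟨[], [(0, 0), (0, 1), (0, 2)], [(1, 2)], [], [(1, 2, [3]), (2, 1, [])]⟩,
    ⟨[(0, 1)], [(0, 0), (0, 1), (0, 2), (1, 0), (1, 1), (1, 2)], [(0, 0), (0, 1)], [], [(0,
      0, [3]), (3, 1, []), (4, 0, [3])]⟩,
    ⟨[(0, 2), (1, 2)], [(0, 0), (2, 0), (2, 1), (2, 3)], [(0, 0), (0, 3)], [4], [(0, 0,
      [3]), (4, 0, [3]), (6, 3, [0, 2])]⟩,
    ⟨[(0, 1), (0, 2), (1, 2), (2, 3)], [(1, 1), (1, 2), (2, 0), (2, 1)], [(1, 1)], [5, 6],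
      [(2, 1, []), (3, 1, [])]⟩,
    ⟨[(2, 3)], [(0, 0), (1, 1), (2, 0), (3, 0), (3, 1), (3, 3), (4, 1)], [(0, 1), (0, 3),
      (1, 3)], [], [(0, 0, [3]), (2, 1, []), (6, 3, [0, 2])]⟩,
    ⟨[(3, 5)], [(0, 0), (0, 2), (1, 1), (1, 2), (2, 0), (3, 0), (4, 1), (5, 0), (5, 1), (5,
      2), (5, 3)], [(0, 1), (0, 2), (1, 2)], [], [(0, 0, [3]), (1, 2, [3]), (2, 1, [])]⟩]
  Ta := [((0, 1), 0, 2), ((2, 1), 1, 2), ((2, 6), 1, 3), ((2, 7), 1, 5), ((3, 4), 1, 0), ((3, 8),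
    1, 6), ((4, 3), 0, 1), ((4, 5), 0, 4)]
  Tb := [((1, 0, 2), 2, 0, 1), ((2, 1, 6), 1, 2, 3), ((2, 1, 7), 1, 2, 5), ((2, 6, 7), 1, 3, 5),
    ((3, 4, 8), 1, 0, 6), ((4, 3, 5), 0, 1, 4), ((5, 4, 6), 4, 0, 3), ((6, 2, 5), 3, 1, 4),
    ((7, 2, 8), 5, 1, 6), ((8, 3, 7), 6, 1, 5)]
  Tc := [(3, 0, 2)]
  Td := [((0, 3), (0, 1), 2), ((0, 3), (4, 3), 1), ((0, 3), (4, 5), 4), ((2, 3), (1, 0), 0), ((2,
    3), (1, 2), 1), ((3, 0), (6, 2), 1), ((3, 0), (6, 5), 4), ((3, 2), (6, 2), 1), ((3, 2),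
    (6, 5), 4)]
  G := [[0, 0, 0x44c4288c44c92484848d848484dce84, 0x48c4288c84c92484848d848484dce48,
    0x84845848484d848484de8488c12], [0, 0, 0x42825428484d22c28c22cde8288c42, 0,
    0x828282d248484d6812], [0, 0, 0, 0x181848d818114cda148481d4618,
    0x18984889d811484d6848181d8c12], [0, 0x82826848482e424282ee4288a14, 0, 0,
    0x121282d4842414d2c12]]

noncomputable def n1834 : Ent := ⟨e1834, noF, [], [], []⟩

def c1834 : PLift (Cov.check n1834.C.D v1834 = true) := ⟨by decide +kernel⟩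

def b1834 : PLift (entF (fidx ts) 400 1834 n1834 = true) := ⟨by decide +kernel⟩

theorem g1834 : GoodF (fidx ts) 400 1834 := GoodF.ofV v1834 n1834 c1834.down b1834.down

/-- 4576654:1564/3 -/
noncomputable def e1835 : SCfg where
  D := {
    a := 7
    L := 9
    kp := 6
    inn := [(0, 1), (0, 2), (1, 0), (1, 2), (1, 4), (2, 0), (2, 1), (2, 3), (2, 4), (3, 2), (3, 5), (4,
      1), (4, 2), (5, 3), (5, 6), (6, 5)]
    mix := [(0, 0), (0, 1), (1, 1), (1, 2), (2, 0), (2, 3), (2, 4), (3, 0), (3, 4), (3, 5), (3, 6), (4,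
      2), (4, 3), (4, 7), (4, 8), (5, 0), (5, 6), (5, 7), (6, 0), (6, 1), (6, 7)]
    cl := [0, 2, 1, 1, 0, 5, 4, 3, 6]
    chq := [(0, 4), (2, 4), (4, 0), (4, 2)]
    rng := [(0, 1), (1, 0), (1, 2), (1, 7), (2, 1), (2, 7), (3, 4), (3, 8), (4, 3), (4, 5), (5, 4), (5,
      6), (6, 5), (6, 7), (7, 1), (7, 2), (7, 6), (7, 8), (8, 3), (8, 7)]
    lev := [] }
  links := [[1, 2, 7, 8], [2, 0, 8, 9, 4], [7, 0, 1, 4, 10, 11, 3], [7, 2, 11, 12, 13, 5], [10, 2, 1, 9,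
    14, 15], [7, 3, 13, 14, 6], [7, 5, 14, 8]]
  P := {
    a := 7
    N := 16
    nb := [390, 789, 3227, 14500, 50694, 24776, 16800, 365, 17091, 16658, 34836, 5132, 10248, 20520,
      41840, 17424]
    tri := [(0, 1, 2), (0, 1, 8), (0, 2, 7), (0, 7, 8), (1, 2, 4), (1, 4, 9), (1, 8, 9), (2, 3, 7), (2,
      3, 11), (2, 4, 10), (2, 10, 11), (3, 5, 7), (3, 5, 13), (3, 11, 12), (3, 12, 13), (4, 9,
      14), (4, 10, 15), (4, 14, 15), (5, 6, 7), (5, 6, 14), (5, 13, 14), (6, 7, 8), (6, 8, 14)]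
    fin := [0, 0, 0, 0, 4, 5, 5, 0, 5, 4, 4, 0, 12, 13, 14, 15]
    chd := [(0, 13), (5, 13)]
    steps := [(0, 1), (0, 2), (0, 3), (0, 7), (0, 11), (4, 9), (4, 10), (5, 6), (5, 8)] }
  rep := [0, 4, 5, 14, 13, 12, 15]

noncomputable def v1835 : Cov.CovD where
  P := 3
  N := 4
  pl := [5, 7, 8]
  lev := [⟨[], [], [(0, 2)], [], [(0, 0, [4]), (1, 2, [4])]⟩,
    ⟨[], [(0, 0), (0, 1), (0, 2)], [(1, 2)], [], [(1, 2, [4]), (2, 1, [])]⟩,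
    ⟨[(0, 1)], [(0, 0), (0, 1), (0, 2), (1, 0), (1, 1), (1, 2)], [(0, 0), (0, 1)], [], [(0,
      0, [4]), (3, 1, []), (4, 0, [4])]⟩,
    ⟨[(0, 2), (1, 2)], [(0, 0), (2, 0), (2, 1), (2, 4)], [(0, 0), (0, 4)], [5], [(0, 0,
      [4]), (4, 0, [4]), (6, 4, [0, 2])]⟩,
    ⟨[(0, 1), (0, 2), (1, 2), (2, 3)], [(1, 1), (1, 2), (2, 0), (2, 1)], [(1, 1)], [3, 6],
      [(2, 1, []), (3, 1, [])]⟩,
    ⟨[(2, 3)], [(0, 0), (2, 0), (3, 0), (3, 4)], [(0, 4)], [3], [(0, 0, [4]), (6, 4, [0,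
      2])]⟩,
    ⟨[(3, 5)], [(0, 0), (0, 2), (1, 2), (2, 0), (3, 0), (5, 0), (5, 2), (5, 4)], [(0, 2)],
      [3], [(0, 0, [4]), (1, 2, [4])]⟩]
  Ta := [((0, 1), 0, 2), ((2, 1), 1, 2), ((2, 7), 1, 3), ((3, 4), 1, 0), ((3, 8), 1, 6), ((4, 3),
    0, 1), ((4, 5), 0, 5)]
  Tb := [((1, 0, 2), 2, 0, 1), ((1, 0, 7), 2, 0, 3), ((1, 2, 7), 2, 1, 3), ((2, 1, 7), 1, 2, 3),
    ((3, 4, 8), 1, 0, 6), ((4, 3, 5), 0, 1, 5), ((5, 4, 6), 5, 0, 4), ((6, 5, 7), 4, 5, 3),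
    ((7, 1, 2), 3, 2, 1), ((7, 1, 6), 3, 2, 4), ((7, 1, 8), 3, 2, 6), ((7, 2, 6), 3, 1, 4),
    ((7, 2, 8), 3, 1, 6), ((7, 6, 8), 3, 4, 6), ((8, 3, 7), 6, 1, 3)]
  Tc := [(4, 0, 2)]
  Td := [((0, 4), (0, 1), 2), ((0, 4), (4, 3), 1), ((0, 4), (4, 5), 5), ((2, 4), (1, 0), 0), ((2,
    4), (1, 2), 1), ((2, 4), (1, 7), 3), ((4, 0), (6, 5), 5), ((4, 0), (6, 7), 3), ((4, 2),
    (6, 5), 5), ((4, 2), (6, 7), 3)]
  G := [[0, 0, 0xa4a45468446624ed28a22a988a484e4c6dec82, 0x42c258242c2d8242c2de8288c14,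
    0x244888e248a2ed886a4286de2822c98c12], [0, 0, 0x226488a24222ed8242c2de28222e98c42, 0,
    0x24822e54282422cd82a88224286dec18], [0, 0, 0, 0x421251216824212d8288242cec18,
    0x24482aa42a3dc282198294116dac12], [0, 0x8112a2184112e814112e414e684, 0, 0,
    0x88a2421d4282421cd822412dac12]]

noncomputable def n1835 : Ent := ⟨e1835, noF, [], [], []⟩

def c1835 : PLift (Cov.check n1835.C.D v1835 = true) := ⟨by decide +kernel⟩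

def b1835 : PLift (entF (fidx ts) 400 1835 n1835 = true) := ⟨by decide +kernel⟩

theorem g1835 : GoodF (fidx ts) 400 1835 := GoodF.ofV v1835 n1835 c1835.down b1835.down

/-- 4576654:1564/1 -/
noncomputable def e1836 : SCfg where
  D := {
    a := 7
    L := 10
    kp := 7
    inn := [(0, 1), (0, 2), (1, 0), (1, 2), (1, 4), (2, 0), (2, 1), (2, 3), (2, 4), (3, 2), (3, 5), (4,
      1), (4, 2), (5, 3), (5, 6), (6, 5)]
    mix := [(0, 0), (0, 1), (1, 1), (1, 2), (2, 0), (2, 3), (2, 4), (3, 0), (3, 4), (3, 5), (3, 6), (4,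
      2), (4, 3), (4, 7), (4, 8), (5, 0), (5, 6), (5, 9), (6, 0), (6, 1), (6, 9)]
    cl := [0, 2, 1, 1, 0, 5, 3, 6, 7, 4]
    chq := [(0, 3), (2, 3), (3, 0), (3, 2)]
    rng := [(0, 1), (1, 0), (1, 2), (1, 9), (2, 1), (2, 7), (3, 4), (3, 8), (4, 3), (4, 5), (5, 4), (5,
      6), (6, 5), (6, 9), (7, 2), (7, 8), (8, 3), (8, 7), (9, 1), (9, 6)]
    lev := [] }
  links := [[1, 2, 7, 8], [2, 0, 8, 9, 4], [7, 0, 1, 4, 10, 11, 3], [7, 2, 11, 12, 13, 5], [10, 2, 1, 9,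
    14, 15], [7, 3, 13, 16, 6], [7, 5, 16, 8]]
  P := {
    a := 7
    N := 17
    nb := [390, 789, 3227, 14500, 50694, 73928, 65952, 365, 66243, 16658, 34836, 5132, 10248, 69672,
      33296, 17424, 8544]
    tri := [(0, 1, 2), (0, 1, 8), (0, 2, 7), (0, 7, 8), (1, 2, 4), (1, 4, 9), (1, 8, 9), (2, 3, 7), (2,
      3, 11), (2, 4, 10), (2, 10, 11), (3, 5, 7), (3, 5, 13), (3, 11, 12), (3, 12, 13), (4, 9,
      14), (4, 10, 15), (4, 14, 15), (5, 6, 7), (5, 6, 16), (5, 13, 16), (6, 7, 8), (6, 8, 16)]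
    fin := [0, 0, 0, 0, 4, 5, 5, 0, 5, 4, 4, 0, 12, 13, 14, 15, 16]
    chd := [(0, 13), (5, 13)]
    steps := [(0, 1), (0, 2), (0, 3), (0, 7), (0, 11), (4, 9), (4, 10), (5, 6), (5, 8)] }
  rep := [0, 4, 5, 13, 16, 12, 14, 15]

noncomputable def v1836 : Cov.CovD where
  P := 3
  N := 5
  pl := [5, 7, 8, 9]
  lev := [⟨[], [], [(0, 2)], [], [(0, 0, [3]), (1, 2, [3])]⟩,
    ⟨[], [(0, 0), (0, 1), (0, 2)], [(1, 2)], [], [(1, 2, [3]), (2, 1, [])]⟩,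
    ⟨[(0, 1)], [(0, 0), (0, 1), (0, 2), (1, 0), (1, 1), (1, 2)], [(0, 0), (0, 1)], [], [(0,
      0, [3]), (3, 1, []), (4, 0, [3])]⟩,
    ⟨[(0, 2), (1, 2)], [(0, 0), (2, 0), (2, 1), (2, 3)], [(0, 0), (0, 3)], [5], [(0, 0,
      [3]), (4, 0, [3]), (6, 3, [0, 2])]⟩,
    ⟨[(0, 1), (0, 2), (1, 2), (2, 3)], [(1, 1), (1, 2), (2, 0), (2, 1)], [(1, 1)], [6, 7],
      [(2, 1, []), (3, 1, [])]⟩,
    ⟨[(2, 3)], [(0, 0), (2, 0), (3, 0), (3, 3)], [(0, 3)], [4], [(0, 0, [3]), (6, 3, [0,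
      2])]⟩,
    ⟨[(3, 5)], [(0, 0), (0, 2), (1, 2), (2, 0), (3, 0), (5, 0), (5, 2), (5, 3)], [(0, 2)],
      [4], [(0, 0, [3]), (1, 2, [3])]⟩]
  Ta := [((0, 1), 0, 2), ((2, 1), 1, 2), ((2, 7), 1, 6), ((3, 4), 1, 0), ((3, 8), 1, 7), ((4, 3),
    0, 1), ((4, 5), 0, 5)]
  Tb := [((1, 0, 2), 2, 0, 1), ((1, 0, 9), 2, 0, 4), ((1, 2, 9), 2, 1, 4), ((2, 1, 7), 1, 2, 6),
    ((3, 4, 8), 1, 0, 7), ((4, 3, 5), 0, 1, 5), ((5, 4, 6), 5, 0, 3), ((6, 5, 9), 3, 5, 4),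
    ((7, 2, 8), 6, 1, 7), ((8, 3, 7), 7, 1, 6), ((9, 1, 6), 4, 2, 3)]
  Tc := [(3, 0, 2)]
  Td := [((0, 3), (0, 1), 2), ((0, 3), (4, 3), 1), ((0, 3), (4, 5), 5), ((2, 3), (1, 0), 0), ((2,
    3), (1, 2), 1), ((2, 3), (1, 9), 4), ((3, 0), (6, 5), 5), ((3, 0), (6, 9), 4), ((3, 2),
    (6, 5), 5), ((3, 2), (6, 9), 4)]
  G := [[0, 0, 0x8a2e448ce84ce56644e642e642ed8a8a2e2a2e984ce868c4,
    0xc2c25c2c2c2dc2c2c2dec288a14, 0x8a2e8a2e8a2ed42ac2ac2acda86a86a86dac12], [0, 0,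
    0x642e444ce4a488a8e44622e624e984ce48ce9ac2a2e8a2e948cc, 0,
    0xa418a2e8a2e8a2eda86a86a86de2ac2ac28d8c12], [0, 0, 0, 0x92c259292c2dc25252de5288a14,
    0x285285812ed421c12c21cd816816186dac12], [0, 0x48342841e483a248384341ae8168168c6ece48, 0,
    0, 0x8252855412c21c12cd22ab8816816186dec18]]

noncomputable def n1836 : Ent := ⟨e1836, noF, [], [], [(9, 16, [1580044410770988437309982408355971841652082177953823432505696624641, 0]), (14, 16, [1580044410770988437309982408355971841652082177953823432505696628737, 0])]⟩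

def c1836 : PLift (Cov.check n1836.C.D v1836 = true) := ⟨by decide +kernel⟩

def b1836 : PLift (entF (fidx ts) 400 1836 n1836 = true) := ⟨by decide +kernel⟩

theorem g1836 : GoodF (fidx ts) 400 1836 := GoodF.ofV v1836 n1836 c1836.down b1836.down

/-- 4576654:1564/4 -/
noncomputable def e1837 : SCfg where
  D := {
    a := 7
    L := 10
    kp := 7
    inn := [(0, 1), (0, 2), (1, 0), (1, 2), (1, 4), (2, 0), (2, 1), (2, 3), (2, 4), (3, 2), (3, 5), (4,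
      1), (4, 2), (5, 3), (5, 6), (6, 5)]
    mix := [(0, 0), (0, 1), (1, 1), (1, 2), (2, 0), (2, 3), (2, 4), (3, 0), (3, 4), (3, 5), (3, 6), (4,
      2), (4, 3), (4, 7), (4, 8), (5, 0), (5, 2), (5, 6), (6, 0), (6, 2), (6, 9)]
    cl := [0, 2, 1, 1, 0, 5, 3, 6, 7, 4]
    chq := [(0, 3), (3, 0), (3, 4), (4, 3)]
    rng := [(0, 1), (0, 9), (1, 0), (1, 2), (2, 1), (2, 6), (2, 7), (2, 9), (3, 4), (3, 8), (4, 3), (4,
      5), (5, 4), (5, 6), (6, 2), (6, 5), (7, 2), (7, 8), (8, 3), (8, 7), (9, 0), (9, 2)]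
    lev := [] }
  links := [[1, 2, 7, 8], [2, 0, 8, 9, 4], [7, 0, 1, 4, 10, 11, 3], [7, 2, 11, 12, 13, 5], [10, 2, 1, 9,
    14, 15], [7, 3, 13, 9, 6], [7, 5, 9, 16]]
  P := {
    a := 7
    N := 17
    nb := [390, 789, 3227, 14500, 50694, 8904, 66208, 65901, 643, 90482, 34836, 5132, 10248, 4648,
      33296, 17424, 704]
    tri := [(0, 1, 2), (0, 1, 8), (0, 2, 7), (0, 7, 8), (1, 2, 4), (1, 4, 9), (1, 8, 9), (2, 3, 7), (2,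
      3, 11), (2, 4, 10), (2, 10, 11), (3, 5, 7), (3, 5, 13), (3, 11, 12), (3, 12, 13), (4, 9,
      14), (4, 10, 15), (4, 14, 15), (5, 6, 7), (5, 6, 9), (5, 9, 13), (6, 7, 16), (6, 9, 16)]
    fin := [0, 0, 0, 0, 4, 5, 5, 0, 8, 4, 4, 0, 12, 5, 14, 15, 16]
    chd := [(0, 5), (5, 16)]
    steps := [(0, 1), (0, 2), (0, 3), (0, 7), (0, 11), (4, 9), (4, 10), (5, 6), (5, 13)] }
  rep := [0, 4, 8, 5, 16, 12, 14, 15]

noncomputable def v1837 : Cov.CovD where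
  P := 3
  N := 5
  pl := [1, 5, 7, 8]
  lev := [⟨[], [], [], [2], [(0, 0, [3])]⟩,
    ⟨[], [(0, 0), (0, 1)], [], [2], [(2, 1, [])]⟩,
    ⟨[(0, 1)], [(0, 0), (0, 1), (1, 0), (1, 1)], [(0, 0), (0, 1)], [], [(0, 0, [3]), (3, 1,
      []), (4, 0, [3])]⟩,
    ⟨[(0, 2), (1, 2)], [(0, 0), (2, 0), (2, 1), (2, 3)], [(0, 0), (0, 3)], [5], [(0, 0,
      [3]), (4, 0, [3]), (6, 3, [0, 4])]⟩,
    ⟨[(0, 1), (0, 2), (1, 2), (2, 3)], [(1, 1), (2, 0), (2, 1)], [(1, 1)], [6, 7], [(2, 1,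
      []), (3, 1, [])]⟩,
    ⟨[(2, 3)], [(0, 0), (1, 1), (2, 0), (3, 0), (3, 1), (3, 3), (4, 1)], [(0, 1), (0, 3),
      (1, 3)], [], [(0, 0, [3]), (2, 1, []), (6, 3, [0, 4])]⟩,
    ⟨[(3, 5)], [(0, 0), (1, 1), (2, 0), (3, 0), (4, 1), (5, 0), (5, 1), (5, 3), (5, 4)],
      [(0, 1), (0, 4), (1, 4)], [], [(0, 0, [3]), (2, 1, []), (9, 4, [3])]⟩]
  Ta := [((0, 1), 0, 2), ((0, 9), 0, 4), ((2, 1), 1, 2), ((2, 6), 1, 3), ((2, 7), 1, 6), ((2, 9),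
    1, 4), ((3, 4), 1, 0), ((3, 8), 1, 7), ((4, 3), 0, 1), ((4, 5), 0, 5)]
  Tb := [((0, 1, 9), 0, 2, 4), ((1, 0, 2), 2, 0, 1), ((2, 1, 6), 1, 2, 3), ((2, 1, 7), 1, 2, 6),
    ((2, 1, 9), 1, 2, 4), ((2, 6, 7), 1, 3, 6), ((2, 6, 9), 1, 3, 4), ((2, 7, 9), 1, 6, 4),
    ((3, 4, 8), 1, 0, 7), ((4, 3, 5), 0, 1, 5), ((5, 4, 6), 5, 0, 3), ((6, 2, 5), 3, 1, 5),
    ((7, 2, 8), 6, 1, 7), ((8, 3, 7), 7, 1, 6), ((9, 0, 2), 4, 0, 1)]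
  Tc := [(3, 0, 4)]
  Td := [((0, 3), (0, 1), 2), ((0, 3), (0, 9), 4), ((0, 3), (4, 3), 1), ((0, 3), (4, 5), 5), ((3,
    0), (6, 2), 1), ((3, 0), (6, 5), 5), ((3, 4), (6, 2), 1), ((3, 4), (6, 5), 5), ((4, 3),
    (9, 0), 0), ((4, 3), (9, 2), 1)]
  G := [[0, 0, 0x48c4248c48c48cd48c48c48cdca48c48c928c4, 0x48c48c5248c82484848d848484dce48,
    0x48c48c5448c48c48cd48c48c48cdac48c84892], [0, 0, 0x424828284d48c28c28cde424298c42, 0,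
    0x828254284228d82822c42c48cdec82], [0, 0, 0, 0x48c4218914592411818d141481dce84,
    0x141414dc1145c1d6181818d8c12], [0, 0xc2c2626824668ea4a4a4e48c8ea48, 0, 0,
    0x121254122812d1282118921dec18]]

noncomputable def n1837 : Ent := ⟨e1837, noF, [], [], [(8, 16, [1580044410770988437309982408355971841652082177953823432505696624641, 0])]⟩

def c1837 : PLift (Cov.check n1837.C.D v1837 = true) := ⟨by decide +kernel⟩

def b1837 : PLift (entF (fidx ts) 400 1837 n1837 = true) := ⟨by decide +kernel⟩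

theorem g1837 : GoodF (fidx ts) 400 1837 := GoodF.ofV v1837 n1837 c1837.down b1837.down

/-- 4576654:1564/5 -/
noncomputable def e1838 : SCfg where
  D := {
    a := 7
    L := 10
    kp := 7
    inn := [(0, 1), (0, 2), (1, 0), (1, 2), (1, 4), (2, 0), (2, 1), (2, 3), (2, 4), (3, 2), (3, 5), (4,
      1), (4, 2), (5, 3), (5, 6), (6, 5)]
    mix := [(0, 0), (0, 1), (1, 1), (1, 2), (2, 0), (2, 3), (2, 4), (3, 0), (3, 4), (3, 5), (3, 6), (4,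
      2), (4, 3), (4, 7), (4, 8), (5, 0), (5, 6), (5, 7), (6, 0), (6, 7), (6, 9)]
    cl := [0, 2, 1, 1, 0, 6, 4, 3, 7, 5]
    chq := [(0, 4), (4, 0), (4, 5), (5, 4)]
    rng := [(0, 1), (0, 9), (1, 0), (1, 2), (2, 1), (2, 7), (3, 4), (3, 8), (4, 3), (4, 5), (5, 4), (5,
      6), (6, 5), (6, 7), (7, 2), (7, 6), (7, 8), (7, 9), (8, 3), (8, 7), (9, 0), (9, 7)]
    lev := [] }
  links := [[1, 2, 7, 8], [2, 0, 8, 9, 4], [7, 0, 1, 4, 10, 11, 3], [7, 2, 11, 12, 13, 5], [10, 2, 1, 9,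
    14, 15], [7, 3, 13, 14, 6], [7, 5, 14, 16]]
  P := {
    a := 7
    N := 17
    nb := [390, 789, 3227, 14500, 50694, 24776, 82080, 65901, 643, 16658, 34836, 5132, 10248, 20520,
      107120, 17424, 16576]
    tri := [(0, 1, 2), (0, 1, 8), (0, 2, 7), (0, 7, 8), (1, 2, 4), (1, 4, 9), (1, 8, 9), (2, 3, 7), (2,
      3, 11), (2, 4, 10), (2, 10, 11), (3, 5, 7), (3, 5, 13), (3, 11, 12), (3, 12, 13), (4, 9,
      14), (4, 10, 15), (4, 14, 15), (5, 6, 7), (5, 6, 14), (5, 13, 14), (6, 7, 16), (6, 14, 16)]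
    fin := [0, 0, 0, 0, 4, 5, 5, 0, 8, 4, 4, 0, 12, 5, 14, 15, 16]
    chd := [(0, 5), (5, 16)]
    steps := [(0, 1), (0, 2), (0, 3), (0, 7), (0, 11), (4, 9), (4, 10), (5, 6), (5, 13)] }
  rep := [0, 4, 8, 14, 5, 16, 12, 15]

noncomputable def v1838 : Cov.CovD where
  P := 3
  N := 5
  pl := [1, 5, 7, 8]
  lev := [⟨[], [], [], [2], [(0, 0, [4])]⟩,
    ⟨[], [(0, 0), (0, 1)], [], [2], [(2, 1, [])]⟩,
    ⟨[(0, 1)], [(0, 0), (0, 1), (1, 0), (1, 1)], [(0, 0), (0, 1)], [], [(0, 0, [4]), (3, 1,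
      []), (4, 0, [4])]⟩,
    ⟨[(0, 2), (1, 2)], [(0, 0), (2, 0), (2, 1), (2, 4)], [(0, 0), (0, 4)], [6], [(0, 0,
      [4]), (4, 0, [4]), (6, 4, [0, 5])]⟩,
    ⟨[(0, 1), (0, 2), (1, 2), (2, 3)], [(1, 1), (2, 0), (2, 1)], [(1, 1)], [3, 7], [(2, 1,
      []), (3, 1, [])]⟩,
    ⟨[(2, 3)], [(0, 0), (2, 0), (3, 0), (3, 4)], [(0, 4)], [3], [(0, 0, [4]), (6, 4, [0,
      5])]⟩,
    ⟨[(3, 5)], [(0, 0), (2, 0), (3, 0), (5, 0), (5, 4), (5, 5)], [(0, 5)], [3], [(0, 0,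
      [4]), (9, 5, [4])]⟩]
  Ta := [((0, 1), 0, 2), ((0, 9), 0, 5), ((2, 1), 1, 2), ((2, 7), 1, 3), ((3, 4), 1, 0), ((3, 8),
    1, 7), ((4, 3), 0, 1), ((4, 5), 0, 6)]
  Tb := [((0, 1, 9), 0, 2, 5), ((1, 0, 2), 2, 0, 1), ((2, 1, 7), 1, 2, 3), ((3, 4, 8), 1, 0, 7),
    ((4, 3, 5), 0, 1, 6), ((5, 4, 6), 6, 0, 4), ((6, 5, 7), 4, 6, 3), ((7, 2, 6), 3, 1, 4),
    ((7, 2, 8), 3, 1, 7), ((7, 2, 9), 3, 1, 5), ((7, 6, 8), 3, 4, 7), ((7, 6, 9), 3, 4, 5),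
    ((7, 8, 9), 3, 7, 5), ((8, 3, 7), 7, 1, 3), ((9, 0, 7), 5, 0, 3)]
  Tc := [(4, 0, 5)]
  Td := [((0, 4), (0, 1), 2), ((0, 4), (0, 9), 5), ((0, 4), (4, 3), 1), ((0, 4), (4, 5), 6), ((4,
    0), (6, 5), 6), ((4, 0), (6, 7), 3), ((4, 5), (6, 5), 6), ((4, 5), (6, 7), 3), ((5, 4),
    (9, 0), 0), ((5, 4), (9, 7), 3)]
  G := [[0, 0, 0x246428aa462aced68a4a4e2acede68a62ce98c42,
    0x24622ce5228a8228a24622ced28a24622cedce48, 0x68a424e22ced28a8688ea4662cedea462ace54618],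
    [0, 0, 0x246428a24622ced28a24622cede28a22ce98c24, 0,
    0x246428a24622ced28a24622cede28a22ce98c12], [0, 0, 0, 0xd224612d278246e1d28a246123dca14,
    0x28ab41a5d588e854712d678246169d8c12], [0, 0x1454e114e1ee114512ee18e1a8c14, 0, 0,
    0xb44428a246123d28ae19d224612dec18]]

noncomputable def n1838 : Ent := ⟨e1838, noF, [], [], [(8, 16, [1580044410770988437309982408355971841652082177953823432505696628737, 0])]⟩

def c1838 : PLift (Cov.check n1838.C.D v1838 = true) := ⟨by decide +kernel⟩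

def b1838 : PLift (entF (fidx ts) 400 1838 n1838 = true) := ⟨by decide +kernel⟩

theorem g1838 : GoodF (fidx ts) 400 1838 := GoodF.ofV v1838 n1838 c1838.down b1838.down

/-- 4576654:1564/6 -/
noncomputable def e1839 : SCfg where
  D := {
    a := 7
    L := 10
    kp := 7
    inn := [(0, 1), (0, 2), (1, 0), (1, 2), (1, 4), (2, 0), (2, 1), (2, 3), (2, 4), (3, 2), (3, 5), (4,
      1), (4, 2), (5, 3), (5, 6), (6, 5)]
    mix := [(0, 0), (0, 1), (1, 1), (1, 2), (2, 0), (2, 3), (2, 4), (3, 0), (3, 4), (3, 5), (3, 6), (4,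
      2), (4, 3), (4, 7), (4, 8), (5, 0), (5, 6), (5, 8), (6, 0), (6, 8), (6, 9)]
    cl := [0, 2, 1, 1, 0, 6, 4, 7, 3, 5]
    chq := [(0, 4), (4, 0), (4, 5), (5, 4)]
    rng := [(0, 1), (0, 9), (1, 0), (1, 2), (2, 1), (2, 7), (3, 4), (3, 8), (4, 3), (4, 5), (5, 4), (5,
      6), (6, 5), (6, 8), (7, 2), (7, 8), (8, 3), (8, 6), (8, 7), (8, 9), (9, 0), (9, 8)]
    lev := [] }
  links := [[1, 2, 7, 8], [2, 0, 8, 9, 4], [7, 0, 1, 4, 10, 11, 3], [7, 2, 11, 12, 13, 5], [10, 2, 1, 9,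
    14, 15], [7, 3, 13, 15, 6], [7, 5, 15, 16]]
  P := {
    a := 7
    N := 17
    nb := [390, 789, 3227, 14500, 50694, 41160, 98464, 65901, 643, 16658, 34836, 5132, 10248, 36904,
      33296, 91248, 32960]
    tri := [(0, 1, 2), (0, 1, 8), (0, 2, 7), (0, 7, 8), (1, 2, 4), (1, 4, 9), (1, 8, 9), (2, 3, 7), (2,
      3, 11), (2, 4, 10), (2, 10, 11), (3, 5, 7), (3, 5, 13), (3, 11, 12), (3, 12, 13), (4, 9,
      14), (4, 10, 15), (4, 14, 15), (5, 6, 7), (5, 6, 15), (5, 13, 15), (6, 7, 16), (6, 15, 16)]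
    fin := [0, 0, 0, 0, 4, 5, 5, 0, 8, 4, 4, 0, 12, 5, 14, 15, 16]
    chd := [(0, 5), (5, 16)]
    steps := [(0, 1), (0, 2), (0, 3), (0, 7), (0, 11), (4, 9), (4, 10), (5, 6), (5, 13)] }
  rep := [0, 4, 8, 15, 5, 16, 12, 14]

noncomputable def v1839 : Cov.CovD where
  P := 3
  N := 5
  pl := [1, 5, 7, 8]
  lev := [⟨[], [], [], [2], [(0, 0, [4])]⟩,
    ⟨[], [(0, 0), (0, 1)], [], [2], [(2, 1, [])]⟩,
    ⟨[(0, 1)], [(0, 0), (0, 1), (1, 0), (1, 1)], [(0, 0), (0, 1)], [], [(0, 0, [4]), (3, 1,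
      []), (4, 0, [4])]⟩,
    ⟨[(0, 2), (1, 2)], [(0, 0), (2, 0), (2, 1), (2, 4)], [(0, 0), (0, 4)], [6], [(0, 0,
      [4]), (4, 0, [4]), (6, 4, [0, 5])]⟩,
    ⟨[(0, 1), (0, 2), (1, 2), (2, 3)], [(1, 1), (2, 0), (2, 1)], [(1, 1)], [3, 7], [(2, 1,
      []), (3, 1, [])]⟩,
    ⟨[(2, 3)], [(0, 0), (2, 0), (3, 0), (3, 4)], [(0, 4)], [3], [(0, 0, [4]), (6, 4, [0,
      5])]⟩,
    ⟨[(3, 5)], [(0, 0), (2, 0), (3, 0), (5, 0), (5, 4), (5, 5)], [(0, 5)], [3], [(0, 0,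
      [4]), (9, 5, [4])]⟩]
  Ta := [((0, 1), 0, 2), ((0, 9), 0, 5), ((2, 1), 1, 2), ((2, 7), 1, 7), ((3, 4), 1, 0), ((3, 8),
    1, 3), ((4, 3), 0, 1), ((4, 5), 0, 6)]
  Tb := [((0, 1, 9), 0, 2, 5), ((1, 0, 2), 2, 0, 1), ((2, 1, 7), 1, 2, 7), ((3, 4, 8), 1, 0, 3),
    ((4, 3, 5), 0, 1, 6), ((5, 4, 6), 6, 0, 4), ((6, 5, 8), 4, 6, 3), ((7, 2, 8), 7, 1, 3),
    ((8, 3, 6), 3, 1, 4), ((8, 3, 7), 3, 1, 7), ((8, 3, 9), 3, 1, 5), ((8, 6, 7), 3, 4, 7),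
    ((8, 6, 9), 3, 4, 5), ((8, 7, 9), 3, 7, 5), ((9, 0, 8), 5, 0, 3)]
  Tc := [(4, 0, 5)]
  Td := [((0, 4), (0, 1), 2), ((0, 4), (0, 9), 5), ((0, 4), (4, 3), 1), ((0, 4), (4, 5), 6), ((4,
    0), (6, 5), 6), ((4, 0), (6, 8), 3), ((4, 5), (6, 5), 6), ((4, 5), (6, 8), 3), ((5, 4),
    (9, 0), 0), ((5, 4), (9, 8), 3)]
  G := [[0, 0, 0x246428a24622ced28a24622cede28a22ce98c42,
    0x24622ce5228a8228a24622ced28a24622cedce84, 0x28a24622ced228a24622ced28a24622cedc618],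
    [0, 0, 0xa46a45468a24662ced28a2ca968a4a4e2acedec82, 0,
    0xa462ace5428a424e62ced28a8688e2466acedec18], [0, 0, 0,
    0xd21252d28228a246123d28a246e1dce18, 0x28a246e1dd224612da28a246123d4618], [0,
    0x18e1e1e189e112ea18914123e4618, 0, 0, 0x28ab41127d68a494e183d678246e1d8c12]]

noncomputable def n1839 : Ent := ⟨e1839, noF, [], [], []⟩

def c1839 : PLift (Cov.check n1839.C.D v1839 = true) := ⟨by decide +kernel⟩

def b1839 : PLift (entF (fidx ts) 400 1839 n1839 = true) := ⟨by decide +kernel⟩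

theorem g1839 : GoodF (fidx ts) 400 1839 := GoodF.ofV v1839 n1839 c1839.down b1839.down

/-- 4576654:1564 -/
noncomputable def e1840 : SCfg where
  D := {
    a := 7
    L := 11
    kp := 8
    inn := [(0, 1), (0, 2), (1, 0), (1, 2), (1, 4), (2, 0), (2, 1), (2, 3), (2, 4), (3, 2), (3, 5), (4,
      1), (4, 2), (5, 3), (5, 6), (6, 5)]
    mix := [(0, 0), (0, 1), (1, 1), (1, 2), (2, 0), (2, 3), (2, 4), (3, 0), (3, 4), (3, 5), (3, 6), (4,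
      2), (4, 3), (4, 7), (4, 8), (5, 0), (5, 6), (5, 9), (6, 0), (6, 9), (6, 10)]
    cl := [0, 2, 1, 1, 0, 6, 3, 7, 8, 4, 5]
    chq := [(0, 3), (3, 0), (3, 5), (5, 3)]
    rng := [(0, 1), (0, 10), (1, 0), (1, 2), (2, 1), (2, 7), (3, 4), (3, 8), (4, 3), (4, 5), (5, 4),
      (5, 6), (6, 5), (6, 9), (7, 2), (7, 8), (8, 3), (8, 7), (9, 6), (9, 10), (10, 0), (10, 9)]
    lev := [] }
  links := [[1, 2, 7, 8], [2, 0, 8, 9, 4], [7, 0, 1, 4, 10, 11, 3], [7, 2, 11, 12, 13, 5], [10, 2, 1, 9,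
    14, 15], [7, 3, 13, 16, 6], [7, 5, 16, 17]]
  P := {
    a := 7
    N := 18
    nb := [390, 789, 3227, 14500, 50694, 73928, 196768, 131437, 643, 16658, 34836, 5132, 10248, 69672,
      33296, 17424, 139360, 65728]
    tri := [(0, 1, 2), (0, 1, 8), (0, 2, 7), (0, 7, 8), (1, 2, 4), (1, 4, 9), (1, 8, 9), (2, 3, 7), (2,
      3, 11), (2, 4, 10), (2, 10, 11), (3, 5, 7), (3, 5, 13), (3, 11, 12), (3, 12, 13), (4, 9,
      14), (4, 10, 15), (4, 14, 15), (5, 6, 7), (5, 6, 16), (5, 13, 16), (6, 7, 17), (6, 16, 17)]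
    fin := [0, 0, 0, 0, 4, 5, 5, 0, 8, 4, 4, 0, 12, 5, 14, 15, 16, 17]
    chd := [(0, 5), (5, 17)]
    steps := [(0, 1), (0, 2), (0, 3), (0, 7), (0, 11), (4, 9), (4, 10), (5, 6), (5, 13)] }
  rep := [0, 4, 8, 5, 16, 17, 12, 14, 15]

noncomputable def v1840 : Cov.CovD where
  P := 3
  N := 6
  pl := [1, 5, 7, 8, 9]
  lev := [⟨[], [], [], [2], [(0, 0, [3])]⟩,
    ⟨[], [(0, 0), (0, 1)], [], [2], [(2, 1, [])]⟩,
    ⟨[(0, 1)], [(0, 0), (0, 1), (1, 0), (1, 1)], [(0, 0), (0, 1)], [], [(0, 0, [3]), (3, 1,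
      []), (4, 0, [3])]⟩,
    ⟨[(0, 2), (1, 2)], [(0, 0), (2, 0), (2, 1), (2, 3)], [(0, 0), (0, 3)], [6], [(0, 0,
      [3]), (4, 0, [3]), (6, 3, [0, 5])]⟩,
    ⟨[(0, 1), (0, 2), (1, 2), (2, 3)], [(1, 1), (2, 0), (2, 1)], [(1, 1)], [7, 8], [(2, 1,
      []), (3, 1, [])]⟩,
    ⟨[(2, 3)], [(0, 0), (2, 0), (3, 0), (3, 3)], [(0, 3)], [4], [(0, 0, [3]), (6, 3, [0,
      5])]⟩,
    ⟨[(3, 5)], [(0, 0), (2, 0), (3, 0), (5, 0), (5, 3), (5, 5)], [(0, 5)], [4], [(0, 0,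
      [3]), (10, 5, [3])]⟩]
  Ta := [((0, 1), 0, 2), ((0, 10), 0, 5), ((2, 1), 1, 2), ((2, 7), 1, 7), ((3, 4), 1, 0), ((3,
    8), 1, 8), ((4, 3), 0, 1), ((4, 5), 0, 6)]
  Tb := [((0, 1, 10), 0, 2, 5), ((1, 0, 2), 2, 0, 1), ((2, 1, 7), 1, 2, 7), ((3, 4, 8), 1, 0, 8),
    ((4, 3, 5), 0, 1, 6), ((5, 4, 6), 6, 0, 3), ((6, 5, 9), 3, 6, 4), ((7, 2, 8), 7, 1, 8),
    ((8, 3, 7), 8, 1, 7), ((9, 6, 10), 4, 3, 5), ((10, 0, 9), 5, 0, 4)]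
  Tc := [(3, 0, 5)]
  Td := [((0, 3), (0, 1), 2), ((0, 3), (0, 10), 5), ((0, 3), (4, 3), 1), ((0, 3), (4, 5), 6),
    ((3, 0), (6, 5), 6), ((3, 0), (6, 9), 4), ((3, 5), (6, 5), 6), ((3, 5), (6, 9), 4), ((5,
    3), (10, 0), 0), ((5, 3), (10, 9), 4)]
  G := [[0, 0, 0x6ace46ace466ace6ace6aced8a6ace6ace96ace6ace968c4,
    0x6ace6ace6aced26ace6ace6aced6ace6ace6acedc618,
    0x6ace6ace6aced46ace6ace6aced6ace6ace6acedac12], [0, 0,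
    0xac646ace6ace6aced6ace6ace6acede6ace6ace98c26848486, 0,
    0x6ace6ace56ace1a486ace6ace6aced6ace6acec66ace88c1a], [0, 0, 0,
    0x419edc3481ed2342b521e314ed218e218e218edca14,
    0x769124e342bd481e481e498bda218eae5ba5d4618], [0,
    0xc4e74ba5218eba5e8547dc3419eee6e9769a8c14, 0, 0,
    0x218e138e218ed481ece33547d6342b521e6e9d8c12]]

noncomputable def n1840 : Ent := ⟨e1840, noF, [], [], [(8, 17, [6903326391201334775872065844685381424292761054348340378595029937209345, 0]), (9, 16, [7334685537875745012586738086077695515070955365108989538292687701200897, 0]), (14, 16, [7334685537875745012586738086077695515070955365108989538292687701204993, 0]), (15, 16, [7334685537875745012586738086077695515070955365108989538292687701209089, 0])]⟩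

def c1840 : PLift (Cov.check n1840.C.D v1840 = true) := ⟨by decide +kernel⟩

def b1840 : PLift (entF (fidx ts) 400 1840 n1840 = true) := ⟨by decide +kernel⟩

theorem g1840 : GoodF (fidx ts) 400 1840 := GoodF.ofV v1840 n1840 c1840.down b1840.down

/-- 4846646:1573 -/
noncomputable def e1841 : SCfg where
  D := {
    a := 7
    L := 11
    kp := 8
    inn := [(0, 1), (0, 3), (1, 0), (1, 2), (1, 3), (1, 4), (1, 6), (2, 1), (3, 0), (3, 1), (4, 1), (4,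
      5), (4, 6), (5, 4), (5, 6), (6, 1), (6, 4), (6, 5)]
    mix := [(0, 0), (0, 1), (1, 0), (1, 2), (1, 3), (2, 2), (2, 3), (2, 4), (3, 1), (3, 2), (3, 5), (3,
      6), (4, 0), (4, 7), (4, 8), (5, 7), (5, 9), (6, 3), (6, 9), (6, 10)]
    cl := [0, 1, 1, 0, 5, 6, 7, 2, 8, 3, 4]
    chq := [(0, 2), (2, 0), (2, 4), (4, 2)]
    rng := [(0, 1), (0, 8), (1, 0), (1, 5), (2, 4), (2, 6), (3, 4), (3, 10), (4, 2), (4, 3), (5, 1),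
      (5, 6), (6, 2), (6, 5), (7, 8), (7, 9), (8, 0), (8, 7), (9, 7), (9, 10), (10, 3), (10, 9)]
    lev := [] }
  links := [[1, 7, 8, 3], [7, 0, 3, 9, 2, 10, 6, 4], [10, 1, 9, 11], [9, 1, 0, 8, 12, 13], [7, 1, 6, 5,
    14, 15], [14, 4, 6, 16], [16, 5, 4, 1, 10, 17]]
  P := {
    a := 7
    N := 18
    nb := [394, 1757, 3586, 13059, 49378, 82000, 197682, 33043, 4233, 10254, 133190, 1540, 8456, 4616,
      98352, 16528, 147552, 66624]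
    tri := [(0, 1, 3), (0, 1, 7), (0, 3, 8), (0, 7, 8), (1, 2, 9), (1, 2, 10), (1, 3, 9), (1, 4, 6),
      (1, 4, 7), (1, 6, 10), (2, 9, 11), (2, 10, 11), (3, 8, 12), (3, 9, 13), (3, 12, 13), (4, 5,
      6), (4, 5, 14), (4, 7, 15), (4, 14, 15), (5, 6, 16), (5, 14, 16), (6, 10, 17), (6, 16, 17)]
    fin := [0, 0, 0, 3, 0, 5, 5, 0, 3, 3, 0, 11, 12, 13, 14, 15, 16, 5]
    chd := [(0, 14), (14, 5)]
    steps := [(0, 1), (0, 2), (0, 4), (0, 7), (0, 10), (3, 8), (3, 9), (5, 6), (5, 17)] }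
  rep := [0, 3, 14, 16, 5, 11, 12, 13, 15]

noncomputable def v1841 : Cov.CovD where
  P := 3
  N := 6
  pl := [4, 5, 6, 8, 9]
  lev := [⟨[], [], [(0, 1)], [], [(0, 0, [2]), (1, 1, [])]⟩,
    ⟨[], [(0, 0), (0, 1)], [(0, 0), (0, 1)], [], [(0, 0, [2]), (2, 1, []), (3, 0, [2])]⟩,
    ⟨[(0, 1)], [(1, 0), (1, 1)], [(0, 1)], [5], [(2, 1, []), (3, 0, [2])]⟩,
    ⟨[(0, 1), (1, 2)], [(0, 0), (0, 1), (1, 0), (1, 1), (2, 1)], [(1, 1)], [6, 7], [(1, 1,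
      []), (2, 1, [])]⟩,
    ⟨[(0, 1), (1, 2), (1, 3)], [(0, 0), (1, 0), (1, 1), (1, 2)], [(0, 2)], [8], [(0, 0,
      [2]), (7, 2, [0, 4])]⟩,
    ⟨[(1, 4)], [(4, 0), (4, 2)], [], [3], [(7, 2, [0, 4])]⟩,
    ⟨[(0, 1), (1, 2), (1, 3), (1, 4), (1, 5), (4, 5)], [(1, 0), (1, 1), (1, 4), (2, 0), (4,
      0), (4, 2), (4, 4), (5, 0), (5, 2), (5, 4)], [(0, 4)], [3], [(3, 0, [2]), (10, 4,
      [2])]⟩]
  Ta := [((0, 1), 0, 1), ((0, 8), 0, 8), ((1, 0), 1, 0), ((1, 5), 1, 6), ((2, 4), 1, 5), ((2, 6),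
    1, 7), ((3, 4), 0, 5), ((3, 10), 0, 4)]
  Tb := [((0, 1, 8), 0, 1, 8), ((1, 0, 5), 1, 0, 6), ((2, 4, 6), 1, 5, 7), ((3, 4, 10), 0, 5, 4),
    ((4, 2, 3), 5, 1, 0), ((5, 1, 6), 6, 1, 7), ((6, 2, 5), 7, 1, 6), ((7, 8, 9), 2, 8, 3),
    ((8, 0, 7), 8, 0, 2), ((9, 7, 10), 3, 2, 4), ((10, 3, 9), 4, 0, 3)]
  Tc := [(2, 0, 4)]
  Td := [((0, 2), (0, 1), 1), ((0, 2), (0, 8), 8), ((0, 2), (3, 4), 5), ((0, 2), (3, 10), 4),
    ((2, 0), (7, 8), 8), ((2, 0), (7, 9), 3), ((2, 4), (7, 8), 8), ((2, 4), (7, 9), 3), ((4,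
    2), (10, 3), 0), ((4, 2), (10, 9), 3)]
  G := [[0, 0x21c432521cc21c4e21c432512cc32521cce612c83258a32588ac4,
    0x11611ca11611aa181214ed248, 0x12c421c45221c329c21c812c8d2c8,
    0x44324825159ac1aa39a12a53a12ad2c8], [0, 0, 0x6141641e1e1a81a1ae182a41ed1c2,
    0x4844256acc6252e5cd16ac829c848818d1c2, 0x46926436caa6434e9ad1ac388a818818d1c2], [0, 0,
    0x181214e11c11ca141812ed248, 0x6412ec12ec1d2a8182c4, 0x64a14ea14ea1d288182c4], [0, 0,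
    0x4144a41e1e1a283a1ae1e1ad1c2, 0xc81841c8818c426c1641562c12ec12ec1dc22c1a8198cc,
    0x64a164a1546a16ca14ea1dcc6a1881821d8218cc2]]

noncomputable def n1841 : Ent := ⟨e1841, noF, [], [], []⟩

def c1841 : PLift (Cov.check n1841.C.D v1841 = true) := ⟨by decide +kernel⟩

def b1841 : PLift (entF (fidx ts) 400 1841 n1841 = true) := ⟨by decide +kernel⟩

theorem g1841 : GoodF (fidx ts) 400 1841 := GoodF.ofV v1841 n1841 c1841.down b1841.down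

/-- 4846744:1576/1 -/
noncomputable def e1842 : SCfg where
  D := {
    a := 7
    L := 10
    kp := 7
    inn := [(0, 1), (0, 3), (0, 4), (1, 0), (1, 2), (1, 3), (1, 4), (1, 5), (2, 1), (3, 0), (3, 1), (4,
      0), (4, 1), (4, 6), (5, 1), (6, 4)]
    mix := [(0, 0), (1, 1), (1, 2), (1, 3), (2, 1), (2, 2), (2, 4), (3, 0), (3, 1), (3, 5), (3, 6), (4,
      0), (4, 3), (4, 7), (4, 8), (5, 2), (5, 3), (5, 9), (6, 0), (6, 5), (6, 8)]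
    cl := [0, 0, 1, 0, 4, 2, 5, 6, 3, 7]
    chq := [(0, 1), (0, 3), (1, 0), (3, 0)]
    rng := [(0, 5), (1, 4), (1, 6), (2, 4), (2, 9), (3, 7), (3, 9), (4, 1), (4, 2), (5, 0), (5, 6), (5,
      8), (6, 1), (6, 5), (7, 3), (7, 8), (8, 5), (8, 7), (9, 2), (9, 3)]
    lev := [] }
  links := [[1, 4, 7, 3], [4, 0, 3, 8, 2, 9, 5, 10], [9, 1, 8, 11], [8, 1, 0, 7, 12, 13], [7, 0, 1, 10,
    14, 15, 6], [10, 1, 9, 16], [7, 4, 15, 12]]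
  P := {
    a := 7
    N := 17
    nb := [154, 1853, 2818, 12675, 50371, 67074, 37008, 4185, 10254, 67622, 81970, 772, 41160, 4360,
      33808, 20560, 1568]
    tri := [(0, 1, 3), (0, 1, 4), (0, 3, 7), (0, 4, 7), (1, 2, 8), (1, 2, 9), (1, 3, 8), (1, 4, 10),
      (1, 5, 9), (1, 5, 10), (2, 8, 11), (2, 9, 11), (3, 7, 12), (3, 8, 13), (3, 12, 13), (4, 6,
      7), (4, 6, 15), (4, 10, 14), (4, 14, 15), (5, 9, 16), (5, 10, 16), (6, 7, 12), (6, 12, 15)]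
    fin := [0, 0, 0, 0, 0, 0, 0, 0, 0, 9, 0, 11, 12, 13, 14, 15, 16]
    chd := [(0, 9), (0, 15)]
    steps := [(0, 1), (0, 2), (0, 3), (0, 4), (0, 5), (0, 7), (0, 6), (0, 8), (0, 10)] }
  rep := [0, 9, 12, 15, 11, 13, 14, 16]

noncomputable def v1842 : Cov.CovD where
  P := 3
  N := 5
  pl := [4, 5, 6, 7, 9]
  lev := [⟨[], [], [], [], [(0, 0, [1, 3])]⟩,
    ⟨[], [(0, 0), (0, 1)], [(0, 0), (0, 1)], [], [(1, 0, [1, 3]), (2, 1, [0]), (3, 0, [1,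
      3])]⟩,
    ⟨[(0, 1)], [(1, 0), (1, 1)], [(0, 1)], [4], [(1, 0, [1, 3]), (2, 1, [0])]⟩,
    ⟨[(0, 1), (1, 2)], [(0, 0), (1, 0), (1, 1), (2, 0)], [(0, 0)], [2, 5], [(0, 0, [1, 3]),
      (1, 0, [1, 3])]⟩,
    ⟨[(0, 1), (0, 3), (1, 2), (1, 3)], [(0, 0), (0, 3), (1, 0), (1, 1), (1, 3), (3, 0)],
      [(0, 0), (0, 3)], [6], [(0, 0, [1, 3]), (3, 0, [1, 3]), (8, 3, [0])]⟩,
    ⟨[(0, 1), (1, 2), (1, 3), (1, 4)], [(1, 0), (1, 1), (2, 1), (4, 0)], [(0, 1)], [7],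
      [(2, 1, [0]), (3, 0, [1, 3])]⟩,
    ⟨[(0, 4), (1, 4)], [(0, 0), (3, 0), (4, 0), (4, 3)], [(0, 3)], [2], [(0, 0, [1, 3]),
      (8, 3, [0])]⟩]
  Ta := [((0, 5), 0, 2), ((1, 4), 0, 4), ((1, 6), 0, 5), ((3, 7), 0, 6), ((3, 9), 0, 7)]
  Tb := [((1, 4, 6), 0, 4, 5), ((2, 4, 9), 1, 4, 7), ((3, 7, 9), 0, 6, 7), ((4, 1, 2), 4, 0, 1),
    ((5, 0, 6), 2, 0, 5), ((5, 0, 8), 2, 0, 3), ((5, 6, 8), 2, 5, 3), ((6, 1, 5), 5, 0, 2),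
    ((7, 3, 8), 6, 0, 3), ((8, 5, 7), 3, 2, 6), ((9, 2, 3), 7, 1, 0)]
  Tc := [(0, 1, 3)]
  Td := [((0, 1), (0, 5), 2), ((0, 1), (1, 4), 4), ((0, 1), (1, 6), 5), ((0, 1), (3, 7), 6), ((0,
    1), (3, 9), 7), ((0, 3), (0, 5), 2), ((0, 3), (1, 4), 4), ((0, 3), (1, 6), 5), ((0, 3),
    (3, 7), 6), ((0, 3), (3, 9), 7), ((1, 0), (2, 4), 4), ((1, 0), (2, 9), 7), ((3, 0), (8,
    5), 2), ((3, 0), (8, 7), 6)]
  G := [[0, 0x1411cc414a44688a11a11ae8811aac88c11a11ce8211aacac2, 0x41441c16c181c1a818a1c2,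
    0x41c1641c16c1818818c1c2, 0xa1216a1216a1818818a1c4], [0,
    0x11a44611ce441644c281611a11ce818a11611ce81611cacc2c, 0,
    0x41116411916514111ecc819111e818c8188cc2, 0x212119121ea2122c411916a14a48111c8818818acca],
    [0, 0x1411661411c116ec4211661244611cec611c18c888c18688ac2, 0,
    0x4441444c1ccec188c9811ce888c1c2, 0x184814144144a1888c22ca88ca822cea14b]]

noncomputable def n1842 : Ent := ⟨e1842, noF, [], [], []⟩

def c1842 : PLift (Cov.check n1842.C.D v1842 = true) := ⟨by decide +kernel⟩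

def b1842 : PLift (entF (fidx ts) 400 1842 n1842 = true) := ⟨by decide +kernel⟩

theorem g1842 : GoodF (fidx ts) 400 1842 := GoodF.ofV v1842 n1842 c1842.down b1842.down

/-- 4846744:1576 -/
noncomputable def e1843 : SCfg where
  D := {
    a := 7
    L := 11
    kp := 8
    inn := [(0, 1), (0, 3), (0, 4), (1, 0), (1, 2), (1, 3), (1, 4), (1, 5), (2, 1), (3, 0), (3, 1), (4,
      0), (4, 1), (4, 6), (5, 1), (6, 4)]
    mix := [(0, 0), (1, 1), (1, 2), (1, 3), (2, 1), (2, 2), (2, 4), (3, 0), (3, 1), (3, 5), (3, 6), (4,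
      0), (4, 3), (4, 7), (4, 8), (5, 2), (5, 3), (5, 9), (6, 0), (6, 8), (6, 10)]
    cl := [0, 0, 1, 0, 4, 2, 5, 6, 3, 7, 8]
    chq := [(0, 1), (0, 3), (1, 0), (3, 0)]
    rng := [(0, 5), (0, 10), (1, 4), (1, 6), (2, 4), (2, 9), (3, 7), (3, 9), (4, 1), (4, 2), (5, 0),
      (5, 6), (6, 1), (6, 5), (7, 3), (7, 8), (8, 7), (8, 10), (9, 2), (9, 3), (10, 0), (10, 8)]
    lev := [] }
  links := [[1, 4, 7, 3], [4, 0, 3, 8, 2, 9, 5, 10], [9, 1, 8, 11], [8, 1, 0, 7, 12, 13], [7, 0, 1, 10,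
    14, 15, 6], [10, 1, 9, 16], [7, 4, 15, 17]]
  P := {
    a := 7
    N := 18
    nb := [154, 1853, 2818, 12675, 50371, 67074, 163984, 135257, 10254, 67622, 81970, 772, 8328, 4360,
      33808, 147536, 1568, 32960]
    tri := [(0, 1, 3), (0, 1, 4), (0, 3, 7), (0, 4, 7), (1, 2, 8), (1, 2, 9), (1, 3, 8), (1, 4, 10),
      (1, 5, 9), (1, 5, 10), (2, 8, 11), (2, 9, 11), (3, 7, 12), (3, 8, 13), (3, 12, 13), (4, 6,
      7), (4, 6, 15), (4, 10, 14), (4, 14, 15), (5, 9, 16), (5, 10, 16), (6, 7, 17), (6, 15, 17)]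
    fin := [0, 0, 0, 0, 0, 0, 0, 0, 0, 9, 0, 11, 12, 13, 14, 15, 16, 17]
    chd := [(0, 9), (0, 15)]
    steps := [(0, 1), (0, 2), (0, 3), (0, 4), (0, 5), (0, 6), (0, 7), (0, 8), (0, 10)] }
  rep := [0, 9, 12, 15, 11, 13, 14, 16, 17]

noncomputable def v1843 : Cov.CovD where
  P := 3
  N := 6
  pl := [4, 5, 6, 7, 9, 10]
  lev := [⟨[], [], [], [], [(0, 0, [1, 3])]⟩,
    ⟨[], [(0, 0), (0, 1)], [(0, 0), (0, 1)], [], [(1, 0, [1, 3]), (2, 1, [0]), (3, 0, [1,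
      3])]⟩,
    ⟨[(0, 1)], [(1, 0), (1, 1)], [(0, 1)], [4], [(1, 0, [1, 3]), (2, 1, [0])]⟩,
    ⟨[(0, 1), (1, 2)], [(0, 0), (1, 0), (1, 1), (2, 0)], [(0, 0)], [2, 5], [(0, 0, [1, 3]),
      (1, 0, [1, 3])]⟩,
    ⟨[(0, 1), (0, 3), (1, 2), (1, 3)], [(0, 0), (0, 3), (1, 0), (1, 1), (1, 3), (3, 0)],
      [(0, 0), (0, 3)], [6], [(0, 0, [1, 3]), (3, 0, [1, 3]), (8, 3, [0])]⟩,
    ⟨[(0, 1), (1, 2), (1, 3), (1, 4)], [(1, 0), (1, 1), (2, 1), (4, 0)], [(0, 1)], [7],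
      [(2, 1, [0]), (3, 0, [1, 3])]⟩,
    ⟨[(0, 4), (1, 4)], [(0, 0), (3, 0), (4, 0), (4, 3)], [(0, 3)], [8], [(0, 0, [1, 3]),
      (8, 3, [0])]⟩]
  Ta := [((0, 5), 0, 2), ((0, 10), 0, 8), ((1, 4), 0, 4), ((1, 6), 0, 5), ((3, 7), 0, 6), ((3,
    9), 0, 7)]
  Tb := [((0, 5, 10), 0, 2, 8), ((1, 4, 6), 0, 4, 5), ((2, 4, 9), 1, 4, 7), ((3, 7, 9), 0, 6, 7),
    ((4, 1, 2), 4, 0, 1), ((5, 0, 6), 2, 0, 5), ((6, 1, 5), 5, 0, 2), ((7, 3, 8), 6, 0, 3),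
    ((8, 7, 10), 3, 6, 8), ((9, 2, 3), 7, 1, 0), ((10, 0, 8), 8, 0, 3)]
  Tc := [(0, 1, 3)]
  Td := [((0, 1), (0, 5), 2), ((0, 1), (0, 10), 8), ((0, 1), (1, 4), 4), ((0, 1), (1, 6), 5),
    ((0, 1), (3, 7), 6), ((0, 1), (3, 9), 7), ((0, 3), (0, 5), 2), ((0, 3), (0, 10), 8), ((0,
    3), (1, 4), 4), ((0, 3), (1, 6), 5), ((0, 3), (3, 7), 6), ((0, 3), (3, 9), 7), ((1, 0),
    (2, 4), 4), ((1, 0), (2, 9), 7), ((3, 0), (8, 7), 6), ((3, 0), (8, 10), 8)]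
  G := [[0, 0x1161166411612611611a11ceca11611a14e11a8c11a18a8cc2, 0xe14e1e16618e1e1ae18a14c,
    0xe12e12c18e14e14c1e18e18c1c6, 0xe1e1ae1e1aa14e14e14a186], [0,
    0x11a11c11ce188c11c11a11ce1411cacc2116441211a11ae4686, 0,
    0x31445191611e1d1ecce1b111e9151ac3188cc2, 0x31223151a2c4e1116914a4913151e5191cab188cca],
    [0, 0x1414611611a11aec1212611611c11cec61161818e811c88ac2, 0,
    0x94541459c95cec133c1895ce1298c1c2, 0x33c98518de11c8a14e44eeceec6a183]]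

noncomputable def n1843 : Ent := ⟨e1843, noF, [], [], [(12, 17, [6903326391201334775872065844685381424292761054348340378595029937233921, 0])]⟩

def c1843 : PLift (Cov.check n1843.C.D v1843 = true) := ⟨by decide +kernel⟩

def b1843 : PLift (entF (fidx ts) 400 1843 n1843 = true) := ⟨by decide +kernel⟩

theorem g1843 : GoodF (fidx ts) 400 1843 := GoodF.ofV v1843 n1843 c1843.down b1843.down

/-- 4846744:1585/1 -/
noncomputable def e1844 : SCfg where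
  D := {
    a := 7
    L := 10
    kp := 7
    inn := [(0, 1), (0, 3), (0, 4), (1, 0), (1, 2), (1, 3), (1, 5), (2, 1), (3, 0), (3, 1), (3, 4), (4,
      0), (4, 3), (4, 6), (5, 1), (6, 4)]
    mix := [(0, 0), (1, 0), (1, 1), (1, 2), (1, 3), (2, 1), (2, 2), (2, 4), (3, 1), (3, 5), (3, 6), (4,
      0), (4, 5), (4, 7), (4, 8), (5, 2), (5, 3), (5, 9), (6, 4), (6, 7), (6, 8)]
    cl := [1, 0, 2, 0, 4, 3, 6, 3, 5, 7]
    chq := [(0, 2), (1, 6), (2, 0), (6, 1)]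
    rng := [(0, 3), (0, 7), (1, 4), (1, 6), (2, 4), (2, 9), (3, 0), (3, 9), (4, 1), (4, 2), (4, 7), (4,
      8), (5, 6), (5, 8), (6, 1), (6, 5), (7, 0), (7, 4), (8, 4), (8, 5), (9, 2), (9, 3)]
    lev := [] }
  links := [[1, 7, 4, 3], [7, 0, 3, 8, 2, 9, 5, 10], [9, 1, 8, 11], [8, 1, 0, 4, 12, 13], [12, 3, 0, 7,
    14, 6, 15], [10, 1, 9, 16], [15, 4, 14, 11]]
  P := {
    a := 7
    N := 17
    nb := [154, 1965, 2818, 12563, 53449, 67074, 51216, 17427, 10254, 67622, 65698, 49988, 40984,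
      4360, 2256, 6224, 1568]
    tri := [(0, 1, 3), (0, 1, 7), (0, 3, 4), (0, 4, 7), (1, 2, 8), (1, 2, 9), (1, 3, 8), (1, 5, 9), (1,
      5, 10), (1, 7, 10), (2, 8, 11), (2, 9, 11), (3, 4, 12), (3, 8, 13), (3, 12, 13), (4, 6, 14),
      (4, 6, 15), (4, 7, 14), (4, 12, 15), (5, 9, 16), (5, 10, 16), (6, 11, 14), (6, 11, 15)]
    fin := [0, 1, 2, 0, 4, 1, 4, 0, 1, 9, 1, 2, 4, 13, 4, 15, 16]
    chd := [(0, 13), (1, 9)]
    steps := [(0, 3), (0, 7), (1, 5), (1, 8), (1, 10), (2, 11), (4, 6), (4, 14), (4, 12)] }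
  rep := [1, 0, 9, 4, 2, 15, 13, 16]

noncomputable def v1844 : Cov.CovD where
  P := 3
  N := 5
  pl := [4, 8, 9]
  lev := [⟨[], [], [], [], [(0, 1, [6])]⟩,
    ⟨[], [(0, 0), (0, 1), (0, 2)], [(0, 0), (0, 1), (0, 2), (1, 2)], [], [(0, 1, [6]), (1,
      0, [2]), (2, 2, [0]), (3, 0, [2])]⟩,
    ⟨[(0, 1)], [(1, 0), (1, 1), (1, 2)], [(0, 2)], [4], [(1, 0, [2]), (2, 2, [0])]⟩,
    ⟨[(0, 1), (1, 2)], [(0, 0), (0, 1), (0, 3), (0, 6), (1, 0), (1, 1), (1, 2), (1, 3), (1,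
      6), (2, 0)], [(0, 3), (0, 6), (3, 6)], [], [(1, 0, [2]), (5, 3, []), (6, 6, [1])]⟩,
    ⟨[(0, 1), (0, 3), (1, 3)], [(0, 1), (0, 3), (1, 1), (3, 0), (3, 1), (3, 3), (3, 6)],
      [(1, 3), (3, 3)], [5], [(0, 1, [6]), (5, 3, []), (7, 3, [])]⟩,
    ⟨[(0, 1), (1, 2), (1, 3)], [(1, 0), (1, 1), (1, 2), (2, 2)], [(0, 2)], [7], [(2, 2,
      [0]), (3, 0, [2])]⟩,
    ⟨[(0, 4), (3, 4)], [(4, 1), (4, 3)], [], [4, 5], [(7, 3, [])]⟩]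
  Ta := [((1, 4), 0, 4), ((1, 6), 0, 6), ((3, 0), 0, 1), ((3, 9), 0, 7), ((5, 6), 3, 6), ((5, 8),
    3, 5), ((7, 0), 3, 1), ((7, 4), 3, 4)]
  Tb := [((0, 3, 7), 1, 0, 3), ((1, 4, 6), 0, 4, 6), ((2, 4, 9), 2, 4, 7), ((3, 0, 9), 0, 1, 7),
    ((4, 1, 2), 4, 0, 2), ((4, 1, 7), 4, 0, 3), ((4, 1, 8), 4, 0, 5), ((4, 2, 7), 4, 2, 3),
    ((4, 2, 8), 4, 2, 5), ((4, 7, 8), 4, 3, 5), ((5, 6, 8), 3, 6, 5), ((6, 1, 5), 6, 0, 3),
    ((7, 0, 4), 3, 1, 4), ((8, 4, 5), 5, 4, 3), ((9, 2, 3), 7, 2, 0)]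
  Tc := []
  Td := [((0, 2), (1, 4), 4), ((0, 2), (1, 6), 6), ((0, 2), (3, 0), 1), ((0, 2), (3, 9), 7), ((1,
    6), (0, 3), 0), ((1, 6), (0, 7), 3), ((2, 0), (2, 4), 4), ((2, 0), (2, 9), 7), ((6, 1),
    (6, 1), 0), ((6, 1), (6, 5), 3)]
  G := [[0, 0, 0x126a9c11ad255a44a14ad2c48, 0x119121d25121c1d2c81, 0x8191c1d2512111d2a84], [0,
    0, 0x4461165248886226c222611a92a8c, 0x213152214111d2c48182889,
    0x813192612111d2a84142885], [0, 0x63c12c11ce14818c99c11ce1846,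
    0x82692c886d252a24a44ad2c41, 0x55c99c11cd2148, 0x55a96accad2181], [0,
    0x1838a814ffc11c11ce4114dfc14e81c6, 0x44611652422a22a116d22c88682889,
    0x11c1218aac66cc2145, 0x11a1218aaa66ac2185]]

noncomputable def n1844 : Ent := ⟨e1844, noF, [], [], []⟩

def c1844 : PLift (Cov.check n1844.C.D v1844 = true) := ⟨by decide +kernel⟩

def b1844 : PLift (entF (fidx ts) 400 1844 n1844 = true) := ⟨by decide +kernel⟩

theorem g1844 : GoodF (fidx ts) 400 1844 := GoodF.ofV v1844 n1844 c1844.down b1844.down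

/-- 4846744:1585/2 -/
noncomputable def e1845 : SCfg where
  D := {
    a := 7
    L := 10
    kp := 7
    inn := [(0, 1), (0, 3), (0, 4), (1, 0), (1, 2), (1, 3), (1, 5), (2, 1), (3, 0), (3, 1), (3, 4), (4,
      0), (4, 3), (4, 6), (5, 1), (6, 4)]
    mix := [(0, 0), (1, 0), (1, 1), (1, 2), (1, 3), (2, 1), (2, 2), (2, 4), (3, 1), (3, 5), (3, 6), (4,
      0), (4, 5), (4, 7), (4, 8), (5, 2), (5, 3), (5, 9), (6, 7), (6, 8), (6, 9)]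
    cl := [1, 0, 2, 0, 7, 3, 6, 3, 4, 5]
    chq := [(0, 2), (1, 6), (2, 0), (6, 1)]
    rng := [(0, 3), (0, 7), (1, 4), (1, 6), (2, 4), (2, 9), (3, 0), (3, 9), (4, 1), (4, 2), (5, 6), (5,
      8), (6, 1), (6, 5), (7, 0), (7, 9), (8, 5), (8, 9), (9, 2), (9, 3), (9, 7), (9, 8)]
    lev := [] }
  links := [[1, 7, 4, 3], [7, 0, 3, 8, 2, 9, 5, 10], [9, 1, 8, 11], [8, 1, 0, 4, 12, 13], [12, 3, 0, 7,
    14, 6, 15], [10, 1, 9, 16], [15, 4, 14, 16]]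
  P := {
    a := 7
    N := 17
    nb := [154, 1965, 2818, 12563, 53449, 67074, 114704, 17427, 10254, 67622, 65698, 772, 40984, 4360,
      65744, 69712, 50784]
    tri := [(0, 1, 3), (0, 1, 7), (0, 3, 4), (0, 4, 7), (1, 2, 8), (1, 2, 9), (1, 3, 8), (1, 5, 9), (1,
      5, 10), (1, 7, 10), (2, 8, 11), (2, 9, 11), (3, 4, 12), (3, 8, 13), (3, 12, 13), (4, 6, 14),
      (4, 6, 15), (4, 7, 14), (4, 12, 15), (5, 9, 16), (5, 10, 16), (6, 14, 16), (6, 15, 16)]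
    fin := [0, 1, 1, 0, 4, 5, 4, 0, 1, 9, 1, 11, 4, 13, 4, 15, 5]
    chd := [(0, 13), (1, 9)]
    steps := [(0, 3), (0, 7), (1, 2), (1, 8), (1, 10), (4, 6), (4, 14), (4, 12), (5, 16)] }
  rep := [1, 0, 9, 4, 15, 5, 13, 11]

noncomputable def v1845 : Cov.CovD where
  P := 3
  N := 5
  pl := [4, 8, 9]
  lev := [⟨[], [], [], [], [(0, 1, [6])]⟩,
    ⟨[], [(0, 0), (0, 1), (0, 2)], [(0, 0), (0, 1), (0, 2), (1, 2)], [], [(0, 1, [6]), (1,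
      0, [2]), (2, 2, [0]), (3, 0, [2])]⟩,
    ⟨[(0, 1)], [(1, 0), (1, 1), (1, 2)], [(0, 2)], [7], [(1, 0, [2]), (2, 2, [0])]⟩,
    ⟨[(0, 1), (1, 2)], [(0, 0), (0, 1), (0, 3), (0, 6), (1, 0), (1, 1), (1, 2), (1, 3), (1,
      6), (2, 0)], [(0, 3), (0, 6), (3, 6)], [], [(1, 0, [2]), (5, 3, []), (6, 6, [1])]⟩,
    ⟨[(0, 1), (0, 3), (1, 3)], [(0, 1), (0, 3), (1, 1), (3, 0), (3, 1), (3, 3), (3, 6)],
      [(1, 3), (3, 3)], [4], [(0, 1, [6]), (5, 3, []), (7, 3, [])]⟩,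
    ⟨[(0, 1), (1, 2), (1, 3)], [(1, 0), (1, 1), (1, 2), (2, 2)], [(0, 2)], [5], [(2, 2,
      [0]), (3, 0, [2])]⟩,
    ⟨[(0, 4), (3, 4)], [(4, 1), (4, 3)], [], [4, 5], [(7, 3, [])]⟩]
  Ta := [((1, 4), 0, 7), ((1, 6), 0, 6), ((3, 0), 0, 1), ((3, 9), 0, 5), ((5, 6), 3, 6), ((5, 8),
    3, 4), ((7, 0), 3, 1), ((7, 9), 3, 5)]
  Tb := [((0, 3, 7), 1, 0, 3), ((1, 4, 6), 0, 7, 6), ((2, 4, 9), 2, 7, 5), ((3, 0, 9), 0, 1, 5),
    ((4, 1, 2), 7, 0, 2), ((5, 6, 8), 3, 6, 4), ((6, 1, 5), 6, 0, 3), ((7, 0, 9), 3, 1, 5),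
    ((8, 5, 9), 4, 3, 5), ((9, 2, 3), 5, 2, 0), ((9, 2, 7), 5, 2, 3), ((9, 2, 8), 5, 2, 4),
    ((9, 3, 7), 5, 0, 3), ((9, 3, 8), 5, 0, 4), ((9, 7, 8), 5, 3, 4)]
  Tc := []
  Td := [((0, 2), (1, 4), 7), ((0, 2), (1, 6), 6), ((0, 2), (3, 0), 1), ((0, 2), (3, 9), 5), ((1,
    6), (0, 3), 0), ((1, 6), (0, 7), 3), ((2, 0), (2, 4), 7), ((2, 0), (2, 9), 5), ((6, 1),
    (6, 1), 0), ((6, 1), (6, 5), 3)]
  G := [[0, 0, 0xc1692c81cd285c926116d2684, 0xa19111d2a19111d2c84, 0x519111d2519111d2a84], [0,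
    0, 0x42642426426882a11a9282a11a92a4c, 0x1112a11192c882c61c26142c45,
    0x11122831192a828361c26142a85], [0, 0x25c92c12ce18425c94c11ce148a,
    0x44145245269822d252a2218d2ac8, 0x25c94c84cd2141, 0x86a92a12ad2184], [0,
    0x87c11c11ce4111cb4c11ce81c2, 0x24c11a522242611ad2a482a828882a4c, 0x31c121482c24cc2189,
    0x31a121882a64ac2185]]

noncomputable def n1845 : Ent := ⟨e1845, noF, [], [], []⟩

def c1845 : PLift (Cov.check n1845.C.D v1845 = true) := ⟨by decide +kernel⟩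

def b1845 : PLift (entF (fidx ts) 400 1845 n1845 = true) := ⟨by decide +kernel⟩

theorem g1845 : GoodF (fidx ts) 400 1845 := GoodF.ofV v1845 n1845 c1845.down b1845.down

/-- 4846744:1585 -/
noncomputable def e1846 : SCfg where
  D := {
    a := 7
    L := 11
    kp := 8
    inn := [(0, 1), (0, 3), (0, 4), (1, 0), (1, 2), (1, 3), (1, 5), (2, 1), (3, 0), (3, 1), (3, 4), (4,
      0), (4, 3), (4, 6), (5, 1), (6, 4)]
    mix := [(0, 0), (1, 0), (1, 1), (1, 2), (1, 3), (2, 1), (2, 2), (2, 4), (3, 1), (3, 5), (3, 6), (4,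
      0), (4, 5), (4, 7), (4, 8), (5, 2), (5, 3), (5, 9), (6, 7), (6, 8), (6, 10)]
    cl := [1, 0, 2, 0, 6, 3, 5, 3, 4, 7, 8]
    chq := [(0, 2), (1, 5), (2, 0), (5, 1)]
    rng := [(0, 3), (0, 7), (1, 4), (1, 6), (2, 4), (2, 9), (3, 0), (3, 9), (4, 1), (4, 2), (5, 6), (5,
      8), (6, 1), (6, 5), (7, 0), (7, 10), (8, 5), (8, 10), (9, 2), (9, 3), (10, 7), (10, 8)]
    lev := [] }
  links := [[1, 7, 4, 3], [7, 0, 3, 8, 2, 9, 5, 10], [9, 1, 8, 11], [8, 1, 0, 4, 12, 13], [12, 3, 0, 7,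
    14, 6, 15], [10, 1, 9, 16], [15, 4, 14, 17]]
  P := {
    a := 7
    N := 18
    nb := [154, 1965, 2818, 12563, 53449, 67074, 180240, 17427, 10254, 67622, 65698, 772, 40984, 4360,
      131280, 135248, 1568, 49216]
    tri := [(0, 1, 3), (0, 1, 7), (0, 3, 4), (0, 4, 7), (1, 2, 8), (1, 2, 9), (1, 3, 8), (1, 5, 9), (1,
      5, 10), (1, 7, 10), (2, 8, 11), (2, 9, 11), (3, 4, 12), (3, 8, 13), (3, 12, 13), (4, 6, 14),
      (4, 6, 15), (4, 7, 14), (4, 12, 15), (5, 9, 16), (5, 10, 16), (6, 14, 17), (6, 15, 17)]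
    fin := [0, 1, 1, 0, 4, 1, 4, 0, 1, 9, 1, 11, 4, 13, 4, 15, 16, 17]
    chd := [(0, 13), (1, 9)]
    steps := [(0, 3), (0, 7), (1, 2), (1, 5), (1, 8), (1, 10), (4, 6), (4, 14), (4, 12)] }
  rep := [1, 0, 9, 4, 15, 13, 11, 16, 17]

noncomputable def v1846 : Cov.CovD where
  P := 3
  N := 6
  pl := [4, 8, 9, 10]
  lev := [⟨[], [], [], [], [(0, 1, [5])]⟩,
    ⟨[], [(0, 0), (0, 1), (0, 2)], [(0, 0), (0, 1), (0, 2), (1, 2)], [], [(0, 1, [5]), (1,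
      0, [2]), (2, 2, [0]), (3, 0, [2])]⟩,
    ⟨[(0, 1)], [(1, 0), (1, 1), (1, 2)], [(0, 2)], [6], [(1, 0, [2]), (2, 2, [0])]⟩,
    ⟨[(0, 1), (1, 2)], [(0, 0), (0, 1), (0, 3), (0, 5), (1, 0), (1, 1), (1, 2), (1, 3), (1,
      5), (2, 0)], [(0, 3), (0, 5), (3, 5)], [], [(1, 0, [2]), (5, 3, []), (6, 5, [1])]⟩,
    ⟨[(0, 1), (0, 3), (1, 3)], [(0, 1), (0, 3), (1, 1), (3, 0), (3, 1), (3, 3), (3, 5)],
      [(1, 3), (3, 3)], [4], [(0, 1, [5]), (5, 3, []), (7, 3, [])]⟩,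
    ⟨[(0, 1), (1, 2), (1, 3)], [(1, 0), (1, 1), (1, 2), (2, 2)], [(0, 2)], [7], [(2, 2,
      [0]), (3, 0, [2])]⟩,
    ⟨[(0, 4), (3, 4)], [(4, 1), (4, 3)], [], [4, 8], [(7, 3, [])]⟩]
  Ta := [((1, 4), 0, 6), ((1, 6), 0, 5), ((3, 0), 0, 1), ((3, 9), 0, 7), ((5, 6), 3, 5), ((5, 8),
    3, 4), ((7, 0), 3, 1), ((7, 10), 3, 8)]
  Tb := [((0, 3, 7), 1, 0, 3), ((1, 4, 6), 0, 6, 5), ((2, 4, 9), 2, 6, 7), ((3, 0, 9), 0, 1, 7),
    ((4, 1, 2), 6, 0, 2), ((5, 6, 8), 3, 5, 4), ((6, 1, 5), 5, 0, 3), ((7, 0, 10), 3, 1, 8),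
    ((8, 5, 10), 4, 3, 8), ((9, 2, 3), 7, 2, 0), ((10, 7, 8), 8, 3, 4)]
  Tc := []
  Td := [((0, 2), (1, 4), 6), ((0, 2), (1, 6), 5), ((0, 2), (3, 0), 1), ((0, 2), (3, 9), 7), ((1,
    5), (0, 3), 0), ((1, 5), (0, 7), 3), ((2, 0), (2, 4), 6), ((2, 0), (2, 9), 7), ((5, 1),
    (6, 1), 0), ((5, 1), (6, 5), 3)]
  G := [[0, 0, 0xa56966cc6d2a5a96ccc6d2c81, 0x519131d2a19131d2c84, 0xa161c1d2a191c1d2a81], [0,
    0, 0x66634526664268aaa3892aaa3292a4c, 0x31123112c4a161c2a161c2c49,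
    0x61315228a13192886142a182a8d], [0, 0x94a4ccce1469ca5cccce19858c1cc2,
    0xaa6996cc6d2a5c69acc6d2c81, 0x55c99cc3cd2184, 0xaaa96accad2181], [0,
    0x3421433c2138211455cc2dc98c821899c84155c481ce, 0x33612a433c92a8a2666c2a866ac2c45,
    0x66c4214aac33c9218c, 0x33a1218aaa66ac2185]]

noncomputable def n1846 : Ent := ⟨e1846, noF, [], [], [(17, 11, [6903326391201334778116932359625648306653620957400551096786542323253249, 0]), (17, 16, [7334685537875745012586738086077695515070955365108989538292687701233665, 0])]⟩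

def c1846 : PLift (Cov.check n1846.C.D v1846 = true) := ⟨by decide +kernel⟩

def b1846 : PLift (entF (fidx ts) 400 1846 n1846 = true) := ⟨by decide +kernel⟩

theorem g1846 : GoodF (fidx ts) 400 1846 := GoodF.ofV v1846 n1846 c1846.down b1846.down

/-- 4846584:1587/1 -/
noncomputable def e1847 : SCfg where
  D := {
    a := 7
    L := 10
    kp := 7
    inn := [(0, 1), (0, 3), (0, 4), (0, 5), (1, 0), (1, 2), (1, 3), (1, 4), (2, 1), (3, 0), (3, 1), (3,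
      5), (4, 0), (4, 1), (4, 5), (5, 0), (5, 3), (5, 4), (5, 6), (6, 5)]
    mix := [(1, 0), (1, 1), (1, 2), (1, 3), (2, 0), (2, 1), (2, 4), (3, 0), (3, 5), (3, 6), (4, 3), (4,
      7), (5, 5), (5, 7), (5, 8), (5, 9), (6, 4), (6, 8), (6, 9)]
    cl := [0, 2, 0, 1, 4, 3, 7, 3, 5, 6]
    chq := [(1, 7), (3, 4), (4, 3), (7, 1)]
    rng := [(0, 4), (0, 6), (1, 2), (1, 4), (2, 1), (2, 3), (3, 2), (3, 7), (4, 0), (4, 1), (4, 8), (4,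
      9), (5, 6), (5, 9), (6, 0), (6, 5), (7, 3), (7, 8), (8, 4), (8, 7), (9, 4), (9, 5)]
    lev := [] }
  links := [[1, 4, 5, 3], [4, 0, 3, 7, 2, 8, 9, 10], [8, 1, 7, 11], [7, 1, 0, 5, 12, 13], [5, 0, 1, 10,
    14], [12, 3, 0, 4, 14, 15, 6, 16], [16, 5, 15, 11]]
  P := {
    a := 7
    N := 17
    nb := [58, 1949, 2434, 12451, 17443, 118873, 100384, 10254, 2566, 1282, 16914, 98756, 73768, 4232,
      33840, 18528, 6240]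
    tri := [(0, 1, 3), (0, 1, 4), (0, 3, 5), (0, 4, 5), (1, 2, 7), (1, 2, 8), (1, 3, 7), (1, 4, 10),
      (1, 8, 9), (1, 9, 10), (2, 7, 11), (2, 8, 11), (3, 5, 12), (3, 7, 13), (3, 12, 13), (4, 5,
      14), (4, 10, 14), (5, 6, 15), (5, 6, 16), (5, 12, 16), (5, 14, 15), (6, 11, 15), (6, 11,
      16)]
    fin := [0, 1, 1, 0, 0, 5, 6, 1, 8, 1, 0, 6, 5, 13, 5, 15, 16]
    chd := [(0, 13), (6, 5)]
    steps := [(0, 3), (0, 4), (0, 10), (1, 2), (1, 7), (1, 9), (5, 14), (5, 12), (6, 11)] }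
  rep := [1, 0, 8, 5, 6, 15, 16, 13]

noncomputable def v1847 : Cov.CovD where
  P := 3
  N := 5
  pl := [1, 8, 9]
  lev := [⟨[], [], [], [], []⟩,
    ⟨[], [(0, 0), (0, 1)], [(0, 0), (0, 1)], [2], [(0, 0, []), (2, 0, []), (3, 1, [7])]⟩,
    ⟨[(0, 1)], [(1, 0), (1, 1), (1, 4)], [(0, 4)], [2], [(0, 0, []), (4, 4, [3])]⟩,
    ⟨[(0, 1), (1, 2)], [(0, 0), (0, 3), (0, 7), (1, 0), (1, 1), (1, 3), (1, 7), (2, 0)],
      [(0, 3), (0, 7), (3, 7)], [], [(0, 0, []), (5, 3, [4]), (6, 7, [1])]⟩,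
    ⟨[(0, 1), (0, 3), (1, 2), (1, 3)], [(0, 1), (0, 3), (1, 0), (1, 1), (1, 3)], [(1, 3)],
      [], [(3, 1, [7]), (7, 3, [4])]⟩,
    ⟨[(0, 1), (0, 3), (0, 4), (1, 3), (1, 4), (3, 4)], [(0, 3), (3, 0), (3, 3), (3, 7), (4,
      1), (4, 3)], [(3, 3)], [5, 6], [(5, 3, [4]), (7, 3, [4])]⟩,
    ⟨[(0, 5), (3, 5), (4, 5)], [(2, 4), (5, 3), (5, 4)], [], [5, 6], [(4, 4, [3])]⟩]
  Ta := [((0, 4), 0, 4), ((0, 6), 0, 7), ((2, 1), 0, 2), ((2, 3), 0, 1), ((5, 6), 3, 7), ((5, 9),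
    3, 6), ((7, 3), 3, 1), ((7, 8), 3, 5)]
  Tb := [((0, 4, 6), 0, 4, 7), ((1, 2, 4), 2, 0, 4), ((2, 1, 3), 0, 2, 1), ((3, 2, 7), 1, 0, 3),
    ((4, 0, 1), 4, 0, 2), ((4, 0, 8), 4, 0, 5), ((4, 0, 9), 4, 0, 6), ((4, 1, 8), 4, 2, 5),
    ((4, 1, 9), 4, 2, 6), ((4, 8, 9), 4, 5, 6), ((5, 6, 9), 3, 7, 6), ((6, 0, 5), 7, 0, 3),
    ((7, 3, 8), 3, 1, 5), ((8, 4, 7), 5, 4, 3), ((9, 4, 5), 6, 4, 3)]
  Tc := []
  Td := [((1, 7), (3, 2), 0), ((1, 7), (3, 7), 3), ((3, 4), (5, 6), 7), ((3, 4), (5, 9), 6), ((3,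
    4), (7, 3), 1), ((3, 4), (7, 8), 5), ((4, 3), (4, 0), 0), ((4, 3), (4, 1), 2), ((4, 3),
    (4, 8), 5), ((4, 3), (4, 9), 6), ((7, 1), (6, 0), 0), ((7, 1), (6, 5), 3)]
  G := [[0, 0, 0, 0xb248b9cf468728745ef8a4c1, 0xd248bdcf4622479def4aa72488a1], [0, 0, 0,
    0x12bc39118a848b5e42124294c749ef824c5, 0xc11288528da589de4624352a97b9af46a85], [0,
    0x8ace416ace41114114114ed82, 0x9214c211174d8f9a2215bcd1221be48, 0x4482d289217bdcf8e541,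
    0xd21d217bdcf1e184], [0, 0x1128147ad4f27bc2f46185,
    0x224114624117844ce134c8bc428983483882ac9, 0x7198214c2d2cbd8746185,
    0x743d29fbdaf5856181]]

noncomputable def n1847 : Ent := ⟨e1847, noF, [], [], []⟩

def c1847 : PLift (Cov.check n1847.C.D v1847 = true) := ⟨by decide +kernel⟩

def b1847 : PLift (entF (fidx ts) 400 1847 n1847 = true) := ⟨by decide +kernel⟩

theorem g1847 : GoodF (fidx ts) 400 1847 := GoodF.ofV v1847 n1847 c1847.down b1847.down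

/-- 4846584:1587/2 -/
noncomputable def e1848 : SCfg where
  D := {
    a := 7
    L := 10
    kp := 7
    inn := [(0, 1), (0, 3), (0, 4), (0, 5), (1, 0), (1, 2), (1, 3), (1, 4), (2, 1), (3, 0), (3, 1), (3,
      5), (4, 0), (4, 1), (4, 5), (5, 0), (5, 3), (5, 4), (5, 6), (6, 5)]
    mix := [(1, 0), (1, 1), (1, 2), (1, 3), (2, 0), (2, 1), (2, 4), (3, 0), (3, 5), (3, 6), (4, 3), (4,
      7), (5, 5), (5, 7), (5, 8), (5, 9), (6, 1), (6, 8), (6, 9)]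
    cl := [0, 1, 0, 2, 7, 3, 6, 3, 4, 5]
    chq := [(1, 3), (2, 6), (3, 1), (6, 2)]
    rng := [(0, 4), (0, 6), (1, 2), (1, 4), (1, 8), (1, 9), (2, 1), (2, 3), (3, 2), (3, 7), (4, 0), (4,
      1), (5, 6), (5, 9), (6, 0), (6, 5), (7, 3), (7, 8), (8, 1), (8, 7), (9, 1), (9, 5)]
    lev := [] }
  links := [[1, 4, 5, 3], [4, 0, 3, 7, 2, 8, 9, 10], [8, 1, 7, 11], [7, 1, 0, 5, 12, 13], [5, 0, 1, 10,
    14], [12, 3, 0, 4, 14, 15, 6, 16], [16, 5, 15, 8]]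
  P := {
    a := 7
    N := 17
    nb := [58, 1949, 2434, 12451, 17443, 118873, 98592, 10254, 100934, 1282, 16914, 388, 73768, 4232,
      33840, 16736, 4448]
    tri := [(0, 1, 3), (0, 1, 4), (0, 3, 5), (0, 4, 5), (1, 2, 7), (1, 2, 8), (1, 3, 7), (1, 4, 10),
      (1, 8, 9), (1, 9, 10), (2, 7, 11), (2, 8, 11), (3, 5, 12), (3, 7, 13), (3, 12, 13), (4, 5,
      14), (4, 10, 14), (5, 6, 15), (5, 6, 16), (5, 12, 16), (5, 14, 15), (6, 8, 15), (6, 8, 16)]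
    fin := [0, 1, 1, 0, 0, 5, 6, 1, 6, 1, 0, 11, 5, 13, 5, 15, 16]
    chd := [(0, 13), (6, 5)]
    steps := [(0, 3), (0, 4), (0, 10), (1, 2), (1, 7), (1, 9), (5, 14), (5, 12), (6, 8)] }
  rep := [1, 6, 0, 5, 15, 16, 13, 11]

noncomputable def v1848 : Cov.CovD where
  P := 3
  N := 5
  pl := [4, 8, 9]
  lev := [⟨[], [], [], [], []⟩,
    ⟨[], [(0, 0), (0, 1), (0, 2)], [(0, 0), (0, 1), (0, 2), (1, 2)], [], [(0, 0, []), (1,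
      1, [3]), (2, 0, []), (3, 2, [6])]⟩,
    ⟨[(0, 1)], [(1, 0), (1, 1), (1, 2)], [(0, 1)], [7], [(0, 0, []), (1, 1, [3])]⟩,
    ⟨[(0, 1), (1, 2)], [(0, 0), (0, 3), (0, 6), (1, 0), (1, 1), (1, 2), (1, 3), (1, 6), (2,
      0)], [(0, 3), (0, 6), (3, 6)], [], [(0, 0, []), (5, 3, [1]), (6, 6, [2])]⟩,
    ⟨[(0, 1), (0, 3), (1, 2), (1, 3)], [(0, 2), (0, 3), (1, 0), (1, 1), (1, 2), (1, 3)],
      [(2, 3)], [], [(3, 2, [6]), (7, 3, [1])]⟩,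
    ⟨[(0, 1), (0, 3), (0, 4), (1, 3), (1, 4), (3, 4)], [(0, 3), (3, 0), (3, 3), (3, 6), (4,
      2), (4, 3)], [(3, 3)], [4, 5], [(5, 3, [1]), (7, 3, [1])]⟩,
    ⟨[(0, 5), (3, 5), (4, 5)], [(1, 1), (2, 1), (5, 1), (5, 3)], [], [4, 5], [(1, 1, [3])]⟩]
  Ta := [((0, 4), 0, 7), ((0, 6), 0, 6), ((2, 1), 0, 1), ((2, 3), 0, 2), ((5, 6), 3, 6), ((5, 9),
    3, 5), ((7, 3), 3, 2), ((7, 8), 3, 4)]
  Tb := [((0, 4, 6), 0, 7, 6), ((1, 2, 4), 1, 0, 7), ((1, 2, 8), 1, 0, 4), ((1, 2, 9), 1, 0, 5),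
    ((1, 4, 8), 1, 7, 4), ((1, 4, 9), 1, 7, 5), ((1, 8, 9), 1, 4, 5), ((2, 1, 3), 0, 1, 2),
    ((3, 2, 7), 2, 0, 3), ((4, 0, 1), 7, 0, 1), ((5, 6, 9), 3, 6, 5), ((6, 0, 5), 6, 0, 3),
    ((7, 3, 8), 3, 2, 4), ((8, 1, 7), 4, 1, 3), ((9, 1, 5), 5, 1, 3)]
  Tc := []
  Td := [((1, 3), (1, 2), 0), ((1, 3), (1, 4), 7), ((1, 3), (1, 8), 4), ((1, 3), (1, 9), 5), ((2,
    6), (3, 2), 0), ((2, 6), (3, 7), 3), ((3, 1), (5, 6), 6), ((3, 1), (5, 9), 5), ((3, 1),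
    (7, 3), 2), ((3, 1), (7, 8), 4), ((6, 2), (6, 0), 0), ((6, 2), (6, 5), 3)]
  G := [[0, 0, 0, 0x921441684521d2189dcf1e4421d13889a8cc, 0x89daf2442689d8f242526c81], [0, 0, 0,
    0x12d25898b84c56543d288d89d8f46c445828c1, 0x89def2442689def24426c81], [0, 0xe112e112648,
    0x88ce2148ce21112112821d2ed84, 0x52492181dcf445e181, 0x11d2344161889c24189], [0,
    0xe112e112684, 0x24172418449af2882a149, 0x54389c88d21d8352581c1, 0x89def24426181]]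

noncomputable def n1848 : Ent := ⟨e1848, noF, [], [], []⟩

def c1848 : PLift (Cov.check n1848.C.D v1848 = true) := ⟨by decide +kernel⟩

def b1848 : PLift (entF (fidx ts) 400 1848 n1848 = true) := ⟨by decide +kernel⟩

theorem g1848 : GoodF (fidx ts) 400 1848 := GoodF.ofV v1848 n1848 c1848.down b1848.down

/-- 4846584:1587/3 -/
noncomputable def e1849 : SCfg where
  D := {
    a := 7
    L := 10
    kp := 7
    inn := [(0, 1), (0, 3), (0, 4), (0, 5), (1, 0), (1, 2), (1, 3), (1, 4), (2, 1), (3, 0), (3, 1), (3,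
      5), (4, 0), (4, 1), (4, 5), (5, 0), (5, 3), (5, 4), (5, 6), (6, 5)]
    mix := [(1, 0), (1, 1), (1, 2), (1, 3), (2, 0), (2, 1), (2, 4), (3, 0), (3, 5), (3, 6), (4, 3), (4,
      7), (5, 5), (5, 7), (5, 8), (5, 9), (6, 2), (6, 8), (6, 9)]
    cl := [0, 2, 0, 1, 7, 4, 6, 3, 5, 3]
    chq := [(1, 4), (1, 6), (4, 1), (6, 1)]
    rng := [(0, 4), (0, 6), (1, 2), (1, 4), (2, 1), (2, 3), (2, 8), (2, 9), (3, 2), (3, 7), (4, 0), (4,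
      1), (5, 6), (5, 9), (6, 0), (6, 5), (7, 3), (7, 8), (8, 2), (8, 7), (9, 2), (9, 5)]
    lev := [] }
  links := [[1, 4, 5, 3], [4, 0, 3, 7, 2, 8, 9, 10], [8, 1, 7, 11], [7, 1, 0, 5, 12, 13], [5, 0, 1, 10,
    14], [12, 3, 0, 4, 14, 15, 6, 16], [16, 5, 15, 9]]
  P := {
    a := 7
    N := 17
    nb := [58, 1949, 2434, 12451, 17443, 118873, 98848, 10254, 2566, 99650, 16914, 388, 73768, 4232,
      33840, 16992, 4704]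
    tri := [(0, 1, 3), (0, 1, 4), (0, 3, 5), (0, 4, 5), (1, 2, 7), (1, 2, 8), (1, 3, 7), (1, 4, 10),
      (1, 8, 9), (1, 9, 10), (2, 7, 11), (2, 8, 11), (3, 5, 12), (3, 7, 13), (3, 12, 13), (4, 5,
      14), (4, 10, 14), (5, 6, 15), (5, 6, 16), (5, 12, 16), (5, 14, 15), (6, 9, 15), (6, 9, 16)]
    fin := [0, 1, 1, 0, 0, 5, 1, 1, 8, 1, 0, 11, 12, 13, 5, 15, 5]
    chd := [(0, 12), (0, 13)]
    steps := [(0, 3), (0, 4), (0, 10), (1, 2), (1, 7), (1, 9), (1, 6), (5, 14), (5, 16)] }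
  rep := [1, 0, 8, 5, 12, 15, 13, 11]

noncomputable def v1849 : Cov.CovD where
  P := 3
  N := 5
  pl := [1, 4, 8]
  lev := [⟨[], [], [], [], []⟩,
    ⟨[], [(0, 0), (0, 1)], [(0, 0), (0, 1)], [2], [(0, 0, []), (2, 0, []), (3, 1, [4, 6])]⟩,
    ⟨[(0, 1)], [(1, 0), (1, 1)], [], [2, 7], [(0, 0, [])]⟩,
    ⟨[(0, 1), (1, 2)], [(0, 0), (0, 4), (0, 6), (1, 0), (1, 1), (1, 4), (1, 6), (2, 0)],
      [(0, 4), (0, 6), (4, 6)], [], [(0, 0, []), (5, 4, [1]), (6, 6, [1])]⟩,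
    ⟨[(0, 1), (0, 3), (1, 2), (1, 3)], [(0, 1), (0, 3), (1, 0), (1, 1), (1, 3)], [(1, 3)],
      [], [(3, 1, [4, 6]), (7, 3, [])]⟩,
    ⟨[(0, 1), (0, 3), (0, 4), (1, 3), (1, 4), (3, 4)], [(0, 3), (0, 4), (3, 0), (3, 3), (3,
      4), (3, 6), (4, 1), (4, 3), (4, 4)], [(3, 3), (3, 4)], [5], [(5, 4, [1]), (7, 3, []),
      (9, 3, [])]⟩,
    ⟨[(0, 5), (3, 5), (4, 5)], [(1, 0), (5, 0), (5, 3), (5, 4)], [(0, 3)], [5], [(2, 0,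
      []), (9, 3, [])]⟩]
  Ta := [((0, 4), 0, 7), ((0, 6), 0, 6), ((2, 1), 0, 2), ((2, 3), 0, 1), ((2, 8), 0, 5), ((2, 9),
    0, 3), ((7, 3), 3, 1), ((7, 8), 3, 5), ((9, 2), 3, 0), ((9, 5), 3, 4)]
  Tb := [((0, 4, 6), 0, 7, 6), ((1, 2, 4), 2, 0, 7), ((2, 1, 3), 0, 2, 1), ((2, 1, 8), 0, 2, 5),
    ((2, 1, 9), 0, 2, 3), ((2, 3, 8), 0, 1, 5), ((2, 3, 9), 0, 1, 3), ((2, 8, 9), 0, 5, 3),
    ((3, 2, 7), 1, 0, 3), ((4, 0, 1), 7, 0, 2), ((5, 6, 9), 4, 6, 3), ((6, 0, 5), 6, 0, 4),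
    ((7, 3, 8), 3, 1, 5), ((8, 2, 7), 5, 0, 3), ((9, 2, 5), 3, 0, 4)]
  Tc := [(1, 4, 6)]
  Td := [((1, 4), (3, 2), 0), ((1, 4), (3, 7), 3), ((1, 6), (3, 2), 0), ((1, 6), (3, 7), 3), ((4,
    1), (5, 6), 6), ((4, 1), (5, 9), 3), ((6, 1), (6, 0), 0), ((6, 1), (6, 5), 4)]
  G := [[0, 0, 0, 0x121811af16221811af16c84, 0x2211116f161211116f16a84], [0, 0, 0,
    0x124111ef46121111ef4ac81, 0x221111ef46224111ef46a81], [0, 0xc1a16c1c1a6161ce141,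
    0x22122164cd1e22164caf1ac48, 0x4242218ac6f1e184, 0x2212218a86f1e184], [0,
    0xe12e12e12e148, 0xe112282212218e9445e22422484c1e689, 0x2242248acef445e181,
    0x2244416182218ceb1a18c]]

noncomputable def n1849 : Ent := ⟨e1849, noF, [], [], []⟩

def c1849 : PLift (Cov.check n1849.C.D v1849 = true) := ⟨by decide +kernel⟩

def b1849 : PLift (entF (fidx ts) 400 1849 n1849 = true) := ⟨by decide +kernel⟩

theorem g1849 : GoodF (fidx ts) 400 1849 := GoodF.ofV v1849 n1849 c1849.down b1849.down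

/-- 4846584:1587 -/
noncomputable def e1850 : SCfg where
  D := {
    a := 7
    L := 11
    kp := 8
    inn := [(0, 1), (0, 3), (0, 4), (0, 5), (1, 0), (1, 2), (1, 3), (1, 4), (2, 1), (3, 0), (3, 1), (3,
      5), (4, 0), (4, 1), (4, 5), (5, 0), (5, 3), (5, 4), (5, 6), (6, 5)]
    mix := [(1, 0), (1, 1), (1, 2), (1, 3), (2, 0), (2, 1), (2, 4), (3, 0), (3, 5), (3, 6), (4, 3), (4,
      7), (5, 5), (5, 7), (5, 8), (5, 9), (6, 8), (6, 9), (6, 10)]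
    cl := [0, 2, 0, 1, 8, 3, 6, 3, 4, 5, 7]
    chq := [(1, 6), (3, 7), (6, 1), (7, 3)]
    rng := [(0, 4), (0, 6), (1, 2), (1, 4), (2, 1), (2, 3), (3, 2), (3, 7), (4, 0), (4, 1), (5, 6), (5,
      9), (6, 0), (6, 5), (7, 3), (7, 8), (8, 7), (8, 10), (9, 5), (9, 10), (10, 8), (10, 9)]
    lev := [] }
  links := [[1, 4, 5, 3], [4, 0, 3, 7, 2, 8, 9, 10], [8, 1, 7, 11], [7, 1, 0, 5, 12, 13], [5, 0, 1, 10,
    14], [12, 3, 0, 4, 14, 15, 6, 16], [16, 5, 15, 17]]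
  P := {
    a := 7
    N := 18
    nb := [58, 1949, 2434, 12451, 17443, 118873, 229408, 10254, 2566, 1282, 16914, 388, 73768, 4232,
      33840, 147552, 135264, 98368]
    tri := [(0, 1, 3), (0, 1, 4), (0, 3, 5), (0, 4, 5), (1, 2, 7), (1, 2, 8), (1, 3, 7), (1, 4, 10),
      (1, 8, 9), (1, 9, 10), (2, 7, 11), (2, 8, 11), (3, 5, 12), (3, 7, 13), (3, 12, 13), (4, 5,
      14), (4, 10, 14), (5, 6, 15), (5, 6, 16), (5, 12, 16), (5, 14, 15), (6, 15, 17), (6, 16,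
      17)]
    fin := [0, 1, 1, 0, 0, 5, 5, 1, 8, 1, 0, 11, 5, 13, 5, 15, 16, 17]
    chd := [(0, 13), (5, 17)]
    steps := [(0, 3), (0, 4), (0, 10), (1, 2), (1, 7), (1, 9), (5, 6), (5, 14), (5, 12)] }
  rep := [1, 0, 8, 5, 15, 16, 13, 17, 11]

noncomputable def v1850 : Cov.CovD where
  P := 3
  N := 6
  pl := [1, 4, 8, 9]
  lev := [⟨[], [], [], [], []⟩,
    ⟨[], [(0, 0), (0, 1)], [(0, 0), (0, 1)], [2], [(0, 0, []), (2, 0, []), (3, 1, [6])]⟩,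
    ⟨[(0, 1)], [(1, 0), (1, 1)], [], [2, 8], [(0, 0, [])]⟩,
    ⟨[(0, 1), (1, 2)], [(0, 0), (0, 3), (0, 6), (1, 0), (1, 1), (1, 3), (1, 6), (2, 0)],
      [(0, 3), (0, 6), (3, 6)], [], [(0, 0, []), (5, 3, [7]), (6, 6, [1])]⟩,
    ⟨[(0, 1), (0, 3), (1, 2), (1, 3)], [(0, 1), (0, 3), (1, 0), (1, 1), (1, 3)], [(1, 3)],
      [], [(3, 1, [6]), (7, 3, [7])]⟩,
    ⟨[(0, 1), (0, 3), (0, 4), (1, 3), (1, 4), (3, 4)], [(0, 3), (3, 0), (3, 3), (3, 6), (4,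
      1), (4, 3)], [(3, 3)], [4, 5], [(5, 3, [7]), (7, 3, [7])]⟩,
    ⟨[(0, 5), (3, 5), (4, 5)], [(5, 3), (5, 7)], [], [4, 5], [(10, 7, [3])]⟩]
  Ta := [((0, 4), 0, 8), ((0, 6), 0, 6), ((2, 1), 0, 2), ((2, 3), 0, 1), ((5, 6), 3, 6), ((5, 9),
    3, 5), ((7, 3), 3, 1), ((7, 8), 3, 4)]
  Tb := [((0, 4, 6), 0, 8, 6), ((1, 2, 4), 2, 0, 8), ((2, 1, 3), 0, 2, 1), ((3, 2, 7), 1, 0, 3),
    ((4, 0, 1), 8, 0, 2), ((5, 6, 9), 3, 6, 5), ((6, 0, 5), 6, 0, 3), ((7, 3, 8), 3, 1, 4),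
    ((8, 7, 10), 4, 3, 7), ((9, 5, 10), 5, 3, 7), ((10, 8, 9), 7, 4, 5)]
  Tc := []
  Td := [((1, 6), (3, 2), 0), ((1, 6), (3, 7), 3), ((3, 7), (5, 6), 6), ((3, 7), (5, 9), 5), ((3,
    7), (7, 3), 1), ((3, 7), (7, 8), 4), ((6, 1), (6, 0), 0), ((6, 1), (6, 5), 3), ((7, 3),
    (10, 8), 4), ((7, 3), (10, 9), 5)]
  G := [[0, 0, 0, 0x92444d219217fdef1ed217fdef1acc8, 0xfbdef12521d21fbdef1ea521d28c8a4], [0, 0,
    0, 0x743dda9fbdef464983df657fdef8a8c1, 0x2e91288d2d5a57bde4612f25445bbdefd8d6a85], [0,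
    0xc268a1f12f18a94e4816ece81b184d46, 0xf211d217f9cf1ac4d24fb5ef46289, 0xd219217fdef1e148,
    0x521d21fbdef1e184], [0, 0xf126cfb8a146ace2a48a145,
    0xfc38944644f61725e8a9cab834356dcfc9aac1, 0x92df697fdef81ca141, 0x3c3d2974b1ab5f8ed6181]]

noncomputable def n1850 : Ent := ⟨e1850, noF, [], [], [(11, 17, [6903326391201334775872065844685381424292761054348340378595029937254401, 0]), (8, 17, [6903326391201334775872065844685381424292761054348340378595029937258497, 0]), (9, 17, [6903326391201334775872065844685381424292761054348340378595029937262593, 0])]⟩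

def c1850 : PLift (Cov.check n1850.C.D v1850 = true) := ⟨by decide +kernel⟩

def b1850 : PLift (entF (fidx ts) 400 1850 n1850 = true) := ⟨by decide +kernel⟩

theorem g1850 : GoodF (fidx ts) 400 1850 := GoodF.ofV v1850 n1850 c1850.down b1850.down

/-- 4846744:1589/2 -/
noncomputable def e1851 : SCfg where
  D := {
    a := 7
    L := 9
    kp := 6
    inn := [(0, 1), (0, 3), (0, 4), (1, 0), (1, 2), (1, 3), (1, 5), (2, 1), (3, 0), (3, 1), (3, 4), (4,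
      0), (4, 3), (4, 6), (5, 1), (6, 4)]
    mix := [(0, 0), (1, 0), (1, 1), (1, 2), (1, 3), (2, 1), (2, 2), (2, 4), (3, 1), (3, 5), (3, 6), (4,
      0), (4, 5), (4, 7), (4, 8), (5, 0), (5, 3), (5, 7), (6, 4), (6, 7), (6, 8)]
    cl := [0, 0, 3, 4, 2, 1, 6, 1, 5]
    chq := [(0, 3), (1, 3), (3, 0), (3, 1)]
    rng := [(0, 7), (1, 4), (1, 6), (2, 3), (2, 4), (3, 2), (3, 7), (4, 1), (4, 2), (4, 7), (4, 8), (5,
      6), (5, 8), (6, 1), (6, 5), (7, 0), (7, 3), (7, 4), (8, 4), (8, 5)]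
    lev := [] }
  links := [[1, 7, 4, 3], [7, 0, 3, 8, 2, 9, 10, 5], [9, 1, 8, 11], [8, 1, 0, 4, 12, 13], [12, 3, 0, 7,
    14, 6, 15], [7, 1, 10, 14], [15, 4, 14, 11]]
  P := {
    a := 7
    N := 16
    nb := [154, 1965, 2818, 12563, 53449, 17538, 51216, 16435, 10254, 3078, 16930, 49988, 40984, 4360,
      3312, 6224]
    tri := [(0, 1, 3), (0, 1, 7), (0, 3, 4), (0, 4, 7), (1, 2, 8), (1, 2, 9), (1, 3, 8), (1, 5, 7), (1,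
      5, 10), (1, 9, 10), (2, 8, 11), (2, 9, 11), (3, 4, 12), (3, 8, 13), (3, 12, 13), (4, 6, 14),
      (4, 6, 15), (4, 7, 14), (4, 12, 15), (5, 7, 14), (5, 10, 14), (6, 11, 14), (6, 11, 15)]
    fin := [0, 1, 0, 0, 1, 1, 1, 0, 0, 9, 10, 11, 1, 13, 1, 15]
    chd := [(0, 9), (9, 1)]
    steps := [(0, 3), (0, 7), (0, 8), (0, 2), (1, 5), (1, 14), (1, 4), (1, 6), (1, 12)] }
  rep := [0, 1, 11, 9, 10, 15, 13]

noncomputable def v1851 : Cov.CovD where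
  P := 3
  N := 4
  pl := [3, 4, 6, 8]
  lev := [⟨[], [], [], [], [(0, 0, [3])]⟩,
    ⟨[], [(0, 0), (0, 3)], [(0, 0), (0, 3)], [4], [(0, 0, [3]), (1, 0, [3]), (2, 3, [0,
      1])]⟩,
    ⟨[(0, 1)], [(1, 0), (1, 3)], [(0, 3)], [2], [(1, 0, [3]), (2, 3, [0, 1])]⟩,
    ⟨[(0, 1), (1, 2)], [(0, 0), (0, 1), (1, 0), (1, 1), (1, 3), (2, 0)], [(0, 1)], [6],
      [(1, 0, [3]), (5, 1, [3])]⟩,
    ⟨[(0, 1), (0, 3), (1, 3)], [(0, 0), (0, 1), (1, 0), (3, 0), (3, 1)], [(0, 1), (1, 1)],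
      [5], [(0, 0, [3]), (5, 1, [3]), (7, 1, [3])]⟩,
    ⟨[(0, 1), (1, 2), (1, 3)], [(0, 0), (1, 0), (1, 1), (1, 3), (4, 0), (4, 1)], [(0, 1)],
      [4], [(0, 0, [3]), (7, 1, [3])]⟩,
    ⟨[(0, 4), (3, 4)], [(4, 0), (4, 1), (5, 1)], [], [2, 5], [(7, 1, [3])]⟩]
  Ta := [((0, 7), 0, 1), ((1, 4), 0, 2), ((1, 6), 0, 6), ((5, 6), 1, 6), ((5, 8), 1, 5), ((7, 0),
    1, 0), ((7, 3), 1, 4), ((7, 4), 1, 2)]
  Tb := [((1, 4, 6), 0, 2, 6), ((2, 3, 4), 3, 4, 2), ((3, 2, 7), 4, 3, 1), ((4, 1, 2), 2, 0, 3),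
    ((4, 1, 7), 2, 0, 1), ((4, 1, 8), 2, 0, 5), ((4, 2, 7), 2, 3, 1), ((4, 2, 8), 2, 3, 5),
    ((4, 7, 8), 2, 1, 5), ((5, 6, 8), 1, 6, 5), ((6, 1, 5), 6, 0, 1), ((7, 0, 3), 1, 0, 4),
    ((7, 0, 4), 1, 0, 2), ((7, 3, 4), 1, 4, 2), ((8, 4, 5), 5, 2, 1)]
  Tc := [(3, 0, 1)]
  Td := [((0, 3), (0, 7), 1), ((0, 3), (1, 4), 2), ((0, 3), (1, 6), 6), ((1, 3), (5, 6), 6), ((1,
    3), (5, 8), 5), ((1, 3), (7, 0), 0), ((1, 3), (7, 3), 4), ((1, 3), (7, 4), 2), ((3, 0),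
    (2, 3), 4), ((3, 0), (2, 4), 2), ((3, 1), (2, 3), 4), ((3, 1), (2, 4), 2)]
  G := [[0, 0, 0, 0, 0x28c22cc188c21cc1a24], [0, 0x4484644846a14282642c2ac168848a8848c618a, 0,
    0x11c44cc111c44cc1c28, 0x1899cc1228818c128414c12ca], [0, 0, 0xa6c14c2c16ac1c66c18e24, 0,
    0x212428d22922c9c229a15c88c22c9ca24], [0, 0, 0xc4122ccc1ccc1c268848c2289,
    0x119445c8494cc9c11544cc889115ccc22, 0x8818c228414c221899cc8819ccc2e1]]

noncomputable def n1851 : Ent := ⟨e1851, noF, [], [], []⟩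

def c1851 : PLift (Cov.check n1851.C.D v1851 = true) := ⟨by decide +kernel⟩

def b1851 : PLift (entF (fidx ts) 400 1851 n1851 = true) := ⟨by decide +kernel⟩

theorem g1851 : GoodF (fidx ts) 400 1851 := GoodF.ofV v1851 n1851 c1851.down b1851.down

/-- 4846744:1589/3 -/
noncomputable def e1852 : SCfg where
  D := {
    a := 7
    L := 9
    kp := 6
    inn := [(0, 1), (0, 3), (0, 4), (1, 0), (1, 2), (1, 3), (1, 5), (2, 1), (3, 0), (3, 1), (3, 4), (4,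
      0), (4, 3), (4, 6), (5, 1), (6, 4)]
    mix := [(0, 0), (1, 0), (1, 1), (1, 2), (1, 3), (2, 1), (2, 2), (2, 4), (3, 1), (3, 5), (3, 6), (4,
      0), (4, 5), (4, 7), (4, 8), (5, 0), (5, 3), (5, 7), (6, 3), (6, 7), (6, 8)]
    cl := [0, 1, 2, 1, 5, 0, 6, 3, 4]
    chq := [(0, 1), (1, 0), (3, 4), (4, 3)]
    rng := [(0, 7), (1, 4), (1, 6), (2, 3), (2, 4), (3, 2), (3, 7), (3, 8), (4, 1), (4, 2), (5, 6), (5,
      8), (6, 1), (6, 5), (7, 0), (7, 3), (8, 3), (8, 5)]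
    lev := [] }
  links := [[1, 7, 4, 3], [7, 0, 3, 8, 2, 9, 10, 5], [9, 1, 8, 11], [8, 1, 0, 4, 12, 13], [12, 3, 0, 7,
    14, 6, 15], [7, 1, 10, 14], [15, 4, 14, 10]]
  P := {
    a := 7
    N := 16
    nb := [154, 1965, 2818, 12563, 53449, 17538, 50192, 16435, 10254, 3078, 49762, 772, 40984, 4360,
      1264, 5200]
    tri := [(0, 1, 3), (0, 1, 7), (0, 3, 4), (0, 4, 7), (1, 2, 8), (1, 2, 9), (1, 3, 8), (1, 5, 7), (1,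
      5, 10), (1, 9, 10), (2, 8, 11), (2, 9, 11), (3, 4, 12), (3, 8, 13), (3, 12, 13), (4, 6, 14),
      (4, 6, 15), (4, 7, 14), (4, 12, 15), (5, 7, 14), (5, 10, 14), (6, 10, 14), (6, 10, 15)]
    fin := [0, 1, 1, 0, 0, 0, 6, 0, 1, 9, 1, 11, 0, 13, 6, 15]
    chd := [(0, 1), (6, 15)]
    steps := [(0, 3), (0, 4), (0, 7), (0, 5), (0, 12), (1, 2), (1, 10), (1, 8), (6, 14)] }
  rep := [0, 1, 9, 6, 15, 11, 13]

noncomputable def v1852 : Cov.CovD where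
  P := 3
  N := 4
  pl := [2, 4, 6]
  lev := [⟨[], [], [], [], [(0, 0, [1])]⟩,
    ⟨[], [(0, 0), (0, 1)], [(0, 1), (1, 1)], [2], [(0, 0, [1]), (1, 1, [0]), (3, 1, [0])]⟩,
    ⟨[(0, 1)], [(1, 0), (1, 1)], [], [2, 5], [(1, 1, [0])]⟩,
    ⟨[(0, 1), (1, 2)], [(0, 0), (0, 1), (1, 0), (1, 1), (2, 1)], [(0, 1)], [6], [(1, 1,
      [0]), (5, 0, [1])]⟩,
    ⟨[(0, 1), (0, 3), (1, 3)], [(0, 0), (0, 3), (0, 4), (1, 0), (3, 0), (3, 1), (3, 3), (3,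
      4)], [(0, 0), (0, 3), (0, 4), (3, 4)], [], [(0, 0, [1]), (5, 0, [1]), (7, 3, [4]), (8,
      4, [3])]⟩,
    ⟨[(0, 1), (1, 2), (1, 3)], [(0, 0), (1, 0), (1, 1), (1, 3), (4, 0), (4, 3)], [(0, 1),
      (0, 3), (1, 3)], [], [(0, 0, [1]), (3, 1, [0]), (7, 3, [4])]⟩,
    ⟨[(0, 4), (3, 4)], [(1, 1), (4, 0), (4, 1), (4, 3), (4, 4), (5, 1), (5, 3)], [(1, 3),
      (1, 4), (3, 4)], [], [(3, 1, [0]), (7, 3, [4]), (8, 4, [3])]⟩]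
  Ta := [((0, 7), 0, 3), ((1, 4), 1, 5), ((1, 6), 1, 6), ((3, 2), 1, 2), ((3, 7), 1, 3), ((3, 8),
    1, 4), ((5, 6), 0, 6), ((5, 8), 0, 4)]
  Tb := [((1, 4, 6), 1, 5, 6), ((2, 3, 4), 2, 1, 5), ((3, 2, 7), 1, 2, 3), ((3, 2, 8), 1, 2, 4),
    ((3, 7, 8), 1, 3, 4), ((4, 1, 2), 5, 1, 2), ((5, 6, 8), 0, 6, 4), ((6, 1, 5), 6, 1, 0),
    ((7, 0, 3), 3, 0, 1), ((8, 3, 5), 4, 1, 0)]
  Tc := []
  Td := [((0, 1), (0, 7), 3), ((0, 1), (5, 6), 6), ((0, 1), (5, 8), 4), ((1, 0), (1, 4), 5), ((1,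
    0), (1, 6), 6), ((1, 0), (3, 2), 2), ((1, 0), (3, 7), 3), ((1, 0), (3, 8), 4), ((3, 4),
    (7, 0), 0), ((3, 4), (7, 3), 1), ((4, 3), (8, 3), 1), ((4, 3), (8, 5), 0)]
  G := [[0, 0x1448812a881412ee184, 0xd2214d2218c4, 0, 0xd221c1621982], [0,
    0x184422e2221814ce141, 0x881451ce1284, 0xd4211dc211821d82, 0x881415ce1284], [0,
    0x181422e881412e6181, 0xd1244d22d12cd128cc2, 0, 0xd22d12c1d224962c892], [0,
    0x184412e1228814ce142, 0x8114c28814c2512512ce84, 0xd12d12c8192912444e948,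
    0x41916811151ec21888292]]

noncomputable def n1852 : Ent := ⟨e1852, noF, [], [], []⟩

def c1852 : PLift (Cov.check n1852.C.D v1852 = true) := ⟨by decide +kernel⟩

def b1852 : PLift (entF (fidx ts) 400 1852 n1852 = true) := ⟨by decide +kernel⟩

theorem g1852 : GoodF (fidx ts) 400 1852 := GoodF.ofV v1852 n1852 c1852.down b1852.down

/-- 4846744:1589/1 -/
noncomputable def e1853 : SCfg where
  D := {
    a := 7
    L := 10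
    kp := 7
    inn := [(0, 1), (0, 3), (0, 4), (1, 0), (1, 2), (1, 3), (1, 5), (2, 1), (3, 0), (3, 1), (3, 4), (4,
      0), (4, 3), (4, 6), (5, 1), (6, 4)]
    mix := [(0, 0), (1, 0), (1, 1), (1, 2), (1, 3), (2, 1), (2, 2), (2, 4), (3, 1), (3, 5), (3, 6), (4,
      0), (4, 5), (4, 7), (4, 8), (5, 0), (5, 3), (5, 7), (6, 7), (6, 8), (6, 9)]
    cl := [0, 0, 2, 3, 5, 1, 6, 1, 4, 7]
    chq := [(0, 2), (1, 2), (2, 0), (2, 1)]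
    rng := [(0, 7), (1, 4), (1, 6), (2, 3), (2, 4), (3, 2), (3, 7), (4, 1), (4, 2), (5, 6), (5, 8), (6,
      1), (6, 5), (7, 0), (7, 3), (7, 9), (8, 5), (8, 9), (9, 7), (9, 8)]
    lev := [] }
  links := [[1, 7, 4, 3], [7, 0, 3, 8, 2, 9, 10, 5], [9, 1, 8, 11], [8, 1, 0, 4, 12, 13], [12, 3, 0, 7,
    14, 6, 15], [7, 1, 10, 14], [15, 4, 14, 16]]
  P := {
    a := 7
    N := 17
    nb := [154, 1965, 2818, 12563, 53449, 17538, 114704, 16435, 10254, 3078, 16930, 772, 40984, 4360,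
      66800, 69712, 49216]
    tri := [(0, 1, 3), (0, 1, 7), (0, 3, 4), (0, 4, 7), (1, 2, 8), (1, 2, 9), (1, 3, 8), (1, 5, 7), (1,
      5, 10), (1, 9, 10), (2, 8, 11), (2, 9, 11), (3, 4, 12), (3, 8, 13), (3, 12, 13), (4, 6, 14),
      (4, 6, 15), (4, 7, 14), (4, 12, 15), (5, 7, 14), (5, 10, 14), (6, 14, 16), (6, 15, 16)]
    fin := [0, 1, 0, 0, 1, 1, 1, 0, 0, 9, 10, 11, 1, 13, 1, 15, 16]
    chd := [(0, 9), (9, 1)]
    steps := [(0, 3), (0, 7), (0, 8), (0, 2), (1, 5), (1, 14), (1, 4), (1, 6), (1, 12)] }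
  rep := [0, 1, 9, 10, 15, 11, 13, 16]

noncomputable def v1853 : Cov.CovD where
  P := 3
  N := 5
  pl := [3, 4, 6, 8, 9]
  lev := [⟨[], [], [], [], [(0, 0, [2])]⟩,
    ⟨[], [(0, 0), (0, 2)], [(0, 0), (0, 2)], [3], [(0, 0, [2]), (1, 0, [2]), (2, 2, [0,
      1])]⟩,
    ⟨[(0, 1)], [(1, 0), (1, 2)], [(0, 2)], [5], [(1, 0, [2]), (2, 2, [0, 1])]⟩,
    ⟨[(0, 1), (1, 2)], [(0, 0), (0, 1), (1, 0), (1, 1), (1, 2), (2, 0)], [(0, 1)], [6],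
      [(1, 0, [2]), (5, 1, [2])]⟩,
    ⟨[(0, 1), (0, 3), (1, 3)], [(0, 0), (0, 1), (1, 0), (3, 0), (3, 1)], [(0, 1), (1, 1)],
      [4], [(0, 0, [2]), (5, 1, [2]), (7, 1, [2])]⟩,
    ⟨[(0, 1), (1, 2), (1, 3)], [(0, 0), (1, 0), (1, 1), (1, 2), (4, 0), (4, 1)], [(0, 1)],
      [3], [(0, 0, [2]), (7, 1, [2])]⟩,
    ⟨[(0, 4), (3, 4)], [(4, 0), (4, 1), (5, 1)], [], [4, 7], [(7, 1, [2])]⟩]
  Ta := [((0, 7), 0, 1), ((1, 4), 0, 5), ((1, 6), 0, 6), ((5, 6), 1, 6), ((5, 8), 1, 4), ((7, 0),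
    1, 0), ((7, 3), 1, 3), ((7, 9), 1, 7)]
  Tb := [((1, 4, 6), 0, 5, 6), ((2, 3, 4), 2, 3, 5), ((3, 2, 7), 3, 2, 1), ((4, 1, 2), 5, 0, 2),
    ((5, 6, 8), 1, 6, 4), ((6, 1, 5), 6, 0, 1), ((7, 0, 3), 1, 0, 3), ((7, 0, 9), 1, 0, 7),
    ((7, 3, 9), 1, 3, 7), ((8, 5, 9), 4, 1, 7), ((9, 7, 8), 7, 1, 4)]
  Tc := [(2, 0, 1)]
  Td := [((0, 2), (0, 7), 1), ((0, 2), (1, 4), 5), ((0, 2), (1, 6), 6), ((1, 2), (5, 6), 6), ((1,
    2), (5, 8), 4), ((1, 2), (7, 0), 0), ((1, 2), (7, 3), 3), ((1, 2), (7, 9), 7), ((2, 0),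
    (2, 3), 3), ((2, 0), (2, 4), 5), ((2, 1), (2, 3), 3), ((2, 1), (2, 4), 5)]
  G := [[0, 0, 0x9121c1e121c1a24, 0x2828c122424c12c2, 0x32ca5cc2acb3ccc122], [0,
    0xc4a46a22c44e14622c868ac88e18c, 0x9158c149451c129151c18e2, 0x2828c122424c12c2,
    0x444211445cc145c41aa9818c2184819481aac], [0, 0, 0x6131c12151c1c22, 0x2424922421289228c,
    0x22c55cc99c22ccc72c25cc39ca2ccca21], [0, 0, 0x9151c189154c129151c14e2,
    0x2828c222424c22c1, 0x4dc4144cd484514445ca2d11144d2d81848d2a14849d444c9c148d18caac]]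

noncomputable def n1853 : Ent := ⟨e1853, noF, [], [], [(16, 11, [1580044410770990308032078191911707142368668054796088592099351703553, 0]), (16, 10, [1580044410770988437858045522355060435978463990222429564876671401985, 0])]⟩

def c1853 : PLift (Cov.check n1853.C.D v1853 = true) := ⟨by decide +kernel⟩

def b1853 : PLift (entF (fidx ts) 400 1853 n1853 = true) := ⟨by decide +kernel⟩

theorem g1853 : GoodF (fidx ts) 400 1853 := GoodF.ofV v1853 n1853 c1853.down b1853.down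

/-- 4846744:1589/4 -/
noncomputable def e1854 : SCfg where
  D := {
    a := 7
    L := 10
    kp := 7
    inn := [(0, 1), (0, 3), (0, 4), (1, 0), (1, 2), (1, 3), (1, 5), (2, 1), (3, 0), (3, 1), (3, 4), (4,
      0), (4, 3), (4, 6), (5, 1), (6, 4)]
    mix := [(0, 0), (1, 0), (1, 1), (1, 2), (1, 3), (2, 1), (2, 2), (2, 4), (3, 1), (3, 5), (3, 6), (4,
      0), (4, 5), (4, 7), (4, 8), (5, 0), (5, 3), (5, 9), (6, 4), (6, 7), (6, 8)]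
    cl := [0, 1, 0, 2, 4, 3, 6, 3, 5, 7]
    chq := [(0, 1), (0, 6), (1, 0), (6, 0)]
    rng := [(0, 7), (0, 9), (1, 4), (1, 6), (2, 3), (2, 4), (3, 2), (3, 9), (4, 1), (4, 2), (4, 7), (4,
      8), (5, 6), (5, 8), (6, 1), (6, 5), (7, 0), (7, 4), (8, 4), (8, 5), (9, 0), (9, 3)]
    lev := [] }
  links := [[1, 7, 4, 3], [7, 0, 3, 8, 2, 9, 10, 5], [9, 1, 8, 11], [8, 1, 0, 4, 12, 13], [12, 3, 0, 7,
    14, 6, 15], [7, 1, 10, 16], [15, 4, 14, 11]]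
  P := {
    a := 7
    N := 17
    nb := [154, 1965, 2818, 12563, 53449, 66690, 51216, 81971, 10254, 3078, 66082, 49988, 40984, 4360,
      2256, 6224, 1184]
    tri := [(0, 1, 3), (0, 1, 7), (0, 3, 4), (0, 4, 7), (1, 2, 8), (1, 2, 9), (1, 3, 8), (1, 5, 7), (1,
      5, 10), (1, 9, 10), (2, 8, 11), (2, 9, 11), (3, 4, 12), (3, 8, 13), (3, 12, 13), (4, 6, 14),
      (4, 6, 15), (4, 7, 14), (4, 12, 15), (5, 7, 16), (5, 10, 16), (6, 11, 14), (6, 11, 15)]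
    fin := [0, 0, 0, 0, 4, 0, 4, 0, 8, 0, 10, 11, 4, 13, 4, 15, 16]
    chd := [(0, 8), (0, 13)]
    steps := [(0, 1), (0, 2), (0, 3), (0, 5), (0, 7), (0, 9), (4, 6), (4, 14), (4, 12)] }
  rep := [0, 8, 10, 4, 11, 15, 13, 16]

noncomputable def v1854 : Cov.CovD where
  P := 3
  N := 5
  pl := [3, 4, 8, 9]
  lev := [⟨[], [], [], [], [(0, 0, [1, 6])]⟩,
    ⟨[], [(0, 0), (0, 1)], [(0, 0), (0, 1)], [2], [(0, 0, [1, 6]), (1, 1, [0]), (2, 0, [1,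
      6])]⟩,
    ⟨[(0, 1)], [(1, 0), (1, 1)], [(0, 1)], [4], [(1, 1, [0]), (2, 0, [1, 6])]⟩,
    ⟨[(0, 1), (1, 2)], [(0, 0), (0, 1), (0, 3), (0, 6), (1, 0), (1, 1), (1, 3), (1, 6), (2,
      1)], [(1, 3), (1, 6), (3, 6)], [], [(1, 1, [0]), (5, 3, []), (6, 6, [0])]⟩,
    ⟨[(0, 1), (0, 3), (1, 3)], [(0, 0), (0, 3), (1, 0), (3, 0), (3, 1), (3, 3), (3, 6)],
      [(0, 3), (3, 3)], [5], [(0, 0, [1, 6]), (5, 3, []), (7, 3, [])]⟩,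
    ⟨[(0, 1), (1, 2), (1, 3)], [(0, 0), (1, 0), (1, 1), (4, 0)], [], [2, 7], [(0, 0, [1,
      6])]⟩,
    ⟨[(0, 4), (3, 4)], [(4, 0), (4, 3)], [], [4, 5], [(7, 3, [])]⟩]
  Ta := [((0, 7), 0, 3), ((0, 9), 0, 7), ((2, 3), 0, 2), ((2, 4), 0, 4), ((5, 6), 3, 6), ((5, 8),
    3, 5), ((7, 0), 3, 0), ((7, 4), 3, 4)]
  Tb := [((0, 7, 9), 0, 3, 7), ((1, 4, 6), 1, 4, 6), ((2, 3, 4), 0, 2, 4), ((3, 2, 9), 2, 0, 7),
    ((4, 1, 2), 4, 1, 0), ((4, 1, 7), 4, 1, 3), ((4, 1, 8), 4, 1, 5), ((4, 2, 7), 4, 0, 3),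
    ((4, 2, 8), 4, 0, 5), ((4, 7, 8), 4, 3, 5), ((5, 6, 8), 3, 6, 5), ((6, 1, 5), 6, 1, 3),
    ((7, 0, 4), 3, 0, 4), ((8, 4, 5), 5, 4, 3), ((9, 0, 3), 7, 0, 2)]
  Tc := [(0, 1, 6)]
  Td := [((0, 1), (0, 7), 3), ((0, 1), (0, 9), 7), ((0, 1), (2, 3), 2), ((0, 1), (2, 4), 4), ((0,
    6), (0, 7), 3), ((0, 6), (0, 9), 7), ((0, 6), (2, 3), 2), ((0, 6), (2, 4), 4), ((1, 0),
    (1, 4), 4), ((1, 0), (1, 6), 6), ((6, 0), (6, 1), 1), ((6, 0), (6, 5), 3)]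
  G := [[0, 0x219111e1612121e1c84, 0, 0x65c19c91ce1142, 0x66a91a19ae1182], [0,
    0x813111e1314111e1c82, 0, 0xddc11c77ce1184, 0xdda11a77ae1184], [0, 0x111191e1614141e1a48,
    0x21a91618ae153a11a11ae1c48, 0x21a121e1612111e1c48, 0x1191c1e1612111e1c84], [0,
    0x811151e1511121e1a84, 0x886136216e18833a44a11ae1446, 0x114121e144813111e188a,
    0x41316148811121e11181c8c]]

noncomputable def n1854 : Ent := ⟨e1854, noF, [], [], [(14, 16, [1580044410770988437309982408355971841652082177953823432505696694273, 0])]⟩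

def c1854 : PLift (Cov.check n1854.C.D v1854 = true) := ⟨by decide +kernel⟩

def b1854 : PLift (entF (fidx ts) 400 1854 n1854 = true) := ⟨by decide +kernel⟩

theorem g1854 : GoodF (fidx ts) 400 1854 := GoodF.ofV v1854 n1854 c1854.down b1854.down

/-- 4846744:1589/5 -/
noncomputable def e1855 : SCfg where
  D := {
    a := 7
    L := 10
    kp := 7
    inn := [(0, 1), (0, 3), (0, 4), (1, 0), (1, 2), (1, 3), (1, 5), (2, 1), (3, 0), (3, 1), (3, 4), (4,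
      0), (4, 3), (4, 6), (5, 1), (6, 4)]
    mix := [(0, 0), (1, 0), (1, 1), (1, 2), (1, 3), (2, 1), (2, 2), (2, 4), (3, 1), (3, 5), (3, 6), (4,
      0), (4, 5), (4, 7), (4, 8), (5, 0), (5, 3), (5, 9), (6, 3), (6, 7), (6, 8)]
    cl := [0, 1, 2, 1, 5, 0, 6, 3, 4, 7]
    chq := [(0, 1), (1, 0), (3, 4), (4, 3)]
    rng := [(0, 7), (0, 9), (1, 4), (1, 6), (2, 3), (2, 4), (3, 2), (3, 7), (3, 8), (3, 9), (4, 1), (4,
      2), (5, 6), (5, 8), (6, 1), (6, 5), (7, 0), (7, 3), (8, 3), (8, 5), (9, 0), (9, 3)]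
    lev := [] }
  links := [[1, 7, 4, 3], [7, 0, 3, 8, 2, 9, 10, 5], [9, 1, 8, 11], [8, 1, 0, 4, 12, 13], [12, 3, 0, 7,
    14, 6, 15], [7, 1, 10, 16], [15, 4, 14, 10]]
  P := {
    a := 7
    N := 17
    nb := [154, 1965, 2818, 12563, 53449, 66690, 50192, 81971, 10254, 3078, 115298, 772, 40984, 4360,
      1232, 5200, 1184]
    tri := [(0, 1, 3), (0, 1, 7), (0, 3, 4), (0, 4, 7), (1, 2, 8), (1, 2, 9), (1, 3, 8), (1, 5, 7), (1,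
      5, 10), (1, 9, 10), (2, 8, 11), (2, 9, 11), (3, 4, 12), (3, 8, 13), (3, 12, 13), (4, 6, 14),
      (4, 6, 15), (4, 7, 14), (4, 12, 15), (5, 7, 16), (5, 10, 16), (6, 10, 14), (6, 10, 15)]
    fin := [0, 1, 1, 0, 0, 0, 6, 0, 1, 9, 1, 11, 0, 13, 6, 15, 16]
    chd := [(0, 1), (6, 15)]
    steps := [(0, 3), (0, 4), (0, 7), (0, 5), (0, 12), (1, 2), (1, 10), (1, 8), (6, 14)] }
  rep := [0, 1, 9, 6, 15, 11, 13, 16]

noncomputable def v1855 : Cov.CovD where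
  P := 3
  N := 5
  pl := [2, 4, 6, 9]
  lev := [⟨[], [], [], [], [(0, 0, [1])]⟩,
    ⟨[], [(0, 0), (0, 1)], [(0, 1), (1, 1)], [2], [(0, 0, [1]), (1, 1, [0]), (3, 1, [0])]⟩,
    ⟨[(0, 1)], [(1, 0), (1, 1)], [], [2, 5], [(1, 1, [0])]⟩,
    ⟨[(0, 1), (1, 2)], [(0, 0), (0, 1), (1, 0), (1, 1), (2, 1)], [(0, 1)], [6], [(1, 1,
      [0]), (5, 0, [1])]⟩,
    ⟨[(0, 1), (0, 3), (1, 3)], [(0, 0), (0, 3), (0, 4), (1, 0), (3, 0), (3, 1), (3, 3), (3,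
      4)], [(0, 0), (0, 3), (0, 4), (3, 4)], [], [(0, 0, [1]), (5, 0, [1]), (7, 3, [4]), (8,
      4, [3])]⟩,
    ⟨[(0, 1), (1, 2), (1, 3)], [(0, 0), (1, 0), (1, 1), (4, 0)], [(0, 1)], [7], [(0, 0,
      [1]), (3, 1, [0])]⟩,
    ⟨[(0, 4), (3, 4)], [(1, 1), (4, 0), (4, 1), (4, 3), (4, 4), (5, 1)], [(1, 3), (1, 4),
      (3, 4)], [], [(3, 1, [0]), (7, 3, [4]), (8, 4, [3])]⟩]
  Ta := [((0, 7), 0, 3), ((0, 9), 0, 7), ((1, 4), 1, 5), ((1, 6), 1, 6), ((3, 2), 1, 2), ((3, 7),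
    1, 3), ((3, 8), 1, 4), ((3, 9), 1, 7), ((5, 6), 0, 6), ((5, 8), 0, 4)]
  Tb := [((0, 7, 9), 0, 3, 7), ((1, 4, 6), 1, 5, 6), ((2, 3, 4), 2, 1, 5), ((3, 2, 7), 1, 2, 3),
    ((3, 2, 8), 1, 2, 4), ((3, 2, 9), 1, 2, 7), ((3, 7, 8), 1, 3, 4), ((3, 7, 9), 1, 3, 7),
    ((3, 8, 9), 1, 4, 7), ((4, 1, 2), 5, 1, 2), ((5, 6, 8), 0, 6, 4), ((6, 1, 5), 6, 1, 0),
    ((7, 0, 3), 3, 0, 1), ((8, 3, 5), 4, 1, 0), ((9, 0, 3), 7, 0, 1)]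
  Tc := []
  Td := [((0, 1), (0, 7), 3), ((0, 1), (0, 9), 7), ((0, 1), (5, 6), 6), ((0, 1), (5, 8), 4), ((1,
    0), (1, 4), 5), ((1, 0), (1, 6), 6), ((1, 0), (3, 2), 2), ((1, 0), (3, 7), 3), ((1, 0),
    (3, 8), 4), ((1, 0), (3, 9), 7), ((3, 4), (7, 0), 0), ((3, 4), (7, 3), 1), ((4, 3), (8,
    3), 1), ((4, 3), (8, 5), 0)]
  G := [[0, 0x11c11622ae11a116116e6181, 0xd221d221c84, 0, 0xd221d221984], [0,
    0x116126688a881611a116ee184, 0x88c11c55ce1284, 0xddc21ddc21948, 0x88c11c55ce1284], [0,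
    0x11622688a28a18c11a14ee184, 0xd22d22c4d22d22c8c1, 0, 0xd22d22c1d22d22c894], [0,
    0x11624688c18a88c11612ee184, 0x414811151ec21191a82c2, 0xd12d12cd12d12c582,
    0x4142188111c2512512c8182b8c]]

noncomputable def n1855 : Ent := ⟨e1855, noF, [], [], [(14, 16, [1580044410770988437309982408355971841652082177953823432505696698369, 0])]⟩

def c1855 : PLift (Cov.check n1855.C.D v1855 = true) := ⟨by decide +kernel⟩

def b1855 : PLift (entF (fidx ts) 400 1855 n1855 = true) := ⟨by decide +kernel⟩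

theorem g1855 : GoodF (fidx ts) 400 1855 := GoodF.ofV v1855 n1855 c1855.down b1855.down

/-- 4846744:1589 -/
noncomputable def e1856 : SCfg where
  D := {
    a := 7
    L := 11
    kp := 8
    inn := [(0, 1), (0, 3), (0, 4), (1, 0), (1, 2), (1, 3), (1, 5), (2, 1), (3, 0), (3, 1), (3, 4), (4,
      0), (4, 3), (4, 6), (5, 1), (6, 4)]
    mix := [(0, 0), (1, 0), (1, 1), (1, 2), (1, 3), (2, 1), (2, 2), (2, 4), (3, 1), (3, 5), (3, 6), (4,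
      0), (4, 5), (4, 7), (4, 8), (5, 0), (5, 3), (5, 9), (6, 7), (6, 8), (6, 10)]
    cl := [0, 1, 0, 2, 6, 3, 5, 3, 4, 7, 8]
    chq := [(0, 1), (0, 5), (1, 0), (5, 0)]
    rng := [(0, 7), (0, 9), (1, 4), (1, 6), (2, 3), (2, 4), (3, 2), (3, 9), (4, 1), (4, 2), (5, 6), (5,
      8), (6, 1), (6, 5), (7, 0), (7, 10), (8, 5), (8, 10), (9, 0), (9, 3), (10, 7), (10, 8)]
    lev := [] }
  links := [[1, 7, 4, 3], [7, 0, 3, 8, 2, 9, 10, 5], [9, 1, 8, 11], [8, 1, 0, 4, 12, 13], [12, 3, 0, 7,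
    14, 6, 15], [7, 1, 10, 16], [15, 4, 14, 17]]
  P := {
    a := 7
    N := 18
    nb := [154, 1965, 2818, 12563, 53449, 66690, 180240, 81971, 10254, 3078, 66082, 772, 40984, 4360,
      131280, 135248, 1184, 49216]
    tri := [(0, 1, 3), (0, 1, 7), (0, 3, 4), (0, 4, 7), (1, 2, 8), (1, 2, 9), (1, 3, 8), (1, 5, 7), (1,
      5, 10), (1, 9, 10), (2, 8, 11), (2, 9, 11), (3, 4, 12), (3, 8, 13), (3, 12, 13), (4, 6, 14),
      (4, 6, 15), (4, 7, 14), (4, 12, 15), (5, 7, 16), (5, 10, 16), (6, 14, 17), (6, 15, 17)]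
    fin := [0, 0, 0, 0, 4, 0, 4, 0, 8, 0, 10, 11, 4, 13, 4, 15, 16, 17]
    chd := [(0, 8), (0, 13)]
    steps := [(0, 1), (0, 2), (0, 3), (0, 5), (0, 7), (0, 9), (4, 6), (4, 14), (4, 12)] }
  rep := [0, 8, 10, 4, 15, 13, 11, 16, 17]

noncomputable def v1856 : Cov.CovD where
  P := 3
  N := 6
  pl := [3, 4, 8, 9, 10]
  lev := [⟨[], [], [], [], [(0, 0, [1, 5])]⟩,
    ⟨[], [(0, 0), (0, 1)], [(0, 0), (0, 1)], [2], [(0, 0, [1, 5]), (1, 1, [0]), (2, 0, [1,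
      5])]⟩,
    ⟨[(0, 1)], [(1, 0), (1, 1)], [(0, 1)], [6], [(1, 1, [0]), (2, 0, [1, 5])]⟩,
    ⟨[(0, 1), (1, 2)], [(0, 0), (0, 1), (0, 3), (0, 5), (1, 0), (1, 1), (1, 3), (1, 5), (2,
      1)], [(1, 3), (1, 5), (3, 5)], [], [(1, 1, [0]), (5, 3, []), (6, 5, [0])]⟩,
    ⟨[(0, 1), (0, 3), (1, 3)], [(0, 0), (0, 3), (1, 0), (3, 0), (3, 1), (3, 3), (3, 5)],
      [(0, 3), (3, 3)], [4], [(0, 0, [1, 5]), (5, 3, []), (7, 3, [])]⟩,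
    ⟨[(0, 1), (1, 2), (1, 3)], [(0, 0), (1, 0), (1, 1), (4, 0)], [], [2, 7], [(0, 0, [1,
      5])]⟩,
    ⟨[(0, 4), (3, 4)], [(4, 0), (4, 3)], [], [4, 8], [(7, 3, [])]⟩]
  Ta := [((0, 7), 0, 3), ((0, 9), 0, 7), ((2, 3), 0, 2), ((2, 4), 0, 6), ((5, 6), 3, 5), ((5, 8),
    3, 4), ((7, 0), 3, 0), ((7, 10), 3, 8)]
  Tb := [((0, 7, 9), 0, 3, 7), ((1, 4, 6), 1, 6, 5), ((2, 3, 4), 0, 2, 6), ((3, 2, 9), 2, 0, 7),
    ((4, 1, 2), 6, 1, 0), ((5, 6, 8), 3, 5, 4), ((6, 1, 5), 5, 1, 3), ((7, 0, 10), 3, 0, 8),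
    ((8, 5, 10), 4, 3, 8), ((9, 0, 3), 7, 0, 2), ((10, 7, 8), 8, 3, 4)]
  Tc := [(0, 1, 5)]
  Td := [((0, 1), (0, 7), 3), ((0, 1), (0, 9), 7), ((0, 1), (2, 3), 2), ((0, 1), (2, 4), 6), ((0,
    5), (0, 7), 3), ((0, 5), (0, 9), 7), ((0, 5), (2, 3), 2), ((0, 5), (2, 4), 6), ((1, 0),
    (1, 4), 6), ((1, 0), (1, 6), 5), ((5, 0), (6, 1), 1), ((5, 0), (6, 5), 3)]
  G := [[0, 0x61a131e1615131e1a48, 0, 0x69c55cccce1182, 0x96aaaa33ae1184], [0,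
    0x5131613121689151c19181a4a, 0, 0x32c211499c55c14e118a, 0x99a1833ae11845a41186], [0,
    0x615131e161a131e1a48, 0x9965a6ccce169a5aaccae1c42, 0x61a131e191a131e1c84,
    0x91a1c1e161a131e1c84], [0, 0x5141115131e1649131a18181a4c,
    0x55633661433a218c996556c199c81c8a, 0x513161431218c9151c19181c4a,
    0x513161489131a19181c8514188e]]

noncomputable def n1856 : Ent := ⟨e1856, noF, [], [], [(14, 16, [7334685537875745012586738086077695515070955365108989538292687701266433, 0]), (17, 11, [6903326391201334778116932359625648306653620957400551096786542323294209, 0]), (17, 10, [6903326391201334775872705251651713694319475166462653752416129407774721, 0])]⟩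

def c1856 : PLift (Cov.check n1856.C.D v1856 = true) := ⟨by decide +kernel⟩

def b1856 : PLift (entF (fidx ts) 400 1856 n1856 = true) := ⟨by decide +kernel⟩

theorem g1856 : GoodF (fidx ts) 400 1856 := GoodF.ofV v1856 n1856 c1856.down b1856.down

/-- 4846744:1590/2 -/
noncomputable def e1857 : SCfg where
  D := {
    a := 7
    L := 9
    kp := 6
    inn := [(0, 1), (0, 3), (0, 4), (1, 0), (1, 2), (1, 3), (1, 5), (2, 1), (3, 0), (3, 1), (3, 4), (4,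
      0), (4, 3), (4, 6), (5, 1), (6, 4)]
    mix := [(0, 0), (1, 0), (1, 1), (1, 2), (1, 3), (2, 1), (2, 2), (2, 4), (3, 1), (3, 5), (3, 6), (4,
      0), (4, 5), (4, 7), (4, 8), (5, 0), (5, 3), (5, 7), (6, 4), (6, 5), (6, 8)]
    cl := [0, 0, 3, 4, 2, 1, 6, 1, 5]
    chq := [(0, 3), (1, 3), (3, 0), (3, 1)]
    rng := [(0, 7), (1, 4), (1, 6), (2, 3), (2, 4), (3, 2), (3, 7), (4, 1), (4, 2), (4, 5), (4, 8), (5,
      4), (5, 6), (6, 1), (6, 5), (7, 0), (7, 3), (7, 8), (8, 4), (8, 7)]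
    lev := [] }
  links := [[1, 7, 4, 3], [7, 0, 3, 8, 2, 9, 10, 5], [9, 1, 8, 11], [8, 1, 0, 4, 12, 13], [12, 3, 0, 7,
    14, 15, 6], [7, 1, 10, 14], [12, 4, 15, 11]]
  P := {
    a := 7
    N := 16
    nb := [154, 1965, 2818, 12563, 53449, 17538, 38928, 16435, 10254, 3078, 16930, 37700, 10328, 4360,
      33968, 18512]
    tri := [(0, 1, 3), (0, 1, 7), (0, 3, 4), (0, 4, 7), (1, 2, 8), (1, 2, 9), (1, 3, 8), (1, 5, 7), (1,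
      5, 10), (1, 9, 10), (2, 8, 11), (2, 9, 11), (3, 4, 12), (3, 8, 13), (3, 12, 13), (4, 6, 12),
      (4, 6, 15), (4, 7, 14), (4, 14, 15), (5, 7, 14), (5, 10, 14), (6, 11, 12), (6, 11, 15)]
    fin := [0, 1, 0, 0, 1, 1, 1, 0, 0, 9, 10, 11, 1, 13, 1, 15]
    chd := [(0, 9), (9, 1)]
    steps := [(0, 3), (0, 7), (0, 8), (0, 2), (1, 5), (1, 14), (1, 4), (1, 6), (1, 12)] }
  rep := [0, 1, 11, 9, 10, 15, 13]

noncomputable def v1857 : Cov.CovD where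
  P := 3
  N := 4
  pl := [3, 4, 6, 8]
  lev := [⟨[], [], [], [], [(0, 0, [3])]⟩,
    ⟨[], [(0, 0), (0, 3)], [(0, 0), (0, 3)], [4], [(0, 0, [3]), (1, 0, [3]), (2, 3, [0,
      1])]⟩,
    ⟨[(0, 1)], [(1, 0), (1, 3)], [(0, 3)], [2], [(1, 0, [3]), (2, 3, [0, 1])]⟩,
    ⟨[(0, 1), (1, 2)], [(0, 0), (0, 1), (1, 0), (1, 1), (1, 3), (2, 0)], [(0, 1)], [6],
      [(1, 0, [3]), (5, 1, [3])]⟩,
    ⟨[(0, 1), (0, 3), (1, 3)], [(0, 0), (0, 1), (1, 0), (3, 0), (3, 1)], [(0, 1), (1, 1)],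
      [5], [(0, 0, [3]), (5, 1, [3]), (7, 1, [3])]⟩,
    ⟨[(0, 1), (1, 2), (1, 3)], [(0, 0), (1, 0), (1, 1), (1, 3), (4, 0), (4, 1)], [(0, 1)],
      [4], [(0, 0, [3]), (7, 1, [3])]⟩,
    ⟨[(0, 4), (3, 4)], [(3, 1), (4, 0), (4, 1)], [], [2, 5], [(5, 1, [3])]⟩]
  Ta := [((0, 7), 0, 1), ((1, 4), 0, 2), ((1, 6), 0, 6), ((5, 4), 1, 2), ((5, 6), 1, 6), ((7, 0),
    1, 0), ((7, 3), 1, 4), ((7, 8), 1, 5)]
  Tb := [((1, 4, 6), 0, 2, 6), ((2, 3, 4), 3, 4, 2), ((3, 2, 7), 4, 3, 1), ((4, 1, 2), 2, 0, 3),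
    ((4, 1, 5), 2, 0, 1), ((4, 1, 8), 2, 0, 5), ((4, 2, 5), 2, 3, 1), ((4, 2, 8), 2, 3, 5),
    ((4, 5, 8), 2, 1, 5), ((5, 4, 6), 1, 2, 6), ((6, 1, 5), 6, 0, 1), ((7, 0, 3), 1, 0, 4),
    ((7, 0, 8), 1, 0, 5), ((7, 3, 8), 1, 4, 5), ((8, 4, 7), 5, 2, 1)]
  Tc := [(3, 0, 1)]
  Td := [((0, 3), (0, 7), 1), ((0, 3), (1, 4), 2), ((0, 3), (1, 6), 6), ((1, 3), (5, 4), 2), ((1,
    3), (5, 6), 6), ((1, 3), (7, 0), 0), ((1, 3), (7, 3), 4), ((1, 3), (7, 8), 5), ((3, 0),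
    (2, 3), 4), ((3, 0), (2, 4), 2), ((3, 1), (2, 3), 4), ((3, 1), (2, 4), 2)]
  G := [[0, 0, 0, 0x11c44cc188c41cc1c22, 0x18c21cc188c11cc1a24], [0,
    0x441461444aa11282682126c161164182888e18c, 0, 0, 0x2424c121829cc1268828c128a], [0, 0,
    0xc2c122c1cccc1ccc1c628, 0x55944c988944c9c44cccc988c44c9cc24,
    0x29588521285c19c44a299c885888c22841828c24e], [0, 0, 0xc4122414214c26c8122218818c2ac, 0,
    0xa18858122c9c228818c228414c22c5]]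

noncomputable def n1857 : Ent := ⟨e1857, noF, [], [], []⟩

def c1857 : PLift (Cov.check n1857.C.D v1857 = true) := ⟨by decide +kernel⟩

def b1857 : PLift (entF (fidx ts) 400 1857 n1857 = true) := ⟨by decide +kernel⟩

theorem g1857 : GoodF (fidx ts) 400 1857 := GoodF.ofV v1857 n1857 c1857.down b1857.down

/-- 4846744:1590/1 -/
noncomputable def e1858 : SCfg where
  D := {
    a := 7
    L := 10
    kp := 7
    inn := [(0, 1), (0, 3), (0, 4), (1, 0), (1, 2), (1, 3), (1, 5), (2, 1), (3, 0), (3, 1), (3, 4), (4,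
      0), (4, 3), (4, 6), (5, 1), (6, 4)]
    mix := [(0, 0), (1, 0), (1, 1), (1, 2), (1, 3), (2, 1), (2, 2), (2, 4), (3, 1), (3, 5), (3, 6), (4,
      0), (4, 5), (4, 7), (4, 8), (5, 0), (5, 3), (5, 7), (6, 5), (6, 8), (6, 9)]
    cl := [0, 0, 2, 3, 5, 1, 6, 1, 4, 7]
    chq := [(0, 2), (1, 2), (2, 0), (2, 1)]
    rng := [(0, 7), (1, 4), (1, 6), (2, 3), (2, 4), (3, 2), (3, 7), (4, 1), (4, 2), (5, 6), (5, 9), (6,
      1), (6, 5), (7, 0), (7, 3), (7, 8), (8, 7), (8, 9), (9, 5), (9, 8)]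
    lev := [] }
  links := [[1, 7, 4, 3], [7, 0, 3, 8, 2, 9, 10, 5], [9, 1, 8, 11], [8, 1, 0, 4, 12, 13], [12, 3, 0, 7,
    14, 15, 6], [7, 1, 10, 14], [12, 4, 15, 16]]
  P := {
    a := 7
    N := 17
    nb := [154, 1965, 2818, 12563, 53449, 17538, 102416, 16435, 10254, 3078, 16930, 772, 73816, 4360,
      33968, 82000, 36928]
    tri := [(0, 1, 3), (0, 1, 7), (0, 3, 4), (0, 4, 7), (1, 2, 8), (1, 2, 9), (1, 3, 8), (1, 5, 7), (1,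
      5, 10), (1, 9, 10), (2, 8, 11), (2, 9, 11), (3, 4, 12), (3, 8, 13), (3, 12, 13), (4, 6, 12),
      (4, 6, 15), (4, 7, 14), (4, 14, 15), (5, 7, 14), (5, 10, 14), (6, 12, 16), (6, 15, 16)]
    fin := [0, 1, 0, 0, 1, 1, 1, 0, 0, 9, 10, 11, 1, 13, 1, 15, 16]
    chd := [(0, 9), (9, 1)]
    steps := [(0, 3), (0, 7), (0, 8), (0, 2), (1, 5), (1, 14), (1, 4), (1, 6), (1, 12)] }
  rep := [0, 1, 9, 10, 15, 11, 13, 16]

noncomputable def v1858 : Cov.CovD where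
  P := 3
  N := 5
  pl := [3, 4, 6, 8, 9]
  lev := [⟨[], [], [], [], [(0, 0, [2])]⟩,
    ⟨[], [(0, 0), (0, 2)], [(0, 0), (0, 2)], [3], [(0, 0, [2]), (1, 0, [2]), (2, 2, [0,
      1])]⟩,
    ⟨[(0, 1)], [(1, 0), (1, 2)], [(0, 2)], [5], [(1, 0, [2]), (2, 2, [0, 1])]⟩,
    ⟨[(0, 1), (1, 2)], [(0, 0), (0, 1), (1, 0), (1, 1), (1, 2), (2, 0)], [(0, 1)], [6],
      [(1, 0, [2]), (5, 1, [2])]⟩,
    ⟨[(0, 1), (0, 3), (1, 3)], [(0, 0), (0, 1), (1, 0), (3, 0), (3, 1)], [(0, 1), (1, 1)],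
      [4], [(0, 0, [2]), (5, 1, [2]), (7, 1, [2])]⟩,
    ⟨[(0, 1), (1, 2), (1, 3)], [(0, 0), (1, 0), (1, 1), (1, 2), (4, 0), (4, 1)], [(0, 1)],
      [3], [(0, 0, [2]), (7, 1, [2])]⟩,
    ⟨[(0, 4), (3, 4)], [(3, 1), (4, 0), (4, 1)], [], [4, 7], [(5, 1, [2])]⟩]
  Ta := [((0, 7), 0, 1), ((1, 4), 0, 5), ((1, 6), 0, 6), ((5, 6), 1, 6), ((5, 9), 1, 7), ((7, 0),
    1, 0), ((7, 3), 1, 3), ((7, 8), 1, 4)]
  Tb := [((1, 4, 6), 0, 5, 6), ((2, 3, 4), 2, 3, 5), ((3, 2, 7), 3, 2, 1), ((4, 1, 2), 5, 0, 2),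
    ((5, 6, 9), 1, 6, 7), ((6, 1, 5), 6, 0, 1), ((7, 0, 3), 1, 0, 3), ((7, 0, 8), 1, 0, 4),
    ((7, 3, 8), 1, 3, 4), ((8, 7, 9), 4, 1, 7), ((9, 5, 8), 7, 1, 4)]
  Tc := [(2, 0, 1)]
  Td := [((0, 2), (0, 7), 1), ((0, 2), (1, 4), 5), ((0, 2), (1, 6), 6), ((1, 2), (5, 6), 6), ((1,
    2), (5, 9), 7), ((1, 2), (7, 0), 0), ((1, 2), (7, 3), 3), ((1, 2), (7, 8), 4), ((2, 0),
    (2, 3), 3), ((2, 0), (2, 4), 5), ((2, 1), (2, 3), 3), ((2, 1), (2, 4), 5)]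
  G := [[0, 0, 0x9151c19151c1c22, 0x2828c122424c12c2, 0x45c412299c18c12299c55cc182e], [0,
    0x122184188e11214a1412ca1c2, 0xa131c189121c1231a1c14e2, 0x2222c1242828c128a,
    0x244128419882b342acc124b4c1aa4], [0, 0, 0x9151c19151c1c22, 0x9258c22228228524e2c1,
    0x88c144c1c88c1555999cccdca211cddccddc11ccc11cddcc8a29], [0, 0,
    0x7121c142151c1862851c128a, 0x9252c229254c22c1,
    0x7122cc9121cc829454c29858c2a7424c24b4cc2a3]]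

noncomputable def n1858 : Ent := ⟨e1858, noF, [], [], [(16, 11, [1580044410770990308032078191911707142368668054796088592099351728129, 0])]⟩

def c1858 : PLift (Cov.check n1858.C.D v1858 = true) := ⟨by decide +kernel⟩

def b1858 : PLift (entF (fidx ts) 400 1858 n1858 = true) := ⟨by decide +kernel⟩

theorem g1858 : GoodF (fidx ts) 400 1858 := GoodF.ofV v1858 n1858 c1858.down b1858.down

/-- 4846744:1590/3 -/
noncomputable def e1859 : SCfg where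
  D := {
    a := 7
    L := 10
    kp := 7
    inn := [(0, 1), (0, 3), (0, 4), (1, 0), (1, 2), (1, 3), (1, 5), (2, 1), (3, 0), (3, 1), (3, 4), (4,
      0), (4, 3), (4, 6), (5, 1), (6, 4)]
    mix := [(0, 0), (1, 0), (1, 1), (1, 2), (1, 3), (2, 1), (2, 2), (2, 4), (3, 1), (3, 5), (3, 6), (4,
      0), (4, 5), (4, 7), (4, 8), (5, 0), (5, 3), (5, 9), (6, 4), (6, 5), (6, 8)]
    cl := [0, 1, 0, 2, 4, 3, 6, 3, 5, 7]
    chq := [(0, 1), (0, 6), (1, 0), (6, 0)]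
    rng := [(0, 7), (0, 9), (1, 4), (1, 6), (2, 3), (2, 4), (3, 2), (3, 9), (4, 1), (4, 2), (4, 5), (4,
      8), (5, 4), (5, 6), (6, 1), (6, 5), (7, 0), (7, 8), (8, 4), (8, 7), (9, 0), (9, 3)]
    lev := [] }
  links := [[1, 7, 4, 3], [7, 0, 3, 8, 2, 9, 10, 5], [9, 1, 8, 11], [8, 1, 0, 4, 12, 13], [12, 3, 0, 7,
    14, 15, 6], [7, 1, 10, 16], [12, 4, 15, 11]]
  P := {
    a := 7
    N := 17
    nb := [154, 1965, 2818, 12563, 53449, 66690, 38928, 81971, 10254, 3078, 66082, 37700, 10328, 4360,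
      32912, 18512, 1184]
    tri := [(0, 1, 3), (0, 1, 7), (0, 3, 4), (0, 4, 7), (1, 2, 8), (1, 2, 9), (1, 3, 8), (1, 5, 7), (1,
      5, 10), (1, 9, 10), (2, 8, 11), (2, 9, 11), (3, 4, 12), (3, 8, 13), (3, 12, 13), (4, 6, 12),
      (4, 6, 15), (4, 7, 14), (4, 14, 15), (5, 7, 16), (5, 10, 16), (6, 11, 12), (6, 11, 15)]
    fin := [0, 0, 0, 0, 4, 0, 4, 0, 8, 0, 10, 11, 4, 13, 4, 15, 16]
    chd := [(0, 8), (0, 13)]
    steps := [(0, 1), (0, 2), (0, 3), (0, 5), (0, 7), (0, 9), (4, 6), (4, 14), (4, 12)] }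
  rep := [0, 8, 10, 4, 11, 15, 13, 16]

noncomputable def v1859 : Cov.CovD where
  P := 3
  N := 5
  pl := [3, 4, 8, 9]
  lev := [⟨[], [], [], [], [(0, 0, [1, 6])]⟩,
    ⟨[], [(0, 0), (0, 1)], [(0, 0), (0, 1)], [2], [(0, 0, [1, 6]), (1, 1, [0]), (2, 0, [1,
      6])]⟩,
    ⟨[(0, 1)], [(1, 0), (1, 1)], [(0, 1)], [4], [(1, 1, [0]), (2, 0, [1, 6])]⟩,
    ⟨[(0, 1), (1, 2)], [(0, 0), (0, 1), (0, 3), (0, 6), (1, 0), (1, 1), (1, 3), (1, 6), (2,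
      1)], [(1, 3), (1, 6), (3, 6)], [], [(1, 1, [0]), (5, 3, []), (6, 6, [0])]⟩,
    ⟨[(0, 1), (0, 3), (1, 3)], [(0, 0), (0, 3), (1, 0), (3, 0), (3, 1), (3, 3), (3, 6)],
      [(0, 3), (3, 3)], [5], [(0, 0, [1, 6]), (5, 3, []), (7, 3, [])]⟩,
    ⟨[(0, 1), (1, 2), (1, 3)], [(0, 0), (1, 0), (1, 1), (4, 0)], [], [2, 7], [(0, 0, [1,
      6])]⟩,
    ⟨[(0, 4), (3, 4)], [(3, 3), (4, 0), (4, 3)], [], [4, 5], [(5, 3, [])]⟩]
  Ta := [((0, 7), 0, 3), ((0, 9), 0, 7), ((2, 3), 0, 2), ((2, 4), 0, 4), ((5, 4), 3, 4), ((5, 6),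
    3, 6), ((7, 0), 3, 0), ((7, 8), 3, 5)]
  Tb := [((0, 7, 9), 0, 3, 7), ((1, 4, 6), 1, 4, 6), ((2, 3, 4), 0, 2, 4), ((3, 2, 9), 2, 0, 7),
    ((4, 1, 2), 4, 1, 0), ((4, 1, 5), 4, 1, 3), ((4, 1, 8), 4, 1, 5), ((4, 2, 5), 4, 0, 3),
    ((4, 2, 8), 4, 0, 5), ((4, 5, 8), 4, 3, 5), ((5, 4, 6), 3, 4, 6), ((6, 1, 5), 6, 1, 3),
    ((7, 0, 8), 3, 0, 5), ((8, 4, 7), 5, 4, 3), ((9, 0, 3), 7, 0, 2)]
  Tc := [(0, 1, 6)]
  Td := [((0, 1), (0, 7), 3), ((0, 1), (0, 9), 7), ((0, 1), (2, 3), 2), ((0, 1), (2, 4), 4), ((0,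
    6), (0, 7), 3), ((0, 6), (0, 9), 7), ((0, 6), (2, 3), 2), ((0, 6), (2, 4), 4), ((1, 0),
    (1, 4), 4), ((1, 0), (1, 6), 6), ((6, 0), (6, 1), 1), ((6, 0), (6, 5), 3)]
  G := [[0, 0xd11151e1811121e1684, 0, 0xddc11c77ce1184, 0xbba77a11ae1182], [0,
    0x114191e1611111e1a42, 0, 0x16ce9cbece1148, 0x5daa1ae7ae1184], [0, 0x813111e1314111e1c82,
    0x4463a6614116996b2ce111a81cc8, 0x414144811121e11131a1c8c, 0x811121e188314111e1486], [0,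
    0x811191e1112121e1a84, 0x8861a681ce151a24a14ae1c42, 0x21a111e1514121e1c48,
    0x811181e1114141e1c82]]

noncomputable def n1859 : Ent := ⟨e1859, noF, [], [], [(14, 16, [1580044410770988437309982408355971841652082177953823432505696718849, 0])]⟩

def c1859 : PLift (Cov.check n1859.C.D v1859 = true) := ⟨by decide +kernel⟩

def b1859 : PLift (entF (fidx ts) 400 1859 n1859 = true) := ⟨by decide +kernel⟩

theorem g1859 : GoodF (fidx ts) 400 1859 := GoodF.ofV v1859 n1859 c1859.down b1859.down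

/-- 4846744:1590 -/
noncomputable def e1860 : SCfg where
  D := {
    a := 7
    L := 11
    kp := 8
    inn := [(0, 1), (0, 3), (0, 4), (1, 0), (1, 2), (1, 3), (1, 5), (2, 1), (3, 0), (3, 1), (3, 4), (4,
      0), (4, 3), (4, 6), (5, 1), (6, 4)]
    mix := [(0, 0), (1, 0), (1, 1), (1, 2), (1, 3), (2, 1), (2, 2), (2, 4), (3, 1), (3, 5), (3, 6), (4,
      0), (4, 5), (4, 7), (4, 8), (5, 0), (5, 3), (5, 9), (6, 5), (6, 8), (6, 10)]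
    cl := [0, 1, 0, 2, 6, 3, 5, 3, 4, 7, 8]
    chq := [(0, 1), (0, 5), (1, 0), (5, 0)]
    rng := [(0, 7), (0, 9), (1, 4), (1, 6), (2, 3), (2, 4), (3, 2), (3, 9), (4, 1), (4, 2), (5, 6), (5,
      10), (6, 1), (6, 5), (7, 0), (7, 8), (8, 7), (8, 10), (9, 0), (9, 3), (10, 5), (10, 8)]
    lev := [] }
  links := [[1, 7, 4, 3], [7, 0, 3, 8, 2, 9, 10, 5], [9, 1, 8, 11], [8, 1, 0, 4, 12, 13], [12, 3, 0, 7,
    14, 15, 6], [7, 1, 10, 16], [12, 4, 15, 17]]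
  P := {
    a := 7
    N := 18
    nb := [154, 1965, 2818, 12563, 53449, 66690, 167952, 81971, 10254, 3078, 66082, 772, 139352, 4360,
      32912, 147536, 1184, 36928]
    tri := [(0, 1, 3), (0, 1, 7), (0, 3, 4), (0, 4, 7), (1, 2, 8), (1, 2, 9), (1, 3, 8), (1, 5, 7), (1,
      5, 10), (1, 9, 10), (2, 8, 11), (2, 9, 11), (3, 4, 12), (3, 8, 13), (3, 12, 13), (4, 6, 12),
      (4, 6, 15), (4, 7, 14), (4, 14, 15), (5, 7, 16), (5, 10, 16), (6, 12, 17), (6, 15, 17)]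
    fin := [0, 0, 0, 0, 4, 0, 4, 0, 8, 0, 10, 11, 4, 13, 4, 15, 16, 17]
    chd := [(0, 8), (0, 13)]
    steps := [(0, 1), (0, 2), (0, 3), (0, 5), (0, 7), (0, 9), (4, 6), (4, 14), (4, 12)] }
  rep := [0, 8, 10, 4, 15, 13, 11, 16, 17]

noncomputable def v1860 : Cov.CovD where
  P := 3
  N := 6
  pl := [3, 4, 8, 9, 10]
  lev := [⟨[], [], [], [], [(0, 0, [1, 5])]⟩,
    ⟨[], [(0, 0), (0, 1)], [(0, 0), (0, 1)], [2], [(0, 0, [1, 5]), (1, 1, [0]), (2, 0, [1,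
      5])]⟩,
    ⟨[(0, 1)], [(1, 0), (1, 1)], [(0, 1)], [6], [(1, 1, [0]), (2, 0, [1, 5])]⟩,
    ⟨[(0, 1), (1, 2)], [(0, 0), (0, 1), (0, 3), (0, 5), (1, 0), (1, 1), (1, 3), (1, 5), (2,
      1)], [(1, 3), (1, 5), (3, 5)], [], [(1, 1, [0]), (5, 3, []), (6, 5, [0])]⟩,
    ⟨[(0, 1), (0, 3), (1, 3)], [(0, 0), (0, 3), (1, 0), (3, 0), (3, 1), (3, 3), (3, 5)],
      [(0, 3), (3, 3)], [4], [(0, 0, [1, 5]), (5, 3, []), (7, 3, [])]⟩,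
    ⟨[(0, 1), (1, 2), (1, 3)], [(0, 0), (1, 0), (1, 1), (4, 0)], [], [2, 7], [(0, 0, [1,
      5])]⟩,
    ⟨[(0, 4), (3, 4)], [(3, 3), (4, 0), (4, 3)], [], [4, 8], [(5, 3, [])]⟩]
  Ta := [((0, 7), 0, 3), ((0, 9), 0, 7), ((2, 3), 0, 2), ((2, 4), 0, 6), ((5, 6), 3, 5), ((5,
    10), 3, 8), ((7, 0), 3, 0), ((7, 8), 3, 4)]
  Tb := [((0, 7, 9), 0, 3, 7), ((1, 4, 6), 1, 6, 5), ((2, 3, 4), 0, 2, 6), ((3, 2, 9), 2, 0, 7),
    ((4, 1, 2), 6, 1, 0), ((5, 6, 10), 3, 5, 8), ((6, 1, 5), 5, 1, 3), ((7, 0, 8), 3, 0, 4),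
    ((8, 7, 10), 4, 3, 8), ((9, 0, 3), 7, 0, 2), ((10, 5, 8), 8, 3, 4)]
  Tc := [(0, 1, 5)]
  Td := [((0, 1), (0, 7), 3), ((0, 1), (0, 9), 7), ((0, 1), (2, 3), 2), ((0, 1), (2, 4), 6), ((0,
    5), (0, 7), 3), ((0, 5), (0, 9), 7), ((0, 5), (2, 3), 2), ((0, 5), (2, 4), 6), ((1, 0),
    (1, 4), 6), ((1, 0), (1, 6), 5), ((5, 0), (6, 1), 1), ((5, 0), (6, 5), 3)]
  G := [[0, 0x3121115131e1649151c18181c4a, 0, 0x55c411499c33ca118c, 0x33a211899a55ac1186], [0,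
    0x9151c1e19151c1e1a42, 0, 0xbbceecccce1142, 0xbbaeeaccae1182], [0,
    0x31219131a1a49151c15141a86, 0x45a4155a41c499614336e199a33ca1c8c,
    0x513161115131e1c491818181c4a, 0x21219131a1c8915111e15141c86], [0, 0x9151c1e16151c1e1a42,
    0x66c5563cce166aa5ac3ae1c48, 0x6151c1e161a1c1e1c48, 0x91a1c1e161a1c1e1c84]]

noncomputable def n1860 : Ent := ⟨e1860, noF, [], [], [(14, 16, [7334685537875745012586738086077695515070955365108989538292687701286913, 0]), (17, 11, [6903326391201334778116932359625648306653620957400551096786542323314689, 0])]⟩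

def c1860 : PLift (Cov.check n1860.C.D v1860 = true) := ⟨by decide +kernel⟩

def b1860 : PLift (entF (fidx ts) 400 1860 n1860 = true) := ⟨by decide +kernel⟩

theorem g1860 : GoodF (fidx ts) 400 1860 := GoodF.ofV v1860 n1860 c1860.down b1860.down

/-- 4846564:1591/2 -/
noncomputable def e1861 : SCfg where
  D := {
    a := 7
    L := 9
    kp := 6
    inn := [(0, 1), (0, 3), (0, 4), (1, 0), (1, 2), (1, 3), (1, 4), (2, 1), (3, 0), (3, 1), (3, 5), (4,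
      0), (4, 1), (5, 3), (5, 6), (6, 5)]
    mix := [(0, 0), (1, 1), (1, 2), (1, 3), (1, 4), (2, 1), (2, 2), (2, 5), (3, 0), (3, 1), (3, 6), (4,
      0), (4, 4), (4, 7), (5, 0), (5, 5), (5, 6), (5, 8), (6, 0), (6, 7), (6, 8)]
    cl := [0, 1, 4, 6, 1, 2, 0, 5, 3]
    chq := [(0, 3), (2, 6), (3, 0), (6, 2)]
    rng := [(0, 7), (1, 5), (1, 6), (2, 3), (2, 5), (3, 2), (3, 4), (4, 3), (4, 7), (5, 1), (5, 2), (5,
      6), (5, 8), (6, 1), (6, 5), (7, 0), (7, 4), (7, 8), (8, 5), (8, 7)]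
    lev := [] }
  links := [[1, 4, 7, 3], [4, 0, 3, 8, 2, 9, 10, 11], [9, 1, 8, 12], [8, 1, 0, 7, 5, 13], [7, 0, 1, 11,
    14], [13, 3, 7, 6, 15, 12], [15, 5, 7, 14]]
  P := {
    a := 7
    N := 16
    nb := [154, 3869, 4866, 8611, 18563, 45256, 49312, 16505, 12302, 5126, 2562, 17426, 41764, 4392,
      35024, 20576]
    tri := [(0, 1, 3), (0, 1, 4), (0, 3, 7), (0, 4, 7), (1, 2, 8), (1, 2, 9), (1, 3, 8), (1, 4, 11),
      (1, 9, 10), (1, 10, 11), (2, 8, 12), (2, 9, 12), (3, 5, 7), (3, 5, 13), (3, 8, 13), (4, 7,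
      14), (4, 11, 14), (5, 6, 7), (5, 6, 15), (5, 12, 13), (5, 12, 15), (6, 7, 14), (6, 14, 15)]
    fin := [0, 1, 1, 0, 0, 5, 5, 5, 0, 9, 10, 0, 1, 5, 14, 15]
    chd := [(5, 15), (10, 1)]
    steps := [(0, 3), (0, 4), (0, 8), (0, 11), (1, 2), (1, 12), (5, 6), (5, 7), (5, 13)] }
  rep := [5, 0, 1, 15, 9, 14, 10]

noncomputable def v1861 : Cov.CovD where
  P := 3
  N := 4
  pl := [2, 7]
  lev := [⟨[], [], [], [], [(0, 0, [3])]⟩,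
    ⟨[], [(0, 0), (0, 1), (0, 6)], [(1, 1), (1, 6)], [4], [(1, 1, []), (3, 6, [2]), (4, 1,
      [])]⟩,
    ⟨[(0, 1)], [(1, 1), (1, 2), (1, 6)], [(1, 2)], [4], [(1, 1, []), (5, 2, [6])]⟩,
    ⟨[(0, 1), (1, 2)], [(0, 0), (0, 1), (1, 0), (1, 1), (1, 6), (2, 1)], [(0, 0), (0, 1)],
      [], [(0, 0, [3]), (1, 1, []), (6, 0, [3])]⟩,
    ⟨[(0, 1), (0, 3), (1, 2), (1, 3)], [(0, 0), (0, 1), (1, 0), (1, 1), (1, 6), (3, 0)],
      [(0, 1)], [5], [(0, 0, [3]), (4, 1, [])]⟩,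
    ⟨[(0, 3), (1, 3)], [(0, 0), (2, 2), (3, 0), (3, 1), (3, 2), (3, 3), (4, 0)], [(0, 0),
      (0, 2), (0, 3), (2, 3)], [], [(0, 0, [3]), (5, 2, [6]), (6, 0, [3]), (8, 3, [0])]⟩,
    ⟨[(3, 5)], [(0, 0), (3, 0), (4, 0), (5, 0), (5, 2), (5, 3)], [(0, 3)], [5], [(0, 0,
      [3]), (8, 3, [0])]⟩]
  Ta := [((0, 7), 0, 5), ((1, 5), 1, 2), ((1, 6), 1, 0), ((4, 3), 1, 6), ((4, 7), 1, 5), ((6, 1),
    0, 1), ((6, 5), 0, 2)]
  Tb := [((1, 5, 6), 1, 2, 0), ((2, 3, 5), 4, 6, 2), ((3, 2, 4), 6, 4, 1), ((4, 3, 7), 1, 6, 5),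
    ((5, 1, 2), 2, 1, 4), ((5, 1, 6), 2, 1, 0), ((5, 1, 8), 2, 1, 3), ((5, 2, 6), 2, 4, 0),
    ((5, 2, 8), 2, 4, 3), ((5, 6, 8), 2, 0, 3), ((6, 1, 5), 0, 1, 2), ((7, 0, 4), 5, 0, 1),
    ((7, 0, 8), 5, 0, 3), ((7, 4, 8), 5, 1, 3), ((8, 5, 7), 3, 2, 5)]
  Tc := []
  Td := [((0, 3), (0, 7), 5), ((0, 3), (6, 1), 1), ((0, 3), (6, 5), 2), ((2, 6), (5, 1), 1), ((2,
    6), (5, 2), 4), ((2, 6), (5, 6), 0), ((2, 6), (5, 8), 3), ((3, 0), (8, 5), 2), ((3, 0),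
    (8, 7), 5), ((6, 2), (3, 2), 4), ((6, 2), (3, 4), 1)]
  G := [[0, 0, 0, 0x282424282428d22c2822c28922c281d4, 0xc2a24222c82c94c2a2488842aa419c], [0, 0,
    0, 0, 0xa448c222486a8c4842b464a4482a84982a64ac419a], [0,
    0x14c11c62811c21ca811c14cc8ca11c21ca8446, 0x11a2411a24c18, 0x21c241122c14822c184ca,
    0xc2a24812a2812a28912a241d4], [0, 0, 0x186416c811611cc4a12, 0,
    0xc8146218918481846a98a82a44ac41d2]]

noncomputable def n1861 : Ent := ⟨e1861, noF, [], [], []⟩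

def c1861 : PLift (Cov.check n1861.C.D v1861 = true) := ⟨by decide +kernel⟩

def b1861 : PLift (entF (fidx ts) 400 1861 n1861 = true) := ⟨by decide +kernel⟩

theorem g1861 : GoodF (fidx ts) 400 1861 := GoodF.ofV v1861 n1861 c1861.down b1861.down

/-- 4846564:1591/1 -/
noncomputable def e1862 : SCfg where
  D := {
    a := 7
    L := 10
    kp := 7
    inn := [(0, 1), (0, 3), (0, 4), (1, 0), (1, 2), (1, 3), (1, 4), (2, 1), (3, 0), (3, 1), (3, 5), (4,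
      0), (4, 1), (5, 3), (5, 6), (6, 5)]
    mix := [(0, 0), (1, 1), (1, 2), (1, 3), (1, 4), (2, 1), (2, 2), (2, 5), (3, 0), (3, 1), (3, 6), (4,
      0), (4, 4), (4, 7), (5, 0), (5, 6), (5, 8), (5, 9), (6, 0), (6, 7), (6, 8)]
    cl := [0, 1, 2, 5, 1, 6, 0, 4, 3, 7]
    chq := [(0, 3), (3, 0), (5, 6), (6, 5)]
    rng := [(0, 7), (1, 5), (1, 6), (2, 3), (2, 5), (3, 2), (3, 4), (4, 3), (4, 7), (5, 1), (5, 2), (6,
      1), (6, 9), (7, 0), (7, 4), (7, 8), (8, 7), (8, 9), (9, 6), (9, 8)]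
    lev := [] }
  links := [[1, 4, 7, 3], [4, 0, 3, 8, 2, 9, 10, 11], [9, 1, 8, 12], [8, 1, 0, 7, 5, 13], [7, 0, 1, 11,
    14], [13, 3, 7, 6, 15, 16], [15, 5, 7, 14]]
  P := {
    a := 7
    N := 17
    nb := [154, 3869, 4866, 8611, 18563, 106696, 49312, 16505, 12302, 5126, 2562, 17426, 772, 65832,
      35024, 82016, 40992]
    tri := [(0, 1, 3), (0, 1, 4), (0, 3, 7), (0, 4, 7), (1, 2, 8), (1, 2, 9), (1, 3, 8), (1, 4, 11),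
      (1, 9, 10), (1, 10, 11), (2, 8, 12), (2, 9, 12), (3, 5, 7), (3, 5, 13), (3, 8, 13), (4, 7,
      14), (4, 11, 14), (5, 6, 7), (5, 6, 15), (5, 13, 16), (5, 15, 16), (6, 7, 14), (6, 14, 15)]
    fin := [0, 1, 1, 0, 0, 5, 5, 5, 0, 9, 10, 0, 1, 5, 14, 15, 16]
    chd := [(5, 15), (10, 1)]
    steps := [(0, 3), (0, 4), (0, 8), (0, 11), (1, 2), (1, 12), (5, 6), (5, 7), (5, 13)] }
  rep := [5, 0, 9, 15, 14, 10, 1, 16]

noncomputable def v1862 : Cov.CovD where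
  P := 3
  N := 5
  pl := [2, 7, 9]
  lev := [⟨[], [], [], [], [(0, 0, [3])]⟩,
    ⟨[], [(0, 0), (0, 1), (0, 5)], [(1, 1), (1, 5)], [2], [(1, 1, []), (3, 5, [6]), (4, 1,
      [])]⟩,
    ⟨[(0, 1)], [(1, 1), (1, 5), (1, 6)], [(1, 6)], [2], [(1, 1, []), (5, 6, [5])]⟩,
    ⟨[(0, 1), (1, 2)], [(0, 0), (0, 1), (1, 0), (1, 1), (1, 5), (2, 1)], [(0, 0), (0, 1)],
      [], [(0, 0, [3]), (1, 1, []), (6, 0, [3])]⟩,
    ⟨[(0, 1), (0, 3), (1, 2), (1, 3)], [(0, 0), (0, 1), (1, 0), (1, 1), (1, 5), (3, 0)],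
      [(0, 1)], [4], [(0, 0, [3]), (4, 1, [])]⟩,
    ⟨[(0, 3), (1, 3)], [(0, 0), (3, 0), (3, 1), (3, 3), (4, 0)], [(0, 0), (0, 3)], [7],
      [(0, 0, [3]), (6, 0, [3]), (8, 3, [0])]⟩,
    ⟨[(3, 5)], [(0, 0), (3, 0), (4, 0), (5, 0), (5, 3)], [(0, 3)], [4], [(0, 0, [3]), (8,
      3, [0])]⟩]
  Ta := [((0, 7), 0, 4), ((1, 5), 1, 6), ((1, 6), 1, 0), ((4, 3), 1, 5), ((4, 7), 1, 4), ((6, 1),
    0, 1), ((6, 9), 0, 7)]
  Tb := [((1, 5, 6), 1, 6, 0), ((2, 3, 5), 2, 5, 6), ((3, 2, 4), 5, 2, 1), ((4, 3, 7), 1, 5, 4),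
    ((5, 1, 2), 6, 1, 2), ((6, 1, 9), 0, 1, 7), ((7, 0, 4), 4, 0, 1), ((7, 0, 8), 4, 0, 3),
    ((7, 4, 8), 4, 1, 3), ((8, 7, 9), 3, 4, 7), ((9, 6, 8), 7, 0, 3)]
  Tc := []
  Td := [((0, 3), (0, 7), 4), ((0, 3), (6, 1), 1), ((0, 3), (6, 9), 7), ((3, 0), (8, 7), 4), ((3,
    0), (8, 9), 7), ((5, 6), (3, 2), 2), ((5, 6), (3, 4), 1), ((6, 5), (5, 1), 1), ((6, 5),
    (5, 2), 2)]
  G := [[0, 0, 0xe262e82c46e2e288c8884846, 0xe262e82c1444ea2e2c458, 0xe262e82c16e2e2888c894],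
    [0, 0, 0x4448a6e6aacc2ae6642ec888c2c2, 0xae6642ec888c1646e48aae8c452,
    0x4e648a2e68cc2aa6646ec888c292], [0x111e812e644111e111ec28c8, 0x111e111e624111e141ea28c4,
    0x34212a2c4312e288c4, 0x3262182c1132e28894, 0x312e241132e24898], [0, 0,
    0xe41eea1c2111e642e982c4, 0xee6118885a11222c83c14cc6458, 0x14eaee542812e315ec4292]]

noncomputable def n1862 : Ent := ⟨e1862, noF, [], [], [(16, 12, [1580044410777118419473445963789405229760683414688298388994431143937, 0])]⟩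

def c1862 : PLift (Cov.check n1862.C.D v1862 = true) := ⟨by decide +kernel⟩

def b1862 : PLift (entF (fidx ts) 400 1862 n1862 = true) := ⟨by decide +kernel⟩

theorem g1862 : GoodF (fidx ts) 400 1862 := GoodF.ofV v1862 n1862 c1862.down b1862.down

/-- 4846564:1591/3 -/
noncomputable def e1863 : SCfg where
  D := {
    a := 7
    L := 10
    kp := 7
    inn := [(0, 1), (0, 3), (0, 4), (1, 0), (1, 2), (1, 3), (1, 4), (2, 1), (3, 0), (3, 1), (3, 5), (4,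
      0), (4, 1), (5, 3), (5, 6), (6, 5)]
    mix := [(0, 0), (1, 1), (1, 2), (1, 3), (1, 4), (2, 1), (2, 2), (2, 5), (3, 0), (3, 1), (3, 6), (4,
      0), (4, 4), (4, 7), (5, 0), (5, 5), (5, 6), (5, 8), (6, 0), (6, 8), (6, 9)]
    cl := [0, 1, 3, 5, 1, 2, 0, 6, 4, 7]
    chq := [(0, 4), (1, 3), (3, 1), (4, 0)]
    rng := [(0, 7), (0, 9), (1, 5), (1, 6), (2, 3), (2, 5), (3, 2), (3, 4), (4, 3), (4, 7), (5, 1), (5,
      2), (5, 6), (5, 8), (6, 1), (6, 5), (7, 0), (7, 4), (8, 5), (8, 9), (9, 0), (9, 8)]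
    lev := [] }
  links := [[1, 4, 7, 3], [4, 0, 3, 8, 2, 9, 10, 11], [9, 1, 8, 12], [8, 1, 0, 7, 5, 13], [7, 0, 1, 11,
    14], [13, 3, 7, 6, 15, 12], [15, 5, 7, 16]]
  P := {
    a := 7
    N := 17
    nb := [154, 3869, 4866, 8611, 18563, 45256, 98464, 82041, 12302, 5126, 2562, 17426, 41764, 4392,
      2192, 69728, 32960]
    tri := [(0, 1, 3), (0, 1, 4), (0, 3, 7), (0, 4, 7), (1, 2, 8), (1, 2, 9), (1, 3, 8), (1, 4, 11),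
      (1, 9, 10), (1, 10, 11), (2, 8, 12), (2, 9, 12), (3, 5, 7), (3, 5, 13), (3, 8, 13), (4, 7,
      14), (4, 11, 14), (5, 6, 7), (5, 6, 15), (5, 12, 13), (5, 12, 15), (6, 7, 16), (6, 15, 16)]
    fin := [0, 1, 2, 0, 0, 0, 0, 0, 1, 9, 10, 1, 2, 0, 14, 15, 16]
    chd := [(0, 15), (1, 9)]
    steps := [(0, 3), (0, 4), (0, 5), (0, 6), (0, 7), (0, 13), (1, 8), (1, 11), (2, 12)] }
  rep := [0, 1, 2, 9, 15, 10, 14, 16]

noncomputable def v1863 : Cov.CovD where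
  P := 3
  N := 5
  pl := [3, 5, 7, 9]
  lev := [⟨[], [], [], [], [(0, 0, [4])]⟩,
    ⟨[], [(0, 0), (0, 1), (0, 3)], [(1, 1), (1, 3)], [5], [(1, 1, [3]), (2, 3, [1]), (4, 1,
      [3])]⟩,
    ⟨[(0, 1)], [(1, 1), (1, 3)], [(1, 3)], [2], [(1, 1, [3]), (2, 3, [1])]⟩,
    ⟨[(0, 1), (1, 2)], [(0, 0), (0, 1), (1, 0), (1, 1), (1, 3), (2, 1)], [(0, 0), (0, 1)],
      [], [(0, 0, [4]), (1, 1, [3]), (6, 0, [4])]⟩,
    ⟨[(0, 1), (0, 3), (1, 2), (1, 3)], [(0, 0), (0, 1), (1, 0), (1, 1), (1, 3), (3, 0)],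
      [(0, 1)], [6], [(0, 0, [4]), (4, 1, [3])]⟩,
    ⟨[(0, 3), (1, 3)], [(0, 0), (3, 0), (3, 1), (3, 4), (4, 0)], [(0, 0), (0, 4)], [2],
      [(0, 0, [4]), (6, 0, [4]), (8, 4, [0])]⟩,
    ⟨[(3, 5)], [(0, 0), (3, 0), (4, 0), (5, 0), (5, 4)], [(0, 4)], [7], [(0, 0, [4]), (8,
      4, [0])]⟩]
  Ta := [((0, 7), 0, 6), ((0, 9), 0, 7), ((1, 5), 1, 2), ((1, 6), 1, 0), ((4, 3), 1, 5), ((4, 7),
    1, 6), ((6, 1), 0, 1), ((6, 5), 0, 2)]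
  Tb := [((0, 7, 9), 0, 6, 7), ((1, 5, 6), 1, 2, 0), ((2, 3, 5), 3, 5, 2), ((3, 2, 4), 5, 3, 1),
    ((4, 3, 7), 1, 5, 6), ((5, 1, 2), 2, 1, 3), ((5, 1, 6), 2, 1, 0), ((5, 1, 8), 2, 1, 4),
    ((5, 2, 6), 2, 3, 0), ((5, 2, 8), 2, 3, 4), ((5, 6, 8), 2, 0, 4), ((6, 1, 5), 0, 1, 2),
    ((7, 0, 4), 6, 0, 1), ((8, 5, 9), 4, 2, 7), ((9, 0, 8), 7, 0, 4)]
  Tc := []
  Td := [((0, 4), (0, 7), 6), ((0, 4), (0, 9), 7), ((0, 4), (6, 1), 1), ((0, 4), (6, 5), 2), ((1,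
    3), (1, 5), 2), ((1, 3), (1, 6), 0), ((1, 3), (4, 3), 5), ((1, 3), (4, 7), 6), ((3, 1),
    (2, 3), 5), ((3, 1), (2, 5), 2), ((4, 0), (8, 5), 2), ((4, 0), (8, 9), 7)]
  G := [[0, 0, 0, 0xa8246428a824d4a82464286428d642a82c19c,
    0x8824c8249c6a2415c6a24846a2862289cc], [0, 0, 0, 0,
    0x8888c2884294c6a44c6a84a46a4c6a8c46a883c6ac6ac41da], [0,
    0x11c11c64811c11ca8411c11cc811c11cc8ce2, 0x11628411a2411624c511a2488c,
    0x182464181824d4a82414286428d16c2819c, 0xc1a24871a2816a2891ba241d4], [0, 0,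
    0xc6a148ca618411c116c82d2, 0, 0xc6a148c6a14216a16ac81d2]]

noncomputable def n1863 : Ent := ⟨e1863, noF, [], [], [(16, 14, [1580095832788404724998799751142926758855362888449624481876426379265, 0])]⟩

def c1863 : PLift (Cov.check n1863.C.D v1863 = true) := ⟨by decide +kernel⟩

def b1863 : PLift (entF (fidx ts) 400 1863 n1863 = true) := ⟨by decide +kernel⟩

theorem g1863 : GoodF (fidx ts) 400 1863 := GoodF.ofV v1863 n1863 c1863.down b1863.down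

/-- 4846564:1591 -/
noncomputable def e1864 : SCfg where
  D := {
    a := 7
    L := 11
    kp := 8
    inn := [(0, 1), (0, 3), (0, 4), (1, 0), (1, 2), (1, 3), (1, 4), (2, 1), (3, 0), (3, 1), (3, 5), (4,
      0), (4, 1), (5, 3), (5, 6), (6, 5)]
    mix := [(0, 0), (1, 1), (1, 2), (1, 3), (1, 4), (2, 1), (2, 2), (2, 5), (3, 0), (3, 1), (3, 6), (4,
      0), (4, 4), (4, 7), (5, 0), (5, 6), (5, 8), (5, 9), (6, 0), (6, 8), (6, 10)]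
    cl := [0, 1, 2, 4, 1, 5, 0, 6, 3, 7, 8]
    chq := [(0, 3), (3, 0), (4, 5), (5, 4)]
    rng := [(0, 7), (0, 10), (1, 5), (1, 6), (2, 3), (2, 5), (3, 2), (3, 4), (4, 3), (4, 7), (5, 1),
      (5, 2), (6, 1), (6, 9), (7, 0), (7, 4), (8, 9), (8, 10), (9, 6), (9, 8), (10, 0), (10, 8)]
    lev := [] }
  links := [[1, 4, 7, 3], [4, 0, 3, 8, 2, 9, 10, 11], [9, 1, 8, 12], [8, 1, 0, 7, 5, 13], [7, 0, 1, 11,
    14], [13, 3, 7, 6, 15, 16], [15, 5, 7, 17]]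
  P := {
    a := 7
    N := 18
    nb := [154, 3869, 4866, 8611, 18563, 106696, 164000, 147577, 12302, 5126, 2562, 17426, 772, 65832,
      2192, 196704, 40992, 32960]
    tri := [(0, 1, 3), (0, 1, 4), (0, 3, 7), (0, 4, 7), (1, 2, 8), (1, 2, 9), (1, 3, 8), (1, 4, 11),
      (1, 9, 10), (1, 10, 11), (2, 8, 12), (2, 9, 12), (3, 5, 7), (3, 5, 13), (3, 8, 13), (4, 7,
      14), (4, 11, 14), (5, 6, 7), (5, 6, 15), (5, 13, 16), (5, 15, 16), (6, 7, 17), (6, 15, 17)]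
    fin := [0, 1, 1, 0, 0, 5, 5, 5, 0, 9, 10, 0, 1, 5, 14, 15, 16, 17]
    chd := [(5, 15), (10, 1)]
    steps := [(0, 3), (0, 4), (0, 8), (0, 11), (1, 2), (1, 12), (5, 6), (5, 7), (5, 13)] }
  rep := [5, 0, 9, 15, 10, 1, 14, 16, 17]

noncomputable def v1864 : Cov.CovD where
  P := 3
  N := 6
  pl := [2, 7, 9, 10]
  lev := [⟨[], [], [], [], [(0, 0, [3])]⟩,
    ⟨[], [(0, 0), (0, 1), (0, 4)], [(1, 1), (1, 4)], [2], [(1, 1, []), (3, 4, [5]), (4, 1,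
      [])]⟩,
    ⟨[(0, 1)], [(1, 1), (1, 4), (1, 5)], [(1, 5)], [2], [(1, 1, []), (5, 5, [4])]⟩,
    ⟨[(0, 1), (1, 2)], [(0, 0), (0, 1), (1, 0), (1, 1), (1, 4), (2, 1)], [(0, 0), (0, 1)],
      [], [(0, 0, [3]), (1, 1, []), (6, 0, [3])]⟩,
    ⟨[(0, 1), (0, 3), (1, 2), (1, 3)], [(0, 0), (0, 1), (1, 0), (1, 1), (1, 4), (3, 0)],
      [(0, 1)], [6], [(0, 0, [3]), (4, 1, [])]⟩,
    ⟨[(0, 3), (1, 3)], [(0, 0), (3, 0), (3, 1), (3, 3), (4, 0)], [(0, 0), (0, 3)], [7],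
      [(0, 0, [3]), (6, 0, [3]), (8, 3, [0])]⟩,
    ⟨[(3, 5)], [(0, 0), (3, 0), (4, 0), (5, 0), (5, 3)], [(0, 3)], [8], [(0, 0, [3]), (8,
      3, [0])]⟩]
  Ta := [((0, 7), 0, 6), ((0, 10), 0, 8), ((1, 5), 1, 5), ((1, 6), 1, 0), ((4, 3), 1, 4), ((4,
    7), 1, 6), ((6, 1), 0, 1), ((6, 9), 0, 7)]
  Tb := [((0, 7, 10), 0, 6, 8), ((1, 5, 6), 1, 5, 0), ((2, 3, 5), 2, 4, 5), ((3, 2, 4), 4, 2, 1),
    ((4, 3, 7), 1, 4, 6), ((5, 1, 2), 5, 1, 2), ((6, 1, 9), 0, 1, 7), ((7, 0, 4), 6, 0, 1),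
    ((8, 9, 10), 3, 7, 8), ((9, 6, 8), 7, 0, 3), ((10, 0, 8), 8, 0, 3)]
  Tc := []
  Td := [((0, 3), (0, 7), 6), ((0, 3), (0, 10), 8), ((0, 3), (6, 1), 1), ((0, 3), (6, 9), 7),
    ((3, 0), (8, 9), 7), ((3, 0), (8, 10), 8), ((4, 5), (3, 2), 2), ((4, 5), (3, 4), 1), ((5,
    4), (5, 1), 1), ((5, 4), (5, 2), 2)]
  G := [[0, 0, 0xe82484ee62e82c4ee6288cc, 0xe42eea2c1e42eea2c894, 0xe42eea2c1e42eea2c894], [0,
    0, 0xe4e8c2ee64eea8ca4e4e8c2ee64eea8c68c, 0x448218e44eaeeeeacc1e46eeeceea88cc896,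
    0xe24eea8e4eecce18842e46eeeceea8ca94], [0x111e111ea22111e111ec88a4,
    0x111e111ec44111e111e688c2, 0x539e2441d62e82c8c8, 0x1e62e81c117be28894,
    0xe93e2411bee24898], [0, 0, 0x1414eead421818ee6d82c2, 0xe21eec1a84eea1e41648c,
    0xe41eea1c2359e359ec8292]]

noncomputable def n1864 : Ent := ⟨e1864, noF, [], [], [(17, 14, [6903326468334360900303599070699561856668565975414084080169086031781889, 0]), (16, 12, [7334685537875751142568901549633128948459063966345724013249176435716097, 0])]⟩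

def c1864 : PLift (Cov.check n1864.C.D v1864 = true) := ⟨by decide +kernel⟩

def b1864 : PLift (entF (fidx ts) 400 1864 n1864 = true) := ⟨by decide +kernel⟩

theorem g1864 : GoodF (fidx ts) 400 1864 := GoodF.ofV v1864 n1864 c1864.down b1864.down

/-- 4846564:1592/2 -/
noncomputable def e1865 : SCfg where
  D := {
    a := 7
    L := 9
    kp := 6
    inn := [(0, 1), (0, 3), (0, 4), (1, 0), (1, 2), (1, 3), (1, 4), (2, 1), (3, 0), (3, 1), (3, 5), (4,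
      0), (4, 1), (5, 3), (5, 6), (6, 5)]
    mix := [(0, 0), (1, 1), (1, 2), (1, 3), (1, 4), (2, 1), (2, 2), (2, 5), (3, 0), (3, 1), (3, 6), (4,
      0), (4, 4), (4, 7), (5, 0), (5, 6), (5, 7), (5, 8), (6, 5), (6, 6), (6, 8)]
    cl := [0, 1, 4, 6, 1, 2, 0, 5, 3]
    chq := [(0, 3), (2, 6), (3, 0), (6, 2)]
    rng := [(0, 7), (1, 5), (1, 6), (2, 3), (2, 5), (3, 2), (3, 4), (4, 3), (4, 7), (5, 1), (5, 2), (5,
      6), (5, 8), (6, 1), (6, 5), (7, 0), (7, 4), (7, 8), (8, 5), (8, 7)]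
    lev := [] }
  links := [[1, 4, 7, 3], [4, 0, 3, 8, 2, 9, 10, 11], [9, 1, 8, 12], [8, 1, 0, 7, 5, 13], [7, 0, 1, 11,
    14], [13, 3, 7, 14, 15, 6], [13, 5, 15, 12]]
  P := {
    a := 7
    N := 16
    nb := [154, 3869, 4866, 8611, 18563, 57544, 45088, 16441, 12302, 5126, 2562, 17426, 41796, 4456,
      34992, 20576]
    tri := [(0, 1, 3), (0, 1, 4), (0, 3, 7), (0, 4, 7), (1, 2, 8), (1, 2, 9), (1, 3, 8), (1, 4, 11),
      (1, 9, 10), (1, 10, 11), (2, 8, 12), (2, 9, 12), (3, 5, 7), (3, 5, 13), (3, 8, 13), (4, 7,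
      14), (4, 11, 14), (5, 6, 13), (5, 6, 15), (5, 7, 14), (5, 14, 15), (6, 12, 13), (6, 12, 15)]
    fin := [0, 1, 1, 0, 0, 5, 5, 5, 0, 9, 10, 0, 1, 5, 14, 15]
    chd := [(5, 15), (10, 1)]
    steps := [(0, 3), (0, 4), (0, 8), (0, 11), (1, 2), (1, 12), (5, 6), (5, 7), (5, 13)] }
  rep := [5, 0, 1, 15, 9, 14, 10]

noncomputable def v1865 : Cov.CovD where
  P := 3
  N := 4
  pl := [2, 7]
  lev := [⟨[], [], [], [], [(0, 0, [3])]⟩,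
    ⟨[], [(0, 0), (0, 1), (0, 6)], [(1, 1), (1, 6)], [4], [(1, 1, []), (3, 6, [2]), (4, 1,
      [])]⟩,
    ⟨[(0, 1)], [(1, 1), (1, 2), (1, 6)], [(1, 2)], [4], [(1, 1, []), (5, 2, [6])]⟩,
    ⟨[(0, 1), (1, 2)], [(0, 0), (0, 1), (1, 0), (1, 1), (1, 6), (2, 1)], [(0, 0), (0, 1)],
      [], [(0, 0, [3]), (1, 1, []), (6, 0, [3])]⟩,
    ⟨[(0, 1), (0, 3), (1, 2), (1, 3)], [(0, 0), (0, 1), (1, 0), (1, 1), (1, 6), (3, 0)],
      [(0, 1)], [5], [(0, 0, [3]), (4, 1, [])]⟩,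
    ⟨[(0, 3), (1, 3)], [(0, 0), (3, 0), (3, 1), (3, 3), (4, 0)], [(0, 0), (0, 3)], [5],
      [(0, 0, [3]), (6, 0, [3]), (8, 3, [0])]⟩,
    ⟨[(3, 5)], [(2, 2), (3, 0), (5, 0), (5, 2), (5, 3)], [(0, 2), (0, 3), (2, 3)], [], [(5,
      2, [6]), (6, 0, [3]), (8, 3, [0])]⟩]
  Ta := [((0, 7), 0, 5), ((1, 5), 1, 2), ((1, 6), 1, 0), ((4, 3), 1, 6), ((4, 7), 1, 5), ((6, 1),
    0, 1), ((6, 5), 0, 2)]
  Tb := [((1, 5, 6), 1, 2, 0), ((2, 3, 5), 4, 6, 2), ((3, 2, 4), 6, 4, 1), ((4, 3, 7), 1, 6, 5),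
    ((5, 1, 2), 2, 1, 4), ((5, 1, 6), 2, 1, 0), ((5, 1, 8), 2, 1, 3), ((5, 2, 6), 2, 4, 0),
    ((5, 2, 8), 2, 4, 3), ((5, 6, 8), 2, 0, 3), ((6, 1, 5), 0, 1, 2), ((7, 0, 4), 5, 0, 1),
    ((7, 0, 8), 5, 0, 3), ((7, 4, 8), 5, 1, 3), ((8, 5, 7), 3, 2, 5)]
  Tc := []
  Td := [((0, 3), (0, 7), 5), ((0, 3), (6, 1), 1), ((0, 3), (6, 5), 2), ((2, 6), (5, 1), 1), ((2,
    6), (5, 2), 4), ((2, 6), (5, 6), 0), ((2, 6), (5, 8), 3), ((3, 0), (8, 5), 2), ((3, 0),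
    (8, 7), 5), ((6, 2), (3, 2), 4), ((6, 2), (3, 4), 1)]
  G := [[0, 0, 0, 0x52284452248c22419c, 0x1262188c8262182c9812e241512a24142898c], [0, 0, 0, 0,
    0x9164482a84912aa26c8281aa26c41d2], [0, 0x84cc262884cc2a24486484a8c486484a8cce1,
    0x4442a6884482a2cc14, 0xc22844c2148c22819c, 0x8261881c8262888c9882e2415882e24889], [0, 0,
    0x426482a8c62a486c8614, 0, 0x8a2e148a2618a261881caa44882a843d2]]

noncomputable def n1865 : Ent := ⟨e1865, noF, [], [], []⟩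

def c1865 : PLift (Cov.check n1865.C.D v1865 = true) := ⟨by decide +kernel⟩

def b1865 : PLift (entF (fidx ts) 400 1865 n1865 = true) := ⟨by decide +kernel⟩

theorem g1865 : GoodF (fidx ts) 400 1865 := GoodF.ofV v1865 n1865 c1865.down b1865.down

/-- 4846564:1592/1 -/
noncomputable def e1866 : SCfg where
  D := {
    a := 7
    L := 10
    kp := 7
    inn := [(0, 1), (0, 3), (0, 4), (1, 0), (1, 2), (1, 3), (1, 4), (2, 1), (3, 0), (3, 1), (3, 5), (4,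
      0), (4, 1), (5, 3), (5, 6), (6, 5)]
    mix := [(0, 0), (1, 1), (1, 2), (1, 3), (1, 4), (2, 1), (2, 2), (2, 5), (3, 0), (3, 1), (3, 6), (4,
      0), (4, 4), (4, 7), (5, 0), (5, 6), (5, 7), (5, 8), (6, 6), (6, 8), (6, 9)]
    cl := [0, 1, 2, 6, 1, 7, 0, 3, 4, 5]
    chq := [(1, 2), (2, 1), (3, 5), (5, 3)]
    rng := [(0, 7), (1, 5), (1, 6), (2, 3), (2, 5), (3, 2), (3, 4), (4, 3), (4, 7), (5, 1), (5, 2), (6,
      1), (6, 9), (7, 0), (7, 4), (7, 8), (8, 7), (8, 9), (9, 6), (9, 8)]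
    lev := [] }
  links := [[1, 4, 7, 3], [4, 0, 3, 8, 2, 9, 10, 11], [9, 1, 8, 12], [8, 1, 0, 7, 5, 13], [7, 0, 1, 11,
    14], [13, 3, 7, 14, 15, 6], [13, 5, 15, 16]]
  P := {
    a := 7
    N := 17
    nb := [154, 3869, 4866, 8611, 18563, 57544, 106528, 16441, 12302, 5126, 2562, 17426, 772, 65896,
      34992, 82016, 41024]
    tri := [(0, 1, 3), (0, 1, 4), (0, 3, 7), (0, 4, 7), (1, 2, 8), (1, 2, 9), (1, 3, 8), (1, 4, 11),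
      (1, 9, 10), (1, 10, 11), (2, 8, 12), (2, 9, 12), (3, 5, 7), (3, 5, 13), (3, 8, 13), (4, 7,
      14), (4, 11, 14), (5, 6, 13), (5, 6, 15), (5, 7, 14), (5, 14, 15), (6, 13, 16), (6, 15, 16)]
    fin := [0, 1, 1, 0, 0, 5, 5, 0, 1, 9, 10, 1, 12, 0, 5, 15, 16]
    chd := [(1, 9), (5, 16)]
    steps := [(0, 3), (0, 4), (0, 7), (0, 13), (1, 2), (1, 8), (1, 11), (5, 6), (5, 14)] }
  rep := [0, 1, 9, 5, 15, 16, 10, 12]

noncomputable def v1866 : Cov.CovD where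
  P := 3
  N := 5
  pl := [3, 5, 8]
  lev := [⟨[], [], [], [], [(0, 0, [])]⟩,
    ⟨[], [(0, 0), (0, 1), (0, 2)], [(1, 1), (1, 2)], [6], [(1, 1, [2]), (2, 2, [1]), (4, 1,
      [2])]⟩,
    ⟨[(0, 1)], [(1, 1), (1, 2)], [(1, 2)], [7], [(1, 1, [2]), (2, 2, [1])]⟩,
    ⟨[(0, 1), (1, 2)], [(0, 0), (0, 1), (1, 0), (1, 1), (1, 2), (2, 1)], [(0, 0), (0, 1)],
      [], [(0, 0, []), (1, 1, [2]), (6, 0, [])]⟩,
    ⟨[(0, 1), (0, 3), (1, 2), (1, 3)], [(0, 0), (0, 1), (0, 3), (1, 0), (1, 1), (1, 2), (1,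
      3), (3, 0)], [(0, 1), (0, 3), (1, 3)], [], [(0, 0, []), (4, 1, [2]), (7, 3, [5])]⟩,
    ⟨[(0, 3), (1, 3)], [(0, 0), (3, 0), (3, 1), (3, 3), (4, 0), (4, 3)], [(0, 0), (0, 3)],
      [4], [(0, 0, []), (6, 0, []), (7, 3, [5])]⟩,
    ⟨[(3, 5)], [(3, 0), (5, 0), (5, 3), (5, 5)], [(0, 5)], [4], [(6, 0, []), (9, 5, [3])]⟩]
  Ta := [((0, 7), 0, 3), ((1, 5), 1, 7), ((1, 6), 1, 0), ((4, 3), 1, 6), ((4, 7), 1, 3), ((6, 1),
    0, 1), ((6, 9), 0, 5)]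
  Tb := [((1, 5, 6), 1, 7, 0), ((2, 3, 5), 2, 6, 7), ((3, 2, 4), 6, 2, 1), ((4, 3, 7), 1, 6, 3),
    ((5, 1, 2), 7, 1, 2), ((6, 1, 9), 0, 1, 5), ((7, 0, 4), 3, 0, 1), ((7, 0, 8), 3, 0, 4),
    ((7, 4, 8), 3, 1, 4), ((8, 7, 9), 4, 3, 5), ((9, 6, 8), 5, 0, 4)]
  Tc := []
  Td := [((1, 2), (1, 5), 7), ((1, 2), (1, 6), 0), ((1, 2), (4, 3), 6), ((1, 2), (4, 7), 3), ((2,
    1), (2, 3), 6), ((2, 1), (2, 5), 7), ((3, 5), (7, 0), 0), ((3, 5), (7, 4), 1), ((3, 5),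
    (7, 8), 4), ((5, 3), (9, 6), 0), ((5, 3), (9, 8), 4)]
  G := [[0, 0, 0x816284441a2414249a2cc417e288c8444848884ce, 0x41a284264481e28841a284261d4,
    0x481e241185e2411ce249941a2488844488e], [0, 0, 0x916461a8c214ae86c82c2,
    0x1762488a4419e281481e288d4, 0x186461a8c214aa16c4292], [0,
    0x6ac4ea64e2c8e6a4c2ec4ea68e2cac6a2cc1, 0x48ee2448ee24c8424ea2c488e6a8cc1,
    0xe2148c16148ee28848ee284d4, 0x8e62482c48ee249148ee1448ee1498a], [0, 0,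
    0x6ace142a446ca1c2c8, 0xe2148c1a448ee18148ee288d4, 0x6ace142e4aac6c4298]]

noncomputable def n1866 : Ent := ⟨e1866, noF, [], [], [(16, 12, [1580044410777118419473445963789405229760683414688298388994431160321, 0])]⟩

def c1866 : PLift (Cov.check n1866.C.D v1866 = true) := ⟨by decide +kernel⟩

def b1866 : PLift (entF (fidx ts) 400 1866 n1866 = true) := ⟨by decide +kernel⟩

theorem g1866 : GoodF (fidx ts) 400 1866 := GoodF.ofV v1866 n1866 c1866.down b1866.down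

/-- 4846564:1592/3 -/
noncomputable def e1867 : SCfg where
  D := {
    a := 7
    L := 10
    kp := 7
    inn := [(0, 1), (0, 3), (0, 4), (1, 0), (1, 2), (1, 3), (1, 4), (2, 1), (3, 0), (3, 1), (3, 5), (4,
      0), (4, 1), (5, 3), (5, 6), (6, 5)]
    mix := [(0, 0), (1, 1), (1, 2), (1, 3), (1, 4), (2, 1), (2, 2), (2, 5), (3, 0), (3, 1), (3, 6), (4,
      0), (4, 4), (4, 7), (5, 0), (5, 6), (5, 8), (5, 9), (6, 5), (6, 6), (6, 9)]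
    cl := [0, 1, 4, 5, 1, 2, 0, 6, 7, 3]
    chq := [(0, 3), (2, 5), (3, 0), (5, 2)]
    rng := [(0, 7), (0, 8), (1, 5), (1, 6), (2, 3), (2, 5), (3, 2), (3, 4), (4, 3), (4, 7), (5, 1), (5,
      2), (5, 6), (5, 9), (6, 1), (6, 5), (7, 0), (7, 4), (8, 0), (8, 9), (9, 5), (9, 8)]
    lev := [] }
  links := [[1, 4, 7, 3], [4, 0, 3, 8, 2, 9, 10, 11], [9, 1, 8, 12], [8, 1, 0, 7, 5, 13], [7, 0, 1, 11,
    14], [13, 3, 7, 15, 16, 6], [13, 5, 16, 12]]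
  P := {
    a := 7
    N := 17
    nb := [154, 3869, 4866, 8611, 18563, 106696, 77856, 49209, 12302, 5126, 2562, 17426, 74564, 4456,
      2192, 65696, 36960]
    tri := [(0, 1, 3), (0, 1, 4), (0, 3, 7), (0, 4, 7), (1, 2, 8), (1, 2, 9), (1, 3, 8), (1, 4, 11),
      (1, 9, 10), (1, 10, 11), (2, 8, 12), (2, 9, 12), (3, 5, 7), (3, 5, 13), (3, 8, 13), (4, 7,
      14), (4, 11, 14), (5, 6, 13), (5, 6, 16), (5, 7, 15), (5, 15, 16), (6, 12, 13), (6, 12, 16)]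
    fin := [0, 1, 1, 0, 0, 5, 5, 5, 0, 9, 10, 0, 1, 5, 14, 15, 16]
    chd := [(5, 16), (10, 1)]
    steps := [(0, 3), (0, 4), (0, 8), (0, 11), (1, 2), (1, 12), (5, 6), (5, 7), (5, 13)] }
  rep := [5, 0, 1, 16, 9, 10, 14, 15]

noncomputable def v1867 : Cov.CovD where
  P := 3
  N := 5
  pl := [2, 7, 8]
  lev := [⟨[], [], [], [], [(0, 0, [3])]⟩,
    ⟨[], [(0, 0), (0, 1), (0, 5)], [(1, 1), (1, 5)], [4], [(1, 1, []), (3, 5, [2]), (4, 1,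
      [])]⟩,
    ⟨[(0, 1)], [(1, 1), (1, 2), (1, 5)], [(1, 2)], [4], [(1, 1, []), (5, 2, [5])]⟩,
    ⟨[(0, 1), (1, 2)], [(0, 0), (0, 1), (1, 0), (1, 1), (1, 5), (2, 1)], [(0, 0), (0, 1)],
      [], [(0, 0, [3]), (1, 1, []), (6, 0, [3])]⟩,
    ⟨[(0, 1), (0, 3), (1, 2), (1, 3)], [(0, 0), (0, 1), (1, 0), (1, 1), (1, 5), (3, 0)],
      [(0, 1)], [6], [(0, 0, [3]), (4, 1, [])]⟩,
    ⟨[(0, 3), (1, 3)], [(0, 0), (3, 0), (3, 1), (3, 3), (4, 0)], [(0, 0), (0, 3)], [7],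
      [(0, 0, [3]), (6, 0, [3]), (9, 3, [0])]⟩,
    ⟨[(3, 5)], [(2, 2), (3, 0), (5, 0), (5, 2), (5, 3)], [(0, 2), (0, 3), (2, 3)], [], [(5,
      2, [5]), (6, 0, [3]), (9, 3, [0])]⟩]
  Ta := [((0, 7), 0, 6), ((0, 8), 0, 7), ((1, 5), 1, 2), ((1, 6), 1, 0), ((4, 3), 1, 5), ((4, 7),
    1, 6), ((6, 1), 0, 1), ((6, 5), 0, 2)]
  Tb := [((0, 7, 8), 0, 6, 7), ((1, 5, 6), 1, 2, 0), ((2, 3, 5), 4, 5, 2), ((3, 2, 4), 5, 4, 1),
    ((4, 3, 7), 1, 5, 6), ((5, 1, 2), 2, 1, 4), ((5, 1, 6), 2, 1, 0), ((5, 1, 9), 2, 1, 3),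
    ((5, 2, 6), 2, 4, 0), ((5, 2, 9), 2, 4, 3), ((5, 6, 9), 2, 0, 3), ((6, 1, 5), 0, 1, 2),
    ((7, 0, 4), 6, 0, 1), ((8, 0, 9), 7, 0, 3), ((9, 5, 8), 3, 2, 7)]
  Tc := []
  Td := [((0, 3), (0, 7), 6), ((0, 3), (0, 8), 7), ((0, 3), (6, 1), 1), ((0, 3), (6, 5), 2), ((2,
    5), (5, 1), 1), ((2, 5), (5, 2), 4), ((2, 5), (5, 6), 0), ((2, 5), (5, 9), 3), ((3, 0),
    (9, 5), 2), ((3, 0), (9, 8), 7), ((5, 2), (3, 2), 4), ((5, 2), (3, 4), 1)]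
  G := [[0, 0, 0, 0x1824456281824d481a2444284428d149e2819c,
    0x1262882c1262882c9482a2414289192e2819c], [0, 0, 0, 0,
    0x812e44812e849312e132ec821a2e812ec41d2], [0,
    0x444468ca8cacc8ca8cac4444c6c284ce84ce62884ce84cea24c9, 0x642e28642e28c14,
    0x88244c6188814d4c62882c158ca2444284428d89, 0xa262882c118a2e248a262882ca262882c9c9], [0,
    0, 0x22642ec84c8a642e642ec8614, 0, 0x8a2e148a4182a1c28a2e8a2ec41d2]]

noncomputable def n1867 : Ent := ⟨e1867, noF, [], [], [(15, 14, [1685382413448253767852309107433119732572617628602273068445372551169, 0])]⟩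

def c1867 : PLift (Cov.check n1867.C.D v1867 = true) := ⟨by decide +kernel⟩

def b1867 : PLift (entF (fidx ts) 400 1867 n1867 = true) := ⟨by decide +kernel⟩

theorem g1867 : GoodF (fidx ts) 400 1867 := GoodF.ofV v1867 n1867 c1867.down b1867.down

/-- 4846564:1592 -/
noncomputable def e1868 : SCfg where
  D := {
    a := 7
    L := 11
    kp := 8
    inn := [(0, 1), (0, 3), (0, 4), (1, 0), (1, 2), (1, 3), (1, 4), (2, 1), (3, 0), (3, 1), (3, 5), (4,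
      0), (4, 1), (5, 3), (5, 6), (6, 5)]
    mix := [(0, 0), (1, 1), (1, 2), (1, 3), (1, 4), (2, 1), (2, 2), (2, 5), (3, 0), (3, 1), (3, 6), (4,
      0), (4, 4), (4, 7), (5, 0), (5, 6), (5, 8), (5, 9), (6, 6), (6, 9), (6, 10)]
    cl := [0, 1, 2, 4, 1, 5, 0, 6, 7, 3, 8]
    chq := [(0, 3), (3, 0), (4, 5), (5, 4)]
    rng := [(0, 7), (0, 8), (1, 5), (1, 6), (2, 3), (2, 5), (3, 2), (3, 4), (4, 3), (4, 7), (5, 1), (5,
      2), (6, 1), (6, 10), (7, 0), (7, 4), (8, 0), (8, 9), (9, 8), (9, 10), (10, 6), (10, 9)]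
    lev := [] }
  links := [[1, 4, 7, 3], [4, 0, 3, 8, 2, 9, 10, 11], [9, 1, 8, 12], [8, 1, 0, 7, 5, 13], [7, 0, 1, 11,
    14], [13, 3, 7, 15, 16, 6], [13, 5, 16, 17]]
  P := {
    a := 7
    N := 18
    nb := [154, 3869, 4866, 8611, 18563, 106696, 204832, 49209, 12302, 5126, 2562, 17426, 772, 131432,
      2192, 65696, 163936, 73792]
    tri := [(0, 1, 3), (0, 1, 4), (0, 3, 7), (0, 4, 7), (1, 2, 8), (1, 2, 9), (1, 3, 8), (1, 4, 11),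
      (1, 9, 10), (1, 10, 11), (2, 8, 12), (2, 9, 12), (3, 5, 7), (3, 5, 13), (3, 8, 13), (4, 7,
      14), (4, 11, 14), (5, 6, 13), (5, 6, 16), (5, 7, 15), (5, 15, 16), (6, 13, 17), (6, 16, 17)]
    fin := [0, 1, 1, 0, 0, 5, 5, 5, 0, 9, 10, 0, 1, 5, 14, 15, 16, 17]
    chd := [(5, 16), (10, 1)]
    steps := [(0, 3), (0, 4), (0, 8), (0, 11), (1, 2), (1, 12), (5, 6), (5, 7), (5, 13)] }
  rep := [5, 0, 9, 16, 10, 1, 14, 15, 17]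

noncomputable def v1868 : Cov.CovD where
  P := 3
  N := 6
  pl := [2, 7, 8, 10]
  lev := [⟨[], [], [], [], [(0, 0, [3])]⟩,
    ⟨[], [(0, 0), (0, 1), (0, 4)], [(1, 1), (1, 4)], [2], [(1, 1, []), (3, 4, [5]), (4, 1,
      [])]⟩,
    ⟨[(0, 1)], [(1, 1), (1, 4), (1, 5)], [(1, 5)], [2], [(1, 1, []), (5, 5, [4])]⟩,
    ⟨[(0, 1), (1, 2)], [(0, 0), (0, 1), (1, 0), (1, 1), (1, 4), (2, 1)], [(0, 0), (0, 1)],
      [], [(0, 0, [3]), (1, 1, []), (6, 0, [3])]⟩,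
    ⟨[(0, 1), (0, 3), (1, 2), (1, 3)], [(0, 0), (0, 1), (1, 0), (1, 1), (1, 4), (3, 0)],
      [(0, 1)], [6], [(0, 0, [3]), (4, 1, [])]⟩,
    ⟨[(0, 3), (1, 3)], [(0, 0), (3, 0), (3, 1), (3, 3), (4, 0)], [(0, 0), (0, 3)], [7],
      [(0, 0, [3]), (6, 0, [3]), (9, 3, [0])]⟩,
    ⟨[(3, 5)], [(3, 0), (5, 0), (5, 3)], [(0, 3)], [8], [(6, 0, [3]), (9, 3, [0])]⟩]
  Ta := [((0, 7), 0, 6), ((0, 8), 0, 7), ((1, 5), 1, 5), ((1, 6), 1, 0), ((4, 3), 1, 4), ((4, 7),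
    1, 6), ((6, 1), 0, 1), ((6, 10), 0, 8)]
  Tb := [((0, 7, 8), 0, 6, 7), ((1, 5, 6), 1, 5, 0), ((2, 3, 5), 2, 4, 5), ((3, 2, 4), 4, 2, 1),
    ((4, 3, 7), 1, 4, 6), ((5, 1, 2), 5, 1, 2), ((6, 1, 10), 0, 1, 8), ((7, 0, 4), 6, 0, 1),
    ((8, 0, 9), 7, 0, 3), ((9, 8, 10), 3, 7, 8), ((10, 6, 9), 8, 0, 3)]
  Tc := []
  Td := [((0, 3), (0, 7), 6), ((0, 3), (0, 8), 7), ((0, 3), (6, 1), 1), ((0, 3), (6, 10), 8),
    ((3, 0), (9, 8), 7), ((3, 0), (9, 10), 8), ((4, 5), (3, 2), 2), ((4, 5), (3, 4), 1), ((5,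
    4), (5, 1), 1), ((5, 4), (5, 2), 2)]
  G := [[0, 0, 0x395e2449562382c8c8, 0x34295a2c4359e288c4, 0x395e241142eba2c898], [0, 0,
    0x935e593ec4217be593ec82c2, 0x359e375ec81935e593ec4452, 0xd1be935ec425e3e717ec8292],
    [0xee6ee66e8e8aa2eeaeaeeae444c6468, 0xeeae2ae4eecc64ee6ee6ae8e8ca8c2,
    0xee62e82c46eee2882c8c1, 0xee61e82c1e42eea2c458, 0xee61e81c1e42eea2c894], [0, 0,
    0xe41eea1c2e812ee618ac4, 0xe41eea1c4ee61e81c8c2, 0xc41e2ee1c2ee6e4ce8eeacc292]]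

noncomputable def n1868 : Ent := ⟨e1868, noF, [], [], [(15, 14, [7334790875878422277917280412776772662961875900559637987928627377119233, 0]), (17, 12, [6903326391201342438349770174129673216027896805894258472290640855347201, 0])]⟩

def c1868 : PLift (Cov.check n1868.C.D v1868 = true) := ⟨by decide +kernel⟩

def b1868 : PLift (entF (fidx ts) 400 1868 n1868 = true) := ⟨by decide +kernel⟩

theorem g1868 : GoodF (fidx ts) 400 1868 := GoodF.ofV v1868 n1868 c1868.down b1868.down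

/-- 4846844:1601/1 -/
noncomputable def e1869 : SCfg where
  D := {
    a := 7
    L := 10
    kp := 7
    inn := [(0, 1), (0, 3), (1, 0), (1, 2), (1, 3), (1, 4), (1, 5), (2, 1), (2, 4), (3, 0), (3, 1), (3,
      4), (4, 1), (4, 2), (4, 3), (4, 6), (5, 1), (6, 4)]
    mix := [(0, 0), (0, 1), (1, 0), (1, 2), (1, 3), (2, 2), (2, 4), (3, 1), (3, 5), (3, 6), (4, 4), (4,
      6), (4, 7), (4, 8), (5, 2), (5, 3), (5, 9), (6, 7), (6, 8), (6, 9)]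
    cl := [0, 1, 0, 2, 3, 7, 3, 5, 6, 4]
    chq := [(0, 7), (3, 4), (4, 3), (7, 0)]
    rng := [(0, 1), (0, 3), (1, 0), (1, 5), (2, 4), (2, 9), (3, 0), (3, 9), (4, 2), (4, 8), (5, 1), (5,
      6), (6, 5), (6, 7), (7, 6), (7, 9), (8, 4), (8, 9), (9, 2), (9, 3), (9, 7), (9, 8)]
    lev := [] }
  links := [[1, 7, 8, 3], [7, 0, 3, 4, 2, 9, 5, 10], [9, 1, 4, 11], [4, 1, 0, 8, 12, 13], [11, 2, 1, 3,
    13, 14, 6, 15], [10, 1, 9, 16], [15, 4, 14, 16]]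
  P := {
    a := 7
    N := 17
    nb := [394, 1725, 2578, 12563, 59470, 67074, 114704, 1283, 4233, 67622, 65698, 33300, 8456, 20504,
      73808, 67664, 50784]
    tri := [(0, 1, 3), (0, 1, 7), (0, 3, 8), (0, 7, 8), (1, 2, 4), (1, 2, 9), (1, 3, 4), (1, 5, 9), (1,
      5, 10), (1, 7, 10), (2, 4, 11), (2, 9, 11), (3, 4, 13), (3, 8, 12), (3, 12, 13), (4, 6, 14),
      (4, 6, 15), (4, 11, 15), (4, 13, 14), (5, 9, 16), (5, 10, 16), (6, 14, 16), (6, 15, 16)]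
    fin := [0, 0, 0, 0, 4, 0, 4, 0, 8, 0, 10, 4, 12, 4, 14, 15, 16]
    chd := [(0, 12), (4, 16)]
    steps := [(0, 1), (0, 2), (0, 3), (0, 5), (0, 7), (0, 9), (4, 6), (4, 13), (4, 11)] }
  rep := [0, 8, 10, 4, 16, 14, 15, 12]

noncomputable def v1869 : Cov.CovD where
  P := 3
  N := 5
  pl := [1, 3, 7, 8]
  lev := [⟨[], [], [], [1], [(0, 0, [7])]⟩,
    ⟨[], [(0, 0)], [(0, 0)], [2], [(0, 0, [7]), (2, 0, [7])]⟩,
    ⟨[(0, 1)], [(1, 0), (1, 3)], [(0, 3)], [], [(2, 0, [7]), (4, 3, [4])]⟩,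
    ⟨[(0, 1), (1, 2)], [(0, 0), (0, 3), (0, 7), (1, 0), (1, 3), (1, 7)], [(3, 7)], [1],
      [(5, 7, [0]), (6, 3, [4])]⟩,
    ⟨[(0, 1), (0, 3), (1, 2), (1, 3), (2, 3)], [(1, 0), (1, 3), (2, 0), (2, 3), (3, 3), (3,
      7)], [(3, 3)], [5, 6], [(4, 3, [4]), (6, 3, [4])]⟩,
    ⟨[(0, 1), (1, 2), (1, 3), (1, 4)], [(1, 0), (1, 4), (2, 0)], [(0, 4)], [2], [(2, 0,
      [7]), (9, 4, [3])]⟩,
    ⟨[(1, 4), (2, 4), (3, 4)], [(4, 3), (4, 4), (5, 4)], [], [5, 6], [(9, 4, [3])]⟩]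
  Ta := [((0, 1), 0, 1), ((0, 3), 0, 2), ((2, 4), 0, 3), ((2, 9), 0, 4), ((4, 2), 3, 0), ((4, 8),
    3, 6), ((6, 5), 3, 7), ((6, 7), 3, 5)]
  Tb := [((0, 1, 3), 0, 1, 2), ((1, 0, 5), 1, 0, 7), ((2, 4, 9), 0, 3, 4), ((3, 0, 9), 2, 0, 4),
    ((4, 2, 8), 3, 0, 6), ((5, 1, 6), 7, 1, 3), ((6, 5, 7), 3, 7, 5), ((7, 6, 9), 5, 3, 4),
    ((8, 4, 9), 6, 3, 4), ((9, 2, 3), 4, 0, 2), ((9, 2, 7), 4, 0, 5), ((9, 2, 8), 4, 0, 6),
    ((9, 3, 7), 4, 2, 5), ((9, 3, 8), 4, 2, 6), ((9, 7, 8), 4, 5, 6)]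
  Tc := []
  Td := [((0, 7), (0, 1), 1), ((0, 7), (0, 3), 2), ((0, 7), (2, 4), 3), ((0, 7), (2, 9), 4), ((3,
    4), (4, 2), 0), ((3, 4), (4, 8), 6), ((3, 4), (6, 5), 7), ((3, 4), (6, 7), 5), ((4, 3),
    (9, 2), 0), ((4, 3), (9, 3), 2), ((4, 3), (9, 7), 5), ((4, 3), (9, 8), 6), ((7, 0), (5,
    1), 1), ((7, 0), (5, 6), 3)]
  G := [[0, 0x218111b2a4c425861a1c111f4286, 0x11c1482c2a21111a1886a4a6c156c,
    0x111b1218175d4215811171419984c, 0xc111361a1c582a8c1117842c], [0,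
    0xc12c12a6188a4a111561a1c111f64a111de286, 0x18174b4ccdcaecf58881c28,
    0x111d1c135211171b1c98c8, 0x11111171b1d1c1fd828], [0, 0, 0,
    0x88e89144444134b8c69c24f1c18188892c725146444a4a8d,
    0x2221181d8ac835a11a145a429982abba22d1ca4], [0, 0, 0, 0x4441211118167cb8a5ceecfd8c8,
    0x2221411a118187aabad8ceafd4a8]]

noncomputable def n1869 : Ent := ⟨e1869, noF, [], [], []⟩

def c1869 : PLift (Cov.check n1869.C.D v1869 = true) := ⟨by decide +kernel⟩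

def b1869 : PLift (entF (fidx ts) 400 1869 n1869 = true) := ⟨by decide +kernel⟩

theorem g1869 : GoodF (fidx ts) 400 1869 := GoodF.ofV v1869 n1869 c1869.down b1869.down

/-- 4846844:1601 -/
noncomputable def e1870 : SCfg where
  D := {
    a := 7
    L := 11
    kp := 8
    inn := [(0, 1), (0, 3), (1, 0), (1, 2), (1, 3), (1, 4), (1, 5), (2, 1), (2, 4), (3, 0), (3, 1), (3,
      4), (4, 1), (4, 2), (4, 3), (4, 6), (5, 1), (6, 4)]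
    mix := [(0, 0), (0, 1), (1, 0), (1, 2), (1, 3), (2, 2), (2, 4), (3, 1), (3, 5), (3, 6), (4, 4), (4,
      6), (4, 7), (4, 8), (5, 2), (5, 3), (5, 9), (6, 7), (6, 8), (6, 10)]
    cl := [0, 1, 0, 2, 3, 6, 3, 4, 5, 8, 7]
    chq := [(0, 6), (3, 7), (6, 0), (7, 3)]
    rng := [(0, 1), (0, 3), (1, 0), (1, 5), (2, 4), (2, 9), (3, 0), (3, 9), (4, 2), (4, 8), (5, 1), (5,
      6), (6, 5), (6, 7), (7, 6), (7, 10), (8, 4), (8, 10), (9, 2), (9, 3), (10, 7), (10, 8)]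
    lev := [] }
  links := [[1, 7, 8, 3], [7, 0, 3, 4, 2, 9, 5, 10], [9, 1, 4, 11], [4, 1, 0, 8, 12, 13], [11, 2, 1, 3,
    13, 14, 6, 15], [10, 1, 9, 16], [15, 4, 14, 17]]
  P := {
    a := 7
    N := 18
    nb := [394, 1725, 2578, 12563, 59470, 67074, 180240, 1283, 4233, 67622, 65698, 33300, 8456, 20504,
      139344, 133200, 1568, 49216]
    tri := [(0, 1, 3), (0, 1, 7), (0, 3, 8), (0, 7, 8), (1, 2, 4), (1, 2, 9), (1, 3, 4), (1, 5, 9), (1,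
      5, 10), (1, 7, 10), (2, 4, 11), (2, 9, 11), (3, 4, 13), (3, 8, 12), (3, 12, 13), (4, 6, 14),
      (4, 6, 15), (4, 11, 15), (4, 13, 14), (5, 9, 16), (5, 10, 16), (6, 14, 17), (6, 15, 17)]
    fin := [0, 0, 0, 0, 4, 0, 4, 0, 8, 0, 10, 4, 12, 4, 14, 15, 16, 17]
    chd := [(0, 12), (4, 17)]
    steps := [(0, 1), (0, 2), (0, 3), (0, 5), (0, 7), (0, 9), (4, 6), (4, 13), (4, 11)] }
  rep := [0, 8, 10, 4, 14, 15, 12, 17, 16]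

noncomputable def v1870 : Cov.CovD where
  P := 3
  N := 6
  pl := [1, 3, 7, 8, 9]
  lev := [⟨[], [], [], [1], [(0, 0, [6])]⟩,
    ⟨[], [(0, 0)], [(0, 0)], [2], [(0, 0, [6]), (2, 0, [6])]⟩,
    ⟨[(0, 1)], [(1, 0), (1, 3)], [(0, 3)], [], [(2, 0, [6]), (4, 3, [7])]⟩,
    ⟨[(0, 1), (1, 2)], [(0, 0), (0, 3), (0, 6), (1, 0), (1, 3), (1, 6)], [(3, 6)], [1],
      [(5, 6, [0]), (6, 3, [7])]⟩,
    ⟨[(0, 1), (0, 3), (1, 2), (1, 3), (2, 3)], [(1, 0), (1, 3), (2, 0), (2, 3), (3, 3), (3,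
      6)], [(3, 3)], [4, 5], [(4, 3, [7]), (6, 3, [7])]⟩,
    ⟨[(0, 1), (1, 2), (1, 3), (1, 4)], [(1, 0), (2, 0)], [], [2, 8], [(2, 0, [6])]⟩,
    ⟨[(1, 4), (2, 4), (3, 4)], [(4, 3), (4, 7)], [], [4, 5], [(10, 7, [3])]⟩]
  Ta := [((0, 1), 0, 1), ((0, 3), 0, 2), ((2, 4), 0, 3), ((2, 9), 0, 8), ((4, 2), 3, 0), ((4, 8),
    3, 5), ((6, 5), 3, 6), ((6, 7), 3, 4)]
  Tb := [((0, 1, 3), 0, 1, 2), ((1, 0, 5), 1, 0, 6), ((2, 4, 9), 0, 3, 8), ((3, 0, 9), 2, 0, 8),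
    ((4, 2, 8), 3, 0, 5), ((5, 1, 6), 6, 1, 3), ((6, 5, 7), 3, 6, 4), ((7, 6, 10), 4, 3, 7),
    ((8, 4, 10), 5, 3, 7), ((9, 2, 3), 8, 0, 2), ((10, 7, 8), 7, 4, 5)]
  Tc := []
  Td := [((0, 6), (0, 1), 1), ((0, 6), (0, 3), 2), ((0, 6), (2, 4), 3), ((0, 6), (2, 9), 8), ((3,
    7), (4, 2), 0), ((3, 7), (4, 8), 5), ((3, 7), (6, 5), 6), ((3, 7), (6, 7), 4), ((6, 0),
    (5, 1), 1), ((6, 0), (5, 6), 3), ((7, 3), (10, 7), 4), ((7, 3), (10, 8), 5)]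
  G := [[0, 0xaac42161c1f1b261c1f1b8aca148246, 0x66611aa618ffcffaddce1d24,
    0xbbc411e1171e199e11d129ac4, 0x61c1f1b4a113191a1b5ffa41d28], [0,
    0xc12248a1f1561a1c1f1f61a1f1de261c1a82ca, 0x77abbaddceeaf1424, 0xc1171f1e1b9a11f145684,
    0xe11a1171f1d1e1fd824], [0, 0, 0, 0xb4414441677cb8ddceecf18ceec144a8c8cffc782c9,
    0xb2288871d8dda616e1177ab8eead9e8318ca4], [0, 0, 0, 0xa41f445222cd1c8177cb8fdceecfd8c8,
    0x72bbaddaeeaf12e11e11788d4a4]]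

noncomputable def n1870 : Ent := ⟨e1870, noF, [], [], [(17, 16, [7334685537875745012586738086077695515070955365108989538292687701331969, 0])]⟩

def c1870 : PLift (Cov.check n1870.C.D v1870 = true) := ⟨by decide +kernel⟩

def b1870 : PLift (entF (fidx ts) 400 1870 n1870 = true) := ⟨by decide +kernel⟩

theorem g1870 : GoodF (fidx ts) 400 1870 := GoodF.ofV v1870 n1870 c1870.down b1870.down

/-- 4846664:1602/1 -/
noncomputable def e1871 : SCfg where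
  D := {
    a := 7
    L := 10
    kp := 7
    inn := [(0, 1), (0, 3), (0, 4), (1, 0), (1, 2), (1, 3), (1, 4), (1, 5), (2, 1), (2, 5), (3, 0), (3,
      1), (4, 0), (4, 1), (5, 1), (5, 2), (5, 6), (6, 5)]
    mix := [(0, 0), (1, 1), (1, 2), (1, 3), (2, 1), (2, 4), (3, 0), (3, 1), (3, 5), (3, 6), (4, 0), (4,
      3), (4, 7), (4, 8), (5, 2), (5, 4), (5, 9), (6, 4), (6, 5), (6, 9)]
    cl := [0, 0, 1, 0, 3, 2, 5, 6, 7, 4]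
    chq := [(1, 2), (1, 3), (2, 1), (3, 1)]
    rng := [(0, 5), (0, 8), (1, 4), (1, 6), (2, 3), (2, 9), (3, 2), (3, 7), (4, 1), (4, 5), (5, 0), (5,
      4), (5, 6), (5, 9), (6, 1), (6, 5), (7, 3), (7, 8), (8, 0), (8, 7), (9, 2), (9, 5)]
    lev := [] }
  links := [[1, 4, 7, 3], [4, 0, 3, 8, 2, 5, 9, 10], [5, 1, 8, 11], [8, 1, 0, 7, 12, 13], [7, 0, 1, 10,
    14, 15], [9, 1, 2, 11, 6, 16], [16, 5, 11, 12]]
  P := {
    a := 7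
    N := 17
    nb := [154, 1853, 2338, 12675, 50307, 68166, 71712, 36889, 10254, 66594, 16914, 4452, 75976, 4360,
      33808, 16528, 4704]
    tri := [(0, 1, 3), (0, 1, 4), (0, 3, 7), (0, 4, 7), (1, 2, 5), (1, 2, 8), (1, 3, 8), (1, 4, 10),
      (1, 5, 9), (1, 9, 10), (2, 5, 11), (2, 8, 11), (3, 7, 12), (3, 8, 13), (3, 12, 13), (4, 7,
      15), (4, 10, 14), (4, 14, 15), (5, 6, 11), (5, 6, 16), (5, 9, 16), (6, 11, 12), (6, 12, 16)]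
    fin := [0, 0, 0, 0, 0, 5, 6, 0, 0, 5, 0, 11, 6, 13, 14, 15, 16]
    chd := [(5, 6), (5, 11)]
    steps := [(0, 1), (0, 2), (0, 3), (0, 4), (0, 7), (0, 8), (0, 10), (5, 9), (6, 12)] }
  rep := [0, 5, 6, 11, 16, 13, 14, 15]

noncomputable def v1871 : Cov.CovD where
  P := 3
  N := 5
  pl := [6, 7, 8, 9]
  lev := [⟨[], [], [], [], [(0, 0, [])]⟩,
    ⟨[], [(0, 0), (0, 1)], [(0, 0), (0, 1)], [], [(1, 0, []), (2, 1, [2, 3]), (3, 0, [])]⟩,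
    ⟨[(0, 1)], [(1, 0), (1, 1), (1, 3)], [(0, 3)], [], [(1, 0, []), (4, 3, [1])]⟩,
    ⟨[(0, 1), (1, 2)], [(0, 0), (0, 2), (1, 0), (1, 1), (1, 2), (2, 0)], [(0, 0), (0, 2)],
      [5], [(0, 0, []), (1, 0, []), (5, 2, [1])]⟩,
    ⟨[(0, 1), (0, 3), (1, 2), (1, 3)], [(0, 0), (1, 0), (1, 1), (3, 0)], [(0, 0)], [6, 7],
      [(0, 0, []), (3, 0, [])]⟩,
    ⟨[(0, 1), (1, 2), (1, 3), (1, 4)], [(1, 0), (1, 1), (1, 3), (2, 0), (2, 1), (2, 3)],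
      [(1, 3)], [4], [(2, 1, [2, 3]), (4, 3, [1])]⟩,
    ⟨[(1, 5), (2, 5)], [(2, 3), (3, 2), (5, 1), (5, 2), (5, 3)], [(2, 3)], [4], [(4, 3,
      [1]), (5, 2, [1])]⟩]
  Ta := [((0, 5), 0, 2), ((0, 8), 0, 7), ((1, 4), 0, 3), ((1, 6), 0, 5), ((3, 2), 0, 1), ((3, 7),
    0, 6)]
  Tb := [((0, 5, 8), 0, 2, 7), ((1, 4, 6), 0, 3, 5), ((2, 3, 9), 1, 0, 4), ((3, 2, 7), 0, 1, 6),
    ((4, 1, 5), 3, 0, 2), ((5, 0, 4), 2, 0, 3), ((5, 0, 6), 2, 0, 5), ((5, 0, 9), 2, 0, 4),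
    ((5, 4, 6), 2, 3, 5), ((5, 4, 9), 2, 3, 4), ((5, 6, 9), 2, 5, 4), ((6, 1, 5), 5, 0, 2),
    ((7, 3, 8), 6, 0, 7), ((8, 0, 7), 7, 0, 6), ((9, 2, 5), 4, 1, 2)]
  Tc := [(1, 2, 3)]
  Td := [((1, 2), (2, 3), 0), ((1, 2), (2, 9), 4), ((1, 3), (2, 3), 0), ((1, 3), (2, 9), 4), ((2,
    1), (5, 0), 0), ((2, 1), (5, 4), 3), ((2, 1), (5, 6), 5), ((2, 1), (5, 9), 4), ((3, 1),
    (4, 1), 0), ((3, 1), (4, 5), 2)]
  G := [[0, 0, 0xe1e1e1ee12e1e1ce242, 0xd2d2621d2821c8,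
    0x215116112a1d2a1dea242838118882c2888e82c8a346], [0, 0, 0, 0x42426244282819819819e26c8,
    0x2424c224215686821d81988e819819821dea2c1], [0,
    0x4162116111e141eec11818a188c416811ec89a1, 0, 0xd2d2d2e2184,
    0x24424246a4821d819821de821d819219ea2c1]]

noncomputable def n1871 : Ent := ⟨e1871, noF, [], [], []⟩

def c1871 : PLift (Cov.check n1871.C.D v1871 = true) := ⟨by decide +kernel⟩

def b1871 : PLift (entF (fidx ts) 400 1871 n1871 = true) := ⟨by decide +kernel⟩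

theorem g1871 : GoodF (fidx ts) 400 1871 := GoodF.ofV v1871 n1871 c1871.down b1871.down

/-- 4846664:1602/2 -/
noncomputable def e1872 : SCfg where
  D := {
    a := 7
    L := 10
    kp := 7
    inn := [(0, 1), (0, 3), (0, 4), (1, 0), (1, 2), (1, 3), (1, 4), (1, 5), (2, 1), (2, 5), (3, 0), (3,
      1), (4, 0), (4, 1), (5, 1), (5, 2), (5, 6), (6, 5)]
    mix := [(0, 0), (1, 1), (1, 2), (1, 3), (2, 1), (2, 4), (3, 0), (3, 1), (3, 5), (3, 6), (4, 0), (4,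
      3), (4, 7), (4, 8), (5, 2), (5, 4), (5, 9), (6, 4), (6, 6), (6, 9)]
    cl := [0, 0, 1, 0, 3, 5, 2, 6, 7, 4]
    chq := [(1, 2), (1, 3), (2, 1), (3, 1)]
    rng := [(0, 5), (0, 8), (1, 4), (1, 6), (2, 3), (2, 9), (3, 2), (3, 7), (4, 1), (4, 6), (5, 0), (5,
      6), (6, 1), (6, 4), (6, 5), (6, 9), (7, 3), (7, 8), (8, 0), (8, 7), (9, 2), (9, 6)]
    lev := [] }
  links := [[1, 4, 7, 3], [4, 0, 3, 8, 2, 5, 9, 10], [5, 1, 8, 11], [8, 1, 0, 7, 12, 13], [7, 0, 1, 10,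
    14, 15], [9, 1, 2, 11, 6, 16], [16, 5, 11, 13]]
  P := {
    a := 7
    N := 17
    nb := [154, 1853, 2338, 12675, 50307, 68166, 75808, 36889, 10254, 66594, 16914, 8548, 8328, 72008,
      33808, 16528, 8800]
    tri := [(0, 1, 3), (0, 1, 4), (0, 3, 7), (0, 4, 7), (1, 2, 5), (1, 2, 8), (1, 3, 8), (1, 4, 10),
      (1, 5, 9), (1, 9, 10), (2, 5, 11), (2, 8, 11), (3, 7, 12), (3, 8, 13), (3, 12, 13), (4, 7,
      15), (4, 10, 14), (4, 14, 15), (5, 6, 11), (5, 6, 16), (5, 9, 16), (6, 11, 13), (6, 13, 16)]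
    fin := [0, 0, 0, 0, 0, 5, 6, 0, 0, 5, 0, 11, 12, 6, 14, 15, 16]
    chd := [(5, 6), (5, 11)]
    steps := [(0, 1), (0, 2), (0, 3), (0, 4), (0, 7), (0, 8), (0, 10), (5, 9), (6, 13)] }
  rep := [0, 5, 6, 11, 16, 12, 14, 15]

noncomputable def v1872 : Cov.CovD where
  P := 3
  N := 5
  pl := [5, 7, 8, 9]
  lev := [⟨[], [], [], [], [(0, 0, [])]⟩,
    ⟨[], [(0, 0), (0, 1)], [(0, 0), (0, 1)], [], [(1, 0, []), (2, 1, [2, 3]), (3, 0, [])]⟩,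
    ⟨[(0, 1)], [(1, 0), (1, 1), (1, 3)], [(0, 3)], [], [(1, 0, []), (4, 3, [1])]⟩,
    ⟨[(0, 1), (1, 2)], [(0, 0), (0, 2), (1, 0), (1, 1), (1, 2), (2, 0)], [(0, 0), (0, 2)],
      [5], [(0, 0, []), (1, 0, []), (6, 2, [1])]⟩,
    ⟨[(0, 1), (0, 3), (1, 2), (1, 3)], [(0, 0), (1, 0), (1, 1), (3, 0)], [(0, 0)], [6, 7],
      [(0, 0, []), (3, 0, [])]⟩,
    ⟨[(0, 1), (1, 2), (1, 3), (1, 4)], [(1, 0), (1, 1), (1, 3), (2, 0), (2, 1), (2, 3)],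
      [(1, 3)], [4], [(2, 1, [2, 3]), (4, 3, [1])]⟩,
    ⟨[(1, 5), (2, 5)], [(2, 3), (3, 2), (5, 1), (5, 2), (5, 3)], [(2, 3)], [4], [(4, 3,
      [1]), (6, 2, [1])]⟩]
  Ta := [((0, 5), 0, 5), ((0, 8), 0, 7), ((1, 4), 0, 3), ((1, 6), 0, 2), ((3, 2), 0, 1), ((3, 7),
    0, 6)]
  Tb := [((0, 5, 8), 0, 5, 7), ((1, 4, 6), 0, 3, 2), ((2, 3, 9), 1, 0, 4), ((3, 2, 7), 0, 1, 6),
    ((4, 1, 6), 3, 0, 2), ((5, 0, 6), 5, 0, 2), ((6, 1, 4), 2, 0, 3), ((6, 1, 5), 2, 0, 5),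
    ((6, 1, 9), 2, 0, 4), ((6, 4, 5), 2, 3, 5), ((6, 4, 9), 2, 3, 4), ((6, 5, 9), 2, 5, 4),
    ((7, 3, 8), 6, 0, 7), ((8, 0, 7), 7, 0, 6), ((9, 2, 6), 4, 1, 2)]
  Tc := [(1, 2, 3)]
  Td := [((1, 2), (2, 3), 0), ((1, 2), (2, 9), 4), ((1, 3), (2, 3), 0), ((1, 3), (2, 9), 4), ((2,
    1), (6, 1), 0), ((2, 1), (6, 4), 3), ((2, 1), (6, 5), 5), ((2, 1), (6, 9), 4), ((3, 1),
    (4, 1), 0), ((3, 1), (4, 6), 2)]
  G := [[0, 0, 0, 0xd2421d2d2a21c4, 0x819821d68191111ea248882ce234244244a4821d882ca], [0, 0,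
    0x418412ae1e16e1a1aa1869ce641, 0x424244242a2819819819e26c8,
    0x242462424ca4821d819819e819819821dea2c1], [0,
    0x4161166416111e111eec1181818e188c116889c2, 0, 0x496d2d2e2184,
    0x242462422cca1821d819219e21911821dea2c1]]

noncomputable def n1872 : Ent := ⟨e1872, noF, [], [], []⟩

def c1872 : PLift (Cov.check n1872.C.D v1872 = true) := ⟨by decide +kernel⟩

def b1872 : PLift (entF (fidx ts) 400 1872 n1872 = true) := ⟨by decide +kernel⟩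

theorem g1872 : GoodF (fidx ts) 400 1872 := GoodF.ofV v1872 n1872 c1872.down b1872.down

/-- 4846664:1602/3 -/
noncomputable def e1873 : SCfg where
  D := {
    a := 7
    L := 10
    kp := 7
    inn := [(0, 1), (0, 3), (0, 4), (1, 0), (1, 2), (1, 3), (1, 4), (1, 5), (2, 1), (2, 5), (3, 0), (3,
      1), (4, 0), (4, 1), (5, 1), (5, 2), (5, 6), (6, 5)]
    mix := [(0, 0), (1, 1), (1, 2), (1, 3), (2, 1), (2, 4), (3, 0), (3, 1), (3, 5), (3, 6), (4, 0), (4,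
      3), (4, 7), (4, 8), (5, 2), (5, 4), (5, 9), (6, 4), (6, 7), (6, 9)]
    cl := [0, 0, 1, 0, 3, 5, 6, 2, 7, 4]
    chq := [(1, 2), (1, 3), (2, 1), (3, 1)]
    rng := [(0, 5), (0, 8), (1, 4), (1, 6), (2, 3), (2, 9), (3, 2), (3, 7), (4, 1), (4, 7), (5, 0), (5,
      6), (6, 1), (6, 5), (7, 3), (7, 4), (7, 8), (7, 9), (8, 0), (8, 7), (9, 2), (9, 7)]
    lev := [] }
  links := [[1, 4, 7, 3], [4, 0, 3, 8, 2, 5, 9, 10], [5, 1, 8, 11], [8, 1, 0, 7, 12, 13], [7, 0, 1, 10,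
    14, 15], [9, 1, 2, 11, 6, 16], [16, 5, 11, 14]]
  P := {
    a := 7
    N := 17
    nb := [154, 1853, 2338, 12675, 50307, 68166, 84000, 36889, 10254, 66594, 16914, 16740, 8328, 4360,
      101456, 16528, 16992]
    tri := [(0, 1, 3), (0, 1, 4), (0, 3, 7), (0, 4, 7), (1, 2, 5), (1, 2, 8), (1, 3, 8), (1, 4, 10),
      (1, 5, 9), (1, 9, 10), (2, 5, 11), (2, 8, 11), (3, 7, 12), (3, 8, 13), (3, 12, 13), (4, 7,
      15), (4, 10, 14), (4, 14, 15), (5, 6, 11), (5, 6, 16), (5, 9, 16), (6, 11, 14), (6, 14, 16)]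
    fin := [0, 0, 0, 0, 0, 5, 6, 0, 0, 5, 0, 11, 12, 13, 6, 15, 16]
    chd := [(5, 6), (5, 11)]
    steps := [(0, 1), (0, 2), (0, 3), (0, 4), (0, 7), (0, 8), (0, 10), (5, 9), (6, 14)] }
  rep := [0, 5, 6, 11, 16, 12, 13, 15]

noncomputable def v1873 : Cov.CovD where
  P := 3
  N := 5
  pl := [5, 6, 8, 9]
  lev := [⟨[], [], [], [], [(0, 0, [])]⟩,
    ⟨[], [(0, 0), (0, 1)], [(0, 0), (0, 1)], [], [(1, 0, []), (2, 1, [2, 3]), (3, 0, [])]⟩,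
    ⟨[(0, 1)], [(1, 0), (1, 1), (1, 3)], [(0, 3)], [], [(1, 0, []), (4, 3, [1])]⟩,
    ⟨[(0, 1), (1, 2)], [(0, 0), (1, 0), (1, 1), (2, 0)], [(0, 0)], [5, 6], [(0, 0, []), (1,
      0, [])]⟩,
    ⟨[(0, 1), (0, 3), (1, 2), (1, 3)], [(0, 0), (0, 2), (1, 0), (1, 1), (1, 2), (3, 0)],
      [(0, 0), (0, 2)], [7], [(0, 0, []), (3, 0, []), (7, 2, [1])]⟩,
    ⟨[(0, 1), (1, 2), (1, 3), (1, 4)], [(1, 0), (1, 1), (1, 3), (2, 0), (2, 1), (2, 3)],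
      [(1, 3)], [4], [(2, 1, [2, 3]), (4, 3, [1])]⟩,
    ⟨[(1, 5), (2, 5)], [(2, 3), (4, 2), (5, 1), (5, 2), (5, 3)], [(2, 3)], [4], [(4, 3,
      [1]), (7, 2, [1])]⟩]
  Ta := [((0, 5), 0, 5), ((0, 8), 0, 7), ((1, 4), 0, 3), ((1, 6), 0, 6), ((3, 2), 0, 1), ((3, 7),
    0, 2)]
  Tb := [((0, 5, 8), 0, 5, 7), ((1, 4, 6), 0, 3, 6), ((2, 3, 9), 1, 0, 4), ((3, 2, 7), 0, 1, 2),
    ((4, 1, 7), 3, 0, 2), ((5, 0, 6), 5, 0, 6), ((6, 1, 5), 6, 0, 5), ((7, 3, 4), 2, 0, 3),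
    ((7, 3, 8), 2, 0, 7), ((7, 3, 9), 2, 0, 4), ((7, 4, 8), 2, 3, 7), ((7, 4, 9), 2, 3, 4),
    ((7, 8, 9), 2, 7, 4), ((8, 0, 7), 7, 0, 2), ((9, 2, 7), 4, 1, 2)]
  Tc := [(1, 2, 3)]
  Td := [((1, 2), (2, 3), 0), ((1, 2), (2, 9), 4), ((1, 3), (2, 3), 0), ((1, 3), (2, 9), 4), ((2,
    1), (7, 3), 0), ((2, 1), (7, 4), 3), ((2, 1), (7, 8), 7), ((2, 1), (7, 9), 4), ((3, 1),
    (4, 1), 0), ((3, 1), (4, 7), 2)]
  G := [[0, 0, 0, 0xd2241d22d22a1c4, 0x2111a282c22342424a41219821da819819ac24883c8a3ca], [0, 0,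
    0, 0x9224422522422ec81928192a2c4, 0x242a1daa15215a62821d821da81982888ae2c1], [0,
    0x1248144416111ec141e4e3811e18c888111e8e1c1, 0xe14a56e1e1ae1e1ae281, 0xd22d22d22e184,
    0x2422422cac1821d219a81911a821d821dae2c1]]

noncomputable def n1873 : Ent := ⟨e1873, noF, [], [], []⟩

def c1873 : PLift (Cov.check n1873.C.D v1873 = true) := ⟨by decide +kernel⟩

def b1873 : PLift (entF (fidx ts) 400 1873 n1873 = true) := ⟨by decide +kernel⟩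

theorem g1873 : GoodF (fidx ts) 400 1873 := GoodF.ofV v1873 n1873 c1873.down b1873.down

/-- 4846664:1602/4 -/
noncomputable def e1874 : SCfg where
  D := {
    a := 7
    L := 10
    kp := 7
    inn := [(0, 1), (0, 3), (0, 4), (1, 0), (1, 2), (1, 3), (1, 4), (1, 5), (2, 1), (2, 5), (3, 0), (3,
      1), (4, 0), (4, 1), (5, 1), (5, 2), (5, 6), (6, 5)]
    mix := [(0, 0), (1, 1), (1, 2), (1, 3), (2, 1), (2, 4), (3, 0), (3, 1), (3, 5), (3, 6), (4, 0), (4,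
      3), (4, 7), (4, 8), (5, 2), (5, 4), (5, 9), (6, 4), (6, 8), (6, 9)]
    cl := [0, 0, 1, 0, 3, 5, 6, 7, 2, 4]
    chq := [(1, 2), (1, 3), (2, 1), (3, 1)]
    rng := [(0, 5), (0, 8), (1, 4), (1, 6), (2, 3), (2, 9), (3, 2), (3, 7), (4, 1), (4, 8), (5, 0), (5,
      6), (6, 1), (6, 5), (7, 3), (7, 8), (8, 0), (8, 4), (8, 7), (8, 9), (9, 2), (9, 8)]
    lev := [] }
  links := [[1, 4, 7, 3], [4, 0, 3, 8, 2, 5, 9, 10], [5, 1, 8, 11], [8, 1, 0, 7, 12, 13], [7, 0, 1, 10,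
    14, 15], [9, 1, 2, 11, 6, 16], [16, 5, 11, 15]]
  P := {
    a := 7
    N := 17
    nb := [154, 1853, 2338, 12675, 50307, 68166, 100384, 36889, 10254, 66594, 16914, 33124, 8328,
      4360, 33808, 84176, 33376]
    tri := [(0, 1, 3), (0, 1, 4), (0, 3, 7), (0, 4, 7), (1, 2, 5), (1, 2, 8), (1, 3, 8), (1, 4, 10),
      (1, 5, 9), (1, 9, 10), (2, 5, 11), (2, 8, 11), (3, 7, 12), (3, 8, 13), (3, 12, 13), (4, 7,
      15), (4, 10, 14), (4, 14, 15), (5, 6, 11), (5, 6, 16), (5, 9, 16), (6, 11, 15), (6, 15, 16)]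
    fin := [0, 0, 0, 0, 0, 5, 6, 0, 0, 5, 0, 11, 12, 13, 14, 6, 16]
    chd := [(5, 6), (5, 11)]
    steps := [(0, 1), (0, 2), (0, 3), (0, 4), (0, 7), (0, 8), (0, 10), (5, 9), (6, 15)] }
  rep := [0, 5, 6, 11, 16, 12, 13, 14]

noncomputable def v1874 : Cov.CovD where
  P := 3
  N := 5
  pl := [5, 6, 7, 9]
  lev := [⟨[], [], [], [], [(0, 0, [])]⟩,
    ⟨[], [(0, 0), (0, 1)], [(0, 0), (0, 1)], [], [(1, 0, []), (2, 1, [2, 3]), (3, 0, [])]⟩,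
    ⟨[(0, 1)], [(1, 0), (1, 1), (1, 3)], [(0, 3)], [], [(1, 0, []), (4, 3, [1])]⟩,
    ⟨[(0, 1), (1, 2)], [(0, 0), (1, 0), (1, 1), (2, 0)], [(0, 0)], [5, 6], [(0, 0, []), (1,
      0, [])]⟩,
    ⟨[(0, 1), (0, 3), (1, 2), (1, 3)], [(0, 0), (0, 2), (1, 0), (1, 1), (1, 2), (3, 0)],
      [(0, 0), (0, 2)], [7], [(0, 0, []), (3, 0, []), (8, 2, [1])]⟩,
    ⟨[(0, 1), (1, 2), (1, 3), (1, 4)], [(1, 0), (1, 1), (1, 3), (2, 0), (2, 1), (2, 3)],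
      [(1, 3)], [4], [(2, 1, [2, 3]), (4, 3, [1])]⟩,
    ⟨[(1, 5), (2, 5)], [(2, 3), (4, 2), (5, 1), (5, 2), (5, 3)], [(2, 3)], [4], [(4, 3,
      [1]), (8, 2, [1])]⟩]
  Ta := [((0, 5), 0, 5), ((0, 8), 0, 2), ((1, 4), 0, 3), ((1, 6), 0, 6), ((3, 2), 0, 1), ((3, 7),
    0, 7)]
  Tb := [((0, 5, 8), 0, 5, 2), ((1, 4, 6), 0, 3, 6), ((2, 3, 9), 1, 0, 4), ((3, 2, 7), 0, 1, 7),
    ((4, 1, 8), 3, 0, 2), ((5, 0, 6), 5, 0, 6), ((6, 1, 5), 6, 0, 5), ((7, 3, 8), 7, 0, 2),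
    ((8, 0, 4), 2, 0, 3), ((8, 0, 7), 2, 0, 7), ((8, 0, 9), 2, 0, 4), ((8, 4, 7), 2, 3, 7),
    ((8, 4, 9), 2, 3, 4), ((8, 7, 9), 2, 7, 4), ((9, 2, 8), 4, 1, 2)]
  Tc := [(1, 2, 3)]
  Td := [((1, 2), (2, 3), 0), ((1, 2), (2, 9), 4), ((1, 3), (2, 3), 0), ((1, 3), (2, 9), 4), ((2,
    1), (8, 0), 0), ((2, 1), (8, 4), 3), ((2, 1), (8, 7), 7), ((2, 1), (8, 9), 4), ((3, 1),
    (4, 1), 0), ((3, 1), (4, 8), 2)]
  G := [[0, 0, 0xe1e16e1e1ae1e1ae284, 0xd22d22d22e184,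
    0x819819a821d821da6242424a44819819a82c2424a824e], [0, 0, 0,
    0x8224415241524152ea822822a8c1, 0x2424a242642a1d821da819819a821d819ae2c1], [0,
    0x111e12c21841e4141e111ec11c4e16188811688929, 0, 0xd22d22d22e184,
    0x24822152a1da46821d821da888819821dae2c1]]

noncomputable def n1874 : Ent := ⟨e1874, noF, [], [], []⟩

def c1874 : PLift (Cov.check n1874.C.D v1874 = true) := ⟨by decide +kernel⟩

def b1874 : PLift (entF (fidx ts) 400 1874 n1874 = true) := ⟨by decide +kernel⟩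

theorem g1874 : GoodF (fidx ts) 400 1874 := GoodF.ofV v1874 n1874 c1874.down b1874.down

/-- 4846664:1602 -/
noncomputable def e1875 : SCfg where
  D := {
    a := 7
    L := 11
    kp := 8
    inn := [(0, 1), (0, 3), (0, 4), (1, 0), (1, 2), (1, 3), (1, 4), (1, 5), (2, 1), (2, 5), (3, 0), (3,
      1), (4, 0), (4, 1), (5, 1), (5, 2), (5, 6), (6, 5)]
    mix := [(0, 0), (1, 1), (1, 2), (1, 3), (2, 1), (2, 4), (3, 0), (3, 1), (3, 5), (3, 6), (4, 0), (4,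
      3), (4, 7), (4, 8), (5, 2), (5, 4), (5, 9), (6, 4), (6, 9), (6, 10)]
    cl := [0, 0, 2, 0, 1, 5, 6, 7, 8, 3, 4]
    chq := [(1, 2), (2, 1), (2, 4), (4, 2)]
    rng := [(0, 5), (0, 8), (1, 4), (1, 6), (2, 3), (2, 9), (3, 2), (3, 7), (4, 1), (4, 10), (5, 0),
      (5, 6), (6, 1), (6, 5), (7, 3), (7, 8), (8, 0), (8, 7), (9, 2), (9, 10), (10, 4), (10, 9)]
    lev := [] }
  links := [[1, 4, 7, 3], [4, 0, 3, 8, 2, 5, 9, 10], [5, 1, 8, 11], [8, 1, 0, 7, 12, 13], [7, 0, 1, 10,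
    14, 15], [9, 1, 2, 11, 6, 16], [16, 5, 11, 17]]
  P := {
    a := 7
    N := 18
    nb := [154, 1853, 2338, 12675, 50307, 68166, 198688, 36889, 10254, 66594, 16914, 131428, 8328,
      4360, 33808, 16528, 131680, 67648]
    tri := [(0, 1, 3), (0, 1, 4), (0, 3, 7), (0, 4, 7), (1, 2, 5), (1, 2, 8), (1, 3, 8), (1, 4, 10),
      (1, 5, 9), (1, 9, 10), (2, 5, 11), (2, 8, 11), (3, 7, 12), (3, 8, 13), (3, 12, 13), (4, 7,
      15), (4, 10, 14), (4, 14, 15), (5, 6, 11), (5, 6, 16), (5, 9, 16), (6, 11, 17), (6, 16, 17)]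
    fin := [0, 0, 0, 0, 0, 5, 6, 0, 0, 5, 0, 11, 12, 13, 14, 15, 16, 6]
    chd := [(5, 6), (5, 11)]
    steps := [(0, 1), (0, 2), (0, 3), (0, 4), (0, 7), (0, 8), (0, 10), (5, 9), (6, 17)] }
  rep := [0, 11, 5, 16, 6, 12, 13, 14, 15]

noncomputable def v1875 : Cov.CovD where
  P := 3
  N := 6
  pl := [5, 6, 7, 8, 9]
  lev := [⟨[], [], [], [], [(0, 0, [])]⟩,
    ⟨[], [(0, 0), (0, 2)], [(0, 0), (0, 2)], [], [(1, 0, []), (2, 2, [1, 4]), (3, 0, [])]⟩,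
    ⟨[(0, 1)], [(1, 0), (1, 1), (1, 2)], [(0, 1)], [], [(1, 0, []), (4, 1, [2])]⟩,
    ⟨[(0, 1), (1, 2)], [(0, 0), (1, 0), (1, 2), (2, 0)], [(0, 0)], [5, 6], [(0, 0, []), (1,
      0, [])]⟩,
    ⟨[(0, 1), (0, 3), (1, 2), (1, 3)], [(0, 0), (1, 0), (1, 2), (3, 0)], [(0, 0)], [7, 8],
      [(0, 0, []), (3, 0, [])]⟩,
    ⟨[(0, 1), (1, 2), (1, 3), (1, 4)], [(1, 0), (1, 1), (1, 2), (2, 0), (2, 1), (2, 2)],
      [(1, 2)], [3], [(2, 2, [1, 4]), (4, 1, [2])]⟩,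
    ⟨[(1, 5), (2, 5)], [(2, 1), (5, 1), (5, 2), (5, 4)], [(1, 4)], [3], [(4, 1, [2]), (10,
      4, [2])]⟩]
  Ta := [((0, 5), 0, 5), ((0, 8), 0, 8), ((1, 4), 0, 1), ((1, 6), 0, 6), ((3, 2), 0, 2), ((3, 7),
    0, 7)]
  Tb := [((0, 5, 8), 0, 5, 8), ((1, 4, 6), 0, 1, 6), ((2, 3, 9), 2, 0, 3), ((3, 2, 7), 0, 2, 7),
    ((4, 1, 10), 1, 0, 4), ((5, 0, 6), 5, 0, 6), ((6, 1, 5), 6, 0, 5), ((7, 3, 8), 7, 0, 8),
    ((8, 0, 7), 8, 0, 7), ((9, 2, 10), 3, 2, 4), ((10, 4, 9), 4, 1, 3)]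
  Tc := [(2, 1, 4)]
  Td := [((1, 2), (4, 1), 0), ((1, 2), (4, 10), 4), ((2, 1), (2, 3), 0), ((2, 1), (2, 9), 3),
    ((2, 4), (2, 3), 0), ((2, 4), (2, 9), 3), ((4, 2), (10, 4), 1), ((4, 2), (10, 9), 3)]
  G := [[0, 0, 0, 0x214229229a2292256e8225444622c2822ce22c8a14a,
    0xd12248229d494d9c59ed49c59ac59c59ce4ac5944426], [0,
    0xe82824a44a46ac24e244e4e2c6824e68e8ae2ce8e2cee2c5, 0,
    0x2292229462292229229aac22c229c22c225cc461,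
    0xc1225822c5c94d94d9e4d94d94d9e4d98ec5942ca1], [0, 0,
    0x1411c11ce2111c11c11ce11c11ca188e8a11c44125,
    0x2254822c22c62422cc65822c22ca229828225ae843,
    0xd12d14d95c9e514d94d9ee44d94d948e488cc882ca1]]

noncomputable def n1875 : Ent := ⟨e1875, noF, [], [], [(12, 17, [6903326391201334775872065844685381424292761054348340378595029937352705, 0]), (13, 17, [6903326391201334775872065844685381424292761054348340378595029937356801, 0]), (17, 14, [6903326468334360900303599070699561856668565975414084080169086031826945, 0]), (17, 15, [6903537015784671890245461680740748765157398844539141476817538559320065, 0])]⟩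

def c1875 : PLift (Cov.check n1875.C.D v1875 = true) := ⟨by decide +kernel⟩

def b1875 : PLift (entF (fidx ts) 400 1875 n1875 = true) := ⟨by decide +kernel⟩

theorem g1875 : GoodF (fidx ts) 400 1875 := GoodF.ofV v1875 n1875 c1875.down b1875.down

/-- 4846844:1604/1 -/
noncomputable def e1876 : SCfg where
  D := {
    a := 7
    L := 10
    kp := 7
    inn := [(0, 1), (0, 3), (1, 0), (1, 2), (1, 3), (1, 4), (1, 5), (2, 1), (2, 4), (3, 0), (3, 1), (3,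
      4), (4, 1), (4, 2), (4, 3), (4, 6), (5, 1), (6, 4)]
    mix := [(0, 0), (0, 1), (1, 0), (1, 2), (1, 3), (2, 2), (2, 4), (3, 1), (3, 5), (3, 6), (4, 4), (4,
      6), (4, 7), (4, 8), (5, 0), (5, 3), (5, 9), (6, 7), (6, 8), (6, 9)]
    cl := [0, 4, 0, 2, 3, 7, 3, 5, 6, 1]
    chq := [(0, 7), (1, 3), (3, 1), (7, 0)]
    rng := [(0, 1), (0, 9), (1, 0), (1, 5), (2, 3), (2, 4), (3, 2), (3, 9), (4, 2), (4, 8), (5, 1), (5,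
      6), (6, 5), (6, 7), (7, 6), (7, 9), (8, 4), (8, 9), (9, 0), (9, 3), (9, 7), (9, 8)]
    lev := [] }
  links := [[1, 7, 8, 3], [7, 0, 3, 4, 2, 9, 10, 5], [9, 1, 4, 11], [4, 1, 0, 8, 12, 13], [11, 2, 1, 3,
    13, 14, 6, 15], [7, 1, 10, 16], [15, 4, 14, 16]]
  P := {
    a := 7
    N := 17
    nb := [394, 1725, 2578, 12563, 59470, 66690, 114704, 65827, 4233, 3078, 66082, 33300, 8456, 20504,
      73808, 67664, 50400]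
    tri := [(0, 1, 3), (0, 1, 7), (0, 3, 8), (0, 7, 8), (1, 2, 4), (1, 2, 9), (1, 3, 4), (1, 5, 7), (1,
      5, 10), (1, 9, 10), (2, 4, 11), (2, 9, 11), (3, 4, 13), (3, 8, 12), (3, 12, 13), (4, 6, 14),
      (4, 6, 15), (4, 11, 15), (4, 13, 14), (5, 7, 16), (5, 10, 16), (6, 14, 16), (6, 15, 16)]
    fin := [0, 0, 0, 0, 4, 0, 4, 0, 8, 0, 10, 4, 12, 4, 14, 15, 16]
    chd := [(0, 12), (4, 16)]
    steps := [(0, 1), (0, 2), (0, 3), (0, 5), (0, 7), (0, 9), (4, 6), (4, 13), (4, 11)] }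
  rep := [0, 16, 10, 4, 8, 14, 15, 12]

noncomputable def v1876 : Cov.CovD where
  P := 3
  N := 5
  pl := [1, 3, 7, 8]
  lev := [⟨[], [], [], [4], [(0, 0, [7])]⟩,
    ⟨[], [(0, 0)], [(0, 0)], [2], [(0, 0, [7]), (2, 0, [7])]⟩,
    ⟨[(0, 1)], [(1, 0), (1, 3)], [(0, 3)], [], [(2, 0, [7]), (4, 3, [1])]⟩,
    ⟨[(0, 1), (1, 2)], [(0, 0), (0, 3), (0, 7), (1, 0), (1, 3), (1, 7)], [(3, 7)], [4],
      [(5, 7, [0]), (6, 3, [1])]⟩,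
    ⟨[(0, 1), (0, 3), (1, 2), (1, 3), (2, 3)], [(1, 0), (1, 3), (2, 0), (2, 3), (3, 3), (3,
      7)], [(3, 3)], [5, 6], [(4, 3, [1]), (6, 3, [1])]⟩,
    ⟨[(0, 1), (1, 2), (1, 3), (1, 4)], [(0, 0), (1, 0), (1, 1)], [(0, 1)], [2], [(0, 0,
      [7]), (9, 1, [3])]⟩,
    ⟨[(1, 4), (2, 4), (3, 4)], [(4, 1), (4, 3), (5, 1)], [], [5, 6], [(9, 1, [3])]⟩]
  Ta := [((0, 1), 0, 4), ((0, 9), 0, 1), ((2, 3), 0, 2), ((2, 4), 0, 3), ((4, 2), 3, 0), ((4, 8),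
    3, 6), ((6, 5), 3, 7), ((6, 7), 3, 5)]
  Tb := [((0, 1, 9), 0, 4, 1), ((1, 0, 5), 4, 0, 7), ((2, 3, 4), 0, 2, 3), ((3, 2, 9), 2, 0, 1),
    ((4, 2, 8), 3, 0, 6), ((5, 1, 6), 7, 4, 3), ((6, 5, 7), 3, 7, 5), ((7, 6, 9), 5, 3, 1),
    ((8, 4, 9), 6, 3, 1), ((9, 0, 3), 1, 0, 2), ((9, 0, 7), 1, 0, 5), ((9, 0, 8), 1, 0, 6),
    ((9, 3, 7), 1, 2, 5), ((9, 3, 8), 1, 2, 6), ((9, 7, 8), 1, 5, 6)]
  Tc := []
  Td := [((0, 7), (0, 1), 4), ((0, 7), (0, 9), 1), ((0, 7), (2, 3), 2), ((0, 7), (2, 4), 3), ((1,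
    3), (9, 0), 0), ((1, 3), (9, 3), 2), ((1, 3), (9, 7), 5), ((1, 3), (9, 8), 6), ((3, 1),
    (4, 2), 0), ((3, 1), (4, 8), 6), ((3, 1), (6, 5), 7), ((3, 1), (6, 7), 5), ((7, 0), (5,
    1), 4), ((7, 0), (5, 6), 3)]
  G := [[0, 0xe41148e81124e41188e, 0, 0xd42d42d42718d42128c,
    0x181181c4828848c592181888283218118148d8a87722848c8828c288d1ae], [0, 0xe81184e411486, 0,
    0xd42128d42d42d42d82f18c,
    0xc81832888c818f4818948d86f88a891c2c8224818548d8c873668888891ac], [0, 0,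
    0x44d4e471288812c88a8d8e4f124a, 0xd42124d82124a,
    0x41d121712888818881627148d1e1281811816218182af], [0, 0,
    0xa8d8e4718881a44441288d8e8b12cc, 0xd82124d12124c,
    0x11148d1c1798181c27141d148f128181181628b]]

noncomputable def n1876 : Ent := ⟨e1876, noF, [], [], []⟩

def c1876 : PLift (Cov.check n1876.C.D v1876 = true) := ⟨by decide +kernel⟩

def b1876 : PLift (entF (fidx ts) 400 1876 n1876 = true) := ⟨by decide +kernel⟩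

theorem g1876 : GoodF (fidx ts) 400 1876 := GoodF.ofV v1876 n1876 c1876.down b1876.down

/-- 4846844:1604 -/
noncomputable def e1877 : SCfg where
  D := {
    a := 7
    L := 11
    kp := 8
    inn := [(0, 1), (0, 3), (1, 0), (1, 2), (1, 3), (1, 4), (1, 5), (2, 1), (2, 4), (3, 0), (3, 1), (3,
      4), (4, 1), (4, 2), (4, 3), (4, 6), (5, 1), (6, 4)]
    mix := [(0, 0), (0, 1), (1, 0), (1, 2), (1, 3), (2, 2), (2, 4), (3, 1), (3, 5), (3, 6), (4, 4), (4,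
      6), (4, 7), (4, 8), (5, 0), (5, 3), (5, 9), (6, 7), (6, 8), (6, 10)]
    cl := [0, 1, 0, 2, 3, 6, 3, 4, 5, 8, 7]
    chq := [(0, 6), (3, 7), (6, 0), (7, 3)]
    rng := [(0, 1), (0, 9), (1, 0), (1, 5), (2, 3), (2, 4), (3, 2), (3, 9), (4, 2), (4, 8), (5, 1), (5,
      6), (6, 5), (6, 7), (7, 6), (7, 10), (8, 4), (8, 10), (9, 0), (9, 3), (10, 7), (10, 8)]
    lev := [] }
  links := [[1, 7, 8, 3], [7, 0, 3, 4, 2, 9, 10, 5], [9, 1, 4, 11], [4, 1, 0, 8, 12, 13], [11, 2, 1, 3,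
    13, 14, 6, 15], [7, 1, 10, 16], [15, 4, 14, 17]]
  P := {
    a := 7
    N := 18
    nb := [394, 1725, 2578, 12563, 59470, 66690, 180240, 65827, 4233, 3078, 66082, 33300, 8456, 20504,
      139344, 133200, 1184, 49216]
    tri := [(0, 1, 3), (0, 1, 7), (0, 3, 8), (0, 7, 8), (1, 2, 4), (1, 2, 9), (1, 3, 4), (1, 5, 7), (1,
      5, 10), (1, 9, 10), (2, 4, 11), (2, 9, 11), (3, 4, 13), (3, 8, 12), (3, 12, 13), (4, 6, 14),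
      (4, 6, 15), (4, 11, 15), (4, 13, 14), (5, 7, 16), (5, 10, 16), (6, 14, 17), (6, 15, 17)]
    fin := [0, 0, 0, 0, 4, 0, 4, 0, 8, 0, 10, 4, 12, 4, 14, 15, 16, 17]
    chd := [(0, 12), (4, 17)]
    steps := [(0, 1), (0, 2), (0, 3), (0, 5), (0, 7), (0, 9), (4, 6), (4, 13), (4, 11)] }
  rep := [0, 8, 10, 4, 14, 15, 12, 17, 16]

noncomputable def v1877 : Cov.CovD where
  P := 3
  N := 6
  pl := [1, 3, 7, 8, 9]
  lev := [⟨[], [], [], [1], [(0, 0, [6])]⟩,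
    ⟨[], [(0, 0)], [(0, 0)], [2], [(0, 0, [6]), (2, 0, [6])]⟩,
    ⟨[(0, 1)], [(1, 0), (1, 3)], [(0, 3)], [], [(2, 0, [6]), (4, 3, [7])]⟩,
    ⟨[(0, 1), (1, 2)], [(0, 0), (0, 3), (0, 6), (1, 0), (1, 3), (1, 6)], [(3, 6)], [1],
      [(5, 6, [0]), (6, 3, [7])]⟩,
    ⟨[(0, 1), (0, 3), (1, 2), (1, 3), (2, 3)], [(1, 0), (1, 3), (2, 0), (2, 3), (3, 3), (3,
      6)], [(3, 3)], [4, 5], [(4, 3, [7]), (6, 3, [7])]⟩,
    ⟨[(0, 1), (1, 2), (1, 3), (1, 4)], [(0, 0), (1, 0)], [], [2, 8], [(0, 0, [6])]⟩,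
    ⟨[(1, 4), (2, 4), (3, 4)], [(4, 3), (4, 7)], [], [4, 5], [(10, 7, [3])]⟩]
  Ta := [((0, 1), 0, 1), ((0, 9), 0, 8), ((2, 3), 0, 2), ((2, 4), 0, 3), ((4, 2), 3, 0), ((4, 8),
    3, 5), ((6, 5), 3, 6), ((6, 7), 3, 4)]
  Tb := [((0, 1, 9), 0, 1, 8), ((1, 0, 5), 1, 0, 6), ((2, 3, 4), 0, 2, 3), ((3, 2, 9), 2, 0, 8),
    ((4, 2, 8), 3, 0, 5), ((5, 1, 6), 6, 1, 3), ((6, 5, 7), 3, 6, 4), ((7, 6, 10), 4, 3, 7),
    ((8, 4, 10), 5, 3, 7), ((9, 0, 3), 8, 0, 2), ((10, 7, 8), 7, 4, 5)]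
  Tc := []
  Td := [((0, 6), (0, 1), 1), ((0, 6), (0, 9), 8), ((0, 6), (2, 3), 2), ((0, 6), (2, 4), 3), ((3,
    7), (4, 2), 0), ((3, 7), (4, 8), 5), ((3, 7), (6, 5), 6), ((3, 7), (6, 7), 4), ((6, 0),
    (5, 1), 1), ((6, 0), (5, 6), 3), ((7, 3), (10, 7), 4), ((7, 3), (10, 8), 5)]
  G := [[0, 0xe442177c12eac28c29c448466ce414888c8cffcf82ca, 0,
    0x4c514f4413429162c19c8c11ffcb8ffce1bc8, 0xe2c261177a14eeae8c8e19abba1842c], [0,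
    0xc4f43a4c4664c8221ca4464aaccc266ca8cccffcf68c8f8b66ca8ffcde2ca, 0,
    0xe11b4d4652e6c17fcb8d8eecf92c8, 0x2e31f225466a1ffabbad8ecaf94a8], [0, 0,
    0x77cbba8e6ed1bbadd6eea71a48, 0xe11b1d1652513121e1611a1e199cc8,
    0xe1171d1e1b92e11f1b161d94a4], [0, 0, 0x776bbadd6eeaf1248, 0xe11e1171b1f1c1fd484,
    0xe11a1171f1d1e1fd824]]

noncomputable def n1877 : Ent := ⟨e1877, noF, [], [], [(17, 16, [7334685537875745012586738086077695515070955365108989538292687701360641, 0])]⟩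

def c1877 : PLift (Cov.check n1877.C.D v1877 = true) := ⟨by decide +kernel⟩

def b1877 : PLift (entF (fidx ts) 400 1877 n1877 = true) := ⟨by decide +kernel⟩

theorem g1877 : GoodF (fidx ts) 400 1877 := GoodF.ofV v1877 n1877 c1877.down b1877.down

/-- 4577546:1606/2 -/
noncomputable def e1878 : SCfg where
  D := {
    a := 7
    L := 9
    kp := 6
    inn := [(0, 1), (0, 2), (1, 0), (1, 2), (1, 6), (2, 0), (2, 1), (2, 3), (2, 6), (3, 2), (3, 4), (3,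
      5), (4, 3), (4, 5), (5, 3), (5, 4), (6, 1), (6, 2)]
    mix := [(0, 0), (0, 1), (1, 1), (1, 2), (2, 0), (2, 3), (2, 4), (3, 0), (3, 4), (3, 5), (3, 6), (4,
      1), (4, 2), (4, 6), (5, 0), (5, 1), (6, 2), (6, 3), (6, 7), (6, 8)]
    cl := [0, 1, 3, 3, 0, 2, 4, 5, 6]
    chq := [(0, 4), (1, 4), (4, 0), (4, 1)]
    rng := [(0, 1), (1, 0), (1, 2), (2, 1), (2, 6), (2, 7), (3, 4), (3, 8), (4, 3), (4, 5), (5, 4), (5,
      6), (6, 2), (6, 5), (7, 2), (7, 8), (8, 3), (8, 7)]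
    lev := [] }
  links := [[1, 2, 7, 8], [2, 0, 8, 9, 6], [7, 0, 1, 6, 10, 11, 3], [7, 2, 11, 12, 13, 4, 5], [5, 3, 13,
    9, 8], [7, 3, 4, 8], [10, 2, 1, 9, 14, 15]]
  P := {
    a := 7
    N := 16
    nb := [390, 837, 3275, 14516, 9000, 408, 50694, 301, 691, 24914, 34884, 5132, 10248, 4632, 33344,
      17472]
    tri := [(0, 1, 2), (0, 1, 8), (0, 2, 7), (0, 7, 8), (1, 2, 6), (1, 6, 9), (1, 8, 9), (2, 3, 7), (2,
      3, 11), (2, 6, 10), (2, 10, 11), (3, 4, 5), (3, 4, 13), (3, 5, 7), (3, 11, 12), (3, 12, 13),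
      (4, 5, 8), (4, 8, 9), (4, 9, 13), (5, 7, 8), (6, 9, 14), (6, 10, 15), (6, 14, 15)]
    fin := [0, 0, 0, 0, 4, 0, 6, 0, 4, 6, 6, 0, 12, 13, 14, 15]
    chd := [(0, 13), (4, 13)]
    steps := [(0, 1), (0, 2), (0, 3), (0, 7), (0, 5), (0, 11), (4, 8), (6, 9), (6, 10)] }
  rep := [0, 4, 12, 6, 13, 14, 15]

noncomputable def v1878 : Cov.CovD where
  P := 3
  N := 4
  pl := [5, 7, 8]
  lev := [⟨[], [], [(0, 1)], [], [(0, 0, [4]), (1, 1, [4])]⟩,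
    ⟨[], [(0, 0), (0, 1), (0, 3)], [(1, 3)], [], [(1, 1, [4]), (2, 3, [])]⟩,
    ⟨[(0, 1)], [(0, 0), (0, 1), (0, 3), (1, 0), (1, 1), (1, 3)], [(0, 0), (0, 3)], [], [(0,
      0, [4]), (3, 3, []), (4, 0, [4])]⟩,
    ⟨[(0, 2), (1, 2)], [(0, 0), (2, 0), (2, 3), (2, 4)], [(0, 0), (0, 4)], [2], [(0, 0,
      [4]), (4, 0, [4]), (6, 4, [0, 1])]⟩,
    ⟨[(2, 3)], [(0, 1), (1, 1), (1, 3), (3, 0), (3, 1), (3, 3), (3, 4)], [(1, 3), (1, 4),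
      (3, 4)], [], [(1, 1, [4]), (2, 3, []), (6, 4, [0, 1])]⟩,
    ⟨[(2, 3), (3, 4)], [(0, 0), (0, 1), (1, 1), (2, 0), (3, 0), (3, 1), (3, 4), (4, 0), (4,
      1), (4, 3), (4, 4)], [(0, 1)], [], [(0, 0, [4]), (1, 1, [4])]⟩,
    ⟨[(0, 1), (0, 2), (1, 2), (2, 3)], [(1, 1), (1, 3), (2, 0), (2, 3), (4, 3)], [(3, 3)],
      [5, 6], [(2, 3, []), (3, 3, [])]⟩]
  Ta := [((0, 1), 0, 1), ((2, 1), 3, 1), ((2, 6), 3, 4), ((2, 7), 3, 5), ((3, 4), 3, 0), ((3, 8),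
    3, 6), ((4, 3), 0, 3), ((4, 5), 0, 2)]
  Tb := [((1, 0, 2), 1, 0, 3), ((2, 1, 6), 3, 1, 4), ((2, 1, 7), 3, 1, 5), ((2, 6, 7), 3, 4, 5),
    ((3, 4, 8), 3, 0, 6), ((4, 3, 5), 0, 3, 2), ((5, 4, 6), 2, 0, 4), ((6, 2, 5), 4, 3, 2),
    ((7, 2, 8), 5, 3, 6), ((8, 3, 7), 6, 3, 5)]
  Tc := [(4, 0, 1)]
  Td := [((0, 4), (0, 1), 1), ((0, 4), (4, 3), 3), ((0, 4), (4, 5), 2), ((1, 4), (1, 0), 0), ((1,
    4), (1, 2), 3), ((4, 0), (6, 2), 3), ((4, 0), (6, 5), 2), ((4, 1), (6, 2), 3), ((4, 1),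
    (6, 5), 2)]
  G := [[0, 0x722f24c24f48b82c28c, 0, 0xf81f41c218, 0xf812814], [0, 0x74f8684b2f8a48c2, 0,
    0x781b41c218, 0xb8427818a14], [0, 0, 0xf412814, 0xf81f41c214, 0xf812418], [0, 0,
    0x781b81c241, 0xf41f81c281, 0x74124b8128c1]]

noncomputable def n1878 : Ent := ⟨e1878, noF, [], [], []⟩

def c1878 : PLift (Cov.check n1878.C.D v1878 = true) := ⟨by decide +kernel⟩

def b1878 : PLift (entF (fidx ts) 400 1878 n1878 = true) := ⟨by decide +kernel⟩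

theorem g1878 : GoodF (fidx ts) 400 1878 := GoodF.ofV v1878 n1878 c1878.down b1878.down

/-- 4577546:1606/3 -/
noncomputable def e1879 : SCfg where
  D := {
    a := 7
    L := 9
    kp := 6
    inn := [(0, 1), (0, 2), (1, 0), (1, 2), (1, 6), (2, 0), (2, 1), (2, 3), (2, 6), (3, 2), (3, 4), (3,
      5), (4, 3), (4, 5), (5, 3), (5, 4), (6, 1), (6, 2)]
    mix := [(0, 0), (0, 1), (1, 1), (1, 2), (2, 0), (2, 3), (2, 4), (3, 0), (3, 4), (3, 5), (3, 6), (4,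
      1), (4, 6), (4, 7), (5, 0), (5, 1), (6, 2), (6, 3), (6, 7), (6, 8)]
    cl := [0, 1, 2, 2, 0, 5, 3, 4, 6]
    chq := [(0, 3), (0, 4), (3, 0), (4, 0)]
    rng := [(0, 1), (1, 0), (1, 2), (1, 7), (2, 1), (2, 7), (3, 4), (3, 8), (4, 3), (4, 5), (5, 4), (5,
      6), (6, 5), (6, 7), (7, 1), (7, 2), (7, 6), (7, 8), (8, 3), (8, 7)]
    lev := [] }
  links := [[1, 2, 7, 8], [2, 0, 8, 9, 6], [7, 0, 1, 6, 10, 11, 3], [7, 2, 11, 12, 13, 4, 5], [5, 3, 13,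
    14, 8], [7, 3, 4, 8], [10, 2, 1, 9, 14, 15]]
  P := {
    a := 7
    N := 16
    nb := [390, 837, 3275, 14516, 24872, 408, 50694, 301, 17075, 16706, 34884, 5132, 10248, 20504,
      41808, 17472]
    tri := [(0, 1, 2), (0, 1, 8), (0, 2, 7), (0, 7, 8), (1, 2, 6), (1, 6, 9), (1, 8, 9), (2, 3, 7), (2,
      3, 11), (2, 6, 10), (2, 10, 11), (3, 4, 5), (3, 4, 13), (3, 5, 7), (3, 11, 12), (3, 12, 13),
      (4, 5, 8), (4, 8, 14), (4, 13, 14), (5, 7, 8), (6, 9, 14), (6, 10, 15), (6, 14, 15)]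
    fin := [0, 0, 0, 0, 0, 0, 6, 0, 8, 6, 6, 0, 12, 13, 14, 15]
    chd := [(0, 13), (0, 14)]
    steps := [(0, 1), (0, 2), (0, 3), (0, 7), (0, 5), (0, 4), (0, 11), (6, 9), (6, 10)] }
  rep := [0, 8, 6, 13, 14, 12, 15]

noncomputable def v1879 : Cov.CovD where
  P := 3
  N := 4
  pl := [1, 5, 8]
  lev := [⟨[], [], [], [1], [(0, 0, [3, 4])]⟩,
    ⟨[], [(0, 0), (0, 2)], [], [1], [(2, 2, [])]⟩,
    ⟨[(0, 1)], [(0, 0), (0, 2), (1, 0), (1, 2)], [(0, 0), (0, 2)], [], [(0, 0, [3, 4]), (3,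
      2, []), (4, 0, [3, 4])]⟩,
    ⟨[(0, 2), (1, 2)], [(0, 0), (2, 0), (2, 2), (2, 3)], [(0, 0), (0, 3)], [5], [(0, 0, [3,
      4]), (4, 0, [3, 4]), (6, 3, [0])]⟩,
    ⟨[(2, 3)], [(3, 0), (3, 3), (3, 4)], [(3, 4)], [1], [(6, 3, [0]), (7, 4, [0])]⟩,
    ⟨[(2, 3), (3, 4)], [(0, 0), (2, 0), (3, 0), (3, 3), (4, 0), (4, 3), (4, 4)], [], [1],
      [(0, 0, [3, 4])]⟩,
    ⟨[(0, 1), (0, 2), (1, 2), (2, 3)], [(1, 2), (1, 4), (2, 0), (2, 2), (2, 4), (4, 4)],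
      [(2, 2), (2, 4)], [6], [(2, 2, []), (3, 2, []), (7, 4, [0])]⟩]
  Ta := [((0, 1), 0, 1), ((2, 1), 2, 1), ((2, 7), 2, 4), ((3, 4), 2, 0), ((3, 8), 2, 6), ((4, 3),
    0, 2), ((4, 5), 0, 5)]
  Tb := [((1, 0, 2), 1, 0, 2), ((1, 0, 7), 1, 0, 4), ((1, 2, 7), 1, 2, 4), ((2, 1, 7), 2, 1, 4),
    ((3, 4, 8), 2, 0, 6), ((4, 3, 5), 0, 2, 5), ((5, 4, 6), 5, 0, 3), ((6, 5, 7), 3, 5, 4),
    ((7, 1, 2), 4, 1, 2), ((7, 1, 6), 4, 1, 3), ((7, 1, 8), 4, 1, 6), ((7, 2, 6), 4, 2, 3),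
    ((7, 2, 8), 4, 2, 6), ((7, 6, 8), 4, 3, 6), ((8, 3, 7), 6, 2, 4)]
  Tc := [(0, 3, 4)]
  Td := [((0, 3), (0, 1), 1), ((0, 3), (4, 3), 2), ((0, 3), (4, 5), 5), ((0, 4), (0, 1), 1), ((0,
    4), (4, 3), 2), ((0, 4), (4, 5), 5), ((3, 0), (6, 5), 5), ((3, 0), (6, 7), 4), ((4, 0),
    (7, 1), 1), ((4, 0), (7, 2), 2), ((4, 0), (7, 6), 3), ((4, 0), (7, 8), 6)]
  G := [[0, 0x525258e28422925252e925894ece48, 0, 0x4414d81981d81ec18, 0x2412b81b41981ea18], [0,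
    0x52526925298ed42e9288c24, 0, 0, 0x2812b41b41941ea48], [0, 0, 0, 0xd81981d81e4814681,
    0x2412b41b41941ea14], [0, 0, 0x2412e81e41c81ea48, 0, 0x2812b81b84981ea84]]

noncomputable def n1879 : Ent := ⟨e1879, noF, [], [], []⟩

def c1879 : PLift (Cov.check n1879.C.D v1879 = true) := ⟨by decide +kernel⟩

def b1879 : PLift (entF (fidx ts) 400 1879 n1879 = true) := ⟨by decide +kernel⟩

theorem g1879 : GoodF (fidx ts) 400 1879 := GoodF.ofV v1879 n1879 c1879.down b1879.down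

/-- 4577546:1606/1 -/
noncomputable def e1880 : SCfg where
  D := {
    a := 7
    L := 10
    kp := 7
    inn := [(0, 1), (0, 2), (1, 0), (1, 2), (1, 6), (2, 0), (2, 1), (2, 3), (2, 6), (3, 2), (3, 4), (3,
      5), (4, 3), (4, 5), (5, 3), (5, 4), (6, 1), (6, 2)]
    mix := [(0, 0), (0, 1), (1, 1), (1, 2), (2, 0), (2, 3), (2, 4), (3, 0), (3, 4), (3, 5), (3, 6), (4,
      1), (4, 6), (4, 7), (5, 0), (5, 1), (6, 2), (6, 3), (6, 8), (6, 9)]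
    cl := [0, 1, 2, 2, 0, 5, 3, 4, 6, 7]
    chq := [(0, 3), (0, 4), (3, 0), (4, 0)]
    rng := [(0, 1), (1, 0), (1, 2), (1, 7), (2, 1), (2, 8), (3, 4), (3, 9), (4, 3), (4, 5), (5, 4), (5,
      6), (6, 5), (6, 7), (7, 1), (7, 6), (8, 2), (8, 9), (9, 3), (9, 8)]
    lev := [] }
  links := [[1, 2, 7, 8], [2, 0, 8, 9, 6], [7, 0, 1, 6, 10, 11, 3], [7, 2, 11, 12, 13, 4, 5], [5, 3, 13,
    14, 8], [7, 3, 4, 8], [10, 2, 1, 9, 15, 16]]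
  P := {
    a := 7
    N := 17
    nb := [390, 837, 3275, 14516, 24872, 408, 99846, 301, 17075, 33090, 67652, 5132, 10248, 20504,
      8464, 66112, 33856]
    tri := [(0, 1, 2), (0, 1, 8), (0, 2, 7), (0, 7, 8), (1, 2, 6), (1, 6, 9), (1, 8, 9), (2, 3, 7), (2,
      3, 11), (2, 6, 10), (2, 10, 11), (3, 4, 5), (3, 4, 13), (3, 5, 7), (3, 11, 12), (3, 12, 13),
      (4, 5, 8), (4, 8, 14), (4, 13, 14), (5, 7, 8), (6, 9, 15), (6, 10, 16), (6, 15, 16)]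
    fin := [0, 0, 0, 0, 0, 0, 6, 0, 8, 6, 6, 0, 12, 13, 14, 15, 16]
    chd := [(0, 13), (0, 14)]
    steps := [(0, 1), (0, 2), (0, 3), (0, 7), (0, 5), (0, 4), (0, 11), (6, 9), (6, 10)] }
  rep := [0, 8, 6, 13, 14, 12, 15, 16]

noncomputable def v1880 : Cov.CovD where
  P := 3
  N := 5
  pl := [1, 5, 8, 9]
  lev := [⟨[], [], [], [1], [(0, 0, [3, 4])]⟩,
    ⟨[], [(0, 0), (0, 2)], [], [1], [(2, 2, [])]⟩,
    ⟨[(0, 1)], [(0, 0), (0, 2), (1, 0), (1, 2)], [(0, 0), (0, 2)], [], [(0, 0, [3, 4]), (3,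
      2, []), (4, 0, [3, 4])]⟩,
    ⟨[(0, 2), (1, 2)], [(0, 0), (2, 0), (2, 2), (2, 3)], [(0, 0), (0, 3)], [5], [(0, 0, [3,
      4]), (4, 0, [3, 4]), (6, 3, [0])]⟩,
    ⟨[(2, 3)], [(3, 0), (3, 3), (3, 4)], [(3, 4)], [1], [(6, 3, [0]), (7, 4, [0])]⟩,
    ⟨[(2, 3), (3, 4)], [(0, 0), (2, 0), (3, 0), (3, 3), (4, 0), (4, 3), (4, 4)], [], [1],
      [(0, 0, [3, 4])]⟩,
    ⟨[(0, 1), (0, 2), (1, 2), (2, 3)], [(1, 2), (2, 0), (2, 2)], [(2, 2)], [6, 7], [(2, 2,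
      []), (3, 2, [])]⟩]
  Ta := [((0, 1), 0, 1), ((2, 1), 2, 1), ((2, 8), 2, 6), ((3, 4), 2, 0), ((3, 9), 2, 7), ((4, 3),
    0, 2), ((4, 5), 0, 5)]
  Tb := [((1, 0, 2), 1, 0, 2), ((1, 0, 7), 1, 0, 4), ((1, 2, 7), 1, 2, 4), ((2, 1, 8), 2, 1, 6),
    ((3, 4, 9), 2, 0, 7), ((4, 3, 5), 0, 2, 5), ((5, 4, 6), 5, 0, 3), ((6, 5, 7), 3, 5, 4),
    ((7, 1, 6), 4, 1, 3), ((8, 2, 9), 6, 2, 7), ((9, 3, 8), 7, 2, 6)]
  Tc := [(0, 3, 4)]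
  Td := [((0, 3), (0, 1), 1), ((0, 3), (4, 3), 2), ((0, 3), (4, 5), 5), ((0, 4), (0, 1), 1), ((0,
    4), (4, 3), 2), ((0, 4), (4, 5), 5), ((3, 0), (6, 5), 5), ((3, 0), (6, 7), 4), ((4, 0),
    (7, 1), 1), ((4, 0), (7, 6), 3)]
  G := [[0, 0xd2d4d8e84d2d2d2ed4d2d8e68c2, 0, 0x58144169812d41881ce84, 0x341b41b81e8418a14], [0,
    0x585464d2d8d8e9282ad2d8d4eec4888c48c2, 0, 0, 0x2812b41b41981ea84], [0, 0, 0,
    0x441d81d81e9818c14, 0x2412b41b81941ea84], [0, 0, 0x4814e41a81e41ec81, 0,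
    0x341b41b41e8418a41]]

noncomputable def n1880 : Ent := ⟨e1880, noF, [], [], [(9, 14, [1685382413448253767852309107433119732572617628602273068445372604417, 0]), (15, 14, [1685382413448253767852309107433119732572617628602273068445372608513, 0])]⟩

def c1880 : PLift (Cov.check n1880.C.D v1880 = true) := ⟨by decide +kernel⟩

def b1880 : PLift (entF (fidx ts) 400 1880 n1880 = true) := ⟨by decide +kernel⟩

theorem g1880 : GoodF (fidx ts) 400 1880 := GoodF.ofV v1880 n1880 c1880.down b1880.down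

/-- 4577546:1606/4 -/
noncomputable def e1881 : SCfg where
  D := {
    a := 7
    L := 10
    kp := 7
    inn := [(0, 1), (0, 2), (1, 0), (1, 2), (1, 6), (2, 0), (2, 1), (2, 3), (2, 6), (3, 2), (3, 4), (3,
      5), (4, 3), (4, 5), (5, 3), (5, 4), (6, 1), (6, 2)]
    mix := [(0, 0), (0, 1), (1, 1), (1, 2), (2, 0), (2, 3), (2, 4), (3, 0), (3, 4), (3, 5), (3, 6), (4,
      2), (4, 6), (4, 7), (5, 0), (5, 7), (6, 2), (6, 3), (6, 8), (6, 9)]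
    cl := [0, 2, 1, 1, 0, 5, 3, 4, 6, 7]
    chq := [(0, 3), (3, 0), (3, 4), (4, 3)]
    rng := [(0, 1), (0, 7), (1, 0), (1, 2), (2, 1), (2, 6), (2, 7), (2, 8), (3, 4), (3, 9), (4, 3), (4,
      5), (5, 4), (5, 6), (6, 2), (6, 5), (7, 0), (7, 2), (8, 2), (8, 9), (9, 3), (9, 8)]
    lev := [] }
  links := [[1, 2, 7, 8], [2, 0, 8, 9, 6], [7, 0, 1, 6, 10, 11, 3], [7, 2, 11, 12, 13, 4, 5], [5, 3, 13,
    9, 14], [7, 3, 4, 14], [10, 2, 1, 9, 15, 16]]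
  P := {
    a := 7
    N := 17
    nb := [390, 837, 3275, 14516, 25128, 16536, 99846, 16685, 643, 57682, 67652, 5132, 10248, 4632,
      688, 66112, 33856]
    tri := [(0, 1, 2), (0, 1, 8), (0, 2, 7), (0, 7, 8), (1, 2, 6), (1, 6, 9), (1, 8, 9), (2, 3, 7), (2,
      3, 11), (2, 6, 10), (2, 10, 11), (3, 4, 5), (3, 4, 13), (3, 5, 7), (3, 11, 12), (3, 12, 13),
      (4, 5, 14), (4, 9, 13), (4, 9, 14), (5, 7, 14), (6, 9, 15), (6, 10, 16), (6, 15, 16)]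
    fin := [0, 0, 0, 0, 4, 0, 6, 0, 8, 6, 6, 0, 12, 4, 14, 15, 16]
    chd := [(0, 4), (4, 14)]
    steps := [(0, 1), (0, 2), (0, 3), (0, 5), (0, 7), (0, 11), (4, 13), (6, 9), (6, 10)] }
  rep := [0, 6, 8, 4, 14, 12, 15, 16]

noncomputable def v1881 : Cov.CovD where
  P := 3
  N := 5
  pl := [1, 5, 8, 9]
  lev := [⟨[], [], [], [2], [(0, 0, [3])]⟩,
    ⟨[], [(0, 0), (0, 1)], [], [2], [(2, 1, [])]⟩,
    ⟨[(0, 1)], [(0, 0), (0, 1), (1, 0), (1, 1)], [(0, 0), (0, 1)], [], [(0, 0, [3]), (3, 1,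
      []), (4, 0, [3])]⟩,
    ⟨[(0, 2), (1, 2)], [(0, 0), (2, 0), (2, 1), (2, 3)], [(0, 0), (0, 3)], [5], [(0, 0,
      [3]), (4, 0, [3]), (6, 3, [0, 4])]⟩,
    ⟨[(2, 3)], [(1, 1), (3, 0), (3, 1), (3, 3), (3, 4)], [(1, 3), (1, 4), (3, 4)], [], [(2,
      1, []), (6, 3, [0, 4]), (7, 4, [3])]⟩,
    ⟨[(2, 3), (3, 4)], [(0, 0), (2, 0), (3, 0), (3, 3), (3, 4), (4, 0), (4, 1), (4, 3), (4,
      4)], [(0, 4)], [], [(0, 0, [3]), (7, 4, [3])]⟩,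
    ⟨[(0, 1), (0, 2), (1, 2), (2, 3)], [(1, 1), (2, 0), (2, 1), (4, 1)], [(1, 1)], [6, 7],
      [(2, 1, []), (3, 1, [])]⟩]
  Ta := [((0, 1), 0, 2), ((0, 7), 0, 4), ((2, 1), 1, 2), ((2, 6), 1, 3), ((2, 7), 1, 4), ((2, 8),
    1, 6), ((3, 4), 1, 0), ((3, 9), 1, 7), ((4, 3), 0, 1), ((4, 5), 0, 5)]
  Tb := [((0, 1, 7), 0, 2, 4), ((1, 0, 2), 2, 0, 1), ((2, 1, 6), 1, 2, 3), ((2, 1, 7), 1, 2, 4),
    ((2, 1, 8), 1, 2, 6), ((2, 6, 7), 1, 3, 4), ((2, 6, 8), 1, 3, 6), ((2, 7, 8), 1, 4, 6),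
    ((3, 4, 9), 1, 0, 7), ((4, 3, 5), 0, 1, 5), ((5, 4, 6), 5, 0, 3), ((6, 2, 5), 3, 1, 5),
    ((7, 0, 2), 4, 0, 1), ((8, 2, 9), 6, 1, 7), ((9, 3, 8), 7, 1, 6)]
  Tc := [(3, 0, 4)]
  Td := [((0, 3), (0, 1), 2), ((0, 3), (0, 7), 4), ((0, 3), (4, 3), 1), ((0, 3), (4, 5), 5), ((3,
    0), (6, 2), 1), ((3, 0), (6, 5), 5), ((3, 4), (6, 2), 1), ((3, 4), (6, 5), 5), ((4, 3),
    (7, 0), 0), ((4, 3), (7, 2), 1)]
  G := [[0, 0, 0x44a1294199c1a4d61ddc1ce84, 0x525254d4d29d2d2d2da828254e18,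
    0xd8d254d4d29d2d8ddcdac12], [0, 0, 0x5825216942821ac441821c8a4, 0,
    0x4824d42982d8d4d2dec18], [0, 0, 0, 0xd212d21d21ca41, 0xddc1dd61adda14681], [0,
    0x22a12ee61eea1ccc1e684, 0, 0, 0x4824d12912d21ec18]]

noncomputable def n1881 : Ent := ⟨e1881, noF, [], [], [(8, 14, [1685382413448253767852309107433119732572617628602273068445372604417, 0])]⟩

def c1881 : PLift (Cov.check n1881.C.D v1881 = true) := ⟨by decide +kernel⟩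

def b1881 : PLift (entF (fidx ts) 400 1881 n1881 = true) := ⟨by decide +kernel⟩

theorem g1881 : GoodF (fidx ts) 400 1881 := GoodF.ofV v1881 n1881 c1881.down b1881.down

/-- 4577546:1606/5 -/
noncomputable def e1882 : SCfg where
  D := {
    a := 7
    L := 10
    kp := 7
    inn := [(0, 1), (0, 2), (1, 0), (1, 2), (1, 6), (2, 0), (2, 1), (2, 3), (2, 6), (3, 2), (3, 4), (3,
      5), (4, 3), (4, 5), (5, 3), (5, 4), (6, 1), (6, 2)]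
    mix := [(0, 0), (0, 1), (1, 1), (1, 2), (2, 0), (2, 3), (2, 4), (3, 0), (3, 4), (3, 5), (3, 6), (4,
      6), (4, 7), (4, 8), (5, 0), (5, 8), (6, 2), (6, 3), (6, 7), (6, 9)]
    cl := [0, 2, 1, 1, 0, 6, 3, 4, 5, 7]
    chq := [(0, 3), (0, 4), (3, 0), (4, 0)]
    rng := [(0, 1), (0, 8), (1, 0), (1, 2), (2, 1), (2, 7), (3, 4), (3, 9), (4, 3), (4, 5), (5, 4), (5,
      6), (6, 5), (6, 7), (7, 2), (7, 6), (7, 8), (7, 9), (8, 0), (8, 7), (9, 3), (9, 7)]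
    lev := [] }
  links := [[1, 2, 7, 8], [2, 0, 8, 9, 6], [7, 0, 1, 6, 10, 11, 3], [7, 2, 11, 12, 13, 4, 5], [5, 3, 13,
    14, 15], [7, 3, 4, 15], [10, 2, 1, 9, 14, 16]]
  P := {
    a := 7
    N := 17
    nb := [390, 837, 3275, 14516, 57384, 32920, 83462, 33069, 643, 16706, 67652, 5132, 10248, 20504,
      107088, 16560, 17472]
    tri := [(0, 1, 2), (0, 1, 8), (0, 2, 7), (0, 7, 8), (1, 2, 6), (1, 6, 9), (1, 8, 9), (2, 3, 7), (2,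
      3, 11), (2, 6, 10), (2, 10, 11), (3, 4, 5), (3, 4, 13), (3, 5, 7), (3, 11, 12), (3, 12, 13),
      (4, 5, 15), (4, 13, 14), (4, 14, 15), (5, 7, 15), (6, 9, 14), (6, 10, 16), (6, 14, 16)]
    fin := [0, 0, 0, 0, 0, 0, 6, 0, 8, 6, 6, 0, 12, 13, 14, 15, 16]
    chd := [(0, 13), (0, 14)]
    steps := [(0, 1), (0, 2), (0, 3), (0, 4), (0, 5), (0, 7), (0, 11), (6, 9), (6, 10)] }
  rep := [0, 6, 8, 13, 14, 15, 12, 16]

noncomputable def v1882 : Cov.CovD where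
  P := 3
  N := 5
  pl := [1, 5, 8, 9]
  lev := [⟨[], [], [], [2], [(0, 0, [3, 4])]⟩,
    ⟨[], [(0, 0), (0, 1)], [], [2], [(2, 1, [])]⟩,
    ⟨[(0, 1)], [(0, 0), (0, 1), (1, 0), (1, 1)], [(0, 0), (0, 1)], [], [(0, 0, [3, 4]), (3,
      1, []), (4, 0, [3, 4])]⟩,
    ⟨[(0, 2), (1, 2)], [(0, 0), (2, 0), (2, 1), (2, 3)], [(0, 0), (0, 3)], [6], [(0, 0, [3,
      4]), (4, 0, [3, 4]), (6, 3, [0])]⟩,
    ⟨[(2, 3)], [(3, 0), (3, 3), (3, 4)], [(3, 4)], [5], [(6, 3, [0]), (7, 4, [0])]⟩,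
    ⟨[(2, 3), (3, 4)], [(0, 0), (2, 0), (3, 0), (3, 3), (4, 0), (4, 3), (4, 4)], [], [5],
      [(0, 0, [3, 4])]⟩,
    ⟨[(0, 1), (0, 2), (1, 2), (2, 3)], [(1, 1), (1, 4), (2, 0), (2, 1), (2, 4), (4, 4)],
      [(1, 1), (1, 4)], [7], [(2, 1, []), (3, 1, []), (7, 4, [0])]⟩]
  Ta := [((0, 1), 0, 2), ((0, 8), 0, 5), ((2, 1), 1, 2), ((2, 7), 1, 4), ((3, 4), 1, 0), ((3, 9),
    1, 7), ((4, 3), 0, 1), ((4, 5), 0, 6)]
  Tb := [((0, 1, 8), 0, 2, 5), ((1, 0, 2), 2, 0, 1), ((2, 1, 7), 1, 2, 4), ((3, 4, 9), 1, 0, 7),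
    ((4, 3, 5), 0, 1, 6), ((5, 4, 6), 6, 0, 3), ((6, 5, 7), 3, 6, 4), ((7, 2, 6), 4, 1, 3),
    ((7, 2, 8), 4, 1, 5), ((7, 2, 9), 4, 1, 7), ((7, 6, 8), 4, 3, 5), ((7, 6, 9), 4, 3, 7),
    ((7, 8, 9), 4, 5, 7), ((8, 0, 7), 5, 0, 4), ((9, 3, 7), 7, 1, 4)]
  Tc := [(0, 3, 4)]
  Td := [((0, 3), (0, 1), 2), ((0, 3), (0, 8), 5), ((0, 3), (4, 3), 1), ((0, 3), (4, 5), 6), ((0,
    4), (0, 1), 2), ((0, 4), (0, 8), 5), ((0, 4), (4, 3), 1), ((0, 4), (4, 5), 6), ((3, 0),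
    (6, 5), 6), ((3, 0), (6, 7), 4), ((4, 0), (7, 2), 1), ((4, 0), (7, 6), 3), ((4, 0), (7,
    8), 5), ((4, 0), (7, 9), 7)]
  G := [[0, 0, 0x5215561688c12dda1d861ce84, 0xd8d43292525259cf9858925dcfc618,
    0x545414ad2d48cc3294525259af9458949dafce18], [0, 0, 0x5461ddc1ddc1e98c18c42, 0,
    0x58425492545259cf989299abd4d83ec82], [0, 0, 0, 0xd8d432ddc1ddc1ca41,
    0xddc12dda1dd61c681], [0, 0xeea1eea16eec18a41, 0, 0, 0x44614dd6199a1dd61ec18]]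

noncomputable def n1882 : Ent := ⟨e1882, noF, [], [], [(8, 15, [1685356702439545624007900436039642273970977273354372543760007786497, 0])]⟩

def c1882 : PLift (Cov.check n1882.C.D v1882 = true) := ⟨by decide +kernel⟩

def b1882 : PLift (entF (fidx ts) 400 1882 n1882 = true) := ⟨by decide +kernel⟩

theorem g1882 : GoodF (fidx ts) 400 1882 := GoodF.ofV v1882 n1882 c1882.down b1882.down

/-- 4577546:1606/6 -/
noncomputable def e1883 : SCfg where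
  D := {
    a := 7
    L := 10
    kp := 7
    inn := [(0, 1), (0, 2), (1, 0), (1, 2), (1, 6), (2, 0), (2, 1), (2, 3), (2, 6), (3, 2), (3, 4), (3,
      5), (4, 3), (4, 5), (5, 3), (5, 4), (6, 1), (6, 2)]
    mix := [(0, 0), (0, 1), (1, 1), (1, 2), (2, 0), (2, 3), (2, 4), (3, 0), (3, 4), (3, 5), (3, 6), (4,
      6), (4, 7), (4, 8), (5, 0), (5, 8), (6, 2), (6, 3), (6, 7), (6, 9)]
    cl := [0, 2, 1, 1, 0, 6, 3, 4, 5, 7]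
    chq := [(0, 3), (0, 4), (3, 0), (4, 0)]
    rng := [(0, 1), (0, 8), (1, 0), (1, 2), (2, 1), (2, 9), (3, 4), (3, 7), (4, 3), (4, 5), (5, 4), (5,
      6), (6, 5), (6, 7), (7, 3), (7, 6), (7, 8), (7, 9), (8, 0), (8, 7), (9, 2), (9, 7)]
    lev := [] }
  links := [[1, 2, 7, 8], [2, 0, 8, 9, 6], [7, 0, 1, 6, 10, 11, 3], [7, 2, 11, 12, 13, 4, 5], [5, 3, 13,
    14, 15], [7, 3, 4, 15], [10, 2, 1, 9, 16, 14]]
  P := {
    a := 7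
    N := 17
    nb := [390, 837, 3275, 14516, 57384, 32920, 83462, 33069, 643, 65858, 18500, 5132, 10248, 20504,
      107600, 16560, 16960]
    tri := [(0, 1, 2), (0, 1, 8), (0, 2, 7), (0, 7, 8), (1, 2, 6), (1, 6, 9), (1, 8, 9), (2, 3, 7), (2,
      3, 11), (2, 6, 10), (2, 10, 11), (3, 4, 5), (3, 4, 13), (3, 5, 7), (3, 11, 12), (3, 12, 13),
      (4, 5, 15), (4, 13, 14), (4, 14, 15), (5, 7, 15), (6, 9, 16), (6, 10, 14), (6, 14, 16)]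
    fin := [0, 0, 0, 0, 0, 0, 6, 0, 8, 6, 6, 0, 12, 13, 14, 15, 16]
    chd := [(0, 13), (0, 14)]
    steps := [(0, 1), (0, 2), (0, 3), (0, 4), (0, 5), (0, 7), (0, 11), (6, 9), (6, 10)] }
  rep := [0, 6, 8, 13, 14, 15, 12, 16]

noncomputable def v1883 : Cov.CovD where
  P := 3
  N := 5
  pl := [1, 5, 8, 9]
  lev := [⟨[], [], [], [2], [(0, 0, [3, 4])]⟩,
    ⟨[], [(0, 0), (0, 1)], [], [2], [(2, 1, [])]⟩,
    ⟨[(0, 1)], [(0, 0), (0, 1), (1, 0), (1, 1)], [(0, 0), (0, 1)], [], [(0, 0, [3, 4]), (3,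
      1, []), (4, 0, [3, 4])]⟩,
    ⟨[(0, 2), (1, 2)], [(0, 0), (2, 0), (2, 1), (2, 3)], [(0, 0), (0, 3)], [6], [(0, 0, [3,
      4]), (4, 0, [3, 4]), (6, 3, [0])]⟩,
    ⟨[(2, 3)], [(3, 0), (3, 3), (3, 4)], [(3, 4)], [5], [(6, 3, [0]), (7, 4, [0])]⟩,
    ⟨[(2, 3), (3, 4)], [(0, 0), (2, 0), (3, 0), (3, 3), (4, 0), (4, 3), (4, 4)], [], [5],
      [(0, 0, [3, 4])]⟩,
    ⟨[(0, 1), (0, 2), (1, 2), (2, 3)], [(1, 1), (1, 4), (2, 0), (2, 1), (2, 4), (4, 4)],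
      [(1, 1), (1, 4)], [7], [(2, 1, []), (3, 1, []), (7, 4, [0])]⟩]
  Ta := [((0, 1), 0, 2), ((0, 8), 0, 5), ((2, 1), 1, 2), ((2, 9), 1, 7), ((3, 4), 1, 0), ((3, 7),
    1, 4), ((4, 3), 0, 1), ((4, 5), 0, 6)]
  Tb := [((0, 1, 8), 0, 2, 5), ((1, 0, 2), 2, 0, 1), ((2, 1, 9), 1, 2, 7), ((3, 4, 7), 1, 0, 4),
    ((4, 3, 5), 0, 1, 6), ((5, 4, 6), 6, 0, 3), ((6, 5, 7), 3, 6, 4), ((7, 3, 6), 4, 1, 3),
    ((7, 3, 8), 4, 1, 5), ((7, 3, 9), 4, 1, 7), ((7, 6, 8), 4, 3, 5), ((7, 6, 9), 4, 3, 7),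
    ((7, 8, 9), 4, 5, 7), ((8, 0, 7), 5, 0, 4), ((9, 2, 7), 7, 1, 4)]
  Tc := [(0, 3, 4)]
  Td := [((0, 3), (0, 1), 2), ((0, 3), (0, 8), 5), ((0, 3), (4, 3), 1), ((0, 3), (4, 5), 6), ((0,
    4), (0, 1), 2), ((0, 4), (0, 8), 5), ((0, 4), (4, 3), 1), ((0, 4), (4, 5), 6), ((3, 0),
    (6, 5), 6), ((3, 0), (6, 7), 4), ((4, 0), (7, 3), 1), ((4, 0), (7, 6), 3), ((4, 0), (7,
    8), 5), ((4, 0), (7, 9), 7)]
  G := [[0, 0, 0x55c14dda188a1dd61ec82, 0x545832848832925452d56f985892956fce84,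
    0x5248549454585daf9881a99abd8d43ec18], [0, 0, 0x5561dd61dd61e88c18c24, 0,
    0x945898ddcf4925858585ef9854d4dd6fac12], [0, 0, 0, 0x521ddc1a8dc1ddc1ca41,
    0x541dda1ddc1ed8c18c12], [0, 0x22a12eec1ee61ccc1e641, 0, 0, 0x541ddc1dda1ed8c18c21]]

noncomputable def n1883 : Ent := ⟨e1883, noF, [], [], []⟩

def c1883 : PLift (Cov.check n1883.C.D v1883 = true) := ⟨by decide +kernel⟩

def b1883 : PLift (entF (fidx ts) 400 1883 n1883 = true) := ⟨by decide +kernel⟩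

theorem g1883 : GoodF (fidx ts) 400 1883 := GoodF.ofV v1883 n1883 c1883.down b1883.down

/-- 4577546:1606 -/
noncomputable def e1884 : SCfg where
  D := {
    a := 7
    L := 11
    kp := 8
    inn := [(0, 1), (0, 2), (1, 0), (1, 2), (1, 6), (2, 0), (2, 1), (2, 3), (2, 6), (3, 2), (3, 4), (3,
      5), (4, 3), (4, 5), (5, 3), (5, 4), (6, 1), (6, 2)]
    mix := [(0, 0), (0, 1), (1, 1), (1, 2), (2, 0), (2, 3), (2, 4), (3, 0), (3, 4), (3, 5), (3, 6), (4,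
      6), (4, 7), (4, 8), (5, 0), (5, 8), (6, 2), (6, 3), (6, 9), (6, 10)]
    cl := [0, 2, 1, 1, 0, 6, 3, 5, 4, 7, 8]
    chq := [(0, 3), (0, 5), (3, 0), (5, 0)]
    rng := [(0, 1), (0, 8), (1, 0), (1, 2), (2, 1), (2, 9), (3, 4), (3, 10), (4, 3), (4, 5), (5, 4),
      (5, 6), (6, 5), (6, 7), (7, 6), (7, 8), (8, 0), (8, 7), (9, 2), (9, 10), (10, 3), (10, 9)]
    lev := [] }
  links := [[1, 2, 7, 8], [2, 0, 8, 9, 6], [7, 0, 1, 6, 10, 11, 3], [7, 2, 11, 12, 13, 4, 5], [5, 3, 13,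
    14, 15], [7, 3, 4, 15], [10, 2, 1, 9, 16, 17]]
  P := {
    a := 7
    N := 18
    nb := [390, 837, 3275, 14516, 57384, 32920, 198150, 33069, 643, 65858, 133188, 5132, 10248, 20504,
      40976, 16560, 131648, 66624]
    tri := [(0, 1, 2), (0, 1, 8), (0, 2, 7), (0, 7, 8), (1, 2, 6), (1, 6, 9), (1, 8, 9), (2, 3, 7), (2,
      3, 11), (2, 6, 10), (2, 10, 11), (3, 4, 5), (3, 4, 13), (3, 5, 7), (3, 11, 12), (3, 12, 13),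
      (4, 5, 15), (4, 13, 14), (4, 14, 15), (5, 7, 15), (6, 9, 16), (6, 10, 17), (6, 16, 17)]
    fin := [0, 0, 0, 0, 0, 0, 6, 0, 8, 6, 6, 0, 12, 13, 14, 15, 16, 17]
    chd := [(0, 13), (0, 14)]
    steps := [(0, 1), (0, 2), (0, 3), (0, 4), (0, 5), (0, 7), (0, 11), (6, 9), (6, 10)] }
  rep := [0, 6, 8, 13, 15, 14, 12, 16, 17]

noncomputable def v1884 : Cov.CovD where
  P := 3
  N := 6
  pl := [1, 5, 8, 9, 10]
  lev := [⟨[], [], [], [2], [(0, 0, [3, 5])]⟩,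
    ⟨[], [(0, 0), (0, 1)], [], [2], [(2, 1, [])]⟩,
    ⟨[(0, 1)], [(0, 0), (0, 1), (1, 0), (1, 1)], [(0, 0), (0, 1)], [], [(0, 0, [3, 5]), (3,
      1, []), (4, 0, [3, 5])]⟩,
    ⟨[(0, 2), (1, 2)], [(0, 0), (2, 0), (2, 1), (2, 3)], [(0, 0), (0, 3)], [6], [(0, 0, [3,
      5]), (4, 0, [3, 5]), (6, 3, [0])]⟩,
    ⟨[(2, 3)], [(3, 0), (3, 3), (3, 5)], [(3, 5)], [4], [(6, 3, [0]), (7, 5, [0])]⟩,
    ⟨[(2, 3), (3, 4)], [(0, 0), (2, 0), (3, 0), (3, 3), (4, 0), (4, 3), (4, 5)], [], [4],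
      [(0, 0, [3, 5])]⟩,
    ⟨[(0, 1), (0, 2), (1, 2), (2, 3)], [(1, 1), (2, 0), (2, 1)], [(1, 1)], [7, 8], [(2, 1,
      []), (3, 1, [])]⟩]
  Ta := [((0, 1), 0, 2), ((0, 8), 0, 4), ((2, 1), 1, 2), ((2, 9), 1, 7), ((3, 4), 1, 0), ((3,
    10), 1, 8), ((4, 3), 0, 1), ((4, 5), 0, 6)]
  Tb := [((0, 1, 8), 0, 2, 4), ((1, 0, 2), 2, 0, 1), ((2, 1, 9), 1, 2, 7), ((3, 4, 10), 1, 0, 8),
    ((4, 3, 5), 0, 1, 6), ((5, 4, 6), 6, 0, 3), ((6, 5, 7), 3, 6, 5), ((7, 6, 8), 5, 3, 4),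
    ((8, 0, 7), 4, 0, 5), ((9, 2, 10), 7, 1, 8), ((10, 3, 9), 8, 1, 7)]
  Tc := [(0, 3, 5)]
  Td := [((0, 3), (0, 1), 2), ((0, 3), (0, 8), 4), ((0, 3), (4, 3), 1), ((0, 3), (4, 5), 6), ((0,
    5), (0, 1), 2), ((0, 5), (0, 8), 4), ((0, 5), (4, 3), 1), ((0, 5), (4, 5), 6), ((3, 0),
    (6, 5), 6), ((3, 0), (6, 7), 5), ((5, 0), (7, 6), 3), ((5, 0), (7, 8), 4)]
  G := [[0, 0, 0x5561dda1dda1e88c18c42, 0x42525455cf2988884886f2d4d4d2ddafd8d2d8ddcfce48,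
    0x54525567d8d2d2ddafd8d4d8ddcfed2848888af8c12], [0, 0, 0x44a14ddc199a1dd61ec82, 0,
    0x544563d8d849addafcd4d48298afd8d2d4ddcfac12], [0, 0, 0, 0xddc1ddc1adda14681,
    0x5561dda1c88a1dd61ac12], [0, 0x6661eea1ee61e88a18a41, 0, 0, 0x44a14ddc199a1ddc1ec82]]

noncomputable def n1884 : Ent := ⟨e1884, noF, [], [], [(8, 15, [7334790850167413569773436004105379185503274260204390087403942012354561, 0]), (9, 14, [7334790875878422277917280412776772662961875900559637987928627377180673, 0]), (16, 14, [7334685589297762428874426903420482469988158645819485339342058431029249, 0]), (17, 14, [6903326468334360900303599070699561856668565975414084080169086031867905, 0])]⟩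

def c1884 : PLift (Cov.check n1884.C.D v1884 = true) := ⟨by decide +kernel⟩

def b1884 : PLift (entF (fidx ts) 400 1884 n1884 = true) := ⟨by decide +kernel⟩

theorem g1884 : GoodF (fidx ts) 400 1884 := GoodF.ofV v1884 n1884 c1884.down b1884.down

/-- 4579454:1607/1 -/
noncomputable def e1885 : SCfg where
  D := {
    a := 7
    L := 10
    kp := 8
    inn := [(0, 1), (0, 2), (0, 3), (1, 0), (1, 2), (2, 0), (2, 1), (2, 3), (3, 0), (3, 2), (3, 4), (3,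
      5), (3, 6), (4, 3), (4, 5), (5, 3), (5, 4), (6, 3)]
    mix := [(0, 0), (1, 0), (1, 1), (1, 2), (2, 2), (2, 3), (2, 4), (2, 5), (3, 0), (3, 5), (3, 6), (3,
      7), (4, 7), (4, 8), (5, 0), (5, 1), (5, 8), (6, 6), (6, 7), (6, 9)]
    cl := [0, 2, 1, 6, 7, 3, 4, 0, 5, 8]
    chq := [(0, 1), (0, 3), (0, 4), (0, 6), (0, 7), (1, 0), (3, 0), (4, 0), (6, 0), (7, 0)]
    rng := [(0, 1), (1, 0), (1, 2), (1, 8), (2, 1), (2, 3), (3, 2), (3, 4), (4, 3), (4, 5), (5, 4), (5,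
      6), (6, 5), (6, 9), (7, 8), (7, 9), (8, 1), (8, 7), (9, 6), (9, 7)]
    lev := [] }
  links := [[1, 2, 3, 7], [2, 0, 7, 8, 9], [3, 0, 1, 9, 10, 11, 12], [7, 0, 2, 12, 13, 6, 14, 4, 5], [5,
    3, 14, 15], [7, 3, 4, 15, 8], [14, 3, 13, 16]]
  P := {
    a := 7
    N := 17
    nb := [142, 901, 7691, 28917, 49192, 33176, 90120, 299, 33442, 1286, 2564, 5124, 10252, 69704,
      98392, 16688, 24640]
    tri := [(0, 1, 2), (0, 1, 7), (0, 2, 3), (0, 3, 7), (1, 2, 9), (1, 7, 8), (1, 8, 9), (2, 3, 12),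
      (2, 9, 10), (2, 10, 11), (2, 11, 12), (3, 4, 5), (3, 4, 14), (3, 5, 7), (3, 6, 13), (3, 6,
      14), (3, 12, 13), (4, 5, 15), (4, 14, 15), (5, 7, 8), (5, 8, 15), (6, 13, 16), (6, 14, 16)]
    fin := [0, 0, 0, 0, 0, 0, 0, 0, 8, 9, 10, 11, 12, 13, 0, 15, 16]
    chd := [(0, 9), (0, 10), (0, 11), (0, 12), (0, 13)]
    steps := [(0, 1), (0, 2), (0, 3), (0, 4), (0, 6), (0, 7), (0, 5), (0, 14)] }
  rep := [0, 9, 8, 12, 13, 15, 10, 11, 16]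

noncomputable def v1885 : Cov.CovD where
  P := 3
  N := 6
  pl := [1, 8, 9]
  lev := [⟨[], [], [], [], [(0, 0, [1, 3, 4, 6, 7])]⟩,
    ⟨[], [(0, 0), (0, 1)], [(0, 1)], [2], [(0, 0, [1, 3, 4, 6, 7]), (2, 1, [0])]⟩,
    ⟨[(0, 1)], [(0, 0), (0, 1), (0, 3), (0, 6), (0, 7), (1, 0), (1, 1), (1, 3), (1, 6), (1,
      7)], [(1, 3), (1, 6), (1, 7), (3, 6), (3, 7), (6, 7)], [], [(2, 1, [0]), (3, 6, [0]),
      (4, 7, [0]), (5, 3, [0])]⟩,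
    ⟨[(0, 1), (0, 2), (1, 2)], [(0, 0), (0, 3), (0, 4), (1, 0), (2, 0), (2, 1), (2, 3), (2,
      4), (2, 6), (2, 7)], [(0, 0), (0, 3), (0, 4), (3, 4)], [], [(0, 0, [1, 3, 4, 6, 7]),
      (5, 3, [0]), (6, 4, [0]), (7, 0, [1, 3, 4, 6, 7])]⟩,
    ⟨[(0, 3), (2, 3)], [(3, 0), (3, 3), (3, 4)], [], [5], [(7, 0, [1, 3, 4, 6, 7])]⟩,
    ⟨[(0, 3), (2, 3), (3, 4)], [(0, 0), (1, 0), (3, 0), (3, 3), (3, 4), (4, 0)], [], [2,
      5], [(0, 0, [1, 3, 4, 6, 7])]⟩,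
    ⟨[(0, 3), (2, 3), (3, 4), (3, 5)], [(3, 0), (3, 3), (3, 4), (4, 0)], [(0, 4)], [8],
      [(6, 4, [0]), (7, 0, [1, 3, 4, 6, 7])]⟩]
  Ta := [((0, 1), 0, 2), ((7, 8), 0, 5), ((7, 9), 0, 8)]
  Tb := [((1, 0, 2), 2, 0, 1), ((1, 0, 8), 2, 0, 5), ((1, 2, 8), 2, 1, 5), ((2, 1, 3), 1, 2, 6),
    ((3, 2, 4), 6, 1, 7), ((4, 3, 5), 7, 6, 3), ((5, 4, 6), 3, 7, 4), ((6, 5, 9), 4, 3, 8),
    ((7, 8, 9), 0, 5, 8), ((8, 1, 7), 5, 2, 0), ((9, 6, 7), 8, 4, 0)]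
  Tc := [(0, 1, 3), (0, 1, 4), (0, 1, 6), (0, 1, 7), (0, 3, 4), (0, 3, 6), (0, 3, 7), (0, 4, 6),
    (0, 4, 7), (0, 6, 7)]
  Td := [((0, 1), (0, 1), 2), ((0, 1), (7, 8), 5), ((0, 1), (7, 9), 8), ((0, 3), (0, 1), 2), ((0,
    3), (7, 8), 5), ((0, 3), (7, 9), 8), ((0, 4), (0, 1), 2), ((0, 4), (7, 8), 5), ((0, 4),
    (7, 9), 8), ((0, 6), (0, 1), 2), ((0, 6), (7, 8), 5), ((0, 6), (7, 9), 8), ((0, 7), (0,
    1), 2), ((0, 7), (7, 8), 5), ((0, 7), (7, 9), 8), ((1, 0), (2, 1), 2), ((1, 0), (2, 3),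
    6), ((3, 0), (5, 4), 7), ((3, 0), (5, 6), 4), ((4, 0), (6, 5), 3), ((4, 0), (6, 9), 8),
    ((6, 0), (3, 2), 1), ((6, 0), (3, 4), 7), ((7, 0), (4, 3), 6), ((7, 0), (4, 5), 3)]
  G := [[0, 0x1114c1811a1111ce142, 0x1412a1812a1814ce184, 0x14241811c21a9211cd2e18c,
    0x3852698b2a98123ce184], [0, 0x141161111a1811ce148, 0, 0xee92e1e4c61468ed2814a,
    0xe8e2ae8e1c618e1e26818a]]

noncomputable def n1885 : Ent := ⟨e1885, noF, [], [], []⟩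

def c1885 : PLift (Cov.check n1885.C.D v1885 = true) := ⟨by decide +kernel⟩

def b1885 : PLift (entF (fidx ts) 400 1885 n1885 = true) := ⟨by decide +kernel⟩

theorem g1885 : GoodF (fidx ts) 400 1885 := GoodF.ofV v1885 n1885 c1885.down b1885.down

/-- 4579454:1607 -/
noncomputable def e1886 : SCfg where
  D := {
    a := 7
    L := 11
    kp := 9
    inn := [(0, 1), (0, 2), (0, 3), (1, 0), (1, 2), (2, 0), (2, 1), (2, 3), (3, 0), (3, 2), (3, 4), (3,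
      5), (3, 6), (4, 3), (4, 5), (5, 3), (5, 4), (6, 3)]
    mix := [(0, 0), (1, 0), (1, 1), (1, 2), (2, 2), (2, 3), (2, 4), (2, 5), (3, 0), (3, 5), (3, 6), (3,
      7), (4, 7), (4, 8), (5, 0), (5, 8), (5, 9), (6, 6), (6, 7), (6, 10)]
    cl := [0, 7, 3, 5, 6, 4, 1, 0, 2, 8, 9]
    chq := [(0, 1), (0, 3), (0, 4), (0, 5), (0, 6), (1, 0), (3, 0), (4, 0), (5, 0), (6, 0)]
    rng := [(0, 1), (0, 9), (1, 0), (1, 2), (2, 1), (2, 3), (3, 2), (3, 4), (4, 3), (4, 5), (5, 4), (5,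
      6), (6, 5), (6, 10), (7, 8), (7, 10), (8, 7), (8, 9), (9, 0), (9, 8), (10, 6), (10, 7)]
    lev := [] }
  links := [[1, 2, 3, 7], [2, 0, 7, 8, 9], [3, 0, 1, 9, 10, 11, 12], [7, 0, 2, 12, 13, 6, 14, 4, 5], [5,
    3, 14, 15], [7, 3, 4, 15, 16], [14, 3, 13, 17]]
  P := {
    a := 7
    N := 18
    nb := [142, 901, 7691, 28917, 49192, 98456, 155656, 65835, 642, 1286, 2564, 5124, 10252, 135240,
      163928, 81968, 32928, 24640]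
    tri := [(0, 1, 2), (0, 1, 7), (0, 2, 3), (0, 3, 7), (1, 2, 9), (1, 7, 8), (1, 8, 9), (2, 3, 12),
      (2, 9, 10), (2, 10, 11), (2, 11, 12), (3, 4, 5), (3, 4, 14), (3, 5, 7), (3, 6, 13), (3, 6,
      14), (3, 12, 13), (4, 5, 15), (4, 14, 15), (5, 7, 16), (5, 15, 16), (6, 13, 17), (6, 14,
      17)]
    fin := [0, 0, 0, 0, 0, 0, 0, 0, 8, 9, 10, 11, 12, 13, 0, 15, 16, 17]
    chd := [(0, 9), (0, 10), (0, 11), (0, 12), (0, 13)]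
    steps := [(0, 1), (0, 2), (0, 3), (0, 4), (0, 5), (0, 6), (0, 7), (0, 14)] }
  rep := [0, 13, 15, 9, 12, 10, 11, 8, 16, 17]

noncomputable def v1886 : Cov.CovD where
  P := 3
  N := 7
  pl := [1, 8, 9, 10]
  lev := [⟨[], [], [], [], [(0, 0, [1, 3, 4, 5, 6])]⟩,
    ⟨[], [(0, 0), (0, 3)], [(0, 3)], [7], [(0, 0, [1, 3, 4, 5, 6]), (2, 3, [0])]⟩,
    ⟨[(0, 1)], [(0, 0), (0, 3), (0, 4), (0, 5), (0, 6), (1, 0), (1, 3), (1, 4), (1, 5), (1,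
      6)], [(3, 4), (3, 5), (3, 6), (4, 5), (4, 6), (5, 6)], [], [(2, 3, [0]), (3, 5, [0]),
      (4, 6, [0]), (5, 4, [0])]⟩,
    ⟨[(0, 1), (0, 2), (1, 2)], [(0, 0), (0, 1), (0, 4), (1, 0), (2, 0), (2, 1), (2, 3), (2,
      4), (2, 5), (2, 6)], [(0, 0), (0, 1), (0, 4), (1, 4)], [], [(0, 0, [1, 3, 4, 5, 6]),
      (5, 4, [0]), (6, 1, [0]), (7, 0, [1, 3, 4, 5, 6])]⟩,
    ⟨[(0, 3), (2, 3)], [(3, 0), (3, 1), (3, 4)], [], [2], [(7, 0, [1, 3, 4, 5, 6])]⟩,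
    ⟨[(0, 3), (2, 3), (3, 4)], [(0, 0), (1, 0), (3, 0), (3, 1), (3, 4), (4, 0)], [], [2,
      8], [(0, 0, [1, 3, 4, 5, 6])]⟩,
    ⟨[(0, 3), (2, 3), (3, 4), (3, 5)], [(3, 0), (3, 1), (3, 4), (4, 0)], [(0, 1)], [9],
      [(6, 1, [0]), (7, 0, [1, 3, 4, 5, 6])]⟩]
  Ta := [((0, 1), 0, 7), ((0, 9), 0, 8), ((7, 8), 0, 2), ((7, 10), 0, 9)]
  Tb := [((0, 1, 9), 0, 7, 8), ((1, 0, 2), 7, 0, 3), ((2, 1, 3), 3, 7, 5), ((3, 2, 4), 5, 3, 6),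
    ((4, 3, 5), 6, 5, 4), ((5, 4, 6), 4, 6, 1), ((6, 5, 10), 1, 4, 9), ((7, 8, 10), 0, 2, 9),
    ((8, 7, 9), 2, 0, 8), ((9, 0, 8), 8, 0, 2), ((10, 6, 7), 9, 1, 0)]
  Tc := [(0, 1, 3), (0, 1, 4), (0, 1, 5), (0, 1, 6), (0, 3, 4), (0, 3, 5), (0, 3, 6), (0, 4, 5),
    (0, 4, 6), (0, 5, 6)]
  Td := [((0, 1), (0, 1), 7), ((0, 1), (0, 9), 8), ((0, 1), (7, 8), 2), ((0, 1), (7, 10), 9),
    ((0, 3), (0, 1), 7), ((0, 3), (0, 9), 8), ((0, 3), (7, 8), 2), ((0, 3), (7, 10), 9), ((0,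
    4), (0, 1), 7), ((0, 4), (0, 9), 8), ((0, 4), (7, 8), 2), ((0, 4), (7, 10), 9), ((0, 5),
    (0, 1), 7), ((0, 5), (0, 9), 8), ((0, 5), (7, 8), 2), ((0, 5), (7, 10), 9), ((0, 6), (0,
    1), 7), ((0, 6), (0, 9), 8), ((0, 6), (7, 8), 2), ((0, 6), (7, 10), 9), ((1, 0), (6, 5),
    4), ((1, 0), (6, 10), 9), ((3, 0), (2, 1), 7), ((3, 0), (2, 3), 5), ((4, 0), (5, 4), 6),
    ((4, 0), (5, 6), 1), ((5, 0), (3, 2), 3), ((5, 0), (3, 4), 6), ((6, 0), (4, 3), 5), ((6,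
    0), (4, 5), 4)]
  G := [[0, 0x618c18a1a18c1861c14618c1e2, 0, 0x11c411c8c11418c1418cc111c411c8c1e2,
    0x11a211a8c111a211a8c111a211a2c1e2], [0, 0xa14a1461614618c1614a14c1e8,
    0xcc64cca2c1cc62cca2c148ce448ce8c1e2, 0x4181cc18c1c144181cc1c14c18c1e2,
    0xc12c18c14181ac18c1c12c18c1e2]]

noncomputable def n1886 : Ent := ⟨e1886, noF, [], [], [(8, 16, [7334685537875745012586738086077695515070955365108989538292687701397505, 0])]⟩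

def c1886 : PLift (Cov.check n1886.C.D v1886 = true) := ⟨by decide +kernel⟩

def b1886 : PLift (entF (fidx ts) 400 1886 n1886 = true) := ⟨by decide +kernel⟩

theorem g1886 : GoodF (fidx ts) 400 1886 := GoodF.ofV v1886 n1886 c1886.down b1886.down

/-- 4846844:1610 -/
noncomputable def e1887 : SCfg where
  D := {
    a := 7
    L := 11
    kp := 8
    inn := [(0, 1), (0, 3), (1, 0), (1, 2), (1, 3), (1, 4), (2, 1), (2, 4), (3, 0), (3, 1), (3, 4), (4,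
      1), (4, 2), (4, 3), (4, 5), (4, 6), (5, 4), (6, 4)]
    mix := [(0, 0), (0, 1), (1, 0), (1, 2), (1, 3), (1, 4), (2, 2), (2, 5), (3, 1), (3, 6), (3, 7), (4,
      5), (4, 7), (4, 8), (5, 7), (5, 8), (5, 9), (6, 5), (6, 8), (6, 10)]
    cl := [1, 2, 1, 5, 6, 0, 4, 0, 3, 7, 8]
    chq := [(0, 3), (1, 4), (3, 0), (4, 1)]
    rng := [(0, 1), (0, 4), (1, 0), (1, 6), (2, 3), (2, 5), (3, 2), (3, 4), (4, 0), (4, 3), (5, 2), (5,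
      10), (6, 1), (6, 7), (7, 6), (7, 9), (8, 9), (8, 10), (9, 7), (9, 8), (10, 5), (10, 8)]
    lev := [] }
  links := [[1, 7, 8, 3], [7, 0, 3, 4, 2, 9, 10, 11], [9, 1, 4, 12], [4, 1, 0, 8, 13, 14], [12, 2, 1, 3,
    14, 5, 15, 6], [15, 4, 14, 16], [12, 4, 15, 17]]
  P := {
    a := 7
    N := 18
    nb := [394, 3741, 4626, 24851, 53358, 114704, 167952, 2307, 8329, 5126, 2562, 1154, 131668, 16648,
      73784, 196720, 49184, 36928]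
    tri := [(0, 1, 3), (0, 1, 7), (0, 3, 8), (0, 7, 8), (1, 2, 4), (1, 2, 9), (1, 3, 4), (1, 7, 11),
      (1, 9, 10), (1, 10, 11), (2, 4, 12), (2, 9, 12), (3, 4, 14), (3, 8, 13), (3, 13, 14), (4, 5,
      14), (4, 5, 15), (4, 6, 12), (4, 6, 15), (5, 14, 16), (5, 15, 16), (6, 12, 17), (6, 15, 17)]
    fin := [0, 0, 0, 0, 4, 4, 4, 0, 8, 0, 10, 11, 4, 13, 4, 15, 16, 17]
    chd := [(0, 13), (4, 15)]
    steps := [(0, 1), (0, 2), (0, 3), (0, 7), (0, 9), (4, 5), (4, 6), (4, 14), (4, 12)] }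
  rep := [4, 0, 8, 15, 13, 10, 11, 16, 17]

noncomputable def v1887 : Cov.CovD where
  P := 3
  N := 6
  pl := [1, 3, 4, 9, 10]
  lev := [⟨[], [], [], [2], [(0, 1, [4])]⟩,
    ⟨[], [(0, 1)], [(1, 1)], [5, 6], [(0, 1, [4]), (2, 1, [4])]⟩,
    ⟨[(0, 1)], [(1, 0), (1, 1)], [(0, 1)], [], [(2, 1, [4]), (5, 0, [3])]⟩,
    ⟨[(0, 1), (1, 2)], [(0, 0), (0, 1), (0, 4), (1, 0), (1, 1), (1, 4)], [(0, 4)], [2],
      [(6, 4, [1]), (7, 0, [3])]⟩,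
    ⟨[(0, 1), (0, 3), (1, 2), (1, 3), (2, 3)], [(1, 0), (1, 1), (1, 3), (2, 0), (2, 1), (2,
      3), (3, 0), (3, 3), (3, 4)], [(0, 0), (0, 3)], [], [(5, 0, [3]), (7, 0, [3]), (8, 3,
      [0])]⟩,
    ⟨[(1, 4), (2, 4), (3, 4)], [(3, 0), (4, 0), (4, 3)], [(0, 3)], [7], [(7, 0, [3]), (8,
      3, [0])]⟩,
    ⟨[(1, 4), (2, 4), (3, 4), (4, 5)], [(2, 0), (4, 0), (4, 3), (5, 3)], [(0, 3)], [8],
      [(5, 0, [3]), (8, 3, [0])]⟩]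
  Ta := [((0, 1), 1, 2), ((0, 4), 1, 6), ((2, 3), 1, 5), ((2, 5), 1, 0), ((5, 2), 0, 1), ((5,
    10), 0, 8), ((7, 6), 0, 4), ((7, 9), 0, 7)]
  Tb := [((0, 1, 4), 1, 2, 6), ((1, 0, 6), 2, 1, 4), ((2, 3, 5), 1, 5, 0), ((3, 2, 4), 5, 1, 6),
    ((4, 0, 3), 6, 1, 5), ((5, 2, 10), 0, 1, 8), ((6, 1, 7), 4, 2, 0), ((7, 6, 9), 0, 4, 7),
    ((8, 9, 10), 3, 7, 8), ((9, 7, 8), 7, 0, 3), ((10, 5, 8), 8, 0, 3)]
  Tc := []
  Td := [((0, 3), (5, 2), 1), ((0, 3), (5, 10), 8), ((0, 3), (7, 6), 4), ((0, 3), (7, 9), 7),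
    ((1, 4), (0, 1), 2), ((1, 4), (0, 4), 6), ((1, 4), (2, 3), 5), ((1, 4), (2, 5), 0), ((3,
    0), (8, 9), 7), ((3, 0), (8, 10), 8), ((4, 1), (6, 1), 2), ((4, 1), (6, 7), 0)]
  G := [[0, 0, 0x612484a12a6c781662128c61286acb82a6a8b61c22dc,
    0xa4ce21ca2e416864e216cae82ac16c1ac2b6445889ce3ec8d4268148c,
    0xa8a21e1426646212e921c2a4a52a47c22d2282489], [0,
    0x21241e1acc1816814c681e164161ac41888184ee181661a1c1ec2188ae1,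
    0xc12aaabc166461246124628f8acc12642ea1c1ea4d618248c, 0,
    0x2242e1864623c41426a8b21c2c58a6d816288a24238ac89], [0, 0,
    0x124224c19e1862182328ac142142a593e82a59a956c22dc,
    0x18319e64a9a2548c13c48ea91e21962c5418c3cc8ca1da2165e2cc1c41498cc6d1,
    0xcb1e1862182128ac142142a1cae12c2612c16ec21882cd1], [0, 0,
    0x142124a1cae14a2c9564231a82c5c16e18621821286c8c, 0,
    0xc6a42112426421cae14aac3164259a82cd11c211611caa489]]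

noncomputable def n1887 : Ent := ⟨e1887, noF, [], [], []⟩

def c1887 : PLift (Cov.check n1887.C.D v1887 = true) := ⟨by decide +kernel⟩

def b1887 : PLift (entF (fidx ts) 400 1887 n1887 = true) := ⟨by decide +kernel⟩

theorem g1887 : GoodF (fidx ts) 400 1887 := GoodF.ofV v1887 n1887 c1887.down b1887.down

/-- 4846644:1611/2 -/
noncomputable def e1888 : SCfg where
  D := {
    a := 7
    L := 9
    kp := 6
    inn := [(0, 1), (0, 3), (1, 0), (1, 2), (1, 3), (1, 5), (2, 1), (3, 0), (3, 1), (3, 4), (4, 3), (4,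
      6), (5, 1), (6, 4)]
    mix := [(0, 0), (0, 1), (1, 0), (1, 2), (1, 3), (1, 4), (2, 2), (2, 3), (2, 5), (3, 1), (3, 2), (3,
      6), (4, 1), (4, 6), (4, 7), (4, 8), (5, 3), (5, 4), (5, 8), (6, 0), (6, 1), (6, 7)]
    cl := [0, 1, 0, 3, 4, 6, 2, 5, 1]
    chq := [(0, 3), (3, 0), (3, 4), (4, 3)]
    rng := [(0, 1), (0, 4), (0, 7), (1, 0), (2, 5), (2, 6), (3, 5), (3, 8), (4, 0), (4, 8), (5, 2), (5,
      3), (6, 2), (6, 8), (7, 0), (7, 8), (8, 3), (8, 4), (8, 6), (8, 7)]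
    lev := [] }
  links := [[1, 7, 8, 3], [7, 0, 3, 9, 2, 10, 5, 11], [10, 1, 9, 12], [9, 1, 0, 8, 4, 13], [13, 3, 8, 6,
    14, 15], [11, 1, 10, 15], [14, 4, 8, 7]]
  P := {
    a := 7
    N := 16
    nb := [394, 3757, 5634, 8979, 57672, 35842, 16784, 18755, 217, 12302, 36902, 32930, 1540, 33304,
      32976, 27696]
    tri := [(0, 1, 3), (0, 1, 7), (0, 3, 8), (0, 7, 8), (1, 2, 9), (1, 2, 10), (1, 3, 9), (1, 5, 10),
      (1, 5, 11), (1, 7, 11), (2, 9, 12), (2, 10, 12), (3, 4, 8), (3, 4, 13), (3, 9, 13), (4, 6,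
      8), (4, 6, 14), (4, 13, 15), (4, 14, 15), (5, 10, 15), (5, 11, 15), (6, 7, 8), (6, 7, 14)]
    fin := [0, 1, 0, 0, 4, 4, 0, 0, 4, 0, 1, 11, 12, 13, 14, 4]
    chd := [(0, 1), (1, 11)]
    steps := [(0, 3), (0, 7), (0, 9), (0, 2), (1, 10), (4, 8), (0, 6), (4, 15), (4, 5)] }
  rep := [0, 4, 13, 1, 11, 14, 12]

noncomputable def v1888 : Cov.CovD where
  P := 3
  N := 4
  pl := [5, 6, 7]
  lev := [⟨[], [], [(0, 1)], [], [(0, 0, [3]), (1, 1, [])]⟩,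
    ⟨[], [(0, 0), (0, 1), (0, 3), (0, 4)], [(0, 0), (0, 3), (0, 4), (3, 4)], [], [(0, 0,
      [3]), (2, 0, [3]), (3, 3, [0, 4]), (4, 4, [3])]⟩,
    ⟨[(0, 1)], [(1, 0), (1, 3), (1, 4)], [(0, 3)], [6], [(2, 0, [3]), (3, 3, [0, 4])]⟩,
    ⟨[(0, 1), (1, 2)], [(0, 0), (0, 1), (1, 0), (1, 1), (1, 3), (1, 4), (2, 0)], [(0, 1)],
      [2], [(1, 1, []), (2, 0, [3])]⟩,
    ⟨[(0, 3), (1, 3)], [(0, 1), (3, 0), (3, 1)], [(1, 1)], [2, 5], [(1, 1, []), (8, 1,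
      [])]⟩,
    ⟨[(0, 1), (1, 2), (1, 3)], [(1, 0), (1, 1), (1, 3), (1, 4), (2, 3), (4, 1)], [(1, 3),
      (1, 4), (3, 4)], [], [(3, 3, [0, 4]), (4, 4, [3]), (8, 1, [])]⟩,
    ⟨[(3, 4)], [(0, 0), (0, 1), (1, 0), (3, 1), (4, 0), (4, 1)], [(0, 1)], [5], [(0, 0,
      [3]), (1, 1, [])]⟩]
  Ta := [((0, 1), 0, 1), ((0, 4), 0, 4), ((0, 7), 0, 5), ((1, 0), 1, 0), ((2, 5), 0, 6), ((2, 6),
    0, 2), ((8, 3), 1, 3), ((8, 4), 1, 4), ((8, 6), 1, 2), ((8, 7), 1, 5)]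
  Tb := [((0, 1, 4), 0, 1, 4), ((0, 1, 7), 0, 1, 5), ((0, 4, 7), 0, 4, 5), ((2, 5, 6), 0, 6, 2),
    ((3, 5, 8), 3, 6, 1), ((4, 0, 8), 4, 0, 1), ((5, 2, 3), 6, 0, 3), ((6, 2, 8), 2, 0, 1),
    ((7, 0, 8), 5, 0, 1), ((8, 3, 4), 1, 3, 4), ((8, 3, 6), 1, 3, 2), ((8, 3, 7), 1, 3, 5),
    ((8, 4, 6), 1, 4, 2), ((8, 4, 7), 1, 4, 5), ((8, 6, 7), 1, 2, 5)]
  Tc := [(3, 0, 4)]
  Td := [((0, 3), (0, 1), 1), ((0, 3), (0, 4), 4), ((0, 3), (0, 7), 5), ((0, 3), (2, 5), 6), ((0,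
    3), (2, 6), 2), ((3, 0), (3, 5), 6), ((3, 0), (3, 8), 1), ((3, 4), (3, 5), 6), ((3, 4),
    (3, 8), 1), ((4, 3), (4, 0), 0), ((4, 3), (4, 8), 1)]
  G := [[0, 0x414288c12141c81424828c1e4, 0, 0, 0xc118411818941cccd98b24], [0, 0, 0,
    0x2114211821222d58b24, 0x211884449258181818141181892118f6c11288489298c], [0, 0,
    0x414818c1111c48111c4e28, 0, 0xc118c118c118e21], [0, 0,
    0x1144c21141c2114118ae48111c28148c2414888ae1121c81141c8414818ceac, 0x211421142114e28,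
    0x241821182118ec118a1186118e6c11221182118e89]]

noncomputable def n1888 : Ent := ⟨e1888, noF, [], [], []⟩

def c1888 : PLift (Cov.check n1888.C.D v1888 = true) := ⟨by decide +kernel⟩

def b1888 : PLift (entF (fidx ts) 400 1888 n1888 = true) := ⟨by decide +kernel⟩

theorem g1888 : GoodF (fidx ts) 400 1888 := GoodF.ofV v1888 n1888 c1888.down b1888.down

/-- 4846644:1611/1 -/
noncomputable def e1889 : SCfg where
  D := {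
    a := 7
    L := 10
    kp := 7
    inn := [(0, 1), (0, 3), (1, 0), (1, 2), (1, 3), (1, 5), (2, 1), (3, 0), (3, 1), (3, 4), (4, 3), (4,
      6), (5, 1), (6, 4)]
    mix := [(0, 0), (0, 1), (1, 0), (1, 2), (1, 3), (1, 4), (2, 2), (2, 3), (2, 5), (3, 1), (3, 2), (3,
      6), (4, 1), (4, 6), (4, 7), (4, 8), (5, 3), (5, 4), (5, 9), (6, 0), (6, 1), (6, 7)]
    cl := [2, 0, 1, 3, 1, 5, 0, 4, 6, 7]
    chq := [(0, 4), (1, 3), (3, 1), (4, 0)]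
    rng := [(0, 1), (0, 4), (0, 7), (1, 0), (2, 5), (2, 6), (3, 5), (3, 9), (4, 0), (4, 9), (5, 2), (5,
      3), (6, 2), (6, 8), (7, 0), (7, 8), (8, 6), (8, 7), (9, 3), (9, 4)]
    lev := [] }
  links := [[1, 7, 8, 3], [7, 0, 3, 9, 2, 10, 5, 11], [10, 1, 9, 12], [9, 1, 0, 8, 4, 13], [13, 3, 8, 6,
    14, 15], [11, 1, 10, 16], [14, 4, 8, 7]]
  P := {
    a := 7
    N := 17
    nb := [394, 3757, 5634, 8979, 57672, 68610, 16784, 18755, 217, 12302, 69670, 65698, 1540, 33304,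
      32976, 24592, 3104]
    tri := [(0, 1, 3), (0, 1, 7), (0, 3, 8), (0, 7, 8), (1, 2, 9), (1, 2, 10), (1, 3, 9), (1, 5, 10),
      (1, 5, 11), (1, 7, 11), (2, 9, 12), (2, 10, 12), (3, 4, 8), (3, 4, 13), (3, 9, 13), (4, 6,
      8), (4, 6, 14), (4, 13, 15), (4, 14, 15), (5, 10, 16), (5, 11, 16), (6, 7, 8), (6, 7, 14)]
    fin := [0, 1, 1, 0, 4, 1, 0, 0, 4, 1, 10, 1, 12, 4, 14, 15, 16]
    chd := [(1, 10), (4, 14)]
    steps := [(0, 3), (0, 7), (1, 2), (1, 5), (1, 9), (1, 11), (4, 8), (0, 6), (4, 13)] }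
  rep := [4, 1, 0, 10, 14, 12, 15, 16]

noncomputable def v1889 : Cov.CovD where
  P := 3
  N := 5
  pl := [0, 5, 8, 9]
  lev := [⟨[], [], [], [2], [(1, 0, [4])]⟩,
    ⟨[], [(0, 0), (0, 1), (0, 3)], [(1, 1), (1, 3)], [2], [(2, 1, [3]), (3, 3, [1]), (4, 1,
      [3])]⟩,
    ⟨[(0, 1)], [(1, 1), (1, 3)], [(1, 3)], [5], [(2, 1, [3]), (3, 3, [1])]⟩,
    ⟨[(0, 1), (1, 2)], [(0, 0), (0, 1), (1, 0), (1, 1), (1, 3), (2, 1)], [(0, 0), (0, 1)],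
      [], [(1, 0, [4]), (2, 1, [3]), (6, 0, [4])]⟩,
    ⟨[(0, 3), (1, 3)], [(0, 0), (3, 0), (3, 1), (3, 4)], [(0, 0), (0, 4)], [6], [(1, 0,
      [4]), (6, 0, [4]), (7, 4, [0])]⟩,
    ⟨[(0, 1), (1, 2), (1, 3)], [(1, 1), (1, 3), (2, 3)], [(1, 3)], [7], [(3, 3, [1]), (4,
      1, [3])]⟩,
    ⟨[(3, 4)], [(0, 0), (3, 0), (4, 0), (4, 4)], [(0, 4)], [2], [(1, 0, [4]), (7, 4, [0])]⟩]
  Ta := [((1, 0), 0, 2), ((2, 5), 1, 5), ((2, 6), 1, 0), ((4, 0), 1, 2), ((4, 9), 1, 7), ((6, 2),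
    0, 1), ((6, 8), 0, 6)]
  Tb := [((0, 1, 4), 2, 0, 1), ((0, 1, 7), 2, 0, 4), ((0, 4, 7), 2, 1, 4), ((2, 5, 6), 1, 5, 0),
    ((3, 5, 9), 3, 5, 7), ((4, 0, 9), 1, 2, 7), ((5, 2, 3), 5, 1, 3), ((6, 2, 8), 0, 1, 6),
    ((7, 0, 8), 4, 2, 6), ((8, 6, 7), 6, 0, 4), ((9, 3, 4), 7, 3, 1)]
  Tc := []
  Td := [((0, 4), (1, 0), 2), ((0, 4), (6, 2), 1), ((0, 4), (6, 8), 6), ((1, 3), (2, 5), 5), ((1,
    3), (2, 6), 0), ((1, 3), (4, 0), 2), ((1, 3), (4, 9), 7), ((3, 1), (3, 5), 5), ((3, 1),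
    (3, 9), 7), ((4, 0), (7, 0), 2), ((4, 0), (7, 8), 6)]
  G := [[0, 0, 0x8887a2226e488aaa9223e4962444b22ae84452268838c5c2, 0,
    0x82aaa72227e488caac22ce4ca2226828c888ea222e4592], [0, 0,
    0x414889a8229ec44522568898c344c22c68898c665445225e8ac2,
    0x44cccc6824494885cc9ac2588c8428c, 0x885aa5225e488caac225e488a828e4eaa54885225ac292], [0,
    0x114111e2811111e264811111e2114111e2a8c, 0, 0,
    0x883113226e488c1222ce4c82115225e488611a22ae4592], [0, 0, 0,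
    0x14c95c682481c8424494885119ac29c, 0x8851124e48153828e48811c22ce4142164f115995225e8292]]

noncomputable def n1889 : Ent := ⟨e1889, noF, [], [], [(15, 16, [1580044410770988437309982408355971841652082177953823432505696845825, 0])]⟩

def c1889 : PLift (Cov.check n1889.C.D v1889 = true) := ⟨by decide +kernel⟩

def b1889 : PLift (entF (fidx ts) 400 1889 n1889 = true) := ⟨by decide +kernel⟩

theorem g1889 : GoodF (fidx ts) 400 1889 := GoodF.ofV v1889 n1889 c1889.down b1889.down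

/-- 4846644:1611/3 -/
noncomputable def e1890 : SCfg where
  D := {
    a := 7
    L := 10
    kp := 7
    inn := [(0, 1), (0, 3), (1, 0), (1, 2), (1, 3), (1, 5), (2, 1), (3, 0), (3, 1), (3, 4), (4, 3), (4,
      6), (5, 1), (6, 4)]
    mix := [(0, 0), (0, 1), (1, 0), (1, 2), (1, 3), (1, 4), (2, 2), (2, 3), (2, 5), (3, 1), (3, 2), (3,
      6), (4, 1), (4, 6), (4, 7), (4, 8), (5, 3), (5, 4), (5, 9), (6, 1), (6, 7), (6, 9)]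
    cl := [2, 1, 0, 3, 0, 7, 1, 5, 6, 4]
    chq := [(0, 3), (3, 0), (4, 6), (6, 4)]
    rng := [(0, 1), (0, 4), (1, 0), (1, 9), (2, 5), (2, 6), (3, 5), (3, 9), (4, 0), (4, 9), (5, 2), (5,
      3), (6, 2), (6, 8), (7, 8), (7, 9), (8, 6), (8, 7), (9, 1), (9, 3), (9, 4), (9, 7)]
    lev := [] }
  links := [[1, 7, 8, 3], [7, 0, 3, 9, 2, 10, 5, 11], [10, 1, 9, 12], [9, 1, 0, 8, 4, 13], [13, 3, 8, 6,
    14, 15], [11, 1, 10, 16], [14, 4, 8, 16]]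
  P := {
    a := 7
    N := 17
    nb := [394, 3757, 5634, 8979, 57672, 68610, 82192, 2307, 65753, 12302, 69670, 65698, 1540, 33304,
      98384, 24592, 19808]
    tri := [(0, 1, 3), (0, 1, 7), (0, 3, 8), (0, 7, 8), (1, 2, 9), (1, 2, 10), (1, 3, 9), (1, 5, 10),
      (1, 5, 11), (1, 7, 11), (2, 9, 12), (2, 10, 12), (3, 4, 8), (3, 4, 13), (3, 9, 13), (4, 6,
      8), (4, 6, 14), (4, 13, 15), (4, 14, 15), (5, 10, 16), (5, 11, 16), (6, 8, 16), (6, 14, 16)]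
    fin := [0, 1, 1, 3, 4, 4, 4, 0, 3, 1, 10, 1, 12, 3, 14, 15, 4]
    chd := [(1, 10), (15, 4)]
    steps := [(0, 7), (1, 2), (1, 9), (1, 11), (3, 8), (3, 13), (4, 6), (4, 16), (4, 5)] }
  rep := [1, 3, 0, 10, 4, 14, 15, 12]

noncomputable def v1890 : Cov.CovD where
  P := 3
  N := 5
  pl := [0, 5, 7]
  lev := [⟨[], [], [], [2], [(1, 1, [])]⟩,
    ⟨[], [(0, 0), (0, 1), (0, 3)], [(0, 0), (0, 3)], [2], [(2, 0, [3]), (3, 3, [0]), (4, 0,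
      [3])]⟩,
    ⟨[(0, 1)], [(1, 0), (1, 3)], [(0, 3)], [7], [(2, 0, [3]), (3, 3, [0])]⟩,
    ⟨[(0, 1), (1, 2)], [(0, 0), (0, 1), (1, 0), (1, 1), (1, 3), (2, 0)], [(0, 1), (1, 1)],
      [], [(1, 1, []), (2, 0, [3]), (6, 1, [])]⟩,
    ⟨[(0, 3), (1, 3)], [(0, 1), (3, 0), (3, 1), (3, 6)], [(1, 1), (1, 6)], [5], [(1, 1,
      []), (6, 1, []), (8, 6, [4])]⟩,
    ⟨[(0, 1), (1, 2), (1, 3)], [(1, 0), (1, 3), (1, 4), (2, 3)], [(0, 3), (0, 4), (3, 4)],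
      [], [(3, 3, [0]), (4, 0, [3]), (9, 4, [6])]⟩,
    ⟨[(3, 4)], [(0, 1), (3, 1), (4, 1), (4, 4), (4, 6), (5, 4)], [(1, 4)], [5], [(1, 1,
      []), (9, 4, [6])]⟩]
  Ta := [((1, 0), 1, 2), ((1, 9), 1, 4), ((2, 5), 0, 7), ((2, 6), 0, 1), ((4, 0), 0, 2), ((4, 9),
    0, 4), ((6, 2), 1, 0), ((6, 8), 1, 6)]
  Tb := [((0, 1, 4), 2, 1, 0), ((1, 0, 9), 1, 2, 4), ((2, 5, 6), 0, 7, 1), ((3, 5, 9), 3, 7, 4),
    ((4, 0, 9), 0, 2, 4), ((5, 2, 3), 7, 0, 3), ((6, 2, 8), 1, 0, 6), ((7, 8, 9), 5, 6, 4),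
    ((8, 6, 7), 6, 1, 5), ((9, 1, 3), 4, 1, 3), ((9, 1, 4), 4, 1, 0), ((9, 1, 7), 4, 1, 5),
    ((9, 3, 4), 4, 3, 0), ((9, 3, 7), 4, 3, 5), ((9, 4, 7), 4, 0, 5)]
  Tc := []
  Td := [((0, 3), (2, 5), 7), ((0, 3), (2, 6), 1), ((0, 3), (4, 0), 2), ((0, 3), (4, 9), 4), ((3,
    0), (3, 5), 7), ((3, 0), (3, 9), 4), ((4, 6), (9, 1), 1), ((4, 6), (9, 3), 3), ((4, 6),
    (9, 4), 0), ((4, 6), (9, 7), 5), ((6, 4), (8, 6), 1), ((6, 4), (8, 7), 5)]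
  G := [[0, 0, 0, 0x51993113d4529112d4a5539111d8519212d86c1,
    0x853193113d491115515c8cc51649611d8555999119d46a1], [0,
    0x11a151e2211a151e21131485e26c61a1c1e4889, 0, 0,
    0x323293113d431115218cc322212d4213111d86a1], [0, 0, 0x94c145814812585692cc1685c189418c,
    0x855e911ec44ed415292c2d85292c2d86c1, 0x85c91cc1cd4115c496186d894c81c585c8c5292c2d87a1],
    [0, 0, 0x2414941322212d41a8891c18d418a, 0, 0x6862212d483c22c82cd49223262d83222c2d45a1]]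

noncomputable def n1890 : Ent := ⟨e1890, noF, [], [], []⟩

def c1890 : PLift (Cov.check n1890.C.D v1890 = true) := ⟨by decide +kernel⟩

def b1890 : PLift (entF (fidx ts) 400 1890 n1890 = true) := ⟨by decide +kernel⟩

theorem g1890 : GoodF (fidx ts) 400 1890 := GoodF.ofV v1890 n1890 c1890.down b1890.down

/-- 4846644:1611/4 -/
noncomputable def e1891 : SCfg where
  D := {
    a := 7
    L := 10
    kp := 7
    inn := [(0, 1), (0, 3), (1, 0), (1, 2), (1, 3), (1, 5), (2, 1), (3, 0), (3, 1), (3, 4), (4, 3), (4,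
      6), (5, 1), (6, 4)]
    mix := [(0, 0), (0, 1), (1, 0), (1, 2), (1, 3), (1, 4), (2, 2), (2, 3), (2, 5), (3, 1), (3, 2), (3,
      6), (4, 1), (4, 6), (4, 7), (4, 8), (5, 3), (5, 4), (5, 7), (6, 1), (6, 7), (6, 9)]
    cl := [2, 1, 0, 3, 0, 7, 1, 4, 5, 6]
    chq := [(0, 3), (3, 0), (5, 6), (6, 5)]
    rng := [(0, 1), (0, 4), (1, 0), (1, 9), (2, 5), (2, 6), (3, 5), (3, 7), (4, 0), (4, 7), (5, 2), (5,
      3), (6, 2), (6, 8), (7, 3), (7, 4), (7, 8), (7, 9), (8, 6), (8, 7), (9, 1), (9, 7)]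
    lev := [] }
  links := [[1, 7, 8, 3], [7, 0, 3, 9, 2, 10, 5, 11], [10, 1, 9, 12], [9, 1, 0, 8, 4, 13], [13, 3, 8, 6,
    14, 15], [11, 1, 10, 14], [14, 4, 8, 16]]
  P := {
    a := 7
    N := 17
    nb := [394, 3757, 5634, 8979, 57672, 19458, 82192, 2307, 65753, 12302, 20518, 16546, 1540, 33304,
      101488, 24592, 16704]
    tri := [(0, 1, 3), (0, 1, 7), (0, 3, 8), (0, 7, 8), (1, 2, 9), (1, 2, 10), (1, 3, 9), (1, 5, 10),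
      (1, 5, 11), (1, 7, 11), (2, 9, 12), (2, 10, 12), (3, 4, 8), (3, 4, 13), (3, 9, 13), (4, 6,
      8), (4, 6, 14), (4, 13, 15), (4, 14, 15), (5, 10, 14), (5, 11, 14), (6, 8, 16), (6, 14, 16)]
    fin := [0, 1, 1, 3, 4, 5, 4, 0, 3, 1, 10, 1, 12, 3, 5, 15, 4]
    chd := [(1, 10), (15, 4)]
    steps := [(0, 7), (1, 2), (1, 9), (1, 11), (3, 8), (3, 13), (4, 6), (4, 16), (5, 14)] }
  rep := [1, 3, 0, 10, 5, 15, 4, 12]

noncomputable def v1891 : Cov.CovD where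
  P := 3
  N := 5
  pl := [0, 5, 7]
  lev := [⟨[], [], [], [2], [(1, 1, [])]⟩,
    ⟨[], [(0, 0), (0, 1), (0, 3)], [(0, 0), (0, 3)], [2], [(2, 0, [3]), (3, 3, [0]), (4, 0,
      [3])]⟩,
    ⟨[(0, 1)], [(1, 0), (1, 3)], [(0, 3)], [7], [(2, 0, [3]), (3, 3, [0])]⟩,
    ⟨[(0, 1), (1, 2)], [(0, 0), (0, 1), (1, 0), (1, 1), (1, 3), (2, 0)], [(0, 1), (1, 1)],
      [], [(1, 1, []), (2, 0, [3]), (6, 1, [])]⟩,
    ⟨[(0, 3), (1, 3)], [(0, 1), (3, 0), (3, 1), (3, 5)], [(1, 1), (1, 5)], [4], [(1, 1,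
      []), (6, 1, []), (8, 5, [6])]⟩,
    ⟨[(0, 1), (1, 2), (1, 3)], [(1, 0), (1, 3), (2, 3)], [(0, 3)], [4], [(3, 3, [0]), (4,
      0, [3])]⟩,
    ⟨[(3, 4)], [(0, 1), (3, 1), (4, 1), (4, 5), (4, 6)], [(1, 6)], [4], [(1, 1, []), (9, 6,
      [5])]⟩]
  Ta := [((1, 0), 1, 2), ((1, 9), 1, 6), ((2, 5), 0, 7), ((2, 6), 0, 1), ((4, 0), 0, 2), ((4, 7),
    0, 4), ((6, 2), 1, 0), ((6, 8), 1, 5)]
  Tb := [((0, 1, 4), 2, 1, 0), ((1, 0, 9), 1, 2, 6), ((2, 5, 6), 0, 7, 1), ((3, 5, 7), 3, 7, 4),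
    ((4, 0, 7), 0, 2, 4), ((5, 2, 3), 7, 0, 3), ((6, 2, 8), 1, 0, 5), ((7, 3, 4), 4, 3, 0),
    ((7, 3, 8), 4, 3, 5), ((7, 3, 9), 4, 3, 6), ((7, 4, 8), 4, 0, 5), ((7, 4, 9), 4, 0, 6),
    ((7, 8, 9), 4, 5, 6), ((8, 6, 7), 5, 1, 4), ((9, 1, 7), 6, 1, 4)]
  Tc := []
  Td := [((0, 3), (2, 5), 7), ((0, 3), (2, 6), 1), ((0, 3), (4, 0), 2), ((0, 3), (4, 7), 4), ((3,
    0), (3, 5), 7), ((3, 0), (3, 7), 4), ((5, 6), (8, 6), 1), ((5, 6), (8, 7), 4), ((6, 5),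
    (9, 1), 1), ((6, 5), (9, 7), 4)]
  G := [[0, 0, 0, 0x1111548c7d41242518889ca11911c1d81214485d86c1,
    0x11116c1d41814849d4c1112485d81191184cdd46a1], [0,
    0x111111e2441111a1146111112e2a111111e22cc, 0, 0,
    0x113114287d4111484cd4c2211426d811115a1d46a1], [0, 0, 0x1441884c9c1121164c6d81a4,
    0x181284ad4589284ad431441884a9c41694486d89c1,
    0x1294486d494485884c94d58c298896c254168c5a1], [0, 0, 0x11a2282ad812181484cd8146, 0,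
    0x144265188c181482ad4382482cd4722126426d41a1]]

noncomputable def n1891 : Ent := ⟨e1891, noF, [], [], []⟩

def c1891 : PLift (Cov.check n1891.C.D v1891 = true) := ⟨by decide +kernel⟩

def b1891 : PLift (entF (fidx ts) 400 1891 n1891 = true) := ⟨by decide +kernel⟩

theorem g1891 : GoodF (fidx ts) 400 1891 := GoodF.ofV v1891 n1891 c1891.down b1891.down

/-- 4846644:1611/5 -/
noncomputable def e1892 : SCfg where
  D := {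
    a := 7
    L := 10
    kp := 7
    inn := [(0, 1), (0, 3), (1, 0), (1, 2), (1, 3), (1, 5), (2, 1), (3, 0), (3, 1), (3, 4), (4, 3), (4,
      6), (5, 1), (6, 4)]
    mix := [(0, 0), (0, 1), (1, 0), (1, 2), (1, 3), (1, 4), (2, 2), (2, 3), (2, 5), (3, 1), (3, 2), (3,
      6), (4, 1), (4, 6), (4, 7), (4, 8), (5, 3), (5, 4), (5, 8), (6, 1), (6, 7), (6, 9)]
    cl := [2, 1, 0, 3, 0, 7, 1, 5, 4, 6]
    chq := [(0, 3), (3, 0), (4, 6), (6, 4)]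
    rng := [(0, 1), (0, 4), (1, 0), (1, 9), (2, 5), (2, 6), (3, 5), (3, 8), (4, 0), (4, 8), (5, 2), (5,
      3), (6, 2), (6, 8), (7, 8), (7, 9), (8, 3), (8, 4), (8, 6), (8, 7), (9, 1), (9, 7)]
    lev := [] }
  links := [[1, 7, 8, 3], [7, 0, 3, 9, 2, 10, 5, 11], [10, 1, 9, 12], [9, 1, 0, 8, 4, 13], [13, 3, 8, 6,
    14, 15], [11, 1, 10, 15], [14, 4, 8, 16]]
  P := {
    a := 7
    N := 17
    nb := [394, 3757, 5634, 8979, 57672, 35842, 82192, 2307, 65753, 12302, 36902, 32930, 1540, 33304,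
      98384, 27696, 16704]
    tri := [(0, 1, 3), (0, 1, 7), (0, 3, 8), (0, 7, 8), (1, 2, 9), (1, 2, 10), (1, 3, 9), (1, 5, 10),
      (1, 5, 11), (1, 7, 11), (2, 9, 12), (2, 10, 12), (3, 4, 8), (3, 4, 13), (3, 9, 13), (4, 6,
      8), (4, 6, 14), (4, 13, 15), (4, 14, 15), (5, 10, 15), (5, 11, 15), (6, 8, 16), (6, 14, 16)]
    fin := [0, 1, 1, 3, 4, 5, 4, 0, 3, 1, 10, 1, 12, 3, 14, 5, 4]
    chd := [(1, 10), (5, 4)]
    steps := [(0, 7), (1, 2), (1, 9), (1, 11), (3, 8), (3, 13), (4, 6), (4, 16), (5, 15)] }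
  rep := [1, 3, 0, 10, 5, 14, 4, 12]

noncomputable def v1892 : Cov.CovD where
  P := 3
  N := 5
  pl := [0, 5, 7]
  lev := [⟨[], [], [], [2], [(1, 1, [])]⟩,
    ⟨[], [(0, 0), (0, 1), (0, 3)], [(0, 0), (0, 3)], [2], [(2, 0, [3]), (3, 3, [0]), (4, 0,
      [3])]⟩,
    ⟨[(0, 1)], [(1, 0), (1, 3)], [(0, 3)], [7], [(2, 0, [3]), (3, 3, [0])]⟩,
    ⟨[(0, 1), (1, 2)], [(0, 0), (0, 1), (1, 0), (1, 1), (1, 3), (2, 0)], [(0, 1), (1, 1)],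
      [], [(1, 1, []), (2, 0, [3]), (6, 1, [])]⟩,
    ⟨[(0, 3), (1, 3)], [(0, 1), (3, 0), (3, 1), (3, 4)], [(1, 1), (1, 4)], [5], [(1, 1,
      []), (6, 1, []), (8, 4, [6])]⟩,
    ⟨[(0, 1), (1, 2), (1, 3)], [(1, 0), (1, 3), (1, 4), (2, 3), (4, 4)], [(0, 3), (0, 4),
      (3, 4)], [], [(3, 3, [0]), (4, 0, [3]), (8, 4, [6])]⟩,
    ⟨[(3, 4)], [(0, 1), (3, 1), (4, 1), (4, 4), (4, 6)], [(1, 6)], [5], [(1, 1, []), (9, 6,
      [4])]⟩]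
  Ta := [((1, 0), 1, 2), ((1, 9), 1, 6), ((2, 5), 0, 7), ((2, 6), 0, 1), ((4, 0), 0, 2), ((4, 8),
    0, 4), ((6, 2), 1, 0), ((6, 8), 1, 4)]
  Tb := [((0, 1, 4), 2, 1, 0), ((1, 0, 9), 1, 2, 6), ((2, 5, 6), 0, 7, 1), ((3, 5, 8), 3, 7, 4),
    ((4, 0, 8), 0, 2, 4), ((5, 2, 3), 7, 0, 3), ((6, 2, 8), 1, 0, 4), ((7, 8, 9), 5, 4, 6),
    ((8, 3, 4), 4, 3, 0), ((8, 3, 6), 4, 3, 1), ((8, 3, 7), 4, 3, 5), ((8, 4, 6), 4, 0, 1),
    ((8, 4, 7), 4, 0, 5), ((8, 6, 7), 4, 1, 5), ((9, 1, 7), 6, 1, 5)]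
  Tc := []
  Td := [((0, 3), (2, 5), 7), ((0, 3), (2, 6), 1), ((0, 3), (4, 0), 2), ((0, 3), (4, 8), 4), ((3,
    0), (3, 5), 7), ((3, 0), (3, 8), 4), ((4, 6), (8, 3), 3), ((4, 6), (8, 4), 0), ((4, 6),
    (8, 6), 1), ((4, 6), (8, 7), 5), ((6, 4), (9, 1), 1), ((6, 4), (9, 7), 5)]
  G := [[0, 0, 0, 0x41883dd3d482d25428ca44a81d1d85282c2d86c1,
    0x443885dd3d4848555c88cc4282d2d84181d1d46a1], [0,
    0x61a1c1e4e1c164238aa61a1c1e261a1c1e86c1, 0, 0,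
    0x21218c5d42884245d4c2124c2d42292854d9d46a1], [0, 0, 0xc44d849c9c14282d2d81a4,
    0x82d25482d2585818c4b4288428812d4c8ced87c1, 0x84d25488cd8944ccd454282d2d85292c2d89a1],
    [0, 0, 0xa422c5488c124a225aad4168, 0, 0x2224256d4282449cd492225528c72683428cd4189]]

noncomputable def n1892 : Ent := ⟨e1892, noF, [], [], [(7, 16, [1580044410770988437309982408355971841652082177953823432505696845825, 0])]⟩

def c1892 : PLift (Cov.check n1892.C.D v1892 = true) := ⟨by decide +kernel⟩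

def b1892 : PLift (entF (fidx ts) 400 1892 n1892 = true) := ⟨by decide +kernel⟩

theorem g1892 : GoodF (fidx ts) 400 1892 := GoodF.ofV v1892 n1892 c1892.down b1892.down

/-- 4846644:1611 -/
noncomputable def e1893 : SCfg where
  D := {
    a := 7
    L := 11
    kp := 8
    inn := [(0, 1), (0, 3), (1, 0), (1, 2), (1, 3), (1, 5), (2, 1), (3, 0), (3, 1), (3, 4), (4, 3), (4,
      6), (5, 1), (6, 4)]
    mix := [(0, 0), (0, 1), (1, 0), (1, 2), (1, 3), (1, 4), (2, 2), (2, 3), (2, 5), (3, 1), (3, 2), (3,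
      6), (4, 1), (4, 6), (4, 7), (4, 8), (5, 3), (5, 4), (5, 9), (6, 1), (6, 7), (6, 10)]
    cl := [2, 1, 0, 3, 0, 7, 1, 4, 5, 8, 6]
    chq := [(0, 3), (3, 0), (5, 6), (6, 5)]
    rng := [(0, 1), (0, 4), (1, 0), (1, 10), (2, 5), (2, 6), (3, 5), (3, 9), (4, 0), (4, 9), (5, 2),
      (5, 3), (6, 2), (6, 8), (7, 8), (7, 10), (8, 6), (8, 7), (9, 3), (9, 4), (10, 1), (10, 7)]
    lev := [] }
  links := [[1, 7, 8, 3], [7, 0, 3, 9, 2, 10, 5, 11], [10, 1, 9, 12], [9, 1, 0, 8, 4, 13], [13, 3, 8, 6,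
    14, 15], [11, 1, 10, 16], [14, 4, 8, 17]]
  P := {
    a := 7
    N := 18
    nb := [394, 3757, 5634, 8979, 57672, 68610, 147728, 2307, 131289, 12302, 69670, 65698, 1540,
      33304, 163920, 24592, 3104, 16704]
    tri := [(0, 1, 3), (0, 1, 7), (0, 3, 8), (0, 7, 8), (1, 2, 9), (1, 2, 10), (1, 3, 9), (1, 5, 10),
      (1, 5, 11), (1, 7, 11), (2, 9, 12), (2, 10, 12), (3, 4, 8), (3, 4, 13), (3, 9, 13), (4, 6,
      8), (4, 6, 14), (4, 13, 15), (4, 14, 15), (5, 10, 16), (5, 11, 16), (6, 8, 17), (6, 14, 17)]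
    fin := [0, 1, 1, 3, 4, 1, 4, 0, 3, 1, 10, 1, 12, 3, 14, 15, 16, 4]
    chd := [(1, 10), (15, 4)]
    steps := [(0, 7), (1, 2), (1, 5), (1, 9), (1, 11), (3, 8), (3, 13), (4, 6), (4, 17)] }
  rep := [1, 3, 0, 10, 14, 15, 4, 12, 16]

noncomputable def v1893 : Cov.CovD where
  P := 3
  N := 6
  pl := [0, 5, 7, 9]
  lev := [⟨[], [], [], [2], [(1, 1, [])]⟩,
    ⟨[], [(0, 0), (0, 1), (0, 3)], [(0, 0), (0, 3)], [2], [(2, 0, [3]), (3, 3, [0]), (4, 0,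
      [3])]⟩,
    ⟨[(0, 1)], [(1, 0), (1, 3)], [(0, 3)], [7], [(2, 0, [3]), (3, 3, [0])]⟩,
    ⟨[(0, 1), (1, 2)], [(0, 0), (0, 1), (1, 0), (1, 1), (1, 3), (2, 0)], [(0, 1), (1, 1)],
      [], [(1, 1, []), (2, 0, [3]), (6, 1, [])]⟩,
    ⟨[(0, 3), (1, 3)], [(0, 1), (3, 0), (3, 1), (3, 5)], [(1, 1), (1, 5)], [4], [(1, 1,
      []), (6, 1, []), (8, 5, [6])]⟩,
    ⟨[(0, 1), (1, 2), (1, 3)], [(1, 0), (1, 3), (2, 3)], [(0, 3)], [8], [(3, 3, [0]), (4,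
      0, [3])]⟩,
    ⟨[(3, 4)], [(0, 1), (3, 1), (4, 1), (4, 5), (4, 6)], [(1, 6)], [4], [(1, 1, []), (10,
      6, [5])]⟩]
  Ta := [((1, 0), 1, 2), ((1, 10), 1, 6), ((2, 5), 0, 7), ((2, 6), 0, 1), ((4, 0), 0, 2), ((4,
    9), 0, 8), ((6, 2), 1, 0), ((6, 8), 1, 5)]
  Tb := [((0, 1, 4), 2, 1, 0), ((1, 0, 10), 1, 2, 6), ((2, 5, 6), 0, 7, 1), ((3, 5, 9), 3, 7, 8),
    ((4, 0, 9), 0, 2, 8), ((5, 2, 3), 7, 0, 3), ((6, 2, 8), 1, 0, 5), ((7, 8, 10), 4, 5, 6),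
    ((8, 6, 7), 5, 1, 4), ((9, 3, 4), 8, 3, 0), ((10, 1, 7), 6, 1, 4)]
  Tc := []
  Td := [((0, 3), (2, 5), 7), ((0, 3), (2, 6), 1), ((0, 3), (4, 0), 2), ((0, 3), (4, 9), 8), ((3,
    0), (3, 5), 7), ((3, 0), (3, 9), 8), ((5, 6), (8, 6), 1), ((5, 6), (8, 7), 4), ((6, 5),
    (10, 1), 1), ((6, 5), (10, 7), 4)]
  G := [[0, 0, 0, 0x555995cc3d45199ac1d4a553993cc9d8556996cc6d86c1,
    0x5557993c1d455c91cccd4c51996c1d851999cccdd86a1], [0,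
    0xa1516118a441131c1e23151a9146a1131c1e82cc, 0, 0,
    0x366833626d43a92153558c62223233ac67d431225c1d4c89], [0, 0,
    0x99c48199a4556cc69c1655cccc9418c, 0x55a99ac124ccc1455a99accad4355a99accad85494cc6d85c5,
    0x556996cc6d4996455cccc9c5898c8d4d9964556cc69c1a1], [0, 0,
    0x92c2ac58123a32a6aad41655c8814a, 0, 0x52c29ca6cd4153c2a62acd462ca3c2ccd862a222d87a1]]

noncomputable def n1893 : Ent := ⟨e1893, noF, [], [], [(7, 17, [6903326391201334775872065844685381424292761054348340378595029937426433, 0]), (17, 16, [7334685537875745012586738086077695515070955365108989538292687701417985, 0]), (14, 16, [7334685537875745012586738086077695515070955365108989538292687701422081, 0]), (15, 16, [7334685537875745012586738086077695515070955365108989538292687701426177, 0])]⟩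

def c1893 : PLift (Cov.check n1893.C.D v1893 = true) := ⟨by decide +kernel⟩

def b1893 : PLift (entF (fidx ts) 400 1893 n1893 = true) := ⟨by decide +kernel⟩

theorem g1893 : GoodF (fidx ts) 400 1893 := GoodF.ofV v1893 n1893 c1893.down b1893.down

/-- 4846644:1612/2 -/
noncomputable def e1894 : SCfg where
  D := {
    a := 7
    L := 9
    kp := 6
    inn := [(0, 1), (0, 3), (1, 0), (1, 2), (1, 3), (1, 5), (2, 1), (3, 0), (3, 1), (3, 4), (4, 3), (4,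
      6), (5, 1), (6, 4)]
    mix := [(0, 0), (0, 1), (1, 0), (1, 2), (1, 3), (1, 4), (2, 2), (2, 3), (2, 5), (3, 1), (3, 2), (3,
      6), (4, 1), (4, 6), (4, 7), (4, 8), (5, 3), (5, 4), (5, 7), (6, 5), (6, 6), (6, 8)]
    cl := [2, 0, 1, 3, 1, 5, 0, 6, 4]
    chq := [(0, 4), (1, 3), (3, 1), (4, 0)]
    rng := [(0, 1), (0, 4), (1, 0), (1, 7), (2, 5), (2, 6), (3, 5), (3, 7), (4, 0), (4, 7), (5, 2), (5,
      3), (5, 6), (5, 8), (6, 2), (6, 5), (7, 1), (7, 3), (7, 4), (7, 8), (8, 5), (8, 7)]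
    lev := [] }
  links := [[1, 7, 8, 3], [7, 0, 3, 9, 2, 10, 5, 11], [10, 1, 9, 12], [9, 1, 0, 8, 4, 13], [13, 3, 8, 14,
    15, 6], [11, 1, 10, 14], [13, 4, 15, 12]]
  P := {
    a := 7
    N := 16
    nb := [394, 3757, 5634, 8979, 57672, 19458, 45072, 2307, 16537, 12302, 20518, 16546, 42564, 4696,
      36144, 20560]
    tri := [(0, 1, 3), (0, 1, 7), (0, 3, 8), (0, 7, 8), (1, 2, 9), (1, 2, 10), (1, 3, 9), (1, 5, 10),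
      (1, 5, 11), (1, 7, 11), (2, 9, 12), (2, 10, 12), (3, 4, 8), (3, 4, 13), (3, 9, 13), (4, 6,
      13), (4, 6, 15), (4, 8, 14), (4, 14, 15), (5, 10, 14), (5, 11, 14), (6, 12, 13), (6, 12,
      15)]
    fin := [0, 1, 2, 0, 4, 5, 4, 0, 4, 1, 10, 1, 2, 4, 5, 15]
    chd := [(1, 10), (4, 15)]
    steps := [(0, 3), (0, 7), (1, 9), (1, 11), (2, 12), (4, 6), (4, 8), (4, 13), (5, 14)] }
  rep := [4, 1, 0, 10, 15, 2, 5]

noncomputable def v1894 : Cov.CovD where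
  P := 3
  N := 4
  pl := [0, 5, 7]
  lev := [⟨[], [], [], [2], [(1, 0, [4])]⟩,
    ⟨[], [(0, 0), (0, 1), (0, 3)], [(1, 1), (1, 3)], [2], [(2, 1, [3]), (3, 3, [1]), (4, 1,
      [3])]⟩,
    ⟨[(0, 1)], [(1, 1), (1, 3)], [(1, 3)], [5], [(2, 1, [3]), (3, 3, [1])]⟩,
    ⟨[(0, 1), (1, 2)], [(0, 0), (0, 1), (1, 0), (1, 1), (1, 3), (2, 1)], [(0, 0), (0, 1)],
      [], [(1, 0, [4]), (2, 1, [3]), (6, 0, [4])]⟩,
    ⟨[(0, 3), (1, 3)], [(0, 0), (3, 0), (3, 1), (3, 4)], [(0, 0), (0, 4)], [6], [(1, 0,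
      [4]), (6, 0, [4]), (8, 4, [0])]⟩,
    ⟨[(0, 1), (1, 2), (1, 3)], [(1, 1), (1, 3), (2, 3)], [(1, 3)], [6], [(3, 3, [1]), (4,
      1, [3])]⟩,
    ⟨[(3, 4)], [(3, 0), (4, 0), (4, 4)], [(0, 4)], [5], [(6, 0, [4]), (8, 4, [0])]⟩]
  Ta := [((1, 0), 0, 2), ((1, 7), 0, 6), ((2, 5), 1, 5), ((2, 6), 1, 0), ((4, 0), 1, 2), ((4, 7),
    1, 6), ((6, 2), 0, 1), ((6, 5), 0, 5)]
  Tb := [((0, 1, 4), 2, 0, 1), ((1, 0, 7), 0, 2, 6), ((2, 5, 6), 1, 5, 0), ((3, 5, 7), 3, 5, 6),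
    ((4, 0, 7), 1, 2, 6), ((5, 2, 3), 5, 1, 3), ((5, 2, 6), 5, 1, 0), ((5, 2, 8), 5, 1, 4),
    ((5, 3, 6), 5, 3, 0), ((5, 3, 8), 5, 3, 4), ((5, 6, 8), 5, 0, 4), ((6, 2, 5), 0, 1, 5),
    ((7, 1, 3), 6, 0, 3), ((7, 1, 4), 6, 0, 1), ((7, 1, 8), 6, 0, 4), ((7, 3, 4), 6, 3, 1),
    ((7, 3, 8), 6, 3, 4), ((7, 4, 8), 6, 1, 4), ((8, 5, 7), 4, 5, 6)]
  Tc := []
  Td := [((0, 4), (1, 0), 2), ((0, 4), (1, 7), 6), ((0, 4), (6, 2), 1), ((0, 4), (6, 5), 5), ((1,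
    3), (2, 5), 5), ((1, 3), (2, 6), 0), ((1, 3), (4, 0), 2), ((1, 3), (4, 7), 6), ((3, 1),
    (3, 5), 5), ((3, 1), (3, 7), 6), ((4, 0), (8, 5), 5), ((4, 0), (8, 7), 6)]
  G := [[0, 0, 0x1212a414226188c11116188cd8248118111e89c4, 0,
    0x128292e4421422e4c13a146225ee8192], [0, 0, 0x115418112dac2111121e81c4,
    0x1441822cac211511125e8294, 0x1831522ce42128323521a41814c4392], [0,
    0x21281e1c1e62126841c6a6141e1e818a22281a4ca6c1, 0, 0,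
    0x418221e4c248cae2ac5182885a23e444626488cc83], [0, 0, 0, 0xc44c822cac241c121e818c294,
    0x81a4c4442168e822ca44121a4fe1216e18c292]]

noncomputable def n1894 : Ent := ⟨e1894, noF, [], [], []⟩

def c1894 : PLift (Cov.check n1894.C.D v1894 = true) := ⟨by decide +kernel⟩

def b1894 : PLift (entF (fidx ts) 400 1894 n1894 = true) := ⟨by decide +kernel⟩

theorem g1894 : GoodF (fidx ts) 400 1894 := GoodF.ofV v1894 n1894 c1894.down b1894.down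

/-- 4846644:1612/1 -/
noncomputable def e1895 : SCfg where
  D := {
    a := 7
    L := 10
    kp := 7
    inn := [(0, 1), (0, 3), (1, 0), (1, 2), (1, 3), (1, 5), (2, 1), (3, 0), (3, 1), (3, 4), (4, 3), (4,
      6), (5, 1), (6, 4)]
    mix := [(0, 0), (0, 1), (1, 0), (1, 2), (1, 3), (1, 4), (2, 2), (2, 3), (2, 5), (3, 1), (3, 2), (3,
      6), (4, 1), (4, 6), (4, 7), (4, 8), (5, 3), (5, 4), (5, 7), (6, 6), (6, 8), (6, 9)]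
    cl := [2, 1, 0, 3, 0, 7, 1, 4, 5, 6]
    chq := [(0, 3), (3, 0), (4, 6), (6, 4)]
    rng := [(0, 1), (0, 4), (1, 0), (1, 7), (2, 5), (2, 6), (3, 5), (3, 7), (4, 0), (4, 7), (5, 2), (5,
      3), (6, 2), (6, 9), (7, 1), (7, 3), (7, 4), (7, 8), (8, 7), (8, 9), (9, 6), (9, 8)]
    lev := [] }
  links := [[1, 7, 8, 3], [7, 0, 3, 9, 2, 10, 5, 11], [10, 1, 9, 12], [9, 1, 0, 8, 4, 13], [13, 3, 8, 14,
    15, 6], [11, 1, 10, 14], [13, 4, 15, 16]]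
  P := {
    a := 7
    N := 17
    nb := [394, 3757, 5634, 8979, 57672, 19458, 106512, 2307, 16537, 12302, 20518, 16546, 1540, 66136,
      36144, 82000, 41024]
    tri := [(0, 1, 3), (0, 1, 7), (0, 3, 8), (0, 7, 8), (1, 2, 9), (1, 2, 10), (1, 3, 9), (1, 5, 10),
      (1, 5, 11), (1, 7, 11), (2, 9, 12), (2, 10, 12), (3, 4, 8), (3, 4, 13), (3, 9, 13), (4, 6,
      13), (4, 6, 15), (4, 8, 14), (4, 14, 15), (5, 10, 14), (5, 11, 14), (6, 13, 16), (6, 15,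
      16)]
    fin := [0, 1, 1, 3, 4, 4, 4, 0, 3, 1, 10, 1, 12, 3, 4, 15, 16]
    chd := [(1, 10), (4, 16)]
    steps := [(0, 7), (1, 2), (1, 9), (1, 11), (3, 8), (3, 13), (4, 6), (4, 14), (4, 5)] }
  rep := [1, 3, 0, 10, 4, 15, 16, 12]

noncomputable def v1895 : Cov.CovD where
  P := 3
  N := 5
  pl := [0, 5, 8]
  lev := [⟨[], [], [], [2], [(1, 1, [])]⟩,
    ⟨[], [(0, 0), (0, 1), (0, 3)], [(0, 0), (0, 3)], [2], [(2, 0, [3]), (3, 3, [0]), (4, 0,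
      [3])]⟩,
    ⟨[(0, 1)], [(1, 0), (1, 3)], [(0, 3)], [7], [(2, 0, [3]), (3, 3, [0])]⟩,
    ⟨[(0, 1), (1, 2)], [(0, 0), (0, 1), (1, 0), (1, 1), (1, 3), (2, 0)], [(0, 1), (1, 1)],
      [], [(1, 1, []), (2, 0, [3]), (6, 1, [])]⟩,
    ⟨[(0, 3), (1, 3)], [(0, 1), (3, 0), (3, 1), (3, 4)], [(1, 1), (1, 4)], [5], [(1, 1,
      []), (6, 1, []), (7, 4, [6])]⟩,
    ⟨[(0, 1), (1, 2), (1, 3)], [(1, 0), (1, 3), (1, 4), (2, 3), (4, 4)], [(0, 3), (0, 4),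
      (3, 4)], [], [(3, 3, [0]), (4, 0, [3]), (7, 4, [6])]⟩,
    ⟨[(3, 4)], [(3, 1), (4, 1), (4, 4), (4, 6)], [(1, 6)], [5], [(6, 1, []), (9, 6, [4])]⟩]
  Ta := [((1, 0), 1, 2), ((1, 7), 1, 4), ((2, 5), 0, 7), ((2, 6), 0, 1), ((4, 0), 0, 2), ((4, 7),
    0, 4), ((6, 2), 1, 0), ((6, 9), 1, 6)]
  Tb := [((0, 1, 4), 2, 1, 0), ((1, 0, 7), 1, 2, 4), ((2, 5, 6), 0, 7, 1), ((3, 5, 7), 3, 7, 4),
    ((4, 0, 7), 0, 2, 4), ((5, 2, 3), 7, 0, 3), ((6, 2, 9), 1, 0, 6), ((7, 1, 3), 4, 1, 3),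
    ((7, 1, 4), 4, 1, 0), ((7, 1, 8), 4, 1, 5), ((7, 3, 4), 4, 3, 0), ((7, 3, 8), 4, 3, 5),
    ((7, 4, 8), 4, 0, 5), ((8, 7, 9), 5, 4, 6), ((9, 6, 8), 6, 1, 5)]
  Tc := []
  Td := [((0, 3), (2, 5), 7), ((0, 3), (2, 6), 1), ((0, 3), (4, 0), 2), ((0, 3), (4, 7), 4), ((3,
    0), (3, 5), 7), ((3, 0), (3, 7), 4), ((4, 6), (7, 1), 1), ((4, 6), (7, 3), 3), ((4, 6),
    (7, 4), 0), ((4, 6), (7, 8), 5), ((6, 4), (9, 6), 1), ((6, 4), (9, 8), 5)]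
  G := [[0, 0, 0, 0x423212c3d482448229ca4188321d8228262d86c1,
    0x41283923d4688421d4c2124c2d4229212c9d86a1], [0, 0x61a1c1e461a1c1e4a61a1c1e261a1c2e26c1,
    0, 0, 0x4181dd3d44184ddcd4c4284d1d4449885d1d86a1], [0, 0, 0x2446828c9c142226276d81a4,
    0x822258529242ad435222a2d862842894226d87c1, 0x22a4246d428a442cd4682894d24629622d81a1],
    [0, 0, 0xc4d9c5488c14282d2d4168, 0, 0xd214282c54282d2d45292c2d4d2d8944ccd4189]]

noncomputable def n1895 : Ent := ⟨e1895, noF, [], [], [(16, 12, [1580044410777118419473445963789405229760683414688298388994431279105, 0])]⟩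

def c1895 : PLift (Cov.check n1895.C.D v1895 = true) := ⟨by decide +kernel⟩

def b1895 : PLift (entF (fidx ts) 400 1895 n1895 = true) := ⟨by decide +kernel⟩

theorem g1895 : GoodF (fidx ts) 400 1895 := GoodF.ofV v1895 n1895 c1895.down b1895.down

/-- 4846644:1612/4 -/
noncomputable def e1896 : SCfg where
  D := {
    a := 7
    L := 9
    kp := 6
    inn := [(0, 1), (0, 3), (1, 0), (1, 2), (1, 3), (1, 5), (2, 1), (3, 0), (3, 1), (3, 4), (4, 3), (4,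
      6), (5, 1), (6, 4)]
    mix := [(0, 0), (0, 1), (1, 0), (1, 2), (1, 3), (1, 4), (2, 2), (2, 3), (2, 5), (3, 1), (3, 2), (3,
      6), (4, 1), (4, 6), (4, 7), (4, 8), (5, 3), (5, 4), (5, 8), (6, 5), (6, 6), (6, 8)]
    cl := [2, 0, 1, 3, 1, 5, 0, 6, 4]
    chq := [(0, 4), (1, 3), (3, 1), (4, 0)]
    rng := [(0, 1), (0, 4), (1, 0), (1, 7), (2, 5), (2, 6), (3, 5), (3, 8), (4, 0), (4, 8), (5, 2), (5,
      3), (5, 6), (5, 8), (6, 2), (6, 5), (7, 1), (7, 8), (8, 3), (8, 4), (8, 5), (8, 7)]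
    lev := [] }
  links := [[1, 7, 8, 3], [7, 0, 3, 9, 2, 10, 5, 11], [10, 1, 9, 12], [9, 1, 0, 8, 4, 13], [13, 3, 8, 14,
    15, 6], [11, 1, 10, 15], [13, 4, 15, 12]]
  P := {
    a := 7
    N := 16
    nb := [394, 3757, 5634, 8979, 57672, 35842, 45072, 2307, 16537, 12302, 36902, 32930, 42564, 4696,
      33040, 23664]
    tri := [(0, 1, 3), (0, 1, 7), (0, 3, 8), (0, 7, 8), (1, 2, 9), (1, 2, 10), (1, 3, 9), (1, 5, 10),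
      (1, 5, 11), (1, 7, 11), (2, 9, 12), (2, 10, 12), (3, 4, 8), (3, 4, 13), (3, 9, 13), (4, 6,
      13), (4, 6, 15), (4, 8, 14), (4, 14, 15), (5, 10, 15), (5, 11, 15), (6, 12, 13), (6, 12,
      15)]
    fin := [0, 1, 2, 0, 4, 5, 4, 0, 4, 1, 10, 1, 2, 4, 14, 5]
    chd := [(1, 10), (4, 5)]
    steps := [(0, 3), (0, 7), (1, 9), (1, 11), (2, 12), (4, 6), (4, 8), (4, 13), (5, 15)] }
  rep := [4, 1, 0, 10, 5, 2, 14]

noncomputable def v1896 : Cov.CovD where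
  P := 3
  N := 4
  pl := [0, 5, 7]
  lev := [⟨[], [], [], [2], [(1, 0, [4])]⟩,
    ⟨[], [(0, 0), (0, 1), (0, 3)], [(1, 1), (1, 3)], [2], [(2, 1, [3]), (3, 3, [1]), (4, 1,
      [3])]⟩,
    ⟨[(0, 1)], [(1, 1), (1, 3)], [(1, 3)], [5], [(2, 1, [3]), (3, 3, [1])]⟩,
    ⟨[(0, 1), (1, 2)], [(0, 0), (0, 1), (1, 0), (1, 1), (1, 3), (2, 1)], [(0, 0), (0, 1)],
      [], [(1, 0, [4]), (2, 1, [3]), (6, 0, [4])]⟩,
    ⟨[(0, 3), (1, 3)], [(0, 0), (3, 0), (3, 1), (3, 4)], [(0, 0), (0, 4)], [6], [(1, 0,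
      [4]), (6, 0, [4]), (8, 4, [0])]⟩,
    ⟨[(0, 1), (1, 2), (1, 3)], [(1, 1), (1, 3), (1, 4), (2, 3), (4, 4)], [(1, 3), (1, 4),
      (3, 4)], [], [(3, 3, [1]), (4, 1, [3]), (8, 4, [0])]⟩,
    ⟨[(3, 4)], [(3, 0), (4, 0), (4, 4), (5, 4)], [(0, 4)], [5], [(6, 0, [4]), (8, 4, [0])]⟩]
  Ta := [((1, 0), 0, 2), ((1, 7), 0, 6), ((2, 5), 1, 5), ((2, 6), 1, 0), ((4, 0), 1, 2), ((4, 8),
    1, 4), ((6, 2), 0, 1), ((6, 5), 0, 5)]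
  Tb := [((0, 1, 4), 2, 0, 1), ((1, 0, 7), 0, 2, 6), ((2, 5, 6), 1, 5, 0), ((3, 5, 8), 3, 5, 4),
    ((4, 0, 8), 1, 2, 4), ((5, 2, 3), 5, 1, 3), ((5, 2, 6), 5, 1, 0), ((5, 2, 8), 5, 1, 4),
    ((5, 3, 6), 5, 3, 0), ((5, 3, 8), 5, 3, 4), ((5, 6, 8), 5, 0, 4), ((6, 2, 5), 0, 1, 5),
    ((7, 1, 8), 6, 0, 4), ((8, 3, 4), 4, 3, 1), ((8, 3, 5), 4, 3, 5), ((8, 3, 7), 4, 3, 6),
    ((8, 4, 5), 4, 1, 5), ((8, 4, 7), 4, 1, 6), ((8, 5, 7), 4, 5, 6)]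
  Tc := []
  Td := [((0, 4), (1, 0), 2), ((0, 4), (1, 7), 6), ((0, 4), (6, 2), 1), ((0, 4), (6, 5), 5), ((1,
    3), (2, 5), 5), ((1, 3), (2, 6), 0), ((1, 3), (4, 0), 2), ((1, 3), (4, 8), 4), ((3, 1),
    (3, 5), 5), ((3, 1), (3, 8), 4), ((4, 0), (8, 3), 3), ((4, 0), (8, 4), 1), ((4, 0), (8,
    5), 5), ((4, 0), (8, 7), 6)]
  G := [[0, 0, 0x121412e4182412e4111122e4d1112c112c1c2, 0, 0x122212e4181422e4c21a246c16ae2c192],
    [0, 0, 0x18221da41144314481111a43c2, 0x1412c62298c22811219e4258,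
    0x13541821cac21121a4183412ce8392], [0, 0x41e16e18aa148121ac6421281e1c1e641226618aa8c, 0,
    0, 0x812421e4246e2622a8c518222a23e444428426acc89], [0, 0, 0, 0x2821222de42212421e82c1,
    0x2121a4446212452e52256e18c2981a4c4e822ca4a89]]

noncomputable def n1896 : Ent := ⟨e1896, noF, [], [], []⟩

def c1896 : PLift (Cov.check n1896.C.D v1896 = true) := ⟨by decide +kernel⟩

def b1896 : PLift (entF (fidx ts) 400 1896 n1896 = true) := ⟨by decide +kernel⟩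

theorem g1896 : GoodF (fidx ts) 400 1896 := GoodF.ofV v1896 n1896 c1896.down b1896.down

/-- 4846644:1612/3 -/
noncomputable def e1897 : SCfg where
  D := {
    a := 7
    L := 10
    kp := 7
    inn := [(0, 1), (0, 3), (1, 0), (1, 2), (1, 3), (1, 5), (2, 1), (3, 0), (3, 1), (3, 4), (4, 3), (4,
      6), (5, 1), (6, 4)]
    mix := [(0, 0), (0, 1), (1, 0), (1, 2), (1, 3), (1, 4), (2, 2), (2, 3), (2, 5), (3, 1), (3, 2), (3,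
      6), (4, 1), (4, 6), (4, 7), (4, 8), (5, 3), (5, 4), (5, 8), (6, 6), (6, 8), (6, 9)]
    cl := [2, 1, 0, 3, 0, 7, 1, 5, 4, 6]
    chq := [(0, 3), (3, 0), (5, 6), (6, 5)]
    rng := [(0, 1), (0, 4), (1, 0), (1, 7), (2, 5), (2, 6), (3, 5), (3, 8), (4, 0), (4, 8), (5, 2), (5,
      3), (6, 2), (6, 9), (7, 1), (7, 8), (8, 3), (8, 4), (8, 7), (8, 9), (9, 6), (9, 8)]
    lev := [] }
  links := [[1, 7, 8, 3], [7, 0, 3, 9, 2, 10, 5, 11], [10, 1, 9, 12], [9, 1, 0, 8, 4, 13], [13, 3, 8, 14,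
    15, 6], [11, 1, 10, 15], [13, 4, 15, 16]]
  P := {
    a := 7
    N := 17
    nb := [394, 3757, 5634, 8979, 57672, 35842, 106512, 2307, 16537, 12302, 36902, 32930, 1540, 66136,
      33040, 85104, 41024]
    tri := [(0, 1, 3), (0, 1, 7), (0, 3, 8), (0, 7, 8), (1, 2, 9), (1, 2, 10), (1, 3, 9), (1, 5, 10),
      (1, 5, 11), (1, 7, 11), (2, 9, 12), (2, 10, 12), (3, 4, 8), (3, 4, 13), (3, 9, 13), (4, 6,
      13), (4, 6, 15), (4, 8, 14), (4, 14, 15), (5, 10, 15), (5, 11, 15), (6, 13, 16), (6, 15,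
      16)]
    fin := [0, 1, 1, 3, 4, 5, 4, 0, 3, 1, 10, 1, 12, 3, 4, 5, 16]
    chd := [(1, 10), (4, 16)]
    steps := [(0, 7), (1, 2), (1, 9), (1, 11), (3, 8), (3, 13), (4, 6), (4, 14), (5, 15)] }
  rep := [1, 3, 0, 10, 5, 4, 16, 12]

noncomputable def v1897 : Cov.CovD where
  P := 3
  N := 5
  pl := [0, 5, 8]
  lev := [⟨[], [], [], [2], [(1, 1, [])]⟩,
    ⟨[], [(0, 0), (0, 1), (0, 3)], [(0, 0), (0, 3)], [2], [(2, 0, [3]), (3, 3, [0]), (4, 0,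
      [3])]⟩,
    ⟨[(0, 1)], [(1, 0), (1, 3)], [(0, 3)], [7], [(2, 0, [3]), (3, 3, [0])]⟩,
    ⟨[(0, 1), (1, 2)], [(0, 0), (0, 1), (1, 0), (1, 1), (1, 3), (2, 0)], [(0, 1), (1, 1)],
      [], [(1, 1, []), (2, 0, [3]), (6, 1, [])]⟩,
    ⟨[(0, 3), (1, 3)], [(0, 1), (3, 0), (3, 1), (3, 5)], [(1, 1), (1, 5)], [4], [(1, 1,
      []), (6, 1, []), (7, 5, [6])]⟩,
    ⟨[(0, 1), (1, 2), (1, 3)], [(1, 0), (1, 3), (2, 3)], [(0, 3)], [4], [(3, 3, [0]), (4,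
      0, [3])]⟩,
    ⟨[(3, 4)], [(3, 1), (4, 1), (4, 5), (4, 6)], [(1, 6)], [4], [(6, 1, []), (9, 6, [5])]⟩]
  Ta := [((1, 0), 1, 2), ((1, 7), 1, 5), ((2, 5), 0, 7), ((2, 6), 0, 1), ((4, 0), 0, 2), ((4, 8),
    0, 4), ((6, 2), 1, 0), ((6, 9), 1, 6)]
  Tb := [((0, 1, 4), 2, 1, 0), ((1, 0, 7), 1, 2, 5), ((2, 5, 6), 0, 7, 1), ((3, 5, 8), 3, 7, 4),
    ((4, 0, 8), 0, 2, 4), ((5, 2, 3), 7, 0, 3), ((6, 2, 9), 1, 0, 6), ((7, 1, 8), 5, 1, 4),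
    ((8, 3, 4), 4, 3, 0), ((8, 3, 7), 4, 3, 5), ((8, 3, 9), 4, 3, 6), ((8, 4, 7), 4, 0, 5),
    ((8, 4, 9), 4, 0, 6), ((8, 7, 9), 4, 5, 6), ((9, 6, 8), 6, 1, 4)]
  Tc := []
  Td := [((0, 3), (2, 5), 7), ((0, 3), (2, 6), 1), ((0, 3), (4, 0), 2), ((0, 3), (4, 8), 4), ((3,
    0), (3, 5), 7), ((3, 0), (3, 8), 4), ((5, 6), (7, 1), 1), ((5, 6), (7, 8), 4), ((6, 5),
    (9, 6), 1), ((6, 5), (9, 8), 4)]
  G := [[0, 0, 0, 0x11115c1d4188894182284ad4e1111243d81114a1d86c1,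
    0x11115a1d41814a1d4c1111826d411911842dd86a1], [0,
    0x61a1c1e261a1c1e26461a1c1e4a1c26688aa89, 0, 0,
    0x111154c5d4181484cd4c1114c1d4119118c9d46a1], [0, 0, 0x2441882c9c12241268269c1a4,
    0x1214426d45448582282ad4d5822982294426d85c1,
    0x24442441884c9c3882c94d1884c9412622826d43a1], [0, 0, 0x181284ad411214486d81c2, 0,
    0x1214486d4181484cd4588888d4d529164c6d81a1]]

noncomputable def n1897 : Ent := ⟨e1897, noF, [], [], [(16, 12, [1580044410777118419473445963789405229760683414688298388994431287297, 0])]⟩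

def c1897 : PLift (Cov.check n1897.C.D v1897 = true) := ⟨by decide +kernel⟩

def b1897 : PLift (entF (fidx ts) 400 1897 n1897 = true) := ⟨by decide +kernel⟩

theorem g1897 : GoodF (fidx ts) 400 1897 := GoodF.ofV v1897 n1897 c1897.down b1897.down

/-- 4846644:1612/5 -/
noncomputable def e1898 : SCfg where
  D := {
    a := 7
    L := 10
    kp := 7
    inn := [(0, 1), (0, 3), (1, 0), (1, 2), (1, 3), (1, 5), (2, 1), (3, 0), (3, 1), (3, 4), (4, 3), (4,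
      6), (5, 1), (6, 4)]
    mix := [(0, 0), (0, 1), (1, 0), (1, 2), (1, 3), (1, 4), (2, 2), (2, 3), (2, 5), (3, 1), (3, 2), (3,
      6), (4, 1), (4, 6), (4, 7), (4, 8), (5, 3), (5, 4), (5, 9), (6, 5), (6, 6), (6, 8)]
    cl := [2, 0, 1, 3, 1, 5, 0, 6, 4, 7]
    chq := [(0, 4), (1, 3), (3, 1), (4, 0)]
    rng := [(0, 1), (0, 4), (1, 0), (1, 7), (2, 5), (2, 6), (3, 5), (3, 9), (4, 0), (4, 9), (5, 2), (5,
      3), (5, 6), (5, 8), (6, 2), (6, 5), (7, 1), (7, 8), (8, 5), (8, 7), (9, 3), (9, 4)]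
    lev := [] }
  links := [[1, 7, 8, 3], [7, 0, 3, 9, 2, 10, 5, 11], [10, 1, 9, 12], [9, 1, 0, 8, 4, 13], [13, 3, 8, 14,
    15, 6], [11, 1, 10, 16], [13, 4, 15, 12]]
  P := {
    a := 7
    N := 17
    nb := [394, 3757, 5634, 8979, 57672, 68610, 45072, 2307, 16537, 12302, 69670, 65698, 42564, 4696,
      33040, 20560, 3104]
    tri := [(0, 1, 3), (0, 1, 7), (0, 3, 8), (0, 7, 8), (1, 2, 9), (1, 2, 10), (1, 3, 9), (1, 5, 10),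
      (1, 5, 11), (1, 7, 11), (2, 9, 12), (2, 10, 12), (3, 4, 8), (3, 4, 13), (3, 9, 13), (4, 6,
      13), (4, 6, 15), (4, 8, 14), (4, 14, 15), (5, 10, 16), (5, 11, 16), (6, 12, 13), (6, 12,
      15)]
    fin := [0, 1, 2, 0, 4, 1, 4, 0, 4, 1, 10, 1, 2, 4, 14, 15, 16]
    chd := [(1, 10), (4, 15)]
    steps := [(0, 3), (0, 7), (1, 5), (1, 9), (1, 11), (2, 12), (4, 6), (4, 8), (4, 13)] }
  rep := [4, 1, 0, 10, 15, 2, 14, 16]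

noncomputable def v1898 : Cov.CovD where
  P := 3
  N := 5
  pl := [0, 5, 7, 9]
  lev := [⟨[], [], [], [2], [(1, 0, [4])]⟩,
    ⟨[], [(0, 0), (0, 1), (0, 3)], [(1, 1), (1, 3)], [2], [(2, 1, [3]), (3, 3, [1]), (4, 1,
      [3])]⟩,
    ⟨[(0, 1)], [(1, 1), (1, 3)], [(1, 3)], [5], [(2, 1, [3]), (3, 3, [1])]⟩,
    ⟨[(0, 1), (1, 2)], [(0, 0), (0, 1), (1, 0), (1, 1), (1, 3), (2, 1)], [(0, 0), (0, 1)],
      [], [(1, 0, [4]), (2, 1, [3]), (6, 0, [4])]⟩,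
    ⟨[(0, 3), (1, 3)], [(0, 0), (3, 0), (3, 1), (3, 4)], [(0, 0), (0, 4)], [6], [(1, 0,
      [4]), (6, 0, [4]), (8, 4, [0])]⟩,
    ⟨[(0, 1), (1, 2), (1, 3)], [(1, 1), (1, 3), (2, 3)], [(1, 3)], [7], [(3, 3, [1]), (4,
      1, [3])]⟩,
    ⟨[(3, 4)], [(3, 0), (4, 0), (4, 4)], [(0, 4)], [5], [(6, 0, [4]), (8, 4, [0])]⟩]
  Ta := [((1, 0), 0, 2), ((1, 7), 0, 6), ((2, 5), 1, 5), ((2, 6), 1, 0), ((4, 0), 1, 2), ((4, 9),
    1, 7), ((6, 2), 0, 1), ((6, 5), 0, 5)]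
  Tb := [((0, 1, 4), 2, 0, 1), ((1, 0, 7), 0, 2, 6), ((2, 5, 6), 1, 5, 0), ((3, 5, 9), 3, 5, 7),
    ((4, 0, 9), 1, 2, 7), ((5, 2, 3), 5, 1, 3), ((5, 2, 6), 5, 1, 0), ((5, 2, 8), 5, 1, 4),
    ((5, 3, 6), 5, 3, 0), ((5, 3, 8), 5, 3, 4), ((5, 6, 8), 5, 0, 4), ((6, 2, 5), 0, 1, 5),
    ((7, 1, 8), 6, 0, 4), ((8, 5, 7), 4, 5, 6), ((9, 3, 4), 7, 3, 1)]
  Tc := []
  Td := [((0, 4), (1, 0), 2), ((0, 4), (1, 7), 6), ((0, 4), (6, 2), 1), ((0, 4), (6, 5), 5), ((1,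
    3), (2, 5), 5), ((1, 3), (2, 6), 0), ((1, 3), (4, 0), 2), ((1, 3), (4, 9), 7), ((3, 1),
    (3, 5), 5), ((3, 1), (3, 9), 7), ((4, 0), (8, 5), 5), ((4, 0), (8, 7), 6)]
  G := [[0, 0, 0x821212e411311921ae49124212e811612c2132c5c2, 0,
    0x8212226e4422366128cc315e139e23ae4192], [0, 0, 0x21924119119c43111d111d24e8219283c2,
    0x13c2468213511921e42531c28a428c, 0x31c13c22ce42113121e833c11c22ce4392], [0,
    0xe12e141ca21281a1ca64e1281e1c641216618ca8c, 0, 0,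
    0x883aa3e23e4446226666a8c2824d42468622aceeae268e68c592], [0, 0, 0,
    0xeec246824eec28a42ee9216ee58c29c,
    0x665225a418885aa5c44422568e6ca822ce4e4eed4ee5225ac29484248b]]

noncomputable def n1898 : Ent := ⟨e1898, noF, [], [], [(14, 16, [1580044410770988437309982408355971841652082177953823432505696870401, 0]), (15, 16, [1580044410770988437309982408355971841652082177953823432505696878593, 0])]⟩

def c1898 : PLift (Cov.check n1898.C.D v1898 = true) := ⟨by decide +kernel⟩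

def b1898 : PLift (entF (fidx ts) 400 1898 n1898 = true) := ⟨by decide +kernel⟩

theorem g1898 : GoodF (fidx ts) 400 1898 := GoodF.ofV v1898 n1898 c1898.down b1898.down

/-- 4846644:1612/6 -/
noncomputable def e1899 : SCfg where
  D := {
    a := 7
    L := 10
    kp := 7
    inn := [(0, 1), (0, 3), (1, 0), (1, 2), (1, 3), (1, 5), (2, 1), (3, 0), (3, 1), (3, 4), (4, 3), (4,
      6), (5, 1), (6, 4)]
    mix := [(0, 0), (0, 1), (1, 0), (1, 2), (1, 3), (1, 4), (2, 2), (2, 3), (2, 5), (3, 1), (3, 2), (3,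
      6), (4, 1), (4, 6), (4, 7), (4, 8), (5, 3), (5, 4), (5, 9), (6, 6), (6, 8), (6, 9)]
    cl := [2, 1, 0, 3, 0, 7, 1, 6, 5, 4]
    chq := [(0, 3), (3, 0), (4, 6), (6, 4)]
    rng := [(0, 1), (0, 4), (1, 0), (1, 7), (2, 5), (2, 6), (3, 5), (3, 9), (4, 0), (4, 9), (5, 2), (5,
      3), (6, 2), (6, 9), (7, 1), (7, 8), (8, 7), (8, 9), (9, 3), (9, 4), (9, 6), (9, 8)]
    lev := [] }
  links := [[1, 7, 8, 3], [7, 0, 3, 9, 2, 10, 5, 11], [10, 1, 9, 12], [9, 1, 0, 8, 4, 13], [13, 3, 8, 14,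
    15, 6], [11, 1, 10, 16], [13, 4, 15, 16]]
  P := {
    a := 7
    N := 17
    nb := [394, 3757, 5634, 8979, 57672, 68610, 106512, 2307, 16537, 12302, 69670, 65698, 1540, 66136,
      33040, 82000, 44128]
    tri := [(0, 1, 3), (0, 1, 7), (0, 3, 8), (0, 7, 8), (1, 2, 9), (1, 2, 10), (1, 3, 9), (1, 5, 10),
      (1, 5, 11), (1, 7, 11), (2, 9, 12), (2, 10, 12), (3, 4, 8), (3, 4, 13), (3, 9, 13), (4, 6,
      13), (4, 6, 15), (4, 8, 14), (4, 14, 15), (5, 10, 16), (5, 11, 16), (6, 13, 16), (6, 15,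
      16)]
    fin := [0, 1, 1, 3, 4, 5, 4, 0, 3, 1, 10, 1, 12, 3, 4, 15, 5]
    chd := [(1, 10), (4, 5)]
    steps := [(0, 7), (1, 2), (1, 9), (1, 11), (3, 8), (3, 13), (4, 6), (4, 14), (5, 16)] }
  rep := [1, 3, 0, 10, 5, 15, 4, 12]

noncomputable def v1899 : Cov.CovD where
  P := 3
  N := 5
  pl := [0, 5, 8]
  lev := [⟨[], [], [], [2], [(1, 1, [])]⟩,
    ⟨[], [(0, 0), (0, 1), (0, 3)], [(0, 0), (0, 3)], [2], [(2, 0, [3]), (3, 3, [0]), (4, 0,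
      [3])]⟩,
    ⟨[(0, 1)], [(1, 0), (1, 3)], [(0, 3)], [7], [(2, 0, [3]), (3, 3, [0])]⟩,
    ⟨[(0, 1), (1, 2)], [(0, 0), (0, 1), (1, 0), (1, 1), (1, 3), (2, 0)], [(0, 1), (1, 1)],
      [], [(1, 1, []), (2, 0, [3]), (6, 1, [])]⟩,
    ⟨[(0, 3), (1, 3)], [(0, 1), (3, 0), (3, 1), (3, 6)], [(1, 1), (1, 6)], [5], [(1, 1,
      []), (6, 1, []), (7, 6, [4])]⟩,
    ⟨[(0, 1), (1, 2), (1, 3)], [(1, 0), (1, 3), (1, 4), (2, 3)], [(0, 3), (0, 4), (3, 4)],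
      [], [(3, 3, [0]), (4, 0, [3]), (9, 4, [6])]⟩,
    ⟨[(3, 4)], [(3, 1), (4, 1), (4, 4), (4, 6), (5, 4)], [(1, 4)], [5], [(6, 1, []), (9, 4,
      [6])]⟩]
  Ta := [((1, 0), 1, 2), ((1, 7), 1, 6), ((2, 5), 0, 7), ((2, 6), 0, 1), ((4, 0), 0, 2), ((4, 9),
    0, 4), ((6, 2), 1, 0), ((6, 9), 1, 4)]
  Tb := [((0, 1, 4), 2, 1, 0), ((1, 0, 7), 1, 2, 6), ((2, 5, 6), 0, 7, 1), ((3, 5, 9), 3, 7, 4),
    ((4, 0, 9), 0, 2, 4), ((5, 2, 3), 7, 0, 3), ((6, 2, 9), 1, 0, 4), ((7, 1, 8), 6, 1, 5),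
    ((8, 7, 9), 5, 6, 4), ((9, 3, 4), 4, 3, 0), ((9, 3, 6), 4, 3, 1), ((9, 3, 8), 4, 3, 5),
    ((9, 4, 6), 4, 0, 1), ((9, 4, 8), 4, 0, 5), ((9, 6, 8), 4, 1, 5)]
  Tc := []
  Td := [((0, 3), (2, 5), 7), ((0, 3), (2, 6), 1), ((0, 3), (4, 0), 2), ((0, 3), (4, 9), 4), ((3,
    0), (3, 5), 7), ((3, 0), (3, 9), 4), ((4, 6), (9, 3), 3), ((4, 6), (9, 4), 0), ((4, 6),
    (9, 6), 1), ((4, 6), (9, 8), 5), ((6, 4), (7, 1), 1), ((6, 4), (7, 8), 5)]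
  G := [[0, 0, 0, 0x312111d4322212d4a223333113d8219212d86c1,
    0x2217323113d431115218cc522212d8213111d86a1], [0, 0x61a1c1e261a1c1e4a61a1c1e261a1c1e86c1,
    0, 0, 0x153193115d485c9111d4c51496116d8c55999819d46a1], [0, 0,
    0x2422c41242e14c5188c15212941e8, 0x222212d43222c4851ea1a94b12c25832242e486d85c1,
    0x223212d422432129c12c21cc1cd4b52a222d81a1], [0, 0, 0x44145818569212d41685c9818d418a, 0,
    0x444885e92c16dc12d86996116d4496186585c891898c8d4d8a]]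

noncomputable def n1899 : Ent := ⟨e1899, noF, [], [], []⟩

def c1899 : PLift (Cov.check n1899.C.D v1899 = true) := ⟨by decide +kernel⟩

def b1899 : PLift (entF (fidx ts) 400 1899 n1899 = true) := ⟨by decide +kernel⟩

theorem g1899 : GoodF (fidx ts) 400 1899 := GoodF.ofV v1899 n1899 c1899.down b1899.down

/-- 4846644:1612 -/
noncomputable def e1900 : SCfg where
  D := {
    a := 7
    L := 11
    kp := 8
    inn := [(0, 1), (0, 3), (1, 0), (1, 2), (1, 3), (1, 5), (2, 1), (3, 0), (3, 1), (3, 4), (4, 3), (4,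
      6), (5, 1), (6, 4)]
    mix := [(0, 0), (0, 1), (1, 0), (1, 2), (1, 3), (1, 4), (2, 2), (2, 3), (2, 5), (3, 1), (3, 2), (3,
      6), (4, 1), (4, 6), (4, 7), (4, 8), (5, 3), (5, 4), (5, 9), (6, 6), (6, 8), (6, 10)]
    cl := [2, 1, 0, 3, 0, 7, 1, 5, 4, 8, 6]
    chq := [(0, 3), (3, 0), (5, 6), (6, 5)]
    rng := [(0, 1), (0, 4), (1, 0), (1, 7), (2, 5), (2, 6), (3, 5), (3, 9), (4, 0), (4, 9), (5, 2), (5,
      3), (6, 2), (6, 10), (7, 1), (7, 8), (8, 7), (8, 10), (9, 3), (9, 4), (10, 6), (10, 8)]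
    lev := [] }
  links := [[1, 7, 8, 3], [7, 0, 3, 9, 2, 10, 5, 11], [10, 1, 9, 12], [9, 1, 0, 8, 4, 13], [13, 3, 8, 14,
    15, 6], [11, 1, 10, 16], [13, 4, 15, 17]]
  P := {
    a := 7
    N := 18
    nb := [394, 3757, 5634, 8979, 57672, 68610, 172048, 2307, 16537, 12302, 69670, 65698, 1540,
      131672, 33040, 147536, 3104, 41024]
    tri := [(0, 1, 3), (0, 1, 7), (0, 3, 8), (0, 7, 8), (1, 2, 9), (1, 2, 10), (1, 3, 9), (1, 5, 10),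
      (1, 5, 11), (1, 7, 11), (2, 9, 12), (2, 10, 12), (3, 4, 8), (3, 4, 13), (3, 9, 13), (4, 6,
      13), (4, 6, 15), (4, 8, 14), (4, 14, 15), (5, 10, 16), (5, 11, 16), (6, 13, 17), (6, 15,
      17)]
    fin := [0, 1, 1, 3, 4, 1, 4, 0, 3, 1, 10, 1, 12, 3, 4, 15, 16, 17]
    chd := [(1, 10), (4, 17)]
    steps := [(0, 7), (1, 2), (1, 5), (1, 9), (1, 11), (3, 8), (3, 13), (4, 6), (4, 14)] }
  rep := [1, 3, 0, 10, 15, 4, 17, 12, 16]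

noncomputable def v1900 : Cov.CovD where
  P := 3
  N := 6
  pl := [0, 5, 8, 9]
  lev := [⟨[], [], [], [2], [(1, 1, [])]⟩,
    ⟨[], [(0, 0), (0, 1), (0, 3)], [(0, 0), (0, 3)], [2], [(2, 0, [3]), (3, 3, [0]), (4, 0,
      [3])]⟩,
    ⟨[(0, 1)], [(1, 0), (1, 3)], [(0, 3)], [7], [(2, 0, [3]), (3, 3, [0])]⟩,
    ⟨[(0, 1), (1, 2)], [(0, 0), (0, 1), (1, 0), (1, 1), (1, 3), (2, 0)], [(0, 1), (1, 1)],
      [], [(1, 1, []), (2, 0, [3]), (6, 1, [])]⟩,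
    ⟨[(0, 3), (1, 3)], [(0, 1), (3, 0), (3, 1), (3, 5)], [(1, 1), (1, 5)], [4], [(1, 1,
      []), (6, 1, []), (7, 5, [6])]⟩,
    ⟨[(0, 1), (1, 2), (1, 3)], [(1, 0), (1, 3), (2, 3)], [(0, 3)], [8], [(3, 3, [0]), (4,
      0, [3])]⟩,
    ⟨[(3, 4)], [(3, 1), (4, 1), (4, 5), (4, 6)], [(1, 6)], [4], [(6, 1, []), (10, 6, [5])]⟩]
  Ta := [((1, 0), 1, 2), ((1, 7), 1, 5), ((2, 5), 0, 7), ((2, 6), 0, 1), ((4, 0), 0, 2), ((4, 9),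
    0, 8), ((6, 2), 1, 0), ((6, 10), 1, 6)]
  Tb := [((0, 1, 4), 2, 1, 0), ((1, 0, 7), 1, 2, 5), ((2, 5, 6), 0, 7, 1), ((3, 5, 9), 3, 7, 8),
    ((4, 0, 9), 0, 2, 8), ((5, 2, 3), 7, 0, 3), ((6, 2, 10), 1, 0, 6), ((7, 1, 8), 5, 1, 4),
    ((8, 7, 10), 4, 5, 6), ((9, 3, 4), 8, 3, 0), ((10, 6, 8), 6, 1, 4)]
  Tc := []
  Td := [((0, 3), (2, 5), 7), ((0, 3), (2, 6), 1), ((0, 3), (4, 0), 2), ((0, 3), (4, 9), 8), ((3,
    0), (3, 5), 7), ((3, 0), (3, 9), 8), ((5, 6), (7, 1), 1), ((5, 6), (7, 8), 4), ((6, 5),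
    (10, 6), 1), ((6, 5), (10, 8), 4)]
  G := [[0, 0, 0, 0x423721a1d491a1553a8ca1292a3ba26bd8536a262a6d86c1,
    0x1467a93223d42123961d4c52691a66d4259122dac5d86a1], [0,
    0x61a1c1e461a1c1e2a61a1c1e261a1c1e26c1, 0, 0,
    0x15391cc3d45191cccd4c556996c1d4999dcc55545d8c6a1], [0, 0,
    0x93cc4581422c6894139a4266229c1ac,
    0x9822a5862162a92c9a455ca428d453aa2a2aad45536a262a6d81c5,
    0x356296a26d423c236cacd468a828d4d2669a6626d41a1], [0, 0, 0x99a455acca9c1255c99ccccd8146,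
    0, 0x556996cc6d412cc61556996c555c99ccccd45898c8d4d8a]]

noncomputable def n1900 : Ent := ⟨e1900, noF, [], [], [(14, 16, [7334685537875745012586738086077695515070955365108989538292687701438465, 0]), (15, 16, [7334685537875745012586738086077695515070955365108989538292687701446657, 0]), (17, 12, [6903326391201342438349770174129673216027896805894258472290640855474177, 0]), (17, 16, [7334685537875745012586738086077695515070955365108989538292687701454849, 0])]⟩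

def c1900 : PLift (Cov.check n1900.C.D v1900 = true) := ⟨by decide +kernel⟩

def b1900 : PLift (entF (fidx ts) 400 1900 n1900 = true) := ⟨by decide +kernel⟩

theorem g1900 : GoodF (fidx ts) 400 1900 := GoodF.ofV v1900 n1900 c1900.down b1900.down

/-- 4577644:1613/1 -/
noncomputable def e1901 : SCfg where
  D := {
    a := 7
    L := 10
    kp := 7
    inn := [(0, 1), (0, 2), (1, 0), (1, 2), (1, 4), (2, 0), (2, 1), (2, 3), (2, 4), (3, 2), (3, 5), (3,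
      6), (4, 1), (4, 2), (5, 3), (6, 3)]
    mix := [(0, 0), (0, 1), (1, 1), (1, 2), (2, 0), (2, 3), (2, 4), (3, 0), (3, 4), (3, 5), (3, 6), (4,
      2), (4, 3), (4, 7), (4, 8), (5, 4), (5, 5), (5, 9), (6, 2), (6, 5), (6, 6)]
    cl := [0, 2, 1, 1, 0, 3, 4, 5, 6, 7]
    chq := [(0, 3), (3, 0), (3, 4), (4, 3)]
    rng := [(0, 1), (0, 6), (1, 0), (1, 2), (2, 1), (2, 5), (2, 6), (2, 7), (3, 4), (3, 8), (4, 3), (4,
      9), (5, 2), (5, 9), (6, 0), (6, 2), (7, 2), (7, 8), (8, 3), (8, 7), (9, 4), (9, 5)]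
    lev := [] }
  links := [[1, 2, 7, 8], [2, 0, 8, 9, 4], [7, 0, 1, 4, 10, 11, 3], [7, 2, 11, 5, 12, 6, 13], [10, 2, 1,
    9, 14, 15], [12, 3, 11, 16], [13, 3, 12, 9]]
  P := {
    a := 7
    N := 17
    nb := [390, 789, 3227, 14564, 50694, 71688, 12808, 8461, 643, 29010, 34836, 66604, 66152, 712,
      33296, 17424, 6176]
    tri := [(0, 1, 2), (0, 1, 8), (0, 2, 7), (0, 7, 8), (1, 2, 4), (1, 4, 9), (1, 8, 9), (2, 3, 7), (2,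
      3, 11), (2, 4, 10), (2, 10, 11), (3, 5, 11), (3, 5, 12), (3, 6, 12), (3, 6, 13), (3, 7, 13),
      (4, 9, 14), (4, 10, 15), (4, 14, 15), (5, 11, 16), (5, 12, 16), (6, 9, 12), (6, 9, 13)]
    fin := [0, 0, 0, 3, 4, 0, 4, 0, 8, 4, 4, 0, 3, 13, 14, 15, 16]
    chd := [(0, 3), (3, 13)]
    steps := [(0, 1), (0, 2), (0, 7), (0, 11), (0, 5), (3, 12), (4, 9), (4, 6), (4, 10)] }
  rep := [0, 4, 8, 3, 13, 14, 15, 16]

noncomputable def v1901 : Cov.CovD where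
  P := 3
  N := 5
  pl := [1, 7, 8, 9]
  lev := [⟨[], [], [], [2], [(0, 0, [3])]⟩,
    ⟨[], [(0, 0), (0, 1)], [], [2], [(2, 1, [])]⟩,
    ⟨[(0, 1)], [(0, 0), (0, 1), (1, 0), (1, 1)], [(0, 0), (0, 1)], [], [(0, 0, [3]), (3, 1,
      []), (4, 0, [3])]⟩,
    ⟨[(0, 2), (1, 2)], [(0, 0), (2, 0), (2, 1), (2, 3), (2, 4)], [(0, 0), (0, 3), (0, 4),
      (3, 4)], [], [(0, 0, [3]), (4, 0, [3]), (5, 3, [0, 4]), (6, 4, [3])]⟩,
    ⟨[(0, 1), (0, 2), (1, 2), (2, 3)], [(1, 1), (2, 0), (2, 1)], [(1, 1)], [5, 6], [(2, 1,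
      []), (3, 1, [])]⟩,
    ⟨[(2, 3)], [(2, 0), (3, 0), (3, 3), (3, 4)], [(0, 3)], [7], [(4, 0, [3]), (5, 3, [0,
      4])]⟩,
    ⟨[(2, 3), (3, 5)], [(1, 1), (3, 0), (3, 1), (3, 3), (3, 4), (4, 1), (5, 3)], [(1, 3),
      (1, 4), (3, 4)], [], [(2, 1, []), (5, 3, [0, 4]), (6, 4, [3])]⟩]
  Ta := [((0, 1), 0, 2), ((0, 6), 0, 4), ((2, 1), 1, 2), ((2, 5), 1, 3), ((2, 6), 1, 4), ((2, 7),
    1, 5), ((3, 4), 1, 0), ((3, 8), 1, 6), ((4, 3), 0, 1), ((4, 9), 0, 7)]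
  Tb := [((0, 1, 6), 0, 2, 4), ((1, 0, 2), 2, 0, 1), ((2, 1, 5), 1, 2, 3), ((2, 1, 6), 1, 2, 4),
    ((2, 1, 7), 1, 2, 5), ((2, 5, 6), 1, 3, 4), ((2, 5, 7), 1, 3, 5), ((2, 6, 7), 1, 4, 5),
    ((3, 4, 8), 1, 0, 6), ((4, 3, 9), 0, 1, 7), ((5, 2, 9), 3, 1, 7), ((6, 0, 2), 4, 0, 1),
    ((7, 2, 8), 5, 1, 6), ((8, 3, 7), 6, 1, 5), ((9, 4, 5), 7, 0, 3)]
  Tc := [(3, 0, 4)]
  Td := [((0, 3), (0, 1), 2), ((0, 3), (0, 6), 4), ((0, 3), (4, 3), 1), ((0, 3), (4, 9), 7), ((3,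
    0), (5, 2), 1), ((3, 0), (5, 9), 7), ((3, 4), (5, 2), 1), ((3, 4), (5, 9), 7), ((4, 3),
    (6, 0), 0), ((4, 3), (6, 2), 1)]
  G := [[0, 0, 0x1111521182811111d411141dce84, 0xcc5b11d71cddd2418,
    0x484b145443d481189188bd1117113119dac12], [0, 0, 0x111111d2482, 0, 0x11db11dd11dbd2418],
    [0, 0, 0, 0x111e111e111ed2814, 0x114e411e114ed4181e111e181ed111e111e111edac12], [0,
    0x221e121e62211e82188e181e181ee411e411e114eece48, 0, 0, 0x111e111e111ed2418]]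

noncomputable def n1901 : Ent := ⟨e1901, noF, [], [], []⟩

def c1901 : PLift (Cov.check n1901.C.D v1901 = true) := ⟨by decide +kernel⟩

def b1901 : PLift (entF (fidx ts) 400 1901 n1901 = true) := ⟨by decide +kernel⟩

theorem g1901 : GoodF (fidx ts) 400 1901 := GoodF.ofV v1901 n1901 c1901.down b1901.down

/-- 4577644:1613/2 -/
noncomputable def e1902 : SCfg where
  D := {
    a := 7
    L := 10
    kp := 7
    inn := [(0, 1), (0, 2), (1, 0), (1, 2), (1, 4), (2, 0), (2, 1), (2, 3), (2, 4), (3, 2), (3, 5), (3,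
      6), (4, 1), (4, 2), (5, 3), (6, 3)]
    mix := [(0, 0), (0, 1), (1, 1), (1, 2), (2, 0), (2, 3), (2, 4), (3, 0), (3, 4), (3, 5), (3, 6), (4,
      2), (4, 3), (4, 7), (4, 8), (5, 4), (5, 5), (5, 9), (6, 5), (6, 6), (6, 7)]
    cl := [0, 2, 1, 1, 0, 3, 5, 4, 6, 7]
    chq := [(0, 3), (0, 4), (3, 0), (4, 0)]
    rng := [(0, 1), (0, 6), (1, 0), (1, 2), (2, 1), (2, 7), (3, 4), (3, 8), (4, 3), (4, 9), (5, 7), (5,
      9), (6, 0), (6, 7), (7, 2), (7, 5), (7, 6), (7, 8), (8, 3), (8, 7), (9, 4), (9, 5)]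
    lev := [] }
  links := [[1, 2, 7, 8], [2, 0, 8, 9, 4], [7, 0, 1, 4, 10, 11, 3], [7, 2, 11, 5, 12, 6, 13], [10, 2, 1,
    9, 14, 15], [12, 3, 11, 16], [13, 3, 12, 14]]
  P := {
    a := 7
    N := 17
    nb := [390, 789, 3227, 14564, 50694, 71688, 28680, 8461, 643, 16658, 34836, 66604, 82024, 16584,
      45648, 17424, 6176]
    tri := [(0, 1, 2), (0, 1, 8), (0, 2, 7), (0, 7, 8), (1, 2, 4), (1, 4, 9), (1, 8, 9), (2, 3, 7), (2,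
      3, 11), (2, 4, 10), (2, 10, 11), (3, 5, 11), (3, 5, 12), (3, 6, 12), (3, 6, 13), (3, 7, 13),
      (4, 9, 14), (4, 10, 15), (4, 14, 15), (5, 11, 16), (5, 12, 16), (6, 12, 14), (6, 13, 14)]
    fin := [0, 0, 0, 0, 4, 0, 0, 0, 8, 4, 4, 0, 12, 13, 14, 15, 16]
    chd := [(0, 12), (0, 14)]
    steps := [(0, 1), (0, 2), (0, 3), (0, 5), (0, 6), (0, 7), (0, 11), (4, 9), (4, 10)] }
  rep := [0, 4, 8, 12, 14, 13, 15, 16]

noncomputable def v1902 : Cov.CovD where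
  P := 3
  N := 5
  pl := [1, 6, 8, 9]
  lev := [⟨[], [], [], [2], [(0, 0, [3, 4])]⟩,
    ⟨[], [(0, 0), (0, 1)], [], [2], [(2, 1, [])]⟩,
    ⟨[(0, 1)], [(0, 0), (0, 1), (1, 0), (1, 1)], [(0, 0), (0, 1)], [], [(0, 0, [3, 4]), (3,
      1, []), (4, 0, [3, 4])]⟩,
    ⟨[(0, 2), (1, 2)], [(0, 0), (2, 0), (2, 1), (2, 3)], [(0, 0), (0, 3)], [5], [(0, 0, [3,
      4]), (4, 0, [3, 4]), (5, 3, [0])]⟩,
    ⟨[(0, 1), (0, 2), (1, 2), (2, 3)], [(1, 1), (1, 4), (2, 0), (2, 1), (2, 4)], [(1, 1),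
      (1, 4)], [6], [(2, 1, []), (3, 1, []), (7, 4, [0])]⟩,
    ⟨[(2, 3)], [(2, 0), (3, 0), (3, 3)], [(0, 3)], [7], [(4, 0, [3, 4]), (5, 3, [0])]⟩,
    ⟨[(2, 3), (3, 5)], [(3, 0), (3, 3), (3, 4), (4, 4), (5, 3)], [(3, 4)], [5], [(5, 3,
      [0]), (7, 4, [0])]⟩]
  Ta := [((0, 1), 0, 2), ((0, 6), 0, 5), ((2, 1), 1, 2), ((2, 7), 1, 4), ((3, 4), 1, 0), ((3, 8),
    1, 6), ((4, 3), 0, 1), ((4, 9), 0, 7)]
  Tb := [((0, 1, 6), 0, 2, 5), ((1, 0, 2), 2, 0, 1), ((2, 1, 7), 1, 2, 4), ((3, 4, 8), 1, 0, 6),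
    ((4, 3, 9), 0, 1, 7), ((5, 7, 9), 3, 4, 7), ((6, 0, 7), 5, 0, 4), ((7, 2, 5), 4, 1, 3),
    ((7, 2, 6), 4, 1, 5), ((7, 2, 8), 4, 1, 6), ((7, 5, 6), 4, 3, 5), ((7, 5, 8), 4, 3, 6),
    ((7, 6, 8), 4, 5, 6), ((8, 3, 7), 6, 1, 4), ((9, 4, 5), 7, 0, 3)]
  Tc := [(0, 3, 4)]
  Td := [((0, 3), (0, 1), 2), ((0, 3), (0, 6), 5), ((0, 3), (4, 3), 1), ((0, 3), (4, 9), 7), ((0,
    4), (0, 1), 2), ((0, 4), (0, 6), 5), ((0, 4), (4, 3), 1), ((0, 4), (4, 9), 7), ((3, 0),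
    (5, 7), 4), ((3, 0), (5, 9), 7), ((4, 0), (7, 2), 1), ((4, 0), (7, 5), 3), ((4, 0), (7,
    6), 5), ((4, 0), (7, 8), 6)]
  G := [[0, 0, 0x2142111192811111d114111dce84, 0x1232295222982c8851191d3d113145115dc294,
    0x11919951451555c28158a1981331b3123de498], [0, 0, 0x1144811111d11119212121dec28, 0,
    0x449115754885115119dd113822912321dec18], [0, 0, 0,
    0x111e211e221ed2111e111e111ed111e411e111edc681,
    0x111e111e52111e82111e111e111ed111e414e111edce18], [0,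
    0x111e111ec2221e22188e111e111ee111e411e111eece41, 0, 0,
    0x111e111e5211e221e56188e111e111ed8c111e8121e868a1]]

noncomputable def n1902 : Ent := ⟨e1902, noF, [], [], []⟩

def c1902 : PLift (Cov.check n1902.C.D v1902 = true) := ⟨by decide +kernel⟩

def b1902 : PLift (entF (fidx ts) 400 1902 n1902 = true) := ⟨by decide +kernel⟩

theorem g1902 : GoodF (fidx ts) 400 1902 := GoodF.ofV v1902 n1902 c1902.down b1902.down

/-- 4577644:1613/3 -/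
noncomputable def e1903 : SCfg where
  D := {
    a := 7
    L := 10
    kp := 7
    inn := [(0, 1), (0, 2), (1, 0), (1, 2), (1, 4), (2, 0), (2, 1), (2, 3), (2, 4), (3, 2), (3, 5), (3,
      6), (4, 1), (4, 2), (5, 3), (6, 3)]
    mix := [(0, 0), (0, 1), (1, 1), (1, 2), (2, 0), (2, 3), (2, 4), (3, 0), (3, 4), (3, 5), (3, 6), (4,
      2), (4, 3), (4, 7), (4, 8), (5, 4), (5, 5), (5, 9), (6, 5), (6, 6), (6, 8)]
    cl := [0, 2, 1, 1, 0, 3, 5, 6, 4, 7]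
    chq := [(0, 3), (0, 4), (3, 0), (4, 0)]
    rng := [(0, 1), (0, 6), (1, 0), (1, 2), (2, 1), (2, 7), (3, 4), (3, 8), (4, 3), (4, 9), (5, 8), (5,
      9), (6, 0), (6, 8), (7, 2), (7, 8), (8, 3), (8, 5), (8, 6), (8, 7), (9, 4), (9, 5)]
    lev := [] }
  links := [[1, 2, 7, 8], [2, 0, 8, 9, 4], [7, 0, 1, 4, 10, 11, 3], [7, 2, 11, 5, 12, 6, 13], [10, 2, 1,
    9, 14, 15], [12, 3, 11, 16], [13, 3, 12, 15]]
  P := {
    a := 7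
    N := 17
    nb := [390, 789, 3227, 14564, 50694, 71688, 45064, 8461, 643, 16658, 34836, 66604, 98408, 32968,
      33296, 29776, 6176]
    tri := [(0, 1, 2), (0, 1, 8), (0, 2, 7), (0, 7, 8), (1, 2, 4), (1, 4, 9), (1, 8, 9), (2, 3, 7), (2,
      3, 11), (2, 4, 10), (2, 10, 11), (3, 5, 11), (3, 5, 12), (3, 6, 12), (3, 6, 13), (3, 7, 13),
      (4, 9, 14), (4, 10, 15), (4, 14, 15), (5, 11, 16), (5, 12, 16), (6, 12, 15), (6, 13, 15)]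
    fin := [0, 0, 0, 0, 4, 0, 0, 0, 8, 4, 4, 0, 12, 13, 14, 15, 16]
    chd := [(0, 12), (0, 15)]
    steps := [(0, 1), (0, 2), (0, 3), (0, 5), (0, 6), (0, 7), (0, 11), (4, 9), (4, 10)] }
  rep := [0, 4, 8, 12, 15, 13, 14, 16]

noncomputable def v1903 : Cov.CovD where
  P := 3
  N := 5
  pl := [1, 6, 7, 9]
  lev := [⟨[], [], [], [2], [(0, 0, [3, 4])]⟩,
    ⟨[], [(0, 0), (0, 1)], [], [2], [(2, 1, [])]⟩,
    ⟨[(0, 1)], [(0, 0), (0, 1), (1, 0), (1, 1)], [(0, 0), (0, 1)], [], [(0, 0, [3, 4]), (3,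
      1, []), (4, 0, [3, 4])]⟩,
    ⟨[(0, 2), (1, 2)], [(0, 0), (2, 0), (2, 1), (2, 3)], [(0, 0), (0, 3)], [5], [(0, 0, [3,
      4]), (4, 0, [3, 4]), (5, 3, [0])]⟩,
    ⟨[(0, 1), (0, 2), (1, 2), (2, 3)], [(1, 1), (1, 4), (2, 0), (2, 1), (2, 4)], [(1, 1),
      (1, 4)], [6], [(2, 1, []), (3, 1, []), (8, 4, [0])]⟩,
    ⟨[(2, 3)], [(2, 0), (3, 0), (3, 3)], [(0, 3)], [7], [(4, 0, [3, 4]), (5, 3, [0])]⟩,
    ⟨[(2, 3), (3, 5)], [(3, 0), (3, 3), (3, 4), (4, 4), (5, 3)], [(3, 4)], [5], [(5, 3,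
      [0]), (8, 4, [0])]⟩]
  Ta := [((0, 1), 0, 2), ((0, 6), 0, 5), ((2, 1), 1, 2), ((2, 7), 1, 6), ((3, 4), 1, 0), ((3, 8),
    1, 4), ((4, 3), 0, 1), ((4, 9), 0, 7)]
  Tb := [((0, 1, 6), 0, 2, 5), ((1, 0, 2), 2, 0, 1), ((2, 1, 7), 1, 2, 6), ((3, 4, 8), 1, 0, 4),
    ((4, 3, 9), 0, 1, 7), ((5, 8, 9), 3, 4, 7), ((6, 0, 8), 5, 0, 4), ((7, 2, 8), 6, 1, 4),
    ((8, 3, 5), 4, 1, 3), ((8, 3, 6), 4, 1, 5), ((8, 3, 7), 4, 1, 6), ((8, 5, 6), 4, 3, 5),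
    ((8, 5, 7), 4, 3, 6), ((8, 6, 7), 4, 5, 6), ((9, 4, 5), 7, 0, 3)]
  Tc := [(0, 3, 4)]
  Td := [((0, 3), (0, 1), 2), ((0, 3), (0, 6), 5), ((0, 3), (4, 3), 1), ((0, 3), (4, 9), 7), ((0,
    4), (0, 1), 2), ((0, 4), (0, 6), 5), ((0, 4), (4, 3), 1), ((0, 4), (4, 9), 7), ((3, 0),
    (5, 8), 4), ((3, 0), (5, 9), 7), ((4, 0), (8, 3), 1), ((4, 0), (8, 5), 3), ((4, 0), (8,
    6), 5), ((4, 0), (8, 7), 6)]
  G := [[0, 0, 0x414112156811111d11119118ec82, 0x1d311232255611982183115119d135449cce84,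
    0x4491d3512312556883115119d11982258ec82], [0, 0, 0x11115114111d211111de8188c24, 0,
    0x143155512513956885119193d13981138ec28], [0, 0, 0,
    0x181e111e111ed121e221e221eda111e414e111ed4681,
    0x188e111e111ed111e211e221eda111e411e111ed4681], [0,
    0x111e42111e221ea2181e111e111ee111e414e111eece84, 0, 0,
    0x111e414e111ed111e111e221ed6118e111e111ed8c21]]

noncomputable def n1903 : Ent := ⟨e1903, noF, [], [], []⟩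

def c1903 : PLift (Cov.check n1903.C.D v1903 = true) := ⟨by decide +kernel⟩

def b1903 : PLift (entF (fidx ts) 400 1903 n1903 = true) := ⟨by decide +kernel⟩

theorem g1903 : GoodF (fidx ts) 400 1903 := GoodF.ofV v1903 n1903 c1903.down b1903.down

/-- 4577644:1613 -/
noncomputable def e1904 : SCfg where
  D := {
    a := 7
    L := 11
    kp := 8
    inn := [(0, 1), (0, 2), (1, 0), (1, 2), (1, 4), (2, 0), (2, 1), (2, 3), (2, 4), (3, 2), (3, 5), (3,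
      6), (4, 1), (4, 2), (5, 3), (6, 3)]
    mix := [(0, 0), (0, 1), (1, 1), (1, 2), (2, 0), (2, 3), (2, 4), (3, 0), (3, 4), (3, 5), (3, 6), (4,
      2), (4, 3), (4, 7), (4, 8), (5, 4), (5, 5), (5, 9), (6, 5), (6, 6), (6, 10)]
    cl := [0, 2, 1, 1, 0, 3, 4, 6, 7, 8, 5]
    chq := [(0, 3), (0, 5), (3, 0), (5, 0)]
    rng := [(0, 1), (0, 6), (1, 0), (1, 2), (2, 1), (2, 7), (3, 4), (3, 8), (4, 3), (4, 9), (5, 9), (5,
      10), (6, 0), (6, 10), (7, 2), (7, 8), (8, 3), (8, 7), (9, 4), (9, 5), (10, 5), (10, 6)]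
    lev := [] }
  links := [[1, 2, 7, 8], [2, 0, 8, 9, 4], [7, 0, 1, 4, 10, 11, 3], [7, 2, 11, 5, 12, 6, 13], [10, 2, 1,
    9, 14, 15], [12, 3, 11, 16], [13, 3, 12, 17]]
  P := {
    a := 7
    N := 18
    nb := [390, 789, 3227, 14564, 50694, 71688, 143368, 8461, 643, 16658, 34836, 66604, 196712,
      131272, 33296, 17424, 6176, 12352]
    tri := [(0, 1, 2), (0, 1, 8), (0, 2, 7), (0, 7, 8), (1, 2, 4), (1, 4, 9), (1, 8, 9), (2, 3, 7), (2,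
      3, 11), (2, 4, 10), (2, 10, 11), (3, 5, 11), (3, 5, 12), (3, 6, 12), (3, 6, 13), (3, 7, 13),
      (4, 9, 14), (4, 10, 15), (4, 14, 15), (5, 11, 16), (5, 12, 16), (6, 12, 17), (6, 13, 17)]
    fin := [0, 0, 0, 0, 4, 0, 0, 0, 8, 4, 4, 0, 12, 13, 14, 15, 16, 17]
    chd := [(0, 12), (0, 17)]
    steps := [(0, 1), (0, 2), (0, 3), (0, 5), (0, 6), (0, 7), (0, 11), (4, 9), (4, 10)] }
  rep := [0, 4, 8, 12, 13, 17, 14, 15, 16]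

noncomputable def v1904 : Cov.CovD where
  P := 3
  N := 6
  pl := [1, 6, 7, 8, 9]
  lev := [⟨[], [], [], [2], [(0, 0, [3, 5])]⟩,
    ⟨[], [(0, 0), (0, 1)], [], [2], [(2, 1, [])]⟩,
    ⟨[(0, 1)], [(0, 0), (0, 1), (1, 0), (1, 1)], [(0, 0), (0, 1)], [], [(0, 0, [3, 5]), (3,
      1, []), (4, 0, [3, 5])]⟩,
    ⟨[(0, 2), (1, 2)], [(0, 0), (2, 0), (2, 1), (2, 3)], [(0, 0), (0, 3)], [4], [(0, 0, [3,
      5]), (4, 0, [3, 5]), (5, 3, [0])]⟩,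
    ⟨[(0, 1), (0, 2), (1, 2), (2, 3)], [(1, 1), (2, 0), (2, 1)], [(1, 1)], [6, 7], [(2, 1,
      []), (3, 1, [])]⟩,
    ⟨[(2, 3)], [(2, 0), (3, 0), (3, 3)], [(0, 3)], [8], [(4, 0, [3, 5]), (5, 3, [0])]⟩,
    ⟨[(2, 3), (3, 5)], [(3, 0), (3, 3), (3, 5), (5, 3)], [(3, 5)], [4], [(5, 3, [0]), (10,
      5, [0])]⟩]
  Ta := [((0, 1), 0, 2), ((0, 6), 0, 4), ((2, 1), 1, 2), ((2, 7), 1, 6), ((3, 4), 1, 0), ((3, 8),
    1, 7), ((4, 3), 0, 1), ((4, 9), 0, 8)]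
  Tb := [((0, 1, 6), 0, 2, 4), ((1, 0, 2), 2, 0, 1), ((2, 1, 7), 1, 2, 6), ((3, 4, 8), 1, 0, 7),
    ((4, 3, 9), 0, 1, 8), ((5, 9, 10), 3, 8, 5), ((6, 0, 10), 4, 0, 5), ((7, 2, 8), 6, 1, 7),
    ((8, 3, 7), 7, 1, 6), ((9, 4, 5), 8, 0, 3), ((10, 5, 6), 5, 3, 4)]
  Tc := [(0, 3, 5)]
  Td := [((0, 3), (0, 1), 2), ((0, 3), (0, 6), 4), ((0, 3), (4, 3), 1), ((0, 3), (4, 9), 8), ((0,
    5), (0, 1), 2), ((0, 5), (0, 6), 4), ((0, 5), (4, 3), 1), ((0, 5), (4, 9), 8), ((3, 0),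
    (5, 9), 8), ((3, 0), (5, 10), 5), ((5, 0), (10, 5), 3), ((5, 0), (10, 6), 4)]
  G := [[0, 0, 0x1144111111d11119111111dec82, 0x31139113bd2119d19391d115d155115ddca14,
    0x1551555139133561d9193199d11381758ec82], [0, 0, 0x111154111111d118111111dec82, 0,
    0x11115915511d7d13313311b7de195199c8c12], [0, 0, 0,
    0x111e111e111ed111e111e111ed6111e111e111ed8a41,
    0x111e111e111ed111e111e111eda111e111e111ed4618], [0,
    0x111e111e111ee111e111e111eea111e111e111ee4681, 0, 0,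
    0x111e111e111ed111e111e111ed6111e111e111ed8c21]]

noncomputable def n1904 : Ent := ⟨e1904, noF, [], [], [(9, 17, [6903326391201334775872065844685381424292761054348340378595029937475585, 0]), (14, 17, [6903326391201334775872065844685381424292761054348340378595029937479681, 0]), (15, 17, [6903326391201334775872065844685381424292761054348340378595029937483777, 0])]⟩

def c1904 : PLift (Cov.check n1904.C.D v1904 = true) := ⟨by decide +kernel⟩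

def b1904 : PLift (entF (fidx ts) 400 1904 n1904 = true) := ⟨by decide +kernel⟩

theorem g1904 : GoodF (fidx ts) 400 1904 := GoodF.ofV v1904 n1904 c1904.down b1904.down

/-- 4846644:1614/2 -/
noncomputable def e1905 : SCfg where
  D := {
    a := 7
    L := 9
    kp := 6
    inn := [(0, 1), (0, 3), (1, 0), (1, 2), (1, 3), (1, 5), (2, 1), (3, 0), (3, 1), (3, 4), (4, 3), (4,
      6), (5, 1), (6, 4)]
    mix := [(0, 0), (0, 1), (1, 0), (1, 2), (1, 3), (1, 4), (2, 2), (2, 3), (2, 5), (3, 1), (3, 2), (3,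
      6), (4, 1), (4, 6), (4, 7), (4, 8), (5, 0), (5, 4), (5, 7), (6, 0), (6, 1), (6, 7)]
    cl := [0, 1, 0, 4, 3, 6, 5, 2, 1]
    chq := [(0, 3), (3, 0), (3, 6), (6, 3)]
    rng := [(0, 1), (0, 7), (1, 0), (2, 5), (2, 6), (3, 4), (3, 5), (4, 3), (4, 7), (5, 2), (5, 3), (6,
      2), (6, 8), (7, 0), (7, 4), (7, 8), (8, 6), (8, 7)]
    lev := [] }
  links := [[1, 7, 8, 3], [7, 0, 3, 9, 2, 10, 11, 5], [10, 1, 9, 12], [9, 1, 0, 8, 4, 13], [13, 3, 8, 6,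
    14, 15], [7, 1, 11, 14], [14, 4, 8, 7]]
  P := {
    a := 7
    N := 16
    nb := [394, 3757, 5634, 8979, 57672, 18562, 16784, 16739, 217, 12302, 6150, 17442, 1540, 33304,
      35056, 24592]
    tri := [(0, 1, 3), (0, 1, 7), (0, 3, 8), (0, 7, 8), (1, 2, 9), (1, 2, 10), (1, 3, 9), (1, 5, 7),
      (1, 5, 11), (1, 10, 11), (2, 9, 12), (2, 10, 12), (3, 4, 8), (3, 4, 13), (3, 9, 13), (4, 6,
      8), (4, 6, 14), (4, 13, 15), (4, 14, 15), (5, 7, 14), (5, 11, 14), (6, 7, 8), (6, 7, 14)]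
    fin := [0, 1, 1, 0, 4, 0, 0, 0, 4, 0, 10, 11, 1, 13, 14, 4]
    chd := [(0, 11), (11, 1)]
    steps := [(0, 3), (0, 7), (0, 5), (0, 9), (1, 2), (1, 12), (4, 8), (0, 6), (4, 15)] }
  rep := [0, 4, 14, 11, 10, 13, 1]

noncomputable def v1905 : Cov.CovD where
  P := 3
  N := 4
  pl := [3, 6, 7]
  lev := [⟨[], [], [(0, 1)], [], [(0, 0, [3]), (1, 1, [])]⟩,
    ⟨[], [(0, 0), (0, 1), (0, 3)], [(0, 0), (0, 3)], [4], [(0, 0, [3]), (2, 0, [3]), (4, 3,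
      [0, 6])]⟩,
    ⟨[(0, 1)], [(1, 0), (1, 3), (1, 6)], [(0, 6)], [4], [(2, 0, [3]), (5, 6, [3])]⟩,
    ⟨[(0, 1), (1, 2)], [(0, 0), (0, 1), (1, 0), (1, 1), (1, 3), (2, 0)], [(0, 1)], [5],
      [(1, 1, []), (2, 0, [3])]⟩,
    ⟨[(0, 3), (1, 3)], [(0, 1), (3, 0), (3, 1)], [(1, 1)], [2, 5], [(1, 1, []), (8, 1,
      [])]⟩,
    ⟨[(0, 1), (1, 2), (1, 3)], [(0, 0), (1, 0), (1, 3)], [(0, 3)], [2], [(0, 0, [3]), (4,
      3, [0, 6])]⟩,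
    ⟨[(3, 4)], [(0, 0), (0, 1), (1, 0), (3, 1), (4, 0), (4, 1), (5, 0)], [(0, 1)], [2],
      [(0, 0, [3]), (1, 1, [])]⟩]
  Ta := [((0, 1), 0, 1), ((0, 7), 0, 2), ((1, 0), 1, 0), ((2, 5), 0, 6), ((2, 6), 0, 5), ((8, 6),
    1, 5), ((8, 7), 1, 2)]
  Tb := [((0, 1, 7), 0, 1, 2), ((2, 5, 6), 0, 6, 5), ((3, 4, 5), 4, 3, 6), ((4, 3, 7), 3, 4, 2),
    ((5, 2, 3), 6, 0, 4), ((6, 2, 8), 5, 0, 1), ((7, 0, 4), 2, 0, 3), ((7, 0, 8), 2, 0, 1),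
    ((7, 4, 8), 2, 3, 1), ((8, 6, 7), 1, 5, 2)]
  Tc := [(3, 0, 6)]
  Td := [((0, 3), (0, 1), 1), ((0, 3), (0, 7), 2), ((0, 3), (2, 5), 6), ((0, 3), (2, 6), 5), ((3,
    0), (4, 3), 4), ((3, 0), (4, 7), 2), ((3, 6), (4, 3), 4), ((3, 6), (4, 7), 2), ((6, 3),
    (5, 2), 0), ((6, 3), (5, 3), 4)]
  G := [[0, 0x88448861488444a448444a3448844c488884cce2,
    0x4444c18484c1a8244164848c18444c1642881ac, 0,
    0x821828588148818b4821821c888188147821821c1ac], [0, 0,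
    0x2444c14448c1a22441688246c12824c1622881ac, 0x4412844812444c888c1c1ac,
    0x8281281488a12b8214821821c9628818812881478c], [0, 0, 0, 0,
    0x88314811888314e482181889c883181889c611a8811a88a128821c128821ccec], [0, 0, 0,
    0x414492844911894c48c11894c485111c4ce6888852489,
    0x881188688888168214721888a1a22388891aa228811c128821cce4]]

noncomputable def n1905 : Ent := ⟨e1905, noF, [], [], []⟩

def c1905 : PLift (Cov.check n1905.C.D v1905 = true) := ⟨by decide +kernel⟩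

def b1905 : PLift (entF (fidx ts) 400 1905 n1905 = true) := ⟨by decide +kernel⟩

theorem g1905 : GoodF (fidx ts) 400 1905 := GoodF.ofV v1905 n1905 c1905.down b1905.down

/-- 4846644:1614/1 -/
noncomputable def e1906 : SCfg where
  D := {
    a := 7
    L := 10
    kp := 7
    inn := [(0, 1), (0, 3), (1, 0), (1, 2), (1, 3), (1, 5), (2, 1), (3, 0), (3, 1), (3, 4), (4, 3), (4,
      6), (5, 1), (6, 4)]
    mix := [(0, 0), (0, 1), (1, 0), (1, 2), (1, 3), (1, 4), (2, 2), (2, 3), (2, 5), (3, 1), (3, 2), (3,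
      6), (4, 1), (4, 6), (4, 7), (4, 8), (5, 0), (5, 4), (5, 9), (6, 0), (6, 1), (6, 7)]
    cl := [0, 1, 2, 0, 4, 5, 1, 3, 6, 7]
    chq := [(0, 2), (1, 3), (2, 0), (3, 1)]
    rng := [(0, 1), (0, 7), (0, 9), (1, 0), (2, 5), (2, 6), (3, 4), (3, 5), (4, 3), (4, 9), (5, 2), (5,
      3), (6, 2), (6, 8), (7, 0), (7, 8), (8, 6), (8, 7), (9, 0), (9, 4)]
    lev := [] }
  links := [[1, 7, 8, 3], [7, 0, 3, 9, 2, 10, 11, 5], [10, 1, 9, 12], [9, 1, 0, 8, 4, 13], [13, 3, 8, 6,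
    14, 15], [7, 1, 11, 16], [14, 4, 8, 7]]
  P := {
    a := 7
    N := 17
    nb := [394, 3757, 5634, 8979, 57672, 67714, 16784, 82275, 217, 12302, 6150, 66594, 1540, 33304,
      32976, 24592, 2208]
    tri := [(0, 1, 3), (0, 1, 7), (0, 3, 8), (0, 7, 8), (1, 2, 9), (1, 2, 10), (1, 3, 9), (1, 5, 7),
      (1, 5, 11), (1, 10, 11), (2, 9, 12), (2, 10, 12), (3, 4, 8), (3, 4, 13), (3, 9, 13), (4, 6,
      8), (4, 6, 14), (4, 13, 15), (4, 14, 15), (5, 7, 16), (5, 11, 16), (6, 7, 8), (6, 7, 14)]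
    fin := [0, 0, 0, 0, 4, 0, 0, 0, 4, 9, 0, 11, 12, 4, 14, 15, 16]
    chd := [(0, 9), (4, 14)]
    steps := [(0, 1), (0, 2), (0, 3), (0, 5), (0, 7), (0, 10), (4, 8), (0, 6), (4, 13)] }
  rep := [0, 4, 9, 14, 11, 12, 15, 16]

noncomputable def v1906 : Cov.CovD where
  P := 3
  N := 5
  pl := [4, 5, 8, 9]
  lev := [⟨[], [], [(0, 1)], [], [(0, 0, [2]), (1, 1, [3])]⟩,
    ⟨[], [(0, 0), (0, 1), (0, 2)], [(0, 0), (0, 2)], [4], [(0, 0, [2]), (2, 2, [0]), (3, 0,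
      [2])]⟩,
    ⟨[(0, 1)], [(1, 0), (1, 2)], [(0, 2)], [5], [(2, 2, [0]), (3, 0, [2])]⟩,
    ⟨[(0, 1), (1, 2)], [(0, 0), (0, 1), (0, 2), (1, 0), (1, 1), (1, 2), (2, 2)], [(1, 1),
      (1, 2)], [], [(1, 1, [3]), (2, 2, [0]), (6, 1, [3])]⟩,
    ⟨[(0, 3), (1, 3)], [(0, 1), (3, 1), (3, 2), (3, 3)], [(1, 1), (1, 3)], [6], [(1, 1,
      [3]), (6, 1, [3]), (7, 3, [1])]⟩,
    ⟨[(0, 1), (1, 2), (1, 3)], [(0, 0), (1, 0), (1, 2)], [], [4, 7], [(0, 0, [2])]⟩,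
    ⟨[(3, 4)], [(0, 0), (0, 1), (1, 0), (3, 1), (4, 0), (4, 1), (4, 3), (5, 0)], [(0, 1),
      (0, 3), (1, 3)], [], [(0, 0, [2]), (1, 1, [3]), (7, 3, [1])]⟩]
  Ta := [((0, 1), 0, 1), ((0, 7), 0, 3), ((0, 9), 0, 7), ((1, 0), 1, 0), ((3, 4), 0, 4), ((3, 5),
    0, 5), ((6, 2), 1, 2), ((6, 8), 1, 6)]
  Tb := [((0, 1, 7), 0, 1, 3), ((0, 1, 9), 0, 1, 7), ((0, 7, 9), 0, 3, 7), ((2, 5, 6), 2, 5, 1),
    ((3, 4, 5), 0, 4, 5), ((4, 3, 9), 4, 0, 7), ((5, 2, 3), 5, 2, 0), ((6, 2, 8), 1, 2, 6),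
    ((7, 0, 8), 3, 0, 6), ((8, 6, 7), 6, 1, 3), ((9, 0, 4), 7, 0, 4)]
  Tc := []
  Td := [((0, 2), (0, 1), 1), ((0, 2), (0, 7), 3), ((0, 2), (0, 9), 7), ((0, 2), (3, 4), 4), ((0,
    2), (3, 5), 5), ((1, 3), (1, 0), 0), ((1, 3), (6, 2), 2), ((1, 3), (6, 8), 6), ((2, 0),
    (2, 5), 5), ((2, 0), (2, 6), 1), ((3, 1), (7, 0), 0), ((3, 1), (7, 8), 6)]
  G := [[0, 0x42488a22aac18a844164446226e828c1c6, 0xc118141c5481c194145241c15818c8e8, 0,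
    0x88c44ccccd11886446cc6d11a4], [0, 0, 0x41481219c22141c1d8841481219c4e4,
    0x286246226d11422a24a22ad118c, 0x88c44c22cd11886446226d11a4], [0, 0,
    0xc118141c52c118141c9881c1941454e4, 0,
    0x18541c1d118341ccccd1a446cc65889891441c1d8189aa4], [0, 0,
    0x41215818942141a1d822141c1d88e4, 0x2894121d1412158189c48232227942274588a14a22ad1c8c,
    0x888714521d188c444722cd1a81149226d1214161d8aa4]]

noncomputable def n1906 : Ent := ⟨e1906, noF, [], [], [(14, 16, [1580044410770988437309982408355971841652082177953823432505696915457, 0])]⟩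

def c1906 : PLift (Cov.check n1906.C.D v1906 = true) := ⟨by decide +kernel⟩

def b1906 : PLift (entF (fidx ts) 400 1906 n1906 = true) := ⟨by decide +kernel⟩

theorem g1906 : GoodF (fidx ts) 400 1906 := GoodF.ofV v1906 n1906 c1906.down b1906.down

/-- 4846644:1614/3 -/
noncomputable def e1907 : SCfg where
  D := {
    a := 7
    L := 10
    kp := 7
    inn := [(0, 1), (0, 3), (1, 0), (1, 2), (1, 3), (1, 5), (2, 1), (3, 0), (3, 1), (3, 4), (4, 3), (4,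
      6), (5, 1), (6, 4)]
    mix := [(0, 0), (0, 1), (1, 0), (1, 2), (1, 3), (1, 4), (2, 2), (2, 3), (2, 5), (3, 1), (3, 2), (3,
      6), (4, 1), (4, 6), (4, 7), (4, 8), (5, 0), (5, 4), (5, 9), (6, 1), (6, 7), (6, 9)]
    cl := [0, 1, 2, 0, 4, 7, 1, 5, 6, 3]
    chq := [(0, 2), (2, 0), (3, 6), (6, 3)]
    rng := [(0, 1), (0, 9), (1, 0), (1, 9), (2, 5), (2, 6), (3, 4), (3, 5), (4, 3), (4, 9), (5, 2), (5,
      3), (6, 2), (6, 8), (7, 8), (7, 9), (8, 6), (8, 7), (9, 0), (9, 1), (9, 4), (9, 7)]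
    lev := [] }
  links := [[1, 7, 8, 3], [7, 0, 3, 9, 2, 10, 11, 5], [10, 1, 9, 12], [9, 1, 0, 8, 4, 13], [13, 3, 8, 6,
    14, 15], [7, 1, 11, 16], [14, 4, 8, 16]]
  P := {
    a := 7
    N := 17
    nb := [394, 3757, 5634, 8979, 57672, 67714, 82192, 65827, 65753, 12302, 6150, 66594, 1540, 33304,
      98384, 24592, 18912]
    tri := [(0, 1, 3), (0, 1, 7), (0, 3, 8), (0, 7, 8), (1, 2, 9), (1, 2, 10), (1, 3, 9), (1, 5, 7),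
      (1, 5, 11), (1, 10, 11), (2, 9, 12), (2, 10, 12), (3, 4, 8), (3, 4, 13), (3, 9, 13), (4, 6,
      8), (4, 6, 14), (4, 13, 15), (4, 14, 15), (5, 7, 16), (5, 11, 16), (6, 8, 16), (6, 14, 16)]
    fin := [0, 0, 0, 3, 4, 0, 4, 0, 3, 9, 0, 11, 12, 3, 14, 15, 4]
    chd := [(0, 9), (15, 4)]
    steps := [(0, 1), (0, 2), (0, 5), (0, 7), (0, 10), (3, 8), (3, 13), (4, 6), (4, 16)] }
  rep := [0, 3, 9, 4, 11, 14, 15, 12]

noncomputable def v1907 : Cov.CovD where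
  P := 3
  N := 5
  pl := [4, 5, 7]
  lev := [⟨[], [], [(0, 1)], [], [(0, 0, [2]), (1, 1, [])]⟩,
    ⟨[], [(0, 0), (0, 1), (0, 2)], [(0, 0), (0, 2)], [4], [(0, 0, [2]), (2, 2, [0]), (3, 0,
      [2])]⟩,
    ⟨[(0, 1)], [(1, 0), (1, 2)], [(0, 2)], [7], [(2, 2, [0]), (3, 0, [2])]⟩,
    ⟨[(0, 1), (1, 2)], [(0, 0), (0, 1), (0, 2), (1, 0), (1, 1), (1, 2), (2, 2)], [(1, 1),
      (1, 2)], [], [(1, 1, []), (2, 2, [0]), (6, 1, [])]⟩,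
    ⟨[(0, 3), (1, 3)], [(0, 1), (3, 1), (3, 2), (3, 6)], [(1, 1), (1, 6)], [5], [(1, 1,
      []), (6, 1, []), (8, 6, [3])]⟩,
    ⟨[(0, 1), (1, 2), (1, 3)], [(0, 0), (1, 0), (1, 2), (1, 3)], [(0, 3)], [4], [(0, 0,
      [2]), (9, 3, [6])]⟩,
    ⟨[(3, 4)], [(0, 1), (3, 1), (4, 1), (4, 3), (4, 6), (5, 3)], [(1, 3)], [5], [(1, 1,
      []), (9, 3, [6])]⟩]
  Ta := [((0, 1), 0, 1), ((0, 9), 0, 3), ((1, 0), 1, 0), ((1, 9), 1, 3), ((3, 4), 0, 4), ((3, 5),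
    0, 7), ((6, 2), 1, 2), ((6, 8), 1, 6)]
  Tb := [((0, 1, 9), 0, 1, 3), ((1, 0, 9), 1, 0, 3), ((2, 5, 6), 2, 7, 1), ((3, 4, 5), 0, 4, 7),
    ((4, 3, 9), 4, 0, 3), ((5, 2, 3), 7, 2, 0), ((6, 2, 8), 1, 2, 6), ((7, 8, 9), 5, 6, 3),
    ((8, 6, 7), 6, 1, 5), ((9, 0, 1), 3, 0, 1), ((9, 0, 4), 3, 0, 4), ((9, 0, 7), 3, 0, 5),
    ((9, 1, 4), 3, 1, 4), ((9, 1, 7), 3, 1, 5), ((9, 4, 7), 3, 4, 5)]
  Tc := []
  Td := [((0, 2), (0, 1), 1), ((0, 2), (0, 9), 3), ((0, 2), (3, 4), 4), ((0, 2), (3, 5), 7), ((2,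
    0), (2, 5), 7), ((2, 0), (2, 6), 1), ((3, 6), (9, 0), 0), ((3, 6), (9, 1), 1), ((3, 6),
    (9, 4), 4), ((3, 6), (9, 7), 5), ((6, 3), (8, 6), 1), ((6, 3), (8, 7), 5)]
  G := [[0, 0x86aa2ac2ae416264a6c86e81c2, 0x5111991458519111d82519111d84e4, 0,
    0x85c94cc4cd115564961c6d81a4], [0, 0, 0x2111931452111e121c941212232c98e8,
    0x226436c2d112aa162e583a8c1c8, 0x86ca2c22cd115222a2d81a4], [0, 0,
    0x1115191c581115191c92519111d84e4, 0, 0x5191c1d191113585c89a516496116d8919d18555189aa4],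
    [0, 0, 0x31115218c2219111d8822432119c4e4, 0x519241d112151819c9c11315291c9529211d8cc2,
    0x3121c1d1363113512c89a323222d1512181d8aa4]]

noncomputable def n1907 : Ent := ⟨e1907, noF, [], [], []⟩

def c1907 : PLift (Cov.check n1907.C.D v1907 = true) := ⟨by decide +kernel⟩

def b1907 : PLift (entF (fidx ts) 400 1907 n1907 = true) := ⟨by decide +kernel⟩

theorem g1907 : GoodF (fidx ts) 400 1907 := GoodF.ofV v1907 n1907 c1907.down b1907.down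

/-- 4846644:1614/4 -/
noncomputable def e1908 : SCfg where
  D := {
    a := 7
    L := 10
    kp := 7
    inn := [(0, 1), (0, 3), (1, 0), (1, 2), (1, 3), (1, 5), (2, 1), (3, 0), (3, 1), (3, 4), (4, 3), (4,
      6), (5, 1), (6, 4)]
    mix := [(0, 0), (0, 1), (1, 0), (1, 2), (1, 3), (1, 4), (2, 2), (2, 3), (2, 5), (3, 1), (3, 2), (3,
      6), (4, 1), (4, 6), (4, 7), (4, 8), (5, 0), (5, 4), (5, 7), (6, 1), (6, 7), (6, 9)]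
    cl := [0, 1, 0, 4, 3, 6, 5, 2, 1, 7]
    chq := [(0, 3), (3, 0), (3, 6), (6, 3)]
    rng := [(0, 1), (0, 7), (1, 0), (1, 9), (2, 5), (2, 6), (3, 4), (3, 5), (4, 3), (4, 7), (5, 2), (5,
      3), (6, 2), (6, 8), (7, 0), (7, 4), (7, 8), (7, 9), (8, 6), (8, 7), (9, 1), (9, 7)]
    lev := [] }
  links := [[1, 7, 8, 3], [7, 0, 3, 9, 2, 10, 11, 5], [10, 1, 9, 12], [9, 1, 0, 8, 4, 13], [13, 3, 8, 6,
    14, 15], [7, 1, 11, 14], [14, 4, 8, 16]]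
  P := {
    a := 7
    N := 17
    nb := [394, 3757, 5634, 8979, 57672, 18562, 82192, 16675, 65753, 12302, 6150, 17442, 1540, 33304,
      100592, 24592, 16704]
    tri := [(0, 1, 3), (0, 1, 7), (0, 3, 8), (0, 7, 8), (1, 2, 9), (1, 2, 10), (1, 3, 9), (1, 5, 7),
      (1, 5, 11), (1, 10, 11), (2, 9, 12), (2, 10, 12), (3, 4, 8), (3, 4, 13), (3, 9, 13), (4, 6,
      8), (4, 6, 14), (4, 13, 15), (4, 14, 15), (5, 7, 14), (5, 11, 14), (6, 8, 16), (6, 14, 16)]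
    fin := [0, 1, 1, 0, 4, 0, 4, 0, 4, 0, 10, 11, 1, 13, 14, 4, 16]
    chd := [(0, 11), (11, 1)]
    steps := [(0, 3), (0, 7), (0, 5), (0, 9), (1, 2), (1, 12), (4, 6), (4, 8), (4, 15)] }
  rep := [0, 4, 14, 11, 10, 13, 1, 16]

noncomputable def v1908 : Cov.CovD where
  P := 3
  N := 5
  pl := [3, 6, 7, 9]
  lev := [⟨[], [], [(0, 1)], [], [(0, 0, [3]), (1, 1, [])]⟩,
    ⟨[], [(0, 0), (0, 1), (0, 3)], [(0, 0), (0, 3)], [4], [(0, 0, [3]), (2, 0, [3]), (4, 3,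
      [0, 6])]⟩,
    ⟨[(0, 1)], [(1, 0), (1, 3), (1, 6)], [(0, 6)], [4], [(2, 0, [3]), (5, 6, [3])]⟩,
    ⟨[(0, 1), (1, 2)], [(0, 0), (0, 1), (1, 0), (1, 1), (1, 3), (2, 0)], [(0, 1)], [5],
      [(1, 1, []), (2, 0, [3])]⟩,
    ⟨[(0, 3), (1, 3)], [(0, 1), (3, 0), (3, 1)], [(1, 1)], [2, 5], [(1, 1, []), (8, 1,
      [])]⟩,
    ⟨[(0, 1), (1, 2), (1, 3)], [(0, 0), (1, 0), (1, 3)], [(0, 3)], [2], [(0, 0, [3]), (4,
      3, [0, 6])]⟩,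
    ⟨[(3, 4)], [(0, 1), (3, 1), (4, 1)], [], [2, 7], [(1, 1, [])]⟩]
  Ta := [((0, 1), 0, 1), ((0, 7), 0, 2), ((1, 0), 1, 0), ((1, 9), 1, 7), ((2, 5), 0, 6), ((2, 6),
    0, 5), ((8, 6), 1, 5), ((8, 7), 1, 2)]
  Tb := [((0, 1, 7), 0, 1, 2), ((1, 0, 9), 1, 0, 7), ((2, 5, 6), 0, 6, 5), ((3, 4, 5), 4, 3, 6),
    ((4, 3, 7), 3, 4, 2), ((5, 2, 3), 6, 0, 4), ((6, 2, 8), 5, 0, 1), ((7, 0, 4), 2, 0, 3),
    ((7, 0, 8), 2, 0, 1), ((7, 0, 9), 2, 0, 7), ((7, 4, 8), 2, 3, 1), ((7, 4, 9), 2, 3, 7),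
    ((7, 8, 9), 2, 1, 7), ((8, 6, 7), 1, 5, 2), ((9, 1, 7), 7, 1, 2)]
  Tc := [(3, 0, 6)]
  Td := [((0, 3), (0, 1), 1), ((0, 3), (0, 7), 2), ((0, 3), (2, 5), 6), ((0, 3), (2, 6), 5), ((3,
    0), (4, 3), 4), ((3, 0), (4, 7), 2), ((3, 6), (4, 3), 4), ((3, 6), (4, 7), 2), ((6, 3),
    (5, 2), 0), ((6, 3), (5, 3), 4)]
  G := [[0, 0x88c4c284c4c234484cc444c6c8c8c2c884d6c884c88c8c8c6584884c84484c834e,
    0x84c4c184c4c1a4c8c8c1c8c8c1644a881c2c2c1c2c2c1cec, 0,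
    0x921928598149818b921921c1692192859881981478c], [0, 0,
    0x2422ac12424c1a2244162828c12428c1622881ac, 0xc41284c812455c8ccc1c1ac,
    0x221221c281281c94221288528128856228221c1ac], [0, 0, 0, 0,
    0x9991919939c91188199a94e492198989c91191989c611819821282982929c1288981929c9818eec], [0,
    0, 0, 0x9858924945492855c899c4c55c899c4c55c899c4cee1,
    0x28198862819886622a8911a2238911a9212b228221c218221cce4]]

noncomputable def n1908 : Ent := ⟨e1908, noF, [], [], [(7, 16, [1580044410770988437309982408355971841652082177953823432505696915457, 0])]⟩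

def c1908 : PLift (Cov.check n1908.C.D v1908 = true) := ⟨by decide +kernel⟩

def b1908 : PLift (entF (fidx ts) 400 1908 n1908 = true) := ⟨by decide +kernel⟩

theorem g1908 : GoodF (fidx ts) 400 1908 := GoodF.ofV v1908 n1908 c1908.down b1908.down

/-- 4846644:1614 -/
noncomputable def e1909 : SCfg where
  D := {
    a := 7
    L := 11
    kp := 8
    inn := [(0, 1), (0, 3), (1, 0), (1, 2), (1, 3), (1, 5), (2, 1), (3, 0), (3, 1), (3, 4), (4, 3), (4,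
      6), (5, 1), (6, 4)]
    mix := [(0, 0), (0, 1), (1, 0), (1, 2), (1, 3), (1, 4), (2, 2), (2, 3), (2, 5), (3, 1), (3, 2), (3,
      6), (4, 1), (4, 6), (4, 7), (4, 8), (5, 0), (5, 4), (5, 9), (6, 1), (6, 7), (6, 10)]
    cl := [0, 1, 2, 0, 3, 7, 1, 4, 5, 8, 6]
    chq := [(0, 2), (2, 0), (5, 6), (6, 5)]
    rng := [(0, 1), (0, 9), (1, 0), (1, 10), (2, 5), (2, 6), (3, 4), (3, 5), (4, 3), (4, 9), (5, 2),
      (5, 3), (6, 2), (6, 8), (7, 8), (7, 10), (8, 6), (8, 7), (9, 0), (9, 4), (10, 1), (10, 7)]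
    lev := [] }
  links := [[1, 7, 8, 3], [7, 0, 3, 9, 2, 10, 11, 5], [10, 1, 9, 12], [9, 1, 0, 8, 4, 13], [13, 3, 8, 6,
    14, 15], [7, 1, 11, 16], [14, 4, 8, 17]]
  P := {
    a := 7
    N := 18
    nb := [394, 3757, 5634, 8979, 57672, 67714, 147728, 65827, 131289, 12302, 6150, 66594, 1540,
      33304, 163920, 24592, 2208, 16704]
    tri := [(0, 1, 3), (0, 1, 7), (0, 3, 8), (0, 7, 8), (1, 2, 9), (1, 2, 10), (1, 3, 9), (1, 5, 7),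
      (1, 5, 11), (1, 10, 11), (2, 9, 12), (2, 10, 12), (3, 4, 8), (3, 4, 13), (3, 9, 13), (4, 6,
      8), (4, 6, 14), (4, 13, 15), (4, 14, 15), (5, 7, 16), (5, 11, 16), (6, 8, 17), (6, 14, 17)]
    fin := [0, 0, 0, 3, 4, 0, 4, 0, 3, 9, 0, 11, 12, 3, 14, 15, 16, 4]
    chd := [(0, 9), (15, 4)]
    steps := [(0, 1), (0, 2), (0, 5), (0, 7), (0, 10), (3, 8), (3, 13), (4, 6), (4, 17)] }
  rep := [0, 3, 9, 11, 14, 15, 4, 12, 16]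

noncomputable def v1909 : Cov.CovD where
  P := 3
  N := 6
  pl := [4, 5, 7, 9]
  lev := [⟨[], [], [(0, 1)], [], [(0, 0, [2]), (1, 1, [])]⟩,
    ⟨[], [(0, 0), (0, 1), (0, 2)], [(0, 0), (0, 2)], [3], [(0, 0, [2]), (2, 2, [0]), (3, 0,
      [2])]⟩,
    ⟨[(0, 1)], [(1, 0), (1, 2)], [(0, 2)], [7], [(2, 2, [0]), (3, 0, [2])]⟩,
    ⟨[(0, 1), (1, 2)], [(0, 0), (0, 1), (0, 2), (1, 0), (1, 1), (1, 2), (2, 2)], [(1, 1),
      (1, 2)], [], [(1, 1, []), (2, 2, [0]), (6, 1, [])]⟩,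
    ⟨[(0, 3), (1, 3)], [(0, 1), (3, 1), (3, 2), (3, 5)], [(1, 1), (1, 5)], [4], [(1, 1,
      []), (6, 1, []), (8, 5, [6])]⟩,
    ⟨[(0, 1), (1, 2), (1, 3)], [(0, 0), (1, 0), (1, 2)], [], [3, 8], [(0, 0, [2])]⟩,
    ⟨[(3, 4)], [(0, 1), (3, 1), (4, 1), (4, 5), (4, 6)], [(1, 6)], [4], [(1, 1, []), (10,
      6, [5])]⟩]
  Ta := [((0, 1), 0, 1), ((0, 9), 0, 8), ((1, 0), 1, 0), ((1, 10), 1, 6), ((3, 4), 0, 3), ((3,
    5), 0, 7), ((6, 2), 1, 2), ((6, 8), 1, 5)]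
  Tb := [((0, 1, 9), 0, 1, 8), ((1, 0, 10), 1, 0, 6), ((2, 5, 6), 2, 7, 1), ((3, 4, 5), 0, 3, 7),
    ((4, 3, 9), 3, 0, 8), ((5, 2, 3), 7, 2, 0), ((6, 2, 8), 1, 2, 5), ((7, 8, 10), 4, 5, 6),
    ((8, 6, 7), 5, 1, 4), ((9, 0, 4), 8, 0, 3), ((10, 1, 7), 6, 1, 4)]
  Tc := []
  Td := [((0, 2), (0, 1), 1), ((0, 2), (0, 9), 8), ((0, 2), (3, 4), 3), ((0, 2), (3, 5), 7), ((2,
    0), (2, 5), 7), ((2, 0), (2, 6), 1), ((5, 6), (8, 6), 1), ((5, 6), (8, 7), 4), ((6, 5),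
    (10, 1), 1), ((6, 5), (10, 7), 4)]
  G := [[0, 0x66aaaaccae41666aa6cc6e81c2, 0x5191c1d4251c1991458c115191c54e8, 0,
    0x55c99ccccd11996cc65556891a4], [0, 0, 0x51a121d4431421619c831c15218c2e8,
    0x35aa2a92aa4518556996cc6d8146, 0x55caac22cd11666776226d11a4], [0, 0,
    0x5191c1d42518191c158c91c1585184ce8, 0,
    0x5559997c1d1559989bc1d1a55391cc6d1555195cccdd1aa4], [0, 0,
    0xa116131c5251a121d8851a121d84e4, 0x6269352c6d13121c1d1c42193361d12c27162a93ac9c8c,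
    0x3121a1d12297435ccac99a626a96266d1519121d8aa4]]

noncomputable def n1909 : Ent := ⟨e1909, noF, [], [], [(7, 17, [6903326391201334775872065844685381424292761054348340378595029937496065, 0]), (17, 16, [7334685537875745012586738086077695515070955365108989538292687701487617, 0]), (14, 16, [7334685537875745012586738086077695515070955365108989538292687701491713, 0])]⟩

def c1909 : PLift (Cov.check n1909.C.D v1909 = true) := ⟨by decide +kernel⟩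

def b1909 : PLift (entF (fidx ts) 400 1909 n1909 = true) := ⟨by decide +kernel⟩

theorem g1909 : GoodF (fidx ts) 400 1909 := GoodF.ofV v1909 n1909 c1909.down b1909.down

/-- 4846644:1615/2 -/
noncomputable def e1910 : SCfg where
  D := {
    a := 7
    L := 9
    kp := 6
    inn := [(0, 1), (0, 3), (1, 0), (1, 2), (1, 3), (1, 5), (2, 1), (3, 0), (3, 1), (3, 4), (4, 3), (4,
      6), (5, 1), (6, 4)]
    mix := [(0, 0), (0, 1), (1, 0), (1, 2), (1, 3), (1, 4), (2, 2), (2, 3), (2, 5), (3, 1), (3, 2), (3,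
      6), (4, 1), (4, 6), (4, 7), (4, 8), (5, 0), (5, 4), (5, 7), (6, 5), (6, 6), (6, 8)]
    cl := [0, 1, 3, 0, 5, 4, 1, 2, 6]
    chq := [(0, 3), (2, 4), (3, 0), (4, 2)]
    rng := [(0, 1), (0, 7), (1, 0), (1, 7), (2, 5), (2, 6), (3, 4), (3, 5), (4, 3), (4, 7), (5, 2), (5,
      3), (5, 6), (5, 8), (6, 2), (6, 5), (7, 0), (7, 1), (7, 4), (7, 8), (8, 5), (8, 7)]
    lev := [] }
  links := [[1, 7, 8, 3], [7, 0, 3, 9, 2, 10, 11, 5], [10, 1, 9, 12], [9, 1, 0, 8, 4, 13], [13, 3, 8, 14,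
    15, 6], [7, 1, 11, 14], [13, 4, 15, 12]]
  P := {
    a := 7
    N := 16
    nb := [394, 3757, 5634, 8979, 57672, 18562, 45072, 16675, 16537, 12302, 6150, 17442, 42564, 4696,
      35248, 20560]
    tri := [(0, 1, 3), (0, 1, 7), (0, 3, 8), (0, 7, 8), (1, 2, 9), (1, 2, 10), (1, 3, 9), (1, 5, 7),
      (1, 5, 11), (1, 10, 11), (2, 9, 12), (2, 10, 12), (3, 4, 8), (3, 4, 13), (3, 9, 13), (4, 6,
      13), (4, 6, 15), (4, 8, 14), (4, 14, 15), (5, 7, 14), (5, 11, 14), (6, 12, 13), (6, 12, 15)]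
    fin := [0, 0, 0, 3, 4, 0, 4, 0, 3, 9, 0, 11, 12, 3, 4, 15]
    chd := [(0, 9), (12, 4)]
    steps := [(0, 1), (0, 2), (0, 5), (0, 7), (0, 10), (3, 8), (3, 13), (4, 6), (4, 14)] }
  rep := [0, 3, 4, 9, 12, 11, 15]

noncomputable def v1910 : Cov.CovD where
  P := 3
  N := 4
  pl := [4, 8]
  lev := [⟨[], [], [(0, 1)], [], [(0, 0, [3]), (1, 1, [])]⟩,
    ⟨[], [(0, 0), (0, 1), (0, 3)], [(0, 0), (0, 3)], [5], [(0, 0, [3]), (2, 3, [0]), (3, 0,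
      [3])]⟩,
    ⟨[(0, 1)], [(1, 0), (1, 3), (1, 4)], [(0, 3), (0, 4), (3, 4)], [], [(2, 3, [0]), (3, 0,
      [3]), (5, 4, [2])]⟩,
    ⟨[(0, 1), (1, 2)], [(0, 0), (0, 1), (0, 3), (1, 0), (1, 1), (1, 3), (2, 3)], [(1, 1),
      (1, 3)], [], [(1, 1, []), (2, 3, [0]), (6, 1, [])]⟩,
    ⟨[(0, 3), (1, 3)], [(0, 1), (3, 1), (3, 2), (3, 3)], [(1, 1), (1, 2)], [6], [(1, 1,
      []), (6, 1, []), (7, 2, [4])]⟩,
    ⟨[(0, 1), (1, 2), (1, 3)], [(0, 0), (1, 0), (1, 2), (1, 3), (4, 2)], [(0, 2)], [5],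
      [(0, 0, [3]), (7, 2, [4])]⟩,
    ⟨[(3, 4)], [(2, 4), (3, 1), (4, 1), (4, 2), (4, 4)], [(1, 4)], [6], [(5, 4, [2]), (6,
      1, [])]⟩]
  Ta := [((0, 1), 0, 1), ((0, 7), 0, 2), ((1, 0), 1, 0), ((1, 7), 1, 2), ((3, 4), 0, 5), ((3, 5),
    0, 4), ((6, 2), 1, 3), ((6, 5), 1, 4)]
  Tb := [((0, 1, 7), 0, 1, 2), ((1, 0, 7), 1, 0, 2), ((2, 5, 6), 3, 4, 1), ((3, 4, 5), 0, 5, 4),
    ((4, 3, 7), 5, 0, 2), ((5, 2, 3), 4, 3, 0), ((5, 2, 6), 4, 3, 1), ((5, 2, 8), 4, 3, 6),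
    ((5, 3, 6), 4, 0, 1), ((5, 3, 8), 4, 0, 6), ((5, 6, 8), 4, 1, 6), ((6, 2, 5), 1, 3, 4),
    ((7, 0, 1), 2, 0, 1), ((7, 0, 4), 2, 0, 5), ((7, 0, 8), 2, 0, 6), ((7, 1, 4), 2, 1, 5),
    ((7, 1, 8), 2, 1, 6), ((7, 4, 8), 2, 5, 6), ((8, 5, 7), 6, 4, 2)]
  Tc := []
  Td := [((0, 3), (0, 1), 1), ((0, 3), (0, 7), 2), ((0, 3), (3, 4), 5), ((0, 3), (3, 5), 4), ((2,
    4), (7, 0), 0), ((2, 4), (7, 1), 1), ((2, 4), (7, 4), 5), ((2, 4), (7, 8), 6), ((3, 0),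
    (2, 5), 4), ((3, 0), (2, 6), 1), ((4, 2), (5, 2), 3), ((4, 2), (5, 3), 0), ((4, 2), (5,
    6), 1), ((4, 2), (5, 8), 6)]
  G := [[0, 0x21c12cc2122818c2428c612414c2418ca1c6, 0x1414c121818c121222c11e4, 0x22c12cc1224,
    0x44911a942422148289924222911ac], [0, 0, 0x1212c1121818c111414c11c6, 0,
    0x55a44a911c21294121428956c1189458489158c], [0, 0, 0, 0x22c125c1228,
    0x123141892211412899244921912e4], [0, 0, 0, 0,
    0x924851c1914811c1e4814191481894584891e824291821294514191eac]]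

noncomputable def n1910 : Ent := ⟨e1910, noF, [], [], []⟩

def c1910 : PLift (Cov.check n1910.C.D v1910 = true) := ⟨by decide +kernel⟩

def b1910 : PLift (entF (fidx ts) 400 1910 n1910 = true) := ⟨by decide +kernel⟩

theorem g1910 : GoodF (fidx ts) 400 1910 := GoodF.ofV v1910 n1910 c1910.down b1910.down

/-- 4846644:1615/1 -/
noncomputable def e1911 : SCfg where
  D := {
    a := 7
    L := 10
    kp := 7
    inn := [(0, 1), (0, 3), (1, 0), (1, 2), (1, 3), (1, 5), (2, 1), (3, 0), (3, 1), (3, 4), (4, 3), (4,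
      6), (5, 1), (6, 4)]
    mix := [(0, 0), (0, 1), (1, 0), (1, 2), (1, 3), (1, 4), (2, 2), (2, 3), (2, 5), (3, 1), (3, 2), (3,
      6), (4, 1), (4, 6), (4, 7), (4, 8), (5, 0), (5, 4), (5, 7), (6, 6), (6, 8), (6, 9)]
    cl := [0, 1, 2, 0, 4, 7, 1, 3, 5, 6]
    chq := [(0, 2), (2, 0), (3, 6), (6, 3)]
    rng := [(0, 1), (0, 7), (1, 0), (1, 7), (2, 5), (2, 6), (3, 4), (3, 5), (4, 3), (4, 7), (5, 2), (5,
      3), (6, 2), (6, 9), (7, 0), (7, 1), (7, 4), (7, 8), (8, 7), (8, 9), (9, 6), (9, 8)]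
    lev := [] }
  links := [[1, 7, 8, 3], [7, 0, 3, 9, 2, 10, 11, 5], [10, 1, 9, 12], [9, 1, 0, 8, 4, 13], [13, 3, 8, 14,
    15, 6], [7, 1, 11, 14], [13, 4, 15, 16]]
  P := {
    a := 7
    N := 17
    nb := [394, 3757, 5634, 8979, 57672, 18562, 106512, 16675, 16537, 12302, 6150, 17442, 1540, 66136,
      35248, 82000, 41024]
    tri := [(0, 1, 3), (0, 1, 7), (0, 3, 8), (0, 7, 8), (1, 2, 9), (1, 2, 10), (1, 3, 9), (1, 5, 7),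
      (1, 5, 11), (1, 10, 11), (2, 9, 12), (2, 10, 12), (3, 4, 8), (3, 4, 13), (3, 9, 13), (4, 6,
      13), (4, 6, 15), (4, 8, 14), (4, 14, 15), (5, 7, 14), (5, 11, 14), (6, 13, 16), (6, 15, 16)]
    fin := [0, 0, 0, 3, 4, 0, 4, 0, 3, 9, 0, 11, 12, 3, 4, 15, 16]
    chd := [(0, 9), (4, 16)]
    steps := [(0, 1), (0, 2), (0, 5), (0, 7), (0, 10), (3, 8), (3, 13), (4, 6), (4, 14)] }
  rep := [0, 3, 9, 4, 11, 15, 16, 12]

noncomputable def v1911 : Cov.CovD where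
  P := 3
  N := 5
  pl := [4, 5, 8]
  lev := [⟨[], [], [(0, 1)], [], [(0, 0, [2]), (1, 1, [])]⟩,
    ⟨[], [(0, 0), (0, 1), (0, 2)], [(0, 0), (0, 2)], [4], [(0, 0, [2]), (2, 2, [0]), (3, 0,
      [2])]⟩,
    ⟨[(0, 1)], [(1, 0), (1, 2)], [(0, 2)], [7], [(2, 2, [0]), (3, 0, [2])]⟩,
    ⟨[(0, 1), (1, 2)], [(0, 0), (0, 1), (0, 2), (1, 0), (1, 1), (1, 2), (2, 2)], [(1, 1),
      (1, 2)], [], [(1, 1, []), (2, 2, [0]), (6, 1, [])]⟩,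
    ⟨[(0, 3), (1, 3)], [(0, 1), (3, 1), (3, 2), (3, 3)], [(1, 1), (1, 3)], [5], [(1, 1,
      []), (6, 1, []), (7, 3, [6])]⟩,
    ⟨[(0, 1), (1, 2), (1, 3)], [(0, 0), (1, 0), (1, 2), (1, 3), (4, 3)], [(0, 3)], [4],
      [(0, 0, [2]), (7, 3, [6])]⟩,
    ⟨[(3, 4)], [(3, 1), (4, 1), (4, 3), (4, 6)], [(1, 6)], [5], [(6, 1, []), (9, 6, [3])]⟩]
  Ta := [((0, 1), 0, 1), ((0, 7), 0, 3), ((1, 0), 1, 0), ((1, 7), 1, 3), ((3, 4), 0, 4), ((3, 5),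
    0, 7), ((6, 2), 1, 2), ((6, 9), 1, 6)]
  Tb := [((0, 1, 7), 0, 1, 3), ((1, 0, 7), 1, 0, 3), ((2, 5, 6), 2, 7, 1), ((3, 4, 5), 0, 4, 7),
    ((4, 3, 7), 4, 0, 3), ((5, 2, 3), 7, 2, 0), ((6, 2, 9), 1, 2, 6), ((7, 0, 1), 3, 0, 1),
    ((7, 0, 4), 3, 0, 4), ((7, 0, 8), 3, 0, 5), ((7, 1, 4), 3, 1, 4), ((7, 1, 8), 3, 1, 5),
    ((7, 4, 8), 3, 4, 5), ((8, 7, 9), 5, 3, 6), ((9, 6, 8), 6, 1, 5)]
  Tc := []
  Td := [((0, 2), (0, 1), 1), ((0, 2), (0, 7), 3), ((0, 2), (3, 4), 4), ((0, 2), (3, 5), 7), ((2,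
    0), (2, 5), 7), ((2, 0), (2, 6), 1), ((3, 6), (7, 0), 0), ((3, 6), (7, 1), 1), ((3, 6),
    (7, 4), 4), ((3, 6), (7, 8), 5), ((6, 3), (9, 6), 1), ((6, 3), (9, 8), 5)]
  G := [[0, 0x1828a41ae41216e4146e81c2, 0x81441219c4c112121c9281441219c8e4, 0,
    0x6812c28cd1124692226d11a4], [0, 0, 0x41d19814584181d1d8281441d29c4e4,
    0xd8d2488ed1152d4c2d11c2, 0x5292c2d112d8d448cd118c], [0, 0,
    0x21a1541894481441219c282461219c8ac, 0, 0x2121c1d14881282dd1a2262472d84124a1d8aa4], [0,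
    0, 0x41d19814544181d1d884181d1d82e4, 0x42d2982454882853d4c4184d1d84281583d8cc2,
    0x5194c1d184dd354889a5292c2d14181d1d8aa4]]

noncomputable def n1911 : Ent := ⟨e1911, noF, [], [], [(16, 12, [1580044410777118419473445963789405229760683414688298388994431344641, 0])]⟩

def c1911 : PLift (Cov.check n1911.C.D v1911 = true) := ⟨by decide +kernel⟩

def b1911 : PLift (entF (fidx ts) 400 1911 n1911 = true) := ⟨by decide +kernel⟩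

theorem g1911 : GoodF (fidx ts) 400 1911 := GoodF.ofV v1911 n1911 c1911.down b1911.down

/-- 4846644:1615/4 -/
noncomputable def e1912 : SCfg where
  D := {
    a := 7
    L := 9
    kp := 6
    inn := [(0, 1), (0, 3), (1, 0), (1, 2), (1, 3), (1, 5), (2, 1), (3, 0), (3, 1), (3, 4), (4, 3), (4,
      6), (5, 1), (6, 4)]
    mix := [(0, 0), (0, 1), (1, 0), (1, 2), (1, 3), (1, 4), (2, 2), (2, 3), (2, 5), (3, 1), (3, 2), (3,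
      6), (4, 1), (4, 6), (4, 7), (4, 8), (5, 0), (5, 4), (5, 8), (6, 5), (6, 6), (6, 8)]
    cl := [0, 1, 2, 0, 5, 4, 1, 6, 3]
    chq := [(0, 2), (2, 0), (4, 6), (6, 4)]
    rng := [(0, 1), (0, 8), (1, 0), (1, 7), (2, 5), (2, 6), (3, 4), (3, 5), (4, 3), (4, 8), (5, 2), (5,
      3), (5, 6), (5, 8), (6, 2), (6, 5), (7, 1), (7, 8), (8, 0), (8, 4), (8, 5), (8, 7)]
    lev := [] }
  links := [[1, 7, 8, 3], [7, 0, 3, 9, 2, 10, 11, 5], [10, 1, 9, 12], [9, 1, 0, 8, 4, 13], [13, 3, 8, 14,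
    15, 6], [7, 1, 11, 15], [13, 4, 15, 12]]
  P := {
    a := 7
    N := 16
    nb := [394, 3757, 5634, 8979, 57672, 34946, 45072, 33059, 16537, 12302, 6150, 33826, 42564, 4696,
      33040, 22768]
    tri := [(0, 1, 3), (0, 1, 7), (0, 3, 8), (0, 7, 8), (1, 2, 9), (1, 2, 10), (1, 3, 9), (1, 5, 7),
      (1, 5, 11), (1, 10, 11), (2, 9, 12), (2, 10, 12), (3, 4, 8), (3, 4, 13), (3, 9, 13), (4, 6,
      13), (4, 6, 15), (4, 8, 14), (4, 14, 15), (5, 7, 15), (5, 11, 15), (6, 12, 13), (6, 12, 15)]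
    fin := [0, 0, 0, 3, 4, 0, 4, 0, 3, 9, 0, 11, 12, 3, 4, 15]
    chd := [(0, 9), (12, 4)]
    steps := [(0, 1), (0, 2), (0, 5), (0, 7), (0, 10), (3, 8), (3, 13), (4, 6), (4, 14)] }
  rep := [0, 3, 9, 15, 12, 11, 4]

noncomputable def v1912 : Cov.CovD where
  P := 3
  N := 4
  pl := [4, 8]
  lev := [⟨[], [], [(0, 1)], [], [(0, 0, [2]), (1, 1, [])]⟩,
    ⟨[], [(0, 0), (0, 1), (0, 2)], [(0, 0), (0, 2)], [5], [(0, 0, [2]), (2, 2, [0]), (3, 0,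
      [2])]⟩,
    ⟨[(0, 1)], [(1, 0), (1, 2), (1, 4)], [(0, 2), (0, 4), (2, 4)], [], [(2, 2, [0]), (3, 0,
      [2]), (5, 4, [6])]⟩,
    ⟨[(0, 1), (1, 2)], [(0, 0), (0, 1), (0, 2), (1, 0), (1, 1), (1, 2), (2, 2)], [(1, 1),
      (1, 2)], [], [(1, 1, []), (2, 2, [0]), (6, 1, [])]⟩,
    ⟨[(0, 3), (1, 3)], [(0, 1), (3, 1), (3, 2), (3, 6)], [(1, 1), (1, 6)], [3], [(1, 1,
      []), (6, 1, []), (7, 6, [4])]⟩,
    ⟨[(0, 1), (1, 2), (1, 3)], [(0, 0), (1, 0), (1, 2)], [], [3, 5], [(0, 0, [2])]⟩,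
    ⟨[(3, 4)], [(2, 4), (3, 1), (4, 1), (4, 4), (4, 6)], [(1, 4)], [3], [(5, 4, [6]), (6,
      1, [])]⟩]
  Ta := [((0, 1), 0, 1), ((0, 8), 0, 3), ((1, 0), 1, 0), ((1, 7), 1, 6), ((3, 4), 0, 5), ((3, 5),
    0, 4), ((6, 2), 1, 2), ((6, 5), 1, 4)]
  Tb := [((0, 1, 8), 0, 1, 3), ((1, 0, 7), 1, 0, 6), ((2, 5, 6), 2, 4, 1), ((3, 4, 5), 0, 5, 4),
    ((4, 3, 8), 5, 0, 3), ((5, 2, 3), 4, 2, 0), ((5, 2, 6), 4, 2, 1), ((5, 2, 8), 4, 2, 3),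
    ((5, 3, 6), 4, 0, 1), ((5, 3, 8), 4, 0, 3), ((5, 6, 8), 4, 1, 3), ((6, 2, 5), 1, 2, 4),
    ((7, 1, 8), 6, 1, 3), ((8, 0, 4), 3, 0, 5), ((8, 0, 5), 3, 0, 4), ((8, 0, 7), 3, 0, 6),
    ((8, 4, 5), 3, 5, 4), ((8, 4, 7), 3, 5, 6), ((8, 5, 7), 3, 4, 6)]
  Tc := []
  Td := [((0, 2), (0, 1), 1), ((0, 2), (0, 8), 3), ((0, 2), (3, 4), 5), ((0, 2), (3, 5), 4), ((2,
    0), (2, 5), 4), ((2, 0), (2, 6), 1), ((4, 6), (5, 2), 2), ((4, 6), (5, 3), 0), ((4, 6),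
    (5, 6), 1), ((4, 6), (5, 8), 3), ((6, 4), (7, 1), 1), ((6, 4), (7, 8), 3)]
  G := [[0, 0x1811a811ee414161412e81c2, 0x111111d421181911452c8, 0, 0x3881c426d11426126c11a4],
    [0, 0, 0x11119414511486121111d81188ac4, 0x121589288d9185294486d1146,
    0x5881c84cd1141619612d81a4], [0, 0, 0x11418229c2211111d82c4, 0, 0x18a4425d121111a1d12a4],
    [0, 0, 0x111211d4114461118114c91181cc8, 0x1141181154c5d1c18914889d1114191cc2,
    0x8111c1d118415445d1a12141c3d81181aa4]]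

noncomputable def n1912 : Ent := ⟨e1912, noF, [], [], []⟩

def c1912 : PLift (Cov.check n1912.C.D v1912 = true) := ⟨by decide +kernel⟩

def b1912 : PLift (entF (fidx ts) 400 1912 n1912 = true) := ⟨by decide +kernel⟩

theorem g1912 : GoodF (fidx ts) 400 1912 := GoodF.ofV v1912 n1912 c1912.down b1912.down

/-- 4846644:1615/3 -/
noncomputable def e1913 : SCfg where
  D := {
    a := 7
    L := 10
    kp := 7
    inn := [(0, 1), (0, 3), (1, 0), (1, 2), (1, 3), (1, 5), (2, 1), (3, 0), (3, 1), (3, 4), (4, 3), (4,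
      6), (5, 1), (6, 4)]
    mix := [(0, 0), (0, 1), (1, 0), (1, 2), (1, 3), (1, 4), (2, 2), (2, 3), (2, 5), (3, 1), (3, 2), (3,
      6), (4, 1), (4, 6), (4, 7), (4, 8), (5, 0), (5, 4), (5, 8), (6, 6), (6, 8), (6, 9)]
    cl := [0, 3, 1, 0, 2, 7, 3, 5, 4, 6]
    chq := [(0, 1), (1, 0), (5, 6), (6, 5)]
    rng := [(0, 1), (0, 8), (1, 0), (1, 7), (2, 5), (2, 6), (3, 4), (3, 5), (4, 3), (4, 8), (5, 2), (5,
      3), (6, 2), (6, 9), (7, 1), (7, 8), (8, 0), (8, 4), (8, 7), (8, 9), (9, 6), (9, 8)]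
    lev := [] }
  links := [[1, 7, 8, 3], [7, 0, 3, 9, 2, 10, 11, 5], [10, 1, 9, 12], [9, 1, 0, 8, 4, 13], [13, 3, 8, 14,
    15, 6], [7, 1, 11, 15], [13, 4, 15, 16]]
  P := {
    a := 7
    N := 17
    nb := [394, 3757, 5634, 8979, 57672, 34946, 106512, 33059, 16537, 12302, 6150, 33826, 1540, 66136,
      33040, 84208, 41024]
    tri := [(0, 1, 3), (0, 1, 7), (0, 3, 8), (0, 7, 8), (1, 2, 9), (1, 2, 10), (1, 3, 9), (1, 5, 7),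
      (1, 5, 11), (1, 10, 11), (2, 9, 12), (2, 10, 12), (3, 4, 8), (3, 4, 13), (3, 9, 13), (4, 6,
      13), (4, 6, 15), (4, 8, 14), (4, 14, 15), (5, 7, 15), (5, 11, 15), (6, 13, 16), (6, 15, 16)]
    fin := [0, 0, 0, 3, 4, 0, 4, 0, 3, 9, 0, 11, 12, 3, 4, 15, 16]
    chd := [(0, 9), (4, 16)]
    steps := [(0, 1), (0, 2), (0, 5), (0, 7), (0, 10), (3, 8), (3, 13), (4, 6), (4, 14)] }
  rep := [0, 9, 11, 3, 15, 4, 16, 12]

noncomputable def v1913 : Cov.CovD where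
  P := 3
  N := 5
  pl := [4, 5, 8]
  lev := [⟨[], [], [(0, 3)], [], [(0, 0, [1]), (1, 3, [])]⟩,
    ⟨[], [(0, 0), (0, 1), (0, 3)], [(0, 0), (0, 1)], [2], [(0, 0, [1]), (2, 1, [0]), (3, 0,
      [1])]⟩,
    ⟨[(0, 1)], [(1, 0), (1, 1)], [(0, 1)], [7], [(2, 1, [0]), (3, 0, [1])]⟩,
    ⟨[(0, 1), (1, 2)], [(0, 0), (0, 1), (0, 3), (1, 0), (1, 1), (1, 3), (2, 1)], [(1, 3),
      (3, 3)], [], [(1, 3, []), (2, 1, [0]), (6, 3, [])]⟩,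
    ⟨[(0, 3), (1, 3)], [(0, 3), (3, 1), (3, 3), (3, 5)], [(3, 3), (3, 5)], [4], [(1, 3,
      []), (6, 3, []), (7, 5, [6])]⟩,
    ⟨[(0, 1), (1, 2), (1, 3)], [(0, 0), (1, 0), (1, 1)], [], [2, 4], [(0, 0, [1])]⟩,
    ⟨[(3, 4)], [(3, 3), (4, 3), (4, 5), (4, 6)], [(3, 6)], [4], [(6, 3, []), (9, 6, [5])]⟩]
  Ta := [((0, 1), 0, 3), ((0, 8), 0, 4), ((1, 0), 3, 0), ((1, 7), 3, 5), ((3, 4), 0, 2), ((3, 5),
    0, 7), ((6, 2), 3, 1), ((6, 9), 3, 6)]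
  Tb := [((0, 1, 8), 0, 3, 4), ((1, 0, 7), 3, 0, 5), ((2, 5, 6), 1, 7, 3), ((3, 4, 5), 0, 2, 7),
    ((4, 3, 8), 2, 0, 4), ((5, 2, 3), 7, 1, 0), ((6, 2, 9), 3, 1, 6), ((7, 1, 8), 5, 3, 4),
    ((8, 0, 4), 4, 0, 2), ((8, 0, 7), 4, 0, 5), ((8, 0, 9), 4, 0, 6), ((8, 4, 7), 4, 2, 5),
    ((8, 4, 9), 4, 2, 6), ((8, 7, 9), 4, 5, 6), ((9, 6, 8), 6, 3, 4)]
  Tc := []
  Td := [((0, 1), (0, 1), 3), ((0, 1), (0, 8), 4), ((0, 1), (3, 4), 2), ((0, 1), (3, 5), 7), ((1,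
    0), (2, 5), 7), ((1, 0), (2, 6), 3), ((5, 6), (7, 1), 3), ((5, 6), (7, 8), 4), ((6, 5),
    (9, 6), 3), ((6, 5), (9, 8), 4)]
  G := [[0, 0x61111891181a41141a111445c81121c11112368e, 0, 0x183414ce584484cb5182,
    0x1881a12e489282ab5182], [0, 0xc1111a131111c7c11a11111111e7a48, 0, 0x78b495ca6cf1148,
    0x781bad2c6af1182], [0, 0x18816111111a9a4144111a131445c8611112384e,
    0x448412826f118141224cf1c82, 0x111111c1f144881161f1c82, 0x418111a1f1111112c1f1c82], [0,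
    0xe11111411e3e118e11181111e5e84, 0x1161412ca6f1181412c6af1c84, 0x111411e1f1111111e1f1c48,
    0x111111e1f1111111e1f1c82]]

noncomputable def n1913 : Ent := ⟨e1913, noF, [], [], [(16, 12, [1580044410777118419473445963789405229760683414688298388994431352833, 0])]⟩

def c1913 : PLift (Cov.check n1913.C.D v1913 = true) := ⟨by decide +kernel⟩

def b1913 : PLift (entF (fidx ts) 400 1913 n1913 = true) := ⟨by decide +kernel⟩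

theorem g1913 : GoodF (fidx ts) 400 1913 := GoodF.ofV v1913 n1913 c1913.down b1913.down

/-- 4846644:1615/5 -/
noncomputable def e1914 : SCfg where
  D := {
    a := 7
    L := 10
    kp := 7
    inn := [(0, 1), (0, 3), (1, 0), (1, 2), (1, 3), (1, 5), (2, 1), (3, 0), (3, 1), (3, 4), (4, 3), (4,
      6), (5, 1), (6, 4)]
    mix := [(0, 0), (0, 1), (1, 0), (1, 2), (1, 3), (1, 4), (2, 2), (2, 3), (2, 5), (3, 1), (3, 2), (3,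
      6), (4, 1), (4, 6), (4, 7), (4, 8), (5, 0), (5, 4), (5, 9), (6, 5), (6, 6), (6, 8)]
    cl := [0, 1, 2, 0, 4, 3, 1, 6, 5, 7]
    chq := [(0, 2), (2, 0), (3, 6), (6, 3)]
    rng := [(0, 1), (0, 9), (1, 0), (1, 7), (2, 5), (2, 6), (3, 4), (3, 5), (4, 3), (4, 9), (5, 2), (5,
      3), (5, 6), (5, 8), (6, 2), (6, 5), (7, 1), (7, 8), (8, 5), (8, 7), (9, 0), (9, 4)]
    lev := [] }
  links := [[1, 7, 8, 3], [7, 0, 3, 9, 2, 10, 11, 5], [10, 1, 9, 12], [9, 1, 0, 8, 4, 13], [13, 3, 8, 14,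
    15, 6], [7, 1, 11, 16], [13, 4, 15, 12]]
  P := {
    a := 7
    N := 17
    nb := [394, 3757, 5634, 8979, 57672, 67714, 45072, 65827, 16537, 12302, 6150, 66594, 42564, 4696,
      33040, 20560, 2208]
    tri := [(0, 1, 3), (0, 1, 7), (0, 3, 8), (0, 7, 8), (1, 2, 9), (1, 2, 10), (1, 3, 9), (1, 5, 7),
      (1, 5, 11), (1, 10, 11), (2, 9, 12), (2, 10, 12), (3, 4, 8), (3, 4, 13), (3, 9, 13), (4, 6,
      13), (4, 6, 15), (4, 8, 14), (4, 14, 15), (5, 7, 16), (5, 11, 16), (6, 12, 13), (6, 12, 15)]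
    fin := [0, 0, 0, 3, 4, 0, 4, 0, 3, 9, 0, 11, 12, 3, 4, 15, 16]
    chd := [(0, 9), (12, 4)]
    steps := [(0, 1), (0, 2), (0, 5), (0, 7), (0, 10), (3, 8), (3, 13), (4, 6), (4, 14)] }
  rep := [0, 3, 9, 12, 11, 15, 4, 16]

noncomputable def v1914 : Cov.CovD where
  P := 3
  N := 5
  pl := [4, 8, 9]
  lev := [⟨[], [], [(0, 1)], [], [(0, 0, [2]), (1, 1, [])]⟩,
    ⟨[], [(0, 0), (0, 1), (0, 2)], [(0, 0), (0, 2)], [4], [(0, 0, [2]), (2, 2, [0]), (3, 0,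
      [2])]⟩,
    ⟨[(0, 1)], [(1, 0), (1, 2), (1, 3)], [(0, 2), (0, 3), (2, 3)], [], [(2, 2, [0]), (3, 0,
      [2]), (5, 3, [6])]⟩,
    ⟨[(0, 1), (1, 2)], [(0, 0), (0, 1), (0, 2), (1, 0), (1, 1), (1, 2), (2, 2)], [(1, 1),
      (1, 2)], [], [(1, 1, []), (2, 2, [0]), (6, 1, [])]⟩,
    ⟨[(0, 3), (1, 3)], [(0, 1), (3, 1), (3, 2), (3, 6)], [(1, 1), (1, 6)], [5], [(1, 1,
      []), (6, 1, []), (7, 6, [3])]⟩,
    ⟨[(0, 1), (1, 2), (1, 3)], [(0, 0), (1, 0), (1, 2)], [], [4, 7], [(0, 0, [2])]⟩,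
    ⟨[(3, 4)], [(2, 3), (3, 1), (4, 1), (4, 3), (4, 6)], [(1, 3)], [5], [(5, 3, [6]), (6,
      1, [])]⟩]
  Ta := [((0, 1), 0, 1), ((0, 9), 0, 7), ((1, 0), 1, 0), ((1, 7), 1, 6), ((3, 4), 0, 4), ((3, 5),
    0, 3), ((6, 2), 1, 2), ((6, 5), 1, 3)]
  Tb := [((0, 1, 9), 0, 1, 7), ((1, 0, 7), 1, 0, 6), ((2, 5, 6), 2, 3, 1), ((3, 4, 5), 0, 4, 3),
    ((4, 3, 9), 4, 0, 7), ((5, 2, 3), 3, 2, 0), ((5, 2, 6), 3, 2, 1), ((5, 2, 8), 3, 2, 5),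
    ((5, 3, 6), 3, 0, 1), ((5, 3, 8), 3, 0, 5), ((5, 6, 8), 3, 1, 5), ((6, 2, 5), 1, 2, 3),
    ((7, 1, 8), 6, 1, 5), ((8, 5, 7), 5, 3, 6), ((9, 0, 4), 7, 0, 4)]
  Tc := []
  Td := [((0, 2), (0, 1), 1), ((0, 2), (0, 9), 7), ((0, 2), (3, 4), 4), ((0, 2), (3, 5), 3), ((2,
    0), (2, 5), 3), ((2, 0), (2, 6), 1), ((3, 6), (5, 2), 2), ((3, 6), (5, 3), 0), ((3, 6),
    (5, 6), 1), ((3, 6), (5, 8), 5), ((6, 3), (7, 1), 1), ((6, 3), (7, 8), 5)]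
  G := [[0, 0x66a11ac9ae41136316c96e81c2, 0x213111d82213111d8264, 0,
    0x26c3ac42cd11236926116d81a4], [0, 0, 0x51119414541115191c92819111d48e8,
    0x12118155a99acd1556996116d81c2, 0x94455c98cccd91556996116d81a4], [0, 0,
    0x3111521892312111d82a4, 0, 0x3192324a7d12322d39561d12a8], [0, 0,
    0x1118191c58519111d82514111d84e4, 0x88391c1d155a113914a45c118b1185996c55141449d8cc2,
    0x888791c1d155c41341d1a81c96cc6d1145114d55189aa4]]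

noncomputable def n1914 : Ent := ⟨e1914, noF, [], [], [(14, 16, [1580044410770988437309982408355971841652082177953823432505696935937, 0]), (15, 16, [1580044410770988437309982408355971841652082177953823432505696944129, 0])]⟩

def c1914 : PLift (Cov.check n1914.C.D v1914 = true) := ⟨by decide +kernel⟩

def b1914 : PLift (entF (fidx ts) 400 1914 n1914 = true) := ⟨by decide +kernel⟩

theorem g1914 : GoodF (fidx ts) 400 1914 := GoodF.ofV v1914 n1914 c1914.down b1914.down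

/-- 4846644:1615/6 -/
noncomputable def e1915 : SCfg where
  D := {
    a := 7
    L := 10
    kp := 7
    inn := [(0, 1), (0, 3), (1, 0), (1, 2), (1, 3), (1, 5), (2, 1), (3, 0), (3, 1), (3, 4), (4, 3), (4,
      6), (5, 1), (6, 4)]
    mix := [(0, 0), (0, 1), (1, 0), (1, 2), (1, 3), (1, 4), (2, 2), (2, 3), (2, 5), (3, 1), (3, 2), (3,
      6), (4, 1), (4, 6), (4, 7), (4, 8), (5, 0), (5, 4), (5, 9), (6, 6), (6, 8), (6, 9)]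
    cl := [0, 1, 2, 0, 4, 7, 1, 6, 5, 3]
    chq := [(0, 2), (2, 0), (3, 6), (6, 3)]
    rng := [(0, 1), (0, 9), (1, 0), (1, 7), (2, 5), (2, 6), (3, 4), (3, 5), (4, 3), (4, 9), (5, 2), (5,
      3), (6, 2), (6, 9), (7, 1), (7, 8), (8, 7), (8, 9), (9, 0), (9, 4), (9, 6), (9, 8)]
    lev := [] }
  links := [[1, 7, 8, 3], [7, 0, 3, 9, 2, 10, 11, 5], [10, 1, 9, 12], [9, 1, 0, 8, 4, 13], [13, 3, 8, 14,
    15, 6], [7, 1, 11, 16], [13, 4, 15, 16]]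
  P := {
    a := 7
    N := 17
    nb := [394, 3757, 5634, 8979, 57672, 67714, 106512, 65827, 16537, 12302, 6150, 66594, 1540, 66136,
      33040, 82000, 43232]
    tri := [(0, 1, 3), (0, 1, 7), (0, 3, 8), (0, 7, 8), (1, 2, 9), (1, 2, 10), (1, 3, 9), (1, 5, 7),
      (1, 5, 11), (1, 10, 11), (2, 9, 12), (2, 10, 12), (3, 4, 8), (3, 4, 13), (3, 9, 13), (4, 6,
      13), (4, 6, 15), (4, 8, 14), (4, 14, 15), (5, 7, 16), (5, 11, 16), (6, 13, 16), (6, 15, 16)]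
    fin := [0, 0, 0, 3, 4, 0, 4, 0, 3, 9, 0, 11, 12, 3, 4, 15, 16]
    chd := [(0, 9), (4, 16)]
    steps := [(0, 1), (0, 2), (0, 5), (0, 7), (0, 10), (3, 8), (3, 13), (4, 6), (4, 14)] }
  rep := [0, 3, 9, 16, 11, 15, 4, 12]

noncomputable def v1915 : Cov.CovD where
  P := 3
  N := 5
  pl := [4, 5, 8]
  lev := [⟨[], [], [(0, 1)], [], [(0, 0, [2]), (1, 1, [])]⟩,
    ⟨[], [(0, 0), (0, 1), (0, 2)], [(0, 0), (0, 2)], [4], [(0, 0, [2]), (2, 2, [0]), (3, 0,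
      [2])]⟩,
    ⟨[(0, 1)], [(1, 0), (1, 2)], [(0, 2)], [7], [(2, 2, [0]), (3, 0, [2])]⟩,
    ⟨[(0, 1), (1, 2)], [(0, 0), (0, 1), (0, 2), (1, 0), (1, 1), (1, 2), (2, 2)], [(1, 1),
      (1, 2)], [], [(1, 1, []), (2, 2, [0]), (6, 1, [])]⟩,
    ⟨[(0, 3), (1, 3)], [(0, 1), (3, 1), (3, 2), (3, 6)], [(1, 1), (1, 6)], [5], [(1, 1,
      []), (6, 1, []), (7, 6, [3])]⟩,
    ⟨[(0, 1), (1, 2), (1, 3)], [(0, 0), (1, 0), (1, 2), (1, 3)], [(0, 3)], [4], [(0, 0,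
      [2]), (9, 3, [6])]⟩,
    ⟨[(3, 4)], [(3, 1), (4, 1), (4, 3), (4, 6), (5, 3)], [(1, 3)], [5], [(6, 1, []), (9, 3,
      [6])]⟩]
  Ta := [((0, 1), 0, 1), ((0, 9), 0, 3), ((1, 0), 1, 0), ((1, 7), 1, 6), ((3, 4), 0, 4), ((3, 5),
    0, 7), ((6, 2), 1, 2), ((6, 9), 1, 3)]
  Tb := [((0, 1, 9), 0, 1, 3), ((1, 0, 7), 1, 0, 6), ((2, 5, 6), 2, 7, 1), ((3, 4, 5), 0, 4, 7),
    ((4, 3, 9), 4, 0, 3), ((5, 2, 3), 7, 2, 0), ((6, 2, 9), 1, 2, 3), ((7, 1, 8), 6, 1, 5),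
    ((8, 7, 9), 5, 6, 3), ((9, 0, 4), 3, 0, 4), ((9, 0, 6), 3, 0, 1), ((9, 0, 8), 3, 0, 5),
    ((9, 4, 6), 3, 4, 1), ((9, 4, 8), 3, 4, 5), ((9, 6, 8), 3, 1, 5)]
  Tc := []
  Td := [((0, 2), (0, 1), 1), ((0, 2), (0, 9), 3), ((0, 2), (3, 4), 4), ((0, 2), (3, 5), 7), ((2,
    0), (2, 5), 7), ((2, 0), (2, 6), 1), ((3, 6), (9, 0), 0), ((3, 6), (9, 4), 4), ((3, 6),
    (9, 6), 1), ((3, 6), (9, 8), 5), ((6, 3), (7, 1), 1), ((6, 3), (7, 8), 5)]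
  G := [[0, 0x12485ac2aac1818441126416586e81c6, 0x21115518c4213111d8222432119c8e4, 0,
    0x15c24c82cd113222a2d11a4], [0, 0, 0x1115191c58519111d82519111d84e4,
    0x52196c2d11851e99a848ed11c8, 0x85c94cc4cd11856496cc6d11a4], [0, 0,
    0x211193145421119314521212232c98e8, 0, 0x613121d11131223393c9a1213222c9319121d8aa4], [0,
    0, 0x1115191c92519111d446519111d488a, 0x511199145911155189c892452129c529212d8c45,
    0x496111e515589115151495c9a2481791485d1993813585c89a8a]]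

noncomputable def n1915 : Ent := ⟨e1915, noF, [], [], []⟩

def c1915 : PLift (Cov.check n1915.C.D v1915 = true) := ⟨by decide +kernel⟩

def b1915 : PLift (entF (fidx ts) 400 1915 n1915 = true) := ⟨by decide +kernel⟩

theorem g1915 : GoodF (fidx ts) 400 1915 := GoodF.ofV v1915 n1915 c1915.down b1915.down

/-- 4846644:1615 -/
noncomputable def e1916 : SCfg where
  D := {
    a := 7
    L := 11
    kp := 8
    inn := [(0, 1), (0, 3), (1, 0), (1, 2), (1, 3), (1, 5), (2, 1), (3, 0), (3, 1), (3, 4), (4, 3), (4,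
      6), (5, 1), (6, 4)]
    mix := [(0, 0), (0, 1), (1, 0), (1, 2), (1, 3), (1, 4), (2, 2), (2, 3), (2, 5), (3, 1), (3, 2), (3,
      6), (4, 1), (4, 6), (4, 7), (4, 8), (5, 0), (5, 4), (5, 9), (6, 6), (6, 8), (6, 10)]
    cl := [0, 1, 2, 0, 3, 7, 1, 5, 4, 8, 6]
    chq := [(0, 2), (2, 0), (5, 6), (6, 5)]
    rng := [(0, 1), (0, 9), (1, 0), (1, 7), (2, 5), (2, 6), (3, 4), (3, 5), (4, 3), (4, 9), (5, 2), (5,
      3), (6, 2), (6, 10), (7, 1), (7, 8), (8, 7), (8, 10), (9, 0), (9, 4), (10, 6), (10, 8)]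
    lev := [] }
  links := [[1, 7, 8, 3], [7, 0, 3, 9, 2, 10, 11, 5], [10, 1, 9, 12], [9, 1, 0, 8, 4, 13], [13, 3, 8, 14,
    15, 6], [7, 1, 11, 16], [13, 4, 15, 17]]
  P := {
    a := 7
    N := 18
    nb := [394, 3757, 5634, 8979, 57672, 67714, 172048, 65827, 16537, 12302, 6150, 66594, 1540,
      131672, 33040, 147536, 2208, 41024]
    tri := [(0, 1, 3), (0, 1, 7), (0, 3, 8), (0, 7, 8), (1, 2, 9), (1, 2, 10), (1, 3, 9), (1, 5, 7),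
      (1, 5, 11), (1, 10, 11), (2, 9, 12), (2, 10, 12), (3, 4, 8), (3, 4, 13), (3, 9, 13), (4, 6,
      13), (4, 6, 15), (4, 8, 14), (4, 14, 15), (5, 7, 16), (5, 11, 16), (6, 13, 17), (6, 15, 17)]
    fin := [0, 0, 0, 3, 4, 0, 4, 0, 3, 9, 0, 11, 12, 3, 4, 15, 16, 17]
    chd := [(0, 9), (4, 17)]
    steps := [(0, 1), (0, 2), (0, 5), (0, 7), (0, 10), (3, 8), (3, 13), (4, 6), (4, 14)] }
  rep := [0, 3, 9, 11, 15, 4, 17, 12, 16]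

noncomputable def v1916 : Cov.CovD where
  P := 3
  N := 6
  pl := [4, 5, 8, 9]
  lev := [⟨[], [], [(0, 1)], [], [(0, 0, [2]), (1, 1, [])]⟩,
    ⟨[], [(0, 0), (0, 1), (0, 2)], [(0, 0), (0, 2)], [3], [(0, 0, [2]), (2, 2, [0]), (3, 0,
      [2])]⟩,
    ⟨[(0, 1)], [(1, 0), (1, 2)], [(0, 2)], [7], [(2, 2, [0]), (3, 0, [2])]⟩,
    ⟨[(0, 1), (1, 2)], [(0, 0), (0, 1), (0, 2), (1, 0), (1, 1), (1, 2), (2, 2)], [(1, 1),
      (1, 2)], [], [(1, 1, []), (2, 2, [0]), (6, 1, [])]⟩,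
    ⟨[(0, 3), (1, 3)], [(0, 1), (3, 1), (3, 2), (3, 5)], [(1, 1), (1, 5)], [4], [(1, 1,
      []), (6, 1, []), (7, 5, [6])]⟩,
    ⟨[(0, 1), (1, 2), (1, 3)], [(0, 0), (1, 0), (1, 2)], [], [3, 8], [(0, 0, [2])]⟩,
    ⟨[(3, 4)], [(3, 1), (4, 1), (4, 5), (4, 6)], [(1, 6)], [4], [(6, 1, []), (10, 6, [5])]⟩]
  Ta := [((0, 1), 0, 1), ((0, 9), 0, 8), ((1, 0), 1, 0), ((1, 7), 1, 5), ((3, 4), 0, 3), ((3, 5),
    0, 7), ((6, 2), 1, 2), ((6, 10), 1, 6)]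
  Tb := [((0, 1, 9), 0, 1, 8), ((1, 0, 7), 1, 0, 5), ((2, 5, 6), 2, 7, 1), ((3, 4, 5), 0, 3, 7),
    ((4, 3, 9), 3, 0, 8), ((5, 2, 3), 7, 2, 0), ((6, 2, 10), 1, 2, 6), ((7, 1, 8), 5, 1, 4),
    ((8, 7, 10), 4, 5, 6), ((9, 0, 4), 8, 0, 3), ((10, 6, 8), 6, 1, 4)]
  Tc := []
  Td := [((0, 2), (0, 1), 1), ((0, 2), (0, 9), 8), ((0, 2), (3, 4), 3), ((0, 2), (3, 5), 7), ((2,
    0), (2, 5), 7), ((2, 0), (2, 6), 1), ((5, 6), (7, 1), 1), ((5, 6), (7, 8), 4), ((6, 5),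
    (10, 6), 1), ((6, 5), (10, 8), 4)]
  G := [[0, 0x61a93a1cae41366196916e81c2, 0x519121d4421161a1c585121a1d42e8, 0,
    0x65ca2c2acd113562a6c26d81a4], [0, 0, 0xc115191c925191c1d8891451c19c4e4,
    0x55a99accad11556996cc6d11c2, 0x55c99ccccd11996cc65556891a4], [0, 0,
    0x51a121d4461219a1452213161d48e8, 0,
    0x55512a7623d12229c39265d12a619121d188656aa6226d882d], [0, 0,
    0xc115191c58c115191c92c115191c94e4, 0x5191c1d4559999ccad4c556996cc6d8553993c1d8cc2,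
    0x55591c1d1995c4555cc899a559996cc6d851999c1d1aa4]]

noncomputable def n1916 : Ent := ⟨e1916, noF, [], [], [(14, 16, [7334685537875745012586738086077695515070955365108989538292687701504001, 0]), (15, 16, [7334685537875745012586738086077695515070955365108989538292687701512193, 0]), (17, 12, [6903326391201342438349770174129673216027896805894258472290640855539713, 0]), (17, 16, [7334685537875745012586738086077695515070955365108989538292687701520385, 0])]⟩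

def c1916 : PLift (Cov.check n1916.C.D v1916 = true) := ⟨by decide +kernel⟩

def b1916 : PLift (entF (fidx ts) 400 1916 n1916 = true) := ⟨by decide +kernel⟩

theorem g1916 : GoodF (fidx ts) 400 1916 := GoodF.ofV v1916 n1916 c1916.down b1916.down

/-- 4847448:1620 -/
noncomputable def e1917 : SCfg where
  D := {
    a := 7
    L := 11
    kp := 8
    inn := [(0, 1), (0, 3), (1, 0), (1, 2), (1, 3), (1, 5), (1, 6), (2, 1), (2, 6), (3, 0), (3, 1), (3,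
      4), (3, 6), (4, 3), (4, 6), (5, 1), (6, 1), (6, 2), (6, 3), (6, 4)]
    mix := [(0, 0), (0, 1), (1, 0), (1, 2), (1, 3), (2, 2), (2, 4), (3, 1), (3, 5), (3, 6), (4, 6), (4,
      7), (5, 2), (5, 3), (5, 8), (6, 4), (6, 7), (6, 9), (6, 10)]
    cl := [0, 1, 0, 2, 3, 5, 4, 3, 6, 7, 8]
    chq := [(0, 4), (0, 5), (4, 0), (5, 0)]
    rng := [(0, 1), (0, 3), (1, 0), (1, 5), (2, 4), (2, 8), (3, 0), (3, 8), (4, 2), (4, 10), (5, 1),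
      (5, 6), (6, 5), (6, 7), (7, 6), (7, 9), (8, 2), (8, 3), (9, 7), (9, 10), (10, 4), (10, 9)]
    lev := [] }
  links := [[1, 7, 8, 3], [7, 0, 3, 6, 2, 9, 5, 10], [9, 1, 6, 11], [6, 1, 0, 8, 12, 13, 4], [6, 3, 13,
    14], [10, 1, 9, 15], [11, 2, 1, 3, 4, 14, 16, 17]]
  P := {
    a := 7
    N := 18
    nb := [394, 1773, 2626, 12627, 24648, 34306, 215070, 1283, 4233, 34854, 32930, 131652, 8456,
      20504, 73808, 1568, 147520, 67648]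
    tri := [(0, 1, 3), (0, 1, 7), (0, 3, 8), (0, 7, 8), (1, 2, 6), (1, 2, 9), (1, 3, 6), (1, 5, 9), (1,
      5, 10), (1, 7, 10), (2, 6, 11), (2, 9, 11), (3, 4, 6), (3, 4, 13), (3, 8, 12), (3, 12, 13),
      (4, 6, 14), (4, 13, 14), (5, 9, 15), (5, 10, 15), (6, 11, 17), (6, 14, 16), (6, 16, 17)]
    fin := [0, 0, 0, 0, 0, 0, 6, 0, 8, 0, 10, 6, 12, 13, 6, 15, 16, 17]
    chd := [(0, 12), (0, 13)]
    steps := [(0, 1), (0, 2), (0, 3), (0, 4), (0, 5), (0, 7), (0, 9), (6, 14), (6, 11)] }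
  rep := [0, 8, 10, 6, 13, 12, 15, 16, 17]

noncomputable def v1917 : Cov.CovD where
  P := 3
  N := 6
  pl := [1, 3, 8, 9, 10]
  lev := [⟨[], [], [], [1], [(0, 0, [4, 5])]⟩,
    ⟨[], [(0, 0)], [(0, 0)], [2], [(0, 0, [4, 5]), (2, 0, [4, 5])]⟩,
    ⟨[(0, 1)], [(1, 0), (1, 3)], [(0, 3)], [], [(2, 0, [4, 5]), (4, 3, [])]⟩,
    ⟨[(0, 1), (1, 2)], [(0, 0), (0, 4), (0, 5), (1, 0), (1, 4), (1, 5)], [(4, 5)], [1],
      [(5, 5, [0]), (6, 4, [0])]⟩,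
    ⟨[(0, 3), (1, 3)], [(3, 3), (3, 4), (3, 5)], [(3, 4)], [], [(6, 4, [0]), (7, 3, [])]⟩,
    ⟨[(0, 1), (1, 2), (1, 3)], [(1, 0), (2, 0)], [], [2, 6], [(2, 0, [4, 5])]⟩,
    ⟨[(0, 1), (0, 3), (1, 2), (1, 3), (1, 4), (1, 5), (2, 3), (2, 4), (3, 4)], [(1, 0), (1,
      3), (2, 0), (2, 3), (3, 3), (3, 4), (3, 5), (4, 3), (4, 4)], [(3, 3)], [7, 8], [(4, 3,
      []), (7, 3, [])]⟩]
  Ta := [((0, 1), 0, 1), ((0, 3), 0, 2), ((2, 4), 0, 3), ((2, 8), 0, 6), ((4, 2), 3, 0), ((4,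
    10), 3, 8), ((7, 6), 3, 4), ((7, 9), 3, 7)]
  Tb := [((0, 1, 3), 0, 1, 2), ((1, 0, 5), 1, 0, 5), ((2, 4, 8), 0, 3, 6), ((3, 0, 8), 2, 0, 6),
    ((4, 2, 10), 3, 0, 8), ((5, 1, 6), 5, 1, 4), ((6, 5, 7), 4, 5, 3), ((7, 6, 9), 3, 4, 7),
    ((8, 2, 3), 6, 0, 2), ((9, 7, 10), 7, 3, 8), ((10, 4, 9), 8, 3, 7)]
  Tc := [(0, 4, 5)]
  Td := [((0, 4), (0, 1), 1), ((0, 4), (0, 3), 2), ((0, 4), (2, 4), 3), ((0, 4), (2, 8), 6), ((0,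
    5), (0, 1), 1), ((0, 5), (0, 3), 2), ((0, 5), (2, 4), 3), ((0, 5), (2, 8), 6), ((4, 0),
    (6, 5), 5), ((4, 0), (6, 7), 3), ((5, 0), (5, 1), 1), ((5, 0), (5, 6), 4)]
  G := [[0, 0x511912711eb1146b112b118ac44c14181184c6, 0x11a2111a41eea11748,
    0x112112f12d112118f18da48, 0x114112f14d112114f18dc28], [0, 0x21128441142f11b11d11e2c6,
    0x11611a11ceeaf1248, 0x1111717111131b11d19161fd281812c4,
    0x514111113171111b1dd151a1bdc28], [0, 0, 0, 0x11241127fc291141127fc4de8888618c4,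
    0x1127fa291121187fa4d61128888658a4], [0, 0, 0,
    0x11441445521111116d711a13118d11c11ceacfd2c8,
    0x116231111338bb73a2d44141118d9a11aecad9ca4]]

noncomputable def n1917 : Ent := ⟨e1917, noF, [], [], []⟩

def c1917 : PLift (Cov.check n1917.C.D v1917 = true) := ⟨by decide +kernel⟩

def b1917 : PLift (entF (fidx ts) 400 1917 n1917 = true) := ⟨by decide +kernel⟩

theorem g1917 : GoodF (fidx ts) 400 1917 := GoodF.ofV v1917 n1917 c1917.down b1917.down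

/-- 4578454:1628/2 -/
noncomputable def e1918 : SCfg where
  D := {
    a := 7
    L := 9
    kp := 6
    inn := [(0, 1), (0, 2), (1, 0), (1, 2), (2, 0), (2, 1), (2, 3), (3, 2), (3, 4), (3, 5), (3, 6), (4,
      3), (4, 5), (5, 3), (5, 4), (6, 3)]
    mix := [(0, 0), (0, 1), (1, 1), (1, 2), (1, 3), (2, 0), (2, 3), (2, 4), (2, 5), (3, 0), (3, 5), (3,
      6), (3, 7), (4, 7), (4, 8), (5, 0), (5, 1), (5, 8), (6, 2), (6, 6), (6, 7)]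
    cl := [0, 1, 2, 0, 6, 3, 4, 3, 5]
    chq := [(0, 3), (1, 3), (3, 0), (3, 1)]
    rng := [(0, 1), (1, 0), (1, 2), (1, 8), (2, 1), (2, 3), (2, 6), (2, 7), (3, 2), (3, 4), (4, 3), (4,
      5), (5, 4), (5, 6), (6, 2), (6, 5), (7, 2), (7, 8), (8, 1), (8, 7)]
    lev := [] }
  links := [[1, 2, 7, 8], [2, 0, 8, 9, 10], [7, 0, 1, 10, 11, 12, 3], [7, 2, 12, 13, 6, 14, 4, 5], [5, 3,
    14, 15], [7, 3, 4, 15, 8], [14, 3, 13, 9]]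
  P := {
    a := 7
    N := 16
    nb := [390, 1797, 7307, 28916, 49192, 33176, 25096, 301, 33443, 25922, 2566, 5124, 10252, 4680,
      33368, 16688]
    tri := [(0, 1, 2), (0, 1, 8), (0, 2, 7), (0, 7, 8), (1, 2, 10), (1, 8, 9), (1, 9, 10), (2, 3, 7),
      (2, 3, 12), (2, 10, 11), (2, 11, 12), (3, 4, 5), (3, 4, 14), (3, 5, 7), (3, 6, 13), (3, 6,
      14), (3, 12, 13), (4, 5, 15), (4, 14, 15), (5, 7, 8), (5, 8, 15), (6, 9, 13), (6, 9, 14)]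
    fin := [0, 0, 0, 3, 4, 4, 6, 0, 4, 6, 0, 11, 3, 13, 3, 15]
    chd := [(0, 3), (4, 3)]
    steps := [(0, 1), (0, 2), (0, 7), (0, 10), (3, 12), (3, 14), (4, 5), (4, 8), (6, 9)] }
  rep := [0, 4, 6, 3, 13, 15, 11]

noncomputable def v1918 : Cov.CovD where
  P := 3
  N := 4
  pl := [2, 4, 6, 8]
  lev := [⟨[], [], [(0, 1)], [], [(0, 0, [3]), (1, 1, [3])]⟩,
    ⟨[], [(0, 0), (0, 1)], [(0, 1)], [2], [(1, 1, [3]), (3, 0, [3])]⟩,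
    ⟨[(0, 1)], [(0, 0), (0, 1), (0, 3), (1, 0), (1, 1), (1, 3)], [(0, 0), (0, 3)], [6],
      [(0, 0, [3]), (3, 0, [3]), (5, 3, [0, 1])]⟩,
    ⟨[(0, 2), (1, 2)], [(0, 0), (2, 0), (2, 3)], [(0, 3), (3, 3)], [4], [(0, 0, [3]), (5,
      3, [0, 1]), (7, 3, [0, 1])]⟩,
    ⟨[(2, 3)], [(3, 0), (3, 3)], [], [5], [(7, 3, [0, 1])]⟩,
    ⟨[(2, 3), (3, 4)], [(0, 0), (0, 1), (1, 1), (2, 0), (3, 0), (3, 1), (3, 3), (4, 0), (4,
      1), (4, 3)], [(0, 1)], [5], [(0, 0, [3]), (1, 1, [3])]⟩,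
    ⟨[(2, 3), (3, 4), (3, 5)], [(3, 0), (3, 3), (4, 3)], [], [2, 4], [(7, 3, [0, 1])]⟩]
  Ta := [((0, 1), 0, 1), ((3, 2), 0, 2), ((3, 4), 0, 6), ((5, 4), 3, 6), ((5, 6), 3, 4), ((7, 2),
    3, 2), ((7, 8), 3, 5)]
  Tb := [((1, 0, 2), 1, 0, 2), ((1, 0, 8), 1, 0, 5), ((1, 2, 8), 1, 2, 5), ((2, 1, 3), 2, 1, 0),
    ((2, 1, 6), 2, 1, 4), ((2, 1, 7), 2, 1, 3), ((2, 3, 6), 2, 0, 4), ((2, 3, 7), 2, 0, 3),
    ((2, 6, 7), 2, 4, 3), ((3, 2, 4), 0, 2, 6), ((4, 3, 5), 6, 0, 3), ((5, 4, 6), 3, 6, 4),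
    ((6, 2, 5), 4, 2, 3), ((7, 2, 8), 3, 2, 5), ((8, 1, 7), 5, 1, 3)]
  Tc := [(3, 0, 1)]
  Td := [((0, 3), (0, 1), 1), ((0, 3), (3, 2), 2), ((0, 3), (3, 4), 6), ((1, 3), (1, 0), 0), ((1,
    3), (1, 2), 2), ((1, 3), (1, 8), 5), ((3, 0), (5, 4), 6), ((3, 0), (5, 6), 4), ((3, 0),
    (7, 2), 2), ((3, 0), (7, 8), 5), ((3, 1), (5, 4), 6), ((3, 1), (5, 6), 4), ((3, 1), (7,
    2), 2), ((3, 1), (7, 8), 5)]
  G := [[0, 0x4418841881c4c1ea4c4121818816c86, 0, 0x9422582298ccc52e14,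
    0x1898831488662284c1814394885e618], [0, 0x886112111c1e2116144a19961e8c4, 0,
    0x99c224155c2281c, 0x1814394243a841833814ac681894324285681c], [0, 0,
    0xa8c46164a86164caca1e48, 0x5422982255591c2e84, 0x11189a2124c681232a285114882f688], [0,
    0, 0xa8646ace1a822a4e1a44, 0x99c22455c228c1, 0x1184a31918318243e2184a3831624286d688]]

noncomputable def n1918 : Ent := ⟨e1918, noF, [], [], []⟩

def c1918 : PLift (Cov.check n1918.C.D v1918 = true) := ⟨by decide +kernel⟩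

def b1918 : PLift (entF (fidx ts) 400 1918 n1918 = true) := ⟨by decide +kernel⟩

theorem g1918 : GoodF (fidx ts) 400 1918 := GoodF.ofV v1918 n1918 c1918.down b1918.down

/-- 4578454:1628/3 -/
noncomputable def e1919 : SCfg where
  D := {
    a := 7
    L := 9
    kp := 6
    inn := [(0, 1), (0, 2), (1, 0), (1, 2), (2, 0), (2, 1), (2, 3), (3, 2), (3, 4), (3, 5), (3, 6), (4,
      3), (4, 5), (5, 3), (5, 4), (6, 3)]
    mix := [(0, 0), (0, 1), (1, 1), (1, 2), (1, 3), (2, 0), (2, 3), (2, 4), (2, 5), (3, 0), (3, 5), (3,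
      6), (3, 7), (4, 2), (4, 7), (5, 0), (5, 1), (5, 2), (6, 6), (6, 7), (6, 8)]
    cl := [0, 1, 2, 3, 5, 0, 4, 0, 6]
    chq := [(0, 3), (1, 3), (3, 0), (3, 1)]
    rng := [(0, 1), (1, 0), (1, 2), (2, 1), (2, 3), (2, 7), (3, 2), (3, 4), (4, 3), (4, 5), (5, 4), (5,
      6), (6, 5), (6, 8), (7, 2), (7, 8), (8, 6), (8, 7)]
    lev := [] }
  links := [[1, 2, 7, 8], [2, 0, 8, 9, 10], [7, 0, 1, 10, 11, 12, 3], [7, 2, 12, 13, 6, 14, 4, 5], [5, 3,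
    14, 9], [7, 3, 4, 9, 8], [14, 3, 13, 15]]
  P := {
    a := 7
    N := 16
    nb := [390, 1797, 7307, 28916, 16936, 920, 57352, 301, 675, 17714, 2566, 5124, 10252, 36936,
      33368, 24640]
    tri := [(0, 1, 2), (0, 1, 8), (0, 2, 7), (0, 7, 8), (1, 2, 10), (1, 8, 9), (1, 9, 10), (2, 3, 7),
      (2, 3, 12), (2, 10, 11), (2, 11, 12), (3, 4, 5), (3, 4, 14), (3, 5, 7), (3, 6, 13), (3, 6,
      14), (3, 12, 13), (4, 5, 9), (4, 9, 14), (5, 7, 8), (5, 8, 9), (6, 13, 15), (6, 14, 15)]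
    fin := [0, 1, 0, 0, 0, 0, 0, 0, 1, 9, 10, 11, 0, 13, 0, 15]
    chd := [(0, 10), (1, 10)]
    steps := [(0, 2), (0, 3), (0, 4), (0, 6), (0, 7), (0, 5), (0, 12), (0, 14), (1, 8)] }
  rep := [0, 1, 9, 10, 13, 11, 15]

noncomputable def v1919 : Cov.CovD where
  P := 3
  N := 4
  pl := [2, 4, 6, 8]
  lev := [⟨[], [], [(0, 1)], [], [(0, 0, [3]), (1, 1, [3])]⟩,
    ⟨[], [(0, 0), (0, 1), (0, 3)], [(1, 3)], [2], [(1, 1, [3]), (3, 3, [0, 1])]⟩,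
    ⟨[(0, 1)], [(0, 0), (0, 1), (0, 3), (1, 0), (1, 1), (1, 3)], [(0, 0), (0, 3)], [5],
      [(0, 0, [3]), (3, 3, [0, 1]), (5, 0, [3])]⟩,
    ⟨[(0, 2), (1, 2)], [(0, 0), (2, 0), (2, 3)], [(0, 0)], [4], [(0, 0, [3]), (5, 0, [3]),
      (7, 0, [3])]⟩,
    ⟨[(2, 3)], [(3, 0)], [], [2], [(7, 0, [3])]⟩,
    ⟨[(2, 3), (3, 4)], [(0, 0), (0, 1), (1, 1), (2, 0), (3, 0), (3, 1), (4, 0), (4, 1)],
      [(0, 1)], [2], [(0, 0, [3]), (1, 1, [3])]⟩,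
    ⟨[(2, 3), (3, 4), (3, 5)], [(3, 0), (4, 0)], [], [4, 6], [(7, 0, [3])]⟩]
  Ta := [((0, 1), 0, 1), ((5, 4), 0, 5), ((5, 6), 0, 4), ((7, 2), 0, 2), ((7, 8), 0, 6)]
  Tb := [((1, 0, 2), 1, 0, 2), ((2, 1, 3), 2, 1, 3), ((2, 1, 7), 2, 1, 0), ((2, 3, 7), 2, 3, 0),
    ((3, 2, 4), 3, 2, 5), ((4, 3, 5), 5, 3, 0), ((5, 4, 6), 0, 5, 4), ((6, 5, 8), 4, 0, 6),
    ((7, 2, 8), 0, 2, 6), ((8, 6, 7), 6, 4, 0)]
  Tc := [(3, 0, 1)]
  Td := [((0, 3), (0, 1), 1), ((0, 3), (5, 4), 5), ((0, 3), (5, 6), 4), ((0, 3), (7, 2), 2), ((0,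
    3), (7, 8), 6), ((1, 3), (1, 0), 0), ((1, 3), (1, 2), 2), ((3, 0), (3, 2), 2), ((3, 0),
    (3, 4), 5), ((3, 1), (3, 2), 2), ((3, 1), (3, 4), 5)]
  G := [[0, 0x1481846184184ca144144a144184c6c2, 0, 0x144144a148184a148188ce14,
    0x1821886182182a182188ce18], [0, 0, 0, 0x9145446118644ac181886e18,
    0xc121826112681a582382ce18], [0, 0, 0xc88a446a44682ca4484a688aa44682c6c1,
    0xc88a846c14644aa14618ce14, 0xc88a886c12688aa12688ce18]]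

noncomputable def n1919 : Ent := ⟨e1919, noF, [], [], []⟩

def c1919 : PLift (Cov.check n1919.C.D v1919 = true) := ⟨by decide +kernel⟩

def b1919 : PLift (entF (fidx ts) 400 1919 n1919 = true) := ⟨by decide +kernel⟩

theorem g1919 : GoodF (fidx ts) 400 1919 := GoodF.ofV v1919 n1919 c1919.down b1919.down

/-- 4578454:1628/1 -/
noncomputable def e1920 : SCfg where
  D := {
    a := 7
    L := 10
    kp := 7
    inn := [(0, 1), (0, 2), (1, 0), (1, 2), (2, 0), (2, 1), (2, 3), (3, 2), (3, 4), (3, 5), (3, 6), (4,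
      3), (4, 5), (5, 3), (5, 4), (6, 3)]
    mix := [(0, 0), (0, 1), (1, 1), (1, 2), (1, 3), (2, 0), (2, 3), (2, 4), (2, 5), (3, 0), (3, 5), (3,
      6), (3, 7), (4, 7), (4, 8), (5, 0), (5, 1), (5, 8), (6, 6), (6, 7), (6, 9)]
    cl := [0, 1, 5, 2, 6, 0, 3, 0, 4, 7]
    chq := [(0, 2), (1, 2), (2, 0), (2, 1)]
    rng := [(0, 1), (1, 0), (1, 2), (1, 8), (2, 1), (2, 3), (3, 2), (3, 4), (4, 3), (4, 5), (5, 4), (5,
      6), (6, 5), (6, 9), (7, 8), (7, 9), (8, 1), (8, 7), (9, 6), (9, 7)]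
    lev := [] }
  links := [[1, 2, 7, 8], [2, 0, 8, 9, 10], [7, 0, 1, 10, 11, 12, 3], [7, 2, 12, 13, 6, 14, 4, 5], [5, 3,
    14, 15], [7, 3, 4, 15, 8], [14, 3, 13, 16]]
  P := {
    a := 7
    N := 17
    nb := [390, 1797, 7307, 28916, 49192, 33176, 90120, 301, 33443, 1282, 2566, 5124, 10252, 69704,
      98392, 16688, 24640]
    tri := [(0, 1, 2), (0, 1, 8), (0, 2, 7), (0, 7, 8), (1, 2, 10), (1, 8, 9), (1, 9, 10), (2, 3, 7),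
      (2, 3, 12), (2, 10, 11), (2, 11, 12), (3, 4, 5), (3, 4, 14), (3, 5, 7), (3, 6, 13), (3, 6,
      14), (3, 12, 13), (4, 5, 15), (4, 14, 15), (5, 7, 8), (5, 8, 15), (6, 13, 16), (6, 14, 16)]
    fin := [0, 1, 0, 0, 0, 0, 0, 0, 1, 9, 10, 11, 0, 13, 0, 15, 16]
    chd := [(0, 10), (1, 10)]
    steps := [(0, 2), (0, 3), (0, 4), (0, 6), (0, 7), (0, 5), (0, 12), (0, 14), (1, 8)] }
  rep := [0, 1, 10, 13, 15, 9, 11, 16]

noncomputable def v1920 : Cov.CovD where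
  P := 3
  N := 5
  pl := [2, 4, 6, 8, 9]
  lev := [⟨[], [], [(0, 1)], [], [(0, 0, [2]), (1, 1, [2])]⟩,
    ⟨[], [(0, 0), (0, 1), (0, 2)], [(1, 2)], [5], [(1, 1, [2]), (3, 2, [0, 1])]⟩,
    ⟨[(0, 1)], [(0, 0), (0, 1), (0, 2), (1, 0), (1, 1), (1, 2)], [(0, 0), (0, 2)], [6],
      [(0, 0, [2]), (3, 2, [0, 1]), (5, 0, [2])]⟩,
    ⟨[(0, 2), (1, 2)], [(0, 0), (2, 0), (2, 2)], [(0, 0)], [3], [(0, 0, [2]), (5, 0, [2]),
      (7, 0, [2])]⟩,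
    ⟨[(2, 3)], [(3, 0)], [], [4], [(7, 0, [2])]⟩,
    ⟨[(2, 3), (3, 4)], [(0, 0), (0, 1), (1, 1), (2, 0), (3, 0), (3, 1), (4, 0), (4, 1)],
      [(0, 1)], [4], [(0, 0, [2]), (1, 1, [2])]⟩,
    ⟨[(2, 3), (3, 4), (3, 5)], [(3, 0), (4, 0)], [], [3, 7], [(7, 0, [2])]⟩]
  Ta := [((0, 1), 0, 1), ((5, 4), 0, 6), ((5, 6), 0, 3), ((7, 8), 0, 4), ((7, 9), 0, 7)]
  Tb := [((1, 0, 2), 1, 0, 5), ((1, 0, 8), 1, 0, 4), ((1, 2, 8), 1, 5, 4), ((2, 1, 3), 5, 1, 2),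
    ((3, 2, 4), 2, 5, 6), ((4, 3, 5), 6, 2, 0), ((5, 4, 6), 0, 6, 3), ((6, 5, 9), 3, 0, 7),
    ((7, 8, 9), 0, 4, 7), ((8, 1, 7), 4, 1, 0), ((9, 6, 7), 7, 3, 0)]
  Tc := [(2, 0, 1)]
  Td := [((0, 2), (0, 1), 1), ((0, 2), (5, 4), 6), ((0, 2), (5, 6), 3), ((0, 2), (7, 8), 4), ((0,
    2), (7, 9), 7), ((1, 2), (1, 0), 0), ((1, 2), (1, 2), 5), ((1, 2), (1, 8), 4), ((2, 0),
    (3, 2), 5), ((2, 0), (3, 4), 6), ((2, 1), (3, 2), 5), ((2, 1), (3, 4), 6)]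
  G := [[0, 0x1812c1814c6144122188ec122188144e181261814aacc2, 0x1811a41811a2111868e14,
    0xa21621c2a21621c294, 0x1814a1814c61814a1814c6a14418811c2e141861814caa94], [0, 0,
    0x1884144112a112114ae14, 0xa12112c2112621c2c8,
    0x915163114a6941163851aca112e18e41ee12314918ea94], [0, 0, 0x1144118112a112118ae18,
    0xaa526692c2aa52426d2c298, 0xc8c1aa1a4c6a4a166861aca1c8c1aa8a1c6e4a162461a444ea8c]]

noncomputable def n1920 : Ent := ⟨e1920, noF, [], [], [(9, 16, [1580044410770988437309982408355971841652082177953823432505696968705, 0]), (9, 15, [1685356702439545624007900436039642273970977273354372543760007950337, 0])]⟩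

def c1920 : PLift (Cov.check n1920.C.D v1920 = true) := ⟨by decide +kernel⟩

def b1920 : PLift (entF (fidx ts) 400 1920 n1920 = true) := ⟨by decide +kernel⟩

theorem g1920 : GoodF (fidx ts) 400 1920 := GoodF.ofV v1920 n1920 c1920.down b1920.down

/-- 4578454:1628/4 -/
noncomputable def e1921 : SCfg where
  D := {
    a := 7
    L := 10
    kp := 7
    inn := [(0, 1), (0, 2), (1, 0), (1, 2), (2, 0), (2, 1), (2, 3), (3, 2), (3, 4), (3, 5), (3, 6), (4,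
      3), (4, 5), (5, 3), (5, 4), (6, 3)]
    mix := [(0, 0), (0, 1), (1, 1), (1, 2), (1, 3), (2, 0), (2, 3), (2, 4), (2, 5), (3, 0), (3, 5), (3,
      6), (3, 7), (4, 7), (4, 8), (5, 0), (5, 8), (5, 9), (6, 2), (6, 6), (6, 7)]
    cl := [0, 2, 3, 0, 7, 1, 4, 1, 5, 6]
    chq := [(0, 1), (1, 0), (1, 6), (6, 1)]
    rng := [(0, 1), (0, 9), (1, 0), (1, 2), (2, 1), (2, 3), (2, 6), (2, 7), (3, 2), (3, 4), (4, 3), (4,
      5), (5, 4), (5, 6), (6, 2), (6, 5), (7, 2), (7, 8), (8, 7), (8, 9), (9, 0), (9, 8)]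
    lev := [] }
  links := [[1, 2, 7, 8], [2, 0, 8, 9, 10], [7, 0, 1, 10, 11, 12, 3], [7, 2, 12, 13, 6, 14, 4, 5], [5, 3,
    14, 15], [7, 3, 4, 15, 16], [14, 3, 13, 9]]
  P := {
    a := 7
    N := 17
    nb := [390, 1797, 7307, 28916, 49192, 98456, 25096, 65837, 643, 25922, 2566, 5124, 10252, 4680,
      33368, 81968, 32928]
    tri := [(0, 1, 2), (0, 1, 8), (0, 2, 7), (0, 7, 8), (1, 2, 10), (1, 8, 9), (1, 9, 10), (2, 3, 7),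
      (2, 3, 12), (2, 10, 11), (2, 11, 12), (3, 4, 5), (3, 4, 14), (3, 5, 7), (3, 6, 13), (3, 6,
      14), (3, 12, 13), (4, 5, 15), (4, 14, 15), (5, 7, 16), (5, 15, 16), (6, 9, 13), (6, 9, 14)]
    fin := [0, 0, 0, 3, 3, 3, 6, 0, 8, 6, 0, 11, 3, 13, 3, 15, 16]
    chd := [(0, 3), (3, 16)]
    steps := [(0, 1), (0, 2), (0, 7), (0, 10), (3, 4), (3, 5), (3, 12), (3, 14), (6, 9)] }
  rep := [0, 3, 8, 6, 13, 15, 16, 11]

noncomputable def v1921 : Cov.CovD where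
  P := 3
  N := 5
  pl := [1, 2, 4, 6, 8]
  lev := [⟨[], [], [], [2], [(0, 0, [1])]⟩,
    ⟨[], [(0, 0)], [], [2, 3], [(3, 0, [1])]⟩,
    ⟨[(0, 1)], [(0, 0), (0, 1), (1, 0), (1, 1)], [(0, 0), (0, 1)], [7], [(0, 0, [1]), (3,
      0, [1]), (5, 1, [0, 6])]⟩,
    ⟨[(0, 2), (1, 2)], [(0, 0), (2, 0), (2, 1)], [(0, 1), (1, 1)], [4], [(0, 0, [1]), (5,
      1, [0, 6]), (7, 1, [0, 6])]⟩,
    ⟨[(2, 3)], [(3, 0), (3, 1)], [], [5], [(7, 1, [0, 6])]⟩,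
    ⟨[(2, 3), (3, 4)], [(0, 0), (2, 0), (3, 0), (3, 1), (3, 6), (4, 0), (4, 1), (4, 6)],
      [(0, 6)], [5], [(0, 0, [1]), (9, 6, [1])]⟩,
    ⟨[(2, 3), (3, 4), (3, 5)], [(3, 0), (3, 1), (4, 1)], [], [3, 4], [(7, 1, [0, 6])]⟩]
  Ta := [((0, 1), 0, 2), ((0, 9), 0, 6), ((3, 2), 0, 3), ((3, 4), 0, 7), ((5, 4), 1, 7), ((5, 6),
    1, 4), ((7, 2), 1, 3), ((7, 8), 1, 5)]
  Tb := [((0, 1, 9), 0, 2, 6), ((1, 0, 2), 2, 0, 3), ((2, 1, 3), 3, 2, 0), ((2, 1, 6), 3, 2, 4),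
    ((2, 1, 7), 3, 2, 1), ((2, 3, 6), 3, 0, 4), ((2, 3, 7), 3, 0, 1), ((2, 6, 7), 3, 4, 1),
    ((3, 2, 4), 0, 3, 7), ((4, 3, 5), 7, 0, 1), ((5, 4, 6), 1, 7, 4), ((6, 2, 5), 4, 3, 1),
    ((7, 2, 8), 1, 3, 5), ((8, 7, 9), 5, 1, 6), ((9, 0, 8), 6, 0, 5)]
  Tc := [(1, 0, 6)]
  Td := [((0, 1), (0, 1), 2), ((0, 1), (0, 9), 6), ((0, 1), (3, 2), 3), ((0, 1), (3, 4), 7), ((1,
    0), (5, 4), 7), ((1, 0), (5, 6), 4), ((1, 0), (7, 2), 3), ((1, 0), (7, 8), 5), ((1, 6),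
    (5, 4), 7), ((1, 6), (5, 6), 4), ((1, 6), (7, 2), 3), ((1, 6), (7, 8), 5), ((6, 1), (9,
    0), 0), ((6, 1), (9, 8), 5)]
  G := [[0, 0x1111c21111c81111a4e14, 0x1222522125c1212922229cc22, 0x1222922129c412222512125c81c,
    0x1222522129c2222912129cc12], [0, 0x1111641111c81111c2e14,
    0x18c825911e12cc215c12514644a9c2c4, 0x1dc125d1cd29c214, 0x51611a9d9cd29c218], [0,
    0x1111641111621111a8e18, 0, 0x824321228d44221c2262c54242c2222c9cc328252222c588c,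
    0x321628a24d624321a28dc22], [0, 0x118114611281141186e14, 0,
    0x8838251211cc211c125443429c2c4, 0x8838254112cc255c525118424d4a153125413429c82a]]

noncomputable def n1921 : Ent := ⟨e1921, noF, [], [], [(8, 16, [1580044410770988437309982408355971841652082177953823432505696968705, 0])]⟩

def c1921 : PLift (Cov.check n1921.C.D v1921 = true) := ⟨by decide +kernel⟩

def b1921 : PLift (entF (fidx ts) 400 1921 n1921 = true) := ⟨by decide +kernel⟩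

theorem g1921 : GoodF (fidx ts) 400 1921 := GoodF.ofV v1921 n1921 c1921.down b1921.down

/-- 4578454:1628/5 -/
noncomputable def e1922 : SCfg where
  D := {
    a := 7
    L := 10
    kp := 7
    inn := [(0, 1), (0, 2), (1, 0), (1, 2), (2, 0), (2, 1), (2, 3), (3, 2), (3, 4), (3, 5), (3, 6), (4,
      3), (4, 5), (5, 3), (5, 4), (6, 3)]
    mix := [(0, 0), (0, 1), (1, 1), (1, 2), (1, 3), (2, 0), (2, 3), (2, 4), (2, 5), (3, 0), (3, 5), (3,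
      6), (3, 7), (4, 2), (4, 7), (5, 0), (5, 2), (5, 8), (6, 6), (6, 7), (6, 9)]
    cl := [0, 2, 1, 3, 5, 0, 4, 0, 6, 7]
    chq := [(0, 3), (2, 3), (3, 0), (3, 2)]
    rng := [(0, 1), (0, 8), (1, 0), (1, 2), (2, 1), (2, 3), (2, 7), (2, 8), (3, 2), (3, 4), (4, 3), (4,
      5), (5, 4), (5, 6), (6, 5), (6, 9), (7, 2), (7, 9), (8, 0), (8, 2), (9, 6), (9, 7)]
    lev := [] }
  links := [[1, 2, 7, 8], [2, 0, 8, 9, 10], [7, 0, 1, 10, 11, 12, 3], [7, 2, 12, 13, 6, 14, 4, 5], [5, 3,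
    14, 9], [7, 3, 4, 9, 15], [14, 3, 13, 16]]
  P := {
    a := 7
    N := 17
    nb := [390, 1797, 7307, 28916, 16936, 33432, 90120, 33069, 643, 50482, 2566, 5124, 10252, 69704,
      66136, 672, 24640]
    tri := [(0, 1, 2), (0, 1, 8), (0, 2, 7), (0, 7, 8), (1, 2, 10), (1, 8, 9), (1, 9, 10), (2, 3, 7),
      (2, 3, 12), (2, 10, 11), (2, 11, 12), (3, 4, 5), (3, 4, 14), (3, 5, 7), (3, 6, 13), (3, 6,
      14), (3, 12, 13), (4, 5, 9), (4, 9, 14), (5, 7, 15), (5, 9, 15), (6, 13, 16), (6, 14, 16)]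
    fin := [0, 1, 0, 0, 0, 0, 0, 0, 1, 9, 10, 11, 0, 13, 0, 15, 16]
    chd := [(0, 10), (1, 10)]
    steps := [(0, 2), (0, 3), (0, 4), (0, 5), (0, 6), (0, 7), (0, 12), (0, 14), (1, 8)] }
  rep := [0, 9, 1, 10, 13, 11, 15, 16]

noncomputable def v1922 : Cov.CovD where
  P := 3
  N := 5
  pl := [2, 4, 6, 8, 9]
  lev := [⟨[], [], [(0, 2)], [], [(0, 0, [3]), (1, 2, [3])]⟩,
    ⟨[], [(0, 0), (0, 2), (0, 3)], [(2, 3)], [1], [(1, 2, [3]), (3, 3, [0, 2])]⟩,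
    ⟨[(0, 1)], [(0, 0), (0, 2), (0, 3), (1, 0), (1, 2), (1, 3)], [(0, 0), (0, 3)], [5],
      [(0, 0, [3]), (3, 3, [0, 2]), (5, 0, [3])]⟩,
    ⟨[(0, 2), (1, 2)], [(0, 0), (2, 0), (2, 3)], [(0, 0)], [4], [(0, 0, [3]), (5, 0, [3]),
      (7, 0, [3])]⟩,
    ⟨[(2, 3)], [(3, 0)], [], [1], [(7, 0, [3])]⟩,
    ⟨[(2, 3), (3, 4)], [(0, 0), (2, 0), (3, 0), (4, 0)], [], [1, 6], [(0, 0, [3])]⟩,
    ⟨[(2, 3), (3, 4), (3, 5)], [(3, 0), (4, 0)], [], [4, 7], [(7, 0, [3])]⟩]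
  Ta := [((0, 1), 0, 2), ((0, 8), 0, 6), ((5, 4), 0, 5), ((5, 6), 0, 4), ((7, 2), 0, 1), ((7, 9),
    0, 7)]
  Tb := [((0, 1, 8), 0, 2, 6), ((1, 0, 2), 2, 0, 1), ((2, 1, 3), 1, 2, 3), ((2, 1, 7), 1, 2, 0),
    ((2, 1, 8), 1, 2, 6), ((2, 3, 7), 1, 3, 0), ((2, 3, 8), 1, 3, 6), ((2, 7, 8), 1, 0, 6),
    ((3, 2, 4), 3, 1, 5), ((4, 3, 5), 5, 3, 0), ((5, 4, 6), 0, 5, 4), ((6, 5, 9), 4, 0, 7),
    ((7, 2, 9), 0, 1, 7), ((8, 0, 2), 6, 0, 1), ((9, 6, 7), 7, 4, 0)]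
  Tc := [(3, 0, 2)]
  Td := [((0, 3), (0, 1), 2), ((0, 3), (0, 8), 6), ((0, 3), (5, 4), 5), ((0, 3), (5, 6), 4), ((0,
    3), (7, 2), 1), ((0, 3), (7, 9), 7), ((2, 3), (1, 0), 0), ((2, 3), (1, 2), 1), ((3, 0),
    (3, 2), 1), ((3, 0), (3, 4), 5), ((3, 2), (3, 2), 1), ((3, 2), (3, 4), 5)]
  G := [[0, 0, 0x11c411c4a1418c11c466411c811c8611c411c4aa8c, 0x11c811c8611c411c4a11c411c4ae18,
    0x11c811c8611c411c8a11c411c8ce12], [0, 0, 0, 0xb141186318914a914518ae14,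
    0x9143146c14114a114d186e18], [0, 0xcca2aac86aa6266a8cacc64624e8aaa6466a8c6c1, 0,
    0xc18a186c14614aa14618ce14, 0xc18a146c14614aa14618ce18]]

noncomputable def n1922 : Ent := ⟨e1922, noF, [], [], [(8, 15, [1685356702439545624007900436039642273970977273354372543760007950337, 0])]⟩

def c1922 : PLift (Cov.check n1922.C.D v1922 = true) := ⟨by decide +kernel⟩

def b1922 : PLift (entF (fidx ts) 400 1922 n1922 = true) := ⟨by decide +kernel⟩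

theorem g1922 : GoodF (fidx ts) 400 1922 := GoodF.ofV v1922 n1922 c1922.down b1922.down

/-- 4578454:1628 -/
noncomputable def e1923 : SCfg where
  D := {
    a := 7
    L := 11
    kp := 8
    inn := [(0, 1), (0, 2), (1, 0), (1, 2), (2, 0), (2, 1), (2, 3), (3, 2), (3, 4), (3, 5), (3, 6), (4,
      3), (4, 5), (5, 3), (5, 4), (6, 3)]
    mix := [(0, 0), (0, 1), (1, 1), (1, 2), (1, 3), (2, 0), (2, 3), (2, 4), (2, 5), (3, 0), (3, 5), (3,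
      6), (3, 7), (4, 7), (4, 8), (5, 0), (5, 8), (5, 9), (6, 6), (6, 7), (6, 10)]
    cl := [0, 2, 5, 1, 6, 0, 3, 0, 4, 7, 8]
    chq := [(0, 1), (1, 0), (1, 2), (2, 1)]
    rng := [(0, 1), (0, 9), (1, 0), (1, 2), (2, 1), (2, 3), (3, 2), (3, 4), (4, 3), (4, 5), (5, 4), (5,
      6), (6, 5), (6, 10), (7, 8), (7, 10), (8, 7), (8, 9), (9, 0), (9, 8), (10, 6), (10, 7)]
    lev := [] }
  links := [[1, 2, 7, 8], [2, 0, 8, 9, 10], [7, 0, 1, 10, 11, 12, 3], [7, 2, 12, 13, 6, 14, 4, 5], [5, 3,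
    14, 15], [7, 3, 4, 15, 16], [14, 3, 13, 17]]
  P := {
    a := 7
    N := 18
    nb := [390, 1797, 7307, 28916, 49192, 98456, 155656, 65837, 643, 1282, 2566, 5124, 10252, 135240,
      163928, 81968, 32928, 24640]
    tri := [(0, 1, 2), (0, 1, 8), (0, 2, 7), (0, 7, 8), (1, 2, 10), (1, 8, 9), (1, 9, 10), (2, 3, 7),
      (2, 3, 12), (2, 10, 11), (2, 11, 12), (3, 4, 5), (3, 4, 14), (3, 5, 7), (3, 6, 13), (3, 6,
      14), (3, 12, 13), (4, 5, 15), (4, 14, 15), (5, 7, 16), (5, 15, 16), (6, 13, 17), (6, 14,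
      17)]
    fin := [0, 1, 0, 0, 0, 0, 0, 0, 1, 9, 10, 11, 0, 13, 0, 15, 16, 17]
    chd := [(0, 10), (1, 10)]
    steps := [(0, 2), (0, 3), (0, 4), (0, 5), (0, 6), (0, 7), (0, 12), (0, 14), (1, 8)] }
  rep := [0, 10, 1, 13, 15, 9, 11, 16, 17]

noncomputable def v1923 : Cov.CovD where
  P := 3
  N := 6
  pl := [2, 4, 6, 8, 9, 10]
  lev := [⟨[], [], [(0, 2)], [], [(0, 0, [1]), (1, 2, [1])]⟩,
    ⟨[], [(0, 0), (0, 1), (0, 2)], [(1, 2)], [5], [(1, 2, [1]), (3, 1, [0, 2])]⟩,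
    ⟨[(0, 1)], [(0, 0), (0, 1), (0, 2), (1, 0), (1, 1), (1, 2)], [(0, 0), (0, 1)], [6],
      [(0, 0, [1]), (3, 1, [0, 2]), (5, 0, [1])]⟩,
    ⟨[(0, 2), (1, 2)], [(0, 0), (2, 0), (2, 1)], [(0, 0)], [3], [(0, 0, [1]), (5, 0, [1]),
      (7, 0, [1])]⟩,
    ⟨[(2, 3)], [(3, 0)], [], [4], [(7, 0, [1])]⟩,
    ⟨[(2, 3), (3, 4)], [(0, 0), (2, 0), (3, 0), (4, 0)], [], [4, 7], [(0, 0, [1])]⟩,
    ⟨[(2, 3), (3, 4), (3, 5)], [(3, 0), (4, 0)], [], [3, 8], [(7, 0, [1])]⟩]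
  Ta := [((0, 1), 0, 2), ((0, 9), 0, 7), ((5, 4), 0, 6), ((5, 6), 0, 3), ((7, 8), 0, 4), ((7,
    10), 0, 8)]
  Tb := [((0, 1, 9), 0, 2, 7), ((1, 0, 2), 2, 0, 5), ((2, 1, 3), 5, 2, 1), ((3, 2, 4), 1, 5, 6),
    ((4, 3, 5), 6, 1, 0), ((5, 4, 6), 0, 6, 3), ((6, 5, 10), 3, 0, 8), ((7, 8, 10), 0, 4, 8),
    ((8, 7, 9), 4, 0, 7), ((9, 0, 8), 7, 0, 4), ((10, 6, 7), 8, 3, 0)]
  Tc := [(1, 0, 2)]
  Td := [((0, 1), (0, 1), 2), ((0, 1), (0, 9), 7), ((0, 1), (5, 4), 6), ((0, 1), (5, 6), 3), ((0,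
    1), (7, 8), 4), ((0, 1), (7, 10), 8), ((1, 0), (3, 2), 5), ((1, 0), (3, 4), 6), ((1, 2),
    (3, 2), 5), ((1, 2), (3, 4), 6), ((2, 1), (1, 0), 0), ((2, 1), (1, 2), 5)]
  G := [[0, 0x112114a114112a1184e14,
    0x11c116a11a116c611c11a611a116cac1412611c116a188e11c11a611a116cacc2,
    0x11c11a611c116ac211c11a611c116ac298,
    0x11c116a11a116c6141261812a1814cec11641812a11a14ce1441812a11a116cec92], [0,
    0x112114c1182114112ce14, 0, 0x11a166111ac23111a9161ac254,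
    0x11c1611a1c6912318514ec117166111cc112b18714ec92], [0, 0x1124114118a118114ae18, 0,
    0xaa5aa36624d463ac22181aa87e669663ac294,
    0x4c98c47aa82b2a5c64ccc16888a696427cecc148c4faa1aaadc6c148c8f6626d463cac92]]

noncomputable def n1923 : Ent := ⟨e1923, noF, [], [], [(8, 16, [7334685537875745012586738086077695515070955365108989538292687701540865, 0]), (9, 17, [6903326391201334775872065844685381424292761054348340378595029937557505, 0]), (9, 15, [7334790850167413569773436004105379185503274260204390087403942012526593, 0])]⟩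

def c1923 : PLift (Cov.check n1923.C.D v1923 = true) := ⟨by decide +kernel⟩

def b1923 : PLift (entF (fidx ts) 400 1923 n1923 = true) := ⟨by decide +kernel⟩

theorem g1923 : GoodF (fidx ts) 400 1923 := GoodF.ofV v1923 n1923 c1923.down b1923.down

/-- 4686464:1640/1 -/
noncomputable def e1924 : SCfg where
  D := {
    a := 7
    L := 10
    kp := 7
    inn := [(0, 1), (0, 2), (0, 3), (1, 0), (1, 3), (2, 0), (2, 3), (2, 4), (2, 5), (3, 0), (3, 1), (3,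
      2), (3, 4), (4, 2), (4, 3), (5, 2), (5, 6), (6, 5)]
    mix := [(0, 0), (1, 0), (1, 1), (1, 2), (1, 3), (2, 0), (2, 4), (2, 5), (2, 6), (3, 1), (3, 7), (4,
      6), (4, 7), (5, 5), (5, 6), (5, 8), (5, 9), (6, 2), (6, 5), (6, 8)]
    cl := [0, 0, 2, 6, 7, 1, 1, 3, 4, 5]
    chq := [(0, 1), (1, 0), (2, 5), (5, 2)]
    rng := [(0, 3), (0, 4), (1, 2), (1, 7), (2, 1), (2, 3), (2, 5), (2, 8), (3, 0), (3, 2), (4, 0), (4,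
      5), (5, 2), (5, 4), (6, 7), (6, 9), (7, 1), (7, 6), (8, 2), (8, 9), (9, 6), (9, 8)]
    lev := [] }
  links := [[1, 7, 2, 3], [7, 0, 3, 8, 9, 10], [3, 0, 7, 11, 12, 5, 13, 4], [8, 1, 0, 2, 4, 14], [14, 3,
    2, 13], [13, 2, 12, 6, 15, 16], [15, 5, 12, 9]]
  P := {
    a := 7
    N := 17
    nb := [142, 1929, 14521, 16663, 24588, 110660, 37408, 3079, 16906, 38210, 642, 4228, 2660, 81972,
      8472, 66144, 40992]
    tri := [(0, 1, 3), (0, 1, 7), (0, 2, 3), (0, 2, 7), (1, 3, 8), (1, 7, 10), (1, 8, 9), (1, 9, 10),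
      (2, 3, 4), (2, 4, 13), (2, 5, 12), (2, 5, 13), (2, 7, 11), (2, 11, 12), (3, 4, 14), (3, 8,
      14), (4, 13, 14), (5, 6, 12), (5, 6, 15), (5, 13, 16), (5, 15, 16), (6, 9, 12), (6, 9, 15)]
    fin := [0, 0, 2, 0, 0, 5, 5, 0, 0, 5, 10, 11, 2, 2, 14, 15, 16]
    chd := [(0, 2), (5, 16)]
    steps := [(0, 1), (0, 3), (0, 4), (0, 7), (0, 8), (2, 12), (2, 13), (5, 6), (5, 9)] }
  rep := [0, 2, 5, 14, 15, 16, 10, 11]

noncomputable def v1924 : Cov.CovD where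
  P := 3
  N := 5
  pl := [3, 4, 7, 8]
  lev := [⟨[], [], [], [], [(0, 0, [1])]⟩,
    ⟨[], [(0, 0), (0, 2)], [(0, 0), (0, 2)], [6], [(0, 0, [1]), (1, 0, [1]), (2, 2, [5])]⟩,
    ⟨[(0, 1)], [(0, 0), (0, 1), (1, 0)], [(0, 1), (1, 1)], [7], [(0, 0, [1]), (5, 1, [0]),
      (6, 1, [0])]⟩,
    ⟨[(0, 1), (0, 2), (1, 2)], [(0, 0), (1, 0), (1, 2), (2, 0), (2, 1)], [], [3], [(1, 0,
      [1])]⟩,
    ⟨[(0, 2), (0, 3), (1, 3), (2, 3)], [(2, 0), (2, 1), (3, 0), (3, 1)], [], [3], [(6, 1,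
      [0])]⟩,
    ⟨[(0, 2), (2, 3), (2, 4)], [(2, 0), (2, 1), (2, 5), (4, 1)], [(1, 1), (1, 5)], [4],
      [(5, 1, [0]), (6, 1, [0]), (9, 5, [2])]⟩,
    ⟨[(2, 5)], [(1, 2), (2, 1), (5, 1), (5, 2), (5, 5)], [(1, 2)], [4], [(2, 2, [5]), (5,
      1, [0])]⟩]
  Ta := [((0, 3), 0, 6), ((0, 4), 0, 7), ((1, 2), 0, 2), ((1, 7), 0, 3), ((5, 2), 1, 2), ((5, 4),
    1, 7), ((6, 7), 1, 3), ((6, 9), 1, 5)]
  Tb := [((0, 3, 4), 0, 6, 7), ((1, 2, 7), 0, 2, 3), ((2, 1, 3), 2, 0, 6), ((2, 1, 5), 2, 0, 1),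
    ((2, 1, 8), 2, 0, 4), ((2, 3, 5), 2, 6, 1), ((2, 3, 8), 2, 6, 4), ((2, 5, 8), 2, 1, 4),
    ((3, 0, 2), 6, 0, 2), ((4, 0, 5), 7, 0, 1), ((5, 2, 4), 1, 2, 7), ((6, 7, 9), 1, 3, 5),
    ((7, 1, 6), 3, 0, 1), ((8, 2, 9), 4, 2, 5), ((9, 6, 8), 5, 1, 4)]
  Tc := []
  Td := [((0, 1), (0, 3), 6), ((0, 1), (0, 4), 7), ((0, 1), (1, 2), 2), ((0, 1), (1, 7), 3), ((1,
    0), (5, 2), 2), ((1, 0), (5, 4), 7), ((1, 0), (6, 7), 3), ((1, 0), (6, 9), 5), ((2, 5),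
    (2, 1), 0), ((2, 5), (2, 3), 6), ((2, 5), (2, 5), 1), ((2, 5), (2, 8), 4), ((5, 2), (9,
    6), 1), ((5, 2), (9, 8), 4)]
  G := [[0, 0x41ce88cea1841e4815e85615622189e88a1841e8861ec8, 0, 0x541d21891d21c541d21891d12cc2,
    0x198d12891d21c191d21891d21ca2], [0,
    0x481e1441e16481e181cc2c3c141e119648a5815e9281ce1cc2, 0, 0,
    0x821d1821d834241241a4a2a1d121518c38119128529cc381918191acac], [0,
    0x156441e18e1189e1815e83c441e9261525218ce114c81ec2, 0xc112c112cc112c112ca4,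
    0x11115244112111611119284c84cc2d11115284c84cc29cc,
    0x11819211819289c89cc2d112811a81119289c889c4ada4], [0,
    0x44ce4481ce12841e18e481e1248ce88841e14ec1, 0x611611aa18611ac614a116c11c11cc61, 0,
    0x21811161ac412c8652148116811218683c419c86da8141116889]]

noncomputable def n1924 : Ent := ⟨e1924, noF, [], [], []⟩

def c1924 : PLift (Cov.check n1924.C.D v1924 = true) := ⟨by decide +kernel⟩

def b1924 : PLift (entF (fidx ts) 400 1924 n1924 = true) := ⟨by decide +kernel⟩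

theorem g1924 : GoodF (fidx ts) 400 1924 := GoodF.ofV v1924 n1924 c1924.down b1924.down

/-- 4686464:1640/3 -/
noncomputable def e1925 : SCfg where
  D := {
    a := 7
    L := 9
    kp := 6
    inn := [(0, 1), (0, 2), (0, 3), (1, 0), (1, 3), (2, 0), (2, 3), (2, 4), (2, 5), (3, 0), (3, 1), (3,
      2), (3, 4), (4, 2), (4, 3), (5, 2), (5, 6), (6, 5)]
    mix := [(0, 0), (1, 0), (1, 1), (1, 2), (1, 3), (2, 0), (2, 4), (2, 5), (2, 6), (3, 1), (3, 7), (4,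
      6), (4, 7), (5, 2), (5, 5), (5, 6), (5, 8), (6, 2), (6, 3), (6, 5)]
    cl := [0, 0, 2, 3, 6, 1, 1, 4, 5]
    chq := [(0, 1), (1, 0), (3, 5), (5, 3)]
    rng := [(0, 3), (0, 4), (1, 2), (1, 7), (2, 1), (2, 3), (2, 8), (3, 0), (3, 2), (3, 5), (4, 0), (4,
      5), (5, 3), (5, 4), (6, 7), (6, 8), (7, 1), (7, 6), (8, 2), (8, 6)]
    lev := [] }
  links := [[1, 7, 2, 3], [7, 0, 3, 8, 9, 10], [3, 0, 7, 11, 12, 5, 13, 4], [8, 1, 0, 2, 4, 14], [14, 3,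
    2, 13], [13, 2, 12, 6, 9, 15], [9, 5, 12, 10]]
  P := {
    a := 7
    N := 16
    nb := [142, 1929, 14521, 16663, 24588, 45636, 5664, 3079, 16906, 34146, 4802, 4228, 3172, 49204,
      8472, 8736]
    tri := [(0, 1, 3), (0, 1, 7), (0, 2, 3), (0, 2, 7), (1, 3, 8), (1, 7, 10), (1, 8, 9), (1, 9, 10),
      (2, 3, 4), (2, 4, 13), (2, 5, 12), (2, 5, 13), (2, 7, 11), (2, 11, 12), (3, 4, 14), (3, 8,
      14), (4, 13, 14), (5, 6, 9), (5, 6, 12), (5, 9, 15), (5, 13, 15), (6, 9, 10), (6, 10, 12)]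
    fin := [0, 0, 2, 0, 0, 5, 5, 0, 0, 9, 5, 11, 2, 2, 14, 15]
    chd := [(0, 2), (5, 15)]
    steps := [(0, 1), (0, 3), (0, 4), (0, 7), (0, 8), (2, 12), (2, 13), (5, 6), (5, 10)] }
  rep := [0, 2, 9, 5, 14, 15, 11]

noncomputable def v1925 : Cov.CovD where
  P := 3
  N := 4
  pl := [2, 4, 7]
  lev := [⟨[], [], [], [], [(0, 0, [1])]⟩,
    ⟨[], [(0, 0), (0, 3)], [(0, 0), (0, 3)], [2], [(0, 0, [1]), (1, 0, [1]), (3, 3, [5])]⟩,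
    ⟨[(0, 1)], [(0, 0), (0, 1), (1, 0)], [(0, 1), (1, 1)], [6], [(0, 0, [1]), (5, 1, [0]),
      (6, 1, [0])]⟩,
    ⟨[(0, 1), (0, 2), (1, 2)], [(0, 0), (1, 0), (1, 3), (2, 0), (2, 1)], [], [4], [(1, 0,
      [1])]⟩,
    ⟨[(0, 2), (0, 3), (1, 3), (2, 3)], [(2, 0), (2, 1), (3, 0), (3, 1)], [], [4], [(6, 1,
      [0])]⟩,
    ⟨[(0, 2), (2, 3), (2, 4)], [(2, 0), (2, 1), (2, 5), (4, 1)], [(1, 1), (1, 5)], [2],
      [(5, 1, [0]), (6, 1, [0]), (8, 5, [3])]⟩,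
    ⟨[(2, 5)], [(1, 3), (2, 1), (5, 1), (5, 3), (5, 5)], [(1, 3)], [2], [(3, 3, [5]), (5,
      1, [0])]⟩]
  Ta := [((0, 3), 0, 3), ((0, 4), 0, 6), ((1, 2), 0, 2), ((1, 7), 0, 4), ((5, 3), 1, 3), ((5, 4),
    1, 6), ((6, 7), 1, 4), ((6, 8), 1, 5)]
  Tb := [((0, 3, 4), 0, 3, 6), ((1, 2, 7), 0, 2, 4), ((2, 1, 3), 2, 0, 3), ((2, 1, 8), 2, 0, 5),
    ((2, 3, 8), 2, 3, 5), ((3, 0, 2), 3, 0, 2), ((3, 0, 5), 3, 0, 1), ((3, 2, 5), 3, 2, 1),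
    ((4, 0, 5), 6, 0, 1), ((5, 3, 4), 1, 3, 6), ((6, 7, 8), 1, 4, 5), ((7, 1, 6), 4, 0, 1),
    ((8, 2, 6), 5, 2, 1)]
  Tc := []
  Td := [((0, 1), (0, 3), 3), ((0, 1), (0, 4), 6), ((0, 1), (1, 2), 2), ((0, 1), (1, 7), 4), ((1,
    0), (5, 3), 3), ((1, 0), (5, 4), 6), ((1, 0), (6, 7), 4), ((1, 0), (6, 8), 5), ((3, 5),
    (3, 0), 0), ((3, 5), (3, 2), 2), ((3, 5), (3, 5), 1), ((5, 3), (8, 2), 2), ((5, 3), (8,
    6), 1)]
  G := [[0, 0x8414a11414c1a482118881841ec2, 0, 0x94128421c481214921cc2,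
    0x1991288912c18211812ca4], [0, 0x141214811444e4818c11818c16c2, 0,
    0x1454c18418851ac14548c14818c1cc2, 0x22912128c3229122983c24], [0,
    0x148184121441e184118211881ec2, 0x48c48cc2184128412c68, 0x8484c211818c21c8,
    0x8111c28181921818c2d188184c1a2], [0, 0x141414188412e481418121888ec1, 0x28c828c4a124,
    0x14484861188184a1c2, 0x111114c818211c288184cd22]]

noncomputable def n1925 : Ent := ⟨e1925, noF, [], [], []⟩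

def c1925 : PLift (Cov.check n1925.C.D v1925 = true) := ⟨by decide +kernel⟩

def b1925 : PLift (entF (fidx ts) 400 1925 n1925 = true) := ⟨by decide +kernel⟩

theorem g1925 : GoodF (fidx ts) 400 1925 := GoodF.ofV v1925 n1925 c1925.down b1925.down

/-- 4686464:1640/2 -/
noncomputable def e1926 : SCfg where
  D := {
    a := 7
    L := 10
    kp := 7
    inn := [(0, 1), (0, 2), (0, 3), (1, 0), (1, 3), (2, 0), (2, 3), (2, 4), (2, 5), (3, 0), (3, 1), (3,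
      2), (3, 4), (4, 2), (4, 3), (5, 2), (5, 6), (6, 5)]
    mix := [(0, 0), (1, 0), (1, 1), (1, 2), (1, 3), (2, 0), (2, 4), (2, 5), (2, 6), (3, 1), (3, 7), (4,
      6), (4, 7), (5, 5), (5, 6), (5, 8), (5, 9), (6, 3), (6, 5), (6, 8)]
    cl := [0, 0, 6, 2, 7, 1, 1, 3, 4, 5]
    chq := [(0, 1), (1, 0), (2, 5), (5, 2)]
    rng := [(0, 3), (0, 4), (1, 2), (1, 7), (2, 1), (2, 3), (3, 0), (3, 2), (3, 5), (3, 8), (4, 0), (4,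
      5), (5, 3), (5, 4), (6, 7), (6, 9), (7, 1), (7, 6), (8, 3), (8, 9), (9, 6), (9, 8)]
    lev := [] }
  links := [[1, 7, 2, 3], [7, 0, 3, 8, 9, 10], [3, 0, 7, 11, 12, 5, 13, 4], [8, 1, 0, 2, 4, 14], [14, 3,
    2, 13], [13, 2, 12, 6, 15, 16], [15, 5, 12, 10]]
  P := {
    a := 7
    N := 17
    nb := [142, 1929, 14521, 16663, 24588, 110660, 37920, 3079, 16906, 1282, 37570, 4228, 3172, 81972,
      8472, 66656, 40992]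
    tri := [(0, 1, 3), (0, 1, 7), (0, 2, 3), (0, 2, 7), (1, 3, 8), (1, 7, 10), (1, 8, 9), (1, 9, 10),
      (2, 3, 4), (2, 4, 13), (2, 5, 12), (2, 5, 13), (2, 7, 11), (2, 11, 12), (3, 4, 14), (3, 8,
      14), (4, 13, 14), (5, 6, 12), (5, 6, 15), (5, 13, 16), (5, 15, 16), (6, 10, 12), (6, 10,
      15)]
    fin := [0, 0, 2, 0, 0, 5, 5, 0, 0, 9, 5, 11, 2, 2, 14, 15, 16]
    chd := [(0, 2), (5, 16)]
    steps := [(0, 1), (0, 3), (0, 4), (0, 7), (0, 8), (2, 12), (2, 13), (5, 6), (5, 10)] }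
  rep := [0, 2, 5, 14, 15, 16, 9, 11]

noncomputable def v1926 : Cov.CovD where
  P := 3
  N := 5
  pl := [2, 4, 7, 8]
  lev := [⟨[], [], [], [], [(0, 0, [1])]⟩,
    ⟨[], [(0, 0), (0, 2)], [(0, 0), (0, 2)], [6], [(0, 0, [1]), (1, 0, [1]), (3, 2, [5])]⟩,
    ⟨[(0, 1)], [(0, 0), (0, 1), (1, 0)], [(0, 1), (1, 1)], [7], [(0, 0, [1]), (5, 1, [0]),
      (6, 1, [0])]⟩,
    ⟨[(0, 1), (0, 2), (1, 2)], [(0, 0), (1, 0), (1, 2), (2, 0), (2, 1)], [], [3], [(1, 0,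
      [1])]⟩,
    ⟨[(0, 2), (0, 3), (1, 3), (2, 3)], [(2, 0), (2, 1), (3, 0), (3, 1)], [], [3], [(6, 1,
      [0])]⟩,
    ⟨[(0, 2), (2, 3), (2, 4)], [(2, 0), (2, 1), (2, 5), (4, 1)], [(1, 1), (1, 5)], [4],
      [(5, 1, [0]), (6, 1, [0]), (9, 5, [2])]⟩,
    ⟨[(2, 5)], [(1, 2), (2, 1), (5, 1), (5, 2), (5, 5)], [(1, 2)], [4], [(3, 2, [5]), (5,
      1, [0])]⟩]
  Ta := [((0, 3), 0, 2), ((0, 4), 0, 7), ((1, 2), 0, 6), ((1, 7), 0, 3), ((5, 3), 1, 2), ((5, 4),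
    1, 7), ((6, 7), 1, 3), ((6, 9), 1, 5)]
  Tb := [((0, 3, 4), 0, 2, 7), ((1, 2, 7), 0, 6, 3), ((2, 1, 3), 6, 0, 2), ((3, 0, 2), 2, 0, 6),
    ((3, 0, 5), 2, 0, 1), ((3, 0, 8), 2, 0, 4), ((3, 2, 5), 2, 6, 1), ((3, 2, 8), 2, 6, 4),
    ((3, 5, 8), 2, 1, 4), ((4, 0, 5), 7, 0, 1), ((5, 3, 4), 1, 2, 7), ((6, 7, 9), 1, 3, 5),
    ((7, 1, 6), 3, 0, 1), ((8, 3, 9), 4, 2, 5), ((9, 6, 8), 5, 1, 4)]
  Tc := []
  Td := [((0, 1), (0, 3), 2), ((0, 1), (0, 4), 7), ((0, 1), (1, 2), 6), ((0, 1), (1, 7), 3), ((1,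
    0), (5, 3), 2), ((1, 0), (5, 4), 7), ((1, 0), (6, 7), 3), ((1, 0), (6, 9), 5), ((2, 5),
    (3, 0), 0), ((2, 5), (3, 2), 6), ((2, 5), (3, 5), 1), ((2, 5), (3, 8), 4), ((5, 2), (9,
    6), 1), ((5, 2), (9, 8), 4)]
  G := [[0, 0x41ce88cea1841e4815e85615622189e88a1841e8861ec8, 0xc121c112cc121c121c62,
    0x541d21891d21c541d12891d21cc2, 0x198d12891d12c191d21891d21ca2], [0,
    0x481e4122681ce1812484c16e119e14881e12841e18ec1, 0xa1144611a116a112cc116116a118ce8, 0,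
    0x821d1821d8349251a1543915182c819c3ca181285121dc3828128168ac], [0,
    0x411e1416851ca92a144184c1ae4561141e1484b84ce841ec1ac4, 0,
    0x11915928884cc2511115211115284c84cc2dc114155288a,
    0x11819211119219c89cc2d1111c211119289c219c86da4], [0,
    0x419e14ce6188cc2481ee1c18ce1416161961419e1a8818ec2, 0, 0,
    0x114811611821168ac429c86d111114c218111c19c882c4cda2]]

noncomputable def n1926 : Ent := ⟨e1926, noF, [], [], [(15, 9, [1685356702439545624008034240510833457709826487664008433929043857409, 0])]⟩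

def c1926 : PLift (Cov.check n1926.C.D v1926 = true) := ⟨by decide +kernel⟩

def b1926 : PLift (entF (fidx ts) 400 1926 n1926 = true) := ⟨by decide +kernel⟩

theorem g1926 : GoodF (fidx ts) 400 1926 := GoodF.ofV v1926 n1926 c1926.down b1926.down

/-- 4686464:1640/4 -/
noncomputable def e1927 : SCfg where
  D := {
    a := 7
    L := 10
    kp := 7
    inn := [(0, 1), (0, 2), (0, 3), (1, 0), (1, 3), (2, 0), (2, 3), (2, 4), (2, 5), (3, 0), (3, 1), (3,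
      2), (3, 4), (4, 2), (4, 3), (5, 2), (5, 6), (6, 5)]
    mix := [(0, 0), (1, 0), (1, 1), (1, 2), (1, 3), (2, 0), (2, 4), (2, 5), (2, 6), (3, 1), (3, 7), (4,
      6), (4, 7), (5, 2), (5, 5), (5, 6), (5, 8), (6, 2), (6, 5), (6, 9)]
    cl := [0, 0, 1, 6, 7, 3, 3, 2, 4, 5]
    chq := [(0, 3), (3, 0), (4, 5), (5, 4)]
    rng := [(0, 3), (0, 4), (1, 2), (1, 7), (2, 1), (2, 3), (2, 8), (2, 9), (3, 0), (3, 2), (4, 0), (4,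
      5), (5, 4), (5, 9), (6, 7), (6, 8), (7, 1), (7, 6), (8, 2), (8, 6), (9, 2), (9, 5)]
    lev := [] }
  links := [[1, 7, 2, 3], [7, 0, 3, 8, 9, 10], [3, 0, 7, 11, 12, 5, 13, 4], [8, 1, 0, 2, 4, 14], [14, 3,
    2, 13], [13, 2, 12, 6, 9, 15], [9, 5, 12, 16]]
  P := {
    a := 7
    N := 17
    nb := [142, 1929, 14521, 16663, 24588, 45636, 70176, 3079, 16906, 99682, 642, 4228, 67684, 49204,
      8472, 8736, 4672]
    tri := [(0, 1, 3), (0, 1, 7), (0, 2, 3), (0, 2, 7), (1, 3, 8), (1, 7, 10), (1, 8, 9), (1, 9, 10),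
      (2, 3, 4), (2, 4, 13), (2, 5, 12), (2, 5, 13), (2, 7, 11), (2, 11, 12), (3, 4, 14), (3, 8,
      14), (4, 13, 14), (5, 6, 9), (5, 6, 12), (5, 9, 15), (5, 13, 15), (6, 9, 16), (6, 12, 16)]
    fin := [0, 0, 2, 0, 0, 5, 5, 0, 0, 9, 10, 11, 2, 2, 14, 15, 5]
    chd := [(0, 2), (15, 5)]
    steps := [(0, 1), (0, 3), (0, 4), (0, 7), (0, 8), (2, 12), (2, 13), (5, 6), (5, 16)] }
  rep := [0, 9, 14, 2, 15, 5, 10, 11]

noncomputable def v1927 : Cov.CovD where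
  P := 3
  N := 5
  pl := [2, 3, 4, 7]
  lev := [⟨[], [], [], [], [(0, 0, [3])]⟩,
    ⟨[], [(0, 0)], [(0, 0)], [1, 6], [(0, 0, [3]), (1, 0, [3])]⟩,
    ⟨[(0, 1)], [(0, 0), (0, 3), (1, 0)], [(0, 3), (3, 3)], [7], [(0, 0, [3]), (5, 3, [0]),
      (6, 3, [0])]⟩,
    ⟨[(0, 1), (0, 2), (1, 2)], [(0, 0), (1, 0), (2, 0), (2, 3)], [], [2], [(1, 0, [3])]⟩,
    ⟨[(0, 2), (0, 3), (1, 3), (2, 3)], [(2, 0), (2, 3), (3, 0), (3, 3)], [], [2], [(6, 3,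
      [0])]⟩,
    ⟨[(0, 2), (2, 3), (2, 4)], [(2, 0), (2, 3), (2, 4), (4, 3)], [(3, 3), (3, 4)], [1],
      [(5, 3, [0]), (6, 3, [0]), (8, 4, [5])]⟩,
    ⟨[(2, 5)], [(2, 3), (5, 3), (5, 4), (5, 5)], [(3, 5)], [1], [(5, 3, [0]), (9, 5, [4])]⟩]
  Ta := [((0, 3), 0, 6), ((0, 4), 0, 7), ((1, 2), 0, 1), ((1, 7), 0, 2), ((5, 4), 3, 7), ((5, 9),
    3, 5), ((6, 7), 3, 2), ((6, 8), 3, 4)]
  Tb := [((0, 3, 4), 0, 6, 7), ((1, 2, 7), 0, 1, 2), ((2, 1, 3), 1, 0, 6), ((2, 1, 8), 1, 0, 4),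
    ((2, 1, 9), 1, 0, 5), ((2, 3, 8), 1, 6, 4), ((2, 3, 9), 1, 6, 5), ((2, 8, 9), 1, 4, 5),
    ((3, 0, 2), 6, 0, 1), ((4, 0, 5), 7, 0, 3), ((5, 4, 9), 3, 7, 5), ((6, 7, 8), 3, 2, 4),
    ((7, 1, 6), 2, 0, 3), ((8, 2, 6), 4, 1, 3), ((9, 2, 5), 5, 1, 3)]
  Tc := []
  Td := [((0, 3), (0, 3), 6), ((0, 3), (0, 4), 7), ((0, 3), (1, 2), 1), ((0, 3), (1, 7), 2), ((3,
    0), (5, 4), 7), ((3, 0), (5, 9), 5), ((3, 0), (6, 7), 2), ((3, 0), (6, 8), 4), ((4, 5),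
    (8, 2), 1), ((4, 5), (8, 6), 3), ((5, 4), (9, 2), 1), ((5, 4), (9, 5), 3)]
  G := [[0, 0, 0, 0x189141458111cd41e8118c141145811cd81ec2,
    0x14581114d12114d18e8118a1114d1814581ec2], [0, 0, 0,
    0x18914488d18414d14e414d14188d18449845c1ec2, 0x145124145184c18912414d28a18912488d12acc],
    [0, 0x22ce84122ce48162, 0x81424128c14811c42f81824142c14811c42fc2,
    0x189141451811cd18e189141451818914598ec1, 0x184d12184d1849c827114d18414d1845c287c2], [0,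
    0x886444a8c144a886c81a2, 0x812441244884c278122414841284884c2fc412488c,
    0x184d1418914185184884c4f811894188d1841145c84888fc2,
    0x184d12118d12614512484d12188d181828fc18912889]]

noncomputable def n1927 : Ent := ⟨e1927, noF, [], [], [(16, 10, [1580044410770988437858045522355060435978463990222429564876671700993, 0])]⟩

def c1927 : PLift (Cov.check n1927.C.D v1927 = true) := ⟨by decide +kernel⟩

def b1927 : PLift (entF (fidx ts) 400 1927 n1927 = true) := ⟨by decide +kernel⟩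

theorem g1927 : GoodF (fidx ts) 400 1927 := GoodF.ofV v1927 n1927 c1927.down b1927.down

/-- 4686464:1640/5 -/
noncomputable def e1928 : SCfg where
  D := {
    a := 7
    L := 10
    kp := 7
    inn := [(0, 1), (0, 2), (0, 3), (1, 0), (1, 3), (2, 0), (2, 3), (2, 4), (2, 5), (3, 0), (3, 1), (3,
      2), (3, 4), (4, 2), (4, 3), (5, 2), (5, 6), (6, 5)]
    mix := [(0, 0), (1, 0), (1, 1), (1, 2), (1, 3), (2, 0), (2, 4), (2, 5), (2, 6), (3, 1), (3, 7), (4,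
      6), (4, 7), (5, 2), (5, 5), (5, 6), (5, 8), (6, 5), (6, 8), (6, 9)]
    cl := [0, 0, 2, 6, 7, 1, 1, 3, 4, 5]
    chq := [(0, 1), (1, 0), (2, 5), (5, 2)]
    rng := [(0, 3), (0, 4), (1, 2), (1, 7), (2, 1), (2, 3), (2, 6), (2, 8), (3, 0), (3, 2), (4, 0), (4,
      5), (5, 4), (5, 9), (6, 2), (6, 7), (7, 1), (7, 6), (8, 2), (8, 9), (9, 5), (9, 8)]
    lev := [] }
  links := [[1, 7, 2, 3], [7, 0, 3, 8, 9, 10], [3, 0, 7, 11, 12, 5, 13, 4], [8, 1, 0, 2, 4, 14], [14, 3,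
    2, 13], [13, 2, 12, 6, 15, 9], [15, 5, 12, 16]]
  P := {
    a := 7
    N := 17
    nb := [142, 1929, 14521, 16663, 24588, 45636, 102432, 3079, 16906, 42274, 642, 4228, 67684, 16948,
      8472, 66144, 36928]
    tri := [(0, 1, 3), (0, 1, 7), (0, 2, 3), (0, 2, 7), (1, 3, 8), (1, 7, 10), (1, 8, 9), (1, 9, 10),
      (2, 3, 4), (2, 4, 13), (2, 5, 12), (2, 5, 13), (2, 7, 11), (2, 11, 12), (3, 4, 14), (3, 8,
      14), (4, 13, 14), (5, 6, 12), (5, 6, 15), (5, 9, 13), (5, 9, 15), (6, 12, 16), (6, 15, 16)]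
    fin := [0, 0, 2, 0, 0, 5, 5, 0, 0, 9, 10, 11, 2, 2, 14, 15, 5]
    chd := [(0, 2), (9, 5)]
    steps := [(0, 1), (0, 3), (0, 4), (0, 7), (0, 8), (2, 12), (2, 13), (5, 6), (5, 16)] }
  rep := [0, 2, 9, 14, 15, 5, 10, 11]

noncomputable def v1928 : Cov.CovD where
  P := 3
  N := 5
  pl := [3, 4, 7, 8]
  lev := [⟨[], [], [], [], [(0, 0, [1])]⟩,
    ⟨[], [(0, 0), (0, 2)], [(0, 0), (0, 2)], [6], [(0, 0, [1]), (1, 0, [1]), (2, 2, [5])]⟩,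
    ⟨[(0, 1)], [(0, 0), (0, 1), (1, 0)], [(0, 1), (1, 1)], [7], [(0, 0, [1]), (5, 1, [0]),
      (6, 1, [0])]⟩,
    ⟨[(0, 1), (0, 2), (1, 2)], [(0, 0), (1, 0), (1, 2), (2, 0), (2, 1)], [], [3], [(1, 0,
      [1])]⟩,
    ⟨[(0, 2), (0, 3), (1, 3), (2, 3)], [(2, 0), (2, 1), (3, 0), (3, 1)], [], [3], [(6, 1,
      [0])]⟩,
    ⟨[(0, 2), (2, 3), (2, 4)], [(1, 2), (2, 0), (2, 1), (2, 2), (4, 1)], [(1, 1), (1, 2)],
      [4], [(2, 2, [5]), (5, 1, [0]), (6, 1, [0])]⟩,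
    ⟨[(2, 5)], [(2, 1), (5, 1), (5, 2), (5, 5)], [(1, 5)], [4], [(5, 1, [0]), (9, 5, [2])]⟩]
  Ta := [((0, 3), 0, 6), ((0, 4), 0, 7), ((1, 2), 0, 2), ((1, 7), 0, 3), ((5, 4), 1, 7), ((5, 9),
    1, 5), ((6, 2), 1, 2), ((6, 7), 1, 3)]
  Tb := [((0, 3, 4), 0, 6, 7), ((1, 2, 7), 0, 2, 3), ((2, 1, 3), 2, 0, 6), ((2, 1, 6), 2, 0, 1),
    ((2, 1, 8), 2, 0, 4), ((2, 3, 6), 2, 6, 1), ((2, 3, 8), 2, 6, 4), ((2, 6, 8), 2, 1, 4),
    ((3, 0, 2), 6, 0, 2), ((4, 0, 5), 7, 0, 1), ((5, 4, 9), 1, 7, 5), ((6, 2, 7), 1, 2, 3),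
    ((7, 1, 6), 3, 0, 1), ((8, 2, 9), 4, 2, 5), ((9, 5, 8), 5, 1, 4)]
  Tc := []
  Td := [((0, 1), (0, 3), 6), ((0, 1), (0, 4), 7), ((0, 1), (1, 2), 2), ((0, 1), (1, 7), 3), ((1,
    0), (5, 4), 7), ((1, 0), (5, 9), 5), ((1, 0), (6, 2), 2), ((1, 0), (6, 7), 3), ((2, 5),
    (2, 1), 0), ((2, 5), (2, 3), 6), ((2, 5), (2, 6), 1), ((2, 5), (2, 8), 4), ((5, 2), (9,
    5), 1), ((5, 2), (9, 8), 4)]
  G := [[0, 0x12c4421c2221c18e21c1412c2221c18ec1, 0, 0, 0x4d912d4921c4d921d4921ca4], [0,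
    0x12c2121c1821c41e12c821c1a12c112c856c2, 0, 0x2251222512c42251222912c8c,
    0x28141429c3429142983c2112491481e249142983ca4], [0, 0x12c1221c8121c14e21c1221c1812c41ec2,
    0x11c128411c12411c1211c12ca5, 0, 0x514152415192d8c8c2d412412c414192d8d8c2da4], [0,
    0x21c2121c1821c44e12c1212c8812c14ec2, 0x11c811c4a121c811c4c162, 0x22c22cc2122c22cc21c8,
    0x414411a218211a688684ad2214218621141864846886d86]]

noncomputable def n1928 : Ent := ⟨e1928, noF, [], [], []⟩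

def c1928 : PLift (Cov.check n1928.C.D v1928 = true) := ⟨by decide +kernel⟩

def b1928 : PLift (entF (fidx ts) 400 1928 n1928 = true) := ⟨by decide +kernel⟩

theorem g1928 : GoodF (fidx ts) 400 1928 := GoodF.ofV v1928 n1928 c1928.down b1928.down

/-- 4686464:1640 -/
noncomputable def e1929 : SCfg where
  D := {
    a := 7
    L := 11
    kp := 8
    inn := [(0, 1), (0, 2), (0, 3), (1, 0), (1, 3), (2, 0), (2, 3), (2, 4), (2, 5), (3, 0), (3, 1), (3,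
      2), (3, 4), (4, 2), (4, 3), (5, 2), (5, 6), (6, 5)]
    mix := [(0, 0), (1, 0), (1, 1), (1, 2), (1, 3), (2, 0), (2, 4), (2, 5), (2, 6), (3, 1), (3, 7), (4,
      6), (4, 7), (5, 5), (5, 6), (5, 8), (5, 9), (6, 5), (6, 8), (6, 10)]
    cl := [0, 0, 6, 7, 8, 1, 1, 2, 3, 4, 5]
    chq := [(0, 1), (1, 0), (4, 5), (5, 4)]
    rng := [(0, 3), (0, 4), (1, 2), (1, 7), (2, 1), (2, 3), (3, 0), (3, 2), (4, 0), (4, 5), (5, 4), (5,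
      10), (6, 7), (6, 9), (7, 1), (7, 6), (8, 9), (8, 10), (9, 6), (9, 8), (10, 5), (10, 8)]
    lev := [] }
  links := [[1, 7, 2, 3], [7, 0, 3, 8, 9, 10], [3, 0, 7, 11, 12, 5, 13, 4], [8, 1, 0, 2, 4, 14], [14, 3,
    2, 13], [13, 2, 12, 6, 15, 16], [15, 5, 12, 17]]
  P := {
    a := 7
    N := 18
    nb := [142, 1929, 14521, 16663, 24588, 110660, 167968, 3079, 16906, 1282, 642, 4228, 133220,
      81972, 8472, 196704, 40992, 36928]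
    tri := [(0, 1, 3), (0, 1, 7), (0, 2, 3), (0, 2, 7), (1, 3, 8), (1, 7, 10), (1, 8, 9), (1, 9, 10),
      (2, 3, 4), (2, 4, 13), (2, 5, 12), (2, 5, 13), (2, 7, 11), (2, 11, 12), (3, 4, 14), (3, 8,
      14), (4, 13, 14), (5, 6, 12), (5, 6, 15), (5, 13, 16), (5, 15, 16), (6, 12, 17), (6, 15,
      17)]
    fin := [0, 0, 2, 0, 0, 5, 5, 0, 0, 9, 10, 11, 2, 2, 14, 15, 16, 5]
    chd := [(0, 2), (16, 5)]
    steps := [(0, 1), (0, 3), (0, 4), (0, 7), (0, 8), (2, 12), (2, 13), (5, 6), (5, 17)] }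
  rep := [0, 2, 14, 15, 16, 5, 9, 10, 11]

noncomputable def v1929 : Cov.CovD where
  P := 3
  N := 6
  pl := [2, 3, 4, 7, 8]
  lev := [⟨[], [], [], [], [(0, 0, [1])]⟩,
    ⟨[], [(0, 0)], [(0, 0)], [6, 7], [(0, 0, [1]), (1, 0, [1])]⟩,
    ⟨[(0, 1)], [(0, 0), (0, 1), (1, 0)], [(0, 1), (1, 1)], [8], [(0, 0, [1]), (5, 1, [0]),
      (6, 1, [0])]⟩,
    ⟨[(0, 1), (0, 2), (1, 2)], [(0, 0), (1, 0), (2, 0), (2, 1)], [], [2], [(1, 0, [1])]⟩,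
    ⟨[(0, 2), (0, 3), (1, 3), (2, 3)], [(2, 0), (2, 1), (3, 0), (3, 1)], [], [2], [(6, 1,
      [0])]⟩,
    ⟨[(0, 2), (2, 3), (2, 4)], [(2, 0), (2, 1), (2, 4), (4, 1)], [(1, 1), (1, 4)], [3],
      [(5, 1, [0]), (6, 1, [0]), (9, 4, [5])]⟩,
    ⟨[(2, 5)], [(2, 1), (5, 1), (5, 4), (5, 5)], [(1, 5)], [3], [(5, 1, [0]), (10, 5,
      [4])]⟩]
  Ta := [((0, 3), 0, 7), ((0, 4), 0, 8), ((1, 2), 0, 6), ((1, 7), 0, 2), ((5, 4), 1, 8), ((5,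
    10), 1, 5), ((6, 7), 1, 2), ((6, 9), 1, 4)]
  Tb := [((0, 3, 4), 0, 7, 8), ((1, 2, 7), 0, 6, 2), ((2, 1, 3), 6, 0, 7), ((3, 0, 2), 7, 0, 6),
    ((4, 0, 5), 8, 0, 1), ((5, 4, 10), 1, 8, 5), ((6, 7, 9), 1, 2, 4), ((7, 1, 6), 2, 0, 1),
    ((8, 9, 10), 3, 4, 5), ((9, 6, 8), 4, 1, 3), ((10, 5, 8), 5, 1, 3)]
  Tc := []
  Td := [((0, 1), (0, 3), 7), ((0, 1), (0, 4), 8), ((0, 1), (1, 2), 6), ((0, 1), (1, 7), 2), ((1,
    0), (5, 4), 8), ((1, 0), (5, 10), 5), ((1, 0), (6, 7), 2), ((1, 0), (6, 9), 4), ((4, 5),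
    (9, 6), 1), ((4, 5), (9, 8), 3), ((5, 4), (10, 5), 1), ((5, 4), (10, 8), 3)]
  G := [[0, 0x135e441413ca1cc95638946a1e88c591e14691e88ae1, 0, 0,
    0x59cd2159cd18c59cd1259cd88c9425c92959cd88ce2], [0,
    0x691e81619e8461564138c1812ce41e18a5658135e486e8, 0,
    0x63ad442896558c236d142693458c2169cc123cd81ce2,
    0x3a91282296d1252ad12c2415a91a236d81c248132ad18ce6], [0,
    0x51a945831ce1466a1e14591e18a6a1e44135e88ae1,
    0xc142c18259c48dc128c18859c42dc144c12859c24de2, 0,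
    0xc18244c182c18259c82dc11259c889c182c18259c82dec], [0,
    0x619e81135e416a1614619e185848e1439ac1691e446e8,
    0x21826ac445214221426ac84d214221486ac82de2184889,
    0x2114211869c44dc18421885ac88d211821145ac84de2,
    0x211221126ac82d211821886ac82d211821185ac88de2]]

noncomputable def n1929 : Ent := ⟨e1929, noF, [], [], [(17, 9, [6903326391201334775872066023091343012537746186634086559781921985413121, 0]), (17, 10, [6903326391201334775872705251651713694319475166462653752416129408065537, 0]), (15, 9, [7334790850167413569773436137909850376687013109418699723294111048429569, 0]), (16, 9, [7334685537875745012586738242182911904785317355859017446831218243436545, 0])]⟩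

def c1929 : PLift (Cov.check n1929.C.D v1929 = true) := ⟨by decide +kernel⟩

def b1929 : PLift (entF (fidx ts) 400 1929 n1929 = true) := ⟨by decide +kernel⟩

theorem g1929 : GoodF (fidx ts) 400 1929 := GoodF.ofV v1929 n1929 c1929.down b1929.down

/-- 4686464:1641/2 -/
noncomputable def e1930 : SCfg where
  D := {
    a := 7
    L := 9
    kp := 6
    inn := [(0, 1), (0, 2), (0, 3), (1, 0), (1, 3), (2, 0), (2, 3), (2, 4), (2, 5), (3, 0), (3, 1), (3,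
      2), (3, 4), (4, 2), (4, 3), (5, 2), (5, 6), (6, 5)]
    mix := [(0, 0), (1, 0), (1, 1), (1, 2), (1, 3), (2, 0), (2, 4), (2, 5), (2, 6), (3, 1), (3, 7), (4,
      6), (4, 7), (5, 2), (5, 5), (5, 6), (5, 8), (6, 6), (6, 7), (6, 8)]
    cl := [0, 0, 2, 6, 5, 3, 3, 1, 4]
    chq := [(1, 5), (3, 4), (4, 3), (5, 1)]
    rng := [(0, 3), (0, 4), (1, 2), (1, 7), (2, 1), (2, 3), (2, 5), (2, 8), (3, 0), (3, 2), (4, 0), (4,
      5), (5, 2), (5, 4), (6, 7), (7, 1), (7, 6), (7, 8), (8, 2), (8, 7)]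
    lev := [] }
  links := [[1, 7, 2, 3], [7, 0, 3, 8, 9, 10], [3, 0, 7, 11, 12, 5, 13, 4], [8, 1, 0, 2, 4, 14], [14, 3,
    2, 13], [13, 2, 12, 9, 15, 6], [13, 5, 15, 14]]
  P := {
    a := 7
    N := 16
    nb := [142, 1929, 14521, 16663, 24588, 45636, 57376, 3079, 16906, 38178, 642, 4228, 2596, 16500,
      41304, 16992]
    tri := [(0, 1, 3), (0, 1, 7), (0, 2, 3), (0, 2, 7), (1, 3, 8), (1, 7, 10), (1, 8, 9), (1, 9, 10),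
      (2, 3, 4), (2, 4, 13), (2, 5, 12), (2, 5, 13), (2, 7, 11), (2, 11, 12), (3, 4, 14), (3, 8,
      14), (4, 13, 14), (5, 6, 13), (5, 6, 15), (5, 9, 12), (5, 9, 15), (6, 13, 14), (6, 14, 15)]
    fin := [0, 0, 2, 0, 2, 5, 5, 0, 0, 9, 10, 2, 5, 5, 14, 15]
    chd := [(2, 14), (5, 15)]
    steps := [(0, 1), (0, 3), (0, 7), (0, 8), (2, 4), (2, 11), (5, 6), (5, 12), (5, 13)] }
  rep := [0, 14, 9, 5, 15, 2, 10]

noncomputable def v1930 : Cov.CovD where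
  P := 3
  N := 4
  pl := [2, 3]
  lev := [⟨[], [], [], [], [(0, 0, [])]⟩,
    ⟨[], [(0, 0)], [(0, 0)], [2, 6], [(0, 0, []), (1, 0, [])]⟩,
    ⟨[(0, 1)], [(0, 0), (0, 3), (0, 5), (1, 0)], [(0, 3), (0, 5), (3, 3), (3, 5)], [], [(0,
      0, []), (4, 5, [1]), (5, 3, [4]), (6, 3, [4])]⟩,
    ⟨[(0, 1), (0, 2), (1, 2)], [(0, 0), (0, 1), (1, 0), (1, 1), (2, 0), (2, 1), (2, 3), (2,
      5)], [(0, 1)], [], [(1, 0, []), (7, 1, [5])]⟩,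
    ⟨[(0, 2), (0, 3), (1, 3), (2, 3)], [(2, 0), (2, 1), (2, 3), (2, 5), (3, 0), (3, 1), (3,
      3)], [(1, 3)], [], [(6, 3, [4]), (7, 1, [5])]⟩,
    ⟨[(0, 2), (2, 3), (2, 4)], [(2, 0), (2, 3), (2, 4), (2, 5), (4, 3)], [(3, 3), (3, 4)],
      [2], [(5, 3, [4]), (6, 3, [4]), (8, 4, [3])]⟩,
    ⟨[(2, 5)], [(2, 3), (3, 1), (4, 1), (4, 3), (5, 1), (5, 3), (5, 4)], [(1, 3), (1, 4),
      (3, 4)], [], [(6, 3, [4]), (7, 1, [5]), (8, 4, [3])]⟩]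
  Ta := [((0, 3), 0, 6), ((0, 4), 0, 5), ((1, 2), 0, 2), ((1, 7), 0, 1), ((5, 2), 3, 2), ((5, 4),
    3, 5), ((6, 7), 3, 1)]
  Tb := [((0, 3, 4), 0, 6, 5), ((1, 2, 7), 0, 2, 1), ((2, 1, 3), 2, 0, 6), ((2, 1, 5), 2, 0, 3),
    ((2, 1, 8), 2, 0, 4), ((2, 3, 5), 2, 6, 3), ((2, 3, 8), 2, 6, 4), ((2, 5, 8), 2, 3, 4),
    ((3, 0, 2), 6, 0, 2), ((4, 0, 5), 5, 0, 3), ((5, 2, 4), 3, 2, 5), ((7, 1, 6), 1, 0, 3),
    ((7, 1, 8), 1, 0, 4), ((7, 6, 8), 1, 3, 4), ((8, 2, 7), 4, 2, 1)]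
  Tc := []
  Td := [((1, 5), (7, 1), 0), ((1, 5), (7, 6), 3), ((1, 5), (7, 8), 4), ((3, 4), (5, 2), 2), ((3,
    4), (5, 4), 5), ((3, 4), (6, 7), 1), ((4, 3), (8, 2), 2), ((4, 3), (8, 7), 1), ((5, 1),
    (4, 0), 0), ((5, 1), (4, 5), 3)]
  G := [[0, 0, 0, 0x841d182841d182c4, 0x4212841b1464281841b846a4], [0, 0, 0,
    0x884411d42819415c12c8, 0x4194184942a1841b41e114894884211b8841b48ea4], [0,
    0xa1426142c128e441842122218284c42f8c, 0x811e481111e481a4, 0x841d182841d482c4,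
    0x4218841b4864218841b846a4], [0, 0x2124214284c24da1846128cc21282e1242c3,
    0x116481a8c111a116c4168, 0x884411d4284c819582c8,
    0x8884124194484942a4c1344e111442113488413c8ea9]]

noncomputable def n1930 : Ent := ⟨e1930, noF, [], [], []⟩

def c1930 : PLift (Cov.check n1930.C.D v1930 = true) := ⟨by decide +kernel⟩

def b1930 : PLift (entF (fidx ts) 400 1930 n1930 = true) := ⟨by decide +kernel⟩

theorem g1930 : GoodF (fidx ts) 400 1930 := GoodF.ofV v1930 n1930 c1930.down b1930.down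

/-- 4686464:1641/1 -/
noncomputable def e1931 : SCfg where
  D := {
    a := 7
    L := 10
    kp := 7
    inn := [(0, 1), (0, 2), (0, 3), (1, 0), (1, 3), (2, 0), (2, 3), (2, 4), (2, 5), (3, 0), (3, 1), (3,
      2), (3, 4), (4, 2), (4, 3), (5, 2), (5, 6), (6, 5)]
    mix := [(0, 0), (1, 0), (1, 1), (1, 2), (1, 3), (2, 0), (2, 4), (2, 5), (2, 6), (3, 1), (3, 7), (4,
      6), (4, 7), (5, 2), (5, 5), (5, 6), (5, 8), (6, 6), (6, 8), (6, 9)]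
    cl := [0, 0, 2, 6, 7, 1, 1, 3, 4, 5]
    chq := [(0, 1), (1, 0), (2, 5), (5, 2)]
    rng := [(0, 3), (0, 4), (1, 2), (1, 7), (2, 1), (2, 3), (2, 5), (2, 8), (3, 0), (3, 2), (4, 0), (4,
      5), (5, 2), (5, 4), (6, 7), (6, 9), (7, 1), (7, 6), (8, 2), (8, 9), (9, 6), (9, 8)]
    lev := [] }
  links := [[1, 7, 2, 3], [7, 0, 3, 8, 9, 10], [3, 0, 7, 11, 12, 5, 13, 4], [8, 1, 0, 2, 4, 14], [14, 3,
    2, 13], [13, 2, 12, 9, 15, 6], [13, 5, 15, 16]]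
  P := {
    a := 7
    N := 17
    nb := [142, 1929, 14521, 16663, 24588, 45636, 106528, 3079, 16906, 38178, 642, 4228, 2596, 82036,
      8472, 66144, 41024]
    tri := [(0, 1, 3), (0, 1, 7), (0, 2, 3), (0, 2, 7), (1, 3, 8), (1, 7, 10), (1, 8, 9), (1, 9, 10),
      (2, 3, 4), (2, 4, 13), (2, 5, 12), (2, 5, 13), (2, 7, 11), (2, 11, 12), (3, 4, 14), (3, 8,
      14), (4, 13, 14), (5, 6, 13), (5, 6, 15), (5, 9, 12), (5, 9, 15), (6, 13, 16), (6, 15, 16)]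
    fin := [0, 0, 2, 0, 0, 5, 5, 0, 0, 5, 10, 11, 2, 2, 14, 15, 16]
    chd := [(0, 2), (5, 16)]
    steps := [(0, 1), (0, 3), (0, 4), (0, 7), (0, 8), (2, 12), (2, 13), (5, 6), (5, 9)] }
  rep := [0, 2, 5, 14, 15, 16, 10, 11]

noncomputable def v1931 : Cov.CovD where
  P := 3
  N := 5
  pl := [3, 4, 7, 8]
  lev := [⟨[], [], [], [], [(0, 0, [1])]⟩,
    ⟨[], [(0, 0), (0, 2)], [(0, 0), (0, 2)], [6], [(0, 0, [1]), (1, 0, [1]), (2, 2, [5])]⟩,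
    ⟨[(0, 1)], [(0, 0), (0, 1), (1, 0)], [(0, 1), (1, 1)], [7], [(0, 0, [1]), (5, 1, [0]),
      (6, 1, [0])]⟩,
    ⟨[(0, 1), (0, 2), (1, 2)], [(0, 0), (1, 0), (1, 2), (2, 0), (2, 1)], [], [3], [(1, 0,
      [1])]⟩,
    ⟨[(0, 2), (0, 3), (1, 3), (2, 3)], [(2, 0), (2, 1), (3, 0), (3, 1)], [], [3], [(6, 1,
      [0])]⟩,
    ⟨[(0, 2), (2, 3), (2, 4)], [(1, 2), (2, 0), (2, 1), (2, 2), (4, 1)], [(1, 1), (1, 2)],
      [4], [(2, 2, [5]), (5, 1, [0]), (6, 1, [0])]⟩,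
    ⟨[(2, 5)], [(2, 1), (4, 1), (5, 1), (5, 2), (5, 5)], [(1, 5)], [4], [(6, 1, [0]), (9,
      5, [2])]⟩]
  Ta := [((0, 3), 0, 6), ((0, 4), 0, 7), ((1, 2), 0, 2), ((1, 7), 0, 3), ((5, 2), 1, 2), ((5, 4),
    1, 7), ((6, 7), 1, 3), ((6, 9), 1, 5)]
  Tb := [((0, 3, 4), 0, 6, 7), ((1, 2, 7), 0, 2, 3), ((2, 1, 3), 2, 0, 6), ((2, 1, 5), 2, 0, 1),
    ((2, 1, 8), 2, 0, 4), ((2, 3, 5), 2, 6, 1), ((2, 3, 8), 2, 6, 4), ((2, 5, 8), 2, 1, 4),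
    ((3, 0, 2), 6, 0, 2), ((4, 0, 5), 7, 0, 1), ((5, 2, 4), 1, 2, 7), ((6, 7, 9), 1, 3, 5),
    ((7, 1, 6), 3, 0, 1), ((8, 2, 9), 4, 2, 5), ((9, 6, 8), 5, 1, 4)]
  Tc := []
  Td := [((0, 1), (0, 3), 6), ((0, 1), (0, 4), 7), ((0, 1), (1, 2), 2), ((0, 1), (1, 7), 3), ((1,
    0), (5, 2), 2), ((1, 0), (5, 4), 7), ((1, 0), (6, 7), 3), ((1, 0), (6, 9), 5), ((2, 5),
    (2, 1), 0), ((2, 5), (2, 3), 6), ((2, 5), (2, 5), 1), ((2, 5), (2, 8), 4), ((5, 2), (9,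
    6), 1), ((5, 2), (9, 8), 4)]
  G := [[0, 0x142812ce112c12c61a21c21c6121c21c61ac4, 0, 0x2291222512c2291222512cc2,
    0x4291242249122114823c4d9218a6], [0, 0x142821ce112c21ca16e41412c18c122c11883ec8, 0, 0,
    0x4d912c598c591ac24d914d916c59c59c1c4d9148a6], [0, 0x12c226ac182ec14e6ac1421c2221c88ec1,
    0x12c1221c12c21c1212c12cc2, 0x22c22cc2122c22cc21c8,
    0x2141c24828c254141524141c22842886da41215288a], [0,
    0x1421c61281821c1461e142812ce121c12ca1ac4, 0x11c411c86111c811c4a1c2, 0,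
    0x4144116411414ad84d886d411414c418411cd88d84cda2]]

noncomputable def n1931 : Ent := ⟨e1931, noF, [], [], [(16, 14, [1580095832788404724998799751142926758855362888449624481876426661889, 0])]⟩

def c1931 : PLift (Cov.check n1931.C.D v1931 = true) := ⟨by decide +kernel⟩

def b1931 : PLift (entF (fidx ts) 400 1931 n1931 = true) := ⟨by decide +kernel⟩

theorem g1931 : GoodF (fidx ts) 400 1931 := GoodF.ofV v1931 n1931 c1931.down b1931.down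

/-- 4686464:1641/4 -/
noncomputable def e1932 : SCfg where
  D := {
    a := 7
    L := 9
    kp := 6
    inn := [(0, 1), (0, 2), (0, 3), (1, 0), (1, 3), (2, 0), (2, 3), (2, 4), (2, 5), (3, 0), (3, 1), (3,
      2), (3, 4), (4, 2), (4, 3), (5, 2), (5, 6), (6, 5)]
    mix := [(0, 0), (1, 0), (1, 1), (1, 2), (1, 3), (2, 0), (2, 4), (2, 5), (2, 6), (3, 1), (3, 7), (4,
      6), (4, 7), (5, 2), (5, 5), (5, 6), (5, 8), (6, 2), (6, 6), (6, 7)]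
    cl := [0, 0, 1, 2, 5, 3, 3, 4, 6]
    chq := [(0, 3), (1, 3), (3, 0), (3, 1)]
    rng := [(0, 3), (0, 4), (1, 2), (1, 7), (2, 1), (2, 3), (2, 7), (2, 8), (3, 0), (3, 2), (4, 0), (4,
      5), (5, 4), (5, 8), (6, 7), (7, 1), (7, 2), (7, 6), (8, 2), (8, 5)]
    lev := [] }
  links := [[1, 7, 2, 3], [7, 0, 3, 8, 9, 10], [3, 0, 7, 11, 12, 5, 13, 4], [8, 1, 0, 2, 4, 14], [14, 3,
    2, 13], [13, 2, 12, 15, 9, 6], [13, 5, 9, 14]]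
  P := {
    a := 7
    N := 16
    nb := [142, 1929, 14521, 16663, 24588, 45636, 25120, 3079, 16906, 50530, 642, 4228, 34852, 16500,
      9048, 4640]
    tri := [(0, 1, 3), (0, 1, 7), (0, 2, 3), (0, 2, 7), (1, 3, 8), (1, 7, 10), (1, 8, 9), (1, 9, 10),
      (2, 3, 4), (2, 4, 13), (2, 5, 12), (2, 5, 13), (2, 7, 11), (2, 11, 12), (3, 4, 14), (3, 8,
      14), (4, 13, 14), (5, 6, 9), (5, 6, 13), (5, 9, 15), (5, 12, 15), (6, 9, 14), (6, 13, 14)]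
    fin := [0, 0, 0, 0, 0, 5, 5, 0, 0, 9, 10, 11, 5, 5, 14, 15]
    chd := [(0, 5), (9, 5)]
    steps := [(0, 1), (0, 2), (0, 3), (0, 4), (0, 7), (0, 8), (5, 6), (5, 12), (5, 13)] }
  rep := [0, 9, 10, 5, 14, 11, 15]

noncomputable def v1932 : Cov.CovD where
  P := 3
  N := 4
  pl := [3, 4, 7, 8]
  lev := [⟨[], [], [], [], [(0, 0, [3])]⟩,
    ⟨[], [(0, 0), (0, 1)], [(0, 0), (0, 1)], [2], [(0, 0, [3]), (1, 0, [3]), (2, 1, [3])]⟩,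
    ⟨[(0, 1)], [(0, 0), (0, 3), (1, 0)], [(0, 3), (3, 3)], [5], [(0, 0, [3]), (5, 3, [0,
      1]), (6, 3, [0, 1])]⟩,
    ⟨[(0, 1), (0, 2), (1, 2)], [(0, 0), (1, 0), (1, 1), (2, 0), (2, 3)], [], [4], [(1, 0,
      [3])]⟩,
    ⟨[(0, 2), (0, 3), (1, 3), (2, 3)], [(2, 0), (2, 3), (3, 0), (3, 3)], [], [4], [(6, 3,
      [0, 1])]⟩,
    ⟨[(0, 2), (2, 3), (2, 4)], [(1, 1), (2, 0), (2, 1), (2, 3), (4, 3)], [(1, 3), (3, 3)],
      [6], [(2, 1, [3]), (5, 3, [0, 1]), (6, 3, [0, 1])]⟩,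
    ⟨[(2, 5)], [(1, 1), (2, 3), (4, 3), (5, 1), (5, 3)], [(1, 3)], [4], [(2, 1, [3]), (6,
      3, [0, 1])]⟩]
  Ta := [((0, 3), 0, 2), ((0, 4), 0, 5), ((1, 2), 0, 1), ((1, 7), 0, 4), ((5, 4), 3, 5), ((5, 8),
    3, 6), ((6, 7), 3, 4)]
  Tb := [((0, 3, 4), 0, 2, 5), ((1, 2, 7), 0, 1, 4), ((2, 1, 3), 1, 0, 2), ((2, 1, 7), 1, 0, 4),
    ((2, 1, 8), 1, 0, 6), ((2, 3, 7), 1, 2, 4), ((2, 3, 8), 1, 2, 6), ((2, 7, 8), 1, 4, 6),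
    ((3, 0, 2), 2, 0, 1), ((4, 0, 5), 5, 0, 3), ((5, 4, 8), 3, 5, 6), ((7, 1, 2), 4, 0, 1),
    ((7, 1, 6), 4, 0, 3), ((7, 2, 6), 4, 1, 3), ((8, 2, 5), 6, 1, 3)]
  Tc := [(3, 0, 1)]
  Td := [((0, 3), (0, 3), 2), ((0, 3), (0, 4), 5), ((0, 3), (1, 2), 1), ((0, 3), (1, 7), 4), ((1,
    3), (2, 1), 0), ((1, 3), (2, 3), 2), ((1, 3), (2, 7), 4), ((1, 3), (2, 8), 6), ((3, 0),
    (5, 4), 5), ((3, 0), (5, 8), 6), ((3, 0), (6, 7), 4), ((3, 1), (5, 4), 5), ((3, 1), (5,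
    8), 6), ((3, 1), (6, 7), 4)]
  G := [[0, 0, 0x1191196114514191a115119c1e82, 0x1c1d122411921111d21c46,
    0x11511ca1115119c16811911c6188a], [0, 0, 0x141d1111d1a241811191118711511151ac46,
    0x11522111d21641192284c, 0x119111925945111148146b891d1141d1ce82], [0,
    0x88486886e222e4a142, 0, 0x114d228122114d2888d1648c28f84,
    0x444d1818681889541c29888d141419c84244486cf82], [0, 0x88a444ec88c222ea6188, 0,
    0x119d22159221d524152c95c22f84, 0x41518181418a7891d1414a115181144d11dc8814ca8886f82]]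

noncomputable def n1932 : Ent := ⟨e1932, noF, [], [], []⟩

def c1932 : PLift (Cov.check n1932.C.D v1932 = true) := ⟨by decide +kernel⟩

def b1932 : PLift (entF (fidx ts) 400 1932 n1932 = true) := ⟨by decide +kernel⟩

theorem g1932 : GoodF (fidx ts) 400 1932 := GoodF.ofV v1932 n1932 c1932.down b1932.down

/-- 4686464:1641/3 -/
noncomputable def e1933 : SCfg where
  D := {
    a := 7
    L := 10
    kp := 7
    inn := [(0, 1), (0, 2), (0, 3), (1, 0), (1, 3), (2, 0), (2, 3), (2, 4), (2, 5), (3, 0), (3, 1), (3,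
      2), (3, 4), (4, 2), (4, 3), (5, 2), (5, 6), (6, 5)]
    mix := [(0, 0), (1, 0), (1, 1), (1, 2), (1, 3), (2, 0), (2, 4), (2, 5), (2, 6), (3, 1), (3, 7), (4,
      6), (4, 7), (5, 2), (5, 5), (5, 6), (5, 8), (6, 2), (6, 6), (6, 9)]
    cl := [0, 0, 2, 6, 7, 1, 1, 3, 4, 5]
    chq := [(0, 1), (1, 0), (4, 5), (5, 4)]
    rng := [(0, 3), (0, 4), (1, 2), (1, 7), (2, 1), (2, 3), (2, 8), (2, 9), (3, 0), (3, 2), (4, 0), (4,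
      5), (5, 4), (5, 8), (6, 7), (6, 9), (7, 1), (7, 6), (8, 2), (8, 5), (9, 2), (9, 6)]
    lev := [] }
  links := [[1, 7, 2, 3], [7, 0, 3, 8, 9, 10], [3, 0, 7, 11, 12, 5, 13, 4], [8, 1, 0, 2, 4, 14], [14, 3,
    2, 13], [13, 2, 12, 15, 9, 6], [13, 5, 9, 16]]
  P := {
    a := 7
    N := 17
    nb := [142, 1929, 14521, 16663, 24588, 45636, 74272, 3079, 16906, 99682, 642, 4228, 34852, 82036,
      8472, 4640, 8768]
    tri := [(0, 1, 3), (0, 1, 7), (0, 2, 3), (0, 2, 7), (1, 3, 8), (1, 7, 10), (1, 8, 9), (1, 9, 10),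
      (2, 3, 4), (2, 4, 13), (2, 5, 12), (2, 5, 13), (2, 7, 11), (2, 11, 12), (3, 4, 14), (3, 8,
      14), (4, 13, 14), (5, 6, 9), (5, 6, 13), (5, 9, 15), (5, 12, 15), (6, 9, 16), (6, 13, 16)]
    fin := [0, 0, 2, 0, 0, 5, 5, 0, 0, 9, 10, 11, 2, 2, 14, 5, 16]
    chd := [(0, 2), (5, 16)]
    steps := [(0, 1), (0, 3), (0, 4), (0, 7), (0, 8), (2, 12), (2, 13), (5, 6), (5, 15)] }
  rep := [0, 2, 9, 14, 5, 16, 10, 11]

noncomputable def v1933 : Cov.CovD where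
  P := 3
  N := 5
  pl := [2, 3, 4, 7]
  lev := [⟨[], [], [], [], [(0, 0, [1])]⟩,
    ⟨[], [(0, 0)], [(0, 0)], [2, 6], [(0, 0, [1]), (1, 0, [1])]⟩,
    ⟨[(0, 1)], [(0, 0), (0, 1), (1, 0)], [(0, 1), (1, 1)], [7], [(0, 0, [1]), (5, 1, [0]),
      (6, 1, [0])]⟩,
    ⟨[(0, 1), (0, 2), (1, 2)], [(0, 0), (1, 0), (2, 0), (2, 1)], [], [3], [(1, 0, [1])]⟩,
    ⟨[(0, 2), (0, 3), (1, 3), (2, 3)], [(2, 0), (2, 1), (3, 0), (3, 1)], [], [3], [(6, 1,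
      [0])]⟩,
    ⟨[(0, 2), (2, 3), (2, 4)], [(2, 0), (2, 1), (2, 4), (4, 1)], [(1, 1), (1, 4)], [2],
      [(5, 1, [0]), (6, 1, [0]), (8, 4, [5])]⟩,
    ⟨[(2, 5)], [(2, 1), (4, 1), (5, 1), (5, 4), (5, 5)], [(1, 5)], [2], [(6, 1, [0]), (9,
      5, [4])]⟩]
  Ta := [((0, 3), 0, 6), ((0, 4), 0, 7), ((1, 2), 0, 2), ((1, 7), 0, 3), ((5, 4), 1, 7), ((5, 8),
    1, 4), ((6, 7), 1, 3), ((6, 9), 1, 5)]
  Tb := [((0, 3, 4), 0, 6, 7), ((1, 2, 7), 0, 2, 3), ((2, 1, 3), 2, 0, 6), ((2, 1, 8), 2, 0, 4),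
    ((2, 1, 9), 2, 0, 5), ((2, 3, 8), 2, 6, 4), ((2, 3, 9), 2, 6, 5), ((2, 8, 9), 2, 4, 5),
    ((3, 0, 2), 6, 0, 2), ((4, 0, 5), 7, 0, 1), ((5, 4, 8), 1, 7, 4), ((6, 7, 9), 1, 3, 5),
    ((7, 1, 6), 3, 0, 1), ((8, 2, 5), 4, 2, 1), ((9, 2, 6), 5, 2, 1)]
  Tc := []
  Td := [((0, 1), (0, 3), 6), ((0, 1), (0, 4), 7), ((0, 1), (1, 2), 2), ((0, 1), (1, 7), 3), ((1,
    0), (5, 4), 7), ((1, 0), (5, 8), 4), ((1, 0), (6, 7), 3), ((1, 0), (6, 9), 5), ((4, 5),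
    (8, 2), 2), ((4, 5), (8, 5), 1), ((5, 4), (9, 2), 2), ((5, 4), (9, 6), 1)]
  G := [[0, 0x41c146118818441c61e1411c48e111c41c61ac4, 0, 0x1452118921c1452114521cc2,
    0x1291228912c1291222912ca4], [0, 0x11c11ca118c11cc16841c2211c8848c14e49, 0,
    0x145145c1189189c1c145189c118981891acc2, 0x18181189c318911891ac18911891618911891aca4],
    [0, 0x41c4411c2141c81e41c4111c2111c81ec2, 0x42c22cc2122c22cc2168,
    0x48c48cc2148c248c861c2, 0x818152812811a2828c2d211899221289922842da4], [0,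
    0x41c4418c2248c18e11c2218c8848c14ec1, 0x48c848c4a148c848c4a164, 0x48c448c86148c848c4a1c2,
    0x8118186814811a1841886d811814c818811c188184cda2]]

noncomputable def n1933 : Ent := ⟨e1933, noF, [], [], [(16, 14, [1580095832788404724998799751142926758855362888449624481876426670081, 0])]⟩

def c1933 : PLift (Cov.check n1933.C.D v1933 = true) := ⟨by decide +kernel⟩

def b1933 : PLift (entF (fidx ts) 400 1933 n1933 = true) := ⟨by decide +kernel⟩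

theorem g1933 : GoodF (fidx ts) 400 1933 := GoodF.ofV v1933 n1933 c1933.down b1933.down

/-- 4686464:1641/5 -/
noncomputable def e1934 : SCfg where
  D := {
    a := 7
    L := 10
    kp := 7
    inn := [(0, 1), (0, 2), (0, 3), (1, 0), (1, 3), (2, 0), (2, 3), (2, 4), (2, 5), (3, 0), (3, 1), (3,
      2), (3, 4), (4, 2), (4, 3), (5, 2), (5, 6), (6, 5)]
    mix := [(0, 0), (1, 0), (1, 1), (1, 2), (1, 3), (2, 0), (2, 4), (2, 5), (2, 6), (3, 1), (3, 7), (4,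
      6), (4, 7), (5, 5), (5, 6), (5, 8), (5, 9), (6, 6), (6, 7), (6, 9)]
    cl := [1, 1, 5, 6, 2, 0, 0, 3, 7, 4]
    chq := [(0, 4), (2, 3), (3, 2), (4, 0)]
    rng := [(0, 3), (0, 4), (1, 2), (1, 7), (2, 1), (2, 3), (3, 0), (3, 2), (4, 0), (4, 5), (5, 4), (5,
      8), (6, 7), (7, 1), (7, 6), (7, 9), (8, 5), (8, 9), (9, 7), (9, 8)]
    lev := [] }
  links := [[1, 7, 2, 3], [7, 0, 3, 8, 9, 10], [3, 0, 7, 11, 12, 5, 13, 4], [8, 1, 0, 2, 4, 14], [14, 3,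
    2, 13], [13, 2, 12, 15, 16, 6], [13, 5, 16, 14]]
  P := {
    a := 7
    N := 17
    nb := [142, 1929, 14521, 16663, 24588, 110660, 90144, 3079, 16906, 1282, 642, 4228, 34852, 16500,
      74072, 69664, 49248]
    tri := [(0, 1, 3), (0, 1, 7), (0, 2, 3), (0, 2, 7), (1, 3, 8), (1, 7, 10), (1, 8, 9), (1, 9, 10),
      (2, 3, 4), (2, 4, 13), (2, 5, 12), (2, 5, 13), (2, 7, 11), (2, 11, 12), (3, 4, 14), (3, 8,
      14), (4, 13, 14), (5, 6, 13), (5, 6, 16), (5, 12, 15), (5, 15, 16), (6, 13, 14), (6, 14,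
      16)]
    fin := [0, 0, 2, 0, 2, 5, 5, 0, 0, 9, 10, 2, 5, 5, 14, 15, 16]
    chd := [(2, 14), (5, 16)]
    steps := [(0, 1), (0, 3), (0, 7), (0, 8), (2, 4), (2, 11), (5, 6), (5, 12), (5, 13)] }
  rep := [5, 0, 2, 14, 16, 9, 10, 15]

noncomputable def v1934 : Cov.CovD where
  P := 3
  N := 5
  pl := [2, 3, 8]
  lev := [⟨[], [], [], [], [(0, 1, [])]⟩,
    ⟨[], [(0, 1)], [(1, 1)], [5, 6], [(0, 1, []), (1, 1, [])]⟩,
    ⟨[(0, 1)], [(0, 0), (0, 1), (0, 2), (1, 1)], [(0, 0), (0, 1), (0, 2), (1, 2)], [], [(0,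
      1, []), (4, 2, [3]), (5, 0, [4]), (6, 0, [4])]⟩,
    ⟨[(0, 1), (0, 2), (1, 2)], [(0, 1), (0, 3), (1, 1), (1, 3), (2, 0), (2, 1), (2, 2), (2,
      3)], [(1, 3)], [], [(1, 1, []), (7, 3, [2])]⟩,
    ⟨[(0, 2), (0, 3), (1, 3), (2, 3)], [(2, 0), (2, 1), (2, 2), (2, 3), (3, 0), (3, 1), (3,
      3)], [(0, 3)], [], [(6, 0, [4]), (7, 3, [2])]⟩,
    ⟨[(0, 2), (2, 3), (2, 4)], [(2, 0), (2, 1), (2, 2), (2, 4), (4, 0)], [(0, 0), (0, 4)],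
      [7], [(5, 0, [4]), (6, 0, [4]), (9, 4, [0])]⟩,
    ⟨[(2, 5)], [(2, 0), (3, 3), (4, 0), (4, 3), (5, 0), (5, 3), (5, 4)], [(0, 3), (0, 4),
      (3, 4)], [], [(6, 0, [4]), (7, 3, [2]), (9, 4, [0])]⟩]
  Ta := [((0, 3), 1, 6), ((0, 4), 1, 2), ((1, 2), 1, 5), ((1, 7), 1, 3), ((5, 4), 0, 2), ((5, 8),
    0, 7), ((6, 7), 0, 3)]
  Tb := [((0, 3, 4), 1, 6, 2), ((1, 2, 7), 1, 5, 3), ((2, 1, 3), 5, 1, 6), ((3, 0, 2), 6, 1, 5),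
    ((4, 0, 5), 2, 1, 0), ((5, 4, 8), 0, 2, 7), ((7, 1, 6), 3, 1, 0), ((7, 1, 9), 3, 1, 4),
    ((7, 6, 9), 3, 0, 4), ((8, 5, 9), 7, 0, 4), ((9, 7, 8), 4, 3, 7)]
  Tc := []
  Td := [((0, 4), (5, 4), 2), ((0, 4), (5, 8), 7), ((0, 4), (6, 7), 3), ((2, 3), (4, 0), 1), ((2,
    3), (4, 5), 0), ((3, 2), (7, 1), 1), ((3, 2), (7, 6), 0), ((3, 2), (7, 9), 4), ((4, 0),
    (9, 7), 3), ((4, 0), (9, 8), 7)]
  G := [[0, 0x717e218573e218e39e214e2, 0x112e2181111e214112e214c5, 0x132e218132e218312e218d4,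
    0x531e218312e4281462a528d1], [0, 0x1818ee67281818ee6728441141822d681a88ce4,
    0x111e111ea14111e112ea14111e111ea14d8, 0, 0x593e418159e28618771e418d4], [0,
    0x8ca6a2ea24ee621e821c4444688aee61ce442488c, 0,
    0x642e448a2e28c42646a2e238828c44448a2e262a2ccd1, 0x6e2e4482386e2e4482386e2e448238d4], [0,
    0x684c6622268ac22c4c66a2e628888c64ee248a2e88ce1, 0, 0,
    0xc262a648ac44c4ac264e24988866c49a64ce22648ac84ad1]]

noncomputable def n1934 : Ent := ⟨e1934, noF, [], [], [(15, 9, [1685356702439545624008034240510833457709826487664008433929043877889, 0]), (16, 9, [1580044410770988437310138513572361556014072927981731971036238888961, 0])]⟩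

def c1934 : PLift (Cov.check n1934.C.D v1934 = true) := ⟨by decide +kernel⟩

def b1934 : PLift (entF (fidx ts) 400 1934 n1934 = true) := ⟨by decide +kernel⟩

theorem g1934 : GoodF (fidx ts) 400 1934 := GoodF.ofV v1934 n1934 c1934.down b1934.down

/-- The entries 1809 to 1934. -/
theorem rE12 : Rng (GoodF (fidx ts) 400) 1809 1935 :=
  (((((((((((((((((((((((((((((((((((((((((((((((((((((((((((((((((((((((((((((((((((((((((((((((((((((((((((((((((((((((((((((((Rng.nil _ 1809).snoc g1809 rfl).snoc g1810 rfl).snoc g1811 rfl).snoc g1812 rfl).snoc g1813 rfl).snoc g1814 rfl).snoc g1815 rfl).snoc g1816 rfl).snoc g1817 rfl).snoc g1818 rfl).snoc g1819 rfl).snoc g1820 rfl).snoc g1821 rfl).snoc g1822 rfl).snoc g1823 rfl).snoc g1824 rfl).snoc g1825 rfl).snoc g1826 rfl).snoc g1827 rfl).snoc g1828 rfl).snoc g1829 rfl).snoc g1830 rfl).snoc g1831 rfl).snoc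 g1832 rfl).snoc g1833 rfl).snoc g1834 rfl).snoc g1835 rfl).snoc g1836 rfl).snoc g1837 rfl).snoc g1838 rfl).snoc g1839 rfl).snoc g1840 rfl).snoc g1841 rfl).snoc g1842 rfl).snoc g1843 rfl).snoc g1844 rfl).snoc g1845 rfl).snoc g1846 rfl).snoc g1847 rfl).snoc g1848 rfl).snoc g1849 rfl).snoc g1850 rfl).snoc g1851 rfl).snoc g1852 rfl).snoc g1853 rfl).snoc g1854 rfl).snoc g1855 rfl).snoc g1856 rfl).snoc g1857 rfl).snoc g1858 rfl).snoc g1859 rfl).snoc g1860 rfl).snoc g1861 rfl).snoc g1862 rfl).snoc g1863 rfl).snoc g1864 rfl).snoc g1865 rfl).snoc g1866 rfl).snoc g1867 rfl).snoc g1868 rfl).snoc g1869 rfl).snoc g1870 rfl).snoc g1871 rfl).snoc g1872 rfl).snoc g1873 rfl).snoc g1874 rfl).snoc g1875 rfl).snoc g1876 rfl).snoc g1877 rfl).snoc g1878 rfl).snoc g1879 rfl).snoc g1880 rfl).snoc g1881 rfl).snoc g1882 rfl).snoc g1883 rfl).snoc g1884 rfl).snoc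 g1885 rfl).snoc g1886 rfl).snoc g1887 rfl).snoc g1888 rfl).snoc g1889 rfl).snoc g1890 rfl).snoc g1891 rfl).snoc g1892 rfl).snoc g1893 rfl).snoc g1894 rfl).snoc g1895 rfl).snoc g1896 rfl).snoc g1897 rfl).snoc g1898 rfl).snoc g1899 rfl).snoc g1900 rfl).snoc g1901 rfl).snoc g1902 rfl).snoc g1903 rfl).snoc g1904 rfl).snoc g1905 rfl).snoc g1906 rfl).snoc g1907 rfl).snoc g1908 rfl).snoc g1909 rfl).snoc g1910 rfl).snoc g1911 rfl).snoc g1912 rfl).snoc g1913 rfl).snoc g1914 rfl).snoc g1915 rfl).snoc g1916 rfl).snoc g1917 rfl).snoc g1918 rfl).snoc g1919 rfl).snoc g1920 rfl).snoc g1921 rfl).snoc g1922 rfl).snoc g1923 rfl).snoc g1924 rfl).snoc g1925 rfl).snoc g1926 rfl).snoc g1927 rfl).snoc g1928 rfl).snoc g1929 rfl).snoc g1930 rfl).snoc g1931 rfl).snoc g1932 rfl).snoc g1933 rfl).snoc g1934 rfl)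

end Pool.Agent.W986.ST.Dat
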