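import Pool.Agent.W986.Dat.Tab
import Pool.Agent.W986.SubAltB

/-!
# Entries 1935 to 2065 of the table
-/

set_option autoImplicit false

namespace Pool.Agent.W986.ST.Dat

/-- 4686464:1641/6 -/
noncomputable def e1935 : SCfg where
  D := {
    a := 7
    L := 10
    kp := 7
    inn := [(0, 1), (0, 2), (0, 3), (1, 0), (1, 3), (2, 0), (2, 3), (2, 4), (2, 5), (3, 0), (3, 1), (3,
      2), (3, 4), (4, 2), (4, 3), (5, 2), (5, 6), (6, 5)]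
    mix := [(0, 0), (1, 0), (1, 1), (1, 2), (1, 3), (2, 0), (2, 4), (2, 5), (2, 6), (3, 1), (3, 7), (4,
      6), (4, 7), (5, 5), (5, 6), (5, 8), (5, 9), (6, 2), (6, 6), (6, 9)]
    cl := [0, 0, 2, 6, 7, 1, 1, 3, 5, 4]
    chq := [(0, 1), (1, 0), (2, 5), (5, 2)]
    rng := [(0, 3), (0, 4), (1, 2), (1, 7), (2, 1), (2, 3), (2, 6), (2, 9), (3, 0), (3, 2), (4, 0), (4,
      5), (5, 4), (5, 8), (6, 2), (6, 7), (7, 1), (7, 6), (8, 5), (8, 9), (9, 2), (9, 8)]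
    lev := [] }
  links := [[1, 7, 2, 3], [7, 0, 3, 8, 9, 10], [3, 0, 7, 11, 12, 5, 13, 4], [8, 1, 0, 2, 4, 14], [14, 3,
    2, 13], [13, 2, 12, 15, 16, 6], [13, 5, 16, 9]]
  P := {
    a := 7
    N := 17
    nb := [142, 1929, 14521, 16663, 24588, 110660, 74272, 3079, 16906, 75074, 642, 4228, 34852, 17012,
      8472, 69664, 33376]
    tri := [(0, 1, 3), (0, 1, 7), (0, 2, 3), (0, 2, 7), (1, 3, 8), (1, 7, 10), (1, 8, 9), (1, 9, 10),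
      (2, 3, 4), (2, 4, 13), (2, 5, 12), (2, 5, 13), (2, 7, 11), (2, 11, 12), (3, 4, 14), (3, 8,
      14), (4, 13, 14), (5, 6, 13), (5, 6, 16), (5, 12, 15), (5, 15, 16), (6, 9, 13), (6, 9, 16)]
    fin := [0, 0, 2, 0, 0, 5, 5, 0, 0, 9, 10, 11, 2, 2, 14, 5, 16]
    chd := [(0, 2), (9, 5)]
    steps := [(0, 1), (0, 3), (0, 4), (0, 7), (0, 8), (2, 12), (2, 13), (5, 6), (5, 15)] }
  rep := [0, 2, 9, 14, 16, 5, 10, 11]

noncomputable def v1935 : Cov.CovD where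
  P := 3
  N := 5
  pl := [3, 4, 7, 9]
  lev := [⟨[], [], [], [], [(0, 0, [1])]⟩,
    ⟨[], [(0, 0), (0, 2)], [(0, 0), (0, 2)], [6], [(0, 0, [1]), (1, 0, [1]), (2, 2, [5])]⟩,
    ⟨[(0, 1)], [(0, 0), (0, 1), (1, 0)], [(0, 1), (1, 1)], [7], [(0, 0, [1]), (5, 1, [0]),
      (6, 1, [0])]⟩,
    ⟨[(0, 1), (0, 2), (1, 2)], [(0, 0), (1, 0), (1, 2), (2, 0), (2, 1)], [], [3], [(1, 0,
      [1])]⟩,
    ⟨[(0, 2), (0, 3), (1, 3), (2, 3)], [(2, 0), (2, 1), (3, 0), (3, 1)], [], [3], [(6, 1,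
      [0])]⟩,
    ⟨[(0, 2), (2, 3), (2, 4)], [(2, 0), (2, 1), (2, 5), (4, 1)], [(1, 1), (1, 5)], [4],
      [(5, 1, [0]), (6, 1, [0]), (8, 5, [2])]⟩,
    ⟨[(2, 5)], [(1, 2), (2, 1), (4, 1), (5, 1), (5, 2), (5, 5)], [(1, 2)], [4], [(2, 2,
      [5]), (6, 1, [0])]⟩]
  Ta := [((0, 3), 0, 6), ((0, 4), 0, 7), ((1, 2), 0, 2), ((1, 7), 0, 3), ((5, 4), 1, 7), ((5, 8),
    1, 5), ((6, 2), 1, 2), ((6, 7), 1, 3)]
  Tb := [((0, 3, 4), 0, 6, 7), ((1, 2, 7), 0, 2, 3), ((2, 1, 3), 2, 0, 6), ((2, 1, 6), 2, 0, 1),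
    ((2, 1, 9), 2, 0, 4), ((2, 3, 6), 2, 6, 1), ((2, 3, 9), 2, 6, 4), ((2, 6, 9), 2, 1, 4),
    ((3, 0, 2), 6, 0, 2), ((4, 0, 5), 7, 0, 1), ((5, 4, 8), 1, 7, 5), ((6, 2, 7), 1, 2, 3),
    ((7, 1, 6), 3, 0, 1), ((8, 5, 9), 5, 1, 4), ((9, 2, 8), 4, 2, 5)]
  Tc := []
  Td := [((0, 1), (0, 3), 6), ((0, 1), (0, 4), 7), ((0, 1), (1, 2), 2), ((0, 1), (1, 7), 3), ((1,
    0), (5, 4), 7), ((1, 0), (5, 8), 5), ((1, 0), (6, 2), 2), ((1, 0), (6, 7), 3), ((2, 5),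
    (2, 1), 0), ((2, 5), (2, 3), 6), ((2, 5), (2, 6), 1), ((2, 5), (2, 9), 4), ((5, 2), (8,
    5), 1), ((5, 2), (8, 9), 4)]
  G := [[0, 0x41ce88cea1841e4815e85615622189e88a1841e8861ec8, 0, 0,
    0x2a1d12821d12c198d21891d21ca2], [0, 0x4ca14168381a816a184c41e4c6181e48e1881e88cea1cc2,
    0, 0x541d12891d12c541d12891d12cc2,
    0x891d1891d834985191543941891d819c3ca181915191dc3818118168ac], [0,
    0x41648c1881288c32881841e4c6481e22185e8884ce14ec5, 0xa112c112c6112a112c68, 0,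
    0x81215221819289c89cc2d1181522121928ac13cc2da4], [0,
    0x41644ca1522888314841ec1e8c618115ee1841e841ec1ac4, 0xc112c112c2c144c114cc118c188cca,
    0x1111c21111c284c84cc2d1111c211119284c884c4adc2,
    0x1111186111114a19c489c86d111814c818111c19c889c4cda2]]

noncomputable def n1935 : Ent := ⟨e1935, noF, [], [], []⟩

def c1935 : PLift (Cov.check n1935.C.D v1935 = true) := ⟨by decide +kernel⟩

def b1935 : PLift (entF (fidx ts) 400 1935 n1935 = true) := ⟨by decide +kernel⟩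

theorem g1935 : GoodF (fidx ts) 400 1935 := GoodF.ofV v1935 n1935 c1935.down b1935.down

/-- 4686464:1641 -/
noncomputable def e1936 : SCfg where
  D := {
    a := 7
    L := 11
    kp := 8
    inn := [(0, 1), (0, 2), (0, 3), (1, 0), (1, 3), (2, 0), (2, 3), (2, 4), (2, 5), (3, 0), (3, 1), (3,
      2), (3, 4), (4, 2), (4, 3), (5, 2), (5, 6), (6, 5)]
    mix := [(0, 0), (1, 0), (1, 1), (1, 2), (1, 3), (2, 0), (2, 4), (2, 5), (2, 6), (3, 1), (3, 7), (4,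
      6), (4, 7), (5, 5), (5, 6), (5, 8), (5, 9), (6, 6), (6, 9), (6, 10)]
    cl := [0, 0, 6, 7, 8, 1, 1, 2, 4, 3, 5]
    chq := [(0, 1), (1, 0), (4, 5), (5, 4)]
    rng := [(0, 3), (0, 4), (1, 2), (1, 7), (2, 1), (2, 3), (3, 0), (3, 2), (4, 0), (4, 5), (5, 4), (5,
      8), (6, 7), (6, 10), (7, 1), (7, 6), (8, 5), (8, 9), (9, 8), (9, 10), (10, 6), (10, 9)]
    lev := [] }
  links := [[1, 7, 2, 3], [7, 0, 3, 8, 9, 10], [3, 0, 7, 11, 12, 5, 13, 4], [8, 1, 0, 2, 4, 14], [14, 3,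
    2, 13], [13, 2, 12, 15, 16, 6], [13, 5, 16, 17]]
  P := {
    a := 7
    N := 18
    nb := [142, 1929, 14521, 16663, 24588, 110660, 204832, 3079, 16906, 1282, 642, 4228, 34852,
      147572, 8472, 69664, 163936, 73792]
    tri := [(0, 1, 3), (0, 1, 7), (0, 2, 3), (0, 2, 7), (1, 3, 8), (1, 7, 10), (1, 8, 9), (1, 9, 10),
      (2, 3, 4), (2, 4, 13), (2, 5, 12), (2, 5, 13), (2, 7, 11), (2, 11, 12), (3, 4, 14), (3, 8,
      14), (4, 13, 14), (5, 6, 13), (5, 6, 16), (5, 12, 15), (5, 15, 16), (6, 13, 17), (6, 16,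
      17)]
    fin := [0, 0, 2, 0, 0, 5, 5, 0, 0, 9, 10, 11, 2, 2, 14, 5, 16, 17]
    chd := [(0, 2), (5, 17)]
    steps := [(0, 1), (0, 3), (0, 4), (0, 7), (0, 8), (2, 12), (2, 13), (5, 6), (5, 15)] }
  rep := [0, 2, 14, 16, 5, 17, 9, 10, 11]

noncomputable def v1936 : Cov.CovD where
  P := 3
  N := 6
  pl := [2, 3, 4, 7, 9]
  lev := [⟨[], [], [], [], [(0, 0, [1])]⟩,
    ⟨[], [(0, 0)], [(0, 0)], [6, 7], [(0, 0, [1]), (1, 0, [1])]⟩,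
    ⟨[(0, 1)], [(0, 0), (0, 1), (1, 0)], [(0, 1), (1, 1)], [8], [(0, 0, [1]), (5, 1, [0]),
      (6, 1, [0])]⟩,
    ⟨[(0, 1), (0, 2), (1, 2)], [(0, 0), (1, 0), (2, 0), (2, 1)], [], [2], [(1, 0, [1])]⟩,
    ⟨[(0, 2), (0, 3), (1, 3), (2, 3)], [(2, 0), (2, 1), (3, 0), (3, 1)], [], [2], [(6, 1,
      [0])]⟩,
    ⟨[(0, 2), (2, 3), (2, 4)], [(2, 0), (2, 1), (2, 4), (4, 1)], [(1, 1), (1, 4)], [3],
      [(5, 1, [0]), (6, 1, [0]), (8, 4, [5])]⟩,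
    ⟨[(2, 5)], [(2, 1), (4, 1), (5, 1), (5, 4), (5, 5)], [(1, 5)], [3], [(6, 1, [0]), (10,
      5, [4])]⟩]
  Ta := [((0, 3), 0, 7), ((0, 4), 0, 8), ((1, 2), 0, 6), ((1, 7), 0, 2), ((5, 4), 1, 8), ((5, 8),
    1, 4), ((6, 7), 1, 2), ((6, 10), 1, 5)]
  Tb := [((0, 3, 4), 0, 7, 8), ((1, 2, 7), 0, 6, 2), ((2, 1, 3), 6, 0, 7), ((3, 0, 2), 7, 0, 6),
    ((4, 0, 5), 8, 0, 1), ((5, 4, 8), 1, 8, 4), ((6, 7, 10), 1, 2, 5), ((7, 1, 6), 2, 0, 1),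
    ((8, 5, 9), 4, 1, 3), ((9, 8, 10), 3, 4, 5), ((10, 6, 9), 5, 1, 3)]
  Tc := []
  Td := [((0, 1), (0, 3), 7), ((0, 1), (0, 4), 8), ((0, 1), (1, 2), 6), ((0, 1), (1, 7), 2), ((1,
    0), (5, 4), 8), ((1, 0), (5, 8), 4), ((1, 0), (6, 7), 2), ((1, 0), (6, 10), 5), ((4, 5),
    (8, 5), 1), ((4, 5), (8, 9), 3), ((5, 4), (10, 6), 1), ((5, 4), (10, 9), 3)]
  G := [[0, 0x148139a816ace14e6a1e41591e41aa4141ca81b11e81ee4, 0, 0,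
    0xa25126a2d81c9c52132ad81c628128292558a1236d82c68128ce], [0,
    0xa5618c41ace84a13ce8813ce486619e885a1e846e1, 0,
    0x9c5589459cd81c9c558c1945c9c1c59cd4159cd81ce2,
    0x5812825819c58359cd81c9c5589259cd18c9c58159cd18ce6], [0,
    0xa168415a846ac18e315e41b2481ac48e1a5e415a1e81ce2,
    0x6142c18223c48d214821486ac42d6184c12829c84de2, 0,
    0x2182218259c28d2182c18269c88d211821186ac88de2], [0,
    0x591e44a4115a8cc126ac949166898a14839a8c13ce846e1,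
    0xc182c18259c48d59c481c142c18859c88dec142c182c45,
    0xc18459c845c114c14859c84dc114c14859c48dec18488c,
    0xc112c11259c82dc182c18859c88dc118c18859c88de2]]

noncomputable def n1936 : Ent := ⟨e1936, noF, [], [], [(15, 9, [7334790850167413569773436137909850376687013109418699723294111048445953, 0]), (16, 9, [7334685537875745012586738242182911904785317355859017446831218243457025, 0]), (17, 14, [6903326468334360900303599070699561856668565975414084080169086032076801, 0]), (17, 9, [6903326391201334775872066023091343012537746186634086559781921985458177, 0])]⟩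

def c1936 : PLift (Cov.check n1936.C.D v1936 = true) := ⟨by decide +kernel⟩

def b1936 : PLift (entF (fidx ts) 400 1936 n1936 = true) := ⟨by decide +kernel⟩

theorem g1936 : GoodF (fidx ts) 400 1936 := GoodF.ofV v1936 n1936 c1936.down b1936.down

/-- 4686654:1642/1 -/
noncomputable def e1937 : SCfg where
  D := {
    a := 7
    L := 10
    kp := 8
    inn := [(0, 1), (0, 2), (0, 3), (0, 4), (1, 0), (1, 3), (1, 4), (2, 0), (2, 3), (2, 4), (2, 5), (3,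
      0), (3, 1), (3, 2), (4, 0), (4, 1), (4, 2), (5, 2), (5, 6), (6, 5)]
    mix := [(1, 0), (1, 1), (1, 2), (2, 3), (2, 4), (2, 5), (2, 6), (3, 0), (3, 6), (3, 7), (4, 2), (4,
      3), (4, 8), (5, 4), (5, 5), (5, 9), (6, 1), (6, 4), (6, 9)]
    cl := [1, 5, 3, 2, 0, 0, 4, 8, 7, 6]
    chq := [(0, 1), (1, 0), (1, 2), (1, 3), (1, 4), (1, 7), (2, 1), (3, 1), (4, 1), (7, 1)]
    rng := [(0, 1), (0, 7), (1, 0), (1, 2), (1, 4), (1, 9), (2, 1), (2, 8), (3, 4), (3, 8), (4, 1), (4,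
      3), (5, 6), (5, 9), (6, 5), (6, 7), (7, 0), (7, 6), (8, 2), (8, 3), (9, 1), (9, 5)]
    lev := [] }
  links := [[1, 4, 2, 3], [4, 0, 3, 7, 8, 9], [3, 0, 4, 10, 11, 5, 12, 13], [7, 1, 0, 2, 13, 14], [10, 2,
    0, 1, 9, 15], [12, 2, 11, 6, 16], [16, 5, 11, 8]]
  P := {
    a := 7
    N := 17
    nb := [30, 921, 15417, 24711, 34311, 71748, 67872, 16650, 68290, 33042, 34836, 1380, 73764, 20492,
      8328, 1552, 4448]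
    tri := [(0, 1, 3), (0, 1, 4), (0, 2, 3), (0, 2, 4), (1, 3, 7), (1, 4, 9), (1, 7, 8), (1, 8, 9), (2,
      3, 13), (2, 4, 10), (2, 5, 11), (2, 5, 12), (2, 10, 11), (2, 12, 13), (3, 7, 14), (3, 13,
      14), (4, 9, 15), (4, 10, 15), (5, 6, 11), (5, 6, 16), (5, 12, 16), (6, 8, 11), (6, 8, 16)]
    fin := [0, 0, 2, 0, 0, 5, 5, 0, 5, 9, 10, 2, 2, 13, 14, 15, 16]
    chd := [(0, 2), (0, 9), (0, 10), (0, 13), (0, 15)]
    steps := [(0, 1), (0, 3), (0, 4), (0, 7), (2, 11), (2, 12), (5, 6), (5, 8)] }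
  rep := [2, 0, 10, 9, 13, 5, 16, 15, 14]

noncomputable def v1937 : Cov.CovD where
  P := 3
  N := 6
  pl := [1, 7, 9]
  lev := [⟨[], [], [], [], []⟩,
    ⟨[], [(0, 1), (0, 3)], [(1, 3)], [5], [(0, 1, [0, 2, 3, 4, 7]), (2, 3, [1])]⟩,
    ⟨[(0, 1)], [(0, 0), (0, 2), (0, 4)], [(0, 0), (0, 2), (0, 4), (2, 4)], [], [(3, 2,
      [1]), (4, 0, [1]), (5, 0, [1]), (6, 4, [1])]⟩,
    ⟨[(0, 1), (0, 2), (1, 2)], [(0, 1), (0, 4), (1, 1), (1, 3), (1, 4), (2, 0), (2, 1), (2,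
      2), (2, 4)], [(1, 4)], [8], [(0, 1, [0, 2, 3, 4, 7]), (6, 4, [1])]⟩,
    ⟨[(0, 1), (0, 2), (0, 3), (1, 2), (1, 3), (2, 3)], [(0, 2), (0, 3), (0, 7), (1, 1), (1,
      2), (1, 3), (1, 7), (2, 0), (2, 2), (2, 3), (2, 4), (2, 7)], [(2, 3), (2, 7), (3, 7)],
      [], [(2, 3, [1]), (3, 2, [1]), (8, 7, [1])]⟩,
    ⟨[(0, 2), (2, 3), (2, 4)], [(2, 0), (2, 2), (2, 4)], [(0, 0)], [6], [(4, 0, [1]), (5,
      0, [1])]⟩,
    ⟨[(2, 5)], [(2, 0), (5, 0)], [], [5, 6], [(4, 0, [1])]⟩]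
  Ta := [((4, 1), 0, 5), ((4, 3), 0, 2), ((5, 6), 0, 4), ((5, 9), 0, 6)]
  Tb := [((0, 1, 7), 1, 5, 8), ((1, 0, 2), 5, 1, 3), ((1, 0, 4), 5, 1, 0), ((1, 0, 9), 5, 1, 6),
    ((1, 2, 4), 5, 3, 0), ((1, 2, 9), 5, 3, 6), ((1, 4, 9), 5, 0, 6), ((2, 1, 8), 3, 5, 7),
    ((3, 4, 8), 2, 0, 7), ((4, 1, 3), 0, 5, 2), ((5, 6, 9), 0, 4, 6), ((6, 5, 7), 4, 0, 8),
    ((7, 0, 6), 8, 1, 4), ((8, 2, 3), 7, 3, 2), ((9, 1, 5), 6, 5, 0)]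
  Tc := [(1, 0, 2), (1, 0, 3), (1, 0, 4), (1, 0, 7), (1, 2, 3), (1, 2, 4), (1, 2, 7), (1, 3, 4),
    (1, 3, 7), (1, 4, 7)]
  Td := [((0, 1), (4, 1), 5), ((0, 1), (4, 3), 2), ((0, 1), (5, 6), 4), ((0, 1), (5, 9), 6), ((1,
    0), (0, 1), 5), ((1, 0), (0, 7), 8), ((1, 2), (0, 1), 5), ((1, 2), (0, 7), 8), ((1, 3),
    (0, 1), 5), ((1, 3), (0, 7), 8), ((1, 4), (0, 1), 5), ((1, 4), (0, 7), 8), ((1, 7), (0,
    1), 5), ((1, 7), (0, 7), 8), ((2, 1), (3, 4), 0), ((2, 1), (3, 8), 7), ((3, 1), (2, 1),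
    5), ((3, 1), (2, 8), 7), ((4, 1), (6, 5), 0), ((4, 1), (6, 7), 8), ((7, 1), (8, 2), 3),
    ((7, 1), (8, 3), 2)]
  G := [[0, 0x1861118611c4161114a11c12a1121c11ce2,
    0xca6248ae29c6a21c182a2482c82c682c86ca96426224c2942a2124c24ca4ec6a244d5,
    0x8262244262242a22cc2622c2a22cd82622889,
    0x24c24c486b42a6ce2c344a6ca525826282628262782c282c82ca82c82c82cbda42624262924c24c24cb1aa2c112ca62826298fc],
    [0, 0x11c1181611c1161111611c12a1112c11ce2, 0, 0x1262281a22c12a2212a22c94262212622c45,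
    0x4262114a24ca41612c416b5a12c12c31dc25258162826231a2782c281c81ca82c19c12cbda416288c1a112126212c298fc]]

noncomputable def n1937 : Ent := ⟨e1937, noF, [], [], []⟩

def c1937 : PLift (Cov.check n1937.C.D v1937 = true) := ⟨by decide +kernel⟩

def b1937 : PLift (entF (fidx ts) 400 1937 n1937 = true) := ⟨by decide +kernel⟩

theorem g1937 : GoodF (fidx ts) 400 1937 := GoodF.ofV v1937 n1937 c1937.down b1937.down

/-- 4686654:1642/3 -/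
noncomputable def e1938 : SCfg where
  D := {
    a := 7
    L := 9
    kp := 7
    inn := [(0, 1), (0, 2), (0, 3), (0, 4), (1, 0), (1, 3), (1, 4), (2, 0), (2, 3), (2, 4), (2, 5), (3,
      0), (3, 1), (3, 2), (4, 0), (4, 1), (4, 2), (5, 2), (5, 6), (6, 5)]
    mix := [(1, 0), (1, 1), (1, 2), (2, 3), (2, 4), (2, 5), (2, 6), (3, 0), (3, 6), (3, 7), (4, 2), (4,
      3), (4, 8), (5, 1), (5, 4), (5, 5), (6, 1), (6, 4), (6, 8)]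
    cl := [4, 0, 5, 1, 3, 1, 2, 7, 6]
    chq := [(0, 2), (0, 3), (2, 0), (2, 4), (2, 5), (2, 6), (3, 0), (4, 2), (5, 2), (6, 2)]
    rng := [(0, 1), (0, 7), (1, 0), (1, 2), (1, 5), (1, 8), (2, 1), (2, 8), (3, 4), (3, 8), (4, 3), (4,
      8), (5, 1), (5, 6), (6, 5), (6, 7), (7, 0), (7, 6), (8, 1), (8, 2), (8, 3), (8, 4)]
    lev := [] }
  links := [[1, 4, 2, 3], [4, 0, 3, 7, 8, 9], [3, 0, 4, 10, 11, 5, 12, 13], [7, 1, 0, 2, 13, 14], [10, 2,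
    0, 1, 9, 15], [12, 2, 11, 6, 8], [8, 5, 11, 15]]
  P := {
    a := 7
    N := 16
    nb := [30, 921, 15417, 24711, 34311, 6468, 35104, 16650, 37602, 33042, 34836, 33892, 8484, 20492,
      8328, 3920]
    tri := [(0, 1, 3), (0, 1, 4), (0, 2, 3), (0, 2, 4), (1, 3, 7), (1, 4, 9), (1, 7, 8), (1, 8, 9), (2,
      3, 13), (2, 4, 10), (2, 5, 11), (2, 5, 12), (2, 10, 11), (2, 12, 13), (3, 7, 14), (3, 13,
      14), (4, 9, 15), (4, 10, 15), (5, 6, 8), (5, 6, 11), (5, 8, 12), (6, 8, 15), (6, 11, 15)]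
    fin := [0, 1, 2, 0, 0, 1, 1, 7, 1, 9, 2, 11, 2, 0, 14, 15]
    chd := [(0, 15), (1, 0), (1, 11), (7, 0), (9, 0)]
    steps := [(0, 3), (0, 4), (0, 13), (1, 8), (1, 5), (1, 6), (2, 10), (2, 12)] }
  rep := [1, 2, 0, 11, 7, 9, 15, 14]

noncomputable def v1938 : Cov.CovD where
  P := 3
  N := 5
  pl := [7]
  lev := [⟨[], [], [], [], []⟩,
    ⟨[], [(0, 0), (0, 4), (0, 5)], [(0, 4), (0, 5), (4, 5)], [], [(0, 4, [2]), (1, 0, [2,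
      3]), (2, 5, [2])]⟩,
    ⟨[(0, 1)], [(0, 1), (0, 2), (0, 3)], [(1, 1), (1, 2), (1, 3), (2, 3)], [], [(3, 1, []),
      (4, 3, [0]), (5, 1, []), (6, 2, [0, 4, 5, 6])]⟩,
    ⟨[(0, 1), (0, 2), (1, 2)], [(0, 2), (0, 4), (1, 0), (1, 2), (1, 4), (1, 5), (2, 1), (2,
      2), (2, 3), (2, 4)], [(2, 4)], [7], [(0, 4, [2]), (6, 2, [0, 4, 5, 6])]⟩,
    ⟨[(0, 1), (0, 2), (0, 3), (1, 2), (1, 3), (2, 3)], [(0, 1), (0, 5), (0, 6), (1, 0), (1,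
      1), (1, 4), (1, 5), (1, 6), (2, 1), (2, 2), (2, 3), (2, 5), (2, 6)], [(1, 5), (1, 6),
      (5, 6)], [], [(2, 5, [2]), (3, 1, []), (8, 6, [2])]⟩,
    ⟨[(0, 2), (2, 3), (2, 4)], [(1, 0), (2, 0), (2, 1), (2, 2), (2, 3)], [(0, 1), (0, 3),
      (1, 3)], [], [(1, 0, [2, 3]), (4, 3, [0]), (5, 1, [])]⟩,
    ⟨[(2, 5)], [(1, 0), (2, 3), (4, 6), (5, 0), (5, 1), (5, 3), (5, 6)], [(0, 3), (0, 6),
      (3, 6)], [], [(1, 0, [2, 3]), (4, 3, [0]), (8, 6, [2])]⟩]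
  Ta := [((3, 4), 1, 3), ((3, 8), 1, 6), ((5, 1), 1, 0), ((5, 6), 1, 2)]
  Tb := [((0, 1, 7), 4, 0, 7), ((1, 0, 2), 0, 4, 5), ((1, 0, 5), 0, 4, 1), ((1, 0, 8), 0, 4, 6),
    ((1, 2, 5), 0, 5, 1), ((1, 2, 8), 0, 5, 6), ((1, 5, 8), 0, 1, 6), ((2, 1, 8), 5, 0, 6),
    ((3, 4, 8), 1, 3, 6), ((4, 3, 8), 3, 1, 6), ((5, 1, 6), 1, 0, 2), ((6, 5, 7), 2, 1, 7),
    ((7, 0, 6), 7, 4, 2), ((8, 1, 2), 6, 0, 5), ((8, 1, 3), 6, 0, 1), ((8, 1, 4), 6, 0, 3),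
    ((8, 2, 3), 6, 5, 1), ((8, 2, 4), 6, 5, 3), ((8, 3, 4), 6, 1, 3)]
  Tc := [(0, 2, 3), (2, 0, 4), (2, 0, 5), (2, 0, 6), (2, 4, 5), (2, 4, 6), (2, 5, 6)]
  Td := [((0, 2), (1, 0), 4), ((0, 2), (1, 2), 5), ((0, 2), (1, 5), 1), ((0, 2), (1, 8), 6), ((0,
    3), (1, 0), 4), ((0, 3), (1, 2), 5), ((0, 3), (1, 5), 1), ((0, 3), (1, 8), 6), ((2, 0),
    (6, 5), 1), ((2, 0), (6, 7), 7), ((2, 4), (6, 5), 1), ((2, 4), (6, 7), 7), ((2, 5), (6,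
    5), 1), ((2, 5), (6, 7), 7), ((2, 6), (6, 5), 1), ((2, 6), (6, 7), 7), ((3, 0), (4, 3),
    1), ((3, 0), (4, 8), 6), ((4, 2), (0, 1), 0), ((4, 2), (0, 7), 7), ((5, 2), (2, 1), 0),
    ((5, 2), (2, 8), 6), ((6, 2), (8, 1), 0), ((6, 2), (8, 2), 5), ((6, 2), (8, 3), 1), ((6,
    2), (8, 4), 3)]
  G := [[0, 0, 0x18111411c18111211c12111411ce2, 0,
    0x24c4a6c4a1286c4816811421421924ca85882426cd84aa4ccbdca], [0,
    0xa41621a41d424a612cc1681d82c, 0x21111411c21112111c18112411ce2,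
    0x2811241281241d82c22c28d22c24c22cd22c22ccdd22,
    0x241122c22424c2824f2424c22ceb9422c4284918a]]

noncomputable def n1938 : Ent := ⟨e1938, noF, [], [], []⟩

def c1938 : PLift (Cov.check n1938.C.D v1938 = true) := ⟨by decide +kernel⟩

def b1938 : PLift (entF (fidx ts) 400 1938 n1938 = true) := ⟨by decide +kernel⟩

theorem g1938 : GoodF (fidx ts) 400 1938 := GoodF.ofV v1938 n1938 c1938.down b1938.down

/-- 4686654:1642/2 -/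
noncomputable def e1939 : SCfg where
  D := {
    a := 7
    L := 10
    kp := 8
    inn := [(0, 1), (0, 2), (0, 3), (0, 4), (1, 0), (1, 3), (1, 4), (2, 0), (2, 3), (2, 4), (2, 5), (3,
      0), (3, 1), (3, 2), (4, 0), (4, 1), (4, 2), (5, 2), (5, 6), (6, 5)]
    mix := [(1, 0), (1, 1), (1, 2), (2, 3), (2, 4), (2, 5), (2, 6), (3, 0), (3, 6), (3, 7), (4, 2), (4,
      3), (4, 8), (5, 1), (5, 4), (5, 5), (6, 1), (6, 4), (6, 9)]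
    cl := [2, 1, 3, 4, 0, 0, 5, 7, 6, 8]
    chq := [(0, 2), (2, 0), (2, 3), (2, 4), (2, 5), (2, 6), (3, 2), (4, 2), (5, 2), (6, 2)]
    rng := [(0, 1), (0, 7), (1, 0), (1, 2), (1, 5), (1, 9), (2, 1), (2, 8), (3, 4), (3, 8), (4, 3), (4,
      9), (5, 1), (5, 6), (6, 5), (6, 7), (7, 0), (7, 6), (8, 2), (8, 3), (9, 1), (9, 4)]
    lev := [] }
  links := [[1, 4, 2, 3], [4, 0, 3, 7, 8, 9], [3, 0, 4, 10, 11, 5, 12, 13], [7, 1, 0, 2, 13, 14], [10, 2,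
    0, 1, 9, 15], [12, 2, 11, 6, 8], [8, 5, 11, 16]]
  P := {
    a := 7
    N := 17
    nb := [30, 921, 15417, 24711, 34311, 6468, 67872, 16650, 70370, 33042, 34836, 66660, 8484, 20492,
      8328, 1552, 2368]
    tri := [(0, 1, 3), (0, 1, 4), (0, 2, 3), (0, 2, 4), (1, 3, 7), (1, 4, 9), (1, 7, 8), (1, 8, 9), (2,
      3, 13), (2, 4, 10), (2, 5, 11), (2, 5, 12), (2, 10, 11), (2, 12, 13), (3, 7, 14), (3, 13,
      14), (4, 9, 15), (4, 10, 15), (5, 6, 8), (5, 6, 11), (5, 8, 12), (6, 8, 16), (6, 11, 16)]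
    fin := [0, 0, 0, 0, 0, 5, 6, 0, 6, 9, 10, 5, 5, 13, 14, 15, 16]
    chd := [(0, 5), (0, 9), (0, 10), (0, 13), (0, 15)]
    steps := [(0, 1), (0, 2), (0, 3), (0, 4), (0, 7), (5, 11), (5, 12), (6, 8)] }
  rep := [5, 6, 0, 9, 10, 13, 15, 14, 16]

noncomputable def v1939 : Cov.CovD where
  P := 3
  N := 6
  pl := [1, 7, 9]
  lev := [⟨[], [], [], [], []⟩,
    ⟨[], [(0, 2), (0, 3)], [(2, 3)], [1], [(0, 2, [0, 3, 4, 5, 6]), (2, 3, [2])]⟩,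
    ⟨[(0, 1)], [(0, 0), (0, 4), (0, 5)], [(0, 0), (0, 4), (0, 5), (4, 5)], [], [(3, 4,
      [2]), (4, 0, [2]), (5, 0, [2]), (6, 5, [2])]⟩,
    ⟨[(0, 1), (0, 2), (1, 2)], [(0, 2), (0, 5), (1, 2), (1, 3), (1, 5), (2, 0), (2, 2), (2,
      4), (2, 5)], [(2, 5)], [7], [(0, 2, [0, 3, 4, 5, 6]), (6, 5, [2])]⟩,
    ⟨[(0, 1), (0, 2), (0, 3), (1, 2), (1, 3), (2, 3)], [(0, 3), (0, 4), (0, 6), (1, 2), (1,
      3), (1, 4), (1, 6), (2, 0), (2, 3), (2, 4), (2, 5), (2, 6)], [(3, 4), (3, 6), (4, 6)],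
      [], [(2, 3, [2]), (3, 4, [2]), (8, 6, [2])]⟩,
    ⟨[(0, 2), (2, 3), (2, 4)], [(2, 0), (2, 4), (2, 5)], [(0, 0)], [1], [(4, 0, [2]), (5,
      0, [2])]⟩,
    ⟨[(2, 5)], [(2, 0), (5, 0)], [], [1, 8], [(4, 0, [2])]⟩]
  Ta := [((4, 3), 0, 4), ((4, 9), 0, 8), ((5, 1), 0, 1), ((5, 6), 0, 5)]
  Tb := [((0, 1, 7), 2, 1, 7), ((1, 0, 2), 1, 2, 3), ((1, 0, 5), 1, 2, 0), ((1, 0, 9), 1, 2, 8),
    ((1, 2, 5), 1, 3, 0), ((1, 2, 9), 1, 3, 8), ((1, 5, 9), 1, 0, 8), ((2, 1, 8), 3, 1, 6),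
    ((3, 4, 8), 4, 0, 6), ((4, 3, 9), 0, 4, 8), ((5, 1, 6), 0, 1, 5), ((6, 5, 7), 5, 0, 7),
    ((7, 0, 6), 7, 2, 5), ((8, 2, 3), 6, 3, 4), ((9, 1, 4), 8, 1, 0)]
  Tc := [(2, 0, 3), (2, 0, 4), (2, 0, 5), (2, 0, 6), (2, 3, 4), (2, 3, 5), (2, 3, 6), (2, 4, 5),
    (2, 4, 6), (2, 5, 6)]
  Td := [((0, 2), (4, 3), 4), ((0, 2), (4, 9), 8), ((0, 2), (5, 1), 1), ((0, 2), (5, 6), 5), ((2,
    0), (0, 1), 1), ((2, 0), (0, 7), 7), ((2, 3), (0, 1), 1), ((2, 3), (0, 7), 7), ((2, 4),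
    (0, 1), 1), ((2, 4), (0, 7), 7), ((2, 5), (0, 1), 1), ((2, 5), (0, 7), 7), ((2, 6), (0,
    1), 1), ((2, 6), (0, 7), 7), ((3, 2), (2, 1), 1), ((3, 2), (2, 8), 6), ((4, 2), (3, 4),
    0), ((4, 2), (3, 8), 6), ((5, 2), (6, 5), 0), ((5, 2), (6, 7), 7), ((6, 2), (8, 2), 3),
    ((6, 2), (8, 3), 4)]
  G := [[0, 0, 0x141118111811e181118111411ec2, 0xc82c42c42d2c82c42c82d258,
    0x48c4c44c447c8c86c8c8cc8c8c8c8fbcc8114c44c449c8c83c8c85c8c86bcdc44c4432c442293], [0,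
    0xa8244c222a4a4568a83a8a4a47d6c6222c82168a8368c89a4a464bde64264298cc,
    0x141118116141118111411ec181188c, 0x142142182d2182182142d294,
    0x181461818c18181814fb4141141441849181831818518186b1444ed18418414471441843a83]]

noncomputable def n1939 : Ent := ⟨e1939, noF, [], [], [(15, 16, [1580044410770988437309982408355971841652082177953823432505697050625, 0])]⟩

def c1939 : PLift (Cov.check n1939.C.D v1939 = true) := ⟨by decide +kernel⟩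

def b1939 : PLift (entF (fidx ts) 400 1939 n1939 = true) := ⟨by decide +kernel⟩

theorem g1939 : GoodF (fidx ts) 400 1939 := GoodF.ofV v1939 n1939 c1939.down b1939.down

/-- 4686654:1642/4 -/
noncomputable def e1940 : SCfg where
  D := {
    a := 7
    L := 10
    kp := 8
    inn := [(0, 1), (0, 2), (0, 3), (0, 4), (1, 0), (1, 3), (1, 4), (2, 0), (2, 3), (2, 4), (2, 5), (3,
      0), (3, 1), (3, 2), (4, 0), (4, 1), (4, 2), (5, 2), (5, 6), (6, 5)]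
    mix := [(1, 0), (1, 1), (1, 2), (2, 3), (2, 4), (2, 5), (2, 6), (3, 0), (3, 6), (3, 7), (4, 2), (4,
      3), (4, 8), (5, 4), (5, 5), (5, 9), (6, 4), (6, 8), (6, 9)]
    cl := [1, 7, 3, 4, 0, 0, 2, 8, 5, 6]
    chq := [(0, 1), (1, 0), (1, 2), (1, 3), (1, 4), (1, 5), (2, 1), (3, 1), (4, 1), (5, 1)]
    rng := [(0, 1), (0, 7), (1, 0), (1, 2), (2, 1), (2, 8), (3, 4), (3, 8), (4, 3), (4, 8), (5, 6), (5,
      9), (6, 5), (6, 7), (7, 0), (7, 6), (8, 2), (8, 3), (8, 4), (8, 9), (9, 5), (9, 8)]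
    lev := [] }
  links := [[1, 4, 2, 3], [4, 0, 3, 7, 8, 9], [3, 0, 4, 10, 11, 5, 12, 13], [7, 1, 0, 2, 13, 14], [10, 2,
    0, 1, 9, 15], [12, 2, 11, 6, 16], [16, 5, 11, 15]]
  P := {
    a := 7
    N := 17
    nb := [30, 921, 15417, 24711, 34311, 71748, 100384, 16650, 642, 33042, 34836, 33892, 73764, 20492,
      8328, 69200, 36960]
    tri := [(0, 1, 3), (0, 1, 4), (0, 2, 3), (0, 2, 4), (1, 3, 7), (1, 4, 9), (1, 7, 8), (1, 8, 9), (2,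
      3, 13), (2, 4, 10), (2, 5, 11), (2, 5, 12), (2, 10, 11), (2, 12, 13), (3, 7, 14), (3, 13,
      14), (4, 9, 15), (4, 10, 15), (5, 6, 11), (5, 6, 16), (5, 12, 16), (6, 11, 15), (6, 15, 16)]
    fin := [0, 0, 2, 0, 0, 5, 5, 0, 8, 9, 10, 2, 2, 13, 14, 5, 16]
    chd := [(0, 2), (0, 5), (0, 9), (0, 10), (0, 13)]
    steps := [(0, 1), (0, 3), (0, 4), (0, 7), (2, 11), (2, 12), (5, 6), (5, 15)] }
  rep := [2, 0, 13, 9, 10, 5, 16, 8, 14]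

noncomputable def v1940 : Cov.CovD where
  P := 3
  N := 6
  pl := [1, 7, 9]
  lev := [⟨[], [], [], [], []⟩,
    ⟨[], [(0, 1), (0, 3)], [(1, 3)], [7], [(0, 1, [0, 2, 3, 4, 5]), (2, 3, [1])]⟩,
    ⟨[(0, 1)], [(0, 0), (0, 2), (0, 4)], [(0, 0), (0, 2), (0, 4), (2, 4)], [], [(3, 4,
      [1]), (4, 0, [1]), (5, 0, [1]), (6, 2, [1])]⟩,
    ⟨[(0, 1), (0, 2), (1, 2)], [(0, 1), (0, 2), (1, 1), (1, 2), (1, 3), (2, 0), (2, 1), (2,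
      2), (2, 4)], [(1, 2)], [8], [(0, 1, [0, 2, 3, 4, 5]), (6, 2, [1])]⟩,
    ⟨[(0, 1), (0, 2), (0, 3), (1, 2), (1, 3), (2, 3)], [(0, 3), (0, 4), (0, 5), (1, 1), (1,
      3), (1, 4), (1, 5), (2, 0), (2, 2), (2, 3), (2, 4), (2, 5)], [(3, 4), (3, 5), (4, 5)],
      [], [(2, 3, [1]), (3, 4, [1]), (8, 5, [1])]⟩,
    ⟨[(0, 2), (2, 3), (2, 4)], [(2, 0), (2, 2), (2, 4)], [(0, 0)], [6], [(4, 0, [1]), (5,
      0, [1])]⟩,
    ⟨[(2, 5)], [(2, 0), (4, 5), (5, 0), (5, 5)], [(0, 5)], [6], [(4, 0, [1]), (8, 5, [1])]⟩]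
  Ta := [((4, 3), 0, 4), ((4, 8), 0, 5), ((5, 6), 0, 2), ((5, 9), 0, 6)]
  Tb := [((0, 1, 7), 1, 7, 8), ((1, 0, 2), 7, 1, 3), ((2, 1, 8), 3, 7, 5), ((3, 4, 8), 4, 0, 5),
    ((4, 3, 8), 0, 4, 5), ((5, 6, 9), 0, 2, 6), ((6, 5, 7), 2, 0, 8), ((7, 0, 6), 8, 1, 2),
    ((8, 2, 3), 5, 3, 4), ((8, 2, 4), 5, 3, 0), ((8, 2, 9), 5, 3, 6), ((8, 3, 4), 5, 4, 0),
    ((8, 3, 9), 5, 4, 6), ((8, 4, 9), 5, 0, 6), ((9, 5, 8), 6, 0, 5)]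
  Tc := [(1, 0, 2), (1, 0, 3), (1, 0, 4), (1, 0, 5), (1, 2, 3), (1, 2, 4), (1, 2, 5), (1, 3, 4),
    (1, 3, 5), (1, 4, 5)]
  Td := [((0, 1), (4, 3), 4), ((0, 1), (4, 8), 5), ((0, 1), (5, 6), 2), ((0, 1), (5, 9), 6), ((1,
    0), (0, 1), 7), ((1, 0), (0, 7), 8), ((1, 2), (0, 1), 7), ((1, 2), (0, 7), 8), ((1, 3),
    (0, 1), 7), ((1, 3), (0, 7), 8), ((1, 4), (0, 1), 7), ((1, 4), (0, 7), 8), ((1, 5), (0,
    1), 7), ((1, 5), (0, 7), 8), ((2, 1), (6, 5), 0), ((2, 1), (6, 7), 8), ((3, 1), (2, 1),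
    7), ((3, 1), (2, 8), 5), ((4, 1), (3, 4), 0), ((4, 1), (3, 8), 5), ((5, 1), (8, 2), 3),
    ((5, 1), (8, 3), 4), ((5, 1), (8, 4), 0), ((5, 1), (8, 9), 6)]
  G := [[0, 0x1161111a11c1161111611c11a1111c11ce2, 0,
    0xc26242625c2a2c2a29c8262426258262c2a2cc5c26242a25c2a2c2a25c88c8982a9,
    0x24c82c88724c4924ca62224ca6c82c74862ec2ac79aca62e8629a2c82c31a84c112ca624a629c2c22c3a6c29afc],
    [0, 0x11c1111c11c1161111611c1161111a11ce2,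
    0x11c121c1c21122211a2211c212c2ce11a22122221c211c2cec5,
    0x21c112c152212c212625126212a2cc126212a2912c212a29cc6,
    0x21c21c312c162241612c64412c81a79a12c112c292d16a2224c12c12c78a9221c512ac]]

noncomputable def n1940 : Ent := ⟨e1940, noF, [], [], [(8, 16, [1580044410770988437309982408355971841652082177953823432505697050625, 0])]⟩

def c1940 : PLift (Cov.check n1940.C.D v1940 = true) := ⟨by decide +kernel⟩

def b1940 : PLift (entF (fidx ts) 400 1940 n1940 = true) := ⟨by decide +kernel⟩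

theorem g1940 : GoodF (fidx ts) 400 1940 := GoodF.ofV v1940 n1940 c1940.down b1940.down

/-- 4686654:1642 -/
noncomputable def e1941 : SCfg where
  D := {
    a := 7
    L := 11
    kp := 9
    inn := [(0, 1), (0, 2), (0, 3), (0, 4), (1, 0), (1, 3), (1, 4), (2, 0), (2, 3), (2, 4), (2, 5), (3,
      0), (3, 1), (3, 2), (4, 0), (4, 1), (4, 2), (5, 2), (5, 6), (6, 5)]
    mix := [(1, 0), (1, 1), (1, 2), (2, 3), (2, 4), (2, 5), (2, 6), (3, 0), (3, 6), (3, 7), (4, 2), (4,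
      3), (4, 8), (5, 4), (5, 5), (5, 9), (6, 4), (6, 9), (6, 10)]
    cl := [1, 7, 3, 4, 0, 0, 2, 8, 6, 5, 9]
    chq := [(0, 1), (1, 0), (1, 2), (1, 3), (1, 4), (1, 6), (2, 1), (3, 1), (4, 1), (6, 1)]
    rng := [(0, 1), (0, 7), (1, 0), (1, 2), (2, 1), (2, 8), (3, 4), (3, 8), (4, 3), (4, 10), (5, 6),
      (5, 9), (6, 5), (6, 7), (7, 0), (7, 6), (8, 2), (8, 3), (9, 5), (9, 10), (10, 4), (10, 9)]
    lev := [] }
  links := [[1, 4, 2, 3], [4, 0, 3, 7, 8, 9], [3, 0, 4, 10, 11, 5, 12, 13], [7, 1, 0, 2, 13, 14], [10, 2,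
    0, 1, 9, 15], [12, 2, 11, 6, 16], [16, 5, 11, 17]]
  P := {
    a := 7
    N := 18
    nb := [30, 921, 15417, 24711, 34311, 71748, 198688, 16650, 642, 33042, 34836, 132196, 73764,
      20492, 8328, 1552, 135264, 67648]
    tri := [(0, 1, 3), (0, 1, 4), (0, 2, 3), (0, 2, 4), (1, 3, 7), (1, 4, 9), (1, 7, 8), (1, 8, 9), (2,
      3, 13), (2, 4, 10), (2, 5, 11), (2, 5, 12), (2, 10, 11), (2, 12, 13), (3, 7, 14), (3, 13,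
      14), (4, 9, 15), (4, 10, 15), (5, 6, 11), (5, 6, 16), (5, 12, 16), (6, 11, 17), (6, 16, 17)]
    fin := [0, 0, 0, 0, 0, 5, 5, 0, 8, 9, 10, 5, 5, 13, 14, 15, 16, 17]
    chd := [(0, 5), (0, 9), (0, 10), (0, 13), (0, 15)]
    steps := [(0, 1), (0, 2), (0, 3), (0, 4), (0, 7), (5, 6), (5, 11), (5, 12)] }
  rep := [5, 0, 13, 9, 10, 16, 15, 8, 14, 17]

noncomputable def v1941 : Cov.CovD where
  P := 3
  N := 7
  pl := [1, 7, 9, 10]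
  lev := [⟨[], [], [], [], []⟩,
    ⟨[], [(0, 1), (0, 3)], [(1, 3)], [7], [(0, 1, [0, 2, 3, 4, 6]), (2, 3, [1])]⟩,
    ⟨[(0, 1)], [(0, 0), (0, 2), (0, 4)], [(0, 0), (0, 2), (0, 4), (2, 4)], [], [(3, 4,
      [1]), (4, 0, [1]), (5, 0, [1]), (6, 2, [1])]⟩,
    ⟨[(0, 1), (0, 2), (1, 2)], [(0, 1), (0, 2), (1, 1), (1, 2), (1, 3), (2, 0), (2, 1), (2,
      2), (2, 4)], [(1, 2)], [8], [(0, 1, [0, 2, 3, 4, 6]), (6, 2, [1])]⟩,
    ⟨[(0, 1), (0, 2), (0, 3), (1, 2), (1, 3), (2, 3)], [(0, 3), (0, 4), (0, 6), (1, 1), (1,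
      3), (1, 4), (1, 6), (2, 0), (2, 2), (2, 3), (2, 4), (2, 6)], [(3, 4), (3, 6), (4, 6)],
      [], [(2, 3, [1]), (3, 4, [1]), (8, 6, [1])]⟩,
    ⟨[(0, 2), (2, 3), (2, 4)], [(2, 0), (2, 2), (2, 4)], [(0, 0)], [5], [(4, 0, [1]), (5,
      0, [1])]⟩,
    ⟨[(2, 5)], [(2, 0), (5, 0)], [], [5, 9], [(4, 0, [1])]⟩]
  Ta := [((4, 3), 0, 4), ((4, 10), 0, 9), ((5, 6), 0, 2), ((5, 9), 0, 5)]
  Tb := [((0, 1, 7), 1, 7, 8), ((1, 0, 2), 7, 1, 3), ((2, 1, 8), 3, 7, 6), ((3, 4, 8), 4, 0, 6),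
    ((4, 3, 10), 0, 4, 9), ((5, 6, 9), 0, 2, 5), ((6, 5, 7), 2, 0, 8), ((7, 0, 6), 8, 1, 2),
    ((8, 2, 3), 6, 3, 4), ((9, 5, 10), 5, 0, 9), ((10, 4, 9), 9, 0, 5)]
  Tc := [(1, 0, 2), (1, 0, 3), (1, 0, 4), (1, 0, 6), (1, 2, 3), (1, 2, 4), (1, 2, 6), (1, 3, 4),
    (1, 3, 6), (1, 4, 6)]
  Td := [((0, 1), (4, 3), 4), ((0, 1), (4, 10), 9), ((0, 1), (5, 6), 2), ((0, 1), (5, 9), 5),
    ((1, 0), (0, 1), 7), ((1, 0), (0, 7), 8), ((1, 2), (0, 1), 7), ((1, 2), (0, 7), 8), ((1,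
    3), (0, 1), 7), ((1, 3), (0, 7), 8), ((1, 4), (0, 1), 7), ((1, 4), (0, 7), 8), ((1, 6),
    (0, 1), 7), ((1, 6), (0, 7), 8), ((2, 1), (6, 5), 0), ((2, 1), (6, 7), 8), ((3, 1), (2,
    1), 7), ((3, 1), (2, 8), 6), ((4, 1), (3, 4), 0), ((4, 1), (3, 8), 6), ((6, 1), (8, 2),
    3), ((6, 1), (8, 3), 4)]
  G := [[0, 0x11a114411a1111a11c11c11811c1111a11cec, 0,
    0xca62ca625c6a2c6a25cca62ca625c6a2c6a29cca62ca62cc6a2c6a2ccd1,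
    0xa6c4a6ca6ca6c792a6c1126ca622a6ca6ca6c7a6ca6ca6c79aca62ca629a6c28aca622a6ca6c3a6c29adc],
    [0, 0x11a1111c11c1161111611c11a1111a11ce2,
    0x11c221162211c211c2ce11c2211a2211c211c2ce116211c2c11a211a2ccd1,
    0xc1621a62516a21d629c7162c162516a2c1a25c516c216a2516a2c1a25c8a,
    0x176221daa1c6a1ca1cc1679a416c2216c16ca1c7841e16cc1a79a841e112481e2216ca1c316c29abc]]

noncomputable def n1941 : Ent := ⟨e1941, noF, [], [], [(8, 17, [6903326391201334775872065844685381424292761054348340378595029937623041, 0]), (8, 16, [7334685537875745012586738086077695515070955365108989538292687701618689, 0]), (15, 17, [6903326391201334775872065844685381424292761054348340378595029937635329, 0])]⟩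

def c1941 : PLift (Cov.check n1941.C.D v1941 = true) := ⟨by decide +kernel⟩

def b1941 : PLift (entF (fidx ts) 400 1941 n1941 = true) := ⟨by decide +kernel⟩

theorem g1941 : GoodF (fidx ts) 400 1941 := GoodF.ofV v1941 n1941 c1941.down b1941.down

/-- 4845654:1647/1 -/
noncomputable def e1942 : SCfg where
  D := {
    a := 7
    L := 10
    kp := 7
    inn := [(0, 1), (1, 0), (1, 2), (1, 3), (1, 4), (2, 1), (2, 3), (3, 1), (3, 2), (4, 1), (4, 5), (5,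
      4), (5, 6), (6, 5)]
    mix := [(0, 0), (0, 1), (0, 2), (1, 0), (1, 2), (1, 3), (1, 4), (2, 3), (2, 5), (3, 4), (3, 5), (3,
      6), (4, 0), (4, 4), (4, 7), (4, 8), (5, 4), (5, 7), (5, 9), (6, 4), (6, 6), (6, 9)]
    cl := [0, 6, 1, 0, 0, 2, 4, 3, 7, 5]
    chq := [(0, 3), (3, 0), (3, 4), (4, 3)]
    rng := [(0, 1), (0, 8), (1, 0), (1, 2), (2, 1), (2, 3), (3, 2), (3, 5), (4, 6), (5, 3), (5, 6), (6,
      4), (6, 5), (6, 9), (7, 8), (7, 9), (8, 0), (8, 7), (9, 6), (9, 7)]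
    lev := [] }
  links := [[1, 7, 8, 9], [7, 0, 9, 10, 2, 3, 11, 4], [3, 1, 10, 12], [11, 1, 2, 12, 13], [7, 1, 11, 5,
    14, 15], [14, 4, 11, 6, 16], [16, 5, 11, 13]]
  P := {
    a := 7
    N := 17
    nb := [898, 3741, 5130, 14342, 51362, 84048, 75808, 33043, 641, 1283, 4614, 8314, 9228, 71752,
      98352, 16528, 24672]
    tri := [(0, 1, 7), (0, 1, 9), (0, 7, 8), (0, 8, 9), (1, 2, 3), (1, 2, 10), (1, 3, 11), (1, 4, 7),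
      (1, 4, 11), (1, 9, 10), (2, 3, 12), (2, 10, 12), (3, 11, 13), (3, 12, 13), (4, 5, 11), (4,
      5, 14), (4, 7, 15), (4, 14, 15), (5, 6, 11), (5, 6, 16), (5, 14, 16), (6, 11, 13), (6, 13,
      16)]
    fin := [0, 0, 0, 0, 0, 5, 5, 0, 8, 9, 0, 0, 12, 5, 14, 15, 16]
    chd := [(0, 14), (5, 14)]
    steps := [(0, 1), (0, 2), (0, 3), (0, 4), (0, 7), (0, 10), (0, 11), (5, 6), (5, 13)] }
  rep := [0, 9, 12, 14, 5, 16, 8, 15]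

noncomputable def v1942 : Cov.CovD where
  P := 3
  N := 5
  pl := [1, 2, 5, 8, 9]
  lev := [⟨[], [], [], [1, 6], [(0, 0, [3])]⟩,
    ⟨[], [(0, 0)], [(0, 0)], [1], [(0, 0, [3]), (3, 0, [3]), (4, 0, [3])]⟩,
    ⟨[(0, 1)], [(1, 0)], [], [2], [(3, 0, [3])]⟩,
    ⟨[(0, 1), (1, 2)], [(1, 0), (1, 4), (2, 0), (2, 4)], [(0, 4)], [2], [(4, 0, [3]), (6,
      4, [3])]⟩,
    ⟨[(0, 1), (1, 2), (1, 3)], [(0, 0), (1, 0), (1, 3), (3, 0)], [(0, 0), (0, 3)], [7],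
      [(0, 0, [3]), (4, 0, [3]), (7, 3, [0, 4])]⟩,
    ⟨[(1, 4)], [(1, 0), (3, 0), (4, 0), (4, 3)], [(0, 3)], [5], [(4, 0, [3]), (7, 3, [0,
      4])]⟩,
    ⟨[(4, 5)], [(1, 0), (3, 0), (3, 4), (4, 0), (5, 0), (5, 3), (5, 4)], [(0, 4)], [5],
      [(4, 0, [3]), (6, 4, [3])]⟩]
  Ta := [((0, 1), 0, 6), ((0, 8), 0, 7), ((3, 2), 0, 1), ((3, 5), 0, 2), ((4, 6), 0, 4)]
  Tb := [((0, 1, 8), 0, 6, 7), ((1, 0, 2), 6, 0, 1), ((2, 1, 3), 1, 6, 0), ((3, 2, 5), 0, 1, 2),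
    ((5, 3, 6), 2, 0, 4), ((6, 4, 5), 4, 0, 2), ((6, 4, 9), 4, 0, 5), ((6, 5, 9), 4, 2, 5),
    ((7, 8, 9), 3, 7, 5), ((8, 0, 7), 7, 0, 3), ((9, 6, 7), 5, 4, 3)]
  Tc := [(3, 0, 4)]
  Td := [((0, 3), (0, 1), 6), ((0, 3), (0, 8), 7), ((0, 3), (3, 2), 1), ((0, 3), (3, 5), 2), ((0,
    3), (4, 6), 4), ((3, 0), (7, 8), 7), ((3, 0), (7, 9), 5), ((3, 4), (7, 8), 7), ((3, 4),
    (7, 9), 5), ((4, 3), (6, 4), 0), ((4, 3), (6, 5), 2), ((4, 3), (6, 9), 5)]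
  G := [[0, 0, 0, 0xa44146ca416ace6acea1cc98514612325cc16ac6caa18cc,
    0x21c4214146ace826acee98c184ac6ac66acee3268812cc], [0,
    0xa1146c186ac66a4caed8488382566ace2468e98221c126448e, 0x9a3983648341aaa65249ce241,
    0x142a46ace6cae946ca818c1, 0x344228146ace24a6acee98c1], [0, 0, 0,
    0x8acea86662c4c12ac862ce64aac8c1, 0x8c68ace662c64a6a24ca86a2e8a8c1]]

noncomputable def n1942 : Ent := ⟨e1942, noF, [], [], []⟩

def c1942 : PLift (Cov.check n1942.C.D v1942 = true) := ⟨by decide +kernel⟩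

def b1942 : PLift (entF (fidx ts) 400 1942 n1942 = true) := ⟨by decide +kernel⟩

theorem g1942 : GoodF (fidx ts) 400 1942 := GoodF.ofV v1942 n1942 c1942.down b1942.down

/-- 4845654:1647 -/
noncomputable def e1943 : SCfg where
  D := {
    a := 7
    L := 11
    kp := 8
    inn := [(0, 1), (1, 0), (1, 2), (1, 3), (1, 4), (2, 1), (2, 3), (3, 1), (3, 2), (4, 1), (4, 5), (5,
      4), (5, 6), (6, 5)]
    mix := [(0, 0), (0, 1), (0, 2), (1, 0), (1, 2), (1, 3), (1, 4), (2, 3), (2, 5), (3, 4), (3, 5), (3,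
      6), (4, 0), (4, 4), (4, 7), (4, 8), (5, 4), (5, 7), (5, 9), (6, 4), (6, 9), (6, 10)]
    cl := [0, 6, 1, 0, 0, 2, 7, 3, 8, 4, 5]
    chq := [(0, 3), (3, 0), (3, 5), (5, 3)]
    rng := [(0, 1), (0, 8), (1, 0), (1, 2), (2, 1), (2, 3), (3, 2), (3, 5), (4, 6), (4, 10), (5, 3),
      (5, 6), (6, 4), (6, 5), (7, 8), (7, 9), (8, 0), (8, 7), (9, 7), (9, 10), (10, 4), (10, 9)]
    lev := [] }
  links := [[1, 7, 8, 9], [7, 0, 9, 10, 2, 3, 11, 4], [3, 1, 10, 12], [11, 1, 2, 12, 13], [7, 1, 11, 5,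
    14, 15], [14, 4, 11, 6, 16], [16, 5, 11, 17]]
  P := {
    a := 7
    N := 18
    nb := [898, 3741, 5130, 14342, 51362, 84048, 198688, 33043, 641, 1283, 4614, 139386, 9228, 6152,
      98352, 16528, 147552, 67648]
    tri := [(0, 1, 7), (0, 1, 9), (0, 7, 8), (0, 8, 9), (1, 2, 3), (1, 2, 10), (1, 3, 11), (1, 4, 7),
      (1, 4, 11), (1, 9, 10), (2, 3, 12), (2, 10, 12), (3, 11, 13), (3, 12, 13), (4, 5, 11), (4,
      5, 14), (4, 7, 15), (4, 14, 15), (5, 6, 11), (5, 6, 16), (5, 14, 16), (6, 11, 17), (6, 16,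
      17)]
    fin := [0, 0, 0, 0, 0, 5, 5, 0, 8, 9, 0, 0, 12, 13, 14, 15, 16, 5]
    chd := [(0, 14), (14, 5)]
    steps := [(0, 1), (0, 2), (0, 3), (0, 4), (0, 7), (0, 10), (0, 11), (5, 6), (5, 17)] }
  rep := [0, 9, 12, 14, 16, 5, 8, 13, 15]

noncomputable def v1943 : Cov.CovD where
  P := 3
  N := 6
  pl := [1, 2, 5, 6, 8, 9]
  lev := [⟨[], [], [], [1, 6], [(0, 0, [3])]⟩,
    ⟨[], [(0, 0)], [(0, 0)], [1], [(0, 0, [3]), (3, 0, [3]), (4, 0, [3])]⟩,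
    ⟨[(0, 1)], [(1, 0)], [], [2], [(3, 0, [3])]⟩,
    ⟨[(0, 1), (1, 2)], [(1, 0), (2, 0)], [], [2, 7], [(4, 0, [3])]⟩,
    ⟨[(0, 1), (1, 2), (1, 3)], [(0, 0), (1, 0), (1, 3), (3, 0)], [(0, 0), (0, 3)], [8],
      [(0, 0, [3]), (4, 0, [3]), (7, 3, [0, 5])]⟩,
    ⟨[(1, 4)], [(1, 0), (3, 0), (4, 0), (4, 3)], [(0, 3)], [4], [(4, 0, [3]), (7, 3, [0,
      5])]⟩,
    ⟨[(4, 5)], [(1, 0), (3, 0), (4, 0), (5, 0), (5, 3), (5, 5)], [(0, 5)], [4], [(4, 0,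
      [3]), (10, 5, [3])]⟩]
  Ta := [((0, 1), 0, 6), ((0, 8), 0, 8), ((3, 2), 0, 1), ((3, 5), 0, 2), ((4, 6), 0, 7), ((4,
    10), 0, 5)]
  Tb := [((0, 1, 8), 0, 6, 8), ((1, 0, 2), 6, 0, 1), ((2, 1, 3), 1, 6, 0), ((3, 2, 5), 0, 1, 2),
    ((4, 6, 10), 0, 7, 5), ((5, 3, 6), 2, 0, 7), ((6, 4, 5), 7, 0, 2), ((7, 8, 9), 3, 8, 4),
    ((8, 0, 7), 8, 0, 3), ((9, 7, 10), 4, 3, 5), ((10, 4, 9), 5, 0, 4)]
  Tc := [(3, 0, 5)]
  Td := [((0, 3), (0, 1), 6), ((0, 3), (0, 8), 8), ((0, 3), (3, 2), 1), ((0, 3), (3, 5), 2), ((0,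
    3), (4, 6), 7), ((0, 3), (4, 10), 5), ((3, 0), (7, 8), 8), ((3, 0), (7, 9), 4), ((3, 5),
    (7, 8), 8), ((3, 5), (7, 9), 4), ((5, 3), (10, 4), 0), ((5, 3), (10, 9), 4)]
  G := [[0, 0, 0, 0x6ace6ace6146ace818c21c4824521c48c6ace6acea18cc,
    0xa44126ace6ca6acee12cae54ba54a16ace6acea12cc], [0,
    0x6ace6ace6146ace814c14444e146ace28a6acee98ca, 0xae54ba5dc36686e9481ea342b8a4c1,
    0x6ace6ace6146ace814c1, 0x6ace6ace6186ace812c1], [0, 0, 0,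
    0x6ace6ace66ace6ace6c46ace86ace8c1c1, 0x6ace6ace66ace4a26ace86ace6aceaa8c1]]

noncomputable def n1943 : Ent := ⟨e1943, noF, [], [], [(13, 17, [6903326391201334775872065844685381424292761054348340378595029937643521, 0])]⟩

def c1943 : PLift (Cov.check n1943.C.D v1943 = true) := ⟨by decide +kernel⟩

def b1943 : PLift (entF (fidx ts) 400 1943 n1943 = true) := ⟨by decide +kernel⟩

theorem g1943 : GoodF (fidx ts) 400 1943 := GoodF.ofV v1943 n1943 c1943.down b1943.down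

/-- 4845654:1648/2 -/
noncomputable def e1944 : SCfg where
  D := {
    a := 7
    L := 9
    kp := 6
    inn := [(0, 1), (1, 0), (1, 2), (1, 3), (1, 4), (2, 1), (2, 3), (3, 1), (3, 2), (4, 1), (4, 5), (5,
      4), (5, 6), (6, 5)]
    mix := [(0, 0), (0, 1), (0, 2), (1, 0), (1, 2), (1, 3), (1, 4), (2, 3), (2, 5), (3, 4), (3, 5), (3,
      6), (4, 0), (4, 4), (4, 7), (4, 8), (5, 4), (5, 6), (5, 7), (6, 1), (6, 6), (6, 7)]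
    cl := [0, 1, 2, 0, 0, 5, 4, 3, 6]
    chq := [(0, 3), (3, 0), (3, 4), (4, 3)]
    rng := [(0, 1), (0, 8), (1, 0), (1, 2), (1, 6), (1, 7), (2, 1), (2, 3), (3, 2), (3, 5), (4, 6), (5,
      3), (5, 6), (6, 1), (6, 4), (6, 5), (7, 1), (7, 8), (8, 0), (8, 7)]
    lev := [] }
  links := [[1, 7, 8, 9], [7, 0, 9, 10, 2, 3, 11, 4], [3, 1, 10, 12], [11, 1, 2, 12, 13], [7, 1, 11, 5,
    14, 15], [14, 4, 11, 13, 6], [14, 5, 13, 8]]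
  P := {
    a := 7
    N := 16
    nb := [898, 3741, 5130, 14342, 51362, 26704, 24864, 33043, 25281, 1283, 4614, 8250, 9228, 6504,
      33136, 16528]
    tri := [(0, 1, 7), (0, 1, 9), (0, 7, 8), (0, 8, 9), (1, 2, 3), (1, 2, 10), (1, 3, 11), (1, 4, 7),
      (1, 4, 11), (1, 9, 10), (2, 3, 12), (2, 10, 12), (3, 11, 13), (3, 12, 13), (4, 5, 11), (4,
      5, 14), (4, 7, 15), (4, 14, 15), (5, 6, 13), (5, 6, 14), (5, 11, 13), (6, 8, 13), (6, 8,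
      14)]
    fin := [0, 0, 0, 0, 0, 5, 6, 0, 6, 9, 0, 0, 12, 5, 14, 15]
    chd := [(0, 14), (5, 14)]
    steps := [(0, 1), (0, 2), (0, 3), (0, 4), (0, 7), (0, 10), (0, 11), (5, 13), (6, 8)] }
  rep := [0, 6, 9, 14, 5, 12, 15]

noncomputable def v1944 : Cov.CovD where
  P := 3
  N := 4
  pl := [1, 2, 5, 8]
  lev := [⟨[], [], [], [1, 2], [(0, 0, [3])]⟩,
    ⟨[], [(0, 0)], [(0, 0)], [2], [(0, 0, [3]), (3, 0, [3]), (4, 0, [3])]⟩,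
    ⟨[(0, 1)], [(1, 0)], [], [5], [(3, 0, [3])]⟩,
    ⟨[(0, 1), (1, 2)], [(1, 0), (1, 4), (2, 0), (2, 4)], [(0, 4)], [5], [(4, 0, [3]), (6,
      4, [3])]⟩,
    ⟨[(0, 1), (1, 2), (1, 3)], [(0, 0), (1, 0), (1, 3), (3, 0)], [(0, 0), (0, 3)], [6],
      [(0, 0, [3]), (4, 0, [3]), (7, 3, [0, 4])]⟩,
    ⟨[(1, 4)], [(1, 0), (3, 0), (3, 4), (4, 0), (4, 3), (4, 4)], [(0, 3), (0, 4), (3, 4)],
      [], [(4, 0, [3]), (6, 4, [3]), (7, 3, [0, 4])]⟩,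
    ⟨[(4, 5)], [(3, 4), (4, 3), (5, 0), (5, 3), (5, 4)], [(3, 4)], [1], [(6, 4, [3]), (7,
      3, [0, 4])]⟩]
  Ta := [((0, 1), 0, 1), ((0, 8), 0, 6), ((3, 2), 0, 2), ((3, 5), 0, 5), ((4, 6), 0, 4)]
  Tb := [((0, 1, 8), 0, 1, 6), ((1, 0, 2), 1, 0, 2), ((1, 0, 6), 1, 0, 4), ((1, 0, 7), 1, 0, 3),
    ((1, 2, 6), 1, 2, 4), ((1, 2, 7), 1, 2, 3), ((1, 6, 7), 1, 4, 3), ((2, 1, 3), 2, 1, 0),
    ((3, 2, 5), 0, 2, 5), ((5, 3, 6), 5, 0, 4), ((6, 1, 4), 4, 1, 0), ((6, 1, 5), 4, 1, 5),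
    ((6, 4, 5), 4, 0, 5), ((7, 1, 8), 3, 1, 6), ((8, 0, 7), 6, 0, 3)]
  Tc := [(3, 0, 4)]
  Td := [((0, 3), (0, 1), 1), ((0, 3), (0, 8), 6), ((0, 3), (3, 2), 2), ((0, 3), (3, 5), 5), ((0,
    3), (4, 6), 4), ((3, 0), (7, 1), 1), ((3, 0), (7, 8), 6), ((3, 4), (7, 1), 1), ((3, 4),
    (7, 8), 6), ((4, 3), (6, 1), 1), ((4, 3), (6, 4), 0), ((4, 3), (6, 5), 5)]
  G := [[0, 0x41e162245481e1e1e842878e1c121e69c8, 0, 0x121212e11212a11242e48,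
    0x1221111e111e616141e811ec1111e81aa8], [0, 0, 0x1221111e111e616141e111ec1141e81aa4,
    0x121212e1121212e2681, 0x11621118712a1443a1811a88e8111e1414ce81a45ca1], [0, 0, 0,
    0x52d269242d2e921212ee184, 0x122122122e118815e84ce149e1484ce149e815ece1a1]]

noncomputable def n1944 : Ent := ⟨e1944, noF, [], [], []⟩

def c1944 : PLift (Cov.check n1944.C.D v1944 = true) := ⟨by decide +kernel⟩

def b1944 : PLift (entF (fidx ts) 400 1944 n1944 = true) := ⟨by decide +kernel⟩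

theorem g1944 : GoodF (fidx ts) 400 1944 := GoodF.ofV v1944 n1944 c1944.down b1944.down

/-- 4845654:1648/1 -/
noncomputable def e1945 : SCfg where
  D := {
    a := 7
    L := 10
    kp := 7
    inn := [(0, 1), (1, 0), (1, 2), (1, 3), (1, 4), (2, 1), (2, 3), (3, 1), (3, 2), (4, 1), (4, 5), (5,
      4), (5, 6), (6, 5)]
    mix := [(0, 0), (0, 1), (0, 2), (1, 0), (1, 2), (1, 3), (1, 4), (2, 3), (2, 5), (3, 4), (3, 5), (3,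
      6), (4, 0), (4, 4), (4, 7), (4, 8), (5, 4), (5, 7), (5, 9), (6, 1), (6, 7), (6, 9)]
    cl := [0, 1, 2, 0, 0, 5, 6, 3, 7, 4]
    chq := [(0, 3), (3, 0), (3, 4), (4, 3)]
    rng := [(0, 1), (0, 8), (1, 0), (1, 2), (1, 7), (1, 9), (2, 1), (2, 3), (3, 2), (3, 5), (4, 6), (4,
      9), (5, 3), (5, 6), (6, 4), (6, 5), (7, 1), (7, 8), (8, 0), (8, 7), (9, 1), (9, 4)]
    lev := [] }
  links := [[1, 7, 8, 9], [7, 0, 9, 10, 2, 3, 11, 4], [3, 1, 10, 12], [11, 1, 2, 12, 13], [7, 1, 11, 5,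
    14, 15], [14, 4, 11, 16, 6], [14, 5, 16, 8]]
  P := {
    a := 7
    N := 17
    nb := [898, 3741, 5130, 14342, 51362, 84048, 82208, 33043, 82625, 1283, 4614, 73786, 9228, 6152,
      33136, 16528, 2400]
    tri := [(0, 1, 7), (0, 1, 9), (0, 7, 8), (0, 8, 9), (1, 2, 3), (1, 2, 10), (1, 3, 11), (1, 4, 7),
      (1, 4, 11), (1, 9, 10), (2, 3, 12), (2, 10, 12), (3, 11, 13), (3, 12, 13), (4, 5, 11), (4,
      5, 14), (4, 7, 15), (4, 14, 15), (5, 6, 14), (5, 6, 16), (5, 11, 16), (6, 8, 14), (6, 8,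
      16)]
    fin := [0, 0, 0, 0, 0, 5, 6, 0, 6, 9, 0, 0, 12, 13, 14, 15, 5]
    chd := [(0, 14), (14, 5)]
    steps := [(0, 1), (0, 2), (0, 3), (0, 4), (0, 7), (0, 10), (0, 11), (5, 16), (6, 8)] }
  rep := [0, 6, 9, 14, 5, 12, 13, 15]

noncomputable def v1945 : Cov.CovD where
  P := 3
  N := 5
  pl := [1, 2, 5, 6, 8]
  lev := [⟨[], [], [], [1, 2], [(0, 0, [3])]⟩,
    ⟨[], [(0, 0)], [(0, 0)], [2], [(0, 0, [3]), (3, 0, [3]), (4, 0, [3])]⟩,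
    ⟨[(0, 1)], [(1, 0)], [], [5], [(3, 0, [3])]⟩,
    ⟨[(0, 1), (1, 2)], [(1, 0), (2, 0)], [], [5, 6], [(4, 0, [3])]⟩,
    ⟨[(0, 1), (1, 2), (1, 3)], [(0, 0), (1, 0), (1, 3), (3, 0)], [(0, 0), (0, 3)], [7],
      [(0, 0, [3]), (4, 0, [3]), (7, 3, [0, 4])]⟩,
    ⟨[(1, 4)], [(1, 0), (3, 0), (4, 0), (4, 3), (4, 4)], [(0, 3), (0, 4), (3, 4)], [], [(4,
      0, [3]), (7, 3, [0, 4]), (9, 4, [3])]⟩,
    ⟨[(4, 5)], [(4, 3), (5, 0), (5, 3), (5, 4)], [(3, 4)], [1], [(7, 3, [0, 4]), (9, 4,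
      [3])]⟩]
  Ta := [((0, 1), 0, 1), ((0, 8), 0, 7), ((3, 2), 0, 2), ((3, 5), 0, 5), ((4, 6), 0, 6), ((4, 9),
    0, 4)]
  Tb := [((0, 1, 8), 0, 1, 7), ((1, 0, 2), 1, 0, 2), ((1, 0, 7), 1, 0, 3), ((1, 0, 9), 1, 0, 4),
    ((1, 2, 7), 1, 2, 3), ((1, 2, 9), 1, 2, 4), ((1, 7, 9), 1, 3, 4), ((2, 1, 3), 2, 1, 0),
    ((3, 2, 5), 0, 2, 5), ((4, 6, 9), 0, 6, 4), ((5, 3, 6), 5, 0, 6), ((6, 4, 5), 6, 0, 5),
    ((7, 1, 8), 3, 1, 7), ((8, 0, 7), 7, 0, 3), ((9, 1, 4), 4, 1, 0)]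
  Tc := [(3, 0, 4)]
  Td := [((0, 3), (0, 1), 1), ((0, 3), (0, 8), 7), ((0, 3), (3, 2), 2), ((0, 3), (3, 5), 5), ((0,
    3), (4, 6), 6), ((0, 3), (4, 9), 4), ((3, 0), (7, 1), 1), ((3, 0), (7, 8), 7), ((3, 4),
    (7, 1), 1), ((3, 4), (7, 8), 7), ((4, 3), (9, 1), 1), ((4, 3), (9, 4), 0)]
  G := [[0, 0x41482a88654e1e1e1e2c361ae1e14a5ee1c8, 0, 0x12126121212c11212a1cc8,
    0x811e21111e811e616141e81141e111ec1ca8], [0, 0, 0x141e841ea1111e111ea16811e41111e41a68,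
    0x12126121212ec128121263612818c4, 0x1c32c114143e1281a18ed1c3811e18e811e236141e1c3c88a1],
    [0, 0, 0, 0x52d269252d2e9252d2ee192881c4,
    0x122841e2841e2e1149e815e84ce8149e815ec149e815ec69a1]]

noncomputable def n1945 : Ent := ⟨e1945, noF, [], [], [(13, 16, [1580044410770988437309982408355971841652082177953823432505697075201, 0])]⟩

def c1945 : PLift (Cov.check n1945.C.D v1945 = true) := ⟨by decide +kernel⟩

def b1945 : PLift (entF (fidx ts) 400 1945 n1945 = true) := ⟨by decide +kernel⟩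

theorem g1945 : GoodF (fidx ts) 400 1945 := GoodF.ofV v1945 n1945 c1945.down b1945.down

/-- 4845654:1648/4 -/
noncomputable def e1946 : SCfg where
  D := {
    a := 7
    L := 9
    kp := 6
    inn := [(0, 1), (1, 0), (1, 2), (1, 3), (1, 4), (2, 1), (2, 3), (3, 1), (3, 2), (4, 1), (4, 5), (5,
      4), (5, 6), (6, 5)]
    mix := [(0, 0), (0, 1), (0, 2), (1, 0), (1, 2), (1, 3), (1, 4), (2, 3), (2, 5), (3, 4), (3, 5), (3,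
      6), (4, 0), (4, 4), (4, 7), (4, 8), (5, 4), (5, 6), (5, 7), (6, 5), (6, 6), (6, 7)]
    cl := [0, 5, 2, 0, 0, 1, 4, 3, 6]
    chq := [(0, 3), (3, 0), (3, 4), (4, 3)]
    rng := [(0, 1), (0, 8), (1, 0), (1, 2), (2, 1), (2, 3), (3, 2), (3, 5), (4, 6), (5, 3), (5, 6), (5,
      7), (6, 4), (6, 5), (7, 5), (7, 8), (8, 0), (8, 7)]
    lev := [] }
  links := [[1, 7, 8, 9], [7, 0, 9, 10, 2, 3, 11, 4], [3, 1, 10, 12], [11, 1, 2, 12, 13], [7, 1, 11, 5,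
    14, 15], [14, 4, 11, 13, 6], [14, 5, 13, 12]]
  P := {
    a := 7
    N := 16
    nb := [898, 3741, 5130, 14342, 51362, 26704, 28704, 33043, 641, 1283, 4614, 8250, 25676, 6248,
      36976, 16528]
    tri := [(0, 1, 7), (0, 1, 9), (0, 7, 8), (0, 8, 9), (1, 2, 3), (1, 2, 10), (1, 3, 11), (1, 4, 7),
      (1, 4, 11), (1, 9, 10), (2, 3, 12), (2, 10, 12), (3, 11, 13), (3, 12, 13), (4, 5, 11), (4,
      5, 14), (4, 7, 15), (4, 14, 15), (5, 6, 13), (5, 6, 14), (5, 11, 13), (6, 12, 13), (6, 12,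
      14)]
    fin := [0, 0, 0, 0, 0, 5, 6, 0, 8, 9, 0, 0, 6, 5, 14, 15]
    chd := [(0, 14), (5, 14)]
    steps := [(0, 1), (0, 2), (0, 3), (0, 4), (0, 7), (0, 10), (0, 11), (5, 13), (6, 12)] }
  rep := [0, 6, 9, 14, 5, 8, 15]

noncomputable def v1946 : Cov.CovD where
  P := 3
  N := 4
  pl := [1, 2, 5, 8]
  lev := [⟨[], [], [], [2, 5], [(0, 0, [3])]⟩,
    ⟨[], [(0, 0)], [(0, 0)], [2], [(0, 0, [3]), (3, 0, [3]), (4, 0, [3])]⟩,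
    ⟨[(0, 1)], [(1, 0)], [], [1], [(3, 0, [3])]⟩,
    ⟨[(0, 1), (1, 2)], [(1, 0), (1, 4), (2, 0), (2, 4)], [(0, 4)], [1], [(4, 0, [3]), (6,
      4, [3])]⟩,
    ⟨[(0, 1), (1, 2), (1, 3)], [(0, 0), (1, 0), (1, 3), (3, 0)], [(0, 0), (0, 3)], [6],
      [(0, 0, [3]), (4, 0, [3]), (7, 3, [0, 4])]⟩,
    ⟨[(1, 4)], [(1, 0), (3, 0), (3, 4), (4, 0), (4, 3), (4, 4)], [(0, 3), (0, 4), (3, 4)],
      [], [(4, 0, [3]), (6, 4, [3]), (7, 3, [0, 4])]⟩,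
    ⟨[(4, 5)], [(3, 4), (4, 3), (5, 0), (5, 3), (5, 4)], [(3, 4)], [1], [(6, 4, [3]), (7,
      3, [0, 4])]⟩]
  Ta := [((0, 1), 0, 5), ((0, 8), 0, 6), ((3, 2), 0, 2), ((3, 5), 0, 1), ((4, 6), 0, 4)]
  Tb := [((0, 1, 8), 0, 5, 6), ((1, 0, 2), 5, 0, 2), ((2, 1, 3), 2, 5, 0), ((3, 2, 5), 0, 2, 1),
    ((5, 3, 6), 1, 0, 4), ((5, 3, 7), 1, 0, 3), ((5, 6, 7), 1, 4, 3), ((6, 4, 5), 4, 0, 1),
    ((7, 5, 8), 3, 1, 6), ((8, 0, 7), 6, 0, 3)]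
  Tc := [(3, 0, 4)]
  Td := [((0, 3), (0, 1), 5), ((0, 3), (0, 8), 6), ((0, 3), (3, 2), 2), ((0, 3), (3, 5), 1), ((0,
    3), (4, 6), 4), ((3, 0), (7, 5), 1), ((3, 0), (7, 8), 6), ((3, 4), (7, 5), 1), ((3, 4),
    (7, 8), 6), ((4, 3), (6, 4), 0), ((4, 3), (6, 5), 1)]
  G := [[0, 0, 0, 0x14441111e81a841ee18c111e418111e811ea18cc,
    0x111e111e614111e818a416811e111ee1418814aa], [0, 0x8141c1ee1a121e6281,
    0x111e111e614141e818c811e841e614111e818ca, 0x416811e841ee1418884c1,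
    0x811e218111e811ec14a1], [0, 0, 0, 0x49694416e441815a81ae88c1,
    0x81a841e619614612ec158888a1]]

noncomputable def n1946 : Ent := ⟨e1946, noF, [], [], []⟩

def c1946 : PLift (Cov.check n1946.C.D v1946 = true) := ⟨by decide +kernel⟩

def b1946 : PLift (entF (fidx ts) 400 1946 n1946 = true) := ⟨by decide +kernel⟩

theorem g1946 : GoodF (fidx ts) 400 1946 := GoodF.ofV v1946 n1946 c1946.down b1946.down

/-- 4845654:1648/3 -/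
noncomputable def e1947 : SCfg where
  D := {
    a := 7
    L := 10
    kp := 7
    inn := [(0, 1), (1, 0), (1, 2), (1, 3), (1, 4), (2, 1), (2, 3), (3, 1), (3, 2), (4, 1), (4, 5), (5,
      4), (5, 6), (6, 5)]
    mix := [(0, 0), (0, 1), (0, 2), (1, 0), (1, 2), (1, 3), (1, 4), (2, 3), (2, 5), (3, 4), (3, 5), (3,
      6), (4, 0), (4, 4), (4, 7), (4, 8), (5, 4), (5, 7), (5, 9), (6, 5), (6, 7), (6, 9)]
    cl := [0, 5, 2, 0, 0, 1, 6, 3, 7, 4]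
    chq := [(0, 3), (3, 0), (3, 4), (4, 3)]
    rng := [(0, 1), (0, 8), (1, 0), (1, 2), (2, 1), (2, 3), (3, 2), (3, 5), (4, 6), (4, 9), (5, 3), (5,
      6), (5, 7), (5, 9), (6, 4), (6, 5), (7, 5), (7, 8), (8, 0), (8, 7), (9, 4), (9, 5)]
    lev := [] }
  links := [[1, 7, 8, 9], [7, 0, 9, 10, 2, 3, 11, 4], [3, 1, 10, 12], [11, 1, 2, 12, 13], [7, 1, 11, 5,
    14, 15], [14, 4, 11, 16, 6], [14, 5, 16, 12]]
  P := {
    a := 7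
    N := 17
    nb := [898, 3741, 5130, 14342, 51362, 84048, 86048, 33043, 641, 1283, 4614, 73786, 91212, 6152,
      36976, 16528, 6240]
    tri := [(0, 1, 7), (0, 1, 9), (0, 7, 8), (0, 8, 9), (1, 2, 3), (1, 2, 10), (1, 3, 11), (1, 4, 7),
      (1, 4, 11), (1, 9, 10), (2, 3, 12), (2, 10, 12), (3, 11, 13), (3, 12, 13), (4, 5, 11), (4,
      5, 14), (4, 7, 15), (4, 14, 15), (5, 6, 14), (5, 6, 16), (5, 11, 16), (6, 12, 14), (6, 12,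
      16)]
    fin := [0, 0, 0, 0, 0, 5, 6, 0, 8, 9, 0, 0, 6, 13, 14, 15, 5]
    chd := [(0, 14), (14, 5)]
    steps := [(0, 1), (0, 2), (0, 3), (0, 4), (0, 7), (0, 10), (0, 11), (5, 16), (6, 12)] }
  rep := [0, 6, 9, 14, 5, 8, 13, 15]

noncomputable def v1947 : Cov.CovD where
  P := 3
  N := 5
  pl := [1, 2, 5, 6, 8]
  lev := [⟨[], [], [], [2, 5], [(0, 0, [3])]⟩,
    ⟨[], [(0, 0)], [(0, 0)], [2], [(0, 0, [3]), (3, 0, [3]), (4, 0, [3])]⟩,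
    ⟨[(0, 1)], [(1, 0)], [], [1], [(3, 0, [3])]⟩,
    ⟨[(0, 1), (1, 2)], [(1, 0), (2, 0)], [], [1, 6], [(4, 0, [3])]⟩,
    ⟨[(0, 1), (1, 2), (1, 3)], [(0, 0), (1, 0), (1, 3), (3, 0)], [(0, 0), (0, 3)], [7],
      [(0, 0, [3]), (4, 0, [3]), (7, 3, [0, 4])]⟩,
    ⟨[(1, 4)], [(1, 0), (3, 0), (4, 0), (4, 3), (4, 4)], [(0, 3), (0, 4), (3, 4)], [], [(4,
      0, [3]), (7, 3, [0, 4]), (9, 4, [3])]⟩,
    ⟨[(4, 5)], [(4, 3), (5, 0), (5, 3), (5, 4)], [(3, 4)], [1], [(7, 3, [0, 4]), (9, 4,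
      [3])]⟩]
  Ta := [((0, 1), 0, 5), ((0, 8), 0, 7), ((3, 2), 0, 2), ((3, 5), 0, 1), ((4, 6), 0, 6), ((4, 9),
    0, 4)]
  Tb := [((0, 1, 8), 0, 5, 7), ((1, 0, 2), 5, 0, 2), ((2, 1, 3), 2, 5, 0), ((3, 2, 5), 0, 2, 1),
    ((4, 6, 9), 0, 6, 4), ((5, 3, 6), 1, 0, 6), ((5, 3, 7), 1, 0, 3), ((5, 3, 9), 1, 0, 4),
    ((5, 6, 7), 1, 6, 3), ((5, 6, 9), 1, 6, 4), ((5, 7, 9), 1, 3, 4), ((6, 4, 5), 6, 0, 1),
    ((7, 5, 8), 3, 1, 7), ((8, 0, 7), 7, 0, 3), ((9, 4, 5), 4, 0, 1)]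
  Tc := [(3, 0, 4)]
  Td := [((0, 3), (0, 1), 5), ((0, 3), (0, 8), 7), ((0, 3), (3, 2), 2), ((0, 3), (3, 5), 1), ((0,
    3), (4, 6), 6), ((0, 3), (4, 9), 4), ((3, 0), (7, 5), 1), ((3, 0), (7, 8), 7), ((3, 4),
    (7, 5), 1), ((3, 4), (7, 8), 7), ((4, 3), (9, 4), 0), ((4, 3), (9, 5), 1)]
  G := [[0, 0, 0, 0x111e141e614141e818c811e418141e141ea18cc,
    0x811e141e614111e818a811e111e618141e814aa], [0, 0xe1e16e1e1ae1e1ce481,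
    0x141e141ea144111e141e6188141e111ec182e, 0x811e414141e841ea14c1, 0x811e141e614141e814a1],
    [0, 0, 0, 0x815e4815e841e6c1149e841ea149e8c8c1, 0x149e24815e841e68c149e8149e815ecc1a1]]

noncomputable def n1947 : Ent := ⟨e1947, noF, [], [], [(13, 16, [1580044410770988437309982408355971841652082177953823432505697083393, 0])]⟩

def c1947 : PLift (Cov.check n1947.C.D v1947 = true) := ⟨by decide +kernel⟩

def b1947 : PLift (entF (fidx ts) 400 1947 n1947 = true) := ⟨by decide +kernel⟩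

theorem g1947 : GoodF (fidx ts) 400 1947 := GoodF.ofV v1947 n1947 c1947.down b1947.down

/-- 4845654:1648/5 -/
noncomputable def e1948 : SCfg where
  D := {
    a := 7
    L := 10
    kp := 7
    inn := [(0, 1), (1, 0), (1, 2), (1, 3), (1, 4), (2, 1), (2, 3), (3, 1), (3, 2), (4, 1), (4, 5), (5,
      4), (5, 6), (6, 5)]
    mix := [(0, 0), (0, 1), (0, 2), (1, 0), (1, 2), (1, 3), (1, 4), (2, 3), (2, 5), (3, 4), (3, 5), (3,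
      6), (4, 0), (4, 4), (4, 7), (4, 8), (5, 4), (5, 6), (5, 7), (6, 6), (6, 7), (6, 9)]
    cl := [0, 6, 2, 0, 0, 4, 1, 3, 5, 7]
    chq := [(1, 3), (1, 5), (3, 1), (5, 1)]
    rng := [(0, 1), (0, 8), (1, 0), (1, 2), (2, 1), (2, 3), (3, 2), (3, 5), (4, 6), (5, 3), (5, 6), (6,
      4), (6, 5), (6, 9), (7, 8), (7, 9), (8, 0), (8, 7), (9, 6), (9, 7)]
    lev := [] }
  links := [[1, 7, 8, 9], [7, 0, 9, 10, 2, 3, 11, 4], [3, 1, 10, 12], [11, 1, 2, 12, 13], [7, 1, 11, 5,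
    14, 15], [14, 4, 11, 13, 6], [14, 5, 13, 16]]
  P := {
    a := 7
    N := 17
    nb := [898, 3741, 5130, 14342, 51362, 26704, 90144, 33043, 641, 1283, 4614, 8250, 9228, 71784,
      98416, 16528, 24640]
    tri := [(0, 1, 7), (0, 1, 9), (0, 7, 8), (0, 8, 9), (1, 2, 3), (1, 2, 10), (1, 3, 11), (1, 4, 7),
      (1, 4, 11), (1, 9, 10), (2, 3, 12), (2, 10, 12), (3, 11, 13), (3, 12, 13), (4, 5, 11), (4,
      5, 14), (4, 7, 15), (4, 14, 15), (5, 6, 13), (5, 6, 14), (5, 11, 13), (6, 13, 16), (6, 14,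
      16)]
    fin := [0, 0, 0, 0, 4, 4, 4, 0, 8, 9, 0, 0, 12, 4, 14, 15, 16]
    chd := [(4, 14), (4, 15)]
    steps := [(0, 1), (0, 2), (0, 3), (0, 7), (0, 10), (0, 11), (4, 5), (4, 6), (4, 13)] }
  rep := [0, 4, 9, 14, 12, 15, 8, 16]

noncomputable def v1948 : Cov.CovD where
  P := 3
  N := 5
  pl := [1, 2, 5, 9]
  lev := [⟨[], [], [], [2, 6], [(0, 0, [])]⟩,
    ⟨[], [(0, 0)], [(0, 0)], [2], [(0, 0, []), (3, 0, []), (4, 0, [])]⟩,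
    ⟨[(0, 1)], [(1, 0)], [], [4], [(3, 0, [])]⟩,
    ⟨[(0, 1), (1, 2)], [(1, 0), (1, 1), (2, 0), (2, 1)], [(0, 1)], [4], [(4, 0, []), (6, 1,
      [3, 5])]⟩,
    ⟨[(0, 1), (1, 2), (1, 3)], [(0, 0), (1, 0), (1, 3), (1, 5), (3, 0)], [(0, 0), (0, 3),
      (0, 5), (3, 5)], [], [(0, 0, []), (4, 0, []), (7, 3, [1]), (8, 5, [1])]⟩,
    ⟨[(1, 4)], [(1, 0), (3, 0), (3, 1), (4, 0), (4, 1), (4, 3), (4, 5)], [(0, 1), (0, 3),
      (1, 3)], [], [(4, 0, []), (6, 1, [3, 5]), (7, 3, [1])]⟩,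
    ⟨[(4, 5)], [(3, 1), (4, 3), (5, 0), (5, 1), (5, 3)], [(1, 3)], [7], [(6, 1, [3, 5]),
      (7, 3, [1])]⟩]
  Ta := [((0, 1), 0, 6), ((0, 8), 0, 5), ((3, 2), 0, 2), ((3, 5), 0, 4), ((4, 6), 0, 1)]
  Tb := [((0, 1, 8), 0, 6, 5), ((1, 0, 2), 6, 0, 2), ((2, 1, 3), 2, 6, 0), ((3, 2, 5), 0, 2, 4),
    ((5, 3, 6), 4, 0, 1), ((6, 4, 5), 1, 0, 4), ((6, 4, 9), 1, 0, 7), ((6, 5, 9), 1, 4, 7),
    ((7, 8, 9), 3, 5, 7), ((8, 0, 7), 5, 0, 3), ((9, 6, 7), 7, 1, 3)]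
  Tc := [(1, 3, 5)]
  Td := [((1, 3), (6, 4), 0), ((1, 3), (6, 5), 4), ((1, 3), (6, 9), 7), ((1, 5), (6, 4), 0), ((1,
    5), (6, 5), 4), ((1, 5), (6, 9), 7), ((3, 1), (7, 8), 5), ((3, 1), (7, 9), 7), ((5, 1),
    (8, 0), 0), ((5, 1), (8, 7), 3)]
  G := [[0, 0, 0, 0x95c2195c243895c2195c21a4c, 0x95c2195c243895c295c2c18a], [0, 0,
    0x95c214495c218895c2128e, 0x95c2895c21a41, 0x95c2495c28681], [0,
    0xca6c6a268ee8688ec6aa6ce2a41, 0, 0x95c295c2c141, 0x95c295c2c181]]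

noncomputable def n1948 : Ent := ⟨e1948, noF, [], [], [(8, 16, [1580044410770988437309982408355971841652082177953823432505697075201, 0]), (12, 16, [1580044410770988437309982408355971841652082177953823432505697083393, 0])]⟩

def c1948 : PLift (Cov.check n1948.C.D v1948 = true) := ⟨by decide +kernel⟩

def b1948 : PLift (entF (fidx ts) 400 1948 n1948 = true) := ⟨by decide +kernel⟩

theorem g1948 : GoodF (fidx ts) 400 1948 := GoodF.ofV v1948 n1948 c1948.down b1948.down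

/-- 4845654:1648 -/
noncomputable def e1949 : SCfg where
  D := {
    a := 7
    L := 11
    kp := 8
    inn := [(0, 1), (1, 0), (1, 2), (1, 3), (1, 4), (2, 1), (2, 3), (3, 1), (3, 2), (4, 1), (4, 5), (5,
      4), (5, 6), (6, 5)]
    mix := [(0, 0), (0, 1), (0, 2), (1, 0), (1, 2), (1, 3), (1, 4), (2, 3), (2, 5), (3, 4), (3, 5), (3,
      6), (4, 0), (4, 4), (4, 7), (4, 8), (5, 4), (5, 7), (5, 9), (6, 7), (6, 9), (6, 10)]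
    cl := [0, 6, 2, 0, 0, 4, 7, 3, 5, 1, 8]
    chq := [(1, 3), (1, 5), (3, 1), (5, 1)]
    rng := [(0, 1), (0, 8), (1, 0), (1, 2), (2, 1), (2, 3), (3, 2), (3, 5), (4, 6), (4, 9), (5, 3), (5,
      6), (6, 4), (6, 5), (7, 8), (7, 10), (8, 0), (8, 7), (9, 4), (9, 10), (10, 7), (10, 9)]
    lev := [] }
  links := [[1, 7, 8, 9], [7, 0, 9, 10, 2, 3, 11, 4], [3, 1, 10, 12], [11, 1, 2, 12, 13], [7, 1, 11, 5,
    14, 15], [14, 4, 11, 16, 6], [14, 5, 16, 17]]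
  P := {
    a := 7
    N := 18
    nb := [898, 3741, 5130, 14342, 51362, 84048, 213024, 33043, 641, 1283, 4614, 73786, 9228, 6152,
      163952, 16528, 133216, 81984]
    tri := [(0, 1, 7), (0, 1, 9), (0, 7, 8), (0, 8, 9), (1, 2, 3), (1, 2, 10), (1, 3, 11), (1, 4, 7),
      (1, 4, 11), (1, 9, 10), (2, 3, 12), (2, 10, 12), (3, 11, 13), (3, 12, 13), (4, 5, 11), (4,
      5, 14), (4, 7, 15), (4, 14, 15), (5, 6, 14), (5, 6, 16), (5, 11, 16), (6, 14, 17), (6, 16,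
      17)]
    fin := [0, 0, 0, 0, 4, 4, 4, 0, 8, 9, 0, 0, 12, 13, 14, 15, 4, 17]
    chd := [(14, 4), (15, 4)]
    steps := [(0, 1), (0, 2), (0, 3), (0, 7), (0, 10), (0, 11), (4, 5), (4, 6), (4, 16)] }
  rep := [0, 4, 9, 14, 12, 15, 8, 13, 17]

noncomputable def v1949 : Cov.CovD where
  P := 3
  N := 6
  pl := [1, 2, 5, 6, 10]
  lev := [⟨[], [], [], [2, 6], [(0, 0, [])]⟩,
    ⟨[], [(0, 0)], [(0, 0)], [2], [(0, 0, []), (3, 0, []), (4, 0, [])]⟩,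
    ⟨[(0, 1)], [(1, 0)], [], [4], [(3, 0, [])]⟩,
    ⟨[(0, 1), (1, 2)], [(1, 0), (2, 0)], [], [4, 7], [(4, 0, [])]⟩,
    ⟨[(0, 1), (1, 2), (1, 3)], [(0, 0), (1, 0), (1, 3), (1, 5), (3, 0)], [(0, 0), (0, 3),
      (0, 5), (3, 5)], [], [(0, 0, []), (4, 0, []), (7, 3, [1]), (8, 5, [1])]⟩,
    ⟨[(1, 4)], [(1, 0), (3, 0), (4, 0), (4, 1), (4, 3), (4, 5)], [(0, 1), (0, 3), (1, 3)],
      [], [(4, 0, []), (7, 3, [1]), (9, 1, [3, 5])]⟩,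
    ⟨[(4, 5)], [(4, 3), (5, 0), (5, 1), (5, 3)], [(1, 3)], [8], [(7, 3, [1]), (9, 1, [3,
      5])]⟩]
  Ta := [((0, 1), 0, 6), ((0, 8), 0, 5), ((3, 2), 0, 2), ((3, 5), 0, 4), ((4, 6), 0, 7), ((4, 9),
    0, 1)]
  Tb := [((0, 1, 8), 0, 6, 5), ((1, 0, 2), 6, 0, 2), ((2, 1, 3), 2, 6, 0), ((3, 2, 5), 0, 2, 4),
    ((4, 6, 9), 0, 7, 1), ((5, 3, 6), 4, 0, 7), ((6, 4, 5), 7, 0, 4), ((7, 8, 10), 3, 5, 8),
    ((8, 0, 7), 5, 0, 3), ((9, 4, 10), 1, 0, 8), ((10, 7, 9), 8, 3, 1)]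
  Tc := [(1, 3, 5)]
  Td := [((1, 3), (9, 4), 0), ((1, 3), (9, 10), 8), ((1, 5), (9, 4), 0), ((1, 5), (9, 10), 8),
    ((3, 1), (7, 8), 5), ((3, 1), (7, 10), 8), ((5, 1), (8, 0), 0), ((5, 1), (8, 7), 3)]
  G := [[0, 0, 0, 0x95c2195c216495c2195c21a4c, 0x95c2195c216895c2195c21a8a], [0, 0,
    0x95c218495c214895c2124e, 0x95c2195c2295c24e41, 0x95c2195c295c26a81], [0,
    0xc24ea6c6ca64a4e22ceeca6c6a268eee1ca6881c1, 0, 0x95c295c295c2e141, 0x95c295c295c2e181]]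

noncomputable def n1949 : Ent := ⟨e1949, noF, [], [], [(8, 17, [6903326391201334775872065844685381424292761054348340378595029937655809, 0]), (12, 17, [6903326391201334775872065844685381424292761054348340378595029937664001, 0]), (13, 16, [7334685537875745012586738086077695515070955365108989538292687701655553, 0])]⟩

def c1949 : PLift (Cov.check n1949.C.D v1949 = true) := ⟨by decide +kernel⟩

def b1949 : PLift (entF (fidx ts) 400 1949 n1949 = true) := ⟨by decide +kernel⟩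

theorem g1949 : GoodF (fidx ts) 400 1949 := GoodF.ofV v1949 n1949 c1949.down b1949.down

/-- 4686447:1651/1 -/
noncomputable def e1950 : SCfg where
  D := {
    a := 7
    L := 9
    kp := 7
    inn := [(0, 1), (0, 2), (0, 3), (0, 6), (1, 0), (1, 3), (1, 6), (2, 0), (2, 3), (2, 4), (2, 5), (2,
      6), (3, 0), (3, 1), (3, 2), (4, 2), (4, 6), (5, 2), (6, 0), (6, 1), (6, 2), (6, 4)]
    mix := [(1, 0), (1, 1), (1, 2), (2, 3), (2, 4), (2, 5), (3, 0), (3, 5), (3, 6), (4, 3), (4, 7), (5,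
      1), (5, 3), (5, 4), (6, 2), (6, 7), (6, 8)]
    cl := [0, 2, 1, 3, 5, 3, 7, 4, 6]
    chq := [(0, 1), (0, 3), (0, 4), (0, 6), (1, 0), (3, 0), (4, 0), (6, 0)]
    rng := [(0, 1), (0, 6), (1, 0), (1, 2), (1, 3), (1, 4), (2, 1), (2, 8), (3, 1), (3, 7), (4, 1), (4,
      5), (5, 4), (5, 6), (6, 0), (6, 5), (7, 3), (7, 8), (8, 2), (8, 7)]
    lev := [] }
  links := [[1, 6, 2, 3], [6, 0, 3, 7, 8, 9], [3, 0, 6, 4, 10, 5, 11, 12], [7, 1, 0, 2, 12, 13], [10, 2,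
    6, 14], [11, 2, 10, 8], [14, 4, 2, 0, 1, 9, 15]]
  P := {
    a := 7
    N := 16
    nb := [78, 969, 7289, 12423, 17476, 3332, 49687, 8458, 3746, 33090, 16692, 4388, 10252, 4232,
      33872, 16960]
    tri := [(0, 1, 3), (0, 1, 6), (0, 2, 3), (0, 2, 6), (1, 3, 7), (1, 6, 9), (1, 7, 8), (1, 8, 9), (2,
      3, 12), (2, 4, 6), (2, 4, 10), (2, 5, 10), (2, 5, 11), (2, 11, 12), (3, 7, 13), (3, 12, 13),
      (4, 6, 14), (4, 10, 14), (5, 8, 10), (5, 8, 11), (6, 9, 15), (6, 14, 15)]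
    fin := [0, 0, 2, 0, 0, 5, 0, 0, 5, 9, 2, 11, 2, 13, 14, 15]
    chd := [(0, 2), (0, 9), (0, 14), (0, 15)]
    steps := [(0, 1), (0, 3), (0, 6), (0, 4), (0, 7), (2, 10), (2, 12), (5, 8)] }
  rep := [0, 9, 5, 2, 14, 11, 15, 13]

noncomputable def v1950 : Cov.CovD where
  P := 3
  N := 5
  pl := [1, 4, 6]
  lev := [⟨[], [], [], [], []⟩,
    ⟨[], [(0, 0), (0, 1)], [(0, 1)], [2], [(0, 0, [1, 3, 4, 6]), (2, 1, [0])]⟩,
    ⟨[(0, 1)], [(0, 3)], [(3, 3)], [5], [(3, 3, [0]), (5, 3, [0])]⟩,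
    ⟨[(0, 1), (0, 2), (1, 2)], [(0, 0), (0, 3), (1, 0), (1, 1), (1, 3), (2, 0), (2, 3)],
      [(0, 3)], [7], [(0, 0, [1, 3, 4, 6]), (5, 3, [0])]⟩,
    ⟨[(0, 2), (2, 3)], [(2, 3), (2, 4)], [(3, 4)], [], [(3, 3, [0]), (7, 4, [0])]⟩,
    ⟨[(0, 2), (2, 3), (2, 4)], [(2, 3), (4, 3)], [], [2, 5], [(3, 3, [0])]⟩,
    ⟨[(0, 1), (0, 2), (0, 3), (0, 4), (1, 2), (1, 3), (1, 4), (2, 3), (2, 4), (2, 5)], [(0,
      1), (0, 4), (0, 6), (1, 0), (1, 1), (1, 4), (1, 6), (2, 1), (2, 3), (2, 4), (2, 6), (4,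
      1), (4, 3), (4, 4), (4, 6)], [(1, 4), (1, 6), (4, 6)], [], [(2, 1, [0]), (7, 4, [0]),
      (8, 6, [0])]⟩]
  Ta := [((3, 1), 3, 2), ((3, 7), 3, 4), ((5, 4), 3, 5), ((5, 6), 3, 7)]
  Tb := [((0, 1, 6), 0, 2, 7), ((1, 0, 2), 2, 0, 1), ((1, 0, 3), 2, 0, 3), ((1, 0, 4), 2, 0, 5),
    ((1, 2, 3), 2, 1, 3), ((1, 2, 4), 2, 1, 5), ((1, 3, 4), 2, 3, 5), ((2, 1, 8), 1, 2, 6),
    ((3, 1, 7), 3, 2, 4), ((4, 1, 5), 5, 2, 3), ((5, 4, 6), 3, 5, 7), ((6, 0, 5), 7, 0, 3),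
    ((7, 3, 8), 4, 3, 6), ((8, 2, 7), 6, 1, 4)]
  Tc := [(0, 1, 3), (0, 1, 4), (0, 1, 6), (0, 3, 4), (0, 3, 6), (0, 4, 6)]
  Td := [((0, 1), (0, 1), 2), ((0, 1), (0, 6), 7), ((0, 3), (0, 1), 2), ((0, 3), (0, 6), 7), ((0,
    4), (0, 1), 2), ((0, 4), (0, 6), 7), ((0, 6), (0, 1), 2), ((0, 6), (0, 6), 7), ((1, 0),
    (2, 1), 2), ((1, 0), (2, 8), 6), ((3, 0), (3, 1), 2), ((3, 0), (3, 7), 4), ((3, 0), (5,
    4), 5), ((3, 0), (5, 6), 7), ((4, 0), (7, 3), 3), ((4, 0), (7, 8), 6), ((6, 0), (8, 2),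
    1), ((6, 0), (8, 7), 4)]
  G := [[0, 0x11a45144116891148e951a8c, 0x14121214181411ce1811a12e6788,
    0x1192428119115115e1198a24c, 0x1132119113113e6121152b5116681118c2881118a4c14812698e], [0,
    0x184114811111c1e82, 0x181214e121814e11611ace184, 0x11941158115119ce284,
    0x1281118c628182182511921111ad81e1828d86]]

noncomputable def n1950 : Ent := ⟨e1950, noF, [], [], []⟩

def c1950 : PLift (Cov.check n1950.C.D v1950 = true) := ⟨by decide +kernel⟩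

def b1950 : PLift (entF (fidx ts) 400 1950 n1950 = true) := ⟨by decide +kernel⟩

theorem g1950 : GoodF (fidx ts) 400 1950 := GoodF.ofV v1950 n1950 c1950.down b1950.down

/-- 4686447:1651 -/
noncomputable def e1951 : SCfg where
  D := {
    a := 7
    L := 10
    kp := 8
    inn := [(0, 1), (0, 2), (0, 3), (0, 6), (1, 0), (1, 3), (1, 6), (2, 0), (2, 3), (2, 4), (2, 5), (2,
      6), (3, 0), (3, 1), (3, 2), (4, 2), (4, 6), (5, 2), (6, 0), (6, 1), (6, 2), (6, 4)]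
    mix := [(1, 0), (1, 1), (1, 2), (2, 3), (2, 4), (2, 5), (3, 0), (3, 5), (3, 6), (4, 3), (4, 7), (5,
      3), (5, 4), (5, 8), (6, 2), (6, 7), (6, 9)]
    cl := [1, 6, 3, 0, 2, 0, 7, 4, 8, 5]
    chq := [(0, 1), (1, 0), (1, 3), (1, 4), (1, 5), (3, 1), (4, 1), (5, 1)]
    rng := [(0, 1), (0, 6), (1, 0), (1, 2), (2, 1), (2, 9), (3, 7), (3, 8), (4, 5), (4, 8), (5, 4), (5,
      6), (6, 0), (6, 5), (7, 3), (7, 9), (8, 3), (8, 4), (9, 2), (9, 7)]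
    lev := [] }
  links := [[1, 6, 2, 3], [6, 0, 3, 7, 8, 9], [3, 0, 6, 4, 10, 5, 11, 12], [7, 1, 0, 2, 12, 13], [10, 2,
    6, 14], [11, 2, 10, 15], [14, 4, 2, 0, 1, 9, 16]]
  P := {
    a := 7
    N := 17
    nb := [78, 969, 7289, 12423, 17476, 35844, 82455, 8458, 642, 65858, 49204, 36900, 10252, 4232,
      66640, 3104, 16960]
    tri := [(0, 1, 3), (0, 1, 6), (0, 2, 3), (0, 2, 6), (1, 3, 7), (1, 6, 9), (1, 7, 8), (1, 8, 9), (2,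
      3, 12), (2, 4, 6), (2, 4, 10), (2, 5, 10), (2, 5, 11), (2, 11, 12), (3, 7, 13), (3, 12, 13),
      (4, 6, 14), (4, 10, 14), (5, 10, 15), (5, 11, 15), (6, 9, 16), (6, 14, 16)]
    fin := [0, 0, 2, 0, 0, 2, 0, 0, 8, 9, 2, 11, 2, 13, 14, 15, 16]
    chd := [(0, 2), (0, 9), (0, 14), (0, 16)]
    steps := [(0, 1), (0, 3), (0, 6), (0, 4), (0, 7), (2, 5), (2, 10), (2, 12)] }
  rep := [2, 0, 11, 9, 14, 16, 8, 13, 15]

noncomputable def v1951 : Cov.CovD where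
  P := 3
  N := 6
  pl := [1, 4, 6, 8]
  lev := [⟨[], [], [], [], []⟩,
    ⟨[], [(0, 1), (0, 3)], [(1, 3)], [6], [(0, 1, [0, 3, 4, 5]), (2, 3, [1])]⟩,
    ⟨[(0, 1)], [(0, 0)], [(0, 0)], [2], [(3, 0, [1]), (5, 0, [1])]⟩,
    ⟨[(0, 1), (0, 2), (1, 2)], [(0, 0), (0, 1), (1, 0), (1, 1), (1, 3), (2, 0), (2, 1)],
      [(0, 1)], [7], [(0, 1, [0, 3, 4, 5]), (5, 0, [1])]⟩,
    ⟨[(0, 2), (2, 3)], [(2, 0), (2, 4)], [(0, 4)], [], [(3, 0, [1]), (7, 4, [1])]⟩,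
    ⟨[(0, 2), (2, 3), (2, 4)], [(2, 0), (4, 0)], [], [2, 8], [(3, 0, [1])]⟩,
    ⟨[(0, 1), (0, 2), (0, 3), (0, 4), (1, 2), (1, 3), (1, 4), (2, 3), (2, 4), (2, 5)], [(0,
      3), (0, 4), (0, 5), (1, 1), (1, 3), (1, 4), (1, 5), (2, 0), (2, 3), (2, 4), (2, 5), (4,
      0), (4, 3), (4, 4), (4, 5)], [(3, 4), (3, 5), (4, 5)], [], [(2, 3, [1]), (7, 4, [1]),
      (9, 5, [1])]⟩]
  Ta := [((3, 7), 0, 4), ((3, 8), 0, 8), ((5, 4), 0, 2), ((5, 6), 0, 7)]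
  Tb := [((0, 1, 6), 1, 6, 7), ((1, 0, 2), 6, 1, 3), ((2, 1, 9), 3, 6, 5), ((3, 7, 8), 0, 4, 8),
    ((4, 5, 8), 2, 0, 8), ((5, 4, 6), 0, 2, 7), ((6, 0, 5), 7, 1, 0), ((7, 3, 9), 4, 0, 5),
    ((8, 3, 4), 8, 0, 2), ((9, 2, 7), 5, 3, 4)]
  Tc := [(1, 0, 3), (1, 0, 4), (1, 0, 5), (1, 3, 4), (1, 3, 5), (1, 4, 5)]
  Td := [((0, 1), (3, 7), 4), ((0, 1), (3, 8), 8), ((0, 1), (5, 4), 2), ((0, 1), (5, 6), 7), ((1,
    0), (0, 1), 6), ((1, 0), (0, 6), 7), ((1, 3), (0, 1), 6), ((1, 3), (0, 6), 7), ((1, 4),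
    (0, 1), 6), ((1, 4), (0, 6), 7), ((1, 5), (0, 1), 6), ((1, 5), (0, 6), 7), ((3, 1), (2,
    1), 6), ((3, 1), (2, 9), 5), ((4, 1), (7, 3), 0), ((4, 1), (7, 9), 5), ((5, 1), (9, 2),
    3), ((5, 1), (9, 7), 4)]
  G := [[0, 0x11211461188c1111611116a8114112118e8e4, 0,
    0x244222c2824e1c34224462833ca2838acc52422cc12881c8c,
    0x2222a28e18821a2222a38e18821a32233a222a4e282818e8ad4], [0,
    0x118112114e4112114118e8112114118e8e1, 0x2261422a18c226122a1c8226122a1c4d1,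
    0x2121c422c18c2121c422c18c22c12121a214e4d1,
    0x22a122a162121c8a71222a1812e82121622a1218e8d1]]

noncomputable def n1951 : Ent := ⟨e1951, noF, [], [], [(8, 15, [1685356702439545624007900436039642273970977273354372543760008077313, 0])]⟩

def c1951 : PLift (Cov.check n1951.C.D v1951 = true) := ⟨by decide +kernel⟩

def b1951 : PLift (entF (fidx ts) 400 1951 n1951 = true) := ⟨by decide +kernel⟩

theorem g1951 : GoodF (fidx ts) 400 1951 := GoodF.ofV v1951 n1951 c1951.down b1951.down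

/-- 4686454:1655/3 -/
noncomputable def e1952 : SCfg where
  D := {
    a := 7
    L := 8
    kp := 5
    inn := [(0, 1), (0, 2), (0, 3), (1, 0), (1, 3), (2, 0), (2, 3), (2, 4), (2, 5), (3, 0), (3, 1), (3,
      2), (4, 2), (5, 2), (5, 6), (6, 5)]
    mix := [(0, 0), (1, 0), (1, 1), (1, 2), (1, 3), (2, 0), (2, 4), (2, 5), (2, 6), (3, 1), (3, 6), (3,
      7), (4, 0), (4, 3), (4, 4), (5, 2), (5, 4), (5, 5), (6, 2), (6, 3), (6, 4)]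
    cl := [0, 0, 1, 2, 3, 3, 4, 5]
    chq := [(0, 3), (0, 4), (3, 0), (4, 0)]
    rng := [(0, 3), (1, 2), (1, 7), (2, 1), (2, 3), (2, 5), (3, 0), (3, 2), (3, 4), (4, 3), (5, 2), (5,
      6), (6, 5), (6, 7), (7, 1), (7, 6)]
    lev := [] }
  links := [[1, 7, 2, 3], [7, 0, 3, 8, 9, 10], [3, 0, 7, 4, 11, 5, 12, 13], [8, 1, 0, 2, 13, 14], [11, 2,
    7, 10], [12, 2, 11, 6, 9], [9, 5, 11, 10]]
  P := {
    a := 7
    N := 15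
    nb := [142, 1929, 14521, 24839, 3204, 6724, 3616, 1047, 16906, 5474, 2770, 1140, 8740, 20492,
      8456]
    tri := [(0, 1, 3), (0, 1, 7), (0, 2, 3), (0, 2, 7), (1, 3, 8), (1, 7, 10), (1, 8, 9), (1, 9, 10),
      (2, 3, 13), (2, 4, 7), (2, 4, 11), (2, 5, 11), (2, 5, 12), (2, 12, 13), (3, 8, 14), (3, 13,
      14), (4, 7, 10), (4, 10, 11), (5, 6, 9), (5, 6, 11), (5, 9, 12), (6, 9, 10), (6, 10, 11)]
    fin := [0, 0, 0, 0, 0, 5, 6, 0, 0, 9, 6, 5, 5, 13, 14]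
    chd := [(0, 5), (0, 13)]
    steps := [(0, 1), (0, 2), (0, 3), (0, 7), (0, 4), (0, 8), (5, 11), (5, 12), (6, 10)] }
  rep := [0, 9, 6, 5, 13, 14]

noncomputable def v1952 : Cov.CovD where
  P := 3
  N := 3
  pl := [2, 3, 7]
  lev := [⟨[], [], [], [], [(0, 0, [3, 4])]⟩,
    ⟨[], [(0, 0)], [(0, 0)], [1, 2], [(0, 0, [3, 4]), (1, 0, [3, 4])]⟩,
    ⟨[(0, 1)], [(0, 0), (0, 3), (0, 4), (1, 0)], [(0, 3), (0, 4), (3, 3), (3, 4)], [], [(0,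
      0, [3, 4]), (4, 3, [0]), (5, 3, [0]), (6, 4, [0])]⟩,
    ⟨[(0, 1), (0, 2), (1, 2)], [(0, 0), (0, 4), (1, 0), (1, 4), (2, 0), (2, 3), (2, 4)],
      [(0, 4)], [5], [(1, 0, [3, 4]), (6, 4, [0])]⟩,
    ⟨[(0, 2), (2, 3)], [(0, 0), (1, 0), (2, 0), (2, 3), (2, 4)], [(0, 3)], [2], [(0, 0, [3,
      4]), (4, 3, [0])]⟩,
    ⟨[(0, 2), (2, 3), (2, 4)], [(2, 0), (2, 3), (2, 4), (4, 3)], [(3, 3)], [1], [(4, 3,
      [0]), (5, 3, [0])]⟩,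
    ⟨[(2, 5)], [(2, 3), (4, 3), (5, 3)], [], [1, 2], [(4, 3, [0])]⟩]
  Ta := [((0, 3), 0, 2), ((1, 2), 0, 1), ((1, 7), 0, 5), ((4, 3), 3, 2), ((5, 2), 3, 1), ((5, 6),
    3, 4)]
  Tb := [((1, 2, 7), 0, 1, 5), ((2, 1, 3), 1, 0, 2), ((2, 1, 5), 1, 0, 3), ((2, 3, 5), 1, 2, 3),
    ((3, 0, 2), 2, 0, 1), ((3, 0, 4), 2, 0, 3), ((3, 2, 4), 2, 1, 3), ((5, 2, 6), 3, 1, 4),
    ((6, 5, 7), 4, 3, 5), ((7, 1, 6), 5, 0, 4)]
  Tc := [(0, 3, 4)]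
  Td := [((0, 3), (0, 3), 2), ((0, 3), (1, 2), 1), ((0, 3), (1, 7), 5), ((0, 4), (0, 3), 2), ((0,
    4), (1, 2), 1), ((0, 4), (1, 7), 5), ((3, 0), (4, 3), 2), ((3, 0), (5, 2), 1), ((3, 0),
    (5, 6), 4), ((4, 0), (6, 5), 3), ((4, 0), (6, 7), 5)]
  G := [[0, 0, 0x4141c121681218c8, 0x144141414448888814cee4118188a, 0x182111211121128814ade84],
    [0, 0, 0x412181218121e84, 0x1841118114884ba41481486, 0x8111121487142168112188c], [0,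
    0x8844c8844c8244ce148, 0, 0x884111111148878814c478814c81c8,
    0x18218258811988119611c2142cb84], [0, 0x428824824e148, 0, 0x4441814411484714c884c8cb48,
    0x84218813c1481148148a782]]

noncomputable def n1952 : Ent := ⟨e1952, noF, [], [], []⟩

def c1952 : PLift (Cov.check n1952.C.D v1952 = true) := ⟨by decide +kernel⟩

def b1952 : PLift (entF (fidx ts) 400 1952 n1952 = true) := ⟨by decide +kernel⟩

theorem g1952 : GoodF (fidx ts) 400 1952 := GoodF.ofV v1952 n1952 c1952.down b1952.down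

/-- 4686454:1655/2 -/
noncomputable def e1953 : SCfg where
  D := {
    a := 7
    L := 9
    kp := 6
    inn := [(0, 1), (0, 2), (0, 3), (1, 0), (1, 3), (2, 0), (2, 3), (2, 4), (2, 5), (3, 0), (3, 1), (3,
      2), (4, 2), (5, 2), (5, 6), (6, 5)]
    mix := [(0, 0), (1, 0), (1, 1), (1, 2), (1, 3), (2, 0), (2, 4), (2, 5), (2, 6), (3, 1), (3, 6), (3,
      7), (4, 0), (4, 3), (4, 4), (5, 4), (5, 5), (5, 8), (6, 3), (6, 4), (6, 8)]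
    cl := [0, 0, 5, 2, 1, 1, 3, 6, 4]
    chq := [(0, 1), (0, 3), (1, 0), (3, 0)]
    rng := [(0, 3), (1, 2), (1, 7), (2, 1), (2, 3), (3, 0), (3, 2), (3, 4), (3, 8), (4, 3), (5, 6), (5,
      8), (6, 5), (6, 7), (7, 1), (7, 6), (8, 3), (8, 5)]
    lev := [] }
  links := [[1, 7, 2, 3], [7, 0, 3, 8, 9, 10], [3, 0, 7, 4, 11, 5, 12, 13], [8, 1, 0, 2, 13, 14], [11, 2,
    7, 10], [12, 2, 11, 6, 15], [15, 5, 11, 10]]
  P := {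
    a := 7
    N := 16
    nb := [142, 1929, 14521, 24839, 3204, 38980, 35872, 1047, 16906, 1282, 35538, 1140, 40996, 20492,
      8456, 5216]
    tri := [(0, 1, 3), (0, 1, 7), (0, 2, 3), (0, 2, 7), (1, 3, 8), (1, 7, 10), (1, 8, 9), (1, 9, 10),
      (2, 3, 13), (2, 4, 7), (2, 4, 11), (2, 5, 11), (2, 5, 12), (2, 12, 13), (3, 8, 14), (3, 13,
      14), (4, 7, 10), (4, 10, 11), (5, 6, 11), (5, 6, 15), (5, 12, 15), (6, 10, 11), (6, 10, 15)]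
    fin := [0, 0, 2, 0, 0, 5, 5, 0, 0, 9, 5, 2, 2, 13, 14, 15]
    chd := [(0, 2), (0, 13)]
    steps := [(0, 1), (0, 3), (0, 7), (0, 4), (0, 8), (2, 11), (2, 12), (5, 6), (5, 10)] }
  rep := [0, 2, 5, 13, 15, 9, 14]

noncomputable def v1953 : Cov.CovD where
  P := 3
  N := 4
  pl := [2, 3, 7, 8]
  lev := [⟨[], [], [], [], [(0, 0, [1, 3])]⟩,
    ⟨[], [(0, 0)], [(0, 0)], [2, 5], [(0, 0, [1, 3]), (1, 0, [1, 3])]⟩,
    ⟨[(0, 1)], [(0, 0), (0, 1), (0, 3), (1, 0)], [(0, 1), (0, 3), (1, 1), (1, 3)], [], [(0,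
      0, [1, 3]), (4, 1, [0]), (5, 1, [0]), (6, 3, [0])]⟩,
    ⟨[(0, 1), (0, 2), (1, 2)], [(0, 0), (0, 3), (1, 0), (1, 3), (2, 0), (2, 1), (2, 3)],
      [(0, 3)], [6], [(1, 0, [1, 3]), (6, 3, [0])]⟩,
    ⟨[(0, 2), (2, 3)], [(0, 0), (1, 0), (2, 0), (2, 1), (2, 3)], [(0, 1)], [2], [(0, 0, [1,
      3]), (4, 1, [0])]⟩,
    ⟨[(0, 2), (2, 3), (2, 4)], [(2, 0), (2, 1), (2, 3), (4, 1)], [(1, 1)], [4], [(4, 1,
      [0]), (5, 1, [0])]⟩,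
    ⟨[(2, 5)], [(2, 1), (4, 1), (5, 1)], [], [2, 4], [(4, 1, [0])]⟩]
  Ta := [((0, 3), 0, 2), ((1, 2), 0, 5), ((1, 7), 0, 6), ((4, 3), 1, 2), ((5, 6), 1, 3), ((5, 8),
    1, 4)]
  Tb := [((1, 2, 7), 0, 5, 6), ((2, 1, 3), 5, 0, 2), ((3, 0, 2), 2, 0, 5), ((3, 0, 4), 2, 0, 1),
    ((3, 0, 8), 2, 0, 4), ((3, 2, 4), 2, 5, 1), ((3, 2, 8), 2, 5, 4), ((3, 4, 8), 2, 1, 4),
    ((5, 6, 8), 1, 3, 4), ((6, 5, 7), 3, 1, 6), ((7, 1, 6), 6, 0, 3), ((8, 3, 5), 4, 2, 1)]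
  Tc := [(0, 1, 3)]
  Td := [((0, 1), (0, 3), 2), ((0, 1), (1, 2), 5), ((0, 1), (1, 7), 6), ((0, 3), (0, 3), 2), ((0,
    3), (1, 2), 5), ((0, 3), (1, 7), 6), ((1, 0), (4, 3), 2), ((1, 0), (5, 6), 3), ((1, 0),
    (5, 8), 4), ((3, 0), (6, 5), 1), ((3, 0), (6, 7), 6)]
  G := [[0, 0x11a8184c4164164118681ac4, 0x48581c181cc181c181ca2,
    0x48581819881946c815441949819481983cc2, 0x8198819864819844a8158188158181982cac], [0,
    0x1164184c81a8164184c81ac4, 0x6141a141cc121a141c68, 0,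
    0x819221986481521219881926ca2158188c], [0, 0x11a414164164164111a81ac8, 0,
    0x419881c1681c814c8a581514858a84c884c869c2, 0x81c881c8a18151881c829a8198815864819844a5],
    [0, 0x41a4184a81a1168141641ac4, 0, 0, 0x81c221221988291681c281c2a58152881914caa]]

noncomputable def n1953 : Ent := ⟨e1953, noF, [], [], [(15, 9, [360035742630636841345797572106540607504961255222653860051550209, 0])]⟩

def c1953 : PLift (Cov.check n1953.C.D v1953 = true) := ⟨by decide +kernel⟩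

def b1953 : PLift (entF (fidx ts) 400 1953 n1953 = true) := ⟨by decide +kernel⟩

theorem g1953 : GoodF (fidx ts) 400 1953 := GoodF.ofV v1953 n1953 c1953.down b1953.down

/-- 4686454:1655/4 -/
noncomputable def e1954 : SCfg where
  D := {
    a := 7
    L := 9
    kp := 6
    inn := [(0, 1), (0, 2), (0, 3), (1, 0), (1, 3), (2, 0), (2, 3), (2, 4), (2, 5), (3, 0), (3, 1), (3,
      2), (4, 2), (5, 2), (5, 6), (6, 5)]
    mix := [(0, 0), (1, 0), (1, 1), (1, 2), (1, 3), (2, 0), (2, 4), (2, 5), (2, 6), (3, 1), (3, 6), (3,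
      7), (4, 0), (4, 4), (4, 8), (5, 2), (5, 4), (5, 5), (6, 2), (6, 4), (6, 8)]
    cl := [0, 0, 3, 5, 1, 1, 2, 6, 4]
    chq := [(0, 1), (0, 2), (1, 0), (2, 0)]
    rng := [(0, 3), (0, 8), (1, 2), (1, 7), (2, 1), (2, 3), (2, 5), (2, 8), (3, 0), (3, 2), (4, 8), (5,
      2), (5, 6), (6, 5), (6, 7), (7, 1), (7, 6), (8, 0), (8, 2), (8, 4)]
    lev := [] }
  links := [[1, 7, 2, 3], [7, 0, 3, 8, 9, 10], [3, 0, 7, 4, 11, 5, 12, 13], [8, 1, 0, 2, 13, 14], [11, 2,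
    7, 15], [12, 2, 11, 6, 9], [9, 5, 11, 15]]
  P := {
    a := 7
    N := 16
    nb := [142, 1929, 14521, 24839, 34948, 6724, 35360, 33815, 16906, 38242, 642, 32884, 8740, 20492,
      8456, 2768]
    tri := [(0, 1, 3), (0, 1, 7), (0, 2, 3), (0, 2, 7), (1, 3, 8), (1, 7, 10), (1, 8, 9), (1, 9, 10),
      (2, 3, 13), (2, 4, 7), (2, 4, 11), (2, 5, 11), (2, 5, 12), (2, 12, 13), (3, 8, 14), (3, 13,
      14), (4, 7, 15), (4, 11, 15), (5, 6, 9), (5, 6, 11), (5, 9, 12), (6, 9, 15), (6, 11, 15)]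
    fin := [0, 0, 0, 0, 0, 5, 6, 0, 0, 9, 10, 5, 5, 13, 14, 6]
    chd := [(0, 5), (0, 13)]
    steps := [(0, 1), (0, 2), (0, 3), (0, 4), (0, 7), (0, 8), (5, 11), (5, 12), (6, 15)] }
  rep := [0, 5, 13, 9, 6, 10, 14]

noncomputable def v1954 : Cov.CovD where
  P := 3
  N := 4
  pl := [2, 3, 7, 8]
  lev := [⟨[], [], [], [], [(0, 0, [1, 2])]⟩,
    ⟨[], [(0, 0)], [(0, 0)], [3, 5], [(0, 0, [1, 2]), (1, 0, [1, 2])]⟩,
    ⟨[(0, 1)], [(0, 0), (0, 1), (0, 2), (1, 0)], [(0, 1), (0, 2), (1, 1), (1, 2)], [], [(0,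
      0, [1, 2]), (4, 1, [0]), (5, 1, [0]), (6, 2, [0])]⟩,
    ⟨[(0, 1), (0, 2), (1, 2)], [(0, 0), (0, 2), (1, 0), (1, 2), (2, 0), (2, 1), (2, 2)],
      [(0, 2)], [6], [(1, 0, [1, 2]), (6, 2, [0])]⟩,
    ⟨[(0, 2), (2, 3)], [(0, 0), (1, 0), (2, 0), (2, 1), (2, 2)], [(0, 1)], [4], [(0, 0, [1,
      2]), (4, 1, [0])]⟩,
    ⟨[(0, 2), (2, 3), (2, 4)], [(2, 0), (2, 1), (2, 2), (4, 1)], [(1, 1)], [3], [(4, 1,
      [0]), (5, 1, [0])]⟩,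
    ⟨[(2, 5)], [(2, 1), (4, 1), (5, 1)], [], [3, 4], [(4, 1, [0])]⟩]
  Ta := [((0, 3), 0, 5), ((0, 8), 0, 4), ((1, 2), 0, 3), ((1, 7), 0, 6), ((4, 8), 1, 4), ((5, 2),
    1, 3), ((5, 6), 1, 2)]
  Tb := [((0, 3, 8), 0, 5, 4), ((1, 2, 7), 0, 3, 6), ((2, 1, 3), 3, 0, 5), ((2, 1, 5), 3, 0, 1),
    ((2, 1, 8), 3, 0, 4), ((2, 3, 5), 3, 5, 1), ((2, 3, 8), 3, 5, 4), ((2, 5, 8), 3, 1, 4),
    ((3, 0, 2), 5, 0, 3), ((5, 2, 6), 1, 3, 2), ((6, 5, 7), 2, 1, 6), ((7, 1, 6), 6, 0, 2),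
    ((8, 0, 2), 4, 0, 3), ((8, 0, 4), 4, 0, 1), ((8, 2, 4), 4, 3, 1)]
  Tc := [(0, 1, 2)]
  Td := [((0, 1), (0, 3), 5), ((0, 1), (0, 8), 4), ((0, 1), (1, 2), 3), ((0, 1), (1, 7), 6), ((0,
    2), (0, 3), 5), ((0, 2), (0, 8), 4), ((0, 2), (1, 2), 3), ((0, 2), (1, 7), 6), ((1, 0),
    (4, 8), 4), ((1, 0), (5, 2), 3), ((1, 0), (5, 6), 2), ((2, 0), (6, 5), 1), ((2, 0), (6,
    7), 6)]
  G := [[0, 0x18186181414c181212a14e4, 0x11111164141141a411111164e8, 0,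
    0x8118c181444c185191c18e2], [0, 0x18186181414a141222614e2, 0x112112a4112141a8211211c8e4,
    0x91214542182111618e2, 0x54218d12186912188c], [0, 0x181861814146181222a18e2,
    0x18118168111141a811111168e4, 0, 0x8858c8858ca144115111a88151c151a8e4], [0,
    0x8818c141414a141222a14e8, 0x11218268112112a411211264e1, 0x281281c424142418c112211c8e2,
    0x3812d8289341d42a8112112a8e4]]

noncomputable def n1954 : Ent := ⟨e1954, noF, [], [], [(15, 10, [360035742630637297931254766822518807307257169425207333494587393, 0])]⟩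

def c1954 : PLift (Cov.check n1954.C.D v1954 = true) := ⟨by decide +kernel⟩

def b1954 : PLift (entF (fidx ts) 400 1954 n1954 = true) := ⟨by decide +kernel⟩

theorem g1954 : GoodF (fidx ts) 400 1954 := GoodF.ofV v1954 n1954 c1954.down b1954.down

/-- 4686454:1655/1 -/
noncomputable def e1955 : SCfg where
  D := {
    a := 7
    L := 10
    kp := 7
    inn := [(0, 1), (0, 2), (0, 3), (1, 0), (1, 3), (2, 0), (2, 3), (2, 4), (2, 5), (3, 0), (3, 1), (3,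
      2), (4, 2), (5, 2), (5, 6), (6, 5)]
    mix := [(0, 0), (1, 0), (1, 1), (1, 2), (1, 3), (2, 0), (2, 4), (2, 5), (2, 6), (3, 1), (3, 6), (3,
      7), (4, 0), (4, 4), (4, 8), (5, 4), (5, 5), (5, 9), (6, 4), (6, 8), (6, 9)]
    cl := [0, 0, 5, 6, 1, 1, 2, 7, 3, 4]
    chq := [(0, 1), (0, 2), (1, 0), (2, 0)]
    rng := [(0, 3), (0, 8), (1, 2), (1, 7), (2, 1), (2, 3), (3, 0), (3, 2), (4, 8), (5, 6), (5, 9), (6,
      5), (6, 7), (7, 1), (7, 6), (8, 0), (8, 4), (8, 9), (9, 5), (9, 8)]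
    lev := [] }
  links := [[1, 7, 2, 3], [7, 0, 3, 8, 9, 10], [3, 0, 7, 4, 11, 5, 12, 13], [8, 1, 0, 2, 13, 14], [11, 2,
    7, 15], [12, 2, 11, 6, 16], [16, 5, 11, 15]]
  P := {
    a := 7
    N := 17
    nb := [142, 1929, 14521, 24839, 34948, 71748, 100384, 33815, 16906, 1282, 642, 32884, 73764,
      20492, 8456, 67792, 36960]
    tri := [(0, 1, 3), (0, 1, 7), (0, 2, 3), (0, 2, 7), (1, 3, 8), (1, 7, 10), (1, 8, 9), (1, 9, 10),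
      (2, 3, 13), (2, 4, 7), (2, 4, 11), (2, 5, 11), (2, 5, 12), (2, 12, 13), (3, 8, 14), (3, 13,
      14), (4, 7, 15), (4, 11, 15), (5, 6, 11), (5, 6, 16), (5, 12, 16), (6, 11, 15), (6, 15, 16)]
    fin := [0, 0, 2, 0, 0, 5, 5, 0, 0, 9, 10, 2, 2, 13, 14, 5, 16]
    chd := [(0, 2), (0, 13)]
    steps := [(0, 1), (0, 3), (0, 7), (0, 4), (0, 8), (2, 11), (2, 12), (5, 6), (5, 15)] }
  rep := [0, 2, 13, 5, 16, 9, 10, 14]

noncomputable def v1955 : Cov.CovD where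
  P := 3
  N := 5
  pl := [2, 3, 7, 8, 9]
  lev := [⟨[], [], [], [], [(0, 0, [1, 2])]⟩,
    ⟨[], [(0, 0)], [(0, 0)], [5, 6], [(0, 0, [1, 2]), (1, 0, [1, 2])]⟩,
    ⟨[(0, 1)], [(0, 0), (0, 1), (0, 2), (1, 0)], [(0, 1), (0, 2), (1, 1), (1, 2)], [], [(0,
      0, [1, 2]), (4, 1, [0]), (5, 1, [0]), (6, 2, [0])]⟩,
    ⟨[(0, 1), (0, 2), (1, 2)], [(0, 0), (0, 2), (1, 0), (1, 2), (2, 0), (2, 1), (2, 2)],
      [(0, 2)], [7], [(1, 0, [1, 2]), (6, 2, [0])]⟩,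
    ⟨[(0, 2), (2, 3)], [(0, 0), (1, 0), (2, 0), (2, 1), (2, 2)], [(0, 1)], [3], [(0, 0, [1,
      2]), (4, 1, [0])]⟩,
    ⟨[(0, 2), (2, 3), (2, 4)], [(2, 0), (2, 1), (2, 2), (4, 1)], [(1, 1)], [4], [(4, 1,
      [0]), (5, 1, [0])]⟩,
    ⟨[(2, 5)], [(2, 1), (4, 1), (5, 1)], [], [3, 4], [(4, 1, [0])]⟩]
  Ta := [((0, 3), 0, 6), ((0, 8), 0, 3), ((1, 2), 0, 5), ((1, 7), 0, 7), ((4, 8), 1, 3), ((5, 6),
    1, 2), ((5, 9), 1, 4)]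
  Tb := [((0, 3, 8), 0, 6, 3), ((1, 2, 7), 0, 5, 7), ((2, 1, 3), 5, 0, 6), ((3, 0, 2), 6, 0, 5),
    ((5, 6, 9), 1, 2, 4), ((6, 5, 7), 2, 1, 7), ((7, 1, 6), 7, 0, 2), ((8, 0, 4), 3, 0, 1),
    ((8, 0, 9), 3, 0, 4), ((8, 4, 9), 3, 1, 4), ((9, 5, 8), 4, 1, 3)]
  Tc := [(0, 1, 2)]
  Td := [((0, 1), (0, 3), 6), ((0, 1), (0, 8), 3), ((0, 1), (1, 2), 5), ((0, 1), (1, 7), 7), ((0,
    2), (0, 3), 6), ((0, 2), (0, 8), 3), ((0, 2), (1, 2), 5), ((0, 2), (1, 7), 7), ((1, 0),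
    (4, 8), 3), ((1, 0), (5, 6), 2), ((1, 0), (5, 9), 4), ((2, 0), (6, 5), 1), ((2, 0), (6,
    7), 7)]
  G := [[0, 0x141218e18141218e1884a42aa14e4, 0xc191c19164c191c191a4c191c19164e8, 0,
    0x895415c18895415c18895415c18e2], [0, 0x124418e18141218e14141218e14e2,
    0x219121916821512151a421912191c4e2, 0x229229c14c59214c95218e8, 0xc95218c9521844895618e2],
    [0, 0x141218e18141218e1841a126618e4, 0xc191c19164481d1c191a4c191c191a4e8, 0,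
    0xc151281c14cc89c151c151a8c151c151a8e4], [0, 0x141218e1881a12ac14141218e14e2,
    0x2191112436421c12191a421512151a4e8, 0x112432191c42151421918c112432151c8e2,
    0x1124321dc28921512191a81124311283a8e4]]

noncomputable def n1955 : Ent := ⟨e1955, noF, [], [], [(15, 10, [1685356702439545624464619697705549435909628783578210987402487009281, 0]), (16, 9, [1580044410770988437310138513572361556014072927981731971036238979073, 0])]⟩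

def c1955 : PLift (Cov.check n1955.C.D v1955 = true) := ⟨by decide +kernel⟩

def b1955 : PLift (entF (fidx ts) 400 1955 n1955 = true) := ⟨by decide +kernel⟩

theorem g1955 : GoodF (fidx ts) 400 1955 := GoodF.ofV v1955 n1955 c1955.down b1955.down

/-- 4686454:1655/6 -/
noncomputable def e1956 : SCfg where
  D := {
    a := 7
    L := 9
    kp := 6
    inn := [(0, 1), (0, 2), (0, 3), (1, 0), (1, 3), (2, 0), (2, 3), (2, 4), (2, 5), (3, 0), (3, 1), (3,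
      2), (4, 2), (5, 2), (5, 6), (6, 5)]
    mix := [(0, 0), (1, 0), (1, 1), (1, 2), (1, 3), (2, 0), (2, 4), (2, 5), (2, 6), (3, 1), (3, 6), (3,
      7), (4, 0), (4, 3), (4, 4), (5, 4), (5, 5), (5, 8), (6, 2), (6, 4), (6, 8)]
    cl := [0, 0, 3, 4, 1, 1, 2, 6, 5]
    chq := [(0, 1), (0, 2), (1, 0), (2, 0)]
    rng := [(0, 3), (1, 2), (1, 7), (2, 1), (2, 3), (2, 4), (2, 8), (3, 0), (3, 2), (3, 4), (4, 2), (4,
      3), (5, 6), (5, 8), (6, 5), (6, 7), (7, 1), (7, 6), (8, 2), (8, 5)]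
    lev := [] }
  links := [[1, 7, 2, 3], [7, 0, 3, 8, 9, 10], [3, 0, 7, 4, 11, 5, 12, 13], [8, 1, 0, 2, 13, 14], [11, 2,
    7, 10], [12, 2, 11, 6, 15], [15, 5, 11, 9]]
  P := {
    a := 7
    N := 16
    nb := [142, 1929, 14521, 24839, 3204, 38980, 35360, 1047, 16906, 36162, 2706, 1652, 40996, 20492,
      8456, 4704]
    tri := [(0, 1, 3), (0, 1, 7), (0, 2, 3), (0, 2, 7), (1, 3, 8), (1, 7, 10), (1, 8, 9), (1, 9, 10),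
      (2, 3, 13), (2, 4, 7), (2, 4, 11), (2, 5, 11), (2, 5, 12), (2, 12, 13), (3, 8, 14), (3, 13,
      14), (4, 7, 10), (4, 10, 11), (5, 6, 11), (5, 6, 15), (5, 12, 15), (6, 9, 11), (6, 9, 15)]
    fin := [0, 0, 0, 0, 0, 5, 5, 0, 0, 9, 10, 5, 5, 13, 14, 15]
    chd := [(0, 5), (0, 13)]
    steps := [(0, 1), (0, 2), (0, 3), (0, 7), (0, 4), (0, 8), (5, 6), (5, 11), (5, 12)] }
  rep := [0, 5, 13, 9, 10, 15, 14]

noncomputable def v1956 : Cov.CovD where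
  P := 3
  N := 4
  pl := [2, 3, 7, 8]
  lev := [⟨[], [], [], [], [(0, 0, [1, 2])]⟩,
    ⟨[], [(0, 0)], [(0, 0)], [3, 4], [(0, 0, [1, 2]), (1, 0, [1, 2])]⟩,
    ⟨[(0, 1)], [(0, 0), (0, 1), (0, 2), (1, 0)], [(0, 1), (0, 2), (1, 1), (1, 2)], [], [(0,
      0, [1, 2]), (4, 1, [0]), (5, 1, [0]), (6, 2, [0])]⟩,
    ⟨[(0, 1), (0, 2), (1, 2)], [(0, 0), (0, 2), (1, 0), (1, 2), (2, 0), (2, 1), (2, 2)],
      [(0, 2)], [6], [(1, 0, [1, 2]), (6, 2, [0])]⟩,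
    ⟨[(0, 2), (2, 3)], [(0, 0), (1, 0), (2, 0), (2, 1), (2, 2)], [(0, 1)], [4], [(0, 0, [1,
      2]), (4, 1, [0])]⟩,
    ⟨[(0, 2), (2, 3), (2, 4)], [(2, 0), (2, 1), (2, 2), (4, 1)], [(1, 1)], [5], [(4, 1,
      [0]), (5, 1, [0])]⟩,
    ⟨[(2, 5)], [(2, 1), (4, 1), (5, 1)], [], [3, 5], [(4, 1, [0])]⟩]
  Ta := [((0, 3), 0, 4), ((1, 2), 0, 3), ((1, 7), 0, 6), ((4, 2), 1, 3), ((4, 3), 1, 4), ((5, 6),
    1, 2), ((5, 8), 1, 5)]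
  Tb := [((1, 2, 7), 0, 3, 6), ((2, 1, 3), 3, 0, 4), ((2, 1, 4), 3, 0, 1), ((2, 1, 8), 3, 0, 5),
    ((2, 3, 4), 3, 4, 1), ((2, 3, 8), 3, 4, 5), ((2, 4, 8), 3, 1, 5), ((3, 0, 2), 4, 0, 3),
    ((3, 0, 4), 4, 0, 1), ((3, 2, 4), 4, 3, 1), ((4, 2, 3), 1, 3, 4), ((5, 6, 8), 1, 2, 5),
    ((6, 5, 7), 2, 1, 6), ((7, 1, 6), 6, 0, 2), ((8, 2, 5), 5, 3, 1)]
  Tc := [(0, 1, 2)]
  Td := [((0, 1), (0, 3), 4), ((0, 1), (1, 2), 3), ((0, 1), (1, 7), 6), ((0, 2), (0, 3), 4), ((0,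
    2), (1, 2), 3), ((0, 2), (1, 7), 6), ((1, 0), (4, 2), 3), ((1, 0), (4, 3), 4), ((1, 0),
    (5, 6), 2), ((1, 0), (5, 8), 5), ((2, 0), (6, 5), 1), ((2, 0), (6, 7), 6)]
  G := [[0, 0x18681811a41811c218e4, 0x81c181c8a441514154c8c191c191c4e2, 0,
    0x815818415418415815c18e2], [0, 0x11681841a41812a218e4, 0x215121516828, 0xc1921428,
    0xc1521824], [0, 0x11681841a41811c218e4, 0x81918198644151415468c191c191a4e8, 0,
    0x81c885c8a114c494c4a1c951481d1a8e4], [0, 0x11681814a41411c218e2, 0x21512191c422,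
    0x22c12291c422, 0x27517291a824]]

noncomputable def n1956 : Ent := ⟨e1956, noF, [], [], []⟩

def c1956 : PLift (Cov.check n1956.C.D v1956 = true) := ⟨by decide +kernel⟩

def b1956 : PLift (entF (fidx ts) 400 1956 n1956 = true) := ⟨by decide +kernel⟩

theorem g1956 : GoodF (fidx ts) 400 1956 := GoodF.ofV v1956 n1956 c1956.down b1956.down

/-- 4686454:1655/7 -/
noncomputable def e1957 : SCfg where
  D := {
    a := 7
    L := 9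
    kp := 6
    inn := [(0, 1), (0, 2), (0, 3), (1, 0), (1, 3), (2, 0), (2, 3), (2, 4), (2, 5), (3, 0), (3, 1), (3,
      2), (4, 2), (5, 2), (5, 6), (6, 5)]
    mix := [(0, 0), (1, 0), (1, 1), (1, 2), (1, 3), (2, 0), (2, 4), (2, 5), (2, 6), (3, 1), (3, 6), (3,
      7), (4, 0), (4, 3), (4, 4), (5, 2), (5, 4), (5, 5), (6, 2), (6, 4), (6, 8)]
    cl := [0, 0, 3, 2, 1, 1, 4, 5, 6]
    chq := [(0, 1), (0, 4), (1, 0), (4, 0)]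
    rng := [(0, 3), (1, 2), (1, 7), (2, 1), (2, 3), (2, 5), (2, 8), (3, 0), (3, 2), (3, 4), (4, 3), (4,
      8), (5, 2), (5, 6), (6, 5), (6, 7), (7, 1), (7, 6), (8, 2), (8, 4)]
    lev := [] }
  links := [[1, 7, 2, 3], [7, 0, 3, 8, 9, 10], [3, 0, 7, 4, 11, 5, 12, 13], [8, 1, 0, 2, 13, 14], [11, 2,
    7, 10], [12, 2, 11, 6, 9], [9, 5, 11, 15]]
  P := {
    a := 7
    N := 16
    nb := [142, 1929, 14521, 24839, 3204, 6724, 35360, 1047, 16906, 38242, 2706, 33908, 8740, 20492,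
      8456, 2624]
    tri := [(0, 1, 3), (0, 1, 7), (0, 2, 3), (0, 2, 7), (1, 3, 8), (1, 7, 10), (1, 8, 9), (1, 9, 10),
      (2, 3, 13), (2, 4, 7), (2, 4, 11), (2, 5, 11), (2, 5, 12), (2, 12, 13), (3, 8, 14), (3, 13,
      14), (4, 7, 10), (4, 10, 11), (5, 6, 9), (5, 6, 11), (5, 9, 12), (6, 9, 15), (6, 11, 15)]
    fin := [0, 0, 0, 0, 0, 5, 5, 0, 0, 9, 10, 5, 5, 13, 14, 15]
    chd := [(0, 5), (0, 13)]
    steps := [(0, 1), (0, 2), (0, 3), (0, 7), (0, 4), (0, 8), (5, 6), (5, 11), (5, 12)] }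
  rep := [0, 5, 10, 9, 13, 14, 15]

noncomputable def v1957 : Cov.CovD where
  P := 3
  N := 4
  pl := [2, 3, 7, 8]
  lev := [⟨[], [], [], [], [(0, 0, [1, 4])]⟩,
    ⟨[], [(0, 0)], [(0, 0)], [2, 3], [(0, 0, [1, 4]), (1, 0, [1, 4])]⟩,
    ⟨[(0, 1)], [(0, 0), (0, 1), (0, 4), (1, 0)], [(0, 1), (0, 4), (1, 1), (1, 4)], [], [(0,
      0, [1, 4]), (4, 1, [0]), (5, 1, [0]), (6, 4, [0])]⟩,
    ⟨[(0, 1), (0, 2), (1, 2)], [(0, 0), (0, 4), (1, 0), (1, 4), (2, 0), (2, 1), (2, 4)],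
      [(0, 4)], [5], [(1, 0, [1, 4]), (6, 4, [0])]⟩,
    ⟨[(0, 2), (2, 3)], [(0, 0), (1, 0), (2, 0), (2, 1), (2, 4)], [(0, 1)], [2], [(0, 0, [1,
      4]), (4, 1, [0])]⟩,
    ⟨[(0, 2), (2, 3), (2, 4)], [(2, 0), (2, 1), (2, 4), (4, 1)], [(1, 1)], [3], [(4, 1,
      [0]), (5, 1, [0])]⟩,
    ⟨[(2, 5)], [(2, 1), (4, 1), (5, 1)], [], [3, 6], [(4, 1, [0])]⟩]
  Ta := [((0, 3), 0, 2), ((1, 2), 0, 3), ((1, 7), 0, 5), ((4, 3), 1, 2), ((4, 8), 1, 6), ((5, 2),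
    1, 3), ((5, 6), 1, 4)]
  Tb := [((1, 2, 7), 0, 3, 5), ((2, 1, 3), 3, 0, 2), ((2, 1, 5), 3, 0, 1), ((2, 1, 8), 3, 0, 6),
    ((2, 3, 5), 3, 2, 1), ((2, 3, 8), 3, 2, 6), ((2, 5, 8), 3, 1, 6), ((3, 0, 2), 2, 0, 3),
    ((3, 0, 4), 2, 0, 1), ((3, 2, 4), 2, 3, 1), ((4, 3, 8), 1, 2, 6), ((5, 2, 6), 1, 3, 4),
    ((6, 5, 7), 4, 1, 5), ((7, 1, 6), 5, 0, 4), ((8, 2, 4), 6, 3, 1)]
  Tc := [(0, 1, 4)]
  Td := [((0, 1), (0, 3), 2), ((0, 1), (1, 2), 3), ((0, 1), (1, 7), 5), ((0, 4), (0, 3), 2), ((0,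
    4), (1, 2), 3), ((0, 4), (1, 7), 5), ((1, 0), (4, 3), 2), ((1, 0), (4, 8), 6), ((1, 0),
    (5, 2), 3), ((1, 0), (5, 6), 4), ((4, 0), (6, 5), 1), ((4, 0), (6, 7), 5)]
  G := [[0, 0x18411881a14411441ac4, 0xd181d141c22, 0x91819189146c514548a5141cc2,
    0xd18442d181d182c2c], [0, 0x18411841c124114416c2, 0x51815181c21812181ca2, 0,
    0x2182186429121c189886c21818aa], [0, 0x18811281614411481ac8, 0,
    0x914988c988984a5541851425445446dc2, 0x95c8212c9518c5984c2a], [0, 0x18411881a148114816c2,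
    0, 0, 0x248212948c88cc82988a521182184ca6]]

noncomputable def n1957 : Ent := ⟨e1957, noF, [], [], [(10, 15, [360035742630636841211993100915356868655746945586763691015667713, 0])]⟩

def c1957 : PLift (Cov.check n1957.C.D v1957 = true) := ⟨by decide +kernel⟩

def b1957 : PLift (entF (fidx ts) 400 1957 n1957 = true) := ⟨by decide +kernel⟩

theorem g1957 : GoodF (fidx ts) 400 1957 := GoodF.ofV v1957 n1957 c1957.down b1957.down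

/-- 4686454:1655/5 -/
noncomputable def e1958 : SCfg where
  D := {
    a := 7
    L := 10
    kp := 7
    inn := [(0, 1), (0, 2), (0, 3), (1, 0), (1, 3), (2, 0), (2, 3), (2, 4), (2, 5), (3, 0), (3, 1), (3,
      2), (4, 2), (5, 2), (5, 6), (6, 5)]
    mix := [(0, 0), (1, 0), (1, 1), (1, 2), (1, 3), (2, 0), (2, 4), (2, 5), (2, 6), (3, 1), (3, 6), (3,
      7), (4, 0), (4, 3), (4, 4), (5, 4), (5, 5), (5, 8), (6, 4), (6, 8), (6, 9)]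
    cl := [0, 0, 5, 3, 1, 1, 2, 6, 4, 7]
    chq := [(0, 1), (0, 2), (1, 0), (2, 0)]
    rng := [(0, 3), (1, 2), (1, 7), (2, 1), (2, 3), (3, 0), (3, 2), (3, 4), (4, 3), (4, 9), (5, 6), (5,
      8), (6, 5), (6, 7), (7, 1), (7, 6), (8, 5), (8, 9), (9, 4), (9, 8)]
    lev := [] }
  links := [[1, 7, 2, 3], [7, 0, 3, 8, 9, 10], [3, 0, 7, 4, 11, 5, 12, 13], [8, 1, 0, 2, 13, 14], [11, 2,
    7, 10], [12, 2, 11, 6, 15], [15, 5, 11, 16]]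
  P := {
    a := 7
    N := 17
    nb := [142, 1929, 14521, 24839, 3204, 38980, 100384, 1047, 16906, 1282, 2706, 66676, 40996, 20492,
      8456, 69728, 34880]
    tri := [(0, 1, 3), (0, 1, 7), (0, 2, 3), (0, 2, 7), (1, 3, 8), (1, 7, 10), (1, 8, 9), (1, 9, 10),
      (2, 3, 13), (2, 4, 7), (2, 4, 11), (2, 5, 11), (2, 5, 12), (2, 12, 13), (3, 8, 14), (3, 13,
      14), (4, 7, 10), (4, 10, 11), (5, 6, 11), (5, 6, 15), (5, 12, 15), (6, 11, 16), (6, 15, 16)]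
    fin := [0, 0, 0, 0, 0, 5, 5, 0, 0, 9, 10, 5, 5, 13, 14, 15, 16]
    chd := [(0, 5), (0, 13)]
    steps := [(0, 1), (0, 2), (0, 3), (0, 7), (0, 4), (0, 8), (5, 6), (5, 11), (5, 12)] }
  rep := [0, 5, 13, 10, 15, 9, 14, 16]

noncomputable def v1958 : Cov.CovD where
  P := 3
  N := 5
  pl := [2, 3, 7, 8, 9]
  lev := [⟨[], [], [], [], [(0, 0, [1, 2])]⟩,
    ⟨[], [(0, 0)], [(0, 0)], [3, 5], [(0, 0, [1, 2]), (1, 0, [1, 2])]⟩,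
    ⟨[(0, 1)], [(0, 0), (0, 1), (0, 2), (1, 0)], [(0, 1), (0, 2), (1, 1), (1, 2)], [], [(0,
      0, [1, 2]), (4, 1, [0]), (5, 1, [0]), (6, 2, [0])]⟩,
    ⟨[(0, 1), (0, 2), (1, 2)], [(0, 0), (0, 2), (1, 0), (1, 2), (2, 0), (2, 1), (2, 2)],
      [(0, 2)], [6], [(1, 0, [1, 2]), (6, 2, [0])]⟩,
    ⟨[(0, 2), (2, 3)], [(0, 0), (1, 0), (2, 0), (2, 1), (2, 2)], [(0, 1)], [3], [(0, 0, [1,
      2]), (4, 1, [0])]⟩,
    ⟨[(0, 2), (2, 3), (2, 4)], [(2, 0), (2, 1), (2, 2), (4, 1)], [(1, 1)], [4], [(4, 1,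
      [0]), (5, 1, [0])]⟩,
    ⟨[(2, 5)], [(2, 1), (4, 1), (5, 1)], [], [4, 7], [(4, 1, [0])]⟩]
  Ta := [((0, 3), 0, 3), ((1, 2), 0, 5), ((1, 7), 0, 6), ((4, 3), 1, 3), ((4, 9), 1, 7), ((5, 6),
    1, 2), ((5, 8), 1, 4)]
  Tb := [((1, 2, 7), 0, 5, 6), ((2, 1, 3), 5, 0, 3), ((3, 0, 2), 3, 0, 5), ((3, 0, 4), 3, 0, 1),
    ((3, 2, 4), 3, 5, 1), ((4, 3, 9), 1, 3, 7), ((5, 6, 8), 1, 2, 4), ((6, 5, 7), 2, 1, 6),
    ((7, 1, 6), 6, 0, 2), ((8, 5, 9), 4, 1, 7), ((9, 4, 8), 7, 1, 4)]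
  Tc := [(0, 1, 2)]
  Td := [((0, 1), (0, 3), 3), ((0, 1), (1, 2), 5), ((0, 1), (1, 7), 6), ((0, 2), (0, 3), 3), ((0,
    2), (1, 2), 5), ((0, 2), (1, 7), 6), ((1, 0), (4, 3), 3), ((1, 0), (4, 9), 7), ((1, 0),
    (5, 6), 2), ((1, 0), (5, 8), 4), ((2, 0), (6, 5), 1), ((2, 0), (6, 7), 6)]
  G := [[0, 0x11a81411a41811a214e4, 0xc591c59864c591c591a4c951c95168e8, 0,
    0xc95818c95418c95c95c18e4], [0, 0x11681811641811a214e4,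
    0xc95236c1682951c952a8c5922591a4e4, 0x229814225418c95218e8, 0x295818295418c95218e2], [0,
    0x11c814116418116218e8, 0xc598c59164c594c591a4c951c95168e8, 0,
    0x95c895c8a1c951295c489c951c951a8e4], [0, 0x11a81411a418116218e4,
    0xa651c291a4c254c952a83a512591c4e2, 0x22c822c8c122512291c822912291c4e2,
    0x92c895c2a1c25125c4a8c95225c1a8e4]]

noncomputable def n1958 : Ent := ⟨e1958, noF, [], [], [(10, 16, [1580044410770988437309982408355971841652082177953823432505697112065, 0]), (16, 9, [1580044410770988437310138513572361556014072927981731971036238987265, 0]), (15, 9, [1685356702439545624008034240510833457709826487664008433929043988481, 0])]⟩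

def c1958 : PLift (Cov.check n1958.C.D v1958 = true) := ⟨by decide +kernel⟩

def b1958 : PLift (entF (fidx ts) 400 1958 n1958 = true) := ⟨by decide +kernel⟩

theorem g1958 : GoodF (fidx ts) 400 1958 := GoodF.ofV v1958 n1958 c1958.down b1958.down

/-- 4686454:1655/8 -/
noncomputable def e1959 : SCfg where
  D := {
    a := 7
    L := 10
    kp := 7
    inn := [(0, 1), (0, 2), (0, 3), (1, 0), (1, 3), (2, 0), (2, 3), (2, 4), (2, 5), (3, 0), (3, 1), (3,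
      2), (4, 2), (5, 2), (5, 6), (6, 5)]
    mix := [(0, 0), (1, 0), (1, 1), (1, 2), (1, 3), (2, 0), (2, 4), (2, 5), (2, 6), (3, 1), (3, 6), (3,
      7), (4, 0), (4, 4), (4, 8), (5, 4), (5, 5), (5, 9), (6, 2), (6, 4), (6, 9)]
    cl := [0, 0, 3, 5, 1, 1, 2, 6, 7, 4]
    chq := [(0, 1), (0, 2), (1, 0), (2, 0)]
    rng := [(0, 3), (0, 8), (1, 2), (1, 7), (2, 1), (2, 3), (2, 4), (2, 9), (3, 0), (3, 2), (4, 2), (4,
      8), (5, 6), (5, 9), (6, 5), (6, 7), (7, 1), (7, 6), (8, 0), (8, 4), (9, 2), (9, 5)]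
    lev := [] }
  links := [[1, 7, 2, 3], [7, 0, 3, 8, 9, 10], [3, 0, 7, 4, 11, 5, 12, 13], [8, 1, 0, 2, 13, 14], [11, 2,
    7, 15], [12, 2, 11, 6, 16], [16, 5, 11, 9]]
  P := {
    a := 7
    N := 17
    nb := [142, 1929, 14521, 24839, 34948, 71748, 68128, 33815, 16906, 68930, 642, 33396, 73764,
      20492, 8456, 2192, 4704]
    tri := [(0, 1, 3), (0, 1, 7), (0, 2, 3), (0, 2, 7), (1, 3, 8), (1, 7, 10), (1, 8, 9), (1, 9, 10),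
      (2, 3, 13), (2, 4, 7), (2, 4, 11), (2, 5, 11), (2, 5, 12), (2, 12, 13), (3, 8, 14), (3, 13,
      14), (4, 7, 15), (4, 11, 15), (5, 6, 11), (5, 6, 16), (5, 12, 16), (6, 9, 11), (6, 9, 16)]
    fin := [0, 0, 0, 0, 0, 5, 5, 0, 0, 9, 10, 5, 5, 13, 14, 15, 16]
    chd := [(0, 5), (0, 13)]
    steps := [(0, 1), (0, 2), (0, 3), (0, 4), (0, 7), (0, 8), (5, 6), (5, 11), (5, 12)] }
  rep := [0, 5, 13, 9, 16, 10, 14, 15]

noncomputable def v1959 : Cov.CovD where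
  P := 3
  N := 5
  pl := [2, 3, 7, 8, 9]
  lev := [⟨[], [], [], [], [(0, 0, [1, 2])]⟩,
    ⟨[], [(0, 0)], [(0, 0)], [3, 5], [(0, 0, [1, 2]), (1, 0, [1, 2])]⟩,
    ⟨[(0, 1)], [(0, 0), (0, 1), (0, 2), (1, 0)], [(0, 1), (0, 2), (1, 1), (1, 2)], [], [(0,
      0, [1, 2]), (4, 1, [0]), (5, 1, [0]), (6, 2, [0])]⟩,
    ⟨[(0, 1), (0, 2), (1, 2)], [(0, 0), (0, 2), (1, 0), (1, 2), (2, 0), (2, 1), (2, 2)],
      [(0, 2)], [6], [(1, 0, [1, 2]), (6, 2, [0])]⟩,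
    ⟨[(0, 2), (2, 3)], [(0, 0), (1, 0), (2, 0), (2, 1), (2, 2)], [(0, 1)], [7], [(0, 0, [1,
      2]), (4, 1, [0])]⟩,
    ⟨[(0, 2), (2, 3), (2, 4)], [(2, 0), (2, 1), (2, 2), (4, 1)], [(1, 1)], [4], [(4, 1,
      [0]), (5, 1, [0])]⟩,
    ⟨[(2, 5)], [(2, 1), (4, 1), (5, 1)], [], [3, 4], [(4, 1, [0])]⟩]
  Ta := [((0, 3), 0, 5), ((0, 8), 0, 7), ((1, 2), 0, 3), ((1, 7), 0, 6), ((4, 2), 1, 3), ((4, 8),
    1, 7), ((5, 6), 1, 2), ((5, 9), 1, 4)]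
  Tb := [((0, 3, 8), 0, 5, 7), ((1, 2, 7), 0, 3, 6), ((2, 1, 3), 3, 0, 5), ((2, 1, 4), 3, 0, 1),
    ((2, 1, 9), 3, 0, 4), ((2, 3, 4), 3, 5, 1), ((2, 3, 9), 3, 5, 4), ((2, 4, 9), 3, 1, 4),
    ((3, 0, 2), 5, 0, 3), ((4, 2, 8), 1, 3, 7), ((5, 6, 9), 1, 2, 4), ((6, 5, 7), 2, 1, 6),
    ((7, 1, 6), 6, 0, 2), ((8, 0, 4), 7, 0, 1), ((9, 2, 5), 4, 3, 1)]
  Tc := [(0, 1, 2)]
  Td := [((0, 1), (0, 3), 5), ((0, 1), (0, 8), 7), ((0, 1), (1, 2), 3), ((0, 1), (1, 7), 6), ((0,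
    2), (0, 3), 5), ((0, 2), (0, 8), 7), ((0, 2), (1, 2), 3), ((0, 2), (1, 7), 6), ((1, 0),
    (4, 2), 3), ((1, 0), (4, 8), 7), ((1, 0), (5, 6), 2), ((1, 0), (5, 9), 4), ((2, 0), (6,
    5), 1), ((2, 0), (6, 7), 6)]
  G := [[0, 0x141812e18441218e1811a11aa14e4, 0x81918191a441514151a8c151c151c8e4, 0,
    0x815815c18415415c18c15c15c18e2], [0, 0x81a116614121814e14126126618e8,
    0x819281926414c2419268c152c152c8e1, 0x815214419214c19214e8, 0x415218c1521868152188c], [0,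
    0x81c816a14416416618121814e14e8, 0x819181c1644151415168c191c191a4e8, 0,
    0x8151281c81cc8941514951a8c951c951a8e4], [0, 0x141288e14116416618141822e14e8,
    0x815282516841524152a821912191a4e4, 0x82518291c4425114c2c822512191c8e2,
    0x81c281c2a1841524152a8c952c952a863]]

noncomputable def n1959 : Ent := ⟨e1959, noF, [], [], [(15, 10, [1685356702439545624464619697705549435909628783578210987402487021569, 0])]⟩

def c1959 : PLift (Cov.check n1959.C.D v1959 = true) := ⟨by decide +kernel⟩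

def b1959 : PLift (entF (fidx ts) 400 1959 n1959 = true) := ⟨by decide +kernel⟩

theorem g1959 : GoodF (fidx ts) 400 1959 := GoodF.ofV v1959 n1959 c1959.down b1959.down

/-- 4686454:1655/10 -/
noncomputable def e1960 : SCfg where
  D := {
    a := 7
    L := 9
    kp := 6
    inn := [(0, 1), (0, 2), (0, 3), (1, 0), (1, 3), (2, 0), (2, 3), (2, 4), (2, 5), (3, 0), (3, 1), (3,
      2), (4, 2), (5, 2), (5, 6), (6, 5)]
    mix := [(0, 0), (1, 0), (1, 1), (1, 2), (1, 3), (2, 0), (2, 4), (2, 5), (2, 6), (3, 1), (3, 6), (3,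
      7), (4, 0), (4, 4), (4, 8), (5, 2), (5, 4), (5, 5), (6, 2), (6, 3), (6, 4)]
    cl := [0, 0, 3, 4, 1, 1, 2, 5, 6]
    chq := [(0, 1), (0, 2), (1, 0), (2, 0)]
    rng := [(0, 3), (0, 8), (1, 2), (1, 7), (2, 1), (2, 3), (2, 5), (3, 0), (3, 2), (3, 4), (4, 3), (4,
      8), (5, 2), (5, 6), (6, 5), (6, 7), (7, 1), (7, 6), (8, 0), (8, 4)]
    lev := [] }
  links := [[1, 7, 2, 3], [7, 0, 3, 8, 9, 10], [3, 0, 7, 4, 11, 5, 12, 13], [8, 1, 0, 2, 13, 14], [11, 2,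
    7, 15], [12, 2, 11, 6, 9], [9, 5, 11, 10]]
  P := {
    a := 7
    N := 16
    nb := [142, 1929, 14521, 24839, 34948, 6724, 3616, 33815, 16906, 5474, 2754, 33908, 8740, 20492,
      8456, 2192]
    tri := [(0, 1, 3), (0, 1, 7), (0, 2, 3), (0, 2, 7), (1, 3, 8), (1, 7, 10), (1, 8, 9), (1, 9, 10),
      (2, 3, 13), (2, 4, 7), (2, 4, 11), (2, 5, 11), (2, 5, 12), (2, 12, 13), (3, 8, 14), (3, 13,
      14), (4, 7, 15), (4, 11, 15), (5, 6, 9), (5, 6, 11), (5, 9, 12), (6, 9, 10), (6, 10, 11)]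
    fin := [0, 0, 0, 0, 0, 5, 5, 0, 0, 9, 10, 5, 5, 13, 14, 15]
    chd := [(0, 5), (0, 13)]
    steps := [(0, 1), (0, 2), (0, 3), (0, 4), (0, 7), (0, 8), (5, 6), (5, 11), (5, 12)] }
  rep := [0, 5, 13, 9, 10, 14, 15]

noncomputable def v1960 : Cov.CovD where
  P := 3
  N := 4
  pl := [2, 3, 7, 8]
  lev := [⟨[], [], [], [], [(0, 0, [1, 2])]⟩,
    ⟨[], [(0, 0)], [(0, 0)], [3, 4], [(0, 0, [1, 2]), (1, 0, [1, 2])]⟩,
    ⟨[(0, 1)], [(0, 0), (0, 1), (0, 2), (1, 0)], [(0, 1), (0, 2), (1, 1), (1, 2)], [], [(0,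
      0, [1, 2]), (4, 1, [0]), (5, 1, [0]), (6, 2, [0])]⟩,
    ⟨[(0, 1), (0, 2), (1, 2)], [(0, 0), (0, 2), (1, 0), (1, 2), (2, 0), (2, 1), (2, 2)],
      [(0, 2)], [5], [(1, 0, [1, 2]), (6, 2, [0])]⟩,
    ⟨[(0, 2), (2, 3)], [(0, 0), (1, 0), (2, 0), (2, 1), (2, 2)], [(0, 1)], [6], [(0, 0, [1,
      2]), (4, 1, [0])]⟩,
    ⟨[(0, 2), (2, 3), (2, 4)], [(2, 0), (2, 1), (2, 2), (4, 1)], [(1, 1)], [3], [(4, 1,
      [0]), (5, 1, [0])]⟩,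
    ⟨[(2, 5)], [(2, 1), (4, 1), (5, 1)], [], [3, 4], [(4, 1, [0])]⟩]
  Ta := [((0, 3), 0, 4), ((0, 8), 0, 6), ((1, 2), 0, 3), ((1, 7), 0, 5), ((4, 3), 1, 4), ((4, 8),
    1, 6), ((5, 2), 1, 3), ((5, 6), 1, 2)]
  Tb := [((0, 3, 8), 0, 4, 6), ((1, 2, 7), 0, 3, 5), ((2, 1, 3), 3, 0, 4), ((2, 1, 5), 3, 0, 1),
    ((2, 3, 5), 3, 4, 1), ((3, 0, 2), 4, 0, 3), ((3, 0, 4), 4, 0, 1), ((3, 2, 4), 4, 3, 1),
    ((4, 3, 8), 1, 4, 6), ((5, 2, 6), 1, 3, 2), ((6, 5, 7), 2, 1, 5), ((7, 1, 6), 5, 0, 2),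
    ((8, 0, 4), 6, 0, 1)]
  Tc := [(0, 1, 2)]
  Td := [((0, 1), (0, 3), 4), ((0, 1), (0, 8), 6), ((0, 1), (1, 2), 3), ((0, 1), (1, 7), 5), ((0,
    2), (0, 3), 4), ((0, 2), (0, 8), 6), ((0, 2), (1, 2), 3), ((0, 2), (1, 7), 5), ((1, 0),
    (4, 3), 4), ((1, 0), (4, 8), 6), ((1, 0), (5, 2), 3), ((1, 0), (5, 6), 2), ((2, 0), (6,
    5), 1), ((2, 0), (6, 7), 5)]
  G := [[0, 0x8818a1444146181222a18e4, 0x1111116844144168111111c4e2, 0,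
    0x8181c184144c181111c18e2], [0, 0x8888c141414a141212a14e8, 0x181112a4142411a8112111a4e4,
    0xd121428, 0x812184421811218e4], [0, 0x8888a144414a182212c18e4,
    0x18118168411111a8111111a4e4, 0, 0x11128888c89441441a81118151a8e4], [0,
    0x8818a141444a182222c18e4, 0x18188264411142a4211111c4e8, 0xc192c192c421,
    0x882882a1441441a8111211a8e4]]

noncomputable def n1960 : Ent := ⟨e1960, noF, [], [], [(15, 10, [360035742630637297931254766822518807307257169425207333494587393, 0])]⟩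

def c1960 : PLift (Cov.check n1960.C.D v1960 = true) := ⟨by decide +kernel⟩

def b1960 : PLift (entF (fidx ts) 400 1960 n1960 = true) := ⟨by decide +kernel⟩

theorem g1960 : GoodF (fidx ts) 400 1960 := GoodF.ofV v1960 n1960 c1960.down b1960.down

/-- 4686454:1655/9 -/
noncomputable def e1961 : SCfg where
  D := {
    a := 7
    L := 10
    kp := 7
    inn := [(0, 1), (0, 2), (0, 3), (1, 0), (1, 3), (2, 0), (2, 3), (2, 4), (2, 5), (3, 0), (3, 1), (3,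
      2), (4, 2), (5, 2), (5, 6), (6, 5)]
    mix := [(0, 0), (1, 0), (1, 1), (1, 2), (1, 3), (2, 0), (2, 4), (2, 5), (2, 6), (3, 1), (3, 6), (3,
      7), (4, 0), (4, 4), (4, 8), (5, 4), (5, 5), (5, 9), (6, 3), (6, 4), (6, 9)]
    cl := [0, 0, 5, 3, 1, 1, 2, 6, 7, 4]
    chq := [(0, 1), (0, 2), (1, 0), (2, 0)]
    rng := [(0, 3), (0, 8), (1, 2), (1, 7), (2, 1), (2, 3), (3, 0), (3, 2), (3, 4), (3, 9), (4, 3), (4,
      8), (5, 6), (5, 9), (6, 5), (6, 7), (7, 1), (7, 6), (8, 0), (8, 4), (9, 3), (9, 5)]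
    lev := [] }
  links := [[1, 7, 2, 3], [7, 0, 3, 8, 9, 10], [3, 0, 7, 4, 11, 5, 12, 13], [8, 1, 0, 2, 13, 14], [11, 2,
    7, 15], [12, 2, 11, 6, 16], [16, 5, 11, 10]]
  P := {
    a := 7
    N := 17
    nb := [142, 1929, 14521, 24839, 34948, 71748, 68640, 33815, 16906, 1282, 68290, 33908, 73764,
      20492, 8456, 2192, 5216]
    tri := [(0, 1, 3), (0, 1, 7), (0, 2, 3), (0, 2, 7), (1, 3, 8), (1, 7, 10), (1, 8, 9), (1, 9, 10),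
      (2, 3, 13), (2, 4, 7), (2, 4, 11), (2, 5, 11), (2, 5, 12), (2, 12, 13), (3, 8, 14), (3, 13,
      14), (4, 7, 15), (4, 11, 15), (5, 6, 11), (5, 6, 16), (5, 12, 16), (6, 10, 11), (6, 10, 16)]
    fin := [0, 0, 0, 0, 0, 5, 5, 0, 0, 9, 10, 5, 5, 13, 14, 15, 16]
    chd := [(0, 5), (0, 13)]
    steps := [(0, 1), (0, 2), (0, 3), (0, 4), (0, 7), (0, 8), (5, 6), (5, 11), (5, 12)] }
  rep := [0, 5, 13, 10, 16, 9, 14, 15]

noncomputable def v1961 : Cov.CovD where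
  P := 3
  N := 5
  pl := [2, 3, 7, 8, 9]
  lev := [⟨[], [], [], [], [(0, 0, [1, 2])]⟩,
    ⟨[], [(0, 0)], [(0, 0)], [3, 5], [(0, 0, [1, 2]), (1, 0, [1, 2])]⟩,
    ⟨[(0, 1)], [(0, 0), (0, 1), (0, 2), (1, 0)], [(0, 1), (0, 2), (1, 1), (1, 2)], [], [(0,
      0, [1, 2]), (4, 1, [0]), (5, 1, [0]), (6, 2, [0])]⟩,
    ⟨[(0, 1), (0, 2), (1, 2)], [(0, 0), (0, 2), (1, 0), (1, 2), (2, 0), (2, 1), (2, 2)],
      [(0, 2)], [6], [(1, 0, [1, 2]), (6, 2, [0])]⟩,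
    ⟨[(0, 2), (2, 3)], [(0, 0), (1, 0), (2, 0), (2, 1), (2, 2)], [(0, 1)], [7], [(0, 0, [1,
      2]), (4, 1, [0])]⟩,
    ⟨[(0, 2), (2, 3), (2, 4)], [(2, 0), (2, 1), (2, 2), (4, 1)], [(1, 1)], [4], [(4, 1,
      [0]), (5, 1, [0])]⟩,
    ⟨[(2, 5)], [(2, 1), (4, 1), (5, 1)], [], [3, 4], [(4, 1, [0])]⟩]
  Ta := [((0, 3), 0, 3), ((0, 8), 0, 7), ((1, 2), 0, 5), ((1, 7), 0, 6), ((4, 3), 1, 3), ((4, 8),
    1, 7), ((5, 6), 1, 2), ((5, 9), 1, 4)]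
  Tb := [((0, 3, 8), 0, 3, 7), ((1, 2, 7), 0, 5, 6), ((2, 1, 3), 5, 0, 3), ((3, 0, 2), 3, 0, 5),
    ((3, 0, 4), 3, 0, 1), ((3, 0, 9), 3, 0, 4), ((3, 2, 4), 3, 5, 1), ((3, 2, 9), 3, 5, 4),
    ((3, 4, 9), 3, 1, 4), ((4, 3, 8), 1, 3, 7), ((5, 6, 9), 1, 2, 4), ((6, 5, 7), 2, 1, 6),
    ((7, 1, 6), 6, 0, 2), ((8, 0, 4), 7, 0, 1), ((9, 3, 5), 4, 3, 1)]
  Tc := [(0, 1, 2)]
  Td := [((0, 1), (0, 3), 3), ((0, 1), (0, 8), 7), ((0, 1), (1, 2), 5), ((0, 1), (1, 7), 6), ((0,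
    2), (0, 3), 3), ((0, 2), (0, 8), 7), ((0, 2), (1, 2), 5), ((0, 2), (1, 7), 6), ((1, 0),
    (4, 3), 3), ((1, 0), (4, 8), 7), ((1, 0), (5, 6), 2), ((1, 0), (5, 9), 4), ((2, 0), (6,
    5), 1), ((2, 0), (6, 7), 6)]
  G := [[0, 0x141812e18441218e1811a11aa14e4, 0x81918191a441514151a8c151c151c8e4, 0,
    0x815985c18495495c18c95c15c18e4], [0, 0x81a11a614181214e14181214e14e2,
    0x219181c164425141526821912151a4e8, 0x819214415218c59214e4, 0x89521814c218c95218e4], [0,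
    0x141812e18141812e1811a11aa14e4, 0x81918191a441514151a8c191c191a4e4, 0,
    0x8151281c81cc8941514151a8c151481d1a8e4], [0, 0x11c116618441812e18126116a14e2,
    0x81928291a4415214c1a8c1922191a4e4, 0x22518192c4215112c1c821c12191c4e2,
    0x81c281c2a121514151a821512151a8e4]]

noncomputable def n1961 : Ent := ⟨e1961, noF, [], [], [(15, 10, [1685356702439545624464619697705549435909628783578210987402487009281, 0]), (16, 9, [1580044410770988437310138513572361556014072927981731971036239003649, 0])]⟩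

def c1961 : PLift (Cov.check n1961.C.D v1961 = true) := ⟨by decide +kernel⟩

def b1961 : PLift (entF (fidx ts) 400 1961 n1961 = true) := ⟨by decide +kernel⟩

theorem g1961 : GoodF (fidx ts) 400 1961 := GoodF.ofV v1961 n1961 c1961.down b1961.down

/-- 4686454:1655/11 -/
noncomputable def e1962 : SCfg where
  D := {
    a := 7
    L := 10
    kp := 7
    inn := [(0, 1), (0, 2), (0, 3), (1, 0), (1, 3), (2, 0), (2, 3), (2, 4), (2, 5), (3, 0), (3, 1), (3,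
      2), (4, 2), (5, 2), (5, 6), (6, 5)]
    mix := [(0, 0), (1, 0), (1, 1), (1, 2), (1, 3), (2, 0), (2, 4), (2, 5), (2, 6), (3, 1), (3, 6), (3,
      7), (4, 0), (4, 4), (4, 8), (5, 2), (5, 4), (5, 5), (6, 2), (6, 4), (6, 9)]
    cl := [0, 0, 3, 4, 1, 1, 2, 5, 6, 7]
    chq := [(0, 1), (0, 2), (1, 0), (2, 0)]
    rng := [(0, 3), (0, 8), (1, 2), (1, 7), (2, 1), (2, 3), (2, 5), (2, 9), (3, 0), (3, 2), (4, 8), (4,
      9), (5, 2), (5, 6), (6, 5), (6, 7), (7, 1), (7, 6), (8, 0), (8, 4), (9, 2), (9, 4)]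
    lev := [] }
  links := [[1, 7, 2, 3], [7, 0, 3, 8, 9, 10], [3, 0, 7, 4, 11, 5, 12, 13], [8, 1, 0, 2, 13, 14], [11, 2,
    7, 15], [12, 2, 11, 6, 9], [9, 5, 11, 16]]
  P := {
    a := 7
    N := 17
    nb := [142, 1929, 14521, 24839, 34948, 6724, 68128, 33815, 16906, 71010, 642, 98420, 8740, 20492,
      8456, 2192, 2624]
    tri := [(0, 1, 3), (0, 1, 7), (0, 2, 3), (0, 2, 7), (1, 3, 8), (1, 7, 10), (1, 8, 9), (1, 9, 10),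
      (2, 3, 13), (2, 4, 7), (2, 4, 11), (2, 5, 11), (2, 5, 12), (2, 12, 13), (3, 8, 14), (3, 13,
      14), (4, 7, 15), (4, 11, 15), (5, 6, 9), (5, 6, 11), (5, 9, 12), (6, 9, 16), (6, 11, 16)]
    fin := [0, 0, 0, 0, 0, 5, 5, 0, 0, 9, 10, 5, 5, 13, 14, 15, 16]
    chd := [(0, 5), (0, 13)]
    steps := [(0, 1), (0, 2), (0, 3), (0, 4), (0, 7), (0, 8), (5, 6), (5, 11), (5, 12)] }
  rep := [0, 5, 13, 9, 10, 14, 15, 16]

noncomputable def v1962 : Cov.CovD where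
  P := 3
  N := 5
  pl := [2, 3, 7, 8, 9]
  lev := [⟨[], [], [], [], [(0, 0, [1, 2])]⟩,
    ⟨[], [(0, 0)], [(0, 0)], [3, 4], [(0, 0, [1, 2]), (1, 0, [1, 2])]⟩,
    ⟨[(0, 1)], [(0, 0), (0, 1), (0, 2), (1, 0)], [(0, 1), (0, 2), (1, 1), (1, 2)], [], [(0,
      0, [1, 2]), (4, 1, [0]), (5, 1, [0]), (6, 2, [0])]⟩,
    ⟨[(0, 1), (0, 2), (1, 2)], [(0, 0), (0, 2), (1, 0), (1, 2), (2, 0), (2, 1), (2, 2)],
      [(0, 2)], [5], [(1, 0, [1, 2]), (6, 2, [0])]⟩,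
    ⟨[(0, 2), (2, 3)], [(0, 0), (1, 0), (2, 0), (2, 1), (2, 2)], [(0, 1)], [6], [(0, 0, [1,
      2]), (4, 1, [0])]⟩,
    ⟨[(0, 2), (2, 3), (2, 4)], [(2, 0), (2, 1), (2, 2), (4, 1)], [(1, 1)], [3], [(4, 1,
      [0]), (5, 1, [0])]⟩,
    ⟨[(2, 5)], [(2, 1), (4, 1), (5, 1)], [], [3, 7], [(4, 1, [0])]⟩]
  Ta := [((0, 3), 0, 4), ((0, 8), 0, 6), ((1, 2), 0, 3), ((1, 7), 0, 5), ((4, 8), 1, 6), ((4, 9),
    1, 7), ((5, 2), 1, 3), ((5, 6), 1, 2)]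
  Tb := [((0, 3, 8), 0, 4, 6), ((1, 2, 7), 0, 3, 5), ((2, 1, 3), 3, 0, 4), ((2, 1, 5), 3, 0, 1),
    ((2, 1, 9), 3, 0, 7), ((2, 3, 5), 3, 4, 1), ((2, 3, 9), 3, 4, 7), ((2, 5, 9), 3, 1, 7),
    ((3, 0, 2), 4, 0, 3), ((4, 8, 9), 1, 6, 7), ((5, 2, 6), 1, 3, 2), ((6, 5, 7), 2, 1, 5),
    ((7, 1, 6), 5, 0, 2), ((8, 0, 4), 6, 0, 1), ((9, 2, 4), 7, 3, 1)]
  Tc := [(0, 1, 2)]
  Td := [((0, 1), (0, 3), 4), ((0, 1), (0, 8), 6), ((0, 1), (1, 2), 3), ((0, 1), (1, 7), 5), ((0,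
    2), (0, 3), 4), ((0, 2), (0, 8), 6), ((0, 2), (1, 2), 3), ((0, 2), (1, 7), 5), ((1, 0),
    (4, 8), 6), ((1, 0), (4, 9), 7), ((1, 0), (5, 2), 3), ((1, 0), (5, 6), 2), ((2, 0), (6,
    5), 1), ((2, 0), (6, 7), 5)]
  G := [[0, 0x1818a1414146181212618e4, 0x981911a4541541a8d11d11a8e4, 0,
    0x9191c185154c18d1d1c18e2], [0, 0x1818c1414146181212618e8, 0x98291164512511a421121168e8,
    0x2128c1851218d1214e4, 0x9121851218d1218e2], [0, 0x181861814146181212a14e4,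
    0x91191168511511c8d11d11c8e2, 0, 0x49512829898c9898ca1d41d41a8495188ea], [0,
    0x181861814146181212a14e4, 0x91291268512542a8211211a4e4,
    0x24148428142818c24188211211c8ec, 0xd82d82a1741d42a8211211a8e4]]

noncomputable def n1962 : Ent := ⟨e1962, noF, [], [], [(15, 16, [1580044410770988437309982408355971841652082177953823432505697116161, 0]), (15, 10, [1685356702439545624464619697705549435909628783578210987402487025665, 0]), (16, 10, [1580044410770988437858045522355060435978463990222429564876671844353, 0])]⟩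

def c1962 : PLift (Cov.check n1962.C.D v1962 = true) := ⟨by decide +kernel⟩

def b1962 : PLift (entF (fidx ts) 400 1962 n1962 = true) := ⟨by decide +kernel⟩

theorem g1962 : GoodF (fidx ts) 400 1962 := GoodF.ofV v1962 n1962 c1962.down b1962.down

/-- 4686454:1655 -/
noncomputable def e1963 : SCfg where
  D := {
    a := 7
    L := 11
    kp := 8
    inn := [(0, 1), (0, 2), (0, 3), (1, 0), (1, 3), (2, 0), (2, 3), (2, 4), (2, 5), (3, 0), (3, 1), (3,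
      2), (4, 2), (5, 2), (5, 6), (6, 5)]
    mix := [(0, 0), (1, 0), (1, 1), (1, 2), (1, 3), (2, 0), (2, 4), (2, 5), (2, 6), (3, 1), (3, 6), (3,
      7), (4, 0), (4, 4), (4, 8), (5, 4), (5, 5), (5, 9), (6, 4), (6, 9), (6, 10)]
    cl := [0, 0, 4, 5, 1, 1, 2, 6, 7, 3, 8]
    chq := [(0, 1), (0, 2), (1, 0), (2, 0)]
    rng := [(0, 3), (0, 8), (1, 2), (1, 7), (2, 1), (2, 3), (3, 0), (3, 2), (4, 8), (4, 10), (5, 6),
      (5, 9), (6, 5), (6, 7), (7, 1), (7, 6), (8, 0), (8, 4), (9, 5), (9, 10), (10, 4), (10, 9)]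
    lev := [] }
  links := [[1, 7, 2, 3], [7, 0, 3, 8, 9, 10], [3, 0, 7, 4, 11, 5, 12, 13], [8, 1, 0, 2, 13, 14], [11, 2,
    7, 15], [12, 2, 11, 6, 16], [16, 5, 11, 17]]
  P := {
    a := 7
    N := 18
    nb := [142, 1929, 14521, 24839, 34948, 71748, 198688, 33815, 16906, 1282, 642, 163956, 73764,
      20492, 8456, 2192, 135264, 67648]
    tri := [(0, 1, 3), (0, 1, 7), (0, 2, 3), (0, 2, 7), (1, 3, 8), (1, 7, 10), (1, 8, 9), (1, 9, 10),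
      (2, 3, 13), (2, 4, 7), (2, 4, 11), (2, 5, 11), (2, 5, 12), (2, 12, 13), (3, 8, 14), (3, 13,
      14), (4, 7, 15), (4, 11, 15), (5, 6, 11), (5, 6, 16), (5, 12, 16), (6, 11, 17), (6, 16, 17)]
    fin := [0, 0, 0, 0, 0, 5, 5, 0, 0, 9, 10, 5, 5, 13, 14, 15, 16, 17]
    chd := [(0, 5), (0, 13)]
    steps := [(0, 1), (0, 2), (0, 3), (0, 4), (0, 7), (0, 8), (5, 6), (5, 11), (5, 12)] }
  rep := [0, 5, 13, 16, 9, 10, 14, 15, 17]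

noncomputable def v1963 : Cov.CovD where
  P := 3
  N := 6
  pl := [2, 3, 7, 8, 9, 10]
  lev := [⟨[], [], [], [], [(0, 0, [1, 2])]⟩,
    ⟨[], [(0, 0)], [(0, 0)], [4, 5], [(0, 0, [1, 2]), (1, 0, [1, 2])]⟩,
    ⟨[(0, 1)], [(0, 0), (0, 1), (0, 2), (1, 0)], [(0, 1), (0, 2), (1, 1), (1, 2)], [], [(0,
      0, [1, 2]), (4, 1, [0]), (5, 1, [0]), (6, 2, [0])]⟩,
    ⟨[(0, 1), (0, 2), (1, 2)], [(0, 0), (0, 2), (1, 0), (1, 2), (2, 0), (2, 1), (2, 2)],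
      [(0, 2)], [6], [(1, 0, [1, 2]), (6, 2, [0])]⟩,
    ⟨[(0, 2), (2, 3)], [(0, 0), (1, 0), (2, 0), (2, 1), (2, 2)], [(0, 1)], [7], [(0, 0, [1,
      2]), (4, 1, [0])]⟩,
    ⟨[(0, 2), (2, 3), (2, 4)], [(2, 0), (2, 1), (2, 2), (4, 1)], [(1, 1)], [3], [(4, 1,
      [0]), (5, 1, [0])]⟩,
    ⟨[(2, 5)], [(2, 1), (4, 1), (5, 1)], [], [3, 8], [(4, 1, [0])]⟩]
  Ta := [((0, 3), 0, 5), ((0, 8), 0, 7), ((1, 2), 0, 4), ((1, 7), 0, 6), ((4, 8), 1, 7), ((4,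
    10), 1, 8), ((5, 6), 1, 2), ((5, 9), 1, 3)]
  Tb := [((0, 3, 8), 0, 5, 7), ((1, 2, 7), 0, 4, 6), ((2, 1, 3), 4, 0, 5), ((3, 0, 2), 5, 0, 4),
    ((4, 8, 10), 1, 7, 8), ((5, 6, 9), 1, 2, 3), ((6, 5, 7), 2, 1, 6), ((7, 1, 6), 6, 0, 2),
    ((8, 0, 4), 7, 0, 1), ((9, 5, 10), 3, 1, 8), ((10, 4, 9), 8, 1, 3)]
  Tc := [(0, 1, 2)]
  Td := [((0, 1), (0, 3), 5), ((0, 1), (0, 8), 7), ((0, 1), (1, 2), 4), ((0, 1), (1, 7), 6), ((0,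
    2), (0, 3), 5), ((0, 2), (0, 8), 7), ((0, 2), (1, 2), 4), ((0, 2), (1, 7), 6), ((1, 0),
    (4, 8), 7), ((1, 0), (4, 10), 8), ((1, 0), (5, 6), 2), ((1, 0), (5, 9), 3), ((2, 0), (6,
    5), 1), ((2, 0), (6, 7), 6)]
  G := [[0, 0x11a11aa14121814e18141218e18e4, 0xc591c59164c9512c5918cc951c95168e8, 0,
    0xc95c95c18c95c95c18c95c95c18e2], [0, 0x121418e18141812e18121814e18e2,
    0xc952c95268c592c592a4c952c952a8e1, 0xc95218c59214c95218e2, 0xc95218c95218c95218e4], [0,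
    0x141218e14116116618116116618e8, 0xc951c95168c591c591a4c591c591c4e2, 0,
    0xc951295c95cc89c951c951a8c951c951a8e4], [0, 0x121814e14141218e14121814e14e8,
    0x29512951a47251259168c291c291c4e2, 0x2251422918c22c12291c4622c12291c48a,
    0x95c295c2a129512951a895c295c2a1e4]]

noncomputable def n1963 : Ent := ⟨e1963, noF, [], [], [(15, 17, [6903326391201334775872065844685381424292761054348340378595029937696769, 0]), (15, 10, [7334790850167413569773892723367045092665212911714613925847584491593729, 0]), (17, 9, [6903326391201334775872066023091343012537746186634086559781921985556481, 0]), (17, 10, [6903326391201334775872705251651713694319475166462653752416129408208897, 0]), (16, 9, [7334685537875745012586738242182911904785317355859017446831218243575809, 0])]⟩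

def c1963 : PLift (Cov.check n1963.C.D v1963 = true) := ⟨by decide +kernel⟩

def b1963 : PLift (entF (fidx ts) 400 1963 n1963 = true) := ⟨by decide +kernel⟩

theorem g1963 : GoodF (fidx ts) 400 1963 := GoodF.ofV v1963 n1963 c1963.down b1963.down

/-- 4686454:1656/2 -/
noncomputable def e1964 : SCfg where
  D := {
    a := 7
    L := 9
    kp := 6
    inn := [(0, 1), (0, 2), (0, 3), (1, 0), (1, 3), (2, 0), (2, 3), (2, 4), (2, 5), (3, 0), (3, 1), (3,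
      2), (4, 2), (5, 2), (5, 6), (6, 5)]
    mix := [(0, 0), (1, 0), (1, 1), (1, 2), (1, 3), (2, 0), (2, 4), (2, 5), (2, 6), (3, 1), (3, 6), (3,
      7), (4, 0), (4, 3), (4, 4), (5, 2), (5, 4), (5, 5), (6, 2), (6, 5), (6, 8)]
    cl := [0, 0, 3, 4, 1, 1, 2, 5, 6]
    chq := [(0, 1), (0, 2), (1, 0), (2, 0)]
    rng := [(0, 3), (1, 2), (1, 7), (2, 1), (2, 3), (2, 4), (2, 8), (3, 0), (3, 2), (3, 4), (4, 2), (4,
      3), (5, 6), (5, 8), (6, 5), (6, 7), (7, 1), (7, 6), (8, 2), (8, 5)]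
    lev := [] }
  links := [[1, 7, 2, 3], [7, 0, 3, 8, 9, 10], [3, 0, 7, 4, 11, 5, 12, 13], [8, 1, 0, 2, 13, 14], [11, 2,
    7, 10], [12, 2, 11, 9, 6], [12, 5, 9, 15]]
  P := {
    a := 7
    N := 16
    nb := [142, 1929, 14521, 24839, 3204, 6724, 37408, 1047, 16906, 36194, 2706, 1588, 41060, 20492,
      8456, 4672]
    tri := [(0, 1, 3), (0, 1, 7), (0, 2, 3), (0, 2, 7), (1, 3, 8), (1, 7, 10), (1, 8, 9), (1, 9, 10),
      (2, 3, 13), (2, 4, 7), (2, 4, 11), (2, 5, 11), (2, 5, 12), (2, 12, 13), (3, 8, 14), (3, 13,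
      14), (4, 7, 10), (4, 10, 11), (5, 6, 9), (5, 6, 12), (5, 9, 11), (6, 9, 15), (6, 12, 15)]
    fin := [0, 0, 0, 0, 0, 5, 5, 0, 0, 9, 10, 5, 5, 13, 14, 15]
    chd := [(0, 5), (0, 13)]
    steps := [(0, 1), (0, 2), (0, 3), (0, 7), (0, 4), (0, 8), (5, 6), (5, 11), (5, 12)] }
  rep := [0, 5, 13, 9, 10, 14, 15]

noncomputable def v1964 : Cov.CovD where
  P := 3
  N := 4
  pl := [2, 3, 7, 8]
  lev := [⟨[], [], [], [], [(0, 0, [1, 2])]⟩,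
    ⟨[], [(0, 0)], [(0, 0)], [3, 4], [(0, 0, [1, 2]), (1, 0, [1, 2])]⟩,
    ⟨[(0, 1)], [(0, 0), (0, 1), (0, 2), (1, 0)], [(0, 1), (0, 2), (1, 1), (1, 2)], [], [(0,
      0, [1, 2]), (4, 1, [0]), (5, 1, [0]), (6, 2, [0])]⟩,
    ⟨[(0, 1), (0, 2), (1, 2)], [(0, 0), (0, 2), (1, 0), (1, 2), (2, 0), (2, 1), (2, 2)],
      [(0, 2)], [5], [(1, 0, [1, 2]), (6, 2, [0])]⟩,
    ⟨[(0, 2), (2, 3)], [(0, 0), (1, 0), (2, 0), (2, 1), (2, 2)], [(0, 1)], [4], [(0, 0, [1,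
      2]), (4, 1, [0])]⟩,
    ⟨[(0, 2), (2, 3), (2, 4)], [(2, 0), (2, 1), (2, 2), (4, 1)], [(1, 1)], [3], [(4, 1,
      [0]), (5, 1, [0])]⟩,
    ⟨[(2, 5)], [(2, 1), (5, 1)], [], [3, 6], [(5, 1, [0])]⟩]
  Ta := [((0, 3), 0, 4), ((1, 2), 0, 3), ((1, 7), 0, 5), ((4, 2), 1, 3), ((4, 3), 1, 4), ((5, 6),
    1, 2), ((5, 8), 1, 6)]
  Tb := [((1, 2, 7), 0, 3, 5), ((2, 1, 3), 3, 0, 4), ((2, 1, 4), 3, 0, 1), ((2, 1, 8), 3, 0, 6),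
    ((2, 3, 4), 3, 4, 1), ((2, 3, 8), 3, 4, 6), ((2, 4, 8), 3, 1, 6), ((3, 0, 2), 4, 0, 3),
    ((3, 0, 4), 4, 0, 1), ((3, 2, 4), 4, 3, 1), ((4, 2, 3), 1, 3, 4), ((5, 6, 8), 1, 2, 6),
    ((6, 5, 7), 2, 1, 5), ((7, 1, 6), 5, 0, 2), ((8, 2, 5), 6, 3, 1)]
  Tc := [(0, 1, 2)]
  Td := [((0, 1), (0, 3), 4), ((0, 1), (1, 2), 3), ((0, 1), (1, 7), 5), ((0, 2), (0, 3), 4), ((0,
    2), (1, 2), 3), ((0, 2), (1, 7), 5), ((1, 0), (4, 2), 3), ((1, 0), (4, 3), 4), ((1, 0),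
    (5, 6), 2), ((1, 0), (5, 8), 6), ((2, 0), (6, 5), 1), ((2, 0), (6, 7), 5)]
  G := [[0, 0x188141441812214e4, 0x911911a4514544a8211211c8e2, 0, 0x91818514182121c18e4], [0,
    0x188141441812214e4, 0xd12d126428, 0xd121428, 0xd121824], [0, 0x188141441812218e8,
    0x981911c4544541c8211211c4e2, 0, 0x988788a12251211a8a544744a845], [0,
    0x188141441812218e8, 0xd11d126824, 0x95c295c2c124, 0xc952c952a821]]

noncomputable def n1964 : Ent := ⟨e1964, noF, [], [], []⟩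

def c1964 : PLift (Cov.check n1964.C.D v1964 = true) := ⟨by decide +kernel⟩

def b1964 : PLift (entF (fidx ts) 400 1964 n1964 = true) := ⟨by decide +kernel⟩

theorem g1964 : GoodF (fidx ts) 400 1964 := GoodF.ofV v1964 n1964 c1964.down b1964.down

/-- 4686454:1656/3 -/
noncomputable def e1965 : SCfg where
  D := {
    a := 7
    L := 9
    kp := 6
    inn := [(0, 1), (0, 2), (0, 3), (1, 0), (1, 3), (2, 0), (2, 3), (2, 4), (2, 5), (3, 0), (3, 1), (3,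
      2), (4, 2), (5, 2), (5, 6), (6, 5)]
    mix := [(0, 0), (1, 0), (1, 1), (1, 2), (1, 3), (2, 0), (2, 4), (2, 5), (2, 6), (3, 1), (3, 6), (3,
      7), (4, 0), (4, 3), (4, 4), (5, 4), (5, 5), (5, 8), (6, 2), (6, 5), (6, 8)]
    cl := [0, 0, 4, 2, 1, 1, 3, 6, 5]
    chq := [(0, 1), (0, 3), (1, 0), (3, 0)]
    rng := [(0, 3), (1, 2), (1, 7), (2, 1), (2, 3), (2, 5), (2, 8), (3, 0), (3, 2), (3, 4), (4, 3), (4,
      8), (5, 2), (5, 6), (6, 5), (6, 7), (7, 1), (7, 6), (8, 2), (8, 4)]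
    lev := [] }
  links := [[1, 7, 2, 3], [7, 0, 3, 8, 9, 10], [3, 0, 7, 4, 11, 5, 12, 13], [8, 1, 0, 2, 13, 14], [11, 2,
    7, 10], [12, 2, 11, 15, 6], [12, 5, 15, 9]]
  P := {
    a := 7
    N := 16
    nb := [142, 1929, 14521, 24839, 3204, 38980, 37408, 1047, 16906, 38210, 2706, 33844, 8804, 20492,
      8456, 2656]
    tri := [(0, 1, 3), (0, 1, 7), (0, 2, 3), (0, 2, 7), (1, 3, 8), (1, 7, 10), (1, 8, 9), (1, 9, 10),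
      (2, 3, 13), (2, 4, 7), (2, 4, 11), (2, 5, 11), (2, 5, 12), (2, 12, 13), (3, 8, 14), (3, 13,
      14), (4, 7, 10), (4, 10, 11), (5, 6, 12), (5, 6, 15), (5, 11, 15), (6, 9, 12), (6, 9, 15)]
    fin := [0, 0, 0, 0, 0, 5, 5, 0, 0, 9, 10, 5, 5, 13, 14, 15]
    chd := [(0, 5), (0, 13)]
    steps := [(0, 1), (0, 2), (0, 3), (0, 7), (0, 4), (0, 8), (5, 6), (5, 11), (5, 12)] }
  rep := [0, 5, 10, 13, 9, 15, 14]

noncomputable def v1965 : Cov.CovD where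
  P := 3
  N := 4
  pl := [2, 3, 7, 8]
  lev := [⟨[], [], [], [], [(0, 0, [1, 3])]⟩,
    ⟨[], [(0, 0)], [(0, 0)], [2, 4], [(0, 0, [1, 3]), (1, 0, [1, 3])]⟩,
    ⟨[(0, 1)], [(0, 0), (0, 1), (0, 3), (1, 0)], [(0, 1), (0, 3), (1, 1), (1, 3)], [], [(0,
      0, [1, 3]), (4, 1, [0]), (5, 1, [0]), (6, 3, [0])]⟩,
    ⟨[(0, 1), (0, 2), (1, 2)], [(0, 0), (0, 3), (1, 0), (1, 3), (2, 0), (2, 1), (2, 3)],
      [(0, 3)], [6], [(1, 0, [1, 3]), (6, 3, [0])]⟩,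
    ⟨[(0, 2), (2, 3)], [(0, 0), (1, 0), (2, 0), (2, 1), (2, 3)], [(0, 1)], [2], [(0, 0, [1,
      3]), (4, 1, [0])]⟩,
    ⟨[(0, 2), (2, 3), (2, 4)], [(2, 0), (2, 1), (2, 3), (4, 1)], [(1, 1)], [5], [(4, 1,
      [0]), (5, 1, [0])]⟩,
    ⟨[(2, 5)], [(2, 1), (5, 1)], [], [4, 5], [(5, 1, [0])]⟩]
  Ta := [((0, 3), 0, 2), ((1, 2), 0, 4), ((1, 7), 0, 6), ((4, 3), 1, 2), ((4, 8), 1, 5), ((5, 2),
    1, 4), ((5, 6), 1, 3)]
  Tb := [((1, 2, 7), 0, 4, 6), ((2, 1, 3), 4, 0, 2), ((2, 1, 5), 4, 0, 1), ((2, 1, 8), 4, 0, 5),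
    ((2, 3, 5), 4, 2, 1), ((2, 3, 8), 4, 2, 5), ((2, 5, 8), 4, 1, 5), ((3, 0, 2), 2, 0, 4),
    ((3, 0, 4), 2, 0, 1), ((3, 2, 4), 2, 4, 1), ((4, 3, 8), 1, 2, 5), ((5, 2, 6), 1, 4, 3),
    ((6, 5, 7), 3, 1, 6), ((7, 1, 6), 6, 0, 3), ((8, 2, 4), 5, 4, 1)]
  Tc := [(0, 1, 3)]
  Td := [((0, 1), (0, 3), 2), ((0, 1), (1, 2), 4), ((0, 1), (1, 7), 6), ((0, 3), (0, 3), 2), ((0,
    3), (1, 2), 4), ((0, 3), (1, 7), 6), ((1, 0), (4, 3), 2), ((1, 0), (4, 8), 5), ((1, 0),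
    (5, 2), 4), ((1, 0), (5, 6), 3), ((3, 0), (6, 5), 1), ((3, 0), (6, 7), 6)]
  G := [[0, 0x81a8111641614a4114c81ac4, 0x2154121981c22, 0x21988294642254222c81cc225818415488ca,
    0x219821586422158182c], [0, 0x116811168161164111c81cc8, 0x8158181941c14c4141921cc2, 0,
    0x819281c26441521419841926ca8158188a], [0, 0x11a4181c81a1164114c81ac4, 0,
    0x22982158622c882c4a542514154c21c422c869c2, 0x2b91492c8252c251882a], [0,
    0x81a4111c4161164111a41cc8, 0, 0, 0x8192819864884c281c8a141514191a14c814c869ac]]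

noncomputable def n1965 : Ent := ⟨e1965, noF, [], [], []⟩

def c1965 : PLift (Cov.check n1965.C.D v1965 = true) := ⟨by decide +kernel⟩

def b1965 : PLift (entF (fidx ts) 400 1965 n1965 = true) := ⟨by decide +kernel⟩

theorem g1965 : GoodF (fidx ts) 400 1965 := GoodF.ofV v1965 n1965 c1965.down b1965.down

/-- 4686454:1656/1 -/
noncomputable def e1966 : SCfg where
  D := {
    a := 7
    L := 10
    kp := 7
    inn := [(0, 1), (0, 2), (0, 3), (1, 0), (1, 3), (2, 0), (2, 3), (2, 4), (2, 5), (3, 0), (3, 1), (3,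
      2), (4, 2), (5, 2), (5, 6), (6, 5)]
    mix := [(0, 0), (1, 0), (1, 1), (1, 2), (1, 3), (2, 0), (2, 4), (2, 5), (2, 6), (3, 1), (3, 6), (3,
      7), (4, 0), (4, 3), (4, 4), (5, 4), (5, 5), (5, 8), (6, 5), (6, 8), (6, 9)]
    cl := [0, 0, 5, 2, 1, 1, 3, 6, 4, 7]
    chq := [(0, 1), (0, 3), (1, 0), (3, 0)]
    rng := [(0, 3), (1, 2), (1, 7), (2, 1), (2, 3), (3, 0), (3, 2), (3, 4), (4, 3), (4, 8), (5, 6), (5,
      9), (6, 5), (6, 7), (7, 1), (7, 6), (8, 4), (8, 9), (9, 5), (9, 8)]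
    lev := [] }
  links := [[1, 7, 2, 3], [7, 0, 3, 8, 9, 10], [3, 0, 7, 4, 11, 5, 12, 13], [8, 1, 0, 2, 13, 14], [11, 2,
    7, 10], [12, 2, 11, 15, 6], [12, 5, 15, 16]]
  P := {
    a := 7
    N := 17
    nb := [142, 1929, 14521, 24839, 3204, 38980, 102432, 1047, 16906, 1282, 2706, 33844, 73828, 20492,
      8456, 67680, 36928]
    tri := [(0, 1, 3), (0, 1, 7), (0, 2, 3), (0, 2, 7), (1, 3, 8), (1, 7, 10), (1, 8, 9), (1, 9, 10),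
      (2, 3, 13), (2, 4, 7), (2, 4, 11), (2, 5, 11), (2, 5, 12), (2, 12, 13), (3, 8, 14), (3, 13,
      14), (4, 7, 10), (4, 10, 11), (5, 6, 12), (5, 6, 15), (5, 11, 15), (6, 12, 16), (6, 15, 16)]
    fin := [0, 0, 0, 0, 0, 5, 5, 0, 0, 9, 10, 5, 5, 13, 14, 15, 16]
    chd := [(0, 5), (0, 13)]
    steps := [(0, 1), (0, 2), (0, 3), (0, 7), (0, 4), (0, 8), (5, 6), (5, 11), (5, 12)] }
  rep := [0, 5, 10, 13, 15, 9, 14, 16]

noncomputable def v1966 : Cov.CovD where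
  P := 3
  N := 5
  pl := [2, 3, 7, 8, 9]
  lev := [⟨[], [], [], [], [(0, 0, [1, 3])]⟩,
    ⟨[], [(0, 0)], [(0, 0)], [2, 5], [(0, 0, [1, 3]), (1, 0, [1, 3])]⟩,
    ⟨[(0, 1)], [(0, 0), (0, 1), (0, 3), (1, 0)], [(0, 1), (0, 3), (1, 1), (1, 3)], [], [(0,
      0, [1, 3]), (4, 1, [0]), (5, 1, [0]), (6, 3, [0])]⟩,
    ⟨[(0, 1), (0, 2), (1, 2)], [(0, 0), (0, 3), (1, 0), (1, 3), (2, 0), (2, 1), (2, 3)],
      [(0, 3)], [6], [(1, 0, [1, 3]), (6, 3, [0])]⟩,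
    ⟨[(0, 2), (2, 3)], [(0, 0), (1, 0), (2, 0), (2, 1), (2, 3)], [(0, 1)], [2], [(0, 0, [1,
      3]), (4, 1, [0])]⟩,
    ⟨[(0, 2), (2, 3), (2, 4)], [(2, 0), (2, 1), (2, 3), (4, 1)], [(1, 1)], [4], [(4, 1,
      [0]), (5, 1, [0])]⟩,
    ⟨[(2, 5)], [(2, 1), (5, 1)], [], [4, 7], [(5, 1, [0])]⟩]
  Ta := [((0, 3), 0, 2), ((1, 2), 0, 5), ((1, 7), 0, 6), ((4, 3), 1, 2), ((4, 8), 1, 4), ((5, 6),
    1, 3), ((5, 9), 1, 7)]
  Tb := [((1, 2, 7), 0, 5, 6), ((2, 1, 3), 5, 0, 2), ((3, 0, 2), 2, 0, 5), ((3, 0, 4), 2, 0, 1),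
    ((3, 2, 4), 2, 5, 1), ((4, 3, 8), 1, 2, 4), ((5, 6, 9), 1, 3, 7), ((6, 5, 7), 3, 1, 6),
    ((7, 1, 6), 6, 0, 3), ((8, 4, 9), 4, 1, 7), ((9, 5, 8), 7, 1, 4)]
  Tc := [(0, 1, 3)]
  Td := [((0, 1), (0, 3), 2), ((0, 1), (1, 2), 5), ((0, 1), (1, 7), 6), ((0, 3), (0, 3), 2), ((0,
    3), (1, 2), 5), ((0, 3), (1, 7), 6), ((1, 0), (4, 3), 2), ((1, 0), (4, 8), 4), ((1, 0),
    (5, 6), 3), ((1, 0), (5, 9), 7), ((3, 0), (6, 5), 1), ((3, 0), (6, 7), 6)]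
  G := [[0, 0x11a8111641611a4111c41ac4, 0x6a58125981cc254125981ca4,
    0x22581229822c86c22542294a22c81cc2, 0x2958125982c263581c298c2986cc59844a6], [0,
    0x11a4111a81a11a4111c41ac4, 0xc9541c5921cc9541c5981c68, 0,
    0xc9581c598c5986cc9521c598c592c598dca2], [0, 0x11a4111a8161164111a41ac8, 0,
    0x22982291622c822c8a522512258a22c422c469c2,
    0xc298448c298292c825c8a529517258a25c825c869ac], [0, 0x11a8111681611a4111c816c8, 0, 0,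
    0xc951895c2292c592c592c95c295c2a5c59244a6]]

noncomputable def n1966 : Ent := ⟨e1966, noF, [], [], [(15, 9, [1685356702439545624008034240510833457709826487664008433929044017153, 0]), (16, 9, [1580044410770988437310138513572361556014072927981731971036239024129, 0])]⟩

def c1966 : PLift (Cov.check n1966.C.D v1966 = true) := ⟨by decide +kernel⟩

def b1966 : PLift (entF (fidx ts) 400 1966 n1966 = true) := ⟨by decide +kernel⟩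

theorem g1966 : GoodF (fidx ts) 400 1966 := GoodF.ofV v1966 n1966 c1966.down b1966.down

/-- 4686454:1656/4 -/
noncomputable def e1967 : SCfg where
  D := {
    a := 7
    L := 10
    kp := 7
    inn := [(0, 1), (0, 2), (0, 3), (1, 0), (1, 3), (2, 0), (2, 3), (2, 4), (2, 5), (3, 0), (3, 1), (3,
      2), (4, 2), (5, 2), (5, 6), (6, 5)]
    mix := [(0, 0), (1, 0), (1, 1), (1, 2), (1, 3), (2, 0), (2, 4), (2, 5), (2, 6), (3, 1), (3, 6), (3,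
      7), (4, 0), (4, 4), (4, 8), (5, 2), (5, 4), (5, 5), (6, 2), (6, 5), (6, 9)]
    cl := [0, 0, 3, 4, 1, 1, 2, 5, 6, 7]
    chq := [(0, 1), (0, 2), (1, 0), (2, 0)]
    rng := [(0, 3), (0, 8), (1, 2), (1, 7), (2, 1), (2, 3), (2, 4), (2, 9), (3, 0), (3, 2), (4, 2), (4,
      8), (5, 6), (5, 9), (6, 5), (6, 7), (7, 1), (7, 6), (8, 0), (8, 4), (9, 2), (9, 5)]
    lev := [] }
  links := [[1, 7, 2, 3], [7, 0, 3, 8, 9, 10], [3, 0, 7, 4, 11, 5, 12, 13], [8, 1, 0, 2, 13, 14], [11, 2,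
    7, 15], [12, 2, 11, 9, 6], [12, 5, 9, 16]]
  P := {
    a := 7
    N := 17
    nb := [142, 1929, 14521, 24839, 34948, 6724, 70176, 33815, 16906, 68962, 642, 33332, 73828, 20492,
      8456, 2192, 4672]
    tri := [(0, 1, 3), (0, 1, 7), (0, 2, 3), (0, 2, 7), (1, 3, 8), (1, 7, 10), (1, 8, 9), (1, 9, 10),
      (2, 3, 13), (2, 4, 7), (2, 4, 11), (2, 5, 11), (2, 5, 12), (2, 12, 13), (3, 8, 14), (3, 13,
      14), (4, 7, 15), (4, 11, 15), (5, 6, 9), (5, 6, 12), (5, 9, 11), (6, 9, 16), (6, 12, 16)]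
    fin := [0, 0, 0, 0, 0, 5, 5, 0, 0, 9, 10, 5, 5, 13, 14, 15, 16]
    chd := [(0, 5), (0, 13)]
    steps := [(0, 1), (0, 2), (0, 3), (0, 4), (0, 7), (0, 8), (5, 6), (5, 11), (5, 12)] }
  rep := [0, 5, 13, 9, 10, 14, 15, 16]

noncomputable def v1967 : Cov.CovD where
  P := 3
  N := 5
  pl := [2, 3, 7, 8, 9]
  lev := [⟨[], [], [], [], [(0, 0, [1, 2])]⟩,
    ⟨[], [(0, 0)], [(0, 0)], [3, 4], [(0, 0, [1, 2]), (1, 0, [1, 2])]⟩,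
    ⟨[(0, 1)], [(0, 0), (0, 1), (0, 2), (1, 0)], [(0, 1), (0, 2), (1, 1), (1, 2)], [], [(0,
      0, [1, 2]), (4, 1, [0]), (5, 1, [0]), (6, 2, [0])]⟩,
    ⟨[(0, 1), (0, 2), (1, 2)], [(0, 0), (0, 2), (1, 0), (1, 2), (2, 0), (2, 1), (2, 2)],
      [(0, 2)], [5], [(1, 0, [1, 2]), (6, 2, [0])]⟩,
    ⟨[(0, 2), (2, 3)], [(0, 0), (1, 0), (2, 0), (2, 1), (2, 2)], [(0, 1)], [6], [(0, 0, [1,
      2]), (4, 1, [0])]⟩,
    ⟨[(0, 2), (2, 3), (2, 4)], [(2, 0), (2, 1), (2, 2), (4, 1)], [(1, 1)], [3], [(4, 1,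
      [0]), (5, 1, [0])]⟩,
    ⟨[(2, 5)], [(2, 1), (5, 1)], [], [3, 7], [(5, 1, [0])]⟩]
  Ta := [((0, 3), 0, 4), ((0, 8), 0, 6), ((1, 2), 0, 3), ((1, 7), 0, 5), ((4, 2), 1, 3), ((4, 8),
    1, 6), ((5, 6), 1, 2), ((5, 9), 1, 7)]
  Tb := [((0, 3, 8), 0, 4, 6), ((1, 2, 7), 0, 3, 5), ((2, 1, 3), 3, 0, 4), ((2, 1, 4), 3, 0, 1),
    ((2, 1, 9), 3, 0, 7), ((2, 3, 4), 3, 4, 1), ((2, 3, 9), 3, 4, 7), ((2, 4, 9), 3, 1, 7),
    ((3, 0, 2), 4, 0, 3), ((4, 2, 8), 1, 3, 6), ((5, 6, 9), 1, 2, 7), ((6, 5, 7), 2, 1, 5),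
    ((7, 1, 6), 5, 0, 2), ((8, 0, 4), 6, 0, 1), ((9, 2, 5), 7, 3, 1)]
  Tc := [(0, 1, 2)]
  Td := [((0, 1), (0, 3), 4), ((0, 1), (0, 8), 6), ((0, 1), (1, 2), 3), ((0, 1), (1, 7), 5), ((0,
    2), (0, 3), 4), ((0, 2), (0, 8), 6), ((0, 2), (1, 2), 3), ((0, 2), (1, 7), 5), ((1, 0),
    (4, 2), 3), ((1, 0), (4, 8), 6), ((1, 0), (5, 6), 2), ((1, 0), (5, 9), 7), ((2, 0), (6,
    5), 1), ((2, 0), (6, 7), 5)]
  G := [[0, 0x1818a1414146181212618e4, 0x711911a4511511a8211211c8e4, 0,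
    0x9191c185151c182121c18e4], [0, 0x18186181414c181212a18e4, 0x9119116451254268d11d1168e8,
    0x9821451218d1214e8, 0x9121854218d1218e4], [0, 0x181861414146181212a14e2,
    0x981911a4541541a8211211a8e4, 0, 0x781278e8c89741541a82112251a8e4], [0,
    0x181861414146181212614e8, 0x911981a4541541a8d11d12a4e4, 0x95c295c2c12982982c1542542c1c6,
    0xd82982a1512d42a8c9514951a8e4]]

noncomputable def n1967 : Ent := ⟨e1967, noF, [], [], [(15, 10, [1685356702439545624464619697705549435909628783578210987402487054337, 0])]⟩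

def c1967 : PLift (Cov.check n1967.C.D v1967 = true) := ⟨by decide +kernel⟩

def b1967 : PLift (entF (fidx ts) 400 1967 n1967 = true) := ⟨by decide +kernel⟩

theorem g1967 : GoodF (fidx ts) 400 1967 := GoodF.ofV v1967 n1967 c1967.down b1967.down

/-- 4686454:1656/5 -/
noncomputable def e1968 : SCfg where
  D := {
    a := 7
    L := 10
    kp := 7
    inn := [(0, 1), (0, 2), (0, 3), (1, 0), (1, 3), (2, 0), (2, 3), (2, 4), (2, 5), (3, 0), (3, 1), (3,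
      2), (4, 2), (5, 2), (5, 6), (6, 5)]
    mix := [(0, 0), (1, 0), (1, 1), (1, 2), (1, 3), (2, 0), (2, 4), (2, 5), (2, 6), (3, 1), (3, 6), (3,
      7), (4, 0), (4, 4), (4, 8), (5, 4), (5, 5), (5, 9), (6, 2), (6, 5), (6, 9)]
    cl := [0, 0, 3, 5, 1, 1, 2, 6, 7, 4]
    chq := [(0, 1), (0, 2), (1, 0), (2, 0)]
    rng := [(0, 3), (0, 8), (1, 2), (1, 7), (2, 1), (2, 3), (2, 5), (2, 9), (3, 0), (3, 2), (4, 8), (4,
      9), (5, 2), (5, 6), (6, 5), (6, 7), (7, 1), (7, 6), (8, 0), (8, 4), (9, 2), (9, 4)]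
    lev := [] }
  links := [[1, 7, 2, 3], [7, 0, 3, 8, 9, 10], [3, 0, 7, 4, 11, 5, 12, 13], [8, 1, 0, 2, 13, 14], [11, 2,
    7, 15], [12, 2, 11, 16, 6], [12, 5, 16, 9]]
  P := {
    a := 7
    N := 17
    nb := [142, 1929, 14521, 24839, 34948, 71748, 70176, 33815, 16906, 70978, 642, 98356, 8804, 20492,
      8456, 2192, 2656]
    tri := [(0, 1, 3), (0, 1, 7), (0, 2, 3), (0, 2, 7), (1, 3, 8), (1, 7, 10), (1, 8, 9), (1, 9, 10),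
      (2, 3, 13), (2, 4, 7), (2, 4, 11), (2, 5, 11), (2, 5, 12), (2, 12, 13), (3, 8, 14), (3, 13,
      14), (4, 7, 15), (4, 11, 15), (5, 6, 12), (5, 6, 16), (5, 11, 16), (6, 9, 12), (6, 9, 16)]
    fin := [0, 0, 0, 0, 0, 5, 5, 0, 0, 9, 10, 5, 5, 13, 14, 15, 16]
    chd := [(0, 5), (0, 13)]
    steps := [(0, 1), (0, 2), (0, 3), (0, 4), (0, 7), (0, 8), (5, 6), (5, 11), (5, 12)] }
  rep := [0, 5, 13, 9, 16, 10, 14, 15]

noncomputable def v1968 : Cov.CovD where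
  P := 3
  N := 5
  pl := [2, 3, 7, 8, 9]
  lev := [⟨[], [], [], [], [(0, 0, [1, 2])]⟩,
    ⟨[], [(0, 0)], [(0, 0)], [3, 5], [(0, 0, [1, 2]), (1, 0, [1, 2])]⟩,
    ⟨[(0, 1)], [(0, 0), (0, 1), (0, 2), (1, 0)], [(0, 1), (0, 2), (1, 1), (1, 2)], [], [(0,
      0, [1, 2]), (4, 1, [0]), (5, 1, [0]), (6, 2, [0])]⟩,
    ⟨[(0, 1), (0, 2), (1, 2)], [(0, 0), (0, 2), (1, 0), (1, 2), (2, 0), (2, 1), (2, 2)],
      [(0, 2)], [6], [(1, 0, [1, 2]), (6, 2, [0])]⟩,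
    ⟨[(0, 2), (2, 3)], [(0, 0), (1, 0), (2, 0), (2, 1), (2, 2)], [(0, 1)], [7], [(0, 0, [1,
      2]), (4, 1, [0])]⟩,
    ⟨[(0, 2), (2, 3), (2, 4)], [(2, 0), (2, 1), (2, 2), (4, 1)], [(1, 1)], [4], [(4, 1,
      [0]), (5, 1, [0])]⟩,
    ⟨[(2, 5)], [(2, 1), (5, 1)], [], [3, 4], [(5, 1, [0])]⟩]
  Ta := [((0, 3), 0, 5), ((0, 8), 0, 7), ((1, 2), 0, 3), ((1, 7), 0, 6), ((4, 8), 1, 7), ((4, 9),
    1, 4), ((5, 2), 1, 3), ((5, 6), 1, 2)]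
  Tb := [((0, 3, 8), 0, 5, 7), ((1, 2, 7), 0, 3, 6), ((2, 1, 3), 3, 0, 5), ((2, 1, 5), 3, 0, 1),
    ((2, 1, 9), 3, 0, 4), ((2, 3, 5), 3, 5, 1), ((2, 3, 9), 3, 5, 4), ((2, 5, 9), 3, 1, 4),
    ((3, 0, 2), 5, 0, 3), ((4, 8, 9), 1, 7, 4), ((5, 2, 6), 1, 3, 2), ((6, 5, 7), 2, 1, 6),
    ((7, 1, 6), 6, 0, 2), ((8, 0, 4), 7, 0, 1), ((9, 2, 4), 4, 3, 1)]
  Tc := [(0, 1, 2)]
  Td := [((0, 1), (0, 3), 5), ((0, 1), (0, 8), 7), ((0, 1), (1, 2), 3), ((0, 1), (1, 7), 6), ((0,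
    2), (0, 3), 5), ((0, 2), (0, 8), 7), ((0, 2), (1, 2), 3), ((0, 2), (1, 7), 6), ((1, 0),
    (4, 8), 7), ((1, 0), (4, 9), 4), ((1, 0), (5, 2), 3), ((1, 0), (5, 6), 2), ((2, 0), (6,
    5), 1), ((2, 0), (6, 7), 6)]
  G := [[0, 0x141812e18441218e1811a11aa14e4, 0x8291819164415114c1a821512191c8e2, 0,
    0x815815c18215415c18215215c18e2], [0, 0x81c11aa14141218e14221418e18e2,
    0x8192819264415214c2c8c152c152a8e1, 0x81921414c218c15218e4, 0x415218c1521868152188c], [0,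
    0x81611a618121814e18141822e18e4, 0x21918291a442512191a82151215168e4, 0,
    0x2191281c81cc8942514251a821516a91a8e4], [0, 0x11c116618124418e1811612ca18e2,
    0x81928191a441524192a8c192c191a4e4, 0x81928192c441524952c8c952c152c8e1,
    0x81c281c2a141524152a895c295c2a1e4]]

noncomputable def n1968 : Ent := ⟨e1968, noF, [], [], [(15, 10, [1685356702439545624464619697705549435909628783578210987402487058433, 0])]⟩

def c1968 : PLift (Cov.check n1968.C.D v1968 = true) := ⟨by decide +kernel⟩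

def b1968 : PLift (entF (fidx ts) 400 1968 n1968 = true) := ⟨by decide +kernel⟩

theorem g1968 : GoodF (fidx ts) 400 1968 := GoodF.ofV v1968 n1968 c1968.down b1968.down

/-- 4686454:1656 -/
noncomputable def e1969 : SCfg where
  D := {
    a := 7
    L := 11
    kp := 8
    inn := [(0, 1), (0, 2), (0, 3), (1, 0), (1, 3), (2, 0), (2, 3), (2, 4), (2, 5), (3, 0), (3, 1), (3,
      2), (4, 2), (5, 2), (5, 6), (6, 5)]
    mix := [(0, 0), (1, 0), (1, 1), (1, 2), (1, 3), (2, 0), (2, 4), (2, 5), (2, 6), (3, 1), (3, 6), (3,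
      7), (4, 0), (4, 4), (4, 8), (5, 4), (5, 5), (5, 9), (6, 5), (6, 9), (6, 10)]
    cl := [0, 0, 4, 5, 1, 1, 2, 6, 7, 3, 8]
    chq := [(0, 1), (0, 2), (1, 0), (2, 0)]
    rng := [(0, 3), (0, 8), (1, 2), (1, 7), (2, 1), (2, 3), (3, 0), (3, 2), (4, 8), (4, 9), (5, 6), (5,
      10), (6, 5), (6, 7), (7, 1), (7, 6), (8, 0), (8, 4), (9, 4), (9, 10), (10, 5), (10, 9)]
    lev := [] }
  links := [[1, 7, 2, 3], [7, 0, 3, 8, 9, 10], [3, 0, 7, 4, 11, 5, 12, 13], [8, 1, 0, 2, 13, 14], [11, 2,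
    7, 15], [12, 2, 11, 16, 6], [12, 5, 16, 17]]
  P := {
    a := 7
    N := 18
    nb := [142, 1929, 14521, 24839, 34948, 71748, 200736, 33815, 16906, 1282, 642, 98356, 139364,
      20492, 8456, 2192, 133216, 69696]
    tri := [(0, 1, 3), (0, 1, 7), (0, 2, 3), (0, 2, 7), (1, 3, 8), (1, 7, 10), (1, 8, 9), (1, 9, 10),
      (2, 3, 13), (2, 4, 7), (2, 4, 11), (2, 5, 11), (2, 5, 12), (2, 12, 13), (3, 8, 14), (3, 13,
      14), (4, 7, 15), (4, 11, 15), (5, 6, 12), (5, 6, 16), (5, 11, 16), (6, 12, 17), (6, 16, 17)]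
    fin := [0, 0, 0, 0, 0, 5, 5, 0, 0, 9, 10, 5, 5, 13, 14, 15, 16, 17]
    chd := [(0, 5), (0, 13)]
    steps := [(0, 1), (0, 2), (0, 3), (0, 4), (0, 7), (0, 8), (5, 6), (5, 11), (5, 12)] }
  rep := [0, 5, 13, 16, 9, 10, 14, 15, 17]

noncomputable def v1969 : Cov.CovD where
  P := 3
  N := 6
  pl := [2, 3, 7, 8, 9, 10]
  lev := [⟨[], [], [], [], [(0, 0, [1, 2])]⟩,
    ⟨[], [(0, 0)], [(0, 0)], [4, 5], [(0, 0, [1, 2]), (1, 0, [1, 2])]⟩,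
    ⟨[(0, 1)], [(0, 0), (0, 1), (0, 2), (1, 0)], [(0, 1), (0, 2), (1, 1), (1, 2)], [], [(0,
      0, [1, 2]), (4, 1, [0]), (5, 1, [0]), (6, 2, [0])]⟩,
    ⟨[(0, 1), (0, 2), (1, 2)], [(0, 0), (0, 2), (1, 0), (1, 2), (2, 0), (2, 1), (2, 2)],
      [(0, 2)], [6], [(1, 0, [1, 2]), (6, 2, [0])]⟩,
    ⟨[(0, 2), (2, 3)], [(0, 0), (1, 0), (2, 0), (2, 1), (2, 2)], [(0, 1)], [7], [(0, 0, [1,
      2]), (4, 1, [0])]⟩,
    ⟨[(0, 2), (2, 3), (2, 4)], [(2, 0), (2, 1), (2, 2), (4, 1)], [(1, 1)], [3], [(4, 1,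
      [0]), (5, 1, [0])]⟩,
    ⟨[(2, 5)], [(2, 1), (5, 1)], [], [3, 8], [(5, 1, [0])]⟩]
  Ta := [((0, 3), 0, 5), ((0, 8), 0, 7), ((1, 2), 0, 4), ((1, 7), 0, 6), ((4, 8), 1, 7), ((4, 9),
    1, 3), ((5, 6), 1, 2), ((5, 10), 1, 8)]
  Tb := [((0, 3, 8), 0, 5, 7), ((1, 2, 7), 0, 4, 6), ((2, 1, 3), 4, 0, 5), ((3, 0, 2), 5, 0, 4),
    ((4, 8, 9), 1, 7, 3), ((5, 6, 10), 1, 2, 8), ((6, 5, 7), 2, 1, 6), ((7, 1, 6), 6, 0, 2),
    ((8, 0, 4), 7, 0, 1), ((9, 4, 10), 3, 1, 8), ((10, 5, 9), 8, 1, 3)]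
  Tc := [(0, 1, 2)]
  Td := [((0, 1), (0, 3), 5), ((0, 1), (0, 8), 7), ((0, 1), (1, 2), 4), ((0, 1), (1, 7), 6), ((0,
    2), (0, 3), 5), ((0, 2), (0, 8), 7), ((0, 2), (1, 2), 4), ((0, 2), (1, 7), 6), ((1, 0),
    (4, 8), 7), ((1, 0), (4, 9), 3), ((1, 0), (5, 6), 2), ((1, 0), (5, 10), 8), ((2, 0), (6,
    5), 1), ((2, 0), (6, 7), 6)]
  G := [[0, 0x11a11aa14121814e18141218e18e4, 0x2591c591643a5192c1a42951295168e8, 0,
    0xc25639c18295259c18c2525cc18e4], [0, 0x11a11c61811a116618141812e14e2,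
    0xc592c592a4c592c592a4c592c592c4e1, 0xc59214c95218c95218e8, 0xc95218c95218c95218e4], [0,
    0x121814e14121814e14141812e14e8, 0x2951c251682591c291a492c12591c4e2, 0,
    0x25c1292ca6cc89c25125c1a8c2512951a8e4], [0, 0x116116c18121418e18181214e14e2,
    0xc592c59264c952c95168c592c591a4e8, 0xc591c592c495c295c2c1c591495c285e2,
    0x95c295c2a12c952295c289c952c951a8c6]]

noncomputable def n1969 : Ent := ⟨e1969, noF, [], [], [(15, 10, [7334790850167413569773892723367045092665212911714613925847584491626497, 0]), (16, 9, [7334685537875745012586738242182911904785317355859017446831218243596289, 0]), (17, 9, [6903326391201334775872066023091343012537746186634086559781921985593345, 0])]⟩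

def c1969 : PLift (Cov.check n1969.C.D v1969 = true) := ⟨by decide +kernel⟩

def b1969 : PLift (entF (fidx ts) 400 1969 n1969 = true) := ⟨by decide +kernel⟩

theorem g1969 : GoodF (fidx ts) 400 1969 := GoodF.ofV v1969 n1969 c1969.down b1969.down

/-- 4845674:1661/2 -/
noncomputable def e1970 : SCfg where
  D := {
    a := 7
    L := 9
    kp := 6
    inn := [(0, 1), (0, 4), (0, 5), (1, 0), (1, 2), (1, 3), (1, 4), (2, 1), (2, 3), (3, 1), (3, 2), (4,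
      0), (4, 1), (4, 5), (5, 0), (5, 4), (5, 6), (6, 5)]
    mix := [(0, 0), (1, 0), (1, 1), (1, 2), (1, 3), (2, 1), (2, 4), (3, 2), (3, 4), (3, 5), (4, 3), (4,
      6), (4, 7), (5, 0), (5, 5), (5, 7), (5, 8), (6, 4), (6, 5), (6, 7)]
    cl := [0, 1, 2, 1, 4, 3, 5, 0, 6]
    chq := [(0, 3), (1, 3), (3, 0), (3, 1)]
    rng := [(0, 1), (0, 8), (1, 0), (1, 4), (2, 3), (2, 5), (3, 2), (3, 6), (4, 1), (4, 5), (4, 7), (5,
      2), (5, 4), (5, 8), (6, 3), (6, 7), (7, 4), (7, 6), (8, 0), (8, 5)]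
    lev := [] }
  links := [[1, 4, 5, 7], [4, 0, 7, 8, 2, 3, 9, 10], [3, 1, 8, 11], [9, 1, 2, 11, 12], [5, 0, 1, 10, 13,
    14], [7, 0, 4, 14, 6, 12, 15], [12, 5, 14, 11]]
  P := {
    a := 7
    N := 16
    nb := [178, 1949, 2314, 6662, 25635, 53457, 22560, 33059, 2182, 5130, 8722, 20812, 35432, 17424,
      10352, 4256]
    tri := [(0, 1, 4), (0, 1, 7), (0, 4, 5), (0, 5, 7), (1, 2, 3), (1, 2, 8), (1, 3, 9), (1, 4, 10),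
      (1, 7, 8), (1, 9, 10), (2, 3, 11), (2, 8, 11), (3, 9, 12), (3, 11, 12), (4, 5, 14), (4, 10,
      13), (4, 13, 14), (5, 6, 12), (5, 6, 14), (5, 7, 15), (5, 12, 15), (6, 11, 12), (6, 11, 14)]
    fin := [0, 1, 1, 1, 0, 0, 0, 0, 1, 9, 1, 11, 12, 13, 0, 15]
    chd := [(0, 12), (1, 12)]
    steps := [(0, 4), (0, 5), (0, 6), (0, 7), (0, 14), (1, 2), (1, 3), (1, 8), (1, 10)] }
  rep := [0, 1, 9, 12, 11, 13, 15]

noncomputable def v1970 : Cov.CovD where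
  P := 3
  N := 4
  pl := [2, 4, 6, 8]
  lev := [⟨[], [], [], [], [(0, 0, [3])]⟩,
    ⟨[], [(0, 0), (0, 1)], [(0, 1), (1, 1)], [2], [(0, 0, [3]), (1, 1, [3]), (3, 1, [3])]⟩,
    ⟨[(0, 1)], [(1, 0), (1, 1)], [], [4], [(1, 1, [3])]⟩,
    ⟨[(0, 1), (1, 2)], [(1, 0), (1, 1), (1, 3), (2, 1), (2, 3)], [], [2, 4], [(5, 3, [0,
      1])]⟩,
    ⟨[(0, 1), (1, 2), (1, 3)], [(0, 0), (0, 1), (1, 0), (1, 1)], [(0, 1)], [5], [(3, 1,
      [3]), (7, 0, [3])]⟩,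
    ⟨[(0, 1), (0, 4), (1, 4)], [(0, 0), (0, 3), (1, 0), (3, 3), (4, 0), (4, 1), (4, 3)],
      [(0, 0), (0, 3)], [6], [(0, 0, [3]), (5, 3, [0, 1]), (7, 0, [3])]⟩,
    ⟨[(0, 5), (4, 5)], [(3, 3), (4, 0), (5, 0), (5, 3)], [(0, 3)], [4], [(5, 3, [0, 1]),
      (7, 0, [3])]⟩]
  Ta := [((0, 1), 0, 1), ((0, 8), 0, 6), ((1, 0), 1, 0), ((1, 4), 1, 4), ((3, 2), 1, 2), ((3, 6),
    1, 5), ((7, 4), 0, 4), ((7, 6), 0, 5)]
  Tb := [((0, 1, 8), 0, 1, 6), ((1, 0, 4), 1, 0, 4), ((2, 3, 5), 2, 1, 3), ((3, 2, 6), 1, 2, 5),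
    ((4, 1, 5), 4, 1, 3), ((4, 1, 7), 4, 1, 0), ((4, 5, 7), 4, 3, 0), ((5, 2, 4), 3, 2, 4),
    ((5, 2, 8), 3, 2, 6), ((5, 4, 8), 3, 4, 6), ((6, 3, 7), 5, 1, 0), ((7, 4, 6), 0, 4, 5),
    ((8, 0, 5), 6, 0, 3)]
  Tc := [(3, 0, 1)]
  Td := [((0, 3), (0, 1), 1), ((0, 3), (0, 8), 6), ((0, 3), (7, 4), 4), ((0, 3), (7, 6), 5), ((1,
    3), (1, 0), 0), ((1, 3), (1, 4), 4), ((1, 3), (3, 2), 2), ((1, 3), (3, 6), 5), ((3, 0),
    (5, 2), 2), ((3, 0), (5, 4), 4), ((3, 0), (5, 8), 6), ((3, 1), (5, 2), 2), ((3, 1), (5,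
    4), 4), ((3, 1), (5, 8), 6)]
  G := [[0, 0x141e81a14e1111e11a14e1a42, 0x1882384461222e16948, 0, 0x4c61134223258182118c], [0,
    0, 0x14e22e32184, 0x222e11248, 0x222e11284], [0, 0, 0x4242c44828288e442c222222ce29c1, 0,
    0x228ac62228c2e2a4ce32282d81], [0, 0, 0x8a2e42246246c422622ac2b288228a886c1,
    0x226246c226222ec5228a88ac28892c1, 0x288241426222e44ce2a26a2688e2583]]

noncomputable def n1970 : Ent := ⟨e1970, noF, [], [], []⟩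

def c1970 : PLift (Cov.check n1970.C.D v1970 = true) := ⟨by decide +kernel⟩

def b1970 : PLift (entF (fidx ts) 400 1970 n1970 = true) := ⟨by decide +kernel⟩

theorem g1970 : GoodF (fidx ts) 400 1970 := GoodF.ofV v1970 n1970 c1970.down b1970.down

/-- 4845674:1661/1 -/
noncomputable def e1971 : SCfg where
  D := {
    a := 7
    L := 10
    kp := 7
    inn := [(0, 1), (0, 4), (0, 5), (1, 0), (1, 2), (1, 3), (1, 4), (2, 1), (2, 3), (3, 1), (3, 2), (4,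
      0), (4, 1), (4, 5), (5, 0), (5, 4), (5, 6), (6, 5)]
    mix := [(0, 0), (1, 0), (1, 1), (1, 2), (1, 3), (2, 1), (2, 4), (3, 2), (3, 4), (3, 5), (4, 3), (4,
      6), (4, 7), (5, 0), (5, 7), (5, 8), (5, 9), (6, 4), (6, 7), (6, 8)]
    cl := [0, 1, 1, 2, 4, 7, 6, 3, 5, 3]
    chq := [(0, 2), (0, 6), (2, 0), (6, 0)]
    rng := [(0, 1), (0, 9), (1, 0), (1, 4), (2, 3), (2, 5), (3, 2), (3, 6), (4, 1), (4, 5), (4, 7), (4,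
      8), (5, 2), (5, 4), (6, 3), (6, 7), (7, 4), (7, 6), (8, 4), (8, 9), (9, 0), (9, 8)]
    lev := [] }
  links := [[1, 4, 5, 7], [4, 0, 7, 8, 2, 3, 9, 10], [3, 1, 8, 11], [9, 1, 2, 11, 12], [5, 0, 1, 10, 13,
    14], [7, 0, 4, 14, 6, 15, 16], [15, 5, 14, 11]]
  P := {
    a := 7
    N := 17
    nb := [178, 1949, 2314, 6662, 25635, 114897, 51232, 65827, 2182, 5130, 8722, 53580, 2568, 17424,
      10352, 67680, 32928]
    tri := [(0, 1, 4), (0, 1, 7), (0, 4, 5), (0, 5, 7), (1, 2, 3), (1, 2, 8), (1, 3, 9), (1, 4, 10),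
      (1, 7, 8), (1, 9, 10), (2, 3, 11), (2, 8, 11), (3, 9, 12), (3, 11, 12), (4, 5, 14), (4, 10,
      13), (4, 13, 14), (5, 6, 14), (5, 6, 15), (5, 7, 16), (5, 15, 16), (6, 11, 14), (6, 11, 15)]
    fin := [0, 0, 2, 2, 0, 5, 6, 0, 2, 2, 10, 6, 12, 13, 5, 15, 5]
    chd := [(0, 10), (0, 13)]
    steps := [(0, 1), (0, 4), (0, 7), (2, 3), (2, 8), (2, 9), (5, 14), (5, 16), (6, 11)] }
  rep := [0, 2, 10, 5, 6, 15, 13, 12]

noncomputable def v1971 : Cov.CovD where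
  P := 3
  N := 5
  pl := [4, 5, 8]
  lev := [⟨[], [], [], [], [(0, 0, [2, 6])]⟩,
    ⟨[], [(0, 0), (0, 1), (0, 2)], [(0, 1), (0, 2), (1, 1), (1, 2)], [], [(0, 0, [2, 6]),
      (1, 1, []), (2, 1, []), (3, 2, [0])]⟩,
    ⟨[(0, 1)], [(1, 0), (1, 1), (1, 2)], [], [4], [(1, 1, [])]⟩,
    ⟨[(0, 1), (1, 2)], [(1, 0), (1, 1), (1, 2), (2, 1)], [], [4, 7], [(2, 1, [])]⟩,
    ⟨[(0, 1), (1, 2), (1, 3)], [(0, 0), (0, 2), (0, 3), (0, 6), (1, 0), (1, 1), (1, 2), (1,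
      3), (1, 6)], [(2, 3), (2, 6), (3, 6)], [], [(3, 2, [0]), (6, 6, [0]), (7, 3, [])]⟩,
    ⟨[(0, 1), (0, 4), (1, 4)], [(0, 0), (0, 3), (1, 0), (4, 0), (4, 2), (4, 3), (4, 6)],
      [(0, 3), (3, 3)], [5], [(0, 0, [2, 6]), (7, 3, []), (9, 3, [])]⟩,
    ⟨[(0, 5), (4, 5)], [(4, 3), (5, 0), (5, 3)], [], [4, 5], [(7, 3, [])]⟩]
  Ta := [((1, 0), 1, 0), ((1, 4), 1, 4), ((2, 3), 1, 2), ((2, 5), 1, 7), ((7, 4), 3, 4), ((7, 6),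
    3, 6), ((9, 0), 3, 0), ((9, 8), 3, 5)]
  Tb := [((0, 1, 9), 0, 1, 3), ((1, 0, 4), 1, 0, 4), ((2, 3, 5), 1, 2, 7), ((3, 2, 6), 2, 1, 6),
    ((4, 1, 5), 4, 1, 7), ((4, 1, 7), 4, 1, 3), ((4, 1, 8), 4, 1, 5), ((4, 5, 7), 4, 7, 3),
    ((4, 5, 8), 4, 7, 5), ((4, 7, 8), 4, 3, 5), ((5, 2, 4), 7, 1, 4), ((6, 3, 7), 6, 2, 3),
    ((7, 4, 6), 3, 4, 6), ((8, 4, 9), 5, 4, 3), ((9, 0, 8), 3, 0, 5)]
  Tc := [(0, 2, 6)]
  Td := [((0, 2), (0, 1), 1), ((0, 2), (0, 9), 3), ((0, 6), (0, 1), 1), ((0, 6), (0, 9), 3), ((2,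
    0), (3, 2), 1), ((2, 0), (3, 6), 6), ((6, 0), (6, 3), 2), ((6, 0), (6, 7), 3)]
  G := [[0, 0x835e11512e11c84, 0x818181d26f2d21d21142e1e948, 0, 0x85a1812e1688341e1d213486], [0,
    0x818e11144e11c42, 0x9218ace16124e15213982, 0, 0x892e1c213c21622e16c84], [0, 0,
    0x221221592e1d2485c1894c14a4a, 0x812e1221d12e1d2844194c1c286,
    0x221221d12e1d2885c194c1c286], [0, 0, 0x6a2e1642e11a2e1d248, 0x6a2e1642e16a1e1d248,
    0x8ace1b4ce16a1e1d282]]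

noncomputable def n1971 : Ent := ⟨e1971, noF, [], [], [(12, 15, [1685356702439545624007900436039642273970977273354372543760008159233, 0])]⟩

def c1971 : PLift (Cov.check n1971.C.D v1971 = true) := ⟨by decide +kernel⟩

def b1971 : PLift (entF (fidx ts) 400 1971 n1971 = true) := ⟨by decide +kernel⟩

theorem g1971 : GoodF (fidx ts) 400 1971 := GoodF.ofV v1971 n1971 c1971.down b1971.down

/-- 4845674:1661/4 -/
noncomputable def e1972 : SCfg where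
  D := {
    a := 7
    L := 9
    kp := 6
    inn := [(0, 1), (0, 4), (0, 5), (1, 0), (1, 2), (1, 3), (1, 4), (2, 1), (2, 3), (3, 1), (3, 2), (4,
      0), (4, 1), (4, 5), (5, 0), (5, 4), (5, 6), (6, 5)]
    mix := [(0, 0), (1, 0), (1, 1), (1, 2), (1, 3), (2, 1), (2, 4), (3, 2), (3, 4), (3, 5), (4, 3), (4,
      6), (4, 7), (5, 0), (5, 4), (5, 7), (5, 8), (6, 4), (6, 5), (6, 7)]
    cl := [0, 2, 3, 2, 1, 4, 6, 0, 5]
    chq := [(1, 3), (3, 1), (4, 5), (5, 4)]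
    rng := [(0, 1), (0, 8), (1, 0), (1, 4), (2, 3), (2, 5), (3, 2), (3, 6), (4, 1), (4, 5), (4, 8), (5,
      2), (5, 4), (5, 7), (6, 3), (6, 7), (7, 5), (7, 6), (8, 0), (8, 4)]
    lev := [] }
  links := [[1, 4, 5, 7], [4, 0, 7, 8, 2, 3, 9, 10], [3, 1, 8, 11], [9, 1, 2, 11, 12], [5, 0, 1, 10, 13,
    14], [7, 0, 4, 14, 6, 11, 15], [11, 5, 14, 12]]
  P := {
    a := 7
    N := 16
    nb := [178, 1949, 2314, 6662, 25635, 51409, 22560, 33059, 2182, 5130, 8722, 37228, 19016, 17424,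
      12400, 2208]
    tri := [(0, 1, 4), (0, 1, 7), (0, 4, 5), (0, 5, 7), (1, 2, 3), (1, 2, 8), (1, 3, 9), (1, 4, 10),
      (1, 7, 8), (1, 9, 10), (2, 3, 11), (2, 8, 11), (3, 9, 12), (3, 11, 12), (4, 5, 14), (4, 10,
      13), (4, 13, 14), (5, 6, 11), (5, 6, 14), (5, 7, 15), (5, 11, 15), (6, 11, 12), (6, 12, 14)]
    fin := [0, 1, 1, 3, 0, 5, 5, 0, 1, 9, 1, 3, 5, 13, 0, 15]
    chd := [(5, 15), (9, 3)]
    steps := [(0, 4), (0, 7), (0, 14), (1, 2), (1, 8), (1, 10), (3, 11), (5, 6), (5, 12)] }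
  rep := [0, 3, 1, 9, 5, 15, 13]

noncomputable def v1972 : Cov.CovD where
  P := 3
  N := 4
  pl := [6]
  lev := [⟨[], [], [], [], [(0, 0, [])]⟩,
    ⟨[], [(0, 0), (0, 2), (0, 3)], [(0, 2), (0, 3), (2, 2), (2, 3)], [], [(0, 0, []), (1,
      2, []), (2, 3, [1]), (3, 2, [])]⟩,
    ⟨[(0, 1)], [(1, 0), (1, 1), (1, 2), (1, 3)], [(1, 2)], [], [(1, 2, []), (4, 1, [3])]⟩,
    ⟨[(0, 1), (1, 2)], [(1, 0), (1, 1), (1, 2), (1, 3), (1, 4), (2, 1), (2, 2), (2, 3), (2,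
      4)], [(1, 3), (1, 4), (3, 4)], [], [(2, 3, [1]), (4, 1, [3]), (5, 4, [5])]⟩,
    ⟨[(0, 1), (1, 2), (1, 3)], [(0, 0), (0, 2), (1, 0), (1, 2), (1, 3)], [(0, 2)], [6],
      [(3, 2, []), (7, 0, [])]⟩,
    ⟨[(0, 1), (0, 4), (1, 4)], [(0, 0), (0, 1), (0, 5), (1, 0), (2, 1), (3, 1), (4, 0), (4,
      1), (4, 2), (4, 5)], [(0, 0), (0, 1), (0, 5), (1, 5)], [], [(0, 0, []), (4, 1, [3]),
      (7, 0, []), (8, 5, [4])]⟩,
    ⟨[(0, 5), (4, 5)], [(2, 1), (3, 1), (3, 4), (4, 0), (5, 0), (5, 1), (5, 4), (5, 5)],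
      [(0, 1), (0, 4), (1, 4)], [], [(4, 1, [3]), (5, 4, [5]), (7, 0, [])]⟩]
  Ta := [((0, 1), 0, 2), ((0, 8), 0, 5), ((1, 0), 2, 0), ((1, 4), 2, 1), ((3, 2), 2, 3), ((3, 6),
    2, 6), ((7, 5), 0, 4), ((7, 6), 0, 6)]
  Tb := [((0, 1, 8), 0, 2, 5), ((1, 0, 4), 2, 0, 1), ((2, 3, 5), 3, 2, 4), ((3, 2, 6), 2, 3, 6),
    ((4, 1, 5), 1, 2, 4), ((4, 1, 8), 1, 2, 5), ((4, 5, 8), 1, 4, 5), ((5, 2, 4), 4, 3, 1),
    ((5, 2, 7), 4, 3, 0), ((5, 4, 7), 4, 1, 0), ((6, 3, 7), 6, 2, 0), ((7, 5, 6), 0, 4, 6),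
    ((8, 0, 4), 5, 0, 1)]
  Tc := []
  Td := [((1, 3), (4, 1), 2), ((1, 3), (4, 5), 4), ((1, 3), (4, 8), 5), ((3, 1), (2, 3), 2), ((3,
    1), (2, 5), 4), ((4, 5), (5, 2), 3), ((4, 5), (5, 4), 1), ((4, 5), (5, 7), 0), ((5, 4),
    (8, 0), 0), ((5, 4), (8, 4), 1)]
  G := [[0, 0x421242684821281a48c, 0x11c11a14e1824, 0x8414819148184151c2, 0xc41184841d128], [0,
    0x8861481a448c124168c2, 0, 0, 0x841c8148c1d824], [0, 0x48c2282a448c224268c1, 0,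
    0x48c24829448c284258c1, 0x848284e444884e8484ad121], [0,
    0x886848a442c28cce4188a42428ca424a842c3, 0, 0, 0x48c24829448c844c44ca48c84ad8a1]]

noncomputable def n1972 : Ent := ⟨e1972, noF, [], [], []⟩

def c1972 : PLift (Cov.check n1972.C.D v1972 = true) := ⟨by decide +kernel⟩

def b1972 : PLift (entF (fidx ts) 400 1972 n1972 = true) := ⟨by decide +kernel⟩

theorem g1972 : GoodF (fidx ts) 400 1972 := GoodF.ofV v1972 n1972 c1972.down b1972.down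

/-- 4845674:1661/3 -/
noncomputable def e1973 : SCfg where
  D := {
    a := 7
    L := 10
    kp := 7
    inn := [(0, 1), (0, 4), (0, 5), (1, 0), (1, 2), (1, 3), (1, 4), (2, 1), (2, 3), (3, 1), (3, 2), (4,
      0), (4, 1), (4, 5), (5, 0), (5, 4), (5, 6), (6, 5)]
    mix := [(0, 0), (1, 0), (1, 1), (1, 2), (1, 3), (2, 1), (2, 4), (3, 2), (3, 4), (3, 5), (4, 3), (4,
      6), (4, 7), (5, 0), (5, 4), (5, 7), (5, 8), (6, 4), (6, 7), (6, 9)]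
    cl := [0, 2, 3, 2, 1, 6, 7, 0, 4, 5]
    chq := [(1, 3), (3, 1), (4, 5), (5, 4)]
    rng := [(0, 1), (0, 8), (1, 0), (1, 4), (2, 3), (2, 5), (3, 2), (3, 6), (4, 1), (4, 5), (4, 8), (4,
      9), (5, 2), (5, 4), (6, 3), (6, 7), (7, 6), (7, 9), (8, 0), (8, 4), (9, 4), (9, 7)]
    lev := [] }
  links := [[1, 4, 5, 7], [4, 0, 7, 8, 2, 3, 9, 10], [3, 1, 8, 11], [9, 1, 2, 11, 12], [5, 0, 1, 10, 13,
    14], [7, 0, 4, 14, 6, 11, 15], [11, 5, 14, 16]]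
  P := {
    a := 7
    N := 17
    nb := [178, 1949, 2314, 6662, 25635, 51409, 84000, 33059, 2182, 5130, 8722, 102764, 2568, 17424,
      73840, 2208, 18496]
    tri := [(0, 1, 4), (0, 1, 7), (0, 4, 5), (0, 5, 7), (1, 2, 3), (1, 2, 8), (1, 3, 9), (1, 4, 10),
      (1, 7, 8), (1, 9, 10), (2, 3, 11), (2, 8, 11), (3, 9, 12), (3, 11, 12), (4, 5, 14), (4, 10,
      13), (4, 13, 14), (5, 6, 11), (5, 6, 14), (5, 7, 15), (5, 11, 15), (6, 11, 16), (6, 14, 16)]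
    fin := [0, 1, 1, 3, 0, 5, 5, 0, 1, 9, 1, 3, 12, 13, 0, 15, 5]
    chd := [(9, 3), (15, 5)]
    steps := [(0, 4), (0, 7), (0, 14), (1, 2), (1, 8), (1, 10), (3, 11), (5, 6), (5, 16)] }
  rep := [0, 3, 1, 9, 15, 5, 12, 13]

noncomputable def v1973 : Cov.CovD where
  P := 3
  N := 5
  pl := [5, 6]
  lev := [⟨[], [], [], [], [(0, 0, [])]⟩,
    ⟨[], [(0, 0), (0, 2), (0, 3)], [(0, 2), (0, 3), (2, 2), (2, 3)], [], [(0, 0, []), (1,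
      2, []), (2, 3, [1]), (3, 2, [])]⟩,
    ⟨[(0, 1)], [(1, 0), (1, 1), (1, 2), (1, 3)], [(1, 2)], [], [(1, 2, []), (4, 1, [3])]⟩,
    ⟨[(0, 1), (1, 2)], [(1, 0), (1, 1), (1, 2), (1, 3), (2, 1), (2, 2), (2, 3)], [(1, 3)],
      [6], [(2, 3, [1]), (4, 1, [3])]⟩,
    ⟨[(0, 1), (1, 2), (1, 3)], [(0, 0), (0, 2), (1, 0), (1, 2), (1, 3)], [(0, 2)], [7],
      [(3, 2, []), (7, 0, [])]⟩,
    ⟨[(0, 1), (0, 4), (1, 4)], [(0, 0), (0, 1), (0, 4), (1, 0), (2, 1), (3, 1), (4, 0), (4,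
      1), (4, 2), (4, 4)], [(0, 0), (0, 1), (0, 4), (1, 4)], [], [(0, 0, []), (4, 1, [3]),
      (7, 0, []), (8, 4, [5])]⟩,
    ⟨[(0, 5), (4, 5)], [(2, 1), (3, 1), (4, 0), (5, 0), (5, 1), (5, 4), (5, 5)], [(0, 1),
      (0, 5), (1, 5)], [], [(4, 1, [3]), (7, 0, []), (9, 5, [4])]⟩]
  Ta := [((0, 1), 0, 2), ((0, 8), 0, 4), ((1, 0), 2, 0), ((1, 4), 2, 1), ((3, 2), 2, 3), ((3, 6),
    2, 7), ((7, 6), 0, 7), ((7, 9), 0, 5)]
  Tb := [((0, 1, 8), 0, 2, 4), ((1, 0, 4), 2, 0, 1), ((2, 3, 5), 3, 2, 6), ((3, 2, 6), 2, 3, 7),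
    ((4, 1, 5), 1, 2, 6), ((4, 1, 8), 1, 2, 4), ((4, 1, 9), 1, 2, 5), ((4, 5, 8), 1, 6, 4),
    ((4, 5, 9), 1, 6, 5), ((4, 8, 9), 1, 4, 5), ((5, 2, 4), 6, 3, 1), ((6, 3, 7), 7, 2, 0),
    ((7, 6, 9), 0, 7, 5), ((8, 0, 4), 4, 0, 1), ((9, 4, 7), 5, 1, 0)]
  Tc := []
  Td := [((1, 3), (4, 1), 2), ((1, 3), (4, 5), 6), ((1, 3), (4, 8), 4), ((1, 3), (4, 9), 5), ((3,
    1), (2, 3), 2), ((3, 1), (2, 5), 6), ((4, 5), (8, 0), 0), ((4, 5), (8, 4), 1), ((5, 4),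
    (9, 4), 1), ((5, 4), (9, 7), 0)]
  G := [[0, 0x48c148c1a42461246168c2, 0x11c11a84e41c11ca11c11a84ed824,
    0x41c211c258411c211c2918c, 0x48c11884518845d828], [0, 0x28a1228a18a48c128a168c2, 0, 0,
    0x48c148c148c1d824], [0, 0x48c24848c228548c2848c, 0, 0x48c248c29448c248c251c1,
    0x8448a84e8448a84e844884ed821], [0, 0x28a42a628ac2a68e448c828a28ac24628ace894, 0, 0,
    0x48c222c29148c848c48ca48c48cad1a4]]

noncomputable def n1973 : Ent := ⟨e1973, noF, [], [], [(12, 16, [1580044410770988437309982408355971841652082177953823432505697189889, 0])]⟩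

def c1973 : PLift (Cov.check n1973.C.D v1973 = true) := ⟨by decide +kernel⟩

def b1973 : PLift (entF (fidx ts) 400 1973 n1973 = true) := ⟨by decide +kernel⟩

theorem g1973 : GoodF (fidx ts) 400 1973 := GoodF.ofV v1973 n1973 c1973.down b1973.down

/-- 4845674:1661/5 -/
noncomputable def e1974 : SCfg where
  D := {
    a := 7
    L := 10
    kp := 7
    inn := [(0, 1), (0, 4), (0, 5), (1, 0), (1, 2), (1, 3), (1, 4), (2, 1), (2, 3), (3, 1), (3, 2), (4,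
      0), (4, 1), (4, 5), (5, 0), (5, 4), (5, 6), (6, 5)]
    mix := [(0, 0), (1, 0), (1, 1), (1, 2), (1, 3), (2, 1), (2, 4), (3, 2), (3, 4), (3, 5), (4, 3), (4,
      6), (4, 7), (5, 0), (5, 7), (5, 8), (5, 9), (6, 5), (6, 7), (6, 8)]
    cl := [0, 1, 1, 2, 4, 5, 7, 3, 6, 3]
    chq := [(0, 2), (0, 7), (2, 0), (7, 0)]
    rng := [(0, 1), (0, 9), (1, 0), (1, 4), (2, 3), (2, 5), (3, 2), (3, 6), (4, 1), (4, 5), (5, 2), (5,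
      4), (5, 7), (5, 8), (6, 3), (6, 7), (7, 5), (7, 6), (8, 5), (8, 9), (9, 0), (9, 8)]
    lev := [] }
  links := [[1, 4, 5, 7], [4, 0, 7, 8, 2, 3, 9, 10], [3, 1, 8, 11], [9, 1, 2, 11, 12], [5, 0, 1, 10, 13,
    14], [7, 0, 4, 14, 6, 15, 16], [15, 5, 14, 12]]
  P := {
    a := 7
    N := 17
    nb := [178, 1949, 2314, 6662, 25635, 114897, 53280, 65827, 2182, 5130, 8722, 4364, 51784, 17424,
      12400, 69728, 32928]
    tri := [(0, 1, 4), (0, 1, 7), (0, 4, 5), (0, 5, 7), (1, 2, 3), (1, 2, 8), (1, 3, 9), (1, 4, 10),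
      (1, 7, 8), (1, 9, 10), (2, 3, 11), (2, 8, 11), (3, 9, 12), (3, 11, 12), (4, 5, 14), (4, 10,
      13), (4, 13, 14), (5, 6, 14), (5, 6, 15), (5, 7, 16), (5, 15, 16), (6, 12, 14), (6, 12, 15)]
    fin := [0, 0, 2, 2, 0, 5, 6, 0, 2, 2, 10, 11, 6, 13, 5, 15, 5]
    chd := [(0, 10), (0, 13)]
    steps := [(0, 1), (0, 4), (0, 7), (2, 3), (2, 8), (2, 9), (5, 14), (5, 16), (6, 12)] }
  rep := [0, 2, 10, 5, 11, 6, 15, 13]

noncomputable def v1974 : Cov.CovD where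
  P := 3
  N := 5
  pl := [4, 5, 8]
  lev := [⟨[], [], [], [], [(0, 0, [2, 7])]⟩,
    ⟨[], [(0, 0), (0, 1), (0, 2)], [(0, 1), (0, 2), (1, 1), (1, 2)], [], [(0, 0, [2, 7]),
      (1, 1, []), (2, 1, []), (3, 2, [0])]⟩,
    ⟨[(0, 1)], [(1, 0), (1, 1), (1, 2)], [], [4], [(1, 1, [])]⟩,
    ⟨[(0, 1), (1, 2)], [(1, 0), (1, 1), (1, 2), (2, 1)], [], [4, 5], [(2, 1, [])]⟩,
    ⟨[(0, 1), (1, 2), (1, 3)], [(0, 0), (0, 2), (0, 3), (0, 7), (1, 0), (1, 1), (1, 2), (1,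
      3), (1, 7)], [(2, 3), (2, 7), (3, 7)], [], [(3, 2, [0]), (6, 7, [0]), (7, 3, [])]⟩,
    ⟨[(0, 1), (0, 4), (1, 4)], [(0, 0), (0, 3), (1, 0), (4, 0), (4, 2), (4, 3), (4, 7)],
      [(0, 3), (3, 3)], [6], [(0, 0, [2, 7]), (7, 3, []), (9, 3, [])]⟩,
    ⟨[(0, 5), (4, 5)], [(4, 3), (5, 0), (5, 3)], [], [5, 6], [(7, 3, [])]⟩]
  Ta := [((1, 0), 1, 0), ((1, 4), 1, 4), ((2, 3), 1, 2), ((2, 5), 1, 5), ((7, 5), 3, 5), ((7, 6),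
    3, 7), ((9, 0), 3, 0), ((9, 8), 3, 6)]
  Tb := [((0, 1, 9), 0, 1, 3), ((1, 0, 4), 1, 0, 4), ((2, 3, 5), 1, 2, 5), ((3, 2, 6), 2, 1, 7),
    ((4, 1, 5), 4, 1, 5), ((5, 2, 4), 5, 1, 4), ((5, 2, 7), 5, 1, 3), ((5, 2, 8), 5, 1, 6),
    ((5, 4, 7), 5, 4, 3), ((5, 4, 8), 5, 4, 6), ((5, 7, 8), 5, 3, 6), ((6, 3, 7), 7, 2, 3),
    ((7, 5, 6), 3, 5, 7), ((8, 5, 9), 6, 5, 3), ((9, 0, 8), 3, 0, 6)]
  Tc := [(0, 2, 7)]
  Td := [((0, 2), (0, 1), 1), ((0, 2), (0, 9), 3), ((0, 7), (0, 1), 1), ((0, 7), (0, 9), 3), ((2,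
    0), (3, 2), 1), ((2, 0), (3, 6), 7), ((7, 0), (6, 3), 2), ((7, 0), (6, 7), 3)]
  G := [[0, 0xb71e11b71e11682, 0x22122214c895c1284c1931e15946, 0,
    0x12611812e1282a18d814c1214c14c86], [0, 0xb91e11319e11c84,
    0x32612181a263858129c644e1448a, 0, 0x426145261258838e1181c981258a], [0, 0,
    0x541441c2493a1483a1d12e1968c, 0x82a192a1592e1d2854184414a46,
    0x321221d13e1d2885c194c1c286], [0, 0, 0x8ace194ce1319e1d242, 0x8a2e16a2e1d12e1d284,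
    0x8ace1b4ce16a1e1d282]]

noncomputable def n1974 : Ent := ⟨e1974, noF, [], [], [(11, 15, [1685356702439545624007900436039642273970977273354372543760008167425, 0])]⟩

def c1974 : PLift (Cov.check n1974.C.D v1974 = true) := ⟨by decide +kernel⟩

def b1974 : PLift (entF (fidx ts) 400 1974 n1974 = true) := ⟨by decide +kernel⟩

theorem g1974 : GoodF (fidx ts) 400 1974 := GoodF.ofV v1974 n1974 c1974.down b1974.down

/-- 4845674:1661/6 -/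
noncomputable def e1975 : SCfg where
  D := {
    a := 7
    L := 10
    kp := 7
    inn := [(0, 1), (0, 4), (0, 5), (1, 0), (1, 2), (1, 3), (1, 4), (2, 1), (2, 3), (3, 1), (3, 2), (4,
      0), (4, 1), (4, 5), (5, 0), (5, 4), (5, 6), (6, 5)]
    mix := [(0, 0), (1, 0), (1, 1), (1, 2), (1, 3), (2, 1), (2, 4), (3, 2), (3, 4), (3, 5), (4, 3), (4,
      6), (4, 7), (5, 0), (5, 5), (5, 7), (5, 8), (6, 5), (6, 7), (6, 9)]
    cl := [0, 1, 2, 1, 4, 3, 7, 0, 5, 6]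
    chq := [(1, 3), (3, 1), (5, 6), (6, 5)]
    rng := [(0, 1), (0, 8), (1, 0), (1, 4), (2, 3), (2, 5), (3, 2), (3, 6), (4, 1), (4, 5), (5, 2), (5,
      4), (5, 8), (5, 9), (6, 3), (6, 7), (7, 6), (7, 9), (8, 0), (8, 5), (9, 5), (9, 7)]
    lev := [] }
  links := [[1, 4, 5, 7], [4, 0, 7, 8, 2, 3, 9, 10], [3, 1, 8, 11], [9, 1, 2, 11, 12], [5, 0, 1, 10, 13,
    14], [7, 0, 4, 14, 6, 12, 15], [12, 5, 14, 16]]
  P := {
    a := 7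
    N := 17
    nb := [178, 1949, 2314, 6662, 25635, 53457, 86048, 33059, 2182, 5130, 8722, 4364, 100968, 17424,
      73840, 4256, 20544]
    tri := [(0, 1, 4), (0, 1, 7), (0, 4, 5), (0, 5, 7), (1, 2, 3), (1, 2, 8), (1, 3, 9), (1, 4, 10),
      (1, 7, 8), (1, 9, 10), (2, 3, 11), (2, 8, 11), (3, 9, 12), (3, 11, 12), (4, 5, 14), (4, 10,
      13), (4, 13, 14), (5, 6, 12), (5, 6, 14), (5, 7, 15), (5, 12, 15), (6, 12, 16), (6, 14, 16)]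
    fin := [0, 1, 1, 1, 0, 5, 5, 0, 1, 9, 1, 11, 12, 13, 0, 15, 5]
    chd := [(1, 12), (15, 5)]
    steps := [(0, 4), (0, 7), (0, 14), (1, 2), (1, 3), (1, 8), (1, 10), (5, 6), (5, 16)] }
  rep := [0, 1, 9, 12, 11, 15, 5, 13]

noncomputable def v1975 : Cov.CovD where
  P := 3
  N := 5
  pl := [2, 4, 6]
  lev := [⟨[], [], [], [], [(0, 0, [])]⟩,
    ⟨[], [(0, 0), (0, 1)], [(0, 1), (1, 1)], [2], [(0, 0, []), (1, 1, [3]), (3, 1, [3])]⟩,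
    ⟨[(0, 1)], [(1, 0), (1, 1)], [], [4], [(1, 1, [3])]⟩,
    ⟨[(0, 1), (1, 2)], [(1, 0), (1, 1), (1, 3), (2, 1), (2, 3)], [], [2, 4], [(5, 3, [1])]⟩,
    ⟨[(0, 1), (1, 2), (1, 3)], [(0, 0), (0, 1), (1, 0), (1, 1)], [(0, 1)], [7], [(3, 1,
      [3]), (7, 0, [])]⟩,
    ⟨[(0, 1), (0, 4), (1, 4)], [(0, 0), (0, 3), (0, 5), (1, 0), (3, 3), (4, 0), (4, 1), (4,
      3), (4, 5)], [(0, 0), (0, 3), (0, 5), (3, 5)], [], [(0, 0, []), (5, 3, [1]), (7, 0,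
      []), (8, 5, [6])]⟩,
    ⟨[(0, 5), (4, 5)], [(3, 3), (4, 0), (5, 0), (5, 3), (5, 5), (5, 6)], [(0, 3), (0, 6),
      (3, 6)], [], [(5, 3, [1]), (7, 0, []), (9, 6, [5])]⟩]
  Ta := [((0, 1), 0, 1), ((0, 8), 0, 5), ((1, 0), 1, 0), ((1, 4), 1, 4), ((3, 2), 1, 2), ((3, 6),
    1, 7), ((7, 6), 0, 7), ((7, 9), 0, 6)]
  Tb := [((0, 1, 8), 0, 1, 5), ((1, 0, 4), 1, 0, 4), ((2, 3, 5), 2, 1, 3), ((3, 2, 6), 1, 2, 7),
    ((4, 1, 5), 4, 1, 3), ((5, 2, 4), 3, 2, 4), ((5, 2, 8), 3, 2, 5), ((5, 2, 9), 3, 2, 6),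
    ((5, 4, 8), 3, 4, 5), ((5, 4, 9), 3, 4, 6), ((5, 8, 9), 3, 5, 6), ((6, 3, 7), 7, 1, 0),
    ((7, 6, 9), 0, 7, 6), ((8, 0, 5), 5, 0, 3), ((9, 5, 7), 6, 3, 0)]
  Tc := []
  Td := [((1, 3), (1, 0), 0), ((1, 3), (1, 4), 4), ((1, 3), (3, 2), 2), ((1, 3), (3, 6), 7), ((3,
    1), (5, 2), 2), ((3, 1), (5, 4), 4), ((3, 1), (5, 8), 5), ((3, 1), (5, 9), 6), ((5, 6),
    (8, 0), 0), ((5, 6), (8, 5), 3), ((6, 5), (9, 5), 3), ((6, 5), (9, 7), 0)]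
  G := [[0, 0x11611a11ce111611a11ce1a48, 0x246168a16428a1a461a8c2, 0,
    0x28a12461a2c6111c4233584], [0, 0, 0x121224d228a186a4e12784, 0x28a12461121222cdd242,
    0xac61228186ace12b82], [0, 0, 0x424224e44828228e8c2c222ce29c1, 0,
    0x82a8c62c6246ca68c2c2c224e3581], [0, 0, 0x28a4246246ccac622cec23288828a82cc1,
    0x246246c428a42c622cec9628a828892c1, 0xa46a4648e262ce8462c162ce8241c]]

noncomputable def n1975 : Ent := ⟨e1975, noF, [], [], [(11, 16, [1580044410770988437309982408355971841652082177953823432505697181697, 0])]⟩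

def c1975 : PLift (Cov.check n1975.C.D v1975 = true) := ⟨by decide +kernel⟩

def b1975 : PLift (entF (fidx ts) 400 1975 n1975 = true) := ⟨by decide +kernel⟩

theorem g1975 : GoodF (fidx ts) 400 1975 := GoodF.ofV v1975 n1975 c1975.down b1975.down

/-- 4845674:1661 -/
noncomputable def e1976 : SCfg where
  D := {
    a := 7
    L := 11
    kp := 8
    inn := [(0, 1), (0, 4), (0, 5), (1, 0), (1, 2), (1, 3), (1, 4), (2, 1), (2, 3), (3, 1), (3, 2), (4,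
      0), (4, 1), (4, 5), (5, 0), (5, 4), (5, 6), (6, 5)]
    mix := [(0, 0), (1, 0), (1, 1), (1, 2), (1, 3), (2, 1), (2, 4), (3, 2), (3, 4), (3, 5), (4, 3), (4,
      6), (4, 7), (5, 0), (5, 7), (5, 8), (5, 9), (6, 7), (6, 8), (6, 10)]
    cl := [0, 1, 1, 2, 4, 7, 6, 3, 5, 3, 8]
    chq := [(0, 2), (0, 6), (2, 0), (6, 0)]
    rng := [(0, 1), (0, 9), (1, 0), (1, 4), (2, 3), (2, 5), (3, 2), (3, 6), (4, 1), (4, 5), (5, 2), (5,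
      4), (6, 3), (6, 7), (7, 6), (7, 10), (8, 9), (8, 10), (9, 0), (9, 8), (10, 7), (10, 8)]
    lev := [] }
  links := [[1, 4, 5, 7], [4, 0, 7, 8, 2, 3, 9, 10], [3, 1, 8, 11], [9, 1, 2, 11, 12], [5, 0, 1, 10, 13,
    14], [7, 0, 4, 14, 6, 15, 16], [15, 5, 14, 17]]
  P := {
    a := 7
    N := 18
    nb := [178, 1949, 2314, 6662, 25635, 114897, 180256, 65827, 2182, 5130, 8722, 4364, 2568, 17424,
      139376, 196704, 32928, 49216]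
    tri := [(0, 1, 4), (0, 1, 7), (0, 4, 5), (0, 5, 7), (1, 2, 3), (1, 2, 8), (1, 3, 9), (1, 4, 10),
      (1, 7, 8), (1, 9, 10), (2, 3, 11), (2, 8, 11), (3, 9, 12), (3, 11, 12), (4, 5, 14), (4, 10,
      13), (4, 13, 14), (5, 6, 14), (5, 6, 15), (5, 7, 16), (5, 15, 16), (6, 14, 17), (6, 15, 17)]
    fin := [0, 0, 2, 2, 0, 5, 5, 0, 2, 2, 10, 11, 12, 13, 5, 15, 5, 17]
    chd := [(0, 10), (0, 13)]
    steps := [(0, 1), (0, 4), (0, 7), (2, 3), (2, 8), (2, 9), (5, 6), (5, 14), (5, 16)] }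
  rep := [0, 2, 10, 5, 11, 15, 13, 12, 17]

noncomputable def v1976 : Cov.CovD where
  P := 3
  N := 6
  pl := [4, 5, 8, 10]
  lev := [⟨[], [], [], [], [(0, 0, [2, 6])]⟩,
    ⟨[], [(0, 0), (0, 1), (0, 2)], [(0, 1), (0, 2), (1, 1), (1, 2)], [], [(0, 0, [2, 6]),
      (1, 1, []), (2, 1, []), (3, 2, [0])]⟩,
    ⟨[(0, 1)], [(1, 0), (1, 1), (1, 2)], [], [4], [(1, 1, [])]⟩,
    ⟨[(0, 1), (1, 2)], [(1, 0), (1, 1), (1, 2), (2, 1)], [], [4, 7], [(2, 1, [])]⟩,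
    ⟨[(0, 1), (1, 2), (1, 3)], [(0, 0), (0, 2), (0, 3), (0, 6), (1, 0), (1, 1), (1, 2), (1,
      3), (1, 6)], [(2, 3), (2, 6), (3, 6)], [], [(3, 2, [0]), (6, 6, [0]), (7, 3, [])]⟩,
    ⟨[(0, 1), (0, 4), (1, 4)], [(0, 0), (0, 3), (1, 0), (4, 0), (4, 2), (4, 3), (4, 6)],
      [(0, 3), (3, 3)], [5], [(0, 0, [2, 6]), (7, 3, []), (9, 3, [])]⟩,
    ⟨[(0, 5), (4, 5)], [(4, 3), (5, 0), (5, 3)], [], [5, 8], [(7, 3, [])]⟩]
  Ta := [((1, 0), 1, 0), ((1, 4), 1, 4), ((2, 3), 1, 2), ((2, 5), 1, 7), ((7, 6), 3, 6), ((7,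
    10), 3, 8), ((9, 0), 3, 0), ((9, 8), 3, 5)]
  Tb := [((0, 1, 9), 0, 1, 3), ((1, 0, 4), 1, 0, 4), ((2, 3, 5), 1, 2, 7), ((3, 2, 6), 2, 1, 6),
    ((4, 1, 5), 4, 1, 7), ((5, 2, 4), 7, 1, 4), ((6, 3, 7), 6, 2, 3), ((7, 6, 10), 3, 6, 8),
    ((8, 9, 10), 5, 3, 8), ((9, 0, 8), 3, 0, 5), ((10, 7, 8), 8, 3, 5)]
  Tc := [(0, 2, 6)]
  Td := [((0, 2), (0, 1), 1), ((0, 2), (0, 9), 3), ((0, 6), (0, 1), 1), ((0, 6), (0, 9), 3), ((2,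
    0), (3, 2), 1), ((2, 0), (3, 6), 6), ((6, 0), (6, 3), 2), ((6, 0), (6, 7), 3)]
  G := [[0, 0x93a1193a11a454115411c46, 0x53611361c536129494c1294c1981598a, 0,
    0x321222132159895c1951e1c95c12586], [0, 0x653e1165ce11a48, 0x653e16a3e196a3e12c48, 0,
    0x6ace126ace1da7e15984], [0, 0, 0x153e1153e1c153e1134881881881d24a,
    0x5415361441d2493a1981913e1d28c, 0x5361541528913e198193a1d28441828e], [0, 0,
    0x65ce16a3e165ce1d248, 0x6dbe186ace146ace11b48, 0xb7ce1bece1e7ce1d282]]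

noncomputable def n1976 : Ent := ⟨e1976, noF, [], [], [(11, 17, [6903326391201334775872065844685381424292761054348340378595029937762305, 0]), (11, 15, [7334790850167413569773436004105379185503274260204390087403942012735489, 0]), (12, 17, [6903326391201334775872065844685381424292761054348340378595029937774593, 0]), (12, 15, [7334790850167413569773436004105379185503274260204390087403942012743681, 0])]⟩

def c1976 : PLift (Cov.check n1976.C.D v1976 = true) := ⟨by decide +kernel⟩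

def b1976 : PLift (entF (fidx ts) 400 1976 n1976 = true) := ⟨by decide +kernel⟩

theorem g1976 : GoodF (fidx ts) 400 1976 := GoodF.ofV v1976 n1976 c1976.down b1976.down

/-- 4845674:1662/2 -/
noncomputable def e1977 : SCfg where
  D := {
    a := 7
    L := 9
    kp := 6
    inn := [(0, 1), (0, 4), (0, 5), (1, 0), (1, 2), (1, 3), (1, 4), (2, 1), (2, 3), (3, 1), (3, 2), (4,
      0), (4, 1), (4, 5), (5, 0), (5, 4), (5, 6), (6, 5)]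
    mix := [(0, 0), (1, 0), (1, 1), (1, 2), (1, 3), (2, 1), (2, 4), (3, 2), (3, 4), (3, 5), (4, 3), (4,
      6), (4, 7), (5, 0), (5, 5), (5, 7), (5, 8), (6, 4), (6, 5), (6, 8)]
    cl := [0, 2, 5, 0, 3, 4, 6, 1, 1]
    chq := [(0, 3), (0, 4), (3, 0), (4, 0)]
    rng := [(0, 1), (0, 8), (1, 0), (1, 4), (2, 3), (2, 5), (3, 2), (3, 6), (4, 1), (4, 5), (4, 8), (5,
      2), (5, 4), (5, 7), (6, 3), (6, 7), (7, 5), (7, 6), (8, 0), (8, 4)]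
    lev := [] }
  links := [[1, 4, 5, 7], [4, 0, 7, 8, 2, 3, 9, 10], [3, 1, 8, 11], [9, 1, 2, 11, 12], [5, 0, 1, 10, 13,
    14], [7, 0, 4, 14, 12, 6, 15], [15, 5, 12, 11]]
  P := {
    a := 7
    N := 16
    nb := [178, 1949, 2314, 6662, 25635, 53457, 38944, 33059, 2182, 5130, 8722, 37196, 19048, 17424,
      12336, 2272]
    tri := [(0, 1, 4), (0, 1, 7), (0, 4, 5), (0, 5, 7), (1, 2, 3), (1, 2, 8), (1, 3, 9), (1, 4, 10),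
      (1, 7, 8), (1, 9, 10), (2, 3, 11), (2, 8, 11), (3, 9, 12), (3, 11, 12), (4, 5, 14), (4, 10,
      13), (4, 13, 14), (5, 6, 12), (5, 6, 15), (5, 7, 15), (5, 12, 14), (6, 11, 12), (6, 11, 15)]
    fin := [0, 0, 0, 0, 0, 5, 6, 0, 8, 9, 0, 6, 12, 13, 5, 5]
    chd := [(0, 6), (0, 12)]
    steps := [(0, 1), (0, 2), (0, 3), (0, 4), (0, 7), (0, 10), (5, 14), (5, 15), (6, 11)] }
  rep := [0, 5, 8, 6, 12, 9, 13]

noncomputable def v1977 : Cov.CovD where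
  P := 3
  N := 4
  pl := [1, 2, 6]
  lev := [⟨[], [], [], [], [(0, 0, [3, 4])]⟩,
    ⟨[], [(0, 0)], [(0, 0)], [2, 5], [(0, 0, [3, 4]), (3, 0, [3, 4])]⟩,
    ⟨[(0, 1)], [(1, 0), (1, 3)], [], [2], [(4, 3, [0])]⟩,
    ⟨[(0, 1), (1, 2)], [(1, 0), (1, 3), (1, 4), (2, 3), (2, 4)], [(3, 4)], [5], [(4, 3,
      [0]), (5, 4, [0])]⟩,
    ⟨[(0, 1), (1, 2), (1, 3)], [(0, 0), (0, 1), (1, 0), (1, 1)], [(0, 1)], [6], [(3, 0, [3,
      4]), (7, 1, [])]⟩,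
    ⟨[(0, 1), (0, 4), (1, 4)], [(0, 0), (0, 1), (0, 4), (1, 0), (3, 4), (4, 0), (4, 1), (4,
      4)], [(0, 1), (0, 4), (1, 1), (1, 4)], [], [(0, 0, [3, 4]), (5, 4, [0]), (7, 1, []),
      (8, 1, [])]⟩,
    ⟨[(0, 5), (4, 5)], [(2, 3), (3, 3), (3, 4), (5, 0), (5, 1), (5, 3), (5, 4)], [(1, 3),
      (1, 4), (3, 4)], [], [(4, 3, [0]), (5, 4, [0]), (8, 1, [])]⟩]
  Ta := [((0, 1), 0, 2), ((0, 8), 0, 1), ((3, 2), 0, 5), ((3, 6), 0, 6), ((7, 5), 1, 4), ((7, 6),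
    1, 6), ((8, 0), 1, 0), ((8, 4), 1, 3)]
  Tb := [((0, 1, 8), 0, 2, 1), ((1, 0, 4), 2, 0, 3), ((2, 3, 5), 5, 0, 4), ((3, 2, 6), 0, 5, 6),
    ((4, 1, 5), 3, 2, 4), ((4, 1, 8), 3, 2, 1), ((4, 5, 8), 3, 4, 1), ((5, 2, 4), 4, 5, 3),
    ((5, 2, 7), 4, 5, 1), ((5, 4, 7), 4, 3, 1), ((6, 3, 7), 6, 0, 1), ((7, 5, 6), 1, 4, 6),
    ((8, 0, 4), 1, 0, 3)]
  Tc := [(0, 3, 4)]
  Td := [((0, 3), (0, 1), 2), ((0, 3), (0, 8), 1), ((0, 3), (3, 2), 5), ((0, 3), (3, 6), 6), ((0,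
    4), (0, 1), 2), ((0, 4), (0, 8), 1), ((0, 4), (3, 2), 5), ((0, 4), (3, 6), 6), ((3, 0),
    (4, 1), 2), ((3, 0), (4, 5), 4), ((3, 0), (4, 8), 1), ((4, 0), (5, 2), 5), ((4, 0), (5,
    4), 3), ((4, 0), (5, 7), 1)]
  G := [[0, 0, 0x21c11212c112a4, 0x88144121c1b182c113811cc2, 0x22c11292c112a4], [0,
    0x8e6c86611442c26a2c51c2284843188211cc, 0x11c211821a411c11141268c, 0x81c1114c11c95c121c2,
    0x11c121288144111c1d184c118a6], [0, 0, 0, 0x81885414212124d1448cf188118484424912ce1cd9c2,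
    0xa16124d1288411881c4148c22c21c188f9a4], [0, 0, 0, 0x158d221481c2114c21c89,
    0x142244243185185c144118469a88211c29118821a9]]

noncomputable def n1977 : Ent := ⟨e1977, noF, [], [], []⟩

def c1977 : PLift (Cov.check n1977.C.D v1977 = true) := ⟨by decide +kernel⟩

def b1977 : PLift (entF (fidx ts) 400 1977 n1977 = true) := ⟨by decide +kernel⟩

theorem g1977 : GoodF (fidx ts) 400 1977 := GoodF.ofV v1977 n1977 c1977.down b1977.down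

/-- 4845674:1662/1 -/
noncomputable def e1978 : SCfg where
  D := {
    a := 7
    L := 10
    kp := 7
    inn := [(0, 1), (0, 4), (0, 5), (1, 0), (1, 2), (1, 3), (1, 4), (2, 1), (2, 3), (3, 1), (3, 2), (4,
      0), (4, 1), (4, 5), (5, 0), (5, 4), (5, 6), (6, 5)]
    mix := [(0, 0), (1, 0), (1, 1), (1, 2), (1, 3), (2, 1), (2, 4), (3, 2), (3, 4), (3, 5), (4, 3), (4,
      6), (4, 7), (5, 0), (5, 7), (5, 8), (5, 9), (6, 4), (6, 8), (6, 9)]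
    cl := [0, 1, 1, 2, 4, 7, 6, 3, 5, 3]
    chq := [(0, 2), (0, 6), (2, 0), (6, 0)]
    rng := [(0, 1), (0, 9), (1, 0), (1, 4), (2, 3), (2, 5), (3, 2), (3, 6), (4, 1), (4, 5), (4, 8), (4,
      9), (5, 2), (5, 4), (6, 3), (6, 7), (7, 6), (7, 8), (8, 4), (8, 7), (9, 0), (9, 4)]
    lev := [] }
  links := [[1, 4, 5, 7], [4, 0, 7, 8, 2, 3, 9, 10], [3, 1, 8, 11], [9, 1, 2, 11, 12], [5, 0, 1, 10, 13,
    14], [7, 0, 4, 14, 15, 6, 16], [16, 5, 15, 11]]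
  P := {
    a := 7
    N := 17
    nb := [178, 1949, 2314, 6662, 25635, 114897, 100384, 65827, 2182, 5130, 8722, 102732, 2568, 17424,
      41008, 18528, 2272]
    tri := [(0, 1, 4), (0, 1, 7), (0, 4, 5), (0, 5, 7), (1, 2, 3), (1, 2, 8), (1, 3, 9), (1, 4, 10),
      (1, 7, 8), (1, 9, 10), (2, 3, 11), (2, 8, 11), (3, 9, 12), (3, 11, 12), (4, 5, 14), (4, 10,
      13), (4, 13, 14), (5, 6, 15), (5, 6, 16), (5, 7, 16), (5, 14, 15), (6, 11, 15), (6, 11, 16)]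
    fin := [0, 0, 2, 2, 0, 5, 6, 0, 2, 2, 10, 6, 12, 13, 5, 15, 5]
    chd := [(0, 10), (0, 13)]
    steps := [(0, 1), (0, 4), (0, 7), (2, 3), (2, 8), (2, 9), (5, 14), (5, 16), (6, 11)] }
  rep := [0, 2, 10, 5, 6, 15, 13, 12]

noncomputable def v1978 : Cov.CovD where
  P := 3
  N := 5
  pl := [4, 5, 8]
  lev := [⟨[], [], [], [], [(0, 0, [2, 6])]⟩,
    ⟨[], [(0, 0), (0, 1), (0, 2)], [(0, 1), (0, 2), (1, 1), (1, 2)], [], [(0, 0, [2, 6]),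
      (1, 1, []), (2, 1, []), (3, 2, [0])]⟩,
    ⟨[(0, 1)], [(1, 0), (1, 1), (1, 2)], [], [4], [(1, 1, [])]⟩,
    ⟨[(0, 1), (1, 2)], [(1, 0), (1, 1), (1, 2), (2, 1)], [], [4, 7], [(2, 1, [])]⟩,
    ⟨[(0, 1), (1, 2), (1, 3)], [(0, 0), (0, 2), (0, 3), (0, 6), (1, 0), (1, 1), (1, 2), (1,
      3), (1, 6)], [(2, 3), (2, 6), (3, 6)], [], [(3, 2, [0]), (6, 6, [0]), (7, 3, [])]⟩,
    ⟨[(0, 1), (0, 4), (1, 4)], [(0, 0), (0, 3), (1, 0), (4, 0), (4, 2), (4, 3), (4, 6)],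
      [(0, 3), (3, 3)], [5], [(0, 0, [2, 6]), (7, 3, []), (9, 3, [])]⟩,
    ⟨[(0, 5), (4, 5)], [(5, 0), (5, 3)], [], [4, 5], [(9, 3, [])]⟩]
  Ta := [((1, 0), 1, 0), ((1, 4), 1, 4), ((2, 3), 1, 2), ((2, 5), 1, 7), ((7, 6), 3, 6), ((7, 8),
    3, 5), ((9, 0), 3, 0), ((9, 4), 3, 4)]
  Tb := [((0, 1, 9), 0, 1, 3), ((1, 0, 4), 1, 0, 4), ((2, 3, 5), 1, 2, 7), ((3, 2, 6), 2, 1, 6),
    ((4, 1, 5), 4, 1, 7), ((4, 1, 8), 4, 1, 5), ((4, 1, 9), 4, 1, 3), ((4, 5, 8), 4, 7, 5),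
    ((4, 5, 9), 4, 7, 3), ((4, 8, 9), 4, 5, 3), ((5, 2, 4), 7, 1, 4), ((6, 3, 7), 6, 2, 3),
    ((7, 6, 8), 3, 6, 5), ((8, 4, 7), 5, 4, 3), ((9, 0, 4), 3, 0, 4)]
  Tc := [(0, 2, 6)]
  Td := [((0, 2), (0, 1), 1), ((0, 2), (0, 9), 3), ((0, 6), (0, 1), 1), ((0, 6), (0, 9), 3), ((2,
    0), (3, 2), 1), ((2, 0), (3, 6), 6), ((6, 0), (6, 3), 2), ((6, 0), (6, 7), 3)]
  G := [[0, 0x185e11838e11684, 0xc21c4ce162a1e19213582, 0, 0x8a2e1252131c1c217984], [0,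
    0x152e1124841e1184a, 0x82a128434c185a13d211416546, 0, 0x4261496134885a18816131e1298a],
    [0, 0, 0x8a2e16a2e1132e1d284, 0x6a2e1642e1612e1d248, 0x8a2e16a2e11a2e1d284], [0, 0,
    0x8181d26b8181142eb592e1d248, 0x2214261592e1d2485c1981c28a,
    0x812e1221592e1d2844194c1c486]]

noncomputable def n1978 : Ent := ⟨e1978, noF, [], [], [(12, 15, [1685356702439545624007900436039642273970977273354372543760008187905, 0])]⟩

def c1978 : PLift (Cov.check n1978.C.D v1978 = true) := ⟨by decide +kernel⟩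

def b1978 : PLift (entF (fidx ts) 400 1978 n1978 = true) := ⟨by decide +kernel⟩

theorem g1978 : GoodF (fidx ts) 400 1978 := GoodF.ofV v1978 n1978 c1978.down b1978.down

/-- 4845674:1662/3 -/
noncomputable def e1979 : SCfg where
  D := {
    a := 7
    L := 10
    kp := 7
    inn := [(0, 1), (0, 4), (0, 5), (1, 0), (1, 2), (1, 3), (1, 4), (2, 1), (2, 3), (3, 1), (3, 2), (4,
      0), (4, 1), (4, 5), (5, 0), (5, 4), (5, 6), (6, 5)]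
    mix := [(0, 0), (1, 0), (1, 1), (1, 2), (1, 3), (2, 1), (2, 4), (3, 2), (3, 4), (3, 5), (4, 3), (4,
      6), (4, 7), (5, 0), (5, 5), (5, 7), (5, 8), (6, 5), (6, 8), (6, 9)]
    cl := [0, 2, 5, 0, 4, 3, 6, 1, 1, 7]
    chq := [(0, 3), (0, 4), (3, 0), (4, 0)]
    rng := [(0, 1), (0, 8), (1, 0), (1, 4), (2, 3), (2, 5), (3, 2), (3, 6), (4, 1), (4, 5), (5, 2), (5,
      4), (5, 7), (5, 9), (6, 3), (6, 7), (7, 5), (7, 6), (8, 0), (8, 9), (9, 5), (9, 8)]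
    lev := [] }
  links := [[1, 4, 5, 7], [4, 0, 7, 8, 2, 3, 9, 10], [3, 1, 8, 11], [9, 1, 2, 11, 12], [5, 0, 1, 10, 13,
    14], [7, 0, 4, 14, 12, 6, 15], [15, 5, 12, 16]]
  P := {
    a := 7
    N := 17
    nb := [178, 1949, 2314, 6662, 25635, 53457, 102432, 33059, 2182, 5130, 8722, 4364, 84584, 17424,
      12336, 65760, 36928]
    tri := [(0, 1, 4), (0, 1, 7), (0, 4, 5), (0, 5, 7), (1, 2, 3), (1, 2, 8), (1, 3, 9), (1, 4, 10),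
      (1, 7, 8), (1, 9, 10), (2, 3, 11), (2, 8, 11), (3, 9, 12), (3, 11, 12), (4, 5, 14), (4, 10,
      13), (4, 13, 14), (5, 6, 12), (5, 6, 15), (5, 7, 15), (5, 12, 14), (6, 12, 16), (6, 15, 16)]
    fin := [0, 0, 0, 0, 0, 5, 6, 0, 8, 9, 0, 11, 6, 13, 5, 5, 16]
    chd := [(0, 6), (0, 11)]
    steps := [(0, 1), (0, 2), (0, 3), (0, 4), (0, 7), (0, 10), (5, 14), (5, 15), (6, 12)] }
  rep := [0, 5, 8, 6, 11, 9, 13, 16]

noncomputable def v1979 : Cov.CovD where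
  P := 3
  N := 5
  pl := [1, 2, 6, 9]
  lev := [⟨[], [], [], [], [(0, 0, [3, 4])]⟩,
    ⟨[], [(0, 0)], [(0, 0)], [2, 5], [(0, 0, [3, 4]), (3, 0, [3, 4])]⟩,
    ⟨[(0, 1)], [(1, 0), (1, 4)], [], [2], [(4, 4, [0])]⟩,
    ⟨[(0, 1), (1, 2)], [(1, 0), (1, 3), (1, 4), (2, 3), (2, 4)], [(3, 4)], [5], [(4, 4,
      [0]), (5, 3, [0])]⟩,
    ⟨[(0, 1), (1, 2), (1, 3)], [(0, 0), (0, 1), (1, 0), (1, 1)], [(0, 1)], [6], [(3, 0, [3,
      4]), (7, 1, [])]⟩,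
    ⟨[(0, 1), (0, 4), (1, 4)], [(0, 0), (0, 1), (0, 3), (1, 0), (3, 3), (4, 0), (4, 1), (4,
      3)], [(0, 1), (0, 3), (1, 1), (1, 3)], [], [(0, 0, [3, 4]), (5, 3, [0]), (7, 1, []),
      (8, 1, [])]⟩,
    ⟨[(0, 5), (4, 5)], [(3, 3), (5, 0), (5, 1), (5, 3)], [(1, 3)], [7], [(5, 3, [0]), (8,
      1, [])]⟩]
  Ta := [((0, 1), 0, 2), ((0, 8), 0, 1), ((3, 2), 0, 5), ((3, 6), 0, 6), ((7, 5), 1, 3), ((7, 6),
    1, 6), ((8, 0), 1, 0), ((8, 9), 1, 7)]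
  Tb := [((0, 1, 8), 0, 2, 1), ((1, 0, 4), 2, 0, 4), ((2, 3, 5), 5, 0, 3), ((3, 2, 6), 0, 5, 6),
    ((4, 1, 5), 4, 2, 3), ((5, 2, 4), 3, 5, 4), ((5, 2, 7), 3, 5, 1), ((5, 2, 9), 3, 5, 7),
    ((5, 4, 7), 3, 4, 1), ((5, 4, 9), 3, 4, 7), ((5, 7, 9), 3, 1, 7), ((6, 3, 7), 6, 0, 1),
    ((7, 5, 6), 1, 3, 6), ((8, 0, 9), 1, 0, 7), ((9, 5, 8), 7, 3, 1)]
  Tc := [(0, 3, 4)]
  Td := [((0, 3), (0, 1), 2), ((0, 3), (0, 8), 1), ((0, 3), (3, 2), 5), ((0, 3), (3, 6), 6), ((0,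
    4), (0, 1), 2), ((0, 4), (0, 8), 1), ((0, 4), (3, 2), 5), ((0, 4), (3, 6), 6), ((3, 0),
    (5, 2), 5), ((3, 0), (5, 4), 4), ((3, 0), (5, 7), 1), ((3, 0), (5, 9), 7), ((4, 0), (4,
    1), 2), ((4, 0), (4, 5), 3)]
  G := [[0, 0, 0x25c112222c11822c114ca, 0x98122c1e41b192c11b811cc2, 0x22c11e811a222c1122c11a86],
    [0, 0x64a8a6ce1164a8a6ce11c2, 0x541195c11c95c119811cc2, 0x95c115412595c11d811cc2,
    0xd8112295c1195c11a95c118a6], [0, 0, 0,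
    0x1a5854949225229ce1e1cf14812491981851454e1e1cd58a,
    0x281212452121cd17898c14558c212124d78929cf1a4], [0, 0, 0,
    0x542195c219828d982154295c269c1, 0x9821452145211cd2f118998c21a158d11cdc4d1826]]

noncomputable def n1979 : Ent := ⟨e1979, noF, [], [], [(11, 16, [1580044410770988437309982408355971841652082177953823432505697210369, 0])]⟩

def c1979 : PLift (Cov.check n1979.C.D v1979 = true) := ⟨by decide +kernel⟩

def b1979 : PLift (entF (fidx ts) 400 1979 n1979 = true) := ⟨by decide +kernel⟩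

theorem g1979 : GoodF (fidx ts) 400 1979 := GoodF.ofV v1979 n1979 c1979.down b1979.down

/-- 4845674:1662/4 -/
noncomputable def e1980 : SCfg where
  D := {
    a := 7
    L := 10
    kp := 7
    inn := [(0, 1), (0, 4), (0, 5), (1, 0), (1, 2), (1, 3), (1, 4), (2, 1), (2, 3), (3, 1), (3, 2), (4,
      0), (4, 1), (4, 5), (5, 0), (5, 4), (5, 6), (6, 5)]
    mix := [(0, 0), (1, 0), (1, 1), (1, 2), (1, 3), (2, 1), (2, 4), (3, 2), (3, 4), (3, 5), (4, 3), (4,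
      6), (4, 7), (5, 0), (5, 7), (5, 8), (5, 9), (6, 5), (6, 8), (6, 9)]
    cl := [0, 1, 1, 2, 4, 5, 7, 3, 6, 3]
    chq := [(0, 2), (0, 7), (2, 0), (7, 0)]
    rng := [(0, 1), (0, 9), (1, 0), (1, 4), (2, 3), (2, 5), (3, 2), (3, 6), (4, 1), (4, 5), (5, 2), (5,
      4), (5, 8), (5, 9), (6, 3), (6, 7), (7, 6), (7, 8), (8, 5), (8, 7), (9, 0), (9, 5)]
    lev := [] }
  links := [[1, 4, 5, 7], [4, 0, 7, 8, 2, 3, 9, 10], [3, 1, 8, 11], [9, 1, 2, 11, 12], [5, 0, 1, 10, 13,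
    14], [7, 0, 4, 14, 15, 6, 16], [16, 5, 15, 12]]
  P := {
    a := 7
    N := 17
    nb := [178, 1949, 2314, 6662, 25635, 114897, 102432, 65827, 2182, 5130, 8722, 4364, 100936, 17424,
      41008, 20576, 4320]
    tri := [(0, 1, 4), (0, 1, 7), (0, 4, 5), (0, 5, 7), (1, 2, 3), (1, 2, 8), (1, 3, 9), (1, 4, 10),
      (1, 7, 8), (1, 9, 10), (2, 3, 11), (2, 8, 11), (3, 9, 12), (3, 11, 12), (4, 5, 14), (4, 10,
      13), (4, 13, 14), (5, 6, 15), (5, 6, 16), (5, 7, 16), (5, 14, 15), (6, 12, 15), (6, 12, 16)]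
    fin := [0, 0, 2, 2, 0, 5, 6, 0, 2, 2, 10, 11, 6, 13, 5, 15, 5]
    chd := [(0, 10), (0, 13)]
    steps := [(0, 1), (0, 4), (0, 7), (2, 3), (2, 8), (2, 9), (5, 14), (5, 16), (6, 12)] }
  rep := [0, 2, 10, 5, 11, 6, 15, 13]

noncomputable def v1980 : Cov.CovD where
  P := 3
  N := 5
  pl := [4, 5, 8]
  lev := [⟨[], [], [], [], [(0, 0, [2, 7])]⟩,
    ⟨[], [(0, 0), (0, 1), (0, 2)], [(0, 1), (0, 2), (1, 1), (1, 2)], [], [(0, 0, [2, 7]),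
      (1, 1, []), (2, 1, []), (3, 2, [0])]⟩,
    ⟨[(0, 1)], [(1, 0), (1, 1), (1, 2)], [], [4], [(1, 1, [])]⟩,
    ⟨[(0, 1), (1, 2)], [(1, 0), (1, 1), (1, 2), (2, 1)], [], [4, 5], [(2, 1, [])]⟩,
    ⟨[(0, 1), (1, 2), (1, 3)], [(0, 0), (0, 2), (0, 3), (0, 7), (1, 0), (1, 1), (1, 2), (1,
      3), (1, 7)], [(2, 3), (2, 7), (3, 7)], [], [(3, 2, [0]), (6, 7, [0]), (7, 3, [])]⟩,
    ⟨[(0, 1), (0, 4), (1, 4)], [(0, 0), (0, 3), (1, 0), (4, 0), (4, 2), (4, 3), (4, 7)],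
      [(0, 3), (3, 3)], [6], [(0, 0, [2, 7]), (7, 3, []), (9, 3, [])]⟩,
    ⟨[(0, 5), (4, 5)], [(5, 0), (5, 3)], [], [5, 6], [(9, 3, [])]⟩]
  Ta := [((1, 0), 1, 0), ((1, 4), 1, 4), ((2, 3), 1, 2), ((2, 5), 1, 5), ((7, 6), 3, 7), ((7, 8),
    3, 6), ((9, 0), 3, 0), ((9, 5), 3, 5)]
  Tb := [((0, 1, 9), 0, 1, 3), ((1, 0, 4), 1, 0, 4), ((2, 3, 5), 1, 2, 5), ((3, 2, 6), 2, 1, 7),
    ((4, 1, 5), 4, 1, 5), ((5, 2, 4), 5, 1, 4), ((5, 2, 8), 5, 1, 6), ((5, 2, 9), 5, 1, 3),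
    ((5, 4, 8), 5, 4, 6), ((5, 4, 9), 5, 4, 3), ((5, 8, 9), 5, 6, 3), ((6, 3, 7), 7, 2, 3),
    ((7, 6, 8), 3, 7, 6), ((8, 5, 7), 6, 5, 3), ((9, 0, 5), 3, 0, 5)]
  Tc := [(0, 2, 7)]
  Td := [((0, 2), (0, 1), 1), ((0, 2), (0, 9), 3), ((0, 7), (0, 1), 1), ((0, 7), (0, 9), 3), ((2,
    0), (3, 2), 1), ((2, 0), (3, 6), 7), ((7, 0), (6, 3), 2), ((7, 0), (6, 7), 3)]
  G := [[0, 0x591e11619e11684, 0x1a2e1614e1c9a2e12584, 0, 0x818e1144e1c9ace12582], [0,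
    0xb71e11b71e11a82, 0x22188181426b192e1594b51e1288a, 0, 0x92a1282a1112e195854124414c86],
    [0, 0, 0x6a2e164ce1135e1d248, 0x652e1642e1612e1d248, 0x8aae16a6e1133e1d284], [0, 0,
    0x22182485c12121b41e7cb71e11386, 0x2214221d12e196885c194c1c246,
    0x221221c2885c1941e1b71e1d286]]

noncomputable def n1980 : Ent := ⟨e1980, noF, [], [], []⟩

def c1980 : PLift (Cov.check n1980.C.D v1980 = true) := ⟨by decide +kernel⟩

def b1980 : PLift (entF (fidx ts) 400 1980 n1980 = true) := ⟨by decide +kernel⟩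

theorem g1980 : GoodF (fidx ts) 400 1980 := GoodF.ofV v1980 n1980 c1980.down b1980.down

/-- 4845674:1662 -/
noncomputable def e1981 : SCfg where
  D := {
    a := 7
    L := 11
    kp := 8
    inn := [(0, 1), (0, 4), (0, 5), (1, 0), (1, 2), (1, 3), (1, 4), (2, 1), (2, 3), (3, 1), (3, 2), (4,
      0), (4, 1), (4, 5), (5, 0), (5, 4), (5, 6), (6, 5)]
    mix := [(0, 0), (1, 0), (1, 1), (1, 2), (1, 3), (2, 1), (2, 4), (3, 2), (3, 4), (3, 5), (4, 3), (4,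
      6), (4, 7), (5, 0), (5, 7), (5, 8), (5, 9), (6, 8), (6, 9), (6, 10)]
    cl := [0, 1, 1, 2, 4, 7, 6, 3, 5, 3, 8]
    chq := [(0, 2), (0, 6), (2, 0), (6, 0)]
    rng := [(0, 1), (0, 9), (1, 0), (1, 4), (2, 3), (2, 5), (3, 2), (3, 6), (4, 1), (4, 5), (5, 2), (5,
      4), (6, 3), (6, 7), (7, 6), (7, 8), (8, 7), (8, 10), (9, 0), (9, 10), (10, 8), (10, 9)]
    lev := [] }
  links := [[1, 4, 5, 7], [4, 0, 7, 8, 2, 3, 9, 10], [3, 1, 8, 11], [9, 1, 2, 11, 12], [5, 0, 1, 10, 13,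
    14], [7, 0, 4, 14, 15, 6, 16], [16, 5, 15, 17]]
  P := {
    a := 7
    N := 18
    nb := [178, 1949, 2314, 6662, 25635, 114897, 229408, 65827, 2182, 5130, 8722, 4364, 2568, 17424,
      41008, 147552, 131296, 98368]
    tri := [(0, 1, 4), (0, 1, 7), (0, 4, 5), (0, 5, 7), (1, 2, 3), (1, 2, 8), (1, 3, 9), (1, 4, 10),
      (1, 7, 8), (1, 9, 10), (2, 3, 11), (2, 8, 11), (3, 9, 12), (3, 11, 12), (4, 5, 14), (4, 10,
      13), (4, 13, 14), (5, 6, 15), (5, 6, 16), (5, 7, 16), (5, 14, 15), (6, 15, 17), (6, 16, 17)]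
    fin := [0, 0, 2, 2, 0, 5, 5, 0, 2, 2, 10, 11, 12, 13, 5, 15, 5, 17]
    chd := [(0, 10), (0, 13)]
    steps := [(0, 1), (0, 4), (0, 7), (2, 3), (2, 8), (2, 9), (5, 6), (5, 14), (5, 16)] }
  rep := [0, 2, 10, 5, 11, 15, 13, 12, 17]

noncomputable def v1981 : Cov.CovD where
  P := 3
  N := 6
  pl := [4, 5, 8, 10]
  lev := [⟨[], [], [], [], [(0, 0, [2, 6])]⟩,
    ⟨[], [(0, 0), (0, 1), (0, 2)], [(0, 1), (0, 2), (1, 1), (1, 2)], [], [(0, 0, [2, 6]),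
      (1, 1, []), (2, 1, []), (3, 2, [0])]⟩,
    ⟨[(0, 1)], [(1, 0), (1, 1), (1, 2)], [], [4], [(1, 1, [])]⟩,
    ⟨[(0, 1), (1, 2)], [(1, 0), (1, 1), (1, 2), (2, 1)], [], [4, 7], [(2, 1, [])]⟩,
    ⟨[(0, 1), (1, 2), (1, 3)], [(0, 0), (0, 2), (0, 3), (0, 6), (1, 0), (1, 1), (1, 2), (1,
      3), (1, 6)], [(2, 3), (2, 6), (3, 6)], [], [(3, 2, [0]), (6, 6, [0]), (7, 3, [])]⟩,
    ⟨[(0, 1), (0, 4), (1, 4)], [(0, 0), (0, 3), (1, 0), (4, 0), (4, 2), (4, 3), (4, 6)],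
      [(0, 3), (3, 3)], [5], [(0, 0, [2, 6]), (7, 3, []), (9, 3, [])]⟩,
    ⟨[(0, 5), (4, 5)], [(5, 0), (5, 3)], [], [5, 8], [(9, 3, [])]⟩]
  Ta := [((1, 0), 1, 0), ((1, 4), 1, 4), ((2, 3), 1, 2), ((2, 5), 1, 7), ((7, 6), 3, 6), ((7, 8),
    3, 5), ((9, 0), 3, 0), ((9, 10), 3, 8)]
  Tb := [((0, 1, 9), 0, 1, 3), ((1, 0, 4), 1, 0, 4), ((2, 3, 5), 1, 2, 7), ((3, 2, 6), 2, 1, 6),
    ((4, 1, 5), 4, 1, 7), ((5, 2, 4), 7, 1, 4), ((6, 3, 7), 6, 2, 3), ((7, 6, 8), 3, 6, 5),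
    ((8, 7, 10), 5, 3, 8), ((9, 0, 10), 3, 0, 8), ((10, 8, 9), 8, 5, 3)]
  Tc := [(0, 2, 6)]
  Td := [((0, 2), (0, 1), 1), ((0, 2), (0, 9), 3), ((0, 6), (0, 1), 1), ((0, 6), (0, 9), 3), ((2,
    0), (3, 2), 1), ((2, 0), (3, 6), 6), ((6, 0), (6, 3), 2), ((6, 0), (6, 7), 3)]
  G := [[0, 0x95ce1165ce11682, 0x653e12653e1653e15948, 0, 0x95ce129ace165ce15982], [0,
    0x93a113211a495c115411686, 0x541441c54129493a12913e193a15c8c, 0,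
    0x2212913e1493a11d8951e124415415986], [0, 0, 0x6ace165ce195ce1d242,
    0x65ce195ce195ce1d282, 0x95ce195ce19ace1d282], [0, 0, 0x321221221d2895c1951e1c951e11346,
    0x536183213215a4981895c1495c11b4a, 0x221321321d28951e195c1c95c11386]]

noncomputable def n1981 : Ent := ⟨e1981, noF, [], [], [(11, 17, [6903326391201334775872065844685381424292761054348340378595029937790977, 0]), (12, 15, [7334790850167413569773436004105379185503274260204390087403942012760065, 0]), (12, 17, [6903326391201334775872065844685381424292761054348340378595029937799169, 0])]⟩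

def c1981 : PLift (Cov.check n1981.C.D v1981 = true) := ⟨by decide +kernel⟩

def b1981 : PLift (entF (fidx ts) 400 1981 n1981 = true) := ⟨by decide +kernel⟩

theorem g1981 : GoodF (fidx ts) 400 1981 := GoodF.ofV v1981 n1981 c1981.down b1981.down

/-- 4845674:1663/3 -/
noncomputable def e1982 : SCfg where
  D := {
    a := 7
    L := 8
    kp := 5
    inn := [(0, 1), (0, 4), (0, 5), (1, 0), (1, 2), (1, 3), (1, 4), (2, 1), (2, 3), (3, 1), (3, 2), (4,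
      0), (4, 1), (4, 5), (5, 0), (5, 4), (5, 6), (6, 5)]
    mix := [(0, 0), (1, 0), (1, 1), (1, 2), (1, 3), (2, 1), (2, 4), (3, 2), (3, 4), (3, 5), (4, 3), (4,
      6), (4, 7), (5, 0), (5, 4), (5, 5), (5, 7), (6, 0), (6, 1), (6, 4)]
    cl := [0, 1, 3, 1, 2, 0, 5, 4]
    chq := [(0, 5), (2, 3), (3, 2), (5, 0)]
    rng := [(0, 1), (1, 0), (1, 4), (2, 3), (2, 5), (3, 2), (3, 6), (4, 1), (4, 5), (5, 2), (5, 4), (5,
      7), (6, 3), (6, 7), (7, 5), (7, 6)]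
    lev := [] }
  links := [[1, 4, 5, 7], [4, 0, 7, 8, 2, 3, 9, 10], [3, 1, 8, 11], [9, 1, 2, 11, 12], [5, 0, 1, 10, 13,
    14], [7, 0, 4, 14, 12, 11, 6], [7, 5, 11, 8]]
  P := {
    a := 7
    N := 15
    nb := [178, 1949, 2314, 6662, 25635, 22737, 2464, 355, 2246, 5130, 8722, 4460, 18984, 17424,
      12336]
    tri := [(0, 1, 4), (0, 1, 7), (0, 4, 5), (0, 5, 7), (1, 2, 3), (1, 2, 8), (1, 3, 9), (1, 4, 10),
      (1, 7, 8), (1, 9, 10), (2, 3, 11), (2, 8, 11), (3, 9, 12), (3, 11, 12), (4, 5, 14), (4, 10,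
      13), (4, 13, 14), (5, 6, 7), (5, 6, 11), (5, 11, 12), (5, 12, 14), (6, 7, 8), (6, 8, 11)]
    fin := [0, 1, 1, 3, 0, 0, 0, 0, 1, 9, 1, 3, 0, 13, 14]
    chd := [(0, 13), (9, 3)]
    steps := [(0, 4), (0, 5), (0, 6), (0, 7), (0, 12), (1, 2), (1, 8), (1, 10), (3, 11)] }
  rep := [0, 1, 3, 9, 14, 13]

noncomputable def v1982 : Cov.CovD where
  P := 3
  N := 3
  pl := [7]
  lev := [⟨[], [], [], [], [(0, 0, [5])]⟩,
    ⟨[], [(0, 0), (0, 1), (0, 3)], [(0, 1), (0, 3), (1, 1), (1, 3)], [], [(0, 0, [5]), (1,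
      1, []), (2, 3, [2]), (3, 1, [])]⟩,
    ⟨[(0, 1)], [(1, 0), (1, 1), (1, 2), (1, 3)], [(1, 2)], [], [(1, 1, []), (4, 2, [3])]⟩,
    ⟨[(0, 1), (1, 2)], [(1, 0), (1, 1), (1, 2), (1, 3), (2, 0), (2, 1), (2, 2), (2, 3)],
      [(0, 2), (0, 3), (2, 3)], [], [(2, 3, [2]), (4, 2, [3]), (5, 0, [5])]⟩,
    ⟨[(0, 1), (1, 2), (1, 3)], [(0, 0), (0, 1), (0, 5), (1, 0), (1, 1), (1, 3), (1, 5)],
      [(1, 5)], [4], [(3, 1, []), (6, 5, [0])]⟩,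
    ⟨[(0, 1), (0, 4), (1, 4)], [(0, 0), (0, 2), (1, 0), (2, 2), (3, 0), (3, 2), (4, 0), (4,
      1), (4, 2), (4, 5)], [(0, 0), (0, 2)], [4], [(0, 0, [5]), (4, 2, [3]), (5, 0, [5])]⟩,
    ⟨[(0, 5), (4, 5)], [(0, 0), (1, 0), (1, 1), (2, 1), (2, 2), (3, 2), (5, 0), (5, 1), (5,
      2)], [(0, 1), (0, 2), (1, 2)], [], [(0, 0, [5]), (1, 1, []), (4, 2, [3])]⟩]
  Ta := [((0, 1), 0, 1), ((1, 0), 1, 0), ((1, 4), 1, 2), ((3, 2), 1, 3), ((3, 6), 1, 5), ((5, 2),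
    0, 3), ((5, 4), 0, 2), ((5, 7), 0, 4)]
  Tb := [((1, 0, 4), 1, 0, 2), ((2, 3, 5), 3, 1, 0), ((3, 2, 6), 1, 3, 5), ((4, 1, 5), 2, 1, 0),
    ((5, 2, 4), 0, 3, 2), ((5, 2, 7), 0, 3, 4), ((5, 4, 7), 0, 2, 4), ((6, 3, 7), 5, 1, 4),
    ((7, 5, 6), 4, 0, 5)]
  Tc := []
  Td := [((0, 5), (0, 1), 1), ((0, 5), (5, 2), 3), ((0, 5), (5, 4), 2), ((0, 5), (5, 7), 4), ((2,
    3), (4, 1), 1), ((2, 3), (4, 5), 0), ((3, 2), (2, 3), 1), ((3, 2), (2, 5), 0), ((5, 0),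
    (6, 3), 1), ((5, 0), (6, 7), 4)]
  G := [[0, 0x48c11424, 0, 0x84c11884c148c2, 0x88a12842], [0, 0, 0, 0, 0x88a11242], [0, 0,
    0x488848ce2414, 0x4884341414183848c, 0x1818a32148], [0, 0, 0x48a18224a148c2, 0,
    0x1848218129128218ada8c2]]

noncomputable def n1982 : Ent := ⟨e1982, noF, [], [], []⟩

def c1982 : PLift (Cov.check n1982.C.D v1982 = true) := ⟨by decide +kernel⟩

def b1982 : PLift (entF (fidx ts) 400 1982 n1982 = true) := ⟨by decide +kernel⟩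

theorem g1982 : GoodF (fidx ts) 400 1982 := GoodF.ofV v1982 n1982 c1982.down b1982.down

/-- 4845674:1663/2 -/
noncomputable def e1983 : SCfg where
  D := {
    a := 7
    L := 9
    kp := 6
    inn := [(0, 1), (0, 4), (0, 5), (1, 0), (1, 2), (1, 3), (1, 4), (2, 1), (2, 3), (3, 1), (3, 2), (4,
      0), (4, 1), (4, 5), (5, 0), (5, 4), (5, 6), (6, 5)]
    mix := [(0, 0), (1, 0), (1, 1), (1, 2), (1, 3), (2, 1), (2, 4), (3, 2), (3, 4), (3, 5), (4, 3), (4,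
      6), (4, 7), (5, 0), (5, 4), (5, 7), (5, 8), (6, 0), (6, 1), (6, 4)]
    cl := [0, 1, 3, 1, 2, 4, 5, 0, 6]
    chq := [(0, 2), (2, 0), (2, 3), (3, 2)]
    rng := [(0, 1), (1, 0), (1, 4), (2, 3), (2, 5), (3, 2), (3, 6), (4, 1), (4, 5), (4, 8), (5, 2), (5,
      4), (6, 3), (6, 7), (7, 6), (7, 8), (8, 4), (8, 7)]
    lev := [] }
  links := [[1, 4, 5, 7], [4, 0, 7, 8, 2, 3, 9, 10], [3, 1, 8, 11], [9, 1, 2, 11, 12], [5, 0, 1, 10, 13,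
    14], [7, 0, 4, 14, 15, 11, 6], [7, 5, 11, 8]]
  P := {
    a := 7
    N := 16
    nb := [178, 1949, 2314, 6662, 25635, 51409, 2464, 355, 2246, 5130, 8722, 37228, 2568, 17424,
      41008, 18464]
    tri := [(0, 1, 4), (0, 1, 7), (0, 4, 5), (0, 5, 7), (1, 2, 3), (1, 2, 8), (1, 3, 9), (1, 4, 10),
      (1, 7, 8), (1, 9, 10), (2, 3, 11), (2, 8, 11), (3, 9, 12), (3, 11, 12), (4, 5, 14), (4, 10,
      13), (4, 13, 14), (5, 6, 7), (5, 6, 11), (5, 11, 15), (5, 14, 15), (6, 7, 8), (6, 8, 11)]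
    fin := [0, 1, 1, 3, 0, 0, 0, 0, 1, 9, 1, 3, 12, 13, 0, 15]
    chd := [(0, 3), (9, 3)]
    steps := [(0, 4), (0, 5), (0, 6), (0, 7), (0, 14), (1, 2), (1, 8), (1, 10), (3, 11)] }
  rep := [0, 1, 3, 9, 12, 13, 15]

noncomputable def v1983 : Cov.CovD where
  P := 3
  N := 4
  pl := [5, 6, 8]
  lev := [⟨[], [], [], [], [(0, 0, [2])]⟩,
    ⟨[], [(0, 0), (0, 1), (0, 3)], [(0, 1), (0, 3), (1, 1), (1, 3)], [], [(0, 0, [2]), (1,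
      1, []), (2, 3, [2]), (3, 1, [])]⟩,
    ⟨[(0, 1)], [(1, 0), (1, 1), (1, 2), (1, 3)], [(1, 2)], [], [(1, 1, []), (4, 2, [0,
      3])]⟩,
    ⟨[(0, 1), (1, 2)], [(1, 0), (1, 1), (1, 2), (1, 3), (2, 1), (2, 2), (2, 3)], [(2, 3)],
      [4], [(2, 3, [2]), (4, 2, [0, 3])]⟩,
    ⟨[(0, 1), (1, 2), (1, 3)], [(0, 0), (0, 1), (1, 0), (1, 1), (1, 3)], [(0, 1)], [5],
      [(3, 1, []), (7, 0, [2])]⟩,
    ⟨[(0, 1), (0, 4), (1, 4)], [(0, 0), (0, 2), (1, 0), (2, 2), (3, 2), (4, 0), (4, 1), (4,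
      2)], [(0, 0), (0, 2)], [6], [(0, 0, [2]), (4, 2, [0, 3]), (7, 0, [2])]⟩,
    ⟨[(0, 5), (4, 5)], [(0, 0), (1, 0), (1, 1), (2, 1), (2, 2), (3, 2), (5, 0), (5, 1), (5,
      2)], [(0, 1), (0, 2), (1, 2)], [], [(0, 0, [2]), (1, 1, []), (4, 2, [0, 3])]⟩]
  Ta := [((0, 1), 0, 1), ((1, 0), 1, 0), ((1, 4), 1, 2), ((3, 2), 1, 3), ((3, 6), 1, 5), ((7, 6),
    0, 5), ((7, 8), 0, 6)]
  Tb := [((1, 0, 4), 1, 0, 2), ((2, 3, 5), 3, 1, 4), ((3, 2, 6), 1, 3, 5), ((4, 1, 5), 2, 1, 4),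
    ((4, 1, 8), 2, 1, 6), ((4, 5, 8), 2, 4, 6), ((5, 2, 4), 4, 3, 2), ((6, 3, 7), 5, 1, 0),
    ((7, 6, 8), 0, 5, 6), ((8, 4, 7), 6, 2, 0)]
  Tc := [(2, 0, 3)]
  Td := [((0, 2), (0, 1), 1), ((0, 2), (7, 6), 5), ((0, 2), (7, 8), 6), ((2, 0), (4, 1), 1), ((2,
    0), (4, 5), 4), ((2, 0), (4, 8), 6), ((2, 3), (4, 1), 1), ((2, 3), (4, 5), 4), ((2, 3),
    (4, 8), 6), ((3, 2), (2, 3), 1), ((3, 2), (2, 5), 4)]
  G := [[0, 0x48c88a84e48c88ca48c44a84ed824, 0x44611484a114c2, 0x84c144c19444c148c158c2,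
    0x88a188a188a1b842], [0, 0, 0x88611488a118c4, 0, 0x28a128a128a1b848], [0, 0,
    0x88c21888a118c4, 0x84c244c29148c244c258c1, 0x128218ce121218ce828218eb148], [0, 0,
    0x48c11848a112c4, 0, 0x88a484a49228a828a88ac28a28acb8c1]]

noncomputable def n1983 : Ent := ⟨e1983, noF, [], [], [(12, 15, [360035742630636841211993100915356868655746945586763691015790593, 0])]⟩

def c1983 : PLift (Cov.check n1983.C.D v1983 = true) := ⟨by decide +kernel⟩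

def b1983 : PLift (entF (fidx ts) 400 1983 n1983 = true) := ⟨by decide +kernel⟩

theorem g1983 : GoodF (fidx ts) 400 1983 := GoodF.ofV v1983 n1983 c1983.down b1983.down

/-- 4845674:1663/4 -/
noncomputable def e1984 : SCfg where
  D := {
    a := 7
    L := 9
    kp := 6
    inn := [(0, 1), (0, 4), (0, 5), (1, 0), (1, 2), (1, 3), (1, 4), (2, 1), (2, 3), (3, 1), (3, 2), (4,
      0), (4, 1), (4, 5), (5, 0), (5, 4), (5, 6), (6, 5)]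
    mix := [(0, 0), (1, 0), (1, 1), (1, 2), (1, 3), (2, 1), (2, 4), (3, 2), (3, 4), (3, 5), (4, 3), (4,
      6), (4, 7), (5, 0), (5, 5), (5, 7), (5, 8), (6, 0), (6, 1), (6, 8)]
    cl := [0, 1, 2, 1, 3, 0, 6, 4, 5]
    chq := [(0, 6), (2, 3), (3, 2), (6, 0)]
    rng := [(0, 1), (1, 0), (1, 4), (1, 8), (2, 3), (2, 5), (3, 2), (3, 6), (4, 1), (4, 5), (5, 2), (5,
      4), (5, 7), (5, 8), (6, 3), (6, 7), (7, 5), (7, 6), (8, 1), (8, 5)]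
    lev := [] }
  links := [[1, 4, 5, 7], [4, 0, 7, 8, 2, 3, 9, 10], [3, 1, 8, 11], [9, 1, 2, 11, 12], [5, 0, 1, 10, 13,
    14], [7, 0, 4, 14, 12, 15, 6], [7, 5, 15, 8]]
  P := {
    a := 7
    N := 16
    nb := [178, 1949, 2314, 6662, 25635, 53457, 33184, 355, 35014, 5130, 8722, 4364, 51752, 17424,
      12336, 4448]
    tri := [(0, 1, 4), (0, 1, 7), (0, 4, 5), (0, 5, 7), (1, 2, 3), (1, 2, 8), (1, 3, 9), (1, 4, 10),
      (1, 7, 8), (1, 9, 10), (2, 3, 11), (2, 8, 11), (3, 9, 12), (3, 11, 12), (4, 5, 14), (4, 10,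
      13), (4, 13, 14), (5, 6, 7), (5, 6, 15), (5, 12, 14), (5, 12, 15), (6, 7, 8), (6, 8, 15)]
    fin := [0, 1, 1, 3, 0, 0, 0, 0, 1, 9, 1, 3, 0, 13, 14, 15]
    chd := [(0, 13), (9, 3)]
    steps := [(0, 4), (0, 5), (0, 6), (0, 7), (0, 12), (1, 2), (1, 8), (1, 10), (3, 11)] }
  rep := [0, 1, 9, 3, 14, 15, 13]

noncomputable def v1984 : Cov.CovD where
  P := 3
  N := 4
  pl := [7, 8]
  lev := [⟨[], [], [], [], [(0, 0, [6])]⟩,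
    ⟨[], [(0, 0), (0, 1), (0, 2)], [(0, 1), (0, 2), (1, 1), (1, 2)], [], [(0, 0, [6]), (1,
      1, []), (2, 2, [3]), (3, 1, [])]⟩,
    ⟨[(0, 1)], [(1, 0), (1, 1), (1, 2), (1, 3)], [(1, 3)], [], [(1, 1, []), (4, 3, [2])]⟩,
    ⟨[(0, 1), (1, 2)], [(1, 0), (1, 1), (1, 2), (1, 3), (2, 0), (2, 1), (2, 2), (2, 3)],
      [(0, 2), (0, 3), (2, 3)], [], [(2, 2, [3]), (4, 3, [2]), (5, 0, [6])]⟩,
    ⟨[(0, 1), (1, 2), (1, 3)], [(0, 0), (0, 1), (0, 6), (1, 0), (1, 1), (1, 2), (1, 6)],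
      [(1, 6)], [4], [(3, 1, []), (6, 6, [0])]⟩,
    ⟨[(0, 1), (0, 4), (1, 4)], [(0, 0), (1, 0), (3, 0), (4, 0), (4, 1), (4, 6)], [(0, 0)],
      [4, 5], [(0, 0, [6]), (5, 0, [6])]⟩,
    ⟨[(0, 5), (4, 5)], [(0, 0), (1, 0), (1, 1), (2, 1), (5, 0), (5, 1)], [(0, 1)], [5],
      [(0, 0, [6]), (1, 1, [])]⟩]
  Ta := [((0, 1), 0, 1), ((1, 0), 1, 0), ((1, 4), 1, 3), ((1, 8), 1, 5), ((3, 2), 1, 2), ((3, 6),
    1, 6), ((5, 2), 0, 2), ((5, 4), 0, 3), ((5, 7), 0, 4), ((5, 8), 0, 5)]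
  Tb := [((1, 0, 4), 1, 0, 3), ((1, 0, 8), 1, 0, 5), ((1, 4, 8), 1, 3, 5), ((2, 3, 5), 2, 1, 0),
    ((3, 2, 6), 1, 2, 6), ((4, 1, 5), 3, 1, 0), ((5, 2, 4), 0, 2, 3), ((5, 2, 7), 0, 2, 4),
    ((5, 2, 8), 0, 2, 5), ((5, 4, 7), 0, 3, 4), ((5, 4, 8), 0, 3, 5), ((5, 7, 8), 0, 4, 5),
    ((6, 3, 7), 6, 1, 4), ((7, 5, 6), 4, 0, 6), ((8, 1, 5), 5, 1, 0)]
  Tc := []
  Td := [((0, 6), (0, 1), 1), ((0, 6), (5, 2), 2), ((0, 6), (5, 4), 3), ((0, 6), (5, 7), 4), ((0,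
    6), (5, 8), 5), ((2, 3), (2, 3), 1), ((2, 3), (2, 5), 0), ((3, 2), (4, 1), 1), ((3, 2),
    (4, 5), 0), ((6, 0), (6, 3), 1), ((6, 0), (6, 7), 4)]
  G := [[0, 0x84ce11282, 0, 0, 0x84ce11482], [0, 0, 0, 0x84ce11242, 0x24118ca11684], [0, 0,
    0x111e1811e1a182, 0, 0x11c815e381c891e3a484], [0, 0, 0x811e12182,
    0x124441212541ed12149e9c2c8, 0x1212221ed2484]]

noncomputable def n1984 : Ent := ⟨e1984, noF, [], [], [(11, 15, [360035742630636841211993100915356868655746945586763691015790593, 0])]⟩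

def c1984 : PLift (Cov.check n1984.C.D v1984 = true) := ⟨by decide +kernel⟩

def b1984 : PLift (entF (fidx ts) 400 1984 n1984 = true) := ⟨by decide +kernel⟩

theorem g1984 : GoodF (fidx ts) 400 1984 := GoodF.ofV v1984 n1984 c1984.down b1984.down

/-- 4845674:1663/1 -/
noncomputable def e1985 : SCfg where
  D := {
    a := 7
    L := 10
    kp := 7
    inn := [(0, 1), (0, 4), (0, 5), (1, 0), (1, 2), (1, 3), (1, 4), (2, 1), (2, 3), (3, 1), (3, 2), (4,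
      0), (4, 1), (4, 5), (5, 0), (5, 4), (5, 6), (6, 5)]
    mix := [(0, 0), (1, 0), (1, 1), (1, 2), (1, 3), (2, 1), (2, 4), (3, 2), (3, 4), (3, 5), (4, 3), (4,
      6), (4, 7), (5, 0), (5, 7), (5, 8), (5, 9), (6, 0), (6, 1), (6, 9)]
    cl := [0, 1, 2, 1, 3, 6, 7, 0, 5, 4]
    chq := [(1, 5), (2, 3), (3, 2), (5, 1)]
    rng := [(0, 1), (1, 0), (1, 4), (1, 9), (2, 3), (2, 5), (3, 2), (3, 6), (4, 1), (4, 5), (5, 2), (5,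
      4), (6, 3), (6, 7), (7, 6), (7, 8), (8, 7), (8, 9), (9, 1), (9, 8)]
    lev := [] }
  links := [[1, 4, 5, 7], [4, 0, 7, 8, 2, 3, 9, 10], [3, 1, 8, 11], [9, 1, 2, 11, 12], [5, 0, 1, 10, 13,
    14], [7, 0, 4, 14, 15, 16, 6], [7, 5, 16, 8]]
  P := {
    a := 7
    N := 17
    nb := [178, 1949, 2314, 6662, 25635, 114897, 65952, 355, 67782, 5130, 8722, 4364, 2568, 17424,
      41008, 81952, 33120]
    tri := [(0, 1, 4), (0, 1, 7), (0, 4, 5), (0, 5, 7), (1, 2, 3), (1, 2, 8), (1, 3, 9), (1, 4, 10),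
      (1, 7, 8), (1, 9, 10), (2, 3, 11), (2, 8, 11), (3, 9, 12), (3, 11, 12), (4, 5, 14), (4, 10,
      13), (4, 13, 14), (5, 6, 7), (5, 6, 16), (5, 14, 15), (5, 15, 16), (6, 7, 8), (6, 8, 16)]
    fin := [0, 1, 1, 3, 0, 1, 1, 0, 1, 9, 1, 3, 12, 13, 0, 15, 16]
    chd := [(1, 15), (9, 3)]
    steps := [(0, 4), (0, 7), (0, 14), (1, 2), (1, 8), (1, 6), (1, 5), (1, 10), (3, 11)] }
  rep := [0, 1, 9, 3, 16, 15, 12, 13]

noncomputable def v1985 : Cov.CovD where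
  P := 3
  N := 5
  pl := [5, 6, 9]
  lev := [⟨[], [], [], [], [(0, 0, [])]⟩,
    ⟨[], [(0, 0), (0, 1), (0, 2)], [(0, 1), (0, 2), (1, 1), (1, 2)], [], [(0, 0, []), (1,
      1, [5]), (2, 2, [3]), (3, 1, [5])]⟩,
    ⟨[(0, 1)], [(1, 0), (1, 1), (1, 2), (1, 3)], [(1, 3)], [], [(1, 1, [5]), (4, 3, [2])]⟩,
    ⟨[(0, 1), (1, 2)], [(1, 0), (1, 1), (1, 2), (1, 3), (2, 1), (2, 2), (2, 3)], [(2, 3)],
      [6], [(2, 2, [3]), (4, 3, [2])]⟩,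
    ⟨[(0, 1), (1, 2), (1, 3)], [(0, 0), (0, 1), (1, 0), (1, 1), (1, 2)], [(0, 1)], [7],
      [(3, 1, [5]), (7, 0, [])]⟩,
    ⟨[(0, 1), (0, 4), (1, 4)], [(0, 0), (0, 5), (1, 0), (4, 0), (4, 1), (4, 5)], [(0, 0),
      (0, 5)], [4], [(0, 0, []), (7, 0, []), (8, 5, [1])]⟩,
    ⟨[(0, 5), (4, 5)], [(0, 0), (1, 0), (1, 1), (2, 1), (5, 0), (5, 1), (5, 5)], [(0, 1)],
      [4], [(0, 0, []), (1, 1, [5])]⟩]
  Ta := [((0, 1), 0, 1), ((1, 0), 1, 0), ((1, 4), 1, 3), ((1, 9), 1, 4), ((3, 2), 1, 2), ((3, 6),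
    1, 7), ((7, 6), 0, 7), ((7, 8), 0, 5)]
  Tb := [((1, 0, 4), 1, 0, 3), ((1, 0, 9), 1, 0, 4), ((1, 4, 9), 1, 3, 4), ((2, 3, 5), 2, 1, 6),
    ((3, 2, 6), 1, 2, 7), ((4, 1, 5), 3, 1, 6), ((5, 2, 4), 6, 2, 3), ((6, 3, 7), 7, 1, 0),
    ((7, 6, 8), 0, 7, 5), ((8, 7, 9), 5, 0, 4), ((9, 1, 8), 4, 1, 5)]
  Tc := []
  Td := [((1, 5), (1, 0), 0), ((1, 5), (1, 4), 3), ((1, 5), (1, 9), 4), ((1, 5), (3, 2), 2), ((1,
    5), (3, 6), 7), ((2, 3), (2, 3), 1), ((2, 3), (2, 5), 6), ((3, 2), (4, 1), 1), ((3, 2),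
    (4, 5), 6), ((5, 1), (8, 7), 0), ((5, 1), (8, 9), 4)]
  G := [[0, 0x4262264ce42644a924a2682a8ace488482a886968c, 0x84ce184ce184ce1e182, 0,
    0x84ce184ce184ce1b482], [0, 0, 0xc21c21c21e148, 0xc21c21c21d282, 0xc21c21348c21848c], [0,
    0, 0xc2146121248ce12846e15288a1288aa1c4, 0, 0x1288c6121288ce121248ceb4c288494], [0, 0,
    0xc245252c5292ce192881c4, 0xc2442c2c2cc28c2c2cd2c1, 0x92c2c9292c34c2c2c8294]]

noncomputable def n1985 : Ent := ⟨e1985, noF, [], [], [(11, 16, [1580044410770988437309982408355971841652082177953823432505697234945, 0]), (12, 15, [1685356702439545624007900436039642273970977273354372543760008216577, 0])]⟩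

def c1985 : PLift (Cov.check n1985.C.D v1985 = true) := ⟨by decide +kernel⟩

def b1985 : PLift (entF (fidx ts) 400 1985 n1985 = true) := ⟨by decide +kernel⟩

theorem g1985 : GoodF (fidx ts) 400 1985 := GoodF.ofV v1985 n1985 c1985.down b1985.down

/-- 4845674:1663/6 -/
noncomputable def e1986 : SCfg where
  D := {
    a := 7
    L := 9
    kp := 6
    inn := [(0, 1), (0, 4), (0, 5), (1, 0), (1, 2), (1, 3), (1, 4), (2, 1), (2, 3), (3, 1), (3, 2), (4,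
      0), (4, 1), (4, 5), (5, 0), (5, 4), (5, 6), (6, 5)]
    mix := [(0, 0), (1, 0), (1, 1), (1, 2), (1, 3), (2, 1), (2, 4), (3, 2), (3, 4), (3, 5), (4, 3), (4,
      6), (4, 7), (5, 0), (5, 4), (5, 5), (5, 7), (6, 0), (6, 4), (6, 8)]
    cl := [0, 2, 3, 2, 1, 0, 5, 4, 6]
    chq := [(0, 5), (1, 3), (3, 1), (5, 0)]
    rng := [(0, 1), (0, 8), (1, 0), (1, 4), (2, 3), (2, 5), (3, 2), (3, 6), (4, 1), (4, 5), (4, 8), (5,
      2), (5, 4), (5, 7), (6, 3), (6, 7), (7, 5), (7, 6), (8, 0), (8, 4)]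
    lev := [] }
  links := [[1, 4, 5, 7], [4, 0, 7, 8, 2, 3, 9, 10], [3, 1, 8, 11], [9, 1, 2, 11, 12], [5, 0, 1, 10, 13,
    14], [7, 0, 4, 14, 12, 11, 6], [7, 5, 11, 15]]
  P := {
    a := 7
    N := 16
    nb := [178, 1949, 2314, 6662, 25635, 22737, 34976, 33123, 2182, 5130, 8722, 37228, 18984, 17424,
      12336, 2240]
    tri := [(0, 1, 4), (0, 1, 7), (0, 4, 5), (0, 5, 7), (1, 2, 3), (1, 2, 8), (1, 3, 9), (1, 4, 10),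
      (1, 7, 8), (1, 9, 10), (2, 3, 11), (2, 8, 11), (3, 9, 12), (3, 11, 12), (4, 5, 14), (4, 10,
      13), (4, 13, 14), (5, 6, 7), (5, 6, 11), (5, 11, 12), (5, 12, 14), (6, 7, 15), (6, 11, 15)]
    fin := [0, 1, 1, 3, 0, 0, 0, 0, 1, 9, 1, 3, 0, 13, 14, 15]
    chd := [(0, 13), (9, 3)]
    steps := [(0, 4), (0, 5), (0, 6), (0, 7), (0, 12), (1, 2), (1, 8), (1, 10), (3, 11)] }
  rep := [0, 3, 1, 9, 14, 13, 15]

noncomputable def v1986 : Cov.CovD where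
  P := 3
  N := 4
  pl := [7, 8]
  lev := [⟨[], [], [], [], [(0, 0, [5])]⟩,
    ⟨[], [(0, 0), (0, 2), (0, 3)], [(0, 2), (0, 3), (2, 2), (2, 3)], [], [(0, 0, [5]), (1,
      2, []), (2, 3, [1]), (3, 2, [])]⟩,
    ⟨[(0, 1)], [(1, 0), (1, 1), (1, 2), (1, 3)], [(1, 2)], [], [(1, 2, []), (4, 1, [3])]⟩,
    ⟨[(0, 1), (1, 2)], [(1, 0), (1, 1), (1, 2), (1, 3), (2, 0), (2, 1), (2, 2), (2, 3)],
      [(0, 1), (0, 3), (1, 3)], [], [(2, 3, [1]), (4, 1, [3]), (5, 0, [5])]⟩,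
    ⟨[(0, 1), (1, 2), (1, 3)], [(0, 0), (0, 2), (0, 5), (1, 0), (1, 2), (1, 3), (1, 5)],
      [(2, 5)], [4], [(3, 2, []), (6, 5, [0])]⟩,
    ⟨[(0, 1), (0, 4), (1, 4)], [(0, 0), (0, 1), (1, 0), (2, 1), (3, 0), (3, 1), (4, 0), (4,
      1), (4, 2), (4, 5)], [(0, 0), (0, 1)], [4], [(0, 0, [5]), (4, 1, [3]), (5, 0, [5])]⟩,
    ⟨[(0, 5), (4, 5)], [(0, 0), (1, 0), (2, 1), (3, 1), (5, 0), (5, 1)], [(0, 1)], [6],
      [(0, 0, [5]), (4, 1, [3])]⟩]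
  Ta := [((0, 1), 0, 2), ((0, 8), 0, 6), ((1, 0), 2, 0), ((1, 4), 2, 1), ((3, 2), 2, 3), ((3, 6),
    2, 5), ((5, 2), 0, 3), ((5, 4), 0, 1), ((5, 7), 0, 4)]
  Tb := [((0, 1, 8), 0, 2, 6), ((1, 0, 4), 2, 0, 1), ((2, 3, 5), 3, 2, 0), ((3, 2, 6), 2, 3, 5),
    ((4, 1, 5), 1, 2, 0), ((4, 1, 8), 1, 2, 6), ((4, 5, 8), 1, 0, 6), ((5, 2, 4), 0, 3, 1),
    ((5, 2, 7), 0, 3, 4), ((5, 4, 7), 0, 1, 4), ((6, 3, 7), 5, 2, 4), ((7, 5, 6), 4, 0, 5),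
    ((8, 0, 4), 6, 0, 1)]
  Tc := []
  Td := [((0, 5), (0, 1), 2), ((0, 5), (0, 8), 6), ((0, 5), (5, 2), 3), ((0, 5), (5, 4), 1), ((0,
    5), (5, 7), 4), ((1, 3), (4, 1), 2), ((1, 3), (4, 5), 0), ((1, 3), (4, 8), 6), ((3, 1),
    (2, 3), 2), ((3, 1), (2, 5), 0), ((5, 0), (6, 3), 2), ((5, 0), (6, 7), 4)]
  G := [[0, 0, 0x441142c8c1142c, 0xccc118ccc114c2, 0x6cc1182881182a], [0, 0, 0, 0,
    0xcac11824411426], [0, 0xc4686ace2818, 0, 0x1814341414183818c, 0x1811c54128], [0,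
    0xcc61826c6124c2, 0, 0, 0x142811411c9181814bc8a4]]

noncomputable def n1986 : Ent := ⟨e1986, noF, [], [], [(8, 15, [360035742630636841211993100915356868655746945586763691015790593, 0])]⟩

def c1986 : PLift (Cov.check n1986.C.D v1986 = true) := ⟨by decide +kernel⟩

def b1986 : PLift (entF (fidx ts) 400 1986 n1986 = true) := ⟨by decide +kernel⟩

theorem g1986 : GoodF (fidx ts) 400 1986 := GoodF.ofV v1986 n1986 c1986.down b1986.down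

/-- 4845674:1663/5 -/
noncomputable def e1987 : SCfg where
  D := {
    a := 7
    L := 10
    kp := 7
    inn := [(0, 1), (0, 4), (0, 5), (1, 0), (1, 2), (1, 3), (1, 4), (2, 1), (2, 3), (3, 1), (3, 2), (4,
      0), (4, 1), (4, 5), (5, 0), (5, 4), (5, 6), (6, 5)]
    mix := [(0, 0), (1, 0), (1, 1), (1, 2), (1, 3), (2, 1), (2, 4), (3, 2), (3, 4), (3, 5), (4, 3), (4,
      6), (4, 7), (5, 0), (5, 4), (5, 7), (5, 8), (6, 0), (6, 4), (6, 9)]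
    cl := [0, 2, 3, 2, 1, 4, 5, 0, 6, 7]
    chq := [(0, 1), (1, 0), (1, 3), (3, 1)]
    rng := [(0, 1), (0, 9), (1, 0), (1, 4), (2, 3), (2, 5), (3, 2), (3, 6), (4, 1), (4, 5), (4, 8), (4,
      9), (5, 2), (5, 4), (6, 3), (6, 7), (7, 6), (7, 8), (8, 4), (8, 7), (9, 0), (9, 4)]
    lev := [] }
  links := [[1, 4, 5, 7], [4, 0, 7, 8, 2, 3, 9, 10], [3, 1, 8, 11], [9, 1, 2, 11, 12], [5, 0, 1, 10, 13,
    14], [7, 0, 4, 14, 15, 11, 6], [7, 5, 11, 16]]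
  P := {
    a := 7
    N := 17
    nb := [178, 1949, 2314, 6662, 25635, 51409, 67744, 65891, 2182, 5130, 8722, 102764, 2568, 17424,
      41008, 18464, 2240]
    tri := [(0, 1, 4), (0, 1, 7), (0, 4, 5), (0, 5, 7), (1, 2, 3), (1, 2, 8), (1, 3, 9), (1, 4, 10),
      (1, 7, 8), (1, 9, 10), (2, 3, 11), (2, 8, 11), (3, 9, 12), (3, 11, 12), (4, 5, 14), (4, 10,
      13), (4, 13, 14), (5, 6, 7), (5, 6, 11), (5, 11, 15), (5, 14, 15), (6, 7, 16), (6, 11, 16)]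
    fin := [0, 1, 1, 3, 0, 0, 0, 0, 1, 9, 1, 3, 12, 13, 0, 15, 16]
    chd := [(0, 3), (9, 3)]
    steps := [(0, 4), (0, 5), (0, 6), (0, 7), (0, 14), (1, 2), (1, 8), (1, 10), (3, 11)] }
  rep := [0, 3, 1, 9, 12, 13, 15, 16]

noncomputable def v1987 : Cov.CovD where
  P := 3
  N := 5
  pl := [5, 6, 8, 9]
  lev := [⟨[], [], [], [], [(0, 0, [1])]⟩,
    ⟨[], [(0, 0), (0, 2), (0, 3)], [(0, 2), (0, 3), (2, 2), (2, 3)], [], [(0, 0, [1]), (1,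
      2, []), (2, 3, [1]), (3, 2, [])]⟩,
    ⟨[(0, 1)], [(1, 0), (1, 1), (1, 2), (1, 3)], [(1, 2)], [], [(1, 2, []), (4, 1, [0,
      3])]⟩,
    ⟨[(0, 1), (1, 2)], [(1, 0), (1, 1), (1, 2), (1, 3), (2, 1), (2, 2), (2, 3)], [(1, 3)],
      [4], [(2, 3, [1]), (4, 1, [0, 3])]⟩,
    ⟨[(0, 1), (1, 2), (1, 3)], [(0, 0), (0, 2), (1, 0), (1, 2), (1, 3)], [(0, 2)], [5],
      [(3, 2, []), (7, 0, [1])]⟩,
    ⟨[(0, 1), (0, 4), (1, 4)], [(0, 0), (0, 1), (1, 0), (2, 1), (3, 1), (4, 0), (4, 1), (4,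
      2)], [(0, 0), (0, 1)], [6], [(0, 0, [1]), (4, 1, [0, 3]), (7, 0, [1])]⟩,
    ⟨[(0, 5), (4, 5)], [(0, 0), (1, 0), (2, 1), (3, 1), (5, 0), (5, 1)], [(0, 1)], [7],
      [(0, 0, [1]), (4, 1, [0, 3])]⟩]
  Ta := [((0, 1), 0, 2), ((0, 9), 0, 7), ((1, 0), 2, 0), ((1, 4), 2, 1), ((3, 2), 2, 3), ((3, 6),
    2, 5), ((7, 6), 0, 5), ((7, 8), 0, 6)]
  Tb := [((0, 1, 9), 0, 2, 7), ((1, 0, 4), 2, 0, 1), ((2, 3, 5), 3, 2, 4), ((3, 2, 6), 2, 3, 5),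
    ((4, 1, 5), 1, 2, 4), ((4, 1, 8), 1, 2, 6), ((4, 1, 9), 1, 2, 7), ((4, 5, 8), 1, 4, 6),
    ((4, 5, 9), 1, 4, 7), ((4, 8, 9), 1, 6, 7), ((5, 2, 4), 4, 3, 1), ((6, 3, 7), 5, 2, 0),
    ((7, 6, 8), 0, 5, 6), ((8, 4, 7), 6, 1, 0), ((9, 0, 4), 7, 0, 1)]
  Tc := [(1, 0, 3)]
  Td := [((0, 1), (0, 1), 2), ((0, 1), (0, 9), 7), ((0, 1), (7, 6), 5), ((0, 1), (7, 8), 6), ((1,
    0), (4, 1), 2), ((1, 0), (4, 5), 4), ((1, 0), (4, 8), 6), ((1, 0), (4, 9), 7), ((1, 3),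
    (4, 1), 2), ((1, 3), (4, 5), 4), ((1, 3), (4, 8), 6), ((1, 3), (4, 9), 7), ((3, 1), (2,
    3), 2), ((3, 1), (2, 5), 4)]
  G := [[0, 0x6ac2146ac214c1, 0xc444a4444a4424c4ed42ccac8c668c88c8ce68cc888ed82c,
    0xccc1ccc191ccc1ccc158c2, 0x4cc14cc1c41d12881881c81d12c], [0, 0xcca112cca114c2, 0, 0,
    0x4cc14cc1c41d82881881c81d82c], [0, 0x824e114cac114c2, 0, 0x11c211c251411c211c2918c,
    0x141814e1411a14e1411a14ed828], [0, 0xa661146aa118c4, 0, 0,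
    0x11c811c11ca11c11cad1211c211c29186]]

noncomputable def n1987 : Ent := ⟨e1987, noF, [], [], [(8, 16, [1580044410770988437309982408355971841652082177953823432505697234945, 0]), (12, 15, [1685356702439545624007900436039642273970977273354372543760008224769, 0])]⟩

def c1987 : PLift (Cov.check n1987.C.D v1987 = true) := ⟨by decide +kernel⟩

def b1987 : PLift (entF (fidx ts) 400 1987 n1987 = true) := ⟨by decide +kernel⟩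

theorem g1987 : GoodF (fidx ts) 400 1987 := GoodF.ofV v1987 n1987 c1987.down b1987.down

/-- 4845674:1663/7 -/
noncomputable def e1988 : SCfg where
  D := {
    a := 7
    L := 10
    kp := 7
    inn := [(0, 1), (0, 4), (0, 5), (1, 0), (1, 2), (1, 3), (1, 4), (2, 1), (2, 3), (3, 1), (3, 2), (4,
      0), (4, 1), (4, 5), (5, 0), (5, 4), (5, 6), (6, 5)]
    mix := [(0, 0), (1, 0), (1, 1), (1, 2), (1, 3), (2, 1), (2, 4), (3, 2), (3, 4), (3, 5), (4, 3), (4,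
      6), (4, 7), (5, 0), (5, 5), (5, 7), (5, 8), (6, 0), (6, 8), (6, 9)]
    cl := [0, 1, 2, 1, 3, 0, 6, 4, 5, 7]
    chq := [(0, 6), (2, 3), (3, 2), (6, 0)]
    rng := [(0, 1), (0, 9), (1, 0), (1, 4), (2, 3), (2, 5), (3, 2), (3, 6), (4, 1), (4, 5), (5, 2), (5,
      4), (5, 7), (5, 8), (6, 3), (6, 7), (7, 5), (7, 6), (8, 5), (8, 9), (9, 0), (9, 8)]
    lev := [] }
  links := [[1, 4, 5, 7], [4, 0, 7, 8, 2, 3, 9, 10], [3, 1, 8, 11], [9, 1, 2, 11, 12], [5, 0, 1, 10, 13,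
    14], [7, 0, 4, 14, 12, 15, 6], [7, 5, 15, 16]]
  P := {
    a := 7
    N := 17
    nb := [178, 1949, 2314, 6662, 25635, 53457, 98464, 65891, 2182, 5130, 8722, 4364, 51752, 17424,
      12336, 69728, 32960]
    tri := [(0, 1, 4), (0, 1, 7), (0, 4, 5), (0, 5, 7), (1, 2, 3), (1, 2, 8), (1, 3, 9), (1, 4, 10),
      (1, 7, 8), (1, 9, 10), (2, 3, 11), (2, 8, 11), (3, 9, 12), (3, 11, 12), (4, 5, 14), (4, 10,
      13), (4, 13, 14), (5, 6, 7), (5, 6, 15), (5, 12, 14), (5, 12, 15), (6, 7, 16), (6, 15, 16)]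
    fin := [0, 1, 1, 3, 0, 0, 0, 0, 1, 9, 1, 3, 0, 13, 14, 15, 16]
    chd := [(0, 13), (9, 3)]
    steps := [(0, 4), (0, 5), (0, 6), (0, 7), (0, 12), (1, 2), (1, 8), (1, 10), (3, 11)] }
  rep := [0, 1, 9, 3, 14, 15, 13, 16]

noncomputable def v1988 : Cov.CovD where
  P := 3
  N := 5
  pl := [7, 8, 9]
  lev := [⟨[], [], [], [], [(0, 0, [6])]⟩,
    ⟨[], [(0, 0), (0, 1), (0, 2)], [(0, 1), (0, 2), (1, 1), (1, 2)], [], [(0, 0, [6]), (1,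
      1, []), (2, 2, [3]), (3, 1, [])]⟩,
    ⟨[(0, 1)], [(1, 0), (1, 1), (1, 2), (1, 3)], [(1, 3)], [], [(1, 1, []), (4, 3, [2])]⟩,
    ⟨[(0, 1), (1, 2)], [(1, 0), (1, 1), (1, 2), (1, 3), (2, 0), (2, 1), (2, 2), (2, 3)],
      [(0, 2), (0, 3), (2, 3)], [], [(2, 2, [3]), (4, 3, [2]), (5, 0, [6])]⟩,
    ⟨[(0, 1), (1, 2), (1, 3)], [(0, 0), (0, 1), (0, 6), (1, 0), (1, 1), (1, 2), (1, 6)],
      [(1, 6)], [4], [(3, 1, []), (6, 6, [0])]⟩,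
    ⟨[(0, 1), (0, 4), (1, 4)], [(0, 0), (1, 0), (3, 0), (4, 0), (4, 1), (4, 6)], [(0, 0)],
      [4, 5], [(0, 0, [6]), (5, 0, [6])]⟩,
    ⟨[(0, 5), (4, 5)], [(0, 0), (1, 0), (5, 0)], [], [5, 7], [(0, 0, [6])]⟩]
  Ta := [((0, 1), 0, 1), ((0, 9), 0, 7), ((1, 0), 1, 0), ((1, 4), 1, 3), ((3, 2), 1, 2), ((3, 6),
    1, 6), ((5, 2), 0, 2), ((5, 4), 0, 3), ((5, 7), 0, 4), ((5, 8), 0, 5)]
  Tb := [((0, 1, 9), 0, 1, 7), ((1, 0, 4), 1, 0, 3), ((2, 3, 5), 2, 1, 0), ((3, 2, 6), 1, 2, 6),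
    ((4, 1, 5), 3, 1, 0), ((5, 2, 4), 0, 2, 3), ((5, 2, 7), 0, 2, 4), ((5, 2, 8), 0, 2, 5),
    ((5, 4, 7), 0, 3, 4), ((5, 4, 8), 0, 3, 5), ((5, 7, 8), 0, 4, 5), ((6, 3, 7), 6, 1, 4),
    ((7, 5, 6), 4, 0, 6), ((8, 5, 9), 5, 0, 7), ((9, 0, 8), 7, 0, 5)]
  Tc := []
  Td := [((0, 6), (0, 1), 1), ((0, 6), (0, 9), 7), ((0, 6), (5, 2), 2), ((0, 6), (5, 4), 3), ((0,
    6), (5, 7), 4), ((0, 6), (5, 8), 5), ((2, 3), (2, 3), 1), ((2, 3), (2, 5), 0), ((3, 2),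
    (4, 1), 1), ((3, 2), (4, 5), 0), ((6, 0), (6, 3), 1), ((6, 0), (6, 7), 4)]
  G := [[0, 0xe41128eea1128c, 0, 0, 0xee61148e81148a], [0, 0, 0, 0xee61128e81128c,
    0xe41218eea1218c], [0, 0, 0x111e1111e16148, 0, 0x19ca13e311c537e3a484], [0, 0,
    0x111e12142, 0x11c44411611ae59ed11ac39e9c2c2, 0x11611c1cded2482]]

noncomputable def n1988 : Ent := ⟨e1988, noF, [], [], [(8, 16, [1580044410770988437309982408355971841652082177953823432505697239041, 0]), (11, 15, [1685356702439545624007900436039642273970977273354372543760008224769, 0])]⟩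

def c1988 : PLift (Cov.check n1988.C.D v1988 = true) := ⟨by decide +kernel⟩

def b1988 : PLift (entF (fidx ts) 400 1988 n1988 = true) := ⟨by decide +kernel⟩

theorem g1988 : GoodF (fidx ts) 400 1988 := GoodF.ofV v1988 n1988 c1988.down b1988.down

/-- 4845674:1663/8 -/
noncomputable def e1989 : SCfg where
  D := {
    a := 7
    L := 10
    kp := 7
    inn := [(0, 1), (0, 4), (0, 5), (1, 0), (1, 2), (1, 3), (1, 4), (2, 1), (2, 3), (3, 1), (3, 2), (4,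
      0), (4, 1), (4, 5), (5, 0), (5, 4), (5, 6), (6, 5)]
    mix := [(0, 0), (1, 0), (1, 1), (1, 2), (1, 3), (2, 1), (2, 4), (3, 2), (3, 4), (3, 5), (4, 3), (4,
      6), (4, 7), (5, 0), (5, 5), (5, 7), (5, 8), (6, 0), (6, 5), (6, 9)]
    cl := [0, 1, 2, 1, 4, 3, 7, 0, 5, 6]
    chq := [(1, 3), (3, 1), (5, 6), (6, 5)]
    rng := [(0, 1), (0, 9), (1, 0), (1, 4), (2, 3), (2, 5), (3, 2), (3, 6), (4, 1), (4, 5), (5, 2), (5,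
      4), (5, 8), (5, 9), (6, 3), (6, 7), (7, 6), (7, 8), (8, 5), (8, 7), (9, 0), (9, 5)]
    lev := [] }
  links := [[1, 4, 5, 7], [4, 0, 7, 8, 2, 3, 9, 10], [3, 1, 8, 11], [9, 1, 2, 11, 12], [5, 0, 1, 10, 13,
    14], [7, 0, 4, 14, 15, 12, 6], [7, 5, 12, 16]]
  P := {
    a := 7
    N := 17
    nb := [178, 1949, 2314, 6662, 25635, 53457, 69792, 65891, 2182, 5130, 8722, 4364, 100968, 17424,
      41008, 20512, 4288]
    tri := [(0, 1, 4), (0, 1, 7), (0, 4, 5), (0, 5, 7), (1, 2, 3), (1, 2, 8), (1, 3, 9), (1, 4, 10),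
      (1, 7, 8), (1, 9, 10), (2, 3, 11), (2, 8, 11), (3, 9, 12), (3, 11, 12), (4, 5, 14), (4, 10,
      13), (4, 13, 14), (5, 6, 7), (5, 6, 12), (5, 12, 15), (5, 14, 15), (6, 7, 16), (6, 12, 16)]
    fin := [0, 1, 1, 1, 0, 5, 5, 0, 1, 9, 1, 11, 12, 13, 0, 5, 16]
    chd := [(1, 12), (5, 16)]
    steps := [(0, 4), (0, 7), (0, 14), (1, 2), (1, 3), (1, 8), (1, 10), (5, 6), (5, 15)] }
  rep := [0, 1, 9, 12, 11, 5, 16, 13]

noncomputable def v1989 : Cov.CovD where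
  P := 3
  N := 5
  pl := [2, 4, 6]
  lev := [⟨[], [], [], [], [(0, 0, [])]⟩,
    ⟨[], [(0, 0), (0, 1)], [(0, 1), (1, 1)], [2], [(0, 0, []), (1, 1, [3]), (3, 1, [3])]⟩,
    ⟨[(0, 1)], [(1, 0), (1, 1)], [], [4], [(1, 1, [3])]⟩,
    ⟨[(0, 1), (1, 2)], [(1, 0), (1, 1), (1, 3), (2, 1), (2, 3)], [], [2, 4], [(5, 3, [1])]⟩,
    ⟨[(0, 1), (1, 2), (1, 3)], [(0, 0), (0, 1), (1, 0), (1, 1)], [(0, 1)], [7], [(3, 1,
      [3]), (7, 0, [])]⟩,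
    ⟨[(0, 1), (0, 4), (1, 4)], [(0, 0), (0, 3), (0, 5), (1, 0), (3, 3), (4, 0), (4, 1), (4,
      3), (4, 5)], [(0, 0), (0, 3), (0, 5), (3, 5)], [], [(0, 0, []), (5, 3, [1]), (7, 0,
      []), (8, 5, [6])]⟩,
    ⟨[(0, 5), (4, 5)], [(0, 0), (1, 0), (3, 3), (5, 0), (5, 3), (5, 5), (5, 6)], [(0, 3),
      (0, 6), (3, 6)], [], [(0, 0, []), (5, 3, [1]), (9, 6, [5])]⟩]
  Ta := [((0, 1), 0, 1), ((0, 9), 0, 6), ((1, 0), 1, 0), ((1, 4), 1, 4), ((3, 2), 1, 2), ((3, 6),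
    1, 7), ((7, 6), 0, 7), ((7, 8), 0, 5)]
  Tb := [((0, 1, 9), 0, 1, 6), ((1, 0, 4), 1, 0, 4), ((2, 3, 5), 2, 1, 3), ((3, 2, 6), 1, 2, 7),
    ((4, 1, 5), 4, 1, 3), ((5, 2, 4), 3, 2, 4), ((5, 2, 8), 3, 2, 5), ((5, 2, 9), 3, 2, 6),
    ((5, 4, 8), 3, 4, 5), ((5, 4, 9), 3, 4, 6), ((5, 8, 9), 3, 5, 6), ((6, 3, 7), 7, 1, 0),
    ((7, 6, 8), 0, 7, 5), ((8, 5, 7), 5, 3, 0), ((9, 0, 5), 6, 0, 3)]
  Tc := []
  Td := [((1, 3), (1, 0), 0), ((1, 3), (1, 4), 4), ((1, 3), (3, 2), 2), ((1, 3), (3, 6), 7), ((3,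
    1), (5, 2), 2), ((3, 1), (5, 4), 4), ((3, 1), (5, 8), 5), ((3, 1), (5, 9), 6), ((5, 6),
    (8, 5), 3), ((5, 6), (8, 7), 0), ((6, 5), (9, 0), 0), ((6, 5), (9, 5), 3)]
  G := [[0, 0x22ce2ca24e1ac66ca6ace1a42, 0x24614428a1822ce129c8, 0, 0x28a12461a2c61224e13584],
    [0, 0, 0x28a12461c22ce12348, 0x28a1246122ce1d284, 0x4a4e126ace12c82], [0, 0,
    0x424224e828228e64828228e424224ea8c1, 0, 0x121214e11828228e8424222ce2c94], [0, 0,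
    0x1164211c42c111e821d5e3cac29c2, 0x2464144528228ac246821611acd2c288288924c,
    0x4a4e4a4ec26ace6acec2c12]]

noncomputable def n1989 : Ent := ⟨e1989, noF, [], [], []⟩

def c1989 : PLift (Cov.check n1989.C.D v1989 = true) := ⟨by decide +kernel⟩

def b1989 : PLift (entF (fidx ts) 400 1989 n1989 = true) := ⟨by decide +kernel⟩

theorem g1989 : GoodF (fidx ts) 400 1989 := GoodF.ofV v1989 n1989 c1989.down b1989.down

/-- 4845674:1663 -/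
noncomputable def e1990 : SCfg where
  D := {
    a := 7
    L := 11
    kp := 8
    inn := [(0, 1), (0, 4), (0, 5), (1, 0), (1, 2), (1, 3), (1, 4), (2, 1), (2, 3), (3, 1), (3, 2), (4,
      0), (4, 1), (4, 5), (5, 0), (5, 4), (5, 6), (6, 5)]
    mix := [(0, 0), (1, 0), (1, 1), (1, 2), (1, 3), (2, 1), (2, 4), (3, 2), (3, 4), (3, 5), (4, 3), (4,
      6), (4, 7), (5, 0), (5, 7), (5, 8), (5, 9), (6, 0), (6, 9), (6, 10)]
    cl := [0, 1, 2, 1, 3, 7, 6, 4, 0, 5, 8]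
    chq := [(0, 6), (2, 3), (3, 2), (6, 0)]
    rng := [(0, 1), (0, 10), (1, 0), (1, 4), (2, 3), (2, 5), (3, 2), (3, 6), (4, 1), (4, 5), (5, 2),
      (5, 4), (6, 3), (6, 7), (7, 6), (7, 8), (8, 7), (8, 9), (9, 8), (9, 10), (10, 0), (10, 9)]
    lev := [] }
  links := [[1, 4, 5, 7], [4, 0, 7, 8, 2, 3, 9, 10], [3, 1, 8, 11], [9, 1, 2, 11, 12], [5, 0, 1, 10, 13,
    14], [7, 0, 4, 14, 15, 16, 6], [7, 5, 16, 17]]
  P := {
    a := 7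
    N := 18
    nb := [178, 1949, 2314, 6662, 25635, 114897, 196768, 131427, 2182, 5130, 8722, 4364, 2568, 17424,
      41008, 81952, 163936, 65728]
    tri := [(0, 1, 4), (0, 1, 7), (0, 4, 5), (0, 5, 7), (1, 2, 3), (1, 2, 8), (1, 3, 9), (1, 4, 10),
      (1, 7, 8), (1, 9, 10), (2, 3, 11), (2, 8, 11), (3, 9, 12), (3, 11, 12), (4, 5, 14), (4, 10,
      13), (4, 13, 14), (5, 6, 7), (5, 6, 16), (5, 14, 15), (5, 15, 16), (6, 7, 17), (6, 16, 17)]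
    fin := [0, 1, 1, 3, 0, 0, 0, 0, 1, 9, 1, 3, 12, 13, 14, 0, 16, 17]
    chd := [(0, 13), (9, 3)]
    steps := [(0, 4), (0, 5), (0, 6), (0, 7), (0, 15), (1, 2), (1, 8), (1, 10), (3, 11)] }
  rep := [0, 1, 9, 3, 14, 16, 13, 12, 17]

noncomputable def v1990 : Cov.CovD where
  P := 3
  N := 6
  pl := [5, 7, 9, 10]
  lev := [⟨[], [], [], [], [(0, 0, [6])]⟩,
    ⟨[], [(0, 0), (0, 1), (0, 2)], [(0, 1), (0, 2), (1, 1), (1, 2)], [], [(0, 0, [6]), (1,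
      1, []), (2, 2, [3]), (3, 1, [])]⟩,
    ⟨[(0, 1)], [(1, 0), (1, 1), (1, 2), (1, 3)], [(1, 3)], [], [(1, 1, []), (4, 3, [2])]⟩,
    ⟨[(0, 1), (1, 2)], [(1, 0), (1, 1), (1, 2), (1, 3), (2, 1), (2, 2), (2, 3)], [(2, 3)],
      [7], [(2, 2, [3]), (4, 3, [2])]⟩,
    ⟨[(0, 1), (1, 2), (1, 3)], [(0, 0), (0, 1), (0, 6), (1, 0), (1, 1), (1, 2), (1, 6)],
      [(1, 6)], [4], [(3, 1, []), (6, 6, [0])]⟩,
    ⟨[(0, 1), (0, 4), (1, 4)], [(0, 0), (1, 0), (4, 0), (4, 1), (4, 6)], [(0, 0)], [4, 5],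
      [(0, 0, [6]), (8, 0, [6])]⟩,
    ⟨[(0, 5), (4, 5)], [(0, 0), (1, 0), (5, 0)], [], [5, 8], [(0, 0, [6])]⟩]
  Ta := [((0, 1), 0, 1), ((0, 10), 0, 8), ((1, 0), 1, 0), ((1, 4), 1, 3), ((3, 2), 1, 2), ((3,
    6), 1, 6), ((8, 7), 0, 4), ((8, 9), 0, 5)]
  Tb := [((0, 1, 10), 0, 1, 8), ((1, 0, 4), 1, 0, 3), ((2, 3, 5), 2, 1, 7), ((3, 2, 6), 1, 2, 6),
    ((4, 1, 5), 3, 1, 7), ((5, 2, 4), 7, 2, 3), ((6, 3, 7), 6, 1, 4), ((7, 6, 8), 4, 6, 0),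
    ((8, 7, 9), 0, 4, 5), ((9, 8, 10), 5, 0, 8), ((10, 0, 9), 8, 0, 5)]
  Tc := []
  Td := [((0, 6), (0, 1), 1), ((0, 6), (0, 10), 8), ((0, 6), (8, 7), 4), ((0, 6), (8, 9), 5),
    ((2, 3), (2, 3), 1), ((2, 3), (2, 5), 7), ((3, 2), (4, 1), 1), ((3, 2), (4, 5), 7), ((6,
    0), (6, 3), 1), ((6, 0), (6, 7), 4)]
  G := [[0, 0x4ea1ee61ee61d24aec1e81e81d28a, 0xc414eee1ee61e14e2ee1a81e81e18c, 0,
    0xe21ee61348e21848eec1eec1e81b48e], [0, 0, 0x221eaee1e21e18eece18441eec16946,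
    0xee61ee616eee1d24e81e81881d24a, 0xee61ee61348221848eece1e81e81b48e], [0, 0,
    0x11c935e331c1b9e311ca17e3e184, 0, 0x11ca35e311ca1ee311c53ee3b484], [0, 0,
    0x11611a5e3ed88411611a935ed11611c539ed618a, 0x116359e511611ce71edc1611671dedd211a882c2,
    0x13c19de511611a935ed11611659dedb46ace88892]]

noncomputable def n1990 : Ent := ⟨e1990, noF, [], [], [(8, 17, [6903326391201334775872065844685381424292761054348340378595029937819649, 0]), (11, 16, [7334685537875745012586738086077695515070955365108989538292687701815297, 0]), (12, 15, [7334790850167413569773436004105379185503274260204390087403942012796929, 0]), (12, 16, [7334685537875745012586738086077695515070955365108989538292687701823489, 0])]⟩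

def c1990 : PLift (Cov.check n1990.C.D v1990 = true) := ⟨by decide +kernel⟩

def b1990 : PLift (entF (fidx ts) 400 1990 n1990 = true) := ⟨by decide +kernel⟩

theorem g1990 : GoodF (fidx ts) 400 1990 := GoodF.ofV v1990 n1990 c1990.down b1990.down

/-- 4578644:1669/2 -/
noncomputable def e1991 : SCfg where
  D := {
    a := 7
    L := 9
    kp := 6
    inn := [(0, 1), (0, 2), (1, 0), (1, 2), (1, 3), (1, 4), (2, 0), (2, 1), (2, 4), (3, 1), (3, 4), (3,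
      5), (3, 6), (4, 1), (4, 2), (4, 3), (5, 3), (6, 3)]
    mix := [(0, 0), (0, 1), (1, 1), (2, 0), (2, 2), (2, 3), (2, 4), (3, 1), (3, 5), (3, 6), (3, 7), (4,
      2), (4, 7), (4, 8), (5, 4), (5, 5), (5, 6), (6, 0), (6, 1), (6, 5)]
    cl := [1, 0, 1, 5, 2, 3, 0, 4, 6]
    chq := [(0, 3), (1, 4), (3, 0), (4, 1)]
    rng := [(0, 1), (0, 4), (0, 5), (1, 0), (2, 3), (2, 8), (3, 2), (3, 4), (4, 0), (4, 3), (4, 5), (4,
      6), (5, 0), (5, 4), (6, 4), (6, 7), (7, 6), (7, 8), (8, 2), (8, 7)]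
    lev := [] }
  links := [[1, 2, 7, 8], [2, 0, 8, 3, 4], [7, 0, 1, 4, 9, 10, 11], [4, 1, 8, 6, 12, 5, 13, 14], [9, 2,
    1, 3, 14, 15], [13, 3, 12, 11], [12, 3, 8, 7]]
  P := {
    a := 7
    N := 16
    nb := [390, 285, 3731, 29042, 49678, 14344, 4488, 6469, 203, 33812, 2564, 13476, 2280, 18472,
      40984, 16912]
    tri := [(0, 1, 2), (0, 1, 8), (0, 2, 7), (0, 7, 8), (1, 2, 4), (1, 3, 4), (1, 3, 8), (2, 4, 9), (2,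
      7, 11), (2, 9, 10), (2, 10, 11), (3, 4, 14), (3, 5, 12), (3, 5, 13), (3, 6, 8), (3, 6, 12),
      (3, 13, 14), (4, 9, 15), (4, 14, 15), (5, 11, 12), (5, 11, 13), (6, 7, 8), (6, 7, 12)]
    fin := [0, 0, 0, 3, 0, 3, 0, 0, 3, 0, 10, 11, 12, 3, 14, 15]
    chd := [(0, 14), (3, 12)]
    steps := [(0, 1), (0, 2), (0, 4), (0, 7), (0, 9), (3, 5), (3, 8), (0, 6), (3, 13)] }
  rep := [3, 0, 11, 12, 14, 10, 15]

noncomputable def v1991 : Cov.CovD where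
  P := 3
  N := 4
  pl := [3, 4, 8]
  lev := [⟨[], [], [(0, 1)], [], [(0, 1, [4]), (1, 0, [3])]⟩,
    ⟨[], [(0, 0), (0, 1)], [], [], [(1, 0, [3])]⟩,
    ⟨[(0, 1)], [(0, 0), (0, 1), (1, 0), (1, 1)], [(1, 1)], [2, 5], [(0, 1, [4]), (2, 1,
      [4])]⟩,
    ⟨[(0, 1), (1, 2)], [(0, 0), (1, 0), (1, 3), (1, 4)], [(0, 0), (0, 3), (0, 4), (3, 4)],
      [], [(1, 0, [3]), (5, 3, [0]), (6, 0, [3]), (7, 4, [1])]⟩,
    ⟨[(0, 1), (0, 2), (1, 2), (1, 3), (2, 3)], [(1, 0), (1, 1), (1, 4), (2, 1), (2, 4), (3,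
      0), (3, 1), (3, 3), (3, 4)], [(1, 4)], [6], [(2, 1, [4]), (7, 4, [1])]⟩,
    ⟨[(1, 3), (3, 4)], [(3, 0), (3, 3), (3, 4)], [(0, 3)], [2], [(5, 3, [0]), (6, 0, [3])]⟩,
    ⟨[(1, 3), (3, 4), (3, 5)], [(0, 0), (0, 1), (1, 0), (2, 1), (3, 0), (3, 1), (3, 3), (3,
      4), (5, 3)], [(0, 1), (0, 3), (1, 3)], [], [(0, 1, [4]), (1, 0, [3]), (5, 3, [0])]⟩]
  Ta := [((0, 1), 1, 0), ((0, 4), 1, 2), ((0, 5), 1, 3), ((1, 0), 0, 1), ((2, 3), 1, 5), ((2, 8),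
    1, 6), ((6, 4), 0, 2), ((6, 7), 0, 4)]
  Tb := [((0, 1, 4), 1, 0, 2), ((0, 1, 5), 1, 0, 3), ((0, 4, 5), 1, 2, 3), ((2, 3, 8), 1, 5, 6),
    ((3, 2, 4), 5, 1, 2), ((4, 0, 3), 2, 1, 5), ((4, 0, 5), 2, 1, 3), ((4, 0, 6), 2, 1, 0),
    ((4, 3, 5), 2, 5, 3), ((4, 3, 6), 2, 5, 0), ((4, 5, 6), 2, 3, 0), ((5, 0, 4), 3, 1, 2),
    ((6, 4, 7), 0, 2, 4), ((7, 6, 8), 4, 0, 6), ((8, 2, 7), 6, 1, 4)]
  Tc := []
  Td := [((0, 3), (1, 0), 1), ((0, 3), (6, 4), 2), ((0, 3), (6, 7), 4), ((1, 4), (0, 1), 0), ((1,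
    4), (0, 4), 2), ((1, 4), (0, 5), 3), ((1, 4), (2, 3), 5), ((1, 4), (2, 8), 6), ((3, 0),
    (5, 0), 1), ((3, 0), (5, 4), 2), ((4, 1), (7, 6), 0), ((4, 1), (7, 8), 6)]
  G := [[0, 0x21124112116c811411c8118ca4, 0, 0x84984c84cd248584c849d2528,
    0x84a2888495681242849849d69482c18a81289c4], [0, 0, 0, 0, 0x849c2849d2849849849d2942], [0,
    0, 0x14218464814248848284c8284cda44284c84c9ac4d, 0x84c84c84cd284c84c84cd2c21,
    0x18284a81a9a181a84a5184616482228822bc284a84ade845], [0, 0,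
    0x14c42481c81c12d281a41692cc2, 0, 0x1242544212984a84a52d69528884ad28c2]]

noncomputable def n1991 : Ent := ⟨e1991, noF, [], [], []⟩

def c1991 : PLift (Cov.check n1991.C.D v1991 = true) := ⟨by decide +kernel⟩

def b1991 : PLift (entF (fidx ts) 400 1991 n1991 = true) := ⟨by decide +kernel⟩

theorem g1991 : GoodF (fidx ts) 400 1991 := GoodF.ofV v1991 n1991 c1991.down b1991.down

/-- 4578644:1669/1 -/
noncomputable def e1992 : SCfg where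
  D := {
    a := 7
    L := 10
    kp := 7
    inn := [(0, 1), (0, 2), (1, 0), (1, 2), (1, 3), (1, 4), (2, 0), (2, 1), (2, 4), (3, 1), (3, 4), (3,
      5), (3, 6), (4, 1), (4, 2), (4, 3), (5, 3), (6, 3)]
    mix := [(0, 0), (0, 1), (1, 1), (2, 0), (2, 2), (2, 3), (2, 4), (3, 1), (3, 5), (3, 6), (3, 7), (4,
      2), (4, 7), (4, 8), (5, 5), (5, 6), (5, 9), (6, 0), (6, 1), (6, 5)]
    cl := [1, 0, 1, 4, 5, 2, 0, 3, 6, 7]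
    chq := [(0, 2), (1, 3), (2, 0), (3, 1)]
    rng := [(0, 1), (0, 4), (0, 5), (1, 0), (2, 3), (2, 8), (3, 2), (3, 4), (4, 0), (4, 3), (5, 0), (5,
      9), (6, 7), (6, 9), (7, 6), (7, 8), (8, 2), (8, 7), (9, 5), (9, 6)]
    lev := [] }
  links := [[1, 2, 7, 8], [2, 0, 8, 3, 4], [7, 0, 1, 4, 9, 10, 11], [4, 1, 8, 6, 12, 5, 13, 14], [9, 2,
    1, 3, 14, 15], [13, 3, 12, 16], [12, 3, 8, 7]]
  P := {
    a := 7
    N := 17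
    nb := [390, 285, 3731, 29042, 49678, 77832, 4488, 6469, 203, 33812, 2564, 1156, 65768, 81960,
      40984, 16912, 12320]
    tri := [(0, 1, 2), (0, 1, 8), (0, 2, 7), (0, 7, 8), (1, 2, 4), (1, 3, 4), (1, 3, 8), (2, 4, 9), (2,
      7, 11), (2, 9, 10), (2, 10, 11), (3, 4, 14), (3, 5, 12), (3, 5, 13), (3, 6, 8), (3, 6, 12),
      (3, 13, 14), (4, 9, 15), (4, 14, 15), (5, 12, 16), (5, 13, 16), (6, 7, 8), (6, 7, 12)]
    fin := [0, 0, 0, 3, 0, 3, 0, 0, 3, 0, 10, 11, 12, 3, 14, 15, 16]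
    chd := [(0, 14), (3, 12)]
    steps := [(0, 1), (0, 2), (0, 4), (0, 7), (0, 9), (3, 5), (3, 8), (0, 6), (3, 13)] }
  rep := [3, 0, 12, 14, 10, 11, 15, 16]

noncomputable def v1992 : Cov.CovD where
  P := 3
  N := 5
  pl := [3, 4, 8, 9]
  lev := [⟨[], [], [(0, 1)], [], [(0, 1, [3]), (1, 0, [2])]⟩,
    ⟨[], [(0, 0), (0, 1)], [], [], [(1, 0, [2])]⟩,
    ⟨[(0, 1)], [(0, 0), (0, 1), (1, 0), (1, 1)], [(1, 1)], [4, 5], [(0, 1, [3]), (2, 1,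
      [3])]⟩,
    ⟨[(0, 1), (1, 2)], [(0, 0), (1, 0), (1, 2), (1, 3)], [(0, 0), (0, 2), (0, 3), (2, 3)],
      [], [(1, 0, [2]), (5, 2, [0]), (6, 0, [2]), (7, 3, [1])]⟩,
    ⟨[(0, 1), (0, 2), (1, 2), (1, 3), (2, 3)], [(1, 0), (1, 1), (1, 3), (2, 1), (2, 3), (3,
      0), (3, 1), (3, 2), (3, 3)], [(1, 3)], [6], [(2, 1, [3]), (7, 3, [1])]⟩,
    ⟨[(1, 3), (3, 4)], [(3, 0), (3, 2), (3, 3)], [(0, 2)], [7], [(5, 2, [0]), (6, 0, [2])]⟩,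
    ⟨[(1, 3), (3, 4), (3, 5)], [(0, 0), (0, 1), (1, 0), (2, 1), (3, 0), (3, 1), (3, 2), (3,
      3), (5, 2)], [(0, 1), (0, 2), (1, 2)], [], [(0, 1, [3]), (1, 0, [2]), (5, 2, [0])]⟩]
  Ta := [((0, 1), 1, 0), ((0, 4), 1, 5), ((0, 5), 1, 2), ((1, 0), 0, 1), ((2, 3), 1, 4), ((2, 8),
    1, 6), ((6, 7), 0, 3), ((6, 9), 0, 7)]
  Tb := [((0, 1, 4), 1, 0, 5), ((0, 1, 5), 1, 0, 2), ((0, 4, 5), 1, 5, 2), ((2, 3, 8), 1, 4, 6),
    ((3, 2, 4), 4, 1, 5), ((4, 0, 3), 5, 1, 4), ((5, 0, 9), 2, 1, 7), ((6, 7, 9), 0, 3, 7),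
    ((7, 6, 8), 3, 0, 6), ((8, 2, 7), 6, 1, 3), ((9, 5, 6), 7, 2, 0)]
  Tc := []
  Td := [((0, 2), (1, 0), 1), ((0, 2), (6, 7), 3), ((0, 2), (6, 9), 7), ((1, 3), (0, 1), 0), ((1,
    3), (0, 4), 5), ((1, 3), (0, 5), 2), ((1, 3), (2, 3), 4), ((1, 3), (2, 8), 6), ((2, 0),
    (5, 0), 1), ((2, 0), (5, 9), 7), ((3, 1), (7, 6), 0), ((3, 1), (7, 8), 6)]
  G := [[0, 0x411411c411411c411411ce28, 0x84c48c52886288c84c9644644c88cd2d44c288c4,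
    0x81244412812c4128812812cdc8, 0x81281815a818192818181d2d8142468], [0, 0,
    0x44c48c88cd248c12446848c44c5ad48644cc2452, 0, 0x818152818152581815281828182dc818284a],
    [0, 0, 0x44a248c84c5a84a1288c88c44cd2d88684cc2458, 0x48c2481c24511c2811c28544c248c2c8d8,
    0x11a4241211a12718a81a5a128298881a9a228218ae18a88a5adc8], [0, 0,
    0x88a424184a84c5244c44c9284a44c84cd2d44c8289c, 0,
    0x18a128811a81ad21212511a18a18adad1282518a81aca121298cc2]]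

noncomputable def n1992 : Ent := ⟨e1992, noF, [], [], [(16, 11, [1580044410770990308032078191911707142368668054796088592099352276993, 0])]⟩

def c1992 : PLift (Cov.check n1992.C.D v1992 = true) := ⟨by decide +kernel⟩

def b1992 : PLift (entF (fidx ts) 400 1992 n1992 = true) := ⟨by decide +kernel⟩

theorem g1992 : GoodF (fidx ts) 400 1992 := GoodF.ofV v1992 n1992 c1992.down b1992.down

/-- 4578644:1669/3 -/
noncomputable def e1993 : SCfg where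
  D := {
    a := 7
    L := 10
    kp := 7
    inn := [(0, 1), (0, 2), (1, 0), (1, 2), (1, 3), (1, 4), (2, 0), (2, 1), (2, 4), (3, 1), (3, 4), (3,
      5), (3, 6), (4, 1), (4, 2), (4, 3), (5, 3), (6, 3)]
    mix := [(0, 0), (0, 1), (1, 1), (2, 0), (2, 2), (2, 3), (2, 4), (3, 1), (3, 5), (3, 6), (3, 7), (4,
      2), (4, 7), (4, 8), (5, 3), (5, 5), (5, 6), (6, 1), (6, 5), (6, 9)]
    cl := [1, 0, 1, 2, 6, 3, 0, 4, 5, 7]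
    chq := [(0, 3), (0, 5), (3, 0), (5, 0)]
    rng := [(0, 1), (0, 4), (1, 0), (1, 9), (2, 3), (2, 8), (3, 2), (3, 4), (3, 5), (3, 6), (4, 0), (4,
      3), (5, 3), (5, 9), (6, 3), (6, 7), (7, 6), (7, 8), (8, 2), (8, 7), (9, 1), (9, 5)]
    lev := [] }
  links := [[1, 2, 7, 8], [2, 0, 8, 3, 4], [7, 0, 1, 4, 9, 10, 11], [4, 1, 8, 6, 12, 5, 13, 14], [9, 2,
    1, 3, 14, 15], [13, 3, 12, 10], [12, 3, 8, 16]]
  P := {
    a := 7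
    N := 17
    nb := [390, 285, 3731, 29042, 49678, 13320, 69896, 2309, 65739, 33812, 14884, 1156, 66664, 17448,
      40984, 16912, 4416]
    tri := [(0, 1, 2), (0, 1, 8), (0, 2, 7), (0, 7, 8), (1, 2, 4), (1, 3, 4), (1, 3, 8), (2, 4, 9), (2,
      7, 11), (2, 9, 10), (2, 10, 11), (3, 4, 14), (3, 5, 12), (3, 5, 13), (3, 6, 8), (3, 6, 12),
      (3, 13, 14), (4, 9, 15), (4, 14, 15), (5, 10, 12), (5, 10, 13), (6, 8, 16), (6, 12, 16)]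
    fin := [0, 0, 0, 3, 3, 3, 3, 0, 3, 0, 10, 11, 12, 3, 14, 15, 16]
    chd := [(3, 12), (3, 15)]
    steps := [(0, 1), (0, 2), (0, 7), (0, 9), (3, 4), (3, 5), (3, 6), (3, 8), (3, 13)] }
  rep := [3, 0, 10, 12, 14, 15, 11, 16]

noncomputable def v1993 : Cov.CovD where
  P := 3
  N := 5
  pl := [3, 4, 7, 9]
  lev := [⟨[], [], [(0, 1)], [], [(0, 1, []), (1, 0, [3, 5])]⟩,
    ⟨[], [(0, 0), (0, 1)], [], [], [(1, 0, [3, 5])]⟩,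
    ⟨[(0, 1)], [(0, 0), (0, 1), (1, 0), (1, 1)], [(1, 1)], [2, 6], [(0, 1, []), (2, 1,
      [])]⟩,
    ⟨[(0, 1), (1, 2)], [(0, 0), (1, 0), (1, 3)], [(0, 0), (0, 3)], [4], [(1, 0, [3, 5]),
      (5, 3, [0]), (6, 0, [3, 5])]⟩,
    ⟨[(0, 1), (0, 2), (1, 2), (1, 3), (2, 3)], [(1, 0), (1, 1), (1, 5), (2, 1), (2, 5), (3,
      0), (3, 1), (3, 3), (3, 5)], [(1, 5)], [4], [(2, 1, []), (8, 5, [0])]⟩,
    ⟨[(1, 3), (3, 4)], [(3, 0), (3, 3)], [(0, 3)], [2], [(5, 3, [0]), (6, 0, [3, 5])]⟩,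
    ⟨[(1, 3), (3, 4), (3, 5)], [(0, 0), (1, 0), (3, 0), (3, 3), (5, 3)], [(0, 3)], [7],
      [(1, 0, [3, 5]), (5, 3, [0])]⟩]
  Ta := [((0, 1), 1, 0), ((0, 4), 1, 6), ((1, 0), 0, 1), ((1, 9), 0, 7), ((2, 3), 1, 2), ((2, 8),
    1, 5), ((6, 3), 0, 2), ((6, 7), 0, 4)]
  Tb := [((0, 1, 4), 1, 0, 6), ((1, 0, 9), 0, 1, 7), ((2, 3, 8), 1, 2, 5), ((3, 2, 4), 2, 1, 6),
    ((3, 2, 5), 2, 1, 3), ((3, 2, 6), 2, 1, 0), ((3, 4, 5), 2, 6, 3), ((3, 4, 6), 2, 6, 0),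
    ((3, 5, 6), 2, 3, 0), ((4, 0, 3), 6, 1, 2), ((5, 3, 9), 3, 2, 7), ((6, 3, 7), 0, 2, 4),
    ((7, 6, 8), 4, 0, 5), ((8, 2, 7), 5, 1, 4), ((9, 1, 5), 7, 0, 3)]
  Tc := [(0, 3, 5)]
  Td := [((0, 3), (1, 0), 1), ((0, 3), (1, 9), 7), ((0, 3), (6, 3), 2), ((0, 3), (6, 7), 4), ((0,
    5), (1, 0), 1), ((0, 5), (1, 9), 7), ((0, 5), (6, 3), 2), ((0, 5), (6, 7), 4), ((3, 0),
    (5, 3), 2), ((3, 0), (5, 9), 7), ((5, 0), (8, 2), 1), ((5, 0), (8, 7), 4)]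
  G := [[0, 0xe11e1164e112e118ce11e11c8e8, 0, 0, 0xe1121111c23d296891c6a1c11428b911e15c968], [0,
    0, 0, 0xa45186916469186916c2891828918ca4, 0x2c31c2316112c351212c23d694a918114a9989c4],
    [0, 0, 0x12121212c181141c181141cca4, 0, 0x1818311a83a3d21e1878187121883ab121212de948],
    [0, 0, 0x14112161161141121ec18188c4, 0x94111c4614949453811811c16cda38111c51c9acc2,
    0xc811ac1ad1212a1ad61183851891a9121252de1118989c2]]

noncomputable def n1993 : Ent := ⟨e1993, noF, [], [], []⟩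

def c1993 : PLift (Cov.check n1993.C.D v1993 = true) := ⟨by decide +kernel⟩

def b1993 : PLift (entF (fidx ts) 400 1993 n1993 = true) := ⟨by decide +kernel⟩

theorem g1993 : GoodF (fidx ts) 400 1993 := GoodF.ofV v1993 n1993 c1993.down b1993.down

/-- 4578644:1669/4 -/
noncomputable def e1994 : SCfg where
  D := {
    a := 7
    L := 10
    kp := 7
    inn := [(0, 1), (0, 2), (1, 0), (1, 2), (1, 3), (1, 4), (2, 0), (2, 1), (2, 4), (3, 1), (3, 4), (3,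
      5), (3, 6), (4, 1), (4, 2), (4, 3), (5, 3), (6, 3)]
    mix := [(0, 0), (0, 1), (1, 1), (2, 0), (2, 2), (2, 3), (2, 4), (3, 1), (3, 5), (3, 6), (3, 7), (4,
      2), (4, 7), (4, 8), (5, 4), (5, 5), (5, 6), (6, 1), (6, 5), (6, 9)]
    cl := [1, 0, 1, 6, 2, 3, 0, 4, 5, 7]
    chq := [(0, 3), (0, 5), (3, 0), (5, 0)]
    rng := [(0, 1), (0, 4), (1, 0), (1, 9), (2, 3), (2, 8), (3, 2), (3, 4), (4, 0), (4, 3), (4, 5), (4,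
      6), (5, 4), (5, 9), (6, 4), (6, 7), (7, 6), (7, 8), (8, 2), (8, 7), (9, 1), (9, 5)]
    lev := [] }
  links := [[1, 2, 7, 8], [2, 0, 8, 3, 4], [7, 0, 1, 4, 9, 10, 11], [4, 1, 8, 6, 12, 5, 13, 14], [9, 2,
    1, 3, 14, 15], [13, 3, 12, 11], [12, 3, 8, 16]]
  P := {
    a := 7
    N := 17
    nb := [390, 285, 3731, 29042, 49678, 14344, 69896, 2309, 65739, 33812, 2564, 13476, 67688, 18472,
      40984, 16912, 4416]
    tri := [(0, 1, 2), (0, 1, 8), (0, 2, 7), (0, 7, 8), (1, 2, 4), (1, 3, 4), (1, 3, 8), (2, 4, 9), (2,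
      7, 11), (2, 9, 10), (2, 10, 11), (3, 4, 14), (3, 5, 12), (3, 5, 13), (3, 6, 8), (3, 6, 12),
      (3, 13, 14), (4, 9, 15), (4, 14, 15), (5, 11, 12), (5, 11, 13), (6, 8, 16), (6, 12, 16)]
    fin := [0, 0, 0, 3, 3, 3, 3, 0, 3, 0, 10, 11, 12, 3, 14, 15, 16]
    chd := [(3, 12), (3, 15)]
    steps := [(0, 1), (0, 2), (0, 7), (0, 9), (3, 4), (3, 5), (3, 6), (3, 8), (3, 13)] }
  rep := [3, 0, 11, 12, 14, 15, 10, 16]

noncomputable def v1994 : Cov.CovD where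
  P := 3
  N := 5
  pl := [3, 4, 7, 9]
  lev := [⟨[], [], [(0, 1)], [], [(0, 1, []), (1, 0, [3, 5])]⟩,
    ⟨[], [(0, 0), (0, 1)], [], [], [(1, 0, [3, 5])]⟩,
    ⟨[(0, 1)], [(0, 0), (0, 1), (1, 0), (1, 1)], [(1, 1)], [2, 6], [(0, 1, []), (2, 1,
      [])]⟩,
    ⟨[(0, 1), (1, 2)], [(0, 0), (1, 0), (1, 3)], [(0, 0), (0, 3)], [4], [(1, 0, [3, 5]),
      (5, 3, [0]), (6, 0, [3, 5])]⟩,
    ⟨[(0, 1), (0, 2), (1, 2), (1, 3), (2, 3)], [(1, 0), (1, 1), (1, 5), (2, 1), (2, 5), (3,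
      0), (3, 1), (3, 3), (3, 5)], [(1, 5)], [4], [(2, 1, []), (8, 5, [0])]⟩,
    ⟨[(1, 3), (3, 4)], [(3, 0), (3, 3)], [(0, 3)], [2], [(5, 3, [0]), (6, 0, [3, 5])]⟩,
    ⟨[(1, 3), (3, 4), (3, 5)], [(0, 0), (1, 0), (3, 0), (3, 3), (5, 3)], [(0, 3)], [7],
      [(1, 0, [3, 5]), (5, 3, [0])]⟩]
  Ta := [((0, 1), 1, 0), ((0, 4), 1, 2), ((1, 0), 0, 1), ((1, 9), 0, 7), ((2, 3), 1, 6), ((2, 8),
    1, 5), ((6, 4), 0, 2), ((6, 7), 0, 4)]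
  Tb := [((0, 1, 4), 1, 0, 2), ((1, 0, 9), 0, 1, 7), ((2, 3, 8), 1, 6, 5), ((3, 2, 4), 6, 1, 2),
    ((4, 0, 3), 2, 1, 6), ((4, 0, 5), 2, 1, 3), ((4, 0, 6), 2, 1, 0), ((4, 3, 5), 2, 6, 3),
    ((4, 3, 6), 2, 6, 0), ((4, 5, 6), 2, 3, 0), ((5, 4, 9), 3, 2, 7), ((6, 4, 7), 0, 2, 4),
    ((7, 6, 8), 4, 0, 5), ((8, 2, 7), 5, 1, 4), ((9, 1, 5), 7, 0, 3)]
  Tc := [(0, 3, 5)]
  Td := [((0, 3), (1, 0), 1), ((0, 3), (1, 9), 7), ((0, 3), (6, 4), 2), ((0, 3), (6, 7), 4), ((0,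
    5), (1, 0), 1), ((0, 5), (1, 9), 7), ((0, 5), (6, 4), 2), ((0, 5), (6, 7), 4), ((3, 0),
    (5, 4), 2), ((3, 0), (5, 9), 7), ((5, 0), (8, 2), 1), ((5, 0), (8, 7), 4)]
  G := [[0, 0xe11e1164e112e118ce11e11c8e8, 0, 0xa451e116421128689161184c1e68918ce8,
    0xc6a1e11611869512114a3d6911c1a2b81428b188e4], [0, 0, 0, 0,
    0x116c35e11616891e11a86c3141168991111ca9e8], [0, 0, 0x14112161212c1818181141cca4,
    0x1494319c163424518281828c181b4195c1e3818ce8, 0x183831293a3921e11389111892b121252de948],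
    [0, 0, 0x14112161411216c18181818ca4, 0,
    0x13a18541187851893a9121212de1158913a81212d2de9c2]]

noncomputable def n1994 : Ent := ⟨e1994, noF, [], [], [(7, 16, [1580044410770988437309982408355971841652082177953823432505697267713, 0])]⟩

def c1994 : PLift (Cov.check n1994.C.D v1994 = true) := ⟨by decide +kernel⟩

def b1994 : PLift (entF (fidx ts) 400 1994 n1994 = true) := ⟨by decide +kernel⟩

theorem g1994 : GoodF (fidx ts) 400 1994 := GoodF.ofV v1994 n1994 c1994.down b1994.down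

/-- 4578644:1669 -/
noncomputable def e1995 : SCfg where
  D := {
    a := 7
    L := 11
    kp := 8
    inn := [(0, 1), (0, 2), (1, 0), (1, 2), (1, 3), (1, 4), (2, 0), (2, 1), (2, 4), (3, 1), (3, 4), (3,
      5), (3, 6), (4, 1), (4, 2), (4, 3), (5, 3), (6, 3)]
    mix := [(0, 0), (0, 1), (1, 1), (2, 0), (2, 2), (2, 3), (2, 4), (3, 1), (3, 5), (3, 6), (3, 7), (4,
      2), (4, 7), (4, 8), (5, 5), (5, 6), (5, 9), (6, 1), (6, 5), (6, 10)]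
    cl := [1, 0, 1, 5, 6, 3, 0, 2, 4, 7, 8]
    chq := [(0, 3), (0, 4), (3, 0), (4, 0)]
    rng := [(0, 1), (0, 4), (1, 0), (1, 10), (2, 3), (2, 8), (3, 2), (3, 4), (4, 0), (4, 3), (5, 9),
      (5, 10), (6, 7), (6, 9), (7, 6), (7, 8), (8, 2), (8, 7), (9, 5), (9, 6), (10, 1), (10, 5)]
    lev := [] }
  links := [[1, 2, 7, 8], [2, 0, 8, 3, 4], [7, 0, 1, 4, 9, 10, 11], [4, 1, 8, 6, 12, 5, 13, 14], [9, 2,
    1, 3, 14, 15], [13, 3, 12, 16], [12, 3, 8, 17]]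
  P := {
    a := 7
    N := 18
    nb := [390, 285, 3731, 29042, 49678, 77832, 135432, 2309, 131275, 33812, 2564, 1156, 196712,
      81960, 40984, 16912, 12320, 4416]
    tri := [(0, 1, 2), (0, 1, 8), (0, 2, 7), (0, 7, 8), (1, 2, 4), (1, 3, 4), (1, 3, 8), (2, 4, 9), (2,
      7, 11), (2, 9, 10), (2, 10, 11), (3, 4, 14), (3, 5, 12), (3, 5, 13), (3, 6, 8), (3, 6, 12),
      (3, 13, 14), (4, 9, 15), (4, 14, 15), (5, 12, 16), (5, 13, 16), (6, 8, 17), (6, 12, 17)]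
    fin := [0, 0, 0, 3, 3, 3, 3, 0, 3, 0, 10, 11, 12, 3, 14, 15, 16, 17]
    chd := [(3, 12), (3, 15)]
    steps := [(0, 1), (0, 2), (0, 7), (0, 9), (3, 4), (3, 5), (3, 6), (3, 8), (3, 13)] }
  rep := [3, 0, 14, 12, 15, 10, 11, 16, 17]

noncomputable def v1995 : Cov.CovD where
  P := 3
  N := 6
  pl := [3, 4, 7, 9, 10]
  lev := [⟨[], [], [(0, 1)], [], [(0, 1, []), (1, 0, [3, 4])]⟩,
    ⟨[], [(0, 0), (0, 1)], [], [], [(1, 0, [3, 4])]⟩,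
    ⟨[(0, 1)], [(0, 0), (0, 1), (1, 0), (1, 1)], [(1, 1)], [5, 6], [(0, 1, []), (2, 1,
      [])]⟩,
    ⟨[(0, 1), (1, 2)], [(0, 0), (1, 0), (1, 3)], [(0, 0), (0, 3)], [2], [(1, 0, [3, 4]),
      (5, 3, [0]), (6, 0, [3, 4])]⟩,
    ⟨[(0, 1), (0, 2), (1, 2), (1, 3), (2, 3)], [(1, 0), (1, 1), (1, 4), (2, 1), (2, 4), (3,
      0), (3, 1), (3, 3), (3, 4)], [(1, 4)], [2], [(2, 1, []), (8, 4, [0])]⟩,
    ⟨[(1, 3), (3, 4)], [(3, 0), (3, 3)], [(0, 3)], [7], [(5, 3, [0]), (6, 0, [3, 4])]⟩,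
    ⟨[(1, 3), (3, 4), (3, 5)], [(0, 0), (1, 0), (3, 0), (3, 3), (5, 3)], [(0, 3)], [8],
      [(1, 0, [3, 4]), (5, 3, [0])]⟩]
  Ta := [((0, 1), 1, 0), ((0, 4), 1, 6), ((1, 0), 0, 1), ((1, 10), 0, 8), ((2, 3), 1, 5), ((2,
    8), 1, 4), ((6, 7), 0, 2), ((6, 9), 0, 7)]
  Tb := [((0, 1, 4), 1, 0, 6), ((1, 0, 10), 0, 1, 8), ((2, 3, 8), 1, 5, 4), ((3, 2, 4), 5, 1, 6),
    ((4, 0, 3), 6, 1, 5), ((5, 9, 10), 3, 7, 8), ((6, 7, 9), 0, 2, 7), ((7, 6, 8), 2, 0, 4),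
    ((8, 2, 7), 4, 1, 2), ((9, 5, 6), 7, 3, 0), ((10, 1, 5), 8, 0, 3)]
  Tc := [(0, 3, 4)]
  Td := [((0, 3), (1, 0), 1), ((0, 3), (1, 10), 8), ((0, 3), (6, 7), 2), ((0, 3), (6, 9), 7),
    ((0, 4), (1, 0), 1), ((0, 4), (1, 10), 8), ((0, 4), (6, 7), 2), ((0, 4), (6, 9), 7), ((3,
    0), (5, 9), 7), ((3, 0), (5, 10), 8), ((4, 0), (8, 2), 1), ((4, 0), (8, 7), 2)]
  G := [[0, 0xa11611ca11611ca11611ce24, 0, 0xa11a6471c6a91a651c11a1511a6479cd28,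
    0x24c718691a42cd18631a6c92116659ad48], [0, 0, 0, 0x628b18651ca11a6471c112a8b5118699cd24,
    0x6c916651a6c8d1611a112c396164279ad42], [0, 0, 0x1162411624511a2811a2811a28dc1162488c,
    0x11a1b661c11a1b661c1151a9113665cd28, 0x6961245cc21961a5cc281cc21161d69adc8], [0, 0,
    0x11c484211a82811c411c8c11c411c81814ce961164211c811a116c61212c2d8e,
    0x1aa1b161c51a19661c1111a511496e9cd24, 0x1cc11d61a31c16561a113cc9111969ad48]]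

noncomputable def n1995 : Ent := ⟨e1995, noF, [], [], [(7, 17, [6903326391201334775872065844685381424292761054348340378595029937848321, 0]), (16, 10, [7334685537875745012587286149191694603665281746921258144425058676543489, 0]), (16, 11, [7334685537875745014457460181861251250371671950985831803452281356853249, 0])]⟩

def c1995 : PLift (Cov.check n1995.C.D v1995 = true) := ⟨by decide +kernel⟩

def b1995 : PLift (entF (fidx ts) 400 1995 n1995 = true) := ⟨by decide +kernel⟩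

theorem g1995 : GoodF (fidx ts) 400 1995 := GoodF.ofV v1995 n1995 c1995.down b1995.down

/-- 4687444:1679/1 -/
noncomputable def e1996 : SCfg where
  D := {
    a := 7
    L := 9
    kp := 6
    inn := [(0, 1), (0, 2), (0, 3), (1, 0), (1, 3), (2, 0), (2, 3), (2, 4), (2, 5), (3, 0), (3, 1), (3,
      2), (3, 5), (3, 6), (4, 2), (5, 2), (5, 3), (6, 3)]
    mix := [(0, 0), (1, 0), (1, 1), (1, 2), (1, 3), (2, 0), (2, 4), (2, 5), (2, 6), (3, 1), (3, 7), (4,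
      5), (4, 6), (4, 8), (5, 6), (5, 7), (6, 1), (6, 7), (6, 8)]
    cl := [0, 0, 5, 6, 1, 2, 1, 3, 4]
    chq := [(0, 3), (3, 0)]
    rng := [(0, 3), (0, 4), (1, 2), (1, 8), (2, 1), (2, 3), (3, 0), (3, 2), (4, 0), (4, 5), (5, 4), (5,
      8), (6, 7), (6, 8), (7, 6), (7, 8), (8, 1), (8, 5), (8, 6), (8, 7)]
    lev := [] }
  links := [[1, 7, 2, 3], [7, 0, 3, 8, 9, 10], [3, 0, 7, 11, 12, 4, 13, 5], [8, 1, 0, 2, 5, 14, 6], [13,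
    2, 12, 15], [14, 3, 2, 13], [8, 3, 14, 15]]
  P := {
    a := 7
    N := 16
    nb := [142, 1929, 14521, 16743, 45060, 24588, 49416, 3079, 33354, 1282, 642, 4228, 34836, 49204,
      41064, 29008]
    tri := [(0, 1, 3), (0, 1, 7), (0, 2, 3), (0, 2, 7), (1, 3, 8), (1, 7, 10), (1, 8, 9), (1, 9, 10),
      (2, 3, 5), (2, 4, 12), (2, 4, 13), (2, 5, 13), (2, 7, 11), (2, 11, 12), (3, 5, 14), (3, 6,
      8), (3, 6, 14), (4, 12, 15), (4, 13, 15), (5, 13, 14), (6, 8, 15), (6, 14, 15)]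
    fin := [0, 0, 2, 0, 2, 0, 0, 0, 0, 9, 10, 2, 12, 2, 14, 15]
    chd := [(0, 14)]
    steps := [(0, 1), (0, 3), (0, 5), (0, 6), (0, 7), (0, 8), (2, 4), (2, 11), (2, 13)] }
  rep := [0, 2, 12, 14, 15, 9, 10]

noncomputable def v1996 : Cov.CovD where
  P := 3
  N := 4
  pl := [2, 3, 5, 8]
  lev := [⟨[], [], [], [], [(0, 0, [3])]⟩,
    ⟨[], [(0, 0)], [(0, 0)], [5, 6], [(0, 0, [3]), (1, 0, [3])]⟩,
    ⟨[(0, 1)], [(0, 0), (0, 1), (1, 0)], [(0, 1), (1, 1)], [2], [(0, 0, [3]), (4, 1, []),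
      (6, 1, [])]⟩,
    ⟨[(0, 1), (0, 2), (1, 2)], [(0, 0), (0, 3), (1, 0), (1, 3), (2, 0), (2, 1), (2, 3)],
      [(0, 3)], [], [(1, 0, [3]), (7, 3, [0])]⟩,
    ⟨[(0, 2), (2, 3)], [(2, 0), (2, 1)], [], [2, 4], [(6, 1, [])]⟩,
    ⟨[(0, 2), (0, 3), (1, 3), (2, 3), (2, 4)], [(2, 0), (2, 1), (2, 3), (3, 0), (3, 1), (3,
      3), (4, 1)], [(1, 3)], [], [(6, 1, []), (7, 3, [0])]⟩,
    ⟨[(0, 3), (1, 3), (2, 3), (3, 5)], [(1, 0), (3, 0), (3, 3), (5, 3)], [(0, 3)], [4],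
      [(1, 0, [3]), (7, 3, [0])]⟩]
  Ta := [((0, 3), 0, 6), ((0, 4), 0, 1), ((1, 2), 0, 5), ((1, 8), 0, 4), ((4, 0), 1, 0), ((4, 5),
    1, 2), ((6, 7), 1, 3), ((6, 8), 1, 4)]
  Tb := [((0, 3, 4), 0, 6, 1), ((1, 2, 8), 0, 5, 4), ((2, 1, 3), 5, 0, 6), ((3, 0, 2), 6, 0, 5),
    ((4, 0, 5), 1, 0, 2), ((5, 4, 8), 2, 1, 4), ((6, 7, 8), 1, 3, 4), ((7, 6, 8), 3, 1, 4),
    ((8, 1, 5), 4, 0, 2), ((8, 1, 6), 4, 0, 1), ((8, 1, 7), 4, 0, 3), ((8, 5, 6), 4, 2, 1),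
    ((8, 5, 7), 4, 2, 3), ((8, 6, 7), 4, 1, 3)]
  Tc := []
  Td := [((0, 3), (0, 3), 6), ((0, 3), (0, 4), 1), ((0, 3), (1, 2), 5), ((0, 3), (1, 8), 4), ((3,
    0), (7, 6), 1), ((3, 0), (7, 8), 4)]
  G := [[0, 0x14118168181141a4121141c8e2, 0x2122821228d1228e4, 0x2112421124d1124e8,
    0x2122821228112212c8e4], [0, 0, 0x8141c1118c682444c18121c8c9141c41818c8ce2, 0,
    0x18171168111641a8b1111168e4], [0, 0, 0x2122421228212212c8e4,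
    0x2121c2821215282122522219c8e4, 0x2122821228212212c8e4], [0, 0,
    0x8441ca121c688141c6121ca42141c48121c8ce1, 0,
    0xa44198186841e1948a28128441818a1619e8211818a8e3]]

noncomputable def n1996 : Ent := ⟨e1996, noF, [], [], []⟩

def c1996 : PLift (Cov.check n1996.C.D v1996 = true) := ⟨by decide +kernel⟩

def b1996 : PLift (entF (fidx ts) 400 1996 n1996 = true) := ⟨by decide +kernel⟩

theorem g1996 : GoodF (fidx ts) 400 1996 := GoodF.ofV v1996 n1996 c1996.down b1996.down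

/-- 4687444:1679/2 -/
noncomputable def e1997 : SCfg where
  D := {
    a := 7
    L := 9
    kp := 6
    inn := [(0, 1), (0, 2), (0, 3), (1, 0), (1, 3), (2, 0), (2, 3), (2, 4), (2, 5), (3, 0), (3, 1), (3,
      2), (3, 5), (3, 6), (4, 2), (5, 2), (5, 3), (6, 3)]
    mix := [(0, 0), (1, 0), (1, 1), (1, 2), (1, 3), (2, 0), (2, 4), (2, 5), (2, 6), (3, 1), (3, 7), (4,
      2), (4, 5), (4, 6), (5, 6), (5, 7), (6, 1), (6, 7), (6, 8)]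
    cl := [0, 0, 2, 5, 1, 4, 1, 3, 6]
    chq := [(0, 3), (3, 0)]
    rng := [(0, 3), (0, 4), (1, 2), (1, 8), (2, 1), (2, 3), (2, 5), (2, 6), (3, 0), (3, 2), (4, 0), (4,
      5), (5, 2), (5, 4), (6, 2), (6, 7), (7, 6), (7, 8), (8, 1), (8, 7)]
    lev := [] }
  links := [[1, 7, 2, 3], [7, 0, 3, 8, 9, 10], [3, 0, 7, 11, 12, 4, 13, 5], [8, 1, 0, 2, 5, 14, 6], [13,
    2, 12, 9], [14, 3, 2, 13], [8, 3, 14, 15]]
  P := {
    a := 7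
    N := 16
    nb := [142, 1929, 14521, 16743, 12804, 24588, 49416, 3079, 33354, 13586, 642, 4228, 2580, 16948,
      41064, 16704]
    tri := [(0, 1, 3), (0, 1, 7), (0, 2, 3), (0, 2, 7), (1, 3, 8), (1, 7, 10), (1, 8, 9), (1, 9, 10),
      (2, 3, 5), (2, 4, 12), (2, 4, 13), (2, 5, 13), (2, 7, 11), (2, 11, 12), (3, 5, 14), (3, 6,
      8), (3, 6, 14), (4, 9, 12), (4, 9, 13), (5, 13, 14), (6, 8, 15), (6, 14, 15)]
    fin := [0, 0, 2, 0, 2, 0, 0, 0, 0, 9, 10, 2, 12, 2, 14, 15]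
    chd := [(0, 14)]
    steps := [(0, 1), (0, 3), (0, 5), (0, 6), (0, 7), (0, 8), (2, 4), (2, 11), (2, 13)] }
  rep := [0, 2, 9, 14, 12, 10, 15]

noncomputable def v1997 : Cov.CovD where
  P := 3
  N := 4
  pl := [2, 3, 5, 8]
  lev := [⟨[], [], [], [], [(0, 0, [3])]⟩,
    ⟨[], [(0, 0)], [(0, 0)], [2, 5], [(0, 0, [3]), (1, 0, [3])]⟩,
    ⟨[(0, 1)], [(0, 0), (0, 1), (1, 0)], [(0, 1), (1, 1)], [4], [(0, 0, [3]), (4, 1, []),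
      (6, 1, [])]⟩,
    ⟨[(0, 1), (0, 2), (1, 2)], [(0, 0), (0, 3), (1, 0), (1, 3), (2, 0), (2, 1), (2, 3)],
      [(0, 3)], [], [(1, 0, [3]), (7, 3, [0])]⟩,
    ⟨[(0, 2), (2, 3)], [(2, 0), (2, 1)], [], [2, 4], [(6, 1, [])]⟩,
    ⟨[(0, 2), (0, 3), (1, 3), (2, 3), (2, 4)], [(2, 0), (2, 1), (2, 3), (3, 0), (3, 1), (3,
      3), (4, 1)], [(1, 3)], [], [(6, 1, []), (7, 3, [0])]⟩,
    ⟨[(0, 3), (1, 3), (2, 3), (3, 5)], [(1, 0), (3, 0), (3, 3), (5, 3)], [(0, 3)], [6],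
      [(1, 0, [3]), (7, 3, [0])]⟩]
  Ta := [((0, 3), 0, 5), ((0, 4), 0, 1), ((1, 2), 0, 2), ((1, 8), 0, 6), ((4, 0), 1, 0), ((4, 5),
    1, 4), ((6, 2), 1, 2), ((6, 7), 1, 3)]
  Tb := [((0, 3, 4), 0, 5, 1), ((1, 2, 8), 0, 2, 6), ((2, 1, 3), 2, 0, 5), ((2, 1, 5), 2, 0, 4),
    ((2, 1, 6), 2, 0, 1), ((2, 3, 5), 2, 5, 4), ((2, 3, 6), 2, 5, 1), ((2, 5, 6), 2, 4, 1),
    ((3, 0, 2), 5, 0, 2), ((4, 0, 5), 1, 0, 4), ((5, 2, 4), 4, 2, 1), ((6, 2, 7), 1, 2, 3),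
    ((7, 6, 8), 3, 1, 6), ((8, 1, 7), 6, 0, 3)]
  Tc := []
  Td := [((0, 3), (0, 3), 5), ((0, 3), (0, 4), 1), ((0, 3), (1, 2), 2), ((0, 3), (1, 8), 6), ((3,
    0), (7, 6), 1), ((3, 0), (7, 8), 6)]
  G := [[0, 0xe81111421414e118411421818ec2, 0, 0, 0x7182b112cd182d122ca4], [0, 0, 0,
    0xd182d142cd182d142cc2, 0x118a186511911ac118d186c11111aca4], [0, 0,
    0xe182e142ce182e142cc1, 0, 0xe182e122c221618882e2822124851eca1], [0, 0,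
    0xc18a1862142ca182c14614acc184c14414ace1, 0xe112e142ce112e142cc1,
    0x818a186411e11ac841848814c211e18818e28e19211441eca5]]

noncomputable def n1997 : Ent := ⟨e1997, noF, [], [], []⟩

def c1997 : PLift (Cov.check n1997.C.D v1997 = true) := ⟨by decide +kernel⟩

def b1997 : PLift (entF (fidx ts) 400 1997 n1997 = true) := ⟨by decide +kernel⟩

theorem g1997 : GoodF (fidx ts) 400 1997 := GoodF.ofV v1997 n1997 c1997.down b1997.down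

/-- 4687444:1679 -/
noncomputable def e1998 : SCfg where
  D := {
    a := 7
    L := 10
    kp := 7
    inn := [(0, 1), (0, 2), (0, 3), (1, 0), (1, 3), (2, 0), (2, 3), (2, 4), (2, 5), (3, 0), (3, 1), (3,
      2), (3, 5), (3, 6), (4, 2), (5, 2), (5, 3), (6, 3)]
    mix := [(0, 0), (1, 0), (1, 1), (1, 2), (1, 3), (2, 0), (2, 4), (2, 5), (2, 6), (3, 1), (3, 7), (4,
      5), (4, 6), (4, 8), (5, 6), (5, 7), (6, 1), (6, 7), (6, 9)]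
    cl := [0, 0, 4, 5, 1, 2, 1, 3, 6, 7]
    chq := [(0, 3), (3, 0)]
    rng := [(0, 3), (0, 4), (1, 2), (1, 9), (2, 1), (2, 3), (3, 0), (3, 2), (4, 0), (4, 5), (5, 4), (5,
      8), (6, 7), (6, 8), (7, 6), (7, 9), (8, 5), (8, 6), (9, 1), (9, 7)]
    lev := [] }
  links := [[1, 7, 2, 3], [7, 0, 3, 8, 9, 10], [3, 0, 7, 11, 12, 4, 13, 5], [8, 1, 0, 2, 5, 14, 6], [13,
    2, 12, 15], [14, 3, 2, 13], [8, 3, 14, 16]]
  P := {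
    a := 7
    N := 17
    nb := [142, 1929, 14521, 16743, 45060, 24588, 82184, 3079, 66122, 1282, 642, 4228, 34836, 49204,
      73832, 12304, 16704]
    tri := [(0, 1, 3), (0, 1, 7), (0, 2, 3), (0, 2, 7), (1, 3, 8), (1, 7, 10), (1, 8, 9), (1, 9, 10),
      (2, 3, 5), (2, 4, 12), (2, 4, 13), (2, 5, 13), (2, 7, 11), (2, 11, 12), (3, 5, 14), (3, 6,
      8), (3, 6, 14), (4, 12, 15), (4, 13, 15), (5, 13, 14), (6, 8, 16), (6, 14, 16)]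
    fin := [0, 0, 2, 0, 2, 0, 0, 0, 0, 9, 10, 2, 12, 2, 14, 15, 16]
    chd := [(0, 14)]
    steps := [(0, 1), (0, 3), (0, 5), (0, 6), (0, 7), (0, 8), (2, 4), (2, 11), (2, 13)] }
  rep := [0, 2, 12, 14, 9, 10, 15, 16]

noncomputable def v1998 : Cov.CovD where
  P := 3
  N := 5
  pl := [2, 3, 5, 8, 9]
  lev := [⟨[], [], [], [], [(0, 0, [3])]⟩,
    ⟨[], [(0, 0)], [(0, 0)], [4, 5], [(0, 0, [3]), (1, 0, [3])]⟩,
    ⟨[(0, 1)], [(0, 0), (0, 1), (1, 0)], [(0, 1), (1, 1)], [2], [(0, 0, [3]), (4, 1, []),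
      (6, 1, [])]⟩,
    ⟨[(0, 1), (0, 2), (1, 2)], [(0, 0), (0, 3), (1, 0), (1, 3), (2, 0), (2, 1), (2, 3)],
      [(0, 3)], [], [(1, 0, [3]), (7, 3, [0])]⟩,
    ⟨[(0, 2), (2, 3)], [(2, 0), (2, 1)], [], [2, 6], [(6, 1, [])]⟩,
    ⟨[(0, 2), (0, 3), (1, 3), (2, 3), (2, 4)], [(2, 0), (2, 1), (2, 3), (3, 0), (3, 1), (3,
      3), (4, 1)], [(1, 3)], [], [(6, 1, []), (7, 3, [0])]⟩,
    ⟨[(0, 3), (1, 3), (2, 3), (3, 5)], [(1, 0), (3, 0), (3, 3), (5, 3)], [(0, 3)], [7],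
      [(1, 0, [3]), (7, 3, [0])]⟩]
  Ta := [((0, 3), 0, 5), ((0, 4), 0, 1), ((1, 2), 0, 4), ((1, 9), 0, 7), ((4, 0), 1, 0), ((4, 5),
    1, 2), ((6, 7), 1, 3), ((6, 8), 1, 6)]
  Tb := [((0, 3, 4), 0, 5, 1), ((1, 2, 9), 0, 4, 7), ((2, 1, 3), 4, 0, 5), ((3, 0, 2), 5, 0, 4),
    ((4, 0, 5), 1, 0, 2), ((5, 4, 8), 2, 1, 6), ((6, 7, 8), 1, 3, 6), ((7, 6, 9), 3, 1, 7),
    ((8, 5, 6), 6, 2, 1), ((9, 1, 7), 7, 0, 3)]
  Tc := []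
  Td := [((0, 3), (0, 3), 5), ((0, 3), (0, 4), 1), ((0, 3), (1, 2), 4), ((0, 3), (1, 9), 7), ((3,
    0), (7, 6), 1), ((3, 0), (7, 9), 7)]
  G := [[0, 0x14118168181141a4181121c4e2, 0x71224b1224d1228e8, 0xe171924e171c24d1d1c24e8,
    0xb1228d12286712288c], [0, 0, 0x91c1c5111c6811b1cd111c685114c438a1c8ce2, 0,
    0x11119d1a1968111a1d19c48b8313199151968e4], [0, 0, 0xe1224e1228212212c12e4e8,
    0xe1869924e1e1c282121521245c1c19e8e1, 0xe1228e1228212612882e8e1], [0, 0,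
    0xc1e1ca1a8c68489c1c6161ca461245c4a1a1c8ce1, 0,
    0xc488128c8816c1c89a1e1968441811e1e19e8211245a45981819e8e5]]

noncomputable def n1998 : Ent := ⟨e1998, noF, [], [], [(15, 16, [1580044410770988437309982408355971841652082177953823432505697288193, 0]), (15, 9, [1685356702439545624008034240510833457709826487664008433929044152321, 0])]⟩

def c1998 : PLift (Cov.check n1998.C.D v1998 = true) := ⟨by decide +kernel⟩

def b1998 : PLift (entF (fidx ts) 400 1998 n1998 = true) := ⟨by decide +kernel⟩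

theorem g1998 : GoodF (fidx ts) 400 1998 := GoodF.ofV v1998 n1998 c1998.down b1998.down

/-- 4684458:1686/1 -/
noncomputable def e1999 : SCfg where
  D := {
    a := 7
    L := 10
    kp := 8
    inn := [(0, 1), (0, 2), (0, 6), (1, 0), (1, 3), (1, 6), (2, 0), (2, 4), (2, 5), (2, 6), (3, 1), (3,
      6), (4, 2), (5, 2), (5, 6), (6, 0), (6, 1), (6, 2), (6, 3), (6, 5)]
    mix := [(0, 0), (1, 0), (1, 1), (1, 2), (2, 0), (2, 3), (2, 4), (2, 5), (3, 1), (3, 6), (4, 0), (4,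
      2), (4, 3), (5, 5), (5, 7), (5, 8), (6, 6), (6, 8), (6, 9)]
    cl := [0, 5, 1, 6, 0, 2, 3, 8, 4, 7]
    chq := [(1, 2), (1, 3), (2, 1), (2, 3), (2, 4), (2, 7), (3, 1), (3, 2), (4, 2), (7, 2)]
    rng := [(0, 2), (1, 2), (1, 6), (2, 0), (2, 1), (2, 3), (3, 2), (3, 4), (4, 3), (4, 5), (5, 4), (5,
      7), (6, 1), (6, 9), (7, 5), (7, 8), (8, 7), (8, 9), (9, 6), (9, 8)]
    lev := [] }
  links := [[1, 7, 2, 6], [7, 0, 6, 3, 8, 9], [6, 0, 7, 4, 10, 11, 12, 5], [8, 1, 6, 13], [10, 2, 7, 9],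
    [6, 2, 12, 14, 15], [13, 3, 1, 0, 2, 5, 15, 16]]
  P := {
    a := 7
    N := 17
    nb := [198, 969, 7409, 8514, 1668, 53316, 106543, 535, 8714, 1426, 2580, 5124, 18468, 65864,
      36896, 82016, 41024]
    tri := [(0, 1, 6), (0, 1, 7), (0, 2, 6), (0, 2, 7), (1, 3, 6), (1, 3, 8), (1, 7, 9), (1, 8, 9), (2,
      4, 7), (2, 4, 10), (2, 5, 6), (2, 5, 12), (2, 10, 11), (2, 11, 12), (3, 6, 13), (3, 8, 13),
      (4, 7, 9), (4, 9, 10), (5, 6, 15), (5, 12, 14), (5, 14, 15), (6, 13, 16), (6, 15, 16)]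
    fin := [0, 1, 0, 1, 0, 5, 5, 0, 8, 1, 10, 0, 5, 13, 14, 15, 16]
    chd := [(1, 5), (1, 13), (5, 13), (5, 15), (5, 16)]
    steps := [(0, 2), (0, 4), (0, 7), (0, 11), (1, 3), (1, 9), (5, 6), (5, 12)] }
  rep := [0, 1, 5, 13, 15, 8, 10, 16, 14]

noncomputable def v1999 : Cov.CovD where
  P := 3
  N := 6
  pl := [1, 3, 7]
  lev := [⟨[], [], [], [], [(0, 0, [])]⟩,
    ⟨[], [(0, 0), (0, 1)], [(0, 1)], [5], [(0, 0, []), (2, 1, [2, 3])]⟩,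
    ⟨[(0, 1)], [(0, 0), (0, 2), (1, 0)], [(0, 0), (0, 2)], [6], [(0, 0, []), (4, 0, []),
      (5, 2, [1, 3, 4, 7])]⟩,
    ⟨[(0, 1)], [(1, 0), (1, 1), (1, 3)], [], [5], [(6, 3, [1, 2])]⟩,
    ⟨[(0, 2)], [(0, 0), (1, 0), (1, 1), (2, 0), (2, 1), (2, 2)], [(0, 1)], [6], [(0, 0,
      []), (2, 1, [2, 3])]⟩,
    ⟨[(0, 2), (2, 4)], [(2, 0), (2, 2), (2, 4)], [(2, 4)], [8], [(5, 2, [1, 3, 4, 7]), (8,
      4, [2])]⟩,
    ⟨[(0, 1), (0, 2), (0, 3), (0, 5), (1, 2), (1, 3), (1, 5), (2, 3), (2, 4), (2, 5), (3,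
      5)], [(0, 0), (0, 3), (0, 4), (0, 7), (1, 0), (1, 1), (1, 3), (1, 4), (1, 7), (2, 0),
      (2, 2), (2, 3), (2, 4), (2, 7), (3, 3), (3, 4), (3, 7), (5, 2), (5, 3), (5, 4), (5,
      7)], [(3, 4), (3, 7), (4, 7)], [], [(6, 3, [1, 2]), (8, 4, [2]), (9, 7, [2])]⟩]
  Ta := [((0, 2), 0, 1), ((4, 3), 0, 6), ((4, 5), 0, 2)]
  Tb := [((1, 2, 6), 5, 1, 3), ((2, 0, 1), 1, 0, 5), ((2, 0, 3), 1, 0, 6), ((2, 1, 3), 1, 5, 6),
    ((3, 2, 4), 6, 1, 0), ((4, 3, 5), 0, 6, 2), ((5, 4, 7), 2, 0, 8), ((6, 1, 9), 3, 5, 7),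
    ((7, 5, 8), 8, 2, 4), ((8, 7, 9), 4, 8, 7), ((9, 6, 8), 7, 3, 4)]
  Tc := [(1, 2, 3), (2, 1, 3), (2, 1, 4), (2, 1, 7), (2, 3, 4), (2, 3, 7), (2, 4, 7), (3, 1, 2)]
  Td := [((1, 2), (2, 0), 0), ((1, 2), (2, 1), 5), ((1, 2), (2, 3), 6), ((1, 3), (2, 0), 0), ((1,
    3), (2, 1), 5), ((1, 3), (2, 3), 6), ((2, 1), (5, 4), 0), ((2, 1), (5, 7), 8), ((2, 3),
    (5, 4), 0), ((2, 3), (5, 7), 8), ((2, 4), (5, 4), 0), ((2, 4), (5, 7), 8), ((2, 7), (5,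
    4), 0), ((2, 7), (5, 7), 8), ((3, 1), (6, 1), 5), ((3, 1), (6, 9), 7), ((3, 2), (6, 1),
    5), ((3, 2), (6, 9), 7), ((4, 2), (8, 7), 8), ((4, 2), (8, 9), 7), ((7, 2), (9, 6), 3),
    ((7, 2), (9, 8), 4)]
  G := [[0, 0x2292461422924614c22528a1822528a18cc, 0, 0x222d224222d224c222d228222d228cc,
    0x424449444bc3242428222dc424244f2c335288bc2844284148c428b449449c8a54348cc2c88dd9ddc2ace],
    [0, 0, 0x111e12111e116111e11111e126c8, 0x229246241222d228222d22222d22cc9,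
    0x48444bc221444b1481a844348c28944382444b4444b4444b444bcba8b]]

noncomputable def n1999 : Ent := ⟨e1999, noF, [], [], []⟩

def c1999 : PLift (Cov.check n1999.C.D v1999 = true) := ⟨by decide +kernel⟩

def b1999 : PLift (entF (fidx ts) 400 1999 n1999 = true) := ⟨by decide +kernel⟩

theorem g1999 : GoodF (fidx ts) 400 1999 := GoodF.ofV v1999 n1999 c1999.down b1999.down

/-- 4684458:1686 -/
noncomputable def e2000 : SCfg where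
  D := {
    a := 7
    L := 11
    kp := 9
    inn := [(0, 1), (0, 2), (0, 6), (1, 0), (1, 3), (1, 6), (2, 0), (2, 4), (2, 5), (2, 6), (3, 1), (3,
      6), (4, 2), (5, 2), (5, 6), (6, 0), (6, 1), (6, 2), (6, 3), (6, 5)]
    mix := [(0, 0), (1, 0), (1, 1), (1, 2), (2, 0), (2, 3), (2, 4), (2, 5), (3, 1), (3, 6), (4, 0), (4,
      3), (4, 7), (5, 5), (5, 8), (5, 9), (6, 6), (6, 9), (6, 10)]
    cl := [0, 1, 5, 2, 6, 0, 3, 7, 9, 4, 8]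
    chq := [(0, 3), (0, 4), (0, 8), (3, 0), (3, 5), (4, 0), (5, 3), (6, 7), (7, 6), (8, 0)]
    rng := [(0, 2), (0, 7), (1, 2), (1, 6), (2, 0), (2, 1), (3, 4), (3, 7), (4, 3), (4, 5), (5, 4), (5,
      8), (6, 1), (6, 10), (7, 0), (7, 3), (8, 5), (8, 9), (9, 8), (9, 10), (10, 6), (10, 9)]
    lev := [] }
  links := [[1, 7, 2, 6], [7, 0, 6, 3, 8, 9], [6, 0, 7, 4, 10, 11, 12, 5], [8, 1, 6, 13], [10, 2, 7, 14],
    [6, 2, 12, 15, 16], [13, 3, 1, 0, 2, 5, 16, 17]]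
  P := {
    a := 7
    N := 18
    nb := [198, 969, 7409, 8514, 17540, 102468, 204847, 16919, 8714, 386, 18452, 5124, 34852, 131400,
      1168, 69664, 163936, 73792]
    tri := [(0, 1, 6), (0, 1, 7), (0, 2, 6), (0, 2, 7), (1, 3, 6), (1, 3, 8), (1, 7, 9), (1, 8, 9), (2,
      4, 7), (2, 4, 10), (2, 5, 6), (2, 5, 12), (2, 10, 11), (2, 11, 12), (3, 6, 13), (3, 8, 13),
      (4, 7, 14), (4, 10, 14), (5, 6, 16), (5, 12, 15), (5, 15, 16), (6, 13, 17), (6, 16, 17)]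
    fin := [0, 1, 2, 1, 2, 0, 0, 0, 8, 9, 10, 11, 0, 1, 2, 15, 16, 17]
    chd := [(0, 1), (0, 16), (0, 17), (9, 1), (11, 2)]
    steps := [(0, 6), (0, 5), (0, 7), (0, 12), (1, 3), (1, 13), (2, 4), (2, 14)] }
  rep := [0, 8, 10, 1, 16, 9, 11, 2, 17, 15]

noncomputable def v2000 : Cov.CovD where
  P := 3
  N := 7
  pl := [1, 3, 8]
  lev := [⟨[], [], [], [], [(0, 0, [3, 4, 8])]⟩,
    ⟨[], [(0, 0), (0, 5)], [(0, 5)], [1], [(0, 0, [3, 4, 8]), (2, 5, [3])]⟩,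
    ⟨[(0, 1)], [(0, 0), (0, 6), (1, 0)], [(0, 0), (0, 6)], [2], [(0, 0, [3, 4, 8]), (4, 6,
      [7]), (5, 0, [3, 4, 8])]⟩,
    ⟨[(0, 1)], [(1, 0), (1, 3), (1, 5)], [], [1], [(6, 3, [0, 5])]⟩,
    ⟨[(0, 2)], [(0, 0), (1, 0), (2, 0), (2, 6), (2, 7)], [(0, 7)], [2], [(0, 0, [3, 4, 8]),
      (7, 7, [6])]⟩,
    ⟨[(0, 2), (2, 4)], [(2, 0), (2, 4), (2, 6)], [(0, 4)], [9], [(5, 0, [3, 4, 8]), (9, 4,
      [0])]⟩,
    ⟨[(0, 1), (0, 2), (0, 3), (0, 5), (1, 2), (1, 3), (1, 5), (2, 3), (2, 4), (2, 5), (3,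
      5)], [(0, 0), (0, 3), (0, 4), (0, 8), (1, 0), (1, 3), (1, 4), (1, 5), (1, 8), (2, 0),
      (2, 3), (2, 4), (2, 6), (2, 8), (3, 3), (3, 4), (3, 8), (5, 0), (5, 3), (5, 4), (5,
      8)], [(3, 4), (3, 8), (4, 8)], [], [(6, 3, [0, 5]), (9, 4, [0]), (10, 8, [0])]⟩]
  Ta := [((0, 2), 0, 5), ((0, 7), 0, 7), ((5, 4), 0, 6), ((5, 8), 0, 9)]
  Tb := [((0, 2, 7), 0, 5, 7), ((1, 2, 6), 1, 5, 3), ((2, 0, 1), 5, 0, 1), ((3, 4, 7), 2, 6, 7),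
    ((4, 3, 5), 6, 2, 0), ((5, 4, 8), 0, 6, 9), ((6, 1, 10), 3, 1, 8), ((7, 0, 3), 7, 0, 2),
    ((8, 5, 9), 9, 0, 4), ((9, 8, 10), 4, 9, 8), ((10, 6, 9), 8, 3, 4)]
  Tc := [(0, 3, 4), (0, 3, 8), (0, 4, 8), (3, 0, 5)]
  Td := [((0, 3), (0, 2), 5), ((0, 3), (0, 7), 7), ((0, 3), (5, 4), 6), ((0, 3), (5, 8), 9), ((0,
    4), (0, 2), 5), ((0, 4), (0, 7), 7), ((0, 4), (5, 4), 6), ((0, 4), (5, 8), 9), ((0, 8),
    (0, 2), 5), ((0, 8), (0, 7), 7), ((0, 8), (5, 4), 6), ((0, 8), (5, 8), 9), ((3, 0), (6,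
    1), 1), ((3, 0), (6, 10), 8), ((3, 5), (6, 1), 1), ((3, 5), (6, 10), 8), ((4, 0), (9, 8),
    9), ((4, 0), (9, 10), 8), ((5, 3), (2, 0), 0), ((5, 3), (2, 1), 1), ((6, 7), (4, 3), 2),
    ((6, 7), (4, 5), 0), ((7, 6), (7, 0), 0), ((7, 6), (7, 3), 2), ((8, 0), (10, 6), 3), ((8,
    0), (10, 9), 4)]
  G := [[0x111e22111e82a111e28111e88aa4, 0x111e44111e84c111e48111e88cc2,
    0x111e44111e84c111e48111e88cc2, 0x111e44111e84c111e48111e88cc2,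
    0x111e24111e84a111e28111e88ac4], [0x111e22111e82a111e28111e88aa4,
    0x111e12111e12c111e18111e18ca2, 0x12441211ca411c44e111e48111e88cc2,
    0x111e14111e14c111e18111e18cc2, 0x111e14111e14a111e18111e18ac4]]

noncomputable def n2000 : Ent := ⟨e2000, noF, [], [], [(14, 9, [7334790875878422277917280524280498655614991608238229351170434907566081, 0])]⟩

def c2000 : PLift (Cov.check n2000.C.D v2000 = true) := ⟨by decide +kernel⟩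

def b2000 : PLift (entF (fidx ts) 400 2000 n2000 = true) := ⟨by decide +kernel⟩

theorem g2000 : GoodF (fidx ts) 400 2000 := GoodF.ofV v2000 n2000 c2000.down b2000.down

/-- 4687444:1688/1 -/
noncomputable def e2001 : SCfg where
  D := {
    a := 7
    L := 9
    kp := 7
    inn := [(0, 1), (0, 2), (0, 3), (1, 0), (1, 3), (2, 0), (2, 3), (2, 4), (2, 5), (3, 0), (3, 1), (3,
      2), (3, 5), (3, 6), (4, 2), (5, 2), (5, 3), (6, 3)]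
    mix := [(0, 0), (1, 0), (1, 1), (1, 2), (1, 3), (2, 0), (2, 4), (2, 5), (2, 6), (3, 1), (3, 7), (4,
      0), (4, 3), (4, 4), (5, 6), (5, 7), (6, 1), (6, 7), (6, 8)]
    cl := [0, 3, 5, 4, 2, 6, 0, 1, 7]
    chq := [(0, 2), (1, 3), (1, 4), (1, 5), (2, 0), (3, 1), (4, 1), (5, 1)]
    rng := [(0, 3), (1, 2), (1, 8), (2, 1), (2, 3), (3, 0), (3, 2), (3, 4), (4, 3), (4, 5), (5, 4), (5,
      6), (6, 5), (6, 7), (7, 6), (7, 8), (8, 1), (8, 7)]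
    lev := [] }
  links := [[1, 7, 2, 3], [7, 0, 3, 8, 9, 10], [3, 0, 7, 4, 11, 12, 13, 5], [8, 1, 0, 2, 5, 14, 6], [11,
    2, 7, 10], [14, 3, 2, 13], [8, 3, 14, 15]]
  P := {
    a := 7
    N := 16
    nb := [142, 1929, 14521, 16743, 3204, 24588, 49416, 1047, 33354, 1282, 2706, 5140, 10244, 20516,
      41064, 16704]
    tri := [(0, 1, 3), (0, 1, 7), (0, 2, 3), (0, 2, 7), (1, 3, 8), (1, 7, 10), (1, 8, 9), (1, 9, 10),
      (2, 3, 5), (2, 4, 7), (2, 4, 11), (2, 5, 13), (2, 11, 12), (2, 12, 13), (3, 5, 14), (3, 6,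
      8), (3, 6, 14), (4, 7, 10), (4, 10, 11), (5, 13, 14), (6, 8, 15), (6, 14, 15)]
    fin := [0, 1, 0, 1, 0, 0, 1, 0, 8, 9, 10, 11, 12, 0, 1, 15]
    chd := [(0, 11), (8, 1), (9, 1), (10, 1)]
    steps := [(0, 2), (0, 4), (0, 5), (0, 7), (0, 13), (1, 3), (1, 6), (1, 14)] }
  rep := [0, 1, 11, 8, 10, 9, 12, 15]

noncomputable def v2001 : Cov.CovD where
  P := 3
  N := 5
  pl := [5, 8]
  lev := [⟨[], [], [], [], [(0, 0, [2])]⟩,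
    ⟨[], [(0, 0), (0, 3), (0, 4), (0, 5)], [(0, 3), (0, 4), (0, 5), (3, 4), (3, 5), (4,
      5)], [], [(0, 0, [2]), (1, 3, [1]), (2, 5, [1]), (3, 4, [1])]⟩,
    ⟨[(0, 1)], [(0, 0), (0, 2), (1, 0)], [(0, 0), (0, 2)], [6], [(0, 0, [2]), (4, 2, [0]),
      (6, 0, [2])]⟩,
    ⟨[(0, 1), (0, 2), (1, 2)], [(0, 0), (0, 1), (0, 3), (1, 0), (1, 1), (1, 3), (1, 4), (1,
      5), (2, 0), (2, 1), (2, 2), (2, 3)], [(1, 3)], [], [(1, 3, [1]), (7, 1, [3, 4, 5])]⟩,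
    ⟨[(0, 2), (2, 3)], [(0, 0), (1, 0), (1, 4), (2, 0), (2, 2), (2, 4)], [(0, 2), (0, 4),
      (2, 4)], [], [(0, 0, [2]), (3, 4, [1]), (4, 2, [0])]⟩,
    ⟨[(0, 2), (0, 3), (1, 3), (2, 3), (2, 4)], [(2, 0), (2, 1), (2, 2), (3, 0), (3, 1), (3,
      3)], [(0, 1)], [], [(6, 0, [2]), (7, 1, [3, 4, 5])]⟩,
    ⟨[(0, 3), (1, 3), (2, 3), (3, 5)], [(1, 3), (3, 1), (3, 3), (5, 1)], [(1, 3)], [7],
      [(1, 3, [1]), (7, 1, [3, 4, 5])]⟩]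
  Ta := [((0, 3), 0, 4), ((6, 5), 0, 6), ((6, 7), 0, 1)]
  Tb := [((1, 2, 8), 3, 5, 7), ((2, 1, 3), 5, 3, 4), ((3, 0, 2), 4, 0, 5), ((3, 0, 4), 4, 0, 2),
    ((3, 2, 4), 4, 5, 2), ((4, 3, 5), 2, 4, 6), ((5, 4, 6), 6, 2, 0), ((6, 5, 7), 0, 6, 1),
    ((7, 6, 8), 1, 0, 7), ((8, 1, 7), 7, 3, 1)]
  Tc := [(1, 3, 4), (1, 3, 5), (1, 4, 5)]
  Td := [((0, 2), (0, 3), 4), ((0, 2), (6, 5), 6), ((0, 2), (6, 7), 1), ((1, 3), (7, 6), 0), ((1,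
    3), (7, 8), 7), ((1, 4), (7, 6), 0), ((1, 4), (7, 8), 7), ((1, 5), (7, 6), 0), ((1, 5),
    (7, 8), 7), ((2, 0), (4, 3), 4), ((2, 0), (4, 5), 6), ((3, 1), (1, 2), 5), ((3, 1), (1,
    8), 7), ((4, 1), (3, 0), 0), ((4, 1), (3, 2), 5), ((4, 1), (3, 4), 2), ((5, 1), (2, 1),
    3), ((5, 1), (2, 3), 4)]
  G := [[0, 0, 0x21d8a42224d86121d1a8c2c, 0x6145458c9424442181c94d8cdc188c2c1848148c2e,
    0x4122181a24d8ad28c1a2454a9a24], [0, 0x24426468c2c1a48281c248cc8446c4c2c8c1e,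
    0x24d8a14224d16428d4a8a29, 0x841d415441881d41dc2441882c, 0x641882d81dc415819a24]]

noncomputable def n2001 : Ent := ⟨e2001, noF, [], [], []⟩

def c2001 : PLift (Cov.check n2001.C.D v2001 = true) := ⟨by decide +kernel⟩

def b2001 : PLift (entF (fidx ts) 400 2001 n2001 = true) := ⟨by decide +kernel⟩

theorem g2001 : GoodF (fidx ts) 400 2001 := GoodF.ofV v2001 n2001 c2001.down b2001.down

/-- 4687444:1688 -/
noncomputable def e2002 : SCfg where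
  D := {
    a := 7
    L := 10
    kp := 8
    inn := [(0, 1), (0, 2), (0, 3), (1, 0), (1, 3), (2, 0), (2, 3), (2, 4), (2, 5), (3, 0), (3, 1), (3,
      2), (3, 5), (3, 6), (4, 2), (5, 2), (5, 3), (6, 3)]
    mix := [(0, 0), (1, 0), (1, 1), (1, 2), (1, 3), (2, 0), (2, 4), (2, 5), (2, 6), (3, 1), (3, 7), (4,
      0), (4, 4), (4, 8), (5, 6), (5, 7), (6, 1), (6, 7), (6, 9)]
    cl := [0, 3, 4, 5, 2, 6, 0, 1, 7, 8]
    chq := [(0, 2), (1, 3), (1, 4), (1, 5), (2, 0), (3, 1), (4, 1), (5, 1)]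
    rng := [(0, 3), (0, 8), (1, 2), (1, 9), (2, 1), (2, 3), (3, 0), (3, 2), (4, 5), (4, 8), (5, 4), (5,
      6), (6, 5), (6, 7), (7, 6), (7, 9), (8, 0), (8, 4), (9, 1), (9, 7)]
    lev := [] }
  links := [[1, 7, 2, 3], [7, 0, 3, 8, 9, 10], [3, 0, 7, 4, 11, 12, 13, 5], [8, 1, 0, 2, 5, 14, 6], [11,
    2, 7, 15], [14, 3, 2, 13], [8, 3, 14, 16]]
  P := {
    a := 7
    N := 17
    nb := [142, 1929, 14521, 16743, 34948, 24588, 82184, 33815, 66122, 1282, 642, 36884, 10244, 20516,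
      73832, 2192, 16704]
    tri := [(0, 1, 3), (0, 1, 7), (0, 2, 3), (0, 2, 7), (1, 3, 8), (1, 7, 10), (1, 8, 9), (1, 9, 10),
      (2, 3, 5), (2, 4, 7), (2, 4, 11), (2, 5, 13), (2, 11, 12), (2, 12, 13), (3, 5, 14), (3, 6,
      8), (3, 6, 14), (4, 7, 15), (4, 11, 15), (5, 13, 14), (6, 8, 16), (6, 14, 16)]
    fin := [0, 1, 0, 1, 0, 0, 1, 0, 8, 9, 10, 11, 12, 0, 1, 15, 16]
    chd := [(0, 11), (8, 1), (9, 1), (10, 1)]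
    steps := [(0, 2), (0, 4), (0, 5), (0, 7), (0, 13), (1, 3), (1, 6), (1, 14)] }
  rep := [0, 1, 11, 8, 9, 10, 12, 15, 16]

noncomputable def v2002 : Cov.CovD where
  P := 3
  N := 6
  pl := [5, 8, 9]
  lev := [⟨[], [], [], [], [(0, 0, [2])]⟩,
    ⟨[], [(0, 0), (0, 3), (0, 4), (0, 5)], [(0, 3), (0, 4), (0, 5), (3, 4), (3, 5), (4,
      5)], [], [(0, 0, [2]), (1, 3, [1]), (2, 4, [1]), (3, 5, [1])]⟩,
    ⟨[(0, 1)], [(0, 0), (0, 2), (1, 0)], [(0, 0), (0, 2)], [6], [(0, 0, [2]), (4, 2, [0]),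
      (6, 0, [2])]⟩,
    ⟨[(0, 1), (0, 2), (1, 2)], [(0, 0), (0, 1), (0, 3), (1, 0), (1, 1), (1, 3), (1, 4), (1,
      5), (2, 0), (2, 1), (2, 2), (2, 3)], [(1, 3)], [], [(1, 3, [1]), (7, 1, [3, 4, 5])]⟩,
    ⟨[(0, 2), (2, 3)], [(0, 0), (1, 0), (2, 0), (2, 2)], [(0, 2)], [7], [(0, 0, [2]), (4,
      2, [0])]⟩,
    ⟨[(0, 2), (0, 3), (1, 3), (2, 3), (2, 4)], [(2, 0), (2, 1), (2, 2), (3, 0), (3, 1), (3,
      3)], [(0, 1)], [], [(6, 0, [2]), (7, 1, [3, 4, 5])]⟩,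
    ⟨[(0, 3), (1, 3), (2, 3), (3, 5)], [(1, 3), (3, 1), (3, 3), (5, 1)], [(1, 3)], [8],
      [(1, 3, [1]), (7, 1, [3, 4, 5])]⟩]
  Ta := [((0, 3), 0, 5), ((0, 8), 0, 7), ((6, 5), 0, 6), ((6, 7), 0, 1)]
  Tb := [((0, 3, 8), 0, 5, 7), ((1, 2, 9), 3, 4, 8), ((2, 1, 3), 4, 3, 5), ((3, 0, 2), 5, 0, 4),
    ((4, 5, 8), 2, 6, 7), ((5, 4, 6), 6, 2, 0), ((6, 5, 7), 0, 6, 1), ((7, 6, 9), 1, 0, 8),
    ((8, 0, 4), 7, 0, 2), ((9, 1, 7), 8, 3, 1)]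
  Tc := [(1, 3, 4), (1, 3, 5), (1, 4, 5)]
  Td := [((0, 2), (0, 3), 5), ((0, 2), (0, 8), 7), ((0, 2), (6, 5), 6), ((0, 2), (6, 7), 1), ((1,
    3), (7, 6), 0), ((1, 3), (7, 9), 8), ((1, 4), (7, 6), 0), ((1, 4), (7, 9), 8), ((1, 5),
    (7, 6), 0), ((1, 5), (7, 9), 8), ((2, 0), (4, 5), 6), ((2, 0), (4, 8), 7), ((3, 1), (1,
    2), 4), ((3, 1), (1, 9), 8), ((4, 1), (2, 1), 3), ((4, 1), (2, 3), 5), ((5, 1), (3, 0),
    0), ((5, 1), (3, 2), 4)]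
  G := [[0, 0, 0xd1d1a8d8d4c162d1d864825, 0xc1446145858c9c2a189494c5c188c241848148c2e,
    0x412a188a94d4adc4c1a5454a9a24184826], [0, 0x6868c241a4a8c281c2c2c4c2c2c8c1e,
    0xd4d46182d1d168d149ca4629, 0xa419415441881d81dc2481482a, 0x441881d41dc415819a24]]

noncomputable def n2002 : Ent := ⟨e2002, noF, [], [], [(15, 10, [1685356702439545624464619697705549435909628783578210987402487205889, 0])]⟩

def c2002 : PLift (Cov.check n2002.C.D v2002 = true) := ⟨by decide +kernel⟩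

def b2002 : PLift (entF (fidx ts) 400 2002 n2002 = true) := ⟨by decide +kernel⟩

theorem g2002 : GoodF (fidx ts) 400 2002 := GoodF.ofV v2002 n2002 c2002.down b2002.down

/-- 4684458:1697/1 -/
noncomputable def e2003 : SCfg where
  D := {
    a := 7
    L := 10
    kp := 8
    inn := [(0, 1), (0, 2), (0, 6), (1, 0), (1, 3), (1, 6), (2, 0), (2, 4), (2, 5), (2, 6), (3, 1), (3,
      6), (4, 2), (5, 2), (5, 6), (6, 0), (6, 1), (6, 2), (6, 3), (6, 5)]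
    mix := [(0, 0), (1, 0), (1, 1), (1, 2), (2, 0), (2, 3), (2, 4), (2, 5), (3, 1), (3, 6), (4, 1), (4,
      4), (4, 5), (5, 5), (5, 7), (5, 8), (6, 6), (6, 8), (6, 9)]
    cl := [0, 1, 5, 6, 2, 0, 3, 8, 4, 7]
    chq := [(0, 3), (0, 4), (0, 7), (1, 6), (3, 0), (3, 5), (4, 0), (5, 3), (6, 1), (7, 0)]
    rng := [(0, 2), (0, 3), (1, 2), (1, 4), (1, 5), (1, 6), (2, 0), (2, 1), (3, 0), (3, 4), (4, 1), (4,
      3), (5, 1), (5, 7), (6, 1), (6, 9), (7, 5), (7, 8), (8, 7), (8, 9), (9, 6), (9, 8)]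
    lev := [] }
  links := [[1, 7, 2, 6], [7, 0, 6, 3, 8, 9], [6, 0, 7, 10, 11, 4, 12, 5], [8, 1, 6, 13], [12, 2, 11, 8],
    [6, 2, 12, 14, 15], [13, 3, 1, 0, 2, 5, 15, 16]]
  P := {
    a := 7
    N := 17
    nb := [198, 969, 7409, 8514, 6404, 53316, 106543, 1543, 14874, 386, 2180, 1300, 16692, 65864,
      36896, 82016, 41024]
    tri := [(0, 1, 6), (0, 1, 7), (0, 2, 6), (0, 2, 7), (1, 3, 6), (1, 3, 8), (1, 7, 9), (1, 8, 9), (2,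
      4, 11), (2, 4, 12), (2, 5, 6), (2, 5, 12), (2, 7, 10), (2, 10, 11), (3, 6, 13), (3, 8, 13),
      (4, 8, 11), (4, 8, 12), (5, 6, 15), (5, 12, 14), (5, 14, 15), (6, 13, 16), (6, 15, 16)]
    fin := [0, 1, 2, 1, 2, 0, 0, 0, 8, 9, 2, 11, 0, 1, 14, 15, 16]
    chd := [(0, 1), (0, 15), (0, 16), (8, 2), (9, 1)]
    steps := [(0, 6), (0, 5), (0, 7), (0, 12), (1, 3), (1, 13), (2, 4), (2, 10)] }
  rep := [0, 8, 11, 1, 15, 9, 2, 16, 14]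

noncomputable def v2003 : Cov.CovD where
  P := 3
  N := 6
  pl := [4, 7]
  lev := [⟨[], [], [], [], [(0, 0, [3, 4, 7])]⟩,
    ⟨[], [(0, 0), (0, 1), (0, 5)], [(0, 1), (0, 5), (1, 5)], [], [(0, 0, [3, 4, 7]), (1, 1,
      [6]), (2, 5, [3])]⟩,
    ⟨[(0, 1)], [(0, 0), (0, 6), (1, 0)], [(0, 0), (0, 6)], [2], [(0, 0, [3, 4, 7]), (3, 6,
      [1]), (5, 0, [3, 4, 7])]⟩,
    ⟨[(0, 1)], [(1, 0), (1, 1), (1, 3), (1, 5)], [(1, 3)], [], [(1, 1, [6]), (6, 3, [0,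
      5])]⟩,
    ⟨[(0, 2)], [(1, 1), (2, 0), (2, 1), (2, 6), (3, 1)], [(0, 1)], [2], [(1, 1, [6]), (5,
      0, [3, 4, 7])]⟩,
    ⟨[(0, 2), (2, 4)], [(2, 0), (2, 4), (2, 6), (4, 0)], [(0, 4)], [8], [(5, 0, [3, 4, 7]),
      (8, 4, [0])]⟩,
    ⟨[(0, 1), (0, 2), (0, 3), (0, 5), (1, 2), (1, 3), (1, 5), (2, 3), (2, 4), (2, 5), (3,
      5)], [(0, 0), (0, 3), (0, 4), (0, 7), (1, 0), (1, 1), (1, 3), (1, 4), (1, 5), (1, 7),
      (2, 0), (2, 3), (2, 4), (2, 6), (2, 7), (3, 1), (3, 3), (3, 4), (3, 7), (5, 0), (5, 3),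
      (5, 4), (5, 7)], [(3, 4), (3, 7), (4, 7)], [], [(6, 3, [0, 5]), (8, 4, [0]), (9, 7,
      [0])]⟩]
  Ta := [((0, 2), 0, 5), ((0, 3), 0, 6), ((5, 1), 0, 1), ((5, 7), 0, 8)]
  Tb := [((0, 2, 3), 0, 5, 6), ((1, 2, 4), 1, 5, 2), ((1, 2, 5), 1, 5, 0), ((1, 2, 6), 1, 5, 3),
    ((1, 4, 5), 1, 2, 0), ((1, 4, 6), 1, 2, 3), ((1, 5, 6), 1, 0, 3), ((2, 0, 1), 5, 0, 1),
    ((3, 0, 4), 6, 0, 2), ((4, 1, 3), 2, 1, 6), ((5, 1, 7), 0, 1, 8), ((6, 1, 9), 3, 1, 7),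
    ((7, 5, 8), 8, 0, 4), ((8, 7, 9), 4, 8, 7), ((9, 6, 8), 7, 3, 4)]
  Tc := [(0, 3, 4), (0, 3, 7), (0, 4, 7), (3, 0, 5)]
  Td := [((0, 3), (0, 2), 5), ((0, 3), (0, 3), 6), ((0, 3), (5, 1), 1), ((0, 3), (5, 7), 8), ((0,
    4), (0, 2), 5), ((0, 4), (0, 3), 6), ((0, 4), (5, 1), 1), ((0, 4), (5, 7), 8), ((0, 7),
    (0, 2), 5), ((0, 7), (0, 3), 6), ((0, 7), (5, 1), 1), ((0, 7), (5, 7), 8), ((1, 6), (1,
    2), 5), ((1, 6), (1, 4), 2), ((1, 6), (1, 5), 0), ((1, 6), (1, 6), 3), ((3, 0), (6, 1),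
    1), ((3, 0), (6, 9), 7), ((3, 5), (6, 1), 1), ((3, 5), (6, 9), 7), ((4, 0), (8, 7), 8),
    ((4, 0), (8, 9), 7), ((5, 3), (2, 0), 0), ((5, 3), (2, 1), 1), ((6, 1), (3, 0), 0), ((6,
    1), (3, 4), 2), ((7, 0), (9, 6), 3), ((7, 0), (9, 8), 4)]
  G := [[0, 0, 0x1284111e4461242111e48ac8, 0x111e441411ac4c111e48111e88cc2,
    0x111e142111e182121121c8e8], [0, 0x1211cc4811618c8111e82c111e844e2,
    0x1284111e4461242111e48ac4, 0x111e44111e84c111e48111e88cc2, 0x1284111e84a1282111e88ac4]]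

noncomputable def n2003 : Ent := ⟨e2003, noF, [], [], []⟩

def c2003 : PLift (Cov.check n2003.C.D v2003 = true) := ⟨by decide +kernel⟩

def b2003 : PLift (entF (fidx ts) 400 2003 n2003 = true) := ⟨by decide +kernel⟩

theorem g2003 : GoodF (fidx ts) 400 2003 := GoodF.ofV v2003 n2003 c2003.down b2003.down

/-- 4684458:1697 -/
noncomputable def e2004 : SCfg where
  D := {
    a := 7
    L := 11
    kp := 9
    inn := [(0, 1), (0, 2), (0, 6), (1, 0), (1, 3), (1, 6), (2, 0), (2, 4), (2, 5), (2, 6), (3, 1), (3,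
      6), (4, 2), (5, 2), (5, 6), (6, 0), (6, 1), (6, 2), (6, 3), (6, 5)]
    mix := [(0, 0), (1, 0), (1, 1), (1, 2), (2, 0), (2, 3), (2, 4), (2, 5), (3, 1), (3, 6), (4, 4), (4,
      5), (4, 7), (5, 5), (5, 8), (5, 9), (6, 6), (6, 9), (6, 10)]
    cl := [0, 1, 5, 6, 2, 0, 3, 7, 9, 4, 8]
    chq := [(0, 3), (0, 4), (0, 8), (3, 0), (3, 5), (4, 0), (5, 3), (6, 7), (7, 6), (8, 0)]
    rng := [(0, 2), (0, 3), (1, 2), (1, 6), (2, 0), (2, 1), (3, 0), (3, 4), (4, 3), (4, 7), (5, 7), (5,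
      8), (6, 1), (6, 10), (7, 4), (7, 5), (8, 5), (8, 9), (9, 8), (9, 10), (10, 6), (10, 9)]
    lev := [] }
  links := [[1, 7, 2, 6], [7, 0, 6, 3, 8, 9], [6, 0, 7, 10, 11, 4, 12, 5], [8, 1, 6, 13], [12, 2, 11,
    14], [6, 2, 12, 15, 16], [13, 3, 1, 0, 2, 5, 16, 17]]
  P := {
    a := 7
    N := 18
    nb := [198, 969, 7409, 8514, 22532, 102468, 204847, 1543, 8714, 386, 2180, 17428, 49204, 131400,
      6160, 69664, 163936, 73792]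
    tri := [(0, 1, 6), (0, 1, 7), (0, 2, 6), (0, 2, 7), (1, 3, 6), (1, 3, 8), (1, 7, 9), (1, 8, 9), (2,
      4, 11), (2, 4, 12), (2, 5, 6), (2, 5, 12), (2, 7, 10), (2, 10, 11), (3, 6, 13), (3, 8, 13),
      (4, 11, 14), (4, 12, 14), (5, 6, 16), (5, 12, 15), (5, 15, 16), (6, 13, 17), (6, 16, 17)]
    fin := [0, 1, 2, 1, 2, 0, 0, 0, 8, 9, 2, 11, 0, 1, 14, 15, 16, 17]
    chd := [(0, 1), (0, 16), (0, 17), (2, 14), (9, 1)]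
    steps := [(0, 6), (0, 5), (0, 7), (0, 12), (1, 3), (1, 13), (2, 4), (2, 10)] }
  rep := [0, 8, 11, 1, 16, 9, 2, 14, 17, 15]

noncomputable def v2004 : Cov.CovD where
  P := 3
  N := 7
  pl := [1, 4, 8]
  lev := [⟨[], [], [], [], [(0, 0, [3, 4, 8])]⟩,
    ⟨[], [(0, 0), (0, 5)], [(0, 5)], [1], [(0, 0, [3, 4, 8]), (2, 5, [3])]⟩,
    ⟨[(0, 1)], [(0, 0), (0, 6), (1, 0)], [(0, 0), (0, 6)], [2], [(0, 0, [3, 4, 8]), (3, 6,
      [7]), (5, 0, [3, 4, 8])]⟩,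
    ⟨[(0, 1)], [(1, 0), (1, 3), (1, 5)], [], [1], [(6, 3, [0, 5])]⟩,
    ⟨[(0, 2)], [(2, 0), (2, 6), (2, 7)], [(0, 7)], [2], [(5, 0, [3, 4, 8]), (7, 7, [6])]⟩,
    ⟨[(0, 2), (2, 4)], [(2, 0), (2, 4), (2, 6), (4, 0)], [(0, 4)], [9], [(5, 0, [3, 4, 8]),
      (9, 4, [0])]⟩,
    ⟨[(0, 1), (0, 2), (0, 3), (0, 5), (1, 2), (1, 3), (1, 5), (2, 3), (2, 4), (2, 5), (3,
      5)], [(0, 0), (0, 3), (0, 4), (0, 8), (1, 0), (1, 3), (1, 4), (1, 5), (1, 8), (2, 0),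
      (2, 3), (2, 4), (2, 6), (2, 8), (3, 3), (3, 4), (3, 8), (5, 0), (5, 3), (5, 4), (5,
      8)], [(3, 4), (3, 8), (4, 8)], [], [(6, 3, [0, 5]), (9, 4, [0]), (10, 8, [0])]⟩]
  Ta := [((0, 2), 0, 5), ((0, 3), 0, 6), ((5, 7), 0, 7), ((5, 8), 0, 9)]
  Tb := [((0, 2, 3), 0, 5, 6), ((1, 2, 6), 1, 5, 3), ((2, 0, 1), 5, 0, 1), ((3, 0, 4), 6, 0, 2),
    ((4, 3, 7), 2, 6, 7), ((5, 7, 8), 0, 7, 9), ((6, 1, 10), 3, 1, 8), ((7, 4, 5), 7, 2, 0),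
    ((8, 5, 9), 9, 0, 4), ((9, 8, 10), 4, 9, 8), ((10, 6, 9), 8, 3, 4)]
  Tc := [(0, 3, 4), (0, 3, 8), (0, 4, 8), (3, 0, 5)]
  Td := [((0, 3), (0, 2), 5), ((0, 3), (0, 3), 6), ((0, 3), (5, 7), 7), ((0, 3), (5, 8), 9), ((0,
    4), (0, 2), 5), ((0, 4), (0, 3), 6), ((0, 4), (5, 7), 7), ((0, 4), (5, 8), 9), ((0, 8),
    (0, 2), 5), ((0, 8), (0, 3), 6), ((0, 8), (5, 7), 7), ((0, 8), (5, 8), 9), ((3, 0), (6,
    1), 1), ((3, 0), (6, 10), 8), ((3, 5), (6, 1), 1), ((3, 5), (6, 10), 8), ((4, 0), (9, 8),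
    9), ((4, 0), (9, 10), 8), ((5, 3), (2, 0), 0), ((5, 3), (2, 1), 1), ((6, 7), (3, 0), 0),
    ((6, 7), (3, 4), 2), ((7, 6), (7, 4), 2), ((7, 6), (7, 5), 0), ((8, 0), (10, 6), 3), ((8,
    0), (10, 9), 4)]
  G := [[0x111e22111e82a111e28111e88aa4, 0x111e14111e14c111e18111e18cc2,
    0x111e24111e446111e28111e486c8, 0x111e44111e14c111e18111e18cc2,
    0x111e24111e14a111e182c111e18846], [0x111e844111e42111e88c111e448e2,
    0x111e42111e82c111e44111e84c62, 0x111e44111e84c111e48111e88cc2,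
    0x111e44111e84c111e48111e88cc2, 0x111e24111e84a111e28111e88ac4]]

noncomputable def n2004 : Ent := ⟨e2004, noF, [], [], [(14, 8, [7334790875878422277917280412809439770186285993052121950242077125980161, 0])]⟩

def c2004 : PLift (Cov.check n2004.C.D v2004 = true) := ⟨by decide +kernel⟩

def b2004 : PLift (entF (fidx ts) 400 2004 n2004 = true) := ⟨by decide +kernel⟩

theorem g2004 : GoodF (fidx ts) 400 2004 := GoodF.ofV v2004 n2004 c2004.down b2004.down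

/-- 4846664:1702 -/
noncomputable def e2005 : SCfg where
  D := {
    a := 7
    L := 11
    kp := 9
    inn := [(0, 1), (1, 0), (1, 2), (1, 3), (1, 4), (1, 5), (2, 1), (2, 3), (3, 1), (3, 2), (3, 4), (4,
      1), (4, 3), (4, 5), (5, 1), (5, 4), (5, 6), (6, 5)]
    mix := [(0, 0), (0, 1), (0, 2), (1, 0), (1, 2), (1, 3), (2, 3), (2, 4), (3, 4), (3, 5), (3, 6), (4,
      6), (4, 7), (4, 8), (5, 0), (5, 8), (5, 9), (6, 8), (6, 9), (6, 10)]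
    cl := [0, 8, 2, 0, 5, 6, 4, 7, 3, 1, 9]
    chq := [(0, 3), (0, 4), (0, 6), (0, 7), (1, 3), (3, 0), (3, 1), (4, 0), (6, 0), (7, 0)]
    rng := [(0, 1), (0, 9), (1, 0), (1, 2), (2, 1), (2, 3), (3, 2), (3, 4), (4, 3), (4, 5), (5, 4), (5,
      6), (6, 5), (6, 7), (7, 6), (7, 8), (8, 7), (8, 10), (9, 0), (9, 10), (10, 8), (10, 9)]
    lev := [] }
  links := [[1, 7, 8, 9], [7, 0, 9, 10, 2, 3, 4, 5], [3, 1, 10, 11], [4, 1, 2, 11, 12, 13], [5, 1, 3, 13,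
    14, 15], [7, 1, 4, 15, 6, 16], [16, 5, 15, 17]]
  P := {
    a := 7
    N := 18
    nb := [898, 1725, 3082, 14358, 57386, 98514, 229408, 65827, 641, 1283, 2566, 5132, 10248, 20504,
      40976, 147568, 131296, 98368]
    tri := [(0, 1, 7), (0, 1, 9), (0, 7, 8), (0, 8, 9), (1, 2, 3), (1, 2, 10), (1, 3, 4), (1, 4, 5),
      (1, 5, 7), (1, 9, 10), (2, 3, 11), (2, 10, 11), (3, 4, 13), (3, 11, 12), (3, 12, 13), (4, 5,
      15), (4, 13, 14), (4, 14, 15), (5, 6, 15), (5, 6, 16), (5, 7, 16), (6, 15, 17), (6, 16, 17)]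
    fin := [0, 0, 0, 0, 0, 0, 6, 0, 8, 9, 0, 11, 12, 13, 14, 6, 16, 17]
    chd := [(0, 6), (0, 12), (0, 13), (0, 14), (6, 16)]
    steps := [(0, 1), (0, 2), (0, 3), (0, 4), (0, 5), (0, 7), (0, 10), (6, 15)] }
  rep := [0, 16, 9, 6, 13, 11, 12, 14, 8, 17]

noncomputable def v2005 : Cov.CovD where
  P := 3
  N := 7
  pl := [1, 2, 4, 10]
  lev := [⟨[], [], [], [2, 8], [(0, 0, [3, 4, 6, 7])]⟩,
    ⟨[], [(0, 0)], [(0, 0)], [2], [(0, 0, [3, 4, 6, 7]), (3, 0, [3, 4, 6, 7])]⟩,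
    ⟨[(0, 1)], [(1, 0)], [], [5], [(3, 0, [3, 4, 6, 7])]⟩,
    ⟨[(0, 1), (1, 2)], [(1, 0), (1, 4), (1, 6), (2, 0), (2, 4), (2, 6)], [(4, 6)], [5],
      [(5, 6, [0]), (6, 4, [0])]⟩,
    ⟨[(0, 1), (1, 2), (1, 3), (2, 3)], [(1, 0), (1, 3), (1, 4), (1, 7), (3, 3), (3, 4), (3,
      6), (3, 7)], [(3, 4), (3, 7), (4, 7)], [], [(6, 4, [0]), (7, 7, [0]), (8, 3, [0, 1])]⟩,
    ⟨[(0, 1), (1, 2), (1, 3), (1, 4), (3, 4)], [(0, 0), (1, 0), (1, 1), (1, 3), (4, 0), (4,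
      1), (4, 3), (4, 4), (4, 7)], [(0, 1), (0, 3), (1, 3)], [], [(0, 0, [3, 4, 6, 7]), (8,
      3, [0, 1]), (9, 1, [3])]⟩,
    ⟨[(1, 5), (4, 5)], [(4, 3), (5, 0), (5, 1), (5, 3)], [(1, 3)], [9], [(8, 3, [0, 1]),
      (9, 1, [3])]⟩]
  Ta := [((0, 1), 0, 8), ((0, 9), 0, 1), ((3, 2), 0, 2), ((3, 4), 0, 5)]
  Tb := [((0, 1, 9), 0, 8, 1), ((1, 0, 2), 8, 0, 2), ((2, 1, 3), 2, 8, 0), ((3, 2, 4), 0, 2, 5),
    ((4, 3, 5), 5, 0, 6), ((5, 4, 6), 6, 5, 4), ((6, 5, 7), 4, 6, 7), ((7, 6, 8), 7, 4, 3),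
    ((8, 7, 10), 3, 7, 9), ((9, 0, 10), 1, 0, 9), ((10, 8, 9), 9, 3, 1)]
  Tc := [(0, 3, 4), (0, 3, 6), (0, 3, 7), (0, 4, 6), (0, 4, 7), (0, 6, 7), (3, 0, 1)]
  Td := [((0, 3), (0, 1), 8), ((0, 3), (0, 9), 1), ((0, 3), (3, 2), 2), ((0, 3), (3, 4), 5), ((0,
    4), (0, 1), 8), ((0, 4), (0, 9), 1), ((0, 4), (3, 2), 2), ((0, 4), (3, 4), 5), ((0, 6),
    (0, 1), 8), ((0, 6), (0, 9), 1), ((0, 6), (3, 2), 2), ((0, 6), (3, 4), 5), ((0, 7), (0,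
    1), 8), ((0, 7), (0, 9), 1), ((0, 7), (3, 2), 2), ((0, 7), (3, 4), 5), ((1, 3), (9, 0),
    0), ((1, 3), (9, 10), 9), ((3, 0), (8, 7), 7), ((3, 0), (8, 10), 9), ((3, 1), (8, 7), 7),
    ((3, 1), (8, 10), 9), ((4, 0), (6, 5), 6), ((4, 0), (6, 7), 7), ((6, 0), (5, 4), 5), ((6,
    0), (5, 6), 4), ((7, 0), (7, 6), 4), ((7, 0), (7, 8), 3)]
  G := [[0, 0xca611ca61168ca611ca611c8c, 0,
    0x144431144451691c1118849a1814191cd1ec1c515c318114515cd168811188891ac44115c115c1e191c188118c898eb88149cd,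
    0x81945495cf11894195cd16214554318114514515cf1a9811188891ca54181181498e198195c195c1e9ab],
    [0, 0, 0x95c114295c112291c118441186e,
    0x8141c1248141c12854115c1145415c7d54115c114445b6981881189888bd8818811891c97acd,
    0x8141c1228141c1285421895c1981181898eb95c195c15495c37181495cd1eab]]

noncomputable def n2005 : Ent := ⟨e2005, noF, [], [], []⟩

def c2005 : PLift (Cov.check n2005.C.D v2005 = true) := ⟨by decide +kernel⟩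

def b2005 : PLift (entF (fidx ts) 400 2005 n2005 = true) := ⟨by decide +kernel⟩

theorem g2005 : GoodF (fidx ts) 400 2005 := GoodF.ofV v2005 n2005 c2005.down b2005.down

/-- 4846664:1703/1 -/
noncomputable def e2006 : SCfg where
  D := {
    a := 7
    L := 10
    kp := 8
    inn := [(0, 1), (1, 0), (1, 2), (1, 3), (1, 4), (1, 5), (2, 1), (2, 3), (3, 1), (3, 2), (3, 4), (4,
      1), (4, 3), (4, 5), (5, 1), (5, 4), (5, 6), (6, 5)]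
    mix := [(0, 0), (0, 1), (0, 2), (1, 0), (1, 2), (1, 3), (2, 3), (2, 4), (3, 4), (3, 5), (3, 6), (4,
      6), (4, 7), (4, 8), (5, 0), (5, 8), (5, 9), (6, 0), (6, 1), (6, 9)]
    cl := [0, 2, 5, 0, 6, 7, 3, 8, 4, 1]
    chq := [(0, 1), (0, 3), (0, 4), (0, 7), (0, 8), (1, 0), (3, 0), (4, 0), (7, 0), (8, 0)]
    rng := [(0, 1), (1, 0), (1, 2), (1, 9), (2, 1), (2, 3), (3, 2), (3, 4), (4, 3), (4, 5), (5, 4), (5,
      6), (6, 5), (6, 7), (7, 6), (7, 8), (8, 7), (8, 9), (9, 1), (9, 8)]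
    lev := [] }
  links := [[1, 7, 8, 9], [7, 0, 9, 10, 2, 3, 4, 5], [3, 1, 10, 11], [4, 1, 2, 11, 12, 13], [5, 1, 3, 13,
    14, 15], [7, 1, 4, 15, 16, 6], [7, 5, 16, 8]]
  P := {
    a := 7
    N := 17
    nb := [898, 1725, 3082, 14358, 57386, 98514, 65952, 355, 66241, 1283, 2566, 5132, 10248, 20504,
      40976, 81968, 33120]
    tri := [(0, 1, 7), (0, 1, 9), (0, 7, 8), (0, 8, 9), (1, 2, 3), (1, 2, 10), (1, 3, 4), (1, 4, 5),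
      (1, 5, 7), (1, 9, 10), (2, 3, 11), (2, 10, 11), (3, 4, 13), (3, 11, 12), (3, 12, 13), (4, 5,
      15), (4, 13, 14), (4, 14, 15), (5, 6, 7), (5, 6, 16), (5, 15, 16), (6, 7, 8), (6, 8, 16)]
    fin := [0, 0, 0, 0, 0, 0, 0, 0, 8, 9, 0, 11, 12, 13, 14, 15, 16]
    chd := [(0, 12), (0, 13), (0, 14), (0, 15), (0, 16)]
    steps := [(0, 1), (0, 2), (0, 3), (0, 4), (0, 5), (0, 7), (0, 6), (0, 10)] }
  rep := [0, 16, 8, 13, 15, 9, 11, 12, 14]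

noncomputable def v2006 : Cov.CovD where
  P := 3
  N := 6
  pl := [1, 2, 4]
  lev := [⟨[], [], [], [2, 5], [(0, 0, [1, 3, 4, 7, 8])]⟩,
    ⟨[], [(0, 0)], [(0, 0)], [5], [(0, 0, [1, 3, 4, 7, 8]), (3, 0, [1, 3, 4, 7, 8])]⟩,
    ⟨[(0, 1)], [(1, 0)], [], [6], [(3, 0, [1, 3, 4, 7, 8])]⟩,
    ⟨[(0, 1), (1, 2)], [(1, 0), (1, 3), (1, 7), (2, 0), (2, 3), (2, 7)], [(3, 7)], [6],
      [(5, 7, [0]), (6, 3, [0])]⟩,
    ⟨[(0, 1), (1, 2), (1, 3), (2, 3)], [(1, 0), (1, 3), (1, 4), (1, 8), (3, 3), (3, 4), (3,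
      7), (3, 8)], [(3, 4), (3, 8), (4, 8)], [], [(6, 3, [0]), (7, 8, [0]), (8, 4, [0])]⟩,
    ⟨[(0, 1), (1, 2), (1, 3), (1, 4), (3, 4)], [(0, 0), (1, 0), (1, 1), (1, 4), (4, 0), (4,
      1), (4, 3), (4, 4), (4, 8)], [(0, 1), (0, 4), (1, 4)], [], [(0, 0, [1, 3, 4, 7, 8]),
      (8, 4, [0]), (9, 1, [0])]⟩,
    ⟨[(1, 5), (4, 5)], [(0, 0), (1, 0), (5, 0), (5, 1), (5, 4)], [(0, 1)], [2], [(0, 0, [1,
      3, 4, 7, 8]), (9, 1, [0])]⟩]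
  Ta := [((0, 1), 0, 2), ((3, 2), 0, 5), ((3, 4), 0, 6)]
  Tb := [((1, 0, 2), 2, 0, 5), ((1, 0, 9), 2, 0, 1), ((1, 2, 9), 2, 5, 1), ((2, 1, 3), 5, 2, 0),
    ((3, 2, 4), 0, 5, 6), ((4, 3, 5), 6, 0, 7), ((5, 4, 6), 7, 6, 3), ((6, 5, 7), 3, 7, 8),
    ((7, 6, 8), 8, 3, 4), ((8, 7, 9), 4, 8, 1), ((9, 1, 8), 1, 2, 4)]
  Tc := [(0, 1, 3), (0, 1, 4), (0, 1, 7), (0, 1, 8), (0, 3, 4), (0, 3, 7), (0, 3, 8), (0, 4, 7),
    (0, 4, 8), (0, 7, 8)]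
  Td := [((0, 1), (0, 1), 2), ((0, 1), (3, 2), 5), ((0, 1), (3, 4), 6), ((0, 3), (0, 1), 2), ((0,
    3), (3, 2), 5), ((0, 3), (3, 4), 6), ((0, 4), (0, 1), 2), ((0, 4), (3, 2), 5), ((0, 4),
    (3, 4), 6), ((0, 7), (0, 1), 2), ((0, 7), (3, 2), 5), ((0, 7), (3, 4), 6), ((0, 8), (0,
    1), 2), ((0, 8), (3, 2), 5), ((0, 8), (3, 4), 6), ((1, 0), (9, 1), 2), ((1, 0), (9, 8),
    4), ((3, 0), (6, 5), 7), ((3, 0), (6, 7), 8), ((4, 0), (8, 7), 8), ((4, 0), (8, 9), 1),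
    ((7, 0), (5, 4), 6), ((7, 0), (5, 6), 3), ((8, 0), (7, 6), 3), ((8, 0), (7, 8), 4)]
  G := [[0, 0x48a11488611884c112e1, 0x48c1144c116884c1188c11c26,
    0x48c114844c916244c114848c91628488614444a1844184c188c188c1ef2d,
    0x8418488565841858471688c11888c99188891ac18c1181488cd9188488cd1c288c2188c184238814b88c188c1616b],
    [0, 0x84611848c11248c114e1, 0, 0x14c118284c112288c14814848c6b84c148c1844448cb74884c1e2d,
    0x84181843584114885636188118816c1812211c1188481cd981c11881c95ca88c1881888888c7d88188c18817a84846146b]]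

noncomputable def n2006 : Ent := ⟨e2006, noF, [], [], []⟩

def c2006 : PLift (Cov.check n2006.C.D v2006 = true) := ⟨by decide +kernel⟩

def b2006 : PLift (entF (fidx ts) 400 2006 n2006 = true) := ⟨by decide +kernel⟩

theorem g2006 : GoodF (fidx ts) 400 2006 := GoodF.ofV v2006 n2006 c2006.down b2006.down

/-- 4846664:1703 -/
noncomputable def e2007 : SCfg where
  D := {
    a := 7
    L := 11
    kp := 9
    inn := [(0, 1), (1, 0), (1, 2), (1, 3), (1, 4), (1, 5), (2, 1), (2, 3), (3, 1), (3, 2), (3, 4), (4,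
      1), (4, 3), (4, 5), (5, 1), (5, 4), (5, 6), (6, 5)]
    mix := [(0, 0), (0, 1), (0, 2), (1, 0), (1, 2), (1, 3), (2, 3), (2, 4), (3, 4), (3, 5), (3, 6), (4,
      6), (4, 7), (4, 8), (5, 0), (5, 8), (5, 9), (6, 0), (6, 9), (6, 10)]
    cl := [0, 8, 2, 0, 5, 6, 3, 7, 4, 1, 9]
    chq := [(0, 1), (0, 3), (0, 4), (0, 6), (0, 7), (1, 0), (3, 0), (4, 0), (6, 0), (7, 0)]
    rng := [(0, 1), (0, 10), (1, 0), (1, 2), (2, 1), (2, 3), (3, 2), (3, 4), (4, 3), (4, 5), (5, 4),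
      (5, 6), (6, 5), (6, 7), (7, 6), (7, 8), (8, 7), (8, 9), (9, 8), (9, 10), (10, 0), (10, 9)]
    lev := [] }
  links := [[1, 7, 8, 9], [7, 0, 9, 10, 2, 3, 4, 5], [3, 1, 10, 11], [4, 1, 2, 11, 12, 13], [5, 1, 3, 13,
    14, 15], [7, 1, 4, 15, 16, 6], [7, 5, 16, 17]]
  P := {
    a := 7
    N := 18
    nb := [898, 1725, 3082, 14358, 57386, 98514, 196768, 131427, 641, 1283, 2566, 5132, 10248, 20504,
      40976, 81968, 163936, 65728]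
    tri := [(0, 1, 7), (0, 1, 9), (0, 7, 8), (0, 8, 9), (1, 2, 3), (1, 2, 10), (1, 3, 4), (1, 4, 5),
      (1, 5, 7), (1, 9, 10), (2, 3, 11), (2, 10, 11), (3, 4, 13), (3, 11, 12), (3, 12, 13), (4, 5,
      15), (4, 13, 14), (4, 14, 15), (5, 6, 7), (5, 6, 16), (5, 15, 16), (6, 7, 17), (6, 16, 17)]
    fin := [0, 0, 0, 0, 0, 0, 0, 0, 8, 9, 0, 11, 12, 13, 14, 15, 16, 17]
    chd := [(0, 12), (0, 13), (0, 14), (0, 15), (0, 16)]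
    steps := [(0, 1), (0, 2), (0, 3), (0, 4), (0, 5), (0, 6), (0, 7), (0, 10)] }
  rep := [0, 16, 9, 13, 15, 11, 12, 14, 8, 17]

noncomputable def v2007 : Cov.CovD where
  P := 3
  N := 7
  pl := [1, 2, 4, 10]
  lev := [⟨[], [], [], [2, 8], [(0, 0, [1, 3, 4, 6, 7])]⟩,
    ⟨[], [(0, 0)], [(0, 0)], [2], [(0, 0, [1, 3, 4, 6, 7]), (3, 0, [1, 3, 4, 6, 7])]⟩,
    ⟨[(0, 1)], [(1, 0)], [], [5], [(3, 0, [1, 3, 4, 6, 7])]⟩,
    ⟨[(0, 1), (1, 2)], [(1, 0), (1, 3), (1, 6), (2, 0), (2, 3), (2, 6)], [(3, 6)], [5],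
      [(5, 6, [0]), (6, 3, [0])]⟩,
    ⟨[(0, 1), (1, 2), (1, 3), (2, 3)], [(1, 0), (1, 3), (1, 4), (1, 7), (3, 3), (3, 4), (3,
      6), (3, 7)], [(3, 4), (3, 7), (4, 7)], [], [(6, 3, [0]), (7, 7, [0]), (8, 4, [0])]⟩,
    ⟨[(0, 1), (1, 2), (1, 3), (1, 4), (3, 4)], [(0, 0), (1, 0), (1, 1), (1, 4), (4, 0), (4,
      1), (4, 3), (4, 4), (4, 7)], [(0, 1), (0, 4), (1, 4)], [], [(0, 0, [1, 3, 4, 6, 7]),
      (8, 4, [0]), (9, 1, [0])]⟩,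
    ⟨[(1, 5), (4, 5)], [(0, 0), (1, 0), (5, 0), (5, 1), (5, 4)], [(0, 1)], [9], [(0, 0, [1,
      3, 4, 6, 7]), (9, 1, [0])]⟩]
  Ta := [((0, 1), 0, 8), ((0, 10), 0, 9), ((3, 2), 0, 2), ((3, 4), 0, 5)]
  Tb := [((0, 1, 10), 0, 8, 9), ((1, 0, 2), 8, 0, 2), ((2, 1, 3), 2, 8, 0), ((3, 2, 4), 0, 2, 5),
    ((4, 3, 5), 5, 0, 6), ((5, 4, 6), 6, 5, 3), ((6, 5, 7), 3, 6, 7), ((7, 6, 8), 7, 3, 4),
    ((8, 7, 9), 4, 7, 1), ((9, 8, 10), 1, 4, 9), ((10, 0, 9), 9, 0, 1)]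
  Tc := [(0, 1, 3), (0, 1, 4), (0, 1, 6), (0, 1, 7), (0, 3, 4), (0, 3, 6), (0, 3, 7), (0, 4, 6),
    (0, 4, 7), (0, 6, 7)]
  Td := [((0, 1), (0, 1), 8), ((0, 1), (0, 10), 9), ((0, 1), (3, 2), 2), ((0, 1), (3, 4), 5),
    ((0, 3), (0, 1), 8), ((0, 3), (0, 10), 9), ((0, 3), (3, 2), 2), ((0, 3), (3, 4), 5), ((0,
    4), (0, 1), 8), ((0, 4), (0, 10), 9), ((0, 4), (3, 2), 2), ((0, 4), (3, 4), 5), ((0, 6),
    (0, 1), 8), ((0, 6), (0, 10), 9), ((0, 6), (3, 2), 2), ((0, 6), (3, 4), 5), ((0, 7), (0,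
    1), 8), ((0, 7), (0, 10), 9), ((0, 7), (3, 2), 2), ((0, 7), (3, 4), 5), ((1, 0), (9, 8),
    4), ((1, 0), (9, 10), 9), ((3, 0), (6, 5), 6), ((3, 0), (6, 7), 7), ((4, 0), (8, 7), 7),
    ((4, 0), (8, 9), 1), ((6, 0), (5, 4), 5), ((6, 0), (5, 6), 3), ((7, 0), (7, 6), 3), ((7,
    0), (7, 8), 4)]
  G := [[0, 0xaa611c6a11a41, 0,
    0x14c45114114c455c412711c11811cc8b91814c8b1c811816bc18144cc7114c451c4111c11cc1e718118c8c8b9188891acc,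
    0x181414cccf11814cccd111c111c111c1e7211c114c43321814cccd11814c8d1c1c1c1c1cdaccc2182b],
    [0, 0xc66116ca11a81, 0x11c118411c112211c1142e,
    0x11c118189911c1181c911cd3a4141814111c11411c5b61811818991881ac84c4514cc148c465c881c8258814acd,
    0x1414512181118816a811411cd1284cc144cc126ccc188148c48cc8cccfb88148c8cca5cab]]

noncomputable def n2007 : Ent := ⟨e2007, noF, [], [], [(8, 17, [6903326391201334775872065844685381424292761054348340378595029937905665, 0])]⟩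

def c2007 : PLift (Cov.check n2007.C.D v2007 = true) := ⟨by decide +kernel⟩

def b2007 : PLift (entF (fidx ts) 400 2007 n2007 = true) := ⟨by decide +kernel⟩

theorem g2007 : GoodF (fidx ts) 400 2007 := GoodF.ofV v2007 n2007 c2007.down b2007.down

/-- 4846644:1710/2 -/
noncomputable def e2008 : SCfg where
  D := {
    a := 7
    L := 9
    kp := 6
    inn := [(0, 1), (1, 0), (1, 2), (1, 3), (1, 4), (2, 1), (2, 3), (3, 1), (3, 2), (3, 6), (4, 1), (4,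
      5), (5, 4), (6, 3)]
    mix := [(0, 0), (0, 1), (0, 2), (1, 0), (1, 2), (1, 3), (1, 4), (2, 3), (2, 5), (3, 4), (3, 5), (3,
      6), (4, 0), (4, 4), (4, 7), (4, 8), (5, 0), (5, 1), (5, 8), (6, 1), (6, 5), (6, 6)]
    cl := [0, 2, 5, 0, 0, 1, 3, 6, 4]
    chq := [(0, 4), (1, 3), (3, 1), (4, 0)]
    rng := [(0, 1), (1, 0), (1, 2), (1, 5), (1, 6), (1, 8), (2, 1), (2, 3), (3, 2), (3, 5), (4, 6), (4,
      7), (5, 1), (5, 3), (6, 1), (6, 4), (7, 4), (7, 8), (8, 1), (8, 7)]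
    lev := [] }
  links := [[1, 7, 8, 9], [7, 0, 9, 10, 2, 3, 11, 4], [3, 1, 10, 12], [11, 1, 2, 12, 6, 13], [7, 1, 11,
    14, 15, 5], [7, 4, 15, 8], [13, 3, 12, 8]]
  P := {
    a := 7
    N := 16
    nb := [898, 3741, 5130, 14406, 51362, 33168, 12552, 307, 45793, 1283, 4614, 24602, 1356, 2376,
      34832, 16688]
    tri := [(0, 1, 7), (0, 1, 9), (0, 7, 8), (0, 8, 9), (1, 2, 3), (1, 2, 10), (1, 3, 11), (1, 4, 7),
      (1, 4, 11), (1, 9, 10), (2, 3, 12), (2, 10, 12), (3, 6, 12), (3, 6, 13), (3, 11, 13), (4, 5,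
      7), (4, 5, 15), (4, 11, 14), (4, 14, 15), (5, 7, 8), (5, 8, 15), (6, 8, 12), (6, 8, 13)]
    fin := [0, 0, 0, 0, 0, 0, 6, 0, 8, 9, 0, 0, 6, 13, 14, 15]
    chd := [(0, 15), (6, 13)]
    steps := [(0, 1), (0, 2), (0, 3), (0, 4), (0, 7), (0, 5), (0, 10), (0, 11), (6, 12)] }
  rep := [0, 6, 8, 13, 15, 9, 14]

noncomputable def v2008 : Cov.CovD where
  P := 3
  N := 4
  pl := [1, 2, 7]
  lev := [⟨[], [], [], [2, 5], [(0, 0, [4])]⟩,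
    ⟨[], [(0, 0)], [(0, 0)], [5], [(0, 0, [4]), (3, 0, [4]), (4, 0, [4])]⟩,
    ⟨[(0, 1)], [(1, 0), (1, 1)], [(0, 1)], [], [(3, 0, [4]), (5, 1, [3])]⟩,
    ⟨[(0, 1), (1, 2)], [(1, 0), (1, 1), (1, 3), (2, 0), (2, 1), (2, 3)], [(0, 1), (0, 3),
      (1, 3)], [], [(4, 0, [4]), (5, 1, [3]), (6, 3, [1])]⟩,
    ⟨[(0, 1), (1, 2), (1, 3)], [(0, 0), (1, 0), (1, 4), (3, 0)], [(0, 0), (0, 4)], [6],
      [(0, 0, [4]), (4, 0, [4]), (8, 4, [0])]⟩,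
    ⟨[(1, 4)], [(0, 0), (1, 0), (4, 0), (4, 4)], [(0, 4)], [2], [(0, 0, [4]), (8, 4, [0])]⟩,
    ⟨[(1, 3), (2, 3)], [(2, 1), (3, 0), (3, 1), (3, 3)], [(1, 3)], [2], [(5, 1, [3]), (6,
      3, [1])]⟩]
  Ta := [((0, 1), 0, 2), ((3, 2), 0, 5), ((3, 5), 0, 1), ((4, 6), 0, 3), ((4, 7), 0, 6)]
  Tb := [((1, 0, 2), 2, 0, 5), ((1, 0, 5), 2, 0, 1), ((1, 0, 6), 2, 0, 3), ((1, 0, 8), 2, 0, 4),
    ((1, 2, 5), 2, 5, 1), ((1, 2, 6), 2, 5, 3), ((1, 2, 8), 2, 5, 4), ((1, 5, 6), 2, 1, 3),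
    ((1, 5, 8), 2, 1, 4), ((1, 6, 8), 2, 3, 4), ((2, 1, 3), 5, 2, 0), ((3, 2, 5), 0, 5, 1),
    ((4, 6, 7), 0, 3, 6), ((5, 1, 3), 1, 2, 0), ((6, 1, 4), 3, 2, 0), ((7, 4, 8), 6, 0, 4),
    ((8, 1, 7), 4, 2, 6)]
  Tc := []
  Td := [((0, 4), (0, 1), 2), ((0, 4), (3, 2), 5), ((0, 4), (3, 5), 1), ((0, 4), (4, 6), 3), ((0,
    4), (4, 7), 6), ((1, 3), (5, 1), 2), ((1, 3), (5, 3), 0), ((3, 1), (6, 1), 2), ((3, 1),
    (6, 4), 0), ((4, 0), (8, 1), 2), ((4, 0), (8, 7), 6)]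
  G := [[0, 0, 0xc4c26148c88184c2218c8c4c146e, 0x888418ce181414cec12c8c4ccce182c,
    0x11a126411888888a82e58c8888a82e122c11811ac446a], [0,
    0x412c4816628812c141aa244844c8884c682d, 0, 0xc4c16148c8c1a184144c844c982d,
    0x11126818265481811c1811cc421812a8882a584b], [0, 0, 0, 0x888488ce184444cec121,
    0x919264188888a82e1812ac19811ac4469]]

noncomputable def n2008 : Ent := ⟨e2008, noF, [], [], []⟩

def c2008 : PLift (Cov.check n2008.C.D v2008 = true) := ⟨by decide +kernel⟩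

def b2008 : PLift (entF (fidx ts) 400 2008 n2008 = true) := ⟨by decide +kernel⟩

theorem g2008 : GoodF (fidx ts) 400 2008 := GoodF.ofV v2008 n2008 c2008.down b2008.down

/-- 4846644:1710/1 -/
noncomputable def e2009 : SCfg where
  D := {
    a := 7
    L := 10
    kp := 7
    inn := [(0, 1), (1, 0), (1, 2), (1, 3), (1, 4), (2, 1), (2, 3), (3, 1), (3, 2), (3, 6), (4, 1), (4,
      5), (5, 4), (6, 3)]
    mix := [(0, 0), (0, 1), (0, 2), (1, 0), (1, 2), (1, 3), (1, 4), (2, 3), (2, 5), (3, 4), (3, 5), (3,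
      6), (4, 0), (4, 4), (4, 7), (4, 8), (5, 0), (5, 8), (5, 9), (6, 1), (6, 5), (6, 6)]
    cl := [0, 2, 5, 0, 0, 1, 3, 6, 4, 7]
    chq := [(0, 4), (1, 3), (3, 1), (4, 0)]
    rng := [(0, 1), (0, 9), (1, 0), (1, 2), (1, 5), (1, 6), (2, 1), (2, 3), (3, 2), (3, 5), (4, 6), (4,
      7), (5, 1), (5, 3), (6, 1), (6, 4), (7, 4), (7, 8), (8, 7), (8, 9), (9, 0), (9, 8)]
    lev := [] }
  links := [[1, 7, 8, 9], [7, 0, 9, 10, 2, 3, 11, 4], [3, 1, 10, 12], [11, 1, 2, 12, 6, 13], [7, 1, 11,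
    14, 15, 5], [7, 4, 15, 16], [13, 3, 12, 8]]
  P := {
    a := 7
    N := 17
    nb := [898, 3741, 5130, 14406, 51362, 98448, 12552, 65843, 12993, 1283, 4614, 24602, 1356, 2376,
      34832, 81968, 32928]
    tri := [(0, 1, 7), (0, 1, 9), (0, 7, 8), (0, 8, 9), (1, 2, 3), (1, 2, 10), (1, 3, 11), (1, 4, 7),
      (1, 4, 11), (1, 9, 10), (2, 3, 12), (2, 10, 12), (3, 6, 12), (3, 6, 13), (3, 11, 13), (4, 5,
      7), (4, 5, 15), (4, 11, 14), (4, 14, 15), (5, 7, 16), (5, 15, 16), (6, 8, 12), (6, 8, 13)]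
    fin := [0, 0, 0, 0, 0, 0, 6, 0, 8, 9, 0, 0, 6, 13, 14, 15, 16]
    chd := [(0, 15), (6, 13)]
    steps := [(0, 1), (0, 2), (0, 3), (0, 4), (0, 5), (0, 7), (0, 10), (0, 11), (6, 12)] }
  rep := [0, 6, 8, 13, 15, 9, 14, 16]

noncomputable def v2009 : Cov.CovD where
  P := 3
  N := 5
  pl := [1, 2, 7, 9]
  lev := [⟨[], [], [], [2, 5], [(0, 0, [4])]⟩,
    ⟨[], [(0, 0)], [(0, 0)], [5], [(0, 0, [4]), (3, 0, [4]), (4, 0, [4])]⟩,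
    ⟨[(0, 1)], [(1, 0), (1, 1)], [(0, 1)], [], [(3, 0, [4]), (5, 1, [3])]⟩,
    ⟨[(0, 1), (1, 2)], [(1, 0), (1, 1), (1, 3), (2, 0), (2, 1), (2, 3)], [(0, 1), (0, 3),
      (1, 3)], [], [(4, 0, [4]), (5, 1, [3]), (6, 3, [1])]⟩,
    ⟨[(0, 1), (1, 2), (1, 3)], [(0, 0), (1, 0), (1, 4), (3, 0)], [(0, 0), (0, 4)], [6],
      [(0, 0, [4]), (4, 0, [4]), (8, 4, [0])]⟩,
    ⟨[(1, 4)], [(0, 0), (1, 0), (4, 0), (4, 4)], [(0, 4)], [7], [(0, 0, [4]), (8, 4, [0])]⟩,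
    ⟨[(1, 3), (2, 3)], [(2, 1), (3, 0), (3, 1), (3, 3)], [(1, 3)], [2], [(5, 1, [3]), (6,
      3, [1])]⟩]
  Ta := [((0, 1), 0, 2), ((0, 9), 0, 7), ((3, 2), 0, 5), ((3, 5), 0, 1), ((4, 6), 0, 3), ((4, 7),
    0, 6)]
  Tb := [((0, 1, 9), 0, 2, 7), ((1, 0, 2), 2, 0, 5), ((1, 0, 5), 2, 0, 1), ((1, 0, 6), 2, 0, 3),
    ((1, 2, 5), 2, 5, 1), ((1, 2, 6), 2, 5, 3), ((1, 5, 6), 2, 1, 3), ((2, 1, 3), 5, 2, 0),
    ((3, 2, 5), 0, 5, 1), ((4, 6, 7), 0, 3, 6), ((5, 1, 3), 1, 2, 0), ((6, 1, 4), 3, 2, 0),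
    ((7, 4, 8), 6, 0, 4), ((8, 7, 9), 4, 6, 7), ((9, 0, 8), 7, 0, 4)]
  Tc := []
  Td := [((0, 4), (0, 1), 2), ((0, 4), (0, 9), 7), ((0, 4), (3, 2), 5), ((0, 4), (3, 5), 1), ((0,
    4), (4, 6), 3), ((0, 4), (4, 7), 6), ((1, 3), (5, 1), 2), ((1, 3), (5, 3), 0), ((3, 1),
    (6, 1), 2), ((3, 1), (6, 4), 0), ((4, 0), (8, 7), 6), ((4, 0), (8, 9), 7)]
  G := [[0, 0, 0xc8cec88e61444466458cccecccea184cccecccec182e,
    0xccce214cccecccec18accce218cccecccec146c,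
    0x111e111e688c454111e8888e82888ee58c111e2888e258111e111ec111e111ecc86a], [0,
    0x41416814628181a418a4a8181a4141aa2414814686c, 0, 0x112c1816548c1c1a184cccecccec142d,
    0x11111e681816548111e11c8181c582111e111ea4811e811ea8c4b], [0, 0, 0,
    0x4124181281a112412c12188e118ec441e444ecc12d,
    0x11519364481481c8181c11911cc42888e888ea111e111eac14b]]

noncomputable def n2009 : Ent := ⟨e2009, noF, [], [], [(8, 16, [1580044410770988437309982408355971841652082177953823432505697337345, 0])]⟩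

def c2009 : PLift (Cov.check n2009.C.D v2009 = true) := ⟨by decide +kernel⟩

def b2009 : PLift (entF (fidx ts) 400 2009 n2009 = true) := ⟨by decide +kernel⟩

theorem g2009 : GoodF (fidx ts) 400 2009 := GoodF.ofV v2009 n2009 c2009.down b2009.down

/-- 4846644:1710/3 -/
noncomputable def e2010 : SCfg where
  D := {
    a := 7
    L := 10
    kp := 7
    inn := [(0, 1), (1, 0), (1, 2), (1, 3), (1, 4), (2, 1), (2, 3), (3, 1), (3, 2), (3, 6), (4, 1), (4,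
      5), (5, 4), (6, 3)]
    mix := [(0, 0), (0, 1), (0, 2), (1, 0), (1, 2), (1, 3), (1, 4), (2, 3), (2, 5), (3, 4), (3, 5), (3,
      6), (4, 0), (4, 4), (4, 7), (4, 8), (5, 0), (5, 1), (5, 8), (6, 5), (6, 6), (6, 9)]
    cl := [0, 1, 2, 0, 0, 3, 4, 6, 5, 7]
    chq := [(1, 6), (3, 4), (4, 3), (6, 1)]
    rng := [(0, 1), (1, 0), (1, 2), (1, 8), (2, 1), (2, 3), (3, 2), (3, 5), (4, 6), (4, 7), (5, 3), (5,
      9), (6, 4), (6, 9), (7, 4), (7, 8), (8, 1), (8, 7), (9, 5), (9, 6)]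
    lev := [] }
  links := [[1, 7, 8, 9], [7, 0, 9, 10, 2, 3, 11, 4], [3, 1, 10, 12], [11, 1, 2, 12, 6, 13], [7, 1, 11,
    14, 15, 5], [7, 4, 15, 8], [13, 3, 12, 16]]
  P := {
    a := 7
    N := 17
    nb := [898, 3741, 5130, 14406, 51362, 33168, 77832, 307, 33441, 1283, 4614, 24602, 66636, 67656,
      34832, 16688, 12352]
    tri := [(0, 1, 7), (0, 1, 9), (0, 7, 8), (0, 8, 9), (1, 2, 3), (1, 2, 10), (1, 3, 11), (1, 4, 7),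
      (1, 4, 11), (1, 9, 10), (2, 3, 12), (2, 10, 12), (3, 6, 12), (3, 6, 13), (3, 11, 13), (4, 5,
      7), (4, 5, 15), (4, 11, 14), (4, 14, 15), (5, 7, 8), (5, 8, 15), (6, 12, 16), (6, 13, 16)]
    fin := [0, 0, 0, 0, 4, 4, 6, 0, 4, 9, 0, 0, 6, 13, 14, 15, 16]
    chd := [(4, 14), (6, 13)]
    steps := [(0, 1), (0, 2), (0, 3), (0, 7), (0, 10), (0, 11), (4, 5), (4, 8), (6, 12)] }
  rep := [0, 4, 9, 6, 13, 15, 14, 16]

noncomputable def v2010 : Cov.CovD where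
  P := 3
  N := 5
  pl := [2, 8, 9]
  lev := [⟨[], [], [(0, 1)], [2], [(0, 0, []), (1, 1, [6])]⟩,
    ⟨[], [(0, 0), (0, 1)], [(0, 0)], [2], [(0, 0, []), (3, 0, []), (4, 0, [])]⟩,
    ⟨[(0, 1)], [(1, 0), (1, 3)], [(0, 3)], [], [(3, 0, []), (5, 3, [4])]⟩,
    ⟨[(0, 1), (1, 2)], [(1, 0), (1, 3), (1, 4), (2, 0), (2, 3), (2, 4)], [(0, 3), (0, 4),
      (3, 4)], [], [(4, 0, []), (5, 3, [4]), (6, 4, [3])]⟩,
    ⟨[(0, 1), (1, 2), (1, 3)], [(0, 0), (1, 0), (1, 6), (3, 0)], [(0, 0), (0, 6)], [5],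
      [(0, 0, []), (4, 0, []), (7, 6, [1])]⟩,
    ⟨[(1, 4)], [(0, 0), (0, 1), (1, 0), (4, 0), (4, 1), (4, 6)], [(0, 1)], [5], [(0, 0,
      []), (1, 1, [6])]⟩,
    ⟨[(1, 3), (2, 3)], [(2, 3), (3, 0), (3, 3), (3, 4)], [(3, 4)], [7], [(5, 3, [4]), (6,
      4, [3])]⟩]
  Ta := [((0, 1), 0, 1), ((3, 2), 0, 2), ((3, 5), 0, 3), ((4, 6), 0, 4), ((4, 7), 0, 6)]
  Tb := [((1, 0, 2), 1, 0, 2), ((1, 0, 8), 1, 0, 5), ((1, 2, 8), 1, 2, 5), ((2, 1, 3), 2, 1, 0),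
    ((3, 2, 5), 0, 2, 3), ((4, 6, 7), 0, 4, 6), ((5, 3, 9), 3, 0, 7), ((6, 4, 9), 4, 0, 7),
    ((7, 4, 8), 6, 0, 5), ((8, 1, 7), 5, 1, 6), ((9, 5, 6), 7, 3, 4)]
  Tc := []
  Td := [((1, 6), (1, 0), 0), ((1, 6), (1, 2), 2), ((1, 6), (1, 8), 5), ((3, 4), (5, 3), 0), ((3,
    4), (5, 9), 7), ((4, 3), (6, 4), 0), ((4, 3), (6, 9), 7), ((6, 1), (7, 4), 0), ((6, 1),
    (7, 8), 5)]
  G := [[0, 0x844114421445565452e244eb9892a3832aa1c4, 0, 0x55c233c26199c281c8,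
    0x5455c63833c6612881989499ce588188e3a8], [0, 0,
    0x1111115ec4c4c1e5141111cea1a1aa9e3611115a8811488e4, 0x9152229264c529992661192eec298c8,
    0xb1c2cec23143419ce243bca6c4c21414ce4e4c7e181411ce4844cc88a4c8ca1], [0, 0, 0,
    0x5592335261999281c8, 0x545163831661834821989499ce588c1a9]]

noncomputable def n2010 : Ent := ⟨e2010, noF, [], [], [(8, 16, [1580044410770988437309982408355971841652082177953823432505697337345, 0])]⟩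

def c2010 : PLift (Cov.check n2010.C.D v2010 = true) := ⟨by decide +kernel⟩

def b2010 : PLift (entF (fidx ts) 400 2010 n2010 = true) := ⟨by decide +kernel⟩

theorem g2010 : GoodF (fidx ts) 400 2010 := GoodF.ofV v2010 n2010 c2010.down b2010.down

/-- 4846644:1710/4 -/
noncomputable def e2011 : SCfg where
  D := {
    a := 7
    L := 10
    kp := 7
    inn := [(0, 1), (1, 0), (1, 2), (1, 3), (1, 4), (2, 1), (2, 3), (3, 1), (3, 2), (3, 6), (4, 1), (4,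
      5), (5, 4), (6, 3)]
    mix := [(0, 0), (0, 1), (0, 2), (1, 0), (1, 2), (1, 3), (1, 4), (2, 3), (2, 5), (3, 4), (3, 5), (3,
      6), (4, 0), (4, 4), (4, 7), (4, 8), (5, 0), (5, 8), (5, 9), (6, 5), (6, 6), (6, 9)]
    cl := [0, 7, 2, 0, 0, 3, 4, 6, 5, 1]
    chq := [(1, 6), (3, 4), (4, 3), (6, 1)]
    rng := [(0, 1), (0, 9), (1, 0), (1, 2), (2, 1), (2, 3), (3, 2), (3, 5), (4, 6), (4, 7), (5, 3), (5,
      9), (6, 4), (6, 9), (7, 4), (7, 8), (8, 7), (8, 9), (9, 0), (9, 5), (9, 6), (9, 8)]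
    lev := [] }
  links := [[1, 7, 8, 9], [7, 0, 9, 10, 2, 3, 11, 4], [3, 1, 10, 12], [11, 1, 2, 12, 6, 13], [7, 1, 11,
    14, 15, 5], [7, 4, 15, 16], [13, 3, 12, 16]]
  P := {
    a := 7
    N := 17
    nb := [898, 3741, 5130, 14406, 51362, 98448, 77832, 65843, 641, 1283, 4614, 24602, 66636, 67656,
      34832, 81968, 45280]
    tri := [(0, 1, 7), (0, 1, 9), (0, 7, 8), (0, 8, 9), (1, 2, 3), (1, 2, 10), (1, 3, 11), (1, 4, 7),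
      (1, 4, 11), (1, 9, 10), (2, 3, 12), (2, 10, 12), (3, 6, 12), (3, 6, 13), (3, 11, 13), (4, 5,
      7), (4, 5, 15), (4, 11, 14), (4, 14, 15), (5, 7, 16), (5, 15, 16), (6, 12, 16), (6, 13, 16)]
    fin := [0, 0, 0, 0, 4, 4, 6, 0, 8, 9, 0, 0, 6, 13, 14, 15, 4]
    chd := [(6, 13), (14, 4)]
    steps := [(0, 1), (0, 2), (0, 3), (0, 7), (0, 10), (0, 11), (4, 5), (4, 16), (6, 12)] }
  rep := [0, 4, 9, 6, 13, 15, 14, 8]

noncomputable def v2011 : Cov.CovD where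
  P := 3
  N := 5
  pl := [1, 2, 8]
  lev := [⟨[], [], [], [2, 7], [(0, 0, [])]⟩,
    ⟨[], [(0, 0)], [(0, 0)], [2], [(0, 0, []), (3, 0, []), (4, 0, [])]⟩,
    ⟨[(0, 1)], [(1, 0), (1, 3)], [(0, 3)], [], [(3, 0, []), (5, 3, [4])]⟩,
    ⟨[(0, 1), (1, 2)], [(1, 0), (1, 3), (1, 4), (2, 0), (2, 3), (2, 4)], [(0, 3), (0, 4),
      (3, 4)], [], [(4, 0, []), (5, 3, [4]), (6, 4, [3])]⟩,
    ⟨[(0, 1), (1, 2), (1, 3)], [(0, 0), (1, 0), (1, 6), (3, 0)], [(0, 0), (0, 6)], [5],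
      [(0, 0, []), (4, 0, []), (7, 6, [1])]⟩,
    ⟨[(1, 4)], [(0, 0), (1, 0), (4, 0), (4, 1), (4, 6)], [(0, 1)], [5], [(0, 0, []), (9, 1,
      [6])]⟩,
    ⟨[(1, 3), (2, 3)], [(2, 3), (3, 0), (3, 1), (3, 3), (3, 4), (5, 1)], [(1, 3), (1, 4),
      (3, 4)], [], [(5, 3, [4]), (6, 4, [3]), (9, 1, [6])]⟩]
  Ta := [((0, 1), 0, 7), ((0, 9), 0, 1), ((3, 2), 0, 2), ((3, 5), 0, 3), ((4, 6), 0, 4), ((4, 7),
    0, 6)]
  Tb := [((0, 1, 9), 0, 7, 1), ((1, 0, 2), 7, 0, 2), ((2, 1, 3), 2, 7, 0), ((3, 2, 5), 0, 2, 3),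
    ((4, 6, 7), 0, 4, 6), ((5, 3, 9), 3, 0, 1), ((6, 4, 9), 4, 0, 1), ((7, 4, 8), 6, 0, 5),
    ((8, 7, 9), 5, 6, 1), ((9, 0, 5), 1, 0, 3), ((9, 0, 6), 1, 0, 4), ((9, 0, 8), 1, 0, 5),
    ((9, 5, 6), 1, 3, 4), ((9, 5, 8), 1, 3, 5), ((9, 6, 8), 1, 4, 5)]
  Tc := []
  Td := [((1, 6), (9, 0), 0), ((1, 6), (9, 5), 3), ((1, 6), (9, 6), 4), ((1, 6), (9, 8), 5), ((3,
    4), (5, 3), 0), ((3, 4), (5, 9), 1), ((4, 3), (6, 4), 0), ((4, 3), (6, 9), 1), ((6, 1),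
    (7, 4), 0), ((6, 1), (7, 8), 5)]
  G := [[0, 0xc4c261a4a2616a8816881cc8482614442624469c8816822a1acc, 0,
    0x88c211c2181811cee1411c211c2141811cee18c, 0x11c22188c214c21814ce1a11c211c2141811cee18a],
    [0, 0, 0x8892144c21181811e2e48852111924141411e2e8c, 0x88c244c29d8d855ce88c23641,
    0xccc2144c2d4d499ce6a81], [0, 0, 0, 0x11c244c2d4d499cee181, 0x11c244c2d4d499cee181]]

noncomputable def n2011 : Ent := ⟨e2011, noF, [], [], [(8, 16, [1580044410770988437309982408355971841652082177953823432505697337345, 0])]⟩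

def c2011 : PLift (Cov.check n2011.C.D v2011 = true) := ⟨by decide +kernel⟩

def b2011 : PLift (entF (fidx ts) 400 2011 n2011 = true) := ⟨by decide +kernel⟩

theorem g2011 : GoodF (fidx ts) 400 2011 := GoodF.ofV v2011 n2011 c2011.down b2011.down

/-- 4846644:1710 -/
noncomputable def e2012 : SCfg where
  D := {
    a := 7
    L := 11
    kp := 8
    inn := [(0, 1), (1, 0), (1, 2), (1, 3), (1, 4), (2, 1), (2, 3), (3, 1), (3, 2), (3, 6), (4, 1), (4,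
      5), (5, 4), (6, 3)]
    mix := [(0, 0), (0, 1), (0, 2), (1, 0), (1, 2), (1, 3), (1, 4), (2, 3), (2, 5), (3, 4), (3, 5), (3,
      6), (4, 0), (4, 4), (4, 7), (4, 8), (5, 0), (5, 8), (5, 9), (6, 5), (6, 6), (6, 10)]
    cl := [0, 7, 2, 0, 0, 3, 1, 5, 4, 6, 8]
    chq := [(1, 3), (3, 1), (5, 6), (6, 5)]
    rng := [(0, 1), (0, 9), (1, 0), (1, 2), (2, 1), (2, 3), (3, 2), (3, 5), (4, 6), (4, 7), (5, 3), (5,
      10), (6, 4), (6, 10), (7, 4), (7, 8), (8, 7), (8, 9), (9, 0), (9, 8), (10, 5), (10, 6)]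
    lev := [] }
  links := [[1, 7, 8, 9], [7, 0, 9, 10, 2, 3, 11, 4], [3, 1, 10, 12], [11, 1, 2, 12, 6, 13], [7, 1, 11,
    14, 15, 5], [7, 4, 15, 16], [13, 3, 12, 17]]
  P := {
    a := 7
    N := 18
    nb := [898, 3741, 5130, 14406, 51362, 98448, 143368, 65843, 641, 1283, 4614, 24602, 132172,
      133192, 34832, 81968, 32928, 12352]
    tri := [(0, 1, 7), (0, 1, 9), (0, 7, 8), (0, 8, 9), (1, 2, 3), (1, 2, 10), (1, 3, 11), (1, 4, 7),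
      (1, 4, 11), (1, 9, 10), (2, 3, 12), (2, 10, 12), (3, 6, 12), (3, 6, 13), (3, 11, 13), (4, 5,
      7), (4, 5, 15), (4, 11, 14), (4, 14, 15), (5, 7, 16), (5, 15, 16), (6, 12, 17), (6, 13, 17)]
    fin := [0, 0, 0, 0, 4, 4, 6, 0, 8, 9, 0, 0, 6, 13, 4, 15, 16, 17]
    chd := [(4, 16), (6, 13)]
    steps := [(0, 1), (0, 2), (0, 3), (0, 7), (0, 10), (0, 11), (4, 5), (4, 14), (6, 12)] }
  rep := [0, 13, 9, 6, 15, 4, 16, 8, 17]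

noncomputable def v2012 : Cov.CovD where
  P := 3
  N := 6
  pl := [1, 2, 8, 10]
  lev := [⟨[], [], [], [2, 7], [(0, 0, [])]⟩,
    ⟨[], [(0, 0)], [(0, 0)], [2], [(0, 0, []), (3, 0, []), (4, 0, [])]⟩,
    ⟨[(0, 1)], [(1, 0), (1, 3)], [(0, 3)], [], [(3, 0, []), (5, 3, [1])]⟩,
    ⟨[(0, 1), (1, 2)], [(1, 0), (1, 1), (1, 3), (2, 0), (2, 1), (2, 3)], [(0, 1), (0, 3),
      (1, 3)], [], [(4, 0, []), (5, 3, [1]), (6, 1, [3])]⟩,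
    ⟨[(0, 1), (1, 2), (1, 3)], [(0, 0), (1, 0), (1, 5), (3, 0)], [(0, 0), (0, 5)], [4],
      [(0, 0, []), (4, 0, []), (7, 5, [6])]⟩,
    ⟨[(1, 4)], [(0, 0), (1, 0), (4, 0), (4, 5), (4, 6)], [(0, 6)], [4], [(0, 0, []), (9, 6,
      [5])]⟩,
    ⟨[(1, 3), (2, 3)], [(2, 3), (3, 0), (3, 1), (3, 3)], [(1, 3)], [8], [(5, 3, [1]), (6,
      1, [3])]⟩]
  Ta := [((0, 1), 0, 7), ((0, 9), 0, 6), ((3, 2), 0, 2), ((3, 5), 0, 3), ((4, 6), 0, 1), ((4, 7),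
    0, 5)]
  Tb := [((0, 1, 9), 0, 7, 6), ((1, 0, 2), 7, 0, 2), ((2, 1, 3), 2, 7, 0), ((3, 2, 5), 0, 2, 3),
    ((4, 6, 7), 0, 1, 5), ((5, 3, 10), 3, 0, 8), ((6, 4, 10), 1, 0, 8), ((7, 4, 8), 5, 0, 4),
    ((8, 7, 9), 4, 5, 6), ((9, 0, 8), 6, 0, 4), ((10, 5, 6), 8, 3, 1)]
  Tc := []
  Td := [((1, 3), (6, 4), 0), ((1, 3), (6, 10), 8), ((3, 1), (5, 3), 0), ((3, 1), (5, 10), 8),
    ((5, 6), (7, 4), 0), ((5, 6), (7, 8), 4), ((6, 5), (9, 0), 0), ((6, 5), (9, 8), 4)]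
  G := [[0, 0, 0, 0x55a488a44c6524c68191611a99ce11611cac3c11a415651a55ce8ca4d299699ca44892cc,
    0x99699a99ce55655a55cec1211611a11ce411a11c6cc6ccaccce96116881aa], [0, 0,
    0x11a44145c284cd616116884181cc11a1165151114dec86c8cd2891911997e11611ac24e,
    0x14255655a55cec299699a98ce82c1, 0xdd6ddaddce4211611a11ce88688a88ce98a1], [0,
    0xcc6ccaccceaa6aaaaace6181, 0, 0x54655a55ce4199699a99ce128c1c1,
    0x99699a99ce55655a55cec121]]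

noncomputable def n2012 : Ent := ⟨e2012, noF, [], [], [(8, 17, [6903326391201334775872065844685381424292761054348340378595029937917953, 0]), (8, 16, [7334685537875745012586738086077695515070955365108989538292687701909505, 0]), (17, 16, [7334685537875745012586738086077695515070955365108989538292687701913601, 0])]⟩

def c2012 : PLift (Cov.check n2012.C.D v2012 = true) := ⟨by decide +kernel⟩

def b2012 : PLift (entF (fidx ts) 400 2012 n2012 = true) := ⟨by decide +kernel⟩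

theorem g2012 : GoodF (fidx ts) 400 2012 := GoodF.ofV v2012 n2012 c2012.down b2012.down

/-- 4846644:1712/2 -/
noncomputable def e2013 : SCfg where
  D := {
    a := 7
    L := 9
    kp := 6
    inn := [(0, 1), (1, 0), (1, 2), (1, 3), (1, 4), (2, 1), (2, 3), (3, 1), (3, 2), (3, 5), (4, 1), (4,
      6), (5, 3), (6, 4)]
    mix := [(0, 0), (0, 1), (0, 2), (1, 0), (1, 2), (1, 3), (1, 4), (2, 3), (2, 5), (3, 4), (3, 5), (3,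
      6), (4, 0), (4, 4), (4, 7), (4, 8), (5, 1), (5, 5), (5, 6), (6, 4), (6, 6), (6, 7)]
    cl := [0, 4, 5, 0, 0, 1, 2, 3, 6]
    chq := [(0, 3), (1, 2), (2, 1), (3, 0)]
    rng := [(0, 1), (0, 8), (1, 0), (1, 2), (1, 5), (1, 6), (2, 1), (2, 3), (3, 2), (3, 5), (4, 6), (5,
      1), (5, 3), (6, 1), (6, 4), (6, 7), (7, 6), (7, 8), (8, 0), (8, 7)]
    lev := [] }
  links := [[1, 7, 8, 9], [7, 0, 9, 10, 2, 3, 11, 4], [3, 1, 10, 12], [11, 1, 2, 12, 5, 13], [7, 1, 11,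
    6, 14, 15], [13, 3, 12, 8], [14, 4, 11, 13]]
  P := {
    a := 7
    N := 16
    nb := [898, 3741, 5130, 14374, 51394, 12552, 26640, 33043, 12961, 1283, 4614, 8282, 1324, 18792,
      41040, 16528]
    tri := [(0, 1, 7), (0, 1, 9), (0, 7, 8), (0, 8, 9), (1, 2, 3), (1, 2, 10), (1, 3, 11), (1, 4, 7),
      (1, 4, 11), (1, 9, 10), (2, 3, 12), (2, 10, 12), (3, 5, 12), (3, 5, 13), (3, 11, 13), (4, 6,
      11), (4, 6, 14), (4, 7, 15), (4, 14, 15), (5, 8, 12), (5, 8, 13), (6, 11, 13), (6, 13, 14)]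
    fin := [0, 0, 0, 0, 0, 5, 0, 0, 8, 9, 0, 0, 5, 13, 14, 15]
    chd := [(0, 14), (5, 13)]
    steps := [(0, 1), (0, 2), (0, 3), (0, 4), (0, 7), (0, 10), (0, 11), (0, 6), (5, 12)] }
  rep := [0, 5, 13, 14, 8, 9, 15]

noncomputable def v2013 : Cov.CovD where
  P := 3
  N := 4
  pl := [1, 2, 8]
  lev := [⟨[], [], [], [4, 5], [(0, 0, [3])]⟩,
    ⟨[], [(0, 0)], [(0, 0)], [5], [(0, 0, [3]), (3, 0, [3]), (4, 0, [3])]⟩,
    ⟨[(0, 1)], [(1, 0), (1, 1)], [(0, 1)], [], [(3, 0, [3]), (5, 1, [2])]⟩,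
    ⟨[(0, 1), (1, 2)], [(1, 0), (1, 1), (1, 2), (2, 0), (2, 1), (2, 2)], [(0, 1), (0, 2),
      (1, 2)], [], [(4, 0, [3]), (5, 1, [2]), (6, 2, [1])]⟩,
    ⟨[(0, 1), (1, 2), (1, 3)], [(0, 0), (1, 0), (1, 3), (3, 0)], [(0, 0), (0, 3)], [6],
      [(0, 0, [3]), (4, 0, [3]), (7, 3, [0])]⟩,
    ⟨[(1, 3), (2, 3)], [(2, 1), (3, 0), (3, 1), (3, 2)], [(1, 2)], [4], [(5, 1, [2]), (6,
      2, [1])]⟩,
    ⟨[(1, 4)], [(1, 0), (3, 0), (3, 2), (4, 0), (4, 2), (4, 3), (5, 2)], [(0, 2), (0, 3),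
      (2, 3)], [], [(4, 0, [3]), (6, 2, [1]), (7, 3, [0])]⟩]
  Ta := [((0, 1), 0, 4), ((0, 8), 0, 6), ((3, 2), 0, 5), ((3, 5), 0, 1), ((4, 6), 0, 2)]
  Tb := [((0, 1, 8), 0, 4, 6), ((1, 0, 2), 4, 0, 5), ((1, 0, 5), 4, 0, 1), ((1, 0, 6), 4, 0, 2),
    ((1, 2, 5), 4, 5, 1), ((1, 2, 6), 4, 5, 2), ((1, 5, 6), 4, 1, 2), ((2, 1, 3), 5, 4, 0),
    ((3, 2, 5), 0, 5, 1), ((5, 1, 3), 1, 4, 0), ((6, 1, 4), 2, 4, 0), ((6, 1, 7), 2, 4, 3),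
    ((6, 4, 7), 2, 0, 3), ((7, 6, 8), 3, 2, 6), ((8, 0, 7), 6, 0, 3)]
  Tc := []
  Td := [((0, 3), (0, 1), 4), ((0, 3), (0, 8), 6), ((0, 3), (3, 2), 5), ((0, 3), (3, 5), 1), ((0,
    3), (4, 6), 2), ((1, 2), (5, 1), 4), ((1, 2), (5, 3), 0), ((2, 1), (6, 1), 4), ((2, 1),
    (6, 4), 0), ((2, 1), (6, 7), 3), ((3, 0), (7, 6), 2), ((3, 0), (7, 8), 6)]
  G := [[0, 0, 0, 0x281864121884c414482414a81c1124818248885145c88ee,
    0xa8286141188888881e114818121a8889818481e112811828181a1c81ee], [0,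
    0x18c11c11ce8281c44c11ce4861, 0, 0x112848141c44641916118c483,
    0x813111e882112168481888a8111c82128c4b], [0, 0, 0x44c22c64188c22ca8188c44cc48e1,
    0x8121c1e888121c1e4861, 0x2128181a121e8881a1c84e1]]

noncomputable def n2013 : Ent := ⟨e2013, noF, [], [], []⟩

def c2013 : PLift (Cov.check n2013.C.D v2013 = true) := ⟨by decide +kernel⟩

def b2013 : PLift (entF (fidx ts) 400 2013 n2013 = true) := ⟨by decide +kernel⟩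

theorem g2013 : GoodF (fidx ts) 400 2013 := GoodF.ofV v2013 n2013 c2013.down b2013.down

/-- 4846644:1712/1 -/
noncomputable def e2014 : SCfg where
  D := {
    a := 7
    L := 10
    kp := 7
    inn := [(0, 1), (1, 0), (1, 2), (1, 3), (1, 4), (2, 1), (2, 3), (3, 1), (3, 2), (3, 5), (4, 1), (4,
      6), (5, 3), (6, 4)]
    mix := [(0, 0), (0, 1), (0, 2), (1, 0), (1, 2), (1, 3), (1, 4), (2, 3), (2, 5), (3, 4), (3, 5), (3,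
      6), (4, 0), (4, 4), (4, 7), (4, 8), (5, 1), (5, 5), (5, 6), (6, 4), (6, 7), (6, 9)]
    cl := [0, 4, 5, 0, 0, 1, 2, 3, 6, 7]
    chq := [(0, 3), (1, 2), (2, 1), (3, 0)]
    rng := [(0, 1), (0, 8), (1, 0), (1, 2), (1, 5), (1, 6), (2, 1), (2, 3), (3, 2), (3, 5), (4, 6), (4,
      9), (5, 1), (5, 3), (6, 1), (6, 4), (7, 8), (7, 9), (8, 0), (8, 7), (9, 4), (9, 7)]
    lev := [] }
  links := [[1, 7, 8, 9], [7, 0, 9, 10, 2, 3, 11, 4], [3, 1, 10, 12], [11, 1, 2, 12, 5, 13], [7, 1, 11,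
    6, 14, 15], [13, 3, 12, 8], [14, 4, 11, 16]]
  P := {
    a := 7
    N := 17
    nb := [898, 3741, 5130, 14374, 51394, 12552, 83984, 33043, 12961, 1283, 4614, 73818, 1324, 2344,
      98384, 16528, 18496]
    tri := [(0, 1, 7), (0, 1, 9), (0, 7, 8), (0, 8, 9), (1, 2, 3), (1, 2, 10), (1, 3, 11), (1, 4, 7),
      (1, 4, 11), (1, 9, 10), (2, 3, 12), (2, 10, 12), (3, 5, 12), (3, 5, 13), (3, 11, 13), (4, 6,
      11), (4, 6, 14), (4, 7, 15), (4, 14, 15), (5, 8, 12), (5, 8, 13), (6, 11, 16), (6, 14, 16)]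
    fin := [0, 0, 0, 0, 0, 5, 0, 0, 8, 9, 0, 0, 5, 13, 14, 15, 16]
    chd := [(0, 14), (5, 13)]
    steps := [(0, 1), (0, 2), (0, 3), (0, 4), (0, 6), (0, 7), (0, 10), (0, 11), (5, 12)] }
  rep := [0, 5, 13, 14, 8, 9, 15, 16]

noncomputable def v2014 : Cov.CovD where
  P := 3
  N := 5
  pl := [1, 2, 8, 9]
  lev := [⟨[], [], [], [4, 5], [(0, 0, [3])]⟩,
    ⟨[], [(0, 0)], [(0, 0)], [5], [(0, 0, [3]), (3, 0, [3]), (4, 0, [3])]⟩,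
    ⟨[(0, 1)], [(1, 0), (1, 1)], [(0, 1)], [], [(3, 0, [3]), (5, 1, [2])]⟩,
    ⟨[(0, 1), (1, 2)], [(1, 0), (1, 1), (1, 2), (2, 0), (2, 1), (2, 2)], [(0, 1), (0, 2),
      (1, 2)], [], [(4, 0, [3]), (5, 1, [2]), (6, 2, [1])]⟩,
    ⟨[(0, 1), (1, 2), (1, 3)], [(0, 0), (1, 0), (1, 3), (3, 0)], [(0, 0), (0, 3)], [6],
      [(0, 0, [3]), (4, 0, [3]), (7, 3, [0])]⟩,
    ⟨[(1, 3), (2, 3)], [(2, 1), (3, 0), (3, 1), (3, 2)], [(1, 2)], [4], [(5, 1, [2]), (6,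
      2, [1])]⟩,
    ⟨[(1, 4)], [(1, 0), (3, 0), (4, 0), (4, 3)], [(0, 3)], [7], [(4, 0, [3]), (7, 3, [0])]⟩]
  Ta := [((0, 1), 0, 4), ((0, 8), 0, 6), ((3, 2), 0, 5), ((3, 5), 0, 1), ((4, 6), 0, 2), ((4, 9),
    0, 7)]
  Tb := [((0, 1, 8), 0, 4, 6), ((1, 0, 2), 4, 0, 5), ((1, 0, 5), 4, 0, 1), ((1, 0, 6), 4, 0, 2),
    ((1, 2, 5), 4, 5, 1), ((1, 2, 6), 4, 5, 2), ((1, 5, 6), 4, 1, 2), ((2, 1, 3), 5, 4, 0),
    ((3, 2, 5), 0, 5, 1), ((4, 6, 9), 0, 2, 7), ((5, 1, 3), 1, 4, 0), ((6, 1, 4), 2, 4, 0),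
    ((7, 8, 9), 3, 6, 7), ((8, 0, 7), 6, 0, 3), ((9, 4, 7), 7, 0, 3)]
  Tc := []
  Td := [((0, 3), (0, 1), 4), ((0, 3), (0, 8), 6), ((0, 3), (3, 2), 5), ((0, 3), (3, 5), 1), ((0,
    3), (4, 6), 2), ((0, 3), (4, 9), 7), ((1, 2), (5, 1), 4), ((1, 2), (5, 3), 0), ((2, 1),
    (6, 1), 4), ((2, 1), (6, 4), 0), ((3, 0), (7, 8), 6), ((3, 0), (7, 9), 7)]
  G := [[0, 0, 0, 0x3858641e8818c544413494a81c11244112821b91d9c84ee,
    0xe8e86141188118884e114841e9179a8118484e1128111288b1e1c84ee], [0,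
    0x11c8811c11c68611c11c11ce4861, 0, 0x3145191ac2411e1b1e4283,
    0x385891e842912845131c84ab19131e884b], [0, 0, 0xceceec648eeca8eece81eec6ecc84e1,
    0xe1e1641e1e1a82e1e1c81e1, 0xe1e1681e1e1a88e1e1c81e1]]

noncomputable def n2014 : Ent := ⟨e2014, noF, [], [], [(13, 16, [1580044410770988437309982408355971841652082177953823432505697357825, 0])]⟩

def c2014 : PLift (Cov.check n2014.C.D v2014 = true) := ⟨by decide +kernel⟩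

def b2014 : PLift (entF (fidx ts) 400 2014 n2014 = true) := ⟨by decide +kernel⟩

theorem g2014 : GoodF (fidx ts) 400 2014 := GoodF.ofV v2014 n2014 c2014.down b2014.down

/-- 4846644:1712/4 -/
noncomputable def e2015 : SCfg where
  D := {
    a := 7
    L := 9
    kp := 6
    inn := [(0, 1), (1, 0), (1, 2), (1, 3), (1, 4), (2, 1), (2, 3), (3, 1), (3, 2), (3, 5), (4, 1), (4,
      6), (5, 3), (6, 4)]
    mix := [(0, 0), (0, 1), (0, 2), (1, 0), (1, 2), (1, 3), (1, 4), (2, 3), (2, 5), (3, 4), (3, 5), (3,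
      6), (4, 0), (4, 4), (4, 7), (4, 8), (5, 5), (5, 6), (5, 7), (6, 4), (6, 6), (6, 7)]
    cl := [0, 6, 2, 0, 0, 1, 3, 4, 5]
    chq := [(0, 4), (3, 5), (4, 0), (5, 3)]
    rng := [(0, 1), (0, 8), (1, 0), (1, 2), (2, 1), (2, 3), (3, 2), (3, 5), (4, 6), (5, 3), (5, 7), (6,
      4), (6, 7), (7, 5), (7, 6), (7, 8), (8, 0), (8, 7)]
    lev := [] }
  links := [[1, 7, 8, 9], [7, 0, 9, 10, 2, 3, 11, 4], [3, 1, 10, 12], [11, 1, 2, 12, 5, 13], [7, 1, 11,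
    6, 14, 15], [13, 3, 12, 14], [14, 4, 11, 13]]
  P := {
    a := 7
    N := 16
    nb := [898, 3741, 5130, 14374, 51394, 28680, 26640, 33043, 641, 1283, 4614, 8282, 17452, 18536,
      45168, 16528]
    tri := [(0, 1, 7), (0, 1, 9), (0, 7, 8), (0, 8, 9), (1, 2, 3), (1, 2, 10), (1, 3, 11), (1, 4, 7),
      (1, 4, 11), (1, 9, 10), (2, 3, 12), (2, 10, 12), (3, 5, 12), (3, 5, 13), (3, 11, 13), (4, 6,
      11), (4, 6, 14), (4, 7, 15), (4, 14, 15), (5, 12, 14), (5, 13, 14), (6, 11, 13), (6, 13,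
      14)]
    fin := [0, 0, 0, 0, 4, 0, 4, 0, 8, 9, 0, 0, 12, 4, 14, 15]
    chd := [(0, 14), (4, 15)]
    steps := [(0, 1), (0, 2), (0, 3), (0, 5), (0, 7), (0, 10), (0, 11), (4, 6), (4, 13)] }
  rep := [0, 12, 9, 4, 14, 15, 8]

noncomputable def v2015 : Cov.CovD where
  P := 3
  N := 4
  pl := [1, 2, 5]
  lev := [⟨[], [], [], [2, 6], [(0, 0, [4])]⟩,
    ⟨[], [(0, 0)], [(0, 0)], [2], [(0, 0, [4]), (3, 0, [4]), (4, 0, [4])]⟩,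
    ⟨[(0, 1)], [(1, 0)], [], [1], [(3, 0, [4])]⟩,
    ⟨[(0, 1), (1, 2)], [(1, 0), (1, 3), (2, 0), (2, 3)], [(0, 3)], [1], [(4, 0, [4]), (6,
      3, [5])]⟩,
    ⟨[(0, 1), (1, 2), (1, 3)], [(0, 0), (1, 0), (1, 4), (1, 5), (3, 0)], [(0, 0), (0, 4),
      (0, 5), (4, 5)], [], [(0, 0, [4]), (4, 0, [4]), (7, 4, [0]), (8, 5, [3])]⟩,
    ⟨[(1, 3), (2, 3)], [(3, 0), (3, 3), (3, 4), (4, 4)], [(3, 4)], [1], [(6, 3, [5]), (7,
      4, [0])]⟩,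
    ⟨[(1, 4)], [(1, 0), (3, 0), (3, 3), (4, 0), (4, 3), (4, 4), (4, 5), (5, 3), (5, 4)],
      [(0, 3), (0, 4), (3, 4)], [], [(4, 0, [4]), (6, 3, [5]), (7, 4, [0])]⟩]
  Ta := [((0, 1), 0, 6), ((0, 8), 0, 5), ((3, 2), 0, 2), ((3, 5), 0, 1), ((4, 6), 0, 3)]
  Tb := [((0, 1, 8), 0, 6, 5), ((1, 0, 2), 6, 0, 2), ((2, 1, 3), 2, 6, 0), ((3, 2, 5), 0, 2, 1),
    ((5, 3, 7), 1, 0, 4), ((6, 4, 7), 3, 0, 4), ((7, 5, 6), 4, 1, 3), ((7, 5, 8), 4, 1, 5),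
    ((7, 6, 8), 4, 3, 5), ((8, 0, 7), 5, 0, 4)]
  Tc := []
  Td := [((0, 4), (0, 1), 6), ((0, 4), (0, 8), 5), ((0, 4), (3, 2), 2), ((0, 4), (3, 5), 1), ((0,
    4), (4, 6), 3), ((3, 5), (6, 4), 0), ((3, 5), (6, 7), 4), ((4, 0), (7, 5), 1), ((4, 0),
    (7, 6), 3), ((4, 0), (7, 8), 5), ((5, 3), (8, 0), 0), ((5, 3), (8, 7), 4)]
  G := [[0, 0, 0, 0x819121e3111a244d84114114121ec48191a81cc,
    0x811181e112141ec8211216214111ec184c814aa], [0, 0x144461818a11682a12ee841,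
    0x881111e112141ec422111648281181e118c4ac, 0x119161121a8824cd841, 0x118161111a84c44cd421],
    [0, 0, 0, 0x4424c64888a1a1e618c1c1, 0x88a188e614444ec121]]

noncomputable def n2015 : Ent := ⟨e2015, noF, [], [], []⟩

def c2015 : PLift (Cov.check n2015.C.D v2015 = true) := ⟨by decide +kernel⟩

def b2015 : PLift (entF (fidx ts) 400 2015 n2015 = true) := ⟨by decide +kernel⟩

theorem g2015 : GoodF (fidx ts) 400 2015 := GoodF.ofV v2015 n2015 c2015.down b2015.down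

/-- 4846644:1712/3 -/
noncomputable def e2016 : SCfg where
  D := {
    a := 7
    L := 10
    kp := 7
    inn := [(0, 1), (1, 0), (1, 2), (1, 3), (1, 4), (2, 1), (2, 3), (3, 1), (3, 2), (3, 5), (4, 1), (4,
      6), (5, 3), (6, 4)]
    mix := [(0, 0), (0, 1), (0, 2), (1, 0), (1, 2), (1, 3), (1, 4), (2, 3), (2, 5), (3, 4), (3, 5), (3,
      6), (4, 0), (4, 4), (4, 7), (4, 8), (5, 5), (5, 6), (5, 7), (6, 4), (6, 7), (6, 9)]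
    cl := [0, 5, 2, 0, 0, 1, 4, 3, 6, 7]
    chq := [(0, 3), (1, 4), (3, 0), (4, 1)]
    rng := [(0, 1), (0, 8), (1, 0), (1, 2), (2, 1), (2, 3), (3, 2), (3, 5), (4, 6), (4, 9), (5, 3), (5,
      7), (6, 4), (6, 7), (7, 5), (7, 6), (7, 8), (7, 9), (8, 0), (8, 7), (9, 4), (9, 7)]
    lev := [] }
  links := [[1, 7, 8, 9], [7, 0, 9, 10, 2, 3, 11, 4], [3, 1, 10, 12], [11, 1, 2, 12, 5, 13], [7, 1, 11,
    6, 14, 15], [13, 3, 12, 14], [14, 4, 11, 16]]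
  P := {
    a := 7
    N := 17
    nb := [898, 3741, 5130, 14374, 51394, 28680, 83984, 33043, 641, 1283, 4614, 73818, 17452, 18472,
      110704, 16528, 18496]
    tri := [(0, 1, 7), (0, 1, 9), (0, 7, 8), (0, 8, 9), (1, 2, 3), (1, 2, 10), (1, 3, 11), (1, 4, 7),
      (1, 4, 11), (1, 9, 10), (2, 3, 12), (2, 10, 12), (3, 5, 12), (3, 5, 13), (3, 11, 13), (4, 6,
      11), (4, 6, 14), (4, 7, 15), (4, 14, 15), (5, 12, 14), (5, 13, 14), (6, 11, 16), (6, 14,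
      16)]
    fin := [0, 0, 0, 0, 0, 5, 0, 0, 8, 9, 0, 0, 5, 13, 14, 15, 16]
    chd := [(0, 14), (5, 13)]
    steps := [(0, 1), (0, 2), (0, 3), (0, 4), (0, 6), (0, 7), (0, 10), (0, 11), (5, 12)] }
  rep := [0, 5, 9, 14, 13, 8, 15, 16]

noncomputable def v2016 : Cov.CovD where
  P := 3
  N := 5
  pl := [1, 2, 8, 9]
  lev := [⟨[], [], [], [2, 5], [(0, 0, [3])]⟩,
    ⟨[], [(0, 0)], [(0, 0)], [2], [(0, 0, [3]), (3, 0, [3]), (4, 0, [3])]⟩,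
    ⟨[(0, 1)], [(1, 0), (1, 1)], [(0, 1)], [], [(3, 0, [3]), (5, 1, [4])]⟩,
    ⟨[(0, 1), (1, 2)], [(1, 0), (1, 1), (1, 4), (2, 0), (2, 1), (2, 4)], [(0, 1), (0, 4),
      (1, 4)], [], [(4, 0, [3]), (5, 1, [4]), (6, 4, [1])]⟩,
    ⟨[(0, 1), (1, 2), (1, 3)], [(0, 0), (1, 0), (1, 3), (3, 0)], [(0, 0), (0, 3)], [6],
      [(0, 0, [3]), (4, 0, [3]), (7, 3, [0])]⟩,
    ⟨[(1, 3), (2, 3)], [(2, 1), (3, 0), (3, 1), (3, 3), (3, 4), (4, 3)], [(1, 3), (1, 4),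
      (3, 4)], [], [(5, 1, [4]), (6, 4, [1]), (7, 3, [0])]⟩,
    ⟨[(1, 4)], [(1, 0), (3, 0), (4, 0), (4, 3), (5, 3)], [(0, 3)], [7], [(4, 0, [3]), (7,
      3, [0])]⟩]
  Ta := [((0, 1), 0, 5), ((0, 8), 0, 6), ((3, 2), 0, 2), ((3, 5), 0, 1), ((4, 6), 0, 4), ((4, 9),
    0, 7)]
  Tb := [((0, 1, 8), 0, 5, 6), ((1, 0, 2), 5, 0, 2), ((2, 1, 3), 2, 5, 0), ((3, 2, 5), 0, 2, 1),
    ((4, 6, 9), 0, 4, 7), ((5, 3, 7), 1, 0, 3), ((6, 4, 7), 4, 0, 3), ((7, 5, 6), 3, 1, 4),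
    ((7, 5, 8), 3, 1, 6), ((7, 5, 9), 3, 1, 7), ((7, 6, 8), 3, 4, 6), ((7, 6, 9), 3, 4, 7),
    ((7, 8, 9), 3, 6, 7), ((8, 0, 7), 6, 0, 3), ((9, 4, 7), 7, 0, 3)]
  Tc := []
  Td := [((0, 3), (0, 1), 5), ((0, 3), (0, 8), 6), ((0, 3), (3, 2), 2), ((0, 3), (3, 5), 1), ((0,
    3), (4, 6), 4), ((0, 3), (4, 9), 7), ((1, 4), (5, 3), 0), ((1, 4), (5, 7), 3), ((3, 0),
    (7, 5), 1), ((3, 0), (7, 6), 4), ((3, 0), (7, 8), 6), ((3, 0), (7, 9), 7), ((4, 1), (6,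
    4), 0), ((4, 1), (6, 7), 3)]
  G := [[0, 0, 0, 0x9131644913151ee18c8c51916713151ec431888cc,
    0x98d151e913451ec125131611d1ac1e8e4c18aa], [0, 0x1161411ce4211a12621888cc1,
    0x181111e111111ec421141111ac1111a8c114486a, 0x51316315191ec4e8814c1,
    0x91d151e71e111ec821], [0, 0, 0, 0xe14e44c16e52e1ae9ace888cc1,
    0x6e52ae92c4e8e1ce1e4cc1a1]]

noncomputable def n2016 : Ent := ⟨e2016, noF, [], [], [(13, 16, [1580044410770988437309982408355971841652082177953823432505697366017, 0])]⟩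

def c2016 : PLift (Cov.check n2016.C.D v2016 = true) := ⟨by decide +kernel⟩

def b2016 : PLift (entF (fidx ts) 400 2016 n2016 = true) := ⟨by decide +kernel⟩

theorem g2016 : GoodF (fidx ts) 400 2016 := GoodF.ofV v2016 n2016 c2016.down b2016.down

/-- 4846644:1712/5 -/
noncomputable def e2017 : SCfg where
  D := {
    a := 7
    L := 10
    kp := 7
    inn := [(0, 1), (1, 0), (1, 2), (1, 3), (1, 4), (2, 1), (2, 3), (3, 1), (3, 2), (3, 5), (4, 1), (4,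
      6), (5, 3), (6, 4)]
    mix := [(0, 0), (0, 1), (0, 2), (1, 0), (1, 2), (1, 3), (1, 4), (2, 3), (2, 5), (3, 4), (3, 5), (3,
      6), (4, 0), (4, 4), (4, 7), (4, 8), (5, 5), (5, 6), (5, 9), (6, 4), (6, 6), (6, 7)]
    cl := [0, 6, 2, 0, 0, 1, 3, 4, 5, 7]
    chq := [(1, 3), (3, 1), (3, 5), (5, 3)]
    rng := [(0, 1), (0, 8), (1, 0), (1, 2), (2, 1), (2, 3), (3, 2), (3, 5), (4, 6), (5, 3), (5, 9), (6,
      4), (6, 7), (6, 9), (7, 6), (7, 8), (8, 0), (8, 7), (9, 5), (9, 6)]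
    lev := [] }
  links := [[1, 7, 8, 9], [7, 0, 9, 10, 2, 3, 11, 4], [3, 1, 10, 12], [11, 1, 2, 12, 5, 13], [7, 1, 11,
    6, 14, 15], [13, 3, 12, 16], [14, 4, 11, 13]]
  P := {
    a := 7
    N := 17
    nb := [898, 3741, 5130, 14374, 51394, 77832, 26640, 33043, 641, 1283, 4614, 8282, 66604, 84072,
      41040, 16528, 12320]
    tri := [(0, 1, 7), (0, 1, 9), (0, 7, 8), (0, 8, 9), (1, 2, 3), (1, 2, 10), (1, 3, 11), (1, 4, 7),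
      (1, 4, 11), (1, 9, 10), (2, 3, 12), (2, 10, 12), (3, 5, 12), (3, 5, 13), (3, 11, 13), (4, 6,
      11), (4, 6, 14), (4, 7, 15), (4, 14, 15), (5, 12, 16), (5, 13, 16), (6, 11, 13), (6, 13,
      14)]
    fin := [0, 0, 0, 0, 4, 5, 4, 0, 8, 9, 0, 0, 5, 4, 14, 15, 16]
    chd := [(4, 15), (5, 4)]
    steps := [(0, 1), (0, 2), (0, 3), (0, 7), (0, 10), (0, 11), (4, 6), (4, 13), (5, 12)] }
  rep := [0, 5, 9, 4, 14, 15, 8, 16]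

noncomputable def v2017 : Cov.CovD where
  P := 3
  N := 5
  pl := [1, 2, 7, 9]
  lev := [⟨[], [], [], [2, 6], [(0, 0, [])]⟩,
    ⟨[], [(0, 0)], [(0, 0)], [2], [(0, 0, []), (3, 0, []), (4, 0, [])]⟩,
    ⟨[(0, 1)], [(1, 0), (1, 1)], [(0, 1)], [], [(3, 0, []), (5, 1, [3])]⟩,
    ⟨[(0, 1), (1, 2)], [(1, 0), (1, 1), (1, 3), (2, 0), (2, 1), (2, 3)], [(0, 1), (0, 3),
      (1, 3)], [], [(4, 0, []), (5, 1, [3]), (6, 3, [1, 5])]⟩,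
    ⟨[(0, 1), (1, 2), (1, 3)], [(0, 0), (1, 0), (1, 5), (3, 0)], [(0, 0), (0, 5)], [4],
      [(0, 0, []), (4, 0, []), (8, 5, [3])]⟩,
    ⟨[(1, 3), (2, 3)], [(2, 1), (3, 0), (3, 1), (3, 3)], [(1, 3)], [7], [(5, 1, [3]), (6,
      3, [1, 5])]⟩,
    ⟨[(1, 4)], [(1, 0), (3, 0), (3, 3), (4, 0), (4, 3), (4, 5), (5, 3)], [(0, 3)], [4],
      [(4, 0, []), (6, 3, [1, 5])]⟩]
  Ta := [((0, 1), 0, 6), ((0, 8), 0, 5), ((3, 2), 0, 2), ((3, 5), 0, 1), ((4, 6), 0, 3)]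
  Tb := [((0, 1, 8), 0, 6, 5), ((1, 0, 2), 6, 0, 2), ((2, 1, 3), 2, 6, 0), ((3, 2, 5), 0, 2, 1),
    ((5, 3, 9), 1, 0, 7), ((6, 4, 7), 3, 0, 4), ((6, 4, 9), 3, 0, 7), ((6, 7, 9), 3, 4, 7),
    ((7, 6, 8), 4, 3, 5), ((8, 0, 7), 5, 0, 4), ((9, 5, 6), 7, 1, 3)]
  Tc := [(3, 1, 5)]
  Td := [((1, 3), (5, 3), 0), ((1, 3), (5, 9), 7), ((3, 1), (6, 4), 0), ((3, 1), (6, 7), 4), ((3,
    1), (6, 9), 7), ((3, 5), (6, 4), 0), ((3, 5), (6, 7), 4), ((3, 5), (6, 9), 7), ((5, 3),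
    (8, 0), 0), ((5, 3), (8, 7), 4)]
  G := [[0, 0, 0, 0x4252456416481889139319e118c9c91116114121ea2c4d421886c84ca98cc,
    0x889339119e515445145ec1291116412a884c6d41298165415cc1aa], [0,
    0x44c52663aa4611684a88a12aa84c1,
    0x2111981e512111e26c4484ced429111611228a4c84ced421815511cc8aa,
    0x912165111119e26ce2c84ced411888c1, 0x11a111e112141e86ca2c84ced421], [0, 0, 0,
    0xa14665442d264dec1889a8889e81c1, 0x229aa9c89e866d445c45ec121]]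

noncomputable def n2017 : Ent := ⟨e2017, noF, [], [], [(8, 16, [1580044410770988437309982408355971841652082177953823432505697357825, 0]), (16, 14, [1580095832788404724998799751142926758855362888449624481876427010049, 0])]⟩

def c2017 : PLift (Cov.check n2017.C.D v2017 = true) := ⟨by decide +kernel⟩

def b2017 : PLift (entF (fidx ts) 400 2017 n2017 = true) := ⟨by decide +kernel⟩

theorem g2017 : GoodF (fidx ts) 400 2017 := GoodF.ofV v2017 n2017 c2017.down b2017.down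

/-- 4846644:1712 -/
noncomputable def e2018 : SCfg where
  D := {
    a := 7
    L := 11
    kp := 8
    inn := [(0, 1), (1, 0), (1, 2), (1, 3), (1, 4), (2, 1), (2, 3), (3, 1), (3, 2), (3, 5), (4, 1), (4,
      6), (5, 3), (6, 4)]
    mix := [(0, 0), (0, 1), (0, 2), (1, 0), (1, 2), (1, 3), (1, 4), (2, 3), (2, 5), (3, 4), (3, 5), (3,
      6), (4, 0), (4, 4), (4, 7), (4, 8), (5, 5), (5, 6), (5, 9), (6, 4), (6, 7), (6, 10)]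
    cl := [0, 7, 2, 0, 0, 1, 3, 4, 5, 8, 6]
    chq := [(1, 3), (3, 1), (5, 6), (6, 5)]
    rng := [(0, 1), (0, 8), (1, 0), (1, 2), (2, 1), (2, 3), (3, 2), (3, 5), (4, 6), (4, 10), (5, 3),
      (5, 9), (6, 4), (6, 9), (7, 8), (7, 10), (8, 0), (8, 7), (9, 5), (9, 6), (10, 4), (10, 7)]
    lev := [] }
  links := [[1, 7, 8, 9], [7, 0, 9, 10, 2, 3, 11, 4], [3, 1, 10, 12], [11, 1, 2, 12, 5, 13], [7, 1, 11,
    6, 14, 15], [13, 3, 12, 16], [14, 4, 11, 17]]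
  P := {
    a := 7
    N := 18
    nb := [898, 3741, 5130, 14374, 51394, 77832, 149520, 33043, 641, 1283, 4614, 139354, 66604, 67624,
      163920, 16528, 12320, 18496]
    tri := [(0, 1, 7), (0, 1, 9), (0, 7, 8), (0, 8, 9), (1, 2, 3), (1, 2, 10), (1, 3, 11), (1, 4, 7),
      (1, 4, 11), (1, 9, 10), (2, 3, 12), (2, 10, 12), (3, 5, 12), (3, 5, 13), (3, 11, 13), (4, 6,
      11), (4, 6, 14), (4, 7, 15), (4, 14, 15), (5, 12, 16), (5, 13, 16), (6, 11, 17), (6, 14,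
      17)]
    fin := [0, 0, 0, 0, 4, 5, 4, 0, 8, 9, 0, 0, 5, 13, 14, 15, 16, 4]
    chd := [(5, 13), (15, 4)]
    steps := [(0, 1), (0, 2), (0, 3), (0, 7), (0, 10), (0, 11), (4, 6), (4, 17), (5, 12)] }
  rep := [0, 5, 9, 13, 14, 15, 4, 8, 16]

noncomputable def v2018 : Cov.CovD where
  P := 3
  N := 6
  pl := [1, 2, 7, 9]
  lev := [⟨[], [], [], [2, 7], [(0, 0, [])]⟩,
    ⟨[], [(0, 0)], [(0, 0)], [2], [(0, 0, []), (3, 0, []), (4, 0, [])]⟩,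
    ⟨[(0, 1)], [(1, 0), (1, 1)], [(0, 1)], [], [(3, 0, []), (5, 1, [3])]⟩,
    ⟨[(0, 1), (1, 2)], [(1, 0), (1, 1), (1, 3), (2, 0), (2, 1), (2, 3)], [(0, 1), (0, 3),
      (1, 3)], [], [(4, 0, []), (5, 1, [3]), (6, 3, [1])]⟩,
    ⟨[(0, 1), (1, 2), (1, 3)], [(0, 0), (1, 0), (1, 5), (3, 0)], [(0, 0), (0, 5)], [4],
      [(0, 0, []), (4, 0, []), (8, 5, [6])]⟩,
    ⟨[(1, 3), (2, 3)], [(2, 1), (3, 0), (3, 1), (3, 3)], [(1, 3)], [8], [(5, 1, [3]), (6,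
      3, [1])]⟩,
    ⟨[(1, 4)], [(1, 0), (3, 0), (4, 0), (4, 5), (4, 6)], [(0, 6)], [4], [(4, 0, []), (10,
      6, [5])]⟩]
  Ta := [((0, 1), 0, 7), ((0, 8), 0, 5), ((3, 2), 0, 2), ((3, 5), 0, 1), ((4, 6), 0, 3), ((4,
    10), 0, 6)]
  Tb := [((0, 1, 8), 0, 7, 5), ((1, 0, 2), 7, 0, 2), ((2, 1, 3), 2, 7, 0), ((3, 2, 5), 0, 2, 1),
    ((4, 6, 10), 0, 3, 6), ((5, 3, 9), 1, 0, 8), ((6, 4, 9), 3, 0, 8), ((7, 8, 10), 4, 5, 6),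
    ((8, 0, 7), 5, 0, 4), ((9, 5, 6), 8, 1, 3), ((10, 4, 7), 6, 0, 4)]
  Tc := []
  Td := [((1, 3), (5, 3), 0), ((1, 3), (5, 9), 8), ((3, 1), (6, 4), 0), ((3, 1), (6, 9), 8), ((5,
    6), (8, 0), 0), ((5, 6), (8, 7), 4), ((6, 5), (10, 4), 0), ((6, 5), (10, 7), 4)]
  G := [[0, 0, 0, 0x3114641113151e1151a66caacc8ed8ca841d1516115335555ec951918a81cc,
    0x113151e1153a5555e68a8c8ed82c8219129552c5369119c3151a5cc1aa], [0,
    0x156a96c16e216c31cbcce8a41,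
    0x5414a4169319599ed11191ea44dc26199391c9e51a111e64a4cd42142488e,
    0x914311191e64aacccced416911a84c1, 0xa15161153a55c5ec119a858e8c21], [0, 0, 0,
    0x665aa5cc5e41669aa9cc9e81c1, 0x669aa9cc9e665aa5cc5ec121]]

noncomputable def n2018 : Ent := ⟨e2018, noF, [], [], [(8, 16, [7334685537875745012586738086077695515070955365108989538292687701925889, 0]), (16, 14, [7334685589297762428874426903420482469988158645819485339342058431578113, 0]), (13, 17, [6903326391201334775872065844685381424292761054348340378595029937950721, 0])]⟩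

def c2018 : PLift (Cov.check n2018.C.D v2018 = true) := ⟨by decide +kernel⟩

def b2018 : PLift (entF (fidx ts) 400 2018 n2018 = true) := ⟨by decide +kernel⟩

theorem g2018 : GoodF (fidx ts) 400 2018 := GoodF.ofV v2018 n2018 c2018.down b2018.down

/-- 4847644:1715/2 -/
noncomputable def e2019 : SCfg where
  D := {
    a := 7
    L := 9
    kp := 6
    inn := [(0, 1), (1, 0), (1, 2), (1, 3), (1, 4), (2, 1), (2, 3), (3, 1), (3, 2), (3, 4), (3, 5), (4,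
      1), (4, 3), (4, 6), (5, 3), (6, 4)]
    mix := [(0, 0), (0, 1), (0, 2), (1, 0), (1, 2), (1, 3), (1, 4), (2, 3), (2, 5), (3, 5), (3, 6), (3,
      7), (4, 4), (4, 7), (4, 8), (5, 1), (5, 6), (5, 7), (6, 1), (6, 7), (6, 8)]
    cl := [0, 1, 2, 0, 3, 5, 4, 3, 6]
    chq := [(0, 4), (3, 4), (4, 0), (4, 3)]
    rng := [(0, 1), (0, 4), (1, 0), (1, 2), (1, 6), (1, 7), (1, 8), (2, 1), (2, 3), (3, 2), (3, 5), (4,
      0), (4, 8), (5, 3), (5, 6), (6, 1), (6, 5), (7, 1), (8, 1), (8, 4)]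
    lev := [] }
  links := [[1, 7, 8, 9], [7, 0, 9, 10, 2, 3, 4, 11], [3, 1, 10, 12], [4, 1, 2, 12, 13, 5, 14], [11, 1,
    3, 14, 6, 15], [14, 3, 13, 8], [15, 4, 14, 8]]
  P := {
    a := 7
    N := 16
    nb := [898, 3741, 5130, 28726, 51274, 24840, 49424, 2307, 58081, 1283, 4614, 32914, 9228, 4392,
      376, 2384]
    tri := [(0, 1, 7), (0, 1, 9), (0, 7, 8), (0, 8, 9), (1, 2, 3), (1, 2, 10), (1, 3, 4), (1, 4, 11),
      (1, 7, 11), (1, 9, 10), (2, 3, 12), (2, 10, 12), (3, 4, 14), (3, 5, 13), (3, 5, 14), (3, 12,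
      13), (4, 6, 14), (4, 6, 15), (4, 11, 15), (5, 8, 13), (5, 8, 14), (6, 8, 14), (6, 8, 15)]
    fin := [0, 0, 0, 0, 4, 5, 6, 0, 6, 9, 0, 4, 12, 5, 4, 15]
    chd := [(0, 5), (4, 5)]
    steps := [(0, 1), (0, 2), (0, 3), (0, 7), (0, 10), (4, 14), (4, 11), (5, 13), (6, 8)] }
  rep := [0, 6, 9, 4, 5, 12, 15]

noncomputable def v2019 : Cov.CovD where
  P := 3
  N := 4
  pl := [1, 2, 5, 8]
  lev := [⟨[], [], [], [1, 2], [(0, 0, [4])]⟩,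
    ⟨[], [(0, 0), (0, 3)], [(0, 0), (0, 3)], [2], [(0, 0, [4]), (3, 0, [4]), (4, 3, [4])]⟩,
    ⟨[(0, 1)], [(1, 0), (1, 3)], [], [5], [(3, 0, [4])]⟩,
    ⟨[(0, 1), (1, 2)], [(1, 0), (1, 3), (1, 4), (2, 0), (2, 3), (2, 4)], [(3, 4)], [5],
      [(6, 4, [0, 3]), (7, 3, [4])]⟩,
    ⟨[(0, 1), (1, 2), (1, 3), (2, 3)], [(1, 0), (1, 3), (3, 3), (3, 4)], [(3, 3)], [6],
      [(4, 3, [4]), (7, 3, [4])]⟩,
    ⟨[(1, 3), (2, 3), (3, 4)], [(3, 3), (3, 4), (4, 3)], [(3, 4)], [1], [(6, 4, [0, 3]),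
      (7, 3, [4])]⟩,
    ⟨[(1, 4), (3, 4)], [(3, 3), (4, 3), (5, 3)], [], [1, 6], [(7, 3, [4])]⟩]
  Ta := [((0, 1), 0, 1), ((0, 4), 0, 3), ((3, 2), 0, 2), ((3, 5), 0, 5), ((4, 0), 3, 0), ((4, 8),
    3, 6), ((7, 1), 3, 1)]
  Tb := [((0, 1, 4), 0, 1, 3), ((1, 0, 2), 1, 0, 2), ((1, 0, 6), 1, 0, 4), ((1, 0, 7), 1, 0, 3),
    ((1, 0, 8), 1, 0, 6), ((1, 2, 6), 1, 2, 4), ((1, 2, 7), 1, 2, 3), ((1, 2, 8), 1, 2, 6),
    ((1, 6, 7), 1, 4, 3), ((1, 6, 8), 1, 4, 6), ((1, 7, 8), 1, 3, 6), ((2, 1, 3), 2, 1, 0),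
    ((3, 2, 5), 0, 2, 5), ((4, 0, 8), 3, 0, 6), ((5, 3, 6), 5, 0, 4), ((6, 1, 5), 4, 1, 5),
    ((8, 1, 4), 6, 1, 3)]
  Tc := [(4, 0, 3)]
  Td := [((0, 4), (0, 1), 1), ((0, 4), (0, 4), 3), ((0, 4), (3, 2), 2), ((0, 4), (3, 5), 5), ((3,
    4), (4, 0), 0), ((3, 4), (4, 8), 6), ((3, 4), (7, 1), 1), ((4, 0), (6, 1), 1), ((4, 0),
    (6, 5), 5), ((4, 3), (6, 1), 1), ((4, 3), (6, 5), 5)]
  G := [[0, 0xa4611a411668116811ac4, 0, 0xd12c12a14d12942618c, 0x41c111b815144b814111de128], [0,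
    0x22eece31eeee11a48, 0, 0x95dd21c11132948, 0x88944511e188944511ce11112d28], [0, 0,
    0x8411c1e1811851e1c28, 0x9421c122c58921811152ac1, 0x81113111845274141c1114892bc28], [0,
    0, 0x814111e1811151e1c24, 0xd1228495dd21489,
    0x414111bc124111671114154636818111781898881ca1]]

noncomputable def n2019 : Ent := ⟨e2019, noF, [], [], []⟩

def c2019 : PLift (Cov.check n2019.C.D v2019 = true) := ⟨by decide +kernel⟩

def b2019 : PLift (entF (fidx ts) 400 2019 n2019 = true) := ⟨by decide +kernel⟩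

theorem g2019 : GoodF (fidx ts) 400 2019 := GoodF.ofV v2019 n2019 c2019.down b2019.down

/-- 4847644:1715/1 -/
noncomputable def e2020 : SCfg where
  D := {
    a := 7
    L := 10
    kp := 7
    inn := [(0, 1), (1, 0), (1, 2), (1, 3), (1, 4), (2, 1), (2, 3), (3, 1), (3, 2), (3, 4), (3, 5), (4,
      1), (4, 3), (4, 6), (5, 3), (6, 4)]
    mix := [(0, 0), (0, 1), (0, 2), (1, 0), (1, 2), (1, 3), (1, 4), (2, 3), (2, 5), (3, 5), (3, 6), (3,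
      7), (4, 4), (4, 7), (4, 8), (5, 1), (5, 6), (5, 7), (6, 7), (6, 8), (6, 9)]
    cl := [1, 4, 2, 1, 0, 3, 5, 0, 6, 7]
    chq := [(0, 3), (3, 0), (3, 4), (4, 3)]
    rng := [(0, 1), (0, 4), (1, 0), (1, 2), (1, 6), (1, 7), (2, 1), (2, 3), (3, 2), (3, 5), (4, 0), (4,
      8), (5, 3), (5, 6), (6, 1), (6, 5), (7, 1), (7, 9), (8, 4), (8, 9), (9, 7), (9, 8)]
    lev := [] }
  links := [[1, 7, 8, 9], [7, 0, 9, 10, 2, 3, 4, 11], [3, 1, 10, 12], [4, 1, 2, 12, 13, 5, 14], [11, 1,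
    3, 14, 6, 15], [14, 3, 13, 8], [15, 4, 14, 16]]
  P := {
    a := 7
    N := 17
    nb := [898, 3741, 5130, 28726, 51274, 24840, 114704, 2307, 25249, 1283, 4614, 32914, 9228, 4392,
      65912, 67664, 49216]
    tri := [(0, 1, 7), (0, 1, 9), (0, 7, 8), (0, 8, 9), (1, 2, 3), (1, 2, 10), (1, 3, 4), (1, 4, 11),
      (1, 7, 11), (1, 9, 10), (2, 3, 12), (2, 10, 12), (3, 4, 14), (3, 5, 13), (3, 5, 14), (3, 12,
      13), (4, 6, 14), (4, 6, 15), (4, 11, 15), (5, 8, 13), (5, 8, 14), (6, 14, 16), (6, 15, 16)]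
    fin := [0, 0, 0, 3, 4, 5, 4, 0, 5, 9, 0, 4, 3, 13, 4, 15, 16]
    chd := [(4, 3), (5, 3)]
    steps := [(0, 1), (0, 2), (0, 7), (0, 10), (3, 12), (4, 6), (4, 14), (4, 11), (5, 8)] }
  rep := [4, 0, 9, 3, 5, 13, 15, 16]

noncomputable def v2020 : Cov.CovD where
  P := 3
  N := 5
  pl := [2, 6, 8, 9]
  lev := [⟨[], [], [(1, 4)], [2], [(0, 1, []), (1, 4, [3])]⟩,
    ⟨[], [(0, 0), (0, 1), (0, 4)], [(0, 1), (1, 1)], [2], [(0, 1, []), (3, 1, []), (4, 0,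
      [3])]⟩,
    ⟨[(0, 1)], [(1, 0), (1, 1), (1, 3)], [(1, 3)], [], [(3, 1, []), (5, 3, [0, 4])]⟩,
    ⟨[(0, 1), (1, 2)], [(1, 0), (1, 1), (1, 3), (2, 0), (2, 1), (2, 3)], [(0, 3)], [5],
      [(5, 3, [0, 4]), (7, 0, [3])]⟩,
    ⟨[(0, 1), (1, 2), (1, 3), (2, 3)], [(1, 0), (1, 1), (3, 0), (3, 3)], [(0, 0)], [6],
      [(4, 0, [3]), (7, 0, [3])]⟩,
    ⟨[(1, 3), (2, 3), (3, 4)], [(0, 4), (3, 0), (3, 3), (3, 4), (4, 0)], [(0, 4)], [5],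
      [(1, 4, [3]), (7, 0, [3])]⟩,
    ⟨[(1, 4), (3, 4)], [(3, 0), (4, 0), (5, 0)], [], [6, 7], [(7, 0, [3])]⟩]
  Ta := [((0, 1), 1, 4), ((0, 4), 1, 0), ((3, 2), 1, 2), ((3, 5), 1, 3), ((4, 0), 0, 1), ((4, 8),
    0, 6), ((7, 1), 0, 4), ((7, 9), 0, 7)]
  Tb := [((0, 1, 4), 1, 4, 0), ((1, 0, 2), 4, 1, 2), ((1, 0, 6), 4, 1, 5), ((1, 0, 7), 4, 1, 0),
    ((1, 2, 6), 4, 2, 5), ((1, 2, 7), 4, 2, 0), ((1, 6, 7), 4, 5, 0), ((2, 1, 3), 2, 4, 1),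
    ((3, 2, 5), 1, 2, 3), ((4, 0, 8), 0, 1, 6), ((5, 3, 6), 3, 1, 5), ((6, 1, 5), 5, 4, 3),
    ((7, 1, 9), 0, 4, 7), ((8, 4, 9), 6, 0, 7), ((9, 7, 8), 7, 0, 6)]
  Tc := [(3, 0, 4)]
  Td := [((0, 3), (4, 0), 1), ((0, 3), (4, 8), 6), ((0, 3), (7, 1), 4), ((0, 3), (7, 9), 7), ((3,
    0), (5, 3), 1), ((3, 0), (5, 6), 5), ((3, 4), (5, 3), 1), ((3, 4), (5, 6), 5), ((4, 3),
    (1, 0), 1), ((4, 3), (1, 2), 2), ((4, 3), (1, 6), 5), ((4, 3), (1, 7), 0)]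
  G := [[0, 0x18186c161a111e11cce14c462a11214a894c, 0xc161a12d8a614c1a16146e3ca18c, 0,
    0x14a161861a32c159cee181], [0, 0, 0x1161a36c1663a9232ce142, 0x14a16c161a5232ce141,
    0xc1aa3611aa161262ce182], [0, 0, 0x84e46c864aaaeee22a48ee14c4a8664882242eec4ee18c, 0,
    0x62421a4828aa82c8a86ccc66cace9c4a86622a66ee84ea189], [0, 0,
    0xcc64624a1aa62cca66aaa28e1c2, 0xc444488e4e624e1a42a28a1c8444888e8e624e1a2821c5,
    0xcc6aa6664aa8aceae22e288cee182]]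

noncomputable def n2020 : Ent := ⟨e2020, noF, [], [], [(8, 16, [1580044410770988437309982408355971841652082177953823432505697382401, 0])]⟩

def c2020 : PLift (Cov.check n2020.C.D v2020 = true) := ⟨by decide +kernel⟩

def b2020 : PLift (entF (fidx ts) 400 2020 n2020 = true) := ⟨by decide +kernel⟩

theorem g2020 : GoodF (fidx ts) 400 2020 := GoodF.ofV v2020 n2020 c2020.down b2020.down

/-- 4847644:1715/3 -/
noncomputable def e2021 : SCfg where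
  D := {
    a := 7
    L := 10
    kp := 7
    inn := [(0, 1), (1, 0), (1, 2), (1, 3), (1, 4), (2, 1), (2, 3), (3, 1), (3, 2), (3, 4), (3, 5), (4,
      1), (4, 3), (4, 6), (5, 3), (6, 4)]
    mix := [(0, 0), (0, 1), (0, 2), (1, 0), (1, 2), (1, 3), (1, 4), (2, 3), (2, 5), (3, 5), (3, 6), (3,
      7), (4, 4), (4, 7), (4, 8), (5, 6), (5, 7), (5, 9), (6, 1), (6, 7), (6, 8)]
    cl := [1, 4, 2, 1, 0, 3, 5, 0, 6, 7]
    chq := [(0, 3), (3, 0), (3, 7), (7, 3)]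
    rng := [(0, 1), (0, 4), (1, 0), (1, 2), (1, 7), (1, 8), (2, 1), (2, 3), (3, 2), (3, 5), (4, 0), (4,
      8), (5, 3), (5, 6), (6, 5), (6, 9), (7, 1), (7, 9), (8, 1), (8, 4), (9, 6), (9, 7)]
    lev := [] }
  links := [[1, 7, 8, 9], [7, 0, 9, 10, 2, 3, 4, 11], [3, 1, 10, 12], [4, 1, 2, 12, 13, 5, 14], [11, 1,
    3, 14, 6, 15], [14, 3, 13, 16], [15, 4, 14, 8]]
  P := {
    a := 7
    N := 17
    nb := [898, 3741, 5130, 28726, 51274, 90120, 49424, 2307, 49857, 1283, 4614, 32914, 9228, 69672,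
      65912, 2384, 24608]
    tri := [(0, 1, 7), (0, 1, 9), (0, 7, 8), (0, 8, 9), (1, 2, 3), (1, 2, 10), (1, 3, 4), (1, 4, 11),
      (1, 7, 11), (1, 9, 10), (2, 3, 12), (2, 10, 12), (3, 4, 14), (3, 5, 13), (3, 5, 14), (3, 12,
      13), (4, 6, 14), (4, 6, 15), (4, 11, 15), (5, 13, 16), (5, 14, 16), (6, 8, 14), (6, 8, 15)]
    fin := [0, 0, 0, 3, 4, 3, 6, 0, 6, 9, 0, 4, 3, 13, 4, 15, 16]
    chd := [(3, 16), (4, 3)]
    steps := [(0, 1), (0, 2), (0, 7), (0, 10), (3, 5), (3, 12), (4, 14), (4, 11), (6, 8)] }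
  rep := [4, 0, 9, 3, 6, 13, 15, 16]

noncomputable def v2021 : Cov.CovD where
  P := 3
  N := 5
  pl := [1, 2, 6, 8]
  lev := [⟨[], [], [], [2, 4], [(0, 1, [])]⟩,
    ⟨[], [(0, 0), (0, 1)], [(0, 1), (1, 1)], [2], [(0, 1, []), (3, 1, []), (4, 0, [3])]⟩,
    ⟨[(0, 1)], [(1, 0), (1, 1), (1, 3)], [(1, 3)], [], [(3, 1, []), (5, 3, [0, 7])]⟩,
    ⟨[(0, 1), (1, 2)], [(1, 0), (1, 1), (1, 3), (2, 0), (2, 1), (2, 3)], [(0, 3)], [5],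
      [(5, 3, [0, 7]), (7, 0, [3])]⟩,
    ⟨[(0, 1), (1, 2), (1, 3), (2, 3)], [(1, 0), (1, 1), (3, 0), (3, 3)], [(0, 0)], [6],
      [(4, 0, [3]), (7, 0, [3])]⟩,
    ⟨[(1, 3), (2, 3), (3, 4)], [(3, 0), (3, 3), (3, 7), (4, 0)], [(0, 7)], [5], [(7, 0,
      [3]), (9, 7, [3])]⟩,
    ⟨[(1, 4), (3, 4)], [(3, 0), (4, 0), (5, 0)], [], [4, 6], [(7, 0, [3])]⟩]
  Ta := [((0, 1), 1, 4), ((0, 4), 1, 0), ((3, 2), 1, 2), ((3, 5), 1, 3), ((4, 0), 0, 1), ((4, 8),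
    0, 6), ((7, 1), 0, 4), ((7, 9), 0, 7)]
  Tb := [((0, 1, 4), 1, 4, 0), ((1, 0, 2), 4, 1, 2), ((1, 0, 7), 4, 1, 0), ((1, 0, 8), 4, 1, 6),
    ((1, 2, 7), 4, 2, 0), ((1, 2, 8), 4, 2, 6), ((1, 7, 8), 4, 0, 6), ((2, 1, 3), 2, 4, 1),
    ((3, 2, 5), 1, 2, 3), ((4, 0, 8), 0, 1, 6), ((5, 3, 6), 3, 1, 5), ((6, 5, 9), 5, 3, 7),
    ((7, 1, 9), 0, 4, 7), ((8, 1, 4), 6, 4, 0), ((9, 6, 7), 7, 5, 0)]
  Tc := [(3, 0, 7)]
  Td := [((0, 3), (4, 0), 1), ((0, 3), (4, 8), 6), ((0, 3), (7, 1), 4), ((0, 3), (7, 9), 7), ((3,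
    0), (5, 3), 1), ((3, 0), (5, 6), 5), ((3, 7), (5, 3), 1), ((3, 7), (5, 6), 5), ((7, 3),
    (9, 6), 5), ((7, 3), (9, 7), 0)]
  G := [[0, 0x116123a88921a8111cce144111aa12941c61143126a81cc,
    0x841468118a88921ce14442461848a2141ce18c, 0, 0x14a463858a111e61ce181], [0, 0,
    0x116223a11a21a125329ce142, 0x142462818c21111ece181, 0x31621611a229a11c21ce181], [0, 0,
    0xa48468828a888e222ece14442464868a222e444ece18c, 0,
    0xaa2e88c62182828424688a28cca944a464868a222e444ece189], [0, 0,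
    0x4668a624ecca22aaeec22cce142, 0x842468828a888e222ece14442466828c222e444ece18c,
    0xcc6226664aa8a22e22ceecce182]]

noncomputable def n2021 : Ent := ⟨e2021, noF, [], [], [(8, 16, [1580044410770988437309982408355971841652082177953823432505697382401, 0])]⟩

def c2021 : PLift (Cov.check n2021.C.D v2021 = true) := ⟨by decide +kernel⟩

def b2021 : PLift (entF (fidx ts) 400 2021 n2021 = true) := ⟨by decide +kernel⟩

theorem g2021 : GoodF (fidx ts) 400 2021 := GoodF.ofV v2021 n2021 c2021.down b2021.down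

/-- 4847644:1715/4 -/
noncomputable def e2022 : SCfg where
  D := {
    a := 7
    L := 10
    kp := 7
    inn := [(0, 1), (1, 0), (1, 2), (1, 3), (1, 4), (2, 1), (2, 3), (3, 1), (3, 2), (3, 4), (3, 5), (4,
      1), (4, 3), (4, 6), (5, 3), (6, 4)]
    mix := [(0, 0), (0, 1), (0, 2), (1, 0), (1, 2), (1, 3), (1, 4), (2, 3), (2, 5), (3, 5), (3, 6), (3,
      7), (4, 4), (4, 7), (4, 8), (5, 6), (5, 7), (5, 9), (6, 7), (6, 8), (6, 9)]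
    cl := [1, 7, 2, 1, 0, 3, 5, 0, 6, 4]
    chq := [(0, 3), (3, 0), (3, 4), (4, 3)]
    rng := [(0, 1), (0, 4), (1, 0), (1, 2), (2, 1), (2, 3), (3, 2), (3, 5), (4, 0), (4, 8), (5, 3), (5,
      6), (6, 5), (6, 9), (7, 9), (8, 4), (8, 9), (9, 6), (9, 7), (9, 8)]
    lev := [] }
  links := [[1, 7, 8, 9], [7, 0, 9, 10, 2, 3, 4, 11], [3, 1, 10, 12], [4, 1, 2, 12, 13, 5, 14], [11, 1,
    3, 14, 6, 15], [14, 3, 13, 16], [15, 4, 14, 16]]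
  P := {
    a := 7
    N := 17
    nb := [898, 3741, 5130, 28726, 51274, 90120, 114704, 2307, 641, 1283, 4614, 32914, 9228, 69672,
      65656, 67664, 57440]
    tri := [(0, 1, 7), (0, 1, 9), (0, 7, 8), (0, 8, 9), (1, 2, 3), (1, 2, 10), (1, 3, 4), (1, 4, 11),
      (1, 7, 11), (1, 9, 10), (2, 3, 12), (2, 10, 12), (3, 4, 14), (3, 5, 13), (3, 5, 14), (3, 12,
      13), (4, 6, 14), (4, 6, 15), (4, 11, 15), (5, 13, 16), (5, 14, 16), (6, 14, 16), (6, 15,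
      16)]
    fin := [0, 0, 0, 3, 4, 3, 6, 0, 8, 9, 0, 4, 3, 13, 4, 15, 6]
    chd := [(3, 6), (4, 3)]
    steps := [(0, 1), (0, 2), (0, 7), (0, 10), (3, 5), (3, 12), (4, 14), (4, 11), (6, 16)] }
  rep := [4, 0, 9, 3, 6, 13, 15, 8]

noncomputable def v2022 : Cov.CovD where
  P := 3
  N := 5
  pl := [1, 2, 6, 8]
  lev := [⟨[], [], [], [2, 7], [(0, 1, [])]⟩,
    ⟨[], [(0, 0), (0, 1)], [(0, 1), (1, 1)], [2], [(0, 1, []), (3, 1, []), (4, 0, [3])]⟩,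
    ⟨[(0, 1)], [(1, 0), (1, 1), (1, 3)], [(1, 3)], [], [(3, 1, []), (5, 3, [0, 4])]⟩,
    ⟨[(0, 1), (1, 2)], [(1, 0), (1, 1), (1, 3), (2, 0), (2, 1), (2, 3)], [(0, 3)], [5],
      [(5, 3, [0, 4]), (7, 0, [3])]⟩,
    ⟨[(0, 1), (1, 2), (1, 3), (2, 3)], [(1, 0), (1, 1), (3, 0), (3, 3)], [(0, 0)], [6],
      [(4, 0, [3]), (7, 0, [3])]⟩,
    ⟨[(1, 3), (2, 3), (3, 4)], [(3, 0), (3, 3), (3, 4), (4, 0)], [(0, 4)], [5], [(7, 0,
      [3]), (9, 4, [3])]⟩,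
    ⟨[(1, 4), (3, 4)], [(3, 0), (4, 0), (4, 4), (5, 0), (5, 4)], [(0, 4)], [6], [(7, 0,
      [3]), (9, 4, [3])]⟩]
  Ta := [((0, 1), 1, 7), ((0, 4), 1, 0), ((3, 2), 1, 2), ((3, 5), 1, 3), ((4, 0), 0, 1), ((4, 8),
    0, 6), ((7, 9), 0, 4)]
  Tb := [((0, 1, 4), 1, 7, 0), ((1, 0, 2), 7, 1, 2), ((2, 1, 3), 2, 7, 1), ((3, 2, 5), 1, 2, 3),
    ((4, 0, 8), 0, 1, 6), ((5, 3, 6), 3, 1, 5), ((6, 5, 9), 5, 3, 4), ((8, 4, 9), 6, 0, 4),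
    ((9, 6, 7), 4, 5, 0), ((9, 6, 8), 4, 5, 6), ((9, 7, 8), 4, 0, 6)]
  Tc := [(3, 0, 4)]
  Td := [((0, 3), (4, 0), 1), ((0, 3), (4, 8), 6), ((0, 3), (7, 9), 4), ((3, 0), (5, 3), 1), ((3,
    0), (5, 6), 5), ((3, 4), (5, 3), 1), ((3, 4), (5, 6), 5), ((4, 3), (9, 6), 5), ((4, 3),
    (9, 7), 0), ((4, 3), (9, 8), 6)]
  G := [[0, 0x116a1681a129a11c11cce14116125611a129611c411ece18c,
    0x14445a9818aa11241cee14441461868a2114381ee18c, 0,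
    0x188296c4a2665414718562341226829c414681186512e61ce189], [0, 0,
    0x116a26681a61ac111cae142, 0x4414618429a2214381ee1814a4681186512e61ce185,
    0xc16125618352a611c61ce182], [0, 0,
    0x44ee4214488c2cec868ac882e823c44a464888e8e2244ee88cee18c, 0,
    0x44ee88c621228244a4688242eaca9c4a464488a4ce4264ea8ccee189], [0, 0,
    0x446884a2eecca62aa886e2244cee142,
    0xc4a46448868ce2244ee88cee18c4a462244eeca1c868a88c861c5,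
    0xcc6a2664488a2c2ee62e4c88cee182]]

noncomputable def n2022 : Ent := ⟨e2022, noF, [], [], [(8, 16, [1580044410770988437309982408355971841652082177953823432505697382401, 0])]⟩

def c2022 : PLift (Cov.check n2022.C.D v2022 = true) := ⟨by decide +kernel⟩

def b2022 : PLift (entF (fidx ts) 400 2022 n2022 = true) := ⟨by decide +kernel⟩

theorem g2022 : GoodF (fidx ts) 400 2022 := GoodF.ofV v2022 n2022 c2022.down b2022.down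

/-- 4847644:1715 -/
noncomputable def e2023 : SCfg where
  D := {
    a := 7
    L := 11
    kp := 8
    inn := [(0, 1), (1, 0), (1, 2), (1, 3), (1, 4), (2, 1), (2, 3), (3, 1), (3, 2), (3, 4), (3, 5), (4,
      1), (4, 3), (4, 6), (5, 3), (6, 4)]
    mix := [(0, 0), (0, 1), (0, 2), (1, 0), (1, 2), (1, 3), (1, 4), (2, 3), (2, 5), (3, 5), (3, 6), (3,
      7), (4, 4), (4, 7), (4, 8), (5, 6), (5, 7), (5, 9), (6, 7), (6, 8), (6, 10)]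
    cl := [1, 7, 2, 1, 0, 3, 4, 0, 5, 6, 8]
    chq := [(0, 3), (3, 0), (3, 6), (6, 3)]
    rng := [(0, 1), (0, 4), (1, 0), (1, 2), (2, 1), (2, 3), (3, 2), (3, 5), (4, 0), (4, 8), (5, 3), (5,
      6), (6, 5), (6, 9), (7, 9), (7, 10), (8, 4), (8, 10), (9, 6), (9, 7), (10, 7), (10, 8)]
    lev := [] }
  links := [[1, 7, 8, 9], [7, 0, 9, 10, 2, 3, 4, 11], [3, 1, 10, 12], [4, 1, 2, 12, 13, 5, 14], [11, 1,
    3, 14, 6, 15], [14, 3, 13, 16], [15, 4, 14, 17]]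
  P := {
    a := 7
    N := 18
    nb := [898, 3741, 5130, 28726, 51274, 90120, 180240, 2307, 641, 1283, 4614, 32914, 9228, 69672,
      196728, 133200, 24608, 49216]
    tri := [(0, 1, 7), (0, 1, 9), (0, 7, 8), (0, 8, 9), (1, 2, 3), (1, 2, 10), (1, 3, 4), (1, 4, 11),
      (1, 7, 11), (1, 9, 10), (2, 3, 12), (2, 10, 12), (3, 4, 14), (3, 5, 13), (3, 5, 14), (3, 12,
      13), (4, 6, 14), (4, 6, 15), (4, 11, 15), (5, 13, 16), (5, 14, 16), (6, 14, 17), (6, 15,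
      17)]
    fin := [0, 0, 0, 3, 4, 3, 4, 0, 8, 9, 0, 4, 3, 13, 4, 15, 16, 17]
    chd := [(3, 16), (4, 3)]
    steps := [(0, 1), (0, 2), (0, 7), (0, 10), (3, 5), (3, 12), (4, 6), (4, 14), (4, 11)] }
  rep := [4, 0, 9, 3, 13, 15, 16, 8, 17]

noncomputable def v2023 : Cov.CovD where
  P := 3
  N := 6
  pl := [1, 2, 6, 8, 10]
  lev := [⟨[], [], [], [2, 7], [(0, 1, [])]⟩,
    ⟨[], [(0, 0), (0, 1)], [(0, 1), (1, 1)], [2], [(0, 1, []), (3, 1, []), (4, 0, [3])]⟩,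
    ⟨[(0, 1)], [(1, 0), (1, 1), (1, 3)], [(1, 3)], [], [(3, 1, []), (5, 3, [0, 6])]⟩,
    ⟨[(0, 1), (1, 2)], [(1, 0), (1, 1), (1, 3), (2, 0), (2, 1), (2, 3)], [(0, 3)], [4],
      [(5, 3, [0, 6]), (7, 0, [3])]⟩,
    ⟨[(0, 1), (1, 2), (1, 3), (2, 3)], [(1, 0), (1, 1), (3, 0), (3, 3)], [(0, 0)], [5],
      [(4, 0, [3]), (7, 0, [3])]⟩,
    ⟨[(1, 3), (2, 3), (3, 4)], [(3, 0), (3, 3), (3, 6), (4, 0)], [(0, 6)], [4], [(7, 0,
      [3]), (9, 6, [3])]⟩,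
    ⟨[(1, 4), (3, 4)], [(3, 0), (4, 0), (5, 0)], [], [5, 8], [(7, 0, [3])]⟩]
  Ta := [((0, 1), 1, 7), ((0, 4), 1, 0), ((3, 2), 1, 2), ((3, 5), 1, 3), ((4, 0), 0, 1), ((4, 8),
    0, 5), ((7, 9), 0, 6), ((7, 10), 0, 8)]
  Tb := [((0, 1, 4), 1, 7, 0), ((1, 0, 2), 7, 1, 2), ((2, 1, 3), 2, 7, 1), ((3, 2, 5), 1, 2, 3),
    ((4, 0, 8), 0, 1, 5), ((5, 3, 6), 3, 1, 4), ((6, 5, 9), 4, 3, 6), ((7, 9, 10), 0, 6, 8),
    ((8, 4, 10), 5, 0, 8), ((9, 6, 7), 6, 4, 0), ((10, 7, 8), 8, 0, 5)]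
  Tc := [(3, 0, 6)]
  Td := [((0, 3), (4, 0), 1), ((0, 3), (4, 8), 5), ((0, 3), (7, 9), 6), ((0, 3), (7, 10), 8),
    ((3, 0), (5, 3), 1), ((3, 0), (5, 6), 4), ((3, 6), (5, 3), 1), ((3, 6), (5, 6), 4), ((6,
    3), (9, 6), 4), ((6, 3), (9, 7), 0)]
  G := [[0, 0x11a11a611c11c66111661a81cc1116611a61a11c11c6e18c,
    0x7461ac861ac111cae14c4a1618e1ac1d1c6e18c, 0,
    0xccca26615292396198d663c1a16849c4a1638e1acc151c62389], [0, 0,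
    0x1c5a1613a69aa11cc65ce182, 0xb4e16c861ac111cae14c19461861a351e1567ce189,
    0x396a1651a61ac191c6e182], [0, 0,
    0x664e4214484e4ec868aaaae22ce1cc4a8664888e8ae222eeeee88cee18c, 0,
    0xe66e88621aa6822aa82c42ac6c8c62cace9c4a86668a8c8ae222eeeee88cee189], [0, 0,
    0x446886ee6ecca66aaeec22c44cee142,
    0x666e4214484e4ec868aaaae8e1c8444888e8e226e4e144e4aeeae44caa1cc,
    0xcc6aa6644a88aeeae22ceec88cee182]]

noncomputable def n2023 : Ent := ⟨e2023, noF, [], [], [(8, 16, [7334685537875745012586738086077695515070955365108989538292687701950465, 0]), (8, 17, [6903326391201334775872065844685381424292761054348340378595029937967105, 0]), (16, 17, [6903326391201334775872065844685381424292761054348340378595029937971201, 0])]⟩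

def c2023 : PLift (Cov.check n2023.C.D v2023 = true) := ⟨by decide +kernel⟩

def b2023 : PLift (entF (fidx ts) 400 2023 n2023 = true) := ⟨by decide +kernel⟩

theorem g2023 : GoodF (fidx ts) 400 2023 := GoodF.ofV v2023 n2023 c2023.down b2023.down

/-- 4847646:1716/1 -/
noncomputable def e2024 : SCfg where
  D := {
    a := 7
    L := 10
    kp := 8
    inn := [(0, 1), (1, 0), (1, 2), (1, 3), (1, 4), (2, 1), (2, 3), (3, 1), (3, 2), (3, 4), (3, 6), (4,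
      1), (4, 3), (4, 5), (4, 6), (5, 4), (5, 6), (6, 3), (6, 4), (6, 5)]
    mix := [(0, 0), (0, 1), (0, 2), (1, 0), (1, 2), (1, 3), (1, 4), (2, 3), (2, 5), (3, 5), (3, 6), (3,
      7), (4, 4), (4, 8), (5, 8), (5, 9), (6, 1), (6, 7), (6, 9)]
    cl := [0, 1, 6, 0, 2, 3, 8, 4, 5, 7]
    chq := [(1, 2), (1, 5), (2, 1), (2, 3), (2, 4), (2, 8), (3, 2), (4, 2), (5, 1), (8, 2)]
    rng := [(0, 1), (0, 4), (1, 0), (1, 2), (1, 7), (1, 9), (2, 1), (2, 3), (3, 2), (3, 5), (4, 0), (4,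
      8), (5, 3), (5, 6), (6, 5), (6, 7), (7, 1), (7, 6), (8, 4), (8, 9), (9, 1), (9, 8)]
    lev := [] }
  links := [[1, 7, 8, 9], [7, 0, 9, 10, 2, 3, 4, 11], [3, 1, 10, 12], [4, 1, 2, 12, 13, 14, 6], [11, 1,
    3, 6, 5, 15], [15, 4, 6, 16], [16, 5, 4, 3, 14, 8]]
  P := {
    a := 7
    N := 17
    nb := [898, 3741, 5130, 28758, 34922, 98384, 82232, 2307, 82625, 1283, 4614, 32914, 9228, 20488,
      8520, 67632, 33120]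
    tri := [(0, 1, 7), (0, 1, 9), (0, 7, 8), (0, 8, 9), (1, 2, 3), (1, 2, 10), (1, 3, 4), (1, 4, 11),
      (1, 7, 11), (1, 9, 10), (2, 3, 12), (2, 10, 12), (3, 4, 6), (3, 6, 14), (3, 12, 13), (3, 13,
      14), (4, 5, 6), (4, 5, 15), (4, 11, 15), (5, 6, 16), (5, 15, 16), (6, 8, 14), (6, 8, 16)]
    fin := [0, 0, 0, 3, 3, 5, 5, 0, 5, 9, 0, 3, 12, 13, 14, 15, 16]
    chd := [(3, 12), (3, 13), (3, 14), (5, 3), (5, 15)]
    steps := [(0, 1), (0, 2), (0, 7), (0, 10), (3, 4), (3, 11), (5, 6), (5, 8)] }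
  rep := [0, 5, 3, 12, 14, 15, 9, 16, 13]

noncomputable def v2024 : Cov.CovD where
  P := 3
  N := 6
  pl := [2, 9]
  lev := [⟨[], [], [(0, 1)], [6], [(0, 0, []), (1, 1, [2, 5])]⟩,
    ⟨[], [(0, 0), (0, 1), (0, 2)], [(0, 0), (0, 2)], [6], [(0, 0, []), (3, 0, []), (4, 2,
      [1, 3, 4, 8])]⟩,
    ⟨[(0, 1)], [(1, 0), (1, 2), (1, 3)], [(0, 3)], [], [(3, 0, []), (5, 3, [2])]⟩,
    ⟨[(0, 1), (1, 2)], [(1, 0), (1, 2), (1, 3), (1, 4), (1, 8), (2, 0), (2, 3), (2, 4), (2,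
      8)], [(3, 4), (3, 8), (4, 8)], [], [(5, 3, [2]), (6, 8, [2]), (7, 4, [2])]⟩,
    ⟨[(0, 1), (1, 2), (1, 3), (2, 3)], [(1, 0), (1, 2), (1, 5), (3, 2), (3, 3), (3, 4), (3,
      5), (3, 8)], [(2, 5)], [], [(4, 2, [1, 3, 4, 8]), (8, 5, [1])]⟩,
    ⟨[(1, 4), (3, 4)], [(4, 2), (4, 5)], [], [7], [(8, 5, [1])]⟩,
    ⟨[(1, 3), (1, 4), (2, 3), (3, 4), (3, 5), (4, 5)], [(0, 1), (3, 1), (3, 3), (3, 4), (3,
      8), (4, 1), (4, 2), (4, 4), (4, 5), (5, 1), (5, 4), (5, 5)], [(1, 4)], [7], [(1, 1, [2,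
      5]), (7, 4, [2])]⟩]
  Ta := [((0, 1), 0, 1), ((0, 4), 0, 2), ((3, 2), 0, 6), ((3, 5), 0, 3)]
  Tb := [((0, 1, 4), 0, 1, 2), ((1, 0, 2), 1, 0, 6), ((1, 0, 7), 1, 0, 4), ((1, 0, 9), 1, 0, 7),
    ((1, 2, 7), 1, 6, 4), ((1, 2, 9), 1, 6, 7), ((1, 7, 9), 1, 4, 7), ((2, 1, 3), 6, 1, 0),
    ((3, 2, 5), 0, 6, 3), ((4, 0, 8), 2, 0, 5), ((5, 3, 6), 3, 0, 8), ((6, 5, 7), 8, 3, 4),
    ((7, 1, 6), 4, 1, 8), ((8, 4, 9), 5, 2, 7), ((9, 1, 8), 7, 1, 5)]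
  Tc := [(1, 2, 5), (2, 1, 3), (2, 1, 4), (2, 1, 8), (2, 3, 4), (2, 3, 8), (2, 4, 8)]
  Td := [((1, 2), (1, 0), 0), ((1, 2), (1, 2), 6), ((1, 2), (1, 7), 4), ((1, 2), (1, 9), 7), ((1,
    5), (1, 0), 0), ((1, 5), (1, 2), 6), ((1, 5), (1, 7), 4), ((1, 5), (1, 9), 7), ((2, 1),
    (4, 0), 0), ((2, 1), (4, 8), 5), ((2, 3), (4, 0), 0), ((2, 3), (4, 8), 5), ((2, 4), (4,
    0), 0), ((2, 4), (4, 8), 5), ((2, 8), (4, 0), 0), ((2, 8), (4, 8), 5), ((3, 2), (5, 3),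
    0), ((3, 2), (5, 6), 8), ((4, 2), (7, 1), 1), ((4, 2), (7, 6), 8), ((5, 1), (8, 4), 2),
    ((5, 1), (8, 9), 7), ((8, 2), (6, 5), 3), ((8, 2), (6, 7), 4)]
  G := [[0, 0x2211221e116321188a2112219e1123221446c, 0xdd1e211dde2168d59e21d59e21a4c,
    0xd2d25218d2d29224c, 0x44219949f2434426544281a4228444214422d699542b44449e5ac], [0, 0, 0,
    0xd2d29224d2d252286, 0x44244238d5b2468cd5b244428c44c4924a4424291cad6bc54218d696394e2d]]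

noncomputable def n2024 : Ent := ⟨e2024, noF, [], [], []⟩

def c2024 : PLift (Cov.check n2024.C.D v2024 = true) := ⟨by decide +kernel⟩

def b2024 : PLift (entF (fidx ts) 400 2024 n2024 = true) := ⟨by decide +kernel⟩

theorem g2024 : GoodF (fidx ts) 400 2024 := GoodF.ofV v2024 n2024 c2024.down b2024.down

/-- 4847646:1716/2 -/
noncomputable def e2025 : SCfg where
  D := {
    a := 7
    L := 10
    kp := 8
    inn := [(0, 1), (1, 0), (1, 2), (1, 3), (1, 4), (2, 1), (2, 3), (3, 1), (3, 2), (3, 4), (3, 6), (4,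
      1), (4, 3), (4, 5), (4, 6), (5, 4), (5, 6), (6, 3), (6, 4), (6, 5)]
    mix := [(0, 0), (0, 1), (0, 2), (1, 0), (1, 2), (1, 3), (1, 4), (2, 3), (2, 5), (3, 5), (3, 6), (3,
      7), (4, 4), (4, 8), (5, 1), (5, 8), (6, 1), (6, 7), (6, 9)]
    cl := [0, 1, 2, 0, 3, 5, 7, 4, 6, 8]
    chq := [(0, 7), (1, 3), (1, 4), (1, 7), (3, 1), (3, 7), (4, 1), (7, 0), (7, 1), (7, 3)]
    rng := [(0, 1), (0, 4), (1, 0), (1, 2), (1, 8), (1, 9), (2, 1), (2, 3), (3, 2), (3, 5), (4, 0), (4,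
      8), (5, 3), (5, 6), (6, 5), (6, 7), (7, 6), (7, 9), (8, 1), (8, 4), (9, 1), (9, 7)]
    lev := [] }
  links := [[1, 7, 8, 9], [7, 0, 9, 10, 2, 3, 4, 11], [3, 1, 10, 12], [4, 1, 2, 12, 13, 14, 6], [11, 1,
    3, 6, 5, 15], [15, 4, 6, 8], [8, 5, 4, 3, 14, 16]]
  P := {
    a := 7
    N := 17
    nb := [898, 3741, 5130, 28758, 34922, 33104, 82232, 2307, 99041, 1283, 4614, 32914, 9228, 20488,
      73800, 2352, 16704]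
    tri := [(0, 1, 7), (0, 1, 9), (0, 7, 8), (0, 8, 9), (1, 2, 3), (1, 2, 10), (1, 3, 4), (1, 4, 11),
      (1, 7, 11), (1, 9, 10), (2, 3, 12), (2, 10, 12), (3, 4, 6), (3, 6, 14), (3, 12, 13), (3, 13,
      14), (4, 5, 6), (4, 5, 15), (4, 11, 15), (5, 6, 8), (5, 8, 15), (6, 8, 16), (6, 14, 16)]
    fin := [0, 0, 0, 3, 4, 5, 5, 0, 5, 9, 0, 4, 12, 3, 14, 15, 16]
    chd := [(0, 3), (4, 3), (5, 3), (5, 4), (5, 14)]
    steps := [(0, 1), (0, 2), (0, 7), (0, 10), (3, 13), (4, 11), (5, 6), (5, 8)] }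
  rep := [0, 5, 9, 4, 14, 12, 15, 3, 16]

noncomputable def v2025 : Cov.CovD where
  P := 3
  N := 6
  pl := [2, 5, 8, 9]
  lev := [⟨[], [], [(0, 1)], [2], [(0, 0, [7]), (1, 1, [3, 4, 7])]⟩,
    ⟨[], [(0, 0), (0, 1), (0, 3)], [(0, 0), (0, 3)], [2], [(0, 0, [7]), (3, 0, [7]), (4, 3,
      [1, 7])]⟩,
    ⟨[(0, 1)], [(1, 0), (1, 3)], [], [5], [(3, 0, [7])]⟩,
    ⟨[(0, 1), (1, 2)], [(1, 0), (1, 3), (1, 4), (1, 7), (2, 0), (2, 4), (2, 7)], [(4, 7)],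
      [5], [(6, 7, [0, 1, 3]), (7, 4, [1])]⟩,
    ⟨[(0, 1), (1, 2), (1, 3), (2, 3)], [(1, 0), (1, 3), (3, 3), (3, 4), (3, 7)], [], [6],
      [(4, 3, [1, 7])]⟩,
    ⟨[(1, 4), (3, 4)], [(0, 1), (4, 1), (4, 3)], [], [6], [(1, 1, [3, 4, 7])]⟩,
    ⟨[(1, 3), (1, 4), (2, 3), (3, 4), (3, 5), (4, 5)], [(0, 1), (3, 1), (3, 4), (3, 7), (4,
      1), (4, 3), (4, 4), (5, 1), (5, 4)], [(1, 4)], [8], [(1, 1, [3, 4, 7]), (7, 4, [1])]⟩]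
  Ta := [((0, 1), 0, 1), ((0, 4), 0, 3), ((3, 2), 0, 2), ((3, 5), 0, 5)]
  Tb := [((0, 1, 4), 0, 1, 3), ((1, 0, 2), 1, 0, 2), ((1, 0, 8), 1, 0, 6), ((1, 0, 9), 1, 0, 8),
    ((1, 2, 8), 1, 2, 6), ((1, 2, 9), 1, 2, 8), ((1, 8, 9), 1, 6, 8), ((2, 1, 3), 2, 1, 0),
    ((3, 2, 5), 0, 2, 5), ((4, 0, 8), 3, 0, 6), ((5, 3, 6), 5, 0, 7), ((6, 5, 7), 7, 5, 4),
    ((7, 6, 9), 4, 7, 8), ((8, 1, 4), 6, 1, 3), ((9, 1, 7), 8, 1, 4)]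
  Tc := [(1, 3, 4), (1, 3, 7), (1, 4, 7), (3, 1, 7), (7, 0, 1), (7, 0, 3), (7, 1, 3)]
  Td := [((0, 7), (0, 1), 1), ((0, 7), (0, 4), 3), ((0, 7), (3, 2), 2), ((0, 7), (3, 5), 5), ((1,
    3), (1, 0), 0), ((1, 3), (1, 2), 2), ((1, 3), (1, 8), 6), ((1, 3), (1, 9), 8), ((1, 4),
    (1, 0), 0), ((1, 4), (1, 2), 2), ((1, 4), (1, 8), 6), ((1, 4), (1, 9), 8), ((1, 7), (1,
    0), 0), ((1, 7), (1, 2), 2), ((1, 7), (1, 8), 6), ((1, 7), (1, 9), 8), ((3, 1), (4, 0),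
    0), ((3, 1), (4, 8), 6), ((3, 7), (4, 0), 0), ((3, 7), (4, 8), 6), ((4, 1), (7, 6), 7),
    ((4, 1), (7, 9), 8), ((7, 0), (6, 5), 5), ((7, 0), (6, 7), 4), ((7, 1), (6, 5), 5), ((7,
    1), (6, 7), 4), ((7, 3), (6, 5), 5), ((7, 3), (6, 7), 4)]
  G := [[0, 0xeec11ee6116eec11ee611ac4, 0, 0x514d21dd521152dd92e94198d211152dd92dd92e58c,
    0x846d811cd72184b4558e17819cda1a4558dd787482899491c5f494d1c95eda8], [0, 0,
    0x9842245488c1d221c3122244461748419c48514dc83fc48132488a1b484183499cef248284ceec,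
    0x542dd92a588d2ddc2d5c2b11924d4594d2dd52958d271152882ddc2ec8c,
    0x5422d21c35262454617481c93d494518dd3815cdaf841893289421bd811cd514d1cc47f248284cea8]]

noncomputable def n2025 : Ent := ⟨e2025, noF, [], [], []⟩

def c2025 : PLift (Cov.check n2025.C.D v2025 = true) := ⟨by decide +kernel⟩

def b2025 : PLift (entF (fidx ts) 400 2025 n2025 = true) := ⟨by decide +kernel⟩

theorem g2025 : GoodF (fidx ts) 400 2025 := GoodF.ofV v2025 n2025 c2025.down b2025.down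

/-- 4847646:1716 -/
noncomputable def e2026 : SCfg where
  D := {
    a := 7
    L := 11
    kp := 9
    inn := [(0, 1), (1, 0), (1, 2), (1, 3), (1, 4), (2, 1), (2, 3), (3, 1), (3, 2), (3, 4), (3, 6), (4,
      1), (4, 3), (4, 5), (4, 6), (5, 4), (5, 6), (6, 3), (6, 4), (6, 5)]
    mix := [(0, 0), (0, 1), (0, 2), (1, 0), (1, 2), (1, 3), (1, 4), (2, 3), (2, 5), (3, 5), (3, 6), (3,
      7), (4, 4), (4, 8), (5, 8), (5, 9), (6, 7), (6, 9), (6, 10)]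
    cl := [0, 9, 2, 0, 1, 5, 7, 3, 6, 4, 8]
    chq := [(0, 3), (0, 7), (1, 3), (1, 4), (1, 8), (3, 0), (3, 1), (4, 1), (7, 0), (8, 1)]
    rng := [(0, 1), (0, 4), (1, 0), (1, 2), (2, 1), (2, 3), (3, 2), (3, 5), (4, 0), (4, 8), (5, 3), (5,
      6), (6, 5), (6, 7), (7, 6), (7, 10), (8, 4), (8, 9), (9, 8), (9, 10), (10, 7), (10, 9)]
    lev := [] }
  links := [[1, 7, 8, 9], [7, 0, 9, 10, 2, 3, 4, 11], [3, 1, 10, 12], [4, 1, 2, 12, 13, 14, 6], [11, 1,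
    3, 6, 5, 15], [15, 4, 6, 16], [16, 5, 4, 3, 14, 17]]
  P := {
    a := 7
    N := 18
    nb := [898, 3741, 5130, 28758, 34922, 98384, 213048, 2307, 641, 1283, 4614, 32914, 9228, 20488,
      139336, 67632, 163936, 81984]
    tri := [(0, 1, 7), (0, 1, 9), (0, 7, 8), (0, 8, 9), (1, 2, 3), (1, 2, 10), (1, 3, 4), (1, 4, 11),
      (1, 7, 11), (1, 9, 10), (2, 3, 12), (2, 10, 12), (3, 4, 6), (3, 6, 14), (3, 12, 13), (3, 13,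
      14), (4, 5, 6), (4, 5, 15), (4, 11, 15), (5, 6, 16), (5, 15, 16), (6, 14, 17), (6, 16, 17)]
    fin := [0, 0, 0, 0, 4, 5, 4, 0, 8, 9, 0, 4, 12, 13, 14, 15, 5, 17]
    chd := [(0, 13), (0, 14), (4, 5), (4, 14), (4, 17)]
    steps := [(0, 1), (0, 2), (0, 3), (0, 7), (0, 10), (4, 6), (4, 11), (5, 16)] }
  rep := [0, 4, 9, 14, 5, 12, 15, 13, 17, 8]

noncomputable def v2026 : Cov.CovD where
  P := 3
  N := 7
  pl := [1, 2, 5, 8]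
  lev := [⟨[], [], [], [2, 9], [(0, 0, [3, 7])]⟩,
    ⟨[], [(0, 0), (0, 1)], [(0, 0), (0, 1)], [2], [(0, 0, [3, 7]), (3, 0, [3, 7]), (4, 1,
      [3, 4, 8])]⟩,
    ⟨[(0, 1)], [(1, 0), (1, 1)], [], [5], [(3, 0, [3, 7])]⟩,
    ⟨[(0, 1), (1, 2)], [(1, 0), (1, 1), (1, 3), (1, 7), (2, 0), (2, 3), (2, 7)], [(3, 7)],
      [5], [(6, 7, [0]), (7, 3, [0, 1])]⟩,
    ⟨[(0, 1), (1, 2), (1, 3), (2, 3)], [(1, 0), (1, 1), (3, 1), (3, 3), (3, 7)], [], [6],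
      [(4, 1, [3, 4, 8])]⟩,
    ⟨[(1, 4), (3, 4)], [(4, 1), (4, 4)], [], [6], [(9, 4, [1])]⟩,
    ⟨[(1, 3), (1, 4), (2, 3), (3, 4), (3, 5), (4, 5)], [(3, 3), (3, 4), (3, 7), (3, 8), (4,
      1), (4, 3), (4, 4), (4, 8), (5, 3), (5, 4), (5, 8)], [(3, 4), (3, 8), (4, 8)], [], [(7,
      3, [0, 1]), (9, 4, [1]), (10, 8, [1])]⟩]
  Ta := [((0, 1), 0, 9), ((0, 4), 0, 1), ((3, 2), 0, 2), ((3, 5), 0, 5)]
  Tb := [((0, 1, 4), 0, 9, 1), ((1, 0, 2), 9, 0, 2), ((2, 1, 3), 2, 9, 0), ((3, 2, 5), 0, 2, 5),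
    ((4, 0, 8), 1, 0, 6), ((5, 3, 6), 5, 0, 7), ((6, 5, 7), 7, 5, 3), ((7, 6, 10), 3, 7, 8),
    ((8, 4, 9), 6, 1, 4), ((9, 8, 10), 4, 6, 8), ((10, 7, 9), 8, 3, 4)]
  Tc := [(0, 3, 7), (1, 3, 4), (1, 3, 8), (1, 4, 8), (3, 0, 1)]
  Td := [((0, 3), (0, 1), 9), ((0, 3), (0, 4), 1), ((0, 3), (3, 2), 2), ((0, 3), (3, 5), 5), ((0,
    7), (0, 1), 9), ((0, 7), (0, 4), 1), ((0, 7), (3, 2), 2), ((0, 7), (3, 5), 5), ((1, 3),
    (4, 0), 0), ((1, 3), (4, 8), 6), ((1, 4), (4, 0), 0), ((1, 4), (4, 8), 6), ((1, 8), (4,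
    0), 0), ((1, 8), (4, 8), 6), ((3, 0), (7, 6), 7), ((3, 0), (7, 10), 8), ((3, 1), (7, 6),
    7), ((3, 1), (7, 10), 8), ((4, 1), (9, 8), 6), ((4, 1), (9, 10), 8), ((7, 0), (6, 5), 5),
    ((7, 0), (6, 7), 3), ((8, 1), (10, 7), 3), ((8, 1), (10, 9), 4)]
  G := [[0, 0x11c11a61211c116a14c11c11a61811c116a12cc, 0,
    0x2254122541622981229816c2254122541c2298122981acc,
    0x229122272255222d22a51282b127229812181ca623222d88e1623222d88e168221818b], [0, 0,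
    0x229b244e1242141827a24918c72282728d148e,
    0x22c229512e2c2d2bda22541622c22592292124d527a81cc1,
    0x222d4122c2295236222d922dea52b521289f62322588e1e81]]

noncomputable def n2026 : Ent := ⟨e2026, noF, [], [], [(8, 17, [6903326391201334775872065844685381424292761054348340378595029937979393, 0]), (8, 16, [7334685537875745012586738086077695515070955365108989538292687701970945, 0])]⟩

def c2026 : PLift (Cov.check n2026.C.D v2026 = true) := ⟨by decide +kernel⟩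

def b2026 : PLift (entF (fidx ts) 400 2026 n2026 = true) := ⟨by decide +kernel⟩

theorem g2026 : GoodF (fidx ts) 400 2026 := GoodF.ofV v2026 n2026 c2026.down b2026.down

/-- 4847646:1717 -/
noncomputable def e2027 : SCfg where
  D := {
    a := 7
    L := 11
    kp := 8
    inn := [(0, 1), (1, 0), (1, 2), (1, 3), (1, 4), (1, 6), (2, 1), (2, 3), (3, 1), (3, 2), (3, 4), (4,
      1), (4, 3), (4, 5), (4, 6), (5, 4), (5, 6), (6, 1), (6, 4), (6, 5)]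
    mix := [(0, 0), (0, 1), (0, 2), (1, 0), (1, 2), (1, 3), (2, 3), (2, 4), (3, 4), (3, 5), (3, 6), (3,
      7), (4, 7), (4, 8), (5, 8), (5, 9), (6, 0), (6, 9), (6, 10)]
    cl := [0, 5, 2, 0, 1, 6, 7, 1, 3, 4, 8]
    chq := [(0, 3), (0, 4), (3, 0), (4, 0)]
    rng := [(0, 1), (0, 10), (1, 0), (1, 2), (2, 1), (2, 3), (3, 2), (3, 4), (4, 3), (4, 5), (5, 4),
      (5, 6), (6, 5), (6, 7), (7, 6), (7, 8), (8, 7), (8, 9), (9, 8), (9, 10), (10, 0), (10, 9)]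
    lev := [] }
  links := [[1, 7, 8, 9], [7, 0, 9, 10, 2, 3, 4, 6], [3, 1, 10, 11], [4, 1, 2, 11, 12, 13, 14], [6, 1, 3,
    14, 15, 5], [6, 4, 15, 16], [7, 1, 4, 5, 16, 17]]
  P := {
    a := 7
    N := 18
    nb := [898, 1757, 3082, 30742, 49258, 98384, 196786, 131395, 641, 1283, 2566, 5132, 10248, 20488,
      40984, 81968, 163936, 65728]
    tri := [(0, 1, 7), (0, 1, 9), (0, 7, 8), (0, 8, 9), (1, 2, 3), (1, 2, 10), (1, 3, 4), (1, 4, 6),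
      (1, 6, 7), (1, 9, 10), (2, 3, 11), (2, 10, 11), (3, 4, 14), (3, 11, 12), (3, 12, 13), (3,
      13, 14), (4, 5, 6), (4, 5, 15), (4, 14, 15), (5, 6, 16), (5, 15, 16), (6, 7, 17), (6, 16,
      17)]
    fin := [0, 0, 0, 3, 0, 0, 0, 0, 8, 9, 0, 3, 12, 13, 3, 15, 16, 17]
    chd := [(0, 15), (0, 16)]
    steps := [(0, 1), (0, 2), (0, 4), (0, 5), (0, 6), (0, 7), (0, 10), (3, 11), (3, 14)] }
  rep := [0, 3, 9, 15, 16, 8, 12, 13, 17]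

noncomputable def v2027 : Cov.CovD where
  P := 3
  N := 6
  pl := [1, 2, 5, 6, 10]
  lev := [⟨[], [], [], [2, 5], [(0, 0, [3, 4])]⟩,
    ⟨[], [(0, 0)], [(0, 0)], [2], [(0, 0, [3, 4]), (3, 0, [3, 4])]⟩,
    ⟨[(0, 1)], [(1, 0), (1, 1)], [(0, 1)], [], [(3, 0, [3, 4]), (4, 1, [])]⟩,
    ⟨[(0, 1), (1, 2)], [(1, 0), (1, 1), (2, 0), (2, 1)], [(1, 1)], [6, 7], [(4, 1, []), (7,
      1, [])]⟩,
    ⟨[(0, 1), (1, 2), (1, 3), (2, 3)], [(1, 0), (1, 1), (1, 3), (3, 1), (3, 3)], [(1, 3)],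
      [], [(7, 1, []), (8, 3, [0])]⟩,
    ⟨[(1, 4), (3, 4)], [(4, 1), (4, 3), (4, 4)], [(3, 4)], [], [(8, 3, [0]), (9, 4, [0])]⟩,
    ⟨[(0, 1), (1, 2), (1, 3), (1, 4), (1, 5), (3, 4), (4, 5)], [(0, 0), (1, 0), (1, 4), (4,
      0), (4, 1), (4, 3), (4, 4), (5, 0), (5, 3), (5, 4)], [(0, 4)], [8], [(0, 0, [3, 4]),
      (9, 4, [0])]⟩]
  Ta := [((0, 1), 0, 5), ((0, 10), 0, 8), ((3, 2), 0, 2), ((3, 4), 0, 1), ((4, 3), 1, 0), ((4,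
    5), 1, 6), ((7, 6), 1, 7), ((7, 8), 1, 3)]
  Tb := [((0, 1, 10), 0, 5, 8), ((1, 0, 2), 5, 0, 2), ((2, 1, 3), 2, 5, 0), ((3, 2, 4), 0, 2, 1),
    ((4, 3, 5), 1, 0, 6), ((5, 4, 6), 6, 1, 7), ((6, 5, 7), 7, 6, 1), ((7, 6, 8), 1, 7, 3),
    ((8, 7, 9), 3, 1, 4), ((9, 8, 10), 4, 3, 8), ((10, 0, 9), 8, 0, 4)]
  Tc := [(0, 3, 4)]
  Td := [((0, 3), (0, 1), 5), ((0, 3), (0, 10), 8), ((0, 3), (3, 2), 2), ((0, 3), (3, 4), 1),
    ((0, 4), (0, 1), 5), ((0, 4), (0, 10), 8), ((0, 4), (3, 2), 2), ((0, 4), (3, 4), 1), ((3,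
    0), (8, 7), 1), ((3, 0), (8, 9), 4), ((4, 0), (9, 8), 3), ((4, 0), (9, 10), 8)]
  G := [[0, 0, 0, 0x4122341c6cb181212c122bd8c41223c122321c1227d481281cc,
    0x412232141654e24ef18891a181cd8a116225cac7112c122bd44c3181aa], [0, 0, 0,
    0x445161454e181c1c6eb1a18a69c3c42671618ac7961e1cd4889181892cc,
    0xa6ed1a16e59e1e1cd4221ca6916146a5243a1cc381885c11c18d8aa], [0,
    0x6161661a1c1e61e1ce281883812a4c1, 0x61144e11811c1223d8c611c1223c1223d481188aa,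
    0xc122344c122322c122b98c1, 0x412c122322c122bd421a188d84a1], [0, 0,
    0xe11e11e1116cd4261142118cc1181111a116cd4aa, 0x4261cae7161e1cd48e9188198c1,
    0x61a1c1da6ed1e1e1cd421]]

noncomputable def n2027 : Ent := ⟨e2027, noF, [], [], []⟩

def c2027 : PLift (Cov.check n2027.C.D v2027 = true) := ⟨by decide +kernel⟩

def b2027 : PLift (entF (fidx ts) 400 2027 n2027 = true) := ⟨by decide +kernel⟩

theorem g2027 : GoodF (fidx ts) 400 2027 := GoodF.ofV v2027 n2027 c2027.down b2027.down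

/-- 4847544:1719/2 -/
noncomputable def e2028 : SCfg where
  D := {
    a := 7
    L := 9
    kp := 6
    inn := [(0, 1), (1, 0), (1, 2), (1, 3), (1, 4), (2, 1), (2, 3), (3, 1), (3, 2), (3, 5), (3, 6), (4,
      1), (5, 3), (6, 3)]
    mix := [(0, 0), (0, 1), (0, 2), (1, 0), (1, 2), (1, 3), (1, 4), (2, 3), (2, 5), (3, 4), (3, 5), (3,
      6), (4, 0), (4, 4), (4, 7), (4, 8), (5, 1), (5, 5), (5, 6), (6, 4), (6, 6), (6, 7)]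
    cl := [0, 1, 2, 0, 0, 4, 3, 5, 6]
    chq := [(0, 3), (3, 0), (3, 4), (4, 3)]
    rng := [(0, 1), (0, 8), (1, 0), (1, 2), (1, 5), (1, 6), (2, 1), (2, 3), (3, 2), (3, 5), (4, 7), (5,
      1), (5, 3), (6, 1), (6, 7), (7, 4), (7, 6), (7, 8), (8, 0), (8, 7)]
    lev := [] }
  links := [[1, 7, 8, 9], [7, 0, 9, 10, 2, 3, 11, 4], [3, 1, 10, 12], [11, 1, 2, 12, 5, 13, 6], [7, 1,
    11, 14, 15], [13, 3, 12, 8], [11, 3, 13, 14]]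
  P := {
    a := 7
    N := 16
    nb := [898, 3741, 5130, 14438, 51330, 12552, 26632, 33043, 12961, 1283, 4614, 16474, 1324, 16744,
      43088, 16528]
    tri := [(0, 1, 7), (0, 1, 9), (0, 7, 8), (0, 8, 9), (1, 2, 3), (1, 2, 10), (1, 3, 11), (1, 4, 7),
      (1, 4, 11), (1, 9, 10), (2, 3, 12), (2, 10, 12), (3, 5, 12), (3, 5, 13), (3, 6, 11), (3, 6,
      13), (4, 7, 15), (4, 11, 14), (4, 14, 15), (5, 8, 12), (5, 8, 13), (6, 11, 14), (6, 13, 14)]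
    fin := [0, 0, 0, 3, 0, 5, 0, 0, 5, 9, 0, 0, 3, 13, 14, 15]
    chd := [(0, 13), (3, 13)]
    steps := [(0, 1), (0, 2), (0, 4), (0, 7), (0, 10), (0, 11), (0, 6), (3, 12), (5, 8)] }
  rep := [0, 5, 9, 13, 3, 14, 15]

noncomputable def v2028 : Cov.CovD where
  P := 3
  N := 4
  pl := [1, 2, 7, 8]
  lev := [⟨[], [], [], [1, 2], [(0, 0, [3])]⟩,
    ⟨[], [(0, 0)], [(0, 0)], [2], [(0, 0, [3]), (3, 0, [3]), (4, 0, [3])]⟩,
    ⟨[(0, 1)], [(1, 0), (1, 4)], [(0, 4)], [], [(3, 0, [3]), (5, 4, [3])]⟩,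
    ⟨[(0, 1), (1, 2)], [(1, 0), (1, 3), (1, 4), (2, 0), (2, 3), (2, 4)], [(0, 3), (0, 4),
      (3, 4)], [], [(4, 0, [3]), (5, 4, [3]), (6, 3, [0, 4])]⟩,
    ⟨[(0, 1), (1, 2), (1, 3)], [(0, 0), (1, 0), (3, 0)], [(0, 0)], [5, 6], [(0, 0, [3]),
      (4, 0, [3])]⟩,
    ⟨[(1, 3), (2, 3)], [(2, 4), (3, 0), (3, 3), (3, 4)], [(3, 4)], [1], [(5, 4, [3]), (6,
      3, [0, 4])]⟩,
    ⟨[(1, 3), (2, 3), (3, 5)], [(1, 0), (3, 0), (3, 3), (3, 4), (4, 0), (5, 3)], [(0, 3)],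
      [5], [(4, 0, [3]), (6, 3, [0, 4])]⟩]
  Ta := [((0, 1), 0, 1), ((0, 8), 0, 6), ((3, 2), 0, 2), ((3, 5), 0, 4), ((4, 7), 0, 5)]
  Tb := [((0, 1, 8), 0, 1, 6), ((1, 0, 2), 1, 0, 2), ((1, 0, 5), 1, 0, 4), ((1, 0, 6), 1, 0, 3),
    ((1, 2, 5), 1, 2, 4), ((1, 2, 6), 1, 2, 3), ((1, 5, 6), 1, 4, 3), ((2, 1, 3), 2, 1, 0),
    ((3, 2, 5), 0, 2, 4), ((5, 1, 3), 4, 1, 0), ((6, 1, 7), 3, 1, 5), ((7, 4, 6), 5, 0, 3),
    ((7, 4, 8), 5, 0, 6), ((7, 6, 8), 5, 3, 6), ((8, 0, 7), 6, 0, 5)]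
  Tc := [(3, 0, 4)]
  Td := [((0, 3), (0, 1), 1), ((0, 3), (0, 8), 6), ((0, 3), (3, 2), 2), ((0, 3), (3, 5), 4), ((0,
    3), (4, 7), 5), ((3, 0), (6, 1), 1), ((3, 0), (6, 7), 5), ((3, 4), (6, 1), 1), ((3, 4),
    (6, 7), 5), ((4, 3), (5, 1), 1), ((4, 3), (5, 3), 0)]
  G := [[0, 0x184814141414e121212e611818a81cc, 0, 0x915121e2184,
    0x21221815138e914114e1111ce1a8], [0, 0, 0x111111e8111111e2a111111e4468,
    0x282119d145dd15ea248, 0x844134e819119119e62115131e941424ec8a1], [0, 0, 0, 0xe1e121e2141,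
    0xe1e121e2181e1e1ee141e1ec1a1]]

noncomputable def n2028 : Ent := ⟨e2028, noF, [], [], []⟩

def c2028 : PLift (Cov.check n2028.C.D v2028 = true) := ⟨by decide +kernel⟩

def b2028 : PLift (entF (fidx ts) 400 2028 n2028 = true) := ⟨by decide +kernel⟩

theorem g2028 : GoodF (fidx ts) 400 2028 := GoodF.ofV v2028 n2028 c2028.down b2028.down

/-- 4847544:1719/1 -/
noncomputable def e2029 : SCfg where
  D := {
    a := 7
    L := 10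
    kp := 7
    inn := [(0, 1), (1, 0), (1, 2), (1, 3), (1, 4), (2, 1), (2, 3), (3, 1), (3, 2), (3, 5), (3, 6), (4,
      1), (5, 3), (6, 3)]
    mix := [(0, 0), (0, 1), (0, 2), (1, 0), (1, 2), (1, 3), (1, 4), (2, 3), (2, 5), (3, 4), (3, 5), (3,
      6), (4, 0), (4, 4), (4, 7), (4, 8), (5, 1), (5, 5), (5, 6), (6, 4), (6, 6), (6, 9)]
    cl := [0, 1, 2, 0, 0, 4, 3, 5, 6, 7]
    chq := [(0, 3), (3, 0), (3, 4), (4, 3)]
    rng := [(0, 1), (0, 8), (1, 0), (1, 2), (1, 5), (1, 6), (2, 1), (2, 3), (3, 2), (3, 5), (4, 7), (4,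
      9), (5, 1), (5, 3), (6, 1), (6, 9), (7, 4), (7, 8), (8, 0), (8, 7), (9, 4), (9, 6)]
    lev := [] }
  links := [[1, 7, 8, 9], [7, 0, 9, 10, 2, 3, 11, 4], [3, 1, 10, 12], [11, 1, 2, 12, 5, 13, 6], [7, 1,
    11, 14, 15], [13, 3, 12, 8], [11, 3, 13, 16]]
  P := {
    a := 7
    N := 17
    nb := [898, 3741, 5130, 14438, 51330, 12552, 75784, 33043, 12961, 1283, 4614, 82010, 1324, 65896,
      34832, 16528, 10304]
    tri := [(0, 1, 7), (0, 1, 9), (0, 7, 8), (0, 8, 9), (1, 2, 3), (1, 2, 10), (1, 3, 11), (1, 4, 7),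
      (1, 4, 11), (1, 9, 10), (2, 3, 12), (2, 10, 12), (3, 5, 12), (3, 5, 13), (3, 6, 11), (3, 6,
      13), (4, 7, 15), (4, 11, 14), (4, 14, 15), (5, 8, 12), (5, 8, 13), (6, 11, 16), (6, 13, 16)]
    fin := [0, 0, 0, 3, 0, 5, 0, 0, 5, 9, 0, 0, 3, 13, 14, 15, 16]
    chd := [(0, 13), (3, 13)]
    steps := [(0, 1), (0, 2), (0, 4), (0, 7), (0, 10), (0, 11), (0, 6), (3, 12), (5, 8)] }
  rep := [0, 5, 9, 13, 3, 14, 15, 16]

noncomputable def v2029 : Cov.CovD where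
  P := 3
  N := 5
  pl := [1, 2, 7, 8, 9]
  lev := [⟨[], [], [], [1, 2], [(0, 0, [3])]⟩,
    ⟨[], [(0, 0)], [(0, 0)], [2], [(0, 0, [3]), (3, 0, [3]), (4, 0, [3])]⟩,
    ⟨[(0, 1)], [(1, 0), (1, 4)], [(0, 4)], [], [(3, 0, [3]), (5, 4, [3])]⟩,
    ⟨[(0, 1), (1, 2)], [(1, 0), (1, 3), (1, 4), (2, 0), (2, 3), (2, 4)], [(0, 3), (0, 4),
      (3, 4)], [], [(4, 0, [3]), (5, 4, [3]), (6, 3, [0, 4])]⟩,
    ⟨[(0, 1), (1, 2), (1, 3)], [(0, 0), (1, 0), (3, 0)], [(0, 0)], [5, 6], [(0, 0, [3]),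
      (4, 0, [3])]⟩,
    ⟨[(1, 3), (2, 3)], [(2, 4), (3, 0), (3, 3), (3, 4)], [(3, 4)], [1], [(5, 4, [3]), (6,
      3, [0, 4])]⟩,
    ⟨[(1, 3), (2, 3), (3, 5)], [(1, 0), (3, 0), (3, 3), (3, 4), (4, 0), (5, 3)], [(0, 3)],
      [7], [(4, 0, [3]), (6, 3, [0, 4])]⟩]
  Ta := [((0, 1), 0, 1), ((0, 8), 0, 6), ((3, 2), 0, 2), ((3, 5), 0, 4), ((4, 7), 0, 5), ((4, 9),
    0, 7)]
  Tb := [((0, 1, 8), 0, 1, 6), ((1, 0, 2), 1, 0, 2), ((1, 0, 5), 1, 0, 4), ((1, 0, 6), 1, 0, 3),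
    ((1, 2, 5), 1, 2, 4), ((1, 2, 6), 1, 2, 3), ((1, 5, 6), 1, 4, 3), ((2, 1, 3), 2, 1, 0),
    ((3, 2, 5), 0, 2, 4), ((4, 7, 9), 0, 5, 7), ((5, 1, 3), 4, 1, 0), ((6, 1, 9), 3, 1, 7),
    ((7, 4, 8), 5, 0, 6), ((8, 0, 7), 6, 0, 5), ((9, 4, 6), 7, 0, 3)]
  Tc := [(3, 0, 4)]
  Td := [((0, 3), (0, 1), 1), ((0, 3), (0, 8), 6), ((0, 3), (3, 2), 2), ((0, 3), (3, 5), 4), ((0,
    3), (4, 7), 5), ((0, 3), (4, 9), 7), ((3, 0), (6, 1), 1), ((3, 0), (6, 9), 7), ((3, 4),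
    (6, 1), 1), ((3, 4), (6, 9), 7), ((4, 3), (5, 1), 1), ((4, 3), (5, 3), 0)]
  G := [[0, 0x184814141414e121212e611818a81cc, 0, 0xd1d1d1e2284,
    0xe122158b118e3111b4e91d1ce1a8], [0, 0, 0x111111e22111111e8111111e4ca4,
    0x11dd11dd11dde2248, 0x141111e1d9d11d9e62711131e1434594e184e8a1], [0, 0, 0,
    0xe1e1e1e2181, 0x614e1e1e1ee1e1e1ee1e181e1e81a1]]

noncomputable def n2029 : Ent := ⟨e2029, noF, [], [], [(16, 14, [1580095832788404724998799751142926758855362888449624481876427063297, 0])]⟩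

def c2029 : PLift (Cov.check n2029.C.D v2029 = true) := ⟨by decide +kernel⟩

def b2029 : PLift (entF (fidx ts) 400 2029 n2029 = true) := ⟨by decide +kernel⟩

theorem g2029 : GoodF (fidx ts) 400 2029 := GoodF.ofV v2029 n2029 c2029.down b2029.down

/-- 4847544:1719/4 -/
noncomputable def e2030 : SCfg where
  D := {
    a := 7
    L := 9
    kp := 6
    inn := [(0, 1), (1, 0), (1, 2), (1, 3), (1, 4), (2, 1), (2, 3), (3, 1), (3, 2), (3, 5), (3, 6), (4,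
      1), (5, 3), (6, 3)]
    mix := [(0, 0), (0, 1), (0, 2), (1, 0), (1, 2), (1, 3), (1, 4), (2, 3), (2, 5), (3, 4), (3, 5), (3,
      6), (4, 0), (4, 4), (4, 7), (4, 8), (5, 5), (5, 6), (5, 8), (6, 4), (6, 6), (6, 7)]
    cl := [0, 6, 2, 0, 0, 1, 3, 4, 5]
    chq := [(0, 3), (1, 3), (3, 0), (3, 1)]
    rng := [(0, 1), (0, 8), (1, 0), (1, 2), (2, 1), (2, 3), (3, 2), (3, 5), (4, 7), (5, 3), (5, 8), (6,
      7), (6, 8), (7, 4), (7, 6), (7, 8), (8, 0), (8, 5), (8, 6), (8, 7)]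
    lev := [] }
  links := [[1, 7, 8, 9], [7, 0, 9, 10, 2, 3, 11, 4], [3, 1, 10, 12], [11, 1, 2, 12, 5, 13, 6], [7, 1,
    11, 14, 15], [13, 3, 12, 15], [11, 3, 13, 14]]
  P := {
    a := 7
    N := 16
    nb := [898, 3741, 5130, 14438, 51330, 45064, 26632, 33043, 641, 1283, 4614, 16474, 33836, 49256,
      43088, 28848]
    tri := [(0, 1, 7), (0, 1, 9), (0, 7, 8), (0, 8, 9), (1, 2, 3), (1, 2, 10), (1, 3, 11), (1, 4, 7),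
      (1, 4, 11), (1, 9, 10), (2, 3, 12), (2, 10, 12), (3, 5, 12), (3, 5, 13), (3, 6, 11), (3, 6,
      13), (4, 7, 15), (4, 11, 14), (4, 14, 15), (5, 12, 15), (5, 13, 15), (6, 11, 14), (6, 13,
      14)]
    fin := [0, 0, 0, 0, 0, 5, 0, 0, 8, 9, 0, 0, 5, 13, 14, 15]
    chd := [(0, 13), (5, 13)]
    steps := [(0, 1), (0, 2), (0, 3), (0, 4), (0, 7), (0, 10), (0, 11), (0, 6), (5, 12)] }
  rep := [0, 5, 9, 13, 14, 15, 8]

noncomputable def v2030 : Cov.CovD where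
  P := 3
  N := 4
  pl := [1, 2, 7, 8]
  lev := [⟨[], [], [], [2, 6], [(0, 0, [3])]⟩,
    ⟨[], [(0, 0)], [(0, 0)], [2], [(0, 0, [3]), (3, 0, [3]), (4, 0, [3])]⟩,
    ⟨[(0, 1)], [(1, 0), (1, 1)], [(0, 1)], [], [(3, 0, [3]), (5, 1, [3])]⟩,
    ⟨[(0, 1), (1, 2)], [(1, 0), (1, 1), (1, 3), (2, 0), (2, 1), (2, 3)], [(0, 1), (0, 3),
      (1, 3)], [], [(4, 0, [3]), (5, 1, [3]), (6, 3, [0, 1])]⟩,
    ⟨[(0, 1), (1, 2), (1, 3)], [(0, 0), (1, 0), (3, 0)], [(0, 0)], [4, 5], [(0, 0, [3]),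
      (4, 0, [3])]⟩,
    ⟨[(1, 3), (2, 3)], [(2, 1), (3, 0), (3, 1), (3, 3)], [(1, 3)], [5], [(5, 1, [3]), (6,
      3, [0, 1])]⟩,
    ⟨[(1, 3), (2, 3), (3, 5)], [(1, 0), (3, 0), (3, 1), (3, 3), (4, 0), (5, 3)], [(0, 3)],
      [4], [(4, 0, [3]), (6, 3, [0, 1])]⟩]
  Ta := [((0, 1), 0, 6), ((0, 8), 0, 5), ((3, 2), 0, 2), ((3, 5), 0, 1), ((4, 7), 0, 4)]
  Tb := [((0, 1, 8), 0, 6, 5), ((1, 0, 2), 6, 0, 2), ((2, 1, 3), 2, 6, 0), ((3, 2, 5), 0, 2, 1),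
    ((5, 3, 8), 1, 0, 5), ((6, 7, 8), 3, 4, 5), ((7, 4, 6), 4, 0, 3), ((7, 4, 8), 4, 0, 5),
    ((7, 6, 8), 4, 3, 5), ((8, 0, 5), 5, 0, 1), ((8, 0, 6), 5, 0, 3), ((8, 0, 7), 5, 0, 4),
    ((8, 5, 6), 5, 1, 3), ((8, 5, 7), 5, 1, 4), ((8, 6, 7), 5, 3, 4)]
  Tc := [(3, 0, 1)]
  Td := [((0, 3), (0, 1), 6), ((0, 3), (0, 8), 5), ((0, 3), (3, 2), 2), ((0, 3), (3, 5), 1), ((0,
    3), (4, 7), 4), ((1, 3), (5, 3), 0), ((1, 3), (5, 8), 5), ((3, 0), (6, 7), 4), ((3, 0),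
    (6, 8), 5), ((3, 1), (6, 7), 4), ((3, 1), (6, 8), 5)]
  G := [[0, 0, 0, 0x44246118928921e1111ac94112168828c9245b421e458c,
    0x81119229e21514511ec128828a1512169114225ec58a], [0, 0x11a18a12e281c1418ce4681,
    0x111111e111411ec82181111e1121a444d42c, 0x4144112169121a888dc81, 0x114121e4811111e8c21],
    [0, 0, 0, 0x212614121ec181a1c81c1, 0x81a121e212c6141c4521]]

noncomputable def n2030 : Ent := ⟨e2030, noF, [], [], []⟩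

def c2030 : PLift (Cov.check n2030.C.D v2030 = true) := ⟨by decide +kernel⟩

def b2030 : PLift (entF (fidx ts) 400 2030 n2030 = true) := ⟨by decide +kernel⟩

theorem g2030 : GoodF (fidx ts) 400 2030 := GoodF.ofV v2030 n2030 c2030.down b2030.down

/-- 4847544:1719/3 -/
noncomputable def e2031 : SCfg where
  D := {
    a := 7
    L := 10
    kp := 7
    inn := [(0, 1), (1, 0), (1, 2), (1, 3), (1, 4), (2, 1), (2, 3), (3, 1), (3, 2), (3, 5), (3, 6), (4,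
      1), (5, 3), (6, 3)]
    mix := [(0, 0), (0, 1), (0, 2), (1, 0), (1, 2), (1, 3), (1, 4), (2, 3), (2, 5), (3, 4), (3, 5), (3,
      6), (4, 0), (4, 4), (4, 7), (4, 8), (5, 5), (5, 6), (5, 8), (6, 4), (6, 6), (6, 9)]
    cl := [0, 5, 2, 0, 0, 1, 3, 6, 4, 7]
    chq := [(0, 3), (1, 3), (3, 0), (3, 1)]
    rng := [(0, 1), (0, 8), (1, 0), (1, 2), (2, 1), (2, 3), (3, 2), (3, 5), (4, 7), (4, 9), (5, 3), (5,
      8), (6, 8), (6, 9), (7, 4), (7, 8), (8, 0), (8, 5), (8, 6), (8, 7), (9, 4), (9, 6)]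
    lev := [] }
  links := [[1, 7, 8, 9], [7, 0, 9, 10, 2, 3, 11, 4], [3, 1, 10, 12], [11, 1, 2, 12, 5, 13, 6], [7, 1,
    11, 14, 15], [13, 3, 12, 15], [11, 3, 13, 16]]
  P := {
    a := 7
    N := 17
    nb := [898, 3741, 5130, 14438, 51330, 45064, 75784, 33043, 641, 1283, 4614, 82010, 33836, 98408,
      34832, 28848, 10304]
    tri := [(0, 1, 7), (0, 1, 9), (0, 7, 8), (0, 8, 9), (1, 2, 3), (1, 2, 10), (1, 3, 11), (1, 4, 7),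
      (1, 4, 11), (1, 9, 10), (2, 3, 12), (2, 10, 12), (3, 5, 12), (3, 5, 13), (3, 6, 11), (3, 6,
      13), (4, 7, 15), (4, 11, 14), (4, 14, 15), (5, 12, 15), (5, 13, 15), (6, 11, 16), (6, 13,
      16)]
    fin := [0, 0, 0, 0, 0, 5, 0, 0, 8, 9, 0, 0, 5, 13, 14, 15, 16]
    chd := [(0, 13), (5, 13)]
    steps := [(0, 1), (0, 2), (0, 3), (0, 4), (0, 6), (0, 7), (0, 10), (0, 11), (5, 12)] }
  rep := [0, 5, 9, 13, 15, 8, 14, 16]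

noncomputable def v2031 : Cov.CovD where
  P := 3
  N := 5
  pl := [1, 2, 7, 8, 9]
  lev := [⟨[], [], [], [2, 5], [(0, 0, [3])]⟩,
    ⟨[], [(0, 0)], [(0, 0)], [2], [(0, 0, [3]), (3, 0, [3]), (4, 0, [3])]⟩,
    ⟨[(0, 1)], [(1, 0), (1, 1)], [(0, 1)], [], [(3, 0, [3]), (5, 1, [3])]⟩,
    ⟨[(0, 1), (1, 2)], [(1, 0), (1, 1), (1, 3), (2, 0), (2, 1), (2, 3)], [(0, 1), (0, 3),
      (1, 3)], [], [(4, 0, [3]), (5, 1, [3]), (6, 3, [0, 1])]⟩,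
    ⟨[(0, 1), (1, 2), (1, 3)], [(0, 0), (1, 0), (3, 0)], [(0, 0)], [4, 6], [(0, 0, [3]),
      (4, 0, [3])]⟩,
    ⟨[(1, 3), (2, 3)], [(2, 1), (3, 0), (3, 1), (3, 3)], [(1, 3)], [4], [(5, 1, [3]), (6,
      3, [0, 1])]⟩,
    ⟨[(1, 3), (2, 3), (3, 5)], [(1, 0), (3, 0), (3, 1), (3, 3), (4, 0), (5, 3)], [(0, 3)],
      [7], [(4, 0, [3]), (6, 3, [0, 1])]⟩]
  Ta := [((0, 1), 0, 5), ((0, 8), 0, 4), ((3, 2), 0, 2), ((3, 5), 0, 1), ((4, 7), 0, 6), ((4, 9),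
    0, 7)]
  Tb := [((0, 1, 8), 0, 5, 4), ((1, 0, 2), 5, 0, 2), ((2, 1, 3), 2, 5, 0), ((3, 2, 5), 0, 2, 1),
    ((4, 7, 9), 0, 6, 7), ((5, 3, 8), 1, 0, 4), ((6, 8, 9), 3, 4, 7), ((7, 4, 8), 6, 0, 4),
    ((8, 0, 5), 4, 0, 1), ((8, 0, 6), 4, 0, 3), ((8, 0, 7), 4, 0, 6), ((8, 5, 6), 4, 1, 3),
    ((8, 5, 7), 4, 1, 6), ((8, 6, 7), 4, 3, 6), ((9, 4, 6), 7, 0, 3)]
  Tc := [(3, 0, 1)]
  Td := [((0, 3), (0, 1), 5), ((0, 3), (0, 8), 4), ((0, 3), (3, 2), 2), ((0, 3), (3, 5), 1), ((0,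
    3), (4, 7), 6), ((0, 3), (4, 9), 7), ((1, 3), (5, 3), 0), ((1, 3), (5, 8), 4), ((3, 0),
    (6, 8), 4), ((3, 0), (6, 9), 7), ((3, 1), (6, 8), 4), ((3, 1), (6, 9), 7)]
  G := [[0, 0, 0, 0x714b191a64646d18159a8949411564314b18cc181a9a81cc,
    0x1811399e61b4315ec1211211561ac114443891a9c8caa], [0, 0x121262111e1411ce1818c6681,
    0x111111e111111ec42111111e111111ec82c, 0x11b131e44711151e88c1, 0xa1a1a1e111111ec421], [0,
    0, 0, 0x616161e41a1a1a8a1485c1, 0x2121a616161ec81a181e8c21]]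

noncomputable def n2031 : Ent := ⟨e2031, noF, [], [], [(16, 14, [1580095832788404724998799751142926758855362888449624481876427071489, 0])]⟩

def c2031 : PLift (Cov.check n2031.C.D v2031 = true) := ⟨by decide +kernel⟩

def b2031 : PLift (entF (fidx ts) 400 2031 n2031 = true) := ⟨by decide +kernel⟩

theorem g2031 : GoodF (fidx ts) 400 2031 := GoodF.ofV v2031 n2031 c2031.down b2031.down

/-- 4847544:1719/5 -/
noncomputable def e2032 : SCfg where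
  D := {
    a := 7
    L := 10
    kp := 7
    inn := [(0, 1), (1, 0), (1, 2), (1, 3), (1, 4), (2, 1), (2, 3), (3, 1), (3, 2), (3, 5), (3, 6), (4,
      1), (5, 3), (6, 3)]
    mix := [(0, 0), (0, 1), (0, 2), (1, 0), (1, 2), (1, 3), (1, 4), (2, 3), (2, 5), (3, 4), (3, 5), (3,
      6), (4, 0), (4, 4), (4, 7), (4, 8), (5, 5), (5, 6), (5, 9), (6, 4), (6, 6), (6, 7)]
    cl := [0, 5, 2, 0, 0, 1, 3, 4, 6, 7]
    chq := [(1, 3), (1, 4), (3, 1), (4, 1)]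
    rng := [(0, 1), (0, 8), (1, 0), (1, 2), (2, 1), (2, 3), (3, 2), (3, 5), (4, 7), (5, 3), (5, 9), (6,
      7), (6, 9), (7, 4), (7, 6), (7, 8), (8, 0), (8, 7), (9, 5), (9, 6)]
    lev := [] }
  links := [[1, 7, 8, 9], [7, 0, 9, 10, 2, 3, 11, 4], [3, 1, 10, 12], [11, 1, 2, 12, 5, 13, 6], [7, 1,
    11, 14, 15], [13, 3, 12, 16], [11, 3, 13, 14]]
  P := {
    a := 7
    N := 17
    nb := [898, 3741, 5130, 14438, 51330, 77832, 26632, 33043, 641, 1283, 4614, 16474, 66604, 82024,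
      43088, 16528, 12320]
    tri := [(0, 1, 7), (0, 1, 9), (0, 7, 8), (0, 8, 9), (1, 2, 3), (1, 2, 10), (1, 3, 11), (1, 4, 7),
      (1, 4, 11), (1, 9, 10), (2, 3, 12), (2, 10, 12), (3, 5, 12), (3, 5, 13), (3, 6, 11), (3, 6,
      13), (4, 7, 15), (4, 11, 14), (4, 14, 15), (5, 12, 16), (5, 13, 16), (6, 11, 14), (6, 13,
      14)]
    fin := [0, 0, 0, 3, 0, 3, 3, 0, 8, 9, 0, 0, 3, 13, 14, 15, 16]
    chd := [(3, 13), (3, 14)]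
    steps := [(0, 1), (0, 2), (0, 4), (0, 7), (0, 10), (0, 11), (3, 5), (3, 6), (3, 12)] }
  rep := [0, 3, 9, 13, 14, 8, 15, 16]

noncomputable def v2032 : Cov.CovD where
  P := 3
  N := 5
  pl := [1, 2, 8, 9]
  lev := [⟨[], [], [], [2, 5], [(0, 0, [])]⟩,
    ⟨[], [(0, 0)], [(0, 0)], [2], [(0, 0, []), (3, 0, []), (4, 0, [])]⟩,
    ⟨[(0, 1)], [(1, 0), (1, 1)], [(0, 1)], [], [(3, 0, []), (5, 1, [3, 4])]⟩,
    ⟨[(0, 1), (1, 2)], [(1, 0), (1, 1), (1, 3), (2, 0), (2, 1), (2, 3)], [(0, 1), (0, 3),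
      (1, 3)], [], [(4, 0, []), (5, 1, [3, 4]), (6, 3, [1])]⟩,
    ⟨[(0, 1), (1, 2), (1, 3)], [(0, 0), (1, 0), (1, 4), (3, 0)], [(0, 0), (0, 4)], [6],
      [(0, 0, []), (4, 0, []), (7, 4, [1])]⟩,
    ⟨[(1, 3), (2, 3)], [(2, 1), (3, 0), (3, 1), (3, 3)], [(1, 3)], [7], [(5, 1, [3, 4]),
      (6, 3, [1])]⟩,
    ⟨[(1, 3), (2, 3), (3, 5)], [(1, 0), (3, 0), (3, 1), (3, 3), (3, 4), (4, 0), (4, 4), (5,
      3)], [(0, 3), (0, 4), (3, 4)], [], [(4, 0, []), (6, 3, [1]), (7, 4, [1])]⟩]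
  Ta := [((0, 1), 0, 5), ((0, 8), 0, 6), ((3, 2), 0, 2), ((3, 5), 0, 1), ((4, 7), 0, 4)]
  Tb := [((0, 1, 8), 0, 5, 6), ((1, 0, 2), 5, 0, 2), ((2, 1, 3), 2, 5, 0), ((3, 2, 5), 0, 2, 1),
    ((5, 3, 9), 1, 0, 7), ((6, 7, 9), 3, 4, 7), ((7, 4, 6), 4, 0, 3), ((7, 4, 8), 4, 0, 6),
    ((7, 6, 8), 4, 3, 6), ((8, 0, 7), 6, 0, 4), ((9, 5, 6), 7, 1, 3)]
  Tc := [(1, 3, 4)]
  Td := [((1, 3), (5, 3), 0), ((1, 3), (5, 9), 7), ((1, 4), (5, 3), 0), ((1, 4), (5, 9), 7), ((3,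
    1), (6, 7), 4), ((3, 1), (6, 9), 7), ((4, 1), (7, 4), 0), ((4, 1), (7, 6), 3), ((4, 1),
    (7, 8), 6)]
  G := [[0, 0, 0, 0x2152156412481222d229219e118c9c2841214225421d215ec5219219a81cc,
    0x229219219e215245215ec122821112215245222dec9229229c81aa], [0,
    0x41c11c6481a11a11ae211c84e81,
    0x225215215e422948c2289229222de212c42289219a24294225225c486e,
    0x222d246481141111a2428cd288d219a8cc1, 0x215225215e4219229229e8c21], [0, 0, 0,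
    0x225245225e41229229229e81c1, 0x289229229e225225225ec121]]

noncomputable def n2032 : Ent := ⟨e2032, noF, [], [], [(8, 16, [1580044410770988437309982408355971841652082177953823432505697419265, 0]), (16, 15, [1685356702439545624007900436039642273970977273354372543760008404993, 0])]⟩

def c2032 : PLift (Cov.check n2032.C.D v2032 = true) := ⟨by decide +kernel⟩

def b2032 : PLift (entF (fidx ts) 400 2032 n2032 = true) := ⟨by decide +kernel⟩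

theorem g2032 : GoodF (fidx ts) 400 2032 := GoodF.ofV v2032 n2032 c2032.down b2032.down

/-- 4847544:1719 -/
noncomputable def e2033 : SCfg where
  D := {
    a := 7
    L := 11
    kp := 8
    inn := [(0, 1), (1, 0), (1, 2), (1, 3), (1, 4), (2, 1), (2, 3), (3, 1), (3, 2), (3, 5), (3, 6), (4,
      1), (5, 3), (6, 3)]
    mix := [(0, 0), (0, 1), (0, 2), (1, 0), (1, 2), (1, 3), (1, 4), (2, 3), (2, 5), (3, 4), (3, 5), (3,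
      6), (4, 0), (4, 4), (4, 7), (4, 8), (5, 5), (5, 6), (5, 9), (6, 4), (6, 6), (6, 10)]
    cl := [0, 5, 2, 0, 0, 1, 3, 6, 7, 8, 4]
    chq := [(1, 3), (1, 4), (3, 1), (4, 1)]
    rng := [(0, 1), (0, 8), (1, 0), (1, 2), (2, 1), (2, 3), (3, 2), (3, 5), (4, 7), (4, 10), (5, 3),
      (5, 9), (6, 9), (6, 10), (7, 4), (7, 8), (8, 0), (8, 7), (9, 5), (9, 6), (10, 4), (10, 6)]
    lev := [] }
  links := [[1, 7, 8, 9], [7, 0, 9, 10, 2, 3, 11, 4], [3, 1, 10, 12], [11, 1, 2, 12, 5, 13, 6], [7, 1,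
    11, 14, 15], [13, 3, 12, 16], [11, 3, 13, 17]]
  P := {
    a := 7
    N := 18
    nb := [898, 3741, 5130, 14438, 51330, 77832, 141320, 33043, 641, 1283, 4614, 147546, 66604,
      196712, 34832, 16528, 12320, 10304]
    tri := [(0, 1, 7), (0, 1, 9), (0, 7, 8), (0, 8, 9), (1, 2, 3), (1, 2, 10), (1, 3, 11), (1, 4, 7),
      (1, 4, 11), (1, 9, 10), (2, 3, 12), (2, 10, 12), (3, 5, 12), (3, 5, 13), (3, 6, 11), (3, 6,
      13), (4, 7, 15), (4, 11, 14), (4, 14, 15), (5, 12, 16), (5, 13, 16), (6, 11, 17), (6, 13,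
      17)]
    fin := [0, 0, 0, 3, 0, 3, 3, 0, 8, 9, 0, 0, 3, 13, 14, 15, 16, 17]
    chd := [(3, 13), (3, 17)]
    steps := [(0, 1), (0, 2), (0, 4), (0, 7), (0, 10), (0, 11), (3, 5), (3, 6), (3, 12)] }
  rep := [0, 3, 9, 13, 17, 8, 14, 15, 16]

noncomputable def v2033 : Cov.CovD where
  P := 3
  N := 6
  pl := [1, 2, 7, 8, 9]
  lev := [⟨[], [], [], [2, 5], [(0, 0, [])]⟩,
    ⟨[], [(0, 0)], [(0, 0)], [2], [(0, 0, []), (3, 0, []), (4, 0, [])]⟩,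
    ⟨[(0, 1)], [(1, 0), (1, 1)], [(0, 1)], [], [(3, 0, []), (5, 1, [3, 4])]⟩,
    ⟨[(0, 1), (1, 2)], [(1, 0), (1, 1), (1, 3), (2, 0), (2, 1), (2, 3)], [(0, 1), (0, 3),
      (1, 3)], [], [(4, 0, []), (5, 1, [3, 4]), (6, 3, [1])]⟩,
    ⟨[(0, 1), (1, 2), (1, 3)], [(0, 0), (1, 0), (3, 0)], [(0, 0)], [6, 7], [(0, 0, []), (4,
      0, [])]⟩,
    ⟨[(1, 3), (2, 3)], [(2, 1), (3, 0), (3, 1), (3, 3)], [(1, 3)], [8], [(5, 1, [3, 4]),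
      (6, 3, [1])]⟩,
    ⟨[(1, 3), (2, 3), (3, 5)], [(1, 0), (3, 0), (3, 1), (3, 3), (3, 4), (4, 0), (5, 3)],
      [(0, 3), (0, 4), (3, 4)], [], [(4, 0, []), (6, 3, [1]), (10, 4, [1])]⟩]
  Ta := [((0, 1), 0, 5), ((0, 8), 0, 7), ((3, 2), 0, 2), ((3, 5), 0, 1), ((4, 7), 0, 6), ((4,
    10), 0, 4)]
  Tb := [((0, 1, 8), 0, 5, 7), ((1, 0, 2), 5, 0, 2), ((2, 1, 3), 2, 5, 0), ((3, 2, 5), 0, 2, 1),
    ((4, 7, 10), 0, 6, 4), ((5, 3, 9), 1, 0, 8), ((6, 9, 10), 3, 8, 4), ((7, 4, 8), 6, 0, 7),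
    ((8, 0, 7), 7, 0, 6), ((9, 5, 6), 8, 1, 3), ((10, 4, 6), 4, 0, 3)]
  Tc := [(1, 3, 4)]
  Td := [((1, 3), (5, 3), 0), ((1, 3), (5, 9), 8), ((1, 4), (5, 3), 0), ((1, 4), (5, 9), 8), ((3,
    1), (6, 9), 8), ((3, 1), (6, 10), 4), ((4, 1), (10, 4), 0), ((4, 1), (10, 6), 3)]
  G := [[0, 0, 0, 0x2252156412481222d229229e218c5c2841114215222d215ec9219229a81cc,
    0x219229219e8225225225e452112282924215221de45219219c218c4aa], [0,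
    0x1161464811612a211c11a18e86c1, 0x115215215e4222d229219e8c221521524e4229219229e112cc2c,
    0x221d22562845214218248dc222d229a84c1, 0x215215215e4219219229e8c21], [0, 0, 0,
    0x212225225225ec122922928e81c1, 0x229229229e225225225ec121]]

noncomputable def n2033 : Ent := ⟨e2033, noF, [], [], [(8, 16, [7334685537875745012586738086077695515070955365108989538292687701987329, 0]), (16, 15, [7334790850167413569773436004105379185503274260204390087403942012973057, 0]), (17, 14, [6903326468334360900303599070699561856668565975414084080169086032478209, 0])]⟩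

def c2033 : PLift (Cov.check n2033.C.D v2033 = true) := ⟨by decide +kernel⟩

def b2033 : PLift (entF (fidx ts) 400 2033 n2033 = true) := ⟨by decide +kernel⟩

theorem g2033 : GoodF (fidx ts) 400 2033 := GoodF.ofV v2033 n2033 c2033.down b2033.down

/-- 4848544:1721/1 -/
noncomputable def e2034 : SCfg where
  D := {
    a := 7
    L := 10
    kp := 7
    inn := [(0, 1), (1, 0), (1, 2), (1, 3), (1, 4), (2, 1), (2, 3), (3, 1), (3, 2), (3, 4), (3, 5), (3,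
      6), (4, 1), (4, 3), (5, 3), (6, 3)]
    mix := [(0, 0), (0, 1), (0, 2), (1, 0), (1, 2), (1, 3), (1, 4), (2, 3), (2, 5), (3, 5), (3, 6), (3,
      7), (4, 4), (4, 7), (4, 8), (5, 6), (5, 7), (5, 9), (6, 1), (6, 5), (6, 6)]
    cl := [4, 2, 5, 1, 1, 0, 3, 0, 6, 7]
    chq := [(0, 3), (1, 2), (2, 1), (3, 0)]
    rng := [(0, 1), (0, 4), (1, 0), (1, 2), (1, 5), (1, 6), (2, 1), (2, 3), (3, 2), (3, 5), (4, 0), (4,
      8), (5, 1), (5, 3), (6, 1), (6, 9), (7, 8), (7, 9), (8, 4), (8, 7), (9, 6), (9, 7)]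
    lev := [] }
  links := [[1, 7, 8, 9], [7, 0, 9, 10, 2, 3, 4, 11], [3, 1, 10, 12], [4, 1, 2, 12, 6, 13, 5, 14], [11,
    1, 3, 14, 15], [14, 3, 13, 16], [13, 3, 12, 8]]
  P := {
    a := 7
    N := 17
    nb := [898, 3741, 5130, 28790, 51210, 90120, 12552, 2307, 12993, 1283, 4614, 32914, 1356, 65896,
      98360, 18448, 24608]
    tri := [(0, 1, 7), (0, 1, 9), (0, 7, 8), (0, 8, 9), (1, 2, 3), (1, 2, 10), (1, 3, 4), (1, 4, 11),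
      (1, 7, 11), (1, 9, 10), (2, 3, 12), (2, 10, 12), (3, 4, 14), (3, 5, 13), (3, 5, 14), (3, 6,
      12), (3, 6, 13), (4, 11, 15), (4, 14, 15), (5, 13, 16), (5, 14, 16), (6, 8, 12), (6, 8, 13)]
    fin := [0, 1, 1, 3, 1, 3, 0, 7, 0, 9, 1, 1, 3, 13, 3, 15, 16]
    chd := [(0, 1), (3, 13)]
    steps := [(0, 8), (0, 6), (1, 2), (1, 4), (1, 10), (1, 11), (3, 5), (3, 12), (3, 14)] }
  rep := [3, 1, 0, 13, 7, 9, 15, 16]

noncomputable def v2034 : Cov.CovD where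
  P := 3
  N := 5
  pl := [0, 2, 8, 9]
  lev := [⟨[], [], [], [4, 5], [(1, 2, [1])]⟩,
    ⟨[], [(0, 1), (0, 2)], [(1, 1)], [4, 5], [(3, 1, [2]), (4, 1, [2])]⟩,
    ⟨[(0, 1)], [(1, 0), (1, 1)], [(0, 1)], [], [(3, 1, [2]), (5, 0, [3])]⟩,
    ⟨[(0, 1), (1, 2)], [(1, 0), (1, 1), (1, 3), (2, 0), (2, 1), (2, 3)], [(0, 0), (0, 3)],
      [], [(5, 0, [3]), (6, 3, [0]), (7, 0, [3])]⟩,
    ⟨[(0, 1), (1, 2), (1, 3), (2, 3)], [(1, 0), (1, 1), (3, 0), (3, 1), (3, 3)], [(0, 1)],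
      [6], [(4, 1, [2]), (7, 0, [3])]⟩,
    ⟨[(1, 3), (2, 3), (3, 4)], [(3, 0), (3, 3), (4, 0)], [(0, 3)], [7], [(6, 3, [0]), (7,
      0, [3])]⟩,
    ⟨[(1, 3), (2, 3), (3, 4), (3, 5)], [(0, 2), (2, 0), (3, 0), (3, 2), (3, 3), (5, 3)],
      [(0, 2), (0, 3), (2, 3)], [], [(1, 2, [1]), (5, 0, [3]), (6, 3, [0])]⟩]
  Ta := [((3, 2), 1, 5), ((3, 5), 1, 0), ((4, 0), 1, 4), ((4, 8), 1, 6), ((5, 1), 0, 2), ((5, 3),
    0, 1), ((7, 8), 0, 6), ((7, 9), 0, 7)]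
  Tb := [((0, 1, 4), 4, 2, 1), ((1, 0, 2), 2, 4, 5), ((1, 0, 5), 2, 4, 0), ((1, 0, 6), 2, 4, 3),
    ((1, 2, 5), 2, 5, 0), ((1, 2, 6), 2, 5, 3), ((1, 5, 6), 2, 0, 3), ((2, 1, 3), 5, 2, 1),
    ((3, 2, 5), 1, 5, 0), ((4, 0, 8), 1, 4, 6), ((5, 1, 3), 0, 2, 1), ((6, 1, 9), 3, 2, 7),
    ((7, 8, 9), 0, 6, 7), ((8, 4, 7), 6, 1, 0), ((9, 6, 7), 7, 3, 0)]
  Tc := []
  Td := [((0, 3), (5, 1), 2), ((0, 3), (5, 3), 1), ((0, 3), (7, 8), 6), ((0, 3), (7, 9), 7), ((1,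
    2), (3, 2), 5), ((1, 2), (3, 5), 0), ((1, 2), (4, 0), 4), ((1, 2), (4, 8), 6), ((2, 1),
    (1, 0), 4), ((2, 1), (1, 2), 5), ((2, 1), (1, 5), 0), ((2, 1), (1, 6), 3), ((3, 0), (6,
    1), 2), ((3, 0), (6, 9), 7)]
  G := [[0, 0xc1c1628c1c1a284141a81868148ae1, 0x212412c81212412c81812212c41e,
    0x84ce12884ce124c8122462c213, 0x82ab24421288c222b248128c421282ab2c81b], [0, 0,
    0x4181c2141ca414181c42121c2c14181c2121c681e, 0x84ce124884ce12848924432c25a,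
    0x88a128a2e14688812121c68418c488c828bc2121c681b], [0, 0, 0,
    0x841e42841e82c841e841ec2858a21462c2d2, 0x8a2e24128a281c288e282a22424ce14a262418a28c1b],
    [0, 0, 0, 0x1221462c8888c23822844e844eca1c28a22462c213,
    0x82a4228e461144888c148221e8acc14488a2e845144888821e216ce1438c8ac89c88c11a111ec68448a1b]]

noncomputable def n2034 : Ent := ⟨e2034, noF, [], [], []⟩

def c2034 : PLift (Cov.check n2034.C.D v2034 = true) := ⟨by decide +kernel⟩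

def b2034 : PLift (entF (fidx ts) 400 2034 n2034 = true) := ⟨by decide +kernel⟩

theorem g2034 : GoodF (fidx ts) 400 2034 := GoodF.ofV v2034 n2034 c2034.down b2034.down

/-- 4848544:1721/2 -/
noncomputable def e2035 : SCfg where
  D := {
    a := 7
    L := 10
    kp := 7
    inn := [(0, 1), (1, 0), (1, 2), (1, 3), (1, 4), (2, 1), (2, 3), (3, 1), (3, 2), (3, 4), (3, 5), (3,
      6), (4, 1), (4, 3), (5, 3), (6, 3)]
    mix := [(0, 0), (0, 1), (0, 2), (1, 0), (1, 2), (1, 3), (1, 4), (2, 3), (2, 5), (3, 5), (3, 6), (3,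
      7), (4, 4), (4, 7), (4, 8), (5, 1), (5, 6), (5, 7), (6, 5), (6, 6), (6, 9)]
    cl := [4, 2, 5, 1, 1, 0, 3, 0, 6, 7]
    chq := [(0, 3), (1, 2), (2, 1), (3, 0)]
    rng := [(0, 1), (0, 4), (1, 0), (1, 2), (1, 6), (1, 7), (2, 1), (2, 3), (3, 2), (3, 5), (4, 0), (4,
      8), (5, 3), (5, 9), (6, 1), (6, 9), (7, 1), (7, 8), (8, 4), (8, 7), (9, 5), (9, 6)]
    lev := [] }
  links := [[1, 7, 8, 9], [7, 0, 9, 10, 2, 3, 4, 11], [3, 1, 10, 12], [4, 1, 2, 12, 6, 13, 5, 14], [11,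
    1, 3, 14, 15], [14, 3, 13, 8], [13, 3, 12, 16]]
  P := {
    a := 7
    N := 17
    nb := [898, 3741, 5130, 28790, 51210, 24840, 77832, 2307, 25249, 1283, 4614, 32914, 66636, 65896,
      33080, 18448, 12352]
    tri := [(0, 1, 7), (0, 1, 9), (0, 7, 8), (0, 8, 9), (1, 2, 3), (1, 2, 10), (1, 3, 4), (1, 4, 11),
      (1, 7, 11), (1, 9, 10), (2, 3, 12), (2, 10, 12), (3, 4, 14), (3, 5, 13), (3, 5, 14), (3, 6,
      12), (3, 6, 13), (4, 11, 15), (4, 14, 15), (5, 8, 13), (5, 8, 14), (6, 12, 16), (6, 13, 16)]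
    fin := [0, 1, 1, 3, 1, 0, 3, 7, 0, 9, 1, 1, 3, 13, 3, 15, 16]
    chd := [(0, 1), (3, 13)]
    steps := [(0, 8), (0, 5), (1, 2), (1, 4), (1, 10), (1, 11), (3, 6), (3, 12), (3, 14)] }
  rep := [3, 1, 0, 13, 7, 9, 15, 16]

noncomputable def v2035 : Cov.CovD where
  P := 3
  N := 5
  pl := [0, 2, 8, 9]
  lev := [⟨[], [], [], [4, 5], [(1, 2, [1])]⟩,
    ⟨[], [(0, 1), (0, 2)], [(1, 1)], [4, 5], [(3, 1, [2]), (4, 1, [2])]⟩,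
    ⟨[(0, 1)], [(1, 0), (1, 1)], [(0, 1)], [], [(3, 1, [2]), (5, 0, [3])]⟩,
    ⟨[(0, 1), (1, 2)], [(1, 0), (1, 1), (1, 3), (2, 0), (2, 1), (2, 3)], [(0, 0), (0, 3)],
      [], [(5, 0, [3]), (6, 3, [0]), (7, 0, [3])]⟩,
    ⟨[(0, 1), (1, 2), (1, 3), (2, 3)], [(1, 0), (1, 1), (3, 0), (3, 1), (3, 3)], [(0, 1)],
      [6], [(4, 1, [2]), (7, 0, [3])]⟩,
    ⟨[(1, 3), (2, 3), (3, 4)], [(0, 2), (3, 0), (3, 2), (3, 3), (4, 0)], [(0, 2), (0, 3),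
      (2, 3)], [], [(1, 2, [1]), (6, 3, [0]), (7, 0, [3])]⟩,
    ⟨[(1, 3), (2, 3), (3, 4), (3, 5)], [(2, 0), (3, 0), (3, 3), (5, 3)], [(0, 3)], [7],
      [(5, 0, [3]), (6, 3, [0])]⟩]
  Ta := [((3, 2), 1, 5), ((3, 5), 1, 0), ((4, 0), 1, 4), ((4, 8), 1, 6), ((5, 3), 0, 1), ((5, 9),
    0, 7), ((7, 1), 0, 2), ((7, 8), 0, 6)]
  Tb := [((0, 1, 4), 4, 2, 1), ((1, 0, 2), 2, 4, 5), ((1, 0, 6), 2, 4, 3), ((1, 0, 7), 2, 4, 0),
    ((1, 2, 6), 2, 5, 3), ((1, 2, 7), 2, 5, 0), ((1, 6, 7), 2, 3, 0), ((2, 1, 3), 5, 2, 1),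
    ((3, 2, 5), 1, 5, 0), ((4, 0, 8), 1, 4, 6), ((5, 3, 9), 0, 1, 7), ((6, 1, 9), 3, 2, 7),
    ((7, 1, 8), 0, 2, 6), ((8, 4, 7), 6, 1, 0), ((9, 5, 6), 7, 0, 3)]
  Tc := []
  Td := [((0, 3), (5, 3), 1), ((0, 3), (5, 9), 7), ((0, 3), (7, 1), 2), ((0, 3), (7, 8), 6), ((1,
    2), (3, 2), 5), ((1, 2), (3, 5), 0), ((1, 2), (4, 0), 4), ((1, 2), (4, 8), 6), ((2, 1),
    (1, 0), 4), ((2, 1), (1, 2), 5), ((2, 1), (1, 6), 3), ((2, 1), (1, 7), 0), ((3, 0), (6,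
    1), 2), ((3, 0), (6, 9), 7)]
  G := [[0, 0xe1e1c24e121c1e286161a4a1a168ce1, 0, 0xa6c128a6c1242892a452c2d2,
    0x82a14216468a284c4124821246892421acc86924a228c1b], [0, 0, 0, 0xa6c128a6c124ca222462c213,
    0xa812c6a146882a1468a1421ac441c1ca88e1c23ce41b], [0, 0, 0x182122c41182122c41122142c81e,
    0xa6ca6cc215494c23828a182b42c2d2, 0xc6a24118284c92243828c412216a2c81b], [0, 0,
    0x1414c1212ca411414c1212ca411218c1412cc21e, 0x16ca1cc24a1c16cc28b4241828cd2,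
    0x1242186854618841282cc16a842d2425218c13a8cacc818c12d2c681b]]

noncomputable def n2035 : Ent := ⟨e2035, noF, [], [], []⟩

def c2035 : PLift (Cov.check n2035.C.D v2035 = true) := ⟨by decide +kernel⟩

def b2035 : PLift (entF (fidx ts) 400 2035 n2035 = true) := ⟨by decide +kernel⟩

theorem g2035 : GoodF (fidx ts) 400 2035 := GoodF.ofV v2035 n2035 c2035.down b2035.down

/-- 4848544:1721 -/
noncomputable def e2036 : SCfg where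
  D := {
    a := 7
    L := 11
    kp := 8
    inn := [(0, 1), (1, 0), (1, 2), (1, 3), (1, 4), (2, 1), (2, 3), (3, 1), (3, 2), (3, 4), (3, 5), (3,
      6), (4, 1), (4, 3), (5, 3), (6, 3)]
    mix := [(0, 0), (0, 1), (0, 2), (1, 0), (1, 2), (1, 3), (1, 4), (2, 3), (2, 5), (3, 5), (3, 6), (3,
      7), (4, 4), (4, 7), (4, 8), (5, 6), (5, 7), (5, 9), (6, 5), (6, 6), (6, 10)]
    cl := [1, 5, 2, 0, 0, 3, 4, 3, 6, 7, 8]
    chq := [(0, 5), (3, 4), (4, 3), (5, 0)]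
    rng := [(0, 1), (0, 4), (1, 0), (1, 2), (2, 1), (2, 3), (3, 2), (3, 5), (4, 0), (4, 8), (5, 3), (5,
      10), (6, 9), (6, 10), (7, 8), (7, 9), (8, 4), (8, 7), (9, 6), (9, 7), (10, 5), (10, 6)]
    lev := [] }
  links := [[1, 7, 8, 9], [7, 0, 9, 10, 2, 3, 4, 11], [3, 1, 10, 12], [4, 1, 2, 12, 6, 13, 5, 14], [11,
    1, 3, 14, 15], [14, 3, 13, 16], [13, 3, 12, 17]]
  P := {
    a := 7
    N := 18
    nb := [898, 3741, 5130, 28790, 51210, 90120, 143368, 2307, 641, 1283, 4614, 32914, 132172, 196712,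
      98360, 18448, 24608, 12352]
    tri := [(0, 1, 7), (0, 1, 9), (0, 7, 8), (0, 8, 9), (1, 2, 3), (1, 2, 10), (1, 3, 4), (1, 4, 11),
      (1, 7, 11), (1, 9, 10), (2, 3, 12), (2, 10, 12), (3, 4, 14), (3, 5, 13), (3, 5, 14), (3, 6,
      12), (3, 6, 13), (4, 11, 15), (4, 14, 15), (5, 13, 16), (5, 14, 16), (6, 12, 17), (6, 13,
      17)]
    fin := [0, 1, 1, 3, 1, 3, 3, 7, 0, 9, 1, 1, 3, 13, 3, 15, 16, 17]
    chd := [(0, 1), (3, 13)]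
    steps := [(0, 8), (1, 2), (1, 4), (1, 10), (1, 11), (3, 5), (3, 6), (3, 12), (3, 14)] }
  rep := [1, 7, 9, 3, 13, 0, 15, 16, 17]

noncomputable def v2036 : Cov.CovD where
  P := 3
  N := 6
  pl := [0, 2, 8, 9, 10]
  lev := [⟨[], [], [], [1, 2], [(1, 5, [0])]⟩,
    ⟨[], [(0, 0), (0, 5)], [(0, 0)], [1, 2], [(3, 0, [5]), (4, 0, [5])]⟩,
    ⟨[(0, 1)], [(1, 0), (1, 3)], [(0, 3)], [], [(3, 0, [5]), (5, 3, [4])]⟩,
    ⟨[(0, 1), (1, 2)], [(1, 0), (1, 3), (1, 4), (2, 0), (2, 3), (2, 4)], [(3, 3), (3, 4)],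
      [], [(5, 3, [4]), (6, 4, [3]), (7, 3, [4])]⟩,
    ⟨[(0, 1), (1, 2), (1, 3), (2, 3)], [(1, 0), (1, 3), (3, 0), (3, 3), (3, 4)], [(0, 3)],
      [6], [(4, 0, [5]), (7, 3, [4])]⟩,
    ⟨[(1, 3), (2, 3), (3, 4)], [(3, 3), (3, 4), (4, 3)], [(3, 4)], [7], [(6, 4, [3]), (7,
      3, [4])]⟩,
    ⟨[(1, 3), (2, 3), (3, 4), (3, 5)], [(2, 3), (3, 3), (3, 4), (5, 4)], [(3, 4)], [8],
      [(5, 3, [4]), (6, 4, [3])]⟩]
  Ta := [((3, 2), 0, 2), ((3, 5), 0, 3), ((4, 0), 0, 1), ((4, 8), 0, 6), ((5, 3), 3, 0), ((5,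
    10), 3, 8), ((7, 8), 3, 6), ((7, 9), 3, 7)]
  Tb := [((0, 1, 4), 1, 5, 0), ((1, 0, 2), 5, 1, 2), ((2, 1, 3), 2, 5, 0), ((3, 2, 5), 0, 2, 3),
    ((4, 0, 8), 0, 1, 6), ((5, 3, 10), 3, 0, 8), ((6, 9, 10), 4, 7, 8), ((7, 8, 9), 3, 6, 7),
    ((8, 4, 7), 6, 0, 3), ((9, 6, 7), 7, 4, 3), ((10, 5, 6), 8, 3, 4)]
  Tc := []
  Td := [((0, 5), (3, 2), 2), ((0, 5), (3, 5), 3), ((0, 5), (4, 0), 1), ((0, 5), (4, 8), 6), ((3,
    4), (5, 3), 0), ((3, 4), (5, 10), 8), ((3, 4), (7, 8), 6), ((3, 4), (7, 9), 7), ((4, 3),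
    (6, 9), 7), ((4, 3), (6, 10), 8), ((5, 0), (1, 0), 1), ((5, 0), (1, 2), 2)]
  G := [[0, 0, 0x68157a14c6343412c21143899418ecd214bc92161a1ba945e111b41a8cc,
    0x521614635348a1d9823e1789aa4191874534ad6c1,
    0xc1c23a1245818b47a13899283141c1589d551ee81], [0, 0,
    0x8212955144456533122812489449d18ec241483312828c3895d14e421249918acc,
    0x855142d3312424c324c1821a49918ec1, 0x2414212847211a88b1acb5d1949449a5e81], [0,
    0xb54d21211b425d6524a1825e9d6a1311ae468e3c97c2138e59649d24781e952e5378a3cc, 0,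
    0x958d2194542e132be1224156e85d2e92b4eb81, 0xb4cd21d3ab412134156e91d2e81b4e781], [0,
    0x9236f525c18228183c76524622c54ae2884888684eeb421253af93abe12442622c28a866e44a8448ee594941a12cc,
    0, 0x2442125adc998629493c3a522c28c44a8c6c6744a282c1,
    0x2121c194995cd43cbe12442622c28886e44a886419ee781]]

noncomputable def n2036 : Ent := ⟨e2036, noF, [], [], [(8, 17, [6903326391201334775872065844685381424292761054348340378595029938020353, 0]), (8, 16, [7334685537875745012586738086077695515070955365108989538292687702011905, 0])]⟩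

def c2036 : PLift (Cov.check n2036.C.D v2036 = true) := ⟨by decide +kernel⟩

def b2036 : PLift (entF (fidx ts) 400 2036 n2036 = true) := ⟨by decide +kernel⟩

theorem g2036 : GoodF (fidx ts) 400 2036 := GoodF.ofV v2036 n2036 c2036.down b2036.down

/-- 4576654:1722/2 -/
noncomputable def e2037 : SCfg where
  D := {
    a := 7
    L := 9
    kp := 6
    inn := [(0, 1), (0, 2), (1, 0), (1, 2), (1, 3), (2, 0), (2, 1), (2, 3), (3, 1), (3, 2), (3, 4), (4,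
      3), (4, 5), (5, 4), (5, 6), (6, 5)]
    mix := [(0, 0), (0, 1), (1, 1), (1, 2), (2, 0), (2, 3), (2, 4), (2, 5), (3, 2), (3, 3), (3, 6), (4,
      2), (4, 6), (4, 7), (4, 8), (5, 0), (5, 2), (5, 7), (6, 0), (6, 1), (6, 2)]
    cl := [1, 2, 0, 1, 4, 5, 0, 3, 6]
    chq := [(0, 3), (2, 3), (3, 0), (3, 2)]
    rng := [(0, 1), (0, 5), (0, 7), (1, 0), (1, 2), (2, 1), (3, 4), (3, 6), (4, 3), (4, 5), (5, 0), (5,
      4), (6, 3), (6, 8), (7, 0), (7, 8), (8, 6), (8, 7)]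
    lev := [] }
  links := [[1, 2, 7, 8], [2, 0, 8, 9, 3], [7, 0, 1, 3, 10, 11, 12], [10, 2, 1, 9, 4, 13], [13, 3, 9, 5,
    14, 15], [14, 4, 9, 6, 7], [7, 5, 9, 8]]
  P := {
    a := 7
    N := 16
    nb := [390, 781, 7307, 9750, 57896, 17104, 928, 20837, 707, 378, 10252, 5124, 2180, 33816, 32944,
      24592]
    tri := [(0, 1, 2), (0, 1, 8), (0, 2, 7), (0, 7, 8), (1, 2, 3), (1, 3, 9), (1, 8, 9), (2, 3, 10),
      (2, 7, 12), (2, 10, 11), (2, 11, 12), (3, 4, 9), (3, 4, 13), (3, 10, 13), (4, 5, 9), (4, 5,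
      14), (4, 13, 15), (4, 14, 15), (5, 6, 7), (5, 6, 9), (5, 7, 14), (6, 7, 8), (6, 8, 9)]
    fin := [0, 0, 0, 0, 4, 5, 5, 0, 5, 4, 0, 11, 12, 4, 14, 15]
    chd := [(4, 14), (5, 14)]
    steps := [(0, 1), (0, 2), (0, 3), (0, 7), (0, 10), (4, 9), (4, 13), (5, 6), (5, 8)] }
  rep := [4, 0, 5, 14, 11, 12, 15]

noncomputable def v2037 : Cov.CovD where
  P := 3
  N := 4
  pl := [4, 5, 8]
  lev := [⟨[], [], [(1, 2)], [], [(0, 1, []), (1, 2, [3])]⟩,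
    ⟨[], [(0, 0), (0, 1), (0, 2)], [(0, 2)], [], [(1, 2, [3]), (2, 0, [3])]⟩,
    ⟨[(0, 1)], [(0, 1), (0, 2), (1, 0), (1, 1), (1, 2)], [(1, 1)], [4, 5], [(0, 1, []), (3,
      1, [])]⟩,
    ⟨[(0, 1), (0, 2), (1, 2)], [(1, 0), (1, 1), (1, 2), (2, 0), (2, 1)], [(0, 0), (0, 1)],
      [], [(2, 0, [3]), (3, 1, []), (6, 0, [3])]⟩,
    ⟨[(1, 3), (2, 3)], [(1, 0), (3, 0), (3, 1), (3, 3)], [(0, 0), (0, 3)], [6], [(2, 0,
      [3]), (6, 0, [3]), (7, 3, [0, 2])]⟩,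
    ⟨[(3, 4)], [(0, 1), (1, 0), (2, 1), (3, 0), (4, 0), (4, 1), (4, 3)], [(0, 1), (0, 3),
      (1, 3)], [], [(0, 1, []), (2, 0, [3]), (7, 3, [0, 2])]⟩,
    ⟨[(4, 5)], [(0, 1), (0, 2), (1, 0), (1, 2), (2, 1), (3, 0), (4, 0), (5, 0), (5, 1), (5,
      2), (5, 3)], [(0, 1), (0, 2), (1, 2)], [], [(0, 1, []), (1, 2, [3]), (2, 0, [3])]⟩]
  Ta := [((0, 1), 1, 2), ((0, 5), 1, 5), ((0, 7), 1, 3), ((2, 1), 0, 2), ((3, 4), 1, 4), ((3, 6),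
    1, 0), ((6, 3), 0, 1), ((6, 8), 0, 6)]
  Tb := [((0, 1, 5), 1, 2, 5), ((0, 1, 7), 1, 2, 3), ((0, 5, 7), 1, 5, 3), ((1, 0, 2), 2, 1, 0),
    ((3, 4, 6), 1, 4, 0), ((4, 3, 5), 4, 1, 5), ((5, 0, 4), 5, 1, 4), ((6, 3, 8), 0, 1, 6),
    ((7, 0, 8), 3, 1, 6), ((8, 6, 7), 6, 0, 3)]
  Tc := [(3, 0, 2)]
  Td := [((0, 3), (2, 1), 2), ((0, 3), (6, 3), 1), ((0, 3), (6, 8), 6), ((2, 3), (1, 0), 1), ((2,
    3), (1, 2), 0), ((3, 0), (7, 0), 1), ((3, 0), (7, 8), 6), ((3, 2), (7, 0), 1), ((3, 2),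
    (7, 8), 6)]
  G := [[0, 0, 0x88c24884c688c24884ca8444848cacd84, 0x48c24884c68444844cac88c24884cad81,
    0x8448484ac848484e8848484e8d21], [0, 0, 0x488248ce4828484ce8288222ce4d28, 0,
    0x828468822468824842cd21], [0, 0, 0, 0x4881a84468184849e81444841acd48,
    0x148114e41414c142c848414e8d28], [0, 0x8224884c6828482e8424242e8e48, 0, 0,
    0x848114e4122468122468d28]]

noncomputable def n2037 : Ent := ⟨e2037, noF, [], [], []⟩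

def c2037 : PLift (Cov.check n2037.C.D v2037 = true) := ⟨by decide +kernel⟩

def b2037 : PLift (entF (fidx ts) 400 2037 n2037 = true) := ⟨by decide +kernel⟩

theorem g2037 : GoodF (fidx ts) 400 2037 := GoodF.ofV v2037 n2037 c2037.down b2037.down

/-- 4576654:1722/1 -/
noncomputable def e2038 : SCfg where
  D := {
    a := 7
    L := 10
    kp := 7
    inn := [(0, 1), (0, 2), (1, 0), (1, 2), (1, 3), (2, 0), (2, 1), (2, 3), (3, 1), (3, 2), (3, 4), (4,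
      3), (4, 5), (5, 4), (5, 6), (6, 5)]
    mix := [(0, 0), (0, 1), (1, 1), (1, 2), (2, 0), (2, 3), (2, 4), (2, 5), (3, 2), (3, 3), (3, 6), (4,
      2), (4, 6), (4, 7), (4, 8), (5, 0), (5, 2), (5, 7), (6, 0), (6, 2), (6, 9)]
    cl := [1, 2, 0, 1, 5, 6, 0, 3, 7, 4]
    chq := [(0, 3), (3, 0), (3, 4), (4, 3)]
    rng := [(0, 1), (0, 5), (0, 7), (0, 9), (1, 0), (1, 2), (2, 1), (2, 9), (3, 4), (3, 6), (4, 3), (4,
      5), (5, 0), (5, 4), (6, 3), (6, 8), (7, 0), (7, 8), (8, 6), (8, 7), (9, 0), (9, 2)]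
    lev := [] }
  links := [[1, 2, 7, 8], [2, 0, 8, 9, 3], [7, 0, 1, 3, 10, 11, 12], [10, 2, 1, 9, 4, 13], [13, 3, 9, 5,
    14, 15], [14, 4, 9, 6, 7], [7, 5, 9, 16]]
  P := {
    a := 7
    N := 17
    nb := [390, 781, 7307, 9750, 57896, 17104, 66208, 86373, 643, 65914, 10252, 5124, 2180, 33816,
      32944, 24592, 704]
    tri := [(0, 1, 2), (0, 1, 8), (0, 2, 7), (0, 7, 8), (1, 2, 3), (1, 3, 9), (1, 8, 9), (2, 3, 10),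
      (2, 7, 12), (2, 10, 11), (2, 11, 12), (3, 4, 9), (3, 4, 13), (3, 10, 13), (4, 5, 9), (4, 5,
      14), (4, 13, 15), (4, 14, 15), (5, 6, 7), (5, 6, 9), (5, 7, 14), (6, 7, 16), (6, 9, 16)]
    fin := [0, 0, 0, 0, 4, 5, 5, 0, 8, 4, 0, 11, 12, 4, 14, 15, 5]
    chd := [(4, 14), (14, 5)]
    steps := [(0, 1), (0, 2), (0, 3), (0, 7), (0, 10), (4, 9), (4, 13), (5, 6), (5, 16)] }
  rep := [4, 0, 8, 14, 5, 11, 12, 15]

noncomputable def v2038 : Cov.CovD where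
  P := 3
  N := 5
  pl := [1, 4, 5, 8]
  lev := [⟨[], [], [], [2], [(0, 1, [])]⟩,
    ⟨[], [(0, 0), (0, 1)], [], [2], [(2, 0, [3])]⟩,
    ⟨[(0, 1)], [(0, 1), (1, 0), (1, 1)], [(1, 1)], [5, 6], [(0, 1, []), (3, 1, [])]⟩,
    ⟨[(0, 1), (0, 2), (1, 2)], [(1, 0), (1, 1), (2, 0), (2, 1)], [(0, 0), (0, 1)], [], [(2,
      0, [3]), (3, 1, []), (6, 0, [3])]⟩,
    ⟨[(1, 3), (2, 3)], [(1, 0), (3, 0), (3, 1), (3, 3)], [(0, 0), (0, 3)], [7], [(2, 0,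
      [3]), (6, 0, [3]), (7, 3, [0, 4])]⟩,
    ⟨[(3, 4)], [(0, 1), (1, 0), (2, 1), (3, 0), (4, 0), (4, 1), (4, 3)], [(0, 1), (0, 3),
      (1, 3)], [], [(0, 1, []), (2, 0, [3]), (7, 3, [0, 4])]⟩,
    ⟨[(4, 5)], [(0, 1), (1, 0), (2, 1), (3, 0), (4, 0), (5, 0), (5, 1), (5, 3), (5, 4)],
      [(0, 1), (0, 4), (1, 4)], [], [(0, 1, []), (2, 0, [3]), (9, 4, [3])]⟩]
  Ta := [((0, 1), 1, 2), ((0, 5), 1, 6), ((0, 7), 1, 3), ((0, 9), 1, 4), ((2, 1), 0, 2), ((2, 9),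
    0, 4), ((3, 4), 1, 5), ((3, 6), 1, 0), ((6, 3), 0, 1), ((6, 8), 0, 7)]
  Tb := [((0, 1, 5), 1, 2, 6), ((0, 1, 7), 1, 2, 3), ((0, 1, 9), 1, 2, 4), ((0, 5, 7), 1, 6, 3),
    ((0, 5, 9), 1, 6, 4), ((0, 7, 9), 1, 3, 4), ((1, 0, 2), 2, 1, 0), ((2, 1, 9), 0, 2, 4),
    ((3, 4, 6), 1, 5, 0), ((4, 3, 5), 5, 1, 6), ((5, 0, 4), 6, 1, 5), ((6, 3, 8), 0, 1, 7),
    ((7, 0, 8), 3, 1, 7), ((8, 6, 7), 7, 0, 3), ((9, 0, 2), 4, 1, 0)]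
  Tc := [(3, 0, 4)]
  Td := [((0, 3), (2, 1), 2), ((0, 3), (2, 9), 4), ((0, 3), (6, 3), 1), ((0, 3), (6, 8), 7), ((3,
    0), (7, 0), 1), ((3, 0), (7, 8), 7), ((3, 4), (7, 0), 1), ((3, 4), (7, 8), 7), ((4, 3),
    (9, 0), 1), ((4, 3), (9, 2), 0)]
  G := [[0, 0, 0x48c48ca48c4648c48c648c8a48c48c648c8ad84, 0x4848ca84464848ca84468448c6488ad81,
    0x48c248c48cc648c248c48cc648c48c648c8ad81], [0, 0, 0x428248ce48222c688228c6428cd42884a4,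
    0, 0x488222ce4428222ce8428228ce4d28], [0, 0, 0, 0x14418845acc121814ca4114189e8d41,
    0x18c111ce4c114189e8141456188cd28], [0, 0x846268a4c642cc2aa4466828ac2e4e81, 0, 0,
    0x12216288c1241221ac121221e8d21]]

noncomputable def n2038 : Ent := ⟨e2038, noF, [], [], [(8, 16, [1580044410770988437309982408355971841652082177953823432505697456129, 0])]⟩

def c2038 : PLift (Cov.check n2038.C.D v2038 = true) := ⟨by decide +kernel⟩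

def b2038 : PLift (entF (fidx ts) 400 2038 n2038 = true) := ⟨by decide +kernel⟩

theorem g2038 : GoodF (fidx ts) 400 2038 := GoodF.ofV v2038 n2038 c2038.down b2038.down

/-- 4576654:1722/3 -/
noncomputable def e2039 : SCfg where
  D := {
    a := 7
    L := 10
    kp := 7
    inn := [(0, 1), (0, 2), (1, 0), (1, 2), (1, 3), (2, 0), (2, 1), (2, 3), (3, 1), (3, 2), (3, 4), (4,
      3), (4, 5), (5, 4), (5, 6), (6, 5)]
    mix := [(0, 0), (0, 1), (1, 1), (1, 2), (2, 0), (2, 3), (2, 4), (2, 5), (3, 2), (3, 3), (3, 6), (4,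
      2), (4, 6), (4, 7), (4, 8), (5, 2), (5, 7), (5, 9), (6, 1), (6, 2), (6, 9)]
    cl := [1, 2, 0, 1, 5, 6, 0, 3, 7, 4]
    chq := [(0, 3), (2, 3), (3, 0), (3, 2)]
    rng := [(0, 1), (0, 5), (1, 0), (1, 2), (1, 9), (2, 1), (3, 4), (3, 6), (4, 3), (4, 5), (5, 0), (5,
      4), (6, 3), (6, 8), (7, 8), (7, 9), (8, 6), (8, 7), (9, 1), (9, 7)]
    lev := [] }
  links := [[1, 2, 7, 8], [2, 0, 8, 9, 3], [7, 0, 1, 3, 10, 11, 12], [10, 2, 1, 9, 4, 13], [13, 3, 9, 5,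
    14, 15], [14, 4, 9, 6, 16], [16, 5, 9, 8]]
  P := {
    a := 7
    N := 17
    nb := [390, 781, 7307, 9750, 57896, 82512, 66336, 4357, 66243, 378, 10252, 5124, 2180, 33816,
      98352, 24592, 16736]
    tri := [(0, 1, 2), (0, 1, 8), (0, 2, 7), (0, 7, 8), (1, 2, 3), (1, 3, 9), (1, 8, 9), (2, 3, 10),
      (2, 7, 12), (2, 10, 11), (2, 11, 12), (3, 4, 9), (3, 4, 13), (3, 10, 13), (4, 5, 9), (4, 5,
      14), (4, 13, 15), (4, 14, 15), (5, 6, 9), (5, 6, 16), (5, 14, 16), (6, 8, 9), (6, 8, 16)]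
    fin := [0, 0, 0, 0, 4, 5, 5, 0, 5, 4, 0, 11, 12, 4, 14, 15, 16]
    chd := [(4, 14), (5, 14)]
    steps := [(0, 1), (0, 2), (0, 3), (0, 7), (0, 10), (4, 9), (4, 13), (5, 6), (5, 8)] }
  rep := [4, 0, 5, 14, 16, 11, 12, 15]

noncomputable def v2039 : Cov.CovD where
  P := 3
  N := 5
  pl := [4, 5, 8, 9]
  lev := [⟨[], [], [(1, 2)], [], [(0, 1, []), (1, 2, [3])]⟩,
    ⟨[], [(0, 0), (0, 1), (0, 2)], [(0, 2)], [], [(1, 2, [3]), (2, 0, [3])]⟩,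
    ⟨[(0, 1)], [(0, 1), (0, 2), (1, 0), (1, 1), (1, 2)], [(1, 1)], [5, 6], [(0, 1, []), (3,
      1, [])]⟩,
    ⟨[(0, 1), (0, 2), (1, 2)], [(1, 0), (1, 1), (1, 2), (2, 0), (2, 1)], [(0, 0), (0, 1)],
      [], [(2, 0, [3]), (3, 1, []), (6, 0, [3])]⟩,
    ⟨[(1, 3), (2, 3)], [(1, 0), (3, 0), (3, 1), (3, 3)], [(0, 0), (0, 3)], [7], [(2, 0,
      [3]), (6, 0, [3]), (7, 3, [0, 2])]⟩,
    ⟨[(3, 4)], [(1, 0), (3, 0), (4, 0), (4, 3)], [(0, 3)], [4], [(2, 0, [3]), (7, 3, [0,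
      2])]⟩,
    ⟨[(4, 5)], [(0, 2), (1, 0), (1, 2), (3, 0), (4, 0), (5, 0), (5, 2), (5, 3)], [(0, 2)],
      [4], [(1, 2, [3]), (2, 0, [3])]⟩]
  Ta := [((0, 1), 1, 2), ((0, 5), 1, 6), ((2, 1), 0, 2), ((3, 4), 1, 5), ((3, 6), 1, 0), ((6, 3),
    0, 1), ((6, 8), 0, 7)]
  Tb := [((0, 1, 5), 1, 2, 6), ((1, 0, 2), 2, 1, 0), ((1, 0, 9), 2, 1, 4), ((1, 2, 9), 2, 0, 4),
    ((3, 4, 6), 1, 5, 0), ((4, 3, 5), 5, 1, 6), ((5, 0, 4), 6, 1, 5), ((6, 3, 8), 0, 1, 7),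
    ((7, 8, 9), 3, 7, 4), ((8, 6, 7), 7, 0, 3), ((9, 1, 7), 4, 2, 3)]
  Tc := [(3, 0, 2)]
  Td := [((0, 3), (2, 1), 2), ((0, 3), (6, 3), 1), ((0, 3), (6, 8), 7), ((2, 3), (1, 0), 1), ((2,
    3), (1, 2), 0), ((2, 3), (1, 9), 4), ((3, 0), (7, 8), 7), ((3, 0), (7, 9), 4), ((3, 2),
    (7, 8), 7), ((3, 2), (7, 9), 4)]
  G := [[0, 0, 0x622e88cea8a2e462a8e84ce6624e8a4268a2e48cee688ad48,
    0xc2c2c2e4c2c2ac246c2c26c28cd81, 0xa8622ac8a2ec6a8622ac8a2ec68a2ea8662ac8cd81], [0, 0,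
    0x622e82a44cee48a2e4642e84ceac2a8e84ce6644e8cd2a44884a, 0,
    0x8a2ea8662ac8ca48a2ea86e288c8a2ea8662ac8cd21], [0, 0, 0,
    0xc292a524652c292e45c2c2c2e4898, 0x8162285812ec6816212c812ec6285186621c8cd81], [0,
    0x14a483843e448384368438a483843841ee4e84, 0, 0,
    0x21c82ab186e4825212e186e8285812e816e8d28]]

noncomputable def n2039 : Ent := ⟨e2039, noF, [], [], [(7, 16, [1580044410770988437309982408355971841652082177953823432505697456129, 0])]⟩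

def c2039 : PLift (Cov.check n2039.C.D v2039 = true) := ⟨by decide +kernel⟩

def b2039 : PLift (entF (fidx ts) 400 2039 n2039 = true) := ⟨by decide +kernel⟩

theorem g2039 : GoodF (fidx ts) 400 2039 := GoodF.ofV v2039 n2039 c2039.down b2039.down

/-- 4576654:1722/4 -/
noncomputable def e2040 : SCfg where
  D := {
    a := 7
    L := 10
    kp := 7
    inn := [(0, 1), (0, 2), (1, 0), (1, 2), (1, 3), (2, 0), (2, 1), (2, 3), (3, 1), (3, 2), (3, 4), (4,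
      3), (4, 5), (5, 4), (5, 6), (6, 5)]
    mix := [(0, 0), (0, 1), (1, 1), (1, 2), (2, 0), (2, 3), (2, 4), (2, 5), (3, 2), (3, 3), (3, 6), (4,
      2), (4, 6), (4, 7), (4, 8), (5, 2), (5, 4), (5, 7), (6, 2), (6, 4), (6, 9)]
    cl := [1, 2, 0, 1, 3, 6, 0, 4, 7, 5]
    chq := [(0, 4), (4, 0), (4, 5), (5, 4)]
    rng := [(0, 1), (0, 5), (1, 0), (1, 2), (2, 1), (2, 9), (3, 4), (3, 6), (4, 3), (4, 5), (4, 7), (4,
      9), (5, 0), (5, 4), (6, 3), (6, 8), (7, 4), (7, 8), (8, 6), (8, 7), (9, 2), (9, 4)]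
    lev := [] }
  links := [[1, 2, 7, 8], [2, 0, 8, 9, 3], [7, 0, 1, 3, 10, 11, 12], [10, 2, 1, 9, 4, 13], [13, 3, 9, 5,
    14, 15], [14, 4, 9, 6, 11], [11, 5, 9, 16]]
  P := {
    a := 7
    N := 17
    nb := [390, 781, 7307, 9750, 57896, 19024, 68128, 4357, 643, 65914, 10252, 87140, 2180, 33816,
      34864, 24592, 2624]
    tri := [(0, 1, 2), (0, 1, 8), (0, 2, 7), (0, 7, 8), (1, 2, 3), (1, 3, 9), (1, 8, 9), (2, 3, 10),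
      (2, 7, 12), (2, 10, 11), (2, 11, 12), (3, 4, 9), (3, 4, 13), (3, 10, 13), (4, 5, 9), (4, 5,
      14), (4, 13, 15), (4, 14, 15), (5, 6, 9), (5, 6, 11), (5, 11, 14), (6, 9, 16), (6, 11, 16)]
    fin := [0, 0, 0, 0, 4, 5, 5, 0, 8, 4, 0, 11, 12, 4, 14, 15, 5]
    chd := [(4, 14), (14, 5)]
    steps := [(0, 1), (0, 2), (0, 3), (0, 7), (0, 10), (4, 9), (4, 13), (5, 6), (5, 16)] }
  rep := [4, 0, 8, 11, 14, 5, 12, 15]

noncomputable def v2040 : Cov.CovD where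
  P := 3
  N := 5
  pl := [1, 4, 5, 8]
  lev := [⟨[], [], [], [2], [(0, 1, [])]⟩,
    ⟨[], [(0, 0), (0, 1)], [], [2], [(2, 0, [4])]⟩,
    ⟨[(0, 1)], [(0, 1), (1, 0), (1, 1)], [(1, 1)], [3, 6], [(0, 1, []), (3, 1, [])]⟩,
    ⟨[(0, 1), (0, 2), (1, 2)], [(1, 0), (1, 1), (2, 0), (2, 1)], [(0, 0), (0, 1)], [], [(2,
      0, [4]), (3, 1, []), (6, 0, [4])]⟩,
    ⟨[(1, 3), (2, 3)], [(1, 0), (3, 0), (3, 1), (3, 4)], [(0, 0), (0, 4)], [7], [(2, 0,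
      [4]), (6, 0, [4]), (7, 4, [0, 5])]⟩,
    ⟨[(3, 4)], [(1, 0), (3, 0), (4, 0), (4, 4)], [(0, 4)], [3], [(2, 0, [4]), (7, 4, [0,
      5])]⟩,
    ⟨[(4, 5)], [(1, 0), (3, 0), (4, 0), (5, 0), (5, 4), (5, 5)], [(0, 5)], [3], [(2, 0,
      [4]), (9, 5, [4])]⟩]
  Ta := [((0, 1), 1, 2), ((0, 5), 1, 6), ((2, 1), 0, 2), ((2, 9), 0, 5), ((3, 4), 1, 3), ((3, 6),
    1, 0), ((6, 3), 0, 1), ((6, 8), 0, 7)]
  Tb := [((0, 1, 5), 1, 2, 6), ((1, 0, 2), 2, 1, 0), ((2, 1, 9), 0, 2, 5), ((3, 4, 6), 1, 3, 0),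
    ((4, 3, 5), 3, 1, 6), ((4, 3, 7), 3, 1, 4), ((4, 3, 9), 3, 1, 5), ((4, 5, 7), 3, 6, 4),
    ((4, 5, 9), 3, 6, 5), ((4, 7, 9), 3, 4, 5), ((5, 0, 4), 6, 1, 3), ((6, 3, 8), 0, 1, 7),
    ((7, 4, 8), 4, 3, 7), ((8, 6, 7), 7, 0, 4), ((9, 2, 4), 5, 0, 3)]
  Tc := [(4, 0, 5)]
  Td := [((0, 4), (2, 1), 2), ((0, 4), (2, 9), 5), ((0, 4), (6, 3), 1), ((0, 4), (6, 8), 7), ((4,
    0), (7, 4), 3), ((4, 0), (7, 8), 7), ((4, 5), (7, 4), 3), ((4, 5), (7, 8), 7), ((5, 4),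
    (9, 2), 0), ((5, 4), (9, 4), 3)]
  G := [[0, 0, 0x28a28a28ae42464246246ac2c622ce22cee288cd28,
    0x28a28aa28a46246246246e822ce22ce622ce8ad48, 0x28a28a28ae4246246246e822ce422ce22ceacd21],
    [0, 0, 0x28a468a68aac246a46a46e82c62ace6acee688cd24, 0,
    0x28a68a668a8c246a46a46e8a4462ce2ca6aceecd21], [0, 0, 0,
    0xd22246246c647828aa28a46123e112e89c8, 0x28a28ad2e4b44246d2ac12312312e8d28], [0,
    0x18189189e414514e1e2e112312e4e84, 0, 0, 0x7828a58ae4b44246434eac1a54169116acd81]]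

noncomputable def n2040 : Ent := ⟨e2040, noF, [], [], []⟩

def c2040 : PLift (Cov.check n2040.C.D v2040 = true) := ⟨by decide +kernel⟩

def b2040 : PLift (entF (fidx ts) 400 2040 n2040 = true) := ⟨by decide +kernel⟩

theorem g2040 : GoodF (fidx ts) 400 2040 := GoodF.ofV v2040 n2040 c2040.down b2040.down

/-- 4576654:1722/5 -/
noncomputable def e2041 : SCfg where
  D := {
    a := 7
    L := 10
    kp := 7
    inn := [(0, 1), (0, 2), (1, 0), (1, 2), (1, 3), (2, 0), (2, 1), (2, 3), (3, 1), (3, 2), (3, 4), (4,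
      3), (4, 5), (5, 4), (5, 6), (6, 5)]
    mix := [(0, 0), (0, 1), (1, 1), (1, 2), (2, 0), (2, 3), (2, 4), (2, 5), (3, 2), (3, 3), (3, 6), (4,
      2), (4, 6), (4, 7), (4, 8), (5, 2), (5, 5), (5, 7), (6, 2), (6, 5), (6, 9)]
    cl := [1, 2, 0, 1, 6, 3, 0, 4, 7, 5]
    chq := [(0, 4), (4, 0), (4, 5), (5, 4)]
    rng := [(0, 1), (0, 5), (1, 0), (1, 2), (2, 1), (2, 9), (3, 4), (3, 6), (4, 3), (4, 5), (5, 0), (5,
      4), (5, 7), (5, 9), (6, 3), (6, 8), (7, 5), (7, 8), (8, 6), (8, 7), (9, 2), (9, 5)]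
    lev := [] }
  links := [[1, 2, 7, 8], [2, 0, 8, 9, 3], [7, 0, 1, 3, 10, 11, 12], [10, 2, 1, 9, 4, 13], [13, 3, 9, 5,
    14, 15], [14, 4, 9, 6, 12], [12, 5, 9, 16]]
  P := {
    a := 7
    N := 17
    nb := [390, 781, 7307, 9750, 57896, 21072, 70176, 4357, 643, 65914, 10252, 5124, 84196, 33816,
      36912, 24592, 4672]
    tri := [(0, 1, 2), (0, 1, 8), (0, 2, 7), (0, 7, 8), (1, 2, 3), (1, 3, 9), (1, 8, 9), (2, 3, 10),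
      (2, 7, 12), (2, 10, 11), (2, 11, 12), (3, 4, 9), (3, 4, 13), (3, 10, 13), (4, 5, 9), (4, 5,
      14), (4, 13, 15), (4, 14, 15), (5, 6, 9), (5, 6, 12), (5, 12, 14), (6, 9, 16), (6, 12, 16)]
    fin := [0, 0, 0, 0, 4, 5, 5, 0, 8, 4, 0, 11, 12, 4, 14, 15, 5]
    chd := [(4, 14), (14, 5)]
    steps := [(0, 1), (0, 2), (0, 3), (0, 7), (0, 10), (4, 9), (4, 13), (5, 6), (5, 16)] }
  rep := [4, 0, 8, 12, 14, 5, 11, 15]

noncomputable def v2041 : Cov.CovD where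
  P := 3
  N := 5
  pl := [1, 4, 5, 8]
  lev := [⟨[], [], [], [2], [(0, 1, [])]⟩,
    ⟨[], [(0, 0), (0, 1)], [], [2], [(2, 0, [4])]⟩,
    ⟨[(0, 1)], [(0, 1), (1, 0), (1, 1)], [(1, 1)], [3, 6], [(0, 1, []), (3, 1, [])]⟩,
    ⟨[(0, 1), (0, 2), (1, 2)], [(1, 0), (1, 1), (2, 0), (2, 1)], [(0, 0), (0, 1)], [], [(2,
      0, [4]), (3, 1, []), (6, 0, [4])]⟩,
    ⟨[(1, 3), (2, 3)], [(1, 0), (3, 0), (3, 1), (3, 4)], [(0, 0), (0, 4)], [7], [(2, 0,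
      [4]), (6, 0, [4]), (7, 4, [0, 5])]⟩,
    ⟨[(3, 4)], [(1, 0), (3, 0), (4, 0), (4, 4)], [(0, 4)], [3], [(2, 0, [4]), (7, 4, [0,
      5])]⟩,
    ⟨[(4, 5)], [(1, 0), (3, 0), (4, 0), (5, 0), (5, 4), (5, 5)], [(0, 5)], [3], [(2, 0,
      [4]), (9, 5, [4])]⟩]
  Ta := [((0, 1), 1, 2), ((0, 5), 1, 3), ((2, 1), 0, 2), ((2, 9), 0, 5), ((3, 4), 1, 6), ((3, 6),
    1, 0), ((6, 3), 0, 1), ((6, 8), 0, 7)]
  Tb := [((0, 1, 5), 1, 2, 3), ((1, 0, 2), 2, 1, 0), ((2, 1, 9), 0, 2, 5), ((3, 4, 6), 1, 6, 0),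
    ((4, 3, 5), 6, 1, 3), ((5, 0, 4), 3, 1, 6), ((5, 0, 7), 3, 1, 4), ((5, 0, 9), 3, 1, 5),
    ((5, 4, 7), 3, 6, 4), ((5, 4, 9), 3, 6, 5), ((5, 7, 9), 3, 4, 5), ((6, 3, 8), 0, 1, 7),
    ((7, 5, 8), 4, 3, 7), ((8, 6, 7), 7, 0, 4), ((9, 2, 5), 5, 0, 3)]
  Tc := [(4, 0, 5)]
  Td := [((0, 4), (2, 1), 2), ((0, 4), (2, 9), 5), ((0, 4), (6, 3), 1), ((0, 4), (6, 8), 7), ((4,
    0), (7, 5), 3), ((4, 0), (7, 8), 7), ((4, 5), (7, 5), 3), ((4, 5), (7, 8), 7), ((5, 4),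
    (9, 2), 0), ((5, 4), (9, 5), 3)]
  G := [[0, 0, 0x68a688ea28a46246a464a4ee862ce22cea2ace46d48,
    0x28a228a28ac624624662468a22ce222ce22cecad84,
    0x68a28a68ae4246a46a46e82c6a4c682ca6aceecd28], [0, 0,
    0x28a28a28ae424624662468c22ce422ce22ceacd82, 0,
    0x28a28a28ae424624662468c22ce22ce622ce8cd81], [0, 0, 0,
    0x28a28a6788c2462246b4ca123e112e8d41, 0x1ca27828ac6b4494e62468c18321691a3c6d81], [0,
    0x18189189e2e114145e8123e112e8e48, 0, 0, 0x28ad26788c246246246e8e112312e4d21]]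

noncomputable def n2041 : Ent := ⟨e2041, noF, [], [], []⟩

def c2041 : PLift (Cov.check n2041.C.D v2041 = true) := ⟨by decide +kernel⟩

def b2041 : PLift (entF (fidx ts) 400 2041 n2041 = true) := ⟨by decide +kernel⟩

theorem g2041 : GoodF (fidx ts) 400 2041 := GoodF.ofV v2041 n2041 c2041.down b2041.down

/-- 4576654:1722 -/
noncomputable def e2042 : SCfg where
  D := {
    a := 7
    L := 11
    kp := 8
    inn := [(0, 1), (0, 2), (1, 0), (1, 2), (1, 3), (2, 0), (2, 1), (2, 3), (3, 1), (3, 2), (3, 4), (4,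
      3), (4, 5), (5, 4), (5, 6), (6, 5)]
    mix := [(0, 0), (0, 1), (1, 1), (1, 2), (2, 0), (2, 3), (2, 4), (2, 5), (3, 2), (3, 3), (3, 6), (4,
      2), (4, 6), (4, 7), (4, 8), (5, 2), (5, 7), (5, 9), (6, 2), (6, 9), (6, 10)]
    cl := [1, 2, 0, 1, 6, 7, 0, 3, 8, 4, 5]
    chq := [(0, 3), (3, 0), (3, 5), (5, 3)]
    rng := [(0, 1), (0, 5), (1, 0), (1, 2), (2, 1), (2, 10), (3, 4), (3, 6), (4, 3), (4, 5), (5, 0),
      (5, 4), (6, 3), (6, 8), (7, 8), (7, 9), (8, 6), (8, 7), (9, 7), (9, 10), (10, 2), (10, 9)]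
    lev := [] }
  links := [[1, 2, 7, 8], [2, 0, 8, 9, 3], [7, 0, 1, 3, 10, 11, 12], [10, 2, 1, 9, 4, 13], [13, 3, 9, 5,
    14, 15], [14, 4, 9, 6, 16], [16, 5, 9, 17]]
  P := {
    a := 7
    N := 18
    nb := [390, 781, 7307, 9750, 57896, 82512, 197152, 4357, 643, 131450, 10252, 5124, 2180, 33816,
      98352, 24592, 147552, 66112]
    tri := [(0, 1, 2), (0, 1, 8), (0, 2, 7), (0, 7, 8), (1, 2, 3), (1, 3, 9), (1, 8, 9), (2, 3, 10),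
      (2, 7, 12), (2, 10, 11), (2, 11, 12), (3, 4, 9), (3, 4, 13), (3, 10, 13), (4, 5, 9), (4, 5,
      14), (4, 13, 15), (4, 14, 15), (5, 6, 9), (5, 6, 16), (5, 14, 16), (6, 9, 17), (6, 16, 17)]
    fin := [0, 0, 0, 0, 4, 5, 5, 0, 8, 4, 0, 11, 12, 4, 14, 15, 16, 5]
    chd := [(4, 14), (14, 5)]
    steps := [(0, 1), (0, 2), (0, 3), (0, 7), (0, 10), (4, 9), (4, 13), (5, 6), (5, 17)] }
  rep := [4, 0, 8, 14, 16, 5, 11, 12, 15]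

noncomputable def v2042 : Cov.CovD where
  P := 3
  N := 6
  pl := [1, 4, 5, 8, 9]
  lev := [⟨[], [], [], [2], [(0, 1, [])]⟩,
    ⟨[], [(0, 0), (0, 1)], [], [2], [(2, 0, [3])]⟩,
    ⟨[(0, 1)], [(0, 1), (1, 0), (1, 1)], [(1, 1)], [6, 7], [(0, 1, []), (3, 1, [])]⟩,
    ⟨[(0, 1), (0, 2), (1, 2)], [(1, 0), (1, 1), (2, 0), (2, 1)], [(0, 0), (0, 1)], [], [(2,
      0, [3]), (3, 1, []), (6, 0, [3])]⟩,
    ⟨[(1, 3), (2, 3)], [(1, 0), (3, 0), (3, 1), (3, 3)], [(0, 0), (0, 3)], [8], [(2, 0,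
      [3]), (6, 0, [3]), (7, 3, [0, 5])]⟩,
    ⟨[(3, 4)], [(1, 0), (3, 0), (4, 0), (4, 3)], [(0, 3)], [4], [(2, 0, [3]), (7, 3, [0,
      5])]⟩,
    ⟨[(4, 5)], [(1, 0), (3, 0), (4, 0), (5, 0), (5, 3), (5, 5)], [(0, 5)], [4], [(2, 0,
      [3]), (10, 5, [3])]⟩]
  Ta := [((0, 1), 1, 2), ((0, 5), 1, 7), ((2, 1), 0, 2), ((2, 10), 0, 5), ((3, 4), 1, 6), ((3,
    6), 1, 0), ((6, 3), 0, 1), ((6, 8), 0, 8)]
  Tb := [((0, 1, 5), 1, 2, 7), ((1, 0, 2), 2, 1, 0), ((2, 1, 10), 0, 2, 5), ((3, 4, 6), 1, 6, 0),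
    ((4, 3, 5), 6, 1, 7), ((5, 0, 4), 7, 1, 6), ((6, 3, 8), 0, 1, 8), ((7, 8, 9), 3, 8, 4),
    ((8, 6, 7), 8, 0, 3), ((9, 7, 10), 4, 3, 5), ((10, 2, 9), 5, 0, 4)]
  Tc := [(3, 0, 5)]
  Td := [((0, 3), (2, 1), 2), ((0, 3), (2, 10), 5), ((0, 3), (6, 3), 1), ((0, 3), (6, 8), 8),
    ((3, 0), (7, 8), 8), ((3, 0), (7, 9), 4), ((3, 5), (7, 8), 8), ((3, 5), (7, 9), 4), ((5,
    3), (10, 2), 0), ((5, 3), (10, 9), 4)]
  G := [[0, 0, 0x6ace26ace6acec66ace6ace66ace8a6ace26ace6acecad84,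
    0x6ace6acea6ace466ace26ace6acec656ace26ace6acec68c8,
    0x6ace6acea6ace466ace6acea6ace466acec26acee6ac46d81], [0, 0,
    0x6ace46ace6aceaca446ace6ca6aceec56ace6ace66ace8c8c2, 0,
    0x6acec26acee46ace46ace6aceac6ace6ace66ace8cd6ac488a1], [0, 0, 0,
    0xba5398b6342b8a24e7138e185ee8481e2524d138ecad41,
    0x124e28eb11cee424e7218e419ee8a567218e481ee8d28], [0,
    0x49addc36524d8a24e73827ce3e8ba54124e498bace41, 0, 0,
    0x218e4124ece3acba54769dc3ac124e28eb481ee4d21]]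

noncomputable def n2042 : Ent := ⟨e2042, noF, [], [], [(7, 16, [7334685537875745012586738086077695515070955365108989538292687702024193, 0]), (8, 17, [6903326391201334775872065844685381424292761054348340378595029938040833, 0]), (16, 11, [7334685537875745014457460181861251250371671950985831803452281357041665, 0]), (16, 12, [7334685537875751142568901549633128948459063966345724013249176436445185, 0])]⟩

def c2042 : PLift (Cov.check n2042.C.D v2042 = true) := ⟨by decide +kernel⟩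

def b2042 : PLift (entF (fidx ts) 400 2042 n2042 = true) := ⟨by decide +kernel⟩

theorem g2042 : GoodF (fidx ts) 400 2042 := GoodF.ofV v2042 n2042 c2042.down b2042.down

/-- 4747644:1725/1 -/
noncomputable def e2043 : SCfg where
  D := {
    a := 7
    L := 9
    kp := 6
    inn := [(0, 1), (1, 0), (1, 2), (1, 3), (1, 4), (2, 1), (2, 3), (3, 1), (3, 2), (3, 4), (3, 5), (4,
      1), (4, 3), (4, 6), (5, 3), (6, 4)]
    mix := [(0, 0), (0, 1), (0, 2), (1, 0), (1, 2), (1, 3), (2, 2), (2, 4), (3, 4), (3, 5), (3, 6), (4,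
      3), (4, 6), (4, 7), (5, 1), (5, 4), (5, 5), (6, 6), (6, 7), (6, 8)]
    cl := [4, 2, 1, 1, 0, 5, 0, 3, 6]
    chq := [(0, 3), (3, 0)]
    rng := [(0, 1), (0, 3), (1, 0), (1, 2), (1, 4), (1, 5), (2, 1), (2, 4), (3, 0), (3, 7), (4, 1), (4,
      2), (5, 1), (5, 6), (6, 5), (6, 8), (7, 3), (7, 8), (8, 6), (8, 7)]
    lev := [] }
  links := [[1, 7, 8, 9], [7, 0, 9, 2, 3, 4, 10], [3, 1, 9, 11], [4, 1, 2, 11, 5, 12, 13], [10, 1, 3, 13,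
    6, 14], [12, 3, 11, 8], [14, 4, 13, 15]]
  P := {
    a := 7
    N := 16
    nb := [898, 1693, 2570, 14390, 25674, 6408, 57360, 1283, 6817, 2311, 16530, 812, 8488, 36952,
      33872, 24640]
    tri := [(0, 1, 7), (0, 1, 9), (0, 7, 8), (0, 8, 9), (1, 2, 3), (1, 2, 9), (1, 3, 4), (1, 4, 10),
      (1, 7, 10), (2, 3, 11), (2, 9, 11), (3, 4, 13), (3, 5, 11), (3, 5, 12), (3, 12, 13), (4, 6,
      13), (4, 6, 14), (4, 10, 14), (5, 8, 11), (5, 8, 12), (6, 13, 15), (6, 14, 15)]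
    fin := [0, 1, 1, 3, 1, 5, 3, 0, 5, 1, 1, 3, 12, 3, 14, 15]
    chd := [(3, 14)]
    steps := [(0, 7), (1, 2), (1, 4), (1, 9), (1, 10), (3, 11), (3, 13), (3, 6), (5, 8)] }
  rep := [3, 1, 5, 14, 0, 12, 15]

noncomputable def v2043 : Cov.CovD where
  P := 3
  N := 4
  pl := [0, 1, 5, 8]
  lev := [⟨[], [], [], [2, 4], [(2, 1, [])]⟩,
    ⟨[], [(0, 1)], [(1, 1)], [4], [(2, 1, []), (3, 1, [])]⟩,
    ⟨[(0, 1)], [(0, 1), (1, 0), (1, 1)], [(0, 1)], [], [(2, 1, []), (4, 0, [3])]⟩,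
    ⟨[(0, 1), (1, 2)], [(1, 0), (1, 1), (2, 0), (2, 1)], [(0, 0)], [5], [(4, 0, [3]), (6,
      0, [3])]⟩,
    ⟨[(0, 1), (1, 2), (1, 3), (2, 3)], [(1, 0), (1, 1), (1, 3), (3, 0), (3, 1), (3, 3)],
      [(0, 1), (0, 3), (1, 3)], [], [(3, 1, []), (6, 0, [3]), (7, 3, [0])]⟩,
    ⟨[(1, 3), (2, 3), (3, 4)], [(2, 0), (3, 0)], [], [2, 5], [(4, 0, [3])]⟩,
    ⟨[(1, 4), (3, 4)], [(3, 0), (4, 0), (4, 1), (4, 3)], [(0, 3)], [6], [(6, 0, [3]), (7,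
      3, [0])]⟩]
  Ta := [((2, 1), 1, 2), ((2, 4), 1, 0), ((3, 0), 1, 4), ((3, 7), 1, 3), ((4, 1), 0, 2), ((4, 2),
    0, 1), ((6, 5), 0, 5), ((6, 8), 0, 6)]
  Tb := [((0, 1, 3), 4, 2, 1), ((1, 0, 2), 2, 4, 1), ((1, 0, 4), 2, 4, 0), ((1, 0, 5), 2, 4, 5),
    ((1, 2, 4), 2, 1, 0), ((1, 2, 5), 2, 1, 5), ((1, 4, 5), 2, 0, 5), ((2, 1, 4), 1, 2, 0),
    ((3, 0, 7), 1, 4, 3), ((4, 1, 2), 0, 2, 1), ((5, 1, 6), 5, 2, 0), ((6, 5, 8), 0, 5, 6),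
    ((7, 3, 8), 3, 1, 6), ((8, 6, 7), 6, 0, 3)]
  Tc := []
  Td := [((0, 3), (4, 1), 2), ((0, 3), (4, 2), 1), ((0, 3), (6, 5), 5), ((0, 3), (6, 8), 6), ((3,
    0), (7, 3), 1), ((3, 0), (7, 8), 6)]
  G := [[0, 0x11c18621814646814221418a11c8aa4c, 0x122142c81182122c41c, 0x66caac5248d424d828c19,
    0xd8262a25648d82d22c419], [0, 0, 0x1411ac421e818241212c241e, 0,
    0xc2a2524b8a8582c684188a212ce419], [0, 0, 0, 0x669428aa9828caa5669c2815,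
    0xc8262464284288a28e1ca12148ea262c6819], [0, 0, 0, 0,
    0x42426148ca88a222c61c614a18a262ce413]]

noncomputable def n2043 : Ent := ⟨e2043, noF, [], [], []⟩

def c2043 : PLift (Cov.check n2043.C.D v2043 = true) := ⟨by decide +kernel⟩

def b2043 : PLift (entF (fidx ts) 400 2043 n2043 = true) := ⟨by decide +kernel⟩

theorem g2043 : GoodF (fidx ts) 400 2043 := GoodF.ofV v2043 n2043 c2043.down b2043.down

/-- 4747644:1725/2 -/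
noncomputable def e2044 : SCfg where
  D := {
    a := 7
    L := 9
    kp := 6
    inn := [(0, 1), (1, 0), (1, 2), (1, 3), (1, 4), (2, 1), (2, 3), (3, 1), (3, 2), (3, 4), (3, 5), (4,
      1), (4, 3), (4, 6), (5, 3), (6, 4)]
    mix := [(0, 0), (0, 1), (0, 2), (1, 0), (1, 2), (1, 3), (2, 2), (2, 4), (3, 4), (3, 5), (3, 6), (4,
      3), (4, 6), (4, 7), (5, 4), (5, 5), (5, 8), (6, 1), (6, 6), (6, 7)]
    cl := [2, 4, 1, 1, 0, 5, 0, 3, 6]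
    chq := [(0, 3), (3, 0)]
    rng := [(0, 1), (0, 3), (1, 0), (1, 2), (1, 6), (1, 7), (2, 1), (2, 4), (3, 0), (3, 7), (4, 2), (4,
      8), (5, 6), (5, 8), (6, 1), (6, 5), (7, 1), (7, 3), (8, 4), (8, 5)]
    lev := [] }
  links := [[1, 7, 8, 9], [7, 0, 9, 2, 3, 4, 10], [3, 1, 9, 11], [4, 1, 2, 11, 5, 12, 13], [10, 1, 3, 13,
    6, 14], [12, 3, 11, 15], [14, 4, 13, 8]]
  P := {
    a := 7
    N := 16
    nb := [898, 1693, 2570, 14390, 25674, 38920, 24848, 1283, 25281, 2311, 16530, 33324, 41000, 4440,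
      1360, 6176]
    tri := [(0, 1, 7), (0, 1, 9), (0, 7, 8), (0, 8, 9), (1, 2, 3), (1, 2, 9), (1, 3, 4), (1, 4, 10),
      (1, 7, 10), (2, 3, 11), (2, 9, 11), (3, 4, 13), (3, 5, 11), (3, 5, 12), (3, 12, 13), (4, 6,
      13), (4, 6, 14), (4, 10, 14), (5, 11, 15), (5, 12, 15), (6, 8, 13), (6, 8, 14)]
    fin := [0, 1, 1, 3, 3, 3, 6, 0, 6, 1, 1, 3, 12, 3, 14, 15]
    chd := [(3, 14)]
    steps := [(0, 7), (1, 2), (1, 9), (1, 10), (3, 4), (3, 5), (3, 11), (3, 13), (6, 8)] }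
  rep := [3, 1, 0, 14, 6, 12, 15]

noncomputable def v2044 : Cov.CovD where
  P := 3
  N := 4
  pl := [0, 1, 5, 8]
  lev := [⟨[], [], [], [2, 4], [(2, 1, [])]⟩,
    ⟨[], [(0, 1)], [(1, 1)], [2], [(2, 1, []), (3, 1, [])]⟩,
    ⟨[(0, 1)], [(0, 1), (1, 0), (1, 1)], [(0, 1)], [], [(2, 1, []), (4, 0, [3])]⟩,
    ⟨[(0, 1), (1, 2)], [(1, 0), (1, 1), (2, 0), (2, 1)], [(0, 0)], [5], [(4, 0, [3]), (6,
      0, [3])]⟩,
    ⟨[(0, 1), (1, 2), (1, 3), (2, 3)], [(1, 0), (1, 1), (1, 3), (3, 0), (3, 1), (3, 3)],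
      [(0, 1), (0, 3), (1, 3)], [], [(3, 1, []), (6, 0, [3]), (7, 3, [0])]⟩,
    ⟨[(1, 3), (2, 3), (3, 4)], [(2, 0), (3, 0)], [], [5, 6], [(4, 0, [3])]⟩,
    ⟨[(1, 4), (3, 4)], [(3, 0), (4, 0), (4, 1), (4, 3)], [(0, 3)], [4], [(6, 0, [3]), (7,
      3, [0])]⟩]
  Ta := [((2, 1), 1, 4), ((2, 4), 1, 0), ((3, 0), 1, 2), ((3, 7), 1, 3), ((4, 2), 0, 1), ((4, 8),
    0, 6), ((6, 1), 0, 4), ((6, 5), 0, 5)]
  Tb := [((0, 1, 3), 2, 4, 1), ((1, 0, 2), 4, 2, 1), ((1, 0, 6), 4, 2, 0), ((1, 0, 7), 4, 2, 3),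
    ((1, 2, 6), 4, 1, 0), ((1, 2, 7), 4, 1, 3), ((1, 6, 7), 4, 0, 3), ((2, 1, 4), 1, 4, 0),
    ((3, 0, 7), 1, 2, 3), ((4, 2, 8), 0, 1, 6), ((5, 6, 8), 5, 0, 6), ((6, 1, 5), 0, 4, 5),
    ((7, 1, 3), 3, 4, 1), ((8, 4, 5), 6, 0, 5)]
  Tc := []
  Td := [((0, 3), (4, 2), 1), ((0, 3), (4, 8), 6), ((0, 3), (6, 1), 4), ((0, 3), (6, 5), 5), ((3,
    0), (7, 1), 4), ((3, 0), (7, 3), 1)]
  G := [[0, 0x116116c2141812ce8a441a2218e244c11ca468c, 0x118d28862269a4455c24126a5688c, 0,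
    0xa1116a4dda28c11], [0, 0, 0x125e2c921ee69a442, 0x21245212256828182c1,
    0x12c812a116c621c48c12], [0, 0, 0x21816886222bca842141a22a44ac648c, 0,
    0xc124c32c41825229c2aa625c6819], [0, 0, 0x2144e98a64b2a6ce842,
    0x2141c8121ca412122ac222c21c4685, 0x61eacc62c721ca412]]

noncomputable def n2044 : Ent := ⟨e2044, noF, [], [], []⟩

def c2044 : PLift (Cov.check n2044.C.D v2044 = true) := ⟨by decide +kernel⟩

def b2044 : PLift (entF (fidx ts) 400 2044 n2044 = true) := ⟨by decide +kernel⟩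

theorem g2044 : GoodF (fidx ts) 400 2044 := GoodF.ofV v2044 n2044 c2044.down b2044.down

/-- 4747644:1725 -/
noncomputable def e2045 : SCfg where
  D := {
    a := 7
    L := 10
    kp := 7
    inn := [(0, 1), (1, 0), (1, 2), (1, 3), (1, 4), (2, 1), (2, 3), (3, 1), (3, 2), (3, 4), (3, 5), (4,
      1), (4, 3), (4, 6), (5, 3), (6, 4)]
    mix := [(0, 0), (0, 1), (0, 2), (1, 0), (1, 2), (1, 3), (2, 2), (2, 4), (3, 4), (3, 5), (3, 6), (4,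
      3), (4, 6), (4, 7), (5, 4), (5, 5), (5, 8), (6, 6), (6, 7), (6, 9)]
    cl := [2, 5, 1, 1, 0, 4, 0, 3, 6, 7]
    chq := [(0, 3), (3, 0)]
    rng := [(0, 1), (0, 3), (1, 0), (1, 2), (2, 1), (2, 4), (3, 0), (3, 7), (4, 2), (4, 8), (5, 6), (5,
      8), (6, 5), (6, 9), (7, 3), (7, 9), (8, 4), (8, 5), (9, 6), (9, 7)]
    lev := [] }
  links := [[1, 7, 8, 9], [7, 0, 9, 2, 3, 4, 10], [3, 1, 9, 11], [4, 1, 2, 11, 5, 12, 13], [10, 1, 3, 13,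
    6, 14], [12, 3, 11, 15], [14, 4, 13, 16]]
  P := {
    a := 7
    N := 17
    nb := [898, 1693, 2570, 14390, 25674, 38920, 90128, 1283, 641, 2311, 16530, 33324, 41000, 69720,
      66640, 6176, 24640]
    tri := [(0, 1, 7), (0, 1, 9), (0, 7, 8), (0, 8, 9), (1, 2, 3), (1, 2, 9), (1, 3, 4), (1, 4, 10),
      (1, 7, 10), (2, 3, 11), (2, 9, 11), (3, 4, 13), (3, 5, 11), (3, 5, 12), (3, 12, 13), (4, 6,
      13), (4, 6, 14), (4, 10, 14), (5, 11, 15), (5, 12, 15), (6, 13, 16), (6, 14, 16)]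
    fin := [0, 1, 1, 3, 1, 3, 3, 0, 8, 1, 1, 3, 12, 3, 14, 15, 16]
    chd := [(3, 14)]
    steps := [(0, 7), (1, 2), (1, 4), (1, 9), (1, 10), (3, 5), (3, 11), (3, 13), (3, 6)] }
  rep := [3, 1, 0, 14, 12, 8, 15, 16]

noncomputable def v2045 : Cov.CovD where
  P := 3
  N := 5
  pl := [0, 1, 5, 8, 9]
  lev := [⟨[], [], [], [2, 5], [(2, 1, [])]⟩,
    ⟨[], [(0, 1)], [(1, 1)], [2], [(2, 1, []), (3, 1, [])]⟩,
    ⟨[(0, 1)], [(0, 1), (1, 0), (1, 1)], [(0, 1)], [], [(2, 1, []), (4, 0, [3])]⟩,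
    ⟨[(0, 1), (1, 2)], [(1, 0), (1, 1), (2, 0), (2, 1)], [(0, 0)], [4], [(4, 0, [3]), (6,
      0, [3])]⟩,
    ⟨[(0, 1), (1, 2), (1, 3), (2, 3)], [(1, 0), (1, 1), (1, 3), (3, 0), (3, 1), (3, 3)],
      [(0, 1), (0, 3), (1, 3)], [], [(3, 1, []), (6, 0, [3]), (7, 3, [0])]⟩,
    ⟨[(1, 3), (2, 3), (3, 4)], [(2, 0), (3, 0)], [], [4, 6], [(4, 0, [3])]⟩,
    ⟨[(1, 4), (3, 4)], [(3, 0), (4, 0), (4, 1), (4, 3)], [(0, 3)], [7], [(6, 0, [3]), (7,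
      3, [0])]⟩]
  Ta := [((2, 1), 1, 5), ((2, 4), 1, 0), ((3, 0), 1, 2), ((3, 7), 1, 3), ((4, 2), 0, 1), ((4, 8),
    0, 6), ((6, 5), 0, 4), ((6, 9), 0, 7)]
  Tb := [((0, 1, 3), 2, 5, 1), ((1, 0, 2), 5, 2, 1), ((2, 1, 4), 1, 5, 0), ((3, 0, 7), 1, 2, 3),
    ((4, 2, 8), 0, 1, 6), ((5, 6, 8), 4, 0, 6), ((6, 5, 9), 0, 4, 7), ((7, 3, 9), 3, 1, 7),
    ((8, 4, 5), 6, 0, 4), ((9, 6, 7), 7, 0, 3)]
  Tc := []
  Td := [((0, 3), (4, 2), 1), ((0, 3), (4, 8), 6), ((0, 3), (6, 5), 4), ((0, 3), (6, 9), 7), ((3,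
    0), (7, 3), 1), ((3, 0), (7, 9), 7)]
  G := [[0, 0x1424211612c211c1868ac11a1218e211c11ca468c, 0x11cd2aa66669a4411cd266aaaa5688c, 0,
    0x666424ddc21168a49ddc2a1eea56889], [0, 0, 0x165e6c9cc66669a442,
    0x66aaaa52a1eec5468ca66669261eec98649, 0x14411cd18c91a51dece812], [0, 0,
    0x214436a294c9aaa3226ce8428cc66214624c1621822a8ec8c, 0,
    0x216188ce2287666ca4122c21cc5e8a32667c6819], [0, 0, 0x61428821666ce4aa38889868c2,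
    0x2166cc818aa8761ce4166c4a18aaa61ce419, 0xa18aaa666c66148c12]]

noncomputable def n2045 : Ent := ⟨e2045, noF, [], [], [(8, 15, [1685356702439545624007900436039642273970977273354372543760008458241, 0]), (8, 16, [1580044410770988437309982408355971841652082177953823432505697484801, 0])]⟩

def c2045 : PLift (Cov.check n2045.C.D v2045 = true) := ⟨by decide +kernel⟩

def b2045 : PLift (entF (fidx ts) 400 2045 n2045 = true) := ⟨by decide +kernel⟩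

theorem g2045 : GoodF (fidx ts) 400 2045 := GoodF.ofV v2045 n2045 c2045.down b2045.down

/-- 4747647:1729/1 -/
noncomputable def e2046 : SCfg where
  D := {
    a := 7
    L := 10
    kp := 7
    inn := [(0, 1), (1, 0), (1, 2), (1, 3), (1, 4), (2, 1), (2, 3), (3, 1), (3, 2), (3, 4), (3, 6), (4,
      1), (4, 3), (4, 5), (4, 6), (5, 4), (5, 6), (6, 3), (6, 4), (6, 5)]
    mix := [(0, 0), (0, 1), (0, 2), (1, 0), (1, 2), (1, 3), (2, 2), (2, 4), (3, 4), (3, 5), (3, 6), (4,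
      3), (4, 7), (5, 7), (5, 8), (6, 1), (6, 6), (6, 8), (6, 9)]
    cl := [2, 5, 0, 0, 1, 6, 3, 4, 3, 7]
    chq := [(1, 3), (1, 4), (3, 1), (4, 1)]
    rng := [(0, 1), (0, 3), (1, 0), (1, 2), (1, 6), (1, 9), (2, 1), (2, 4), (3, 0), (3, 7), (4, 2), (4,
      5), (5, 4), (5, 6), (6, 1), (6, 5), (7, 3), (7, 8), (8, 7), (8, 9), (9, 1), (9, 8)]
    lev := [] }
  links := [[1, 7, 8, 9], [7, 0, 9, 2, 3, 4, 10], [3, 1, 9, 11], [4, 1, 2, 11, 12, 13, 6], [10, 1, 3, 6,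
    5, 14], [14, 4, 6, 15], [15, 5, 4, 3, 13, 8, 16]]
  P := {
    a := 7
    N := 17
    nb := [898, 1693, 2570, 14422, 17514, 49232, 106808, 1283, 74433, 2311, 16530, 4620, 10248, 4424,
      33840, 82016, 33088]
    tri := [(0, 1, 7), (0, 1, 9), (0, 7, 8), (0, 8, 9), (1, 2, 3), (1, 2, 9), (1, 3, 4), (1, 4, 10),
      (1, 7, 10), (2, 3, 11), (2, 9, 11), (3, 4, 6), (3, 6, 13), (3, 11, 12), (3, 12, 13), (4, 5,
      6), (4, 5, 14), (4, 10, 14), (5, 6, 15), (5, 14, 15), (6, 8, 13), (6, 8, 16), (6, 15, 16)]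
    fin := [0, 1, 1, 3, 3, 3, 6, 0, 8, 1, 1, 3, 12, 6, 14, 6, 16]
    chd := [(3, 6), (3, 14)]
    steps := [(0, 7), (1, 2), (1, 9), (1, 10), (3, 4), (3, 5), (3, 11), (6, 13), (6, 15)] }
  rep := [1, 3, 0, 6, 14, 8, 12, 16]

noncomputable def v2046 : Cov.CovD where
  P := 3
  N := 5
  pl := [0, 1, 5, 9]
  lev := [⟨[], [], [], [2, 5], [(2, 0, [])]⟩,
    ⟨[], [(0, 0)], [(0, 0)], [2], [(2, 0, []), (3, 0, [])]⟩,
    ⟨[(0, 1)], [(0, 0), (1, 0), (1, 1)], [(0, 1)], [], [(2, 0, []), (4, 1, [3, 4])]⟩,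
    ⟨[(0, 1), (1, 2)], [(1, 0), (1, 1), (1, 3), (2, 0), (2, 1), (2, 3)], [(1, 3)], [6],
      [(4, 1, [3, 4]), (6, 3, [1])]⟩,
    ⟨[(0, 1), (1, 2), (1, 3), (2, 3)], [(1, 0), (1, 4), (3, 0), (3, 1), (3, 3), (3, 4)],
      [(0, 4)], [], [(3, 0, []), (7, 4, [1])]⟩,
    ⟨[(1, 4), (3, 4)], [(4, 0), (4, 3), (4, 4)], [(3, 4)], [], [(7, 4, [1]), (8, 3, [1])]⟩,
    ⟨[(1, 3), (1, 4), (2, 3), (3, 4), (3, 5), (4, 5)], [(3, 1), (3, 3), (4, 0), (4, 3), (4,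
      4), (5, 3), (5, 4)], [(3, 3)], [5, 7], [(6, 3, [1]), (8, 3, [1])]⟩]
  Ta := [((2, 1), 0, 5), ((2, 4), 0, 1), ((3, 0), 0, 2), ((3, 7), 0, 4), ((6, 1), 3, 5), ((6, 5),
    3, 6), ((8, 7), 3, 4), ((8, 9), 3, 7)]
  Tb := [((0, 1, 3), 2, 5, 0), ((1, 0, 2), 5, 2, 0), ((1, 0, 6), 5, 2, 3), ((1, 0, 9), 5, 2, 7),
    ((1, 2, 6), 5, 0, 3), ((1, 2, 9), 5, 0, 7), ((1, 6, 9), 5, 3, 7), ((2, 1, 4), 0, 5, 1),
    ((3, 0, 7), 0, 2, 4), ((4, 2, 5), 1, 0, 6), ((5, 4, 6), 6, 1, 3), ((6, 1, 5), 3, 5, 6),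
    ((7, 3, 8), 4, 0, 3), ((8, 7, 9), 3, 4, 7), ((9, 1, 8), 7, 5, 3)]
  Tc := [(1, 3, 4)]
  Td := [((1, 3), (4, 2), 0), ((1, 3), (4, 5), 6), ((1, 4), (4, 2), 0), ((1, 4), (4, 5), 6), ((3,
    1), (6, 1), 5), ((3, 1), (6, 5), 6), ((3, 1), (8, 7), 4), ((3, 1), (8, 9), 7), ((4, 1),
    (7, 3), 0), ((4, 1), (7, 8), 3)]
  G := [[0, 0x311482b491a4331a49ac4315161126131ce61429468c, 0,
    0xb12832839c6542a6184c26a121114d65712838c8c, 0x12c29d2586511c258c2712431236165712438c8a],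
    [0, 0x88142318b146f128cc1144525127121ac68c, 0, 0x112aa34512a638c4112ea3256786588c,
    0x12c294112e631249c271283256786588a], [0, 0, 0xd12844d12925865882171624b1aa1386d48e,
    0x7e92483141621872923cd388d28cc1, 0xd2a241e722bac5423f281e218cc21], [0, 0,
    0xf12ada2944728148a56412171a498e, 0xf25ff2a4f552f652184a81, 0x2184f23d162faf2c9c21]]

noncomputable def n2046 : Ent := ⟨e2046, noF, [], [], []⟩

def c2046 : PLift (Cov.check n2046.C.D v2046 = true) := ⟨by decide +kernel⟩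

def b2046 : PLift (entF (fidx ts) 400 2046 n2046 = true) := ⟨by decide +kernel⟩

theorem g2046 : GoodF (fidx ts) 400 2046 := GoodF.ofV v2046 n2046 c2046.down b2046.down

/-- 4747647:1729/2 -/
noncomputable def e2047 : SCfg where
  D := {
    a := 7
    L := 10
    kp := 7
    inn := [(0, 1), (1, 0), (1, 2), (1, 3), (1, 4), (2, 1), (2, 3), (3, 1), (3, 2), (3, 4), (3, 6), (4,
      1), (4, 3), (4, 5), (4, 6), (5, 4), (5, 6), (6, 3), (6, 4), (6, 5)]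
    mix := [(0, 0), (0, 1), (0, 2), (1, 0), (1, 2), (1, 3), (2, 2), (2, 4), (3, 4), (3, 5), (3, 6), (4,
      3), (4, 7), (5, 7), (5, 8), (6, 1), (6, 6), (6, 8), (6, 9)]
    cl := [2, 5, 0, 0, 1, 6, 3, 4, 3, 7]
    chq := [(1, 3), (1, 4), (3, 1), (4, 1)]
    rng := [(0, 1), (0, 3), (1, 0), (1, 2), (1, 8), (1, 9), (2, 1), (2, 4), (3, 0), (3, 7), (4, 2), (4,
      5), (5, 4), (5, 6), (6, 5), (6, 9), (7, 3), (7, 8), (8, 1), (8, 7), (9, 1), (9, 6)]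
    lev := [] }
  links := [[1, 7, 8, 9], [7, 0, 9, 2, 3, 4, 10], [3, 1, 9, 11], [4, 1, 2, 11, 12, 13, 6], [10, 1, 3, 6,
    5, 14], [14, 4, 6, 15], [15, 5, 4, 3, 13, 16, 8]]
  P := {
    a := 7
    N := 17
    nb := [898, 1693, 2570, 14422, 17514, 49232, 106808, 1283, 99009, 2311, 16530, 4620, 10248, 69704,
      33840, 16736, 8512]
    tri := [(0, 1, 7), (0, 1, 9), (0, 7, 8), (0, 8, 9), (1, 2, 3), (1, 2, 9), (1, 3, 4), (1, 4, 10),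
      (1, 7, 10), (2, 3, 11), (2, 9, 11), (3, 4, 6), (3, 6, 13), (3, 11, 12), (3, 12, 13), (4, 5,
      6), (4, 5, 14), (4, 10, 14), (5, 6, 15), (5, 14, 15), (6, 8, 15), (6, 8, 16), (6, 13, 16)]
    fin := [0, 1, 1, 3, 3, 3, 6, 0, 8, 1, 1, 3, 12, 6, 14, 6, 16]
    chd := [(3, 6), (3, 14)]
    steps := [(0, 7), (1, 2), (1, 9), (1, 10), (3, 4), (3, 5), (3, 11), (6, 13), (6, 15)] }
  rep := [1, 3, 0, 6, 14, 8, 12, 16]

noncomputable def v2047 : Cov.CovD where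
  P := 3
  N := 5
  pl := [0, 1, 5, 9]
  lev := [⟨[], [], [], [2, 5], [(2, 0, [])]⟩,
    ⟨[], [(0, 0)], [(0, 0)], [2], [(2, 0, []), (3, 0, [])]⟩,
    ⟨[(0, 1)], [(0, 0), (1, 0), (1, 1)], [(0, 1)], [], [(2, 0, []), (4, 1, [3, 4])]⟩,
    ⟨[(0, 1), (1, 2)], [(1, 0), (1, 1), (1, 3), (2, 0), (2, 1), (2, 3)], [(1, 3)], [6],
      [(4, 1, [3, 4]), (6, 3, [1])]⟩,
    ⟨[(0, 1), (1, 2), (1, 3), (2, 3)], [(1, 0), (1, 4), (3, 0), (3, 1), (3, 3), (3, 4)],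
      [(0, 4)], [], [(3, 0, []), (7, 4, [1])]⟩,
    ⟨[(1, 4), (3, 4)], [(4, 0), (4, 3), (4, 4)], [(3, 4)], [], [(7, 4, [1]), (8, 3, [1])]⟩,
    ⟨[(1, 3), (1, 4), (2, 3), (3, 4), (3, 5), (4, 5)], [(3, 1), (3, 3), (4, 0), (4, 3), (4,
      4), (5, 3), (5, 4)], [(3, 3)], [5, 7], [(6, 3, [1]), (8, 3, [1])]⟩]
  Ta := [((2, 1), 0, 5), ((2, 4), 0, 1), ((3, 0), 0, 2), ((3, 7), 0, 4), ((6, 5), 3, 6), ((6, 9),
    3, 7), ((8, 1), 3, 5), ((8, 7), 3, 4)]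
  Tb := [((0, 1, 3), 2, 5, 0), ((1, 0, 2), 5, 2, 0), ((1, 0, 8), 5, 2, 3), ((1, 0, 9), 5, 2, 7),
    ((1, 2, 8), 5, 0, 3), ((1, 2, 9), 5, 0, 7), ((1, 8, 9), 5, 3, 7), ((2, 1, 4), 0, 5, 1),
    ((3, 0, 7), 0, 2, 4), ((4, 2, 5), 1, 0, 6), ((5, 4, 6), 6, 1, 3), ((6, 5, 9), 3, 6, 7),
    ((7, 3, 8), 4, 0, 3), ((8, 1, 7), 3, 5, 4), ((9, 1, 6), 7, 5, 3)]
  Tc := [(1, 3, 4)]
  Td := [((1, 3), (4, 2), 0), ((1, 3), (4, 5), 6), ((1, 4), (4, 2), 0), ((1, 4), (4, 5), 6), ((3,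
    1), (6, 5), 6), ((3, 1), (6, 9), 7), ((3, 1), (8, 1), 5), ((3, 1), (8, 7), 4), ((4, 1),
    (7, 3), 0), ((4, 1), (7, 8), 3)]
  G := [[0, 0x112b194a718e818438a421423151651483914e68c, 0,
    0xb12431238524b1a8c426a121194d65712438c8c, 0x12c29412c257292c9c21128426611126a91234d8aa],
    [0, 0x9191c2b13168a4511444d271d122b468c, 0, 0x2bab861112a638c41126a334746b6588c,
    0x11c29411c231249c2123162d7872c942a], [0, 0, 0x7281a12894d124171294298c214131428b16c98e,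
    0x285f96f85a365283168c9c5284c1, 0x285e962ba786516528c28a81684a1], [0, 0,
    0xd12dda294471248218722d6c58aa, 0x3cab244e12f9ff282148e41, 0x2fad1af2f2c522648c21]]

noncomputable def n2047 : Ent := ⟨e2047, noF, [], [], []⟩

def c2047 : PLift (Cov.check n2047.C.D v2047 = true) := ⟨by decide +kernel⟩

def b2047 : PLift (entF (fidx ts) 400 2047 n2047 = true) := ⟨by decide +kernel⟩

theorem g2047 : GoodF (fidx ts) 400 2047 := GoodF.ofV v2047 n2047 c2047.down b2047.down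

/-- 4747647:1729/3 -/
noncomputable def e2048 : SCfg where
  D := {
    a := 7
    L := 10
    kp := 7
    inn := [(0, 1), (1, 0), (1, 2), (1, 3), (1, 4), (2, 1), (2, 3), (3, 1), (3, 2), (3, 4), (3, 6), (4,
      1), (4, 3), (4, 5), (4, 6), (5, 4), (5, 6), (6, 3), (6, 4), (6, 5)]
    mix := [(0, 0), (0, 1), (0, 2), (1, 0), (1, 2), (1, 3), (2, 2), (2, 4), (3, 4), (3, 5), (3, 6), (4,
      3), (4, 7), (5, 1), (5, 7), (6, 1), (6, 6), (6, 8), (6, 9)]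
    cl := [2, 0, 1, 1, 3, 5, 0, 4, 6, 7]
    chq := [(0, 3), (3, 0), (3, 4), (4, 3)]
    rng := [(0, 1), (0, 3), (1, 0), (1, 2), (1, 7), (1, 9), (2, 1), (2, 4), (3, 0), (3, 7), (4, 2), (4,
      5), (5, 4), (5, 6), (6, 5), (6, 8), (7, 1), (7, 3), (8, 6), (8, 9), (9, 1), (9, 8)]
    lev := [] }
  links := [[1, 7, 8, 9], [7, 0, 9, 2, 3, 4, 10], [3, 1, 9, 11], [4, 1, 2, 11, 12, 13, 6], [10, 1, 3, 6,
    5, 14], [14, 4, 6, 8], [8, 5, 4, 3, 13, 15, 16]]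
  P := {
    a := 7
    N := 17
    nb := [898, 1693, 2570, 14422, 17514, 16720, 106808, 1283, 82657, 2311, 16530, 4620, 10248, 36936,
      1328, 73792, 33088]
    tri := [(0, 1, 7), (0, 1, 9), (0, 7, 8), (0, 8, 9), (1, 2, 3), (1, 2, 9), (1, 3, 4), (1, 4, 10),
      (1, 7, 10), (2, 3, 11), (2, 9, 11), (3, 4, 6), (3, 6, 13), (3, 11, 12), (3, 12, 13), (4, 5,
      6), (4, 5, 14), (4, 10, 14), (5, 6, 8), (5, 8, 14), (6, 8, 16), (6, 13, 15), (6, 15, 16)]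
    fin := [0, 1, 1, 3, 3, 5, 5, 0, 5, 1, 1, 3, 12, 5, 14, 15, 16]
    chd := [(3, 14), (5, 3)]
    steps := [(0, 7), (1, 2), (1, 9), (1, 10), (3, 4), (3, 11), (5, 6), (5, 8), (5, 13)] }
  rep := [5, 1, 0, 3, 14, 12, 15, 16]

noncomputable def v2048 : Cov.CovD where
  P := 3
  N := 5
  pl := [0, 5, 8, 9]
  lev := [⟨[], [], [(0, 1)], [2], [(1, 0, [3]), (2, 1, [])]⟩,
    ⟨[], [(0, 0), (0, 1)], [(1, 1)], [2], [(2, 1, []), (3, 1, [])]⟩,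
    ⟨[(0, 1)], [(0, 1), (1, 1), (1, 3)], [(1, 3)], [], [(2, 1, []), (4, 3, [0, 4])]⟩,
    ⟨[(0, 1), (1, 2)], [(1, 0), (1, 1), (1, 3), (2, 0), (2, 1), (2, 3)], [(0, 3)], [5],
      [(4, 3, [0, 4]), (6, 0, [3])]⟩,
    ⟨[(0, 1), (1, 2), (1, 3), (2, 3)], [(1, 1), (1, 4), (3, 0), (3, 1), (3, 3), (3, 4)],
      [(1, 4)], [], [(3, 1, []), (7, 4, [3])]⟩,
    ⟨[(1, 4), (3, 4)], [(0, 0), (4, 0), (4, 1), (4, 4)], [(0, 4)], [], [(1, 0, [3]), (7, 4,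
      [3])]⟩,
    ⟨[(1, 3), (1, 4), (2, 3), (3, 4), (3, 5), (4, 5)], [(0, 0), (3, 0), (3, 3), (4, 0), (4,
      1), (4, 4), (5, 0), (5, 4)], [(0, 0)], [6, 7], [(1, 0, [3]), (6, 0, [3])]⟩]
  Ta := [((1, 0), 0, 2), ((1, 2), 0, 1), ((1, 7), 0, 4), ((1, 9), 0, 7), ((2, 1), 1, 0), ((2, 4),
    1, 3), ((3, 0), 1, 2), ((3, 7), 1, 4), ((6, 5), 0, 5), ((6, 8), 0, 6)]
  Tb := [((0, 1, 3), 2, 0, 1), ((1, 0, 2), 0, 2, 1), ((1, 0, 7), 0, 2, 4), ((1, 0, 9), 0, 2, 7),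
    ((1, 2, 7), 0, 1, 4), ((1, 2, 9), 0, 1, 7), ((1, 7, 9), 0, 4, 7), ((2, 1, 4), 1, 0, 3),
    ((3, 0, 7), 1, 2, 4), ((4, 2, 5), 3, 1, 5), ((5, 4, 6), 5, 3, 0), ((6, 5, 8), 0, 5, 6),
    ((7, 1, 3), 4, 0, 1), ((8, 6, 9), 6, 0, 7), ((9, 1, 8), 7, 0, 6)]
  Tc := [(3, 0, 4)]
  Td := [((0, 3), (1, 0), 2), ((0, 3), (1, 2), 1), ((0, 3), (1, 7), 4), ((0, 3), (1, 9), 7), ((0,
    3), (6, 5), 5), ((0, 3), (6, 8), 6), ((3, 0), (4, 2), 1), ((3, 0), (4, 5), 5), ((3, 4),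
    (4, 2), 1), ((3, 4), (4, 5), 5), ((4, 3), (7, 1), 0), ((4, 3), (7, 3), 1)]
  G := [[0, 0x22ce21688e81a44, 0x24c46162248cce1c84, 0, 0x22c861e214ac2ca565226284e8198], [0, 0,
    0x42412688ea2c12c8, 0x2ca12621e21e24d684, 0x8ea412866a1eca1a4e85e18a], [0, 0, 0, 0,
    0xe2122ce1614122388128998], [0, 0, 0, 0xe2122ce1a1e214254, 0xe8c1e12ca5614ec18298]]

noncomputable def n2048 : Ent := ⟨e2048, noF, [], [], []⟩

def c2048 : PLift (Cov.check n2048.C.D v2048 = true) := ⟨by decide +kernel⟩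

def b2048 : PLift (entF (fidx ts) 400 2048 n2048 = true) := ⟨by decide +kernel⟩

theorem g2048 : GoodF (fidx ts) 400 2048 := GoodF.ofV v2048 n2048 c2048.down b2048.down

/-- 4747647:1729 -/
noncomputable def e2049 : SCfg where
  D := {
    a := 7
    L := 11
    kp := 9
    inn := [(0, 1), (1, 0), (1, 2), (1, 3), (1, 4), (2, 1), (2, 3), (3, 1), (3, 2), (3, 4), (3, 6), (4,
      1), (4, 3), (4, 5), (4, 6), (5, 4), (5, 6), (6, 3), (6, 4), (6, 5)]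
    mix := [(0, 0), (0, 1), (0, 2), (1, 0), (1, 2), (1, 3), (2, 2), (2, 4), (3, 4), (3, 5), (3, 6), (4,
      3), (4, 7), (5, 7), (5, 8), (6, 6), (6, 8), (6, 9), (6, 10)]
    cl := [1, 7, 0, 2, 4, 6, 3, 5, 3, 8, 9]
    chq := [(0, 1), (1, 0), (1, 4), (2, 3), (2, 4), (2, 6), (3, 2), (4, 1), (4, 2), (6, 2)]
    rng := [(0, 1), (0, 3), (1, 0), (1, 2), (2, 1), (2, 4), (3, 0), (3, 7), (4, 2), (4, 5), (5, 4), (5,
      6), (6, 5), (6, 9), (7, 3), (7, 8), (8, 7), (8, 10), (9, 6), (9, 10), (10, 8), (10, 9)]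
    lev := [] }
  links := [[1, 7, 8, 9], [7, 0, 9, 2, 3, 4, 10], [3, 1, 9, 11], [4, 1, 2, 11, 12, 13, 6], [10, 1, 3, 6,
    5, 14], [14, 4, 6, 15], [15, 5, 4, 3, 13, 16, 17]]
  P := {
    a := 7
    N := 18
    nb := [898, 1693, 2570, 14422, 17514, 49232, 237624, 1283, 641, 2311, 16530, 4620, 10248, 69704,
      33840, 147552, 139328, 98368]
    tri := [(0, 1, 7), (0, 1, 9), (0, 7, 8), (0, 8, 9), (1, 2, 3), (1, 2, 9), (1, 3, 4), (1, 4, 10),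
      (1, 7, 10), (2, 3, 11), (2, 9, 11), (3, 4, 6), (3, 6, 13), (3, 11, 12), (3, 12, 13), (4, 5,
      6), (4, 5, 14), (4, 10, 14), (5, 6, 15), (5, 14, 15), (6, 13, 16), (6, 15, 17), (6, 16, 17)]
    fin := [0, 0, 0, 3, 3, 5, 5, 0, 8, 9, 3, 11, 12, 5, 14, 5, 16, 17]
    chd := [(0, 9), (0, 11), (3, 5), (3, 11), (3, 12)]
    steps := [(0, 1), (0, 2), (0, 7), (3, 4), (3, 10), (5, 6), (5, 13), (5, 15)] }
  rep := [9, 0, 3, 5, 11, 14, 12, 8, 16, 17]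

noncomputable def v2049 : Cov.CovD where
  P := 3
  N := 7
  pl := [1, 7, 9, 10]
  lev := [⟨[], [], [(0, 1)], [7], [(0, 1, [0, 4]), (2, 0, [1])]⟩,
    ⟨[], [(0, 0), (0, 1), (0, 2)], [(0, 1), (0, 2), (1, 2)], [], [(0, 1, [0, 4]), (2, 0,
      [1]), (3, 2, [3, 4, 6])]⟩,
    ⟨[(0, 1)], [(0, 0), (1, 0), (1, 1), (1, 2), (1, 4)], [(0, 4)], [], [(2, 0, [1]), (4, 4,
      [1, 2])]⟩,
    ⟨[(0, 1), (1, 2)], [(1, 0), (1, 1), (1, 2), (1, 3), (1, 4), (1, 6), (2, 0), (2, 3), (2,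
      4), (2, 6)], [(3, 4), (3, 6), (4, 6)], [], [(4, 4, [1, 2]), (5, 6, [2]), (6, 3, [2])]⟩,
    ⟨[(0, 1), (1, 2), (1, 3), (2, 3)], [(1, 0), (1, 1), (1, 2), (3, 2), (3, 3), (3, 4), (3,
      6)], [], [5], [(3, 2, [3, 4, 6])]⟩,
    ⟨[(1, 4), (3, 4)], [(4, 2), (4, 3)], [], [5], [(8, 3, [2])]⟩,
    ⟨[(1, 3), (1, 4), (2, 3), (3, 4), (3, 5), (4, 5)], [(3, 3), (3, 4), (3, 6), (4, 2), (4,
      3), (5, 3)], [(3, 3)], [8, 9], [(6, 3, [2]), (8, 3, [2])]⟩]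
  Ta := [((6, 5), 3, 6), ((6, 9), 3, 8), ((8, 7), 3, 5), ((8, 10), 3, 9)]
  Tb := [((0, 1, 3), 1, 7, 2), ((1, 0, 2), 7, 1, 0), ((2, 1, 4), 0, 7, 4), ((3, 0, 7), 2, 1, 5),
    ((4, 2, 5), 4, 0, 6), ((5, 4, 6), 6, 4, 3), ((6, 5, 9), 3, 6, 8), ((7, 3, 8), 5, 2, 3),
    ((8, 7, 10), 3, 5, 9), ((9, 6, 10), 8, 3, 9), ((10, 8, 9), 9, 3, 8)]
  Tc := [(1, 0, 4), (2, 3, 4), (2, 3, 6), (2, 4, 6), (4, 1, 2)]
  Td := [((0, 1), (2, 1), 7), ((0, 1), (2, 4), 4), ((1, 0), (0, 1), 7), ((1, 0), (0, 3), 2), ((1,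
    4), (0, 1), 7), ((1, 4), (0, 3), 2), ((2, 3), (3, 0), 1), ((2, 3), (3, 7), 5), ((2, 4),
    (3, 0), 1), ((2, 4), (3, 7), 5), ((2, 6), (3, 0), 1), ((2, 6), (3, 7), 5), ((3, 2), (6,
    5), 6), ((3, 2), (6, 9), 8), ((3, 2), (8, 7), 5), ((3, 2), (8, 10), 9), ((4, 1), (4, 2),
    0), ((4, 1), (4, 5), 6), ((4, 2), (4, 2), 0), ((4, 2), (4, 5), 6), ((6, 2), (5, 4), 4),
    ((6, 2), (5, 6), 3)]
  G := [[0, 0x2422944222292222992d62fc923c2422922285528225a5afac5a386,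
    0x11821121114a1145f6a154efa411211464112118af411eda1acc,
    0x22524922422c92d2d292e4225249242252492d2d292acc,
    0x4bcf4a3441444437244443448a8c44443244483443b8b46b4444ad68c], [0,
    0x22412212e9d92c23da3422841822a2c1224691785ab9a34e,
    0x1142112461111611eda2d16e92c1111a421182112378d9967a9acc,
    0x22c2259222225d2d292222cb6422c2295222c4222152d288d2287e8c,
    0x44124b5ef16d34644244892c444494444a332d4a4b4db468c]]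

noncomputable def n2049 : Ent := ⟨e2049, noF, [], [], [(8, 16, [7334685537875745012586738086077695515070955365108989538292687702056961, 0]), (8, 17, [6903326391201334775872065844685381424292761054348340378595029938073601, 0]), (8, 15, [7334790850167413569773436004105379185503274260204390087403942013042689, 0])]⟩

def c2049 : PLift (Cov.check n2049.C.D v2049 = true) := ⟨by decide +kernel⟩

def b2049 : PLift (entF (fidx ts) 400 2049 n2049 = true) := ⟨by decide +kernel⟩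

theorem g2049 : GoodF (fidx ts) 400 2049 := GoodF.ofV v2049 n2049 c2049.down b2049.down

/-- 4747647:1731 -/
noncomputable def e2050 : SCfg where
  D := {
    a := 7
    L := 11
    kp := 8
    inn := [(0, 1), (1, 0), (1, 2), (1, 3), (1, 4), (1, 6), (2, 1), (2, 3), (3, 1), (3, 2), (3, 4), (4,
      1), (4, 3), (4, 5), (4, 6), (5, 4), (5, 6), (6, 1), (6, 4), (6, 5)]
    mix := [(0, 0), (0, 1), (0, 2), (1, 0), (1, 2), (2, 2), (2, 3), (3, 3), (3, 4), (3, 5), (3, 6), (4,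
      6), (4, 7), (5, 7), (5, 8), (6, 0), (6, 8), (6, 9), (6, 10)]
    cl := [0, 2, 1, 3, 5, 6, 3, 4, 0, 7, 8]
    chq := [(0, 1), (1, 0), (1, 4), (4, 1)]
    rng := [(0, 1), (0, 10), (1, 0), (1, 2), (2, 1), (2, 3), (3, 2), (3, 4), (4, 3), (4, 5), (5, 4),
      (5, 6), (6, 5), (6, 7), (7, 6), (7, 8), (8, 7), (8, 9), (9, 8), (9, 10), (10, 0), (10, 9)]
    lev := [] }
  links := [[1, 7, 8, 9], [7, 0, 9, 2, 3, 4, 6], [3, 1, 9, 10], [4, 1, 2, 10, 11, 12, 13], [6, 1, 3, 13,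
    14, 5], [6, 4, 14, 15], [7, 1, 4, 5, 15, 16, 17]]
  P := {
    a := 7
    N := 18
    nb := [898, 733, 1546, 15382, 24682, 49232, 229554, 131395, 641, 1287, 2572, 5128, 10248, 20504,
      41008, 82016, 163904, 65728]
    tri := [(0, 1, 7), (0, 1, 9), (0, 7, 8), (0, 8, 9), (1, 2, 3), (1, 2, 9), (1, 3, 4), (1, 4, 6), (1,
      6, 7), (2, 3, 10), (2, 9, 10), (3, 4, 13), (3, 10, 11), (3, 11, 12), (3, 12, 13), (4, 5, 6),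
      (4, 5, 14), (4, 13, 14), (5, 6, 15), (5, 14, 15), (6, 7, 17), (6, 15, 16), (6, 16, 17)]
    fin := [0, 1, 1, 3, 1, 0, 0, 0, 8, 1, 3, 11, 12, 3, 14, 0, 16, 17]
    chd := [(0, 1), (1, 14)]
    steps := [(0, 7), (0, 6), (0, 5), (0, 15), (1, 2), (1, 4), (1, 9), (3, 10), (3, 13)] }
  rep := [0, 1, 8, 3, 14, 11, 12, 16, 17]

noncomputable def v2050 : Cov.CovD where
  P := 3
  N := 6
  pl := [1, 4, 5, 9, 10]
  lev := [⟨[], [], [(0, 1)], [2], [(0, 0, [1]), (2, 1, [0, 4])]⟩,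
    ⟨[], [(0, 0), (0, 1)], [(0, 1)], [], [(0, 0, [1]), (2, 1, [0, 4])]⟩,
    ⟨[(0, 1)], [(0, 1), (1, 0), (1, 1), (1, 3)], [(1, 3)], [], [(2, 1, [0, 4]), (3, 3,
      [])]⟩,
    ⟨[(0, 1), (1, 2)], [(1, 0), (1, 1), (1, 3), (2, 1), (2, 3)], [(3, 3)], [5, 6], [(3, 3,
      []), (6, 3, [])]⟩,
    ⟨[(0, 1), (1, 2), (1, 3), (2, 3)], [(1, 0), (1, 1), (1, 3), (1, 4), (3, 3), (3, 4)],
      [(3, 4)], [], [(6, 3, []), (7, 4, [1])]⟩,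
    ⟨[(1, 4), (3, 4)], [(4, 0), (4, 3), (4, 4)], [(0, 4)], [], [(7, 4, [1]), (8, 0, [1])]⟩,
    ⟨[(0, 1), (1, 2), (1, 3), (1, 4), (1, 5), (3, 4), (4, 5)], [(0, 0), (1, 0), (1, 1), (4,
      0), (4, 3), (4, 4), (5, 0), (5, 4)], [(0, 0)], [7, 8], [(0, 0, [1]), (8, 0, [1])]⟩]
  Ta := [((0, 1), 0, 2), ((0, 10), 0, 8), ((3, 2), 3, 1), ((3, 4), 3, 5), ((6, 5), 3, 6), ((6,
    7), 3, 4), ((8, 7), 0, 4), ((8, 9), 0, 7)]
  Tb := [((0, 1, 10), 0, 2, 8), ((1, 0, 2), 2, 0, 1), ((2, 1, 3), 1, 2, 3), ((3, 2, 4), 3, 1, 5),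
    ((4, 3, 5), 5, 3, 6), ((5, 4, 6), 6, 5, 3), ((6, 5, 7), 3, 6, 4), ((7, 6, 8), 4, 3, 0),
    ((8, 7, 9), 0, 4, 7), ((9, 8, 10), 7, 0, 8), ((10, 0, 9), 8, 0, 7)]
  Tc := [(1, 0, 4)]
  Td := [((0, 1), (0, 1), 2), ((0, 1), (0, 10), 8), ((0, 1), (8, 7), 4), ((0, 1), (8, 9), 7),
    ((1, 0), (2, 1), 2), ((1, 0), (2, 3), 3), ((1, 4), (2, 1), 2), ((1, 4), (2, 3), 3), ((4,
    1), (7, 6), 3), ((4, 1), (7, 8), 0)]
  G := [[0, 0x62a1212ece1e4196ace1e815c8612da8, 0xc122a3221a461e2122e1e194c12832ca1648c,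
    0x6212422e12a21e441c21e12bda1288c4, 0x61243681642e618122ea1ea818212121e1e79c8], [0,
    0xeea16ace16ace1b2eec14168, 0x281161228e1621e1c1e2fe12f52181a81c4,
    0x612c2322224c122fe21f481281c4, 0x2161641241121e1a812e121c1e2fe12f9c8], [0,
    0xe211e8114aee18aa1ea4e1eb64a14468, 0, 0x22ce2e216a244622ce23522ce28894,
    0x244ec2aab62454e82c6328e29a22862a888e226ca4eab9c1], [0, 0x44a16e8e1ee61ee61f2aa6181c4,
    0, 0x2222c8c22f22ce23822ce222ce2442e858, 0x244462aa6ca662a462e6d68ce2f1e8a243882241b8c1]]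

noncomputable def n2050 : Ent := ⟨e2050, noF, [], [], []⟩

def c2050 : PLift (Cov.check n2050.C.D v2050 = true) := ⟨by decide +kernel⟩

def b2050 : PLift (entF (fidx ts) 400 2050 n2050 = true) := ⟨by decide +kernel⟩

theorem g2050 : GoodF (fidx ts) 400 2050 := GoodF.ofV v2050 n2050 c2050.down b2050.down

/-- 4747646:1732/1 -/
noncomputable def e2051 : SCfg where
  D := {
    a := 7
    L := 10
    kp := 8
    inn := [(0, 1), (1, 0), (1, 2), (1, 3), (1, 4), (2, 1), (2, 3), (3, 1), (3, 2), (3, 4), (4, 1), (4,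
      3), (4, 5), (4, 6), (5, 4), (5, 6), (6, 4), (6, 5)]
    mix := [(0, 0), (0, 1), (0, 2), (1, 0), (1, 2), (1, 3), (2, 2), (2, 4), (3, 4), (3, 5), (3, 6), (3,
      7), (4, 3), (4, 7), (5, 3), (5, 8), (6, 1), (6, 7), (6, 8), (6, 9)]
    cl := [2, 5, 1, 0, 4, 6, 7, 3, 3, 8]
    chq := [(0, 4), (0, 6), (0, 7), (1, 2), (2, 1), (2, 4), (4, 0), (4, 2), (6, 0), (7, 0)]
    rng := [(0, 1), (0, 3), (1, 0), (1, 2), (1, 7), (1, 9), (2, 1), (2, 4), (3, 0), (3, 8), (4, 2), (4,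
      5), (5, 4), (5, 6), (6, 5), (6, 7), (7, 1), (7, 6), (8, 3), (8, 9), (9, 1), (9, 8)]
    lev := [] }
  links := [[1, 7, 8, 9], [7, 0, 9, 2, 3, 4, 10], [3, 1, 9, 11], [4, 1, 2, 11, 12, 13, 14], [10, 1, 3,
    14, 6, 5], [10, 4, 6, 15], [15, 5, 4, 14, 8, 16]]
  P := {
    a := 7
    N := 17
    nb := [898, 1693, 2570, 30742, 17514, 33872, 114992, 1283, 82625, 2311, 32946, 4620, 10248, 20488,
      8536, 66656, 33088]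
    tri := [(0, 1, 7), (0, 1, 9), (0, 7, 8), (0, 8, 9), (1, 2, 3), (1, 2, 9), (1, 3, 4), (1, 4, 10),
      (1, 7, 10), (2, 3, 11), (2, 9, 11), (3, 4, 14), (3, 11, 12), (3, 12, 13), (3, 13, 14), (4,
      5, 6), (4, 5, 10), (4, 6, 14), (5, 6, 15), (5, 10, 15), (6, 8, 14), (6, 8, 16), (6, 15, 16)]
    fin := [0, 0, 0, 3, 3, 5, 5, 0, 8, 9, 3, 11, 12, 13, 5, 5, 16]
    chd := [(0, 9), (0, 11), (3, 11), (3, 12), (3, 13)]
    steps := [(0, 1), (0, 2), (0, 7), (3, 4), (3, 10), (5, 6), (5, 14), (5, 15)] }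
  rep := [3, 9, 0, 5, 11, 8, 12, 13, 16]

noncomputable def v2051 : Cov.CovD where
  P := 3
  N := 6
  pl := [1, 9]
  lev := [⟨[], [], [(1, 2)], [5], [(0, 2, [1, 4]), (2, 1, [2])]⟩,
    ⟨[], [(0, 0), (0, 1), (0, 2)], [(0, 1), (0, 2), (1, 2)], [], [(0, 2, [1, 4]), (2, 1,
      [2]), (3, 0, [4, 6, 7])]⟩,
    ⟨[(0, 1)], [(0, 1), (1, 0), (1, 1), (1, 2), (1, 4)], [(1, 4)], [], [(2, 1, [2]), (4, 4,
      [0, 2])]⟩,
    ⟨[(0, 1), (1, 2)], [(1, 0), (1, 1), (1, 2), (1, 3), (1, 4), (1, 6), (1, 7), (2, 1), (2,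
      3), (2, 4), (2, 6), (2, 7)], [(3, 4), (3, 6), (3, 7), (4, 6), (4, 7), (6, 7)], [], [(4,
      4, [0, 2]), (5, 6, [0]), (6, 7, [0]), (7, 3, [])]⟩,
    ⟨[(0, 1), (1, 2), (1, 3), (2, 3)], [(1, 0), (1, 1), (1, 2), (1, 3), (3, 0), (3, 3), (3,
      4), (3, 6), (3, 7)], [(0, 3)], [], [(3, 0, [4, 6, 7]), (7, 3, [])]⟩,
    ⟨[(1, 4), (3, 4)], [(1, 0), (4, 0), (4, 3)], [(0, 3)], [], [(3, 0, [4, 6, 7]), (8, 3,
      [])]⟩,
    ⟨[(1, 4), (3, 4), (4, 5)], [(3, 3), (4, 0), (4, 3), (5, 0), (5, 3)], [(3, 3)], [5, 8],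
      [(7, 3, []), (8, 3, [])]⟩]
  Ta := [((7, 1), 3, 5), ((7, 6), 3, 7), ((8, 3), 3, 0), ((8, 9), 3, 8)]
  Tb := [((0, 1, 3), 2, 5, 0), ((1, 0, 2), 5, 2, 1), ((1, 0, 7), 5, 2, 3), ((1, 0, 9), 5, 2, 8),
    ((1, 2, 7), 5, 1, 3), ((1, 2, 9), 5, 1, 8), ((1, 7, 9), 5, 3, 8), ((2, 1, 4), 1, 5, 4),
    ((3, 0, 8), 0, 2, 3), ((4, 2, 5), 4, 1, 6), ((5, 4, 6), 6, 4, 7), ((6, 5, 7), 7, 6, 3),
    ((7, 1, 6), 3, 5, 7), ((8, 3, 9), 3, 0, 8), ((9, 1, 8), 8, 5, 3)]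
  Tc := [(0, 4, 6), (0, 4, 7), (0, 6, 7), (2, 1, 4), (4, 0, 2)]
  Td := [((0, 4), (3, 0), 2), ((0, 4), (3, 8), 3), ((0, 6), (3, 0), 2), ((0, 6), (3, 8), 3), ((0,
    7), (3, 0), 2), ((0, 7), (3, 8), 3), ((1, 2), (2, 1), 5), ((1, 2), (2, 4), 4), ((2, 1),
    (0, 1), 5), ((2, 1), (0, 3), 0), ((2, 4), (0, 1), 5), ((2, 4), (0, 3), 0), ((4, 0), (4,
    2), 1), ((4, 0), (4, 5), 6), ((4, 2), (4, 2), 1), ((4, 2), (4, 5), 6), ((6, 0), (5, 4),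
    4), ((6, 0), (5, 6), 7), ((7, 0), (6, 5), 6), ((7, 0), (6, 7), 3)]
  G := [[0, 0x9438a12458346128c, 0xa438c1145868a114c, 0xc274a1245464a1249, 0xc8a461483252c1489],
    [0, 0x87c2124782124c, 0xf48114f84118c, 0xa7c21247821289, 0xc7a41487821489]]

noncomputable def n2051 : Ent := ⟨e2051, noF, [], [], []⟩

def c2051 : PLift (Cov.check n2051.C.D v2051 = true) := ⟨by decide +kernel⟩

def b2051 : PLift (entF (fidx ts) 400 2051 n2051 = true) := ⟨by decide +kernel⟩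

theorem g2051 : GoodF (fidx ts) 400 2051 := GoodF.ofV v2051 n2051 c2051.down b2051.down

/-- 4747646:1732/3 -/
noncomputable def e2052 : SCfg where
  D := {
    a := 7
    L := 9
    kp := 7
    inn := [(0, 1), (1, 0), (1, 2), (1, 3), (1, 4), (2, 1), (2, 3), (3, 1), (3, 2), (3, 4), (4, 1), (4,
      3), (4, 5), (4, 6), (5, 4), (5, 6), (6, 4), (6, 5)]
    mix := [(0, 0), (0, 1), (0, 2), (1, 0), (1, 2), (1, 3), (2, 2), (2, 4), (3, 4), (3, 5), (3, 6), (3,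
      7), (4, 3), (4, 7), (5, 3), (5, 8), (6, 1), (6, 6), (6, 7), (6, 8)]
    cl := [6, 4, 1, 0, 2, 7, 5, 3, 3]
    chq := [(0, 1), (0, 2), (0, 4), (0, 5), (0, 7), (1, 0), (2, 0), (4, 0), (5, 0), (7, 0)]
    rng := [(0, 1), (0, 3), (1, 0), (1, 2), (1, 6), (1, 8), (2, 1), (2, 4), (3, 0), (3, 8), (4, 2), (4,
      5), (5, 4), (5, 6), (6, 1), (6, 5), (6, 7), (7, 6), (8, 1), (8, 3)]
    lev := [] }
  links := [[1, 7, 8, 9], [7, 0, 9, 2, 3, 4, 10], [3, 1, 9, 11], [4, 1, 2, 11, 12, 13, 14], [10, 1, 3,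
    14, 6, 5], [10, 4, 6, 15], [15, 5, 4, 14, 13, 8]]
  P := {
    a := 7
    N := 16
    nb := [898, 1693, 2570, 30742, 17514, 33872, 57648, 1283, 41665, 2311, 32946, 4620, 10248, 20808,
      8280, 1376]
    tri := [(0, 1, 7), (0, 1, 9), (0, 7, 8), (0, 8, 9), (1, 2, 3), (1, 2, 9), (1, 3, 4), (1, 4, 10),
      (1, 7, 10), (2, 3, 11), (2, 9, 11), (3, 4, 14), (3, 11, 12), (3, 12, 13), (3, 13, 14), (4,
      5, 6), (4, 5, 10), (4, 6, 14), (5, 6, 15), (5, 10, 15), (6, 8, 13), (6, 8, 15), (6, 13, 14)]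
    fin := [0, 1, 2, 1, 4, 4, 0, 7, 0, 2, 1, 11, 12, 13, 4, 4]
    chd := [(0, 1), (1, 11), (1, 12), (1, 13), (2, 1)]
    steps := [(0, 8), (0, 6), (1, 3), (1, 10), (2, 9), (4, 5), (4, 14), (4, 15)] }
  rep := [1, 2, 11, 4, 0, 13, 7, 12]

noncomputable def v2052 : Cov.CovD where
  P := 3
  N := 5
  pl := [0]
  lev := [⟨[], [], [(1, 4)], [6], [(1, 4, [0]), (2, 1, [0])]⟩,
    ⟨[], [(0, 0), (0, 1), (0, 4)], [(0, 1)], [6], [(2, 1, [0]), (3, 0, [1, 2, 4, 5, 7])]⟩,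
    ⟨[(0, 1)], [(0, 1), (1, 0), (1, 1), (1, 2)], [(1, 2)], [], [(2, 1, [0]), (4, 2, [0])]⟩,
    ⟨[(0, 1), (1, 2)], [(1, 0), (1, 1), (1, 2), (1, 3), (1, 5), (1, 7), (2, 1), (2, 2), (2,
      3), (2, 5), (2, 7)], [(2, 3), (2, 5), (2, 7), (3, 5), (3, 7), (5, 7)], [], [(4, 2,
      [0]), (5, 7, [0]), (6, 5, [0]), (7, 3, [])]⟩,
    ⟨[(0, 1), (1, 2), (1, 3), (2, 3)], [(1, 0), (1, 1), (1, 3), (3, 0), (3, 2), (3, 3), (3,
      5), (3, 7)], [(0, 3)], [], [(3, 0, [1, 2, 4, 5, 7]), (7, 3, [])]⟩,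
    ⟨[(1, 4), (3, 4)], [(1, 0), (4, 0), (4, 3)], [(0, 3)], [], [(3, 0, [1, 2, 4, 5, 7]),
      (8, 3, [])]⟩,
    ⟨[(1, 4), (3, 4), (4, 5)], [(0, 4), (3, 3), (3, 5), (4, 0), (4, 3), (4, 4), (4, 5), (5,
      0), (5, 3), (5, 4), (5, 5)], [(3, 3), (3, 4), (3, 5), (4, 5)], [], [(1, 4, [0]), (6, 5,
      [0]), (7, 3, []), (8, 3, [])]⟩]
  Ta := [((7, 6), 3, 5), ((8, 1), 3, 4), ((8, 3), 3, 0)]
  Tb := [((0, 1, 3), 6, 4, 0), ((1, 0, 2), 4, 6, 1), ((1, 0, 6), 4, 6, 5), ((1, 0, 8), 4, 6, 3),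
    ((1, 2, 6), 4, 1, 5), ((1, 2, 8), 4, 1, 3), ((1, 6, 8), 4, 5, 3), ((2, 1, 4), 1, 4, 2),
    ((3, 0, 8), 0, 6, 3), ((4, 2, 5), 2, 1, 7), ((5, 4, 6), 7, 2, 5), ((6, 1, 5), 5, 4, 7),
    ((6, 1, 7), 5, 4, 3), ((6, 5, 7), 5, 7, 3), ((8, 1, 3), 3, 4, 0)]
  Tc := [(0, 1, 2), (0, 1, 4), (0, 1, 5), (0, 1, 7), (0, 2, 4), (0, 2, 5), (0, 2, 7), (0, 4, 5),
    (0, 4, 7), (0, 5, 7)]
  Td := [((0, 1), (3, 0), 6), ((0, 1), (3, 8), 3), ((0, 2), (3, 0), 6), ((0, 2), (3, 8), 3), ((0,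
    4), (3, 0), 6), ((0, 4), (3, 8), 3), ((0, 5), (3, 0), 6), ((0, 5), (3, 8), 3), ((0, 7),
    (3, 0), 6), ((0, 7), (3, 8), 3), ((1, 0), (2, 1), 4), ((1, 0), (2, 4), 2), ((2, 0), (4,
    2), 1), ((2, 0), (4, 5), 7), ((4, 0), (1, 0), 6), ((4, 0), (1, 2), 1), ((4, 0), (1, 6),
    5), ((4, 0), (1, 8), 3), ((5, 0), (6, 1), 4), ((5, 0), (6, 5), 7), ((5, 0), (6, 7), 3),
    ((7, 0), (5, 4), 2), ((7, 0), (5, 6), 5)]
  G := [[0, 0x1214c141212c18c1, 0x12146181214a18c1, 0xb41861487812a18474814b2418cd,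
    0x14411878c2a1841c5b4618b2418cd], [0, 0x11621811a418a1, 0x11a21411c818c1,
    0x11c214851a2184d3a414a3c218cd, 0x11641185162184b7c218a3c218cd]]

noncomputable def n2052 : Ent := ⟨e2052, noF, [], [], []⟩

def c2052 : PLift (Cov.check n2052.C.D v2052 = true) := ⟨by decide +kernel⟩

def b2052 : PLift (entF (fidx ts) 400 2052 n2052 = true) := ⟨by decide +kernel⟩

theorem g2052 : GoodF (fidx ts) 400 2052 := GoodF.ofV v2052 n2052 c2052.down b2052.down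

/-- 4747646:1732/2 -/
noncomputable def e2053 : SCfg where
  D := {
    a := 7
    L := 10
    kp := 8
    inn := [(0, 1), (1, 0), (1, 2), (1, 3), (1, 4), (2, 1), (2, 3), (3, 1), (3, 2), (3, 4), (4, 1), (4,
      3), (4, 5), (4, 6), (5, 4), (5, 6), (6, 4), (6, 5)]
    mix := [(0, 0), (0, 1), (0, 2), (1, 0), (1, 2), (1, 3), (2, 2), (2, 4), (3, 4), (3, 5), (3, 6), (3,
      7), (4, 3), (4, 7), (5, 3), (5, 8), (6, 1), (6, 7), (6, 8), (6, 9)]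
    cl := [2, 5, 1, 0, 4, 6, 7, 3, 3, 8]
    chq := [(0, 4), (0, 6), (0, 7), (1, 2), (2, 1), (2, 4), (4, 0), (4, 2), (6, 0), (7, 0)]
    rng := [(0, 1), (0, 3), (1, 0), (1, 2), (1, 8), (1, 9), (2, 1), (2, 4), (3, 0), (3, 8), (4, 2), (4,
      5), (5, 4), (5, 6), (6, 5), (6, 7), (7, 6), (7, 9), (8, 1), (8, 3), (9, 1), (9, 7)]
    lev := [] }
  links := [[1, 7, 8, 9], [7, 0, 9, 2, 3, 4, 10], [3, 1, 9, 11], [4, 1, 2, 11, 12, 13, 14], [10, 1, 3,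
    14, 6, 5], [10, 4, 6, 15], [15, 5, 4, 14, 16, 8]]
  P := {
    a := 7
    N := 17
    nb := [898, 1693, 2570, 30742, 17514, 33872, 114992, 1283, 99009, 2311, 32946, 4620, 10248, 20488,
      73816, 1376, 16704]
    tri := [(0, 1, 7), (0, 1, 9), (0, 7, 8), (0, 8, 9), (1, 2, 3), (1, 2, 9), (1, 3, 4), (1, 4, 10),
      (1, 7, 10), (2, 3, 11), (2, 9, 11), (3, 4, 14), (3, 11, 12), (3, 12, 13), (3, 13, 14), (4,
      5, 6), (4, 5, 10), (4, 6, 14), (5, 6, 15), (5, 10, 15), (6, 8, 15), (6, 8, 16), (6, 14, 16)]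
    fin := [0, 0, 0, 3, 3, 5, 5, 0, 8, 9, 3, 11, 12, 13, 5, 5, 16]
    chd := [(0, 9), (0, 11), (3, 11), (3, 12), (3, 13)]
    steps := [(0, 1), (0, 2), (0, 7), (3, 4), (3, 10), (5, 6), (5, 14), (5, 15)] }
  rep := [3, 9, 0, 5, 11, 8, 12, 13, 16]

noncomputable def v2053 : Cov.CovD where
  P := 3
  N := 6
  pl := [1, 9]
  lev := [⟨[], [], [(1, 2)], [5], [(0, 2, [1, 4]), (2, 1, [2])]⟩,
    ⟨[], [(0, 0), (0, 1), (0, 2)], [(0, 1), (0, 2), (1, 2)], [], [(0, 2, [1, 4]), (2, 1,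
      [2]), (3, 0, [4, 6, 7])]⟩,
    ⟨[(0, 1)], [(0, 1), (1, 0), (1, 1), (1, 2), (1, 4)], [(1, 4)], [], [(2, 1, [2]), (4, 4,
      [0, 2])]⟩,
    ⟨[(0, 1), (1, 2)], [(1, 0), (1, 1), (1, 2), (1, 3), (1, 4), (1, 6), (1, 7), (2, 1), (2,
      3), (2, 4), (2, 6), (2, 7)], [(3, 4), (3, 6), (3, 7), (4, 6), (4, 7), (6, 7)], [], [(4,
      4, [0, 2]), (5, 6, [0]), (6, 7, [0]), (7, 3, [])]⟩,
    ⟨[(0, 1), (1, 2), (1, 3), (2, 3)], [(1, 0), (1, 1), (1, 2), (1, 3), (3, 0), (3, 3), (3,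
      4), (3, 6), (3, 7)], [(0, 3)], [], [(3, 0, [4, 6, 7]), (7, 3, [])]⟩,
    ⟨[(1, 4), (3, 4)], [(1, 0), (4, 0), (4, 3)], [(0, 3)], [], [(3, 0, [4, 6, 7]), (8, 3,
      [])]⟩,
    ⟨[(1, 4), (3, 4), (4, 5)], [(3, 3), (4, 0), (4, 3), (5, 0), (5, 3)], [(3, 3)], [5, 8],
      [(7, 3, []), (8, 3, [])]⟩]
  Ta := [((7, 6), 3, 7), ((7, 9), 3, 8), ((8, 1), 3, 5), ((8, 3), 3, 0)]
  Tb := [((0, 1, 3), 2, 5, 0), ((1, 0, 2), 5, 2, 1), ((1, 0, 8), 5, 2, 3), ((1, 0, 9), 5, 2, 8),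
    ((1, 2, 8), 5, 1, 3), ((1, 2, 9), 5, 1, 8), ((1, 8, 9), 5, 3, 8), ((2, 1, 4), 1, 5, 4),
    ((3, 0, 8), 0, 2, 3), ((4, 2, 5), 4, 1, 6), ((5, 4, 6), 6, 4, 7), ((6, 5, 7), 7, 6, 3),
    ((7, 6, 9), 3, 7, 8), ((8, 1, 3), 3, 5, 0), ((9, 1, 7), 8, 5, 3)]
  Tc := [(0, 4, 6), (0, 4, 7), (0, 6, 7), (2, 1, 4), (4, 0, 2)]
  Td := [((0, 4), (3, 0), 2), ((0, 4), (3, 8), 3), ((0, 6), (3, 0), 2), ((0, 6), (3, 8), 3), ((0,
    7), (3, 0), 2), ((0, 7), (3, 8), 3), ((1, 2), (2, 1), 5), ((1, 2), (2, 4), 4), ((2, 1),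
    (0, 1), 5), ((2, 1), (0, 3), 0), ((2, 4), (0, 1), 5), ((2, 4), (0, 3), 0), ((4, 0), (4,
    2), 1), ((4, 0), (4, 5), 6), ((4, 2), (4, 2), 1), ((4, 2), (4, 5), 6), ((6, 0), (5, 4),
    4), ((6, 0), (5, 6), 7), ((7, 0), (6, 5), 6), ((7, 0), (6, 7), 3)]
  G := [[0, 0xf241285ac8124c, 0xb464118f28114c, 0xb44128d464a124c, 0xd2a861487481489], [0,
    0x9364128b5c2128c, 0x93a41185368114c, 0xa6c212893681245, 0xa6c2148413e41489]]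

noncomputable def n2053 : Ent := ⟨e2053, noF, [], [], [(13, 16, [1580044410770988437309982408355971841652082177953823432505697517569, 0])]⟩

def c2053 : PLift (Cov.check n2053.C.D v2053 = true) := ⟨by decide +kernel⟩

def b2053 : PLift (entF (fidx ts) 400 2053 n2053 = true) := ⟨by decide +kernel⟩

theorem g2053 : GoodF (fidx ts) 400 2053 := GoodF.ofV v2053 n2053 c2053.down b2053.down

/-- 4747646:1732/4 -/
noncomputable def e2054 : SCfg where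
  D := {
    a := 7
    L := 10
    kp := 8
    inn := [(0, 1), (1, 0), (1, 2), (1, 3), (1, 4), (2, 1), (2, 3), (3, 1), (3, 2), (3, 4), (4, 1), (4,
      3), (4, 5), (4, 6), (5, 4), (5, 6), (6, 4), (6, 5)]
    mix := [(0, 0), (0, 1), (0, 2), (1, 0), (1, 2), (1, 3), (2, 2), (2, 4), (3, 4), (3, 5), (3, 6), (3,
      7), (4, 3), (4, 7), (5, 3), (5, 8), (6, 6), (6, 7), (6, 8), (6, 9)]
    cl := [2, 7, 1, 0, 4, 6, 5, 3, 3, 8]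
    chq := [(0, 4), (0, 5), (0, 6), (1, 2), (2, 1), (2, 4), (4, 0), (4, 2), (5, 0), (6, 0)]
    rng := [(0, 1), (0, 3), (1, 0), (1, 2), (2, 1), (2, 4), (3, 0), (3, 8), (4, 2), (4, 5), (5, 4), (5,
      6), (6, 5), (6, 7), (6, 9), (7, 6), (8, 3), (8, 9), (9, 6), (9, 8)]
    lev := [] }
  links := [[1, 7, 8, 9], [7, 0, 9, 2, 3, 4, 10], [3, 1, 9, 11], [4, 1, 2, 11, 12, 13, 14], [10, 1, 3,
    14, 6, 5], [10, 4, 6, 15], [15, 5, 4, 14, 13, 16]]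
  P := {
    a := 7
    N := 17
    nb := [898, 1693, 2570, 30742, 17514, 33872, 122928, 1283, 641, 2311, 32946, 4620, 10248, 86088,
      8280, 66656, 41024]
    tri := [(0, 1, 7), (0, 1, 9), (0, 7, 8), (0, 8, 9), (1, 2, 3), (1, 2, 9), (1, 3, 4), (1, 4, 10),
      (1, 7, 10), (2, 3, 11), (2, 9, 11), (3, 4, 14), (3, 11, 12), (3, 12, 13), (3, 13, 14), (4,
      5, 6), (4, 5, 10), (4, 6, 14), (5, 6, 15), (5, 10, 15), (6, 13, 14), (6, 13, 16), (6, 15,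
      16)]
    fin := [0, 0, 0, 3, 3, 5, 5, 0, 8, 9, 3, 11, 12, 13, 5, 5, 16]
    chd := [(0, 9), (0, 11), (3, 11), (3, 12), (3, 13)]
    steps := [(0, 1), (0, 2), (0, 7), (3, 4), (3, 10), (5, 6), (5, 14), (5, 15)] }
  rep := [3, 9, 0, 5, 11, 13, 12, 8, 16]

noncomputable def v2054 : Cov.CovD where
  P := 3
  N := 6
  pl := [1, 9]
  lev := [⟨[], [], [(1, 2)], [7], [(0, 2, [1, 4]), (2, 1, [2])]⟩,
    ⟨[], [(0, 0), (0, 1), (0, 2)], [(0, 1), (0, 2), (1, 2)], [], [(0, 2, [1, 4]), (2, 1,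
      [2]), (3, 0, [4, 5, 6])]⟩,
    ⟨[(0, 1)], [(0, 1), (1, 0), (1, 1), (1, 2), (1, 4)], [(1, 4)], [], [(2, 1, [2]), (4, 4,
      [0, 2])]⟩,
    ⟨[(0, 1), (1, 2)], [(1, 0), (1, 1), (1, 2), (1, 3), (1, 4), (1, 5), (1, 6), (2, 1), (2,
      3), (2, 4), (2, 5), (2, 6)], [(3, 4), (3, 5), (3, 6), (4, 5), (4, 6), (5, 6)], [], [(4,
      4, [0, 2]), (5, 6, [0]), (6, 5, [0]), (7, 3, [])]⟩,
    ⟨[(0, 1), (1, 2), (1, 3), (2, 3)], [(1, 0), (1, 1), (1, 2), (1, 3), (3, 0), (3, 3), (3,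
      4), (3, 5), (3, 6)], [(0, 3)], [], [(3, 0, [4, 5, 6]), (7, 3, [])]⟩,
    ⟨[(1, 4), (3, 4)], [(1, 0), (4, 0), (4, 3)], [(0, 3)], [], [(3, 0, [4, 5, 6]), (8, 3,
      [])]⟩,
    ⟨[(1, 4), (3, 4), (4, 5)], [(3, 3), (3, 5), (4, 0), (4, 3), (4, 5), (5, 0), (5, 3), (5,
      5)], [(3, 3), (3, 5)], [8], [(6, 5, [0]), (7, 3, []), (8, 3, [])]⟩]
  Ta := [((7, 6), 3, 5), ((8, 3), 3, 0), ((8, 9), 3, 8)]
  Tb := [((0, 1, 3), 2, 7, 0), ((1, 0, 2), 7, 2, 1), ((2, 1, 4), 1, 7, 4), ((3, 0, 8), 0, 2, 3),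
    ((4, 2, 5), 4, 1, 6), ((5, 4, 6), 6, 4, 5), ((6, 5, 7), 5, 6, 3), ((6, 5, 9), 5, 6, 8),
    ((6, 7, 9), 5, 3, 8), ((8, 3, 9), 3, 0, 8), ((9, 6, 8), 8, 5, 3)]
  Tc := [(0, 4, 5), (0, 4, 6), (0, 5, 6), (2, 1, 4), (4, 0, 2)]
  Td := [((0, 4), (3, 0), 2), ((0, 4), (3, 8), 3), ((0, 5), (3, 0), 2), ((0, 5), (3, 8), 3), ((0,
    6), (3, 0), 2), ((0, 6), (3, 8), 3), ((1, 2), (2, 1), 7), ((1, 2), (2, 4), 4), ((2, 1),
    (0, 1), 7), ((2, 1), (0, 3), 0), ((2, 4), (0, 1), 7), ((2, 4), (0, 3), 0), ((4, 0), (4,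
    2), 1), ((4, 0), (4, 5), 6), ((4, 2), (4, 2), 1), ((4, 2), (4, 5), 6), ((5, 0), (6, 5),
    6), ((5, 0), (6, 7), 3), ((5, 0), (6, 9), 8), ((6, 0), (5, 4), 4), ((6, 0), (5, 6), 5)]
  G := [[0, 0xd8b86128d478a124c, 0xd278a114d278a114c, 0xd2b8612858c78a124c,
    0xd8b86148d2b861489], [0, 0xf34e4128d7a4128c, 0xb7c2114b7c2114c, 0xd7a4128d7a4128c,
    0xc17e4148b7c21489]]

noncomputable def n2054 : Ent := ⟨e2054, noF, [], [], [(8, 16, [1580044410770988437309982408355971841652082177953823432505697517569, 0])]⟩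

def c2054 : PLift (Cov.check n2054.C.D v2054 = true) := ⟨by decide +kernel⟩

def b2054 : PLift (entF (fidx ts) 400 2054 n2054 = true) := ⟨by decide +kernel⟩

theorem g2054 : GoodF (fidx ts) 400 2054 := GoodF.ofV v2054 n2054 c2054.down b2054.down

/-- 4747646:1732 -/
noncomputable def e2055 : SCfg where
  D := {
    a := 7
    L := 11
    kp := 9
    inn := [(0, 1), (1, 0), (1, 2), (1, 3), (1, 4), (2, 1), (2, 3), (3, 1), (3, 2), (3, 4), (4, 1), (4,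
      3), (4, 5), (4, 6), (5, 4), (5, 6), (6, 4), (6, 5)]
    mix := [(0, 0), (0, 1), (0, 2), (1, 0), (1, 2), (1, 3), (2, 2), (2, 4), (3, 4), (3, 5), (3, 6), (3,
      7), (4, 3), (4, 7), (5, 3), (5, 8), (6, 7), (6, 8), (6, 9), (6, 10)]
    cl := [2, 7, 1, 0, 4, 5, 6, 3, 3, 8, 9]
    chq := [(0, 4), (0, 5), (0, 6), (1, 2), (2, 1), (2, 4), (4, 0), (4, 2), (5, 0), (6, 0)]
    rng := [(0, 1), (0, 3), (1, 0), (1, 2), (2, 1), (2, 4), (3, 0), (3, 8), (4, 2), (4, 5), (5, 4), (5,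
      6), (6, 5), (6, 7), (7, 6), (7, 9), (8, 3), (8, 10), (9, 7), (9, 10), (10, 8), (10, 9)]
    lev := [] }
  links := [[1, 7, 8, 9], [7, 0, 9, 2, 3, 4, 10], [3, 1, 9, 11], [4, 1, 2, 11, 12, 13, 14], [10, 1, 3,
    14, 6, 5], [10, 4, 6, 15], [15, 5, 4, 14, 16, 17]]
  P := {
    a := 7
    N := 18
    nb := [898, 1693, 2570, 30742, 17514, 33872, 245808, 1283, 641, 2311, 32946, 4620, 10248, 20488,
      73816, 132192, 147520, 98368]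
    tri := [(0, 1, 7), (0, 1, 9), (0, 7, 8), (0, 8, 9), (1, 2, 3), (1, 2, 9), (1, 3, 4), (1, 4, 10),
      (1, 7, 10), (2, 3, 11), (2, 9, 11), (3, 4, 14), (3, 11, 12), (3, 12, 13), (3, 13, 14), (4,
      5, 6), (4, 5, 10), (4, 6, 14), (5, 6, 15), (5, 10, 15), (6, 14, 16), (6, 15, 17), (6, 16,
      17)]
    fin := [0, 0, 0, 3, 3, 5, 5, 0, 8, 9, 3, 11, 12, 13, 5, 5, 16, 17]
    chd := [(0, 9), (0, 11), (3, 11), (3, 12), (3, 13)]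
    steps := [(0, 1), (0, 2), (0, 7), (3, 4), (3, 10), (5, 6), (5, 14), (5, 15)] }
  rep := [3, 9, 0, 5, 11, 12, 13, 8, 16, 17]

noncomputable def v2055 : Cov.CovD where
  P := 3
  N := 7
  pl := [1, 9, 10]
  lev := [⟨[], [], [(1, 2)], [7], [(0, 2, [1, 4]), (2, 1, [2])]⟩,
    ⟨[], [(0, 0), (0, 1), (0, 2)], [(0, 1), (0, 2), (1, 2)], [], [(0, 2, [1, 4]), (2, 1,
      [2]), (3, 0, [4, 5, 6])]⟩,
    ⟨[(0, 1)], [(0, 1), (1, 0), (1, 1), (1, 2), (1, 4)], [(1, 4)], [], [(2, 1, [2]), (4, 4,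
      [0, 2])]⟩,
    ⟨[(0, 1), (1, 2)], [(1, 0), (1, 1), (1, 2), (1, 3), (1, 4), (1, 5), (1, 6), (2, 1), (2,
      3), (2, 4), (2, 5), (2, 6)], [(3, 4), (3, 5), (3, 6), (4, 5), (4, 6), (5, 6)], [], [(4,
      4, [0, 2]), (5, 5, [0]), (6, 6, [0]), (7, 3, [])]⟩,
    ⟨[(0, 1), (1, 2), (1, 3), (2, 3)], [(1, 0), (1, 1), (1, 2), (1, 3), (3, 0), (3, 3), (3,
      4), (3, 5), (3, 6)], [(0, 3)], [], [(3, 0, [4, 5, 6]), (7, 3, [])]⟩,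
    ⟨[(1, 4), (3, 4)], [(1, 0), (4, 0), (4, 3)], [(0, 3)], [], [(3, 0, [4, 5, 6]), (8, 3,
      [])]⟩,
    ⟨[(1, 4), (3, 4), (4, 5)], [(3, 3), (4, 0), (4, 3), (5, 0), (5, 3)], [(3, 3)], [8, 9],
      [(7, 3, []), (8, 3, [])]⟩]
  Ta := [((7, 6), 3, 6), ((7, 9), 3, 8), ((8, 3), 3, 0), ((8, 10), 3, 9)]
  Tb := [((0, 1, 3), 2, 7, 0), ((1, 0, 2), 7, 2, 1), ((2, 1, 4), 1, 7, 4), ((3, 0, 8), 0, 2, 3),
    ((4, 2, 5), 4, 1, 5), ((5, 4, 6), 5, 4, 6), ((6, 5, 7), 6, 5, 3), ((7, 6, 9), 3, 6, 8),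
    ((8, 3, 10), 3, 0, 9), ((9, 7, 10), 8, 3, 9), ((10, 8, 9), 9, 3, 8)]
  Tc := [(0, 4, 5), (0, 4, 6), (0, 5, 6), (2, 1, 4), (4, 0, 2)]
  Td := [((0, 4), (3, 0), 2), ((0, 4), (3, 8), 3), ((0, 5), (3, 0), 2), ((0, 5), (3, 8), 3), ((0,
    6), (3, 0), 2), ((0, 6), (3, 8), 3), ((1, 2), (2, 1), 7), ((1, 2), (2, 4), 4), ((2, 1),
    (0, 1), 7), ((2, 1), (0, 3), 0), ((2, 4), (0, 1), 7), ((2, 4), (0, 3), 0), ((4, 0), (4,
    2), 1), ((4, 0), (4, 5), 5), ((4, 2), (4, 2), 1), ((4, 2), (4, 5), 5), ((5, 0), (5, 4),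
    4), ((5, 0), (5, 6), 6), ((6, 0), (6, 5), 5), ((6, 0), (6, 7), 3)]
  G := [[0, 0xd2b86128d478a124c, 0xd8b46118d2b46118c, 0xd2b86128d478a1245, 0xd8b46148d8b461489],
    [0, 0xd7a4128b7c2128c, 0xb7c2114db68114c, 0xdb68124b7c2124c, 0xd7a4148b7c21489]]

noncomputable def n2055 : Ent := ⟨e2055, noF, [], [], [(8, 16, [7334685537875745012586738086077695515070955365108989538292687702077441, 0]), (8, 17, [6903326391201334775872065844685381424292761054348340378595029938098177, 0]), (13, 16, [7334685537875745012586738086077695515070955365108989538292687702089729, 0])]⟩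

def c2055 : PLift (Cov.check n2055.C.D v2055 = true) := ⟨by decide +kernel⟩

def b2055 : PLift (entF (fidx ts) 400 2055 n2055 = true) := ⟨by decide +kernel⟩

theorem g2055 : GoodF (fidx ts) 400 2055 := GoodF.ofV v2055 n2055 c2055.down b2055.down

/-- 4747744:1733/1 -/
noncomputable def e2056 : SCfg where
  D := {
    a := 7
    L := 9
    kp := 7
    inn := [(0, 1), (1, 0), (1, 2), (1, 3), (1, 4), (1, 6), (2, 1), (2, 3), (3, 1), (3, 2), (3, 4), (4,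
      1), (4, 3), (4, 5), (4, 6), (5, 4), (6, 1), (6, 4)]
    mix := [(0, 0), (0, 1), (0, 2), (1, 0), (1, 2), (2, 2), (2, 3), (3, 3), (3, 4), (3, 5), (3, 6), (4,
      6), (4, 7), (4, 8), (5, 1), (5, 6), (5, 7), (6, 0), (6, 8)]
    cl := [1, 2, 0, 3, 6, 7, 3, 5, 4]
    chq := [(0, 1), (0, 4), (1, 0), (2, 4), (3, 4), (4, 0), (4, 2), (4, 3)]
    rng := [(0, 1), (0, 8), (1, 0), (1, 2), (1, 6), (1, 7), (2, 1), (2, 3), (3, 2), (3, 4), (4, 3), (4,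
      5), (5, 4), (5, 6), (6, 1), (6, 5), (7, 1), (7, 8), (8, 0), (8, 7)]
    lev := [] }
  links := [[1, 7, 8, 9], [7, 0, 9, 2, 3, 4, 6], [3, 1, 9, 10], [4, 1, 2, 10, 11, 12, 13], [6, 1, 3, 13,
    5, 14, 15], [14, 4, 13, 8], [7, 1, 4, 15]]
  P := {
    a := 7
    N := 16
    nb := [898, 733, 1546, 15382, 57450, 24848, 32914, 33091, 25249, 1287, 2572, 5128, 10248, 4408,
      33072, 16592]
    tri := [(0, 1, 7), (0, 1, 9), (0, 7, 8), (0, 8, 9), (1, 2, 3), (1, 2, 9), (1, 3, 4), (1, 4, 6), (1,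
      6, 7), (2, 3, 10), (2, 9, 10), (3, 4, 13), (3, 10, 11), (3, 11, 12), (3, 12, 13), (4, 5,
      13), (4, 5, 14), (4, 6, 15), (4, 14, 15), (5, 8, 13), (5, 8, 14), (6, 7, 15)]
    fin := [0, 1, 2, 3, 4, 4, 1, 0, 4, 2, 3, 11, 12, 3, 14, 1]
    chd := [(0, 2), (2, 1), (3, 1), (4, 1)]
    steps := [(0, 7), (1, 6), (1, 15), (2, 9), (3, 10), (3, 13), (4, 5), (4, 8)] }
  rep := [2, 0, 4, 3, 1, 14, 11, 12]

noncomputable def v2056 : Cov.CovD where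
  P := 3
  N := 5
  pl := [4, 5, 7]
  lev := [⟨[], [], [(0, 1), (0, 2), (1, 2)], [], [(0, 1, [0]), (1, 2, [4]), (2, 0, [1, 4])]⟩,
    ⟨[], [(0, 0), (0, 1), (0, 2)], [(0, 1)], [], [(0, 1, [0]), (2, 0, [1, 4])]⟩,
    ⟨[(0, 1)], [(0, 0), (1, 0), (1, 1), (1, 3)], [(0, 3)], [], [(2, 0, [1, 4]), (3, 3,
      [4])]⟩,
    ⟨[(0, 1), (1, 2)], [(1, 0), (1, 1), (1, 3), (2, 0), (2, 3)], [(3, 3)], [6, 7], [(3, 3,
      [4]), (6, 3, [4])]⟩,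
    ⟨[(0, 1), (1, 2), (1, 3), (2, 3)], [(1, 0), (1, 1), (1, 3), (1, 4), (3, 3), (3, 4)],
      [(3, 4)], [5], [(6, 3, [4]), (8, 4, [0, 2, 3])]⟩,
    ⟨[(1, 4), (3, 4)], [(0, 2), (3, 3), (4, 2), (4, 3), (4, 4)], [(2, 3)], [5], [(1, 2,
      [4]), (6, 3, [4])]⟩,
    ⟨[(0, 1), (1, 2), (1, 3), (1, 4), (3, 4), (4, 5)], [(0, 1), (1, 0), (1, 1), (1, 4), (4,
      1), (4, 3), (4, 4)], [(1, 4)], [], [(0, 1, [0]), (8, 4, [0, 2, 3])]⟩]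
  Ta := [((3, 2), 3, 0), ((3, 4), 3, 6), ((6, 1), 3, 2), ((6, 5), 3, 7)]
  Tb := [((0, 1, 8), 1, 2, 4), ((1, 0, 2), 2, 1, 0), ((1, 0, 6), 2, 1, 3), ((1, 0, 7), 2, 1, 5),
    ((1, 2, 6), 2, 0, 3), ((1, 2, 7), 2, 0, 5), ((1, 6, 7), 2, 3, 5), ((2, 1, 3), 0, 2, 3),
    ((3, 2, 4), 3, 0, 6), ((4, 3, 5), 6, 3, 7), ((5, 4, 6), 7, 6, 3), ((6, 1, 5), 3, 2, 7),
    ((7, 1, 8), 5, 2, 4), ((8, 0, 7), 4, 1, 5)]
  Tc := [(0, 1, 4), (4, 0, 2), (4, 0, 3), (4, 2, 3)]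
  Td := [((0, 1), (2, 1), 2), ((0, 1), (2, 3), 3), ((0, 4), (2, 1), 2), ((0, 4), (2, 3), 3), ((1,
    0), (0, 1), 2), ((1, 0), (0, 8), 4), ((2, 4), (1, 0), 1), ((2, 4), (1, 2), 0), ((2, 4),
    (1, 6), 3), ((2, 4), (1, 7), 5), ((3, 4), (3, 2), 0), ((3, 4), (3, 4), 6), ((3, 4), (6,
    1), 2), ((3, 4), (6, 5), 7), ((4, 0), (8, 0), 1), ((4, 0), (8, 7), 5), ((4, 2), (8, 0),
    1), ((4, 2), (8, 7), 5), ((4, 3), (8, 0), 1), ((4, 3), (8, 7), 5)]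
  G := [[0, 0x184131821318243d22142172384, 0x11a1ccc1511a144c13611c188c4,
    0x11922119211c26115211529e84, 0x1844a318414275184184256681318846788c8], [0,
    0x28442421218c21f214181821f188421b2418111d22cfdac8, 0x111e1118e1111e1ccce1f848,
    0x41921152411d2111d2f484, 0x113484437411b4244a73111b124174614611948448bf188488188f2c8]]

noncomputable def n2056 : Ent := ⟨e2056, noF, [], [], []⟩

def c2056 : PLift (Cov.check n2056.C.D v2056 = true) := ⟨by decide +kernel⟩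

def b2056 : PLift (entF (fidx ts) 400 2056 n2056 = true) := ⟨by decide +kernel⟩

theorem g2056 : GoodF (fidx ts) 400 2056 := GoodF.ofV v2056 n2056 c2056.down b2056.down

/-- 4747744:1733 -/
noncomputable def e2057 : SCfg where
  D := {
    a := 7
    L := 10
    kp := 8
    inn := [(0, 1), (1, 0), (1, 2), (1, 3), (1, 4), (1, 6), (2, 1), (2, 3), (3, 1), (3, 2), (3, 4), (4,
      1), (4, 3), (4, 5), (4, 6), (5, 4), (6, 1), (6, 4)]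
    mix := [(0, 0), (0, 1), (0, 2), (1, 0), (1, 2), (2, 2), (2, 3), (3, 3), (3, 4), (3, 5), (3, 6), (4,
      6), (4, 7), (4, 8), (5, 6), (5, 7), (5, 9), (6, 0), (6, 8)]
    cl := [1, 6, 0, 3, 7, 8, 3, 4, 2, 5]
    chq := [(0, 1), (0, 2), (1, 0), (2, 0), (2, 3), (2, 5), (3, 2), (5, 2)]
    rng := [(0, 1), (0, 8), (1, 0), (1, 2), (2, 1), (2, 3), (3, 2), (3, 4), (4, 3), (4, 5), (5, 4), (5,
      6), (6, 5), (6, 9), (7, 8), (7, 9), (8, 0), (8, 7), (9, 6), (9, 7)]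
    lev := [] }
  links := [[1, 7, 8, 9], [7, 0, 9, 2, 3, 4, 6], [3, 1, 9, 10], [4, 1, 2, 10, 11, 12, 13], [6, 1, 3, 13,
    5, 14, 15], [14, 4, 13, 16], [7, 1, 4, 15]]
  P := {
    a := 7
    N := 17
    nb := [898, 733, 1546, 15382, 57450, 90128, 32914, 33091, 641, 1287, 2572, 5128, 10248, 69688,
      98352, 16592, 24608]
    tri := [(0, 1, 7), (0, 1, 9), (0, 7, 8), (0, 8, 9), (1, 2, 3), (1, 2, 9), (1, 3, 4), (1, 4, 6), (1,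
      6, 7), (2, 3, 10), (2, 9, 10), (3, 4, 13), (3, 10, 11), (3, 11, 12), (3, 12, 13), (4, 5,
      13), (4, 5, 14), (4, 6, 15), (4, 14, 15), (5, 13, 16), (5, 14, 16), (6, 7, 15)]
    fin := [0, 1, 2, 3, 4, 4, 1, 0, 8, 2, 3, 11, 12, 3, 14, 1, 4]
    chd := [(0, 2), (1, 4), (2, 1), (3, 1)]
    steps := [(0, 7), (1, 6), (1, 15), (2, 9), (3, 10), (3, 13), (4, 5), (4, 16)] }
  rep := [2, 0, 1, 3, 14, 4, 8, 11, 12]

noncomputable def v2057 : Cov.CovD where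
  P := 3
  N := 6
  pl := [1, 4, 5, 7]
  lev := [⟨[], [], [(0, 1)], [6], [(0, 1, [0]), (2, 0, [1, 2])]⟩,
    ⟨[], [(0, 0), (0, 1)], [(0, 1)], [], [(0, 1, [0]), (2, 0, [1, 2])]⟩,
    ⟨[(0, 1)], [(0, 0), (1, 0), (1, 1), (1, 3)], [(0, 3)], [], [(2, 0, [1, 2]), (3, 3,
      [2])]⟩,
    ⟨[(0, 1), (1, 2)], [(1, 0), (1, 1), (1, 3), (2, 0), (2, 3)], [(3, 3)], [7, 8], [(3, 3,
      [2]), (6, 3, [2])]⟩,
    ⟨[(0, 1), (1, 2), (1, 3), (2, 3)], [(1, 0), (1, 1), (1, 2), (1, 3), (3, 2), (3, 3)],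
      [(2, 3)], [4], [(6, 3, [2]), (8, 2, [0, 3, 5])]⟩,
    ⟨[(1, 4), (3, 4)], [(3, 3), (4, 2), (4, 3), (4, 5)], [(3, 5)], [4], [(6, 3, [2]), (9,
      5, [2])]⟩,
    ⟨[(0, 1), (1, 2), (1, 3), (1, 4), (3, 4), (4, 5)], [(0, 1), (1, 0), (1, 1), (1, 2), (4,
      1), (4, 2), (4, 3)], [(1, 2)], [], [(0, 1, [0]), (8, 2, [0, 3, 5])]⟩]
  Ta := [((3, 2), 3, 0), ((3, 4), 3, 7), ((6, 5), 3, 8), ((6, 9), 3, 5)]
  Tb := [((0, 1, 8), 1, 6, 2), ((1, 0, 2), 6, 1, 0), ((2, 1, 3), 0, 6, 3), ((3, 2, 4), 3, 0, 7),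
    ((4, 3, 5), 7, 3, 8), ((5, 4, 6), 8, 7, 3), ((6, 5, 9), 3, 8, 5), ((7, 8, 9), 4, 2, 5),
    ((8, 0, 7), 2, 1, 4), ((9, 6, 7), 5, 3, 4)]
  Tc := [(0, 1, 2), (2, 0, 3), (2, 0, 5), (2, 3, 5)]
  Td := [((0, 1), (2, 1), 6), ((0, 1), (2, 3), 3), ((0, 2), (2, 1), 6), ((0, 2), (2, 3), 3), ((1,
    0), (0, 1), 6), ((1, 0), (0, 8), 2), ((2, 0), (8, 0), 1), ((2, 0), (8, 7), 4), ((2, 3),
    (8, 0), 1), ((2, 3), (8, 7), 4), ((2, 5), (8, 0), 1), ((2, 5), (8, 7), 4), ((3, 2), (3,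
    2), 0), ((3, 2), (3, 4), 7), ((3, 2), (6, 5), 8), ((3, 2), (6, 9), 5), ((5, 2), (9, 6),
    3), ((5, 2), (9, 7), 4)]
  G := [[0, 0x446429128859124859116829f2412446512489582849582485f28418124e,
    0x1148c381454884e181291188691183ac1, 0x42829128291282912429f2412425124258282582825f28c,
    0x14183111d4435484888e3818c841111178492ec141163111488b128884b118488bf411882cc], [0,
    0x84a1124847514a116883d188b144782df4438892143188744ad1444b1128447512886888bde342881ca,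
    0x114111e2118181e118141e56118181e82c1,
    0x121254242829421282d421282db2c12125421242d121282d721212982cc,
    0x1418873211588c918c116885b111d111784bda414148888fb142115881788cb7414818d911871a2cc]]

noncomputable def n2057 : Ent := ⟨e2057, noF, [], [], [(8, 16, [1580044410770988437309982408355971841652082177953823432505697533953, 0])]⟩

def c2057 : PLift (Cov.check n2057.C.D v2057 = true) := ⟨by decide +kernel⟩

def b2057 : PLift (entF (fidx ts) 400 2057 n2057 = true) := ⟨by decide +kernel⟩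

theorem g2057 : GoodF (fidx ts) 400 2057 := GoodF.ofV v2057 n2057 c2057.down b2057.down

/-- 4747744:1735/1 -/
noncomputable def e2058 : SCfg where
  D := {
    a := 7
    L := 9
    kp := 7
    inn := [(0, 1), (1, 0), (1, 2), (1, 3), (1, 4), (1, 5), (2, 1), (2, 3), (3, 1), (3, 2), (3, 4), (3,
      6), (4, 1), (4, 3), (4, 5), (5, 1), (5, 4), (6, 3)]
    mix := [(0, 0), (0, 1), (0, 2), (1, 0), (1, 2), (2, 2), (2, 3), (3, 3), (3, 4), (3, 5), (4, 5), (4,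
      6), (4, 7), (4, 8), (5, 0), (5, 8), (6, 1), (6, 3), (6, 4)]
    cl := [1, 2, 0, 3, 5, 3, 6, 7, 4]
    chq := [(0, 1), (0, 4), (0, 6), (0, 7), (1, 0), (4, 0), (6, 0), (7, 0)]
    rng := [(0, 1), (0, 8), (1, 0), (1, 2), (1, 3), (1, 4), (2, 1), (2, 3), (3, 1), (3, 2), (4, 1), (4,
      5), (5, 4), (5, 6), (6, 5), (6, 7), (7, 6), (7, 8), (8, 0), (8, 7)]
    lev := [] }
  links := [[1, 7, 8, 9], [7, 0, 9, 2, 3, 4, 5], [3, 1, 9, 10], [4, 1, 2, 10, 6, 11, 12], [5, 1, 3, 12,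
    13, 14, 15], [7, 1, 4, 15], [11, 3, 10, 8]]
  P := {
    a := 7
    N := 16
    nb := [898, 701, 1546, 7254, 61482, 32914, 3336, 33059, 3777, 1287, 844, 4424, 10264, 20496,
      40976, 16560]
    tri := [(0, 1, 7), (0, 1, 9), (0, 7, 8), (0, 8, 9), (1, 2, 3), (1, 2, 9), (1, 3, 4), (1, 4, 5), (1,
      5, 7), (2, 3, 10), (2, 9, 10), (3, 4, 12), (3, 6, 10), (3, 6, 11), (3, 11, 12), (4, 5, 15),
      (4, 12, 13), (4, 13, 14), (4, 14, 15), (5, 7, 15), (6, 8, 10), (6, 8, 11)]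
    fin := [0, 1, 1, 3, 1, 0, 6, 0, 6, 1, 3, 11, 3, 13, 14, 15]
    chd := [(0, 1), (1, 13), (1, 14), (1, 15)]
    steps := [(0, 7), (0, 5), (1, 2), (1, 4), (1, 9), (3, 10), (3, 12), (6, 8)] }
  rep := [1, 0, 6, 3, 15, 11, 13, 14]

noncomputable def v2058 : Cov.CovD where
  P := 3
  N := 5
  pl := [1, 4]
  lev := [⟨[], [], [(0, 1)], [2], [(0, 1, [0]), (2, 0, [1, 4, 6, 7])]⟩,
    ⟨[], [(0, 0), (0, 1)], [(0, 1)], [], [(0, 1, [0]), (2, 0, [1, 4, 6, 7])]⟩,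
    ⟨[(0, 1)], [(0, 0), (1, 0), (1, 1), (1, 3)], [(0, 3)], [], [(2, 0, [1, 4, 6, 7]), (3,
      3, [])]⟩,
    ⟨[(0, 1), (1, 2)], [(1, 0), (1, 1), (1, 3), (2, 0), (2, 3)], [(3, 3)], [5], [(3, 3,
      []), (5, 3, [])]⟩,
    ⟨[(0, 1), (1, 2), (1, 3), (2, 3)], [(1, 0), (1, 1), (1, 3), (1, 4), (1, 6), (1, 7), (3,
      3), (3, 4), (3, 6), (3, 7)], [(3, 4), (3, 6), (3, 7), (4, 6), (4, 7), (6, 7)], [], [(5,
      3, []), (6, 6, [0]), (7, 7, [0]), (8, 4, [0])]⟩,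
    ⟨[(0, 1), (1, 2), (1, 3), (1, 4), (3, 4)], [(0, 1), (1, 0), (1, 1), (1, 4), (4, 1), (4,
      3), (4, 4), (4, 6), (4, 7)], [(1, 4)], [], [(0, 1, [0]), (8, 4, [0])]⟩,
    ⟨[(1, 3), (2, 3), (3, 4)], [(2, 3), (3, 3)], [], [2, 5], [(3, 3, [])]⟩]
  Ta := [((3, 1), 3, 2), ((3, 2), 3, 0), ((5, 4), 3, 5), ((5, 6), 3, 6)]
  Tb := [((0, 1, 8), 1, 2, 4), ((1, 0, 2), 2, 1, 0), ((1, 0, 3), 2, 1, 3), ((1, 0, 4), 2, 1, 5),
    ((1, 2, 3), 2, 0, 3), ((1, 2, 4), 2, 0, 5), ((1, 3, 4), 2, 3, 5), ((2, 1, 3), 0, 2, 3),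
    ((3, 1, 2), 3, 2, 0), ((4, 1, 5), 5, 2, 3), ((5, 4, 6), 3, 5, 6), ((6, 5, 7), 6, 3, 7),
    ((7, 6, 8), 7, 6, 4), ((8, 0, 7), 4, 1, 7)]
  Tc := [(0, 1, 4), (0, 1, 6), (0, 1, 7), (0, 4, 6), (0, 4, 7), (0, 6, 7)]
  Td := [((0, 1), (2, 1), 2), ((0, 1), (2, 3), 3), ((0, 4), (2, 1), 2), ((0, 4), (2, 3), 3), ((0,
    6), (2, 1), 2), ((0, 6), (2, 3), 3), ((0, 7), (2, 1), 2), ((0, 7), (2, 3), 3), ((1, 0),
    (0, 1), 2), ((1, 0), (0, 8), 4), ((4, 0), (8, 0), 1), ((4, 0), (8, 7), 7), ((6, 0), (6,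
    5), 3), ((6, 0), (6, 7), 7), ((7, 0), (7, 6), 6), ((7, 0), (7, 8), 4)]
  G := [[0, 0x88a111a1a144a14164, 0xa41166c11ca8118c4, 0xddc12248,
    0x91512416411c188122c1e2811118a3cc8], [0, 0x84a148c13284, 0xccc11248, 0x5cc12284,
    0xa414488c118188c1e2c8]]

noncomputable def n2058 : Ent := ⟨e2058, noF, [], [], []⟩

def c2058 : PLift (Cov.check n2058.C.D v2058 = true) := ⟨by decide +kernel⟩

def b2058 : PLift (entF (fidx ts) 400 2058 n2058 = true) := ⟨by decide +kernel⟩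

theorem g2058 : GoodF (fidx ts) 400 2058 := GoodF.ofV v2058 n2058 c2058.down b2058.down

/-- 4747744:1735 -/
noncomputable def e2059 : SCfg where
  D := {
    a := 7
    L := 10
    kp := 8
    inn := [(0, 1), (1, 0), (1, 2), (1, 3), (1, 4), (1, 5), (2, 1), (2, 3), (3, 1), (3, 2), (3, 4), (3,
      6), (4, 1), (4, 3), (4, 5), (5, 1), (5, 4), (6, 3)]
    mix := [(0, 0), (0, 1), (0, 2), (1, 0), (1, 2), (2, 2), (2, 3), (3, 3), (3, 4), (3, 5), (4, 5), (4,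
      6), (4, 7), (4, 8), (5, 0), (5, 8), (6, 3), (6, 4), (6, 9)]
    cl := [2, 7, 1, 0, 4, 0, 5, 6, 3, 8]
    chq := [(1, 2), (1, 3), (1, 5), (1, 6), (2, 1), (3, 1), (5, 1), (6, 1)]
    rng := [(0, 1), (0, 8), (1, 0), (1, 2), (2, 1), (2, 3), (3, 2), (3, 9), (4, 5), (4, 9), (5, 4), (5,
      6), (6, 5), (6, 7), (7, 6), (7, 8), (8, 0), (8, 7), (9, 3), (9, 4)]
    lev := [] }
  links := [[1, 7, 8, 9], [7, 0, 9, 2, 3, 4, 5], [3, 1, 9, 10], [4, 1, 2, 10, 6, 11, 12], [5, 1, 3, 12,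
    13, 14, 15], [7, 1, 4, 15], [11, 3, 10, 16]]
  P := {
    a := 7
    N := 17
    nb := [898, 701, 1546, 7254, 61482, 32914, 68616, 33059, 641, 1287, 66124, 69704, 10264, 20496,
      40976, 16560, 3136]
    tri := [(0, 1, 7), (0, 1, 9), (0, 7, 8), (0, 8, 9), (1, 2, 3), (1, 2, 9), (1, 3, 4), (1, 4, 5), (1,
      5, 7), (2, 3, 10), (2, 9, 10), (3, 4, 12), (3, 6, 10), (3, 6, 11), (3, 11, 12), (4, 5, 15),
      (4, 12, 13), (4, 13, 14), (4, 14, 15), (5, 7, 15), (6, 10, 16), (6, 11, 16)]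
    fin := [0, 1, 1, 3, 1, 0, 3, 0, 8, 1, 3, 11, 3, 13, 14, 15, 16]
    chd := [(0, 1), (1, 13), (1, 14), (1, 15)]
    steps := [(0, 7), (0, 5), (1, 2), (1, 4), (1, 9), (3, 6), (3, 10), (3, 12)] }
  rep := [3, 1, 0, 15, 11, 13, 14, 8, 16]

noncomputable def v2059 : Cov.CovD where
  P := 3
  N := 6
  pl := [1, 4, 9]
  lev := [⟨[], [], [(1, 2)], [7], [(0, 2, [1]), (2, 1, [2, 3, 5, 6])]⟩,
    ⟨[], [(0, 1), (0, 2)], [(1, 2)], [], [(0, 2, [1]), (2, 1, [2, 3, 5, 6])]⟩,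
    ⟨[(0, 1)], [(0, 1), (1, 0), (1, 1), (1, 2)], [(0, 1)], [], [(2, 1, [2, 3, 5, 6]), (3,
      0, [])]⟩,
    ⟨[(0, 1), (1, 2)], [(1, 0), (1, 1), (1, 2), (2, 0), (2, 1)], [(0, 0)], [4], [(3, 0,
      []), (5, 0, [])]⟩,
    ⟨[(0, 1), (1, 2), (1, 3), (2, 3)], [(1, 0), (1, 1), (1, 2), (1, 3), (1, 5), (1, 6), (3,
      0), (3, 3), (3, 5), (3, 6)], [(0, 3), (0, 5), (0, 6), (3, 5), (3, 6), (5, 6)], [], [(5,
      0, []), (6, 5, [1]), (7, 6, [1]), (8, 3, [1])]⟩,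
    ⟨[(0, 1), (1, 2), (1, 3), (1, 4), (3, 4)], [(0, 2), (1, 1), (1, 2), (1, 3), (4, 0), (4,
      2), (4, 3), (4, 5), (4, 6)], [(2, 3)], [], [(0, 2, [1]), (8, 3, [1])]⟩,
    ⟨[(1, 3), (2, 3), (3, 4)], [(2, 0), (3, 0)], [], [4, 8], [(3, 0, [])]⟩]
  Ta := [((3, 2), 0, 1), ((3, 9), 0, 8), ((5, 4), 0, 4), ((5, 6), 0, 5)]
  Tb := [((0, 1, 8), 2, 7, 3), ((1, 0, 2), 7, 2, 1), ((2, 1, 3), 1, 7, 0), ((3, 2, 9), 0, 1, 8),
    ((4, 5, 9), 4, 0, 8), ((5, 4, 6), 0, 4, 5), ((6, 5, 7), 5, 0, 6), ((7, 6, 8), 6, 5, 3),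
    ((8, 0, 7), 3, 2, 6), ((9, 3, 4), 8, 0, 4)]
  Tc := [(1, 2, 3), (1, 2, 5), (1, 2, 6), (1, 3, 5), (1, 3, 6), (1, 5, 6)]
  Td := [((1, 2), (2, 1), 7), ((1, 2), (2, 3), 0), ((1, 3), (2, 1), 7), ((1, 3), (2, 3), 0), ((1,
    5), (2, 1), 7), ((1, 5), (2, 3), 0), ((1, 6), (2, 1), 7), ((1, 6), (2, 3), 0), ((2, 1),
    (0, 1), 7), ((2, 1), (0, 8), 3), ((3, 1), (8, 0), 2), ((3, 1), (8, 7), 6), ((5, 1), (6,
    5), 0), ((5, 1), (6, 7), 6), ((6, 1), (7, 6), 5), ((6, 1), (7, 8), 3)]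
  G := [[0, 0x66c12ccc18a4a2c12ccc1841668c,
    0x8262a4446644246cea823684862ba4cee6242262628288ce2facc8282cc,
    0xaac286692461665248aa9282cc, 0x66924aa928c16c32e2a2568caa2628a499], [0, 0,
    0x1424477c2182c8c542b9c2c418288cc, 0x1c5295c2a41c3c219c26819,
    0x71921632c811212c2481532b392c48b]]

noncomputable def n2059 : Ent := ⟨e2059, noF, [], [], [(8, 16, [1580044410770988437309982408355971841652082177953823432505697542145, 0])]⟩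

def c2059 : PLift (Cov.check n2059.C.D v2059 = true) := ⟨by decide +kernel⟩

def b2059 : PLift (entF (fidx ts) 400 2059 n2059 = true) := ⟨by decide +kernel⟩

theorem g2059 : GoodF (fidx ts) 400 2059 := GoodF.ofV v2059 n2059 c2059.down b2059.down

/-- 4747745:1736/2 -/
noncomputable def e2060 : SCfg where
  D := {
    a := 7
    L := 9
    kp := 7
    inn := [(0, 1), (1, 0), (1, 2), (1, 3), (1, 4), (1, 5), (2, 1), (2, 3), (3, 1), (3, 2), (3, 4), (3,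
      6), (4, 1), (4, 3), (4, 5), (5, 1), (5, 4), (6, 3)]
    mix := [(0, 0), (0, 1), (0, 2), (1, 0), (1, 2), (2, 2), (2, 3), (3, 3), (3, 4), (3, 5), (4, 5), (4,
      6), (4, 7), (4, 8), (5, 0), (5, 8), (6, 1), (6, 4), (6, 5), (6, 6)]
    cl := [2, 5, 1, 6, 0, 0, 3, 7, 4]
    chq := [(0, 1), (1, 0), (1, 2), (1, 3), (1, 4), (1, 7), (2, 1), (3, 1), (4, 1), (7, 1)]
    rng := [(0, 1), (0, 8), (1, 0), (1, 2), (1, 4), (1, 6), (2, 1), (2, 3), (3, 2), (3, 4), (4, 1), (4,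
      3), (5, 6), (6, 1), (6, 5), (6, 7), (7, 6), (7, 8), (8, 0), (8, 7)]
    lev := [] }
  links := [[1, 7, 8, 9], [7, 0, 9, 2, 3, 4, 5], [3, 1, 9, 10], [4, 1, 2, 10, 11, 6, 12], [5, 1, 3, 12,
    13, 14, 15], [7, 1, 4, 15], [12, 3, 11, 8, 13]]
  P := {
    a := 7
    N := 16
    nb := [898, 701, 1546, 7254, 61482, 32914, 14600, 33059, 10945, 1287, 2572, 1352, 8280, 20816,
      40976, 16560]
    tri := [(0, 1, 7), (0, 1, 9), (0, 7, 8), (0, 8, 9), (1, 2, 3), (1, 2, 9), (1, 3, 4), (1, 4, 5), (1,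
      5, 7), (2, 3, 10), (2, 9, 10), (3, 4, 12), (3, 6, 11), (3, 6, 12), (3, 10, 11), (4, 5, 15),
      (4, 12, 13), (4, 13, 14), (4, 14, 15), (5, 7, 15), (6, 8, 11), (6, 8, 13), (6, 12, 13)]
    fin := [0, 1, 1, 3, 1, 0, 6, 0, 6, 1, 10, 3, 3, 13, 14, 15]
    chd := [(0, 1), (1, 3), (1, 13), (1, 14), (1, 15)]
    steps := [(0, 7), (0, 5), (1, 2), (1, 4), (1, 9), (3, 11), (3, 12), (6, 8)] }
  rep := [3, 1, 0, 13, 15, 6, 10, 14]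

noncomputable def v2060 : Cov.CovD where
  P := 3
  N := 5
  pl := [1, 3]
  lev := [⟨[], [], [(1, 2)], [5], [(0, 2, [1]), (2, 1, [0, 2, 3, 4, 7])]⟩,
    ⟨[], [(0, 1), (0, 2)], [(1, 2)], [], [(0, 2, [1]), (2, 1, [0, 2, 3, 4, 7])]⟩,
    ⟨[(0, 1)], [(0, 1), (1, 1), (1, 2)], [], [6], [(2, 1, [0, 2, 3, 4, 7])]⟩,
    ⟨[(0, 1), (1, 2)], [(1, 0), (1, 1), (1, 2), (2, 0), (2, 1)], [(0, 0)], [6], [(4, 0,
      [1]), (5, 0, [1])]⟩,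
    ⟨[(0, 1), (1, 2), (1, 3), (2, 3)], [(1, 0), (1, 1), (1, 2), (1, 3), (1, 4), (1, 7), (3,
      0), (3, 3), (3, 4), (3, 7)], [(0, 3), (0, 4), (0, 7), (3, 4), (3, 7), (4, 7)], [], [(5,
      0, [1]), (6, 3, [1]), (7, 7, [1]), (8, 4, [1])]⟩,
    ⟨[(0, 1), (1, 2), (1, 3), (1, 4), (3, 4)], [(0, 2), (1, 1), (1, 2), (1, 4), (4, 0), (4,
      2), (4, 3), (4, 4), (4, 7)], [(2, 4)], [], [(0, 2, [1]), (8, 4, [1])]⟩,
    ⟨[(1, 3), (2, 3), (3, 4)], [(3, 0), (3, 3), (4, 0), (4, 3)], [(0, 0), (0, 3)], [5],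
      [(4, 0, [1]), (5, 0, [1]), (6, 3, [1])]⟩]
  Ta := [((4, 1), 0, 5), ((4, 3), 0, 6), ((5, 6), 0, 3)]
  Tb := [((0, 1, 8), 2, 5, 4), ((1, 0, 2), 5, 2, 1), ((1, 0, 4), 5, 2, 0), ((1, 0, 6), 5, 2, 3),
    ((1, 2, 4), 5, 1, 0), ((1, 2, 6), 5, 1, 3), ((1, 4, 6), 5, 0, 3), ((2, 1, 3), 1, 5, 6),
    ((3, 2, 4), 6, 1, 0), ((4, 1, 3), 0, 5, 6), ((6, 1, 5), 3, 5, 0), ((6, 1, 7), 3, 5, 7),
    ((6, 5, 7), 3, 0, 7), ((7, 6, 8), 7, 3, 4), ((8, 0, 7), 4, 2, 7)]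
  Tc := [(1, 0, 2), (1, 0, 3), (1, 0, 4), (1, 0, 7), (1, 2, 3), (1, 2, 4), (1, 2, 7), (1, 3, 4),
    (1, 3, 7), (1, 4, 7)]
  Td := [((0, 1), (4, 1), 5), ((0, 1), (4, 3), 6), ((0, 1), (5, 6), 3), ((1, 0), (2, 1), 5), ((1,
    0), (2, 3), 6), ((1, 2), (2, 1), 5), ((1, 2), (2, 3), 6), ((1, 3), (2, 1), 5), ((1, 3),
    (2, 3), 6), ((1, 4), (2, 1), 5), ((1, 4), (2, 3), 6), ((1, 7), (2, 1), 5), ((1, 7), (2,
    3), 6), ((2, 1), (0, 1), 5), ((2, 1), (0, 8), 4), ((3, 1), (6, 1), 5), ((3, 1), (6, 5),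
    0), ((3, 1), (6, 7), 7), ((4, 1), (8, 0), 2), ((4, 1), (8, 7), 7), ((7, 1), (7, 6), 3),
    ((7, 1), (7, 8), 4)]
  G := [[0, 0xaac14466c18ccc12ac1, 0x2828aa2c28288a284a2f694242464c24566a288c22225884e,
    0x22922292c24225222c2c28c, 0xaa924812822aaa687122186692432266a68899], [0,
    0xaac14466c18ccc12ac1, 0xa4244aac2a82c1c64266c2c168288cc, 0x22c22292c241,
    0x81282166326e92e2e2889ee189]]

noncomputable def n2060 : Ent := ⟨e2060, noF, [], [], []⟩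

def c2060 : PLift (Cov.check n2060.C.D v2060 = true) := ⟨by decide +kernel⟩

def b2060 : PLift (entF (fidx ts) 400 2060 n2060 = true) := ⟨by decide +kernel⟩

theorem g2060 : GoodF (fidx ts) 400 2060 := GoodF.ofV v2060 n2060 c2060.down b2060.down

/-- 4747745:1736/1 -/
noncomputable def e2061 : SCfg where
  D := {
    a := 7
    L := 10
    kp := 8
    inn := [(0, 1), (1, 0), (1, 2), (1, 3), (1, 4), (1, 5), (2, 1), (2, 3), (3, 1), (3, 2), (3, 4), (3,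
      6), (4, 1), (4, 3), (4, 5), (5, 1), (5, 4), (6, 3)]
    mix := [(0, 0), (0, 1), (0, 2), (1, 0), (1, 2), (2, 2), (2, 3), (3, 3), (3, 4), (3, 5), (4, 5), (4,
      6), (4, 7), (4, 8), (5, 0), (5, 8), (6, 1), (6, 4), (6, 5), (6, 9)]
    cl := [1, 2, 0, 5, 3, 3, 6, 7, 4, 8]
    chq := [(0, 1), (0, 3), (0, 4), (0, 6), (0, 7), (1, 0), (3, 0), (4, 0), (6, 0), (7, 0)]
    rng := [(0, 1), (0, 8), (1, 0), (1, 2), (1, 4), (1, 9), (2, 1), (2, 3), (3, 2), (3, 4), (4, 1), (4,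
      3), (5, 6), (5, 9), (6, 5), (6, 7), (7, 6), (7, 8), (8, 0), (8, 7), (9, 1), (9, 5)]
    lev := [] }
  links := [[1, 7, 8, 9], [7, 0, 9, 2, 3, 4, 5], [3, 1, 9, 10], [4, 1, 2, 10, 11, 6, 12], [5, 1, 3, 12,
    13, 14, 15], [7, 1, 4, 15], [12, 3, 11, 8, 16]]
  P := {
    a := 7
    N := 17
    nb := [898, 701, 1546, 7254, 61482, 32914, 71944, 33059, 68289, 1287, 2572, 1352, 73816, 20496,
      40976, 16560, 4416]
    tri := [(0, 1, 7), (0, 1, 9), (0, 7, 8), (0, 8, 9), (1, 2, 3), (1, 2, 9), (1, 3, 4), (1, 4, 5), (1,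
      5, 7), (2, 3, 10), (2, 9, 10), (3, 4, 12), (3, 6, 11), (3, 6, 12), (3, 10, 11), (4, 5, 15),
      (4, 12, 13), (4, 13, 14), (4, 14, 15), (5, 7, 15), (6, 8, 11), (6, 8, 16), (6, 12, 16)]
    fin := [0, 1, 1, 3, 1, 0, 6, 0, 6, 1, 10, 3, 3, 13, 14, 15, 16]
    chd := [(0, 1), (1, 3), (1, 13), (1, 14), (1, 15)]
    steps := [(0, 7), (0, 5), (1, 2), (1, 4), (1, 9), (3, 11), (3, 12), (6, 8)] }
  rep := [1, 0, 6, 3, 15, 10, 13, 14, 16]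

noncomputable def v2061 : Cov.CovD where
  P := 3
  N := 6
  pl := [1, 3, 9]
  lev := [⟨[], [], [(0, 1)], [2], [(0, 1, [0]), (2, 0, [1, 3, 4, 6, 7])]⟩,
    ⟨[], [(0, 0), (0, 1)], [(0, 1)], [], [(0, 1, [0]), (2, 0, [1, 3, 4, 6, 7])]⟩,
    ⟨[(0, 1)], [(0, 0), (1, 0), (1, 1)], [], [5], [(2, 0, [1, 3, 4, 6, 7])]⟩,
    ⟨[(0, 1), (1, 2)], [(1, 0), (1, 1), (1, 3), (2, 0), (2, 3)], [(3, 3)], [5], [(4, 3,
      [0]), (5, 3, [0])]⟩,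
    ⟨[(0, 1), (1, 2), (1, 3), (2, 3)], [(1, 0), (1, 1), (1, 3), (1, 4), (1, 6), (1, 7), (3,
      3), (3, 4), (3, 6), (3, 7)], [(3, 4), (3, 6), (3, 7), (4, 6), (4, 7), (6, 7)], [], [(5,
      3, [0]), (6, 6, [0]), (7, 7, [0]), (8, 4, [0])]⟩,
    ⟨[(0, 1), (1, 2), (1, 3), (1, 4), (3, 4)], [(0, 1), (1, 0), (1, 1), (1, 4), (4, 1), (4,
      3), (4, 4), (4, 6), (4, 7)], [(1, 4)], [], [(0, 1, [0]), (8, 4, [0])]⟩,
    ⟨[(1, 3), (2, 3), (3, 4)], [(3, 3), (4, 3)], [(3, 3)], [2, 8], [(4, 3, [0]), (5, 3,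
      [0])]⟩]
  Ta := [((4, 1), 3, 2), ((4, 3), 3, 5), ((5, 6), 3, 6), ((5, 9), 3, 8)]
  Tb := [((0, 1, 8), 1, 2, 4), ((1, 0, 2), 2, 1, 0), ((1, 0, 4), 2, 1, 3), ((1, 0, 9), 2, 1, 8),
    ((1, 2, 4), 2, 0, 3), ((1, 2, 9), 2, 0, 8), ((1, 4, 9), 2, 3, 8), ((2, 1, 3), 0, 2, 5),
    ((3, 2, 4), 5, 0, 3), ((4, 1, 3), 3, 2, 5), ((5, 6, 9), 3, 6, 8), ((6, 5, 7), 6, 3, 7),
    ((7, 6, 8), 7, 6, 4), ((8, 0, 7), 4, 1, 7), ((9, 1, 5), 8, 2, 3)]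
  Tc := [(0, 1, 3), (0, 1, 4), (0, 1, 6), (0, 1, 7), (0, 3, 4), (0, 3, 6), (0, 3, 7), (0, 4, 6),
    (0, 4, 7), (0, 6, 7)]
  Td := [((0, 1), (2, 1), 2), ((0, 1), (2, 3), 5), ((0, 3), (2, 1), 2), ((0, 3), (2, 3), 5), ((0,
    4), (2, 1), 2), ((0, 4), (2, 3), 5), ((0, 6), (2, 1), 2), ((0, 6), (2, 3), 5), ((0, 7),
    (2, 1), 2), ((0, 7), (2, 3), 5), ((1, 0), (0, 1), 2), ((1, 0), (0, 8), 4), ((3, 0), (4,
    1), 2), ((3, 0), (4, 3), 5), ((3, 0), (5, 6), 6), ((3, 0), (5, 9), 8), ((4, 0), (8, 0),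
    1), ((4, 0), (8, 7), 7), ((6, 0), (6, 5), 3), ((6, 0), (6, 7), 7), ((7, 0), (7, 6), 6),
    ((7, 0), (7, 8), 4)]
  G := [[0, 0x99a1dda1a1116144a15464, 0xeec11eec11a48, 0xd9914148a9ddc12941181c745551488c,
    0xbb514433c122c1a88c199c1ab814bc8], [0, 0x11611161cc61d55612684, 0xeec11eec11a48,
    0x98918841854411414111c1cddc1244c14f8c, 0xb4144b8133c1699c1b81cac8]]

noncomputable def n2061 : Ent := ⟨e2061, noF, [], [], [(16, 13, [1580044429602293643470024699863340111275081426260889765897801089025, 0])]⟩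

def c2061 : PLift (Cov.check n2061.C.D v2061 = true) := ⟨by decide +kernel⟩

def b2061 : PLift (entF (fidx ts) 400 2061 n2061 = true) := ⟨by decide +kernel⟩

theorem g2061 : GoodF (fidx ts) 400 2061 := GoodF.ofV v2061 n2061 c2061.down b2061.down

/-- 4747745:1736/3 -/
noncomputable def e2062 : SCfg where
  D := {
    a := 7
    L := 10
    kp := 8
    inn := [(0, 1), (1, 0), (1, 2), (1, 3), (1, 4), (1, 5), (2, 1), (2, 3), (3, 1), (3, 2), (3, 4), (3,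
      6), (4, 1), (4, 3), (4, 5), (5, 1), (5, 4), (6, 3)]
    mix := [(0, 0), (0, 1), (0, 2), (1, 0), (1, 2), (2, 2), (2, 3), (3, 3), (3, 4), (3, 5), (4, 5), (4,
      6), (4, 7), (4, 8), (5, 0), (5, 8), (6, 1), (6, 4), (6, 5), (6, 9)]
    cl := [1, 2, 0, 5, 3, 3, 6, 7, 4, 8]
    chq := [(0, 1), (0, 3), (0, 4), (0, 6), (0, 7), (1, 0), (3, 0), (4, 0), (6, 0), (7, 0)]
    rng := [(0, 1), (0, 8), (1, 0), (1, 2), (1, 5), (1, 9), (2, 1), (2, 3), (3, 2), (3, 4), (4, 3), (4,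
      9), (5, 1), (5, 6), (6, 5), (6, 7), (7, 6), (7, 8), (8, 0), (8, 7), (9, 1), (9, 4)]
    lev := [] }
  links := [[1, 7, 8, 9], [7, 0, 9, 2, 3, 4, 5], [3, 1, 9, 10], [4, 1, 2, 10, 11, 6, 12], [5, 1, 3, 12,
    13, 14, 15], [7, 1, 4, 15], [12, 3, 11, 16, 8]]
  P := {
    a := 7
    N := 17
    nb := [898, 701, 1546, 7254, 61482, 32914, 71944, 33059, 70337, 1287, 2572, 66632, 8536, 20496,
      40976, 16560, 2368]
    tri := [(0, 1, 7), (0, 1, 9), (0, 7, 8), (0, 8, 9), (1, 2, 3), (1, 2, 9), (1, 3, 4), (1, 4, 5), (1,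
      5, 7), (2, 3, 10), (2, 9, 10), (3, 4, 12), (3, 6, 11), (3, 6, 12), (3, 10, 11), (4, 5, 15),
      (4, 12, 13), (4, 13, 14), (4, 14, 15), (5, 7, 15), (6, 8, 12), (6, 8, 16), (6, 11, 16)]
    fin := [0, 1, 1, 3, 1, 0, 6, 0, 6, 1, 10, 3, 3, 13, 14, 15, 16]
    chd := [(0, 1), (1, 3), (1, 13), (1, 14), (1, 15)]
    steps := [(0, 7), (0, 5), (1, 2), (1, 4), (1, 9), (3, 11), (3, 12), (6, 8)] }
  rep := [1, 0, 6, 3, 15, 10, 13, 14, 16]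

noncomputable def v2062 : Cov.CovD where
  P := 3
  N := 6
  pl := [1, 3, 9]
  lev := [⟨[], [], [(0, 1)], [2], [(0, 1, [0]), (2, 0, [1, 3, 4, 6, 7])]⟩,
    ⟨[], [(0, 0), (0, 1)], [(0, 1)], [], [(0, 1, [0]), (2, 0, [1, 3, 4, 6, 7])]⟩,
    ⟨[(0, 1)], [(0, 0), (1, 0), (1, 1)], [], [5], [(2, 0, [1, 3, 4, 6, 7])]⟩,
    ⟨[(0, 1), (1, 2)], [(1, 0), (1, 1), (1, 3), (2, 0), (2, 3)], [(3, 3)], [5], [(4, 3,
      [0]), (5, 3, [0])]⟩,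
    ⟨[(0, 1), (1, 2), (1, 3), (2, 3)], [(1, 0), (1, 1), (1, 3), (1, 4), (1, 6), (1, 7), (3,
      3), (3, 4), (3, 6), (3, 7)], [(3, 4), (3, 6), (3, 7), (4, 6), (4, 7), (6, 7)], [], [(5,
      3, [0]), (6, 6, [0]), (7, 7, [0]), (8, 4, [0])]⟩,
    ⟨[(0, 1), (1, 2), (1, 3), (1, 4), (3, 4)], [(0, 1), (1, 0), (1, 1), (1, 4), (4, 1), (4,
      3), (4, 4), (4, 6), (4, 7)], [(1, 4)], [], [(0, 1, [0]), (8, 4, [0])]⟩,
    ⟨[(1, 3), (2, 3), (3, 4)], [(3, 3), (4, 3)], [(3, 3)], [2, 8], [(4, 3, [0]), (5, 3,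
      [0])]⟩]
  Ta := [((4, 3), 3, 5), ((4, 9), 3, 8), ((5, 1), 3, 2), ((5, 6), 3, 6)]
  Tb := [((0, 1, 8), 1, 2, 4), ((1, 0, 2), 2, 1, 0), ((1, 0, 5), 2, 1, 3), ((1, 0, 9), 2, 1, 8),
    ((1, 2, 5), 2, 0, 3), ((1, 2, 9), 2, 0, 8), ((1, 5, 9), 2, 3, 8), ((2, 1, 3), 0, 2, 5),
    ((3, 2, 4), 5, 0, 3), ((4, 3, 9), 3, 5, 8), ((5, 1, 6), 3, 2, 6), ((6, 5, 7), 6, 3, 7),
    ((7, 6, 8), 7, 6, 4), ((8, 0, 7), 4, 1, 7), ((9, 1, 4), 8, 2, 3)]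
  Tc := [(0, 1, 3), (0, 1, 4), (0, 1, 6), (0, 1, 7), (0, 3, 4), (0, 3, 6), (0, 3, 7), (0, 4, 6),
    (0, 4, 7), (0, 6, 7)]
  Td := [((0, 1), (2, 1), 2), ((0, 1), (2, 3), 5), ((0, 3), (2, 1), 2), ((0, 3), (2, 3), 5), ((0,
    4), (2, 1), 2), ((0, 4), (2, 3), 5), ((0, 6), (2, 1), 2), ((0, 6), (2, 3), 5), ((0, 7),
    (2, 1), 2), ((0, 7), (2, 3), 5), ((1, 0), (0, 1), 2), ((1, 0), (0, 8), 4), ((3, 0), (4,
    3), 5), ((3, 0), (4, 9), 8), ((3, 0), (5, 1), 2), ((3, 0), (5, 6), 6), ((4, 0), (8, 0),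
    1), ((4, 0), (8, 7), 7), ((6, 0), (6, 5), 3), ((6, 0), (6, 7), 7), ((7, 0), (7, 6), 6),
    ((7, 0), (7, 8), 4)]
  G := [[0, 0x88a11116155a1dd61e584, 0xe411e811eec11e84, 0xc991844c5519145ddc12a51d1a18cc,
    0xb4144b8133c1699c1b81cac8], [0, 0x1d61c413299615561c1a8, 0xeec11eec11684,
    0x19918ddc1289c187455514581498c, 0xb414433c1b8122c1e88c1b8199c1eac8]]

noncomputable def n2062 : Ent := ⟨e2062, noF, [], [], []⟩

def c2062 : PLift (Cov.check n2062.C.D v2062 = true) := ⟨by decide +kernel⟩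

def b2062 : PLift (entF (fidx ts) 400 2062 n2062 = true) := ⟨by decide +kernel⟩

theorem g2062 : GoodF (fidx ts) 400 2062 := GoodF.ofV v2062 n2062 c2062.down b2062.down

/-- 4747745:1736/4 -/
noncomputable def e2063 : SCfg where
  D := {
    a := 7
    L := 10
    kp := 8
    inn := [(0, 1), (1, 0), (1, 2), (1, 3), (1, 4), (1, 5), (2, 1), (2, 3), (3, 1), (3, 2), (3, 4), (3,
      6), (4, 1), (4, 3), (4, 5), (5, 1), (5, 4), (6, 3)]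
    mix := [(0, 0), (0, 1), (0, 2), (1, 0), (1, 2), (2, 2), (2, 3), (3, 3), (3, 4), (3, 5), (4, 5), (4,
      6), (4, 7), (4, 8), (5, 0), (5, 8), (6, 4), (6, 5), (6, 6), (6, 9)]
    cl := [1, 7, 0, 2, 3, 3, 5, 6, 4, 8]
    chq := [(0, 1), (0, 4), (1, 0), (2, 4), (2, 5), (2, 6), (4, 0), (4, 2), (5, 2), (6, 2)]
    rng := [(0, 1), (0, 8), (1, 0), (1, 2), (2, 1), (2, 3), (3, 2), (3, 4), (4, 3), (4, 9), (5, 6), (6,
      5), (6, 7), (6, 9), (7, 6), (7, 8), (8, 0), (8, 7), (9, 4), (9, 6)]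
    lev := [] }
  links := [[1, 7, 8, 9], [7, 0, 9, 2, 3, 4, 5], [3, 1, 9, 10], [4, 1, 2, 10, 11, 6, 12], [5, 1, 3, 12,
    13, 14, 15], [7, 1, 4, 15], [12, 3, 11, 16, 13]]
  P := {
    a := 7
    N := 17
    nb := [898, 701, 1546, 7254, 61482, 32914, 79880, 33059, 641, 1287, 2572, 66632, 8280, 86096,
      40976, 16560, 10304]
    tri := [(0, 1, 7), (0, 1, 9), (0, 7, 8), (0, 8, 9), (1, 2, 3), (1, 2, 9), (1, 3, 4), (1, 4, 5), (1,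
      5, 7), (2, 3, 10), (2, 9, 10), (3, 4, 12), (3, 6, 11), (3, 6, 12), (3, 10, 11), (4, 5, 15),
      (4, 12, 13), (4, 13, 14), (4, 14, 15), (5, 7, 15), (6, 11, 16), (6, 12, 13), (6, 13, 16)]
    fin := [0, 1, 1, 3, 3, 1, 6, 0, 8, 1, 3, 6, 6, 13, 14, 15, 16]
    chd := [(0, 1), (1, 15), (3, 13), (3, 14), (3, 15)]
    steps := [(0, 7), (1, 2), (1, 5), (1, 9), (3, 4), (3, 10), (6, 11), (6, 12)] }
  rep := [1, 0, 3, 6, 15, 13, 14, 8, 16]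

noncomputable def v2063 : Cov.CovD where
  P := 3
  N := 6
  pl := [1, 9]
  lev := [⟨[], [], [(0, 1)], [7], [(0, 1, [0]), (2, 0, [1, 4])]⟩,
    ⟨[], [(0, 0), (0, 1)], [(0, 1)], [], [(0, 1, [0]), (2, 0, [1, 4])]⟩,
    ⟨[(0, 1)], [(0, 0), (1, 0), (1, 1), (1, 2)], [(0, 2)], [], [(2, 0, [1, 4]), (3, 2, [4,
      5, 6])]⟩,
    ⟨[(0, 1), (1, 2)], [(1, 0), (1, 1), (1, 2), (1, 3), (2, 0), (2, 2), (2, 3)], [(2, 3),
      (3, 3)], [], [(3, 2, [4, 5, 6]), (4, 3, []), (5, 3, [])]⟩,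
    ⟨[(0, 1), (1, 2), (1, 3), (2, 3)], [(1, 0), (1, 1), (1, 3), (1, 4), (1, 5), (1, 6), (3,
      2), (3, 3), (3, 4), (3, 5), (3, 6)], [(3, 4), (3, 5), (3, 6), (4, 5), (4, 6), (5, 6)],
      [], [(5, 3, []), (6, 5, [2]), (7, 6, [2]), (8, 4, [0, 2])]⟩,
    ⟨[(0, 1), (1, 2), (1, 3), (1, 4), (3, 4)], [(0, 1), (1, 0), (1, 1), (1, 4), (4, 1), (4,
      3), (4, 4), (4, 5), (4, 6)], [(1, 4)], [], [(0, 1, [0]), (8, 4, [0, 2])]⟩,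
    ⟨[(1, 3), (2, 3), (3, 4)], [(3, 2), (3, 3), (3, 5), (4, 3), (4, 5)], [(3, 3), (3, 5)],
      [8], [(4, 3, []), (5, 3, []), (6, 5, [2])]⟩]
  Ta := [((4, 3), 3, 2), ((4, 9), 3, 8), ((5, 6), 3, 5)]
  Tb := [((0, 1, 8), 1, 7, 4), ((1, 0, 2), 7, 1, 0), ((2, 1, 3), 0, 7, 2), ((3, 2, 4), 2, 0, 3),
    ((4, 3, 9), 3, 2, 8), ((6, 5, 7), 5, 3, 6), ((6, 5, 9), 5, 3, 8), ((6, 7, 9), 5, 6, 8),
    ((7, 6, 8), 6, 5, 4), ((8, 0, 7), 4, 1, 6), ((9, 4, 6), 8, 3, 5)]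
  Tc := [(0, 1, 4), (2, 4, 5), (2, 4, 6), (2, 5, 6), (4, 0, 2)]
  Td := [((0, 1), (2, 1), 7), ((0, 1), (2, 3), 2), ((0, 4), (2, 1), 7), ((0, 4), (2, 3), 2), ((1,
    0), (0, 1), 7), ((1, 0), (0, 8), 4), ((2, 4), (3, 2), 0), ((2, 4), (3, 4), 3), ((2, 5),
    (3, 2), 0), ((2, 5), (3, 4), 3), ((2, 6), (3, 2), 0), ((2, 6), (3, 4), 3), ((4, 0), (8,
    0), 1), ((4, 0), (8, 7), 6), ((4, 2), (8, 0), 1), ((4, 2), (8, 7), 6), ((5, 2), (6, 5),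
    3), ((5, 2), (6, 7), 6), ((5, 2), (6, 9), 8), ((6, 2), (7, 6), 5), ((6, 2), (7, 8), 4)]
  G := [[0, 0xb121e12458e12712944a, 0x911b1164114687112d118a4c, 0xe12712944e12b12588c,
    0x2142c14f143621488ce14d14388c], [0, 0xf12184f128143124c12458e, 0xd11711a44d11b11688c,
    0xe12712944e12b12588c, 0x2142c14d143621428ce142d141a8c]]

noncomputable def n2063 : Ent := ⟨e2063, noF, [], [], [(8, 16, [1580044410770988437309982408355971841652082177953823432505697550337, 0])]⟩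

def c2063 : PLift (Cov.check n2063.C.D v2063 = true) := ⟨by decide +kernel⟩

def b2063 : PLift (entF (fidx ts) 400 2063 n2063 = true) := ⟨by decide +kernel⟩

theorem g2063 : GoodF (fidx ts) 400 2063 := GoodF.ofV v2063 n2063 c2063.down b2063.down

/-- 4747745:1736 -/
noncomputable def e2064 : SCfg where
  D := {
    a := 7
    L := 11
    kp := 9
    inn := [(0, 1), (1, 0), (1, 2), (1, 3), (1, 4), (1, 5), (2, 1), (2, 3), (3, 1), (3, 2), (3, 4), (3,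
      6), (4, 1), (4, 3), (4, 5), (5, 1), (5, 4), (6, 3)]
    mix := [(0, 0), (0, 1), (0, 2), (1, 0), (1, 2), (2, 2), (2, 3), (3, 3), (3, 4), (3, 5), (4, 5), (4,
      6), (4, 7), (4, 8), (5, 0), (5, 8), (6, 4), (6, 5), (6, 9), (6, 10)]
    cl := [1, 7, 0, 2, 3, 3, 5, 6, 4, 8, 9]
    chq := [(0, 1), (0, 4), (1, 0), (2, 4), (2, 5), (2, 6), (4, 0), (4, 2), (5, 2), (6, 2)]
    rng := [(0, 1), (0, 8), (1, 0), (1, 2), (2, 1), (2, 3), (3, 2), (3, 4), (4, 3), (4, 9), (5, 6), (5,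
      10), (6, 5), (6, 7), (7, 6), (7, 8), (8, 0), (8, 7), (9, 4), (9, 10), (10, 5), (10, 9)]
    lev := [] }
  links := [[1, 7, 8, 9], [7, 0, 9, 2, 3, 4, 5], [3, 1, 9, 10], [4, 1, 2, 10, 11, 6, 12], [5, 1, 3, 12,
    13, 14, 15], [7, 1, 4, 15], [12, 3, 11, 16, 17]]
  P := {
    a := 7
    N := 18
    nb := [898, 701, 1546, 7254, 61482, 32914, 202760, 33059, 641, 1287, 2572, 66632, 139352, 20496,
      40976, 16560, 133184, 69696]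
    tri := [(0, 1, 7), (0, 1, 9), (0, 7, 8), (0, 8, 9), (1, 2, 3), (1, 2, 9), (1, 3, 4), (1, 4, 5), (1,
      5, 7), (2, 3, 10), (2, 9, 10), (3, 4, 12), (3, 6, 11), (3, 6, 12), (3, 10, 11), (4, 5, 15),
      (4, 12, 13), (4, 13, 14), (4, 14, 15), (5, 7, 15), (6, 11, 16), (6, 12, 17), (6, 16, 17)]
    fin := [0, 1, 1, 3, 3, 1, 6, 0, 8, 1, 3, 6, 6, 13, 14, 15, 16, 17]
    chd := [(0, 1), (1, 15), (3, 13), (3, 14), (3, 15)]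
    steps := [(0, 7), (1, 2), (1, 5), (1, 9), (3, 4), (3, 10), (6, 11), (6, 12)] }
  rep := [1, 0, 3, 6, 15, 13, 14, 8, 16, 17]

noncomputable def v2064 : Cov.CovD where
  P := 3
  N := 7
  pl := [1, 9, 10]
  lev := [⟨[], [], [(0, 1)], [7], [(0, 1, [0]), (2, 0, [1, 4])]⟩,
    ⟨[], [(0, 0), (0, 1)], [(0, 1)], [], [(0, 1, [0]), (2, 0, [1, 4])]⟩,
    ⟨[(0, 1)], [(0, 0), (1, 0), (1, 1), (1, 2)], [(0, 2)], [], [(2, 0, [1, 4]), (3, 2, [4,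
      5, 6])]⟩,
    ⟨[(0, 1), (1, 2)], [(1, 0), (1, 1), (1, 2), (1, 3), (2, 0), (2, 2), (2, 3)], [(2, 3),
      (3, 3)], [], [(3, 2, [4, 5, 6]), (4, 3, []), (5, 3, [])]⟩,
    ⟨[(0, 1), (1, 2), (1, 3), (2, 3)], [(1, 0), (1, 1), (1, 3), (1, 4), (1, 5), (1, 6), (3,
      2), (3, 3), (3, 4), (3, 5), (3, 6)], [(3, 4), (3, 5), (3, 6), (4, 5), (4, 6), (5, 6)],
      [], [(5, 3, []), (6, 5, [2]), (7, 6, [2]), (8, 4, [0, 2])]⟩,
    ⟨[(0, 1), (1, 2), (1, 3), (1, 4), (3, 4)], [(0, 1), (1, 0), (1, 1), (1, 4), (4, 1), (4,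
      3), (4, 4), (4, 5), (4, 6)], [(1, 4)], [], [(0, 1, [0]), (8, 4, [0, 2])]⟩,
    ⟨[(1, 3), (2, 3), (3, 4)], [(3, 2), (3, 3), (4, 3)], [(3, 3)], [8, 9], [(4, 3, []), (5,
      3, [])]⟩]
  Ta := [((4, 3), 3, 2), ((4, 9), 3, 8), ((5, 6), 3, 5), ((5, 10), 3, 9)]
  Tb := [((0, 1, 8), 1, 7, 4), ((1, 0, 2), 7, 1, 0), ((2, 1, 3), 0, 7, 2), ((3, 2, 4), 2, 0, 3),
    ((4, 3, 9), 3, 2, 8), ((5, 6, 10), 3, 5, 9), ((6, 5, 7), 5, 3, 6), ((7, 6, 8), 6, 5, 4),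
    ((8, 0, 7), 4, 1, 6), ((9, 4, 10), 8, 3, 9), ((10, 5, 9), 9, 3, 8)]
  Tc := [(0, 1, 4), (2, 4, 5), (2, 4, 6), (2, 5, 6), (4, 0, 2)]
  Td := [((0, 1), (2, 1), 7), ((0, 1), (2, 3), 2), ((0, 4), (2, 1), 7), ((0, 4), (2, 3), 2), ((1,
    0), (0, 1), 7), ((1, 0), (0, 8), 4), ((2, 4), (3, 2), 0), ((2, 4), (3, 4), 3), ((2, 5),
    (3, 2), 0), ((2, 5), (3, 4), 3), ((2, 6), (3, 2), 0), ((2, 6), (3, 4), 3), ((4, 0), (8,
    0), 1), ((4, 0), (8, 7), 6), ((4, 2), (8, 0), 1), ((4, 2), (8, 7), 6), ((5, 2), (6, 5),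
    3), ((5, 2), (6, 7), 6), ((6, 2), (7, 6), 5), ((6, 2), (7, 8), 4)]
  G := [[0, 0xe1271294471248b1281cc, 0x71142b1184cd11b11688c, 0xe12712944412a12f12d48c,
    0x2142c14f143621428ce14d14388c], [0, 0xe12b12588e12b125886, 0xd11711a44d11b11688c,
    0xe12712944e12b12588c, 0x2142c14f143621482ce14d14388c]]

noncomputable def n2064 : Ent := ⟨e2064, noF, [], [], [(8, 16, [7334685537875745012586738086077695515070955365108989538292687702118401, 0]), (8, 17, [6903326391201334775872065844685381424292761054348340378595029938135041, 0]), (17, 13, [6903326391226443182813612567740724581985591720012749800372886076190721, 0])]⟩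

def c2064 : PLift (Cov.check n2064.C.D v2064 = true) := ⟨by decide +kernel⟩

def b2064 : PLift (entF (fidx ts) 400 2064 n2064 = true) := ⟨by decide +kernel⟩

theorem g2064 : GoodF (fidx ts) 400 2064 := GoodF.ofV v2064 n2064 c2064.down b2064.down

/-- 4747484:1750/1 -/
noncomputable def e2065 : SCfg where
  D := {
    a := 7
    L := 10
    kp := 8
    inn := [(0, 1), (1, 0), (1, 2), (1, 3), (1, 4), (1, 5), (2, 1), (2, 3), (3, 1), (3, 2), (3, 5), (3,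
      6), (4, 1), (4, 5), (5, 1), (5, 3), (5, 4), (6, 3)]
    mix := [(0, 0), (0, 1), (0, 2), (1, 0), (1, 2), (2, 2), (2, 3), (3, 3), (3, 4), (3, 5), (4, 0), (4,
      6), (5, 5), (5, 6), (5, 7), (5, 8), (5, 9), (6, 1), (6, 4), (6, 5)]
    cl := [1, 2, 0, 3, 5, 3, 4, 6, 7, 8]
    chq := [(0, 1), (0, 4), (0, 6), (0, 7), (0, 8), (1, 0), (4, 0), (6, 0), (7, 0), (8, 0)]
    rng := [(0, 1), (0, 6), (1, 0), (1, 2), (1, 4), (1, 5), (2, 1), (2, 3), (3, 2), (3, 4), (4, 1), (4,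
      3), (5, 1), (5, 7), (6, 0), (6, 9), (7, 5), (7, 8), (8, 7), (8, 9), (9, 6), (9, 8)]
    lev := [] }
  links := [[1, 7, 8, 9], [7, 0, 9, 2, 3, 5, 4], [3, 1, 9, 10], [5, 1, 2, 10, 11, 6, 12], [7, 1, 5, 13],
    [13, 4, 1, 3, 12, 14, 15, 16], [12, 3, 11, 8]]
  P := {
    a := 7
    N := 17
    nb := [898, 701, 1546, 7270, 8354, 127002, 6408, 8467, 6849, 1287, 2572, 1352, 16744, 65712,
      36896, 81952, 40992]
    tri := [(0, 1, 7), (0, 1, 9), (0, 7, 8), (0, 8, 9), (1, 2, 3), (1, 2, 9), (1, 3, 5), (1, 4, 5), (1,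
      4, 7), (2, 3, 10), (2, 9, 10), (3, 5, 12), (3, 6, 11), (3, 6, 12), (3, 10, 11), (4, 5, 13),
      (4, 7, 13), (5, 12, 14), (5, 13, 16), (5, 14, 15), (5, 15, 16), (6, 8, 11), (6, 8, 12)]
    fin := [0, 1, 1, 3, 0, 1, 6, 0, 6, 1, 3, 11, 3, 13, 14, 15, 16]
    chd := [(0, 1), (1, 13), (1, 14), (1, 15), (1, 16)]
    steps := [(0, 7), (0, 4), (1, 2), (1, 5), (1, 9), (3, 10), (3, 12), (6, 8)] }
  rep := [1, 0, 6, 3, 13, 11, 14, 15, 16]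

noncomputable def v2065 : Cov.CovD where
  P := 3
  N := 6
  pl := [1, 4]
  lev := [⟨[], [], [(0, 1)], [2], [(0, 1, [0]), (2, 0, [1, 4, 6, 7, 8])]⟩,
    ⟨[], [(0, 0), (0, 1)], [(0, 1)], [], [(0, 1, [0]), (2, 0, [1, 4, 6, 7, 8])]⟩,
    ⟨[(0, 1)], [(0, 0), (1, 0), (1, 1), (1, 3)], [(0, 3)], [], [(2, 0, [1, 4, 6, 7, 8]),
      (3, 3, [])]⟩,
    ⟨[(0, 1), (1, 2)], [(1, 0), (1, 1), (1, 3), (2, 0), (2, 3)], [(3, 3)], [5], [(3, 3,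
      []), (5, 3, [])]⟩,
    ⟨[(0, 1), (1, 2), (1, 3)], [(0, 1), (1, 0), (1, 1), (1, 4)], [(1, 4)], [], [(0, 1,
      [0]), (6, 4, [0])]⟩,
    ⟨[(0, 1), (1, 2), (1, 3), (1, 4), (2, 3), (3, 4)], [(1, 0), (1, 1), (1, 3), (1, 4), (1,
      6), (1, 7), (1, 8), (3, 3), (3, 4), (3, 6), (3, 7), (3, 8), (4, 1), (4, 3), (4, 4), (4,
      6), (4, 7), (4, 8)], [(3, 4), (3, 6), (3, 7), (3, 8), (4, 6), (4, 7), (4, 8), (6, 7),
      (6, 8), (7, 8)], [], [(5, 3, []), (6, 4, [0]), (7, 6, [0]), (8, 7, [0]), (9, 8, [0])]⟩,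
    ⟨[(1, 3), (2, 3), (3, 5)], [(3, 3), (5, 3)], [], [2, 5], [(5, 3, [])]⟩]
  Ta := [((3, 2), 3, 0), ((3, 4), 3, 5), ((5, 1), 3, 2), ((5, 7), 3, 6)]
  Tb := [((0, 1, 6), 1, 2, 4), ((1, 0, 2), 2, 1, 0), ((1, 0, 4), 2, 1, 5), ((1, 0, 5), 2, 1, 3),
    ((1, 2, 4), 2, 0, 5), ((1, 2, 5), 2, 0, 3), ((1, 4, 5), 2, 5, 3), ((2, 1, 3), 0, 2, 3),
    ((3, 2, 4), 3, 0, 5), ((4, 1, 3), 5, 2, 3), ((5, 1, 7), 3, 2, 6), ((6, 0, 9), 4, 1, 8),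
    ((7, 5, 8), 6, 3, 7), ((8, 7, 9), 7, 6, 8), ((9, 6, 8), 8, 4, 7)]
  Tc := [(0, 1, 4), (0, 1, 6), (0, 1, 7), (0, 1, 8), (0, 4, 6), (0, 4, 7), (0, 4, 8), (0, 6, 7),
    (0, 6, 8), (0, 7, 8)]
  Td := [((0, 1), (2, 1), 2), ((0, 1), (2, 3), 3), ((0, 4), (2, 1), 2), ((0, 4), (2, 3), 3), ((0,
    6), (2, 1), 2), ((0, 6), (2, 3), 3), ((0, 7), (2, 1), 2), ((0, 7), (2, 3), 3), ((0, 8),
    (2, 1), 2), ((0, 8), (2, 3), 3), ((1, 0), (0, 1), 2), ((1, 0), (0, 6), 4), ((4, 0), (6,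
    0), 1), ((4, 0), (6, 9), 8), ((6, 0), (7, 5), 3), ((6, 0), (7, 8), 7), ((7, 0), (8, 7),
    6), ((7, 0), (8, 9), 8), ((8, 0), (9, 6), 4), ((8, 0), (9, 8), 7)]
  G := [[0, 0x9141c8181c3284, 0x2112c1c1c14118e84, 0xc1c1c2284, 0xa1115814642148818218a1184dc8],
    [0, 0x118169151ca4111c4524, 0x21124114681182c4, 0xd1d1c2484, 0x914421111c9182121ce8c8]]

noncomputable def n2065 : Ent := ⟨e2065, noF, [], [], []⟩

def c2065 : PLift (Cov.check n2065.C.D v2065 = true) := ⟨by decide +kernel⟩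

def b2065 : PLift (entF (fidx ts) 400 2065 n2065 = true) := ⟨by decide +kernel⟩

theorem g2065 : GoodF (fidx ts) 400 2065 := GoodF.ofV v2065 n2065 c2065.down b2065.down

/-- The entries 1935 to 2065. -/
theorem rE13 : Rng (GoodF (fidx ts) 400) 1935 2066 :=
  ((((((((((((((((((((((((((((((((((((((((((((((((((((((((((((((((((((((((((((((((((((((((((((((((((((((((((((((((((((((((((((((((((((Rng.nil _ 1935).snoc g1935 rfl).snoc g1936 rfl).snoc g1937 rfl).snoc g1938 rfl).snoc g1939 rfl).snoc g1940 rfl).snoc g1941 rfl).snoc g1942 rfl).snoc g1943 rfl).snoc g1944 rfl).snoc g1945 rfl).snoc g1946 rfl).snoc g1947 rfl).snoc g1948 rfl).snoc g1949 rfl).snoc g1950 rfl).snoc g1951 rfl).snoc g1952 rfl).snoc g1953 rfl).snoc g1954 rfl).snoc g1955 rfl).snoc g1956 rfl).snoc g1957 rfl).snoc g1958 rfl).snoc g1959 rfl).snoc g1960 rfl).snoc g1961 rfl).snoc g1962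 rfl).snoc g1963 rfl).snoc g1964 rfl).snoc g1965 rfl).snoc g1966 rfl).snoc g1967 rfl).snoc g1968 rfl).snoc g1969 rfl).snoc g1970 rfl).snoc g1971 rfl).snoc g1972 rfl).snoc g1973 rfl).snoc g1974 rfl).snoc g1975 rfl).snoc g1976 rfl).snoc g1977 rfl).snoc g1978 rfl).snoc g1979 rfl).snoc g1980 rfl).snoc g1981 rfl).snoc g1982 rfl).snoc g1983 rfl).snoc g1984 rfl).snoc g1985 rfl).snoc g1986 rfl).snoc g1987 rfl).snoc g1988 rfl).snoc g1989 rfl).snoc g1990 rfl).snoc g1991 rfl).snoc g1992 rfl).snoc g1993 rfl).snoc g1994 rfl).snoc g1995 rfl).snoc g1996 rfl).snoc g1997 rfl).snoc g1998 rfl).snoc g1999 rfl).snoc g2000 rfl).snoc g2001 rfl).snoc g2002 rfl).snoc g2003 rfl).snoc g2004 rfl).snoc g2005 rfl).snoc g2006 rfl).snoc g2007 rfl).snoc g2008 rfl).snoc g2009 rfl).snoc g2010 rfl).snoc g2011 rfl).snoc g2012 rfl).snoc g2013 rfl).snoc g2014 rfl).snoc g2015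 rfl).snoc g2016 rfl).snoc g2017 rfl).snoc g2018 rfl).snoc g2019 rfl).snoc g2020 rfl).snoc g2021 rfl).snoc g2022 rfl).snoc g2023 rfl).snoc g2024 rfl).snoc g2025 rfl).snoc g2026 rfl).snoc g2027 rfl).snoc g2028 rfl).snoc g2029 rfl).snoc g2030 rfl).snoc g2031 rfl).snoc g2032 rfl).snoc g2033 rfl).snoc g2034 rfl).snoc g2035 rfl).snoc g2036 rfl).snoc g2037 rfl).snoc g2038 rfl).snoc g2039 rfl).snoc g2040 rfl).snoc g2041 rfl).snoc g2042 rfl).snoc g2043 rfl).snoc g2044 rfl).snoc g2045 rfl).snoc g2046 rfl).snoc g2047 rfl).snoc g2048 rfl).snoc g2049 rfl).snoc g2050 rfl).snoc g2051 rfl).snoc g2052 rfl).snoc g2053 rfl).snoc g2054 rfl).snoc g2055 rfl).snoc g2056 rfl).snoc g2057 rfl).snoc g2058 rfl).snoc g2059 rfl).snoc g2060 rfl).snoc g2061 rfl).snoc g2062 rfl).snoc g2063 rfl).snoc g2064 rfl).snoc g2065 rfl)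

end Pool.Agent.W986.ST.Dat
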