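import Pool.Agent.W986.Dat.Tab
import Pool.Agent.W986.SubAltB

/-!
# Entries 2066 to 2192 of the table
-/

set_option autoImplicit false

namespace Pool.Agent.W986.ST.Dat

/-- 4747484:1750 -/
noncomputable def e2066 : SCfg where
  D := {
    a := 7
    L := 11
    kp := 9
    inn := [(0, 1), (1, 0), (1, 2), (1, 3), (1, 4), (1, 5), (2, 1), (2, 3), (3, 1), (3, 2), (3, 5), (3,
      6), (4, 1), (4, 5), (5, 1), (5, 3), (5, 4), (6, 3)]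
    mix := [(0, 0), (0, 1), (0, 2), (1, 0), (1, 2), (2, 2), (2, 3), (3, 3), (3, 4), (3, 5), (4, 0), (4,
      6), (5, 5), (5, 6), (5, 7), (5, 8), (5, 9), (6, 4), (6, 5), (6, 10)]
    cl := [1, 8, 0, 3, 4, 3, 2, 5, 6, 7, 9]
    chq := [(0, 1), (0, 2), (0, 5), (0, 6), (0, 7), (1, 0), (2, 0), (5, 0), (6, 0), (7, 0)]
    rng := [(0, 1), (0, 6), (1, 0), (1, 2), (2, 1), (2, 3), (3, 2), (3, 4), (4, 3), (4, 10), (5, 7),
      (5, 10), (6, 0), (6, 9), (7, 5), (7, 8), (8, 7), (8, 9), (9, 6), (9, 8), (10, 4), (10, 5)]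
    lev := [] }
  links := [[1, 7, 8, 9], [7, 0, 9, 2, 3, 5, 4], [3, 1, 9, 10], [5, 1, 2, 10, 11, 6, 12], [7, 1, 5, 13],
    [13, 4, 1, 3, 12, 14, 15, 16], [12, 3, 11, 17]]
  P := {
    a := 7
    N := 18
    nb := [898, 701, 1546, 7270, 8354, 127002, 137224, 8467, 641, 1287, 2572, 132168, 147560, 65712,
      36896, 81952, 40992, 6208]
    tri := [(0, 1, 7), (0, 1, 9), (0, 7, 8), (0, 8, 9), (1, 2, 3), (1, 2, 9), (1, 3, 5), (1, 4, 5), (1,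
      4, 7), (2, 3, 10), (2, 9, 10), (3, 5, 12), (3, 6, 11), (3, 6, 12), (3, 10, 11), (4, 5, 13),
      (4, 7, 13), (5, 12, 14), (5, 13, 16), (5, 14, 15), (5, 15, 16), (6, 11, 17), (6, 12, 17)]
    fin := [0, 1, 1, 3, 0, 1, 3, 0, 8, 1, 3, 11, 3, 13, 14, 15, 16, 17]
    chd := [(0, 1), (1, 13), (1, 14), (1, 15), (1, 16)]
    steps := [(0, 7), (0, 4), (1, 2), (1, 5), (1, 9), (3, 6), (3, 10), (3, 12)] }
  rep := [1, 0, 13, 3, 11, 14, 15, 16, 8, 17]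

noncomputable def v2066 : Cov.CovD where
  P := 3
  N := 7
  pl := [1, 4, 10]
  lev := [⟨[], [], [(0, 1)], [8], [(0, 1, [0]), (2, 0, [1, 2, 5, 6, 7])]⟩,
    ⟨[], [(0, 0), (0, 1)], [(0, 1)], [], [(0, 1, [0]), (2, 0, [1, 2, 5, 6, 7])]⟩,
    ⟨[(0, 1)], [(0, 0), (1, 0), (1, 1), (1, 3)], [(0, 3)], [], [(2, 0, [1, 2, 5, 6, 7]),
      (3, 3, [])]⟩,
    ⟨[(0, 1), (1, 2)], [(1, 0), (1, 1), (1, 3), (2, 0), (2, 3)], [(3, 3)], [4], [(3, 3,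
      []), (5, 3, [])]⟩,
    ⟨[(0, 1), (1, 2), (1, 3)], [(0, 1), (1, 0), (1, 1), (1, 2)], [(1, 2)], [], [(0, 1,
      [0]), (6, 2, [0])]⟩,
    ⟨[(0, 1), (1, 2), (1, 3), (1, 4), (2, 3), (3, 4)], [(1, 0), (1, 1), (1, 2), (1, 3), (1,
      5), (1, 6), (1, 7), (3, 2), (3, 3), (3, 5), (3, 6), (3, 7), (4, 1), (4, 2), (4, 3), (4,
      5), (4, 6), (4, 7)], [(2, 3), (2, 5), (2, 6), (2, 7), (3, 5), (3, 6), (3, 7), (5, 6),
      (5, 7), (6, 7)], [], [(5, 3, []), (6, 2, [0]), (7, 5, [0]), (8, 6, [0]), (9, 7, [0])]⟩,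
    ⟨[(1, 3), (2, 3), (3, 5)], [(3, 3), (5, 3)], [], [4, 9], [(5, 3, [])]⟩]
  Ta := [((3, 2), 3, 0), ((3, 4), 3, 4), ((5, 7), 3, 5), ((5, 10), 3, 9)]
  Tb := [((0, 1, 6), 1, 8, 2), ((1, 0, 2), 8, 1, 0), ((2, 1, 3), 0, 8, 3), ((3, 2, 4), 3, 0, 4),
    ((4, 3, 10), 4, 3, 9), ((5, 7, 10), 3, 5, 9), ((6, 0, 9), 2, 1, 7), ((7, 5, 8), 5, 3, 6),
    ((8, 7, 9), 6, 5, 7), ((9, 6, 8), 7, 2, 6), ((10, 4, 5), 9, 4, 3)]
  Tc := [(0, 1, 2), (0, 1, 5), (0, 1, 6), (0, 1, 7), (0, 2, 5), (0, 2, 6), (0, 2, 7), (0, 5, 6),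
    (0, 5, 7), (0, 6, 7)]
  Td := [((0, 1), (2, 1), 8), ((0, 1), (2, 3), 3), ((0, 2), (2, 1), 8), ((0, 2), (2, 3), 3), ((0,
    5), (2, 1), 8), ((0, 5), (2, 3), 3), ((0, 6), (2, 1), 8), ((0, 6), (2, 3), 3), ((0, 7),
    (2, 1), 8), ((0, 7), (2, 3), 3), ((1, 0), (0, 1), 8), ((1, 0), (0, 6), 2), ((2, 0), (6,
    0), 1), ((2, 0), (6, 9), 7), ((5, 0), (7, 5), 3), ((5, 0), (7, 8), 6), ((6, 0), (8, 7),
    5), ((6, 0), (8, 9), 7), ((7, 0), (9, 6), 2), ((7, 0), (9, 8), 6)]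
  G := [[0, 0x914518c18e125143146191481ac, 0xa144c182661488c1,
    0xa14446188c182aca14446188c182acc, 0x718218ca18c186a4a184c182661888cc], [0,
    0x5143146191881c31824918518c1aa, 0x31425184691882c1,
    0x31425144691882c11431464184691882cc, 0x1117186d184189a431825184691882c518428d]]

noncomputable def n2066 : Ent := ⟨e2066, noF, [], [], [(8, 17, [6903326391201334775872065844685381424292761054348340378595029938147329, 0])]⟩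

def c2066 : PLift (Cov.check n2066.C.D v2066 = true) := ⟨by decide +kernel⟩

def b2066 : PLift (entF (fidx ts) 400 2066 n2066 = true) := ⟨by decide +kernel⟩

theorem g2066 : GoodF (fidx ts) 400 2066 := GoodF.ofV v2066 n2066 c2066.down b2066.down

/-- 4747484:1751/1 -/
noncomputable def e2067 : SCfg where
  D := {
    a := 7
    L := 10
    kp := 8
    inn := [(0, 1), (0, 5), (1, 0), (1, 2), (1, 3), (1, 4), (1, 5), (2, 1), (2, 3), (2, 5), (3, 1), (3,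
      2), (3, 6), (4, 1), (5, 0), (5, 1), (5, 2), (6, 3)]
    mix := [(0, 0), (0, 1), (1, 0), (1, 2), (2, 3), (3, 2), (3, 3), (3, 4), (3, 5), (4, 0), (4, 2), (4,
      6), (5, 1), (5, 3), (5, 7), (5, 8), (5, 9), (6, 4), (6, 5), (6, 8)]
    cl := [1, 2, 0, 3, 5, 3, 8, 6, 4, 7]
    chq := [(0, 1), (0, 2), (0, 4), (0, 6), (0, 7), (1, 0), (2, 0), (4, 0), (6, 0), (7, 0)]
    rng := [(0, 1), (0, 6), (1, 0), (1, 7), (2, 5), (2, 6), (3, 4), (3, 9), (4, 3), (4, 8), (5, 2), (5,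
      8), (6, 0), (6, 2), (7, 1), (7, 8), (8, 4), (8, 5), (8, 7), (8, 9), (9, 3), (9, 8)]
    lev := [] }
  links := [[1, 7, 8, 5], [7, 0, 5, 2, 3, 9, 4], [3, 1, 5, 10], [9, 1, 2, 10, 11, 6, 12], [7, 1, 9, 13],
    [10, 2, 1, 0, 8, 14, 15, 16], [12, 3, 11, 15]]
  P := {
    a := 7
    N := 17
    nb := [418, 701, 1066, 7750, 8834, 115975, 38920, 8467, 16545, 12314, 67628, 33864, 33352, 656,
      33056, 88160, 33824]
    tri := [(0, 1, 5), (0, 1, 7), (0, 5, 8), (0, 7, 8), (1, 2, 3), (1, 2, 5), (1, 3, 9), (1, 4, 7), (1,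
      4, 9), (2, 3, 10), (2, 5, 10), (3, 6, 11), (3, 6, 12), (3, 9, 12), (3, 10, 11), (4, 7, 13),
      (4, 9, 13), (5, 8, 14), (5, 10, 16), (5, 14, 15), (5, 15, 16), (6, 11, 15), (6, 12, 15)]
    fin := [0, 1, 2, 2, 0, 1, 6, 0, 8, 1, 2, 11, 2, 13, 14, 6, 16]
    chd := [(0, 1), (1, 6), (1, 14), (1, 16), (8, 1)]
    steps := [(0, 7), (0, 4), (1, 5), (1, 9), (2, 3), (2, 10), (2, 12), (6, 15)] }
  rep := [1, 0, 8, 2, 6, 11, 14, 16, 13]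

noncomputable def v2067 : Cov.CovD where
  P := 3
  N := 6
  pl := [4, 6]
  lev := [⟨[], [], [(1, 2)], [], [(0, 1, [0]), (1, 2, [0])]⟩,
    ⟨[], [(0, 0), (0, 1), (0, 2)], [(0, 1)], [], [(0, 1, [0]), (2, 0, [1, 2, 4, 6, 7])]⟩,
    ⟨[(0, 1)], [(1, 0), (1, 1), (1, 3)], [], [], [(3, 3, [])]⟩,
    ⟨[(0, 1), (1, 2)], [(1, 0), (1, 1), (1, 3), (2, 0), (2, 3)], [(0, 3), (3, 3)], [5],
      [(2, 0, [1, 2, 4, 6, 7]), (3, 3, []), (5, 3, [])]⟩,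
    ⟨[(0, 1), (1, 2), (1, 3)], [(0, 1), (1, 0), (1, 1), (3, 0)], [(0, 1)], [8], [(0, 1,
      [0]), (2, 0, [1, 2, 4, 6, 7])]⟩,
    ⟨[(0, 1), (0, 2), (1, 2), (1, 3), (1, 4), (2, 3)], [(0, 1), (0, 2), (0, 3), (0, 4), (0,
      6), (0, 7), (1, 0), (1, 1), (1, 2), (1, 3), (1, 4), (1, 6), (1, 7), (2, 2), (2, 3), (2,
      4), (2, 6), (2, 7), (3, 3)], [(2, 3), (2, 4), (2, 6), (2, 7), (3, 4), (3, 6), (3, 7),
      (4, 6), (4, 7), (6, 7)], [], [(1, 2, [0]), (3, 3, []), (7, 6, [0]), (8, 4, [0]), (9, 7,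
      [0])]⟩,
    ⟨[(1, 3), (2, 3)], [(3, 0), (3, 3), (3, 4), (5, 4)], [(3, 4)], [5], [(5, 3, []), (8, 4,
      [0])]⟩]
  Ta := [((3, 4), 3, 5), ((3, 9), 3, 7), ((5, 2), 3, 0), ((5, 8), 3, 4)]
  Tb := [((0, 1, 6), 1, 2, 8), ((1, 0, 7), 2, 1, 6), ((2, 5, 6), 0, 3, 8), ((3, 4, 9), 3, 5, 7),
    ((4, 3, 8), 5, 3, 4), ((5, 2, 8), 3, 0, 4), ((6, 0, 2), 8, 1, 0), ((7, 1, 8), 6, 2, 4),
    ((8, 4, 5), 4, 5, 3), ((8, 4, 7), 4, 5, 6), ((8, 4, 9), 4, 5, 7), ((8, 5, 7), 4, 3, 6),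
    ((8, 5, 9), 4, 3, 7), ((8, 7, 9), 4, 6, 7), ((9, 3, 8), 7, 3, 4)]
  Tc := [(0, 1, 2), (0, 1, 4), (0, 1, 6), (0, 1, 7), (0, 2, 4), (0, 2, 6), (0, 2, 7), (0, 4, 6),
    (0, 4, 7), (0, 6, 7)]
  Td := [((0, 1), (2, 5), 3), ((0, 1), (2, 6), 8), ((0, 2), (2, 5), 3), ((0, 2), (2, 6), 8), ((0,
    4), (2, 5), 3), ((0, 4), (2, 6), 8), ((0, 6), (2, 5), 3), ((0, 6), (2, 6), 8), ((0, 7),
    (2, 5), 3), ((0, 7), (2, 6), 8), ((1, 0), (0, 1), 2), ((1, 0), (0, 6), 8), ((2, 0), (1,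
    0), 1), ((2, 0), (1, 7), 6), ((4, 0), (8, 4), 5), ((4, 0), (8, 5), 3), ((4, 0), (8, 7),
    6), ((4, 0), (8, 9), 7), ((6, 0), (7, 1), 2), ((6, 0), (7, 8), 4), ((7, 0), (9, 3), 3),
    ((7, 0), (9, 8), 4)]
  G := [[0, 0x1131c411616c1c1ca584, 0xa1145112611188c8, 0x6161c88411a1a1d4c1c1c268c,
    0x11a15447161c218c818d1c1c6ac8], [0, 0x11116b1b1aad1d164584, 0x71111162b1182c8,
    0x9191c8243131c25151c468c, 0x51415421187131c6d191c8ac8]]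

noncomputable def n2067 : Ent := ⟨e2067, noF, [], [], []⟩

def c2067 : PLift (Cov.check n2067.C.D v2067 = true) := ⟨by decide +kernel⟩

def b2067 : PLift (entF (fidx ts) 400 2067 n2067 = true) := ⟨by decide +kernel⟩

theorem g2067 : GoodF (fidx ts) 400 2067 := GoodF.ofV v2067 n2067 c2067.down b2067.down

/-- 4747484:1751 -/
noncomputable def e2068 : SCfg where
  D := {
    a := 7
    L := 11
    kp := 9
    inn := [(0, 1), (0, 5), (1, 0), (1, 2), (1, 3), (1, 4), (1, 5), (2, 1), (2, 3), (2, 5), (3, 1), (3,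
      2), (3, 6), (4, 1), (5, 0), (5, 1), (5, 2), (6, 3)]
    mix := [(0, 0), (0, 1), (1, 0), (1, 2), (2, 3), (3, 2), (3, 3), (3, 4), (3, 5), (4, 0), (4, 2), (4,
      6), (5, 1), (5, 3), (5, 7), (5, 8), (5, 9), (6, 4), (6, 5), (6, 10)]
    cl := [1, 2, 0, 3, 4, 3, 8, 5, 6, 7, 9]
    chq := [(0, 1), (0, 2), (0, 5), (0, 6), (0, 7), (1, 0), (2, 0), (5, 0), (6, 0), (7, 0)]
    rng := [(0, 1), (0, 6), (1, 0), (1, 7), (2, 5), (2, 6), (3, 4), (3, 9), (4, 3), (4, 10), (5, 2),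
      (5, 10), (6, 0), (6, 2), (7, 1), (7, 8), (8, 7), (8, 9), (9, 3), (9, 8), (10, 4), (10, 5)]
    lev := [] }
  links := [[1, 7, 8, 5], [7, 0, 5, 2, 3, 9, 4], [3, 1, 5, 10], [9, 1, 2, 10, 11, 6, 12], [7, 1, 9, 13],
    [10, 2, 1, 0, 8, 14, 15, 16], [12, 3, 11, 17]]
  P := {
    a := 7
    N := 18
    nb := [418, 701, 1066, 7750, 8834, 115975, 137224, 8467, 16545, 12314, 67628, 132168, 131656, 656,
      33056, 81952, 33824, 6208]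
    tri := [(0, 1, 5), (0, 1, 7), (0, 5, 8), (0, 7, 8), (1, 2, 3), (1, 2, 5), (1, 3, 9), (1, 4, 7), (1,
      4, 9), (2, 3, 10), (2, 5, 10), (3, 6, 11), (3, 6, 12), (3, 9, 12), (3, 10, 11), (4, 7, 13),
      (4, 9, 13), (5, 8, 14), (5, 10, 16), (5, 14, 15), (5, 15, 16), (6, 11, 17), (6, 12, 17)]
    fin := [0, 1, 2, 2, 0, 1, 2, 0, 8, 1, 2, 11, 2, 13, 14, 15, 16, 17]
    chd := [(0, 1), (1, 14), (1, 15), (1, 16), (8, 1)]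
    steps := [(0, 7), (0, 4), (1, 5), (1, 9), (2, 3), (2, 6), (2, 10), (2, 12)] }
  rep := [1, 0, 8, 2, 11, 14, 15, 16, 13, 17]

noncomputable def v2068 : Cov.CovD where
  P := 3
  N := 7
  pl := [4, 6, 10]
  lev := [⟨[], [], [(1, 2)], [], [(0, 1, [0]), (1, 2, [0])]⟩,
    ⟨[], [(0, 0), (0, 1), (0, 2)], [(0, 1)], [], [(0, 1, [0]), (2, 0, [1, 2, 5, 6, 7])]⟩,
    ⟨[(0, 1)], [(1, 0), (1, 1), (1, 3)], [], [], [(3, 3, [])]⟩,
    ⟨[(0, 1), (1, 2)], [(1, 0), (1, 1), (1, 3), (2, 0), (2, 3)], [(0, 3), (3, 3)], [4],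
      [(2, 0, [1, 2, 5, 6, 7]), (3, 3, []), (5, 3, [])]⟩,
    ⟨[(0, 1), (1, 2), (1, 3)], [(0, 1), (1, 0), (1, 1), (3, 0)], [(0, 1)], [8], [(0, 1,
      [0]), (2, 0, [1, 2, 5, 6, 7])]⟩,
    ⟨[(0, 1), (0, 2), (1, 2), (1, 3), (1, 4), (2, 3)], [(0, 1), (0, 2), (0, 3), (0, 5), (0,
      6), (0, 7), (1, 0), (1, 1), (1, 2), (1, 3), (1, 5), (1, 6), (1, 7), (2, 2), (2, 3), (2,
      5), (2, 6), (2, 7), (3, 3)], [(2, 3), (2, 5), (2, 6), (2, 7), (3, 5), (3, 6), (3, 7),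
      (5, 6), (5, 7), (6, 7)], [], [(1, 2, [0]), (3, 3, []), (7, 5, [0]), (8, 6, [0]), (9, 7,
      [0])]⟩,
    ⟨[(1, 3), (2, 3)], [(3, 0), (3, 3)], [], [4, 9], [(5, 3, [])]⟩]
  Ta := [((3, 4), 3, 4), ((3, 9), 3, 7), ((5, 2), 3, 0), ((5, 10), 3, 9)]
  Tb := [((0, 1, 6), 1, 2, 8), ((1, 0, 7), 2, 1, 5), ((2, 5, 6), 0, 3, 8), ((3, 4, 9), 3, 4, 7),
    ((4, 3, 10), 4, 3, 9), ((5, 2, 10), 3, 0, 9), ((6, 0, 2), 8, 1, 0), ((7, 1, 8), 5, 2, 6),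
    ((8, 7, 9), 6, 5, 7), ((9, 3, 8), 7, 3, 6), ((10, 4, 5), 9, 4, 3)]
  Tc := [(0, 1, 2), (0, 1, 5), (0, 1, 6), (0, 1, 7), (0, 2, 5), (0, 2, 6), (0, 2, 7), (0, 5, 6),
    (0, 5, 7), (0, 6, 7)]
  Td := [((0, 1), (2, 5), 3), ((0, 1), (2, 6), 8), ((0, 2), (2, 5), 3), ((0, 2), (2, 6), 8), ((0,
    5), (2, 5), 3), ((0, 5), (2, 6), 8), ((0, 6), (2, 5), 3), ((0, 6), (2, 6), 8), ((0, 7),
    (2, 5), 3), ((0, 7), (2, 6), 8), ((1, 0), (0, 1), 2), ((1, 0), (0, 6), 8), ((2, 0), (1,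
    0), 1), ((2, 0), (1, 7), 5), ((5, 0), (7, 1), 2), ((5, 0), (7, 8), 6), ((6, 0), (8, 7),
    5), ((6, 0), (8, 9), 7), ((7, 0), (9, 3), 3), ((7, 0), (9, 8), 6)]
  G := [[0, 0xc121a191cb121ac14e348, 0xa114c112661188c8, 0xa14447161c218c818d1c1c6ac8,
    0xa1a15446161c8c1c1c2a184bc8], [0, 0x3131a24919165151cc1a4, 0x5114231129118ac8,
    0x3131c29191c8a45151c428c, 0x314251515467182d191c8ac5184289]]

noncomputable def n2068 : Ent := ⟨e2068, noF, [], [], [(15, 17, [6903326391201334775872065844685381424292761054348340378595029938155521, 0])]⟩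

def c2068 : PLift (Cov.check n2068.C.D v2068 = true) := ⟨by decide +kernel⟩

def b2068 : PLift (entF (fidx ts) 400 2068 n2068 = true) := ⟨by decide +kernel⟩

theorem g2068 : GoodF (fidx ts) 400 2068 := GoodF.ofV v2068 n2068 c2068.down b2068.down

/-- 4747484:1752/1 -/
noncomputable def e2069 : SCfg where
  D := {
    a := 7
    L := 10
    kp := 8
    inn := [(0, 1), (0, 5), (1, 0), (1, 2), (1, 3), (1, 4), (1, 5), (2, 1), (2, 3), (2, 5), (3, 1), (3,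
      2), (4, 1), (5, 0), (5, 1), (5, 2), (5, 6), (6, 5)]
    mix := [(0, 0), (0, 1), (1, 0), (1, 2), (2, 3), (3, 2), (3, 3), (3, 4), (3, 5), (3, 6), (4, 0), (4,
      2), (4, 7), (5, 1), (5, 3), (5, 8), (5, 9), (6, 3), (6, 4), (6, 9)]
    cl := [1, 0, 2, 0, 3, 5, 6, 7, 8, 4]
    chq := [(0, 4), (1, 2), (1, 3), (1, 5), (1, 6), (2, 1), (3, 1), (4, 0), (5, 1), (6, 1)]
    rng := [(0, 1), (0, 7), (1, 0), (1, 8), (2, 6), (2, 7), (3, 4), (4, 3), (4, 5), (4, 9), (5, 4), (5,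
      6), (6, 2), (6, 5), (7, 0), (7, 2), (8, 1), (8, 9), (9, 4), (9, 8)]
    lev := [] }
  links := [[1, 7, 8, 5], [7, 0, 5, 2, 3, 9, 4], [3, 1, 5, 10], [9, 1, 2, 10, 11, 12, 13], [7, 1, 9, 14],
    [10, 2, 1, 0, 8, 15, 16, 6], [10, 5, 16, 11]]
  P := {
    a := 7
    N := 17
    nb := [418, 701, 1066, 15878, 17026, 99655, 68640, 16659, 32929, 24602, 2156, 70728, 10248, 4616,
      656, 65824, 34912]
    tri := [(0, 1, 5), (0, 1, 7), (0, 5, 8), (0, 7, 8), (1, 2, 3), (1, 2, 5), (1, 3, 9), (1, 4, 7), (1,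
      4, 9), (2, 3, 10), (2, 5, 10), (3, 9, 13), (3, 10, 11), (3, 11, 12), (3, 12, 13), (4, 7,
      14), (4, 9, 14), (5, 6, 10), (5, 6, 16), (5, 8, 15), (5, 15, 16), (6, 10, 11), (6, 11, 16)]
    fin := [0, 0, 0, 0, 0, 5, 5, 0, 5, 9, 5, 11, 12, 13, 14, 15, 16]
    chd := [(0, 9), (0, 11), (0, 12), (0, 13), (5, 16)]
    steps := [(0, 1), (0, 2), (0, 3), (0, 4), (0, 7), (5, 6), (5, 8), (5, 10)] }
  rep := [5, 0, 9, 11, 16, 12, 13, 14, 15]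

noncomputable def v2069 : Cov.CovD where
  P := 3
  N := 6
  pl := [7, 8]
  lev := [⟨[], [], [(0, 1)], [], [(0, 1, [2, 3, 5, 6]), (1, 0, [4])]⟩,
    ⟨[], [(0, 0), (0, 1), (0, 2)], [(1, 2)], [], [(0, 1, [2, 3, 5, 6]), (2, 2, [1])]⟩,
    ⟨[(0, 1)], [(1, 0), (1, 1), (1, 2)], [], [], [(3, 0, [4])]⟩,
    ⟨[(0, 1), (1, 2)], [(1, 0), (1, 1), (1, 2), (1, 3), (1, 5), (1, 6), (2, 0), (2, 2), (2,
      3), (2, 5), (2, 6)], [(0, 2), (0, 3), (0, 5), (0, 6), (2, 3), (2, 5), (2, 6), (3, 5),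
      (3, 6), (5, 6)], [], [(2, 2, [1]), (3, 0, [4]), (4, 3, [1]), (5, 5, [1]), (6, 6, [1])]⟩,
    ⟨[(0, 1), (1, 2), (1, 3)], [(0, 1), (1, 1), (1, 2), (3, 2)], [(1, 2)], [7], [(0, 1, [2,
      3, 5, 6]), (2, 2, [1])]⟩,
    ⟨[(0, 1), (0, 2), (1, 2), (1, 3), (1, 4), (2, 3)], [(0, 0), (0, 1), (0, 4), (1, 0), (1,
      1), (1, 2), (1, 4), (2, 0), (2, 4), (3, 0)], [(0, 0), (0, 4)], [8], [(1, 0, [4]), (3,
      0, [4]), (9, 4, [0])]⟩,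
    ⟨[(0, 5), (1, 5), (2, 5)], [(2, 0), (3, 0), (3, 3), (5, 0), (5, 3), (5, 4)], [(0, 3),
      (0, 4), (3, 4)], [], [(3, 0, [4]), (4, 3, [1]), (9, 4, [0])]⟩]
  Ta := [((1, 0), 0, 1), ((1, 8), 0, 8), ((3, 4), 0, 3)]
  Tb := [((0, 1, 7), 1, 0, 7), ((1, 0, 8), 0, 1, 8), ((2, 6, 7), 2, 6, 7), ((4, 3, 5), 3, 0, 5),
    ((4, 3, 9), 3, 0, 4), ((4, 5, 9), 3, 5, 4), ((5, 4, 6), 5, 3, 6), ((6, 2, 5), 6, 2, 5),
    ((7, 0, 2), 7, 1, 2), ((8, 1, 9), 8, 0, 4), ((9, 4, 8), 4, 3, 8)]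
  Tc := [(1, 2, 3), (1, 2, 5), (1, 2, 6), (1, 3, 5), (1, 3, 6), (1, 5, 6)]
  Td := [((0, 4), (1, 0), 1), ((0, 4), (1, 8), 8), ((0, 4), (3, 4), 3), ((1, 2), (0, 1), 0), ((1,
    2), (0, 7), 7), ((1, 3), (0, 1), 0), ((1, 3), (0, 7), 7), ((1, 5), (0, 1), 0), ((1, 5),
    (0, 7), 7), ((1, 6), (0, 1), 0), ((1, 6), (0, 7), 7), ((2, 1), (2, 6), 6), ((2, 1), (2,
    7), 7), ((3, 1), (4, 3), 0), ((3, 1), (4, 5), 5), ((3, 1), (4, 9), 4), ((4, 0), (9, 4),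
    3), ((4, 0), (9, 8), 8), ((5, 1), (5, 4), 3), ((5, 1), (5, 6), 6), ((6, 1), (6, 2), 2),
    ((6, 1), (6, 5), 5)]
  G := [[0, 0x2241e281c8ec641e481ae8e8c12c6, 0xe44211e6827882cc1ea4248c, 0x316126921838c2c18,
    0x593e593e92418], [0, 0, 0xee64462a468c24482eeea88a288426c1, 0xe26e26528e8e8924c1,
    0x44e49281a482eeaeea92c1c]]

noncomputable def n2069 : Ent := ⟨e2069, noF, [], [], []⟩

def c2069 : PLift (Cov.check n2069.C.D v2069 = true) := ⟨by decide +kernel⟩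

def b2069 : PLift (entF (fidx ts) 400 2069 n2069 = true) := ⟨by decide +kernel⟩

theorem g2069 : GoodF (fidx ts) 400 2069 := GoodF.ofV v2069 n2069 c2069.down b2069.down

/-- 4747484:1752 -/
noncomputable def e2070 : SCfg where
  D := {
    a := 7
    L := 11
    kp := 9
    inn := [(0, 1), (0, 5), (1, 0), (1, 2), (1, 3), (1, 4), (1, 5), (2, 1), (2, 3), (2, 5), (3, 1), (3,
      2), (4, 1), (5, 0), (5, 1), (5, 2), (5, 6), (6, 5)]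
    mix := [(0, 0), (0, 1), (1, 0), (1, 2), (2, 3), (3, 2), (3, 3), (3, 4), (3, 5), (3, 6), (4, 0), (4,
      2), (4, 7), (5, 1), (5, 3), (5, 8), (5, 9), (6, 3), (6, 9), (6, 10)]
    cl := [1, 0, 2, 0, 4, 5, 6, 7, 8, 3, 9]
    chq := [(0, 3), (1, 2), (1, 4), (1, 5), (1, 6), (2, 1), (3, 0), (4, 1), (5, 1), (6, 1)]
    rng := [(0, 1), (0, 7), (1, 0), (1, 8), (2, 6), (2, 7), (3, 4), (3, 10), (4, 3), (4, 5), (5, 4),
      (5, 6), (6, 2), (6, 5), (7, 0), (7, 2), (8, 1), (8, 9), (9, 8), (9, 10), (10, 3), (10, 9)]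
    lev := [] }
  links := [[1, 7, 8, 5], [7, 0, 5, 2, 3, 9, 4], [3, 1, 5, 10], [9, 1, 2, 10, 11, 12, 13], [7, 1, 9, 14],
    [10, 2, 1, 0, 8, 15, 16, 6], [10, 5, 16, 17]]
  P := {
    a := 7
    N := 18
    nb := [418, 701, 1066, 15878, 17026, 99655, 197664, 16659, 32929, 24602, 133228, 5128, 10248,
      4616, 656, 65824, 163936, 66624]
    tri := [(0, 1, 5), (0, 1, 7), (0, 5, 8), (0, 7, 8), (1, 2, 3), (1, 2, 5), (1, 3, 9), (1, 4, 7), (1,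
      4, 9), (2, 3, 10), (2, 5, 10), (3, 9, 13), (3, 10, 11), (3, 11, 12), (3, 12, 13), (4, 7,
      14), (4, 9, 14), (5, 6, 10), (5, 6, 16), (5, 8, 15), (5, 15, 16), (6, 10, 17), (6, 16, 17)]
    fin := [0, 0, 0, 0, 0, 5, 5, 0, 5, 9, 5, 11, 12, 13, 14, 15, 16, 17]
    chd := [(0, 9), (0, 11), (0, 12), (0, 13), (5, 16)]
    steps := [(0, 1), (0, 2), (0, 3), (0, 4), (0, 7), (5, 6), (5, 8), (5, 10)] }
  rep := [5, 0, 9, 16, 11, 12, 13, 14, 15, 17]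

noncomputable def v2070 : Cov.CovD where
  P := 3
  N := 7
  pl := [7, 8, 10]
  lev := [⟨[], [], [(0, 1)], [], [(0, 1, [2, 4, 5, 6]), (1, 0, [3])]⟩,
    ⟨[], [(0, 0), (0, 1), (0, 2)], [(1, 2)], [], [(0, 1, [2, 4, 5, 6]), (2, 2, [1])]⟩,
    ⟨[(0, 1)], [(1, 0), (1, 1), (1, 2)], [], [], [(3, 0, [3])]⟩,
    ⟨[(0, 1), (1, 2)], [(1, 0), (1, 1), (1, 2), (1, 4), (1, 5), (1, 6), (2, 0), (2, 2), (2,
      4), (2, 5), (2, 6)], [(0, 2), (0, 4), (0, 5), (0, 6), (2, 4), (2, 5), (2, 6), (4, 5),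
      (4, 6), (5, 6)], [], [(2, 2, [1]), (3, 0, [3]), (4, 4, [1]), (5, 5, [1]), (6, 6, [1])]⟩,
    ⟨[(0, 1), (1, 2), (1, 3)], [(0, 1), (1, 1), (1, 2), (3, 2)], [(1, 2)], [7], [(0, 1, [2,
      4, 5, 6]), (2, 2, [1])]⟩,
    ⟨[(0, 1), (0, 2), (1, 2), (1, 3), (1, 4), (2, 3)], [(0, 0), (0, 1), (0, 3), (1, 0), (1,
      1), (1, 2), (1, 3), (2, 0), (2, 3), (3, 0)], [(0, 0), (0, 3)], [8], [(1, 0, [3]), (3,
      0, [3]), (9, 3, [0])]⟩,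
    ⟨[(0, 5), (1, 5), (2, 5)], [(2, 0), (3, 0), (5, 0), (5, 3)], [(0, 3)], [9], [(3, 0,
      [3]), (9, 3, [0])]⟩]
  Ta := [((1, 0), 0, 1), ((1, 8), 0, 8), ((3, 4), 0, 4), ((3, 10), 0, 9)]
  Tb := [((0, 1, 7), 1, 0, 7), ((1, 0, 8), 0, 1, 8), ((2, 6, 7), 2, 6, 7), ((3, 4, 10), 0, 4, 9),
    ((4, 3, 5), 4, 0, 5), ((5, 4, 6), 5, 4, 6), ((6, 2, 5), 6, 2, 5), ((7, 0, 2), 7, 1, 2),
    ((8, 1, 9), 8, 0, 3), ((9, 8, 10), 3, 8, 9), ((10, 3, 9), 9, 0, 3)]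
  Tc := [(1, 2, 4), (1, 2, 5), (1, 2, 6), (1, 4, 5), (1, 4, 6), (1, 5, 6)]
  Td := [((0, 3), (1, 0), 1), ((0, 3), (1, 8), 8), ((0, 3), (3, 4), 4), ((0, 3), (3, 10), 9),
    ((1, 2), (0, 1), 0), ((1, 2), (0, 7), 7), ((1, 4), (0, 1), 0), ((1, 4), (0, 7), 7), ((1,
    5), (0, 1), 0), ((1, 5), (0, 7), 7), ((1, 6), (0, 1), 0), ((1, 6), (0, 7), 7), ((2, 1),
    (2, 6), 6), ((2, 1), (2, 7), 7), ((3, 0), (9, 8), 8), ((3, 0), (9, 10), 9), ((4, 1), (4,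
    3), 0), ((4, 1), (4, 5), 5), ((5, 1), (5, 4), 4), ((5, 1), (5, 6), 6), ((6, 1), (6, 2),
    2), ((6, 1), (6, 5), 5)]
  G := [[0, 0xe241e281c8e4414481aeace8c12c6, 0xe4421b16828c39a424e8821cc, 0xb49b6521ba3852c84,
    0x593e593e92814], [0, 0, 0xee6e4626842e482eeea88a288426c1, 0x44ee6c281ae6128e8e89249c,
    0xee6e49281e8eea9241c]]

noncomputable def n2070 : Ent := ⟨e2070, noF, [], [], [(17, 11, [6903326391201334778116932359625648306653620957400551096786542324174849, 0])]⟩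

def c2070 : PLift (Cov.check n2070.C.D v2070 = true) := ⟨by decide +kernel⟩

def b2070 : PLift (entF (fidx ts) 400 2070 n2070 = true) := ⟨by decide +kernel⟩

theorem g2070 : GoodF (fidx ts) 400 2070 := GoodF.ofV v2070 n2070 c2070.down b2070.down

/-- 4747644:1758/2 -/
noncomputable def e2071 : SCfg where
  D := {
    a := 7
    L := 9
    kp := 6
    inn := [(0, 1), (1, 0), (1, 2), (1, 3), (1, 4), (2, 1), (2, 3), (3, 1), (3, 2), (3, 5), (4, 1), (4,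
      6), (5, 3), (6, 4)]
    mix := [(0, 0), (0, 1), (0, 2), (1, 0), (1, 2), (1, 3), (2, 2), (2, 4), (3, 3), (3, 4), (3, 5), (3,
      6), (4, 0), (4, 3), (4, 7), (4, 8), (5, 1), (5, 4), (5, 5), (6, 3), (6, 6), (6, 7)]
    cl := [0, 4, 2, 0, 1, 5, 1, 3, 6]
    chq := [(0, 2), (0, 3), (2, 0), (3, 0)]
    rng := [(0, 1), (0, 8), (1, 0), (1, 2), (1, 4), (1, 5), (2, 1), (2, 4), (3, 6), (4, 1), (4, 2), (5,
      1), (5, 6), (6, 3), (6, 5), (6, 7), (7, 6), (7, 8), (8, 0), (8, 7)]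
    lev := [] }
  links := [[1, 7, 8, 9], [7, 0, 9, 2, 3, 10, 4], [3, 1, 9, 11], [10, 1, 2, 11, 5, 12, 13], [7, 1, 10, 6,
    14, 15], [12, 3, 11, 8], [14, 4, 10, 13]]
  P := {
    a := 7
    N := 16
    nb := [898, 1693, 2570, 15398, 50370, 6408, 25616, 33043, 6817, 2311, 8282, 812, 8488, 21576,
      41040, 16528]
    tri := [(0, 1, 7), (0, 1, 9), (0, 7, 8), (0, 8, 9), (1, 2, 3), (1, 2, 9), (1, 3, 10), (1, 4, 7),
      (1, 4, 10), (2, 3, 11), (2, 9, 11), (3, 5, 11), (3, 5, 12), (3, 10, 13), (3, 12, 13), (4, 6,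
      10), (4, 6, 14), (4, 7, 15), (4, 14, 15), (5, 8, 11), (5, 8, 12), (6, 10, 13), (6, 13, 14)]
    fin := [0, 0, 0, 3, 0, 5, 0, 0, 5, 9, 0, 3, 12, 3, 14, 15]
    chd := [(0, 9), (0, 14)]
    steps := [(0, 1), (0, 2), (0, 4), (0, 6), (0, 7), (0, 10), (3, 11), (3, 13), (5, 8)] }
  rep := [0, 3, 9, 14, 5, 12, 15]

noncomputable def v2071 : Cov.CovD where
  P := 3
  N := 4
  pl := [1, 5, 8]
  lev := [⟨[], [], [(0, 2)], [4], [(0, 0, [2, 3]), (2, 2, [0])]⟩,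
    ⟨[], [(0, 0), (0, 2)], [(0, 0), (0, 2)], [], [(0, 0, [2, 3]), (2, 2, [0]), (3, 0, [2,
      3])]⟩,
    ⟨[(0, 1)], [(0, 2), (1, 0), (1, 1), (1, 2)], [(1, 2)], [], [(2, 2, [0]), (4, 1, [])]⟩,
    ⟨[(0, 1), (1, 2)], [(1, 0), (1, 1), (1, 2), (2, 0), (2, 1), (2, 2)], [(0, 1), (1, 1)],
      [5], [(3, 0, [2, 3]), (4, 1, []), (6, 1, [])]⟩,
    ⟨[(0, 1), (1, 2), (1, 3)], [(0, 0), (1, 0), (1, 2), (1, 3), (3, 0)], [(0, 0), (0, 3)],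
      [6], [(0, 0, [2, 3]), (3, 0, [2, 3]), (7, 3, [0])]⟩,
    ⟨[(1, 3), (2, 3)], [(2, 1), (3, 0), (3, 1)], [], [4, 5], [(4, 1, [])]⟩,
    ⟨[(1, 4)], [(1, 0), (3, 0), (3, 1), (4, 0), (4, 1), (4, 3)], [(0, 1), (0, 3), (1, 3)],
      [], [(3, 0, [2, 3]), (6, 1, []), (7, 3, [0])]⟩]
  Ta := [((0, 1), 0, 4), ((0, 8), 0, 6), ((3, 6), 0, 1), ((4, 1), 1, 4), ((4, 2), 1, 2), ((6, 3),
    1, 0), ((6, 5), 1, 5), ((6, 7), 1, 3)]
  Tb := [((0, 1, 8), 0, 4, 6), ((1, 0, 2), 4, 0, 2), ((1, 0, 4), 4, 0, 1), ((1, 0, 5), 4, 0, 5),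
    ((1, 2, 4), 4, 2, 1), ((1, 2, 5), 4, 2, 5), ((1, 4, 5), 4, 1, 5), ((2, 1, 4), 2, 4, 1),
    ((4, 1, 2), 1, 4, 2), ((5, 1, 6), 5, 4, 1), ((6, 3, 5), 1, 0, 5), ((6, 3, 7), 1, 0, 3),
    ((6, 5, 7), 1, 5, 3), ((7, 6, 8), 3, 1, 6), ((8, 0, 7), 6, 0, 3)]
  Tc := [(0, 2, 3)]
  Td := [((0, 2), (0, 1), 4), ((0, 2), (0, 8), 6), ((0, 2), (3, 6), 1), ((0, 3), (0, 1), 4), ((0,
    3), (0, 8), 6), ((0, 3), (3, 6), 1), ((2, 0), (2, 1), 4), ((2, 0), (2, 4), 1), ((3, 0),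
    (7, 6), 1), ((3, 0), (7, 8), 6)]
  G := [[0, 0, 0x284818e814111ec42114111e844414ec82c,
    0x4111641882818e818c1c114244414ec181c1a88cc, 0x284818e814111ec1221116242414ec121881aa],
    [0, 0, 0x41442811211e1212ac8c2, 0, 0x1221152c182449c18542cc1a2], [0, 0,
    0x184818e814111ec1214244111682424c4d21884ac, 0x245cc56222d449cc9ec121881c1,
    0x2121cc9e822d244dcc5ec121], [0, 0x81a121e81a121ea841, 0x121211e122c88141c4862, 0,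
    0x8141c2e8242c1ec121]]

noncomputable def n2071 : Ent := ⟨e2071, noF, [], [], []⟩

def c2071 : PLift (Cov.check n2071.C.D v2071 = true) := ⟨by decide +kernel⟩

def b2071 : PLift (entF (fidx ts) 400 2071 n2071 = true) := ⟨by decide +kernel⟩

theorem g2071 : GoodF (fidx ts) 400 2071 := GoodF.ofV v2071 n2071 c2071.down b2071.down

/-- 4747644:1758/1 -/
noncomputable def e2072 : SCfg where
  D := {
    a := 7
    L := 10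
    kp := 7
    inn := [(0, 1), (1, 0), (1, 2), (1, 3), (1, 4), (2, 1), (2, 3), (3, 1), (3, 2), (3, 5), (4, 1), (4,
      6), (5, 3), (6, 4)]
    mix := [(0, 0), (0, 1), (0, 2), (1, 0), (1, 2), (1, 3), (2, 2), (2, 4), (3, 3), (3, 4), (3, 5), (3,
      6), (4, 0), (4, 3), (4, 7), (4, 8), (5, 1), (5, 4), (5, 5), (6, 3), (6, 7), (6, 9)]
    cl := [0, 4, 2, 0, 1, 5, 1, 3, 6, 7]
    chq := [(0, 2), (0, 3), (2, 0), (3, 0)]
    rng := [(0, 1), (0, 8), (1, 0), (1, 2), (1, 4), (1, 5), (2, 1), (2, 4), (3, 6), (3, 9), (4, 1), (4,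
      2), (5, 1), (5, 6), (6, 3), (6, 5), (7, 8), (7, 9), (8, 0), (8, 7), (9, 3), (9, 7)]
    lev := [] }
  links := [[1, 7, 8, 9], [7, 0, 9, 2, 3, 10, 4], [3, 1, 9, 11], [10, 1, 2, 11, 5, 12, 13], [7, 1, 10, 6,
    14, 15], [12, 3, 11, 8], [14, 4, 10, 16]]
  P := {
    a := 7
    N := 17
    nb := [898, 1693, 2570, 15398, 50370, 6408, 82960, 33043, 6817, 2311, 73818, 812, 8488, 5128,
      98384, 16528, 17472]
    tri := [(0, 1, 7), (0, 1, 9), (0, 7, 8), (0, 8, 9), (1, 2, 3), (1, 2, 9), (1, 3, 10), (1, 4, 7),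
      (1, 4, 10), (2, 3, 11), (2, 9, 11), (3, 5, 11), (3, 5, 12), (3, 10, 13), (3, 12, 13), (4, 6,
      10), (4, 6, 14), (4, 7, 15), (4, 14, 15), (5, 8, 11), (5, 8, 12), (6, 10, 16), (6, 14, 16)]
    fin := [0, 0, 0, 3, 0, 5, 0, 0, 5, 9, 0, 3, 12, 3, 14, 15, 16]
    chd := [(0, 9), (0, 14)]
    steps := [(0, 1), (0, 2), (0, 4), (0, 6), (0, 7), (0, 10), (3, 11), (3, 13), (5, 8)] }
  rep := [0, 3, 9, 14, 5, 12, 15, 16]

noncomputable def v2072 : Cov.CovD where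
  P := 3
  N := 5
  pl := [1, 5, 8, 9]
  lev := [⟨[], [], [(0, 2)], [4], [(0, 0, [2, 3]), (2, 2, [0])]⟩,
    ⟨[], [(0, 0), (0, 2)], [(0, 0), (0, 2)], [], [(0, 0, [2, 3]), (2, 2, [0]), (3, 0, [2,
      3])]⟩,
    ⟨[(0, 1)], [(0, 2), (1, 0), (1, 1), (1, 2)], [(1, 2)], [], [(2, 2, [0]), (4, 1, [])]⟩,
    ⟨[(0, 1), (1, 2)], [(1, 0), (1, 1), (1, 2), (2, 0), (2, 1), (2, 2)], [(0, 1), (1, 1)],
      [5], [(3, 0, [2, 3]), (4, 1, []), (6, 1, [])]⟩,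
    ⟨[(0, 1), (1, 2), (1, 3)], [(0, 0), (1, 0), (1, 2), (1, 3), (3, 0)], [(0, 0), (0, 3)],
      [6], [(0, 0, [2, 3]), (3, 0, [2, 3]), (7, 3, [0])]⟩,
    ⟨[(1, 3), (2, 3)], [(2, 1), (3, 0), (3, 1)], [], [4, 5], [(4, 1, [])]⟩,
    ⟨[(1, 4)], [(1, 0), (3, 0), (4, 0), (4, 3)], [(0, 3)], [7], [(3, 0, [2, 3]), (7, 3,
      [0])]⟩]
  Ta := [((0, 1), 0, 4), ((0, 8), 0, 6), ((3, 6), 0, 1), ((3, 9), 0, 7), ((4, 1), 1, 4), ((4, 2),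
    1, 2), ((6, 3), 1, 0), ((6, 5), 1, 5)]
  Tb := [((0, 1, 8), 0, 4, 6), ((1, 0, 2), 4, 0, 2), ((1, 0, 4), 4, 0, 1), ((1, 0, 5), 4, 0, 5),
    ((1, 2, 4), 4, 2, 1), ((1, 2, 5), 4, 2, 5), ((1, 4, 5), 4, 1, 5), ((2, 1, 4), 2, 4, 1),
    ((3, 6, 9), 0, 1, 7), ((4, 1, 2), 1, 4, 2), ((5, 1, 6), 5, 4, 1), ((6, 3, 5), 1, 0, 5),
    ((7, 8, 9), 3, 6, 7), ((8, 0, 7), 6, 0, 3), ((9, 3, 7), 7, 0, 3)]
  Tc := [(0, 2, 3)]
  Td := [((0, 2), (0, 1), 4), ((0, 2), (0, 8), 6), ((0, 2), (3, 6), 1), ((0, 2), (3, 9), 7), ((0,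
    3), (0, 1), 4), ((0, 3), (0, 8), 6), ((0, 3), (3, 6), 1), ((0, 3), (3, 9), 7), ((2, 0),
    (2, 1), 4), ((2, 0), (2, 4), 1), ((3, 0), (7, 8), 6), ((3, 0), (7, 9), 7)]
  G := [[0, 0, 0x181818e111111ec1211116141414ec111888ac,
    0x51444583898e3191ac1c31516349454ec191881cc, 0x385898e513191ec1291516347454ec131881aa],
    [0, 0, 0x121212e1111ac11144462, 0, 0x133215511eb1e6ec19252c88a2], [0, 0,
    0x11441181818e1111ac1c111111e141414ec12c, 0xe144eed4c1eeeda8eeedee1e1ac1c1,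
    0xe12ee5eeed6c1ee9ee9cee58c1a1], [0, 0xe14e1468e1e1ae1e1aa4c1, 0x12116121112ec111882c2,
    0, 0xe1e16e22c1e28e1e2cc8a1]]

noncomputable def n2072 : Ent := ⟨e2072, noF, [], [], [(13, 16, [1580044410770988437309982408355971841652082177953823432505697595393, 0])]⟩

def c2072 : PLift (Cov.check n2072.C.D v2072 = true) := ⟨by decide +kernel⟩

def b2072 : PLift (entF (fidx ts) 400 2072 n2072 = true) := ⟨by decide +kernel⟩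

theorem g2072 : GoodF (fidx ts) 400 2072 := GoodF.ofV v2072 n2072 c2072.down b2072.down

/-- 4747644:1758/3 -/
noncomputable def e2073 : SCfg where
  D := {
    a := 7
    L := 10
    kp := 7
    inn := [(0, 1), (1, 0), (1, 2), (1, 3), (1, 4), (2, 1), (2, 3), (3, 1), (3, 2), (3, 5), (4, 1), (4,
      6), (5, 3), (6, 4)]
    mix := [(0, 0), (0, 1), (0, 2), (1, 0), (1, 2), (1, 3), (2, 2), (2, 4), (3, 3), (3, 4), (3, 5), (3,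
      6), (4, 0), (4, 3), (4, 7), (4, 8), (5, 4), (5, 5), (5, 7), (6, 3), (6, 7), (6, 9)]
    cl := [0, 5, 2, 0, 1, 4, 1, 3, 6, 7]
    chq := [(0, 2), (0, 3), (2, 0), (3, 0)]
    rng := [(0, 1), (0, 8), (1, 0), (1, 2), (2, 1), (2, 4), (3, 6), (3, 9), (4, 2), (4, 7), (5, 6), (5,
      7), (6, 3), (6, 5), (7, 4), (7, 5), (7, 8), (7, 9), (8, 0), (8, 7), (9, 3), (9, 7)]
    lev := [] }
  links := [[1, 7, 8, 9], [7, 0, 9, 2, 3, 10, 4], [3, 1, 9, 11], [10, 1, 2, 11, 5, 12, 13], [7, 1, 10, 6,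
    14, 15], [12, 3, 11, 14], [14, 4, 10, 16]]
  P := {
    a := 7
    N := 17
    nb := [898, 1693, 2570, 15398, 50370, 22536, 82960, 33043, 641, 2311, 73818, 16940, 24616, 5128,
      104560, 16528, 17472]
    tri := [(0, 1, 7), (0, 1, 9), (0, 7, 8), (0, 8, 9), (1, 2, 3), (1, 2, 9), (1, 3, 10), (1, 4, 7),
      (1, 4, 10), (2, 3, 11), (2, 9, 11), (3, 5, 11), (3, 5, 12), (3, 10, 13), (3, 12, 13), (4, 6,
      10), (4, 6, 14), (4, 7, 15), (4, 14, 15), (5, 11, 14), (5, 12, 14), (6, 10, 16), (6, 14,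
      16)]
    fin := [0, 0, 0, 3, 0, 3, 0, 0, 8, 9, 0, 3, 12, 3, 14, 15, 16]
    chd := [(0, 9), (0, 14)]
    steps := [(0, 1), (0, 2), (0, 4), (0, 6), (0, 7), (0, 10), (3, 5), (3, 11), (3, 13)] }
  rep := [0, 3, 9, 14, 12, 8, 15, 16]

noncomputable def v2073 : Cov.CovD where
  P := 3
  N := 5
  pl := [1, 5, 8, 9]
  lev := [⟨[], [], [(0, 2)], [5], [(0, 0, [2, 3]), (2, 2, [0])]⟩,
    ⟨[], [(0, 0), (0, 2)], [(0, 0), (0, 2)], [], [(0, 0, [2, 3]), (2, 2, [0]), (3, 0, [2,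
      3])]⟩,
    ⟨[(0, 1)], [(0, 2), (1, 0), (1, 1), (1, 2)], [(1, 2)], [], [(2, 2, [0]), (4, 1, [])]⟩,
    ⟨[(0, 1), (1, 2)], [(1, 0), (1, 1), (1, 2), (2, 0), (2, 1), (2, 2)], [(0, 1), (1, 1)],
      [4], [(3, 0, [2, 3]), (4, 1, []), (6, 1, [])]⟩,
    ⟨[(0, 1), (1, 2), (1, 3)], [(0, 0), (1, 0), (1, 2), (1, 3), (3, 0)], [(0, 0), (0, 3)],
      [6], [(0, 0, [2, 3]), (3, 0, [2, 3]), (7, 3, [0])]⟩,
    ⟨[(1, 3), (2, 3)], [(2, 1), (3, 0), (3, 1), (3, 3), (4, 3)], [(1, 3)], [4], [(4, 1,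
      []), (7, 3, [0])]⟩,
    ⟨[(1, 4)], [(1, 0), (3, 0), (4, 0), (4, 3), (5, 3)], [(0, 3)], [7], [(3, 0, [2, 3]),
      (7, 3, [0])]⟩]
  Ta := [((0, 1), 0, 5), ((0, 8), 0, 6), ((3, 6), 0, 1), ((3, 9), 0, 7), ((4, 2), 1, 2), ((4, 7),
    1, 3), ((6, 3), 1, 0), ((6, 5), 1, 4)]
  Tb := [((0, 1, 8), 0, 5, 6), ((1, 0, 2), 5, 0, 2), ((2, 1, 4), 2, 5, 1), ((3, 6, 9), 0, 1, 7),
    ((4, 2, 7), 1, 2, 3), ((5, 6, 7), 4, 1, 3), ((6, 3, 5), 1, 0, 4), ((7, 4, 5), 3, 1, 4),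
    ((7, 4, 8), 3, 1, 6), ((7, 4, 9), 3, 1, 7), ((7, 5, 8), 3, 4, 6), ((7, 5, 9), 3, 4, 7),
    ((7, 8, 9), 3, 6, 7), ((8, 0, 7), 6, 0, 3), ((9, 3, 7), 7, 0, 3)]
  Tc := [(0, 2, 3)]
  Td := [((0, 2), (0, 1), 5), ((0, 2), (0, 8), 6), ((0, 2), (3, 6), 1), ((0, 2), (3, 9), 7), ((0,
    3), (0, 1), 5), ((0, 3), (0, 8), 6), ((0, 3), (3, 6), 1), ((0, 3), (3, 9), 7), ((2, 0),
    (2, 1), 5), ((2, 0), (2, 4), 1), ((3, 0), (7, 4), 1), ((3, 0), (7, 5), 4), ((3, 0), (7,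
    8), 6), ((3, 0), (7, 9), 7)]
  G := [[0, 0, 0x18115111de111111ec421811115e1114119ec12c,
    0x94161d641a811d1e318c1c1141164b1ec178116da81cc,
    0xb114d15e43851919e892913165174131dec158881aa], [0, 0,
    0x181112e111411ec12181112e111411ec12c, 0, 0x5292d1ea111d2ec82611161812163ec1a2818aa], [0,
    0, 0x1811119e811114115e41611841811119e141156c52c, 0x6464646148ca8a69aa1a1ac1c1,
    0xe12a6ad2c1e1e4c4e8e1c89a1], [0, 0xe1441464e12e1e1ae1a1ce8c1,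
    0x181212e121411ec1211116111412ec112888ac, 0, 0x64e264e128aa861ca28c1a1]]

noncomputable def n2073 : Ent := ⟨e2073, noF, [], [], []⟩

def c2073 : PLift (Cov.check n2073.C.D v2073 = true) := ⟨by decide +kernel⟩

def b2073 : PLift (entF (fidx ts) 400 2073 n2073 = true) := ⟨by decide +kernel⟩

theorem g2073 : GoodF (fidx ts) 400 2073 := GoodF.ofV v2073 n2073 c2073.down b2073.down

/-- 4747644:1758/5 -/
noncomputable def e2074 : SCfg where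
  D := {
    a := 7
    L := 9
    kp := 6
    inn := [(0, 1), (1, 0), (1, 2), (1, 3), (1, 4), (2, 1), (2, 3), (3, 1), (3, 2), (3, 5), (4, 1), (4,
      6), (5, 3), (6, 4)]
    mix := [(0, 0), (0, 1), (0, 2), (1, 0), (1, 2), (1, 3), (2, 2), (2, 4), (3, 3), (3, 4), (3, 5), (3,
      6), (4, 0), (4, 3), (4, 7), (4, 8), (5, 4), (5, 5), (5, 8), (6, 3), (6, 6), (6, 7)]
    cl := [0, 6, 2, 0, 1, 4, 1, 3, 5]
    chq := [(0, 2), (0, 3), (2, 0), (3, 0)]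
    rng := [(0, 1), (0, 8), (1, 0), (1, 2), (2, 1), (2, 4), (3, 6), (4, 2), (4, 8), (5, 6), (5, 8), (6,
      3), (6, 5), (6, 7), (7, 6), (7, 8), (8, 0), (8, 4), (8, 5), (8, 7)]
    lev := [] }
  links := [[1, 7, 8, 9], [7, 0, 9, 2, 3, 10, 4], [3, 1, 9, 11], [10, 1, 2, 11, 5, 12, 13], [7, 1, 10, 6,
    14, 15], [12, 3, 11, 15], [14, 4, 10, 13]]
  P := {
    a := 7
    N := 16
    nb := [898, 1693, 2570, 15398, 50370, 38920, 25616, 33043, 641, 2311, 8282, 33324, 41000, 21576,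
      41040, 22704]
    tri := [(0, 1, 7), (0, 1, 9), (0, 7, 8), (0, 8, 9), (1, 2, 3), (1, 2, 9), (1, 3, 10), (1, 4, 7),
      (1, 4, 10), (2, 3, 11), (2, 9, 11), (3, 5, 11), (3, 5, 12), (3, 10, 13), (3, 12, 13), (4, 6,
      10), (4, 6, 14), (4, 7, 15), (4, 14, 15), (5, 11, 15), (5, 12, 15), (6, 10, 13), (6, 13,
      14)]
    fin := [0, 0, 0, 3, 0, 3, 0, 0, 8, 9, 0, 3, 12, 3, 14, 15]
    chd := [(0, 9), (0, 14)]
    steps := [(0, 1), (0, 2), (0, 4), (0, 6), (0, 7), (0, 10), (3, 5), (3, 11), (3, 13)] }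
  rep := [0, 3, 9, 14, 12, 15, 8]

noncomputable def v2074 : Cov.CovD where
  P := 3
  N := 4
  pl := [1, 5, 8]
  lev := [⟨[], [], [(0, 2)], [6], [(0, 0, [2, 3]), (2, 2, [0])]⟩,
    ⟨[], [(0, 0), (0, 2)], [(0, 0), (0, 2)], [], [(0, 0, [2, 3]), (2, 2, [0]), (3, 0, [2,
      3])]⟩,
    ⟨[(0, 1)], [(0, 2), (1, 0), (1, 1), (1, 2)], [(1, 2)], [], [(2, 2, [0]), (4, 1, [])]⟩,
    ⟨[(0, 1), (1, 2)], [(1, 0), (1, 1), (1, 2), (2, 0), (2, 1), (2, 2)], [(0, 1), (1, 1)],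
      [4], [(3, 0, [2, 3]), (4, 1, []), (6, 1, [])]⟩,
    ⟨[(0, 1), (1, 2), (1, 3)], [(0, 0), (1, 0), (1, 2), (1, 3), (3, 0)], [(0, 0), (0, 3)],
      [5], [(0, 0, [2, 3]), (3, 0, [2, 3]), (7, 3, [0])]⟩,
    ⟨[(1, 3), (2, 3)], [(2, 1), (3, 0), (3, 1)], [], [4, 5], [(4, 1, [])]⟩,
    ⟨[(1, 4)], [(1, 0), (3, 0), (3, 1), (4, 0), (4, 1), (4, 3)], [(0, 1), (0, 3), (1, 3)],
      [], [(3, 0, [2, 3]), (6, 1, []), (7, 3, [0])]⟩]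
  Ta := [((0, 1), 0, 6), ((0, 8), 0, 5), ((3, 6), 0, 1), ((4, 2), 1, 2), ((4, 8), 1, 5), ((6, 3),
    1, 0), ((6, 5), 1, 4), ((6, 7), 1, 3)]
  Tb := [((0, 1, 8), 0, 6, 5), ((1, 0, 2), 6, 0, 2), ((2, 1, 4), 2, 6, 1), ((4, 2, 8), 1, 2, 5),
    ((5, 6, 8), 4, 1, 5), ((6, 3, 5), 1, 0, 4), ((6, 3, 7), 1, 0, 3), ((6, 5, 7), 1, 4, 3),
    ((7, 6, 8), 3, 1, 5), ((8, 0, 4), 5, 0, 1), ((8, 0, 5), 5, 0, 4), ((8, 0, 7), 5, 0, 3),
    ((8, 4, 5), 5, 1, 4), ((8, 4, 7), 5, 1, 3), ((8, 5, 7), 5, 4, 3)]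
  Tc := [(0, 2, 3)]
  Td := [((0, 2), (0, 1), 6), ((0, 2), (0, 8), 5), ((0, 2), (3, 6), 1), ((0, 3), (0, 1), 6), ((0,
    3), (0, 8), 5), ((0, 3), (3, 6), 1), ((2, 0), (2, 1), 6), ((2, 0), (2, 4), 1), ((3, 0),
    (7, 6), 1), ((3, 0), (7, 8), 5)]
  G := [[0, 0, 0x1818115e2121419ec422881211162414181dec58a, 0x5552419c9281c955241559281cc,
    0x284851e1424489dec121122124114dec188129c81aa], [0, 0,
    0x122128212ec1211324282c982112428812c816e, 0, 0x82421c5e824412ec82112424412ec18842c81aa],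
    [0, 0, 0x111d284244411e42128c8968841119e82444115e452c, 0xc12cccd2c181,
    0x8828c1e21214c4dec121], [0, 0x41441226c48821a818a4c1,
    0x888212e818411ec128241112ac4811a8449a4a, 0, 0x8842c1e8144c2ec121]]

noncomputable def n2074 : Ent := ⟨e2074, noF, [], [], []⟩

def c2074 : PLift (Cov.check n2074.C.D v2074 = true) := ⟨by decide +kernel⟩

def b2074 : PLift (entF (fidx ts) 400 2074 n2074 = true) := ⟨by decide +kernel⟩

theorem g2074 : GoodF (fidx ts) 400 2074 := GoodF.ofV v2074 n2074 c2074.down b2074.down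

/-- 4747644:1758/4 -/
noncomputable def e2075 : SCfg where
  D := {
    a := 7
    L := 10
    kp := 7
    inn := [(0, 1), (1, 0), (1, 2), (1, 3), (1, 4), (2, 1), (2, 3), (3, 1), (3, 2), (3, 5), (4, 1), (4,
      6), (5, 3), (6, 4)]
    mix := [(0, 0), (0, 1), (0, 2), (1, 0), (1, 2), (1, 3), (2, 2), (2, 4), (3, 3), (3, 4), (3, 5), (3,
      6), (4, 0), (4, 3), (4, 7), (4, 8), (5, 4), (5, 5), (5, 8), (6, 3), (6, 7), (6, 9)]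
    cl := [0, 6, 2, 0, 1, 4, 1, 3, 5, 7]
    chq := [(0, 2), (0, 3), (2, 0), (3, 0)]
    rng := [(0, 1), (0, 8), (1, 0), (1, 2), (2, 1), (2, 4), (3, 6), (3, 9), (4, 2), (4, 8), (5, 6), (5,
      8), (6, 3), (6, 5), (7, 8), (7, 9), (8, 0), (8, 4), (8, 5), (8, 7), (9, 3), (9, 7)]
    lev := [] }
  links := [[1, 7, 8, 9], [7, 0, 9, 2, 3, 10, 4], [3, 1, 9, 11], [10, 1, 2, 11, 5, 12, 13], [7, 1, 10, 6,
    14, 15], [12, 3, 11, 15], [14, 4, 10, 16]]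
  P := {
    a := 7
    N := 17
    nb := [898, 1693, 2570, 15398, 50370, 38920, 82960, 33043, 641, 2311, 73818, 33324, 41000, 5128,
      98384, 22704, 17472]
    tri := [(0, 1, 7), (0, 1, 9), (0, 7, 8), (0, 8, 9), (1, 2, 3), (1, 2, 9), (1, 3, 10), (1, 4, 7),
      (1, 4, 10), (2, 3, 11), (2, 9, 11), (3, 5, 11), (3, 5, 12), (3, 10, 13), (3, 12, 13), (4, 6,
      10), (4, 6, 14), (4, 7, 15), (4, 14, 15), (5, 11, 15), (5, 12, 15), (6, 10, 16), (6, 14,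
      16)]
    fin := [0, 0, 0, 3, 0, 3, 0, 0, 8, 9, 0, 3, 12, 3, 14, 15, 16]
    chd := [(0, 9), (0, 14)]
    steps := [(0, 1), (0, 2), (0, 4), (0, 6), (0, 7), (0, 10), (3, 5), (3, 11), (3, 13)] }
  rep := [0, 3, 9, 14, 12, 15, 8, 16]

noncomputable def v2075 : Cov.CovD where
  P := 3
  N := 5
  pl := [1, 5, 8, 9]
  lev := [⟨[], [], [(0, 2)], [6], [(0, 0, [2, 3]), (2, 2, [0])]⟩,
    ⟨[], [(0, 0), (0, 2)], [(0, 0), (0, 2)], [], [(0, 0, [2, 3]), (2, 2, [0]), (3, 0, [2,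
      3])]⟩,
    ⟨[(0, 1)], [(0, 2), (1, 0), (1, 1), (1, 2)], [(1, 2)], [], [(2, 2, [0]), (4, 1, [])]⟩,
    ⟨[(0, 1), (1, 2)], [(1, 0), (1, 1), (1, 2), (2, 0), (2, 1), (2, 2)], [(0, 1), (1, 1)],
      [4], [(3, 0, [2, 3]), (4, 1, []), (6, 1, [])]⟩,
    ⟨[(0, 1), (1, 2), (1, 3)], [(0, 0), (1, 0), (1, 2), (1, 3), (3, 0)], [(0, 0), (0, 3)],
      [5], [(0, 0, [2, 3]), (3, 0, [2, 3]), (7, 3, [0])]⟩,
    ⟨[(1, 3), (2, 3)], [(2, 1), (3, 0), (3, 1)], [], [4, 5], [(4, 1, [])]⟩,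
    ⟨[(1, 4)], [(1, 0), (3, 0), (4, 0), (4, 3)], [(0, 3)], [7], [(3, 0, [2, 3]), (7, 3,
      [0])]⟩]
  Ta := [((0, 1), 0, 6), ((0, 8), 0, 5), ((3, 6), 0, 1), ((3, 9), 0, 7), ((4, 2), 1, 2), ((4, 8),
    1, 5), ((6, 3), 1, 0), ((6, 5), 1, 4)]
  Tb := [((0, 1, 8), 0, 6, 5), ((1, 0, 2), 6, 0, 2), ((2, 1, 4), 2, 6, 1), ((3, 6, 9), 0, 1, 7),
    ((4, 2, 8), 1, 2, 5), ((5, 6, 8), 4, 1, 5), ((6, 3, 5), 1, 0, 4), ((7, 8, 9), 3, 5, 7),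
    ((8, 0, 4), 5, 0, 1), ((8, 0, 5), 5, 0, 4), ((8, 0, 7), 5, 0, 3), ((8, 4, 5), 5, 1, 4),
    ((8, 4, 7), 5, 1, 3), ((8, 5, 7), 5, 4, 3), ((9, 3, 7), 7, 0, 3)]
  Tc := [(0, 2, 3)]
  Td := [((0, 2), (0, 1), 6), ((0, 2), (0, 8), 5), ((0, 2), (3, 6), 1), ((0, 2), (3, 9), 7), ((0,
    3), (0, 1), 6), ((0, 3), (0, 8), 5), ((0, 3), (3, 6), 1), ((0, 3), (3, 9), 7), ((2, 0),
    (2, 1), 6), ((2, 0), (2, 4), 1), ((3, 0), (7, 8), 5), ((3, 0), (7, 9), 7)]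
  G := [[0, 0, 0x1111611914111dec111884a1114115e411811119e81c6,
    0x74115641c811179ec18c1c5131651c4135ec11868a81cc,
    0xd871119e29514d55ec12e121174116dec1b8119c81aa], [0, 0,
    0x181111e111412ec12181112e121411ec12c, 0, 0x922383451ee2c2cd82d121214b2ec11812c81aa], [0,
    0, 0x1114111de4181111e8c21111561114119ec118884c6, 0xc14c44c1c86aadac1e1ac1c1,
    0xe46a6d64e1e1689e882c58c1a1], [0, 0xe1e16e14c4e18e1e1aa4c1,
    0x181111e82121412e486181212e121111ec12c, 0, 0xc2e264c1e168ac88c28c1a1]]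

noncomputable def n2075 : Ent := ⟨e2075, noF, [], [], [(13, 16, [1580044410770988437309982408355971841652082177953823432505697607681, 0])]⟩

def c2075 : PLift (Cov.check n2075.C.D v2075 = true) := ⟨by decide +kernel⟩

def b2075 : PLift (entF (fidx ts) 400 2075 n2075 = true) := ⟨by decide +kernel⟩

theorem g2075 : GoodF (fidx ts) 400 2075 := GoodF.ofV v2075 n2075 c2075.down b2075.down

/-- 4747644:1758/6 -/
noncomputable def e2076 : SCfg where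
  D := {
    a := 7
    L := 10
    kp := 7
    inn := [(0, 1), (1, 0), (1, 2), (1, 3), (1, 4), (2, 1), (2, 3), (3, 1), (3, 2), (3, 5), (4, 1), (4,
      6), (5, 3), (6, 4)]
    mix := [(0, 0), (0, 1), (0, 2), (1, 0), (1, 2), (1, 3), (2, 2), (2, 4), (3, 3), (3, 4), (3, 5), (3,
      6), (4, 0), (4, 3), (4, 7), (4, 8), (5, 4), (5, 5), (5, 9), (6, 3), (6, 6), (6, 7)]
    cl := [0, 5, 2, 0, 1, 4, 1, 3, 6, 7]
    chq := [(0, 2), (0, 3), (2, 0), (3, 0)]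
    rng := [(0, 1), (0, 8), (1, 0), (1, 2), (2, 1), (2, 4), (3, 6), (4, 2), (4, 9), (5, 6), (5, 9), (6,
      3), (6, 5), (6, 7), (7, 6), (7, 8), (8, 0), (8, 7), (9, 4), (9, 5)]
    lev := [] }
  links := [[1, 7, 8, 9], [7, 0, 9, 2, 3, 10, 4], [3, 1, 9, 11], [10, 1, 2, 11, 5, 12, 13], [7, 1, 10, 6,
    14, 15], [12, 3, 11, 16], [14, 4, 10, 13]]
  P := {
    a := 7
    N := 17
    nb := [898, 1693, 2570, 15398, 50370, 71688, 25616, 33043, 641, 2311, 8282, 66092, 73768, 21576,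
      41040, 16528, 6176]
    tri := [(0, 1, 7), (0, 1, 9), (0, 7, 8), (0, 8, 9), (1, 2, 3), (1, 2, 9), (1, 3, 10), (1, 4, 7),
      (1, 4, 10), (2, 3, 11), (2, 9, 11), (3, 5, 11), (3, 5, 12), (3, 10, 13), (3, 12, 13), (4, 6,
      10), (4, 6, 14), (4, 7, 15), (4, 14, 15), (5, 11, 16), (5, 12, 16), (6, 10, 13), (6, 13,
      14)]
    fin := [0, 0, 0, 3, 0, 3, 0, 0, 8, 9, 0, 3, 12, 3, 14, 15, 16]
    chd := [(0, 9), (0, 14)]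
    steps := [(0, 1), (0, 2), (0, 4), (0, 6), (0, 7), (0, 10), (3, 5), (3, 11), (3, 13)] }
  rep := [0, 3, 9, 14, 12, 8, 15, 16]

noncomputable def v2076 : Cov.CovD where
  P := 3
  N := 5
  pl := [1, 5, 8, 9]
  lev := [⟨[], [], [(0, 2)], [5], [(0, 0, [2, 3]), (2, 2, [0])]⟩,
    ⟨[], [(0, 0), (0, 2)], [(0, 0), (0, 2)], [], [(0, 0, [2, 3]), (2, 2, [0]), (3, 0, [2,
      3])]⟩,
    ⟨[(0, 1)], [(0, 2), (1, 0), (1, 1), (1, 2)], [(1, 2)], [], [(2, 2, [0]), (4, 1, [])]⟩,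
    ⟨[(0, 1), (1, 2)], [(1, 0), (1, 1), (1, 2), (2, 0), (2, 1), (2, 2)], [(0, 1), (1, 1)],
      [4], [(3, 0, [2, 3]), (4, 1, []), (6, 1, [])]⟩,
    ⟨[(0, 1), (1, 2), (1, 3)], [(0, 0), (1, 0), (1, 2), (1, 3), (3, 0)], [(0, 0), (0, 3)],
      [6], [(0, 0, [2, 3]), (3, 0, [2, 3]), (7, 3, [0])]⟩,
    ⟨[(1, 3), (2, 3)], [(2, 1), (3, 0), (3, 1)], [], [4, 7], [(4, 1, [])]⟩,
    ⟨[(1, 4)], [(1, 0), (3, 0), (3, 1), (4, 0), (4, 1), (4, 3)], [(0, 1), (0, 3), (1, 3)],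
      [], [(3, 0, [2, 3]), (6, 1, []), (7, 3, [0])]⟩]
  Ta := [((0, 1), 0, 5), ((0, 8), 0, 6), ((3, 6), 0, 1), ((4, 2), 1, 2), ((4, 9), 1, 7), ((6, 3),
    1, 0), ((6, 5), 1, 4), ((6, 7), 1, 3)]
  Tb := [((0, 1, 8), 0, 5, 6), ((1, 0, 2), 5, 0, 2), ((2, 1, 4), 2, 5, 1), ((4, 2, 9), 1, 2, 7),
    ((5, 6, 9), 4, 1, 7), ((6, 3, 5), 1, 0, 4), ((6, 3, 7), 1, 0, 3), ((6, 5, 7), 1, 4, 3),
    ((7, 6, 8), 3, 1, 6), ((8, 0, 7), 6, 0, 3), ((9, 4, 5), 7, 1, 4)]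
  Tc := [(0, 2, 3)]
  Td := [((0, 2), (0, 1), 5), ((0, 2), (0, 8), 6), ((0, 2), (3, 6), 1), ((0, 3), (0, 1), 5), ((0,
    3), (0, 8), 6), ((0, 3), (3, 6), 1), ((2, 0), (2, 1), 5), ((2, 0), (2, 4), 1), ((3, 0),
    (7, 6), 1), ((3, 0), (7, 8), 6)]
  G := [[0, 0, 0x285215115e4119429119e8c2115125115e41189129119e81c6,
    0x4451156418481888d229119e818c5c2841414225144d115ec5889519a81cc,
    0x8892191c9e225245115ec12c821912225245111dec9819249c81aa], [0, 0,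
    0x8211611e88312ac848891118e424942116211a11a12ec48e, 0,
    0x814212e82445115e888d8241cc5c642c26588288158c1aa], [0, 0,
    0x889119119e885245115ec12112115415115ec112944918e84ac, 0x225225cc5e41889cc9a8229485c1,
    0x289229cc9e285225cc5ec121], [0, 0x414414688121a8121ac8c1,
    0x81911912e1242115ec12113211a2c488c14cc8242c58aa, 0, 0x88942c2e82445cc5ec121]]

noncomputable def n2076 : Ent := ⟨e2076, noF, [], [], [(8, 16, [1580044410770988437309982408355971841652082177953823432505697595393, 0]), (16, 15, [1685356702439545624007900436039642273970977273354372543760008585217, 0])]⟩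

def c2076 : PLift (Cov.check n2076.C.D v2076 = true) := ⟨by decide +kernel⟩

def b2076 : PLift (entF (fidx ts) 400 2076 n2076 = true) := ⟨by decide +kernel⟩

theorem g2076 : GoodF (fidx ts) 400 2076 := GoodF.ofV v2076 n2076 c2076.down b2076.down

/-- 4747644:1758 -/
noncomputable def e2077 : SCfg where
  D := {
    a := 7
    L := 11
    kp := 8
    inn := [(0, 1), (1, 0), (1, 2), (1, 3), (1, 4), (2, 1), (2, 3), (3, 1), (3, 2), (3, 5), (4, 1), (4,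
      6), (5, 3), (6, 4)]
    mix := [(0, 0), (0, 1), (0, 2), (1, 0), (1, 2), (1, 3), (2, 2), (2, 4), (3, 3), (3, 4), (3, 5), (3,
      6), (4, 0), (4, 3), (4, 7), (4, 8), (5, 4), (5, 5), (5, 9), (6, 3), (6, 7), (6, 10)]
    cl := [0, 7, 2, 0, 1, 3, 1, 4, 5, 8, 6]
    chq := [(0, 2), (2, 0), (5, 6), (6, 5)]
    rng := [(0, 1), (0, 8), (1, 0), (1, 2), (2, 1), (2, 4), (3, 6), (3, 10), (4, 2), (4, 9), (5, 6),
      (5, 9), (6, 3), (6, 5), (7, 8), (7, 10), (8, 0), (8, 7), (9, 4), (9, 5), (10, 3), (10, 7)]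
    lev := [] }
  links := [[1, 7, 8, 9], [7, 0, 9, 2, 3, 10, 4], [3, 1, 9, 11], [10, 1, 2, 11, 5, 12, 13], [7, 1, 10, 6,
    14, 15], [12, 3, 11, 16], [14, 4, 10, 17]]
  P := {
    a := 7
    N := 18
    nb := [898, 1693, 2570, 15398, 50370, 71688, 148496, 33043, 641, 2311, 139354, 66092, 73768, 5128,
      163920, 16528, 6176, 17472]
    tri := [(0, 1, 7), (0, 1, 9), (0, 7, 8), (0, 8, 9), (1, 2, 3), (1, 2, 9), (1, 3, 10), (1, 4, 7),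
      (1, 4, 10), (2, 3, 11), (2, 9, 11), (3, 5, 11), (3, 5, 12), (3, 10, 13), (3, 12, 13), (4, 6,
      10), (4, 6, 14), (4, 7, 15), (4, 14, 15), (5, 11, 16), (5, 12, 16), (6, 10, 17), (6, 14,
      17)]
    fin := [0, 0, 0, 3, 4, 3, 4, 0, 8, 9, 0, 3, 12, 3, 14, 15, 16, 4]
    chd := [(0, 9), (15, 4)]
    steps := [(0, 1), (0, 2), (0, 7), (0, 10), (3, 5), (3, 11), (3, 13), (4, 6), (4, 17)] }
  rep := [0, 3, 9, 12, 14, 15, 4, 8, 16]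

noncomputable def v2077 : Cov.CovD where
  P := 3
  N := 6
  pl := [1, 5, 7, 9]
  lev := [⟨[], [], [(0, 2)], [7], [(0, 0, [2]), (2, 2, [0])]⟩,
    ⟨[], [(0, 0), (0, 2)], [(0, 0), (0, 2)], [], [(0, 0, [2]), (2, 2, [0]), (3, 0, [2])]⟩,
    ⟨[(0, 1)], [(0, 2), (1, 0), (1, 1), (1, 2)], [(1, 2)], [], [(2, 2, [0]), (4, 1, [])]⟩,
    ⟨[(0, 1), (1, 2)], [(1, 0), (1, 1), (1, 2), (2, 0), (2, 1), (2, 2)], [(0, 1), (1, 1)],
      [3], [(3, 0, [2]), (4, 1, []), (6, 1, [])]⟩,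
    ⟨[(0, 1), (1, 2), (1, 3)], [(0, 0), (1, 0), (1, 2), (1, 5), (3, 0)], [(0, 0), (0, 5)],
      [4], [(0, 0, [2]), (3, 0, [2]), (8, 5, [6])]⟩,
    ⟨[(1, 3), (2, 3)], [(2, 1), (3, 0), (3, 1)], [], [3, 8], [(4, 1, [])]⟩,
    ⟨[(1, 4)], [(1, 0), (3, 0), (4, 0), (4, 5), (4, 6)], [(0, 6)], [4], [(3, 0, [2]), (10,
      6, [5])]⟩]
  Ta := [((0, 1), 0, 7), ((0, 8), 0, 5), ((3, 6), 0, 1), ((3, 10), 0, 6), ((4, 2), 1, 2), ((4,
    9), 1, 8), ((6, 3), 1, 0), ((6, 5), 1, 3)]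
  Tb := [((0, 1, 8), 0, 7, 5), ((1, 0, 2), 7, 0, 2), ((2, 1, 4), 2, 7, 1), ((3, 6, 10), 0, 1, 6),
    ((4, 2, 9), 1, 2, 8), ((5, 6, 9), 3, 1, 8), ((6, 3, 5), 1, 0, 3), ((7, 8, 10), 4, 5, 6),
    ((8, 0, 7), 5, 0, 4), ((9, 4, 5), 8, 1, 3), ((10, 3, 7), 6, 0, 4)]
  Tc := []
  Td := [((0, 2), (0, 1), 7), ((0, 2), (0, 8), 5), ((0, 2), (3, 6), 1), ((0, 2), (3, 10), 6),
    ((2, 0), (2, 1), 7), ((2, 0), (2, 4), 1), ((5, 6), (8, 0), 0), ((5, 6), (8, 7), 4), ((6,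
    5), (10, 3), 0), ((6, 5), (10, 7), 4)]
  G := [[0, 0, 0x165395c15e4359199919e892655195915e4319139959e8c2c,
    0x9a51156416481351d1a9959e518c5ca8411141651a1d595ec93399c9a81cc,
    0x159a99519e515935155ec12c82111211cd2c9659999c5159a5cc1aa], [0, 0,
    0xa151c56412c26313866a8dc855921252ac1119a39ca24c466, 0,
    0x3391292e321159c5ec1211c28c625862919c36592cc1aa], [0, 0,
    0x169319599e665995115ec12cc9281165a454e4619139c91116cc6c, 0x665aa5cc5e41669aa9cc9e81c1,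
    0x669aa9cc9e665aa5cc5ec121], [0, 0xa1c1661a1c61c1ae481,
    0x16a13392e613316cc5ec12c1c2c229416aa16c3631a3cc46a, 0, 0x669aa9cc9e62a2c2ec121]]

noncomputable def n2077 : Ent := ⟨e2077, noF, [], [], [(8, 16, [7334685537875745012586738086077695515070955365108989538292687702163457, 0]), (16, 14, [7334685589297762428874426903420482469988158645819485339342058431811585, 0]), (16, 15, [7334790850167413569773436004105379185503274260204390087403942013153281, 0]), (13, 17, [6903326391201334775872065844685381424292761054348340378595029938192385, 0])]⟩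

def c2077 : PLift (Cov.check n2077.C.D v2077 = true) := ⟨by decide +kernel⟩

def b2077 : PLift (entF (fidx ts) 400 2077 n2077 = true) := ⟨by decide +kernel⟩

theorem g2077 : GoodF (fidx ts) 400 2077 := GoodF.ofV v2077 n2077 c2077.down b2077.down

/-- 4747644:1760/2 -/
noncomputable def e2078 : SCfg where
  D := {
    a := 7
    L := 9
    kp := 6
    inn := [(0, 1), (1, 0), (1, 2), (1, 3), (1, 4), (2, 1), (2, 3), (3, 1), (3, 2), (3, 5), (4, 1), (4,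
      6), (5, 3), (6, 4)]
    mix := [(0, 0), (0, 1), (0, 2), (1, 0), (1, 2), (1, 3), (2, 2), (2, 4), (3, 3), (3, 4), (3, 5), (3,
      6), (4, 0), (4, 3), (4, 7), (4, 8), (5, 1), (5, 4), (5, 5), (6, 0), (6, 1), (6, 8)]
    cl := [0, 2, 1, 0, 3, 5, 3, 6, 4]
    chq := [(0, 1), (0, 4), (1, 0), (4, 0)]
    rng := [(0, 1), (1, 0), (1, 2), (1, 4), (1, 5), (1, 8), (2, 1), (2, 4), (3, 6), (3, 7), (4, 1), (4,
      2), (5, 1), (5, 6), (6, 3), (6, 5), (7, 3), (7, 8), (8, 1), (8, 7)]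
    lev := [] }
  links := [[1, 7, 8, 9], [7, 0, 9, 2, 3, 10, 4], [3, 1, 9, 11], [10, 1, 2, 11, 5, 12, 13], [7, 1, 10,
    14, 15, 6], [12, 3, 11, 8], [7, 4, 15, 8]]
  P := {
    a := 7
    N := 16
    nb := [898, 1693, 2570, 15398, 50370, 6408, 33168, 339, 39649, 2311, 24602, 812, 8488, 5128,
      33808, 16720]
    tri := [(0, 1, 7), (0, 1, 9), (0, 7, 8), (0, 8, 9), (1, 2, 3), (1, 2, 9), (1, 3, 10), (1, 4, 7),
      (1, 4, 10), (2, 3, 11), (2, 9, 11), (3, 5, 11), (3, 5, 12), (3, 10, 13), (3, 12, 13), (4, 6,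
      7), (4, 6, 15), (4, 10, 14), (4, 14, 15), (5, 8, 11), (5, 8, 12), (6, 7, 8), (6, 8, 15)]
    fin := [0, 0, 0, 3, 0, 5, 0, 0, 5, 9, 0, 3, 12, 3, 14, 15]
    chd := [(0, 9), (0, 15)]
    steps := [(0, 1), (0, 2), (0, 4), (0, 7), (0, 6), (0, 10), (3, 11), (3, 13), (5, 8)] }
  rep := [0, 9, 5, 3, 15, 12, 14]

noncomputable def v2078 : Cov.CovD where
  P := 3
  N := 4
  pl := [1, 5, 7]
  lev := [⟨[], [], [(0, 1)], [2], [(0, 0, [1, 4]), (2, 1, [0])]⟩,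
    ⟨[], [(0, 0), (0, 1)], [(0, 0), (0, 1)], [], [(0, 0, [1, 4]), (2, 1, [0]), (3, 0, [1,
      4])]⟩,
    ⟨[(0, 1)], [(0, 1), (1, 0), (1, 1), (1, 3)], [(1, 3)], [], [(2, 1, [0]), (4, 3, [])]⟩,
    ⟨[(0, 1), (1, 2)], [(1, 0), (1, 1), (1, 3), (2, 0), (2, 1), (2, 3)], [(0, 3), (3, 3)],
      [5], [(3, 0, [1, 4]), (4, 3, []), (6, 3, [])]⟩,
    ⟨[(0, 1), (1, 2), (1, 3)], [(0, 0), (1, 0), (1, 1), (1, 4), (3, 0)], [(0, 0), (0, 4)],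
      [6], [(0, 0, [1, 4]), (3, 0, [1, 4]), (8, 4, [0])]⟩,
    ⟨[(1, 3), (2, 3)], [(2, 3), (3, 0), (3, 3)], [], [2, 5], [(4, 3, [])]⟩,
    ⟨[(1, 4)], [(0, 0), (1, 0), (4, 0), (4, 4)], [(0, 4)], [2], [(0, 0, [1, 4]), (8, 4,
      [0])]⟩]
  Ta := [((0, 1), 0, 2), ((3, 6), 0, 3), ((3, 7), 0, 6), ((4, 1), 3, 2), ((4, 2), 3, 1), ((6, 3),
    3, 0), ((6, 5), 3, 5)]
  Tb := [((1, 0, 2), 2, 0, 1), ((1, 0, 4), 2, 0, 3), ((1, 0, 5), 2, 0, 5), ((1, 0, 8), 2, 0, 4),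
    ((1, 2, 4), 2, 1, 3), ((1, 2, 5), 2, 1, 5), ((1, 2, 8), 2, 1, 4), ((1, 4, 5), 2, 3, 5),
    ((1, 4, 8), 2, 3, 4), ((1, 5, 8), 2, 5, 4), ((2, 1, 4), 1, 2, 3), ((3, 6, 7), 0, 3, 6),
    ((4, 1, 2), 3, 2, 1), ((5, 1, 6), 5, 2, 3), ((6, 3, 5), 3, 0, 5), ((7, 3, 8), 6, 0, 4),
    ((8, 1, 7), 4, 2, 6)]
  Tc := [(0, 1, 4)]
  Td := [((0, 1), (0, 1), 2), ((0, 1), (3, 6), 3), ((0, 1), (3, 7), 6), ((0, 4), (0, 1), 2), ((0,
    4), (3, 6), 3), ((0, 4), (3, 7), 6), ((1, 0), (2, 1), 2), ((1, 0), (2, 4), 3), ((4, 0),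
    (8, 1), 2), ((4, 0), (8, 7), 6)]
  G := [[0, 0x144414e111111e61181818e81a4, 0x482861644424e624222e6988818c4,
    0x444dcccd621888d821c4, 0xa144488a828e8121a82a222ee1c8], [0, 0x119149c181818e31422584,
    0x886aa6226e1848, 0x449424885ccca21c8, 0xa14418121a82a222e68c8], [0,
    0x181818e111111ea1141414e4168, 0, 0x444d421888dcccda21c1,
    0x1121641881828e818821222ee1c8], [0, 0x881418e141814e3248, 0, 0x88c19c91ce2148,
    0x1844188121a82a222e6849]]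

noncomputable def n2078 : Ent := ⟨e2078, noF, [], [], []⟩

def c2078 : PLift (Cov.check n2078.C.D v2078 = true) := ⟨by decide +kernel⟩

def b2078 : PLift (entF (fidx ts) 400 2078 n2078 = true) := ⟨by decide +kernel⟩

theorem g2078 : GoodF (fidx ts) 400 2078 := GoodF.ofV v2078 n2078 c2078.down b2078.down

/-- 4747644:1760/1 -/
noncomputable def e2079 : SCfg where
  D := {
    a := 7
    L := 10
    kp := 7
    inn := [(0, 1), (1, 0), (1, 2), (1, 3), (1, 4), (2, 1), (2, 3), (3, 1), (3, 2), (3, 5), (4, 1), (4,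
      6), (5, 3), (6, 4)]
    mix := [(0, 0), (0, 1), (0, 2), (1, 0), (1, 2), (1, 3), (2, 2), (2, 4), (3, 3), (3, 4), (3, 5), (3,
      6), (4, 0), (4, 3), (4, 7), (4, 8), (5, 1), (5, 4), (5, 5), (6, 0), (6, 8), (6, 9)]
    cl := [0, 2, 1, 0, 3, 4, 3, 6, 5, 7]
    chq := [(0, 1), (1, 0), (6, 7), (7, 6)]
    rng := [(0, 1), (0, 9), (1, 0), (1, 2), (1, 4), (1, 5), (2, 1), (2, 4), (3, 6), (3, 7), (4, 1), (4,
      2), (5, 1), (5, 6), (6, 3), (6, 5), (7, 3), (7, 8), (8, 7), (8, 9), (9, 0), (9, 8)]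
    lev := [] }
  links := [[1, 7, 8, 9], [7, 0, 9, 2, 3, 10, 4], [3, 1, 9, 11], [10, 1, 2, 11, 5, 12, 13], [7, 1, 10,
    14, 15, 6], [12, 3, 11, 8], [7, 4, 15, 16]]
  P := {
    a := 7
    N := 17
    nb := [898, 1693, 2570, 15398, 50370, 6408, 98448, 65875, 6817, 2311, 24602, 812, 8488, 5128,
      33808, 82000, 32960]
    tri := [(0, 1, 7), (0, 1, 9), (0, 7, 8), (0, 8, 9), (1, 2, 3), (1, 2, 9), (1, 3, 10), (1, 4, 7),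
      (1, 4, 10), (2, 3, 11), (2, 9, 11), (3, 5, 11), (3, 5, 12), (3, 10, 13), (3, 12, 13), (4, 6,
      7), (4, 6, 15), (4, 10, 14), (4, 14, 15), (5, 8, 11), (5, 8, 12), (6, 7, 16), (6, 15, 16)]
    fin := [0, 0, 0, 3, 4, 5, 4, 0, 5, 9, 0, 3, 12, 3, 4, 15, 16]
    chd := [(0, 9), (4, 16)]
    steps := [(0, 1), (0, 2), (0, 7), (0, 10), (3, 11), (3, 13), (4, 6), (4, 14), (5, 8)] }
  rep := [0, 9, 5, 3, 12, 15, 4, 16]

noncomputable def v2079 : Cov.CovD where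
  P := 3
  N := 5
  pl := [1, 5, 8]
  lev := [⟨[], [], [(0, 1)], [2], [(0, 0, [1]), (2, 1, [0])]⟩,
    ⟨[], [(0, 0), (0, 1)], [(0, 0), (0, 1)], [], [(0, 0, [1]), (2, 1, [0]), (3, 0, [1])]⟩,
    ⟨[(0, 1)], [(0, 1), (1, 0), (1, 1), (1, 3)], [(1, 3)], [], [(2, 1, [0]), (4, 3, [])]⟩,
    ⟨[(0, 1), (1, 2)], [(1, 0), (1, 1), (1, 3), (2, 0), (2, 1), (2, 3)], [(0, 3), (3, 3)],
      [4], [(3, 0, [1]), (4, 3, []), (6, 3, [])]⟩,
    ⟨[(0, 1), (1, 2), (1, 3)], [(0, 0), (1, 0), (1, 1), (1, 6), (3, 0)], [(0, 0), (0, 6)],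
      [5], [(0, 0, [1]), (3, 0, [1]), (7, 6, [7])]⟩,
    ⟨[(1, 3), (2, 3)], [(2, 3), (3, 0), (3, 3)], [], [2, 4], [(4, 3, [])]⟩,
    ⟨[(1, 4)], [(0, 0), (1, 0), (4, 0), (4, 6), (4, 7)], [(0, 7)], [5], [(0, 0, [1]), (9,
      7, [6])]⟩]
  Ta := [((0, 1), 0, 2), ((0, 9), 0, 7), ((3, 6), 0, 3), ((3, 7), 0, 6), ((4, 1), 3, 2), ((4, 2),
    3, 1), ((6, 3), 3, 0), ((6, 5), 3, 4)]
  Tb := [((0, 1, 9), 0, 2, 7), ((1, 0, 2), 2, 0, 1), ((1, 0, 4), 2, 0, 3), ((1, 0, 5), 2, 0, 4),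
    ((1, 2, 4), 2, 1, 3), ((1, 2, 5), 2, 1, 4), ((1, 4, 5), 2, 3, 4), ((2, 1, 4), 1, 2, 3),
    ((3, 6, 7), 0, 3, 6), ((4, 1, 2), 3, 2, 1), ((5, 1, 6), 4, 2, 3), ((6, 3, 5), 3, 0, 4),
    ((7, 3, 8), 6, 0, 5), ((8, 7, 9), 5, 6, 7), ((9, 0, 8), 7, 0, 5)]
  Tc := []
  Td := [((0, 1), (0, 1), 2), ((0, 1), (0, 9), 7), ((0, 1), (3, 6), 3), ((0, 1), (3, 7), 6), ((1,
    0), (2, 1), 2), ((1, 0), (2, 4), 3), ((6, 7), (7, 3), 0), ((6, 7), (7, 8), 5), ((7, 6),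
    (9, 0), 0), ((7, 6), (9, 8), 5)]
  G := [[0, 0x11c1622589818e5494c4e318e1a8, 0xa44a2c266166aa8c8e1666c4a1cc8,
    0x666daaadcccde2184, 0xa144468a8c8e61c1a62a2c2ee1c8], [0, 0xc592589818e314a4c2684,
    0x66aaaaccae1484, 0x669aa5ccce2148, 0xa144161c1a62a2c2e68c8], [0,
    0xc12223818c8e1434c4e3111ce168, 0, 0x353d191d919de2184, 0x11444381898ed191a123252ee1c8],
    [0, 0x143884ce18a441ce3248, 0, 0x135315595e2848, 0x11444d898a529212e61c8]]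

noncomputable def n2079 : Ent := ⟨e2079, noF, [], [], [(8, 16, [1580044410770988437309982408355971841652082177953823432505697624065, 0])]⟩

def c2079 : PLift (Cov.check n2079.C.D v2079 = true) := ⟨by decide +kernel⟩

def b2079 : PLift (entF (fidx ts) 400 2079 n2079 = true) := ⟨by decide +kernel⟩

theorem g2079 : GoodF (fidx ts) 400 2079 := GoodF.ofV v2079 n2079 c2079.down b2079.down

/-- 4747644:1760/4 -/
noncomputable def e2080 : SCfg where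
  D := {
    a := 7
    L := 9
    kp := 6
    inn := [(0, 1), (1, 0), (1, 2), (1, 3), (1, 4), (2, 1), (2, 3), (3, 1), (3, 2), (3, 5), (4, 1), (4,
      6), (5, 3), (6, 4)]
    mix := [(0, 0), (0, 1), (0, 2), (1, 0), (1, 2), (1, 3), (2, 2), (2, 4), (3, 3), (3, 4), (3, 5), (3,
      6), (4, 0), (4, 3), (4, 7), (4, 8), (5, 4), (5, 5), (5, 8), (6, 0), (6, 1), (6, 8)]
    cl := [0, 4, 3, 0, 1, 5, 1, 6, 2]
    chq := [(0, 2), (0, 3), (2, 0), (3, 0)]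
    rng := [(0, 1), (1, 0), (1, 2), (1, 8), (2, 1), (2, 4), (3, 6), (3, 7), (4, 2), (4, 8), (5, 6), (5,
      8), (6, 3), (6, 5), (7, 3), (7, 8), (8, 1), (8, 4), (8, 5), (8, 7)]
    lev := [] }
  links := [[1, 7, 8, 9], [7, 0, 9, 2, 3, 10, 4], [3, 1, 9, 11], [10, 1, 2, 11, 5, 12, 13], [7, 1, 10,
    14, 15, 6], [12, 3, 11, 15], [7, 4, 15, 8]]
  P := {
    a := 7
    N := 16
    nb := [898, 1693, 2570, 15398, 50370, 38920, 33168, 339, 33473, 2311, 24602, 33324, 41000, 5128,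
      33808, 22896]
    tri := [(0, 1, 7), (0, 1, 9), (0, 7, 8), (0, 8, 9), (1, 2, 3), (1, 2, 9), (1, 3, 10), (1, 4, 7),
      (1, 4, 10), (2, 3, 11), (2, 9, 11), (3, 5, 11), (3, 5, 12), (3, 10, 13), (3, 12, 13), (4, 6,
      7), (4, 6, 15), (4, 10, 14), (4, 14, 15), (5, 11, 15), (5, 12, 15), (6, 7, 8), (6, 8, 15)]
    fin := [0, 0, 0, 3, 0, 3, 0, 0, 8, 9, 0, 3, 12, 3, 14, 15]
    chd := [(0, 9), (0, 15)]
    steps := [(0, 1), (0, 2), (0, 4), (0, 7), (0, 6), (0, 10), (3, 5), (3, 11), (3, 13)] }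
  rep := [0, 3, 15, 9, 8, 12, 14]

noncomputable def v2080 : Cov.CovD where
  P := 3
  N := 4
  pl := [1, 5, 7]
  lev := [⟨[], [], [(0, 3)], [4], [(0, 0, [2, 3]), (2, 3, [0])]⟩,
    ⟨[], [(0, 0), (0, 3)], [(0, 0), (0, 3)], [], [(0, 0, [2, 3]), (2, 3, [0]), (3, 0, [2,
      3])]⟩,
    ⟨[(0, 1)], [(0, 3), (1, 0), (1, 1), (1, 3)], [(1, 3)], [], [(2, 3, [0]), (4, 1, [])]⟩,
    ⟨[(0, 1), (1, 2)], [(1, 0), (1, 1), (1, 3), (2, 0), (2, 1), (2, 3)], [(0, 1), (1, 1)],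
      [5], [(3, 0, [2, 3]), (4, 1, []), (6, 1, [])]⟩,
    ⟨[(0, 1), (1, 2), (1, 3)], [(0, 0), (1, 0), (1, 2), (1, 3), (3, 0)], [(0, 0), (0, 2)],
      [6], [(0, 0, [2, 3]), (3, 0, [2, 3]), (8, 2, [0])]⟩,
    ⟨[(1, 3), (2, 3)], [(2, 1), (3, 0), (3, 1), (3, 2), (4, 2)], [(1, 2)], [5], [(4, 1,
      []), (8, 2, [0])]⟩,
    ⟨[(1, 4)], [(0, 0), (1, 0), (4, 0), (4, 2), (5, 2)], [(0, 2)], [4], [(0, 0, [2, 3]),
      (8, 2, [0])]⟩]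
  Ta := [((0, 1), 0, 4), ((3, 6), 0, 1), ((3, 7), 0, 6), ((4, 2), 1, 3), ((4, 8), 1, 2), ((6, 3),
    1, 0), ((6, 5), 1, 5)]
  Tb := [((1, 0, 2), 4, 0, 3), ((1, 0, 8), 4, 0, 2), ((1, 2, 8), 4, 3, 2), ((2, 1, 4), 3, 4, 1),
    ((3, 6, 7), 0, 1, 6), ((4, 2, 8), 1, 3, 2), ((5, 6, 8), 5, 1, 2), ((6, 3, 5), 1, 0, 5),
    ((7, 3, 8), 6, 0, 2), ((8, 1, 4), 2, 4, 1), ((8, 1, 5), 2, 4, 5), ((8, 1, 7), 2, 4, 6),
    ((8, 4, 5), 2, 1, 5), ((8, 4, 7), 2, 1, 6), ((8, 5, 7), 2, 5, 6)]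
  Tc := [(0, 2, 3)]
  Td := [((0, 2), (0, 1), 4), ((0, 2), (3, 6), 1), ((0, 2), (3, 7), 6), ((0, 3), (0, 1), 4), ((0,
    3), (3, 6), 1), ((0, 3), (3, 7), 6), ((2, 0), (8, 1), 4), ((2, 0), (8, 4), 1), ((2, 0),
    (8, 5), 5), ((2, 0), (8, 7), 6), ((3, 0), (2, 1), 4), ((3, 0), (2, 4), 1)]
  G := [[0, 0, 0x22c22ca14c8c8ac1c4cc161, 0xc8c8cc4c4cc122,
    0x88881829ac18888a8181ac162121a41a8a8a818181a41e229228258229241288218c1ee], [0, 0,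
    0xc1c2ac1a4cc121, 0, 0x8888a8182ac128888a8281ac122222825828222294288218c1ee], [0, 0,
    0x2442822c65868a8ca4c4ac1a1, 0x1818c1411cc122,
    0x1818a818111a416112129189ac18229229a41a888aa181ac1a7], [0,
    0x184848c12c14c14644849818c18a4c142c8885e3, 0x61c2aa4c16c121, 0,
    0x1218a8112ac1212242128a288228c1a8888a8281ac127]]

noncomputable def n2080 : Ent := ⟨e2080, noF, [], [], []⟩

def c2080 : PLift (Cov.check n2080.C.D v2080 = true) := ⟨by decide +kernel⟩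

def b2080 : PLift (entF (fidx ts) 400 2080 n2080 = true) := ⟨by decide +kernel⟩

theorem g2080 : GoodF (fidx ts) 400 2080 := GoodF.ofV v2080 n2080 c2080.down b2080.down

/-- 4747644:1760/3 -/
noncomputable def e2081 : SCfg where
  D := {
    a := 7
    L := 10
    kp := 7
    inn := [(0, 1), (1, 0), (1, 2), (1, 3), (1, 4), (2, 1), (2, 3), (3, 1), (3, 2), (3, 5), (4, 1), (4,
      6), (5, 3), (6, 4)]
    mix := [(0, 0), (0, 1), (0, 2), (1, 0), (1, 2), (1, 3), (2, 2), (2, 4), (3, 3), (3, 4), (3, 5), (3,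
      6), (4, 0), (4, 3), (4, 7), (4, 8), (5, 4), (5, 5), (5, 9), (6, 0), (6, 1), (6, 8)]
    cl := [0, 2, 1, 0, 3, 4, 3, 6, 5, 7]
    chq := [(0, 1), (1, 0), (2, 6), (6, 2)]
    rng := [(0, 1), (1, 0), (1, 2), (1, 8), (2, 1), (2, 4), (3, 6), (3, 7), (4, 2), (4, 9), (5, 6), (5,
      9), (6, 3), (6, 5), (7, 3), (7, 8), (8, 1), (8, 7), (9, 4), (9, 5)]
    lev := [] }
  links := [[1, 7, 8, 9], [7, 0, 9, 2, 3, 10, 4], [3, 1, 9, 11], [10, 1, 2, 11, 5, 12, 13], [7, 1, 10,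
    14, 15, 6], [12, 3, 11, 16], [7, 4, 15, 8]]
  P := {
    a := 7
    N := 17
    nb := [898, 1693, 2570, 15398, 50370, 71688, 33168, 339, 33473, 2311, 24602, 66092, 73768, 5128,
      33808, 16720, 6176]
    tri := [(0, 1, 7), (0, 1, 9), (0, 7, 8), (0, 8, 9), (1, 2, 3), (1, 2, 9), (1, 3, 10), (1, 4, 7),
      (1, 4, 10), (2, 3, 11), (2, 9, 11), (3, 5, 11), (3, 5, 12), (3, 10, 13), (3, 12, 13), (4, 6,
      7), (4, 6, 15), (4, 10, 14), (4, 14, 15), (5, 11, 16), (5, 12, 16), (6, 7, 8), (6, 8, 15)]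
    fin := [0, 0, 0, 3, 4, 3, 4, 0, 4, 9, 0, 3, 12, 3, 14, 15, 16]
    chd := [(0, 9), (4, 14)]
    steps := [(0, 1), (0, 2), (0, 7), (0, 10), (3, 5), (3, 11), (3, 13), (4, 6), (4, 8)] }
  rep := [0, 9, 4, 3, 12, 15, 14, 16]

noncomputable def v2081 : Cov.CovD where
  P := 3
  N := 5
  pl := [5, 8, 9]
  lev := [⟨[], [], [(0, 1), (0, 2), (1, 2)], [], [(0, 0, [1]), (1, 2, [6]), (2, 1, [0])]⟩,
    ⟨[], [(0, 0), (0, 1), (0, 2)], [(0, 0), (0, 1)], [], [(0, 0, [1]), (2, 1, [0]), (3, 0,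
      [1])]⟩,
    ⟨[(0, 1)], [(0, 1), (1, 0), (1, 1), (1, 3)], [(1, 3)], [], [(2, 1, [0]), (4, 3, [])]⟩,
    ⟨[(0, 1), (1, 2)], [(1, 0), (1, 1), (1, 3), (2, 0), (2, 1), (2, 3)], [(0, 3), (3, 3)],
      [4], [(3, 0, [1]), (4, 3, []), (6, 3, [])]⟩,
    ⟨[(0, 1), (1, 2), (1, 3)], [(0, 0), (1, 0), (1, 1), (1, 6), (3, 0)], [(0, 0), (0, 6)],
      [5], [(0, 0, [1]), (3, 0, [1]), (7, 6, [2])]⟩,
    ⟨[(1, 3), (2, 3)], [(2, 3), (3, 0), (3, 3)], [], [4, 7], [(4, 3, [])]⟩,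
    ⟨[(1, 4)], [(0, 0), (0, 2), (1, 0), (4, 0), (4, 2), (4, 6)], [(0, 2)], [5], [(0, 0,
      [1]), (1, 2, [6])]⟩]
  Ta := [((0, 1), 0, 2), ((3, 6), 0, 3), ((3, 7), 0, 6), ((4, 2), 3, 1), ((4, 9), 3, 7), ((6, 3),
    3, 0), ((6, 5), 3, 4)]
  Tb := [((1, 0, 2), 2, 0, 1), ((1, 0, 8), 2, 0, 5), ((1, 2, 8), 2, 1, 5), ((2, 1, 4), 1, 2, 3),
    ((3, 6, 7), 0, 3, 6), ((4, 2, 9), 3, 1, 7), ((5, 6, 9), 4, 3, 7), ((6, 3, 5), 3, 0, 4),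
    ((7, 3, 8), 6, 0, 5), ((8, 1, 7), 5, 2, 6), ((9, 4, 5), 7, 3, 4)]
  Tc := []
  Td := [((0, 1), (0, 1), 2), ((0, 1), (3, 6), 3), ((0, 1), (3, 7), 6), ((1, 0), (2, 1), 2), ((1,
    0), (2, 4), 3), ((2, 6), (1, 0), 0), ((2, 6), (1, 2), 1), ((2, 6), (1, 8), 5), ((6, 2),
    (7, 3), 0), ((6, 2), (7, 8), 5)]
  G := [[0, 0x145485c15e1131435c3e61819159a81449481e4,
    0x44522564434618481888daa9229e8188887223ae5c8, 0xcc52cc3261cc9281c4,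
    0xaa58856412481888daa9229e8188887aa3223ee5c8], [0,
    0x1244ac2e14414644c4818e141cca44c84cf684, 0x44a22a64843484a424e18821a88a869c8,
    0xc12c8294cc6221c4, 0xaaa22a6a8886348188227884a424e78c8], [0,
    0x889819c59e113183953ea1885445115e4168, 0, 0x595241c9925c32a1c4,
    0x1134218225aa5225e41889aa9229e823223aa1c9], [0, 0x488218e4111a124852e711546444a514881c4,
    0, 0x982953265428584, 0x98413322366428c1424e1828a88178e1c8]]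

noncomputable def n2081 : Ent := ⟨e2081, noF, [], [], [(8, 16, [1580044410770988437309982408355971841652082177953823432505697624065, 0]), (16, 15, [1685356702439545624007900436039642273970977273354372543760008609793, 0])]⟩

def c2081 : PLift (Cov.check n2081.C.D v2081 = true) := ⟨by decide +kernel⟩

def b2081 : PLift (entF (fidx ts) 400 2081 n2081 = true) := ⟨by decide +kernel⟩

theorem g2081 : GoodF (fidx ts) 400 2081 := GoodF.ofV v2081 n2081 c2081.down b2081.down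

/-- 4747644:1760/5 -/
noncomputable def e2082 : SCfg where
  D := {
    a := 7
    L := 10
    kp := 7
    inn := [(0, 1), (1, 0), (1, 2), (1, 3), (1, 4), (2, 1), (2, 3), (3, 1), (3, 2), (3, 5), (4, 1), (4,
      6), (5, 3), (6, 4)]
    mix := [(0, 0), (0, 1), (0, 2), (1, 0), (1, 2), (1, 3), (2, 2), (2, 4), (3, 3), (3, 4), (3, 5), (3,
      6), (4, 0), (4, 3), (4, 7), (4, 8), (5, 4), (5, 5), (5, 8), (6, 0), (6, 8), (6, 9)]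
    cl := [0, 7, 2, 0, 1, 4, 1, 5, 3, 6]
    chq := [(0, 2), (2, 0), (5, 6), (6, 5)]
    rng := [(0, 1), (0, 9), (1, 0), (1, 2), (2, 1), (2, 4), (3, 6), (3, 7), (4, 2), (4, 8), (5, 6), (5,
      8), (6, 3), (6, 5), (7, 3), (7, 8), (8, 4), (8, 5), (8, 7), (8, 9), (9, 0), (9, 8)]
    lev := [] }
  links := [[1, 7, 8, 9], [7, 0, 9, 2, 3, 10, 4], [3, 1, 9, 11], [10, 1, 2, 11, 5, 12, 13], [7, 1, 10,
    14, 15, 6], [12, 3, 11, 15], [7, 4, 15, 16]]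
  P := {
    a := 7
    N := 17
    nb := [898, 1693, 2570, 15398, 50370, 38920, 98448, 65875, 641, 2311, 24602, 33324, 41000, 5128,
      33808, 88176, 32960]
    tri := [(0, 1, 7), (0, 1, 9), (0, 7, 8), (0, 8, 9), (1, 2, 3), (1, 2, 9), (1, 3, 10), (1, 4, 7),
      (1, 4, 10), (2, 3, 11), (2, 9, 11), (3, 5, 11), (3, 5, 12), (3, 10, 13), (3, 12, 13), (4, 6,
      7), (4, 6, 15), (4, 10, 14), (4, 14, 15), (5, 11, 15), (5, 12, 15), (6, 7, 16), (6, 15, 16)]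
    fin := [0, 0, 0, 3, 4, 3, 4, 0, 8, 9, 0, 3, 12, 3, 4, 15, 16]
    chd := [(0, 9), (4, 16)]
    steps := [(0, 1), (0, 2), (0, 7), (0, 10), (3, 5), (3, 11), (3, 13), (4, 6), (4, 14)] }
  rep := [0, 3, 9, 15, 12, 4, 16, 8]

noncomputable def v2082 : Cov.CovD where
  P := 3
  N := 5
  pl := [1, 5, 8]
  lev := [⟨[], [], [(0, 2)], [7], [(0, 0, [2]), (2, 2, [0])]⟩,
    ⟨[], [(0, 0), (0, 2)], [(0, 0), (0, 2)], [], [(0, 0, [2]), (2, 2, [0]), (3, 0, [2])]⟩,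
    ⟨[(0, 1)], [(0, 2), (1, 0), (1, 1), (1, 2)], [(1, 2)], [], [(2, 2, [0]), (4, 1, [])]⟩,
    ⟨[(0, 1), (1, 2)], [(1, 0), (1, 1), (1, 2), (2, 0), (2, 1), (2, 2)], [(0, 1), (1, 1)],
      [4], [(3, 0, [2]), (4, 1, []), (6, 1, [])]⟩,
    ⟨[(0, 1), (1, 2), (1, 3)], [(0, 0), (1, 0), (1, 2), (1, 5), (3, 0)], [(0, 0), (0, 5)],
      [3], [(0, 0, [2]), (3, 0, [2]), (7, 5, [6])]⟩,
    ⟨[(1, 3), (2, 3)], [(2, 1), (3, 0), (3, 1)], [], [3, 4], [(4, 1, [])]⟩,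
    ⟨[(1, 4)], [(0, 0), (1, 0), (4, 0), (4, 5), (4, 6)], [(0, 6)], [3], [(0, 0, [2]), (9,
      6, [5])]⟩]
  Ta := [((0, 1), 0, 7), ((0, 9), 0, 6), ((3, 6), 0, 1), ((3, 7), 0, 5), ((4, 2), 1, 2), ((4, 8),
    1, 3), ((6, 3), 1, 0), ((6, 5), 1, 4)]
  Tb := [((0, 1, 9), 0, 7, 6), ((1, 0, 2), 7, 0, 2), ((2, 1, 4), 2, 7, 1), ((3, 6, 7), 0, 1, 5),
    ((4, 2, 8), 1, 2, 3), ((5, 6, 8), 4, 1, 3), ((6, 3, 5), 1, 0, 4), ((7, 3, 8), 5, 0, 3),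
    ((8, 4, 5), 3, 1, 4), ((8, 4, 7), 3, 1, 5), ((8, 4, 9), 3, 1, 6), ((8, 5, 7), 3, 4, 5),
    ((8, 5, 9), 3, 4, 6), ((8, 7, 9), 3, 5, 6), ((9, 0, 8), 6, 0, 3)]
  Tc := []
  Td := [((0, 2), (0, 1), 7), ((0, 2), (0, 9), 6), ((0, 2), (3, 6), 1), ((0, 2), (3, 7), 5), ((2,
    0), (2, 1), 7), ((2, 0), (2, 4), 1), ((5, 6), (7, 3), 0), ((5, 6), (7, 8), 3), ((6, 5),
    (9, 0), 0), ((6, 5), (9, 8), 3)]
  G := [[0, 0, 0x6811819e11a4415ec126811811de112c142594c4866,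
    0x244856412821849e218c1c2142124485ec128849a81cc,
    0x68a1849e61a4485ec12c12425a4848dec168829c81aa], [0, 0,
    0x2441282284ae22813ac34222484ce282292e582c, 0,
    0x2822849e2224c2ec1222c2612292484ce2885a8a], [0, 0,
    0x3811819e41594485ec121141134415ec138819a81cc, 0x2124485e412821849e81c1,
    0x68829849e61a4485ec121], [0, 0x111161112664118118c8c111161112a1111ce48c,
    0x621161124416ec8252212881ca8942812c9224c942e, 0, 0x2222c2ea6a64c1ec821]]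

noncomputable def n2082 : Ent := ⟨e2082, noF, [], [], [(8, 16, [1580044410770988437309982408355971841652082177953823432505697632257, 0])]⟩

def c2082 : PLift (Cov.check n2082.C.D v2082 = true) := ⟨by decide +kernel⟩

def b2082 : PLift (entF (fidx ts) 400 2082 n2082 = true) := ⟨by decide +kernel⟩

theorem g2082 : GoodF (fidx ts) 400 2082 := GoodF.ofV v2082 n2082 c2082.down b2082.down

/-- 4747644:1760/6 -/
noncomputable def e2083 : SCfg where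
  D := {
    a := 7
    L := 10
    kp := 7
    inn := [(0, 1), (1, 0), (1, 2), (1, 3), (1, 4), (2, 1), (2, 3), (3, 1), (3, 2), (3, 5), (4, 1), (4,
      6), (5, 3), (6, 4)]
    mix := [(0, 0), (0, 1), (0, 2), (1, 0), (1, 2), (1, 3), (2, 2), (2, 4), (3, 3), (3, 4), (3, 5), (3,
      6), (4, 0), (4, 3), (4, 7), (4, 8), (5, 4), (5, 5), (5, 9), (6, 0), (6, 8), (6, 9)]
    cl := [0, 7, 2, 0, 1, 4, 1, 6, 5, 3]
    chq := [(0, 2), (2, 0), (3, 6), (6, 3)]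
    rng := [(0, 1), (0, 9), (1, 0), (1, 2), (2, 1), (2, 4), (3, 6), (3, 7), (4, 2), (4, 9), (5, 6), (5,
      9), (6, 3), (6, 5), (7, 3), (7, 8), (8, 7), (8, 9), (9, 0), (9, 4), (9, 5), (9, 8)]
    lev := [] }
  links := [[1, 7, 8, 9], [7, 0, 9, 2, 3, 10, 4], [3, 1, 9, 11], [10, 1, 2, 11, 5, 12, 13], [7, 1, 10,
    14, 15, 6], [12, 3, 11, 16], [7, 4, 15, 16]]
  P := {
    a := 7
    N := 17
    nb := [898, 1693, 2570, 15398, 50370, 71688, 98448, 65875, 641, 2311, 24602, 66092, 73768, 5128,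
      33808, 82000, 39136]
    tri := [(0, 1, 7), (0, 1, 9), (0, 7, 8), (0, 8, 9), (1, 2, 3), (1, 2, 9), (1, 3, 10), (1, 4, 7),
      (1, 4, 10), (2, 3, 11), (2, 9, 11), (3, 5, 11), (3, 5, 12), (3, 10, 13), (3, 12, 13), (4, 6,
      7), (4, 6, 15), (4, 10, 14), (4, 14, 15), (5, 11, 16), (5, 12, 16), (6, 7, 16), (6, 15, 16)]
    fin := [0, 0, 0, 3, 4, 3, 4, 0, 8, 9, 0, 3, 12, 3, 14, 15, 4]
    chd := [(0, 9), (14, 4)]
    steps := [(0, 1), (0, 2), (0, 7), (0, 10), (3, 5), (3, 11), (3, 13), (4, 6), (4, 16)] }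
  rep := [0, 3, 9, 4, 12, 15, 14, 8]

noncomputable def v2083 : Cov.CovD where
  P := 3
  N := 5
  pl := [1, 5, 8]
  lev := [⟨[], [], [(0, 2)], [7], [(0, 0, [2]), (2, 2, [0])]⟩,
    ⟨[], [(0, 0), (0, 2)], [(0, 0), (0, 2)], [], [(0, 0, [2]), (2, 2, [0]), (3, 0, [2])]⟩,
    ⟨[(0, 1)], [(0, 2), (1, 0), (1, 1), (1, 2)], [(1, 2)], [], [(2, 2, [0]), (4, 1, [])]⟩,
    ⟨[(0, 1), (1, 2)], [(1, 0), (1, 1), (1, 2), (2, 0), (2, 1), (2, 2)], [(0, 1), (1, 1)],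
      [4], [(3, 0, [2]), (4, 1, []), (6, 1, [])]⟩,
    ⟨[(0, 1), (1, 2), (1, 3)], [(0, 0), (1, 0), (1, 2), (1, 6), (3, 0)], [(0, 0), (0, 6)],
      [5], [(0, 0, [2]), (3, 0, [2]), (7, 6, [3])]⟩,
    ⟨[(1, 3), (2, 3)], [(2, 1), (3, 0), (3, 1), (3, 3)], [(1, 3)], [4], [(4, 1, []), (9, 3,
      [6])]⟩,
    ⟨[(1, 4)], [(0, 0), (1, 0), (4, 0), (4, 3), (4, 6), (5, 3)], [(0, 3)], [5], [(0, 0,
      [2]), (9, 3, [6])]⟩]
  Ta := [((0, 1), 0, 7), ((0, 9), 0, 3), ((3, 6), 0, 1), ((3, 7), 0, 6), ((4, 2), 1, 2), ((4, 9),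
    1, 3), ((6, 3), 1, 0), ((6, 5), 1, 4)]
  Tb := [((0, 1, 9), 0, 7, 3), ((1, 0, 2), 7, 0, 2), ((2, 1, 4), 2, 7, 1), ((3, 6, 7), 0, 1, 6),
    ((4, 2, 9), 1, 2, 3), ((5, 6, 9), 4, 1, 3), ((6, 3, 5), 1, 0, 4), ((7, 3, 8), 6, 0, 5),
    ((8, 7, 9), 5, 6, 3), ((9, 0, 4), 3, 0, 1), ((9, 0, 5), 3, 0, 4), ((9, 0, 8), 3, 0, 5),
    ((9, 4, 5), 3, 1, 4), ((9, 4, 8), 3, 1, 5), ((9, 5, 8), 3, 4, 5)]
  Tc := []
  Td := [((0, 2), (0, 1), 7), ((0, 2), (0, 9), 3), ((0, 2), (3, 6), 1), ((0, 2), (3, 7), 6), ((2,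
    0), (2, 1), 7), ((2, 0), (2, 4), 1), ((3, 6), (9, 0), 0), ((3, 6), (9, 4), 1), ((3, 6),
    (9, 5), 4), ((3, 6), (9, 8), 5), ((6, 3), (7, 3), 0), ((6, 3), (7, 8), 5)]
  G := [[0, 0, 0x11949149e251d435115ec124d5516212d1a9258dec111884ac,
    0x4a52256416481866da29229e818c5ca4ad222d6a82865412166258c9869881cc,
    0x869a49c49e6854a5c85ec12c8214126254a52c2dec9869a49c81aa], [0, 0,
    0x623211e319112ec82a222364812321312e118c8ac, 0,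
    0x86aa284ae6864a5486ec122222252c16282ac6854a5cc1aa], [0, 0,
    0x615a44d814de86911c1ec42114125129d515ec1869849a81cc, 0xa12256262da4ad889ec161888c1,
    0x869a49849e6854a5485ec121], [0, 0xa1461c1a61a1c1ee841,
    0x12413111c21e3222ac94619111e329212ec82c, 0, 0x2128161a2c62a1486ec1a1]]

noncomputable def n2083 : Ent := ⟨e2083, noF, [], [], [(8, 16, [1580044410770988437309982408355971841652082177953823432505697624065, 0])]⟩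

def c2083 : PLift (Cov.check n2083.C.D v2083 = true) := ⟨by decide +kernel⟩

def b2083 : PLift (entF (fidx ts) 400 2083 n2083 = true) := ⟨by decide +kernel⟩

theorem g2083 : GoodF (fidx ts) 400 2083 := GoodF.ofV v2083 n2083 c2083.down b2083.down

/-- 4747644:1760 -/
noncomputable def e2084 : SCfg where
  D := {
    a := 7
    L := 11
    kp := 8
    inn := [(0, 1), (1, 0), (1, 2), (1, 3), (1, 4), (2, 1), (2, 3), (3, 1), (3, 2), (3, 5), (4, 1), (4,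
      6), (5, 3), (6, 4)]
    mix := [(0, 0), (0, 1), (0, 2), (1, 0), (1, 2), (1, 3), (2, 2), (2, 4), (3, 3), (3, 4), (3, 5), (3,
      6), (4, 0), (4, 3), (4, 7), (4, 8), (5, 4), (5, 5), (5, 9), (6, 0), (6, 8), (6, 10)]
    cl := [0, 7, 2, 0, 1, 3, 1, 5, 4, 8, 6]
    chq := [(0, 2), (2, 0), (5, 6), (6, 5)]
    rng := [(0, 1), (0, 10), (1, 0), (1, 2), (2, 1), (2, 4), (3, 6), (3, 7), (4, 2), (4, 9), (5, 6),
      (5, 9), (6, 3), (6, 5), (7, 3), (7, 8), (8, 7), (8, 10), (9, 4), (9, 5), (10, 0), (10, 8)]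
    lev := [] }
  links := [[1, 7, 8, 9], [7, 0, 9, 2, 3, 10, 4], [3, 1, 9, 11], [10, 1, 2, 11, 5, 12, 13], [7, 1, 10,
    14, 15, 6], [12, 3, 11, 16], [7, 4, 15, 17]]
  P := {
    a := 7
    N := 18
    nb := [898, 1693, 2570, 15398, 50370, 71688, 163984, 131411, 641, 2311, 24602, 66092, 73768, 5128,
      33808, 147536, 6176, 32960]
    tri := [(0, 1, 7), (0, 1, 9), (0, 7, 8), (0, 8, 9), (1, 2, 3), (1, 2, 9), (1, 3, 10), (1, 4, 7),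
      (1, 4, 10), (2, 3, 11), (2, 9, 11), (3, 5, 11), (3, 5, 12), (3, 10, 13), (3, 12, 13), (4, 6,
      7), (4, 6, 15), (4, 10, 14), (4, 14, 15), (5, 11, 16), (5, 12, 16), (6, 7, 17), (6, 15, 17)]
    fin := [0, 0, 0, 3, 4, 3, 4, 0, 8, 9, 0, 3, 12, 3, 4, 15, 16, 17]
    chd := [(0, 9), (4, 17)]
    steps := [(0, 1), (0, 2), (0, 7), (0, 10), (3, 5), (3, 11), (3, 13), (4, 6), (4, 14)] }
  rep := [0, 3, 9, 12, 15, 4, 17, 8, 16]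

noncomputable def v2084 : Cov.CovD where
  P := 3
  N := 6
  pl := [1, 5, 8, 9]
  lev := [⟨[], [], [(0, 2)], [7], [(0, 0, [2]), (2, 2, [0])]⟩,
    ⟨[], [(0, 0), (0, 2)], [(0, 0), (0, 2)], [], [(0, 0, [2]), (2, 2, [0]), (3, 0, [2])]⟩,
    ⟨[(0, 1)], [(0, 2), (1, 0), (1, 1), (1, 2)], [(1, 2)], [], [(2, 2, [0]), (4, 1, [])]⟩,
    ⟨[(0, 1), (1, 2)], [(1, 0), (1, 1), (1, 2), (2, 0), (2, 1), (2, 2)], [(0, 1), (1, 1)],
      [3], [(3, 0, [2]), (4, 1, []), (6, 1, [])]⟩,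
    ⟨[(0, 1), (1, 2), (1, 3)], [(0, 0), (1, 0), (1, 2), (1, 5), (3, 0)], [(0, 0), (0, 5)],
      [4], [(0, 0, [2]), (3, 0, [2]), (7, 5, [6])]⟩,
    ⟨[(1, 3), (2, 3)], [(2, 1), (3, 0), (3, 1)], [], [3, 8], [(4, 1, [])]⟩,
    ⟨[(1, 4)], [(0, 0), (1, 0), (4, 0), (4, 5), (4, 6)], [(0, 6)], [4], [(0, 0, [2]), (10,
      6, [5])]⟩]
  Ta := [((0, 1), 0, 7), ((0, 10), 0, 6), ((3, 6), 0, 1), ((3, 7), 0, 5), ((4, 2), 1, 2), ((4,
    9), 1, 8), ((6, 3), 1, 0), ((6, 5), 1, 3)]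
  Tb := [((0, 1, 10), 0, 7, 6), ((1, 0, 2), 7, 0, 2), ((2, 1, 4), 2, 7, 1), ((3, 6, 7), 0, 1, 5),
    ((4, 2, 9), 1, 2, 8), ((5, 6, 9), 3, 1, 8), ((6, 3, 5), 1, 0, 3), ((7, 3, 8), 5, 0, 4),
    ((8, 7, 10), 4, 5, 6), ((9, 4, 5), 8, 1, 3), ((10, 0, 8), 6, 0, 4)]
  Tc := []
  Td := [((0, 2), (0, 1), 7), ((0, 2), (0, 10), 6), ((0, 2), (3, 6), 1), ((0, 2), (3, 7), 5),
    ((2, 0), (2, 1), 7), ((2, 0), (2, 4), 1), ((5, 6), (7, 3), 0), ((5, 6), (7, 8), 4), ((6,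
    5), (10, 0), 0), ((6, 5), (10, 8), 4)]
  G := [[0, 0, 0x1193a9559e8615135955e452565915195e41169599a8319485ca,
    0xaa5cc56416481666daa9cc9e618c5ca8c861a1c16665aaadcccdec9669881cc,
    0x669aa9cc9e665aa5cc5ec12c821c12665aa5cccdec9669aa9c81aa], [0, 0,
    0x32a1ac153cc93a19629c46292a131c9bca8a11348861a274488e, 0,
    0x669a2ccae62aa5cc6ec12a2c43666caa5c487ec162818aa], [0, 0,
    0x1b9a99519e8515aa5155e4521841a14165131d595ec9319c59a81cc, 0x665aa5cc5e41669aa9cc9e81c1,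
    0x669aa9cc9e665aa5cc5ec121], [0, 0xa1c16a1c1666186186c81,
    0x16ca9cc1ce52a212e94291928233c1a3c15e5219ac586c, 0, 0x66aaa9cc9e666a2c2ec121]]

noncomputable def n2084 : Ent := ⟨e2084, noF, [], [], [(8, 16, [7334685537875745012586738086077695515070955365108989538292687702192129, 0]), (8, 17, [6903326391201334775872065844685381424292761054348340378595029938212865, 0]), (16, 15, [7334790850167413569773436004105379185503274260204390087403942013181953, 0]), (16, 17, [6903326391201334775872065844685381424292761054348340378595029938221057, 0])]⟩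

def c2084 : PLift (Cov.check n2084.C.D v2084 = true) := ⟨by decide +kernel⟩

def b2084 : PLift (entF (fidx ts) 400 2084 n2084 = true) := ⟨by decide +kernel⟩

theorem g2084 : GoodF (fidx ts) 400 2084 := GoodF.ofV v2084 n2084 c2084.down b2084.down

/-- 4747456:1766/1 -/
noncomputable def e2085 : SCfg where
  D := {
    a := 7
    L := 10
    kp := 7
    inn := [(0, 1), (1, 0), (1, 2), (1, 3), (1, 4), (2, 1), (2, 3), (3, 1), (3, 2), (3, 5), (3, 6), (4,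
      1), (5, 3), (5, 6), (6, 3), (6, 5)]
    mix := [(0, 0), (0, 1), (0, 2), (1, 0), (1, 2), (1, 3), (2, 2), (2, 4), (3, 3), (3, 4), (3, 5), (4,
      0), (4, 3), (4, 6), (5, 1), (5, 4), (5, 7), (6, 5), (6, 7), (6, 8), (6, 9)]
    cl := [3, 2, 1, 0, 0, 4, 5, 4, 6, 7]
    chq := [(0, 3), (1, 3), (3, 0), (3, 1)]
    rng := [(0, 1), (0, 6), (1, 0), (1, 2), (1, 4), (1, 7), (2, 1), (2, 4), (3, 5), (3, 6), (4, 1), (4,
      2), (5, 3), (5, 9), (6, 0), (6, 3), (7, 1), (7, 8), (8, 7), (8, 9), (9, 5), (9, 8)]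
    lev := [] }
  links := [[1, 7, 8, 9], [7, 0, 9, 2, 3, 10, 4], [3, 1, 9, 11], [10, 1, 2, 11, 5, 6, 12], [7, 1, 10,
    13], [6, 3, 11, 8, 14], [12, 3, 5, 14, 15, 16]]
  P := {
    a := 7
    N := 17
    nb := [898, 1693, 2570, 7270, 9346, 18760, 118824, 8467, 19105, 2311, 12314, 812, 66632, 1168,
      33120, 81984, 36928]
    tri := [(0, 1, 7), (0, 1, 9), (0, 7, 8), (0, 8, 9), (1, 2, 3), (1, 2, 9), (1, 3, 10), (1, 4, 7),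
      (1, 4, 10), (2, 3, 11), (2, 9, 11), (3, 5, 6), (3, 5, 11), (3, 6, 12), (3, 10, 12), (4, 7,
      13), (4, 10, 13), (5, 6, 14), (5, 8, 11), (5, 8, 14), (6, 12, 16), (6, 14, 15), (6, 15, 16)]
    fin := [0, 1, 1, 3, 0, 3, 6, 0, 3, 9, 1, 1, 6, 13, 6, 15, 16]
    chd := [(0, 1), (0, 9)]
    steps := [(0, 7), (0, 4), (1, 2), (1, 11), (1, 10), (3, 5), (3, 8), (6, 14), (6, 12)] }
  rep := [1, 9, 3, 0, 6, 13, 15, 16]

noncomputable def v2085 : Cov.CovD where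
  P := 3
  N := 5
  pl := [1, 6, 8, 9]
  lev := [⟨[], [], [(1, 3)], [2], [(0, 3, [0, 1]), (2, 1, [3])]⟩,
    ⟨[], [(0, 0), (0, 1), (0, 3)], [(0, 1), (0, 3), (1, 3)], [], [(0, 3, [0, 1]), (2, 1,
      [3]), (3, 0, [3])]⟩,
    ⟨[(0, 1)], [(0, 1), (1, 0), (1, 1), (1, 3)], [(0, 1)], [], [(2, 1, [3]), (4, 0, [3])]⟩,
    ⟨[(0, 1), (1, 2)], [(1, 0), (1, 1), (1, 3), (1, 4), (2, 0), (2, 1), (2, 4)], [(0, 0),
      (0, 4)], [], [(3, 0, [3]), (4, 0, [3]), (5, 4, [])]⟩,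
    ⟨[(0, 1), (1, 2), (1, 3)], [(0, 3), (1, 0), (1, 1), (1, 3), (3, 0)], [(0, 3)], [5],
      [(0, 3, [0, 1]), (3, 0, [3])]⟩,
    ⟨[(1, 3), (2, 3)], [(2, 0), (3, 0), (3, 4)], [(0, 4)], [2], [(4, 0, [3]), (7, 4, [])]⟩,
    ⟨[(1, 3), (2, 3), (3, 5)], [(3, 0), (3, 4), (5, 0), (5, 4)], [(4, 4)], [6, 7], [(5, 4,
      []), (7, 4, [])]⟩]
  Ta := [((3, 5), 0, 4), ((3, 6), 0, 5), ((4, 1), 0, 2), ((4, 2), 0, 1), ((5, 3), 4, 0), ((5, 9),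
    4, 7), ((7, 1), 4, 2), ((7, 8), 4, 6)]
  Tb := [((0, 1, 6), 3, 2, 5), ((1, 0, 2), 2, 3, 1), ((1, 0, 4), 2, 3, 0), ((1, 0, 7), 2, 3, 4),
    ((1, 2, 4), 2, 1, 0), ((1, 2, 7), 2, 1, 4), ((1, 4, 7), 2, 0, 4), ((2, 1, 4), 1, 2, 0),
    ((3, 5, 6), 0, 4, 5), ((4, 1, 2), 0, 2, 1), ((5, 3, 9), 4, 0, 7), ((6, 0, 3), 5, 3, 0),
    ((7, 1, 8), 4, 2, 6), ((8, 7, 9), 6, 4, 7), ((9, 5, 8), 7, 4, 6)]
  Tc := [(3, 0, 1)]
  Td := [((0, 3), (3, 5), 4), ((0, 3), (3, 6), 5), ((0, 3), (4, 1), 2), ((0, 3), (4, 2), 1), ((1,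
    3), (2, 1), 2), ((1, 3), (2, 4), 0), ((3, 0), (0, 1), 2), ((3, 0), (0, 6), 5), ((3, 1),
    (0, 1), 2), ((3, 1), (0, 6), 5)]
  G := [[0, 0, 0, 0xf8f8a24f4f4621c1, 0xf8f2a41b224d248678486a9c1], [0, 0, 0,
    0x15adb7ca24916d4215ad28cc1, 0x11eb11eba2411eb11eb628c1], [0, 0xf412482812d812a4c,
    0x921f41644242a88978128d2d26845c, 0xf4f4328f8f8528c1, 0x41424274b2b8a4c421b81421e8c1],
    [0, 0xb7c1248b7c1284c, 0xb7c1248f25e1284c, 0xb7cb7ca24b7c124c1,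
    0xd7a148d52bd5a62222238cc1]]

noncomputable def n2085 : Ent := ⟨e2085, noF, [], [], []⟩

def c2085 : PLift (Cov.check n2085.C.D v2085 = true) := ⟨by decide +kernel⟩

def b2085 : PLift (entF (fidx ts) 400 2085 n2085 = true) := ⟨by decide +kernel⟩

theorem g2085 : GoodF (fidx ts) 400 2085 := GoodF.ofV v2085 n2085 c2085.down b2085.down

/-- 4747456:1766/2 -/
noncomputable def e2086 : SCfg where
  D := {
    a := 7
    L := 10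
    kp := 7
    inn := [(0, 1), (1, 0), (1, 2), (1, 3), (1, 4), (2, 1), (2, 3), (3, 1), (3, 2), (3, 5), (3, 6), (4,
      1), (5, 3), (5, 6), (6, 3), (6, 5)]
    mix := [(0, 0), (0, 1), (0, 2), (1, 0), (1, 2), (1, 3), (2, 2), (2, 4), (3, 3), (3, 4), (3, 5), (4,
      0), (4, 3), (4, 6), (5, 4), (5, 7), (5, 8), (6, 1), (6, 5), (6, 8), (6, 9)]
    cl := [2, 4, 1, 0, 0, 3, 5, 6, 3, 7]
    chq := [(1, 2), (1, 5), (2, 1), (5, 1)]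
    rng := [(0, 1), (0, 6), (1, 0), (1, 2), (1, 8), (1, 9), (2, 1), (2, 4), (3, 5), (3, 6), (4, 2), (4,
      7), (5, 3), (5, 9), (6, 0), (6, 3), (7, 4), (7, 8), (8, 1), (8, 7), (9, 1), (9, 5)]
    lev := [] }
  links := [[1, 7, 8, 9], [7, 0, 9, 2, 3, 10, 4], [3, 1, 9, 11], [10, 1, 2, 11, 5, 6, 12], [7, 1, 10,
    13], [6, 3, 11, 14, 15], [12, 3, 5, 15, 8, 16]]
  P := {
    a := 7
    N := 17
    nb := [898, 1693, 2570, 7270, 9346, 51272, 102696, 8467, 99009, 2311, 12314, 16940, 66632, 1168,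
      34848, 16736, 4416]
    tri := [(0, 1, 7), (0, 1, 9), (0, 7, 8), (0, 8, 9), (1, 2, 3), (1, 2, 9), (1, 3, 10), (1, 4, 7),
      (1, 4, 10), (2, 3, 11), (2, 9, 11), (3, 5, 6), (3, 5, 11), (3, 6, 12), (3, 10, 12), (4, 7,
      13), (4, 10, 13), (5, 6, 15), (5, 11, 14), (5, 14, 15), (6, 8, 15), (6, 8, 16), (6, 12, 16)]
    fin := [0, 1, 1, 3, 1, 3, 6, 0, 8, 1, 3, 3, 6, 13, 14, 6, 16]
    chd := [(0, 1), (1, 13)]
    steps := [(0, 7), (1, 2), (1, 4), (1, 9), (3, 5), (3, 11), (3, 10), (6, 15), (6, 12)] }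
  rep := [3, 1, 0, 6, 8, 13, 14, 16]

noncomputable def v2086 : Cov.CovD where
  P := 3
  N := 5
  pl := [1, 7, 9]
  lev := [⟨[], [], [(1, 2)], [4], [(0, 2, [1]), (2, 1, [2, 5])]⟩,
    ⟨[], [(0, 0), (0, 1), (0, 2)], [(0, 1), (0, 2), (1, 2)], [], [(0, 2, [1]), (2, 1, [2,
      5]), (3, 0, [])]⟩,
    ⟨[(0, 1)], [(0, 1), (1, 0), (1, 1), (1, 2)], [(0, 1)], [], [(2, 1, [2, 5]), (4, 0,
      [])]⟩,
    ⟨[(0, 1), (1, 2)], [(1, 0), (1, 1), (1, 2), (1, 3), (2, 0), (2, 1), (2, 3)], [(0, 0),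
      (0, 3)], [], [(3, 0, []), (4, 0, []), (5, 3, [])]⟩,
    ⟨[(0, 1), (1, 2), (1, 3)], [(0, 2), (1, 0), (1, 1), (1, 2), (1, 5), (3, 0)], [(0, 2),
      (0, 5), (2, 5)], [], [(0, 2, [1]), (3, 0, []), (6, 5, [1])]⟩,
    ⟨[(1, 3), (2, 3)], [(2, 0), (3, 0), (3, 3)], [(0, 3)], [6], [(4, 0, []), (8, 3, [])]⟩,
    ⟨[(1, 3), (2, 3), (3, 5)], [(3, 0), (3, 3), (5, 0), (5, 3)], [(3, 3)], [4, 7], [(5, 3,
      []), (8, 3, [])]⟩]
  Ta := [((3, 5), 0, 3), ((3, 6), 0, 5), ((4, 2), 0, 1), ((4, 7), 0, 6), ((5, 3), 3, 0), ((5, 9),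
    3, 7), ((8, 1), 3, 4), ((8, 7), 3, 6)]
  Tb := [((0, 1, 6), 2, 4, 5), ((1, 0, 2), 4, 2, 1), ((1, 0, 8), 4, 2, 3), ((1, 0, 9), 4, 2, 7),
    ((1, 2, 8), 4, 1, 3), ((1, 2, 9), 4, 1, 7), ((1, 8, 9), 4, 3, 7), ((2, 1, 4), 1, 4, 0),
    ((3, 5, 6), 0, 3, 5), ((4, 2, 7), 0, 1, 6), ((5, 3, 9), 3, 0, 7), ((6, 0, 3), 5, 2, 0),
    ((7, 4, 8), 6, 0, 3), ((8, 1, 7), 3, 4, 6), ((9, 1, 5), 7, 4, 3)]
  Tc := [(1, 2, 5)]
  Td := [((1, 2), (2, 1), 4), ((1, 2), (2, 4), 0), ((1, 5), (2, 1), 4), ((1, 5), (2, 4), 0), ((2,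
    1), (0, 1), 4), ((2, 1), (0, 6), 5), ((5, 1), (6, 0), 2), ((5, 1), (6, 3), 0)]
  G := [[0, 0, 0xb22f82a4477c2814c, 0xb22b82c14722f42688c, 0xd2522d2245877628189], [0, 0,
    0x111af22841116f2248c, 0xe122481116f22889, 0xe122481116f24889], [0, 0x92178c16843561828c,
    0x39a2484522f42688c, 0xe22f426813b614885, 0x7ca2a4268135618489], [0, 0x9bbe1428757e1824c,
    0x1bbe2882a44222755e2a84c, 0x9bbe24214422717e2468c, 0x6eee2882a41222755e1a489]]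

noncomputable def n2086 : Ent := ⟨e2086, noF, [], [], []⟩

def c2086 : PLift (Cov.check n2086.C.D v2086 = true) := ⟨by decide +kernel⟩

def b2086 : PLift (entF (fidx ts) 400 2086 n2086 = true) := ⟨by decide +kernel⟩

theorem g2086 : GoodF (fidx ts) 400 2086 := GoodF.ofV v2086 n2086 c2086.down b2086.down

/-- 4747456:1766/3 -/
noncomputable def e2087 : SCfg where
  D := {
    a := 7
    L := 10
    kp := 7
    inn := [(0, 1), (1, 0), (1, 2), (1, 3), (1, 4), (2, 1), (2, 3), (3, 1), (3, 2), (3, 5), (3, 6), (4,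
      1), (5, 3), (5, 6), (6, 3), (6, 5)]
    mix := [(0, 0), (0, 1), (0, 2), (1, 0), (1, 2), (1, 3), (2, 2), (2, 4), (3, 3), (3, 4), (3, 5), (4,
      0), (4, 3), (4, 6), (5, 4), (5, 7), (5, 8), (6, 1), (6, 5), (6, 8), (6, 9)]
    cl := [2, 4, 1, 0, 0, 3, 5, 6, 3, 7]
    chq := [(1, 2), (1, 5), (2, 1), (5, 1)]
    rng := [(0, 1), (0, 6), (1, 0), (1, 2), (1, 5), (1, 9), (2, 1), (2, 4), (3, 5), (3, 6), (4, 2), (4,
      7), (5, 1), (5, 3), (6, 0), (6, 3), (7, 4), (7, 8), (8, 7), (8, 9), (9, 1), (9, 8)]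
    lev := [] }
  links := [[1, 7, 8, 9], [7, 0, 9, 2, 3, 10, 4], [3, 1, 9, 11], [10, 1, 2, 11, 5, 6, 12], [7, 1, 10,
    13], [6, 3, 11, 14, 15], [12, 3, 5, 15, 16, 8]]
  P := {
    a := 7
    N := 17
    nb := [898, 1693, 2570, 7270, 9346, 51272, 102696, 8467, 70337, 2311, 12314, 16940, 1352, 1168,
      34848, 82016, 33088]
    tri := [(0, 1, 7), (0, 1, 9), (0, 7, 8), (0, 8, 9), (1, 2, 3), (1, 2, 9), (1, 3, 10), (1, 4, 7),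
      (1, 4, 10), (2, 3, 11), (2, 9, 11), (3, 5, 6), (3, 5, 11), (3, 6, 12), (3, 10, 12), (4, 7,
      13), (4, 10, 13), (5, 6, 15), (5, 11, 14), (5, 14, 15), (6, 8, 12), (6, 8, 16), (6, 15, 16)]
    fin := [0, 1, 1, 3, 1, 3, 6, 0, 8, 1, 3, 3, 6, 13, 14, 6, 16]
    chd := [(0, 1), (1, 13)]
    steps := [(0, 7), (1, 2), (1, 4), (1, 9), (3, 5), (3, 11), (3, 10), (6, 15), (6, 12)] }
  rep := [3, 1, 0, 6, 8, 13, 14, 16]

noncomputable def v2087 : Cov.CovD where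
  P := 3
  N := 5
  pl := [1, 7, 9]
  lev := [⟨[], [], [(1, 2)], [4], [(0, 2, [1]), (2, 1, [2, 5])]⟩,
    ⟨[], [(0, 0), (0, 1), (0, 2)], [(0, 1), (0, 2), (1, 2)], [], [(0, 2, [1]), (2, 1, [2,
      5]), (3, 0, [])]⟩,
    ⟨[(0, 1)], [(0, 1), (1, 0), (1, 1), (1, 2)], [(0, 1)], [], [(2, 1, [2, 5]), (4, 0,
      [])]⟩,
    ⟨[(0, 1), (1, 2)], [(1, 0), (1, 1), (1, 2), (1, 3), (2, 0), (2, 1), (2, 3)], [(0, 0),
      (0, 3)], [], [(3, 0, []), (4, 0, []), (5, 3, [])]⟩,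
    ⟨[(0, 1), (1, 2), (1, 3)], [(0, 2), (1, 0), (1, 1), (1, 2), (1, 5), (3, 0)], [(0, 2),
      (0, 5), (2, 5)], [], [(0, 2, [1]), (3, 0, []), (6, 5, [1])]⟩,
    ⟨[(1, 3), (2, 3)], [(2, 0), (3, 0), (3, 3)], [(0, 3)], [6], [(4, 0, []), (8, 3, [])]⟩,
    ⟨[(1, 3), (2, 3), (3, 5)], [(3, 0), (3, 3), (5, 0), (5, 3)], [(3, 3)], [4, 7], [(5, 3,
      []), (8, 3, [])]⟩]
  Ta := [((3, 5), 0, 3), ((3, 6), 0, 5), ((4, 2), 0, 1), ((4, 7), 0, 6), ((5, 1), 3, 4), ((5, 3),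
    3, 0), ((8, 7), 3, 6), ((8, 9), 3, 7)]
  Tb := [((0, 1, 6), 2, 4, 5), ((1, 0, 2), 4, 2, 1), ((1, 0, 5), 4, 2, 3), ((1, 0, 9), 4, 2, 7),
    ((1, 2, 5), 4, 1, 3), ((1, 2, 9), 4, 1, 7), ((1, 5, 9), 4, 3, 7), ((2, 1, 4), 1, 4, 0),
    ((3, 5, 6), 0, 3, 5), ((4, 2, 7), 0, 1, 6), ((5, 1, 3), 3, 4, 0), ((6, 0, 3), 5, 2, 0),
    ((7, 4, 8), 6, 0, 3), ((8, 7, 9), 3, 6, 7), ((9, 1, 8), 7, 4, 3)]
  Tc := [(1, 2, 5)]
  Td := [((1, 2), (2, 1), 4), ((1, 2), (2, 4), 0), ((1, 5), (2, 1), 4), ((1, 5), (2, 4), 0), ((2,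
    1), (0, 1), 4), ((2, 1), (0, 6), 5), ((5, 1), (6, 0), 2), ((5, 1), (6, 3), 0)]
  G := [[0, 0, 0xb22b82a4465a2342618c, 0xb42b82c247227652a48c, 0xc226ac26187227426189], [0, 0,
    0x9b3e2418111ef2248c, 0xe122489b3e24885, 0xe122481116f22889], [0, 0x921381a44521f41688c,
    0x8962782a44522342688c, 0xe42e82c213412b224645, 0xe22e82a41721381a489], [0,
    0x9bbe1428757e1824c, 0xbf62982a4432275c2a84c, 0x9bc123228a475fe2821c,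
    0xe22eec2681713e14426889]]

noncomputable def n2087 : Ent := ⟨e2087, noF, [], [], []⟩

def c2087 : PLift (Cov.check n2087.C.D v2087 = true) := ⟨by decide +kernel⟩

def b2087 : PLift (entF (fidx ts) 400 2087 n2087 = true) := ⟨by decide +kernel⟩

theorem g2087 : GoodF (fidx ts) 400 2087 := GoodF.ofV v2087 n2087 c2087.down b2087.down

/-- 4747456:1766 -/
noncomputable def e2088 : SCfg where
  D := {
    a := 7
    L := 11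
    kp := 8
    inn := [(0, 1), (1, 0), (1, 2), (1, 3), (1, 4), (2, 1), (2, 3), (3, 1), (3, 2), (3, 5), (3, 6), (4,
      1), (5, 3), (5, 6), (6, 3), (6, 5)]
    mix := [(0, 0), (0, 1), (0, 2), (1, 0), (1, 2), (1, 3), (2, 2), (2, 4), (3, 3), (3, 4), (3, 5), (4,
      0), (4, 3), (4, 6), (5, 4), (5, 7), (5, 8), (6, 5), (6, 8), (6, 9), (6, 10)]
    cl := [2, 5, 1, 0, 0, 3, 4, 6, 3, 7, 8]
    chq := [(1, 2), (1, 4), (2, 1), (4, 1)]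
    rng := [(0, 1), (0, 6), (1, 0), (1, 2), (2, 1), (2, 4), (3, 5), (3, 6), (4, 2), (4, 7), (5, 3), (5,
      10), (6, 0), (6, 3), (7, 4), (7, 8), (8, 7), (8, 9), (9, 8), (9, 10), (10, 5), (10, 9)]
    lev := [] }
  links := [[1, 7, 8, 9], [7, 0, 9, 2, 3, 10, 4], [3, 1, 9, 11], [10, 1, 2, 11, 5, 6, 12], [7, 1, 10,
    13], [6, 3, 11, 14, 15], [12, 3, 5, 15, 16, 17]]
  P := {
    a := 7
    N := 18
    nb := [898, 1693, 2570, 7270, 9346, 51272, 233512, 8467, 641, 2311, 12314, 16940, 132168, 1168,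
      34848, 82016, 163904, 69696]
    tri := [(0, 1, 7), (0, 1, 9), (0, 7, 8), (0, 8, 9), (1, 2, 3), (1, 2, 9), (1, 3, 10), (1, 4, 7),
      (1, 4, 10), (2, 3, 11), (2, 9, 11), (3, 5, 6), (3, 5, 11), (3, 6, 12), (3, 10, 12), (4, 7,
      13), (4, 10, 13), (5, 6, 15), (5, 11, 14), (5, 14, 15), (6, 12, 17), (6, 15, 16), (6, 16,
      17)]
    fin := [0, 1, 1, 3, 1, 3, 6, 0, 8, 1, 3, 3, 6, 13, 14, 6, 16, 17]
    chd := [(0, 1), (1, 13)]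
    steps := [(0, 7), (1, 2), (1, 4), (1, 9), (3, 5), (3, 11), (3, 10), (6, 15), (6, 12)] }
  rep := [3, 1, 0, 6, 13, 8, 14, 16, 17]

noncomputable def v2088 : Cov.CovD where
  P := 3
  N := 6
  pl := [1, 7, 9, 10]
  lev := [⟨[], [], [(1, 2)], [5], [(0, 2, [1]), (2, 1, [2, 4])]⟩,
    ⟨[], [(0, 0), (0, 1), (0, 2)], [(0, 1), (0, 2), (1, 2)], [], [(0, 2, [1]), (2, 1, [2,
      4]), (3, 0, [])]⟩,
    ⟨[(0, 1)], [(0, 1), (1, 0), (1, 1), (1, 2)], [(0, 1)], [], [(2, 1, [2, 4]), (4, 0,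
      [])]⟩,
    ⟨[(0, 1), (1, 2)], [(1, 0), (1, 1), (1, 2), (1, 3), (2, 0), (2, 1), (2, 3)], [(0, 0),
      (0, 3)], [], [(3, 0, []), (4, 0, []), (5, 3, [])]⟩,
    ⟨[(0, 1), (1, 2), (1, 3)], [(0, 2), (1, 0), (1, 1), (1, 2), (1, 4), (3, 0)], [(0, 2),
      (0, 4), (2, 4)], [], [(0, 2, [1]), (3, 0, []), (6, 4, [1])]⟩,
    ⟨[(1, 3), (2, 3)], [(2, 0), (3, 0), (3, 3)], [(0, 3)], [6], [(4, 0, []), (8, 3, [])]⟩,
    ⟨[(1, 3), (2, 3), (3, 5)], [(3, 0), (3, 3), (5, 0), (5, 3)], [(3, 3)], [7, 8], [(5, 3,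
      []), (8, 3, [])]⟩]
  Ta := [((3, 5), 0, 3), ((3, 6), 0, 4), ((4, 2), 0, 1), ((4, 7), 0, 6), ((5, 3), 3, 0), ((5,
    10), 3, 8), ((8, 7), 3, 6), ((8, 9), 3, 7)]
  Tb := [((0, 1, 6), 2, 5, 4), ((1, 0, 2), 5, 2, 1), ((2, 1, 4), 1, 5, 0), ((3, 5, 6), 0, 3, 4),
    ((4, 2, 7), 0, 1, 6), ((5, 3, 10), 3, 0, 8), ((6, 0, 3), 4, 2, 0), ((7, 4, 8), 6, 0, 3),
    ((8, 7, 9), 3, 6, 7), ((9, 8, 10), 7, 3, 8), ((10, 5, 9), 8, 3, 7)]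
  Tc := [(1, 2, 4)]
  Td := [((1, 2), (2, 1), 5), ((1, 2), (2, 4), 0), ((1, 4), (2, 1), 5), ((1, 4), (2, 4), 0), ((2,
    1), (0, 1), 5), ((2, 1), (0, 6), 4), ((4, 1), (6, 0), 2), ((4, 1), (6, 3), 0)]
  G := [[0, 0, 0xf22f82a14f22f82a14c, 0xf22f42688255e228f628a45, 0xf22f42618f22f426889], [0, 0,
    0x111ef2284111ef2488c, 0x111ef2284111ef22889, 0x222ffde2618111ef22489], [0,
    0xad61781a44f412f214a8c, 0x422f82ab228c44fa2b42688c, 0xf42f82c21f422f224689,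
    0xf22f82a416da1b426889], [0, 0xffde122218a4f812ff618a4c, 0xffc224f2284cfbfe2442688c,
    0x7ffe1881a44a21ff5e26889, 0xfbfe2442681a214ff5e22c89]]

noncomputable def n2088 : Ent := ⟨e2088, noF, [], [], [(8, 14, [7334790875878422277917280412776772662961875900559637987928627378016257, 0]), (8, 16, [7334685537875745012586738086077695515070955365108989538292687702220801, 0]), (8, 17, [6903326391201334775872065844685381424292761054348340378595029938237441, 0])]⟩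

def c2088 : PLift (Cov.check n2088.C.D v2088 = true) := ⟨by decide +kernel⟩

def b2088 : PLift (entF (fidx ts) 400 2088 n2088 = true) := ⟨by decide +kernel⟩

theorem g2088 : GoodF (fidx ts) 400 2088 := GoodF.ofV v2088 n2088 c2088.down b2088.down

/-- 4747446:1768/2 -/
noncomputable def e2089 : SCfg where
  D := {
    a := 7
    L := 8
    kp := 6
    inn := [(0, 1), (1, 0), (1, 2), (1, 3), (1, 4), (2, 1), (2, 3), (3, 1), (3, 2), (3, 5), (3, 6), (4,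
      1), (5, 3), (5, 6), (6, 3), (6, 5)]
    mix := [(0, 0), (0, 1), (0, 2), (1, 0), (1, 2), (1, 3), (2, 2), (2, 4), (3, 3), (3, 4), (3, 5), (4,
      0), (4, 3), (4, 6), (5, 1), (5, 5), (6, 1), (6, 3), (6, 6), (6, 7)]
    cl := [1, 0, 2, 0, 5, 3, 4, 6]
    chq := [(1, 2), (1, 3), (2, 1), (2, 3), (3, 1), (3, 2), (3, 4), (4, 3)]
    rng := [(0, 1), (0, 6), (1, 0), (1, 2), (1, 5), (1, 7), (2, 1), (2, 4), (3, 6), (4, 2), (4, 5), (5,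
      1), (5, 4), (6, 0), (6, 3), (6, 7), (7, 1), (7, 6)]
    lev := [] }
  links := [[1, 7, 8, 9], [7, 0, 9, 2, 3, 10, 4], [3, 1, 9, 11], [10, 1, 2, 11, 12, 5, 6], [7, 1, 10,
    13], [6, 3, 12, 8], [10, 3, 5, 8, 14, 13]]
  P := {
    a := 7
    N := 15
    nb := [898, 1693, 2570, 7270, 9346, 4424, 25896, 8467, 21217, 2311, 8282, 4620, 2344, 17616, 8512]
    tri := [(0, 1, 7), (0, 1, 9), (0, 7, 8), (0, 8, 9), (1, 2, 3), (1, 2, 9), (1, 3, 10), (1, 4, 7),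
      (1, 4, 10), (2, 3, 11), (2, 9, 11), (3, 5, 6), (3, 5, 12), (3, 6, 10), (3, 11, 12), (4, 7,
      13), (4, 10, 13), (5, 6, 8), (5, 8, 12), (6, 8, 14), (6, 10, 13), (6, 13, 14)]
    fin := [0, 1, 2, 1, 1, 5, 5, 0, 5, 2, 5, 11, 1, 13, 14]
    chd := [(0, 1), (0, 2), (1, 13), (2, 1)]
    steps := [(0, 7), (1, 3), (1, 4), (1, 12), (2, 9), (5, 6), (5, 8), (5, 10)] }
  rep := [5, 0, 2, 1, 13, 11, 14]

noncomputable def v2089 : Cov.CovD where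
  P := 3
  N := 4
  pl := [4, 7]
  lev := [⟨[], [], [(0, 1), (0, 2), (1, 2)], [], [(0, 1, [2, 3]), (1, 0, []), (2, 2, [1, 3])]⟩,
    ⟨[], [(0, 0), (0, 1), (0, 2)], [(0, 1), (0, 2), (1, 2)], [], [(0, 1, [2, 3]), (2, 2,
      [1, 3]), (3, 0, [])]⟩,
    ⟨[(0, 1)], [(0, 2), (1, 0), (1, 1), (1, 2)], [], [5], [(2, 2, [1, 3])]⟩,
    ⟨[(0, 1), (1, 2)], [(1, 0), (1, 1), (1, 2), (1, 3), (2, 0), (2, 2), (2, 3)], [(0, 3)],
      [5], [(3, 0, []), (5, 3, [1, 2, 4])]⟩,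
    ⟨[(0, 1), (1, 2), (1, 3)], [(0, 1), (1, 0), (1, 1), (1, 2), (1, 4), (3, 0)], [(0, 1),
      (0, 4), (1, 4)], [], [(0, 1, [2, 3]), (3, 0, []), (6, 4, [3])]⟩,
    ⟨[(1, 3), (2, 3)], [(0, 0), (3, 0), (3, 3)], [(0, 3)], [], [(1, 0, []), (5, 3, [1, 2,
      4])]⟩,
    ⟨[(1, 3), (2, 3), (3, 5)], [(0, 0), (1, 0), (3, 0), (3, 3), (3, 4), (4, 0), (4, 4), (5,
      0), (5, 3), (5, 4)], [(0, 0), (0, 4)], [6], [(1, 0, []), (3, 0, []), (6, 4, [3])]⟩]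
  Ta := [((1, 0), 0, 1), ((1, 2), 0, 2), ((1, 5), 0, 3), ((1, 7), 0, 6), ((3, 6), 0, 4)]
  Tb := [((0, 1, 6), 1, 0, 4), ((1, 0, 2), 0, 1, 2), ((1, 0, 5), 0, 1, 3), ((1, 0, 7), 0, 1, 6),
    ((1, 2, 5), 0, 2, 3), ((1, 2, 7), 0, 2, 6), ((1, 5, 7), 0, 3, 6), ((2, 1, 4), 2, 0, 5),
    ((4, 2, 5), 5, 2, 3), ((5, 1, 4), 3, 0, 5), ((6, 0, 3), 4, 1, 0), ((6, 0, 7), 4, 1, 6),
    ((6, 3, 7), 4, 0, 6), ((7, 1, 6), 6, 0, 4)]
  Tc := [(1, 2, 3), (2, 1, 3), (3, 1, 2), (3, 1, 4), (3, 2, 4)]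
  Td := [((1, 2), (0, 1), 0), ((1, 2), (0, 6), 4), ((1, 3), (0, 1), 0), ((1, 3), (0, 6), 4), ((2,
    1), (2, 1), 0), ((2, 1), (2, 4), 5), ((2, 3), (2, 1), 0), ((2, 3), (2, 4), 5), ((3, 1),
    (5, 1), 0), ((3, 1), (5, 4), 5), ((3, 2), (5, 1), 0), ((3, 2), (5, 4), 5), ((3, 4), (5,
    1), 0), ((3, 4), (5, 4), 5), ((4, 3), (6, 0), 1), ((4, 3), (6, 3), 0), ((4, 3), (6, 7),
    6)]
  G := [[0, 0xa426ca4a427e268a1c84, 0xa4e2c1a26228e1684, 0x6ac122a4e22944,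
    0x48c122ea14324246c6488aa898], [0, 0, 0, 0xe122e122944,
    0xc1422828668c442246a262ca48e389]]

noncomputable def n2089 : Ent := ⟨e2089, noF, [], [], []⟩

def c2089 : PLift (Cov.check n2089.C.D v2089 = true) := ⟨by decide +kernel⟩

def b2089 : PLift (entF (fidx ts) 400 2089 n2089 = true) := ⟨by decide +kernel⟩

theorem g2089 : GoodF (fidx ts) 400 2089 := GoodF.ofV v2089 n2089 c2089.down b2089.down

/-- 4747446:1768/1 -/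
noncomputable def e2090 : SCfg where
  D := {
    a := 7
    L := 9
    kp := 7
    inn := [(0, 1), (1, 0), (1, 2), (1, 3), (1, 4), (2, 1), (2, 3), (3, 1), (3, 2), (3, 5), (3, 6), (4,
      1), (5, 3), (5, 6), (6, 3), (6, 5)]
    mix := [(0, 0), (0, 1), (0, 2), (1, 0), (1, 2), (1, 3), (2, 2), (2, 4), (3, 3), (3, 4), (3, 5), (4,
      0), (4, 3), (4, 6), (5, 1), (5, 5), (6, 1), (6, 3), (6, 7), (6, 8)]
    cl := [1, 2, 0, 0, 3, 4, 7, 5, 6]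
    chq := [(0, 1), (1, 0), (2, 3), (3, 2), (3, 5), (3, 6), (5, 3), (6, 3)]
    rng := [(0, 1), (0, 6), (1, 0), (1, 2), (1, 5), (1, 7), (2, 1), (2, 4), (3, 6), (3, 8), (4, 2), (4,
      5), (5, 1), (5, 4), (6, 0), (6, 3), (7, 1), (7, 8), (8, 3), (8, 7)]
    lev := [] }
  links := [[1, 7, 8, 9], [7, 0, 9, 2, 3, 10, 4], [3, 1, 9, 11], [10, 1, 2, 11, 12, 5, 6], [7, 1, 10,
    13], [6, 3, 12, 8], [10, 3, 5, 8, 14, 15]]
  P := {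
    a := 7
    N := 16
    nb := [898, 1693, 2570, 7270, 9346, 4424, 50472, 8467, 21217, 2311, 41050, 4620, 2344, 1168,
      33088, 17472]
    tri := [(0, 1, 7), (0, 1, 9), (0, 7, 8), (0, 8, 9), (1, 2, 3), (1, 2, 9), (1, 3, 10), (1, 4, 7),
      (1, 4, 10), (2, 3, 11), (2, 9, 11), (3, 5, 6), (3, 5, 12), (3, 6, 10), (3, 11, 12), (4, 7,
      13), (4, 10, 13), (5, 6, 8), (5, 8, 12), (6, 8, 14), (6, 10, 15), (6, 14, 15)]
    fin := [0, 1, 1, 3, 0, 5, 3, 0, 5, 1, 1, 3, 12, 13, 14, 15]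
    chd := [(0, 1), (3, 14), (3, 15), (5, 3)]
    steps := [(0, 7), (0, 4), (1, 2), (1, 9), (1, 10), (3, 6), (3, 11), (5, 8)] }
  rep := [1, 0, 5, 3, 12, 14, 15, 13]

noncomputable def v2090 : Cov.CovD where
  P := 3
  N := 5
  pl := [5, 6]
  lev := [⟨[], [], [(0, 1), (0, 2), (1, 2)], [], [(0, 1, [0]), (1, 2, [3]), (2, 0, [1])]⟩,
    ⟨[], [(0, 0), (0, 1), (0, 2)], [(0, 0), (0, 1)], [], [(0, 1, [0]), (2, 0, [1]), (3, 0,
      [1])]⟩,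
    ⟨[(0, 1)], [(0, 0), (1, 0), (1, 1), (1, 3)], [(0, 3)], [], [(2, 0, [1]), (4, 3, [2, 5,
      6])]⟩,
    ⟨[(0, 1), (1, 2)], [(1, 0), (1, 1), (1, 3), (2, 0), (2, 3)], [(0, 3)], [4], [(3, 0,
      [1]), (4, 3, [2, 5, 6])]⟩,
    ⟨[(0, 1), (1, 2), (1, 3)], [(0, 1), (1, 0), (1, 1), (3, 0)], [(0, 1)], [7], [(0, 1,
      [0]), (3, 0, [1])]⟩,
    ⟨[(1, 3), (2, 3)], [(0, 2), (3, 0), (3, 2), (3, 3)], [], [4], [(1, 2, [3])]⟩,
    ⟨[(1, 3), (2, 3), (3, 5)], [(0, 2), (1, 0), (3, 0), (3, 2), (3, 3), (3, 5), (3, 6), (4,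
      0), (5, 0), (5, 2), (5, 5), (5, 6)], [(0, 2), (0, 5), (0, 6), (2, 5), (2, 6), (5, 6)],
      [], [(1, 2, [3]), (3, 0, [1]), (7, 5, [3]), (8, 6, [3])]⟩]
  Ta := [((2, 1), 0, 2), ((2, 4), 0, 3), ((3, 6), 0, 7), ((3, 8), 0, 6)]
  Tb := [((0, 1, 6), 1, 2, 7), ((1, 0, 2), 2, 1, 0), ((1, 0, 5), 2, 1, 4), ((1, 0, 7), 2, 1, 5),
    ((1, 2, 5), 2, 0, 4), ((1, 2, 7), 2, 0, 5), ((1, 5, 7), 2, 4, 5), ((2, 1, 4), 0, 2, 3),
    ((3, 6, 8), 0, 7, 6), ((4, 2, 5), 3, 0, 4), ((5, 1, 4), 4, 2, 3), ((6, 0, 3), 7, 1, 0),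
    ((7, 1, 8), 5, 2, 6), ((8, 3, 7), 6, 0, 5)]
  Tc := [(3, 2, 5), (3, 2, 6), (3, 5, 6)]
  Td := [((0, 1), (2, 1), 2), ((0, 1), (2, 4), 3), ((0, 1), (3, 6), 7), ((0, 1), (3, 8), 6), ((1,
    0), (0, 1), 2), ((1, 0), (0, 6), 7), ((2, 3), (1, 0), 1), ((2, 3), (1, 2), 0), ((2, 3),
    (1, 5), 4), ((2, 3), (1, 7), 5), ((3, 2), (4, 2), 0), ((3, 2), (4, 5), 4), ((3, 5), (4,
    2), 0), ((3, 5), (4, 5), 4), ((3, 6), (4, 2), 0), ((3, 6), (4, 5), 4), ((5, 3), (7, 1),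
    2), ((5, 3), (7, 8), 6), ((6, 3), (8, 3), 0), ((6, 3), (8, 7), 5)]
  G := [[0, 0xa4c8c12542d491dcaa1c4, 0x62622cc14818868c6c9a48, 0x11c11ccc9d2248,
    0x122a95c2164611128a1818c8ac8], [0, 0x6868ca4a4ac1c1ce124, 0, 0x48cd48cdc2281,
    0xa144124968ca18c2c2ce1c8]]

noncomputable def n2090 : Ent := ⟨e2090, noF, [], [], [(15, 13, [360048296834107614573520772494203283988579150297652619085254657, 0])]⟩

def c2090 : PLift (Cov.check n2090.C.D v2090 = true) := ⟨by decide +kernel⟩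

def b2090 : PLift (entF (fidx ts) 400 2090 n2090 = true) := ⟨by decide +kernel⟩

theorem g2090 : GoodF (fidx ts) 400 2090 := GoodF.ofV v2090 n2090 c2090.down b2090.down

/-- 4747446:1768/4 -/
noncomputable def e2091 : SCfg where
  D := {
    a := 7
    L := 8
    kp := 6
    inn := [(0, 1), (1, 0), (1, 2), (1, 3), (1, 4), (2, 1), (2, 3), (3, 1), (3, 2), (3, 5), (3, 6), (4,
      1), (5, 3), (5, 6), (6, 3), (6, 5)]
    mix := [(0, 0), (0, 1), (0, 2), (1, 0), (1, 2), (1, 3), (2, 2), (2, 4), (3, 3), (3, 4), (3, 5), (4,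
      0), (4, 3), (4, 6), (5, 5), (5, 7), (6, 1), (6, 3), (6, 6), (6, 7)]
    cl := [1, 3, 0, 0, 2, 6, 4, 5]
    chq := [(0, 1), (1, 0), (2, 3), (2, 4), (2, 5), (3, 2), (4, 2), (5, 2)]
    rng := [(0, 1), (0, 6), (1, 0), (1, 2), (1, 6), (1, 7), (2, 1), (2, 4), (3, 6), (4, 2), (4, 5), (5,
      4), (5, 7), (6, 0), (6, 1), (6, 3), (7, 1), (7, 5)]
    lev := [] }
  links := [[1, 7, 8, 9], [7, 0, 9, 2, 3, 10, 4], [3, 1, 9, 11], [10, 1, 2, 11, 12, 5, 6], [7, 1, 10,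
    13], [6, 3, 12, 14], [10, 3, 5, 14, 8, 13]]
  P := {
    a := 7
    N := 15
    nb := [898, 1693, 2570, 7270, 9346, 20552, 25896, 8467, 25281, 2311, 8282, 4620, 18472, 1488,
      4448]
    tri := [(0, 1, 7), (0, 1, 9), (0, 7, 8), (0, 8, 9), (1, 2, 3), (1, 2, 9), (1, 3, 10), (1, 4, 7),
      (1, 4, 10), (2, 3, 11), (2, 9, 11), (3, 5, 6), (3, 5, 12), (3, 6, 10), (3, 11, 12), (4, 7,
      13), (4, 10, 13), (5, 6, 14), (5, 12, 14), (6, 8, 13), (6, 8, 14), (6, 10, 13)]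
    fin := [0, 1, 1, 3, 0, 3, 3, 0, 8, 1, 1, 3, 12, 13, 14]
    chd := [(0, 1), (3, 13), (3, 14), (8, 3)]
    steps := [(0, 7), (0, 4), (1, 2), (1, 9), (1, 10), (3, 5), (3, 6), (3, 11)] }
  rep := [1, 0, 3, 8, 13, 14, 12]

noncomputable def v2091 : Cov.CovD where
  P := 3
  N := 4
  pl := [5]
  lev := [⟨[], [], [(0, 1), (0, 3), (1, 3)], [], [(0, 1, [0]), (1, 3, [2]), (2, 0, [1])]⟩,
    ⟨[], [(0, 0), (0, 1), (0, 3)], [(0, 0), (0, 1)], [], [(0, 1, [0]), (2, 0, [1]), (3, 0,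
      [1])]⟩,
    ⟨[(0, 1)], [(0, 0), (1, 0), (1, 1), (1, 2)], [(0, 2)], [], [(2, 0, [1]), (4, 2, [3, 4,
      5])]⟩,
    ⟨[(0, 1), (1, 2)], [(1, 0), (1, 1), (1, 2), (2, 0), (2, 2)], [(0, 2)], [6], [(3, 0,
      [1]), (4, 2, [3, 4, 5])]⟩,
    ⟨[(0, 1), (1, 2), (1, 3)], [(0, 1), (1, 0), (1, 1), (1, 4), (3, 0)], [(0, 1), (0, 4),
      (1, 4)], [], [(0, 1, [0]), (3, 0, [1]), (6, 4, [2])]⟩,
    ⟨[(1, 3), (2, 3)], [(3, 0), (3, 2), (3, 5)], [], [6], [(7, 5, [2])]⟩,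
    ⟨[(1, 3), (2, 3), (3, 5)], [(0, 3), (1, 0), (3, 0), (3, 2), (3, 3), (3, 4), (3, 5), (4,
      0), (4, 4), (5, 0), (5, 3), (5, 4), (5, 5)], [(0, 3), (0, 4), (0, 5), (3, 4), (3, 5),
      (4, 5)], [], [(1, 3, [2]), (3, 0, [1]), (6, 4, [2]), (7, 5, [2])]⟩]
  Ta := [((2, 1), 0, 3), ((2, 4), 0, 2), ((3, 6), 0, 4)]
  Tb := [((0, 1, 6), 1, 3, 4), ((1, 0, 2), 3, 1, 0), ((1, 0, 6), 3, 1, 4), ((1, 0, 7), 3, 1, 5),
    ((1, 2, 6), 3, 0, 4), ((1, 2, 7), 3, 0, 5), ((1, 6, 7), 3, 4, 5), ((2, 1, 4), 0, 3, 2),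
    ((4, 2, 5), 2, 0, 6), ((5, 4, 7), 6, 2, 5), ((6, 0, 1), 4, 1, 3), ((6, 0, 3), 4, 1, 0),
    ((6, 1, 3), 4, 3, 0), ((7, 1, 5), 5, 3, 6)]
  Tc := [(2, 3, 4), (2, 3, 5), (2, 4, 5)]
  Td := [((0, 1), (2, 1), 3), ((0, 1), (2, 4), 2), ((0, 1), (3, 6), 4), ((1, 0), (0, 1), 3), ((1,
    0), (0, 6), 4), ((2, 3), (4, 2), 0), ((2, 3), (4, 5), 6), ((2, 4), (4, 2), 0), ((2, 4),
    (4, 5), 6), ((2, 5), (4, 2), 0), ((2, 5), (4, 5), 6), ((3, 2), (1, 0), 1), ((3, 2), (1,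
    2), 0), ((3, 2), (1, 6), 4), ((3, 2), (1, 7), 5), ((4, 2), (6, 0), 1), ((4, 2), (6, 1),
    3), ((4, 2), (6, 3), 0), ((5, 2), (7, 1), 3), ((5, 2), (7, 5), 6)]
  G := [[0, 0x5232b222ca2d482, 0x14116c2a111cc8a411a18c211c619468c, 0x2231422a18c42251422318c8c,
    0x44918246451d44624b28c], [0, 0x22de2b22444e142, 0, 0x2234223222bcc422a884c1,
    0x443443c2449449c8a41]]

noncomputable def n2091 : Ent := ⟨e2091, noF, [], [], []⟩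

def c2091 : PLift (Cov.check n2091.C.D v2091 = true) := ⟨by decide +kernel⟩

def b2091 : PLift (entF (fidx ts) 400 2091 n2091 = true) := ⟨by decide +kernel⟩

theorem g2091 : GoodF (fidx ts) 400 2091 := GoodF.ofV v2091 n2091 c2091.down b2091.down

/-- 4747446:1768/3 -/
noncomputable def e2092 : SCfg where
  D := {
    a := 7
    L := 9
    kp := 7
    inn := [(0, 1), (1, 0), (1, 2), (1, 3), (1, 4), (2, 1), (2, 3), (3, 1), (3, 2), (3, 5), (3, 6), (4,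
      1), (5, 3), (5, 6), (6, 3), (6, 5)]
    mix := [(0, 0), (0, 1), (0, 2), (1, 0), (1, 2), (1, 3), (2, 2), (2, 4), (3, 3), (3, 4), (3, 5), (4,
      0), (4, 3), (4, 6), (5, 5), (5, 7), (6, 1), (6, 3), (6, 7), (6, 8)]
    cl := [1, 3, 0, 0, 2, 5, 7, 4, 6]
    chq := [(0, 1), (1, 0), (2, 3), (2, 4), (2, 6), (3, 2), (4, 2), (6, 2)]
    rng := [(0, 1), (0, 6), (1, 0), (1, 2), (1, 7), (1, 8), (2, 1), (2, 4), (3, 6), (3, 8), (4, 2), (4,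
      5), (5, 4), (5, 7), (6, 0), (6, 3), (7, 1), (7, 5), (8, 1), (8, 3)]
    lev := [] }
  links := [[1, 7, 8, 9], [7, 0, 9, 2, 3, 10, 4], [3, 1, 9, 11], [10, 1, 2, 11, 12, 5, 6], [7, 1, 10,
    13], [6, 3, 12, 14], [10, 3, 5, 14, 8, 15]]
  P := {
    a := 7
    N := 16
    nb := [898, 1693, 2570, 7270, 9346, 20552, 50472, 8467, 49857, 2311, 41050, 4620, 18472, 1168,
      4448, 1344]
    tri := [(0, 1, 7), (0, 1, 9), (0, 7, 8), (0, 8, 9), (1, 2, 3), (1, 2, 9), (1, 3, 10), (1, 4, 7),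
      (1, 4, 10), (2, 3, 11), (2, 9, 11), (3, 5, 6), (3, 5, 12), (3, 6, 10), (3, 11, 12), (4, 7,
      13), (4, 10, 13), (5, 6, 14), (5, 12, 14), (6, 8, 14), (6, 8, 15), (6, 10, 15)]
    fin := [0, 1, 1, 3, 0, 3, 3, 0, 8, 1, 1, 3, 12, 13, 14, 15]
    chd := [(0, 1), (3, 14), (3, 15), (8, 3)]
    steps := [(0, 7), (0, 4), (1, 2), (1, 9), (1, 10), (3, 5), (3, 6), (3, 11)] }
  rep := [1, 0, 3, 8, 14, 12, 15, 13]

noncomputable def v2092 : Cov.CovD where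
  P := 3
  N := 5
  pl := [5, 6]
  lev := [⟨[], [], [(0, 1), (0, 3), (1, 3)], [], [(0, 1, [0]), (1, 3, [2]), (2, 0, [1])]⟩,
    ⟨[], [(0, 0), (0, 1), (0, 3)], [(0, 0), (0, 1)], [], [(0, 1, [0]), (2, 0, [1]), (3, 0,
      [1])]⟩,
    ⟨[(0, 1)], [(0, 0), (1, 0), (1, 1), (1, 2)], [(0, 2)], [], [(2, 0, [1]), (4, 2, [3, 4,
      6])]⟩,
    ⟨[(0, 1), (1, 2)], [(1, 0), (1, 1), (1, 2), (2, 0), (2, 2)], [(0, 2)], [5], [(3, 0,
      [1]), (4, 2, [3, 4, 6])]⟩,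
    ⟨[(0, 1), (1, 2), (1, 3)], [(0, 1), (1, 0), (1, 1), (3, 0)], [(0, 1)], [7], [(0, 1,
      [0]), (3, 0, [1])]⟩,
    ⟨[(1, 3), (2, 3)], [(3, 0), (3, 2), (3, 4)], [], [5], [(7, 4, [2])]⟩,
    ⟨[(1, 3), (2, 3), (3, 5)], [(0, 3), (1, 0), (3, 0), (3, 2), (3, 3), (3, 4), (3, 6), (4,
      0), (5, 0), (5, 3), (5, 4), (5, 6)], [(0, 3), (0, 4), (0, 6), (3, 4), (3, 6), (4, 6)],
      [], [(1, 3, [2]), (3, 0, [1]), (7, 4, [2]), (8, 6, [2])]⟩]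
  Ta := [((2, 1), 0, 3), ((2, 4), 0, 2), ((3, 6), 0, 7), ((3, 8), 0, 6)]
  Tb := [((0, 1, 6), 1, 3, 7), ((1, 0, 2), 3, 1, 0), ((1, 0, 7), 3, 1, 4), ((1, 0, 8), 3, 1, 6),
    ((1, 2, 7), 3, 0, 4), ((1, 2, 8), 3, 0, 6), ((1, 7, 8), 3, 4, 6), ((2, 1, 4), 0, 3, 2),
    ((3, 6, 8), 0, 7, 6), ((4, 2, 5), 2, 0, 5), ((5, 4, 7), 5, 2, 4), ((6, 0, 3), 7, 1, 0),
    ((7, 1, 5), 4, 3, 5), ((8, 1, 3), 6, 3, 0)]
  Tc := [(2, 3, 4), (2, 3, 6), (2, 4, 6)]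
  Td := [((0, 1), (2, 1), 3), ((0, 1), (2, 4), 2), ((0, 1), (3, 6), 7), ((0, 1), (3, 8), 6), ((1,
    0), (0, 1), 3), ((1, 0), (0, 6), 7), ((2, 3), (4, 2), 0), ((2, 3), (4, 5), 5), ((2, 4),
    (4, 2), 0), ((2, 4), (4, 5), 5), ((2, 6), (4, 2), 0), ((2, 6), (4, 5), 5), ((3, 2), (1,
    0), 1), ((3, 2), (1, 2), 0), ((3, 2), (1, 7), 4), ((3, 2), (1, 8), 6), ((4, 2), (7, 1),
    3), ((4, 2), (7, 5), 5), ((6, 2), (8, 1), 3), ((6, 2), (8, 3), 0)]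
  G := [[0, 0xa562466412da69a6928c1c2, 0x1414ca11111e111ece8418411a11ac611c14c468c,
    0xa2314222d18c4222d1462318c8c, 0x443124449182c6451444b1a84c], [0,
    0xc8a8c1127236a56f2cc582, 0, 0x222d446234a2384488cec222d884c1, 0x443443c2449449c8a41]]

noncomputable def n2092 : Ent := ⟨e2092, noF, [], [], [(15, 13, [360048296834107614573520772494203283988579150297652619085262849, 0])]⟩

def c2092 : PLift (Cov.check n2092.C.D v2092 = true) := ⟨by decide +kernel⟩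

def b2092 : PLift (entF (fidx ts) 400 2092 n2092 = true) := ⟨by decide +kernel⟩

theorem g2092 : GoodF (fidx ts) 400 2092 := GoodF.ofV v2092 n2092 c2092.down b2092.down

/-- 4747446:1768/5 -/
noncomputable def e2093 : SCfg where
  D := {
    a := 7
    L := 9
    kp := 7
    inn := [(0, 1), (1, 0), (1, 2), (1, 3), (1, 4), (2, 1), (2, 3), (3, 1), (3, 2), (3, 5), (3, 6), (4,
      1), (5, 3), (5, 6), (6, 3), (6, 5)]
    mix := [(0, 0), (0, 1), (0, 2), (1, 0), (1, 2), (1, 3), (2, 2), (2, 4), (3, 3), (3, 4), (3, 5), (4,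
      0), (4, 3), (4, 6), (5, 5), (5, 7), (6, 3), (6, 6), (6, 7), (6, 8)]
    cl := [1, 7, 0, 0, 2, 5, 3, 4, 6]
    chq := [(0, 1), (1, 0), (2, 3), (2, 4), (2, 6), (3, 2), (4, 2), (6, 2)]
    rng := [(0, 1), (0, 6), (1, 0), (1, 2), (2, 1), (2, 4), (3, 6), (4, 2), (4, 5), (5, 4), (5, 7), (6,
      0), (6, 3), (6, 8), (7, 5), (7, 8), (8, 6), (8, 7)]
    lev := [] }
  links := [[1, 7, 8, 9], [7, 0, 9, 2, 3, 10, 4], [3, 1, 9, 11], [10, 1, 2, 11, 12, 5, 6], [7, 1, 10,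
    13], [6, 3, 12, 14], [10, 3, 5, 14, 15, 13]]
  P := {
    a := 7
    N := 16
    nb := [898, 1693, 2570, 7270, 9346, 20552, 58408, 8467, 641, 2311, 8282, 4620, 18472, 34000,
      36960, 24640]
    tri := [(0, 1, 7), (0, 1, 9), (0, 7, 8), (0, 8, 9), (1, 2, 3), (1, 2, 9), (1, 3, 10), (1, 4, 7),
      (1, 4, 10), (2, 3, 11), (2, 9, 11), (3, 5, 6), (3, 5, 12), (3, 6, 10), (3, 11, 12), (4, 7,
      13), (4, 10, 13), (5, 6, 14), (5, 12, 14), (6, 10, 13), (6, 13, 15), (6, 14, 15)]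
    fin := [0, 1, 1, 3, 0, 3, 3, 0, 8, 1, 1, 3, 12, 13, 14, 15]
    chd := [(0, 1), (3, 13), (3, 14), (3, 15)]
    steps := [(0, 7), (0, 4), (1, 2), (1, 9), (1, 10), (3, 5), (3, 6), (3, 11)] }
  rep := [1, 0, 3, 13, 14, 12, 15, 8]

noncomputable def v2093 : Cov.CovD where
  P := 3
  N := 5
  pl := [1, 5]
  lev := [⟨[], [], [(0, 1)], [7], [(0, 1, [0]), (2, 0, [1])]⟩,
    ⟨[], [(0, 0), (0, 1)], [(0, 0), (0, 1)], [], [(0, 1, [0]), (2, 0, [1]), (3, 0, [1])]⟩,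
    ⟨[(0, 1)], [(0, 0), (1, 0), (1, 1), (1, 2)], [(0, 2)], [], [(2, 0, [1]), (4, 2, [3, 4,
      6])]⟩,
    ⟨[(0, 1), (1, 2)], [(1, 0), (1, 1), (1, 2), (2, 0), (2, 2)], [(0, 2)], [5], [(3, 0,
      [1]), (4, 2, [3, 4, 6])]⟩,
    ⟨[(0, 1), (1, 2), (1, 3)], [(0, 1), (1, 0), (1, 1), (1, 3), (3, 0)], [(0, 1), (0, 3),
      (1, 3)], [], [(0, 1, [0]), (3, 0, [1]), (6, 3, [2])]⟩,
    ⟨[(1, 3), (2, 3)], [(3, 0), (3, 2), (3, 4)], [], [5], [(7, 4, [2])]⟩,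
    ⟨[(1, 3), (2, 3), (3, 5)], [(1, 0), (3, 0), (3, 2), (3, 3), (3, 4), (3, 6), (4, 0), (4,
      3), (5, 0), (5, 3), (5, 4), (5, 6)], [(0, 3), (0, 4), (0, 6), (3, 4), (3, 6), (4, 6)],
      [], [(3, 0, [1]), (6, 3, [2]), (7, 4, [2]), (8, 6, [2])]⟩]
  Ta := [((2, 1), 0, 7), ((2, 4), 0, 2), ((3, 6), 0, 3)]
  Tb := [((0, 1, 6), 1, 7, 3), ((1, 0, 2), 7, 1, 0), ((2, 1, 4), 0, 7, 2), ((4, 2, 5), 2, 0, 5),
    ((5, 4, 7), 5, 2, 4), ((6, 0, 3), 3, 1, 0), ((6, 0, 8), 3, 1, 6), ((6, 3, 8), 3, 0, 6),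
    ((7, 5, 8), 4, 5, 6), ((8, 6, 7), 6, 3, 4)]
  Tc := [(2, 3, 4), (2, 3, 6), (2, 4, 6)]
  Td := [((0, 1), (2, 1), 7), ((0, 1), (2, 4), 2), ((0, 1), (3, 6), 3), ((1, 0), (0, 1), 7), ((1,
    0), (0, 6), 3), ((2, 3), (4, 2), 0), ((2, 3), (4, 5), 5), ((2, 4), (4, 2), 0), ((2, 4),
    (4, 5), 5), ((2, 6), (4, 2), 0), ((2, 6), (4, 5), 5), ((3, 2), (6, 0), 1), ((3, 2), (6,
    3), 0), ((3, 2), (6, 8), 6), ((4, 2), (7, 5), 5), ((4, 2), (7, 8), 6), ((6, 2), (8, 6),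
    3), ((6, 2), (8, 7), 4)]
  G := [[0, 0x2121a4f22e429c4225225c41f2281cc, 0x1164421168211c1861d8ac11a11ac211c11cc468c,
    0xa2314445222d18c42251422318c28182cc, 0x4431244918a442124491411aa4c], [0,
    0x722922a62e2d842fa26a6294214486a, 0, 0x222d446234a238cc222d884c1,
    0x443443c2449449c8a41]]

noncomputable def n2093 : Ent := ⟨e2093, noF, [], [], [(8, 14, [385746751338780685620664494392815470296102193487288376381050881, 0]), (8, 15, [360035742630636841211993100915356868655746945586763691016237057, 0])]⟩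

def c2093 : PLift (Cov.check n2093.C.D v2093 = true) := ⟨by decide +kernel⟩

def b2093 : PLift (entF (fidx ts) 400 2093 n2093 = true) := ⟨by decide +kernel⟩

theorem g2093 : GoodF (fidx ts) 400 2093 := GoodF.ofV v2093 n2093 c2093.down b2093.down

/-- 4747446:1768 -/
noncomputable def e2094 : SCfg where
  D := {
    a := 7
    L := 10
    kp := 8
    inn := [(0, 1), (1, 0), (1, 2), (1, 3), (1, 4), (2, 1), (2, 3), (3, 1), (3, 2), (3, 5), (3, 6), (4,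
      1), (5, 3), (5, 6), (6, 3), (6, 5)]
    mix := [(0, 0), (0, 1), (0, 2), (1, 0), (1, 2), (1, 3), (2, 2), (2, 4), (3, 3), (3, 4), (3, 5), (4,
      0), (4, 3), (4, 6), (5, 5), (5, 7), (6, 3), (6, 7), (6, 8), (6, 9)]
    cl := [1, 7, 0, 0, 2, 4, 8, 3, 5, 6]
    chq := [(0, 1), (1, 0), (2, 3), (2, 5), (2, 6), (3, 2), (5, 2), (6, 2)]
    rng := [(0, 1), (0, 6), (1, 0), (1, 2), (2, 1), (2, 4), (3, 6), (3, 9), (4, 2), (4, 5), (5, 4), (5,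
      7), (6, 0), (6, 3), (7, 5), (7, 8), (8, 7), (8, 9), (9, 3), (9, 8)]
    lev := [] }
  links := [[1, 7, 8, 9], [7, 0, 9, 2, 3, 10, 4], [3, 1, 9, 11], [10, 1, 2, 11, 12, 5, 6], [7, 1, 10,
    13], [6, 3, 12, 14], [10, 3, 5, 14, 15, 16]]
  P := {
    a := 7
    N := 17
    nb := [898, 1693, 2570, 7270, 9346, 20552, 115752, 8467, 641, 2311, 73818, 4620, 18472, 1168,
      36960, 81984, 33856]
    tri := [(0, 1, 7), (0, 1, 9), (0, 7, 8), (0, 8, 9), (1, 2, 3), (1, 2, 9), (1, 3, 10), (1, 4, 7),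
      (1, 4, 10), (2, 3, 11), (2, 9, 11), (3, 5, 6), (3, 5, 12), (3, 6, 10), (3, 11, 12), (4, 7,
      13), (4, 10, 13), (5, 6, 14), (5, 12, 14), (6, 10, 16), (6, 14, 15), (6, 15, 16)]
    fin := [0, 1, 1, 3, 0, 3, 3, 0, 8, 1, 1, 3, 12, 13, 14, 15, 16]
    chd := [(0, 1), (3, 14), (3, 15), (3, 16)]
    steps := [(0, 7), (0, 4), (1, 2), (1, 9), (1, 10), (3, 5), (3, 6), (3, 11)] }
  rep := [1, 0, 3, 14, 12, 15, 16, 8, 13]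

noncomputable def v2094 : Cov.CovD where
  P := 3
  N := 6
  pl := [1, 5, 6]
  lev := [⟨[], [], [(0, 1)], [7], [(0, 1, [0]), (2, 0, [1])]⟩,
    ⟨[], [(0, 0), (0, 1)], [(0, 0), (0, 1)], [], [(0, 1, [0]), (2, 0, [1]), (3, 0, [1])]⟩,
    ⟨[(0, 1)], [(0, 0), (1, 0), (1, 1), (1, 2)], [(0, 2)], [], [(2, 0, [1]), (4, 2, [3, 5,
      6])]⟩,
    ⟨[(0, 1), (1, 2)], [(1, 0), (1, 1), (1, 2), (2, 0), (2, 2)], [(0, 2)], [4], [(3, 0,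
      [1]), (4, 2, [3, 5, 6])]⟩,
    ⟨[(0, 1), (1, 2), (1, 3)], [(0, 1), (1, 0), (1, 1), (3, 0)], [(0, 1)], [8], [(0, 1,
      [0]), (3, 0, [1])]⟩,
    ⟨[(1, 3), (2, 3)], [(3, 0), (3, 2), (3, 3)], [], [4], [(7, 3, [2])]⟩,
    ⟨[(1, 3), (2, 3), (3, 5)], [(1, 0), (3, 0), (3, 2), (3, 3), (3, 5), (3, 6), (4, 0), (5,
      0), (5, 3), (5, 5), (5, 6)], [(0, 3), (0, 5), (0, 6), (3, 5), (3, 6), (5, 6)], [], [(3,
      0, [1]), (7, 3, [2]), (8, 5, [2]), (9, 6, [2])]⟩]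
  Ta := [((2, 1), 0, 7), ((2, 4), 0, 2), ((3, 6), 0, 8), ((3, 9), 0, 6)]
  Tb := [((0, 1, 6), 1, 7, 8), ((1, 0, 2), 7, 1, 0), ((2, 1, 4), 0, 7, 2), ((3, 6, 9), 0, 8, 6),
    ((4, 2, 5), 2, 0, 4), ((5, 4, 7), 4, 2, 3), ((6, 0, 3), 8, 1, 0), ((7, 5, 8), 3, 4, 5),
    ((8, 7, 9), 5, 3, 6), ((9, 3, 8), 6, 0, 5)]
  Tc := [(2, 3, 5), (2, 3, 6), (2, 5, 6)]
  Td := [((0, 1), (2, 1), 7), ((0, 1), (2, 4), 2), ((0, 1), (3, 6), 8), ((0, 1), (3, 9), 6), ((1,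
    0), (0, 1), 7), ((1, 0), (0, 6), 8), ((2, 3), (4, 2), 0), ((2, 3), (4, 5), 4), ((2, 5),
    (4, 2), 0), ((2, 5), (4, 5), 4), ((2, 6), (4, 2), 0), ((2, 6), (4, 5), 4), ((3, 2), (7,
    5), 4), ((3, 2), (7, 8), 5), ((5, 2), (8, 7), 3), ((5, 2), (8, 9), 6), ((6, 2), (9, 3),
    0), ((6, 2), (9, 8), 5)]
  G := [[0, 0xf2225c4229229a89221f228e225225cc12c, 0x11a4211c44611c81168a4c11a11ac211c11cc468c,
    0x241422231422918cc222d146231881ac8c, 0x4431244918a44431244918a4c], [0,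
    0xf222564229229a8c2229229c225225ac12c, 0, 0x225442234a238448ec222d8828486c1,
    0x443443c2449449c8a41]]

noncomputable def n2094 : Ent := ⟨e2094, noF, [], [], [(8, 14, [1685382413448253767852309107433119732572617628602273068445373472769, 0]), (8, 15, [1685356702439545624007900436039642273970977273354372543760008658945, 0]), (16, 13, [1580044429602293643470024699863340111275081426260889765897801224193, 0])]⟩

def c2094 : PLift (Cov.check n2094.C.D v2094 = true) := ⟨by decide +kernel⟩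

def b2094 : PLift (entF (fidx ts) 400 2094 n2094 = true) := ⟨by decide +kernel⟩

theorem g2094 : GoodF (fidx ts) 400 2094 := GoodF.ofV v2094 n2094 c2094.down b2094.down

/-- 4747447:1769/1 -/
noncomputable def e2095 : SCfg where
  D := {
    a := 7
    L := 10
    kp := 8
    inn := [(0, 1), (1, 0), (1, 2), (1, 3), (1, 4), (2, 1), (2, 3), (3, 1), (3, 2), (3, 5), (3, 6), (4,
      1), (5, 3), (5, 6), (6, 3), (6, 5)]
    mix := [(0, 0), (0, 1), (0, 2), (1, 0), (1, 2), (1, 3), (2, 2), (2, 4), (3, 3), (3, 4), (3, 5), (4,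
      0), (4, 3), (4, 6), (5, 1), (5, 5), (6, 1), (6, 3), (6, 7), (6, 8), (6, 9)]
    cl := [1, 2, 0, 0, 3, 4, 8, 5, 6, 7]
    chq := [(0, 1), (1, 0), (2, 3), (3, 2), (3, 5), (3, 6), (3, 7), (5, 3), (6, 3), (7, 3)]
    rng := [(0, 1), (0, 6), (1, 0), (1, 2), (1, 5), (1, 7), (2, 1), (2, 4), (3, 6), (3, 9), (4, 2), (4,
      5), (5, 1), (5, 4), (6, 0), (6, 3), (7, 1), (7, 8), (8, 7), (8, 9), (9, 3), (9, 8)]
    lev := [] }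
  links := [[1, 7, 8, 9], [7, 0, 9, 2, 3, 10, 4], [3, 1, 9, 11], [10, 1, 2, 11, 12, 5, 6], [7, 1, 10,
    13], [6, 3, 12, 8], [10, 3, 5, 8, 14, 15, 16]]
  P := {
    a := 7
    N := 17
    nb := [898, 1693, 2570, 7270, 9346, 4424, 116008, 8467, 21217, 2311, 73818, 4620, 2344, 1168,
      33088, 81984, 33856]
    tri := [(0, 1, 7), (0, 1, 9), (0, 7, 8), (0, 8, 9), (1, 2, 3), (1, 2, 9), (1, 3, 10), (1, 4, 7),
      (1, 4, 10), (2, 3, 11), (2, 9, 11), (3, 5, 6), (3, 5, 12), (3, 6, 10), (3, 11, 12), (4, 7,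
      13), (4, 10, 13), (5, 6, 8), (5, 8, 12), (6, 8, 14), (6, 10, 16), (6, 14, 15), (6, 15, 16)]
    fin := [0, 1, 1, 3, 0, 5, 3, 0, 5, 1, 1, 3, 12, 13, 14, 15, 16]
    chd := [(0, 1), (3, 14), (3, 15), (3, 16), (5, 3)]
    steps := [(0, 7), (0, 4), (1, 2), (1, 9), (1, 10), (3, 6), (3, 11), (5, 8)] }
  rep := [1, 0, 5, 3, 12, 14, 15, 16, 13]

noncomputable def v2095 : Cov.CovD where
  P := 3
  N := 6
  pl := [5, 6]
  lev := [⟨[], [], [(0, 1), (0, 2), (1, 2)], [], [(0, 1, [0]), (1, 2, [3]), (2, 0, [1])]⟩,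
    ⟨[], [(0, 0), (0, 1), (0, 2)], [(0, 0), (0, 1)], [], [(0, 1, [0]), (2, 0, [1]), (3, 0,
      [1])]⟩,
    ⟨[(0, 1)], [(0, 0), (1, 0), (1, 1), (1, 3)], [(0, 3)], [], [(2, 0, [1]), (4, 3, [2, 5,
      6, 7])]⟩,
    ⟨[(0, 1), (1, 2)], [(1, 0), (1, 1), (1, 3), (2, 0), (2, 3)], [(0, 3)], [4], [(3, 0,
      [1]), (4, 3, [2, 5, 6, 7])]⟩,
    ⟨[(0, 1), (1, 2), (1, 3)], [(0, 1), (1, 0), (1, 1), (3, 0)], [(0, 1)], [8], [(0, 1,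
      [0]), (3, 0, [1])]⟩,
    ⟨[(1, 3), (2, 3)], [(0, 2), (3, 0), (3, 2), (3, 3)], [], [4], [(1, 2, [3])]⟩,
    ⟨[(1, 3), (2, 3), (3, 5)], [(0, 2), (1, 0), (3, 0), (3, 2), (3, 3), (3, 5), (3, 6), (3,
      7), (4, 0), (5, 0), (5, 2), (5, 5), (5, 6), (5, 7)], [(0, 2), (0, 5), (0, 6), (0, 7),
      (2, 5), (2, 6), (2, 7), (5, 6), (5, 7), (6, 7)], [], [(1, 2, [3]), (3, 0, [1]), (7, 5,
      [3]), (8, 6, [3]), (9, 7, [3])]⟩]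
  Ta := [((2, 1), 0, 2), ((2, 4), 0, 3), ((3, 6), 0, 8), ((3, 9), 0, 7)]
  Tb := [((0, 1, 6), 1, 2, 8), ((1, 0, 2), 2, 1, 0), ((1, 0, 5), 2, 1, 4), ((1, 0, 7), 2, 1, 5),
    ((1, 2, 5), 2, 0, 4), ((1, 2, 7), 2, 0, 5), ((1, 5, 7), 2, 4, 5), ((2, 1, 4), 0, 2, 3),
    ((3, 6, 9), 0, 8, 7), ((4, 2, 5), 3, 0, 4), ((5, 1, 4), 4, 2, 3), ((6, 0, 3), 8, 1, 0),
    ((7, 1, 8), 5, 2, 6), ((8, 7, 9), 6, 5, 7), ((9, 3, 8), 7, 0, 6)]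
  Tc := [(3, 2, 5), (3, 2, 6), (3, 2, 7), (3, 5, 6), (3, 5, 7), (3, 6, 7)]
  Td := [((0, 1), (2, 1), 2), ((0, 1), (2, 4), 3), ((0, 1), (3, 6), 8), ((0, 1), (3, 9), 7), ((1,
    0), (0, 1), 2), ((1, 0), (0, 6), 8), ((2, 3), (1, 0), 1), ((2, 3), (1, 2), 0), ((2, 3),
    (1, 5), 4), ((2, 3), (1, 7), 5), ((3, 2), (4, 2), 0), ((3, 2), (4, 5), 4), ((3, 5), (4,
    2), 0), ((3, 5), (4, 5), 4), ((3, 6), (4, 2), 0), ((3, 6), (4, 5), 4), ((3, 7), (4, 2),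
    0), ((3, 7), (4, 5), 4), ((5, 3), (7, 1), 2), ((5, 3), (7, 8), 6), ((6, 3), (8, 7), 5),
    ((6, 3), (8, 9), 7), ((7, 3), (9, 3), 0), ((7, 3), (9, 8), 6)]
  G := [[0, 0x61616a4a464c94c96e184, 0x2ac226c16818ca8c6c9a48, 0x19c19c4c9d2284,
    0x2a9112c2564611128c1818c8ac8], [0, 0x68686a4a4cc1c1ce128, 0, 0x48cd48cdc2281,
    0xa14c24646868ca18c28e1c8]]

noncomputable def n2095 : Ent := ⟨e2095, noF, [], [], []⟩

def c2095 : PLift (Cov.check n2095.C.D v2095 = true) := ⟨by decide +kernel⟩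

def b2095 : PLift (entF (fidx ts) 400 2095 n2095 = true) := ⟨by decide +kernel⟩

theorem g2095 : GoodF (fidx ts) 400 2095 := GoodF.ofV v2095 n2095 c2095.down b2095.down

/-- 4747447:1769/3 -/
noncomputable def e2096 : SCfg where
  D := {
    a := 7
    L := 9
    kp := 7
    inn := [(0, 1), (1, 0), (1, 2), (1, 3), (1, 4), (2, 1), (2, 3), (3, 1), (3, 2), (3, 5), (3, 6), (4,
      1), (5, 3), (5, 6), (6, 3), (6, 5)]
    mix := [(0, 0), (0, 1), (0, 2), (1, 0), (1, 2), (1, 3), (2, 2), (2, 4), (3, 3), (3, 4), (3, 5), (4,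
      0), (4, 3), (4, 6), (5, 5), (5, 7), (6, 1), (6, 3), (6, 6), (6, 7), (6, 8)]
    cl := [1, 3, 0, 0, 2, 6, 4, 5, 7]
    chq := [(0, 1), (1, 0), (2, 3), (2, 4), (2, 5), (2, 7), (3, 2), (4, 2), (5, 2), (7, 2)]
    rng := [(0, 1), (0, 6), (1, 0), (1, 2), (1, 7), (1, 8), (2, 1), (2, 4), (3, 6), (4, 2), (4, 5), (5,
      4), (5, 7), (6, 0), (6, 3), (6, 8), (7, 1), (7, 5), (8, 1), (8, 6)]
    lev := [] }
  links := [[1, 7, 8, 9], [7, 0, 9, 2, 3, 10, 4], [3, 1, 9, 11], [10, 1, 2, 11, 12, 5, 6], [7, 1, 10,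
    13], [6, 3, 12, 14], [10, 3, 5, 14, 8, 15, 13]]
  P := {
    a := 7
    N := 16
    nb := [898, 1693, 2570, 7270, 9346, 20552, 58664, 8467, 49857, 2311, 8282, 4620, 18472, 34000,
      4448, 8512]
    tri := [(0, 1, 7), (0, 1, 9), (0, 7, 8), (0, 8, 9), (1, 2, 3), (1, 2, 9), (1, 3, 10), (1, 4, 7),
      (1, 4, 10), (2, 3, 11), (2, 9, 11), (3, 5, 6), (3, 5, 12), (3, 6, 10), (3, 11, 12), (4, 7,
      13), (4, 10, 13), (5, 6, 14), (5, 12, 14), (6, 8, 14), (6, 8, 15), (6, 10, 13), (6, 13, 15)]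
    fin := [0, 1, 1, 3, 0, 3, 3, 0, 8, 1, 1, 3, 12, 13, 14, 15]
    chd := [(0, 1), (3, 13), (3, 14), (3, 15), (8, 3)]
    steps := [(0, 7), (0, 4), (1, 2), (1, 9), (1, 10), (3, 5), (3, 6), (3, 11)] }
  rep := [1, 0, 3, 8, 13, 14, 12, 15]

noncomputable def v2096 : Cov.CovD where
  P := 3
  N := 5
  pl := [5]
  lev := [⟨[], [], [(0, 1), (0, 3), (1, 3)], [], [(0, 1, [0]), (1, 3, [2]), (2, 0, [1])]⟩,
    ⟨[], [(0, 0), (0, 1), (0, 3)], [(0, 0), (0, 1)], [], [(0, 1, [0]), (2, 0, [1]), (3, 0,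
      [1])]⟩,
    ⟨[(0, 1)], [(0, 0), (1, 0), (1, 1), (1, 2)], [(0, 2)], [], [(2, 0, [1]), (4, 2, [3, 4,
      5, 7])]⟩,
    ⟨[(0, 1), (1, 2)], [(1, 0), (1, 1), (1, 2), (2, 0), (2, 2)], [(0, 2)], [6], [(3, 0,
      [1]), (4, 2, [3, 4, 5, 7])]⟩,
    ⟨[(0, 1), (1, 2), (1, 3)], [(0, 1), (1, 0), (1, 1), (1, 4), (3, 0)], [(0, 1), (0, 4),
      (1, 4)], [], [(0, 1, [0]), (3, 0, [1]), (6, 4, [2])]⟩,
    ⟨[(1, 3), (2, 3)], [(3, 0), (3, 2), (3, 5)], [], [6], [(7, 5, [2])]⟩,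
    ⟨[(1, 3), (2, 3), (3, 5)], [(0, 3), (1, 0), (3, 0), (3, 2), (3, 3), (3, 4), (3, 5), (3,
      7), (4, 0), (4, 4), (5, 0), (5, 3), (5, 4), (5, 5), (5, 7)], [(0, 3), (0, 4), (0, 5),
      (0, 7), (3, 4), (3, 5), (3, 7), (4, 5), (4, 7), (5, 7)], [], [(1, 3, [2]), (3, 0, [1]),
      (6, 4, [2]), (7, 5, [2]), (8, 7, [2])]⟩]
  Ta := [((2, 1), 0, 3), ((2, 4), 0, 2), ((3, 6), 0, 4)]
  Tb := [((0, 1, 6), 1, 3, 4), ((1, 0, 2), 3, 1, 0), ((1, 0, 7), 3, 1, 5), ((1, 0, 8), 3, 1, 7),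
    ((1, 2, 7), 3, 0, 5), ((1, 2, 8), 3, 0, 7), ((1, 7, 8), 3, 5, 7), ((2, 1, 4), 0, 3, 2),
    ((4, 2, 5), 2, 0, 6), ((5, 4, 7), 6, 2, 5), ((6, 0, 3), 4, 1, 0), ((6, 0, 8), 4, 1, 7),
    ((6, 3, 8), 4, 0, 7), ((7, 1, 5), 5, 3, 6), ((8, 1, 6), 7, 3, 4)]
  Tc := [(2, 3, 4), (2, 3, 5), (2, 3, 7), (2, 4, 5), (2, 4, 7), (2, 5, 7)]
  Td := [((0, 1), (2, 1), 3), ((0, 1), (2, 4), 2), ((0, 1), (3, 6), 4), ((1, 0), (0, 1), 3), ((1,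
    0), (0, 6), 4), ((2, 3), (4, 2), 0), ((2, 3), (4, 5), 6), ((2, 4), (4, 2), 0), ((2, 4),
    (4, 5), 6), ((2, 5), (4, 2), 0), ((2, 5), (4, 5), 6), ((2, 7), (4, 2), 0), ((2, 7), (4,
    5), 6), ((3, 2), (1, 0), 1), ((3, 2), (1, 2), 0), ((3, 2), (1, 7), 5), ((3, 2), (1, 8),
    7), ((4, 2), (6, 0), 1), ((4, 2), (6, 3), 0), ((4, 2), (6, 8), 7), ((5, 2), (7, 1), 3),
    ((5, 2), (7, 5), 6), ((7, 2), (8, 1), 3), ((7, 2), (8, 6), 4)]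
  G := [[0, 0x2252412128a84c225225a412872a81ca, 0x1444211612c211c18c8ac11a11ac211c11cc468c,
    0x241422231422918cc222d1462312889c8c, 0x4114431a4818a44431244918a4c], [0,
    0x2128a2252c122881722222d2366c58a, 0, 0x225442484a22342238c229882848ec1,
    0x443443c2449449c8a41]]

noncomputable def n2096 : Ent := ⟨e2096, noF, [], [], []⟩

def c2096 : PLift (Cov.check n2096.C.D v2096 = true) := ⟨by decide +kernel⟩

def b2096 : PLift (entF (fidx ts) 400 2096 n2096 = true) := ⟨by decide +kernel⟩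

theorem g2096 : GoodF (fidx ts) 400 2096 := GoodF.ofV v2096 n2096 c2096.down b2096.down

/-- 4747447:1769/2 -/
noncomputable def e2097 : SCfg where
  D := {
    a := 7
    L := 10
    kp := 8
    inn := [(0, 1), (1, 0), (1, 2), (1, 3), (1, 4), (2, 1), (2, 3), (3, 1), (3, 2), (3, 5), (3, 6), (4,
      1), (5, 3), (5, 6), (6, 3), (6, 5)]
    mix := [(0, 0), (0, 1), (0, 2), (1, 0), (1, 2), (1, 3), (2, 2), (2, 4), (3, 3), (3, 4), (3, 5), (4,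
      0), (4, 3), (4, 6), (5, 5), (5, 7), (6, 1), (6, 3), (6, 7), (6, 8), (6, 9)]
    cl := [1, 3, 0, 0, 2, 5, 8, 4, 6, 7]
    chq := [(0, 1), (1, 0), (2, 3), (2, 4), (2, 6), (2, 7), (3, 2), (4, 2), (6, 2), (7, 2)]
    rng := [(0, 1), (0, 6), (1, 0), (1, 2), (1, 7), (1, 8), (2, 1), (2, 4), (3, 6), (3, 9), (4, 2), (4,
      5), (5, 4), (5, 7), (6, 0), (6, 3), (7, 1), (7, 5), (8, 1), (8, 9), (9, 3), (9, 8)]
    lev := [] }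
  links := [[1, 7, 8, 9], [7, 0, 9, 2, 3, 10, 4], [3, 1, 9, 11], [10, 1, 2, 11, 12, 5, 6], [7, 1, 10,
    13], [6, 3, 12, 14], [10, 3, 5, 14, 8, 15, 16]]
  P := {
    a := 7
    N := 17
    nb := [898, 1693, 2570, 7270, 9346, 20552, 116008, 8467, 49857, 2311, 73818, 4620, 18472, 1168,
      4448, 65856, 33856]
    tri := [(0, 1, 7), (0, 1, 9), (0, 7, 8), (0, 8, 9), (1, 2, 3), (1, 2, 9), (1, 3, 10), (1, 4, 7),
      (1, 4, 10), (2, 3, 11), (2, 9, 11), (3, 5, 6), (3, 5, 12), (3, 6, 10), (3, 11, 12), (4, 7,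
      13), (4, 10, 13), (5, 6, 14), (5, 12, 14), (6, 8, 14), (6, 8, 15), (6, 10, 16), (6, 15, 16)]
    fin := [0, 1, 1, 3, 0, 3, 3, 0, 8, 1, 1, 3, 12, 13, 14, 15, 16]
    chd := [(0, 1), (3, 14), (3, 15), (3, 16), (8, 3)]
    steps := [(0, 7), (0, 4), (1, 2), (1, 9), (1, 10), (3, 5), (3, 6), (3, 11)] }
  rep := [1, 0, 3, 8, 14, 12, 15, 16, 13]

noncomputable def v2097 : Cov.CovD where
  P := 3
  N := 6
  pl := [5, 6]
  lev := [⟨[], [], [(0, 1), (0, 3), (1, 3)], [], [(0, 1, [0]), (1, 3, [2]), (2, 0, [1])]⟩,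
    ⟨[], [(0, 0), (0, 1), (0, 3)], [(0, 0), (0, 1)], [], [(0, 1, [0]), (2, 0, [1]), (3, 0,
      [1])]⟩,
    ⟨[(0, 1)], [(0, 0), (1, 0), (1, 1), (1, 2)], [(0, 2)], [], [(2, 0, [1]), (4, 2, [3, 4,
      6, 7])]⟩,
    ⟨[(0, 1), (1, 2)], [(1, 0), (1, 1), (1, 2), (2, 0), (2, 2)], [(0, 2)], [5], [(3, 0,
      [1]), (4, 2, [3, 4, 6, 7])]⟩,
    ⟨[(0, 1), (1, 2), (1, 3)], [(0, 1), (1, 0), (1, 1), (3, 0)], [(0, 1)], [8], [(0, 1,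
      [0]), (3, 0, [1])]⟩,
    ⟨[(1, 3), (2, 3)], [(3, 0), (3, 2), (3, 4)], [], [5], [(7, 4, [2])]⟩,
    ⟨[(1, 3), (2, 3), (3, 5)], [(0, 3), (1, 0), (3, 0), (3, 2), (3, 3), (3, 4), (3, 6), (3,
      7), (4, 0), (5, 0), (5, 3), (5, 4), (5, 6), (5, 7)], [(0, 3), (0, 4), (0, 6), (0, 7),
      (3, 4), (3, 6), (3, 7), (4, 6), (4, 7), (6, 7)], [], [(1, 3, [2]), (3, 0, [1]), (7, 4,
      [2]), (8, 6, [2]), (9, 7, [2])]⟩]
  Ta := [((2, 1), 0, 3), ((2, 4), 0, 2), ((3, 6), 0, 8), ((3, 9), 0, 7)]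
  Tb := [((0, 1, 6), 1, 3, 8), ((1, 0, 2), 3, 1, 0), ((1, 0, 7), 3, 1, 4), ((1, 0, 8), 3, 1, 6),
    ((1, 2, 7), 3, 0, 4), ((1, 2, 8), 3, 0, 6), ((1, 7, 8), 3, 4, 6), ((2, 1, 4), 0, 3, 2),
    ((3, 6, 9), 0, 8, 7), ((4, 2, 5), 2, 0, 5), ((5, 4, 7), 5, 2, 4), ((6, 0, 3), 8, 1, 0),
    ((7, 1, 5), 4, 3, 5), ((8, 1, 9), 6, 3, 7), ((9, 3, 8), 7, 0, 6)]
  Tc := [(2, 3, 4), (2, 3, 6), (2, 3, 7), (2, 4, 6), (2, 4, 7), (2, 6, 7)]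
  Td := [((0, 1), (2, 1), 3), ((0, 1), (2, 4), 2), ((0, 1), (3, 6), 8), ((0, 1), (3, 9), 7), ((1,
    0), (0, 1), 3), ((1, 0), (0, 6), 8), ((2, 3), (4, 2), 0), ((2, 3), (4, 5), 5), ((2, 4),
    (4, 2), 0), ((2, 4), (4, 5), 5), ((2, 6), (4, 2), 0), ((2, 6), (4, 5), 5), ((2, 7), (4,
    2), 0), ((2, 7), (4, 5), 5), ((3, 2), (1, 0), 1), ((3, 2), (1, 2), 0), ((3, 2), (1, 7),
    4), ((3, 2), (1, 8), 6), ((4, 2), (7, 1), 3), ((4, 2), (7, 5), 5), ((6, 2), (8, 1), 3),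
    ((6, 2), (8, 9), 7), ((7, 2), (9, 3), 0), ((7, 2), (9, 8), 6)]
  G := [[0, 0x229229a2252256c12229229c225225cc12a,
    0x11a4211c44611c81168a4c11c411a4611a8211c84e8c, 0x241422231422918cc225148223182818acc,
    0x4431244918a44431244918a4c], [0, 0x225225c4229229a8c227a27ac81225225c486a, 0,
    0x225442484a22342238c229882848ec1, 0x443443c2449449c8a41]]

noncomputable def n2097 : Ent := ⟨e2097, noF, [], [], [(16, 13, [1580044429602293643470024699863340111275081426260889765897801236481, 0])]⟩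

def c2097 : PLift (Cov.check n2097.C.D v2097 = true) := ⟨by decide +kernel⟩

def b2097 : PLift (entF (fidx ts) 400 2097 n2097 = true) := ⟨by decide +kernel⟩

theorem g2097 : GoodF (fidx ts) 400 2097 := GoodF.ofV v2097 n2097 c2097.down b2097.down

/-- 4747447:1769/5 -/
noncomputable def e2098 : SCfg where
  D := {
    a := 7
    L := 9
    kp := 7
    inn := [(0, 1), (1, 0), (1, 2), (1, 3), (1, 4), (2, 1), (2, 3), (3, 1), (3, 2), (3, 5), (3, 6), (4,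
      1), (5, 3), (5, 6), (6, 3), (6, 5)]
    mix := [(0, 0), (0, 1), (0, 2), (1, 0), (1, 2), (1, 3), (2, 2), (2, 4), (3, 3), (3, 4), (3, 5), (4,
      0), (4, 3), (4, 6), (5, 5), (5, 7), (6, 1), (6, 3), (6, 6), (6, 7), (6, 8)]
    cl := [1, 3, 0, 0, 2, 6, 4, 5, 7]
    chq := [(0, 1), (1, 0), (2, 3), (2, 4), (2, 5), (2, 7), (3, 2), (4, 2), (5, 2), (7, 2)]
    rng := [(0, 1), (0, 6), (1, 0), (1, 2), (1, 6), (1, 8), (2, 1), (2, 4), (3, 6), (4, 2), (4, 5), (5,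
      4), (5, 7), (6, 0), (6, 1), (6, 3), (7, 5), (7, 8), (8, 1), (8, 7)]
    lev := [] }
  links := [[1, 7, 8, 9], [7, 0, 9, 2, 3, 10, 4], [3, 1, 9, 11], [10, 1, 2, 11, 12, 5, 6], [7, 1, 10,
    13], [6, 3, 12, 14], [10, 3, 5, 14, 15, 8, 13]]
  P := {
    a := 7
    N := 16
    nb := [898, 1693, 2570, 7270, 9346, 20552, 58664, 8467, 41665, 2311, 8282, 4620, 18472, 1488,
      36960, 16704]
    tri := [(0, 1, 7), (0, 1, 9), (0, 7, 8), (0, 8, 9), (1, 2, 3), (1, 2, 9), (1, 3, 10), (1, 4, 7),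
      (1, 4, 10), (2, 3, 11), (2, 9, 11), (3, 5, 6), (3, 5, 12), (3, 6, 10), (3, 11, 12), (4, 7,
      13), (4, 10, 13), (5, 6, 14), (5, 12, 14), (6, 8, 13), (6, 8, 15), (6, 10, 13), (6, 14, 15)]
    fin := [0, 1, 1, 3, 0, 3, 3, 0, 8, 1, 1, 3, 12, 13, 14, 15]
    chd := [(0, 1), (3, 13), (3, 14), (3, 15), (8, 3)]
    steps := [(0, 7), (0, 4), (1, 2), (1, 9), (1, 10), (3, 5), (3, 6), (3, 11)] }
  rep := [1, 0, 3, 8, 13, 14, 12, 15]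

noncomputable def v2098 : Cov.CovD where
  P := 3
  N := 5
  pl := [5]
  lev := [⟨[], [], [(0, 1), (0, 3), (1, 3)], [], [(0, 1, [0]), (1, 3, [2]), (2, 0, [1])]⟩,
    ⟨[], [(0, 0), (0, 1), (0, 3)], [(0, 0), (0, 1)], [], [(0, 1, [0]), (2, 0, [1]), (3, 0,
      [1])]⟩,
    ⟨[(0, 1)], [(0, 0), (1, 0), (1, 1), (1, 2)], [(0, 2)], [], [(2, 0, [1]), (4, 2, [3, 4,
      5, 7])]⟩,
    ⟨[(0, 1), (1, 2)], [(1, 0), (1, 1), (1, 2), (2, 0), (2, 2)], [(0, 2)], [6], [(3, 0,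
      [1]), (4, 2, [3, 4, 5, 7])]⟩,
    ⟨[(0, 1), (1, 2), (1, 3)], [(0, 1), (1, 0), (1, 1), (1, 4), (3, 0)], [(0, 1), (0, 4),
      (1, 4)], [], [(0, 1, [0]), (3, 0, [1]), (6, 4, [2])]⟩,
    ⟨[(1, 3), (2, 3)], [(3, 0), (3, 2), (3, 5)], [], [6], [(7, 5, [2])]⟩,
    ⟨[(1, 3), (2, 3), (3, 5)], [(0, 3), (1, 0), (3, 0), (3, 2), (3, 3), (3, 4), (3, 5), (3,
      7), (4, 0), (4, 4), (5, 0), (5, 3), (5, 4), (5, 5), (5, 7)], [(0, 3), (0, 4), (0, 5),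
      (0, 7), (3, 4), (3, 5), (3, 7), (4, 5), (4, 7), (5, 7)], [], [(1, 3, [2]), (3, 0, [1]),
      (6, 4, [2]), (7, 5, [2]), (8, 7, [2])]⟩]
  Ta := [((2, 1), 0, 3), ((2, 4), 0, 2), ((3, 6), 0, 4)]
  Tb := [((0, 1, 6), 1, 3, 4), ((1, 0, 2), 3, 1, 0), ((1, 0, 6), 3, 1, 4), ((1, 0, 8), 3, 1, 7),
    ((1, 2, 6), 3, 0, 4), ((1, 2, 8), 3, 0, 7), ((1, 6, 8), 3, 4, 7), ((2, 1, 4), 0, 3, 2),
    ((4, 2, 5), 2, 0, 6), ((5, 4, 7), 6, 2, 5), ((6, 0, 1), 4, 1, 3), ((6, 0, 3), 4, 1, 0),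
    ((6, 1, 3), 4, 3, 0), ((7, 5, 8), 5, 6, 7), ((8, 1, 7), 7, 3, 5)]
  Tc := [(2, 3, 4), (2, 3, 5), (2, 3, 7), (2, 4, 5), (2, 4, 7), (2, 5, 7)]
  Td := [((0, 1), (2, 1), 3), ((0, 1), (2, 4), 2), ((0, 1), (3, 6), 4), ((1, 0), (0, 1), 3), ((1,
    0), (0, 6), 4), ((2, 3), (4, 2), 0), ((2, 3), (4, 5), 6), ((2, 4), (4, 2), 0), ((2, 4),
    (4, 5), 6), ((2, 5), (4, 2), 0), ((2, 5), (4, 5), 6), ((2, 7), (4, 2), 0), ((2, 7), (4,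
    5), 6), ((3, 2), (1, 0), 1), ((3, 2), (1, 2), 0), ((3, 2), (1, 6), 4), ((3, 2), (1, 8),
    7), ((4, 2), (6, 0), 1), ((4, 2), (6, 1), 3), ((4, 2), (6, 3), 0), ((5, 2), (7, 5), 6),
    ((5, 2), (7, 8), 7), ((7, 2), (8, 1), 3), ((7, 2), (8, 7), 5)]
  G := [[0, 0x229282124645222c2166282aa65213268c86, 0x116a1542111e11ac148a2c11a11ac211c11cc468c,
    0x241422231422918cc222d1462312889c8c, 0x4434244948a44431244918a4c], [0,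
    0x225241229281a229229c225225cc12a, 0, 0x225442484a22342238c229882848ec1,
    0x443443c2449449c8a41]]

noncomputable def n2098 : Ent := ⟨e2098, noF, [], [], []⟩

def c2098 : PLift (Cov.check n2098.C.D v2098 = true) := ⟨by decide +kernel⟩

def b2098 : PLift (entF (fidx ts) 400 2098 n2098 = true) := ⟨by decide +kernel⟩

theorem g2098 : GoodF (fidx ts) 400 2098 := GoodF.ofV v2098 n2098 c2098.down b2098.down

/-- 4747447:1769/4 -/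
noncomputable def e2099 : SCfg where
  D := {
    a := 7
    L := 10
    kp := 8
    inn := [(0, 1), (1, 0), (1, 2), (1, 3), (1, 4), (2, 1), (2, 3), (3, 1), (3, 2), (3, 5), (3, 6), (4,
      1), (5, 3), (5, 6), (6, 3), (6, 5)]
    mix := [(0, 0), (0, 1), (0, 2), (1, 0), (1, 2), (1, 3), (2, 2), (2, 4), (3, 3), (3, 4), (3, 5), (4,
      0), (4, 3), (4, 6), (5, 5), (5, 7), (6, 1), (6, 3), (6, 7), (6, 8), (6, 9)]
    cl := [1, 3, 0, 0, 2, 5, 8, 4, 6, 7]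
    chq := [(0, 1), (1, 0), (2, 3), (2, 4), (2, 6), (2, 7), (3, 2), (4, 2), (6, 2), (7, 2)]
    rng := [(0, 1), (0, 6), (1, 0), (1, 2), (1, 8), (1, 9), (2, 1), (2, 4), (3, 6), (3, 9), (4, 2), (4,
      5), (5, 4), (5, 7), (6, 0), (6, 3), (7, 5), (7, 8), (8, 1), (8, 7), (9, 1), (9, 3)]
    lev := [] }
  links := [[1, 7, 8, 9], [7, 0, 9, 2, 3, 10, 4], [3, 1, 9, 11], [10, 1, 2, 11, 12, 5, 6], [7, 1, 10,
    13], [6, 3, 12, 14], [10, 3, 5, 14, 15, 8, 16]]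
  P := {
    a := 7
    N := 17
    nb := [898, 1693, 2570, 7270, 9346, 20552, 116008, 8467, 99009, 2311, 73818, 4620, 18472, 1168,
      36960, 16704, 1344]
    tri := [(0, 1, 7), (0, 1, 9), (0, 7, 8), (0, 8, 9), (1, 2, 3), (1, 2, 9), (1, 3, 10), (1, 4, 7),
      (1, 4, 10), (2, 3, 11), (2, 9, 11), (3, 5, 6), (3, 5, 12), (3, 6, 10), (3, 11, 12), (4, 7,
      13), (4, 10, 13), (5, 6, 14), (5, 12, 14), (6, 8, 15), (6, 8, 16), (6, 10, 16), (6, 14, 15)]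
    fin := [0, 1, 1, 3, 0, 3, 3, 0, 8, 1, 1, 3, 12, 13, 14, 15, 16]
    chd := [(0, 1), (3, 14), (3, 15), (3, 16), (8, 3)]
    steps := [(0, 7), (0, 4), (1, 2), (1, 9), (1, 10), (3, 5), (3, 6), (3, 11)] }
  rep := [1, 0, 3, 8, 14, 12, 15, 16, 13]

noncomputable def v2099 : Cov.CovD where
  P := 3
  N := 6
  pl := [5, 6]
  lev := [⟨[], [], [(0, 1), (0, 3), (1, 3)], [], [(0, 1, [0]), (1, 3, [2]), (2, 0, [1])]⟩,
    ⟨[], [(0, 0), (0, 1), (0, 3)], [(0, 0), (0, 1)], [], [(0, 1, [0]), (2, 0, [1]), (3, 0,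
      [1])]⟩,
    ⟨[(0, 1)], [(0, 0), (1, 0), (1, 1), (1, 2)], [(0, 2)], [], [(2, 0, [1]), (4, 2, [3, 4,
      6, 7])]⟩,
    ⟨[(0, 1), (1, 2)], [(1, 0), (1, 1), (1, 2), (2, 0), (2, 2)], [(0, 2)], [5], [(3, 0,
      [1]), (4, 2, [3, 4, 6, 7])]⟩,
    ⟨[(0, 1), (1, 2), (1, 3)], [(0, 1), (1, 0), (1, 1), (3, 0)], [(0, 1)], [8], [(0, 1,
      [0]), (3, 0, [1])]⟩,
    ⟨[(1, 3), (2, 3)], [(3, 0), (3, 2), (3, 4)], [], [5], [(7, 4, [2])]⟩,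
    ⟨[(1, 3), (2, 3), (3, 5)], [(0, 3), (1, 0), (3, 0), (3, 2), (3, 3), (3, 4), (3, 6), (3,
      7), (4, 0), (5, 0), (5, 3), (5, 4), (5, 6), (5, 7)], [(0, 3), (0, 4), (0, 6), (0, 7),
      (3, 4), (3, 6), (3, 7), (4, 6), (4, 7), (6, 7)], [], [(1, 3, [2]), (3, 0, [1]), (7, 4,
      [2]), (8, 6, [2]), (9, 7, [2])]⟩]
  Ta := [((2, 1), 0, 3), ((2, 4), 0, 2), ((3, 6), 0, 8), ((3, 9), 0, 7)]
  Tb := [((0, 1, 6), 1, 3, 8), ((1, 0, 2), 3, 1, 0), ((1, 0, 8), 3, 1, 6), ((1, 0, 9), 3, 1, 7),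
    ((1, 2, 8), 3, 0, 6), ((1, 2, 9), 3, 0, 7), ((1, 8, 9), 3, 6, 7), ((2, 1, 4), 0, 3, 2),
    ((3, 6, 9), 0, 8, 7), ((4, 2, 5), 2, 0, 5), ((5, 4, 7), 5, 2, 4), ((6, 0, 3), 8, 1, 0),
    ((7, 5, 8), 4, 5, 6), ((8, 1, 7), 6, 3, 4), ((9, 1, 3), 7, 3, 0)]
  Tc := [(2, 3, 4), (2, 3, 6), (2, 3, 7), (2, 4, 6), (2, 4, 7), (2, 6, 7)]
  Td := [((0, 1), (2, 1), 3), ((0, 1), (2, 4), 2), ((0, 1), (3, 6), 8), ((0, 1), (3, 9), 7), ((1,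
    0), (0, 1), 3), ((1, 0), (0, 6), 8), ((2, 3), (4, 2), 0), ((2, 3), (4, 5), 5), ((2, 4),
    (4, 2), 0), ((2, 4), (4, 5), 5), ((2, 6), (4, 2), 0), ((2, 6), (4, 5), 5), ((2, 7), (4,
    2), 0), ((2, 7), (4, 5), 5), ((3, 2), (1, 0), 1), ((3, 2), (1, 2), 0), ((3, 2), (1, 8),
    6), ((3, 2), (1, 9), 7), ((4, 2), (7, 5), 5), ((4, 2), (7, 8), 6), ((6, 2), (8, 1), 3),
    ((6, 2), (8, 7), 4), ((7, 2), (9, 1), 3), ((7, 2), (9, 3), 0)]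
  G := [[0, 0x229229c225225cc12218225225cc28229c8c26,
    0x116116c211c11cc8a411a4211611cc4a11a882cc, 0x2112424c5222d18c4222d142112828c9c8c,
    0x4431244918a44431244918a4c], [0, 0x229229a84225225c486229229c225225cc12a, 0,
    0x225442484a22342238c229882848ec1, 0x443443c2449449c8a41]]

noncomputable def n2099 : Ent := ⟨e2099, noF, [], [], [(16, 13, [1580044429602293643470024699863340111275081426260889765897801244673, 0])]⟩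

def c2099 : PLift (Cov.check n2099.C.D v2099 = true) := ⟨by decide +kernel⟩

def b2099 : PLift (entF (fidx ts) 400 2099 n2099 = true) := ⟨by decide +kernel⟩

theorem g2099 : GoodF (fidx ts) 400 2099 := GoodF.ofV v2099 n2099 c2099.down b2099.down

/-- 4747447:1769/6 -/
noncomputable def e2100 : SCfg where
  D := {
    a := 7
    L := 10
    kp := 8
    inn := [(0, 1), (1, 0), (1, 2), (1, 3), (1, 4), (2, 1), (2, 3), (3, 1), (3, 2), (3, 5), (3, 6), (4,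
      1), (5, 3), (5, 6), (6, 3), (6, 5)]
    mix := [(0, 0), (0, 1), (0, 2), (1, 0), (1, 2), (1, 3), (2, 2), (2, 4), (3, 3), (3, 4), (3, 5), (4,
      0), (4, 3), (4, 6), (5, 5), (5, 7), (6, 3), (6, 6), (6, 7), (6, 8), (6, 9)]
    cl := [1, 8, 0, 0, 2, 5, 3, 4, 6, 7]
    chq := [(0, 1), (1, 0), (2, 3), (2, 4), (2, 6), (2, 7), (3, 2), (4, 2), (6, 2), (7, 2)]
    rng := [(0, 1), (0, 6), (1, 0), (1, 2), (2, 1), (2, 4), (3, 6), (4, 2), (4, 5), (5, 4), (5, 7), (6,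
      0), (6, 3), (6, 9), (7, 5), (7, 8), (8, 7), (8, 9), (9, 6), (9, 8)]
    lev := [] }
  links := [[1, 7, 8, 9], [7, 0, 9, 2, 3, 10, 4], [3, 1, 9, 11], [10, 1, 2, 11, 12, 5, 6], [7, 1, 10,
    13], [6, 3, 12, 14], [10, 3, 5, 14, 15, 16, 13]]
  P := {
    a := 7
    N := 17
    nb := [898, 1693, 2570, 7270, 9346, 20552, 123944, 8467, 641, 2311, 8282, 4620, 18472, 66768,
      36960, 81984, 41024]
    tri := [(0, 1, 7), (0, 1, 9), (0, 7, 8), (0, 8, 9), (1, 2, 3), (1, 2, 9), (1, 3, 10), (1, 4, 7),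
      (1, 4, 10), (2, 3, 11), (2, 9, 11), (3, 5, 6), (3, 5, 12), (3, 6, 10), (3, 11, 12), (4, 7,
      13), (4, 10, 13), (5, 6, 14), (5, 12, 14), (6, 10, 13), (6, 13, 16), (6, 14, 15), (6, 15,
      16)]
    fin := [0, 1, 1, 3, 0, 3, 3, 0, 8, 1, 1, 3, 12, 13, 14, 15, 16]
    chd := [(0, 1), (3, 13), (3, 14), (3, 15), (3, 16)]
    steps := [(0, 7), (0, 4), (1, 2), (1, 9), (1, 10), (3, 5), (3, 6), (3, 11)] }
  rep := [1, 0, 3, 13, 14, 12, 15, 16, 8]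

noncomputable def v2100 : Cov.CovD where
  P := 3
  N := 6
  pl := [1, 5]
  lev := [⟨[], [], [(0, 1)], [8], [(0, 1, [0]), (2, 0, [1])]⟩,
    ⟨[], [(0, 0), (0, 1)], [(0, 0), (0, 1)], [], [(0, 1, [0]), (2, 0, [1]), (3, 0, [1])]⟩,
    ⟨[(0, 1)], [(0, 0), (1, 0), (1, 1), (1, 2)], [(0, 2)], [], [(2, 0, [1]), (4, 2, [3, 4,
      6, 7])]⟩,
    ⟨[(0, 1), (1, 2)], [(1, 0), (1, 1), (1, 2), (2, 0), (2, 2)], [(0, 2)], [5], [(3, 0,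
      [1]), (4, 2, [3, 4, 6, 7])]⟩,
    ⟨[(0, 1), (1, 2), (1, 3)], [(0, 1), (1, 0), (1, 1), (1, 3), (3, 0)], [(0, 1), (0, 3),
      (1, 3)], [], [(0, 1, [0]), (3, 0, [1]), (6, 3, [2])]⟩,
    ⟨[(1, 3), (2, 3)], [(3, 0), (3, 2), (3, 4)], [], [5], [(7, 4, [2])]⟩,
    ⟨[(1, 3), (2, 3), (3, 5)], [(1, 0), (3, 0), (3, 2), (3, 3), (3, 4), (3, 6), (3, 7), (4,
      0), (4, 3), (5, 0), (5, 3), (5, 4), (5, 6), (5, 7)], [(0, 3), (0, 4), (0, 6), (0, 7),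
      (3, 4), (3, 6), (3, 7), (4, 6), (4, 7), (6, 7)], [], [(3, 0, [1]), (6, 3, [2]), (7, 4,
      [2]), (8, 6, [2]), (9, 7, [2])]⟩]
  Ta := [((2, 1), 0, 8), ((2, 4), 0, 2), ((3, 6), 0, 3)]
  Tb := [((0, 1, 6), 1, 8, 3), ((1, 0, 2), 8, 1, 0), ((2, 1, 4), 0, 8, 2), ((4, 2, 5), 2, 0, 5),
    ((5, 4, 7), 5, 2, 4), ((6, 0, 3), 3, 1, 0), ((6, 0, 9), 3, 1, 7), ((6, 3, 9), 3, 0, 7),
    ((7, 5, 8), 4, 5, 6), ((8, 7, 9), 6, 4, 7), ((9, 6, 8), 7, 3, 6)]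
  Tc := [(2, 3, 4), (2, 3, 6), (2, 3, 7), (2, 4, 6), (2, 4, 7), (2, 6, 7)]
  Td := [((0, 1), (2, 1), 8), ((0, 1), (2, 4), 2), ((0, 1), (3, 6), 3), ((1, 0), (0, 1), 8), ((1,
    0), (0, 6), 3), ((2, 3), (4, 2), 0), ((2, 3), (4, 5), 5), ((2, 4), (4, 2), 0), ((2, 4),
    (4, 5), 5), ((2, 6), (4, 2), 0), ((2, 6), (4, 5), 5), ((2, 7), (4, 2), 0), ((2, 7), (4,
    5), 5), ((3, 2), (6, 0), 1), ((3, 2), (6, 3), 0), ((3, 2), (6, 9), 7), ((4, 2), (7, 5),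
    5), ((4, 2), (7, 8), 6), ((6, 2), (8, 7), 4), ((6, 2), (8, 9), 7), ((7, 2), (9, 6), 3),
    ((7, 2), (9, 8), 6)]
  G := [[0, 0x229229a225225ac1222927aa814225225c482e,
    0x12116c211c11cc148aa411c411a4681168211c88acc, 0x2112424c5222d18c42251422318c28182cc,
    0x4431244918a44114431a4818a4c], [0, 0x229229a2252256c1224212b6e41229229a84ac, 0,
    0x2254422342238c2484e2298828486c1, 0x443443c2449449c8a41]]

noncomputable def n2100 : Ent := ⟨e2100, noF, [], [], [(8, 15, [1685356702439545624007900436039642273970977273354372543760008675329, 0]), (8, 16, [1580044410770988437309982408355971841652082177953823432505697705985, 0])]⟩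

def c2100 : PLift (Cov.check n2100.C.D v2100 = true) := ⟨by decide +kernel⟩

def b2100 : PLift (entF (fidx ts) 400 2100 n2100 = true) := ⟨by decide +kernel⟩

theorem g2100 : GoodF (fidx ts) 400 2100 := GoodF.ofV v2100 n2100 c2100.down b2100.down

/-- 4747447:1769 -/
noncomputable def e2101 : SCfg where
  D := {
    a := 7
    L := 11
    kp := 9
    inn := [(0, 1), (1, 0), (1, 2), (1, 3), (1, 4), (2, 1), (2, 3), (3, 1), (3, 2), (3, 5), (3, 6), (4,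
      1), (5, 3), (5, 6), (6, 3), (6, 5)]
    mix := [(0, 0), (0, 1), (0, 2), (1, 0), (1, 2), (1, 3), (2, 2), (2, 4), (3, 3), (3, 4), (3, 5), (4,
      0), (4, 3), (4, 6), (5, 5), (5, 7), (6, 3), (6, 7), (6, 8), (6, 9), (6, 10)]
    cl := [1, 8, 0, 0, 2, 4, 9, 3, 5, 6, 7]
    chq := [(0, 1), (1, 0), (2, 3), (2, 5), (2, 6), (2, 7), (3, 2), (5, 2), (6, 2), (7, 2)]
    rng := [(0, 1), (0, 6), (1, 0), (1, 2), (2, 1), (2, 4), (3, 6), (3, 10), (4, 2), (4, 5), (5, 4),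
      (5, 7), (6, 0), (6, 3), (7, 5), (7, 8), (8, 7), (8, 9), (9, 8), (9, 10), (10, 3), (10, 9)]
    lev := [] }
  links := [[1, 7, 8, 9], [7, 0, 9, 2, 3, 10, 4], [3, 1, 9, 11], [10, 1, 2, 11, 12, 5, 6], [7, 1, 10,
    13], [6, 3, 12, 14], [10, 3, 5, 14, 15, 16, 17]]
  P := {
    a := 7
    N := 18
    nb := [898, 1693, 2570, 7270, 9346, 20552, 246824, 8467, 641, 2311, 139354, 4620, 18472, 1168,
      36960, 81984, 163904, 66624]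
    tri := [(0, 1, 7), (0, 1, 9), (0, 7, 8), (0, 8, 9), (1, 2, 3), (1, 2, 9), (1, 3, 10), (1, 4, 7),
      (1, 4, 10), (2, 3, 11), (2, 9, 11), (3, 5, 6), (3, 5, 12), (3, 6, 10), (3, 11, 12), (4, 7,
      13), (4, 10, 13), (5, 6, 14), (5, 12, 14), (6, 10, 17), (6, 14, 15), (6, 15, 16), (6, 16,
      17)]
    fin := [0, 1, 1, 3, 0, 3, 3, 0, 8, 1, 1, 3, 12, 13, 14, 15, 16, 17]
    chd := [(0, 1), (3, 14), (3, 15), (3, 16), (3, 17)]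
    steps := [(0, 7), (0, 4), (1, 2), (1, 9), (1, 10), (3, 5), (3, 6), (3, 11)] }
  rep := [1, 0, 3, 14, 12, 15, 16, 17, 8, 13]

noncomputable def v2101 : Cov.CovD where
  P := 3
  N := 7
  pl := [1, 5, 6]
  lev := [⟨[], [], [(0, 1)], [8], [(0, 1, [0]), (2, 0, [1])]⟩,
    ⟨[], [(0, 0), (0, 1)], [(0, 0), (0, 1)], [], [(0, 1, [0]), (2, 0, [1]), (3, 0, [1])]⟩,
    ⟨[(0, 1)], [(0, 0), (1, 0), (1, 1), (1, 2)], [(0, 2)], [], [(2, 0, [1]), (4, 2, [3, 5,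
      6, 7])]⟩,
    ⟨[(0, 1), (1, 2)], [(1, 0), (1, 1), (1, 2), (2, 0), (2, 2)], [(0, 2)], [4], [(3, 0,
      [1]), (4, 2, [3, 5, 6, 7])]⟩,
    ⟨[(0, 1), (1, 2), (1, 3)], [(0, 1), (1, 0), (1, 1), (3, 0)], [(0, 1)], [9], [(0, 1,
      [0]), (3, 0, [1])]⟩,
    ⟨[(1, 3), (2, 3)], [(3, 0), (3, 2), (3, 3)], [], [4], [(7, 3, [2])]⟩,
    ⟨[(1, 3), (2, 3), (3, 5)], [(1, 0), (3, 0), (3, 2), (3, 3), (3, 5), (3, 6), (3, 7), (4,
      0), (5, 0), (5, 3), (5, 5), (5, 6), (5, 7)], [(0, 3), (0, 5), (0, 6), (0, 7), (3, 5),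
      (3, 6), (3, 7), (5, 6), (5, 7), (6, 7)], [], [(3, 0, [1]), (7, 3, [2]), (8, 5, [2]),
      (9, 6, [2]), (10, 7, [2])]⟩]
  Ta := [((2, 1), 0, 8), ((2, 4), 0, 2), ((3, 6), 0, 9), ((3, 10), 0, 7)]
  Tb := [((0, 1, 6), 1, 8, 9), ((1, 0, 2), 8, 1, 0), ((2, 1, 4), 0, 8, 2), ((3, 6, 10), 0, 9, 7),
    ((4, 2, 5), 2, 0, 4), ((5, 4, 7), 4, 2, 3), ((6, 0, 3), 9, 1, 0), ((7, 5, 8), 3, 4, 5),
    ((8, 7, 9), 5, 3, 6), ((9, 8, 10), 6, 5, 7), ((10, 3, 9), 7, 0, 6)]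
  Tc := [(2, 3, 5), (2, 3, 6), (2, 3, 7), (2, 5, 6), (2, 5, 7), (2, 6, 7)]
  Td := [((0, 1), (2, 1), 8), ((0, 1), (2, 4), 2), ((0, 1), (3, 6), 9), ((0, 1), (3, 10), 7),
    ((1, 0), (0, 1), 8), ((1, 0), (0, 6), 9), ((2, 3), (4, 2), 0), ((2, 3), (4, 5), 4), ((2,
    5), (4, 2), 0), ((2, 5), (4, 5), 4), ((2, 6), (4, 2), 0), ((2, 6), (4, 5), 4), ((2, 7),
    (4, 2), 0), ((2, 7), (4, 5), 4), ((3, 2), (7, 5), 4), ((3, 2), (7, 8), 5), ((5, 2), (8,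
    7), 3), ((5, 2), (8, 9), 6), ((6, 2), (9, 8), 5), ((6, 2), (9, 10), 7), ((7, 2), (10, 3),
    0), ((7, 2), (10, 9), 6)]
  G := [[0, 0x225225c4229229c8c2225225648229229a84ac, 0x148116116ca1811cc8a411a11ac211c11cc468c,
    0x2112424c5222d18c42251422318c28182cc, 0x4431244918a442124491411aa4c], [0,
    0x225225641229229a84a229229c218c24225c452a, 0, 0x225442484a22342238c229882848ec1,
    0x443443c2449449c8a41]]

noncomputable def n2101 : Ent := ⟨e2101, noF, [], [], [(8, 14, [7334790875878422277917280412776772662961875900559637987928627378057217, 0]), (8, 15, [7334790850167413569773436004105379185503274260204390087403942013243393, 0]), (8, 16, [7334685537875745012586738086077695515070955365108989538292687702274049, 0]), (17, 13, [6903326391226443182813612567740724581985591720012749800372886076342273, 0])]⟩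

def c2101 : PLift (Cov.check n2101.C.D v2101 = true) := ⟨by decide +kernel⟩

def b2101 : PLift (entF (fidx ts) 400 2101 n2101 = true) := ⟨by decide +kernel⟩

theorem g2101 : GoodF (fidx ts) 400 2101 := GoodF.ofV v2101 n2101 c2101.down b2101.down

/-- 4747465:1775/2 -/
noncomputable def e2102 : SCfg where
  D := {
    a := 7
    L := 9
    kp := 6
    inn := [(0, 1), (1, 0), (1, 2), (1, 3), (1, 4), (2, 1), (2, 3), (3, 1), (3, 2), (3, 5), (3, 6), (4,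
      1), (5, 3), (5, 6), (6, 3), (6, 5)]
    mix := [(0, 0), (0, 1), (0, 2), (1, 0), (1, 2), (1, 3), (2, 2), (2, 4), (3, 3), (3, 4), (3, 5), (4,
      0), (4, 3), (4, 6), (5, 1), (5, 5), (5, 7), (5, 8), (6, 3), (6, 6), (6, 8)]
    cl := [1, 5, 0, 0, 2, 3, 4, 6, 3]
    chq := [(0, 1), (1, 0), (2, 4), (4, 2)]
    rng := [(0, 1), (0, 6), (1, 0), (1, 2), (1, 5), (1, 7), (2, 1), (2, 4), (3, 6), (4, 2), (4, 5), (5,
      1), (5, 4), (6, 0), (6, 3), (6, 8), (7, 1), (7, 8), (8, 6), (8, 7)]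
    lev := [] }
  links := [[1, 7, 8, 9], [7, 0, 9, 2, 3, 10, 4], [3, 1, 9, 11], [10, 1, 2, 11, 12, 5, 6], [7, 1, 10,
    13], [6, 3, 12, 8, 14, 15], [10, 3, 5, 15, 13]]
  P := {
    a := 7
    N := 16
    nb := [898, 1693, 2570, 7270, 9346, 53576, 42024, 8467, 21153, 2311, 8282, 4620, 2344, 34000,
      33056, 24672]
    tri := [(0, 1, 7), (0, 1, 9), (0, 7, 8), (0, 8, 9), (1, 2, 3), (1, 2, 9), (1, 3, 10), (1, 4, 7),
      (1, 4, 10), (2, 3, 11), (2, 9, 11), (3, 5, 6), (3, 5, 12), (3, 6, 10), (3, 11, 12), (4, 7,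
      13), (4, 10, 13), (5, 6, 15), (5, 8, 12), (5, 8, 14), (5, 14, 15), (6, 10, 13), (6, 13, 15)]
    fin := [0, 1, 1, 3, 0, 5, 3, 0, 8, 1, 1, 3, 5, 13, 14, 5]
    chd := [(0, 1), (3, 13)]
    steps := [(0, 7), (0, 4), (1, 2), (1, 9), (1, 10), (3, 6), (3, 11), (5, 12), (5, 15)] }
  rep := [1, 0, 3, 5, 13, 8, 14]

noncomputable def v2102 : Cov.CovD where
  P := 3
  N := 4
  pl := [1, 7]
  lev := [⟨[], [], [(0, 1)], [5], [(0, 1, [0]), (2, 0, [1])]⟩,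
    ⟨[], [(0, 0), (0, 1)], [(0, 0), (0, 1)], [], [(0, 1, [0]), (2, 0, [1]), (3, 0, [1])]⟩,
    ⟨[(0, 1)], [(0, 0), (1, 0), (1, 1), (1, 2)], [(0, 2)], [], [(2, 0, [1]), (4, 2, [4])]⟩,
    ⟨[(0, 1), (1, 2)], [(1, 0), (1, 1), (1, 2), (1, 3), (2, 0), (2, 2), (2, 3)], [(0, 2),
      (0, 3), (2, 3)], [], [(3, 0, [1]), (4, 2, [4]), (5, 3, [])]⟩,
    ⟨[(0, 1), (1, 2), (1, 3)], [(0, 1), (1, 0), (1, 1), (1, 4), (3, 0)], [(0, 1), (0, 4),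
      (1, 4)], [], [(0, 1, [0]), (3, 0, [1]), (6, 4, [2])]⟩,
    ⟨[(1, 3), (2, 3)], [(3, 0), (3, 2), (3, 3)], [(3, 3)], [5, 6], [(5, 3, []), (8, 3,
      [])]⟩,
    ⟨[(1, 3), (2, 3), (3, 5)], [(1, 0), (3, 0), (3, 2), (3, 3), (3, 4), (4, 0), (4, 4), (5,
      0), (5, 3), (5, 4)], [(0, 3), (0, 4), (3, 4)], [], [(3, 0, [1]), (6, 4, [2]), (8, 3,
      [])]⟩]
  Ta := [((2, 1), 0, 5), ((2, 4), 0, 2), ((3, 6), 0, 4), ((5, 1), 3, 5), ((5, 4), 3, 2), ((8, 6),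
    3, 4), ((8, 7), 3, 6)]
  Tb := [((0, 1, 6), 1, 5, 4), ((1, 0, 2), 5, 1, 0), ((1, 0, 5), 5, 1, 3), ((1, 0, 7), 5, 1, 6),
    ((1, 2, 5), 5, 0, 3), ((1, 2, 7), 5, 0, 6), ((1, 5, 7), 5, 3, 6), ((2, 1, 4), 0, 5, 2),
    ((4, 2, 5), 2, 0, 3), ((5, 1, 4), 3, 5, 2), ((6, 0, 3), 4, 1, 0), ((6, 0, 8), 4, 1, 3),
    ((6, 3, 8), 4, 0, 3), ((7, 1, 8), 6, 5, 3), ((8, 6, 7), 3, 4, 6)]
  Tc := []
  Td := [((0, 1), (2, 1), 5), ((0, 1), (2, 4), 2), ((0, 1), (3, 6), 4), ((1, 0), (0, 1), 5), ((1,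
    0), (0, 6), 4), ((2, 4), (4, 2), 0), ((2, 4), (4, 5), 3), ((4, 2), (6, 0), 1), ((4, 2),
    (6, 3), 0), ((4, 2), (6, 8), 3)]
  G := [[0, 0x22948142a8d24884434888b8c42e, 0x883124229182c22511434688c,
    0x222b122a4548222718868984c, 0x4831242918a42627484419a28c], [0, 0x229262d6814aea72844a,
    0x1846eb9824122e8ef5288c, 0x222b184422271488c, 0x444b1284e4471824c], [0,
    0x24a24968838c12246722868c18c, 0, 0x28481424841824474282b8c48d, 0x8c874222548a2848c82c1],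
    [0, 0x24a2ed6418aea72814a, 0, 0x2222f4482222f884c1, 0x8a44f4444fc2841]]

noncomputable def n2102 : Ent := ⟨e2102, noF, [], [], []⟩

def c2102 : PLift (Cov.check n2102.C.D v2102 = true) := ⟨by decide +kernel⟩

def b2102 : PLift (entF (fidx ts) 400 2102 n2102 = true) := ⟨by decide +kernel⟩

theorem g2102 : GoodF (fidx ts) 400 2102 := GoodF.ofV v2102 n2102 c2102.down b2102.down

/-- 4747465:1775/1 -/
noncomputable def e2103 : SCfg where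
  D := {
    a := 7
    L := 10
    kp := 7
    inn := [(0, 1), (1, 0), (1, 2), (1, 3), (1, 4), (2, 1), (2, 3), (3, 1), (3, 2), (3, 5), (3, 6), (4,
      1), (5, 3), (5, 6), (6, 3), (6, 5)]
    mix := [(0, 0), (0, 1), (0, 2), (1, 0), (1, 2), (1, 3), (2, 2), (2, 4), (3, 3), (3, 4), (3, 5), (4,
      0), (4, 3), (4, 6), (5, 1), (5, 5), (5, 7), (5, 8), (6, 3), (6, 8), (6, 9)]
    cl := [1, 2, 0, 0, 4, 3, 6, 7, 3, 5]
    chq := [(0, 1), (1, 0), (4, 5), (5, 4)]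
    rng := [(0, 1), (0, 6), (1, 0), (1, 2), (1, 5), (1, 7), (2, 1), (2, 4), (3, 6), (3, 9), (4, 2), (4,
      5), (5, 1), (5, 4), (6, 0), (6, 3), (7, 1), (7, 8), (8, 7), (8, 9), (9, 3), (9, 8)]
    lev := [] }
  links := [[1, 7, 8, 9], [7, 0, 9, 2, 3, 10, 4], [3, 1, 9, 11], [10, 1, 2, 11, 12, 5, 6], [7, 1, 10,
    13], [6, 3, 12, 8, 14, 15], [10, 3, 5, 15, 16]]
  P := {
    a := 7
    N := 17
    nb := [898, 1693, 2570, 7270, 9346, 53576, 99368, 8467, 21153, 2311, 73818, 4620, 2344, 1168,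
      33056, 82016, 33856]
    tri := [(0, 1, 7), (0, 1, 9), (0, 7, 8), (0, 8, 9), (1, 2, 3), (1, 2, 9), (1, 3, 10), (1, 4, 7),
      (1, 4, 10), (2, 3, 11), (2, 9, 11), (3, 5, 6), (3, 5, 12), (3, 6, 10), (3, 11, 12), (4, 7,
      13), (4, 10, 13), (5, 6, 15), (5, 8, 12), (5, 8, 14), (5, 14, 15), (6, 10, 16), (6, 15, 16)]
    fin := [0, 1, 1, 3, 0, 5, 3, 0, 8, 1, 1, 3, 5, 13, 14, 5, 16]
    chd := [(0, 1), (3, 16)]
    steps := [(0, 7), (0, 4), (1, 2), (1, 9), (1, 10), (3, 6), (3, 11), (5, 12), (5, 15)] }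
  rep := [1, 0, 8, 5, 3, 16, 13, 14]

noncomputable def v2103 : Cov.CovD where
  P := 3
  N := 5
  pl := [1, 6, 7]
  lev := [⟨[], [], [(0, 1)], [2], [(0, 1, [0]), (2, 0, [1])]⟩,
    ⟨[], [(0, 0), (0, 1)], [(0, 0), (0, 1)], [], [(0, 1, [0]), (2, 0, [1]), (3, 0, [1])]⟩,
    ⟨[(0, 1)], [(0, 0), (1, 0), (1, 1), (1, 4)], [(0, 4)], [], [(2, 0, [1]), (4, 4, [5])]⟩,
    ⟨[(0, 1), (1, 2)], [(1, 0), (1, 1), (1, 3), (1, 4), (2, 0), (2, 3), (2, 4)], [(0, 3),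
      (0, 4), (3, 4)], [], [(3, 0, [1]), (4, 4, [5]), (5, 3, [])]⟩,
    ⟨[(0, 1), (1, 2), (1, 3)], [(0, 1), (1, 0), (1, 1), (3, 0)], [(0, 1)], [6], [(0, 1,
      [0]), (3, 0, [1])]⟩,
    ⟨[(1, 3), (2, 3)], [(3, 0), (3, 3), (3, 4)], [(3, 3)], [2, 7], [(5, 3, []), (8, 3,
      [])]⟩,
    ⟨[(1, 3), (2, 3), (3, 5)], [(1, 0), (3, 0), (3, 3), (3, 4), (3, 5), (4, 0), (5, 0), (5,
      3), (5, 5)], [(0, 3), (0, 5), (3, 5)], [], [(3, 0, [1]), (8, 3, []), (9, 5, [4])]⟩]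
  Ta := [((2, 1), 0, 2), ((2, 4), 0, 4), ((3, 6), 0, 6), ((3, 9), 0, 5), ((5, 1), 3, 2), ((5, 4),
    3, 4), ((8, 7), 3, 7), ((8, 9), 3, 5)]
  Tb := [((0, 1, 6), 1, 2, 6), ((1, 0, 2), 2, 1, 0), ((1, 0, 5), 2, 1, 3), ((1, 0, 7), 2, 1, 7),
    ((1, 2, 5), 2, 0, 3), ((1, 2, 7), 2, 0, 7), ((1, 5, 7), 2, 3, 7), ((2, 1, 4), 0, 2, 4),
    ((3, 6, 9), 0, 6, 5), ((4, 2, 5), 4, 0, 3), ((5, 1, 4), 3, 2, 4), ((6, 0, 3), 6, 1, 0),
    ((7, 1, 8), 7, 2, 3), ((8, 7, 9), 3, 7, 5), ((9, 3, 8), 5, 0, 3)]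
  Tc := []
  Td := [((0, 1), (2, 1), 2), ((0, 1), (2, 4), 4), ((0, 1), (3, 6), 6), ((0, 1), (3, 9), 5), ((1,
    0), (0, 1), 2), ((1, 0), (0, 6), 6), ((4, 5), (4, 2), 0), ((4, 5), (4, 5), 3), ((5, 4),
    (9, 3), 0), ((5, 4), (9, 8), 3)]
  G := [[0, 0x225218dc41229424da468d684daa1c4, 0x888e41422ce444ec1888e81ac8,
    0x2818cccd1264225144118c8c, 0xa82b188316444314431a4818ac8], [0, 0x466d464dca8ada88d6c128,
    0x6eee6eeec1888e12c48, 0x222d12416281cccd16a84, 0xaaab148164444b182c8], [0,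
    0x224d4496228d885c4c4dc88dce124, 0, 0x222d229cc88d6a4dca14885285c418c,
    0xac8b441229429c2a8b8848b483ce1c8], [0, 0xa22da2ad646cd464d66188, 0,
    0x222da2adcc6cd464dc6184, 0x262b266bcc8cbc88bca148]]

noncomputable def n2103 : Ent := ⟨e2103, noF, [], [], [(16, 13, [1580044429602293643470024699863340111275081426260889765897801261057, 0])]⟩

def c2103 : PLift (Cov.check n2103.C.D v2103 = true) := ⟨by decide +kernel⟩

def b2103 : PLift (entF (fidx ts) 400 2103 n2103 = true) := ⟨by decide +kernel⟩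

theorem g2103 : GoodF (fidx ts) 400 2103 := GoodF.ofV v2103 n2103 c2103.down b2103.down

/-- 4747465:1775/4 -/
noncomputable def e2104 : SCfg where
  D := {
    a := 7
    L := 9
    kp := 6
    inn := [(0, 1), (1, 0), (1, 2), (1, 3), (1, 4), (2, 1), (2, 3), (3, 1), (3, 2), (3, 5), (3, 6), (4,
      1), (5, 3), (5, 6), (6, 3), (6, 5)]
    mix := [(0, 0), (0, 1), (0, 2), (1, 0), (1, 2), (1, 3), (2, 2), (2, 4), (3, 3), (3, 4), (3, 5), (4,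
      0), (4, 3), (4, 6), (5, 1), (5, 5), (5, 7), (5, 8), (6, 3), (6, 6), (6, 8)]
    cl := [1, 5, 0, 0, 2, 3, 4, 6, 3]
    chq := [(0, 1), (1, 0), (2, 4), (4, 2)]
    rng := [(0, 1), (0, 6), (1, 0), (1, 2), (1, 7), (1, 8), (2, 1), (2, 4), (3, 6), (4, 2), (4, 5), (5,
      4), (5, 7), (6, 0), (6, 3), (6, 8), (7, 1), (7, 5), (8, 1), (8, 6)]
    lev := [] }
  links := [[1, 7, 8, 9], [7, 0, 9, 2, 3, 10, 4], [3, 1, 9, 11], [10, 1, 2, 11, 12, 5, 6], [7, 1, 10,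
    13], [6, 3, 12, 14, 8, 15], [10, 3, 5, 15, 13]]
  P := {
    a := 7
    N := 16
    nb := [898, 1693, 2570, 7270, 9346, 53576, 42024, 8467, 49825, 2311, 8282, 4620, 18472, 34000,
      4384, 8544]
    tri := [(0, 1, 7), (0, 1, 9), (0, 7, 8), (0, 8, 9), (1, 2, 3), (1, 2, 9), (1, 3, 10), (1, 4, 7),
      (1, 4, 10), (2, 3, 11), (2, 9, 11), (3, 5, 6), (3, 5, 12), (3, 6, 10), (3, 11, 12), (4, 7,
      13), (4, 10, 13), (5, 6, 15), (5, 8, 14), (5, 8, 15), (5, 12, 14), (6, 10, 13), (6, 13, 15)]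
    fin := [0, 1, 1, 3, 0, 5, 3, 0, 8, 1, 1, 3, 5, 13, 14, 5]
    chd := [(0, 1), (3, 13)]
    steps := [(0, 7), (0, 4), (1, 2), (1, 9), (1, 10), (3, 6), (3, 11), (5, 12), (5, 15)] }
  rep := [1, 0, 3, 5, 13, 8, 14]

noncomputable def v2104 : Cov.CovD where
  P := 3
  N := 4
  pl := [1, 7]
  lev := [⟨[], [], [(0, 1)], [5], [(0, 1, [0]), (2, 0, [1])]⟩,
    ⟨[], [(0, 0), (0, 1)], [(0, 0), (0, 1)], [], [(0, 1, [0]), (2, 0, [1]), (3, 0, [1])]⟩,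
    ⟨[(0, 1)], [(0, 0), (1, 0), (1, 1), (1, 2)], [(0, 2)], [], [(2, 0, [1]), (4, 2, [4])]⟩,
    ⟨[(0, 1), (1, 2)], [(1, 0), (1, 1), (1, 2), (1, 3), (2, 0), (2, 2), (2, 3)], [(0, 2),
      (0, 3), (2, 3)], [], [(3, 0, [1]), (4, 2, [4]), (5, 3, [])]⟩,
    ⟨[(0, 1), (1, 2), (1, 3)], [(0, 1), (1, 0), (1, 1), (1, 4), (3, 0)], [(0, 1), (0, 4),
      (1, 4)], [], [(0, 1, [0]), (3, 0, [1]), (6, 4, [2])]⟩,
    ⟨[(1, 3), (2, 3)], [(3, 0), (3, 2), (3, 3)], [(3, 3)], [5, 6], [(5, 3, []), (8, 3,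
      [])]⟩,
    ⟨[(1, 3), (2, 3), (3, 5)], [(1, 0), (3, 0), (3, 2), (3, 3), (3, 4), (4, 0), (4, 4), (5,
      0), (5, 3), (5, 4)], [(0, 3), (0, 4), (3, 4)], [], [(3, 0, [1]), (6, 4, [2]), (8, 3,
      [])]⟩]
  Ta := [((2, 1), 0, 5), ((2, 4), 0, 2), ((3, 6), 0, 4), ((5, 4), 3, 2), ((5, 7), 3, 6), ((8, 1),
    3, 5), ((8, 6), 3, 4)]
  Tb := [((0, 1, 6), 1, 5, 4), ((1, 0, 2), 5, 1, 0), ((1, 0, 7), 5, 1, 6), ((1, 0, 8), 5, 1, 3),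
    ((1, 2, 7), 5, 0, 6), ((1, 2, 8), 5, 0, 3), ((1, 7, 8), 5, 6, 3), ((2, 1, 4), 0, 5, 2),
    ((4, 2, 5), 2, 0, 3), ((5, 4, 7), 3, 2, 6), ((6, 0, 3), 4, 1, 0), ((6, 0, 8), 4, 1, 3),
    ((6, 3, 8), 4, 0, 3), ((7, 1, 5), 6, 5, 3), ((8, 1, 6), 3, 5, 4)]
  Tc := []
  Td := [((0, 1), (2, 1), 5), ((0, 1), (2, 4), 2), ((0, 1), (3, 6), 4), ((1, 0), (0, 1), 5), ((1,
    0), (0, 6), 4), ((2, 4), (4, 2), 0), ((2, 4), (4, 5), 3), ((4, 2), (6, 0), 1), ((4, 2),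
    (6, 3), 0), ((4, 2), (6, 8), 3)]
  G := [[0, 0x28242bc82524ac12aaab24846, 0x2818a31841e2424671848c, 0x222b1448241484522318c8c,
    0x84471244918a464471828c], [0, 0x2282f222dc418c6eb24886, 0xe6eb1428118711661d248c,
    0x222b184422271488c, 0x444b1824e4471824c], [0, 0x2a8d241429484a244447c8238c42a, 0,
    0x28481484841844474882b8c48d, 0x6c874222548a4848c82c1], [0, 0x21ab2d641828476ba8446, 0,
    0x2222f4482222f884c1, 0x224ce4ef46881]]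

noncomputable def n2104 : Ent := ⟨e2104, noF, [], [], []⟩

def c2104 : PLift (Cov.check n2104.C.D v2104 = true) := ⟨by decide +kernel⟩

def b2104 : PLift (entF (fidx ts) 400 2104 n2104 = true) := ⟨by decide +kernel⟩

theorem g2104 : GoodF (fidx ts) 400 2104 := GoodF.ofV v2104 n2104 c2104.down b2104.down

/-- 4747465:1775/3 -/
noncomputable def e2105 : SCfg where
  D := {
    a := 7
    L := 10
    kp := 7
    inn := [(0, 1), (1, 0), (1, 2), (1, 3), (1, 4), (2, 1), (2, 3), (3, 1), (3, 2), (3, 5), (3, 6), (4,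
      1), (5, 3), (5, 6), (6, 3), (6, 5)]
    mix := [(0, 0), (0, 1), (0, 2), (1, 0), (1, 2), (1, 3), (2, 2), (2, 4), (3, 3), (3, 4), (3, 5), (4,
      0), (4, 3), (4, 6), (5, 1), (5, 5), (5, 7), (5, 8), (6, 3), (6, 8), (6, 9)]
    cl := [1, 4, 0, 0, 2, 3, 6, 7, 3, 5]
    chq := [(0, 1), (1, 0), (2, 5), (5, 2)]
    rng := [(0, 1), (0, 6), (1, 0), (1, 2), (1, 7), (1, 8), (2, 1), (2, 4), (3, 6), (3, 9), (4, 2), (4,
      5), (5, 4), (5, 7), (6, 0), (6, 3), (7, 1), (7, 5), (8, 1), (8, 9), (9, 3), (9, 8)]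
    lev := [] }
  links := [[1, 7, 8, 9], [7, 0, 9, 2, 3, 10, 4], [3, 1, 9, 11], [10, 1, 2, 11, 12, 5, 6], [7, 1, 10,
    13], [6, 3, 12, 14, 8, 15], [10, 3, 5, 15, 16]]
  P := {
    a := 7
    N := 17
    nb := [898, 1693, 2570, 7270, 9346, 53576, 99368, 8467, 49825, 2311, 73818, 4620, 18472, 1168,
      4384, 65888, 33856]
    tri := [(0, 1, 7), (0, 1, 9), (0, 7, 8), (0, 8, 9), (1, 2, 3), (1, 2, 9), (1, 3, 10), (1, 4, 7),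
      (1, 4, 10), (2, 3, 11), (2, 9, 11), (3, 5, 6), (3, 5, 12), (3, 6, 10), (3, 11, 12), (4, 7,
      13), (4, 10, 13), (5, 6, 15), (5, 8, 14), (5, 8, 15), (5, 12, 14), (6, 10, 16), (6, 15, 16)]
    fin := [0, 1, 1, 3, 0, 5, 3, 0, 8, 1, 1, 3, 5, 13, 14, 5, 16]
    chd := [(0, 1), (3, 16)]
    steps := [(0, 7), (0, 4), (1, 2), (1, 9), (1, 10), (3, 6), (3, 11), (5, 12), (5, 15)] }
  rep := [1, 0, 3, 5, 8, 16, 13, 14]

noncomputable def v2105 : Cov.CovD where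
  P := 3
  N := 5
  pl := [1, 6, 7]
  lev := [⟨[], [], [(0, 1)], [4], [(0, 1, [0]), (2, 0, [1])]⟩,
    ⟨[], [(0, 0), (0, 1)], [(0, 0), (0, 1)], [], [(0, 1, [0]), (2, 0, [1]), (3, 0, [1])]⟩,
    ⟨[(0, 1)], [(0, 0), (1, 0), (1, 1), (1, 2)], [(0, 2)], [], [(2, 0, [1]), (4, 2, [5])]⟩,
    ⟨[(0, 1), (1, 2)], [(1, 0), (1, 1), (1, 2), (1, 3), (2, 0), (2, 2), (2, 3)], [(0, 2),
      (0, 3), (2, 3)], [], [(3, 0, [1]), (4, 2, [5]), (5, 3, [])]⟩,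
    ⟨[(0, 1), (1, 2), (1, 3)], [(0, 1), (1, 0), (1, 1), (3, 0)], [(0, 1)], [6], [(0, 1,
      [0]), (3, 0, [1])]⟩,
    ⟨[(1, 3), (2, 3)], [(3, 0), (3, 2), (3, 3)], [(3, 3)], [4, 7], [(5, 3, []), (8, 3,
      [])]⟩,
    ⟨[(1, 3), (2, 3), (3, 5)], [(1, 0), (3, 0), (3, 2), (3, 3), (3, 5), (4, 0), (5, 0), (5,
      3), (5, 5)], [(0, 3), (0, 5), (3, 5)], [], [(3, 0, [1]), (8, 3, []), (9, 5, [2])]⟩]
  Ta := [((2, 1), 0, 4), ((2, 4), 0, 2), ((3, 6), 0, 6), ((3, 9), 0, 5), ((5, 4), 3, 2), ((5, 7),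
    3, 7), ((8, 1), 3, 4), ((8, 9), 3, 5)]
  Tb := [((0, 1, 6), 1, 4, 6), ((1, 0, 2), 4, 1, 0), ((1, 0, 7), 4, 1, 7), ((1, 0, 8), 4, 1, 3),
    ((1, 2, 7), 4, 0, 7), ((1, 2, 8), 4, 0, 3), ((1, 7, 8), 4, 7, 3), ((2, 1, 4), 0, 4, 2),
    ((3, 6, 9), 0, 6, 5), ((4, 2, 5), 2, 0, 3), ((5, 4, 7), 3, 2, 7), ((6, 0, 3), 6, 1, 0),
    ((7, 1, 5), 7, 4, 3), ((8, 1, 9), 3, 4, 5), ((9, 3, 8), 5, 0, 3)]
  Tc := []
  Td := [((0, 1), (2, 1), 4), ((0, 1), (2, 4), 2), ((0, 1), (3, 6), 6), ((0, 1), (3, 9), 5), ((1,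
    0), (0, 1), 4), ((1, 0), (0, 6), 6), ((2, 5), (4, 2), 0), ((2, 5), (4, 5), 3), ((5, 2),
    (9, 3), 0), ((5, 2), (9, 8), 3)]
  G := [[0, 0x249249a285225ac124232427c28682cc82a, 0x28ab14484631a41481e28c,
    0xa23142818c4241462318c8c, 0x84871242918a464471884c], [0, 0x262b262ba8142a272a276488c,
    0x1212ee9d2841414ae3d428c, 0x262b18442a271488c, 0x444b1824e4471288c], [0,
    0x2828aa23a23cc42623623c2424ac82c, 0, 0x4848142484182282f4442348238cc242b884cd,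
    0x64478447c2424d424dc8a41], [0, 0x222d222da482272727276488a, 0, 0x22e2f44822e2f884c1,
    0x4e44f4e44fc8241]]

noncomputable def n2105 : Ent := ⟨e2105, noF, [], [], [(16, 13, [1580044429602293643470024699863340111275081426260889765897801269249, 0])]⟩

def c2105 : PLift (Cov.check n2105.C.D v2105 = true) := ⟨by decide +kernel⟩

def b2105 : PLift (entF (fidx ts) 400 2105 n2105 = true) := ⟨by decide +kernel⟩

theorem g2105 : GoodF (fidx ts) 400 2105 := GoodF.ofV v2105 n2105 c2105.down b2105.down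

/-- 4747465:1775/6 -/
noncomputable def e2106 : SCfg where
  D := {
    a := 7
    L := 9
    kp := 6
    inn := [(0, 1), (1, 0), (1, 2), (1, 3), (1, 4), (2, 1), (2, 3), (3, 1), (3, 2), (3, 5), (3, 6), (4,
      1), (5, 3), (5, 6), (6, 3), (6, 5)]
    mix := [(0, 0), (0, 1), (0, 2), (1, 0), (1, 2), (1, 3), (2, 2), (2, 4), (3, 3), (3, 4), (3, 5), (4,
      0), (4, 3), (4, 6), (5, 1), (5, 5), (5, 7), (5, 8), (6, 1), (6, 3), (6, 6)]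
    cl := [2, 1, 0, 0, 3, 1, 4, 5, 6]
    chq := [(0, 2), (2, 0), (3, 4), (4, 3)]
    rng := [(0, 1), (0, 6), (1, 0), (1, 2), (1, 6), (1, 8), (2, 1), (2, 4), (3, 6), (4, 2), (4, 5), (5,
      4), (5, 7), (6, 0), (6, 1), (6, 3), (7, 5), (7, 8), (8, 1), (8, 7)]
    lev := [] }
  links := [[1, 7, 8, 9], [7, 0, 9, 2, 3, 10, 4], [3, 1, 9, 11], [10, 1, 2, 11, 12, 5, 6], [7, 1, 10,
    13], [6, 3, 12, 14, 15, 8], [10, 3, 5, 8, 13]]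
  P := {
    a := 7
    N := 16
    nb := [898, 1693, 2570, 7270, 9346, 53576, 9512, 8467, 41697, 2311, 8282, 4620, 18472, 1488,
      36896, 16672]
    tri := [(0, 1, 7), (0, 1, 9), (0, 7, 8), (0, 8, 9), (1, 2, 3), (1, 2, 9), (1, 3, 10), (1, 4, 7),
      (1, 4, 10), (2, 3, 11), (2, 9, 11), (3, 5, 6), (3, 5, 12), (3, 6, 10), (3, 11, 12), (4, 7,
      13), (4, 10, 13), (5, 6, 8), (5, 8, 15), (5, 12, 14), (5, 14, 15), (6, 8, 13), (6, 10, 13)]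
    fin := [0, 1, 1, 3, 0, 5, 3, 0, 5, 1, 1, 3, 5, 13, 14, 15]
    chd := [(0, 1), (3, 13)]
    steps := [(0, 7), (0, 4), (1, 2), (1, 9), (1, 10), (3, 6), (3, 11), (5, 8), (5, 12)] }
  rep := [1, 5, 0, 3, 13, 14, 15]

noncomputable def v2106 : Cov.CovD where
  P := 3
  N := 4
  pl := [7, 8]
  lev := [⟨[], [], [(0, 1), (0, 2), (1, 2)], [], [(0, 2, [0]), (1, 1, []), (2, 0, [2])]⟩,
    ⟨[], [(0, 0), (0, 1), (0, 2)], [(0, 0), (0, 2)], [], [(0, 2, [0]), (2, 0, [2]), (3, 0,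
      [2])]⟩,
    ⟨[(0, 1)], [(0, 0), (1, 0), (1, 2), (1, 3)], [(0, 3)], [], [(2, 0, [2]), (4, 3, [4])]⟩,
    ⟨[(0, 1), (1, 2)], [(1, 0), (1, 1), (1, 2), (1, 3), (2, 0), (2, 1), (2, 3)], [(0, 1),
      (0, 3), (1, 3)], [], [(3, 0, [2]), (4, 3, [4]), (5, 1, [])]⟩,
    ⟨[(0, 1), (1, 2), (1, 3)], [(0, 2), (1, 0), (1, 2), (1, 4), (3, 0)], [(0, 2), (0, 4),
      (2, 4)], [], [(0, 2, [0]), (3, 0, [2]), (6, 4, [3])]⟩,
    ⟨[(1, 3), (2, 3)], [(0, 1), (3, 0), (3, 1), (3, 3)], [(1, 1)], [5, 6], [(1, 1, []), (5,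
      1, [])]⟩,
    ⟨[(1, 3), (2, 3), (3, 5)], [(0, 1), (1, 0), (3, 0), (3, 1), (3, 3), (3, 4), (4, 0), (4,
      4), (5, 0), (5, 1), (5, 4)], [(0, 1), (0, 4), (1, 4)], [], [(1, 1, []), (3, 0, [2]),
      (6, 4, [3])]⟩]
  Ta := [((1, 0), 1, 2), ((1, 2), 1, 0), ((1, 6), 1, 4), ((1, 8), 1, 6), ((2, 1), 0, 1), ((2, 4),
    0, 3), ((3, 6), 0, 4), ((5, 4), 1, 3), ((5, 7), 1, 5)]
  Tb := [((0, 1, 6), 2, 1, 4), ((1, 0, 2), 1, 2, 0), ((1, 0, 6), 1, 2, 4), ((1, 0, 8), 1, 2, 6),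
    ((1, 2, 6), 1, 0, 4), ((1, 2, 8), 1, 0, 6), ((1, 6, 8), 1, 4, 6), ((2, 1, 4), 0, 1, 3),
    ((4, 2, 5), 3, 0, 1), ((5, 4, 7), 1, 3, 5), ((6, 0, 1), 4, 2, 1), ((6, 0, 3), 4, 2, 0),
    ((6, 1, 3), 4, 1, 0), ((7, 5, 8), 5, 1, 6), ((8, 1, 7), 6, 1, 5)]
  Tc := []
  Td := [((0, 2), (2, 1), 1), ((0, 2), (2, 4), 3), ((0, 2), (3, 6), 4), ((2, 0), (0, 1), 1), ((2,
    0), (0, 6), 4), ((3, 4), (4, 2), 0), ((3, 4), (4, 5), 1), ((4, 3), (6, 0), 2), ((4, 3),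
    (6, 1), 1), ((4, 3), (6, 3), 0)]
  G := [[0, 0x281482148c166266188c8, 0x114d888d62184, 0x1454c88d1484d284, 0x444d1118d8c228], [0,
    0, 0x414d2222d2c128, 0, 0x1252282922912485c28], [0, 0, 0x114d188d62188, 0x888d444dc2148,
    0x444d221448d8888d8c1a8], [0, 0, 0x422d2228d2c128, 0, 0x222d2228d2c128]]

noncomputable def n2106 : Ent := ⟨e2106, noF, [], [], []⟩

def c2106 : PLift (Cov.check n2106.C.D v2106 = true) := ⟨by decide +kernel⟩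

def b2106 : PLift (entF (fidx ts) 400 2106 n2106 = true) := ⟨by decide +kernel⟩

theorem g2106 : GoodF (fidx ts) 400 2106 := GoodF.ofV v2106 n2106 c2106.down b2106.down

/-- 4747465:1775/5 -/
noncomputable def e2107 : SCfg where
  D := {
    a := 7
    L := 10
    kp := 7
    inn := [(0, 1), (1, 0), (1, 2), (1, 3), (1, 4), (2, 1), (2, 3), (3, 1), (3, 2), (3, 5), (3, 6), (4,
      1), (5, 3), (5, 6), (6, 3), (6, 5)]
    mix := [(0, 0), (0, 1), (0, 2), (1, 0), (1, 2), (1, 3), (2, 2), (2, 4), (3, 3), (3, 4), (3, 5), (4,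
      0), (4, 3), (4, 6), (5, 1), (5, 5), (5, 7), (5, 8), (6, 1), (6, 3), (6, 9)]
    cl := [2, 1, 0, 0, 3, 1, 5, 6, 7, 4]
    chq := [(0, 2), (2, 0), (3, 4), (4, 3)]
    rng := [(0, 1), (0, 6), (1, 0), (1, 2), (1, 8), (1, 9), (2, 1), (2, 4), (3, 6), (3, 9), (4, 2), (4,
      5), (5, 4), (5, 7), (6, 0), (6, 3), (7, 5), (7, 8), (8, 1), (8, 7), (9, 1), (9, 3)]
    lev := [] }
  links := [[1, 7, 8, 9], [7, 0, 9, 2, 3, 10, 4], [3, 1, 9, 11], [10, 1, 2, 11, 12, 5, 6], [7, 1, 10,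
    13], [6, 3, 12, 14, 15, 8], [10, 3, 5, 8, 16]]
  P := {
    a := 7
    N := 17
    nb := [898, 1693, 2570, 7270, 9346, 53576, 66856, 8467, 99041, 2311, 73818, 4620, 18472, 1168,
      36896, 16672, 1344]
    tri := [(0, 1, 7), (0, 1, 9), (0, 7, 8), (0, 8, 9), (1, 2, 3), (1, 2, 9), (1, 3, 10), (1, 4, 7),
      (1, 4, 10), (2, 3, 11), (2, 9, 11), (3, 5, 6), (3, 5, 12), (3, 6, 10), (3, 11, 12), (4, 7,
      13), (4, 10, 13), (5, 6, 8), (5, 8, 15), (5, 12, 14), (5, 14, 15), (6, 8, 16), (6, 10, 16)]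
    fin := [0, 1, 1, 3, 0, 5, 3, 0, 5, 1, 1, 3, 5, 13, 14, 15, 16]
    chd := [(0, 1), (3, 16)]
    steps := [(0, 7), (0, 4), (1, 2), (1, 9), (1, 10), (3, 6), (3, 11), (5, 8), (5, 12)] }
  rep := [1, 5, 0, 3, 16, 13, 14, 15]

noncomputable def v2107 : Cov.CovD where
  P := 3
  N := 5
  pl := [6, 7, 8]
  lev := [⟨[], [], [(0, 1), (0, 2), (1, 2)], [], [(0, 2, [0]), (1, 1, []), (2, 0, [2])]⟩,
    ⟨[], [(0, 0), (0, 1), (0, 2)], [(0, 0), (0, 2)], [], [(0, 2, [0]), (2, 0, [2]), (3, 0,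
      [2])]⟩,
    ⟨[(0, 1)], [(0, 0), (1, 0), (1, 2), (1, 3)], [(0, 3)], [], [(2, 0, [2]), (4, 3, [4])]⟩,
    ⟨[(0, 1), (1, 2)], [(1, 0), (1, 1), (1, 2), (1, 3), (2, 0), (2, 1), (2, 3)], [(0, 1),
      (0, 3), (1, 3)], [], [(3, 0, [2]), (4, 3, [4]), (5, 1, [])]⟩,
    ⟨[(0, 1), (1, 2), (1, 3)], [(0, 2), (1, 0), (1, 2), (3, 0)], [(0, 2)], [5], [(0, 2,
      [0]), (3, 0, [2])]⟩,
    ⟨[(1, 3), (2, 3)], [(0, 1), (3, 0), (3, 1), (3, 3)], [(1, 1)], [6, 7], [(1, 1, []), (5,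
      1, [])]⟩,
    ⟨[(1, 3), (2, 3), (3, 5)], [(0, 1), (1, 0), (3, 0), (3, 1), (3, 3), (3, 4), (4, 0), (5,
      0), (5, 1), (5, 4)], [(0, 1), (0, 4), (1, 4)], [], [(1, 1, []), (3, 0, [2]), (9, 4,
      [3])]⟩]
  Ta := [((1, 0), 1, 2), ((1, 2), 1, 0), ((1, 8), 1, 7), ((1, 9), 1, 4), ((2, 1), 0, 1), ((2, 4),
    0, 3), ((3, 6), 0, 5), ((3, 9), 0, 4), ((5, 4), 1, 3), ((5, 7), 1, 6)]
  Tb := [((0, 1, 6), 2, 1, 5), ((1, 0, 2), 1, 2, 0), ((1, 0, 8), 1, 2, 7), ((1, 0, 9), 1, 2, 4),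
    ((1, 2, 8), 1, 0, 7), ((1, 2, 9), 1, 0, 4), ((1, 8, 9), 1, 7, 4), ((2, 1, 4), 0, 1, 3),
    ((3, 6, 9), 0, 5, 4), ((4, 2, 5), 3, 0, 1), ((5, 4, 7), 1, 3, 6), ((6, 0, 3), 5, 2, 0),
    ((7, 5, 8), 6, 1, 7), ((8, 1, 7), 7, 1, 6), ((9, 1, 3), 4, 1, 0)]
  Tc := []
  Td := [((0, 2), (2, 1), 1), ((0, 2), (2, 4), 3), ((0, 2), (3, 6), 5), ((0, 2), (3, 9), 4), ((2,
    0), (0, 1), 1), ((2, 0), (0, 6), 5), ((3, 4), (4, 2), 0), ((3, 4), (4, 5), 1), ((4, 3),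
    (9, 1), 1), ((4, 3), (9, 3), 0)]
  G := [[0, 0x28a1442461848c12ac4, 0x11cd11cda2148, 0x888d124444d128c4, 0x4c4d1c88d1c228], [0,
    0, 0x22c22ca1142d442d68121cc524, 0, 0x2251281c281288d1ca28], [0, 0, 0x11cd11cd62188,
    0xcccdcccdc2184, 0xcccd2214c4d8c88d8c2a8], [0, 0, 0x214d112dc222d222dac124, 0,
    0x424d424da282d222dac128]]

noncomputable def n2107 : Ent := ⟨e2107, noF, [], [], [(16, 13, [1580044429602293643470024699863340111275081426260889765897801277441, 0])]⟩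

def c2107 : PLift (Cov.check n2107.C.D v2107 = true) := ⟨by decide +kernel⟩

def b2107 : PLift (entF (fidx ts) 400 2107 n2107 = true) := ⟨by decide +kernel⟩

theorem g2107 : GoodF (fidx ts) 400 2107 := GoodF.ofV v2107 n2107 c2107.down b2107.down

/-- 4747465:1775/7 -/
noncomputable def e2108 : SCfg where
  D := {
    a := 7
    L := 10
    kp := 7
    inn := [(0, 1), (1, 0), (1, 2), (1, 3), (1, 4), (2, 1), (2, 3), (3, 1), (3, 2), (3, 5), (3, 6), (4,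
      1), (5, 3), (5, 6), (6, 3), (6, 5)]
    mix := [(0, 0), (0, 1), (0, 2), (1, 0), (1, 2), (1, 3), (2, 2), (2, 4), (3, 3), (3, 4), (3, 5), (4,
      0), (4, 3), (4, 6), (5, 5), (5, 7), (5, 8), (5, 9), (6, 3), (6, 6), (6, 9)]
    cl := [2, 5, 1, 0, 0, 3, 4, 6, 7, 3]
    chq := [(1, 2), (1, 4), (2, 1), (4, 1)]
    rng := [(0, 1), (0, 6), (1, 0), (1, 2), (2, 1), (2, 4), (3, 6), (4, 2), (4, 5), (5, 4), (5, 7), (6,
      0), (6, 3), (6, 9), (7, 5), (7, 8), (8, 7), (8, 9), (9, 6), (9, 8)]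
    lev := [] }
  links := [[1, 7, 8, 9], [7, 0, 9, 2, 3, 10, 4], [3, 1, 9, 11], [10, 1, 2, 11, 12, 5, 6], [7, 1, 10,
    13], [6, 3, 12, 14, 15, 16], [10, 3, 5, 16, 13]]
  P := {
    a := 7
    N := 17
    nb := [898, 1693, 2570, 7270, 9346, 118856, 74792, 8467, 641, 2311, 8282, 4620, 18472, 66768,
      36896, 81952, 41056]
    tri := [(0, 1, 7), (0, 1, 9), (0, 7, 8), (0, 8, 9), (1, 2, 3), (1, 2, 9), (1, 3, 10), (1, 4, 7),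
      (1, 4, 10), (2, 3, 11), (2, 9, 11), (3, 5, 6), (3, 5, 12), (3, 6, 10), (3, 11, 12), (4, 7,
      13), (4, 10, 13), (5, 6, 16), (5, 12, 14), (5, 14, 15), (5, 15, 16), (6, 10, 13), (6, 13,
      16)]
    fin := [0, 1, 1, 3, 1, 5, 3, 0, 8, 1, 3, 3, 5, 13, 14, 15, 5]
    chd := [(0, 1), (1, 13)]
    steps := [(0, 7), (1, 2), (1, 4), (1, 9), (3, 6), (3, 11), (3, 10), (5, 12), (5, 16)] }
  rep := [3, 1, 0, 5, 13, 8, 14, 15]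

noncomputable def v2108 : Cov.CovD where
  P := 3
  N := 5
  pl := [1, 7, 8]
  lev := [⟨[], [], [(1, 2)], [5], [(0, 2, [1]), (2, 1, [2, 4])]⟩,
    ⟨[], [(0, 0), (0, 1), (0, 2)], [(0, 1), (0, 2), (1, 2)], [], [(0, 2, [1]), (2, 1, [2,
      4]), (3, 0, [])]⟩,
    ⟨[(0, 1)], [(0, 1), (1, 0), (1, 1), (1, 2)], [(0, 1)], [], [(2, 1, [2, 4]), (4, 0,
      [])]⟩,
    ⟨[(0, 1), (1, 2)], [(1, 0), (1, 1), (1, 2), (1, 3), (2, 0), (2, 1), (2, 3)], [(0, 0),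
      (0, 3)], [], [(3, 0, []), (4, 0, []), (5, 3, [])]⟩,
    ⟨[(0, 1), (1, 2), (1, 3)], [(0, 2), (1, 0), (1, 1), (1, 2), (1, 4), (3, 0)], [(0, 2),
      (0, 4), (2, 4)], [], [(0, 2, [1]), (3, 0, []), (6, 4, [1])]⟩,
    ⟨[(1, 3), (2, 3)], [(3, 0), (3, 3)], [(3, 3)], [6, 7], [(5, 3, []), (9, 3, [])]⟩,
    ⟨[(1, 3), (2, 3), (3, 5)], [(1, 0), (3, 0), (3, 3), (3, 4), (4, 0), (4, 4), (5, 0), (5,
      3), (5, 4)], [(0, 3), (0, 4), (3, 4)], [], [(3, 0, []), (6, 4, [1]), (9, 3, [])]⟩]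
  Ta := [((3, 6), 0, 4), ((4, 2), 0, 1), ((4, 5), 0, 3), ((5, 4), 3, 0), ((5, 7), 3, 6), ((9, 6),
    3, 4), ((9, 8), 3, 7)]
  Tb := [((0, 1, 6), 2, 5, 4), ((1, 0, 2), 5, 2, 1), ((2, 1, 4), 1, 5, 0), ((4, 2, 5), 0, 1, 3),
    ((5, 4, 7), 3, 0, 6), ((6, 0, 3), 4, 2, 0), ((6, 0, 9), 4, 2, 3), ((6, 3, 9), 4, 0, 3),
    ((7, 5, 8), 6, 3, 7), ((8, 7, 9), 7, 6, 3), ((9, 6, 8), 3, 4, 7)]
  Tc := [(1, 2, 4)]
  Td := [((1, 2), (2, 1), 5), ((1, 2), (2, 4), 0), ((1, 4), (2, 1), 5), ((1, 4), (2, 4), 0), ((2,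
    1), (0, 1), 5), ((2, 1), (0, 6), 4), ((4, 1), (6, 0), 2), ((4, 1), (6, 3), 0), ((4, 1),
    (6, 9), 3)]
  G := [[0, 0, 0x2a2d24c4b2618622d28c672a14c, 0x242b28142282f24882422c2b2618d,
    0x2a2d24c4b26182a2d24c4b26889], [0, 0, 0xeee72e82a44e22eeed2618c,
    0xeeed22222468e822e2e728a4c, 0xeaeef2442618eeeb2e426889], [0,
    0x622d18c871a4422518c61a681818aa4c, 0x6242f288878a442a82f2444b4688c,
    0x242b222272c2114822244f12232c645, 0x44322a88f2482e812282f1444b16889], [0,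
    0x116416ee9d28411c8aeef5488c, 0x111ef2844111ef2488c, 0x11c2e33428112ee134285,
    0x111ef2248111ef22489]]

noncomputable def n2108 : Ent := ⟨e2108, noF, [], [], [(8, 14, [1685382413448253767852309107433119732572617628602273068445373521921, 0]), (8, 15, [1685356702439545624007900436039642273970977273354372543760008708097, 0]), (8, 16, [1580044410770988437309982408355971841652082177953823432505697738753, 0])]⟩

def c2108 : PLift (Cov.check n2108.C.D v2108 = true) := ⟨by decide +kernel⟩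

def b2108 : PLift (entF (fidx ts) 400 2108 n2108 = true) := ⟨by decide +kernel⟩

theorem g2108 : GoodF (fidx ts) 400 2108 := GoodF.ofV v2108 n2108 c2108.down b2108.down

/-- 4747465:1775 -/
noncomputable def e2109 : SCfg where
  D := {
    a := 7
    L := 11
    kp := 8
    inn := [(0, 1), (1, 0), (1, 2), (1, 3), (1, 4), (2, 1), (2, 3), (3, 1), (3, 2), (3, 5), (3, 6), (4,
      1), (5, 3), (5, 6), (6, 3), (6, 5)]
    mix := [(0, 0), (0, 1), (0, 2), (1, 0), (1, 2), (1, 3), (2, 2), (2, 4), (3, 3), (3, 4), (3, 5), (4,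
      0), (4, 3), (4, 6), (5, 5), (5, 7), (5, 8), (5, 9), (6, 3), (6, 9), (6, 10)]
    cl := [2, 5, 1, 0, 0, 3, 4, 6, 7, 3, 8]
    chq := [(1, 2), (1, 4), (2, 1), (4, 1)]
    rng := [(0, 1), (0, 6), (1, 0), (1, 2), (2, 1), (2, 4), (3, 6), (3, 10), (4, 2), (4, 5), (5, 4),
      (5, 7), (6, 0), (6, 3), (7, 5), (7, 8), (8, 7), (8, 9), (9, 8), (9, 10), (10, 3), (10, 9)]
    lev := [] }
  links := [[1, 7, 8, 9], [7, 0, 9, 2, 3, 10, 4], [3, 1, 9, 11], [10, 1, 2, 11, 12, 5, 6], [7, 1, 10,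
    13], [6, 3, 12, 14, 15, 16], [10, 3, 5, 16, 17]]
  P := {
    a := 7
    N := 18
    nb := [898, 1693, 2570, 7270, 9346, 118856, 197672, 8467, 641, 2311, 139354, 4620, 18472, 1168,
      36896, 81952, 163936, 66624]
    tri := [(0, 1, 7), (0, 1, 9), (0, 7, 8), (0, 8, 9), (1, 2, 3), (1, 2, 9), (1, 3, 10), (1, 4, 7),
      (1, 4, 10), (2, 3, 11), (2, 9, 11), (3, 5, 6), (3, 5, 12), (3, 6, 10), (3, 11, 12), (4, 7,
      13), (4, 10, 13), (5, 6, 16), (5, 12, 14), (5, 14, 15), (5, 15, 16), (6, 10, 17), (6, 16,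
      17)]
    fin := [0, 1, 1, 3, 1, 5, 3, 0, 8, 1, 3, 3, 5, 13, 14, 15, 5, 17]
    chd := [(0, 1), (1, 13)]
    steps := [(0, 7), (1, 2), (1, 4), (1, 9), (3, 6), (3, 11), (3, 10), (5, 12), (5, 16)] }
  rep := [3, 1, 0, 5, 13, 8, 14, 15, 17]

noncomputable def v2109 : Cov.CovD where
  P := 3
  N := 6
  pl := [1, 7, 8, 10]
  lev := [⟨[], [], [(1, 2)], [5], [(0, 2, [1]), (2, 1, [2, 4])]⟩,
    ⟨[], [(0, 0), (0, 1), (0, 2)], [(0, 1), (0, 2), (1, 2)], [], [(0, 2, [1]), (2, 1, [2,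
      4]), (3, 0, [])]⟩,
    ⟨[(0, 1)], [(0, 1), (1, 0), (1, 1), (1, 2)], [(0, 1)], [], [(2, 1, [2, 4]), (4, 0,
      [])]⟩,
    ⟨[(0, 1), (1, 2)], [(1, 0), (1, 1), (1, 2), (1, 3), (2, 0), (2, 1), (2, 3)], [(0, 0),
      (0, 3)], [], [(3, 0, []), (4, 0, []), (5, 3, [])]⟩,
    ⟨[(0, 1), (1, 2), (1, 3)], [(0, 2), (1, 0), (1, 1), (1, 2), (1, 4), (3, 0)], [(0, 2),
      (0, 4), (2, 4)], [], [(0, 2, [1]), (3, 0, []), (6, 4, [1])]⟩,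
    ⟨[(1, 3), (2, 3)], [(3, 0), (3, 3)], [(3, 3)], [6, 7], [(5, 3, []), (9, 3, [])]⟩,
    ⟨[(1, 3), (2, 3), (3, 5)], [(1, 0), (3, 0), (3, 3), (4, 0), (5, 0), (5, 3)], [(0, 3)],
      [8], [(3, 0, []), (9, 3, [])]⟩]
  Ta := [((3, 6), 0, 4), ((3, 10), 0, 8), ((4, 2), 0, 1), ((4, 5), 0, 3), ((5, 4), 3, 0), ((5,
    7), 3, 6), ((9, 8), 3, 7), ((9, 10), 3, 8)]
  Tb := [((0, 1, 6), 2, 5, 4), ((1, 0, 2), 5, 2, 1), ((2, 1, 4), 1, 5, 0), ((3, 6, 10), 0, 4, 8),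
    ((4, 2, 5), 0, 1, 3), ((5, 4, 7), 3, 0, 6), ((6, 0, 3), 4, 2, 0), ((7, 5, 8), 6, 3, 7),
    ((8, 7, 9), 7, 6, 3), ((9, 8, 10), 3, 7, 8), ((10, 3, 9), 8, 0, 3)]
  Tc := [(1, 2, 4)]
  Td := [((1, 2), (2, 1), 5), ((1, 2), (2, 4), 0), ((1, 4), (2, 1), 5), ((1, 4), (2, 4), 0), ((2,
    1), (0, 1), 5), ((2, 1), (0, 6), 4), ((4, 1), (6, 0), 2), ((4, 1), (6, 3), 0)]
  G := [[0, 0, 0x4cab222a2d2458622d28c872a14c, 0x2a2d2424c4b224c622d28c872a14c,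
    0x2acd24c4b26182a2d24c4b26889], [0, 0, 0xeeeb2e42618eeeb2e42618c,
    0xeeed22e22458eee728e822349, 0xe22eeed2618e22eeed26889], [0,
    0x62cd18c871a444212a82f14491e28c, 0x622d28c872a442a8cf2444b2688c,
    0x622d28c872a41622d18c872a449, 0x622d28c872a412a2d24c4b26889], [0,
    0x1212eeedd284ee31eec1688c, 0x111ef2248111ef2248c, 0x111ef2824111ef22485,
    0x111ef2248111ef24889]]

noncomputable def n2109 : Ent := ⟨e2109, noF, [], [], [(8, 14, [7334790875878422277917280412776772662961875900559637987928627378089985, 0]), (8, 15, [7334790850167413569773436004105379185503274260204390087403942013276161, 0]), (8, 16, [7334685537875745012586738086077695515070955365108989538292687702306817, 0]), (17, 13, [6903326391226443182813612567740724581985591720012749800372886076375041, 0])]⟩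

def c2109 : PLift (Cov.check n2109.C.D v2109 = true) := ⟨by decide +kernel⟩

def b2109 : PLift (entF (fidx ts) 400 2109 n2109 = true) := ⟨by decide +kernel⟩

theorem g2109 : GoodF (fidx ts) 400 2109 := GoodF.ofV v2109 n2109 c2109.down b2109.down

/-- 4748544:1789/1 -/
noncomputable def e2110 : SCfg where
  D := {
    a := 7
    L := 10
    kp := 7
    inn := [(0, 1), (1, 0), (1, 2), (1, 3), (1, 6), (2, 1), (2, 3), (3, 1), (3, 2), (3, 4), (3, 5), (4,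
      3), (5, 3), (6, 1)]
    mix := [(0, 0), (0, 1), (0, 2), (1, 0), (1, 2), (1, 3), (2, 2), (2, 4), (3, 3), (3, 4), (3, 5), (3,
      6), (4, 1), (4, 4), (4, 5), (4, 7), (5, 5), (5, 6), (5, 8), (6, 0), (6, 3), (6, 9)]
    cl := [3, 4, 1, 0, 0, 0, 2, 5, 6, 7]
    chq := [(0, 3), (1, 3), (3, 0), (3, 1)]
    rng := [(0, 1), (0, 9), (1, 0), (1, 2), (1, 4), (1, 7), (2, 1), (2, 4), (3, 6), (3, 9), (4, 1), (4,
      2), (5, 7), (5, 8), (6, 3), (6, 8), (7, 1), (7, 5), (8, 5), (8, 6), (9, 0), (9, 3)]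
    lev := [] }
  links := [[1, 7, 8, 9], [7, 0, 9, 2, 3, 10, 6], [3, 1, 9, 11], [10, 1, 2, 11, 4, 12, 5, 13], [12, 3,
    11, 8, 14], [13, 3, 12, 15], [7, 1, 10, 16]]
  P := {
    a := 7
    N := 17
    nb := [898, 1741, 2570, 15414, 22792, 45064, 66690, 65859, 19089, 2311, 73802, 796, 49208, 33832,
      4368, 12320, 1216]
    tri := [(0, 1, 7), (0, 1, 9), (0, 7, 8), (0, 8, 9), (1, 2, 3), (1, 2, 9), (1, 3, 10), (1, 6, 7),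
      (1, 6, 10), (2, 3, 11), (2, 9, 11), (3, 4, 11), (3, 4, 12), (3, 5, 12), (3, 5, 13), (3, 10,
      13), (4, 8, 11), (4, 8, 14), (4, 12, 14), (5, 12, 15), (5, 13, 15), (6, 7, 16), (6, 10, 16)]
    fin := [0, 0, 0, 3, 4, 3, 0, 0, 4, 9, 3, 3, 3, 13, 14, 15, 16]
    chd := [(0, 3), (0, 9)]
    steps := [(0, 1), (0, 2), (0, 6), (0, 7), (3, 5), (3, 11), (3, 12), (3, 10), (4, 8)] }
  rep := [3, 9, 13, 0, 4, 14, 15, 16]

noncomputable def v2110 : Cov.CovD where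
  P := 3
  N := 5
  pl := [1, 6, 7, 8, 9]
  lev := [⟨[], [], [(1, 3)], [4], [(0, 3, [0, 1]), (2, 1, [3])]⟩,
    ⟨[], [(0, 0), (0, 1), (0, 3)], [(0, 1), (0, 3), (1, 3)], [], [(0, 3, [0, 1]), (2, 1,
      [3]), (3, 0, [3])]⟩,
    ⟨[(0, 1)], [(0, 1), (1, 0), (1, 1), (1, 3)], [(0, 1)], [], [(2, 1, [3]), (4, 0, [3])]⟩,
    ⟨[(0, 1), (1, 2)], [(1, 0), (1, 1), (1, 3), (2, 0), (2, 1)], [(0, 0)], [2], [(3, 0,
      [3]), (4, 0, [3]), (5, 0, [3])]⟩,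
    ⟨[(1, 3), (2, 3)], [(2, 0), (3, 0)], [(0, 0)], [4, 5], [(4, 0, [3]), (5, 0, [3])]⟩,
    ⟨[(1, 3), (2, 3), (3, 4)], [(3, 0), (4, 0)], [], [2, 6], [(5, 0, [3])]⟩,
    ⟨[(0, 1), (1, 2), (1, 3)], [(0, 3), (1, 0), (1, 1), (1, 3), (3, 0)], [(0, 3)], [7],
      [(0, 3, [0, 1]), (3, 0, [3])]⟩]
  Ta := [((3, 6), 0, 2), ((3, 9), 0, 7), ((4, 1), 0, 4), ((4, 2), 0, 1), ((5, 7), 0, 5), ((5, 8),
    0, 6)]
  Tb := [((0, 1, 9), 3, 4, 7), ((1, 0, 2), 4, 3, 1), ((1, 0, 4), 4, 3, 0), ((1, 0, 7), 4, 3, 5),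
    ((1, 2, 4), 4, 1, 0), ((1, 2, 7), 4, 1, 5), ((1, 4, 7), 4, 0, 5), ((2, 1, 4), 1, 4, 0),
    ((3, 6, 9), 0, 2, 7), ((4, 1, 2), 0, 4, 1), ((5, 7, 8), 0, 5, 6), ((6, 3, 8), 2, 0, 6),
    ((7, 1, 5), 5, 4, 0), ((8, 5, 6), 6, 0, 2), ((9, 0, 3), 7, 3, 0)]
  Tc := [(3, 0, 1)]
  Td := [((0, 3), (3, 6), 2), ((0, 3), (3, 9), 7), ((0, 3), (4, 1), 4), ((0, 3), (4, 2), 1), ((0,
    3), (5, 7), 5), ((0, 3), (5, 8), 6), ((1, 3), (2, 1), 4), ((1, 3), (2, 4), 0), ((3, 0),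
    (0, 1), 4), ((3, 0), (0, 9), 7), ((3, 1), (0, 1), 4), ((3, 1), (0, 9), 7)]
  G := [[0, 0, 0xaa6aaaaa6e4166a66666ce28c1, 0xa1a1a1e41616161e81c1, 0xa1a1a1e24616161e81c1],
    [0, 0x111111e428111111e824111111e482e, 0, 0x7111a44811116884714a12c41111a48cd,
    0x1111c248b111688411116286161a28cd], [0, 0, 0, 0x14431c18aacec15466c11ce1898c1c1,
    0x73a71a38e212289921ba9bae188a4c1]]

noncomputable def n2110 : Ent := ⟨e2110, noF, [], [], []⟩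

def c2110 : PLift (Cov.check n2110.C.D v2110 = true) := ⟨by decide +kernel⟩

def b2110 : PLift (entF (fidx ts) 400 2110 n2110 = true) := ⟨by decide +kernel⟩

theorem g2110 : GoodF (fidx ts) 400 2110 := GoodF.ofV v2110 n2110 c2110.down b2110.down

/-- 4748544:1789/2 -/
noncomputable def e2111 : SCfg where
  D := {
    a := 7
    L := 10
    kp := 7
    inn := [(0, 1), (1, 0), (1, 2), (1, 3), (1, 6), (2, 1), (2, 3), (3, 1), (3, 2), (3, 4), (3, 5), (4,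
      3), (5, 3), (6, 1)]
    mix := [(0, 0), (0, 1), (0, 2), (1, 0), (1, 2), (1, 3), (2, 2), (2, 4), (3, 3), (3, 4), (3, 5), (3,
      6), (4, 1), (4, 4), (4, 5), (4, 7), (5, 5), (5, 6), (5, 8), (6, 0), (6, 3), (6, 9)]
    cl := [3, 4, 1, 0, 0, 0, 2, 5, 6, 7]
    chq := [(0, 3), (1, 3), (3, 0), (3, 1)]
    rng := [(0, 1), (0, 9), (1, 0), (1, 2), (1, 5), (1, 7), (2, 1), (2, 4), (3, 6), (3, 9), (4, 2), (4,
      7), (5, 1), (5, 8), (6, 3), (6, 8), (7, 1), (7, 4), (8, 5), (8, 6), (9, 0), (9, 3)]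
    lev := [] }
  links := [[1, 7, 8, 9], [7, 0, 9, 2, 3, 10, 6], [3, 1, 9, 11], [10, 1, 2, 11, 4, 12, 5, 13], [12, 3,
    11, 14, 8], [13, 3, 12, 15], [7, 1, 10, 16]]
  P := {
    a := 7
    N := 17
    nb := [898, 1741, 2570, 15414, 22792, 45064, 66690, 65859, 21137, 2311, 73802, 16924, 33080,
      33832, 2320, 12320, 1216]
    tri := [(0, 1, 7), (0, 1, 9), (0, 7, 8), (0, 8, 9), (1, 2, 3), (1, 2, 9), (1, 3, 10), (1, 6, 7),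
      (1, 6, 10), (2, 3, 11), (2, 9, 11), (3, 4, 11), (3, 4, 12), (3, 5, 12), (3, 5, 13), (3, 10,
      13), (4, 8, 12), (4, 8, 14), (4, 11, 14), (5, 12, 15), (5, 13, 15), (6, 7, 16), (6, 10, 16)]
    fin := [0, 0, 0, 3, 4, 3, 0, 0, 4, 9, 3, 3, 3, 13, 14, 15, 16]
    chd := [(0, 3), (0, 9)]
    steps := [(0, 1), (0, 2), (0, 6), (0, 7), (3, 5), (3, 11), (3, 12), (3, 10), (4, 8)] }
  rep := [3, 9, 13, 0, 4, 14, 15, 16]

noncomputable def v2111 : Cov.CovD where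
  P := 3
  N := 5
  pl := [1, 6, 7, 8, 9]
  lev := [⟨[], [], [(1, 3)], [4], [(0, 3, [0, 1]), (2, 1, [3])]⟩,
    ⟨[], [(0, 0), (0, 1), (0, 3)], [(0, 1), (0, 3), (1, 3)], [], [(0, 3, [0, 1]), (2, 1,
      [3]), (3, 0, [3])]⟩,
    ⟨[(0, 1)], [(0, 1), (1, 0), (1, 1), (1, 3)], [(0, 1)], [], [(2, 1, [3]), (4, 0, [3])]⟩,
    ⟨[(0, 1), (1, 2)], [(1, 0), (1, 1), (1, 3), (2, 0), (2, 1)], [(0, 0)], [2], [(3, 0,
      [3]), (4, 0, [3]), (5, 0, [3])]⟩,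
    ⟨[(1, 3), (2, 3)], [(2, 0), (3, 0)], [(0, 0)], [4, 5], [(4, 0, [3]), (5, 0, [3])]⟩,
    ⟨[(1, 3), (2, 3), (3, 4)], [(3, 0), (4, 0)], [], [2, 6], [(5, 0, [3])]⟩,
    ⟨[(0, 1), (1, 2), (1, 3)], [(0, 3), (1, 0), (1, 1), (1, 3), (3, 0)], [(0, 3)], [7],
      [(0, 3, [0, 1]), (3, 0, [3])]⟩]
  Ta := [((3, 6), 0, 2), ((3, 9), 0, 7), ((4, 2), 0, 1), ((4, 7), 0, 5), ((5, 1), 0, 4), ((5, 8),
    0, 6)]
  Tb := [((0, 1, 9), 3, 4, 7), ((1, 0, 2), 4, 3, 1), ((1, 0, 5), 4, 3, 0), ((1, 0, 7), 4, 3, 5),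
    ((1, 2, 5), 4, 1, 0), ((1, 2, 7), 4, 1, 5), ((1, 5, 7), 4, 0, 5), ((2, 1, 4), 1, 4, 0),
    ((3, 6, 9), 0, 2, 7), ((4, 2, 7), 0, 1, 5), ((5, 1, 8), 0, 4, 6), ((6, 3, 8), 2, 0, 6),
    ((7, 1, 4), 5, 4, 0), ((8, 5, 6), 6, 0, 2), ((9, 0, 3), 7, 3, 0)]
  Tc := [(3, 0, 1)]
  Td := [((0, 3), (3, 6), 2), ((0, 3), (3, 9), 7), ((0, 3), (4, 2), 1), ((0, 3), (4, 7), 5), ((0,
    3), (5, 1), 4), ((0, 3), (5, 8), 6), ((1, 3), (2, 1), 4), ((1, 3), (2, 4), 0), ((3, 0),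
    (0, 1), 4), ((3, 0), (0, 9), 7), ((3, 1), (0, 1), 4), ((3, 1), (0, 9), 7)]
  G := [[0, 0, 0xaa6aaaaa6e4166a66666ce28c1, 0xa1a1a1e41616161e81c1, 0xa1a1a1e24616161e81c1],
    [0, 0x111111e428111111e824111111e482e, 0, 0x713151e48119131e84c1,
    0xa1a1a1e24116111e28c1], [0, 0, 0, 0x11c11ca4183bc11c68141448ac98aacec11411ca388c1cd,
    0x11a1218e21831a11a68141225aa186a462266a68aa8cd]]

noncomputable def n2111 : Ent := ⟨e2111, noF, [], [], []⟩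

def c2111 : PLift (Cov.check n2111.C.D v2111 = true) := ⟨by decide +kernel⟩

def b2111 : PLift (entF (fidx ts) 400 2111 n2111 = true) := ⟨by decide +kernel⟩

theorem g2111 : GoodF (fidx ts) 400 2111 := GoodF.ofV v2111 n2111 c2111.down b2111.down

/-- 4748544:1789/3 -/
noncomputable def e2112 : SCfg where
  D := {
    a := 7
    L := 10
    kp := 7
    inn := [(0, 1), (1, 0), (1, 2), (1, 3), (1, 6), (2, 1), (2, 3), (3, 1), (3, 2), (3, 4), (3, 5), (4,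
      3), (5, 3), (6, 1)]
    mix := [(0, 0), (0, 1), (0, 2), (1, 0), (1, 2), (1, 3), (2, 2), (2, 4), (3, 3), (3, 4), (3, 5), (3,
      6), (4, 4), (4, 5), (4, 7), (4, 8), (5, 1), (5, 5), (5, 6), (6, 0), (6, 3), (6, 9)]
    cl := [3, 1, 4, 0, 0, 0, 2, 5, 6, 7]
    chq := [(0, 3), (3, 0), (3, 4), (4, 3)]
    rng := [(0, 1), (0, 9), (1, 0), (1, 2), (1, 5), (1, 6), (2, 1), (2, 4), (3, 6), (3, 9), (4, 2), (4,
      7), (5, 1), (5, 8), (6, 1), (6, 3), (7, 4), (7, 8), (8, 5), (8, 7), (9, 0), (9, 3)]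
    lev := [] }
  links := [[1, 7, 8, 9], [7, 0, 9, 2, 3, 10, 6], [3, 1, 9, 11], [10, 1, 2, 11, 4, 12, 5, 13], [12, 3,
    11, 14, 15], [13, 3, 12, 8], [7, 1, 10, 16]]
  P := {
    a := 7
    N := 17
    nb := [898, 1741, 2570, 15414, 55304, 12552, 66690, 65859, 12961, 2311, 73802, 16924, 33080, 1320,
      34832, 20496, 1216]
    tri := [(0, 1, 7), (0, 1, 9), (0, 7, 8), (0, 8, 9), (1, 2, 3), (1, 2, 9), (1, 3, 10), (1, 6, 7),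
      (1, 6, 10), (2, 3, 11), (2, 9, 11), (3, 4, 11), (3, 4, 12), (3, 5, 12), (3, 5, 13), (3, 10,
      13), (4, 11, 14), (4, 12, 15), (4, 14, 15), (5, 8, 12), (5, 8, 13), (6, 7, 16), (6, 10, 16)]
    fin := [0, 1, 1, 3, 1, 3, 0, 0, 3, 9, 1, 1, 1, 13, 14, 15, 16]
    chd := [(0, 1), (0, 9)]
    steps := [(0, 7), (0, 6), (1, 2), (1, 11), (1, 4), (1, 12), (1, 10), (3, 5), (3, 8)] }
  rep := [1, 3, 13, 0, 9, 14, 15, 16]

noncomputable def v2112 : Cov.CovD where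
  P := 3
  N := 5
  pl := [1, 6, 7, 8, 9]
  lev := [⟨[], [], [(3, 4)], [1], [(0, 3, [0, 4]), (2, 4, [3])]⟩,
    ⟨[], [(0, 0), (0, 3), (0, 4)], [(0, 3), (0, 4), (3, 4)], [], [(0, 3, [0, 4]), (2, 4,
      [3]), (3, 0, [3])]⟩,
    ⟨[(0, 1)], [(0, 4), (1, 0), (1, 3), (1, 4)], [(0, 4)], [], [(2, 4, [3]), (4, 0, [3])]⟩,
    ⟨[(0, 1), (1, 2)], [(1, 0), (1, 3), (1, 4), (2, 0), (2, 4)], [(0, 0)], [2], [(3, 0,
      [3]), (4, 0, [3]), (5, 0, [3])]⟩,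
    ⟨[(1, 3), (2, 3)], [(2, 0), (3, 0)], [(0, 0)], [5, 6], [(4, 0, [3]), (5, 0, [3])]⟩,
    ⟨[(1, 3), (2, 3), (3, 4)], [(3, 0), (4, 0)], [], [1, 2], [(5, 0, [3])]⟩,
    ⟨[(0, 1), (1, 2), (1, 3)], [(0, 3), (1, 0), (1, 3), (1, 4), (3, 0)], [(0, 3)], [7],
      [(0, 3, [0, 4]), (3, 0, [3])]⟩]
  Ta := [((3, 6), 0, 2), ((3, 9), 0, 7), ((4, 2), 0, 4), ((4, 7), 0, 5), ((5, 1), 0, 1), ((5, 8),
    0, 6)]
  Tb := [((0, 1, 9), 3, 1, 7), ((1, 0, 2), 1, 3, 4), ((1, 0, 5), 1, 3, 0), ((1, 0, 6), 1, 3, 2),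
    ((1, 2, 5), 1, 4, 0), ((1, 2, 6), 1, 4, 2), ((1, 5, 6), 1, 0, 2), ((2, 1, 4), 4, 1, 0),
    ((3, 6, 9), 0, 2, 7), ((4, 2, 7), 0, 4, 5), ((5, 1, 8), 0, 1, 6), ((6, 1, 3), 2, 1, 0),
    ((7, 4, 8), 5, 0, 6), ((8, 5, 7), 6, 0, 5), ((9, 0, 3), 7, 3, 0)]
  Tc := [(3, 0, 4)]
  Td := [((0, 3), (3, 6), 2), ((0, 3), (3, 9), 7), ((0, 3), (4, 2), 4), ((0, 3), (4, 7), 5), ((0,
    3), (5, 1), 1), ((0, 3), (5, 8), 6), ((3, 0), (0, 1), 1), ((3, 0), (0, 9), 7), ((3, 4),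
    (0, 1), 1), ((3, 4), (0, 9), 7), ((4, 3), (2, 1), 1), ((4, 3), (2, 4), 0)]
  G := [[0, 0, 0xe4e8e8e41e4e8e8e81e4e4e8e81e1, 0xe1e1e8e4121, 0xe8e8e8e21e1e1e1e81e1e8e1e81e1],
    [0, 0, 0, 0x141818e428111118e824d1d1d4e822d,
    0x511178e248313818e2113111e8a4185811e28d191d8e82ad], [0,
    0x141818e418141418e814141818e412e, 0, 0xd4d474e8121, 0x781858e28b8e898e2178386188a1e1]]

noncomputable def n2112 : Ent := ⟨e2112, noF, [], [], []⟩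

def c2112 : PLift (Cov.check n2112.C.D v2112 = true) := ⟨by decide +kernel⟩

def b2112 : PLift (entF (fidx ts) 400 2112 n2112 = true) := ⟨by decide +kernel⟩

theorem g2112 : GoodF (fidx ts) 400 2112 := GoodF.ofV v2112 n2112 c2112.down b2112.down

/-- 4748544:1789 -/
noncomputable def e2113 : SCfg where
  D := {
    a := 7
    L := 11
    kp := 8
    inn := [(0, 1), (1, 0), (1, 2), (1, 3), (1, 6), (2, 1), (2, 3), (3, 1), (3, 2), (3, 4), (3, 5), (4,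
      3), (5, 3), (6, 1)]
    mix := [(0, 0), (0, 1), (0, 2), (1, 0), (1, 2), (1, 3), (2, 2), (2, 4), (3, 3), (3, 4), (3, 5), (3,
      6), (4, 4), (4, 5), (4, 7), (4, 8), (5, 5), (5, 6), (5, 9), (6, 0), (6, 3), (6, 10)]
    cl := [3, 5, 1, 0, 0, 0, 2, 6, 7, 8, 4]
    chq := [(1, 3), (1, 4), (3, 1), (4, 1)]
    rng := [(0, 1), (0, 10), (1, 0), (1, 2), (2, 1), (2, 4), (3, 6), (3, 10), (4, 2), (4, 7), (5, 8),
      (5, 9), (6, 3), (6, 9), (7, 4), (7, 8), (8, 5), (8, 7), (9, 5), (9, 6), (10, 0), (10, 3)]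
    lev := [] }
  links := [[1, 7, 8, 9], [7, 0, 9, 2, 3, 10, 6], [3, 1, 9, 11], [10, 1, 2, 11, 4, 12, 5, 13], [12, 3,
    11, 14, 15], [13, 3, 12, 16], [7, 1, 10, 17]]
  P := {
    a := 7
    N := 18
    nb := [898, 1741, 2570, 15414, 55304, 77832, 132226, 131395, 641, 2311, 139338, 16924, 98360,
      66600, 34832, 20496, 12320, 1216]
    tri := [(0, 1, 7), (0, 1, 9), (0, 7, 8), (0, 8, 9), (1, 2, 3), (1, 2, 9), (1, 3, 10), (1, 6, 7),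
      (1, 6, 10), (2, 3, 11), (2, 9, 11), (3, 4, 11), (3, 4, 12), (3, 5, 12), (3, 5, 13), (3, 10,
      13), (4, 11, 14), (4, 12, 15), (4, 14, 15), (5, 12, 16), (5, 13, 16), (6, 7, 17), (6, 10,
      17)]
    fin := [0, 1, 1, 3, 3, 3, 1, 0, 8, 1, 3, 3, 3, 13, 14, 15, 16, 17]
    chd := [(0, 1), (1, 17)]
    steps := [(0, 7), (1, 2), (1, 6), (1, 9), (3, 4), (3, 5), (3, 11), (3, 12), (3, 10)] }
  rep := [3, 1, 13, 0, 17, 8, 14, 15, 16]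

noncomputable def v2113 : Cov.CovD where
  P := 3
  N := 6
  pl := [1, 6, 7, 8, 9]
  lev := [⟨[], [], [(1, 3)], [5], [(0, 3, [1]), (2, 1, [3, 4])]⟩,
    ⟨[], [(0, 0), (0, 1), (0, 3)], [(0, 1), (0, 3), (1, 3)], [], [(0, 3, [1]), (2, 1, [3,
      4]), (3, 0, [])]⟩,
    ⟨[(0, 1)], [(0, 1), (1, 0), (1, 1), (1, 3)], [(0, 1)], [], [(2, 1, [3, 4]), (4, 0,
      [])]⟩,
    ⟨[(0, 1), (1, 2)], [(1, 0), (1, 1), (1, 3), (2, 0), (2, 1)], [(0, 0)], [2], [(3, 0,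
      []), (4, 0, []), (5, 0, [])]⟩,
    ⟨[(1, 3), (2, 3)], [(2, 0), (3, 0)], [(0, 0)], [6, 7], [(4, 0, []), (5, 0, [])]⟩,
    ⟨[(1, 3), (2, 3), (3, 4)], [(3, 0), (4, 0)], [], [2, 8], [(5, 0, [])]⟩,
    ⟨[(0, 1), (1, 2), (1, 3)], [(0, 3), (1, 0), (1, 1), (1, 3), (1, 4), (3, 0)], [(0, 3),
      (0, 4), (3, 4)], [], [(0, 3, [1]), (3, 0, []), (10, 4, [1])]⟩]
  Ta := [((3, 6), 0, 2), ((3, 10), 0, 4), ((4, 2), 0, 1), ((4, 7), 0, 6), ((5, 8), 0, 7), ((5,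
    9), 0, 8)]
  Tb := [((0, 1, 10), 3, 5, 4), ((1, 0, 2), 5, 3, 1), ((2, 1, 4), 1, 5, 0), ((3, 6, 10), 0, 2,
    4), ((4, 2, 7), 0, 1, 6), ((5, 8, 9), 0, 7, 8), ((6, 3, 9), 2, 0, 8), ((7, 4, 8), 6, 0,
    7), ((8, 5, 7), 7, 0, 6), ((9, 5, 6), 8, 0, 2), ((10, 0, 3), 4, 3, 0)]
  Tc := [(1, 3, 4)]
  Td := [((1, 3), (2, 1), 5), ((1, 3), (2, 4), 0), ((1, 4), (2, 1), 5), ((1, 4), (2, 4), 0), ((3,
    1), (0, 1), 5), ((3, 1), (0, 10), 4), ((4, 1), (10, 0), 3), ((4, 1), (10, 3), 0)]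
  G := [[0, 0, 0x22c22a22ce24822c22a22ce21422622622ce2122c22c22ce21cd,
    0x212121e418212121e81421216218c12142121ac1cd,
    0x212121e218212121e214212121e24212121e24cd], [0, 0x111111e428111111e824111111e482e, 0,
    0x2121a442148421484d21848212168821848d2141111ac4111121e84cd,
    0x212121e24821216218a84212111e28212121e84cd], [0, 0, 0,
    0x22c2822ce412448824488d288412422c22ce8128844d24412c2822cec12411c12ce818845cd,
    0x22a22a28e242228822284d22222a22a28ea8412212a12a18ea422221a12a18ea8cd]]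

noncomputable def n2113 : Ent := ⟨e2113, noF, [], [], [(8, 14, [7334790875878422277917280412776772662961875900559637987928627378118657, 0]), (8, 15, [7334790850167413569773436004105379185503274260204390087403942013300737, 0]), (8, 16, [7334685537875745012586738086077695515070955365108989538292687702327297, 0])]⟩

def c2113 : PLift (Cov.check n2113.C.D v2113 = true) := ⟨by decide +kernel⟩

def b2113 : PLift (entF (fidx ts) 400 2113 n2113 = true) := ⟨by decide +kernel⟩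

theorem g2113 : GoodF (fidx ts) 400 2113 := GoodF.ofV v2113 n2113 c2113.down b2113.down

/-- 4749445:1800/1 -/
noncomputable def e2114 : SCfg where
  D := {
    a := 7
    L := 10
    kp := 7
    inn := [(0, 1), (1, 0), (1, 2), (1, 3), (1, 5), (2, 1), (2, 3), (3, 1), (3, 2), (3, 4), (3, 5), (3,
      6), (4, 3), (5, 1), (5, 3), (6, 3)]
    mix := [(0, 0), (0, 1), (0, 2), (1, 0), (1, 2), (1, 3), (2, 2), (2, 4), (3, 4), (3, 5), (3, 6), (3,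
      7), (4, 1), (4, 4), (4, 5), (5, 3), (5, 7), (6, 6), (6, 7), (6, 8), (6, 9)]
    cl := [1, 4, 3, 2, 0, 5, 0, 0, 6, 7]
    chq := [(0, 1), (1, 0), (1, 3), (3, 1)]
    rng := [(0, 1), (0, 3), (1, 0), (1, 2), (1, 4), (1, 5), (2, 1), (2, 4), (3, 0), (3, 7), (4, 1), (4,
      2), (5, 1), (5, 6), (6, 5), (6, 8), (7, 3), (7, 9), (8, 6), (8, 9), (9, 7), (9, 8)]
    lev := [] }
  links := [[1, 7, 8, 9], [7, 0, 9, 2, 3, 5, 10], [3, 1, 9, 11], [5, 1, 2, 11, 4, 12, 13, 6, 14], [12, 3,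
    11, 8], [10, 1, 3, 14], [14, 3, 13, 15, 16]]
  P := {
    a := 7
    N := 17
    nb := [898, 1709, 2570, 30838, 6408, 17418, 122888, 1283, 6801, 2311, 16546, 796, 8472, 36936,
      66664, 73792, 49216]
    tri := [(0, 1, 7), (0, 1, 9), (0, 7, 8), (0, 8, 9), (1, 2, 3), (1, 2, 9), (1, 3, 5), (1, 5, 10),
      (1, 7, 10), (2, 3, 11), (2, 9, 11), (3, 4, 11), (3, 4, 12), (3, 5, 14), (3, 6, 13), (3, 6,
      14), (3, 12, 13), (4, 8, 11), (4, 8, 12), (5, 10, 14), (6, 13, 15), (6, 14, 16), (6, 15,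
      16)]
    fin := [0, 0, 0, 3, 4, 0, 3, 0, 4, 9, 10, 3, 12, 3, 3, 15, 16]
    chd := [(0, 3), (0, 9)]
    steps := [(0, 1), (0, 2), (0, 5), (0, 7), (3, 6), (3, 11), (3, 13), (3, 14), (4, 8)] }
  rep := [3, 0, 10, 9, 4, 12, 15, 16]

noncomputable def v2114 : Cov.CovD where
  P := 3
  N := 5
  pl := [1, 3, 5, 8, 9]
  lev := [⟨[], [], [(1, 3)], [4], [(0, 1, [0, 3]), (2, 3, [1])]⟩,
    ⟨[], [(0, 1), (0, 3)], [(1, 3)], [2], [(0, 1, [0, 3]), (2, 3, [1])]⟩,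
    ⟨[(0, 1)], [(0, 3), (1, 0), (1, 1), (1, 3)], [(0, 3)], [], [(2, 3, [1]), (4, 0, [1])]⟩,
    ⟨[(0, 1), (1, 2)], [(1, 0), (1, 1), (1, 3), (2, 0), (2, 3)], [(0, 0)], [5], [(4, 0,
      [1]), (6, 0, [1]), (7, 0, [1])]⟩,
    ⟨[(1, 3), (2, 3)], [(2, 0), (3, 0)], [], [4, 5], [(4, 0, [1])]⟩,
    ⟨[(0, 1), (1, 2), (1, 3), (2, 3), (3, 4)], [(1, 0), (1, 1), (1, 3), (3, 0)], [], [2],
      [(7, 0, [1])]⟩,
    ⟨[(1, 3), (2, 3), (3, 4), (3, 5)], [(3, 0), (5, 0)], [(0, 0)], [6, 7], [(6, 0, [1]),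
      (7, 0, [1])]⟩]
  Ta := [((4, 1), 0, 4), ((4, 2), 0, 3), ((6, 5), 0, 5), ((6, 8), 0, 6), ((7, 3), 0, 2), ((7, 9),
    0, 7)]
  Tb := [((0, 1, 3), 1, 4, 2), ((1, 0, 2), 4, 1, 3), ((1, 0, 4), 4, 1, 0), ((1, 0, 5), 4, 1, 5),
    ((1, 2, 4), 4, 3, 0), ((1, 2, 5), 4, 3, 5), ((1, 4, 5), 4, 0, 5), ((2, 1, 4), 3, 4, 0),
    ((3, 0, 7), 2, 1, 0), ((4, 1, 2), 0, 4, 3), ((5, 1, 6), 5, 4, 0), ((6, 5, 8), 0, 5, 6),
    ((7, 3, 9), 0, 2, 7), ((8, 6, 9), 6, 0, 7), ((9, 7, 8), 7, 0, 6)]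
  Tc := [(1, 0, 3)]
  Td := [((0, 1), (4, 1), 4), ((0, 1), (4, 2), 3), ((0, 1), (6, 5), 5), ((0, 1), (6, 8), 6), ((0,
    1), (7, 3), 2), ((0, 1), (7, 9), 7), ((1, 0), (0, 1), 4), ((1, 0), (0, 3), 2), ((1, 3),
    (0, 1), 4), ((1, 3), (0, 3), 2), ((3, 1), (2, 1), 4), ((3, 1), (2, 4), 0)]
  G := [[0, 0xe11e1168e11e11a4c1, 0,
    0x81e1a848626188264882d21c862e12868a28c4624564e4e4e844acac21d,
    0x2182e2e2ac141c66228829a14c126412168c62248a8c8848ce296248e2e82a2e8ec21d], [0,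
    0xe11e1168e11e81a4c1, 0, 0x68c1e82c211, 0x62e2ae81888e211], [0, 0xe11e4168e11e81a4c1,
    0xe21e4168e21a4a1a4c1, 0xe41e81c211, 0x2ca1e81c211]]

noncomputable def n2114 : Ent := ⟨e2114, noF, [], [], []⟩

def c2114 : PLift (Cov.check n2114.C.D v2114 = true) := ⟨by decide +kernel⟩

def b2114 : PLift (entF (fidx ts) 400 2114 n2114 = true) := ⟨by decide +kernel⟩

theorem g2114 : GoodF (fidx ts) 400 2114 := GoodF.ofV v2114 n2114 c2114.down b2114.down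

/-- 4749445:1800/2 -/
noncomputable def e2115 : SCfg where
  D := {
    a := 7
    L := 10
    kp := 7
    inn := [(0, 1), (1, 0), (1, 2), (1, 3), (1, 5), (2, 1), (2, 3), (3, 1), (3, 2), (3, 4), (3, 5), (3,
      6), (4, 3), (5, 1), (5, 3), (6, 3)]
    mix := [(0, 0), (0, 1), (0, 2), (1, 0), (1, 2), (1, 3), (2, 2), (2, 4), (3, 4), (3, 5), (3, 6), (3,
      7), (4, 4), (4, 5), (4, 8), (5, 3), (5, 7), (6, 1), (6, 6), (6, 7), (6, 9)]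
    cl := [4, 2, 0, 0, 3, 5, 1, 1, 6, 7]
    chq := [(1, 3), (1, 6), (3, 1), (6, 1)]
    rng := [(0, 1), (0, 3), (1, 0), (1, 2), (1, 6), (1, 9), (2, 1), (2, 4), (3, 0), (3, 7), (4, 2), (4,
      8), (5, 6), (5, 8), (6, 1), (6, 5), (7, 3), (7, 9), (8, 4), (8, 5), (9, 1), (9, 7)]
    lev := [] }
  links := [[1, 7, 8, 9], [7, 0, 9, 2, 3, 5, 10], [3, 1, 9, 11], [5, 1, 2, 11, 4, 12, 13, 6, 14], [12, 3,
    11, 15], [10, 1, 3, 14], [14, 3, 13, 8, 16]]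
  P := {
    a := 7
    N := 17
    nb := [898, 1709, 2570, 30838, 38920, 17418, 90376, 1283, 74433, 2311, 16546, 33308, 40984, 4424,
      66664, 6160, 16704]
    tri := [(0, 1, 7), (0, 1, 9), (0, 7, 8), (0, 8, 9), (1, 2, 3), (1, 2, 9), (1, 3, 5), (1, 5, 10),
      (1, 7, 10), (2, 3, 11), (2, 9, 11), (3, 4, 11), (3, 4, 12), (3, 5, 14), (3, 6, 13), (3, 6,
      14), (3, 12, 13), (4, 11, 15), (4, 12, 15), (5, 10, 14), (6, 8, 13), (6, 8, 16), (6, 14,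
      16)]
    fin := [0, 1, 1, 3, 4, 1, 6, 0, 6, 1, 1, 11, 12, 3, 3, 4, 16]
    chd := [(3, 4), (11, 3)]
    steps := [(0, 7), (1, 2), (1, 5), (1, 9), (1, 10), (3, 13), (3, 14), (4, 15), (6, 8)] }
  rep := [1, 3, 6, 11, 0, 12, 4, 16]

noncomputable def v2115 : Cov.CovD where
  P := 3
  N := 5
  pl := [0, 1, 5, 9]
  lev := [⟨[], [], [], [2, 4], [(2, 0, [])]⟩,
    ⟨[], [(0, 0)], [(0, 0)], [4], [(2, 0, []), (3, 0, [])]⟩,
    ⟨[(0, 1)], [(0, 0), (1, 0), (1, 3)], [(0, 3)], [], [(2, 0, []), (4, 3, [1])]⟩,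
    ⟨[(0, 1), (1, 2)], [(1, 0), (1, 1), (1, 3), (2, 0), (2, 1), (2, 3)], [(1, 1), (1, 3)],
      [5], [(4, 3, [1]), (6, 1, [3, 6]), (7, 1, [3, 6])]⟩,
    ⟨[(1, 3), (2, 3)], [(2, 3), (3, 1), (3, 3), (3, 6)], [(3, 6)], [5], [(4, 3, [1]), (8,
      6, [1])]⟩,
    ⟨[(0, 1), (1, 2), (1, 3), (2, 3), (3, 4)], [(1, 0), (1, 1), (3, 0), (3, 1), (3, 3)],
      [(0, 1)], [], [(3, 0, []), (7, 1, [3, 6])]⟩,
    ⟨[(1, 3), (2, 3), (3, 4), (3, 5)], [(3, 1), (3, 3), (5, 1)], [(1, 1)], [2, 7], [(6, 1,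
      [3, 6]), (7, 1, [3, 6])]⟩]
  Ta := [((2, 1), 0, 2), ((2, 4), 0, 3), ((3, 0), 0, 4), ((3, 7), 0, 1), ((6, 1), 1, 2), ((6, 5),
    1, 5), ((7, 3), 1, 0), ((7, 9), 1, 7)]
  Tb := [((0, 1, 3), 4, 2, 0), ((1, 0, 2), 2, 4, 0), ((1, 0, 6), 2, 4, 1), ((1, 0, 9), 2, 4, 7),
    ((1, 2, 6), 2, 0, 1), ((1, 2, 9), 2, 0, 7), ((1, 6, 9), 2, 1, 7), ((2, 1, 4), 0, 2, 3),
    ((3, 0, 7), 0, 4, 1), ((4, 2, 8), 3, 0, 6), ((5, 6, 8), 5, 1, 6), ((6, 1, 5), 1, 2, 5),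
    ((7, 3, 9), 1, 0, 7), ((8, 4, 5), 6, 3, 5), ((9, 1, 7), 7, 2, 1)]
  Tc := [(1, 3, 6)]
  Td := [((1, 3), (6, 1), 2), ((1, 3), (6, 5), 5), ((1, 3), (7, 3), 0), ((1, 3), (7, 9), 7), ((1,
    6), (6, 1), 2), ((1, 6), (6, 5), 5), ((1, 6), (7, 3), 0), ((1, 6), (7, 9), 7), ((3, 1),
    (4, 2), 0), ((3, 1), (4, 8), 6), ((6, 1), (8, 4), 3), ((6, 1), (8, 5), 5)]
  G := [[0, 0, 0x8224412c4c2c2c2f5684282a4142c2e8842c2c2f9288c86426412882c82e,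
    0x512512982d229824c12582962c,
    0x84919111f849482b521428118214b8a81282e94846929888792111139889989111b4c6a], [0, 0,
    0x812c4254141a4684282a48c16c8292c12426412882c82d82e, 0,
    0x9129225942169128294282e94294292912912c46a], [0, 0, 0, 0xc42942542d22c42582c42d229,
    0x9212349249494a568949439894947c12149214b849888b924b], [0,
    0xc21c4161421884189ac21c81a1c81416c, 0, 0, 0x94219424318c281c98212942942c16a]]

noncomputable def n2115 : Ent := ⟨e2115, noF, [], [], []⟩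

def c2115 : PLift (Cov.check n2115.C.D v2115 = true) := ⟨by decide +kernel⟩

def b2115 : PLift (entF (fidx ts) 400 2115 n2115 = true) := ⟨by decide +kernel⟩

theorem g2115 : GoodF (fidx ts) 400 2115 := GoodF.ofV v2115 n2115 c2115.down b2115.down

/-- 4749445:1800/3 -/
noncomputable def e2116 : SCfg where
  D := {
    a := 7
    L := 10
    kp := 7
    inn := [(0, 1), (1, 0), (1, 2), (1, 3), (1, 5), (2, 1), (2, 3), (3, 1), (3, 2), (3, 4), (3, 5), (3,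
      6), (4, 3), (5, 1), (5, 3), (6, 3)]
    mix := [(0, 0), (0, 1), (0, 2), (1, 0), (1, 2), (1, 3), (2, 2), (2, 4), (3, 4), (3, 5), (3, 6), (3,
      7), (4, 4), (4, 5), (4, 8), (5, 3), (5, 7), (6, 1), (6, 6), (6, 7), (6, 9)]
    cl := [4, 2, 0, 0, 3, 5, 1, 1, 6, 7]
    chq := [(1, 3), (1, 6), (3, 1), (6, 1)]
    rng := [(0, 1), (0, 3), (1, 0), (1, 2), (1, 7), (1, 9), (2, 1), (2, 4), (3, 0), (3, 7), (4, 2), (4,
      8), (5, 6), (5, 8), (6, 5), (6, 9), (7, 1), (7, 3), (8, 4), (8, 5), (9, 1), (9, 6)]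
    lev := [] }
  links := [[1, 7, 8, 9], [7, 0, 9, 2, 3, 5, 10], [3, 1, 9, 11], [5, 1, 2, 11, 4, 12, 13, 6, 14], [12, 3,
    11, 15], [10, 1, 3, 14], [14, 3, 13, 16, 8]]
  P := {
    a := 7
    N := 17
    nb := [898, 1709, 2570, 30838, 38920, 17418, 90376, 1283, 82625, 2311, 16546, 33308, 40984, 69704,
      1384, 6160, 8512]
    tri := [(0, 1, 7), (0, 1, 9), (0, 7, 8), (0, 8, 9), (1, 2, 3), (1, 2, 9), (1, 3, 5), (1, 5, 10),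
      (1, 7, 10), (2, 3, 11), (2, 9, 11), (3, 4, 11), (3, 4, 12), (3, 5, 14), (3, 6, 13), (3, 6,
      14), (3, 12, 13), (4, 11, 15), (4, 12, 15), (5, 10, 14), (6, 8, 14), (6, 8, 16), (6, 13,
      16)]
    fin := [0, 1, 1, 3, 4, 1, 6, 0, 6, 1, 1, 11, 12, 3, 3, 4, 16]
    chd := [(3, 4), (11, 3)]
    steps := [(0, 7), (1, 2), (1, 5), (1, 9), (1, 10), (3, 13), (3, 14), (4, 15), (6, 8)] }
  rep := [1, 3, 6, 11, 0, 12, 4, 16]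

noncomputable def v2116 : Cov.CovD where
  P := 3
  N := 5
  pl := [0, 1, 5, 9]
  lev := [⟨[], [], [], [2, 4], [(2, 0, [])]⟩,
    ⟨[], [(0, 0)], [(0, 0)], [4], [(2, 0, []), (3, 0, [])]⟩,
    ⟨[(0, 1)], [(0, 0), (1, 0), (1, 3)], [(0, 3)], [], [(2, 0, []), (4, 3, [1])]⟩,
    ⟨[(0, 1), (1, 2)], [(1, 0), (1, 1), (1, 3), (2, 0), (2, 1), (2, 3)], [(1, 1), (1, 3)],
      [5], [(4, 3, [1]), (6, 1, [3, 6]), (7, 1, [3, 6])]⟩,
    ⟨[(1, 3), (2, 3)], [(2, 3), (3, 1), (3, 3), (3, 6)], [(3, 6)], [5], [(4, 3, [1]), (8,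
      6, [1])]⟩,
    ⟨[(0, 1), (1, 2), (1, 3), (2, 3), (3, 4)], [(1, 0), (1, 1), (3, 0), (3, 1), (3, 3)],
      [(0, 1)], [], [(3, 0, []), (7, 1, [3, 6])]⟩,
    ⟨[(1, 3), (2, 3), (3, 4), (3, 5)], [(3, 1), (3, 3), (5, 1)], [(1, 1)], [2, 7], [(6, 1,
      [3, 6]), (7, 1, [3, 6])]⟩]
  Ta := [((2, 1), 0, 2), ((2, 4), 0, 3), ((3, 0), 0, 4), ((3, 7), 0, 1), ((6, 5), 1, 5), ((6, 9),
    1, 7), ((7, 1), 1, 2), ((7, 3), 1, 0)]
  Tb := [((0, 1, 3), 4, 2, 0), ((1, 0, 2), 2, 4, 0), ((1, 0, 7), 2, 4, 1), ((1, 0, 9), 2, 4, 7),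
    ((1, 2, 7), 2, 0, 1), ((1, 2, 9), 2, 0, 7), ((1, 7, 9), 2, 1, 7), ((2, 1, 4), 0, 2, 3),
    ((3, 0, 7), 0, 4, 1), ((4, 2, 8), 3, 0, 6), ((5, 6, 8), 5, 1, 6), ((6, 5, 9), 1, 5, 7),
    ((7, 1, 3), 1, 2, 0), ((8, 4, 5), 6, 3, 5), ((9, 1, 6), 7, 2, 1)]
  Tc := [(1, 3, 6)]
  Td := [((1, 3), (6, 5), 5), ((1, 3), (6, 9), 7), ((1, 3), (7, 1), 2), ((1, 3), (7, 3), 0), ((1,
    6), (6, 5), 5), ((1, 6), (6, 9), 7), ((1, 6), (7, 1), 2), ((1, 6), (7, 3), 0), ((3, 1),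
    (4, 2), 0), ((3, 1), (4, 8), 6), ((6, 1), (8, 4), 3), ((6, 1), (8, 5), 5)]
  G := [[0, 0, 0x8124422c2c4c2c4f5644288128aa4128822c2c2c8c8f9a8824412466c, 0,
    0x9111349292c929282b56911238281282e119184e82989482f92111438889111b4c6a], [0, 0,
    0x812c4254124684282a4128812c829a482426442c4298824c2e, 0x9124582c42962542942542d22c,
    0x9129425942169128281282e8429829214284299124c6a], [0, 0, 0, 0,
    0x92123492929284f1614143884289c929882b12941439898147c16a], [0,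
    0xc412c2143c4181a4218c8128218bc81416c, 0, 0x582942c82d22942c82542d229,
    0x94212942982c1c9421218c2982c16a]]

noncomputable def n2116 : Ent := ⟨e2116, noF, [], [], []⟩

def c2116 : PLift (Cov.check n2116.C.D v2116 = true) := ⟨by decide +kernel⟩

def b2116 : PLift (entF (fidx ts) 400 2116 n2116 = true) := ⟨by decide +kernel⟩

theorem g2116 : GoodF (fidx ts) 400 2116 := GoodF.ofV v2116 n2116 c2116.down b2116.down

/-- 4749445:1800 -/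
noncomputable def e2117 : SCfg where
  D := {
    a := 7
    L := 11
    kp := 8
    inn := [(0, 1), (1, 0), (1, 2), (1, 3), (1, 5), (2, 1), (2, 3), (3, 1), (3, 2), (3, 4), (3, 5), (3,
      6), (4, 3), (5, 1), (5, 3), (6, 3)]
    mix := [(0, 0), (0, 1), (0, 2), (1, 0), (1, 2), (1, 3), (2, 2), (2, 4), (3, 4), (3, 5), (3, 6), (3,
      7), (4, 4), (4, 5), (4, 8), (5, 3), (5, 7), (6, 6), (6, 7), (6, 9), (6, 10)]
    cl := [4, 5, 1, 3, 0, 2, 0, 0, 6, 7, 8]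
    chq := [(1, 3), (3, 1), (3, 5), (5, 3)]
    rng := [(0, 1), (0, 3), (1, 0), (1, 2), (2, 1), (2, 4), (3, 0), (3, 7), (4, 2), (4, 8), (5, 6), (5,
      8), (6, 5), (6, 9), (7, 3), (7, 10), (8, 4), (8, 5), (9, 6), (9, 10), (10, 7), (10, 9)]
    lev := [] }
  links := [[1, 7, 8, 9], [7, 0, 9, 2, 3, 5, 10], [3, 1, 9, 11], [5, 1, 2, 11, 4, 12, 13, 6, 14], [12, 3,
    11, 15], [10, 1, 3, 14], [14, 3, 13, 16, 17]]
  P := {
    a := 7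
    N := 18
    nb := [898, 1709, 2570, 30838, 38920, 17418, 221192, 1283, 641, 2311, 16546, 33308, 40984, 69704,
      132200, 6160, 139328, 81984]
    tri := [(0, 1, 7), (0, 1, 9), (0, 7, 8), (0, 8, 9), (1, 2, 3), (1, 2, 9), (1, 3, 5), (1, 5, 10),
      (1, 7, 10), (2, 3, 11), (2, 9, 11), (3, 4, 11), (3, 4, 12), (3, 5, 14), (3, 6, 13), (3, 6,
      14), (3, 12, 13), (4, 11, 15), (4, 12, 15), (5, 10, 14), (6, 13, 16), (6, 14, 17), (6, 16,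
      17)]
    fin := [0, 1, 2, 3, 3, 3, 3, 7, 0, 2, 1, 3, 12, 3, 3, 15, 16, 17]
    chd := [(0, 1), (2, 1)]
    steps := [(0, 8), (1, 10), (2, 9), (3, 4), (3, 5), (3, 6), (3, 11), (3, 13), (3, 14)] }
  rep := [3, 2, 12, 1, 7, 0, 15, 16, 17]

noncomputable def v2117 : Cov.CovD where
  P := 3
  N := 6
  pl := [0, 5, 8, 9, 10]
  lev := [⟨[], [], [(1, 5)], [4], [(1, 5, [3]), (2, 1, [3])]⟩,
    ⟨[], [(0, 1), (0, 3), (0, 5)], [(1, 3)], [4], [(2, 1, [3]), (3, 3, [1, 5])]⟩,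
    ⟨[(0, 1)], [(0, 1), (1, 0), (1, 1), (1, 3)], [(0, 1)], [], [(2, 1, [3]), (4, 0, [])]⟩,
    ⟨[(0, 1), (1, 2)], [(1, 0), (1, 1), (1, 3), (2, 0), (2, 1)], [(0, 0)], [2], [(4, 0,
      []), (6, 0, []), (7, 0, [])]⟩,
    ⟨[(1, 3), (2, 3)], [(2, 0), (3, 0)], [], [2, 6], [(4, 0, [])]⟩,
    ⟨[(0, 1), (1, 2), (1, 3), (2, 3), (3, 4)], [(1, 0), (1, 1), (1, 3), (3, 0), (3, 3)],
      [(0, 3)], [], [(3, 3, [1, 5]), (7, 0, [])]⟩,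
    ⟨[(1, 3), (2, 3), (3, 4), (3, 5)], [(3, 0), (5, 0)], [(0, 0)], [7, 8], [(6, 0, []), (7,
      0, [])]⟩]
  Ta := [((4, 2), 0, 1), ((4, 8), 0, 6), ((6, 5), 0, 2), ((6, 9), 0, 7), ((7, 3), 0, 3), ((7,
    10), 0, 8)]
  Tb := [((0, 1, 3), 4, 5, 3), ((1, 0, 2), 5, 4, 1), ((2, 1, 4), 1, 5, 0), ((3, 0, 7), 3, 4, 0),
    ((4, 2, 8), 0, 1, 6), ((5, 6, 8), 2, 0, 6), ((6, 5, 9), 0, 2, 7), ((7, 3, 10), 0, 3, 8),
    ((8, 4, 5), 6, 0, 2), ((9, 6, 10), 7, 0, 8), ((10, 7, 9), 8, 0, 7)]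
  Tc := [(3, 1, 5)]
  Td := [((1, 3), (2, 1), 5), ((1, 3), (2, 4), 0), ((3, 1), (3, 0), 4), ((3, 1), (3, 7), 0), ((3,
    5), (3, 0), 4), ((3, 5), (3, 7), 0), ((5, 3), (1, 0), 4), ((5, 3), (1, 2), 1)]
  G := [[0, 0x61e1c818c241e2ca18c46614e181cc2414e1a1cc8a414e1a1cc261e1c818c2ce, 0,
    0xa18441e2c8c62e2c828c45e182c46248c42e2ca28c49624e282cc81d,
    0x222e1c1aa862e2a88c8a45622e181aa462e2a88c8a496222ece88caa81d], [0, 0,
    0xe2e2684424e2a2ac85e8e1c214262c82a2ac49e2e2a481d, 0xe1184e21845e2148e21489e21841d,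
    0xe1184e21845e1124e21849e21841d], [0, 0, 0, 0x621821c8e21845e2148e21489e2148e2184cd,
    0x621841a8e21845e8124e21849e8124421a41a8cd]]

noncomputable def n2117 : Ent := ⟨e2117, noF, [], [], [(8, 15, [7334790850167413569773436004105379185503274260204390087403942013313025, 0]), (8, 16, [7334685537875745012586738086077695515070955365108989538292687702339585, 0]), (8, 17, [6903326391201334775872065844685381424292761054348340378595029938356225, 0])]⟩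

def c2117 : PLift (Cov.check n2117.C.D v2117 = true) := ⟨by decide +kernel⟩

def b2117 : PLift (entF (fidx ts) 400 2117 n2117 = true) := ⟨by decide +kernel⟩

theorem g2117 : GoodF (fidx ts) 400 2117 := GoodF.ofV v2117 n2117 c2117.down b2117.down

/-- 4749446:1801/1 -/
noncomputable def e2118 : SCfg where
  D := {
    a := 7
    L := 10
    kp := 7
    inn := [(0, 1), (1, 0), (1, 2), (1, 3), (1, 6), (2, 1), (2, 3), (3, 1), (3, 2), (3, 4), (3, 5), (3,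
      6), (4, 3), (5, 3), (5, 6), (6, 1), (6, 3), (6, 5)]
    mix := [(0, 0), (0, 1), (0, 2), (1, 0), (1, 2), (1, 3), (2, 2), (2, 4), (3, 4), (3, 5), (3, 6), (3,
      7), (4, 1), (4, 5), (4, 6), (5, 7), (5, 8), (6, 3), (6, 8), (6, 9)]
    cl := [2, 4, 0, 0, 1, 5, 1, 3, 6, 7]
    chq := [(1, 7), (3, 7), (7, 1), (7, 3)]
    rng := [(0, 1), (0, 3), (1, 0), (1, 2), (1, 5), (1, 6), (2, 1), (2, 4), (3, 0), (3, 9), (4, 2), (4,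
      5), (5, 1), (5, 4), (6, 1), (6, 7), (7, 6), (7, 8), (8, 7), (8, 9), (9, 3), (9, 8)]
    lev := [] }
  links := [[1, 7, 8, 9], [7, 0, 9, 2, 3, 6, 10], [3, 1, 9, 11], [6, 1, 2, 11, 12, 4, 13, 14, 5], [13, 3,
    12, 8], [6, 3, 14, 15], [10, 1, 3, 5, 15, 16]]
  P := {
    a := 7
    N := 17
    nb := [898, 1741, 2570, 30838, 12552, 49224, 99370, 1283, 12945, 2311, 65730, 4620, 2328, 16664,
      41000, 82016, 33856]
    tri := [(0, 1, 7), (0, 1, 9), (0, 7, 8), (0, 8, 9), (1, 2, 3), (1, 2, 9), (1, 3, 6), (1, 6, 10),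
      (1, 7, 10), (2, 3, 11), (2, 9, 11), (3, 4, 12), (3, 4, 13), (3, 5, 6), (3, 5, 14), (3, 11,
      12), (3, 13, 14), (4, 8, 12), (4, 8, 13), (5, 6, 15), (5, 14, 15), (6, 10, 16), (6, 15, 16)]
    fin := [0, 1, 1, 3, 4, 5, 6, 0, 4, 1, 1, 3, 12, 3, 5, 15, 6]
    chd := [(3, 6), (5, 6)]
    steps := [(0, 7), (1, 2), (1, 9), (1, 10), (3, 11), (3, 13), (4, 8), (5, 14), (6, 16)] }
  rep := [1, 3, 0, 5, 4, 12, 15, 6]

noncomputable def v2118 : Cov.CovD where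
  P := 3
  N := 5
  pl := [0, 1, 5, 8]
  lev := [⟨[], [], [], [2, 4], [(2, 0, [])]⟩,
    ⟨[], [(0, 0)], [(0, 0)], [2], [(2, 0, []), (3, 0, [])]⟩,
    ⟨[(0, 1)], [(0, 0), (1, 0), (1, 1)], [(0, 1)], [], [(2, 0, []), (4, 1, [7])]⟩,
    ⟨[(0, 1), (1, 2)], [(1, 0), (1, 1), (1, 3), (2, 0), (2, 1), (2, 3)], [(1, 1), (1, 3)],
      [5], [(4, 1, [7]), (6, 1, [7]), (7, 3, [7])]⟩,
    ⟨[(1, 3), (2, 3)], [(3, 1), (3, 3)], [], [4, 5], [(6, 1, [7])]⟩,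
    ⟨[(1, 3), (2, 3), (3, 4)], [(3, 1), (3, 3)], [], [6], [(7, 3, [7])]⟩,
    ⟨[(0, 1), (1, 2), (1, 3), (1, 5), (2, 3), (3, 4), (3, 5)], [(1, 0), (1, 7), (3, 0), (3,
      1), (3, 3), (3, 7), (5, 0), (5, 3), (5, 7)], [(0, 7)], [6], [(3, 0, []), (9, 7, [1,
      3])]⟩]
  Ta := [((2, 1), 0, 4), ((2, 4), 0, 1), ((3, 0), 0, 2), ((3, 9), 0, 7), ((4, 2), 1, 0), ((4, 5),
    1, 5), ((6, 1), 1, 4), ((6, 7), 1, 3)]
  Tb := [((0, 1, 3), 2, 4, 0), ((1, 0, 2), 4, 2, 0), ((1, 0, 5), 4, 2, 5), ((1, 0, 6), 4, 2, 1),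
    ((1, 2, 5), 4, 0, 5), ((1, 2, 6), 4, 0, 1), ((1, 5, 6), 4, 5, 1), ((2, 1, 4), 0, 4, 1),
    ((3, 0, 9), 0, 2, 7), ((4, 2, 5), 1, 0, 5), ((5, 1, 4), 5, 4, 1), ((6, 1, 7), 1, 4, 3),
    ((7, 6, 8), 3, 1, 6), ((8, 7, 9), 6, 3, 7), ((9, 3, 8), 7, 0, 6)]
  Tc := [(7, 1, 3)]
  Td := [((1, 7), (4, 2), 0), ((1, 7), (4, 5), 5), ((1, 7), (6, 1), 4), ((1, 7), (6, 7), 3), ((3,
    7), (7, 6), 1), ((3, 7), (7, 8), 6), ((7, 1), (9, 3), 0), ((7, 1), (9, 8), 6), ((7, 3),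
    (9, 3), 0), ((7, 3), (9, 8), 6)]
  G := [[0, 0x124e139ab159cd1e243567139ab1dc31e48c, 0,
    0x2831baa481512619aa82529c413a3464643536684482d69c8c, 0x12a31612674354724a96c342ab9c82],
    [0, 0, 0, 0x354788a331a92a56a4e9d244633165398b44296cae5d28c,
    0xa4143567898311a9a85463cdc2263521267398b4216a2e3d28a], [0, 0,
    0x48ee11686e222223c98c6c834162, 0x2442a344247248ee19c81883428c28cc1,
    0x2252234663248ee19cc8c24c8618ca1], [0, 0,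
    0x8a61166368c982a889c94221a8348c5488e1d248ed48ce584a4262c3624e154898498e,
    0x48ad8a3c248f426ace116636824f6acd82a1cac1,
    0x46a118a8ab8a342e2cf464676a4e822ecf88619ca1]]

noncomputable def n2118 : Ent := ⟨e2118, noF, [], [], []⟩

def c2118 : PLift (Cov.check n2118.C.D v2118 = true) := ⟨by decide +kernel⟩

def b2118 : PLift (entF (fidx ts) 400 2118 n2118 = true) := ⟨by decide +kernel⟩

theorem g2118 : GoodF (fidx ts) 400 2118 := GoodF.ofV v2118 n2118 c2118.down b2118.down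

/-- 4749446:1801 -/
noncomputable def e2119 : SCfg where
  D := {
    a := 7
    L := 11
    kp := 8
    inn := [(0, 1), (1, 0), (1, 2), (1, 3), (1, 6), (2, 1), (2, 3), (3, 1), (3, 2), (3, 4), (3, 5), (3,
      6), (4, 3), (5, 3), (5, 6), (6, 1), (6, 3), (6, 5)]
    mix := [(0, 0), (0, 1), (0, 2), (1, 0), (1, 2), (1, 3), (2, 2), (2, 4), (3, 4), (3, 5), (3, 6), (3,
      7), (4, 5), (4, 6), (4, 8), (5, 7), (5, 9), (6, 3), (6, 9), (6, 10)]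
    cl := [2, 7, 0, 0, 1, 4, 5, 1, 6, 3, 8]
    chq := [(0, 3), (1, 6), (3, 0), (6, 1)]
    rng := [(0, 1), (0, 3), (1, 0), (1, 2), (2, 1), (2, 4), (3, 0), (3, 10), (4, 2), (4, 5), (5, 4),
      (5, 8), (6, 7), (6, 8), (7, 6), (7, 9), (8, 5), (8, 6), (9, 7), (9, 10), (10, 3), (10, 9)]
    lev := [] }
  links := [[1, 7, 8, 9], [7, 0, 9, 2, 3, 6, 10], [3, 1, 9, 11], [6, 1, 2, 11, 12, 4, 13, 14, 5], [13, 3,
    12, 15], [6, 3, 14, 16], [10, 1, 3, 5, 16, 17]]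
  P := {
    a := 7
    N := 18
    nb := [898, 1741, 2570, 30838, 45064, 81992, 197674, 1283, 641, 2311, 131266, 4620, 34840, 49176,
      73768, 12304, 147552, 66624]
    tri := [(0, 1, 7), (0, 1, 9), (0, 7, 8), (0, 8, 9), (1, 2, 3), (1, 2, 9), (1, 3, 6), (1, 6, 10),
      (1, 7, 10), (2, 3, 11), (2, 9, 11), (3, 4, 12), (3, 4, 13), (3, 5, 6), (3, 5, 14), (3, 11,
      12), (3, 13, 14), (4, 12, 15), (4, 13, 15), (5, 6, 16), (5, 14, 16), (6, 10, 17), (6, 16,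
      17)]
    fin := [0, 1, 1, 3, 3, 1, 1, 0, 8, 1, 1, 3, 12, 13, 3, 15, 16, 17]
    chd := [(1, 16), (3, 15)]
    steps := [(0, 7), (1, 2), (1, 6), (1, 5), (1, 9), (1, 10), (3, 4), (3, 11), (3, 14)] }
  rep := [1, 3, 0, 16, 12, 13, 15, 8, 17]

noncomputable def v2119 : Cov.CovD where
  P := 3
  N := 6
  pl := [0, 1, 5, 6, 10]
  lev := [⟨[], [], [], [2, 7], [(2, 0, [3])]⟩,
    ⟨[], [(0, 0)], [(0, 0)], [2], [(2, 0, [3]), (3, 0, [3])]⟩,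
    ⟨[(0, 1)], [(0, 0), (1, 0), (1, 1)], [(0, 1)], [], [(2, 0, [3]), (4, 1, [6])]⟩,
    ⟨[(0, 1), (1, 2)], [(1, 0), (1, 1), (2, 0), (2, 1)], [(1, 1)], [4, 5], [(4, 1, [6]),
      (7, 1, [6])]⟩,
    ⟨[(1, 3), (2, 3)], [(3, 1), (3, 6)], [], [4, 5], [(8, 6, [1])]⟩,
    ⟨[(1, 3), (2, 3), (3, 4)], [(3, 1), (3, 3)], [(1, 3)], [], [(7, 1, [6]), (9, 3, [0])]⟩,
    ⟨[(0, 1), (1, 2), (1, 3), (1, 5), (2, 3), (3, 4), (3, 5)], [(1, 0), (1, 3), (3, 0), (3,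
      1), (3, 3), (5, 0), (5, 1), (5, 3)], [(0, 3)], [8], [(3, 0, [3]), (9, 3, [0])]⟩]
  Ta := [((2, 1), 0, 7), ((2, 4), 0, 1), ((3, 0), 0, 2), ((3, 10), 0, 8), ((4, 2), 1, 0), ((4,
    5), 1, 4), ((7, 6), 1, 5), ((7, 9), 1, 3)]
  Tb := [((0, 1, 3), 2, 7, 0), ((1, 0, 2), 7, 2, 0), ((2, 1, 4), 0, 7, 1), ((3, 0, 10), 0, 2, 8),
    ((4, 2, 5), 1, 0, 4), ((5, 4, 8), 4, 1, 6), ((6, 7, 8), 5, 1, 6), ((7, 6, 9), 1, 5, 3),
    ((8, 5, 6), 6, 4, 5), ((9, 7, 10), 3, 1, 8), ((10, 3, 9), 8, 0, 3)]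
  Tc := []
  Td := [((0, 3), (2, 1), 7), ((0, 3), (2, 4), 1), ((0, 3), (3, 0), 2), ((0, 3), (3, 10), 8),
    ((1, 6), (4, 2), 0), ((1, 6), (4, 5), 4), ((1, 6), (7, 6), 5), ((1, 6), (7, 9), 3), ((3,
    0), (9, 7), 1), ((3, 0), (9, 10), 8), ((6, 1), (8, 5), 4), ((6, 1), (8, 6), 5)]
  G := [[0, 0x116111a11161e84116111a111a1e48c, 0,
    0xa1a213a6942c2751231a329612f829294188d4124425629231a3ac234827268ebda144d8c,
    0x124412d2a9232a6ca6c3dc21225a641632c23268e39c12884aa8446188c2b], [0, 0, 0,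
    0x1818169e644455261611a5e81a69a2cb92ca1183885446a564f581a114e46125141bc18f82cc,
    0x18129169e4261411a5e8844c69a6cf94a141256a1a1169e2141ae526cfd24481a8888994aa], [0, 0,
    0x8242e1a6cf16144e1e82a1e1ec5221212121f812121e981a121b458141644441c1e42c1c279c66,
    0x422161e441616a182ac23c2c23268efdc8182684c1, 0x41425682a1e1e8241c23268efd6182a8c21], [0,
    0, 0x6141e1e8141a2cd924a5443181829e1e45642541e1e8844e1a6cf981a1e1e452c,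
    0x81a1e1e41ca5447526141e1e81a2c992c1, 0xa141646141e1e81a1a8844a6ca6cfdc21]]

noncomputable def n2119 : Ent := ⟨e2119, noF, [], [], [(8, 15, [7334790850167413569773436004105379185503274260204390087403942013329409, 0])]⟩

def c2119 : PLift (Cov.check n2119.C.D v2119 = true) := ⟨by decide +kernel⟩

def b2119 : PLift (entF (fidx ts) 400 2119 n2119 = true) := ⟨by decide +kernel⟩

theorem g2119 : GoodF (fidx ts) 400 2119 := GoodF.ofV v2119 n2119 c2119.down b2119.down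

/-- 4749445:1805/1 -/
noncomputable def e2120 : SCfg where
  D := {
    a := 7
    L := 9
    kp := 6
    inn := [(0, 1), (1, 0), (1, 2), (1, 3), (1, 5), (2, 1), (2, 3), (3, 1), (3, 2), (3, 4), (3, 5), (3,
      6), (4, 3), (4, 6), (5, 1), (5, 3), (6, 3), (6, 4)]
    mix := [(0, 0), (0, 1), (0, 2), (1, 0), (1, 2), (1, 3), (2, 2), (2, 4), (3, 4), (3, 5), (3, 6), (3,
      7), (4, 5), (4, 8), (5, 3), (5, 7), (6, 1), (6, 4), (6, 8)]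
    cl := [2, 4, 1, 1, 0, 0, 6, 3, 5]
    chq := [(0, 3), (3, 0)]
    rng := [(0, 1), (0, 3), (1, 0), (1, 2), (1, 4), (1, 8), (2, 1), (2, 4), (3, 0), (3, 7), (4, 1), (4,
      2), (5, 6), (5, 8), (6, 5), (6, 7), (7, 3), (7, 6), (8, 1), (8, 5)]
    lev := [] }
  links := [[1, 7, 8, 9], [7, 0, 9, 2, 3, 5, 10], [3, 1, 9, 11], [5, 1, 2, 11, 6, 4, 12, 13, 14], [12, 3,
    6, 15], [10, 1, 3, 14], [15, 4, 3, 11, 8]]
  P := {
    a := 7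
    N := 16
    nb := [898, 1709, 2570, 30838, 36936, 17418, 35096, 1283, 35521, 2311, 16546, 844, 40984, 20488,
      9256, 4432]
    tri := [(0, 1, 7), (0, 1, 9), (0, 7, 8), (0, 8, 9), (1, 2, 3), (1, 2, 9), (1, 3, 5), (1, 5, 10),
      (1, 7, 10), (2, 3, 11), (2, 9, 11), (3, 4, 6), (3, 4, 12), (3, 5, 14), (3, 6, 11), (3, 12,
      13), (3, 13, 14), (4, 6, 15), (4, 12, 15), (5, 10, 14), (6, 8, 11), (6, 8, 15)]
    fin := [0, 1, 1, 3, 4, 1, 4, 0, 4, 1, 1, 3, 3, 13, 14, 15]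
    chd := [(3, 14)]
    steps := [(0, 7), (1, 2), (1, 5), (1, 9), (1, 10), (3, 11), (3, 12), (4, 6), (4, 8)] }
  rep := [3, 1, 0, 14, 4, 15, 13]

noncomputable def v2120 : Cov.CovD where
  P := 3
  N := 4
  pl := [0, 1, 6, 8]
  lev := [⟨[], [], [], [2, 4], [(2, 1, [])]⟩,
    ⟨[], [(0, 1)], [(1, 1)], [2], [(2, 1, []), (3, 1, [])]⟩,
    ⟨[(0, 1)], [(0, 1), (1, 0), (1, 1)], [(0, 1)], [], [(2, 1, []), (4, 0, [3])]⟩,
    ⟨[(0, 1), (1, 2)], [(1, 0), (1, 1), (1, 3), (2, 0), (2, 1), (2, 3)], [(0, 0), (0, 3)],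
      [6], [(4, 0, [3]), (5, 0, [3]), (7, 3, [0])]⟩,
    ⟨[(1, 3), (2, 3)], [(3, 0), (3, 3)], [], [5], [(5, 0, [3])]⟩,
    ⟨[(0, 1), (1, 2), (1, 3), (2, 3), (3, 4)], [(1, 1), (1, 3), (3, 0), (3, 1), (3, 3)],
      [(1, 3)], [], [(3, 1, []), (7, 3, [0])]⟩,
    ⟨[(1, 3), (2, 3), (3, 4), (3, 5)], [(2, 0), (3, 0), (3, 3), (4, 0)], [], [4, 5], [(4,
      0, [3])]⟩]
  Ta := [((2, 1), 1, 4), ((2, 4), 1, 0), ((3, 0), 1, 2), ((3, 7), 1, 3), ((4, 1), 0, 4), ((4, 2),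
    0, 1), ((5, 6), 0, 6), ((5, 8), 0, 5)]
  Tb := [((0, 1, 3), 2, 4, 1), ((1, 0, 2), 4, 2, 1), ((1, 0, 4), 4, 2, 0), ((1, 0, 8), 4, 2, 5),
    ((1, 2, 4), 4, 1, 0), ((1, 2, 8), 4, 1, 5), ((1, 4, 8), 4, 0, 5), ((2, 1, 4), 1, 4, 0),
    ((3, 0, 7), 1, 2, 3), ((4, 1, 2), 0, 4, 1), ((5, 6, 8), 0, 6, 5), ((6, 5, 7), 6, 0, 3),
    ((7, 3, 6), 3, 1, 6), ((8, 1, 5), 5, 4, 0)]
  Tc := []
  Td := [((0, 3), (4, 1), 4), ((0, 3), (4, 2), 1), ((0, 3), (5, 6), 6), ((0, 3), (5, 8), 5), ((3,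
    0), (7, 3), 1), ((3, 0), (7, 6), 6)]
  G := [[0, 0xa118231a8121946461161166118c8c, 0xa114a21a11ac44214621222611ec8c, 0,
    0xa2161164a218496214621e11ac89], [0, 0, 0x418124ec121968e1184c2,
    0x212a11c11e8148c46116116412168a89, 0xa45146891ce51ac12], [0, 0,
    0x811168111aa8122a4541442a41116641226898c, 0, 0x1172611b1a9151ae481], [0, 0,
    0x112161121a2111ce482, 0x112161121a2111ce841, 0x112462111c6112168c81]]

noncomputable def n2120 : Ent := ⟨e2120, noF, [], [], []⟩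

def c2120 : PLift (Cov.check n2120.C.D v2120 = true) := ⟨by decide +kernel⟩

def b2120 : PLift (entF (fidx ts) 400 2120 n2120 = true) := ⟨by decide +kernel⟩

theorem g2120 : GoodF (fidx ts) 400 2120 := GoodF.ofV v2120 n2120 c2120.down b2120.down

/-- 4749445:1805/2 -/
noncomputable def e2121 : SCfg where
  D := {
    a := 7
    L := 9
    kp := 6
    inn := [(0, 1), (1, 0), (1, 2), (1, 3), (1, 5), (2, 1), (2, 3), (3, 1), (3, 2), (3, 4), (3, 5), (3,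
      6), (4, 3), (4, 6), (5, 1), (5, 3), (6, 3), (6, 4)]
    mix := [(0, 0), (0, 1), (0, 2), (1, 0), (1, 2), (1, 3), (2, 2), (2, 4), (3, 4), (3, 5), (3, 6), (3,
      7), (4, 1), (4, 5), (5, 3), (5, 7), (6, 1), (6, 4), (6, 8)]
    cl := [2, 3, 1, 1, 0, 0, 5, 4, 6]
    chq := [(0, 4), (4, 0)]
    rng := [(0, 1), (0, 3), (1, 0), (1, 2), (1, 5), (1, 8), (2, 1), (2, 4), (3, 0), (3, 7), (4, 2), (4,
      8), (5, 1), (5, 6), (6, 5), (6, 7), (7, 3), (7, 6), (8, 1), (8, 4)]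
    lev := [] }
  links := [[1, 7, 8, 9], [7, 0, 9, 2, 3, 5, 10], [3, 1, 9, 11], [5, 1, 2, 11, 6, 4, 12, 13, 14], [12, 3,
    6, 8], [10, 1, 3, 14], [8, 4, 3, 11, 15]]
  P := {
    a := 7
    N := 16
    nb := [898, 1709, 2570, 30838, 4424, 17418, 35096, 1283, 37585, 2311, 16546, 33356, 8472, 20488,
      9256, 2368]
    tri := [(0, 1, 7), (0, 1, 9), (0, 7, 8), (0, 8, 9), (1, 2, 3), (1, 2, 9), (1, 3, 5), (1, 5, 10),
      (1, 7, 10), (2, 3, 11), (2, 9, 11), (3, 4, 6), (3, 4, 12), (3, 5, 14), (3, 6, 11), (3, 12,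
      13), (3, 13, 14), (4, 6, 8), (4, 8, 12), (5, 10, 14), (6, 8, 15), (6, 11, 15)]
    fin := [0, 1, 1, 3, 4, 1, 4, 0, 4, 1, 1, 3, 3, 13, 14, 15]
    chd := [(3, 14)]
    steps := [(0, 7), (1, 2), (1, 5), (1, 9), (1, 10), (3, 11), (3, 12), (4, 6), (4, 8)] }
  rep := [3, 1, 0, 4, 14, 13, 15]

noncomputable def v2121 : Cov.CovD where
  P := 3
  N := 4
  pl := [0, 1, 6, 8]
  lev := [⟨[], [], [], [2, 3], [(2, 1, [])]⟩,
    ⟨[], [(0, 1)], [(1, 1)], [2], [(2, 1, []), (3, 1, [])]⟩,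
    ⟨[(0, 1)], [(0, 1), (1, 0), (1, 1)], [(0, 1)], [], [(2, 1, []), (4, 0, [4])]⟩,
    ⟨[(0, 1), (1, 2)], [(1, 0), (1, 1), (1, 4), (2, 0), (2, 1), (2, 4)], [(0, 0), (0, 4)],
      [5], [(4, 0, [4]), (5, 0, [4]), (7, 4, [0])]⟩,
    ⟨[(1, 3), (2, 3)], [(3, 0), (3, 4)], [], [3], [(5, 0, [4])]⟩,
    ⟨[(0, 1), (1, 2), (1, 3), (2, 3), (3, 4)], [(1, 1), (1, 4), (3, 0), (3, 1), (3, 4)],
      [(1, 4)], [], [(3, 1, []), (7, 4, [0])]⟩,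
    ⟨[(1, 3), (2, 3), (3, 4), (3, 5)], [(2, 0), (3, 0), (3, 4), (4, 0)], [], [3, 6], [(4,
      0, [4])]⟩]
  Ta := [((2, 1), 1, 3), ((2, 4), 1, 0), ((3, 0), 1, 2), ((3, 7), 1, 4), ((4, 2), 0, 1), ((4, 8),
    0, 6), ((5, 1), 0, 3), ((5, 6), 0, 5)]
  Tb := [((0, 1, 3), 2, 3, 1), ((1, 0, 2), 3, 2, 1), ((1, 0, 5), 3, 2, 0), ((1, 0, 8), 3, 2, 6),
    ((1, 2, 5), 3, 1, 0), ((1, 2, 8), 3, 1, 6), ((1, 5, 8), 3, 0, 6), ((2, 1, 4), 1, 3, 0),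
    ((3, 0, 7), 1, 2, 4), ((4, 2, 8), 0, 1, 6), ((5, 1, 6), 0, 3, 5), ((6, 5, 7), 5, 0, 4),
    ((7, 3, 6), 4, 1, 5), ((8, 1, 4), 6, 3, 0)]
  Tc := []
  Td := [((0, 4), (4, 2), 1), ((0, 4), (4, 8), 6), ((0, 4), (5, 1), 3), ((0, 4), (5, 6), 5), ((4,
    0), (7, 3), 1), ((4, 0), (7, 6), 5)]
  G := [[0, 0x2112a11a18818ea461161466118c8c, 0x221a21a11e8118c461161466248c8c, 0,
    0xe11e1166218c8218491], [0, 0, 0x4124611a11e11ec81184c2, 0xa45141a1566118a81282c1,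
    0x4a4d28e51668918c12], [0, 0, 0x12811861188c4112122114e48c, 0,
    0xb28a1864c14849112122114e489], [0, 0, 0x112112112e482, 0x614a14618e81112112112e845,
    0x782b121d92e412]]

noncomputable def n2121 : Ent := ⟨e2121, noF, [], [], []⟩

def c2121 : PLift (Cov.check n2121.C.D v2121 = true) := ⟨by decide +kernel⟩

def b2121 : PLift (entF (fidx ts) 400 2121 n2121 = true) := ⟨by decide +kernel⟩

theorem g2121 : GoodF (fidx ts) 400 2121 := GoodF.ofV v2121 n2121 c2121.down b2121.down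

/-- 4749445:1805 -/
noncomputable def e2122 : SCfg where
  D := {
    a := 7
    L := 10
    kp := 7
    inn := [(0, 1), (1, 0), (1, 2), (1, 3), (1, 5), (2, 1), (2, 3), (3, 1), (3, 2), (3, 4), (3, 5), (3,
      6), (4, 3), (4, 6), (5, 1), (5, 3), (6, 3), (6, 4)]
    mix := [(0, 0), (0, 1), (0, 2), (1, 0), (1, 2), (1, 3), (2, 2), (2, 4), (3, 4), (3, 5), (3, 6), (3,
      7), (4, 5), (4, 8), (5, 3), (5, 7), (6, 4), (6, 8), (6, 9)]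
    cl := [2, 6, 0, 0, 1, 1, 5, 3, 4, 7]
    chq := [(0, 5), (5, 0)]
    rng := [(0, 1), (0, 3), (1, 0), (1, 2), (2, 1), (2, 4), (3, 0), (3, 7), (4, 2), (4, 9), (5, 6), (5,
      8), (6, 5), (6, 7), (7, 3), (7, 6), (8, 5), (8, 9), (9, 4), (9, 8)]
    lev := [] }
  links := [[1, 7, 8, 9], [7, 0, 9, 2, 3, 5, 10], [3, 1, 9, 11], [5, 1, 2, 11, 6, 4, 12, 13, 14], [12, 3,
    6, 15], [10, 1, 3, 14], [15, 4, 3, 11, 16]]
  P := {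
    a := 7
    N := 17
    nb := [898, 1709, 2570, 30838, 36936, 17418, 100376, 1283, 641, 2311, 16546, 66124, 40984, 20488,
      9256, 69712, 34880]
    tri := [(0, 1, 7), (0, 1, 9), (0, 7, 8), (0, 8, 9), (1, 2, 3), (1, 2, 9), (1, 3, 5), (1, 5, 10),
      (1, 7, 10), (2, 3, 11), (2, 9, 11), (3, 4, 6), (3, 4, 12), (3, 5, 14), (3, 6, 11), (3, 12,
      13), (3, 13, 14), (4, 6, 15), (4, 12, 15), (5, 10, 14), (6, 11, 16), (6, 15, 16)]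
    fin := [0, 0, 2, 2, 4, 2, 4, 0, 8, 2, 2, 4, 4, 13, 14, 15, 16]
    chd := [(2, 13)]
    steps := [(0, 1), (0, 7), (2, 3), (2, 5), (2, 9), (2, 10), (4, 6), (4, 11), (4, 12)] }
  rep := [2, 4, 0, 14, 15, 13, 8, 16]

noncomputable def v2122 : Cov.CovD where
  P := 3
  N := 5
  pl := [0, 1, 7, 8, 9]
  lev := [⟨[], [], [], [2, 6], [(2, 0, [5])]⟩,
    ⟨[], [(0, 0)], [(0, 0)], [2], [(2, 0, [5]), (3, 0, [5])]⟩,
    ⟨[(0, 1)], [(0, 0), (1, 0), (1, 1)], [(0, 1)], [], [(2, 0, [5]), (4, 1, [])]⟩,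
    ⟨[(0, 1), (1, 2)], [(1, 0), (1, 1), (1, 5), (2, 0), (2, 1), (2, 5)], [(1, 1), (1, 5)],
      [3], [(4, 1, []), (5, 1, []), (6, 5, [0])]⟩,
    ⟨[(1, 3), (2, 3)], [(3, 1), (3, 5)], [], [4], [(5, 1, [])]⟩,
    ⟨[(0, 1), (1, 2), (1, 3), (2, 3), (3, 4)], [(1, 0), (3, 0), (3, 1), (3, 5)], [], [3],
      [(3, 0, [5])]⟩,
    ⟨[(1, 3), (2, 3), (3, 4), (3, 5)], [(2, 1), (3, 1), (3, 5), (4, 1)], [], [4, 7], [(4,
      1, [])]⟩]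
  Ta := [((2, 1), 0, 6), ((2, 4), 0, 1), ((3, 0), 0, 2), ((3, 7), 0, 3), ((4, 2), 1, 0), ((4, 9),
    1, 7), ((5, 6), 1, 5), ((5, 8), 1, 4)]
  Tb := [((0, 1, 3), 2, 6, 0), ((1, 0, 2), 6, 2, 0), ((2, 1, 4), 0, 6, 1), ((3, 0, 7), 0, 2, 3),
    ((4, 2, 9), 1, 0, 7), ((5, 6, 8), 1, 5, 4), ((6, 5, 7), 5, 1, 3), ((7, 3, 6), 3, 0, 5),
    ((8, 5, 9), 4, 1, 7), ((9, 4, 8), 7, 1, 4)]
  Tc := []
  Td := [((0, 5), (2, 1), 6), ((0, 5), (2, 4), 1), ((0, 5), (3, 0), 2), ((0, 5), (3, 7), 3), ((5,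
    0), (6, 5), 1), ((5, 0), (6, 7), 3)]
  G := [[0, 0xa1181619641146e1182ce1148611e11a8118acc, 0, 0x111122dda2d8411211148c966d48c,
    0x122dd62548142ddc2582112848b], [0, 0, 0, 0xe262e6c148eaa26ac184c,
    0x2ace6cc182ae6626c188a], [0, 0, 0xdd62148dd62188c, 0xd2248885daa1c21838cc1,
    0x94624da2558c28c21], [0, 0, 0xcc6226514899a22ac184c, 0xa43494868385c222994c1,
    0x64345a23498264bacd821]]

noncomputable def n2122 : Ent := ⟨e2122, noF, [], [], [(8, 16, [1580044410770988437309982408355971841652082177953823432505697796097, 0]), (8, 15, [1685356702439545624007900436039642273970977273354372543760008777729, 0])]⟩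

def c2122 : PLift (Cov.check n2122.C.D v2122 = true) := ⟨by decide +kernel⟩

def b2122 : PLift (entF (fidx ts) 400 2122 n2122 = true) := ⟨by decide +kernel⟩

theorem g2122 : GoodF (fidx ts) 400 2122 := GoodF.ofV v2122 n2122 c2122.down b2122.down

/-- 4749445:1807/1 -/
noncomputable def e2123 : SCfg where
  D := {
    a := 7
    L := 9
    kp := 6
    inn := [(0, 1), (1, 0), (1, 2), (1, 3), (1, 5), (2, 1), (2, 3), (3, 1), (3, 2), (3, 4), (3, 5), (3,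
      6), (4, 3), (4, 6), (5, 1), (5, 3), (6, 3), (6, 4)]
    mix := [(0, 0), (0, 1), (0, 2), (1, 0), (1, 2), (1, 3), (2, 2), (2, 4), (3, 4), (3, 5), (3, 6), (3,
      7), (4, 1), (4, 5), (5, 3), (5, 7), (6, 1), (6, 6), (6, 8)]
    cl := [2, 3, 0, 0, 1, 4, 1, 5, 6]
    chq := [(1, 3), (3, 1)]
    rng := [(0, 1), (0, 3), (1, 0), (1, 2), (1, 5), (1, 8), (2, 1), (2, 4), (3, 0), (3, 7), (4, 2), (4,
      5), (5, 1), (5, 4), (6, 7), (6, 8), (7, 3), (7, 6), (8, 1), (8, 6)]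
    lev := [] }
  links := [[1, 7, 8, 9], [7, 0, 9, 2, 3, 5, 10], [3, 1, 9, 11], [5, 1, 2, 11, 12, 4, 6, 13, 14], [6, 3,
    12, 8], [10, 1, 3, 14], [13, 3, 4, 8, 15]]
  P := {
    a := 7
    N := 16
    nb := [898, 1709, 2570, 30838, 4424, 17418, 41240, 1283, 37585, 2311, 16546, 4620, 2328, 49224,
      9256, 8512]
    tri := [(0, 1, 7), (0, 1, 9), (0, 7, 8), (0, 8, 9), (1, 2, 3), (1, 2, 9), (1, 3, 5), (1, 5, 10),
      (1, 7, 10), (2, 3, 11), (2, 9, 11), (3, 4, 6), (3, 4, 12), (3, 5, 14), (3, 6, 13), (3, 11,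
      12), (3, 13, 14), (4, 6, 8), (4, 8, 12), (5, 10, 14), (6, 8, 15), (6, 13, 15)]
    fin := [0, 1, 1, 3, 4, 1, 4, 0, 4, 1, 1, 3, 12, 3, 14, 15]
    chd := [(4, 3)]
    steps := [(0, 7), (1, 2), (1, 5), (1, 9), (1, 10), (3, 11), (3, 13), (4, 6), (4, 8)] }
  rep := [1, 3, 0, 4, 12, 14, 15]

noncomputable def v2123 : Cov.CovD where
  P := 3
  N := 4
  pl := [0, 5, 7, 8]
  lev := [⟨[], [], [(0, 3)], [2], [(1, 3, [1]), (2, 0, [])]⟩,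
    ⟨[], [(0, 0), (0, 3)], [(0, 0)], [2], [(2, 0, []), (3, 0, [])]⟩,
    ⟨[(0, 1)], [(0, 0), (1, 0), (1, 1)], [(0, 1)], [], [(2, 0, []), (4, 1, [3])]⟩,
    ⟨[(0, 1), (1, 2)], [(1, 0), (1, 1), (2, 0), (2, 1)], [(1, 1)], [4, 5], [(4, 1, [3]),
      (6, 1, [3])]⟩,
    ⟨[(1, 3), (2, 3)], [(0, 3), (3, 1), (3, 3)], [], [4], [(1, 3, [1])]⟩,
    ⟨[(0, 1), (1, 2), (1, 3), (2, 3), (3, 4)], [(1, 0), (3, 0), (3, 1)], [], [5], [(3, 0,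
      [])]⟩,
    ⟨[(1, 3), (2, 3), (3, 4), (3, 5)], [(0, 3), (3, 1), (3, 3), (4, 1), (4, 3)], [(1, 3)],
      [6], [(1, 3, [1]), (6, 1, [3])]⟩]
  Ta := [((2, 1), 0, 3), ((2, 4), 0, 1), ((3, 0), 0, 2), ((3, 7), 0, 5), ((4, 2), 1, 0), ((4, 5),
    1, 4), ((6, 7), 1, 5), ((6, 8), 1, 6)]
  Tb := [((0, 1, 3), 2, 3, 0), ((1, 0, 2), 3, 2, 0), ((1, 0, 5), 3, 2, 4), ((1, 0, 8), 3, 2, 6),
    ((1, 2, 5), 3, 0, 4), ((1, 2, 8), 3, 0, 6), ((1, 5, 8), 3, 4, 6), ((2, 1, 4), 0, 3, 1),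
    ((3, 0, 7), 0, 2, 5), ((4, 2, 5), 1, 0, 4), ((5, 1, 4), 4, 3, 1), ((6, 7, 8), 1, 5, 6),
    ((7, 3, 6), 5, 0, 1), ((8, 1, 6), 6, 3, 1)]
  Tc := []
  Td := [((1, 3), (4, 2), 0), ((1, 3), (4, 5), 4), ((1, 3), (6, 7), 5), ((1, 3), (6, 8), 6), ((3,
    1), (1, 0), 2), ((3, 1), (1, 2), 0), ((3, 1), (1, 5), 4), ((3, 1), (1, 8), 6)]
  G := [[0, 0x118e11aa1146411411266118a8c, 0, 0x91222d2a5421884c2244822422198cc,
    0x22b2c2222e2d55148c21884a2], [0, 0, 0, 0x91249129229c451211416522d28c,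
    0xc124c128c2512512d2c23d28a], [0, 0, 0x922484224412252ce2194ca, 0x242222d221582258a84c1,
    0x229464522e219c22884a1], [0, 0, 0x922812556292946612cc63d28a, 0x946212cca35258a282c1,
    0x5562494e2d22d282284a1]]

noncomputable def n2123 : Ent := ⟨e2123, noF, [], [], []⟩

def c2123 : PLift (Cov.check n2123.C.D v2123 = true) := ⟨by decide +kernel⟩

def b2123 : PLift (entF (fidx ts) 400 2123 n2123 = true) := ⟨by decide +kernel⟩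

theorem g2123 : GoodF (fidx ts) 400 2123 := GoodF.ofV v2123 n2123 c2123.down b2123.down

/-- 4749445:1807/2 -/
noncomputable def e2124 : SCfg where
  D := {
    a := 7
    L := 9
    kp := 6
    inn := [(0, 1), (1, 0), (1, 2), (1, 3), (1, 5), (2, 1), (2, 3), (3, 1), (3, 2), (3, 4), (3, 5), (3,
      6), (4, 3), (4, 6), (5, 1), (5, 3), (6, 3), (6, 4)]
    mix := [(0, 0), (0, 1), (0, 2), (1, 0), (1, 2), (1, 3), (2, 2), (2, 4), (3, 4), (3, 5), (3, 6), (3,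
      7), (4, 5), (4, 8), (5, 3), (5, 7), (6, 1), (6, 6), (6, 8)]
    cl := [2, 1, 0, 0, 3, 4, 3, 5, 6]
    chq := [(1, 4), (4, 1)]
    rng := [(0, 1), (0, 3), (1, 0), (1, 2), (1, 6), (1, 8), (2, 1), (2, 4), (3, 0), (3, 7), (4, 2), (4,
      5), (5, 4), (5, 8), (6, 1), (6, 7), (7, 3), (7, 6), (8, 1), (8, 5)]
    lev := [] }
  links := [[1, 7, 8, 9], [7, 0, 9, 2, 3, 5, 10], [3, 1, 9, 11], [5, 1, 2, 11, 12, 4, 6, 13, 14], [6, 3,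
    12, 15], [10, 1, 3, 14], [13, 3, 4, 15, 8]]
  P := {
    a := 7
    N := 16
    nb := [898, 1709, 2570, 30838, 36936, 17418, 41240, 1283, 41665, 2311, 16546, 4620, 34840, 16712,
      9256, 4432]
    tri := [(0, 1, 7), (0, 1, 9), (0, 7, 8), (0, 8, 9), (1, 2, 3), (1, 2, 9), (1, 3, 5), (1, 5, 10),
      (1, 7, 10), (2, 3, 11), (2, 9, 11), (3, 4, 6), (3, 4, 12), (3, 5, 14), (3, 6, 13), (3, 11,
      12), (3, 13, 14), (4, 6, 15), (4, 12, 15), (5, 10, 14), (6, 8, 13), (6, 8, 15)]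
    fin := [0, 1, 1, 3, 4, 1, 4, 0, 4, 1, 1, 3, 12, 3, 14, 15]
    chd := [(4, 12)]
    steps := [(0, 7), (1, 2), (1, 5), (1, 9), (1, 10), (3, 11), (3, 13), (4, 6), (4, 8)] }
  rep := [1, 4, 0, 3, 12, 14, 15]

noncomputable def v2124 : Cov.CovD where
  P := 3
  N := 4
  pl := [0, 7, 8]
  lev := [⟨[], [], [(0, 1)], [2], [(1, 1, [4]), (2, 0, [])]⟩,
    ⟨[], [(0, 0), (0, 1)], [(0, 0)], [2], [(2, 0, []), (3, 0, [])]⟩,
    ⟨[(0, 1)], [(0, 0), (1, 0), (1, 3)], [(0, 3)], [], [(2, 0, []), (4, 3, [])]⟩,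
    ⟨[(0, 1), (1, 2)], [(1, 0), (1, 3), (1, 4), (2, 0), (2, 3), (2, 4)], [(3, 3), (3, 4)],
      [5], [(4, 3, []), (5, 4, [1]), (6, 3, [])]⟩,
    ⟨[(1, 3), (2, 3)], [(3, 3), (3, 4)], [], [6], [(5, 4, [1])]⟩,
    ⟨[(0, 1), (1, 2), (1, 3), (2, 3), (3, 4)], [(1, 0), (3, 0), (3, 3), (3, 4)], [], [5],
      [(3, 0, [])]⟩,
    ⟨[(1, 3), (2, 3), (3, 4), (3, 5)], [(0, 1), (3, 1), (3, 3), (3, 4), (4, 1), (4, 3), (4,
      4)], [(1, 3)], [6], [(1, 1, [4]), (6, 3, [])]⟩]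
  Ta := [((2, 1), 0, 1), ((2, 4), 0, 3), ((3, 0), 0, 2), ((3, 7), 0, 5), ((4, 2), 3, 0), ((4, 5),
    3, 4), ((6, 1), 3, 1), ((6, 7), 3, 5)]
  Tb := [((0, 1, 3), 2, 1, 0), ((1, 0, 2), 1, 2, 0), ((1, 0, 6), 1, 2, 3), ((1, 0, 8), 1, 2, 6),
    ((1, 2, 6), 1, 0, 3), ((1, 2, 8), 1, 0, 6), ((1, 6, 8), 1, 3, 6), ((2, 1, 4), 0, 1, 3),
    ((3, 0, 7), 0, 2, 5), ((4, 2, 5), 3, 0, 4), ((5, 4, 8), 4, 3, 6), ((6, 1, 7), 3, 1, 5),
    ((7, 3, 6), 5, 0, 3), ((8, 1, 5), 6, 1, 4)]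
  Tc := []
  Td := [((1, 4), (1, 0), 2), ((1, 4), (1, 2), 0), ((1, 4), (1, 6), 3), ((1, 4), (1, 8), 6), ((4,
    1), (5, 4), 3), ((4, 1), (5, 8), 6)]
  G := [[0, 0xa211a811a44, 0, 0xc122c122542942c82de84, 0x118165191c1d9462724118a88192a8], [0,
    0xee611848, 0, 0x51242d12d8239128ac8, 0x4884188169125191c4484156efc28], [0, 0,
    0x88c86486c835145465212ca384, 0xc8215429829cc2e348, 0x129468414f21185861884688483d2a8],
    [0, 0, 0xd212c214894a484586348459ae9ca4, 0x582d8252ddc2218c28ac1,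
    0x529214d44881cae3448146a48418a68ca1]]

noncomputable def n2124 : Ent := ⟨e2124, noF, [], [], []⟩

def c2124 : PLift (Cov.check n2124.C.D v2124 = true) := ⟨by decide +kernel⟩

def b2124 : PLift (entF (fidx ts) 400 2124 n2124 = true) := ⟨by decide +kernel⟩

theorem g2124 : GoodF (fidx ts) 400 2124 := GoodF.ofV v2124 n2124 c2124.down b2124.down

/-- 4749445:1807 -/
noncomputable def e2125 : SCfg where
  D := {
    a := 7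
    L := 10
    kp := 7
    inn := [(0, 1), (1, 0), (1, 2), (1, 3), (1, 5), (2, 1), (2, 3), (3, 1), (3, 2), (3, 4), (3, 5), (3,
      6), (4, 3), (4, 6), (5, 1), (5, 3), (6, 3), (6, 4)]
    mix := [(0, 0), (0, 1), (0, 2), (1, 0), (1, 2), (1, 3), (2, 2), (2, 4), (3, 4), (3, 5), (3, 6), (3,
      7), (4, 5), (4, 8), (5, 3), (5, 7), (6, 6), (6, 8), (6, 9)]
    cl := [4, 7, 0, 0, 1, 3, 1, 2, 5, 6]
    chq := [(3, 6), (6, 3)]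
    rng := [(0, 1), (0, 3), (1, 0), (1, 2), (2, 1), (2, 4), (3, 0), (3, 7), (4, 2), (4, 5), (5, 4), (5,
      8), (6, 7), (6, 9), (7, 3), (7, 6), (8, 5), (8, 9), (9, 6), (9, 8)]
    lev := [] }
  links := [[1, 7, 8, 9], [7, 0, 9, 2, 3, 5, 10], [3, 1, 9, 11], [5, 1, 2, 11, 12, 4, 6, 13, 14], [6, 3,
    12, 15], [10, 1, 3, 14], [13, 3, 4, 15, 16]]
  P := {
    a := 7
    N := 17
    nb := [898, 1709, 2570, 30838, 36936, 17418, 106520, 1283, 641, 2311, 16546, 4620, 34840, 81992,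
      9256, 69712, 41024]
    tri := [(0, 1, 7), (0, 1, 9), (0, 7, 8), (0, 8, 9), (1, 2, 3), (1, 2, 9), (1, 3, 5), (1, 5, 10),
      (1, 7, 10), (2, 3, 11), (2, 9, 11), (3, 4, 6), (3, 4, 12), (3, 5, 14), (3, 6, 13), (3, 11,
      12), (3, 13, 14), (4, 6, 15), (4, 12, 15), (5, 10, 14), (6, 13, 16), (6, 15, 16)]
    fin := [0, 1, 1, 3, 4, 1, 4, 0, 8, 1, 1, 3, 4, 3, 14, 15, 16]
    chd := [(4, 16)]
    steps := [(0, 7), (1, 2), (1, 5), (1, 9), (1, 10), (3, 11), (3, 13), (4, 6), (4, 12)] }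
  rep := [1, 3, 14, 4, 0, 15, 16, 8]

noncomputable def v2125 : Cov.CovD where
  P := 3
  N := 5
  pl := [0, 1, 7, 8]
  lev := [⟨[], [], [], [4, 7], [(2, 0, [])]⟩,
    ⟨[], [(0, 0)], [(0, 0)], [4], [(2, 0, []), (3, 0, [])]⟩,
    ⟨[(0, 1)], [(0, 0), (1, 0), (1, 1)], [(0, 1)], [], [(2, 0, []), (4, 1, [])]⟩,
    ⟨[(0, 1), (1, 2)], [(1, 0), (1, 1), (1, 3), (2, 0), (2, 1), (2, 3)], [(1, 1), (1, 3)],
      [2], [(4, 1, []), (5, 3, [6]), (6, 1, [])]⟩,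
    ⟨[(1, 3), (2, 3)], [(3, 1), (3, 3)], [], [5], [(5, 3, [6])]⟩,
    ⟨[(0, 1), (1, 2), (1, 3), (2, 3), (3, 4)], [(1, 0), (3, 0), (3, 1), (3, 3)], [], [2],
      [(3, 0, [])]⟩,
    ⟨[(1, 3), (2, 3), (3, 4), (3, 5)], [(3, 1), (3, 3), (3, 6), (4, 1), (4, 3), (4, 6)],
      [(1, 6)], [5], [(6, 1, []), (9, 6, [3])]⟩]
  Ta := [((2, 1), 0, 7), ((2, 4), 0, 1), ((3, 0), 0, 4), ((3, 7), 0, 2), ((4, 2), 1, 0), ((4, 5),
    1, 3), ((6, 7), 1, 2), ((6, 9), 1, 6)]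
  Tb := [((0, 1, 3), 4, 7, 0), ((1, 0, 2), 7, 4, 0), ((2, 1, 4), 0, 7, 1), ((3, 0, 7), 0, 4, 2),
    ((4, 2, 5), 1, 0, 3), ((5, 4, 8), 3, 1, 5), ((6, 7, 9), 1, 2, 6), ((7, 3, 6), 2, 0, 1),
    ((8, 5, 9), 5, 3, 6), ((9, 6, 8), 6, 1, 5)]
  Tc := []
  Td := [((3, 6), (5, 4), 1), ((3, 6), (5, 8), 5), ((6, 3), (9, 6), 1), ((6, 3), (9, 8), 5)]
  G := [[0, 0x31846421448a821141a82ea1146425161382a114648e54443a1e85c82e, 0, 0,
    0x82625143118a842118c84e32526886859843111a28c85942e], [0, 0, 0,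
    0x11d1a54c435281151698c8598128a4518982c41d42e,
    0x92c231212d1a829158684e11d1698c859245191a88d86942e], [0, 0,
    0x32825486242a845262382285c8e1, 0, 0x22a25143218a81c288851221248d8945222c88225942d], [0,
    0, 0x92c254852c2a844814d444382123cce1, 0x1494a14c435244284ac421548984c92548982c41d24b,
    0xd2c231492284c12c2ad2825924584d8c839425248292284af]]

noncomputable def n2125 : Ent := ⟨e2125, noF, [], [], [(8, 15, [1685356702439545624007900436039642273970977273354372543760008785921, 0]), (8, 16, [1580044410770988437309982408355971841652082177953823432505697812481, 0])]⟩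

def c2125 : PLift (Cov.check n2125.C.D v2125 = true) := ⟨by decide +kernel⟩

def b2125 : PLift (entF (fidx ts) 400 2125 n2125 = true) := ⟨by decide +kernel⟩

theorem g2125 : GoodF (fidx ts) 400 2125 := GoodF.ofV v2125 n2125 c2125.down b2125.down

/-- 4749455:1811/1 -/
noncomputable def e2126 : SCfg where
  D := {
    a := 7
    L := 10
    kp := 7
    inn := [(0, 1), (1, 0), (1, 2), (1, 3), (1, 5), (2, 1), (2, 3), (3, 1), (3, 2), (3, 4), (3, 5), (3,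
      6), (4, 3), (4, 6), (5, 1), (5, 3), (6, 3), (6, 4)]
    mix := [(0, 0), (0, 1), (0, 2), (1, 0), (1, 2), (1, 3), (2, 2), (2, 4), (3, 4), (3, 5), (3, 6), (3,
      7), (4, 1), (4, 5), (5, 3), (5, 7), (5, 8), (6, 1), (6, 6), (6, 9)]
    cl := [5, 2, 0, 0, 1, 3, 1, 4, 7, 6]
    chq := [(0, 4), (3, 6), (4, 0), (6, 3)]
    rng := [(0, 1), (0, 3), (1, 0), (1, 2), (1, 5), (1, 9), (2, 1), (2, 4), (3, 0), (3, 8), (4, 2), (4,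
      5), (5, 1), (5, 4), (6, 7), (6, 9), (7, 6), (7, 8), (8, 3), (8, 7), (9, 1), (9, 6)]
    lev := [] }
  links := [[1, 7, 8, 9], [7, 0, 9, 2, 3, 5, 10], [3, 1, 9, 11], [5, 1, 2, 11, 12, 4, 6, 13, 14], [6, 3,
    12, 8], [10, 1, 3, 14, 15], [13, 3, 4, 8, 16]]
  P := {
    a := 7
    N := 17
    nb := [898, 1709, 2570, 30838, 4424, 50186, 74008, 1283, 70353, 2311, 32930, 4620, 2328, 81992,
      41000, 17440, 8512]
    tri := [(0, 1, 7), (0, 1, 9), (0, 7, 8), (0, 8, 9), (1, 2, 3), (1, 2, 9), (1, 3, 5), (1, 5, 10),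
      (1, 7, 10), (2, 3, 11), (2, 9, 11), (3, 4, 6), (3, 4, 12), (3, 5, 14), (3, 6, 13), (3, 11,
      12), (3, 13, 14), (4, 6, 8), (4, 8, 12), (5, 10, 15), (5, 14, 15), (6, 8, 16), (6, 13, 16)]
    fin := [0, 1, 1, 3, 4, 1, 4, 0, 8, 1, 1, 3, 4, 3, 14, 15, 16]
    chd := [(1, 14), (4, 16)]
    steps := [(0, 7), (1, 2), (1, 5), (1, 9), (1, 10), (3, 11), (3, 13), (4, 6), (4, 12)] }
  rep := [1, 3, 8, 4, 14, 0, 16, 15]

noncomputable def v2126 : Cov.CovD where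
  P := 3
  N := 5
  pl := [0, 1, 8]
  lev := [⟨[], [], [], [2, 5], [(2, 0, [4])]⟩,
    ⟨[], [(0, 0)], [(0, 0)], [5], [(2, 0, [4]), (3, 0, [4])]⟩,
    ⟨[(0, 1)], [(0, 0), (1, 0), (1, 1)], [(0, 1)], [], [(2, 0, [4]), (4, 1, [])]⟩,
    ⟨[(0, 1), (1, 2)], [(1, 0), (1, 1), (1, 3), (1, 4), (2, 0), (2, 1), (2, 3), (2, 4)],
      [(1, 1), (1, 3), (1, 4), (3, 4)], [], [(4, 1, []), (5, 3, [6]), (6, 1, []), (7, 4,
      [0])]⟩,
    ⟨[(1, 3), (2, 3)], [(3, 1), (3, 3), (3, 4)], [], [2], [(5, 3, [6])]⟩,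
    ⟨[(0, 1), (1, 2), (1, 3), (2, 3), (3, 4)], [(1, 0), (1, 4), (3, 0), (3, 1), (3, 3), (3,
      4)], [(0, 4)], [7], [(3, 0, [4]), (7, 4, [0])]⟩,
    ⟨[(1, 3), (2, 3), (3, 4), (3, 5)], [(3, 1), (3, 3), (3, 4), (3, 6), (4, 1), (4, 3), (4,
      6)], [(1, 6)], [2], [(6, 1, []), (9, 6, [3])]⟩]
  Ta := [((2, 1), 0, 2), ((2, 4), 0, 1), ((3, 0), 0, 5), ((3, 8), 0, 7), ((4, 2), 1, 0), ((4, 5),
    1, 3), ((6, 7), 1, 4), ((6, 9), 1, 6)]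
  Tb := [((0, 1, 3), 5, 2, 0), ((1, 0, 2), 2, 5, 0), ((1, 0, 5), 2, 5, 3), ((1, 0, 9), 2, 5, 6),
    ((1, 2, 5), 2, 0, 3), ((1, 2, 9), 2, 0, 6), ((1, 5, 9), 2, 3, 6), ((2, 1, 4), 0, 2, 1),
    ((3, 0, 8), 0, 5, 7), ((4, 2, 5), 1, 0, 3), ((5, 1, 4), 3, 2, 1), ((6, 7, 9), 1, 4, 6),
    ((7, 6, 8), 4, 1, 7), ((8, 3, 7), 7, 0, 4), ((9, 1, 6), 6, 2, 1)]
  Tc := []
  Td := [((0, 4), (2, 1), 2), ((0, 4), (2, 4), 1), ((0, 4), (3, 0), 5), ((0, 4), (3, 8), 7), ((3,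
    6), (5, 1), 2), ((3, 6), (5, 4), 1), ((4, 0), (7, 6), 1), ((4, 0), (7, 8), 7), ((6, 3),
    (9, 1), 2), ((6, 3), (9, 6), 1)]
  G := [[0, 0x114c116211884a118c11a2114426c, 0x226446614822a88aa18422c88cc182e,
    0x11844886c514845113844a88c94a113444a88ac981194441586c,
    0x1132226886a5411a228194c1222215811224822c88cad86a], [0, 0, 0xcc62148cca21844128cc2942e,
    0x1138446886c52884115588ca14318c88a4929144468586c,
    0x1129225211a289c292c92214111d211289c2d46a], [0, 0, 0,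
    0x446886c1116845812444a88ac91848941168411a4ccc19c2d,
    0x2261122684511a284c182281942898e2122a81c1222162869c86b], [0, 0, 0,
    0x446886c111684611a488494a11a444a88ac92411684cc1582d,
    0x116299625281228214289c2518289a122411a289a29c4b]]

noncomputable def n2126 : Ent := ⟨e2126, noF, [], [], []⟩

def c2126 : PLift (Cov.check n2126.C.D v2126 = true) := ⟨by decide +kernel⟩

def b2126 : PLift (entF (fidx ts) 400 2126 n2126 = true) := ⟨by decide +kernel⟩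

theorem g2126 : GoodF (fidx ts) 400 2126 := GoodF.ofV v2126 n2126 c2126.down b2126.down

/-- 4749455:1811/2 -/
noncomputable def e2127 : SCfg where
  D := {
    a := 7
    L := 10
    kp := 7
    inn := [(0, 1), (1, 0), (1, 2), (1, 3), (1, 5), (2, 1), (2, 3), (3, 1), (3, 2), (3, 4), (3, 5), (3,
      6), (4, 3), (4, 6), (5, 1), (5, 3), (6, 3), (6, 4)]
    mix := [(0, 0), (0, 1), (0, 2), (1, 0), (1, 2), (1, 3), (2, 2), (2, 4), (3, 4), (3, 5), (3, 6), (3,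
      7), (4, 5), (4, 8), (5, 3), (5, 7), (5, 9), (6, 1), (6, 6), (6, 8)]
    cl := [2, 4, 0, 0, 5, 1, 1, 3, 6, 7]
    chq := [(0, 1), (0, 3), (1, 0), (3, 0)]
    rng := [(0, 1), (0, 3), (1, 0), (1, 2), (1, 6), (1, 8), (2, 1), (2, 4), (3, 0), (3, 9), (4, 2), (4,
      5), (5, 4), (5, 8), (6, 1), (6, 7), (7, 6), (7, 9), (8, 1), (8, 5), (9, 3), (9, 7)]
    lev := [] }
  links := [[1, 7, 8, 9], [7, 0, 9, 2, 3, 5, 10], [3, 1, 9, 11], [5, 1, 2, 11, 12, 4, 6, 13, 14], [6, 3,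
    12, 15], [10, 1, 3, 14, 16], [13, 3, 4, 15, 8]]
  P := {
    a := 7
    N := 17
    nb := [898, 1709, 2570, 30838, 36936, 82954, 41240, 1283, 41665, 2311, 65698, 4620, 34840, 16712,
      73768, 4432, 17440]
    tri := [(0, 1, 7), (0, 1, 9), (0, 7, 8), (0, 8, 9), (1, 2, 3), (1, 2, 9), (1, 3, 5), (1, 5, 10),
      (1, 7, 10), (2, 3, 11), (2, 9, 11), (3, 4, 6), (3, 4, 12), (3, 5, 14), (3, 6, 13), (3, 11,
      12), (3, 13, 14), (4, 6, 15), (4, 12, 15), (5, 10, 16), (5, 14, 16), (6, 8, 13), (6, 8, 15)]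
    fin := [0, 1, 1, 3, 4, 1, 4, 0, 4, 1, 1, 11, 3, 3, 14, 15, 16]
    chd := [(1, 3), (1, 14)]
    steps := [(0, 7), (1, 2), (1, 5), (1, 9), (1, 10), (3, 12), (3, 13), (4, 6), (4, 8)] }
  rep := [1, 3, 0, 14, 4, 11, 15, 16]

noncomputable def v2127 : Cov.CovD where
  P := 3
  N := 5
  pl := [0, 1, 4, 8, 9]
  lev := [⟨[], [], [], [2, 4], [(2, 0, [1, 3])]⟩,
    ⟨[], [(0, 0)], [(0, 0)], [2], [(2, 0, [1, 3]), (3, 0, [1, 3])]⟩,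
    ⟨[(0, 1)], [(0, 0), (1, 0)], [], [5], [(2, 0, [1, 3])]⟩,
    ⟨[(0, 1), (1, 2)], [(1, 0), (1, 1), (1, 3), (2, 0), (2, 1), (2, 3)], [(1, 1), (1, 3)],
      [5], [(5, 1, [0]), (6, 1, [0]), (7, 3, [0])]⟩,
    ⟨[(1, 3), (2, 3)], [(3, 1), (3, 3)], [], [6], [(5, 1, [0])]⟩,
    ⟨[(0, 1), (1, 2), (1, 3), (2, 3), (3, 4)], [(1, 0), (1, 3), (3, 0), (3, 1), (3, 3)],
      [(0, 3)], [7], [(3, 0, [1, 3]), (7, 3, [0])]⟩,
    ⟨[(1, 3), (2, 3), (3, 4), (3, 5)], [(3, 1), (3, 3), (4, 1)], [], [4, 6], [(6, 1, [0])]⟩]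
  Ta := [((2, 1), 0, 4), ((2, 4), 0, 5), ((3, 0), 0, 2), ((3, 9), 0, 7), ((5, 4), 1, 5), ((5, 8),
    1, 6), ((6, 1), 1, 4), ((6, 7), 1, 3)]
  Tb := [((0, 1, 3), 2, 4, 0), ((1, 0, 2), 4, 2, 0), ((1, 0, 6), 4, 2, 1), ((1, 0, 8), 4, 2, 6),
    ((1, 2, 6), 4, 0, 1), ((1, 2, 8), 4, 0, 6), ((1, 6, 8), 4, 1, 6), ((2, 1, 4), 0, 4, 5),
    ((3, 0, 9), 0, 2, 7), ((4, 2, 5), 5, 0, 1), ((5, 4, 8), 1, 5, 6), ((6, 1, 7), 1, 4, 3),
    ((7, 6, 9), 3, 1, 7), ((8, 1, 5), 6, 4, 1), ((9, 3, 7), 7, 0, 3)]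
  Tc := [(0, 1, 3)]
  Td := [((0, 1), (2, 1), 4), ((0, 1), (2, 4), 5), ((0, 1), (3, 0), 2), ((0, 1), (3, 9), 7), ((0,
    3), (2, 1), 4), ((0, 3), (2, 4), 5), ((0, 3), (3, 0), 2), ((0, 3), (3, 9), 7), ((1, 0),
    (5, 4), 5), ((1, 0), (5, 8), 6), ((1, 0), (6, 1), 4), ((1, 0), (6, 7), 3), ((3, 0), (7,
    6), 1), ((3, 0), (7, 9), 7)]
  G := [[0, 0x1111a41111c261111688c1, 0,
    0x21113581828226cd1131888e21ac5a4226416c121122a44ac5443115418ce8c,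
    0x626ae6c121119aaa346ec5217158e82], [0, 0x1111a441111681111c2ac1, 0,
    0x11972119b2999e2d241147254252114b255a292cc,
    0x52212c128111a9cc2d2a41111751147255de2d28a], [0, 0x1111a441111681111c2ac1,
    0x212e221ec1211e122ec1a42, 0x222e212ec1e12e269ec1a41, 0x222e212ec1122ee1eec1681], [0,
    0x1111a41111c261111688c1, 0x9c621258212cd55e2128a, 0x11c1421161ddde292c1,
    0x1162d229211c2ddc252a1]]

noncomputable def n2127 : Ent := ⟨e2127, noF, [], [], []⟩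

def c2127 : PLift (Cov.check n2127.C.D v2127 = true) := ⟨by decide +kernel⟩

def b2127 : PLift (entF (fidx ts) 400 2127 n2127 = true) := ⟨by decide +kernel⟩

theorem g2127 : GoodF (fidx ts) 400 2127 := GoodF.ofV v2127 n2127 c2127.down b2127.down

/-- 4749455:1811 -/
noncomputable def e2128 : SCfg where
  D := {
    a := 7
    L := 11
    kp := 8
    inn := [(0, 1), (1, 0), (1, 2), (1, 3), (1, 5), (2, 1), (2, 3), (3, 1), (3, 2), (3, 4), (3, 5), (3,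
      6), (4, 3), (4, 6), (5, 1), (5, 3), (6, 3), (6, 4)]
    mix := [(0, 0), (0, 1), (0, 2), (1, 0), (1, 2), (1, 3), (2, 2), (2, 4), (3, 4), (3, 5), (3, 6), (3,
      7), (4, 5), (4, 8), (5, 3), (5, 7), (5, 9), (6, 6), (6, 8), (6, 10)]
    cl := [2, 6, 0, 0, 4, 1, 1, 3, 5, 7, 8]
    chq := [(0, 1), (0, 3), (1, 0), (3, 0)]
    rng := [(0, 1), (0, 3), (1, 0), (1, 2), (2, 1), (2, 4), (3, 0), (3, 9), (4, 2), (4, 5), (5, 4), (5,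
      8), (6, 7), (6, 10), (7, 6), (7, 9), (8, 5), (8, 10), (9, 3), (9, 7), (10, 6), (10, 8)]
    lev := [] }
  links := [[1, 7, 8, 9], [7, 0, 9, 2, 3, 5, 10], [3, 1, 9, 11], [5, 1, 2, 11, 12, 4, 6, 13, 14], [6, 3,
    12, 15], [10, 1, 3, 14, 16], [13, 3, 4, 15, 17]]
  P := {
    a := 7
    N := 18
    nb := [898, 1709, 2570, 30838, 36936, 82954, 172056, 1283, 641, 2311, 65698, 4620, 34840, 147528,
      73768, 135248, 17440, 41024]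
    tri := [(0, 1, 7), (0, 1, 9), (0, 7, 8), (0, 8, 9), (1, 2, 3), (1, 2, 9), (1, 3, 5), (1, 5, 10),
      (1, 7, 10), (2, 3, 11), (2, 9, 11), (3, 4, 6), (3, 4, 12), (3, 5, 14), (3, 6, 13), (3, 11,
      12), (3, 13, 14), (4, 6, 15), (4, 12, 15), (5, 10, 16), (5, 14, 16), (6, 13, 17), (6, 15,
      17)]
    fin := [0, 0, 2, 2, 4, 2, 4, 0, 8, 2, 2, 11, 4, 4, 14, 15, 16, 17]
    chd := [(2, 4), (2, 14)]
    steps := [(0, 1), (0, 7), (2, 3), (2, 5), (2, 9), (2, 10), (4, 6), (4, 12), (4, 13)] }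
  rep := [2, 4, 0, 14, 11, 15, 8, 16, 17]

noncomputable def v2128 : Cov.CovD where
  P := 3
  N := 6
  pl := [0, 1, 4, 8, 9, 10]
  lev := [⟨[], [], [], [2, 6], [(2, 0, [1, 3])]⟩,
    ⟨[], [(0, 0)], [(0, 0)], [2], [(2, 0, [1, 3]), (3, 0, [1, 3])]⟩,
    ⟨[(0, 1)], [(0, 0), (1, 0)], [], [4], [(2, 0, [1, 3])]⟩,
    ⟨[(0, 1), (1, 2)], [(1, 0), (1, 1), (1, 3), (2, 0), (2, 1), (2, 3)], [(1, 1), (1, 3)],
      [4], [(5, 1, [0]), (6, 1, [0]), (7, 3, [0])]⟩,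
    ⟨[(1, 3), (2, 3)], [(3, 1), (3, 3)], [], [5], [(5, 1, [0])]⟩,
    ⟨[(0, 1), (1, 2), (1, 3), (2, 3), (3, 4)], [(1, 0), (1, 3), (3, 0), (3, 1), (3, 3)],
      [(0, 3)], [7], [(3, 0, [1, 3]), (7, 3, [0])]⟩,
    ⟨[(1, 3), (2, 3), (3, 4), (3, 5)], [(3, 1), (3, 3), (4, 1)], [], [5, 8], [(6, 1, [0])]⟩]
  Ta := [((2, 1), 0, 6), ((2, 4), 0, 4), ((3, 0), 0, 2), ((3, 9), 0, 7), ((5, 4), 1, 4), ((5, 8),
    1, 5), ((6, 7), 1, 3), ((6, 10), 1, 8)]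
  Tb := [((0, 1, 3), 2, 6, 0), ((1, 0, 2), 6, 2, 0), ((2, 1, 4), 0, 6, 4), ((3, 0, 9), 0, 2, 7),
    ((4, 2, 5), 4, 0, 1), ((5, 4, 8), 1, 4, 5), ((6, 7, 10), 1, 3, 8), ((7, 6, 9), 3, 1, 7),
    ((8, 5, 10), 5, 1, 8), ((9, 3, 7), 7, 0, 3), ((10, 6, 8), 8, 1, 5)]
  Tc := [(0, 1, 3)]
  Td := [((0, 1), (2, 1), 6), ((0, 1), (2, 4), 4), ((0, 1), (3, 0), 2), ((0, 1), (3, 9), 7), ((0,
    3), (2, 1), 6), ((0, 3), (2, 4), 4), ((0, 3), (3, 0), 2), ((0, 3), (3, 9), 7), ((1, 0),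
    (5, 4), 4), ((1, 0), (5, 8), 5), ((1, 0), (6, 7), 3), ((1, 0), (6, 10), 8), ((3, 0), (7,
    6), 1), ((3, 0), (7, 9), 7)]
  G := [[0, 0x1111a41111c261111688c1, 0,
    0x71215226626c9b1219283ee6ac5a4a13192824c5a9664c162127358e2a41acc,
    0x22314c18222e6c56225715e2689e828c1aa21b19a2a62ac571215ea6266c968a], [0,
    0x1111a441111681111c2ac1, 0, 0x14524211cb2199242dd9e6d2c41411c72ddde2d2118b282cc,
    0xd221241119d611dd2ddc2d2a411117511c7242dd9e6d281284aa], [0, 0x1111a441111681111c2ac1,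
    0x22a4a6cd182aac62691422116ca41ac22a41cc5e222e9164e, 0x222e222ec1aa9e662ec1a41,
    0x222e222ec19a2e265ec1681], [0, 0x1111a41111c261111688c1, 0xddde2124ddde2124a,
    0x116211c1ddde2d281, 0x11611162ddde2d281]]

noncomputable def n2128 : Ent := ⟨e2128, noF, [], [], [(8, 15, [7334790850167413569773436004105379185503274260204390087403942013362177, 0]), (8, 17, [6903326391201334775872065844685381424292761054348340378595029938401281, 0])]⟩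

def c2128 : PLift (Cov.check n2128.C.D v2128 = true) := ⟨by decide +kernel⟩

def b2128 : PLift (entF (fidx ts) 400 2128 n2128 = true) := ⟨by decide +kernel⟩

theorem g2128 : GoodF (fidx ts) 400 2128 := GoodF.ofV v2128 n2128 c2128.down b2128.down

/-- 4749445:1819/1 -/
noncomputable def e2129 : SCfg where
  D := {
    a := 7
    L := 10
    kp := 7
    inn := [(0, 1), (1, 0), (1, 2), (1, 3), (1, 5), (2, 1), (2, 3), (3, 1), (3, 2), (3, 4), (3, 5), (3,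
      6), (4, 3), (5, 1), (5, 3), (6, 3)]
    mix := [(0, 0), (0, 1), (0, 2), (1, 0), (1, 2), (1, 3), (2, 2), (2, 4), (3, 4), (3, 5), (3, 6), (3,
      7), (4, 6), (4, 7), (4, 8), (5, 3), (5, 7), (6, 1), (6, 4), (6, 5), (6, 9)]
    cl := [4, 2, 0, 0, 1, 1, 5, 3, 6, 7]
    chq := [(1, 3), (1, 6), (3, 1), (6, 1)]
    rng := [(0, 1), (0, 3), (1, 0), (1, 2), (1, 4), (1, 9), (2, 1), (2, 4), (3, 0), (3, 7), (4, 1), (4,
      2), (5, 6), (5, 9), (6, 5), (6, 8), (7, 3), (7, 8), (8, 6), (8, 7), (9, 1), (9, 5)]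
    lev := [] }
  links := [[1, 7, 8, 9], [7, 0, 9, 2, 3, 5, 10], [3, 1, 9, 11], [5, 1, 2, 11, 6, 12, 13, 4, 14], [14, 3,
    13, 15], [10, 1, 3, 14], [12, 3, 11, 8, 16]]
  P := {
    a := 7
    N := 17
    nb := [898, 1709, 2570, 30838, 57352, 17418, 71944, 1283, 68289, 2311, 16546, 844, 73800, 36888,
      33848, 24592, 4416]
    tri := [(0, 1, 7), (0, 1, 9), (0, 7, 8), (0, 8, 9), (1, 2, 3), (1, 2, 9), (1, 3, 5), (1, 5, 10),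
      (1, 7, 10), (2, 3, 11), (2, 9, 11), (3, 4, 13), (3, 4, 14), (3, 5, 14), (3, 6, 11), (3, 6,
      12), (3, 12, 13), (4, 13, 15), (4, 14, 15), (5, 10, 14), (6, 8, 11), (6, 8, 16), (6, 12,
      16)]
    fin := [0, 1, 1, 3, 3, 1, 6, 0, 6, 1, 1, 3, 3, 13, 14, 15, 16]
    chd := [(3, 14), (3, 15)]
    steps := [(0, 7), (1, 2), (1, 5), (1, 9), (1, 10), (3, 4), (3, 11), (3, 12), (6, 8)] }
  rep := [1, 3, 6, 14, 0, 13, 15, 16]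

noncomputable def v2129 : Cov.CovD where
  P := 3
  N := 5
  pl := [0, 1, 6, 9]
  lev := [⟨[], [], [], [2, 4], [(2, 0, [])]⟩,
    ⟨[], [(0, 0)], [(0, 0)], [4], [(2, 0, []), (3, 0, [])]⟩,
    ⟨[(0, 1)], [(0, 0), (1, 0), (1, 1)], [(0, 1)], [], [(2, 0, []), (4, 1, [3, 6])]⟩,
    ⟨[(0, 1), (1, 2)], [(1, 0), (1, 1), (1, 3), (2, 0), (2, 1), (2, 3)], [(1, 1), (1, 3)],
      [5], [(4, 1, [3, 6]), (5, 1, [3, 6]), (7, 3, [1])]⟩,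
    ⟨[(1, 3), (2, 3)], [(3, 1), (3, 3), (3, 6)], [(3, 6)], [5], [(7, 3, [1]), (8, 6, [1])]⟩,
    ⟨[(0, 1), (1, 2), (1, 3), (2, 3), (3, 4)], [(1, 0), (1, 3), (3, 0), (3, 1), (3, 3), (4,
      3)], [(0, 3)], [], [(3, 0, []), (7, 3, [1])]⟩,
    ⟨[(1, 3), (2, 3), (3, 4), (3, 5)], [(2, 1), (3, 1), (3, 3)], [(1, 1)], [2, 7], [(4, 1,
      [3, 6]), (5, 1, [3, 6])]⟩]
  Ta := [((2, 1), 0, 2), ((2, 4), 0, 1), ((3, 0), 0, 4), ((3, 7), 0, 3), ((4, 1), 1, 2), ((4, 2),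
    1, 0), ((5, 6), 1, 5), ((5, 9), 1, 7)]
  Tb := [((0, 1, 3), 4, 2, 0), ((1, 0, 2), 2, 4, 0), ((1, 0, 4), 2, 4, 1), ((1, 0, 9), 2, 4, 7),
    ((1, 2, 4), 2, 0, 1), ((1, 2, 9), 2, 0, 7), ((1, 4, 9), 2, 1, 7), ((2, 1, 4), 0, 2, 1),
    ((3, 0, 7), 0, 4, 3), ((4, 1, 2), 1, 2, 0), ((5, 6, 9), 1, 5, 7), ((6, 5, 8), 5, 1, 6),
    ((7, 3, 8), 3, 0, 6), ((8, 6, 7), 6, 5, 3), ((9, 1, 5), 7, 2, 1)]
  Tc := [(1, 3, 6)]
  Td := [((1, 3), (4, 1), 2), ((1, 3), (4, 2), 0), ((1, 3), (5, 6), 5), ((1, 3), (5, 9), 7), ((1,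
    6), (4, 1), 2), ((1, 6), (4, 2), 0), ((1, 6), (5, 6), 5), ((1, 6), (5, 9), 7), ((3, 1),
    (7, 3), 0), ((3, 1), (7, 8), 6), ((6, 1), (8, 6), 5), ((6, 1), (8, 7), 3)]
  G := [[0, 0xc11c1162489182ac11c11a28451426c, 0x812c2254489284c412488c124c12ccc29c2e,
    0x522912522d82522942522d82c, 0x9129225491284c91291299c2d42a], [0, 0,
    0xc2c4c2c2f1c12468c12c242c2c2f92481c164c128c2e, 0,
    0x929282b19191127469112382c914491913919139899cadc2a], [0, 0, 0,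
    0x582922922d42522922922d429, 0x9424192281a94299c258218a289a2944b], [0, 0, 0, 0,
    0x929282b184929412f459212384a94989494f889499ce582129292b844b]]

noncomputable def n2129 : Ent := ⟨e2129, noF, [], [], []⟩

def c2129 : PLift (Cov.check n2129.C.D v2129 = true) := ⟨by decide +kernel⟩

def b2129 : PLift (entF (fidx ts) 400 2129 n2129 = true) := ⟨by decide +kernel⟩

theorem g2129 : GoodF (fidx ts) 400 2129 := GoodF.ofV v2129 n2129 c2129.down b2129.down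

/-- 4749445:1819/2 -/
noncomputable def e2130 : SCfg where
  D := {
    a := 7
    L := 10
    kp := 7
    inn := [(0, 1), (1, 0), (1, 2), (1, 3), (1, 5), (2, 1), (2, 3), (3, 1), (3, 2), (3, 4), (3, 5), (3,
      6), (4, 3), (5, 1), (5, 3), (6, 3)]
    mix := [(0, 0), (0, 1), (0, 2), (1, 0), (1, 2), (1, 3), (2, 2), (2, 4), (3, 4), (3, 5), (3, 6), (3,
      7), (4, 6), (4, 7), (4, 8), (5, 3), (5, 7), (6, 1), (6, 4), (6, 5), (6, 9)]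
    cl := [2, 4, 0, 0, 1, 1, 5, 3, 6, 7]
    chq := [(1, 3), (1, 6), (3, 1), (6, 1)]
    rng := [(0, 1), (0, 3), (1, 0), (1, 2), (1, 5), (1, 9), (2, 1), (2, 4), (3, 0), (3, 7), (4, 2), (4,
      9), (5, 1), (5, 6), (6, 5), (6, 8), (7, 3), (7, 8), (8, 6), (8, 7), (9, 1), (9, 4)]
    lev := [] }
  links := [[1, 7, 8, 9], [7, 0, 9, 2, 3, 5, 10], [3, 1, 9, 11], [5, 1, 2, 11, 6, 12, 13, 4, 14], [14, 3,
    13, 15], [10, 1, 3, 14], [12, 3, 11, 16, 8]]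
  P := {
    a := 7
    N := 17
    nb := [898, 1709, 2570, 30838, 57352, 17418, 71944, 1283, 70337, 2311, 16546, 66124, 8520, 36888,
      33848, 24592, 2368]
    tri := [(0, 1, 7), (0, 1, 9), (0, 7, 8), (0, 8, 9), (1, 2, 3), (1, 2, 9), (1, 3, 5), (1, 5, 10),
      (1, 7, 10), (2, 3, 11), (2, 9, 11), (3, 4, 13), (3, 4, 14), (3, 5, 14), (3, 6, 11), (3, 6,
      12), (3, 12, 13), (4, 13, 15), (4, 14, 15), (5, 10, 14), (6, 8, 12), (6, 8, 16), (6, 11,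
      16)]
    fin := [0, 1, 1, 3, 3, 1, 6, 0, 6, 1, 1, 3, 3, 13, 14, 15, 16]
    chd := [(3, 14), (3, 15)]
    steps := [(0, 7), (1, 2), (1, 5), (1, 9), (1, 10), (3, 4), (3, 11), (3, 12), (6, 8)] }
  rep := [1, 3, 0, 14, 6, 13, 15, 16]

noncomputable def v2130 : Cov.CovD where
  P := 3
  N := 5
  pl := [0, 1, 6, 9]
  lev := [⟨[], [], [], [2, 4], [(2, 0, [])]⟩,
    ⟨[], [(0, 0)], [(0, 0)], [2], [(2, 0, []), (3, 0, [])]⟩,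
    ⟨[(0, 1)], [(0, 0), (1, 0), (1, 1)], [(0, 1)], [], [(2, 0, []), (4, 1, [3, 6])]⟩,
    ⟨[(0, 1), (1, 2)], [(1, 0), (1, 1), (1, 3), (2, 0), (2, 1), (2, 3)], [(1, 1), (1, 3)],
      [5], [(4, 1, [3, 6]), (5, 1, [3, 6]), (7, 3, [1])]⟩,
    ⟨[(1, 3), (2, 3)], [(3, 1), (3, 3), (3, 6)], [(3, 6)], [5], [(7, 3, [1]), (8, 6, [1])]⟩,
    ⟨[(0, 1), (1, 2), (1, 3), (2, 3), (3, 4)], [(1, 0), (1, 3), (3, 0), (3, 1), (3, 3), (4,
      3)], [(0, 3)], [], [(3, 0, []), (7, 3, [1])]⟩,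
    ⟨[(1, 3), (2, 3), (3, 4), (3, 5)], [(2, 1), (3, 1), (3, 3)], [(1, 1)], [4, 7], [(4, 1,
      [3, 6]), (5, 1, [3, 6])]⟩]
  Ta := [((2, 1), 0, 4), ((2, 4), 0, 1), ((3, 0), 0, 2), ((3, 7), 0, 3), ((4, 2), 1, 0), ((4, 9),
    1, 7), ((5, 1), 1, 4), ((5, 6), 1, 5)]
  Tb := [((0, 1, 3), 2, 4, 0), ((1, 0, 2), 4, 2, 0), ((1, 0, 5), 4, 2, 1), ((1, 0, 9), 4, 2, 7),
    ((1, 2, 5), 4, 0, 1), ((1, 2, 9), 4, 0, 7), ((1, 5, 9), 4, 1, 7), ((2, 1, 4), 0, 4, 1),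
    ((3, 0, 7), 0, 2, 3), ((4, 2, 9), 1, 0, 7), ((5, 1, 6), 1, 4, 5), ((6, 5, 8), 5, 1, 6),
    ((7, 3, 8), 3, 0, 6), ((8, 6, 7), 6, 5, 3), ((9, 1, 4), 7, 4, 1)]
  Tc := [(1, 3, 6)]
  Td := [((1, 3), (4, 2), 0), ((1, 3), (4, 9), 7), ((1, 3), (5, 1), 4), ((1, 3), (5, 6), 5), ((1,
    6), (4, 2), 0), ((1, 6), (4, 9), 7), ((1, 6), (5, 1), 4), ((1, 6), (5, 6), 5), ((3, 1),
    (7, 3), 0), ((3, 1), (7, 8), 6), ((6, 1), (8, 6), 5), ((6, 1), (8, 7), 3)]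
  G := [[0, 0xa11a11aa11464611486114231a8cc, 0, 0x91292259128c451252255128c8c,
    0xd12d2258d1284a2], [0, 0, 0, 0x92949282f149112391113c2c51113485818358525242f92cc,
    0xc12912c22d42511239251117d84452c2fd28a], [0, 0, 0x8228129462cd625858281aa,
    0x94624858a2cda294c1, 0x9462458a2cda29c21], [0, 0,
    0x5221522522c38529218b82d292c2f9449c1434166, 0x8292d212f8242d2c2f58524858a18f82c1,
    0x84921c6946f45244588e12f88c4d2c8f9c21]]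

noncomputable def n2130 : Ent := ⟨e2130, noF, [], [], []⟩

def c2130 : PLift (Cov.check n2130.C.D v2130 = true) := ⟨by decide +kernel⟩

def b2130 : PLift (entF (fidx ts) 400 2130 n2130 = true) := ⟨by decide +kernel⟩

theorem g2130 : GoodF (fidx ts) 400 2130 := GoodF.ofV v2130 n2130 c2130.down b2130.down

/-- 4749445:1819/3 -/
noncomputable def e2131 : SCfg where
  D := {
    a := 7
    L := 10
    kp := 7
    inn := [(0, 1), (1, 0), (1, 2), (1, 3), (1, 5), (2, 1), (2, 3), (3, 1), (3, 2), (3, 4), (3, 5), (3,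
      6), (4, 3), (5, 1), (5, 3), (6, 3)]
    mix := [(0, 0), (0, 1), (0, 2), (1, 0), (1, 2), (1, 3), (2, 2), (2, 4), (3, 4), (3, 5), (3, 6), (3,
      7), (4, 1), (4, 6), (4, 7), (5, 3), (5, 7), (6, 4), (6, 5), (6, 8), (6, 9)]
    cl := [3, 2, 1, 4, 0, 0, 5, 0, 6, 7]
    chq := [(0, 3), (1, 3), (3, 0), (3, 1)]
    rng := [(0, 1), (0, 3), (1, 0), (1, 2), (1, 6), (1, 7), (2, 1), (2, 4), (3, 0), (3, 7), (4, 2), (4,
      8), (5, 6), (5, 9), (6, 1), (6, 5), (7, 1), (7, 3), (8, 4), (8, 9), (9, 5), (9, 8)]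
    lev := [] }
  links := [[1, 7, 8, 9], [7, 0, 9, 2, 3, 5, 10], [3, 1, 9, 11], [5, 1, 2, 11, 6, 12, 13, 4, 14], [14, 3,
    13, 8], [10, 1, 3, 14], [12, 3, 11, 15, 16]]
  P := {
    a := 7
    N := 17
    nb := [898, 1709, 2570, 30838, 24840, 17418, 104456, 1283, 25233, 2311, 16546, 33356, 73800, 4376,
      1336, 67648, 36928]
    tri := [(0, 1, 7), (0, 1, 9), (0, 7, 8), (0, 8, 9), (1, 2, 3), (1, 2, 9), (1, 3, 5), (1, 5, 10),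
      (1, 7, 10), (2, 3, 11), (2, 9, 11), (3, 4, 13), (3, 4, 14), (3, 5, 14), (3, 6, 11), (3, 6,
      12), (3, 12, 13), (4, 8, 13), (4, 8, 14), (5, 10, 14), (6, 11, 15), (6, 12, 16), (6, 15,
      16)]
    fin := [0, 0, 0, 3, 4, 0, 3, 0, 4, 9, 10, 3, 3, 13, 3, 15, 16]
    chd := [(0, 3), (0, 9)]
    steps := [(0, 1), (0, 2), (0, 5), (0, 7), (3, 6), (3, 11), (3, 12), (3, 14), (4, 8)] }
  rep := [3, 9, 4, 0, 10, 13, 15, 16]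

noncomputable def v2131 : Cov.CovD where
  P := 3
  N := 5
  pl := [1, 3, 6, 8, 9]
  lev := [⟨[], [], [(1, 3)], [2], [(0, 3, [0, 1]), (2, 1, [3])]⟩,
    ⟨[], [(0, 1), (0, 3)], [(1, 3)], [4], [(0, 3, [0, 1]), (2, 1, [3])]⟩,
    ⟨[(0, 1)], [(0, 1), (1, 0), (1, 1), (1, 3)], [(0, 1)], [], [(2, 1, [3]), (4, 0, [3])]⟩,
    ⟨[(0, 1), (1, 2)], [(1, 0), (1, 1), (1, 3), (2, 0), (2, 1)], [(0, 0)], [5], [(4, 0,
      [3]), (5, 0, [3]), (7, 0, [3])]⟩,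
    ⟨[(1, 3), (2, 3)], [(3, 0)], [], [2, 5], [(7, 0, [3])]⟩,
    ⟨[(0, 1), (1, 2), (1, 3), (2, 3), (3, 4)], [(1, 0), (1, 1), (1, 3), (3, 0), (4, 0)],
      [], [4], [(7, 0, [3])]⟩,
    ⟨[(1, 3), (2, 3), (3, 4), (3, 5)], [(2, 0), (3, 0)], [(0, 0)], [6, 7], [(4, 0, [3]),
      (5, 0, [3])]⟩]
  Ta := [((4, 2), 0, 1), ((4, 8), 0, 6), ((5, 6), 0, 5), ((5, 9), 0, 7), ((7, 1), 0, 2), ((7, 3),
    0, 4)]
  Tb := [((0, 1, 3), 3, 2, 4), ((1, 0, 2), 2, 3, 1), ((1, 0, 6), 2, 3, 5), ((1, 0, 7), 2, 3, 0),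
    ((1, 2, 6), 2, 1, 5), ((1, 2, 7), 2, 1, 0), ((1, 6, 7), 2, 5, 0), ((2, 1, 4), 1, 2, 0),
    ((3, 0, 7), 4, 3, 0), ((4, 2, 8), 0, 1, 6), ((5, 6, 9), 0, 5, 7), ((6, 1, 5), 5, 2, 0),
    ((7, 1, 3), 0, 2, 4), ((8, 4, 9), 6, 0, 7), ((9, 5, 8), 7, 0, 6)]
  Tc := [(3, 0, 1)]
  Td := [((0, 3), (4, 2), 1), ((0, 3), (4, 8), 6), ((0, 3), (5, 6), 5), ((0, 3), (5, 9), 7), ((0,
    3), (7, 1), 2), ((0, 3), (7, 3), 4), ((1, 3), (2, 1), 2), ((1, 3), (2, 4), 0), ((3, 0),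
    (0, 1), 2), ((3, 0), (0, 3), 4), ((3, 1), (0, 1), 2), ((3, 1), (0, 3), 4)]
  G := [[0, 0xe141c241a1c46e21a21414e4a21426181c81c1caae21a21481e46c, 0, 0xeec12412ece12815,
    0x621eac18c61e8164188caa1aca16859], [0, 0, 0, 0xe8124e4128a6c6acc2d24d1,
    0x441ae61e81e81a412166688aa1ccc2e459], [0, 0, 0x666886c26cc8c6a41aaa4ccc2666688c1c,
    0xe8e8c24e4e4c2822ceeecc28d1, 0x221e828ac82e188a22a4648c42a9628822aaac4c2e4d1]]

noncomputable def n2131 : Ent := ⟨e2131, noF, [], [], []⟩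

def c2131 : PLift (Cov.check n2131.C.D v2131 = true) := ⟨by decide +kernel⟩

def b2131 : PLift (entF (fidx ts) 400 2131 n2131 = true) := ⟨by decide +kernel⟩

theorem g2131 : GoodF (fidx ts) 400 2131 := GoodF.ofV v2131 n2131 c2131.down b2131.down

/-- 4749445:1819 -/
noncomputable def e2132 : SCfg where
  D := {
    a := 7
    L := 11
    kp := 8
    inn := [(0, 1), (1, 0), (1, 2), (1, 3), (1, 5), (2, 1), (2, 3), (3, 1), (3, 2), (3, 4), (3, 5), (3,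
      6), (4, 3), (5, 1), (5, 3), (6, 3)]
    mix := [(0, 0), (0, 1), (0, 2), (1, 0), (1, 2), (1, 3), (2, 2), (2, 4), (3, 4), (3, 5), (3, 6), (3,
      7), (4, 6), (4, 7), (4, 8), (5, 3), (5, 7), (6, 4), (6, 5), (6, 9), (6, 10)]
    cl := [4, 5, 1, 3, 0, 0, 2, 0, 6, 7, 8]
    chq := [(1, 3), (3, 1), (3, 5), (5, 3)]
    rng := [(0, 1), (0, 3), (1, 0), (1, 2), (2, 1), (2, 4), (3, 0), (3, 7), (4, 2), (4, 9), (5, 6), (5,
      10), (6, 5), (6, 8), (7, 3), (7, 8), (8, 6), (8, 7), (9, 4), (9, 10), (10, 5), (10, 9)]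
    lev := [] }
  links := [[1, 7, 8, 9], [7, 0, 9, 2, 3, 5, 10], [3, 1, 9, 11], [5, 1, 2, 11, 6, 12, 13, 4, 14], [14, 3,
    13, 15], [10, 1, 3, 14], [12, 3, 11, 16, 17]]
  P := {
    a := 7
    N := 18
    nb := [898, 1709, 2570, 30838, 57352, 17418, 202760, 1283, 641, 2311, 16546, 66124, 139336, 36888,
      33848, 24592, 133184, 69696]
    tri := [(0, 1, 7), (0, 1, 9), (0, 7, 8), (0, 8, 9), (1, 2, 3), (1, 2, 9), (1, 3, 5), (1, 5, 10),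
      (1, 7, 10), (2, 3, 11), (2, 9, 11), (3, 4, 13), (3, 4, 14), (3, 5, 14), (3, 6, 11), (3, 6,
      12), (3, 12, 13), (4, 13, 15), (4, 14, 15), (5, 10, 14), (6, 11, 16), (6, 12, 17), (6, 16,
      17)]
    fin := [0, 1, 2, 3, 3, 3, 3, 7, 0, 2, 1, 3, 3, 13, 3, 15, 16, 17]
    chd := [(0, 1), (2, 1)]
    steps := [(0, 8), (1, 10), (2, 9), (3, 4), (3, 5), (3, 6), (3, 11), (3, 12), (3, 14)] }
  rep := [3, 2, 13, 1, 7, 0, 15, 16, 17]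

noncomputable def v2132 : Cov.CovD where
  P := 3
  N := 6
  pl := [0, 6, 8, 9, 10]
  lev := [⟨[], [], [(1, 5)], [4], [(1, 5, [3]), (2, 1, [3])]⟩,
    ⟨[], [(0, 1), (0, 3), (0, 5)], [(1, 3)], [4], [(2, 1, [3]), (3, 3, [1, 5])]⟩,
    ⟨[(0, 1)], [(0, 1), (1, 0), (1, 1), (1, 3)], [(0, 1)], [], [(2, 1, [3]), (4, 0, [])]⟩,
    ⟨[(0, 1), (1, 2)], [(1, 0), (1, 1), (1, 3), (2, 0), (2, 1)], [(0, 0)], [2], [(4, 0,
      []), (5, 0, []), (7, 0, [])]⟩,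
    ⟨[(1, 3), (2, 3)], [(3, 0)], [], [2, 6], [(7, 0, [])]⟩,
    ⟨[(0, 1), (1, 2), (1, 3), (2, 3), (3, 4)], [(1, 0), (1, 1), (1, 3), (3, 0), (3, 3), (4,
      0)], [(0, 3)], [], [(3, 3, [1, 5]), (7, 0, [])]⟩,
    ⟨[(1, 3), (2, 3), (3, 4), (3, 5)], [(2, 0), (3, 0)], [(0, 0)], [7, 8], [(4, 0, []), (5,
      0, [])]⟩]
  Ta := [((4, 2), 0, 1), ((4, 9), 0, 7), ((5, 6), 0, 2), ((5, 10), 0, 8), ((7, 3), 0, 3), ((7,
    8), 0, 6)]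
  Tb := [((0, 1, 3), 4, 5, 3), ((1, 0, 2), 5, 4, 1), ((2, 1, 4), 1, 5, 0), ((3, 0, 7), 3, 4, 0),
    ((4, 2, 9), 0, 1, 7), ((5, 6, 10), 0, 2, 8), ((6, 5, 8), 2, 0, 6), ((7, 3, 8), 0, 3, 6),
    ((8, 6, 7), 6, 2, 0), ((9, 4, 10), 7, 0, 8), ((10, 5, 9), 8, 0, 7)]
  Tc := [(3, 1, 5)]
  Td := [((1, 3), (2, 1), 5), ((1, 3), (2, 4), 0), ((3, 1), (3, 0), 4), ((3, 1), (3, 7), 0), ((3,
    5), (3, 0), 4), ((3, 5), (3, 7), 0), ((5, 3), (1, 0), 4), ((5, 3), (1, 2), 1)]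
  G := [[0, 0xe4182621821c86e8142e2148ae8142e4182ce, 0, 0xe2184e21845421a21c4e21849e21481d,
    0xe218462188218c5e8124e21849e21841d], [0, 0,
    0xe1e1c216282e2e845a12c861c64e2e2684942e2aa28c41d, 0xe2184e21845421a21c4e21849e21841d,
    0xe2184e21845e8124e21849e21841d], [0, 0, 0,
    0xa28442e2c8c424e2a2cc85624e282cc1424e2a2cc89424e2a2cc162e2c828c1cd,
    0x222e4c4aa8e226ace8a45222e8c8aa162e2a81282e8cc8aa4d622e888aa462e2a848a1cd]]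

noncomputable def n2132 : Ent := ⟨e2132, noF, [], [], [(8, 16, [7334685537875745012586738086077695515070955365108989538292687702396929, 0]), (8, 17, [6903326391201334775872065844685381424292761054348340378595029938413569, 0]), (8, 15, [7334790850167413569773436004105379185503274260204390087403942013382657, 0])]⟩

def c2132 : PLift (Cov.check n2132.C.D v2132 = true) := ⟨by decide +kernel⟩

def b2132 : PLift (entF (fidx ts) 400 2132 n2132 = true) := ⟨by decide +kernel⟩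

theorem g2132 : GoodF (fidx ts) 400 2132 := GoodF.ofV v2132 n2132 c2132.down b2132.down

/-- 4749455:1822/1 -/
noncomputable def e2133 : SCfg where
  D := {
    a := 7
    L := 10
    kp := 7
    inn := [(0, 1), (1, 0), (1, 2), (1, 3), (1, 5), (2, 1), (2, 3), (3, 1), (3, 2), (3, 4), (3, 5), (3,
      6), (4, 3), (4, 6), (5, 1), (5, 3), (6, 3), (6, 4)]
    mix := [(0, 0), (0, 1), (0, 2), (1, 0), (1, 2), (1, 3), (2, 2), (2, 4), (3, 4), (3, 5), (3, 6), (3,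
      7), (4, 7), (4, 8), (5, 3), (5, 7), (5, 9), (6, 1), (6, 6), (6, 8)]
    cl := [2, 3, 0, 0, 4, 6, 1, 1, 5, 7]
    chq := [(0, 1), (0, 6), (1, 0), (6, 0)]
    rng := [(0, 1), (0, 3), (1, 0), (1, 2), (1, 6), (1, 8), (2, 1), (2, 4), (3, 0), (3, 9), (4, 2), (4,
      5), (5, 4), (5, 6), (6, 1), (6, 5), (7, 8), (7, 9), (8, 1), (8, 7), (9, 3), (9, 7)]
    lev := [] }
  links := [[1, 7, 8, 9], [7, 0, 9, 2, 3, 5, 10], [3, 1, 9, 11], [5, 1, 2, 11, 12, 13, 6, 4, 14], [14, 3,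
    6, 15], [10, 1, 3, 14, 16], [15, 4, 3, 13, 8]]
  P := {
    a := 7
    N := 17
    nb := [898, 1709, 2570, 30838, 49224, 82954, 41240, 1283, 41665, 2311, 65698, 4620, 10248, 4424,
      98360, 16720, 17440]
    tri := [(0, 1, 7), (0, 1, 9), (0, 7, 8), (0, 8, 9), (1, 2, 3), (1, 2, 9), (1, 3, 5), (1, 5, 10),
      (1, 7, 10), (2, 3, 11), (2, 9, 11), (3, 4, 6), (3, 4, 14), (3, 5, 14), (3, 6, 13), (3, 11,
      12), (3, 12, 13), (4, 6, 15), (4, 14, 15), (5, 10, 16), (5, 14, 16), (6, 8, 13), (6, 8, 15)]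
    fin := [0, 0, 2, 2, 4, 2, 4, 0, 8, 2, 2, 11, 12, 4, 4, 15, 16]
    chd := [(2, 4), (2, 12)]
    steps := [(0, 1), (0, 7), (2, 3), (2, 5), (2, 9), (2, 10), (4, 6), (4, 13), (4, 14)] }
  rep := [2, 4, 0, 8, 11, 15, 12, 16]

noncomputable def v2133 : Cov.CovD where
  P := 3
  N := 5
  pl := [0, 1, 4, 8, 9]
  lev := [⟨[], [], [], [2, 3], [(2, 0, [1, 6])]⟩,
    ⟨[], [(0, 0)], [(0, 0)], [2], [(2, 0, [1, 6]), (3, 0, [1, 6])]⟩,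
    ⟨[(0, 1)], [(0, 0), (1, 0)], [], [4], [(2, 0, [1, 6])]⟩,
    ⟨[(0, 1), (1, 2)], [(1, 0), (1, 1), (1, 6), (2, 0), (2, 1), (2, 6)], [(1, 1), (1, 6)],
      [4], [(5, 6, [0]), (6, 1, [0]), (7, 1, [0])]⟩,
    ⟨[(1, 3), (2, 3)], [(3, 1), (3, 6)], [], [5], [(7, 1, [0])]⟩,
    ⟨[(0, 1), (1, 2), (1, 3), (2, 3), (3, 4)], [(1, 0), (1, 1), (3, 0), (3, 1), (3, 6), (4,
      1)], [(0, 1)], [7], [(3, 0, [1, 6]), (7, 1, [0])]⟩,
    ⟨[(1, 3), (2, 3), (3, 4), (3, 5)], [(3, 1), (3, 6), (4, 1)], [], [3, 5], [(6, 1, [0])]⟩]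
  Ta := [((2, 1), 0, 3), ((2, 4), 0, 4), ((3, 0), 0, 2), ((3, 9), 0, 7), ((6, 1), 1, 3), ((6, 5),
    1, 6), ((7, 8), 1, 5), ((7, 9), 1, 7)]
  Tb := [((0, 1, 3), 2, 3, 0), ((1, 0, 2), 3, 2, 0), ((1, 0, 6), 3, 2, 1), ((1, 0, 8), 3, 2, 5),
    ((1, 2, 6), 3, 0, 1), ((1, 2, 8), 3, 0, 5), ((1, 6, 8), 3, 1, 5), ((2, 1, 4), 0, 3, 4),
    ((3, 0, 9), 0, 2, 7), ((4, 2, 5), 4, 0, 6), ((5, 4, 6), 6, 4, 1), ((6, 1, 5), 1, 3, 6),
    ((7, 8, 9), 1, 5, 7), ((8, 1, 7), 5, 3, 1), ((9, 3, 7), 7, 0, 1)]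
  Tc := [(0, 1, 6)]
  Td := [((0, 1), (2, 1), 3), ((0, 1), (2, 4), 4), ((0, 1), (3, 0), 2), ((0, 1), (3, 9), 7), ((0,
    6), (2, 1), 3), ((0, 6), (2, 4), 4), ((0, 6), (3, 0), 2), ((0, 6), (3, 9), 7), ((1, 0),
    (6, 1), 3), ((1, 0), (6, 5), 6), ((1, 0), (7, 8), 5), ((1, 0), (7, 9), 7), ((6, 0), (5,
    4), 4), ((6, 0), (5, 6), 1)]
  G := [[0, 0x11a11aa441161166811c11cc2ac1, 0, 0x91248212c1611288128cc41241124c51281242c1acc,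
    0x8252c12c1281113c4a524291241115412c1114caa], [0, 0x11a11aa441161166811c11cc2ac1, 0,
    0x812194421315888c22c91ac4111521119c22c44cc168c, 0x2111522c55cc921119b6c2ac55c22], [0,
    0x11a11aa441161166811c11cc2ac1, 0x8212c18212c1c41242c11242c1a4c, 0x121c2859252c1612188c1,
    0x1219252c5111ddc29681], [0, 0x11a11aa411c11cc26116116688c1, 0x11c22cc121c12cc1c22,
    0x11112c21cc96eca2cc1a41, 0x111821ce2cc12ec11cc1e21]]

noncomputable def n2133 : Ent := ⟨e2133, noF, [], [], []⟩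

def c2133 : PLift (Cov.check n2133.C.D v2133 = true) := ⟨by decide +kernel⟩

def b2133 : PLift (entF (fidx ts) 400 2133 n2133 = true) := ⟨by decide +kernel⟩

theorem g2133 : GoodF (fidx ts) 400 2133 := GoodF.ofV v2133 n2133 c2133.down b2133.down

/-- 4749455:1822/2 -/
noncomputable def e2134 : SCfg where
  D := {
    a := 7
    L := 10
    kp := 7
    inn := [(0, 1), (1, 0), (1, 2), (1, 3), (1, 5), (2, 1), (2, 3), (3, 1), (3, 2), (3, 4), (3, 5), (3,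
      6), (4, 3), (4, 6), (5, 1), (5, 3), (6, 3), (6, 4)]
    mix := [(0, 0), (0, 1), (0, 2), (1, 0), (1, 2), (1, 3), (2, 2), (2, 4), (3, 4), (3, 5), (3, 6), (3,
      7), (4, 1), (4, 7), (5, 3), (5, 7), (5, 8), (6, 1), (6, 6), (6, 9)]
    cl := [2, 1, 0, 0, 4, 5, 3, 3, 6, 7]
    chq := [(0, 3), (0, 5), (3, 0), (5, 0)]
    rng := [(0, 1), (0, 3), (1, 0), (1, 2), (1, 7), (1, 9), (2, 1), (2, 4), (3, 0), (3, 8), (4, 2), (4,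
      5), (5, 4), (5, 6), (6, 5), (6, 9), (7, 1), (7, 8), (8, 3), (8, 7), (9, 1), (9, 6)]
    lev := [] }
  links := [[1, 7, 8, 9], [7, 0, 9, 2, 3, 5, 10], [3, 1, 9, 11], [5, 1, 2, 11, 12, 13, 6, 4, 14], [14, 3,
    6, 8], [10, 1, 3, 14, 15], [8, 4, 3, 13, 16]]
  P := {
    a := 7
    N := 17
    nb := [898, 1709, 2570, 30838, 16712, 50186, 74008, 1283, 82641, 2311, 32930, 4620, 10248, 69704,
      33080, 17440, 8512]
    tri := [(0, 1, 7), (0, 1, 9), (0, 7, 8), (0, 8, 9), (1, 2, 3), (1, 2, 9), (1, 3, 5), (1, 5, 10),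
      (1, 7, 10), (2, 3, 11), (2, 9, 11), (3, 4, 6), (3, 4, 14), (3, 5, 14), (3, 6, 13), (3, 11,
      12), (3, 12, 13), (4, 6, 8), (4, 8, 14), (5, 10, 15), (5, 14, 15), (6, 8, 16), (6, 13, 16)]
    fin := [0, 0, 2, 2, 4, 2, 4, 0, 8, 2, 2, 11, 12, 4, 4, 15, 16]
    chd := [(2, 4), (2, 12)]
    steps := [(0, 1), (0, 7), (2, 3), (2, 5), (2, 9), (2, 10), (4, 6), (4, 13), (4, 14)] }
  rep := [2, 8, 0, 4, 11, 12, 15, 16]

noncomputable def v2134 : Cov.CovD where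
  P := 3
  N := 5
  pl := [0, 1, 4, 8, 9]
  lev := [⟨[], [], [], [1, 2], [(2, 0, [3, 5])]⟩,
    ⟨[], [(0, 0)], [(0, 0)], [2], [(2, 0, [3, 5]), (3, 0, [3, 5])]⟩,
    ⟨[(0, 1)], [(0, 0), (1, 0)], [], [4], [(2, 0, [3, 5])]⟩,
    ⟨[(0, 1), (1, 2)], [(1, 0), (1, 3), (1, 5), (2, 0), (2, 3), (2, 5)], [(3, 3), (3, 5)],
      [4], [(5, 5, [0]), (6, 3, [0]), (7, 3, [0])]⟩,
    ⟨[(1, 3), (2, 3)], [(3, 3), (3, 5)], [], [1], [(7, 3, [0])]⟩,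
    ⟨[(0, 1), (1, 2), (1, 3), (2, 3), (3, 4)], [(1, 0), (1, 3), (3, 0), (3, 3), (3, 5), (4,
      3)], [(0, 3)], [6], [(3, 0, [3, 5]), (7, 3, [0])]⟩,
    ⟨[(1, 3), (2, 3), (3, 4), (3, 5)], [(3, 3), (3, 5), (4, 3)], [], [1, 7], [(6, 3, [0])]⟩]
  Ta := [((2, 1), 0, 1), ((2, 4), 0, 4), ((3, 0), 0, 2), ((3, 8), 0, 6), ((6, 5), 3, 5), ((6, 9),
    3, 7), ((7, 1), 3, 1), ((7, 8), 3, 6)]
  Tb := [((0, 1, 3), 2, 1, 0), ((1, 0, 2), 1, 2, 0), ((1, 0, 7), 1, 2, 3), ((1, 0, 9), 1, 2, 7),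
    ((1, 2, 7), 1, 0, 3), ((1, 2, 9), 1, 0, 7), ((1, 7, 9), 1, 3, 7), ((2, 1, 4), 0, 1, 4),
    ((3, 0, 8), 0, 2, 6), ((4, 2, 5), 4, 0, 5), ((5, 4, 6), 5, 4, 3), ((6, 5, 9), 3, 5, 7),
    ((7, 1, 8), 3, 1, 6), ((8, 3, 7), 6, 0, 3), ((9, 1, 6), 7, 1, 3)]
  Tc := [(0, 3, 5)]
  Td := [((0, 3), (2, 1), 1), ((0, 3), (2, 4), 4), ((0, 3), (3, 0), 2), ((0, 3), (3, 8), 6), ((0,
    5), (2, 1), 1), ((0, 5), (2, 4), 4), ((0, 5), (3, 0), 2), ((0, 5), (3, 8), 6), ((3, 0),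
    (6, 5), 5), ((3, 0), (6, 9), 7), ((3, 0), (7, 1), 1), ((3, 0), (7, 8), 6), ((5, 0), (5,
    4), 4), ((5, 0), (5, 6), 3)]
  G := [[0, 0xee68186ee81684, 0, 0x114111b8d568d4111c5d85568711648781182c4,
    0x418d116116423111745849111b894858148ea8], [0, 0x68a4c2e1c864a2e1684, 0,
    0x844111a81944a8511cc1521448f1241582198c4, 0x9114cc5126116515cc8e4911a8cc4e851882da8],
    [0, 0, 0xd5681d5681c24, 0x111741168c1d9a41d9a4111a42bc4, 0x5841d468112d4911a49418ced28],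
    [0, 0, 0xccce11ccce11c28, 0x141284d418864144a1148ce148ce1adc8,
    0x11a8c4ac86c511c4c4ac86c36116488a1]]

noncomputable def n2134 : Ent := ⟨e2134, noF, [], [], []⟩

def c2134 : PLift (Cov.check n2134.C.D v2134 = true) := ⟨by decide +kernel⟩

def b2134 : PLift (entF (fidx ts) 400 2134 n2134 = true) := ⟨by decide +kernel⟩

theorem g2134 : GoodF (fidx ts) 400 2134 := GoodF.ofV v2134 n2134 c2134.down b2134.down

/-- 4749455:1822 -/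
noncomputable def e2135 : SCfg where
  D := {
    a := 7
    L := 11
    kp := 8
    inn := [(0, 1), (1, 0), (1, 2), (1, 3), (1, 5), (2, 1), (2, 3), (3, 1), (3, 2), (3, 4), (3, 5), (3,
      6), (4, 3), (4, 6), (5, 1), (5, 3), (6, 3), (6, 4)]
    mix := [(0, 0), (0, 1), (0, 2), (1, 0), (1, 2), (1, 3), (2, 2), (2, 4), (3, 4), (3, 5), (3, 6), (3,
      7), (4, 7), (4, 8), (5, 3), (5, 7), (5, 9), (6, 6), (6, 8), (6, 10)]
    cl := [2, 6, 0, 0, 3, 5, 1, 1, 4, 7, 8]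
    chq := [(0, 1), (0, 5), (1, 0), (5, 0)]
    rng := [(0, 1), (0, 3), (1, 0), (1, 2), (2, 1), (2, 4), (3, 0), (3, 9), (4, 2), (4, 5), (5, 4), (5,
      6), (6, 5), (6, 10), (7, 8), (7, 9), (8, 7), (8, 10), (9, 3), (9, 7), (10, 6), (10, 8)]
    lev := [] }
  links := [[1, 7, 8, 9], [7, 0, 9, 2, 3, 5, 10], [3, 1, 9, 11], [5, 1, 2, 11, 12, 13, 6, 4, 14], [14, 3,
    6, 15], [10, 1, 3, 14, 16], [15, 4, 3, 13, 17]]
  P := {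
    a := 7
    N := 18
    nb := [898, 1709, 2570, 30838, 49224, 82954, 172056, 1283, 641, 2311, 65698, 4620, 10248, 135240,
      98360, 147536, 17440, 41024]
    tri := [(0, 1, 7), (0, 1, 9), (0, 7, 8), (0, 8, 9), (1, 2, 3), (1, 2, 9), (1, 3, 5), (1, 5, 10),
      (1, 7, 10), (2, 3, 11), (2, 9, 11), (3, 4, 6), (3, 4, 14), (3, 5, 14), (3, 6, 13), (3, 11,
      12), (3, 12, 13), (4, 6, 15), (4, 14, 15), (5, 10, 16), (5, 14, 16), (6, 13, 17), (6, 15,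
      17)]
    fin := [0, 0, 2, 2, 4, 2, 4, 0, 8, 2, 2, 11, 12, 4, 4, 15, 16, 17]
    chd := [(2, 4), (2, 12)]
    steps := [(0, 1), (0, 7), (2, 3), (2, 5), (2, 9), (2, 10), (4, 6), (4, 13), (4, 14)] }
  rep := [2, 4, 0, 11, 15, 12, 8, 16, 17]

noncomputable def v2135 : Cov.CovD where
  P := 3
  N := 6
  pl := [0, 1, 4, 8, 9, 10]
  lev := [⟨[], [], [], [2, 6], [(2, 0, [1, 5])]⟩,
    ⟨[], [(0, 0)], [(0, 0)], [2], [(2, 0, [1, 5]), (3, 0, [1, 5])]⟩,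
    ⟨[(0, 1)], [(0, 0), (1, 0)], [], [3], [(2, 0, [1, 5])]⟩,
    ⟨[(0, 1), (1, 2)], [(1, 0), (1, 1), (1, 5), (2, 0), (2, 1), (2, 5)], [(1, 1), (1, 5)],
      [3], [(5, 5, [0]), (6, 1, [0]), (7, 1, [0])]⟩,
    ⟨[(1, 3), (2, 3)], [(3, 1), (3, 5)], [], [4], [(7, 1, [0])]⟩,
    ⟨[(0, 1), (1, 2), (1, 3), (2, 3), (3, 4)], [(1, 0), (1, 1), (3, 0), (3, 1), (3, 5), (4,
      1)], [(0, 1)], [7], [(3, 0, [1, 5]), (7, 1, [0])]⟩,
    ⟨[(1, 3), (2, 3), (3, 4), (3, 5)], [(3, 1), (3, 5), (4, 1)], [], [4, 8], [(6, 1, [0])]⟩]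
  Ta := [((2, 1), 0, 6), ((2, 4), 0, 3), ((3, 0), 0, 2), ((3, 9), 0, 7), ((6, 5), 1, 5), ((6,
    10), 1, 8), ((7, 8), 1, 4), ((7, 9), 1, 7)]
  Tb := [((0, 1, 3), 2, 6, 0), ((1, 0, 2), 6, 2, 0), ((2, 1, 4), 0, 6, 3), ((3, 0, 9), 0, 2, 7),
    ((4, 2, 5), 3, 0, 5), ((5, 4, 6), 5, 3, 1), ((6, 5, 10), 1, 5, 8), ((7, 8, 9), 1, 4, 7),
    ((8, 7, 10), 4, 1, 8), ((9, 3, 7), 7, 0, 1), ((10, 6, 8), 8, 1, 4)]
  Tc := [(0, 1, 5)]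
  Td := [((0, 1), (2, 1), 6), ((0, 1), (2, 4), 3), ((0, 1), (3, 0), 2), ((0, 1), (3, 9), 7), ((0,
    5), (2, 1), 6), ((0, 5), (2, 4), 3), ((0, 5), (3, 0), 2), ((0, 5), (3, 9), 7), ((1, 0),
    (6, 5), 5), ((1, 0), (6, 10), 8), ((1, 0), (7, 8), 4), ((1, 0), (7, 9), 7), ((5, 0), (5,
    4), 3), ((5, 0), (5, 6), 1)]
  G := [[0, 0x11a11aa441161166811c11cc2ac1, 0,
    0x8111944124642125881242499252c1ec41249129252c59252c1ed1282cc,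
    0x91249252c16512412c8128ca12149252c16512c12c8128caa], [0, 0x11a11aa411c11cc26116116688c1,
    0, 0x7121531a19caac66cc1a421b19492c25cc162171588cc,
    0x712158a131949ac23cc1e221715b1219c22ceecc168a], [0, 0x11a11aa441161166811c11cc2ac1,
    0x9252c1849252c1489252c124e, 0x9252c112141119252c9e81, 0x121ddc251129252c9681], [0,
    0x11a11aa441161166811c11cc2ac1, 0x92c25cc122bcc22c5142acc62c5182e, 0x2ace6cc1eac26cc1a41,
    0x62caecc1aac66cc1a21]]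

noncomputable def n2135 : Ent := ⟨e2135, noF, [], [], [(8, 17, [6903326391201334775872065844685381424292761054348340378595029938425857, 0]), (8, 15, [7334790850167413569773436004105379185503274260204390087403942013394945, 0])]⟩

def c2135 : PLift (Cov.check n2135.C.D v2135 = true) := ⟨by decide +kernel⟩

def b2135 : PLift (entF (fidx ts) 400 2135 n2135 = true) := ⟨by decide +kernel⟩

theorem g2135 : GoodF (fidx ts) 400 2135 := GoodF.ofV v2135 n2135 c2135.down b2135.down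

/-- 4746764:1823/2 -/
noncomputable def e2136 : SCfg where
  D := {
    a := 7
    L := 9
    kp := 6
    inn := [(0, 1), (1, 0), (1, 2), (1, 3), (2, 1), (2, 3), (2, 5), (3, 1), (3, 2), (3, 4), (3, 5), (4,
      3), (4, 5), (4, 6), (5, 2), (5, 3), (5, 4), (6, 4)]
    mix := [(0, 0), (0, 1), (0, 2), (1, 0), (1, 2), (1, 3), (1, 4), (2, 2), (3, 3), (3, 5), (4, 5), (4,
      6), (4, 7), (4, 8), (5, 1), (5, 2), (5, 6), (6, 0), (6, 6), (6, 7)]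
    cl := [1, 2, 0, 0, 6, 4, 3, 5, 3]
    chq := [(0, 1), (1, 0), (2, 4), (4, 2)]
    rng := [(0, 1), (0, 4), (0, 6), (0, 7), (1, 0), (1, 2), (1, 6), (2, 1), (3, 4), (3, 5), (4, 0), (4,
      3), (5, 3), (5, 8), (6, 0), (6, 1), (7, 0), (7, 8), (8, 5), (8, 7)]
    lev := [] }
  links := [[1, 7, 8, 9], [7, 0, 9, 2, 3, 10, 11], [3, 1, 9, 5], [10, 1, 2, 5, 4, 12], [12, 3, 5, 13, 6,
    14, 15], [13, 4, 3, 2, 9, 8], [14, 4, 13, 7]]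
  P := {
    a := 7
    N := 16
    nb := [898, 3725, 554, 5174, 61544, 8988, 24720, 26947, 8865, 295, 6154, 1154, 33816, 496, 32976,
      20496]
    tri := [(0, 1, 7), (0, 1, 9), (0, 7, 8), (0, 8, 9), (1, 2, 3), (1, 2, 9), (1, 3, 10), (1, 7, 11),
      (1, 10, 11), (2, 3, 5), (2, 5, 9), (3, 4, 5), (3, 4, 12), (3, 10, 12), (4, 5, 13), (4, 6,
      13), (4, 6, 14), (4, 12, 15), (4, 14, 15), (5, 8, 9), (5, 8, 13), (6, 7, 13), (6, 7, 14)]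
    fin := [0, 1, 2, 2, 4, 2, 0, 0, 2, 1, 1, 11, 12, 4, 14, 4]
    chd := [(0, 1), (2, 12)]
    steps := [(0, 7), (0, 6), (1, 9), (1, 10), (2, 3), (2, 5), (2, 8), (4, 13), (4, 15)] }
  rep := [1, 0, 2, 4, 12, 14, 11]

noncomputable def v2136 : Cov.CovD where
  P := 3
  N := 4
  pl := [4, 7]
  lev := [⟨[], [], [(0, 1), (0, 2), (1, 2)], [], [(0, 1, [0]), (1, 2, [4]), (2, 0, [1])]⟩,
    ⟨[], [(0, 0), (0, 1), (0, 2)], [(0, 0), (0, 1)], [6], [(0, 1, [0]), (2, 0, [1]), (3, 0,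
      [1])]⟩,
    ⟨[(0, 1)], [(0, 0), (1, 0), (1, 1)], [], [], [(2, 0, [1])]⟩,
    ⟨[(0, 1), (1, 2)], [(1, 0), (1, 1), (1, 4), (2, 0), (2, 4)], [(0, 4)], [], [(3, 0,
      [1]), (5, 4, [2])]⟩,
    ⟨[(1, 3), (2, 3)], [(3, 0), (3, 3), (3, 4)], [(3, 3), (3, 4)], [5], [(5, 4, [2]), (6,
      3, []), (8, 3, [])]⟩,
    ⟨[(1, 2), (1, 3), (2, 3), (2, 4), (3, 4)], [(0, 0), (0, 2), (1, 0), (2, 0), (2, 2), (2,
      3), (3, 0), (3, 2), (3, 3), (3, 4), (4, 0), (4, 2), (4, 3), (4, 4)], [(0, 2), (0, 3),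
      (2, 3)], [], [(1, 2, [4]), (2, 0, [1]), (6, 3, [])]⟩,
    ⟨[(3, 4), (4, 5)], [(0, 1), (1, 1), (4, 1), (4, 3), (4, 4), (5, 3)], [(1, 3)], [5],
      [(0, 1, [0]), (6, 3, [])]⟩]
  Ta := [((2, 1), 0, 2), ((3, 4), 0, 6), ((3, 5), 0, 4), ((6, 0), 3, 1), ((6, 1), 3, 2), ((8, 5),
    3, 4), ((8, 7), 3, 5)]
  Tb := [((0, 1, 4), 1, 2, 6), ((0, 1, 6), 1, 2, 3), ((0, 1, 7), 1, 2, 5), ((0, 4, 6), 1, 6, 3),
    ((0, 4, 7), 1, 6, 5), ((0, 6, 7), 1, 3, 5), ((1, 0, 2), 2, 1, 0), ((1, 0, 6), 2, 1, 3),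
    ((1, 2, 6), 2, 0, 3), ((3, 4, 5), 0, 6, 4), ((4, 0, 3), 6, 1, 0), ((5, 3, 8), 4, 0, 3),
    ((6, 0, 1), 3, 1, 2), ((7, 0, 8), 5, 1, 3), ((8, 5, 7), 3, 4, 5)]
  Tc := []
  Td := [((0, 1), (2, 1), 2), ((0, 1), (3, 4), 6), ((0, 1), (3, 5), 4), ((1, 0), (0, 1), 2), ((1,
    0), (0, 4), 6), ((1, 0), (0, 6), 3), ((1, 0), (0, 7), 5), ((2, 4), (1, 0), 1), ((2, 4),
    (1, 2), 0), ((2, 4), (1, 6), 3), ((4, 2), (5, 3), 0), ((4, 2), (5, 8), 3)]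
  G := [[0, 0xa6c121a6c121c8, 0x4212584189828484ceb212118148644ac2eb8c4, 0x95c21495c218c4,
    0x8811a38284a44e521211818284ac2eb8c8], [0, 0xa412868121c4,
    0x121481824858e724214912142846d2c8, 0x5821294212c8, 0x825818b48452821825282e98c8], [0,
    0xa6c124a6c128c8, 0, 0xc59224c95228c8, 0x425212718a898c8187e495a526184888ea8211a946c1],
    [0, 0xa412168124c8, 0, 0x9422858224c1, 0x8292c212f4892825812848186acc1]]

noncomputable def n2136 : Ent := ⟨e2136, noF, [], [], []⟩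

def c2136 : PLift (Cov.check n2136.C.D v2136 = true) := ⟨by decide +kernel⟩

def b2136 : PLift (entF (fidx ts) 400 2136 n2136 = true) := ⟨by decide +kernel⟩

theorem g2136 : GoodF (fidx ts) 400 2136 := GoodF.ofV v2136 n2136 c2136.down b2136.down

/-- 4746764:1823/1 -/
noncomputable def e2137 : SCfg where
  D := {
    a := 7
    L := 10
    kp := 7
    inn := [(0, 1), (1, 0), (1, 2), (1, 3), (2, 1), (2, 3), (2, 5), (3, 1), (3, 2), (3, 4), (3, 5), (4,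
      3), (4, 5), (4, 6), (5, 2), (5, 3), (5, 4), (6, 4)]
    mix := [(0, 0), (0, 1), (0, 2), (1, 0), (1, 2), (1, 3), (1, 4), (2, 2), (3, 3), (3, 5), (4, 5), (4,
      6), (4, 7), (4, 8), (5, 2), (5, 6), (5, 9), (6, 0), (6, 6), (6, 7)]
    cl := [1, 6, 0, 0, 7, 2, 3, 4, 3, 5]
    chq := [(0, 1), (1, 0), (2, 5), (5, 2)]
    rng := [(0, 1), (0, 4), (0, 6), (0, 7), (1, 0), (1, 2), (2, 1), (2, 9), (3, 4), (3, 5), (4, 0), (4,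
      3), (5, 3), (5, 8), (6, 0), (6, 9), (7, 0), (7, 8), (8, 5), (8, 7), (9, 2), (9, 6)]
    lev := [] }
  links := [[1, 7, 8, 9], [7, 0, 9, 2, 3, 10, 11], [3, 1, 9, 5], [10, 1, 2, 5, 4, 12], [12, 3, 5, 13, 6,
    14, 15], [13, 4, 3, 2, 9, 16], [14, 4, 13, 7]]
  P := {
    a := 7
    N := 17
    nb := [898, 3725, 554, 5174, 61544, 74268, 24720, 26947, 641, 65831, 6154, 1154, 33816, 65776,
      32976, 20496, 8736]
    tri := [(0, 1, 7), (0, 1, 9), (0, 7, 8), (0, 8, 9), (1, 2, 3), (1, 2, 9), (1, 3, 10), (1, 7, 11),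
      (1, 10, 11), (2, 3, 5), (2, 5, 9), (3, 4, 5), (3, 4, 12), (3, 10, 12), (4, 5, 13), (4, 6,
      13), (4, 6, 14), (4, 12, 15), (4, 14, 15), (5, 9, 16), (5, 13, 16), (6, 7, 13), (6, 7, 14)]
    fin := [0, 1, 1, 3, 4, 3, 0, 0, 8, 1, 1, 11, 12, 4, 14, 4, 3]
    chd := [(0, 1), (12, 3)]
    steps := [(0, 7), (0, 6), (1, 2), (1, 9), (1, 10), (3, 5), (3, 16), (4, 13), (4, 15)] }
  rep := [1, 0, 12, 4, 14, 3, 8, 11]

noncomputable def v2137 : Cov.CovD where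
  P := 3
  N := 5
  pl := [1, 4, 7]
  lev := [⟨[], [], [(0, 1)], [6], [(0, 1, [0]), (2, 0, [1])]⟩,
    ⟨[], [(0, 0), (0, 1)], [(0, 0), (0, 1)], [7], [(0, 1, [0]), (2, 0, [1]), (3, 0, [1])]⟩,
    ⟨[(0, 1)], [(0, 0), (1, 0), (1, 1)], [], [], [(2, 0, [1])]⟩,
    ⟨[(0, 1), (1, 2)], [(1, 0), (1, 1), (1, 2), (2, 0), (2, 2)], [(0, 2)], [], [(3, 0,
      [1]), (5, 2, [5])]⟩,
    ⟨[(1, 3), (2, 3)], [(3, 0), (3, 2), (3, 3)], [(2, 3), (3, 3)], [4], [(5, 2, [5]), (6,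
      3, []), (8, 3, [])]⟩,
    ⟨[(1, 2), (1, 3), (2, 3), (2, 4), (3, 4)], [(0, 0), (1, 0), (2, 0), (2, 3), (2, 5), (3,
      0), (3, 2), (3, 3), (3, 5), (4, 0), (4, 2), (4, 3), (4, 5)], [(0, 3), (0, 5), (3, 5)],
      [], [(2, 0, [1]), (6, 3, []), (9, 5, [2])]⟩,
    ⟨[(3, 4), (4, 5)], [(0, 1), (1, 1), (4, 1), (4, 2), (4, 3), (5, 3)], [(1, 3)], [4],
      [(0, 1, [0]), (6, 3, [])]⟩]
  Ta := [((2, 1), 0, 6), ((2, 9), 0, 5), ((3, 4), 0, 7), ((3, 5), 0, 2), ((6, 0), 3, 1), ((6, 9),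
    3, 5), ((8, 5), 3, 2), ((8, 7), 3, 4)]
  Tb := [((0, 1, 4), 1, 6, 7), ((0, 1, 6), 1, 6, 3), ((0, 1, 7), 1, 6, 4), ((0, 4, 6), 1, 7, 3),
    ((0, 4, 7), 1, 7, 4), ((0, 6, 7), 1, 3, 4), ((1, 0, 2), 6, 1, 0), ((2, 1, 9), 0, 6, 5),
    ((3, 4, 5), 0, 7, 2), ((4, 0, 3), 7, 1, 0), ((5, 3, 8), 2, 0, 3), ((6, 0, 9), 3, 1, 5),
    ((7, 0, 8), 4, 1, 3), ((8, 5, 7), 3, 2, 4), ((9, 2, 6), 5, 0, 3)]
  Tc := []
  Td := [((0, 1), (2, 1), 6), ((0, 1), (2, 9), 5), ((0, 1), (3, 4), 7), ((0, 1), (3, 5), 2), ((1,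
    0), (0, 1), 6), ((1, 0), (0, 4), 7), ((1, 0), (0, 6), 3), ((1, 0), (0, 7), 4), ((2, 5),
    (5, 3), 0), ((2, 5), (5, 8), 3), ((5, 2), (9, 2), 0), ((5, 2), (9, 6), 3)]
  G := [[0, 0xe21844e21418e21412e, 0, 0x1218242c544212582894c42125828944212582898cc,
    0x4418454a3244284149a2c844414b2844c414b82cc], [0, 0xc21842c21418c21414e, 0,
    0x82129424541218242c58c82129424544212582898cc,
    0x84149442325484384898c849414b2814c414b82cc], [0, 0xe21844e21812e21418e,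
    0x811151e42814111e24c5128111ca25128111ca2cc, 0x42125828c442482129c8c1,
    0x845444b28844414b28c1], [0, 0xc21448c21884c21882e, 0x12248a4818ea4116288448c2ac1,
    0x42482129c442125828c8c1, 0x449414b28149414b82c1]]

noncomputable def n2137 : Ent := ⟨e2137, noF, [], [], [(8, 16, [1580044410770988437309982408355971841652082177953823432505697861633, 0])]⟩

def c2137 : PLift (Cov.check n2137.C.D v2137 = true) := ⟨by decide +kernel⟩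

def b2137 : PLift (entF (fidx ts) 400 2137 n2137 = true) := ⟨by decide +kernel⟩

theorem g2137 : GoodF (fidx ts) 400 2137 := GoodF.ofV v2137 n2137 c2137.down b2137.down

/-- 4746764:1823/4 -/
noncomputable def e2138 : SCfg where
  D := {
    a := 7
    L := 9
    kp := 6
    inn := [(0, 1), (1, 0), (1, 2), (1, 3), (2, 1), (2, 3), (2, 5), (3, 1), (3, 2), (3, 4), (3, 5), (4,
      3), (4, 5), (4, 6), (5, 2), (5, 3), (5, 4), (6, 4)]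
    mix := [(0, 0), (0, 1), (0, 2), (1, 0), (1, 2), (1, 3), (1, 4), (2, 2), (3, 3), (3, 5), (4, 5), (4,
      6), (4, 7), (4, 8), (5, 1), (5, 2), (5, 6), (6, 4), (6, 6), (6, 7)]
    cl := [5, 2, 0, 3, 0, 4, 1, 6, 1]
    chq := [(2, 3), (2, 4), (3, 2), (4, 2)]
    rng := [(0, 1), (0, 4), (1, 0), (1, 2), (1, 6), (2, 1), (3, 4), (3, 5), (4, 0), (4, 3), (4, 6), (4,
      7), (5, 3), (5, 8), (6, 1), (6, 4), (7, 4), (7, 8), (8, 5), (8, 7)]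
    lev := [] }
  links := [[1, 7, 8, 9], [7, 0, 9, 2, 3, 10, 11], [3, 1, 9, 5], [10, 1, 2, 5, 4, 12], [12, 3, 5, 13, 6,
    14, 15], [13, 4, 3, 2, 9, 8], [14, 4, 13, 11]]
  P := {
    a := 7
    N := 16
    nb := [898, 3725, 554, 5174, 61544, 8988, 26640, 2307, 8865, 295, 6154, 25794, 33816, 2416, 34896,
      20496]
    tri := [(0, 1, 7), (0, 1, 9), (0, 7, 8), (0, 8, 9), (1, 2, 3), (1, 2, 9), (1, 3, 10), (1, 7, 11),
      (1, 10, 11), (2, 3, 5), (2, 5, 9), (3, 4, 5), (3, 4, 12), (3, 10, 12), (4, 5, 13), (4, 6,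
      13), (4, 6, 14), (4, 12, 15), (4, 14, 15), (5, 8, 9), (5, 8, 13), (6, 11, 13), (6, 11, 14)]
    fin := [0, 1, 2, 2, 4, 2, 1, 0, 2, 1, 10, 1, 12, 4, 14, 4]
    chd := [(2, 10), (2, 12)]
    steps := [(0, 7), (1, 9), (1, 11), (1, 6), (2, 3), (2, 5), (2, 8), (4, 13), (4, 15)] }
  rep := [1, 4, 2, 10, 12, 0, 14]

noncomputable def v2138 : Cov.CovD where
  P := 3
  N := 4
  pl := [0, 7]
  lev := [⟨[], [], [(0, 2)], [5], [(1, 2, [3, 4]), (2, 0, [])]⟩,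
    ⟨[], [(0, 0), (0, 2), (0, 3)], [(0, 0), (0, 3)], [5], [(2, 0, []), (3, 3, [2]), (4, 0,
      [])]⟩,
    ⟨[(0, 1)], [(0, 0), (1, 0), (1, 3)], [], [], [(2, 0, [])]⟩,
    ⟨[(0, 1), (1, 2)], [(1, 0), (1, 3), (1, 4), (2, 0), (2, 3), (2, 4)], [(3, 4)], [], [(3,
      3, [2]), (5, 4, [2])]⟩,
    ⟨[(1, 3), (2, 3)], [(3, 1), (3, 3), (3, 4)], [(1, 1), (1, 4)], [6], [(5, 4, [2]), (6,
      1, []), (8, 1, [])]⟩,
    ⟨[(1, 2), (1, 3), (2, 3), (2, 4), (3, 4)], [(0, 0), (0, 2), (1, 0), (2, 0), (2, 1), (2,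
      2), (3, 0), (3, 1), (3, 2), (3, 3), (3, 4), (4, 0), (4, 1), (4, 2), (4, 4)], [(0, 1),
      (0, 2), (1, 2)], [], [(1, 2, [3, 4]), (2, 0, []), (6, 1, [])]⟩,
    ⟨[(3, 4), (4, 5)], [(1, 0), (4, 0), (4, 1), (4, 4), (5, 1)], [(0, 1)], [6], [(4, 0,
      []), (6, 1, [])]⟩]
  Ta := [((2, 1), 0, 2), ((4, 0), 0, 5), ((4, 3), 0, 3), ((4, 6), 0, 1), ((4, 7), 0, 6), ((6, 1),
    1, 2), ((6, 4), 1, 0), ((8, 5), 1, 4), ((8, 7), 1, 6)]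
  Tb := [((0, 1, 4), 5, 2, 0), ((1, 0, 2), 2, 5, 0), ((1, 0, 6), 2, 5, 1), ((1, 2, 6), 2, 0, 1),
    ((3, 4, 5), 3, 0, 4), ((4, 0, 3), 0, 5, 3), ((4, 0, 6), 0, 5, 1), ((4, 0, 7), 0, 5, 6),
    ((4, 3, 6), 0, 3, 1), ((4, 3, 7), 0, 3, 6), ((4, 6, 7), 0, 1, 6), ((5, 3, 8), 4, 3, 1),
    ((6, 1, 4), 1, 2, 0), ((7, 4, 8), 6, 0, 1), ((8, 5, 7), 1, 4, 6)]
  Tc := [(2, 3, 4)]
  Td := [((2, 3), (1, 0), 5), ((2, 3), (1, 2), 0), ((2, 3), (1, 6), 1), ((2, 4), (1, 0), 5), ((2,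
    4), (1, 2), 0), ((2, 4), (1, 6), 1), ((3, 2), (3, 4), 0), ((3, 2), (3, 5), 4), ((4, 2),
    (5, 3), 3), ((4, 2), (5, 8), 1)]
  G := [[0, 0, 0xc41128c81124c41182e, 0x8414c4d2821818cc41342c,
    0x1818c8d421888521882ac1448c188c81d21888541884c6a], [0, 0, 0x641148c41184a81142e, 0,
    0x281888d42828484a8178c124828a81d8821288d486a], [0, 0x444828e14848828e18844828e18e1, 0,
    0x8441c8d2428448c4d2825, 0x818488c85438182248424e414828184881c8948e484248488c859c4b], [0,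
    0, 0, 0, 0x822868d4148428c8221a8d48242482888285d84b]]

noncomputable def n2138 : Ent := ⟨e2138, noF, [], [], []⟩

def c2138 : PLift (Cov.check n2138.C.D v2138 = true) := ⟨by decide +kernel⟩

def b2138 : PLift (entF (fidx ts) 400 2138 n2138 = true) := ⟨by decide +kernel⟩

theorem g2138 : GoodF (fidx ts) 400 2138 := GoodF.ofV v2138 n2138 c2138.down b2138.down

/-- 4746764:1823/3 -/
noncomputable def e2139 : SCfg where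
  D := {
    a := 7
    L := 10
    kp := 7
    inn := [(0, 1), (1, 0), (1, 2), (1, 3), (2, 1), (2, 3), (2, 5), (3, 1), (3, 2), (3, 4), (3, 5), (4,
      3), (4, 5), (4, 6), (5, 2), (5, 3), (5, 4), (6, 4)]
    mix := [(0, 0), (0, 1), (0, 2), (1, 0), (1, 2), (1, 3), (1, 4), (2, 2), (3, 3), (3, 5), (4, 5), (4,
      6), (4, 7), (4, 8), (5, 1), (5, 2), (5, 6), (6, 6), (6, 7), (6, 9)]
    cl := [4, 1, 0, 0, 6, 2, 3, 5, 3, 7]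
    chq := [(0, 4), (1, 2), (2, 1), (4, 0)]
    rng := [(0, 1), (0, 4), (1, 0), (1, 2), (1, 6), (2, 1), (3, 4), (3, 5), (4, 0), (4, 3), (5, 3), (5,
      8), (6, 1), (6, 9), (7, 8), (7, 9), (8, 5), (8, 7), (9, 6), (9, 7)]
    lev := [] }
  links := [[1, 7, 8, 9], [7, 0, 9, 2, 3, 10, 11], [3, 1, 9, 5], [10, 1, 2, 5, 4, 12], [12, 3, 5, 13, 6,
    14, 15], [13, 4, 3, 2, 9, 8], [14, 4, 13, 16]]
  P := {
    a := 7
    N := 17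
    nb := [898, 3725, 554, 5174, 61544, 8988, 90128, 2307, 8865, 295, 6154, 1154, 33816, 65904, 98384,
      20496, 24640]
    tri := [(0, 1, 7), (0, 1, 9), (0, 7, 8), (0, 8, 9), (1, 2, 3), (1, 2, 9), (1, 3, 10), (1, 7, 11),
      (1, 10, 11), (2, 3, 5), (2, 5, 9), (3, 4, 5), (3, 4, 12), (3, 10, 12), (4, 5, 13), (4, 6,
      13), (4, 6, 14), (4, 12, 15), (4, 14, 15), (5, 8, 9), (5, 8, 13), (6, 13, 16), (6, 14, 16)]
    fin := [0, 1, 2, 2, 4, 2, 4, 0, 2, 1, 1, 11, 12, 4, 14, 4, 16]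
    chd := [(0, 1), (2, 12)]
    steps := [(0, 7), (1, 9), (1, 10), (2, 3), (2, 5), (2, 8), (4, 6), (4, 13), (4, 15)] }
  rep := [1, 2, 12, 4, 0, 14, 11, 16]

noncomputable def v2139 : Cov.CovD where
  P := 3
  N := 5
  pl := [4, 7, 9]
  lev := [⟨[], [], [(0, 1), (0, 4), (1, 4)], [], [(0, 4, [0]), (1, 1, [2]), (2, 0, [4])]⟩,
    ⟨[], [(0, 0), (0, 1), (0, 4)], [(0, 0), (0, 4)], [6], [(0, 4, [0]), (2, 0, [4]), (3, 0,
      [4])]⟩,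
    ⟨[(0, 1)], [(0, 0), (1, 0), (1, 4)], [], [], [(2, 0, [4])]⟩,
    ⟨[(0, 1), (1, 2)], [(1, 0), (1, 2), (1, 4), (2, 0), (2, 2)], [(0, 2)], [], [(3, 0,
      [4]), (5, 2, [1])]⟩,
    ⟨[(1, 3), (2, 3)], [(3, 0), (3, 2), (3, 3)], [(2, 3), (3, 3)], [5], [(5, 2, [1]), (6,
      3, []), (8, 3, [])]⟩,
    ⟨[(1, 2), (1, 3), (2, 3), (2, 4), (3, 4)], [(0, 0), (0, 1), (1, 0), (2, 0), (2, 1), (2,
      3), (3, 0), (3, 1), (3, 2), (3, 3), (4, 0), (4, 1), (4, 2), (4, 3)], [(0, 1), (0, 3),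
      (1, 3)], [], [(1, 1, [2]), (2, 0, [4]), (6, 3, [])]⟩,
    ⟨[(3, 4), (4, 5)], [(4, 2), (4, 3), (5, 3)], [], [5, 7], [(6, 3, [])]⟩]
  Ta := [((2, 1), 0, 1), ((3, 4), 0, 6), ((3, 5), 0, 2), ((6, 1), 3, 1), ((6, 9), 3, 7), ((8, 5),
    3, 2), ((8, 7), 3, 5)]
  Tb := [((0, 1, 4), 4, 1, 6), ((1, 0, 2), 1, 4, 0), ((1, 0, 6), 1, 4, 3), ((1, 2, 6), 1, 0, 3),
    ((3, 4, 5), 0, 6, 2), ((4, 0, 3), 6, 4, 0), ((5, 3, 8), 2, 0, 3), ((6, 1, 9), 3, 1, 7),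
    ((7, 8, 9), 5, 3, 7), ((8, 5, 7), 3, 2, 5), ((9, 6, 7), 7, 3, 5)]
  Tc := []
  Td := [((0, 4), (2, 1), 1), ((0, 4), (3, 4), 6), ((0, 4), (3, 5), 2), ((1, 2), (1, 0), 4), ((1,
    2), (1, 2), 0), ((1, 2), (1, 6), 3), ((2, 1), (5, 3), 0), ((2, 1), (5, 8), 3), ((4, 0),
    (0, 1), 1), ((4, 0), (0, 4), 6)]
  G := [[0, 0x321a262c528321a262c984a2329624582e, 0,
    0x321a262c54321a262c58a321a262c98321a262c586c,
    0x541c464a32541c464a92ac45496423264543c48986c], [0, 0x688238d42842a434d8244282d2d482e, 0,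
    0x481828b84452248451848ac2a42844dce185292c2d486c,
    0x8411468a321858968234ab48431489814b484b826c], [0, 0,
    0x9131a514625149131ac2a115131e818a23129151c686c,
    0xe272942244645822e288b2f814624a2329c82d, 0xc454964232864543c48a8464282642c4549a8ad], [0,
    0, 0x488138e42884346948a884346948a869, 0x94a43588a194d456481c8c8446858cac223,
    0x5849c84b248e4943148a8414e494b822d]]

noncomputable def n2139 : Ent := ⟨e2139, noF, [], [], [(7, 16, [1580044410770988437309982408355971841652082177953823432505697861633, 0]), (16, 11, [1580044410770990308032078191911707142368668054796088592099352879105, 0])]⟩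

def c2139 : PLift (Cov.check n2139.C.D v2139 = true) := ⟨by decide +kernel⟩

def b2139 : PLift (entF (fidx ts) 400 2139 n2139 = true) := ⟨by decide +kernel⟩

theorem g2139 : GoodF (fidx ts) 400 2139 := GoodF.ofV v2139 n2139 c2139.down b2139.down

/-- 4746764:1823/5 -/
noncomputable def e2140 : SCfg where
  D := {
    a := 7
    L := 10
    kp := 7
    inn := [(0, 1), (1, 0), (1, 2), (1, 3), (2, 1), (2, 3), (2, 5), (3, 1), (3, 2), (3, 4), (3, 5), (4,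
      3), (4, 5), (4, 6), (5, 2), (5, 3), (5, 4), (6, 4)]
    mix := [(0, 0), (0, 1), (0, 2), (1, 0), (1, 2), (1, 3), (1, 4), (2, 2), (3, 3), (3, 5), (4, 5), (4,
      6), (4, 7), (4, 8), (5, 2), (5, 6), (5, 9), (6, 1), (6, 6), (6, 7)]
    cl := [4, 2, 0, 0, 7, 1, 3, 5, 3, 6]
    chq := [(0, 4), (1, 6), (4, 0), (6, 1)]
    rng := [(0, 1), (0, 4), (1, 0), (1, 2), (1, 6), (1, 7), (2, 1), (2, 9), (3, 4), (3, 5), (4, 0), (4,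
      3), (5, 3), (5, 8), (6, 1), (6, 9), (7, 1), (7, 8), (8, 5), (8, 7), (9, 2), (9, 6)]
    lev := [] }
  links := [[1, 7, 8, 9], [7, 0, 9, 2, 3, 10, 11], [3, 1, 9, 5], [10, 1, 2, 5, 4, 12], [12, 3, 5, 13, 6,
    14, 15], [13, 4, 3, 2, 9, 16], [14, 4, 13, 8]]
  P := {
    a := 7
    N := 17
    nb := [898, 3725, 554, 5174, 61544, 74268, 24848, 2307, 25281, 65831, 6154, 1154, 33816, 65904,
      33104, 20496, 8736]
    tri := [(0, 1, 7), (0, 1, 9), (0, 7, 8), (0, 8, 9), (1, 2, 3), (1, 2, 9), (1, 3, 10), (1, 7, 11),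
      (1, 10, 11), (2, 3, 5), (2, 5, 9), (3, 4, 5), (3, 4, 12), (3, 10, 12), (4, 5, 13), (4, 6,
      13), (4, 6, 14), (4, 12, 15), (4, 14, 15), (5, 9, 16), (5, 13, 16), (6, 8, 13), (6, 8, 14)]
    fin := [0, 1, 1, 3, 4, 3, 6, 0, 6, 1, 1, 11, 12, 4, 14, 4, 3]
    chd := [(0, 1), (12, 3)]
    steps := [(0, 7), (1, 2), (1, 9), (1, 10), (3, 5), (3, 16), (4, 13), (4, 15), (6, 8)] }
  rep := [1, 12, 6, 4, 0, 14, 3, 11]

noncomputable def v2140 : Cov.CovD where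
  P := 3
  N := 5
  pl := [1, 4, 7]
  lev := [⟨[], [], [(0, 4)], [2], [(0, 4, [0]), (2, 0, [4])]⟩,
    ⟨[], [(0, 0), (0, 4)], [(0, 0), (0, 4)], [7], [(0, 4, [0]), (2, 0, [4]), (3, 0, [4])]⟩,
    ⟨[(0, 1)], [(0, 0), (1, 0), (1, 4)], [], [], [(2, 0, [4])]⟩,
    ⟨[(0, 1), (1, 2)], [(1, 0), (1, 1), (1, 4), (2, 0), (2, 1)], [(0, 1)], [], [(3, 0,
      [4]), (5, 1, [6])]⟩,
    ⟨[(1, 3), (2, 3)], [(3, 0), (3, 1), (3, 3)], [(1, 3), (3, 3)], [5], [(5, 1, [6]), (6,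
      3, []), (8, 3, [])]⟩,
    ⟨[(1, 2), (1, 3), (2, 3), (2, 4), (3, 4)], [(0, 0), (1, 0), (2, 0), (2, 3), (2, 6), (3,
      0), (3, 1), (3, 3), (3, 6), (4, 0), (4, 1), (4, 3), (4, 6)], [(0, 3), (0, 6), (3, 6)],
      [], [(2, 0, [4]), (6, 3, []), (9, 6, [1])]⟩,
    ⟨[(3, 4), (4, 5)], [(4, 1), (4, 3), (5, 3)], [], [2, 5], [(6, 3, [])]⟩]
  Ta := [((2, 1), 0, 2), ((2, 9), 0, 6), ((3, 4), 0, 7), ((3, 5), 0, 1), ((6, 1), 3, 2), ((6, 9),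
    3, 6), ((8, 5), 3, 1), ((8, 7), 3, 5)]
  Tb := [((0, 1, 4), 4, 2, 7), ((1, 0, 2), 2, 4, 0), ((1, 0, 6), 2, 4, 3), ((1, 0, 7), 2, 4, 5),
    ((1, 2, 6), 2, 0, 3), ((1, 2, 7), 2, 0, 5), ((1, 6, 7), 2, 3, 5), ((2, 1, 9), 0, 2, 6),
    ((3, 4, 5), 0, 7, 1), ((4, 0, 3), 7, 4, 0), ((5, 3, 8), 1, 0, 3), ((6, 1, 9), 3, 2, 6),
    ((7, 1, 8), 5, 2, 3), ((8, 5, 7), 3, 1, 5), ((9, 2, 6), 6, 0, 3)]
  Tc := []
  Td := [((0, 4), (2, 1), 2), ((0, 4), (2, 9), 6), ((0, 4), (3, 4), 7), ((0, 4), (3, 5), 1), ((1,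
    6), (5, 3), 0), ((1, 6), (5, 8), 3), ((4, 0), (0, 1), 2), ((4, 0), (0, 4), 7), ((6, 1),
    (9, 2), 0), ((6, 1), (9, 6), 3)]
  G := [[0, 0, 0xe21448e21884e21842e, 0x821294245442125828c4a1218242c9842125828c86c,
    0x1218222c541218222c94c821292245822a212d846a], [0, 0, 0xc21448c21884c21842e,
    0x1218242c548212942454a1218242c9842125828986c,
    0x8218232c54129282d84c1218222c58229282d846a], [0,
    0x811151e4241116818c2a814111e281128141c646c, 0,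
    0x821294184248182814212589c424848284842482129c4ed, 0x22a212d418823222d48222a212d844b],
    [0, 0x411891e428148151e8241862848a4842c2d, 0, 0x829212d41842125852889442482129c42d,
    0x823222d418822212d48292125128c84b]]

noncomputable def n2140 : Ent := ⟨e2140, noF, [], [], []⟩

def c2140 : PLift (Cov.check n2140.C.D v2140 = true) := ⟨by decide +kernel⟩

def b2140 : PLift (entF (fidx ts) 400 2140 n2140 = true) := ⟨by decide +kernel⟩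

theorem g2140 : GoodF (fidx ts) 400 2140 := GoodF.ofV v2140 n2140 c2140.down b2140.down

/-- 4746764:1823/6 -/
noncomputable def e2141 : SCfg where
  D := {
    a := 7
    L := 10
    kp := 7
    inn := [(0, 1), (1, 0), (1, 2), (1, 3), (2, 1), (2, 3), (2, 5), (3, 1), (3, 2), (3, 4), (3, 5), (4,
      3), (4, 5), (4, 6), (5, 2), (5, 3), (5, 4), (6, 4)]
    mix := [(0, 0), (0, 1), (0, 2), (1, 0), (1, 2), (1, 3), (1, 4), (2, 2), (3, 3), (3, 5), (4, 5), (4,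
      6), (4, 7), (4, 8), (5, 2), (5, 6), (5, 9), (6, 4), (6, 6), (6, 7)]
    cl := [1, 7, 0, 2, 0, 4, 3, 5, 3, 6]
    chq := [(0, 4), (4, 0), (4, 6), (6, 4)]
    rng := [(0, 1), (0, 4), (1, 0), (1, 2), (2, 1), (2, 9), (3, 4), (3, 5), (4, 0), (4, 3), (4, 6), (4,
      7), (5, 3), (5, 8), (6, 4), (6, 9), (7, 4), (7, 8), (8, 5), (8, 7), (9, 2), (9, 6)]
    lev := [] }
  links := [[1, 7, 8, 9], [7, 0, 9, 2, 3, 10, 11], [3, 1, 9, 5], [10, 1, 2, 5, 4, 12], [12, 3, 5, 13, 6,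
    14, 15], [13, 4, 3, 2, 9, 16], [14, 4, 13, 11]]
  P := {
    a := 7
    N := 17
    nb := [898, 3725, 554, 5174, 61544, 74268, 26640, 2307, 641, 65831, 6154, 25794, 33816, 67696,
      34896, 20496, 8736]
    tri := [(0, 1, 7), (0, 1, 9), (0, 7, 8), (0, 8, 9), (1, 2, 3), (1, 2, 9), (1, 3, 10), (1, 7, 11),
      (1, 10, 11), (2, 3, 5), (2, 5, 9), (3, 4, 5), (3, 4, 12), (3, 10, 12), (4, 5, 13), (4, 6,
      13), (4, 6, 14), (4, 12, 15), (4, 14, 15), (5, 9, 16), (5, 13, 16), (6, 11, 13), (6, 11,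
      14)]
    fin := [0, 1, 1, 3, 4, 5, 1, 0, 8, 1, 10, 1, 3, 4, 14, 4, 5]
    chd := [(1, 3), (3, 5)]
    steps := [(0, 7), (1, 2), (1, 9), (1, 11), (1, 6), (3, 12), (4, 13), (4, 15), (5, 16)] }
  rep := [1, 0, 10, 4, 3, 14, 5, 8]

noncomputable def v2141 : Cov.CovD where
  P := 3
  N := 5
  pl := [0, 1, 3, 7]
  lev := [⟨[], [], [], [1, 7], [(2, 0, [4])]⟩,
    ⟨[], [(0, 0)], [(0, 0)], [1, 2], [(2, 0, [4]), (4, 0, [4])]⟩,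
    ⟨[(0, 1)], [(0, 0), (1, 0)], [], [], [(2, 0, [4])]⟩,
    ⟨[(0, 1), (1, 2)], [(1, 0), (1, 4), (2, 0), (2, 4)], [], [2], [(5, 4, [0, 6])]⟩,
    ⟨[(1, 3), (2, 3)], [(3, 3), (3, 4)], [(3, 3), (3, 4)], [5], [(5, 4, [0, 6]), (6, 3,
      []), (8, 3, [])]⟩,
    ⟨[(1, 2), (1, 3), (2, 3), (2, 4), (3, 4)], [(0, 0), (1, 0), (2, 0), (2, 3), (2, 6), (3,
      0), (3, 3), (3, 4), (3, 6), (4, 0), (4, 3), (4, 4), (4, 6)], [(0, 3), (0, 6), (3, 6)],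
      [], [(2, 0, [4]), (6, 3, []), (9, 6, [4])]⟩,
    ⟨[(3, 4), (4, 5)], [(1, 0), (4, 0), (4, 3), (4, 4), (5, 3)], [(0, 3)], [5], [(4, 0,
      [4]), (6, 3, [])]⟩]
  Ta := [((2, 1), 0, 7), ((2, 9), 0, 6), ((4, 0), 0, 1), ((4, 3), 0, 2), ((4, 6), 0, 3), ((4, 7),
    0, 5), ((6, 4), 3, 0), ((6, 9), 3, 6), ((8, 5), 3, 4), ((8, 7), 3, 5)]
  Tb := [((0, 1, 4), 1, 7, 0), ((1, 0, 2), 7, 1, 0), ((2, 1, 9), 0, 7, 6), ((3, 4, 5), 2, 0, 4),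
    ((4, 0, 3), 0, 1, 2), ((4, 0, 6), 0, 1, 3), ((4, 0, 7), 0, 1, 5), ((4, 3, 6), 0, 2, 3),
    ((4, 3, 7), 0, 2, 5), ((4, 6, 7), 0, 3, 5), ((5, 3, 8), 4, 2, 3), ((6, 4, 9), 3, 0, 6),
    ((7, 4, 8), 5, 0, 3), ((8, 5, 7), 3, 4, 5), ((9, 2, 6), 6, 0, 3)]
  Tc := [(4, 0, 6)]
  Td := [((0, 4), (2, 1), 7), ((0, 4), (2, 9), 6), ((0, 4), (4, 0), 1), ((0, 4), (4, 3), 2), ((0,
    4), (4, 6), 3), ((0, 4), (4, 7), 5), ((4, 0), (5, 3), 2), ((4, 0), (5, 8), 3), ((4, 6),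
    (5, 3), 2), ((4, 6), (5, 8), 3), ((6, 4), (9, 2), 0), ((6, 4), (9, 6), 3)]
  G := [[0, 0, 0, 0xee61e81c24e41eea1c28c, 0xeeae142a25348ee61e213e812c8c], [0, 0, 0,
    0xc214a416819a4ac61ac61984c, 0x681c21348c21681948a41288d], [0, 0xeeee1184eeee11486,
    0xe41eea1c241, 0x426188188644a22ced241, 0x22184c188644a22ceb481], [0, 0x6ca1144ac61184c,
    0xc21681a481, 0xc21484482842cf1a81, 0x18a44a21a4caf1481]]

noncomputable def n2141 : Ent := ⟨e2141, noF, [], [], [(8, 16, [1580044410770988437309982408355971841652082177953823432505697869825, 0])]⟩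

def c2141 : PLift (Cov.check n2141.C.D v2141 = true) := ⟨by decide +kernel⟩

def b2141 : PLift (entF (fidx ts) 400 2141 n2141 = true) := ⟨by decide +kernel⟩

theorem g2141 : GoodF (fidx ts) 400 2141 := GoodF.ofV v2141 n2141 c2141.down b2141.down

/-- 4746764:1823 -/
noncomputable def e2142 : SCfg where
  D := {
    a := 7
    L := 11
    kp := 8
    inn := [(0, 1), (1, 0), (1, 2), (1, 3), (2, 1), (2, 3), (2, 5), (3, 1), (3, 2), (3, 4), (3, 5), (4,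
      3), (4, 5), (4, 6), (5, 2), (5, 3), (5, 4), (6, 4)]
    mix := [(0, 0), (0, 1), (0, 2), (1, 0), (1, 2), (1, 3), (1, 4), (2, 2), (3, 3), (3, 5), (4, 5), (4,
      6), (4, 7), (4, 8), (5, 2), (5, 6), (5, 9), (6, 6), (6, 7), (6, 10)]
    cl := [1, 6, 0, 0, 7, 2, 3, 4, 3, 5, 8]
    chq := [(0, 1), (1, 0), (2, 5), (5, 2)]
    rng := [(0, 1), (0, 4), (1, 0), (1, 2), (2, 1), (2, 9), (3, 4), (3, 5), (4, 0), (4, 3), (5, 3), (5,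
      8), (6, 9), (6, 10), (7, 8), (7, 10), (8, 5), (8, 7), (9, 2), (9, 6), (10, 6), (10, 7)]
    lev := [] }
  links := [[1, 7, 8, 9], [7, 0, 9, 2, 3, 10, 11], [3, 1, 9, 5], [10, 1, 2, 5, 4, 12], [12, 3, 5, 13, 6,
    14, 15], [13, 4, 3, 2, 9, 16], [14, 4, 13, 17]]
  P := {
    a := 7
    N := 18
    nb := [898, 3725, 554, 5174, 61544, 74268, 155664, 2307, 641, 65831, 6154, 1154, 33816, 196720,
      163920, 20496, 8736, 24640]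
    tri := [(0, 1, 7), (0, 1, 9), (0, 7, 8), (0, 8, 9), (1, 2, 3), (1, 2, 9), (1, 3, 10), (1, 7, 11),
      (1, 10, 11), (2, 3, 5), (2, 5, 9), (3, 4, 5), (3, 4, 12), (3, 10, 12), (4, 5, 13), (4, 6,
      13), (4, 6, 14), (4, 12, 15), (4, 14, 15), (5, 9, 16), (5, 13, 16), (6, 13, 17), (6, 14,
      17)]
    fin := [0, 1, 1, 3, 4, 3, 4, 0, 8, 1, 1, 11, 12, 4, 14, 4, 3, 17]
    chd := [(0, 1), (12, 3)]
    steps := [(0, 7), (1, 2), (1, 9), (1, 10), (3, 5), (3, 16), (4, 6), (4, 13), (4, 15)] }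
  rep := [1, 0, 12, 4, 14, 3, 8, 11, 17]

noncomputable def v2142 : Cov.CovD where
  P := 3
  N := 6
  pl := [1, 4, 7, 10]
  lev := [⟨[], [], [(0, 1)], [6], [(0, 1, [0]), (2, 0, [1])]⟩,
    ⟨[], [(0, 0), (0, 1)], [(0, 0), (0, 1)], [7], [(0, 1, [0]), (2, 0, [1]), (3, 0, [1])]⟩,
    ⟨[(0, 1)], [(0, 0), (1, 0), (1, 1)], [], [], [(2, 0, [1])]⟩,
    ⟨[(0, 1), (1, 2)], [(1, 0), (1, 1), (1, 2), (2, 0), (2, 2)], [(0, 2)], [], [(3, 0,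
      [1]), (5, 2, [5])]⟩,
    ⟨[(1, 3), (2, 3)], [(3, 0), (3, 2), (3, 3)], [(2, 3), (3, 3)], [4], [(5, 2, [5]), (6,
      3, []), (8, 3, [])]⟩,
    ⟨[(1, 2), (1, 3), (2, 3), (2, 4), (3, 4)], [(0, 0), (1, 0), (2, 0), (2, 3), (2, 5), (3,
      0), (3, 2), (3, 3), (3, 5), (4, 0), (4, 2), (4, 3), (4, 5)], [(0, 3), (0, 5), (3, 5)],
      [], [(2, 0, [1]), (6, 3, []), (9, 5, [2])]⟩,
    ⟨[(3, 4), (4, 5)], [(4, 2), (4, 3), (5, 3)], [], [4, 8], [(6, 3, [])]⟩]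
  Ta := [((2, 1), 0, 6), ((2, 9), 0, 5), ((3, 4), 0, 7), ((3, 5), 0, 2), ((6, 9), 3, 5), ((6,
    10), 3, 8), ((8, 5), 3, 2), ((8, 7), 3, 4)]
  Tb := [((0, 1, 4), 1, 6, 7), ((1, 0, 2), 6, 1, 0), ((2, 1, 9), 0, 6, 5), ((3, 4, 5), 0, 7, 2),
    ((4, 0, 3), 7, 1, 0), ((5, 3, 8), 2, 0, 3), ((6, 9, 10), 3, 5, 8), ((7, 8, 10), 4, 3, 8),
    ((8, 5, 7), 3, 2, 4), ((9, 2, 6), 5, 0, 3), ((10, 6, 7), 8, 3, 4)]
  Tc := []
  Td := [((0, 1), (2, 1), 6), ((0, 1), (2, 9), 5), ((0, 1), (3, 4), 7), ((0, 1), (3, 5), 2), ((1,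
    0), (0, 1), 6), ((1, 0), (0, 4), 7), ((2, 5), (5, 3), 0), ((2, 5), (5, 8), 3), ((5, 2),
    (9, 2), 0), ((5, 2), (9, 6), 3)]
  G := [[0, 0x62325a2894462325a28c42624a2329c18e, 0,
    0xa232962454321a262c94c321a262c54321a262c98cc,
    0x541c464a3264543c4898c541c464a92642c4549a8cc], [0, 0xd2d29624548624a2d29c42d2d25a28c14e,
    0, 0xa2329d2454d24a2329c8ce29272d4862325a2898cc,
    0x541c4b4a32642c4b49a2c541c464a3834e4d4b82cc], [0, 0x321a262c944a232962454262325a28c18e,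
    0x3129151c643129151ca2c9131a514643129151ca8cc, 0x62325a28c4624a2329c8c1,
    0x642c4549a2642c4549a8c1], [0, 0x5292c2d844624a2d29c125292c2d418e,
    0x422438229c52cc6a52826834229c58caac1, 0xd29272d4852e2b2d84c1, 0x3494a4b28b4543c48a2c1]]

noncomputable def n2142 : Ent := ⟨e2142, noF, [], [], [(7, 17, [6903326391201334775872065844685381424292761054348340378595029938442241, 0]), (8, 16, [7334685537875745012586738086077695515070955365108989538292687702437889, 0]), (8, 17, [6903326391201334775872065844685381424292761054348340378595029938454529, 0]), (17, 11, [6903326391201334778116932359625648306653620957400551096786542324469761, 0])]⟩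

def c2142 : PLift (Cov.check n2142.C.D v2142 = true) := ⟨by decide +kernel⟩

def b2142 : PLift (entF (fidx ts) 400 2142 n2142 = true) := ⟨by decide +kernel⟩

theorem g2142 : GoodF (fidx ts) 400 2142 := GoodF.ofV v2142 n2142 c2142.down b2142.down

/-- 4746764:1824/2 -/
noncomputable def e2143 : SCfg where
  D := {
    a := 7
    L := 9
    kp := 6
    inn := [(0, 1), (1, 0), (1, 2), (1, 3), (2, 1), (2, 3), (2, 5), (3, 1), (3, 2), (3, 4), (3, 5), (4,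
      3), (4, 5), (4, 6), (5, 2), (5, 3), (5, 4), (6, 4)]
    mix := [(0, 0), (0, 1), (0, 2), (1, 0), (1, 2), (1, 3), (1, 4), (2, 2), (3, 3), (3, 5), (4, 5), (4,
      6), (4, 7), (4, 8), (5, 1), (5, 2), (5, 6), (6, 4), (6, 5), (6, 8)]
    cl := [5, 3, 0, 2, 0, 1, 1, 6, 4]
    chq := [(1, 4), (2, 3), (3, 2), (4, 1)]
    rng := [(0, 1), (0, 4), (1, 0), (1, 2), (1, 6), (2, 1), (3, 4), (3, 5), (4, 0), (4, 3), (4, 5), (4,
      8), (5, 3), (5, 4), (6, 1), (6, 7), (7, 6), (7, 8), (8, 4), (8, 7)]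
    lev := [] }
  links := [[1, 7, 8, 9], [7, 0, 9, 2, 3, 10, 11], [3, 1, 9, 5], [10, 1, 2, 5, 4, 12], [12, 3, 5, 13, 14,
    15, 6], [13, 4, 3, 2, 9, 8], [12, 4, 15, 11]]
  P := {
    a := 7
    N := 16
    nb := [898, 3725, 554, 5174, 61544, 8988, 38928, 2307, 8865, 295, 6154, 38082, 3160, 16688, 40976,
      18512]
    tri := [(0, 1, 7), (0, 1, 9), (0, 7, 8), (0, 8, 9), (1, 2, 3), (1, 2, 9), (1, 3, 10), (1, 7, 11),
      (1, 10, 11), (2, 3, 5), (2, 5, 9), (3, 4, 5), (3, 4, 12), (3, 10, 12), (4, 5, 13), (4, 6,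
      12), (4, 6, 15), (4, 13, 14), (4, 14, 15), (5, 8, 9), (5, 8, 13), (6, 11, 12), (6, 11, 15)]
    fin := [0, 1, 2, 2, 4, 2, 1, 0, 2, 1, 10, 1, 4, 4, 14, 15]
    chd := [(2, 10), (4, 15)]
    steps := [(0, 7), (1, 9), (1, 11), (1, 6), (2, 3), (2, 5), (2, 8), (4, 13), (4, 12)] }
  rep := [1, 4, 10, 2, 15, 0, 14]

noncomputable def v2143 : Cov.CovD where
  P := 3
  N := 4
  pl := [0, 7]
  lev := [⟨[], [], [(0, 3)], [5], [(1, 3, [2]), (2, 0, [])]⟩,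
    ⟨[], [(0, 0), (0, 2), (0, 3)], [(0, 0), (0, 2)], [5], [(2, 0, []), (3, 2, [3]), (4, 0,
      [])]⟩,
    ⟨[(0, 1)], [(0, 0), (1, 0), (1, 2)], [], [], [(2, 0, [])]⟩,
    ⟨[(0, 1), (1, 2)], [(1, 0), (1, 1), (1, 2), (2, 0), (2, 1), (2, 2)], [(1, 2)], [], [(3,
      2, [3]), (5, 1, [4])]⟩,
    ⟨[(1, 3), (2, 3)], [(3, 1), (3, 2), (3, 4)], [(1, 1), (1, 4)], [6], [(5, 1, [4]), (6,
      1, [4]), (8, 4, [1])]⟩,
    ⟨[(1, 2), (1, 3), (2, 3), (2, 4), (3, 4)], [(0, 0), (0, 3), (1, 0), (2, 0), (2, 1), (2,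
      3), (3, 0), (3, 1), (3, 2), (3, 3), (4, 0), (4, 1), (4, 3), (4, 4)], [(0, 1), (0, 3),
      (1, 3)], [], [(1, 3, [2]), (2, 0, []), (6, 1, [4])]⟩,
    ⟨[(3, 4), (4, 5)], [(1, 0), (3, 1), (4, 0), (4, 1), (4, 4)], [(0, 1), (0, 4), (1, 4)],
      [], [(4, 0, []), (5, 1, [4]), (8, 4, [1])]⟩]
  Ta := [((2, 1), 0, 3), ((4, 0), 0, 5), ((4, 3), 0, 2), ((4, 5), 0, 1), ((4, 8), 0, 4), ((5, 3),
    1, 2), ((5, 4), 1, 0), ((6, 1), 1, 3), ((6, 7), 1, 6)]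
  Tb := [((0, 1, 4), 5, 3, 0), ((1, 0, 2), 3, 5, 0), ((1, 0, 6), 3, 5, 1), ((1, 2, 6), 3, 0, 1),
    ((3, 4, 5), 2, 0, 1), ((4, 0, 3), 0, 5, 2), ((4, 0, 5), 0, 5, 1), ((4, 0, 8), 0, 5, 4),
    ((4, 3, 5), 0, 2, 1), ((4, 3, 8), 0, 2, 4), ((4, 5, 8), 0, 1, 4), ((5, 3, 4), 1, 2, 0),
    ((6, 1, 7), 1, 3, 6), ((7, 6, 8), 6, 1, 4), ((8, 4, 7), 4, 0, 6)]
  Tc := []
  Td := [((1, 4), (5, 3), 2), ((1, 4), (5, 4), 0), ((1, 4), (6, 1), 3), ((1, 4), (6, 7), 6), ((2,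
    3), (3, 4), 0), ((2, 3), (3, 5), 1), ((3, 2), (1, 0), 5), ((3, 2), (1, 2), 0), ((3, 2),
    (1, 6), 1), ((4, 1), (8, 4), 0), ((4, 1), (8, 7), 6)]
  G := [[0, 0, 0, 0x8242c2d14814c451489841414c4d121212c8d84ce, 0x1242c2d1881412c2d1826], [0, 0,
    0, 0, 0x181824d128141424d12242824d18a8424c4d182e], [0, 0x422468228ac462422cae84c1,
    0x42c25828c442482c29c8c1, 0x41c25818c488242c2d1843, 0x8242c2d1888442c2d1826], [0, 0,
    0x28a894846188441c4d2844122c5818c42e, 0, 0x8141c222c11c88422ca4d1225]]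

noncomputable def n2143 : Ent := ⟨e2143, noF, [], [], []⟩

def c2143 : PLift (Cov.check n2143.C.D v2143 = true) := ⟨by decide +kernel⟩

def b2143 : PLift (entF (fidx ts) 400 2143 n2143 = true) := ⟨by decide +kernel⟩

theorem g2143 : GoodF (fidx ts) 400 2143 := GoodF.ofV v2143 n2143 c2143.down b2143.down

/-- 4746764:1824/1 -/
noncomputable def e2144 : SCfg where
  D := {
    a := 7
    L := 10
    kp := 7
    inn := [(0, 1), (1, 0), (1, 2), (1, 3), (2, 1), (2, 3), (2, 5), (3, 1), (3, 2), (3, 4), (3, 5), (4,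
      3), (4, 5), (4, 6), (5, 2), (5, 3), (5, 4), (6, 4)]
    mix := [(0, 0), (0, 1), (0, 2), (1, 0), (1, 2), (1, 3), (1, 4), (2, 2), (3, 3), (3, 5), (4, 5), (4,
      6), (4, 7), (4, 8), (5, 1), (5, 2), (5, 6), (6, 5), (6, 8), (6, 9)]
    cl := [3, 2, 0, 0, 5, 1, 1, 6, 4, 7]
    chq := [(0, 3), (1, 4), (3, 0), (4, 1)]
    rng := [(0, 1), (0, 4), (1, 0), (1, 2), (1, 6), (2, 1), (3, 4), (3, 5), (4, 0), (4, 3), (5, 3), (5,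
      9), (6, 1), (6, 7), (7, 6), (7, 8), (8, 7), (8, 9), (9, 5), (9, 8)]
    lev := [] }
  links := [[1, 7, 8, 9], [7, 0, 9, 2, 3, 10, 11], [3, 1, 9, 5], [10, 1, 2, 5, 4, 12], [12, 3, 5, 13, 14,
    15, 6], [13, 4, 3, 2, 9, 8], [12, 4, 15, 16]]
  P := {
    a := 7
    N := 17
    nb := [898, 3725, 554, 5174, 61544, 8988, 102416, 2307, 8865, 295, 6154, 1154, 66648, 16688,
      40976, 82000, 36928]
    tri := [(0, 1, 7), (0, 1, 9), (0, 7, 8), (0, 8, 9), (1, 2, 3), (1, 2, 9), (1, 3, 10), (1, 7, 11),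
      (1, 10, 11), (2, 3, 5), (2, 5, 9), (3, 4, 5), (3, 4, 12), (3, 10, 12), (4, 5, 13), (4, 6,
      12), (4, 6, 15), (4, 13, 14), (4, 14, 15), (5, 8, 9), (5, 8, 13), (6, 12, 16), (6, 15, 16)]
    fin := [0, 0, 0, 3, 4, 3, 4, 0, 8, 3, 3, 11, 4, 4, 14, 15, 16]
    chd := [(0, 3), (4, 15)]
    steps := [(0, 1), (0, 2), (0, 7), (3, 5), (3, 9), (3, 10), (4, 6), (4, 13), (4, 12)] }
  rep := [3, 4, 8, 0, 15, 11, 14, 16]

noncomputable def v2144 : Cov.CovD where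
  P := 3
  N := 5
  pl := [1, 4, 7, 9]
  lev := [⟨[], [], [(0, 3)], [2], [(0, 3, [0]), (2, 0, [3])]⟩,
    ⟨[], [(0, 0), (0, 3)], [(0, 0), (0, 3)], [5], [(0, 3, [0]), (2, 0, [3]), (3, 0, [3])]⟩,
    ⟨[(0, 1)], [(0, 0), (1, 0), (1, 3)], [], [], [(2, 0, [3])]⟩,
    ⟨[(0, 1), (1, 2)], [(1, 0), (1, 1), (1, 3), (2, 0), (2, 1)], [(0, 1)], [], [(3, 0,
      [3]), (5, 1, [4])]⟩,
    ⟨[(1, 3), (2, 3)], [(3, 0), (3, 1), (3, 4)], [(1, 1), (1, 4)], [6], [(5, 1, [4]), (6,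
      1, [4]), (8, 4, [1])]⟩,
    ⟨[(1, 2), (1, 3), (2, 3), (2, 4), (3, 4)], [(0, 0), (1, 0), (2, 0), (2, 1), (3, 0), (3,
      1), (4, 0), (4, 1), (4, 4)], [(0, 1)], [2], [(2, 0, [3]), (6, 1, [4])]⟩,
    ⟨[(3, 4), (4, 5)], [(3, 1), (4, 1), (4, 4)], [(1, 4)], [7], [(5, 1, [4]), (8, 4, [1])]⟩]
  Ta := [((2, 1), 0, 2), ((3, 4), 0, 5), ((3, 5), 0, 1), ((5, 3), 1, 0), ((5, 9), 1, 7), ((6, 1),
    1, 2), ((6, 7), 1, 6)]
  Tb := [((0, 1, 4), 3, 2, 5), ((1, 0, 2), 2, 3, 0), ((1, 0, 6), 2, 3, 1), ((1, 2, 6), 2, 0, 1),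
    ((3, 4, 5), 0, 5, 1), ((4, 0, 3), 5, 3, 0), ((5, 3, 9), 1, 0, 7), ((6, 1, 7), 1, 2, 6),
    ((7, 6, 8), 6, 1, 4), ((8, 7, 9), 4, 6, 7), ((9, 5, 8), 7, 1, 4)]
  Tc := []
  Td := [((0, 3), (2, 1), 2), ((0, 3), (3, 4), 5), ((0, 3), (3, 5), 1), ((1, 4), (5, 3), 0), ((1,
    4), (5, 9), 7), ((1, 4), (6, 1), 2), ((1, 4), (6, 7), 6), ((3, 0), (0, 1), 2), ((3, 0),
    (0, 4), 5), ((4, 1), (8, 7), 6), ((4, 1), (8, 9), 7)]
  G := [[0, 0, 0xd21d2d2c548d21d2d2c984d2d85d28942e, 0,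
    0xd21d2d8c54d2d25d28c8cd2d25d2898d21d2d8c986a], [0, 0,
    0x28b89d84648d81a434c384a43868d482e, 0x242824d422412428c98a242824d82242824d426c,
    0x38689a8454d817828c34cd838568892b8b8542881c6a], [0, 0xe4e4ae8462e82e4e8c68e84e4e4ac2e1,
    0, 0, 0x58ad89448d2481d8d85d28c16d2484d24d2d29c8cb], [0, 0, 0,
    0x282828d428242428d8142428c281c42d, 0x68a838d41821e1d8d84278428e89c24b]]

noncomputable def n2144 : Ent := ⟨e2144, noF, [], [], [(16, 11, [1580044410770990308032078191911707142368668054796088592099352899585, 0])]⟩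

def c2144 : PLift (Cov.check n2144.C.D v2144 = true) := ⟨by decide +kernel⟩

def b2144 : PLift (entF (fidx ts) 400 2144 n2144 = true) := ⟨by decide +kernel⟩

theorem g2144 : GoodF (fidx ts) 400 2144 := GoodF.ofV v2144 n2144 c2144.down b2144.down

/-- 4746764:1824/3 -/
noncomputable def e2145 : SCfg where
  D := {
    a := 7
    L := 10
    kp := 7
    inn := [(0, 1), (1, 0), (1, 2), (1, 3), (2, 1), (2, 3), (2, 5), (3, 1), (3, 2), (3, 4), (3, 5), (4,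
      3), (4, 5), (4, 6), (5, 2), (5, 3), (5, 4), (6, 4)]
    mix := [(0, 0), (0, 1), (0, 2), (1, 0), (1, 2), (1, 3), (1, 4), (2, 2), (3, 3), (3, 5), (4, 5), (4,
      6), (4, 7), (4, 8), (5, 2), (5, 6), (5, 9), (6, 1), (6, 5), (6, 8)]
    cl := [3, 2, 0, 0, 5, 1, 1, 6, 4, 7]
    chq := [(0, 3), (1, 4), (3, 0), (4, 1)]
    rng := [(0, 1), (0, 4), (1, 0), (1, 2), (1, 5), (1, 8), (2, 1), (2, 9), (3, 4), (3, 5), (4, 0), (4,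
      3), (5, 1), (5, 3), (6, 7), (6, 9), (7, 6), (7, 8), (8, 1), (8, 7), (9, 2), (9, 6)]
    lev := [] }
  links := [[1, 7, 8, 9], [7, 0, 9, 2, 3, 10, 11], [3, 1, 9, 5], [10, 1, 2, 5, 4, 12], [12, 3, 5, 13, 14,
    15, 6], [13, 4, 3, 2, 9, 16], [12, 4, 15, 8]]
  P := {
    a := 7
    N := 17
    nb := [898, 3725, 554, 5174, 61544, 74268, 37136, 2307, 37569, 65831, 6154, 1154, 1368, 81968,
      40976, 16720, 8736]
    tri := [(0, 1, 7), (0, 1, 9), (0, 7, 8), (0, 8, 9), (1, 2, 3), (1, 2, 9), (1, 3, 10), (1, 7, 11),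
      (1, 10, 11), (2, 3, 5), (2, 5, 9), (3, 4, 5), (3, 4, 12), (3, 10, 12), (4, 5, 13), (4, 6,
      12), (4, 6, 15), (4, 13, 14), (4, 14, 15), (5, 9, 16), (5, 13, 16), (6, 8, 12), (6, 8, 15)]
    fin := [0, 0, 0, 3, 4, 3, 6, 0, 6, 3, 3, 11, 4, 4, 14, 15, 16]
    chd := [(0, 3), (4, 15)]
    steps := [(0, 1), (0, 2), (0, 7), (3, 5), (3, 9), (3, 10), (4, 13), (4, 12), (6, 8)] }
  rep := [3, 4, 6, 0, 15, 11, 14, 16]

noncomputable def v2145 : Cov.CovD where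
  P := 3
  N := 5
  pl := [1, 4, 7, 9]
  lev := [⟨[], [], [(0, 3)], [2], [(0, 3, [0]), (2, 0, [3])]⟩,
    ⟨[], [(0, 0), (0, 3)], [(0, 0), (0, 3)], [5], [(0, 3, [0]), (2, 0, [3]), (3, 0, [3])]⟩,
    ⟨[(0, 1)], [(0, 0), (1, 0), (1, 3)], [], [], [(2, 0, [3])]⟩,
    ⟨[(0, 1), (1, 2)], [(1, 0), (1, 1), (1, 3), (2, 0), (2, 1)], [(0, 1)], [], [(3, 0,
      [3]), (5, 1, [4])]⟩,
    ⟨[(1, 3), (2, 3)], [(3, 0), (3, 1), (3, 4)], [(1, 1), (1, 4)], [6], [(5, 1, [4]), (6,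
      1, [4]), (8, 4, [1])]⟩,
    ⟨[(1, 2), (1, 3), (2, 3), (2, 4), (3, 4)], [(0, 0), (1, 0), (2, 0), (2, 1), (3, 0), (3,
      1), (4, 0), (4, 1), (4, 4)], [(0, 1)], [7], [(2, 0, [3]), (6, 1, [4])]⟩,
    ⟨[(3, 4), (4, 5)], [(3, 1), (4, 1), (4, 4)], [(1, 4)], [2], [(5, 1, [4]), (8, 4, [1])]⟩]
  Ta := [((2, 1), 0, 2), ((2, 9), 0, 7), ((3, 4), 0, 5), ((3, 5), 0, 1), ((5, 1), 1, 2), ((5, 3),
    1, 0), ((6, 7), 1, 6), ((6, 9), 1, 7)]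
  Tb := [((0, 1, 4), 3, 2, 5), ((1, 0, 2), 2, 3, 0), ((1, 0, 5), 2, 3, 1), ((1, 0, 8), 2, 3, 4),
    ((1, 2, 5), 2, 0, 1), ((1, 2, 8), 2, 0, 4), ((1, 5, 8), 2, 1, 4), ((2, 1, 9), 0, 2, 7),
    ((3, 4, 5), 0, 5, 1), ((4, 0, 3), 5, 3, 0), ((5, 1, 3), 1, 2, 0), ((6, 7, 9), 1, 6, 7),
    ((7, 6, 8), 6, 1, 4), ((8, 1, 7), 4, 2, 6), ((9, 2, 6), 7, 0, 1)]
  Tc := []
  Td := [((0, 3), (2, 1), 2), ((0, 3), (2, 9), 7), ((0, 3), (3, 4), 5), ((0, 3), (3, 5), 1), ((1,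
    4), (5, 1), 2), ((1, 4), (5, 3), 0), ((1, 4), (6, 7), 6), ((1, 4), (6, 9), 7), ((3, 0),
    (0, 1), 2), ((3, 0), (0, 4), 5), ((4, 1), (8, 1), 2), ((4, 1), (8, 7), 6)]
  G := [[0, 0, 0x82c29424548c218242c98442c25828982e,
    0x1218242c548212942454a421258289842125828c86c,
    0x82129924549212582894c1218292c58829212d486a], [0, 0,
    0xccc128c8342c416866c128c42cc924244126c168c48c9c2e, 0,
    0x28ca811cd244522423c11cd38892c24118138c2accd211c18492cc52884c6a], [0,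
    0x42cc6688648ca488644accce2844a482ccaa848e4e1, 0, 0x829212d418524212d81442482129c82d,
    0x829212d41891482129c4292482129c84b], [0, 0, 0, 0,
    0x819111cd2482111c5818c42941451818498ce2884a4b]]

noncomputable def n2145 : Ent := ⟨e2145, noF, [], [], []⟩

def c2145 : PLift (Cov.check n2145.C.D v2145 = true) := ⟨by decide +kernel⟩

def b2145 : PLift (entF (fidx ts) 400 2145 n2145 = true) := ⟨by decide +kernel⟩

theorem g2145 : GoodF (fidx ts) 400 2145 := GoodF.ofV v2145 n2145 c2145.down b2145.down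

/-- 4746764:1824/4 -/
noncomputable def e2146 : SCfg where
  D := {
    a := 7
    L := 10
    kp := 7
    inn := [(0, 1), (1, 0), (1, 2), (1, 3), (2, 1), (2, 3), (2, 5), (3, 1), (3, 2), (3, 4), (3, 5), (4,
      3), (4, 5), (4, 6), (5, 2), (5, 3), (5, 4), (6, 4)]
    mix := [(0, 0), (0, 1), (0, 2), (1, 0), (1, 2), (1, 3), (1, 4), (2, 2), (3, 3), (3, 5), (4, 5), (4,
      6), (4, 7), (4, 8), (5, 2), (5, 6), (5, 9), (6, 4), (6, 5), (6, 8)]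
    cl := [2, 6, 0, 1, 0, 3, 3, 7, 4, 5]
    chq := [(1, 5), (3, 4), (4, 3), (5, 1)]
    rng := [(0, 1), (0, 4), (1, 0), (1, 2), (2, 1), (2, 9), (3, 4), (3, 5), (4, 0), (4, 3), (4, 5), (4,
      8), (5, 3), (5, 4), (6, 7), (6, 9), (7, 6), (7, 8), (8, 4), (8, 7), (9, 2), (9, 6)]
    lev := [] }
  links := [[1, 7, 8, 9], [7, 0, 9, 2, 3, 10, 11], [3, 1, 9, 5], [10, 1, 2, 5, 4, 12], [12, 3, 5, 13, 14,
    15, 6], [13, 4, 3, 2, 9, 16], [12, 4, 15, 11]]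
  P := {
    a := 7
    N := 17
    nb := [898, 3725, 554, 5174, 61544, 74268, 38928, 2307, 641, 65831, 6154, 38082, 3160, 81968,
      40976, 18512, 8736]
    tri := [(0, 1, 7), (0, 1, 9), (0, 7, 8), (0, 8, 9), (1, 2, 3), (1, 2, 9), (1, 3, 10), (1, 7, 11),
      (1, 10, 11), (2, 3, 5), (2, 5, 9), (3, 4, 5), (3, 4, 12), (3, 10, 12), (4, 5, 13), (4, 6,
      12), (4, 6, 15), (4, 13, 14), (4, 14, 15), (5, 9, 16), (5, 13, 16), (6, 11, 12), (6, 11,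
      15)]
    fin := [0, 1, 1, 3, 4, 3, 1, 0, 8, 1, 10, 1, 4, 4, 14, 15, 3]
    chd := [(4, 15), (10, 3)]
    steps := [(0, 7), (1, 2), (1, 9), (1, 11), (1, 6), (3, 5), (3, 16), (4, 13), (4, 12)] }
  rep := [1, 10, 0, 4, 15, 3, 8, 14]

noncomputable def v2146 : Cov.CovD where
  P := 3
  N := 5
  pl := [0, 1, 7]
  lev := [⟨[], [], [], [2, 6], [(2, 0, [])]⟩,
    ⟨[], [(0, 0), (0, 1)], [(0, 0), (0, 1)], [2], [(2, 0, []), (3, 1, [5]), (4, 0, [])]⟩,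
    ⟨[(0, 1)], [(0, 0), (1, 0), (1, 1)], [], [], [(2, 0, [])]⟩,
    ⟨[(0, 1), (1, 2)], [(1, 0), (1, 1), (1, 3), (2, 0), (2, 1), (2, 3)], [(1, 3)], [], [(3,
      1, [5]), (5, 3, [4])]⟩,
    ⟨[(1, 3), (2, 3)], [(3, 1), (3, 3), (3, 4)], [(3, 3), (3, 4)], [7], [(5, 3, [4]), (6,
      3, [4]), (8, 4, [3])]⟩,
    ⟨[(1, 2), (1, 3), (2, 3), (2, 4), (3, 4)], [(0, 0), (1, 0), (2, 0), (2, 3), (2, 5), (3,
      0), (3, 1), (3, 3), (3, 5), (4, 0), (4, 3), (4, 4), (4, 5)], [(0, 3), (0, 5), (3, 5)],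
      [], [(2, 0, []), (6, 3, [4]), (9, 5, [1])]⟩,
    ⟨[(3, 4), (4, 5)], [(1, 0), (3, 3), (4, 0), (4, 3), (4, 4)], [(0, 3), (0, 4), (3, 4)],
      [], [(4, 0, []), (5, 3, [4]), (8, 4, [3])]⟩]
  Ta := [((2, 1), 0, 6), ((2, 9), 0, 5), ((4, 0), 0, 2), ((4, 3), 0, 1), ((4, 5), 0, 3), ((4, 8),
    0, 4), ((5, 3), 3, 1), ((5, 4), 3, 0), ((6, 7), 3, 7), ((6, 9), 3, 5)]
  Tb := [((0, 1, 4), 2, 6, 0), ((1, 0, 2), 6, 2, 0), ((2, 1, 9), 0, 6, 5), ((3, 4, 5), 1, 0, 3),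
    ((4, 0, 3), 0, 2, 1), ((4, 0, 5), 0, 2, 3), ((4, 0, 8), 0, 2, 4), ((4, 3, 5), 0, 1, 3),
    ((4, 3, 8), 0, 1, 4), ((4, 5, 8), 0, 3, 4), ((5, 3, 4), 3, 1, 0), ((6, 7, 9), 3, 7, 5),
    ((7, 6, 8), 7, 3, 4), ((8, 4, 7), 4, 0, 7), ((9, 2, 6), 5, 0, 3)]
  Tc := []
  Td := [((1, 5), (3, 4), 0), ((1, 5), (3, 5), 3), ((3, 4), (5, 3), 1), ((3, 4), (5, 4), 0), ((3,
    4), (6, 7), 7), ((3, 4), (6, 9), 5), ((4, 3), (8, 4), 0), ((4, 3), (8, 7), 7), ((5, 1),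
    (9, 2), 0), ((5, 1), (9, 6), 3)]
  G := [[0, 0, 0, 0x121221ae2f1488212116e2f184c, 0x124221ae2f148121211ae2f148a], [0, 0, 0,
    0x8242411e62f1481242181ea2f184c, 0x8212121ea2f1488242211ea2f148a], [0,
    0x42482e2984e49e242282484ea41, 0x824228e2f1242168212824224e2f588a,
    0x82a2c824224e2f522c24a81, 0x4248228a8242e2dd2428681], [0,
    0x81a121e4288141c1e284aa614c812c8d, 0x8242c2d12128a4818221a2f488a, 0x824242ce62f1481,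
    0x824248cea2f1481]]

noncomputable def n2146 : Ent := ⟨e2146, noF, [], [], [(8, 16, [1580044410770988437309982408355971841652082177953823432505697890305, 0])]⟩

def c2146 : PLift (Cov.check n2146.C.D v2146 = true) := ⟨by decide +kernel⟩

def b2146 : PLift (entF (fidx ts) 400 2146 n2146 = true) := ⟨by decide +kernel⟩

theorem g2146 : GoodF (fidx ts) 400 2146 := GoodF.ofV v2146 n2146 c2146.down b2146.down

/-- 4746764:1824 -/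
noncomputable def e2147 : SCfg where
  D := {
    a := 7
    L := 11
    kp := 8
    inn := [(0, 1), (1, 0), (1, 2), (1, 3), (2, 1), (2, 3), (2, 5), (3, 1), (3, 2), (3, 4), (3, 5), (4,
      3), (4, 5), (4, 6), (5, 2), (5, 3), (5, 4), (6, 4)]
    mix := [(0, 0), (0, 1), (0, 2), (1, 0), (1, 2), (1, 3), (1, 4), (2, 2), (3, 3), (3, 5), (4, 5), (4,
      6), (4, 7), (4, 8), (5, 2), (5, 6), (5, 9), (6, 5), (6, 8), (6, 10)]
    cl := [2, 4, 0, 0, 5, 1, 1, 6, 3, 7, 8]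
    chq := [(0, 2), (1, 3), (2, 0), (3, 1)]
    rng := [(0, 1), (0, 4), (1, 0), (1, 2), (2, 1), (2, 9), (3, 4), (3, 5), (4, 0), (4, 3), (5, 3), (5,
      10), (6, 7), (6, 9), (7, 6), (7, 8), (8, 7), (8, 10), (9, 2), (9, 6), (10, 5), (10, 8)]
    lev := [] }
  links := [[1, 7, 8, 9], [7, 0, 9, 2, 3, 10, 11], [3, 1, 9, 5], [10, 1, 2, 5, 4, 12], [12, 3, 5, 13, 14,
    15, 6], [13, 4, 3, 2, 9, 16], [12, 4, 15, 17]]
  P := {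
    a := 7
    N := 18
    nb := [898, 3725, 554, 5174, 61544, 74268, 167952, 2307, 641, 65831, 6154, 1154, 132184, 81968,
      40976, 147536, 8736, 36928]
    tri := [(0, 1, 7), (0, 1, 9), (0, 7, 8), (0, 8, 9), (1, 2, 3), (1, 2, 9), (1, 3, 10), (1, 7, 11),
      (1, 10, 11), (2, 3, 5), (2, 5, 9), (3, 4, 5), (3, 4, 12), (3, 10, 12), (4, 5, 13), (4, 6,
      12), (4, 6, 15), (4, 13, 14), (4, 14, 15), (5, 9, 16), (5, 13, 16), (6, 12, 17), (6, 15,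
      17)]
    fin := [0, 0, 0, 3, 4, 3, 4, 0, 8, 3, 3, 11, 4, 4, 14, 15, 16, 17]
    chd := [(0, 3), (4, 15)]
    steps := [(0, 1), (0, 2), (0, 7), (3, 5), (3, 9), (3, 10), (4, 6), (4, 13), (4, 12)] }
  rep := [3, 4, 0, 15, 8, 11, 14, 16, 17]

noncomputable def v2147 : Cov.CovD where
  P := 3
  N := 6
  pl := [1, 4, 7, 9, 10]
  lev := [⟨[], [], [(0, 2)], [4], [(0, 2, [0]), (2, 0, [2])]⟩,
    ⟨[], [(0, 0), (0, 2)], [(0, 0), (0, 2)], [5], [(0, 2, [0]), (2, 0, [2]), (3, 0, [2])]⟩,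
    ⟨[(0, 1)], [(0, 0), (1, 0), (1, 2)], [], [], [(2, 0, [2])]⟩,
    ⟨[(0, 1), (1, 2)], [(1, 0), (1, 1), (1, 2), (2, 0), (2, 1)], [(0, 1)], [], [(3, 0,
      [2]), (5, 1, [3])]⟩,
    ⟨[(1, 3), (2, 3)], [(3, 0), (3, 1), (3, 3)], [(1, 1), (1, 3)], [6], [(5, 1, [3]), (6,
      1, [3]), (8, 3, [1])]⟩,
    ⟨[(1, 2), (1, 3), (2, 3), (2, 4), (3, 4)], [(0, 0), (1, 0), (2, 0), (2, 1), (3, 0), (3,
      1), (4, 0), (4, 1), (4, 3)], [(0, 1)], [7], [(2, 0, [2]), (6, 1, [3])]⟩,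
    ⟨[(3, 4), (4, 5)], [(3, 1), (4, 1), (4, 3)], [(1, 3)], [8], [(5, 1, [3]), (8, 3, [1])]⟩]
  Ta := [((2, 1), 0, 4), ((2, 9), 0, 7), ((3, 4), 0, 5), ((3, 5), 0, 1), ((5, 3), 1, 0), ((5,
    10), 1, 8), ((6, 7), 1, 6), ((6, 9), 1, 7)]
  Tb := [((0, 1, 4), 2, 4, 5), ((1, 0, 2), 4, 2, 0), ((2, 1, 9), 0, 4, 7), ((3, 4, 5), 0, 5, 1),
    ((4, 0, 3), 5, 2, 0), ((5, 3, 10), 1, 0, 8), ((6, 7, 9), 1, 6, 7), ((7, 6, 8), 6, 1, 3),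
    ((8, 7, 10), 3, 6, 8), ((9, 2, 6), 7, 0, 1), ((10, 5, 8), 8, 1, 3)]
  Tc := []
  Td := [((0, 2), (2, 1), 4), ((0, 2), (2, 9), 7), ((0, 2), (3, 4), 5), ((0, 2), (3, 5), 1), ((1,
    3), (5, 3), 0), ((1, 3), (5, 10), 8), ((1, 3), (6, 7), 6), ((1, 3), (6, 9), 7), ((2, 0),
    (0, 1), 4), ((2, 0), (0, 4), 5), ((3, 1), (8, 7), 6), ((3, 1), (8, 10), 8)]
  G := [[0, 0, 0xd218d14d18ca4d2d29d24548d2d25d28c12e,
    0xd21d2d2c54d2d25d2894cd21d2d2c58d2d25d2898cc,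
    0xd21d2d2c54d21d2d2c98ad21d2d2c54d2d25d28c8aa], [0, 0,
    0x71b122cd4283161aacd82431a45b1a89c42e,
    0x66c38dacd34452daca6c563c892c66ca833cda445264a3c3acd68892cc,
    0xa3c16dc3acc5263c136caacc52ab413816dc72ccd224487429ad2cd2889caa], [0,
    0x424ee6eecaeac4e2642e2acaae4eeace8c1, 0xd2d25d28c14d2d25d28948d24d2d29c12e,
    0xd2d25d28c4d2d25d28c8c1, 0xd24d2d29c4d2d25d28c8a1], [0, 0,
    0xb1b122cd4283161aacd8246133c5a18c42e, 0xa434536ca868dc2242c65d4d8ca282894ac1,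
    0x34436ca8dacdc22443bca867cdc2a1]]

noncomputable def n2147 : Ent := ⟨e2147, noF, [], [], [(8, 16, [7334685537875745012586738086077695515070955365108989538292687702458369, 0]), (8, 17, [6903326391201334775872065844685381424292761054348340378595029938475009, 0]), (17, 11, [6903326391201334778116932359625648306653620957400551096786542324490241, 0])]⟩

def c2147 : PLift (Cov.check n2147.C.D v2147 = true) := ⟨by decide +kernel⟩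

def b2147 : PLift (entF (fidx ts) 400 2147 n2147 = true) := ⟨by decide +kernel⟩

theorem g2147 : GoodF (fidx ts) 400 2147 := GoodF.ofV v2147 n2147 c2147.down b2147.down

/-- 4747484:1828/1 -/
noncomputable def e2148 : SCfg where
  D := {
    a := 7
    L := 10
    kp := 7
    inn := [(0, 1), (1, 0), (1, 2), (1, 3), (1, 5), (2, 1), (2, 3), (3, 1), (3, 2), (3, 4), (3, 5), (4,
      3), (4, 5), (5, 1), (5, 3), (5, 4), (5, 6), (6, 5)]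
    mix := [(0, 0), (0, 1), (0, 2), (1, 0), (1, 2), (1, 3), (2, 2), (2, 4), (3, 4), (3, 5), (3, 6), (4,
      6), (4, 7), (5, 3), (5, 7), (5, 8), (5, 9), (6, 1), (6, 7), (6, 8)]
    cl := [1, 2, 0, 0, 5, 7, 4, 3, 6, 3]
    chq := [(0, 4), (0, 7), (4, 0), (7, 0)]
    rng := [(0, 1), (0, 3), (1, 0), (1, 2), (1, 7), (1, 8), (2, 1), (2, 4), (3, 0), (3, 9), (4, 2), (4,
      5), (5, 4), (5, 6), (6, 5), (6, 7), (7, 1), (7, 6), (8, 1), (8, 9), (9, 3), (9, 8)]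
    lev := [] }
  links := [[1, 7, 8, 9], [7, 0, 9, 2, 3, 5, 10], [3, 1, 9, 11], [5, 1, 2, 11, 12, 13, 4], [5, 3, 13,
    14], [10, 1, 3, 4, 14, 6, 15, 16], [15, 5, 14, 8]]
  P := {
    a := 7
    N := 17
    nb := [898, 1709, 2570, 14390, 24616, 115802, 49440, 1283, 49857, 2311, 65698, 4620, 10248, 20504,
      8560, 65888, 33824]
    tri := [(0, 1, 7), (0, 1, 9), (0, 7, 8), (0, 8, 9), (1, 2, 3), (1, 2, 9), (1, 3, 5), (1, 5, 10),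
      (1, 7, 10), (2, 3, 11), (2, 9, 11), (3, 4, 5), (3, 4, 13), (3, 11, 12), (3, 12, 13), (4, 5,
      14), (4, 13, 14), (5, 6, 14), (5, 6, 15), (5, 10, 16), (5, 15, 16), (6, 8, 14), (6, 8, 15)]
    fin := [0, 1, 1, 1, 1, 5, 6, 0, 6, 1, 1, 11, 12, 13, 5, 15, 5]
    chd := [(1, 12), (1, 13)]
    steps := [(0, 7), (1, 2), (1, 3), (1, 4), (1, 9), (1, 10), (5, 14), (5, 16), (6, 8)] }
  rep := [1, 0, 6, 5, 13, 11, 15, 12]

noncomputable def v2148 : Cov.CovD where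
  P := 3
  N := 5
  pl := [0, 1, 4, 8]
  lev := [⟨[], [], [], [1, 2], [(2, 0, [4, 7])]⟩,
    ⟨[], [(0, 0)], [(0, 0)], [1], [(2, 0, [4, 7]), (3, 0, [4, 7])]⟩,
    ⟨[(0, 1)], [(0, 0), (1, 0)], [], [5], [(2, 0, [4, 7])]⟩,
    ⟨[(0, 1), (1, 2)], [(1, 0), (1, 4), (1, 7), (2, 0), (2, 4), (2, 7)], [(4, 7)], [5],
      [(5, 7, [0]), (6, 4, [0])]⟩,
    ⟨[(1, 3), (2, 3)], [(3, 3), (3, 4), (3, 7)], [(3, 4)], [], [(6, 4, [0]), (7, 3, [])]⟩,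
    ⟨[(0, 1), (1, 2), (1, 3), (1, 4), (2, 3), (3, 4)], [(1, 0), (1, 3), (3, 0), (3, 3), (3,
      4), (3, 7), (4, 0), (4, 3), (4, 4)], [(0, 3), (3, 3)], [6], [(3, 0, [4, 7]), (7, 3,
      []), (9, 3, [])]⟩,
    ⟨[(1, 5), (3, 5), (4, 5)], [(4, 3), (5, 0), (5, 3)], [], [2, 6], [(7, 3, [])]⟩]
  Ta := [((2, 1), 0, 2), ((2, 4), 0, 5), ((3, 0), 0, 1), ((3, 9), 0, 3), ((7, 1), 3, 2), ((7, 6),
    3, 4), ((9, 3), 3, 0), ((9, 8), 3, 6)]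
  Tb := [((0, 1, 3), 1, 2, 0), ((1, 0, 2), 2, 1, 0), ((1, 0, 7), 2, 1, 3), ((1, 0, 8), 2, 1, 6),
    ((1, 2, 7), 2, 0, 3), ((1, 2, 8), 2, 0, 6), ((1, 7, 8), 2, 3, 6), ((2, 1, 4), 0, 2, 5),
    ((3, 0, 9), 0, 1, 3), ((4, 2, 5), 5, 0, 7), ((5, 4, 6), 7, 5, 4), ((6, 5, 7), 4, 7, 3),
    ((7, 1, 6), 3, 2, 4), ((8, 1, 9), 6, 2, 3), ((9, 3, 8), 3, 0, 6)]
  Tc := [(0, 4, 7)]
  Td := [((0, 4), (2, 1), 2), ((0, 4), (2, 4), 5), ((0, 4), (3, 0), 1), ((0, 4), (3, 9), 3), ((0,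
    7), (2, 1), 2), ((0, 7), (2, 4), 5), ((0, 7), (3, 0), 1), ((0, 7), (3, 9), 3), ((4, 0),
    (6, 5), 7), ((4, 0), (6, 7), 3), ((7, 0), (5, 4), 5), ((7, 0), (5, 6), 4)]
  G := [[0, 0, 0x441142611682a118811ac4, 0xd212d2149625429251ed2188c4,
    0x22114121267514146926188112118812e9f81888183c1881fac8], [0, 0, 0x642e11642e11684,
    0x521c21652816c21c2298c8, 0x12681812454681c18631212e1212184d882bac8], [0,
    0x841e11841e11c28, 0, 0x9252d2e19252d2e1a44, 0x141419261181283cb983c112812e3382a14bc8],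
    [0, 0x481e11819e11a48, 0, 0x924192215281e48, 0x12681ca112681ca1a41]]

noncomputable def n2148 : Ent := ⟨e2148, noF, [], [], []⟩

def c2148 : PLift (Cov.check n2148.C.D v2148 = true) := ⟨by decide +kernel⟩

def b2148 : PLift (entF (fidx ts) 400 2148 n2148 = true) := ⟨by decide +kernel⟩

theorem g2148 : GoodF (fidx ts) 400 2148 := GoodF.ofV v2148 n2148 c2148.down b2148.down

/-- 4747484:1828 -/
noncomputable def e2149 : SCfg where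
  D := {
    a := 7
    L := 11
    kp := 8
    inn := [(0, 1), (1, 0), (1, 2), (1, 3), (1, 5), (2, 1), (2, 3), (3, 1), (3, 2), (3, 4), (3, 5), (4,
      3), (4, 5), (5, 1), (5, 3), (5, 4), (5, 6), (6, 5)]
    mix := [(0, 0), (0, 1), (0, 2), (1, 0), (1, 2), (1, 3), (2, 2), (2, 4), (3, 4), (3, 5), (3, 6), (4,
      6), (4, 7), (5, 3), (5, 7), (5, 8), (5, 9), (6, 7), (6, 8), (6, 10)]
    cl := [1, 7, 0, 0, 2, 6, 4, 3, 5, 3, 8]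
    chq := [(0, 4), (0, 6), (4, 0), (6, 0)]
    rng := [(0, 1), (0, 3), (1, 0), (1, 2), (2, 1), (2, 4), (3, 0), (3, 9), (4, 2), (4, 5), (5, 4), (5,
      6), (6, 5), (6, 7), (7, 6), (7, 10), (8, 9), (8, 10), (9, 3), (9, 8), (10, 7), (10, 8)]
    lev := [] }
  links := [[1, 7, 8, 9], [7, 0, 9, 2, 3, 5, 10], [3, 1, 9, 11], [5, 1, 2, 11, 12, 13, 4], [5, 3, 13,
    14], [10, 1, 3, 4, 14, 6, 15, 16], [15, 5, 14, 17]]
  P := {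
    a := 7
    N := 18
    nb := [898, 1709, 2570, 14390, 24616, 115802, 180256, 1283, 641, 2311, 65698, 4620, 10248, 20504,
      139376, 196704, 33824, 49216]
    tri := [(0, 1, 7), (0, 1, 9), (0, 7, 8), (0, 8, 9), (1, 2, 3), (1, 2, 9), (1, 3, 5), (1, 5, 10),
      (1, 7, 10), (2, 3, 11), (2, 9, 11), (3, 4, 5), (3, 4, 13), (3, 11, 12), (3, 12, 13), (4, 5,
      14), (4, 13, 14), (5, 6, 14), (5, 6, 15), (5, 10, 16), (5, 15, 16), (6, 14, 17), (6, 15,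
      17)]
    fin := [0, 1, 1, 1, 1, 5, 5, 0, 8, 1, 1, 11, 12, 13, 5, 15, 5, 17]
    chd := [(1, 12), (1, 13)]
    steps := [(0, 7), (1, 2), (1, 3), (1, 4), (1, 9), (1, 10), (5, 6), (5, 14), (5, 16)] }
  rep := [1, 0, 11, 5, 13, 15, 12, 8, 17]

noncomputable def v2149 : Cov.CovD where
  P := 3
  N := 6
  pl := [0, 1, 4, 8, 10]
  lev := [⟨[], [], [], [1, 7], [(2, 0, [4, 6])]⟩,
    ⟨[], [(0, 0)], [(0, 0)], [1], [(2, 0, [4, 6]), (3, 0, [4, 6])]⟩,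
    ⟨[(0, 1)], [(0, 0), (1, 0)], [], [2], [(2, 0, [4, 6])]⟩,
    ⟨[(0, 1), (1, 2)], [(1, 0), (1, 4), (1, 6), (2, 0), (2, 4), (2, 6)], [(4, 6)], [2],
      [(5, 6, [0]), (6, 4, [0])]⟩,
    ⟨[(1, 3), (2, 3)], [(3, 3), (3, 4), (3, 6)], [(3, 4)], [], [(6, 4, [0]), (7, 3, [])]⟩,
    ⟨[(0, 1), (1, 2), (1, 3), (1, 4), (2, 3), (3, 4)], [(1, 0), (1, 3), (3, 0), (3, 3), (3,
      4), (3, 6), (4, 0), (4, 3), (4, 4)], [(0, 3), (3, 3)], [5], [(3, 0, [4, 6]), (7, 3,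
      []), (9, 3, [])]⟩,
    ⟨[(1, 5), (3, 5), (4, 5)], [(4, 3), (5, 0), (5, 3)], [], [5, 8], [(7, 3, [])]⟩]
  Ta := [((2, 1), 0, 7), ((2, 4), 0, 2), ((3, 0), 0, 1), ((3, 9), 0, 3), ((7, 6), 3, 4), ((7,
    10), 3, 8), ((9, 3), 3, 0), ((9, 8), 3, 5)]
  Tb := [((0, 1, 3), 1, 7, 0), ((1, 0, 2), 7, 1, 0), ((2, 1, 4), 0, 7, 2), ((3, 0, 9), 0, 1, 3),
    ((4, 2, 5), 2, 0, 6), ((5, 4, 6), 6, 2, 4), ((6, 5, 7), 4, 6, 3), ((7, 6, 10), 3, 4, 8),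
    ((8, 9, 10), 5, 3, 8), ((9, 3, 8), 3, 0, 5), ((10, 7, 8), 8, 3, 5)]
  Tc := [(0, 4, 6)]
  Td := [((0, 4), (2, 1), 7), ((0, 4), (2, 4), 2), ((0, 4), (3, 0), 1), ((0, 4), (3, 9), 3), ((0,
    6), (2, 1), 7), ((0, 6), (2, 4), 2), ((0, 6), (3, 0), 1), ((0, 6), (3, 9), 3), ((4, 0),
    (6, 5), 6), ((4, 0), (6, 7), 3), ((6, 0), (5, 4), 2), ((6, 0), (5, 6), 4)]
  G := [[0, 0, 0x411457416221b1a32c1414159fefd7a1c6cd41814c38159bef741e221b1a32811ba98acc,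
    0x145365141898918c14545141893a918c4144db618cd7a148188ccd,
    0x53611298112c5411293a118cdb61441a221b31e318838188acd], [0, 0,
    0xa4142ac6163a19ace1e6188ac53616a3e125c1e24182326818acc,
    0x536546a142898c14c845461493a98a618cc, 0x536236c129898618c5424c1293a98a618cc], [0,
    0x53611498118a93a118541186c, 0, 0x41725941459644f58d814c12295893a99cc1,
    0x21f431454538b834118dd7ab1a93a792c1], [0, 0x95ce11826ace1184a, 0, 0x8365866184898a18c1,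
    0x5424c1893a98a612c1]]

noncomputable def n2149 : Ent := ⟨e2149, noF, [], [], [(8, 17, [6903326391201334775872065844685381424292761054348340378595029938487297, 0])]⟩

def c2149 : PLift (Cov.check n2149.C.D v2149 = true) := ⟨by decide +kernel⟩

def b2149 : PLift (entF (fidx ts) 400 2149 n2149 = true) := ⟨by decide +kernel⟩

theorem g2149 : GoodF (fidx ts) 400 2149 := GoodF.ofV v2149 n2149 c2149.down b2149.down

/-- 4694464:1831/2 -/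
noncomputable def e2150 : SCfg where
  D := {
    a := 7
    L := 8
    kp := 5
    inn := [(0, 1), (0, 2), (0, 5), (1, 0), (1, 5), (2, 0), (2, 3), (2, 4), (2, 5), (2, 6), (3, 2), (4,
      2), (5, 0), (5, 1), (5, 2), (5, 6), (6, 2), (6, 5)]
    mix := [(0, 0), (1, 0), (1, 1), (1, 2), (1, 3), (2, 0), (2, 4), (2, 5), (2, 6), (3, 2), (3, 4), (3,
      5), (4, 0), (4, 1), (4, 6), (5, 3), (5, 7), (6, 4), (6, 7)]
    cl := [0, 1, 2, 0, 3, 4, 3, 5]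
    chq := [(0, 3), (3, 0)]
    rng := [(0, 1), (1, 0), (1, 2), (1, 6), (2, 1), (2, 3), (2, 4), (2, 5), (3, 2), (3, 7), (4, 2), (4,
      7), (5, 2), (5, 6), (6, 1), (6, 5), (7, 3), (7, 4)]
    lev := [] }
  links := [[1, 5, 2, 7], [5, 0, 7, 8, 9, 10], [7, 0, 5, 6, 11, 3, 12, 13, 4], [12, 2, 11, 9], [7, 2, 13,
    8], [6, 2, 0, 1, 10, 14], [11, 2, 5, 14]]
  P := {
    a := 7
    N := 15
    nb := [166, 1953, 14585, 6660, 8580, 17479, 18468, 279, 8850, 7434, 16930, 16972, 8716, 4372,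
      3168]
    tri := [(0, 1, 5), (0, 1, 7), (0, 2, 5), (0, 2, 7), (1, 5, 10), (1, 7, 8), (1, 8, 9), (1, 9, 10),
      (2, 3, 11), (2, 3, 12), (2, 4, 7), (2, 4, 13), (2, 5, 6), (2, 6, 11), (2, 12, 13), (3, 9,
      11), (3, 9, 12), (4, 7, 8), (4, 8, 13), (5, 6, 14), (5, 10, 14), (6, 11, 14)]
    fin := [0, 0, 2, 3, 0, 0, 0, 0, 8, 3, 0, 2, 12, 2, 14]
    chd := [(0, 2)]
    steps := [(0, 1), (0, 5), (0, 6), (0, 7), (0, 4), (0, 10), (2, 11), (2, 13), (3, 9)] }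
  rep := [0, 8, 3, 2, 12, 14]

noncomputable def v2150 : Cov.CovD where
  P := 3
  N := 3
  pl := [1, 2, 5, 7]
  lev := [⟨[], [], [], [], [(0, 0, [3])]⟩,
    ⟨[], [(0, 0)], [(0, 0)], [1, 2], [(0, 0, [3]), (3, 0, [3])]⟩,
    ⟨[(0, 1)], [(0, 0), (0, 3), (1, 0)], [(0, 3), (3, 3)], [4], [(0, 0, [3]), (4, 3, [0]),
      (6, 3, [0])]⟩,
    ⟨[(0, 2)], [(2, 0), (2, 3)], [], [2, 4], [(4, 3, [0])]⟩,
    ⟨[(0, 2), (2, 3)], [(0, 0), (1, 0), (2, 0), (2, 3)], [(0, 3)], [1], [(0, 0, [3]), (6,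
      3, [0])]⟩,
    ⟨[(0, 1), (0, 2), (1, 2), (2, 3), (2, 4)], [(0, 0), (1, 0), (2, 0), (2, 3)], [], [5],
      [(3, 0, [3])]⟩,
    ⟨[(0, 2), (0, 5), (1, 5), (2, 3), (2, 4), (2, 5)], [(2, 0), (2, 3), (3, 3), (5, 0), (5,
      3)], [], [5], [(4, 3, [0])]⟩]
  Ta := [((0, 1), 0, 1), ((3, 2), 0, 2), ((3, 7), 0, 5), ((4, 2), 3, 2), ((4, 7), 3, 5), ((6, 1),
    3, 1), ((6, 5), 3, 4)]
  Tb := [((1, 0, 2), 1, 0, 2), ((1, 0, 6), 1, 0, 3), ((1, 2, 6), 1, 2, 3), ((2, 1, 3), 2, 1, 0),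
    ((2, 1, 4), 2, 1, 3), ((2, 1, 5), 2, 1, 4), ((2, 3, 4), 2, 0, 3), ((2, 3, 5), 2, 0, 4),
    ((2, 4, 5), 2, 3, 4), ((3, 2, 7), 0, 2, 5), ((4, 2, 7), 3, 2, 5), ((5, 2, 6), 4, 2, 3),
    ((6, 1, 5), 3, 1, 4), ((7, 3, 4), 5, 0, 3)]
  Tc := []
  Td := [((0, 3), (0, 1), 1), ((0, 3), (3, 2), 2), ((0, 3), (3, 7), 5), ((3, 0), (4, 2), 2), ((3,
    0), (4, 7), 5), ((3, 0), (6, 1), 1), ((3, 0), (6, 5), 4)]
  G := [[0, 0x1162811a2411c81e82, 0, 0x1258614e18d248, 0x144812a8111c82e84], [0,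
    0xc1212441281824c86, 0, 0x4118c4181c9248, 0xa141814268128288c], [0, 0,
    0x144282644268228e388, 0x186841683161d288, 0x1264812a1159c82e84], [0, 0,
    0x11c12241161811a14c8a, 0x3161a181659288, 0x4258119a426848d82]]

noncomputable def n2150 : Ent := ⟨e2150, noF, [], [], []⟩

def c2150 : PLift (Cov.check n2150.C.D v2150 = true) := ⟨by decide +kernel⟩

def b2150 : PLift (entF (fidx ts) 400 2150 n2150 = true) := ⟨by decide +kernel⟩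

theorem g2150 : GoodF (fidx ts) 400 2150 := GoodF.ofV v2150 n2150 c2150.down b2150.down

/-- 4694464:1831/1 -/
noncomputable def e2151 : SCfg where
  D := {
    a := 7
    L := 9
    kp := 6
    inn := [(0, 1), (0, 2), (0, 5), (1, 0), (1, 5), (2, 0), (2, 3), (2, 4), (2, 5), (2, 6), (3, 2), (4,
      2), (5, 0), (5, 1), (5, 2), (5, 6), (6, 2), (6, 5)]
    mix := [(0, 0), (1, 0), (1, 1), (1, 2), (1, 3), (2, 0), (2, 4), (2, 5), (2, 6), (3, 4), (3, 5), (3,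
      7), (4, 0), (4, 1), (4, 6), (5, 3), (5, 8), (6, 4), (6, 8)]
    cl := [0, 3, 5, 0, 1, 2, 1, 6, 4]
    chq := [(0, 1), (1, 0)]
    rng := [(0, 1), (1, 0), (1, 2), (1, 6), (2, 1), (2, 3), (3, 2), (3, 8), (4, 7), (4, 8), (5, 6), (5,
      7), (6, 1), (6, 5), (7, 4), (7, 5), (8, 3), (8, 4)]
    lev := [] }
  links := [[1, 5, 2, 7], [5, 0, 7, 8, 9, 10], [7, 0, 5, 6, 11, 3, 12, 13, 4], [12, 2, 11, 14], [7, 2,
    13, 8], [6, 2, 0, 1, 10, 15], [11, 2, 5, 15]]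
  P := {
    a := 7
    N := 16
    nb := [166, 1953, 14585, 22532, 8580, 33863, 34852, 279, 8850, 1282, 33314, 49228, 24588, 4372,
      6152, 3168]
    tri := [(0, 1, 5), (0, 1, 7), (0, 2, 5), (0, 2, 7), (1, 5, 10), (1, 7, 8), (1, 8, 9), (1, 9, 10),
      (2, 3, 11), (2, 3, 12), (2, 4, 7), (2, 4, 13), (2, 5, 6), (2, 6, 11), (2, 12, 13), (3, 11,
      14), (3, 12, 14), (4, 7, 8), (4, 8, 13), (5, 6, 15), (5, 10, 15), (6, 11, 15)]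
    fin := [0, 0, 2, 2, 0, 0, 0, 0, 8, 9, 0, 2, 12, 2, 14, 15]
    chd := [(0, 2)]
    steps := [(0, 1), (0, 5), (0, 6), (0, 7), (0, 4), (0, 10), (2, 3), (2, 11), (2, 13)] }
  rep := [0, 2, 12, 8, 15, 9, 14]

noncomputable def v2151 : Cov.CovD where
  P := 3
  N := 4
  pl := [1, 2, 5, 7, 8]
  lev := [⟨[], [], [], [], [(0, 0, [1])]⟩,
    ⟨[], [(0, 0)], [(0, 0)], [3, 5], [(0, 0, [1]), (3, 0, [1])]⟩,
    ⟨[(0, 1)], [(0, 0), (0, 1), (1, 0)], [(0, 1), (1, 1)], [2], [(0, 0, [1]), (4, 1, [0]),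
      (6, 1, [0])]⟩,
    ⟨[(0, 2)], [(2, 0), (2, 1)], [], [2, 6], [(4, 1, [0])]⟩,
    ⟨[(0, 2), (2, 3)], [(0, 0), (1, 0), (2, 0), (2, 1)], [(0, 1)], [3], [(0, 0, [1]), (6,
      1, [0])]⟩,
    ⟨[(0, 1), (0, 2), (1, 2), (2, 3), (2, 4)], [(0, 0), (1, 0), (2, 0), (2, 1)], [], [4],
      [(3, 0, [1])]⟩,
    ⟨[(0, 2), (0, 5), (1, 5), (2, 3), (2, 4), (2, 5)], [(2, 0), (2, 1), (3, 1), (5, 0), (5,
      1)], [], [4], [(4, 1, [0])]⟩]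
  Ta := [((0, 1), 0, 3), ((3, 2), 0, 5), ((3, 8), 0, 4), ((4, 7), 1, 6), ((4, 8), 1, 4), ((6, 1),
    1, 3), ((6, 5), 1, 2)]
  Tb := [((1, 0, 2), 3, 0, 5), ((1, 0, 6), 3, 0, 1), ((1, 2, 6), 3, 5, 1), ((2, 1, 3), 5, 3, 0),
    ((3, 2, 8), 0, 5, 4), ((4, 7, 8), 1, 6, 4), ((5, 6, 7), 2, 1, 6), ((6, 1, 5), 1, 3, 2),
    ((7, 4, 5), 6, 1, 2), ((8, 3, 4), 4, 0, 1)]
  Tc := []
  Td := [((0, 1), (0, 1), 3), ((0, 1), (3, 2), 5), ((0, 1), (3, 8), 4), ((1, 0), (4, 7), 6), ((1,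
    0), (4, 8), 4), ((1, 0), (6, 1), 3), ((1, 0), (6, 5), 2)]
  G := [[0, 0x61818a1418a1214e4, 0x1162c12c814341494c8143211a2c8e4, 0,
    0x14321432981432c14981162c1298e4], [0, 0x61818a1414c1218e2, 0x12824124241212c24e8,
    0x12812894214214582121c2112c58e4, 0x12828124281212c28e4], [0, 0x61814a141461218e8,
    0x4168481628c81a281a2c441628162c8e1, 0, 0x1864184a489441624168984162416298a3], [0,
    0xc1814a141461218e8, 0x521245212852124e8, 0x92192894521c24c892121a158e4,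
    0x92128c242152128e4]]

noncomputable def n2151 : Ent := ⟨e2151, noF, [], [], [(9, 14, [385746751338780685620664494392815470296102193487288376381300737, 0])]⟩

def c2151 : PLift (Cov.check n2151.C.D v2151 = true) := ⟨by decide +kernel⟩

def b2151 : PLift (entF (fidx ts) 400 2151 n2151 = true) := ⟨by decide +kernel⟩

theorem g2151 : GoodF (fidx ts) 400 2151 := GoodF.ofV v2151 n2151 c2151.down b2151.down

/-- 4694464:1831/3 -/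
noncomputable def e2152 : SCfg where
  D := {
    a := 7
    L := 9
    kp := 6
    inn := [(0, 1), (0, 2), (0, 5), (1, 0), (1, 5), (2, 0), (2, 3), (2, 4), (2, 5), (2, 6), (3, 2), (4,
      2), (5, 0), (5, 1), (5, 2), (5, 6), (6, 2), (6, 5)]
    mix := [(0, 0), (1, 0), (1, 1), (1, 2), (1, 3), (2, 0), (2, 4), (2, 5), (2, 6), (3, 2), (3, 4), (3,
      5), (4, 0), (4, 6), (4, 7), (5, 3), (5, 8), (6, 4), (6, 8)]
    cl := [0, 5, 2, 0, 1, 3, 1, 6, 4]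
    chq := [(0, 1), (1, 0)]
    rng := [(0, 1), (0, 7), (1, 0), (1, 2), (2, 1), (2, 3), (2, 4), (2, 5), (3, 2), (3, 8), (4, 2), (4,
      8), (5, 2), (5, 6), (6, 5), (6, 7), (7, 0), (7, 6), (8, 3), (8, 4)]
    lev := [] }
  links := [[1, 5, 2, 7], [5, 0, 7, 8, 9, 10], [7, 0, 5, 6, 11, 3, 12, 13, 4], [12, 2, 11, 9], [7, 2, 13,
    14], [6, 2, 0, 1, 10, 15], [11, 2, 5, 15]]
  P := {
    a := 7
    N := 16
    nb := [166, 1953, 14585, 6660, 24708, 33863, 34852, 16663, 642, 7434, 33314, 33356, 8716, 20500,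
      8336, 3168]
    tri := [(0, 1, 5), (0, 1, 7), (0, 2, 5), (0, 2, 7), (1, 5, 10), (1, 7, 8), (1, 8, 9), (1, 9, 10),
      (2, 3, 11), (2, 3, 12), (2, 4, 7), (2, 4, 13), (2, 5, 6), (2, 6, 11), (2, 12, 13), (3, 9,
      11), (3, 9, 12), (4, 7, 14), (4, 13, 14), (5, 6, 15), (5, 10, 15), (6, 11, 15)]
    fin := [0, 0, 2, 3, 0, 0, 0, 0, 8, 3, 0, 2, 12, 2, 14, 15]
    chd := [(0, 2)]
    steps := [(0, 1), (0, 5), (0, 6), (0, 7), (0, 4), (0, 10), (2, 11), (2, 13), (3, 9)] }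
  rep := [0, 2, 3, 12, 15, 8, 14]

noncomputable def v2152 : Cov.CovD where
  P := 3
  N := 4
  pl := [1, 2, 5, 7, 8]
  lev := [⟨[], [], [], [], [(0, 0, [1])]⟩,
    ⟨[], [(0, 0)], [(0, 0)], [2, 5], [(0, 0, [1]), (3, 0, [1])]⟩,
    ⟨[(0, 1)], [(0, 0), (0, 1), (1, 0)], [(0, 1), (1, 1)], [3], [(0, 0, [1]), (4, 1, [0]),
      (6, 1, [0])]⟩,
    ⟨[(0, 2)], [(2, 0), (2, 1)], [], [2, 3], [(4, 1, [0])]⟩,
    ⟨[(0, 2), (2, 3)], [(0, 0), (1, 0), (2, 0), (2, 1)], [(0, 1)], [6], [(0, 0, [1]), (6,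
      1, [0])]⟩,
    ⟨[(0, 1), (0, 2), (1, 2), (2, 3), (2, 4)], [(0, 0), (1, 0), (2, 0), (2, 1)], [], [4],
      [(3, 0, [1])]⟩,
    ⟨[(0, 2), (0, 5), (1, 5), (2, 3), (2, 4), (2, 5)], [(2, 0), (2, 1), (3, 1), (5, 0), (5,
      1)], [], [4], [(4, 1, [0])]⟩]
  Ta := [((0, 1), 0, 5), ((0, 7), 0, 6), ((3, 2), 0, 2), ((3, 8), 0, 4), ((4, 2), 1, 2), ((4, 8),
    1, 4), ((6, 5), 1, 3), ((6, 7), 1, 6)]
  Tb := [((0, 1, 7), 0, 5, 6), ((1, 0, 2), 5, 0, 2), ((2, 1, 3), 2, 5, 0), ((2, 1, 4), 2, 5, 1),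
    ((2, 1, 5), 2, 5, 3), ((2, 3, 4), 2, 0, 1), ((2, 3, 5), 2, 0, 3), ((2, 4, 5), 2, 1, 3),
    ((3, 2, 8), 0, 2, 4), ((4, 2, 8), 1, 2, 4), ((5, 2, 6), 3, 2, 1), ((6, 5, 7), 1, 3, 6),
    ((7, 0, 6), 6, 0, 1), ((8, 3, 4), 4, 0, 1)]
  Tc := []
  Td := [((0, 1), (0, 1), 5), ((0, 1), (0, 7), 6), ((0, 1), (3, 2), 2), ((0, 1), (3, 8), 4), ((1,
    0), (4, 2), 2), ((1, 0), (4, 8), 4), ((1, 0), (6, 5), 3), ((1, 0), (6, 7), 6)]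
  G := [[0, 0x61c16161c1c1a61a1c1c1c161ac4, 0, 0x12281224c12281221cc2,
    0x1162811a21c1432818321ca4], [0, 0xa1a1a1a161c1661243a1c1a1c1ac4, 0, 0,
    0x1212c2412821434a1221c1812412838ac], [0, 0xc121a1816141e61616861a1c1ac4,
    0x1162811a24c84c284c2c1a2, 0x9224c22859214c2285c8, 0x1562819a21c1562881a21ca4], [0,
    0xa1a1a4812144e1661616161c1a1ac8, 0x12181214c12181214cc2, 0, 0x216189212c52189211ca4]]

noncomputable def n2152 : Ent := ⟨e2152, noF, [], [], [(8, 14, [385746751338780685620664494392815470296102193487288376381300737, 0])]⟩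

def c2152 : PLift (Cov.check n2152.C.D v2152 = true) := ⟨by decide +kernel⟩

def b2152 : PLift (entF (fidx ts) 400 2152 n2152 = true) := ⟨by decide +kernel⟩

theorem g2152 : GoodF (fidx ts) 400 2152 := GoodF.ofV v2152 n2152 c2152.down b2152.down

/-- 4694464:1831 -/
noncomputable def e2153 : SCfg where
  D := {
    a := 7
    L := 10
    kp := 7
    inn := [(0, 1), (0, 2), (0, 5), (1, 0), (1, 5), (2, 0), (2, 3), (2, 4), (2, 5), (2, 6), (3, 2), (4,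
      2), (5, 0), (5, 1), (5, 2), (5, 6), (6, 2), (6, 5)]
    mix := [(0, 0), (1, 0), (1, 1), (1, 2), (1, 3), (2, 0), (2, 4), (2, 5), (2, 6), (3, 4), (3, 5), (3,
      7), (4, 0), (4, 6), (4, 8), (5, 3), (5, 9), (6, 4), (6, 9)]
    cl := [0, 4, 5, 0, 1, 2, 1, 6, 7, 3]
    chq := [(0, 1), (1, 0)]
    rng := [(0, 1), (0, 8), (1, 0), (1, 2), (2, 1), (2, 3), (3, 2), (3, 9), (4, 7), (4, 9), (5, 6), (5,
      7), (6, 5), (6, 8), (7, 4), (7, 5), (8, 0), (8, 6), (9, 3), (9, 4)]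
    lev := [] }
  links := [[1, 5, 2, 7], [5, 0, 7, 8, 9, 10], [7, 0, 5, 6, 11, 3, 12, 13, 4], [12, 2, 11, 14], [7, 2,
    13, 15], [6, 2, 0, 1, 10, 16], [11, 2, 5, 16]]
  P := {
    a := 7
    N := 17
    nb := [166, 1953, 14585, 22532, 41092, 66631, 67620, 33047, 642, 1282, 66082, 81996, 24588, 36884,
      6152, 8336, 3168]
    tri := [(0, 1, 5), (0, 1, 7), (0, 2, 5), (0, 2, 7), (1, 5, 10), (1, 7, 8), (1, 8, 9), (1, 9, 10),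
      (2, 3, 11), (2, 3, 12), (2, 4, 7), (2, 4, 13), (2, 5, 6), (2, 6, 11), (2, 12, 13), (3, 11,
      14), (3, 12, 14), (4, 7, 15), (4, 13, 15), (5, 6, 16), (5, 10, 16), (6, 11, 16)]
    fin := [0, 0, 2, 2, 0, 0, 0, 0, 8, 9, 0, 2, 12, 2, 14, 15, 16]
    chd := [(0, 2)]
    steps := [(0, 1), (0, 5), (0, 6), (0, 7), (0, 4), (0, 10), (2, 3), (2, 11), (2, 13)] }
  rep := [0, 2, 12, 16, 8, 9, 14, 15]

noncomputable def v2153 : Cov.CovD where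
  P := 3
  N := 5
  pl := [1, 2, 5, 7, 8, 9]
  lev := [⟨[], [], [], [], [(0, 0, [1])]⟩,
    ⟨[], [(0, 0)], [(0, 0)], [4, 5], [(0, 0, [1]), (3, 0, [1])]⟩,
    ⟨[(0, 1)], [(0, 0), (0, 1), (1, 0)], [(0, 1), (1, 1)], [2], [(0, 0, [1]), (4, 1, [0]),
      (6, 1, [0])]⟩,
    ⟨[(0, 2)], [(2, 0), (2, 1)], [], [2, 6], [(4, 1, [0])]⟩,
    ⟨[(0, 2), (2, 3)], [(0, 0), (1, 0), (2, 0), (2, 1)], [(0, 1)], [7], [(0, 0, [1]), (6,
      1, [0])]⟩,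
    ⟨[(0, 1), (0, 2), (1, 2), (2, 3), (2, 4)], [(0, 0), (1, 0), (2, 0), (2, 1)], [], [3],
      [(3, 0, [1])]⟩,
    ⟨[(0, 2), (0, 5), (1, 5), (2, 3), (2, 4), (2, 5)], [(2, 0), (2, 1), (3, 1), (5, 0), (5,
      1)], [], [3], [(4, 1, [0])]⟩]
  Ta := [((0, 1), 0, 4), ((0, 8), 0, 7), ((3, 2), 0, 5), ((3, 9), 0, 3), ((4, 7), 1, 6), ((4, 9),
    1, 3), ((6, 5), 1, 2), ((6, 8), 1, 7)]
  Tb := [((0, 1, 8), 0, 4, 7), ((1, 0, 2), 4, 0, 5), ((2, 1, 3), 5, 4, 0), ((3, 2, 9), 0, 5, 3),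
    ((4, 7, 9), 1, 6, 3), ((5, 6, 7), 2, 1, 6), ((6, 5, 8), 1, 2, 7), ((7, 4, 5), 6, 1, 2),
    ((8, 0, 6), 7, 0, 1), ((9, 3, 4), 3, 0, 1)]
  Tc := []
  Td := [((0, 1), (0, 1), 4), ((0, 1), (0, 8), 7), ((0, 1), (3, 2), 5), ((0, 1), (3, 9), 3), ((1,
    0), (4, 7), 6), ((1, 0), (4, 9), 3), ((1, 0), (6, 5), 2), ((1, 0), (6, 8), 7)]
  G := [[0, 0xa1a1a1461c1a18c161618e4, 0x1162c12c8143241a2c811c2418328ce4, 0,
    0x1432c12981432c12981432186298e4], [0, 0xa16161461a1c18c1a1a14e2,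
    0x1212c281212c281212c28e4, 0x2112c1212c942112c1212c582121c2121c58e2,
    0x1212c281212c28a1212c2846], [0, 0xa1a161861c161861829c14e2,
    0x41624862c841a2481a28c416214c2c8e1, 0, 0x14a2184a28944162416298416241a298a3], [0,
    0xa1a1614882141e1442561a18e2, 0x921249212852128e4, 0x921c2154c215219422c182c194e2,
    0x9212852128c2128e4]]

noncomputable def n2153 : Ent := ⟨e2153, noF, [], [], [(8, 15, [1685356702439545624007900436039642273970977273354372543760008900609, 0]), (9, 14, [1685382413448253767852309107433119732572617628602273068445373726721, 0])]⟩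

def c2153 : PLift (Cov.check n2153.C.D v2153 = true) := ⟨by decide +kernel⟩

def b2153 : PLift (entF (fidx ts) 400 2153 n2153 = true) := ⟨by decide +kernel⟩

theorem g2153 : GoodF (fidx ts) 400 2153 := GoodF.ofV v2153 n2153 c2153.down b2153.down

/-- 4746845:1832/1 -/
noncomputable def e2154 : SCfg where
  D := {
    a := 7
    L := 10
    kp := 7
    inn := [(0, 1), (1, 0), (1, 2), (1, 3), (1, 4), (2, 1), (2, 3), (3, 1), (3, 2), (3, 4), (4, 1), (4,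
      3), (4, 5), (4, 6), (5, 4), (5, 6), (6, 4), (6, 5)]
    mix := [(0, 0), (0, 1), (0, 2), (1, 0), (1, 2), (1, 3), (2, 2), (2, 4), (3, 4), (3, 5), (3, 6), (4,
      3), (4, 6), (4, 7), (4, 8), (5, 1), (5, 7), (6, 1), (6, 8), (6, 9)]
    cl := [2, 1, 0, 0, 4, 6, 3, 5, 3, 7]
    chq := [(0, 6), (1, 3), (3, 1), (6, 0)]
    rng := [(0, 1), (0, 3), (1, 0), (1, 2), (1, 7), (1, 9), (2, 1), (2, 4), (3, 0), (3, 8), (4, 2), (4,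
      5), (5, 4), (5, 6), (6, 5), (6, 7), (7, 1), (7, 6), (8, 3), (8, 9), (9, 1), (9, 8)]
    lev := [] }
  links := [[1, 7, 8, 9], [7, 0, 9, 2, 3, 4, 10], [3, 1, 9, 11], [4, 1, 2, 11, 12, 13], [10, 1, 3, 13,
    14, 5, 6, 15], [6, 4, 14, 8], [15, 4, 5, 8, 16]]
  P := {
    a := 7
    N := 17
    nb := [898, 1693, 2570, 14358, 58474, 16720, 98608, 1283, 82657, 2311, 32914, 4620, 10248, 20504,
      8496, 66640, 33088]
    tri := [(0, 1, 7), (0, 1, 9), (0, 7, 8), (0, 8, 9), (1, 2, 3), (1, 2, 9), (1, 3, 4), (1, 4, 10),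
      (1, 7, 10), (2, 3, 11), (2, 9, 11), (3, 4, 13), (3, 11, 12), (3, 12, 13), (4, 5, 6), (4, 5,
      14), (4, 6, 15), (4, 10, 15), (4, 13, 14), (5, 6, 8), (5, 8, 14), (6, 8, 16), (6, 15, 16)]
    fin := [0, 1, 1, 1, 4, 5, 5, 0, 5, 1, 1, 11, 12, 4, 14, 4, 16]
    chd := [(1, 12), (5, 4)]
    steps := [(0, 7), (1, 2), (1, 3), (1, 9), (1, 10), (4, 13), (4, 15), (5, 6), (5, 8)] }
  rep := [1, 5, 0, 4, 11, 14, 12, 16]

noncomputable def v2154 : Cov.CovD where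
  P := 3
  N := 5
  pl := [0, 4, 7, 9]
  lev := [⟨[], [], [(0, 1)], [2], [(1, 1, [3]), (2, 0, [6])]⟩,
    ⟨[], [(0, 0), (0, 1)], [(0, 0)], [2], [(2, 0, [6]), (3, 0, [6])]⟩,
    ⟨[(0, 1)], [(0, 0), (1, 0)], [], [4], [(2, 0, [6])]⟩,
    ⟨[(0, 1), (1, 2)], [(1, 0), (1, 3), (1, 6), (2, 0), (2, 3), (2, 6)], [(3, 6)], [4],
      [(5, 6, [0]), (6, 3, [1])]⟩,
    ⟨[(0, 1), (1, 2), (1, 3), (2, 3)], [(1, 0), (1, 3), (3, 0), (3, 3), (3, 6)], [(0, 3),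
      (3, 3)], [5], [(3, 0, [6]), (6, 3, [1]), (8, 3, [1])]⟩,
    ⟨[(1, 4), (3, 4)], [(0, 1), (4, 0), (4, 1), (4, 3)], [], [5], [(1, 1, [3])]⟩,
    ⟨[(1, 4), (3, 4), (4, 5)], [(0, 1), (4, 0), (4, 1), (4, 3), (5, 1), (5, 3)], [(1, 3)],
      [7], [(1, 1, [3]), (8, 3, [1])]⟩]
  Ta := [((2, 1), 0, 1), ((2, 4), 0, 4), ((3, 0), 0, 2), ((3, 8), 0, 3), ((6, 5), 3, 6), ((6, 7),
    3, 5), ((8, 3), 3, 0), ((8, 9), 3, 7)]
  Tb := [((0, 1, 3), 2, 1, 0), ((1, 0, 2), 1, 2, 0), ((1, 0, 7), 1, 2, 5), ((1, 0, 9), 1, 2, 7),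
    ((1, 2, 7), 1, 0, 5), ((1, 2, 9), 1, 0, 7), ((1, 7, 9), 1, 5, 7), ((2, 1, 4), 0, 1, 4),
    ((3, 0, 8), 0, 2, 3), ((4, 2, 5), 4, 0, 6), ((5, 4, 6), 6, 4, 3), ((6, 5, 7), 3, 6, 5),
    ((7, 1, 6), 5, 1, 3), ((8, 3, 9), 3, 0, 7), ((9, 1, 8), 7, 1, 3)]
  Tc := []
  Td := [((0, 6), (2, 1), 1), ((0, 6), (2, 4), 4), ((0, 6), (3, 0), 2), ((0, 6), (3, 8), 3), ((1,
    3), (1, 0), 2), ((1, 3), (1, 2), 0), ((1, 3), (1, 7), 5), ((1, 3), (1, 9), 7), ((3, 1),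
    (6, 5), 6), ((3, 1), (6, 7), 5), ((3, 1), (8, 3), 0), ((3, 1), (8, 9), 7), ((6, 0), (5,
    4), 4), ((6, 0), (5, 6), 3)]
  G := [[0, 0xa4c261a4c261c68816881ac4, 0, 0x44928852995258c2f5c921c48,
    0x5884394985c8764589451e1145845a4841a9ca8], [0, 0x2466ca628ee14a41a4618868b68188689ac4,
    0, 0x582259c24659c218c8, 0x5818ccc724954834658c145499e19418c4aa8], [0, 0,
    0x589451e15894c1e1c24, 0x995215c921c84, 0x5894c1e1589451e1c21], [0, 0,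
    0x9149c955e19194559ce1c24, 0xddc21ddc21a44, 0x945491d61458c49cd1e19181aa8]]

noncomputable def n2154 : Ent := ⟨e2154, noF, [], [], []⟩

def c2154 : PLift (Cov.check n2154.C.D v2154 = true) := ⟨by decide +kernel⟩

def b2154 : PLift (entF (fidx ts) 400 2154 n2154 = true) := ⟨by decide +kernel⟩

theorem g2154 : GoodF (fidx ts) 400 2154 := GoodF.ofV v2154 n2154 c2154.down b2154.down

/-- 4746845:1832/2 -/
noncomputable def e2155 : SCfg where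
  D := {
    a := 7
    L := 10
    kp := 7
    inn := [(0, 1), (1, 0), (1, 2), (1, 3), (1, 4), (2, 1), (2, 3), (3, 1), (3, 2), (3, 4), (4, 1), (4,
      3), (4, 5), (4, 6), (5, 4), (5, 6), (6, 4), (6, 5)]
    mix := [(0, 0), (0, 1), (0, 2), (1, 0), (1, 2), (1, 3), (2, 2), (2, 4), (3, 4), (3, 5), (3, 6), (4,
      3), (4, 6), (4, 7), (4, 8), (5, 7), (5, 9), (6, 1), (6, 8), (6, 9)]
    cl := [2, 1, 0, 0, 5, 7, 3, 4, 3, 6]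
    chq := [(0, 7), (1, 4), (4, 1), (7, 0)]
    rng := [(0, 1), (0, 3), (1, 0), (1, 2), (1, 8), (1, 9), (2, 1), (2, 4), (3, 0), (3, 8), (4, 2), (4,
      5), (5, 4), (5, 6), (6, 5), (6, 7), (7, 6), (7, 9), (8, 1), (8, 3), (9, 1), (9, 7)]
    lev := [] }
  links := [[1, 7, 8, 9], [7, 0, 9, 2, 3, 4, 10], [3, 1, 9, 11], [4, 1, 2, 11, 12, 13], [10, 1, 3, 13,
    14, 5, 6, 15], [6, 4, 14, 16], [15, 4, 5, 16, 8]]
  P := {
    a := 7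
    N := 17
    nb := [898, 1693, 2570, 14358, 58474, 82000, 98608, 1283, 99009, 2311, 32914, 4620, 10248, 20504,
      73776, 1360, 16736]
    tri := [(0, 1, 7), (0, 1, 9), (0, 7, 8), (0, 8, 9), (1, 2, 3), (1, 2, 9), (1, 3, 4), (1, 4, 10),
      (1, 7, 10), (2, 3, 11), (2, 9, 11), (3, 4, 13), (3, 11, 12), (3, 12, 13), (4, 5, 6), (4, 5,
      14), (4, 6, 15), (4, 10, 15), (4, 13, 14), (5, 6, 16), (5, 14, 16), (6, 8, 15), (6, 8, 16)]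
    fin := [0, 1, 1, 1, 4, 5, 5, 0, 5, 1, 1, 11, 12, 4, 14, 4, 16]
    chd := [(1, 12), (5, 14)]
    steps := [(0, 7), (1, 2), (1, 3), (1, 9), (1, 10), (4, 13), (4, 15), (5, 6), (5, 8)] }
  rep := [1, 5, 0, 4, 14, 11, 16, 12]

noncomputable def v2155 : Cov.CovD where
  P := 3
  N := 5
  pl := [0, 4, 9]
  lev := [⟨[], [], [(0, 1)], [2], [(1, 1, [4]), (2, 0, [7])]⟩,
    ⟨[], [(0, 0), (0, 1)], [(0, 0)], [2], [(2, 0, [7]), (3, 0, [7])]⟩,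
    ⟨[(0, 1)], [(0, 0), (1, 0)], [], [5], [(2, 0, [7])]⟩,
    ⟨[(0, 1), (1, 2)], [(1, 0), (1, 3), (1, 7), (2, 0), (2, 3), (2, 7)], [(3, 7)], [5],
      [(5, 7, [0]), (6, 3, [])]⟩,
    ⟨[(0, 1), (1, 2), (1, 3), (2, 3)], [(1, 0), (1, 3), (1, 4), (3, 0), (3, 3), (3, 4), (3,
      7)], [(0, 3), (0, 4), (3, 3), (3, 4)], [], [(3, 0, [7]), (6, 3, []), (7, 4, [1]), (8,
      3, [])]⟩,
    ⟨[(1, 4), (3, 4)], [(4, 0), (4, 3), (4, 4)], [], [6], [(7, 4, [1])]⟩,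
    ⟨[(1, 4), (3, 4), (4, 5)], [(0, 1), (4, 0), (4, 1), (4, 3), (4, 4), (5, 1), (5, 3), (5,
      4)], [(1, 3)], [6], [(1, 1, [4]), (8, 3, [])]⟩]
  Ta := [((2, 1), 0, 1), ((2, 4), 0, 5), ((3, 0), 0, 2), ((3, 8), 0, 3), ((6, 5), 3, 7), ((6, 7),
    3, 4), ((8, 1), 3, 1), ((8, 3), 3, 0)]
  Tb := [((0, 1, 3), 2, 1, 0), ((1, 0, 2), 1, 2, 0), ((1, 0, 8), 1, 2, 3), ((1, 0, 9), 1, 2, 6),
    ((1, 2, 8), 1, 0, 3), ((1, 2, 9), 1, 0, 6), ((1, 8, 9), 1, 3, 6), ((2, 1, 4), 0, 1, 5),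
    ((3, 0, 8), 0, 2, 3), ((4, 2, 5), 5, 0, 7), ((5, 4, 6), 7, 5, 3), ((6, 5, 7), 3, 7, 4),
    ((7, 6, 9), 4, 3, 6), ((8, 1, 3), 3, 1, 0), ((9, 1, 7), 6, 1, 4)]
  Tc := []
  Td := [((0, 7), (2, 1), 1), ((0, 7), (2, 4), 5), ((0, 7), (3, 0), 2), ((0, 7), (3, 8), 3), ((1,
    4), (1, 0), 2), ((1, 4), (1, 2), 0), ((1, 4), (1, 8), 3), ((1, 4), (1, 9), 6), ((4, 1),
    (7, 6), 3), ((4, 1), (7, 9), 6), ((7, 0), (5, 4), 5), ((7, 0), (5, 6), 3)]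
  G := [[0, 0xa141a1a1a1a1a161e1e48, 0, 0x9225225c22591d2c22bc84,
    0x19cc2398172385172491b25681cc2388a8], [0, 0xe1e161e1e1616e181e181cc8, 0,
    0x9225225292215228cc8, 0xc2182235294176169294a5252c55241968ca8], [0, 0,
    0x541b21851721a48, 0x52219221c48, 0x891721451b21688], [0, 0, 0x52481d615252481ee15281e84,
    0xd221d221688, 0xc2585d615292c85de1c92812a1]]

noncomputable def n2155 : Ent := ⟨e2155, noF, [], [], []⟩

def c2155 : PLift (Cov.check n2155.C.D v2155 = true) := ⟨by decide +kernel⟩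

def b2155 : PLift (entF (fidx ts) 400 2155 n2155 = true) := ⟨by decide +kernel⟩

theorem g2155 : GoodF (fidx ts) 400 2155 := GoodF.ofV v2155 n2155 c2155.down b2155.down

/-- 4746845:1832 -/
noncomputable def e2156 : SCfg where
  D := {
    a := 7
    L := 11
    kp := 8
    inn := [(0, 1), (1, 0), (1, 2), (1, 3), (1, 4), (2, 1), (2, 3), (3, 1), (3, 2), (3, 4), (4, 1), (4,
      3), (4, 5), (4, 6), (5, 4), (5, 6), (6, 4), (6, 5)]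
    mix := [(0, 0), (0, 1), (0, 2), (1, 0), (1, 2), (1, 3), (2, 2), (2, 4), (3, 4), (3, 5), (3, 6), (4,
      3), (4, 6), (4, 7), (4, 8), (5, 7), (5, 9), (6, 8), (6, 9), (6, 10)]
    cl := [2, 7, 0, 0, 4, 6, 1, 5, 1, 3, 8]
    chq := [(0, 6), (1, 3), (3, 1), (6, 0)]
    rng := [(0, 1), (0, 3), (1, 0), (1, 2), (2, 1), (2, 4), (3, 0), (3, 8), (4, 2), (4, 5), (5, 4), (5,
      6), (6, 5), (6, 7), (7, 6), (7, 9), (8, 3), (8, 10), (9, 7), (9, 10), (10, 8), (10, 9)]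
    lev := [] }
  links := [[1, 7, 8, 9], [7, 0, 9, 2, 3, 4, 10], [3, 1, 9, 11], [4, 1, 2, 11, 12, 13], [10, 1, 3, 13,
    14, 5, 6, 15], [6, 4, 14, 16], [15, 4, 5, 16, 17]]
  P := {
    a := 7
    N := 18
    nb := [898, 1693, 2570, 14358, 58474, 82000, 229424, 1283, 641, 2311, 32914, 4620, 10248, 20504,
      73776, 132176, 147552, 98368]
    tri := [(0, 1, 7), (0, 1, 9), (0, 7, 8), (0, 8, 9), (1, 2, 3), (1, 2, 9), (1, 3, 4), (1, 4, 10),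
      (1, 7, 10), (2, 3, 11), (2, 9, 11), (3, 4, 13), (3, 11, 12), (3, 12, 13), (4, 5, 6), (4, 5,
      14), (4, 6, 15), (4, 10, 15), (4, 13, 14), (5, 6, 16), (5, 14, 16), (6, 15, 17), (6, 16,
      17)]
    fin := [0, 1, 1, 1, 4, 4, 4, 0, 8, 1, 1, 11, 12, 4, 14, 4, 16, 17]
    chd := [(1, 12), (4, 16)]
    steps := [(0, 7), (1, 2), (1, 3), (1, 9), (1, 10), (4, 5), (4, 6), (4, 13), (4, 15)] }
  rep := [1, 4, 0, 16, 11, 14, 12, 8, 17]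

noncomputable def v2156 : Cov.CovD where
  P := 3
  N := 6
  pl := [0, 1, 4, 7, 10]
  lev := [⟨[], [], [], [2, 7], [(2, 0, [6])]⟩,
    ⟨[], [(0, 0)], [(0, 0)], [2], [(2, 0, [6]), (3, 0, [6])]⟩,
    ⟨[(0, 1)], [(0, 0), (1, 0)], [], [4], [(2, 0, [6])]⟩,
    ⟨[(0, 1), (1, 2)], [(1, 0), (1, 1), (1, 6), (2, 0), (2, 1), (2, 6)], [(1, 6)], [4],
      [(5, 6, [0]), (6, 1, [3])]⟩,
    ⟨[(0, 1), (1, 2), (1, 3), (2, 3)], [(1, 0), (1, 1), (3, 0), (3, 1), (3, 6)], [(0, 1),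
      (1, 1)], [5], [(3, 0, [6]), (6, 1, [3]), (8, 1, [3])]⟩,
    ⟨[(1, 4), (3, 4)], [(4, 0), (4, 1), (4, 3)], [], [5], [(9, 3, [1])]⟩,
    ⟨[(1, 4), (3, 4), (4, 5)], [(4, 0), (4, 1), (4, 3), (5, 1), (5, 3)], [(1, 3)], [8],
      [(8, 1, [3]), (9, 3, [1])]⟩]
  Ta := [((2, 1), 0, 7), ((2, 4), 0, 4), ((3, 0), 0, 2), ((3, 8), 0, 1), ((6, 5), 1, 6), ((6, 7),
    1, 5), ((8, 3), 1, 0), ((8, 10), 1, 8)]
  Tb := [((0, 1, 3), 2, 7, 0), ((1, 0, 2), 7, 2, 0), ((2, 1, 4), 0, 7, 4), ((3, 0, 8), 0, 2, 1),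
    ((4, 2, 5), 4, 0, 6), ((5, 4, 6), 6, 4, 1), ((6, 5, 7), 1, 6, 5), ((7, 6, 9), 5, 1, 3),
    ((8, 3, 10), 1, 0, 8), ((9, 7, 10), 3, 5, 8), ((10, 8, 9), 8, 1, 3)]
  Tc := []
  Td := [((0, 6), (2, 1), 7), ((0, 6), (2, 4), 4), ((0, 6), (3, 0), 2), ((0, 6), (3, 8), 1), ((1,
    3), (6, 5), 6), ((1, 3), (6, 7), 5), ((1, 3), (8, 3), 0), ((1, 3), (8, 10), 8), ((3, 1),
    (9, 7), 5), ((3, 1), (9, 10), 8), ((6, 0), (5, 4), 4), ((6, 0), (5, 6), 1)]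
  G := [[0, 0, 0,
    0x924b2545221a286552228e925a12cd528d289cc9242964592a4a5225c2912b25cdc423825a892cc,
    0x29684a525a21cc218c21c259296c1e2296c855222c9884d522817c1692428852188289caa], [0, 0, 0,
    0xd2414d211c2d2d281ccd2425288182111852d2cfc92812cc,
    0xd2c2524118d2d2c51181289aa52d282d24d2d2c18aa], [0, 0,
    0x252b814d2418625a295c122244142e992c19241ace, 0x325414241cd238125a92c16c1,
    0x482b296c1d2295c1621], [0, 0x61a1c1e1e1e161681, 0xd2d2c1d2d2c1c25241c241cd281d292c29c6,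
    0x5241d241ad282c1d281cc1, 0xd2d2c1d2d2c1621]]

noncomputable def n2156 : Ent := ⟨e2156, noF, [], [], [(8, 16, [7334685537875745012586738086077695515070955365108989538292687702499329, 0]), (8, 17, [6903326391201334775872065844685381424292761054348340378595029938515969, 0])]⟩

def c2156 : PLift (Cov.check n2156.C.D v2156 = true) := ⟨by decide +kernel⟩

def b2156 : PLift (entF (fidx ts) 400 2156 n2156 = true) := ⟨by decide +kernel⟩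

theorem g2156 : GoodF (fidx ts) 400 2156 := GoodF.ofV v2156 n2156 c2156.down b2156.down

/-- 4746845:1833/1 -/
noncomputable def e2157 : SCfg where
  D := {
    a := 7
    L := 10
    kp := 7
    inn := [(0, 1), (1, 0), (1, 2), (1, 3), (1, 4), (2, 1), (2, 3), (3, 1), (3, 2), (3, 4), (4, 1), (4,
      3), (4, 5), (4, 6), (5, 4), (5, 6), (6, 4), (6, 5)]
    mix := [(0, 0), (0, 1), (0, 2), (1, 0), (1, 2), (1, 3), (2, 2), (2, 4), (3, 4), (3, 5), (3, 6), (4,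
      3), (4, 6), (4, 7), (4, 8), (5, 7), (5, 9), (6, 1), (6, 6), (6, 9)]
    cl := [1, 4, 0, 0, 2, 6, 3, 3, 7, 5]
    chq := [(0, 3), (0, 6), (3, 0), (6, 0)]
    rng := [(0, 1), (0, 3), (1, 0), (1, 2), (1, 6), (1, 9), (2, 1), (2, 4), (3, 0), (3, 8), (4, 2), (4,
      5), (5, 4), (5, 6), (6, 1), (6, 5), (7, 8), (7, 9), (8, 3), (8, 7), (9, 1), (9, 7)]
    lev := [] }
  links := [[1, 7, 8, 9], [7, 0, 9, 2, 3, 4, 10], [3, 1, 9, 11], [4, 1, 2, 11, 12, 13], [10, 1, 3, 13, 6,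
    5, 14, 15], [14, 4, 6, 16], [16, 5, 4, 13, 8]]
  P := {
    a := 7
    N := 17
    nb := [898, 1693, 2570, 14358, 58474, 82000, 74032, 1283, 74433, 2311, 32914, 4620, 10248, 4440,
      98352, 17424, 16736]
    tri := [(0, 1, 7), (0, 1, 9), (0, 7, 8), (0, 8, 9), (1, 2, 3), (1, 2, 9), (1, 3, 4), (1, 4, 10),
      (1, 7, 10), (2, 3, 11), (2, 9, 11), (3, 4, 13), (3, 11, 12), (3, 12, 13), (4, 5, 6), (4, 5,
      14), (4, 6, 13), (4, 10, 15), (4, 14, 15), (5, 6, 16), (5, 14, 16), (6, 8, 13), (6, 8, 16)]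
    fin := [0, 1, 1, 1, 4, 5, 5, 0, 5, 1, 1, 11, 12, 4, 4, 15, 16]
    chd := [(1, 4), (1, 12)]
    steps := [(0, 7), (1, 2), (1, 3), (1, 9), (1, 10), (4, 13), (4, 14), (5, 6), (5, 8)] }
  rep := [1, 0, 11, 4, 5, 16, 12, 15]

noncomputable def v2157 : Cov.CovD where
  P := 3
  N := 5
  pl := [0, 1, 4, 8, 9]
  lev := [⟨[], [], [], [1, 4], [(2, 0, [3, 6])]⟩,
    ⟨[], [(0, 0)], [(0, 0)], [1], [(2, 0, [3, 6]), (3, 0, [3, 6])]⟩,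
    ⟨[(0, 1)], [(0, 0), (1, 0)], [], [2], [(2, 0, [3, 6])]⟩,
    ⟨[(0, 1), (1, 2)], [(1, 0), (1, 3), (1, 6), (2, 0), (2, 3), (2, 6)], [(3, 6)], [2],
      [(5, 6, [0]), (6, 3, [0])]⟩,
    ⟨[(0, 1), (1, 2), (1, 3), (2, 3)], [(1, 0), (1, 3), (3, 0), (3, 3), (3, 6)], [(0, 3),
      (3, 3)], [7], [(3, 0, [3, 6]), (6, 3, [0]), (7, 3, [0])]⟩,
    ⟨[(1, 4), (3, 4)], [(4, 0), (4, 3)], [], [5], [(7, 3, [0])]⟩,
    ⟨[(1, 4), (3, 4), (4, 5)], [(3, 3), (4, 0), (4, 3), (5, 3)], [], [4, 5], [(6, 3, [0])]⟩]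
  Ta := [((2, 1), 0, 4), ((2, 4), 0, 2), ((3, 0), 0, 1), ((3, 8), 0, 7), ((6, 1), 3, 4), ((6, 5),
    3, 6), ((7, 8), 3, 7), ((7, 9), 3, 5)]
  Tb := [((0, 1, 3), 1, 4, 0), ((1, 0, 2), 4, 1, 0), ((1, 0, 6), 4, 1, 3), ((1, 0, 9), 4, 1, 5),
    ((1, 2, 6), 4, 0, 3), ((1, 2, 9), 4, 0, 5), ((1, 6, 9), 4, 3, 5), ((2, 1, 4), 0, 4, 2),
    ((3, 0, 8), 0, 1, 7), ((4, 2, 5), 2, 0, 6), ((5, 4, 6), 6, 2, 3), ((6, 1, 5), 3, 4, 6),
    ((7, 8, 9), 3, 7, 5), ((8, 3, 7), 7, 0, 3), ((9, 1, 7), 5, 4, 3)]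
  Tc := [(0, 3, 6)]
  Td := [((0, 3), (2, 1), 4), ((0, 3), (2, 4), 2), ((0, 3), (3, 0), 1), ((0, 3), (3, 8), 7), ((0,
    6), (2, 1), 4), ((0, 6), (2, 4), 2), ((0, 6), (3, 0), 1), ((0, 6), (3, 8), 7), ((3, 0),
    (6, 1), 4), ((3, 0), (6, 5), 6), ((3, 0), (7, 8), 7), ((3, 0), (7, 9), 5), ((6, 0), (5,
    4), 2), ((6, 0), (5, 6), 3)]
  G := [[0, 0, 0x1411826721118a8746111182cd118c2c11146471224c911181162fe1144611882cc,
    0xa1341986a39a1c445941861336ca18cc, 0x89593a215e124543f256161381a8c], [0, 0,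
    0x881211112467241ca44412281111128bca8c, 0x21c88ab285e1844657265413e148c,
    0x64182583981e9244457429649e128c], [0, 0x813a1396ce18421921615549c1c8c, 0,
    0xd3a4181fae59a18c1, 0x42418e53a19e15e18c1], [0, 0x413816441de142219281b816e1846, 0,
    0x2437ae5cd3e1481, 0x2477ad5cb3e1281]]

noncomputable def n2157 : Ent := ⟨e2157, noF, [], [], []⟩

def c2157 : PLift (Cov.check n2157.C.D v2157 = true) := ⟨by decide +kernel⟩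

def b2157 : PLift (entF (fidx ts) 400 2157 n2157 = true) := ⟨by decide +kernel⟩

theorem g2157 : GoodF (fidx ts) 400 2157 := GoodF.ofV v2157 n2157 c2157.down b2157.down

/-- 4746845:1833/3 -/
noncomputable def e2158 : SCfg where
  D := {
    a := 7
    L := 9
    kp := 6
    inn := [(0, 1), (1, 0), (1, 2), (1, 3), (1, 4), (2, 1), (2, 3), (3, 1), (3, 2), (3, 4), (4, 1), (4,
      3), (4, 5), (4, 6), (5, 4), (5, 6), (6, 4), (6, 5)]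
    mix := [(0, 0), (0, 1), (0, 2), (1, 0), (1, 2), (1, 3), (2, 2), (2, 4), (3, 4), (3, 5), (3, 6), (4,
      3), (4, 6), (4, 7), (4, 8), (5, 1), (5, 7), (6, 1), (6, 5), (6, 6)]
    cl := [2, 1, 0, 0, 5, 4, 3, 3, 6]
    chq := [(0, 3), (0, 4), (3, 0), (4, 0)]
    rng := [(0, 1), (0, 3), (1, 0), (1, 2), (1, 5), (1, 7), (2, 1), (2, 4), (3, 0), (3, 8), (4, 2), (4,
      5), (5, 1), (5, 4), (5, 6), (6, 5), (7, 1), (7, 8), (8, 3), (8, 7)]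
    lev := [] }
  links := [[1, 7, 8, 9], [7, 0, 9, 2, 3, 4, 10], [3, 1, 9, 11], [4, 1, 2, 11, 12, 13], [10, 1, 3, 13, 6,
    5, 14, 15], [14, 4, 6, 8], [8, 5, 4, 13, 12]]
  P := {
    a := 7
    N := 16
    nb := [898, 1693, 2570, 14358, 58474, 16720, 12592, 1283, 21217, 2311, 32914, 4620, 10568, 4184,
      33072, 17424]
    tri := [(0, 1, 7), (0, 1, 9), (0, 7, 8), (0, 8, 9), (1, 2, 3), (1, 2, 9), (1, 3, 4), (1, 4, 10),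
      (1, 7, 10), (2, 3, 11), (2, 9, 11), (3, 4, 13), (3, 11, 12), (3, 12, 13), (4, 5, 6), (4, 5,
      14), (4, 6, 13), (4, 10, 15), (4, 14, 15), (5, 6, 8), (5, 8, 14), (6, 8, 12), (6, 12, 13)]
    fin := [0, 0, 2, 2, 2, 5, 5, 0, 8, 2, 2, 11, 12, 5, 5, 15]
    chd := [(2, 5), (2, 12)]
    steps := [(0, 1), (0, 7), (2, 3), (2, 4), (2, 9), (2, 10), (5, 6), (5, 13), (5, 14)] }
  rep := [2, 8, 0, 5, 12, 11, 15]

noncomputable def v2158 : Cov.CovD where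
  P := 3
  N := 4
  pl := [0, 1, 4, 8]
  lev := [⟨[], [], [], [1, 2], [(2, 0, [3, 4])]⟩,
    ⟨[], [(0, 0)], [(0, 0)], [2], [(2, 0, [3, 4]), (3, 0, [3, 4])]⟩,
    ⟨[(0, 1)], [(0, 0), (1, 0)], [], [5], [(2, 0, [3, 4])]⟩,
    ⟨[(0, 1), (1, 2)], [(1, 0), (1, 3), (1, 4), (2, 0), (2, 3), (2, 4)], [(3, 4)], [5],
      [(5, 4, [0]), (6, 3, [0])]⟩,
    ⟨[(0, 1), (1, 2), (1, 3), (2, 3)], [(1, 0), (1, 3), (3, 0), (3, 3), (3, 4)], [(0, 3),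
      (3, 3)], [6], [(3, 0, [3, 4]), (6, 3, [0]), (7, 3, [0])]⟩,
    ⟨[(1, 4), (3, 4)], [(4, 0), (4, 3)], [], [1], [(7, 3, [0])]⟩,
    ⟨[(1, 4), (3, 4), (4, 5)], [(3, 3), (3, 4), (4, 0), (4, 3), (4, 4), (5, 3), (5, 4)],
      [(3, 4)], [1], [(5, 4, [0]), (6, 3, [0])]⟩]
  Ta := [((2, 1), 0, 1), ((2, 4), 0, 5), ((3, 0), 0, 2), ((3, 8), 0, 6), ((6, 5), 3, 4), ((7, 1),
    3, 1), ((7, 8), 3, 6)]
  Tb := [((0, 1, 3), 2, 1, 0), ((1, 0, 2), 1, 2, 0), ((1, 0, 5), 1, 2, 4), ((1, 0, 7), 1, 2, 3),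
    ((1, 2, 5), 1, 0, 4), ((1, 2, 7), 1, 0, 3), ((1, 5, 7), 1, 4, 3), ((2, 1, 4), 0, 1, 5),
    ((3, 0, 8), 0, 2, 6), ((4, 2, 5), 5, 0, 4), ((5, 1, 4), 4, 1, 5), ((5, 1, 6), 4, 1, 3),
    ((5, 4, 6), 4, 5, 3), ((7, 1, 8), 3, 1, 6), ((8, 3, 7), 6, 0, 3)]
  Tc := [(0, 3, 4)]
  Td := [((0, 3), (2, 1), 1), ((0, 3), (2, 4), 5), ((0, 3), (3, 0), 2), ((0, 3), (3, 8), 6), ((0,
    4), (2, 1), 1), ((0, 4), (2, 4), 5), ((0, 4), (3, 0), 2), ((0, 4), (3, 8), 6), ((3, 0),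
    (6, 5), 4), ((3, 0), (7, 1), 1), ((3, 0), (7, 8), 6), ((4, 0), (5, 1), 1), ((4, 0), (5,
    4), 5), ((4, 0), (5, 6), 3)]
  G := [[0, 0x4814c882616881642264e92218483ac8, 0, 0xd8d461841142148b1414c2e84,
    0x14221444151636841188a441d49458e5ca8], [0, 0x246a4c2e1a441668c2a18c4, 0,
    0x84541448c1a11848c92ac4, 0x88144148c1442f11c1c1e1c194c1e28], [0, 0,
    0x111811e1181114e1c24, 0x5141141818e2591d1a18c4, 0x9158d1e11488458d8e3c28], [0, 0,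
    0x111111e1181111e1a48, 0x84c16141814181c1e2d84, 0x5194c1e15194c1e1681]]

noncomputable def n2158 : Ent := ⟨e2158, noF, [], [], []⟩

def c2158 : PLift (Cov.check n2158.C.D v2158 = true) := ⟨by decide +kernel⟩

def b2158 : PLift (entF (fidx ts) 400 2158 n2158 = true) := ⟨by decide +kernel⟩

theorem g2158 : GoodF (fidx ts) 400 2158 := GoodF.ofV v2158 n2158 c2158.down b2158.down

/-- 4746845:1833/2 -/
noncomputable def e2159 : SCfg where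
  D := {
    a := 7
    L := 10
    kp := 7
    inn := [(0, 1), (1, 0), (1, 2), (1, 3), (1, 4), (2, 1), (2, 3), (3, 1), (3, 2), (3, 4), (4, 1), (4,
      3), (4, 5), (4, 6), (5, 4), (5, 6), (6, 4), (6, 5)]
    mix := [(0, 0), (0, 1), (0, 2), (1, 0), (1, 2), (1, 3), (2, 2), (2, 4), (3, 4), (3, 5), (3, 6), (4,
      3), (4, 6), (4, 7), (4, 8), (5, 1), (5, 7), (6, 1), (6, 6), (6, 9)]
    cl := [1, 4, 0, 0, 2, 5, 3, 3, 6, 7]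
    chq := [(0, 3), (0, 5), (3, 0), (5, 0)]
    rng := [(0, 1), (0, 3), (1, 0), (1, 2), (1, 7), (1, 9), (2, 1), (2, 4), (3, 0), (3, 8), (4, 2), (4,
      5), (5, 4), (5, 6), (6, 5), (6, 9), (7, 1), (7, 8), (8, 3), (8, 7), (9, 1), (9, 6)]
    lev := [] }
  links := [[1, 7, 8, 9], [7, 0, 9, 2, 3, 4, 10], [3, 1, 9, 11], [4, 1, 2, 11, 12, 13], [10, 1, 3, 13, 6,
    5, 14, 15], [14, 4, 6, 8], [8, 5, 4, 13, 16]]
  P := {
    a := 7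
    N := 17
    nb := [898, 1693, 2570, 14358, 58474, 16720, 74032, 1283, 82657, 2311, 32914, 4620, 10248, 69720,
      33072, 17424, 8512]
    tri := [(0, 1, 7), (0, 1, 9), (0, 7, 8), (0, 8, 9), (1, 2, 3), (1, 2, 9), (1, 3, 4), (1, 4, 10),
      (1, 7, 10), (2, 3, 11), (2, 9, 11), (3, 4, 13), (3, 11, 12), (3, 12, 13), (4, 5, 6), (4, 5,
      14), (4, 6, 13), (4, 10, 15), (4, 14, 15), (5, 6, 8), (5, 8, 14), (6, 8, 16), (6, 13, 16)]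
    fin := [0, 1, 1, 1, 4, 5, 5, 0, 5, 1, 1, 11, 12, 4, 4, 15, 16]
    chd := [(1, 4), (1, 12)]
    steps := [(0, 7), (1, 2), (1, 3), (1, 9), (1, 10), (4, 13), (4, 14), (5, 6), (5, 8)] }
  rep := [1, 0, 11, 4, 5, 12, 15, 16]

noncomputable def v2159 : Cov.CovD where
  P := 3
  N := 5
  pl := [0, 1, 4, 8, 9]
  lev := [⟨[], [], [], [1, 4], [(2, 0, [3, 5])]⟩,
    ⟨[], [(0, 0)], [(0, 0)], [1], [(2, 0, [3, 5]), (3, 0, [3, 5])]⟩,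
    ⟨[(0, 1)], [(0, 0), (1, 0)], [], [2], [(2, 0, [3, 5])]⟩,
    ⟨[(0, 1), (1, 2)], [(1, 0), (1, 3), (1, 5), (2, 0), (2, 3), (2, 5)], [(3, 5)], [2],
      [(5, 5, [0]), (6, 3, [0])]⟩,
    ⟨[(0, 1), (1, 2), (1, 3), (2, 3)], [(1, 0), (1, 3), (3, 0), (3, 3), (3, 5)], [(0, 3),
      (3, 3)], [6], [(3, 0, [3, 5]), (6, 3, [0]), (7, 3, [0])]⟩,
    ⟨[(1, 4), (3, 4)], [(4, 0), (4, 3)], [], [4], [(7, 3, [0])]⟩,
    ⟨[(1, 4), (3, 4), (4, 5)], [(3, 3), (4, 0), (4, 3), (5, 3)], [], [4, 7], [(6, 3, [0])]⟩]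
  Ta := [((2, 1), 0, 4), ((2, 4), 0, 2), ((3, 0), 0, 1), ((3, 8), 0, 6), ((6, 5), 3, 5), ((6, 9),
    3, 7), ((7, 1), 3, 4), ((7, 8), 3, 6)]
  Tb := [((0, 1, 3), 1, 4, 0), ((1, 0, 2), 4, 1, 0), ((1, 0, 7), 4, 1, 3), ((1, 0, 9), 4, 1, 7),
    ((1, 2, 7), 4, 0, 3), ((1, 2, 9), 4, 0, 7), ((1, 7, 9), 4, 3, 7), ((2, 1, 4), 0, 4, 2),
    ((3, 0, 8), 0, 1, 6), ((4, 2, 5), 2, 0, 5), ((5, 4, 6), 5, 2, 3), ((6, 5, 9), 3, 5, 7),
    ((7, 1, 8), 3, 4, 6), ((8, 3, 7), 6, 0, 3), ((9, 1, 6), 7, 4, 3)]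
  Tc := [(0, 3, 5)]
  Td := [((0, 3), (2, 1), 4), ((0, 3), (2, 4), 2), ((0, 3), (3, 0), 1), ((0, 3), (3, 8), 6), ((0,
    5), (2, 1), 4), ((0, 5), (2, 4), 2), ((0, 5), (3, 0), 1), ((0, 5), (3, 8), 6), ((3, 0),
    (6, 5), 5), ((3, 0), (6, 9), 7), ((3, 0), (7, 1), 4), ((3, 0), (7, 8), 6), ((5, 0), (5,
    4), 2), ((5, 0), (5, 6), 3)]
  G := [[0, 0, 0x1822b83161122566111188d918c2c1414647141144d14e49e211221488acc,
    0x98392a78e18474453b4e148c, 0x896b8e19e1247445a31e128c], [0, 0,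
    0xa8a14211918188f28c31a131e4264182cc, 0x28aa1d1e18461b4d2e148c,
    0x78a191e124a4541261246a18cc], [0, 0x91b138e184f42187151c186c, 0, 0xc14143141f1f1a1cc1,
    0x71f1f1e1281812c1], [0, 0x919191e184315151e148a, 0, 0x71d1b1e1481, 0x71e1e1e1281]]

noncomputable def n2159 : Ent := ⟨e2159, noF, [], [], [(12, 16, [1580044410770988437309982408355971841652082177953823432505697951745, 0])]⟩

def c2159 : PLift (Cov.check n2159.C.D v2159 = true) := ⟨by decide +kernel⟩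

def b2159 : PLift (entF (fidx ts) 400 2159 n2159 = true) := ⟨by decide +kernel⟩

theorem g2159 : GoodF (fidx ts) 400 2159 := GoodF.ofV v2159 n2159 c2159.down b2159.down

/-- 4746845:1833/4 -/
noncomputable def e2160 : SCfg where
  D := {
    a := 7
    L := 10
    kp := 7
    inn := [(0, 1), (1, 0), (1, 2), (1, 3), (1, 4), (2, 1), (2, 3), (3, 1), (3, 2), (3, 4), (4, 1), (4,
      3), (4, 5), (4, 6), (5, 4), (5, 6), (6, 4), (6, 5)]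
    mix := [(0, 0), (0, 1), (0, 2), (1, 0), (1, 2), (1, 3), (2, 2), (2, 4), (3, 4), (3, 5), (3, 6), (4,
      3), (4, 6), (4, 7), (4, 8), (5, 7), (5, 9), (6, 5), (6, 6), (6, 9)]
    cl := [1, 6, 0, 0, 2, 4, 3, 3, 7, 5]
    chq := [(0, 3), (0, 4), (3, 0), (4, 0)]
    rng := [(0, 1), (0, 3), (1, 0), (1, 2), (2, 1), (2, 4), (3, 0), (3, 8), (4, 2), (4, 5), (5, 4), (5,
      6), (5, 9), (6, 5), (7, 8), (7, 9), (8, 3), (8, 7), (9, 5), (9, 7)]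
    lev := [] }
  links := [[1, 7, 8, 9], [7, 0, 9, 2, 3, 4, 10], [3, 1, 9, 11], [4, 1, 2, 11, 12, 13], [10, 1, 3, 13, 6,
    5, 14, 15], [14, 4, 6, 16], [16, 5, 4, 13, 12]]
  P := {
    a := 7
    N := 17
    nb := [898, 1693, 2570, 14358, 58474, 82000, 77872, 1283, 641, 2311, 32914, 4620, 75848, 4184,
      98352, 17424, 20576]
    tri := [(0, 1, 7), (0, 1, 9), (0, 7, 8), (0, 8, 9), (1, 2, 3), (1, 2, 9), (1, 3, 4), (1, 4, 10),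
      (1, 7, 10), (2, 3, 11), (2, 9, 11), (3, 4, 13), (3, 11, 12), (3, 12, 13), (4, 5, 6), (4, 5,
      14), (4, 6, 13), (4, 10, 15), (4, 14, 15), (5, 6, 16), (5, 14, 16), (6, 12, 13), (6, 12,
      16)]
    fin := [0, 1, 1, 1, 4, 5, 5, 0, 8, 1, 1, 11, 5, 4, 4, 15, 16]
    chd := [(1, 4), (1, 5)]
    steps := [(0, 7), (1, 2), (1, 3), (1, 9), (1, 10), (4, 13), (4, 14), (5, 6), (5, 12)] }
  rep := [1, 0, 11, 4, 5, 16, 8, 15]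

noncomputable def v2160 : Cov.CovD where
  P := 3
  N := 5
  pl := [0, 1, 4, 8, 9]
  lev := [⟨[], [], [], [1, 6], [(2, 0, [3, 4])]⟩,
    ⟨[], [(0, 0)], [(0, 0)], [1], [(2, 0, [3, 4]), (3, 0, [3, 4])]⟩,
    ⟨[(0, 1)], [(0, 0), (1, 0)], [], [2], [(2, 0, [3, 4])]⟩,
    ⟨[(0, 1), (1, 2)], [(1, 0), (1, 3), (1, 4), (2, 0), (2, 3), (2, 4)], [(3, 4)], [2],
      [(5, 4, [0]), (6, 3, [0])]⟩,
    ⟨[(0, 1), (1, 2), (1, 3), (2, 3)], [(1, 0), (1, 3), (3, 0), (3, 3), (3, 4)], [(0, 3),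
      (3, 3)], [7], [(3, 0, [3, 4]), (6, 3, [0]), (7, 3, [0])]⟩,
    ⟨[(1, 4), (3, 4)], [(4, 0), (4, 3)], [], [5], [(7, 3, [0])]⟩,
    ⟨[(1, 4), (3, 4), (4, 5)], [(3, 3), (3, 4), (4, 0), (4, 3), (4, 4), (5, 3), (5, 4)],
      [(3, 4)], [5], [(5, 4, [0]), (6, 3, [0])]⟩]
  Ta := [((2, 1), 0, 6), ((2, 4), 0, 2), ((3, 0), 0, 1), ((3, 8), 0, 7), ((6, 5), 3, 4), ((7, 8),
    3, 7), ((7, 9), 3, 5)]
  Tb := [((0, 1, 3), 1, 6, 0), ((1, 0, 2), 6, 1, 0), ((2, 1, 4), 0, 6, 2), ((3, 0, 8), 0, 1, 7),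
    ((4, 2, 5), 2, 0, 4), ((5, 4, 6), 4, 2, 3), ((5, 4, 9), 4, 2, 5), ((5, 6, 9), 4, 3, 5),
    ((7, 8, 9), 3, 7, 5), ((8, 3, 7), 7, 0, 3), ((9, 5, 7), 5, 4, 3)]
  Tc := [(0, 3, 4)]
  Td := [((0, 3), (2, 1), 6), ((0, 3), (2, 4), 2), ((0, 3), (3, 0), 1), ((0, 3), (3, 8), 7), ((0,
    4), (2, 1), 6), ((0, 4), (2, 4), 2), ((0, 4), (3, 0), 1), ((0, 4), (3, 8), 7), ((3, 0),
    (6, 5), 4), ((3, 0), (7, 8), 7), ((3, 0), (7, 9), 5), ((4, 0), (5, 4), 2), ((4, 0), (5,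
    6), 3), ((4, 0), (5, 9), 5)]
  G := [[0, 0, 0x1144211223211121188f111848b1418ce6c18441411887121144b14111822fec11882cc,
    0x88112449253293e35ed84184451e6458ad3a39a18cc,
    0x643495612881181422b5291cb8c4d34128812214334b9ab2cc], [0, 0,
    0x24c11142a961184a381148e484a1486111111122fe48c,
    0x6e928bb25c7e1842e384e7618814412138dc8c, 0x6e928bbc53e184c8124739a58d3e1a8c], [0,
    0xd2e1911e142f4f4a184215e19f8e148e, 0, 0x124e19e356589f6814c1, 0xe4a412148e1311e35e92c1],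
    [0, 0x619281bc13e1842417a15c13e148c, 0, 0x65928bbce3e1841, 0x6e928bbce3e1241]]

noncomputable def n2160 : Ent := ⟨e2160, noF, [], [], [(8, 16, [1580044410770988437309982408355971841652082177953823432505697951745, 0])]⟩

def c2160 : PLift (Cov.check n2160.C.D v2160 = true) := ⟨by decide +kernel⟩

def b2160 : PLift (entF (fidx ts) 400 2160 n2160 = true) := ⟨by decide +kernel⟩

theorem g2160 : GoodF (fidx ts) 400 2160 := GoodF.ofV v2160 n2160 c2160.down b2160.down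

/-- 4746845:1833 -/
noncomputable def e2161 : SCfg where
  D := {
    a := 7
    L := 11
    kp := 8
    inn := [(0, 1), (1, 0), (1, 2), (1, 3), (1, 4), (2, 1), (2, 3), (3, 1), (3, 2), (3, 4), (4, 1), (4,
      3), (4, 5), (4, 6), (5, 4), (5, 6), (6, 4), (6, 5)]
    mix := [(0, 0), (0, 1), (0, 2), (1, 0), (1, 2), (1, 3), (2, 2), (2, 4), (3, 4), (3, 5), (3, 6), (4,
      3), (4, 6), (4, 7), (4, 8), (5, 7), (5, 9), (6, 6), (6, 9), (6, 10)]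
    cl := [1, 6, 0, 0, 2, 5, 3, 3, 7, 4, 8]
    chq := [(0, 3), (0, 5), (3, 0), (5, 0)]
    rng := [(0, 1), (0, 3), (1, 0), (1, 2), (2, 1), (2, 4), (3, 0), (3, 8), (4, 2), (4, 5), (5, 4), (5,
      6), (6, 5), (6, 10), (7, 8), (7, 9), (8, 3), (8, 7), (9, 7), (9, 10), (10, 6), (10, 9)]
    lev := [] }
  links := [[1, 7, 8, 9], [7, 0, 9, 2, 3, 4, 10], [3, 1, 9, 11], [4, 1, 2, 11, 12, 13], [10, 1, 3, 13, 6,
    5, 14, 15], [14, 4, 6, 16], [16, 5, 4, 13, 17]]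
  P := {
    a := 7
    N := 18
    nb := [898, 1693, 2570, 14358, 58474, 82000, 204848, 1283, 641, 2311, 32914, 4620, 10248, 135256,
      98352, 17424, 147552, 73792]
    tri := [(0, 1, 7), (0, 1, 9), (0, 7, 8), (0, 8, 9), (1, 2, 3), (1, 2, 9), (1, 3, 4), (1, 4, 10),
      (1, 7, 10), (2, 3, 11), (2, 9, 11), (3, 4, 13), (3, 11, 12), (3, 12, 13), (4, 5, 6), (4, 5,
      14), (4, 6, 13), (4, 10, 15), (4, 14, 15), (5, 6, 16), (5, 14, 16), (6, 13, 17), (6, 16,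
      17)]
    fin := [0, 0, 2, 2, 2, 5, 5, 0, 8, 2, 2, 11, 12, 5, 5, 15, 16, 17]
    chd := [(2, 5), (2, 12)]
    steps := [(0, 1), (0, 7), (2, 3), (2, 4), (2, 9), (2, 10), (5, 6), (5, 13), (5, 14)] }
  rep := [2, 0, 11, 5, 16, 12, 8, 15, 17]

noncomputable def v2161 : Cov.CovD where
  P := 3
  N := 6
  pl := [0, 1, 4, 8, 9, 10]
  lev := [⟨[], [], [], [1, 6], [(2, 0, [3, 5])]⟩,
    ⟨[], [(0, 0)], [(0, 0)], [1], [(2, 0, [3, 5]), (3, 0, [3, 5])]⟩,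
    ⟨[(0, 1)], [(0, 0), (1, 0)], [], [2], [(2, 0, [3, 5])]⟩,
    ⟨[(0, 1), (1, 2)], [(1, 0), (1, 3), (1, 5), (2, 0), (2, 3), (2, 5)], [(3, 5)], [2],
      [(5, 5, [0]), (6, 3, [0])]⟩,
    ⟨[(0, 1), (1, 2), (1, 3), (2, 3)], [(1, 0), (1, 3), (3, 0), (3, 3), (3, 5)], [(0, 3),
      (3, 3)], [7], [(3, 0, [3, 5]), (6, 3, [0]), (7, 3, [0])]⟩,
    ⟨[(1, 4), (3, 4)], [(4, 0), (4, 3)], [], [4], [(7, 3, [0])]⟩,
    ⟨[(1, 4), (3, 4), (4, 5)], [(3, 3), (4, 0), (4, 3), (5, 3)], [], [4, 8], [(6, 3, [0])]⟩]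
  Ta := [((2, 1), 0, 6), ((2, 4), 0, 2), ((3, 0), 0, 1), ((3, 8), 0, 7), ((6, 5), 3, 5), ((6,
    10), 3, 8), ((7, 8), 3, 7), ((7, 9), 3, 4)]
  Tb := [((0, 1, 3), 1, 6, 0), ((1, 0, 2), 6, 1, 0), ((2, 1, 4), 0, 6, 2), ((3, 0, 8), 0, 1, 7),
    ((4, 2, 5), 2, 0, 5), ((5, 4, 6), 5, 2, 3), ((6, 5, 10), 3, 5, 8), ((7, 8, 9), 3, 7, 4),
    ((8, 3, 7), 7, 0, 3), ((9, 7, 10), 4, 3, 8), ((10, 6, 9), 8, 3, 4)]
  Tc := [(0, 3, 5)]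
  Td := [((0, 3), (2, 1), 6), ((0, 3), (2, 4), 2), ((0, 3), (3, 0), 1), ((0, 3), (3, 8), 7), ((0,
    5), (2, 1), 6), ((0, 5), (2, 4), 2), ((0, 5), (3, 0), 1), ((0, 5), (3, 8), 7), ((3, 0),
    (6, 5), 5), ((3, 0), (6, 10), 8), ((3, 0), (7, 8), 7), ((3, 0), (7, 9), 4), ((5, 0), (5,
    4), 2), ((5, 0), (5, 6), 3)]
  G := [[0, 0, 0x11442121186c71211a4cb141111c2afe1188cc1241111184a6f184e21411c26b21111e86b8acc,
    0xe43414e9311e39e18cd7ae35618db6818cc, 0xe49e35612228221cb511cb2c5fa418e95e39a18cc], [0,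
    0, 0x1111c46ed21111c46e78a41188ee391ca6561184a21882cc, 0x6e928bbc53e184a354146e9dc3a18cc,
    0x6e928bbdc3e184a1412c812621e1e1a9acc], [0, 0xe35214bd6e59c146e39214e95e53c18aa, 0,
    0xf5a418e95b7ca14c1, 0x54a412f96b2f3ce18c1], [0, 0xa35c53614659818c659a3548dde182c, 0,
    0x2477ae5c93e1481, 0x2477a95ce3e1281]]

noncomputable def n2161 : Ent := ⟨e2161, noF, [], [], [(8, 17, [6903326391201334775872065844685381424292761054348340378595029938524161, 0]), (8, 16, [7334685537875745012586738086077695515070955365108989538292687702519809, 0]), (12, 17, [6903326391201334775872065844685381424292761054348340378595029938536449, 0])]⟩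

def c2161 : PLift (Cov.check n2161.C.D v2161 = true) := ⟨by decide +kernel⟩

def b2161 : PLift (entF (fidx ts) 400 2161 n2161 = true) := ⟨by decide +kernel⟩

theorem g2161 : GoodF (fidx ts) 400 2161 := GoodF.ofV v2161 n2161 c2161.down b2161.down

/-- 4749454:1834/1 -/
noncomputable def e2162 : SCfg where
  D := {
    a := 7
    L := 9
    kp := 6
    inn := [(0, 1), (1, 0), (1, 2), (1, 3), (1, 6), (2, 1), (2, 3), (3, 1), (3, 2), (3, 4), (3, 5), (3,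
      6), (4, 3), (4, 5), (5, 3), (5, 4), (6, 1), (6, 3)]
    mix := [(0, 0), (0, 1), (0, 2), (1, 0), (1, 2), (1, 3), (2, 2), (2, 4), (3, 4), (3, 5), (3, 6), (3,
      7), (4, 1), (4, 6), (5, 1), (5, 7), (5, 8), (6, 3), (6, 7)]
    cl := [2, 3, 0, 0, 4, 1, 5, 1, 6]
    chq := [(1, 3), (3, 1)]
    rng := [(0, 1), (0, 3), (1, 0), (1, 2), (1, 6), (1, 8), (2, 1), (2, 4), (3, 0), (3, 7), (4, 2), (4,
      5), (5, 4), (5, 6), (6, 1), (6, 5), (7, 3), (7, 8), (8, 1), (8, 7)]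
    lev := [] }
  links := [[1, 7, 8, 9], [7, 0, 9, 2, 3, 6, 10], [3, 1, 9, 11], [6, 1, 2, 11, 12, 13, 4, 5, 14], [5, 3,
    13, 8], [14, 3, 4, 8, 15], [10, 1, 3, 14]]
  P := {
    a := 7
    N := 16
    nb := [898, 1741, 2570, 30838, 8488, 49432, 17418, 1283, 41649, 2311, 16578, 4620, 10248, 4376,
      33896, 16672]
    tri := [(0, 1, 7), (0, 1, 9), (0, 7, 8), (0, 8, 9), (1, 2, 3), (1, 2, 9), (1, 3, 6), (1, 6, 10),
      (1, 7, 10), (2, 3, 11), (2, 9, 11), (3, 4, 5), (3, 4, 13), (3, 5, 14), (3, 6, 14), (3, 11,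
      12), (3, 12, 13), (4, 5, 8), (4, 8, 13), (5, 8, 15), (5, 14, 15), (6, 10, 14)]
    fin := [0, 1, 1, 3, 4, 4, 1, 0, 4, 1, 1, 11, 3, 13, 3, 15]
    chd := [(4, 3)]
    steps := [(0, 7), (1, 2), (1, 6), (1, 9), (1, 10), (3, 12), (3, 14), (4, 5), (4, 8)] }
  rep := [1, 3, 0, 4, 11, 13, 15]

noncomputable def v2162 : Cov.CovD where
  P := 3
  N := 4
  pl := [0, 4, 6, 8]
  lev := [⟨[], [], [(0, 3)], [2], [(1, 3, [1]), (2, 0, [])]⟩,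
    ⟨[], [(0, 0), (0, 3)], [(0, 0)], [2], [(2, 0, []), (3, 0, [])]⟩,
    ⟨[(0, 1)], [(0, 0), (1, 0)], [], [4], [(2, 0, [])]⟩,
    ⟨[(0, 1), (1, 2)], [(1, 0), (1, 1), (2, 0), (2, 1)], [(1, 1)], [4, 5], [(5, 1, [3]),
      (7, 1, [3])]⟩,
    ⟨[(1, 3), (2, 3)], [(0, 3), (3, 1), (3, 3)], [], [5], [(1, 3, [1])]⟩,
    ⟨[(1, 3), (2, 3), (3, 4)], [(0, 3), (3, 1), (3, 3), (4, 1), (4, 3)], [(1, 3)], [6],
      [(1, 3, [1]), (7, 1, [3])]⟩,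
    ⟨[(0, 1), (1, 2), (1, 3), (2, 3), (3, 4), (3, 5)], [(1, 0), (1, 1), (3, 0), (3, 1), (5,
      1)], [(0, 1)], [], [(3, 0, []), (7, 1, [3])]⟩]
  Ta := [((2, 1), 0, 3), ((2, 4), 0, 4), ((3, 0), 0, 2), ((3, 7), 0, 1), ((5, 4), 1, 4), ((5, 6),
    1, 5), ((7, 3), 1, 0), ((7, 8), 1, 6)]
  Tb := [((0, 1, 3), 2, 3, 0), ((1, 0, 2), 3, 2, 0), ((1, 0, 6), 3, 2, 5), ((1, 0, 8), 3, 2, 6),
    ((1, 2, 6), 3, 0, 5), ((1, 2, 8), 3, 0, 6), ((1, 6, 8), 3, 5, 6), ((2, 1, 4), 0, 3, 4),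
    ((3, 0, 7), 0, 2, 1), ((4, 2, 5), 4, 0, 1), ((5, 4, 6), 1, 4, 5), ((6, 1, 5), 5, 3, 1),
    ((7, 3, 8), 1, 0, 6), ((8, 1, 7), 6, 3, 1)]
  Tc := []
  Td := [((1, 3), (5, 4), 4), ((1, 3), (5, 6), 5), ((1, 3), (7, 3), 0), ((1, 3), (7, 8), 6), ((3,
    1), (1, 0), 2), ((3, 1), (1, 2), 0), ((3, 1), (1, 6), 5), ((3, 1), (1, 8), 6)]
  G := [[0, 0, 0, 0x22924285442882192c82482152125282498cc,
    0x8192414c24429621248244a95211528214842cd8aa], [0, 0, 0,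
    0x489218928892d241852421152888521acc, 0x14924892c22445211146444d44c3d28a], [0, 0,
    0x4211424e11445482888bccb42881c2, 0x229242152428215642484288ac1,
    0x8244184452888924482848e19e23], [0, 0x2228988144a1e1422618418461e18821448d,
    0x482814414456489885a8144c3d28a, 0x84242448d28892888d2d2c1, 0x488d2884d2444d2d221]]

noncomputable def n2162 : Ent := ⟨e2162, noF, [], [], []⟩

def c2162 : PLift (Cov.check n2162.C.D v2162 = true) := ⟨by decide +kernel⟩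

def b2162 : PLift (entF (fidx ts) 400 2162 n2162 = true) := ⟨by decide +kernel⟩

theorem g2162 : GoodF (fidx ts) 400 2162 := GoodF.ofV v2162 n2162 c2162.down b2162.down

/-- 4749454:1834/2 -/
noncomputable def e2163 : SCfg where
  D := {
    a := 7
    L := 9
    kp := 6
    inn := [(0, 1), (1, 0), (1, 2), (1, 3), (1, 6), (2, 1), (2, 3), (3, 1), (3, 2), (3, 4), (3, 5), (3,
      6), (4, 3), (4, 5), (5, 3), (5, 4), (6, 1), (6, 3)]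
    mix := [(0, 0), (0, 1), (0, 2), (1, 0), (1, 2), (1, 3), (2, 2), (2, 4), (3, 4), (3, 5), (3, 6), (3,
      7), (4, 6), (4, 8), (5, 1), (5, 7), (5, 8), (6, 3), (6, 7)]
    cl := [4, 2, 0, 0, 5, 1, 3, 1, 6]
    chq := [(2, 3), (3, 2)]
    rng := [(0, 1), (0, 3), (1, 0), (1, 2), (1, 7), (1, 8), (2, 1), (2, 4), (3, 0), (3, 7), (4, 2), (4,
      5), (5, 4), (5, 6), (6, 5), (6, 8), (7, 1), (7, 3), (8, 1), (8, 6)]
    lev := [] }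
  links := [[1, 7, 8, 9], [7, 0, 9, 2, 3, 6, 10], [3, 1, 9, 11], [6, 1, 2, 11, 12, 13, 4, 5, 14], [5, 3,
    13, 15], [14, 3, 4, 15, 8], [10, 1, 3, 14]]
  P := {
    a := 7
    N := 16
    nb := [898, 1741, 2570, 30838, 41000, 49432, 17418, 1283, 49825, 2311, 16578, 4620, 10248, 36888,
      1384, 8496]
    tri := [(0, 1, 7), (0, 1, 9), (0, 7, 8), (0, 8, 9), (1, 2, 3), (1, 2, 9), (1, 3, 6), (1, 6, 10),
      (1, 7, 10), (2, 3, 11), (2, 9, 11), (3, 4, 5), (3, 4, 13), (3, 5, 14), (3, 6, 14), (3, 11,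
      12), (3, 12, 13), (4, 5, 15), (4, 13, 15), (5, 8, 14), (5, 8, 15), (6, 10, 14)]
    fin := [0, 1, 1, 3, 4, 4, 1, 0, 4, 1, 1, 11, 3, 13, 3, 15]
    chd := [(4, 13)]
    steps := [(0, 7), (1, 2), (1, 6), (1, 9), (1, 10), (3, 12), (3, 14), (4, 5), (4, 8)] }
  rep := [1, 3, 4, 13, 0, 11, 15]

noncomputable def v2163 : Cov.CovD where
  P := 3
  N := 4
  pl := [0, 4, 8]
  lev := [⟨[], [], [(0, 2)], [4], [(1, 2, [3]), (2, 0, [])]⟩,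
    ⟨[], [(0, 0), (0, 2)], [(0, 0)], [4], [(2, 0, []), (3, 0, [])]⟩,
    ⟨[(0, 1)], [(0, 0), (1, 0)], [], [5], [(2, 0, [])]⟩,
    ⟨[(0, 1), (1, 2)], [(1, 0), (1, 1), (1, 3), (2, 0), (2, 1), (2, 3)], [(1, 1), (1, 3)],
      [5], [(5, 1, []), (6, 3, [2]), (7, 1, [])]⟩,
    ⟨[(1, 3), (2, 3)], [(3, 1), (3, 3)], [], [6], [(6, 3, [2])]⟩,
    ⟨[(1, 3), (2, 3), (3, 4)], [(0, 2), (3, 1), (3, 2), (3, 3), (4, 1), (4, 2), (4, 3)],
      [(1, 2)], [6], [(1, 2, [3]), (7, 1, [])]⟩,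
    ⟨[(0, 1), (1, 2), (1, 3), (2, 3), (3, 4), (3, 5)], [(1, 0), (1, 1), (3, 0), (3, 1), (3,
      3), (5, 1)], [(0, 1)], [], [(3, 0, []), (7, 1, [])]⟩]
  Ta := [((2, 1), 0, 2), ((2, 4), 0, 5), ((3, 0), 0, 4), ((3, 7), 0, 1), ((5, 4), 1, 5), ((5, 6),
    1, 3), ((7, 1), 1, 2), ((7, 3), 1, 0)]
  Tb := [((0, 1, 3), 4, 2, 0), ((1, 0, 2), 2, 4, 0), ((1, 0, 7), 2, 4, 1), ((1, 0, 8), 2, 4, 6),
    ((1, 2, 7), 2, 0, 1), ((1, 2, 8), 2, 0, 6), ((1, 7, 8), 2, 1, 6), ((2, 1, 4), 0, 2, 5),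
    ((3, 0, 7), 0, 4, 1), ((4, 2, 5), 5, 0, 1), ((5, 4, 6), 1, 5, 3), ((6, 5, 8), 3, 1, 6),
    ((7, 1, 3), 1, 2, 0), ((8, 1, 6), 6, 2, 3)]
  Tc := []
  Td := [((2, 3), (1, 0), 4), ((2, 3), (1, 2), 0), ((2, 3), (1, 7), 1), ((2, 3), (1, 8), 6), ((3,
    2), (6, 5), 1), ((3, 2), (6, 8), 6)]
  G := [[0, 0, 0x42c1148286112444a1182e, 0,
    0x18113421a4284255612321688c1434168888a391888911b84945c2a], [0, 0, 0x44c112888c1124c,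
    0x1892418c244c2962419284924892d22c,
    0x11186414865211284848a449482e484168811a41486d2184486a], [0, 0, 0, 0,
    0x484251212864384281c81486c124148428422859a4b], [0,
    0x42c244c261828c2842a184241644223881a281881888ec2d, 0,
    0x4144c845284c2d22489288c244c2d229, 0x4841a48416524841681c4148612814868881cc16a]]

noncomputable def n2163 : Ent := ⟨e2163, noF, [], [], []⟩

def c2163 : PLift (Cov.check n2163.C.D v2163 = true) := ⟨by decide +kernel⟩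

def b2163 : PLift (entF (fidx ts) 400 2163 n2163 = true) := ⟨by decide +kernel⟩

theorem g2163 : GoodF (fidx ts) 400 2163 := GoodF.ofV v2163 n2163 c2163.down b2163.down

/-- 4749454:1834 -/
noncomputable def e2164 : SCfg where
  D := {
    a := 7
    L := 10
    kp := 7
    inn := [(0, 1), (1, 0), (1, 2), (1, 3), (1, 6), (2, 1), (2, 3), (3, 1), (3, 2), (3, 4), (3, 5), (3,
      6), (4, 3), (4, 5), (5, 3), (5, 4), (6, 1), (6, 3)]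
    mix := [(0, 0), (0, 1), (0, 2), (1, 0), (1, 2), (1, 3), (2, 2), (2, 4), (3, 4), (3, 5), (3, 6), (3,
      7), (4, 6), (4, 8), (5, 7), (5, 8), (5, 9), (6, 3), (6, 7)]
    cl := [1, 6, 0, 0, 2, 5, 3, 3, 4, 7]
    chq := [(0, 5), (5, 0)]
    rng := [(0, 1), (0, 3), (1, 0), (1, 2), (2, 1), (2, 4), (3, 0), (3, 7), (4, 2), (4, 5), (5, 4), (5,
      6), (6, 5), (6, 8), (7, 3), (7, 9), (8, 6), (8, 9), (9, 7), (9, 8)]
    lev := [] }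
  links := [[1, 7, 8, 9], [7, 0, 9, 2, 3, 6, 10], [3, 1, 9, 11], [6, 1, 2, 11, 12, 13, 4, 5, 14], [5, 3,
    13, 15], [14, 3, 4, 15, 16], [10, 1, 3, 14]]
  P := {
    a := 7
    N := 17
    nb := [898, 1741, 2570, 30838, 41000, 114712, 17418, 1283, 641, 2311, 16578, 4620, 10248, 36888,
      66664, 73776, 49184]
    tri := [(0, 1, 7), (0, 1, 9), (0, 7, 8), (0, 8, 9), (1, 2, 3), (1, 2, 9), (1, 3, 6), (1, 6, 10),
      (1, 7, 10), (2, 3, 11), (2, 9, 11), (3, 4, 5), (3, 4, 13), (3, 5, 14), (3, 6, 14), (3, 11,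
      12), (3, 12, 13), (4, 5, 15), (4, 13, 15), (5, 14, 16), (5, 15, 16), (6, 10, 14)]
    fin := [0, 0, 2, 2, 4, 4, 2, 0, 8, 2, 2, 11, 12, 4, 4, 15, 16]
    chd := [(2, 12)]
    steps := [(0, 1), (0, 7), (2, 3), (2, 6), (2, 9), (2, 10), (4, 5), (4, 13), (4, 14)] }
  rep := [2, 0, 11, 4, 15, 12, 8, 16]

noncomputable def v2164 : Cov.CovD where
  P := 3
  N := 5
  pl := [0, 1, 4, 8, 9]
  lev := [⟨[], [], [], [1, 6], [(2, 0, [5])]⟩,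
    ⟨[], [(0, 0)], [(0, 0)], [1], [(2, 0, [5]), (3, 0, [5])]⟩,
    ⟨[(0, 1)], [(0, 0), (1, 0)], [], [2], [(2, 0, [5])]⟩,
    ⟨[(0, 1), (1, 2)], [(1, 0), (1, 3), (1, 5), (2, 0), (2, 3), (2, 5)], [(3, 3), (3, 5)],
      [2], [(5, 5, [0]), (6, 3, []), (7, 3, [])]⟩,
    ⟨[(1, 3), (2, 3)], [(3, 3), (3, 5)], [], [4], [(6, 3, [])]⟩,
    ⟨[(1, 3), (2, 3), (3, 4)], [(3, 3), (3, 5), (4, 3)], [], [4, 7], [(7, 3, [])]⟩,
    ⟨[(0, 1), (1, 2), (1, 3), (2, 3), (3, 4), (3, 5)], [(1, 0), (1, 3), (3, 0), (3, 3), (3,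
      5), (5, 3)], [(0, 3)], [], [(3, 0, [5]), (7, 3, [])]⟩]
  Ta := [((2, 1), 0, 6), ((2, 4), 0, 2), ((3, 0), 0, 1), ((3, 7), 0, 3), ((6, 5), 3, 5), ((6, 8),
    3, 4), ((7, 3), 3, 0), ((7, 9), 3, 7)]
  Tb := [((0, 1, 3), 1, 6, 0), ((1, 0, 2), 6, 1, 0), ((2, 1, 4), 0, 6, 2), ((3, 0, 7), 0, 1, 3),
    ((4, 2, 5), 2, 0, 5), ((5, 4, 6), 5, 2, 3), ((6, 5, 8), 3, 5, 4), ((7, 3, 9), 3, 0, 7),
    ((8, 6, 9), 4, 3, 7), ((9, 7, 8), 7, 3, 4)]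
  Tc := []
  Td := [((0, 5), (2, 1), 6), ((0, 5), (2, 4), 2), ((0, 5), (3, 0), 1), ((0, 5), (3, 7), 3), ((5,
    0), (5, 4), 2), ((5, 0), (5, 6), 3)]
  G := [[0, 0, 0x11a113542216815918c2253a4c1224142778218111bb41c1193e48c,
    0x28624a22ce18424644a22ce148c, 0x111848b244e823e32488628a22ce184c], [0, 0,
    0x1111111f113c614114ea46112e189384c1212352112e815946118e119511c8a2cc,
    0x111111842b4287cd84111111842d422b6d48c, 0x111842d824b6984111842d424b6928211288d], [0,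
    0x8428228ed1844284488e71826, 0, 0x24624a42ce1881, 0x11124648a423e3281], [0,
    0x822d8287a14484948522e184a, 0, 0x2224f148222822b4827c9288d18cc1,
    0x41322842f1a28c1844b4287c9a41]]

noncomputable def n2164 : Ent := ⟨e2164, noF, [], [], [(8, 15, [1685356702439545624007900436039642273970977273354372543760008945665, 0]), (8, 16, [1580044410770988437309982408355971841652082177953823432505697972225, 0])]⟩

def c2164 : PLift (Cov.check n2164.C.D v2164 = true) := ⟨by decide +kernel⟩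

def b2164 : PLift (entF (fidx ts) 400 2164 n2164 = true) := ⟨by decide +kernel⟩

theorem g2164 : GoodF (fidx ts) 400 2164 := GoodF.ofV v2164 n2164 c2164.down b2164.down

/-- 4746844:1836/1 -/
noncomputable def e2165 : SCfg where
  D := {
    a := 7
    L := 10
    kp := 7
    inn := [(0, 1), (1, 0), (1, 2), (1, 3), (1, 4), (2, 1), (2, 3), (3, 1), (3, 2), (3, 4), (4, 1), (4,
      3), (4, 5), (4, 6), (5, 4), (6, 4)]
    mix := [(0, 0), (0, 1), (0, 2), (1, 0), (1, 2), (1, 3), (2, 2), (2, 4), (3, 4), (3, 5), (3, 6), (4,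
      3), (4, 6), (4, 7), (4, 8), (5, 7), (5, 8), (5, 9), (6, 1), (6, 6), (6, 7)]
    cl := [1, 2, 0, 0, 5, 6, 3, 4, 3, 7]
    chq := [(0, 6), (3, 4), (4, 3), (6, 0)]
    rng := [(0, 1), (0, 3), (1, 0), (1, 2), (1, 6), (1, 7), (2, 1), (2, 4), (3, 0), (3, 8), (4, 2), (4,
      5), (5, 4), (5, 6), (6, 1), (6, 5), (7, 1), (7, 9), (8, 3), (8, 9), (9, 7), (9, 8)]
    lev := [] }
  links := [[1, 7, 8, 9], [7, 0, 9, 2, 3, 4, 10], [3, 1, 9, 11], [4, 1, 2, 11, 12, 13], [10, 1, 3, 13, 6,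
    14, 5, 15], [15, 4, 14, 16], [14, 4, 13, 8]]
  P := {
    a := 7
    N := 17
    nb := [898, 1693, 2570, 14358, 58474, 114704, 24848, 1283, 25281, 2311, 32914, 4620, 10248, 4440,
      65904, 66608, 49184]
    tri := [(0, 1, 7), (0, 1, 9), (0, 7, 8), (0, 8, 9), (1, 2, 3), (1, 2, 9), (1, 3, 4), (1, 4, 10),
      (1, 7, 10), (2, 3, 11), (2, 9, 11), (3, 4, 13), (3, 11, 12), (3, 12, 13), (4, 5, 14), (4, 5,
      15), (4, 6, 13), (4, 6, 14), (4, 10, 15), (5, 14, 16), (5, 15, 16), (6, 8, 13), (6, 8, 14)]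
    fin := [0, 1, 1, 1, 4, 4, 6, 0, 6, 1, 1, 11, 12, 4, 14, 4, 16]
    chd := [(1, 12), (4, 14)]
    steps := [(0, 7), (1, 2), (1, 3), (1, 9), (1, 10), (4, 5), (4, 13), (4, 15), (6, 8)] }
  rep := [1, 0, 6, 4, 14, 11, 12, 16]

noncomputable def v2165 : Cov.CovD where
  P := 3
  N := 5
  pl := [0, 1, 4, 9]
  lev := [⟨[], [], [], [1, 2], [(2, 0, [6])]⟩,
    ⟨[], [(0, 0)], [(0, 0)], [1], [(2, 0, [6]), (3, 0, [6])]⟩,
    ⟨[(0, 1)], [(0, 0), (1, 0)], [], [5], [(2, 0, [6])]⟩,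
    ⟨[(0, 1), (1, 2)], [(1, 0), (1, 3), (1, 6), (2, 0), (2, 3), (2, 6)], [(3, 6)], [5],
      [(5, 6, [0]), (6, 3, [4])]⟩,
    ⟨[(0, 1), (1, 2), (1, 3), (2, 3)], [(1, 0), (1, 3), (1, 4), (3, 0), (3, 3), (3, 4), (3,
      6)], [(0, 3), (0, 4), (3, 3), (3, 4)], [], [(3, 0, [6]), (6, 3, [4]), (7, 4, [3]), (8,
      3, [4])]⟩,
    ⟨[(1, 4), (3, 4)], [(4, 0), (4, 3), (4, 4)], [(3, 4)], [7], [(7, 4, [3]), (8, 3, [4])]⟩,
    ⟨[(1, 4), (3, 4), (4, 5)], [(3, 3), (4, 0), (4, 3), (4, 4), (5, 4)], [(3, 4)], [2],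
      [(6, 3, [4]), (7, 4, [3])]⟩]
  Ta := [((2, 1), 0, 2), ((2, 4), 0, 5), ((3, 0), 0, 1), ((3, 8), 0, 3), ((6, 1), 3, 2), ((6, 5),
    3, 6), ((8, 3), 3, 0), ((8, 9), 3, 7)]
  Tb := [((0, 1, 3), 1, 2, 0), ((1, 0, 2), 2, 1, 0), ((1, 0, 6), 2, 1, 3), ((1, 0, 7), 2, 1, 4),
    ((1, 2, 6), 2, 0, 3), ((1, 2, 7), 2, 0, 4), ((1, 6, 7), 2, 3, 4), ((2, 1, 4), 0, 2, 5),
    ((3, 0, 8), 0, 1, 3), ((4, 2, 5), 5, 0, 6), ((5, 4, 6), 6, 5, 3), ((6, 1, 5), 3, 2, 6),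
    ((7, 1, 9), 4, 2, 7), ((8, 3, 9), 3, 0, 7), ((9, 7, 8), 7, 4, 3)]
  Tc := []
  Td := [((0, 6), (2, 1), 2), ((0, 6), (2, 4), 5), ((0, 6), (3, 0), 1), ((0, 6), (3, 8), 3), ((3,
    4), (6, 1), 2), ((3, 4), (6, 5), 6), ((3, 4), (8, 3), 0), ((3, 4), (8, 9), 7), ((4, 3),
    (7, 1), 2), ((4, 3), (7, 9), 7), ((6, 0), (5, 4), 5), ((6, 0), (5, 6), 3)]
  G := [[0, 0, 0x44a4144a22c61a88622ca188681ac4, 0x582c91b254591d22891b28591d21ec8,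
    0x11a4429288584888611a22ceb1124a8228a32a22c588611324efac8], [0, 0,
    0xa45c2361a45416689c23a168981ac4, 0x4451f21891b28c4b2564517282c8,
    0x891d885a1582363a25416289818182213225227841cec8], [0, 0x88644a11ce188644a11ce1c24, 0,
    0xc91b21c91b21a48, 0x88611a22ce188611a22ce1a48], [0, 0x845913618155136164198141981aa8, 0,
    0x84c1f2184c1f21a44, 0x8a21f418a21f881b616219823a1189825c8]]

noncomputable def n2165 : Ent := ⟨e2165, noF, [], [], []⟩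

def c2165 : PLift (Cov.check n2165.C.D v2165 = true) := ⟨by decide +kernel⟩

def b2165 : PLift (entF (fidx ts) 400 2165 n2165 = true) := ⟨by decide +kernel⟩

theorem g2165 : GoodF (fidx ts) 400 2165 := GoodF.ofV v2165 n2165 c2165.down b2165.down

/-- 4746844:1836/2 -/
noncomputable def e2166 : SCfg where
  D := {
    a := 7
    L := 10
    kp := 7
    inn := [(0, 1), (1, 0), (1, 2), (1, 3), (1, 4), (2, 1), (2, 3), (3, 1), (3, 2), (3, 4), (4, 1), (4,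
      3), (4, 5), (4, 6), (5, 4), (6, 4)]
    mix := [(0, 0), (0, 1), (0, 2), (1, 0), (1, 2), (1, 3), (2, 2), (2, 4), (3, 4), (3, 5), (3, 6), (4,
      3), (4, 6), (4, 7), (4, 8), (5, 1), (5, 7), (5, 8), (6, 6), (6, 7), (6, 9)]
    cl := [1, 2, 0, 0, 5, 6, 3, 4, 3, 7]
    chq := [(0, 6), (3, 4), (4, 3), (6, 0)]
    rng := [(0, 1), (0, 3), (1, 0), (1, 2), (1, 7), (1, 8), (2, 1), (2, 4), (3, 0), (3, 8), (4, 2), (4,
      5), (5, 4), (5, 6), (6, 5), (6, 9), (7, 1), (7, 9), (8, 1), (8, 3), (9, 6), (9, 7)]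
    lev := [] }
  links := [[1, 7, 8, 9], [7, 0, 9, 2, 3, 4, 10], [3, 1, 9, 11], [4, 1, 2, 11, 12, 13], [10, 1, 3, 13, 6,
    14, 5, 15], [15, 4, 14, 8], [14, 4, 13, 16]]
  P := {
    a := 7
    N := 17
    nb := [898, 1693, 2570, 14358, 58474, 49424, 90128, 1283, 49825, 2311, 32914, 4620, 10248, 69720,
      65904, 1328, 24640]
    tri := [(0, 1, 7), (0, 1, 9), (0, 7, 8), (0, 8, 9), (1, 2, 3), (1, 2, 9), (1, 3, 4), (1, 4, 10),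
      (1, 7, 10), (2, 3, 11), (2, 9, 11), (3, 4, 13), (3, 11, 12), (3, 12, 13), (4, 5, 14), (4, 5,
      15), (4, 6, 13), (4, 6, 14), (4, 10, 15), (5, 8, 14), (5, 8, 15), (6, 13, 16), (6, 14, 16)]
    fin := [0, 1, 1, 1, 4, 5, 4, 0, 5, 1, 1, 11, 12, 4, 14, 4, 16]
    chd := [(1, 12), (4, 14)]
    steps := [(0, 7), (1, 2), (1, 3), (1, 9), (1, 10), (4, 6), (4, 13), (4, 15), (5, 8)] }
  rep := [1, 0, 5, 4, 14, 11, 12, 16]

noncomputable def v2166 : Cov.CovD where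
  P := 3
  N := 5
  pl := [0, 1, 4, 9]
  lev := [⟨[], [], [], [1, 2], [(2, 0, [6])]⟩,
    ⟨[], [(0, 0)], [(0, 0)], [1], [(2, 0, [6]), (3, 0, [6])]⟩,
    ⟨[(0, 1)], [(0, 0), (1, 0)], [], [5], [(2, 0, [6])]⟩,
    ⟨[(0, 1), (1, 2)], [(1, 0), (1, 3), (1, 6), (2, 0), (2, 3), (2, 6)], [(3, 6)], [5],
      [(5, 6, [0]), (6, 3, [4])]⟩,
    ⟨[(0, 1), (1, 2), (1, 3), (2, 3)], [(1, 0), (1, 3), (1, 4), (3, 0), (3, 3), (3, 4), (3,
      6)], [(0, 3), (0, 4), (3, 3), (3, 4)], [], [(3, 0, [6]), (6, 3, [4]), (7, 4, [3]), (8,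
      3, [4])]⟩,
    ⟨[(1, 4), (3, 4)], [(4, 0), (4, 3), (4, 4)], [(3, 4)], [2], [(7, 4, [3]), (8, 3, [4])]⟩,
    ⟨[(1, 4), (3, 4), (4, 5)], [(3, 3), (4, 0), (4, 3), (4, 4), (5, 4)], [(3, 4)], [7],
      [(6, 3, [4]), (7, 4, [3])]⟩]
  Ta := [((2, 1), 0, 2), ((2, 4), 0, 5), ((3, 0), 0, 1), ((3, 8), 0, 3), ((6, 5), 3, 6), ((6, 9),
    3, 7), ((8, 1), 3, 2), ((8, 3), 3, 0)]
  Tb := [((0, 1, 3), 1, 2, 0), ((1, 0, 2), 2, 1, 0), ((1, 0, 7), 2, 1, 4), ((1, 0, 8), 2, 1, 3),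
    ((1, 2, 7), 2, 0, 4), ((1, 2, 8), 2, 0, 3), ((1, 7, 8), 2, 4, 3), ((2, 1, 4), 0, 2, 5),
    ((3, 0, 8), 0, 1, 3), ((4, 2, 5), 5, 0, 6), ((5, 4, 6), 6, 5, 3), ((6, 5, 9), 3, 6, 7),
    ((7, 1, 9), 4, 2, 7), ((8, 1, 3), 3, 2, 0), ((9, 6, 7), 7, 3, 4)]
  Tc := []
  Td := [((0, 6), (2, 1), 2), ((0, 6), (2, 4), 5), ((0, 6), (3, 0), 1), ((0, 6), (3, 8), 3), ((3,
    4), (6, 5), 6), ((3, 4), (6, 9), 7), ((3, 4), (8, 1), 2), ((3, 4), (8, 3), 0), ((4, 3),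
    (7, 1), 2), ((4, 3), (7, 9), 7), ((6, 0), (5, 4), 5), ((6, 0), (5, 6), 3)]
  G := [[0, 0, 0x414e33c61414e416188e221ea1188e81ac4, 0x63522422c5e352724c19ae3523b428e84,
    0x782854594381978c4a7c59386569244138112928f52c299121aa9cc8], [0, 0,
    0xa4c261a441668c2a16881cc8, 0x6352844a3924483d21a8c,
    0x85942a144216668a1c1589848c2a34122523e8ec8], [0, 0x58239615823561694819481ac8, 0,
    0xe3921e3521c84, 0x51386145341658a61aa19281ac8], [0, 0x68c1a1a4c16168a4c1e28, 0,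
    0xa63d21a63d21c84, 0x6882abc2e16882abc2e1a48]]

noncomputable def n2166 : Ent := ⟨e2166, noF, [], [], []⟩

def c2166 : PLift (Cov.check n2166.C.D v2166 = true) := ⟨by decide +kernel⟩

def b2166 : PLift (entF (fidx ts) 400 2166 n2166 = true) := ⟨by decide +kernel⟩

theorem g2166 : GoodF (fidx ts) 400 2166 := GoodF.ofV v2166 n2166 c2166.down b2166.down

/-- 4746844:1836 -/
noncomputable def e2167 : SCfg where
  D := {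
    a := 7
    L := 11
    kp := 8
    inn := [(0, 1), (1, 0), (1, 2), (1, 3), (1, 4), (2, 1), (2, 3), (3, 1), (3, 2), (3, 4), (4, 1), (4,
      3), (4, 5), (4, 6), (5, 4), (6, 4)]
    mix := [(0, 0), (0, 1), (0, 2), (1, 0), (1, 2), (1, 3), (2, 2), (2, 4), (3, 4), (3, 5), (3, 6), (4,
      3), (4, 6), (4, 7), (4, 8), (5, 7), (5, 8), (5, 9), (6, 6), (6, 7), (6, 10)]
    cl := [1, 6, 0, 0, 2, 5, 3, 4, 3, 7, 8]
    chq := [(0, 5), (3, 4), (4, 3), (5, 0)]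
    rng := [(0, 1), (0, 3), (1, 0), (1, 2), (2, 1), (2, 4), (3, 0), (3, 8), (4, 2), (4, 5), (5, 4), (5,
      6), (6, 5), (6, 10), (7, 9), (7, 10), (8, 3), (8, 9), (9, 7), (9, 8), (10, 6), (10, 7)]
    lev := [] }
  links := [[1, 7, 8, 9], [7, 0, 9, 2, 3, 4, 10], [3, 1, 9, 11], [4, 1, 2, 11, 12, 13], [10, 1, 3, 13, 6,
    14, 5, 15], [15, 4, 14, 16], [14, 4, 13, 17]]
  P := {
    a := 7
    N := 18
    nb := [898, 1693, 2570, 14358, 58474, 114704, 155664, 1283, 641, 2311, 32914, 4620, 10248, 135256,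
      196720, 66608, 49184, 24640]
    tri := [(0, 1, 7), (0, 1, 9), (0, 7, 8), (0, 8, 9), (1, 2, 3), (1, 2, 9), (1, 3, 4), (1, 4, 10),
      (1, 7, 10), (2, 3, 11), (2, 9, 11), (3, 4, 13), (3, 11, 12), (3, 12, 13), (4, 5, 14), (4, 5,
      15), (4, 6, 13), (4, 6, 14), (4, 10, 15), (5, 14, 16), (5, 15, 16), (6, 13, 17), (6, 14,
      17)]
    fin := [0, 1, 1, 1, 4, 4, 4, 0, 8, 1, 1, 11, 12, 4, 14, 4, 16, 17]
    chd := [(1, 12), (4, 14)]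
    steps := [(0, 7), (1, 2), (1, 3), (1, 9), (1, 10), (4, 5), (4, 6), (4, 13), (4, 15)] }
  rep := [1, 0, 11, 4, 14, 12, 8, 16, 17]

noncomputable def v2167 : Cov.CovD where
  P := 3
  N := 6
  pl := [0, 1, 4, 9, 10]
  lev := [⟨[], [], [], [1, 6], [(2, 0, [5])]⟩,
    ⟨[], [(0, 0)], [(0, 0)], [1], [(2, 0, [5]), (3, 0, [5])]⟩,
    ⟨[(0, 1)], [(0, 0), (1, 0)], [], [2], [(2, 0, [5])]⟩,
    ⟨[(0, 1), (1, 2)], [(1, 0), (1, 3), (1, 5), (2, 0), (2, 3), (2, 5)], [(3, 5)], [2],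
      [(5, 5, [0]), (6, 3, [4])]⟩,
    ⟨[(0, 1), (1, 2), (1, 3), (2, 3)], [(1, 0), (1, 3), (1, 4), (3, 0), (3, 3), (3, 4), (3,
      5)], [(0, 3), (0, 4), (3, 3), (3, 4)], [], [(3, 0, [5]), (6, 3, [4]), (7, 4, [3]), (8,
      3, [4])]⟩,
    ⟨[(1, 4), (3, 4)], [(4, 0), (4, 3), (4, 4)], [(3, 4)], [7], [(7, 4, [3]), (8, 3, [4])]⟩,
    ⟨[(1, 4), (3, 4), (4, 5)], [(3, 3), (4, 0), (4, 3), (4, 4), (5, 4)], [(3, 4)], [8],
      [(6, 3, [4]), (7, 4, [3])]⟩]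
  Ta := [((2, 1), 0, 6), ((2, 4), 0, 2), ((3, 0), 0, 1), ((3, 8), 0, 3), ((6, 5), 3, 5), ((6,
    10), 3, 8), ((8, 3), 3, 0), ((8, 9), 3, 7)]
  Tb := [((0, 1, 3), 1, 6, 0), ((1, 0, 2), 6, 1, 0), ((2, 1, 4), 0, 6, 2), ((3, 0, 8), 0, 1, 3),
    ((4, 2, 5), 2, 0, 5), ((5, 4, 6), 5, 2, 3), ((6, 5, 10), 3, 5, 8), ((7, 9, 10), 4, 7, 8),
    ((8, 3, 9), 3, 0, 7), ((9, 7, 8), 7, 4, 3), ((10, 6, 7), 8, 3, 4)]
  Tc := []
  Td := [((0, 5), (2, 1), 6), ((0, 5), (2, 4), 2), ((0, 5), (3, 0), 1), ((0, 5), (3, 8), 3), ((3,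
    4), (6, 5), 5), ((3, 4), (6, 10), 8), ((3, 4), (8, 3), 0), ((3, 4), (8, 9), 7), ((4, 3),
    (7, 9), 7), ((4, 3), (7, 10), 8), ((5, 0), (5, 4), 2), ((5, 0), (5, 6), 3)]
  G := [[0, 0,
    0x78111d6211a446b4222e92153792b48c6fd27844abc6cd2b4888e752191b7844cef784e2b4111d622eb211688acc,
    0x55a4149962211fa18c55a4141881f33ca18cc, 0x55a33c612996818c55a2211f612996812cc], [0, 0,
    0x8925f842e5281a893f847464153348b5449f8a4c8985f4222819338a2ef4a549d82414613f642eb8acc,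
    0xa55c33614699814ca55414699c33a18cc, 0xa55c33612699818ca55418699c33a12cc], [0,
    0x55a33c614996814a55a4181881f2211fa18cc, 0, 0x1455a33ce14896814c1,
    0x55a2211f612996818c1], [0, 0xcc3214699a55c146a55418699c33a14ca, 0,
    0x8a25f84c3f6186429f818c1, 0x8ac4126429f2a384c3fe12c1]]

noncomputable def n2167 : Ent := ⟨e2167, noF, [], [], [(8, 17, [6903326391201334775872065844685381424292761054348340378595029938556929, 0]), (8, 16, [7334685537875745012586738086077695515070955365108989538292687702548481, 0])]⟩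

def c2167 : PLift (Cov.check n2167.C.D v2167 = true) := ⟨by decide +kernel⟩

def b2167 : PLift (entF (fidx ts) 400 2167 n2167 = true) := ⟨by decide +kernel⟩

theorem g2167 : GoodF (fidx ts) 400 2167 := GoodF.ofV v2167 n2167 c2167.down b2167.down

/-- 4694644:1841/1 -/
noncomputable def e2168 : SCfg where
  D := {
    a := 7
    L := 9
    kp := 6
    inn := [(0, 1), (0, 2), (0, 4), (1, 0), (1, 4), (2, 0), (2, 3), (2, 4), (2, 5), (2, 6), (3, 2), (4,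
      0), (4, 1), (4, 2), (4, 5), (5, 2), (5, 4), (6, 2)]
    mix := [(0, 0), (1, 0), (1, 1), (1, 2), (1, 3), (2, 0), (2, 4), (2, 5), (2, 6), (3, 2), (3, 4), (3,
      5), (4, 3), (4, 7), (5, 4), (5, 7), (6, 5), (6, 6), (6, 8)]
    cl := [1, 5, 2, 1, 0, 3, 0, 4, 6]
    chq := [(0, 3), (3, 0)]
    rng := [(0, 1), (0, 6), (1, 0), (1, 2), (2, 1), (2, 3), (2, 4), (2, 5), (3, 2), (3, 7), (4, 2), (4,
      7), (5, 2), (5, 8), (6, 0), (6, 8), (7, 3), (7, 4), (8, 5), (8, 6)]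
    lev := [] }
  links := [[1, 4, 2, 7], [4, 0, 7, 8, 9, 10], [7, 0, 4, 5, 11, 3, 12, 6, 13], [12, 2, 11, 9], [5, 2, 0,
    1, 10, 14], [11, 2, 4, 14], [13, 2, 12, 15]]
  P := {
    a := 7
    N := 16
    nb := [150, 1937, 14585, 6660, 17447, 18452, 45060, 8455, 642, 7434, 16914, 16940, 33356, 32964,
      3120, 12352]
    tri := [(0, 1, 4), (0, 1, 7), (0, 2, 4), (0, 2, 7), (1, 4, 10), (1, 7, 8), (1, 8, 9), (1, 9, 10),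
      (2, 3, 11), (2, 3, 12), (2, 4, 5), (2, 5, 11), (2, 6, 12), (2, 6, 13), (2, 7, 13), (3, 9,
      11), (3, 9, 12), (4, 5, 14), (4, 10, 14), (5, 11, 14), (6, 12, 15), (6, 13, 15)]
    fin := [0, 0, 2, 3, 0, 0, 2, 0, 8, 3, 0, 2, 12, 2, 14, 15]
    chd := [(2, 12)]
    steps := [(0, 1), (0, 4), (0, 5), (0, 7), (0, 10), (2, 6), (2, 11), (2, 13), (3, 9)] }
  rep := [2, 0, 3, 12, 14, 8, 15]

noncomputable def v2168 : Cov.CovD where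
  P := 3
  N := 4
  pl := [1, 2, 7, 8]
  lev := [⟨[], [], [], [], [(0, 1, [])]⟩,
    ⟨[], [(0, 1)], [(1, 1)], [2, 5], [(0, 1, []), (3, 1, [])]⟩,
    ⟨[(0, 1)], [(0, 0), (0, 1), (0, 3), (1, 1)], [(0, 0), (0, 1), (0, 3), (1, 3)], [], [(0,
      1, []), (4, 0, [3]), (5, 3, [0]), (6, 0, [3])]⟩,
    ⟨[(0, 2)], [(2, 0), (2, 1), (2, 3)], [(0, 3)], [2], [(4, 0, [3]), (5, 3, [0])]⟩,
    ⟨[(0, 1), (0, 2), (1, 2), (2, 3)], [(0, 1), (1, 1), (2, 0), (2, 1), (2, 3)], [], [4],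
      [(3, 1, [])]⟩,
    ⟨[(0, 2), (0, 4), (1, 4), (2, 3), (2, 4)], [(2, 0), (2, 1), (2, 3), (3, 0), (4, 0), (4,
      1)], [], [4], [(4, 0, [3])]⟩,
    ⟨[(0, 2), (2, 3), (2, 4), (2, 5)], [(2, 0), (2, 1), (2, 3), (3, 3)], [(0, 3)], [6],
      [(5, 3, [0]), (6, 0, [3])]⟩]
  Ta := [((0, 1), 1, 5), ((0, 6), 1, 0), ((3, 2), 1, 2), ((3, 7), 1, 4), ((4, 2), 0, 2), ((4, 7),
    0, 4), ((6, 0), 0, 1), ((6, 8), 0, 6)]
  Tb := [((0, 1, 6), 1, 5, 0), ((1, 0, 2), 5, 1, 2), ((2, 1, 3), 2, 5, 1), ((2, 1, 4), 2, 5, 0),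
    ((2, 1, 5), 2, 5, 3), ((2, 3, 4), 2, 1, 0), ((2, 3, 5), 2, 1, 3), ((2, 4, 5), 2, 0, 3),
    ((3, 2, 7), 1, 2, 4), ((4, 2, 7), 0, 2, 4), ((5, 2, 8), 3, 2, 6), ((6, 0, 8), 0, 1, 6),
    ((7, 3, 4), 4, 1, 0), ((8, 5, 6), 6, 3, 0)]
  Tc := []
  Td := [((0, 3), (4, 2), 2), ((0, 3), (4, 7), 4), ((0, 3), (6, 0), 1), ((0, 3), (6, 8), 6), ((3,
    0), (5, 2), 2), ((3, 0), (5, 8), 6)]
  G := [[0, 0, 0x12121214c12181214cc1, 0, 0x141258186252c11c221bc26212cac91], [0, 0,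
    0x1161811a14c1161811a14cc1, 0x14125812b294c98d4c5814cc291,
    0x145258326852c141258686292c92], [0, 0x28ae11624e11caa61166a11cc2, 0, 0,
    0xe2116122c212812ac12612ac91], [0, 0, 0, 0x62182196211c62182196211cc1,
    0xae611a6a14813c42122a1c4825b66a12c92]]

noncomputable def n2168 : Ent := ⟨e2168, noF, [], [], []⟩

def c2168 : PLift (Cov.check n2168.C.D v2168 = true) := ⟨by decide +kernel⟩

def b2168 : PLift (entF (fidx ts) 400 2168 n2168 = true) := ⟨by decide +kernel⟩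

theorem g2168 : GoodF (fidx ts) 400 2168 := GoodF.ofV v2168 n2168 c2168.down b2168.down

/-- 4694644:1841/2 -/
noncomputable def e2169 : SCfg where
  D := {
    a := 7
    L := 9
    kp := 6
    inn := [(0, 1), (0, 2), (0, 4), (1, 0), (1, 4), (2, 0), (2, 3), (2, 4), (2, 5), (2, 6), (3, 2), (4,
      0), (4, 1), (4, 2), (4, 5), (5, 2), (5, 4), (6, 2)]
    mix := [(0, 0), (1, 0), (1, 1), (1, 2), (1, 3), (2, 0), (2, 4), (2, 5), (2, 6), (3, 4), (3, 5), (3,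
      7), (4, 3), (4, 8), (5, 4), (5, 8), (6, 2), (6, 5), (6, 6)]
    cl := [1, 5, 2, 1, 0, 3, 0, 6, 4]
    chq := [(0, 3), (3, 0)]
    rng := [(0, 1), (0, 6), (1, 0), (1, 2), (2, 1), (2, 3), (2, 5), (2, 6), (3, 2), (3, 8), (4, 7), (4,
      8), (5, 2), (5, 7), (6, 0), (6, 2), (7, 4), (7, 5), (8, 3), (8, 4)]
    lev := [] }
  links := [[1, 4, 2, 7], [4, 0, 7, 8, 9, 10], [7, 0, 4, 5, 11, 3, 12, 6, 13], [12, 2, 11, 14], [5, 2, 0,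
    1, 10, 15], [11, 2, 4, 15], [13, 2, 12, 9]]
  P := {
    a := 7
    N := 16
    nb := [150, 1937, 14585, 22532, 33831, 34836, 12804, 8455, 642, 13634, 33298, 49196, 16972, 708,
      6152, 3120]
    tri := [(0, 1, 4), (0, 1, 7), (0, 2, 4), (0, 2, 7), (1, 4, 10), (1, 7, 8), (1, 8, 9), (1, 9, 10),
      (2, 3, 11), (2, 3, 12), (2, 4, 5), (2, 5, 11), (2, 6, 12), (2, 6, 13), (2, 7, 13), (3, 11,
      14), (3, 12, 14), (4, 5, 15), (4, 10, 15), (5, 11, 15), (6, 9, 12), (6, 9, 13)]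
    fin := [0, 0, 2, 2, 0, 0, 6, 0, 8, 6, 0, 2, 12, 2, 14, 15]
    chd := [(2, 12)]
    steps := [(0, 1), (0, 4), (0, 5), (0, 7), (0, 10), (2, 3), (2, 11), (2, 13), (6, 9)] }
  rep := [2, 0, 6, 12, 15, 8, 14]

noncomputable def v2169 : Cov.CovD where
  P := 3
  N := 4
  pl := [1, 2, 7, 8]
  lev := [⟨[], [], [], [], [(0, 1, [])]⟩,
    ⟨[], [(0, 1)], [(1, 1)], [2, 5], [(0, 1, []), (3, 1, [])]⟩,
    ⟨[(0, 1)], [(0, 0), (0, 1), (0, 3), (1, 1)], [(0, 0), (0, 1), (0, 3), (1, 3)], [], [(0,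
      1, []), (4, 0, [3]), (5, 3, [0]), (6, 0, [3])]⟩,
    ⟨[(0, 2)], [(2, 0), (2, 1), (2, 3)], [(0, 3)], [6], [(4, 0, [3]), (5, 3, [0])]⟩,
    ⟨[(0, 1), (0, 2), (1, 2), (2, 3)], [(0, 1), (1, 1), (2, 0), (2, 1), (2, 3)], [], [4],
      [(3, 1, [])]⟩,
    ⟨[(0, 2), (0, 4), (1, 4), (2, 3), (2, 4)], [(2, 0), (2, 1), (2, 3), (3, 0), (4, 0), (4,
      1)], [], [4], [(4, 0, [3])]⟩,
    ⟨[(0, 2), (2, 3), (2, 4), (2, 5)], [(2, 0), (2, 1), (2, 3), (3, 3)], [(0, 3)], [2],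
      [(5, 3, [0]), (6, 0, [3])]⟩]
  Ta := [((0, 1), 1, 5), ((0, 6), 1, 0), ((3, 2), 1, 2), ((3, 8), 1, 4), ((4, 7), 0, 6), ((4, 8),
    0, 4), ((6, 0), 0, 1), ((6, 2), 0, 2)]
  Tb := [((0, 1, 6), 1, 5, 0), ((1, 0, 2), 5, 1, 2), ((2, 1, 3), 2, 5, 1), ((2, 1, 5), 2, 5, 3),
    ((2, 1, 6), 2, 5, 0), ((2, 3, 5), 2, 1, 3), ((2, 3, 6), 2, 1, 0), ((2, 5, 6), 2, 3, 0),
    ((3, 2, 8), 1, 2, 4), ((4, 7, 8), 0, 6, 4), ((5, 2, 7), 3, 2, 6), ((6, 0, 2), 0, 1, 2),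
    ((7, 4, 5), 6, 0, 3), ((8, 3, 4), 4, 1, 0)]
  Tc := []
  Td := [((0, 3), (4, 7), 6), ((0, 3), (4, 8), 4), ((0, 3), (6, 0), 1), ((0, 3), (6, 2), 2), ((3,
    0), (5, 2), 2), ((3, 0), (5, 7), 6)]
  G := [[0, 0, 0, 0, 0x181234418123282256491232582825a282232c1432382286a89c], [0, 0, 0,
    0x124821a921421496c121144a424292c91282888188ca4444253,
    0x12181214c13412514185a9211a91222a96c3441284ca9882812c6c93], [0,
    0x48a11c48851644a1188a116c8, 0x22114211c82112211cc1, 0, 0x82112212c182112122126c2124495],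
    [0, 0, 0x22a1144a11c28a1142c11cc1, 0x8218215814211818498682124211cc5,
    0x8861122a122616c8861122a12121c6c92]]

noncomputable def n2169 : Ent := ⟨e2169, noF, [], [], []⟩

def c2169 : PLift (Cov.check n2169.C.D v2169 = true) := ⟨by decide +kernel⟩

def b2169 : PLift (entF (fidx ts) 400 2169 n2169 = true) := ⟨by decide +kernel⟩

theorem g2169 : GoodF (fidx ts) 400 2169 := GoodF.ofV v2169 n2169 c2169.down b2169.down

/-- 4694644:1841 -/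
noncomputable def e2170 : SCfg where
  D := {
    a := 7
    L := 10
    kp := 7
    inn := [(0, 1), (0, 2), (0, 4), (1, 0), (1, 4), (2, 0), (2, 3), (2, 4), (2, 5), (2, 6), (3, 2), (4,
      0), (4, 1), (4, 2), (4, 5), (5, 2), (5, 4), (6, 2)]
    mix := [(0, 0), (1, 0), (1, 1), (1, 2), (1, 3), (2, 0), (2, 4), (2, 5), (2, 6), (3, 4), (3, 5), (3,
      7), (4, 3), (4, 8), (5, 4), (5, 8), (6, 5), (6, 6), (6, 9)]
    cl := [1, 4, 5, 1, 0, 2, 0, 6, 3, 7]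
    chq := [(0, 2), (2, 0)]
    rng := [(0, 1), (0, 6), (1, 0), (1, 2), (2, 1), (2, 3), (3, 2), (3, 8), (4, 7), (4, 8), (5, 7), (5,
      9), (6, 0), (6, 9), (7, 4), (7, 5), (8, 3), (8, 4), (9, 5), (9, 6)]
    lev := [] }
  links := [[1, 4, 2, 7], [4, 0, 7, 8, 9, 10], [7, 0, 4, 5, 11, 3, 12, 6, 13], [12, 2, 11, 14], [5, 2, 0,
    1, 10, 15], [11, 2, 4, 15], [13, 2, 12, 16]]
  P := {
    a := 7
    N := 17
    nb := [150, 1937, 14585, 22532, 33831, 34836, 77828, 8455, 642, 1282, 33298, 49196, 81996, 65732,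
      6152, 3120, 12352]
    tri := [(0, 1, 4), (0, 1, 7), (0, 2, 4), (0, 2, 7), (1, 4, 10), (1, 7, 8), (1, 8, 9), (1, 9, 10),
      (2, 3, 11), (2, 3, 12), (2, 4, 5), (2, 5, 11), (2, 6, 12), (2, 6, 13), (2, 7, 13), (3, 11,
      14), (3, 12, 14), (4, 5, 15), (4, 10, 15), (5, 11, 15), (6, 12, 16), (6, 13, 16)]
    fin := [0, 0, 2, 2, 0, 0, 2, 0, 8, 9, 0, 2, 12, 2, 14, 15, 16]
    chd := [(2, 12)]
    steps := [(0, 1), (0, 4), (0, 5), (0, 7), (0, 10), (2, 3), (2, 6), (2, 11), (2, 13)] }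
  rep := [2, 0, 12, 15, 8, 9, 14, 16]

noncomputable def v2170 : Cov.CovD where
  P := 3
  N := 5
  pl := [1, 2, 7, 8, 9]
  lev := [⟨[], [], [], [], [(0, 1, [])]⟩,
    ⟨[], [(0, 1)], [(1, 1)], [4, 5], [(0, 1, []), (3, 1, [])]⟩,
    ⟨[(0, 1)], [(0, 0), (0, 1), (0, 2), (1, 1)], [(0, 0), (0, 1), (0, 2), (1, 2)], [], [(0,
      1, []), (4, 0, [2]), (5, 2, [0]), (6, 0, [2])]⟩,
    ⟨[(0, 2)], [(2, 0), (2, 1), (2, 2)], [(0, 2)], [6], [(4, 0, [2]), (5, 2, [0])]⟩,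
    ⟨[(0, 1), (0, 2), (1, 2), (2, 3)], [(0, 1), (1, 1), (2, 0), (2, 1), (2, 2)], [], [3],
      [(3, 1, [])]⟩,
    ⟨[(0, 2), (0, 4), (1, 4), (2, 3), (2, 4)], [(2, 0), (2, 1), (2, 2), (3, 0), (4, 0), (4,
      1)], [], [3], [(4, 0, [2])]⟩,
    ⟨[(0, 2), (2, 3), (2, 4), (2, 5)], [(2, 0), (2, 1), (2, 2), (3, 2)], [(0, 2)], [7],
      [(5, 2, [0]), (6, 0, [2])]⟩]
  Ta := [((0, 1), 1, 4), ((0, 6), 1, 0), ((3, 2), 1, 5), ((3, 8), 1, 3), ((4, 7), 0, 6), ((4, 8),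
    0, 3), ((6, 0), 0, 1), ((6, 9), 0, 7)]
  Tb := [((0, 1, 6), 1, 4, 0), ((1, 0, 2), 4, 1, 5), ((2, 1, 3), 5, 4, 1), ((3, 2, 8), 1, 5, 3),
    ((4, 7, 8), 0, 6, 3), ((5, 7, 9), 2, 6, 7), ((6, 0, 9), 0, 1, 7), ((7, 4, 5), 6, 0, 2),
    ((8, 3, 4), 3, 1, 0), ((9, 5, 6), 7, 2, 0)]
  Tc := []
  Td := [((0, 2), (4, 7), 6), ((0, 2), (4, 8), 3), ((0, 2), (6, 0), 1), ((0, 2), (6, 9), 7), ((2,
    0), (5, 7), 6), ((2, 0), (5, 9), 7)]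
  G := [[0, 0, 0xa12a21a4621612c8621a12c8d4, 0x11c218123c411c212129c41412312129c4d8,
    0x1212518123a81412311c2a81412311c2a8d4], [0, 0, 0x666166a1a86661284e1a8a1685ac6168d2,
    0x1412514185c81814918129c41812c18129c4d2, 0x1412514125a8121492181498a1214c21814c8ad1],
    [0, 0xcca1144c8e118cc6118e2, 0xa12a21c4621a1268a12c1264d1, 0xc21181c2114c2114c5,
    0xa2118a2118a2118d4], [0, 0, 0x284e1cca1a4a18a21a41e46661666168d8,
    0xc84e114cca114cca114d8, 0x28ae118aa61182a8e118d2]]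

noncomputable def n2170 : Ent := ⟨e2170, noF, [], [], [(9, 14, [1685382413448253767852309107433119732572617628602273068445373792257, 0]), (9, 16, [1580044410770988437309982408355971841652082177953823432505697996801, 0])]⟩

def c2170 : PLift (Cov.check n2170.C.D v2170 = true) := ⟨by decide +kernel⟩

def b2170 : PLift (entF (fidx ts) 400 2170 n2170 = true) := ⟨by decide +kernel⟩

theorem g2170 : GoodF (fidx ts) 400 2170 := GoodF.ofV v2170 n2170 c2170.down b2170.down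

/-- 4749445:1844/1 -/
noncomputable def e2171 : SCfg where
  D := {
    a := 7
    L := 9
    kp := 6
    inn := [(0, 1), (1, 0), (1, 2), (1, 3), (1, 5), (2, 1), (2, 3), (3, 1), (3, 2), (3, 4), (3, 5), (3,
      6), (4, 3), (4, 6), (5, 1), (5, 3), (6, 3), (6, 4)]
    mix := [(0, 0), (0, 1), (0, 2), (1, 0), (1, 2), (1, 3), (2, 2), (2, 4), (3, 4), (3, 5), (3, 6), (3,
      7), (4, 6), (4, 8), (5, 3), (5, 7), (6, 1), (6, 5), (6, 8)]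
    cl := [2, 5, 0, 0, 1, 3, 1, 6, 4]
    chq := [(3, 4), (4, 3)]
    rng := [(0, 1), (0, 3), (1, 0), (1, 2), (1, 5), (1, 8), (2, 1), (2, 4), (3, 0), (3, 7), (4, 2), (4,
      5), (5, 1), (5, 4), (6, 7), (6, 8), (7, 3), (7, 6), (8, 1), (8, 6)]
    lev := [] }
  links := [[1, 7, 8, 9], [7, 0, 9, 2, 3, 5, 10], [3, 1, 9, 11], [5, 1, 2, 11, 12, 6, 4, 13, 14], [13, 3,
    6, 15], [10, 1, 3, 14], [15, 4, 3, 12, 8]]
  P := {
    a := 7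
    N := 16
    nb := [898, 1709, 2570, 30838, 41032, 17418, 37144, 1283, 37569, 2311, 16546, 4620, 2376, 49176,
      9256, 8528]
    tri := [(0, 1, 7), (0, 1, 9), (0, 7, 8), (0, 8, 9), (1, 2, 3), (1, 2, 9), (1, 3, 5), (1, 5, 10),
      (1, 7, 10), (2, 3, 11), (2, 9, 11), (3, 4, 6), (3, 4, 13), (3, 5, 14), (3, 6, 12), (3, 11,
      12), (3, 13, 14), (4, 6, 15), (4, 13, 15), (5, 10, 14), (6, 8, 12), (6, 8, 15)]
    fin := [0, 1, 1, 3, 3, 1, 6, 0, 8, 1, 1, 3, 6, 3, 14, 15]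
    chd := [(6, 15)]
    steps := [(0, 7), (1, 2), (1, 5), (1, 9), (1, 10), (3, 4), (3, 11), (3, 13), (6, 12)] }
  rep := [1, 3, 0, 6, 15, 8, 14]

noncomputable def v2171 : Cov.CovD where
  P := 3
  N := 4
  pl := [0, 1, 7]
  lev := [⟨[], [], [], [2, 5], [(2, 0, [])]⟩,
    ⟨[], [(0, 0)], [(0, 0)], [2], [(2, 0, []), (3, 0, [])]⟩,
    ⟨[(0, 1)], [(0, 0), (1, 0), (1, 1)], [(0, 1)], [], [(2, 0, []), (4, 1, [])]⟩,
    ⟨[(0, 1), (1, 2)], [(1, 0), (1, 1), (1, 3), (2, 0), (2, 1), (2, 3)], [(1, 1), (1, 3)],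
      [6], [(4, 1, []), (5, 3, [4]), (6, 1, [])]⟩,
    ⟨[(1, 3), (2, 3)], [(3, 1), (3, 3), (3, 4)], [(1, 4)], [], [(6, 1, []), (8, 4, [3])]⟩,
    ⟨[(0, 1), (1, 2), (1, 3), (2, 3), (3, 4)], [(1, 0), (3, 0), (3, 1), (3, 3)], [], [6],
      [(3, 0, [])]⟩,
    ⟨[(1, 3), (2, 3), (3, 4), (3, 5)], [(3, 1), (3, 3), (3, 4), (4, 1), (4, 3), (4, 4)],
      [(3, 4)], [5], [(5, 3, [4]), (8, 4, [3])]⟩]
  Ta := [((2, 1), 0, 5), ((2, 4), 0, 1), ((3, 0), 0, 2), ((3, 7), 0, 6), ((4, 2), 1, 0), ((4, 5),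
    1, 3), ((6, 7), 1, 6), ((6, 8), 1, 4)]
  Tb := [((0, 1, 3), 2, 5, 0), ((1, 0, 2), 5, 2, 0), ((1, 0, 5), 5, 2, 3), ((1, 0, 8), 5, 2, 4),
    ((1, 2, 5), 5, 0, 3), ((1, 2, 8), 5, 0, 4), ((1, 5, 8), 5, 3, 4), ((2, 1, 4), 0, 5, 1),
    ((3, 0, 7), 0, 2, 6), ((4, 2, 5), 1, 0, 3), ((5, 1, 4), 3, 5, 1), ((6, 7, 8), 1, 6, 4),
    ((7, 3, 6), 6, 0, 1), ((8, 1, 6), 4, 5, 1)]
  Tc := []
  Td := [((3, 4), (5, 1), 5), ((3, 4), (5, 4), 1), ((4, 3), (8, 1), 5), ((4, 3), (8, 6), 1)]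
  G := [[0, 0x1211c1111a1114ce2411126114191111ce28c, 0, 0xa11a212a5428a184c24511262c56118c8c,
    0xc224c129252c9c221122172629d48a], [0, 0, 0, 0xa11b112832cd244114412152112fad4cdc8c,
    0x4114d11811d5692cdc2412156112813ccd82a], [0, 0, 0xc224c22d229c2221221c2252a1c4a,
    0x42248a232942222d2e22d2a9cc1, 0x2222d2e422d2227e21269c21], [0, 0,
    0x48a15214c94294614c9641c8a41468122c89c2e, 0x72a469186bcc52a24ba584c1,
    0x624b4e94e2b2512f66c9c21]]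

noncomputable def n2171 : Ent := ⟨e2171, noF, [], [], []⟩

def c2171 : PLift (Cov.check n2171.C.D v2171 = true) := ⟨by decide +kernel⟩

def b2171 : PLift (entF (fidx ts) 400 2171 n2171 = true) := ⟨by decide +kernel⟩

theorem g2171 : GoodF (fidx ts) 400 2171 := GoodF.ofV v2171 n2171 c2171.down b2171.down

/-- 4749445:1844/2 -/
noncomputable def e2172 : SCfg where
  D := {
    a := 7
    L := 9
    kp := 6
    inn := [(0, 1), (1, 0), (1, 2), (1, 3), (1, 5), (2, 1), (2, 3), (3, 1), (3, 2), (3, 4), (3, 5), (3,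
      6), (4, 3), (4, 6), (5, 1), (5, 3), (6, 3), (6, 4)]
    mix := [(0, 0), (0, 1), (0, 2), (1, 0), (1, 2), (1, 3), (2, 2), (2, 4), (3, 4), (3, 5), (3, 6), (3,
      7), (4, 1), (4, 6), (5, 3), (5, 7), (6, 1), (6, 5), (6, 8)]
    cl := [4, 2, 0, 0, 1, 3, 1, 5, 6]
    chq := [(2, 3), (3, 2)]
    rng := [(0, 1), (0, 3), (1, 0), (1, 2), (1, 6), (1, 8), (2, 1), (2, 4), (3, 0), (3, 7), (4, 2), (4,
      5), (5, 4), (5, 8), (6, 1), (6, 7), (7, 3), (7, 6), (8, 1), (8, 5)]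
    lev := [] }
  links := [[1, 7, 8, 9], [7, 0, 9, 2, 3, 5, 10], [3, 1, 9, 11], [5, 1, 2, 11, 12, 6, 4, 13, 14], [13, 3,
    6, 8], [10, 1, 3, 14], [8, 4, 3, 12, 15]]
  P := {
    a := 7
    N := 16
    nb := [898, 1709, 2570, 30838, 8520, 17418, 37144, 1283, 41681, 2311, 16546, 4620, 34888, 16664,
      9256, 4416]
    tri := [(0, 1, 7), (0, 1, 9), (0, 7, 8), (0, 8, 9), (1, 2, 3), (1, 2, 9), (1, 3, 5), (1, 5, 10),
      (1, 7, 10), (2, 3, 11), (2, 9, 11), (3, 4, 6), (3, 4, 13), (3, 5, 14), (3, 6, 12), (3, 11,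
      12), (3, 13, 14), (4, 6, 8), (4, 8, 13), (5, 10, 14), (6, 8, 15), (6, 12, 15)]
    fin := [0, 1, 1, 3, 4, 1, 4, 0, 4, 1, 1, 3, 12, 3, 14, 15]
    chd := [(4, 12)]
    steps := [(0, 7), (1, 2), (1, 5), (1, 9), (1, 10), (3, 11), (3, 13), (4, 6), (4, 8)] }
  rep := [1, 3, 4, 12, 0, 14, 15]

noncomputable def v2172 : Cov.CovD where
  P := 3
  N := 4
  pl := [0, 7, 8]
  lev := [⟨[], [], [(0, 2)], [4], [(1, 2, [3]), (2, 0, [])]⟩,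
    ⟨[], [(0, 0), (0, 2)], [(0, 0)], [4], [(2, 0, []), (3, 0, [])]⟩,
    ⟨[(0, 1)], [(0, 0), (1, 0), (1, 1)], [(0, 1)], [], [(2, 0, []), (4, 1, [])]⟩,
    ⟨[(0, 1), (1, 2)], [(1, 0), (1, 1), (1, 3), (2, 0), (2, 1), (2, 3)], [(1, 1), (1, 3)],
      [5], [(4, 1, []), (5, 3, [2]), (6, 1, [])]⟩,
    ⟨[(1, 3), (2, 3)], [(0, 2), (3, 1), (3, 2), (3, 3)], [(1, 2)], [], [(1, 2, [3]), (6, 1,
      [])]⟩,
    ⟨[(0, 1), (1, 2), (1, 3), (2, 3), (3, 4)], [(1, 0), (3, 0), (3, 1), (3, 3)], [], [5],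
      [(3, 0, [])]⟩,
    ⟨[(1, 3), (2, 3), (3, 4), (3, 5)], [(0, 2), (3, 1), (3, 2), (3, 3), (4, 1), (4, 2), (4,
      3)], [(2, 3)], [6], [(1, 2, [3]), (5, 3, [2])]⟩]
  Ta := [((2, 1), 0, 2), ((2, 4), 0, 1), ((3, 0), 0, 4), ((3, 7), 0, 5), ((4, 2), 1, 0), ((4, 5),
    1, 3), ((6, 1), 1, 2), ((6, 7), 1, 5)]
  Tb := [((0, 1, 3), 4, 2, 0), ((1, 0, 2), 2, 4, 0), ((1, 0, 6), 2, 4, 1), ((1, 0, 8), 2, 4, 6),
    ((1, 2, 6), 2, 0, 1), ((1, 2, 8), 2, 0, 6), ((1, 6, 8), 2, 1, 6), ((2, 1, 4), 0, 2, 1),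
    ((3, 0, 7), 0, 4, 5), ((4, 2, 5), 1, 0, 3), ((5, 4, 8), 3, 1, 6), ((6, 1, 7), 1, 2, 5),
    ((7, 3, 6), 5, 0, 1), ((8, 1, 5), 6, 2, 3)]
  Tc := []
  Td := [((2, 3), (1, 0), 4), ((2, 3), (1, 2), 0), ((2, 3), (1, 6), 1), ((2, 3), (1, 8), 6), ((3,
    2), (5, 4), 1), ((3, 2), (5, 8), 6)]
  G := [[0, 0x118d1464114691482ad1429148a4111c486c, 0xe28148e28184c, 0,
    0x2181a328542182a84cb184a113889c2a], [0, 0, 0xee68128eea4144a,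
    0xc28d2454282c8c2c11d245c148c2c, 0xb1132852a1184cb114a113889c2a], [0, 0, 0, 0,
    0x122231b21452282a81cb28482223122239c29], [0, 0, 0, 0xd281c24c28c92d21d285d248c25,
    0x3281b414682184ab48438189228a113a8944b]]

noncomputable def n2172 : Ent := ⟨e2172, noF, [], [], []⟩

def c2172 : PLift (Cov.check n2172.C.D v2172 = true) := ⟨by decide +kernel⟩

def b2172 : PLift (entF (fidx ts) 400 2172 n2172 = true) := ⟨by decide +kernel⟩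

theorem g2172 : GoodF (fidx ts) 400 2172 := GoodF.ofV v2172 n2172 c2172.down b2172.down

/-- 4749445:1844 -/
noncomputable def e2173 : SCfg where
  D := {
    a := 7
    L := 10
    kp := 7
    inn := [(0, 1), (1, 0), (1, 2), (1, 3), (1, 5), (2, 1), (2, 3), (3, 1), (3, 2), (3, 4), (3, 5), (3,
      6), (4, 3), (4, 6), (5, 1), (5, 3), (6, 3), (6, 4)]
    mix := [(0, 0), (0, 1), (0, 2), (1, 0), (1, 2), (1, 3), (2, 2), (2, 4), (3, 4), (3, 5), (3, 6), (3,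
      7), (4, 6), (4, 8), (5, 3), (5, 7), (6, 5), (6, 8), (6, 9)]
    cl := [1, 6, 0, 0, 2, 3, 3, 4, 5, 7]
    chq := [(0, 3), (3, 0)]
    rng := [(0, 1), (0, 3), (1, 0), (1, 2), (2, 1), (2, 4), (3, 0), (3, 7), (4, 2), (4, 5), (5, 4), (5,
      9), (6, 7), (6, 8), (7, 3), (7, 6), (8, 6), (8, 9), (9, 5), (9, 8)]
    lev := [] }
  links := [[1, 7, 8, 9], [7, 0, 9, 2, 3, 5, 10], [3, 1, 9, 11], [5, 1, 2, 11, 12, 6, 4, 13, 14], [13, 3,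
    6, 15], [10, 1, 3, 14], [15, 4, 3, 12, 16]]
  P := {
    a := 7
    N := 17
    nb := [898, 1709, 2570, 30838, 41032, 17418, 102424, 1283, 641, 2311, 16546, 4620, 67656, 49176,
      9256, 73808, 36928]
    tri := [(0, 1, 7), (0, 1, 9), (0, 7, 8), (0, 8, 9), (1, 2, 3), (1, 2, 9), (1, 3, 5), (1, 5, 10),
      (1, 7, 10), (2, 3, 11), (2, 9, 11), (3, 4, 6), (3, 4, 13), (3, 5, 14), (3, 6, 12), (3, 11,
      12), (3, 13, 14), (4, 6, 15), (4, 13, 15), (5, 10, 14), (6, 12, 16), (6, 15, 16)]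
    fin := [0, 0, 2, 2, 4, 2, 4, 0, 8, 2, 2, 11, 4, 4, 14, 15, 16]
    chd := [(2, 4)]
    steps := [(0, 1), (0, 7), (2, 3), (2, 5), (2, 9), (2, 10), (4, 6), (4, 12), (4, 13)] }
  rep := [2, 0, 11, 4, 14, 15, 8, 16]

noncomputable def v2173 : Cov.CovD where
  P := 3
  N := 5
  pl := [0, 1, 4, 7, 8, 9]
  lev := [⟨[], [], [], [1, 6], [(2, 0, [3])]⟩,
    ⟨[], [(0, 0)], [(0, 0)], [1], [(2, 0, [3]), (3, 0, [3])]⟩,
    ⟨[(0, 1)], [(0, 0), (1, 0)], [], [2], [(2, 0, [3])]⟩,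
    ⟨[(0, 1), (1, 2)], [(1, 0), (1, 3), (2, 0), (2, 3)], [(3, 3)], [2, 4], [(5, 3, [0]),
      (6, 3, [0])]⟩,
    ⟨[(1, 3), (2, 3)], [(3, 3)], [], [5], [(6, 3, [0])]⟩,
    ⟨[(0, 1), (1, 2), (1, 3), (2, 3), (3, 4)], [(1, 0), (3, 0), (3, 3)], [], [4], [(3, 0,
      [3])]⟩,
    ⟨[(1, 3), (2, 3), (3, 4), (3, 5)], [(3, 3), (4, 3)], [], [5, 7], [(5, 3, [0])]⟩]
  Ta := [((2, 1), 0, 6), ((2, 4), 0, 2), ((3, 0), 0, 1), ((3, 7), 0, 4), ((5, 4), 3, 2), ((5, 9),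
    3, 7), ((6, 7), 3, 4), ((6, 8), 3, 5)]
  Tb := [((0, 1, 3), 1, 6, 0), ((1, 0, 2), 6, 1, 0), ((2, 1, 4), 0, 6, 2), ((3, 0, 7), 0, 1, 4),
    ((4, 2, 5), 2, 0, 3), ((5, 4, 9), 3, 2, 7), ((6, 7, 8), 3, 4, 5), ((7, 3, 6), 4, 0, 3),
    ((8, 6, 9), 5, 3, 7), ((9, 5, 8), 7, 3, 5)]
  Tc := []
  Td := [((0, 3), (2, 1), 6), ((0, 3), (2, 4), 2), ((0, 3), (3, 0), 1), ((0, 3), (3, 7), 4), ((3,
    0), (5, 4), 2), ((3, 0), (5, 9), 7), ((3, 0), (6, 7), 4), ((3, 0), (6, 8), 5)]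
  G := [[0, 0, 0x21e1c2e1145311166e191584c51b45a48314e1315ad18138acc,
    0x511261211af9c74ad84111169111a5fcb86d48c, 0x34e56b2e1211288cf5639a6128111161111ca28d],
    [0, 0, 0x2181b1b461589c1523ac4a1315c1923622417178a8c,
    0x112aa6cc63548a117aa4c635481244111168c8d, 0x614112c86a265b84182118c6aaaa5b24118114a24d],
    [0, 0xbb6756c14859c7b66142c, 0, 0x346e2a4838a186c9ab2694c1, 0x71ce4921478aa5ac52a9a41],
    [0, 0x6a6cc631486aacca3148c, 0, 0x9484634852689aaac2394c1, 0xd2286523268c964a459a41]]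

noncomputable def n2173 : Ent := ⟨e2173, noF, [], [], [(8, 16, [1580044410770988437309982408355971841652082177953823432505698004993, 0]), (8, 15, [1685356702439545624007900436039642273970977273354372543760008986625, 0])]⟩

def c2173 : PLift (Cov.check n2173.C.D v2173 = true) := ⟨by decide +kernel⟩

def b2173 : PLift (entF (fidx ts) 400 2173 n2173 = true) := ⟨by decide +kernel⟩

theorem g2173 : GoodF (fidx ts) 400 2173 := GoodF.ofV v2173 n2173 c2173.down b2173.down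

/-- 4749455:1846/1 -/
noncomputable def e2174 : SCfg where
  D := {
    a := 7
    L := 10
    kp := 7
    inn := [(0, 1), (1, 0), (1, 2), (1, 3), (1, 5), (2, 1), (2, 3), (3, 1), (3, 2), (3, 4), (3, 5), (3,
      6), (4, 3), (4, 6), (5, 1), (5, 3), (6, 3), (6, 4)]
    mix := [(0, 0), (0, 1), (0, 2), (1, 0), (1, 2), (1, 3), (2, 2), (2, 4), (3, 4), (3, 5), (3, 6), (3,
      7), (4, 6), (4, 8), (5, 3), (5, 7), (5, 9), (6, 1), (6, 5), (6, 8)]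
    cl := [2, 4, 0, 0, 5, 1, 1, 3, 6, 7]
    chq := [(0, 1), (0, 3), (1, 0), (3, 0)]
    rng := [(0, 1), (0, 3), (1, 0), (1, 2), (1, 5), (1, 8), (2, 1), (2, 4), (3, 0), (3, 9), (4, 2), (4,
      5), (5, 1), (5, 4), (6, 7), (6, 8), (7, 6), (7, 9), (8, 1), (8, 6), (9, 3), (9, 7)]
    lev := [] }
  links := [[1, 7, 8, 9], [7, 0, 9, 2, 3, 5, 10], [3, 1, 9, 11], [5, 1, 2, 11, 12, 6, 4, 13, 14], [13, 3,
    6, 15], [10, 1, 3, 14, 16], [15, 4, 3, 12, 8]]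
  P := {
    a := 7
    N := 17
    nb := [898, 1709, 2570, 30838, 41032, 82954, 37144, 1283, 37569, 2311, 65698, 4620, 2376, 49176,
      73768, 8528, 17440]
    tri := [(0, 1, 7), (0, 1, 9), (0, 7, 8), (0, 8, 9), (1, 2, 3), (1, 2, 9), (1, 3, 5), (1, 5, 10),
      (1, 7, 10), (2, 3, 11), (2, 9, 11), (3, 4, 6), (3, 4, 13), (3, 5, 14), (3, 6, 12), (3, 11,
      12), (3, 13, 14), (4, 6, 15), (4, 13, 15), (5, 10, 16), (5, 14, 16), (6, 8, 12), (6, 8, 15)]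
    fin := [0, 1, 1, 3, 4, 1, 4, 0, 4, 1, 1, 11, 3, 3, 14, 15, 16]
    chd := [(1, 3), (1, 14)]
    steps := [(0, 7), (1, 2), (1, 5), (1, 9), (1, 10), (3, 12), (3, 13), (4, 6), (4, 8)] }
  rep := [1, 3, 0, 14, 4, 11, 15, 16]

noncomputable def v2174 : Cov.CovD where
  P := 3
  N := 5
  pl := [0, 1, 4, 8, 9]
  lev := [⟨[], [], [], [2, 4], [(2, 0, [1, 3])]⟩,
    ⟨[], [(0, 0)], [(0, 0)], [2], [(2, 0, [1, 3]), (3, 0, [1, 3])]⟩,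
    ⟨[(0, 1)], [(0, 0), (1, 0)], [], [5], [(2, 0, [1, 3])]⟩,
    ⟨[(0, 1), (1, 2)], [(1, 0), (1, 1), (1, 3), (2, 0), (2, 1), (2, 3)], [(1, 1), (1, 3)],
      [5], [(5, 1, [0]), (6, 1, [0]), (7, 3, [0])]⟩,
    ⟨[(1, 3), (2, 3)], [(3, 1), (3, 3)], [], [6], [(6, 1, [0])]⟩,
    ⟨[(0, 1), (1, 2), (1, 3), (2, 3), (3, 4)], [(1, 0), (1, 3), (3, 0), (3, 1), (3, 3)],
      [(0, 3)], [7], [(3, 0, [1, 3]), (7, 3, [0])]⟩,
    ⟨[(1, 3), (2, 3), (3, 4), (3, 5)], [(3, 1), (3, 3), (4, 1)], [], [4, 6], [(5, 1, [0])]⟩]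
  Ta := [((2, 1), 0, 4), ((2, 4), 0, 5), ((3, 0), 0, 2), ((3, 9), 0, 7), ((5, 1), 1, 4), ((5, 4),
    1, 5), ((6, 7), 1, 3), ((6, 8), 1, 6)]
  Tb := [((0, 1, 3), 2, 4, 0), ((1, 0, 2), 4, 2, 0), ((1, 0, 5), 4, 2, 1), ((1, 0, 8), 4, 2, 6),
    ((1, 2, 5), 4, 0, 1), ((1, 2, 8), 4, 0, 6), ((1, 5, 8), 4, 1, 6), ((2, 1, 4), 0, 4, 5),
    ((3, 0, 9), 0, 2, 7), ((4, 2, 5), 5, 0, 1), ((5, 1, 4), 1, 4, 5), ((6, 7, 8), 1, 3, 6),
    ((7, 6, 9), 3, 1, 7), ((8, 1, 6), 6, 4, 1), ((9, 3, 7), 7, 0, 3)]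
  Tc := [(0, 1, 3)]
  Td := [((0, 1), (2, 1), 4), ((0, 1), (2, 4), 5), ((0, 1), (3, 0), 2), ((0, 1), (3, 9), 7), ((0,
    3), (2, 1), 4), ((0, 3), (2, 4), 5), ((0, 3), (3, 0), 2), ((0, 3), (3, 9), 7), ((1, 0),
    (5, 1), 4), ((1, 0), (5, 4), 5), ((1, 0), (6, 7), 3), ((1, 0), (6, 8), 6), ((3, 0), (7,
    6), 1), ((3, 0), (7, 9), 7)]
  G := [[0, 0x1111a41111c261111688c1, 0,
    0x1117181113c98a21812886116a9e45562114151211a44acda5112388c11a1448d,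
    0x9c62129124c12c8296a5d621111b1d5a254111175412ce8a], [0, 0x1111a41111c261111688c1, 0,
    0x2111981119888e22c22dd242111521119122e444ecd28c, 0x3121521119927e2d2ecd282], [0,
    0x1111a41111c261111688c1, 0x99c212255a2124d86116c1d5de21c8e, 0x11a2ddde251161ddde29681,
    0x11a1c81dce65cdde21612281818aa1], [0, 0x1111a41111c261111688c1, 0x211e122ec1242,
    0x2d2ee21ec1241, 0x52ae296ec1281]]

noncomputable def n2174 : Ent := ⟨e2174, noF, [], [], []⟩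

def c2174 : PLift (Cov.check n2174.C.D v2174 = true) := ⟨by decide +kernel⟩

def b2174 : PLift (entF (fidx ts) 400 2174 n2174 = true) := ⟨by decide +kernel⟩

theorem g2174 : GoodF (fidx ts) 400 2174 := GoodF.ofV v2174 n2174 c2174.down b2174.down

/-- 4749455:1846/2 -/
noncomputable def e2175 : SCfg where
  D := {
    a := 7
    L := 10
    kp := 7
    inn := [(0, 1), (1, 0), (1, 2), (1, 3), (1, 5), (2, 1), (2, 3), (3, 1), (3, 2), (3, 4), (3, 5), (3,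
      6), (4, 3), (4, 6), (5, 1), (5, 3), (6, 3), (6, 4)]
    mix := [(0, 0), (0, 1), (0, 2), (1, 0), (1, 2), (1, 3), (2, 2), (2, 4), (3, 4), (3, 5), (3, 6), (3,
      7), (4, 1), (4, 6), (5, 3), (5, 7), (5, 8), (6, 1), (6, 5), (6, 9)]
    cl := [2, 1, 0, 0, 5, 3, 3, 4, 6, 7]
    chq := [(0, 3), (0, 4), (3, 0), (4, 0)]
    rng := [(0, 1), (0, 3), (1, 0), (1, 2), (1, 6), (1, 9), (2, 1), (2, 4), (3, 0), (3, 8), (4, 2), (4,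
      5), (5, 4), (5, 9), (6, 1), (6, 7), (7, 6), (7, 8), (8, 3), (8, 7), (9, 1), (9, 5)]
    lev := [] }
  links := [[1, 7, 8, 9], [7, 0, 9, 2, 3, 5, 10], [3, 1, 9, 11], [5, 1, 2, 11, 12, 6, 4, 13, 14], [13, 3,
    6, 8], [10, 1, 3, 14, 15], [8, 4, 3, 12, 16]]
  P := {
    a := 7
    N := 17
    nb := [898, 1709, 2570, 30838, 8520, 50186, 69912, 1283, 74449, 2311, 32930, 4620, 67656, 16664,
      41000, 17440, 4416]
    tri := [(0, 1, 7), (0, 1, 9), (0, 7, 8), (0, 8, 9), (1, 2, 3), (1, 2, 9), (1, 3, 5), (1, 5, 10),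
      (1, 7, 10), (2, 3, 11), (2, 9, 11), (3, 4, 6), (3, 4, 13), (3, 5, 14), (3, 6, 12), (3, 11,
      12), (3, 13, 14), (4, 6, 8), (4, 8, 13), (5, 10, 15), (5, 14, 15), (6, 8, 16), (6, 12, 16)]
    fin := [0, 1, 1, 3, 4, 1, 4, 0, 4, 1, 1, 11, 3, 3, 14, 15, 16]
    chd := [(1, 3), (1, 14)]
    steps := [(0, 7), (1, 2), (1, 5), (1, 9), (1, 10), (3, 12), (3, 13), (4, 6), (4, 8)] }
  rep := [1, 4, 0, 3, 14, 11, 15, 16]

noncomputable def v2175 : Cov.CovD where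
  P := 3
  N := 5
  pl := [0, 1, 4, 8, 9]
  lev := [⟨[], [], [], [1, 2], [(2, 0, [3, 4])]⟩,
    ⟨[], [(0, 0)], [(0, 0)], [2], [(2, 0, [3, 4]), (3, 0, [3, 4])]⟩,
    ⟨[(0, 1)], [(0, 0), (1, 0)], [], [5], [(2, 0, [3, 4])]⟩,
    ⟨[(0, 1), (1, 2)], [(1, 0), (1, 3), (1, 4), (2, 0), (2, 3), (2, 4)], [(3, 3), (3, 4)],
      [5], [(5, 3, [0]), (6, 3, [0]), (7, 4, [0])]⟩,
    ⟨[(1, 3), (2, 3)], [(3, 3), (3, 4)], [], [1], [(6, 3, [0])]⟩,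
    ⟨[(0, 1), (1, 2), (1, 3), (2, 3), (3, 4)], [(1, 0), (1, 4), (3, 0), (3, 3), (3, 4)],
      [(0, 4)], [6], [(3, 0, [3, 4]), (7, 4, [0])]⟩,
    ⟨[(1, 3), (2, 3), (3, 4), (3, 5)], [(3, 3), (3, 4), (4, 3)], [], [1, 7], [(5, 3, [0])]⟩]
  Ta := [((2, 1), 0, 1), ((2, 4), 0, 5), ((3, 0), 0, 2), ((3, 8), 0, 6), ((5, 4), 3, 5), ((5, 9),
    3, 7), ((6, 1), 3, 1), ((6, 7), 3, 4)]
  Tb := [((0, 1, 3), 2, 1, 0), ((1, 0, 2), 1, 2, 0), ((1, 0, 6), 1, 2, 3), ((1, 0, 9), 1, 2, 7),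
    ((1, 2, 6), 1, 0, 3), ((1, 2, 9), 1, 0, 7), ((1, 6, 9), 1, 3, 7), ((2, 1, 4), 0, 1, 5),
    ((3, 0, 8), 0, 2, 6), ((4, 2, 5), 5, 0, 3), ((5, 4, 9), 3, 5, 7), ((6, 1, 7), 3, 1, 4),
    ((7, 6, 8), 4, 3, 6), ((8, 3, 7), 6, 0, 4), ((9, 1, 5), 7, 1, 3)]
  Tc := [(0, 3, 4)]
  Td := [((0, 3), (2, 1), 1), ((0, 3), (2, 4), 5), ((0, 3), (3, 0), 2), ((0, 3), (3, 8), 6), ((0,
    4), (2, 1), 1), ((0, 4), (2, 4), 5), ((0, 4), (3, 0), 2), ((0, 4), (3, 8), 6), ((3, 0),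
    (5, 4), 5), ((3, 0), (5, 9), 7), ((3, 0), (6, 1), 1), ((3, 0), (6, 7), 4), ((4, 0), (7,
    6), 3), ((4, 0), (7, 8), 6)]
  G := [[0, 0xeeee21eeee81684, 0, 0x113844184611174188ddde8d81411dd4ddc4bac8,
    0x418dd58621117455de89111b899c4581185882fa8], [0, 0xccce21aa6e41684, 0,
    0x1181944685411415888e49c114883ac8, 0xc11221141585ce4911819c4ce85ca8], [0, 0,
    0xddde81ddde81c24, 0x111b8ddde45111d4ddde436111b481c4,
    0x111781d17461ddde81ddc41111b48da8], [0, 0, 0xccce11ccce11a48,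
    0x8441118444e85c11488a491182ac4, 0x11822114c9ce49118ccce85ca1]]

noncomputable def n2175 : Ent := ⟨e2175, noF, [], [], []⟩

def c2175 : PLift (Cov.check n2175.C.D v2175 = true) := ⟨by decide +kernel⟩

def b2175 : PLift (entF (fidx ts) 400 2175 n2175 = true) := ⟨by decide +kernel⟩

theorem g2175 : GoodF (fidx ts) 400 2175 := GoodF.ofV v2175 n2175 c2175.down b2175.down

/-- 4749455:1846 -/
noncomputable def e2176 : SCfg where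
  D := {
    a := 7
    L := 11
    kp := 8
    inn := [(0, 1), (1, 0), (1, 2), (1, 3), (1, 5), (2, 1), (2, 3), (3, 1), (3, 2), (3, 4), (3, 5), (3,
      6), (4, 3), (4, 6), (5, 1), (5, 3), (6, 3), (6, 4)]
    mix := [(0, 0), (0, 1), (0, 2), (1, 0), (1, 2), (1, 3), (2, 2), (2, 4), (3, 4), (3, 5), (3, 6), (3,
      7), (4, 6), (4, 8), (5, 3), (5, 7), (5, 9), (6, 5), (6, 8), (6, 10)]
    cl := [2, 6, 0, 0, 4, 1, 1, 3, 5, 7, 8]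
    chq := [(0, 1), (0, 3), (1, 0), (3, 0)]
    rng := [(0, 1), (0, 3), (1, 0), (1, 2), (2, 1), (2, 4), (3, 0), (3, 9), (4, 2), (4, 5), (5, 4), (5,
      10), (6, 7), (6, 8), (7, 6), (7, 9), (8, 6), (8, 10), (9, 3), (9, 7), (10, 5), (10, 8)]
    lev := [] }
  links := [[1, 7, 8, 9], [7, 0, 9, 2, 3, 5, 10], [3, 1, 9, 11], [5, 1, 2, 11, 12, 6, 4, 13, 14], [13, 3,
    6, 15], [10, 1, 3, 14, 16], [15, 4, 3, 12, 17]]
  P := {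
    a := 7
    N := 18
    nb := [898, 1709, 2570, 30838, 41032, 82954, 167960, 1283, 641, 2311, 65698, 4620, 133192, 49176,
      73768, 139344, 17440, 36928]
    tri := [(0, 1, 7), (0, 1, 9), (0, 7, 8), (0, 8, 9), (1, 2, 3), (1, 2, 9), (1, 3, 5), (1, 5, 10),
      (1, 7, 10), (2, 3, 11), (2, 9, 11), (3, 4, 6), (3, 4, 13), (3, 5, 14), (3, 6, 12), (3, 11,
      12), (3, 13, 14), (4, 6, 15), (4, 13, 15), (5, 10, 16), (5, 14, 16), (6, 12, 17), (6, 15,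
      17)]
    fin := [0, 0, 2, 2, 4, 2, 4, 0, 8, 2, 2, 11, 4, 4, 14, 15, 16, 17]
    chd := [(2, 4), (2, 14)]
    steps := [(0, 1), (0, 7), (2, 3), (2, 5), (2, 9), (2, 10), (4, 6), (4, 12), (4, 13)] }
  rep := [2, 4, 0, 14, 11, 15, 8, 16, 17]

noncomputable def v2176 : Cov.CovD where
  P := 3
  N := 6
  pl := [0, 1, 4, 8, 9, 10]
  lev := [⟨[], [], [], [2, 6], [(2, 0, [1, 3])]⟩,
    ⟨[], [(0, 0)], [(0, 0)], [2], [(2, 0, [1, 3]), (3, 0, [1, 3])]⟩,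
    ⟨[(0, 1)], [(0, 0), (1, 0)], [], [4], [(2, 0, [1, 3])]⟩,
    ⟨[(0, 1), (1, 2)], [(1, 0), (1, 1), (1, 3), (2, 0), (2, 1), (2, 3)], [(1, 1), (1, 3)],
      [4], [(5, 1, [0]), (6, 1, [0]), (7, 3, [0])]⟩,
    ⟨[(1, 3), (2, 3)], [(3, 1), (3, 3)], [], [5], [(6, 1, [0])]⟩,
    ⟨[(0, 1), (1, 2), (1, 3), (2, 3), (3, 4)], [(1, 0), (1, 3), (3, 0), (3, 1), (3, 3)],
      [(0, 3)], [7], [(3, 0, [1, 3]), (7, 3, [0])]⟩,
    ⟨[(1, 3), (2, 3), (3, 4), (3, 5)], [(3, 1), (3, 3), (4, 1)], [], [5, 8], [(5, 1, [0])]⟩]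
  Ta := [((2, 1), 0, 6), ((2, 4), 0, 4), ((3, 0), 0, 2), ((3, 9), 0, 7), ((5, 4), 1, 4), ((5,
    10), 1, 8), ((6, 7), 1, 3), ((6, 8), 1, 5)]
  Tb := [((0, 1, 3), 2, 6, 0), ((1, 0, 2), 6, 2, 0), ((2, 1, 4), 0, 6, 4), ((3, 0, 9), 0, 2, 7),
    ((4, 2, 5), 4, 0, 1), ((5, 4, 10), 1, 4, 8), ((6, 7, 8), 1, 3, 5), ((7, 6, 9), 3, 1, 7),
    ((8, 6, 10), 5, 1, 8), ((9, 3, 7), 7, 0, 3), ((10, 5, 8), 8, 1, 5)]
  Tc := [(0, 1, 3)]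
  Td := [((0, 1), (2, 1), 6), ((0, 1), (2, 4), 4), ((0, 1), (3, 0), 2), ((0, 1), (3, 9), 7), ((0,
    3), (2, 1), 6), ((0, 3), (2, 4), 4), ((0, 3), (3, 0), 2), ((0, 3), (3, 9), 7), ((1, 0),
    (5, 4), 4), ((1, 0), (5, 10), 8), ((1, 0), (6, 7), 3), ((1, 0), (6, 8), 5), ((3, 0), (7,
    6), 1), ((3, 0), (7, 9), 7)]
  G := [[0, 0x1111a41111c261111688c1, 0,
    0x114724211572818dd62d8128d8de21ec4124119b24896d5ca1e5532c8a2981252491818bcc,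
    0x512412886556ad119b29854cd2e58128e214182d45ea52412cdc25d121992cca1162882b], [0,
    0x1111a41111c261111688c1, 0, 0x31a1cb1219362eaa5ecd2421715c12192474cd2caa6228d12cc,
    0x21915966236c5221915e828992a21715a131ceaae236ecd28a], [0, 0x1111a41111c261111688c1,
    0xddde2182dda212d42126ddde2148e, 0x11a1ddde25cdde21611c282c1, 0x11a2ddde251161ddde29681],
    [0, 0x1111a41111c261111688c1, 0x72ce2e2e5124ccae226e9128c, 0xa2ae375ec1281,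
    0x229e5e2ec1281]]

noncomputable def n2176 : Ent := ⟨e2176, noF, [], [], [(8, 17, [6903326391201334775872065844685381424292761054348340378595029938593793, 0]), (8, 15, [7334790850167413569773436004105379185503274260204390087403942013562881, 0])]⟩

def c2176 : PLift (Cov.check n2176.C.D v2176 = true) := ⟨by decide +kernel⟩

def b2176 : PLift (entF (fidx ts) 400 2176 n2176 = true) := ⟨by decide +kernel⟩

theorem g2176 : GoodF (fidx ts) 400 2176 := GoodF.ofV v2176 n2176 c2176.down b2176.down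

/-- 4748448:1852/1 -/
noncomputable def e2177 : SCfg where
  D := {
    a := 7
    L := 10
    kp := 8
    inn := [(0, 1), (0, 6), (1, 0), (1, 2), (1, 3), (1, 5), (1, 6), (2, 1), (2, 3), (2, 6), (3, 1), (3,
      2), (3, 4), (3, 5), (4, 3), (5, 1), (5, 3), (6, 0), (6, 1), (6, 2)]
    mix := [(0, 0), (0, 1), (1, 0), (1, 2), (2, 3), (3, 3), (3, 4), (3, 5), (3, 6), (4, 1), (4, 5), (4,
      6), (5, 2), (5, 6), (6, 1), (6, 3), (6, 7), (6, 8), (6, 9)]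
    cl := [4, 1, 2, 0, 8, 3, 0, 5, 6, 7]
    chq := [(0, 3), (1, 2), (2, 1), (2, 5), (2, 6), (2, 7), (3, 0), (5, 2), (6, 2), (7, 2)]
    rng := [(0, 1), (0, 2), (1, 0), (1, 5), (1, 6), (1, 7), (2, 0), (2, 6), (3, 4), (3, 9), (4, 3), (4,
      5), (5, 1), (5, 4), (6, 1), (6, 2), (7, 1), (7, 8), (8, 7), (8, 9), (9, 3), (9, 8)]
    lev := [] }
  links := [[1, 7, 8, 6], [7, 0, 6, 2, 3, 5, 9], [3, 1, 6, 10], [5, 1, 2, 10, 11, 12, 4, 13], [13, 3, 12,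
    8], [9, 1, 3, 13], [10, 2, 1, 0, 8, 14, 15, 16]]
  P := {
    a := 7
    N := 17
    nb := [450, 749, 1098, 15414, 12552, 8714, 115975, 771, 28881, 8354, 67660, 5128, 2328, 824,
      33088, 81984, 33856]
    tri := [(0, 1, 6), (0, 1, 7), (0, 6, 8), (0, 7, 8), (1, 2, 3), (1, 2, 6), (1, 3, 5), (1, 5, 9), (1,
      7, 9), (2, 3, 10), (2, 6, 10), (3, 4, 12), (3, 4, 13), (3, 5, 13), (3, 10, 11), (3, 11, 12),
      (4, 8, 12), (4, 8, 13), (5, 9, 13), (6, 8, 14), (6, 10, 16), (6, 14, 15), (6, 15, 16)]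
    fin := [0, 1, 2, 2, 4, 2, 1, 0, 4, 1, 2, 11, 12, 2, 14, 15, 16]
    chd := [(1, 14), (1, 15), (1, 16), (2, 12), (4, 1)]
    steps := [(0, 7), (1, 6), (1, 9), (2, 3), (2, 5), (2, 10), (2, 13), (4, 8)] }
  rep := [2, 4, 1, 12, 0, 14, 15, 16, 11]

noncomputable def v2177 : Cov.CovD where
  P := 3
  N := 6
  pl := [0, 4]
  lev := [⟨[], [], [], [4], [(1, 1, [2])]⟩,
    ⟨[], [(0, 1), (0, 2)], [], [4], [(2, 2, [1, 5, 6, 7])]⟩,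
    ⟨[(0, 1)], [(1, 0), (1, 2)], [], [], [(3, 0, [3])]⟩,
    ⟨[(0, 1), (1, 2)], [(1, 0), (1, 2), (1, 3), (2, 0), (2, 3)], [(0, 0), (0, 3)], [8],
      [(3, 0, [3]), (5, 3, [0]), (6, 0, [3])]⟩,
    ⟨[(1, 3), (2, 3)], [(0, 1), (3, 0), (3, 1), (3, 3)], [(0, 1), (0, 3), (1, 3)], [], [(1,
      1, [2]), (5, 3, [0]), (6, 0, [3])]⟩,
    ⟨[(0, 1), (1, 2), (1, 3), (2, 3), (3, 4)], [(1, 0), (1, 2), (3, 0), (3, 2), (3, 3), (4,
      0)], [(0, 2)], [], [(2, 2, [1, 5, 6, 7]), (6, 0, [3])]⟩,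
    ⟨[(0, 1), (0, 2), (1, 2), (1, 3), (1, 5), (2, 3)], [(0, 0), (0, 1), (0, 5), (0, 6), (0,
      7), (1, 0), (1, 1), (1, 2), (1, 5), (1, 6), (1, 7), (2, 0), (2, 1), (2, 5), (2, 6), (2,
      7), (3, 0), (4, 1)], [(0, 1), (0, 5), (0, 6), (0, 7), (1, 5), (1, 6), (1, 7), (5, 6),
      (5, 7), (6, 7)], [], [(1, 1, [2]), (3, 0, [3]), (7, 5, [2]), (8, 6, [2]), (9, 7, [2])]⟩]
  Ta := [((3, 4), 0, 8), ((3, 9), 0, 7), ((6, 1), 0, 1), ((6, 2), 0, 2)]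
  Tb := [((0, 1, 2), 4, 1, 2), ((1, 0, 5), 1, 4, 3), ((1, 0, 6), 1, 4, 0), ((1, 0, 7), 1, 4, 5),
    ((1, 5, 6), 1, 3, 0), ((1, 5, 7), 1, 3, 5), ((1, 6, 7), 1, 0, 5), ((2, 0, 6), 2, 4, 0),
    ((3, 4, 9), 0, 8, 7), ((4, 3, 5), 8, 0, 3), ((5, 1, 4), 3, 1, 8), ((6, 1, 2), 0, 1, 2),
    ((7, 1, 8), 5, 1, 6), ((8, 7, 9), 6, 5, 7), ((9, 3, 8), 7, 0, 6)]
  Tc := [(2, 1, 5), (2, 1, 6), (2, 1, 7), (2, 5, 6), (2, 5, 7), (2, 6, 7)]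
  Td := [((0, 3), (3, 4), 8), ((0, 3), (3, 9), 7), ((0, 3), (6, 1), 1), ((0, 3), (6, 2), 2), ((1,
    2), (1, 0), 4), ((1, 2), (1, 5), 3), ((1, 2), (1, 6), 0), ((1, 2), (1, 7), 5), ((2, 1),
    (2, 0), 4), ((2, 1), (2, 6), 0), ((2, 5), (2, 0), 4), ((2, 5), (2, 6), 0), ((2, 6), (2,
    0), 4), ((2, 6), (2, 6), 0), ((2, 7), (2, 0), 4), ((2, 7), (2, 6), 0), ((3, 0), (5, 1),
    1), ((3, 0), (5, 4), 8), ((5, 2), (7, 1), 1), ((5, 2), (7, 8), 6), ((6, 2), (8, 7), 5),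
    ((6, 2), (8, 9), 7), ((7, 2), (9, 3), 0), ((7, 2), (9, 8), 6)]
  G := [[0, 0, 0, 0x2144822121285a8c24122428249e815, 0x4812418414ca248448164288a19], [0,
    0x2844248282ac12844248242ac1c, 0x1241414c6214882a128821241814c686c,
    0x2424c22244524881c28442282424cac19, 0x4284244848ce1248444284848caa19]]

noncomputable def n2177 : Ent := ⟨e2177, noF, [], [], []⟩

def c2177 : PLift (Cov.check n2177.C.D v2177 = true) := ⟨by decide +kernel⟩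

def b2177 : PLift (entF (fidx ts) 400 2177 n2177 = true) := ⟨by decide +kernel⟩

theorem g2177 : GoodF (fidx ts) 400 2177 := GoodF.ofV v2177 n2177 c2177.down b2177.down

/-- 4748448:1852/2 -/
noncomputable def e2178 : SCfg where
  D := {
    a := 7
    L := 10
    kp := 8
    inn := [(0, 1), (0, 6), (1, 0), (1, 2), (1, 3), (1, 5), (1, 6), (2, 1), (2, 3), (2, 6), (3, 1), (3,
      2), (3, 4), (3, 5), (4, 3), (5, 1), (5, 3), (6, 0), (6, 1), (6, 2)]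
    mix := [(0, 0), (0, 1), (1, 0), (1, 2), (2, 3), (3, 3), (3, 4), (3, 5), (3, 6), (4, 5), (4, 6), (4,
      7), (5, 2), (5, 6), (6, 1), (6, 3), (6, 7), (6, 8), (6, 9)]
    cl := [5, 2, 1, 0, 8, 3, 0, 4, 6, 7]
    chq := [(0, 3), (1, 2), (1, 4), (1, 6), (1, 7), (2, 1), (3, 0), (4, 1), (6, 1), (7, 1)]
    rng := [(0, 1), (0, 2), (1, 0), (1, 7), (2, 0), (2, 6), (3, 4), (3, 9), (4, 3), (4, 5), (5, 4), (5,
      7), (6, 2), (6, 7), (7, 1), (7, 5), (7, 6), (7, 8), (8, 7), (8, 9), (9, 3), (9, 8)]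
    lev := [] }
  links := [[1, 7, 8, 6], [7, 0, 6, 2, 3, 5, 9], [3, 1, 6, 10], [5, 1, 2, 10, 11, 12, 4, 13], [13, 3, 12,
    14], [9, 1, 3, 13], [10, 2, 1, 0, 8, 14, 15, 16]]
  P := {
    a := 7
    N := 17
    nb := [450, 749, 1098, 15414, 28680, 8714, 115975, 771, 16577, 8354, 67660, 5128, 18456, 16952,
      45392, 81984, 33856]
    tri := [(0, 1, 6), (0, 1, 7), (0, 6, 8), (0, 7, 8), (1, 2, 3), (1, 2, 6), (1, 3, 5), (1, 5, 9), (1,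
      7, 9), (2, 3, 10), (2, 6, 10), (3, 4, 12), (3, 4, 13), (3, 5, 13), (3, 10, 11), (3, 11, 12),
      (4, 12, 14), (4, 13, 14), (5, 9, 13), (6, 8, 14), (6, 10, 16), (6, 14, 15), (6, 15, 16)]
    fin := [0, 1, 2, 2, 4, 2, 1, 0, 8, 1, 2, 11, 12, 2, 4, 15, 16]
    chd := [(1, 4), (1, 15), (1, 16), (2, 12), (8, 1)]
    steps := [(0, 7), (1, 6), (1, 9), (2, 3), (2, 5), (2, 10), (2, 13), (4, 14)] }
  rep := [2, 1, 8, 12, 4, 0, 15, 16, 11]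

noncomputable def v2178 : Cov.CovD where
  P := 3
  N := 6
  pl := [0, 4]
  lev := [⟨[], [], [], [5], [(1, 2, [1])]⟩,
    ⟨[], [(0, 1), (0, 2)], [], [5], [(2, 1, [2, 4, 6, 7])]⟩,
    ⟨[(0, 1)], [(1, 0), (1, 1)], [], [], [(3, 0, [3])]⟩,
    ⟨[(0, 1), (1, 2)], [(1, 0), (1, 1), (1, 3), (2, 0), (2, 3)], [(0, 0), (0, 3)], [8],
      [(3, 0, [3]), (5, 3, [0]), (6, 0, [3])]⟩,
    ⟨[(1, 3), (2, 3)], [(3, 0), (3, 3), (3, 4)], [(0, 3), (0, 4), (3, 4)], [], [(5, 3,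
      [0]), (6, 0, [3]), (7, 4, [1])]⟩,
    ⟨[(0, 1), (1, 2), (1, 3), (2, 3), (3, 4)], [(1, 0), (1, 1), (3, 0), (3, 1), (3, 3), (4,
      0)], [(0, 1)], [], [(2, 1, [2, 4, 6, 7]), (6, 0, [3])]⟩,
    ⟨[(0, 1), (0, 2), (1, 2), (1, 3), (1, 5), (2, 3)], [(0, 0), (0, 2), (0, 4), (0, 6), (0,
      7), (1, 0), (1, 1), (1, 2), (1, 4), (1, 6), (1, 7), (2, 0), (2, 2), (2, 4), (2, 6), (2,
      7), (3, 0), (4, 4)], [(0, 2), (0, 4), (0, 6), (0, 7), (2, 4), (2, 6), (2, 7), (4, 6),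
      (4, 7), (6, 7)], [], [(1, 2, [1]), (3, 0, [3]), (7, 4, [1]), (8, 6, [1]), (9, 7, [1])]⟩]
  Ta := [((3, 4), 0, 8), ((3, 9), 0, 7), ((6, 2), 0, 1), ((6, 7), 0, 4)]
  Tb := [((0, 1, 2), 5, 2, 1), ((1, 0, 7), 2, 5, 4), ((2, 0, 6), 1, 5, 0), ((3, 4, 9), 0, 8, 7),
    ((4, 3, 5), 8, 0, 3), ((5, 4, 7), 3, 8, 4), ((6, 2, 7), 0, 1, 4), ((7, 1, 5), 4, 2, 3),
    ((7, 1, 6), 4, 2, 0), ((7, 1, 8), 4, 2, 6), ((7, 5, 6), 4, 3, 0), ((7, 5, 8), 4, 3, 6),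
    ((7, 6, 8), 4, 0, 6), ((8, 7, 9), 6, 4, 7), ((9, 3, 8), 7, 0, 6)]
  Tc := [(1, 2, 4), (1, 2, 6), (1, 2, 7), (1, 4, 6), (1, 4, 7), (1, 6, 7)]
  Td := [((0, 3), (3, 4), 8), ((0, 3), (3, 9), 7), ((0, 3), (6, 2), 1), ((0, 3), (6, 7), 4), ((1,
    2), (2, 0), 5), ((1, 2), (2, 6), 0), ((1, 4), (2, 0), 5), ((1, 4), (2, 6), 0), ((1, 6),
    (2, 0), 5), ((1, 6), (2, 6), 0), ((1, 7), (2, 0), 5), ((1, 7), (2, 6), 0), ((2, 1), (1,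
    0), 5), ((2, 1), (1, 7), 4), ((3, 0), (5, 4), 8), ((3, 0), (5, 7), 4), ((4, 1), (7, 1),
    2), ((4, 1), (7, 5), 3), ((4, 1), (7, 6), 0), ((4, 1), (7, 8), 6), ((6, 1), (8, 7), 4),
    ((6, 1), (8, 9), 7), ((7, 1), (9, 3), 0), ((7, 1), (9, 8), 6)]
  G := [[0, 0, 0x212122b242124b62144628184924184282852828924283e49c,
    0x2814421223212a8c22223221282e415, 0x21289242836212858c4242432824524249e819], [0,
    0x121214e2121212e46141818e82a12126181818ea1288a181814e426c,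
    0x2424a242424e612844242828e8c928441222828e282828ea1242824e48d248814e,
    0x242222e24261222222e84c2844242222e2228a242ec19,
    0x242224e242424e61242828e81c284418244282824e282828ee2428a8c1b]]

noncomputable def n2178 : Ent := ⟨e2178, noF, [], [], []⟩

def c2178 : PLift (Cov.check n2178.C.D v2178 = true) := ⟨by decide +kernel⟩

def b2178 : PLift (entF (fidx ts) 400 2178 n2178 = true) := ⟨by decide +kernel⟩

theorem g2178 : GoodF (fidx ts) 400 2178 := GoodF.ofV v2178 n2178 c2178.down b2178.down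

/-- 4748448:1852/3 -/
noncomputable def e2179 : SCfg where
  D := {
    a := 7
    L := 10
    kp := 8
    inn := [(0, 1), (0, 6), (1, 0), (1, 2), (1, 3), (1, 5), (1, 6), (2, 1), (2, 3), (2, 6), (3, 1), (3,
      2), (3, 4), (3, 5), (4, 3), (5, 1), (5, 3), (6, 0), (6, 1), (6, 2)]
    mix := [(0, 0), (0, 1), (1, 0), (1, 2), (2, 3), (3, 3), (3, 4), (3, 5), (3, 6), (4, 5), (4, 6), (4,
      7), (5, 2), (5, 6), (6, 1), (6, 3), (6, 7), (6, 8), (6, 9)]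
    cl := [5, 2, 1, 0, 8, 3, 0, 4, 6, 7]
    chq := [(0, 3), (1, 2), (1, 4), (1, 6), (1, 7), (2, 1), (3, 0), (4, 1), (6, 1), (7, 1)]
    rng := [(0, 1), (0, 2), (1, 0), (1, 8), (2, 0), (2, 6), (3, 4), (3, 9), (4, 3), (4, 5), (5, 4), (5,
      7), (6, 2), (6, 7), (7, 5), (7, 6), (7, 8), (7, 9), (8, 1), (8, 7), (9, 3), (9, 7)]
    lev := [] }
  links := [[1, 7, 8, 6], [7, 0, 6, 2, 3, 5, 9], [3, 1, 6, 10], [5, 1, 2, 10, 11, 12, 4, 13], [13, 3, 12,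
    14], [9, 1, 3, 13], [10, 2, 1, 0, 8, 15, 14, 16]]
  P := {
    a := 7
    N := 17
    nb := [450, 749, 1098, 15414, 28680, 8714, 115975, 771, 32961, 8354, 67660, 5128, 18456, 16952,
      110672, 16704, 17472]
    tri := [(0, 1, 6), (0, 1, 7), (0, 6, 8), (0, 7, 8), (1, 2, 3), (1, 2, 6), (1, 3, 5), (1, 5, 9), (1,
      7, 9), (2, 3, 10), (2, 6, 10), (3, 4, 12), (3, 4, 13), (3, 5, 13), (3, 10, 11), (3, 11, 12),
      (4, 12, 14), (4, 13, 14), (5, 9, 13), (6, 8, 15), (6, 10, 16), (6, 14, 15), (6, 14, 16)]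
    fin := [0, 1, 2, 2, 4, 2, 1, 0, 8, 1, 2, 11, 12, 2, 4, 15, 16]
    chd := [(1, 4), (1, 15), (1, 16), (2, 12), (8, 1)]
    steps := [(0, 7), (1, 6), (1, 9), (2, 3), (2, 5), (2, 10), (2, 13), (4, 14)] }
  rep := [2, 1, 8, 12, 4, 0, 15, 16, 11]

noncomputable def v2179 : Cov.CovD where
  P := 3
  N := 6
  pl := [0, 4]
  lev := [⟨[], [], [], [5], [(1, 2, [1])]⟩,
    ⟨[], [(0, 1), (0, 2)], [], [5], [(2, 1, [2, 4, 6, 7])]⟩,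
    ⟨[(0, 1)], [(1, 0), (1, 1)], [], [], [(3, 0, [3])]⟩,
    ⟨[(0, 1), (1, 2)], [(1, 0), (1, 1), (1, 3), (2, 0), (2, 3)], [(0, 0), (0, 3)], [8],
      [(3, 0, [3]), (5, 3, [0]), (6, 0, [3])]⟩,
    ⟨[(1, 3), (2, 3)], [(3, 0), (3, 3), (3, 4)], [(0, 3), (0, 4), (3, 4)], [], [(5, 3,
      [0]), (6, 0, [3]), (7, 4, [1])]⟩,
    ⟨[(0, 1), (1, 2), (1, 3), (2, 3), (3, 4)], [(1, 0), (1, 1), (3, 0), (3, 1), (3, 3), (4,
      0)], [(0, 1)], [], [(2, 1, [2, 4, 6, 7]), (6, 0, [3])]⟩,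
    ⟨[(0, 1), (0, 2), (1, 2), (1, 3), (1, 5), (2, 3)], [(0, 0), (0, 2), (0, 4), (0, 6), (0,
      7), (1, 0), (1, 1), (1, 2), (1, 4), (1, 6), (1, 7), (2, 0), (2, 2), (2, 4), (2, 6), (2,
      7), (3, 0), (4, 4)], [(0, 2), (0, 4), (0, 6), (0, 7), (2, 4), (2, 6), (2, 7), (4, 6),
      (4, 7), (6, 7)], [], [(1, 2, [1]), (3, 0, [3]), (7, 4, [1]), (8, 6, [1]), (9, 7, [1])]⟩]
  Ta := [((3, 4), 0, 8), ((3, 9), 0, 7), ((6, 2), 0, 1), ((6, 7), 0, 4)]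
  Tb := [((0, 1, 2), 5, 2, 1), ((1, 0, 8), 2, 5, 6), ((2, 0, 6), 1, 5, 0), ((3, 4, 9), 0, 8, 7),
    ((4, 3, 5), 8, 0, 3), ((5, 4, 7), 3, 8, 4), ((6, 2, 7), 0, 1, 4), ((7, 5, 6), 4, 3, 0),
    ((7, 5, 8), 4, 3, 6), ((7, 5, 9), 4, 3, 7), ((7, 6, 8), 4, 0, 6), ((7, 6, 9), 4, 0, 7),
    ((7, 8, 9), 4, 6, 7), ((8, 1, 7), 6, 2, 4), ((9, 3, 7), 7, 0, 4)]
  Tc := [(1, 2, 4), (1, 2, 6), (1, 2, 7), (1, 4, 6), (1, 4, 7), (1, 6, 7)]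
  Td := [((0, 3), (3, 4), 8), ((0, 3), (3, 9), 7), ((0, 3), (6, 2), 1), ((0, 3), (6, 7), 4), ((1,
    2), (2, 0), 5), ((1, 2), (2, 6), 0), ((1, 4), (2, 0), 5), ((1, 4), (2, 6), 0), ((1, 6),
    (2, 0), 5), ((1, 6), (2, 6), 0), ((1, 7), (2, 0), 5), ((1, 7), (2, 6), 0), ((2, 1), (1,
    0), 5), ((2, 1), (1, 8), 6), ((3, 0), (5, 4), 8), ((3, 0), (5, 7), 4), ((4, 1), (7, 5),
    3), ((4, 1), (7, 6), 0), ((4, 1), (7, 8), 6), ((4, 1), (7, 9), 7), ((6, 1), (8, 1), 2),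
    ((6, 1), (8, 7), 4), ((7, 1), (9, 3), 0), ((7, 1), (9, 7), 4)]
  G := [[0, 0, 0x2122921243624146242458892122321285a2818a28289445c,
    0x2414821223282a8c28122223282e415, 0x218242436421245281c8c242432824524289e819], [0,
    0x141414e2121214e46141418e82a181218e2121818e8a181812e486c,
    0x242224e41242828e282428ea49222828e282828ea1242828e4852844124881ce,
    0x222224e418222222e282a142244242228e2828a282ec1d,
    0x22441242828e2828a242828ee1c284418242828e4242428e282828eac1b]]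

noncomputable def n2179 : Ent := ⟨e2179, noF, [], [], []⟩

def c2179 : PLift (Cov.check n2179.C.D v2179 = true) := ⟨by decide +kernel⟩

def b2179 : PLift (entF (fidx ts) 400 2179 n2179 = true) := ⟨by decide +kernel⟩

theorem g2179 : GoodF (fidx ts) 400 2179 := GoodF.ofV v2179 n2179 c2179.down b2179.down

/-- 4748448:1852 -/
noncomputable def e2180 : SCfg where
  D := {
    a := 7
    L := 11
    kp := 9
    inn := [(0, 1), (0, 6), (1, 0), (1, 2), (1, 3), (1, 5), (1, 6), (2, 1), (2, 3), (2, 6), (3, 1), (3,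
      2), (3, 4), (3, 5), (4, 3), (5, 1), (5, 3), (6, 0), (6, 1), (6, 2)]
    mix := [(0, 0), (0, 1), (1, 0), (1, 2), (2, 3), (3, 3), (3, 4), (3, 5), (3, 6), (4, 5), (4, 6), (4,
      7), (5, 2), (5, 6), (6, 1), (6, 3), (6, 8), (6, 9), (6, 10)]
    cl := [2, 1, 0, 3, 8, 4, 3, 9, 5, 6, 7]
    chq := [(0, 1), (0, 5), (0, 6), (0, 7), (1, 0), (3, 4), (4, 3), (5, 0), (6, 0), (7, 0)]
    rng := [(0, 1), (0, 2), (1, 0), (1, 8), (2, 0), (2, 6), (3, 4), (3, 10), (4, 3), (4, 5), (5, 4),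
      (5, 7), (6, 2), (6, 7), (7, 5), (7, 6), (8, 1), (8, 9), (9, 8), (9, 10), (10, 3), (10, 9)]
    lev := [] }
  links := [[1, 7, 8, 6], [7, 0, 6, 2, 3, 5, 9], [3, 1, 6, 10], [5, 1, 2, 10, 11, 12, 4, 13], [13, 3, 12,
    14], [9, 1, 3, 13], [10, 2, 1, 0, 8, 15, 16, 17]]
  P := {
    a := 7
    N := 18
    nb := [450, 749, 1098, 15414, 28680, 8714, 230663, 771, 32961, 8354, 133196, 5128, 18456, 16952,
      12304, 65856, 163904, 66624]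
    tri := [(0, 1, 6), (0, 1, 7), (0, 6, 8), (0, 7, 8), (1, 2, 3), (1, 2, 6), (1, 3, 5), (1, 5, 9), (1,
      7, 9), (2, 3, 10), (2, 6, 10), (3, 4, 12), (3, 4, 13), (3, 5, 13), (3, 10, 11), (3, 11, 12),
      (4, 12, 14), (4, 13, 14), (5, 9, 13), (6, 8, 15), (6, 10, 17), (6, 15, 16), (6, 16, 17)]
    fin := [0, 1, 2, 2, 2, 2, 1, 0, 8, 1, 2, 11, 12, 2, 14, 15, 16, 17]
    chd := [(1, 15), (1, 16), (1, 17), (2, 12), (8, 1)]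
    steps := [(0, 7), (1, 6), (1, 9), (2, 3), (2, 4), (2, 5), (2, 10), (2, 13)] }
  rep := [1, 8, 0, 2, 12, 15, 16, 17, 11, 14]

noncomputable def v2180 : Cov.CovD where
  P := 3
  N := 7
  pl := [0, 4, 7]
  lev := [⟨[], [], [], [2], [(1, 1, [0])]⟩,
    ⟨[], [(0, 0), (0, 1)], [], [2], [(2, 0, [1, 5, 6, 7])]⟩,
    ⟨[(0, 1)], [(1, 0), (1, 3)], [], [], [(3, 3, [4])]⟩,
    ⟨[(0, 1), (1, 2)], [(1, 0), (1, 3), (1, 4), (2, 3), (2, 4)], [(3, 3), (3, 4)], [8],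
      [(3, 3, [4]), (5, 4, [3]), (6, 3, [4])]⟩,
    ⟨[(1, 3), (2, 3)], [(3, 3), (3, 4)], [(3, 4)], [9], [(5, 4, [3]), (6, 3, [4])]⟩,
    ⟨[(0, 1), (1, 2), (1, 3), (2, 3), (3, 4)], [(1, 0), (1, 3), (3, 0), (3, 3), (3, 4), (4,
      3)], [(0, 3)], [], [(2, 0, [1, 5, 6, 7]), (6, 3, [4])]⟩,
    ⟨[(0, 1), (0, 2), (1, 2), (1, 3), (1, 5), (2, 3)], [(0, 1), (0, 3), (0, 5), (0, 6), (0,
      7), (1, 0), (1, 1), (1, 3), (1, 5), (1, 6), (1, 7), (2, 1), (2, 3), (2, 5), (2, 6), (2,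
      7), (3, 3)], [(1, 3), (1, 5), (1, 6), (1, 7), (3, 5), (3, 6), (3, 7), (5, 6), (5, 7),
      (6, 7)], [], [(1, 1, [0]), (3, 3, [4]), (8, 5, [0]), (9, 6, [0]), (10, 7, [0])]⟩]
  Ta := [((3, 4), 3, 8), ((3, 10), 3, 7), ((6, 2), 3, 0), ((6, 7), 3, 9)]
  Tb := [((0, 1, 2), 2, 1, 0), ((1, 0, 8), 1, 2, 5), ((2, 0, 6), 0, 2, 3), ((3, 4, 10), 3, 8, 7),
    ((4, 3, 5), 8, 3, 4), ((5, 4, 7), 4, 8, 9), ((6, 2, 7), 3, 0, 9), ((7, 5, 6), 9, 4, 3),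
    ((8, 1, 9), 5, 1, 6), ((9, 8, 10), 6, 5, 7), ((10, 3, 9), 7, 3, 6)]
  Tc := [(0, 1, 5), (0, 1, 6), (0, 1, 7), (0, 5, 6), (0, 5, 7), (0, 6, 7)]
  Td := [((0, 1), (2, 0), 2), ((0, 1), (2, 6), 3), ((0, 5), (2, 0), 2), ((0, 5), (2, 6), 3), ((0,
    6), (2, 0), 2), ((0, 6), (2, 6), 3), ((0, 7), (2, 0), 2), ((0, 7), (2, 6), 3), ((1, 0),
    (1, 0), 2), ((1, 0), (1, 8), 5), ((3, 4), (3, 4), 8), ((3, 4), (3, 10), 7), ((3, 4), (6,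
    2), 0), ((3, 4), (6, 7), 9), ((4, 3), (5, 4), 8), ((4, 3), (5, 7), 9), ((5, 0), (8, 1),
    1), ((5, 0), (8, 9), 6), ((6, 0), (9, 8), 5), ((6, 0), (9, 10), 7), ((7, 0), (10, 3), 3),
    ((7, 0), (10, 9), 6)]
  G := [[0, 0x1421211a142d1141411c12125b684, 0x1414311481181461414a1418ceb24,
    0x1421211aa14123d124141814d124b684, 0x1481483211614618418186b11a18a4ca8], [0,
    0x14111114f4212111112f18141211cf311111218f8ac8,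
    0x121411c12f18141211af38116181818f1811a1214fc168,
    0x116181218f824181411c12f21811a1414f18141211af568c,
    0x115123241811a1214f4116181218f1814c18141211afbca1822489]]

noncomputable def n2180 : Ent := ⟨e2180, noF, [], [], [(8, 14, [7334790875878422277917280412776772662961875900559637987928627378393089, 0]), (15, 14, [7334790875878422277917280412776772662961875900559637987928627378397185, 0]), (16, 14, [7334685589297762428874426903420482469988158645819485339342058432245761, 0])]⟩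

def c2180 : PLift (Cov.check n2180.C.D v2180 = true) := ⟨by decide +kernel⟩

def b2180 : PLift (entF (fidx ts) 400 2180 n2180 = true) := ⟨by decide +kernel⟩

theorem g2180 : GoodF (fidx ts) 400 2180 := GoodF.ofV v2180 n2180 c2180.down b2180.down

/-- 4748446:1853/1 -/
noncomputable def e2181 : SCfg where
  D := {
    a := 7
    L := 9
    kp := 7
    inn := [(0, 1), (1, 0), (1, 2), (1, 3), (1, 5), (2, 1), (2, 3), (2, 6), (3, 1), (3, 2), (3, 4), (3,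
      5), (3, 6), (4, 3), (5, 1), (5, 3), (6, 2), (6, 3)]
    mix := [(0, 0), (0, 1), (0, 2), (1, 0), (1, 2), (1, 3), (2, 2), (3, 4), (3, 5), (3, 6), (4, 5), (4,
      6), (4, 7), (5, 3), (5, 6), (6, 1), (6, 2), (6, 4), (6, 8)]
    cl := [5, 2, 0, 0, 3, 4, 1, 7, 6]
    chq := [(1, 2), (1, 3), (1, 4), (1, 6), (2, 1), (3, 1), (4, 1), (6, 1)]
    rng := [(0, 1), (0, 3), (1, 0), (1, 2), (1, 8), (2, 1), (3, 0), (3, 6), (4, 5), (4, 8), (5, 4), (5,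
      7), (6, 3), (6, 7), (7, 5), (7, 6), (8, 1), (8, 4)]
    lev := [] }
  links := [[1, 7, 8, 9], [7, 0, 9, 2, 3, 5, 10], [3, 1, 9, 6], [5, 1, 2, 6, 11, 12, 4, 13], [13, 3, 12,
    14], [10, 1, 3, 13], [11, 3, 2, 9, 8, 15]]
  P := {
    a := 7
    N := 16
    nb := [898, 1709, 586, 14454, 28680, 9226, 35596, 1283, 33473, 327, 8354, 36936, 18456, 17464,
      12304, 2368]
    tri := [(0, 1, 7), (0, 1, 9), (0, 7, 8), (0, 8, 9), (1, 2, 3), (1, 2, 9), (1, 3, 5), (1, 5, 10),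
      (1, 7, 10), (2, 3, 6), (2, 6, 9), (3, 4, 12), (3, 4, 13), (3, 5, 13), (3, 6, 11), (3, 11,
      12), (4, 12, 14), (4, 13, 14), (5, 10, 13), (6, 8, 9), (6, 8, 15), (6, 11, 15)]
    fin := [0, 1, 1, 3, 4, 1, 3, 0, 8, 1, 1, 11, 4, 3, 14, 15]
    chd := [(3, 15), (4, 3), (8, 3), (11, 3)]
    steps := [(0, 7), (1, 2), (1, 5), (1, 9), (1, 10), (3, 6), (3, 13), (4, 12)] }
  rep := [1, 3, 8, 11, 4, 0, 15, 14]

noncomputable def v2181 : Cov.CovD where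
  P := 3
  N := 5
  pl := [0, 7]
  lev := [⟨[], [], [(0, 2)], [5], [(1, 2, [1]), (2, 0, [])]⟩,
    ⟨[], [(0, 0), (0, 2)], [(0, 0)], [5], [(2, 0, []), (3, 0, [])]⟩,
    ⟨[(0, 1)], [(0, 0), (1, 0)], [], [], [(2, 0, [])]⟩,
    ⟨[(0, 1), (1, 2)], [(1, 0), (1, 1), (1, 3), (1, 4), (2, 0), (2, 1), (2, 3), (2, 4)],
      [(1, 3), (1, 4), (3, 4)], [], [(4, 3, [1]), (5, 4, [1]), (6, 1, [2, 3, 4, 6])]⟩,
    ⟨[(1, 3), (2, 3)], [(3, 1), (3, 3), (3, 4)], [(1, 4)], [7], [(5, 4, [1]), (6, 1, [2, 3,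
      4, 6])]⟩,
    ⟨[(0, 1), (1, 2), (1, 3), (2, 3), (3, 4)], [(1, 0), (1, 1), (3, 0), (3, 1), (3, 3), (3,
      4), (4, 1)], [(0, 1)], [], [(3, 0, []), (6, 1, [2, 3, 4, 6])]⟩,
    ⟨[(1, 2), (1, 3), (2, 3), (3, 4), (3, 5)], [(0, 0), (0, 2), (1, 0), (2, 0), (2, 2), (2,
      3), (2, 6), (3, 0), (3, 1), (3, 2), (3, 3), (3, 4), (3, 6)], [(0, 2), (0, 3), (0, 6),
      (2, 3), (2, 6), (3, 6)], [], [(1, 2, [1]), (2, 0, []), (4, 3, [1]), (8, 6, [1])]⟩]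
  Ta := [((2, 1), 0, 2), ((3, 0), 0, 5), ((3, 6), 0, 1)]
  Tb := [((0, 1, 3), 5, 2, 0), ((1, 0, 2), 2, 5, 0), ((1, 0, 8), 2, 5, 6), ((1, 2, 8), 2, 0, 6),
    ((3, 0, 6), 0, 5, 1), ((4, 5, 8), 3, 4, 6), ((5, 4, 7), 4, 3, 7), ((6, 3, 7), 1, 0, 7),
    ((7, 5, 6), 7, 4, 1), ((8, 1, 4), 6, 2, 3)]
  Tc := [(1, 2, 3), (1, 2, 4), (1, 2, 6), (1, 3, 4), (1, 3, 6), (1, 4, 6)]
  Td := [((1, 2), (6, 3), 0), ((1, 2), (6, 7), 7), ((1, 3), (6, 3), 0), ((1, 3), (6, 7), 7), ((1,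
    4), (6, 3), 0), ((1, 4), (6, 7), 7), ((1, 6), (6, 3), 0), ((1, 6), (6, 7), 7), ((2, 1),
    (1, 0), 5), ((2, 1), (1, 2), 0), ((2, 1), (1, 8), 6), ((3, 1), (4, 5), 4), ((3, 1), (4,
    8), 6), ((4, 1), (5, 4), 3), ((4, 1), (5, 7), 7), ((6, 1), (8, 1), 2), ((6, 1), (8, 4),
    3)]
  G := [[0, 0, 0x21219242424d54212828d84c214488212821d4212424d242424d9c2e,
    0x242242282d82242212282d82c, 0x212121b242424d521446212828d84c282828d282428d5242821d8c2a],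
    [0, 0x141214e2141214e46141814e82a181218e2121812e8a141814e426c, 0,
    0x242282282d82242282242d425,
    0x242424d1242424b45242824d81c282424d1242824d242824dc92284428b]]

noncomputable def n2181 : Ent := ⟨e2181, noF, [], [], []⟩

def c2181 : PLift (Cov.check n2181.C.D v2181 = true) := ⟨by decide +kernel⟩

def b2181 : PLift (entF (fidx ts) 400 2181 n2181 = true) := ⟨by decide +kernel⟩

theorem g2181 : GoodF (fidx ts) 400 2181 := GoodF.ofV v2181 n2181 c2181.down b2181.down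

/-- 4748446:1853/2 -/
noncomputable def e2182 : SCfg where
  D := {
    a := 7
    L := 9
    kp := 7
    inn := [(0, 1), (1, 0), (1, 2), (1, 3), (1, 5), (2, 1), (2, 3), (2, 6), (3, 1), (3, 2), (3, 4), (3,
      5), (3, 6), (4, 3), (5, 1), (5, 3), (6, 2), (6, 3)]
    mix := [(0, 0), (0, 1), (0, 2), (1, 0), (1, 2), (1, 3), (2, 2), (3, 4), (3, 5), (3, 6), (4, 1), (4,
      5), (4, 6), (5, 3), (5, 6), (6, 2), (6, 4), (6, 7), (6, 8)]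
    cl := [2, 5, 0, 0, 3, 4, 1, 6, 7]
    chq := [(1, 3), (1, 4), (1, 6), (1, 7), (3, 1), (4, 1), (6, 1), (7, 1)]
    rng := [(0, 1), (0, 3), (1, 0), (1, 2), (1, 5), (1, 6), (2, 1), (2, 7), (3, 0), (3, 6), (4, 5), (4,
      8), (5, 1), (5, 4), (6, 1), (6, 3), (7, 2), (7, 8), (8, 4), (8, 7)]
    lev := [] }
  links := [[1, 7, 8, 9], [7, 0, 9, 2, 3, 5, 10], [3, 1, 9, 6], [5, 1, 2, 6, 11, 12, 4, 13], [13, 3, 12,
    8], [10, 1, 3, 13], [11, 3, 2, 9, 14, 15]]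
  P := {
    a := 7
    N := 16
    nb := [898, 1709, 586, 14454, 12552, 9226, 51724, 1283, 12945, 16711, 8354, 36936, 2328, 1336,
      33344, 18496]
    tri := [(0, 1, 7), (0, 1, 9), (0, 7, 8), (0, 8, 9), (1, 2, 3), (1, 2, 9), (1, 3, 5), (1, 5, 10),
      (1, 7, 10), (2, 3, 6), (2, 6, 9), (3, 4, 12), (3, 4, 13), (3, 5, 13), (3, 6, 11), (3, 11,
      12), (4, 8, 12), (4, 8, 13), (5, 10, 13), (6, 9, 14), (6, 11, 15), (6, 14, 15)]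
    fin := [0, 1, 1, 3, 4, 1, 3, 0, 4, 1, 1, 11, 12, 3, 14, 15]
    chd := [(3, 14), (3, 15), (11, 3), (12, 3)]
    steps := [(0, 7), (1, 2), (1, 5), (1, 9), (1, 10), (3, 6), (3, 13), (4, 8)] }
  rep := [1, 3, 0, 11, 12, 4, 14, 15]

noncomputable def v2182 : Cov.CovD where
  P := 3
  N := 5
  pl := [0, 1]
  lev := [⟨[], [], [], [2, 5], [(2, 0, [])]⟩,
    ⟨[], [(0, 0)], [(0, 0)], [2], [(2, 0, []), (3, 0, [])]⟩,
    ⟨[(0, 1)], [(0, 0), (1, 0)], [], [], [(2, 0, [])]⟩,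
    ⟨[(0, 1), (1, 2)], [(1, 0), (1, 1), (1, 3), (1, 4), (2, 0), (2, 1), (2, 3), (2, 4)],
      [(1, 3), (1, 4), (3, 4)], [], [(4, 3, [1]), (5, 4, [1]), (6, 1, [3, 4, 6, 7])]⟩,
    ⟨[(1, 3), (2, 3)], [(3, 1), (3, 3), (3, 4)], [(1, 4)], [5], [(5, 4, [1]), (6, 1, [3, 4,
      6, 7])]⟩,
    ⟨[(0, 1), (1, 2), (1, 3), (2, 3), (3, 4)], [(1, 0), (1, 1), (3, 0), (3, 1), (3, 3), (3,
      4), (4, 1)], [(0, 1)], [], [(3, 0, []), (6, 1, [3, 4, 6, 7])]⟩,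
    ⟨[(1, 2), (1, 3), (2, 3), (3, 4), (3, 5)], [(0, 0), (1, 0), (2, 0), (2, 3), (2, 6), (2,
      7), (3, 0), (3, 1), (3, 3), (3, 4), (3, 6), (3, 7)], [(0, 3), (0, 6), (0, 7), (3, 6),
      (3, 7), (6, 7)], [], [(2, 0, []), (4, 3, [1]), (7, 6, [1]), (8, 7, [1])]⟩]
  Ta := [((2, 1), 0, 5), ((2, 7), 0, 6), ((3, 0), 0, 2), ((3, 6), 0, 1)]
  Tb := [((0, 1, 3), 2, 5, 0), ((1, 0, 2), 5, 2, 0), ((1, 0, 5), 5, 2, 4), ((1, 0, 6), 5, 2, 1),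
    ((1, 2, 5), 5, 0, 4), ((1, 2, 6), 5, 0, 1), ((1, 5, 6), 5, 4, 1), ((2, 1, 7), 0, 5, 6),
    ((3, 0, 6), 0, 2, 1), ((4, 5, 8), 3, 4, 7), ((5, 1, 4), 4, 5, 3), ((6, 1, 3), 1, 5, 0),
    ((7, 2, 8), 6, 0, 7), ((8, 4, 7), 7, 3, 6)]
  Tc := [(1, 3, 4), (1, 3, 6), (1, 3, 7), (1, 4, 6), (1, 4, 7), (1, 6, 7)]
  Td := [((1, 3), (6, 1), 5), ((1, 3), (6, 3), 0), ((1, 4), (6, 1), 5), ((1, 4), (6, 3), 0), ((1,
    6), (6, 1), 5), ((1, 6), (6, 3), 0), ((1, 7), (6, 1), 5), ((1, 7), (6, 3), 0), ((3, 1),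
    (4, 5), 4), ((3, 1), (4, 8), 7), ((4, 1), (5, 1), 5), ((4, 1), (5, 4), 3), ((6, 1), (7,
    2), 0), ((6, 1), (7, 8), 7), ((7, 1), (8, 4), 3), ((7, 1), (8, 7), 6)]
  G := [[0, 0, 0, 0x2128942182819c4214242424d5242158c8c, 0x248212892424cd422144212452819c8a],
    [0, 0x1818a4128121218eac4124414126182ac8c, 0x24828289c12241284281d82284281944e,
    0x2488142844224245282828b281d8c9, 0x241282828d281d2428c8c21]]

noncomputable def n2182 : Ent := ⟨e2182, noF, [], [], []⟩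

def c2182 : PLift (Cov.check n2182.C.D v2182 = true) := ⟨by decide +kernel⟩

def b2182 : PLift (entF (fidx ts) 400 2182 n2182 = true) := ⟨by decide +kernel⟩

theorem g2182 : GoodF (fidx ts) 400 2182 := GoodF.ofV v2182 n2182 c2182.down b2182.down

/-- 4748446:1853 -/
noncomputable def e2183 : SCfg where
  D := {
    a := 7
    L := 10
    kp := 8
    inn := [(0, 1), (1, 0), (1, 2), (1, 3), (1, 5), (2, 1), (2, 3), (2, 6), (3, 1), (3, 2), (3, 4), (3,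
      5), (3, 6), (4, 3), (5, 1), (5, 3), (6, 2), (6, 3)]
    mix := [(0, 0), (0, 1), (0, 2), (1, 0), (1, 2), (1, 3), (2, 2), (3, 4), (3, 5), (3, 6), (4, 5), (4,
      6), (4, 7), (5, 3), (5, 6), (6, 2), (6, 4), (6, 8), (6, 9)]
    cl := [2, 7, 0, 0, 3, 4, 1, 8, 5, 6]
    chq := [(1, 3), (1, 4), (1, 5), (1, 6), (3, 1), (4, 1), (5, 1), (6, 1)]
    rng := [(0, 1), (0, 3), (1, 0), (1, 2), (2, 1), (2, 8), (3, 0), (3, 6), (4, 5), (4, 9), (5, 4), (5,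
      7), (6, 3), (6, 7), (7, 5), (7, 6), (8, 2), (8, 9), (9, 4), (9, 8)]
    lev := [] }
  links := [[1, 7, 8, 9], [7, 0, 9, 2, 3, 5, 10], [3, 1, 9, 6], [5, 1, 2, 6, 11, 12, 4, 13], [13, 3, 12,
    14], [10, 1, 3, 13], [11, 3, 2, 9, 15, 16]]
  P := {
    a := 7
    N := 17
    nb := [898, 1709, 586, 14454, 28680, 9226, 100876, 1283, 641, 33095, 8354, 69704, 18456, 17464,
      12304, 66112, 34880]
    tri := [(0, 1, 7), (0, 1, 9), (0, 7, 8), (0, 8, 9), (1, 2, 3), (1, 2, 9), (1, 3, 5), (1, 5, 10),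
      (1, 7, 10), (2, 3, 6), (2, 6, 9), (3, 4, 12), (3, 4, 13), (3, 5, 13), (3, 6, 11), (3, 11,
      12), (4, 12, 14), (4, 13, 14), (5, 10, 13), (6, 9, 15), (6, 11, 16), (6, 15, 16)]
    fin := [0, 1, 1, 3, 4, 1, 3, 0, 8, 1, 1, 11, 4, 3, 14, 15, 16]
    chd := [(3, 15), (3, 16), (4, 3), (11, 3)]
    steps := [(0, 7), (1, 2), (1, 5), (1, 9), (1, 10), (3, 6), (3, 13), (4, 12)] }
  rep := [1, 3, 0, 11, 4, 15, 16, 8, 14]

noncomputable def v2183 : Cov.CovD where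
  P := 3
  N := 6
  pl := [0, 1, 7]
  lev := [⟨[], [], [], [2, 7], [(2, 0, [])]⟩,
    ⟨[], [(0, 0)], [(0, 0)], [2], [(2, 0, []), (3, 0, [])]⟩,
    ⟨[(0, 1)], [(0, 0), (1, 0)], [], [], [(2, 0, [])]⟩,
    ⟨[(0, 1), (1, 2)], [(1, 0), (1, 1), (1, 3), (1, 4), (2, 0), (2, 1), (2, 3), (2, 4)],
      [(1, 3), (1, 4), (3, 4)], [], [(4, 3, [1]), (5, 4, [1]), (6, 1, [3, 4, 5, 6])]⟩,
    ⟨[(1, 3), (2, 3)], [(3, 1), (3, 3), (3, 4)], [(1, 4)], [8], [(5, 4, [1]), (6, 1, [3, 4,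
      5, 6])]⟩,
    ⟨[(0, 1), (1, 2), (1, 3), (2, 3), (3, 4)], [(1, 0), (1, 1), (3, 0), (3, 1), (3, 3), (3,
      4), (4, 1)], [(0, 1)], [], [(3, 0, []), (6, 1, [3, 4, 5, 6])]⟩,
    ⟨[(1, 2), (1, 3), (2, 3), (3, 4), (3, 5)], [(0, 0), (1, 0), (2, 0), (2, 3), (2, 5), (2,
      6), (3, 0), (3, 1), (3, 3), (3, 4), (3, 5), (3, 6)], [(0, 3), (0, 5), (0, 6), (3, 5),
      (3, 6), (5, 6)], [], [(2, 0, []), (4, 3, [1]), (8, 5, [1]), (9, 6, [1])]⟩]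
  Ta := [((2, 1), 0, 7), ((2, 8), 0, 5), ((3, 0), 0, 2), ((3, 6), 0, 1)]
  Tb := [((0, 1, 3), 2, 7, 0), ((1, 0, 2), 7, 2, 0), ((2, 1, 8), 0, 7, 5), ((3, 0, 6), 0, 2, 1),
    ((4, 5, 9), 3, 4, 6), ((5, 4, 7), 4, 3, 8), ((6, 3, 7), 1, 0, 8), ((7, 5, 6), 8, 4, 1),
    ((8, 2, 9), 5, 0, 6), ((9, 4, 8), 6, 3, 5)]
  Tc := [(1, 3, 4), (1, 3, 5), (1, 3, 6), (1, 4, 5), (1, 4, 6), (1, 5, 6)]
  Td := [((1, 3), (6, 3), 0), ((1, 3), (6, 7), 8), ((1, 4), (6, 3), 0), ((1, 4), (6, 7), 8), ((1,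
    5), (6, 3), 0), ((1, 5), (6, 7), 8), ((1, 6), (6, 3), 0), ((1, 6), (6, 7), 8), ((3, 1),
    (4, 5), 4), ((3, 1), (4, 9), 6), ((4, 1), (5, 4), 3), ((4, 1), (5, 7), 8), ((5, 1), (8,
    2), 0), ((5, 1), (8, 9), 6), ((6, 1), (9, 4), 3), ((6, 1), (9, 8), 5)]
  G := [[0, 0, 0, 0x21245422121a4212828d282828d9cc242124d242424d5242168c2121982cc,
    0x212821d4212121d282428d9c2242124d242424d58242821d84aa], [0,
    0x121214e42121218e121818ea4c141214e4121418e2c121218e82cc,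
    0x242828d242824d5242824d892282428d1242828d242828dc52a,
    0x242462828a242824dd28285462424982c1, 0x282824d242424d5242424d8c21]]

noncomputable def n2183 : Ent := ⟨e2183, noF, [], [], [(8, 15, [1685356702439545624007900436039642273970977273354372543760009023489, 0]), (8, 14, [1685382413448253767852309107433119732572617628602273068445373849601, 0])]⟩

def c2183 : PLift (Cov.check n2183.C.D v2183 = true) := ⟨by decide +kernel⟩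

def b2183 : PLift (entF (fidx ts) 400 2183 n2183 = true) := ⟨by decide +kernel⟩

theorem g2183 : GoodF (fidx ts) 400 2183 := GoodF.ofV v2183 n2183 c2183.down b2183.down

/-- 4748444:1855/1 -/
noncomputable def e2184 : SCfg where
  D := {
    a := 7
    L := 8
    kp := 6
    inn := [(0, 1), (1, 0), (1, 2), (1, 3), (1, 5), (2, 1), (2, 3), (3, 1), (3, 2), (3, 4), (3, 5), (3,
      6), (4, 3), (5, 1), (5, 3), (6, 3)]
    mix := [(0, 0), (0, 1), (0, 2), (1, 0), (1, 2), (1, 3), (2, 2), (2, 4), (3, 4), (3, 5), (3, 6), (4,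
      5), (4, 6), (4, 7), (5, 3), (5, 6), (6, 1), (6, 4), (6, 5)]
    cl := [2, 5, 0, 0, 1, 3, 4, 6]
    chq := [(1, 3), (1, 4), (1, 6), (3, 1), (4, 1), (6, 1)]
    rng := [(0, 1), (0, 3), (1, 0), (1, 2), (1, 4), (1, 5), (2, 1), (2, 4), (3, 0), (3, 6), (4, 1), (4,
      2), (5, 1), (5, 7), (6, 3), (6, 7), (7, 5), (7, 6)]
    lev := [] }
  links := [[1, 7, 8, 9], [7, 0, 9, 2, 3, 5, 10], [3, 1, 9, 11], [5, 1, 2, 11, 6, 12, 4, 13], [13, 3, 12,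
    14], [10, 1, 3, 13], [12, 3, 11, 8]]
  P := {
    a := 7
    N := 15
    nb := [898, 1709, 2570, 14454, 28680, 9226, 6408, 1283, 6849, 2311, 8354, 844, 16728, 17464,
      12304]
    tri := [(0, 1, 7), (0, 1, 9), (0, 7, 8), (0, 8, 9), (1, 2, 3), (1, 2, 9), (1, 3, 5), (1, 5, 10),
      (1, 7, 10), (2, 3, 11), (2, 9, 11), (3, 4, 12), (3, 4, 13), (3, 5, 13), (3, 6, 11), (3, 6,
      12), (4, 12, 14), (4, 13, 14), (5, 10, 13), (6, 8, 11), (6, 8, 12)]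
    fin := [0, 1, 1, 3, 3, 1, 6, 0, 6, 1, 1, 3, 12, 13, 14]
    chd := [(3, 12), (3, 13), (3, 14)]
    steps := [(0, 7), (1, 2), (1, 5), (1, 9), (1, 10), (3, 4), (3, 11), (6, 8)] }
  rep := [1, 3, 0, 12, 13, 6, 14]

noncomputable def v2184 : Cov.CovD where
  P := 3
  N := 4
  pl := [0, 1]
  lev := [⟨[], [], [], [2, 5], [(2, 0, [])]⟩,
    ⟨[], [(0, 0)], [(0, 0)], [2], [(2, 0, []), (3, 0, [])]⟩,
    ⟨[(0, 1)], [(0, 0), (1, 0), (1, 1)], [(0, 1)], [], [(2, 0, []), (4, 1, [3, 4, 6])]⟩,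
    ⟨[(0, 1), (1, 2)], [(1, 0), (1, 1), (1, 3), (1, 4), (2, 0), (2, 1), (2, 3), (2, 4)],
      [(1, 3), (1, 4), (3, 4)], [], [(4, 1, [3, 4, 6]), (5, 3, [1]), (6, 4, [1])]⟩,
    ⟨[(1, 3), (2, 3)], [(3, 1), (3, 3), (3, 4), (3, 6)], [(3, 4), (3, 6), (4, 6)], [], [(5,
      3, [1]), (6, 4, [1]), (7, 6, [1])]⟩,
    ⟨[(0, 1), (1, 2), (1, 3), (2, 3), (3, 4)], [(1, 0), (1, 4), (3, 0), (3, 1), (3, 3), (3,
      4), (4, 4)], [(0, 4)], [], [(3, 0, []), (6, 4, [1])]⟩,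
    ⟨[(1, 3), (2, 3), (3, 4), (3, 5)], [(2, 1), (3, 1), (3, 3), (3, 4), (4, 3)], [(1, 3)],
      [5], [(4, 1, [3, 4, 6]), (5, 3, [1])]⟩]
  Ta := [((2, 1), 0, 5), ((2, 4), 0, 1), ((3, 0), 0, 2), ((3, 6), 0, 4)]
  Tb := [((0, 1, 3), 2, 5, 0), ((1, 0, 2), 5, 2, 0), ((1, 0, 4), 5, 2, 1), ((1, 0, 5), 5, 2, 3),
    ((1, 2, 4), 5, 0, 1), ((1, 2, 5), 5, 0, 3), ((1, 4, 5), 5, 1, 3), ((2, 1, 4), 0, 5, 1),
    ((3, 0, 6), 0, 2, 4), ((4, 1, 2), 1, 5, 0), ((5, 1, 7), 3, 5, 6), ((6, 3, 7), 4, 0, 6),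
    ((7, 5, 6), 6, 3, 4)]
  Tc := [(1, 3, 4), (1, 3, 6), (1, 4, 6)]
  Td := [((1, 3), (4, 1), 5), ((1, 3), (4, 2), 0), ((1, 4), (4, 1), 5), ((1, 4), (4, 2), 0), ((1,
    6), (4, 1), 5), ((1, 6), (4, 2), 0), ((3, 1), (5, 1), 5), ((3, 1), (5, 7), 6), ((4, 1),
    (6, 3), 0), ((4, 1), (6, 7), 6), ((6, 1), (7, 5), 3), ((6, 1), (7, 6), 4)]
  G := [[0, 0x82314811e11ac441142611211a8cc, 0, 0x81219a258128c441252255128c8c,
    0x812822c22d42412442211c29c8a], [0, 0, 0x84212258228924224148221a294ca,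
    0xd2211625878a284c1, 0xa562458a21229c21]]

noncomputable def n2184 : Ent := ⟨e2184, noF, [], [], []⟩

def c2184 : PLift (Cov.check n2184.C.D v2184 = true) := ⟨by decide +kernel⟩

def b2184 : PLift (entF (fidx ts) 400 2184 n2184 = true) := ⟨by decide +kernel⟩

theorem g2184 : GoodF (fidx ts) 400 2184 := GoodF.ofV v2184 n2184 c2184.down b2184.down

/-- 4748444:1855/2 -/
noncomputable def e2185 : SCfg where
  D := {
    a := 7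
    L := 8
    kp := 6
    inn := [(0, 1), (1, 0), (1, 2), (1, 3), (1, 5), (2, 1), (2, 3), (3, 1), (3, 2), (3, 4), (3, 5), (3,
      6), (4, 3), (5, 1), (5, 3), (6, 3)]
    mix := [(0, 0), (0, 1), (0, 2), (1, 0), (1, 2), (1, 3), (2, 2), (2, 4), (3, 4), (3, 5), (3, 6), (4,
      1), (4, 5), (4, 6), (5, 3), (5, 6), (6, 4), (6, 5), (6, 7)]
    cl := [2, 5, 0, 0, 1, 4, 3, 6]
    chq := [(1, 3), (3, 1), (3, 4), (3, 6), (4, 3), (6, 3)]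
    rng := [(0, 1), (0, 3), (1, 0), (1, 2), (1, 5), (1, 6), (2, 1), (2, 4), (3, 0), (3, 6), (4, 2), (4,
      7), (5, 1), (5, 7), (6, 1), (6, 3), (7, 4), (7, 5)]
    lev := [] }
  links := [[1, 7, 8, 9], [7, 0, 9, 2, 3, 5, 10], [3, 1, 9, 11], [5, 1, 2, 11, 6, 12, 4, 13], [13, 3, 12,
    8], [10, 1, 3, 13], [12, 3, 11, 14]]
  P := {
    a := 7
    N := 15
    nb := [898, 1709, 2570, 14454, 12552, 9226, 22536, 1283, 12945, 2311, 8354, 16972, 16728, 1336,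
      6208]
    tri := [(0, 1, 7), (0, 1, 9), (0, 7, 8), (0, 8, 9), (1, 2, 3), (1, 2, 9), (1, 3, 5), (1, 5, 10),
      (1, 7, 10), (2, 3, 11), (2, 9, 11), (3, 4, 12), (3, 4, 13), (3, 5, 13), (3, 6, 11), (3, 6,
      12), (4, 8, 12), (4, 8, 13), (5, 10, 13), (6, 11, 14), (6, 12, 14)]
    fin := [0, 1, 1, 3, 4, 1, 6, 0, 4, 1, 1, 11, 12, 3, 6]
    chd := [(3, 6), (11, 3), (12, 3)]
    steps := [(0, 7), (1, 2), (1, 5), (1, 9), (1, 10), (3, 13), (4, 8), (6, 14)] }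
  rep := [1, 11, 0, 3, 12, 4, 6]

noncomputable def v2185 : Cov.CovD where
  P := 3
  N := 4
  pl := [0, 1]
  lev := [⟨[], [], [], [2, 5], [(2, 0, [])]⟩,
    ⟨[], [(0, 0)], [(0, 0)], [2], [(2, 0, []), (3, 0, [])]⟩,
    ⟨[(0, 1)], [(0, 0), (1, 0), (1, 1)], [(0, 1)], [], [(2, 0, []), (4, 1, [3])]⟩,
    ⟨[(0, 1), (1, 2)], [(1, 0), (1, 1), (1, 3), (1, 4), (2, 0), (2, 1), (2, 3), (2, 4)],
      [(1, 3), (1, 4), (3, 4)], [], [(4, 1, [3]), (5, 4, [3]), (6, 3, [1, 4, 6])]⟩,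
    ⟨[(1, 3), (2, 3)], [(3, 1), (3, 3), (3, 4)], [(3, 4)], [5], [(5, 4, [3]), (6, 3, [1, 4,
      6])]⟩,
    ⟨[(0, 1), (1, 2), (1, 3), (2, 3), (3, 4)], [(1, 0), (1, 3), (3, 0), (3, 1), (3, 3), (3,
      4), (4, 3)], [(0, 3)], [], [(3, 0, []), (6, 3, [1, 4, 6])]⟩,
    ⟨[(1, 3), (2, 3), (3, 4), (3, 5)], [(2, 1), (3, 1), (3, 3), (3, 4), (3, 6), (4, 4)],
      [(1, 4), (1, 6), (4, 6)], [], [(4, 1, [3]), (5, 4, [3]), (7, 6, [3])]⟩]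
  Ta := [((2, 1), 0, 5), ((2, 4), 0, 1), ((3, 0), 0, 2), ((3, 6), 0, 3)]
  Tb := [((0, 1, 3), 2, 5, 0), ((1, 0, 2), 5, 2, 0), ((1, 0, 5), 5, 2, 4), ((1, 0, 6), 5, 2, 3),
    ((1, 2, 5), 5, 0, 4), ((1, 2, 6), 5, 0, 3), ((1, 5, 6), 5, 4, 3), ((2, 1, 4), 0, 5, 1),
    ((3, 0, 6), 0, 2, 3), ((4, 2, 7), 1, 0, 6), ((5, 1, 7), 4, 5, 6), ((6, 1, 3), 3, 5, 0),
    ((7, 4, 5), 6, 1, 4)]
  Tc := [(3, 1, 4), (3, 1, 6), (3, 4, 6)]
  Td := [((1, 3), (4, 2), 0), ((1, 3), (4, 7), 6), ((3, 1), (6, 1), 5), ((3, 1), (6, 3), 0), ((3,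
    4), (6, 1), 5), ((3, 4), (6, 3), 0), ((3, 6), (6, 1), 5), ((3, 6), (6, 3), 0), ((4, 3),
    (5, 1), 5), ((4, 3), (5, 7), 6), ((6, 3), (7, 4), 1), ((6, 3), (7, 5), 4)]
  G := [[0, 0x618c12a8231464a1441c1366118a8c, 0, 0x81258c82354288c4814e2154128c8c,
    0x8144418c219c28122c6c2354128c8a], [0, 0, 0xe211628822c54824e215848284ac,
    0x92946c21585258a84c1, 0x92946c215814658a84a1]]

noncomputable def n2185 : Ent := ⟨e2185, noF, [], [], []⟩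

def c2185 : PLift (Cov.check n2185.C.D v2185 = true) := ⟨by decide +kernel⟩

def b2185 : PLift (entF (fidx ts) 400 2185 n2185 = true) := ⟨by decide +kernel⟩

theorem g2185 : GoodF (fidx ts) 400 2185 := GoodF.ofV v2185 n2185 c2185.down b2185.down

/-- 4748444:1855 -/
noncomputable def e2186 : SCfg where
  D := {
    a := 7
    L := 9
    kp := 7
    inn := [(0, 1), (1, 0), (1, 2), (1, 3), (1, 5), (2, 1), (2, 3), (3, 1), (3, 2), (3, 4), (3, 5), (3,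
      6), (4, 3), (5, 1), (5, 3), (6, 3)]
    mix := [(0, 0), (0, 1), (0, 2), (1, 0), (1, 2), (1, 3), (2, 2), (2, 4), (3, 4), (3, 5), (3, 6), (4,
      5), (4, 6), (4, 7), (5, 3), (5, 6), (6, 4), (6, 5), (6, 8)]
    cl := [2, 5, 1, 4, 0, 3, 0, 6, 7]
    chq := [(0, 3), (1, 4), (3, 0), (4, 1), (4, 5), (5, 4)]
    rng := [(0, 1), (0, 3), (1, 0), (1, 2), (2, 1), (2, 4), (3, 0), (3, 6), (4, 2), (4, 8), (5, 7), (5,
      8), (6, 3), (6, 7), (7, 5), (7, 6), (8, 4), (8, 5)]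
    lev := [] }
  links := [[1, 7, 8, 9], [7, 0, 9, 2, 3, 5, 10], [3, 1, 9, 11], [5, 1, 2, 11, 6, 12, 4, 13], [13, 3, 12,
    14], [10, 1, 3, 13], [12, 3, 11, 15]]
  P := {
    a := 7
    N := 16
    nb := [898, 1709, 2570, 14454, 28680, 9226, 38920, 1283, 641, 2311, 8354, 33356, 49240, 17464,
      12304, 6208]
    tri := [(0, 1, 7), (0, 1, 9), (0, 7, 8), (0, 8, 9), (1, 2, 3), (1, 2, 9), (1, 3, 5), (1, 5, 10),
      (1, 7, 10), (2, 3, 11), (2, 9, 11), (3, 4, 12), (3, 4, 13), (3, 5, 13), (3, 6, 11), (3, 6,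
      12), (4, 12, 14), (4, 13, 14), (5, 10, 13), (6, 11, 15), (6, 12, 15)]
    fin := [0, 1, 2, 3, 3, 3, 3, 7, 0, 2, 1, 3, 12, 3, 14, 15]
    chd := [(0, 1), (2, 1), (3, 12)]
    steps := [(0, 8), (1, 10), (2, 9), (3, 4), (3, 5), (3, 6), (3, 11), (3, 13)] }
  rep := [3, 2, 7, 12, 1, 0, 14, 15]

noncomputable def v2186 : Cov.CovD where
  P := 3
  N := 5
  pl := [0, 7, 8]
  lev := [⟨[], [], [(1, 5)], [2], [(1, 5, [4]), (2, 1, [4])]⟩,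
    ⟨[], [(0, 1), (0, 4), (0, 5)], [(1, 4)], [2], [(2, 1, [4]), (3, 4, [1, 5])]⟩,
    ⟨[(0, 1)], [(0, 1), (1, 0), (1, 1), (1, 4)], [(0, 1)], [], [(2, 1, [4]), (4, 0, [3])]⟩,
    ⟨[(0, 1), (1, 2)], [(1, 0), (1, 1), (1, 3), (1, 4), (2, 0), (2, 1), (2, 3)], [(0, 0),
      (0, 3)], [], [(4, 0, [3]), (5, 3, [0]), (6, 0, [3])]⟩,
    ⟨[(1, 3), (2, 3)], [(3, 0), (3, 3)], [(0, 3)], [6], [(5, 3, [0]), (6, 0, [3])]⟩,
    ⟨[(0, 1), (1, 2), (1, 3), (2, 3), (3, 4)], [(1, 0), (1, 1), (1, 4), (3, 0), (3, 3), (3,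
      4), (4, 0)], [(0, 4)], [], [(3, 4, [1, 5]), (6, 0, [3])]⟩,
    ⟨[(1, 3), (2, 3), (3, 4), (3, 5)], [(2, 0), (3, 0), (3, 3), (4, 3)], [(0, 3)], [7],
      [(4, 0, [3]), (5, 3, [0])]⟩]
  Ta := [((4, 2), 0, 1), ((4, 8), 0, 7), ((6, 3), 0, 4), ((6, 7), 0, 6)]
  Tb := [((0, 1, 3), 2, 5, 4), ((1, 0, 2), 5, 2, 1), ((2, 1, 4), 1, 5, 0), ((3, 0, 6), 4, 2, 0),
    ((4, 2, 8), 0, 1, 7), ((5, 7, 8), 3, 6, 7), ((6, 3, 7), 0, 4, 6), ((7, 5, 6), 6, 3, 0),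
    ((8, 4, 5), 7, 0, 3)]
  Tc := [(4, 1, 5)]
  Td := [((0, 3), (4, 2), 1), ((0, 3), (4, 8), 7), ((0, 3), (6, 3), 4), ((0, 3), (6, 7), 6), ((1,
    4), (2, 1), 5), ((1, 4), (2, 4), 0), ((3, 0), (5, 7), 6), ((3, 0), (5, 8), 7), ((4, 1),
    (3, 0), 2), ((4, 1), (3, 6), 0), ((4, 5), (3, 0), 2), ((4, 5), (3, 6), 0), ((5, 4), (1,
    0), 2), ((5, 4), (1, 2), 1)]
  G := [[0x6412c418a4a812c81468c, 0x6412c418a4a812c81468c, 0x2224e2161416ac4c214c1c828b2c8c,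
    0x621462c2a2d8c162a2c2b221481e41c, 0xa2624274a218c168c25c8683a419], [0, 0,
    0x14146272c2c8c41232c4a858a2c8c, 0x3262645212a8c15212c492d8a2c89,
    0xb2126412a2a8c11292c4a858a2c89]]

noncomputable def n2186 : Ent := ⟨e2186, noF, [], [], [(8, 15, [360035742630636841211993100915356868655746945586763691016617985, 0]), (8, 14, [385746751338780685620664494392815470296102193487288376381444097, 0])]⟩

def c2186 : PLift (Cov.check n2186.C.D v2186 = true) := ⟨by decide +kernel⟩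

def b2186 : PLift (entF (fidx ts) 400 2186 n2186 = true) := ⟨by decide +kernel⟩

theorem g2186 : GoodF (fidx ts) 400 2186 := GoodF.ofV v2186 n2186 c2186.down b2186.down

/-- 4748456:1859/1 -/
noncomputable def e2187 : SCfg where
  D := {
    a := 7
    L := 10
    kp := 7
    inn := [(0, 1), (1, 0), (1, 2), (1, 3), (1, 5), (1, 6), (2, 1), (2, 3), (3, 1), (3, 2), (3, 4), (3,
      5), (4, 3), (5, 1), (5, 3), (5, 6), (6, 1), (6, 5)]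
    mix := [(0, 0), (0, 1), (0, 2), (1, 0), (1, 2), (2, 2), (2, 3), (3, 3), (3, 4), (3, 5), (3, 6), (4,
      1), (4, 5), (4, 6), (5, 6), (5, 7), (6, 0), (6, 7), (6, 8), (6, 9)]
    cl := [3, 2, 1, 0, 5, 4, 0, 3, 6, 7]
    chq := [(0, 4), (1, 3), (3, 1), (4, 0)]
    rng := [(0, 1), (0, 9), (1, 0), (1, 2), (1, 5), (1, 6), (2, 1), (2, 3), (3, 2), (3, 4), (4, 3), (4,
      5), (5, 1), (5, 4), (6, 1), (6, 7), (7, 6), (7, 8), (8, 7), (8, 9), (9, 0), (9, 8)]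
    lev := [] }
  links := [[1, 7, 8, 9], [7, 0, 9, 2, 3, 5, 6], [3, 1, 9, 10], [5, 1, 2, 10, 11, 12, 4, 13], [13, 3, 12,
    8], [6, 1, 3, 13, 14], [7, 1, 5, 14, 15, 16]]
  P := {
    a := 7
    N := 17
    nb := [898, 749, 1546, 15414, 12552, 24650, 114850, 65859, 12945, 1287, 2572, 5128, 2328, 16696,
      41056, 81984, 32960]
    tri := [(0, 1, 7), (0, 1, 9), (0, 7, 8), (0, 8, 9), (1, 2, 3), (1, 2, 9), (1, 3, 5), (1, 5, 6), (1,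
      6, 7), (2, 3, 10), (2, 9, 10), (3, 4, 12), (3, 4, 13), (3, 5, 13), (3, 10, 11), (3, 11, 12),
      (4, 8, 12), (4, 8, 13), (5, 6, 14), (5, 13, 14), (6, 7, 16), (6, 14, 15), (6, 15, 16)]
    fin := [0, 0, 0, 3, 4, 0, 0, 0, 4, 9, 3, 11, 12, 3, 0, 15, 16]
    chd := [(0, 9), (3, 12)]
    steps := [(0, 1), (0, 2), (0, 5), (0, 6), (0, 7), (0, 14), (3, 10), (3, 13), (4, 8)] }
  rep := [3, 9, 4, 0, 12, 11, 15, 16]

noncomputable def v2187 : Cov.CovD where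
  P := 3
  N := 5
  pl := [1, 4, 8, 9]
  lev := [⟨[], [], [(1, 3)], [2], [(0, 3, [1]), (2, 1, [3])]⟩,
    ⟨[], [(0, 1), (0, 3)], [(1, 3)], [], [(0, 3, [1]), (2, 1, [3])]⟩,
    ⟨[(0, 1)], [(0, 1), (1, 0), (1, 1), (1, 3)], [(0, 1)], [], [(2, 1, [3]), (3, 0, [4])]⟩,
    ⟨[(0, 1), (1, 2)], [(1, 0), (1, 1), (1, 3), (1, 4), (2, 0), (2, 1), (2, 4)], [(0, 0),
      (0, 4)], [5], [(3, 0, [4]), (5, 4, [0]), (6, 0, [4])]⟩,
    ⟨[(1, 3), (2, 3)], [(3, 0), (3, 4)], [(0, 4)], [2], [(5, 4, [0]), (6, 0, [4])]⟩,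
    ⟨[(0, 1), (1, 2), (1, 3), (2, 3), (3, 4)], [(1, 0), (1, 1), (1, 3), (3, 0), (3, 3), (3,
      4), (4, 0)], [(0, 3)], [], [(6, 0, [4]), (7, 3, [1])]⟩,
    ⟨[(0, 1), (1, 2), (1, 3), (1, 5), (3, 5)], [(0, 3), (1, 1), (1, 3), (5, 0), (5, 3)],
      [(3, 3)], [6, 7], [(0, 3, [1]), (7, 3, [1])]⟩]
  Ta := [((0, 1), 3, 2), ((0, 9), 3, 7), ((3, 2), 0, 1), ((3, 4), 0, 5), ((6, 1), 0, 2), ((6, 7),
    0, 3), ((7, 6), 3, 0), ((7, 8), 3, 6)]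
  Tb := [((0, 1, 9), 3, 2, 7), ((1, 0, 2), 2, 3, 1), ((1, 0, 5), 2, 3, 4), ((1, 0, 6), 2, 3, 0),
    ((1, 2, 5), 2, 1, 4), ((1, 2, 6), 2, 1, 0), ((1, 5, 6), 2, 4, 0), ((2, 1, 3), 1, 2, 0),
    ((3, 2, 4), 0, 1, 5), ((4, 3, 5), 5, 0, 4), ((5, 1, 4), 4, 2, 5), ((6, 1, 7), 0, 2, 3),
    ((7, 6, 8), 3, 0, 6), ((8, 7, 9), 6, 3, 7), ((9, 0, 8), 7, 3, 6)]
  Tc := []
  Td := [((0, 4), (3, 2), 1), ((0, 4), (3, 4), 5), ((0, 4), (6, 1), 2), ((0, 4), (6, 7), 3), ((1,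
    3), (2, 1), 2), ((1, 3), (2, 3), 0), ((3, 1), (0, 1), 2), ((3, 1), (0, 9), 7), ((3, 1),
    (7, 6), 0), ((3, 1), (7, 8), 6), ((4, 0), (5, 1), 2), ((4, 0), (5, 4), 5)]
  G := [[0, 0x721616164b41881841e8a441821c2b21b81a244143c1441e8ec, 0,
    0xb2418161288c17844128581ac1e48a81a41d, 0xb81b8261488c13814126128382ace28421c459], [0,
    0xf2122de1a812344c144a68, 0, 0xf2422de16f288c18, 0xf28f21f42e418], [0, 0,
    0xb244b48b82ac17244748782ac1c, 0x92449281218cac11844811481414ca16844628e4e8cac5d,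
    0x1481218ac41142241481812a142e1e28e2e2ae82e4d9], [0, 0, 0xf244f28b7c2ac14,
    0xf2822de22deca1f244858, 0x88b2a41f287242af42e458]]

noncomputable def n2187 : Ent := ⟨e2187, noF, [], [], []⟩

def c2187 : PLift (Cov.check n2187.C.D v2187 = true) := ⟨by decide +kernel⟩

def b2187 : PLift (entF (fidx ts) 400 2187 n2187 = true) := ⟨by decide +kernel⟩

theorem g2187 : GoodF (fidx ts) 400 2187 := GoodF.ofV v2187 n2187 c2187.down b2187.down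

/-- 4748456:1859/2 -/
noncomputable def e2188 : SCfg where
  D := {
    a := 7
    L := 10
    kp := 7
    inn := [(0, 1), (1, 0), (1, 2), (1, 3), (1, 5), (1, 6), (2, 1), (2, 3), (3, 1), (3, 2), (3, 4), (3,
      5), (4, 3), (5, 1), (5, 3), (5, 6), (6, 1), (6, 5)]
    mix := [(0, 0), (0, 1), (0, 2), (1, 0), (1, 2), (2, 2), (2, 3), (3, 3), (3, 4), (3, 5), (3, 6), (4,
      5), (4, 6), (4, 7), (5, 6), (5, 8), (6, 0), (6, 7), (6, 8), (6, 9)]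
    cl := [0, 6, 2, 1, 5, 4, 1, 3, 0, 7]
    chq := [(0, 2), (2, 0), (3, 5), (5, 3)]
    rng := [(0, 1), (0, 9), (1, 0), (1, 2), (2, 1), (2, 3), (3, 2), (3, 4), (4, 3), (4, 5), (5, 4), (5,
      7), (6, 7), (6, 8), (7, 5), (7, 6), (7, 8), (7, 9), (8, 6), (8, 7), (9, 0), (9, 7)]
    lev := [] }
  links := [[1, 7, 8, 9], [7, 0, 9, 2, 3, 5, 6], [3, 1, 9, 10], [5, 1, 2, 10, 11, 12, 4, 13], [13, 3, 12,
    14], [6, 1, 3, 13, 15], [7, 1, 5, 15, 14, 16]]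
  P := {
    a := 7
    N := 17
    nb := [898, 749, 1546, 15414, 28680, 41034, 114850, 65859, 641, 1287, 2572, 5128, 18456, 49208,
      110672, 24672, 16576]
    tri := [(0, 1, 7), (0, 1, 9), (0, 7, 8), (0, 8, 9), (1, 2, 3), (1, 2, 9), (1, 3, 5), (1, 5, 6), (1,
      6, 7), (2, 3, 10), (2, 9, 10), (3, 4, 12), (3, 4, 13), (3, 5, 13), (3, 10, 11), (3, 11, 12),
      (4, 12, 14), (4, 13, 14), (5, 6, 15), (5, 13, 15), (6, 7, 16), (6, 14, 15), (6, 14, 16)]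
    fin := [0, 1, 1, 3, 3, 1, 0, 0, 8, 9, 1, 3, 12, 1, 14, 0, 16]
    chd := [(0, 9), (3, 14)]
    steps := [(0, 7), (0, 6), (0, 15), (1, 2), (1, 5), (1, 10), (1, 13), (3, 4), (3, 11)] }
  rep := [0, 1, 9, 14, 12, 3, 8, 16]

noncomputable def v2188 : Cov.CovD where
  P := 3
  N := 5
  pl := [1, 5, 9]
  lev := [⟨[], [], [(0, 2)], [6], [(0, 0, [2]), (2, 2, [0])]⟩,
    ⟨[], [(0, 0), (0, 2)], [(0, 2)], [], [(0, 0, [2]), (2, 2, [0])]⟩,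
    ⟨[(0, 1)], [(0, 2), (1, 0), (1, 1), (1, 2)], [(1, 2)], [], [(2, 2, [0]), (3, 1, [])]⟩,
    ⟨[(0, 1), (1, 2)], [(1, 0), (1, 1), (1, 2), (1, 5), (2, 1), (2, 2), (2, 5)], [(1, 1),
      (1, 5)], [4], [(3, 1, []), (4, 5, [3]), (6, 1, [])]⟩,
    ⟨[(1, 3), (2, 3)], [(3, 1), (3, 3), (3, 5)], [(1, 3)], [4], [(6, 1, []), (7, 3, [5])]⟩,
    ⟨[(0, 1), (1, 2), (1, 3), (2, 3), (3, 4)], [(1, 0), (1, 1), (1, 2), (3, 0), (3, 1), (3,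
      5), (4, 1)], [(0, 1)], [], [(6, 1, []), (8, 0, [2])]⟩,
    ⟨[(0, 1), (1, 2), (1, 3), (1, 5), (3, 5)], [(0, 0), (1, 0), (1, 2), (1, 3), (4, 3), (5,
      0), (5, 1), (5, 3)], [(0, 0), (0, 3)], [7], [(0, 0, [2]), (7, 3, [5]), (8, 0, [2])]⟩]
  Ta := [((0, 1), 0, 6), ((0, 9), 0, 7), ((3, 2), 1, 2), ((3, 4), 1, 5), ((6, 7), 1, 3), ((6, 8),
    1, 0), ((8, 6), 0, 1), ((8, 7), 0, 3)]
  Tb := [((0, 1, 9), 0, 6, 7), ((1, 0, 2), 6, 0, 2), ((2, 1, 3), 2, 6, 1), ((3, 2, 4), 1, 2, 5),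
    ((4, 3, 5), 5, 1, 4), ((5, 4, 7), 4, 5, 3), ((6, 7, 8), 1, 3, 0), ((7, 5, 6), 3, 4, 1),
    ((7, 5, 8), 3, 4, 0), ((7, 5, 9), 3, 4, 7), ((7, 6, 8), 3, 1, 0), ((7, 6, 9), 3, 1, 7),
    ((7, 8, 9), 3, 0, 7), ((8, 6, 7), 0, 1, 3), ((9, 0, 7), 7, 0, 3)]
  Tc := []
  Td := [((0, 2), (0, 1), 6), ((0, 2), (0, 9), 7), ((0, 2), (8, 6), 1), ((0, 2), (8, 7), 3), ((2,
    0), (2, 1), 6), ((2, 0), (2, 3), 1), ((3, 5), (7, 5), 4), ((3, 5), (7, 6), 1), ((3, 5),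
    (7, 8), 0), ((3, 5), (7, 9), 7), ((5, 3), (4, 3), 1), ((5, 3), (4, 5), 4)]
  G := [[0, 0, 0xe1613a8e1ae82d4261e13e12e41d42c,
    0x21613246451e1281883a48d1c44445e1e19444d1a1228a198cc,
    0xe4613a4e89e82d1221243641524282899c1288c13c1aa], [0, 0,
    0xe1a455a8a19e81d241441661615e1e1968c1d484881ca, 0,
    0xe1e45e1e19e41d822461568c19e1289438441cc11c1aa], [0, 0,
    0x61a1341a16e81d82616432122ca1d48848c12c12e, 0x28a42a4e68c251684ac681c1,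
    0xe42a8e83a468cd121], [0, 0x424412c6a466a8a8ae8e8ce8c1,
    0xe1e15e819a148a1d45248441e1e15a1a894ac1d2c6, 0, 0xe4e45a848a4de4e8cd821]]

noncomputable def n2188 : Ent := ⟨e2188, noF, [], [], []⟩

def c2188 : PLift (Cov.check n2188.C.D v2188 = true) := ⟨by decide +kernel⟩

def b2188 : PLift (entF (fidx ts) 400 2188 n2188 = true) := ⟨by decide +kernel⟩

theorem g2188 : GoodF (fidx ts) 400 2188 := GoodF.ofV v2188 n2188 c2188.down b2188.down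

/-- 4748456:1859 -/
noncomputable def e2189 : SCfg where
  D := {
    a := 7
    L := 11
    kp := 8
    inn := [(0, 1), (1, 0), (1, 2), (1, 3), (1, 5), (1, 6), (2, 1), (2, 3), (3, 1), (3, 2), (3, 4), (3,
      5), (4, 3), (5, 1), (5, 3), (5, 6), (6, 1), (6, 5)]
    mix := [(0, 0), (0, 1), (0, 2), (1, 0), (1, 2), (2, 2), (2, 3), (3, 3), (3, 4), (3, 5), (3, 6), (4,
      5), (4, 6), (4, 7), (5, 6), (5, 8), (6, 0), (6, 8), (6, 9), (6, 10)]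
    cl := [0, 6, 2, 1, 4, 3, 1, 5, 0, 7, 8]
    chq := [(0, 2), (2, 0), (4, 5), (5, 4)]
    rng := [(0, 1), (0, 10), (1, 0), (1, 2), (2, 1), (2, 3), (3, 2), (3, 4), (4, 3), (4, 5), (5, 4),
      (5, 7), (6, 7), (6, 8), (7, 5), (7, 6), (8, 6), (8, 9), (9, 8), (9, 10), (10, 0), (10, 9)]
    lev := [] }
  links := [[1, 7, 8, 9], [7, 0, 9, 2, 3, 5, 6], [3, 1, 9, 10], [5, 1, 2, 10, 11, 12, 4, 13], [13, 3, 12,
    14], [6, 1, 3, 13, 15], [7, 1, 5, 15, 16, 17]]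
  P := {
    a := 7
    N := 18
    nb := [898, 749, 1546, 15414, 28680, 41034, 229538, 131395, 641, 1287, 2572, 5128, 18456, 49208,
      12304, 73824, 163904, 65728]
    tri := [(0, 1, 7), (0, 1, 9), (0, 7, 8), (0, 8, 9), (1, 2, 3), (1, 2, 9), (1, 3, 5), (1, 5, 6), (1,
      6, 7), (2, 3, 10), (2, 9, 10), (3, 4, 12), (3, 4, 13), (3, 5, 13), (3, 10, 11), (3, 11, 12),
      (4, 12, 14), (4, 13, 14), (5, 6, 15), (5, 13, 15), (6, 7, 17), (6, 15, 16), (6, 16, 17)]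
    fin := [0, 1, 1, 3, 3, 1, 0, 0, 8, 9, 1, 3, 12, 1, 14, 0, 16, 17]
    chd := [(0, 9), (3, 14)]
    steps := [(0, 7), (0, 6), (0, 15), (1, 2), (1, 5), (1, 10), (1, 13), (3, 4), (3, 11)] }
  rep := [0, 1, 9, 12, 3, 14, 8, 16, 17]

noncomputable def v2189 : Cov.CovD where
  P := 3
  N := 6
  pl := [1, 5, 9, 10]
  lev := [⟨[], [], [(0, 2)], [6], [(0, 0, [2]), (2, 2, [0])]⟩,
    ⟨[], [(0, 0), (0, 2)], [(0, 2)], [], [(0, 0, [2]), (2, 2, [0])]⟩,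
    ⟨[(0, 1)], [(0, 2), (1, 0), (1, 1), (1, 2)], [(1, 2)], [], [(2, 2, [0]), (3, 1, [])]⟩,
    ⟨[(0, 1), (1, 2)], [(1, 0), (1, 1), (1, 2), (1, 4), (2, 1), (2, 2), (2, 4)], [(1, 1),
      (1, 4)], [3], [(3, 1, []), (4, 4, [5]), (6, 1, [])]⟩,
    ⟨[(1, 3), (2, 3)], [(3, 1), (3, 4), (3, 5)], [(1, 5)], [3], [(6, 1, []), (7, 5, [4])]⟩,
    ⟨[(0, 1), (1, 2), (1, 3), (2, 3), (3, 4)], [(1, 0), (1, 1), (1, 2), (3, 0), (3, 1), (3,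
      4), (4, 1)], [(0, 1)], [], [(6, 1, []), (8, 0, [2])]⟩,
    ⟨[(0, 1), (1, 2), (1, 3), (1, 5), (3, 5)], [(0, 0), (1, 0), (1, 2), (5, 0), (5, 1)],
      [(0, 0)], [7, 8], [(0, 0, [2]), (8, 0, [2])]⟩]
  Ta := [((0, 1), 0, 6), ((0, 10), 0, 8), ((3, 2), 1, 2), ((3, 4), 1, 4), ((6, 7), 1, 5), ((6,
    8), 1, 0), ((8, 6), 0, 1), ((8, 9), 0, 7)]
  Tb := [((0, 1, 10), 0, 6, 8), ((1, 0, 2), 6, 0, 2), ((2, 1, 3), 2, 6, 1), ((3, 2, 4), 1, 2, 4),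
    ((4, 3, 5), 4, 1, 3), ((5, 4, 7), 3, 4, 5), ((6, 7, 8), 1, 5, 0), ((7, 5, 6), 5, 3, 1),
    ((8, 6, 9), 0, 1, 7), ((9, 8, 10), 7, 0, 8), ((10, 0, 9), 8, 0, 7)]
  Tc := []
  Td := [((0, 2), (0, 1), 6), ((0, 2), (0, 10), 8), ((0, 2), (8, 6), 1), ((0, 2), (8, 9), 7),
    ((2, 0), (2, 1), 6), ((2, 0), (2, 3), 1), ((4, 5), (4, 3), 1), ((4, 5), (4, 5), 3), ((5,
    4), (7, 5), 3), ((5, 4), (7, 6), 1)]
  G := [[0, 0, 0xe4e45e12e4e4ad422824a12424368cc23c5c42c4c8c94a6,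
    0x41244e12c63a822cae8ad8c64613e12e44acad48182388cc,
    0xe1e15e12e4e8ad8261646e12c9a2cc2d18181581aa], [0, 0,
    0x68c461e19e4e4cd42e8e8c1e41c8489c924ace15a1a19c14e, 0,
    0xe4e4c1e4e15e1e19c9264645e1e19e4e4cd18484581aa], [0, 0,
    0x84e13e82e4e4ad826142946148c8e1823a12828468ed84e, 0x68ca43414ac483e8a46c91c1,
    0xe4e45e8e8ae42d821], [0, 0xe248a414ace26a22e84acce1c1,
    0xe4e15e8e89e8e8cd82a456899414ac6895e84acc92ca, 0, 0xe4e45e8e89e4e4cd821]]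

noncomputable def n2189 : Ent := ⟨e2189, noF, [], [], [(8, 14, [7334790875878422277917280412776772662961875900559637987928627378434049, 0]), (14, 16, [7334685537875745012586738086077695515070955365108989538292687702638593, 0])]⟩

def c2189 : PLift (Cov.check n2189.C.D v2189 = true) := ⟨by decide +kernel⟩

def b2189 : PLift (entF (fidx ts) 400 2189 n2189 = true) := ⟨by decide +kernel⟩

theorem g2189 : GoodF (fidx ts) 400 2189 := GoodF.ofV v2189 n2189 c2189.down b2189.down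

/-- 4748457:1860/1 -/
noncomputable def e2190 : SCfg where
  D := {
    a := 7
    L := 10
    kp := 8
    inn := [(0, 1), (1, 0), (1, 2), (1, 3), (1, 5), (2, 1), (2, 3), (3, 1), (3, 2), (3, 4), (3, 5), (3,
      6), (4, 3), (4, 6), (5, 1), (5, 3), (5, 6), (6, 3), (6, 4), (6, 5)]
    mix := [(0, 0), (0, 1), (0, 2), (1, 0), (1, 2), (1, 3), (2, 2), (2, 4), (3, 4), (3, 5), (3, 6), (4,
      1), (4, 6), (5, 3), (5, 7), (6, 1), (6, 7), (6, 8), (6, 9)]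
    cl := [2, 0, 1, 3, 4, 6, 5, 0, 7, 8]
    chq := [(1, 2), (2, 1), (2, 4), (3, 4), (3, 5), (3, 6), (4, 2), (4, 3), (5, 3), (6, 3)]
    rng := [(0, 1), (0, 3), (1, 0), (1, 2), (1, 6), (1, 8), (2, 1), (2, 4), (3, 0), (3, 7), (4, 2), (4,
      5), (5, 4), (5, 6), (6, 1), (6, 5), (7, 3), (7, 9), (8, 1), (8, 9), (9, 7), (9, 8)]
    lev := [] }
  links := [[1, 7, 8, 9], [7, 0, 9, 2, 3, 5, 10], [3, 1, 9, 11], [5, 1, 2, 11, 12, 13, 4, 6], [6, 3, 13,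
    8], [10, 1, 3, 6, 14], [14, 5, 3, 4, 8, 15, 16]]
  P := {
    a := 7
    N := 17
    nb := [898, 1709, 2570, 14454, 8520, 17482, 115000, 1283, 41681, 2311, 16546, 4620, 10248, 4376,
      66656, 65856, 49216]
    tri := [(0, 1, 7), (0, 1, 9), (0, 7, 8), (0, 8, 9), (1, 2, 3), (1, 2, 9), (1, 3, 5), (1, 5, 10),
      (1, 7, 10), (2, 3, 11), (2, 9, 11), (3, 4, 6), (3, 4, 13), (3, 5, 6), (3, 11, 12), (3, 12,
      13), (4, 6, 8), (4, 8, 13), (5, 6, 14), (5, 10, 14), (6, 8, 15), (6, 14, 16), (6, 15, 16)]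
    fin := [0, 0, 0, 3, 4, 3, 4, 0, 4, 9, 3, 11, 12, 13, 4, 15, 16]
    chd := [(0, 9), (0, 11), (3, 11), (3, 12), (3, 13)]
    steps := [(0, 1), (0, 2), (0, 7), (3, 5), (3, 10), (4, 6), (4, 8), (4, 14)] }
  rep := [4, 9, 0, 3, 11, 13, 12, 15, 16]

noncomputable def v2190 : Cov.CovD where
  P := 3
  N := 6
  pl := [8, 9]
  lev := [⟨[], [], [(0, 1), (0, 2), (1, 2)], [], [(0, 2, [1, 4]), (1, 0, []), (2, 1, [2])]⟩,
    ⟨[], [(0, 0), (0, 1), (0, 2), (0, 3)], [(1, 2), (1, 3), (2, 3)], [], [(0, 2, [1, 4]),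
      (2, 1, [2]), (3, 3, [4, 5, 6])]⟩,
    ⟨[(0, 1)], [(0, 1), (1, 1), (1, 2), (1, 3), (1, 4)], [(1, 4)], [], [(2, 1, [2]), (4, 4,
      [2, 3])]⟩,
    ⟨[(0, 1), (1, 2)], [(1, 1), (1, 2), (1, 3), (1, 4), (1, 5), (1, 6), (2, 1), (2, 4), (2,
      5), (2, 6)], [(4, 5), (4, 6), (5, 6)], [], [(4, 4, [2, 3]), (5, 6, [3]), (6, 5, [3])]⟩,
    ⟨[(1, 3), (2, 3)], [(0, 0), (3, 0), (3, 4), (3, 5), (3, 6)], [(0, 5)], [], [(1, 0, []),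
      (6, 5, [3])]⟩,
    ⟨[(0, 1), (1, 2), (1, 3), (2, 3), (3, 4)], [(1, 0), (1, 1), (1, 2), (1, 3), (3, 0), (3,
      3), (3, 4), (3, 5), (3, 6)], [(0, 3)], [], [(3, 3, [4, 5, 6]), (7, 0, [])]⟩,
    ⟨[(1, 3), (1, 5), (2, 3), (3, 4), (3, 5), (4, 5)], [(0, 0), (3, 0), (3, 4), (3, 5), (3,
      6), (4, 0), (4, 5), (5, 0), (5, 3)], [(0, 0)], [7, 8], [(1, 0, []), (7, 0, [])]⟩]
  Ta := [((1, 0), 0, 2), ((1, 2), 0, 1), ((1, 6), 0, 5), ((1, 8), 0, 7), ((7, 3), 0, 3), ((7, 9),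
    0, 8)]
  Tb := [((0, 1, 3), 2, 0, 3), ((1, 0, 2), 0, 2, 1), ((1, 0, 6), 0, 2, 5), ((1, 0, 8), 0, 2, 7),
    ((1, 2, 6), 0, 1, 5), ((1, 2, 8), 0, 1, 7), ((1, 6, 8), 0, 5, 7), ((2, 1, 4), 1, 0, 4),
    ((3, 0, 7), 3, 2, 0), ((4, 2, 5), 4, 1, 6), ((5, 4, 6), 6, 4, 5), ((6, 1, 5), 5, 0, 6),
    ((7, 3, 9), 0, 3, 8), ((8, 1, 9), 7, 0, 8), ((9, 7, 8), 8, 0, 7)]
  Tc := [(2, 1, 4), (3, 4, 5), (3, 4, 6), (3, 5, 6), (4, 2, 3)]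
  Td := [((1, 2), (2, 1), 0), ((1, 2), (2, 4), 4), ((2, 1), (0, 1), 0), ((2, 1), (0, 3), 3), ((2,
    4), (0, 1), 0), ((2, 4), (0, 3), 3), ((3, 4), (3, 0), 2), ((3, 4), (3, 7), 0), ((3, 5),
    (3, 0), 2), ((3, 5), (3, 7), 0), ((3, 6), (3, 0), 2), ((3, 6), (3, 7), 0), ((4, 2), (4,
    2), 1), ((4, 2), (4, 5), 6), ((4, 3), (4, 2), 1), ((4, 3), (4, 5), 6), ((5, 3), (6, 1),
    0), ((5, 3), (6, 5), 6), ((6, 3), (5, 4), 4), ((6, 3), (5, 6), 5)]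
  G := [[0, 0x8442e286568a4e14224489a2e128ac2e4665e8c, 0x62a484e2424c1e2c668ccb14e1e1a418c,
    0x84224822e2a466e22caac2c26de18, 0x4868aa42eae4628a8e4e8cc68a28c6f4884d18], [0, 0, 0,
    0x482e268a631c212e21e21ca94, 0x4814e4128a1e41e4214d1e468ac1189]]

noncomputable def n2190 : Ent := ⟨e2190, noF, [], [], []⟩

def c2190 : PLift (Cov.check n2190.C.D v2190 = true) := ⟨by decide +kernel⟩

def b2190 : PLift (entF (fidx ts) 400 2190 n2190 = true) := ⟨by decide +kernel⟩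

theorem g2190 : GoodF (fidx ts) 400 2190 := GoodF.ofV v2190 n2190 c2190.down b2190.down

/-- 4748457:1860/2 -/
noncomputable def e2191 : SCfg where
  D := {
    a := 7
    L := 10
    kp := 8
    inn := [(0, 1), (1, 0), (1, 2), (1, 3), (1, 5), (2, 1), (2, 3), (3, 1), (3, 2), (3, 4), (3, 5), (3,
      6), (4, 3), (4, 6), (5, 1), (5, 3), (5, 6), (6, 3), (6, 4), (6, 5)]
    mix := [(0, 0), (0, 1), (0, 2), (1, 0), (1, 2), (1, 3), (2, 2), (2, 4), (3, 4), (3, 5), (3, 6), (4,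
      6), (4, 7), (5, 3), (5, 8), (6, 1), (6, 7), (6, 8), (6, 9)]
    cl := [6, 2, 3, 1, 4, 7, 5, 0, 0, 8]
    chq := [(1, 2), (1, 3), (1, 4), (1, 5), (1, 7), (2, 1), (3, 1), (4, 1), (5, 1), (7, 1)]
    rng := [(0, 1), (0, 3), (1, 0), (1, 2), (1, 7), (1, 9), (2, 1), (2, 4), (3, 0), (3, 8), (4, 2), (4,
      5), (5, 4), (5, 6), (6, 5), (6, 7), (7, 1), (7, 6), (8, 3), (8, 9), (9, 1), (9, 8)]
    lev := [] }
  links := [[1, 7, 8, 9], [7, 0, 9, 2, 3, 5, 10], [3, 1, 9, 11], [5, 1, 2, 11, 12, 13, 4, 6], [6, 3, 13,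
    14], [10, 1, 3, 6, 15], [15, 5, 3, 4, 14, 8, 16]]
  P := {
    a := 7
    N := 17
    nb := [898, 1709, 2570, 14454, 24648, 33866, 115000, 1283, 82625, 2311, 32930, 4620, 10248, 20504,
      8528, 66656, 33088]
    tri := [(0, 1, 7), (0, 1, 9), (0, 7, 8), (0, 8, 9), (1, 2, 3), (1, 2, 9), (1, 3, 5), (1, 5, 10),
      (1, 7, 10), (2, 3, 11), (2, 9, 11), (3, 4, 6), (3, 4, 13), (3, 5, 6), (3, 11, 12), (3, 12,
      13), (4, 6, 14), (4, 13, 14), (5, 6, 15), (5, 10, 15), (6, 8, 14), (6, 8, 16), (6, 15, 16)]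
    fin := [0, 1, 2, 1, 4, 5, 5, 7, 0, 2, 1, 11, 12, 4, 5, 5, 16]
    chd := [(0, 1), (1, 4), (1, 11), (1, 12), (2, 1)]
    steps := [(0, 8), (1, 3), (1, 10), (2, 9), (4, 13), (5, 6), (5, 14), (5, 15)] }
  rep := [5, 1, 0, 2, 11, 4, 7, 12, 16]

noncomputable def v2191 : Cov.CovD where
  P := 3
  N := 6
  pl := [0, 9]
  lev := [⟨[], [], [(2, 3)], [6], [(1, 2, [1]), (2, 3, [1])]⟩,
    ⟨[], [(0, 1), (0, 2), (0, 3)], [(1, 3)], [6], [(2, 3, [1]), (3, 1, [2, 3, 4, 5, 7])]⟩,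
    ⟨[(0, 1)], [(0, 3), (1, 1), (1, 3), (1, 4)], [(3, 4)], [], [(2, 3, [1]), (4, 4, [1])]⟩,
    ⟨[(0, 1), (1, 2)], [(1, 1), (1, 3), (1, 4), (1, 5), (1, 7), (2, 3), (2, 4), (2, 5), (2,
      7)], [(4, 5), (4, 7), (5, 7)], [], [(4, 4, [1]), (5, 7, [1]), (6, 5, [1])]⟩,
    ⟨[(1, 3), (2, 3)], [(3, 0), (3, 4), (3, 5), (3, 7)], [(0, 5)], [], [(6, 5, [1]), (7, 0,
      [])]⟩,
    ⟨[(0, 1), (1, 2), (1, 3), (2, 3), (3, 4)], [(1, 0), (1, 1), (1, 3), (3, 0), (3, 1), (3,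
      4), (3, 5), (3, 7)], [(0, 1)], [], [(3, 1, [2, 3, 4, 5, 7]), (8, 0, [])]⟩,
    ⟨[(1, 3), (1, 5), (2, 3), (3, 4), (3, 5), (4, 5)], [(0, 2), (3, 0), (3, 2), (3, 4), (3,
      5), (3, 7), (4, 0), (4, 2), (4, 5), (5, 0), (5, 1), (5, 2)], [(0, 0), (0, 2)], [8],
      [(1, 2, [1]), (7, 0, []), (8, 0, [])]⟩]
  Ta := [((7, 1), 0, 2), ((7, 6), 0, 5), ((8, 3), 0, 1), ((8, 9), 0, 8)]
  Tb := [((0, 1, 3), 6, 2, 1), ((1, 0, 2), 2, 6, 3), ((1, 0, 7), 2, 6, 0), ((1, 0, 9), 2, 6, 8),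
    ((1, 2, 7), 2, 3, 0), ((1, 2, 9), 2, 3, 8), ((1, 7, 9), 2, 0, 8), ((2, 1, 4), 3, 2, 4),
    ((3, 0, 8), 1, 6, 0), ((4, 2, 5), 4, 3, 7), ((5, 4, 6), 7, 4, 5), ((6, 5, 7), 5, 7, 0),
    ((7, 1, 6), 0, 2, 5), ((8, 3, 9), 0, 1, 8), ((9, 1, 8), 8, 2, 0)]
  Tc := [(1, 2, 3), (1, 2, 4), (1, 2, 5), (1, 2, 7), (1, 3, 4), (1, 3, 5), (1, 3, 7), (1, 4, 5),
    (1, 4, 7), (1, 5, 7)]
  Td := [((1, 2), (3, 0), 6), ((1, 2), (3, 8), 0), ((1, 3), (3, 0), 6), ((1, 3), (3, 8), 0), ((1,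
    4), (3, 0), 6), ((1, 4), (3, 8), 0), ((1, 5), (3, 0), 6), ((1, 5), (3, 8), 0), ((1, 7),
    (3, 0), 6), ((1, 7), (3, 8), 0), ((2, 1), (1, 0), 6), ((2, 1), (1, 2), 3), ((2, 1), (1,
    7), 0), ((2, 1), (1, 9), 8), ((3, 1), (2, 1), 2), ((3, 1), (2, 4), 4), ((4, 1), (4, 2),
    3), ((4, 1), (4, 5), 7), ((5, 1), (6, 5), 7), ((5, 1), (6, 7), 0), ((7, 1), (5, 4), 4),
    ((7, 1), (5, 6), 5)]
  G := [[0, 0, 0xc822c42291c1221c82245648c82c4c8cc42f21e, 0x489c1c22c1c1c22c448cc22d2,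
    0x2182a1484824a4672182724a1c28ca1a1c2212168aa842289a1c22484a2828a24a4ada142f2824c1a4a4c23d284282312424c22428c22484aa848488cee5b],
    [0, 0xc2c26118c8c8611c2c8c1169, 0, 0xc4122c8122c8122d2,
    0xa4122418412424a7a412724128ca4122418aa412a81224828128286da412f2428c1a8123d28121a812a812248284881ee5b]]

noncomputable def n2191 : Ent := ⟨e2191, noF, [], [], []⟩

def c2191 : PLift (Cov.check n2191.C.D v2191 = true) := ⟨by decide +kernel⟩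

def b2191 : PLift (entF (fidx ts) 400 2191 n2191 = true) := ⟨by decide +kernel⟩

theorem g2191 : GoodF (fidx ts) 400 2191 := GoodF.ofV v2191 n2191 c2191.down b2191.down

/-- 4748457:1860/3 -/
noncomputable def e2192 : SCfg where
  D := {
    a := 7
    L := 10
    kp := 8
    inn := [(0, 1), (1, 0), (1, 2), (1, 3), (1, 5), (2, 1), (2, 3), (3, 1), (3, 2), (3, 4), (3, 5), (3,
      6), (4, 3), (4, 6), (5, 1), (5, 3), (5, 6), (6, 3), (6, 4), (6, 5)]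
    mix := [(0, 0), (0, 1), (0, 2), (1, 0), (1, 2), (1, 3), (2, 2), (2, 4), (3, 4), (3, 5), (3, 6), (4,
      6), (4, 7), (5, 3), (5, 8), (6, 1), (6, 7), (6, 8), (6, 9)]
    cl := [1, 6, 0, 2, 4, 7, 5, 3, 3, 8]
    chq := [(0, 1), (1, 0), (1, 4), (2, 4), (2, 5), (2, 7), (4, 1), (4, 2), (5, 2), (7, 2)]
    rng := [(0, 1), (0, 3), (1, 0), (1, 2), (1, 8), (1, 9), (2, 1), (2, 4), (3, 0), (3, 8), (4, 2), (4,
      5), (5, 4), (5, 6), (6, 5), (6, 7), (7, 6), (7, 9), (8, 1), (8, 3), (9, 1), (9, 7)]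
    lev := [] }
  links := [[1, 7, 8, 9], [7, 0, 9, 2, 3, 5, 10], [3, 1, 9, 11], [5, 1, 2, 11, 12, 13, 4, 6], [6, 3, 13,
    14], [10, 1, 3, 6, 15], [15, 5, 3, 4, 14, 16, 8]]
  P := {
    a := 7
    N := 17
    nb := [898, 1709, 2570, 14454, 24648, 33866, 115000, 1283, 99009, 2311, 32930, 4620, 10248, 20504,
      73808, 1376, 16704]
    tri := [(0, 1, 7), (0, 1, 9), (0, 7, 8), (0, 8, 9), (1, 2, 3), (1, 2, 9), (1, 3, 5), (1, 5, 10),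
      (1, 7, 10), (2, 3, 11), (2, 9, 11), (3, 4, 6), (3, 4, 13), (3, 5, 6), (3, 11, 12), (3, 12,
      13), (4, 6, 14), (4, 13, 14), (5, 6, 15), (5, 10, 15), (6, 8, 15), (6, 8, 16), (6, 14, 16)]
    fin := [0, 0, 0, 3, 4, 3, 6, 0, 8, 9, 3, 11, 12, 4, 6, 6, 16]
    chd := [(0, 9), (0, 11), (3, 4), (3, 11), (3, 12)]
    steps := [(0, 1), (0, 2), (0, 7), (3, 5), (3, 10), (4, 13), (6, 14), (6, 15)] }
  rep := [9, 0, 3, 6, 11, 4, 8, 12, 16]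

noncomputable def v2192 : Cov.CovD where
  P := 3
  N := 6
  pl := [1, 9]
  lev := [⟨[], [], [(0, 1)], [6], [(0, 1, [0, 4]), (2, 0, [1])]⟩,
    ⟨[], [(0, 0), (0, 1), (0, 2)], [(0, 1), (0, 2), (1, 2)], [], [(0, 1, [0, 4]), (2, 0,
      [1]), (3, 2, [4, 5, 7])]⟩,
    ⟨[(0, 1)], [(0, 0), (1, 0), (1, 1), (1, 2), (1, 4)], [(0, 4)], [], [(2, 0, [1]), (4, 4,
      [1, 2])]⟩,
    ⟨[(0, 1), (1, 2)], [(1, 0), (1, 1), (1, 2), (1, 4), (1, 5), (1, 7), (2, 0), (2, 4), (2,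
      5), (2, 7)], [(4, 5), (4, 7), (5, 7)], [], [(4, 4, [1, 2]), (5, 7, [2]), (6, 5, [2])]⟩,
    ⟨[(1, 3), (2, 3)], [(3, 3), (3, 4), (3, 5), (3, 7)], [(3, 5)], [], [(6, 5, [2]), (7, 3,
      [])]⟩,
    ⟨[(0, 1), (1, 2), (1, 3), (2, 3), (3, 4)], [(1, 0), (1, 1), (1, 2), (1, 3), (3, 2), (3,
      3), (3, 4), (3, 5), (3, 7)], [(2, 3)], [], [(3, 2, [4, 5, 7]), (8, 3, [])]⟩,
    ⟨[(1, 3), (1, 5), (2, 3), (3, 4), (3, 5), (4, 5)], [(3, 3), (3, 4), (3, 5), (3, 7), (4,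
      3), (4, 5), (5, 2), (5, 3)], [(3, 3)], [6, 8], [(7, 3, []), (8, 3, [])]⟩]
  Ta := [((7, 6), 3, 5), ((7, 9), 3, 8), ((8, 1), 3, 6), ((8, 3), 3, 2)]
  Tb := [((0, 1, 3), 1, 6, 2), ((1, 0, 2), 6, 1, 0), ((1, 0, 8), 6, 1, 3), ((1, 0, 9), 6, 1, 8),
    ((1, 2, 8), 6, 0, 3), ((1, 2, 9), 6, 0, 8), ((1, 8, 9), 6, 3, 8), ((2, 1, 4), 0, 6, 4),
    ((3, 0, 8), 2, 1, 3), ((4, 2, 5), 4, 0, 7), ((5, 4, 6), 7, 4, 5), ((6, 5, 7), 5, 7, 3),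
    ((7, 6, 9), 3, 5, 8), ((8, 1, 3), 3, 6, 2), ((9, 1, 7), 8, 6, 3)]
  Tc := [(1, 0, 4), (2, 4, 5), (2, 4, 7), (2, 5, 7), (4, 1, 2)]
  Td := [((0, 1), (2, 1), 6), ((0, 1), (2, 4), 4), ((1, 0), (0, 1), 6), ((1, 0), (0, 3), 2), ((1,
    4), (0, 1), 6), ((1, 4), (0, 3), 2), ((2, 4), (3, 0), 1), ((2, 4), (3, 8), 3), ((2, 5),
    (3, 0), 1), ((2, 5), (3, 8), 3), ((2, 7), (3, 0), 1), ((2, 7), (3, 8), 3), ((4, 1), (4,
    2), 0), ((4, 1), (4, 5), 7), ((4, 2), (4, 2), 0), ((4, 2), (4, 5), 7), ((5, 2), (6, 5),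
    7), ((5, 2), (6, 7), 3), ((7, 2), (5, 4), 4), ((7, 2), (5, 6), 5)]
  G := [[0, 0xd1d8f8d2142421217282121b2424287d786138d238a,
    0x1241414594b474e7214488c12842128181897252b8eb2c181244e,
    0x28249128f228219128f2c421245121f2428285128f28cc,
    0xb1f1b2b428484141b24142417786852b484842dd68c], [0,
    0xd1d4521822528a12124521289b111a8de346,
    0x141431218a1414cb4b8cf2412146181831818c7452acf28c,
    0x31b45231a8928842e42428c251545262828c28cc, 0xb1b23428414892414237152a9424496d68c]]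

noncomputable def n2192 : Ent := ⟨e2192, noF, [], [], []⟩

def c2192 : PLift (Cov.check n2192.C.D v2192 = true) := ⟨by decide +kernel⟩

def b2192 : PLift (entF (fidx ts) 400 2192 n2192 = true) := ⟨by decide +kernel⟩

theorem g2192 : GoodF (fidx ts) 400 2192 := GoodF.ofV v2192 n2192 c2192.down b2192.down

/-- The entries 2066 to 2192. -/
theorem rE14 : Rng (GoodF (fidx ts) 400) 2066 2193 :=
  ((((((((((((((((((((((((((((((((((((((((((((((((((((((((((((((((((((((((((((((((((((((((((((((((((((((((((((((((((((((((((((((((Rng.nil _ 2066).snoc g2066 rfl).snoc g2067 rfl).snoc g2068 rfl).snoc g2069 rfl).snoc g2070 rfl).snoc g2071 rfl).snoc g2072 rfl).snoc g2073 rfl).snoc g2074 rfl).snoc g2075 rfl).snoc g2076 rfl).snoc g2077 rfl).snoc g2078 rfl).snoc g2079 rfl).snoc g2080 rfl).snoc g2081 rfl).snoc g2082 rfl).snoc g2083 rfl).snoc g2084 rfl).snoc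 g2085 rfl).snoc g2086 rfl).snoc g2087 rfl).snoc g2088 rfl).snoc g2089 rfl).snoc g2090 rfl).snoc g2091 rfl).snoc g2092 rfl).snoc g2093 rfl).snoc g2094 rfl).snoc g2095 rfl).snoc g2096 rfl).snoc g2097 rfl).snoc g2098 rfl).snoc g2099 rfl).snoc g2100 rfl).snoc g2101 rfl).snoc g2102 rfl).snoc g2103 rfl).snoc g2104 rfl).snoc g2105 rfl).snoc g2106 rfl).snoc g2107 rfl).snoc g2108 rfl).snoc g2109 rfl).snoc g2110 rfl).snoc g2111 rfl).snoc g2112 rfl).snoc g2113 rfl).snoc g2114 rfl).snoc g2115 rfl).snoc g2116 rfl).snoc g2117 rfl).snoc g2118 rfl).snoc g2119 rfl).snoc g2120 rfl).snoc g2121 rfl).snoc g2122 rfl).snoc g2123 rfl).snoc g2124 rfl).snoc g2125 rfl).snoc g2126 rfl).snoc g2127 rfl).snoc g2128 rfl).snoc g2129 rfl).snoc g2130 rfl).snoc g2131 rfl).snoc g2132 rfl).snoc g2133 rfl).snoc g2134 rfl).snoc g2135 rfl).snoc g2136 rfl).snoc g2137 rfl).snoc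 g2138 rfl).snoc g2139 rfl).snoc g2140 rfl).snoc g2141 rfl).snoc g2142 rfl).snoc g2143 rfl).snoc g2144 rfl).snoc g2145 rfl).snoc g2146 rfl).snoc g2147 rfl).snoc g2148 rfl).snoc g2149 rfl).snoc g2150 rfl).snoc g2151 rfl).snoc g2152 rfl).snoc g2153 rfl).snoc g2154 rfl).snoc g2155 rfl).snoc g2156 rfl).snoc g2157 rfl).snoc g2158 rfl).snoc g2159 rfl).snoc g2160 rfl).snoc g2161 rfl).snoc g2162 rfl).snoc g2163 rfl).snoc g2164 rfl).snoc g2165 rfl).snoc g2166 rfl).snoc g2167 rfl).snoc g2168 rfl).snoc g2169 rfl).snoc g2170 rfl).snoc g2171 rfl).snoc g2172 rfl).snoc g2173 rfl).snoc g2174 rfl).snoc g2175 rfl).snoc g2176 rfl).snoc g2177 rfl).snoc g2178 rfl).snoc g2179 rfl).snoc g2180 rfl).snoc g2181 rfl).snoc g2182 rfl).snoc g2183 rfl).snoc g2184 rfl).snoc g2185 rfl).snoc g2186 rfl).snoc g2187 rfl).snoc g2188 rfl).snoc g2189 rfl).snoc g2190 rfl).snoc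 g2191 rfl).snoc g2192 rfl)

end Pool.Agent.W986.ST.Dat
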