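import Pool.Agent.W986.Dat.Tab
import Pool.Agent.W986.SubAltB

/-!
# Entries 2193 to 2323 of the table
-/

set_option autoImplicit false

namespace Pool.Agent.W986.ST.Dat

/-- 4748457:1860 -/
noncomputable def e2193 : SCfg where
  D := {
    a := 7
    L := 11
    kp := 9
    inn := [(0, 1), (1, 0), (1, 2), (1, 3), (1, 5), (2, 1), (2, 3), (3, 1), (3, 2), (3, 4), (3, 5), (3,
      6), (4, 3), (4, 6), (5, 1), (5, 3), (5, 6), (6, 3), (6, 4), (6, 5)]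
    mix := [(0, 0), (0, 1), (0, 2), (1, 0), (1, 2), (1, 3), (2, 2), (2, 4), (3, 4), (3, 5), (3, 6), (4,
      6), (4, 7), (5, 3), (5, 8), (6, 7), (6, 8), (6, 9), (6, 10)]
    cl := [1, 7, 0, 2, 4, 6, 5, 3, 3, 8, 9]
    chq := [(0, 1), (1, 0), (1, 4), (2, 4), (2, 5), (2, 6), (4, 1), (4, 2), (5, 2), (6, 2)]
    rng := [(0, 1), (0, 3), (1, 0), (1, 2), (2, 1), (2, 4), (3, 0), (3, 8), (4, 2), (4, 5), (5, 4), (5,
      6), (6, 5), (6, 7), (7, 6), (7, 9), (8, 3), (8, 10), (9, 7), (9, 10), (10, 8), (10, 9)]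
    lev := [] }
  links := [[1, 7, 8, 9], [7, 0, 9, 2, 3, 5, 10], [3, 1, 9, 11], [5, 1, 2, 11, 12, 13, 4, 6], [6, 3, 13,
    14], [10, 1, 3, 6, 15], [15, 5, 3, 4, 14, 16, 17]]
  P := {
    a := 7
    N := 18
    nb := [898, 1709, 2570, 14454, 24648, 33866, 245816, 1283, 641, 2311, 32930, 4620, 10248, 20504,
      73808, 132192, 147520, 98368]
    tri := [(0, 1, 7), (0, 1, 9), (0, 7, 8), (0, 8, 9), (1, 2, 3), (1, 2, 9), (1, 3, 5), (1, 5, 10),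
      (1, 7, 10), (2, 3, 11), (2, 9, 11), (3, 4, 6), (3, 4, 13), (3, 5, 6), (3, 11, 12), (3, 12,
      13), (4, 6, 14), (4, 13, 14), (5, 6, 15), (5, 10, 15), (6, 14, 16), (6, 15, 17), (6, 16,
      17)]
    fin := [0, 0, 0, 3, 4, 3, 6, 0, 8, 9, 3, 11, 12, 4, 6, 6, 16, 17]
    chd := [(0, 9), (0, 11), (3, 4), (3, 11), (3, 12)]
    steps := [(0, 1), (0, 2), (0, 7), (3, 5), (3, 10), (4, 13), (6, 14), (6, 15)] }
  rep := [9, 0, 3, 6, 11, 4, 12, 8, 16, 17]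

noncomputable def v2193 : Cov.CovD where
  P := 3
  N := 7
  pl := [1, 9, 10]
  lev := [⟨[], [], [(0, 1)], [7], [(0, 1, [0, 4]), (2, 0, [1])]⟩,
    ⟨[], [(0, 0), (0, 1), (0, 2)], [(0, 1), (0, 2), (1, 2)], [], [(0, 1, [0, 4]), (2, 0,
      [1]), (3, 2, [4, 5, 6])]⟩,
    ⟨[(0, 1)], [(0, 0), (1, 0), (1, 1), (1, 2), (1, 4)], [(0, 4)], [], [(2, 0, [1]), (4, 4,
      [1, 2])]⟩,
    ⟨[(0, 1), (1, 2)], [(1, 0), (1, 1), (1, 2), (1, 4), (1, 5), (1, 6), (2, 0), (2, 4), (2,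
      5), (2, 6)], [(4, 5), (4, 6), (5, 6)], [], [(4, 4, [1, 2]), (5, 6, [2]), (6, 5, [2])]⟩,
    ⟨[(1, 3), (2, 3)], [(3, 3), (3, 4), (3, 5), (3, 6)], [(3, 5)], [], [(6, 5, [2]), (7, 3,
      [])]⟩,
    ⟨[(0, 1), (1, 2), (1, 3), (2, 3), (3, 4)], [(1, 0), (1, 1), (1, 2), (1, 3), (3, 2), (3,
      3), (3, 4), (3, 5), (3, 6)], [(2, 3)], [], [(3, 2, [4, 5, 6]), (8, 3, [])]⟩,
    ⟨[(1, 3), (1, 5), (2, 3), (3, 4), (3, 5), (4, 5)], [(3, 3), (3, 4), (3, 5), (3, 6), (4,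
      3), (4, 5), (5, 2), (5, 3)], [(3, 3)], [8, 9], [(7, 3, []), (8, 3, [])]⟩]
  Ta := [((7, 6), 3, 5), ((7, 9), 3, 8), ((8, 3), 3, 2), ((8, 10), 3, 9)]
  Tb := [((0, 1, 3), 1, 7, 2), ((1, 0, 2), 7, 1, 0), ((2, 1, 4), 0, 7, 4), ((3, 0, 8), 2, 1, 3),
    ((4, 2, 5), 4, 0, 6), ((5, 4, 6), 6, 4, 5), ((6, 5, 7), 5, 6, 3), ((7, 6, 9), 3, 5, 8),
    ((8, 3, 10), 3, 2, 9), ((9, 7, 10), 8, 3, 9), ((10, 8, 9), 9, 3, 8)]
  Tc := [(1, 0, 4), (2, 4, 5), (2, 4, 6), (2, 5, 6), (4, 1, 2)]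
  Td := [((0, 1), (2, 1), 7), ((0, 1), (2, 4), 4), ((1, 0), (0, 1), 7), ((1, 0), (0, 3), 2), ((1,
    4), (0, 1), 7), ((1, 4), (0, 3), 2), ((2, 4), (3, 0), 1), ((2, 4), (3, 8), 3), ((2, 5),
    (3, 0), 1), ((2, 5), (3, 8), 3), ((2, 6), (3, 0), 1), ((2, 6), (3, 8), 3), ((4, 1), (4,
    2), 0), ((4, 1), (4, 5), 6), ((4, 2), (4, 2), 0), ((4, 2), (4, 5), 6), ((5, 2), (6, 5),
    6), ((5, 2), (6, 7), 3), ((6, 2), (5, 4), 4), ((6, 2), (5, 6), 5)]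
  G := [[0, 0x282152428692828af1f1f8d63421221424243d2828812121c21289f1f8f8de34e,
    0x141292b141494df21667484f72121214b82c1212127121212d181414df2f2f4ef28c,
    0x2828d821f22121d121f2c42124d424f22821d424f2c8c,
    0xf2f11e3b414141d424242772414241b82c4142417414141daf2f1f2b484242b568c], [0,
    0x21245229246921289f1f456382122532428c9212894b51ead96386,
    0x121461218a1418c587ef8cf24121461218a1418cf4788ecf28c,
    0x2482d1d45262124522842ccf1245274389c2d412e8c,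
    0xf1f23424142341489424436b2c41423414894248ab22d1f2b468c]]

noncomputable def n2193 : Ent := ⟨e2193, noF, [], [], [(8, 14, [7334790875878422277917280412776772662961875900559637987928627378446337, 0]), (8, 16, [7334685537875745012586738086077695515070955365108989538292687702650881, 0]), (8, 17, [6903326391201334775872065844685381424292761054348340378595029938667521, 0])]⟩

def c2193 : PLift (Cov.check n2193.C.D v2193 = true) := ⟨by decide +kernel⟩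

def b2193 : PLift (entF (fidx ts) 400 2193 n2193 = true) := ⟨by decide +kernel⟩

theorem g2193 : GoodF (fidx ts) 400 2193 := GoodF.ofV v2193 n2193 c2193.down b2193.down

/-- 4746845:1861/1 -/
noncomputable def e2194 : SCfg where
  D := {
    a := 7
    L := 10
    kp := 7
    inn := [(0, 1), (1, 0), (1, 2), (1, 3), (1, 4), (2, 1), (2, 3), (3, 1), (3, 2), (3, 4), (4, 1), (4,
      3), (4, 5), (4, 6), (5, 4), (5, 6), (6, 4), (6, 5)]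
    mix := [(0, 0), (0, 1), (0, 2), (1, 0), (1, 2), (1, 3), (2, 2), (2, 4), (3, 4), (3, 5), (3, 6), (4,
      3), (4, 6), (4, 7), (4, 8), (5, 1), (5, 6), (6, 1), (6, 7), (6, 9)]
    cl := [1, 4, 0, 0, 2, 5, 3, 3, 6, 7]
    chq := [(0, 3), (0, 5), (3, 0), (5, 0)]
    rng := [(0, 1), (0, 3), (1, 0), (1, 2), (1, 6), (1, 9), (2, 1), (2, 4), (3, 0), (3, 8), (4, 2), (4,
      5), (5, 4), (5, 6), (6, 1), (6, 5), (7, 8), (7, 9), (8, 3), (8, 7), (9, 1), (9, 7)]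
    lev := [] }
  links := [[1, 7, 8, 9], [7, 0, 9, 2, 3, 4, 10], [3, 1, 9, 11], [4, 1, 2, 11, 12, 13], [10, 1, 3, 13, 5,
    6, 14, 15], [6, 4, 13, 8], [14, 4, 5, 8, 16]]
  P := {
    a := 7
    N := 17
    nb := [898, 1693, 2570, 14358, 58474, 8528, 82224, 1283, 74465, 2311, 32914, 4620, 10248, 4408,
      98384, 17424, 16704]
    tri := [(0, 1, 7), (0, 1, 9), (0, 7, 8), (0, 8, 9), (1, 2, 3), (1, 2, 9), (1, 3, 4), (1, 4, 10),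
      (1, 7, 10), (2, 3, 11), (2, 9, 11), (3, 4, 13), (3, 11, 12), (3, 12, 13), (4, 5, 6), (4, 5,
      13), (4, 6, 14), (4, 10, 15), (4, 14, 15), (5, 6, 8), (5, 8, 13), (6, 8, 16), (6, 14, 16)]
    fin := [0, 1, 1, 1, 4, 5, 5, 0, 5, 1, 1, 11, 12, 4, 4, 15, 16]
    chd := [(1, 4), (1, 12)]
    steps := [(0, 7), (1, 2), (1, 3), (1, 9), (1, 10), (4, 13), (4, 14), (5, 6), (5, 8)] }
  rep := [1, 0, 11, 4, 5, 12, 15, 16]

noncomputable def v2194 : Cov.CovD where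
  P := 3
  N := 5
  pl := [0, 1, 4, 8, 9]
  lev := [⟨[], [], [], [1, 4], [(2, 0, [3, 5])]⟩,
    ⟨[], [(0, 0)], [(0, 0)], [1], [(2, 0, [3, 5]), (3, 0, [3, 5])]⟩,
    ⟨[(0, 1)], [(0, 0), (1, 0)], [], [2], [(2, 0, [3, 5])]⟩,
    ⟨[(0, 1), (1, 2)], [(1, 0), (1, 3), (1, 5), (2, 0), (2, 3), (2, 5)], [(3, 5)], [2],
      [(5, 5, [0]), (6, 3, [0])]⟩,
    ⟨[(0, 1), (1, 2), (1, 3), (2, 3)], [(1, 0), (1, 3), (3, 0), (3, 3), (3, 5)], [(0, 3),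
      (3, 3)], [6], [(3, 0, [3, 5]), (6, 3, [0]), (7, 3, [0])]⟩,
    ⟨[(1, 4), (3, 4)], [(3, 3), (4, 0), (4, 3)], [], [4], [(6, 3, [0])]⟩,
    ⟨[(1, 4), (3, 4), (4, 5)], [(4, 0), (4, 3), (5, 3)], [], [4, 7], [(7, 3, [0])]⟩]
  Ta := [((2, 1), 0, 4), ((2, 4), 0, 2), ((3, 0), 0, 1), ((3, 8), 0, 6), ((6, 1), 3, 4), ((6, 5),
    3, 5), ((7, 8), 3, 6), ((7, 9), 3, 7)]
  Tb := [((0, 1, 3), 1, 4, 0), ((1, 0, 2), 4, 1, 0), ((1, 0, 6), 4, 1, 3), ((1, 0, 9), 4, 1, 7),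
    ((1, 2, 6), 4, 0, 3), ((1, 2, 9), 4, 0, 7), ((1, 6, 9), 4, 3, 7), ((2, 1, 4), 0, 4, 2),
    ((3, 0, 8), 0, 1, 6), ((4, 2, 5), 2, 0, 5), ((5, 4, 6), 5, 2, 3), ((6, 1, 5), 3, 4, 5),
    ((7, 8, 9), 3, 6, 7), ((8, 3, 7), 6, 0, 3), ((9, 1, 7), 7, 4, 3)]
  Tc := [(0, 3, 5)]
  Td := [((0, 3), (2, 1), 4), ((0, 3), (2, 4), 2), ((0, 3), (3, 0), 1), ((0, 3), (3, 8), 6), ((0,
    5), (2, 1), 4), ((0, 5), (2, 4), 2), ((0, 5), (3, 0), 1), ((0, 5), (3, 8), 6), ((3, 0),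
    (6, 1), 4), ((3, 0), (6, 5), 5), ((3, 0), (7, 8), 6), ((3, 0), (7, 9), 7), ((5, 0), (5,
    4), 2), ((5, 0), (5, 6), 3)]
  G := [[0, 0, 0x28a14e8148ae1ac42461e41621e28c, 0x7898a91e18461b4d2e148c,
    0x7891189e12461b4d2e128c], [0, 0, 0x111888d23131c478a414445214823131a4e8c,
    0x188bb8f8e18474414d31e148c, 0x983b8f8e1247454331e128c], [0, 0x91c151e142a131a1e1846, 0,
    0x11671a31d5e1841, 0x1631a5158be1281], [0, 0x91b8d8e1825141487231a184e, 0,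
    0x414185b31ba1f9e18c1, 0xc14181f5133d39e18c1]]

noncomputable def n2194 : Ent := ⟨e2194, noF, [], [], []⟩

def c2194 : PLift (Cov.check n2194.C.D v2194 = true) := ⟨by decide +kernel⟩

def b2194 : PLift (entF (fidx ts) 400 2194 n2194 = true) := ⟨by decide +kernel⟩

theorem g2194 : GoodF (fidx ts) 400 2194 := GoodF.ofV v2194 n2194 c2194.down b2194.down

/-- 4746845:1861/2 -/
noncomputable def e2195 : SCfg where
  D := {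
    a := 7
    L := 10
    kp := 7
    inn := [(0, 1), (1, 0), (1, 2), (1, 3), (1, 4), (2, 1), (2, 3), (3, 1), (3, 2), (3, 4), (4, 1), (4,
      3), (4, 5), (4, 6), (5, 4), (5, 6), (6, 4), (6, 5)]
    mix := [(0, 0), (0, 1), (0, 2), (1, 0), (1, 2), (1, 3), (2, 2), (2, 4), (3, 4), (3, 5), (3, 6), (4,
      3), (4, 6), (4, 7), (4, 8), (5, 6), (5, 9), (6, 1), (6, 7), (6, 9)]
    cl := [1, 4, 0, 0, 2, 6, 3, 3, 7, 5]
    chq := [(0, 3), (0, 6), (3, 0), (6, 0)]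
    rng := [(0, 1), (0, 3), (1, 0), (1, 2), (1, 7), (1, 9), (2, 1), (2, 4), (3, 0), (3, 8), (4, 2), (4,
      5), (5, 4), (5, 6), (6, 5), (6, 9), (7, 1), (7, 8), (8, 3), (8, 7), (9, 1), (9, 6)]
    lev := [] }
  links := [[1, 7, 8, 9], [7, 0, 9, 2, 3, 4, 10], [3, 1, 9, 11], [4, 1, 2, 11, 12, 13], [10, 1, 3, 13, 5,
    6, 14, 15], [6, 4, 13, 16], [14, 4, 5, 16, 8]]
  P := {
    a := 7
    N := 17
    nb := [898, 1693, 2570, 14358, 58474, 73808, 82224, 1283, 82625, 2311, 32914, 4620, 10248, 69688,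
      33104, 17424, 8544]
    tri := [(0, 1, 7), (0, 1, 9), (0, 7, 8), (0, 8, 9), (1, 2, 3), (1, 2, 9), (1, 3, 4), (1, 4, 10),
      (1, 7, 10), (2, 3, 11), (2, 9, 11), (3, 4, 13), (3, 11, 12), (3, 12, 13), (4, 5, 6), (4, 5,
      13), (4, 6, 14), (4, 10, 15), (4, 14, 15), (5, 6, 16), (5, 13, 16), (6, 8, 14), (6, 8, 16)]
    fin := [0, 1, 1, 1, 4, 5, 5, 0, 5, 1, 1, 11, 12, 4, 4, 15, 16]
    chd := [(1, 4), (1, 12)]
    steps := [(0, 7), (1, 2), (1, 3), (1, 9), (1, 10), (4, 13), (4, 14), (5, 6), (5, 8)] }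
  rep := [1, 0, 11, 4, 5, 16, 12, 15]

noncomputable def v2195 : Cov.CovD where
  P := 3
  N := 5
  pl := [0, 1, 4, 8, 9]
  lev := [⟨[], [], [], [1, 4], [(2, 0, [3, 6])]⟩,
    ⟨[], [(0, 0)], [(0, 0)], [1], [(2, 0, [3, 6]), (3, 0, [3, 6])]⟩,
    ⟨[(0, 1)], [(0, 0), (1, 0)], [], [2], [(2, 0, [3, 6])]⟩,
    ⟨[(0, 1), (1, 2)], [(1, 0), (1, 3), (1, 6), (2, 0), (2, 3), (2, 6)], [(3, 6)], [2],
      [(5, 6, [0]), (6, 3, [0])]⟩,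
    ⟨[(0, 1), (1, 2), (1, 3), (2, 3)], [(1, 0), (1, 3), (3, 0), (3, 3), (3, 6)], [(0, 3),
      (3, 3)], [7], [(3, 0, [3, 6]), (6, 3, [0]), (7, 3, [0])]⟩,
    ⟨[(1, 4), (3, 4)], [(3, 3), (4, 0), (4, 3)], [], [5], [(6, 3, [0])]⟩,
    ⟨[(1, 4), (3, 4), (4, 5)], [(4, 0), (4, 3), (5, 3)], [], [4, 5], [(7, 3, [0])]⟩]
  Ta := [((2, 1), 0, 4), ((2, 4), 0, 2), ((3, 0), 0, 1), ((3, 8), 0, 7), ((6, 5), 3, 6), ((6, 9),
    3, 5), ((7, 1), 3, 4), ((7, 8), 3, 7)]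
  Tb := [((0, 1, 3), 1, 4, 0), ((1, 0, 2), 4, 1, 0), ((1, 0, 7), 4, 1, 3), ((1, 0, 9), 4, 1, 5),
    ((1, 2, 7), 4, 0, 3), ((1, 2, 9), 4, 0, 5), ((1, 7, 9), 4, 3, 5), ((2, 1, 4), 0, 4, 2),
    ((3, 0, 8), 0, 1, 7), ((4, 2, 5), 2, 0, 6), ((5, 4, 6), 6, 2, 3), ((6, 5, 9), 3, 6, 5),
    ((7, 1, 8), 3, 4, 7), ((8, 3, 7), 7, 0, 3), ((9, 1, 6), 5, 4, 3)]
  Tc := [(0, 3, 6)]
  Td := [((0, 3), (2, 1), 4), ((0, 3), (2, 4), 2), ((0, 3), (3, 0), 1), ((0, 3), (3, 8), 7), ((0,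
    6), (2, 1), 4), ((0, 6), (2, 4), 2), ((0, 6), (3, 0), 1), ((0, 6), (3, 8), 7), ((3, 0),
    (6, 5), 6), ((3, 0), (6, 9), 5), ((3, 0), (7, 1), 4), ((3, 0), (7, 8), 7), ((6, 0), (5,
    4), 2), ((6, 0), (5, 6), 3)]
  G := [[0, 0, 0x82c12a8e18a61e24624e124c146a1e48c, 0x12c28aba85e184456741945ae148c,
    0x215881ba86e12424964a61446781a8c], [0, 0, 0x1282a54214821111a2786c1118426d21111426b468c,
    0x896a19d2ce18461345a21ce148c, 0x13a21c61288134838c124124412c4131612ca9acc], [0,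
    0x215815815e182441721914ae148c, 0, 0x6517a159547e1481, 0x3417381bd13e1241], [0,
    0xe15419c19e142a19215618983818c6, 0, 0x58414d36b21fce18c1, 0xf1cb5c618e13818c1]]

noncomputable def n2195 : Ent := ⟨e2195, noF, [], [], []⟩

def c2195 : PLift (Cov.check n2195.C.D v2195 = true) := ⟨by decide +kernel⟩

def b2195 : PLift (entF (fidx ts) 400 2195 n2195 = true) := ⟨by decide +kernel⟩

theorem g2195 : GoodF (fidx ts) 400 2195 := GoodF.ofV v2195 n2195 c2195.down b2195.down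

/-- 4746845:1861 -/
noncomputable def e2196 : SCfg where
  D := {
    a := 7
    L := 11
    kp := 8
    inn := [(0, 1), (1, 0), (1, 2), (1, 3), (1, 4), (2, 1), (2, 3), (3, 1), (3, 2), (3, 4), (4, 1), (4,
      3), (4, 5), (4, 6), (5, 4), (5, 6), (6, 4), (6, 5)]
    mix := [(0, 0), (0, 1), (0, 2), (1, 0), (1, 2), (1, 3), (2, 2), (2, 4), (3, 4), (3, 5), (3, 6), (4,
      3), (4, 6), (4, 7), (4, 8), (5, 6), (5, 9), (6, 7), (6, 9), (6, 10)]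
    cl := [1, 6, 0, 0, 2, 5, 3, 3, 7, 4, 8]
    chq := [(0, 3), (0, 5), (3, 0), (5, 0)]
    rng := [(0, 1), (0, 3), (1, 0), (1, 2), (2, 1), (2, 4), (3, 0), (3, 8), (4, 2), (4, 5), (5, 4), (5,
      6), (6, 5), (6, 9), (7, 8), (7, 10), (8, 3), (8, 7), (9, 6), (9, 10), (10, 7), (10, 9)]
    lev := [] }
  links := [[1, 7, 8, 9], [7, 0, 9, 2, 3, 4, 10], [3, 1, 9, 11], [4, 1, 2, 11, 12, 13], [10, 1, 3, 13, 5,
    6, 14, 15], [6, 4, 13, 16], [14, 4, 5, 16, 17]]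
  P := {
    a := 7
    N := 18
    nb := [898, 1693, 2570, 14358, 58474, 73808, 213040, 1283, 641, 2311, 32914, 4620, 10248, 69688,
      163920, 17424, 139360, 81984]
    tri := [(0, 1, 7), (0, 1, 9), (0, 7, 8), (0, 8, 9), (1, 2, 3), (1, 2, 9), (1, 3, 4), (1, 4, 10),
      (1, 7, 10), (2, 3, 11), (2, 9, 11), (3, 4, 13), (3, 11, 12), (3, 12, 13), (4, 5, 6), (4, 5,
      13), (4, 6, 14), (4, 10, 15), (4, 14, 15), (5, 6, 16), (5, 13, 16), (6, 14, 17), (6, 16,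
      17)]
    fin := [0, 0, 2, 2, 2, 5, 5, 0, 8, 2, 2, 11, 12, 5, 5, 15, 16, 17]
    chd := [(2, 5), (2, 12)]
    steps := [(0, 1), (0, 7), (2, 3), (2, 4), (2, 9), (2, 10), (5, 6), (5, 13), (5, 14)] }
  rep := [2, 0, 11, 5, 16, 12, 8, 15, 17]

noncomputable def v2196 : Cov.CovD where
  P := 3
  N := 6
  pl := [0, 1, 4, 8, 9, 10]
  lev := [⟨[], [], [], [1, 6], [(2, 0, [3, 5])]⟩,
    ⟨[], [(0, 0)], [(0, 0)], [1], [(2, 0, [3, 5]), (3, 0, [3, 5])]⟩,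
    ⟨[(0, 1)], [(0, 0), (1, 0)], [], [2], [(2, 0, [3, 5])]⟩,
    ⟨[(0, 1), (1, 2)], [(1, 0), (1, 3), (1, 5), (2, 0), (2, 3), (2, 5)], [(3, 5)], [2],
      [(5, 5, [0]), (6, 3, [0])]⟩,
    ⟨[(0, 1), (1, 2), (1, 3), (2, 3)], [(1, 0), (1, 3), (3, 0), (3, 3), (3, 5)], [(0, 3),
      (3, 3)], [7], [(3, 0, [3, 5]), (6, 3, [0]), (7, 3, [0])]⟩,
    ⟨[(1, 4), (3, 4)], [(3, 3), (4, 0), (4, 3)], [], [4], [(6, 3, [0])]⟩,
    ⟨[(1, 4), (3, 4), (4, 5)], [(4, 0), (4, 3), (5, 3)], [], [4, 8], [(7, 3, [0])]⟩]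
  Ta := [((2, 1), 0, 6), ((2, 4), 0, 2), ((3, 0), 0, 1), ((3, 8), 0, 7), ((6, 5), 3, 5), ((6, 9),
    3, 4), ((7, 8), 3, 7), ((7, 10), 3, 8)]
  Tb := [((0, 1, 3), 1, 6, 0), ((1, 0, 2), 6, 1, 0), ((2, 1, 4), 0, 6, 2), ((3, 0, 8), 0, 1, 7),
    ((4, 2, 5), 2, 0, 5), ((5, 4, 6), 5, 2, 3), ((6, 5, 9), 3, 5, 4), ((7, 8, 10), 3, 7, 8),
    ((8, 3, 7), 7, 0, 3), ((9, 6, 10), 4, 3, 8), ((10, 7, 9), 8, 3, 4)]
  Tc := [(0, 3, 5)]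
  Td := [((0, 3), (2, 1), 6), ((0, 3), (2, 4), 2), ((0, 3), (3, 0), 1), ((0, 3), (3, 8), 7), ((0,
    5), (2, 1), 6), ((0, 5), (2, 4), 2), ((0, 5), (3, 0), 1), ((0, 5), (3, 8), 7), ((3, 0),
    (6, 5), 5), ((3, 0), (6, 9), 4), ((3, 0), (7, 8), 7), ((3, 0), (7, 10), 8), ((5, 0), (5,
    4), 2), ((5, 0), (5, 6), 3)]
  G := [[0, 0, 0xe24e12e8e148ee1e84e24e12e8e148ee1e48c, 0x639a9bb1d5be184a35418714d1d47a18cc,
    0x4812f28bb3497e12424772b8e48dee128c], [0, 0,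
    0x11421111c26b1111842eba1148e411111884cf2111111c2af221668c,
    0xf5a7bc614bd6818c221d7a458d96f1aa18cc, 0xe537bc612db6818cc1341842619f61bca92cc], [0,
    0x659a9548dde142c53214639a95c186a, 0, 0x346b2abb1c67e1841, 0x714d28bb1d47e1841], [0,
    0x2ac2149f6e53419e18ae35218e95e59c18a6, 0, 0x5fa7bc618db6818c1, 0x745faf3ce12896812c1]]

noncomputable def n2196 : Ent := ⟨e2196, noF, [], [], [(8, 16, [7334685537875745012586738086077695515070955365108989538292687702663169, 0]), (8, 17, [6903326391201334775872065844685381424292761054348340378595029938679809, 0])]⟩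

def c2196 : PLift (Cov.check n2196.C.D v2196 = true) := ⟨by decide +kernel⟩

def b2196 : PLift (entF (fidx ts) 400 2196 n2196 = true) := ⟨by decide +kernel⟩

theorem g2196 : GoodF (fidx ts) 400 2196 := GoodF.ofV v2196 n2196 c2196.down b2196.down

/-- 4746744:1863/1 -/
noncomputable def e2197 : SCfg where
  D := {
    a := 7
    L := 10
    kp := 7
    inn := [(0, 1), (1, 0), (1, 2), (1, 3), (2, 1), (2, 3), (3, 1), (3, 2), (3, 4), (4, 3), (4, 5), (4,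
      6), (5, 4), (6, 4)]
    mix := [(0, 0), (0, 1), (0, 2), (1, 0), (1, 2), (1, 3), (1, 4), (2, 2), (2, 5), (3, 3), (3, 5), (3,
      6), (4, 3), (4, 6), (4, 7), (4, 8), (5, 1), (5, 6), (5, 7), (6, 7), (6, 8), (6, 9)]
    cl := [2, 4, 1, 0, 1, 5, 0, 3, 6, 7]
    chq := [(0, 3), (0, 7), (3, 0), (7, 0)]
    rng := [(0, 1), (0, 4), (1, 0), (1, 2), (1, 6), (1, 7), (2, 1), (2, 5), (3, 4), (3, 8), (4, 0), (4,
      3), (5, 2), (5, 6), (6, 1), (6, 5), (7, 1), (7, 9), (8, 3), (8, 9), (9, 7), (9, 8)]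
    lev := [] }
  links := [[1, 7, 8, 9], [7, 0, 9, 2, 3, 10, 11], [3, 1, 9, 12], [10, 1, 2, 12, 13, 4], [10, 3, 13, 5,
    14, 6, 15], [14, 4, 13, 8], [15, 4, 14, 16]]
  P := {
    a := 7
    N := 17
    nb := [898, 3725, 4618, 13334, 58472, 24848, 114704, 2307, 25249, 4359, 34842, 1154, 8716, 4408,
      65904, 66640, 49216]
    tri := [(0, 1, 7), (0, 1, 9), (0, 7, 8), (0, 8, 9), (1, 2, 3), (1, 2, 9), (1, 3, 10), (1, 7, 11),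
      (1, 10, 11), (2, 3, 12), (2, 9, 12), (3, 4, 10), (3, 4, 13), (3, 12, 13), (4, 5, 13), (4, 5,
      14), (4, 6, 14), (4, 6, 15), (4, 10, 15), (5, 8, 13), (5, 8, 14), (6, 14, 16), (6, 15, 16)]
    fin := [0, 1, 1, 1, 4, 5, 4, 0, 5, 1, 4, 1, 12, 4, 14, 15, 16]
    chd := [(4, 14), (4, 16)]
    steps := [(0, 7), (1, 2), (1, 3), (1, 9), (1, 11), (4, 6), (4, 13), (4, 10), (5, 8)] }
  rep := [4, 1, 0, 14, 5, 12, 15, 16]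

noncomputable def v2197 : Cov.CovD where
  P := 3
  N := 5
  pl := [0, 1, 5, 8]
  lev := [⟨[], [], [], [2, 4], [(2, 1, [])]⟩,
    ⟨[], [(0, 0), (0, 1)], [(0, 1), (1, 1)], [2], [(2, 1, []), (3, 0, [3, 7]), (4, 1, [])]⟩,
    ⟨[(0, 1)], [(0, 1), (1, 0), (1, 1)], [], [5], [(2, 1, [])]⟩,
    ⟨[(0, 1), (1, 2)], [(1, 0), (1, 1), (2, 0), (2, 1)], [(0, 0)], [5], [(3, 0, [3, 7]),
      (6, 0, [3, 7])]⟩,
    ⟨[(1, 3), (2, 3)], [(1, 0), (3, 0), (3, 3)], [(0, 0), (0, 3)], [6], [(3, 0, [3, 7]),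
      (6, 0, [3, 7]), (7, 3, [0])]⟩,
    ⟨[(3, 4)], [(3, 0), (4, 0), (4, 3)], [(0, 3)], [4], [(6, 0, [3, 7]), (7, 3, [0])]⟩,
    ⟨[(3, 4), (4, 5)], [(4, 0), (4, 3), (4, 7), (5, 3)], [(3, 7)], [6], [(7, 3, [0]), (9,
      7, [0])]⟩]
  Ta := [((2, 1), 1, 4), ((2, 5), 1, 5), ((3, 4), 0, 1), ((3, 8), 0, 6), ((4, 0), 1, 2), ((4, 3),
    1, 0), ((6, 1), 0, 4), ((6, 5), 0, 5)]
  Tb := [((0, 1, 4), 2, 4, 1), ((1, 0, 2), 4, 2, 1), ((1, 0, 6), 4, 2, 0), ((1, 0, 7), 4, 2, 3),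
    ((1, 2, 6), 4, 1, 0), ((1, 2, 7), 4, 1, 3), ((1, 6, 7), 4, 0, 3), ((2, 1, 5), 1, 4, 5),
    ((3, 4, 8), 0, 1, 6), ((4, 0, 3), 1, 2, 0), ((5, 2, 6), 5, 1, 0), ((6, 1, 5), 0, 4, 5),
    ((7, 1, 9), 3, 4, 7), ((8, 3, 9), 6, 0, 7), ((9, 7, 8), 7, 3, 6)]
  Tc := [(0, 3, 7)]
  Td := [((0, 3), (3, 4), 1), ((0, 3), (3, 8), 6), ((0, 3), (6, 1), 4), ((0, 3), (6, 5), 5), ((0,
    7), (3, 4), 1), ((0, 7), (3, 8), 6), ((0, 7), (6, 1), 4), ((0, 7), (6, 5), 5), ((3, 0),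
    (7, 1), 4), ((3, 0), (7, 9), 7), ((7, 0), (9, 7), 3), ((7, 0), (9, 8), 6)]
  G := [[0, 0, 0x511a3618912a38f1ce1451594f1e5b53451ea14c, 0, 0x7112639381b9117711ee181], [0,
    0x1141111ac1121111ca681, 0x1b335311e2142, 0x3d361311e2181, 0x1b335311e2182], [0, 0,
    0x11a126188c1221811a18e694116111ea144641411661168a8cc, 0,
    0x18116a411a41811a11ce658111e411611aac12211614ca589], [0, 0,
    0x111e126111e8c122111e111ec6942, 0x1882181161411ce214111e126111e11a12ec28d,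
    0x111e12a111e46122111e111eca582]]

noncomputable def n2197 : Ent := ⟨e2197, noF, [], [], []⟩

def c2197 : PLift (Cov.check n2197.C.D v2197 = true) := ⟨by decide +kernel⟩

def b2197 : PLift (entF (fidx ts) 400 2197 n2197 = true) := ⟨by decide +kernel⟩

theorem g2197 : GoodF (fidx ts) 400 2197 := GoodF.ofV v2197 n2197 c2197.down b2197.down

/-- 4746744:1863/2 -/
noncomputable def e2198 : SCfg where
  D := {
    a := 7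
    L := 10
    kp := 7
    inn := [(0, 1), (1, 0), (1, 2), (1, 3), (2, 1), (2, 3), (3, 1), (3, 2), (3, 4), (4, 3), (4, 5), (4,
      6), (5, 4), (6, 4)]
    mix := [(0, 0), (0, 1), (0, 2), (1, 0), (1, 2), (1, 3), (1, 4), (2, 2), (2, 5), (3, 3), (3, 5), (3,
      6), (4, 1), (4, 3), (4, 6), (4, 7), (5, 1), (5, 6), (5, 8), (6, 1), (6, 7), (6, 9)]
    cl := [2, 3, 1, 0, 1, 4, 0, 5, 7, 6]
    chq := [(0, 3), (0, 6), (3, 0), (6, 0)]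
    rng := [(0, 1), (0, 4), (1, 0), (1, 2), (1, 8), (1, 9), (2, 1), (2, 5), (3, 4), (3, 7), (4, 0), (4,
      3), (5, 2), (5, 6), (6, 5), (6, 8), (7, 3), (7, 9), (8, 1), (8, 6), (9, 1), (9, 7)]
    lev := [] }
  links := [[1, 7, 8, 9], [7, 0, 9, 2, 3, 10, 11], [3, 1, 9, 12], [10, 1, 2, 12, 13, 4], [10, 3, 13, 5,
    8, 6, 14], [8, 4, 13, 15], [14, 4, 8, 16]]
  P := {
    a := 7
    N := 17
    nb := [898, 3725, 4618, 13334, 25960, 41232, 82192, 2307, 99057, 4359, 18458, 1154, 8716, 36920,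
      66640, 8480, 16704]
    tri := [(0, 1, 7), (0, 1, 9), (0, 7, 8), (0, 8, 9), (1, 2, 3), (1, 2, 9), (1, 3, 10), (1, 7, 11),
      (1, 10, 11), (2, 3, 12), (2, 9, 12), (3, 4, 10), (3, 4, 13), (3, 12, 13), (4, 5, 8), (4, 5,
      13), (4, 6, 8), (4, 6, 14), (4, 10, 14), (5, 8, 15), (5, 13, 15), (6, 8, 16), (6, 14, 16)]
    fin := [0, 1, 1, 1, 4, 5, 4, 0, 5, 1, 4, 1, 12, 4, 14, 15, 16]
    chd := [(4, 16), (5, 4)]
    steps := [(0, 7), (1, 2), (1, 3), (1, 9), (1, 11), (4, 6), (4, 13), (4, 10), (5, 8)] }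
  rep := [4, 1, 0, 5, 12, 14, 16, 15]

noncomputable def v2198 : Cov.CovD where
  P := 3
  N := 5
  pl := [0, 5, 7, 8]
  lev := [⟨[], [], [(1, 3)], [2], [(1, 3, [0]), (2, 1, [])]⟩,
    ⟨[], [(0, 0), (0, 1), (0, 3)], [(0, 1), (1, 1)], [2], [(2, 1, []), (3, 0, [3, 6]), (4,
      1, [])]⟩,
    ⟨[(0, 1)], [(0, 1), (1, 0), (1, 1)], [], [4], [(2, 1, [])]⟩,
    ⟨[(0, 1), (1, 2)], [(1, 0), (1, 1), (2, 0), (2, 1)], [(0, 0)], [4], [(3, 0, [3, 6]),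
      (6, 0, [3, 6])]⟩,
    ⟨[(1, 3), (2, 3)], [(0, 3), (1, 0), (3, 0), (3, 3)], [(0, 0), (0, 3)], [5], [(1, 3,
      [0]), (3, 0, [3, 6]), (6, 0, [3, 6])]⟩,
    ⟨[(3, 4)], [(0, 3), (3, 0), (4, 0), (4, 3)], [(0, 3)], [7], [(1, 3, [0]), (6, 0, [3,
      6])]⟩,
    ⟨[(3, 4), (4, 5)], [(0, 3), (4, 0), (4, 3), (4, 6), (5, 3)], [(3, 6)], [5], [(1, 3,
      [0]), (9, 6, [0])]⟩]
  Ta := [((2, 1), 1, 3), ((2, 5), 1, 4), ((3, 4), 0, 1), ((3, 7), 0, 5), ((4, 0), 1, 2), ((4, 3),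
    1, 0), ((6, 5), 0, 4), ((6, 8), 0, 7)]
  Tb := [((0, 1, 4), 2, 3, 1), ((1, 0, 2), 3, 2, 1), ((1, 0, 8), 3, 2, 7), ((1, 0, 9), 3, 2, 6),
    ((1, 2, 8), 3, 1, 7), ((1, 2, 9), 3, 1, 6), ((1, 8, 9), 3, 7, 6), ((2, 1, 5), 1, 3, 4),
    ((3, 4, 7), 0, 1, 5), ((4, 0, 3), 1, 2, 0), ((5, 2, 6), 4, 1, 0), ((6, 5, 8), 0, 4, 7),
    ((7, 3, 9), 5, 0, 6), ((8, 1, 6), 7, 3, 0), ((9, 1, 7), 6, 3, 5)]
  Tc := [(0, 3, 6)]
  Td := [((0, 3), (3, 4), 1), ((0, 3), (3, 7), 5), ((0, 3), (6, 5), 4), ((0, 3), (6, 8), 7), ((0,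
    6), (3, 4), 1), ((0, 6), (3, 7), 5), ((0, 6), (6, 5), 4), ((0, 6), (6, 8), 7), ((3, 0),
    (1, 0), 2), ((3, 0), (1, 2), 1), ((3, 0), (1, 8), 7), ((3, 0), (1, 9), 6), ((6, 0), (9,
    1), 3), ((6, 0), (9, 7), 5)]
  G := [[0, 0, 0x9131ab111a6185131671116a14c, 0, 0x11a81d518a618e53b16116756c189], [0,
    0x1141111ac1121111ca681, 0xb13151e2142, 0x28a9f663b51e2141, 0x112b173199e2182], [0, 0,
    0x111e11aa4411a2111e8a8c1162111e464111e116688cc, 0,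
    0x111e84111e18a258111e4315e2c7162131e4a589], [0, 0, 0x111e211a116c612211a11611cea582,
    0x11a821811614621164258111e211a11aac24d, 0x116411a111eac12211a11611cea582]]

noncomputable def n2198 : Ent := ⟨e2198, noF, [], [], []⟩

def c2198 : PLift (Cov.check n2198.C.D v2198 = true) := ⟨by decide +kernel⟩

def b2198 : PLift (entF (fidx ts) 400 2198 n2198 = true) := ⟨by decide +kernel⟩

theorem g2198 : GoodF (fidx ts) 400 2198 := GoodF.ofV v2198 n2198 c2198.down b2198.down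

/-- 4746744:1863/3 -/
noncomputable def e2199 : SCfg where
  D := {
    a := 7
    L := 10
    kp := 7
    inn := [(0, 1), (1, 0), (1, 2), (1, 3), (2, 1), (2, 3), (3, 1), (3, 2), (3, 4), (4, 3), (4, 5), (4,
      6), (5, 4), (6, 4)]
    mix := [(0, 0), (0, 1), (0, 2), (1, 0), (1, 2), (1, 3), (1, 4), (2, 2), (2, 5), (3, 3), (3, 5), (3,
      6), (4, 3), (4, 6), (4, 7), (4, 8), (5, 6), (5, 7), (5, 9), (6, 1), (6, 7), (6, 8)]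
    cl := [2, 4, 1, 0, 1, 5, 0, 3, 6, 7]
    chq := [(0, 3), (0, 4), (3, 0), (4, 0)]
    rng := [(0, 1), (0, 4), (1, 0), (1, 2), (1, 7), (1, 8), (2, 1), (2, 5), (3, 4), (3, 8), (4, 0), (4,
      3), (5, 2), (5, 6), (6, 5), (6, 9), (7, 1), (7, 9), (8, 1), (8, 3), (9, 6), (9, 7)]
    lev := [] }
  links := [[1, 7, 8, 9], [7, 0, 9, 2, 3, 10, 11], [3, 1, 9, 12], [10, 1, 2, 12, 13, 4], [10, 3, 13, 5,
    14, 6, 15], [14, 4, 13, 16], [15, 4, 14, 8]]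
  P := {
    a := 7
    N := 17
    nb := [898, 3725, 4618, 13334, 58472, 90128, 49424, 2307, 49857, 4359, 34842, 1154, 8716, 69688,
      65904, 1360, 24608]
    tri := [(0, 1, 7), (0, 1, 9), (0, 7, 8), (0, 8, 9), (1, 2, 3), (1, 2, 9), (1, 3, 10), (1, 7, 11),
      (1, 10, 11), (2, 3, 12), (2, 9, 12), (3, 4, 10), (3, 4, 13), (3, 12, 13), (4, 5, 13), (4, 5,
      14), (4, 6, 14), (4, 6, 15), (4, 10, 15), (5, 13, 16), (5, 14, 16), (6, 8, 14), (6, 8, 15)]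
    fin := [0, 1, 1, 1, 4, 4, 6, 0, 6, 1, 4, 1, 12, 4, 14, 15, 16]
    chd := [(4, 14), (6, 4)]
    steps := [(0, 7), (1, 2), (1, 3), (1, 9), (1, 11), (4, 5), (4, 13), (4, 10), (6, 8)] }
  rep := [4, 1, 0, 14, 6, 12, 15, 16]

noncomputable def v2199 : Cov.CovD where
  P := 3
  N := 5
  pl := [0, 5, 8, 9]
  lev := [⟨[], [], [(1, 4)], [2], [(1, 4, [0]), (2, 1, [])]⟩,
    ⟨[], [(0, 0), (0, 1), (0, 4)], [(0, 1), (1, 1)], [2], [(2, 1, []), (3, 0, [3, 4]), (4,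
      1, [])]⟩,
    ⟨[(0, 1)], [(0, 1), (1, 0), (1, 1)], [], [5], [(2, 1, [])]⟩,
    ⟨[(0, 1), (1, 2)], [(1, 0), (1, 1), (2, 0), (2, 1)], [(0, 0)], [5], [(3, 0, [3, 4]),
      (6, 0, [3, 4])]⟩,
    ⟨[(1, 3), (2, 3)], [(1, 0), (3, 0), (3, 3)], [(0, 0), (0, 3)], [6], [(3, 0, [3, 4]),
      (6, 0, [3, 4]), (7, 3, [0])]⟩,
    ⟨[(3, 4)], [(3, 0), (4, 0), (4, 3)], [(0, 3)], [7], [(6, 0, [3, 4]), (7, 3, [0])]⟩,
    ⟨[(3, 4), (4, 5)], [(0, 4), (4, 0), (4, 3), (4, 4), (5, 3)], [(3, 4)], [6], [(1, 4,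
      [0]), (7, 3, [0])]⟩]
  Ta := [((2, 1), 1, 4), ((2, 5), 1, 5), ((3, 4), 0, 1), ((3, 8), 0, 6), ((4, 0), 1, 2), ((4, 3),
    1, 0), ((6, 5), 0, 5), ((6, 9), 0, 7)]
  Tb := [((0, 1, 4), 2, 4, 1), ((1, 0, 2), 4, 2, 1), ((1, 0, 7), 4, 2, 3), ((1, 0, 8), 4, 2, 6),
    ((1, 2, 7), 4, 1, 3), ((1, 2, 8), 4, 1, 6), ((1, 7, 8), 4, 3, 6), ((2, 1, 5), 1, 4, 5),
    ((3, 4, 8), 0, 1, 6), ((4, 0, 3), 1, 2, 0), ((5, 2, 6), 5, 1, 0), ((6, 5, 9), 0, 5, 7),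
    ((7, 1, 9), 3, 4, 7), ((8, 1, 3), 6, 4, 0), ((9, 6, 7), 7, 0, 3)]
  Tc := [(0, 3, 4)]
  Td := [((0, 3), (3, 4), 1), ((0, 3), (3, 8), 6), ((0, 3), (6, 5), 5), ((0, 3), (6, 9), 7), ((0,
    4), (3, 4), 1), ((0, 4), (3, 8), 6), ((0, 4), (6, 5), 5), ((0, 4), (6, 9), 7), ((3, 0),
    (7, 1), 4), ((3, 0), (7, 9), 7), ((4, 0), (1, 0), 2), ((4, 0), (1, 2), 1), ((4, 0), (1,
    7), 3), ((4, 0), (1, 8), 6)]
  G := [[0, 0, 0x1151236189881133115ee1414521a6311824e3134111ee18c, 0,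
    0x15513369118135e199155ce181], [0, 0x1141111ac1121111ca681, 0x229b335711e2182,
    0x21221219515318ee141, 0x331b22d711e2182], [0, 0,
    0x181e111ea111e464111e111e6181e8a8c111e111ea411e46414e126111e11caa58c, 0,
    0x1118f1112fa1114f461114f1112f61118f8a581], [0, 0, 0x221e28111e111ec2121e2111e111ec6d42,
    0x111e2112f6111e2212fac1118f1114fc2381, 0x111e4111e221eac122111e111e11cea582]]

noncomputable def n2199 : Ent := ⟨e2199, noF, [], [], []⟩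

def c2199 : PLift (Cov.check n2199.C.D v2199 = true) := ⟨by decide +kernel⟩

def b2199 : PLift (entF (fidx ts) 400 2199 n2199 = true) := ⟨by decide +kernel⟩

theorem g2199 : GoodF (fidx ts) 400 2199 := GoodF.ofV v2199 n2199 c2199.down b2199.down

/-- 4746744:1863 -/
noncomputable def e2200 : SCfg where
  D := {
    a := 7
    L := 11
    kp := 8
    inn := [(0, 1), (1, 0), (1, 2), (1, 3), (2, 1), (2, 3), (3, 1), (3, 2), (3, 4), (4, 3), (4, 5), (4,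
      6), (5, 4), (6, 4)]
    mix := [(0, 0), (0, 1), (0, 2), (1, 0), (1, 2), (1, 3), (1, 4), (2, 2), (2, 5), (3, 3), (3, 5), (3,
      6), (4, 3), (4, 6), (4, 7), (4, 8), (5, 6), (5, 7), (5, 9), (6, 7), (6, 8), (6, 10)]
    cl := [2, 7, 1, 0, 1, 4, 0, 3, 5, 8, 6]
    chq := [(0, 3), (0, 6), (3, 0), (6, 0)]
    rng := [(0, 1), (0, 4), (1, 0), (1, 2), (2, 1), (2, 5), (3, 4), (3, 8), (4, 0), (4, 3), (5, 2), (5,
      6), (6, 5), (6, 9), (7, 9), (7, 10), (8, 3), (8, 10), (9, 6), (9, 7), (10, 7), (10, 8)]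
    lev := [] }
  links := [[1, 7, 8, 9], [7, 0, 9, 2, 3, 10, 11], [3, 1, 9, 12], [10, 1, 2, 12, 13, 4], [10, 3, 13, 5,
    14, 6, 15], [14, 4, 13, 16], [15, 4, 14, 17]]
  P := {
    a := 7
    N := 18
    nb := [898, 3725, 4618, 13334, 58472, 90128, 180240, 2307, 641, 4359, 34842, 1154, 8716, 69688,
      196720, 132176, 24608, 49216]
    tri := [(0, 1, 7), (0, 1, 9), (0, 7, 8), (0, 8, 9), (1, 2, 3), (1, 2, 9), (1, 3, 10), (1, 7, 11),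
      (1, 10, 11), (2, 3, 12), (2, 9, 12), (3, 4, 10), (3, 4, 13), (3, 12, 13), (4, 5, 13), (4, 5,
      14), (4, 6, 14), (4, 6, 15), (4, 10, 15), (5, 13, 16), (5, 14, 16), (6, 14, 17), (6, 15,
      17)]
    fin := [0, 1, 1, 1, 4, 4, 4, 0, 8, 1, 4, 1, 12, 4, 14, 15, 16, 17]
    chd := [(4, 14), (4, 17)]
    steps := [(0, 7), (1, 2), (1, 3), (1, 9), (1, 11), (4, 5), (4, 6), (4, 13), (4, 10)] }
  rep := [4, 1, 0, 14, 12, 15, 17, 8, 16]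

noncomputable def v2200 : Cov.CovD where
  P := 3
  N := 6
  pl := [0, 1, 5, 8, 9]
  lev := [⟨[], [], [], [2, 7], [(2, 1, [])]⟩,
    ⟨[], [(0, 0), (0, 1)], [(0, 1), (1, 1)], [2], [(2, 1, []), (3, 0, [3, 6]), (4, 1, [])]⟩,
    ⟨[(0, 1)], [(0, 1), (1, 0), (1, 1)], [], [4], [(2, 1, [])]⟩,
    ⟨[(0, 1), (1, 2)], [(1, 0), (1, 1), (2, 0), (2, 1)], [(0, 0)], [4], [(3, 0, [3, 6]),
      (6, 0, [3, 6])]⟩,
    ⟨[(1, 3), (2, 3)], [(1, 0), (3, 0), (3, 3)], [(0, 0), (0, 3)], [5], [(3, 0, [3, 6]),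
      (6, 0, [3, 6]), (7, 3, [0])]⟩,
    ⟨[(3, 4)], [(3, 0), (4, 0), (4, 3)], [(0, 3)], [8], [(6, 0, [3, 6]), (7, 3, [0])]⟩,
    ⟨[(3, 4), (4, 5)], [(4, 0), (4, 3), (4, 6), (5, 3)], [(3, 6)], [5], [(7, 3, [0]), (10,
      6, [0])]⟩]
  Ta := [((2, 1), 1, 7), ((2, 5), 1, 4), ((3, 4), 0, 1), ((3, 8), 0, 5), ((4, 0), 1, 2), ((4, 3),
    1, 0), ((6, 5), 0, 4), ((6, 9), 0, 8)]
  Tb := [((0, 1, 4), 2, 7, 1), ((1, 0, 2), 7, 2, 1), ((2, 1, 5), 1, 7, 4), ((3, 4, 8), 0, 1, 5),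
    ((4, 0, 3), 1, 2, 0), ((5, 2, 6), 4, 1, 0), ((6, 5, 9), 0, 4, 8), ((7, 9, 10), 3, 8, 6),
    ((8, 3, 10), 5, 0, 6), ((9, 6, 7), 8, 0, 3), ((10, 7, 8), 6, 3, 5)]
  Tc := [(0, 3, 6)]
  Td := [((0, 3), (3, 4), 1), ((0, 3), (3, 8), 5), ((0, 3), (6, 5), 4), ((0, 3), (6, 9), 8), ((0,
    6), (3, 4), 1), ((0, 6), (3, 8), 5), ((0, 6), (6, 5), 4), ((0, 6), (6, 9), 8), ((3, 0),
    (7, 9), 8), ((3, 0), (7, 10), 6), ((6, 0), (10, 7), 3), ((6, 0), (10, 8), 5)]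
  G := [[0, 0, 0x111d51b9e1168b1173115ee1411372d1111b71e119b51ce18c, 0,
    0x1d5119173e1b9173115e618155133611bd8199117d11ee189], [0, 0x11116118c1121111c6a41,
    0x1b5173119e2182, 0x1b3179115e2181b3175119e214c, 0x1b9173115e2182], [0, 0,
    0x111e111ea111e464111e111e6111e8a8c111e4111e111eac111e2111e111eca58c, 0,
    0x111e111e6111e8a111e111ea111e46c1111e4111e111eac111e2111e111eca589], [0, 0,
    0x111e111e6111e8a122111e111e11ce6942,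
    0x111e111ec2111a21162c25111e111e14e211a24a1111e111ec212211c2a54d,
    0x111e111ea111e46122111e111e11cea582]]

noncomputable def n2200 : Ent := ⟨e2200, noF, [], [], [(8, 16, [7334685537875745012586738086077695515070955365108989538292687702675457, 0]), (8, 14, [7334790875878422277917280412776772662961875900559637987928627378479105, 0]), (8, 17, [6903326391201334775872065844685381424292761054348340378595029938696193, 0])]⟩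

def c2200 : PLift (Cov.check n2200.C.D v2200 = true) := ⟨by decide +kernel⟩

def b2200 : PLift (entF (fidx ts) 400 2200 n2200 = true) := ⟨by decide +kernel⟩

theorem g2200 : GoodF (fidx ts) 400 2200 := GoodF.ofV v2200 n2200 c2200.down b2200.down

/-- 4746744:1864/2 -/
noncomputable def e2201 : SCfg where
  D := {
    a := 7
    L := 9
    kp := 6
    inn := [(0, 1), (1, 0), (1, 2), (1, 3), (2, 1), (2, 3), (3, 1), (3, 2), (3, 4), (4, 3), (4, 5), (4,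
      6), (5, 4), (6, 4)]
    mix := [(0, 0), (0, 1), (0, 2), (1, 0), (1, 2), (1, 3), (1, 4), (2, 2), (2, 5), (3, 3), (3, 5), (3,
      6), (4, 3), (4, 6), (4, 7), (4, 8), (5, 1), (5, 6), (5, 7), (6, 3), (6, 4), (6, 8)]
    cl := [4, 2, 1, 0, 1, 5, 0, 6, 3]
    chq := [(0, 3), (2, 3), (3, 0), (3, 2)]
    rng := [(0, 1), (0, 4), (1, 0), (1, 2), (1, 6), (1, 7), (2, 1), (2, 5), (3, 4), (4, 0), (4, 3), (4,
      8), (5, 2), (5, 6), (6, 1), (6, 5), (7, 1), (7, 8), (8, 4), (8, 7)]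
    lev := [] }
  links := [[1, 7, 8, 9], [7, 0, 9, 2, 3, 10, 11], [3, 1, 9, 12], [10, 1, 2, 12, 13, 4], [10, 3, 13, 5,
    14, 15, 6], [14, 4, 13, 8], [10, 4, 15, 11]]
  P := {
    a := 7
    N := 16
    nb := [898, 3725, 4618, 13334, 58472, 24848, 35856, 2307, 25249, 4359, 2138, 33986, 8716, 4408,
      33072, 18512]
    tri := [(0, 1, 7), (0, 1, 9), (0, 7, 8), (0, 8, 9), (1, 2, 3), (1, 2, 9), (1, 3, 10), (1, 7, 11),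
      (1, 10, 11), (2, 3, 12), (2, 9, 12), (3, 4, 10), (3, 4, 13), (3, 12, 13), (4, 5, 13), (4, 5,
      14), (4, 6, 10), (4, 6, 15), (4, 14, 15), (5, 8, 13), (5, 8, 14), (6, 10, 11), (6, 11, 15)]
    fin := [0, 1, 1, 3, 4, 4, 3, 0, 4, 1, 3, 1, 12, 3, 14, 15]
    chd := [(3, 15), (4, 15)]
    steps := [(0, 7), (1, 2), (1, 9), (1, 11), (3, 13), (3, 10), (3, 6), (4, 5), (4, 8)] }
  rep := [3, 1, 4, 15, 0, 12, 14]

noncomputable def v2201 : Cov.CovD where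
  P := 3
  N := 4
  pl := [0, 5, 7]
  lev := [⟨[], [], [(1, 2)], [4], [(1, 2, [3]), (2, 1, [])]⟩,
    ⟨[], [(0, 0), (0, 1), (0, 2)], [(0, 1), (1, 1)], [4], [(2, 1, []), (3, 0, [3]), (4, 1,
      [])]⟩,
    ⟨[(0, 1)], [(0, 1), (1, 0), (1, 1)], [], [5], [(2, 1, [])]⟩,
    ⟨[(0, 1), (1, 2)], [(1, 0), (1, 1), (2, 0), (2, 1)], [(0, 0)], [5], [(3, 0, [3]), (6,
      0, [3])]⟩,
    ⟨[(1, 3), (2, 3)], [(1, 0), (3, 0), (3, 3)], [(0, 0), (0, 3)], [6], [(3, 0, [3]), (6,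
      0, [3]), (8, 3, [0, 2])]⟩,
    ⟨[(3, 4)], [(0, 2), (3, 0), (4, 0), (4, 2), (4, 3)], [(0, 2)], [6], [(1, 2, [3]), (6,
      0, [3])]⟩,
    ⟨[(3, 4), (4, 5)], [(1, 0), (1, 1), (3, 0), (4, 0), (4, 1), (4, 3)], [(0, 1), (0, 3),
      (1, 3)], [], [(3, 0, [3]), (4, 1, []), (8, 3, [0, 2])]⟩]
  Ta := [((2, 1), 1, 2), ((2, 5), 1, 5), ((3, 4), 0, 1), ((4, 0), 1, 4), ((4, 3), 1, 0), ((4, 8),
    1, 3), ((6, 1), 0, 2), ((6, 5), 0, 5)]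
  Tb := [((0, 1, 4), 4, 2, 1), ((1, 0, 2), 2, 4, 1), ((1, 0, 6), 2, 4, 0), ((1, 0, 7), 2, 4, 6),
    ((1, 2, 6), 2, 1, 0), ((1, 2, 7), 2, 1, 6), ((1, 6, 7), 2, 0, 6), ((2, 1, 5), 1, 2, 5),
    ((4, 0, 3), 1, 4, 0), ((4, 0, 8), 1, 4, 3), ((4, 3, 8), 1, 0, 3), ((5, 2, 6), 5, 1, 0),
    ((6, 1, 5), 0, 2, 5), ((7, 1, 8), 6, 2, 3), ((8, 4, 7), 3, 1, 6)]
  Tc := [(3, 0, 2)]
  Td := [((0, 3), (3, 4), 1), ((0, 3), (6, 1), 2), ((0, 3), (6, 5), 5), ((2, 3), (1, 0), 4), ((2,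
    3), (1, 2), 1), ((2, 3), (1, 6), 0), ((2, 3), (1, 7), 6), ((3, 0), (8, 4), 1), ((3, 0),
    (8, 7), 6), ((3, 2), (8, 4), 1), ((3, 2), (8, 7), 6)]
  G := [[0, 0, 0, 0xcc92214cc922185, 0x812142e21486618284268284162949], [0,
    0x229244225288248296848a28c1a2446ce1, 0, 0, 0x4c348621848c148e214a], [0, 0,
    0x181812e182811ce618244812e282448cea14c, 0x11c24c5c225811c225cc2294c,
    0x42218462828c22a48665828426822a4862949], [0, 0, 0x181441ce218181441ce214c, 0,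
    0x11a1862c1a18962584811a48e24819a48e294a]]

noncomputable def n2201 : Ent := ⟨e2201, noF, [], [], []⟩

def c2201 : PLift (Cov.check n2201.C.D v2201 = true) := ⟨by decide +kernel⟩

def b2201 : PLift (entF (fidx ts) 400 2201 n2201 = true) := ⟨by decide +kernel⟩

theorem g2201 : GoodF (fidx ts) 400 2201 := GoodF.ofV v2201 n2201 c2201.down b2201.down

/-- 4746744:1864/1 -/
noncomputable def e2202 : SCfg where
  D := {
    a := 7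
    L := 10
    kp := 7
    inn := [(0, 1), (1, 0), (1, 2), (1, 3), (2, 1), (2, 3), (3, 1), (3, 2), (3, 4), (4, 3), (4, 5), (4,
      6), (5, 4), (6, 4)]
    mix := [(0, 0), (0, 1), (0, 2), (1, 0), (1, 2), (1, 3), (1, 4), (2, 2), (2, 5), (3, 3), (3, 5), (3,
      6), (4, 3), (4, 6), (4, 7), (4, 8), (5, 1), (5, 6), (5, 7), (6, 3), (6, 8), (6, 9)]
    cl := [2, 5, 1, 0, 1, 6, 0, 3, 4, 7]
    chq := [(0, 3), (0, 4), (3, 0), (4, 0)]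
    rng := [(0, 1), (0, 4), (1, 0), (1, 2), (1, 6), (1, 7), (2, 1), (2, 5), (3, 4), (3, 9), (4, 0), (4,
      3), (5, 2), (5, 6), (6, 1), (6, 5), (7, 1), (7, 8), (8, 7), (8, 9), (9, 3), (9, 8)]
    lev := [] }
  links := [[1, 7, 8, 9], [7, 0, 9, 2, 3, 10, 11], [3, 1, 9, 12], [10, 1, 2, 12, 13, 4], [10, 3, 13, 5,
    14, 15, 6], [14, 4, 13, 8], [10, 4, 15, 16]]
  P := {
    a := 7
    N := 17
    nb := [898, 3725, 4618, 13334, 58472, 24848, 99344, 2307, 25249, 4359, 67674, 1154, 8716, 4408,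
      33072, 82000, 33856]
    tri := [(0, 1, 7), (0, 1, 9), (0, 7, 8), (0, 8, 9), (1, 2, 3), (1, 2, 9), (1, 3, 10), (1, 7, 11),
      (1, 10, 11), (2, 3, 12), (2, 9, 12), (3, 4, 10), (3, 4, 13), (3, 12, 13), (4, 5, 13), (4, 5,
      14), (4, 6, 10), (4, 6, 15), (4, 14, 15), (5, 8, 13), (5, 8, 14), (6, 10, 16), (6, 15, 16)]
    fin := [0, 1, 1, 1, 4, 5, 4, 0, 5, 1, 4, 1, 12, 4, 14, 15, 16]
    chd := [(4, 14), (4, 15)]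
    steps := [(0, 7), (1, 2), (1, 3), (1, 9), (1, 11), (4, 6), (4, 13), (4, 10), (5, 8)] }
  rep := [4, 1, 0, 14, 15, 5, 12, 16]

noncomputable def v2202 : Cov.CovD where
  P := 3
  N := 5
  pl := [0, 1, 5, 9]
  lev := [⟨[], [], [], [2, 5], [(2, 1, [])]⟩,
    ⟨[], [(0, 0), (0, 1)], [(0, 1), (1, 1)], [2], [(2, 1, []), (3, 0, [3, 4]), (4, 1, [])]⟩,
    ⟨[(0, 1)], [(0, 1), (1, 0), (1, 1)], [], [6], [(2, 1, [])]⟩,
    ⟨[(0, 1), (1, 2)], [(1, 0), (1, 1), (2, 0), (2, 1)], [(0, 0)], [6], [(3, 0, [3, 4]),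
      (6, 0, [3, 4])]⟩,
    ⟨[(1, 3), (2, 3)], [(1, 0), (3, 0), (3, 3), (3, 4)], [(0, 0), (0, 3), (0, 4), (3, 4)],
      [], [(3, 0, [3, 4]), (6, 0, [3, 4]), (7, 3, [0]), (8, 4, [0])]⟩,
    ⟨[(3, 4)], [(3, 0), (4, 0), (4, 3), (4, 4)], [(0, 3)], [5], [(6, 0, [3, 4]), (7, 3,
      [0])]⟩,
    ⟨[(3, 4), (4, 5)], [(1, 0), (3, 0), (4, 0), (4, 3), (4, 4)], [(0, 4)], [7], [(3, 0, [3,
      4]), (8, 4, [0])]⟩]
  Ta := [((2, 1), 1, 5), ((2, 5), 1, 6), ((3, 4), 0, 1), ((3, 9), 0, 7), ((4, 0), 1, 2), ((4, 3),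
    1, 0), ((6, 1), 0, 5), ((6, 5), 0, 6)]
  Tb := [((0, 1, 4), 2, 5, 1), ((1, 0, 2), 5, 2, 1), ((1, 0, 6), 5, 2, 0), ((1, 0, 7), 5, 2, 3),
    ((1, 2, 6), 5, 1, 0), ((1, 2, 7), 5, 1, 3), ((1, 6, 7), 5, 0, 3), ((2, 1, 5), 1, 5, 6),
    ((3, 4, 9), 0, 1, 7), ((4, 0, 3), 1, 2, 0), ((5, 2, 6), 6, 1, 0), ((6, 1, 5), 0, 5, 6),
    ((7, 1, 8), 3, 5, 4), ((8, 7, 9), 4, 3, 7), ((9, 3, 8), 7, 0, 4)]
  Tc := [(0, 3, 4)]
  Td := [((0, 3), (3, 4), 1), ((0, 3), (3, 9), 7), ((0, 3), (6, 1), 5), ((0, 3), (6, 5), 6), ((0,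
    4), (3, 4), 1), ((0, 4), (3, 9), 7), ((0, 4), (6, 1), 5), ((0, 4), (6, 5), 6), ((3, 0),
    (7, 1), 5), ((3, 0), (7, 8), 4), ((4, 0), (8, 7), 3), ((4, 0), (8, 9), 7)]
  G := [[0, 0, 0x863e164a3682ba1e91e9ce14e1e1a41343c5e1e1c51e3ca1cc, 0,
    0xe11e965a31e5a1e51e3ce181], [0, 0xe1e16e18ce12e1e1c6a41, 0x2122125a3e63c1ee142,
    0xe12e121e36e3ce141, 0x2122121e31e3c1ee182], [0, 0,
    0x194b11a6388c9227815a18e6943449c6116ac522196b414ea58c, 0,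
    0x1811a12e3851a99ce618531e4111e11deac81526ac634ca589], [0, 0,
    0x119e11cec25224122133e699ecad82, 0x1811a12e42811612a8b44234111ed26d22c71ce8238d,
    0x111e12a11ce465227ace119eca582]]

noncomputable def n2202 : Ent := ⟨e2202, noF, [], [], [(16, 11, [1580044410770990308032078191911707142368668054796088592099353137153, 0])]⟩

def c2202 : PLift (Cov.check n2202.C.D v2202 = true) := ⟨by decide +kernel⟩

def b2202 : PLift (entF (fidx ts) 400 2202 n2202 = true) := ⟨by decide +kernel⟩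

theorem g2202 : GoodF (fidx ts) 400 2202 := GoodF.ofV v2202 n2202 c2202.down b2202.down

/-- 4746744:1864/4 -/
noncomputable def e2203 : SCfg where
  D := {
    a := 7
    L := 9
    kp := 6
    inn := [(0, 1), (1, 0), (1, 2), (1, 3), (2, 1), (2, 3), (3, 1), (3, 2), (3, 4), (4, 3), (4, 5), (4,
      6), (5, 4), (6, 4)]
    mix := [(0, 0), (0, 1), (0, 2), (1, 0), (1, 2), (1, 3), (1, 4), (2, 2), (2, 5), (3, 3), (3, 5), (3,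
      6), (4, 1), (4, 3), (4, 6), (4, 7), (5, 1), (5, 6), (5, 8), (6, 3), (6, 4), (6, 7)]
    cl := [2, 3, 1, 0, 1, 5, 0, 4, 6]
    chq := [(0, 3), (0, 4), (3, 0), (4, 0)]
    rng := [(0, 1), (0, 4), (1, 0), (1, 2), (1, 7), (1, 8), (2, 1), (2, 5), (3, 4), (4, 0), (4, 3), (4,
      7), (5, 2), (5, 6), (6, 5), (6, 8), (7, 1), (7, 4), (8, 1), (8, 6)]
    lev := [] }
  links := [[1, 7, 8, 9], [7, 0, 9, 2, 3, 10, 11], [3, 1, 9, 12], [10, 1, 2, 12, 13, 4], [10, 3, 13, 5,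
    8, 14, 6], [8, 4, 13, 15], [10, 4, 14, 11]]
  P := {
    a := 7
    N := 16
    nb := [898, 3725, 4618, 13334, 25960, 41232, 19472, 2307, 49841, 4359, 2138, 17602, 8716, 36920,
      2384, 8480]
    tri := [(0, 1, 7), (0, 1, 9), (0, 7, 8), (0, 8, 9), (1, 2, 3), (1, 2, 9), (1, 3, 10), (1, 7, 11),
      (1, 10, 11), (2, 3, 12), (2, 9, 12), (3, 4, 10), (3, 4, 13), (3, 12, 13), (4, 5, 8), (4, 5,
      13), (4, 6, 10), (4, 6, 14), (4, 8, 14), (5, 8, 15), (5, 13, 15), (6, 10, 11), (6, 11, 14)]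
    fin := [0, 1, 1, 1, 4, 5, 1, 0, 5, 1, 4, 1, 12, 4, 14, 15]
    chd := [(4, 14), (5, 4)]
    steps := [(0, 7), (1, 2), (1, 3), (1, 9), (1, 11), (4, 13), (4, 10), (1, 6), (5, 8)] }
  rep := [4, 1, 0, 5, 14, 12, 15]

noncomputable def v2203 : Cov.CovD where
  P := 3
  N := 4
  pl := [0, 5, 8]
  lev := [⟨[], [], [(1, 3)], [2], [(1, 3, [0]), (2, 1, [])]⟩,
    ⟨[], [(0, 0), (0, 1), (0, 3)], [(0, 1), (1, 1)], [2], [(2, 1, []), (3, 0, [3, 4]), (4,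
      1, [])]⟩,
    ⟨[(0, 1)], [(0, 1), (1, 0), (1, 1)], [], [5], [(2, 1, [])]⟩,
    ⟨[(0, 1), (1, 2)], [(1, 0), (1, 1), (2, 0), (2, 1)], [(0, 0)], [5], [(3, 0, [3, 4]),
      (6, 0, [3, 4])]⟩,
    ⟨[(1, 3), (2, 3)], [(0, 3), (1, 0), (3, 0), (3, 3), (3, 4)], [(0, 0), (0, 3), (0, 4),
      (3, 4)], [], [(1, 3, [0]), (3, 0, [3, 4]), (6, 0, [3, 4]), (7, 4, [0])]⟩,
    ⟨[(3, 4)], [(0, 3), (3, 0), (4, 0), (4, 3), (4, 4)], [(0, 3)], [6], [(1, 3, [0]), (6,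
      0, [3, 4])]⟩,
    ⟨[(3, 4), (4, 5)], [(1, 0), (1, 1), (3, 0), (4, 0), (4, 1), (4, 3), (4, 4)], [(0, 1),
      (0, 4), (1, 4)], [], [(3, 0, [3, 4]), (4, 1, []), (7, 4, [0])]⟩]
  Ta := [((2, 1), 1, 3), ((2, 5), 1, 5), ((3, 4), 0, 1), ((4, 0), 1, 2), ((4, 3), 1, 0), ((4, 7),
    1, 4), ((6, 5), 0, 5), ((6, 8), 0, 6)]
  Tb := [((0, 1, 4), 2, 3, 1), ((1, 0, 2), 3, 2, 1), ((1, 0, 7), 3, 2, 4), ((1, 0, 8), 3, 2, 6),
    ((1, 2, 7), 3, 1, 4), ((1, 2, 8), 3, 1, 6), ((1, 7, 8), 3, 4, 6), ((2, 1, 5), 1, 3, 5),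
    ((4, 0, 3), 1, 2, 0), ((4, 0, 7), 1, 2, 4), ((4, 3, 7), 1, 0, 4), ((5, 2, 6), 5, 1, 0),
    ((6, 5, 8), 0, 5, 6), ((7, 1, 4), 4, 3, 1), ((8, 1, 6), 6, 3, 0)]
  Tc := [(0, 3, 4)]
  Td := [((0, 3), (3, 4), 1), ((0, 3), (6, 5), 5), ((0, 3), (6, 8), 6), ((0, 4), (3, 4), 1), ((0,
    4), (6, 5), 5), ((0, 4), (6, 8), 6), ((3, 0), (1, 0), 2), ((3, 0), (1, 2), 1), ((3, 0),
    (1, 7), 4), ((3, 0), (1, 8), 6), ((4, 0), (7, 1), 3), ((4, 0), (7, 4), 1)]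
  G := [[0, 0, 0xc128141a618c1241816a14c, 0, 0x11cb222c2434c5e6181], [0,
    0x41216818c2128141c6a41, 0x8141c1e2182, 0x11cd22141, 0x48a846cc5e2182], [0, 0,
    0x42c19a68418b222c12cc69411c596a412242946a58c, 0, 0x21c41cea41c4648ce228c22cca581], [0,
    0, 0x18a111ea84646111e248a846ca582, 0x1114f2559e2c241, 0x14612618a111eac48a14618ce2381]]

noncomputable def n2203 : Ent := ⟨e2203, noF, [], [], []⟩

def c2203 : PLift (Cov.check n2203.C.D v2203 = true) := ⟨by decide +kernel⟩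

def b2203 : PLift (entF (fidx ts) 400 2203 n2203 = true) := ⟨by decide +kernel⟩

theorem g2203 : GoodF (fidx ts) 400 2203 := GoodF.ofV v2203 n2203 c2203.down b2203.down

/-- 4746744:1864/3 -/
noncomputable def e2204 : SCfg where
  D := {
    a := 7
    L := 10
    kp := 7
    inn := [(0, 1), (1, 0), (1, 2), (1, 3), (2, 1), (2, 3), (3, 1), (3, 2), (3, 4), (4, 3), (4, 5), (4,
      6), (5, 4), (6, 4)]
    mix := [(0, 0), (0, 1), (0, 2), (1, 0), (1, 2), (1, 3), (1, 4), (2, 2), (2, 5), (3, 3), (3, 5), (3,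
      6), (4, 1), (4, 3), (4, 6), (4, 7), (5, 1), (5, 6), (5, 8), (6, 3), (6, 7), (6, 9)]
    cl := [2, 3, 1, 0, 1, 4, 0, 5, 7, 6]
    chq := [(0, 3), (3, 0), (3, 6), (6, 3)]
    rng := [(0, 1), (0, 4), (1, 0), (1, 2), (1, 7), (1, 8), (2, 1), (2, 5), (3, 4), (3, 9), (4, 0), (4,
      3), (5, 2), (5, 6), (6, 5), (6, 8), (7, 1), (7, 9), (8, 1), (8, 6), (9, 3), (9, 7)]
    lev := [] }
  links := [[1, 7, 8, 9], [7, 0, 9, 2, 3, 10, 11], [3, 1, 9, 12], [10, 1, 2, 12, 13, 4], [10, 3, 13, 5,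
    8, 14, 6], [8, 4, 13, 15], [10, 4, 14, 16]]
  P := {
    a := 7
    N := 17
    nb := [898, 3725, 4618, 13334, 25960, 41232, 82960, 2307, 49841, 4359, 67674, 1154, 8716, 36920,
      65872, 8480, 17472]
    tri := [(0, 1, 7), (0, 1, 9), (0, 7, 8), (0, 8, 9), (1, 2, 3), (1, 2, 9), (1, 3, 10), (1, 7, 11),
      (1, 10, 11), (2, 3, 12), (2, 9, 12), (3, 4, 10), (3, 4, 13), (3, 12, 13), (4, 5, 8), (4, 5,
      13), (4, 6, 10), (4, 6, 14), (4, 8, 14), (5, 8, 15), (5, 13, 15), (6, 10, 16), (6, 14, 16)]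
    fin := [0, 1, 1, 3, 4, 4, 4, 0, 4, 1, 3, 1, 12, 3, 14, 15, 16]
    chd := [(4, 3), (4, 16)]
    steps := [(0, 7), (1, 2), (1, 9), (1, 11), (3, 13), (3, 10), (4, 5), (4, 6), (4, 8)] }
  rep := [3, 1, 0, 4, 12, 14, 16, 15]

noncomputable def v2204 : Cov.CovD where
  P := 3
  N := 5
  pl := [0, 5, 7, 8]
  lev := [⟨[], [], [(1, 3)], [2], [(1, 3, [0, 6]), (2, 1, [])]⟩,
    ⟨[], [(0, 0), (0, 1), (0, 3)], [(0, 1), (1, 1)], [2], [(2, 1, []), (3, 0, [3]), (4, 1,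
      [])]⟩,
    ⟨[(0, 1)], [(0, 1), (1, 0), (1, 1)], [], [4], [(2, 1, [])]⟩,
    ⟨[(0, 1), (1, 2)], [(1, 0), (1, 1), (2, 0), (2, 1)], [(0, 0)], [4], [(3, 0, [3]), (6,
      0, [3])]⟩,
    ⟨[(1, 3), (2, 3)], [(0, 3), (1, 0), (3, 0), (3, 3)], [(0, 0), (0, 3)], [5], [(1, 3, [0,
      6]), (3, 0, [3]), (6, 0, [3])]⟩,
    ⟨[(3, 4)], [(0, 3), (3, 0), (4, 0), (4, 3)], [(0, 3)], [7], [(1, 3, [0, 6]), (6, 0,
      [3])]⟩,
    ⟨[(3, 4), (4, 5)], [(1, 0), (3, 0), (4, 0), (4, 3), (4, 6)], [(0, 6)], [5], [(3, 0,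
      [3]), (9, 6, [3])]⟩]
  Ta := [((2, 1), 1, 3), ((2, 5), 1, 4), ((3, 4), 0, 1), ((3, 9), 0, 6), ((4, 0), 1, 2), ((4, 3),
    1, 0), ((6, 5), 0, 4), ((6, 8), 0, 7)]
  Tb := [((0, 1, 4), 2, 3, 1), ((1, 0, 2), 3, 2, 1), ((1, 0, 7), 3, 2, 5), ((1, 0, 8), 3, 2, 7),
    ((1, 2, 7), 3, 1, 5), ((1, 2, 8), 3, 1, 7), ((1, 7, 8), 3, 5, 7), ((2, 1, 5), 1, 3, 4),
    ((3, 4, 9), 0, 1, 6), ((4, 0, 3), 1, 2, 0), ((5, 2, 6), 4, 1, 0), ((6, 5, 8), 0, 4, 7),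
    ((7, 1, 9), 5, 3, 6), ((8, 1, 6), 7, 3, 0), ((9, 3, 7), 6, 0, 5)]
  Tc := [(3, 0, 6)]
  Td := [((0, 3), (3, 4), 1), ((0, 3), (3, 9), 6), ((0, 3), (6, 5), 4), ((0, 3), (6, 8), 7), ((3,
    0), (1, 0), 2), ((3, 0), (1, 2), 1), ((3, 0), (1, 7), 5), ((3, 0), (1, 8), 7), ((3, 6),
    (1, 0), 2), ((3, 6), (1, 2), 1), ((3, 6), (1, 7), 5), ((3, 6), (1, 8), 7), ((6, 3), (9,
    3), 0), ((6, 3), (9, 7), 5)]
  G := [[0, 0, 0xc161a4e141a258a1c16e1816618c, 0, 0x5caa111c7e1691a31c5e6181], [0,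
    0xa1461c1acc1261a1ca681, 0x61a1c1e2142, 0x1631a51c9e2181, 0x1491a31c5e2182], [0, 0,
    0x124e41aa4614e82511a288c822412a8e116681a1e14629cc, 0,
    0x624e411ea2a8e46298e415e6121e8a581], [0, 0, 0x116589e644a8c481e214a186c6942,
    0x18652641a18ceac41a11618ce2341, 0x11649a644a896ac14a81641ce2381]]

noncomputable def n2204 : Ent := ⟨e2204, noF, [], [], [(16, 11, [1580044410770990308032078191911707142368668054796088592099353145345, 0])]⟩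

def c2204 : PLift (Cov.check n2204.C.D v2204 = true) := ⟨by decide +kernel⟩

def b2204 : PLift (entF (fidx ts) 400 2204 n2204 = true) := ⟨by decide +kernel⟩

theorem g2204 : GoodF (fidx ts) 400 2204 := GoodF.ofV v2204 n2204 c2204.down b2204.down

/-- 4746744:1864/5 -/
noncomputable def e2205 : SCfg where
  D := {
    a := 7
    L := 10
    kp := 7
    inn := [(0, 1), (1, 0), (1, 2), (1, 3), (2, 1), (2, 3), (3, 1), (3, 2), (3, 4), (4, 3), (4, 5), (4,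
      6), (5, 4), (6, 4)]
    mix := [(0, 0), (0, 1), (0, 2), (1, 0), (1, 2), (1, 3), (1, 4), (2, 2), (2, 5), (3, 3), (3, 5), (3,
      6), (4, 1), (4, 3), (4, 6), (4, 7), (5, 6), (5, 7), (5, 8), (6, 1), (6, 3), (6, 9)]
    cl := [2, 3, 1, 0, 1, 4, 0, 5, 6, 7]
    chq := [(0, 3), (3, 0), (3, 6), (6, 3)]
    rng := [(0, 1), (0, 4), (1, 0), (1, 2), (1, 7), (1, 9), (2, 1), (2, 5), (3, 4), (3, 9), (4, 0), (4,
      3), (5, 2), (5, 6), (6, 5), (6, 8), (7, 1), (7, 8), (8, 6), (8, 7), (9, 1), (9, 3)]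
    lev := [] }
  links := [[1, 7, 8, 9], [7, 0, 9, 2, 3, 10, 11], [3, 1, 9, 12], [10, 1, 2, 12, 13, 4], [10, 3, 13, 5,
    14, 8, 6], [14, 4, 13, 15], [10, 4, 8, 16]]
  P := {
    a := 7
    N := 17
    nb := [898, 3725, 4618, 13334, 25960, 57360, 66832, 2307, 82641, 4359, 67674, 1154, 8716, 36920,
      33072, 24608, 1344]
    tri := [(0, 1, 7), (0, 1, 9), (0, 7, 8), (0, 8, 9), (1, 2, 3), (1, 2, 9), (1, 3, 10), (1, 7, 11),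
      (1, 10, 11), (2, 3, 12), (2, 9, 12), (3, 4, 10), (3, 4, 13), (3, 12, 13), (4, 5, 13), (4, 5,
      14), (4, 6, 8), (4, 6, 10), (4, 8, 14), (5, 13, 15), (5, 14, 15), (6, 8, 16), (6, 10, 16)]
    fin := [0, 1, 1, 3, 4, 4, 4, 0, 4, 1, 3, 1, 12, 3, 14, 15, 16]
    chd := [(4, 3), (4, 15)]
    steps := [(0, 7), (1, 2), (1, 9), (1, 11), (3, 13), (3, 10), (4, 5), (4, 6), (4, 8)] }
  rep := [3, 1, 0, 4, 12, 14, 15, 16]

noncomputable def v2205 : Cov.CovD where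
  P := 3
  N := 5
  pl := [0, 5, 7, 9]
  lev := [⟨[], [], [(1, 3)], [2], [(1, 3, [0, 6]), (2, 1, [])]⟩,
    ⟨[], [(0, 0), (0, 1), (0, 3)], [(0, 1), (1, 1)], [2], [(2, 1, []), (3, 0, [3]), (4, 1,
      [])]⟩,
    ⟨[(0, 1)], [(0, 1), (1, 0), (1, 1)], [], [4], [(2, 1, [])]⟩,
    ⟨[(0, 1), (1, 2)], [(1, 0), (1, 1), (2, 0), (2, 1)], [(0, 0)], [4], [(3, 0, [3]), (6,
      0, [3])]⟩,
    ⟨[(1, 3), (2, 3)], [(0, 3), (1, 0), (3, 0), (3, 3)], [(0, 0), (0, 3)], [5], [(1, 3, [0,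
      6]), (3, 0, [3]), (6, 0, [3])]⟩,
    ⟨[(3, 4)], [(3, 0), (4, 0), (4, 3), (4, 6)], [(0, 6)], [5], [(6, 0, [3]), (8, 6, [3])]⟩,
    ⟨[(3, 4), (4, 5)], [(0, 3), (1, 0), (3, 0), (4, 0), (4, 3)], [(0, 3)], [7], [(1, 3, [0,
      6]), (3, 0, [3])]⟩]
  Ta := [((2, 1), 1, 3), ((2, 5), 1, 4), ((3, 4), 0, 1), ((3, 9), 0, 7), ((4, 0), 1, 2), ((4, 3),
    1, 0), ((6, 5), 0, 4), ((6, 8), 0, 6)]
  Tb := [((0, 1, 4), 2, 3, 1), ((1, 0, 2), 3, 2, 1), ((1, 0, 7), 3, 2, 5), ((1, 0, 9), 3, 2, 7),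
    ((1, 2, 7), 3, 1, 5), ((1, 2, 9), 3, 1, 7), ((1, 7, 9), 3, 5, 7), ((2, 1, 5), 1, 3, 4),
    ((3, 4, 9), 0, 1, 7), ((4, 0, 3), 1, 2, 0), ((5, 2, 6), 4, 1, 0), ((6, 5, 8), 0, 4, 6),
    ((7, 1, 8), 5, 3, 6), ((8, 6, 7), 6, 0, 5), ((9, 1, 3), 7, 3, 0)]
  Tc := [(3, 0, 6)]
  Td := [((0, 3), (3, 4), 1), ((0, 3), (3, 9), 7), ((0, 3), (6, 5), 4), ((0, 3), (6, 8), 6), ((3,
    0), (1, 0), 2), ((3, 0), (1, 2), 1), ((3, 0), (1, 7), 5), ((3, 0), (1, 9), 7), ((3, 6),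
    (1, 0), 2), ((3, 6), (1, 2), 1), ((3, 6), (1, 7), 5), ((3, 6), (1, 9), 7), ((6, 3), (8,
    6), 0), ((6, 3), (8, 7), 5)]
  G := [[0, 0, 0x212a1a4aac681ae1468616682e14e18c, 0, 0x688656a46a9aac6e1ce181], [0,
    0x6caae56e18ce12ac66c9c6a41, 0x212212a468c1ee142, 0x212212a468c1ee181,
    0x212212a4249489ee181], [0, 0, 0x111e14a44142111e8a8c111e1868111e186294c, 0,
    0x11cb411661ceac11c71258f11ce2581], [0, 0, 0x11a2141814ea11611a11ce2942,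
    0x18111e6a48a71661a11cde2941, 0x14611ea1846a461a11cde2582]]

noncomputable def n2205 : Ent := ⟨e2205, noF, [], [], []⟩

def c2205 : PLift (Cov.check n2205.C.D v2205 = true) := ⟨by decide +kernel⟩

def b2205 : PLift (entF (fidx ts) 400 2205 n2205 = true) := ⟨by decide +kernel⟩

theorem g2205 : GoodF (fidx ts) 400 2205 := GoodF.ofV v2205 n2205 c2205.down b2205.down

/-- 4746744:1864/6 -/
noncomputable def e2206 : SCfg where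
  D := {
    a := 7
    L := 10
    kp := 7
    inn := [(0, 1), (1, 0), (1, 2), (1, 3), (2, 1), (2, 3), (3, 1), (3, 2), (3, 4), (4, 3), (4, 5), (4,
      6), (5, 4), (6, 4)]
    mix := [(0, 0), (0, 1), (0, 2), (1, 0), (1, 2), (1, 3), (1, 4), (2, 2), (2, 5), (3, 3), (3, 5), (3,
      6), (4, 3), (4, 6), (4, 7), (4, 8), (5, 6), (5, 7), (5, 9), (6, 3), (6, 4), (6, 8)]
    cl := [2, 6, 1, 0, 1, 5, 0, 3, 4, 7]
    chq := [(0, 3), (0, 4), (3, 0), (4, 0)]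
    rng := [(0, 1), (0, 4), (1, 0), (1, 2), (2, 1), (2, 5), (3, 4), (4, 0), (4, 3), (4, 8), (5, 2), (5,
      6), (6, 5), (6, 9), (7, 8), (7, 9), (8, 4), (8, 7), (9, 6), (9, 7)]
    lev := [] }
  links := [[1, 7, 8, 9], [7, 0, 9, 2, 3, 10, 11], [3, 1, 9, 12], [10, 1, 2, 12, 13, 4], [10, 3, 13, 5,
    14, 15, 6], [14, 4, 13, 16], [10, 4, 15, 11]]
  P := {
    a := 7
    N := 17
    nb := [898, 3725, 4618, 13334, 58472, 90128, 35856, 2307, 641, 4359, 2138, 33986, 8716, 69688,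
      98352, 18512, 24608]
    tri := [(0, 1, 7), (0, 1, 9), (0, 7, 8), (0, 8, 9), (1, 2, 3), (1, 2, 9), (1, 3, 10), (1, 7, 11),
      (1, 10, 11), (2, 3, 12), (2, 9, 12), (3, 4, 10), (3, 4, 13), (3, 12, 13), (4, 5, 13), (4, 5,
      14), (4, 6, 10), (4, 6, 15), (4, 14, 15), (5, 13, 16), (5, 14, 16), (6, 10, 11), (6, 11,
      15)]
    fin := [0, 1, 1, 1, 4, 4, 1, 0, 8, 1, 4, 1, 12, 4, 14, 15, 16]
    chd := [(4, 14), (4, 15)]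
    steps := [(0, 7), (1, 2), (1, 3), (1, 9), (1, 11), (4, 5), (4, 13), (4, 10), (1, 6)] }
  rep := [4, 1, 0, 14, 15, 12, 8, 16]

noncomputable def v2206 : Cov.CovD where
  P := 3
  N := 5
  pl := [0, 1, 5, 9]
  lev := [⟨[], [], [], [2, 6], [(2, 1, [])]⟩,
    ⟨[], [(0, 0), (0, 1)], [(0, 1), (1, 1)], [2], [(2, 1, []), (3, 0, [3, 4]), (4, 1, [])]⟩,
    ⟨[(0, 1)], [(0, 1), (1, 0), (1, 1)], [], [5], [(2, 1, [])]⟩,
    ⟨[(0, 1), (1, 2)], [(1, 0), (1, 1), (2, 0), (2, 1)], [(0, 0)], [5], [(3, 0, [3, 4]),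
      (6, 0, [3, 4])]⟩,
    ⟨[(1, 3), (2, 3)], [(1, 0), (3, 0), (3, 3), (3, 4)], [(0, 0), (0, 3), (0, 4), (3, 4)],
      [], [(3, 0, [3, 4]), (6, 0, [3, 4]), (7, 3, [0]), (8, 4, [0])]⟩,
    ⟨[(3, 4)], [(3, 0), (4, 0), (4, 3), (4, 4)], [(0, 3)], [7], [(6, 0, [3, 4]), (7, 3,
      [0])]⟩,
    ⟨[(3, 4), (4, 5)], [(1, 0), (1, 1), (3, 0), (4, 0), (4, 1), (4, 3), (4, 4)], [(0, 1),
      (0, 4), (1, 4)], [], [(3, 0, [3, 4]), (4, 1, []), (8, 4, [0])]⟩]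
  Ta := [((2, 1), 1, 6), ((2, 5), 1, 5), ((3, 4), 0, 1), ((4, 0), 1, 2), ((4, 3), 1, 0), ((4, 8),
    1, 4), ((6, 5), 0, 5), ((6, 9), 0, 7)]
  Tb := [((0, 1, 4), 2, 6, 1), ((1, 0, 2), 6, 2, 1), ((2, 1, 5), 1, 6, 5), ((4, 0, 3), 1, 2, 0),
    ((4, 0, 8), 1, 2, 4), ((4, 3, 8), 1, 0, 4), ((5, 2, 6), 5, 1, 0), ((6, 5, 9), 0, 5, 7),
    ((7, 8, 9), 3, 4, 7), ((8, 4, 7), 4, 1, 3), ((9, 6, 7), 7, 0, 3)]
  Tc := [(0, 3, 4)]
  Td := [((0, 3), (3, 4), 1), ((0, 3), (6, 5), 5), ((0, 3), (6, 9), 7), ((0, 4), (3, 4), 1), ((0,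
    4), (6, 5), 5), ((0, 4), (6, 9), 7), ((3, 0), (7, 8), 4), ((3, 0), (7, 9), 7), ((4, 0),
    (8, 4), 1), ((4, 0), (8, 7), 3)]
  G := [[0, 0, 0x21414c8be28c1a2442cce14212148cee8122c81cdea14c, 0,
    0x812111cbe214111cde61842222c211c5e8121c88dee189], [0, 0x41216818c2128141c6a41,
    0x8851431c9e2142, 0x814111cde218814111cde2145, 0x8834491c5e2182], [0, 0,
    0x42c115e622c8cc2222c22c41ce69412c422c115eac492228c12c48cea1cc, 0,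
    0x42c48ce622c8a28c48cea22c46c128c189ea42c4622c189e628c8a589], [0, 0,
    0x111e411ec2181e24111e2514e194ecad82,
    0x14415ea1852ac418d423441c126818c118da23818828412a41c41c66c8d,
    0x118e481ea118e46c22588e111e48cea582]]

noncomputable def n2206 : Ent := ⟨e2206, noF, [], [], [(8, 16, [1580044410770988437309982408355971841652082177953823432505698127873, 0]), (8, 14, [1685382413448253767852309107433119732572617628602273068445373935617, 0])]⟩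

def c2206 : PLift (Cov.check n2206.C.D v2206 = true) := ⟨by decide +kernel⟩

def b2206 : PLift (entF (fidx ts) 400 2206 n2206 = true) := ⟨by decide +kernel⟩

theorem g2206 : GoodF (fidx ts) 400 2206 := GoodF.ofV v2206 n2206 c2206.down b2206.down

/-- 4746744:1864 -/
noncomputable def e2207 : SCfg where
  D := {
    a := 7
    L := 11
    kp := 8
    inn := [(0, 1), (1, 0), (1, 2), (1, 3), (2, 1), (2, 3), (3, 1), (3, 2), (3, 4), (4, 3), (4, 5), (4,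
      6), (5, 4), (6, 4)]
    mix := [(0, 0), (0, 1), (0, 2), (1, 0), (1, 2), (1, 3), (1, 4), (2, 2), (2, 5), (3, 3), (3, 5), (3,
      6), (4, 3), (4, 6), (4, 7), (4, 8), (5, 6), (5, 7), (5, 9), (6, 3), (6, 8), (6, 10)]
    cl := [2, 7, 1, 0, 1, 4, 0, 3, 5, 8, 6]
    chq := [(0, 3), (3, 0), (3, 6), (6, 3)]
    rng := [(0, 1), (0, 4), (1, 0), (1, 2), (2, 1), (2, 5), (3, 4), (3, 10), (4, 0), (4, 3), (5, 2),
      (5, 6), (6, 5), (6, 9), (7, 8), (7, 9), (8, 7), (8, 10), (9, 6), (9, 7), (10, 3), (10, 8)]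
    lev := [] }
  links := [[1, 7, 8, 9], [7, 0, 9, 2, 3, 10, 11], [3, 1, 9, 12], [10, 1, 2, 12, 13, 4], [10, 3, 13, 5,
    14, 15, 6], [14, 4, 13, 16], [10, 4, 15, 17]]
  P := {
    a := 7
    N := 18
    nb := [898, 3725, 4618, 13334, 58472, 90128, 164880, 2307, 641, 4359, 133210, 1154, 8716, 69688,
      98352, 147536, 24608, 33856]
    tri := [(0, 1, 7), (0, 1, 9), (0, 7, 8), (0, 8, 9), (1, 2, 3), (1, 2, 9), (1, 3, 10), (1, 7, 11),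
      (1, 10, 11), (2, 3, 12), (2, 9, 12), (3, 4, 10), (3, 4, 13), (3, 12, 13), (4, 5, 13), (4, 5,
      14), (4, 6, 10), (4, 6, 15), (4, 14, 15), (5, 13, 16), (5, 14, 16), (6, 10, 17), (6, 15,
      17)]
    fin := [0, 1, 1, 3, 4, 3, 4, 0, 8, 1, 3, 1, 12, 3, 4, 15, 16, 17]
    chd := [(3, 4), (4, 17)]
    steps := [(0, 7), (1, 2), (1, 9), (1, 11), (3, 13), (3, 5), (3, 10), (4, 6), (4, 14)] }
  rep := [3, 1, 0, 4, 12, 15, 17, 8, 16]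

noncomputable def v2207 : Cov.CovD where
  P := 3
  N := 6
  pl := [0, 1, 5, 8, 9]
  lev := [⟨[], [], [], [2, 7], [(2, 1, [])]⟩,
    ⟨[], [(0, 0), (0, 1)], [(0, 1), (1, 1)], [2], [(2, 1, []), (3, 0, [3]), (4, 1, [])]⟩,
    ⟨[(0, 1)], [(0, 1), (1, 0), (1, 1)], [], [4], [(2, 1, [])]⟩,
    ⟨[(0, 1), (1, 2)], [(1, 0), (1, 1), (2, 0), (2, 1)], [(0, 0)], [4], [(3, 0, [3]), (6,
      0, [3])]⟩,
    ⟨[(1, 3), (2, 3)], [(1, 0), (3, 0), (3, 3)], [(0, 0), (0, 3)], [5], [(3, 0, [3]), (6,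
      0, [3]), (7, 3, [0, 6])]⟩,
    ⟨[(3, 4)], [(3, 0), (4, 0), (4, 3)], [(0, 3)], [8], [(6, 0, [3]), (7, 3, [0, 6])]⟩,
    ⟨[(3, 4), (4, 5)], [(1, 0), (3, 0), (4, 0), (4, 3), (4, 6)], [(0, 6)], [5], [(3, 0,
      [3]), (10, 6, [3])]⟩]
  Ta := [((2, 1), 1, 7), ((2, 5), 1, 4), ((3, 4), 0, 1), ((3, 10), 0, 6), ((4, 0), 1, 2), ((4,
    3), 1, 0), ((6, 5), 0, 4), ((6, 9), 0, 8)]
  Tb := [((0, 1, 4), 2, 7, 1), ((1, 0, 2), 7, 2, 1), ((2, 1, 5), 1, 7, 4), ((3, 4, 10), 0, 1, 6),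
    ((4, 0, 3), 1, 2, 0), ((5, 2, 6), 4, 1, 0), ((6, 5, 9), 0, 4, 8), ((7, 8, 9), 3, 5, 8),
    ((8, 7, 10), 5, 3, 6), ((9, 6, 7), 8, 0, 3), ((10, 3, 8), 6, 0, 5)]
  Tc := [(3, 0, 6)]
  Td := [((0, 3), (3, 4), 1), ((0, 3), (3, 10), 6), ((0, 3), (6, 5), 4), ((0, 3), (6, 9), 8),
    ((3, 0), (7, 8), 5), ((3, 0), (7, 9), 8), ((3, 6), (7, 8), 5), ((3, 6), (7, 9), 8), ((6,
    3), (10, 3), 0), ((6, 3), (10, 8), 5)]
  G := [[0, 0, 0x1691a361c7e1691a31c5e6181651a31c9e1631a91c5ea14c, 0,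
    0x1691a31c5e1631a91c5e618169841a51c3661ea31c5ea589], [0, 0xa1461c1acc1261a1ca681,
    0x1631a51c9e2142, 0x1631a51c9e2141631a51c9e2185, 0x1631a91c5e2182], [0, 0,
    0x218e485e6121e8c489e2124e211ec694524e181ea218e464211e189e6524e8a8cc, 0,
    0x111e419ea4325e111e48ce252a8ec26889521e18cea211e46231e489e6114e8a589], [0, 0,
    0x124e489ea211e46181e2624e118eca582,
    0x1448ce68116e239ec294524e918ec212249441c62d8122624e18a181eec28d,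
    0x124e481ea218e4641ce2311e1a1eca582]]

noncomputable def n2207 : Ent := ⟨e2207, noF, [], [], [(8, 16, [7334685537875745012586738086077695515070955365108989538292687702695937, 0]), (8, 14, [7334790875878422277917280412776772662961875900559637987928627378503681, 0]), (8, 15, [7334790850167413569773436004105379185503274260204390087403942013685761, 0]), (17, 11, [6903326391201334778116932359625648306653620957400551096786542324736001, 0])]⟩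

def c2207 : PLift (Cov.check n2207.C.D v2207 = true) := ⟨by decide +kernel⟩

def b2207 : PLift (entF (fidx ts) 400 2207 n2207 = true) := ⟨by decide +kernel⟩

theorem g2207 : GoodF (fidx ts) 400 2207 := GoodF.ofV v2207 n2207 c2207.down b2207.down

/-- 4694546:1872/2 -/
noncomputable def e2208 : SCfg where
  D := {
    a := 7
    L := 9
    kp := 6
    inn := [(0, 1), (0, 2), (0, 6), (1, 0), (1, 6), (2, 0), (2, 3), (2, 4), (2, 5), (2, 6), (3, 2), (3,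
      4), (4, 2), (4, 3), (5, 2), (6, 0), (6, 1), (6, 2)]
    mix := [(0, 0), (1, 0), (1, 1), (1, 2), (1, 3), (2, 0), (2, 4), (2, 5), (2, 6), (3, 4), (3, 7), (4,
      2), (4, 5), (4, 7), (5, 0), (5, 1), (5, 6), (6, 3), (6, 4), (6, 8)]
    cl := [3, 4, 1, 3, 0, 0, 2, 5, 6]
    chq := [(0, 3), (0, 4), (3, 0), (4, 0)]
    rng := [(0, 1), (1, 0), (1, 2), (1, 6), (2, 1), (2, 3), (2, 5), (2, 7), (3, 2), (3, 8), (4, 7), (4,
      8), (5, 2), (5, 6), (6, 1), (6, 5), (7, 2), (7, 4), (8, 3), (8, 4)]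
    lev := [] }
  links := [[1, 6, 2, 7], [6, 0, 7, 8, 9, 10], [7, 0, 6, 11, 3, 4, 12, 13, 5], [4, 2, 11, 14], [12, 2, 3,
    14, 9], [7, 2, 13, 8], [11, 2, 0, 1, 10, 15]]
  P := {
    a := 7
    N := 16
    nb := [198, 1985, 14585, 18452, 21004, 8580, 35847, 295, 8866, 21778, 33346, 49228, 8724, 4388,
      2584, 3136]
    tri := [(0, 1, 6), (0, 1, 7), (0, 2, 6), (0, 2, 7), (1, 6, 10), (1, 7, 8), (1, 8, 9), (1, 9, 10),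
      (2, 3, 4), (2, 3, 11), (2, 4, 12), (2, 5, 7), (2, 5, 13), (2, 6, 11), (2, 12, 13), (3, 4,
      14), (3, 11, 14), (4, 9, 12), (4, 9, 14), (5, 7, 8), (5, 8, 13), (6, 10, 15), (6, 11, 15)]
    fin := [0, 0, 2, 3, 3, 5, 0, 0, 5, 3, 0, 2, 2, 13, 14, 15]
    chd := [(0, 2), (5, 2)]
    steps := [(0, 1), (0, 6), (0, 7), (0, 10), (2, 11), (2, 12), (3, 4), (3, 9), (5, 8)] }
  rep := [2, 3, 13, 0, 5, 14, 15]

noncomputable def v2208 : Cov.CovD where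
  P := 3
  N := 4
  pl := [2, 6, 7, 8]
  lev := [⟨[], [], [], [], [(0, 3, [0])]⟩,
    ⟨[], [(0, 3), (0, 4)], [(3, 3), (3, 4)], [1], [(0, 3, [0]), (1, 4, [0]), (3, 3, [0])]⟩,
    ⟨[(0, 1)], [(0, 0), (0, 3), (1, 3)], [(0, 0), (0, 3)], [2], [(0, 3, [0]), (4, 0, [3,
      4]), (5, 0, [3, 4])]⟩,
    ⟨[(0, 2)], [(2, 0), (2, 3)], [], [5], [(4, 0, [3, 4])]⟩,
    ⟨[(0, 2), (2, 3)], [(2, 0), (2, 3), (3, 0)], [], [1, 5], [(5, 0, [3, 4])]⟩,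
    ⟨[(0, 2), (2, 3), (2, 4)], [(0, 3), (1, 3), (1, 4), (2, 0), (2, 3), (2, 4)], [(3, 4)],
      [2], [(0, 3, [0]), (1, 4, [0])]⟩,
    ⟨[(0, 1), (0, 2), (1, 2), (2, 3), (2, 4), (2, 5)], [(0, 0), (0, 3), (1, 0), (1, 3), (1,
      4), (2, 0), (2, 3), (3, 0)], [(0, 3)], [6], [(3, 3, [0]), (4, 0, [3, 4])]⟩]
  Ta := [((0, 1), 3, 4), ((3, 2), 3, 1), ((3, 8), 3, 6), ((4, 7), 0, 5), ((4, 8), 0, 6), ((5, 2),
    0, 1), ((5, 6), 0, 2)]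
  Tb := [((1, 0, 2), 4, 3, 1), ((1, 0, 6), 4, 3, 2), ((1, 2, 6), 4, 1, 2), ((2, 1, 3), 1, 4, 3),
    ((2, 1, 5), 1, 4, 0), ((2, 1, 7), 1, 4, 5), ((2, 3, 5), 1, 3, 0), ((2, 3, 7), 1, 3, 5),
    ((2, 5, 7), 1, 0, 5), ((3, 2, 8), 3, 1, 6), ((4, 7, 8), 0, 5, 6), ((5, 2, 6), 0, 1, 2),
    ((6, 1, 5), 2, 4, 0), ((7, 2, 4), 5, 1, 0), ((8, 3, 4), 6, 3, 0)]
  Tc := [(0, 3, 4)]
  Td := [((0, 3), (4, 7), 5), ((0, 3), (4, 8), 6), ((0, 3), (5, 2), 1), ((0, 3), (5, 6), 2), ((0,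
    4), (4, 7), 5), ((0, 4), (4, 8), 6), ((0, 4), (5, 2), 1), ((0, 4), (5, 6), 2), ((3, 0),
    (0, 1), 4), ((3, 0), (3, 2), 1), ((3, 0), (3, 8), 6), ((4, 0), (1, 0), 3), ((4, 0), (1,
    2), 1), ((4, 0), (1, 6), 2)]
  G := [[0, 0, 0, 0x614681a8a41a11a4411414a818814acd2, 0x68468168c1c1c12c18c11c2d2], [0, 0, 0,
    0xa14a81a4644c1168ea98e11a4d2, 0xe18ea94c21711681a8628d1168c6], [0,
    0x6861618a1a4a144141a1818161ce1, 0x48ce48cec1211, 0x6168c18a1a1c144141c18181c1cd2,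
    0xa1a1c1246168c18c1c1c1296], [0, 0x118112a411811264118112a4e8, 0xe28a249e44e4ec1618,
    0xa88d11a4d4464168e141e181cd2, 0xa18a84c2e1e1c1296116143846]]

noncomputable def n2208 : Ent := ⟨e2208, noF, [], [], []⟩

def c2208 : PLift (Cov.check n2208.C.D v2208 = true) := ⟨by decide +kernel⟩

def b2208 : PLift (entF (fidx ts) 400 2208 n2208 = true) := ⟨by decide +kernel⟩

theorem g2208 : GoodF (fidx ts) 400 2208 := GoodF.ofV v2208 n2208 c2208.down b2208.down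

/-- 4694546:1872/1 -/
noncomputable def e2209 : SCfg where
  D := {
    a := 7
    L := 10
    kp := 7
    inn := [(0, 1), (0, 2), (0, 6), (1, 0), (1, 6), (2, 0), (2, 3), (2, 4), (2, 5), (2, 6), (3, 2), (3,
      4), (4, 2), (4, 3), (5, 2), (6, 0), (6, 1), (6, 2)]
    mix := [(0, 0), (1, 0), (1, 1), (1, 2), (1, 3), (2, 0), (2, 4), (2, 5), (2, 6), (3, 4), (3, 7), (4,
      5), (4, 7), (4, 8), (5, 0), (5, 1), (5, 6), (6, 3), (6, 4), (6, 9)]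
    cl := [3, 4, 5, 3, 0, 0, 1, 2, 6, 7]
    chq := [(0, 3), (0, 4), (3, 0), (4, 0)]
    rng := [(0, 1), (1, 0), (1, 2), (1, 6), (2, 1), (2, 3), (3, 2), (3, 9), (4, 7), (4, 9), (5, 6), (5,
      8), (6, 1), (6, 5), (7, 4), (7, 8), (8, 5), (8, 7), (9, 3), (9, 4)]
    lev := [] }
  links := [[1, 6, 2, 7], [6, 0, 7, 8, 9, 10], [7, 0, 6, 11, 3, 4, 12, 13, 5], [4, 2, 11, 14], [12, 2, 3,
    14, 15], [7, 2, 13, 8], [11, 2, 0, 1, 10, 16]]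
  P := {
    a := 7
    N := 17
    nb := [198, 1985, 14585, 18452, 53260, 8580, 68615, 295, 8866, 1282, 66114, 81996, 40980, 4388,
      34840, 20496, 3136]
    tri := [(0, 1, 6), (0, 1, 7), (0, 2, 6), (0, 2, 7), (1, 6, 10), (1, 7, 8), (1, 8, 9), (1, 9, 10),
      (2, 3, 4), (2, 3, 11), (2, 4, 12), (2, 5, 7), (2, 5, 13), (2, 6, 11), (2, 12, 13), (3, 4,
      14), (3, 11, 14), (4, 12, 15), (4, 14, 15), (5, 7, 8), (5, 8, 13), (6, 10, 16), (6, 11, 16)]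
    fin := [0, 0, 2, 3, 3, 2, 0, 0, 2, 9, 0, 3, 3, 13, 14, 15, 16]
    chd := [(0, 3), (2, 3)]
    steps := [(0, 1), (0, 6), (0, 7), (0, 10), (2, 5), (2, 8), (3, 4), (3, 11), (3, 12)] }
  rep := [3, 13, 14, 0, 2, 9, 15, 16]

noncomputable def v2209 : Cov.CovD where
  P := 3
  N := 5
  pl := [2, 6, 7, 8, 9]
  lev := [⟨[], [], [], [], [(0, 3, [0])]⟩,
    ⟨[], [(0, 3), (0, 4)], [(3, 3), (3, 4)], [5], [(0, 3, [0]), (1, 4, [0]), (3, 3, [0])]⟩,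
    ⟨[(0, 1)], [(0, 0), (0, 3), (1, 3)], [(0, 0), (0, 3)], [1], [(0, 3, [0]), (4, 0, [3,
      4]), (5, 0, [3, 4])]⟩,
    ⟨[(0, 2)], [(2, 0), (2, 3)], [], [2], [(4, 0, [3, 4])]⟩,
    ⟨[(0, 2), (2, 3)], [(2, 0), (2, 3), (3, 0)], [], [2, 6], [(5, 0, [3, 4])]⟩,
    ⟨[(0, 2), (2, 3), (2, 4)], [(0, 3), (1, 3), (1, 4), (2, 0), (2, 3), (2, 4)], [(3, 4)],
      [1], [(0, 3, [0]), (1, 4, [0])]⟩,
    ⟨[(0, 1), (0, 2), (1, 2), (2, 3), (2, 4), (2, 5)], [(0, 0), (0, 3), (1, 0), (1, 3), (1,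
      4), (2, 0), (2, 3), (3, 0)], [(0, 3)], [7], [(3, 3, [0]), (4, 0, [3, 4])]⟩]
  Ta := [((0, 1), 3, 4), ((3, 2), 3, 5), ((3, 9), 3, 7), ((4, 7), 0, 2), ((4, 9), 0, 7), ((5, 6),
    0, 1), ((5, 8), 0, 6)]
  Tb := [((1, 0, 2), 4, 3, 5), ((1, 0, 6), 4, 3, 1), ((1, 2, 6), 4, 5, 1), ((2, 1, 3), 5, 4, 3),
    ((3, 2, 9), 3, 5, 7), ((4, 7, 9), 0, 2, 7), ((5, 6, 8), 0, 1, 6), ((6, 1, 5), 1, 4, 0),
    ((7, 4, 8), 2, 0, 6), ((8, 5, 7), 6, 0, 2), ((9, 3, 4), 7, 3, 0)]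
  Tc := [(0, 3, 4)]
  Td := [((0, 3), (4, 7), 2), ((0, 3), (4, 9), 7), ((0, 3), (5, 6), 1), ((0, 3), (5, 8), 6), ((0,
    4), (4, 7), 2), ((0, 4), (4, 9), 7), ((0, 4), (5, 6), 1), ((0, 4), (5, 8), 6), ((3, 0),
    (0, 1), 4), ((3, 0), (3, 2), 5), ((3, 0), (3, 9), 7), ((4, 0), (1, 0), 3), ((4, 0), (1,
    2), 5), ((4, 0), (1, 6), 1)]
  G := [[0, 0, 0x6861648a1a46844141c48181a4c4141a28181a4cf1,
    0x41148281144268148a418441148118cdb, 0x41128141128112c268128a412481124db], [0, 0,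
    0xe1e1a84e1e1628e1e1a84e1e1648f1, 0xe11482e8184e1148e1184d6, 0xe11842e8124e1128e1128da],
    [0, 0x684128884888e2441a4818444ec2c2c4262c41a48288c4ca8c6c4ef1, 0,
    0x4141c18181c8c2616868d48a4a1a4d844141c1814818ccd3,
    0x4141a28181a8c2616868b28a4a4a844141a18181a2cd3], [0,
    0x1818c821414c821212c82e222c8e4ce4ec46f8, 0, 0x7148e881cb4b1c8414441111c1d8ce141e188cf2,
    0x7871a24b4b4a2471e1a24e1e1a14f8]]

noncomputable def n2209 : Ent := ⟨e2209, noF, [], [], [(9, 15, [1685356702439545624007900436039642273970977273354372543760009134081, 0])]⟩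

def c2209 : PLift (Cov.check n2209.C.D v2209 = true) := ⟨by decide +kernel⟩

def b2209 : PLift (entF (fidx ts) 400 2209 n2209 = true) := ⟨by decide +kernel⟩

theorem g2209 : GoodF (fidx ts) 400 2209 := GoodF.ofV v2209 n2209 c2209.down b2209.down

/-- 4694546:1872/3 -/
noncomputable def e2210 : SCfg where
  D := {
    a := 7
    L := 10
    kp := 7
    inn := [(0, 1), (0, 2), (0, 6), (1, 0), (1, 6), (2, 0), (2, 3), (2, 4), (2, 5), (2, 6), (3, 2), (3,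
      4), (4, 2), (4, 3), (5, 2), (6, 0), (6, 1), (6, 2)]
    mix := [(0, 0), (1, 0), (1, 1), (1, 2), (1, 3), (2, 0), (2, 4), (2, 5), (2, 6), (3, 4), (3, 7), (4,
      2), (4, 5), (4, 7), (5, 0), (5, 6), (5, 8), (6, 3), (6, 4), (6, 9)]
    cl := [3, 6, 1, 3, 0, 0, 2, 4, 5, 7]
    chq := [(0, 3), (0, 5), (3, 0), (5, 0)]
    rng := [(0, 1), (0, 8), (1, 0), (1, 2), (2, 1), (2, 3), (2, 5), (2, 7), (3, 2), (3, 9), (4, 7), (4,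
      9), (5, 2), (5, 6), (6, 5), (6, 8), (7, 2), (7, 4), (8, 0), (8, 6), (9, 3), (9, 4)]
    lev := [] }
  links := [[1, 6, 2, 7], [6, 0, 7, 8, 9, 10], [7, 0, 6, 11, 3, 4, 12, 13, 5], [4, 2, 11, 14], [12, 2, 3,
    14, 9], [7, 2, 13, 15], [11, 2, 0, 1, 10, 16]]
  P := {
    a := 7
    N := 17
    nb := [198, 1985, 14585, 18452, 21004, 41092, 68615, 33063, 642, 21778, 66114, 81996, 8724, 36900,
      2584, 8352, 3136]
    tri := [(0, 1, 6), (0, 1, 7), (0, 2, 6), (0, 2, 7), (1, 6, 10), (1, 7, 8), (1, 8, 9), (1, 9, 10),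
      (2, 3, 4), (2, 3, 11), (2, 4, 12), (2, 5, 7), (2, 5, 13), (2, 6, 11), (2, 12, 13), (3, 4,
      14), (3, 11, 14), (4, 9, 12), (4, 9, 14), (5, 7, 15), (5, 13, 15), (6, 10, 16), (6, 11, 16)]
    fin := [0, 0, 2, 3, 3, 2, 0, 0, 8, 3, 0, 2, 2, 13, 14, 15, 16]
    chd := [(0, 2), (2, 15)]
    steps := [(0, 1), (0, 6), (0, 7), (0, 10), (2, 5), (2, 11), (2, 12), (3, 4), (3, 9)] }
  rep := [2, 3, 13, 0, 14, 15, 8, 16]

noncomputable def v2210 : Cov.CovD where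
  P := 3
  N := 5
  pl := [1, 2, 6, 7, 9]
  lev := [⟨[], [], [], [], [(0, 3, [0])]⟩,
    ⟨[], [(0, 3)], [(3, 3)], [1, 6], [(0, 3, [0]), (3, 3, [0])]⟩,
    ⟨[(0, 1)], [(0, 0), (0, 3), (1, 3)], [(0, 0), (0, 3)], [2], [(0, 3, [0]), (4, 0, [3,
      5]), (5, 0, [3, 5])]⟩,
    ⟨[(0, 2)], [(2, 0), (2, 3)], [], [4], [(4, 0, [3, 5])]⟩,
    ⟨[(0, 2), (2, 3)], [(2, 0), (2, 3), (3, 0)], [], [1, 4], [(5, 0, [3, 5])]⟩,
    ⟨[(0, 2), (2, 3), (2, 4)], [(0, 3), (1, 3), (2, 0), (2, 3), (2, 5)], [(3, 5)], [2],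
      [(0, 3, [0]), (8, 5, [0])]⟩,
    ⟨[(0, 1), (0, 2), (1, 2), (2, 3), (2, 4), (2, 5)], [(0, 0), (0, 3), (1, 0), (1, 3), (2,
      0), (2, 3), (3, 0)], [(0, 3)], [7], [(3, 3, [0]), (4, 0, [3, 5])]⟩]
  Ta := [((0, 1), 3, 6), ((0, 8), 3, 5), ((3, 2), 3, 1), ((3, 9), 3, 7), ((4, 7), 0, 4), ((4, 9),
    0, 7), ((5, 2), 0, 1), ((5, 6), 0, 2)]
  Tb := [((0, 1, 8), 3, 6, 5), ((1, 0, 2), 6, 3, 1), ((2, 1, 3), 1, 6, 3), ((2, 1, 5), 1, 6, 0),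
    ((2, 1, 7), 1, 6, 4), ((2, 3, 5), 1, 3, 0), ((2, 3, 7), 1, 3, 4), ((2, 5, 7), 1, 0, 4),
    ((3, 2, 9), 3, 1, 7), ((4, 7, 9), 0, 4, 7), ((5, 2, 6), 0, 1, 2), ((6, 5, 8), 2, 0, 5),
    ((7, 2, 4), 4, 1, 0), ((8, 0, 6), 5, 3, 2), ((9, 3, 4), 7, 3, 0)]
  Tc := [(0, 3, 5)]
  Td := [((0, 3), (4, 7), 4), ((0, 3), (4, 9), 7), ((0, 3), (5, 2), 1), ((0, 3), (5, 6), 2), ((0,
    5), (4, 7), 4), ((0, 5), (4, 9), 7), ((0, 5), (5, 2), 1), ((0, 5), (5, 6), 2), ((3, 0),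
    (0, 1), 6), ((3, 0), (0, 8), 5), ((3, 0), (3, 2), 1), ((3, 0), (3, 9), 7), ((5, 0), (8,
    0), 3), ((5, 0), (8, 6), 2)]
  G := [[0, 0, 0, 0x61461868a14a11a4411414a818814acd2, 0xa18811214b24614611a8c18c11c296], [0, 0,
    0, 0xa18a11a461461168e14e1168d2, 0xa18a14c2e14e116896146116846], [0,
    0x6161a18a1a1c144141a1818161ce1, 0x44a444a852886488685248ce848ce4c2d1,
    0x6161c18a1a1c144141c18181c1cd2, 0x6161c18c1c1c12c14c1852d2], [0,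
    0x112114c81141126811411268e4, 0x11c41486811c8184a4e6644eaa81cd2,
    0x1146143a188c6141b182ce144e181cd2, 0xd14e1852b14188a1872ce1e1c1215]]

noncomputable def n2210 : Ent := ⟨e2210, noF, [], [], [(8, 15, [1685356702439545624007900436039642273970977273354372543760009134081, 0])]⟩

def c2210 : PLift (Cov.check n2210.C.D v2210 = true) := ⟨by decide +kernel⟩

def b2210 : PLift (entF (fidx ts) 400 2210 n2210 = true) := ⟨by decide +kernel⟩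

theorem g2210 : GoodF (fidx ts) 400 2210 := GoodF.ofV v2210 n2210 c2210.down b2210.down

/-- 4694546:1872 -/
noncomputable def e2211 : SCfg where
  D := {
    a := 7
    L := 11
    kp := 8
    inn := [(0, 1), (0, 2), (0, 6), (1, 0), (1, 6), (2, 0), (2, 3), (2, 4), (2, 5), (2, 6), (3, 2), (3,
      4), (4, 2), (4, 3), (5, 2), (6, 0), (6, 1), (6, 2)]
    mix := [(0, 0), (1, 0), (1, 1), (1, 2), (1, 3), (2, 0), (2, 4), (2, 5), (2, 6), (3, 4), (3, 7), (4,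
      5), (4, 7), (4, 8), (5, 0), (5, 6), (5, 9), (6, 3), (6, 4), (6, 10)]
    cl := [3, 5, 6, 3, 0, 0, 1, 2, 7, 4, 8]
    chq := [(0, 3), (0, 4), (3, 0), (4, 0)]
    rng := [(0, 1), (0, 9), (1, 0), (1, 2), (2, 1), (2, 3), (3, 2), (3, 10), (4, 7), (4, 10), (5, 6),
      (5, 8), (6, 5), (6, 9), (7, 4), (7, 8), (8, 5), (8, 7), (9, 0), (9, 6), (10, 3), (10, 4)]
    lev := [] }
  links := [[1, 6, 2, 7], [6, 0, 7, 8, 9, 10], [7, 0, 6, 11, 3, 4, 12, 13, 5], [4, 2, 11, 14], [12, 2, 3,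
    14, 15], [7, 2, 13, 16], [11, 2, 0, 1, 10, 17]]
  P := {
    a := 7
    N := 18
    nb := [198, 1985, 14585, 18452, 53260, 73860, 134151, 65831, 642, 1282, 131650, 147532, 40980,
      69668, 34840, 20496, 8352, 3136]
    tri := [(0, 1, 6), (0, 1, 7), (0, 2, 6), (0, 2, 7), (1, 6, 10), (1, 7, 8), (1, 8, 9), (1, 9, 10),
      (2, 3, 4), (2, 3, 11), (2, 4, 12), (2, 5, 7), (2, 5, 13), (2, 6, 11), (2, 12, 13), (3, 4,
      14), (3, 11, 14), (4, 12, 15), (4, 14, 15), (5, 7, 16), (5, 13, 16), (6, 10, 17), (6, 11,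
      17)]
    fin := [0, 0, 2, 2, 2, 2, 0, 0, 8, 9, 0, 2, 2, 13, 14, 15, 16, 17]
    chd := [(0, 2), (2, 16)]
    steps := [(0, 1), (0, 6), (0, 7), (0, 10), (2, 3), (2, 4), (2, 5), (2, 11), (2, 12)] }
  rep := [2, 13, 14, 0, 16, 8, 9, 15, 17]

noncomputable def v2211 : Cov.CovD where
  P := 3
  N := 6
  pl := [1, 2, 6, 7, 8, 10]
  lev := [⟨[], [], [], [], [(0, 3, [0])]⟩,
    ⟨[], [(0, 3)], [(3, 3)], [5, 6], [(0, 3, [0]), (3, 3, [0])]⟩,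
    ⟨[(0, 1)], [(0, 0), (0, 3), (1, 3)], [(0, 0), (0, 3)], [1], [(0, 3, [0]), (4, 0, [3,
      4]), (5, 0, [3, 4])]⟩,
    ⟨[(0, 2)], [(2, 0), (2, 3)], [], [2], [(4, 0, [3, 4])]⟩,
    ⟨[(0, 2), (2, 3)], [(2, 0), (2, 3), (3, 0)], [], [2, 7], [(5, 0, [3, 4])]⟩,
    ⟨[(0, 2), (2, 3), (2, 4)], [(0, 3), (1, 3), (2, 0), (2, 3), (2, 4)], [(3, 4)], [1],
      [(0, 3, [0]), (9, 4, [0])]⟩,
    ⟨[(0, 1), (0, 2), (1, 2), (2, 3), (2, 4), (2, 5)], [(0, 0), (0, 3), (1, 0), (1, 3), (2,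
      0), (2, 3), (3, 0)], [(0, 3)], [8], [(3, 3, [0]), (4, 0, [3, 4])]⟩]
  Ta := [((0, 1), 3, 5), ((0, 9), 3, 4), ((3, 2), 3, 6), ((3, 10), 3, 8), ((4, 7), 0, 2), ((4,
    10), 0, 8), ((5, 6), 0, 1), ((5, 8), 0, 7)]
  Tb := [((0, 1, 9), 3, 5, 4), ((1, 0, 2), 5, 3, 6), ((2, 1, 3), 6, 5, 3), ((3, 2, 10), 3, 6, 8),
    ((4, 7, 10), 0, 2, 8), ((5, 6, 8), 0, 1, 7), ((6, 5, 9), 1, 0, 4), ((7, 4, 8), 2, 0, 7),
    ((8, 5, 7), 7, 0, 2), ((9, 0, 6), 4, 3, 1), ((10, 3, 4), 8, 3, 0)]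
  Tc := [(0, 3, 4)]
  Td := [((0, 3), (4, 7), 2), ((0, 3), (4, 10), 8), ((0, 3), (5, 6), 1), ((0, 3), (5, 8), 7),
    ((0, 4), (4, 7), 2), ((0, 4), (4, 10), 8), ((0, 4), (5, 6), 1), ((0, 4), (5, 8), 7), ((3,
    0), (0, 1), 5), ((3, 0), (0, 9), 4), ((3, 0), (3, 2), 6), ((3, 0), (3, 10), 8), ((4, 0),
    (9, 0), 3), ((4, 0), (9, 6), 1)]
  G := [[0, 0, 0x6161a28a1a1a844141c28181a4ca141628181a4cf1,
    0xc118441148118ca61188a41a891c441188114cd3, 0x41128112c2664d128aa8d18441188118cd3], [0,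
    0, 0xe1e1a24e1e1648e1e1648e1e1a24f1, 0xe11842e1184e1148e1148da,
    0xe11242e1124e1128e1184da], [0,
    0x246624ec428844881e24442a8e28ac18448e48ce48cec4262c4122c8848ce8c6c1ef1, 0,
    0x4141c18181c8c26164561689c8a1aac5a18c44141c18181c8cd3,
    0x112418a81c1a8c2616166cb28aa8daa8da144141a18181a1cd3], [0,
    0x1411cc41888c144811c18c8c1164411a88ceeeceecc1213, 0,
    0x7171c481111a1d8411c1541188ce144e181cf2, 0x7171a84b1b1a84d1b1a24e1e1a84f8]]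

noncomputable def n2211 : Ent := ⟨e2211, noF, [], [], [(8, 16, [7334685537875745012586738086077695515070955365108989538292687702724609, 0]), (9, 15, [7334790850167413569773436004105379185503274260204390087403942013706241, 0])]⟩

def c2211 : PLift (Cov.check n2211.C.D v2211 = true) := ⟨by decide +kernel⟩

def b2211 : PLift (entF (fidx ts) 400 2211 n2211 = true) := ⟨by decide +kernel⟩

theorem g2211 : GoodF (fidx ts) 400 2211 := GoodF.ofV v2211 n2211 c2211.down b2211.down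

/-- 4748556:1873/1 -/
noncomputable def e2212 : SCfg where
  D := {
    a := 7
    L := 10
    kp := 8
    inn := [(0, 1), (1, 0), (1, 2), (1, 3), (1, 5), (2, 1), (2, 3), (3, 1), (3, 2), (3, 4), (3, 5), (3,
      6), (4, 3), (4, 6), (5, 1), (5, 3), (5, 6), (6, 3), (6, 4), (6, 5)]
    mix := [(0, 0), (0, 1), (0, 2), (1, 0), (1, 2), (1, 3), (2, 2), (2, 4), (3, 4), (3, 5), (3, 6), (4,
      1), (4, 6), (4, 7), (5, 3), (5, 8), (6, 7), (6, 8), (6, 9)]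
    cl := [2, 5, 0, 0, 6, 7, 1, 3, 4, 8]
    chq := [(0, 1), (0, 7), (1, 0), (1, 3), (1, 4), (1, 8), (3, 1), (4, 1), (7, 0), (8, 1)]
    rng := [(0, 1), (0, 3), (1, 0), (1, 2), (1, 6), (1, 7), (2, 1), (2, 4), (3, 0), (3, 8), (4, 2), (4,
      5), (5, 4), (5, 6), (6, 1), (6, 5), (7, 1), (7, 9), (8, 3), (8, 9), (9, 7), (9, 8)]
    lev := [] }
  links := [[1, 7, 8, 9], [7, 0, 9, 2, 3, 5, 10], [3, 1, 9, 11], [5, 1, 2, 11, 12, 13, 4, 6], [6, 3, 13,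
    8, 14], [10, 1, 3, 6, 15], [15, 5, 3, 4, 14, 16]]
  P := {
    a := 7
    N := 17
    nb := [898, 1709, 2570, 14454, 24904, 33866, 114744, 1283, 25233, 2311, 32930, 4620, 10248, 4376,
      65872, 66656, 49216]
    tri := [(0, 1, 7), (0, 1, 9), (0, 7, 8), (0, 8, 9), (1, 2, 3), (1, 2, 9), (1, 3, 5), (1, 5, 10),
      (1, 7, 10), (2, 3, 11), (2, 9, 11), (3, 4, 6), (3, 4, 13), (3, 5, 6), (3, 11, 12), (3, 12,
      13), (4, 6, 14), (4, 8, 13), (4, 8, 14), (5, 6, 15), (5, 10, 15), (6, 14, 16), (6, 15, 16)]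
    fin := [0, 0, 2, 2, 4, 2, 4, 0, 8, 2, 2, 11, 12, 4, 14, 15, 16]
    chd := [(2, 4), (2, 12), (4, 14), (4, 15), (4, 16)]
    steps := [(0, 1), (0, 7), (2, 3), (2, 5), (2, 9), (2, 10), (4, 6), (4, 13)] }
  rep := [2, 4, 0, 14, 15, 8, 11, 12, 16]

noncomputable def v2212 : Cov.CovD where
  P := 3
  N := 6
  pl := [0, 1, 4]
  lev := [⟨[], [], [], [2, 5], [(2, 0, [1, 7])]⟩,
    ⟨[], [(0, 0)], [(0, 0)], [2], [(2, 0, [1, 7]), (3, 0, [1, 7])]⟩,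
    ⟨[(0, 1)], [(0, 0), (1, 0)], [], [6], [(2, 0, [1, 7])]⟩,
    ⟨[(0, 1), (1, 2)], [(1, 0), (1, 1), (1, 7), (2, 0), (2, 1), (2, 7)], [(1, 7)], [6],
      [(5, 7, [0]), (6, 1, [0, 3, 4, 8])]⟩,
    ⟨[(1, 3), (2, 3)], [(3, 1), (3, 3), (3, 7)], [(1, 3)], [5], [(6, 1, [0, 3, 4, 8]), (7,
      3, [1])]⟩,
    ⟨[(0, 1), (1, 2), (1, 3), (2, 3), (3, 4)], [(1, 0), (1, 4), (3, 0), (3, 1), (3, 4), (3,
      7)], [(0, 4)], [], [(3, 0, [1, 7]), (8, 4, [1])]⟩,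
    ⟨[(1, 3), (1, 5), (2, 3), (3, 4), (3, 5), (4, 5)], [(3, 1), (3, 3), (3, 4), (3, 7), (3,
      8), (4, 1), (4, 3), (4, 4), (4, 8), (5, 0), (5, 3), (5, 4), (5, 8)], [(3, 4), (3, 8),
      (4, 8)], [], [(7, 3, [1]), (8, 4, [1]), (9, 8, [1])]⟩]
  Ta := [((2, 1), 0, 5), ((2, 4), 0, 6), ((3, 0), 0, 2), ((3, 8), 0, 4)]
  Tb := [((0, 1, 3), 2, 5, 0), ((1, 0, 2), 5, 2, 0), ((1, 0, 6), 5, 2, 1), ((1, 0, 7), 5, 2, 3),
    ((1, 2, 6), 5, 0, 1), ((1, 2, 7), 5, 0, 3), ((1, 6, 7), 5, 1, 3), ((2, 1, 4), 0, 5, 6),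
    ((3, 0, 8), 0, 2, 4), ((4, 2, 5), 6, 0, 7), ((5, 4, 6), 7, 6, 1), ((6, 1, 5), 1, 5, 7),
    ((7, 1, 9), 3, 5, 8), ((8, 3, 9), 4, 0, 8), ((9, 7, 8), 8, 3, 4)]
  Tc := [(0, 1, 7), (1, 0, 3), (1, 0, 4), (1, 0, 8), (1, 3, 4), (1, 3, 8), (1, 4, 8)]
  Td := [((0, 1), (2, 1), 5), ((0, 1), (2, 4), 6), ((0, 1), (3, 0), 2), ((0, 1), (3, 8), 4), ((0,
    7), (2, 1), 5), ((0, 7), (2, 4), 6), ((0, 7), (3, 0), 2), ((0, 7), (3, 8), 4), ((1, 0),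
    (6, 1), 5), ((1, 0), (6, 5), 7), ((1, 3), (6, 1), 5), ((1, 3), (6, 5), 7), ((1, 4), (6,
    1), 5), ((1, 4), (6, 5), 7), ((1, 8), (6, 1), 5), ((1, 8), (6, 5), 7), ((3, 1), (7, 1),
    5), ((3, 1), (7, 9), 8), ((4, 1), (8, 3), 0), ((4, 1), (8, 9), 8), ((7, 0), (5, 4), 6),
    ((7, 0), (5, 6), 1), ((8, 1), (9, 7), 3), ((8, 1), (9, 8), 4)]
  G := [[0, 0x116881411a441811a11aa11c2611c11cc26116116611c2a8cd, 0,
    0x21219442118218822c22c91ec2144211422c22c51e2121588cc,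
    0x214821821219c22c22c91e222c22c51221215214c2114caa], [0,
    0x116811a11caa1411a411c261811a11aa441161166811c42acd,
    0xe22251e2225168241122c2891e222c91e86, 0x21122c22c24d9281121122c22c22cd5e41,
    0x21122c22c22cd921122c22c22cd5a21]]

noncomputable def n2212 : Ent := ⟨e2212, noF, [], [], []⟩

def c2212 : PLift (Cov.check n2212.C.D v2212 = true) := ⟨by decide +kernel⟩

def b2212 : PLift (entF (fidx ts) 400 2212 n2212 = true) := ⟨by decide +kernel⟩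

theorem g2212 : GoodF (fidx ts) 400 2212 := GoodF.ofV v2212 n2212 c2212.down b2212.down

/-- 4748556:1873/2 -/
noncomputable def e2213 : SCfg where
  D := {
    a := 7
    L := 10
    kp := 8
    inn := [(0, 1), (1, 0), (1, 2), (1, 3), (1, 5), (2, 1), (2, 3), (3, 1), (3, 2), (3, 4), (3, 5), (3,
      6), (4, 3), (4, 6), (5, 1), (5, 3), (5, 6), (6, 3), (6, 4), (6, 5)]
    mix := [(0, 0), (0, 1), (0, 2), (1, 0), (1, 2), (1, 3), (2, 2), (2, 4), (3, 4), (3, 5), (3, 6), (4,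
      1), (4, 6), (4, 7), (5, 3), (5, 8), (6, 1), (6, 8), (6, 9)]
    cl := [5, 1, 0, 0, 4, 6, 3, 7, 2, 8]
    chq := [(1, 2), (1, 3), (2, 1), (2, 3), (2, 4), (2, 6), (3, 1), (3, 2), (4, 2), (6, 2)]
    rng := [(0, 1), (0, 3), (1, 0), (1, 2), (1, 7), (1, 9), (2, 1), (2, 4), (3, 0), (3, 8), (4, 2), (4,
      5), (5, 4), (5, 6), (6, 5), (6, 7), (7, 1), (7, 6), (8, 3), (8, 9), (9, 1), (9, 8)]
    lev := [] }
  links := [[1, 7, 8, 9], [7, 0, 9, 2, 3, 5, 10], [3, 1, 9, 11], [5, 1, 2, 11, 12, 13, 4, 6], [6, 3, 13,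
    14, 8], [10, 1, 3, 6, 15], [15, 5, 3, 4, 8, 16]]
  P := {
    a := 7
    N := 17
    nb := [898, 1709, 2570, 14454, 24904, 33866, 98616, 1283, 82641, 2311, 32930, 4620, 10248, 20504,
      8464, 66656, 33088]
    tri := [(0, 1, 7), (0, 1, 9), (0, 7, 8), (0, 8, 9), (1, 2, 3), (1, 2, 9), (1, 3, 5), (1, 5, 10),
      (1, 7, 10), (2, 3, 11), (2, 9, 11), (3, 4, 6), (3, 4, 13), (3, 5, 6), (3, 11, 12), (3, 12,
      13), (4, 6, 8), (4, 8, 14), (4, 13, 14), (5, 6, 15), (5, 10, 15), (6, 8, 16), (6, 15, 16)]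
    fin := [0, 1, 1, 3, 4, 1, 3, 0, 4, 1, 1, 11, 12, 13, 14, 3, 16]
    chd := [(4, 3), (4, 13), (11, 3), (12, 3), (13, 3)]
    steps := [(0, 7), (1, 2), (1, 5), (1, 9), (1, 10), (3, 6), (3, 15), (4, 8)] }
  rep := [1, 4, 3, 13, 11, 0, 12, 14, 16]

noncomputable def v2213 : Cov.CovD where
  P := 3
  N := 6
  pl := [0, 7, 9]
  lev := [⟨[], [], [(0, 1)], [5], [(1, 1, [2, 3]), (2, 0, [])]⟩,
    ⟨[], [(0, 0), (0, 1)], [(0, 0)], [5], [(2, 0, []), (3, 0, [])]⟩,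
    ⟨[(0, 1)], [(0, 0), (1, 0), (1, 4)], [(0, 4)], [], [(2, 0, []), (4, 4, [2])]⟩,
    ⟨[(0, 1), (1, 2)], [(1, 0), (1, 3), (1, 4), (1, 6), (2, 0), (2, 3), (2, 4), (2, 6)],
      [(3, 4), (3, 6), (4, 6)], [], [(4, 4, [2]), (5, 6, [2]), (6, 3, [1, 2])]⟩,
    ⟨[(1, 3), (2, 3)], [(0, 1), (3, 1), (3, 3), (3, 4), (3, 6)], [(1, 3)], [7], [(1, 1, [2,
      3]), (6, 3, [1, 2])]⟩,
    ⟨[(0, 1), (1, 2), (1, 3), (2, 3), (3, 4)], [(1, 0), (1, 2), (3, 0), (3, 2), (3, 3), (3,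
      4), (3, 6)], [(0, 2)], [], [(3, 0, []), (8, 2, [1, 3, 4, 6])]⟩,
    ⟨[(1, 3), (1, 5), (2, 3), (3, 4), (3, 5), (4, 5)], [(0, 1), (3, 1), (3, 2), (3, 3), (3,
      4), (3, 6), (4, 1), (4, 2), (4, 3), (5, 0), (5, 1), (5, 2)], [(1, 2)], [8], [(1, 1, [2,
      3]), (8, 2, [1, 3, 4, 6])]⟩]
  Ta := [((2, 1), 0, 1), ((2, 4), 0, 4), ((3, 0), 0, 5), ((3, 8), 0, 2)]
  Tb := [((0, 1, 3), 5, 1, 0), ((1, 0, 2), 1, 5, 0), ((1, 0, 7), 1, 5, 7), ((1, 0, 9), 1, 5, 8),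
    ((1, 2, 7), 1, 0, 7), ((1, 2, 9), 1, 0, 8), ((1, 7, 9), 1, 7, 8), ((2, 1, 4), 0, 1, 4),
    ((3, 0, 8), 0, 5, 2), ((4, 2, 5), 4, 0, 6), ((5, 4, 6), 6, 4, 3), ((6, 5, 7), 3, 6, 7),
    ((7, 1, 6), 7, 1, 3), ((8, 3, 9), 2, 0, 8), ((9, 1, 8), 8, 1, 2)]
  Tc := [(1, 2, 3), (2, 1, 3), (2, 1, 4), (2, 1, 6), (2, 3, 4), (2, 3, 6), (2, 4, 6), (3, 1, 2)]
  Td := [((1, 2), (1, 0), 5), ((1, 2), (1, 2), 0), ((1, 2), (1, 7), 7), ((1, 2), (1, 9), 8), ((1,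
    3), (1, 0), 5), ((1, 3), (1, 2), 0), ((1, 3), (1, 7), 7), ((1, 3), (1, 9), 8), ((2, 1),
    (8, 3), 0), ((2, 1), (8, 9), 8), ((2, 3), (8, 3), 0), ((2, 3), (8, 9), 8), ((2, 4), (8,
    3), 0), ((2, 4), (8, 9), 8), ((2, 6), (8, 3), 0), ((2, 6), (8, 9), 8), ((3, 1), (6, 5),
    6), ((3, 1), (6, 7), 7), ((3, 2), (6, 5), 6), ((3, 2), (6, 7), 7), ((4, 2), (4, 2), 0),
    ((4, 2), (4, 5), 6), ((6, 2), (5, 4), 4), ((6, 2), (5, 6), 3)]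
  G := [[0, 0x822c4c1c4e6422c4256c1284ac1c1c1e2c12c14c82ba284426c4c1c4e28c1c1a24c1248ee, 0,
    0x5894c4d2258c1c1d22c2,
    0x924192183183d18546681484124929898dc8248ce929292d481249249824984aa18a9292d484481899898d4eec],
    [0, 0, 0xc4c2c2d12c2c2c8d1448cc2c8d18e1, 0x949454d2294c8c8d21c2,
    0x9441929292d45924944a4a9241924984a9929298d416c]]

noncomputable def n2213 : Ent := ⟨e2213, noF, [], [], []⟩

def c2213 : PLift (Cov.check n2213.C.D v2213 = true) := ⟨by decide +kernel⟩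

def b2213 : PLift (entF (fidx ts) 400 2213 n2213 = true) := ⟨by decide +kernel⟩

theorem g2213 : GoodF (fidx ts) 400 2213 := GoodF.ofV v2213 n2213 c2213.down b2213.down

/-- 4748556:1873/3 -/
noncomputable def e2214 : SCfg where
  D := {
    a := 7
    L := 10
    kp := 8
    inn := [(0, 1), (1, 0), (1, 2), (1, 3), (1, 5), (2, 1), (2, 3), (3, 1), (3, 2), (3, 4), (3, 5), (3,
      6), (4, 3), (4, 6), (5, 1), (5, 3), (5, 6), (6, 3), (6, 4), (6, 5)]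
    mix := [(0, 0), (0, 1), (0, 2), (1, 0), (1, 2), (1, 3), (2, 2), (2, 4), (3, 4), (3, 5), (3, 6), (4,
      6), (4, 7), (4, 8), (5, 3), (5, 9), (6, 1), (6, 8), (6, 9)]
    cl := [2, 5, 0, 0, 6, 7, 3, 8, 4, 1]
    chq := [(0, 3), (0, 7), (1, 3), (1, 4), (1, 8), (3, 0), (3, 1), (4, 1), (7, 0), (8, 1)]
    rng := [(0, 1), (0, 3), (1, 0), (1, 2), (1, 8), (1, 9), (2, 1), (2, 4), (3, 0), (3, 9), (4, 2), (4,
      5), (5, 4), (5, 6), (6, 5), (6, 7), (7, 6), (7, 8), (8, 1), (8, 7), (9, 1), (9, 3)]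
    lev := [] }
  links := [[1, 7, 8, 9], [7, 0, 9, 2, 3, 5, 10], [3, 1, 9, 11], [5, 1, 2, 11, 12, 13, 4, 6], [6, 3, 13,
    14, 15], [10, 1, 3, 6, 16], [16, 5, 3, 4, 15, 8]]
  P := {
    a := 7
    N := 17
    nb := [898, 1709, 2570, 14454, 57416, 66634, 98616, 1283, 99009, 2311, 65698, 4620, 10248, 20504,
      40976, 16720, 1376]
    tri := [(0, 1, 7), (0, 1, 9), (0, 7, 8), (0, 8, 9), (1, 2, 3), (1, 2, 9), (1, 3, 5), (1, 5, 10),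
      (1, 7, 10), (2, 3, 11), (2, 9, 11), (3, 4, 6), (3, 4, 13), (3, 5, 6), (3, 11, 12), (3, 12,
      13), (4, 6, 15), (4, 13, 14), (4, 14, 15), (5, 6, 16), (5, 10, 16), (6, 8, 15), (6, 8, 16)]
    fin := [0, 0, 2, 2, 4, 2, 4, 0, 8, 2, 2, 11, 12, 13, 14, 15, 4]
    chd := [(2, 12), (2, 13), (13, 4), (14, 4), (15, 4)]
    steps := [(0, 1), (0, 7), (2, 3), (2, 5), (2, 9), (2, 10), (4, 6), (4, 16)] }
  rep := [2, 4, 0, 13, 15, 8, 11, 12, 14]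

noncomputable def v2214 : Cov.CovD where
  P := 3
  N := 6
  pl := [0, 1, 4]
  lev := [⟨[], [], [], [2, 5], [(2, 0, [3, 7])]⟩,
    ⟨[], [(0, 0)], [(0, 0)], [2], [(2, 0, [3, 7]), (3, 0, [3, 7])]⟩,
    ⟨[(0, 1)], [(0, 0), (1, 0)], [], [6], [(2, 0, [3, 7])]⟩,
    ⟨[(0, 1), (1, 2)], [(1, 0), (1, 3), (1, 7), (2, 0), (2, 3), (2, 7)], [(3, 7)], [6],
      [(5, 7, [0]), (6, 3, [0, 1])]⟩,
    ⟨[(1, 3), (2, 3)], [(3, 3), (3, 4), (3, 7), (3, 8)], [(3, 4), (3, 8), (4, 8)], [], [(6,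
      3, [0, 1]), (7, 8, [1]), (8, 4, [1])]⟩,
    ⟨[(0, 1), (1, 2), (1, 3), (2, 3), (3, 4)], [(1, 0), (1, 1), (3, 0), (3, 1), (3, 3), (3,
      7)], [(0, 1)], [], [(3, 0, [3, 7]), (9, 1, [3, 4, 8])]⟩,
    ⟨[(1, 3), (1, 5), (2, 3), (3, 4), (3, 5), (4, 5)], [(3, 1), (3, 3), (3, 4), (3, 7), (4,
      1), (4, 3), (4, 4), (4, 8), (5, 0), (5, 1), (5, 4)], [(1, 4)], [5], [(8, 4, [1]), (9,
      1, [3, 4, 8])]⟩]
  Ta := [((2, 1), 0, 5), ((2, 4), 0, 6), ((3, 0), 0, 2), ((3, 9), 0, 1)]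
  Tb := [((0, 1, 3), 2, 5, 0), ((1, 0, 2), 5, 2, 0), ((1, 0, 8), 5, 2, 4), ((1, 0, 9), 5, 2, 1),
    ((1, 2, 8), 5, 0, 4), ((1, 2, 9), 5, 0, 1), ((1, 8, 9), 5, 4, 1), ((2, 1, 4), 0, 5, 6),
    ((3, 0, 9), 0, 2, 1), ((4, 2, 5), 6, 0, 7), ((5, 4, 6), 7, 6, 3), ((6, 5, 7), 3, 7, 8),
    ((7, 6, 8), 8, 3, 4), ((8, 1, 7), 4, 5, 8), ((9, 1, 3), 1, 5, 0)]
  Tc := [(0, 3, 7), (1, 3, 4), (1, 3, 8), (1, 4, 8), (3, 0, 1)]
  Td := [((0, 3), (2, 1), 5), ((0, 3), (2, 4), 6), ((0, 3), (3, 0), 2), ((0, 3), (3, 9), 1), ((0,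
    7), (2, 1), 5), ((0, 7), (2, 4), 6), ((0, 7), (3, 0), 2), ((0, 7), (3, 9), 1), ((1, 3),
    (9, 1), 5), ((1, 3), (9, 3), 0), ((1, 4), (9, 1), 5), ((1, 4), (9, 3), 0), ((1, 8), (9,
    1), 5), ((1, 8), (9, 3), 0), ((3, 0), (6, 5), 7), ((3, 0), (6, 7), 8), ((3, 1), (6, 5),
    7), ((3, 1), (6, 7), 8), ((4, 1), (8, 1), 5), ((4, 1), (8, 7), 8), ((7, 0), (5, 4), 6),
    ((7, 0), (5, 6), 3), ((8, 1), (7, 6), 3), ((8, 1), (7, 8), 4)]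
  G := [[0, 0, 0, 0x1421828418a24946f8129898187982b9824e454218241546582f14248254149e618258238cc,
    0xc12c4234c421942942caa1422542182582582f142412d494518d542fe8a], [0, 0xe211e811c41,
    0x942128542148d42188e, 0x182182d427181892458c636142142a8c1,
    0x14214181414f618142d829d821c23]]

noncomputable def n2214 : Ent := ⟨e2214, noF, [], [], []⟩

def c2214 : PLift (Cov.check n2214.C.D v2214 = true) := ⟨by decide +kernel⟩

def b2214 : PLift (entF (fidx ts) 400 2214 n2214 = true) := ⟨by decide +kernel⟩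

theorem g2214 : GoodF (fidx ts) 400 2214 := GoodF.ofV v2214 n2214 c2214.down b2214.down

/-- 4748556:1873 -/
noncomputable def e2215 : SCfg where
  D := {
    a := 7
    L := 11
    kp := 9
    inn := [(0, 1), (1, 0), (1, 2), (1, 3), (1, 5), (2, 1), (2, 3), (3, 1), (3, 2), (3, 4), (3, 5), (3,
      6), (4, 3), (4, 6), (5, 1), (5, 3), (5, 6), (6, 3), (6, 4), (6, 5)]
    mix := [(0, 0), (0, 1), (0, 2), (1, 0), (1, 2), (1, 3), (2, 2), (2, 4), (3, 4), (3, 5), (3, 6), (4,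
      6), (4, 7), (4, 8), (5, 3), (5, 9), (6, 8), (6, 9), (6, 10)]
    cl := [2, 8, 0, 0, 5, 6, 3, 7, 4, 1, 9]
    chq := [(0, 3), (0, 6), (1, 3), (1, 4), (1, 7), (3, 0), (3, 1), (4, 1), (6, 0), (7, 1)]
    rng := [(0, 1), (0, 3), (1, 0), (1, 2), (2, 1), (2, 4), (3, 0), (3, 9), (4, 2), (4, 5), (5, 4), (5,
      6), (6, 5), (6, 7), (7, 6), (7, 8), (8, 7), (8, 10), (9, 3), (9, 10), (10, 8), (10, 9)]
    lev := [] }
  links := [[1, 7, 8, 9], [7, 0, 9, 2, 3, 5, 10], [3, 1, 9, 11], [5, 1, 2, 11, 12, 13, 4, 6], [6, 3, 13,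
    14, 15], [10, 1, 3, 6, 16], [16, 5, 3, 4, 15, 17]]
  P := {
    a := 7
    N := 18
    nb := [898, 1709, 2570, 14454, 57416, 66634, 229432, 1283, 641, 2311, 65698, 4620, 10248, 20504,
      40976, 147536, 132192, 98368]
    tri := [(0, 1, 7), (0, 1, 9), (0, 7, 8), (0, 8, 9), (1, 2, 3), (1, 2, 9), (1, 3, 5), (1, 5, 10),
      (1, 7, 10), (2, 3, 11), (2, 9, 11), (3, 4, 6), (3, 4, 13), (3, 5, 6), (3, 11, 12), (3, 12,
      13), (4, 6, 15), (4, 13, 14), (4, 14, 15), (5, 6, 16), (5, 10, 16), (6, 15, 17), (6, 16,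
      17)]
    fin := [0, 0, 2, 2, 4, 2, 4, 0, 8, 2, 2, 11, 12, 13, 14, 15, 4, 17]
    chd := [(2, 12), (2, 13), (13, 4), (14, 4), (15, 4)]
    steps := [(0, 1), (0, 7), (2, 3), (2, 5), (2, 9), (2, 10), (4, 6), (4, 16)] }
  rep := [2, 4, 0, 13, 15, 11, 12, 14, 8, 17]

noncomputable def v2215 : Cov.CovD where
  P := 3
  N := 7
  pl := [0, 1, 4, 10]
  lev := [⟨[], [], [], [2, 8], [(2, 0, [3, 6])]⟩,
    ⟨[], [(0, 0)], [(0, 0)], [2], [(2, 0, [3, 6]), (3, 0, [3, 6])]⟩,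
    ⟨[(0, 1)], [(0, 0), (1, 0)], [], [5], [(2, 0, [3, 6])]⟩,
    ⟨[(0, 1), (1, 2)], [(1, 0), (1, 3), (1, 6), (2, 0), (2, 3), (2, 6)], [(3, 6)], [5],
      [(5, 6, [0]), (6, 3, [0, 1])]⟩,
    ⟨[(1, 3), (2, 3)], [(3, 3), (3, 4), (3, 6), (3, 7)], [(3, 4), (3, 7), (4, 7)], [], [(6,
      3, [0, 1]), (7, 7, [1]), (8, 4, [1])]⟩,
    ⟨[(0, 1), (1, 2), (1, 3), (2, 3), (3, 4)], [(1, 0), (1, 1), (3, 0), (3, 1), (3, 3), (3,
      6)], [(0, 1)], [], [(3, 0, [3, 6]), (9, 1, [3, 4, 7])]⟩,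
    ⟨[(1, 3), (1, 5), (2, 3), (3, 4), (3, 5), (4, 5)], [(3, 1), (3, 3), (3, 4), (3, 6), (4,
      1), (4, 3), (4, 4), (4, 7), (5, 0), (5, 1), (5, 4)], [(1, 4)], [9], [(8, 4, [1]), (9,
      1, [3, 4, 7])]⟩]
  Ta := [((2, 1), 0, 8), ((2, 4), 0, 5), ((3, 0), 0, 2), ((3, 9), 0, 1)]
  Tb := [((0, 1, 3), 2, 8, 0), ((1, 0, 2), 8, 2, 0), ((2, 1, 4), 0, 8, 5), ((3, 0, 9), 0, 2, 1),
    ((4, 2, 5), 5, 0, 6), ((5, 4, 6), 6, 5, 3), ((6, 5, 7), 3, 6, 7), ((7, 6, 8), 7, 3, 4),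
    ((8, 7, 10), 4, 7, 9), ((9, 3, 10), 1, 0, 9), ((10, 8, 9), 9, 4, 1)]
  Tc := [(0, 3, 6), (1, 3, 4), (1, 3, 7), (1, 4, 7), (3, 0, 1)]
  Td := [((0, 3), (2, 1), 8), ((0, 3), (2, 4), 5), ((0, 3), (3, 0), 2), ((0, 3), (3, 9), 1), ((0,
    6), (2, 1), 8), ((0, 6), (2, 4), 5), ((0, 6), (3, 0), 2), ((0, 6), (3, 9), 1), ((1, 3),
    (9, 3), 0), ((1, 3), (9, 10), 9), ((1, 4), (9, 3), 0), ((1, 4), (9, 10), 9), ((1, 7), (9,
    3), 0), ((1, 7), (9, 10), 9), ((3, 0), (6, 5), 6), ((3, 0), (6, 7), 7), ((3, 1), (6, 5),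
    6), ((3, 1), (6, 7), 7), ((4, 1), (8, 7), 7), ((4, 1), (8, 10), 9), ((6, 0), (5, 4), 5),
    ((6, 0), (5, 6), 3), ((7, 1), (7, 6), 3), ((7, 1), (7, 8), 4)]
  G := [[0, 0, 0,
    0x812d42d42714525414924d4676145218284c814c1fe8428ac41241421892142ec1c92d8231c92589d8d8dd82bacc,
    0xc4c1d4d4f2142251892982d82d542482d42d6ac494d4bd4238455862c542c82c842182d82dca141814d228b],
    [0, 0xe211e211c81, 0xd42142d42188d82124e, 0x1824141814d26142182d82b182d823cc1,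
    0x142d42318214258c27181814d2e14288a1]]

noncomputable def n2215 : Ent := ⟨e2215, noF, [], [], [(8, 14, [7334790875878422277917280412776772662961875900559637987928627378536449, 0]), (8, 15, [7334790850167413569773436004105379185503274260204390087403942013718529, 0]), (8, 17, [6903326391201334775872065844685381424292761054348340378595029938757633, 0])]⟩

def c2215 : PLift (Cov.check n2215.C.D v2215 = true) := ⟨by decide +kernel⟩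

def b2215 : PLift (entF (fidx ts) 400 2215 n2215 = true) := ⟨by decide +kernel⟩

theorem g2215 : GoodF (fidx ts) 400 2215 := GoodF.ofV v2215 n2215 c2215.down b2215.down

/-- 4694566:1874/1 -/
noncomputable def e2216 : SCfg where
  D := {
    a := 7
    L := 10
    kp := 8
    inn := [(0, 1), (0, 2), (0, 5), (0, 6), (1, 0), (1, 5), (1, 6), (2, 0), (2, 3), (2, 4), (2, 5), (2,
      6), (3, 2), (3, 4), (4, 2), (4, 3), (5, 0), (5, 1), (5, 2), (6, 0), (6, 1), (6, 2)]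
    mix := [(1, 0), (1, 1), (1, 2), (2, 3), (2, 4), (2, 5), (2, 6), (3, 3), (3, 7), (4, 1), (4, 4), (4,
      7), (5, 0), (5, 6), (5, 8), (6, 2), (6, 3), (6, 9)]
    cl := [3, 1, 2, 0, 0, 8, 4, 5, 7, 6]
    chq := [(0, 3), (0, 4), (0, 7), (1, 6), (3, 0), (3, 6), (4, 0), (6, 1), (6, 3), (7, 0)]
    rng := [(0, 1), (0, 8), (1, 0), (1, 2), (1, 4), (1, 7), (2, 1), (2, 9), (3, 7), (3, 9), (4, 1), (4,
      5), (5, 4), (5, 6), (6, 5), (6, 8), (7, 1), (7, 3), (8, 0), (8, 6), (9, 2), (9, 3)]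
    lev := [] }
  links := [[1, 6, 2, 5], [6, 0, 5, 7, 8, 9], [5, 0, 6, 10, 3, 4, 11, 12, 13], [4, 2, 10, 14], [11, 2, 3,
    14, 8], [7, 1, 0, 2, 13, 15], [10, 2, 0, 1, 9, 16]]
  P := {
    a := 7
    N := 17
    nb := [102, 993, 15481, 17428, 18700, 41095, 67079, 33058, 19090, 65858, 81996, 4372, 10244,
      36900, 1304, 8352, 1600]
    tri := [(0, 1, 5), (0, 1, 6), (0, 2, 5), (0, 2, 6), (1, 5, 7), (1, 6, 9), (1, 7, 8), (1, 8, 9), (2,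
      3, 4), (2, 3, 10), (2, 4, 11), (2, 5, 13), (2, 6, 10), (2, 11, 12), (2, 12, 13), (3, 4, 14),
      (3, 10, 14), (4, 8, 11), (4, 8, 14), (5, 7, 15), (5, 13, 15), (6, 9, 16), (6, 10, 16)]
    fin := [0, 0, 2, 3, 3, 2, 0, 7, 3, 9, 2, 2, 12, 13, 14, 15, 0]
    chd := [(2, 13), (2, 15), (3, 0), (7, 0), (7, 2)]
    steps := [(0, 1), (0, 6), (0, 16), (2, 5), (2, 10), (2, 11), (3, 4), (3, 8)] }
  rep := [2, 3, 9, 7, 13, 14, 0, 15, 12]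

noncomputable def v2216 : Cov.CovD where
  P := 3
  N := 6
  pl := [2, 5, 7]
  lev := [⟨[], [], [], [], []⟩,
    ⟨[], [(0, 1), (0, 3)], [(1, 3)], [2], [(0, 3, [0, 6]), (1, 1, [6])]⟩,
    ⟨[(0, 1)], [(0, 0), (0, 4)], [(0, 0), (0, 4)], [8], [(3, 0, [3, 4, 7]), (4, 0, [3, 4,
      7]), (6, 4, [0])]⟩,
    ⟨[(0, 2)], [(2, 0), (2, 4)], [], [5], [(3, 0, [3, 4, 7])]⟩,
    ⟨[(0, 2), (2, 3)], [(1, 1), (2, 0), (2, 1), (2, 4), (3, 0), (3, 1)], [(0, 1)], [5],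
      [(1, 1, [6]), (4, 0, [3, 4, 7])]⟩,
    ⟨[(0, 1), (0, 2), (1, 2), (2, 3), (2, 4)], [(0, 3), (0, 4), (0, 7), (1, 1), (1, 3), (1,
      4), (1, 7), (2, 0), (2, 3), (2, 4), (2, 7)], [(3, 4), (3, 7), (4, 7)], [], [(0, 3, [0,
      6]), (6, 4, [0]), (8, 7, [0])]⟩,
    ⟨[(0, 1), (0, 2), (0, 5), (1, 2), (1, 5), (2, 3), (2, 4), (2, 5)], [(0, 0), (0, 6), (1,
      0), (1, 1), (1, 3), (1, 6), (2, 0), (2, 4), (2, 6), (3, 0)], [(0, 6)], [2], [(3, 0, [3,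
      4, 7]), (9, 6, [1, 3])]⟩]
  Ta := [((3, 7), 0, 5), ((3, 9), 0, 6), ((4, 1), 0, 1), ((4, 5), 0, 8)]
  Tb := [((0, 1, 8), 3, 1, 7), ((1, 0, 2), 1, 3, 2), ((1, 0, 4), 1, 3, 0), ((1, 0, 7), 1, 3, 5),
    ((1, 2, 4), 1, 2, 0), ((1, 2, 7), 1, 2, 5), ((1, 4, 7), 1, 0, 5), ((2, 1, 9), 2, 1, 6),
    ((3, 7, 9), 0, 5, 6), ((4, 1, 5), 0, 1, 8), ((5, 4, 6), 8, 0, 4), ((6, 5, 8), 4, 8, 7),
    ((7, 1, 3), 5, 1, 0), ((8, 0, 6), 7, 3, 4), ((9, 2, 3), 6, 2, 0)]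
  Tc := [(0, 3, 4), (0, 3, 7), (0, 4, 7), (3, 0, 6), (6, 1, 3)]
  Td := [((0, 3), (3, 7), 5), ((0, 3), (3, 9), 6), ((0, 3), (4, 1), 1), ((0, 3), (4, 5), 8), ((0,
    4), (3, 7), 5), ((0, 4), (3, 9), 6), ((0, 4), (4, 1), 1), ((0, 4), (4, 5), 8), ((0, 7),
    (3, 7), 5), ((0, 7), (3, 9), 6), ((0, 7), (4, 1), 1), ((0, 7), (4, 5), 8), ((1, 6), (1,
    0), 3), ((1, 6), (1, 2), 2), ((1, 6), (1, 4), 0), ((1, 6), (1, 7), 5), ((3, 0), (0, 1),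
    1), ((3, 0), (0, 8), 7), ((3, 6), (0, 1), 1), ((3, 6), (0, 8), 7), ((4, 0), (6, 5), 8),
    ((4, 0), (6, 8), 7), ((6, 1), (9, 2), 2), ((6, 1), (9, 3), 0), ((6, 3), (9, 2), 2), ((6,
    3), (9, 3), 0), ((7, 0), (8, 0), 3), ((7, 0), (8, 6), 4)]
  G := [[0, 0, 0x2142116218211c8148116e42182116218211aa144186e8c,
    0x818152818192a4414152414192418411ce8181c24c6,
    0x211221122141116e222712222f4c222b8811a8a388834ce9241841a416], [0,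
    0x1144185118114a118414ce11281438181a1118114cec2,
    0x4141c1a1a1c14141c1e6181c1818814a818814cec2,
    0x4141c11111c2118114ce1111c28181c18181c1ec2,
    0x285821222e5a412181118114a628122272222fc3883888349a9c]]

noncomputable def n2216 : Ent := ⟨e2216, noF, [], [], []⟩

def c2216 : PLift (Cov.check n2216.C.D v2216 = true) := ⟨by decide +kernel⟩

def b2216 : PLift (entF (fidx ts) 400 2216 n2216 = true) := ⟨by decide +kernel⟩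

theorem g2216 : GoodF (fidx ts) 400 2216 := GoodF.ofV v2216 n2216 c2216.down b2216.down

/-- 4694566:1874 -/
noncomputable def e2217 : SCfg where
  D := {
    a := 7
    L := 11
    kp := 9
    inn := [(0, 1), (0, 2), (0, 5), (0, 6), (1, 0), (1, 5), (1, 6), (2, 0), (2, 3), (2, 4), (2, 5), (2,
      6), (3, 2), (3, 4), (4, 2), (4, 3), (5, 0), (5, 1), (5, 2), (6, 0), (6, 1), (6, 2)]
    mix := [(1, 0), (1, 1), (1, 2), (2, 3), (2, 4), (2, 5), (2, 6), (3, 3), (3, 7), (4, 4), (4, 7), (4,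
      8), (5, 0), (5, 6), (5, 9), (6, 2), (6, 3), (6, 10)]
    cl := [1, 6, 4, 0, 0, 7, 3, 2, 8, 9, 5]
    chq := [(0, 1), (1, 0), (1, 3), (1, 5), (1, 7), (3, 1), (5, 1), (5, 6), (6, 5), (7, 1)]
    rng := [(0, 1), (0, 9), (1, 0), (1, 2), (2, 1), (2, 10), (3, 7), (3, 10), (4, 5), (4, 8), (5, 4),
      (5, 6), (6, 5), (6, 9), (7, 3), (7, 8), (8, 4), (8, 7), (9, 0), (9, 6), (10, 2), (10, 3)]
    lev := [] }
  links := [[1, 6, 2, 5], [6, 0, 5, 7, 8, 9], [5, 0, 6, 10, 3, 4, 11, 12, 13], [4, 2, 10, 14], [11, 2, 3,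
    14, 15], [7, 1, 0, 2, 13, 16], [10, 2, 0, 1, 9, 17]]
  P := {
    a := 7
    N := 18
    nb := [102, 993, 15481, 17428, 51212, 73863, 132615, 65826, 642, 131394, 147532, 36884, 10244,
      69668, 33816, 18448, 8352, 1600]
    tri := [(0, 1, 5), (0, 1, 6), (0, 2, 5), (0, 2, 6), (1, 5, 7), (1, 6, 9), (1, 7, 8), (1, 8, 9), (2,
      3, 4), (2, 3, 10), (2, 4, 11), (2, 5, 13), (2, 6, 10), (2, 11, 12), (2, 12, 13), (3, 4, 14),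
      (3, 10, 14), (4, 11, 15), (4, 14, 15), (5, 7, 16), (5, 13, 16), (6, 9, 17), (6, 10, 17)]
    fin := [0, 1, 0, 3, 3, 0, 6, 0, 1, 9, 3, 3, 12, 13, 14, 15, 16, 6]
    chd := [(0, 3), (0, 6), (0, 12), (0, 13), (1, 6)]
    steps := [(0, 2), (0, 5), (0, 7), (1, 8), (3, 4), (3, 10), (3, 11), (6, 17)] }
  rep := [3, 0, 14, 13, 9, 6, 1, 12, 15, 16]

noncomputable def v2217 : Cov.CovD where
  P := 3
  N := 7
  pl := [2, 7, 8, 9]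
  lev := [⟨[], [], [], [], []⟩,
    ⟨[], [(0, 1), (0, 6)], [(1, 6)], [4], [(0, 1, [0, 3, 5, 7]), (1, 6, [5])]⟩,
    ⟨[(0, 1)], [(0, 0), (0, 3), (0, 7)], [(0, 0), (0, 3), (0, 7), (3, 7)], [], [(3, 0,
      [1]), (4, 0, [1]), (5, 7, [1]), (6, 3, [1])]⟩,
    ⟨[(0, 2)], [(2, 0), (2, 3), (2, 7)], [], [2], [(3, 0, [1])]⟩,
    ⟨[(0, 2), (2, 3)], [(2, 0), (2, 3), (2, 7), (3, 0)], [], [2, 8], [(4, 0, [1])]⟩,
    ⟨[(0, 1), (0, 2), (1, 2), (2, 3), (2, 4)], [(0, 1), (0, 3), (1, 1), (1, 3), (1, 6), (2,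
      0), (2, 1), (2, 3), (2, 7)], [(1, 3)], [9], [(0, 1, [0, 3, 5, 7]), (6, 3, [1])]⟩,
    ⟨[(0, 1), (0, 2), (0, 5), (1, 2), (1, 5), (2, 3), (2, 4), (2, 5)], [(0, 0), (0, 5), (1,
      0), (1, 1), (1, 5), (1, 6), (2, 0), (2, 3), (2, 5), (2, 7), (3, 0)], [(0, 5)], [4],
      [(3, 0, [1]), (10, 5, [1, 6])]⟩]
  Ta := [((3, 7), 0, 2), ((3, 10), 0, 5), ((4, 5), 0, 7), ((4, 8), 0, 8)]
  Tb := [((0, 1, 9), 1, 6, 9), ((1, 0, 2), 6, 1, 4), ((2, 1, 10), 4, 6, 5), ((3, 7, 10), 0, 2,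
    5), ((4, 5, 8), 0, 7, 8), ((5, 4, 6), 7, 0, 3), ((6, 5, 9), 3, 7, 9), ((7, 3, 8), 2, 0,
    8), ((8, 4, 7), 8, 0, 2), ((9, 0, 6), 9, 1, 3), ((10, 2, 3), 5, 4, 0)]
  Tc := [(1, 0, 3), (1, 0, 5), (1, 0, 7), (1, 3, 5), (1, 3, 7), (1, 5, 7), (5, 1, 6)]
  Td := [((0, 1), (3, 7), 2), ((0, 1), (3, 10), 5), ((0, 1), (4, 5), 7), ((0, 1), (4, 8), 8),
    ((1, 0), (0, 1), 6), ((1, 0), (0, 9), 9), ((1, 3), (0, 1), 6), ((1, 3), (0, 9), 9), ((1,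
    5), (0, 1), 6), ((1, 5), (0, 9), 9), ((1, 7), (0, 1), 6), ((1, 7), (0, 9), 9), ((3, 1),
    (6, 5), 7), ((3, 1), (6, 9), 9), ((5, 1), (10, 2), 4), ((5, 1), (10, 3), 0), ((5, 6),
    (10, 2), 4), ((5, 6), (10, 3), 0), ((6, 5), (1, 0), 1), ((6, 5), (1, 2), 4), ((7, 1), (5,
    4), 0), ((7, 1), (5, 6), 3)]
  G := [[0, 0x111411189118e711491141118e6311831145118e8a,
    0x6c9c1c82122272227a222528226e22ead2eadc4e22922962222b222ba4e26de26dc4e84c84cc42c4cccc42f9,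
    0xc11821222714225182ead14e22914222b14e26d14e84c182cac182f5,
    0x62cd18212227182251826ad18e22912222b18ea6d18e8cc182e9], [0,
    0x111811185114e2611851181114e71189118d118ec6, 0,
    0x111d111dc42222d222dc423666d666dc12aaadaaadc12c5,
    0x393b28699d199da864333722115d515da8a2aae22c8cdc8cda1a924672144c44a86222a9a28828a622e284444a86dd]]

noncomputable def n2217 : Ent := ⟨e2217, noF, [], [], [(8, 15, [7334790850167413569773436004105379185503274260204390087403942013730817, 0])]⟩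

def c2217 : PLift (Cov.check n2217.C.D v2217 = true) := ⟨by decide +kernel⟩

def b2217 : PLift (entF (fidx ts) 400 2217 n2217 = true) := ⟨by decide +kernel⟩

theorem g2217 : GoodF (fidx ts) 400 2217 := GoodF.ofV v2217 n2217 c2217.down b2217.down

/-- 4748474:1876/1 -/
noncomputable def e2218 : SCfg where
  D := {
    a := 7
    L := 10
    kp := 8
    inn := [(0, 1), (1, 0), (1, 2), (1, 3), (1, 4), (2, 1), (2, 3), (3, 1), (3, 2), (3, 4), (3, 5), (4,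
      1), (4, 3), (4, 5), (5, 3), (5, 4), (5, 6), (6, 5)]
    mix := [(0, 0), (0, 1), (0, 2), (1, 0), (1, 2), (1, 3), (2, 2), (2, 4), (3, 4), (3, 5), (3, 6), (3,
      7), (4, 3), (5, 3), (5, 7), (5, 8), (5, 9), (6, 1), (6, 7), (6, 8)]
    cl := [2, 5, 1, 0, 4, 7, 8, 3, 6, 3]
    chq := [(0, 4), (0, 7), (0, 8), (1, 2), (2, 1), (2, 4), (4, 0), (4, 2), (7, 0), (8, 0)]
    rng := [(0, 1), (0, 3), (1, 0), (1, 2), (1, 7), (1, 8), (2, 1), (2, 4), (3, 0), (3, 9), (4, 2), (4,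
      5), (5, 4), (5, 6), (6, 5), (6, 7), (7, 1), (7, 6), (8, 1), (8, 9), (9, 3), (9, 8)]
    lev := [] }
  links := [[1, 7, 8, 9], [7, 0, 9, 2, 3, 4, 10], [3, 1, 9, 11], [4, 1, 2, 11, 12, 13, 14, 5], [10, 1, 3,
    5], [10, 4, 3, 14, 6, 15, 16], [15, 5, 14, 8]]
  P := {
    a := 7
    N := 17
    nb := [898, 1693, 2570, 30774, 1066, 115800, 49440, 1283, 49857, 2311, 65714, 4620, 10248, 20488,
      8552, 65888, 33824]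
    tri := [(0, 1, 7), (0, 1, 9), (0, 7, 8), (0, 8, 9), (1, 2, 3), (1, 2, 9), (1, 3, 4), (1, 4, 10),
      (1, 7, 10), (2, 3, 11), (2, 9, 11), (3, 4, 5), (3, 5, 14), (3, 11, 12), (3, 12, 13), (3, 13,
      14), (4, 5, 10), (5, 6, 14), (5, 6, 15), (5, 10, 16), (5, 15, 16), (6, 8, 14), (6, 8, 15)]
    fin := [0, 0, 0, 3, 3, 5, 6, 0, 6, 9, 3, 11, 12, 13, 5, 15, 5]
    chd := [(0, 9), (0, 11), (3, 11), (3, 12), (3, 13)]
    steps := [(0, 1), (0, 2), (0, 7), (3, 4), (3, 10), (5, 14), (5, 16), (6, 8)] }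
  rep := [3, 9, 0, 5, 11, 6, 15, 12, 13]

noncomputable def v2218 : Cov.CovD where
  P := 3
  N := 6
  pl := [1, 8]
  lev := [⟨[], [], [(1, 2)], [5], [(0, 2, [1, 4]), (2, 1, [2])]⟩,
    ⟨[], [(0, 0), (0, 1), (0, 2)], [(0, 1), (0, 2), (1, 2)], [], [(0, 2, [1, 4]), (2, 1,
      [2]), (3, 0, [4, 7, 8])]⟩,
    ⟨[(0, 1)], [(0, 1), (1, 0), (1, 1), (1, 2), (1, 4)], [(1, 4)], [], [(2, 1, [2]), (4, 4,
      [0, 2])]⟩,
    ⟨[(0, 1), (1, 2)], [(1, 0), (1, 1), (1, 2), (1, 3), (1, 4), (1, 7), (1, 8), (2, 1), (2,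
      3), (2, 4), (2, 7), (2, 8)], [(3, 4), (3, 7), (3, 8), (4, 7), (4, 8), (7, 8)], [], [(4,
      4, [0, 2]), (5, 7, [0]), (6, 8, [0]), (7, 3, [])]⟩,
    ⟨[(0, 1), (1, 2), (1, 3), (2, 3)], [(1, 0), (1, 1), (1, 2), (3, 0), (3, 3), (3, 4), (3,
      7), (3, 8)], [], [], [(3, 0, [4, 7, 8])]⟩,
    ⟨[(1, 3), (1, 4), (2, 3), (3, 4)], [(1, 0), (3, 0), (3, 3), (3, 4), (3, 7), (3, 8), (4,
      0), (4, 3)], [(0, 3), (3, 3)], [6], [(3, 0, [4, 7, 8]), (7, 3, []), (9, 3, [])]⟩,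
    ⟨[(3, 5), (4, 5)], [(3, 3), (5, 0), (5, 3)], [], [5, 6], [(7, 3, [])]⟩]
  Ta := [((7, 1), 3, 5), ((7, 6), 3, 8), ((9, 3), 3, 0), ((9, 8), 3, 6)]
  Tb := [((0, 1, 3), 2, 5, 0), ((1, 0, 2), 5, 2, 1), ((1, 0, 7), 5, 2, 3), ((1, 0, 8), 5, 2, 6),
    ((1, 2, 7), 5, 1, 3), ((1, 2, 8), 5, 1, 6), ((1, 7, 8), 5, 3, 6), ((2, 1, 4), 1, 5, 4),
    ((3, 0, 9), 0, 2, 3), ((4, 2, 5), 4, 1, 7), ((5, 4, 6), 7, 4, 8), ((6, 5, 7), 8, 7, 3),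
    ((7, 1, 6), 3, 5, 8), ((8, 1, 9), 6, 5, 3), ((9, 3, 8), 3, 0, 6)]
  Tc := [(0, 4, 7), (0, 4, 8), (0, 7, 8), (2, 1, 4), (4, 0, 2)]
  Td := [((0, 4), (3, 0), 2), ((0, 4), (3, 9), 3), ((0, 7), (3, 0), 2), ((0, 7), (3, 9), 3), ((0,
    8), (3, 0), 2), ((0, 8), (3, 9), 3), ((1, 2), (2, 1), 5), ((1, 2), (2, 4), 4), ((2, 1),
    (0, 1), 5), ((2, 1), (0, 3), 0), ((2, 4), (0, 1), 5), ((2, 4), (0, 3), 0), ((4, 0), (4,
    2), 1), ((4, 0), (4, 5), 7), ((4, 2), (4, 2), 1), ((4, 2), (4, 5), 7), ((7, 0), (5, 4),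
    4), ((7, 0), (5, 6), 8), ((8, 0), (6, 5), 7), ((8, 0), (6, 7), 3)]
  G := [[0, 0x812e4128341e2128c, 0x831e2118341e2114c, 0x2284ca128912e41285,
    0x82a446148351e21489], [0, 0x19ae8124641e2124c, 0x818e2114124e2114c,
    0x812e412842618c128c, 0x8ace2148344e21489]]

noncomputable def n2218 : Ent := ⟨e2218, noF, [], [], []⟩

def c2218 : PLift (Cov.check n2218.C.D v2218 = true) := ⟨by decide +kernel⟩

def b2218 : PLift (entF (fidx ts) 400 2218 n2218 = true) := ⟨by decide +kernel⟩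

theorem g2218 : GoodF (fidx ts) 400 2218 := GoodF.ofV v2218 n2218 c2218.down b2218.down

/-- 4748474:1876/2 -/
noncomputable def e2219 : SCfg where
  D := {
    a := 7
    L := 10
    kp := 8
    inn := [(0, 1), (1, 0), (1, 2), (1, 3), (1, 4), (2, 1), (2, 3), (3, 1), (3, 2), (3, 4), (3, 5), (4,
      1), (4, 3), (4, 5), (5, 3), (5, 4), (5, 6), (6, 5)]
    mix := [(0, 0), (0, 1), (0, 2), (1, 0), (1, 2), (1, 3), (2, 2), (2, 4), (3, 4), (3, 5), (3, 6), (3,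
      7), (4, 3), (5, 1), (5, 3), (5, 7), (5, 8), (6, 1), (6, 7), (6, 9)]
    cl := [2, 1, 4, 0, 5, 6, 7, 3, 3, 8]
    chq := [(0, 5), (0, 6), (0, 7), (2, 4), (2, 5), (4, 2), (5, 0), (5, 2), (6, 0), (7, 0)]
    rng := [(0, 1), (0, 3), (1, 0), (1, 2), (1, 8), (1, 9), (2, 1), (2, 4), (3, 0), (3, 8), (4, 2), (4,
      5), (5, 4), (5, 6), (6, 5), (6, 7), (7, 6), (7, 9), (8, 1), (8, 3), (9, 1), (9, 7)]
    lev := [] }
  links := [[1, 7, 8, 9], [7, 0, 9, 2, 3, 4, 10], [3, 1, 9, 11], [4, 1, 2, 11, 12, 13, 14, 5], [10, 1, 3,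
    5], [10, 4, 3, 14, 6, 8, 15], [8, 5, 14, 16]]
  P := {
    a := 7
    N := 17
    nb := [898, 1693, 2570, 30774, 1066, 50520, 82208, 1283, 99041, 2311, 32946, 4620, 10248, 20488,
      73832, 1312, 16704]
    tri := [(0, 1, 7), (0, 1, 9), (0, 7, 8), (0, 8, 9), (1, 2, 3), (1, 2, 9), (1, 3, 4), (1, 4, 10),
      (1, 7, 10), (2, 3, 11), (2, 9, 11), (3, 4, 5), (3, 5, 14), (3, 11, 12), (3, 12, 13), (3, 13,
      14), (4, 5, 10), (5, 6, 8), (5, 6, 14), (5, 8, 15), (5, 10, 15), (6, 8, 16), (6, 14, 16)]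
    fin := [0, 0, 0, 3, 3, 5, 6, 0, 6, 9, 3, 11, 12, 13, 5, 5, 16]
    chd := [(0, 9), (0, 11), (3, 11), (3, 12), (3, 13)]
    steps := [(0, 1), (0, 2), (0, 7), (3, 4), (3, 10), (5, 14), (5, 15), (6, 8)] }
  rep := [3, 6, 0, 5, 9, 11, 12, 13, 16]

noncomputable def v2219 : Cov.CovD where
  P := 3
  N := 6
  pl := [1, 9]
  lev := [⟨[], [], [(2, 4)], [1], [(0, 2, [4, 5]), (2, 4, [2])]⟩,
    ⟨[], [(0, 0), (0, 2), (0, 4)], [(0, 2), (0, 4), (2, 4)], [], [(0, 2, [4, 5]), (2, 4,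
      [2]), (3, 0, [5, 6, 7])]⟩,
    ⟨[(0, 1)], [(0, 4), (1, 0), (1, 2), (1, 4), (1, 5)], [(4, 5)], [], [(2, 4, [2]), (4, 5,
      [0, 2])]⟩,
    ⟨[(0, 1), (1, 2)], [(1, 0), (1, 2), (1, 3), (1, 4), (1, 5), (1, 6), (1, 7), (2, 3), (2,
      4), (2, 5), (2, 6), (2, 7)], [(3, 5), (3, 6), (3, 7), (5, 6), (5, 7), (6, 7)], [], [(4,
      5, [0, 2]), (5, 6, [0]), (6, 7, [0]), (7, 3, [])]⟩,
    ⟨[(0, 1), (1, 2), (1, 3), (2, 3)], [(1, 0), (1, 2), (1, 4), (3, 0), (3, 3), (3, 5), (3,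
      6), (3, 7)], [], [], [(3, 0, [5, 6, 7])]⟩,
    ⟨[(1, 3), (1, 4), (2, 3), (3, 4)], [(1, 0), (3, 0), (3, 3), (3, 5), (3, 6), (3, 7), (4,
      0), (4, 3)], [(0, 3), (3, 3)], [1], [(3, 0, [5, 6, 7]), (7, 3, []), (8, 3, [])]⟩,
    ⟨[(3, 5), (4, 5)], [(3, 3), (5, 0), (5, 3)], [], [1, 8], [(7, 3, [])]⟩]
  Ta := [((7, 6), 3, 7), ((7, 9), 3, 8), ((8, 1), 3, 1), ((8, 3), 3, 0)]
  Tb := [((0, 1, 3), 2, 1, 0), ((1, 0, 2), 1, 2, 4), ((1, 0, 8), 1, 2, 3), ((1, 0, 9), 1, 2, 8),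
    ((1, 2, 8), 1, 4, 3), ((1, 2, 9), 1, 4, 8), ((1, 8, 9), 1, 3, 8), ((2, 1, 4), 4, 1, 5),
    ((3, 0, 8), 0, 2, 3), ((4, 2, 5), 5, 4, 6), ((5, 4, 6), 6, 5, 7), ((6, 5, 7), 7, 6, 3),
    ((7, 6, 9), 3, 7, 8), ((8, 1, 3), 3, 1, 0), ((9, 1, 7), 8, 1, 3)]
  Tc := [(0, 5, 6), (0, 5, 7), (0, 6, 7), (2, 4, 5), (5, 0, 2)]
  Td := [((0, 5), (3, 0), 2), ((0, 5), (3, 8), 3), ((0, 6), (3, 0), 2), ((0, 6), (3, 8), 3), ((0,
    7), (3, 0), 2), ((0, 7), (3, 8), 3), ((2, 4), (0, 1), 1), ((2, 4), (0, 3), 0), ((2, 5),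
    (0, 1), 1), ((2, 5), (0, 3), 0), ((4, 2), (2, 1), 1), ((4, 2), (2, 4), 5), ((5, 0), (4,
    2), 4), ((5, 0), (4, 5), 6), ((5, 2), (4, 2), 4), ((5, 2), (4, 5), 6), ((6, 0), (5, 4),
    5), ((6, 0), (5, 6), 7), ((7, 0), (6, 5), 6), ((7, 0), (6, 7), 3)]
  G := [[0, 0xa6c2128a6c2124c, 0x95c211895c2114c, 0x95c212895c2124c, 0x95c214895c21429], [0,
    0x28a21282462124c, 0x48c411848c8114c, 0x48c212448c41285, 0x48c414848c21429]]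

noncomputable def n2219 : Ent := ⟨e2219, noF, [], [], []⟩

def c2219 : PLift (Cov.check n2219.C.D v2219 = true) := ⟨by decide +kernel⟩

def b2219 : PLift (entF (fidx ts) 400 2219 n2219 = true) := ⟨by decide +kernel⟩

theorem g2219 : GoodF (fidx ts) 400 2219 := GoodF.ofV v2219 n2219 c2219.down b2219.down

/-- 4748474:1876 -/
noncomputable def e2220 : SCfg where
  D := {
    a := 7
    L := 11
    kp := 9
    inn := [(0, 1), (1, 0), (1, 2), (1, 3), (1, 4), (2, 1), (2, 3), (3, 1), (3, 2), (3, 4), (3, 5), (4,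
      1), (4, 3), (4, 5), (5, 3), (5, 4), (5, 6), (6, 5)]
    mix := [(0, 0), (0, 1), (0, 2), (1, 0), (1, 2), (1, 3), (2, 2), (2, 4), (3, 4), (3, 5), (3, 6), (3,
      7), (4, 3), (5, 3), (5, 7), (5, 8), (5, 9), (6, 7), (6, 8), (6, 10)]
    cl := [2, 8, 1, 0, 4, 6, 7, 3, 5, 3, 9]
    chq := [(0, 4), (0, 6), (0, 7), (1, 2), (2, 1), (2, 4), (4, 0), (4, 2), (6, 0), (7, 0)]
    rng := [(0, 1), (0, 3), (1, 0), (1, 2), (2, 1), (2, 4), (3, 0), (3, 9), (4, 2), (4, 5), (5, 4), (5,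
      6), (6, 5), (6, 7), (7, 6), (7, 10), (8, 9), (8, 10), (9, 3), (9, 8), (10, 7), (10, 8)]
    lev := [] }
  links := [[1, 7, 8, 9], [7, 0, 9, 2, 3, 4, 10], [3, 1, 9, 11], [4, 1, 2, 11, 12, 13, 14, 5], [10, 1, 3,
    5], [10, 4, 3, 14, 6, 15, 16], [15, 5, 14, 17]]
  P := {
    a := 7
    N := 18
    nb := [898, 1693, 2570, 30774, 1066, 115800, 180256, 1283, 641, 2311, 65714, 4620, 10248, 20488,
      139368, 196704, 33824, 49216]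
    tri := [(0, 1, 7), (0, 1, 9), (0, 7, 8), (0, 8, 9), (1, 2, 3), (1, 2, 9), (1, 3, 4), (1, 4, 10),
      (1, 7, 10), (2, 3, 11), (2, 9, 11), (3, 4, 5), (3, 5, 14), (3, 11, 12), (3, 12, 13), (3, 13,
      14), (4, 5, 10), (5, 6, 14), (5, 6, 15), (5, 10, 16), (5, 15, 16), (6, 14, 17), (6, 15, 17)]
    fin := [0, 0, 0, 3, 3, 5, 5, 0, 8, 9, 3, 11, 12, 13, 5, 15, 5, 17]
    chd := [(0, 9), (0, 11), (3, 11), (3, 12), (3, 13)]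
    steps := [(0, 1), (0, 2), (0, 7), (3, 4), (3, 10), (5, 6), (5, 14), (5, 16)] }
  rep := [3, 9, 0, 5, 11, 15, 12, 13, 8, 17]

noncomputable def v2220 : Cov.CovD where
  P := 3
  N := 7
  pl := [1, 8, 10]
  lev := [⟨[], [], [(1, 2)], [8], [(0, 2, [1, 4]), (2, 1, [2])]⟩,
    ⟨[], [(0, 0), (0, 1), (0, 2)], [(0, 1), (0, 2), (1, 2)], [], [(0, 2, [1, 4]), (2, 1,
      [2]), (3, 0, [4, 6, 7])]⟩,
    ⟨[(0, 1)], [(0, 1), (1, 0), (1, 1), (1, 2), (1, 4)], [(1, 4)], [], [(2, 1, [2]), (4, 4,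
      [0, 2])]⟩,
    ⟨[(0, 1), (1, 2)], [(1, 0), (1, 1), (1, 2), (1, 3), (1, 4), (1, 6), (1, 7), (2, 1), (2,
      3), (2, 4), (2, 6), (2, 7)], [(3, 4), (3, 6), (3, 7), (4, 6), (4, 7), (6, 7)], [], [(4,
      4, [0, 2]), (5, 6, [0]), (6, 7, [0]), (7, 3, [])]⟩,
    ⟨[(0, 1), (1, 2), (1, 3), (2, 3)], [(1, 0), (1, 1), (1, 2), (3, 0), (3, 3), (3, 4), (3,
      6), (3, 7)], [], [], [(3, 0, [4, 6, 7])]⟩,
    ⟨[(1, 3), (1, 4), (2, 3), (3, 4)], [(1, 0), (3, 0), (3, 3), (3, 4), (3, 6), (3, 7), (4,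
      0), (4, 3)], [(0, 3), (3, 3)], [5], [(3, 0, [4, 6, 7]), (7, 3, []), (9, 3, [])]⟩,
    ⟨[(3, 5), (4, 5)], [(3, 3), (5, 0), (5, 3)], [], [5, 9], [(7, 3, [])]⟩]
  Ta := [((7, 6), 3, 7), ((7, 10), 3, 9), ((9, 3), 3, 0), ((9, 8), 3, 5)]
  Tb := [((0, 1, 3), 2, 8, 0), ((1, 0, 2), 8, 2, 1), ((2, 1, 4), 1, 8, 4), ((3, 0, 9), 0, 2, 3),
    ((4, 2, 5), 4, 1, 6), ((5, 4, 6), 6, 4, 7), ((6, 5, 7), 7, 6, 3), ((7, 6, 10), 3, 7, 9),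
    ((8, 9, 10), 5, 3, 9), ((9, 3, 8), 3, 0, 5), ((10, 7, 8), 9, 3, 5)]
  Tc := [(0, 4, 6), (0, 4, 7), (0, 6, 7), (2, 1, 4), (4, 0, 2)]
  Td := [((0, 4), (3, 0), 2), ((0, 4), (3, 9), 3), ((0, 6), (3, 0), 2), ((0, 6), (3, 9), 3), ((0,
    7), (3, 0), 2), ((0, 7), (3, 9), 3), ((1, 2), (2, 1), 8), ((1, 2), (2, 4), 4), ((2, 1),
    (0, 1), 8), ((2, 1), (0, 3), 0), ((2, 4), (0, 1), 8), ((2, 4), (0, 3), 0), ((4, 0), (4,
    2), 1), ((4, 0), (4, 5), 6), ((4, 2), (4, 2), 1), ((4, 2), (4, 5), 6), ((6, 0), (5, 4),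
    4), ((6, 0), (5, 6), 7), ((7, 0), (6, 5), 6), ((7, 0), (6, 7), 3)]
  G := [[0, 0x93a5461243295ca124c, 0x93a54611852691aa114c, 0x53698c12453698c1249,
    0x93a54614853698a1489], [0, 0xdaee41286ace4128c, 0x65ce21146a3e8114c,
    0xda7e41286dbe8124c, 0xdaee4148e7ce21489]]

noncomputable def n2220 : Ent := ⟨e2220, noF, [], [], [(8, 17, [6903326391201334775872065844685381424292761054348340378595029938774017, 0]), (8, 15, [7334790850167413569773436004105379185503274260204390087403942013743105, 0])]⟩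

def c2220 : PLift (Cov.check n2220.C.D v2220 = true) := ⟨by decide +kernel⟩

def b2220 : PLift (entF (fidx ts) 400 2220 n2220 = true) := ⟨by decide +kernel⟩

theorem g2220 : GoodF (fidx ts) 400 2220 := GoodF.ofV v2220 n2220 c2220.down b2220.down

/-- 4748474:1877/1 -/
noncomputable def e2221 : SCfg where
  D := {
    a := 7
    L := 10
    kp := 8
    inn := [(0, 1), (1, 0), (1, 2), (1, 3), (1, 4), (2, 1), (2, 3), (3, 1), (3, 2), (3, 4), (3, 5), (4,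
      1), (4, 3), (4, 5), (5, 3), (5, 4), (5, 6), (6, 5)]
    mix := [(0, 0), (0, 1), (0, 2), (1, 0), (1, 2), (1, 3), (2, 2), (2, 4), (3, 4), (3, 5), (3, 6), (3,
      7), (4, 3), (5, 3), (5, 7), (5, 8), (5, 9), (6, 1), (6, 8), (6, 9)]
    cl := [2, 5, 1, 0, 4, 7, 8, 3, 6, 3]
    chq := [(0, 4), (0, 7), (0, 8), (1, 2), (2, 1), (2, 4), (4, 0), (4, 2), (7, 0), (8, 0)]
    rng := [(0, 1), (0, 3), (1, 0), (1, 2), (1, 8), (1, 9), (2, 1), (2, 4), (3, 0), (3, 9), (4, 2), (4,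
      5), (5, 4), (5, 6), (6, 5), (6, 7), (7, 6), (7, 8), (8, 1), (8, 7), (9, 1), (9, 3)]
    lev := [] }
  links := [[1, 7, 8, 9], [7, 0, 9, 2, 3, 4, 10], [3, 1, 9, 11], [4, 1, 2, 11, 12, 13, 14, 5], [10, 1, 3,
    5], [10, 4, 3, 14, 15, 6, 16], [16, 5, 15, 8]]
  P := {
    a := 7
    N := 17
    nb := [898, 1693, 2570, 30774, 1066, 115800, 98592, 1283, 99009, 2311, 65714, 4620, 10248, 20488,
      41000, 16736, 1376]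
    tri := [(0, 1, 7), (0, 1, 9), (0, 7, 8), (0, 8, 9), (1, 2, 3), (1, 2, 9), (1, 3, 4), (1, 4, 10),
      (1, 7, 10), (2, 3, 11), (2, 9, 11), (3, 4, 5), (3, 5, 14), (3, 11, 12), (3, 12, 13), (3, 13,
      14), (4, 5, 10), (5, 6, 15), (5, 6, 16), (5, 10, 16), (5, 14, 15), (6, 8, 15), (6, 8, 16)]
    fin := [0, 0, 0, 3, 3, 5, 6, 0, 6, 9, 3, 11, 12, 13, 5, 15, 5]
    chd := [(0, 9), (0, 11), (3, 11), (3, 12), (3, 13)]
    steps := [(0, 1), (0, 2), (0, 7), (3, 4), (3, 10), (5, 14), (5, 16), (6, 8)] }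
  rep := [3, 9, 0, 5, 11, 6, 15, 12, 13]

noncomputable def v2221 : Cov.CovD where
  P := 3
  N := 6
  pl := [1, 8]
  lev := [⟨[], [], [(1, 2)], [5], [(0, 2, [1, 4]), (2, 1, [2])]⟩,
    ⟨[], [(0, 0), (0, 1), (0, 2)], [(0, 1), (0, 2), (1, 2)], [], [(0, 2, [1, 4]), (2, 1,
      [2]), (3, 0, [4, 7, 8])]⟩,
    ⟨[(0, 1)], [(0, 1), (1, 0), (1, 1), (1, 2), (1, 4)], [(1, 4)], [], [(2, 1, [2]), (4, 4,
      [0, 2])]⟩,
    ⟨[(0, 1), (1, 2)], [(1, 0), (1, 1), (1, 2), (1, 3), (1, 4), (1, 7), (1, 8), (2, 1), (2,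
      3), (2, 4), (2, 7), (2, 8)], [(3, 4), (3, 7), (3, 8), (4, 7), (4, 8), (7, 8)], [], [(4,
      4, [0, 2]), (5, 7, [0]), (6, 8, [0]), (7, 3, [])]⟩,
    ⟨[(0, 1), (1, 2), (1, 3), (2, 3)], [(1, 0), (1, 1), (1, 2), (3, 0), (3, 3), (3, 4), (3,
      7), (3, 8)], [], [], [(3, 0, [4, 7, 8])]⟩,
    ⟨[(1, 3), (1, 4), (2, 3), (3, 4)], [(1, 0), (3, 0), (3, 3), (3, 4), (3, 7), (3, 8), (4,
      0), (4, 3)], [(0, 3), (3, 3)], [6], [(3, 0, [4, 7, 8]), (7, 3, []), (9, 3, [])]⟩,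
    ⟨[(3, 5), (4, 5)], [(5, 0), (5, 3)], [], [5, 6], [(9, 3, [])]⟩]
  Ta := [((7, 6), 3, 8), ((7, 8), 3, 6), ((9, 1), 3, 5), ((9, 3), 3, 0)]
  Tb := [((0, 1, 3), 2, 5, 0), ((1, 0, 2), 5, 2, 1), ((1, 0, 8), 5, 2, 6), ((1, 0, 9), 5, 2, 3),
    ((1, 2, 8), 5, 1, 6), ((1, 2, 9), 5, 1, 3), ((1, 8, 9), 5, 6, 3), ((2, 1, 4), 1, 5, 4),
    ((3, 0, 9), 0, 2, 3), ((4, 2, 5), 4, 1, 7), ((5, 4, 6), 7, 4, 8), ((6, 5, 7), 8, 7, 3),
    ((7, 6, 8), 3, 8, 6), ((8, 1, 7), 6, 5, 3), ((9, 1, 3), 3, 5, 0)]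
  Tc := [(0, 4, 7), (0, 4, 8), (0, 7, 8), (2, 1, 4), (4, 0, 2)]
  Td := [((0, 4), (3, 0), 2), ((0, 4), (3, 9), 3), ((0, 7), (3, 0), 2), ((0, 7), (3, 9), 3), ((0,
    8), (3, 0), 2), ((0, 8), (3, 9), 3), ((1, 2), (2, 1), 5), ((1, 2), (2, 4), 4), ((2, 1),
    (0, 1), 5), ((2, 1), (0, 3), 0), ((2, 4), (0, 1), 5), ((2, 4), (0, 3), 0), ((4, 0), (4,
    2), 1), ((4, 0), (4, 5), 7), ((4, 2), (4, 2), 1), ((4, 2), (4, 5), 7), ((7, 0), (5, 4),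
    4), ((7, 0), (5, 6), 8), ((8, 0), (6, 5), 7), ((8, 0), (6, 7), 3)]
  G := [[0, 0x818e2128143e8124c, 0x1a1e2118511e8114c, 0x8a8e2124642e8124c, 0x8aae4148124e21489],
    [0, 0x831e2128142e8124c, 0x831e4118142e8114c, 0x812e4128142e8124c,
    0x82a44614851638c1489]]

noncomputable def n2221 : Ent := ⟨e2221, noF, [], [], []⟩

def c2221 : PLift (Cov.check n2221.C.D v2221 = true) := ⟨by decide +kernel⟩

def b2221 : PLift (entF (fidx ts) 400 2221 n2221 = true) := ⟨by decide +kernel⟩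

theorem g2221 : GoodF (fidx ts) 400 2221 := GoodF.ofV v2221 n2221 c2221.down b2221.down

/-- 4748474:1877 -/
noncomputable def e2222 : SCfg where
  D := {
    a := 7
    L := 11
    kp := 9
    inn := [(0, 1), (1, 0), (1, 2), (1, 3), (1, 4), (2, 1), (2, 3), (3, 1), (3, 2), (3, 4), (3, 5), (4,
      1), (4, 3), (4, 5), (5, 3), (5, 4), (5, 6), (6, 5)]
    mix := [(0, 0), (0, 1), (0, 2), (1, 0), (1, 2), (1, 3), (2, 2), (2, 4), (3, 4), (3, 5), (3, 6), (3,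
      7), (4, 3), (5, 3), (5, 7), (5, 8), (5, 9), (6, 8), (6, 9), (6, 10)]
    cl := [2, 8, 1, 0, 4, 6, 7, 3, 5, 3, 9]
    chq := [(0, 4), (0, 6), (0, 7), (1, 2), (2, 1), (2, 4), (4, 0), (4, 2), (6, 0), (7, 0)]
    rng := [(0, 1), (0, 3), (1, 0), (1, 2), (2, 1), (2, 4), (3, 0), (3, 9), (4, 2), (4, 5), (5, 4), (5,
      6), (6, 5), (6, 7), (7, 6), (7, 8), (8, 7), (8, 10), (9, 3), (9, 10), (10, 8), (10, 9)]
    lev := [] }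
  links := [[1, 7, 8, 9], [7, 0, 9, 2, 3, 4, 10], [3, 1, 9, 11], [4, 1, 2, 11, 12, 13, 14, 5], [10, 1, 3,
    5], [10, 4, 3, 14, 15, 6, 16], [16, 5, 15, 17]]
  P := {
    a := 7
    N := 18
    nb := [898, 1693, 2570, 30774, 1066, 115800, 229408, 1283, 641, 2311, 65714, 4620, 10248, 20488,
      41000, 147552, 132192, 98368]
    tri := [(0, 1, 7), (0, 1, 9), (0, 7, 8), (0, 8, 9), (1, 2, 3), (1, 2, 9), (1, 3, 4), (1, 4, 10),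
      (1, 7, 10), (2, 3, 11), (2, 9, 11), (3, 4, 5), (3, 5, 14), (3, 11, 12), (3, 12, 13), (3, 13,
      14), (4, 5, 10), (5, 6, 15), (5, 6, 16), (5, 10, 16), (5, 14, 15), (6, 15, 17), (6, 16, 17)]
    fin := [0, 0, 0, 3, 3, 5, 5, 0, 8, 9, 3, 11, 12, 13, 5, 15, 5, 17]
    chd := [(0, 9), (0, 11), (3, 11), (3, 12), (3, 13)]
    steps := [(0, 1), (0, 2), (0, 7), (3, 4), (3, 10), (5, 6), (5, 14), (5, 16)] }
  rep := [3, 9, 0, 5, 11, 15, 12, 13, 8, 17]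

noncomputable def v2222 : Cov.CovD where
  P := 3
  N := 7
  pl := [1, 8, 10]
  lev := [⟨[], [], [(1, 2)], [8], [(0, 2, [1, 4]), (2, 1, [2])]⟩,
    ⟨[], [(0, 0), (0, 1), (0, 2)], [(0, 1), (0, 2), (1, 2)], [], [(0, 2, [1, 4]), (2, 1,
      [2]), (3, 0, [4, 6, 7])]⟩,
    ⟨[(0, 1)], [(0, 1), (1, 0), (1, 1), (1, 2), (1, 4)], [(1, 4)], [], [(2, 1, [2]), (4, 4,
      [0, 2])]⟩,
    ⟨[(0, 1), (1, 2)], [(1, 0), (1, 1), (1, 2), (1, 3), (1, 4), (1, 6), (1, 7), (2, 1), (2,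
      3), (2, 4), (2, 6), (2, 7)], [(3, 4), (3, 6), (3, 7), (4, 6), (4, 7), (6, 7)], [], [(4,
      4, [0, 2]), (5, 6, [0]), (6, 7, [0]), (7, 3, [])]⟩,
    ⟨[(0, 1), (1, 2), (1, 3), (2, 3)], [(1, 0), (1, 1), (1, 2), (3, 0), (3, 3), (3, 4), (3,
      6), (3, 7)], [], [], [(3, 0, [4, 6, 7])]⟩,
    ⟨[(1, 3), (1, 4), (2, 3), (3, 4)], [(1, 0), (3, 0), (3, 3), (3, 4), (3, 6), (3, 7), (4,
      0), (4, 3)], [(0, 3), (3, 3)], [5], [(3, 0, [4, 6, 7]), (7, 3, []), (9, 3, [])]⟩,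
    ⟨[(3, 5), (4, 5)], [(5, 0), (5, 3)], [], [5, 9], [(9, 3, [])]⟩]
  Ta := [((7, 6), 3, 7), ((7, 8), 3, 5), ((9, 3), 3, 0), ((9, 10), 3, 9)]
  Tb := [((0, 1, 3), 2, 8, 0), ((1, 0, 2), 8, 2, 1), ((2, 1, 4), 1, 8, 4), ((3, 0, 9), 0, 2, 3),
    ((4, 2, 5), 4, 1, 6), ((5, 4, 6), 6, 4, 7), ((6, 5, 7), 7, 6, 3), ((7, 6, 8), 3, 7, 5),
    ((8, 7, 10), 5, 3, 9), ((9, 3, 10), 3, 0, 9), ((10, 8, 9), 9, 5, 3)]
  Tc := [(0, 4, 6), (0, 4, 7), (0, 6, 7), (2, 1, 4), (4, 0, 2)]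
  Td := [((0, 4), (3, 0), 2), ((0, 4), (3, 9), 3), ((0, 6), (3, 0), 2), ((0, 6), (3, 9), 3), ((0,
    7), (3, 0), 2), ((0, 7), (3, 9), 3), ((1, 2), (2, 1), 8), ((1, 2), (2, 4), 4), ((2, 1),
    (0, 1), 8), ((2, 1), (0, 3), 0), ((2, 4), (0, 1), 8), ((2, 4), (0, 3), 0), ((4, 0), (4,
    2), 1), ((4, 0), (4, 5), 6), ((4, 2), (4, 2), 1), ((4, 2), (4, 5), 6), ((6, 0), (5, 4),
    4), ((6, 0), (5, 6), 7), ((7, 0), (6, 5), 6), ((7, 0), (6, 7), 3)]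
  G := [[0, 0x653e812465ce2128c, 0x65ce21186ace8114c, 0x95ce21286a3e4128c, 0x65ce214895ce21489],
    [0, 0x5493ac12453698a124c, 0x3295c61185493ac118c, 0x5493ac12453698c128c,
    0x93a54614853698a1489]]

noncomputable def n2222 : Ent := ⟨e2222, noF, [], [], [(8, 17, [6903326391201334775872065844685381424292761054348340378595029938786305, 0])]⟩

def c2222 : PLift (Cov.check n2222.C.D v2222 = true) := ⟨by decide +kernel⟩

def b2222 : PLift (entF (fidx ts) 400 2222 n2222 = true) := ⟨by decide +kernel⟩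

theorem g2222 : GoodF (fidx ts) 400 2222 := GoodF.ofV v2222 n2222 c2222.down b2222.down

/-- 4748646:1878/1 -/
noncomputable def e2223 : SCfg where
  D := {
    a := 7
    L := 10
    kp := 7
    inn := [(0, 1), (1, 0), (1, 2), (1, 3), (1, 4), (2, 1), (2, 3), (3, 1), (3, 2), (3, 4), (3, 6), (4,
      1), (4, 3), (4, 5), (4, 6), (5, 4), (5, 6), (6, 3), (6, 4), (6, 5)]
    mix := [(0, 0), (0, 1), (0, 2), (1, 0), (1, 2), (1, 3), (2, 2), (2, 4), (3, 4), (3, 5), (3, 6), (3,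
      7), (4, 3), (4, 8), (5, 8), (5, 9), (6, 1), (6, 7), (6, 9)]
    cl := [2, 1, 0, 0, 3, 6, 7, 3, 4, 5]
    chq := [(1, 4), (3, 4), (4, 1), (4, 3)]
    rng := [(0, 1), (0, 3), (1, 0), (1, 2), (1, 7), (1, 9), (2, 1), (2, 4), (3, 0), (3, 8), (4, 2), (4,
      5), (5, 4), (5, 6), (6, 5), (6, 7), (7, 1), (7, 6), (8, 3), (8, 9), (9, 1), (9, 8)]
    lev := [] }
  links := [[1, 7, 8, 9], [7, 0, 9, 2, 3, 4, 10], [3, 1, 9, 11], [4, 1, 2, 11, 12, 13, 14, 6], [10, 1, 3,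
    6, 5, 15], [15, 4, 6, 16], [16, 5, 4, 3, 14, 8]]
  P := {
    a := 7
    N := 17
    nb := [898, 1693, 2570, 30806, 33898, 98384, 82232, 1283, 82625, 2311, 32914, 4620, 10248, 20488,
      8520, 66608, 33120]
    tri := [(0, 1, 7), (0, 1, 9), (0, 7, 8), (0, 8, 9), (1, 2, 3), (1, 2, 9), (1, 3, 4), (1, 4, 10),
      (1, 7, 10), (2, 3, 11), (2, 9, 11), (3, 4, 6), (3, 6, 14), (3, 11, 12), (3, 12, 13), (3, 13,
      14), (4, 5, 6), (4, 5, 15), (4, 10, 15), (5, 6, 16), (5, 15, 16), (6, 8, 14), (6, 8, 16)]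
    fin := [0, 1, 1, 3, 3, 5, 5, 0, 5, 1, 1, 3, 12, 13, 3, 15, 16]
    chd := [(3, 15), (5, 15)]
    steps := [(0, 7), (1, 2), (1, 9), (1, 10), (3, 4), (3, 11), (3, 14), (5, 6), (5, 8)] }
  rep := [1, 5, 0, 3, 15, 16, 12, 13]

noncomputable def v2223 : Cov.CovD where
  P := 3
  N := 5
  pl := [0, 5, 6, 9]
  lev := [⟨[], [], [(0, 1)], [2], [(1, 1, [4]), (2, 0, [])]⟩,
    ⟨[], [(0, 0), (0, 1)], [(0, 0)], [2], [(2, 0, []), (3, 0, [])]⟩,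
    ⟨[(0, 1)], [(0, 0), (1, 0), (1, 3)], [(0, 3)], [], [(2, 0, []), (4, 3, [4])]⟩,
    ⟨[(0, 1), (1, 2)], [(1, 0), (1, 3), (2, 0), (2, 3)], [(3, 3)], [6, 7], [(4, 3, [4]),
      (7, 3, [4])]⟩,
    ⟨[(0, 1), (1, 2), (1, 3), (2, 3)], [(1, 0), (1, 4), (3, 0), (3, 3), (3, 4)], [(0, 4)],
      [], [(3, 0, []), (8, 4, [1, 3])]⟩,
    ⟨[(1, 4), (3, 4)], [(4, 0), (4, 4)], [], [5], [(8, 4, [1, 3])]⟩,
    ⟨[(1, 3), (1, 4), (2, 3), (3, 4), (3, 5), (4, 5)], [(0, 1), (3, 1), (3, 3), (4, 0), (4,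
      1), (4, 3), (4, 4), (5, 1), (5, 3), (5, 4)], [(1, 3)], [5], [(1, 1, [4]), (7, 3, [4])]⟩]
  Ta := [((2, 1), 0, 1), ((2, 4), 0, 3), ((3, 0), 0, 2), ((3, 8), 0, 4), ((4, 2), 3, 0), ((4, 5),
    3, 6), ((7, 1), 3, 1), ((7, 6), 3, 7)]
  Tb := [((0, 1, 3), 2, 1, 0), ((1, 0, 2), 1, 2, 0), ((1, 0, 7), 1, 2, 3), ((1, 0, 9), 1, 2, 5),
    ((1, 2, 7), 1, 0, 3), ((1, 2, 9), 1, 0, 5), ((1, 7, 9), 1, 3, 5), ((2, 1, 4), 0, 1, 3),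
    ((3, 0, 8), 0, 2, 4), ((4, 2, 5), 3, 0, 6), ((5, 4, 6), 6, 3, 7), ((6, 5, 7), 7, 6, 3),
    ((7, 1, 6), 3, 1, 7), ((8, 3, 9), 4, 0, 5), ((9, 1, 8), 5, 1, 4)]
  Tc := [(4, 1, 3)]
  Td := [((1, 4), (1, 0), 2), ((1, 4), (1, 2), 0), ((1, 4), (1, 7), 3), ((1, 4), (1, 9), 5), ((3,
    4), (4, 2), 0), ((3, 4), (4, 5), 6), ((3, 4), (7, 1), 1), ((3, 4), (7, 6), 7), ((4, 1),
    (8, 3), 0), ((4, 1), (8, 9), 5), ((4, 3), (8, 3), 0), ((4, 3), (8, 9), 5)]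
  G := [[0, 0x21412872181a4bc12d21414874181c2da14b684, 0, 0x522c22c21c22f284,
    0x48ce1814ca544cb27248ce182a8], [0, 0xc14834261a1c2a1c16218e1e1adac8, 0,
    0x481d2d22318423461182382c8, 0x112591e2542146112863413813ca4a8], [0, 0,
    0x815288172419813c42483af248, 0x5225225292c522f281, 0x1817414a983c9141b8419186c6328], [0,
    0, 0xd19e21481d28132c13815ae34884168, 0x422429221225292cd22f2c8,
    0x52915a15a815c549983c7413186c8c21]]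

noncomputable def n2223 : Ent := ⟨e2223, noF, [], [], []⟩

def c2223 : PLift (Cov.check n2223.C.D v2223 = true) := ⟨by decide +kernel⟩

def b2223 : PLift (entF (fidx ts) 400 2223 n2223 = true) := ⟨by decide +kernel⟩

theorem g2223 : GoodF (fidx ts) 400 2223 := GoodF.ofV v2223 n2223 c2223.down b2223.down

/-- 4748646:1878/2 -/
noncomputable def e2224 : SCfg where
  D := {
    a := 7
    L := 10
    kp := 7
    inn := [(0, 1), (1, 0), (1, 2), (1, 3), (1, 4), (2, 1), (2, 3), (3, 1), (3, 2), (3, 4), (3, 6), (4,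
      1), (4, 3), (4, 5), (4, 6), (5, 4), (5, 6), (6, 3), (6, 4), (6, 5)]
    mix := [(0, 0), (0, 1), (0, 2), (1, 0), (1, 2), (1, 3), (2, 2), (2, 4), (3, 4), (3, 5), (3, 6), (3,
      7), (4, 3), (4, 8), (5, 1), (5, 8), (6, 1), (6, 7), (6, 9)]
    cl := [2, 3, 0, 0, 1, 5, 6, 1, 4, 7]
    chq := [(1, 3), (1, 4), (3, 1), (4, 1)]
    rng := [(0, 1), (0, 3), (1, 0), (1, 2), (1, 8), (1, 9), (2, 1), (2, 4), (3, 0), (3, 8), (4, 2), (4,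
      5), (5, 4), (5, 6), (6, 5), (6, 7), (7, 6), (7, 9), (8, 1), (8, 3), (9, 1), (9, 7)]
    lev := [] }
  links := [[1, 7, 8, 9], [7, 0, 9, 2, 3, 4, 10], [3, 1, 9, 11], [4, 1, 2, 11, 12, 13, 14, 6], [10, 1, 3,
    6, 5, 15], [15, 4, 6, 8], [8, 5, 4, 3, 14, 16]]
  P := {
    a := 7
    N := 17
    nb := [898, 1693, 2570, 30806, 33898, 33104, 82232, 1283, 99041, 2311, 32914, 4620, 10248, 20488,
      73800, 1328, 16704]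
    tri := [(0, 1, 7), (0, 1, 9), (0, 7, 8), (0, 8, 9), (1, 2, 3), (1, 2, 9), (1, 3, 4), (1, 4, 10),
      (1, 7, 10), (2, 3, 11), (2, 9, 11), (3, 4, 6), (3, 6, 14), (3, 11, 12), (3, 12, 13), (3, 13,
      14), (4, 5, 6), (4, 5, 15), (4, 10, 15), (5, 6, 8), (5, 8, 15), (6, 8, 16), (6, 14, 16)]
    fin := [0, 1, 1, 3, 3, 5, 5, 0, 5, 1, 1, 3, 12, 13, 3, 15, 16]
    chd := [(3, 15), (5, 3)]
    steps := [(0, 7), (1, 2), (1, 9), (1, 10), (3, 4), (3, 11), (3, 14), (5, 6), (5, 8)] }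
  rep := [1, 3, 0, 5, 15, 12, 13, 16]

noncomputable def v2224 : Cov.CovD where
  P := 3
  N := 5
  pl := [0, 5, 6, 9]
  lev := [⟨[], [], [(0, 3)], [2], [(1, 3, [1]), (2, 0, [])]⟩,
    ⟨[], [(0, 0), (0, 3)], [(0, 0)], [2], [(2, 0, []), (3, 0, [])]⟩,
    ⟨[(0, 1)], [(0, 0), (1, 0), (1, 1)], [(0, 1)], [], [(2, 0, []), (4, 1, [3, 4])]⟩,
    ⟨[(0, 1), (1, 2)], [(1, 0), (1, 1), (2, 0), (2, 1)], [(1, 1)], [5, 6], [(4, 1, [3, 4]),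
      (7, 1, [3, 4])]⟩,
    ⟨[(0, 1), (1, 2), (1, 3), (2, 3)], [(1, 0), (1, 4), (3, 0), (3, 1), (3, 4)], [(0, 4)],
      [], [(3, 0, []), (8, 4, [1])]⟩,
    ⟨[(1, 4), (3, 4)], [(0, 3), (4, 0), (4, 3), (4, 4)], [(3, 4)], [], [(1, 3, [1]), (8, 4,
      [1])]⟩,
    ⟨[(1, 3), (1, 4), (2, 3), (3, 4), (3, 5), (4, 5)], [(0, 3), (3, 1), (3, 3), (4, 0), (4,
      1), (4, 3), (4, 4), (5, 1), (5, 3), (5, 4)], [(1, 3)], [7], [(1, 3, [1]), (7, 1, [3,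
      4])]⟩]
  Ta := [((2, 1), 0, 3), ((2, 4), 0, 1), ((3, 0), 0, 2), ((3, 8), 0, 4), ((4, 2), 1, 0), ((4, 5),
    1, 5), ((7, 6), 1, 6), ((7, 9), 1, 7)]
  Tb := [((0, 1, 3), 2, 3, 0), ((1, 0, 2), 3, 2, 0), ((1, 0, 8), 3, 2, 4), ((1, 0, 9), 3, 2, 7),
    ((1, 2, 8), 3, 0, 4), ((1, 2, 9), 3, 0, 7), ((1, 8, 9), 3, 4, 7), ((2, 1, 4), 0, 3, 1),
    ((3, 0, 8), 0, 2, 4), ((4, 2, 5), 1, 0, 5), ((5, 4, 6), 5, 1, 6), ((6, 5, 7), 6, 5, 1),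
    ((7, 6, 9), 1, 6, 7), ((8, 1, 3), 4, 3, 0), ((9, 1, 7), 7, 3, 1)]
  Tc := [(1, 3, 4)]
  Td := [((1, 3), (4, 2), 0), ((1, 3), (4, 5), 5), ((1, 3), (7, 6), 6), ((1, 3), (7, 9), 7), ((1,
    4), (4, 2), 0), ((1, 4), (4, 5), 5), ((1, 4), (7, 6), 6), ((1, 4), (7, 9), 7), ((3, 1),
    (1, 0), 2), ((3, 1), (1, 2), 0), ((3, 1), (1, 8), 4), ((3, 1), (1, 9), 7), ((4, 1), (8,
    1), 3), ((4, 1), (8, 3), 0)]
  G := [[0, 0x181261812a182181ee841411a614116a1214ce48c, 0,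
    0x21285118232821cd84114232452651124638c8c, 0x91c23225dc365215122c78c82], [0, 0, 0,
    0x11c2311823118b2d241142324d2655128a8c, 0xc2184251291c2322cdc36d28a], [0, 0,
    0x2191a4d12211c3a9c2144862, 0x21d2621d265821d2a84c1, 0x914df295de2522955568982], [0, 0,
    0xd124512211c369c81281c2, 0xdd3221d26585282d1e82c1, 0x529241e52d2c5528251e8c21]]

noncomputable def n2224 : Ent := ⟨e2224, noF, [], [], []⟩

def c2224 : PLift (Cov.check n2224.C.D v2224 = true) := ⟨by decide +kernel⟩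

def b2224 : PLift (entF (fidx ts) 400 2224 n2224 = true) := ⟨by decide +kernel⟩

theorem g2224 : GoodF (fidx ts) 400 2224 := GoodF.ofV v2224 n2224 c2224.down b2224.down

/-- 4748646:1878 -/
noncomputable def e2225 : SCfg where
  D := {
    a := 7
    L := 11
    kp := 8
    inn := [(0, 1), (1, 0), (1, 2), (1, 3), (1, 4), (2, 1), (2, 3), (3, 1), (3, 2), (3, 4), (3, 6), (4,
      1), (4, 3), (4, 5), (4, 6), (5, 4), (5, 6), (6, 3), (6, 4), (6, 5)]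
    mix := [(0, 0), (0, 1), (0, 2), (1, 0), (1, 2), (1, 3), (2, 2), (2, 4), (3, 4), (3, 5), (3, 6), (3,
      7), (4, 3), (4, 8), (5, 8), (5, 9), (6, 7), (6, 9), (6, 10)]
    cl := [2, 6, 0, 0, 1, 7, 8, 1, 3, 4, 5]
    chq := [(1, 3), (3, 1), (3, 5), (5, 3)]
    rng := [(0, 1), (0, 3), (1, 0), (1, 2), (2, 1), (2, 4), (3, 0), (3, 8), (4, 2), (4, 5), (5, 4), (5,
      6), (6, 5), (6, 7), (7, 6), (7, 10), (8, 3), (8, 9), (9, 8), (9, 10), (10, 7), (10, 9)]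
    lev := [] }
  links := [[1, 7, 8, 9], [7, 0, 9, 2, 3, 4, 10], [3, 1, 9, 11], [4, 1, 2, 11, 12, 13, 14, 6], [10, 1, 3,
    6, 5, 15], [15, 4, 6, 16], [16, 5, 4, 3, 14, 17]]
  P := {
    a := 7
    N := 18
    nb := [898, 1693, 2570, 30806, 33898, 98384, 213048, 1283, 641, 2311, 32914, 4620, 10248, 20488,
      139336, 66608, 163936, 81984]
    tri := [(0, 1, 7), (0, 1, 9), (0, 7, 8), (0, 8, 9), (1, 2, 3), (1, 2, 9), (1, 3, 4), (1, 4, 10),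
      (1, 7, 10), (2, 3, 11), (2, 9, 11), (3, 4, 6), (3, 6, 14), (3, 11, 12), (3, 12, 13), (3, 13,
      14), (4, 5, 6), (4, 5, 15), (4, 10, 15), (5, 6, 16), (5, 15, 16), (6, 14, 17), (6, 16, 17)]
    fin := [0, 1, 1, 3, 1, 5, 5, 0, 8, 1, 1, 3, 12, 13, 3, 5, 16, 17]
    chd := [(3, 5), (5, 17)]
    steps := [(0, 7), (1, 2), (1, 4), (1, 9), (1, 10), (3, 11), (3, 14), (5, 6), (5, 15)] }
  rep := [1, 3, 0, 5, 16, 17, 8, 12, 13]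

noncomputable def v2225 : Cov.CovD where
  P := 3
  N := 6
  pl := [0, 1, 5, 6, 9]
  lev := [⟨[], [], [], [2, 6], [(2, 0, [])]⟩,
    ⟨[], [(0, 0)], [(0, 0)], [2], [(2, 0, []), (3, 0, [])]⟩,
    ⟨[(0, 1)], [(0, 0), (1, 0), (1, 1)], [(0, 1)], [], [(2, 0, []), (4, 1, [3])]⟩,
    ⟨[(0, 1), (1, 2)], [(1, 0), (1, 1), (2, 0), (2, 1)], [(1, 1)], [7, 8], [(4, 1, [3]),
      (7, 1, [3])]⟩,
    ⟨[(0, 1), (1, 2), (1, 3), (2, 3)], [(1, 0), (1, 3), (3, 0), (3, 1), (3, 3)], [(0, 3)],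
      [], [(3, 0, []), (8, 3, [1, 5])]⟩,
    ⟨[(1, 4), (3, 4)], [(4, 0), (4, 3)], [], [4], [(8, 3, [1, 5])]⟩,
    ⟨[(1, 3), (1, 4), (2, 3), (3, 4), (3, 5), (4, 5)], [(3, 1), (3, 5), (4, 0), (4, 1), (4,
      3), (4, 5), (5, 1), (5, 3), (5, 5)], [(1, 5)], [4], [(7, 1, [3]), (10, 5, [3])]⟩]
  Ta := [((2, 1), 0, 6), ((2, 4), 0, 1), ((3, 0), 0, 2), ((3, 8), 0, 3), ((4, 2), 1, 0), ((4, 5),
    1, 7), ((7, 6), 1, 8), ((7, 10), 1, 5)]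
  Tb := [((0, 1, 3), 2, 6, 0), ((1, 0, 2), 6, 2, 0), ((2, 1, 4), 0, 6, 1), ((3, 0, 8), 0, 2, 3),
    ((4, 2, 5), 1, 0, 7), ((5, 4, 6), 7, 1, 8), ((6, 5, 7), 8, 7, 1), ((7, 6, 10), 1, 8, 5),
    ((8, 3, 9), 3, 0, 4), ((9, 8, 10), 4, 3, 5), ((10, 7, 9), 5, 1, 4)]
  Tc := [(3, 1, 5)]
  Td := [((1, 3), (4, 2), 0), ((1, 3), (4, 5), 7), ((1, 3), (7, 6), 8), ((1, 3), (7, 10), 5),
    ((3, 1), (8, 3), 0), ((3, 1), (8, 9), 4), ((3, 5), (8, 3), 0), ((3, 5), (8, 9), 4), ((5,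
    3), (10, 7), 1), ((5, 3), (10, 9), 4)]
  G := [[0, 0xc16ac314ae869a1812aa6b4646ace16ace1621c1246a78c8c, 0,
    0xb12a8e9451c2312cd83a9c4c214215122c79122128548edc8c,
    0x6ace1219122cb2499c3cd42a16ca5b12a8e9429285cd42a], [0, 0, 0,
    0x51c234291c231d48f292c51c234851423589c5a98218acc,
    0x48dd2925c9652111848ce784a51251c2359cd2d2c2184aa], [0, 0,
    0x2144148dd2289c5a9229893a45c2754862598a3cd224c1ed2188c2c,
    0x495b242414a688259cd2dc81284c1, 0x59cd2245c965325144b68c21884a1], [0, 0,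
    0x48dd24848dd212cd83a92c44172c85b2d184f2d2885281c6, 0xc95b2925c9655228cc95282c1,
    0x5132c95b295ce2d21c681684a1]]

noncomputable def n2225 : Ent := ⟨e2225, noF, [], [], [(8, 17, [6903326391201334775872065844685381424292761054348340378595029938794497, 0]), (8, 16, [7334685537875745012586738086077695515070955365108989538292687702786049, 0])]⟩

def c2225 : PLift (Cov.check n2225.C.D v2225 = true) := ⟨by decide +kernel⟩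

def b2225 : PLift (entF (fidx ts) 400 2225 n2225 = true) := ⟨by decide +kernel⟩

theorem g2225 : GoodF (fidx ts) 400 2225 := GoodF.ofV v2225 n2225 c2225.down b2225.down

/-- 4748466:1880/1 -/
noncomputable def e2226 : SCfg where
  D := {
    a := 7
    L := 10
    kp := 7
    inn := [(0, 1), (1, 0), (1, 2), (1, 3), (1, 4), (2, 1), (2, 3), (2, 5), (3, 1), (3, 2), (3, 4), (3,
      5), (3, 6), (4, 1), (4, 3), (5, 2), (5, 3), (5, 6), (6, 3), (6, 5)]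
    mix := [(0, 0), (0, 1), (0, 2), (1, 0), (1, 2), (1, 3), (2, 2), (3, 4), (3, 5), (3, 6), (4, 3), (4,
      6), (5, 1), (5, 2), (5, 7), (6, 4), (6, 7), (6, 8), (6, 9)]
    cl := [2, 1, 0, 0, 3, 5, 4, 3, 6, 7]
    chq := [(1, 4), (1, 5), (4, 1), (5, 1)]
    rng := [(0, 1), (0, 3), (1, 0), (1, 2), (1, 7), (2, 1), (3, 0), (3, 6), (4, 5), (4, 9), (5, 4), (5,
      6), (6, 3), (6, 5), (7, 1), (7, 8), (8, 7), (8, 9), (9, 4), (9, 8)]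
    lev := [] }
  links := [[1, 7, 8, 9], [7, 0, 9, 2, 3, 4, 10], [3, 1, 9, 5], [4, 1, 2, 5, 6, 11, 12, 13], [10, 1, 3,
    13], [6, 3, 2, 9, 8, 14], [11, 3, 5, 14, 15, 16]]
  P := {
    a := 7
    N := 17
    nb := [898, 1693, 554, 14454, 9226, 17228, 116776, 1283, 17057, 295, 8338, 69704, 10248, 5144,
      33120, 81984, 34880]
    tri := [(0, 1, 7), (0, 1, 9), (0, 7, 8), (0, 8, 9), (1, 2, 3), (1, 2, 9), (1, 3, 4), (1, 4, 10),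
      (1, 7, 10), (2, 3, 5), (2, 5, 9), (3, 4, 13), (3, 5, 6), (3, 6, 11), (3, 11, 12), (3, 12,
      13), (4, 10, 13), (5, 6, 14), (5, 8, 9), (5, 8, 14), (6, 11, 16), (6, 14, 15), (6, 15, 16)]
    fin := [0, 1, 2, 2, 2, 2, 6, 0, 2, 1, 1, 6, 12, 13, 6, 15, 16]
    chd := [(2, 12), (2, 13)]
    steps := [(0, 7), (1, 9), (1, 10), (2, 3), (2, 4), (2, 5), (2, 8), (6, 14), (6, 11)] }
  rep := [1, 2, 0, 6, 13, 12, 15, 16]

noncomputable def v2226 : Cov.CovD where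
  P := 3
  N := 5
  pl := [0, 8, 9]
  lev := [⟨[], [], [(0, 1)], [2], [(1, 1, [4, 5]), (2, 0, [])]⟩,
    ⟨[], [(0, 0), (0, 1)], [(0, 0)], [2], [(2, 0, []), (3, 0, [])]⟩,
    ⟨[(0, 1)], [(0, 0), (1, 0)], [], [], [(2, 0, [])]⟩,
    ⟨[(0, 1), (1, 2)], [(1, 0), (1, 3), (1, 4), (1, 5), (2, 0), (2, 3), (2, 4), (2, 5)],
      [(3, 4), (3, 5), (4, 5)], [], [(4, 3, []), (5, 5, [1]), (6, 4, [1])]⟩,
    ⟨[(0, 1), (1, 2), (1, 3), (2, 3)], [(1, 0), (1, 4), (3, 0), (3, 3), (3, 4), (3, 5)],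
      [(0, 4)], [], [(3, 0, []), (6, 4, [1])]⟩,
    ⟨[(1, 2), (1, 3), (2, 3), (3, 4)], [(0, 0), (0, 1), (1, 0), (2, 0), (2, 1), (2, 3), (3,
      0), (3, 1), (3, 3), (3, 4), (3, 5)], [(0, 1), (0, 3), (1, 3)], [], [(1, 1, [4, 5]), (2,
      0, []), (7, 3, [])]⟩,
    ⟨[(1, 3), (2, 3), (2, 5), (3, 4), (3, 5)], [(3, 3), (3, 4), (3, 5), (5, 0), (5, 1), (5,
      3)], [(3, 3)], [6, 7], [(4, 3, []), (7, 3, [])]⟩]
  Ta := [((2, 1), 0, 1), ((3, 0), 0, 2), ((3, 6), 0, 4), ((4, 5), 3, 5), ((4, 9), 3, 7), ((7, 1),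
    3, 1), ((7, 8), 3, 6)]
  Tb := [((0, 1, 3), 2, 1, 0), ((1, 0, 2), 1, 2, 0), ((1, 0, 7), 1, 2, 3), ((1, 2, 7), 1, 0, 3),
    ((3, 0, 6), 0, 2, 4), ((4, 5, 9), 3, 5, 7), ((5, 4, 6), 5, 3, 4), ((6, 3, 5), 4, 0, 5),
    ((7, 1, 8), 3, 1, 6), ((8, 7, 9), 6, 3, 7), ((9, 4, 8), 7, 3, 6)]
  Tc := [(1, 4, 5)]
  Td := [((1, 4), (1, 0), 2), ((1, 4), (1, 2), 0), ((1, 4), (1, 7), 3), ((1, 5), (1, 0), 2), ((1,
    5), (1, 2), 0), ((1, 5), (1, 7), 3), ((4, 1), (6, 3), 0), ((4, 1), (6, 5), 5), ((5, 1),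
    (5, 4), 3), ((5, 1), (5, 6), 4)]
  G := [[0, 0xf2f261884, 0, 0xf812488, 0x282f812827424188a8], [0, 0xe35ed7a61488, 0,
    0xb3c124412688, 0xf3c1224e2344126224e484a8], [0, 0, 0x2422829282f4f4c6384, 0x2828d4e2184,
    0x282f8f8c28272428681], [0, 0, 0x21222c25b7c95cc2384, 0x22c22c95ce2184,
    0x544464423f3c82ac23b2c24e81]]

noncomputable def n2226 : Ent := ⟨e2226, noF, [], [], []⟩

def c2226 : PLift (Cov.check n2226.C.D v2226 = true) := ⟨by decide +kernel⟩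

def b2226 : PLift (entF (fidx ts) 400 2226 n2226 = true) := ⟨by decide +kernel⟩

theorem g2226 : GoodF (fidx ts) 400 2226 := GoodF.ofV v2226 n2226 c2226.down b2226.down

/-- 4748466:1880 -/
noncomputable def e2227 : SCfg where
  D := {
    a := 7
    L := 11
    kp := 8
    inn := [(0, 1), (1, 0), (1, 2), (1, 3), (1, 4), (2, 1), (2, 3), (2, 5), (3, 1), (3, 2), (3, 4), (3,
      5), (3, 6), (4, 1), (4, 3), (5, 2), (5, 3), (5, 6), (6, 3), (6, 5)]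
    mix := [(0, 0), (0, 1), (0, 2), (1, 0), (1, 2), (1, 3), (2, 2), (3, 4), (3, 5), (3, 6), (4, 3), (4,
      6), (5, 2), (5, 7), (5, 8), (6, 4), (6, 8), (6, 9), (6, 10)]
    cl := [2, 6, 0, 0, 3, 5, 1, 4, 3, 7, 8]
    chq := [(1, 4), (4, 1), (4, 5), (5, 4)]
    rng := [(0, 1), (0, 3), (1, 0), (1, 2), (2, 1), (2, 7), (3, 0), (3, 6), (4, 5), (4, 10), (5, 4),
      (5, 6), (6, 3), (6, 5), (7, 2), (7, 8), (8, 7), (8, 9), (9, 8), (9, 10), (10, 4), (10, 9)]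
    lev := [] }
  links := [[1, 7, 8, 9], [7, 0, 9, 2, 3, 4, 10], [3, 1, 9, 5], [4, 1, 2, 5, 6, 11, 12, 13], [10, 1, 3,
    13], [6, 3, 2, 9, 14, 15], [11, 3, 5, 15, 16, 17]]
  P := {
    a := 7
    N := 18
    nb := [898, 1693, 554, 14454, 9226, 49740, 231464, 1283, 641, 16679, 8338, 135240, 10248, 5144,
      33312, 82016, 163904, 67648]
    tri := [(0, 1, 7), (0, 1, 9), (0, 7, 8), (0, 8, 9), (1, 2, 3), (1, 2, 9), (1, 3, 4), (1, 4, 10),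
      (1, 7, 10), (2, 3, 5), (2, 5, 9), (3, 4, 13), (3, 5, 6), (3, 6, 11), (3, 11, 12), (3, 12,
      13), (4, 10, 13), (5, 6, 15), (5, 9, 14), (5, 14, 15), (6, 11, 17), (6, 15, 16), (6, 16,
      17)]
    fin := [0, 1, 1, 3, 1, 3, 6, 0, 8, 1, 1, 6, 12, 13, 3, 6, 16, 17]
    chd := [(12, 3), (13, 3)]
    steps := [(0, 7), (1, 2), (1, 4), (1, 9), (1, 10), (3, 5), (3, 14), (6, 15), (6, 11)] }
  rep := [1, 13, 0, 6, 3, 12, 8, 16, 17]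

noncomputable def v2227 : Cov.CovD where
  P := 3
  N := 6
  pl := [0, 1, 9, 10]
  lev := [⟨[], [], [], [2, 6], [(2, 0, [])]⟩,
    ⟨[], [(0, 0)], [(0, 0)], [2], [(2, 0, []), (3, 0, [])]⟩,
    ⟨[(0, 1)], [(0, 0), (1, 0)], [], [], [(2, 0, [])]⟩,
    ⟨[(0, 1), (1, 2)], [(1, 0), (1, 1), (1, 3), (1, 5), (2, 0), (2, 1), (2, 3), (2, 5)],
      [(1, 3), (1, 5), (3, 5)], [], [(4, 3, []), (5, 5, [4]), (6, 1, [4])]⟩,
    ⟨[(0, 1), (1, 2), (1, 3), (2, 3)], [(1, 0), (1, 1), (3, 0), (3, 1), (3, 3), (3, 5)],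
      [(0, 1)], [], [(3, 0, []), (6, 1, [4])]⟩,
    ⟨[(1, 2), (1, 3), (2, 3), (3, 4)], [(0, 0), (1, 0), (2, 0), (2, 3), (2, 4), (3, 0), (3,
      1), (3, 3), (3, 4), (3, 5)], [(0, 3), (0, 4), (3, 4)], [], [(2, 0, []), (7, 4, [1, 5]),
      (8, 3, [])]⟩,
    ⟨[(1, 3), (2, 3), (2, 5), (3, 4), (3, 5)], [(3, 1), (3, 3), (3, 5), (5, 0), (5, 3), (5,
      4)], [(3, 3)], [7, 8], [(4, 3, []), (8, 3, [])]⟩]
  Ta := [((2, 1), 0, 6), ((2, 7), 0, 4), ((3, 0), 0, 2), ((3, 6), 0, 1), ((4, 5), 3, 5), ((4,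
    10), 3, 8), ((8, 7), 3, 4), ((8, 9), 3, 7)]
  Tb := [((0, 1, 3), 2, 6, 0), ((1, 0, 2), 6, 2, 0), ((2, 1, 7), 0, 6, 4), ((3, 0, 6), 0, 2, 1),
    ((4, 5, 10), 3, 5, 8), ((5, 4, 6), 5, 3, 1), ((6, 3, 5), 1, 0, 5), ((7, 2, 8), 4, 0, 3),
    ((8, 7, 9), 3, 4, 7), ((9, 8, 10), 7, 3, 8), ((10, 4, 9), 8, 3, 7)]
  Tc := [(4, 1, 5)]
  Td := [((1, 4), (6, 3), 0), ((1, 4), (6, 5), 5), ((4, 1), (7, 2), 0), ((4, 1), (7, 8), 3), ((4,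
    5), (7, 2), 0), ((4, 5), (7, 8), 3), ((5, 4), (5, 4), 3), ((5, 4), (5, 6), 1)]
  G := [[0, 0, 0, 0xf8c14bc4522fa184cf8c1424fc178c892cc,
    0x5242f612d64da448a2c2142fa13882da4dc2a], [0, 0, 0,
    0xf2187fc1888f88e4d64f214441fbc8ca4b4e818cc, 0x9f64828946c4f8c8c62f214444fbc14f4e4da8a],
    [0, 0xd22f464684fc4288c2c1, 0x78a412d642da8c522da412da8453c6481aa, 0xf8c84bc4524fc482c1,
    0x2f68b46852fa48c21], [0, 0x8b6248f8822f4e286c1, 0x11bef84f4e8582f89e841b467484a6,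
    0xf8ce842328432844a89f448ec1, 0x7fa8484e85f44884ca21]]

noncomputable def n2227 : Ent := ⟨e2227, noF, [], [], [(8, 14, [7334790875878422277917280412776772662961875900559637987928627378593793, 0])]⟩

def c2227 : PLift (Cov.check n2227.C.D v2227 = true) := ⟨by decide +kernel⟩

def b2227 : PLift (entF (fidx ts) 400 2227 n2227 = true) := ⟨by decide +kernel⟩

theorem g2227 : GoodF (fidx ts) 400 2227 := GoodF.ofV v2227 n2227 c2227.down b2227.down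

/-- 4748474:1882/2 -/
noncomputable def e2228 : SCfg where
  D := {
    a := 7
    L := 9
    kp := 6
    inn := [(0, 1), (1, 0), (1, 2), (1, 3), (1, 4), (2, 1), (2, 3), (2, 5), (3, 1), (3, 2), (3, 4), (3,
      5), (4, 1), (4, 3), (5, 2), (5, 3), (5, 6), (6, 5)]
    mix := [(0, 0), (0, 1), (0, 2), (1, 0), (1, 2), (1, 3), (2, 2), (3, 4), (3, 5), (3, 6), (3, 7), (4,
      3), (4, 7), (5, 1), (5, 2), (5, 4), (5, 8), (6, 0), (6, 1), (6, 8)]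
    cl := [1, 2, 0, 4, 3, 5, 6, 3, 0]
    chq := [(1, 3), (2, 3), (3, 1), (3, 2)]
    rng := [(0, 1), (0, 3), (0, 8), (1, 0), (1, 2), (2, 1), (3, 0), (3, 7), (4, 5), (4, 8), (5, 4), (5,
      6), (6, 5), (6, 7), (7, 3), (7, 6), (8, 0), (8, 4)]
    lev := [] }
  links := [[1, 7, 8, 9], [7, 0, 9, 2, 3, 4, 10], [3, 1, 9, 5], [4, 1, 2, 5, 11, 12, 13, 14], [10, 1, 3,
    14], [11, 3, 2, 9, 8, 6, 15], [15, 5, 8, 7]]
  P := {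
    a := 7
    N := 16
    nb := [898, 1693, 554, 30774, 17418, 35660, 33184, 34115, 737, 295, 16530, 36904, 10248, 20488,
      9240, 2272]
    tri := [(0, 1, 7), (0, 1, 9), (0, 7, 8), (0, 8, 9), (1, 2, 3), (1, 2, 9), (1, 3, 4), (1, 4, 10),
      (1, 7, 10), (2, 3, 5), (2, 5, 9), (3, 4, 14), (3, 5, 11), (3, 11, 12), (3, 12, 13), (3, 13,
      14), (4, 10, 14), (5, 6, 8), (5, 6, 15), (5, 8, 9), (5, 11, 15), (6, 7, 8), (6, 7, 15)]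
    fin := [0, 1, 2, 1, 1, 2, 6, 6, 0, 2, 10, 1, 12, 13, 1, 2]
    chd := [(0, 1), (6, 1)]
    steps := [(0, 8), (1, 3), (1, 4), (1, 11), (1, 14), (2, 5), (2, 9), (2, 15), (6, 7)] }
  rep := [2, 6, 0, 1, 10, 12, 13]

noncomputable def v2228 : Cov.CovD where
  P := 3
  N := 4
  pl := [3, 5, 6]
  lev := [⟨[], [], [(0, 1), (0, 2), (1, 2)], [], [(0, 1, [3]), (1, 2, [3]), (2, 0, [])]⟩,
    ⟨[], [(0, 0), (0, 1), (0, 2)], [(0, 1)], [4], [(0, 1, [3]), (2, 0, [])]⟩,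
    ⟨[(0, 1)], [(0, 0), (1, 0), (1, 1)], [], [], [(2, 0, [])]⟩,
    ⟨[(0, 1), (1, 2)], [(1, 0), (1, 1), (1, 3), (2, 0), (2, 3)], [(3, 3)], [5, 6], [(4, 3,
      [1, 2]), (7, 3, [1, 2])]⟩,
    ⟨[(0, 1), (1, 2), (1, 3), (2, 3)], [(1, 0), (1, 1), (1, 3), (3, 3)], [], [4], [(7, 3,
      [1, 2])]⟩,
    ⟨[(1, 2), (1, 3), (2, 3), (3, 4)], [(0, 0), (0, 2), (1, 0), (2, 0), (2, 2), (2, 3), (3,
      0), (3, 2), (3, 3)], [(0, 0), (0, 2), (0, 3), (2, 3)], [], [(1, 2, [3]), (2, 0, []),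
      (4, 3, [1, 2]), (8, 0, [])]⟩,
    ⟨[(2, 5), (3, 5)], [(0, 1), (0, 2), (1, 1), (5, 0), (5, 1), (5, 2), (5, 3)], [(0, 1),
      (0, 2), (1, 2)], [], [(0, 1, [3]), (1, 2, [3]), (8, 0, [])]⟩]
  Ta := [((2, 1), 0, 2), ((4, 5), 3, 5), ((4, 8), 3, 0), ((7, 3), 3, 4), ((7, 6), 3, 6), ((8, 0),
    0, 1), ((8, 4), 0, 3)]
  Tb := [((0, 1, 3), 1, 2, 4), ((0, 1, 8), 1, 2, 0), ((0, 3, 8), 1, 4, 0), ((1, 0, 2), 2, 1, 0),
    ((3, 0, 7), 4, 1, 3), ((4, 5, 8), 3, 5, 0), ((5, 4, 6), 5, 3, 6), ((6, 5, 7), 6, 5, 3),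
    ((7, 3, 6), 3, 4, 6), ((8, 0, 4), 0, 1, 3)]
  Tc := [(3, 1, 2)]
  Td := [((1, 3), (0, 1), 2), ((1, 3), (0, 3), 4), ((1, 3), (0, 8), 0), ((2, 3), (1, 0), 1), ((2,
    3), (1, 2), 0), ((3, 1), (4, 5), 5), ((3, 1), (4, 8), 0), ((3, 1), (7, 3), 4), ((3, 1),
    (7, 6), 6), ((3, 2), (4, 5), 5), ((3, 2), (4, 8), 0), ((3, 2), (7, 3), 4), ((3, 2), (7,
    6), 6)]
  G := [[0, 0, 0x821484422822842422f482142489421b8cc, 0x142842314246182182182b4c8,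
    0x121121251217412823122482822f812188e8], [0, 0, 0x42182148174422422842822f8c821848c,
    0x18148218274842182841181f2c842828c, 0x18218118172121418183182182bc82188e8], [0,
    0x841841384145481481481481f244188e8, 0, 0x8422441842842d6482482482b88246c1,
    0x82282182825821f4821822821822f8c1], [0, 0x841841841b48149841841841841f868, 0,
    0x84284184278428a841842842b4814ac1, 0x82282282825821f48214821821822bcc1]]

noncomputable def n2228 : Ent := ⟨e2228, noF, [], [], []⟩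

def c2228 : PLift (Cov.check n2228.C.D v2228 = true) := ⟨by decide +kernel⟩

def b2228 : PLift (entF (fidx ts) 400 2228 n2228 = true) := ⟨by decide +kernel⟩

theorem g2228 : GoodF (fidx ts) 400 2228 := GoodF.ofV v2228 n2228 c2228.down b2228.down

/-- 4748474:1882/1 -/
noncomputable def e2229 : SCfg where
  D := {
    a := 7
    L := 10
    kp := 8
    inn := [(0, 1), (1, 0), (1, 2), (1, 3), (1, 4), (2, 1), (2, 3), (2, 5), (3, 1), (3, 2), (3, 4), (3,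
      5), (4, 1), (4, 3), (5, 2), (5, 3), (5, 6), (6, 5)]
    mix := [(0, 0), (0, 1), (0, 2), (1, 0), (1, 2), (1, 3), (2, 2), (3, 4), (3, 5), (3, 6), (3, 7), (4,
      3), (4, 7), (5, 2), (5, 4), (5, 8), (5, 9), (6, 0), (6, 8), (6, 9)]
    cl := [1, 8, 0, 2, 3, 6, 7, 4, 3, 5]
    chq := [(0, 1), (0, 4), (0, 6), (0, 7), (1, 0), (1, 4), (4, 0), (4, 1), (6, 0), (7, 0)]
    rng := [(0, 1), (0, 3), (0, 8), (0, 9), (1, 0), (1, 2), (2, 1), (2, 8), (3, 0), (3, 7), (4, 5), (4,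
      9), (5, 4), (5, 6), (6, 5), (6, 7), (7, 3), (7, 6), (8, 0), (8, 2), (9, 0), (9, 4)]
    lev := [] }
  links := [[1, 7, 8, 9], [7, 0, 9, 2, 3, 4, 10], [3, 1, 9, 5], [4, 1, 2, 5, 11, 12, 13, 14], [10, 1, 3,
    14], [11, 3, 2, 9, 15, 6, 16], [16, 5, 15, 7]]
  P := {
    a := 7
    N := 17
    nb := [898, 1693, 554, 30774, 17418, 100940, 98464, 99651, 641, 33063, 16530, 69672, 10248, 20488,
      9240, 736, 2272]
    tri := [(0, 1, 7), (0, 1, 9), (0, 7, 8), (0, 8, 9), (1, 2, 3), (1, 2, 9), (1, 3, 4), (1, 4, 10),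
      (1, 7, 10), (2, 3, 5), (2, 5, 9), (3, 4, 14), (3, 5, 11), (3, 11, 12), (3, 12, 13), (3, 13,
      14), (4, 10, 14), (5, 6, 15), (5, 6, 16), (5, 9, 15), (5, 11, 16), (6, 7, 15), (6, 7, 16)]
    fin := [0, 0, 2, 2, 0, 5, 0, 0, 8, 2, 10, 5, 12, 13, 14, 5, 16]
    chd := [(0, 2), (0, 14), (2, 12), (2, 13), (2, 14)]
    steps := [(0, 1), (0, 4), (0, 7), (0, 6), (2, 3), (2, 9), (5, 15), (5, 11)] }
  rep := [2, 0, 10, 5, 14, 16, 12, 13, 8]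

noncomputable def v2229 : Cov.CovD where
  P := 3
  N := 6
  pl := [1, 3, 9]
  lev := [⟨[], [], [(0, 1)], [8], [(0, 1, [0, 4]), (2, 0, [1, 4, 6, 7])]⟩,
    ⟨[], [(0, 0), (0, 1)], [(0, 1)], [2], [(0, 1, [0, 4]), (2, 0, [1, 4, 6, 7])]⟩,
    ⟨[(0, 1)], [(0, 0), (1, 0), (1, 1)], [], [], [(2, 0, [1, 4, 6, 7])]⟩,
    ⟨[(0, 1), (1, 2)], [(1, 0), (1, 1), (1, 3), (1, 4), (1, 6), (1, 7), (2, 0), (2, 3), (2,
      4), (2, 6), (2, 7)], [(3, 4), (3, 6), (3, 7), (4, 6), (4, 7), (6, 7)], [], [(4, 3, []),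
      (5, 6, [0]), (6, 7, [0]), (7, 4, [0, 1])]⟩,
    ⟨[(0, 1), (1, 2), (1, 3), (2, 3)], [(1, 0), (1, 1), (1, 4), (3, 3), (3, 4), (3, 6), (3,
      7)], [], [2], [(7, 4, [0, 1])]⟩,
    ⟨[(1, 2), (1, 3), (2, 3), (3, 4)], [(0, 0), (1, 0), (2, 0), (2, 3), (3, 0), (3, 3), (3,
      4), (3, 6), (3, 7)], [(0, 3), (3, 3)], [5], [(2, 0, [1, 4, 6, 7]), (4, 3, []), (8, 3,
      [])]⟩,
    ⟨[(2, 5), (3, 5)], [(0, 1), (1, 1), (5, 0), (5, 1), (5, 3)], [(1, 3)], [5], [(0, 1, [0,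
      4]), (8, 3, [])]⟩]
  Ta := [((4, 5), 3, 6), ((4, 9), 3, 5), ((8, 0), 3, 1), ((8, 2), 3, 0)]
  Tb := [((0, 1, 3), 1, 8, 2), ((0, 1, 8), 1, 8, 3), ((0, 1, 9), 1, 8, 5), ((0, 3, 8), 1, 2, 3),
    ((0, 3, 9), 1, 2, 5), ((0, 8, 9), 1, 3, 5), ((1, 0, 2), 8, 1, 0), ((2, 1, 8), 0, 8, 3),
    ((3, 0, 7), 2, 1, 4), ((4, 5, 9), 3, 6, 5), ((5, 4, 6), 6, 3, 7), ((6, 5, 7), 7, 6, 4),
    ((7, 3, 6), 4, 2, 7), ((8, 0, 2), 3, 1, 0), ((9, 0, 4), 5, 1, 3)]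
  Tc := [(0, 1, 4), (0, 1, 6), (0, 1, 7), (0, 4, 6), (0, 4, 7), (0, 6, 7), (1, 0, 4), (4, 0, 1)]
  Td := [((0, 1), (2, 1), 8), ((0, 1), (2, 8), 3), ((0, 4), (2, 1), 8), ((0, 4), (2, 8), 3), ((0,
    6), (2, 1), 8), ((0, 6), (2, 8), 3), ((0, 7), (2, 1), 8), ((0, 7), (2, 8), 3), ((1, 0),
    (0, 1), 8), ((1, 0), (0, 3), 2), ((1, 0), (0, 8), 3), ((1, 0), (0, 9), 5), ((1, 4), (0,
    1), 8), ((1, 4), (0, 3), 2), ((1, 4), (0, 8), 3), ((1, 4), (0, 9), 5), ((4, 0), (7, 3),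
    2), ((4, 0), (7, 6), 7), ((4, 1), (7, 3), 2), ((4, 1), (7, 6), 7), ((6, 0), (5, 4), 3),
    ((6, 0), (5, 6), 7), ((7, 0), (6, 5), 6), ((7, 0), (6, 7), 4)]
  G := [[0, 0x841e1128141e1184c, 0x14ce2184115e2184c, 0x92c2c1845241252818cc,
    0x481e212884ce2128c], [0, 0x141e1128841e1128a, 0x841e2124815e2148c,
    0xd2496c12449641885a812cc, 0x841e2128841e2128c]]

noncomputable def n2229 : Ent := ⟨e2229, noF, [], [], [(8, 15, [1685356702439545624007900436039642273970977273354372543760009216001, 0])]⟩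

def c2229 : PLift (Cov.check n2229.C.D v2229 = true) := ⟨by decide +kernel⟩

def b2229 : PLift (entF (fidx ts) 400 2229 n2229 = true) := ⟨by decide +kernel⟩

theorem g2229 : GoodF (fidx ts) 400 2229 := GoodF.ofV v2229 n2229 c2229.down b2229.down

/-- 4748474:1882/3 -/
noncomputable def e2230 : SCfg where
  D := {
    a := 7
    L := 10
    kp := 8
    inn := [(0, 1), (1, 0), (1, 2), (1, 3), (1, 4), (2, 1), (2, 3), (2, 5), (3, 1), (3, 2), (3, 4), (3,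
      5), (4, 1), (4, 3), (5, 2), (5, 3), (5, 6), (6, 5)]
    mix := [(0, 0), (0, 1), (0, 2), (1, 0), (1, 2), (1, 3), (2, 2), (3, 4), (3, 5), (3, 6), (3, 7), (4,
      3), (4, 7), (5, 1), (5, 2), (5, 4), (5, 8), (6, 1), (6, 8), (6, 9)]
    cl := [2, 0, 1, 4, 0, 6, 7, 3, 5, 8]
    chq := [(1, 2), (1, 3), (1, 6), (1, 7), (2, 1), (2, 3), (3, 1), (3, 2), (6, 1), (7, 1)]
    rng := [(0, 1), (0, 3), (1, 0), (1, 2), (1, 9), (2, 1), (3, 0), (3, 7), (4, 5), (4, 8), (5, 4), (5,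
      6), (6, 5), (6, 7), (7, 3), (7, 6), (8, 4), (8, 9), (9, 1), (9, 8)]
    lev := [] }
  links := [[1, 7, 8, 9], [7, 0, 9, 2, 3, 4, 10], [3, 1, 9, 5], [4, 1, 2, 5, 11, 12, 13, 14], [10, 1, 3,
    14], [11, 3, 2, 9, 8, 6, 15], [15, 5, 8, 16]]
  P := {
    a := 7
    N := 17
    nb := [898, 1693, 554, 30774, 17418, 35660, 98592, 1283, 66273, 295, 16530, 36904, 10248, 20488,
      9240, 67680, 33088]
    tri := [(0, 1, 7), (0, 1, 9), (0, 7, 8), (0, 8, 9), (1, 2, 3), (1, 2, 9), (1, 3, 4), (1, 4, 10),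
      (1, 7, 10), (2, 3, 5), (2, 5, 9), (3, 4, 14), (3, 5, 11), (3, 11, 12), (3, 12, 13), (3, 13,
      14), (4, 10, 14), (5, 6, 8), (5, 6, 15), (5, 8, 9), (5, 11, 15), (6, 8, 16), (6, 15, 16)]
    fin := [0, 0, 2, 2, 0, 5, 5, 0, 5, 2, 10, 5, 12, 13, 14, 15, 16]
    chd := [(0, 2), (0, 14), (2, 12), (2, 13), (2, 14)]
    steps := [(0, 1), (0, 4), (0, 7), (2, 3), (2, 9), (5, 6), (5, 8), (5, 11)] }
  rep := [5, 2, 0, 14, 10, 15, 12, 13, 16]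

noncomputable def v2230 : Cov.CovD where
  P := 3
  N := 6
  pl := [3, 8, 9]
  lev := [⟨[], [], [(0, 1), (0, 2), (1, 2)], [], [(0, 2, [1, 3]), (1, 0, []), (2, 1, [2, 3, 6,
      7])]⟩,
    ⟨[], [(0, 0), (0, 1), (0, 2)], [(1, 2)], [4], [(0, 2, [1, 3]), (2, 1, [2, 3, 6, 7])]⟩,
    ⟨[(0, 1)], [(0, 1), (1, 1), (1, 2)], [], [], [(2, 1, [2, 3, 6, 7])]⟩,
    ⟨[(0, 1), (1, 2)], [(1, 0), (1, 1), (1, 2), (1, 3), (1, 6), (1, 7), (2, 0), (2, 1), (2,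
      3), (2, 6), (2, 7)], [(0, 3), (0, 6), (0, 7), (3, 6), (3, 7), (6, 7)], [], [(4, 0, []),
      (5, 6, [1]), (6, 7, [1]), (7, 3, [1, 2])]⟩,
    ⟨[(0, 1), (1, 2), (1, 3), (2, 3)], [(1, 1), (1, 2), (1, 3), (3, 0), (3, 3), (3, 6), (3,
      7)], [], [4], [(7, 3, [1, 2])]⟩,
    ⟨[(1, 2), (1, 3), (2, 3), (3, 4)], [(0, 0), (0, 1), (1, 1), (2, 0), (2, 1), (3, 0), (3,
      1), (3, 3), (3, 6), (3, 7)], [(0, 0), (0, 1)], [5], [(1, 0, []), (2, 1, [2, 3, 6, 7]),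
      (4, 0, [])]⟩,
    ⟨[(2, 5), (3, 5)], [(0, 0), (5, 0), (5, 1)], [], [5, 8], [(1, 0, [])]⟩]
  Ta := [((1, 0), 0, 2), ((1, 2), 0, 1), ((1, 9), 0, 8), ((4, 5), 0, 6), ((4, 8), 0, 5)]
  Tb := [((0, 1, 3), 2, 0, 4), ((1, 0, 2), 0, 2, 1), ((1, 0, 9), 0, 2, 8), ((1, 2, 9), 0, 1, 8),
    ((3, 0, 7), 4, 2, 3), ((4, 5, 8), 0, 6, 5), ((5, 4, 6), 6, 0, 7), ((6, 5, 7), 7, 6, 3),
    ((7, 3, 6), 3, 4, 7), ((8, 4, 9), 5, 0, 8), ((9, 1, 8), 8, 0, 5)]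
  Tc := [(1, 2, 3), (1, 2, 6), (1, 2, 7), (1, 3, 6), (1, 3, 7), (1, 6, 7), (2, 1, 3), (3, 1, 2)]
  Td := [((1, 2), (2, 1), 0), ((1, 3), (2, 1), 0), ((1, 6), (2, 1), 0), ((1, 7), (2, 1), 0), ((2,
    1), (0, 1), 0), ((2, 1), (0, 3), 4), ((2, 3), (0, 1), 0), ((2, 3), (0, 3), 4), ((3, 1),
    (7, 3), 4), ((3, 1), (7, 6), 7), ((3, 2), (7, 3), 4), ((3, 2), (7, 6), 7), ((6, 1), (5,
    4), 0), ((6, 1), (5, 6), 7), ((7, 1), (6, 5), 6), ((7, 1), (6, 7), 3)]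
  G := [[0, 0xc6a214ca6ca6ca6e18c8, 0xa6c121a6c121c4, 0xa6c221a6c22154,
    0xa6c44521a2c12a6ca6cc2598], [0, 0, 0, 0x1bc224a1c22494, 0x16c42193c53c93cd2498]]

noncomputable def n2230 : Ent := ⟨e2230, noF, [], [], [(7, 16, [1580044410770988437309982408355971841652082177953823432505698238465, 0])]⟩

def c2230 : PLift (Cov.check n2230.C.D v2230 = true) := ⟨by decide +kernel⟩

def b2230 : PLift (entF (fidx ts) 400 2230 n2230 = true) := ⟨by decide +kernel⟩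

theorem g2230 : GoodF (fidx ts) 400 2230 := GoodF.ofV v2230 n2230 c2230.down b2230.down

/-- 4748474:1882 -/
noncomputable def e2231 : SCfg where
  D := {
    a := 7
    L := 11
    kp := 9
    inn := [(0, 1), (1, 0), (1, 2), (1, 3), (1, 4), (2, 1), (2, 3), (2, 5), (3, 1), (3, 2), (3, 4), (3,
      5), (4, 1), (4, 3), (5, 2), (5, 3), (5, 6), (6, 5)]
    mix := [(0, 0), (0, 1), (0, 2), (1, 0), (1, 2), (1, 3), (2, 2), (3, 4), (3, 5), (3, 6), (3, 7), (4,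
      3), (4, 7), (5, 2), (5, 4), (5, 8), (5, 9), (6, 8), (6, 9), (6, 10)]
    cl := [1, 8, 0, 2, 3, 6, 7, 4, 3, 5, 9]
    chq := [(0, 1), (0, 4), (0, 6), (0, 7), (1, 0), (1, 4), (4, 0), (4, 1), (6, 0), (7, 0)]
    rng := [(0, 1), (0, 3), (1, 0), (1, 2), (2, 1), (2, 8), (3, 0), (3, 7), (4, 5), (4, 9), (5, 4), (5,
      6), (6, 5), (6, 7), (7, 3), (7, 6), (8, 2), (8, 10), (9, 4), (9, 10), (10, 8), (10, 9)]
    lev := [] }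
  links := [[1, 7, 8, 9], [7, 0, 9, 2, 3, 4, 10], [3, 1, 9, 5], [4, 1, 2, 5, 11, 12, 13, 14], [10, 1, 3,
    14], [11, 3, 2, 9, 15, 6, 16], [16, 5, 15, 17]]
  P := {
    a := 7
    N := 18
    nb := [898, 1693, 554, 30774, 17418, 100940, 229408, 1283, 641, 33063, 16530, 69672, 10248, 20488,
      9240, 131680, 133216, 98368]
    tri := [(0, 1, 7), (0, 1, 9), (0, 7, 8), (0, 8, 9), (1, 2, 3), (1, 2, 9), (1, 3, 4), (1, 4, 10),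
      (1, 7, 10), (2, 3, 5), (2, 5, 9), (3, 4, 14), (3, 5, 11), (3, 11, 12), (3, 12, 13), (3, 13,
      14), (4, 10, 14), (5, 6, 15), (5, 6, 16), (5, 9, 15), (5, 11, 16), (6, 15, 17), (6, 16, 17)]
    fin := [0, 0, 2, 2, 0, 5, 5, 0, 8, 2, 10, 5, 12, 13, 14, 5, 16, 17]
    chd := [(0, 2), (0, 14), (2, 12), (2, 13), (2, 14)]
    steps := [(0, 1), (0, 4), (0, 7), (2, 3), (2, 9), (5, 6), (5, 15), (5, 11)] }
  rep := [2, 0, 10, 5, 14, 16, 12, 13, 8, 17]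

noncomputable def v2231 : Cov.CovD where
  P := 3
  N := 7
  pl := [1, 3, 9, 10]
  lev := [⟨[], [], [(0, 1)], [8], [(0, 1, [0, 4]), (2, 0, [1, 4, 6, 7])]⟩,
    ⟨[], [(0, 0), (0, 1)], [(0, 1)], [2], [(0, 1, [0, 4]), (2, 0, [1, 4, 6, 7])]⟩,
    ⟨[(0, 1)], [(0, 0), (1, 0), (1, 1)], [], [], [(2, 0, [1, 4, 6, 7])]⟩,
    ⟨[(0, 1), (1, 2)], [(1, 0), (1, 1), (1, 3), (1, 4), (1, 6), (1, 7), (2, 0), (2, 3), (2,
      4), (2, 6), (2, 7)], [(3, 4), (3, 6), (3, 7), (4, 6), (4, 7), (6, 7)], [], [(4, 3, []),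
      (5, 6, [0]), (6, 7, [0]), (7, 4, [0, 1])]⟩,
    ⟨[(0, 1), (1, 2), (1, 3), (2, 3)], [(1, 0), (1, 1), (1, 4), (3, 3), (3, 4), (3, 6), (3,
      7)], [], [2], [(7, 4, [0, 1])]⟩,
    ⟨[(1, 2), (1, 3), (2, 3), (3, 4)], [(0, 0), (1, 0), (2, 0), (2, 3), (3, 0), (3, 3), (3,
      4), (3, 6), (3, 7)], [(0, 3), (3, 3)], [5], [(2, 0, [1, 4, 6, 7]), (4, 3, []), (8, 3,
      [])]⟩,
    ⟨[(2, 5), (3, 5)], [(5, 0), (5, 3)], [], [5, 9], [(8, 3, [])]⟩]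
  Ta := [((4, 5), 3, 6), ((4, 9), 3, 5), ((8, 2), 3, 0), ((8, 10), 3, 9)]
  Tb := [((0, 1, 3), 1, 8, 2), ((1, 0, 2), 8, 1, 0), ((2, 1, 8), 0, 8, 3), ((3, 0, 7), 2, 1, 4),
    ((4, 5, 9), 3, 6, 5), ((5, 4, 6), 6, 3, 7), ((6, 5, 7), 7, 6, 4), ((7, 3, 6), 4, 2, 7),
    ((8, 2, 10), 3, 0, 9), ((9, 4, 10), 5, 3, 9), ((10, 8, 9), 9, 3, 5)]
  Tc := [(0, 1, 4), (0, 1, 6), (0, 1, 7), (0, 4, 6), (0, 4, 7), (0, 6, 7), (1, 0, 4), (4, 0, 1)]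
  Td := [((0, 1), (2, 1), 8), ((0, 1), (2, 8), 3), ((0, 4), (2, 1), 8), ((0, 4), (2, 8), 3), ((0,
    6), (2, 1), 8), ((0, 6), (2, 8), 3), ((0, 7), (2, 1), 8), ((0, 7), (2, 8), 3), ((1, 0),
    (0, 1), 8), ((1, 0), (0, 3), 2), ((1, 4), (0, 1), 8), ((1, 4), (0, 3), 2), ((4, 0), (7,
    3), 2), ((4, 0), (7, 6), 7), ((4, 1), (7, 3), 2), ((4, 1), (7, 6), 7), ((6, 0), (5, 4),
    3), ((6, 0), (5, 6), 7), ((7, 0), (6, 5), 6), ((7, 0), (6, 7), 4)]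
  G := [[0, 0x9ace11286ace1128c, 0x95ce21289a3e2148c, 0x95ce112895ce1124653e6a3ec184d,
    0x6a3e21489ace2128c], [0, 0x541193a11c42211951e11a8c, 0x322195c2164322195c2168c,
    0x3232c195c95cc1a42232c1951e95cc168c, 0x322195c2168536219821a8c]]

noncomputable def n2231 : Ent := ⟨e2231, noF, [], [], [(7, 17, [6903326391201334775872065844685381424292761054348340378595029938819073, 0]), (8, 15, [7334790850167413569773436004105379185503274260204390087403942013788161, 0])]⟩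

def c2231 : PLift (Cov.check n2231.C.D v2231 = true) := ⟨by decide +kernel⟩

def b2231 : PLift (entF (fidx ts) 400 2231 n2231 = true) := ⟨by decide +kernel⟩

theorem g2231 : GoodF (fidx ts) 400 2231 := GoodF.ofV v2231 n2231 c2231.down b2231.down

/-- 4586646:1884/1 -/
noncomputable def e2232 : SCfg where
  D := {
    a := 7
    L := 10
    kp := 7
    inn := [(0, 1), (0, 2), (0, 3), (1, 0), (1, 2), (2, 0), (2, 1), (2, 3), (2, 4), (2, 6), (3, 0), (3,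
      2), (4, 2), (4, 5), (4, 6), (5, 4), (5, 6), (6, 2), (6, 4), (6, 5)]
    mix := [(0, 0), (1, 0), (1, 1), (1, 2), (2, 2), (2, 3), (2, 4), (3, 0), (3, 4), (3, 5), (3, 6), (4,
      1), (4, 2), (4, 7), (5, 7), (5, 8), (6, 3), (6, 8), (6, 9)]
    cl := [1, 2, 0, 0, 1, 5, 6, 3, 4, 7]
    chq := [(0, 3), (0, 4), (3, 0), (4, 0)]
    rng := [(0, 1), (0, 6), (1, 0), (1, 2), (1, 7), (2, 1), (3, 4), (3, 9), (4, 3), (4, 5), (5, 4), (5,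
      6), (6, 0), (6, 5), (7, 1), (7, 8), (8, 7), (8, 9), (9, 3), (9, 8)]
    lev := [] }
  links := [[1, 2, 3, 7], [2, 0, 7, 8, 9], [3, 0, 1, 9, 4, 6, 10, 11], [7, 0, 2, 11, 12, 13], [6, 2, 9,
    8, 14, 5], [6, 4, 14, 15], [10, 2, 4, 5, 15, 16]]
  P := {
    a := 7
    N := 17
    nb := [142, 901, 3675, 14469, 17252, 49232, 99380, 8459, 17042, 278, 67652, 5132, 10248, 4232,
      33072, 82016, 33856]
    tri := [(0, 1, 2), (0, 1, 7), (0, 2, 3), (0, 3, 7), (1, 2, 9), (1, 7, 8), (1, 8, 9), (2, 3, 11),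
      (2, 4, 6), (2, 4, 9), (2, 6, 10), (2, 10, 11), (3, 7, 13), (3, 11, 12), (3, 12, 13), (4, 5,
      6), (4, 5, 14), (4, 8, 9), (4, 8, 14), (5, 6, 15), (5, 14, 15), (6, 10, 16), (6, 15, 16)]
    fin := [0, 0, 0, 0, 4, 4, 4, 0, 8, 4, 4, 0, 12, 13, 14, 15, 16]
    chd := [(4, 14), (4, 15)]
    steps := [(0, 1), (0, 2), (0, 3), (0, 7), (0, 11), (4, 5), (4, 6), (4, 9), (4, 10)] }
  rep := [4, 0, 8, 14, 15, 12, 13, 16]

noncomputable def v2232 : Cov.CovD where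
  P := 3
  N := 5
  pl := [1, 5, 6, 9]
  lev := [⟨[], [], [], [], [(0, 1, [])]⟩,
    ⟨[], [(0, 0), (0, 1)], [(0, 1)], [2], [(0, 1, []), (2, 0, [3, 4])]⟩,
    ⟨[(0, 1)], [(0, 0), (0, 1), (1, 0), (1, 1)], [(0, 0), (0, 1)], [], [(2, 0, [3, 4]), (3,
      0, [3, 4]), (4, 1, [])]⟩,
    ⟨[(0, 1), (0, 2), (1, 2)], [(0, 1), (1, 1), (2, 0), (2, 1)], [(1, 1)], [5, 6], [(0, 1,
      []), (4, 1, [])]⟩,
    ⟨[(0, 2), (1, 2), (2, 3)], [(1, 0), (2, 0), (2, 1), (2, 3)], [(0, 3)], [2], [(2, 0, [3,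
      4]), (7, 3, [0])]⟩,
    ⟨[(2, 4)], [(4, 0), (4, 3), (4, 4)], [(3, 4)], [], [(7, 3, [0]), (8, 4, [0])]⟩,
    ⟨[(0, 2), (1, 2), (2, 3), (2, 4), (2, 5), (4, 5)], [(2, 0), (2, 1), (2, 4), (4, 0), (4,
      3), (4, 4), (5, 0), (5, 3), (5, 4)], [(0, 4)], [7], [(3, 0, [3, 4]), (8, 4, [0])]⟩]
  Ta := [((0, 1), 1, 2), ((0, 6), 1, 6), ((2, 1), 0, 2), ((3, 4), 0, 1), ((3, 9), 0, 7), ((4, 3),
    1, 0), ((4, 5), 1, 5)]
  Tb := [((0, 1, 6), 1, 2, 6), ((1, 0, 2), 2, 1, 0), ((1, 0, 7), 2, 1, 3), ((1, 2, 7), 2, 0, 3),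
    ((3, 4, 9), 0, 1, 7), ((4, 3, 5), 1, 0, 5), ((5, 4, 6), 5, 1, 6), ((6, 0, 5), 6, 1, 5),
    ((7, 1, 8), 3, 2, 4), ((8, 7, 9), 4, 3, 7), ((9, 3, 8), 7, 0, 4)]
  Tc := [(0, 3, 4)]
  Td := [((0, 3), (2, 1), 2), ((0, 3), (3, 4), 1), ((0, 3), (3, 9), 7), ((0, 4), (2, 1), 2), ((0,
    4), (3, 4), 1), ((0, 4), (3, 9), 7), ((3, 0), (7, 1), 2), ((3, 0), (7, 8), 4), ((4, 0),
    (8, 7), 3), ((4, 0), (8, 9), 7)]
  G := [[0, 0, 0x11c11a64811a116c11a116c92c4, 0x1c31c3c1c31c3c1c31c3cd284,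
    0x4124e1e1a1a5183ae1e1adc81], [0, 0, 0x11c11a6411c116a8c11c11a618c4, 0,
    0xe1e1a11ad396ae1e1ad428], [0, 0, 0, 0x221ca619c11c3c1c389a61e1c48184a54,
    0xe1e1aa1a1ae1e1ad414494681], [0, 0x21a292e1e1ce1e1cc1c49e641, 0, 0,
    0x4144a4e1e1aa1a1ae1e1adc12]]

noncomputable def n2232 : Ent := ⟨e2232, noF, [], [], []⟩

def c2232 : PLift (Cov.check n2232.C.D v2232 = true) := ⟨by decide +kernel⟩

def b2232 : PLift (entF (fidx ts) 400 2232 n2232 = true) := ⟨by decide +kernel⟩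

theorem g2232 : GoodF (fidx ts) 400 2232 := GoodF.ofV v2232 n2232 c2232.down b2232.down

/-- 4586646:1884 -/
noncomputable def e2233 : SCfg where
  D := {
    a := 7
    L := 11
    kp := 8
    inn := [(0, 1), (0, 2), (0, 3), (1, 0), (1, 2), (2, 0), (2, 1), (2, 3), (2, 4), (2, 6), (3, 0), (3,
      2), (4, 2), (4, 5), (4, 6), (5, 4), (5, 6), (6, 2), (6, 4), (6, 5)]
    mix := [(0, 0), (1, 0), (1, 1), (1, 2), (2, 2), (2, 3), (2, 4), (3, 0), (3, 4), (3, 5), (3, 6), (4,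
      2), (4, 7), (4, 8), (5, 8), (5, 9), (6, 3), (6, 9), (6, 10)]
    cl := [1, 2, 0, 0, 1, 5, 6, 7, 3, 4, 8]
    chq := [(0, 3), (0, 4), (3, 0), (4, 0)]
    rng := [(0, 1), (0, 6), (1, 0), (1, 2), (2, 1), (2, 7), (3, 4), (3, 10), (4, 3), (4, 5), (5, 4),
      (5, 6), (6, 0), (6, 5), (7, 2), (7, 8), (8, 7), (8, 9), (9, 8), (9, 10), (10, 3), (10, 9)]
    lev := [] }
  links := [[1, 2, 3, 7], [2, 0, 7, 8, 9], [3, 0, 1, 9, 4, 6, 10, 11], [7, 0, 2, 11, 12, 13], [6, 2, 9,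
    14, 15, 5], [6, 4, 15, 16], [10, 2, 4, 5, 16, 17]]
  P := {
    a := 7
    N := 18
    nb := [142, 901, 3675, 14469, 49764, 98384, 197684, 8459, 642, 16662, 133188, 5132, 10248, 4232,
      33296, 81968, 163936, 66624]
    tri := [(0, 1, 2), (0, 1, 7), (0, 2, 3), (0, 3, 7), (1, 2, 9), (1, 7, 8), (1, 8, 9), (2, 3, 11),
      (2, 4, 6), (2, 4, 9), (2, 6, 10), (2, 10, 11), (3, 7, 13), (3, 11, 12), (3, 12, 13), (4, 5,
      6), (4, 5, 15), (4, 9, 14), (4, 14, 15), (5, 6, 16), (5, 15, 16), (6, 10, 17), (6, 16, 17)]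
    fin := [0, 0, 0, 0, 4, 4, 4, 0, 8, 4, 4, 0, 12, 13, 14, 15, 16, 17]
    chd := [(4, 15), (4, 16)]
    steps := [(0, 1), (0, 2), (0, 3), (0, 7), (0, 11), (4, 5), (4, 6), (4, 9), (4, 10)] }
  rep := [4, 0, 8, 15, 16, 12, 13, 14, 17]

noncomputable def v2233 : Cov.CovD where
  P := 3
  N := 6
  pl := [1, 5, 6, 7, 10]
  lev := [⟨[], [], [], [], [(0, 1, [])]⟩,
    ⟨[], [(0, 0), (0, 1)], [(0, 1)], [2], [(0, 1, []), (2, 0, [3, 4])]⟩,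
    ⟨[(0, 1)], [(0, 0), (0, 1), (1, 0), (1, 1)], [(0, 0), (0, 1)], [], [(2, 0, [3, 4]), (3,
      0, [3, 4]), (4, 1, [])]⟩,
    ⟨[(0, 1), (0, 2), (1, 2)], [(0, 1), (1, 1), (2, 0), (2, 1)], [(1, 1)], [5, 6], [(0, 1,
      []), (4, 1, [])]⟩,
    ⟨[(0, 2), (1, 2), (2, 3)], [(1, 0), (2, 0), (2, 1), (2, 3)], [(0, 3)], [7], [(2, 0, [3,
      4]), (8, 3, [0])]⟩,
    ⟨[(2, 4)], [(4, 0), (4, 3), (4, 4)], [(3, 4)], [], [(8, 3, [0]), (9, 4, [0])]⟩,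
    ⟨[(0, 2), (1, 2), (2, 3), (2, 4), (2, 5), (4, 5)], [(2, 0), (2, 1), (2, 4), (4, 0), (4,
      3), (4, 4), (5, 0), (5, 3), (5, 4)], [(0, 4)], [8], [(3, 0, [3, 4]), (9, 4, [0])]⟩]
  Ta := [((0, 1), 1, 2), ((0, 6), 1, 6), ((2, 1), 0, 2), ((2, 7), 0, 7), ((3, 4), 0, 1), ((3,
    10), 0, 8), ((4, 3), 1, 0), ((4, 5), 1, 5)]
  Tb := [((0, 1, 6), 1, 2, 6), ((1, 0, 2), 2, 1, 0), ((2, 1, 7), 0, 2, 7), ((3, 4, 10), 0, 1, 8),
    ((4, 3, 5), 1, 0, 5), ((5, 4, 6), 5, 1, 6), ((6, 0, 5), 6, 1, 5), ((7, 2, 8), 7, 0, 3),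
    ((8, 7, 9), 3, 7, 4), ((9, 8, 10), 4, 3, 8), ((10, 3, 9), 8, 0, 4)]
  Tc := [(0, 3, 4)]
  Td := [((0, 3), (2, 1), 2), ((0, 3), (2, 7), 7), ((0, 3), (3, 4), 1), ((0, 3), (3, 10), 8),
    ((0, 4), (2, 1), 2), ((0, 4), (2, 7), 7), ((0, 4), (3, 4), 1), ((0, 4), (3, 10), 8), ((3,
    0), (8, 7), 7), ((3, 0), (8, 9), 4), ((4, 0), (9, 8), 3), ((4, 0), (9, 10), 8)]
  G := [[0, 0, 0x2121e1e111e2e1a1e1ed149185c111e111ec414d681,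
    0x1116f41661e1e1e61e1e1ed111afa1a18891884e41,
    0x21a1a16921e1e5c1c1cc14568214164e1a1e1e84148e89], [0, 0,
    0x16981a129111eae1a1e1ed42111e616411a5c144d82c, 0,
    0x1116f441e1c1e144de1e1aa112a169a1e1edc21], [0, 0, 0,
    0x6161661e1e1e61e1e1ed21881881ccced881881de41,
    0xc181cc188552614164e1a1e1e21a1a6121e1ed4148e98], [0,
    0x2eee14e4e16222e1aaa1accce1c81ce42, 0, 0, 0x6122561e1e1ee1a1444e7d82e181c1e818e18d485]]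

noncomputable def n2233 : Ent := ⟨e2233, noF, [], [], [(8, 14, [7334790875878422277917280412776772662961875900559637987928627378618369, 0])]⟩

def c2233 : PLift (Cov.check n2233.C.D v2233 = true) := ⟨by decide +kernel⟩

def b2233 : PLift (entF (fidx ts) 400 2233 n2233 = true) := ⟨by decide +kernel⟩

theorem g2233 : GoodF (fidx ts) 400 2233 := GoodF.ofV v2233 n2233 c2233.down b2233.down

/-- 4748564:1885/1 -/
noncomputable def e2234 : SCfg where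
  D := {
    a := 7
    L := 10
    kp := 7
    inn := [(0, 1), (1, 0), (1, 2), (1, 3), (1, 4), (1, 5), (2, 1), (2, 3), (3, 1), (3, 2), (3, 4), (3,
      6), (4, 1), (4, 3), (4, 5), (5, 1), (5, 4), (6, 3)]
    mix := [(0, 0), (0, 1), (0, 2), (1, 0), (1, 2), (2, 2), (2, 3), (3, 3), (3, 4), (3, 5), (3, 6), (4,
      6), (4, 7), (5, 0), (5, 7), (5, 8), (5, 9), (6, 1), (6, 3), (6, 4)]
    cl := [0, 2, 1, 3, 5, 3, 4, 0, 6, 7]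
    chq := [(1, 4), (2, 4), (4, 1), (4, 2)]
    rng := [(0, 1), (0, 9), (1, 0), (1, 2), (1, 3), (1, 4), (2, 1), (2, 3), (3, 1), (3, 2), (4, 1), (4,
      5), (5, 4), (5, 6), (6, 5), (6, 7), (7, 6), (7, 8), (8, 7), (8, 9), (9, 0), (9, 8)]
    lev := [] }
  links := [[1, 7, 8, 9], [7, 0, 9, 2, 3, 4, 5], [3, 1, 9, 10], [4, 1, 2, 10, 6, 11, 12, 13], [5, 1, 3,
    13, 14], [7, 1, 4, 14, 15, 16], [11, 3, 10, 8]]
  P := {
    a := 7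
    N := 17
    nb := [898, 701, 1546, 15446, 24618, 114834, 3336, 65827, 3777, 1287, 844, 4424, 10248, 20504,
      41008, 81952, 32928]
    tri := [(0, 1, 7), (0, 1, 9), (0, 7, 8), (0, 8, 9), (1, 2, 3), (1, 2, 9), (1, 3, 4), (1, 4, 5), (1,
      5, 7), (2, 3, 10), (2, 9, 10), (3, 4, 13), (3, 6, 10), (3, 6, 11), (3, 11, 12), (3, 12, 13),
      (4, 5, 14), (4, 13, 14), (5, 7, 16), (5, 14, 15), (5, 15, 16), (6, 8, 10), (6, 8, 11)]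
    fin := [0, 1, 2, 3, 1, 5, 0, 5, 0, 2, 3, 11, 3, 1, 5, 15, 16]
    chd := [(0, 1), (2, 1)]
    steps := [(0, 8), (0, 6), (1, 4), (1, 13), (2, 9), (3, 10), (3, 12), (5, 7), (5, 14)] }
  rep := [5, 2, 0, 3, 1, 11, 15, 16]

noncomputable def v2234 : Cov.CovD where
  P := 3
  N := 5
  pl := [4, 8, 9]
  lev := [⟨[], [], [(0, 1), (0, 2), (1, 2)], [], [(0, 0, []), (1, 2, [4]), (2, 1, [4])]⟩,
    ⟨[], [(0, 0), (0, 1), (0, 2)], [(0, 1)], [], [(0, 0, []), (2, 1, [4])]⟩,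
    ⟨[(0, 1)], [(0, 1), (1, 0), (1, 1), (1, 3)], [(1, 3)], [], [(2, 1, [4]), (3, 3, [])]⟩,
    ⟨[(0, 1), (1, 2)], [(1, 0), (1, 1), (1, 3), (1, 4), (2, 1), (2, 3), (2, 4)], [(3, 3),
      (3, 4)], [5], [(3, 3, []), (5, 3, []), (6, 4, [1, 2])]⟩,
    ⟨[(0, 1), (1, 2), (1, 3), (2, 3)], [(1, 0), (1, 1), (1, 4), (3, 0), (3, 3), (3, 4)],
      [(0, 4)], [], [(6, 4, [1, 2]), (7, 0, [])]⟩,
    ⟨[(0, 1), (1, 2), (1, 3), (1, 4), (3, 4)], [(0, 0), (1, 0), (1, 1), (4, 0), (4, 4)],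
      [(0, 0)], [6, 7], [(0, 0, []), (7, 0, [])]⟩,
    ⟨[(1, 3), (2, 3), (3, 4)], [(0, 2), (2, 3), (3, 2), (3, 3), (3, 4)], [(2, 3)], [5],
      [(1, 2, [4]), (3, 3, [])]⟩]
  Ta := [((0, 1), 0, 2), ((0, 9), 0, 7), ((3, 1), 3, 2), ((3, 2), 3, 1), ((5, 4), 3, 5), ((5, 6),
    3, 4), ((7, 6), 0, 4), ((7, 8), 0, 6)]
  Tb := [((0, 1, 9), 0, 2, 7), ((1, 0, 2), 2, 0, 1), ((1, 0, 3), 2, 0, 3), ((1, 0, 4), 2, 0, 5),
    ((1, 2, 3), 2, 1, 3), ((1, 2, 4), 2, 1, 5), ((1, 3, 4), 2, 3, 5), ((2, 1, 3), 1, 2, 3),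
    ((3, 1, 2), 3, 2, 1), ((4, 1, 5), 5, 2, 3), ((5, 4, 6), 3, 5, 4), ((6, 5, 7), 4, 3, 0),
    ((7, 6, 8), 0, 4, 6), ((8, 7, 9), 6, 0, 7), ((9, 0, 8), 7, 0, 6)]
  Tc := [(4, 1, 2)]
  Td := [((1, 4), (2, 1), 2), ((1, 4), (2, 3), 3), ((2, 4), (1, 0), 0), ((2, 4), (1, 2), 1), ((2,
    4), (1, 3), 3), ((2, 4), (1, 4), 5), ((4, 1), (6, 5), 3), ((4, 1), (6, 7), 0), ((4, 2),
    (6, 5), 3), ((4, 2), (6, 7), 0)]
  G := [[0, 0x98612445e1111e23c88128488e1181e45888e18ce4, 0xe2eeee61184, 0x99612c55e129812d84,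
    0xa4a2344114274442a81888e11211c6f48a124a11218ab2824dc8], [0, 0x445e1111e23848,
    0xa2aaae61484, 0xccce12148, 0xa4a2341482181cc88e148239c8], [0,
    0x88284c9a84e111e2788a255a8ac444624442448411e2bc8c, 0, 0xd2c2ccce29299c62584,
    0xa8621425b2a8a28ae4124713c2339e4828867d8828888e285c1], [0, 0x445e44a44e111e23848, 0,
    0x929299ce2414, 0xa2aaaea888e46181]]

noncomputable def n2234 : Ent := ⟨e2234, noF, [], [], []⟩

def c2234 : PLift (Cov.check n2234.C.D v2234 = true) := ⟨by decide +kernel⟩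

def b2234 : PLift (entF (fidx ts) 400 2234 n2234 = true) := ⟨by decide +kernel⟩

theorem g2234 : GoodF (fidx ts) 400 2234 := GoodF.ofV v2234 n2234 c2234.down b2234.down

/-- 4748564:1885/2 -/
noncomputable def e2235 : SCfg where
  D := {
    a := 7
    L := 10
    kp := 7
    inn := [(0, 1), (1, 0), (1, 2), (1, 3), (1, 4), (1, 5), (2, 1), (2, 3), (3, 1), (3, 2), (3, 4), (3,
      6), (4, 1), (4, 3), (4, 5), (5, 1), (5, 4), (6, 3)]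
    mix := [(0, 0), (0, 1), (0, 2), (1, 0), (1, 2), (2, 2), (2, 3), (3, 3), (3, 4), (3, 5), (3, 6), (4,
      6), (4, 7), (5, 0), (5, 7), (5, 8), (5, 9), (6, 3), (6, 4), (6, 8)]
    cl := [0, 6, 2, 1, 4, 5, 1, 0, 3, 7]
    chq := [(0, 2), (2, 0), (3, 5), (5, 3)]
    rng := [(0, 1), (0, 9), (1, 0), (1, 2), (2, 1), (2, 3), (3, 2), (3, 8), (4, 5), (4, 8), (5, 4), (5,
      6), (6, 5), (6, 7), (7, 6), (7, 8), (8, 3), (8, 4), (8, 7), (8, 9), (9, 0), (9, 8)]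
    lev := [] }
  links := [[1, 7, 8, 9], [7, 0, 9, 2, 3, 4, 5], [3, 1, 9, 10], [4, 1, 2, 10, 6, 11, 12, 13], [5, 1, 3,
    13, 14], [7, 1, 4, 14, 15, 16], [11, 3, 10, 15]]
  P := {
    a := 7
    N := 17
    nb := [898, 701, 1546, 15446, 24618, 114834, 35848, 65827, 641, 1287, 33356, 36936, 10248, 20504,
      41008, 85088, 32928]
    tri := [(0, 1, 7), (0, 1, 9), (0, 7, 8), (0, 8, 9), (1, 2, 3), (1, 2, 9), (1, 3, 4), (1, 4, 5), (1,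
      5, 7), (2, 3, 10), (2, 9, 10), (3, 4, 13), (3, 6, 10), (3, 6, 11), (3, 11, 12), (3, 12, 13),
      (4, 5, 14), (4, 13, 14), (5, 7, 16), (5, 14, 15), (5, 15, 16), (6, 10, 15), (6, 11, 15)]
    fin := [0, 1, 1, 3, 1, 0, 3, 0, 8, 9, 1, 11, 12, 1, 0, 3, 16]
    chd := [(0, 9), (12, 3)]
    steps := [(0, 7), (0, 5), (0, 14), (1, 2), (1, 4), (1, 10), (1, 13), (3, 6), (3, 15)] }
  rep := [0, 1, 9, 3, 11, 12, 8, 16]

noncomputable def v2235 : Cov.CovD where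
  P := 3
  N := 5
  pl := [1, 4, 9]
  lev := [⟨[], [], [(0, 2)], [6], [(0, 0, [2]), (2, 2, [0])]⟩,
    ⟨[], [(0, 0), (0, 2)], [(0, 2)], [], [(0, 0, [2]), (2, 2, [0])]⟩,
    ⟨[(0, 1)], [(0, 2), (1, 0), (1, 1), (1, 2)], [(1, 2)], [], [(2, 2, [0]), (3, 1, [])]⟩,
    ⟨[(0, 1), (1, 2)], [(1, 0), (1, 1), (1, 2), (1, 5), (2, 1), (2, 2), (2, 5)], [(1, 1),
      (1, 5)], [4], [(3, 1, []), (5, 5, [3]), (6, 1, [])]⟩,
    ⟨[(0, 1), (1, 2), (1, 3), (2, 3)], [(1, 0), (1, 1), (1, 2), (3, 0), (3, 1), (3, 5)],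
      [(0, 1)], [], [(6, 1, []), (7, 0, [2])]⟩,
    ⟨[(0, 1), (1, 2), (1, 3), (1, 4), (3, 4)], [(0, 0), (1, 0), (1, 2), (1, 3), (4, 0), (4,
      1), (4, 3)], [(0, 0), (0, 3)], [7], [(0, 0, [2]), (7, 0, [2]), (8, 3, [5])]⟩,
    ⟨[(1, 3), (2, 3), (3, 4)], [(2, 1), (3, 1), (3, 3), (3, 5), (5, 3)], [(1, 3)], [4],
      [(3, 1, []), (8, 3, [5])]⟩]
  Ta := [((0, 1), 0, 6), ((0, 9), 0, 7), ((3, 2), 1, 2), ((3, 8), 1, 3), ((6, 5), 1, 5), ((6, 7),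
    1, 0), ((7, 6), 0, 1), ((7, 8), 0, 3)]
  Tb := [((0, 1, 9), 0, 6, 7), ((1, 0, 2), 6, 0, 2), ((2, 1, 3), 2, 6, 1), ((3, 2, 8), 1, 2, 3),
    ((4, 5, 8), 4, 5, 3), ((5, 4, 6), 5, 4, 1), ((6, 5, 7), 1, 5, 0), ((7, 6, 8), 0, 1, 3),
    ((8, 3, 4), 3, 1, 4), ((8, 3, 7), 3, 1, 0), ((8, 3, 9), 3, 1, 7), ((8, 4, 7), 3, 4, 0),
    ((8, 4, 9), 3, 4, 7), ((8, 7, 9), 3, 0, 7), ((9, 0, 8), 7, 0, 3)]
  Tc := []
  Td := [((0, 2), (0, 1), 6), ((0, 2), (0, 9), 7), ((0, 2), (7, 6), 1), ((0, 2), (7, 8), 3), ((2,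
    0), (2, 1), 6), ((2, 0), (2, 3), 1), ((3, 5), (8, 3), 1), ((3, 5), (8, 4), 4), ((3, 5),
    (8, 7), 0), ((3, 5), (8, 9), 7), ((5, 3), (5, 4), 4), ((5, 3), (5, 6), 1)]
  G := [[0, 0, 0x855e4999e8111e8d42556199698a1211cad488484ac,
    0x12146144245855e199a1882d1c1281c615564496989c588281cc,
    0x111e41855e1949e8c92121461521984963c84d985c481aa], [0, 0,
    0x822e1219e1111e8d42122e1243e1111e8d82c, 0,
    0x222e1949e1811e4d823244164522648928434c1184d8aa], [0, 0,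
    0x85a112894544949e111c8d86949e1111e45855e4892c, 0x9294ca415415ac448cac91c1,
    0x855e4949e8ccce4d121], [0, 0x44241115e29aa29c1e8e8c1,
    0x242e41825e1313e1c52349e1121e85252e48c2c, 0, 0x122e4243e8846e8d121]]

noncomputable def n2235 : Ent := ⟨e2235, noF, [], [], []⟩

def c2235 : PLift (Cov.check n2235.C.D v2235 = true) := ⟨by decide +kernel⟩

def b2235 : PLift (entF (fidx ts) 400 2235 n2235 = true) := ⟨by decide +kernel⟩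

theorem g2235 : GoodF (fidx ts) 400 2235 := GoodF.ofV v2235 n2235 c2235.down b2235.down

/-- 4748564:1885/3 -/
noncomputable def e2236 : SCfg where
  D := {
    a := 7
    L := 10
    kp := 7
    inn := [(0, 1), (1, 0), (1, 2), (1, 3), (1, 4), (1, 5), (2, 1), (2, 3), (3, 1), (3, 2), (3, 4), (3,
      6), (4, 1), (4, 3), (4, 5), (5, 1), (5, 4), (6, 3)]
    mix := [(0, 0), (0, 1), (0, 2), (1, 0), (1, 2), (2, 2), (2, 3), (3, 3), (3, 4), (3, 5), (3, 6), (4,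
      6), (4, 7), (5, 0), (5, 7), (5, 8), (5, 9), (6, 3), (6, 4), (6, 9)]
    cl := [0, 6, 2, 1, 4, 5, 1, 0, 7, 3]
    chq := [(0, 2), (2, 0), (3, 5), (5, 3)]
    rng := [(0, 1), (0, 9), (1, 0), (1, 2), (2, 1), (2, 3), (3, 2), (3, 9), (4, 5), (4, 9), (5, 4), (5,
      6), (6, 5), (6, 7), (7, 6), (7, 8), (8, 7), (8, 9), (9, 0), (9, 3), (9, 4), (9, 8)]
    lev := [] }
  links := [[1, 7, 8, 9], [7, 0, 9, 2, 3, 4, 5], [3, 1, 9, 10], [4, 1, 2, 10, 6, 11, 12, 13], [5, 1, 3,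
    13, 14], [7, 1, 4, 14, 15, 16], [11, 3, 10, 16]]
  P := {
    a := 7
    N := 17
    nb := [898, 701, 1546, 15446, 24618, 114834, 68616, 65827, 641, 1287, 66124, 69704, 10248, 20504,
      41008, 81952, 36064]
    tri := [(0, 1, 7), (0, 1, 9), (0, 7, 8), (0, 8, 9), (1, 2, 3), (1, 2, 9), (1, 3, 4), (1, 4, 5), (1,
      5, 7), (2, 3, 10), (2, 9, 10), (3, 4, 13), (3, 6, 10), (3, 6, 11), (3, 11, 12), (3, 12, 13),
      (4, 5, 14), (4, 13, 14), (5, 7, 16), (5, 14, 15), (5, 15, 16), (6, 10, 16), (6, 11, 16)]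
    fin := [0, 1, 1, 3, 1, 0, 3, 0, 8, 9, 1, 11, 12, 1, 0, 15, 3]
    chd := [(0, 9), (12, 3)]
    steps := [(0, 7), (0, 5), (0, 14), (1, 2), (1, 4), (1, 10), (1, 13), (3, 6), (3, 16)] }
  rep := [0, 1, 9, 3, 11, 12, 8, 15]

noncomputable def v2236 : Cov.CovD where
  P := 3
  N := 5
  pl := [1, 4, 8]
  lev := [⟨[], [], [(0, 2)], [6], [(0, 0, [2]), (2, 2, [0])]⟩,
    ⟨[], [(0, 0), (0, 2)], [(0, 2)], [], [(0, 0, [2]), (2, 2, [0])]⟩,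
    ⟨[(0, 1)], [(0, 2), (1, 0), (1, 1), (1, 2)], [(1, 2)], [], [(2, 2, [0]), (3, 1, [])]⟩,
    ⟨[(0, 1), (1, 2)], [(1, 0), (1, 1), (1, 2), (1, 5), (2, 1), (2, 2), (2, 5)], [(1, 1),
      (1, 5)], [4], [(3, 1, []), (5, 5, [3]), (6, 1, [])]⟩,
    ⟨[(0, 1), (1, 2), (1, 3), (2, 3)], [(1, 0), (1, 1), (1, 2), (3, 0), (3, 1), (3, 5)],
      [(0, 1)], [], [(6, 1, []), (7, 0, [2])]⟩,
    ⟨[(0, 1), (1, 2), (1, 3), (1, 4), (3, 4)], [(0, 0), (1, 0), (1, 2), (1, 3), (4, 0), (4,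
      1), (4, 3)], [(0, 0), (0, 3)], [7], [(0, 0, [2]), (7, 0, [2]), (9, 3, [5])]⟩,
    ⟨[(1, 3), (2, 3), (3, 4)], [(2, 1), (3, 1), (3, 3), (3, 5), (5, 3)], [(1, 3)], [4],
      [(3, 1, []), (9, 3, [5])]⟩]
  Ta := [((0, 1), 0, 6), ((0, 9), 0, 3), ((3, 2), 1, 2), ((3, 9), 1, 3), ((6, 5), 1, 5), ((6, 7),
    1, 0), ((7, 6), 0, 1), ((7, 8), 0, 7)]
  Tb := [((0, 1, 9), 0, 6, 3), ((1, 0, 2), 6, 0, 2), ((2, 1, 3), 2, 6, 1), ((3, 2, 9), 1, 2, 3),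
    ((4, 5, 9), 4, 5, 3), ((5, 4, 6), 5, 4, 1), ((6, 5, 7), 1, 5, 0), ((7, 6, 8), 0, 1, 7),
    ((8, 7, 9), 7, 0, 3), ((9, 0, 3), 3, 0, 1), ((9, 0, 4), 3, 0, 4), ((9, 0, 8), 3, 0, 7),
    ((9, 3, 4), 3, 1, 4), ((9, 3, 8), 3, 1, 7), ((9, 4, 8), 3, 4, 7)]
  Tc := []
  Td := [((0, 2), (0, 1), 6), ((0, 2), (0, 9), 3), ((0, 2), (7, 6), 1), ((0, 2), (7, 8), 7), ((2,
    0), (2, 1), 6), ((2, 0), (2, 3), 1), ((3, 5), (9, 0), 0), ((3, 5), (9, 3), 1), ((3, 5),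
    (9, 4), 4), ((3, 5), (9, 8), 7), ((5, 3), (5, 4), 4), ((5, 3), (5, 6), 1)]
  G := [[0, 0, 0x855e4999e8111e8d42556199698a1211cad488484ac,
    0x496141981c9a446585a54689c556194c923cc688ad188181cc,
    0x949e11cce45855e18921c6415561949e1c9884c8891aa], [0, 0,
    0x241e1211e4582222e1842e1211e8d82822e113a8c14e, 0,
    0x852e1243e1826e8d122361a4ae142628cd1a8481aa], [0, 0,
    0x111e41855e4949e8c92556199a1111e4d4484588284ca, 0x14248811e8185a54699a8c9c1,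
    0x949e8111e45855e48921], [0, 0x44248111e23aa2c52e8e8c1,
    0x811e81222e4349e1c92833e1222e1111e4d42c, 0, 0x526423628cc1184121e498a1]]

noncomputable def n2236 : Ent := ⟨e2236, noF, [], [], []⟩

def c2236 : PLift (Cov.check n2236.C.D v2236 = true) := ⟨by decide +kernel⟩

def b2236 : PLift (entF (fidx ts) 400 2236 n2236 = true) := ⟨by decide +kernel⟩

theorem g2236 : GoodF (fidx ts) 400 2236 := GoodF.ofV v2236 n2236 c2236.down b2236.down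

/-- 4748564:1885 -/
noncomputable def e2237 : SCfg where
  D := {
    a := 7
    L := 11
    kp := 8
    inn := [(0, 1), (1, 0), (1, 2), (1, 3), (1, 4), (1, 5), (2, 1), (2, 3), (3, 1), (3, 2), (3, 4), (3,
      6), (4, 1), (4, 3), (4, 5), (5, 1), (5, 4), (6, 3)]
    mix := [(0, 0), (0, 1), (0, 2), (1, 0), (1, 2), (2, 2), (2, 3), (3, 3), (3, 4), (3, 5), (3, 6), (4,
      6), (4, 7), (5, 0), (5, 7), (5, 8), (5, 9), (6, 3), (6, 4), (6, 10)]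
    cl := [0, 6, 2, 1, 3, 4, 1, 0, 7, 8, 5]
    chq := [(0, 2), (2, 0), (4, 5), (5, 4)]
    rng := [(0, 1), (0, 9), (1, 0), (1, 2), (2, 1), (2, 3), (3, 2), (3, 10), (4, 5), (4, 10), (5, 4),
      (5, 6), (6, 5), (6, 7), (7, 6), (7, 8), (8, 7), (8, 9), (9, 0), (9, 8), (10, 3), (10, 4)]
    lev := [] }
  links := [[1, 7, 8, 9], [7, 0, 9, 2, 3, 4, 5], [3, 1, 9, 10], [4, 1, 2, 10, 6, 11, 12, 13], [5, 1, 3,
    13, 14], [7, 1, 4, 14, 15, 16], [11, 3, 10, 17]]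
  P := {
    a := 7
    N := 18
    nb := [898, 701, 1546, 15446, 24618, 114834, 134152, 65827, 641, 1287, 131660, 135240, 10248,
      20504, 41008, 81952, 32928, 3136]
    tri := [(0, 1, 7), (0, 1, 9), (0, 7, 8), (0, 8, 9), (1, 2, 3), (1, 2, 9), (1, 3, 4), (1, 4, 5), (1,
      5, 7), (2, 3, 10), (2, 9, 10), (3, 4, 13), (3, 6, 10), (3, 6, 11), (3, 11, 12), (3, 12, 13),
      (4, 5, 14), (4, 13, 14), (5, 7, 16), (5, 14, 15), (5, 15, 16), (6, 10, 17), (6, 11, 17)]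
    fin := [0, 1, 1, 3, 1, 0, 3, 0, 8, 9, 1, 11, 12, 1, 0, 15, 16, 3]
    chd := [(0, 9), (12, 3)]
    steps := [(0, 7), (0, 5), (0, 14), (1, 2), (1, 4), (1, 10), (1, 13), (3, 6), (3, 17)] }
  rep := [0, 1, 9, 11, 12, 3, 8, 15, 16]

noncomputable def v2237 : Cov.CovD where
  P := 3
  N := 6
  pl := [1, 4, 8, 9]
  lev := [⟨[], [], [(0, 2)], [6], [(0, 0, [2]), (2, 2, [0])]⟩,
    ⟨[], [(0, 0), (0, 2)], [(0, 2)], [], [(0, 0, [2]), (2, 2, [0])]⟩,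
    ⟨[(0, 1)], [(0, 2), (1, 0), (1, 1), (1, 2)], [(1, 2)], [], [(2, 2, [0]), (3, 1, [])]⟩,
    ⟨[(0, 1), (1, 2)], [(1, 0), (1, 1), (1, 2), (1, 4), (2, 1), (2, 2), (2, 4)], [(1, 1),
      (1, 4)], [3], [(3, 1, []), (5, 4, [5]), (6, 1, [])]⟩,
    ⟨[(0, 1), (1, 2), (1, 3), (2, 3)], [(1, 0), (1, 1), (1, 2), (3, 0), (3, 1), (3, 4)],
      [(0, 1)], [], [(6, 1, []), (7, 0, [2])]⟩,
    ⟨[(0, 1), (1, 2), (1, 3), (1, 4), (3, 4)], [(0, 0), (1, 0), (1, 2), (4, 0), (4, 1)],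
      [(0, 0)], [7, 8], [(0, 0, [2]), (7, 0, [2])]⟩,
    ⟨[(1, 3), (2, 3), (3, 4)], [(2, 1), (3, 1), (3, 4), (3, 5)], [(1, 5)], [3], [(3, 1,
      []), (10, 5, [4])]⟩]
  Ta := [((0, 1), 0, 6), ((0, 9), 0, 8), ((3, 2), 1, 2), ((3, 10), 1, 5), ((6, 5), 1, 4), ((6,
    7), 1, 0), ((7, 6), 0, 1), ((7, 8), 0, 7)]
  Tb := [((0, 1, 9), 0, 6, 8), ((1, 0, 2), 6, 0, 2), ((2, 1, 3), 2, 6, 1), ((3, 2, 10), 1, 2, 5),
    ((4, 5, 10), 3, 4, 5), ((5, 4, 6), 4, 3, 1), ((6, 5, 7), 1, 4, 0), ((7, 6, 8), 0, 1, 7),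
    ((8, 7, 9), 7, 0, 8), ((9, 0, 8), 8, 0, 7), ((10, 3, 4), 5, 1, 3)]
  Tc := []
  Td := [((0, 2), (0, 1), 6), ((0, 2), (0, 9), 8), ((0, 2), (7, 6), 1), ((0, 2), (7, 8), 7), ((2,
    0), (2, 1), 6), ((2, 0), (2, 3), 1), ((4, 5), (5, 4), 3), ((4, 5), (5, 6), 1), ((5, 4),
    (10, 3), 1), ((5, 4), (10, 4), 3)]
  G := [[0, 0, 0x999e1ccce45555e1892555e199a1ccce8d89484866,
    0x9492341541988ccce8d585238cc5564999e1ccce4d458188cc,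
    0xccce41555e1999e1c9252199698ac28d155c1ccc498aa], [0, 0,
    0x352e1a29e12a6e4d82366422ae1c26a8cd48581824e, 0,
    0x333e4222e8aaae4d12666412264a39e1284d968181aa], [0, 0,
    0x555e4999e1ccce8d4299614542982ccce4dc5852384ca, 0x942415255c699a8ccce8d8c1,
    0xccce41555e4999e8c921], [0, 0x1362a31e2925ccce418488c1,
    0x322e1233e8a66e4d82e3a181344222e8aaae8d46c, 0, 0x562e4279e8c26e8d121]]

noncomputable def n2237 : Ent := ⟨e2237, noF, [], [], [(8, 17, [6903326391201334775872065844685381424292761054348340378595029938839553, 0]), (17, 15, [6903537015784671890245461680740748765157398844539141476817538560798721, 0]), (17, 16, [7334685537875745012586738086077695515070955365108989538292687702835201, 0])]⟩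

def c2237 : PLift (Cov.check n2237.C.D v2237 = true) := ⟨by decide +kernel⟩

def b2237 : PLift (entF (fidx ts) 400 2237 n2237 = true) := ⟨by decide +kernel⟩

theorem g2237 : GoodF (fidx ts) 400 2237 := GoodF.ofV v2237 n2237 c2237.down b2237.down

/-- 4694454:1886/1 -/
noncomputable def e2238 : SCfg where
  D := {
    a := 7
    L := 10
    kp := 7
    inn := [(0, 1), (0, 2), (1, 0), (1, 6), (2, 0), (2, 3), (2, 4), (2, 5), (3, 2), (4, 2), (4, 5), (5,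
      2), (5, 4), (6, 1)]
    mix := [(0, 0), (0, 1), (1, 0), (1, 1), (1, 2), (1, 3), (2, 0), (2, 1), (2, 4), (2, 5), (2, 6), (3,
      4), (3, 5), (3, 7), (4, 6), (4, 8), (5, 1), (5, 8), (5, 9), (6, 1), (6, 2), (6, 9)]
    cl := [0, 0, 4, 6, 2, 0, 1, 7, 5, 3]
    chq := [(1, 3), (3, 1), (3, 6), (6, 3)]
    rng := [(0, 3), (0, 4), (1, 9), (2, 3), (2, 9), (3, 0), (3, 2), (4, 0), (4, 7), (5, 6), (5, 7), (6,
      5), (6, 8), (7, 4), (7, 5), (8, 6), (8, 9), (9, 1), (9, 2), (9, 8)]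
    lev := [] }
  links := [[1, 7, 2, 8], [7, 0, 8, 6, 9, 10], [8, 0, 7, 11, 3, 12, 13, 4, 5], [12, 2, 11, 14], [5, 2,
    13, 15], [8, 2, 4, 15, 16], [9, 1, 8, 16]]
  P := {
    a := 7
    N := 17
    nb := [390, 1985, 14777, 22532, 40996, 98580, 66306, 3079, 65639, 66626, 642, 16524, 24588, 36884,
      6152, 73776, 33632]
    tri := [(0, 1, 7), (0, 1, 8), (0, 2, 7), (0, 2, 8), (1, 6, 8), (1, 6, 9), (1, 7, 10), (1, 9, 10),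
      (2, 3, 11), (2, 3, 12), (2, 4, 5), (2, 4, 13), (2, 5, 8), (2, 7, 11), (2, 12, 13), (3, 11,
      14), (3, 12, 14), (4, 5, 15), (4, 13, 15), (5, 8, 16), (5, 15, 16), (6, 8, 16), (6, 9, 16)]
    fin := [0, 1, 0, 0, 4, 4, 1, 0, 0, 9, 10, 11, 0, 4, 14, 15, 1]
    chd := [(4, 1), (10, 1)]
    steps := [(0, 2), (0, 3), (0, 7), (0, 12), (0, 8), (1, 6), (1, 16), (4, 5), (4, 13)] }
  rep := [0, 4, 11, 1, 9, 15, 10, 14]

noncomputable def v2238 : Cov.CovD where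
  P := 3
  N := 5
  pl := [2, 4, 7, 8]
  lev := [⟨[], [], [(0, 0)], [], [(0, 0, []), (1, 0, [])]⟩,
    ⟨[], [(0, 0), (0, 6)], [(0, 0), (0, 6)], [4], [(0, 0, []), (1, 0, []), (3, 6, [3])]⟩,
    ⟨[(0, 1)], [(0, 0), (0, 1), (1, 0)], [(0, 0), (0, 1)], [2], [(0, 0, []), (1, 0, []),
      (5, 0, []), (6, 1, [3])]⟩,
    ⟨[(0, 2)], [(2, 0), (2, 1)], [], [2, 7], [(5, 0, [])]⟩,
    ⟨[(0, 2), (2, 3)], [(2, 0), (2, 1)], [], [5], [(6, 1, [3])]⟩,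
    ⟨[(0, 2), (2, 3), (2, 4)], [(0, 0), (1, 0), (2, 0), (2, 1), (2, 3), (4, 0), (4, 1), (4,
      3)], [(0, 3)], [5], [(1, 0, []), (9, 3, [1, 6])]⟩,
    ⟨[(0, 1)], [(0, 0), (1, 0), (1, 3), (1, 6), (2, 0), (5, 0), (5, 3)], [(0, 3)], [4],
      [(1, 0, []), (9, 3, [1, 6])]⟩]
  Ta := [((0, 3), 0, 6), ((0, 4), 0, 2), ((1, 9), 0, 3), ((5, 6), 0, 1), ((5, 7), 0, 7)]
  Tb := [((0, 3, 4), 0, 6, 2), ((2, 3, 9), 4, 6, 3), ((3, 0, 2), 6, 0, 4), ((4, 0, 7), 2, 0, 7),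
    ((5, 6, 7), 0, 1, 7), ((6, 5, 8), 1, 0, 5), ((7, 4, 5), 7, 2, 0), ((8, 6, 9), 5, 1, 3),
    ((9, 1, 2), 3, 0, 4), ((9, 1, 8), 3, 0, 5), ((9, 2, 8), 3, 4, 5)]
  Tc := [(3, 1, 6)]
  Td := [((1, 3), (6, 5), 0), ((1, 3), (6, 8), 5), ((3, 1), (9, 1), 0), ((3, 1), (9, 2), 4), ((3,
    1), (9, 8), 5), ((3, 6), (9, 1), 0), ((3, 6), (9, 2), 4), ((3, 6), (9, 8), 5), ((6, 3),
    (3, 0), 0), ((6, 3), (3, 2), 4)]
  G := [[0, 0, 0xa192ca132ca411c129528c14e4621646112c618e88c, 0x16352914a1a2c1852312914e4,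
    0x6112c1832a1c18c1c2c18e2], [0, 0, 0, 0x84cc2518226c62518a2a4a6914c6,
    0x86c62518a4ca25184868ca918e2], [0, 0x11c416a6161ac4a1283ca1a1ac4c1c16c1c1ac4e8, 0,
    0x412752512425cc8a4aa1c122b129c41c3125c192cc8e2,
    0xc2312552c1ca823635251261ca81a37252a312ca8c6]]

noncomputable def n2238 : Ent := ⟨e2238, noF, [], [], []⟩

def c2238 : PLift (Cov.check n2238.C.D v2238 = true) := ⟨by decide +kernel⟩

def b2238 : PLift (entF (fidx ts) 400 2238 n2238 = true) := ⟨by decide +kernel⟩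

theorem g2238 : GoodF (fidx ts) 400 2238 := GoodF.ofV v2238 n2238 c2238.down b2238.down

/-- 4694454:1886 -/
noncomputable def e2239 : SCfg where
  D := {
    a := 7
    L := 11
    kp := 8
    inn := [(0, 1), (0, 2), (1, 0), (1, 6), (2, 0), (2, 3), (2, 4), (2, 5), (3, 2), (4, 2), (4, 5), (5,
      2), (5, 4), (6, 1)]
    mix := [(0, 0), (0, 1), (1, 0), (1, 1), (1, 2), (1, 3), (2, 0), (2, 1), (2, 4), (2, 5), (2, 6), (3,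
      4), (3, 5), (3, 7), (4, 6), (4, 8), (5, 1), (5, 8), (5, 9), (6, 1), (6, 2), (6, 10)]
    cl := [0, 0, 3, 5, 2, 0, 1, 8, 4, 6, 7]
    chq := [(1, 6), (5, 7), (6, 1), (7, 5)]
    rng := [(0, 3), (0, 4), (1, 9), (1, 10), (2, 3), (2, 10), (3, 0), (3, 2), (4, 0), (4, 7), (5, 6),
      (5, 7), (6, 5), (6, 8), (7, 4), (7, 5), (8, 6), (8, 9), (9, 1), (9, 8), (10, 1), (10, 2)]
    lev := [] }
  links := [[1, 7, 2, 8], [7, 0, 8, 6, 9, 10], [8, 0, 7, 11, 3, 12, 13, 4, 5], [12, 2, 11, 14], [5, 2,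
    13, 15], [8, 2, 4, 15, 16], [9, 1, 8, 17]]
  P := {
    a := 7
    N := 18
    nb := [390, 1985, 14777, 22532, 40996, 98580, 131842, 3079, 196711, 132162, 642, 16524, 24588,
      36884, 6152, 73776, 33056, 832]
    tri := [(0, 1, 7), (0, 1, 8), (0, 2, 7), (0, 2, 8), (1, 6, 8), (1, 6, 9), (1, 7, 10), (1, 9, 10),
      (2, 3, 11), (2, 3, 12), (2, 4, 5), (2, 4, 13), (2, 5, 8), (2, 7, 11), (2, 12, 13), (3, 11,
      14), (3, 12, 14), (4, 5, 15), (4, 13, 15), (5, 8, 16), (5, 15, 16), (6, 8, 17), (6, 9, 17)]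
    fin := [0, 1, 0, 0, 4, 4, 1, 0, 0, 9, 10, 11, 0, 4, 14, 15, 16, 1]
    chd := [(4, 16), (10, 1)]
    steps := [(0, 2), (0, 3), (0, 7), (0, 12), (0, 8), (1, 6), (1, 17), (4, 5), (4, 13)] }
  rep := [0, 4, 11, 9, 15, 10, 16, 1, 14]

noncomputable def v2239 : Cov.CovD where
  P := 3
  N := 6
  pl := [2, 4, 7, 8]
  lev := [⟨[], [], [(0, 0)], [], [(0, 0, []), (1, 0, [])]⟩,
    ⟨[], [(0, 0), (0, 5)], [(0, 0), (0, 5)], [3], [(0, 0, []), (1, 0, []), (3, 5, [7])]⟩,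
    ⟨[(0, 1)], [(0, 0), (0, 1), (1, 0)], [(0, 0), (0, 1)], [2], [(0, 0, []), (1, 0, []),
      (5, 0, []), (6, 1, [6])]⟩,
    ⟨[(0, 2)], [(2, 0), (2, 1)], [], [2, 8], [(5, 0, [])]⟩,
    ⟨[(0, 2), (2, 3)], [(2, 0), (2, 1)], [], [4], [(6, 1, [6])]⟩,
    ⟨[(0, 2), (2, 3), (2, 4)], [(0, 0), (1, 0), (2, 0), (2, 1), (2, 6), (4, 0), (4, 1), (4,
      6)], [(0, 6)], [4], [(1, 0, []), (9, 6, [1])]⟩,
    ⟨[(0, 1)], [(0, 0), (1, 0), (1, 5), (1, 7), (2, 0), (5, 0)], [(0, 7)], [3], [(1, 0,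
      []), (10, 7, [5])]⟩]
  Ta := [((0, 3), 0, 5), ((0, 4), 0, 2), ((1, 9), 0, 6), ((1, 10), 0, 7), ((5, 6), 0, 1), ((5,
    7), 0, 8)]
  Tb := [((0, 3, 4), 0, 5, 2), ((1, 9, 10), 0, 6, 7), ((2, 3, 10), 3, 5, 7), ((3, 0, 2), 5, 0,
    3), ((4, 0, 7), 2, 0, 8), ((5, 6, 7), 0, 1, 8), ((6, 5, 8), 1, 0, 4), ((7, 4, 5), 8, 2,
    0), ((8, 6, 9), 4, 1, 6), ((9, 1, 8), 6, 0, 4), ((10, 1, 2), 7, 0, 3)]
  Tc := []
  Td := [((1, 6), (6, 5), 0), ((1, 6), (6, 8), 4), ((5, 7), (3, 0), 0), ((5, 7), (3, 2), 3), ((6,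
    1), (9, 1), 0), ((6, 1), (9, 8), 4), ((7, 5), (10, 1), 0), ((7, 5), (10, 2), 3)]
  G := [[0, 0, 0x6132c6261c6812a1c1861812d689c39291c3129a4e4, 0x61c12914a1d2c1452c1c14e8,
    0x11c12518a132c185c3c2918e4], [0, 0, 0, 0x66c62914aaca2914cccec2c14e8,
    0xc2ccce518266c62518aaca2518c6], [0, 0xc1c16c111a6c8261116a6161ac411aa1ca1a1ac4c6, 0,
    0x1631251261cc85c3b2552c1cc8aa2a1caa3129c446,
    0x56352561b2ca89a392592a1ca81c312512111eca8e2]]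

noncomputable def n2239 : Ent := ⟨e2239, noF, [], [], [(16, 17, [6903326391201334775872065844685381424292761054348340378595029938855937, 0])]⟩

def c2239 : PLift (Cov.check n2239.C.D v2239 = true) := ⟨by decide +kernel⟩

def b2239 : PLift (entF (fidx ts) 400 2239 n2239 = true) := ⟨by decide +kernel⟩

theorem g2239 : GoodF (fidx ts) 400 2239 := GoodF.ofV v2239 n2239 c2239.down b2239.down

/-- 4694454:1887/3 -/
noncomputable def e2240 : SCfg where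
  D := {
    a := 7
    L := 8
    kp := 5
    inn := [(0, 1), (0, 2), (1, 0), (1, 6), (2, 0), (2, 3), (2, 4), (2, 5), (3, 2), (4, 2), (4, 5), (5,
      2), (5, 4), (6, 1)]
    mix := [(0, 0), (0, 1), (1, 0), (1, 1), (1, 2), (1, 3), (2, 0), (2, 1), (2, 4), (2, 5), (2, 6), (3,
      3), (3, 4), (3, 5), (4, 6), (4, 7), (5, 1), (5, 2), (5, 7), (6, 0), (6, 3), (6, 4)]
    cl := [0, 0, 2, 1, 3, 0, 4, 5]
    chq := [(2, 3), (2, 4), (3, 2), (4, 2)]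
    rng := [(0, 4), (1, 2), (2, 1), (2, 3), (2, 7), (3, 2), (3, 4), (3, 5), (4, 0), (4, 3), (5, 3), (5,
      6), (6, 5), (6, 7), (7, 2), (7, 6)]
    lev := [] }
  links := [[1, 7, 2, 8], [7, 0, 8, 9, 10, 6], [8, 0, 7, 11, 3, 12, 13, 4, 5], [12, 2, 11, 10], [5, 2,
    13, 14], [8, 2, 4, 14, 9], [7, 1, 10, 11]]
  P := {
    a := 7
    N := 15
    nb := [390, 1985, 14777, 7172, 24612, 17172, 3202, 2119, 551, 17698, 6730, 1228, 9228, 20500,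
      8752]
    tri := [(0, 1, 7), (0, 1, 8), (0, 2, 7), (0, 2, 8), (1, 6, 7), (1, 6, 10), (1, 8, 9), (1, 9, 10),
      (2, 3, 11), (2, 3, 12), (2, 4, 5), (2, 4, 13), (2, 5, 8), (2, 7, 11), (2, 12, 13), (3, 10,
      11), (3, 10, 12), (4, 5, 14), (4, 13, 14), (5, 8, 9), (5, 9, 14), (6, 7, 11), (6, 10, 11)]
    fin := [0, 1, 0, 0, 4, 4, 1, 0, 0, 9, 10, 1, 0, 4, 14]
    chd := [(9, 1), (9, 4)]
    steps := [(0, 2), (0, 3), (0, 7), (0, 12), (0, 8), (1, 6), (1, 11), (4, 5), (4, 13)] }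
  rep := [0, 10, 9, 1, 4, 14]

noncomputable def v2240 : Cov.CovD where
  P := 3
  N := 3
  pl := [3, 7]
  lev := [⟨[], [], [(0, 0)], [], [(0, 0, []), (1, 0, [])]⟩,
    ⟨[], [(0, 0), (0, 2)], [(0, 0), (0, 2)], [1], [(0, 0, []), (1, 0, []), (2, 2, [3, 4])]⟩,
    ⟨[(0, 1)], [(0, 0), (0, 3), (0, 4), (1, 0)], [(0, 0), (0, 3), (0, 4), (3, 4)], [], [(0,
      0, []), (1, 0, []), (4, 3, [2]), (5, 0, []), (6, 4, [2])]⟩,
    ⟨[(0, 2)], [(2, 0), (2, 3), (2, 4)], [(0, 3)], [1], [(4, 3, [2]), (5, 0, [])]⟩,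
    ⟨[(0, 2), (2, 3)], [(2, 0), (2, 3), (2, 4)], [], [5], [(6, 4, [2])]⟩,
    ⟨[(0, 2), (2, 3), (2, 4)], [(0, 0), (1, 0), (1, 2), (2, 0), (2, 2), (2, 3), (2, 4), (4,
      0), (4, 2), (4, 4)], [(0, 2)], [5], [(1, 0, []), (2, 2, [3, 4])]⟩,
    ⟨[(0, 1)], [(0, 0), (1, 0), (1, 2), (1, 3), (2, 0), (2, 3), (3, 3)], [(0, 3)], [1],
      [(0, 0, []), (4, 3, [2])]⟩]
  Ta := [((0, 4), 0, 3), ((1, 2), 0, 2), ((5, 3), 0, 1), ((5, 6), 0, 4)]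
  Tb := [((2, 1, 3), 2, 0, 1), ((2, 1, 7), 2, 0, 5), ((2, 3, 7), 2, 1, 5), ((3, 2, 4), 1, 2, 3),
    ((3, 2, 5), 1, 2, 0), ((3, 4, 5), 1, 3, 0), ((4, 0, 3), 3, 0, 1), ((5, 3, 6), 0, 1, 4),
    ((6, 5, 7), 4, 0, 5), ((7, 2, 6), 5, 2, 4)]
  Tc := [(2, 3, 4)]
  Td := [((2, 3), (2, 1), 0), ((2, 3), (2, 3), 1), ((2, 3), (2, 7), 5), ((2, 4), (2, 1), 0), ((2,
    4), (2, 3), 1), ((2, 4), (2, 7), 5), ((3, 2), (4, 0), 0), ((3, 2), (4, 3), 1), ((4, 2),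
    (6, 5), 0), ((4, 2), (6, 7), 5)]
  G := [[0, 0, 0, 0x88924492c284, 0x888288ab484842d9482], [0, 0, 0x1861111a1111c11e42,
    0x11c21288, 0x181211ab1482], [0, 0x888488cd2824c22c1e244, 0, 0x11924452c288,
    0x18129481211abc11344688]]

noncomputable def n2240 : Ent := ⟨e2240, noF, [], [], []⟩

def c2240 : PLift (Cov.check n2240.C.D v2240 = true) := ⟨by decide +kernel⟩

def b2240 : PLift (entF (fidx ts) 400 2240 n2240 = true) := ⟨by decide +kernel⟩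

theorem g2240 : GoodF (fidx ts) 400 2240 := GoodF.ofV v2240 n2240 c2240.down b2240.down

/-- 4694454:1887/2 -/
noncomputable def e2241 : SCfg where
  D := {
    a := 7
    L := 9
    kp := 6
    inn := [(0, 1), (0, 2), (1, 0), (1, 6), (2, 0), (2, 3), (2, 4), (2, 5), (3, 2), (4, 2), (4, 5), (5,
      2), (5, 4), (6, 1)]
    mix := [(0, 0), (0, 1), (1, 0), (1, 1), (1, 2), (1, 3), (2, 0), (2, 1), (2, 4), (2, 5), (2, 6), (3,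
      3), (3, 4), (3, 5), (4, 6), (4, 7), (5, 1), (5, 7), (5, 8), (6, 0), (6, 3), (6, 4)]
    cl := [0, 0, 5, 1, 3, 0, 2, 4, 6]
    chq := [(2, 6), (3, 5), (5, 3), (6, 2)]
    rng := [(0, 4), (1, 2), (1, 8), (2, 1), (2, 3), (3, 2), (3, 4), (3, 5), (4, 0), (4, 3), (5, 3), (5,
      6), (6, 5), (6, 7), (7, 6), (7, 8), (8, 1), (8, 7)]
    lev := [] }
  links := [[1, 7, 2, 8], [7, 0, 8, 9, 10, 6], [8, 0, 7, 11, 3, 12, 13, 4, 5], [12, 2, 11, 10], [5, 2,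
    13, 14], [8, 2, 4, 14, 15], [7, 1, 10, 11]]
  P := {
    a := 7
    N := 16
    nb := [390, 1985, 14777, 7172, 24612, 49428, 3202, 2119, 33319, 1282, 6730, 1228, 9228, 20500,
      41008, 16672]
    tri := [(0, 1, 7), (0, 1, 8), (0, 2, 7), (0, 2, 8), (1, 6, 7), (1, 6, 10), (1, 8, 9), (1, 9, 10),
      (2, 3, 11), (2, 3, 12), (2, 4, 5), (2, 4, 13), (2, 5, 8), (2, 7, 11), (2, 12, 13), (3, 10,
      11), (3, 10, 12), (4, 5, 14), (4, 13, 14), (5, 8, 15), (5, 14, 15), (6, 7, 11), (6, 10, 11)]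
    fin := [0, 1, 0, 0, 4, 4, 1, 0, 0, 9, 10, 1, 0, 4, 14, 15]
    chd := [(4, 15), (9, 1)]
    steps := [(0, 2), (0, 3), (0, 7), (0, 12), (0, 8), (1, 6), (1, 11), (4, 5), (4, 13)] }
  rep := [0, 10, 4, 1, 14, 9, 15]

noncomputable def v2241 : Cov.CovD where
  P := 3
  N := 4
  pl := [3, 7]
  lev := [⟨[], [], [(0, 0)], [], [(0, 0, []), (1, 0, [])]⟩,
    ⟨[], [(0, 0), (0, 5)], [(0, 0), (0, 5)], [1], [(0, 0, []), (1, 0, []), (2, 5, [3])]⟩,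
    ⟨[(0, 1)], [(0, 0), (0, 2), (0, 3), (1, 0)], [(0, 0), (0, 2), (0, 3), (2, 3)], [], [(0,
      0, []), (1, 0, []), (4, 3, [5]), (5, 0, []), (6, 2, [6])]⟩,
    ⟨[(0, 2)], [(2, 0), (2, 2), (2, 3)], [(0, 3)], [1], [(4, 3, [5]), (5, 0, [])]⟩,
    ⟨[(0, 2), (2, 3)], [(2, 0), (2, 2), (2, 3)], [], [4], [(6, 2, [6])]⟩,
    ⟨[(0, 2), (2, 3), (2, 4)], [(0, 0), (1, 0), (2, 0), (2, 2), (2, 3), (2, 6), (4, 0), (4,
      2), (4, 6)], [(0, 6)], [4], [(1, 0, []), (8, 6, [2])]⟩,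
    ⟨[(0, 1)], [(0, 0), (1, 0), (1, 3), (1, 5), (2, 0), (2, 3), (3, 3)], [(0, 3)], [1],
      [(0, 0, []), (4, 3, [5])]⟩]
  Ta := [((0, 4), 0, 3), ((1, 2), 0, 5), ((1, 8), 0, 6), ((5, 3), 0, 1), ((5, 6), 0, 2)]
  Tb := [((1, 2, 8), 0, 5, 6), ((2, 1, 3), 5, 0, 1), ((3, 2, 4), 1, 5, 3), ((3, 2, 5), 1, 5, 0),
    ((3, 4, 5), 1, 3, 0), ((4, 0, 3), 3, 0, 1), ((5, 3, 6), 0, 1, 2), ((6, 5, 7), 2, 0, 4),
    ((7, 6, 8), 4, 2, 6), ((8, 1, 7), 6, 0, 4)]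
  Tc := []
  Td := [((2, 6), (6, 5), 0), ((2, 6), (6, 7), 4), ((3, 5), (4, 0), 0), ((3, 5), (4, 3), 1), ((5,
    3), (2, 1), 0), ((5, 3), (2, 3), 1), ((6, 2), (8, 1), 0), ((6, 2), (8, 7), 4)]
  G := [[0, 0, 0, 0x4434294488382588c2, 0x8441a44454494a88584388c2], [0, 0, 0,
    0x14c1291411c12518c2, 0x14818e3114411e31a84881ea18c4], [0, 0x28382522122c2c4434294468,
    0x1181a4114461111688c2, 0x4134294481382588c2, 0x4114a41114a4a81851438846]]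

noncomputable def n2241 : Ent := ⟨e2241, noF, [], [], [(15, 9, [360035742630636841345797572106540607504961255222653860052729857, 0])]⟩

def c2241 : PLift (Cov.check n2241.C.D v2241 = true) := ⟨by decide +kernel⟩

def b2241 : PLift (entF (fidx ts) 400 2241 n2241 = true) := ⟨by decide +kernel⟩

theorem g2241 : GoodF (fidx ts) 400 2241 := GoodF.ofV v2241 n2241 c2241.down b2241.down

/-- 4694454:1887/4 -/
noncomputable def e2242 : SCfg where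
  D := {
    a := 7
    L := 9
    kp := 6
    inn := [(0, 1), (0, 2), (1, 0), (1, 6), (2, 0), (2, 3), (2, 4), (2, 5), (3, 2), (4, 2), (4, 5), (5,
      2), (5, 4), (6, 1)]
    mix := [(0, 0), (0, 1), (1, 0), (1, 1), (1, 2), (1, 3), (2, 0), (2, 1), (2, 4), (2, 5), (2, 6), (3,
      4), (3, 5), (3, 7), (4, 6), (4, 8), (5, 1), (5, 2), (5, 8), (6, 0), (6, 3), (6, 4)]
    cl := [0, 0, 2, 4, 1, 0, 3, 6, 5]
    chq := [(1, 2), (2, 1), (2, 3), (3, 2)]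
    rng := [(0, 4), (1, 2), (2, 1), (2, 3), (2, 8), (3, 2), (3, 4), (4, 0), (4, 3), (4, 7), (5, 6), (5,
      7), (6, 5), (6, 8), (7, 4), (7, 5), (8, 2), (8, 6)]
    lev := [] }
  links := [[1, 7, 2, 8], [7, 0, 8, 9, 10, 6], [8, 0, 7, 11, 3, 12, 13, 4, 5], [12, 2, 11, 14], [5, 2,
    13, 15], [8, 2, 4, 15, 9], [7, 1, 10, 11]]
  P := {
    a := 7
    N := 16
    nb := [390, 1985, 14777, 22532, 40996, 33556, 3202, 2119, 551, 34082, 2626, 17612, 24588, 36884,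
      6152, 8752]
    tri := [(0, 1, 7), (0, 1, 8), (0, 2, 7), (0, 2, 8), (1, 6, 7), (1, 6, 10), (1, 8, 9), (1, 9, 10),
      (2, 3, 11), (2, 3, 12), (2, 4, 5), (2, 4, 13), (2, 5, 8), (2, 7, 11), (2, 12, 13), (3, 11,
      14), (3, 12, 14), (4, 5, 15), (4, 13, 15), (5, 8, 9), (5, 9, 15), (6, 7, 11), (6, 10, 11)]
    fin := [0, 1, 0, 0, 4, 4, 1, 0, 0, 9, 10, 1, 0, 4, 14, 15]
    chd := [(9, 1), (9, 4)]
    steps := [(0, 2), (0, 3), (0, 7), (0, 12), (0, 8), (1, 6), (1, 11), (4, 5), (4, 13)] }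
  rep := [0, 1, 9, 4, 10, 15, 14]

noncomputable def v2242 : Cov.CovD where
  P := 3
  N := 4
  pl := [3, 7, 8]
  lev := [⟨[], [], [(0, 0)], [], [(0, 0, []), (1, 0, [])]⟩,
    ⟨[], [(0, 0), (0, 2)], [(0, 0), (0, 2)], [4], [(0, 0, []), (1, 0, []), (2, 2, [1, 3])]⟩,
    ⟨[(0, 1)], [(0, 0), (0, 1), (0, 3), (1, 0)], [(0, 0), (0, 1), (0, 3), (1, 3)], [], [(0,
      0, []), (1, 0, []), (4, 1, [2]), (5, 0, []), (6, 3, [2])]⟩,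
    ⟨[(0, 2)], [(2, 0), (2, 1), (2, 3)], [(0, 1)], [6], [(4, 1, [2]), (5, 0, [])]⟩,
    ⟨[(0, 2), (2, 3)], [(2, 0), (2, 1), (2, 3)], [], [5], [(6, 3, [2])]⟩,
    ⟨[(0, 2), (2, 3), (2, 4)], [(0, 0), (1, 0), (1, 2), (2, 0), (2, 1), (2, 2), (2, 3), (4,
      0), (4, 2), (4, 3)], [(0, 2)], [5], [(1, 0, []), (2, 2, [1, 3])]⟩,
    ⟨[(0, 1)], [(0, 0), (1, 0), (1, 1), (1, 2), (2, 0), (2, 1), (3, 1)], [(0, 1)], [4],
      [(0, 0, []), (4, 1, [2])]⟩]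
  Ta := [((0, 4), 0, 1), ((1, 2), 0, 2), ((5, 6), 0, 3), ((5, 7), 0, 6)]
  Tb := [((2, 1, 3), 2, 0, 4), ((2, 1, 8), 2, 0, 5), ((2, 3, 8), 2, 4, 5), ((3, 2, 4), 4, 2, 1),
    ((4, 0, 3), 1, 0, 4), ((4, 0, 7), 1, 0, 6), ((4, 3, 7), 1, 4, 6), ((5, 6, 7), 0, 3, 6),
    ((6, 5, 8), 3, 0, 5), ((7, 4, 5), 6, 1, 0), ((8, 2, 6), 5, 2, 3)]
  Tc := [(2, 1, 3)]
  Td := [((1, 2), (4, 0), 0), ((1, 2), (4, 3), 4), ((1, 2), (4, 7), 6), ((2, 1), (2, 1), 0), ((2,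
    1), (2, 3), 4), ((2, 1), (2, 8), 5), ((2, 3), (2, 1), 0), ((2, 3), (2, 3), 4), ((2, 3),
    (2, 8), 5), ((3, 2), (6, 5), 0), ((3, 2), (6, 8), 5)]
  G := [[0, 0x484844b284441ec2428228884388249c68c, 0, 0xc8c4cccd1224, 0x828288714424248714a2],
    [0, 0, 0x41c1188a11c41a1111a11ca4, 0x9894c5cd1224, 0x124248714424218714a8], [0, 0, 0,
    0x9c52259522c28, 0x88344888182e82483cc14944481142e12183cca2]]

noncomputable def n2242 : Ent := ⟨e2242, noF, [], [], [(14, 10, [385746751338781050996073827118545021217310372558043290364805121, 0])]⟩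

def c2242 : PLift (Cov.check n2242.C.D v2242 = true) := ⟨by decide +kernel⟩

def b2242 : PLift (entF (fidx ts) 400 2242 n2242 = true) := ⟨by decide +kernel⟩

theorem g2242 : GoodF (fidx ts) 400 2242 := GoodF.ofV v2242 n2242 c2242.down b2242.down

/-- 4694454:1887/1 -/
noncomputable def e2243 : SCfg where
  D := {
    a := 7
    L := 10
    kp := 7
    inn := [(0, 1), (0, 2), (1, 0), (1, 6), (2, 0), (2, 3), (2, 4), (2, 5), (3, 2), (4, 2), (4, 5), (5,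
      2), (5, 4), (6, 1)]
    mix := [(0, 0), (0, 1), (1, 0), (1, 1), (1, 2), (1, 3), (2, 0), (2, 1), (2, 4), (2, 5), (2, 6), (3,
      4), (3, 5), (3, 7), (4, 6), (4, 8), (5, 1), (5, 8), (5, 9), (6, 0), (6, 3), (6, 4)]
    cl := [0, 0, 5, 3, 1, 0, 2, 7, 4, 6]
    chq := [(1, 5), (2, 6), (5, 1), (6, 2)]
    rng := [(0, 4), (1, 2), (1, 9), (2, 1), (2, 3), (3, 2), (3, 4), (4, 0), (4, 3), (4, 7), (5, 6), (5,
      7), (6, 5), (6, 8), (7, 4), (7, 5), (8, 6), (8, 9), (9, 1), (9, 8)]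
    lev := [] }
  links := [[1, 7, 2, 8], [7, 0, 8, 9, 10, 6], [8, 0, 7, 11, 3, 12, 13, 4, 5], [12, 2, 11, 14], [5, 2,
    13, 15], [8, 2, 4, 15, 16], [7, 1, 10, 11]]
  P := {
    a := 7
    N := 17
    nb := [390, 1985, 14777, 22532, 40996, 98580, 3202, 2119, 66087, 1282, 2626, 17612, 24588, 36884,
      6152, 73776, 33056]
    tri := [(0, 1, 7), (0, 1, 8), (0, 2, 7), (0, 2, 8), (1, 6, 7), (1, 6, 10), (1, 8, 9), (1, 9, 10),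
      (2, 3, 11), (2, 3, 12), (2, 4, 5), (2, 4, 13), (2, 5, 8), (2, 7, 11), (2, 12, 13), (3, 11,
      14), (3, 12, 14), (4, 5, 15), (4, 13, 15), (5, 8, 16), (5, 15, 16), (6, 7, 11), (6, 10, 11)]
    fin := [0, 1, 0, 0, 4, 4, 1, 0, 0, 9, 10, 1, 0, 4, 14, 15, 16]
    chd := [(4, 16), (9, 1)]
    steps := [(0, 2), (0, 3), (0, 7), (0, 12), (0, 8), (1, 6), (1, 11), (4, 5), (4, 13)] }
  rep := [0, 1, 4, 10, 15, 9, 16, 14]

noncomputable def v2243 : Cov.CovD where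
  P := 3
  N := 5
  pl := [3, 7, 8]
  lev := [⟨[], [], [(0, 0)], [], [(0, 0, []), (1, 0, [])]⟩,
    ⟨[], [(0, 0), (0, 5)], [(0, 0), (0, 5)], [3], [(0, 0, []), (1, 0, []), (2, 5, [1])]⟩,
    ⟨[(0, 1)], [(0, 0), (0, 1), (0, 2), (1, 0)], [(0, 0), (0, 1), (0, 2), (1, 2)], [], [(0,
      0, []), (1, 0, []), (4, 1, [5]), (5, 0, []), (6, 2, [6])]⟩,
    ⟨[(0, 2)], [(2, 0), (2, 1), (2, 2)], [(0, 1)], [7], [(4, 1, [5]), (5, 0, [])]⟩,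
    ⟨[(0, 2), (2, 3)], [(2, 0), (2, 1), (2, 2)], [], [4], [(6, 2, [6])]⟩,
    ⟨[(0, 2), (2, 3), (2, 4)], [(0, 0), (1, 0), (2, 0), (2, 1), (2, 2), (2, 6), (4, 0), (4,
      2), (4, 6)], [(0, 6)], [4], [(1, 0, []), (9, 6, [2])]⟩,
    ⟨[(0, 1)], [(0, 0), (1, 0), (1, 1), (1, 5), (2, 0), (2, 1), (3, 1)], [(0, 1)], [3],
      [(0, 0, []), (4, 1, [5])]⟩]
  Ta := [((0, 4), 0, 1), ((1, 2), 0, 5), ((1, 9), 0, 6), ((5, 6), 0, 2), ((5, 7), 0, 7)]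
  Tb := [((1, 2, 9), 0, 5, 6), ((2, 1, 3), 5, 0, 3), ((3, 2, 4), 3, 5, 1), ((4, 0, 3), 1, 0, 3),
    ((4, 0, 7), 1, 0, 7), ((4, 3, 7), 1, 3, 7), ((5, 6, 7), 0, 2, 7), ((6, 5, 8), 2, 0, 4),
    ((7, 4, 5), 7, 1, 0), ((8, 6, 9), 4, 2, 6), ((9, 1, 8), 6, 0, 4)]
  Tc := []
  Td := [((1, 5), (4, 0), 0), ((1, 5), (4, 3), 3), ((1, 5), (4, 7), 7), ((2, 6), (6, 5), 0), ((2,
    6), (6, 8), 4), ((5, 1), (2, 1), 0), ((5, 1), (2, 3), 3), ((6, 2), (9, 1), 0), ((6, 2),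
    (9, 8), 4)]
  G := [[0, 0x2232292122c64288348838821e84142c4142c68ca, 0, 0x4281c188182c18c1c2c18e4,
    0x8481a1888584918c4c1a18e4], [0, 0, 0, 0x81c8251882888ec18121c1ec18e4,
    0x84684c31888a8431811a14318e4], [0, 0, 0x4141c4141ac411c1a11c1ac468141681816c88c,
    0x8148281cc8288c1c3125c112cc8a4281c413829c446,
    0x1454434481ac8115143185143c85959435154ac8e4]]

noncomputable def n2243 : Ent := ⟨e2243, noF, [], [], [(14, 10, [1685382413448253768217684516765845462123538836781343823359357227009, 0]), (16, 9, [1580044410770988437310138513572361556014072927981731971036240158721, 0])]⟩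

def c2243 : PLift (Cov.check n2243.C.D v2243 = true) := ⟨by decide +kernel⟩

def b2243 : PLift (entF (fidx ts) 400 2243 n2243 = true) := ⟨by decide +kernel⟩

theorem g2243 : GoodF (fidx ts) 400 2243 := GoodF.ofV v2243 n2243 c2243.down b2243.down

/-- 4694454:1887/6 -/
noncomputable def e2244 : SCfg where
  D := {
    a := 7
    L := 9
    kp := 6
    inn := [(0, 1), (0, 2), (1, 0), (1, 6), (2, 0), (2, 3), (2, 4), (2, 5), (3, 2), (4, 2), (4, 5), (5,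
      2), (5, 4), (6, 1)]
    mix := [(0, 0), (0, 1), (1, 0), (1, 1), (1, 2), (1, 3), (2, 0), (2, 1), (2, 4), (2, 5), (2, 6), (3,
      3), (3, 4), (3, 5), (4, 6), (4, 7), (5, 1), (5, 2), (5, 7), (6, 0), (6, 3), (6, 8)]
    cl := [0, 0, 2, 1, 4, 0, 3, 5, 6]
    chq := [(2, 3), (2, 6), (3, 2), (6, 2)]
    rng := [(0, 4), (0, 8), (1, 2), (2, 1), (2, 3), (2, 7), (3, 2), (3, 4), (3, 5), (3, 8), (4, 0), (4,
      3), (5, 3), (5, 6), (6, 5), (6, 7), (7, 2), (7, 6), (8, 0), (8, 3)]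
    lev := [] }
  links := [[1, 7, 2, 8], [7, 0, 8, 9, 10, 6], [8, 0, 7, 11, 3, 12, 13, 4, 5], [12, 2, 11, 10], [5, 2,
    13, 14], [8, 2, 4, 14, 9], [7, 1, 10, 15]]
  P := {
    a := 7
    N := 16
    nb := [390, 1985, 14777, 7172, 24612, 17172, 33922, 34887, 551, 17698, 39498, 1164, 9228, 20500,
      8752, 1216]
    tri := [(0, 1, 7), (0, 1, 8), (0, 2, 7), (0, 2, 8), (1, 6, 7), (1, 6, 10), (1, 8, 9), (1, 9, 10),
      (2, 3, 11), (2, 3, 12), (2, 4, 5), (2, 4, 13), (2, 5, 8), (2, 7, 11), (2, 12, 13), (3, 10,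
      11), (3, 10, 12), (4, 5, 14), (4, 13, 14), (5, 8, 9), (5, 9, 14), (6, 7, 15), (6, 10, 15)]
    fin := [0, 1, 0, 0, 4, 4, 1, 0, 0, 1, 10, 11, 0, 4, 14, 15]
    chd := [(1, 4), (1, 15)]
    steps := [(0, 2), (0, 3), (0, 7), (0, 12), (0, 8), (1, 6), (1, 9), (4, 5), (4, 13)] }
  rep := [0, 10, 1, 4, 11, 14, 15]

noncomputable def v2244 : Cov.CovD where
  P := 3
  N := 4
  pl := [3, 4, 7]
  lev := [⟨[], [], [(0, 0)], [], [(0, 0, []), (1, 0, [])]⟩,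
    ⟨[], [(0, 0), (0, 2)], [(0, 0), (0, 2)], [1], [(0, 0, []), (1, 0, []), (2, 2, [3, 6])]⟩,
    ⟨[(0, 1)], [(0, 0), (0, 3), (1, 0)], [(0, 0), (0, 3)], [4], [(0, 0, []), (1, 0, []),
      (5, 0, []), (6, 3, [2])]⟩,
    ⟨[(0, 2)], [(2, 0), (2, 3)], [], [1, 4], [(5, 0, [])]⟩,
    ⟨[(0, 2), (2, 3)], [(2, 0), (2, 3)], [], [5], [(6, 3, [2])]⟩,
    ⟨[(0, 2), (2, 3), (2, 4)], [(0, 0), (1, 0), (1, 2), (2, 0), (2, 2), (2, 3), (4, 0), (4,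
      2), (4, 3)], [(0, 2)], [5], [(1, 0, []), (2, 2, [3, 6])]⟩,
    ⟨[(0, 1)], [(0, 0), (1, 0), (1, 2), (1, 6), (2, 0)], [(0, 6)], [1], [(0, 0, []), (8, 6,
      [2])]⟩]
  Ta := [((0, 4), 0, 4), ((0, 8), 0, 6), ((1, 2), 0, 2), ((5, 3), 0, 1), ((5, 6), 0, 3)]
  Tb := [((0, 4, 8), 0, 4, 6), ((2, 1, 3), 2, 0, 1), ((2, 1, 7), 2, 0, 5), ((2, 3, 7), 2, 1, 5),
    ((3, 2, 4), 1, 2, 4), ((3, 2, 5), 1, 2, 0), ((3, 2, 8), 1, 2, 6), ((3, 4, 5), 1, 4, 0),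
    ((3, 4, 8), 1, 4, 6), ((3, 5, 8), 1, 0, 6), ((4, 0, 3), 4, 0, 1), ((5, 3, 6), 0, 1, 3),
    ((6, 5, 7), 3, 0, 5), ((7, 2, 6), 5, 2, 3), ((8, 0, 3), 6, 0, 1)]
  Tc := [(2, 3, 6)]
  Td := [((2, 3), (2, 1), 0), ((2, 3), (2, 3), 1), ((2, 3), (2, 7), 5), ((2, 6), (2, 1), 0), ((2,
    6), (2, 3), 1), ((2, 6), (2, 7), 5), ((3, 2), (6, 5), 0), ((3, 2), (6, 7), 5), ((6, 2),
    (8, 0), 0), ((6, 2), (8, 3), 1)]
  G := [[0, 0, 0, 0xccc2cc525248, 0x44342584248342454494851e82], [0, 0, 0x1161111a1411611e48,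
    0x11c21284, 0x4248514248516848125188a], [0, 0x2252438282422cd2a82412292c446, 0,
    0x11921192c284, 0x181244ab4481131258411864434ca8c]]

noncomputable def n2244 : Ent := ⟨e2244, noF, [], [], [(11, 15, [360035742630636841211993100915356868655746945586763691016847361, 0])]⟩

def c2244 : PLift (Cov.check n2244.C.D v2244 = true) := ⟨by decide +kernel⟩

def b2244 : PLift (entF (fidx ts) 400 2244 n2244 = true) := ⟨by decide +kernel⟩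

theorem g2244 : GoodF (fidx ts) 400 2244 := GoodF.ofV v2244 n2244 c2244.down b2244.down

/-- 4694454:1887/5 -/
noncomputable def e2245 : SCfg where
  D := {
    a := 7
    L := 10
    kp := 7
    inn := [(0, 1), (0, 2), (1, 0), (1, 6), (2, 0), (2, 3), (2, 4), (2, 5), (3, 2), (4, 2), (4, 5), (5,
      2), (5, 4), (6, 1)]
    mix := [(0, 0), (0, 1), (1, 0), (1, 1), (1, 2), (1, 3), (2, 0), (2, 1), (2, 4), (2, 5), (2, 6), (3,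
      3), (3, 4), (3, 5), (4, 6), (4, 7), (5, 1), (5, 7), (5, 8), (6, 0), (6, 3), (6, 9)]
    cl := [0, 0, 5, 3, 2, 0, 1, 4, 6, 7]
    chq := [(1, 6), (5, 7), (6, 1), (7, 5)]
    rng := [(0, 4), (0, 9), (1, 2), (1, 8), (2, 1), (2, 3), (3, 2), (3, 4), (3, 5), (3, 9), (4, 0), (4,
      3), (5, 3), (5, 6), (6, 5), (6, 7), (7, 6), (7, 8), (8, 1), (8, 7), (9, 0), (9, 3)]
    lev := [] }
  links := [[1, 7, 2, 8], [7, 0, 8, 9, 10, 6], [8, 0, 7, 11, 3, 12, 13, 4, 5], [12, 2, 11, 10], [5, 2,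
    13, 14], [8, 2, 4, 14, 15], [7, 1, 10, 16]]
  P := {
    a := 7
    N := 17
    nb := [390, 1985, 14777, 7172, 24612, 49428, 66690, 67655, 33319, 1282, 72266, 1164, 9228, 20500,
      41008, 16672, 1216]
    tri := [(0, 1, 7), (0, 1, 8), (0, 2, 7), (0, 2, 8), (1, 6, 7), (1, 6, 10), (1, 8, 9), (1, 9, 10),
      (2, 3, 11), (2, 3, 12), (2, 4, 5), (2, 4, 13), (2, 5, 8), (2, 7, 11), (2, 12, 13), (3, 10,
      11), (3, 10, 12), (4, 5, 14), (4, 13, 14), (5, 8, 15), (5, 14, 15), (6, 7, 16), (6, 10, 16)]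
    fin := [0, 1, 0, 0, 4, 4, 1, 0, 0, 1, 10, 11, 0, 4, 14, 15, 16]
    chd := [(1, 16), (4, 15)]
    steps := [(0, 2), (0, 3), (0, 7), (0, 12), (0, 8), (1, 6), (1, 9), (4, 5), (4, 13)] }
  rep := [0, 4, 11, 10, 14, 1, 15, 16]

noncomputable def v2245 : Cov.CovD where
  P := 3
  N := 5
  pl := [3, 4, 7]
  lev := [⟨[], [], [(0, 0)], [], [(0, 0, []), (1, 0, [])]⟩,
    ⟨[], [(0, 0), (0, 5)], [(0, 0), (0, 5)], [3], [(0, 0, []), (1, 0, []), (2, 5, [7])]⟩,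
    ⟨[(0, 1)], [(0, 0), (0, 1), (1, 0)], [(0, 0), (0, 1)], [2], [(0, 0, []), (1, 0, []),
      (5, 0, []), (6, 1, [6])]⟩,
    ⟨[(0, 2)], [(2, 0), (2, 1)], [], [2, 3], [(5, 0, [])]⟩,
    ⟨[(0, 2), (2, 3)], [(2, 0), (2, 1)], [], [4], [(6, 1, [6])]⟩,
    ⟨[(0, 2), (2, 3), (2, 4)], [(0, 0), (1, 0), (2, 0), (2, 1), (2, 6), (4, 0), (4, 1), (4,
      6)], [(0, 6)], [4], [(1, 0, []), (8, 6, [1])]⟩,
    ⟨[(0, 1)], [(0, 0), (1, 0), (1, 5), (1, 7), (2, 0)], [(0, 7)], [3], [(0, 0, []), (9, 7,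
      [5])]⟩]
  Ta := [((0, 4), 0, 2), ((0, 9), 0, 7), ((1, 2), 0, 5), ((1, 8), 0, 6), ((5, 3), 0, 3), ((5, 6),
    0, 1)]
  Tb := [((0, 4, 9), 0, 2, 7), ((1, 2, 8), 0, 5, 6), ((2, 1, 3), 5, 0, 3), ((3, 2, 4), 3, 5, 2),
    ((3, 2, 5), 3, 5, 0), ((3, 2, 9), 3, 5, 7), ((3, 4, 5), 3, 2, 0), ((3, 4, 9), 3, 2, 7),
    ((3, 5, 9), 3, 0, 7), ((4, 0, 3), 2, 0, 3), ((5, 3, 6), 0, 3, 1), ((6, 5, 7), 1, 0, 4),
    ((7, 6, 8), 4, 1, 6), ((8, 1, 7), 6, 0, 4), ((9, 0, 3), 7, 0, 3)]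
  Tc := []
  Td := [((1, 6), (6, 5), 0), ((1, 6), (6, 7), 4), ((5, 7), (2, 1), 0), ((5, 7), (2, 3), 3), ((6,
    1), (8, 1), 0), ((6, 1), (8, 7), 4), ((7, 5), (9, 0), 0), ((7, 5), (9, 3), 3)]
  G := [[0, 0, 0xc1c2c2826261c84a1a2c48c6, 0xc1c2c1426162c84a1a2c14ca,
    0x6261c18a1a2c18c2c1c28e2], [0, 0, 0, 0x111e12c1411c12914614125184988a,
    0x124111e19812111e518a12111ec1846], [0, 0x111164111ac4211116881111c48ca, 0,
    0x6231c8411c125484142c48182c8ce2, 0x113625888838252122ca85c312928e4]]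

noncomputable def n2245 : Ent := ⟨e2245, noF, [], [], [(11, 16, [1580044410770988437309982408355971841652082177953823432505698291713, 0]), (15, 9, [1685356702439545624008034240510833457709826487664008433929045164033, 0])]⟩

def c2245 : PLift (Cov.check n2245.C.D v2245 = true) := ⟨by decide +kernel⟩

def b2245 : PLift (entF (fidx ts) 400 2245 n2245 = true) := ⟨by decide +kernel⟩

theorem g2245 : GoodF (fidx ts) 400 2245 := GoodF.ofV v2245 n2245 c2245.down b2245.down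

/-- 4694454:1887/8 -/
noncomputable def e2246 : SCfg where
  D := {
    a := 7
    L := 9
    kp := 6
    inn := [(0, 1), (0, 2), (1, 0), (1, 6), (2, 0), (2, 3), (2, 4), (2, 5), (3, 2), (4, 2), (4, 5), (5,
      2), (5, 4), (6, 1)]
    mix := [(0, 0), (0, 1), (1, 0), (1, 1), (1, 2), (1, 3), (2, 0), (2, 1), (2, 4), (2, 5), (2, 6), (3,
      4), (3, 5), (3, 7), (4, 3), (4, 6), (5, 1), (5, 2), (5, 3), (6, 0), (6, 3), (6, 8)]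
    cl := [0, 0, 3, 1, 2, 0, 4, 5, 6]
    chq := [(0, 1), (1, 0), (3, 4), (4, 3)]
    rng := [(0, 4), (0, 8), (1, 2), (2, 1), (2, 3), (3, 2), (3, 6), (3, 8), (4, 0), (4, 7), (5, 6), (5,
      7), (6, 3), (6, 5), (7, 4), (7, 5), (8, 0), (8, 3)]
    lev := [] }
  links := [[1, 7, 2, 8], [7, 0, 8, 9, 10, 6], [8, 0, 7, 11, 3, 12, 13, 4, 5], [12, 2, 11, 14], [5, 2,
    13, 10], [8, 2, 4, 10, 9], [7, 1, 10, 15]]
  P := {
    a := 7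
    N := 16
    nb := [390, 1985, 14777, 22532, 9252, 1812, 33922, 34887, 551, 1314, 41586, 16524, 24588, 5140,
      6152, 1216]
    tri := [(0, 1, 7), (0, 1, 8), (0, 2, 7), (0, 2, 8), (1, 6, 7), (1, 6, 10), (1, 8, 9), (1, 9, 10),
      (2, 3, 11), (2, 3, 12), (2, 4, 5), (2, 4, 13), (2, 5, 8), (2, 7, 11), (2, 12, 13), (3, 11,
      14), (3, 12, 14), (4, 5, 10), (4, 10, 13), (5, 8, 9), (5, 9, 10), (6, 7, 15), (6, 10, 15)]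
    fin := [0, 0, 0, 0, 4, 4, 0, 0, 0, 9, 10, 11, 0, 4, 14, 15]
    chd := [(0, 10), (9, 4)]
    steps := [(0, 1), (0, 2), (0, 3), (0, 6), (0, 7), (0, 12), (0, 8), (4, 5), (4, 13)] }
  rep := [0, 10, 11, 9, 4, 14, 15]

noncomputable def v2246 : Cov.CovD where
  P := 3
  N := 4
  pl := [4, 7, 8]
  lev := [⟨[], [], [(0, 0)], [], [(0, 0, [1]), (1, 0, [1])]⟩,
    ⟨[], [(0, 0), (0, 1), (0, 3)], [(0, 0), (0, 1), (0, 3), (1, 3)], [], [(0, 0, [1]), (1,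
      0, [1]), (2, 3, [4]), (3, 1, [0])]⟩,
    ⟨[(0, 1)], [(0, 0), (0, 4), (1, 0)], [(0, 0), (0, 4)], [2], [(0, 0, [1]), (1, 0, [1]),
      (5, 0, [1]), (6, 4, [3])]⟩,
    ⟨[(0, 2)], [(2, 0), (2, 4)], [], [2, 5], [(5, 0, [1])]⟩,
    ⟨[(0, 2), (2, 3)], [(1, 1), (2, 0), (2, 1), (2, 4)], [(1, 4)], [], [(3, 1, [0]), (6, 4,
      [3])]⟩,
    ⟨[(0, 2), (2, 3), (2, 4)], [(0, 0), (1, 0), (1, 1), (1, 3), (2, 0), (2, 1), (2, 3), (2,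
      4), (4, 0), (4, 1), (4, 3), (4, 4)], [(0, 1), (0, 3), (1, 3)], [], [(1, 0, [1]), (2, 3,
      [4]), (3, 1, [0])]⟩,
    ⟨[(0, 1)], [(0, 0), (1, 0), (1, 1), (1, 3), (2, 0), (4, 1), (5, 1)], [(0, 1)], [6],
      [(0, 0, [1]), (3, 1, [0])]⟩]
  Ta := [((0, 4), 0, 2), ((0, 8), 0, 6), ((1, 2), 0, 3), ((5, 6), 0, 4), ((5, 7), 0, 5)]
  Tb := [((0, 4, 8), 0, 2, 6), ((2, 1, 3), 3, 0, 1), ((3, 2, 6), 1, 3, 4), ((3, 2, 8), 1, 3, 6),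
    ((3, 6, 8), 1, 4, 6), ((4, 0, 7), 2, 0, 5), ((5, 6, 7), 0, 4, 5), ((6, 3, 5), 4, 1, 0),
    ((7, 4, 5), 5, 2, 0), ((8, 0, 3), 6, 0, 1)]
  Tc := []
  Td := [((0, 1), (0, 4), 2), ((0, 1), (0, 8), 6), ((0, 1), (1, 2), 3), ((0, 1), (5, 6), 4), ((0,
    1), (5, 7), 5), ((1, 0), (3, 2), 3), ((1, 0), (3, 6), 4), ((1, 0), (3, 8), 6), ((3, 4),
    (2, 1), 0), ((3, 4), (2, 3), 1), ((4, 3), (6, 3), 1), ((4, 3), (6, 5), 0)]
  G := [[0, 0xa8114a4118c2, 0xc81c81a4c41c4168c2, 0xc8114c4118c2, 0xc811c141ac4118c2], [0,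
    0xa41184a811486, 0, 0x1811414118c2, 0x18411841a14118c2], [0, 0x681148a41184c, 0,
    0x11411189c411145118c8c2, 0x114184a114114aa11145148a8c4]]

noncomputable def n2246 : Ent := ⟨e2246, noF, [], [], []⟩

def c2246 : PLift (Cov.check n2246.C.D v2246 = true) := ⟨by decide +kernel⟩

def b2246 : PLift (entF (fidx ts) 400 2246 n2246 = true) := ⟨by decide +kernel⟩

theorem g2246 : GoodF (fidx ts) 400 2246 := GoodF.ofV v2246 n2246 c2246.down b2246.down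

/-- 4694454:1887/7 -/
noncomputable def e2247 : SCfg where
  D := {
    a := 7
    L := 10
    kp := 7
    inn := [(0, 1), (0, 2), (1, 0), (1, 6), (2, 0), (2, 3), (2, 4), (2, 5), (3, 2), (4, 2), (4, 5), (5,
      2), (5, 4), (6, 1)]
    mix := [(0, 0), (0, 1), (1, 0), (1, 1), (1, 2), (1, 3), (2, 0), (2, 1), (2, 4), (2, 5), (2, 6), (3,
      4), (3, 5), (3, 7), (4, 3), (4, 6), (5, 1), (5, 3), (5, 8), (6, 0), (6, 3), (6, 9)]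
    cl := [0, 0, 5, 3, 2, 0, 1, 6, 4, 7]
    chq := [(0, 3), (1, 4), (3, 0), (4, 1)]
    rng := [(0, 4), (0, 9), (1, 2), (1, 8), (2, 1), (2, 3), (3, 2), (3, 6), (3, 8), (3, 9), (4, 0), (4,
      7), (5, 6), (5, 7), (6, 3), (6, 5), (7, 4), (7, 5), (8, 1), (8, 3), (9, 0), (9, 3)]
    lev := [] }
  links := [[1, 7, 2, 8], [7, 0, 8, 9, 10, 6], [8, 0, 7, 11, 3, 12, 13, 4, 5], [12, 2, 11, 14], [5, 2,
    13, 10], [8, 2, 4, 10, 15], [7, 1, 10, 16]]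
  P := {
    a := 7
    N := 17
    nb := [390, 1985, 14777, 22532, 9252, 34068, 66690, 67655, 33319, 1282, 107122, 16524, 24588,
      5140, 6152, 1312, 1216]
    tri := [(0, 1, 7), (0, 1, 8), (0, 2, 7), (0, 2, 8), (1, 6, 7), (1, 6, 10), (1, 8, 9), (1, 9, 10),
      (2, 3, 11), (2, 3, 12), (2, 4, 5), (2, 4, 13), (2, 5, 8), (2, 7, 11), (2, 12, 13), (3, 11,
      14), (3, 12, 14), (4, 5, 10), (4, 10, 13), (5, 8, 15), (5, 10, 15), (6, 7, 16), (6, 10, 16)]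
    fin := [0, 0, 0, 0, 4, 4, 0, 0, 0, 9, 10, 11, 0, 4, 14, 15, 16]
    chd := [(0, 10), (4, 15)]
    steps := [(0, 1), (0, 2), (0, 3), (0, 6), (0, 7), (0, 12), (0, 8), (4, 5), (4, 13)] }
  rep := [0, 4, 11, 10, 15, 9, 14, 16]

noncomputable def v2247 : Cov.CovD where
  P := 3
  N := 5
  pl := [2, 4, 7, 9]
  lev := [⟨[], [], [(0, 0)], [], [(0, 0, [3]), (1, 0, [3])]⟩,
    ⟨[], [(0, 0), (0, 3)], [(0, 0), (0, 3)], [5], [(0, 0, [3]), (1, 0, [3]), (3, 3, [0])]⟩,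
    ⟨[(0, 1)], [(0, 0), (0, 1), (1, 0)], [(0, 0), (0, 1)], [2], [(0, 0, [3]), (1, 0, [3]),
      (5, 0, [3]), (6, 1, [4])]⟩,
    ⟨[(0, 2)], [(2, 0), (2, 1)], [], [2, 6], [(5, 0, [3])]⟩,
    ⟨[(0, 2), (2, 3)], [(1, 3), (2, 0), (2, 1), (2, 3)], [(1, 3)], [], [(3, 3, [0]), (6, 1,
      [4])]⟩,
    ⟨[(0, 2), (2, 3), (2, 4)], [(0, 0), (1, 0), (1, 3), (2, 0), (2, 1), (2, 3), (2, 4), (4,
      0), (4, 1), (4, 3), (4, 4)], [(0, 3), (0, 4), (3, 4)], [], [(1, 0, [3]), (3, 3, [0]),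
      (8, 4, [1])]⟩,
    ⟨[(0, 1)], [(0, 0), (1, 0), (1, 3), (2, 0), (4, 3), (5, 3)], [(0, 3)], [7], [(0, 0,
      [3]), (3, 3, [0])]⟩]
  Ta := [((0, 4), 0, 2), ((0, 9), 0, 7), ((1, 2), 0, 5), ((1, 8), 0, 4), ((5, 6), 0, 1), ((5, 7),
    0, 6)]
  Tb := [((0, 4, 9), 0, 2, 7), ((1, 2, 8), 0, 5, 4), ((2, 1, 3), 5, 0, 3), ((3, 2, 6), 3, 5, 1),
    ((3, 2, 8), 3, 5, 4), ((3, 2, 9), 3, 5, 7), ((3, 6, 8), 3, 1, 4), ((3, 6, 9), 3, 1, 7),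
    ((3, 8, 9), 3, 4, 7), ((4, 0, 7), 2, 0, 6), ((5, 6, 7), 0, 1, 6), ((6, 3, 5), 1, 3, 0),
    ((7, 4, 5), 6, 2, 0), ((8, 1, 3), 4, 0, 3), ((9, 0, 3), 7, 0, 3)]
  Tc := []
  Td := [((0, 3), (0, 4), 2), ((0, 3), (0, 9), 7), ((0, 3), (1, 2), 5), ((0, 3), (1, 8), 4), ((0,
    3), (5, 6), 1), ((0, 3), (5, 7), 6), ((1, 4), (6, 3), 3), ((1, 4), (6, 5), 0), ((3, 0),
    (3, 2), 5), ((3, 0), (3, 6), 1), ((3, 0), (3, 8), 4), ((3, 0), (3, 9), 7), ((4, 1), (8,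
    1), 0), ((4, 1), (8, 3), 3)]
  G := [[0, 0, 0xe14e14a4e21e21686e18e18c48a, 0xe21142e1818cc6e114ca, 0xac3818e2118ae141846],
    [0, 0, 0, 0x119e118113e41852114e4, 0x1cae11811de11812118e2], [0,
    0x118118c4114114c8112112c4e2, 0, 0x118118c4a134461348cd21b21c4e8,
    0x11a254138a81142134a8b21921a8e4]]

noncomputable def n2247 : Ent := ⟨e2247, noF, [], [], [(15, 9, [1685356702439545624008034240510833457709826487664008433929045172225, 0])]⟩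

def c2247 : PLift (Cov.check n2247.C.D v2247 = true) := ⟨by decide +kernel⟩

def b2247 : PLift (entF (fidx ts) 400 2247 n2247 = true) := ⟨by decide +kernel⟩

theorem g2247 : GoodF (fidx ts) 400 2247 := GoodF.ofV v2247 n2247 c2247.down b2247.down

/-- 4694454:1887/9 -/
noncomputable def e2248 : SCfg where
  D := {
    a := 7
    L := 10
    kp := 7
    inn := [(0, 1), (0, 2), (1, 0), (1, 6), (2, 0), (2, 3), (2, 4), (2, 5), (3, 2), (4, 2), (4, 5), (5,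
      2), (5, 4), (6, 1)]
    mix := [(0, 0), (0, 1), (1, 0), (1, 1), (1, 2), (1, 3), (2, 0), (2, 1), (2, 4), (2, 5), (2, 6), (3,
      4), (3, 5), (3, 7), (4, 6), (4, 8), (5, 1), (5, 2), (5, 8), (6, 0), (6, 3), (6, 9)]
    cl := [0, 0, 1, 4, 2, 0, 3, 7, 5, 6]
    chq := [(1, 3), (1, 6), (3, 1), (6, 1)]
    rng := [(0, 4), (0, 9), (1, 2), (2, 1), (2, 3), (2, 8), (3, 2), (3, 9), (4, 0), (4, 7), (5, 6), (5,
      7), (6, 5), (6, 8), (7, 4), (7, 5), (8, 2), (8, 6), (9, 0), (9, 3)]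
    lev := [] }
  links := [[1, 7, 2, 8], [7, 0, 8, 9, 10, 6], [8, 0, 7, 11, 3, 12, 13, 4, 5], [12, 2, 11, 14], [5, 2,
    13, 15], [8, 2, 4, 15, 9], [7, 1, 10, 16]]
  P := {
    a := 7
    N := 17
    nb := [390, 1985, 14777, 22532, 40996, 33556, 66690, 67655, 551, 34082, 66114, 16524, 24588,
      36884, 6152, 8752, 1216]
    tri := [(0, 1, 7), (0, 1, 8), (0, 2, 7), (0, 2, 8), (1, 6, 7), (1, 6, 10), (1, 8, 9), (1, 9, 10),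
      (2, 3, 11), (2, 3, 12), (2, 4, 5), (2, 4, 13), (2, 5, 8), (2, 7, 11), (2, 12, 13), (3, 11,
      14), (3, 12, 14), (4, 5, 15), (4, 13, 15), (5, 8, 9), (5, 9, 15), (6, 7, 16), (6, 10, 16)]
    fin := [0, 1, 0, 0, 4, 4, 1, 0, 0, 1, 10, 11, 0, 4, 14, 15, 16]
    chd := [(1, 4), (1, 16)]
    steps := [(0, 2), (0, 3), (0, 7), (0, 12), (0, 8), (1, 6), (1, 9), (4, 5), (4, 13)] }
  rep := [0, 1, 11, 4, 10, 15, 16, 14]

noncomputable def v2248 : Cov.CovD where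
  P := 3
  N := 5
  pl := [3, 4, 7, 8]
  lev := [⟨[], [], [(0, 0)], [], [(0, 0, []), (1, 0, [])]⟩,
    ⟨[], [(0, 0), (0, 1)], [(0, 0), (0, 1)], [4], [(0, 0, []), (1, 0, []), (2, 1, [3, 6])]⟩,
    ⟨[(0, 1)], [(0, 0), (0, 3), (1, 0)], [(0, 0), (0, 3)], [2], [(0, 0, []), (1, 0, []),
      (5, 0, []), (6, 3, [1])]⟩,
    ⟨[(0, 2)], [(2, 0), (2, 3)], [], [2, 7], [(5, 0, [])]⟩,
    ⟨[(0, 2), (2, 3)], [(2, 0), (2, 3)], [], [5], [(6, 3, [1])]⟩,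
    ⟨[(0, 2), (2, 3), (2, 4)], [(0, 0), (1, 0), (1, 1), (2, 0), (2, 1), (2, 3), (4, 0), (4,
      1), (4, 3)], [(0, 1)], [5], [(1, 0, []), (2, 1, [3, 6])]⟩,
    ⟨[(0, 1)], [(0, 0), (1, 0), (1, 1), (1, 6), (2, 0)], [(0, 6)], [4], [(0, 0, []), (9, 6,
      [1])]⟩]
  Ta := [((0, 4), 0, 2), ((0, 9), 0, 6), ((1, 2), 0, 1), ((5, 6), 0, 3), ((5, 7), 0, 7)]
  Tb := [((0, 4, 9), 0, 2, 6), ((2, 1, 3), 1, 0, 4), ((2, 1, 8), 1, 0, 5), ((2, 3, 8), 1, 4, 5),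
    ((3, 2, 9), 4, 1, 6), ((4, 0, 7), 2, 0, 7), ((5, 6, 7), 0, 3, 7), ((6, 5, 8), 3, 0, 5),
    ((7, 4, 5), 7, 2, 0), ((8, 2, 6), 5, 1, 3), ((9, 0, 3), 6, 0, 4)]
  Tc := [(1, 3, 6)]
  Td := [((1, 3), (2, 1), 0), ((1, 3), (2, 3), 4), ((1, 3), (2, 8), 5), ((1, 6), (2, 1), 0), ((1,
    6), (2, 3), 4), ((1, 6), (2, 8), 5), ((3, 1), (6, 5), 0), ((3, 1), (6, 8), 5), ((6, 1),
    (9, 0), 0), ((6, 1), (9, 3), 4)]
  G := [[0, 0, 0x24e4e872824ce9ec2282421e282824bc2c4, 0x61e85a1e49a431c282431212861cc2,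
    0x6864e1e1228a824b12c4], [0, 0x11611411a1111c11c11a118e2, 0,
    0x142831342831c241831182431cc2, 0x281814b12242428712c4], [0, 0, 0,
    0x1251431114ac18216229183cc2152432421ac212156119283ccc2,
    0x21922282411e24285aa129221412928714185aac4]]

noncomputable def n2248 : Ent := ⟨e2248, noF, [], [], [(11, 16, [1580044410770988437309982408355971841652082177953823432505698295809, 0]), (14, 10, [1685382413448253768217684516765845462123538836781343823359357239297, 0]), (15, 10, [1685356702439545624464619697705549435909628783578210987402488209409, 0])]⟩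

def c2248 : PLift (Cov.check n2248.C.D v2248 = true) := ⟨by decide +kernel⟩

def b2248 : PLift (entF (fidx ts) 400 2248 n2248 = true) := ⟨by decide +kernel⟩

theorem g2248 : GoodF (fidx ts) 400 2248 := GoodF.ofV v2248 n2248 c2248.down b2248.down

/-- 4694454:1887 -/
noncomputable def e2249 : SCfg where
  D := {
    a := 7
    L := 11
    kp := 8
    inn := [(0, 1), (0, 2), (1, 0), (1, 6), (2, 0), (2, 3), (2, 4), (2, 5), (3, 2), (4, 2), (4, 5), (5,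
      2), (5, 4), (6, 1)]
    mix := [(0, 0), (0, 1), (1, 0), (1, 1), (1, 2), (1, 3), (2, 0), (2, 1), (2, 4), (2, 5), (2, 6), (3,
      4), (3, 5), (3, 7), (4, 6), (4, 8), (5, 1), (5, 8), (5, 9), (6, 0), (6, 3), (6, 10)]
    cl := [0, 0, 5, 3, 2, 0, 1, 8, 4, 6, 7]
    chq := [(1, 6), (5, 7), (6, 1), (7, 5)]
    rng := [(0, 4), (0, 10), (1, 2), (1, 9), (2, 1), (2, 3), (3, 2), (3, 10), (4, 0), (4, 7), (5, 6),
      (5, 7), (6, 5), (6, 8), (7, 4), (7, 5), (8, 6), (8, 9), (9, 1), (9, 8), (10, 0), (10, 3)]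
    lev := [] }
  links := [[1, 7, 2, 8], [7, 0, 8, 9, 10, 6], [8, 0, 7, 11, 3, 12, 13, 4, 5], [12, 2, 11, 14], [5, 2,
    13, 15], [8, 2, 4, 15, 16], [7, 1, 10, 17]]
  P := {
    a := 7
    N := 18
    nb := [390, 1985, 14777, 22532, 40996, 98580, 132226, 133191, 66087, 1282, 131650, 16524, 24588,
      36884, 6152, 73776, 33056, 1216]
    tri := [(0, 1, 7), (0, 1, 8), (0, 2, 7), (0, 2, 8), (1, 6, 7), (1, 6, 10), (1, 8, 9), (1, 9, 10),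
      (2, 3, 11), (2, 3, 12), (2, 4, 5), (2, 4, 13), (2, 5, 8), (2, 7, 11), (2, 12, 13), (3, 11,
      14), (3, 12, 14), (4, 5, 15), (4, 13, 15), (5, 8, 16), (5, 15, 16), (6, 7, 17), (6, 10, 17)]
    fin := [0, 1, 0, 0, 4, 4, 1, 0, 0, 1, 10, 11, 0, 4, 14, 15, 16, 17]
    chd := [(1, 17), (4, 16)]
    steps := [(0, 2), (0, 3), (0, 7), (0, 12), (0, 8), (1, 6), (1, 9), (4, 5), (4, 13)] }
  rep := [0, 4, 11, 10, 15, 1, 16, 17, 14]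

noncomputable def v2249 : Cov.CovD where
  P := 3
  N := 6
  pl := [3, 4, 7, 8]
  lev := [⟨[], [], [(0, 0)], [], [(0, 0, []), (1, 0, [])]⟩,
    ⟨[], [(0, 0), (0, 5)], [(0, 0), (0, 5)], [3], [(0, 0, []), (1, 0, []), (2, 5, [7])]⟩,
    ⟨[(0, 1)], [(0, 0), (0, 1), (1, 0)], [(0, 0), (0, 1)], [2], [(0, 0, []), (1, 0, []),
      (5, 0, []), (6, 1, [6])]⟩,
    ⟨[(0, 2)], [(2, 0), (2, 1)], [], [2, 8], [(5, 0, [])]⟩,
    ⟨[(0, 2), (2, 3)], [(2, 0), (2, 1)], [], [4], [(6, 1, [6])]⟩,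
    ⟨[(0, 2), (2, 3), (2, 4)], [(0, 0), (1, 0), (2, 0), (2, 1), (2, 6), (4, 0), (4, 1), (4,
      6)], [(0, 6)], [4], [(1, 0, []), (9, 6, [1])]⟩,
    ⟨[(0, 1)], [(0, 0), (1, 0), (1, 5), (1, 7), (2, 0)], [(0, 7)], [3], [(0, 0, []), (10,
      7, [5])]⟩]
  Ta := [((0, 4), 0, 2), ((0, 10), 0, 7), ((1, 2), 0, 5), ((1, 9), 0, 6), ((5, 6), 0, 1), ((5,
    7), 0, 8)]
  Tb := [((0, 4, 10), 0, 2, 7), ((1, 2, 9), 0, 5, 6), ((2, 1, 3), 5, 0, 3), ((3, 2, 10), 3, 5,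
    7), ((4, 0, 7), 2, 0, 8), ((5, 6, 7), 0, 1, 8), ((6, 5, 8), 1, 0, 4), ((7, 4, 5), 8, 2,
    0), ((8, 6, 9), 4, 1, 6), ((9, 1, 8), 6, 0, 4), ((10, 0, 3), 7, 0, 3)]
  Tc := []
  Td := [((1, 6), (6, 5), 0), ((1, 6), (6, 8), 4), ((5, 7), (2, 1), 0), ((5, 7), (2, 3), 3), ((6,
    1), (9, 1), 0), ((6, 1), (9, 8), 4), ((7, 5), (10, 0), 0), ((7, 5), (10, 3), 3)]
  G := [[0, 0, 0x626256146638e8c14c1c2cc28e8aa1a2ca2a1c6846, 0x6261c14a2a1c14c2c1c14e8,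
    0xaa3a2518cc3c251866162c188c], [0, 0, 0, 0x32616e918929a1e5185cc92518e4,
    0x31616a51831c9251812c91ec18e4], [0, 0x615165131ac411a169111ac49111c11c1ac4e8, 0,
    0x5152c46231c8c11312592a1cc89291c113129c4e2,
    0x6536255251ca899392592a1ca81131251112ca8e2]]

noncomputable def n2249 : Ent := ⟨e2249, noF, [], [], [(11, 17, [6903326391201334775872065844685381424292761054348340378595029938876417, 0]), (14, 10, [7334790875878422277917645788186105388691426821767817058683541361807361, 0]), (15, 10, [7334790850167413569773892723367045092665212911714613925847584492777473, 0]), (16, 9, [7334685537875745012586738242182911904785317355859017446831218244747265, 0])]⟩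

def c2249 : PLift (Cov.check n2249.C.D v2249 = true) := ⟨by decide +kernel⟩

def b2249 : PLift (entF (fidx ts) 400 2249 n2249 = true) := ⟨by decide +kernel⟩

theorem g2249 : GoodF (fidx ts) 400 2249 := GoodF.ofV v2249 n2249 c2249.down b2249.down

/-- 4586647:1888 -/
noncomputable def e2250 : SCfg where
  D := {
    a := 7
    L := 11
    kp := 10
    inn := [(0, 1), (0, 2), (0, 3), (1, 0), (1, 2), (2, 0), (2, 1), (2, 3), (2, 4), (2, 6), (3, 0), (3,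
      2), (3, 6), (4, 2), (4, 5), (4, 6), (5, 4), (5, 6), (6, 2), (6, 3), (6, 4), (6, 5)]
    mix := [(0, 0), (1, 0), (1, 1), (1, 2), (2, 2), (2, 3), (2, 4), (3, 0), (3, 5), (3, 6), (4, 4), (4,
      7), (4, 8), (5, 8), (5, 9), (6, 5), (6, 9), (6, 10)]
    cl := [0, 7, 5, 6, 1, 3, 8, 10, 2, 4, 9]
    chq := [(0, 6), (1, 2), (1, 3), (1, 4), (1, 9), (2, 1), (3, 1), (3, 6), (4, 1), (6, 0), (6, 3), (6,
      7), (6, 8), (7, 6), (8, 6), (9, 1)]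
    rng := [(0, 1), (0, 6), (1, 0), (1, 2), (2, 1), (2, 3), (3, 2), (3, 4), (4, 3), (4, 7), (5, 6), (5,
      10), (6, 0), (6, 5), (7, 4), (7, 8), (8, 7), (8, 9), (9, 8), (9, 10), (10, 5), (10, 9)]
    lev := [] }
  links := [[1, 2, 3, 7], [2, 0, 7, 8, 9], [3, 0, 1, 9, 10, 11, 4, 6], [7, 0, 2, 6, 12, 13], [6, 2, 11,
    14, 15, 5], [6, 4, 15, 16], [12, 3, 2, 4, 5, 16, 17]]
  P := {
    a := 7
    N := 18
    nb := [142, 901, 3675, 12485, 51300, 98384, 200764, 8459, 642, 1286, 2564, 17428, 139336, 4232,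
      34832, 81968, 163936, 69696]
    tri := [(0, 1, 2), (0, 1, 7), (0, 2, 3), (0, 3, 7), (1, 2, 9), (1, 7, 8), (1, 8, 9), (2, 3, 6), (2,
      4, 6), (2, 4, 11), (2, 9, 10), (2, 10, 11), (3, 6, 12), (3, 7, 13), (3, 12, 13), (4, 5, 6),
      (4, 5, 15), (4, 11, 14), (4, 14, 15), (5, 6, 16), (5, 15, 16), (6, 12, 17), (6, 16, 17)]
    fin := [0, 1, 2, 2, 4, 4, 4, 0, 1, 9, 2, 4, 12, 13, 14, 15, 16, 17]
    chd := [(0, 2), (1, 2), (2, 12), (2, 13), (4, 12), (4, 15), (4, 16), (4, 17)]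
    steps := [(0, 7), (1, 8), (2, 3), (2, 10), (4, 5), (4, 6), (4, 11)] }
  rep := [0, 4, 15, 12, 16, 9, 2, 1, 13, 17, 14]

noncomputable def v2250 : Cov.CovD where
  P := 3
  N := 8
  pl := [2, 7]
  lev := [⟨[], [], [], [], [(0, 0, [6])]⟩,
    ⟨[], [(0, 0), (0, 7)], [(0, 7)], [5], [(0, 0, [6]), (1, 7, [6])]⟩,
    ⟨[(0, 1)], [(0, 0), (0, 1), (0, 6), (1, 0), (1, 1), (1, 6), (1, 7)], [(1, 6)], [5],
      [(3, 6, [0, 3, 7, 8]), (4, 1, [2, 3, 4, 9])]⟩,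
    ⟨[(0, 1), (0, 2), (1, 2)], [(0, 0), (0, 3), (0, 8), (1, 0), (2, 0), (2, 1), (2, 3), (2,
      6), (2, 8)], [(0, 3), (0, 8), (3, 8)], [], [(0, 0, [6]), (5, 3, [1, 6]), (6, 8, [6])]⟩,
    ⟨[(0, 2), (1, 2), (2, 3)], [(2, 1), (2, 2), (2, 6)], [(1, 2)], [10], [(4, 1, [2, 3, 4,
      9]), (8, 2, [1])]⟩,
    ⟨[(2, 4)], [(4, 1), (4, 2), (4, 4)], [(2, 4)], [], [(8, 2, [1]), (9, 4, [1])]⟩,
    ⟨[(0, 2), (0, 3), (1, 2), (2, 3), (2, 4), (2, 5), (3, 4), (3, 5), (4, 5)], [(2, 1), (2,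
      3), (2, 4), (2, 6), (2, 9), (3, 0), (3, 3), (3, 4), (3, 8), (3, 9), (4, 1), (4, 2), (4,
      3), (4, 4), (4, 9), (5, 2), (5, 3), (5, 4), (5, 9)], [(3, 4), (3, 9), (4, 9)], [], [(5,
      3, [1, 6]), (9, 4, [1]), (10, 9, [1])]⟩]
  Ta := []
  Tb := [((0, 1, 6), 0, 7, 8), ((1, 0, 2), 7, 0, 5), ((2, 1, 3), 5, 7, 6), ((3, 2, 4), 6, 5, 1),
    ((4, 3, 7), 1, 6, 10), ((5, 6, 10), 3, 8, 9), ((6, 0, 5), 8, 0, 3), ((7, 4, 8), 10, 1,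
    2), ((8, 7, 9), 2, 10, 4), ((9, 8, 10), 4, 2, 9), ((10, 5, 9), 9, 3, 4)]
  Tc := [(1, 2, 3), (1, 2, 4), (1, 2, 9), (1, 3, 4), (1, 3, 9), (1, 4, 9), (3, 1, 6), (6, 0, 3),
    (6, 0, 7), (6, 0, 8), (6, 3, 7), (6, 3, 8), (6, 7, 8)]
  Td := [((0, 6), (0, 1), 7), ((0, 6), (0, 6), 8), ((1, 2), (4, 3), 6), ((1, 2), (4, 7), 10),
    ((1, 3), (4, 3), 6), ((1, 3), (4, 7), 10), ((1, 4), (4, 3), 6), ((1, 4), (4, 7), 10),
    ((1, 9), (4, 3), 6), ((1, 9), (4, 7), 10), ((2, 1), (8, 7), 10), ((2, 1), (8, 9), 4),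
    ((3, 1), (5, 6), 8), ((3, 1), (5, 10), 9), ((3, 6), (5, 6), 8), ((3, 6), (5, 10), 9),
    ((4, 1), (9, 8), 2), ((4, 1), (9, 10), 9), ((6, 0), (3, 2), 5), ((6, 0), (3, 4), 1), ((6,
    3), (3, 2), 5), ((6, 3), (3, 4), 1), ((6, 7), (3, 2), 5), ((6, 7), (3, 4), 1), ((6, 8),
    (3, 2), 5), ((6, 8), (3, 4), 1), ((7, 6), (1, 0), 0), ((7, 6), (1, 2), 5), ((8, 6), (6,
    0), 0), ((8, 6), (6, 5), 3), ((9, 1), (10, 5), 3), ((9, 1), (10, 9), 4)]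
  G := [[0x116116614461814a1812aa124181214ece11a11c6211a11ca211a11ac11a116cce611a116611c11c6611a116a811611ca8e8c,
    0x11c4411c8211c11cc11511ccca184f11c28511c4621411c119ca11c11cc11c8ce6135828161c29211c4211c139c11c8a11c11cc11c11ccc4148f115811c468ce,
    0x8284244231228c24542482ac22cec232422cec2288222c22cc22c22cc2ac22cced5212c28b22c23ac822c22cc22c22ccc523622cc422c8127a22cc22c22cccd9248624de,
    0x225112252259822922c5225225c2294ed229225c22c229c225225ce1a212428d422522991225225c212824dcd46,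
    0x82529442123421141942322a171128121822926a9229289282b8ef2291229142112c2bbe22922992392192291b22982298682b289eda623f29422922992292299922922a94d4e]]

noncomputable def n2250 : Ent := ⟨e2250, noF, [], [], []⟩

def c2250 : PLift (Cov.check n2250.C.D v2250 = true) := ⟨by decide +kernel⟩

def b2250 : PLift (entF (fidx ts) 400 2250 n2250 = true) := ⟨by decide +kernel⟩

theorem g2250 : GoodF (fidx ts) 400 2250 := GoodF.ofV v2250 n2250 c2250.down b2250.down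

/-- 4586744:1889/1 -/
noncomputable def e2251 : SCfg where
  D := {
    a := 7
    L := 10
    kp := 7
    inn := [(0, 1), (0, 2), (0, 3), (1, 0), (1, 2), (2, 0), (2, 1), (2, 3), (2, 4), (2, 6), (3, 0), (3,
      2), (3, 4), (4, 2), (4, 3), (4, 5), (5, 4), (6, 2)]
    mix := [(0, 0), (1, 0), (1, 1), (1, 2), (2, 2), (2, 3), (2, 4), (3, 0), (3, 5), (3, 6), (4, 4), (4,
      5), (4, 7), (4, 8), (5, 1), (5, 5), (5, 8), (6, 3), (6, 4), (6, 9)]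
    cl := [3, 2, 0, 4, 0, 1, 6, 1, 5, 7]
    chq := [(0, 3), (0, 6), (3, 0), (6, 0)]
    rng := [(0, 1), (0, 6), (1, 0), (1, 2), (1, 5), (1, 8), (2, 1), (2, 3), (3, 2), (3, 9), (4, 7), (4,
      9), (5, 1), (5, 6), (6, 0), (6, 5), (7, 4), (7, 8), (8, 1), (8, 7), (9, 3), (9, 4)]
    lev := [] }
  links := [[1, 2, 3, 7], [2, 0, 7, 8, 9], [3, 0, 1, 9, 10, 6, 11, 4], [7, 0, 2, 4, 12, 13], [12, 3, 2,
    11, 14, 15, 5], [12, 4, 15, 8], [11, 2, 10, 16]]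
  P := {
    a := 7
    N := 17
    nb := [142, 901, 3675, 12437, 55340, 37136, 68612, 8459, 37538, 1286, 66116, 82004, 8504, 4232,
      34832, 16688, 3136]
    tri := [(0, 1, 2), (0, 1, 7), (0, 2, 3), (0, 3, 7), (1, 2, 9), (1, 7, 8), (1, 8, 9), (2, 3, 4), (2,
      4, 11), (2, 6, 10), (2, 6, 11), (2, 9, 10), (3, 4, 12), (3, 7, 13), (3, 12, 13), (4, 5, 12),
      (4, 5, 15), (4, 11, 14), (4, 14, 15), (5, 8, 12), (5, 8, 15), (6, 10, 16), (6, 11, 16)]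
    fin := [0, 0, 2, 2, 4, 5, 2, 0, 5, 2, 10, 2, 4, 13, 4, 15, 16]
    chd := [(0, 2), (2, 13)]
    steps := [(0, 1), (0, 7), (2, 3), (2, 6), (2, 9), (2, 11), (4, 14), (4, 12), (5, 8)] }
  rep := [2, 4, 5, 0, 10, 15, 13, 16]

noncomputable def v2251 : Cov.CovD where
  P := 3
  N := 5
  pl := [1, 3, 8, 9]
  lev := [⟨[], [], [], [], [(0, 3, [0])]⟩,
    ⟨[], [(0, 0), (0, 3)], [(0, 3)], [2], [(0, 3, [0]), (2, 0, [3, 6])]⟩,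
    ⟨[(0, 1)], [(0, 0), (0, 3), (1, 0), (1, 3)], [(0, 0)], [4], [(2, 0, [3, 6]), (4, 0, [3,
      6])]⟩,
    ⟨[(0, 1), (0, 2), (1, 2)], [(0, 1), (0, 3), (0, 6), (1, 3), (2, 0), (2, 1), (2, 3), (2,
      6)], [(1, 3), (1, 6), (3, 6)], [], [(0, 3, [0]), (5, 1, []), (6, 6, [0])]⟩,
    ⟨[(0, 2), (0, 3), (1, 2), (2, 3)], [(2, 0), (2, 1), (3, 0), (3, 1), (3, 3), (3, 6)],
      [(0, 1), (1, 1)], [5], [(4, 0, [3, 6]), (5, 1, []), (7, 1, [])]⟩,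
    ⟨[(2, 4), (3, 4)], [(3, 1), (4, 0), (4, 1)], [], [2, 5], [(5, 1, [])]⟩,
    ⟨[(0, 2), (1, 2), (2, 3), (2, 4)], [(2, 0), (4, 0)], [], [4, 7], [(4, 0, [3, 6])]⟩]
  Ta := [((2, 1), 0, 2), ((2, 3), 0, 4), ((4, 7), 0, 1), ((4, 9), 0, 7), ((5, 1), 1, 2), ((5, 6),
    1, 6), ((7, 4), 1, 0), ((7, 8), 1, 5)]
  Tb := [((0, 1, 6), 3, 2, 6), ((1, 0, 2), 2, 3, 0), ((1, 0, 5), 2, 3, 1), ((1, 0, 8), 2, 3, 5),
    ((1, 2, 5), 2, 0, 1), ((1, 2, 8), 2, 0, 5), ((1, 5, 8), 2, 1, 5), ((2, 1, 3), 0, 2, 4),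
    ((3, 2, 9), 4, 0, 7), ((4, 7, 9), 0, 1, 7), ((5, 1, 6), 1, 2, 6), ((6, 0, 5), 6, 3, 1),
    ((7, 4, 8), 1, 0, 5), ((8, 1, 7), 5, 2, 1), ((9, 3, 4), 7, 4, 0)]
  Tc := [(0, 3, 6)]
  Td := [((0, 3), (2, 1), 2), ((0, 3), (2, 3), 4), ((0, 3), (4, 7), 1), ((0, 3), (4, 9), 7), ((0,
    6), (2, 1), 2), ((0, 6), (2, 3), 4), ((0, 6), (4, 7), 1), ((0, 6), (4, 9), 7), ((3, 0),
    (0, 1), 2), ((3, 0), (0, 6), 6), ((6, 0), (6, 0), 3), ((6, 0), (6, 5), 1)]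
  G := [[0, 0, 0x144118811814c1e144118811814c1ea1, 0x1831c1d854c163194c15851c1ac2,
    0xc8b1c11811c16811119c1b8b1c1c2a], [0, 0, 0x1812c121214c1818812434e1, 0,
    0xc811c118a1c16811119c2b8b1c2c29], [0, 0, 0, 0xc811c11814c1621e4c168921c18841c1e92,
    0xc891c1a8e1c168c141a861c1a14141c881c1e], [0, 0xc4c8616864c1a4a4a8616864a1c16, 0, 0,
    0xc881a842c168c141a862c1a1e241c821c1c2e]]

noncomputable def n2251 : Ent := ⟨e2251, noF, [], [], []⟩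

def c2251 : PLift (Cov.check n2251.C.D v2251 = true) := ⟨by decide +kernel⟩

def b2251 : PLift (entF (fidx ts) 400 2251 n2251 = true) := ⟨by decide +kernel⟩

theorem g2251 : GoodF (fidx ts) 400 2251 := GoodF.ofV v2251 n2251 c2251.down b2251.down

/-- 4586744:1889 -/
noncomputable def e2252 : SCfg where
  D := {
    a := 7
    L := 11
    kp := 8
    inn := [(0, 1), (0, 2), (0, 3), (1, 0), (1, 2), (2, 0), (2, 1), (2, 3), (2, 4), (2, 6), (3, 0), (3,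
      2), (3, 4), (4, 2), (4, 3), (4, 5), (5, 4), (6, 2)]
    mix := [(0, 0), (1, 0), (1, 1), (1, 2), (2, 2), (2, 3), (2, 4), (3, 0), (3, 5), (3, 6), (4, 4), (4,
      5), (4, 7), (4, 8), (5, 5), (5, 8), (5, 9), (6, 3), (6, 4), (6, 10)]
    cl := [1, 6, 0, 2, 0, 3, 5, 3, 4, 7, 8]
    chq := [(0, 1), (0, 5), (1, 0), (5, 0)]
    rng := [(0, 1), (0, 6), (1, 0), (1, 2), (2, 1), (2, 3), (3, 2), (3, 10), (4, 7), (4, 10), (5, 6),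
      (5, 9), (6, 0), (6, 5), (7, 4), (7, 8), (8, 7), (8, 9), (9, 5), (9, 8), (10, 3), (10, 4)]
    lev := [] }
  links := [[1, 2, 3, 7], [2, 0, 7, 8, 9], [3, 0, 1, 9, 10, 6, 11, 4], [7, 0, 2, 4, 12, 13], [12, 3, 2,
    11, 14, 15, 5], [12, 4, 15, 16], [11, 2, 10, 17]]
  P := {
    a := 7
    N := 18
    nb := [142, 901, 3675, 12437, 55340, 102416, 134148, 8459, 642, 1286, 131652, 147540, 73784, 4232,
      34832, 81968, 36896, 3136]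
    tri := [(0, 1, 2), (0, 1, 7), (0, 2, 3), (0, 3, 7), (1, 2, 9), (1, 7, 8), (1, 8, 9), (2, 3, 4), (2,
      4, 11), (2, 6, 10), (2, 6, 11), (2, 9, 10), (3, 4, 12), (3, 7, 13), (3, 12, 13), (4, 5, 12),
      (4, 5, 15), (4, 11, 14), (4, 14, 15), (5, 12, 16), (5, 15, 16), (6, 10, 17), (6, 11, 17)]
    fin := [0, 0, 2, 2, 4, 4, 2, 0, 8, 2, 10, 2, 4, 13, 4, 15, 16, 17]
    chd := [(0, 2), (2, 13)]
    steps := [(0, 1), (0, 7), (2, 3), (2, 6), (2, 9), (2, 11), (4, 5), (4, 14), (4, 12)] }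
  rep := [2, 0, 10, 4, 15, 13, 8, 16, 17]

noncomputable def v2252 : Cov.CovD where
  P := 3
  N := 6
  pl := [1, 3, 8, 9, 10]
  lev := [⟨[], [], [], [], [(0, 1, [0])]⟩,
    ⟨[], [(0, 0), (0, 1)], [(0, 1)], [6], [(0, 1, [0]), (2, 0, [1, 5])]⟩,
    ⟨[(0, 1)], [(0, 0), (0, 1), (1, 0), (1, 1)], [(0, 0)], [2], [(2, 0, [1, 5]), (4, 0, [1,
      5])]⟩,
    ⟨[(0, 1), (0, 2), (1, 2)], [(0, 1), (0, 3), (0, 5), (1, 1), (2, 0), (2, 1), (2, 3), (2,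
      5)], [(1, 3), (1, 5), (3, 5)], [], [(0, 1, [0]), (5, 3, []), (6, 5, [0])]⟩,
    ⟨[(0, 2), (0, 3), (1, 2), (2, 3)], [(2, 0), (2, 3), (3, 0), (3, 1), (3, 3), (3, 5)],
      [(0, 3), (3, 3)], [4], [(4, 0, [1, 5]), (5, 3, []), (7, 3, [])]⟩,
    ⟨[(2, 4), (3, 4)], [(3, 3), (4, 0), (4, 3)], [], [4, 7], [(5, 3, [])]⟩,
    ⟨[(0, 2), (1, 2), (2, 3), (2, 4)], [(2, 0), (4, 0)], [], [2, 8], [(4, 0, [1, 5])]⟩]
  Ta := [((2, 1), 0, 6), ((2, 3), 0, 2), ((4, 7), 0, 3), ((4, 10), 0, 8), ((5, 6), 3, 5), ((5,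
    9), 3, 7), ((7, 4), 3, 0), ((7, 8), 3, 4)]
  Tb := [((0, 1, 6), 1, 6, 5), ((1, 0, 2), 6, 1, 0), ((2, 1, 3), 0, 6, 2), ((3, 2, 10), 2, 0, 8),
    ((4, 7, 10), 0, 3, 8), ((5, 6, 9), 3, 5, 7), ((6, 0, 5), 5, 1, 3), ((7, 4, 8), 3, 0, 4),
    ((8, 7, 9), 4, 3, 7), ((9, 5, 8), 7, 3, 4), ((10, 3, 4), 8, 2, 0)]
  Tc := [(0, 1, 5)]
  Td := [((0, 1), (2, 1), 6), ((0, 1), (2, 3), 2), ((0, 1), (4, 7), 3), ((0, 1), (4, 10), 8),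
    ((0, 5), (2, 1), 6), ((0, 5), (2, 3), 2), ((0, 5), (4, 7), 3), ((0, 5), (4, 10), 8), ((1,
    0), (0, 1), 6), ((1, 0), (0, 6), 5), ((5, 0), (6, 0), 1), ((5, 0), (6, 5), 3)]
  G := [[0, 0x1151136111981c11541119113a1cc2, 0xaa96c3a1a6541666321a69a65c1ac8,
    0x119814411541119113a1c115113618cc, 0x1151136111981a122111911511e1ac4], [0,
    0x116115113e1811611a113e1864, 0xaa9acaccce12666665663e18c4,
    0x11a1136111681c116115113e18c4, 0x11911511ce1211611511ce12c4], [0,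
    0x1151136111981c11541119113a1c68, 0, 0x4c98141cc5cc3618881c1c, 0xaa5aa361aa981a14], [0,
    0x116115113e1811911a113e1462, 0, 0x44541c8cd88a8cc7e1c18, 0xaa321aa9aa5c1a14]]

noncomputable def n2252 : Ent := ⟨e2252, noF, [], [], [(8, 16, [7334685537875745012586738086077695515070955365108989538292687702896641, 0])]⟩

def c2252 : PLift (Cov.check n2252.C.D v2252 = true) := ⟨by decide +kernel⟩

def b2252 : PLift (entF (fidx ts) 400 2252 n2252 = true) := ⟨by decide +kernel⟩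

theorem g2252 : GoodF (fidx ts) 400 2252 := GoodF.ofV v2252 n2252 c2252.down b2252.down

/-- 4586644:1891/2 -/
noncomputable def e2253 : SCfg where
  D := {
    a := 7
    L := 9
    kp := 6
    inn := [(0, 1), (0, 2), (0, 3), (1, 0), (1, 2), (2, 0), (2, 1), (2, 3), (2, 6), (3, 0), (3, 2), (3,
      4), (4, 3), (4, 5), (5, 4), (6, 2)]
    mix := [(0, 0), (1, 0), (1, 1), (1, 2), (2, 2), (2, 3), (2, 4), (2, 5), (3, 0), (3, 5), (3, 6), (4,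
      0), (4, 1), (4, 6), (4, 7), (5, 6), (5, 7), (5, 8), (6, 3), (6, 4), (6, 8)]
    cl := [0, 2, 1, 4, 1, 5, 0, 6, 3]
    chq := [(0, 1), (1, 0), (2, 3), (3, 2)]
    rng := [(0, 1), (1, 0), (1, 2), (1, 7), (2, 1), (2, 3), (3, 2), (3, 8), (4, 5), (4, 8), (5, 4), (5,
      6), (6, 5), (6, 8), (7, 1), (7, 8), (8, 3), (8, 4), (8, 6), (8, 7)]
    lev := [] }
  links := [[1, 2, 3, 7], [2, 0, 7, 8, 9], [3, 0, 1, 9, 10, 6, 11, 12], [7, 0, 2, 12, 13, 4], [7, 3, 13,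
    5, 14, 8], [14, 4, 13, 15], [11, 2, 10, 15]]
  P := {
    a := 7
    N := 16
    nb := [142, 901, 7755, 12437, 25000, 57360, 35844, 283, 17042, 1286, 33348, 36932, 10252, 36920,
      33072, 27744]
    tri := [(0, 1, 2), (0, 1, 7), (0, 2, 3), (0, 3, 7), (1, 2, 9), (1, 7, 8), (1, 8, 9), (2, 3, 12),
      (2, 6, 10), (2, 6, 11), (2, 9, 10), (2, 11, 12), (3, 4, 7), (3, 4, 13), (3, 12, 13), (4, 5,
      13), (4, 5, 14), (4, 7, 8), (4, 8, 14), (5, 13, 15), (5, 14, 15), (6, 10, 15), (6, 11, 15)]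
    fin := [0, 0, 2, 0, 4, 4, 2, 0, 4, 2, 10, 2, 12, 0, 14, 15]
    chd := [(0, 2), (4, 15)]
    steps := [(0, 1), (0, 3), (0, 7), (0, 13), (2, 6), (2, 9), (2, 11), (4, 5), (4, 8)] }
  rep := [0, 2, 4, 15, 10, 12, 14]

noncomputable def v2253 : Cov.CovD where
  P := 3
  N := 4
  pl := [3, 5, 7]
  lev := [⟨[], [], [], [], [(0, 0, [1])]⟩,
    ⟨[], [(0, 0), (0, 1), (0, 2)], [(0, 1), (0, 2), (1, 2)], [], [(0, 0, [1]), (1, 2, [3]),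
      (2, 1, [0])]⟩,
    ⟨[(0, 1)], [(0, 0), (0, 1), (1, 0), (1, 1), (1, 2)], [(1, 1)], [4, 5], [(2, 1, [0]),
      (4, 1, [0])]⟩,
    ⟨[(0, 1), (0, 2), (1, 2)], [(0, 0), (1, 0), (2, 0), (2, 1)], [(0, 0)], [5], [(0, 0,
      [1]), (6, 0, [1])]⟩,
    ⟨[(0, 3), (2, 3)], [(0, 0), (1, 0), (1, 2), (3, 0), (3, 2)], [(0, 0), (0, 2)], [6],
      [(0, 0, [1]), (1, 2, [3]), (6, 0, [1])]⟩,
    ⟨[(3, 4)], [(3, 0), (4, 0), (4, 2), (4, 3)], [(0, 3)], [6], [(6, 0, [1]), (8, 3, [2])]⟩,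
    ⟨[(0, 2), (1, 2), (2, 3)], [(2, 1), (2, 3), (5, 3)], [(1, 3)], [4], [(4, 1, [0]), (8,
      3, [2])]⟩]
  Ta := [((0, 1), 0, 2), ((2, 1), 1, 2), ((2, 3), 1, 4), ((4, 5), 1, 5), ((4, 8), 1, 3), ((6, 5),
    0, 5), ((6, 8), 0, 3)]
  Tb := [((1, 0, 2), 2, 0, 1), ((1, 0, 7), 2, 0, 6), ((1, 2, 7), 2, 1, 6), ((2, 1, 3), 1, 2, 4),
    ((3, 2, 8), 4, 1, 3), ((4, 5, 8), 1, 5, 3), ((5, 4, 6), 5, 1, 0), ((6, 5, 8), 0, 5, 3),
    ((7, 1, 8), 6, 2, 3), ((8, 3, 4), 3, 4, 1), ((8, 3, 6), 3, 4, 0), ((8, 3, 7), 3, 4, 6),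
    ((8, 4, 6), 3, 1, 0), ((8, 4, 7), 3, 1, 6), ((8, 6, 7), 3, 0, 6)]
  Tc := []
  Td := [((0, 1), (0, 1), 2), ((0, 1), (6, 5), 5), ((0, 1), (6, 8), 3), ((1, 0), (2, 1), 2), ((1,
    0), (2, 3), 4), ((1, 0), (4, 5), 5), ((1, 0), (4, 8), 3), ((2, 3), (1, 0), 0), ((2, 3),
    (1, 2), 1), ((2, 3), (1, 7), 6), ((3, 2), (8, 3), 4), ((3, 2), (8, 4), 1), ((3, 2), (8,
    6), 0), ((3, 2), (8, 7), 6)]
  G := [[0, 0x114128114e48114128128e1112c2a43, 0x2121c22121a21111a2d84, 0x2222c22222c22222c2d82,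
    0x2422a4482124a21114a298c], [0, 0x124118124e1211c261134218128e8c1,
    0x84cc1a248849c2ac1c1a6114112118e92c, 0, 0xc1c4a21412a1411a6584462418418e82c], [0,
    0x2141138124e4124118118e1112c2ac1, 0, 0x2222c22222c22222c2d48,
    0x422e74a21622648a33624a2c94], [0, 0x124118124e41134118128e1112c2ac1, 0, 0,
    0xc8c2a411ed4a61891c8446d4a64556254884c8e8a9]]

noncomputable def n2253 : Ent := ⟨e2253, noF, [], [], []⟩

def c2253 : PLift (Cov.check n2253.C.D v2253 = true) := ⟨by decide +kernel⟩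

def b2253 : PLift (entF (fidx ts) 400 2253 n2253 = true) := ⟨by decide +kernel⟩

theorem g2253 : GoodF (fidx ts) 400 2253 := GoodF.ofV v2253 n2253 c2253.down b2253.down

/-- 4586644:1891/3 -/
noncomputable def e2254 : SCfg where
  D := {
    a := 7
    L := 9
    kp := 6
    inn := [(0, 1), (0, 2), (0, 3), (1, 0), (1, 2), (2, 0), (2, 1), (2, 3), (2, 6), (3, 0), (3, 2), (3,
      4), (4, 3), (4, 5), (5, 4), (6, 2)]
    mix := [(0, 0), (1, 0), (1, 1), (1, 2), (2, 2), (2, 3), (2, 4), (2, 5), (3, 0), (3, 5), (3, 6), (4,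
      0), (4, 1), (4, 6), (4, 7), (5, 6), (5, 7), (5, 8), (6, 3), (6, 4), (6, 7)]
    cl := [0, 2, 1, 4, 1, 5, 0, 3, 6]
    chq := [(0, 1), (1, 0), (2, 6), (6, 2)]
    rng := [(0, 1), (1, 0), (1, 2), (1, 7), (2, 1), (2, 3), (3, 2), (3, 7), (4, 5), (4, 7), (5, 4), (5,
      6), (6, 5), (6, 8), (7, 1), (7, 3), (7, 4), (7, 8), (8, 6), (8, 7)]
    lev := [] }
  links := [[1, 2, 3, 7], [2, 0, 7, 8, 9], [3, 0, 1, 9, 10, 6, 11, 12], [7, 0, 2, 12, 13, 4], [7, 3, 13,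
    5, 14, 8], [14, 4, 13, 15], [11, 2, 10, 14]]
  P := {
    a := 7
    N := 16
    nb := [142, 901, 7755, 12437, 25000, 57360, 19460, 283, 17042, 1286, 16964, 20548, 10252, 36920,
      36208, 24608]
    tri := [(0, 1, 2), (0, 1, 7), (0, 2, 3), (0, 3, 7), (1, 2, 9), (1, 7, 8), (1, 8, 9), (2, 3, 12),
      (2, 6, 10), (2, 6, 11), (2, 9, 10), (2, 11, 12), (3, 4, 7), (3, 4, 13), (3, 12, 13), (4, 5,
      13), (4, 5, 14), (4, 7, 8), (4, 8, 14), (5, 13, 15), (5, 14, 15), (6, 10, 14), (6, 11, 14)]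
    fin := [0, 0, 2, 0, 4, 4, 2, 0, 4, 2, 10, 2, 12, 0, 14, 15]
    chd := [(0, 2), (4, 15)]
    steps := [(0, 1), (0, 3), (0, 7), (0, 13), (2, 6), (2, 9), (2, 11), (4, 5), (4, 8)] }
  rep := [0, 2, 4, 14, 10, 12, 15]

noncomputable def v2254 : Cov.CovD where
  P := 3
  N := 4
  pl := [3, 5, 7]
  lev := [⟨[], [], [], [], [(0, 0, [1])]⟩,
    ⟨[], [(0, 0), (0, 1), (0, 2)], [(0, 1), (0, 2), (1, 2)], [], [(0, 0, [1]), (1, 2, [6]),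
      (2, 1, [0])]⟩,
    ⟨[(0, 1)], [(0, 0), (0, 1), (1, 0), (1, 1), (1, 2)], [(1, 1)], [4, 5], [(2, 1, [0]),
      (4, 1, [0])]⟩,
    ⟨[(0, 1), (0, 2), (1, 2)], [(0, 0), (1, 0), (2, 0), (2, 1)], [(0, 0)], [5], [(0, 0,
      [1]), (6, 0, [1])]⟩,
    ⟨[(0, 3), (2, 3)], [(0, 0), (1, 0), (1, 2), (3, 0), (3, 2)], [(0, 0), (0, 2)], [3],
      [(0, 0, [1]), (1, 2, [6]), (6, 0, [1])]⟩,
    ⟨[(3, 4)], [(3, 0), (4, 0), (4, 2), (4, 6)], [(0, 6)], [3], [(6, 0, [1]), (8, 6, [2])]⟩,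
    ⟨[(0, 2), (1, 2), (2, 3)], [(2, 1)], [], [3, 4], [(4, 1, [0])]⟩]
  Ta := [((0, 1), 0, 2), ((2, 1), 1, 2), ((2, 3), 1, 4), ((4, 5), 1, 5), ((4, 7), 1, 3), ((6, 5),
    0, 5), ((6, 8), 0, 6)]
  Tb := [((1, 0, 2), 2, 0, 1), ((1, 0, 7), 2, 0, 3), ((1, 2, 7), 2, 1, 3), ((2, 1, 3), 1, 2, 4),
    ((3, 2, 7), 4, 1, 3), ((4, 5, 7), 1, 5, 3), ((5, 4, 6), 5, 1, 0), ((6, 5, 8), 0, 5, 6),
    ((7, 1, 3), 3, 2, 4), ((7, 1, 4), 3, 2, 1), ((7, 1, 8), 3, 2, 6), ((7, 3, 4), 3, 4, 1),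
    ((7, 3, 8), 3, 4, 6), ((7, 4, 8), 3, 1, 6), ((8, 6, 7), 6, 0, 3)]
  Tc := []
  Td := [((0, 1), (0, 1), 2), ((0, 1), (6, 5), 5), ((0, 1), (6, 8), 6), ((1, 0), (2, 1), 2), ((1,
    0), (2, 3), 4), ((1, 0), (4, 5), 5), ((1, 0), (4, 7), 3), ((2, 6), (1, 0), 0), ((2, 6),
    (1, 2), 1), ((2, 6), (1, 7), 3), ((6, 2), (8, 6), 0), ((6, 2), (8, 7), 3)]
  G := [[0, 0x114818a1112c2a41184224118414ec86, 0x212221221122d48, 0x2222c28221c22212c2d84,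
    0x2252222522a1522d84], [0, 0x414118424e4114828128e1112c2ac1,
    0x81841461121111c65414818a8c2, 0, 0x8184426c1525411a6524428858a82c], [0,
    0x1184414118124e1211c2e124818a8c1, 0, 0x2222c22222c22222c2d84,
    0x2212ca213226ca23294ca2c98], [0, 0x114118414e4114218828e1111c2ac1, 0, 0,
    0x49694ca2141e2191e54a65854288a2888e8e82c]]

noncomputable def n2254 : Ent := ⟨e2254, noF, [], [], []⟩

def c2254 : PLift (Cov.check n2254.C.D v2254 = true) := ⟨by decide +kernel⟩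

def b2254 : PLift (entF (fidx ts) 400 2254 n2254 = true) := ⟨by decide +kernel⟩

theorem g2254 : GoodF (fidx ts) 400 2254 := GoodF.ofV v2254 n2254 c2254.down b2254.down

/-- 4586644:1891/1 -/
noncomputable def e2255 : SCfg where
  D := {
    a := 7
    L := 10
    kp := 7
    inn := [(0, 1), (0, 2), (0, 3), (1, 0), (1, 2), (2, 0), (2, 1), (2, 3), (2, 6), (3, 0), (3, 2), (3,
      4), (4, 3), (4, 5), (5, 4), (6, 2)]
    mix := [(0, 0), (1, 0), (1, 1), (1, 2), (2, 2), (2, 3), (2, 4), (2, 5), (3, 0), (3, 5), (3, 6), (4,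
      0), (4, 1), (4, 6), (4, 7), (5, 6), (5, 7), (5, 8), (6, 3), (6, 4), (6, 9)]
    cl := [0, 1, 3, 4, 3, 2, 0, 5, 6, 7]
    chq := [(0, 3), (1, 6), (3, 0), (6, 1)]
    rng := [(0, 1), (1, 0), (1, 2), (1, 7), (2, 1), (2, 3), (3, 2), (3, 9), (4, 5), (4, 9), (5, 4), (5,
      6), (6, 5), (6, 8), (7, 1), (7, 8), (8, 6), (8, 7), (9, 3), (9, 4)]
    lev := [] }
  links := [[1, 2, 3, 7], [2, 0, 7, 8, 9], [3, 0, 1, 9, 10, 6, 11, 12], [7, 0, 2, 12, 13, 4], [7, 3, 13,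
    5, 14, 8], [14, 4, 13, 15], [11, 2, 10, 16]]
  P := {
    a := 7
    N := 17
    nb := [142, 901, 7755, 12437, 25000, 57360, 68612, 283, 17042, 1286, 66116, 69700, 10252, 36920,
      33072, 24608, 3136]
    tri := [(0, 1, 2), (0, 1, 7), (0, 2, 3), (0, 3, 7), (1, 2, 9), (1, 7, 8), (1, 8, 9), (2, 3, 12),
      (2, 6, 10), (2, 6, 11), (2, 9, 10), (2, 11, 12), (3, 4, 7), (3, 4, 13), (3, 12, 13), (4, 5,
      13), (4, 5, 14), (4, 7, 8), (4, 8, 14), (5, 13, 15), (5, 14, 15), (6, 10, 16), (6, 11, 16)]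
    fin := [0, 0, 2, 0, 4, 4, 2, 0, 4, 2, 10, 2, 12, 0, 14, 15, 16]
    chd := [(0, 2), (4, 15)]
    steps := [(0, 1), (0, 3), (0, 7), (0, 13), (2, 6), (2, 9), (2, 11), (4, 5), (4, 8)] }
  rep := [0, 4, 12, 2, 10, 14, 15, 16]

noncomputable def v2255 : Cov.CovD where
  P := 3
  N := 5
  pl := [3, 5, 7, 9]
  lev := [⟨[], [], [], [], [(0, 0, [3])]⟩,
    ⟨[], [(0, 0), (0, 1), (0, 3)], [(0, 1), (0, 3), (1, 3)], [], [(0, 0, [3]), (1, 1, [6]),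
      (2, 3, [0])]⟩,
    ⟨[(0, 1)], [(0, 0), (0, 3), (1, 0), (1, 1), (1, 3)], [(3, 3)], [2, 4], [(2, 3, [0]),
      (4, 3, [0])]⟩,
    ⟨[(0, 1), (0, 2), (1, 2)], [(0, 0), (1, 0), (2, 0), (2, 3)], [(0, 0)], [2], [(0, 0,
      [3]), (6, 0, [3])]⟩,
    ⟨[(0, 3), (2, 3)], [(0, 0), (1, 0), (1, 1), (3, 0), (3, 1)], [(0, 0), (0, 1)], [5],
      [(0, 0, [3]), (1, 1, [6]), (6, 0, [3])]⟩,
    ⟨[(3, 4)], [(3, 0), (4, 0), (4, 1), (4, 6)], [(0, 6)], [5], [(6, 0, [3]), (8, 6, [1])]⟩,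
    ⟨[(0, 2), (1, 2), (2, 3)], [(2, 3)], [], [4, 7], [(4, 3, [0])]⟩]
  Ta := [((0, 1), 0, 1), ((2, 1), 3, 1), ((2, 3), 3, 4), ((4, 5), 3, 2), ((4, 9), 3, 7), ((6, 5),
    0, 2), ((6, 8), 0, 6)]
  Tb := [((1, 0, 2), 1, 0, 3), ((1, 0, 7), 1, 0, 5), ((1, 2, 7), 1, 3, 5), ((2, 1, 3), 3, 1, 4),
    ((3, 2, 9), 4, 3, 7), ((4, 5, 9), 3, 2, 7), ((5, 4, 6), 2, 3, 0), ((6, 5, 8), 0, 2, 6),
    ((7, 1, 8), 5, 1, 6), ((8, 6, 7), 6, 0, 5), ((9, 3, 4), 7, 4, 3)]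
  Tc := []
  Td := [((0, 3), (0, 1), 1), ((0, 3), (6, 5), 2), ((0, 3), (6, 8), 6), ((1, 6), (1, 0), 0), ((1,
    6), (1, 2), 3), ((1, 6), (1, 7), 5), ((3, 0), (2, 1), 1), ((3, 0), (2, 3), 4), ((3, 0),
    (4, 5), 2), ((3, 0), (4, 9), 7), ((6, 1), (8, 6), 0), ((6, 1), (8, 7), 5)]
  G := [[0, 0x4141a48181a8d13168d24, 0, 0x7251c44231c8991b2c8c182c45c2,
    0x31c2c29291c8a251c8b42], [0, 0x6161683131a45a1a1648c2, 0, 0x6162c83132c45a2a1c48c2,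
    0x1112c2e1e2c8d2d1c2b84], [0, 0, 0x49a596c25285aec8c2dccec8e12,
    0x575e72c462344ec89929bbec838ae82c45c2, 0xc13c2c28139d9ec8856caac8b42], [0, 0,
    0x55a556c233a43368c61999e92c481a, 0x66666ac832333ec85aaaea2c48c2,
    0x1211c2e2eeeec8ddded2c2b84]]

noncomputable def n2255 : Ent := ⟨e2255, noF, [], [], [(16, 15, [1685356702439545624007900436039642273970977273354372543760009318401, 0]), (16, 14, [1580095832788404724998799751142926758855362888449624481876427988993, 0])]⟩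

def c2255 : PLift (Cov.check n2255.C.D v2255 = true) := ⟨by decide +kernel⟩

def b2255 : PLift (entF (fidx ts) 400 2255 n2255 = true) := ⟨by decide +kernel⟩

theorem g2255 : GoodF (fidx ts) 400 2255 := GoodF.ofV v2255 n2255 c2255.down b2255.down

/-- 4586644:1891/4 -/
noncomputable def e2256 : SCfg where
  D := {
    a := 7
    L := 10
    kp := 7
    inn := [(0, 1), (0, 2), (0, 3), (1, 0), (1, 2), (2, 0), (2, 1), (2, 3), (2, 6), (3, 0), (3, 2), (3,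
      4), (4, 3), (4, 5), (5, 4), (6, 2)]
    mix := [(0, 0), (1, 0), (1, 1), (1, 2), (2, 2), (2, 3), (2, 4), (2, 5), (3, 0), (3, 5), (3, 6), (4,
      0), (4, 6), (4, 7), (4, 8), (5, 6), (5, 7), (5, 9), (6, 3), (6, 4), (6, 9)]
    cl := [0, 7, 1, 4, 1, 2, 0, 5, 6, 3]
    chq := [(0, 1), (1, 0), (3, 6), (6, 3)]
    rng := [(0, 1), (0, 8), (1, 0), (1, 2), (2, 1), (2, 3), (3, 2), (3, 9), (4, 5), (4, 9), (5, 4), (5,
      6), (6, 5), (6, 9), (7, 8), (7, 9), (8, 0), (8, 7), (9, 3), (9, 4), (9, 6), (9, 7)]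
    lev := [] }
  links := [[1, 2, 3, 7], [2, 0, 7, 8, 9], [3, 0, 1, 9, 10, 6, 11, 12], [7, 0, 2, 12, 13, 4], [7, 3, 13,
    5, 14, 15], [14, 4, 13, 16], [11, 2, 10, 16]]
  P := {
    a := 7
    N := 17
    nb := [142, 901, 7755, 12437, 57512, 90128, 68612, 33051, 642, 1286, 66116, 69700, 10252, 69688,
      98352, 16528, 27744]
    tri := [(0, 1, 2), (0, 1, 7), (0, 2, 3), (0, 3, 7), (1, 2, 9), (1, 7, 8), (1, 8, 9), (2, 3, 12),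
      (2, 6, 10), (2, 6, 11), (2, 9, 10), (2, 11, 12), (3, 4, 7), (3, 4, 13), (3, 12, 13), (4, 5,
      13), (4, 5, 14), (4, 7, 15), (4, 14, 15), (5, 13, 16), (5, 14, 16), (6, 10, 16), (6, 11,
      16)]
    fin := [0, 0, 2, 0, 4, 4, 2, 0, 8, 2, 10, 2, 12, 0, 14, 15, 4]
    chd := [(0, 2), (15, 4)]
    steps := [(0, 1), (0, 3), (0, 7), (0, 13), (2, 6), (2, 9), (2, 11), (4, 5), (4, 16)] }
  rep := [0, 2, 12, 4, 10, 14, 15, 8]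

noncomputable def v2256 : Cov.CovD where
  P := 3
  N := 5
  pl := [1, 3, 5, 7]
  lev := [⟨[], [], [], [], [(0, 0, [1])]⟩,
    ⟨[], [(0, 0), (0, 1)], [(0, 1)], [7], [(0, 0, [1]), (2, 1, [0])]⟩,
    ⟨[(0, 1)], [(0, 0), (0, 1), (1, 0), (1, 1)], [(1, 1)], [2, 4], [(2, 1, [0]), (4, 1,
      [0])]⟩,
    ⟨[(0, 1), (0, 2), (1, 2)], [(0, 0), (1, 0), (2, 0), (2, 1)], [(0, 0)], [2], [(0, 0,
      [1]), (6, 0, [1])]⟩,
    ⟨[(0, 3), (2, 3)], [(0, 0), (1, 0), (3, 0), (3, 6)], [(0, 0), (0, 6)], [5], [(0, 0,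
      [1]), (6, 0, [1]), (8, 6, [3])]⟩,
    ⟨[(3, 4)], [(3, 0), (4, 0), (4, 3), (4, 6)], [(0, 3)], [5], [(6, 0, [1]), (9, 3, [6])]⟩,
    ⟨[(0, 2), (1, 2), (2, 3)], [(2, 1), (2, 3), (5, 3)], [(1, 3)], [4], [(4, 1, [0]), (9,
      3, [6])]⟩]
  Ta := [((0, 1), 0, 7), ((0, 8), 0, 6), ((2, 1), 1, 7), ((2, 3), 1, 4), ((4, 5), 1, 2), ((4, 9),
    1, 3), ((6, 5), 0, 2), ((6, 9), 0, 3)]
  Tb := [((0, 1, 8), 0, 7, 6), ((1, 0, 2), 7, 0, 1), ((2, 1, 3), 1, 7, 4), ((3, 2, 9), 4, 1, 3),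
    ((4, 5, 9), 1, 2, 3), ((5, 4, 6), 2, 1, 0), ((6, 5, 9), 0, 2, 3), ((7, 8, 9), 5, 6, 3),
    ((8, 0, 7), 6, 0, 5), ((9, 3, 4), 3, 4, 1), ((9, 3, 6), 3, 4, 0), ((9, 3, 7), 3, 4, 5),
    ((9, 4, 6), 3, 1, 0), ((9, 4, 7), 3, 1, 5), ((9, 6, 7), 3, 0, 5)]
  Tc := []
  Td := [((0, 1), (0, 1), 7), ((0, 1), (0, 8), 6), ((0, 1), (6, 5), 2), ((0, 1), (6, 9), 3), ((1,
    0), (2, 1), 7), ((1, 0), (2, 3), 4), ((1, 0), (4, 5), 2), ((1, 0), (4, 9), 3), ((3, 6),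
    (9, 3), 4), ((3, 6), (9, 4), 1), ((3, 6), (9, 6), 0), ((3, 6), (9, 7), 5), ((6, 3), (8,
    0), 0), ((6, 3), (8, 7), 5)]
  G := [[0, 0x1131111ce414311119e8c1191161168c12611a11e8cc1, 0, 0,
    0x22332921e21221121aca9212262238a12211113ca9c4], [0,
    0x11113115e411341111cacc1111a115e411213115e8ca2, 0, 0x4184485c26888c11341112acd28,
    0x84948384ce21111a111be8924], [0, 0x11581a11e41131111ce8c11a1161258c41611c11c2cc62,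
    0x12212622aca21611a22e8c14, 0, 0x466241e22e812662aa22e81722862e83aca8d2], [0,
    0x1111a11ce411612911e8c1111961138c11311119e8cc1, 0x5568da85ce219611a11ce2c14,
    0x99689a92e4456141e52e8c21, 0x141e55c64568a12854e8ca8cce2829]]

noncomputable def n2256 : Ent := ⟨e2256, noF, [], [], [(8, 15, [1685356702439545624007900436039642273970977273354372543760009318401, 0])]⟩

def c2256 : PLift (Cov.check n2256.C.D v2256 = true) := ⟨by decide +kernel⟩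

def b2256 : PLift (entF (fidx ts) 400 2256 n2256 = true) := ⟨by decide +kernel⟩

theorem g2256 : GoodF (fidx ts) 400 2256 := GoodF.ofV v2256 n2256 c2256.down b2256.down

/-- 4586644:1891/5 -/
noncomputable def e2257 : SCfg where
  D := {
    a := 7
    L := 10
    kp := 7
    inn := [(0, 1), (0, 2), (0, 3), (1, 0), (1, 2), (2, 0), (2, 1), (2, 3), (2, 6), (3, 0), (3, 2), (3,
      4), (4, 3), (4, 5), (5, 4), (6, 2)]
    mix := [(0, 0), (1, 0), (1, 1), (1, 2), (2, 2), (2, 3), (2, 4), (2, 5), (3, 0), (3, 5), (3, 6), (4,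
      0), (4, 6), (4, 7), (4, 8), (5, 6), (5, 7), (5, 9), (6, 3), (6, 4), (6, 7)]
    cl := [0, 7, 1, 4, 1, 2, 0, 3, 5, 6]
    chq := [(0, 1), (1, 0), (5, 6), (6, 5)]
    rng := [(0, 1), (0, 8), (1, 0), (1, 2), (2, 1), (2, 3), (3, 2), (3, 7), (4, 5), (4, 7), (5, 4), (5,
      6), (6, 5), (6, 9), (7, 3), (7, 4), (7, 8), (7, 9), (8, 0), (8, 7), (9, 6), (9, 7)]
    lev := [] }
  links := [[1, 2, 3, 7], [2, 0, 7, 8, 9], [3, 0, 1, 9, 10, 6, 11, 12], [7, 0, 2, 12, 13, 4], [7, 3, 13,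
    5, 14, 15], [14, 4, 13, 16], [11, 2, 10, 14]]
  P := {
    a := 7
    N := 17
    nb := [142, 901, 7755, 12437, 57512, 90128, 19460, 33051, 642, 1286, 16964, 20548, 10252, 69688,
      101488, 16528, 24608]
    tri := [(0, 1, 2), (0, 1, 7), (0, 2, 3), (0, 3, 7), (1, 2, 9), (1, 7, 8), (1, 8, 9), (2, 3, 12),
      (2, 6, 10), (2, 6, 11), (2, 9, 10), (2, 11, 12), (3, 4, 7), (3, 4, 13), (3, 12, 13), (4, 5,
      13), (4, 5, 14), (4, 7, 15), (4, 14, 15), (5, 13, 16), (5, 14, 16), (6, 10, 14), (6, 11,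
      14)]
    fin := [0, 0, 2, 0, 4, 4, 2, 0, 8, 2, 10, 2, 12, 0, 14, 15, 4]
    chd := [(0, 2), (15, 4)]
    steps := [(0, 1), (0, 3), (0, 7), (0, 13), (2, 6), (2, 9), (2, 11), (4, 5), (4, 16)] }
  rep := [0, 2, 12, 14, 10, 15, 4, 8]

noncomputable def v2257 : Cov.CovD where
  P := 3
  N := 5
  pl := [1, 3, 5, 7]
  lev := [⟨[], [], [], [], [(0, 0, [1])]⟩,
    ⟨[], [(0, 0), (0, 1)], [(0, 1)], [7], [(0, 0, [1]), (2, 1, [0])]⟩,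
    ⟨[(0, 1)], [(0, 0), (0, 1), (1, 0), (1, 1)], [(1, 1)], [2, 4], [(2, 1, [0]), (4, 1,
      [0])]⟩,
    ⟨[(0, 1), (0, 2), (1, 2)], [(0, 0), (1, 0), (2, 0), (2, 1)], [(0, 0)], [2], [(0, 0,
      [1]), (6, 0, [1])]⟩,
    ⟨[(0, 3), (2, 3)], [(0, 0), (1, 0), (3, 0), (3, 5)], [(0, 0), (0, 5)], [3], [(0, 0,
      [1]), (6, 0, [1]), (8, 5, [6])]⟩,
    ⟨[(3, 4)], [(3, 0), (4, 0), (4, 5), (4, 6)], [(0, 6)], [3], [(6, 0, [1]), (9, 6, [5])]⟩,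
    ⟨[(0, 2), (1, 2), (2, 3)], [(2, 1)], [], [3, 4], [(4, 1, [0])]⟩]
  Ta := [((0, 1), 0, 7), ((0, 8), 0, 5), ((2, 1), 1, 7), ((2, 3), 1, 4), ((4, 5), 1, 2), ((4, 7),
    1, 3), ((6, 5), 0, 2), ((6, 9), 0, 6)]
  Tb := [((0, 1, 8), 0, 7, 5), ((1, 0, 2), 7, 0, 1), ((2, 1, 3), 1, 7, 4), ((3, 2, 7), 4, 1, 3),
    ((4, 5, 7), 1, 2, 3), ((5, 4, 6), 2, 1, 0), ((6, 5, 9), 0, 2, 6), ((7, 3, 4), 3, 4, 1),
    ((7, 3, 8), 3, 4, 5), ((7, 3, 9), 3, 4, 6), ((7, 4, 8), 3, 1, 5), ((7, 4, 9), 3, 1, 6),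
    ((7, 8, 9), 3, 5, 6), ((8, 0, 7), 5, 0, 3), ((9, 6, 7), 6, 0, 3)]
  Tc := []
  Td := [((0, 1), (0, 1), 7), ((0, 1), (0, 8), 5), ((0, 1), (6, 5), 2), ((0, 1), (6, 9), 6), ((1,
    0), (2, 1), 7), ((1, 0), (2, 3), 4), ((1, 0), (4, 5), 2), ((1, 0), (4, 7), 3), ((5, 6),
    (8, 0), 0), ((5, 6), (8, 7), 3), ((6, 5), (9, 6), 0), ((6, 5), (9, 7), 3)]
  G := [[0, 0x1184111111e8c11216881141111ac111111e8ce4, 0, 0,
    0x3222439e2224224ce898241829e22212419e89c4], [0,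
    0x111121e411116118cc11116118c111121e8cc2, 0, 0x41482849ac1252415e8924,
    0x8835184ce241544a11e8924], [0, 0x111121e4111111e8c11116118c1141111acc62,
    0x222216ce4a24221ce2c18, 0, 0x2242a2ce81224214ce812226c6828a8d2], [0,
    0x811111e4111121e8c11216118c1141111acc61, 0x81c218681ac641644a14ce8c12,
    0x821281ce4124214ce8c21, 0x88685a85ce241614a14ce8924]]

noncomputable def n2257 : Ent := ⟨e2257, noF, [], [], [(8, 15, [1685356702439545624007900436039642273970977273354372543760009322497, 0])]⟩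

def c2257 : PLift (Cov.check n2257.C.D v2257 = true) := ⟨by decide +kernel⟩

def b2257 : PLift (entF (fidx ts) 400 2257 n2257 = true) := ⟨by decide +kernel⟩

theorem g2257 : GoodF (fidx ts) 400 2257 := GoodF.ofV v2257 n2257 c2257.down b2257.down

/-- 4586644:1891/6 -/
noncomputable def e2258 : SCfg where
  D := {
    a := 7
    L := 10
    kp := 7
    inn := [(0, 1), (0, 2), (0, 3), (1, 0), (1, 2), (2, 0), (2, 1), (2, 3), (2, 6), (3, 0), (3, 2), (3,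
      4), (4, 3), (4, 5), (5, 4), (6, 2)]
    mix := [(0, 0), (1, 0), (1, 1), (1, 2), (2, 2), (2, 3), (2, 4), (2, 5), (3, 0), (3, 5), (3, 6), (4,
      0), (4, 6), (4, 7), (4, 8), (5, 6), (5, 7), (5, 9), (6, 3), (6, 4), (6, 8)]
    cl := [0, 7, 1, 4, 1, 2, 0, 5, 3, 6]
    chq := [(0, 1), (1, 0), (3, 6), (6, 3)]
    rng := [(0, 1), (0, 8), (1, 0), (1, 2), (2, 1), (2, 3), (3, 2), (3, 8), (4, 5), (4, 8), (5, 4), (5,
      6), (6, 5), (6, 9), (7, 8), (7, 9), (8, 0), (8, 3), (8, 4), (8, 7), (9, 6), (9, 7)]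
    lev := [] }
  links := [[1, 2, 3, 7], [2, 0, 7, 8, 9], [3, 0, 1, 9, 10, 6, 11, 12], [7, 0, 2, 12, 13, 4], [7, 3, 13,
    5, 14, 15], [14, 4, 13, 16], [11, 2, 10, 15]]
  P := {
    a := 7
    N := 17
    nb := [142, 901, 7755, 12437, 57512, 90128, 35844, 33051, 642, 1286, 33348, 36932, 10252, 69688,
      98352, 19664, 24608]
    tri := [(0, 1, 2), (0, 1, 7), (0, 2, 3), (0, 3, 7), (1, 2, 9), (1, 7, 8), (1, 8, 9), (2, 3, 12),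
      (2, 6, 10), (2, 6, 11), (2, 9, 10), (2, 11, 12), (3, 4, 7), (3, 4, 13), (3, 12, 13), (4, 5,
      13), (4, 5, 14), (4, 7, 15), (4, 14, 15), (5, 13, 16), (5, 14, 16), (6, 10, 15), (6, 11,
      15)]
    fin := [0, 0, 2, 0, 4, 4, 2, 0, 8, 2, 10, 2, 12, 0, 14, 4, 16]
    chd := [(0, 2), (4, 16)]
    steps := [(0, 1), (0, 3), (0, 7), (0, 13), (2, 6), (2, 9), (2, 11), (4, 5), (4, 15)] }
  rep := [0, 2, 12, 4, 10, 14, 16, 8]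

noncomputable def v2258 : Cov.CovD where
  P := 3
  N := 5
  pl := [1, 3, 5, 7]
  lev := [⟨[], [], [], [], [(0, 0, [1])]⟩,
    ⟨[], [(0, 0), (0, 1)], [(0, 1)], [7], [(0, 0, [1]), (2, 1, [0])]⟩,
    ⟨[(0, 1)], [(0, 0), (0, 1), (1, 0), (1, 1)], [(1, 1)], [2, 4], [(2, 1, [0]), (4, 1,
      [0])]⟩,
    ⟨[(0, 1), (0, 2), (1, 2)], [(0, 0), (1, 0), (2, 0), (2, 1)], [(0, 0)], [2], [(0, 0,
      [1]), (6, 0, [1])]⟩,
    ⟨[(0, 3), (2, 3)], [(0, 0), (1, 0), (3, 0), (3, 3)], [(0, 0), (0, 3)], [5], [(0, 0,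
      [1]), (6, 0, [1]), (8, 3, [6])]⟩,
    ⟨[(3, 4)], [(3, 0), (4, 0), (4, 3), (4, 6)], [(0, 6)], [5], [(6, 0, [1]), (9, 6, [3])]⟩,
    ⟨[(0, 2), (1, 2), (2, 3)], [(2, 1), (2, 3), (4, 3)], [(1, 3)], [4], [(4, 1, [0]), (8,
      3, [6])]⟩]
  Ta := [((0, 1), 0, 7), ((0, 8), 0, 3), ((2, 1), 1, 7), ((2, 3), 1, 4), ((4, 5), 1, 2), ((4, 8),
    1, 3), ((6, 5), 0, 2), ((6, 9), 0, 6)]
  Tb := [((0, 1, 8), 0, 7, 3), ((1, 0, 2), 7, 0, 1), ((2, 1, 3), 1, 7, 4), ((3, 2, 8), 4, 1, 3),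
    ((4, 5, 8), 1, 2, 3), ((5, 4, 6), 2, 1, 0), ((6, 5, 9), 0, 2, 6), ((7, 8, 9), 5, 3, 6),
    ((8, 0, 3), 3, 0, 4), ((8, 0, 4), 3, 0, 1), ((8, 0, 7), 3, 0, 5), ((8, 3, 4), 3, 4, 1),
    ((8, 3, 7), 3, 4, 5), ((8, 4, 7), 3, 1, 5), ((9, 6, 7), 6, 0, 5)]
  Tc := []
  Td := [((0, 1), (0, 1), 7), ((0, 1), (0, 8), 3), ((0, 1), (6, 5), 2), ((0, 1), (6, 9), 6), ((1,
    0), (2, 1), 7), ((1, 0), (2, 3), 4), ((1, 0), (4, 5), 2), ((1, 0), (4, 8), 3), ((3, 6),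
    (8, 0), 0), ((3, 6), (8, 3), 4), ((3, 6), (8, 4), 1), ((3, 6), (8, 7), 5), ((6, 3), (9,
    6), 0), ((6, 3), (9, 7), 5)]
  G := [[0, 0x11511a11e41131111ce8c1191161158c219411611acc62, 0, 0,
    0x242821e2a14141ce29844821e2242851e89c4], [0,
    0x11611219e4119411511acc1121a21ce41111a215e8ca1, 0, 0x48c16848cd49891e4528,
    0x8184348ce214514911e2924], [0, 0x1191161168c11113125e8c1861112ce411511911e8c61,
    0x2428112ee418221e6148ac18, 0, 0x2261811ce811161811ce8128223e6848a8d4], [0,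
    0x1184411611a11e421a11568c11311229e4119411511acce8, 0x88611ad9ce211644a15ce2c21,
    0x48484ccceac18414111eac924, 0x888e44a4cce211611a11ce2924]]

noncomputable def n2258 : Ent := ⟨e2258, noF, [], [], []⟩

def c2258 : PLift (Cov.check n2258.C.D v2258 = true) := ⟨by decide +kernel⟩

def b2258 : PLift (entF (fidx ts) 400 2258 n2258 = true) := ⟨by decide +kernel⟩

theorem g2258 : GoodF (fidx ts) 400 2258 := GoodF.ofV v2258 n2258 c2258.down b2258.down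

/-- 4586644:1891 -/
noncomputable def e2259 : SCfg where
  D := {
    a := 7
    L := 11
    kp := 8
    inn := [(0, 1), (0, 2), (0, 3), (1, 0), (1, 2), (2, 0), (2, 1), (2, 3), (2, 6), (3, 0), (3, 2), (3,
      4), (4, 3), (4, 5), (5, 4), (6, 2)]
    mix := [(0, 0), (1, 0), (1, 1), (1, 2), (2, 2), (2, 3), (2, 4), (2, 5), (3, 0), (3, 5), (3, 6), (4,
      0), (4, 6), (4, 7), (4, 8), (5, 6), (5, 7), (5, 9), (6, 3), (6, 4), (6, 10)]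
    cl := [0, 7, 1, 3, 1, 2, 0, 4, 5, 6, 8]
    chq := [(0, 1), (1, 0), (5, 6), (6, 5)]
    rng := [(0, 1), (0, 8), (1, 0), (1, 2), (2, 1), (2, 3), (3, 2), (3, 10), (4, 5), (4, 10), (5, 4),
      (5, 6), (6, 5), (6, 9), (7, 8), (7, 9), (8, 0), (8, 7), (9, 6), (9, 7), (10, 3), (10, 4)]
    lev := [] }
  links := [[1, 2, 3, 7], [2, 0, 7, 8, 9], [3, 0, 1, 9, 10, 6, 11, 12], [7, 0, 2, 12, 13, 4], [7, 3, 13,
    5, 14, 15], [14, 4, 13, 16], [11, 2, 10, 17]]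
  P := {
    a := 7
    N := 18
    nb := [142, 901, 7755, 12437, 57512, 90128, 134148, 33051, 642, 1286, 131652, 135236, 10252,
      69688, 98352, 16528, 24608, 3136]
    tri := [(0, 1, 2), (0, 1, 7), (0, 2, 3), (0, 3, 7), (1, 2, 9), (1, 7, 8), (1, 8, 9), (2, 3, 12),
      (2, 6, 10), (2, 6, 11), (2, 9, 10), (2, 11, 12), (3, 4, 7), (3, 4, 13), (3, 12, 13), (4, 5,
      13), (4, 5, 14), (4, 7, 15), (4, 14, 15), (5, 13, 16), (5, 14, 16), (6, 10, 17), (6, 11,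
      17)]
    fin := [0, 0, 2, 0, 4, 4, 2, 0, 8, 2, 10, 2, 12, 0, 14, 15, 4, 17]
    chd := [(0, 2), (15, 4)]
    steps := [(0, 1), (0, 3), (0, 7), (0, 13), (2, 6), (2, 9), (2, 11), (4, 5), (4, 16)] }
  rep := [0, 2, 12, 10, 14, 15, 4, 8, 17]

noncomputable def v2259 : Cov.CovD where
  P := 3
  N := 6
  pl := [1, 3, 5, 7, 10]
  lev := [⟨[], [], [], [], [(0, 0, [1])]⟩,
    ⟨[], [(0, 0), (0, 1)], [(0, 1)], [7], [(0, 0, [1]), (2, 1, [0])]⟩,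
    ⟨[(0, 1)], [(0, 0), (0, 1), (1, 0), (1, 1)], [(1, 1)], [2, 3], [(2, 1, [0]), (4, 1,
      [0])]⟩,
    ⟨[(0, 1), (0, 2), (1, 2)], [(0, 0), (1, 0), (2, 0), (2, 1)], [(0, 0)], [2], [(0, 0,
      [1]), (6, 0, [1])]⟩,
    ⟨[(0, 3), (2, 3)], [(0, 0), (1, 0), (3, 0), (3, 5)], [(0, 0), (0, 5)], [4], [(0, 0,
      [1]), (6, 0, [1]), (8, 5, [6])]⟩,
    ⟨[(3, 4)], [(3, 0), (4, 0), (4, 5), (4, 6)], [(0, 6)], [4], [(6, 0, [1]), (9, 6, [5])]⟩,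
    ⟨[(0, 2), (1, 2), (2, 3)], [(2, 1)], [], [3, 8], [(4, 1, [0])]⟩]
  Ta := [((0, 1), 0, 7), ((0, 8), 0, 5), ((2, 1), 1, 7), ((2, 3), 1, 3), ((4, 5), 1, 2), ((4,
    10), 1, 8), ((6, 5), 0, 2), ((6, 9), 0, 6)]
  Tb := [((0, 1, 8), 0, 7, 5), ((1, 0, 2), 7, 0, 1), ((2, 1, 3), 1, 7, 3), ((3, 2, 10), 3, 1, 8),
    ((4, 5, 10), 1, 2, 8), ((5, 4, 6), 2, 1, 0), ((6, 5, 9), 0, 2, 6), ((7, 8, 9), 4, 5, 6),
    ((8, 0, 7), 5, 0, 4), ((9, 6, 7), 6, 0, 4), ((10, 3, 4), 8, 3, 1)]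
  Tc := []
  Td := [((0, 1), (0, 1), 7), ((0, 1), (0, 8), 5), ((0, 1), (6, 5), 2), ((0, 1), (6, 9), 6), ((1,
    0), (2, 1), 7), ((1, 0), (2, 3), 3), ((1, 0), (4, 5), 2), ((1, 0), (4, 10), 8), ((5, 6),
    (8, 0), 0), ((5, 6), (8, 7), 4), ((6, 5), (9, 6), 0), ((6, 5), (9, 7), 4)]
  G := [[0, 0x11113115e41161111ce8c1131111ce411411311cacc62, 0, 0,
    0x26661669e2535a5aa1e8926a3162258a51a75a961e29c4], [0,
    0x11511911e41111311ce8c11a1161168c11611a11e8ca1, 0, 0x4494cc68c9ac8148dda451555acd24,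
    0xc1ccacc5e255555951e8924], [0, 0x1111c61168c11113115e8c11511a11e411311c1192cc61,
    0x32673a37ce2a562aa62ce2c18, 0, 0x22625a52ce212262aa52ce81cc6c3a2cce28d4], [0,
    0x11384411311119e41111968c11311119e411a1156118cce8, 0x99c299699ac655c255655acac12,
    0x99699a99ce455655a55ce8c21, 0xcc6ccaccce255a55c65568a924]]

noncomputable def n2259 : Ent := ⟨e2259, noF, [], [], [(8, 15, [7334790850167413569773436004105379185503274260204390087403942013890561, 0]), (17, 16, [7334685537875745012586738086077695515070955365108989538292687702917121, 0]), (17, 14, [6903326468334360900303599070699561856668565975414084080169086033399809, 0]), (17, 15, [6903537015784671890245461680740748765157398844539141476817538560892929, 0])]⟩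

def c2259 : PLift (Cov.check n2259.C.D v2259 = true) := ⟨by decide +kernel⟩

def b2259 : PLift (entF (fidx ts) 400 2259 n2259 = true) := ⟨by decide +kernel⟩

theorem g2259 : GoodF (fidx ts) 400 2259 := GoodF.ofV v2259 n2259 c2259.down b2259.down

/-- 4586644:1894/2 -/
noncomputable def e2260 : SCfg where
  D := {
    a := 7
    L := 9
    kp := 6
    inn := [(0, 1), (0, 2), (0, 3), (1, 0), (1, 2), (2, 0), (2, 1), (2, 3), (2, 6), (3, 0), (3, 2), (3,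
      4), (4, 3), (4, 5), (5, 4), (6, 2)]
    mix := [(0, 0), (1, 0), (1, 1), (1, 2), (2, 2), (2, 3), (2, 4), (2, 5), (3, 0), (3, 5), (3, 6), (4,
      0), (4, 6), (4, 7), (4, 8), (5, 0), (5, 1), (5, 8), (6, 3), (6, 4), (6, 7)]
    cl := [0, 2, 1, 5, 1, 3, 4, 0, 6]
    chq := [(2, 3), (2, 4), (3, 2), (4, 2)]
    rng := [(0, 1), (1, 0), (1, 2), (1, 8), (2, 1), (2, 3), (3, 2), (3, 7), (4, 5), (4, 7), (5, 4), (5,
      6), (6, 5), (6, 7), (7, 3), (7, 4), (7, 6), (7, 8), (8, 1), (8, 7)]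
    lev := [] }
  links := [[1, 2, 3, 7], [2, 0, 7, 8, 9], [3, 0, 1, 9, 10, 6, 11, 12], [7, 0, 2, 12, 13, 4], [7, 3, 13,
    14, 15, 5], [7, 4, 15, 8], [11, 2, 10, 14]]
  P := {
    a := 7
    N := 16
    nb := [142, 901, 7755, 12437, 57512, 33168, 19460, 315, 33442, 1286, 16964, 20548, 10252, 20504,
      44112, 16688]
    tri := [(0, 1, 2), (0, 1, 7), (0, 2, 3), (0, 3, 7), (1, 2, 9), (1, 7, 8), (1, 8, 9), (2, 3, 12),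
      (2, 6, 10), (2, 6, 11), (2, 9, 10), (2, 11, 12), (3, 4, 7), (3, 4, 13), (3, 12, 13), (4, 5,
      7), (4, 5, 15), (4, 13, 14), (4, 14, 15), (5, 7, 8), (5, 8, 15), (6, 10, 14), (6, 11, 14)]
    fin := [0, 0, 2, 0, 4, 4, 4, 4, 0, 2, 10, 2, 12, 13, 4, 15]
    chd := [(0, 12), (0, 13)]
    steps := [(0, 1), (0, 3), (0, 8), (2, 9), (2, 11), (4, 7), (4, 5), (4, 14), (4, 6)] }
  rep := [4, 2, 0, 12, 13, 10, 15]

noncomputable def v2260 : Cov.CovD where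
  P := 3
  N := 4
  pl := [3, 8]
  lev := [⟨[], [], [], [], [(0, 0, [])]⟩,
    ⟨[], [(0, 0), (0, 1), (0, 2)], [(0, 1), (0, 2), (1, 2)], [], [(0, 0, []), (1, 2, [3,
      4]), (2, 1, [])]⟩,
    ⟨[(0, 1)], [(0, 0), (0, 1), (0, 3), (1, 0), (1, 1), (1, 2), (1, 3)], [(1, 1), (1, 3)],
      [5], [(2, 1, []), (4, 1, []), (5, 3, [2])]⟩,
    ⟨[(0, 1), (0, 2), (1, 2)], [(0, 0), (0, 3), (0, 4), (1, 0), (2, 0), (2, 1), (2, 3), (2,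
      4)], [(0, 3), (0, 4), (3, 4)], [], [(0, 0, []), (5, 3, [2]), (6, 4, [2])]⟩,
    ⟨[(0, 3), (2, 3)], [(0, 0), (1, 0), (3, 0), (3, 3), (3, 4)], [(0, 0), (0, 4)], [6],
      [(0, 0, []), (6, 4, [2]), (7, 0, [])]⟩,
    ⟨[(3, 4)], [(0, 0), (1, 0), (1, 2), (3, 0), (4, 0), (4, 2), (4, 4)], [(0, 2)], [6],
      [(0, 0, []), (1, 2, [3, 4])]⟩,
    ⟨[(0, 2), (1, 2), (2, 3)], [(2, 0), (2, 1), (2, 3), (4, 0)], [(0, 1)], [5], [(4, 1,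
      []), (7, 0, [])]⟩]
  Ta := [((0, 1), 0, 2), ((2, 1), 1, 2), ((2, 3), 1, 5), ((4, 5), 1, 3), ((4, 7), 1, 0), ((7, 3),
    0, 5), ((7, 4), 0, 1), ((7, 6), 0, 4), ((7, 8), 0, 6)]
  Tb := [((1, 0, 2), 2, 0, 1), ((1, 0, 8), 2, 0, 6), ((1, 2, 8), 2, 1, 6), ((2, 1, 3), 1, 2, 5),
    ((3, 2, 7), 5, 1, 0), ((4, 5, 7), 1, 3, 0), ((5, 4, 6), 3, 1, 4), ((6, 5, 7), 4, 3, 0),
    ((7, 3, 4), 0, 5, 1), ((7, 3, 6), 0, 5, 4), ((7, 3, 8), 0, 5, 6), ((7, 4, 6), 0, 1, 4),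
    ((7, 4, 8), 0, 1, 6), ((7, 6, 8), 0, 4, 6), ((8, 1, 7), 6, 2, 0)]
  Tc := [(2, 3, 4)]
  Td := [((2, 3), (1, 0), 0), ((2, 3), (1, 2), 1), ((2, 3), (1, 8), 6), ((2, 4), (1, 0), 0), ((2,
    4), (1, 2), 1), ((2, 4), (1, 8), 6), ((3, 2), (5, 4), 1), ((3, 2), (5, 6), 4), ((4, 2),
    (6, 5), 3), ((4, 2), (6, 7), 0)]
  G := [[0, 0, 0xc2a4c6868aacea1468c2c4186, 0x21c2221c2222c22d48,
    0x181212e18461241812a184e2242826aa2ecd82], [0, 0, 0xc4c26c8ccac2ec8c4cccee14cc68812c, 0,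
    0x181212e18461241812a184e824c8ccac2ecd82], [0, 0, 0, 0x225222292222c22d84,
    0x424a8a2a614a24f282122e452248882a884e892], [0, 0x488488ce1282422ce1a4488444ce1486, 0, 0,
    0x4822c148ac2ec1465841449c414428cacbc24858888a82e489a]]

noncomputable def n2260 : Ent := ⟨e2260, noF, [], [], []⟩

def c2260 : PLift (Cov.check n2260.C.D v2260 = true) := ⟨by decide +kernel⟩

def b2260 : PLift (entF (fidx ts) 400 2260 n2260 = true) := ⟨by decide +kernel⟩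

theorem g2260 : GoodF (fidx ts) 400 2260 := GoodF.ofV v2260 n2260 c2260.down b2260.down

/-- 4586644:1894/3 -/
noncomputable def e2261 : SCfg where
  D := {
    a := 7
    L := 9
    kp := 6
    inn := [(0, 1), (0, 2), (0, 3), (1, 0), (1, 2), (2, 0), (2, 1), (2, 3), (2, 6), (3, 0), (3, 2), (3,
      4), (4, 3), (4, 5), (5, 4), (6, 2)]
    mix := [(0, 0), (1, 0), (1, 1), (1, 2), (2, 2), (2, 3), (2, 4), (2, 5), (3, 0), (3, 5), (3, 6), (4,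
      0), (4, 6), (4, 7), (4, 8), (5, 0), (5, 1), (5, 8), (6, 3), (6, 4), (6, 8)]
    cl := [0, 3, 1, 4, 5, 1, 0, 6, 2]
    chq := [(0, 2), (1, 2), (2, 0), (2, 1)]
    rng := [(0, 1), (1, 0), (1, 2), (1, 8), (2, 1), (2, 3), (3, 2), (3, 8), (4, 5), (4, 8), (5, 4), (5,
      6), (6, 5), (6, 7), (7, 6), (7, 8), (8, 1), (8, 3), (8, 4), (8, 7)]
    lev := [] }
  links := [[1, 2, 3, 7], [2, 0, 7, 8, 9], [3, 0, 1, 9, 10, 6, 11, 12], [7, 0, 2, 12, 13, 4], [7, 3, 13,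
    14, 15, 5], [7, 4, 15, 8], [11, 2, 10, 15]]
  P := {
    a := 7
    N := 16
    nb := [142, 901, 7755, 12437, 57512, 33168, 35844, 315, 33442, 1286, 33348, 36932, 10252, 20504,
      40976, 19824]
    tri := [(0, 1, 2), (0, 1, 7), (0, 2, 3), (0, 3, 7), (1, 2, 9), (1, 7, 8), (1, 8, 9), (2, 3, 12),
      (2, 6, 10), (2, 6, 11), (2, 9, 10), (2, 11, 12), (3, 4, 7), (3, 4, 13), (3, 12, 13), (4, 5,
      7), (4, 5, 15), (4, 13, 14), (4, 14, 15), (5, 7, 8), (5, 8, 15), (6, 10, 15), (6, 11, 15)]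
    fin := [0, 0, 2, 0, 0, 0, 2, 0, 8, 2, 10, 11, 2, 0, 14, 15]
    chd := [(0, 15), (2, 15)]
    steps := [(0, 1), (0, 3), (0, 4), (0, 7), (0, 5), (0, 13), (2, 6), (2, 9), (2, 12)] }
  rep := [0, 2, 15, 8, 10, 11, 14]

noncomputable def v2261 : Cov.CovD where
  P := 3
  N := 4
  pl := [1, 3, 4, 7]
  lev := [⟨[], [], [], [], [(0, 0, [2])]⟩,
    ⟨[], [(0, 0), (0, 1)], [(0, 1)], [3], [(0, 0, [2]), (2, 1, [2])]⟩,
    ⟨[(0, 1)], [(0, 0), (0, 1), (1, 0), (1, 1)], [(1, 1)], [4, 5], [(2, 1, [2]), (5, 1,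
      [2])]⟩,
    ⟨[(0, 1), (0, 2), (1, 2)], [(0, 0), (0, 1), (1, 0), (2, 0), (2, 1)], [(0, 0), (0, 1)],
      [], [(0, 0, [2]), (5, 1, [2]), (6, 0, [2])]⟩,
    ⟨[(0, 3), (2, 3)], [(0, 0), (1, 0), (3, 0), (3, 1), (3, 2)], [(0, 0), (0, 2)], [6],
      [(0, 0, [2]), (6, 0, [2]), (8, 2, [0, 1])]⟩,
    ⟨[(3, 4)], [(0, 0), (1, 0), (3, 0), (4, 0), (4, 2)], [(0, 2)], [3], [(0, 0, [2]), (8,
      2, [0, 1])]⟩,
    ⟨[(0, 2), (1, 2), (2, 3)], [(2, 1), (2, 2), (4, 2), (5, 2)], [], [4, 5], [(8, 2, [0,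
      1])]⟩]
  Ta := [((0, 1), 0, 3), ((2, 1), 1, 3), ((2, 3), 1, 4), ((5, 4), 1, 5), ((5, 6), 1, 0), ((6, 5),
    0, 1), ((6, 7), 0, 6)]
  Tb := [((1, 0, 2), 3, 0, 1), ((1, 0, 8), 3, 0, 2), ((1, 2, 8), 3, 1, 2), ((2, 1, 3), 1, 3, 4),
    ((3, 2, 8), 4, 1, 2), ((4, 5, 8), 5, 1, 2), ((5, 4, 6), 1, 5, 0), ((6, 5, 7), 0, 1, 6),
    ((7, 6, 8), 6, 0, 2), ((8, 1, 3), 2, 3, 4), ((8, 1, 4), 2, 3, 5), ((8, 1, 7), 2, 3, 6),
    ((8, 3, 4), 2, 4, 5), ((8, 3, 7), 2, 4, 6), ((8, 4, 7), 2, 5, 6)]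
  Tc := [(2, 0, 1)]
  Td := [((0, 2), (0, 1), 3), ((0, 2), (6, 5), 1), ((0, 2), (6, 7), 6), ((1, 2), (2, 1), 3), ((1,
    2), (2, 3), 4), ((1, 2), (5, 4), 5), ((1, 2), (5, 6), 0), ((2, 0), (8, 1), 3), ((2, 0),
    (8, 3), 4), ((2, 0), (8, 4), 5), ((2, 0), (8, 7), 6), ((2, 1), (8, 1), 3), ((2, 1), (8,
    3), 4), ((2, 1), (8, 4), 5), ((2, 1), (8, 7), 6)]
  G := [[0, 0, 0xe8e2c21e4e4681c4, 0x44c2811c285288c2482c,
    0xa8a8a41818a4588a28aa43222a82212a8dc2], [0, 0, 0xe2e2a8124, 0x44c2811c245288c2482c,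
    0x8282a42222a81212a4d24], [0, 0, 0xa2e8c41e2a4a4112244d8, 0x4128428124112892c,
    0x1111a8188a88aa423a223a8ac54], [0, 0x1811c421111c44141c21111c4ea8, 0xe2e2c4128,
    0x4128428124112892c, 0x8122a421a2a81112a8d24]]

noncomputable def n2261 : Ent := ⟨e2261, noF, [], [], []⟩

def c2261 : PLift (Cov.check n2261.C.D v2261 = true) := ⟨by decide +kernel⟩

def b2261 : PLift (entF (fidx ts) 400 2261 n2261 = true) := ⟨by decide +kernel⟩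

theorem g2261 : GoodF (fidx ts) 400 2261 := GoodF.ofV v2261 n2261 c2261.down b2261.down

/-- 4586644:1894/1 -/
noncomputable def e2262 : SCfg where
  D := {
    a := 7
    L := 10
    kp := 7
    inn := [(0, 1), (0, 2), (0, 3), (1, 0), (1, 2), (2, 0), (2, 1), (2, 3), (2, 6), (3, 0), (3, 2), (3,
      4), (4, 3), (4, 5), (5, 4), (6, 2)]
    mix := [(0, 0), (1, 0), (1, 1), (1, 2), (2, 2), (2, 3), (2, 4), (2, 5), (3, 0), (3, 5), (3, 6), (4,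
      0), (4, 6), (4, 7), (4, 8), (5, 0), (5, 1), (5, 8), (6, 3), (6, 4), (6, 9)]
    cl := [0, 2, 1, 4, 5, 1, 0, 7, 3, 6]
    chq := [(0, 3), (1, 6), (3, 0), (6, 1)]
    rng := [(0, 1), (1, 0), (1, 2), (1, 8), (2, 1), (2, 3), (3, 2), (3, 9), (4, 5), (4, 9), (5, 4), (5,
      6), (6, 5), (6, 7), (7, 6), (7, 8), (8, 1), (8, 7), (9, 3), (9, 4)]
    lev := [] }
  links := [[1, 2, 3, 7], [2, 0, 7, 8, 9], [3, 0, 1, 9, 10, 6, 11, 12], [7, 0, 2, 12, 13, 4], [7, 3, 13,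
    14, 15, 5], [7, 4, 15, 8], [11, 2, 10, 16]]
  P := {
    a := 7
    N := 17
    nb := [142, 901, 7755, 12437, 57512, 33168, 68612, 315, 33442, 1286, 66116, 69700, 10252, 20504,
      40976, 16688, 3136]
    tri := [(0, 1, 2), (0, 1, 7), (0, 2, 3), (0, 3, 7), (1, 2, 9), (1, 7, 8), (1, 8, 9), (2, 3, 12),
      (2, 6, 10), (2, 6, 11), (2, 9, 10), (2, 11, 12), (3, 4, 7), (3, 4, 13), (3, 12, 13), (4, 5,
      7), (4, 5, 15), (4, 13, 14), (4, 14, 15), (5, 7, 8), (5, 8, 15), (6, 10, 16), (6, 11, 16)]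
    fin := [0, 0, 2, 0, 0, 0, 2, 0, 8, 2, 10, 11, 2, 0, 14, 15, 16]
    chd := [(0, 15), (2, 16)]
    steps := [(0, 1), (0, 3), (0, 4), (0, 7), (0, 5), (0, 13), (2, 6), (2, 9), (2, 12)] }
  rep := [0, 2, 8, 15, 10, 11, 16, 14]

noncomputable def v2262 : Cov.CovD where
  P := 3
  N := 5
  pl := [1, 3, 4, 7]
  lev := [⟨[], [], [], [], [(0, 0, [3])]⟩,
    ⟨[], [(0, 0), (0, 1)], [(0, 1)], [2], [(0, 0, [3]), (2, 1, [6])]⟩,
    ⟨[(0, 1)], [(0, 0), (0, 1), (1, 0), (1, 1)], [(1, 1)], [4, 5], [(2, 1, [6]), (5, 1,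
      [6])]⟩,
    ⟨[(0, 1), (0, 2), (1, 2)], [(0, 0), (0, 1), (1, 0), (2, 0), (2, 1)], [(0, 0), (0, 1)],
      [], [(0, 0, [3]), (5, 1, [6]), (6, 0, [3])]⟩,
    ⟨[(0, 3), (2, 3)], [(0, 0), (1, 0), (3, 0), (3, 1), (3, 3)], [(0, 0), (0, 3)], [7],
      [(0, 0, [3]), (6, 0, [3]), (8, 3, [0])]⟩,
    ⟨[(3, 4)], [(0, 0), (1, 0), (3, 0), (4, 0), (4, 3)], [(0, 3)], [2], [(0, 0, [3]), (8,
      3, [0])]⟩,
    ⟨[(0, 2), (1, 2), (2, 3)], [(2, 1), (2, 6)], [], [4, 5], [(9, 6, [1])]⟩]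
  Ta := [((0, 1), 0, 2), ((2, 1), 1, 2), ((2, 3), 1, 4), ((5, 4), 1, 5), ((5, 6), 1, 0), ((6, 5),
    0, 1), ((6, 7), 0, 7)]
  Tb := [((1, 0, 2), 2, 0, 1), ((1, 0, 8), 2, 0, 3), ((1, 2, 8), 2, 1, 3), ((2, 1, 3), 1, 2, 4),
    ((3, 2, 9), 4, 1, 6), ((4, 5, 9), 5, 1, 6), ((5, 4, 6), 1, 5, 0), ((6, 5, 7), 0, 1, 7),
    ((7, 6, 8), 7, 0, 3), ((8, 1, 7), 3, 2, 7), ((9, 3, 4), 6, 4, 5)]
  Tc := []
  Td := [((0, 3), (0, 1), 2), ((0, 3), (6, 5), 1), ((0, 3), (6, 7), 7), ((1, 6), (2, 1), 2), ((1,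
    6), (2, 3), 4), ((1, 6), (5, 4), 5), ((1, 6), (5, 6), 0), ((3, 0), (8, 1), 2), ((3, 0),
    (8, 7), 7), ((6, 1), (9, 3), 4), ((6, 1), (9, 4), 5)]
  G := [[0, 0, 0xa222824ca4622e8e4ca74f26788a9c4, 0x22c22824c62422c6288a22c22824c6d84,
    0x6822a22e4eeae26a88cf8bbab2e4d82], [0, 0, 0xe4626288c4244e8a2acb447832ac9c2, 0,
    0x6822a22e4eeae26a88cf8bbab2e4d28], [0, 0, 0, 0x2122824c62122824ca2821a2446d84,
    0xa22e8e1c6b8b1f2e456222822ac6898], [0, 0x111111e2111111e8111111e8e84, 0, 0,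
    0x682122e4e1e26a88cb1b26f88cd28]]

noncomputable def n2262 : Ent := ⟨e2262, noF, [], [], [(16, 14, [1580095832788404724998799751142926758855362888449624481876428013569, 0]), (16, 15, [1685356702439545624007900436039642273970977273354372543760009351169, 0])]⟩

def c2262 : PLift (Cov.check n2262.C.D v2262 = true) := ⟨by decide +kernel⟩

def b2262 : PLift (entF (fidx ts) 400 2262 n2262 = true) := ⟨by decide +kernel⟩

theorem g2262 : GoodF (fidx ts) 400 2262 := GoodF.ofV v2262 n2262 c2262.down b2262.down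

/-- 4586644:1894/4 -/
noncomputable def e2263 : SCfg where
  D := {
    a := 7
    L := 10
    kp := 7
    inn := [(0, 1), (0, 2), (0, 3), (1, 0), (1, 2), (2, 0), (2, 1), (2, 3), (2, 6), (3, 0), (3, 2), (3,
      4), (4, 3), (4, 5), (5, 4), (6, 2)]
    mix := [(0, 0), (1, 0), (1, 1), (1, 2), (2, 2), (2, 3), (2, 4), (2, 5), (3, 0), (3, 5), (3, 6), (4,
      0), (4, 6), (4, 7), (4, 8), (5, 0), (5, 8), (5, 9), (6, 3), (6, 4), (6, 7)]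
    cl := [0, 6, 1, 4, 5, 1, 0, 2, 3, 7]
    chq := [(0, 3), (1, 2), (2, 1), (3, 0)]
    rng := [(0, 1), (0, 9), (1, 0), (1, 2), (2, 1), (2, 3), (3, 2), (3, 7), (4, 5), (4, 7), (5, 4), (5,
      6), (6, 5), (6, 7), (7, 3), (7, 4), (7, 6), (7, 8), (8, 7), (8, 9), (9, 0), (9, 8)]
    lev := [] }
  links := [[1, 2, 3, 7], [2, 0, 7, 8, 9], [3, 0, 1, 9, 10, 6, 11, 12], [7, 0, 2, 12, 13, 4], [7, 3, 13,
    14, 15, 5], [7, 4, 15, 16], [11, 2, 10, 14]]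
  P := {
    a := 7
    N := 17
    nb := [142, 901, 7755, 12437, 57512, 98448, 19460, 65851, 642, 1286, 16964, 20548, 10252, 20504,
      44112, 81968, 32928]
    tri := [(0, 1, 2), (0, 1, 7), (0, 2, 3), (0, 3, 7), (1, 2, 9), (1, 7, 8), (1, 8, 9), (2, 3, 12),
      (2, 6, 10), (2, 6, 11), (2, 9, 10), (2, 11, 12), (3, 4, 7), (3, 4, 13), (3, 12, 13), (4, 5,
      7), (4, 5, 15), (4, 13, 14), (4, 14, 15), (5, 7, 16), (5, 15, 16), (6, 10, 14), (6, 11, 14)]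
    fin := [0, 0, 2, 0, 0, 0, 2, 0, 8, 2, 10, 11, 2, 0, 14, 15, 16]
    chd := [(0, 15), (2, 14)]
    steps := [(0, 1), (0, 3), (0, 4), (0, 5), (0, 7), (0, 13), (2, 6), (2, 9), (2, 12)] }
  rep := [0, 2, 14, 15, 10, 11, 8, 16]

noncomputable def v2263 : Cov.CovD where
  P := 3
  N := 5
  pl := [1, 3, 4, 9]
  lev := [⟨[], [], [], [], [(0, 0, [3])]⟩,
    ⟨[], [(0, 0), (0, 1)], [(0, 1)], [6], [(0, 0, [3]), (2, 1, [2])]⟩,
    ⟨[(0, 1)], [(0, 0), (0, 1), (1, 0), (1, 1)], [(1, 1)], [4, 5], [(2, 1, [2]), (5, 1,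
      [2])]⟩,
    ⟨[(0, 1), (0, 2), (1, 2)], [(0, 0), (0, 1), (1, 0), (2, 0), (2, 1)], [(0, 0), (0, 1)],
      [], [(0, 0, [3]), (5, 1, [2]), (6, 0, [3])]⟩,
    ⟨[(0, 3), (2, 3)], [(0, 0), (1, 0), (3, 0), (3, 1), (3, 2), (3, 3)], [(0, 0), (0, 2),
      (0, 3), (2, 3)], [], [(0, 0, [3]), (6, 0, [3]), (7, 2, [1]), (8, 3, [0])]⟩,
    ⟨[(3, 4)], [(0, 0), (1, 0), (3, 0), (4, 0), (4, 2), (4, 3)], [(0, 3)], [7], [(0, 0,
      [3]), (8, 3, [0])]⟩,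
    ⟨[(0, 2), (1, 2), (2, 3)], [(2, 1), (2, 2), (4, 2)], [], [4, 5], [(7, 2, [1])]⟩]
  Ta := [((0, 1), 0, 6), ((0, 9), 0, 7), ((2, 1), 1, 6), ((2, 3), 1, 4), ((5, 4), 1, 5), ((5, 6),
    1, 0), ((6, 5), 0, 1), ((6, 7), 0, 2)]
  Tb := [((0, 1, 9), 0, 6, 7), ((1, 0, 2), 6, 0, 1), ((2, 1, 3), 1, 6, 4), ((3, 2, 7), 4, 1, 2),
    ((4, 5, 7), 5, 1, 2), ((5, 4, 6), 1, 5, 0), ((6, 5, 7), 0, 1, 2), ((7, 3, 4), 2, 4, 5),
    ((7, 3, 6), 2, 4, 0), ((7, 3, 8), 2, 4, 3), ((7, 4, 6), 2, 5, 0), ((7, 4, 8), 2, 5, 3),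
    ((7, 6, 8), 2, 0, 3), ((8, 7, 9), 3, 2, 7), ((9, 0, 8), 7, 0, 3)]
  Tc := []
  Td := [((0, 3), (0, 1), 6), ((0, 3), (0, 9), 7), ((0, 3), (6, 5), 1), ((0, 3), (6, 7), 2), ((1,
    2), (2, 1), 6), ((1, 2), (2, 3), 4), ((1, 2), (5, 4), 5), ((1, 2), (5, 6), 0), ((2, 1),
    (7, 3), 4), ((2, 1), (7, 4), 5), ((2, 1), (7, 6), 0), ((2, 1), (7, 8), 3), ((3, 0), (8,
    7), 2), ((3, 0), (8, 9), 7)]
  G := [[0, 0, 0, 0x28a886c222a226c222a126c2d24,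
    0xaacaa6a411c116a45226222c8a4c22c226a4888c886a411c116a49ca], [0, 0, 0,
    0x226488a8c22a226c211a226c2d24, 0x22c226a4aacaa6a4116211c8cd28], [0, 0,
    0xe1e1c21e1e1681c4, 0x22a21c2444d28111d24d28, 0x11116a8111126a4128c886a4a2c236a4cd2], [0,
    0x1111c4114118a1111c2e1111c44141c21111c4e68, 0xe1e1c8124, 0x888d2421226c2111d24d24,
    0x88c81a421226a811c11a4d24]]

noncomputable def n2263 : Ent := ⟨e2263, noF, [], [], [(8, 16, [1580044410770988437309982408355971841652082177953823432505698369537, 0])]⟩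

def c2263 : PLift (Cov.check n2263.C.D v2263 = true) := ⟨by decide +kernel⟩

def b2263 : PLift (entF (fidx ts) 400 2263 n2263 = true) := ⟨by decide +kernel⟩

theorem g2263 : GoodF (fidx ts) 400 2263 := GoodF.ofV v2263 n2263 c2263.down b2263.down

/-- 4586644:1894/5 -/
noncomputable def e2264 : SCfg where
  D := {
    a := 7
    L := 10
    kp := 7
    inn := [(0, 1), (0, 2), (0, 3), (1, 0), (1, 2), (2, 0), (2, 1), (2, 3), (2, 6), (3, 0), (3, 2), (3,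
      4), (4, 3), (4, 5), (5, 4), (6, 2)]
    mix := [(0, 0), (1, 0), (1, 1), (1, 2), (2, 2), (2, 3), (2, 4), (2, 5), (3, 0), (3, 5), (3, 6), (4,
      0), (4, 6), (4, 7), (4, 8), (5, 0), (5, 8), (5, 9), (6, 3), (6, 4), (6, 8)]
    cl := [0, 5, 1, 3, 4, 1, 0, 6, 2, 7]
    chq := [(0, 2), (1, 2), (2, 0), (2, 1)]
    rng := [(0, 1), (0, 9), (1, 0), (1, 2), (2, 1), (2, 3), (3, 2), (3, 8), (4, 5), (4, 8), (5, 4), (5,
      6), (6, 5), (6, 7), (7, 6), (7, 8), (8, 3), (8, 4), (8, 7), (8, 9), (9, 0), (9, 8)]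
    lev := [] }
  links := [[1, 2, 3, 7], [2, 0, 7, 8, 9], [3, 0, 1, 9, 10, 6, 11, 12], [7, 0, 2, 12, 13, 4], [7, 3, 13,
    14, 15, 5], [7, 4, 15, 16], [11, 2, 10, 15]]
  P := {
    a := 7
    N := 17
    nb := [142, 901, 7755, 12437, 57512, 98448, 35844, 65851, 642, 1286, 33348, 36932, 10252, 20504,
      40976, 85104, 32928]
    tri := [(0, 1, 2), (0, 1, 7), (0, 2, 3), (0, 3, 7), (1, 2, 9), (1, 7, 8), (1, 8, 9), (2, 3, 12),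
      (2, 6, 10), (2, 6, 11), (2, 9, 10), (2, 11, 12), (3, 4, 7), (3, 4, 13), (3, 12, 13), (4, 5,
      7), (4, 5, 15), (4, 13, 14), (4, 14, 15), (5, 7, 16), (5, 15, 16), (6, 10, 15), (6, 11, 15)]
    fin := [0, 0, 2, 0, 0, 0, 2, 0, 8, 2, 10, 11, 2, 0, 14, 15, 16]
    chd := [(0, 15), (2, 15)]
    steps := [(0, 1), (0, 3), (0, 4), (0, 5), (0, 7), (0, 13), (2, 6), (2, 9), (2, 12)] }
  rep := [0, 2, 15, 10, 11, 8, 14, 16]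

noncomputable def v2264 : Cov.CovD where
  P := 3
  N := 5
  pl := [1, 3, 4, 7, 9]
  lev := [⟨[], [], [], [], [(0, 0, [2])]⟩,
    ⟨[], [(0, 0), (0, 1)], [(0, 1)], [5], [(0, 0, [2]), (2, 1, [2])]⟩,
    ⟨[(0, 1)], [(0, 0), (0, 1), (1, 0), (1, 1)], [(1, 1)], [3, 4], [(2, 1, [2]), (5, 1,
      [2])]⟩,
    ⟨[(0, 1), (0, 2), (1, 2)], [(0, 0), (0, 1), (1, 0), (2, 0), (2, 1)], [(0, 0), (0, 1)],
      [], [(0, 0, [2]), (5, 1, [2]), (6, 0, [2])]⟩,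
    ⟨[(0, 3), (2, 3)], [(0, 0), (1, 0), (3, 0), (3, 1), (3, 2)], [(0, 0), (0, 2)], [6],
      [(0, 0, [2]), (6, 0, [2]), (8, 2, [0, 1])]⟩,
    ⟨[(3, 4)], [(0, 0), (1, 0), (3, 0), (4, 0), (4, 2)], [(0, 2)], [7], [(0, 0, [2]), (8,
      2, [0, 1])]⟩,
    ⟨[(0, 2), (1, 2), (2, 3)], [(2, 1), (2, 2), (4, 2), (5, 2)], [], [3, 4], [(8, 2, [0,
      1])]⟩]
  Ta := [((0, 1), 0, 5), ((0, 9), 0, 7), ((2, 1), 1, 5), ((2, 3), 1, 3), ((5, 4), 1, 4), ((5, 6),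
    1, 0), ((6, 5), 0, 1), ((6, 7), 0, 6)]
  Tb := [((0, 1, 9), 0, 5, 7), ((1, 0, 2), 5, 0, 1), ((2, 1, 3), 1, 5, 3), ((3, 2, 8), 3, 1, 2),
    ((4, 5, 8), 4, 1, 2), ((5, 4, 6), 1, 4, 0), ((6, 5, 7), 0, 1, 6), ((7, 6, 8), 6, 0, 2),
    ((8, 3, 4), 2, 3, 4), ((8, 3, 7), 2, 3, 6), ((8, 3, 9), 2, 3, 7), ((8, 4, 7), 2, 4, 6),
    ((8, 4, 9), 2, 4, 7), ((8, 7, 9), 2, 6, 7), ((9, 0, 8), 7, 0, 2)]
  Tc := [(2, 0, 1)]
  Td := [((0, 2), (0, 1), 5), ((0, 2), (0, 9), 7), ((0, 2), (6, 5), 1), ((0, 2), (6, 7), 6), ((1,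
    2), (2, 1), 5), ((1, 2), (2, 3), 3), ((1, 2), (5, 4), 4), ((1, 2), (5, 6), 0), ((2, 0),
    (8, 3), 3), ((2, 0), (8, 4), 4), ((2, 0), (8, 7), 6), ((2, 0), (8, 9), 7), ((2, 1), (8,
    3), 3), ((2, 1), (8, 4), 4), ((2, 1), (8, 7), 6), ((2, 1), (8, 9), 7)]
  G := [[0, 0, 0xeeceeca41ee6ee6681c4, 0x44c284288c2411c2492c,
    0x22a222a8a4422a22aa4aaaaaaa41281811aacd88a88aa411a11aa49ca], [0, 0, 0xeeceeca4124,
    0x44c284288c2411c2892c, 0x22a22aa411a11aa45288a88aa482c], [0, 0, 0xee6eeac21ee6eeac21c8,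
    0x4128112452812482c, 0x2131a81121a452121a81111a4588a88aa48d2], [0,
    0x1111c41111c21111c4e1111c44111c21111c4e68, 0xeeceeaa4124, 0x4128428124112492c,
    0x8181a42121a81111a4d24]]

noncomputable def n2264 : Ent := ⟨e2264, noF, [], [], [(8, 16, [1580044410770988437309982408355971841652082177953823432505698373633, 0])]⟩

def c2264 : PLift (Cov.check n2264.C.D v2264 = true) := ⟨by decide +kernel⟩

def b2264 : PLift (entF (fidx ts) 400 2264 n2264 = true) := ⟨by decide +kernel⟩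

theorem g2264 : GoodF (fidx ts) 400 2264 := GoodF.ofV v2264 n2264 c2264.down b2264.down

/-- 4586644:1894/6 -/
noncomputable def e2265 : SCfg where
  D := {
    a := 7
    L := 10
    kp := 7
    inn := [(0, 1), (0, 2), (0, 3), (1, 0), (1, 2), (2, 0), (2, 1), (2, 3), (2, 6), (3, 0), (3, 2), (3,
      4), (4, 3), (4, 5), (5, 4), (6, 2)]
    mix := [(0, 0), (1, 0), (1, 1), (1, 2), (2, 2), (2, 3), (2, 4), (2, 5), (3, 0), (3, 5), (3, 6), (4,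
      0), (4, 6), (4, 7), (4, 8), (5, 0), (5, 8), (5, 9), (6, 3), (6, 4), (6, 9)]
    cl := [0, 6, 1, 4, 5, 1, 0, 7, 3, 2]
    chq := [(0, 3), (1, 2), (2, 1), (3, 0)]
    rng := [(0, 1), (0, 9), (1, 0), (1, 2), (2, 1), (2, 3), (3, 2), (3, 9), (4, 5), (4, 9), (5, 4), (5,
      6), (6, 5), (6, 7), (7, 6), (7, 8), (8, 7), (8, 9), (9, 0), (9, 3), (9, 4), (9, 8)]
    lev := [] }
  links := [[1, 2, 3, 7], [2, 0, 7, 8, 9], [3, 0, 1, 9, 10, 6, 11, 12], [7, 0, 2, 12, 13, 4], [7, 3, 13,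
    14, 15, 5], [7, 4, 15, 16], [11, 2, 10, 16]]
  P := {
    a := 7
    N := 17
    nb := [142, 901, 7755, 12437, 57512, 98448, 68612, 65851, 642, 1286, 66116, 69700, 10252, 20504,
      40976, 81968, 36064]
    tri := [(0, 1, 2), (0, 1, 7), (0, 2, 3), (0, 3, 7), (1, 2, 9), (1, 7, 8), (1, 8, 9), (2, 3, 12),
      (2, 6, 10), (2, 6, 11), (2, 9, 10), (2, 11, 12), (3, 4, 7), (3, 4, 13), (3, 12, 13), (4, 5,
      7), (4, 5, 15), (4, 13, 14), (4, 14, 15), (5, 7, 16), (5, 15, 16), (6, 10, 16), (6, 11, 16)]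
    fin := [0, 0, 2, 0, 0, 0, 2, 0, 8, 2, 10, 11, 2, 0, 14, 15, 16]
    chd := [(0, 15), (2, 16)]
    steps := [(0, 1), (0, 3), (0, 4), (0, 5), (0, 7), (0, 13), (2, 6), (2, 9), (2, 12)] }
  rep := [0, 2, 16, 15, 10, 11, 8, 14]

noncomputable def v2265 : Cov.CovD where
  P := 3
  N := 5
  pl := [1, 3, 4, 7]
  lev := [⟨[], [], [], [], [(0, 0, [3])]⟩,
    ⟨[], [(0, 0), (0, 1)], [(0, 1)], [6], [(0, 0, [3]), (2, 1, [2])]⟩,
    ⟨[(0, 1)], [(0, 0), (0, 1), (1, 0), (1, 1)], [(1, 1)], [4, 5], [(2, 1, [2]), (5, 1,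
      [2])]⟩,
    ⟨[(0, 1), (0, 2), (1, 2)], [(0, 0), (0, 1), (1, 0), (2, 0), (2, 1)], [(0, 0), (0, 1)],
      [], [(0, 0, [3]), (5, 1, [2]), (6, 0, [3])]⟩,
    ⟨[(0, 3), (2, 3)], [(0, 0), (1, 0), (3, 0), (3, 1), (3, 3)], [(0, 0), (0, 3)], [7],
      [(0, 0, [3]), (6, 0, [3]), (8, 3, [0])]⟩,
    ⟨[(3, 4)], [(0, 0), (1, 0), (3, 0), (4, 0), (4, 2), (4, 3)], [(0, 2), (0, 3), (2, 3)],
      [], [(0, 0, [3]), (8, 3, [0]), (9, 2, [1])]⟩,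
    ⟨[(0, 2), (1, 2), (2, 3)], [(2, 1), (2, 2), (5, 2)], [], [4, 5], [(9, 2, [1])]⟩]
  Ta := [((0, 1), 0, 6), ((0, 9), 0, 2), ((2, 1), 1, 6), ((2, 3), 1, 4), ((5, 4), 1, 5), ((5, 6),
    1, 0), ((6, 5), 0, 1), ((6, 7), 0, 7)]
  Tb := [((0, 1, 9), 0, 6, 2), ((1, 0, 2), 6, 0, 1), ((2, 1, 3), 1, 6, 4), ((3, 2, 9), 4, 1, 2),
    ((4, 5, 9), 5, 1, 2), ((5, 4, 6), 1, 5, 0), ((6, 5, 7), 0, 1, 7), ((7, 6, 8), 7, 0, 3),
    ((8, 7, 9), 3, 7, 2), ((9, 0, 3), 2, 0, 4), ((9, 0, 4), 2, 0, 5), ((9, 0, 8), 2, 0, 3),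
    ((9, 3, 4), 2, 4, 5), ((9, 3, 8), 2, 4, 3), ((9, 4, 8), 2, 5, 3)]
  Tc := []
  Td := [((0, 3), (0, 1), 6), ((0, 3), (0, 9), 2), ((0, 3), (6, 5), 1), ((0, 3), (6, 7), 7), ((1,
    2), (2, 1), 6), ((1, 2), (2, 3), 4), ((1, 2), (5, 4), 5), ((1, 2), (5, 6), 0), ((2, 1),
    (9, 0), 0), ((2, 1), (9, 3), 4), ((2, 1), (9, 4), 5), ((2, 1), (9, 8), 3), ((3, 0), (8,
    7), 7), ((3, 0), (8, 9), 2)]
  G := [[0, 0, 0xe4e26e88a1e22e8e4ca1c4, 0x2422c6828c2422c6288a122421ce8d24,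
    0x2882442822a22e4aaaa26a88c1811a12e4d8888a82e422a22681811a12e4dca], [0, 0,
    0xe4e26e88c128, 0x2822ca244622c24242c6121212ce4d28,
    0xaaa4a822ac1811a12e45222a42882ac82c], [0, 0, 0, 0x2821a244644216488a281221e4d28,
    0x11126188c1181112e418888a82e422a226288ccd2], [0,
    0x481141e24111111e4181111e4a181411e2114411e2111111e4ee8, 0,
    0x24216888a24216288a1242811acd24, 0x282122e4a1a26a88c11126188cd28]]

noncomputable def n2265 : Ent := ⟨e2265, noF, [], [], []⟩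

def c2265 : PLift (Cov.check n2265.C.D v2265 = true) := ⟨by decide +kernel⟩

def b2265 : PLift (entF (fidx ts) 400 2265 n2265 = true) := ⟨by decide +kernel⟩

theorem g2265 : GoodF (fidx ts) 400 2265 := GoodF.ofV v2265 n2265 c2265.down b2265.down

/-- 4586644:1894 -/
noncomputable def e2266 : SCfg where
  D := {
    a := 7
    L := 11
    kp := 8
    inn := [(0, 1), (0, 2), (0, 3), (1, 0), (1, 2), (2, 0), (2, 1), (2, 3), (2, 6), (3, 0), (3, 2), (3,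
      4), (4, 3), (4, 5), (5, 4), (6, 2)]
    mix := [(0, 0), (1, 0), (1, 1), (1, 2), (2, 2), (2, 3), (2, 4), (2, 5), (3, 0), (3, 5), (3, 6), (4,
      0), (4, 6), (4, 7), (4, 8), (5, 0), (5, 8), (5, 9), (6, 3), (6, 4), (6, 10)]
    cl := [0, 6, 1, 4, 2, 1, 0, 7, 3, 8, 5]
    chq := [(0, 3), (1, 5), (3, 0), (5, 1)]
    rng := [(0, 1), (0, 9), (1, 0), (1, 2), (2, 1), (2, 3), (3, 2), (3, 10), (4, 5), (4, 10), (5, 4),
      (5, 6), (6, 5), (6, 7), (7, 6), (7, 8), (8, 7), (8, 9), (9, 0), (9, 8), (10, 3), (10, 4)]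
    lev := [] }
  links := [[1, 2, 3, 7], [2, 0, 7, 8, 9], [3, 0, 1, 9, 10, 6, 11, 12], [7, 0, 2, 12, 13, 4], [7, 3, 13,
    14, 15, 5], [7, 4, 15, 16], [11, 2, 10, 17]]
  P := {
    a := 7
    N := 18
    nb := [142, 901, 7755, 12437, 57512, 98448, 134148, 65851, 642, 1286, 131652, 135236, 10252,
      20504, 40976, 81968, 32928, 3136]
    tri := [(0, 1, 2), (0, 1, 7), (0, 2, 3), (0, 3, 7), (1, 2, 9), (1, 7, 8), (1, 8, 9), (2, 3, 12),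
      (2, 6, 10), (2, 6, 11), (2, 9, 10), (2, 11, 12), (3, 4, 7), (3, 4, 13), (3, 12, 13), (4, 5,
      7), (4, 5, 15), (4, 13, 14), (4, 14, 15), (5, 7, 16), (5, 15, 16), (6, 10, 17), (6, 11, 17)]
    fin := [0, 0, 2, 0, 0, 0, 2, 0, 8, 2, 10, 11, 2, 0, 14, 15, 16, 17]
    chd := [(0, 15), (2, 17)]
    steps := [(0, 1), (0, 3), (0, 4), (0, 5), (0, 7), (0, 13), (2, 6), (2, 9), (2, 12)] }
  rep := [0, 2, 11, 15, 10, 17, 8, 14, 16]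

noncomputable def v2266 : Cov.CovD where
  P := 3
  N := 6
  pl := [1, 3, 4, 7, 9]
  lev := [⟨[], [], [], [], [(0, 0, [3])]⟩,
    ⟨[], [(0, 0), (0, 1)], [(0, 1)], [6], [(0, 0, [3]), (2, 1, [5])]⟩,
    ⟨[(0, 1)], [(0, 0), (0, 1), (1, 0), (1, 1)], [(1, 1)], [2, 4], [(2, 1, [5]), (5, 1,
      [5])]⟩,
    ⟨[(0, 1), (0, 2), (1, 2)], [(0, 0), (0, 1), (1, 0), (2, 0), (2, 1)], [(0, 0), (0, 1)],
      [], [(0, 0, [3]), (5, 1, [5]), (6, 0, [3])]⟩,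
    ⟨[(0, 3), (2, 3)], [(0, 0), (1, 0), (3, 0), (3, 1), (3, 3)], [(0, 0), (0, 3)], [7],
      [(0, 0, [3]), (6, 0, [3]), (8, 3, [0])]⟩,
    ⟨[(3, 4)], [(0, 0), (1, 0), (3, 0), (4, 0), (4, 3)], [(0, 3)], [8], [(0, 0, [3]), (8,
      3, [0])]⟩,
    ⟨[(0, 2), (1, 2), (2, 3)], [(2, 1), (2, 5)], [], [2, 4], [(10, 5, [1])]⟩]
  Ta := [((0, 1), 0, 6), ((0, 9), 0, 8), ((2, 1), 1, 6), ((2, 3), 1, 4), ((5, 4), 1, 2), ((5, 6),
    1, 0), ((6, 5), 0, 1), ((6, 7), 0, 7)]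
  Tb := [((0, 1, 9), 0, 6, 8), ((1, 0, 2), 6, 0, 1), ((2, 1, 3), 1, 6, 4), ((3, 2, 10), 4, 1, 5),
    ((4, 5, 10), 2, 1, 5), ((5, 4, 6), 1, 2, 0), ((6, 5, 7), 0, 1, 7), ((7, 6, 8), 7, 0, 3),
    ((8, 7, 9), 3, 7, 8), ((9, 0, 8), 8, 0, 3), ((10, 3, 4), 5, 4, 2)]
  Tc := []
  Td := [((0, 3), (0, 1), 6), ((0, 3), (0, 9), 8), ((0, 3), (6, 5), 1), ((0, 3), (6, 7), 7), ((1,
    5), (2, 1), 6), ((1, 5), (2, 3), 4), ((1, 5), (5, 4), 2), ((1, 5), (5, 6), 0), ((3, 0),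
    (8, 7), 7), ((3, 0), (8, 9), 8), ((5, 1), (10, 3), 4), ((5, 1), (10, 4), 2)]
  G := [[0, 0, 0xaaae2a2ae222eca44666e666ea666e46aaaeaaae6aaae8ac666e26e6eeeeeca8cc, 0,
    0x322e233ea223e46bbaebaae6abbe8c9323e2aabeb22ecaabae2332e2bbeca9c4], [0, 0,
    0x288442222e4222e222eac226222e222ee8c2c, 0xccce4cce68999e199e6555e8c52ccce88a482c,
    0x222e222e6222e8c222e222e6222e8c924], [0, 0, 0x666e2222e222ec6aaae2eeeeeeeec6c18, 0,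
    0x3a52239233ca132322373a5e81bbae323eaaaae468d4], [0,
    0x111111e2111111e8c11116118a8111111e24e4, 0x222d216222e8c225229223e8c24,
    0xc4c7453689951265598c528c3c99a482c, 0x222e21222be4229223222ee4928]]

noncomputable def n2266 : Ent := ⟨e2266, noF, [], [], [(8, 16, [7334685537875745012586738086077695515070955365108989538292687702941697, 0]), (17, 14, [6903326468334360900303599070699561856668565975414084080169086033424385, 0]), (17, 15, [6903537015784671890245461680740748765157398844539141476817538560917505, 0]), (17, 16, [7334685537875745012586738086077695515070955365108989538292687702953985, 0])]⟩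

def c2266 : PLift (Cov.check n2266.C.D v2266 = true) := ⟨by decide +kernel⟩

def b2266 : PLift (entF (fidx ts) 400 2266 n2266 = true) := ⟨by decide +kernel⟩

theorem g2266 : GoodF (fidx ts) 400 2266 := GoodF.ofV v2266 n2266 c2266.down b2266.down

/-- 4749454:1896/1 -/
noncomputable def e2267 : SCfg where
  D := {
    a := 7
    L := 10
    kp := 7
    inn := [(0, 1), (1, 0), (1, 2), (1, 3), (1, 4), (2, 1), (2, 3), (3, 1), (3, 2), (3, 4), (3, 5), (4,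
      1), (4, 3), (5, 3), (5, 6), (6, 5)]
    mix := [(0, 0), (0, 1), (0, 2), (1, 0), (1, 2), (1, 3), (2, 2), (2, 4), (3, 4), (3, 5), (3, 6), (3,
      7), (3, 8), (4, 3), (4, 8), (5, 4), (5, 5), (5, 9), (6, 1), (6, 4), (6, 9)]
    cl := [2, 4, 3, 1, 0, 0, 6, 7, 0, 5]
    chq := [(1, 3), (1, 4), (3, 1), (4, 1)]
    rng := [(0, 1), (0, 3), (1, 0), (1, 2), (1, 4), (1, 9), (2, 1), (2, 4), (3, 0), (3, 8), (4, 1), (4,
      2), (5, 6), (5, 9), (6, 5), (6, 7), (7, 6), (7, 8), (8, 3), (8, 7), (9, 1), (9, 5)]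
    lev := [] }
  links := [[1, 7, 8, 9], [7, 0, 9, 2, 3, 4, 10], [3, 1, 9, 11], [4, 1, 2, 11, 5, 12, 13, 14, 15], [10,
    1, 3, 15], [12, 3, 11, 6, 16], [16, 5, 11, 8]]
  P := {
    a := 7
    N := 17
    nb := [898, 1693, 2570, 63542, 33802, 71752, 67872, 1283, 68289, 2311, 32914, 876, 73768, 20488,
      40968, 17432, 4448]
    tri := [(0, 1, 7), (0, 1, 9), (0, 7, 8), (0, 8, 9), (1, 2, 3), (1, 2, 9), (1, 3, 4), (1, 4, 10),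
      (1, 7, 10), (2, 3, 11), (2, 9, 11), (3, 4, 15), (3, 5, 11), (3, 5, 12), (3, 12, 13), (3, 13,
      14), (3, 14, 15), (4, 10, 15), (5, 6, 11), (5, 6, 16), (5, 12, 16), (6, 8, 11), (6, 8, 16)]
    fin := [0, 1, 2, 3, 3, 0, 0, 7, 0, 2, 1, 3, 3, 13, 14, 3, 16]
    chd := [(0, 1), (2, 1)]
    steps := [(0, 8), (0, 6), (0, 5), (1, 10), (2, 9), (3, 4), (3, 11), (3, 12), (3, 15)] }
  rep := [3, 1, 7, 2, 0, 16, 13, 14]

noncomputable def v2267 : Cov.CovD where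
  P := 3
  N := 5
  pl := [0, 6, 7, 9]
  lev := [⟨[], [], [(3, 4)], [2], [(1, 4, [1]), (2, 3, [1])]⟩,
    ⟨[], [(0, 1), (0, 3), (0, 4)], [(1, 3)], [2], [(2, 3, [1]), (3, 1, [3, 4])]⟩,
    ⟨[(0, 1)], [(0, 3), (1, 0), (1, 1), (1, 3)], [(0, 3)], [], [(2, 3, [1]), (4, 0, [])]⟩,
    ⟨[(0, 1), (1, 2)], [(1, 0), (1, 1), (1, 3), (2, 0), (2, 3)], [(0, 0)], [6, 7], [(4, 0,
      []), (5, 0, []), (8, 0, [])]⟩,
    ⟨[(0, 1), (1, 2), (1, 3), (2, 3)], [(1, 0), (1, 1), (1, 3), (3, 0), (3, 1)], [(0, 1)],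
      [], [(3, 1, [3, 4]), (8, 0, [])]⟩,
    ⟨[(1, 3), (2, 3), (3, 4)], [(2, 0), (3, 0)], [(0, 0)], [5], [(4, 0, []), (5, 0, [])]⟩,
    ⟨[(3, 5)], [(0, 4), (2, 0), (3, 0), (5, 0), (5, 4)], [(0, 4)], [5], [(1, 4, [1]), (4,
      0, [])]⟩]
  Ta := [((4, 1), 0, 4), ((4, 2), 0, 3), ((5, 6), 0, 6), ((5, 9), 0, 5), ((8, 3), 0, 1), ((8, 7),
    0, 7)]
  Tb := [((0, 1, 3), 2, 4, 1), ((1, 0, 2), 4, 2, 3), ((1, 0, 4), 4, 2, 0), ((1, 0, 9), 4, 2, 5),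
    ((1, 2, 4), 4, 3, 0), ((1, 2, 9), 4, 3, 5), ((1, 4, 9), 4, 0, 5), ((2, 1, 4), 3, 4, 0),
    ((3, 0, 8), 1, 2, 0), ((4, 1, 2), 0, 4, 3), ((5, 6, 9), 0, 6, 5), ((6, 5, 7), 6, 0, 7),
    ((7, 6, 8), 7, 6, 0), ((8, 3, 7), 0, 1, 7), ((9, 1, 5), 5, 4, 0)]
  Tc := [(1, 3, 4)]
  Td := [((1, 3), (3, 0), 2), ((1, 3), (3, 8), 0), ((1, 4), (3, 0), 2), ((1, 4), (3, 8), 0), ((3,
    1), (2, 1), 4), ((3, 1), (2, 4), 0), ((4, 1), (1, 0), 2), ((4, 1), (1, 2), 3), ((4, 1),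
    (1, 4), 0), ((4, 1), (1, 9), 5)]
  G := [[0, 0, 0xc6a4a6c16ca648aca68a6c1ac6a846c2,
    0x82a182c462826488426882d42a148426124c8a284a442dc264c2a4a6c4e21d,
    0xc6a1a6c46ca648aca68c6a8a6c4e492], [0, 0, 0x1a61c1a16ca618916c195a1ac6a145c2,
    0x31a412a821c8e211, 0x12c82c16831a424c8e611], [0, 0x11a411c2611648a11c211a8a11a846c1,
    0x11a411c4611648a11681168a11a846c2, 0x12c4116811c8e211, 0x41a4211a42116421c8ce11]]

noncomputable def n2267 : Ent := ⟨e2267, noF, [], [], []⟩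

def c2267 : PLift (Cov.check n2267.C.D v2267 = true) := ⟨by decide +kernel⟩

def b2267 : PLift (entF (fidx ts) 400 2267 n2267 = true) := ⟨by decide +kernel⟩

theorem g2267 : GoodF (fidx ts) 400 2267 := GoodF.ofV v2267 n2267 c2267.down b2267.down

/-- 4749454:1896/3 -/
noncomputable def e2268 : SCfg where
  D := {
    a := 7
    L := 9
    kp := 6
    inn := [(0, 1), (1, 0), (1, 2), (1, 3), (1, 4), (2, 1), (2, 3), (3, 1), (3, 2), (3, 4), (3, 5), (4,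
      1), (4, 3), (5, 3), (5, 6), (6, 5)]
    mix := [(0, 0), (0, 1), (0, 2), (1, 0), (1, 2), (1, 3), (2, 2), (2, 4), (3, 4), (3, 5), (3, 6), (3,
      7), (3, 8), (4, 3), (4, 8), (5, 1), (5, 4), (5, 5), (6, 1), (6, 2), (6, 4)]
    cl := [4, 3, 1, 2, 0, 0, 5, 6, 0]
    chq := [(1, 2), (2, 1), (2, 3), (3, 2)]
    rng := [(0, 1), (0, 3), (1, 0), (1, 2), (1, 5), (2, 1), (2, 4), (3, 0), (3, 8), (4, 2), (5, 1), (5,
      6), (6, 5), (6, 7), (7, 6), (7, 8), (8, 3), (8, 7)]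
    lev := [] }
  links := [[1, 7, 8, 9], [7, 0, 9, 2, 3, 4, 10], [3, 1, 9, 11], [4, 1, 2, 11, 5, 12, 13, 14, 15], [10,
    1, 3, 15], [12, 3, 11, 6, 8], [8, 5, 11, 9]]
  P := {
    a := 7
    N := 16
    nb := [898, 1693, 2570, 63542, 33802, 6472, 2848, 1283, 4833, 2375, 32914, 620, 8488, 20488,
      40968, 17432]
    tri := [(0, 1, 7), (0, 1, 9), (0, 7, 8), (0, 8, 9), (1, 2, 3), (1, 2, 9), (1, 3, 4), (1, 4, 10),
      (1, 7, 10), (2, 3, 11), (2, 9, 11), (3, 4, 15), (3, 5, 11), (3, 5, 12), (3, 12, 13), (3, 13,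
      14), (3, 14, 15), (4, 10, 15), (5, 6, 8), (5, 6, 11), (5, 8, 12), (6, 8, 9), (6, 9, 11)]
    fin := [0, 1, 2, 3, 3, 0, 0, 7, 0, 2, 1, 3, 3, 13, 14, 3]
    chd := [(0, 1), (2, 1)]
    steps := [(0, 8), (0, 5), (0, 6), (1, 10), (2, 9), (3, 4), (3, 11), (3, 12), (3, 15)] }
  rep := [3, 2, 1, 0, 7, 13, 14]

noncomputable def v2268 : Cov.CovD where
  P := 3
  N := 4
  pl := [0, 6, 7]
  lev := [⟨[], [], [(1, 3)], [4], [(1, 3, [2]), (2, 1, [2])]⟩,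
    ⟨[], [(0, 1), (0, 2), (0, 3)], [(1, 2)], [4], [(2, 1, [2]), (3, 2, [1, 3])]⟩,
    ⟨[(0, 1)], [(0, 1), (1, 0), (1, 1), (1, 2)], [(0, 1)], [], [(2, 1, [2]), (4, 0, [])]⟩,
    ⟨[(0, 1), (1, 2)], [(1, 0), (1, 1), (1, 2), (2, 0), (2, 1)], [(0, 0)], [5, 6], [(4, 0,
      []), (5, 0, []), (8, 0, [])]⟩,
    ⟨[(0, 1), (1, 2), (1, 3), (2, 3)], [(1, 0), (1, 1), (1, 2), (3, 0), (3, 2)], [(0, 2)],
      [], [(3, 2, [1, 3]), (8, 0, [])]⟩,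
    ⟨[(1, 3), (2, 3), (3, 4)], [(0, 3), (2, 0), (3, 0), (3, 3)], [(0, 0), (0, 3)], [], [(1,
      3, [2]), (4, 0, []), (5, 0, [])]⟩,
    ⟨[(3, 5)], [(0, 1), (0, 3), (1, 1), (2, 0), (2, 1), (3, 0), (5, 0), (5, 1), (5, 3)],
      [(0, 1), (0, 3), (1, 3)], [], [(1, 3, [2]), (2, 1, [2]), (4, 0, [])]⟩]
  Ta := [((4, 2), 0, 1), ((5, 1), 0, 3), ((5, 6), 0, 5), ((8, 3), 0, 2), ((8, 7), 0, 6)]
  Tb := [((0, 1, 3), 4, 3, 2), ((1, 0, 2), 3, 4, 1), ((1, 0, 5), 3, 4, 0), ((1, 2, 5), 3, 1, 0),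
    ((2, 1, 4), 1, 3, 0), ((3, 0, 8), 2, 4, 0), ((5, 1, 6), 0, 3, 5), ((6, 5, 7), 5, 0, 6),
    ((7, 6, 8), 6, 5, 0), ((8, 3, 7), 0, 2, 6)]
  Tc := [(2, 1, 3)]
  Td := [((1, 2), (2, 1), 3), ((1, 2), (2, 4), 0), ((2, 1), (3, 0), 4), ((2, 1), (3, 8), 0), ((2,
    3), (3, 0), 4), ((2, 3), (3, 8), 0), ((3, 2), (1, 0), 4), ((3, 2), (1, 2), 1), ((3, 2),
    (1, 5), 0)]
  G := [[0, 0x8212816228182c42844421241a8c4264421441e422442a1284e2ce, 0,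
    0xc24c2184a4e4c22c2884c4e8c2, 0x84a284c2648618c8c4244a2c42e415], [0, 0, 0,
    0x122122124e452492281a4e492, 0x482481614488494862422421e1842822442e49142142148e81d], [0,
    0, 0x116281a84164e4186441a21168e8c1, 0x122122128e4124128124e492,
    0x486211a814c2e4814811a8142e415]]

noncomputable def n2268 : Ent := ⟨e2268, noF, [], [], []⟩

def c2268 : PLift (Cov.check n2268.C.D v2268 = true) := ⟨by decide +kernel⟩

def b2268 : PLift (entF (fidx ts) 400 2268 n2268 = true) := ⟨by decide +kernel⟩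

theorem g2268 : GoodF (fidx ts) 400 2268 := GoodF.ofV v2268 n2268 c2268.down b2268.down

/-- 4749454:1896/2 -/
noncomputable def e2269 : SCfg where
  D := {
    a := 7
    L := 10
    kp := 7
    inn := [(0, 1), (1, 0), (1, 2), (1, 3), (1, 4), (2, 1), (2, 3), (3, 1), (3, 2), (3, 4), (3, 5), (4,
      1), (4, 3), (5, 3), (5, 6), (6, 5)]
    mix := [(0, 0), (0, 1), (0, 2), (1, 0), (1, 2), (1, 3), (2, 2), (2, 4), (3, 4), (3, 5), (3, 6), (3,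
      7), (3, 8), (4, 3), (4, 8), (5, 1), (5, 4), (5, 5), (6, 1), (6, 4), (6, 9)]
    cl := [4, 3, 1, 2, 0, 0, 5, 6, 0, 7]
    chq := [(1, 2), (2, 1), (2, 3), (3, 2)]
    rng := [(0, 1), (0, 3), (1, 0), (1, 2), (1, 5), (1, 9), (2, 1), (2, 4), (3, 0), (3, 8), (4, 2), (4,
      9), (5, 1), (5, 6), (6, 5), (6, 7), (7, 6), (7, 8), (8, 3), (8, 7), (9, 1), (9, 4)]
    lev := [] }
  links := [[1, 7, 8, 9], [7, 0, 9, 2, 3, 4, 10], [3, 1, 9, 11], [4, 1, 2, 11, 5, 12, 13, 14, 15], [10,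
    1, 3, 15], [12, 3, 11, 6, 8], [8, 5, 11, 16]]
  P := {
    a := 7
    N := 17
    nb := [898, 1693, 2570, 63542, 33802, 6472, 67872, 1283, 70369, 2311, 32914, 66156, 8488, 20488,
      40968, 17432, 2368]
    tri := [(0, 1, 7), (0, 1, 9), (0, 7, 8), (0, 8, 9), (1, 2, 3), (1, 2, 9), (1, 3, 4), (1, 4, 10),
      (1, 7, 10), (2, 3, 11), (2, 9, 11), (3, 4, 15), (3, 5, 11), (3, 5, 12), (3, 12, 13), (3, 13,
      14), (3, 14, 15), (4, 10, 15), (5, 6, 8), (5, 6, 11), (5, 8, 12), (6, 8, 16), (6, 11, 16)]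
    fin := [0, 1, 2, 3, 3, 0, 0, 7, 0, 2, 1, 3, 3, 13, 14, 3, 16]
    chd := [(0, 1), (2, 1)]
    steps := [(0, 8), (0, 5), (0, 6), (1, 10), (2, 9), (3, 4), (3, 11), (3, 12), (3, 15)] }
  rep := [3, 2, 1, 0, 7, 13, 14, 16]

noncomputable def v2269 : Cov.CovD where
  P := 3
  N := 5
  pl := [0, 6, 7, 9]
  lev := [⟨[], [], [(1, 3)], [4], [(1, 3, [2]), (2, 1, [2])]⟩,
    ⟨[], [(0, 1), (0, 2), (0, 3)], [(1, 2)], [4], [(2, 1, [2]), (3, 2, [1, 3])]⟩,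
    ⟨[(0, 1)], [(0, 1), (1, 0), (1, 1), (1, 2)], [(0, 1)], [], [(2, 1, [2]), (4, 0, [])]⟩,
    ⟨[(0, 1), (1, 2)], [(1, 0), (1, 1), (1, 2), (2, 0), (2, 1)], [(0, 0)], [5, 6], [(4, 0,
      []), (5, 0, []), (8, 0, [])]⟩,
    ⟨[(0, 1), (1, 2), (1, 3), (2, 3)], [(1, 0), (1, 1), (1, 2), (3, 0), (3, 2)], [(0, 2)],
      [], [(3, 2, [1, 3]), (8, 0, [])]⟩,
    ⟨[(1, 3), (2, 3), (3, 4)], [(0, 3), (2, 0), (3, 0), (3, 3)], [(0, 0), (0, 3)], [], [(1,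
      3, [2]), (4, 0, []), (5, 0, [])]⟩,
    ⟨[(3, 5)], [(0, 3), (2, 0), (3, 0), (5, 0), (5, 3)], [(0, 3)], [7], [(1, 3, [2]), (4,
      0, [])]⟩]
  Ta := [((4, 2), 0, 1), ((4, 9), 0, 7), ((5, 1), 0, 3), ((5, 6), 0, 5), ((8, 3), 0, 2), ((8, 7),
    0, 6)]
  Tb := [((0, 1, 3), 4, 3, 2), ((1, 0, 2), 3, 4, 1), ((1, 0, 5), 3, 4, 0), ((1, 0, 9), 3, 4, 7),
    ((1, 2, 5), 3, 1, 0), ((1, 2, 9), 3, 1, 7), ((1, 5, 9), 3, 0, 7), ((2, 1, 4), 1, 3, 0),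
    ((3, 0, 8), 2, 4, 0), ((4, 2, 9), 0, 1, 7), ((5, 1, 6), 0, 3, 5), ((6, 5, 7), 5, 0, 6),
    ((7, 6, 8), 6, 5, 0), ((8, 3, 7), 0, 2, 6), ((9, 1, 4), 7, 3, 0)]
  Tc := [(2, 1, 3)]
  Td := [((1, 2), (2, 1), 3), ((1, 2), (2, 4), 0), ((2, 1), (3, 0), 4), ((2, 1), (3, 8), 0), ((2,
    3), (3, 0), 4), ((2, 3), (3, 8), 0), ((3, 2), (1, 0), 4), ((3, 2), (1, 2), 1), ((3, 2),
    (1, 5), 0), ((3, 2), (1, 9), 7)]
  G := [[0, 0xa84a8162a2482c62144641641a2cca64621641e4a28c6a8a84e2ce, 0,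
    0xe21e21a6c8e4e2486a8a6c1e8c2, 0xca61c6a1a6c8e48e48c6a2e48e415], [0, 0, 0,
    0x721d21d21e4b22721d28e8c2, 0xc81c81646488491162122128e4a22c88682e89142128142e81d], [0,
    0, 0x116411a81168e4116411a211c8e8c1, 0x12412461248c124128128e8c2,
    0x116211a211c2e481421168148e815]]

noncomputable def n2269 : Ent := ⟨e2269, noF, [], [], [(9, 16, [1580044410770988437309982408355971841652082177953823432505698402305, 0])]⟩

def c2269 : PLift (Cov.check n2269.C.D v2269 = true) := ⟨by decide +kernel⟩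

def b2269 : PLift (entF (fidx ts) 400 2269 n2269 = true) := ⟨by decide +kernel⟩

theorem g2269 : GoodF (fidx ts) 400 2269 := GoodF.ofV v2269 n2269 c2269.down b2269.down

/-- 4749454:1896/4 -/
noncomputable def e2270 : SCfg where
  D := {
    a := 7
    L := 10
    kp := 7
    inn := [(0, 1), (1, 0), (1, 2), (1, 3), (1, 4), (2, 1), (2, 3), (3, 1), (3, 2), (3, 4), (3, 5), (4,
      1), (4, 3), (5, 3), (5, 6), (6, 5)]
    mix := [(0, 0), (0, 1), (0, 2), (1, 0), (1, 2), (1, 3), (2, 2), (2, 4), (3, 4), (3, 5), (3, 6), (3,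
      7), (3, 8), (4, 3), (4, 8), (5, 4), (5, 5), (5, 9), (6, 2), (6, 4), (6, 9)]
    cl := [2, 5, 0, 1, 3, 3, 6, 7, 3, 4]
    chq := [(0, 1), (1, 0), (1, 5), (5, 1)]
    rng := [(0, 1), (0, 3), (1, 0), (1, 2), (2, 1), (2, 4), (2, 9), (3, 0), (3, 8), (4, 2), (5, 6), (5,
      9), (6, 5), (6, 7), (7, 6), (7, 8), (8, 3), (8, 7), (9, 2), (9, 5)]
    lev := [] }
  links := [[1, 7, 8, 9], [7, 0, 9, 2, 3, 4, 10], [3, 1, 9, 11], [4, 1, 2, 11, 5, 12, 13, 14, 15], [10,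
    1, 3, 15], [12, 3, 11, 6, 16], [16, 5, 11, 9]]
  P := {
    a := 7
    N := 17
    nb := [898, 1693, 2570, 63542, 33802, 71752, 68128, 1283, 641, 67911, 32914, 620, 73768, 20488,
      40968, 17432, 4704]
    tri := [(0, 1, 7), (0, 1, 9), (0, 7, 8), (0, 8, 9), (1, 2, 3), (1, 2, 9), (1, 3, 4), (1, 4, 10),
      (1, 7, 10), (2, 3, 11), (2, 9, 11), (3, 4, 15), (3, 5, 11), (3, 5, 12), (3, 12, 13), (3, 13,
      14), (3, 14, 15), (4, 10, 15), (5, 6, 11), (5, 6, 16), (5, 12, 16), (6, 9, 11), (6, 9, 16)]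
    fin := [0, 1, 2, 3, 3, 2, 2, 7, 0, 2, 1, 3, 3, 13, 14, 3, 16]
    chd := [(0, 1), (2, 1)]
    steps := [(0, 8), (1, 10), (2, 9), (2, 6), (3, 4), (3, 11), (2, 5), (3, 12), (3, 15)] }
  rep := [2, 1, 7, 3, 16, 0, 13, 14]

noncomputable def v2270 : Cov.CovD where
  P := 3
  N := 5
  pl := [0, 6, 7, 9]
  lev := [⟨[], [], [(0, 5)], [2], [(1, 5, [1]), (2, 0, [1])]⟩,
    ⟨[], [(0, 0), (0, 1), (0, 5)], [(0, 1)], [2], [(2, 0, [1]), (3, 1, [0, 5])]⟩,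
    ⟨[(0, 1)], [(0, 0), (1, 0), (1, 1), (1, 3)], [(0, 3)], [], [(2, 0, [1]), (4, 3, [])]⟩,
    ⟨[(0, 1), (1, 2)], [(1, 0), (1, 1), (1, 3), (2, 0), (2, 3)], [(3, 3)], [6, 7], [(4, 3,
      []), (5, 3, []), (8, 3, [])]⟩,
    ⟨[(0, 1), (1, 2), (1, 3), (2, 3)], [(1, 0), (1, 1), (1, 3), (3, 1), (3, 3)], [(1, 3)],
      [], [(3, 1, [0, 5]), (8, 3, [])]⟩,
    ⟨[(1, 3), (2, 3), (3, 4)], [(2, 3), (3, 3)], [(3, 3)], [4], [(4, 3, []), (5, 3, [])]⟩,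
    ⟨[(3, 5)], [(0, 0), (1, 0), (2, 0), (2, 3), (3, 3), (5, 0), (5, 3)], [(0, 3)], [4],
      [(2, 0, [1]), (4, 3, [])]⟩]
  Ta := [((4, 2), 3, 0), ((5, 6), 3, 6), ((5, 9), 3, 4), ((8, 3), 3, 1), ((8, 7), 3, 7)]
  Tb := [((0, 1, 3), 2, 5, 1), ((1, 0, 2), 5, 2, 0), ((2, 1, 4), 0, 5, 3), ((2, 1, 9), 0, 5, 4),
    ((2, 4, 9), 0, 3, 4), ((3, 0, 8), 1, 2, 3), ((5, 6, 9), 3, 6, 4), ((6, 5, 7), 6, 3, 7),
    ((7, 6, 8), 7, 6, 3), ((8, 3, 7), 3, 1, 7), ((9, 2, 5), 4, 0, 3)]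
  Tc := [(1, 0, 5)]
  Td := [((0, 1), (2, 1), 5), ((0, 1), (2, 4), 3), ((0, 1), (2, 9), 4), ((1, 0), (3, 0), 2), ((1,
    0), (3, 8), 3), ((1, 5), (3, 0), 2), ((1, 5), (3, 8), 3), ((5, 1), (1, 0), 2), ((5, 1),
    (1, 2), 0)]
  G := [[0, 0xe124e11243236e11c1898c1, 0x82871824b1842d1842e1f282,
    0x82871824b1842d82c38f2442871824b4842d4e2842e112cc, 0x4287182471842d1842d4f282], [0,
    0xc11c12611c12f241, 0x283124318a342834f482, 0x2831243846382438f842831243482cd12434f28c,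
    0x283424318a312834f482], [0, 0xa11c11a122181af481, 0x228718a31842e1b8c514682,
    0x2431483142cd1882e1f2484314444314631442e1b8cc, 0x428718c51442d1842e1f282]]

noncomputable def n2270 : Ent := ⟨e2270, noF, [], [], [(8, 16, [1580044410770988437309982408355971841652082177953823432505698402305, 0])]⟩

def c2270 : PLift (Cov.check n2270.C.D v2270 = true) := ⟨by decide +kernel⟩

def b2270 : PLift (entF (fidx ts) 400 2270 n2270 = true) := ⟨by decide +kernel⟩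

theorem g2270 : GoodF (fidx ts) 400 2270 := GoodF.ofV v2270 n2270 c2270.down b2270.down

/-- 4749454:1896 -/
noncomputable def e2271 : SCfg where
  D := {
    a := 7
    L := 11
    kp := 8
    inn := [(0, 1), (1, 0), (1, 2), (1, 3), (1, 4), (2, 1), (2, 3), (3, 1), (3, 2), (3, 4), (3, 5), (4,
      1), (4, 3), (5, 3), (5, 6), (6, 5)]
    mix := [(0, 0), (0, 1), (0, 2), (1, 0), (1, 2), (1, 3), (2, 2), (2, 4), (3, 4), (3, 5), (3, 6), (3,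
      7), (3, 8), (4, 3), (4, 8), (5, 4), (5, 5), (5, 9), (6, 4), (6, 9), (6, 10)]
    cl := [2, 5, 1, 3, 0, 0, 6, 7, 0, 4, 8]
    chq := [(1, 3), (3, 1), (3, 5), (5, 3)]
    rng := [(0, 1), (0, 3), (1, 0), (1, 2), (2, 1), (2, 4), (3, 0), (3, 8), (4, 2), (4, 10), (5, 6),
      (5, 9), (6, 5), (6, 7), (7, 6), (7, 8), (8, 3), (8, 7), (9, 5), (9, 10), (10, 4), (10, 9)]
    lev := [] }
  links := [[1, 7, 8, 9], [7, 0, 9, 2, 3, 4, 10], [3, 1, 9, 11], [4, 1, 2, 11, 5, 12, 13, 14, 15], [10,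
    1, 3, 15], [12, 3, 11, 6, 16], [16, 5, 11, 17]]
  P := {
    a := 7
    N := 18
    nb := [898, 1693, 2570, 63542, 33802, 71752, 198688, 1283, 641, 2311, 32914, 131692, 73768, 20488,
      40968, 17432, 135264, 67648]
    tri := [(0, 1, 7), (0, 1, 9), (0, 7, 8), (0, 8, 9), (1, 2, 3), (1, 2, 9), (1, 3, 4), (1, 4, 10),
      (1, 7, 10), (2, 3, 11), (2, 9, 11), (3, 4, 15), (3, 5, 11), (3, 5, 12), (3, 12, 13), (3, 13,
      14), (3, 14, 15), (4, 10, 15), (5, 6, 11), (5, 6, 16), (5, 12, 16), (6, 11, 17), (6, 16,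
      17)]
    fin := [0, 1, 2, 3, 3, 3, 3, 7, 0, 2, 1, 3, 3, 13, 14, 3, 16, 17]
    chd := [(0, 1), (2, 1)]
    steps := [(0, 8), (1, 10), (2, 9), (3, 4), (3, 5), (3, 6), (3, 11), (3, 12), (3, 15)] }
  rep := [3, 2, 7, 1, 16, 0, 13, 14, 17]

noncomputable def v2271 : Cov.CovD where
  P := 3
  N := 6
  pl := [0, 6, 7, 9, 10]
  lev := [⟨[], [], [(1, 5)], [2], [(1, 5, [3]), (2, 1, [3])]⟩,
    ⟨[], [(0, 1), (0, 3), (0, 5)], [(1, 3)], [2], [(2, 1, [3]), (3, 3, [1, 5])]⟩,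
    ⟨[(0, 1)], [(0, 1), (1, 0), (1, 1), (1, 3)], [(0, 1)], [], [(2, 1, [3]), (4, 0, [])]⟩,
    ⟨[(0, 1), (1, 2)], [(1, 0), (1, 1), (1, 3), (2, 0), (2, 1)], [(0, 0)], [6, 7], [(4, 0,
      []), (5, 0, []), (8, 0, [])]⟩,
    ⟨[(0, 1), (1, 2), (1, 3), (2, 3)], [(1, 0), (1, 1), (1, 3), (3, 0), (3, 3)], [(0, 3)],
      [], [(3, 3, [1, 5]), (8, 0, [])]⟩,
    ⟨[(1, 3), (2, 3), (3, 4)], [(2, 0), (3, 0)], [(0, 0)], [4], [(4, 0, []), (5, 0, [])]⟩,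
    ⟨[(3, 5)], [(2, 0), (3, 0), (5, 0)], [], [4, 8], [(4, 0, [])]⟩]
  Ta := [((4, 2), 0, 1), ((4, 10), 0, 8), ((5, 6), 0, 6), ((5, 9), 0, 4), ((8, 3), 0, 3), ((8,
    7), 0, 7)]
  Tb := [((0, 1, 3), 2, 5, 3), ((1, 0, 2), 5, 2, 1), ((2, 1, 4), 1, 5, 0), ((3, 0, 8), 3, 2, 0),
    ((4, 2, 10), 0, 1, 8), ((5, 6, 9), 0, 6, 4), ((6, 5, 7), 6, 0, 7), ((7, 6, 8), 7, 6, 0),
    ((8, 3, 7), 0, 3, 7), ((9, 5, 10), 4, 0, 8), ((10, 4, 9), 8, 0, 4)]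
  Tc := [(3, 1, 5)]
  Td := [((1, 3), (2, 1), 5), ((1, 3), (2, 4), 0), ((3, 1), (3, 0), 2), ((3, 1), (3, 8), 0), ((3,
    5), (3, 0), 2), ((3, 5), (3, 8), 0), ((5, 3), (1, 0), 2), ((5, 3), (1, 2), 1)]
  G := [[0xca61c6a1a6c1e84ca61c6a1a6c1e28c, 0xca61c6a1a6c1e84ca61c6a1a6c8e48c,
    0xca61c6a2a6c1e84ca62c6a2a6c1e48c, 0xca62c6a2a6c2e81ca62c6a1a6c1e48c,
    0xca62c6a2a6ca6c6e41ca62c6a2a6c8e819], [0, 0, 0xc16216a21da1e841a6216a11da1e48c,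
    0x1a62c1a216c2e411a621a62a1c2e81c, 0x1d6216a2c1a16cce811a62936259a8e819], [0, 0,
    0x116211a21164e84116211a211c8e48c, 0x11c211a211c2e41116211a21164e845,
    0x116211a2121814ee41116211a211c8e489]]

noncomputable def n2271 : Ent := ⟨e2271, noF, [], [], [(8, 17, [6903326391201334775872065844685381424292761054348340378595029938974721, 0]), (8, 16, [7334685537875745012586738086077695515070955365108989538292687702970369, 0]), (9, 17, [6903326391201334775872065844685381424292761054348340378595029938987009, 0])]⟩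

def c2271 : PLift (Cov.check n2271.C.D v2271 = true) := ⟨by decide +kernel⟩

def b2271 : PLift (entF (fidx ts) 400 2271 n2271 = true) := ⟨by decide +kernel⟩

theorem g2271 : GoodF (fidx ts) 400 2271 := GoodF.ofV v2271 n2271 c2271.down b2271.down

/-- 4749454:1897/1 -/
noncomputable def e2272 : SCfg where
  D := {
    a := 7
    L := 10
    kp := 7
    inn := [(0, 1), (1, 0), (1, 2), (1, 3), (1, 4), (2, 1), (2, 3), (3, 1), (3, 2), (3, 4), (3, 5), (4,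
      1), (4, 3), (5, 3), (5, 6), (6, 5)]
    mix := [(0, 0), (0, 1), (0, 2), (1, 0), (1, 2), (1, 3), (2, 2), (2, 4), (3, 4), (3, 5), (3, 6), (3,
      7), (3, 8), (4, 3), (4, 8), (5, 1), (5, 4), (5, 5), (6, 1), (6, 5), (6, 9)]
    cl := [2, 3, 1, 4, 0, 0, 5, 6, 0, 7]
    chq := [(1, 4), (3, 4), (4, 1), (4, 3)]
    rng := [(0, 1), (0, 3), (1, 0), (1, 2), (1, 4), (1, 9), (2, 1), (2, 4), (3, 0), (3, 8), (4, 1), (4,
      2), (5, 6), (5, 9), (6, 5), (6, 7), (7, 6), (7, 8), (8, 3), (8, 7), (9, 1), (9, 5)]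
    lev := [] }
  links := [[1, 7, 8, 9], [7, 0, 9, 2, 3, 4, 10], [3, 1, 9, 11], [4, 1, 2, 11, 5, 12, 13, 14, 15], [10,
    1, 3, 15], [12, 3, 11, 8, 6], [12, 5, 8, 16]]
  P := {
    a := 7
    N := 17
    nb := [898, 1693, 2570, 63542, 33802, 6472, 69920, 1283, 68321, 2311, 32914, 812, 73832, 20488,
      40968, 17432, 4416]
    tri := [(0, 1, 7), (0, 1, 9), (0, 7, 8), (0, 8, 9), (1, 2, 3), (1, 2, 9), (1, 3, 4), (1, 4, 10),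
      (1, 7, 10), (2, 3, 11), (2, 9, 11), (3, 4, 15), (3, 5, 11), (3, 5, 12), (3, 12, 13), (3, 13,
      14), (3, 14, 15), (4, 10, 15), (5, 6, 8), (5, 6, 12), (5, 8, 11), (6, 8, 16), (6, 12, 16)]
    fin := [0, 1, 2, 3, 3, 0, 0, 7, 0, 2, 1, 3, 3, 13, 14, 3, 16]
    chd := [(0, 1), (2, 1)]
    steps := [(0, 8), (0, 5), (0, 6), (1, 10), (2, 9), (3, 4), (3, 11), (3, 12), (3, 15)] }
  rep := [3, 2, 7, 0, 1, 13, 14, 16]

noncomputable def v2272 : Cov.CovD where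
  P := 3
  N := 5
  pl := [0, 6, 7, 9]
  lev := [⟨[], [], [(1, 3)], [2], [(1, 3, [4]), (2, 1, [4])]⟩,
    ⟨[], [(0, 1), (0, 3), (0, 4)], [(1, 4)], [2], [(2, 1, [4]), (3, 4, [1, 3])]⟩,
    ⟨[(0, 1)], [(0, 1), (1, 0), (1, 1), (1, 4)], [(0, 1)], [], [(2, 1, [4]), (4, 0, [])]⟩,
    ⟨[(0, 1), (1, 2)], [(1, 0), (1, 1), (1, 4), (2, 0), (2, 1)], [(0, 0)], [5, 6], [(4, 0,
      []), (5, 0, []), (8, 0, [])]⟩,
    ⟨[(0, 1), (1, 2), (1, 3), (2, 3)], [(1, 0), (1, 1), (1, 4), (3, 0), (3, 4)], [(0, 4)],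
      [], [(3, 4, [1, 3]), (8, 0, [])]⟩,
    ⟨[(1, 3), (2, 3), (3, 4)], [(0, 3), (2, 0), (3, 0), (3, 3)], [(0, 0), (0, 3)], [], [(1,
      3, [4]), (4, 0, []), (5, 0, [])]⟩,
    ⟨[(3, 5)], [(0, 3), (3, 0), (5, 0), (5, 3)], [(0, 3)], [7], [(1, 3, [4]), (5, 0, [])]⟩]
  Ta := [((4, 1), 0, 3), ((4, 2), 0, 1), ((5, 6), 0, 5), ((5, 9), 0, 7), ((8, 3), 0, 4), ((8, 7),
    0, 6)]
  Tb := [((0, 1, 3), 2, 3, 4), ((1, 0, 2), 3, 2, 1), ((1, 0, 4), 3, 2, 0), ((1, 0, 9), 3, 2, 7),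
    ((1, 2, 4), 3, 1, 0), ((1, 2, 9), 3, 1, 7), ((1, 4, 9), 3, 0, 7), ((2, 1, 4), 1, 3, 0),
    ((3, 0, 8), 4, 2, 0), ((4, 1, 2), 0, 3, 1), ((5, 6, 9), 0, 5, 7), ((6, 5, 7), 5, 0, 6),
    ((7, 6, 8), 6, 5, 0), ((8, 3, 7), 0, 4, 6), ((9, 1, 5), 7, 3, 0)]
  Tc := [(4, 1, 3)]
  Td := [((1, 4), (2, 1), 3), ((1, 4), (2, 4), 0), ((3, 4), (1, 0), 2), ((3, 4), (1, 2), 1), ((3,
    4), (1, 4), 0), ((3, 4), (1, 9), 7), ((4, 1), (3, 0), 2), ((4, 1), (3, 8), 0), ((4, 3),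
    (3, 0), 2), ((4, 3), (3, 8), 0)]
  G := [[0x11c1181181e4212112111a1e48a, 0x11c1181181e2414111a1141e48c,
    0x1161181181e8414111a2141e48c, 0x622622a82e41122122142e419,
    0xa22c82a8646e41142122148e419], [0, 0, 0xca61c2a1e81e84e41c6a2e41e18c,
    0xe22e22246a8ce411, 0xca62c6a2e4e8ce411], [0, 0, 0x11c2182184e1414211a21218ae48c,
    0x122122128e1122122182e8c1, 0x116211a211c8e411c2182182e491]]

noncomputable def n2272 : Ent := ⟨e2272, noF, [], [], []⟩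

def c2272 : PLift (Cov.check n2272.C.D v2272 = true) := ⟨by decide +kernel⟩

def b2272 : PLift (entF (fidx ts) 400 2272 n2272 = true) := ⟨by decide +kernel⟩

theorem g2272 : GoodF (fidx ts) 400 2272 := GoodF.ofV v2272 n2272 c2272.down b2272.down

/-- 4749454:1897/2 -/
noncomputable def e2273 : SCfg where
  D := {
    a := 7
    L := 10
    kp := 7
    inn := [(0, 1), (1, 0), (1, 2), (1, 3), (1, 4), (2, 1), (2, 3), (3, 1), (3, 2), (3, 4), (3, 5), (4,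
      1), (4, 3), (5, 3), (5, 6), (6, 5)]
    mix := [(0, 0), (0, 1), (0, 2), (1, 0), (1, 2), (1, 3), (2, 2), (2, 4), (3, 4), (3, 5), (3, 6), (3,
      7), (3, 8), (4, 3), (4, 8), (5, 4), (5, 5), (5, 9), (6, 1), (6, 5), (6, 9)]
    cl := [2, 4, 3, 1, 0, 0, 6, 7, 0, 5]
    chq := [(1, 3), (1, 4), (3, 1), (4, 1)]
    rng := [(0, 1), (0, 3), (1, 0), (1, 2), (1, 5), (1, 9), (2, 1), (2, 4), (3, 0), (3, 8), (4, 2), (4,
      9), (5, 1), (5, 6), (6, 5), (6, 7), (7, 6), (7, 8), (8, 3), (8, 7), (9, 1), (9, 4)]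
    lev := [] }
  links := [[1, 7, 8, 9], [7, 0, 9, 2, 3, 4, 10], [3, 1, 9, 11], [4, 1, 2, 11, 5, 12, 13, 14, 15], [10,
    1, 3, 15], [12, 3, 11, 16, 6], [12, 5, 16, 8]]
  P := {
    a := 7
    N := 17
    nb := [898, 1693, 2570, 63542, 33802, 71752, 69920, 1283, 70337, 2311, 32914, 66092, 8552, 20488,
      40968, 17432, 2400]
    tri := [(0, 1, 7), (0, 1, 9), (0, 7, 8), (0, 8, 9), (1, 2, 3), (1, 2, 9), (1, 3, 4), (1, 4, 10),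
      (1, 7, 10), (2, 3, 11), (2, 9, 11), (3, 4, 15), (3, 5, 11), (3, 5, 12), (3, 12, 13), (3, 13,
      14), (3, 14, 15), (4, 10, 15), (5, 6, 12), (5, 6, 16), (5, 11, 16), (6, 8, 12), (6, 8, 16)]
    fin := [0, 1, 2, 3, 3, 0, 0, 7, 0, 2, 1, 3, 3, 13, 14, 3, 16]
    chd := [(0, 1), (2, 1)]
    steps := [(0, 8), (0, 6), (0, 5), (1, 10), (2, 9), (3, 4), (3, 11), (3, 12), (3, 15)] }
  rep := [3, 1, 7, 2, 0, 16, 13, 14]

noncomputable def v2273 : Cov.CovD where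
  P := 3
  N := 5
  pl := [0, 6, 7, 9]
  lev := [⟨[], [], [(3, 4)], [2], [(1, 4, [1]), (2, 3, [1])]⟩,
    ⟨[], [(0, 1), (0, 3), (0, 4)], [(1, 3)], [2], [(2, 3, [1]), (3, 1, [3, 4])]⟩,
    ⟨[(0, 1)], [(0, 3), (1, 0), (1, 1), (1, 3)], [(0, 3)], [], [(2, 3, [1]), (4, 0, [])]⟩,
    ⟨[(0, 1), (1, 2)], [(1, 0), (1, 1), (1, 3), (2, 0), (2, 3)], [(0, 0)], [6, 7], [(4, 0,
      []), (5, 0, []), (8, 0, [])]⟩,
    ⟨[(0, 1), (1, 2), (1, 3), (2, 3)], [(1, 0), (1, 1), (1, 3), (3, 0), (3, 1)], [(0, 1)],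
      [], [(3, 1, [3, 4]), (8, 0, [])]⟩,
    ⟨[(1, 3), (2, 3), (3, 4)], [(2, 0), (3, 0)], [(0, 0)], [5], [(4, 0, []), (5, 0, [])]⟩,
    ⟨[(3, 5)], [(0, 4), (3, 0), (5, 0), (5, 4)], [(0, 4)], [5], [(1, 4, [1]), (5, 0, [])]⟩]
  Ta := [((4, 2), 0, 3), ((4, 9), 0, 5), ((5, 1), 0, 4), ((5, 6), 0, 6), ((8, 3), 0, 1), ((8, 7),
    0, 7)]
  Tb := [((0, 1, 3), 2, 4, 1), ((1, 0, 2), 4, 2, 3), ((1, 0, 5), 4, 2, 0), ((1, 0, 9), 4, 2, 5),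
    ((1, 2, 5), 4, 3, 0), ((1, 2, 9), 4, 3, 5), ((1, 5, 9), 4, 0, 5), ((2, 1, 4), 3, 4, 0),
    ((3, 0, 8), 1, 2, 0), ((4, 2, 9), 0, 3, 5), ((5, 1, 6), 0, 4, 6), ((6, 5, 7), 6, 0, 7),
    ((7, 6, 8), 7, 6, 0), ((8, 3, 7), 0, 1, 7), ((9, 1, 4), 5, 4, 0)]
  Tc := [(1, 3, 4)]
  Td := [((1, 3), (3, 0), 2), ((1, 3), (3, 8), 0), ((1, 4), (3, 0), 2), ((1, 4), (3, 8), 0), ((3,
    1), (2, 1), 4), ((3, 1), (2, 4), 0), ((4, 1), (1, 0), 2), ((4, 1), (1, 2), 3), ((4, 1),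
    (1, 5), 0), ((4, 1), (1, 9), 5)]
  G := [[0, 0, 0x1a6141a6416c4aa1a6116c1a16a146c2,
    0x12a481c462116188c126411a111a4e4812a412a421c8e21d, 0x11a13161611618a8316812c821c4e213],
    [0, 0, 0xca61c6a8a6c1e1ca68c6a1a6c1e1c2,
    0x826442a884a4e81826882a424c4e21c264c2a82ec8e21d, 0x4a644ea8a4c4eca64c6a8a6c8ec12], [0,
    0x116211c81164e1116411a81168e1c1, 0x116411a81164e1116811a811a4e1c2, 0x116812a412c4e211,
    0x11a82116411a412c4ea11]]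

noncomputable def n2273 : Ent := ⟨e2273, noF, [], [], []⟩

def c2273 : PLift (Cov.check n2273.C.D v2273 = true) := ⟨by decide +kernel⟩

def b2273 : PLift (entF (fidx ts) 400 2273 n2273 = true) := ⟨by decide +kernel⟩

theorem g2273 : GoodF (fidx ts) 400 2273 := GoodF.ofV v2273 n2273 c2273.down b2273.down

/-- 4749454:1897 -/
noncomputable def e2274 : SCfg where
  D := {
    a := 7
    L := 11
    kp := 8
    inn := [(0, 1), (1, 0), (1, 2), (1, 3), (1, 4), (2, 1), (2, 3), (3, 1), (3, 2), (3, 4), (3, 5), (4,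
      1), (4, 3), (5, 3), (5, 6), (6, 5)]
    mix := [(0, 0), (0, 1), (0, 2), (1, 0), (1, 2), (1, 3), (2, 2), (2, 4), (3, 4), (3, 5), (3, 6), (3,
      7), (3, 8), (4, 3), (4, 8), (5, 4), (5, 5), (5, 9), (6, 5), (6, 9), (6, 10)]
    cl := [2, 5, 1, 3, 0, 0, 6, 7, 0, 4, 8]
    chq := [(1, 3), (3, 1), (3, 5), (5, 3)]
    rng := [(0, 1), (0, 3), (1, 0), (1, 2), (2, 1), (2, 4), (3, 0), (3, 8), (4, 2), (4, 9), (5, 6), (5,
      10), (6, 5), (6, 7), (7, 6), (7, 8), (8, 3), (8, 7), (9, 4), (9, 10), (10, 5), (10, 9)]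
    lev := [] }
  links := [[1, 7, 8, 9], [7, 0, 9, 2, 3, 4, 10], [3, 1, 9, 11], [4, 1, 2, 11, 5, 12, 13, 14, 15], [10,
    1, 3, 15], [12, 3, 11, 16, 6], [12, 5, 16, 17]]
  P := {
    a := 7
    N := 18
    nb := [898, 1693, 2570, 63542, 33802, 71752, 200736, 1283, 641, 2311, 32914, 66092, 139368, 20488,
      40968, 17432, 133216, 69696]
    tri := [(0, 1, 7), (0, 1, 9), (0, 7, 8), (0, 8, 9), (1, 2, 3), (1, 2, 9), (1, 3, 4), (1, 4, 10),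
      (1, 7, 10), (2, 3, 11), (2, 9, 11), (3, 4, 15), (3, 5, 11), (3, 5, 12), (3, 12, 13), (3, 13,
      14), (3, 14, 15), (4, 10, 15), (5, 6, 12), (5, 6, 16), (5, 11, 16), (6, 12, 17), (6, 16,
      17)]
    fin := [0, 1, 2, 3, 3, 3, 3, 7, 0, 2, 1, 3, 3, 13, 14, 3, 16, 17]
    chd := [(0, 1), (2, 1)]
    steps := [(0, 8), (1, 10), (2, 9), (3, 4), (3, 5), (3, 6), (3, 11), (3, 12), (3, 15)] }
  rep := [3, 2, 7, 1, 16, 0, 13, 14, 17]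

noncomputable def v2274 : Cov.CovD where
  P := 3
  N := 6
  pl := [0, 6, 7, 9, 10]
  lev := [⟨[], [], [(1, 5)], [2], [(1, 5, [3]), (2, 1, [3])]⟩,
    ⟨[], [(0, 1), (0, 3), (0, 5)], [(1, 3)], [2], [(2, 1, [3]), (3, 3, [1, 5])]⟩,
    ⟨[(0, 1)], [(0, 1), (1, 0), (1, 1), (1, 3)], [(0, 1)], [], [(2, 1, [3]), (4, 0, [])]⟩,
    ⟨[(0, 1), (1, 2)], [(1, 0), (1, 1), (1, 3), (2, 0), (2, 1)], [(0, 0)], [6, 7], [(4, 0,
      []), (5, 0, []), (8, 0, [])]⟩,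
    ⟨[(0, 1), (1, 2), (1, 3), (2, 3)], [(1, 0), (1, 1), (1, 3), (3, 0), (3, 3)], [(0, 3)],
      [], [(3, 3, [1, 5]), (8, 0, [])]⟩,
    ⟨[(1, 3), (2, 3), (3, 4)], [(2, 0), (3, 0)], [(0, 0)], [4], [(4, 0, []), (5, 0, [])]⟩,
    ⟨[(3, 5)], [(3, 0), (5, 0)], [], [4, 8], [(5, 0, [])]⟩]
  Ta := [((4, 2), 0, 1), ((4, 9), 0, 4), ((5, 6), 0, 6), ((5, 10), 0, 8), ((8, 3), 0, 3), ((8,
    7), 0, 7)]
  Tb := [((0, 1, 3), 2, 5, 3), ((1, 0, 2), 5, 2, 1), ((2, 1, 4), 1, 5, 0), ((3, 0, 8), 3, 2, 0),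
    ((4, 2, 9), 0, 1, 4), ((5, 6, 10), 0, 6, 8), ((6, 5, 7), 6, 0, 7), ((7, 6, 8), 7, 6, 0),
    ((8, 3, 7), 0, 3, 7), ((9, 4, 10), 4, 0, 8), ((10, 5, 9), 8, 0, 4)]
  Tc := [(3, 1, 5)]
  Td := [((1, 3), (2, 1), 5), ((1, 3), (2, 4), 0), ((3, 1), (3, 0), 2), ((3, 1), (3, 8), 0), ((3,
    5), (3, 0), 2), ((3, 5), (3, 8), 0), ((5, 3), (1, 0), 2), ((5, 3), (1, 2), 1)]
  G := [[0x11a111a111c1e24116111c111c1e28c, 0x116111a111c1e84116111a111c1e48c,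
    0x1a6293a23961e845961c1a216c1e48c, 0xc162c6a2a1c2e411a62a1c216c2e81c,
    0xc1629562b1616c6e811a62c1a2c1a1e489], [0, 0, 0xca61c6a1a6c1e84ca62c6a1a6c1e18c,
    0xca62c6a2a6c2e41ca62c6a2a6c8e41c, 0xca62c6a2a6ca6cae81ca62c6a2a6c8e819], [0, 0,
    0x116211a211a4e841162116211a8e18c, 0x116211a211c2e841162116211c2e18c,
    0x116211c2121418ee81116211c211c8e189]]

noncomputable def n2274 : Ent := ⟨e2274, noF, [], [], [(8, 16, [7334685537875745012586738086077695515070955365108989538292687702982657, 0]), (8, 17, [6903326391201334775872065844685381424292761054348340378595029938999297, 0])]⟩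

def c2274 : PLift (Cov.check n2274.C.D v2274 = true) := ⟨by decide +kernel⟩

def b2274 : PLift (entF (fidx ts) 400 2274 n2274 = true) := ⟨by decide +kernel⟩

theorem g2274 : GoodF (fidx ts) 400 2274 := GoodF.ofV v2274 n2274 c2274.down b2274.down

/-- 4586474:1898/1 -/
noncomputable def e2275 : SCfg where
  D := {
    a := 7
    L := 10
    kp := 7
    inn := [(0, 1), (0, 2), (0, 3), (1, 0), (1, 2), (2, 0), (2, 1), (2, 3), (2, 4), (2, 5), (3, 0), (3,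
      2), (3, 5), (4, 2), (5, 2), (5, 3), (5, 6), (6, 5)]
    mix := [(0, 0), (1, 0), (1, 1), (1, 2), (2, 2), (2, 3), (2, 4), (3, 0), (3, 5), (3, 6), (4, 3), (4,
      4), (4, 7), (5, 4), (5, 5), (5, 8), (5, 9), (6, 1), (6, 8), (6, 9)]
    cl := [1, 4, 0, 2, 0, 3, 6, 7, 3, 5]
    chq := [(0, 1), (0, 6), (1, 0), (6, 0)]
    rng := [(0, 1), (0, 6), (1, 0), (1, 2), (1, 8), (1, 9), (2, 1), (2, 3), (3, 2), (3, 7), (4, 7), (4,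
      8), (5, 6), (5, 9), (6, 0), (6, 5), (7, 3), (7, 4), (8, 1), (8, 4), (9, 1), (9, 5)]
    lev := [] }
  links := [[1, 2, 3, 7], [2, 0, 7, 8, 9], [3, 0, 1, 9, 10, 4, 11, 5], [7, 0, 2, 5, 12, 13], [11, 2, 10,
    14], [12, 3, 2, 11, 15, 6, 16], [16, 5, 15, 8]]
  P := {
    a := 7
    N := 17
    nb := [142, 901, 3643, 12453, 19460, 104524, 98592, 8459, 99010, 1286, 16916, 49204, 73768, 4232,
      3088, 2400, 4448]
    tri := [(0, 1, 2), (0, 1, 7), (0, 2, 3), (0, 3, 7), (1, 2, 9), (1, 7, 8), (1, 8, 9), (2, 3, 5), (2,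
      4, 10), (2, 4, 11), (2, 5, 11), (2, 9, 10), (3, 5, 12), (3, 7, 13), (3, 12, 13), (4, 10,
      14), (4, 11, 14), (5, 6, 15), (5, 6, 16), (5, 11, 15), (5, 12, 16), (6, 8, 15), (6, 8, 16)]
    fin := [0, 0, 2, 2, 2, 5, 6, 0, 6, 2, 10, 2, 5, 13, 14, 5, 16]
    chd := [(0, 2), (2, 13)]
    steps := [(0, 1), (0, 7), (2, 3), (2, 4), (2, 9), (2, 11), (5, 15), (5, 12), (6, 8)] }
  rep := [2, 0, 10, 5, 6, 16, 13, 14]

noncomputable def v2275 : Cov.CovD where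
  P := 3
  N := 5
  pl := [1, 3, 7, 9]
  lev := [⟨[], [], [], [], [(0, 1, [0])]⟩,
    ⟨[], [(0, 0), (0, 1)], [(0, 1)], [4], [(0, 1, [0]), (2, 0, [1, 6])]⟩,
    ⟨[(0, 1)], [(0, 0), (0, 1), (1, 0), (1, 1)], [(0, 0)], [2], [(2, 0, [1, 6]), (4, 0, [1,
      6])]⟩,
    ⟨[(0, 1), (0, 2), (1, 2)], [(0, 1), (0, 3), (0, 6), (1, 1), (2, 0), (2, 1), (2, 3), (2,
      6)], [(1, 3), (1, 6), (3, 6)], [], [(0, 1, [0]), (5, 3, []), (6, 6, [0])]⟩,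
    ⟨[(0, 2), (1, 2), (2, 3)], [(2, 0)], [], [2, 7], [(4, 0, [1, 6])]⟩,
    ⟨[(0, 2), (0, 3), (1, 2), (2, 3), (2, 4)], [(2, 0), (2, 3), (3, 0), (3, 1), (3, 3), (3,
      6), (4, 0)], [(0, 3), (3, 3)], [5], [(4, 0, [1, 6]), (5, 3, []), (8, 3, [])]⟩,
    ⟨[(2, 5), (3, 5)], [(5, 0), (5, 3)], [], [4, 5], [(8, 3, [])]⟩]
  Ta := [((2, 1), 0, 4), ((2, 3), 0, 2), ((4, 7), 0, 7), ((4, 8), 0, 3), ((5, 6), 3, 6), ((5, 9),
    3, 5), ((8, 1), 3, 4), ((8, 4), 3, 0)]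
  Tb := [((0, 1, 6), 1, 4, 6), ((1, 0, 2), 4, 1, 0), ((1, 0, 8), 4, 1, 3), ((1, 0, 9), 4, 1, 5),
    ((1, 2, 8), 4, 0, 3), ((1, 2, 9), 4, 0, 5), ((1, 8, 9), 4, 3, 5), ((2, 1, 3), 0, 4, 2),
    ((3, 2, 7), 2, 0, 7), ((4, 7, 8), 0, 7, 3), ((5, 6, 9), 3, 6, 5), ((6, 0, 5), 6, 1, 3),
    ((7, 3, 4), 7, 2, 0), ((8, 1, 4), 3, 4, 0), ((9, 1, 5), 5, 4, 3)]
  Tc := [(0, 1, 6)]
  Td := [((0, 1), (2, 1), 4), ((0, 1), (2, 3), 2), ((0, 1), (4, 7), 7), ((0, 1), (4, 8), 3), ((0,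
    6), (2, 1), 4), ((0, 6), (2, 3), 2), ((0, 6), (4, 7), 7), ((0, 6), (4, 8), 3), ((1, 0),
    (0, 1), 4), ((1, 0), (0, 6), 6), ((6, 0), (6, 0), 1), ((6, 0), (6, 5), 3)]
  G := [[0, 0x14ce118132e11462, 0x8a1e812ea1442141e51ce12c8, 0xa26118811c541e118c4,
    0x81ce112142e118c4], [0, 0x815e114512e114a8, 0x831e831ec12142e142e618c4,
    0x141183a11c142e118c4, 0x831e112142e118c4], [0, 0x82611441a11421c114e8, 0,
    0x1441319e39ac1c18, 0x9162131ce68a1a18], [0, 0x813e114142e118c2, 0, 0x5361dbec19881c14,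
    0x3221b71e95ca1a14]]

noncomputable def n2275 : Ent := ⟨e2275, noF, [], [], []⟩

def c2275 : PLift (Cov.check n2275.C.D v2275 = true) := ⟨by decide +kernel⟩

def b2275 : PLift (entF (fidx ts) 400 2275 n2275 = true) := ⟨by decide +kernel⟩

theorem g2275 : GoodF (fidx ts) 400 2275 := GoodF.ofV v2275 n2275 c2275.down b2275.down

/-- 4586474:1898 -/
noncomputable def e2276 : SCfg where
  D := {
    a := 7
    L := 11
    kp := 8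
    inn := [(0, 1), (0, 2), (0, 3), (1, 0), (1, 2), (2, 0), (2, 1), (2, 3), (2, 4), (2, 5), (3, 0), (3,
      2), (3, 5), (4, 2), (5, 2), (5, 3), (5, 6), (6, 5)]
    mix := [(0, 0), (1, 0), (1, 1), (1, 2), (2, 2), (2, 3), (2, 4), (3, 0), (3, 5), (3, 6), (4, 3), (4,
      4), (4, 7), (5, 4), (5, 5), (5, 8), (5, 9), (6, 8), (6, 9), (6, 10)]
    cl := [1, 6, 0, 2, 0, 3, 5, 7, 3, 4, 8]
    chq := [(0, 1), (0, 5), (1, 0), (5, 0)]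
    rng := [(0, 1), (0, 6), (1, 0), (1, 2), (2, 1), (2, 3), (3, 2), (3, 7), (4, 7), (4, 8), (5, 6), (5,
      9), (6, 0), (6, 5), (7, 3), (7, 4), (8, 4), (8, 10), (9, 5), (9, 10), (10, 8), (10, 9)]
    lev := [] }
  links := [[1, 2, 3, 7], [2, 0, 7, 8, 9], [3, 0, 1, 9, 10, 4, 11, 5], [7, 0, 2, 5, 12, 13], [11, 2, 10,
    14], [12, 3, 2, 11, 15, 6, 16], [16, 5, 15, 17]]
  P := {
    a := 7
    N := 18
    nb := [142, 901, 3643, 12453, 19460, 104524, 229408, 8459, 642, 1286, 16916, 49204, 73768, 4232,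
      3088, 133216, 135264, 98368]
    tri := [(0, 1, 2), (0, 1, 7), (0, 2, 3), (0, 3, 7), (1, 2, 9), (1, 7, 8), (1, 8, 9), (2, 3, 5), (2,
      4, 10), (2, 4, 11), (2, 5, 11), (2, 9, 10), (3, 5, 12), (3, 7, 13), (3, 12, 13), (4, 10,
      14), (4, 11, 14), (5, 6, 15), (5, 6, 16), (5, 11, 15), (5, 12, 16), (6, 15, 17), (6, 16,
      17)]
    fin := [0, 0, 2, 2, 2, 5, 5, 0, 8, 2, 10, 2, 5, 13, 14, 5, 16, 17]
    chd := [(0, 2), (2, 13)]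
    steps := [(0, 1), (0, 7), (2, 3), (2, 4), (2, 9), (2, 11), (5, 6), (5, 15), (5, 12)] }
  rep := [2, 0, 10, 5, 16, 13, 8, 14, 17]

noncomputable def v2276 : Cov.CovD where
  P := 3
  N := 6
  pl := [1, 3, 7, 9, 10]
  lev := [⟨[], [], [], [], [(0, 1, [0])]⟩,
    ⟨[], [(0, 0), (0, 1)], [(0, 1)], [6], [(0, 1, [0]), (2, 0, [1, 5])]⟩,
    ⟨[(0, 1)], [(0, 0), (0, 1), (1, 0), (1, 1)], [(0, 0)], [2], [(2, 0, [1, 5]), (4, 0, [1,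
      5])]⟩,
    ⟨[(0, 1), (0, 2), (1, 2)], [(0, 1), (0, 3), (0, 5), (1, 1), (2, 0), (2, 1), (2, 3), (2,
      5)], [(1, 3), (1, 5), (3, 5)], [], [(0, 1, [0]), (5, 3, []), (6, 5, [0])]⟩,
    ⟨[(0, 2), (1, 2), (2, 3)], [(2, 0)], [], [2, 7], [(4, 0, [1, 5])]⟩,
    ⟨[(0, 2), (0, 3), (1, 2), (2, 3), (2, 4)], [(2, 0), (2, 3), (3, 0), (3, 1), (3, 3), (3,
      5), (4, 0)], [(0, 3), (3, 3)], [4], [(4, 0, [1, 5]), (5, 3, []), (8, 3, [])]⟩,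
    ⟨[(2, 5), (3, 5)], [(5, 0), (5, 3)], [], [4, 8], [(8, 3, [])]⟩]
  Ta := [((2, 1), 0, 6), ((2, 3), 0, 2), ((4, 7), 0, 7), ((4, 8), 0, 3), ((5, 6), 3, 5), ((5, 9),
    3, 4), ((8, 4), 3, 0), ((8, 10), 3, 8)]
  Tb := [((0, 1, 6), 1, 6, 5), ((1, 0, 2), 6, 1, 0), ((2, 1, 3), 0, 6, 2), ((3, 2, 7), 2, 0, 7),
    ((4, 7, 8), 0, 7, 3), ((5, 6, 9), 3, 5, 4), ((6, 0, 5), 5, 1, 3), ((7, 3, 4), 7, 2, 0),
    ((8, 4, 10), 3, 0, 8), ((9, 5, 10), 4, 3, 8), ((10, 8, 9), 8, 3, 4)]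
  Tc := [(0, 1, 5)]
  Td := [((0, 1), (2, 1), 6), ((0, 1), (2, 3), 2), ((0, 1), (4, 7), 7), ((0, 1), (4, 8), 3), ((0,
    5), (2, 1), 6), ((0, 5), (2, 3), 2), ((0, 5), (4, 7), 7), ((0, 5), (4, 8), 3), ((1, 0),
    (0, 1), 6), ((1, 0), (0, 6), 5), ((5, 0), (6, 0), 1), ((5, 0), (6, 5), 3)]
  G := [[0, 0x9ace114653e118a2, 0x95ceac668e12536653e68e18c4, 0x541193a11c653e118c4,
    0x65ce1126a3e118c4], [0, 0x536119811c536119811ca4, 0x32326195c95c61654546193a93aa1cc1,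
    0x93a114541193a11cc541188c, 0x536119811a2211951e11ac4], [0, 0x65ce1186a3e11462, 0,
    0xa366a3ec16881c14, 0xc2219ace9aca1a14], [0, 0x536119811c541193a11ca4, 0,
    0x93a41415454c193a81c1c, 0x536536a19898a1a14]]

noncomputable def n2276 : Ent := ⟨e2276, noF, [], [], [(8, 17, [6903326391201334775872065844685381424292761054348340378595029939007489, 0])]⟩

def c2276 : PLift (Cov.check n2276.C.D v2276 = true) := ⟨by decide +kernel⟩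

def b2276 : PLift (entF (fidx ts) 400 2276 n2276 = true) := ⟨by decide +kernel⟩

theorem g2276 : GoodF (fidx ts) 400 2276 := GoodF.ofV v2276 n2276 c2276.down b2276.down

/-- 4749454:1899/1 -/
noncomputable def e2277 : SCfg where
  D := {
    a := 7
    L := 10
    kp := 7
    inn := [(0, 1), (1, 0), (1, 2), (1, 3), (1, 4), (2, 1), (2, 3), (3, 1), (3, 2), (3, 4), (3, 5), (4,
      1), (4, 3), (5, 3), (5, 6), (6, 5)]
    mix := [(0, 0), (0, 1), (0, 2), (1, 0), (1, 2), (1, 3), (2, 2), (2, 4), (3, 4), (3, 5), (3, 6), (3,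
      7), (3, 8), (4, 3), (4, 8), (5, 5), (5, 6), (5, 9), (6, 1), (6, 5), (6, 9)]
    cl := [5, 4, 1, 2, 0, 3, 3, 7, 0, 6]
    chq := [(1, 2), (2, 1), (2, 4), (4, 2)]
    rng := [(0, 1), (0, 3), (1, 0), (1, 2), (1, 5), (1, 9), (2, 1), (2, 4), (3, 0), (3, 8), (4, 2), (4,
      5), (5, 1), (5, 4), (6, 7), (6, 9), (7, 6), (7, 8), (8, 3), (8, 7), (9, 1), (9, 6)]
    lev := [] }
  links := [[1, 7, 8, 9], [7, 0, 9, 2, 3, 4, 10], [3, 1, 9, 11], [4, 1, 2, 11, 12, 5, 13, 14, 15], [10,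
    1, 3, 15], [13, 3, 12, 6, 16], [16, 5, 12, 8]]
  P := {
    a := 7
    N := 17
    nb := [898, 1693, 2570, 63542, 33802, 77896, 69920, 1283, 70337, 2311, 32914, 4620, 2408, 81960,
      40968, 17432, 8544]
    tri := [(0, 1, 7), (0, 1, 9), (0, 7, 8), (0, 8, 9), (1, 2, 3), (1, 2, 9), (1, 3, 4), (1, 4, 10),
      (1, 7, 10), (2, 3, 11), (2, 9, 11), (3, 4, 15), (3, 5, 12), (3, 5, 13), (3, 11, 12), (3, 13,
      14), (3, 14, 15), (4, 10, 15), (5, 6, 12), (5, 6, 16), (5, 13, 16), (6, 8, 12), (6, 8, 16)]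
    fin := [0, 1, 2, 3, 3, 5, 0, 7, 0, 2, 1, 3, 5, 5, 14, 3, 16]
    chd := [(0, 1), (2, 1)]
    steps := [(0, 8), (0, 6), (1, 10), (2, 9), (3, 4), (3, 11), (3, 15), (5, 12), (5, 13)] }
  rep := [3, 2, 1, 5, 0, 7, 16, 14]

noncomputable def v2277 : Cov.CovD where
  P := 3
  N := 5
  pl := [0, 7, 9]
  lev := [⟨[], [], [(1, 4)], [5], [(1, 4, [2]), (2, 1, [2])]⟩,
    ⟨[], [(0, 1), (0, 2), (0, 4)], [(1, 2)], [5], [(2, 1, [2]), (3, 2, [1, 4])]⟩,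
    ⟨[(0, 1)], [(0, 1), (1, 0), (1, 1), (1, 2)], [(0, 1)], [], [(2, 1, [2]), (4, 0, [])]⟩,
    ⟨[(0, 1), (1, 2)], [(1, 0), (1, 1), (1, 2), (1, 3), (2, 0), (2, 1), (2, 3)], [(0, 0),
      (0, 3), (3, 3)], [7], [(4, 0, []), (5, 3, []), (6, 3, []), (8, 0, [])]⟩,
    ⟨[(0, 1), (1, 2), (1, 3), (2, 3)], [(1, 0), (1, 1), (1, 2), (3, 0), (3, 2), (3, 3)],
      [(0, 2)], [], [(3, 2, [1, 4]), (8, 0, [])]⟩,
    ⟨[(1, 3), (2, 3), (3, 4)], [(3, 0), (3, 3)], [(3, 3)], [6], [(5, 3, []), (6, 3, [])]⟩,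
    ⟨[(3, 5)], [(0, 4), (3, 3), (5, 3), (5, 4)], [(3, 4)], [6], [(1, 4, [2]), (5, 3, [])]⟩]
  Ta := [((4, 2), 0, 1), ((4, 5), 0, 3), ((5, 1), 3, 4), ((5, 4), 3, 0), ((6, 7), 3, 7), ((6, 9),
    3, 6), ((8, 3), 0, 2), ((8, 7), 0, 7)]
  Tb := [((0, 1, 3), 5, 4, 2), ((1, 0, 2), 4, 5, 1), ((1, 0, 5), 4, 5, 3), ((1, 0, 9), 4, 5, 6),
    ((1, 2, 5), 4, 1, 3), ((1, 2, 9), 4, 1, 6), ((1, 5, 9), 4, 3, 6), ((2, 1, 4), 1, 4, 0),
    ((3, 0, 8), 2, 5, 0), ((4, 2, 5), 0, 1, 3), ((5, 1, 4), 3, 4, 0), ((6, 7, 9), 3, 7, 6),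
    ((7, 6, 8), 7, 3, 0), ((8, 3, 7), 0, 2, 7), ((9, 1, 6), 6, 4, 3)]
  Tc := [(2, 1, 4)]
  Td := [((1, 2), (2, 1), 4), ((1, 2), (2, 4), 0), ((2, 1), (3, 0), 5), ((2, 1), (3, 8), 0), ((2,
    4), (3, 0), 5), ((2, 4), (3, 8), 0), ((4, 2), (1, 0), 5), ((4, 2), (1, 2), 1), ((4, 2),
    (1, 5), 3), ((4, 2), (1, 9), 6)]
  G := [[0, 0x88171821b1821d1e24441b8446191241d1a2cca174c61b4a61d1e288171c61b1821d8e8ce, 0,
    0xc2972c25b826bd4e4c2974c25b2a27d8e492,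
    0x864b2ce316442872889ca971421b8241d1e442878864b2826d2e49ca172421b8241d2e41d], [0,
    0x18612215146219184c419141a864249182c2417421912194e48154281b8c131e8ce, 0,
    0xa652846716a26718c482d8c938625928c92,
    0x48cb24831644292849aa67224984131e4a8528438624928c91148a21984138e41d], [0, 0,
    0xca174c61b8a61d4e4ca178c61b8a61d4e1c1, 0xc2974c25b2a27d8e4c2974c25b8a63d4e8c2,
    0x824b2842d2614a872889ca972441b2221d2e44a872824b2862d8e896192441b2241d8e41d], [0, 0,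
    0xa152c1346241728c281b246192c138acc1, 0x3122952c538e1729284682225b8c534e4d2,
    0x8c5248cd2612a928492a772219841a8e144672a8588438e892417251c82192e81d]]

noncomputable def n2277 : Ent := ⟨e2277, noF, [], [], []⟩

def c2277 : PLift (Cov.check n2277.C.D v2277 = true) := ⟨by decide +kernel⟩

def b2277 : PLift (entF (fidx ts) 400 2277 n2277 = true) := ⟨by decide +kernel⟩

theorem g2277 : GoodF (fidx ts) 400 2277 := GoodF.ofV v2277 n2277 c2277.down b2277.down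

/-- 4749454:1899/2 -/
noncomputable def e2278 : SCfg where
  D := {
    a := 7
    L := 10
    kp := 7
    inn := [(0, 1), (1, 0), (1, 2), (1, 3), (1, 4), (2, 1), (2, 3), (3, 1), (3, 2), (3, 4), (3, 5), (4,
      1), (4, 3), (5, 3), (5, 6), (6, 5)]
    mix := [(0, 0), (0, 1), (0, 2), (1, 0), (1, 2), (1, 3), (2, 2), (2, 4), (3, 4), (3, 5), (3, 6), (3,
      7), (3, 8), (4, 3), (4, 8), (5, 1), (5, 5), (5, 6), (6, 1), (6, 5), (6, 9)]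
    cl := [5, 1, 3, 4, 0, 2, 2, 6, 0, 7]
    chq := [(0, 1), (1, 0), (1, 4), (4, 1)]
    rng := [(0, 1), (0, 3), (1, 0), (1, 2), (1, 6), (1, 9), (2, 1), (2, 4), (3, 0), (3, 8), (4, 2), (4,
      5), (5, 4), (5, 9), (6, 1), (6, 7), (7, 6), (7, 8), (8, 3), (8, 7), (9, 1), (9, 5)]
    lev := [] }
  links := [[1, 7, 8, 9], [7, 0, 9, 2, 3, 4, 10], [3, 1, 9, 11], [4, 1, 2, 11, 12, 5, 13, 14, 15], [10,
    1, 3, 15], [13, 3, 12, 6, 8], [8, 5, 12, 16]]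
  P := {
    a := 7
    N := 17
    nb := [898, 1693, 2570, 63542, 33802, 12616, 69920, 1283, 74465, 2311, 32914, 4620, 67688, 16680,
      40968, 17432, 4416]
    tri := [(0, 1, 7), (0, 1, 9), (0, 7, 8), (0, 8, 9), (1, 2, 3), (1, 2, 9), (1, 3, 4), (1, 4, 10),
      (1, 7, 10), (2, 3, 11), (2, 9, 11), (3, 4, 15), (3, 5, 12), (3, 5, 13), (3, 11, 12), (3, 13,
      14), (3, 14, 15), (4, 10, 15), (5, 6, 8), (5, 6, 12), (5, 8, 13), (6, 8, 16), (6, 12, 16)]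
    fin := [0, 0, 0, 3, 0, 5, 0, 7, 0, 9, 10, 3, 5, 5, 14, 3, 16]
    chd := [(0, 3), (0, 10)]
    steps := [(0, 1), (0, 2), (0, 4), (0, 8), (0, 6), (3, 11), (3, 15), (5, 12), (5, 13)] }
  rep := [3, 0, 5, 9, 10, 7, 14, 16]

noncomputable def v2278 : Cov.CovD where
  P := 3
  N := 5
  pl := [0, 2, 7, 9]
  lev := [⟨[], [], [], [3, 5], [(1, 1, [0, 4])]⟩,
    ⟨[], [(0, 1), (0, 4)], [], [3, 5], [(3, 4, [1])]⟩,
    ⟨[(0, 1)], [(1, 0), (1, 4)], [], [3], [(4, 0, [1])]⟩,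
    ⟨[(0, 1), (1, 2)], [(1, 0), (1, 2), (1, 4), (2, 0), (2, 2)], [(0, 0), (0, 2), (2, 2)],
      [6], [(4, 0, [1]), (5, 2, []), (6, 2, []), (8, 0, [1])]⟩,
    ⟨[(0, 1), (1, 2), (1, 3), (2, 3)], [(1, 0), (1, 4), (3, 0), (3, 2), (3, 4)], [(0, 4)],
      [], [(3, 4, [1]), (8, 0, [1])]⟩,
    ⟨[(1, 3), (2, 3), (3, 4)], [(0, 1), (3, 0), (3, 1), (3, 2)], [(1, 2), (2, 2)], [], [(1,
      1, [0, 4]), (5, 2, []), (6, 2, [])]⟩,
    ⟨[(3, 5)], [(0, 1), (3, 2), (5, 1), (5, 2)], [(1, 2)], [7], [(1, 1, [0, 4]), (5, 2,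
      [])]⟩]
  Ta := [((4, 2), 0, 3), ((4, 5), 0, 2), ((5, 4), 2, 0), ((5, 9), 2, 7), ((6, 1), 2, 1), ((6, 7),
    2, 6), ((8, 3), 0, 4), ((8, 7), 0, 6)]
  Tb := [((0, 1, 3), 5, 1, 4), ((1, 0, 2), 1, 5, 3), ((1, 0, 6), 1, 5, 2), ((1, 0, 9), 1, 5, 7),
    ((1, 2, 6), 1, 3, 2), ((1, 2, 9), 1, 3, 7), ((1, 6, 9), 1, 2, 7), ((2, 1, 4), 3, 1, 0),
    ((3, 0, 8), 4, 5, 0), ((4, 2, 5), 0, 3, 2), ((5, 4, 9), 2, 0, 7), ((6, 1, 7), 2, 1, 6),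
    ((7, 6, 8), 6, 2, 0), ((8, 3, 7), 0, 4, 6), ((9, 1, 5), 7, 1, 2)]
  Tc := [(1, 0, 4)]
  Td := [((0, 1), (4, 2), 3), ((0, 1), (4, 5), 2), ((0, 1), (8, 3), 4), ((0, 1), (8, 7), 6), ((1,
    0), (1, 0), 5), ((1, 0), (1, 2), 3), ((1, 0), (1, 6), 2), ((1, 0), (1, 9), 7), ((1, 4),
    (1, 0), 5), ((1, 4), (1, 2), 3), ((1, 4), (1, 6), 2), ((1, 4), (1, 9), 7), ((4, 1), (3,
    0), 5), ((4, 1), (3, 8), 0)]
  G := [[0, 0x1414618186c811414a1818ac41181461818ac21e,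
    0xc41c81c82c41c88c4c41c81a8c41c81c4ec42824c4a2c824e1d, 0,
    0x91122911911a8a912918a4911911a2112a911911a4e912912a9129198ca61d], [0,
    0x14216184c812418a2121ac411414a218c212814128241af, 0, 0x911c81c22581911c42542c12c21d,
    0x48122411481a8a411411a4412411a4112a411418a4e482482a4824141ca61d], [0,
    0x141461418cc811414a1818ac411414618186c21e, 0, 0,
    0x289162191916984a8a912819122898aa1918918a4e91481912918a1912912a912914a6bd], [0,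
    0x212161818cc812414c2121ac41211281c1218248c23e, 0, 0x912c12c82942c82c42582582c12d,
    0x484862141416484a8a412814822848aa1482488a4e41281412418a1482482a482414a6bd]]

noncomputable def n2278 : Ent := ⟨e2278, noF, [], [], []⟩

def c2278 : PLift (Cov.check n2278.C.D v2278 = true) := ⟨by decide +kernel⟩

def b2278 : PLift (entF (fidx ts) 400 2278 n2278 = true) := ⟨by decide +kernel⟩

theorem g2278 : GoodF (fidx ts) 400 2278 := GoodF.ofV v2278 n2278 c2278.down b2278.down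

/-- 4749454:1899 -/
noncomputable def e2279 : SCfg where
  D := {
    a := 7
    L := 11
    kp := 8
    inn := [(0, 1), (1, 0), (1, 2), (1, 3), (1, 4), (2, 1), (2, 3), (3, 1), (3, 2), (3, 4), (3, 5), (4,
      1), (4, 3), (5, 3), (5, 6), (6, 5)]
    mix := [(0, 0), (0, 1), (0, 2), (1, 0), (1, 2), (1, 3), (2, 2), (2, 4), (3, 4), (3, 5), (3, 6), (3,
      7), (3, 8), (4, 3), (4, 8), (5, 5), (5, 6), (5, 9), (6, 5), (6, 9), (6, 10)]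
    cl := [2, 6, 0, 1, 3, 4, 4, 7, 3, 5, 8]
    chq := [(0, 1), (1, 0), (1, 6), (6, 1)]
    rng := [(0, 1), (0, 3), (1, 0), (1, 2), (2, 1), (2, 4), (3, 0), (3, 8), (4, 2), (4, 5), (5, 4), (5,
      10), (6, 7), (6, 9), (7, 6), (7, 8), (8, 3), (8, 7), (9, 6), (9, 10), (10, 5), (10, 9)]
    lev := [] }
  links := [[1, 7, 8, 9], [7, 0, 9, 2, 3, 4, 10], [3, 1, 9, 11], [4, 1, 2, 11, 12, 5, 13, 14, 15], [10,
    1, 3, 15], [13, 3, 12, 6, 16], [16, 5, 12, 17]]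
  P := {
    a := 7
    N := 18
    nb := [898, 1693, 2570, 63542, 33802, 77896, 200736, 1283, 641, 2311, 32914, 4620, 133224, 81960,
      40968, 17432, 139360, 69696]
    tri := [(0, 1, 7), (0, 1, 9), (0, 7, 8), (0, 8, 9), (1, 2, 3), (1, 2, 9), (1, 3, 4), (1, 4, 10),
      (1, 7, 10), (2, 3, 11), (2, 9, 11), (3, 4, 15), (3, 5, 12), (3, 5, 13), (3, 11, 12), (3, 13,
      14), (3, 14, 15), (4, 10, 15), (5, 6, 12), (5, 6, 16), (5, 13, 16), (6, 12, 17), (6, 16,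
      17)]
    fin := [0, 1, 2, 3, 3, 5, 5, 7, 0, 2, 1, 3, 5, 5, 14, 3, 16, 17]
    chd := [(0, 1), (2, 1)]
    steps := [(0, 8), (1, 10), (2, 9), (3, 4), (3, 11), (3, 15), (5, 6), (5, 12), (5, 13)] }
  rep := [2, 1, 7, 3, 5, 16, 0, 14, 17]

noncomputable def v2279 : Cov.CovD where
  P := 3
  N := 6
  pl := [0, 7, 9, 10]
  lev := [⟨[], [], [(0, 6)], [2], [(1, 6, [1]), (2, 0, [1])]⟩,
    ⟨[], [(0, 0), (0, 1), (0, 6)], [(0, 1)], [2], [(2, 0, [1]), (3, 1, [0, 6])]⟩,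
    ⟨[(0, 1)], [(0, 0), (1, 0), (1, 1), (1, 3)], [(0, 3)], [], [(2, 0, [1]), (4, 3, [])]⟩,
    ⟨[(0, 1), (1, 2)], [(1, 0), (1, 1), (1, 3), (1, 4), (2, 0), (2, 3), (2, 4)], [(3, 3),
      (3, 4), (4, 4)], [7], [(4, 3, []), (5, 4, []), (6, 4, []), (8, 3, [])]⟩,
    ⟨[(0, 1), (1, 2), (1, 3), (2, 3)], [(1, 0), (1, 1), (1, 3), (3, 1), (3, 3), (3, 4)],
      [(1, 3)], [], [(3, 1, [0, 6]), (8, 3, [])]⟩,
    ⟨[(1, 3), (2, 3), (3, 4)], [(3, 3), (3, 4)], [(4, 4)], [5], [(5, 4, []), (6, 4, [])]⟩,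
    ⟨[(3, 5)], [(3, 4), (5, 4)], [], [5, 8], [(5, 4, [])]⟩]
  Ta := [((4, 2), 3, 0), ((4, 5), 3, 4), ((5, 4), 4, 3), ((5, 10), 4, 8), ((6, 7), 4, 7), ((6,
    9), 4, 5), ((8, 3), 3, 1), ((8, 7), 3, 7)]
  Tb := [((0, 1, 3), 2, 6, 1), ((1, 0, 2), 6, 2, 0), ((2, 1, 4), 0, 6, 3), ((3, 0, 8), 1, 2, 3),
    ((4, 2, 5), 3, 0, 4), ((5, 4, 10), 4, 3, 8), ((6, 7, 9), 4, 7, 5), ((7, 6, 8), 7, 4, 3),
    ((8, 3, 7), 3, 1, 7), ((9, 6, 10), 5, 4, 8), ((10, 5, 9), 8, 4, 5)]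
  Tc := [(1, 0, 6)]
  Td := [((0, 1), (2, 1), 6), ((0, 1), (2, 4), 3), ((1, 0), (3, 0), 2), ((1, 0), (3, 8), 3), ((1,
    6), (3, 0), 2), ((1, 6), (3, 8), 3), ((6, 1), (1, 0), 2), ((6, 1), (1, 2), 0)]
  G := [[0, 0xc65b1953e45a63d126ca971953e898c1, 0xca978c65b8a63d8953e8f242,
    0xca971c65b1a63d1953e8f24ca971c65b1a63d1953e4f28c, 0xca971c65b4a63d1953e1f282], [0,
    0x395b2ac325a63d46a5236c597188c1, 0xca678c6ab1a63d1a8ed8f242,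
    0x953e112715b1c6ab1a9cd8e2cca97139a71563d148ed4f28c, 0xca671b1971593d424e74f282], [0,
    0xca971c65b1a63d1953e953e6f281, 0xca971c65b1a63d1953e1f842,
    0xca971c65b1a63d1953e1f84ca971c65b1a63d1953e1f28c, 0xca971c65b1a63d1953e1f482], [0,
    0x3a9712b8e1563d1ca5c69cf281, 0x764d1395b1563d16a3e1f242,
    0x93c1563d165ce17236c182cb1271b12b11d471953e1f48c, 0xca971c95b1a63d19ace1f482]]

noncomputable def n2279 : Ent := ⟨e2279, noF, [], [], [(8, 17, [6903326391201334775872065844685381424292761054348340378595029939015681, 0]), (8, 16, [7334685537875745012586738086077695515070955365108989538292687703007233, 0])]⟩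

def c2279 : PLift (Cov.check n2279.C.D v2279 = true) := ⟨by decide +kernel⟩

def b2279 : PLift (entF (fidx ts) 400 2279 n2279 = true) := ⟨by decide +kernel⟩

theorem g2279 : GoodF (fidx ts) 400 2279 := GoodF.ofV v2279 n2279 c2279.down b2279.down

/-- 4749454:1900/1 -/
noncomputable def e2280 : SCfg where
  D := {
    a := 7
    L := 10
    kp := 7
    inn := [(0, 1), (1, 0), (1, 2), (1, 3), (1, 4), (2, 1), (2, 3), (3, 1), (3, 2), (3, 4), (3, 5), (4,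
      1), (4, 3), (5, 3), (5, 6), (6, 5)]
    mix := [(0, 0), (0, 1), (0, 2), (1, 0), (1, 2), (1, 3), (2, 2), (2, 4), (3, 4), (3, 5), (3, 6), (3,
      7), (3, 8), (4, 3), (4, 8), (5, 1), (5, 5), (5, 6), (6, 1), (6, 6), (6, 9)]
    cl := [5, 4, 1, 2, 0, 3, 3, 6, 0, 7]
    chq := [(1, 2), (2, 1), (2, 4), (4, 2)]
    rng := [(0, 1), (0, 3), (1, 0), (1, 2), (1, 5), (1, 9), (2, 1), (2, 4), (3, 0), (3, 8), (4, 2), (4,
      5), (5, 1), (5, 4), (6, 7), (6, 9), (7, 6), (7, 8), (8, 3), (8, 7), (9, 1), (9, 6)]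
    lev := [] }
  links := [[1, 7, 8, 9], [7, 0, 9, 2, 3, 4, 10], [3, 1, 9, 11], [4, 1, 2, 11, 12, 5, 13, 14, 15], [10,
    1, 3, 15], [13, 3, 12, 8, 6], [13, 5, 8, 16]]
  P := {
    a := 7
    N := 17
    nb := [898, 1693, 2570, 63542, 33802, 12616, 74016, 1283, 70369, 2311, 32914, 4620, 2344, 82024,
      40968, 17432, 8512]
    tri := [(0, 1, 7), (0, 1, 9), (0, 7, 8), (0, 8, 9), (1, 2, 3), (1, 2, 9), (1, 3, 4), (1, 4, 10),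
      (1, 7, 10), (2, 3, 11), (2, 9, 11), (3, 4, 15), (3, 5, 12), (3, 5, 13), (3, 11, 12), (3, 13,
      14), (3, 14, 15), (4, 10, 15), (5, 6, 8), (5, 6, 13), (5, 8, 12), (6, 8, 16), (6, 13, 16)]
    fin := [0, 1, 2, 3, 3, 5, 0, 7, 0, 2, 1, 3, 5, 5, 14, 3, 16]
    chd := [(0, 1), (2, 1)]
    steps := [(0, 8), (0, 6), (1, 10), (2, 9), (3, 4), (3, 11), (3, 15), (5, 12), (5, 13)] }
  rep := [3, 2, 1, 5, 0, 7, 14, 16]

noncomputable def v2280 : Cov.CovD where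
  P := 3
  N := 5
  pl := [0, 7, 9]
  lev := [⟨[], [], [(1, 4)], [5], [(1, 4, [2]), (2, 1, [2])]⟩,
    ⟨[], [(0, 1), (0, 2), (0, 4)], [(1, 2)], [5], [(2, 1, [2]), (3, 2, [1, 4])]⟩,
    ⟨[(0, 1)], [(0, 1), (1, 0), (1, 1), (1, 2)], [(0, 1)], [], [(2, 1, [2]), (4, 0, [])]⟩,
    ⟨[(0, 1), (1, 2)], [(1, 0), (1, 1), (1, 2), (1, 3), (2, 0), (2, 1), (2, 3)], [(0, 0),
      (0, 3), (3, 3)], [6], [(4, 0, []), (5, 3, []), (6, 3, []), (8, 0, [])]⟩,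
    ⟨[(0, 1), (1, 2), (1, 3), (2, 3)], [(1, 0), (1, 1), (1, 2), (3, 0), (3, 2), (3, 3)],
      [(0, 2)], [], [(3, 2, [1, 4]), (8, 0, [])]⟩,
    ⟨[(1, 3), (2, 3), (3, 4)], [(0, 4), (3, 0), (3, 3), (3, 4)], [(3, 3), (3, 4)], [], [(1,
      4, [2]), (5, 3, []), (6, 3, [])]⟩,
    ⟨[(3, 5)], [(0, 4), (3, 3), (5, 3), (5, 4)], [(3, 4)], [7], [(1, 4, [2]), (6, 3, [])]⟩]
  Ta := [((4, 2), 0, 1), ((4, 5), 0, 3), ((5, 1), 3, 4), ((5, 4), 3, 0), ((6, 7), 3, 6), ((6, 9),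
    3, 7), ((8, 3), 0, 2), ((8, 7), 0, 6)]
  Tb := [((0, 1, 3), 5, 4, 2), ((1, 0, 2), 4, 5, 1), ((1, 0, 5), 4, 5, 3), ((1, 0, 9), 4, 5, 7),
    ((1, 2, 5), 4, 1, 3), ((1, 2, 9), 4, 1, 7), ((1, 5, 9), 4, 3, 7), ((2, 1, 4), 1, 4, 0),
    ((3, 0, 8), 2, 5, 0), ((4, 2, 5), 0, 1, 3), ((5, 1, 4), 3, 4, 0), ((6, 7, 9), 3, 6, 7),
    ((7, 6, 8), 6, 3, 0), ((8, 3, 7), 0, 2, 6), ((9, 1, 6), 7, 4, 3)]
  Tc := [(2, 1, 4)]
  Td := [((1, 2), (2, 1), 4), ((1, 2), (2, 4), 0), ((2, 1), (3, 0), 5), ((2, 1), (3, 8), 0), ((2,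
    4), (3, 0), 5), ((2, 4), (3, 8), 0), ((4, 2), (1, 0), 5), ((4, 2), (1, 2), 1), ((4, 2),
    (1, 5), 3), ((4, 2), (1, 9), 7)]
  G := [[0, 0x31191464a1184c51448511511a8c611511518e2314a18918e2ce, 0,
    0x24271292b1d21e4292b846591d21acc2,
    0xa484682c28ac13467138bb1d538e4a48c2866828c914586121458e41d], [0,
    0xb113146491884c51844711318a2cf14514318e2914f18311e8ce, 0,
    0xca971c65b8a252f8e8ca974c65b2a63d8e852,
    0xc6a1a6c264ca68849ca972511318e4ca68c6a2a6c8e49f12518312e81d], [0, 0,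
    0x612e18d18e1712a18e18e8c1, 0x24274a358d28e16592282b2d24e1c2,
    0xa4248c26168284924672318318e1a484682c28ac9512618518e81d], [0, 0,
    0xf12f18f14e4f14f18f14e1c1, 0xca972c65b22683f4e1ca972c65b8a63d4e8c2,
    0xc6a2a6c264ca68849ca972518318e1ca62c6a2a6c2e89f18512312e41d]]

noncomputable def n2280 : Ent := ⟨e2280, noF, [], [], []⟩

def c2280 : PLift (Cov.check n2280.C.D v2280 = true) := ⟨by decide +kernel⟩

def b2280 : PLift (entF (fidx ts) 400 2280 n2280 = true) := ⟨by decide +kernel⟩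

theorem g2280 : GoodF (fidx ts) 400 2280 := GoodF.ofV v2280 n2280 c2280.down b2280.down

/-- 4749454:1900/2 -/
noncomputable def e2281 : SCfg where
  D := {
    a := 7
    L := 10
    kp := 7
    inn := [(0, 1), (1, 0), (1, 2), (1, 3), (1, 4), (2, 1), (2, 3), (3, 1), (3, 2), (3, 4), (3, 5), (4,
      1), (4, 3), (5, 3), (5, 6), (6, 5)]
    mix := [(0, 0), (0, 1), (0, 2), (1, 0), (1, 2), (1, 3), (2, 2), (2, 4), (3, 4), (3, 5), (3, 6), (3,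
      7), (3, 8), (4, 3), (4, 8), (5, 5), (5, 6), (5, 9), (6, 1), (6, 6), (6, 9)]
    cl := [5, 4, 1, 2, 0, 3, 3, 7, 0, 6]
    chq := [(1, 2), (2, 1), (2, 4), (4, 2)]
    rng := [(0, 1), (0, 3), (1, 0), (1, 2), (1, 6), (1, 9), (2, 1), (2, 4), (3, 0), (3, 8), (4, 2), (4,
      5), (5, 4), (5, 9), (6, 1), (6, 7), (7, 6), (7, 8), (8, 3), (8, 7), (9, 1), (9, 5)]
    lev := [] }
  links := [[1, 7, 8, 9], [7, 0, 9, 2, 3, 4, 10], [3, 1, 9, 11], [4, 1, 2, 11, 12, 5, 13, 14, 15], [10,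
    1, 3, 15], [13, 3, 12, 16, 6], [13, 5, 16, 8]]
  P := {
    a := 7
    N := 17
    nb := [898, 1693, 2570, 63542, 33802, 77896, 74016, 1283, 74433, 2311, 32914, 4620, 67624, 16744,
      40968, 17432, 4448]
    tri := [(0, 1, 7), (0, 1, 9), (0, 7, 8), (0, 8, 9), (1, 2, 3), (1, 2, 9), (1, 3, 4), (1, 4, 10),
      (1, 7, 10), (2, 3, 11), (2, 9, 11), (3, 4, 15), (3, 5, 12), (3, 5, 13), (3, 11, 12), (3, 13,
      14), (3, 14, 15), (4, 10, 15), (5, 6, 13), (5, 6, 16), (5, 12, 16), (6, 8, 13), (6, 8, 16)]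
    fin := [0, 1, 2, 3, 3, 5, 0, 7, 0, 2, 1, 3, 5, 5, 14, 3, 16]
    chd := [(0, 1), (2, 1)]
    steps := [(0, 8), (0, 6), (1, 10), (2, 9), (3, 4), (3, 11), (3, 15), (5, 12), (5, 13)] }
  rep := [3, 2, 1, 5, 0, 7, 16, 14]

noncomputable def v2281 : Cov.CovD where
  P := 3
  N := 5
  pl := [0, 7, 9]
  lev := [⟨[], [], [(1, 4)], [5], [(1, 4, [2]), (2, 1, [2])]⟩,
    ⟨[], [(0, 1), (0, 2), (0, 4)], [(1, 2)], [5], [(2, 1, [2]), (3, 2, [1, 4])]⟩,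
    ⟨[(0, 1)], [(0, 1), (1, 0), (1, 1), (1, 2)], [(0, 1)], [], [(2, 1, [2]), (4, 0, [])]⟩,
    ⟨[(0, 1), (1, 2)], [(1, 0), (1, 1), (1, 2), (1, 3), (2, 0), (2, 1), (2, 3)], [(0, 0),
      (0, 3), (3, 3)], [7], [(4, 0, []), (5, 3, []), (6, 3, []), (8, 0, [])]⟩,
    ⟨[(0, 1), (1, 2), (1, 3), (2, 3)], [(1, 0), (1, 1), (1, 2), (3, 0), (3, 2), (3, 3)],
      [(0, 2)], [], [(3, 2, [1, 4]), (8, 0, [])]⟩,
    ⟨[(1, 3), (2, 3), (3, 4)], [(3, 0), (3, 3)], [(3, 3)], [6], [(5, 3, []), (6, 3, [])]⟩,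
    ⟨[(3, 5)], [(0, 4), (3, 3), (5, 3), (5, 4)], [(3, 4)], [6], [(1, 4, [2]), (6, 3, [])]⟩]
  Ta := [((4, 2), 0, 1), ((4, 5), 0, 3), ((5, 4), 3, 0), ((5, 9), 3, 6), ((6, 1), 3, 4), ((6, 7),
    3, 7), ((8, 3), 0, 2), ((8, 7), 0, 7)]
  Tb := [((0, 1, 3), 5, 4, 2), ((1, 0, 2), 4, 5, 1), ((1, 0, 6), 4, 5, 3), ((1, 0, 9), 4, 5, 6),
    ((1, 2, 6), 4, 1, 3), ((1, 2, 9), 4, 1, 6), ((1, 6, 9), 4, 3, 6), ((2, 1, 4), 1, 4, 0),
    ((3, 0, 8), 2, 5, 0), ((4, 2, 5), 0, 1, 3), ((5, 4, 9), 3, 0, 6), ((6, 1, 7), 3, 4, 7),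
    ((7, 6, 8), 7, 3, 0), ((8, 3, 7), 0, 2, 7), ((9, 1, 5), 6, 4, 3)]
  Tc := [(2, 1, 4)]
  Td := [((1, 2), (2, 1), 4), ((1, 2), (2, 4), 0), ((2, 1), (3, 0), 5), ((2, 1), (3, 8), 0), ((2,
    4), (3, 0), 5), ((2, 4), (3, 8), 0), ((4, 2), (1, 0), 5), ((4, 2), (1, 2), 1), ((4, 2),
    (1, 6), 3), ((4, 2), (1, 9), 6)]
  G := [[0, 0x8251215462825488c24914424914198a2c2417141914131e48151281b11861e8ce, 0,
    0xc2974c25b1ce31e82b2e24729242ad4ac52,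
    0x44cb2843164429284935671219214a1e4b852442928538ac9521d2419814a8e41d], [0,
    0x8217128178a821b1464441b4426191221d8a2cc61b4a61d46ca1748c88174c61b828174e8ce, 0,
    0xc2971c25b826bd8e4c2974c25b2a63d4e492,
    0x864b2862d2644a878849ca972421b8241d2e448a78864b2862d8e496192421b2241d8e41d], [0, 0,
    0xa152c134624172896192281b2c134e1c1, 0x28bb8ce38625928cc2674a358c534e852,
    0x8252424924838ac124e72a358c291ae1429228ab8c838e49419241984192e41d], [0, 0,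
    0xca174c61b8a61d4e4ca174c61b8a61d2e8c1, 0xc2972c25b2a63d8e1c2974c25b2a27d4e8c2,
    0x846b2842d26148a72849ca972421b2221d2e44a878824b2842d2e496192441b2221d2e41d]]

noncomputable def n2281 : Ent := ⟨e2281, noF, [], [], []⟩

def c2281 : PLift (Cov.check n2281.C.D v2281 = true) := ⟨by decide +kernel⟩

def b2281 : PLift (entF (fidx ts) 400 2281 n2281 = true) := ⟨by decide +kernel⟩

theorem g2281 : GoodF (fidx ts) 400 2281 := GoodF.ofV v2281 n2281 c2281.down b2281.down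

/-- 4749454:1900 -/
noncomputable def e2282 : SCfg where
  D := {
    a := 7
    L := 11
    kp := 8
    inn := [(0, 1), (1, 0), (1, 2), (1, 3), (1, 4), (2, 1), (2, 3), (3, 1), (3, 2), (3, 4), (3, 5), (4,
      1), (4, 3), (5, 3), (5, 6), (6, 5)]
    mix := [(0, 0), (0, 1), (0, 2), (1, 0), (1, 2), (1, 3), (2, 2), (2, 4), (3, 4), (3, 5), (3, 6), (3,
      7), (3, 8), (4, 3), (4, 8), (5, 5), (5, 6), (5, 9), (6, 6), (6, 9), (6, 10)]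
    cl := [2, 6, 0, 1, 3, 4, 4, 7, 3, 5, 8]
    chq := [(0, 1), (1, 0), (1, 6), (6, 1)]
    rng := [(0, 1), (0, 3), (1, 0), (1, 2), (2, 1), (2, 4), (3, 0), (3, 8), (4, 2), (4, 5), (5, 4), (5,
      9), (6, 7), (6, 10), (7, 6), (7, 8), (8, 3), (8, 7), (9, 5), (9, 10), (10, 6), (10, 9)]
    lev := [] }
  links := [[1, 7, 8, 9], [7, 0, 9, 2, 3, 4, 10], [3, 1, 9, 11], [4, 1, 2, 11, 12, 5, 13, 14, 15], [10,
    1, 3, 15], [13, 3, 12, 16, 6], [13, 5, 16, 17]]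
  P := {
    a := 7
    N := 18
    nb := [898, 1693, 2570, 63542, 33802, 77896, 204832, 1283, 641, 2311, 32914, 4620, 67624, 147560,
      40968, 17432, 135264, 73792]
    tri := [(0, 1, 7), (0, 1, 9), (0, 7, 8), (0, 8, 9), (1, 2, 3), (1, 2, 9), (1, 3, 4), (1, 4, 10),
      (1, 7, 10), (2, 3, 11), (2, 9, 11), (3, 4, 15), (3, 5, 12), (3, 5, 13), (3, 11, 12), (3, 13,
      14), (3, 14, 15), (4, 10, 15), (5, 6, 13), (5, 6, 16), (5, 12, 16), (6, 13, 17), (6, 16,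
      17)]
    fin := [0, 1, 2, 3, 3, 5, 5, 7, 0, 2, 1, 3, 5, 5, 14, 3, 16, 17]
    chd := [(0, 1), (2, 1)]
    steps := [(0, 8), (1, 10), (2, 9), (3, 4), (3, 11), (3, 15), (5, 6), (5, 12), (5, 13)] }
  rep := [2, 1, 7, 3, 5, 16, 0, 14, 17]

noncomputable def v2282 : Cov.CovD where
  P := 3
  N := 6
  pl := [0, 7, 9, 10]
  lev := [⟨[], [], [(0, 6)], [2], [(1, 6, [1]), (2, 0, [1])]⟩,
    ⟨[], [(0, 0), (0, 1), (0, 6)], [(0, 1)], [2], [(2, 0, [1]), (3, 1, [0, 6])]⟩,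
    ⟨[(0, 1)], [(0, 0), (1, 0), (1, 1), (1, 3)], [(0, 3)], [], [(2, 0, [1]), (4, 3, [])]⟩,
    ⟨[(0, 1), (1, 2)], [(1, 0), (1, 1), (1, 3), (1, 4), (2, 0), (2, 3), (2, 4)], [(3, 3),
      (3, 4), (4, 4)], [7], [(4, 3, []), (5, 4, []), (6, 4, []), (8, 3, [])]⟩,
    ⟨[(0, 1), (1, 2), (1, 3), (2, 3)], [(1, 0), (1, 1), (1, 3), (3, 1), (3, 3), (3, 4)],
      [(1, 3)], [], [(3, 1, [0, 6]), (8, 3, [])]⟩,
    ⟨[(1, 3), (2, 3), (3, 4)], [(3, 3), (3, 4)], [(4, 4)], [5], [(5, 4, []), (6, 4, [])]⟩,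
    ⟨[(3, 5)], [(3, 4), (5, 4)], [], [5, 8], [(6, 4, [])]⟩]
  Ta := [((4, 2), 3, 0), ((4, 5), 3, 4), ((5, 4), 4, 3), ((5, 9), 4, 5), ((6, 7), 4, 7), ((6,
    10), 4, 8), ((8, 3), 3, 1), ((8, 7), 3, 7)]
  Tb := [((0, 1, 3), 2, 6, 1), ((1, 0, 2), 6, 2, 0), ((2, 1, 4), 0, 6, 3), ((3, 0, 8), 1, 2, 3),
    ((4, 2, 5), 3, 0, 4), ((5, 4, 9), 4, 3, 5), ((6, 7, 10), 4, 7, 8), ((7, 6, 8), 7, 4, 3),
    ((8, 3, 7), 3, 1, 7), ((9, 5, 10), 5, 4, 8), ((10, 6, 9), 8, 4, 5)]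
  Tc := [(1, 0, 6)]
  Td := [((0, 1), (2, 1), 6), ((0, 1), (2, 4), 3), ((1, 0), (3, 0), 2), ((1, 0), (3, 8), 3), ((1,
    6), (3, 0), 2), ((1, 6), (3, 8), 3), ((6, 1), (1, 0), 2), ((6, 1), (1, 2), 0)]
  G := [[0, 0xca541c65b2a6945c3a6728a63d12ac1, 0xca6743aa71a9cd128eb4f282,
    0x4812f1c65b1a63d86acd8f243a9712912f1a63d448ed4f28c, 0x356711b8d1a6cd4953e1f282], [0,
    0xc65b14a63d1953e436ca972953e898c1, 0xca978c65b8a63d1953e1f242,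
    0xca971c65b1a63d1953e1f24ca971c65b4a63d4953e1f28c, 0xca971c65b1a63d4953e4f282], [0,
    0xca971c65b1a63d26a5c69cf481, 0xca971c65b148de19a3e1f482,
    0xc1271b12b1c95b1953e1f8439a7193c1a63d1653e1f28c, 0xc59719b8e1a63d1953e1f282], [0,
    0xca971c65b1a63d1953e953ecf281, 0xca971c65b1a63d1953e1f242,
    0xca971c65b1a63d1953e1f24ca971c65b1a63d1953e1f28c, 0xca971c65b1a63d1953e1f482]]

noncomputable def n2282 : Ent := ⟨e2282, noF, [], [], [(8, 16, [7334685537875745012586738086077695515070955365108989538292687703015425, 0]), (8, 17, [6903326391201334775872065844685381424292761054348340378595029939032065, 0])]⟩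

def c2282 : PLift (Cov.check n2282.C.D v2282 = true) := ⟨by decide +kernel⟩

def b2282 : PLift (entF (fidx ts) 400 2282 n2282 = true) := ⟨by decide +kernel⟩

theorem g2282 : GoodF (fidx ts) 400 2282 := GoodF.ofV v2282 n2282 c2282.down b2282.down

/-- 4749454:1901/1 -/
noncomputable def e2283 : SCfg where
  D := {
    a := 7
    L := 10
    kp := 7
    inn := [(0, 1), (1, 0), (1, 2), (1, 3), (1, 4), (2, 1), (2, 3), (3, 1), (3, 2), (3, 4), (3, 5), (4,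
      1), (4, 3), (5, 3), (5, 6), (6, 5)]
    mix := [(0, 0), (0, 1), (0, 2), (1, 0), (1, 2), (1, 3), (2, 2), (2, 4), (3, 4), (3, 5), (3, 6), (3,
      7), (3, 8), (4, 3), (4, 8), (5, 6), (5, 7), (5, 9), (6, 1), (6, 6), (6, 9)]
    cl := [5, 4, 1, 2, 0, 7, 3, 3, 0, 6]
    chq := [(1, 2), (2, 1), (2, 4), (4, 2)]
    rng := [(0, 1), (0, 3), (1, 0), (1, 2), (1, 6), (1, 9), (2, 1), (2, 4), (3, 0), (3, 8), (4, 2), (4,
      5), (5, 4), (5, 6), (6, 1), (6, 5), (7, 8), (7, 9), (8, 3), (8, 7), (9, 1), (9, 7)]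
    lev := [] }
  links := [[1, 7, 8, 9], [7, 0, 9, 2, 3, 4, 10], [3, 1, 9, 11], [4, 1, 2, 11, 12, 13, 5, 14, 15], [10,
    1, 3, 15], [14, 3, 13, 6, 16], [16, 5, 13, 8]]
  P := {
    a := 7
    N := 17
    nb := [898, 1693, 2570, 63542, 33802, 90184, 74016, 1283, 74433, 2311, 32914, 4620, 10248, 4456,
      98344, 17432, 16736]
    tri := [(0, 1, 7), (0, 1, 9), (0, 7, 8), (0, 8, 9), (1, 2, 3), (1, 2, 9), (1, 3, 4), (1, 4, 10),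
      (1, 7, 10), (2, 3, 11), (2, 9, 11), (3, 4, 15), (3, 5, 13), (3, 5, 14), (3, 11, 12), (3, 12,
      13), (3, 14, 15), (4, 10, 15), (5, 6, 13), (5, 6, 16), (5, 14, 16), (6, 8, 13), (6, 8, 16)]
    fin := [0, 1, 2, 3, 3, 5, 0, 7, 0, 2, 1, 3, 12, 5, 5, 3, 16]
    chd := [(0, 1), (2, 1)]
    steps := [(0, 8), (0, 6), (1, 10), (2, 9), (3, 4), (3, 11), (3, 15), (5, 13), (5, 14)] }
  rep := [3, 2, 1, 5, 0, 7, 16, 12]

noncomputable def v2283 : Cov.CovD where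
  P := 3
  N := 5
  pl := [0, 5, 9]
  lev := [⟨[], [], [(1, 4)], [5], [(1, 4, [2]), (2, 1, [2])]⟩,
    ⟨[], [(0, 1), (0, 2), (0, 4)], [(1, 2)], [5], [(2, 1, [2]), (3, 2, [1, 4])]⟩,
    ⟨[(0, 1)], [(0, 1), (1, 0), (1, 1), (1, 2)], [(0, 1)], [], [(2, 1, [2]), (4, 0, [])]⟩,
    ⟨[(0, 1), (1, 2)], [(1, 0), (1, 1), (1, 2), (1, 3), (2, 0), (2, 1), (2, 3)], [(0, 0),
      (0, 3), (3, 3)], [7], [(4, 0, []), (6, 3, []), (7, 3, []), (8, 0, [])]⟩,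
    ⟨[(0, 1), (1, 2), (1, 3), (2, 3)], [(1, 0), (1, 1), (1, 2), (3, 0), (3, 2), (3, 3)],
      [(0, 2)], [], [(3, 2, [1, 4]), (8, 0, [])]⟩,
    ⟨[(1, 3), (2, 3), (3, 4)], [(3, 0), (3, 3)], [(3, 3)], [6], [(6, 3, []), (7, 3, [])]⟩,
    ⟨[(3, 5)], [(0, 4), (3, 3), (5, 3), (5, 4)], [(3, 4)], [6], [(1, 4, [2]), (6, 3, [])]⟩]
  Ta := [((4, 2), 0, 1), ((4, 5), 0, 7), ((6, 1), 3, 4), ((6, 5), 3, 7), ((7, 8), 3, 0), ((7, 9),
    3, 6), ((8, 3), 0, 2), ((8, 7), 0, 3)]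
  Tb := [((0, 1, 3), 5, 4, 2), ((1, 0, 2), 4, 5, 1), ((1, 0, 6), 4, 5, 3), ((1, 0, 9), 4, 5, 6),
    ((1, 2, 6), 4, 1, 3), ((1, 2, 9), 4, 1, 6), ((1, 6, 9), 4, 3, 6), ((2, 1, 4), 1, 4, 0),
    ((3, 0, 8), 2, 5, 0), ((4, 2, 5), 0, 1, 7), ((5, 4, 6), 7, 0, 3), ((6, 1, 5), 3, 4, 7),
    ((7, 8, 9), 3, 0, 6), ((8, 3, 7), 0, 2, 3), ((9, 1, 7), 6, 4, 3)]
  Tc := [(2, 1, 4)]
  Td := [((1, 2), (2, 1), 4), ((1, 2), (2, 4), 0), ((2, 1), (3, 0), 5), ((2, 1), (3, 8), 0), ((2,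
    4), (3, 0), 5), ((2, 4), (3, 8), 0), ((4, 2), (1, 0), 5), ((4, 2), (1, 2), 1), ((4, 2),
    (1, 6), 3), ((4, 2), (1, 9), 6)]
  G := [[0, 0x88174821b8821d8e84421d1241d46421718c8c61b422c1f16ca1718aca171c61b1a61d1e2ce, 0,
    0xc2972c25b826bd8e8c2974c25b2a63d8e852,
    0x824b1842d1644a872889441b1221d16ca9728cca878846b2842d8e4942172441b2241b8e81d], [0,
    0x81342825146815882c4217141914198e482417121942191e2c13126194281b1c6ce, 0,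
    0x22974225b248ab8e42594c8ab2c534e492,
    0x864b148316442928492497221924131e48258424928438ac9419221924198e41d], [0, 0,
    0xca174c61b4a61d4e1ca172c61b8a61d8e8c1, 0xc2974c25b2a27d8e4c2972c25b2a27d4e8c2,
    0x824b2842d2614a872889ca972441b8221d8e44a872824b2842d8e896192441b8221d2e41d], [0, 0,
    0x24172c138aa158456192281b2c134e1c1, 0x32674b258d534e17294c2ab2492d8e492,
    0x8c52482d261249284912c21126c5672428ac8352424928c38ac924178549841a8e41d]]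

noncomputable def n2283 : Ent := ⟨e2283, noF, [], [], []⟩

def c2283 : PLift (Cov.check n2283.C.D v2283 = true) := ⟨by decide +kernel⟩

def b2283 : PLift (entF (fidx ts) 400 2283 n2283 = true) := ⟨by decide +kernel⟩

theorem g2283 : GoodF (fidx ts) 400 2283 := GoodF.ofV v2283 n2283 c2283.down b2283.down

/-- 4749454:1901/2 -/
noncomputable def e2284 : SCfg where
  D := {
    a := 7
    L := 10
    kp := 7
    inn := [(0, 1), (1, 0), (1, 2), (1, 3), (1, 4), (2, 1), (2, 3), (3, 1), (3, 2), (3, 4), (3, 5), (4,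
      1), (4, 3), (5, 3), (5, 6), (6, 5)]
    mix := [(0, 0), (0, 1), (0, 2), (1, 0), (1, 2), (1, 3), (2, 2), (2, 4), (3, 4), (3, 5), (3, 6), (3,
      7), (3, 8), (4, 3), (4, 8), (5, 1), (5, 6), (5, 7), (6, 1), (6, 6), (6, 9)]
    cl := [5, 4, 1, 2, 0, 6, 3, 3, 0, 7]
    chq := [(1, 2), (2, 1), (2, 4), (4, 2)]
    rng := [(0, 1), (0, 3), (1, 0), (1, 2), (1, 7), (1, 9), (2, 1), (2, 4), (3, 0), (3, 8), (4, 2), (4,
      5), (5, 4), (5, 6), (6, 5), (6, 9), (7, 1), (7, 8), (8, 3), (8, 7), (9, 1), (9, 6)]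
    lev := [] }
  links := [[1, 7, 8, 9], [7, 0, 9, 2, 3, 4, 10], [3, 1, 9, 11], [4, 1, 2, 11, 12, 13, 5, 14, 15], [10,
    1, 3, 15], [14, 3, 13, 6, 8], [8, 5, 13, 16]]
  P := {
    a := 7
    N := 17
    nb := [898, 1693, 2570, 63542, 33802, 24904, 74016, 1283, 82657, 2311, 32914, 4620, 10248, 69736,
      33064, 17432, 8512]
    tri := [(0, 1, 7), (0, 1, 9), (0, 7, 8), (0, 8, 9), (1, 2, 3), (1, 2, 9), (1, 3, 4), (1, 4, 10),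
      (1, 7, 10), (2, 3, 11), (2, 9, 11), (3, 4, 15), (3, 5, 13), (3, 5, 14), (3, 11, 12), (3, 12,
      13), (3, 14, 15), (4, 10, 15), (5, 6, 8), (5, 6, 13), (5, 8, 14), (6, 8, 16), (6, 13, 16)]
    fin := [0, 1, 2, 3, 3, 5, 0, 7, 0, 2, 1, 3, 12, 5, 5, 3, 16]
    chd := [(0, 1), (2, 1)]
    steps := [(0, 8), (0, 6), (1, 10), (2, 9), (3, 4), (3, 11), (3, 15), (5, 13), (5, 14)] }
  rep := [3, 2, 1, 5, 0, 7, 12, 16]

noncomputable def v2284 : Cov.CovD where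
  P := 3
  N := 5
  pl := [0, 5, 9]
  lev := [⟨[], [], [(1, 4)], [5], [(1, 4, [2]), (2, 1, [2])]⟩,
    ⟨[], [(0, 1), (0, 2), (0, 4)], [(1, 2)], [5], [(2, 1, [2]), (3, 2, [1, 4])]⟩,
    ⟨[(0, 1)], [(0, 1), (1, 0), (1, 1), (1, 2)], [(0, 1)], [], [(2, 1, [2]), (4, 0, [])]⟩,
    ⟨[(0, 1), (1, 2)], [(1, 0), (1, 1), (1, 2), (1, 3), (2, 0), (2, 1), (2, 3)], [(0, 0),
      (0, 3), (3, 3)], [6], [(4, 0, []), (6, 3, []), (7, 3, []), (8, 0, [])]⟩,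
    ⟨[(0, 1), (1, 2), (1, 3), (2, 3)], [(1, 0), (1, 1), (1, 2), (3, 0), (3, 2), (3, 3)],
      [(0, 2)], [], [(3, 2, [1, 4]), (8, 0, [])]⟩,
    ⟨[(1, 3), (2, 3), (3, 4)], [(0, 4), (3, 0), (3, 3), (3, 4)], [(3, 3), (3, 4)], [], [(1,
      4, [2]), (6, 3, []), (7, 3, [])]⟩,
    ⟨[(3, 5)], [(0, 4), (3, 3), (5, 3), (5, 4)], [(3, 4)], [7], [(1, 4, [2]), (6, 3, [])]⟩]
  Ta := [((4, 2), 0, 1), ((4, 5), 0, 6), ((6, 5), 3, 6), ((6, 9), 3, 7), ((7, 1), 3, 4), ((7, 8),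
    3, 0), ((8, 3), 0, 2), ((8, 7), 0, 3)]
  Tb := [((0, 1, 3), 5, 4, 2), ((1, 0, 2), 4, 5, 1), ((1, 0, 7), 4, 5, 3), ((1, 0, 9), 4, 5, 7),
    ((1, 2, 7), 4, 1, 3), ((1, 2, 9), 4, 1, 7), ((1, 7, 9), 4, 3, 7), ((2, 1, 4), 1, 4, 0),
    ((3, 0, 8), 2, 5, 0), ((4, 2, 5), 0, 1, 6), ((5, 4, 6), 6, 0, 3), ((6, 5, 9), 3, 6, 7),
    ((7, 1, 8), 3, 4, 0), ((8, 3, 7), 0, 2, 3), ((9, 1, 6), 7, 4, 3)]
  Tc := [(2, 1, 4)]
  Td := [((1, 2), (2, 1), 4), ((1, 2), (2, 4), 0), ((2, 1), (3, 0), 5), ((2, 1), (3, 8), 0), ((2,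
    4), (3, 0), 5), ((2, 4), (3, 8), 0), ((4, 2), (1, 0), 5), ((4, 2), (1, 2), 1), ((4, 2),
    (1, 7), 3), ((4, 2), (1, 9), 7)]
  G := [[0, 0xb113146491184c51448711311a8cf11518311e2914f11314e8ce, 0,
    0xca972c65b8a63d1e4ca972c65b8a63d4e492,
    0xc6a2a6c264ca62889ca972512318e4ca62c6a8a6c2e89f18512312e41d], [0,
    0x311918a11e2434148611618a2cd11d1166118c318a18a11e2ce, 0,
    0x243722c2b8d21e4a35846392d28ac92,
    0x28a2c2164682849b415116246728ca424682c28ac9612518512e81d], [0, 0,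
    0xf12f14f12e1f12f18f12e8c1, 0xca974c65b4a63d8e1ca972c65b8a63d8e892,
    0xc6a2a6c261ca62849ca972512312e4ca68c6a8a6c8e49f12512318e81d], [0, 0,
    0x612712712e4718a12e12e1c1, 0x225e4283b2d28e12627438272d28e852,
    0xa45248c261682849259723482468e1a4848c267828c95121458528e81d]]

noncomputable def n2284 : Ent := ⟨e2284, noF, [], [], []⟩

def c2284 : PLift (Cov.check n2284.C.D v2284 = true) := ⟨by decide +kernel⟩

def b2284 : PLift (entF (fidx ts) 400 2284 n2284 = true) := ⟨by decide +kernel⟩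

theorem g2284 : GoodF (fidx ts) 400 2284 := GoodF.ofV v2284 n2284 c2284.down b2284.down

/-- 4749454:1901 -/
noncomputable def e2285 : SCfg where
  D := {
    a := 7
    L := 11
    kp := 8
    inn := [(0, 1), (1, 0), (1, 2), (1, 3), (1, 4), (2, 1), (2, 3), (3, 1), (3, 2), (3, 4), (3, 5), (4,
      1), (4, 3), (5, 3), (5, 6), (6, 5)]
    mix := [(0, 0), (0, 1), (0, 2), (1, 0), (1, 2), (1, 3), (2, 2), (2, 4), (3, 4), (3, 5), (3, 6), (3,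
      7), (3, 8), (4, 3), (4, 8), (5, 6), (5, 7), (5, 9), (6, 6), (6, 9), (6, 10)]
    cl := [2, 6, 0, 1, 3, 7, 4, 4, 3, 5, 8]
    chq := [(0, 1), (1, 0), (1, 6), (6, 1)]
    rng := [(0, 1), (0, 3), (1, 0), (1, 2), (2, 1), (2, 4), (3, 0), (3, 8), (4, 2), (4, 5), (5, 4), (5,
      6), (6, 5), (6, 10), (7, 8), (7, 9), (8, 3), (8, 7), (9, 7), (9, 10), (10, 6), (10, 9)]
    lev := [] }
  links := [[1, 7, 8, 9], [7, 0, 9, 2, 3, 4, 10], [3, 1, 9, 11], [4, 1, 2, 11, 12, 13, 5, 14, 15], [10,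
    1, 3, 15], [14, 3, 13, 6, 16], [16, 5, 13, 17]]
  P := {
    a := 7
    N := 18
    nb := [898, 1693, 2570, 63542, 33802, 90184, 204832, 1283, 641, 2311, 32914, 4620, 10248, 135272,
      98344, 17432, 147552, 73792]
    tri := [(0, 1, 7), (0, 1, 9), (0, 7, 8), (0, 8, 9), (1, 2, 3), (1, 2, 9), (1, 3, 4), (1, 4, 10),
      (1, 7, 10), (2, 3, 11), (2, 9, 11), (3, 4, 15), (3, 5, 13), (3, 5, 14), (3, 11, 12), (3, 12,
      13), (3, 14, 15), (4, 10, 15), (5, 6, 13), (5, 6, 16), (5, 14, 16), (6, 13, 17), (6, 16,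
      17)]
    fin := [0, 1, 2, 3, 3, 5, 5, 7, 0, 2, 1, 3, 12, 5, 5, 3, 16, 17]
    chd := [(0, 1), (2, 1)]
    steps := [(0, 8), (1, 10), (2, 9), (3, 4), (3, 11), (3, 15), (5, 6), (5, 13), (5, 14)] }
  rep := [2, 1, 7, 3, 5, 16, 0, 12, 17]

noncomputable def v2285 : Cov.CovD where
  P := 3
  N := 6
  pl := [0, 5, 9, 10]
  lev := [⟨[], [], [(0, 6)], [2], [(1, 6, [1]), (2, 0, [1])]⟩,
    ⟨[], [(0, 0), (0, 1), (0, 6)], [(0, 1)], [2], [(2, 0, [1]), (3, 1, [0, 6])]⟩,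
    ⟨[(0, 1)], [(0, 0), (1, 0), (1, 1), (1, 3)], [(0, 3)], [], [(2, 0, [1]), (4, 3, [])]⟩,
    ⟨[(0, 1), (1, 2)], [(1, 0), (1, 1), (1, 3), (1, 4), (2, 0), (2, 3), (2, 4)], [(3, 3),
      (3, 4), (4, 4)], [7], [(4, 3, []), (6, 4, []), (7, 4, []), (8, 3, [])]⟩,
    ⟨[(0, 1), (1, 2), (1, 3), (2, 3)], [(1, 0), (1, 1), (1, 3), (3, 1), (3, 3), (3, 4)],
      [(1, 3)], [], [(3, 1, [0, 6]), (8, 3, [])]⟩,
    ⟨[(1, 3), (2, 3), (3, 4)], [(3, 3), (3, 4)], [(4, 4)], [5], [(6, 4, []), (7, 4, [])]⟩,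
    ⟨[(3, 5)], [(3, 4), (5, 4)], [], [5, 8], [(6, 4, [])]⟩]
  Ta := [((4, 2), 3, 0), ((4, 5), 3, 7), ((6, 5), 4, 7), ((6, 10), 4, 8), ((7, 8), 4, 3), ((7,
    9), 4, 5), ((8, 3), 3, 1), ((8, 7), 3, 4)]
  Tb := [((0, 1, 3), 2, 6, 1), ((1, 0, 2), 6, 2, 0), ((2, 1, 4), 0, 6, 3), ((3, 0, 8), 1, 2, 3),
    ((4, 2, 5), 3, 0, 7), ((5, 4, 6), 7, 3, 4), ((6, 5, 10), 4, 7, 8), ((7, 8, 9), 4, 3, 5),
    ((8, 3, 7), 3, 1, 4), ((9, 7, 10), 5, 4, 8), ((10, 6, 9), 8, 4, 5)]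
  Tc := [(1, 0, 6)]
  Td := [((0, 1), (2, 1), 6), ((0, 1), (2, 4), 3), ((1, 0), (3, 0), 2), ((1, 0), (3, 8), 3), ((1,
    6), (3, 0), 2), ((1, 6), (3, 8), 3), ((6, 1), (1, 0), 2), ((6, 1), (1, 2), 0)]
  G := [[0, 0xc65b244ca971953e29a63d8953e23ac1, 0xca971c65b4a63d4953e4f282,
    0xca978c65b8a63d1953e8f24ca974c65b4a63d1953e1f28c, 0xca971c65b1a63d1953e4f282], [0,
    0xc95b26c345a63d46a5236ca97188c1, 0xca974c65b4a6cd424e74f282,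
    0xa9ad1a63d448ed472754e182c3a971c65b4a93d4953e1f28c, 0xca6742b8e1a63d4953e1f282], [0,
    0xca971c65b4a63d1953e953e6f281, 0xca971c65b1a63d1953e1f282,
    0xc65b1953e154ca978a63d1a2cca971c65b1a63d1953e1f28c, 0xca971c65b1a63d1953e1f482], [0,
    0x35971c65b11d8b1ac36e9af481, 0xca971b1271a63d1953e1f282,
    0xc1271c65b11d8b1953e1f843bc142c1271c95b1953e1b8cc, 0xca9712b8e1a63d1953e1f282]]

noncomputable def n2285 : Ent := ⟨e2285, noF, [], [], [(8, 17, [6903326391201334775872065844685381424292761054348340378595029939040257, 0]), (8, 16, [7334685537875745012586738086077695515070955365108989538292687703031809, 0])]⟩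

def c2285 : PLift (Cov.check n2285.C.D v2285 = true) := ⟨by decide +kernel⟩

def b2285 : PLift (entF (fidx ts) 400 2285 n2285 = true) := ⟨by decide +kernel⟩

theorem g2285 : GoodF (fidx ts) 400 2285 := GoodF.ofV v2285 n2285 c2285.down b2285.down

/-- 4749454:1902/1 -/
noncomputable def e2286 : SCfg where
  D := {
    a := 7
    L := 10
    kp := 7
    inn := [(0, 1), (1, 0), (1, 2), (1, 3), (1, 4), (2, 1), (2, 3), (3, 1), (3, 2), (3, 4), (3, 5), (4,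
      1), (4, 3), (5, 3), (5, 6), (6, 5)]
    mix := [(0, 0), (0, 1), (0, 2), (1, 0), (1, 2), (1, 3), (2, 2), (2, 4), (3, 4), (3, 5), (3, 6), (3,
      7), (3, 8), (4, 3), (4, 8), (5, 1), (5, 6), (5, 7), (6, 1), (6, 7), (6, 9)]
    cl := [5, 1, 3, 4, 0, 6, 2, 2, 0, 7]
    chq := [(0, 1), (1, 0), (1, 4), (4, 1)]
    rng := [(0, 1), (0, 3), (1, 0), (1, 2), (1, 6), (1, 9), (2, 1), (2, 4), (3, 0), (3, 8), (4, 2), (4,
      5), (5, 4), (5, 6), (6, 1), (6, 5), (7, 8), (7, 9), (8, 3), (8, 7), (9, 1), (9, 7)]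
    lev := [] }
  links := [[1, 7, 8, 9], [7, 0, 9, 2, 3, 4, 10], [3, 1, 9, 11], [4, 1, 2, 11, 12, 13, 5, 14, 15], [10,
    1, 3, 15], [14, 3, 13, 8, 6], [14, 5, 8, 16]]
  P := {
    a := 7
    N := 17
    nb := [898, 1693, 2570, 63542, 33802, 24904, 82208, 1283, 74465, 2311, 32914, 4620, 10248, 4392,
      98408, 17432, 16704]
    tri := [(0, 1, 7), (0, 1, 9), (0, 7, 8), (0, 8, 9), (1, 2, 3), (1, 2, 9), (1, 3, 4), (1, 4, 10),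
      (1, 7, 10), (2, 3, 11), (2, 9, 11), (3, 4, 15), (3, 5, 13), (3, 5, 14), (3, 11, 12), (3, 12,
      13), (3, 14, 15), (4, 10, 15), (5, 6, 8), (5, 6, 14), (5, 8, 13), (6, 8, 16), (6, 14, 16)]
    fin := [0, 0, 0, 3, 0, 5, 0, 7, 0, 9, 10, 3, 12, 5, 5, 3, 16]
    chd := [(0, 3), (0, 10)]
    steps := [(0, 1), (0, 2), (0, 4), (0, 8), (0, 6), (3, 11), (3, 15), (5, 13), (5, 14)] }
  rep := [3, 0, 5, 9, 10, 7, 12, 16]

noncomputable def v2286 : Cov.CovD where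
  P := 3
  N := 5
  pl := [0, 2, 5, 9]
  lev := [⟨[], [], [], [3, 5], [(1, 1, [0, 4])]⟩,
    ⟨[], [(0, 1), (0, 4)], [], [3, 5], [(3, 4, [1])]⟩,
    ⟨[(0, 1)], [(1, 0), (1, 4)], [], [3], [(4, 0, [1])]⟩,
    ⟨[(0, 1), (1, 2)], [(1, 0), (1, 2), (1, 4), (2, 0), (2, 2)], [(0, 0), (0, 2), (2, 2)],
      [6], [(4, 0, [1]), (6, 2, []), (7, 2, []), (8, 0, [1])]⟩,
    ⟨[(0, 1), (1, 2), (1, 3), (2, 3)], [(1, 0), (1, 4), (3, 0), (3, 2), (3, 4)], [(0, 4)],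
      [], [(3, 4, [1]), (8, 0, [1])]⟩,
    ⟨[(1, 3), (2, 3), (3, 4)], [(0, 1), (3, 0), (3, 1), (3, 2)], [(1, 2), (2, 2)], [], [(1,
      1, [0, 4]), (6, 2, []), (7, 2, [])]⟩,
    ⟨[(3, 5)], [(0, 1), (3, 2), (5, 1), (5, 2)], [(1, 2)], [7], [(1, 1, [0, 4]), (7, 2,
      [])]⟩]
  Ta := [((4, 2), 0, 3), ((4, 5), 0, 6), ((6, 1), 2, 1), ((6, 5), 2, 6), ((7, 8), 2, 0), ((7, 9),
    2, 7), ((8, 3), 0, 4), ((8, 7), 0, 2)]
  Tb := [((0, 1, 3), 5, 1, 4), ((1, 0, 2), 1, 5, 3), ((1, 0, 6), 1, 5, 2), ((1, 0, 9), 1, 5, 7),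
    ((1, 2, 6), 1, 3, 2), ((1, 2, 9), 1, 3, 7), ((1, 6, 9), 1, 2, 7), ((2, 1, 4), 3, 1, 0),
    ((3, 0, 8), 4, 5, 0), ((4, 2, 5), 0, 3, 6), ((5, 4, 6), 6, 0, 2), ((6, 1, 5), 2, 1, 6),
    ((7, 8, 9), 2, 0, 7), ((8, 3, 7), 0, 4, 2), ((9, 1, 7), 7, 1, 2)]
  Tc := [(1, 0, 4)]
  Td := [((0, 1), (4, 2), 3), ((0, 1), (4, 5), 6), ((0, 1), (8, 3), 4), ((0, 1), (8, 7), 2), ((1,
    0), (1, 0), 5), ((1, 0), (1, 2), 3), ((1, 0), (1, 6), 2), ((1, 0), (1, 9), 7), ((1, 4),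
    (1, 0), 5), ((1, 4), (1, 2), 3), ((1, 4), (1, 6), 2), ((1, 4), (1, 9), 7), ((4, 1), (3,
    0), 5), ((4, 1), (3, 8), 0)]
  G := [[0, 0x1421621146c811421c2121ac412421a18186c21e, 0, 0x912942c82941512c42c41c81c22d,
    0x41122411484a8a411411a4412481a2882a411481a4e412482a4824148ca61d], [0,
    0x1414618186c811414a1818ac411418c1418cc21e, 0, 0,
    0x91122911911a8a912911a4912981a2812a911911a4e912982a9129898ca61d], [0,
    0x1814121246142c892121a2128ac412421a1421cc21e, 0, 0x512582c82582c82c42c42942c12d,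
    0x484862141416484a8a412814124148aa1418488a4e41281418414a1412482a412488aabd], [0,
    0x141461818cc811418a1818ac411414a1418ac21e,
    0xc82c8261c44c82c1ac4224c4aa1c42c82c46c42c82c48c2c82ca1d, 0,
    0x289162121916914a8a912819122198aa1912918a4e91281918988a1912982a912984a6bd]]

noncomputable def n2286 : Ent := ⟨e2286, noF, [], [], []⟩

def c2286 : PLift (Cov.check n2286.C.D v2286 = true) := ⟨by decide +kernel⟩

def b2286 : PLift (entF (fidx ts) 400 2286 n2286 = true) := ⟨by decide +kernel⟩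

theorem g2286 : GoodF (fidx ts) 400 2286 := GoodF.ofV v2286 n2286 c2286.down b2286.down

/-- 4749454:1902/2 -/
noncomputable def e2287 : SCfg where
  D := {
    a := 7
    L := 10
    kp := 7
    inn := [(0, 1), (1, 0), (1, 2), (1, 3), (1, 4), (2, 1), (2, 3), (3, 1), (3, 2), (3, 4), (3, 5), (4,
      1), (4, 3), (5, 3), (5, 6), (6, 5)]
    mix := [(0, 0), (0, 1), (0, 2), (1, 0), (1, 2), (1, 3), (2, 2), (2, 4), (3, 4), (3, 5), (3, 6), (3,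
      7), (3, 8), (4, 3), (4, 8), (5, 6), (5, 7), (5, 9), (6, 1), (6, 7), (6, 9)]
    cl := [5, 4, 3, 2, 0, 7, 1, 1, 0, 6]
    chq := [(2, 3), (2, 4), (3, 2), (4, 2)]
    rng := [(0, 1), (0, 3), (1, 0), (1, 2), (1, 7), (1, 9), (2, 1), (2, 4), (3, 0), (3, 8), (4, 2), (4,
      5), (5, 4), (5, 6), (6, 5), (6, 9), (7, 1), (7, 8), (8, 3), (8, 7), (9, 1), (9, 6)]
    lev := [] }
  links := [[1, 7, 8, 9], [7, 0, 9, 2, 3, 4, 10], [3, 1, 9, 11], [4, 1, 2, 11, 12, 13, 5, 14, 15], [10,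
    1, 3, 15], [14, 3, 13, 16, 6], [14, 5, 16, 8]]
  P := {
    a := 7
    N := 17
    nb := [898, 1693, 2570, 63542, 33802, 90184, 82208, 1283, 82625, 2311, 32914, 4620, 10248, 69672,
      33128, 17432, 8544]
    tri := [(0, 1, 7), (0, 1, 9), (0, 7, 8), (0, 8, 9), (1, 2, 3), (1, 2, 9), (1, 3, 4), (1, 4, 10),
      (1, 7, 10), (2, 3, 11), (2, 9, 11), (3, 4, 15), (3, 5, 13), (3, 5, 14), (3, 11, 12), (3, 12,
      13), (3, 14, 15), (4, 10, 15), (5, 6, 14), (5, 6, 16), (5, 13, 16), (6, 8, 14), (6, 8, 16)]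
    fin := [0, 1, 2, 3, 3, 5, 0, 7, 0, 2, 1, 3, 12, 5, 5, 3, 16]
    chd := [(0, 1), (2, 1)]
    steps := [(0, 8), (0, 6), (1, 10), (2, 9), (3, 4), (3, 11), (3, 15), (5, 13), (5, 14)] }
  rep := [3, 5, 1, 2, 0, 7, 16, 12]

noncomputable def v2287 : Cov.CovD where
  P := 3
  N := 5
  pl := [0, 5, 9]
  lev := [⟨[], [], [(3, 4)], [5], [(1, 4, [2]), (2, 3, [2])]⟩,
    ⟨[], [(0, 2), (0, 3), (0, 4)], [(2, 3)], [5], [(2, 3, [2]), (3, 2, [3, 4])]⟩,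
    ⟨[(0, 1)], [(0, 3), (1, 0), (1, 2), (1, 3)], [(0, 3)], [], [(2, 3, [2]), (4, 0, [])]⟩,
    ⟨[(0, 1), (1, 2)], [(1, 0), (1, 1), (1, 2), (1, 3), (2, 0), (2, 1), (2, 3)], [(0, 0),
      (0, 1), (1, 1)], [7], [(4, 0, []), (6, 1, []), (7, 1, []), (8, 0, [])]⟩,
    ⟨[(0, 1), (1, 2), (1, 3), (2, 3)], [(1, 0), (1, 2), (1, 3), (3, 0), (3, 1), (3, 2)],
      [(0, 2)], [], [(3, 2, [3, 4]), (8, 0, [])]⟩,
    ⟨[(1, 3), (2, 3), (3, 4)], [(3, 0), (3, 1)], [(1, 1)], [6], [(6, 1, []), (7, 1, [])]⟩,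
    ⟨[(3, 5)], [(0, 4), (3, 1), (5, 1), (5, 4)], [(1, 4)], [6], [(1, 4, [2]), (7, 1, [])]⟩]
  Ta := [((4, 2), 0, 3), ((4, 5), 0, 7), ((6, 5), 1, 7), ((6, 9), 1, 6), ((7, 1), 1, 4), ((7, 8),
    1, 0), ((8, 3), 0, 2), ((8, 7), 0, 1)]
  Tb := [((0, 1, 3), 5, 4, 2), ((1, 0, 2), 4, 5, 3), ((1, 0, 7), 4, 5, 1), ((1, 0, 9), 4, 5, 6),
    ((1, 2, 7), 4, 3, 1), ((1, 2, 9), 4, 3, 6), ((1, 7, 9), 4, 1, 6), ((2, 1, 4), 3, 4, 0),
    ((3, 0, 8), 2, 5, 0), ((4, 2, 5), 0, 3, 7), ((5, 4, 6), 7, 0, 1), ((6, 5, 9), 1, 7, 6),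
    ((7, 1, 8), 1, 4, 0), ((8, 3, 7), 0, 2, 1), ((9, 1, 6), 6, 4, 1)]
  Tc := [(2, 3, 4)]
  Td := [((2, 3), (3, 0), 5), ((2, 3), (3, 8), 0), ((2, 4), (3, 0), 5), ((2, 4), (3, 8), 0), ((3,
    2), (2, 1), 4), ((3, 2), (2, 4), 0), ((4, 2), (1, 0), 5), ((4, 2), (1, 2), 3), ((4, 2),
    (1, 7), 1), ((4, 2), (1, 9), 6)]
  G := [[0, 0, 0,
    0x829142825184285488d249844425882829844d4194429518a21c18259846285882c8c2d21582198c21f,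
    0x24c28292c41b252429518c42928298c249846924914298c4241922192c41f], [0, 0, 0,
    0x859442815882485488d419148495882849844d41914c9548a81518c5914648548494c2dc158c198c21f,
    0x84914414c182485288bc5914c9528c4851c598c248588492c4bc958d498c4254924198c41f], [0, 0,
    0x21522152c121522198c121582192c1e1,
    0x8494412494829425881849842527542158c12194c298c124c48294c2d21542158c21f,
    0x28528292c813ac2427528924922498c4926582498c1241582198c41f], [0,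
    0xca64c6a4c1ca68a6c8a4cca68c6a4c213, 0xc154481d8c1c152c192c1c152c194c1e1,
    0x849442485482948588498c41c9544194c1c958c598c148588494c2dc154c194c21f,
    0x48528498c41c952c598c181588198c248588492c4b4858c498c1241924192c41f]]

noncomputable def n2287 : Ent := ⟨e2287, noF, [], [], []⟩

def c2287 : PLift (Cov.check n2287.C.D v2287 = true) := ⟨by decide +kernel⟩

def b2287 : PLift (entF (fidx ts) 400 2287 n2287 = true) := ⟨by decide +kernel⟩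

theorem g2287 : GoodF (fidx ts) 400 2287 := GoodF.ofV v2287 n2287 c2287.down b2287.down

/-- 4749454:1902 -/
noncomputable def e2288 : SCfg where
  D := {
    a := 7
    L := 11
    kp := 8
    inn := [(0, 1), (1, 0), (1, 2), (1, 3), (1, 4), (2, 1), (2, 3), (3, 1), (3, 2), (3, 4), (3, 5), (4,
      1), (4, 3), (5, 3), (5, 6), (6, 5)]
    mix := [(0, 0), (0, 1), (0, 2), (1, 0), (1, 2), (1, 3), (2, 2), (2, 4), (3, 4), (3, 5), (3, 6), (3,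
      7), (3, 8), (4, 3), (4, 8), (5, 6), (5, 7), (5, 9), (6, 7), (6, 9), (6, 10)]
    cl := [2, 6, 0, 1, 3, 7, 4, 4, 3, 5, 8]
    chq := [(0, 1), (1, 0), (1, 6), (6, 1)]
    rng := [(0, 1), (0, 3), (1, 0), (1, 2), (2, 1), (2, 4), (3, 0), (3, 8), (4, 2), (4, 5), (5, 4), (5,
      6), (6, 5), (6, 9), (7, 8), (7, 10), (8, 3), (8, 7), (9, 6), (9, 10), (10, 7), (10, 9)]
    lev := [] }
  links := [[1, 7, 8, 9], [7, 0, 9, 2, 3, 4, 10], [3, 1, 9, 11], [4, 1, 2, 11, 12, 13, 5, 14, 15], [10,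
    1, 3, 15], [14, 3, 13, 16, 6], [14, 5, 16, 17]]
  P := {
    a := 7
    N := 18
    nb := [898, 1693, 2570, 63542, 33802, 90184, 213024, 1283, 641, 2311, 32914, 4620, 10248, 69672,
      163944, 17432, 139360, 81984]
    tri := [(0, 1, 7), (0, 1, 9), (0, 7, 8), (0, 8, 9), (1, 2, 3), (1, 2, 9), (1, 3, 4), (1, 4, 10),
      (1, 7, 10), (2, 3, 11), (2, 9, 11), (3, 4, 15), (3, 5, 13), (3, 5, 14), (3, 11, 12), (3, 12,
      13), (3, 14, 15), (4, 10, 15), (5, 6, 14), (5, 6, 16), (5, 13, 16), (6, 14, 17), (6, 16,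
      17)]
    fin := [0, 1, 2, 3, 3, 5, 5, 7, 0, 2, 1, 3, 12, 5, 5, 3, 16, 17]
    chd := [(0, 1), (2, 1)]
    steps := [(0, 8), (1, 10), (2, 9), (3, 4), (3, 11), (3, 15), (5, 6), (5, 13), (5, 14)] }
  rep := [2, 1, 7, 3, 5, 16, 0, 12, 17]

noncomputable def v2288 : Cov.CovD where
  P := 3
  N := 6
  pl := [0, 5, 9, 10]
  lev := [⟨[], [], [(0, 6)], [2], [(1, 6, [1]), (2, 0, [1])]⟩,
    ⟨[], [(0, 0), (0, 1), (0, 6)], [(0, 1)], [2], [(2, 0, [1]), (3, 1, [0, 6])]⟩,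
    ⟨[(0, 1)], [(0, 0), (1, 0), (1, 1), (1, 3)], [(0, 3)], [], [(2, 0, [1]), (4, 3, [])]⟩,
    ⟨[(0, 1), (1, 2)], [(1, 0), (1, 1), (1, 3), (1, 4), (2, 0), (2, 3), (2, 4)], [(3, 3),
      (3, 4), (4, 4)], [7], [(4, 3, []), (6, 4, []), (7, 4, []), (8, 3, [])]⟩,
    ⟨[(0, 1), (1, 2), (1, 3), (2, 3)], [(1, 0), (1, 1), (1, 3), (3, 1), (3, 3), (3, 4)],
      [(1, 3)], [], [(3, 1, [0, 6]), (8, 3, [])]⟩,
    ⟨[(1, 3), (2, 3), (3, 4)], [(3, 3), (3, 4)], [(4, 4)], [5], [(6, 4, []), (7, 4, [])]⟩,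
    ⟨[(3, 5)], [(3, 4), (5, 4)], [], [5, 8], [(7, 4, [])]⟩]
  Ta := [((4, 2), 3, 0), ((4, 5), 3, 7), ((6, 5), 4, 7), ((6, 9), 4, 5), ((7, 8), 4, 3), ((7,
    10), 4, 8), ((8, 3), 3, 1), ((8, 7), 3, 4)]
  Tb := [((0, 1, 3), 2, 6, 1), ((1, 0, 2), 6, 2, 0), ((2, 1, 4), 0, 6, 3), ((3, 0, 8), 1, 2, 3),
    ((4, 2, 5), 3, 0, 7), ((5, 4, 6), 7, 3, 4), ((6, 5, 9), 4, 7, 5), ((7, 8, 10), 4, 3, 8),
    ((8, 3, 7), 3, 1, 4), ((9, 6, 10), 5, 4, 8), ((10, 7, 9), 8, 4, 5)]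
  Tc := [(1, 0, 6)]
  Td := [((0, 1), (2, 1), 6), ((0, 1), (2, 4), 3), ((1, 0), (3, 0), 2), ((1, 0), (3, 8), 3), ((1,
    6), (3, 0), 2), ((1, 6), (3, 8), 3), ((6, 1), (1, 0), 2), ((6, 1), (1, 2), 0)]
  G := [[0, 0xc65b1ac32543a6718a63d8ca523ac1, 0x359741b8d1a63d424e74f282,
    0xc56718c65b8593d8953e17a4c56712b8e1563d1a8ed4f28c, 0xc56711b8d1563d465ce1f282], [0,
    0xc65b244ca971953e49a63d1953e83ac1, 0xca971c65b8a63d8953e8f242,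
    0xca978c65b1a63d1953e8f24ca971c65b1a63d1953e1f28c, 0xca974c65b1a63d4953e4f282], [0,
    0x724e1c65b1593d16a5a69cf241, 0x3a9712b8e1593d1953e1f282,
    0x7a271b12b145de1953e1f84c12711d8b19a3e1ba3c1468c, 0xc56712b8e1a9cd19ace1f282], [0,
    0xca971c65b1a63d1953e953ecf281, 0xca978c65b1a63d1953e1f242,
    0xca978c65b1a63d1953e1f24ca971c65b4a63d1953e1f28c, 0xca971c65b1a63d1953e1f482]]

noncomputable def n2288 : Ent := ⟨e2288, noF, [], [], [(8, 16, [7334685537875745012586738086077695515070955365108989538292687703040001, 0]), (8, 17, [6903326391201334775872065844685381424292761054348340378595029939056641, 0])]⟩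

def c2288 : PLift (Cov.check n2288.C.D v2288 = true) := ⟨by decide +kernel⟩

def b2288 : PLift (entF (fidx ts) 400 2288 n2288 = true) := ⟨by decide +kernel⟩

theorem g2288 : GoodF (fidx ts) 400 2288 := GoodF.ofV v2288 n2288 c2288.down b2288.down

/-- 4749454:1904/1 -/
noncomputable def e2289 : SCfg where
  D := {
    a := 7
    L := 10
    kp := 7
    inn := [(0, 1), (1, 0), (1, 2), (1, 3), (1, 4), (2, 1), (2, 3), (3, 1), (3, 2), (3, 4), (3, 5), (4,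
      1), (4, 3), (5, 3), (5, 6), (6, 5)]
    mix := [(0, 0), (0, 1), (0, 2), (1, 0), (1, 2), (1, 3), (2, 2), (2, 4), (3, 4), (3, 5), (3, 6), (3,
      7), (3, 8), (4, 3), (4, 8), (5, 7), (5, 8), (5, 9), (6, 1), (6, 7), (6, 9)]
    cl := [4, 3, 1, 2, 0, 6, 7, 0, 0, 5]
    chq := [(1, 2), (2, 1), (2, 3), (3, 2)]
    rng := [(0, 1), (0, 3), (1, 0), (1, 2), (1, 7), (1, 9), (2, 1), (2, 4), (3, 0), (3, 8), (4, 2), (4,
      5), (5, 4), (5, 6), (6, 5), (6, 7), (7, 1), (7, 6), (8, 3), (8, 9), (9, 1), (9, 8)]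
    lev := [] }
  links := [[1, 7, 8, 9], [7, 0, 9, 2, 3, 4, 10], [3, 1, 9, 11], [4, 1, 2, 11, 12, 13, 14, 5, 15], [10,
    1, 3, 15], [15, 3, 14, 6, 16], [16, 5, 14, 8]]
  P := {
    a := 7
    N := 17
    nb := [898, 1693, 2570, 63542, 33802, 114760, 82208, 1283, 82625, 2311, 32914, 4620, 10248, 20488,
      8552, 66616, 33120]
    tri := [(0, 1, 7), (0, 1, 9), (0, 7, 8), (0, 8, 9), (1, 2, 3), (1, 2, 9), (1, 3, 4), (1, 4, 10),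
      (1, 7, 10), (2, 3, 11), (2, 9, 11), (3, 4, 15), (3, 5, 14), (3, 5, 15), (3, 11, 12), (3, 12,
      13), (3, 13, 14), (4, 10, 15), (5, 6, 14), (5, 6, 16), (5, 15, 16), (6, 8, 14), (6, 8, 16)]
    fin := [0, 1, 2, 3, 3, 0, 0, 7, 0, 2, 1, 3, 12, 13, 3, 3, 16]
    chd := [(0, 1), (2, 1)]
    steps := [(0, 8), (0, 6), (0, 5), (1, 10), (2, 9), (3, 4), (3, 11), (3, 14), (3, 15)] }
  rep := [3, 2, 1, 0, 7, 16, 12, 13]

noncomputable def v2289 : Cov.CovD where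
  P := 3
  N := 5
  pl := [0, 5, 6, 9]
  lev := [⟨[], [], [(1, 3)], [4], [(1, 3, [2]), (2, 1, [2])]⟩,
    ⟨[], [(0, 1), (0, 2), (0, 3)], [(1, 2)], [4], [(2, 1, [2]), (3, 2, [1, 3])]⟩,
    ⟨[(0, 1)], [(0, 1), (1, 0), (1, 1), (1, 2)], [(0, 1)], [], [(2, 1, [2]), (4, 0, [])]⟩,
    ⟨[(0, 1), (1, 2)], [(1, 0), (1, 1), (1, 2), (2, 0), (2, 1)], [(0, 0)], [6, 7], [(4, 0,
      []), (7, 0, []), (8, 0, [])]⟩,
    ⟨[(0, 1), (1, 2), (1, 3), (2, 3)], [(1, 0), (1, 1), (1, 2), (3, 0), (3, 2)], [(0, 2)],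
      [], [(3, 2, [1, 3]), (8, 0, [])]⟩,
    ⟨[(1, 3), (2, 3), (3, 4)], [(3, 0), (4, 0)], [(0, 0)], [5], [(7, 0, []), (8, 0, [])]⟩,
    ⟨[(3, 5)], [(0, 3), (3, 0), (5, 0), (5, 3)], [(0, 3)], [5], [(1, 3, [2]), (7, 0, [])]⟩]
  Ta := [((4, 2), 0, 1), ((4, 5), 0, 6), ((7, 1), 0, 3), ((7, 6), 0, 7), ((8, 3), 0, 2), ((8, 9),
    0, 5)]
  Tb := [((0, 1, 3), 4, 3, 2), ((1, 0, 2), 3, 4, 1), ((1, 0, 7), 3, 4, 0), ((1, 0, 9), 3, 4, 5),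
    ((1, 2, 7), 3, 1, 0), ((1, 2, 9), 3, 1, 5), ((1, 7, 9), 3, 0, 5), ((2, 1, 4), 1, 3, 0),
    ((3, 0, 8), 2, 4, 0), ((4, 2, 5), 0, 1, 6), ((5, 4, 6), 6, 0, 7), ((6, 5, 7), 7, 6, 0),
    ((7, 1, 6), 0, 3, 7), ((8, 3, 9), 0, 2, 5), ((9, 1, 8), 5, 3, 0)]
  Tc := [(2, 1, 3)]
  Td := [((1, 2), (2, 1), 3), ((1, 2), (2, 4), 0), ((2, 1), (3, 0), 4), ((2, 1), (3, 8), 0), ((2,
    3), (3, 0), 4), ((2, 3), (3, 8), 0), ((3, 2), (1, 0), 4), ((3, 2), (1, 2), 1), ((3, 2),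
    (1, 7), 0), ((3, 2), (1, 9), 5)]
  G := [[0, 0x82a8411681168ac4126111a821c1e2811a411c4611648c116411a111c8e8ce, 0,
    0x126212a211a1e4116211a811a8e8c2, 0x116211a211c2e48116211a811a8e815], [0, 0, 0,
    0xc261c2a1e2c8e1c262c2a22ec8e852,
    0x84a182c2614262889ca6242a224c1e4486284a884a8e494aa242a826c2e41d], [0, 0,
    0x116411a811c2e4116411a211c2e8c1, 0x126412a23164e412a212a231a4e1c2,
    0xc16293c8c168e18536214a21dc2e815]]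

noncomputable def n2289 : Ent := ⟨e2289, noF, [], [], []⟩

def c2289 : PLift (Cov.check n2289.C.D v2289 = true) := ⟨by decide +kernel⟩

def b2289 : PLift (entF (fidx ts) 400 2289 n2289 = true) := ⟨by decide +kernel⟩

theorem g2289 : GoodF (fidx ts) 400 2289 := GoodF.ofV v2289 n2289 c2289.down b2289.down

/-- 4749454:1904/2 -/
noncomputable def e2290 : SCfg where
  D := {
    a := 7
    L := 10
    kp := 7
    inn := [(0, 1), (1, 0), (1, 2), (1, 3), (1, 4), (2, 1), (2, 3), (3, 1), (3, 2), (3, 4), (3, 5), (4,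
      1), (4, 3), (5, 3), (5, 6), (6, 5)]
    mix := [(0, 0), (0, 1), (0, 2), (1, 0), (1, 2), (1, 3), (2, 2), (2, 4), (3, 4), (3, 5), (3, 6), (3,
      7), (3, 8), (4, 3), (4, 8), (5, 1), (5, 7), (5, 8), (6, 1), (6, 7), (6, 9)]
    cl := [2, 3, 1, 4, 0, 5, 6, 0, 0, 7]
    chq := [(1, 4), (3, 4), (4, 1), (4, 3)]
    rng := [(0, 1), (0, 3), (1, 0), (1, 2), (1, 8), (1, 9), (2, 1), (2, 4), (3, 0), (3, 8), (4, 2), (4,
      5), (5, 4), (5, 6), (6, 5), (6, 7), (7, 6), (7, 9), (8, 1), (8, 3), (9, 1), (9, 7)]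
    lev := [] }
  links := [[1, 7, 8, 9], [7, 0, 9, 2, 3, 4, 10], [3, 1, 9, 11], [4, 1, 2, 11, 12, 13, 14, 5, 15], [10,
    1, 3, 15], [15, 3, 14, 6, 8], [8, 5, 14, 16]]
  P := {
    a := 7
    N := 17
    nb := [898, 1693, 2570, 63542, 33802, 49480, 82208, 1283, 99041, 2311, 32914, 4620, 10248, 20488,
      73832, 1336, 16704]
    tri := [(0, 1, 7), (0, 1, 9), (0, 7, 8), (0, 8, 9), (1, 2, 3), (1, 2, 9), (1, 3, 4), (1, 4, 10),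
      (1, 7, 10), (2, 3, 11), (2, 9, 11), (3, 4, 15), (3, 5, 14), (3, 5, 15), (3, 11, 12), (3, 12,
      13), (3, 13, 14), (4, 10, 15), (5, 6, 8), (5, 6, 14), (5, 8, 15), (6, 8, 16), (6, 14, 16)]
    fin := [0, 1, 2, 3, 3, 0, 0, 7, 0, 2, 1, 3, 12, 13, 3, 3, 16]
    chd := [(0, 1), (2, 1)]
    steps := [(0, 8), (0, 5), (0, 6), (1, 10), (2, 9), (3, 4), (3, 11), (3, 14), (3, 15)] }
  rep := [3, 2, 7, 0, 1, 12, 13, 16]

noncomputable def v2290 : Cov.CovD where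
  P := 3
  N := 5
  pl := [0, 5, 6, 9]
  lev := [⟨[], [], [(1, 3)], [2], [(1, 3, [4]), (2, 1, [4])]⟩,
    ⟨[], [(0, 1), (0, 3), (0, 4)], [(1, 4)], [2], [(2, 1, [4]), (3, 4, [1, 3])]⟩,
    ⟨[(0, 1)], [(0, 1), (1, 0), (1, 1), (1, 4)], [(0, 1)], [], [(2, 1, [4]), (4, 0, [])]⟩,
    ⟨[(0, 1), (1, 2)], [(1, 0), (1, 1), (1, 4), (2, 0), (2, 1)], [(0, 0)], [5, 6], [(4, 0,
      []), (7, 0, []), (8, 0, [])]⟩,
    ⟨[(0, 1), (1, 2), (1, 3), (2, 3)], [(1, 0), (1, 1), (1, 4), (3, 0), (3, 4)], [(0, 4)],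
      [], [(3, 4, [1, 3]), (8, 0, [])]⟩,
    ⟨[(1, 3), (2, 3), (3, 4)], [(0, 3), (3, 0), (3, 3), (4, 0)], [(0, 0), (0, 3)], [], [(1,
      3, [4]), (7, 0, []), (8, 0, [])]⟩,
    ⟨[(3, 5)], [(0, 3), (3, 0), (5, 0), (5, 3)], [(0, 3)], [7], [(1, 3, [4]), (7, 0, [])]⟩]
  Ta := [((4, 2), 0, 1), ((4, 5), 0, 5), ((7, 6), 0, 6), ((7, 9), 0, 7), ((8, 1), 0, 3), ((8, 3),
    0, 4)]
  Tb := [((0, 1, 3), 2, 3, 4), ((1, 0, 2), 3, 2, 1), ((1, 0, 8), 3, 2, 0), ((1, 0, 9), 3, 2, 7),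
    ((1, 2, 8), 3, 1, 0), ((1, 2, 9), 3, 1, 7), ((1, 8, 9), 3, 0, 7), ((2, 1, 4), 1, 3, 0),
    ((3, 0, 8), 4, 2, 0), ((4, 2, 5), 0, 1, 5), ((5, 4, 6), 5, 0, 6), ((6, 5, 7), 6, 5, 0),
    ((7, 6, 9), 0, 6, 7), ((8, 1, 3), 0, 3, 4), ((9, 1, 7), 7, 3, 0)]
  Tc := [(4, 1, 3)]
  Td := [((1, 4), (2, 1), 3), ((1, 4), (2, 4), 0), ((3, 4), (1, 0), 2), ((3, 4), (1, 2), 1), ((3,
    4), (1, 8), 0), ((3, 4), (1, 9), 7), ((4, 1), (3, 0), 2), ((4, 1), (3, 8), 0), ((4, 3),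
    (3, 0), 2), ((4, 3), (3, 8), 0)]
  G := [[0x11c1181181e4212112111a1e48a, 0x11c1181181e2414111a1141e48c,
    0x1162182181e8414111a2141e48c, 0x12212211c2e811, 0x116211a21418ce411], [0, 0,
    0xca61e81e81e14e42c6a2e41e18c, 0xe22e22246a8ce411, 0xca62c6a2e4e8ce811], [0, 0,
    0x11a2182184e1414211621214ae18c, 0xd24a82a82e14722722642e48c,
    0x1a62d82a1cc86e81116211a21168e189]]

noncomputable def n2290 : Ent := ⟨e2290, noF, [], [], []⟩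

def c2290 : PLift (Cov.check n2290.C.D v2290 = true) := ⟨by decide +kernel⟩

def b2290 : PLift (entF (fidx ts) 400 2290 n2290 = true) := ⟨by decide +kernel⟩

theorem g2290 : GoodF (fidx ts) 400 2290 := GoodF.ofV v2290 n2290 c2290.down b2290.down

/-- 4749454:1904 -/
noncomputable def e2291 : SCfg where
  D := {
    a := 7
    L := 11
    kp := 8
    inn := [(0, 1), (1, 0), (1, 2), (1, 3), (1, 4), (2, 1), (2, 3), (3, 1), (3, 2), (3, 4), (3, 5), (4,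
      1), (4, 3), (5, 3), (5, 6), (6, 5)]
    mix := [(0, 0), (0, 1), (0, 2), (1, 0), (1, 2), (1, 3), (2, 2), (2, 4), (3, 4), (3, 5), (3, 6), (3,
      7), (3, 8), (4, 3), (4, 8), (5, 7), (5, 8), (5, 9), (6, 7), (6, 9), (6, 10)]
    cl := [2, 5, 1, 3, 0, 6, 7, 0, 0, 4, 8]
    chq := [(1, 3), (3, 1), (3, 5), (5, 3)]
    rng := [(0, 1), (0, 3), (1, 0), (1, 2), (2, 1), (2, 4), (3, 0), (3, 8), (4, 2), (4, 5), (5, 4), (5,
      6), (6, 5), (6, 7), (7, 6), (7, 10), (8, 3), (8, 9), (9, 8), (9, 10), (10, 7), (10, 9)]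
    lev := [] }
  links := [[1, 7, 8, 9], [7, 0, 9, 2, 3, 4, 10], [3, 1, 9, 11], [4, 1, 2, 11, 12, 13, 14, 5, 15], [10,
    1, 3, 15], [15, 3, 14, 6, 16], [16, 5, 14, 17]]
  P := {
    a := 7
    N := 18
    nb := [898, 1693, 2570, 63542, 33802, 114760, 213024, 1283, 641, 2311, 32914, 4620, 10248, 20488,
      139368, 66616, 163936, 81984]
    tri := [(0, 1, 7), (0, 1, 9), (0, 7, 8), (0, 8, 9), (1, 2, 3), (1, 2, 9), (1, 3, 4), (1, 4, 10),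
      (1, 7, 10), (2, 3, 11), (2, 9, 11), (3, 4, 15), (3, 5, 14), (3, 5, 15), (3, 11, 12), (3, 12,
      13), (3, 13, 14), (4, 10, 15), (5, 6, 14), (5, 6, 16), (5, 15, 16), (6, 14, 17), (6, 16,
      17)]
    fin := [0, 1, 2, 3, 3, 3, 3, 7, 0, 2, 1, 3, 12, 13, 3, 3, 16, 17]
    chd := [(0, 1), (2, 1)]
    steps := [(0, 8), (1, 10), (2, 9), (3, 4), (3, 5), (3, 6), (3, 11), (3, 14), (3, 15)] }
  rep := [3, 2, 7, 1, 16, 0, 12, 13, 17]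

noncomputable def v2291 : Cov.CovD where
  P := 3
  N := 6
  pl := [0, 5, 6, 9, 10]
  lev := [⟨[], [], [(1, 5)], [2], [(1, 5, [3]), (2, 1, [3])]⟩,
    ⟨[], [(0, 1), (0, 3), (0, 5)], [(1, 3)], [2], [(2, 1, [3]), (3, 3, [1, 5])]⟩,
    ⟨[(0, 1)], [(0, 1), (1, 0), (1, 1), (1, 3)], [(0, 1)], [], [(2, 1, [3]), (4, 0, [])]⟩,
    ⟨[(0, 1), (1, 2)], [(1, 0), (1, 1), (1, 3), (2, 0), (2, 1)], [(0, 0)], [6, 7], [(4, 0,
      []), (7, 0, []), (8, 0, [])]⟩,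
    ⟨[(0, 1), (1, 2), (1, 3), (2, 3)], [(1, 0), (1, 1), (1, 3), (3, 0), (3, 3)], [(0, 3)],
      [], [(3, 3, [1, 5]), (8, 0, [])]⟩,
    ⟨[(1, 3), (2, 3), (3, 4)], [(3, 0), (4, 0)], [(0, 0)], [4], [(7, 0, []), (8, 0, [])]⟩,
    ⟨[(3, 5)], [(3, 0), (5, 0)], [], [4, 8], [(7, 0, [])]⟩]
  Ta := [((4, 2), 0, 1), ((4, 5), 0, 6), ((7, 6), 0, 7), ((7, 10), 0, 8), ((8, 3), 0, 3), ((8,
    9), 0, 4)]
  Tb := [((0, 1, 3), 2, 5, 3), ((1, 0, 2), 5, 2, 1), ((2, 1, 4), 1, 5, 0), ((3, 0, 8), 3, 2, 0),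
    ((4, 2, 5), 0, 1, 6), ((5, 4, 6), 6, 0, 7), ((6, 5, 7), 7, 6, 0), ((7, 6, 10), 0, 7, 8),
    ((8, 3, 9), 0, 3, 4), ((9, 8, 10), 4, 0, 8), ((10, 7, 9), 8, 0, 4)]
  Tc := [(3, 1, 5)]
  Td := [((1, 3), (2, 1), 5), ((1, 3), (2, 4), 0), ((3, 1), (3, 0), 2), ((3, 1), (3, 8), 0), ((3,
    5), (3, 0), 2), ((3, 5), (3, 8), 0), ((5, 3), (1, 0), 2), ((5, 3), (1, 2), 1)]
  G := [[0x11a111a111c1e24116111c111c1e28c, 0x116111a111c1e84116111a111c1e48c,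
    0x116211a211a1e84116211a111a1e48c, 0x11c211a211c2e41116211c811c2e81c,
    0x116211c211c11c6e811162116811a8e819], [0, 0, 0xca61c6a1a6c1e84ca61c6a2a6c1e48c,
    0xca64c6a2a6c2e81ca62c6a2a6c2e81c, 0xca62c6a2a6ca6cae81ca68c6a2a6c8e419], [0, 0,
    0xc16253a216c4e14c16216a2c168e48c, 0xc162c1a235c2e4116a216a2a1c4e145,
    0x71a295a2a1c93c6e411a621bc2c168e189]]

noncomputable def n2291 : Ent := ⟨e2291, noF, [], [], [(8, 17, [6903326391201334775872065844685381424292761054348340378595029939064833, 0]), (8, 16, [7334685537875745012586738086077695515070955365108989538292687703056385, 0])]⟩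

def c2291 : PLift (Cov.check n2291.C.D v2291 = true) := ⟨by decide +kernel⟩

def b2291 : PLift (entF (fidx ts) 400 2291 n2291 = true) := ⟨by decide +kernel⟩

theorem g2291 : GoodF (fidx ts) 400 2291 := GoodF.ofV v2291 n2291 c2291.down b2291.down

/-- 4749454:1905/1 -/
noncomputable def e2292 : SCfg where
  D := {
    a := 7
    L := 10
    kp := 7
    inn := [(0, 1), (1, 0), (1, 2), (1, 3), (1, 4), (2, 1), (2, 3), (3, 1), (3, 2), (3, 4), (3, 5), (4,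
      1), (4, 3), (5, 3), (5, 6), (6, 5)]
    mix := [(0, 0), (0, 1), (0, 2), (1, 0), (1, 2), (1, 3), (2, 2), (2, 4), (3, 4), (3, 5), (3, 6), (3,
      7), (3, 8), (4, 3), (4, 8), (5, 1), (5, 7), (5, 8), (6, 1), (6, 8), (6, 9)]
    cl := [4, 3, 1, 2, 0, 5, 6, 0, 0, 7]
    chq := [(1, 2), (2, 1), (2, 3), (3, 2)]
    rng := [(0, 1), (0, 3), (1, 0), (1, 2), (1, 7), (1, 9), (2, 1), (2, 4), (3, 0), (3, 8), (4, 2), (4,
      5), (5, 4), (5, 6), (6, 5), (6, 7), (7, 1), (7, 6), (8, 3), (8, 9), (9, 1), (9, 8)]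
    lev := [] }
  links := [[1, 7, 8, 9], [7, 0, 9, 2, 3, 4, 10], [3, 1, 9, 11], [4, 1, 2, 11, 12, 13, 14, 5, 15], [10,
    1, 3, 15], [15, 3, 14, 8, 6], [15, 5, 8, 16]]
  P := {
    a := 7
    N := 17
    nb := [898, 1693, 2570, 63542, 33802, 49480, 98592, 1283, 82657, 2311, 32914, 4620, 10248, 20488,
      8488, 66680, 33088]
    tri := [(0, 1, 7), (0, 1, 9), (0, 7, 8), (0, 8, 9), (1, 2, 3), (1, 2, 9), (1, 3, 4), (1, 4, 10),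
      (1, 7, 10), (2, 3, 11), (2, 9, 11), (3, 4, 15), (3, 5, 14), (3, 5, 15), (3, 11, 12), (3, 12,
      13), (3, 13, 14), (4, 10, 15), (5, 6, 8), (5, 6, 15), (5, 8, 14), (6, 8, 16), (6, 15, 16)]
    fin := [0, 1, 2, 3, 3, 0, 0, 7, 0, 2, 1, 3, 12, 13, 3, 3, 16]
    chd := [(0, 1), (2, 1)]
    steps := [(0, 8), (0, 5), (0, 6), (1, 10), (2, 9), (3, 4), (3, 11), (3, 14), (3, 15)] }
  rep := [3, 2, 1, 0, 7, 12, 13, 16]

noncomputable def v2292 : Cov.CovD where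
  P := 3
  N := 5
  pl := [0, 5, 6, 9]
  lev := [⟨[], [], [(1, 3)], [4], [(1, 3, [2]), (2, 1, [2])]⟩,
    ⟨[], [(0, 1), (0, 2), (0, 3)], [(1, 2)], [4], [(2, 1, [2]), (3, 2, [1, 3])]⟩,
    ⟨[(0, 1)], [(0, 1), (1, 0), (1, 1), (1, 2)], [(0, 1)], [], [(2, 1, [2]), (4, 0, [])]⟩,
    ⟨[(0, 1), (1, 2)], [(1, 0), (1, 1), (1, 2), (2, 0), (2, 1)], [(0, 0)], [5, 6], [(4, 0,
      []), (7, 0, []), (8, 0, [])]⟩,
    ⟨[(0, 1), (1, 2), (1, 3), (2, 3)], [(1, 0), (1, 1), (1, 2), (3, 0), (3, 2)], [(0, 2)],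
      [], [(3, 2, [1, 3]), (8, 0, [])]⟩,
    ⟨[(1, 3), (2, 3), (3, 4)], [(0, 3), (3, 0), (3, 3), (4, 0)], [(0, 0), (0, 3)], [], [(1,
      3, [2]), (7, 0, []), (8, 0, [])]⟩,
    ⟨[(3, 5)], [(0, 3), (3, 0), (4, 0), (5, 0), (5, 3)], [(0, 3)], [7], [(1, 3, [2]), (8,
      0, [])]⟩]
  Ta := [((4, 2), 0, 1), ((4, 5), 0, 5), ((7, 1), 0, 3), ((7, 6), 0, 6), ((8, 3), 0, 2), ((8, 9),
    0, 7)]
  Tb := [((0, 1, 3), 4, 3, 2), ((1, 0, 2), 3, 4, 1), ((1, 0, 7), 3, 4, 0), ((1, 0, 9), 3, 4, 7),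
    ((1, 2, 7), 3, 1, 0), ((1, 2, 9), 3, 1, 7), ((1, 7, 9), 3, 0, 7), ((2, 1, 4), 1, 3, 0),
    ((3, 0, 8), 2, 4, 0), ((4, 2, 5), 0, 1, 5), ((5, 4, 6), 5, 0, 6), ((6, 5, 7), 6, 5, 0),
    ((7, 1, 6), 0, 3, 6), ((8, 3, 9), 0, 2, 7), ((9, 1, 8), 7, 3, 0)]
  Tc := [(2, 1, 3)]
  Td := [((1, 2), (2, 1), 3), ((1, 2), (2, 4), 0), ((2, 1), (3, 0), 4), ((2, 1), (3, 8), 0), ((2,
    3), (3, 0), 4), ((2, 3), (3, 8), 0), ((3, 2), (1, 0), 4), ((3, 2), (1, 2), 1), ((3, 2),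
    (1, 7), 0), ((3, 2), (1, 9), 7)]
  G := [[0, 0x1841846212488c1244214821288ac1164128148e418411a8184e2ce, 0,
    0x124122128e4124122128e8c2, 0x116211a811c2e481421468142e815], [0, 0, 0,
    0x724d28d28e4d22e21d28e8c2, 0xc82682646228891162128148e1a22c88c82e49148122142e41d], [0,
    0, 0xca64c6a8a6c2e4ca62c6a8a6c8e1c1, 0xe24e28268e8e8e24e2222ce4e852,
    0xca62c6a8a6c8e18e48c6a2e48e415]]

noncomputable def n2292 : Ent := ⟨e2292, noF, [], [], []⟩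

def c2292 : PLift (Cov.check n2292.C.D v2292 = true) := ⟨by decide +kernel⟩

def b2292 : PLift (entF (fidx ts) 400 2292 n2292 = true) := ⟨by decide +kernel⟩

theorem g2292 : GoodF (fidx ts) 400 2292 := GoodF.ofV v2292 n2292 c2292.down b2292.down

/-- 4749454:1905/2 -/
noncomputable def e2293 : SCfg where
  D := {
    a := 7
    L := 10
    kp := 7
    inn := [(0, 1), (1, 0), (1, 2), (1, 3), (1, 4), (2, 1), (2, 3), (3, 1), (3, 2), (3, 4), (3, 5), (4,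
      1), (4, 3), (5, 3), (5, 6), (6, 5)]
    mix := [(0, 0), (0, 1), (0, 2), (1, 0), (1, 2), (1, 3), (2, 2), (2, 4), (3, 4), (3, 5), (3, 6), (3,
      7), (3, 8), (4, 3), (4, 8), (5, 7), (5, 8), (5, 9), (6, 1), (6, 8), (6, 9)]
    cl := [2, 4, 1, 3, 0, 6, 7, 0, 0, 5]
    chq := [(1, 3), (3, 1), (3, 4), (4, 3)]
    rng := [(0, 1), (0, 3), (1, 0), (1, 2), (1, 8), (1, 9), (2, 1), (2, 4), (3, 0), (3, 8), (4, 2), (4,
      5), (5, 4), (5, 6), (6, 5), (6, 7), (7, 6), (7, 9), (8, 1), (8, 3), (9, 1), (9, 7)]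
    lev := [] }
  links := [[1, 7, 8, 9], [7, 0, 9, 2, 3, 4, 10], [3, 1, 9, 11], [4, 1, 2, 11, 12, 13, 14, 5, 15], [10,
    1, 3, 15], [15, 3, 14, 16, 6], [15, 5, 16, 8]]
  P := {
    a := 7
    N := 17
    nb := [898, 1693, 2570, 63542, 33802, 114760, 98592, 1283, 99009, 2311, 32914, 4620, 10248, 20488,
      73768, 1400, 16736]
    tri := [(0, 1, 7), (0, 1, 9), (0, 7, 8), (0, 8, 9), (1, 2, 3), (1, 2, 9), (1, 3, 4), (1, 4, 10),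
      (1, 7, 10), (2, 3, 11), (2, 9, 11), (3, 4, 15), (3, 5, 14), (3, 5, 15), (3, 11, 12), (3, 12,
      13), (3, 13, 14), (4, 10, 15), (5, 6, 15), (5, 6, 16), (5, 14, 16), (6, 8, 15), (6, 8, 16)]
    fin := [0, 1, 2, 3, 3, 0, 0, 7, 0, 2, 1, 3, 12, 13, 3, 3, 16]
    chd := [(0, 1), (2, 1)]
    steps := [(0, 8), (0, 6), (0, 5), (1, 10), (2, 9), (3, 4), (3, 11), (3, 14), (3, 15)] }
  rep := [3, 2, 7, 1, 0, 16, 12, 13]

noncomputable def v2293 : Cov.CovD where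
  P := 3
  N := 5
  pl := [0, 5, 6, 9]
  lev := [⟨[], [], [(1, 4)], [2], [(1, 4, [3]), (2, 1, [3])]⟩,
    ⟨[], [(0, 1), (0, 3), (0, 4)], [(1, 3)], [2], [(2, 1, [3]), (3, 3, [1, 4])]⟩,
    ⟨[(0, 1)], [(0, 1), (1, 0), (1, 1), (1, 3)], [(0, 1)], [], [(2, 1, [3]), (4, 0, [])]⟩,
    ⟨[(0, 1), (1, 2)], [(1, 0), (1, 1), (1, 3), (2, 0), (2, 1)], [(0, 0)], [6, 7], [(4, 0,
      []), (7, 0, []), (8, 0, [])]⟩,
    ⟨[(0, 1), (1, 2), (1, 3), (2, 3)], [(1, 0), (1, 1), (1, 3), (3, 0), (3, 3)], [(0, 3)],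
      [], [(3, 3, [1, 4]), (8, 0, [])]⟩,
    ⟨[(1, 3), (2, 3), (3, 4)], [(3, 0), (4, 0)], [(0, 0)], [5], [(7, 0, []), (8, 0, [])]⟩,
    ⟨[(3, 5)], [(0, 4), (3, 0), (4, 0), (5, 0), (5, 4)], [(0, 4)], [5], [(1, 4, [3]), (8,
      0, [])]⟩]
  Ta := [((4, 2), 0, 1), ((4, 5), 0, 6), ((7, 6), 0, 7), ((7, 9), 0, 5), ((8, 1), 0, 4), ((8, 3),
    0, 3)]
  Tb := [((0, 1, 3), 2, 4, 3), ((1, 0, 2), 4, 2, 1), ((1, 0, 8), 4, 2, 0), ((1, 0, 9), 4, 2, 5),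
    ((1, 2, 8), 4, 1, 0), ((1, 2, 9), 4, 1, 5), ((1, 8, 9), 4, 0, 5), ((2, 1, 4), 1, 4, 0),
    ((3, 0, 8), 3, 2, 0), ((4, 2, 5), 0, 1, 6), ((5, 4, 6), 6, 0, 7), ((6, 5, 7), 7, 6, 0),
    ((7, 6, 9), 0, 7, 5), ((8, 1, 3), 0, 4, 3), ((9, 1, 7), 5, 4, 0)]
  Tc := [(3, 1, 4)]
  Td := [((1, 3), (2, 1), 4), ((1, 3), (2, 4), 0), ((3, 1), (3, 0), 2), ((3, 1), (3, 8), 0), ((3,
    4), (3, 0), 2), ((3, 4), (3, 8), 0), ((4, 3), (1, 0), 2), ((4, 3), (1, 2), 1), ((4, 3),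
    (1, 8), 0), ((4, 3), (1, 9), 5)]
  G := [[0x11a211a214a4c5e4212c26511a81168e48a, 0x116486a111a4e84ca6141a18a11c8e28c,
    0x116286a111a4e84116211a211a8e48c, 0x1262116212c2e811, 0x116211a2141218ee811], [0, 0,
    0x1a621288381a4e14156216a2a6c1e48c, 0x126212c221c2e811, 0x16c216a214c816ce411], [0, 0,
    0xca6286a2a6c4e844a62c6a2a6c8e18c, 0x482e2c2a282c2e41844266c2a8a6c2e489,
    0xca6286a226c84c6e41ca62c6a2a6c8e489]]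

noncomputable def n2293 : Ent := ⟨e2293, noF, [], [], []⟩

def c2293 : PLift (Cov.check n2293.C.D v2293 = true) := ⟨by decide +kernel⟩

def b2293 : PLift (entF (fidx ts) 400 2293 n2293 = true) := ⟨by decide +kernel⟩

theorem g2293 : GoodF (fidx ts) 400 2293 := GoodF.ofV v2293 n2293 c2293.down b2293.down

/-- 4749454:1905/3 -/
noncomputable def e2294 : SCfg where
  D := {
    a := 7
    L := 10
    kp := 7
    inn := [(0, 1), (1, 0), (1, 2), (1, 3), (1, 4), (2, 1), (2, 3), (3, 1), (3, 2), (3, 4), (3, 5), (4,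
      1), (4, 3), (5, 3), (5, 6), (6, 5)]
    mix := [(0, 0), (0, 1), (0, 2), (1, 0), (1, 2), (1, 3), (2, 2), (2, 4), (3, 4), (3, 5), (3, 6), (3,
      7), (3, 8), (4, 3), (4, 8), (5, 7), (5, 8), (5, 9), (6, 3), (6, 8), (6, 9)]
    cl := [2, 5, 1, 0, 3, 6, 7, 3, 3, 4]
    chq := [(0, 1), (0, 5), (1, 0), (5, 0)]
    rng := [(0, 1), (0, 3), (1, 0), (1, 2), (2, 1), (2, 4), (3, 0), (3, 8), (3, 9), (4, 2), (4, 5), (5,
      4), (5, 6), (6, 5), (6, 7), (7, 6), (7, 9), (8, 3), (9, 3), (9, 7)]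
    lev := [] }
  links := [[1, 7, 8, 9], [7, 0, 9, 2, 3, 4, 10], [3, 1, 9, 11], [4, 1, 2, 11, 12, 13, 14, 5, 15], [10,
    1, 3, 15], [15, 3, 14, 16, 6], [15, 5, 16, 10]]
  P := {
    a := 7
    N := 17
    nb := [898, 1693, 2570, 63542, 33802, 114760, 99360, 1283, 641, 2311, 98514, 4620, 10248, 20488,
      73768, 1144, 17504]
    tri := [(0, 1, 7), (0, 1, 9), (0, 7, 8), (0, 8, 9), (1, 2, 3), (1, 2, 9), (1, 3, 4), (1, 4, 10),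
      (1, 7, 10), (2, 3, 11), (2, 9, 11), (3, 4, 15), (3, 5, 14), (3, 5, 15), (3, 11, 12), (3, 12,
      13), (3, 13, 14), (4, 10, 15), (5, 6, 15), (5, 6, 16), (5, 14, 16), (6, 10, 15), (6, 10,
      16)]
    fin := [0, 1, 2, 3, 3, 3, 3, 7, 0, 2, 1, 3, 12, 13, 3, 3, 16]
    chd := [(0, 1), (2, 1)]
    steps := [(0, 8), (1, 10), (2, 9), (3, 4), (3, 5), (3, 11), (3, 14), (3, 15), (3, 6)] }
  rep := [1, 2, 7, 3, 16, 0, 12, 13]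

noncomputable def v2294 : Cov.CovD where
  P := 3
  N := 5
  pl := [0, 5, 6, 9]
  lev := [⟨[], [], [(1, 5)], [2], [(1, 5, [0]), (2, 1, [0])]⟩,
    ⟨[], [(0, 0), (0, 1), (0, 5)], [(0, 1)], [2], [(2, 1, [0]), (3, 0, [1, 5])]⟩,
    ⟨[(0, 1)], [(0, 1), (1, 0), (1, 1), (1, 3)], [(1, 3)], [], [(2, 1, [0]), (4, 3, [])]⟩,
    ⟨[(0, 1), (1, 2)], [(1, 0), (1, 1), (1, 3), (2, 1), (2, 3)], [(3, 3)], [6, 7], [(4, 3,
      []), (7, 3, []), (8, 3, [])]⟩,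
    ⟨[(0, 1), (1, 2), (1, 3), (2, 3)], [(1, 0), (1, 1), (1, 3), (3, 0), (3, 3)], [(0, 3)],
      [], [(3, 0, [1, 5]), (8, 3, [])]⟩,
    ⟨[(1, 3), (2, 3), (3, 4)], [(3, 3), (4, 3)], [(3, 3)], [4], [(7, 3, []), (8, 3, [])]⟩,
    ⟨[(3, 5)], [(1, 0), (3, 3), (4, 0), (4, 3), (5, 0), (5, 3)], [(0, 3)], [4], [(3, 0, [1,
      5]), (8, 3, [])]⟩]
  Ta := [((4, 2), 3, 1), ((4, 5), 3, 6), ((7, 6), 3, 7), ((7, 9), 3, 4), ((8, 3), 3, 0)]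
  Tb := [((0, 1, 3), 2, 5, 0), ((1, 0, 2), 5, 2, 1), ((2, 1, 4), 1, 5, 3), ((3, 0, 8), 0, 2, 3),
    ((3, 0, 9), 0, 2, 4), ((3, 8, 9), 0, 3, 4), ((4, 2, 5), 3, 1, 6), ((5, 4, 6), 6, 3, 7),
    ((6, 5, 7), 7, 6, 3), ((7, 6, 9), 3, 7, 4), ((9, 3, 7), 4, 0, 3)]
  Tc := [(0, 1, 5)]
  Td := [((0, 1), (3, 0), 2), ((0, 1), (3, 8), 3), ((0, 1), (3, 9), 4), ((0, 5), (3, 0), 2), ((0,
    5), (3, 8), 3), ((0, 5), (3, 9), 4), ((1, 0), (2, 1), 5), ((1, 0), (2, 4), 3), ((5, 0),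
    (1, 0), 2), ((5, 0), (1, 2), 1)]
  G := [[0, 0xa112145461186184123ac1, 0x41818121c18618c12ed4a1441c12c12842e2b1cc,
    0x448728c5282cd2842e2f181, 0x84c722184682416842e2f181], [0, 0xc18a11611618f241,
    0x612c12a12618f84a14c12c12a14f48c, 0x243228324281a2438f841, 0x24322832824162832f481], [0,
    0xe11e11e12a161cf841, 0xa122432e12842e2f14a1261286922c32f48c, 0x82878824b224ad2842e2f141,
    0x82872824b2842d2842e2f481]]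

noncomputable def n2294 : Ent := ⟨e2294, noF, [], [], []⟩

def c2294 : PLift (Cov.check n2294.C.D v2294 = true) := ⟨by decide +kernel⟩

def b2294 : PLift (entF (fidx ts) 400 2294 n2294 = true) := ⟨by decide +kernel⟩

theorem g2294 : GoodF (fidx ts) 400 2294 := GoodF.ofV v2294 n2294 c2294.down b2294.down

/-- 4749454:1905 -/
noncomputable def e2295 : SCfg where
  D := {
    a := 7
    L := 11
    kp := 8
    inn := [(0, 1), (1, 0), (1, 2), (1, 3), (1, 4), (2, 1), (2, 3), (3, 1), (3, 2), (3, 4), (3, 5), (4,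
      1), (4, 3), (5, 3), (5, 6), (6, 5)]
    mix := [(0, 0), (0, 1), (0, 2), (1, 0), (1, 2), (1, 3), (2, 2), (2, 4), (3, 4), (3, 5), (3, 6), (3,
      7), (3, 8), (4, 3), (4, 8), (5, 7), (5, 8), (5, 9), (6, 8), (6, 9), (6, 10)]
    cl := [2, 5, 1, 3, 0, 6, 7, 0, 0, 4, 8]
    chq := [(1, 3), (3, 1), (3, 5), (5, 3)]
    rng := [(0, 1), (0, 3), (1, 0), (1, 2), (2, 1), (2, 4), (3, 0), (3, 8), (4, 2), (4, 5), (5, 4), (5,
      6), (6, 5), (6, 7), (7, 6), (7, 9), (8, 3), (8, 10), (9, 7), (9, 10), (10, 8), (10, 9)]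
    lev := [] }
  links := [[1, 7, 8, 9], [7, 0, 9, 2, 3, 4, 10], [3, 1, 9, 11], [4, 1, 2, 11, 12, 13, 14, 5, 15], [10,
    1, 3, 15], [15, 3, 14, 16, 6], [15, 5, 16, 17]]
  P := {
    a := 7
    N := 18
    nb := [898, 1693, 2570, 63542, 33802, 114760, 229408, 1283, 641, 2311, 32914, 4620, 10248, 20488,
      73768, 132216, 147552, 98368]
    tri := [(0, 1, 7), (0, 1, 9), (0, 7, 8), (0, 8, 9), (1, 2, 3), (1, 2, 9), (1, 3, 4), (1, 4, 10),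
      (1, 7, 10), (2, 3, 11), (2, 9, 11), (3, 4, 15), (3, 5, 14), (3, 5, 15), (3, 11, 12), (3, 12,
      13), (3, 13, 14), (4, 10, 15), (5, 6, 15), (5, 6, 16), (5, 14, 16), (6, 15, 17), (6, 16,
      17)]
    fin := [0, 1, 2, 3, 3, 3, 3, 7, 0, 2, 1, 3, 12, 13, 3, 3, 16, 17]
    chd := [(0, 1), (2, 1)]
    steps := [(0, 8), (1, 10), (2, 9), (3, 4), (3, 5), (3, 6), (3, 11), (3, 14), (3, 15)] }
  rep := [3, 2, 7, 1, 16, 0, 12, 13, 17]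

noncomputable def v2295 : Cov.CovD where
  P := 3
  N := 6
  pl := [0, 5, 6, 9, 10]
  lev := [⟨[], [], [(1, 5)], [2], [(1, 5, [3]), (2, 1, [3])]⟩,
    ⟨[], [(0, 1), (0, 3), (0, 5)], [(1, 3)], [2], [(2, 1, [3]), (3, 3, [1, 5])]⟩,
    ⟨[(0, 1)], [(0, 1), (1, 0), (1, 1), (1, 3)], [(0, 1)], [], [(2, 1, [3]), (4, 0, [])]⟩,
    ⟨[(0, 1), (1, 2)], [(1, 0), (1, 1), (1, 3), (2, 0), (2, 1)], [(0, 0)], [6, 7], [(4, 0,
      []), (7, 0, []), (8, 0, [])]⟩,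
    ⟨[(0, 1), (1, 2), (1, 3), (2, 3)], [(1, 0), (1, 1), (1, 3), (3, 0), (3, 3)], [(0, 3)],
      [], [(3, 3, [1, 5]), (8, 0, [])]⟩,
    ⟨[(1, 3), (2, 3), (3, 4)], [(3, 0), (4, 0)], [(0, 0)], [4], [(7, 0, []), (8, 0, [])]⟩,
    ⟨[(3, 5)], [(3, 0), (4, 0), (5, 0)], [], [4, 8], [(8, 0, [])]⟩]
  Ta := [((4, 2), 0, 1), ((4, 5), 0, 6), ((7, 6), 0, 7), ((7, 9), 0, 4), ((8, 3), 0, 3), ((8,
    10), 0, 8)]
  Tb := [((0, 1, 3), 2, 5, 3), ((1, 0, 2), 5, 2, 1), ((2, 1, 4), 1, 5, 0), ((3, 0, 8), 3, 2, 0),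
    ((4, 2, 5), 0, 1, 6), ((5, 4, 6), 6, 0, 7), ((6, 5, 7), 7, 6, 0), ((7, 6, 9), 0, 7, 4),
    ((8, 3, 10), 0, 3, 8), ((9, 7, 10), 4, 0, 8), ((10, 8, 9), 8, 0, 4)]
  Tc := [(3, 1, 5)]
  Td := [((1, 3), (2, 1), 5), ((1, 3), (2, 4), 0), ((3, 1), (3, 0), 2), ((3, 1), (3, 8), 0), ((3,
    5), (3, 0), 2), ((3, 5), (3, 8), 0), ((5, 3), (1, 0), 2), ((5, 3), (1, 2), 1)]
  G := [[0x11c411a811c4e211a2446ca61116811c8e28c, 0x1164c6a111c4e84ca6111c811c8e28c,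
    0x116211a211c4e84116211a21168e48c, 0x116211a41164e81116211a211c2e41c,
    0x116211a2121418ee8111c211a211a8e419], [0, 0, 0xc16253a216c4e84536253c2a6c1e18c,
    0x5362a1c216c2e8159a293a216c8e41c, 0xc162a1c216c16c6e81ca61c6a195a8e189], [0, 0,
    0xca62c6a2a6c4e84ca62c6a2a6c8e18c, 0xca62c6a2a6c2e14ca62c6a2a6c8e48c,
    0xca62c6a2a6ca6c6e81ca62c6a2a6c8e489]]

noncomputable def n2295 : Ent := ⟨e2295, noF, [], [], [(8, 16, [7334685537875745012586738086077695515070955365108989538292687703064577, 0]), (8, 17, [6903326391201334775872065844685381424292761054348340378595029939081217, 0]), (17, 10, [6903326391201334775872705251651713694319475166462653752416129409572865, 0])]⟩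

def c2295 : PLift (Cov.check n2295.C.D v2295 = true) := ⟨by decide +kernel⟩

def b2295 : PLift (entF (fidx ts) 400 2295 n2295 = true) := ⟨by decide +kernel⟩

theorem g2295 : GoodF (fidx ts) 400 2295 := GoodF.ofV v2295 n2295 c2295.down b2295.down

/-- 4744844:1908/2 -/
noncomputable def e2296 : SCfg where
  D := {
    a := 7
    L := 9
    kp := 6
    inn := [(0, 1), (0, 4), (1, 0), (1, 2), (1, 3), (2, 1), (3, 1), (4, 0), (4, 5), (4, 6), (5, 4), (6,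
      4)]
    mix := [(0, 0), (0, 1), (1, 0), (1, 1), (1, 2), (1, 3), (2, 1), (2, 2), (2, 4), (3, 2), (3, 3), (3,
      5), (4, 0), (4, 1), (4, 6), (4, 7), (4, 8), (5, 5), (5, 6), (5, 7), (6, 1), (6, 4), (6, 8)]
    cl := [0, 0, 3, 1, 4, 2, 5, 0, 6]
    chq := [(1, 3), (1, 4), (3, 1), (4, 1)]
    rng := [(0, 3), (0, 6), (1, 4), (2, 4), (2, 5), (3, 0), (3, 5), (4, 1), (4, 2), (4, 8), (5, 2), (5,
      3), (5, 6), (5, 7), (6, 0), (6, 5), (7, 5), (7, 8), (8, 4), (8, 7)]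
    lev := [] }
  links := [[1, 7, 4, 8], [7, 0, 8, 2, 9, 3, 10], [9, 1, 8, 11], [10, 1, 9, 12], [8, 0, 7, 13, 5, 14, 15,
    6], [14, 4, 13, 12], [8, 4, 15, 11]]
  P := {
    a := 7
    N := 16
    nb := [402, 1933, 2818, 5634, 57825, 28688, 35088, 9235, 2135, 6158, 4234, 33604, 26152, 4272,
      36912, 18512]
    tri := [(0, 1, 7), (0, 1, 8), (0, 4, 7), (0, 4, 8), (1, 2, 8), (1, 2, 9), (1, 3, 9), (1, 3, 10),
      (1, 7, 10), (2, 8, 11), (2, 9, 11), (3, 9, 12), (3, 10, 12), (4, 5, 13), (4, 5, 14), (4, 6,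
      8), (4, 6, 15), (4, 7, 13), (4, 14, 15), (5, 12, 13), (5, 12, 14), (6, 8, 11), (6, 11, 15)]
    fin := [0, 1, 1, 3, 0, 0, 0, 0, 0, 3, 10, 1, 12, 13, 0, 15]
    chd := [(3, 10), (10, 1)]
    steps := [(0, 4), (0, 5), (0, 6), (0, 7), (0, 14), (0, 8), (1, 2), (1, 11), (3, 9)] }
  rep := [0, 10, 12, 3, 1, 13, 15]

noncomputable def v2296 : Cov.CovD where
  P := 3
  N := 4
  pl := [5, 6, 8]
  lev := [⟨[], [], [(0, 0)], [], [(0, 0, []), (1, 0, [])]⟩,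
    ⟨[], [(0, 0), (0, 1), (0, 3)], [(0, 0), (0, 1), (0, 3), (1, 3)], [], [(0, 0, []), (1,
      0, []), (2, 3, [1]), (3, 1, [3, 4])]⟩,
    ⟨[(0, 1)], [(0, 0), (1, 0), (1, 1), (1, 3), (1, 4)], [(0, 3), (0, 4), (3, 4)], [], [(1,
      0, []), (2, 3, [1]), (4, 4, [1])]⟩,
    ⟨[(0, 1), (1, 2)], [(1, 0), (1, 1), (1, 3), (2, 3)], [(1, 3)], [2], [(2, 3, [1]), (3,
      1, [3, 4])]⟩,
    ⟨[(0, 1)], [(0, 0), (1, 0), (2, 0)], [(0, 0)], [5, 6], [(0, 0, []), (1, 0, []), (7, 0,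
      [])]⟩,
    ⟨[(0, 4)], [(4, 0)], [], [2, 5], [(7, 0, [])]⟩,
    ⟨[(0, 4), (4, 5)], [(0, 0), (1, 0), (2, 0), (2, 4), (4, 0), (4, 4)], [(0, 4)], [6],
      [(1, 0, []), (4, 4, [1])]⟩]
  Ta := [((0, 3), 0, 1), ((0, 6), 0, 5), ((1, 4), 0, 4), ((7, 5), 0, 2), ((7, 8), 0, 6)]
  Tb := [((0, 3, 6), 0, 1, 5), ((2, 4, 5), 3, 4, 2), ((3, 0, 5), 1, 0, 2), ((4, 1, 2), 4, 0, 3),
    ((4, 1, 8), 4, 0, 6), ((4, 2, 8), 4, 3, 6), ((5, 2, 3), 2, 3, 1), ((5, 2, 6), 2, 3, 5),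
    ((5, 2, 7), 2, 3, 0), ((5, 3, 6), 2, 1, 5), ((5, 3, 7), 2, 1, 0), ((5, 6, 7), 2, 5, 0),
    ((6, 0, 5), 5, 0, 2), ((7, 5, 8), 0, 2, 6), ((8, 4, 7), 6, 4, 0)]
  Tc := [(1, 3, 4)]
  Td := [((1, 3), (3, 0), 0), ((1, 3), (3, 5), 2), ((1, 4), (3, 0), 0), ((1, 4), (3, 5), 2), ((3,
    1), (2, 4), 4), ((3, 1), (2, 5), 2), ((4, 1), (4, 1), 0), ((4, 1), (4, 2), 3), ((4, 1),
    (4, 8), 6)]
  G := [[0, 0x689e1a81181111e4111121e46ae148186, 0, 0x181411e12181411e42c2,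
    0x114124181112e821812a12cc], [0, 0, 0, 0x212124121a42cc1c1c8281845c12ca,
    0xe1e1a82e1e1a12ce1482e1412c6], [0, 0, 0x181411ce82181411ce42c2,
    0x22c21181814c12383411ce42c6, 0x18b1ad2e82122168a813c1ca41246]]

noncomputable def n2296 : Ent := ⟨e2296, noF, [], [], []⟩

def c2296 : PLift (Cov.check n2296.C.D v2296 = true) := ⟨by decide +kernel⟩

def b2296 : PLift (entF (fidx ts) 400 2296 n2296 = true) := ⟨by decide +kernel⟩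

theorem g2296 : GoodF (fidx ts) 400 2296 := GoodF.ofV v2296 n2296 c2296.down b2296.down

/-- 4744844:1908/1 -/
noncomputable def e2297 : SCfg where
  D := {
    a := 7
    L := 10
    kp := 7
    inn := [(0, 1), (0, 4), (1, 0), (1, 2), (1, 3), (2, 1), (3, 1), (4, 0), (4, 5), (4, 6), (5, 4), (6,
      4)]
    mix := [(0, 0), (0, 1), (1, 0), (1, 1), (1, 2), (1, 3), (2, 1), (2, 2), (2, 4), (3, 2), (3, 3), (3,
      5), (4, 0), (4, 1), (4, 6), (4, 7), (4, 8), (5, 5), (5, 6), (5, 7), (6, 1), (6, 8), (6, 9)]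
    cl := [0, 0, 3, 1, 6, 2, 4, 0, 5, 7]
    chq := [(1, 3), (1, 6), (3, 1), (6, 1)]
    rng := [(0, 3), (0, 6), (1, 4), (1, 9), (2, 4), (2, 5), (3, 0), (3, 5), (4, 1), (4, 2), (5, 2), (5,
      3), (5, 6), (5, 7), (6, 0), (6, 5), (7, 5), (7, 8), (8, 7), (8, 9), (9, 1), (9, 8)]
    lev := [] }
  links := [[1, 7, 4, 8], [7, 0, 8, 2, 9, 3, 10], [9, 1, 8, 11], [10, 1, 9, 12], [8, 0, 7, 13, 5, 14, 15,
    6], [14, 4, 13, 12], [8, 4, 15, 16]]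
  P := {
    a := 7
    N := 17
    nb := [402, 1933, 2818, 5634, 57825, 28688, 98576, 9235, 67671, 6158, 4234, 772, 26152, 4272,
      36912, 82000, 33088]
    tri := [(0, 1, 7), (0, 1, 8), (0, 4, 7), (0, 4, 8), (1, 2, 8), (1, 2, 9), (1, 3, 9), (1, 3, 10),
      (1, 7, 10), (2, 8, 11), (2, 9, 11), (3, 9, 12), (3, 10, 12), (4, 5, 13), (4, 5, 14), (4, 6,
      8), (4, 6, 15), (4, 7, 13), (4, 14, 15), (5, 12, 13), (5, 12, 14), (6, 8, 16), (6, 15, 16)]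
    fin := [0, 1, 1, 3, 0, 0, 0, 0, 0, 3, 10, 1, 12, 13, 0, 15, 16]
    chd := [(3, 10), (10, 1)]
    steps := [(0, 4), (0, 5), (0, 6), (0, 7), (0, 14), (0, 8), (1, 2), (1, 11), (3, 9)] }
  rep := [0, 10, 12, 3, 13, 15, 1, 16]

noncomputable def v2297 : Cov.CovD where
  P := 3
  N := 5
  pl := [5, 6, 8, 9]
  lev := [⟨[], [], [(0, 0)], [], [(0, 0, []), (1, 0, [])]⟩,
    ⟨[], [(0, 0), (0, 1), (0, 3)], [(0, 0), (0, 1), (0, 3), (1, 3)], [], [(0, 0, []), (1,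
      0, []), (2, 3, [1]), (3, 1, [3, 6])]⟩,
    ⟨[(0, 1)], [(0, 0), (1, 0), (1, 1), (1, 3), (1, 6)], [(0, 3), (0, 6), (3, 6)], [], [(1,
      0, []), (2, 3, [1]), (4, 6, [1])]⟩,
    ⟨[(0, 1), (1, 2)], [(1, 0), (1, 1), (1, 3), (2, 3)], [(1, 3)], [2], [(2, 3, [1]), (3,
      1, [3, 6])]⟩,
    ⟨[(0, 1)], [(0, 0), (1, 0), (2, 0)], [(0, 0)], [4, 5], [(0, 0, []), (1, 0, []), (7, 0,
      [])]⟩,
    ⟨[(0, 4)], [(4, 0)], [], [2, 4], [(7, 0, [])]⟩,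
    ⟨[(0, 4), (4, 5)], [(0, 0), (1, 0), (2, 0), (4, 0)], [], [5, 7], [(1, 0, [])]⟩]
  Ta := [((0, 3), 0, 1), ((0, 6), 0, 4), ((1, 4), 0, 6), ((1, 9), 0, 7), ((7, 5), 0, 2), ((7, 8),
    0, 5)]
  Tb := [((0, 3, 6), 0, 1, 4), ((1, 4, 9), 0, 6, 7), ((2, 4, 5), 3, 6, 2), ((3, 0, 5), 1, 0, 2),
    ((4, 1, 2), 6, 0, 3), ((5, 2, 3), 2, 3, 1), ((5, 2, 6), 2, 3, 4), ((5, 2, 7), 2, 3, 0),
    ((5, 3, 6), 2, 1, 4), ((5, 3, 7), 2, 1, 0), ((5, 6, 7), 2, 4, 0), ((6, 0, 5), 4, 0, 2),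
    ((7, 5, 8), 0, 2, 5), ((8, 7, 9), 5, 0, 7), ((9, 1, 8), 7, 0, 5)]
  Tc := [(1, 3, 6)]
  Td := [((1, 3), (3, 0), 0), ((1, 3), (3, 5), 2), ((1, 6), (3, 0), 0), ((1, 6), (3, 5), 2), ((3,
    1), (2, 4), 6), ((3, 1), (2, 5), 2), ((6, 1), (4, 1), 0), ((6, 1), (4, 2), 3)]
  G := [[0, 0xe1e164111841184e1e16876e18818c, 0, 0x1811119e82181411e42c2,
    0x1111a12e1241811119e828a], [0, 0, 0, 0xc181e1e82e1212c41482c1c1c42c6,
    0xe1282e1212ce1e1c82e1e1c12c6], [0, 0, 0x181411ce82181411ce42c2,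
    0x38145dce8258b491ce42c2, 0x61ad2612418b1ad2e8218812cc]]

noncomputable def n2297 : Ent := ⟨e2297, noF, [], [], [(16, 11, [1580044410770990308032078191911707142368668054796088592099353526273, 0])]⟩

def c2297 : PLift (Cov.check n2297.C.D v2297 = true) := ⟨by decide +kernel⟩

def b2297 : PLift (entF (fidx ts) 400 2297 n2297 = true) := ⟨by decide +kernel⟩

theorem g2297 : GoodF (fidx ts) 400 2297 := GoodF.ofV v2297 n2297 c2297.down b2297.down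

/-- 4744844:1908/3 -/
noncomputable def e2298 : SCfg where
  D := {
    a := 7
    L := 10
    kp := 7
    inn := [(0, 1), (0, 4), (1, 0), (1, 2), (1, 3), (2, 1), (3, 1), (4, 0), (4, 5), (4, 6), (5, 4), (6,
      4)]
    mix := [(0, 0), (0, 1), (1, 0), (1, 1), (1, 2), (1, 3), (2, 1), (2, 2), (2, 4), (3, 2), (3, 3), (3,
      5), (4, 0), (4, 1), (4, 6), (4, 7), (4, 8), (5, 6), (5, 7), (5, 9), (6, 1), (6, 4), (6, 8)]
    cl := [0, 0, 3, 1, 4, 6, 2, 0, 5, 7]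
    chq := [(1, 3), (1, 4), (3, 1), (4, 1)]
    rng := [(0, 3), (0, 6), (1, 4), (2, 4), (2, 5), (3, 0), (3, 5), (4, 1), (4, 2), (4, 8), (5, 2), (5,
      3), (6, 0), (6, 9), (7, 8), (7, 9), (8, 4), (8, 7), (9, 6), (9, 7)]
    lev := [] }
  links := [[1, 7, 4, 8], [7, 0, 8, 2, 9, 3, 10], [9, 1, 8, 11], [10, 1, 9, 12], [8, 0, 7, 13, 5, 14, 15,
    6], [14, 4, 13, 16], [8, 4, 15, 11]]
  P := {
    a := 7
    N := 17
    nb := [402, 1933, 2818, 5634, 57825, 90128, 35088, 9235, 2135, 6158, 4234, 33604, 1544, 65712,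
      98352, 18512, 24608]
    tri := [(0, 1, 7), (0, 1, 8), (0, 4, 7), (0, 4, 8), (1, 2, 8), (1, 2, 9), (1, 3, 9), (1, 3, 10),
      (1, 7, 10), (2, 8, 11), (2, 9, 11), (3, 9, 12), (3, 10, 12), (4, 5, 13), (4, 5, 14), (4, 6,
      8), (4, 6, 15), (4, 7, 13), (4, 14, 15), (5, 13, 16), (5, 14, 16), (6, 8, 11), (6, 11, 15)]
    fin := [0, 1, 1, 3, 0, 0, 0, 0, 0, 3, 10, 1, 12, 13, 0, 15, 16]
    chd := [(3, 10), (10, 1)]
    steps := [(0, 4), (0, 5), (0, 6), (0, 7), (0, 14), (0, 8), (1, 2), (1, 11), (3, 9)] }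
  rep := [0, 10, 13, 3, 1, 15, 12, 16]

noncomputable def v2298 : Cov.CovD where
  P := 3
  N := 5
  pl := [5, 6, 8, 9]
  lev := [⟨[], [], [(0, 0)], [], [(0, 0, []), (1, 0, [])]⟩,
    ⟨[], [(0, 0), (0, 1), (0, 3)], [(0, 0), (0, 1), (0, 3), (1, 3)], [], [(0, 0, []), (1,
      0, []), (2, 3, [1]), (3, 1, [3, 4])]⟩,
    ⟨[(0, 1)], [(0, 0), (1, 0), (1, 1), (1, 3), (1, 4)], [(0, 3), (0, 4), (3, 4)], [], [(1,
      0, []), (2, 3, [1]), (4, 4, [1])]⟩,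
    ⟨[(0, 1), (1, 2)], [(1, 0), (1, 1), (1, 3), (2, 3)], [(1, 3)], [6], [(2, 3, [1]), (3,
      1, [3, 4])]⟩,
    ⟨[(0, 1)], [(0, 0), (1, 0), (2, 0)], [(0, 0)], [2, 5], [(0, 0, []), (1, 0, []), (7, 0,
      [])]⟩,
    ⟨[(0, 4)], [(4, 0)], [], [2, 7], [(7, 0, [])]⟩,
    ⟨[(0, 4), (4, 5)], [(0, 0), (1, 0), (2, 0), (2, 4), (4, 0), (4, 4)], [(0, 4)], [5],
      [(1, 0, []), (4, 4, [1])]⟩]
  Ta := [((0, 3), 0, 1), ((0, 6), 0, 2), ((1, 4), 0, 4), ((7, 8), 0, 5), ((7, 9), 0, 7)]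
  Tb := [((0, 3, 6), 0, 1, 2), ((2, 4, 5), 3, 4, 6), ((3, 0, 5), 1, 0, 6), ((4, 1, 2), 4, 0, 3),
    ((4, 1, 8), 4, 0, 5), ((4, 2, 8), 4, 3, 5), ((5, 2, 3), 6, 3, 1), ((6, 0, 9), 2, 0, 7),
    ((7, 8, 9), 0, 5, 7), ((8, 4, 7), 5, 4, 0), ((9, 6, 7), 7, 2, 0)]
  Tc := [(1, 3, 4)]
  Td := [((1, 3), (3, 0), 0), ((1, 3), (3, 5), 6), ((1, 4), (3, 0), 0), ((1, 4), (3, 5), 6), ((3,
    1), (2, 4), 4), ((3, 1), (2, 5), 6), ((4, 1), (4, 1), 0), ((4, 1), (4, 2), 3), ((4, 1),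
    (4, 8), 5)]
  G := [[0, 0x614212a18212a161c81a161c41ce, 0x121814e141218e9211c116c121418e52c2,
    0x1111c1111c5241111c1111c928c, 0x1111a1111a921111a1111a52c2], [0, 0, 0,
    0xa161ca161c92a161ca161c52c2, 0x612424c161ac161a92c161a12cc18424e], [0, 0, 0,
    0x37c51cc11c6bcc921ac61cc11c8522c413c2, 0x122d2252411a6daa1cab1aa9281bad8a11ad8a524e]]

noncomputable def n2298 : Ent := ⟨e2298, noF, [], [], [(16, 12, [1580044410777118419473445963789405229760683414688298388994432925697, 0])]⟩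

def c2298 : PLift (Cov.check n2298.C.D v2298 = true) := ⟨by decide +kernel⟩

def b2298 : PLift (entF (fidx ts) 400 2298 n2298 = true) := ⟨by decide +kernel⟩

theorem g2298 : GoodF (fidx ts) 400 2298 := GoodF.ofV v2298 n2298 c2298.down b2298.down

/-- 4744844:1908 -/
noncomputable def e2299 : SCfg where
  D := {
    a := 7
    L := 11
    kp := 8
    inn := [(0, 1), (0, 4), (1, 0), (1, 2), (1, 3), (2, 1), (3, 1), (4, 0), (4, 5), (4, 6), (5, 4), (6,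
      4)]
    mix := [(0, 0), (0, 1), (1, 0), (1, 1), (1, 2), (1, 3), (2, 1), (2, 2), (2, 4), (3, 2), (3, 3), (3,
      5), (4, 0), (4, 1), (4, 6), (4, 7), (4, 8), (5, 6), (5, 7), (5, 9), (6, 1), (6, 8), (6, 10)]
    cl := [0, 0, 3, 1, 5, 6, 2, 0, 4, 7, 8]
    chq := [(1, 3), (1, 5), (3, 1), (5, 1)]
    rng := [(0, 3), (0, 6), (1, 4), (1, 10), (2, 4), (2, 5), (3, 0), (3, 5), (4, 1), (4, 2), (5, 2),
      (5, 3), (6, 0), (6, 9), (7, 8), (7, 9), (8, 7), (8, 10), (9, 6), (9, 7), (10, 1), (10, 8)]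
    lev := [] }
  links := [[1, 7, 4, 8], [7, 0, 8, 2, 9, 3, 10], [9, 1, 8, 11], [10, 1, 9, 12], [8, 0, 7, 13, 5, 14, 15,
    6], [14, 4, 13, 16], [8, 4, 15, 17]]
  P := {
    a := 7
    N := 18
    nb := [402, 1933, 2818, 5634, 57825, 90128, 164112, 9235, 133207, 6158, 4234, 772, 1544, 65712,
      98352, 147536, 24608, 33088]
    tri := [(0, 1, 7), (0, 1, 8), (0, 4, 7), (0, 4, 8), (1, 2, 8), (1, 2, 9), (1, 3, 9), (1, 3, 10),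
      (1, 7, 10), (2, 8, 11), (2, 9, 11), (3, 9, 12), (3, 10, 12), (4, 5, 13), (4, 5, 14), (4, 6,
      8), (4, 6, 15), (4, 7, 13), (4, 14, 15), (5, 13, 16), (5, 14, 16), (6, 8, 17), (6, 15, 17)]
    fin := [0, 1, 1, 3, 0, 0, 0, 0, 0, 3, 10, 1, 12, 13, 0, 15, 16, 17]
    chd := [(3, 10), (10, 1)]
    steps := [(0, 4), (0, 5), (0, 6), (0, 7), (0, 14), (0, 8), (1, 2), (1, 11), (3, 9)] }
  rep := [0, 10, 13, 3, 15, 1, 12, 16, 17]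

noncomputable def v2299 : Cov.CovD where
  P := 3
  N := 6
  pl := [5, 6, 8, 9, 10]
  lev := [⟨[], [], [(0, 0)], [], [(0, 0, []), (1, 0, [])]⟩,
    ⟨[], [(0, 0), (0, 1), (0, 3)], [(0, 0), (0, 1), (0, 3), (1, 3)], [], [(0, 0, []), (1,
      0, []), (2, 3, [1]), (3, 1, [3, 5])]⟩,
    ⟨[(0, 1)], [(0, 0), (1, 0), (1, 1), (1, 3), (1, 5)], [(0, 3), (0, 5), (3, 5)], [], [(1,
      0, []), (2, 3, [1]), (4, 5, [1])]⟩,
    ⟨[(0, 1), (1, 2)], [(1, 0), (1, 1), (1, 3), (2, 3)], [(1, 3)], [6], [(2, 3, [1]), (3,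
      1, [3, 5])]⟩,
    ⟨[(0, 1)], [(0, 0), (1, 0), (2, 0)], [(0, 0)], [2, 4], [(0, 0, []), (1, 0, []), (7, 0,
      [])]⟩,
    ⟨[(0, 4)], [(4, 0)], [], [2, 7], [(7, 0, [])]⟩,
    ⟨[(0, 4), (4, 5)], [(0, 0), (1, 0), (2, 0), (4, 0)], [], [4, 8], [(1, 0, [])]⟩]
  Ta := [((0, 3), 0, 1), ((0, 6), 0, 2), ((1, 4), 0, 5), ((1, 10), 0, 8), ((7, 8), 0, 4), ((7,
    9), 0, 7)]
  Tb := [((0, 3, 6), 0, 1, 2), ((1, 4, 10), 0, 5, 8), ((2, 4, 5), 3, 5, 6), ((3, 0, 5), 1, 0, 6),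
    ((4, 1, 2), 5, 0, 3), ((5, 2, 3), 6, 3, 1), ((6, 0, 9), 2, 0, 7), ((7, 8, 9), 0, 4, 7),
    ((8, 7, 10), 4, 0, 8), ((9, 6, 7), 7, 2, 0), ((10, 1, 8), 8, 0, 4)]
  Tc := [(1, 3, 5)]
  Td := [((1, 3), (3, 0), 0), ((1, 3), (3, 5), 6), ((1, 5), (3, 0), 0), ((1, 5), (3, 5), 6), ((3,
    1), (2, 4), 5), ((3, 1), (2, 5), 6), ((5, 1), (4, 1), 0), ((5, 1), (4, 2), 3)]
  G := [[0, 0x414212a121c212a161c81a161c41ce, 0x121814e121418e92121814e181214e52c2,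
    0x1111c1111c921111c1111c52c2, 0x1111a1111a5241111a1111a928a], [0, 0, 0,
    0xa161ca161c92a161ca161c52c2, 0x212424c161ac161a92c161a12cc141a424e], [0, 0, 0,
    0x1ac61cc7ac11cc9211cdbcc1dc61cc52c2, 0x1224241ca61aa79a15aa9253a35aa12c7ca18a424e]]

noncomputable def n2299 : Ent := ⟨e2299, noF, [], [], [(16, 12, [7334685537875751142568901549633128948459063966345724013249176437493761, 0]), (17, 11, [6903326391201334778116932359625648306653620957400551096786542325112833, 0])]⟩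

def c2299 : PLift (Cov.check n2299.C.D v2299 = true) := ⟨by decide +kernel⟩

def b2299 : PLift (entF (fidx ts) 400 2299 n2299 = true) := ⟨by decide +kernel⟩

theorem g2299 : GoodF (fidx ts) 400 2299 := GoodF.ofV v2299 n2299 c2299.down b2299.down

/-- 4744744:1913/4 -/
noncomputable def e2300 : SCfg where
  D := {
    a := 7
    L := 6
    kp := 4
    inn := [(0, 1), (0, 4), (1, 0), (1, 2), (1, 3), (2, 1), (3, 1), (4, 0), (4, 5), (4, 6), (5, 4), (6,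
      4)]
    mix := [(0, 0), (0, 1), (1, 0), (1, 1), (1, 2), (1, 3), (2, 1), (2, 2), (2, 4), (3, 2), (3, 3), (3,
      5), (4, 0), (4, 1), (4, 4), (4, 5), (5, 0), (5, 3), (5, 5), (6, 2), (6, 4), (6, 5)]
    cl := [0, 0, 1, 2, 4, 3]
    chq := [(0, 1), (0, 3), (1, 0), (1, 2), (2, 1), (2, 4), (3, 0), (4, 2)]
    rng := [(0, 3), (1, 4), (2, 4), (2, 5), (3, 0), (3, 5), (4, 1), (4, 2), (5, 2), (5, 3)]
    lev := [] }
  links := [[1, 7, 4, 8], [7, 0, 8, 2, 9, 3, 10], [9, 1, 8, 11], [10, 1, 9, 12], [8, 0, 7, 5, 12, 6, 11],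
    [12, 4, 7, 10], [11, 4, 12, 9]]
  P := {
    a := 7
    N := 13
    nb := [402, 1933, 2818, 5634, 6625, 5264, 6672, 1075, 2071, 6222, 4266, 852, 1656]
    tri := [(0, 1, 7), (0, 1, 8), (0, 4, 7), (0, 4, 8), (1, 2, 8), (1, 2, 9), (1, 3, 9), (1, 3, 10),
      (1, 7, 10), (2, 8, 11), (2, 9, 11), (3, 9, 12), (3, 10, 12), (4, 5, 7), (4, 5, 12), (4, 6,
      11), (4, 6, 12), (4, 8, 11), (5, 7, 10), (5, 10, 12), (6, 9, 11), (6, 9, 12)]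
    fin := [0, 0, 0, 0, 4, 4, 4, 0, 0, 9, 4, 11, 12]
    chd := [(0, 9), (0, 12), (4, 11), (9, 4)]
    steps := [(0, 1), (0, 2), (0, 3), (0, 7), (0, 8), (4, 5), (4, 6), (4, 10)] }
  rep := [0, 9, 4, 12, 11]

noncomputable def v2300 : Cov.CovD where
  P := 3
  N := 2
  pl := []
  lev := [⟨[], [], [(0, 0)], [], [(0, 0, [1, 3]), (1, 0, [1, 3])]⟩,
    ⟨[], [(0, 0), (0, 1), (0, 2)], [(0, 0), (0, 1), (0, 2), (1, 2)], [], [(0, 0, [1, 3]),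
      (1, 0, [1, 3]), (2, 1, [0, 2]), (3, 2, [1, 4])]⟩,
    ⟨[(0, 1)], [(0, 0), (1, 0), (1, 1), (1, 2), (1, 4)], [(0, 1), (0, 4), (1, 4)], [], [(1,
      0, [1, 3]), (2, 1, [0, 2]), (4, 4, [2])]⟩,
    ⟨[(0, 1), (1, 2)], [(1, 0), (1, 1), (1, 2), (1, 3), (2, 1)], [(1, 2), (1, 3), (2, 3)],
      [], [(2, 1, [0, 2]), (3, 2, [1, 4]), (5, 3, [0])]⟩,
    ⟨[(0, 1)], [(0, 0), (0, 3), (0, 4), (1, 0), (2, 0), (2, 4), (3, 3)], [(0, 0), (0, 3),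
      (0, 4), (3, 4)], [], [(0, 0, [1, 3]), (1, 0, [1, 3]), (4, 4, [2]), (5, 3, [0])]⟩,
    ⟨[(0, 4)], [(0, 0), (1, 0), (1, 2), (3, 2), (3, 3), (4, 0), (4, 2), (4, 3), (4, 4)],
      [(0, 2), (0, 3), (2, 3)], [], [(0, 0, [1, 3]), (3, 2, [1, 4]), (5, 3, [0])]⟩,
    ⟨[(0, 4), (4, 5)], [(1, 1), (2, 1), (2, 4), (3, 1), (3, 3), (4, 0), (4, 1), (4, 3), (4,
      4), (5, 3)], [(1, 3), (1, 4), (3, 4)], [], [(2, 1, [0, 2]), (4, 4, [2]), (5, 3, [0])]⟩]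
  Ta := [((0, 3), 0, 2), ((1, 4), 0, 4)]
  Tb := [((2, 4, 5), 1, 4, 3), ((3, 0, 5), 2, 0, 3), ((4, 1, 2), 4, 0, 1), ((5, 2, 3), 3, 1, 2)]
  Tc := [(0, 1, 3), (1, 0, 2), (2, 1, 4)]
  Td := [((0, 1), (0, 3), 2), ((0, 1), (1, 4), 4), ((0, 3), (0, 3), 2), ((0, 3), (1, 4), 4), ((1,
    0), (2, 4), 4), ((1, 0), (2, 5), 3), ((1, 2), (2, 4), 4), ((1, 2), (2, 5), 3), ((2, 1),
    (3, 0), 0), ((2, 1), (3, 5), 3), ((2, 4), (3, 0), 0), ((2, 4), (3, 5), 3), ((3, 0), (5,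
    2), 1), ((3, 0), (5, 3), 2), ((4, 2), (4, 1), 0), ((4, 2), (4, 2), 1)]
  G := [[0, 0x118412169248, 0x1818a14146c142, 0x182142c142, 0x1218c121869182], [0,
    0x1148121a5284, 0, 0x841d21244, 0x48911d2e1484]]

noncomputable def n2300 : Ent := ⟨e2300, noF, [], [], []⟩

def c2300 : PLift (Cov.check n2300.C.D v2300 = true) := ⟨by decide +kernel⟩

def b2300 : PLift (entF (fidx ts) 400 2300 n2300 = true) := ⟨by decide +kernel⟩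

theorem g2300 : GoodF (fidx ts) 400 2300 := GoodF.ofV v2300 n2300 c2300.down b2300.down

/-- 4744744:1913/3 -/
noncomputable def e2301 : SCfg where
  D := {
    a := 7
    L := 7
    kp := 5
    inn := [(0, 1), (0, 4), (1, 0), (1, 2), (1, 3), (2, 1), (3, 1), (4, 0), (4, 5), (4, 6), (5, 4), (6,
      4)]
    mix := [(0, 0), (0, 1), (1, 0), (1, 1), (1, 2), (1, 3), (2, 1), (2, 2), (2, 4), (3, 2), (3, 3), (3,
      5), (4, 0), (4, 1), (4, 5), (4, 6), (5, 0), (5, 3), (5, 5), (6, 2), (6, 5), (6, 6)]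
    cl := [0, 0, 1, 2, 5, 3, 4]
    chq := [(0, 1), (0, 3), (1, 0), (1, 2), (2, 1), (2, 4), (3, 0), (4, 2)]
    rng := [(0, 3), (1, 4), (1, 6), (2, 4), (2, 5), (2, 6), (3, 0), (3, 5), (4, 1), (4, 2), (5, 2), (5,
      3), (6, 1), (6, 2)]
    lev := [] }
  links := [[1, 7, 4, 8], [7, 0, 8, 2, 9, 3, 10], [9, 1, 8, 11], [10, 1, 9, 12], [8, 0, 7, 5, 12, 6, 13],
    [12, 4, 7, 10], [13, 4, 12, 9]]
  P := {
    a := 7
    N := 14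
    nb := [402, 1933, 2818, 5634, 12769, 5264, 12816, 1075, 10263, 14414, 4266, 772, 1656, 848]
    tri := [(0, 1, 7), (0, 1, 8), (0, 4, 7), (0, 4, 8), (1, 2, 8), (1, 2, 9), (1, 3, 9), (1, 3, 10),
      (1, 7, 10), (2, 8, 11), (2, 9, 11), (3, 9, 12), (3, 10, 12), (4, 5, 7), (4, 5, 12), (4, 6,
      12), (4, 6, 13), (4, 8, 13), (5, 7, 10), (5, 10, 12), (6, 9, 12), (6, 9, 13)]
    fin := [0, 0, 0, 0, 4, 4, 4, 0, 0, 9, 4, 11, 12, 13]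
    chd := [(0, 9), (0, 12), (4, 13), (9, 4)]
    steps := [(0, 1), (0, 2), (0, 3), (0, 7), (0, 8), (4, 5), (4, 6), (4, 10)] }
  rep := [0, 9, 4, 12, 13, 11]

noncomputable def v2301 : Cov.CovD where
  P := 3
  N := 3
  pl := [4]
  lev := [⟨[], [], [(0, 0)], [], [(0, 0, [1, 3]), (1, 0, [1, 3])]⟩,
    ⟨[], [(0, 0), (0, 1), (0, 2)], [(0, 0), (0, 1), (0, 2), (1, 2)], [], [(0, 0, [1, 3]),
      (1, 0, [1, 3]), (2, 1, [0, 2]), (3, 2, [1, 4])]⟩,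
    ⟨[(0, 1)], [(0, 0), (1, 0), (1, 1), (1, 2)], [(0, 1)], [5], [(1, 0, [1, 3]), (2, 1, [0,
      2])]⟩,
    ⟨[(0, 1), (1, 2)], [(1, 0), (1, 1), (1, 2), (1, 3), (2, 1)], [(1, 2), (1, 3), (2, 3)],
      [], [(2, 1, [0, 2]), (3, 2, [1, 4]), (5, 3, [0])]⟩,
    ⟨[(0, 1)], [(0, 0), (0, 3), (0, 4), (1, 0), (2, 0), (3, 3)], [(0, 0), (0, 3), (0, 4),
      (3, 4)], [], [(0, 0, [1, 3]), (1, 0, [1, 3]), (5, 3, [0]), (6, 4, [2])]⟩,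
    ⟨[(0, 4)], [(0, 0), (1, 0), (1, 2), (3, 2), (3, 3), (4, 0), (4, 2), (4, 3), (4, 4)],
      [(0, 2), (0, 3), (2, 3)], [], [(0, 0, [1, 3]), (3, 2, [1, 4]), (5, 3, [0])]⟩,
    ⟨[(0, 4), (4, 5)], [(1, 1), (2, 1), (3, 1), (3, 3), (4, 0), (4, 1), (4, 3), (4, 4), (5,
      3)], [(1, 3), (1, 4), (3, 4)], [], [(2, 1, [0, 2]), (5, 3, [0]), (6, 4, [2])]⟩]
  Ta := [((0, 3), 0, 2), ((1, 4), 0, 5), ((1, 6), 0, 4)]
  Tb := [((1, 4, 6), 0, 5, 4), ((2, 4, 5), 1, 5, 3), ((2, 4, 6), 1, 5, 4), ((2, 5, 6), 1, 3, 4),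
    ((3, 0, 5), 2, 0, 3), ((4, 1, 2), 5, 0, 1), ((5, 2, 3), 3, 1, 2), ((6, 1, 2), 4, 0, 1)]
  Tc := [(0, 1, 3), (1, 0, 2), (2, 1, 4)]
  Td := [((0, 1), (0, 3), 2), ((0, 1), (1, 4), 5), ((0, 1), (1, 6), 4), ((0, 3), (0, 3), 2), ((0,
    3), (1, 4), 5), ((0, 3), (1, 6), 4), ((1, 0), (2, 4), 5), ((1, 0), (2, 5), 3), ((1, 0),
    (2, 6), 4), ((1, 2), (2, 4), 5), ((1, 2), (2, 5), 3), ((1, 2), (2, 6), 4), ((2, 1), (3,
    0), 0), ((2, 1), (3, 5), 3), ((2, 4), (3, 0), 0), ((2, 4), (3, 5), 3), ((3, 0), (5, 2),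
    1), ((3, 0), (5, 3), 2), ((4, 2), (6, 1), 0), ((4, 2), (6, 2), 1)]
  G := [[0, 0x41216141188118412169ac8, 0x1818a14146c142, 0x182142c242, 0x181818e1249182], [0,
    0x118412169118412169c48, 0, 0xc9521284, 0x825158e18251419e1c82]]

noncomputable def n2301 : Ent := ⟨e2301, noF, [], [], [(13, 11, [18394811281478977149262555032661714881264703900889366529, 0])]⟩

def c2301 : PLift (Cov.check n2301.C.D v2301 = true) := ⟨by decide +kernel⟩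

def b2301 : PLift (entF (fidx ts) 400 2301 n2301 = true) := ⟨by decide +kernel⟩

theorem g2301 : GoodF (fidx ts) 400 2301 := GoodF.ofV v2301 n2301 c2301.down b2301.down

/-- 4744744:1913/5 -/
noncomputable def e2302 : SCfg where
  D := {
    a := 7
    L := 7
    kp := 5
    inn := [(0, 1), (0, 4), (1, 0), (1, 2), (1, 3), (2, 1), (3, 1), (4, 0), (4, 5), (4, 6), (5, 4), (6,
      4)]
    mix := [(0, 0), (0, 1), (1, 0), (1, 1), (1, 2), (1, 3), (2, 1), (2, 2), (2, 4), (3, 2), (3, 3), (3,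
      5), (4, 0), (4, 1), (4, 4), (4, 5), (5, 0), (5, 3), (5, 5), (6, 4), (6, 5), (6, 6)]
    cl := [0, 0, 1, 2, 4, 3, 5]
    chq := [(0, 1), (0, 3), (0, 5), (1, 0), (1, 2), (2, 1), (3, 0), (5, 0)]
    rng := [(0, 3), (1, 4), (2, 4), (2, 5), (3, 0), (3, 5), (4, 1), (4, 2), (4, 6), (5, 2), (5, 3), (5,
      6), (6, 4), (6, 5)]
    lev := [] }
  links := [[1, 7, 4, 8], [7, 0, 8, 2, 9, 3, 10], [9, 1, 8, 11], [10, 1, 9, 12], [8, 0, 7, 5, 12, 6, 11],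
    [12, 4, 7, 10], [11, 4, 12, 13]]
  P := {
    a := 7
    N := 14
    nb := [402, 1933, 2818, 5634, 6625, 5264, 14352, 1075, 2071, 6158, 4266, 9044, 9848, 6208]
    tri := [(0, 1, 7), (0, 1, 8), (0, 4, 7), (0, 4, 8), (1, 2, 8), (1, 2, 9), (1, 3, 9), (1, 3, 10),
      (1, 7, 10), (2, 8, 11), (2, 9, 11), (3, 9, 12), (3, 10, 12), (4, 5, 7), (4, 5, 12), (4, 6,
      11), (4, 6, 12), (4, 8, 11), (5, 7, 10), (5, 10, 12), (6, 11, 13), (6, 12, 13)]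
    fin := [0, 0, 0, 3, 0, 0, 0, 0, 0, 9, 3, 11, 12, 13]
    chd := [(0, 9), (0, 12), (0, 13), (9, 3)]
    steps := [(0, 1), (0, 2), (0, 7), (0, 5), (0, 8), (0, 4), (0, 6), (3, 10)] }
  rep := [0, 9, 3, 12, 11, 13]

noncomputable def v2302 : Cov.CovD where
  P := 3
  N := 3
  pl := [4]
  lev := [⟨[], [], [(0, 0)], [], [(0, 0, [1, 3, 5]), (1, 0, [1, 3, 5])]⟩,
    ⟨[], [(0, 0), (0, 1), (0, 2)], [(0, 0), (0, 1), (0, 2), (1, 2)], [], [(0, 0, [1, 3,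
      5]), (1, 0, [1, 3, 5]), (2, 1, [0, 2]), (3, 2, [1])]⟩,
    ⟨[(0, 1)], [(0, 0), (1, 0), (1, 1), (1, 2)], [(0, 1)], [4], [(1, 0, [1, 3, 5]), (2, 1,
      [0, 2])]⟩,
    ⟨[(0, 1), (1, 2)], [(1, 0), (1, 1), (1, 2), (1, 3), (2, 1)], [(1, 2), (1, 3), (2, 3)],
      [], [(2, 1, [0, 2]), (3, 2, [1]), (5, 3, [0])]⟩,
    ⟨[(0, 1)], [(0, 0), (0, 3), (1, 0), (2, 0), (3, 3)], [(0, 0), (0, 3)], [4], [(0, 0, [1,
      3, 5]), (1, 0, [1, 3, 5]), (5, 3, [0])]⟩,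
    ⟨[(0, 4)], [(0, 0), (1, 0), (1, 2), (3, 2), (3, 3), (4, 0), (4, 2), (4, 3)], [(0, 2),
      (0, 3), (2, 3)], [], [(0, 0, [1, 3, 5]), (3, 2, [1]), (5, 3, [0])]⟩,
    ⟨[(0, 4), (4, 5)], [(3, 3), (4, 0), (4, 3), (4, 5), (5, 3)], [(3, 5)], [4], [(5, 3,
      [0]), (6, 5, [0])]⟩]
  Ta := [((0, 3), 0, 2), ((1, 4), 0, 4)]
  Tb := [((2, 4, 5), 1, 4, 3), ((3, 0, 5), 2, 0, 3), ((4, 1, 2), 4, 0, 1), ((4, 1, 6), 4, 0, 5),
    ((4, 2, 6), 4, 1, 5), ((5, 2, 3), 3, 1, 2), ((5, 2, 6), 3, 1, 5), ((5, 3, 6), 3, 2, 5),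
    ((6, 4, 5), 5, 4, 3)]
  Tc := [(0, 1, 3), (0, 1, 5), (0, 3, 5), (1, 0, 2)]
  Td := [((0, 1), (0, 3), 2), ((0, 1), (1, 4), 4), ((0, 3), (0, 3), 2), ((0, 3), (1, 4), 4), ((0,
    5), (0, 3), 2), ((0, 5), (1, 4), 4), ((1, 0), (2, 4), 4), ((1, 0), (2, 5), 3), ((1, 2),
    (2, 4), 4), ((1, 2), (2, 5), 3), ((2, 1), (3, 0), 0), ((2, 1), (3, 5), 3), ((3, 0), (5,
    2), 1), ((3, 0), (5, 3), 2), ((3, 0), (5, 6), 5), ((5, 0), (6, 4), 4), ((5, 0), (6, 5),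
    3)]
  G := [[0, 0x118111441121e84, 0x1818a14146c182, 0x182142c284, 0x1818c121269184], [0,
    0x118114411121e48, 0, 0xe7921248, 0xa9311a16531161c82]]

noncomputable def n2302 : Ent := ⟨e2302, noF, [], [], [(13, 9, [18394062992729866707762557238593507017449233509451284481, 0])]⟩

def c2302 : PLift (Cov.check n2302.C.D v2302 = true) := ⟨by decide +kernel⟩

def b2302 : PLift (entF (fidx ts) 400 2302 n2302 = true) := ⟨by decide +kernel⟩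

theorem g2302 : GoodF (fidx ts) 400 2302 := GoodF.ofV v2302 n2302 c2302.down b2302.down

/-- 4744744:1913/2 -/
noncomputable def e2303 : SCfg where
  D := {
    a := 7
    L := 8
    kp := 6
    inn := [(0, 1), (0, 4), (1, 0), (1, 2), (1, 3), (2, 1), (3, 1), (4, 0), (4, 5), (4, 6), (5, 4), (6,
      4)]
    mix := [(0, 0), (0, 1), (1, 0), (1, 1), (1, 2), (1, 3), (2, 1), (2, 2), (2, 4), (3, 2), (3, 3), (3,
      5), (4, 0), (4, 1), (4, 5), (4, 6), (5, 0), (5, 3), (5, 5), (6, 5), (6, 6), (6, 7)]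
    cl := [0, 0, 3, 2, 5, 1, 4, 6]
    chq := [(0, 1), (0, 3), (1, 0), (1, 4), (2, 4), (3, 0), (4, 1), (4, 2)]
    rng := [(0, 3), (1, 4), (1, 6), (2, 4), (2, 5), (3, 0), (3, 5), (4, 1), (4, 2), (5, 2), (5, 3), (5,
      7), (6, 1), (6, 7), (7, 5), (7, 6)]
    lev := [] }
  links := [[1, 7, 4, 8], [7, 0, 8, 2, 9, 3, 10], [9, 1, 8, 11], [10, 1, 9, 12], [8, 0, 7, 5, 12, 6, 13],
    [12, 4, 7, 10], [13, 4, 12, 14]]
  P := {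
    a := 7
    N := 15
    nb := [402, 1933, 2818, 5634, 12769, 5264, 28688, 1075, 10263, 6158, 4266, 772, 18040, 16720,
      12352]
    tri := [(0, 1, 7), (0, 1, 8), (0, 4, 7), (0, 4, 8), (1, 2, 8), (1, 2, 9), (1, 3, 9), (1, 3, 10),
      (1, 7, 10), (2, 8, 11), (2, 9, 11), (3, 9, 12), (3, 10, 12), (4, 5, 7), (4, 5, 12), (4, 6,
      12), (4, 6, 13), (4, 8, 13), (5, 7, 10), (5, 10, 12), (6, 12, 14), (6, 13, 14)]
    fin := [0, 0, 0, 0, 4, 4, 6, 0, 0, 9, 4, 11, 6, 13, 14]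
    chd := [(0, 6), (0, 9), (4, 13), (6, 13)]
    steps := [(0, 1), (0, 2), (0, 3), (0, 7), (0, 8), (4, 5), (4, 10), (6, 12)] }
  rep := [0, 6, 4, 9, 13, 11, 14]

noncomputable def v2303 : Cov.CovD where
  P := 3
  N := 4
  pl := [4, 7]
  lev := [⟨[], [], [(0, 0)], [], [(0, 0, [1, 3]), (1, 0, [1, 3])]⟩,
    ⟨[], [(0, 0), (0, 2), (0, 3)], [(0, 0), (0, 2), (0, 3), (2, 3)], [], [(0, 0, [1, 3]),
      (1, 0, [1, 3]), (2, 3, [0]), (3, 2, [4])]⟩,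
    ⟨[(0, 1)], [(0, 0), (1, 0), (1, 2), (1, 3)], [(0, 3)], [5], [(1, 0, [1, 3]), (2, 3,
      [0])]⟩,
    ⟨[(0, 1), (1, 2)], [(1, 0), (1, 1), (1, 2), (1, 3), (2, 3)], [(1, 2), (1, 3), (2, 3)],
      [], [(2, 3, [0]), (3, 2, [4]), (5, 1, [0, 4])]⟩,
    ⟨[(0, 1)], [(0, 0), (0, 1), (0, 4), (1, 0), (2, 0), (3, 1)], [(0, 0), (0, 1), (0, 4),
      (1, 4)], [], [(0, 0, [1, 3]), (1, 0, [1, 3]), (5, 1, [0, 4]), (6, 4, [1, 2])]⟩,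
    ⟨[(0, 4)], [(0, 0), (1, 0), (1, 2), (3, 1), (3, 2), (4, 0), (4, 1), (4, 2), (4, 4)],
      [(0, 1), (0, 2), (1, 2)], [], [(0, 0, [1, 3]), (3, 2, [4]), (5, 1, [0, 4])]⟩,
    ⟨[(0, 4), (4, 5)], [(3, 1), (4, 0), (4, 1), (4, 4), (5, 1)], [(1, 4)], [6], [(5, 1, [0,
      4]), (6, 4, [1, 2])]⟩]
  Ta := [((0, 3), 0, 2), ((1, 4), 0, 5), ((1, 6), 0, 4)]
  Tb := [((1, 4, 6), 0, 5, 4), ((2, 4, 5), 3, 5, 1), ((3, 0, 5), 2, 0, 1), ((4, 1, 2), 5, 0, 3),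
    ((5, 2, 3), 1, 3, 2), ((5, 2, 7), 1, 3, 6), ((5, 3, 7), 1, 2, 6), ((6, 1, 7), 4, 0, 6),
    ((7, 5, 6), 6, 1, 4)]
  Tc := [(0, 1, 3), (1, 0, 4), (4, 1, 2)]
  Td := [((0, 1), (0, 3), 2), ((0, 1), (1, 4), 5), ((0, 1), (1, 6), 4), ((0, 3), (0, 3), 2), ((0,
    3), (1, 4), 5), ((0, 3), (1, 6), 4), ((1, 0), (5, 2), 3), ((1, 0), (5, 3), 2), ((1, 0),
    (5, 7), 6), ((1, 4), (5, 2), 3), ((1, 4), (5, 3), 2), ((1, 4), (5, 7), 6), ((2, 4), (3,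
    0), 0), ((2, 4), (3, 5), 1), ((3, 0), (2, 4), 5), ((3, 0), (2, 5), 1), ((4, 1), (6, 1),
    0), ((4, 1), (6, 7), 6), ((4, 2), (6, 1), 0), ((4, 2), (6, 7), 6)]
  G := [[0, 0x182414142818c, 0x9458c8118c58c41c2, 0x18c58c819458c118c58c46c2,
    0xd8411d841d8416a8], [0, 0x142414182818c, 0, 0x9151c19458c8a9451c19451c46c2,
    0xd141d84162d141d148c8a]]

noncomputable def n2303 : Ent := ⟨e2303, noF, [], [], [(14, 9, [81620716623019602097318223589561398452066342659903422713857, 0]), (13, 11, [87897819106695009670850314479939991540314240926397389332481, 0])]⟩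

def c2303 : PLift (Cov.check n2303.C.D v2303 = true) := ⟨by decide +kernel⟩

def b2303 : PLift (entF (fidx ts) 400 2303 n2303 = true) := ⟨by decide +kernel⟩

theorem g2303 : GoodF (fidx ts) 400 2303 := GoodF.ofV v2303 n2303 c2303.down b2303.down

/-- 4744744:1913/7 -/
noncomputable def e2304 : SCfg where
  D := {
    a := 7
    L := 7
    kp := 5
    inn := [(0, 1), (0, 4), (1, 0), (1, 2), (1, 3), (2, 1), (3, 1), (4, 0), (4, 5), (4, 6), (5, 4), (6,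
      4)]
    mix := [(0, 0), (0, 1), (1, 0), (1, 1), (1, 2), (1, 3), (2, 1), (2, 2), (2, 4), (3, 2), (3, 3), (3,
      5), (4, 0), (4, 1), (4, 4), (4, 6), (5, 0), (5, 3), (5, 6), (6, 2), (6, 4), (6, 6)]
    cl := [0, 0, 3, 2, 1, 5, 4]
    chq := [(0, 3), (0, 4), (0, 5), (1, 4), (3, 0), (4, 0), (4, 1), (5, 0)]
    rng := [(0, 3), (1, 4), (2, 4), (2, 5), (2, 6), (3, 0), (3, 5), (3, 6), (4, 1), (4, 2), (5, 2), (5,
      3), (6, 2), (6, 3)]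
    lev := [] }
  links := [[1, 7, 4, 8], [7, 0, 8, 2, 9, 3, 10], [9, 1, 8, 11], [10, 1, 9, 12], [8, 0, 7, 5, 13, 6, 11],
    [13, 4, 7, 10], [11, 4, 13, 9]]
  P := {
    a := 7
    N := 14
    nb := [402, 1933, 2818, 5634, 10721, 9360, 10768, 1075, 2071, 14414, 12458, 852, 1544, 1648]
    tri := [(0, 1, 7), (0, 1, 8), (0, 4, 7), (0, 4, 8), (1, 2, 8), (1, 2, 9), (1, 3, 9), (1, 3, 10),
      (1, 7, 10), (2, 8, 11), (2, 9, 11), (3, 9, 12), (3, 10, 12), (4, 5, 7), (4, 5, 13), (4, 6,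
      11), (4, 6, 13), (4, 8, 11), (5, 7, 10), (5, 10, 13), (6, 9, 11), (6, 9, 13)]
    fin := [0, 0, 0, 0, 0, 0, 6, 0, 0, 9, 10, 11, 12, 6]
    chd := [(0, 6), (0, 9), (0, 12), (11, 6)]
    steps := [(0, 1), (0, 2), (0, 3), (0, 7), (0, 5), (0, 8), (0, 4), (6, 13)] }
  rep := [0, 11, 10, 9, 6, 12]

noncomputable def v2304 : Cov.CovD where
  P := 3
  N := 3
  pl := [3]
  lev := [⟨[], [], [(0, 0)], [], [(0, 0, [3, 4, 5]), (1, 0, [3, 4, 5])]⟩,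
    ⟨[], [(0, 0), (0, 3)], [(0, 0), (0, 3)], [2], [(0, 0, [3, 4, 5]), (1, 0, [3, 4, 5]),
      (2, 3, [0])]⟩,
    ⟨[(0, 1)], [(0, 0), (1, 0), (1, 1), (1, 3)], [(0, 1), (0, 3), (1, 3)], [], [(1, 0, [3,
      4, 5]), (2, 3, [0]), (4, 1, [4])]⟩,
    ⟨[(0, 1), (1, 2)], [(1, 0), (1, 3), (1, 5), (2, 3)], [(3, 5)], [2], [(2, 3, [0]), (5,
      5, [0])]⟩,
    ⟨[(0, 1)], [(0, 0), (0, 1), (0, 4), (1, 0), (2, 0), (2, 1)], [(0, 0), (0, 1), (0, 4),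
      (1, 4)], [], [(0, 0, [3, 4, 5]), (1, 0, [3, 4, 5]), (4, 1, [4]), (6, 4, [0, 1])]⟩,
    ⟨[(0, 4)], [(0, 0), (1, 0), (4, 0), (4, 1), (4, 4)], [(0, 4)], [2], [(0, 0, [3, 4, 5]),
      (6, 4, [0, 1])]⟩,
    ⟨[(0, 4), (4, 5)], [(1, 3), (2, 1), (2, 3), (3, 3), (4, 0), (4, 1), (4, 3), (4, 4), (5,
      4)], [(1, 3), (1, 4), (3, 4)], [], [(2, 3, [0]), (4, 1, [4]), (6, 4, [0, 1])]⟩]
  Ta := [((0, 3), 0, 2), ((1, 4), 0, 1)]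
  Tb := [((2, 4, 5), 3, 1, 5), ((2, 4, 6), 3, 1, 4), ((2, 5, 6), 3, 5, 4), ((3, 0, 5), 2, 0, 5),
    ((3, 0, 6), 2, 0, 4), ((3, 5, 6), 2, 5, 4), ((4, 1, 2), 1, 0, 3), ((5, 2, 3), 5, 3, 2),
    ((6, 2, 3), 4, 3, 2)]
  Tc := [(0, 3, 4), (0, 3, 5), (0, 4, 5), (4, 0, 1)]
  Td := [((0, 3), (0, 3), 2), ((0, 3), (1, 4), 1), ((0, 4), (0, 3), 2), ((0, 4), (1, 4), 1), ((0,
    5), (0, 3), 2), ((0, 5), (1, 4), 1), ((1, 4), (4, 1), 0), ((1, 4), (4, 2), 3), ((3, 0),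
    (2, 4), 1), ((3, 0), (2, 5), 5), ((3, 0), (2, 6), 4), ((4, 0), (6, 2), 3), ((4, 0), (6,
    3), 2), ((4, 1), (6, 2), 3), ((4, 1), (6, 3), 2), ((5, 0), (5, 2), 3), ((5, 0), (5, 3),
    2)]
  G := [[0, 0, 0x1214c4141212c811212c21ac, 0x1814c11189145c14c2, 0x1812c1128242c1486], [0,
    0x8164a184121a12c4, 0, 0x8114c181841c14c2, 0x8211c181142c14a2]]

noncomputable def n2304 : Ent := ⟨e2304, noF, [], [], [(13, 12, [19926558533506552585326781773177673327977379185610964993, 0])]⟩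

def c2304 : PLift (Cov.check n2304.C.D v2304 = true) := ⟨by decide +kernel⟩

def b2304 : PLift (entF (fidx ts) 400 2304 n2304 = true) := ⟨by decide +kernel⟩

theorem g2304 : GoodF (fidx ts) 400 2304 := GoodF.ofV v2304 n2304 c2304.down b2304.down

/-- 4744744:1913/6 -/
noncomputable def e2305 : SCfg where
  D := {
    a := 7
    L := 8
    kp := 6
    inn := [(0, 1), (0, 4), (1, 0), (1, 2), (1, 3), (2, 1), (3, 1), (4, 0), (4, 5), (4, 6), (5, 4), (6,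
      4)]
    mix := [(0, 0), (0, 1), (1, 0), (1, 1), (1, 2), (1, 3), (2, 1), (2, 2), (2, 4), (3, 2), (3, 3), (3,
      5), (4, 0), (4, 1), (4, 6), (4, 7), (5, 0), (5, 3), (5, 6), (6, 2), (6, 6), (6, 7)]
    cl := [0, 0, 1, 2, 6, 5, 3, 4]
    chq := [(0, 1), (0, 3), (0, 5), (1, 0), (3, 0), (3, 4), (4, 3), (5, 0)]
    rng := [(0, 3), (1, 4), (1, 7), (2, 4), (2, 5), (2, 6), (2, 7), (3, 0), (3, 5), (3, 6), (4, 1), (4,
      2), (5, 2), (5, 3), (6, 2), (6, 3), (7, 1), (7, 2)]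
    lev := [] }
  links := [[1, 7, 4, 8], [7, 0, 8, 2, 9, 3, 10], [9, 1, 8, 11], [10, 1, 9, 12], [8, 0, 7, 5, 13, 6, 14],
    [13, 4, 7, 10], [14, 4, 13, 9]]
  P := {
    a := 7
    N := 15
    nb := [402, 1933, 2818, 5634, 25057, 9360, 25104, 1075, 18455, 30798, 12458, 772, 1544, 1648, 848]
    tri := [(0, 1, 7), (0, 1, 8), (0, 4, 7), (0, 4, 8), (1, 2, 8), (1, 2, 9), (1, 3, 9), (1, 3, 10),
      (1, 7, 10), (2, 8, 11), (2, 9, 11), (3, 9, 12), (3, 10, 12), (4, 5, 7), (4, 5, 13), (4, 6,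
      13), (4, 6, 14), (4, 8, 14), (5, 7, 10), (5, 10, 13), (6, 9, 13), (6, 9, 14)]
    fin := [0, 0, 0, 0, 0, 0, 6, 0, 0, 9, 10, 11, 12, 6, 14]
    chd := [(0, 6), (0, 9), (0, 12), (6, 14)]
    steps := [(0, 1), (0, 2), (0, 3), (0, 4), (0, 7), (0, 5), (0, 8), (6, 13)] }
  rep := [0, 9, 10, 6, 14, 12, 11]

noncomputable def v2305 : Cov.CovD where
  P := 3
  N := 4
  pl := [3, 4]
  lev := [⟨[], [], [(0, 0)], [], [(0, 0, [1, 3, 5]), (1, 0, [1, 3, 5])]⟩,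
    ⟨[], [(0, 0), (0, 1)], [(0, 0), (0, 1)], [2], [(0, 0, [1, 3, 5]), (1, 0, [1, 3, 5]),
      (2, 1, [0])]⟩,
    ⟨[(0, 1)], [(0, 0), (1, 0), (1, 1)], [(0, 1)], [6], [(1, 0, [1, 3, 5]), (2, 1, [0])]⟩,
    ⟨[(0, 1), (1, 2)], [(1, 0), (1, 1), (1, 5), (2, 1)], [(1, 5)], [2], [(2, 1, [0]), (5,
      5, [0])]⟩,
    ⟨[(0, 1)], [(0, 0), (0, 3), (0, 4), (1, 0), (2, 0)], [(0, 0), (0, 3), (0, 4), (3, 4)],
      [], [(0, 0, [1, 3, 5]), (1, 0, [1, 3, 5]), (6, 3, [0, 4]), (7, 4, [3])]⟩,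
    ⟨[(0, 4)], [(0, 0), (1, 0), (4, 0), (4, 3), (4, 4)], [(0, 3)], [2], [(0, 0, [1, 3, 5]),
      (6, 3, [0, 4])]⟩,
    ⟨[(0, 4), (4, 5)], [(1, 1), (2, 1), (3, 1), (4, 0), (4, 1), (4, 3), (4, 4), (5, 3)],
      [(1, 3), (1, 4), (3, 4)], [], [(2, 1, [0]), (6, 3, [0, 4]), (7, 4, [3])]⟩]
  Ta := [((0, 3), 0, 2), ((1, 4), 0, 6), ((1, 7), 0, 4)]
  Tb := [((1, 4, 7), 0, 6, 4), ((2, 4, 5), 1, 6, 5), ((2, 4, 6), 1, 6, 3), ((2, 4, 7), 1, 6, 4),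
    ((2, 5, 6), 1, 5, 3), ((2, 5, 7), 1, 5, 4), ((2, 6, 7), 1, 3, 4), ((3, 0, 5), 2, 0, 5),
    ((3, 0, 6), 2, 0, 3), ((3, 5, 6), 2, 5, 3), ((4, 1, 2), 6, 0, 1), ((5, 2, 3), 5, 1, 2),
    ((6, 2, 3), 3, 1, 2), ((7, 1, 2), 4, 0, 1)]
  Tc := [(0, 1, 3), (0, 1, 5), (0, 3, 5), (3, 0, 4)]
  Td := [((0, 1), (0, 3), 2), ((0, 1), (1, 4), 6), ((0, 1), (1, 7), 4), ((0, 3), (0, 3), 2), ((0,
    3), (1, 4), 6), ((0, 3), (1, 7), 4), ((0, 5), (0, 3), 2), ((0, 5), (1, 4), 6), ((0, 5),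
    (1, 7), 4), ((1, 0), (2, 4), 6), ((1, 0), (2, 5), 5), ((1, 0), (2, 6), 3), ((1, 0), (2,
    7), 4), ((3, 0), (6, 2), 1), ((3, 0), (6, 3), 2), ((3, 4), (6, 2), 1), ((3, 4), (6, 3),
    2), ((4, 3), (7, 1), 0), ((4, 3), (7, 2), 1), ((5, 0), (5, 2), 1), ((5, 0), (5, 3), 2)]
  G := [[0, 0x41414141688121a18121a1a4c, 0x1811a12e1811a12ec184, 0x181411ce1142,
    0x1811a12e1184], [0, 0x4121614141688121a18181a8c, 0, 0x18911415e1181195ce1c84,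
    0x4891152e11891d2e1c84]]

noncomputable def n2305 : Ent := ⟨e2305, noF, [], [], [(13, 12, [87899350853947037246286378706680507498760953601682110926849, 0]), (14, 11, [81620717745452748063725672116875642299580338513852085829633, 0])]⟩

def c2305 : PLift (Cov.check n2305.C.D v2305 = true) := ⟨by decide +kernel⟩

def b2305 : PLift (entF (fidx ts) 400 2305 n2305 = true) := ⟨by decide +kernel⟩

theorem g2305 : GoodF (fidx ts) 400 2305 := GoodF.ofV v2305 n2305 c2305.down b2305.down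

/-- 4744744:1913/9 -/
noncomputable def e2306 : SCfg where
  D := {
    a := 7
    L := 7
    kp := 5
    inn := [(0, 1), (0, 4), (1, 0), (1, 2), (1, 3), (2, 1), (3, 1), (4, 0), (4, 5), (4, 6), (5, 4), (6,
      4)]
    mix := [(0, 0), (0, 1), (1, 0), (1, 1), (1, 2), (1, 3), (2, 1), (2, 2), (2, 4), (3, 2), (3, 3), (3,
      5), (4, 0), (4, 1), (4, 4), (4, 6), (5, 0), (5, 3), (5, 6), (6, 4), (6, 5), (6, 6)]
    cl := [0, 0, 4, 2, 1, 5, 3]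
    chq := [(0, 3), (0, 4), (0, 5), (1, 3), (3, 0), (3, 1), (4, 0), (5, 0)]
    rng := [(0, 3), (1, 4), (2, 4), (2, 5), (3, 0), (3, 5), (3, 6), (4, 1), (4, 2), (4, 5), (5, 2), (5,
      3), (5, 4), (5, 6), (6, 3), (6, 5)]
    lev := [] }
  links := [[1, 7, 4, 8], [7, 0, 8, 2, 9, 3, 10], [9, 1, 8, 11], [10, 1, 9, 12], [8, 0, 7, 5, 13, 6, 11],
    [13, 4, 7, 10], [11, 4, 13, 12]]
  P := {
    a := 7
    N := 14
    nb := [402, 1933, 2818, 5634, 10721, 9360, 14352, 1075, 2071, 6158, 12458, 4948, 11848, 5232]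
    tri := [(0, 1, 7), (0, 1, 8), (0, 4, 7), (0, 4, 8), (1, 2, 8), (1, 2, 9), (1, 3, 9), (1, 3, 10),
      (1, 7, 10), (2, 8, 11), (2, 9, 11), (3, 9, 12), (3, 10, 12), (4, 5, 7), (4, 5, 13), (4, 6,
      11), (4, 6, 13), (4, 8, 11), (5, 7, 10), (5, 10, 13), (6, 11, 12), (6, 12, 13)]
    fin := [0, 0, 0, 0, 0, 0, 6, 0, 0, 9, 10, 11, 12, 6]
    chd := [(0, 6), (0, 9), (0, 12), (11, 6)]
    steps := [(0, 1), (0, 2), (0, 3), (0, 7), (0, 5), (0, 8), (0, 4), (6, 13)] }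
  rep := [0, 11, 10, 6, 9, 12]

noncomputable def v2306 : Cov.CovD where
  P := 3
  N := 3
  pl := [3]
  lev := [⟨[], [], [(0, 0)], [], [(0, 0, [3, 4, 5]), (1, 0, [3, 4, 5])]⟩,
    ⟨[], [(0, 0), (0, 4)], [(0, 0), (0, 4)], [2], [(0, 0, [3, 4, 5]), (1, 0, [3, 4, 5]),
      (2, 4, [0])]⟩,
    ⟨[(0, 1)], [(0, 0), (1, 0), (1, 1), (1, 4)], [(0, 1), (0, 4), (1, 4)], [], [(1, 0, [3,
      4, 5]), (2, 4, [0]), (4, 1, [3])]⟩,
    ⟨[(0, 1), (1, 2)], [(1, 0), (1, 4), (1, 5), (2, 4)], [(4, 5)], [2], [(2, 4, [0]), (5,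
      5, [0])]⟩,
    ⟨[(0, 1)], [(0, 0), (0, 1), (0, 3), (1, 0), (2, 0), (2, 1)], [(0, 0), (0, 1), (0, 3),
      (1, 3)], [], [(0, 0, [3, 4, 5]), (1, 0, [3, 4, 5]), (4, 1, [3]), (6, 3, [0, 1])]⟩,
    ⟨[(0, 4)], [(0, 0), (1, 0), (4, 0), (4, 1), (4, 3)], [(0, 3)], [2], [(0, 0, [3, 4, 5]),
      (6, 3, [0, 1])]⟩,
    ⟨[(0, 4), (4, 5)], [(2, 1), (3, 5), (4, 0), (4, 1), (4, 3), (4, 5), (5, 3)], [(1, 3),
      (1, 5), (3, 5)], [], [(4, 1, [3]), (5, 5, [0]), (6, 3, [0, 1])]⟩]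
  Ta := [((0, 3), 0, 2), ((1, 4), 0, 1)]
  Tb := [((2, 4, 5), 4, 1, 5), ((3, 0, 5), 2, 0, 5), ((3, 0, 6), 2, 0, 3), ((3, 5, 6), 2, 5, 3),
    ((4, 1, 2), 1, 0, 4), ((4, 1, 5), 1, 0, 5), ((4, 2, 5), 1, 4, 5), ((5, 2, 3), 5, 4, 2),
    ((5, 2, 4), 5, 4, 1), ((5, 2, 6), 5, 4, 3), ((5, 3, 4), 5, 2, 1), ((5, 3, 6), 5, 2, 3),
    ((5, 4, 6), 5, 1, 3), ((6, 3, 5), 3, 2, 5)]
  Tc := [(0, 3, 4), (0, 3, 5), (0, 4, 5), (3, 0, 1)]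
  Td := [((0, 3), (0, 3), 2), ((0, 3), (1, 4), 1), ((0, 4), (0, 3), 2), ((0, 4), (1, 4), 1), ((0,
    5), (0, 3), 2), ((0, 5), (1, 4), 1), ((1, 3), (4, 1), 0), ((1, 3), (4, 2), 4), ((1, 3),
    (4, 5), 5), ((3, 0), (6, 3), 2), ((3, 0), (6, 5), 5), ((3, 1), (6, 3), 2), ((3, 1), (6,
    5), 5), ((4, 0), (2, 4), 1), ((4, 0), (2, 5), 5), ((5, 0), (5, 2), 4), ((5, 0), (5, 3),
    2), ((5, 0), (5, 4), 1), ((5, 0), (5, 6), 3)]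
  G := [[0, 0, 0x1812c811212c21a1214c4146, 0x189145c18189145c11c2, 0x9252c189252c14a2], [0,
    0xa161c18a161c14c2, 0, 0x91145c18189145c14c2, 0x9152c189252c14a2]]

noncomputable def n2306 : Ent := ⟨e2306, noF, [], [], []⟩

def c2306 : PLift (Cov.check n2306.C.D v2306 = true) := ⟨by decide +kernel⟩

def b2306 : PLift (entF (fidx ts) 400 2306 n2306 = true) := ⟨by decide +kernel⟩

theorem g2306 : GoodF (fidx ts) 400 2306 := GoodF.ofV v2306 n2306 c2306.down b2306.down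

/-- 4744744:1913/8 -/
noncomputable def e2307 : SCfg where
  D := {
    a := 7
    L := 8
    kp := 6
    inn := [(0, 1), (0, 4), (1, 0), (1, 2), (1, 3), (2, 1), (3, 1), (4, 0), (4, 5), (4, 6), (5, 4), (6,
      4)]
    mix := [(0, 0), (0, 1), (1, 0), (1, 1), (1, 2), (1, 3), (2, 1), (2, 2), (2, 4), (3, 2), (3, 3), (3,
      5), (4, 0), (4, 1), (4, 6), (4, 7), (5, 0), (5, 3), (5, 6), (6, 5), (6, 6), (6, 7)]
    cl := [0, 0, 1, 2, 6, 4, 3, 5]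
    chq := [(0, 1), (0, 3), (0, 4), (1, 0), (3, 0), (3, 5), (4, 0), (5, 3)]
    rng := [(0, 3), (1, 4), (1, 7), (2, 4), (2, 5), (3, 0), (3, 5), (3, 6), (4, 1), (4, 2), (5, 2), (5,
      3), (5, 6), (5, 7), (6, 3), (6, 5), (7, 1), (7, 5)]
    lev := [] }
  links := [[1, 7, 4, 8], [7, 0, 8, 2, 9, 3, 10], [9, 1, 8, 11], [10, 1, 9, 12], [8, 0, 7, 5, 13, 6, 14],
    [13, 4, 7, 10], [14, 4, 13, 12]]
  P := {
    a := 7
    N := 15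
    nb := [402, 1933, 2818, 5634, 25057, 9360, 28688, 1075, 18455, 6158, 12458, 772, 26184, 5232,
      4432]
    tri := [(0, 1, 7), (0, 1, 8), (0, 4, 7), (0, 4, 8), (1, 2, 8), (1, 2, 9), (1, 3, 9), (1, 3, 10),
      (1, 7, 10), (2, 8, 11), (2, 9, 11), (3, 9, 12), (3, 10, 12), (4, 5, 7), (4, 5, 13), (4, 6,
      13), (4, 6, 14), (4, 8, 14), (5, 7, 10), (5, 10, 13), (6, 12, 13), (6, 12, 14)]
    fin := [0, 0, 0, 0, 0, 0, 6, 0, 0, 9, 10, 11, 12, 6, 14]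
    chd := [(0, 6), (0, 9), (0, 12), (6, 14)]
    steps := [(0, 1), (0, 2), (0, 3), (0, 4), (0, 7), (0, 5), (0, 8), (6, 13)] }
  rep := [0, 9, 10, 6, 12, 14, 11]

noncomputable def v2307 : Cov.CovD where
  P := 3
  N := 4
  pl := [3, 4]
  lev := [⟨[], [], [(0, 0)], [], [(0, 0, [1, 3, 4]), (1, 0, [1, 3, 4])]⟩,
    ⟨[], [(0, 0), (0, 1)], [(0, 0), (0, 1)], [2], [(0, 0, [1, 3, 4]), (1, 0, [1, 3, 4]),
      (2, 1, [0])]⟩,
    ⟨[(0, 1)], [(0, 0), (1, 0), (1, 1)], [(0, 1)], [6], [(1, 0, [1, 3, 4]), (2, 1, [0])]⟩,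
    ⟨[(0, 1), (1, 2)], [(1, 0), (1, 1), (1, 4), (2, 1)], [(1, 4)], [2], [(2, 1, [0]), (5,
      4, [0])]⟩,
    ⟨[(0, 1)], [(0, 0), (0, 3), (0, 5), (1, 0), (2, 0)], [(0, 0), (0, 3), (0, 5), (3, 5)],
      [], [(0, 0, [1, 3, 4]), (1, 0, [1, 3, 4]), (6, 3, [0, 5]), (7, 5, [3])]⟩,
    ⟨[(0, 4)], [(0, 0), (1, 0), (4, 0), (4, 3), (4, 5)], [(0, 3)], [2], [(0, 0, [1, 3, 4]),
      (6, 3, [0, 5])]⟩,
    ⟨[(0, 4), (4, 5)], [(3, 4), (4, 0), (4, 3), (4, 4), (4, 5), (5, 3)], [(3, 4), (3, 5),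
      (4, 5)], [], [(5, 4, [0]), (6, 3, [0, 5]), (7, 5, [3])]⟩]
  Ta := [((0, 3), 0, 2), ((1, 4), 0, 6), ((1, 7), 0, 5)]
  Tb := [((1, 4, 7), 0, 6, 5), ((2, 4, 5), 1, 6, 4), ((3, 0, 5), 2, 0, 4), ((3, 0, 6), 2, 0, 3),
    ((3, 5, 6), 2, 4, 3), ((4, 1, 2), 6, 0, 1), ((5, 2, 3), 4, 1, 2), ((5, 2, 6), 4, 1, 3),
    ((5, 2, 7), 4, 1, 5), ((5, 3, 6), 4, 2, 3), ((5, 3, 7), 4, 2, 5), ((5, 6, 7), 4, 3, 5),
    ((6, 3, 5), 3, 2, 4), ((7, 1, 5), 5, 0, 4)]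
  Tc := [(0, 1, 3), (0, 1, 4), (0, 3, 4), (3, 0, 5)]
  Td := [((0, 1), (0, 3), 2), ((0, 1), (1, 4), 6), ((0, 1), (1, 7), 5), ((0, 3), (0, 3), 2), ((0,
    3), (1, 4), 6), ((0, 3), (1, 7), 5), ((0, 4), (0, 3), 2), ((0, 4), (1, 4), 6), ((0, 4),
    (1, 7), 5), ((1, 0), (2, 4), 6), ((1, 0), (2, 5), 4), ((3, 0), (6, 3), 2), ((3, 0), (6,
    5), 4), ((3, 5), (6, 3), 2), ((3, 5), (6, 5), 4), ((4, 0), (5, 2), 1), ((4, 0), (5, 3),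
    2), ((4, 0), (5, 6), 3), ((4, 0), (5, 7), 5), ((5, 3), (7, 1), 0), ((5, 3), (7, 5), 4)]
  G := [[0, 0x111411e1111111e1a48, 0x1811a12e1811a12ec184, 0x145411818922ca114c,
    0x1112618911a12e9184], [0, 0x111111e1111111e1a84, 0, 0x11811945129e511811945225e9c48,
    0x58911163e158911523e11148d84]]

noncomputable def n2307 : Ent := ⟨e2307, noF, [], [], [(14, 11, [81620717745452748063725672116875642299580338513852085837825, 0])]⟩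

def c2307 : PLift (Cov.check n2307.C.D v2307 = true) := ⟨by decide +kernel⟩

def b2307 : PLift (entF (fidx ts) 400 2307 n2307 = true) := ⟨by decide +kernel⟩

theorem g2307 : GoodF (fidx ts) 400 2307 := GoodF.ofV v2307 n2307 c2307.down b2307.down

/-- 4744744:1913/10 -/
noncomputable def e2308 : SCfg where
  D := {
    a := 7
    L := 8
    kp := 6
    inn := [(0, 1), (0, 4), (1, 0), (1, 2), (1, 3), (2, 1), (3, 1), (4, 0), (4, 5), (4, 6), (5, 4), (6,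
      4)]
    mix := [(0, 0), (0, 1), (1, 0), (1, 1), (1, 2), (1, 3), (2, 1), (2, 2), (2, 4), (3, 2), (3, 3), (3,
      5), (4, 0), (4, 1), (4, 4), (4, 6), (5, 0), (5, 3), (5, 6), (6, 4), (6, 6), (6, 7)]
    cl := [0, 0, 3, 1, 2, 5, 4, 6]
    chq := [(0, 3), (0, 4), (0, 5), (0, 6), (3, 0), (4, 0), (5, 0), (6, 0)]
    rng := [(0, 3), (1, 4), (2, 4), (2, 5), (3, 0), (3, 5), (3, 6), (4, 1), (4, 2), (4, 7), (5, 2), (5,
      3), (6, 3), (6, 7), (7, 4), (7, 6)]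
    lev := [] }
  links := [[1, 7, 4, 8], [7, 0, 8, 2, 9, 3, 10], [9, 1, 8, 11], [10, 1, 9, 12], [8, 0, 7, 5, 13, 6, 11],
    [13, 4, 7, 10], [11, 4, 13, 14]]
  P := {
    a := 7
    N := 15
    nb := [402, 1933, 2818, 5634, 10721, 9360, 26640, 1075, 2071, 6158, 12458, 17236, 1544, 17520,
      10304]
    tri := [(0, 1, 7), (0, 1, 8), (0, 4, 7), (0, 4, 8), (1, 2, 8), (1, 2, 9), (1, 3, 9), (1, 3, 10),
      (1, 7, 10), (2, 8, 11), (2, 9, 11), (3, 9, 12), (3, 10, 12), (4, 5, 7), (4, 5, 13), (4, 6,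
      11), (4, 6, 13), (4, 8, 11), (5, 7, 10), (5, 10, 13), (6, 11, 14), (6, 13, 14)]
    fin := [0, 0, 0, 0, 0, 0, 0, 0, 0, 9, 10, 11, 12, 13, 14]
    chd := [(0, 9), (0, 12), (0, 13), (0, 14)]
    steps := [(0, 1), (0, 2), (0, 3), (0, 7), (0, 5), (0, 8), (0, 4), (0, 6)] }
  rep := [0, 10, 11, 9, 13, 12, 14]

noncomputable def v2308 : Cov.CovD where
  P := 3
  N := 4
  pl := [3, 4]
  lev := [⟨[], [], [(0, 0)], [], [(0, 0, [3, 4, 5, 6]), (1, 0, [3, 4, 5, 6])]⟩,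
    ⟨[], [(0, 0), (0, 3)], [(0, 0), (0, 3)], [1], [(0, 0, [3, 4, 5, 6]), (1, 0, [3, 4, 5,
      6]), (2, 3, [0])]⟩,
    ⟨[(0, 1)], [(0, 0), (1, 0), (1, 3)], [(0, 3)], [2], [(1, 0, [3, 4, 5, 6]), (2, 3,
      [0])]⟩,
    ⟨[(0, 1), (1, 2)], [(1, 0), (1, 3), (1, 5), (2, 3)], [(3, 5)], [1], [(2, 3, [0]), (5,
      5, [0])]⟩,
    ⟨[(0, 1)], [(0, 0), (0, 4), (1, 0), (2, 0)], [(0, 0), (0, 4)], [2], [(0, 0, [3, 4, 5,
      6]), (1, 0, [3, 4, 5, 6]), (6, 4, [0])]⟩,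
    ⟨[(0, 4)], [(0, 0), (1, 0), (4, 0), (4, 4)], [(0, 4)], [1], [(0, 0, [3, 4, 5, 6]), (6,
      4, [0])]⟩,
    ⟨[(0, 4), (4, 5)], [(4, 0), (4, 4), (4, 6), (5, 4)], [(4, 6)], [2], [(6, 4, [0]), (7,
      6, [0])]⟩]
  Ta := [((0, 3), 0, 1), ((1, 4), 0, 2)]
  Tb := [((2, 4, 5), 3, 2, 5), ((3, 0, 5), 1, 0, 5), ((3, 0, 6), 1, 0, 4), ((3, 5, 6), 1, 5, 4),
    ((4, 1, 2), 2, 0, 3), ((4, 1, 7), 2, 0, 6), ((4, 2, 7), 2, 3, 6), ((5, 2, 3), 5, 3, 1),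
    ((6, 3, 7), 4, 1, 6), ((7, 4, 6), 6, 2, 4)]
  Tc := [(0, 3, 4), (0, 3, 5), (0, 3, 6), (0, 4, 5), (0, 4, 6), (0, 5, 6)]
  Td := [((0, 3), (0, 3), 1), ((0, 3), (1, 4), 2), ((0, 4), (0, 3), 1), ((0, 4), (1, 4), 2), ((0,
    5), (0, 3), 1), ((0, 5), (1, 4), 2), ((0, 6), (0, 3), 1), ((0, 6), (1, 4), 2), ((3, 0),
    (2, 4), 2), ((3, 0), (2, 5), 5), ((4, 0), (6, 3), 1), ((4, 0), (6, 7), 6), ((5, 0), (5,
    2), 3), ((5, 0), (5, 3), 1), ((6, 0), (7, 4), 2), ((6, 0), (7, 6), 4)]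
  G := [[0, 0x1214c2121814c811214c41ca, 0, 0x1814c181814c14c2, 0x1814a181814a12c4], [0, 0,
    0xc1a1612c1a1614c8, 0x1811c181814c14c2, 0x1811a181814a12c4]]

noncomputable def n2308 : Ent := ⟨e2308, noF, [], [], [(13, 12, [87899350853947037246286378706680507498760953601682110930945, 0]), (14, 9, [81620716623019602097318223589561398452066342659903422726145, 0]), (14, 12, [81623781614101222371308947630499991391842216896340260036609, 0])]⟩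

def c2308 : PLift (Cov.check n2308.C.D v2308 = true) := ⟨by decide +kernel⟩

def b2308 : PLift (entF (fidx ts) 400 2308 n2308 = true) := ⟨by decide +kernel⟩

theorem g2308 : GoodF (fidx ts) 400 2308 := GoodF.ofV v2308 n2308 c2308.down b2308.down

/-- 4744744:1913/1 -/
noncomputable def e2309 : SCfg where
  D := {
    a := 7
    L := 9
    kp := 7
    inn := [(0, 1), (0, 4), (1, 0), (1, 2), (1, 3), (2, 1), (3, 1), (4, 0), (4, 5), (4, 6), (5, 4), (6,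
      4)]
    mix := [(0, 0), (0, 1), (1, 0), (1, 1), (1, 2), (1, 3), (2, 1), (2, 2), (2, 4), (3, 2), (3, 3), (3,
      5), (4, 0), (4, 1), (4, 6), (4, 7), (5, 0), (5, 3), (5, 6), (6, 6), (6, 7), (6, 8)]
    cl := [0, 0, 1, 2, 7, 5, 3, 4, 6]
    chq := [(0, 1), (0, 3), (0, 5), (0, 6), (1, 0), (3, 0), (5, 0), (6, 0)]
    rng := [(0, 3), (1, 4), (1, 7), (2, 4), (2, 5), (3, 0), (3, 5), (3, 6), (4, 1), (4, 2), (5, 2), (5,
      3), (6, 3), (6, 8), (7, 1), (7, 8), (8, 6), (8, 7)]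
    lev := [] }
  links := [[1, 7, 4, 8], [7, 0, 8, 2, 9, 3, 10], [9, 1, 8, 11], [10, 1, 9, 12], [8, 0, 7, 5, 13, 6, 14],
    [13, 4, 7, 10], [14, 4, 13, 15]]
  P := {
    a := 7
    N := 16
    nb := [402, 1933, 2818, 5634, 25057, 9360, 57360, 1075, 18455, 6158, 12458, 772, 1544, 33904,
      33104, 24640]
    tri := [(0, 1, 7), (0, 1, 8), (0, 4, 7), (0, 4, 8), (1, 2, 8), (1, 2, 9), (1, 3, 9), (1, 3, 10),
      (1, 7, 10), (2, 8, 11), (2, 9, 11), (3, 9, 12), (3, 10, 12), (4, 5, 7), (4, 5, 13), (4, 6,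
      13), (4, 6, 14), (4, 8, 14), (5, 7, 10), (5, 10, 13), (6, 13, 15), (6, 14, 15)]
    fin := [0, 0, 0, 0, 0, 0, 0, 0, 0, 9, 10, 11, 12, 13, 14, 15]
    chd := [(0, 9), (0, 12), (0, 13), (0, 15)]
    steps := [(0, 1), (0, 2), (0, 3), (0, 4), (0, 6), (0, 7), (0, 5), (0, 8)] }
  rep := [0, 9, 10, 13, 14, 12, 15, 11]

noncomputable def v2309 : Cov.CovD where
  P := 3
  N := 5
  pl := [3, 4, 7]
  lev := [⟨[], [], [(0, 0)], [], [(0, 0, [1, 3, 5, 6]), (1, 0, [1, 3, 5, 6])]⟩,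
    ⟨[], [(0, 0), (0, 1)], [(0, 0), (0, 1)], [2], [(0, 0, [1, 3, 5, 6]), (1, 0, [1, 3, 5,
      6]), (2, 1, [0])]⟩,
    ⟨[(0, 1)], [(0, 0), (1, 0), (1, 1)], [(0, 1)], [7], [(1, 0, [1, 3, 5, 6]), (2, 1,
      [0])]⟩,
    ⟨[(0, 1), (1, 2)], [(1, 0), (1, 1), (1, 5), (2, 1)], [(1, 5)], [2], [(2, 1, [0]), (5,
      5, [0])]⟩,
    ⟨[(0, 1)], [(0, 0), (0, 3), (1, 0), (2, 0)], [(0, 0), (0, 3)], [4], [(0, 0, [1, 3, 5,
      6]), (1, 0, [1, 3, 5, 6]), (6, 3, [0])]⟩,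
    ⟨[(0, 4)], [(0, 0), (1, 0), (4, 0), (4, 3)], [(0, 3)], [2], [(0, 0, [1, 3, 5, 6]), (6,
      3, [0])]⟩,
    ⟨[(0, 4), (4, 5)], [(4, 0), (4, 3), (4, 6), (5, 3)], [(3, 6)], [4], [(6, 3, [0]), (8,
      6, [0])]⟩]
  Ta := [((0, 3), 0, 2), ((1, 4), 0, 7), ((1, 7), 0, 4)]
  Tb := [((1, 4, 7), 0, 7, 4), ((2, 4, 5), 1, 7, 5), ((3, 0, 5), 2, 0, 5), ((3, 0, 6), 2, 0, 3),
    ((3, 5, 6), 2, 5, 3), ((4, 1, 2), 7, 0, 1), ((5, 2, 3), 5, 1, 2), ((6, 3, 8), 3, 2, 6),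
    ((7, 1, 8), 4, 0, 6), ((8, 6, 7), 6, 3, 4)]
  Tc := [(0, 1, 3), (0, 1, 5), (0, 1, 6), (0, 3, 5), (0, 3, 6), (0, 5, 6)]
  Td := [((0, 1), (0, 3), 2), ((0, 1), (1, 4), 7), ((0, 1), (1, 7), 4), ((0, 3), (0, 3), 2), ((0,
    3), (1, 4), 7), ((0, 3), (1, 7), 4), ((0, 5), (0, 3), 2), ((0, 5), (1, 4), 7), ((0, 5),
    (1, 7), 4), ((0, 6), (0, 3), 2), ((0, 6), (1, 4), 7), ((0, 6), (1, 7), 4), ((1, 0), (2,
    4), 7), ((1, 0), (2, 5), 5), ((3, 0), (6, 3), 2), ((3, 0), (6, 8), 6), ((5, 0), (5, 2),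
    1), ((5, 0), (5, 3), 2), ((6, 0), (8, 6), 3), ((6, 0), (8, 7), 4)]
  G := [[0, 0x111111e1181111e1642, 0x1228141814c181411cec146, 0x181411ce1182, 0x1811a12e1184],
    [0, 0x111411e1181111e1c82, 0, 0x3c93451e13c93451e1c82, 0x78b1d2e13c93152e1c84]]

noncomputable def n2309 : Ent := ⟨e2309, noF, [], [], [(13, 12, [385753029973011613167317188540585705112827479461471962600042497, 0]), (15, 9, [360035742630636841345797572106540607504961255222653860052996097, 0]), (15, 12, [360035747228123463809659675990397950106674496442981057567928321, 0]), (14, 11, [385746751339903118878134627833995900247628298846384132574953473, 0])]⟩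

def c2309 : PLift (Cov.check n2309.C.D v2309 = true) := ⟨by decide +kernel⟩

def b2309 : PLift (entF (fidx ts) 400 2309 n2309 = true) := ⟨by decide +kernel⟩

theorem g2309 : GoodF (fidx ts) 400 2309 := GoodF.ofV v2309 n2309 c2309.down b2309.down

/-- 4744744:1913/13 -/
noncomputable def e2310 : SCfg where
  D := {
    a := 7
    L := 7
    kp := 5
    inn := [(0, 1), (0, 4), (1, 0), (1, 2), (1, 3), (2, 1), (3, 1), (4, 0), (4, 5), (4, 6), (5, 4), (6,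
      4)]
    mix := [(0, 0), (0, 1), (1, 0), (1, 1), (1, 2), (1, 3), (2, 1), (2, 2), (2, 4), (3, 2), (3, 3), (3,
      5), (4, 0), (4, 1), (4, 4), (4, 5), (5, 0), (5, 5), (5, 6), (6, 2), (6, 4), (6, 5)]
    cl := [0, 0, 3, 2, 1, 4, 5]
    chq := [(0, 3), (0, 4), (1, 4), (2, 3), (3, 0), (3, 2), (4, 0), (4, 1)]
    rng := [(0, 3), (0, 6), (1, 4), (2, 4), (2, 5), (3, 0), (3, 5), (4, 1), (4, 2), (5, 2), (5, 3), (5,
      6), (6, 0), (6, 5)]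
    lev := [] }
  links := [[1, 7, 4, 8], [7, 0, 8, 2, 9, 3, 10], [9, 1, 8, 11], [10, 1, 9, 12], [8, 0, 7, 5, 12, 6, 11],
    [12, 4, 7, 13], [11, 4, 12, 9]]
  P := {
    a := 7
    N := 14
    nb := [402, 1933, 2818, 5634, 6625, 12432, 6672, 9267, 2071, 6222, 4234, 852, 9848, 4256]
    tri := [(0, 1, 7), (0, 1, 8), (0, 4, 7), (0, 4, 8), (1, 2, 8), (1, 2, 9), (1, 3, 9), (1, 3, 10),
      (1, 7, 10), (2, 8, 11), (2, 9, 11), (3, 9, 12), (3, 10, 12), (4, 5, 7), (4, 5, 12), (4, 6,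
      11), (4, 6, 12), (4, 8, 11), (5, 7, 13), (5, 12, 13), (6, 9, 11), (6, 9, 12)]
    fin := [0, 0, 0, 3, 0, 0, 6, 0, 0, 3, 10, 11, 6, 13]
    chd := [(0, 3), (0, 6), (3, 10), (11, 6)]
    steps := [(0, 1), (0, 2), (0, 7), (0, 5), (0, 8), (0, 4), (3, 9), (6, 12)] }
  rep := [0, 11, 10, 3, 6, 13]

noncomputable def v2310 : Cov.CovD where
  P := 3
  N := 3
  pl := [6]
  lev := [⟨[], [], [(0, 0)], [], [(0, 0, [3, 4]), (1, 0, [3, 4])]⟩,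
    ⟨[], [(0, 0), (0, 2), (0, 3)], [(0, 0), (0, 2), (0, 3), (2, 3)], [], [(0, 0, [3, 4]),
      (1, 0, [3, 4]), (2, 3, [0, 2]), (3, 2, [3])]⟩,
    ⟨[(0, 1)], [(0, 0), (1, 0), (1, 1), (1, 2), (1, 3)], [(0, 1), (0, 3), (1, 3)], [], [(1,
      0, [3, 4]), (2, 3, [0, 2]), (4, 1, [4])]⟩,
    ⟨[(0, 1), (1, 2)], [(1, 0), (1, 2), (1, 3), (1, 4), (2, 3)], [(2, 3), (2, 4), (3, 4)],
      [], [(2, 3, [0, 2]), (3, 2, [3]), (5, 4, [0, 1])]⟩,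
    ⟨[(0, 1)], [(0, 0), (0, 1), (0, 4), (1, 0), (2, 0), (2, 1), (3, 4)], [(0, 0), (0, 1),
      (0, 4), (1, 4)], [], [(0, 0, [3, 4]), (1, 0, [3, 4]), (4, 1, [4]), (5, 4, [0, 1])]⟩,
    ⟨[(0, 4)], [(0, 0), (1, 0), (3, 4), (4, 0), (4, 1), (4, 4)], [(0, 4)], [5], [(0, 0, [3,
      4]), (5, 4, [0, 1])]⟩,
    ⟨[(0, 4), (4, 5)], [(1, 3), (2, 1), (2, 3), (3, 3), (3, 4), (4, 0), (4, 1), (4, 3), (4,
      4), (5, 4)], [(1, 3), (1, 4), (3, 4)], [], [(2, 3, [0, 2]), (4, 1, [4]), (5, 4, [0,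
      1])]⟩]
  Ta := [((0, 3), 0, 2), ((0, 6), 0, 5), ((1, 4), 0, 1)]
  Tb := [((0, 3, 6), 0, 2, 5), ((2, 4, 5), 3, 1, 4), ((3, 0, 5), 2, 0, 4), ((4, 1, 2), 1, 0, 3),
    ((5, 2, 3), 4, 3, 2), ((5, 2, 6), 4, 3, 5), ((5, 3, 6), 4, 2, 5), ((6, 0, 5), 5, 0, 4)]
  Tc := [(0, 3, 4), (3, 0, 2), (4, 0, 1)]
  Td := [((0, 3), (0, 3), 2), ((0, 3), (0, 6), 5), ((0, 3), (1, 4), 1), ((0, 4), (0, 3), 2), ((0,
    4), (0, 6), 5), ((0, 4), (1, 4), 1), ((1, 4), (4, 1), 0), ((1, 4), (4, 2), 3), ((2, 3),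
    (3, 0), 0), ((2, 3), (3, 5), 4), ((3, 0), (2, 4), 1), ((3, 0), (2, 5), 4), ((3, 2), (2,
    4), 1), ((3, 2), (2, 5), 4), ((4, 0), (5, 2), 3), ((4, 0), (5, 3), 2), ((4, 0), (5, 6),
    5), ((4, 1), (5, 2), 3), ((4, 1), (5, 3), 2), ((4, 1), (5, 6), 5)]
  G := [[0, 0, 0x11a81164a1146411a861c2, 0x11a8116491518b1447c14c2,
    0x811e414116424a18a818118b814ac], [0, 0x8121c184121a12c4, 0, 0x883815c1811444bc14c2,
    0x488b11c1811444bc14a2]]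

noncomputable def n2310 : Ent := ⟨e2310, noF, [], [], [(13, 10, [18394063266672220726512731909218270278661706248914714625, 0])]⟩

def c2310 : PLift (Cov.check n2310.C.D v2310 = true) := ⟨by decide +kernel⟩

def b2310 : PLift (entF (fidx ts) 400 2310 n2310 = true) := ⟨by decide +kernel⟩

theorem g2310 : GoodF (fidx ts) 400 2310 := GoodF.ofV v2310 n2310 c2310.down b2310.down

/-- 4744744:1913/12 -/
noncomputable def e2311 : SCfg where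
  D := {
    a := 7
    L := 8
    kp := 6
    inn := [(0, 1), (0, 4), (1, 0), (1, 2), (1, 3), (2, 1), (3, 1), (4, 0), (4, 5), (4, 6), (5, 4), (6,
      4)]
    mix := [(0, 0), (0, 1), (1, 0), (1, 1), (1, 2), (1, 3), (2, 1), (2, 2), (2, 4), (3, 2), (3, 3), (3,
      5), (4, 0), (4, 1), (4, 5), (4, 6), (5, 0), (5, 5), (5, 7), (6, 2), (6, 5), (6, 6)]
    cl := [0, 0, 1, 2, 6, 3, 4, 5]
    chq := [(0, 1), (0, 3), (1, 0), (3, 0), (3, 4), (4, 3), (4, 5), (5, 4)]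
    rng := [(0, 3), (0, 7), (1, 4), (1, 6), (2, 4), (2, 5), (2, 6), (3, 0), (3, 5), (4, 1), (4, 2), (5,
      2), (5, 3), (5, 7), (6, 1), (6, 2), (7, 0), (7, 5)]
    lev := [] }
  links := [[1, 7, 4, 8], [7, 0, 8, 2, 9, 3, 10], [9, 1, 8, 11], [10, 1, 9, 12], [8, 0, 7, 5, 12, 6, 13],
    [12, 4, 7, 14], [13, 4, 12, 9]]
  P := {
    a := 7
    N := 15
    nb := [402, 1933, 2818, 5634, 12769, 20624, 12816, 17459, 10263, 14414, 4234, 772, 18040, 848,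
      4256]
    tri := [(0, 1, 7), (0, 1, 8), (0, 4, 7), (0, 4, 8), (1, 2, 8), (1, 2, 9), (1, 3, 9), (1, 3, 10),
      (1, 7, 10), (2, 8, 11), (2, 9, 11), (3, 9, 12), (3, 10, 12), (4, 5, 7), (4, 5, 12), (4, 6,
      12), (4, 6, 13), (4, 8, 13), (5, 7, 14), (5, 12, 14), (6, 9, 12), (6, 9, 13)]
    fin := [0, 0, 0, 0, 4, 4, 6, 0, 0, 9, 10, 11, 6, 13, 4]
    chd := [(0, 6), (0, 9), (6, 13), (13, 4)]
    steps := [(0, 1), (0, 2), (0, 3), (0, 7), (0, 8), (4, 5), (4, 14), (6, 12)] }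
  rep := [0, 9, 10, 6, 13, 4, 11]

noncomputable def v2311 : Cov.CovD where
  P := 3
  N := 4
  pl := [3, 4]
  lev := [⟨[], [], [(0, 0)], [], [(0, 0, [1, 3]), (1, 0, [1, 3])]⟩,
    ⟨[], [(0, 0), (0, 1)], [(0, 0), (0, 1)], [2], [(0, 0, [1, 3]), (1, 0, [1, 3]), (2, 1,
      [0])]⟩,
    ⟨[(0, 1)], [(0, 0), (1, 0), (1, 1)], [(0, 1)], [6], [(1, 0, [1, 3]), (2, 1, [0])]⟩,
    ⟨[(0, 1), (1, 2)], [(1, 0), (1, 1), (1, 3), (2, 1)], [(1, 3)], [2], [(2, 1, [0]), (5,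
      3, [0, 4])]⟩,
    ⟨[(0, 1)], [(0, 0), (0, 3), (0, 4), (1, 0), (2, 0), (3, 3)], [(0, 0), (0, 3), (0, 4),
      (3, 4)], [], [(0, 0, [1, 3]), (1, 0, [1, 3]), (5, 3, [0, 4]), (6, 4, [3, 5])]⟩,
    ⟨[(0, 4)], [(0, 0), (1, 0), (3, 3), (4, 0), (4, 3), (4, 4), (4, 5)], [(0, 3), (0, 5),
      (3, 5)], [], [(0, 0, [1, 3]), (5, 3, [0, 4]), (7, 5, [4])]⟩,
    ⟨[(0, 4), (4, 5)], [(1, 1), (2, 1), (3, 1), (3, 3), (4, 0), (4, 1), (4, 3), (4, 4), (5,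
      3)], [(1, 3), (1, 4), (3, 4)], [], [(2, 1, [0]), (5, 3, [0, 4]), (6, 4, [3, 5])]⟩]
  Ta := [((0, 3), 0, 2), ((0, 7), 0, 5), ((1, 4), 0, 6), ((1, 6), 0, 4)]
  Tb := [((0, 3, 7), 0, 2, 5), ((1, 4, 6), 0, 6, 4), ((2, 4, 5), 1, 6, 3), ((2, 4, 6), 1, 6, 4),
    ((2, 5, 6), 1, 3, 4), ((3, 0, 5), 2, 0, 3), ((4, 1, 2), 6, 0, 1), ((5, 2, 3), 3, 1, 2),
    ((5, 2, 7), 3, 1, 5), ((5, 3, 7), 3, 2, 5), ((6, 1, 2), 4, 0, 1), ((7, 0, 5), 5, 0, 3)]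
  Tc := [(0, 1, 3), (3, 0, 4), (4, 3, 5)]
  Td := [((0, 1), (0, 3), 2), ((0, 1), (0, 7), 5), ((0, 1), (1, 4), 6), ((0, 1), (1, 6), 4), ((0,
    3), (0, 3), 2), ((0, 3), (0, 7), 5), ((0, 3), (1, 4), 6), ((0, 3), (1, 6), 4), ((1, 0),
    (2, 4), 6), ((1, 0), (2, 5), 3), ((1, 0), (2, 6), 4), ((3, 0), (5, 2), 1), ((3, 0), (5,
    3), 2), ((3, 0), (5, 7), 5), ((3, 4), (5, 2), 1), ((3, 4), (5, 3), 2), ((3, 4), (5, 7),
    5), ((4, 3), (6, 1), 0), ((4, 3), (6, 2), 1), ((4, 5), (6, 1), 0), ((4, 5), (6, 2), 1),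
    ((5, 4), (7, 0), 0), ((5, 4), (7, 5), 3)]
  G := [[0, 0x118114212d118412169a48, 0x11618a14a146c148, 0x1218a12146c184, 0x11644a19ce1182],
    [0, 0x118412169118412169a48, 0, 0x421468151a512842c9569c82, 0x816419d1e181443c15e1c82]]

noncomputable def n2311 : Ent := ⟨e2311, noF, [], [], [(14, 10, [81620716623384866002924956665996611981654050173009875947521, 0]), (13, 11, [87897819106695009670850314479939991540314240926397389365249, 0])]⟩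

def c2311 : PLift (Cov.check n2311.C.D v2311 = true) := ⟨by decide +kernel⟩

def b2311 : PLift (entF (fidx ts) 400 2311 n2311 = true) := ⟨by decide +kernel⟩

theorem g2311 : GoodF (fidx ts) 400 2311 := GoodF.ofV v2311 n2311 c2311.down b2311.down

/-- 4744744:1913/14 -/
noncomputable def e2312 : SCfg where
  D := {
    a := 7
    L := 8
    kp := 6
    inn := [(0, 1), (0, 4), (1, 0), (1, 2), (1, 3), (2, 1), (3, 1), (4, 0), (4, 5), (4, 6), (5, 4), (6,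
      4)]
    mix := [(0, 0), (0, 1), (1, 0), (1, 1), (1, 2), (1, 3), (2, 1), (2, 2), (2, 4), (3, 2), (3, 3), (3,
      5), (4, 0), (4, 1), (4, 4), (4, 5), (5, 0), (5, 5), (5, 6), (6, 4), (6, 5), (6, 7)]
    cl := [0, 0, 1, 2, 4, 3, 6, 5]
    chq := [(0, 1), (0, 3), (0, 5), (1, 0), (1, 2), (2, 1), (3, 0), (5, 0)]
    rng := [(0, 3), (0, 6), (1, 4), (2, 4), (2, 5), (3, 0), (3, 5), (4, 1), (4, 2), (4, 7), (5, 2), (5,
      3), (5, 6), (5, 7), (6, 0), (6, 5), (7, 4), (7, 5)]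
    lev := [] }
  links := [[1, 7, 4, 8], [7, 0, 8, 2, 9, 3, 10], [9, 1, 8, 11], [10, 1, 9, 12], [8, 0, 7, 5, 12, 6, 11],
    [12, 4, 7, 13], [11, 4, 12, 14]]
  P := {
    a := 7
    N := 15
    nb := [402, 1933, 2818, 5634, 6625, 12432, 22544, 9267, 2071, 6158, 4234, 17236, 26232, 4256,
      6208]
    tri := [(0, 1, 7), (0, 1, 8), (0, 4, 7), (0, 4, 8), (1, 2, 8), (1, 2, 9), (1, 3, 9), (1, 3, 10),
      (1, 7, 10), (2, 8, 11), (2, 9, 11), (3, 9, 12), (3, 10, 12), (4, 5, 7), (4, 5, 12), (4, 6,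
      11), (4, 6, 12), (4, 8, 11), (5, 7, 13), (5, 12, 13), (6, 11, 14), (6, 12, 14)]
    fin := [0, 0, 0, 3, 0, 0, 0, 0, 0, 3, 10, 11, 12, 13, 14]
    chd := [(0, 3), (0, 12), (0, 14), (3, 10)]
    steps := [(0, 1), (0, 2), (0, 7), (0, 5), (0, 8), (0, 4), (0, 6), (3, 9)] }
  rep := [0, 3, 10, 12, 11, 14, 13]

noncomputable def v2312 : Cov.CovD where
  P := 3
  N := 4
  pl := [4, 6]
  lev := [⟨[], [], [(0, 0)], [], [(0, 0, [1, 3, 5]), (1, 0, [1, 3, 5])]⟩,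
    ⟨[], [(0, 0), (0, 1), (0, 2)], [(0, 0), (0, 1), (0, 2), (1, 2)], [], [(0, 0, [1, 3,
      5]), (1, 0, [1, 3, 5]), (2, 1, [0, 2]), (3, 2, [1])]⟩,
    ⟨[(0, 1)], [(0, 0), (1, 0), (1, 1), (1, 2)], [(0, 1)], [4], [(1, 0, [1, 3, 5]), (2, 1,
      [0, 2])]⟩,
    ⟨[(0, 1), (1, 2)], [(1, 0), (1, 1), (1, 2), (1, 3), (2, 1)], [(1, 2), (1, 3), (2, 3)],
      [], [(2, 1, [0, 2]), (3, 2, [1]), (5, 3, [0])]⟩,
    ⟨[(0, 1)], [(0, 0), (0, 3), (1, 0), (2, 0), (3, 3)], [(0, 0), (0, 3)], [4], [(0, 0, [1,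
      3, 5]), (1, 0, [1, 3, 5]), (5, 3, [0])]⟩,
    ⟨[(0, 4)], [(0, 0), (1, 0), (3, 3), (4, 0), (4, 3)], [(0, 3)], [6], [(0, 0, [1, 3, 5]),
      (5, 3, [0])]⟩,
    ⟨[(0, 4), (4, 5)], [(3, 3), (4, 0), (4, 3), (4, 5), (5, 3)], [(3, 5)], [4], [(5, 3,
      [0]), (7, 5, [0])]⟩]
  Ta := [((0, 3), 0, 2), ((0, 6), 0, 6), ((1, 4), 0, 4)]
  Tb := [((0, 3, 6), 0, 2, 6), ((2, 4, 5), 1, 4, 3), ((3, 0, 5), 2, 0, 3), ((4, 1, 2), 4, 0, 1),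
    ((4, 1, 7), 4, 0, 5), ((4, 2, 7), 4, 1, 5), ((5, 2, 3), 3, 1, 2), ((5, 2, 6), 3, 1, 6),
    ((5, 2, 7), 3, 1, 5), ((5, 3, 6), 3, 2, 6), ((5, 3, 7), 3, 2, 5), ((5, 6, 7), 3, 6, 5),
    ((6, 0, 5), 6, 0, 3), ((7, 4, 5), 5, 4, 3)]
  Tc := [(0, 1, 3), (0, 1, 5), (0, 3, 5), (1, 0, 2)]
  Td := [((0, 1), (0, 3), 2), ((0, 1), (0, 6), 6), ((0, 1), (1, 4), 4), ((0, 3), (0, 3), 2), ((0,
    3), (0, 6), 6), ((0, 3), (1, 4), 4), ((0, 5), (0, 3), 2), ((0, 5), (0, 6), 6), ((0, 5),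
    (1, 4), 4), ((1, 0), (2, 4), 4), ((1, 0), (2, 5), 3), ((1, 2), (2, 4), 4), ((1, 2), (2,
    5), 3), ((2, 1), (3, 0), 0), ((2, 1), (3, 5), 3), ((3, 0), (5, 2), 1), ((3, 0), (5, 3),
    2), ((3, 0), (5, 6), 6), ((3, 0), (5, 7), 5), ((5, 0), (7, 4), 4), ((5, 0), (7, 5), 3)]
  G := [[0, 0x1111c11111a1682, 0x111e1166418111e11aa818c, 0xff1e21248,
    0x111e3566118111e18a818a], [0, 0x118111441121e84, 0, 0xae4bf21244,
    0xb111a14265f116111c88d82]]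

noncomputable def n2312 : Ent := ⟨e2312, noF, [], [], [(13, 10, [87897818358680202914427564656816548095711637928745414680577, 0]), (14, 9, [81620716623019602097318223589561398452066342659903422750721, 0])]⟩

def c2312 : PLift (Cov.check n2312.C.D v2312 = true) := ⟨by decide +kernel⟩

def b2312 : PLift (entF (fidx ts) 400 2312 n2312 = true) := ⟨by decide +kernel⟩

theorem g2312 : GoodF (fidx ts) 400 2312 := GoodF.ofV v2312 n2312 c2312.down b2312.down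

/-- 4744744:1913/11 -/
noncomputable def e2313 : SCfg where
  D := {
    a := 7
    L := 9
    kp := 7
    inn := [(0, 1), (0, 4), (1, 0), (1, 2), (1, 3), (2, 1), (3, 1), (4, 0), (4, 5), (4, 6), (5, 4), (6,
      4)]
    mix := [(0, 0), (0, 1), (1, 0), (1, 1), (1, 2), (1, 3), (2, 1), (2, 2), (2, 4), (3, 2), (3, 3), (3,
      5), (4, 0), (4, 1), (4, 5), (4, 6), (5, 0), (5, 5), (5, 7), (6, 5), (6, 6), (6, 8)]
    cl := [0, 0, 3, 2, 6, 1, 4, 5, 7]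
    chq := [(0, 1), (0, 3), (1, 0), (1, 4), (3, 0), (4, 1), (4, 5), (5, 4)]
    rng := [(0, 3), (0, 7), (1, 4), (1, 6), (2, 4), (2, 5), (3, 0), (3, 5), (4, 1), (4, 2), (5, 2), (5,
      3), (5, 7), (5, 8), (6, 1), (6, 8), (7, 0), (7, 5), (8, 5), (8, 6)]
    lev := [] }
  links := [[1, 7, 4, 8], [7, 0, 8, 2, 9, 3, 10], [9, 1, 8, 11], [10, 1, 9, 12], [8, 0, 7, 5, 12, 6, 13],
    [12, 4, 7, 14], [13, 4, 12, 15]]
  P := {
    a := 7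
    N := 16
    nb := [402, 1933, 2818, 5634, 12769, 20624, 45072, 17459, 10263, 6158, 4234, 772, 50808, 33104,
      4256, 12352]
    tri := [(0, 1, 7), (0, 1, 8), (0, 4, 7), (0, 4, 8), (1, 2, 8), (1, 2, 9), (1, 3, 9), (1, 3, 10),
      (1, 7, 10), (2, 8, 11), (2, 9, 11), (3, 9, 12), (3, 10, 12), (4, 5, 7), (4, 5, 12), (4, 6,
      12), (4, 6, 13), (4, 8, 13), (5, 7, 14), (5, 12, 14), (6, 12, 15), (6, 13, 15)]
    fin := [0, 0, 0, 0, 4, 4, 6, 0, 0, 9, 10, 11, 6, 13, 4, 15]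
    chd := [(0, 6), (0, 9), (6, 13), (13, 4)]
    steps := [(0, 1), (0, 2), (0, 3), (0, 7), (0, 8), (4, 5), (4, 14), (6, 12)] }
  rep := [0, 6, 10, 9, 13, 4, 11, 15]

noncomputable def v2313 : Cov.CovD where
  P := 3
  N := 5
  pl := [3, 4, 8]
  lev := [⟨[], [], [(0, 0)], [], [(0, 0, [1, 3]), (1, 0, [1, 3])]⟩,
    ⟨[], [(0, 0), (0, 3)], [(0, 0), (0, 3)], [2], [(0, 0, [1, 3]), (1, 0, [1, 3]), (2, 3,
      [0])]⟩,
    ⟨[(0, 1)], [(0, 0), (1, 0), (1, 3)], [(0, 3)], [6], [(1, 0, [1, 3]), (2, 3, [0])]⟩,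
    ⟨[(0, 1), (1, 2)], [(1, 0), (1, 1), (1, 3), (2, 3)], [(1, 3)], [2], [(2, 3, [0]), (5,
      1, [0, 4])]⟩,
    ⟨[(0, 1)], [(0, 0), (0, 1), (0, 4), (1, 0), (2, 0), (3, 1)], [(0, 0), (0, 1), (0, 4),
      (1, 4)], [], [(0, 0, [1, 3]), (1, 0, [1, 3]), (5, 1, [0, 4]), (6, 4, [1, 5])]⟩,
    ⟨[(0, 4)], [(0, 0), (1, 0), (3, 1), (4, 0), (4, 1), (4, 4), (4, 5)], [(0, 1), (0, 5),
      (1, 5)], [], [(0, 0, [1, 3]), (5, 1, [0, 4]), (7, 5, [4])]⟩,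
    ⟨[(0, 4), (4, 5)], [(3, 1), (4, 0), (4, 1), (4, 4), (5, 1)], [(1, 4)], [7], [(5, 1, [0,
      4]), (6, 4, [1, 5])]⟩]
  Ta := [((0, 3), 0, 2), ((0, 7), 0, 5), ((1, 4), 0, 6), ((1, 6), 0, 4)]
  Tb := [((0, 3, 7), 0, 2, 5), ((1, 4, 6), 0, 6, 4), ((2, 4, 5), 3, 6, 1), ((3, 0, 5), 2, 0, 1),
    ((4, 1, 2), 6, 0, 3), ((5, 2, 3), 1, 3, 2), ((5, 2, 7), 1, 3, 5), ((5, 2, 8), 1, 3, 7),
    ((5, 3, 7), 1, 2, 5), ((5, 3, 8), 1, 2, 7), ((5, 7, 8), 1, 5, 7), ((6, 1, 8), 4, 0, 7),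
    ((7, 0, 5), 5, 0, 1), ((8, 5, 6), 7, 1, 4)]
  Tc := [(0, 1, 3), (1, 0, 4), (4, 1, 5)]
  Td := [((0, 1), (0, 3), 2), ((0, 1), (0, 7), 5), ((0, 1), (1, 4), 6), ((0, 1), (1, 6), 4), ((0,
    3), (0, 3), 2), ((0, 3), (0, 7), 5), ((0, 3), (1, 4), 6), ((0, 3), (1, 6), 4), ((1, 0),
    (5, 2), 3), ((1, 0), (5, 3), 2), ((1, 0), (5, 7), 5), ((1, 0), (5, 8), 7), ((1, 4), (5,
    2), 3), ((1, 4), (5, 3), 2), ((1, 4), (5, 7), 5), ((1, 4), (5, 8), 7), ((3, 0), (2, 4),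
    6), ((3, 0), (2, 5), 1), ((4, 1), (6, 1), 0), ((4, 1), (6, 8), 7), ((4, 5), (6, 1), 0),
    ((4, 5), (6, 8), 7), ((5, 4), (7, 0), 0), ((5, 4), (7, 5), 1)]
  G := [[0, 0x1418c811418c41c2, 0x9458c819458c41c2, 0x9458c19458c1a9458c41c2,
    0x1458c1228481229458c819458c14ae], [0, 0x1418c811418c41c2, 0,
    0x9151c19151c1a9151c1d158c46c2, 0x51411151c1629181818162d4d8c19151c1c8e]]

noncomputable def n2313 : Ent := ⟨e2313, noF, [], [], [(14, 10, [385746751338781050996073827118545021217310372558043290365063169, 0]), (15, 9, [360035742630636841345797572106540607504961255222653860053020673, 0]), (13, 11, [385753028441264361139741752476358964596869032748796677878480897, 0])]⟩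

def c2313 : PLift (Cov.check n2313.C.D v2313 = true) := ⟨by decide +kernel⟩

def b2313 : PLift (entF (fidx ts) 400 2313 n2313 = true) := ⟨by decide +kernel⟩

theorem g2313 : GoodF (fidx ts) 400 2313 := GoodF.ofV v2313 n2313 c2313.down b2313.down

/-- 4744744:1913/16 -/
noncomputable def e2314 : SCfg where
  D := {
    a := 7
    L := 8
    kp := 6
    inn := [(0, 1), (0, 4), (1, 0), (1, 2), (1, 3), (2, 1), (3, 1), (4, 0), (4, 5), (4, 6), (5, 4), (6,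
      4)]
    mix := [(0, 0), (0, 1), (1, 0), (1, 1), (1, 2), (1, 3), (2, 1), (2, 2), (2, 4), (3, 2), (3, 3), (3,
      5), (4, 0), (4, 1), (4, 4), (4, 6), (5, 0), (5, 6), (5, 7), (6, 2), (6, 4), (6, 6)]
    cl := [0, 0, 3, 2, 1, 5, 4, 6]
    chq := [(0, 3), (0, 4), (0, 5), (1, 4), (3, 0), (4, 0), (4, 1), (5, 0)]
    rng := [(0, 3), (0, 7), (1, 4), (2, 4), (2, 5), (2, 6), (3, 0), (3, 5), (4, 1), (4, 2), (5, 2), (5,
      3), (6, 2), (6, 7), (7, 0), (7, 6)]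
    lev := [] }
  links := [[1, 7, 4, 8], [7, 0, 8, 2, 9, 3, 10], [9, 1, 8, 11], [10, 1, 9, 12], [8, 0, 7, 5, 13, 6, 11],
    [13, 4, 7, 14], [11, 4, 13, 9]]
  P := {
    a := 7
    N := 15
    nb := [402, 1933, 2818, 5634, 10721, 24720, 10768, 17459, 2071, 14414, 4234, 852, 1544, 17008,
      8352]
    tri := [(0, 1, 7), (0, 1, 8), (0, 4, 7), (0, 4, 8), (1, 2, 8), (1, 2, 9), (1, 3, 9), (1, 3, 10),
      (1, 7, 10), (2, 8, 11), (2, 9, 11), (3, 9, 12), (3, 10, 12), (4, 5, 7), (4, 5, 13), (4, 6,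
      11), (4, 6, 13), (4, 8, 11), (5, 7, 14), (5, 13, 14), (6, 9, 11), (6, 9, 13)]
    fin := [0, 0, 0, 0, 0, 0, 6, 0, 0, 9, 10, 11, 12, 6, 14]
    chd := [(0, 6), (0, 9), (0, 12), (11, 6)]
    steps := [(0, 1), (0, 2), (0, 3), (0, 7), (0, 5), (0, 8), (0, 4), (6, 13)] }
  rep := [0, 11, 10, 9, 6, 12, 14]

noncomputable def v2314 : Cov.CovD where
  P := 3
  N := 4
  pl := [3, 7]
  lev := [⟨[], [], [(0, 0)], [], [(0, 0, [3, 4, 5]), (1, 0, [3, 4, 5])]⟩,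
    ⟨[], [(0, 0), (0, 3)], [(0, 0), (0, 3)], [2], [(0, 0, [3, 4, 5]), (1, 0, [3, 4, 5]),
      (2, 3, [0])]⟩,
    ⟨[(0, 1)], [(0, 0), (1, 0), (1, 1), (1, 3)], [(0, 1), (0, 3), (1, 3)], [], [(1, 0, [3,
      4, 5]), (2, 3, [0]), (4, 1, [4])]⟩,
    ⟨[(0, 1), (1, 2)], [(1, 0), (1, 3), (1, 5), (2, 3)], [(3, 5)], [2], [(2, 3, [0]), (5,
      5, [0])]⟩,
    ⟨[(0, 1)], [(0, 0), (0, 1), (0, 4), (1, 0), (2, 0), (2, 1)], [(0, 0), (0, 1), (0, 4),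
      (1, 4)], [], [(0, 0, [3, 4, 5]), (1, 0, [3, 4, 5]), (4, 1, [4]), (6, 4, [0, 1])]⟩,
    ⟨[(0, 4)], [(0, 0), (1, 0), (4, 0), (4, 1), (4, 4)], [(0, 4)], [6], [(0, 0, [3, 4, 5]),
      (6, 4, [0, 1])]⟩,
    ⟨[(0, 4), (4, 5)], [(1, 3), (2, 1), (2, 3), (3, 3), (4, 0), (4, 1), (4, 3), (4, 4), (5,
      4)], [(1, 3), (1, 4), (3, 4)], [], [(2, 3, [0]), (4, 1, [4]), (6, 4, [0, 1])]⟩]
  Ta := [((0, 3), 0, 2), ((0, 7), 0, 6), ((1, 4), 0, 1)]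
  Tb := [((0, 3, 7), 0, 2, 6), ((2, 4, 5), 3, 1, 5), ((2, 4, 6), 3, 1, 4), ((2, 5, 6), 3, 5, 4),
    ((3, 0, 5), 2, 0, 5), ((4, 1, 2), 1, 0, 3), ((5, 2, 3), 5, 3, 2), ((6, 2, 7), 4, 3, 6),
    ((7, 0, 6), 6, 0, 4)]
  Tc := [(0, 3, 4), (0, 3, 5), (0, 4, 5), (4, 0, 1)]
  Td := [((0, 3), (0, 3), 2), ((0, 3), (0, 7), 6), ((0, 3), (1, 4), 1), ((0, 4), (0, 3), 2), ((0,
    4), (0, 7), 6), ((0, 4), (1, 4), 1), ((0, 5), (0, 3), 2), ((0, 5), (0, 7), 6), ((0, 5),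
    (1, 4), 1), ((1, 4), (4, 1), 0), ((1, 4), (4, 2), 3), ((3, 0), (2, 4), 1), ((3, 0), (2,
    5), 5), ((3, 0), (2, 6), 4), ((4, 0), (6, 2), 3), ((4, 0), (6, 7), 6), ((4, 1), (6, 2),
    3), ((4, 1), (6, 7), 6), ((5, 0), (5, 2), 3), ((5, 0), (5, 3), 2)]
  G := [[0, 0, 0x14421211a12c21218a116c8111a116c41ce, 0x188b116c1811a1447c14c2,
    0x12116c112188142188b1447c188e], [0, 0x4121a1248161a188c, 0, 0x81116c1811a41c14c2,
    0x115443c14281116c188a]]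

noncomputable def n2314 : Ent := ⟨e2314, noF, [], [], [(14, 10, [81620716623384866002924956665996611981654050173009875959809, 0]), (13, 12, [87899350853947037246286378706680507498760953601682110963713, 0])]⟩

def c2314 : PLift (Cov.check n2314.C.D v2314 = true) := ⟨by decide +kernel⟩

def b2314 : PLift (entF (fidx ts) 400 2314 n2314 = true) := ⟨by decide +kernel⟩

theorem g2314 : GoodF (fidx ts) 400 2314 := GoodF.ofV v2314 n2314 c2314.down b2314.down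

/-- 4744744:1913/15 -/
noncomputable def e2315 : SCfg where
  D := {
    a := 7
    L := 9
    kp := 7
    inn := [(0, 1), (0, 4), (1, 0), (1, 2), (1, 3), (2, 1), (3, 1), (4, 0), (4, 5), (4, 6), (5, 4), (6,
      4)]
    mix := [(0, 0), (0, 1), (1, 0), (1, 1), (1, 2), (1, 3), (2, 1), (2, 2), (2, 4), (3, 2), (3, 3), (3,
      5), (4, 0), (4, 1), (4, 6), (4, 7), (5, 0), (5, 6), (5, 8), (6, 2), (6, 6), (6, 7)]
    cl := [0, 0, 1, 2, 6, 5, 3, 4, 7]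
    chq := [(0, 1), (0, 3), (0, 5), (1, 0), (3, 0), (3, 4), (4, 3), (5, 0)]
    rng := [(0, 3), (0, 8), (1, 4), (1, 7), (2, 4), (2, 5), (2, 6), (2, 7), (3, 0), (3, 5), (4, 1), (4,
      2), (5, 2), (5, 3), (6, 2), (6, 8), (7, 1), (7, 2), (8, 0), (8, 6)]
    lev := [] }
  links := [[1, 7, 4, 8], [7, 0, 8, 2, 9, 3, 10], [9, 1, 8, 11], [10, 1, 9, 12], [8, 0, 7, 5, 13, 6, 14],
    [13, 4, 7, 15], [14, 4, 13, 9]]
  P := {
    a := 7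
    N := 16
    nb := [402, 1933, 2818, 5634, 25057, 41104, 25104, 33843, 18455, 30798, 4234, 772, 1544, 33392,
      848, 8352]
    tri := [(0, 1, 7), (0, 1, 8), (0, 4, 7), (0, 4, 8), (1, 2, 8), (1, 2, 9), (1, 3, 9), (1, 3, 10),
      (1, 7, 10), (2, 8, 11), (2, 9, 11), (3, 9, 12), (3, 10, 12), (4, 5, 7), (4, 5, 13), (4, 6,
      13), (4, 6, 14), (4, 8, 14), (5, 7, 15), (5, 13, 15), (6, 9, 13), (6, 9, 14)]
    fin := [0, 0, 0, 0, 0, 0, 6, 0, 0, 9, 10, 11, 12, 6, 14, 15]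
    chd := [(0, 6), (0, 9), (0, 12), (6, 14)]
    steps := [(0, 1), (0, 2), (0, 3), (0, 4), (0, 5), (0, 7), (0, 8), (6, 13)] }
  rep := [0, 9, 10, 6, 14, 12, 11, 15]

noncomputable def v2315 : Cov.CovD where
  P := 3
  N := 5
  pl := [3, 4, 8]
  lev := [⟨[], [], [(0, 0)], [], [(0, 0, [1, 3, 5]), (1, 0, [1, 3, 5])]⟩,
    ⟨[], [(0, 0), (0, 1)], [(0, 0), (0, 1)], [2], [(0, 0, [1, 3, 5]), (1, 0, [1, 3, 5]),
      (2, 1, [0])]⟩,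
    ⟨[(0, 1)], [(0, 0), (1, 0), (1, 1)], [(0, 1)], [6], [(1, 0, [1, 3, 5]), (2, 1, [0])]⟩,
    ⟨[(0, 1), (1, 2)], [(1, 0), (1, 1), (1, 5), (2, 1)], [(1, 5)], [2], [(2, 1, [0]), (5,
      5, [0])]⟩,
    ⟨[(0, 1)], [(0, 0), (0, 3), (0, 4), (1, 0), (2, 0)], [(0, 0), (0, 3), (0, 4), (3, 4)],
      [], [(0, 0, [1, 3, 5]), (1, 0, [1, 3, 5]), (6, 3, [0, 4]), (7, 4, [3])]⟩,
    ⟨[(0, 4)], [(0, 0), (1, 0), (4, 0), (4, 3), (4, 4)], [(0, 3)], [7], [(0, 0, [1, 3, 5]),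
      (6, 3, [0, 4])]⟩,
    ⟨[(0, 4), (4, 5)], [(1, 1), (2, 1), (3, 1), (4, 0), (4, 1), (4, 3), (4, 4), (5, 3)],
      [(1, 3), (1, 4), (3, 4)], [], [(2, 1, [0]), (6, 3, [0, 4]), (7, 4, [3])]⟩]
  Ta := [((0, 3), 0, 2), ((0, 8), 0, 7), ((1, 4), 0, 6), ((1, 7), 0, 4)]
  Tb := [((0, 3, 8), 0, 2, 7), ((1, 4, 7), 0, 6, 4), ((2, 4, 5), 1, 6, 5), ((2, 4, 6), 1, 6, 3),
    ((2, 4, 7), 1, 6, 4), ((2, 5, 6), 1, 5, 3), ((2, 5, 7), 1, 5, 4), ((2, 6, 7), 1, 3, 4),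
    ((3, 0, 5), 2, 0, 5), ((4, 1, 2), 6, 0, 1), ((5, 2, 3), 5, 1, 2), ((6, 2, 8), 3, 1, 7),
    ((7, 1, 2), 4, 0, 1), ((8, 0, 6), 7, 0, 3)]
  Tc := [(0, 1, 3), (0, 1, 5), (0, 3, 5), (3, 0, 4)]
  Td := [((0, 1), (0, 3), 2), ((0, 1), (0, 8), 7), ((0, 1), (1, 4), 6), ((0, 1), (1, 7), 4), ((0,
    3), (0, 3), 2), ((0, 3), (0, 8), 7), ((0, 3), (1, 4), 6), ((0, 3), (1, 7), 4), ((0, 5),
    (0, 3), 2), ((0, 5), (0, 8), 7), ((0, 5), (1, 4), 6), ((0, 5), (1, 7), 4), ((1, 0), (2,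
    4), 6), ((1, 0), (2, 5), 5), ((1, 0), (2, 6), 3), ((1, 0), (2, 7), 4), ((3, 0), (6, 2),
    1), ((3, 0), (6, 8), 7), ((3, 4), (6, 2), 1), ((3, 4), (6, 8), 7), ((4, 3), (7, 1), 0),
    ((4, 3), (7, 2), 1), ((5, 0), (5, 2), 1), ((5, 0), (5, 3), 2)]
  G := [[0, 0x2121848141c11121128141cda86, 0x111e111e6116414e111eec14118e8188c18a,
    0x111e111ea114411e41146, 0x111e111e6118181e8118c], [0, 0x8121a12121a841418141c1c86, 0,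
    0x883149115e1448b41111de1c82, 0x183449115e1185443119e1c82]]

noncomputable def n2315 : Ent := ⟨e2315, noF, [], [], [(15, 10, [360035742630637297931254766822518807307257169425207333496033281, 0]), (13, 12, [385753029973011613167317188540585705112827479461471962600075265, 0]), (14, 11, [385746751339903118878134627833995900247628298846384132574978049, 0])]⟩

def c2315 : PLift (Cov.check n2315.C.D v2315 = true) := ⟨by decide +kernel⟩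

def b2315 : PLift (entF (fidx ts) 400 2315 n2315 = true) := ⟨by decide +kernel⟩

theorem g2315 : GoodF (fidx ts) 400 2315 := GoodF.ofV v2315 n2315 c2315.down b2315.down

/-- 4744744:1913/18 -/
noncomputable def e2316 : SCfg where
  D := {
    a := 7
    L := 8
    kp := 6
    inn := [(0, 1), (0, 4), (1, 0), (1, 2), (1, 3), (2, 1), (3, 1), (4, 0), (4, 5), (4, 6), (5, 4), (6,
      4)]
    mix := [(0, 0), (0, 1), (1, 0), (1, 1), (1, 2), (1, 3), (2, 1), (2, 2), (2, 4), (3, 2), (3, 3), (3,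
      5), (4, 0), (4, 1), (4, 4), (4, 6), (5, 0), (5, 6), (5, 7), (6, 4), (6, 5), (6, 6)]
    cl := [0, 0, 3, 2, 1, 5, 4, 6]
    chq := [(0, 3), (0, 4), (0, 5), (2, 3), (3, 0), (3, 2), (4, 0), (5, 0)]
    rng := [(0, 3), (0, 7), (1, 4), (2, 4), (2, 5), (3, 0), (3, 5), (4, 1), (4, 2), (4, 5), (5, 2), (5,
      3), (5, 4), (5, 6), (6, 5), (6, 7), (7, 0), (7, 6)]
    lev := [] }
  links := [[1, 7, 4, 8], [7, 0, 8, 2, 9, 3, 10], [9, 1, 8, 11], [10, 1, 9, 12], [8, 0, 7, 5, 13, 6, 11],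
    [13, 4, 7, 14], [11, 4, 13, 12]]
  P := {
    a := 7
    N := 15
    nb := [402, 1933, 2818, 5634, 10721, 24720, 14352, 17459, 2071, 6158, 4234, 4948, 11848, 20592,
      8352]
    tri := [(0, 1, 7), (0, 1, 8), (0, 4, 7), (0, 4, 8), (1, 2, 8), (1, 2, 9), (1, 3, 9), (1, 3, 10),
      (1, 7, 10), (2, 8, 11), (2, 9, 11), (3, 9, 12), (3, 10, 12), (4, 5, 7), (4, 5, 13), (4, 6,
      11), (4, 6, 13), (4, 8, 11), (5, 7, 14), (5, 13, 14), (6, 11, 12), (6, 12, 13)]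
    fin := [0, 0, 0, 3, 0, 0, 0, 0, 0, 3, 10, 11, 12, 13, 14]
    chd := [(0, 3), (0, 12), (0, 13), (3, 10)]
    steps := [(0, 1), (0, 2), (0, 7), (0, 5), (0, 8), (0, 4), (0, 6), (3, 9)] }
  rep := [0, 11, 10, 3, 13, 12, 14]

noncomputable def v2316 : Cov.CovD where
  P := 3
  N := 4
  pl := [4, 7]
  lev := [⟨[], [], [(0, 0)], [], [(0, 0, [3, 4, 5]), (1, 0, [3, 4, 5])]⟩,
    ⟨[], [(0, 0), (0, 2), (0, 3)], [(0, 0), (0, 2), (0, 3), (2, 3)], [], [(0, 0, [3, 4,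
      5]), (1, 0, [3, 4, 5]), (2, 3, [0, 2]), (3, 2, [3])]⟩,
    ⟨[(0, 1)], [(0, 0), (1, 0), (1, 2), (1, 3)], [(0, 3)], [1], [(1, 0, [3, 4, 5]), (2, 3,
      [0, 2])]⟩,
    ⟨[(0, 1), (1, 2)], [(1, 0), (1, 2), (1, 3), (1, 5), (2, 3)], [(2, 3), (2, 5), (3, 5)],
      [], [(2, 3, [0, 2]), (3, 2, [3]), (5, 5, [0])]⟩,
    ⟨[(0, 1)], [(0, 0), (0, 4), (1, 0), (2, 0)], [(0, 0), (0, 4)], [1], [(0, 0, [3, 4, 5]),
      (1, 0, [3, 4, 5]), (6, 4, [0])]⟩,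
    ⟨[(0, 4)], [(0, 0), (1, 0), (4, 0), (4, 4)], [(0, 4)], [6], [(0, 0, [3, 4, 5]), (6, 4,
      [0])]⟩,
    ⟨[(0, 4), (4, 5)], [(3, 5), (4, 0), (4, 4), (4, 5), (5, 4)], [(4, 5)], [1], [(5, 5,
      [0]), (6, 4, [0])]⟩]
  Ta := [((0, 3), 0, 2), ((0, 7), 0, 6), ((1, 4), 0, 1)]
  Tb := [((0, 3, 7), 0, 2, 6), ((2, 4, 5), 3, 1, 5), ((3, 0, 5), 2, 0, 5), ((4, 1, 2), 1, 0, 3),
    ((4, 1, 5), 1, 0, 5), ((4, 2, 5), 1, 3, 5), ((5, 2, 3), 5, 3, 2), ((5, 2, 4), 5, 3, 1),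
    ((5, 2, 6), 5, 3, 4), ((5, 3, 4), 5, 2, 1), ((5, 3, 6), 5, 2, 4), ((5, 4, 6), 5, 1, 4),
    ((6, 5, 7), 4, 5, 6), ((7, 0, 6), 6, 0, 4)]
  Tc := [(0, 3, 4), (0, 3, 5), (0, 4, 5), (3, 0, 2)]
  Td := [((0, 3), (0, 3), 2), ((0, 3), (0, 7), 6), ((0, 3), (1, 4), 1), ((0, 4), (0, 3), 2), ((0,
    4), (0, 7), 6), ((0, 4), (1, 4), 1), ((0, 5), (0, 3), 2), ((0, 5), (0, 7), 6), ((0, 5),
    (1, 4), 1), ((2, 3), (3, 0), 0), ((2, 3), (3, 5), 5), ((3, 0), (2, 4), 1), ((3, 0), (2,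
    5), 5), ((3, 2), (2, 4), 1), ((3, 2), (2, 5), 5), ((4, 0), (6, 5), 5), ((4, 0), (6, 7),
    6), ((5, 0), (5, 2), 3), ((5, 0), (5, 3), 2), ((5, 0), (5, 4), 1), ((5, 0), (5, 6), 4)]
  G := [[0, 0, 0x18a116c11a116ca111a146c18a116c61c2, 0x118b1147c18118b1147c14c2,
    0x118b1147c11118b1147c14a2], [0, 0xa161c18a161c14c2, 0, 0x118b51c18911147c14c2,
    0x114118b41c94118b51c14a2]]

noncomputable def n2316 : Ent := ⟨e2316, noF, [], [], [(14, 10, [81620716623384866002924956665996611981654050173009875968001, 0])]⟩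

def c2316 : PLift (Cov.check n2316.C.D v2316 = true) := ⟨by decide +kernel⟩

def b2316 : PLift (entF (fidx ts) 400 2316 n2316 = true) := ⟨by decide +kernel⟩

theorem g2316 : GoodF (fidx ts) 400 2316 := GoodF.ofV v2316 n2316 c2316.down b2316.down

/-- 4744744:1913/17 -/
noncomputable def e2317 : SCfg where
  D := {
    a := 7
    L := 9
    kp := 7
    inn := [(0, 1), (0, 4), (1, 0), (1, 2), (1, 3), (2, 1), (3, 1), (4, 0), (4, 5), (4, 6), (5, 4), (6,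
      4)]
    mix := [(0, 0), (0, 1), (1, 0), (1, 1), (1, 2), (1, 3), (2, 1), (2, 2), (2, 4), (3, 2), (3, 3), (3,
      5), (4, 0), (4, 1), (4, 6), (4, 7), (5, 0), (5, 6), (5, 8), (6, 5), (6, 6), (6, 7)]
    cl := [0, 0, 1, 5, 6, 2, 3, 4, 7]
    chq := [(0, 1), (0, 2), (0, 3), (1, 0), (2, 0), (3, 0), (3, 4), (4, 3)]
    rng := [(0, 3), (0, 8), (1, 4), (1, 7), (2, 4), (2, 5), (3, 0), (3, 5), (4, 1), (4, 2), (5, 2), (5,
      3), (5, 6), (5, 7), (6, 5), (6, 8), (7, 1), (7, 5), (8, 0), (8, 6)]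
    lev := [] }
  links := [[1, 7, 4, 8], [7, 0, 8, 2, 9, 3, 10], [9, 1, 8, 11], [10, 1, 9, 12], [8, 0, 7, 5, 13, 6, 14],
    [13, 4, 7, 15], [14, 4, 13, 12]]
  P := {
    a := 7
    N := 16
    nb := [402, 1933, 2818, 5634, 25057, 41104, 28688, 33843, 18455, 6158, 4234, 772, 26184, 36976,
      4432, 8352]
    tri := [(0, 1, 7), (0, 1, 8), (0, 4, 7), (0, 4, 8), (1, 2, 8), (1, 2, 9), (1, 3, 9), (1, 3, 10),
      (1, 7, 10), (2, 8, 11), (2, 9, 11), (3, 9, 12), (3, 10, 12), (4, 5, 7), (4, 5, 13), (4, 6,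
      13), (4, 6, 14), (4, 8, 14), (5, 7, 15), (5, 13, 15), (6, 12, 13), (6, 12, 14)]
    fin := [0, 0, 0, 0, 0, 0, 6, 0, 0, 9, 10, 11, 12, 6, 14, 15]
    chd := [(0, 6), (0, 9), (0, 12), (6, 14)]
    steps := [(0, 1), (0, 2), (0, 3), (0, 4), (0, 5), (0, 7), (0, 8), (6, 13)] }
  rep := [0, 9, 12, 6, 14, 10, 11, 15]

noncomputable def v2317 : Cov.CovD where
  P := 3
  N := 5
  pl := [3, 4, 8]
  lev := [⟨[], [], [(0, 0)], [], [(0, 0, [1, 2, 3]), (1, 0, [1, 2, 3])]⟩,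
    ⟨[], [(0, 0), (0, 1)], [(0, 0), (0, 1)], [5], [(0, 0, [1, 2, 3]), (1, 0, [1, 2, 3]),
      (2, 1, [0])]⟩,
    ⟨[(0, 1)], [(0, 0), (1, 0), (1, 1)], [(0, 1)], [6], [(1, 0, [1, 2, 3]), (2, 1, [0])]⟩,
    ⟨[(0, 1), (1, 2)], [(1, 0), (1, 1), (1, 2), (2, 1)], [(1, 2)], [5], [(2, 1, [0]), (5,
      2, [0])]⟩,
    ⟨[(0, 1)], [(0, 0), (0, 3), (0, 4), (1, 0), (2, 0)], [(0, 0), (0, 3), (0, 4), (3, 4)],
      [], [(0, 0, [1, 2, 3]), (1, 0, [1, 2, 3]), (6, 3, [0, 4]), (7, 4, [3])]⟩,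
    ⟨[(0, 4)], [(0, 0), (1, 0), (4, 0), (4, 3), (4, 4)], [(0, 3)], [7], [(0, 0, [1, 2, 3]),
      (6, 3, [0, 4])]⟩,
    ⟨[(0, 4), (4, 5)], [(3, 2), (4, 0), (4, 2), (4, 3), (4, 4), (5, 3)], [(2, 3), (2, 4),
      (3, 4)], [], [(5, 2, [0]), (6, 3, [0, 4]), (7, 4, [3])]⟩]
  Ta := [((0, 3), 0, 5), ((0, 8), 0, 7), ((1, 4), 0, 6), ((1, 7), 0, 4)]
  Tb := [((0, 3, 8), 0, 5, 7), ((1, 4, 7), 0, 6, 4), ((2, 4, 5), 1, 6, 2), ((3, 0, 5), 5, 0, 2),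
    ((4, 1, 2), 6, 0, 1), ((5, 2, 3), 2, 1, 5), ((5, 2, 6), 2, 1, 3), ((5, 2, 7), 2, 1, 4),
    ((5, 3, 6), 2, 5, 3), ((5, 3, 7), 2, 5, 4), ((5, 6, 7), 2, 3, 4), ((6, 5, 8), 3, 2, 7),
    ((7, 1, 5), 4, 0, 2), ((8, 0, 6), 7, 0, 3)]
  Tc := [(0, 1, 2), (0, 1, 3), (0, 2, 3), (3, 0, 4)]
  Td := [((0, 1), (0, 3), 5), ((0, 1), (0, 8), 7), ((0, 1), (1, 4), 6), ((0, 1), (1, 7), 4), ((0,
    2), (0, 3), 5), ((0, 2), (0, 8), 7), ((0, 2), (1, 4), 6), ((0, 2), (1, 7), 4), ((0, 3),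
    (0, 3), 5), ((0, 3), (0, 8), 7), ((0, 3), (1, 4), 6), ((0, 3), (1, 7), 4), ((1, 0), (2,
    4), 6), ((1, 0), (2, 5), 2), ((2, 0), (5, 2), 1), ((2, 0), (5, 3), 5), ((2, 0), (5, 6),
    3), ((2, 0), (5, 7), 4), ((3, 0), (6, 5), 2), ((3, 0), (6, 8), 7), ((3, 4), (6, 5), 2),
    ((3, 4), (6, 8), 7), ((4, 3), (7, 1), 0), ((4, 3), (7, 5), 2)]
  G := [[0, 0x1121411212811111e11111c1ae4, 0x811111e811128141c51c2, 0x111e211111e241c8,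
    0x121e2221e2914188e111ec81181e111ec11c6], [0, 0x11284112181111c1111111e1ae4,
    0x111111e81811111e41c2, 0x11dd211cdd21c82915da411dd21cc2,
    0x3397419b3e48c885133119e1183823b119e1cc2]]

noncomputable def n2317 : Ent := ⟨e2317, noF, [], [], [(15, 10, [360035742630637297931254766822518807307257169425207333496041473, 0]), (14, 11, [385746751339903118878134627833995900247628298846384132574986241, 0])]⟩

def c2317 : PLift (Cov.check n2317.C.D v2317 = true) := ⟨by decide +kernel⟩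

def b2317 : PLift (entF (fidx ts) 400 2317 n2317 = true) := ⟨by decide +kernel⟩

theorem g2317 : GoodF (fidx ts) 400 2317 := GoodF.ofV v2317 n2317 c2317.down b2317.down

/-- 4744744:1913/19 -/
noncomputable def e2318 : SCfg where
  D := {
    a := 7
    L := 9
    kp := 7
    inn := [(0, 1), (0, 4), (1, 0), (1, 2), (1, 3), (2, 1), (3, 1), (4, 0), (4, 5), (4, 6), (5, 4), (6,
      4)]
    mix := [(0, 0), (0, 1), (1, 0), (1, 1), (1, 2), (1, 3), (2, 1), (2, 2), (2, 4), (3, 2), (3, 3), (3,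
      5), (4, 0), (4, 1), (4, 4), (4, 6), (5, 0), (5, 6), (5, 7), (6, 4), (6, 6), (6, 8)]
    cl := [0, 0, 3, 2, 1, 5, 4, 7, 6]
    chq := [(0, 3), (0, 4), (0, 5), (0, 6), (3, 0), (4, 0), (5, 0), (6, 0)]
    rng := [(0, 3), (0, 7), (1, 4), (2, 4), (2, 5), (3, 0), (3, 5), (4, 1), (4, 2), (4, 8), (5, 2), (5,
      3), (6, 7), (6, 8), (7, 0), (7, 6), (8, 4), (8, 6)]
    lev := [] }
  links := [[1, 7, 4, 8], [7, 0, 8, 2, 9, 3, 10], [9, 1, 8, 11], [10, 1, 9, 12], [8, 0, 7, 5, 13, 6, 11],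
    [13, 4, 7, 14], [11, 4, 13, 15]]
  P := {
    a := 7
    N := 16
    nb := [402, 1933, 2818, 5634, 10721, 24720, 43024, 17459, 2071, 6158, 4234, 33620, 1544, 49264,
      8352, 10304]
    tri := [(0, 1, 7), (0, 1, 8), (0, 4, 7), (0, 4, 8), (1, 2, 8), (1, 2, 9), (1, 3, 9), (1, 3, 10),
      (1, 7, 10), (2, 8, 11), (2, 9, 11), (3, 9, 12), (3, 10, 12), (4, 5, 7), (4, 5, 13), (4, 6,
      11), (4, 6, 13), (4, 8, 11), (5, 7, 14), (5, 13, 14), (6, 11, 15), (6, 13, 15)]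
    fin := [0, 0, 0, 0, 0, 0, 0, 0, 0, 9, 10, 11, 12, 13, 14, 15]
    chd := [(0, 9), (0, 12), (0, 13), (0, 15)]
    steps := [(0, 1), (0, 2), (0, 3), (0, 7), (0, 5), (0, 8), (0, 4), (0, 6)] }
  rep := [0, 11, 10, 9, 13, 12, 15, 14]

noncomputable def v2318 : Cov.CovD where
  P := 3
  N := 5
  pl := [3, 4, 7]
  lev := [⟨[], [], [(0, 0)], [], [(0, 0, [3, 4, 5, 6]), (1, 0, [3, 4, 5, 6])]⟩,
    ⟨[], [(0, 0), (0, 3)], [(0, 0), (0, 3)], [2], [(0, 0, [3, 4, 5, 6]), (1, 0, [3, 4, 5,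
      6]), (2, 3, [0])]⟩,
    ⟨[(0, 1)], [(0, 0), (1, 0), (1, 3)], [(0, 3)], [1], [(1, 0, [3, 4, 5, 6]), (2, 3,
      [0])]⟩,
    ⟨[(0, 1), (1, 2)], [(1, 0), (1, 3), (1, 5), (2, 3)], [(3, 5)], [2], [(2, 3, [0]), (5,
      5, [0])]⟩,
    ⟨[(0, 1)], [(0, 0), (0, 4), (1, 0), (2, 0)], [(0, 0), (0, 4)], [1], [(0, 0, [3, 4, 5,
      6]), (1, 0, [3, 4, 5, 6]), (6, 4, [0])]⟩,
    ⟨[(0, 4)], [(0, 0), (1, 0), (4, 0), (4, 4)], [(0, 4)], [7], [(0, 0, [3, 4, 5, 6]), (6,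
      4, [0])]⟩,
    ⟨[(0, 4), (4, 5)], [(4, 0), (4, 4), (4, 6), (5, 4)], [(4, 6)], [1], [(6, 4, [0]), (8,
      6, [0])]⟩]
  Ta := [((0, 3), 0, 2), ((0, 7), 0, 7), ((1, 4), 0, 1)]
  Tb := [((0, 3, 7), 0, 2, 7), ((2, 4, 5), 3, 1, 5), ((3, 0, 5), 2, 0, 5), ((4, 1, 2), 1, 0, 3),
    ((4, 1, 8), 1, 0, 6), ((4, 2, 8), 1, 3, 6), ((5, 2, 3), 5, 3, 2), ((6, 7, 8), 4, 7, 6),
    ((7, 0, 6), 7, 0, 4), ((8, 4, 6), 6, 1, 4)]
  Tc := [(0, 3, 4), (0, 3, 5), (0, 3, 6), (0, 4, 5), (0, 4, 6), (0, 5, 6)]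
  Td := [((0, 3), (0, 3), 2), ((0, 3), (0, 7), 7), ((0, 3), (1, 4), 1), ((0, 4), (0, 3), 2), ((0,
    4), (0, 7), 7), ((0, 4), (1, 4), 1), ((0, 5), (0, 3), 2), ((0, 5), (0, 7), 7), ((0, 5),
    (1, 4), 1), ((0, 6), (0, 3), 2), ((0, 6), (0, 7), 7), ((0, 6), (1, 4), 1), ((3, 0), (2,
    4), 1), ((3, 0), (2, 5), 5), ((4, 0), (6, 7), 7), ((4, 0), (6, 8), 6), ((5, 0), (5, 2),
    3), ((5, 0), (5, 3), 2), ((6, 0), (8, 4), 1), ((6, 0), (8, 6), 4)]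
  G := [[0, 0, 0x116421211a821211a116c8111a116c41ce, 0x11a116c1811a116c14c2,
    0x11a116c1811a116c11a2], [0, 0xa161c18a161c14c2, 0, 0x11a11c1811116c14c2,
    0x11a11c1811a11c14a4]]

noncomputable def n2318 : Ent := ⟨e2318, noF, [], [], [(14, 10, [385746751338781050996073827118545021217310372558043290365083649, 0]), (13, 12, [385753029973011613167317188540585705112827479461471962600079361, 0]), (15, 9, [360035742630636841345797572106540607504961255222653860053032961, 0]), (15, 12, [360035747228123463809659675990397950106674496442981057567965185, 0])]⟩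

def c2318 : PLift (Cov.check n2318.C.D v2318 = true) := ⟨by decide +kernel⟩

def b2318 : PLift (entF (fidx ts) 400 2318 n2318 = true) := ⟨by decide +kernel⟩

theorem g2318 : GoodF (fidx ts) 400 2318 := GoodF.ofV v2318 n2318 c2318.down b2318.down

/-- 4744744:1913 -/
noncomputable def e2319 : SCfg where
  D := {
    a := 7
    L := 10
    kp := 8
    inn := [(0, 1), (0, 4), (1, 0), (1, 2), (1, 3), (2, 1), (3, 1), (4, 0), (4, 5), (4, 6), (5, 4), (6,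
      4)]
    mix := [(0, 0), (0, 1), (1, 0), (1, 1), (1, 2), (1, 3), (2, 1), (2, 2), (2, 4), (3, 2), (3, 3), (3,
      5), (4, 0), (4, 1), (4, 6), (4, 7), (5, 0), (5, 6), (5, 8), (6, 6), (6, 7), (6, 9)]
    cl := [0, 0, 1, 2, 7, 5, 3, 4, 8, 6]
    chq := [(0, 1), (0, 3), (0, 5), (0, 6), (1, 0), (3, 0), (5, 0), (6, 0)]
    rng := [(0, 3), (0, 8), (1, 4), (1, 7), (2, 4), (2, 5), (3, 0), (3, 5), (4, 1), (4, 2), (5, 2), (5,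
      3), (6, 8), (6, 9), (7, 1), (7, 9), (8, 0), (8, 6), (9, 6), (9, 7)]
    lev := [] }
  links := [[1, 7, 4, 8], [7, 0, 8, 2, 9, 3, 10], [9, 1, 8, 11], [10, 1, 9, 12], [8, 0, 7, 5, 13, 6, 14],
    [13, 4, 7, 15], [14, 4, 13, 16]]
  P := {
    a := 7
    N := 17
    nb := [402, 1933, 2818, 5634, 25057, 41104, 90128, 33843, 18455, 6158, 4234, 772, 1544, 98416,
      65872, 8352, 24640]
    tri := [(0, 1, 7), (0, 1, 8), (0, 4, 7), (0, 4, 8), (1, 2, 8), (1, 2, 9), (1, 3, 9), (1, 3, 10),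
      (1, 7, 10), (2, 8, 11), (2, 9, 11), (3, 9, 12), (3, 10, 12), (4, 5, 7), (4, 5, 13), (4, 6,
      13), (4, 6, 14), (4, 8, 14), (5, 7, 15), (5, 13, 15), (6, 13, 16), (6, 14, 16)]
    fin := [0, 0, 0, 0, 0, 0, 0, 0, 0, 9, 10, 11, 12, 13, 14, 15, 16]
    chd := [(0, 9), (0, 12), (0, 13), (0, 16)]
    steps := [(0, 1), (0, 2), (0, 3), (0, 4), (0, 5), (0, 6), (0, 7), (0, 8)] }
  rep := [0, 9, 10, 13, 14, 12, 16, 11, 15]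

noncomputable def v2319 : Cov.CovD where
  P := 3
  N := 6
  pl := [3, 4, 7, 8]
  lev := [⟨[], [], [(0, 0)], [], [(0, 0, [1, 3, 5, 6]), (1, 0, [1, 3, 5, 6])]⟩,
    ⟨[], [(0, 0), (0, 1)], [(0, 0), (0, 1)], [2], [(0, 0, [1, 3, 5, 6]), (1, 0, [1, 3, 5,
      6]), (2, 1, [0])]⟩,
    ⟨[(0, 1)], [(0, 0), (1, 0), (1, 1)], [(0, 1)], [7], [(1, 0, [1, 3, 5, 6]), (2, 1,
      [0])]⟩,
    ⟨[(0, 1), (1, 2)], [(1, 0), (1, 1), (1, 5), (2, 1)], [(1, 5)], [2], [(2, 1, [0]), (5,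
      5, [0])]⟩,
    ⟨[(0, 1)], [(0, 0), (0, 3), (1, 0), (2, 0)], [(0, 0), (0, 3)], [4], [(0, 0, [1, 3, 5,
      6]), (1, 0, [1, 3, 5, 6]), (6, 3, [0])]⟩,
    ⟨[(0, 4)], [(0, 0), (1, 0), (4, 0), (4, 3)], [(0, 3)], [8], [(0, 0, [1, 3, 5, 6]), (6,
      3, [0])]⟩,
    ⟨[(0, 4), (4, 5)], [(4, 0), (4, 3), (4, 6), (5, 3)], [(3, 6)], [4], [(6, 3, [0]), (9,
      6, [0])]⟩]
  Ta := [((0, 3), 0, 2), ((0, 8), 0, 8), ((1, 4), 0, 7), ((1, 7), 0, 4)]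
  Tb := [((0, 3, 8), 0, 2, 8), ((1, 4, 7), 0, 7, 4), ((2, 4, 5), 1, 7, 5), ((3, 0, 5), 2, 0, 5),
    ((4, 1, 2), 7, 0, 1), ((5, 2, 3), 5, 1, 2), ((6, 8, 9), 3, 8, 6), ((7, 1, 9), 4, 0, 6),
    ((8, 0, 6), 8, 0, 3), ((9, 6, 7), 6, 3, 4)]
  Tc := [(0, 1, 3), (0, 1, 5), (0, 1, 6), (0, 3, 5), (0, 3, 6), (0, 5, 6)]
  Td := [((0, 1), (0, 3), 2), ((0, 1), (0, 8), 8), ((0, 1), (1, 4), 7), ((0, 1), (1, 7), 4), ((0,
    3), (0, 3), 2), ((0, 3), (0, 8), 8), ((0, 3), (1, 4), 7), ((0, 3), (1, 7), 4), ((0, 5),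
    (0, 3), 2), ((0, 5), (0, 8), 8), ((0, 5), (1, 4), 7), ((0, 5), (1, 7), 4), ((0, 6), (0,
    3), 2), ((0, 6), (0, 8), 8), ((0, 6), (1, 4), 7), ((0, 6), (1, 7), 4), ((1, 0), (2, 4),
    7), ((1, 0), (2, 5), 5), ((3, 0), (6, 8), 8), ((3, 0), (6, 9), 6), ((5, 0), (5, 2), 1),
    ((5, 0), (5, 3), 2), ((6, 0), (9, 6), 3), ((6, 0), (9, 7), 4)]
  G := [[0, 0x111111e1111111e1648, 0x111e111e6116111e111eec14111e8188c14a,
    0x111e4118111e111ea114c, 0x111e111e6118111e8118c], [0, 0x111111e1111111e1a84, 0,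
    0x11bb117711e11b9173115e1c82, 0x11dd115537e11d9113175e1c84]]

noncomputable def n2319 : Ent := ⟨e2319, noF, [], [], [(15, 10, [1685356702439545624464619697705549435909628783578210987402488467457, 0]), (13, 12, [1685382419726887998779855760127267502807434353888247252031592501249, 0]), (16, 9, [1580044410770988437310138513572361556014072927981731971036240457729, 0]), (16, 12, [1580044410777118419473445963789405229760683414688298388994433011713, 0]), (14, 11, [1685382413448254890285566577566560913002569154707632164201567412225, 0])]⟩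

def c2319 : PLift (Cov.check n2319.C.D v2319 = true) := ⟨by decide +kernel⟩

def b2319 : PLift (entF (fidx ts) 400 2319 n2319 = true) := ⟨by decide +kernel⟩

theorem g2319 : GoodF (fidx ts) 400 2319 := GoodF.ofV v2319 n2319 c2319.down b2319.down

/-- 4744744:1914/3 -/
noncomputable def e2320 : SCfg where
  D := {
    a := 7
    L := 7
    kp := 4
    inn := [(0, 1), (0, 4), (1, 0), (1, 2), (1, 3), (2, 1), (3, 1), (4, 0), (4, 5), (4, 6), (5, 4), (6,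
      4)]
    mix := [(0, 0), (0, 1), (1, 0), (1, 1), (1, 2), (1, 3), (2, 1), (2, 2), (2, 4), (3, 2), (3, 3), (3,
      5), (4, 0), (4, 1), (4, 5), (4, 6), (5, 0), (5, 3), (5, 5), (6, 1), (6, 4), (6, 6)]
    cl := [1, 0, 3, 0, 4, 2, 1]
    chq := [(0, 3), (3, 0)]
    rng := [(0, 3), (1, 4), (2, 4), (2, 5), (3, 0), (3, 5), (4, 1), (4, 2), (4, 6), (5, 2), (5, 3), (5,
      6), (6, 4), (6, 5)]
    lev := [] }
  links := [[1, 7, 4, 8], [7, 0, 8, 2, 9, 3, 10], [9, 1, 8, 11], [10, 1, 9, 12], [8, 0, 7, 5, 12, 13, 6],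
    [12, 4, 7, 10], [8, 4, 13, 11]]
  P := {
    a := 7
    N := 14
    nb := [402, 1933, 2818, 5634, 12769, 5264, 10512, 1075, 2135, 6158, 4266, 9028, 9784, 6224]
    tri := [(0, 1, 7), (0, 1, 8), (0, 4, 7), (0, 4, 8), (1, 2, 8), (1, 2, 9), (1, 3, 9), (1, 3, 10),
      (1, 7, 10), (2, 8, 11), (2, 9, 11), (3, 9, 12), (3, 10, 12), (4, 5, 7), (4, 5, 12), (4, 6,
      8), (4, 6, 13), (4, 12, 13), (5, 7, 10), (5, 10, 12), (6, 8, 11), (6, 11, 13)]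
    fin := [0, 1, 1, 1, 0, 0, 0, 0, 1, 9, 1, 11, 12, 0]
    chd := [(1, 9)]
    steps := [(0, 4), (0, 5), (0, 6), (0, 7), (0, 13), (1, 2), (1, 3), (1, 10), (1, 8)] }
  rep := [1, 0, 12, 9, 11]

noncomputable def v2320 : Cov.CovD where
  P := 3
  N := 2
  pl := [4, 5]
  lev := [⟨[], [], [(0, 1)], [], [(0, 1, []), (1, 0, [3])]⟩,
    ⟨[], [(0, 0), (0, 1), (0, 3)], [(0, 0), (0, 1), (0, 3), (1, 3)], [], [(0, 1, []), (1,
      0, [3]), (2, 3, [0]), (3, 0, [3])]⟩,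
    ⟨[(0, 1)], [(0, 0), (1, 0), (1, 1), (1, 3)], [(0, 3)], [4], [(1, 0, [3]), (2, 3, [0])]⟩,
    ⟨[(0, 1), (1, 2)], [(1, 0), (1, 1), (1, 3), (2, 3)], [(0, 3)], [2], [(2, 3, [0]), (3,
      0, [3])]⟩,
    ⟨[(0, 1)], [(0, 0), (0, 1), (1, 0), (1, 1), (2, 0)], [(0, 1), (1, 1)], [2], [(0, 1,
      []), (1, 0, [3]), (6, 1, [])]⟩,
    ⟨[(0, 4)], [(0, 1), (1, 0), (1, 1), (3, 0), (4, 0), (4, 1)], [(0, 1)], [2], [(0, 1,
      []), (3, 0, [3])]⟩,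
    ⟨[(0, 4), (4, 5)], [(0, 0), (1, 0), (2, 0), (4, 0), (4, 1)], [(0, 1)], [4], [(1, 0,
      [3]), (6, 1, [])]⟩]
  Ta := [((0, 3), 1, 0), ((1, 4), 0, 4), ((3, 0), 0, 1), ((3, 5), 0, 2), ((6, 4), 1, 4), ((6, 5),
    1, 2)]
  Tb := [((2, 4, 5), 3, 4, 2), ((3, 0, 5), 0, 1, 2), ((4, 1, 2), 4, 0, 3), ((4, 1, 6), 4, 0, 1),
    ((4, 2, 6), 4, 3, 1), ((5, 2, 3), 2, 3, 0), ((5, 2, 6), 2, 3, 1), ((5, 3, 6), 2, 0, 1),
    ((6, 4, 5), 1, 4, 2)]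
  Tc := []
  Td := [((0, 3), (1, 4), 4), ((0, 3), (3, 0), 1), ((0, 3), (3, 5), 2), ((3, 0), (2, 4), 4), ((3,
    0), (2, 5), 2)]
  G := [[0, 0, 0, 0, 0x28814888681882881ac4], [0, 0, 0, 0xc8482c4812c2,
    0x81824882a818848818182ec2], [0, 0x68841a488162, 0x2488114822c4, 0, 0x2888118822c4], [0,
    0, 0xc8481c4841c2, 0x1848218442c2, 0x48881881818824882bc2]]

noncomputable def n2320 : Ent := ⟨e2320, noF, [], [], []⟩

def c2320 : PLift (Cov.check n2320.C.D v2320 = true) := ⟨by decide +kernel⟩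

def b2320 : PLift (entF (fidx ts) 400 2320 n2320 = true) := ⟨by decide +kernel⟩

theorem g2320 : GoodF (fidx ts) 400 2320 := GoodF.ofV v2320 n2320 c2320.down b2320.down

/-- 4744744:1914/2 -/
noncomputable def e2321 : SCfg where
  D := {
    a := 7
    L := 8
    kp := 5
    inn := [(0, 1), (0, 4), (1, 0), (1, 2), (1, 3), (2, 1), (3, 1), (4, 0), (4, 5), (4, 6), (5, 4), (6,
      4)]
    mix := [(0, 0), (0, 1), (1, 0), (1, 1), (1, 2), (1, 3), (2, 1), (2, 2), (2, 4), (3, 2), (3, 3), (3,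
      5), (4, 0), (4, 1), (4, 5), (4, 6), (5, 0), (5, 3), (5, 5), (6, 1), (6, 6), (6, 7)]
    cl := [1, 0, 3, 0, 4, 2, 1, 5]
    chq := [(0, 3), (3, 0)]
    rng := [(0, 3), (1, 4), (1, 7), (2, 4), (2, 5), (3, 0), (3, 5), (4, 1), (4, 2), (5, 2), (5, 3), (5,
      6), (6, 5), (6, 7), (7, 1), (7, 6)]
    lev := [] }
  links := [[1, 7, 4, 8], [7, 0, 8, 2, 9, 3, 10], [9, 1, 8, 11], [10, 1, 9, 12], [8, 0, 7, 5, 12, 13, 6],
    [12, 4, 7, 10], [8, 4, 13, 14]]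
  P := {
    a := 7
    N := 15
    nb := [402, 1933, 2818, 5634, 12769, 5264, 24848, 1075, 18519, 6158, 4266, 772, 9784, 20560, 8512]
    tri := [(0, 1, 7), (0, 1, 8), (0, 4, 7), (0, 4, 8), (1, 2, 8), (1, 2, 9), (1, 3, 9), (1, 3, 10),
      (1, 7, 10), (2, 8, 11), (2, 9, 11), (3, 9, 12), (3, 10, 12), (4, 5, 7), (4, 5, 12), (4, 6,
      8), (4, 6, 13), (4, 12, 13), (5, 7, 10), (5, 10, 12), (6, 8, 14), (6, 13, 14)]
    fin := [0, 1, 1, 1, 0, 0, 0, 0, 1, 9, 1, 11, 12, 0, 14]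
    chd := [(1, 9)]
    steps := [(0, 4), (0, 5), (0, 6), (0, 7), (0, 13), (1, 2), (1, 3), (1, 10), (1, 8)] }
  rep := [1, 0, 12, 9, 11, 14]

noncomputable def v2321 : Cov.CovD where
  P := 3
  N := 3
  pl := [4, 5, 7]
  lev := [⟨[], [], [(0, 1)], [], [(0, 1, []), (1, 0, [3])]⟩,
    ⟨[], [(0, 0), (0, 1), (0, 3)], [(0, 0), (0, 1), (0, 3), (1, 3)], [], [(0, 1, []), (1,
      0, [3]), (2, 3, [0]), (3, 0, [3])]⟩,
    ⟨[(0, 1)], [(0, 0), (1, 0), (1, 1), (1, 3)], [(0, 3)], [4], [(1, 0, [3]), (2, 3, [0])]⟩,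
    ⟨[(0, 1), (1, 2)], [(1, 0), (1, 1), (1, 3), (2, 3)], [(0, 3)], [2], [(2, 3, [0]), (3,
      0, [3])]⟩,
    ⟨[(0, 1)], [(0, 0), (0, 1), (1, 0), (1, 1), (2, 0)], [(0, 1), (1, 1)], [2], [(0, 1,
      []), (1, 0, [3]), (6, 1, [])]⟩,
    ⟨[(0, 4)], [(0, 1), (1, 0), (1, 1), (3, 0), (4, 0), (4, 1)], [(0, 1)], [2], [(0, 1,
      []), (3, 0, [3])]⟩,
    ⟨[(0, 4), (4, 5)], [(0, 0), (1, 0), (2, 0), (4, 0), (4, 1)], [(0, 1)], [5], [(1, 0,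
      [3]), (6, 1, [])]⟩]
  Ta := [((0, 3), 1, 0), ((1, 4), 0, 4), ((1, 7), 0, 5), ((3, 0), 0, 1), ((3, 5), 0, 2), ((6, 5),
    1, 2), ((6, 7), 1, 5)]
  Tb := [((1, 4, 7), 0, 4, 5), ((2, 4, 5), 3, 4, 2), ((3, 0, 5), 0, 1, 2), ((4, 1, 2), 4, 0, 3),
    ((5, 2, 3), 2, 3, 0), ((5, 2, 6), 2, 3, 1), ((5, 3, 6), 2, 0, 1), ((6, 5, 7), 1, 2, 5),
    ((7, 1, 6), 5, 0, 1)]
  Tc := []
  Td := [((0, 3), (1, 4), 4), ((0, 3), (1, 7), 5), ((0, 3), (3, 0), 1), ((0, 3), (3, 5), 2), ((3,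
    0), (2, 4), 4), ((3, 0), (2, 5), 2)]
  G := [[0, 0, 0, 0, 0x218218a21826428812182a8c], [0, 0, 0, 0x489882c4812c488c484ce4,
    0x18848a83c182ac2822c818818488b446], [0, 0x6848168841c2, 0x2842124841c8, 0,
    0x28881828822882645], [0, 0, 0x4882c81c2821c4, 0x14881844c21848218442c6,
    0xc288112822c1882446]]

noncomputable def n2321 : Ent := ⟨e2321, noF, [], [], [(14, 11, [81620717745452748063725672116875642299580338513852085895169, 0])]⟩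

def c2321 : PLift (Cov.check n2321.C.D v2321 = true) := ⟨by decide +kernel⟩

def b2321 : PLift (entF (fidx ts) 400 2321 n2321 = true) := ⟨by decide +kernel⟩

theorem g2321 : GoodF (fidx ts) 400 2321 := GoodF.ofV v2321 n2321 c2321.down b2321.down

/-- 4744744:1914/4 -/
noncomputable def e2322 : SCfg where
  D := {
    a := 7
    L := 8
    kp := 5
    inn := [(0, 1), (0, 4), (1, 0), (1, 2), (1, 3), (2, 1), (3, 1), (4, 0), (4, 5), (4, 6), (5, 4), (6,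
      4)]
    mix := [(0, 0), (0, 1), (1, 0), (1, 1), (1, 2), (1, 3), (2, 1), (2, 2), (2, 4), (3, 2), (3, 3), (3,
      5), (4, 0), (4, 1), (4, 6), (4, 7), (5, 0), (5, 3), (5, 6), (6, 1), (6, 4), (6, 7)]
    cl := [1, 0, 3, 0, 4, 5, 2, 1]
    chq := [(0, 3), (3, 0)]
    rng := [(0, 3), (1, 4), (2, 4), (2, 5), (3, 0), (3, 5), (3, 6), (4, 1), (4, 2), (4, 7), (5, 2), (5,
      3), (6, 3), (6, 7), (7, 4), (7, 6)]
    lev := [] }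
  links := [[1, 7, 4, 8], [7, 0, 8, 2, 9, 3, 10], [9, 1, 8, 11], [10, 1, 9, 12], [8, 0, 7, 5, 13, 14, 6],
    [13, 4, 7, 10], [8, 4, 14, 11]]
  P := {
    a := 7
    N := 15
    nb := [402, 1933, 2818, 5634, 25057, 9360, 18704, 1075, 2135, 6158, 12458, 17220, 1544, 17456,
      10320]
    tri := [(0, 1, 7), (0, 1, 8), (0, 4, 7), (0, 4, 8), (1, 2, 8), (1, 2, 9), (1, 3, 9), (1, 3, 10),
      (1, 7, 10), (2, 8, 11), (2, 9, 11), (3, 9, 12), (3, 10, 12), (4, 5, 7), (4, 5, 13), (4, 6,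
      8), (4, 6, 14), (4, 13, 14), (5, 7, 10), (5, 10, 13), (6, 8, 11), (6, 11, 14)]
    fin := [0, 1, 1, 1, 0, 0, 0, 0, 1, 9, 1, 11, 12, 13, 0]
    chd := [(1, 9)]
    steps := [(0, 4), (0, 5), (0, 6), (0, 7), (0, 14), (1, 2), (1, 3), (1, 10), (1, 8)] }
  rep := [1, 0, 13, 9, 11, 12]

noncomputable def v2322 : Cov.CovD where
  P := 3
  N := 3
  pl := [4, 5, 6]
  lev := [⟨[], [], [(0, 1)], [], [(0, 1, []), (1, 0, [3])]⟩,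
    ⟨[], [(0, 0), (0, 1), (0, 3)], [(0, 0), (0, 1), (0, 3), (1, 3)], [], [(0, 1, []), (1,
      0, [3]), (2, 3, [0]), (3, 0, [3])]⟩,
    ⟨[(0, 1)], [(0, 0), (1, 0), (1, 1), (1, 3)], [(0, 3)], [4], [(1, 0, [3]), (2, 3, [0])]⟩,
    ⟨[(0, 1), (1, 2)], [(1, 0), (1, 1), (1, 3), (2, 3)], [(0, 3)], [5], [(2, 3, [0]), (3,
      0, [3])]⟩,
    ⟨[(0, 1)], [(0, 0), (0, 1), (1, 0), (1, 1), (2, 0)], [(0, 1), (1, 1)], [2], [(0, 1,
      []), (1, 0, [3]), (7, 1, [])]⟩,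
    ⟨[(0, 4)], [(0, 1), (1, 0), (1, 1), (3, 0), (4, 0), (4, 1)], [(0, 1)], [2], [(0, 1,
      []), (3, 0, [3])]⟩,
    ⟨[(0, 4), (4, 5)], [(0, 0), (1, 0), (2, 0), (4, 0), (4, 1)], [(0, 1)], [4], [(1, 0,
      [3]), (7, 1, [])]⟩]
  Ta := [((0, 3), 1, 0), ((1, 4), 0, 4), ((3, 0), 0, 1), ((3, 5), 0, 5), ((3, 6), 0, 2), ((7, 4),
    1, 4), ((7, 6), 1, 2)]
  Tb := [((2, 4, 5), 3, 4, 5), ((3, 0, 5), 0, 1, 5), ((3, 0, 6), 0, 1, 2), ((3, 5, 6), 0, 5, 2),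
    ((4, 1, 2), 4, 0, 3), ((4, 1, 7), 4, 0, 1), ((4, 2, 7), 4, 3, 1), ((5, 2, 3), 5, 3, 0),
    ((6, 3, 7), 2, 0, 1), ((7, 4, 6), 1, 4, 2)]
  Tc := []
  Td := [((0, 3), (1, 4), 4), ((0, 3), (3, 0), 1), ((0, 3), (3, 5), 5), ((0, 3), (3, 6), 2), ((3,
    0), (2, 4), 4), ((3, 0), (2, 5), 5)]
  G := [[0, 0, 0, 0, 0x288148812882889e28828832c4], [0, 0, 0, 0x84814881a4481184848c18e6c2,
    0x8188283c18428aa82812c4184889446], [0, 0x64841684216648818a, 0x248284614288284a18c, 0,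
    0x288288288e182882886245], [0, 0, 0xc84c48a1c84c8461c2, 0x1842c84c48c318414862c2,
    0x1881886c28428a9818818864884886346]]

noncomputable def n2322 : Ent := ⟨e2322, noF, [], [], [(13, 12, [87899350853947037246286378706680507498760953601682111004673, 0])]⟩

def c2322 : PLift (Cov.check n2322.C.D v2322 = true) := ⟨by decide +kernel⟩

def b2322 : PLift (entF (fidx ts) 400 2322 n2322 = true) := ⟨by decide +kernel⟩

theorem g2322 : GoodF (fidx ts) 400 2322 := GoodF.ofV v2322 n2322 c2322.down b2322.down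

/-- 4744744:1914/1 -/
noncomputable def e2323 : SCfg where
  D := {
    a := 7
    L := 9
    kp := 7
    inn := [(0, 1), (0, 4), (1, 0), (1, 2), (1, 3), (2, 1), (3, 1), (4, 0), (4, 5), (4, 6), (5, 4), (6,
      4)]
    mix := [(0, 0), (0, 1), (1, 0), (1, 1), (1, 2), (1, 3), (2, 1), (2, 2), (2, 4), (3, 2), (3, 3), (3,
      5), (4, 0), (4, 1), (4, 6), (4, 7), (5, 0), (5, 3), (5, 6), (6, 1), (6, 7), (6, 8)]
    cl := [0, 0, 3, 1, 6, 5, 2, 4, 7]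
    chq := [(0, 2), (0, 3), (0, 4), (0, 5), (2, 0), (3, 0), (4, 0), (5, 0)]
    rng := [(0, 3), (1, 4), (1, 8), (2, 4), (2, 5), (3, 0), (3, 5), (3, 6), (4, 1), (4, 2), (5, 2), (5,
      3), (6, 3), (6, 7), (7, 6), (7, 8), (8, 1), (8, 7)]
    lev := [] }
  links := [[1, 7, 4, 8], [7, 0, 8, 2, 9, 3, 10], [9, 1, 8, 11], [10, 1, 9, 12], [8, 0, 7, 5, 13, 14, 6],
    [13, 4, 7, 10], [8, 4, 14, 15]]
  P := {
    a := 7
    N := 16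
    nb := [402, 1933, 2818, 5634, 25057, 9360, 49424, 1075, 34903, 6158, 12458, 772, 1544, 17456,
      41040, 16704]
    tri := [(0, 1, 7), (0, 1, 8), (0, 4, 7), (0, 4, 8), (1, 2, 8), (1, 2, 9), (1, 3, 9), (1, 3, 10),
      (1, 7, 10), (2, 8, 11), (2, 9, 11), (3, 9, 12), (3, 10, 12), (4, 5, 7), (4, 5, 13), (4, 6,
      8), (4, 6, 14), (4, 13, 14), (5, 7, 10), (5, 10, 13), (6, 8, 15), (6, 14, 15)]
    fin := [0, 0, 0, 0, 0, 0, 0, 0, 0, 9, 10, 11, 12, 13, 14, 15]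
    chd := [(0, 9), (0, 12), (0, 13), (0, 14)]
    steps := [(0, 1), (0, 2), (0, 3), (0, 4), (0, 6), (0, 7), (0, 5), (0, 8)] }
  rep := [0, 10, 13, 9, 14, 12, 11, 15]

noncomputable def v2323 : Cov.CovD where
  P := 3
  N := 5
  pl := [3, 4, 8]
  lev := [⟨[], [], [(0, 0)], [], [(0, 0, [2, 3, 4, 5]), (1, 0, [2, 3, 4, 5])]⟩,
    ⟨[], [(0, 0), (0, 3)], [(0, 0), (0, 3)], [1], [(0, 0, [2, 3, 4, 5]), (1, 0, [2, 3, 4,
      5]), (2, 3, [0])]⟩,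
    ⟨[(0, 1)], [(0, 0), (1, 0), (1, 3)], [(0, 3)], [6], [(1, 0, [2, 3, 4, 5]), (2, 3,
      [0])]⟩,
    ⟨[(0, 1), (1, 2)], [(1, 0), (1, 3), (1, 5), (2, 3)], [(3, 5)], [1], [(2, 3, [0]), (5,
      5, [0])]⟩,
    ⟨[(0, 1)], [(0, 0), (0, 2), (0, 4), (1, 0), (2, 0)], [(0, 0), (0, 2), (0, 4), (2, 4)],
      [], [(0, 0, [2, 3, 4, 5]), (1, 0, [2, 3, 4, 5]), (6, 2, [0]), (7, 4, [0])]⟩,
    ⟨[(0, 4)], [(0, 0), (1, 0), (4, 0), (4, 2), (4, 4)], [(0, 2)], [1], [(0, 0, [2, 3, 4,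
      5]), (6, 2, [0])]⟩,
    ⟨[(0, 4), (4, 5)], [(0, 0), (1, 0), (2, 0), (4, 0), (4, 2), (4, 4)], [(0, 4)], [7],
      [(1, 0, [2, 3, 4, 5]), (7, 4, [0])]⟩]
  Ta := [((0, 3), 0, 1), ((1, 4), 0, 6), ((1, 8), 0, 7)]
  Tb := [((1, 4, 8), 0, 6, 7), ((2, 4, 5), 3, 6, 5), ((3, 0, 5), 1, 0, 5), ((3, 0, 6), 1, 0, 2),
    ((3, 5, 6), 1, 5, 2), ((4, 1, 2), 6, 0, 3), ((5, 2, 3), 5, 3, 1), ((6, 3, 7), 2, 1, 4),
    ((7, 6, 8), 4, 2, 7), ((8, 1, 7), 7, 0, 4)]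
  Tc := [(0, 2, 3), (0, 2, 4), (0, 2, 5), (0, 3, 4), (0, 3, 5), (0, 4, 5)]
  Td := [((0, 2), (0, 3), 1), ((0, 2), (1, 4), 6), ((0, 2), (1, 8), 7), ((0, 3), (0, 3), 1), ((0,
    3), (1, 4), 6), ((0, 3), (1, 8), 7), ((0, 4), (0, 3), 1), ((0, 4), (1, 4), 6), ((0, 4),
    (1, 8), 7), ((0, 5), (0, 3), 1), ((0, 5), (1, 4), 6), ((0, 5), (1, 8), 7), ((2, 0), (6,
    3), 1), ((2, 0), (6, 7), 4), ((3, 0), (2, 4), 6), ((3, 0), (2, 5), 5), ((4, 0), (7, 6),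
    2), ((4, 0), (7, 8), 7), ((5, 0), (5, 2), 3), ((5, 0), (5, 3), 1)]
  G := [[0, 0x684212a48212a442cc8128c68c41ce, 0xc8a4611c8a4611c8,
    0x1414c11418c1c8417428c68c118a, 0x5898a15898a1a68211c18811881646], [0, 0,
    0xc8a4611c8a4611c8, 0x28968c1a161c1aa1245c1a461c16c2,
    0x4168a144c161a1c161a1ac161a12c818144e]]

noncomputable def n2323 : Ent := ⟨e2323, noF, [], [], [(13, 12, [385753029973011613167317188540585705112827479461471962600116225, 0]), (15, 11, [360035742632133418888619945503597441924448419398891365941190657, 0])]⟩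

def c2323 : PLift (Cov.check n2323.C.D v2323 = true) := ⟨by decide +kernel⟩

def b2323 : PLift (entF (fidx ts) 400 2323 n2323 = true) := ⟨by decide +kernel⟩

theorem g2323 : GoodF (fidx ts) 400 2323 := GoodF.ofV v2323 n2323 c2323.down b2323.down

/-- The entries 2193 to 2323. -/
theorem rE15 : Rng (GoodF (fidx ts) 400) 2193 2324 :=
  ((((((((((((((((((((((((((((((((((((((((((((((((((((((((((((((((((((((((((((((((((((((((((((((((((((((((((((((((((((((((((((((((((((Rng.nil _ 2193).snoc g2193 rfl).snoc g2194 rfl).snoc g2195 rfl).snoc g2196 rfl).snoc g2197 rfl).snoc g2198 rfl).snoc g2199 rfl).snoc g2200 rfl).snoc g2201 rfl).snoc g2202 rfl).snoc g2203 rfl).snoc g2204 rfl).snoc g2205 rfl).snoc g2206 rfl).snoc g2207 rfl).snoc g2208 rfl).snoc g2209 rfl).snoc g2210 rfl).snoc g2211 rfl).snoc g2212 rfl).snoc g2213 rfl).snoc g2214 rfl).snoc g2215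 rfl).snoc g2216 rfl).snoc g2217 rfl).snoc g2218 rfl).snoc g2219 rfl).snoc g2220 rfl).snoc g2221 rfl).snoc g2222 rfl).snoc g2223 rfl).snoc g2224 rfl).snoc g2225 rfl).snoc g2226 rfl).snoc g2227 rfl).snoc g2228 rfl).snoc g2229 rfl).snoc g2230 rfl).snoc g2231 rfl).snoc g2232 rfl).snoc g2233 rfl).snoc g2234 rfl).snoc g2235 rfl).snoc g2236 rfl).snoc g2237 rfl).snoc g2238 rfl).snoc g2239 rfl).snoc g2240 rfl).snoc g2241 rfl).snoc g2242 rfl).snoc g2243 rfl).snoc g2244 rfl).snoc g2245 rfl).snoc g2246 rfl).snoc g2247 rfl).snoc g2248 rfl).snoc g2249 rfl).snoc g2250 rfl).snoc g2251 rfl).snoc g2252 rfl).snoc g2253 rfl).snoc g2254 rfl).snoc g2255 rfl).snoc g2256 rfl).snoc g2257 rfl).snoc g2258 rfl).snoc g2259 rfl).snoc g2260 rfl).snoc g2261 rfl).snoc g2262 rfl).snoc g2263 rfl).snoc g2264 rfl).snoc g2265 rfl).snoc g2266 rfl).snoc g2267 rfl).snoc g2268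 rfl).snoc g2269 rfl).snoc g2270 rfl).snoc g2271 rfl).snoc g2272 rfl).snoc g2273 rfl).snoc g2274 rfl).snoc g2275 rfl).snoc g2276 rfl).snoc g2277 rfl).snoc g2278 rfl).snoc g2279 rfl).snoc g2280 rfl).snoc g2281 rfl).snoc g2282 rfl).snoc g2283 rfl).snoc g2284 rfl).snoc g2285 rfl).snoc g2286 rfl).snoc g2287 rfl).snoc g2288 rfl).snoc g2289 rfl).snoc g2290 rfl).snoc g2291 rfl).snoc g2292 rfl).snoc g2293 rfl).snoc g2294 rfl).snoc g2295 rfl).snoc g2296 rfl).snoc g2297 rfl).snoc g2298 rfl).snoc g2299 rfl).snoc g2300 rfl).snoc g2301 rfl).snoc g2302 rfl).snoc g2303 rfl).snoc g2304 rfl).snoc g2305 rfl).snoc g2306 rfl).snoc g2307 rfl).snoc g2308 rfl).snoc g2309 rfl).snoc g2310 rfl).snoc g2311 rfl).snoc g2312 rfl).snoc g2313 rfl).snoc g2314 rfl).snoc g2315 rfl).snoc g2316 rfl).snoc g2317 rfl).snoc g2318 rfl).snoc g2319 rfl).snoc g2320 rfl).snoc g2321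 rfl).snoc g2322 rfl).snoc g2323 rfl)

end Pool.Agent.W986.ST.Dat
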