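import Pool.Agent.W986.Dat.Tab
import Pool.Agent.W986.SubAltB

/-!
# Entries 2324 to 2466 of the table
-/

set_option autoImplicit false

namespace Pool.Agent.W986.ST.Dat

/-- 4744744:1914/6 -/
noncomputable def e2324 : SCfg where
  D := {
    a := 7
    L := 8
    kp := 5
    inn := [(0, 1), (0, 4), (1, 0), (1, 2), (1, 3), (2, 1), (3, 1), (4, 0), (4, 5), (4, 6), (5, 4), (6,
      4)]
    mix := [(0, 0), (0, 1), (1, 0), (1, 1), (1, 2), (1, 3), (2, 1), (2, 2), (2, 4), (3, 2), (3, 3), (3,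
      5), (4, 0), (4, 1), (4, 5), (4, 6), (5, 0), (5, 5), (5, 7), (6, 1), (6, 4), (6, 6)]
    cl := [1, 0, 3, 0, 4, 2, 1, 5]
    chq := [(0, 3), (3, 0)]
    rng := [(0, 3), (0, 7), (1, 4), (2, 4), (2, 5), (3, 0), (3, 5), (4, 1), (4, 2), (4, 6), (5, 2), (5,
      3), (5, 6), (5, 7), (6, 4), (6, 5), (7, 0), (7, 5)]
    lev := [] }
  links := [[1, 7, 4, 8], [7, 0, 8, 2, 9, 3, 10], [9, 1, 8, 11], [10, 1, 9, 12], [8, 0, 7, 5, 12, 13, 6],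
    [12, 4, 7, 14], [8, 4, 13, 11]]
  P := {
    a := 7
    N := 15
    nb := [402, 1933, 2818, 5634, 12769, 20624, 10512, 17459, 2135, 6158, 4234, 9028, 26168, 6224,
      4256]
    tri := [(0, 1, 7), (0, 1, 8), (0, 4, 7), (0, 4, 8), (1, 2, 8), (1, 2, 9), (1, 3, 9), (1, 3, 10),
      (1, 7, 10), (2, 8, 11), (2, 9, 11), (3, 9, 12), (3, 10, 12), (4, 5, 7), (4, 5, 12), (4, 6,
      8), (4, 6, 13), (4, 12, 13), (5, 7, 14), (5, 12, 14), (6, 8, 11), (6, 11, 13)]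
    fin := [0, 1, 2, 3, 0, 0, 0, 0, 1, 9, 1, 2, 3, 0, 14]
    chd := [(1, 9)]
    steps := [(0, 4), (0, 5), (0, 6), (0, 7), (0, 13), (1, 8), (1, 10), (2, 11), (3, 12)] }
  rep := [1, 0, 3, 9, 2, 14]

noncomputable def v2324 : Cov.CovD where
  P := 3
  N := 3
  pl := [4, 5, 7]
  lev := [⟨[], [], [(0, 1)], [], [(0, 1, []), (1, 0, [3])]⟩,
    ⟨[], [(0, 0), (0, 1), (0, 3)], [(0, 0), (0, 1), (0, 3), (1, 3)], [], [(0, 1, []), (1,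
      0, [3]), (2, 3, [0]), (3, 0, [3])]⟩,
    ⟨[(0, 1)], [(0, 0), (1, 0), (1, 1), (1, 3)], [(0, 3)], [4], [(1, 0, [3]), (2, 3, [0])]⟩,
    ⟨[(0, 1), (1, 2)], [(1, 0), (1, 1), (1, 3), (2, 3)], [(0, 3)], [2], [(2, 3, [0]), (3,
      0, [3])]⟩,
    ⟨[(0, 1)], [(0, 0), (0, 1), (1, 0), (1, 1), (2, 0)], [(0, 1), (1, 1)], [2], [(0, 1,
      []), (1, 0, [3]), (6, 1, [])]⟩,
    ⟨[(0, 4)], [(0, 1), (1, 1), (4, 0), (4, 1)], [], [2, 5], [(0, 1, [])]⟩,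
    ⟨[(0, 4), (4, 5)], [(0, 0), (1, 0), (2, 0), (4, 0), (4, 1)], [(0, 1)], [4], [(1, 0,
      [3]), (6, 1, [])]⟩]
  Ta := [((0, 3), 1, 0), ((0, 7), 1, 5), ((1, 4), 0, 4), ((3, 0), 0, 1), ((3, 5), 0, 2), ((6, 4),
    1, 4), ((6, 5), 1, 2)]
  Tb := [((0, 3, 7), 1, 0, 5), ((2, 4, 5), 3, 4, 2), ((3, 0, 5), 0, 1, 2), ((4, 1, 2), 4, 0, 3),
    ((4, 1, 6), 4, 0, 1), ((4, 2, 6), 4, 3, 1), ((5, 2, 3), 2, 3, 0), ((5, 2, 6), 2, 3, 1),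
    ((5, 2, 7), 2, 3, 5), ((5, 3, 6), 2, 0, 1), ((5, 3, 7), 2, 0, 5), ((5, 6, 7), 2, 1, 5),
    ((6, 4, 5), 1, 4, 2), ((7, 0, 5), 5, 1, 2)]
  Tc := []
  Td := [((0, 3), (1, 4), 4), ((0, 3), (3, 0), 1), ((0, 3), (3, 5), 2), ((3, 0), (2, 4), 4), ((3,
    0), (2, 5), 2)]
  G := [[0, 0, 0, 0, 0x229812298122981e229822c4], [0, 0, 0, 0xcc5882cc9442c2,
    0x42842834482814282a82822cc], [0, 0x6ac481cac441c2, 0x21c42222c441c8, 0,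
    0x229881129822c4], [0, 0, 0xc2881c2821c4, 0x115482115842c2, 0x4282128264c28818c]]

noncomputable def n2324 : Ent := ⟨e2324, noF, [], [], [(14, 10, [81620716623384866002924956665996611981654050173009876025345, 0])]⟩

def c2324 : PLift (Cov.check n2324.C.D v2324 = true) := ⟨by decide +kernel⟩

def b2324 : PLift (entF (fidx ts) 400 2324 n2324 = true) := ⟨by decide +kernel⟩

theorem g2324 : GoodF (fidx ts) 400 2324 := GoodF.ofV v2324 n2324 c2324.down b2324.down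

/-- 4744744:1914/5 -/
noncomputable def e2325 : SCfg where
  D := {
    a := 7
    L := 9
    kp := 7
    inn := [(0, 1), (0, 4), (1, 0), (1, 2), (1, 3), (2, 1), (3, 1), (4, 0), (4, 5), (4, 6), (5, 4), (6,
      4)]
    mix := [(0, 0), (0, 1), (1, 0), (1, 1), (1, 2), (1, 3), (2, 1), (2, 2), (2, 4), (3, 2), (3, 3), (3,
      5), (4, 0), (4, 1), (4, 5), (4, 6), (5, 0), (5, 5), (5, 7), (6, 1), (6, 6), (6, 8)]
    cl := [0, 0, 1, 2, 6, 3, 4, 5, 7]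
    chq := [(0, 1), (0, 3), (0, 4), (1, 0), (3, 0), (4, 0), (4, 5), (5, 4)]
    rng := [(0, 3), (0, 7), (1, 4), (1, 8), (2, 4), (2, 5), (3, 0), (3, 5), (4, 1), (4, 2), (5, 2), (5,
      3), (5, 6), (5, 7), (6, 5), (6, 8), (7, 0), (7, 5), (8, 1), (8, 6)]
    lev := [] }
  links := [[1, 7, 4, 8], [7, 0, 8, 2, 9, 3, 10], [9, 1, 8, 11], [10, 1, 9, 12], [8, 0, 7, 5, 12, 13, 6],
    [12, 4, 7, 14], [8, 4, 13, 15]]
  P := {
    a := 7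
    N := 16
    nb := [402, 1933, 2818, 5634, 12769, 20624, 41232, 17459, 34903, 6158, 4234, 772, 26168, 36944,
      4256, 8512]
    tri := [(0, 1, 7), (0, 1, 8), (0, 4, 7), (0, 4, 8), (1, 2, 8), (1, 2, 9), (1, 3, 9), (1, 3, 10),
      (1, 7, 10), (2, 8, 11), (2, 9, 11), (3, 9, 12), (3, 10, 12), (4, 5, 7), (4, 5, 12), (4, 6,
      8), (4, 6, 13), (4, 12, 13), (5, 7, 14), (5, 12, 14), (6, 8, 15), (6, 13, 15)]
    fin := [0, 0, 0, 0, 4, 4, 0, 0, 0, 9, 10, 11, 12, 13, 4, 15]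
    chd := [(0, 9), (0, 12), (0, 13), (13, 4)]
    steps := [(0, 1), (0, 2), (0, 3), (0, 7), (0, 8), (0, 6), (4, 5), (4, 14)] }
  rep := [0, 9, 10, 12, 13, 4, 11, 15]

noncomputable def v2325 : Cov.CovD where
  P := 3
  N := 5
  pl := [3, 4, 8]
  lev := [⟨[], [], [(0, 0)], [], [(0, 0, [1, 3, 4]), (1, 0, [1, 3, 4])]⟩,
    ⟨[], [(0, 0), (0, 1)], [(0, 0), (0, 1)], [2], [(0, 0, [1, 3, 4]), (1, 0, [1, 3, 4]),
      (2, 1, [0])]⟩,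
    ⟨[(0, 1)], [(0, 0), (1, 0), (1, 1)], [(0, 1)], [6], [(1, 0, [1, 3, 4]), (2, 1, [0])]⟩,
    ⟨[(0, 1), (1, 2)], [(1, 0), (1, 1), (1, 3), (2, 1)], [(1, 3)], [2], [(2, 1, [0]), (5,
      3, [0])]⟩,
    ⟨[(0, 1)], [(0, 0), (0, 3), (0, 4), (1, 0), (2, 0), (3, 3)], [(0, 0), (0, 3), (0, 4),
      (3, 4)], [], [(0, 0, [1, 3, 4]), (1, 0, [1, 3, 4]), (5, 3, [0]), (6, 4, [0, 5])]⟩,
    ⟨[(0, 4)], [(0, 0), (1, 0), (3, 3), (4, 0), (4, 3), (4, 4), (4, 5)], [(0, 3), (0, 5),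
      (3, 5)], [], [(0, 0, [1, 3, 4]), (5, 3, [0]), (7, 5, [4])]⟩,
    ⟨[(0, 4), (4, 5)], [(0, 0), (1, 0), (2, 0), (4, 0), (4, 3), (4, 4)], [(0, 4)], [7],
      [(1, 0, [1, 3, 4]), (6, 4, [0, 5])]⟩]
  Ta := [((0, 3), 0, 2), ((0, 7), 0, 5), ((1, 4), 0, 6), ((1, 8), 0, 7)]
  Tb := [((0, 3, 7), 0, 2, 5), ((1, 4, 8), 0, 6, 7), ((2, 4, 5), 1, 6, 3), ((3, 0, 5), 2, 0, 3),
    ((4, 1, 2), 6, 0, 1), ((5, 2, 3), 3, 1, 2), ((5, 2, 6), 3, 1, 4), ((5, 2, 7), 3, 1, 5),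
    ((5, 3, 6), 3, 2, 4), ((5, 3, 7), 3, 2, 5), ((5, 6, 7), 3, 4, 5), ((6, 5, 8), 4, 3, 7),
    ((7, 0, 5), 5, 0, 3), ((8, 1, 6), 7, 0, 4)]
  Tc := [(0, 1, 3), (0, 1, 4), (0, 3, 4), (4, 0, 5)]
  Td := [((0, 1), (0, 3), 2), ((0, 1), (0, 7), 5), ((0, 1), (1, 4), 6), ((0, 1), (1, 8), 7), ((0,
    3), (0, 3), 2), ((0, 3), (0, 7), 5), ((0, 3), (1, 4), 6), ((0, 3), (1, 8), 7), ((0, 4),
    (0, 3), 2), ((0, 4), (0, 7), 5), ((0, 4), (1, 4), 6), ((0, 4), (1, 8), 7), ((1, 0), (2,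
    4), 6), ((1, 0), (2, 5), 3), ((3, 0), (5, 2), 1), ((3, 0), (5, 3), 2), ((3, 0), (5, 6),
    4), ((3, 0), (5, 7), 5), ((4, 0), (6, 5), 3), ((4, 0), (6, 8), 7), ((4, 5), (6, 5), 3),
    ((4, 5), (6, 8), 7), ((5, 4), (7, 0), 0), ((5, 4), (7, 5), 3)]
  G := [[0, 0x111111e1111111e1682, 0x11a146411618a11a146cc11618a88c4, 0x62e2eece114828814a,
    0x6ea6ec6118ac68118c], [0, 0x111111e1111111e1a48, 0, 0xd21e9a1c2821e5e1c8c2445241c46,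
    0xe1216121c81e56cac1e11e394e1c86]]

noncomputable def n2325 : Ent := ⟨e2325, noF, [], [], [(14, 10, [385746751338781050996073827118545021217310372558043290365136897, 0]), (15, 11, [360035742632133418888619945503597441924448419398891365941198849, 0])]⟩

def c2325 : PLift (Cov.check n2325.C.D v2325 = true) := ⟨by decide +kernel⟩

def b2325 : PLift (entF (fidx ts) 400 2325 n2325 = true) := ⟨by decide +kernel⟩

theorem g2325 : GoodF (fidx ts) 400 2325 := GoodF.ofV v2325 n2325 c2325.down b2325.down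

/-- 4744744:1914/7 -/
noncomputable def e2326 : SCfg where
  D := {
    a := 7
    L := 9
    kp := 6
    inn := [(0, 1), (0, 4), (1, 0), (1, 2), (1, 3), (2, 1), (3, 1), (4, 0), (4, 5), (4, 6), (5, 4), (6,
      4)]
    mix := [(0, 0), (0, 1), (1, 0), (1, 1), (1, 2), (1, 3), (2, 1), (2, 2), (2, 4), (3, 2), (3, 3), (3,
      5), (4, 0), (4, 1), (4, 6), (4, 7), (5, 0), (5, 6), (5, 8), (6, 1), (6, 4), (6, 7)]
    cl := [1, 0, 2, 0, 3, 5, 4, 1, 6]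
    chq := [(0, 2), (2, 0)]
    rng := [(0, 3), (0, 8), (1, 4), (2, 4), (2, 5), (3, 0), (3, 5), (4, 1), (4, 2), (4, 7), (5, 2), (5,
      3), (6, 7), (6, 8), (7, 4), (7, 6), (8, 0), (8, 6)]
    lev := [] }
  links := [[1, 7, 4, 8], [7, 0, 8, 2, 9, 3, 10], [9, 1, 8, 11], [10, 1, 9, 12], [8, 0, 7, 5, 13, 14, 6],
    [13, 4, 7, 15], [8, 4, 14, 11]]
  P := {
    a := 7
    N := 16
    nb := [402, 1933, 2818, 5634, 25057, 41104, 18704, 33843, 2135, 6158, 4234, 17220, 1544, 49200,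
      10320, 8352]
    tri := [(0, 1, 7), (0, 1, 8), (0, 4, 7), (0, 4, 8), (1, 2, 8), (1, 2, 9), (1, 3, 9), (1, 3, 10),
      (1, 7, 10), (2, 8, 11), (2, 9, 11), (3, 9, 12), (3, 10, 12), (4, 5, 7), (4, 5, 13), (4, 6,
      8), (4, 6, 14), (4, 13, 14), (5, 7, 15), (5, 13, 15), (6, 8, 11), (6, 11, 14)]
    fin := [0, 1, 2, 1, 0, 0, 0, 0, 1, 9, 1, 2, 12, 13, 0, 15]
    chd := [(1, 9)]
    steps := [(0, 4), (0, 5), (0, 6), (0, 7), (0, 14), (1, 3), (1, 8), (1, 10), (2, 11)] }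
  rep := [1, 0, 9, 2, 13, 12, 15]

noncomputable def v2326 : Cov.CovD where
  P := 3
  N := 4
  pl := [4, 5, 6, 8]
  lev := [⟨[], [], [(0, 1)], [], [(0, 1, []), (1, 0, [2])]⟩,
    ⟨[], [(0, 0), (0, 1), (0, 2)], [(0, 0), (0, 1), (0, 2), (1, 2)], [], [(0, 1, []), (1,
      0, [2]), (2, 2, [0]), (3, 0, [2])]⟩,
    ⟨[(0, 1)], [(0, 0), (1, 0), (1, 1), (1, 2)], [(0, 2)], [3], [(1, 0, [2]), (2, 2, [0])]⟩,
    ⟨[(0, 1), (1, 2)], [(1, 0), (1, 1), (1, 2), (2, 2)], [(0, 2)], [5], [(2, 2, [0]), (3,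
      0, [2])]⟩,
    ⟨[(0, 1)], [(0, 0), (0, 1), (1, 0), (1, 1), (2, 0)], [(0, 1), (1, 1)], [4], [(0, 1,
      []), (1, 0, [2]), (7, 1, [])]⟩,
    ⟨[(0, 4)], [(0, 1), (1, 1), (4, 0), (4, 1)], [], [4, 6], [(0, 1, [])]⟩,
    ⟨[(0, 4), (4, 5)], [(0, 0), (1, 0), (2, 0), (4, 0), (4, 1)], [(0, 1)], [3], [(1, 0,
      [2]), (7, 1, [])]⟩]
  Ta := [((0, 3), 1, 0), ((0, 8), 1, 6), ((1, 4), 0, 3), ((3, 0), 0, 1), ((3, 5), 0, 5), ((7, 4),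
    1, 3), ((7, 6), 1, 4)]
  Tb := [((0, 3, 8), 1, 0, 6), ((2, 4, 5), 2, 3, 5), ((3, 0, 5), 0, 1, 5), ((4, 1, 2), 3, 0, 2),
    ((4, 1, 7), 3, 0, 1), ((4, 2, 7), 3, 2, 1), ((5, 2, 3), 5, 2, 0), ((6, 7, 8), 4, 1, 6),
    ((7, 4, 6), 1, 3, 4), ((8, 0, 6), 6, 1, 4)]
  Tc := []
  Td := [((0, 2), (1, 4), 3), ((0, 2), (3, 0), 1), ((0, 2), (3, 5), 5), ((2, 0), (2, 4), 3), ((2,
    0), (2, 5), 5)]
  G := [[0, 0, 0x229225c229225ca241, 0x825412441c42898144921c1c8c, 0x22541282298128c], [0, 0,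
    0x428124c11912c111e8a682128c4, 0x444742c144888782c188c, 0x4241288282c148cd81a8c], [0,
    0x66aaa6c66aac6cc182, 0x229225c229225cc241, 0x22544121225c81c2882298c18c,
    0x229225c229225ca281], [0, 0, 0x1241286124298c411981154628a,
    0x12885c1138c444742c42cc4bcc948, 0x8212c282cc28a9811541154a286]]

noncomputable def n2326 : Ent := ⟨e2326, noF, [], [], [(15, 10, [360035742630637297931254766822518807307257169425207333496102913, 0]), (13, 12, [385753029973011613167317188540585705112827479461471962600128513, 0])]⟩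

def c2326 : PLift (Cov.check n2326.C.D v2326 = true) := ⟨by decide +kernel⟩

def b2326 : PLift (entF (fidx ts) 400 2326 n2326 = true) := ⟨by decide +kernel⟩

theorem g2326 : GoodF (fidx ts) 400 2326 := GoodF.ofV v2326 n2326 c2326.down b2326.down

/-- 4744744:1914 -/
noncomputable def e2327 : SCfg where
  D := {
    a := 7
    L := 10
    kp := 8
    inn := [(0, 1), (0, 4), (1, 0), (1, 2), (1, 3), (2, 1), (3, 1), (4, 0), (4, 5), (4, 6), (5, 4), (6,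
      4)]
    mix := [(0, 0), (0, 1), (1, 0), (1, 1), (1, 2), (1, 3), (2, 1), (2, 2), (2, 4), (3, 2), (3, 3), (3,
      5), (4, 0), (4, 1), (4, 6), (4, 7), (5, 0), (5, 6), (5, 8), (6, 1), (6, 7), (6, 9)]
    cl := [0, 0, 1, 2, 6, 5, 3, 4, 7, 8]
    chq := [(0, 1), (0, 3), (0, 4), (0, 5), (1, 0), (3, 0), (4, 0), (5, 0)]
    rng := [(0, 3), (0, 8), (1, 4), (1, 9), (2, 4), (2, 5), (3, 0), (3, 5), (4, 1), (4, 2), (5, 2), (5,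
      3), (6, 7), (6, 8), (7, 6), (7, 9), (8, 0), (8, 6), (9, 1), (9, 7)]
    lev := [] }
  links := [[1, 7, 4, 8], [7, 0, 8, 2, 9, 3, 10], [9, 1, 8, 11], [10, 1, 9, 12], [8, 0, 7, 5, 13, 14, 6],
    [13, 4, 7, 15], [8, 4, 14, 16]]
  P := {
    a := 7
    N := 17
    nb := [402, 1933, 2818, 5634, 25057, 41104, 82192, 33843, 67671, 6158, 4234, 772, 1544, 49200,
      73808, 8352, 16704]
    tri := [(0, 1, 7), (0, 1, 8), (0, 4, 7), (0, 4, 8), (1, 2, 8), (1, 2, 9), (1, 3, 9), (1, 3, 10),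
      (1, 7, 10), (2, 8, 11), (2, 9, 11), (3, 9, 12), (3, 10, 12), (4, 5, 7), (4, 5, 13), (4, 6,
      8), (4, 6, 14), (4, 13, 14), (5, 7, 15), (5, 13, 15), (6, 8, 16), (6, 14, 16)]
    fin := [0, 0, 0, 0, 0, 0, 0, 0, 0, 9, 10, 11, 12, 13, 14, 15, 16]
    chd := [(0, 9), (0, 12), (0, 13), (0, 14)]
    steps := [(0, 1), (0, 2), (0, 3), (0, 4), (0, 5), (0, 6), (0, 7), (0, 8)] }
  rep := [0, 9, 10, 13, 14, 12, 11, 15, 16]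

noncomputable def v2327 : Cov.CovD where
  P := 3
  N := 6
  pl := [3, 4, 8, 9]
  lev := [⟨[], [], [(0, 0)], [], [(0, 0, [1, 3, 4, 5]), (1, 0, [1, 3, 4, 5])]⟩,
    ⟨[], [(0, 0), (0, 1)], [(0, 0), (0, 1)], [2], [(0, 0, [1, 3, 4, 5]), (1, 0, [1, 3, 4,
      5]), (2, 1, [0])]⟩,
    ⟨[(0, 1)], [(0, 0), (1, 0), (1, 1)], [(0, 1)], [6], [(1, 0, [1, 3, 4, 5]), (2, 1,
      [0])]⟩,
    ⟨[(0, 1), (1, 2)], [(1, 0), (1, 1), (1, 5), (2, 1)], [(1, 5)], [2], [(2, 1, [0]), (5,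
      5, [0])]⟩,
    ⟨[(0, 1)], [(0, 0), (0, 3), (0, 4), (1, 0), (2, 0)], [(0, 0), (0, 3), (0, 4), (3, 4)],
      [], [(0, 0, [1, 3, 4, 5]), (1, 0, [1, 3, 4, 5]), (6, 3, [0]), (7, 4, [0])]⟩,
    ⟨[(0, 4)], [(0, 0), (1, 0), (4, 0), (4, 3), (4, 4)], [(0, 3)], [7], [(0, 0, [1, 3, 4,
      5]), (6, 3, [0])]⟩,
    ⟨[(0, 4), (4, 5)], [(0, 0), (1, 0), (2, 0), (4, 0), (4, 3), (4, 4)], [(0, 4)], [8],
      [(1, 0, [1, 3, 4, 5]), (7, 4, [0])]⟩]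
  Ta := [((0, 3), 0, 2), ((0, 8), 0, 7), ((1, 4), 0, 6), ((1, 9), 0, 8)]
  Tb := [((0, 3, 8), 0, 2, 7), ((1, 4, 9), 0, 6, 8), ((2, 4, 5), 1, 6, 5), ((3, 0, 5), 2, 0, 5),
    ((4, 1, 2), 6, 0, 1), ((5, 2, 3), 5, 1, 2), ((6, 7, 8), 3, 4, 7), ((7, 6, 9), 4, 3, 8),
    ((8, 0, 6), 7, 0, 3), ((9, 1, 7), 8, 0, 4)]
  Tc := [(0, 1, 3), (0, 1, 4), (0, 1, 5), (0, 3, 4), (0, 3, 5), (0, 4, 5)]
  Td := [((0, 1), (0, 3), 2), ((0, 1), (0, 8), 7), ((0, 1), (1, 4), 6), ((0, 1), (1, 9), 8), ((0,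
    3), (0, 3), 2), ((0, 3), (0, 8), 7), ((0, 3), (1, 4), 6), ((0, 3), (1, 9), 8), ((0, 4),
    (0, 3), 2), ((0, 4), (0, 8), 7), ((0, 4), (1, 4), 6), ((0, 4), (1, 9), 8), ((0, 5), (0,
    3), 2), ((0, 5), (0, 8), 7), ((0, 5), (1, 4), 6), ((0, 5), (1, 9), 8), ((1, 0), (2, 4),
    6), ((1, 0), (2, 5), 5), ((3, 0), (6, 7), 4), ((3, 0), (6, 8), 7), ((4, 0), (7, 6), 3),
    ((4, 0), (7, 9), 8), ((5, 0), (5, 2), 1), ((5, 0), (5, 3), 2)]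
  G := [[0, 0x111111e1111111e1a84,
    0x12244111e111e614111e6c111e28cc111e111ec181411cecac66cac45111e8188c8ca,
    0x1412611221426ca6ace1d418811814c1a8681d8a, 0x1412616ac21581221881814c11881ac66cac1d8e],
    [0, 0x111111e1111111e1684, 0, 0xe12112321c41e31e518e11e91e5c1e1c8a,
    0x1e51e9a11e51a91e3e1c81e3414141c86]]

noncomputable def n2327 : Ent := ⟨e2327, noF, [], [], [(15, 10, [1685356702439545624464619697705549435909628783578210987402488524801, 0]), (13, 12, [1685382419726887998779855760127267502807434353888247252031592550401, 0]), (16, 11, [1580044410770990308032078191911707142368668054796088592099353649153, 0])]⟩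

def c2327 : PLift (Cov.check n2327.C.D v2327 = true) := ⟨by decide +kernel⟩

def b2327 : PLift (entF (fidx ts) 400 2327 n2327 = true) := ⟨by decide +kernel⟩

theorem g2327 : GoodF (fidx ts) 400 2327 := GoodF.ofV v2327 n2327 c2327.down b2327.down

/-- 4744844:1915/3 -/
noncomputable def e2328 : SCfg where
  D := {
    a := 7
    L := 8
    kp := 5
    inn := [(0, 1), (1, 0), (1, 2), (1, 3), (2, 1), (2, 4), (3, 1), (4, 2), (4, 5), (4, 6), (5, 4), (6,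
      4)]
    mix := [(0, 0), (0, 1), (0, 2), (1, 0), (1, 2), (1, 3), (1, 4), (2, 2), (2, 3), (3, 3), (3, 4), (3,
      5), (4, 2), (4, 3), (4, 5), (4, 6), (4, 7), (5, 1), (5, 2), (5, 6), (6, 4), (6, 5), (6, 7)]
    cl := [2, 4, 0, 0, 1, 3, 5, 0]
    chq := [(1, 4), (3, 4), (4, 1), (4, 3)]
    rng := [(0, 1), (0, 4), (1, 0), (1, 2), (1, 6), (2, 1), (3, 5), (4, 0), (4, 5), (4, 7), (5, 3), (5,
      4), (6, 1), (6, 7), (7, 4), (7, 6)]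
    lev := [] }
  links := [[1, 7, 8, 9], [7, 0, 9, 2, 10, 3, 11], [10, 1, 9, 4], [11, 1, 10, 12], [10, 2, 9, 5, 13, 14,
    6, 12], [13, 4, 9, 8], [12, 4, 14, 11]]
  P := {
    a := 7
    N := 15
    nb := [898, 3725, 1554, 7170, 30308, 8976, 22544, 2307, 8865, 311, 4126, 20682, 3160, 16688,
      10320]
    tri := [(0, 1, 7), (0, 1, 9), (0, 7, 8), (0, 8, 9), (1, 2, 9), (1, 2, 10), (1, 3, 10), (1, 3, 11),
      (1, 7, 11), (2, 4, 9), (2, 4, 10), (3, 10, 12), (3, 11, 12), (4, 5, 9), (4, 5, 13), (4, 6,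
      12), (4, 6, 14), (4, 10, 12), (4, 13, 14), (5, 8, 9), (5, 8, 13), (6, 11, 12), (6, 11, 14)]
    fin := [0, 0, 0, 0, 4, 0, 4, 7, 0, 4, 4, 11, 12, 13, 4]
    chd := [(0, 11), (0, 12)]
    steps := [(0, 1), (0, 2), (0, 3), (0, 8), (4, 6), (4, 9), (0, 5), (4, 14), (4, 10)] }
  rep := [4, 11, 7, 12, 0, 13]

noncomputable def v2328 : Cov.CovD where
  P := 3
  N := 3
  pl := [0, 6]
  lev := [⟨[], [], [(0, 4)], [2], [(1, 4, [1, 3]), (2, 0, [])]⟩,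
    ⟨[], [(0, 0), (0, 1), (0, 4)], [(0, 0), (0, 1)], [2], [(2, 0, []), (3, 0, []), (4, 1,
      [4])]⟩,
    ⟨[(0, 1)], [(0, 0), (1, 0), (1, 1)], [(0, 0)], [], [(2, 0, []), (3, 0, [])]⟩,
    ⟨[(0, 1), (1, 2)], [(1, 0), (1, 1), (1, 3), (2, 0)], [(0, 1), (0, 3), (1, 3)], [], [(3,
      0, []), (4, 1, [4]), (5, 3, [4])]⟩,
    ⟨[(1, 2)], [(0, 0), (1, 0), (2, 0), (2, 3), (3, 0), (3, 3)], [(0, 0), (0, 3)], [5],
      [(2, 0, []), (3, 0, []), (5, 3, [4]), (7, 0, [])]⟩,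
    ⟨[(2, 4)], [(0, 0), (0, 4), (1, 0), (2, 0), (4, 0), (4, 3), (4, 4)], [(0, 4)], [5],
      [(1, 4, [1, 3]), (2, 0, [])]⟩,
    ⟨[(2, 4), (4, 5)], [(1, 1), (3, 1), (3, 3), (4, 0), (4, 1), (4, 3)], [(0, 1), (0, 3),
      (1, 3)], [], [(4, 1, [4]), (5, 3, [4]), (7, 0, [])]⟩]
  Ta := [((2, 1), 0, 4), ((3, 5), 0, 3), ((7, 4), 0, 1), ((7, 6), 0, 5)]
  Tb := [((0, 1, 4), 2, 4, 1), ((1, 0, 2), 4, 2, 0), ((1, 0, 6), 4, 2, 5), ((1, 2, 6), 4, 0, 5),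
    ((4, 0, 5), 1, 2, 3), ((4, 0, 7), 1, 2, 0), ((4, 5, 7), 1, 3, 0), ((5, 3, 4), 3, 0, 1),
    ((6, 1, 7), 5, 4, 0), ((7, 4, 6), 0, 1, 5)]
  Tc := [(4, 1, 3)]
  Td := [((1, 4), (4, 0), 2), ((1, 4), (4, 5), 3), ((1, 4), (4, 7), 0), ((3, 4), (5, 3), 0), ((3,
    4), (5, 4), 1), ((4, 1), (1, 0), 2), ((4, 1), (1, 2), 0), ((4, 1), (1, 6), 5), ((4, 3),
    (1, 0), 2), ((4, 3), (1, 2), 0), ((4, 3), (1, 6), 5)]
  G := [[0, 0, 0x81614a11ce1242, 0x11a18612812211481a4c, 0x84618a111ee1482], [0, 0,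
    0x8181a41186c242, 0x1482a48c426c841, 0x8111a41486c282], [0, 0x4141c212684814281e828c,
    0x88384148c69242, 0x48c2618481a81, 0x8462447c1e1282]]

noncomputable def n2328 : Ent := ⟨e2328, noF, [], [], []⟩

def c2328 : PLift (Cov.check n2328.C.D v2328 = true) := ⟨by decide +kernel⟩

def b2328 : PLift (entF (fidx ts) 400 2328 n2328 = true) := ⟨by decide +kernel⟩

theorem g2328 : GoodF (fidx ts) 400 2328 := GoodF.ofV v2328 n2328 c2328.down b2328.down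

/-- 4744844:1915/2 -/
noncomputable def e2329 : SCfg where
  D := {
    a := 7
    L := 9
    kp := 6
    inn := [(0, 1), (1, 0), (1, 2), (1, 3), (2, 1), (2, 4), (3, 1), (4, 2), (4, 5), (4, 6), (5, 4), (6,
      4)]
    mix := [(0, 0), (0, 1), (0, 2), (1, 0), (1, 2), (1, 3), (1, 4), (2, 2), (2, 3), (3, 3), (3, 4), (3,
      5), (4, 2), (4, 3), (4, 6), (4, 7), (4, 8), (5, 1), (5, 2), (5, 6), (6, 4), (6, 7), (6, 8)]
    cl := [3, 4, 0, 0, 2, 6, 1, 5, 1]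
    chq := [(0, 3), (3, 0), (3, 6), (6, 3)]
    rng := [(0, 1), (0, 4), (1, 0), (1, 2), (1, 6), (2, 1), (3, 5), (3, 8), (4, 0), (4, 5), (4, 7), (4,
      8), (5, 3), (5, 4), (6, 1), (6, 7), (7, 4), (7, 6), (8, 3), (8, 4)]
    lev := [] }
  links := [[1, 7, 8, 9], [7, 0, 9, 2, 10, 3, 11], [10, 1, 9, 4], [11, 1, 10, 12], [10, 2, 9, 5, 13, 14,
    6, 15], [13, 4, 9, 8], [15, 4, 14, 11]]
  P := {
    a := 7
    N := 16
    nb := [898, 3725, 1554, 7170, 58980, 8976, 51216, 2307, 8865, 311, 36894, 53450, 3080, 16688,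
      10320, 3152]
    tri := [(0, 1, 7), (0, 1, 9), (0, 7, 8), (0, 8, 9), (1, 2, 9), (1, 2, 10), (1, 3, 10), (1, 3, 11),
      (1, 7, 11), (2, 4, 9), (2, 4, 10), (3, 10, 12), (3, 11, 12), (4, 5, 9), (4, 5, 13), (4, 6,
      14), (4, 6, 15), (4, 10, 15), (4, 13, 14), (5, 8, 9), (5, 8, 13), (6, 11, 14), (6, 11, 15)]
    fin := [0, 0, 2, 0, 4, 5, 4, 0, 5, 2, 2, 11, 12, 4, 14, 4]
    chd := [(0, 2), (0, 12)]
    steps := [(0, 1), (0, 3), (0, 7), (2, 9), (2, 10), (4, 6), (4, 13), (4, 15), (5, 8)] }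
  rep := [2, 4, 11, 0, 5, 14, 12]

noncomputable def v2329 : Cov.CovD where
  P := 3
  N := 4
  pl := [1, 4, 7]
  lev := [⟨[], [], [(0, 3)], [4], [(0, 3, [0, 6]), (2, 0, [3])]⟩,
    ⟨[], [(0, 0), (0, 3)], [(0, 0), (0, 3)], [2], [(0, 3, [0, 6]), (2, 0, [3]), (3, 0,
      [3])]⟩,
    ⟨[(0, 1)], [(0, 0), (1, 0), (1, 3)], [(0, 0)], [], [(2, 0, [3]), (3, 0, [3])]⟩,
    ⟨[(0, 1), (1, 2)], [(1, 0), (1, 3), (1, 6), (2, 0)], [(0, 6)], [2], [(3, 0, [3]), (5,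
      6, [3])]⟩,
    ⟨[(1, 2)], [(0, 0), (1, 0), (2, 0), (2, 1), (3, 0)], [(0, 0), (0, 1), (1, 1)], [5],
      [(2, 0, [3]), (3, 0, [3]), (6, 1, []), (8, 1, [])]⟩,
    ⟨[(2, 4)], [(0, 0), (1, 0), (2, 0), (4, 0), (4, 1)], [(0, 1)], [4], [(2, 0, [3]), (6,
      1, [])]⟩,
    ⟨[(2, 4), (4, 5)], [(4, 0), (4, 1)], [], [2, 5], [(8, 1, [])]⟩]
  Ta := [((2, 1), 0, 4), ((3, 5), 0, 6), ((3, 8), 0, 1), ((6, 1), 1, 4), ((6, 7), 1, 5), ((8, 3),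
    1, 0), ((8, 4), 1, 2)]
  Tb := [((0, 1, 4), 3, 4, 2), ((1, 0, 2), 4, 3, 0), ((1, 0, 6), 4, 3, 1), ((1, 2, 6), 4, 0, 1),
    ((3, 5, 8), 0, 6, 1), ((4, 0, 5), 2, 3, 6), ((4, 0, 7), 2, 3, 5), ((4, 0, 8), 2, 3, 1),
    ((4, 5, 7), 2, 6, 5), ((4, 5, 8), 2, 6, 1), ((4, 7, 8), 2, 5, 1), ((5, 3, 4), 6, 0, 2),
    ((6, 1, 7), 1, 4, 5), ((7, 4, 6), 5, 2, 1), ((8, 3, 4), 1, 0, 2)]
  Tc := [(3, 0, 6)]
  Td := [((0, 3), (2, 1), 4), ((0, 3), (3, 5), 6), ((0, 3), (3, 8), 1), ((3, 0), (0, 1), 4), ((3,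
    0), (0, 4), 2), ((3, 6), (0, 1), 4), ((3, 6), (0, 4), 2), ((6, 3), (5, 3), 0), ((6, 3),
    (5, 4), 2)]
  G := [[0, 0, 0x2848c222448c48a8428c8424ca24484244c288848cc2e, 0,
    0x28a8c1288414c128428c14a34412818c1c2e], [0, 0, 0x82824842688442c2288242c428242c82ce,
    0x1242c428212c12c2, 0x8212c1288212c1488212c142e], [0, 0, 0x28c42cc4228c42cc82c1, 0,
    0x1828c2481121c248111c84a8111c8428418ca44a28f], [0, 0x88644ac4288644ac82c1,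
    0x8242c428242c82c1, 0x1242c428141c82c2, 0x8111c8111c9428212c2483]]

noncomputable def n2329 : Ent := ⟨e2329, noF, [], [], [(15, 12, [360035747228123463809659675990397950106674496442981057568014337, 0])]⟩

def c2329 : PLift (Cov.check n2329.C.D v2329 = true) := ⟨by decide +kernel⟩

def b2329 : PLift (entF (fidx ts) 400 2329 n2329 = true) := ⟨by decide +kernel⟩

theorem g2329 : GoodF (fidx ts) 400 2329 := GoodF.ofV v2329 n2329 c2329.down b2329.down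

/-- 4744844:1915/4 -/
noncomputable def e2330 : SCfg where
  D := {
    a := 7
    L := 9
    kp := 6
    inn := [(0, 1), (1, 0), (1, 2), (1, 3), (2, 1), (2, 4), (3, 1), (4, 2), (4, 5), (4, 6), (5, 4), (6,
      4)]
    mix := [(0, 0), (0, 1), (0, 2), (1, 0), (1, 2), (1, 3), (1, 4), (2, 2), (2, 3), (3, 3), (3, 4), (3,
      5), (4, 2), (4, 3), (4, 5), (4, 6), (4, 7), (5, 1), (5, 2), (5, 6), (6, 5), (6, 7), (6, 8)]
    cl := [2, 1, 0, 0, 4, 3, 5, 0, 6]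
    chq := [(1, 3), (1, 4), (3, 1), (4, 1)]
    rng := [(0, 1), (0, 4), (1, 0), (1, 2), (1, 6), (2, 1), (3, 5), (4, 0), (4, 5), (5, 3), (5, 4), (5,
      8), (6, 1), (6, 7), (7, 6), (7, 8), (8, 5), (8, 7)]
    lev := [] }
  links := [[1, 7, 8, 9], [7, 0, 9, 2, 10, 3, 11], [10, 1, 9, 4], [11, 1, 10, 12], [10, 2, 9, 5, 13, 14,
    6, 12], [13, 4, 9, 8], [12, 4, 14, 15]]
  P := {
    a := 7
    N := 16
    nb := [898, 3725, 1554, 7170, 30308, 8976, 53264, 2307, 8865, 311, 4126, 4234, 35928, 16688,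
      41040, 20544]
    tri := [(0, 1, 7), (0, 1, 9), (0, 7, 8), (0, 8, 9), (1, 2, 9), (1, 2, 10), (1, 3, 10), (1, 3, 11),
      (1, 7, 11), (2, 4, 9), (2, 4, 10), (3, 10, 12), (3, 11, 12), (4, 5, 9), (4, 5, 13), (4, 6,
      12), (4, 6, 14), (4, 10, 12), (4, 13, 14), (5, 8, 9), (5, 8, 13), (6, 12, 15), (6, 14, 15)]
    fin := [0, 0, 0, 0, 4, 0, 4, 7, 0, 4, 4, 11, 12, 13, 4, 15]
    chd := [(0, 11), (0, 12)]
    steps := [(0, 1), (0, 2), (0, 3), (0, 8), (4, 6), (4, 9), (0, 5), (4, 14), (4, 10)] }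
  rep := [4, 0, 7, 12, 11, 13, 15]

noncomputable def v2330 : Cov.CovD where
  P := 3
  N := 4
  pl := [0, 6, 8]
  lev := [⟨[], [], [(0, 1)], [2], [(1, 1, [3, 4]), (2, 0, [])]⟩,
    ⟨[], [(0, 0), (0, 1), (0, 4)], [(0, 0), (0, 4)], [2], [(2, 0, []), (3, 0, []), (4, 4,
      [1])]⟩,
    ⟨[(0, 1)], [(0, 0), (1, 0), (1, 4)], [(0, 0)], [], [(2, 0, []), (3, 0, [])]⟩,
    ⟨[(0, 1), (1, 2)], [(1, 0), (1, 3), (1, 4), (2, 0)], [(0, 3), (0, 4), (3, 4)], [], [(3,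
      0, []), (4, 4, [1]), (5, 3, [1])]⟩,
    ⟨[(1, 2)], [(0, 0), (1, 0), (2, 0), (2, 3), (3, 0), (3, 3)], [(0, 0), (0, 3)], [5],
      [(2, 0, []), (3, 0, []), (5, 3, [1]), (7, 0, [])]⟩,
    ⟨[(2, 4)], [(0, 0), (0, 1), (1, 0), (2, 0), (4, 0), (4, 1), (4, 3)], [(0, 1)], [5],
      [(1, 1, [3, 4]), (2, 0, [])]⟩,
    ⟨[(2, 4), (4, 5)], [(3, 3), (4, 0), (4, 3)], [(0, 3)], [6], [(5, 3, [1]), (7, 0, [])]⟩]
  Ta := [((2, 1), 0, 1), ((3, 5), 0, 3), ((7, 6), 0, 5), ((7, 8), 0, 6)]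
  Tb := [((0, 1, 4), 2, 1, 4), ((1, 0, 2), 1, 2, 0), ((1, 0, 6), 1, 2, 5), ((1, 2, 6), 1, 0, 5),
    ((4, 0, 5), 4, 2, 3), ((5, 3, 4), 3, 0, 4), ((5, 3, 8), 3, 0, 6), ((5, 4, 8), 3, 4, 6),
    ((6, 1, 7), 5, 1, 0), ((7, 6, 8), 0, 5, 6), ((8, 5, 7), 6, 3, 0)]
  Tc := [(1, 3, 4)]
  Td := [((1, 3), (1, 0), 2), ((1, 3), (1, 2), 0), ((1, 3), (1, 6), 5), ((1, 4), (1, 0), 2), ((1,
    4), (1, 2), 0), ((1, 4), (1, 6), 5), ((3, 1), (5, 3), 0), ((3, 1), (5, 4), 4), ((3, 1),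
    (5, 8), 6), ((4, 1), (4, 0), 2), ((4, 1), (4, 5), 3)]
  G := [[0, 0x181411ce1214411812a1cc8, 0x11c2111c2181814e6c24, 0x11c21411c222c8,
    0x11c2181814e11c27428], [0, 0, 0x512912116131ee824, 0x71224d1222c8, 0x912512389151ee428],
    [0, 0, 0xaa922424c862461cce5278182ca8, 0xee5224ee9228c8, 0x61428224c864a4aacaeec23c29]]

noncomputable def n2330 : Ent := ⟨e2330, noF, [], [], [(15, 11, [360035742632133418888619945503597441924448419398891365941215233, 0])]⟩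

def c2330 : PLift (Cov.check n2330.C.D v2330 = true) := ⟨by decide +kernel⟩

def b2330 : PLift (entF (fidx ts) 400 2330 n2330 = true) := ⟨by decide +kernel⟩

theorem g2330 : GoodF (fidx ts) 400 2330 := GoodF.ofV v2330 n2330 c2330.down b2330.down

/-- 4744844:1915/1 -/
noncomputable def e2331 : SCfg where
  D := {
    a := 7
    L := 10
    kp := 7
    inn := [(0, 1), (1, 0), (1, 2), (1, 3), (2, 1), (2, 4), (3, 1), (4, 2), (4, 5), (4, 6), (5, 4), (6,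
      4)]
    mix := [(0, 0), (0, 1), (0, 2), (1, 0), (1, 2), (1, 3), (1, 4), (2, 2), (2, 3), (3, 3), (3, 4), (3,
      5), (4, 2), (4, 3), (4, 6), (4, 7), (4, 8), (5, 1), (5, 2), (5, 6), (6, 7), (6, 8), (6, 9)]
    cl := [1, 2, 0, 0, 4, 6, 3, 5, 3, 7]
    chq := [(0, 1), (1, 0), (1, 6), (6, 1)]
    rng := [(0, 1), (0, 4), (1, 0), (1, 2), (1, 6), (2, 1), (3, 5), (3, 8), (4, 0), (4, 5), (5, 3), (5,
      4), (6, 1), (6, 7), (7, 6), (7, 9), (8, 3), (8, 9), (9, 7), (9, 8)]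
    lev := [] }
  links := [[1, 7, 8, 9], [7, 0, 9, 2, 10, 3, 11], [10, 1, 9, 4], [11, 1, 10, 12], [10, 2, 9, 5, 13, 14,
    6, 15], [13, 4, 9, 8], [15, 4, 14, 16]]
  P := {
    a := 7
    N := 17
    nb := [898, 3725, 1554, 7170, 58980, 8976, 114704, 2307, 8865, 311, 36894, 4234, 3080, 16688,
      73808, 66640, 49216]
    tri := [(0, 1, 7), (0, 1, 9), (0, 7, 8), (0, 8, 9), (1, 2, 9), (1, 2, 10), (1, 3, 10), (1, 3, 11),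
      (1, 7, 11), (2, 4, 9), (2, 4, 10), (3, 10, 12), (3, 11, 12), (4, 5, 9), (4, 5, 13), (4, 6,
      14), (4, 6, 15), (4, 10, 15), (4, 13, 14), (5, 8, 9), (5, 8, 13), (6, 14, 16), (6, 15, 16)]
    fin := [0, 0, 2, 0, 4, 5, 4, 0, 5, 2, 2, 11, 12, 4, 14, 4, 16]
    chd := [(0, 2), (0, 12)]
    steps := [(0, 1), (0, 3), (0, 7), (2, 9), (2, 10), (4, 6), (4, 13), (4, 15), (5, 8)] }
  rep := [2, 0, 5, 4, 11, 14, 12, 16]

noncomputable def v2331 : Cov.CovD where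
  P := 3
  N := 5
  pl := [1, 4, 7, 9]
  lev := [⟨[], [], [(0, 1)], [2], [(0, 1, [0, 6]), (2, 0, [1])]⟩,
    ⟨[], [(0, 0), (0, 1)], [(0, 0), (0, 1)], [4], [(0, 1, [0, 6]), (2, 0, [1]), (3, 0,
      [1])]⟩,
    ⟨[(0, 1)], [(0, 0), (1, 0), (1, 1)], [(0, 0)], [], [(2, 0, [1]), (3, 0, [1])]⟩,
    ⟨[(0, 1), (1, 2)], [(1, 0), (1, 1), (1, 6), (2, 0)], [(0, 6)], [4], [(3, 0, [1]), (5,
      6, [1])]⟩,
    ⟨[(1, 2)], [(0, 0), (1, 0), (2, 0), (2, 3), (3, 0)], [(0, 0), (0, 3), (3, 3)], [5],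
      [(2, 0, [1]), (3, 0, [1]), (6, 3, []), (8, 3, [])]⟩,
    ⟨[(2, 4)], [(0, 0), (1, 0), (2, 0), (4, 0), (4, 3)], [(0, 3)], [2], [(2, 0, [1]), (6,
      3, [])]⟩,
    ⟨[(2, 4), (4, 5)], [(4, 0), (4, 3)], [], [5, 7], [(8, 3, [])]⟩]
  Ta := [((2, 1), 0, 2), ((3, 5), 0, 6), ((3, 8), 0, 3), ((6, 1), 3, 2), ((6, 7), 3, 5), ((8, 3),
    3, 0), ((8, 9), 3, 7)]
  Tb := [((0, 1, 4), 1, 2, 4), ((1, 0, 2), 2, 1, 0), ((1, 0, 6), 2, 1, 3), ((1, 2, 6), 2, 0, 3),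
    ((3, 5, 8), 0, 6, 3), ((4, 0, 5), 4, 1, 6), ((5, 3, 4), 6, 0, 4), ((6, 1, 7), 3, 2, 5),
    ((7, 6, 9), 5, 3, 7), ((8, 3, 9), 3, 0, 7), ((9, 7, 8), 7, 5, 3)]
  Tc := [(1, 0, 6)]
  Td := [((0, 1), (2, 1), 2), ((0, 1), (3, 5), 6), ((0, 1), (3, 8), 3), ((1, 0), (0, 1), 2), ((1,
    0), (0, 4), 4), ((1, 6), (0, 1), 2), ((1, 6), (0, 4), 4), ((6, 1), (5, 3), 0), ((6, 1),
    (5, 4), 4)]
  G := [[0, 0x68a1c1e1461145c1e18c4, 0xa44168c2a1ca4c2626882ac4, 0x84e3c624882c78844dce22c4,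
    0x7829ac2e2478d2a128a416c8], [0, 0x51419134a1c9434a158416a4,
    0x38219452c1a125834e28282ac4, 0x5834629481a145834e28482ac4, 0x38219258c1652429238a2cc8],
    [0, 0x68a131e1468a1c1e12c4, 0, 0x4881e1e244881d1e22c8,
    0x61a1c1e2261a1c1e61a1c2e61a131ee8c8], [0, 0x9438a1514165138619181ca8, 0,
    0x9434a2584269438a241c426c8, 0x8289238a652426524125838e52386e9238a928acc8]]

noncomputable def n2331 : Ent := ⟨e2331, noF, [], [], [(16, 11, [1580044410770990308032078191911707142368668054796088592099353661441, 0]), (15, 12, [1685356702444143110630498102614717315052428200905228761126560440321, 0])]⟩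

def c2331 : PLift (Cov.check n2331.C.D v2331 = true) := ⟨by decide +kernel⟩

def b2331 : PLift (entF (fidx ts) 400 2331 n2331 = true) := ⟨by decide +kernel⟩

theorem g2331 : GoodF (fidx ts) 400 2331 := GoodF.ofV v2331 n2331 c2331.down b2331.down

/-- 4744844:1915/6 -/
noncomputable def e2332 : SCfg where
  D := {
    a := 7
    L := 9
    kp := 6
    inn := [(0, 1), (1, 0), (1, 2), (1, 3), (2, 1), (2, 4), (3, 1), (4, 2), (4, 5), (4, 6), (5, 4), (6,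
      4)]
    mix := [(0, 0), (0, 1), (0, 2), (1, 0), (1, 2), (1, 3), (1, 4), (2, 2), (2, 3), (3, 3), (3, 4), (3,
      5), (4, 2), (4, 3), (4, 5), (4, 6), (4, 7), (5, 2), (5, 6), (5, 8), (6, 4), (6, 5), (6, 7)]
    cl := [3, 5, 0, 0, 2, 1, 1, 4, 6]
    chq := [(0, 2), (0, 3), (2, 0), (3, 0)]
    rng := [(0, 1), (0, 4), (1, 0), (1, 2), (2, 1), (2, 8), (3, 5), (4, 0), (4, 5), (4, 7), (5, 3), (5,
      4), (6, 7), (6, 8), (7, 4), (7, 6), (8, 2), (8, 6)]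
    lev := [] }
  links := [[1, 7, 8, 9], [7, 0, 9, 2, 10, 3, 11], [10, 1, 9, 4], [11, 1, 10, 12], [10, 2, 9, 5, 13, 14,
    6, 12], [13, 4, 9, 15], [12, 4, 14, 11]]
  P := {
    a := 7
    N := 16
    nb := [898, 3725, 1554, 7170, 30308, 41488, 22544, 2307, 641, 33079, 4126, 20682, 3160, 49200,
      10320, 8736]
    tri := [(0, 1, 7), (0, 1, 9), (0, 7, 8), (0, 8, 9), (1, 2, 9), (1, 2, 10), (1, 3, 10), (1, 3, 11),
      (1, 7, 11), (2, 4, 9), (2, 4, 10), (3, 10, 12), (3, 11, 12), (4, 5, 9), (4, 5, 13), (4, 6,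
      12), (4, 6, 14), (4, 10, 12), (4, 13, 14), (5, 9, 15), (5, 13, 15), (6, 11, 12), (6, 11,
      14)]
    fin := [0, 0, 2, 2, 4, 2, 4, 0, 8, 2, 2, 11, 4, 4, 14, 15]
    chd := [(0, 2), (2, 11)]
    steps := [(0, 1), (0, 7), (2, 9), (2, 5), (2, 10), (2, 3), (4, 6), (4, 13), (4, 12)] }
  rep := [2, 4, 11, 0, 14, 8, 15]

noncomputable def v2332 : Cov.CovD where
  P := 3
  N := 4
  pl := [1, 7, 8]
  lev := [⟨[], [], [(0, 3)], [5], [(0, 3, [0]), (2, 0, [2, 3])]⟩,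
    ⟨[], [(0, 0), (0, 2), (0, 3)], [(0, 0), (0, 2), (0, 3), (2, 3)], [], [(0, 3, [0]), (2,
      0, [2, 3]), (3, 0, [2, 3]), (4, 2, [0])]⟩,
    ⟨[(0, 1)], [(0, 0), (1, 0), (1, 2), (1, 3)], [(0, 0)], [], [(2, 0, [2, 3]), (3, 0, [2,
      3])]⟩,
    ⟨[(0, 1), (1, 2)], [(1, 0), (1, 1), (1, 2), (1, 3), (2, 0)], [(0, 1), (0, 2), (1, 2)],
      [], [(3, 0, [2, 3]), (4, 2, [0]), (5, 1, [])]⟩,
    ⟨[(1, 2)], [(0, 0), (1, 0), (2, 0), (2, 1), (3, 0), (3, 1)], [(0, 0), (0, 1), (1, 1)],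
      [4], [(2, 0, [2, 3]), (3, 0, [2, 3]), (5, 1, []), (6, 1, [])]⟩,
    ⟨[(2, 4)], [(0, 0), (1, 0), (2, 0), (4, 0), (4, 1)], [(0, 1)], [6], [(2, 0, [2, 3]),
      (6, 1, [])]⟩,
    ⟨[(2, 4), (4, 5)], [(1, 2), (3, 1), (3, 2), (4, 0), (4, 1), (4, 2)], [(1, 2)], [4],
      [(4, 2, [0]), (5, 1, [])]⟩]
  Ta := [((2, 1), 0, 5), ((2, 8), 0, 6), ((3, 5), 0, 1), ((5, 3), 1, 0), ((5, 4), 1, 2), ((6, 7),
    1, 4), ((6, 8), 1, 6)]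
  Tb := [((0, 1, 4), 3, 5, 2), ((1, 0, 2), 5, 3, 0), ((2, 1, 8), 0, 5, 6), ((4, 0, 5), 2, 3, 1),
    ((4, 0, 7), 2, 3, 4), ((4, 5, 7), 2, 1, 4), ((5, 3, 4), 1, 0, 2), ((6, 7, 8), 1, 4, 6),
    ((7, 4, 6), 4, 2, 1), ((8, 2, 6), 6, 0, 1)]
  Tc := [(0, 2, 3)]
  Td := [((0, 2), (2, 1), 5), ((0, 2), (2, 8), 6), ((0, 2), (3, 5), 1), ((0, 3), (2, 1), 5), ((0,
    3), (2, 8), 6), ((0, 3), (3, 5), 1), ((2, 0), (4, 0), 3), ((2, 0), (4, 5), 1), ((2, 0),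
    (4, 7), 4), ((3, 0), (0, 1), 5), ((3, 0), (0, 4), 2)]
  G := [[0, 0, 0x8212c448212c84a1, 0x8212c4288242c1248242c821242c82ce,
    0x8212c1488212c148212c84a1292c182e], [0, 0, 0x8111c2488121c8241111c482e, 0,
    0x18c91cc22828c8811c42628c11cc12a1422cc11881c2e], [0, 0x88644ac4288644ac42c1,
    0x1212c488212c4461, 0x8241c4288242c8248111c421142c48ce, 0x8212c8228211c8428212c8487], [0,
    0, 0x8111c2481141c8241141c482e, 0, 0x1121c8228111c84228c12cc8287]]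

noncomputable def n2332 : Ent := ⟨e2332, noF, [], [], [(8, 15, [360035742630636841211993100915356868655746945586763691017207809, 0])]⟩

def c2332 : PLift (Cov.check n2332.C.D v2332 = true) := ⟨by decide +kernel⟩

def b2332 : PLift (entF (fidx ts) 400 2332 n2332 = true) := ⟨by decide +kernel⟩

theorem g2332 : GoodF (fidx ts) 400 2332 := GoodF.ofV v2332 n2332 c2332.down b2332.down

/-- 4744844:1915/5 -/
noncomputable def e2333 : SCfg where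
  D := {
    a := 7
    L := 10
    kp := 7
    inn := [(0, 1), (1, 0), (1, 2), (1, 3), (2, 1), (2, 4), (3, 1), (4, 2), (4, 5), (4, 6), (5, 4), (6,
      4)]
    mix := [(0, 0), (0, 1), (0, 2), (1, 0), (1, 2), (1, 3), (1, 4), (2, 2), (2, 3), (3, 3), (3, 4), (3,
      5), (4, 2), (4, 3), (4, 6), (4, 7), (4, 8), (5, 2), (5, 6), (5, 9), (6, 4), (6, 7), (6, 8)]
    cl := [2, 6, 0, 0, 3, 5, 1, 4, 1, 7]
    chq := [(0, 2), (2, 0), (2, 5), (5, 2)]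
    rng := [(0, 1), (0, 4), (1, 0), (1, 2), (2, 1), (2, 9), (3, 5), (3, 8), (4, 0), (4, 5), (4, 7), (4,
      8), (5, 3), (5, 4), (6, 7), (6, 9), (7, 4), (7, 6), (8, 3), (8, 4), (9, 2), (9, 6)]
    lev := [] }
  links := [[1, 7, 8, 9], [7, 0, 9, 2, 10, 3, 11], [10, 1, 9, 4], [11, 1, 10, 12], [10, 2, 9, 5, 13, 14,
    6, 15], [13, 4, 9, 16], [15, 4, 14, 11]]
  P := {
    a := 7
    N := 17
    nb := [898, 3725, 1554, 7170, 58980, 74256, 51216, 2307, 641, 65847, 36894, 53450, 3080, 81968,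
      10320, 3152, 8736]
    tri := [(0, 1, 7), (0, 1, 9), (0, 7, 8), (0, 8, 9), (1, 2, 9), (1, 2, 10), (1, 3, 10), (1, 3, 11),
      (1, 7, 11), (2, 4, 9), (2, 4, 10), (3, 10, 12), (3, 11, 12), (4, 5, 9), (4, 5, 13), (4, 6,
      14), (4, 6, 15), (4, 10, 15), (4, 13, 14), (5, 9, 16), (5, 13, 16), (6, 11, 14), (6, 11,
      15)]
    fin := [0, 0, 2, 0, 4, 2, 4, 0, 8, 2, 2, 11, 12, 4, 14, 4, 16]
    chd := [(0, 2), (0, 12)]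
    steps := [(0, 1), (0, 3), (0, 7), (2, 9), (2, 5), (2, 10), (4, 6), (4, 13), (4, 15)] }
  rep := [2, 4, 0, 11, 14, 12, 8, 16]

noncomputable def v2333 : Cov.CovD where
  P := 3
  N := 5
  pl := [1, 4, 7, 9]
  lev := [⟨[], [], [(0, 2)], [6], [(0, 2, [0, 5]), (2, 0, [2])]⟩,
    ⟨[], [(0, 0), (0, 2)], [(0, 0), (0, 2)], [3], [(0, 2, [0, 5]), (2, 0, [2]), (3, 0,
      [2])]⟩,
    ⟨[(0, 1)], [(0, 0), (1, 0), (1, 2)], [(0, 0)], [], [(2, 0, [2]), (3, 0, [2])]⟩,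
    ⟨[(0, 1), (1, 2)], [(1, 0), (1, 2), (1, 5), (2, 0)], [(0, 5)], [3], [(3, 0, [2]), (5,
      5, [2])]⟩,
    ⟨[(1, 2)], [(0, 0), (1, 0), (2, 0), (2, 1), (3, 0)], [(0, 0), (0, 1), (1, 1)], [4],
      [(2, 0, [2]), (3, 0, [2]), (6, 1, []), (8, 1, [])]⟩,
    ⟨[(2, 4)], [(0, 0), (1, 0), (2, 0), (4, 0), (4, 1)], [(0, 1)], [7], [(2, 0, [2]), (6,
      1, [])]⟩,
    ⟨[(2, 4), (4, 5)], [(4, 0), (4, 1)], [], [3, 4], [(8, 1, [])]⟩]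
  Ta := [((2, 1), 0, 6), ((2, 9), 0, 7), ((3, 5), 0, 5), ((3, 8), 0, 1), ((6, 7), 1, 4), ((6, 9),
    1, 7), ((8, 3), 1, 0), ((8, 4), 1, 3)]
  Tb := [((0, 1, 4), 2, 6, 3), ((1, 0, 2), 6, 2, 0), ((2, 1, 9), 0, 6, 7), ((3, 5, 8), 0, 5, 1),
    ((4, 0, 5), 3, 2, 5), ((4, 0, 7), 3, 2, 4), ((4, 0, 8), 3, 2, 1), ((4, 5, 7), 3, 5, 4),
    ((4, 5, 8), 3, 5, 1), ((4, 7, 8), 3, 4, 1), ((5, 3, 4), 5, 0, 3), ((6, 7, 9), 1, 4, 7),
    ((7, 4, 6), 4, 3, 1), ((8, 3, 4), 1, 0, 3), ((9, 2, 6), 7, 0, 1)]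
  Tc := [(2, 0, 5)]
  Td := [((0, 2), (2, 1), 6), ((0, 2), (2, 9), 7), ((0, 2), (3, 5), 5), ((0, 2), (3, 8), 1), ((2,
    0), (0, 1), 6), ((2, 0), (0, 4), 3), ((2, 5), (0, 1), 6), ((2, 5), (0, 4), 3), ((5, 2),
    (5, 3), 0), ((5, 2), (5, 4), 3)]
  G := [[0, 0, 0x2111c1221121c182a, 0x28c12cc2211c42cc22c28c12cc2212c41cc22cc,
    0x26c42cca9c45226442cc33c452884c2a], [0, 0, 0x5292c1421142c1848211c128e,
    0x8212c221242c22c8212c221242c28cc, 0x8212c129242c42a828924521242c48aa], [0, 0,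
    0x1121c1422111c1826, 0x18c92cc222441cc22882ac1, 0x6442ccaac4633c4288ca21], [0,
    0x886446acc6288622cae464624aa24c1, 0x8212c1281141c18412d1c182e, 0x8212c241242c22c1,
    0x8212c8212cc41242c92468a1]]

noncomputable def n2333 : Ent := ⟨e2333, noF, [], [], [(8, 16, [1580044410770988437309982408355971841652082177953823432505698652161, 0]), (15, 12, [1685356702444143110630498102614717315052428200905228761126560448513, 0])]⟩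

def c2333 : PLift (Cov.check n2333.C.D v2333 = true) := ⟨by decide +kernel⟩

def b2333 : PLift (entF (fidx ts) 400 2333 n2333 = true) := ⟨by decide +kernel⟩

theorem g2333 : GoodF (fidx ts) 400 2333 := GoodF.ofV v2333 n2333 c2333.down b2333.down

/-- 4744844:1915/7 -/
noncomputable def e2334 : SCfg where
  D := {
    a := 7
    L := 10
    kp := 7
    inn := [(0, 1), (1, 0), (1, 2), (1, 3), (2, 1), (2, 4), (3, 1), (4, 2), (4, 5), (4, 6), (5, 4), (6,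
      4)]
    mix := [(0, 0), (0, 1), (0, 2), (1, 0), (1, 2), (1, 3), (1, 4), (2, 2), (2, 3), (3, 3), (3, 4), (3,
      5), (4, 2), (4, 3), (4, 5), (4, 6), (4, 7), (5, 2), (5, 6), (5, 8), (6, 5), (6, 7), (6, 9)]
    cl := [3, 5, 0, 0, 2, 1, 1, 4, 6, 7]
    chq := [(0, 2), (0, 3), (2, 0), (3, 0)]
    rng := [(0, 1), (0, 4), (1, 0), (1, 2), (2, 1), (2, 8), (3, 5), (4, 0), (4, 5), (5, 3), (5, 4), (5,
      9), (6, 7), (6, 8), (7, 6), (7, 9), (8, 2), (8, 6), (9, 5), (9, 7)]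
    lev := [] }
  links := [[1, 7, 8, 9], [7, 0, 9, 2, 10, 3, 11], [10, 1, 9, 4], [11, 1, 10, 12], [10, 2, 9, 5, 13, 14,
    6, 12], [13, 4, 9, 15], [12, 4, 14, 16]]
  P := {
    a := 7
    N := 17
    nb := [898, 3725, 1554, 7170, 30308, 41488, 86032, 2307, 641, 33079, 4126, 4234, 68696, 49200,
      73808, 8736, 20544]
    tri := [(0, 1, 7), (0, 1, 9), (0, 7, 8), (0, 8, 9), (1, 2, 9), (1, 2, 10), (1, 3, 10), (1, 3, 11),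
      (1, 7, 11), (2, 4, 9), (2, 4, 10), (3, 10, 12), (3, 11, 12), (4, 5, 9), (4, 5, 13), (4, 6,
      12), (4, 6, 14), (4, 10, 12), (4, 13, 14), (5, 9, 15), (5, 13, 15), (6, 12, 16), (6, 14,
      16)]
    fin := [0, 0, 2, 2, 4, 2, 4, 0, 8, 2, 2, 11, 4, 4, 14, 15, 16]
    chd := [(0, 2), (2, 11)]
    steps := [(0, 1), (0, 7), (2, 9), (2, 5), (2, 10), (2, 3), (4, 6), (4, 13), (4, 12)] }
  rep := [2, 4, 11, 0, 14, 8, 15, 16]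

noncomputable def v2334 : Cov.CovD where
  P := 3
  N := 5
  pl := [1, 7, 8, 9]
  lev := [⟨[], [], [(0, 3)], [5], [(0, 3, [0]), (2, 0, [2, 3])]⟩,
    ⟨[], [(0, 0), (0, 2), (0, 3)], [(0, 0), (0, 2), (0, 3), (2, 3)], [], [(0, 3, [0]), (2,
      0, [2, 3]), (3, 0, [2, 3]), (4, 2, [0])]⟩,
    ⟨[(0, 1)], [(0, 0), (1, 0), (1, 2), (1, 3)], [(0, 0)], [], [(2, 0, [2, 3]), (3, 0, [2,
      3])]⟩,
    ⟨[(0, 1), (1, 2)], [(1, 0), (1, 1), (1, 2), (1, 3), (2, 0)], [(0, 1), (0, 2), (1, 2)],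
      [], [(3, 0, [2, 3]), (4, 2, [0]), (5, 1, [])]⟩,
    ⟨[(1, 2)], [(0, 0), (1, 0), (2, 0), (2, 1), (3, 0), (3, 1)], [(0, 0), (0, 1), (1, 1)],
      [4], [(2, 0, [2, 3]), (3, 0, [2, 3]), (5, 1, []), (6, 1, [])]⟩,
    ⟨[(2, 4)], [(0, 0), (1, 0), (2, 0), (4, 0), (4, 1)], [(0, 1)], [6], [(2, 0, [2, 3]),
      (6, 1, [])]⟩,
    ⟨[(2, 4), (4, 5)], [(3, 1), (4, 0), (4, 1)], [], [4, 7], [(5, 1, [])]⟩]
  Ta := [((2, 1), 0, 5), ((2, 8), 0, 6), ((3, 5), 0, 1), ((5, 3), 1, 0), ((5, 4), 1, 2), ((5, 9),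
    1, 7), ((6, 7), 1, 4), ((6, 8), 1, 6)]
  Tb := [((0, 1, 4), 3, 5, 2), ((1, 0, 2), 5, 3, 0), ((2, 1, 8), 0, 5, 6), ((4, 0, 5), 2, 3, 1),
    ((5, 3, 4), 1, 0, 2), ((5, 3, 9), 1, 0, 7), ((5, 4, 9), 1, 2, 7), ((6, 7, 8), 1, 4, 6),
    ((7, 6, 9), 4, 1, 7), ((8, 2, 6), 6, 0, 1), ((9, 5, 7), 7, 1, 4)]
  Tc := [(0, 2, 3)]
  Td := [((0, 2), (2, 1), 5), ((0, 2), (2, 8), 6), ((0, 2), (3, 5), 1), ((0, 3), (2, 1), 5), ((0,
    3), (2, 8), 6), ((0, 3), (3, 5), 1), ((2, 0), (4, 0), 3), ((2, 0), (4, 5), 1), ((3, 0),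
    (0, 1), 5), ((3, 0), (0, 4), 2)]
  G := [[0, 0, 0x9252c8252489288cc1, 0x92845241689252c8249252c1252419281cce,
    0x9252c1289252c8242419212c8ca1252c18281c2e], [0, 0, 0x9121c4482151c8843161c882e, 0,
    0x29cb8c124416822c5bcc823488782acc8aa244879c28c8c2e], [0, 0xccaaac648aa666ac42c1,
    0x52449288c9252c82a1, 0x9252c4289251c82852449288c4b,
    0x9252c8281152c18188c29252c829252c82a7], [0, 0, 0x26c53cc8226c5acc82c1, 0,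
    0x91825142682151c8282ace3cc822d]]

noncomputable def n2334 : Ent := ⟨e2334, noF, [], [], [(8, 15, [1685356702439545624007900436039642273970977273354372543760009633793, 0]), (16, 11, [1580044410770990308032078191911707142368668054796088592099353673729, 0])]⟩

def c2334 : PLift (Cov.check n2334.C.D v2334 = true) := ⟨by decide +kernel⟩

def b2334 : PLift (entF (fidx ts) 400 2334 n2334 = true) := ⟨by decide +kernel⟩

theorem g2334 : GoodF (fidx ts) 400 2334 := GoodF.ofV v2334 n2334 c2334.down b2334.down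

/-- 4744844:1915 -/
noncomputable def e2335 : SCfg where
  D := {
    a := 7
    L := 11
    kp := 8
    inn := [(0, 1), (1, 0), (1, 2), (1, 3), (2, 1), (2, 4), (3, 1), (4, 2), (4, 5), (4, 6), (5, 4), (6,
      4)]
    mix := [(0, 0), (0, 1), (0, 2), (1, 0), (1, 2), (1, 3), (1, 4), (2, 2), (2, 3), (3, 3), (3, 4), (3,
      5), (4, 2), (4, 3), (4, 6), (4, 7), (4, 8), (5, 2), (5, 6), (5, 9), (6, 7), (6, 8), (6, 10)]
    cl := [2, 6, 0, 0, 3, 5, 1, 4, 1, 7, 8]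
    chq := [(0, 2), (2, 0), (2, 5), (5, 2)]
    rng := [(0, 1), (0, 4), (1, 0), (1, 2), (2, 1), (2, 9), (3, 5), (3, 8), (4, 0), (4, 5), (5, 3), (5,
      4), (6, 7), (6, 9), (7, 6), (7, 10), (8, 3), (8, 10), (9, 2), (9, 6), (10, 7), (10, 8)]
    lev := [] }
  links := [[1, 7, 8, 9], [7, 0, 9, 2, 10, 3, 11], [10, 1, 9, 4], [11, 1, 10, 12], [10, 2, 9, 5, 13, 14,
    6, 15], [13, 4, 9, 16], [15, 4, 14, 17]]
  P := {
    a := 7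
    N := 18
    nb := [898, 3725, 1554, 7170, 58980, 74256, 180240, 2307, 641, 65847, 36894, 4234, 3080, 81968,
      139344, 132176, 8736, 49216]
    tri := [(0, 1, 7), (0, 1, 9), (0, 7, 8), (0, 8, 9), (1, 2, 9), (1, 2, 10), (1, 3, 10), (1, 3, 11),
      (1, 7, 11), (2, 4, 9), (2, 4, 10), (3, 10, 12), (3, 11, 12), (4, 5, 9), (4, 5, 13), (4, 6,
      14), (4, 6, 15), (4, 10, 15), (4, 13, 14), (5, 9, 16), (5, 13, 16), (6, 14, 17), (6, 15,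
      17)]
    fin := [0, 0, 2, 0, 4, 2, 4, 0, 8, 2, 2, 11, 12, 4, 14, 4, 16, 17]
    chd := [(0, 2), (0, 12)]
    steps := [(0, 1), (0, 3), (0, 7), (2, 9), (2, 5), (2, 10), (4, 6), (4, 13), (4, 15)] }
  rep := [2, 4, 0, 11, 14, 12, 8, 16, 17]

noncomputable def v2335 : Cov.CovD where
  P := 3
  N := 6
  pl := [1, 4, 7, 9, 10]
  lev := [⟨[], [], [(0, 2)], [6], [(0, 2, [0, 5]), (2, 0, [2])]⟩,
    ⟨[], [(0, 0), (0, 2)], [(0, 0), (0, 2)], [3], [(0, 2, [0, 5]), (2, 0, [2]), (3, 0,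
      [2])]⟩,
    ⟨[(0, 1)], [(0, 0), (1, 0), (1, 2)], [(0, 0)], [], [(2, 0, [2]), (3, 0, [2])]⟩,
    ⟨[(0, 1), (1, 2)], [(1, 0), (1, 2), (1, 5), (2, 0)], [(0, 5)], [3], [(3, 0, [2]), (5,
      5, [2])]⟩,
    ⟨[(1, 2)], [(0, 0), (1, 0), (2, 0), (2, 1), (3, 0)], [(0, 0), (0, 1), (1, 1)], [4],
      [(2, 0, [2]), (3, 0, [2]), (6, 1, []), (8, 1, [])]⟩,
    ⟨[(2, 4)], [(0, 0), (1, 0), (2, 0), (4, 0), (4, 1)], [(0, 1)], [7], [(2, 0, [2]), (6,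
      1, [])]⟩,
    ⟨[(2, 4), (4, 5)], [(4, 0), (4, 1)], [], [4, 8], [(8, 1, [])]⟩]
  Ta := [((2, 1), 0, 6), ((2, 9), 0, 7), ((3, 5), 0, 5), ((3, 8), 0, 1), ((6, 7), 1, 4), ((6, 9),
    1, 7), ((8, 3), 1, 0), ((8, 10), 1, 8)]
  Tb := [((0, 1, 4), 2, 6, 3), ((1, 0, 2), 6, 2, 0), ((2, 1, 9), 0, 6, 7), ((3, 5, 8), 0, 5, 1),
    ((4, 0, 5), 3, 2, 5), ((5, 3, 4), 5, 0, 3), ((6, 7, 9), 1, 4, 7), ((7, 6, 10), 4, 1, 8),
    ((8, 3, 10), 1, 0, 8), ((9, 2, 6), 7, 0, 1), ((10, 7, 8), 8, 4, 1)]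
  Tc := [(2, 0, 5)]
  Td := [((0, 2), (2, 1), 6), ((0, 2), (2, 9), 7), ((0, 2), (3, 5), 5), ((0, 2), (3, 8), 1), ((2,
    0), (0, 1), 6), ((2, 0), (0, 4), 3), ((2, 5), (0, 1), 6), ((2, 5), (0, 4), 3), ((5, 2),
    (5, 3), 0), ((5, 2), (5, 4), 3)]
  G := [[0, 0, 0x9121c12231a1c1846131c128e, 0x36c853c43263c436c832c22c5bcc1239c62cc22cc,
    0x27c52cc4229cb2cc12a69ca8c124416b44432ca8c4caa], [0, 0, 0x9251c1249151c1229151c128e,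
    0x9285243252429281cc92825241652492832cc, 0x9252c129252c42a5249285252419284caa], [0, 0,
    0x2151c1823161c1849121c148e, 0x62c3bcc26c53cca229c52cc29c52cc62c1,
    0x29c52cc39c62cc288e27452cc222c5bcc4aa1], [0, 0xaa666acaa666aca2c84eaac6ccaaac668c1,
    0x51419181a29251c1289151c124e, 0x9252c9252ca29252c9252c62c1,
    0x9252c9252c9252ce29252c42a1]]

noncomputable def n2335 : Ent := ⟨e2335, noF, [], [], [(8, 16, [7334685537875745012586738086077695515070955365108989538292687703224321, 0]), (17, 11, [6903326391201334778116932359625648306653620957400551096786542325256193, 0]), (15, 12, [7334790850167418167260058601771954260544355711131940943621308565020673, 0])]⟩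

def c2335 : PLift (Cov.check n2335.C.D v2335 = true) := ⟨by decide +kernel⟩

def b2335 : PLift (entF (fidx ts) 400 2335 n2335 = true) := ⟨by decide +kernel⟩

theorem g2335 : GoodF (fidx ts) 400 2335 := GoodF.ofV v2335 n2335 c2335.down b2335.down

/-- 4744744:1920/2 -/
noncomputable def e2336 : SCfg where
  D := {
    a := 7
    L := 8
    kp := 5
    inn := [(0, 1), (0, 4), (1, 0), (1, 2), (1, 3), (2, 1), (3, 1), (4, 0), (4, 5), (4, 6), (5, 4), (6,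
      4)]
    mix := [(0, 0), (0, 1), (1, 0), (1, 1), (1, 2), (1, 3), (2, 1), (2, 2), (2, 4), (3, 2), (3, 3), (3,
      5), (4, 0), (4, 1), (4, 6), (4, 7), (5, 5), (5, 6), (5, 7), (6, 1), (6, 4), (6, 7)]
    cl := [1, 0, 3, 0, 2, 4, 5, 1]
    chq := [(0, 3), (3, 0)]
    rng := [(0, 3), (0, 6), (1, 4), (2, 4), (2, 5), (3, 0), (3, 5), (4, 1), (4, 2), (4, 7), (5, 2), (5,
      3), (5, 6), (5, 7), (6, 0), (6, 5), (7, 4), (7, 5)]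
    lev := [] }
  links := [[1, 7, 4, 8], [7, 0, 8, 2, 9, 3, 10], [9, 1, 8, 11], [10, 1, 9, 12], [8, 0, 7, 13, 5, 14, 6],
    [14, 4, 13, 12], [8, 4, 14, 11]]
  P := {
    a := 7
    N := 15
    nb := [402, 1933, 2818, 5634, 25057, 28688, 18704, 9235, 2135, 6158, 4234, 17220, 26152, 4272,
      6256]
    tri := [(0, 1, 7), (0, 1, 8), (0, 4, 7), (0, 4, 8), (1, 2, 8), (1, 2, 9), (1, 3, 9), (1, 3, 10),
      (1, 7, 10), (2, 8, 11), (2, 9, 11), (3, 9, 12), (3, 10, 12), (4, 5, 13), (4, 5, 14), (4, 6,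
      8), (4, 6, 14), (4, 7, 13), (5, 12, 13), (5, 12, 14), (6, 8, 11), (6, 11, 14)]
    fin := [0, 1, 2, 3, 0, 0, 0, 0, 1, 9, 1, 2, 3, 13, 0]
    chd := [(1, 9)]
    steps := [(0, 4), (0, 5), (0, 6), (0, 7), (0, 14), (1, 8), (1, 10), (2, 11), (3, 12)] }
  rep := [1, 0, 2, 9, 3, 13]

noncomputable def v2336 : Cov.CovD where
  P := 3
  N := 3
  pl := [4, 5, 6]
  lev := [⟨[], [], [(0, 1)], [], [(0, 1, []), (1, 0, [3])]⟩,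
    ⟨[], [(0, 0), (0, 1), (0, 3)], [(0, 0), (0, 1), (0, 3), (1, 3)], [], [(0, 1, []), (1,
      0, [3]), (2, 3, [0]), (3, 0, [3])]⟩,
    ⟨[(0, 1)], [(0, 0), (1, 0), (1, 1), (1, 3)], [(0, 3)], [2], [(1, 0, [3]), (2, 3, [0])]⟩,
    ⟨[(0, 1), (1, 2)], [(1, 0), (1, 1), (1, 3), (2, 3)], [(0, 3)], [4], [(2, 3, [0]), (3,
      0, [3])]⟩,
    ⟨[(0, 1)], [(0, 0), (0, 1), (1, 0), (1, 1), (2, 0)], [(0, 1), (1, 1)], [5], [(0, 1,
      []), (1, 0, [3]), (7, 1, [])]⟩,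
    ⟨[(0, 4)], [(4, 0), (4, 1)], [], [4, 5], [(7, 1, [])]⟩,
    ⟨[(0, 4), (4, 5)], [(0, 0), (1, 0), (2, 0), (4, 0), (4, 1), (5, 1)], [(0, 1)], [2],
      [(1, 0, [3]), (7, 1, [])]⟩]
  Ta := [((0, 3), 1, 0), ((0, 6), 1, 5), ((1, 4), 0, 2), ((3, 0), 0, 1), ((3, 5), 0, 4), ((7, 4),
    1, 2), ((7, 5), 1, 4)]
  Tb := [((0, 3, 6), 1, 0, 5), ((2, 4, 5), 3, 2, 4), ((3, 0, 5), 0, 1, 4), ((4, 1, 2), 2, 0, 3),
    ((4, 1, 7), 2, 0, 1), ((4, 2, 7), 2, 3, 1), ((5, 2, 3), 4, 3, 0), ((5, 2, 6), 4, 3, 5),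
    ((5, 2, 7), 4, 3, 1), ((5, 3, 6), 4, 0, 5), ((5, 3, 7), 4, 0, 1), ((5, 6, 7), 4, 5, 1),
    ((6, 0, 5), 5, 1, 4), ((7, 4, 5), 1, 2, 4)]
  Tc := []
  Td := [((0, 3), (1, 4), 2), ((0, 3), (3, 0), 1), ((0, 3), (3, 5), 4), ((3, 0), (2, 4), 2), ((3,
    0), (2, 5), 4)]
  G := [[0, 0, 0x4281c1444182c188c, 0, 0x2182c2248182c188c], [0, 0, 0x489885c18445889c14c2,
    0x41484dc28449885c24c2, 0x8894224885889c1881822c8184c424e], [0,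
    0x818162124881c818181a41ca, 0, 0, 0x8284c282882c8284cc82225c2ac1], [0, 0, 0,
    0x489845c28449845c24c1, 0x1884c8114ca21881c8114cc1114c1811c6ac2]]

noncomputable def n2336 : Ent := ⟨e2336, noF, [], [], []⟩

def c2336 : PLift (Cov.check n2336.C.D v2336 = true) := ⟨by decide +kernel⟩

def b2336 : PLift (entF (fidx ts) 400 2336 n2336 = true) := ⟨by decide +kernel⟩

theorem g2336 : GoodF (fidx ts) 400 2336 := GoodF.ofV v2336 n2336 c2336.down b2336.down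

/-- 4744744:1920/1 -/
noncomputable def e2337 : SCfg where
  D := {
    a := 7
    L := 9
    kp := 6
    inn := [(0, 1), (0, 4), (1, 0), (1, 2), (1, 3), (2, 1), (3, 1), (4, 0), (4, 5), (4, 6), (5, 4), (6,
      4)]
    mix := [(0, 0), (0, 1), (1, 0), (1, 1), (1, 2), (1, 3), (2, 1), (2, 2), (2, 4), (3, 2), (3, 3), (3,
      5), (4, 0), (4, 1), (4, 6), (4, 7), (5, 5), (5, 6), (5, 7), (6, 1), (6, 7), (6, 8)]
    cl := [1, 0, 2, 0, 5, 3, 4, 1, 6]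
    chq := [(0, 2), (2, 0)]
    rng := [(0, 3), (0, 6), (1, 4), (1, 8), (2, 4), (2, 5), (3, 0), (3, 5), (4, 1), (4, 2), (5, 2), (5,
      3), (5, 6), (5, 7), (6, 0), (6, 5), (7, 5), (7, 8), (8, 1), (8, 7)]
    lev := [] }
  links := [[1, 7, 4, 8], [7, 0, 8, 2, 9, 3, 10], [9, 1, 8, 11], [10, 1, 9, 12], [8, 0, 7, 13, 5, 14, 6],
    [14, 4, 13, 12], [8, 4, 14, 15]]
  P := {
    a := 7
    N := 16
    nb := [402, 1933, 2818, 5634, 25057, 28688, 49424, 9235, 34903, 6158, 4234, 772, 26152, 4272,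
      36976, 16704]
    tri := [(0, 1, 7), (0, 1, 8), (0, 4, 7), (0, 4, 8), (1, 2, 8), (1, 2, 9), (1, 3, 9), (1, 3, 10),
      (1, 7, 10), (2, 8, 11), (2, 9, 11), (3, 9, 12), (3, 10, 12), (4, 5, 13), (4, 5, 14), (4, 6,
      8), (4, 6, 14), (4, 7, 13), (5, 12, 13), (5, 12, 14), (6, 8, 15), (6, 14, 15)]
    fin := [0, 1, 1, 3, 0, 0, 0, 0, 1, 9, 1, 11, 3, 13, 0, 15]
    chd := [(1, 9)]
    steps := [(0, 4), (0, 5), (0, 6), (0, 7), (0, 14), (1, 2), (1, 8), (1, 10), (3, 12)] }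
  rep := [1, 0, 9, 3, 13, 11, 15]

noncomputable def v2337 : Cov.CovD where
  P := 3
  N := 4
  pl := [4, 5, 6, 8]
  lev := [⟨[], [], [(0, 1)], [], [(0, 1, []), (1, 0, [2])]⟩,
    ⟨[], [(0, 0), (0, 1), (0, 2)], [(0, 0), (0, 1), (0, 2), (1, 2)], [], [(0, 1, []), (1,
      0, [2]), (2, 2, [0]), (3, 0, [2])]⟩,
    ⟨[(0, 1)], [(0, 0), (1, 0), (1, 1), (1, 2)], [(0, 2)], [5], [(1, 0, [2]), (2, 2, [0])]⟩,
    ⟨[(0, 1), (1, 2)], [(1, 0), (1, 1), (1, 2), (2, 2)], [(0, 2)], [3], [(2, 2, [0]), (3,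
      0, [2])]⟩,
    ⟨[(0, 1)], [(0, 0), (0, 1), (1, 0), (1, 1), (2, 0)], [(0, 1), (1, 1)], [4], [(0, 1,
      []), (1, 0, [2]), (7, 1, [])]⟩,
    ⟨[(0, 4)], [(4, 0), (4, 1)], [], [3, 4], [(7, 1, [])]⟩,
    ⟨[(0, 4), (4, 5)], [(0, 0), (1, 0), (2, 0), (4, 0), (4, 1), (5, 1)], [(0, 1)], [6],
      [(1, 0, [2]), (7, 1, [])]⟩]
  Ta := [((0, 3), 1, 0), ((0, 6), 1, 4), ((1, 4), 0, 5), ((1, 8), 0, 6), ((3, 0), 0, 1), ((3, 5),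
    0, 3), ((7, 5), 1, 3), ((7, 8), 1, 6)]
  Tb := [((0, 3, 6), 1, 0, 4), ((1, 4, 8), 0, 5, 6), ((2, 4, 5), 2, 5, 3), ((3, 0, 5), 0, 1, 3),
    ((4, 1, 2), 5, 0, 2), ((5, 2, 3), 3, 2, 0), ((5, 2, 6), 3, 2, 4), ((5, 2, 7), 3, 2, 1),
    ((5, 3, 6), 3, 0, 4), ((5, 3, 7), 3, 0, 1), ((5, 6, 7), 3, 4, 1), ((6, 0, 5), 4, 1, 3),
    ((7, 5, 8), 1, 3, 6), ((8, 1, 7), 6, 0, 1)]
  Tc := []
  Td := [((0, 2), (1, 4), 5), ((0, 2), (1, 8), 6), ((0, 2), (3, 0), 1), ((0, 2), (3, 5), 3), ((2,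
    0), (2, 4), 5), ((2, 0), (2, 5), 3)]
  G := [[0, 0, 0x2112c21221c2a84, 0xc221c1c221c1c84, 0xc221c2c221c2a84], [0, 0,
    0x1811c1114cc1811c1114cac42, 0xcc5cc9c14884c588cdc9c82, 0x4c5c8cdc144cd88cdc1a82], [0,
    0x61a1cc1a1ac184, 0x1221c21221c2684, 0x2142124cc14288814c, 0x4242182ca823c218c], [0, 0,
    0x1811c1114cc1811c1114cac42, 0x188441c184498c144c5845ccd42,
    0x1811c8821114c21811c1114caa86]]

noncomputable def n2337 : Ent := ⟨e2337, noF, [], [], [(15, 11, [360035742632133418888619945503597441924448419398891365941248001, 0])]⟩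

def c2337 : PLift (Cov.check n2337.C.D v2337 = true) := ⟨by decide +kernel⟩

def b2337 : PLift (entF (fidx ts) 400 2337 n2337 = true) := ⟨by decide +kernel⟩

theorem g2337 : GoodF (fidx ts) 400 2337 := GoodF.ofV v2337 n2337 c2337.down b2337.down

/-- 4744744:1920/3 -/
noncomputable def e2338 : SCfg where
  D := {
    a := 7
    L := 9
    kp := 7
    inn := [(0, 1), (0, 4), (1, 0), (1, 2), (1, 3), (2, 1), (3, 1), (4, 0), (4, 5), (4, 6), (5, 4), (6,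
      4)]
    mix := [(0, 0), (0, 1), (1, 0), (1, 1), (1, 2), (1, 3), (2, 1), (2, 2), (2, 4), (3, 2), (3, 3), (3,
      5), (4, 0), (4, 1), (4, 6), (4, 7), (5, 6), (5, 7), (5, 8), (6, 1), (6, 4), (6, 7)]
    cl := [0, 0, 3, 1, 2, 6, 5, 4, 7]
    chq := [(0, 3), (0, 4), (0, 6), (0, 7), (3, 0), (4, 0), (6, 0), (7, 0)]
    rng := [(0, 3), (0, 6), (1, 4), (2, 4), (2, 5), (3, 0), (3, 5), (4, 1), (4, 2), (4, 7), (5, 2), (5,
      3), (6, 0), (6, 8), (7, 4), (7, 8), (8, 6), (8, 7)]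
    lev := [] }
  links := [[1, 7, 4, 8], [7, 0, 8, 2, 9, 3, 10], [9, 1, 8, 11], [10, 1, 9, 12], [8, 0, 7, 13, 5, 14, 6],
    [14, 4, 13, 15], [8, 4, 14, 11]]
  P := {
    a := 7
    N := 16
    nb := [402, 1933, 2818, 5634, 25057, 57360, 18704, 9235, 2135, 6158, 4234, 17220, 1544, 32944,
      34928, 24608]
    tri := [(0, 1, 7), (0, 1, 8), (0, 4, 7), (0, 4, 8), (1, 2, 8), (1, 2, 9), (1, 3, 9), (1, 3, 10),
      (1, 7, 10), (2, 8, 11), (2, 9, 11), (3, 9, 12), (3, 10, 12), (4, 5, 13), (4, 5, 14), (4, 6,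
      8), (4, 6, 14), (4, 7, 13), (5, 13, 15), (5, 14, 15), (6, 8, 11), (6, 11, 14)]
    fin := [0, 0, 0, 0, 0, 0, 0, 0, 0, 9, 10, 11, 12, 13, 14, 15]
    chd := [(0, 9), (0, 12), (0, 14), (0, 15)]
    steps := [(0, 1), (0, 2), (0, 3), (0, 4), (0, 5), (0, 7), (0, 8), (0, 6)] }
  rep := [0, 10, 11, 9, 14, 13, 12, 15]

noncomputable def v2338 : Cov.CovD where
  P := 3
  N := 5
  pl := [3, 4, 6]
  lev := [⟨[], [], [(0, 0)], [], [(0, 0, [3, 4, 6, 7]), (1, 0, [3, 4, 6, 7])]⟩,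
    ⟨[], [(0, 0), (0, 3)], [(0, 0), (0, 3)], [1], [(0, 0, [3, 4, 6, 7]), (1, 0, [3, 4, 6,
      7]), (2, 3, [0])]⟩,
    ⟨[(0, 1)], [(0, 0), (1, 0), (1, 3)], [(0, 3)], [2], [(1, 0, [3, 4, 6, 7]), (2, 3,
      [0])]⟩,
    ⟨[(0, 1), (1, 2)], [(1, 0), (1, 3), (1, 6), (2, 3)], [(3, 6)], [1], [(2, 3, [0]), (5,
      6, [0])]⟩,
    ⟨[(0, 1)], [(0, 0), (0, 4), (1, 0), (2, 0)], [(0, 0), (0, 4)], [5], [(0, 0, [3, 4, 6,
      7]), (1, 0, [3, 4, 6, 7]), (7, 4, [0])]⟩,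
    ⟨[(0, 4)], [(4, 0), (4, 4), (4, 7)], [(4, 7)], [5], [(7, 4, [0]), (8, 7, [0])]⟩,
    ⟨[(0, 4), (4, 5)], [(0, 0), (1, 0), (2, 0), (4, 0), (4, 4), (5, 4)], [(0, 4)], [2],
      [(1, 0, [3, 4, 6, 7]), (7, 4, [0])]⟩]
  Ta := [((0, 3), 0, 1), ((0, 6), 0, 5), ((1, 4), 0, 2)]
  Tb := [((0, 3, 6), 0, 1, 5), ((2, 4, 5), 3, 2, 6), ((3, 0, 5), 1, 0, 6), ((4, 1, 2), 2, 0, 3),
    ((4, 1, 7), 2, 0, 4), ((4, 2, 7), 2, 3, 4), ((5, 2, 3), 6, 3, 1), ((6, 0, 8), 5, 0, 7),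
    ((7, 4, 8), 4, 2, 7), ((8, 6, 7), 7, 5, 4)]
  Tc := [(0, 3, 4), (0, 3, 6), (0, 3, 7), (0, 4, 6), (0, 4, 7), (0, 6, 7)]
  Td := [((0, 3), (0, 3), 1), ((0, 3), (0, 6), 5), ((0, 3), (1, 4), 2), ((0, 4), (0, 3), 1), ((0,
    4), (0, 6), 5), ((0, 4), (1, 4), 2), ((0, 6), (0, 3), 1), ((0, 6), (0, 6), 5), ((0, 6),
    (1, 4), 2), ((0, 7), (0, 3), 1), ((0, 7), (0, 6), 5), ((0, 7), (1, 4), 2), ((3, 0), (2,
    4), 2), ((3, 0), (2, 5), 6), ((4, 0), (7, 4), 2), ((4, 0), (7, 8), 7), ((6, 0), (5, 2),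
    3), ((6, 0), (5, 3), 1), ((7, 0), (8, 6), 5), ((7, 0), (8, 7), 4)]
  G := [[0, 0x41421281c1a2128141c1e818141c1e41ce, 0, 0x118b114711e18118b144711e14c2,
    0x189121791e181121228b8a2afc13c2], [0, 0, 0x614121e1448141c1e188a,
    0x8141c1e188141c1e14c2, 0xa1412481a121e188121a12cc]]

noncomputable def n2338 : Ent := ⟨e2338, noF, [], [], [(15, 12, [360035747228123463809659675990397950106674496442981057568047105, 0])]⟩

def c2338 : PLift (Cov.check n2338.C.D v2338 = true) := ⟨by decide +kernel⟩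

def b2338 : PLift (entF (fidx ts) 400 2338 n2338 = true) := ⟨by decide +kernel⟩

theorem g2338 : GoodF (fidx ts) 400 2338 := GoodF.ofV v2338 n2338 c2338.down b2338.down

/-- 4744744:1920 -/
noncomputable def e2339 : SCfg where
  D := {
    a := 7
    L := 10
    kp := 8
    inn := [(0, 1), (0, 4), (1, 0), (1, 2), (1, 3), (2, 1), (3, 1), (4, 0), (4, 5), (4, 6), (5, 4), (6,
      4)]
    mix := [(0, 0), (0, 1), (1, 0), (1, 1), (1, 2), (1, 3), (2, 1), (2, 2), (2, 4), (3, 2), (3, 3), (3,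
      5), (4, 0), (4, 1), (4, 6), (4, 7), (5, 6), (5, 7), (5, 8), (6, 1), (6, 7), (6, 9)]
    cl := [0, 0, 1, 2, 7, 5, 4, 3, 6, 8]
    chq := [(0, 1), (0, 3), (0, 5), (0, 6), (1, 0), (3, 0), (5, 0), (6, 0)]
    rng := [(0, 3), (0, 6), (1, 4), (1, 9), (2, 4), (2, 5), (3, 0), (3, 5), (4, 1), (4, 2), (5, 2), (5,
      3), (6, 0), (6, 8), (7, 8), (7, 9), (8, 6), (8, 7), (9, 1), (9, 7)]
    lev := [] }
  links := [[1, 7, 4, 8], [7, 0, 8, 2, 9, 3, 10], [9, 1, 8, 11], [10, 1, 9, 12], [8, 0, 7, 13, 5, 14, 6],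
    [14, 4, 13, 15], [8, 4, 14, 16]]
  P := {
    a := 7
    N := 17
    nb := [402, 1933, 2818, 5634, 25057, 57360, 82192, 9235, 67671, 6158, 4234, 772, 1544, 32944,
      98416, 24608, 16704]
    tri := [(0, 1, 7), (0, 1, 8), (0, 4, 7), (0, 4, 8), (1, 2, 8), (1, 2, 9), (1, 3, 9), (1, 3, 10),
      (1, 7, 10), (2, 8, 11), (2, 9, 11), (3, 9, 12), (3, 10, 12), (4, 5, 13), (4, 5, 14), (4, 6,
      8), (4, 6, 14), (4, 7, 13), (5, 13, 15), (5, 14, 15), (6, 8, 16), (6, 14, 16)]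
    fin := [0, 0, 0, 0, 0, 0, 0, 0, 0, 9, 10, 11, 12, 13, 14, 15, 16]
    chd := [(0, 9), (0, 12), (0, 14), (0, 15)]
    steps := [(0, 1), (0, 2), (0, 3), (0, 4), (0, 5), (0, 6), (0, 7), (0, 8)] }
  rep := [0, 9, 10, 14, 13, 12, 15, 11, 16]

noncomputable def v2339 : Cov.CovD where
  P := 3
  N := 6
  pl := [3, 4, 6, 9]
  lev := [⟨[], [], [(0, 0)], [], [(0, 0, [1, 3, 5, 6]), (1, 0, [1, 3, 5, 6])]⟩,
    ⟨[], [(0, 0), (0, 1)], [(0, 0), (0, 1)], [2], [(0, 0, [1, 3, 5, 6]), (1, 0, [1, 3, 5,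
      6]), (2, 1, [0])]⟩,
    ⟨[(0, 1)], [(0, 0), (1, 0), (1, 1)], [(0, 1)], [7], [(1, 0, [1, 3, 5, 6]), (2, 1,
      [0])]⟩,
    ⟨[(0, 1), (1, 2)], [(1, 0), (1, 1), (1, 5), (2, 1)], [(1, 5)], [2], [(2, 1, [0]), (5,
      5, [0])]⟩,
    ⟨[(0, 1)], [(0, 0), (0, 3), (1, 0), (2, 0)], [(0, 0), (0, 3)], [4], [(0, 0, [1, 3, 5,
      6]), (1, 0, [1, 3, 5, 6]), (7, 3, [0])]⟩,
    ⟨[(0, 4)], [(4, 0), (4, 3), (4, 6)], [(3, 6)], [4], [(7, 3, [0]), (8, 6, [0])]⟩,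
    ⟨[(0, 4), (4, 5)], [(0, 0), (1, 0), (2, 0), (4, 0), (4, 3), (5, 3)], [(0, 3)], [8],
      [(1, 0, [1, 3, 5, 6]), (7, 3, [0])]⟩]
  Ta := [((0, 3), 0, 2), ((0, 6), 0, 4), ((1, 4), 0, 7), ((1, 9), 0, 8)]
  Tb := [((0, 3, 6), 0, 2, 4), ((1, 4, 9), 0, 7, 8), ((2, 4, 5), 1, 7, 5), ((3, 0, 5), 2, 0, 5),
    ((4, 1, 2), 7, 0, 1), ((5, 2, 3), 5, 1, 2), ((6, 0, 8), 4, 0, 6), ((7, 8, 9), 3, 6, 8),
    ((8, 6, 7), 6, 4, 3), ((9, 1, 7), 8, 0, 3)]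
  Tc := [(0, 1, 3), (0, 1, 5), (0, 1, 6), (0, 3, 5), (0, 3, 6), (0, 5, 6)]
  Td := [((0, 1), (0, 3), 2), ((0, 1), (0, 6), 4), ((0, 1), (1, 4), 7), ((0, 1), (1, 9), 8), ((0,
    3), (0, 3), 2), ((0, 3), (0, 6), 4), ((0, 3), (1, 4), 7), ((0, 3), (1, 9), 8), ((0, 5),
    (0, 3), 2), ((0, 5), (0, 6), 4), ((0, 5), (1, 4), 7), ((0, 5), (1, 9), 8), ((0, 6), (0,
    3), 2), ((0, 6), (0, 6), 4), ((0, 6), (1, 4), 7), ((0, 6), (1, 9), 8), ((1, 0), (2, 4),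
    7), ((1, 0), (2, 5), 5), ((3, 0), (7, 8), 6), ((3, 0), (7, 9), 8), ((5, 0), (5, 2), 1),
    ((5, 0), (5, 3), 2), ((6, 0), (8, 6), 4), ((6, 0), (8, 7), 3)]
  G := [[0, 0x111111e1111111e1642, 0x111111e114ce1e1a458111111e114c846,
    0x181112e1181112e1ce56e5a1d84, 0x115b113791e111eb16d711e1c82], [0, 0x111111e1111111e1c84,
    0, 0xe1214e1218ce1e1c1e1e1c1c86, 0x2121e1e1a1c8e1e1c1e1e141c86]]

noncomputable def n2339 : Ent := ⟨e2339, noF, [], [], [(15, 12, [1685356702444143110630498102614717315052428200905228761126560468993, 0]), (16, 11, [1580044410770990308032078191911707142368668054796088592099353698305, 0])]⟩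

def c2339 : PLift (Cov.check n2339.C.D v2339 = true) := ⟨by decide +kernel⟩

def b2339 : PLift (entF (fidx ts) 400 2339 n2339 = true) := ⟨by decide +kernel⟩

theorem g2339 : GoodF (fidx ts) 400 2339 := GoodF.ofV v2339 n2339 c2339.down b2339.down

/-- 4744746:1921/3 -/
noncomputable def e2340 : SCfg where
  D := {
    a := 7
    L := 8
    kp := 6
    inn := [(0, 1), (0, 4), (1, 0), (1, 2), (1, 3), (2, 1), (3, 1), (4, 0), (4, 5), (4, 6), (5, 4), (5,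
      6), (6, 4), (6, 5)]
    mix := [(0, 0), (0, 1), (1, 0), (1, 1), (1, 2), (1, 3), (2, 1), (2, 2), (2, 4), (3, 2), (3, 3), (3,
      5), (4, 0), (4, 1), (4, 4), (4, 6), (5, 6), (5, 7), (6, 0), (6, 3), (6, 5), (6, 7)]
    cl := [0, 0, 3, 1, 2, 4, 6, 5]
    chq := [(0, 3), (0, 4), (1, 2), (2, 1), (2, 4), (2, 5), (3, 0), (4, 0), (4, 2), (5, 2)]
    rng := [(0, 3), (1, 4), (2, 4), (2, 5), (3, 0), (3, 5), (4, 1), (4, 2), (4, 6), (5, 2), (5, 3), (5,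
      7), (6, 4), (6, 7), (7, 5), (7, 6)]
    lev := [] }
  links := [[1, 7, 4, 8], [7, 0, 8, 2, 9, 3, 10], [9, 1, 8, 11], [10, 1, 9, 12], [8, 0, 7, 6, 5, 13, 11],
    [13, 4, 6, 14], [14, 5, 4, 7, 10, 12]]
  P := {
    a := 7
    N := 15
    nb := [402, 1933, 2818, 5634, 10721, 24656, 21680, 1107, 2071, 6158, 4298, 8980, 17992, 18480,
      12384]
    tri := [(0, 1, 7), (0, 1, 8), (0, 4, 7), (0, 4, 8), (1, 2, 8), (1, 2, 9), (1, 3, 9), (1, 3, 10),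
      (1, 7, 10), (2, 8, 11), (2, 9, 11), (3, 9, 12), (3, 10, 12), (4, 5, 6), (4, 5, 13), (4, 6,
      7), (4, 8, 11), (4, 11, 13), (5, 6, 14), (5, 13, 14), (6, 7, 10), (6, 10, 12), (6, 12, 14)]
    fin := [0, 0, 0, 0, 4, 5, 4, 0, 0, 9, 10, 4, 12, 13, 5]
    chd := [(0, 9), (0, 12), (4, 5), (4, 12), (10, 4)]
    steps := [(0, 1), (0, 2), (0, 3), (0, 7), (0, 8), (4, 6), (4, 11), (5, 14)] }
  rep := [0, 10, 4, 9, 12, 5, 13]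

noncomputable def v2340 : Cov.CovD where
  P := 3
  N := 4
  pl := [6]
  lev := [⟨[], [], [(0, 0)], [], [(0, 0, [3, 4]), (1, 0, [3, 4])]⟩,
    ⟨[], [(0, 0), (0, 1), (0, 3)], [(0, 0), (0, 1), (0, 3), (1, 3)], [], [(0, 0, [3, 4]),
      (1, 0, [3, 4]), (2, 3, [0]), (3, 1, [2])]⟩,
    ⟨[(0, 1)], [(0, 0), (1, 0), (1, 1), (1, 2), (1, 3)], [(0, 2), (0, 3), (2, 3)], [], [(1,
      0, [3, 4]), (2, 3, [0]), (4, 2, [1, 4, 5])]⟩,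
    ⟨[(0, 1), (1, 2)], [(1, 0), (1, 1), (1, 3), (1, 4), (2, 3)], [(1, 3), (1, 4), (3, 4)],
      [], [(2, 3, [0]), (3, 1, [2]), (5, 4, [0, 2])]⟩,
    ⟨[(0, 1)], [(0, 0), (0, 2), (1, 0), (2, 0), (2, 2)], [(0, 0), (0, 2)], [6], [(0, 0, [3,
      4]), (1, 0, [3, 4]), (4, 2, [1, 4, 5])]⟩,
    ⟨[(0, 4)], [(4, 0), (4, 2), (4, 5)], [], [6], [(7, 5, [2])]⟩,
    ⟨[(0, 4), (4, 5)], [(0, 0), (1, 0), (1, 1), (3, 1), (3, 4), (4, 0), (4, 1), (4, 2), (4,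
      4), (4, 5), (5, 0), (5, 1), (5, 4), (5, 5)], [(0, 1), (0, 4), (0, 5), (1, 4), (1, 5),
      (4, 5)], [], [(0, 0, [3, 4]), (3, 1, [2]), (5, 4, [0, 2]), (7, 5, [2])]⟩]
  Ta := [((0, 3), 0, 1), ((1, 4), 0, 2)]
  Tb := [((2, 4, 5), 3, 2, 4), ((3, 0, 5), 1, 0, 4), ((4, 1, 2), 2, 0, 3), ((4, 1, 6), 2, 0, 6),
    ((4, 2, 6), 2, 3, 6), ((5, 2, 3), 4, 3, 1), ((5, 2, 7), 4, 3, 5), ((5, 3, 7), 4, 1, 5),
    ((6, 4, 7), 6, 2, 5), ((7, 5, 6), 5, 4, 6)]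
  Tc := [(0, 3, 4), (2, 1, 4), (2, 1, 5), (2, 4, 5), (4, 0, 2)]
  Td := [((0, 3), (0, 3), 1), ((0, 3), (1, 4), 2), ((0, 4), (0, 3), 1), ((0, 4), (1, 4), 2), ((1,
    2), (3, 0), 0), ((1, 2), (3, 5), 4), ((2, 1), (4, 1), 0), ((2, 1), (4, 2), 3), ((2, 1),
    (4, 6), 6), ((2, 4), (4, 1), 0), ((2, 4), (4, 2), 3), ((2, 4), (4, 6), 6), ((2, 5), (4,
    1), 0), ((2, 5), (4, 2), 3), ((2, 5), (4, 6), 6), ((3, 0), (2, 4), 2), ((3, 0), (2, 5),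
    4), ((4, 0), (5, 2), 3), ((4, 0), (5, 3), 1), ((4, 0), (5, 7), 5), ((4, 2), (5, 2), 3),
    ((4, 2), (5, 3), 1), ((4, 2), (5, 7), 5), ((5, 2), (7, 5), 4), ((5, 2), (7, 6), 6)]
  G := [[0, 0x423e2c41223226c216229225c818a, 0, 0x229225c12229225c14c2, 0x45c443a18449443a11c4],
    [0, 0, 0x11a116c1811a116c14c2, 0xd2225c18229225c14c2, 0x449443a18449443a12c4]]

noncomputable def n2340 : Ent := ⟨e2340, noF, [], [], []⟩

def c2340 : PLift (Cov.check n2340.C.D v2340 = true) := ⟨by decide +kernel⟩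

def b2340 : PLift (entF (fidx ts) 400 2340 n2340 = true) := ⟨by decide +kernel⟩

theorem g2340 : GoodF (fidx ts) 400 2340 := GoodF.ofV v2340 n2340 c2340.down b2340.down

/-- 4744746:1921/2 -/
noncomputable def e2341 : SCfg where
  D := {
    a := 7
    L := 9
    kp := 7
    inn := [(0, 1), (0, 4), (1, 0), (1, 2), (1, 3), (2, 1), (3, 1), (4, 0), (4, 5), (4, 6), (5, 4), (5,
      6), (6, 4), (6, 5)]
    mix := [(0, 0), (0, 1), (1, 0), (1, 1), (1, 2), (1, 3), (2, 1), (2, 2), (2, 4), (3, 2), (3, 3), (3,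
      5), (4, 0), (4, 1), (4, 6), (4, 7), (5, 6), (5, 8), (6, 0), (6, 3), (6, 5), (6, 8)]
    cl := [0, 0, 1, 2, 7, 3, 5, 6, 4]
    chq := [(0, 1), (0, 3), (1, 0), (2, 6), (3, 0), (3, 6), (4, 6), (6, 2), (6, 3), (6, 4)]
    rng := [(0, 3), (1, 4), (1, 7), (2, 4), (2, 5), (3, 0), (3, 5), (4, 1), (4, 2), (5, 2), (5, 3), (5,
      8), (6, 7), (6, 8), (7, 1), (7, 6), (8, 5), (8, 6)]
    lev := [] }
  links := [[1, 7, 4, 8], [7, 0, 8, 2, 9, 3, 10], [9, 1, 8, 11], [10, 1, 9, 12], [8, 0, 7, 6, 5, 13, 14],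
    [13, 4, 6, 15], [15, 5, 4, 7, 10, 12]]
  P := {
    a := 7
    N := 16
    nb := [402, 1933, 2818, 5634, 25057, 41040, 38064, 1107, 18455, 6158, 4298, 772, 34376, 49200,
      8464, 12384]
    tri := [(0, 1, 7), (0, 1, 8), (0, 4, 7), (0, 4, 8), (1, 2, 8), (1, 2, 9), (1, 3, 9), (1, 3, 10),
      (1, 7, 10), (2, 8, 11), (2, 9, 11), (3, 9, 12), (3, 10, 12), (4, 5, 6), (4, 5, 13), (4, 6,
      7), (4, 8, 14), (4, 13, 14), (5, 6, 15), (5, 13, 15), (6, 7, 10), (6, 10, 12), (6, 12, 15)]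
    fin := [0, 0, 0, 0, 4, 5, 4, 0, 0, 9, 10, 11, 12, 13, 4, 5]
    chd := [(0, 9), (0, 12), (4, 5), (10, 4), (12, 4)]
    steps := [(0, 1), (0, 2), (0, 3), (0, 7), (0, 8), (4, 6), (4, 14), (5, 15)] }
  rep := [0, 9, 10, 12, 5, 13, 4, 11]

noncomputable def v2341 : Cov.CovD where
  P := 3
  N := 5
  pl := [4, 6]
  lev := [⟨[], [], [(0, 0)], [], [(0, 0, [1, 3]), (1, 0, [1, 3])]⟩,
    ⟨[], [(0, 0), (0, 1), (0, 2)], [(0, 0), (0, 1), (0, 2), (1, 2)], [], [(0, 0, [1, 3]),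
      (1, 0, [1, 3]), (2, 1, [0]), (3, 2, [6])]⟩,
    ⟨[(0, 1)], [(0, 0), (1, 0), (1, 1), (1, 2)], [(0, 1)], [7], [(1, 0, [1, 3]), (2, 1,
      [0])]⟩,
    ⟨[(0, 1), (1, 2)], [(1, 0), (1, 1), (1, 2), (1, 3), (2, 1)], [(1, 2), (1, 3), (2, 3)],
      [], [(2, 1, [0]), (3, 2, [6]), (5, 3, [0, 6])]⟩,
    ⟨[(0, 1)], [(0, 0), (0, 6), (1, 0), (2, 0)], [(0, 0), (0, 6)], [5], [(0, 0, [1, 3]),
      (1, 0, [1, 3]), (7, 6, [2, 3, 4])]⟩,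
    ⟨[(0, 4)], [(4, 0), (4, 4), (4, 6)], [], [5], [(8, 4, [6])]⟩,
    ⟨[(0, 4), (4, 5)], [(0, 0), (1, 0), (1, 2), (3, 2), (3, 3), (4, 0), (4, 2), (4, 3), (4,
      4), (4, 6), (5, 0), (5, 2), (5, 3), (5, 4)], [(0, 2), (0, 3), (0, 4), (2, 3), (2, 4),
      (3, 4)], [], [(0, 0, [1, 3]), (3, 2, [6]), (5, 3, [0, 6]), (8, 4, [6])]⟩]
  Ta := [((0, 3), 0, 2), ((1, 4), 0, 7), ((1, 7), 0, 6)]
  Tb := [((1, 4, 7), 0, 7, 6), ((2, 4, 5), 1, 7, 3), ((3, 0, 5), 2, 0, 3), ((4, 1, 2), 7, 0, 1),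
    ((5, 2, 3), 3, 1, 2), ((5, 2, 8), 3, 1, 4), ((5, 3, 8), 3, 2, 4), ((6, 7, 8), 5, 6, 4),
    ((7, 1, 6), 6, 0, 5), ((8, 5, 6), 4, 3, 5)]
  Tc := [(0, 1, 3), (3, 0, 6), (6, 2, 3), (6, 2, 4), (6, 3, 4)]
  Td := [((0, 1), (0, 3), 2), ((0, 1), (1, 4), 7), ((0, 1), (1, 7), 6), ((0, 3), (0, 3), 2), ((0,
    3), (1, 4), 7), ((0, 3), (1, 7), 6), ((1, 0), (2, 4), 7), ((1, 0), (2, 5), 3), ((2, 6),
    (3, 0), 0), ((2, 6), (3, 5), 3), ((3, 0), (5, 2), 1), ((3, 0), (5, 3), 2), ((3, 0), (5,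
    8), 4), ((3, 6), (5, 2), 1), ((3, 6), (5, 3), 2), ((3, 6), (5, 8), 4), ((4, 6), (8, 5),
    3), ((4, 6), (8, 6), 5), ((6, 2), (7, 1), 0), ((6, 2), (7, 6), 5), ((6, 3), (7, 1), 0),
    ((6, 3), (7, 6), 5), ((6, 4), (7, 1), 0), ((6, 4), (7, 6), 5)]
  G := [[0, 0x465982dc58ee146588adddce1a48, 0x229828d88e44676244ec182, 0x666d8a9cc87e1184,
    0x663aaaecc9e1182], [0, 0x465d29cd8de14658aadd44ee1c48, 0,
    0x7154fa1878cce15d69da8c4de1c82, 0x732d82a1d87e13b2d82a3987e1c84]]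

noncomputable def n2341 : Ent := ⟨e2341, noF, [], [], [(14, 11, [385746751339903118878134627833995900247628298846384132575084545, 0])]⟩

def c2341 : PLift (Cov.check n2341.C.D v2341 = true) := ⟨by decide +kernel⟩

def b2341 : PLift (entF (fidx ts) 400 2341 n2341 = true) := ⟨by decide +kernel⟩

theorem g2341 : GoodF (fidx ts) 400 2341 := GoodF.ofV v2341 n2341 c2341.down b2341.down

/-- 4744746:1921/4 -/
noncomputable def e2342 : SCfg where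
  D := {
    a := 7
    L := 9
    kp := 7
    inn := [(0, 1), (0, 4), (1, 0), (1, 2), (1, 3), (2, 1), (3, 1), (4, 0), (4, 5), (4, 6), (5, 4), (5,
      6), (6, 4), (6, 5)]
    mix := [(0, 0), (0, 1), (1, 0), (1, 1), (1, 2), (1, 3), (2, 1), (2, 2), (2, 4), (3, 2), (3, 3), (3,
      5), (4, 0), (4, 1), (4, 4), (4, 6), (5, 6), (5, 7), (6, 0), (6, 3), (6, 7), (6, 8)]
    cl := [0, 0, 3, 1, 2, 6, 5, 4, 7]
    chq := [(0, 3), (0, 6), (1, 2), (2, 1), (2, 4), (2, 7), (3, 0), (4, 2), (6, 0), (7, 2)]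
    rng := [(0, 3), (1, 4), (2, 4), (2, 5), (3, 0), (3, 5), (3, 8), (4, 1), (4, 2), (4, 6), (5, 2), (5,
      3), (6, 4), (6, 7), (7, 6), (7, 8), (8, 3), (8, 7)]
    lev := [] }
  links := [[1, 7, 4, 8], [7, 0, 8, 2, 9, 3, 10], [9, 1, 8, 11], [10, 1, 9, 12], [8, 0, 7, 6, 5, 13, 11],
    [13, 4, 6, 14], [14, 5, 4, 7, 10, 15]]
  P := {
    a := 7
    N := 16
    nb := [402, 1933, 2818, 5634, 10721, 24656, 50352, 1107, 2071, 6158, 37066, 8980, 1544, 18480,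
      41056, 17472]
    tri := [(0, 1, 7), (0, 1, 8), (0, 4, 7), (0, 4, 8), (1, 2, 8), (1, 2, 9), (1, 3, 9), (1, 3, 10),
      (1, 7, 10), (2, 8, 11), (2, 9, 11), (3, 9, 12), (3, 10, 12), (4, 5, 6), (4, 5, 13), (4, 6,
      7), (4, 8, 11), (4, 11, 13), (5, 6, 14), (5, 13, 14), (6, 7, 10), (6, 10, 15), (6, 14, 15)]
    fin := [0, 0, 0, 0, 4, 5, 4, 0, 0, 9, 10, 4, 12, 13, 5, 15]
    chd := [(0, 9), (0, 12), (4, 5), (4, 15), (10, 4)]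
    steps := [(0, 1), (0, 2), (0, 3), (0, 7), (0, 8), (4, 6), (4, 11), (5, 14)] }
  rep := [0, 10, 4, 9, 5, 13, 12, 15]

noncomputable def v2342 : Cov.CovD where
  P := 3
  N := 5
  pl := [6]
  lev := [⟨[], [], [(0, 0)], [], [(0, 0, [3, 6]), (1, 0, [3, 6])]⟩,
    ⟨[], [(0, 0), (0, 1), (0, 3)], [(0, 0), (0, 1), (0, 3), (1, 3)], [], [(0, 0, [3, 6]),
      (1, 0, [3, 6]), (2, 3, [0]), (3, 1, [2])]⟩,
    ⟨[(0, 1)], [(0, 0), (1, 0), (1, 1), (1, 2), (1, 3)], [(0, 2), (0, 3), (2, 3)], [], [(1,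
      0, [3, 6]), (2, 3, [0]), (4, 2, [1, 4, 7])]⟩,
    ⟨[(0, 1), (1, 2)], [(1, 0), (1, 1), (1, 3), (1, 6), (2, 3)], [(1, 3), (1, 6), (3, 6)],
      [], [(2, 3, [0]), (3, 1, [2]), (5, 6, [0])]⟩,
    ⟨[(0, 1)], [(0, 0), (0, 2), (1, 0), (2, 0), (2, 2)], [(0, 0), (0, 2)], [5], [(0, 0, [3,
      6]), (1, 0, [3, 6]), (4, 2, [1, 4, 7])]⟩,
    ⟨[(0, 4)], [(4, 0), (4, 2), (4, 4)], [], [5], [(7, 4, [2])]⟩,
    ⟨[(0, 4), (4, 5)], [(0, 0), (1, 0), (1, 1), (3, 1), (4, 0), (4, 1), (4, 2), (4, 4), (4,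
      7), (5, 0), (5, 1), (5, 4), (5, 7)], [(0, 1), (0, 4), (0, 7), (1, 4), (1, 7), (4, 7)],
      [], [(0, 0, [3, 6]), (3, 1, [2]), (7, 4, [2]), (8, 7, [2])]⟩]
  Ta := [((0, 3), 0, 1), ((1, 4), 0, 2)]
  Tb := [((2, 4, 5), 3, 2, 6), ((3, 0, 5), 1, 0, 6), ((3, 0, 8), 1, 0, 7), ((3, 5, 8), 1, 6, 7),
    ((4, 1, 2), 2, 0, 3), ((4, 1, 6), 2, 0, 5), ((4, 2, 6), 2, 3, 5), ((5, 2, 3), 6, 3, 1),
    ((6, 4, 7), 5, 2, 4), ((7, 6, 8), 4, 5, 7), ((8, 3, 7), 7, 1, 4)]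
  Tc := [(0, 3, 6), (2, 1, 4), (2, 1, 7), (2, 4, 7)]
  Td := [((0, 3), (0, 3), 1), ((0, 3), (1, 4), 2), ((0, 6), (0, 3), 1), ((0, 6), (1, 4), 2), ((1,
    2), (3, 0), 0), ((1, 2), (3, 5), 6), ((1, 2), (3, 8), 7), ((2, 1), (4, 1), 0), ((2, 1),
    (4, 2), 3), ((2, 1), (4, 6), 5), ((2, 4), (4, 1), 0), ((2, 4), (4, 2), 3), ((2, 4), (4,
    6), 5), ((2, 7), (4, 1), 0), ((2, 7), (4, 2), 3), ((2, 7), (4, 6), 5), ((3, 0), (2, 4),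
    2), ((3, 0), (2, 5), 6), ((4, 2), (7, 6), 5), ((4, 2), (7, 8), 7), ((6, 0), (5, 2), 3),
    ((6, 0), (5, 3), 1), ((7, 2), (8, 3), 1), ((7, 2), (8, 7), 4)]
  G := [[0, 0x6232827c212229225c81229225c41ca, 0, 0x229225c12229225c11c2,
    0x449443a18449443a11c4], [0, 0, 0x11a116c1811a116c14c2, 0xd29244e1d29244e1c24,
    0x449443a18449443a12c4]]

noncomputable def n2342 : Ent := ⟨e2342, noF, [], [], [(15, 12, [360035747228123463809659675990397950106674496442981057568063489, 0])]⟩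

def c2342 : PLift (Cov.check n2342.C.D v2342 = true) := ⟨by decide +kernel⟩

def b2342 : PLift (entF (fidx ts) 400 2342 n2342 = true) := ⟨by decide +kernel⟩

theorem g2342 : GoodF (fidx ts) 400 2342 := GoodF.ofV v2342 n2342 c2342.down b2342.down

/-- 4744746:1921/1 -/
noncomputable def e2343 : SCfg where
  D := {
    a := 7
    L := 10
    kp := 8
    inn := [(0, 1), (0, 4), (1, 0), (1, 2), (1, 3), (2, 1), (3, 1), (4, 0), (4, 5), (4, 6), (5, 4), (5,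
      6), (6, 4), (6, 5)]
    mix := [(0, 0), (0, 1), (1, 0), (1, 1), (1, 2), (1, 3), (2, 1), (2, 2), (2, 4), (3, 2), (3, 3), (3,
      5), (4, 0), (4, 1), (4, 6), (4, 7), (5, 6), (5, 8), (6, 0), (6, 3), (6, 8), (6, 9)]
    cl := [0, 0, 1, 2, 8, 6, 4, 5, 3, 7]
    chq := [(0, 1), (0, 6), (1, 0), (2, 5), (3, 5), (5, 2), (5, 3), (5, 7), (6, 0), (7, 5)]
    rng := [(0, 3), (1, 4), (1, 7), (2, 4), (2, 5), (3, 0), (3, 5), (3, 9), (4, 1), (4, 2), (5, 2), (5,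
      3), (6, 7), (6, 8), (7, 1), (7, 6), (8, 6), (8, 9), (9, 3), (9, 8)]
    lev := [] }
  links := [[1, 7, 4, 8], [7, 0, 8, 2, 9, 3, 10], [9, 1, 8, 11], [10, 1, 9, 12], [8, 0, 7, 6, 5, 13, 14],
    [13, 4, 6, 15], [15, 5, 4, 7, 10, 16]]
  P := {
    a := 7
    N := 17
    nb := [402, 1933, 2818, 5634, 25057, 41040, 99504, 1107, 18455, 6158, 69834, 772, 1544, 49200,
      8464, 73824, 33856]
    tri := [(0, 1, 7), (0, 1, 8), (0, 4, 7), (0, 4, 8), (1, 2, 8), (1, 2, 9), (1, 3, 9), (1, 3, 10),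
      (1, 7, 10), (2, 8, 11), (2, 9, 11), (3, 9, 12), (3, 10, 12), (4, 5, 6), (4, 5, 13), (4, 6,
      7), (4, 8, 14), (4, 13, 14), (5, 6, 15), (5, 13, 15), (6, 7, 10), (6, 10, 16), (6, 15, 16)]
    fin := [0, 0, 0, 0, 4, 5, 4, 0, 0, 9, 10, 11, 12, 13, 4, 5, 16]
    chd := [(0, 9), (0, 12), (4, 5), (4, 16), (10, 4)]
    steps := [(0, 1), (0, 2), (0, 3), (0, 7), (0, 8), (4, 6), (4, 14), (5, 15)] }
  rep := [0, 9, 10, 5, 13, 4, 12, 16, 11]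

noncomputable def v2343 : Cov.CovD where
  P := 3
  N := 6
  pl := [4, 6]
  lev := [⟨[], [], [(0, 0)], [], [(0, 0, [1, 6]), (1, 0, [1, 6])]⟩,
    ⟨[], [(0, 0), (0, 1), (0, 2)], [(0, 0), (0, 1), (0, 2), (1, 2)], [], [(0, 0, [1, 6]),
      (1, 0, [1, 6]), (2, 1, [0]), (3, 2, [5])]⟩,
    ⟨[(0, 1)], [(0, 0), (1, 0), (1, 1), (1, 2)], [(0, 1)], [8], [(1, 0, [1, 6]), (2, 1,
      [0])]⟩,
    ⟨[(0, 1), (1, 2)], [(1, 0), (1, 1), (1, 2), (1, 6), (2, 1)], [(1, 2), (1, 6), (2, 6)],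
      [], [(2, 1, [0]), (3, 2, [5]), (5, 6, [0])]⟩,
    ⟨[(0, 1)], [(0, 0), (0, 5), (1, 0), (2, 0)], [(0, 0), (0, 5)], [4], [(0, 0, [1, 6]),
      (1, 0, [1, 6]), (7, 5, [2, 3, 7])]⟩,
    ⟨[(0, 4)], [(4, 0), (4, 3), (4, 5)], [], [4], [(8, 3, [5])]⟩,
    ⟨[(0, 4), (4, 5)], [(0, 0), (1, 0), (1, 2), (3, 2), (4, 0), (4, 2), (4, 3), (4, 5), (4,
      7), (5, 0), (5, 2), (5, 3), (5, 7)], [(0, 2), (0, 3), (0, 7), (2, 3), (2, 7), (3, 7)],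
      [], [(0, 0, [1, 6]), (3, 2, [5]), (8, 3, [5]), (9, 7, [5])]⟩]
  Ta := [((0, 3), 0, 2), ((1, 4), 0, 8), ((1, 7), 0, 5)]
  Tb := [((1, 4, 7), 0, 8, 5), ((2, 4, 5), 1, 8, 6), ((3, 0, 5), 2, 0, 6), ((3, 0, 9), 2, 0, 7),
    ((3, 5, 9), 2, 6, 7), ((4, 1, 2), 8, 0, 1), ((5, 2, 3), 6, 1, 2), ((6, 7, 8), 4, 5, 3),
    ((7, 1, 6), 5, 0, 4), ((8, 6, 9), 3, 4, 7), ((9, 3, 8), 7, 2, 3)]
  Tc := [(0, 1, 6), (5, 2, 3), (5, 2, 7), (5, 3, 7)]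
  Td := [((0, 1), (0, 3), 2), ((0, 1), (1, 4), 8), ((0, 1), (1, 7), 5), ((0, 6), (0, 3), 2), ((0,
    6), (1, 4), 8), ((0, 6), (1, 7), 5), ((1, 0), (2, 4), 8), ((1, 0), (2, 5), 6), ((2, 5),
    (3, 0), 0), ((2, 5), (3, 5), 6), ((2, 5), (3, 9), 7), ((3, 5), (8, 6), 4), ((3, 5), (8,
    9), 7), ((5, 2), (7, 1), 0), ((5, 2), (7, 6), 4), ((5, 3), (7, 1), 0), ((5, 3), (7, 6),
    4), ((5, 7), (7, 1), 0), ((5, 7), (7, 6), 4), ((6, 0), (5, 2), 1), ((6, 0), (5, 3), 2),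
    ((7, 5), (9, 3), 2), ((7, 5), (9, 8), 3)]
  G := [[0, 0x646d8a98d8ee1452d88ab9444fe1c84, 0x626aa58c4be466c22b648dec148,
    0x466daa98ccee1184, 0x666baa878c9e1182], [0, 0x982dc58e6144556a187c16698cca1a8a, 0,
    0x56598adcc1ee15569a1e84cbe1c48, 0x712daaa1d87e1732d82ab987e1c84]]

noncomputable def n2343 : Ent := ⟨e2343, noF, [], [], [(16, 12, [1580044410777118419473445963789405229760683414688298388994433110017, 0]), (14, 11, [1685382413448254890285566577566560913002569154707632164201567510529, 0])]⟩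

def c2343 : PLift (Cov.check n2343.C.D v2343 = true) := ⟨by decide +kernel⟩

def b2343 : PLift (entF (fidx ts) 400 2343 n2343 = true) := ⟨by decide +kernel⟩

theorem g2343 : GoodF (fidx ts) 400 2343 := GoodF.ofV v2343 n2343 c2343.down b2343.down

/-- 4744746:1921/6 -/
noncomputable def e2344 : SCfg where
  D := {
    a := 7
    L := 9
    kp := 7
    inn := [(0, 1), (0, 4), (1, 0), (1, 2), (1, 3), (2, 1), (3, 1), (4, 0), (4, 5), (4, 6), (5, 4), (5,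
      6), (6, 4), (6, 5)]
    mix := [(0, 0), (0, 1), (1, 0), (1, 1), (1, 2), (1, 3), (2, 1), (2, 2), (2, 4), (3, 2), (3, 3), (3,
      5), (4, 0), (4, 1), (4, 4), (4, 6), (5, 6), (5, 7), (6, 0), (6, 5), (6, 7), (6, 8)]
    cl := [0, 0, 1, 5, 2, 3, 6, 4, 7]
    chq := [(0, 1), (0, 3), (1, 0), (2, 3), (2, 4), (2, 7), (3, 0), (3, 2), (4, 2), (7, 2)]
    rng := [(0, 3), (0, 8), (1, 4), (2, 4), (2, 5), (3, 0), (3, 5), (4, 1), (4, 2), (4, 6), (5, 2), (5,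
      3), (5, 7), (5, 8), (6, 4), (6, 7), (7, 5), (7, 6), (8, 0), (8, 5)]
    lev := [] }
  links := [[1, 7, 4, 8], [7, 0, 8, 2, 9, 3, 10], [9, 1, 8, 11], [10, 1, 9, 12], [8, 0, 7, 6, 5, 13, 11],
    [13, 4, 6, 14], [14, 5, 4, 7, 15, 12]]
  P := {
    a := 7
    N := 16
    nb := [402, 1933, 2818, 5634, 10721, 24656, 53424, 33875, 2071, 6158, 4234, 8980, 50760, 18480,
      12384, 4288]
    tri := [(0, 1, 7), (0, 1, 8), (0, 4, 7), (0, 4, 8), (1, 2, 8), (1, 2, 9), (1, 3, 9), (1, 3, 10),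
      (1, 7, 10), (2, 8, 11), (2, 9, 11), (3, 9, 12), (3, 10, 12), (4, 5, 6), (4, 5, 13), (4, 6,
      7), (4, 8, 11), (4, 11, 13), (5, 6, 14), (5, 13, 14), (6, 7, 15), (6, 12, 14), (6, 12, 15)]
    fin := [0, 0, 0, 0, 4, 5, 4, 0, 0, 9, 10, 4, 12, 13, 5, 15]
    chd := [(0, 9), (0, 12), (4, 5), (4, 12), (4, 15)]
    steps := [(0, 1), (0, 2), (0, 3), (0, 7), (0, 8), (4, 6), (4, 11), (5, 14)] }
  rep := [0, 9, 4, 12, 5, 10, 13, 15]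

noncomputable def v2344 : Cov.CovD where
  P := 3
  N := 5
  pl := [3, 6]
  lev := [⟨[], [], [(0, 0)], [], [(0, 0, [1, 3]), (1, 0, [1, 3])]⟩,
    ⟨[], [(0, 0), (0, 1)], [(0, 0), (0, 1)], [5], [(0, 0, [1, 3]), (1, 0, [1, 3]), (2, 1,
      [0])]⟩,
    ⟨[(0, 1)], [(0, 0), (1, 0), (1, 1), (1, 2)], [(0, 1), (0, 2), (1, 2)], [], [(1, 0, [1,
      3]), (2, 1, [0]), (4, 2, [3, 4, 7])]⟩,
    ⟨[(0, 1), (1, 2)], [(1, 0), (1, 1), (1, 3), (2, 1)], [(1, 3)], [5], [(2, 1, [0]), (5,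
      3, [0, 2])]⟩,
    ⟨[(0, 1)], [(0, 0), (0, 2), (1, 0), (2, 0), (2, 2)], [(0, 0), (0, 2)], [6], [(0, 0, [1,
      3]), (1, 0, [1, 3]), (4, 2, [3, 4, 7])]⟩,
    ⟨[(0, 4)], [(4, 0), (4, 2), (4, 4)], [], [6], [(7, 4, [2])]⟩,
    ⟨[(0, 4), (4, 5)], [(0, 0), (1, 0), (3, 3), (4, 0), (4, 2), (4, 3), (4, 4), (4, 7), (5,
      0), (5, 3), (5, 4), (5, 7)], [(0, 3), (0, 4), (0, 7), (3, 4), (3, 7), (4, 7)], [], [(0,
      0, [1, 3]), (5, 3, [0, 2]), (7, 4, [2]), (8, 7, [2])]⟩]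
  Ta := [((0, 3), 0, 5), ((0, 8), 0, 7), ((1, 4), 0, 2)]
  Tb := [((0, 3, 8), 0, 5, 7), ((2, 4, 5), 1, 2, 3), ((3, 0, 5), 5, 0, 3), ((4, 1, 2), 2, 0, 1),
    ((4, 1, 6), 2, 0, 6), ((4, 2, 6), 2, 1, 6), ((5, 2, 3), 3, 1, 5), ((5, 2, 7), 3, 1, 4),
    ((5, 2, 8), 3, 1, 7), ((5, 3, 7), 3, 5, 4), ((5, 3, 8), 3, 5, 7), ((5, 7, 8), 3, 4, 7),
    ((6, 4, 7), 6, 2, 4), ((7, 5, 6), 4, 3, 6), ((8, 0, 5), 7, 0, 3)]
  Tc := [(0, 1, 3), (2, 3, 4), (2, 3, 7), (2, 4, 7), (3, 0, 2)]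
  Td := [((0, 1), (0, 3), 5), ((0, 1), (0, 8), 7), ((0, 1), (1, 4), 2), ((0, 3), (0, 3), 5), ((0,
    3), (0, 8), 7), ((0, 3), (1, 4), 2), ((1, 0), (2, 4), 2), ((1, 0), (2, 5), 3), ((2, 3),
    (4, 1), 0), ((2, 3), (4, 2), 1), ((2, 3), (4, 6), 6), ((2, 4), (4, 1), 0), ((2, 4), (4,
    2), 1), ((2, 4), (4, 6), 6), ((2, 7), (4, 1), 0), ((2, 7), (4, 2), 1), ((2, 7), (4, 6),
    6), ((3, 0), (5, 2), 1), ((3, 0), (5, 3), 5), ((3, 0), (5, 7), 4), ((3, 0), (5, 8), 7),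
    ((3, 2), (5, 2), 1), ((3, 2), (5, 3), 5), ((3, 2), (5, 7), 4), ((3, 2), (5, 8), 7), ((4,
    2), (7, 5), 3), ((4, 2), (7, 6), 6), ((7, 2), (8, 0), 0), ((7, 2), (8, 5), 3)]
  G := [[0, 0x21a225c18229225c18a2, 0, 0x2222c2222c5842222c2222c948a,
    0x41443a484449443a488449443ad1449443a11cc], [0, 0x21a225c1421a216c18a2,
    0x11c116a1811c116a18c4, 0x2222c182222c18c2, 0x449443a18449443a18c4]]

noncomputable def n2344 : Ent := ⟨e2344, noF, [], [], [(15, 10, [360035742630637297931254766822518807307257169425207333496176641, 0])]⟩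

def c2344 : PLift (Cov.check n2344.C.D v2344 = true) := ⟨by decide +kernel⟩

def b2344 : PLift (entF (fidx ts) 400 2344 n2344 = true) := ⟨by decide +kernel⟩

theorem g2344 : GoodF (fidx ts) 400 2344 := GoodF.ofV v2344 n2344 c2344.down b2344.down

/-- 4744746:1921/5 -/
noncomputable def e2345 : SCfg where
  D := {
    a := 7
    L := 10
    kp := 8
    inn := [(0, 1), (0, 4), (1, 0), (1, 2), (1, 3), (2, 1), (3, 1), (4, 0), (4, 5), (4, 6), (5, 4), (5,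
      6), (6, 4), (6, 5)]
    mix := [(0, 0), (0, 1), (1, 0), (1, 1), (1, 2), (1, 3), (2, 1), (2, 2), (2, 4), (3, 2), (3, 3), (3,
      5), (4, 0), (4, 1), (4, 6), (4, 7), (5, 6), (5, 8), (6, 0), (6, 5), (6, 8), (6, 9)]
    cl := [0, 0, 1, 2, 8, 3, 5, 6, 4, 7]
    chq := [(0, 1), (0, 3), (1, 0), (3, 0), (3, 6), (4, 6), (6, 3), (6, 4), (6, 7), (7, 6)]
    rng := [(0, 3), (0, 9), (1, 4), (1, 7), (2, 4), (2, 5), (3, 0), (3, 5), (4, 1), (4, 2), (5, 2), (5,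
      3), (5, 8), (5, 9), (6, 7), (6, 8), (7, 1), (7, 6), (8, 5), (8, 6), (9, 0), (9, 5)]
    lev := [] }
  links := [[1, 7, 4, 8], [7, 0, 8, 2, 9, 3, 10], [9, 1, 8, 11], [10, 1, 9, 12], [8, 0, 7, 6, 5, 13, 14],
    [13, 4, 6, 15], [15, 5, 4, 7, 16, 12]]
  P := {
    a := 7
    N := 17
    nb := [402, 1933, 2818, 5634, 25057, 41040, 102576, 66643, 18455, 6158, 4234, 772, 99912, 49200,
      8464, 12384, 4288]
    tri := [(0, 1, 7), (0, 1, 8), (0, 4, 7), (0, 4, 8), (1, 2, 8), (1, 2, 9), (1, 3, 9), (1, 3, 10),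
      (1, 7, 10), (2, 8, 11), (2, 9, 11), (3, 9, 12), (3, 10, 12), (4, 5, 6), (4, 5, 13), (4, 6,
      7), (4, 8, 14), (4, 13, 14), (5, 6, 15), (5, 13, 15), (6, 7, 16), (6, 12, 15), (6, 12, 16)]
    fin := [0, 0, 0, 0, 4, 5, 4, 0, 0, 9, 10, 11, 12, 13, 4, 5, 16]
    chd := [(0, 9), (0, 12), (4, 5), (4, 16), (12, 4)]
    steps := [(0, 1), (0, 2), (0, 3), (0, 7), (0, 8), (4, 6), (4, 14), (5, 15)] }
  rep := [0, 9, 10, 12, 5, 13, 4, 16, 11]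

noncomputable def v2345 : Cov.CovD where
  P := 3
  N := 6
  pl := [3, 4, 6]
  lev := [⟨[], [], [(0, 0)], [], [(0, 0, [1, 3]), (1, 0, [1, 3])]⟩,
    ⟨[], [(0, 0), (0, 1)], [(0, 0), (0, 1)], [2], [(0, 0, [1, 3]), (1, 0, [1, 3]), (2, 1,
      [0])]⟩,
    ⟨[(0, 1)], [(0, 0), (1, 0), (1, 1)], [(0, 1)], [8], [(1, 0, [1, 3]), (2, 1, [0])]⟩,
    ⟨[(0, 1), (1, 2)], [(1, 0), (1, 1), (1, 3), (2, 1)], [(1, 3)], [2], [(2, 1, [0]), (5,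
      3, [0, 6])]⟩,
    ⟨[(0, 1)], [(0, 0), (0, 6), (1, 0), (2, 0)], [(0, 0), (0, 6)], [5], [(0, 0, [1, 3]),
      (1, 0, [1, 3]), (7, 6, [3, 4, 7])]⟩,
    ⟨[(0, 4)], [(4, 0), (4, 4), (4, 6)], [], [5], [(8, 4, [6])]⟩,
    ⟨[(0, 4), (4, 5)], [(0, 0), (1, 0), (3, 3), (4, 0), (4, 3), (4, 4), (4, 6), (4, 7), (5,
      0), (5, 3), (5, 4), (5, 7)], [(0, 3), (0, 4), (0, 7), (3, 4), (3, 7), (4, 7)], [], [(0,
      0, [1, 3]), (5, 3, [0, 6]), (8, 4, [6]), (9, 7, [6])]⟩]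
  Ta := [((0, 3), 0, 2), ((0, 9), 0, 7), ((1, 4), 0, 8), ((1, 7), 0, 6)]
  Tb := [((0, 3, 9), 0, 2, 7), ((1, 4, 7), 0, 8, 6), ((2, 4, 5), 1, 8, 3), ((3, 0, 5), 2, 0, 3),
    ((4, 1, 2), 8, 0, 1), ((5, 2, 3), 3, 1, 2), ((5, 2, 8), 3, 1, 4), ((5, 2, 9), 3, 1, 7),
    ((5, 3, 8), 3, 2, 4), ((5, 3, 9), 3, 2, 7), ((5, 8, 9), 3, 4, 7), ((6, 7, 8), 5, 6, 4),
    ((7, 1, 6), 6, 0, 5), ((8, 5, 6), 4, 3, 5), ((9, 0, 5), 7, 0, 3)]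
  Tc := [(0, 1, 3), (3, 0, 6), (6, 3, 4), (6, 3, 7), (6, 4, 7)]
  Td := [((0, 1), (0, 3), 2), ((0, 1), (0, 9), 7), ((0, 1), (1, 4), 8), ((0, 1), (1, 7), 6), ((0,
    3), (0, 3), 2), ((0, 3), (0, 9), 7), ((0, 3), (1, 4), 8), ((0, 3), (1, 7), 6), ((1, 0),
    (2, 4), 8), ((1, 0), (2, 5), 3), ((3, 0), (5, 2), 1), ((3, 0), (5, 3), 2), ((3, 0), (5,
    8), 4), ((3, 0), (5, 9), 7), ((3, 6), (5, 2), 1), ((3, 6), (5, 3), 2), ((3, 6), (5, 8),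
    4), ((3, 6), (5, 9), 7), ((4, 6), (8, 5), 3), ((4, 6), (8, 6), 5), ((6, 3), (7, 1), 0),
    ((6, 3), (7, 6), 5), ((6, 4), (7, 1), 0), ((6, 4), (7, 6), 5), ((6, 7), (7, 1), 0), ((6,
    7), (7, 6), 5), ((7, 6), (9, 0), 0), ((7, 6), (9, 5), 3)]
  G := [[0, 0x669cc3a1433ed5ca1a4aa5418aa741a86, 0x4e6baa878c9e624baaa74c5ec142,
    0x666d82abccc7e1184, 0x666baaa784cde1182], [0, 0x626bab87d5ce1617ea2a79dce1c82, 0,
    0x4534fb3abdfce1772d82abdd87e1c84, 0x773e82abddc7e1f7692ab9d54fe1c84]]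

noncomputable def n2345 : Ent := ⟨e2345, noF, [], [], [(16, 10, [1580044410770988437858045522355060435978463990222429564876673404929, 0]), (14, 11, [1685382413448254890285566577566560913002569154707632164201567518721, 0])]⟩

def c2345 : PLift (Cov.check n2345.C.D v2345 = true) := ⟨by decide +kernel⟩

def b2345 : PLift (entF (fidx ts) 400 2345 n2345 = true) := ⟨by decide +kernel⟩

theorem g2345 : GoodF (fidx ts) 400 2345 := GoodF.ofV v2345 n2345 c2345.down b2345.down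

/-- 4744746:1921/8 -/
noncomputable def e2346 : SCfg where
  D := {
    a := 7
    L := 9
    kp := 7
    inn := [(0, 1), (0, 4), (1, 0), (1, 2), (1, 3), (2, 1), (3, 1), (4, 0), (4, 5), (4, 6), (5, 4), (5,
      6), (6, 4), (6, 5)]
    mix := [(0, 0), (0, 1), (1, 0), (1, 1), (1, 2), (1, 3), (2, 1), (2, 2), (2, 4), (3, 2), (3, 3), (3,
      5), (4, 0), (4, 1), (4, 4), (4, 6), (5, 5), (5, 6), (6, 0), (6, 5), (6, 7), (6, 8)]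
    cl := [0, 0, 4, 2, 1, 3, 5, 6, 7]
    chq := [(0, 3), (0, 4), (1, 3), (1, 6), (1, 7), (3, 0), (3, 1), (4, 0), (6, 1), (7, 1)]
    rng := [(0, 3), (0, 7), (1, 4), (2, 4), (2, 5), (3, 0), (3, 5), (4, 1), (4, 2), (4, 6), (5, 2), (5,
      3), (5, 6), (5, 8), (6, 4), (6, 5), (7, 0), (7, 8), (8, 5), (8, 7)]
    lev := [] }
  links := [[1, 7, 4, 8], [7, 0, 8, 2, 9, 3, 10], [9, 1, 8, 11], [10, 1, 9, 12], [8, 0, 7, 6, 5, 13, 11],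
    [13, 4, 6, 12], [12, 5, 4, 7, 14, 15]]
  P := {
    a := 7
    N := 16
    nb := [402, 1933, 2818, 5634, 10721, 12368, 53424, 17491, 2071, 6158, 4234, 8980, 42600, 6192,
      32960, 20544]
    tri := [(0, 1, 7), (0, 1, 8), (0, 4, 7), (0, 4, 8), (1, 2, 8), (1, 2, 9), (1, 3, 9), (1, 3, 10),
      (1, 7, 10), (2, 8, 11), (2, 9, 11), (3, 9, 12), (3, 10, 12), (4, 5, 6), (4, 5, 13), (4, 6,
      7), (4, 8, 11), (4, 11, 13), (5, 6, 12), (5, 12, 13), (6, 7, 14), (6, 12, 15), (6, 14, 15)]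
    fin := [0, 0, 0, 0, 4, 5, 4, 0, 0, 9, 10, 4, 5, 13, 14, 15]
    chd := [(0, 5), (0, 9), (4, 5), (4, 14), (4, 15)]
    steps := [(0, 1), (0, 2), (0, 3), (0, 7), (0, 8), (4, 6), (4, 11), (5, 12)] }
  rep := [0, 4, 10, 5, 9, 13, 14, 15]

noncomputable def v2346 : Cov.CovD where
  P := 3
  N := 5
  pl := [3, 6]
  lev := [⟨[], [], [(0, 0)], [], [(0, 0, [3, 4]), (1, 0, [3, 4])]⟩,
    ⟨[], [(0, 0), (0, 4)], [(0, 0), (0, 4)], [2], [(0, 0, [3, 4]), (1, 0, [3, 4]), (2, 4,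
      [0])]⟩,
    ⟨[(0, 1)], [(0, 0), (1, 0), (1, 1), (1, 4)], [(0, 1), (0, 4), (1, 4)], [], [(1, 0, [3,
      4]), (2, 4, [0]), (4, 1, [3, 6, 7])]⟩,
    ⟨[(0, 1), (1, 2)], [(1, 0), (1, 3), (1, 4), (2, 4)], [(3, 4)], [2], [(2, 4, [0]), (5,
      3, [0, 1])]⟩,
    ⟨[(0, 1)], [(0, 0), (0, 1), (1, 0), (2, 0), (2, 1)], [(0, 0), (0, 1)], [5], [(0, 0, [3,
      4]), (1, 0, [3, 4]), (4, 1, [3, 6, 7])]⟩,
    ⟨[(0, 4)], [(3, 3), (4, 0), (4, 1), (4, 3)], [], [5], [(5, 3, [0, 1])]⟩,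
    ⟨[(0, 4), (4, 5)], [(0, 0), (1, 0), (3, 3), (4, 0), (4, 1), (4, 3), (4, 6), (4, 7), (5,
      0), (5, 3), (5, 6), (5, 7)], [(0, 3), (0, 6), (0, 7), (3, 6), (3, 7), (6, 7)], [], [(0,
      0, [3, 4]), (5, 3, [0, 1]), (7, 6, [1]), (8, 7, [1])]⟩]
  Ta := [((0, 3), 0, 2), ((0, 7), 0, 6), ((1, 4), 0, 1)]
  Tb := [((0, 3, 7), 0, 2, 6), ((2, 4, 5), 4, 1, 3), ((3, 0, 5), 2, 0, 3), ((4, 1, 2), 1, 0, 4),
    ((4, 1, 6), 1, 0, 5), ((4, 2, 6), 1, 4, 5), ((5, 2, 3), 3, 4, 2), ((5, 2, 6), 3, 4, 5),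
    ((5, 2, 8), 3, 4, 7), ((5, 3, 6), 3, 2, 5), ((5, 3, 8), 3, 2, 7), ((5, 6, 8), 3, 5, 7),
    ((6, 4, 5), 5, 1, 3), ((7, 0, 8), 6, 0, 7), ((8, 5, 7), 7, 3, 6)]
  Tc := [(0, 3, 4), (1, 3, 6), (1, 3, 7), (1, 6, 7), (3, 0, 1)]
  Td := [((0, 3), (0, 3), 2), ((0, 3), (0, 7), 6), ((0, 3), (1, 4), 1), ((0, 4), (0, 3), 2), ((0,
    4), (0, 7), 6), ((0, 4), (1, 4), 1), ((1, 3), (4, 1), 0), ((1, 3), (4, 2), 4), ((1, 3),
    (4, 6), 5), ((1, 6), (4, 1), 0), ((1, 6), (4, 2), 4), ((1, 6), (4, 6), 5), ((1, 7), (4,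
    1), 0), ((1, 7), (4, 2), 4), ((1, 7), (4, 6), 5), ((3, 0), (5, 2), 4), ((3, 0), (5, 3),
    2), ((3, 0), (5, 6), 5), ((3, 0), (5, 8), 7), ((3, 1), (5, 2), 4), ((3, 1), (5, 3), 2),
    ((3, 1), (5, 6), 5), ((3, 1), (5, 8), 7), ((4, 0), (2, 4), 1), ((4, 0), (2, 5), 3), ((6,
    1), (7, 0), 0), ((6, 1), (7, 8), 7), ((7, 1), (8, 5), 3), ((7, 1), (8, 7), 6)]
  G := [[0, 0, 0x2821c2124ca12124c2821c61c2, 0x229225c18229225c14c2, 0x229226c18229225c14a2],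
    [0, 0x11c11a61211c11a614c8, 0, 0x229225c18229f2c14c2, 0x229226c18229225c14a2]]

noncomputable def n2346 : Ent := ⟨e2346, noF, [], [], []⟩

def c2346 : PLift (Cov.check n2346.C.D v2346 = true) := ⟨by decide +kernel⟩

def b2346 : PLift (entF (fidx ts) 400 2346 n2346 = true) := ⟨by decide +kernel⟩

theorem g2346 : GoodF (fidx ts) 400 2346 := GoodF.ofV v2346 n2346 c2346.down b2346.down

/-- 4744746:1921/7 -/
noncomputable def e2347 : SCfg where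
  D := {
    a := 7
    L := 10
    kp := 8
    inn := [(0, 1), (0, 4), (1, 0), (1, 2), (1, 3), (2, 1), (3, 1), (4, 0), (4, 5), (4, 6), (5, 4), (5,
      6), (6, 4), (6, 5)]
    mix := [(0, 0), (0, 1), (1, 0), (1, 1), (1, 2), (1, 3), (2, 1), (2, 2), (2, 4), (3, 2), (3, 3), (3,
      5), (4, 0), (4, 1), (4, 6), (4, 7), (5, 5), (5, 6), (6, 0), (6, 5), (6, 8), (6, 9)]
    cl := [0, 0, 1, 2, 8, 3, 4, 5, 6, 7]
    chq := [(0, 1), (0, 3), (1, 0), (3, 0), (3, 5), (5, 3), (5, 6), (5, 7), (6, 5), (7, 5)]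
    rng := [(0, 3), (0, 8), (1, 4), (1, 7), (2, 4), (2, 5), (3, 0), (3, 5), (4, 1), (4, 2), (5, 2), (5,
      3), (5, 6), (5, 9), (6, 5), (6, 7), (7, 1), (7, 6), (8, 0), (8, 9), (9, 5), (9, 8)]
    lev := [] }
  links := [[1, 7, 4, 8], [7, 0, 8, 2, 9, 3, 10], [9, 1, 8, 11], [10, 1, 9, 12], [8, 0, 7, 6, 5, 13, 14],
    [13, 4, 6, 12], [12, 5, 4, 7, 15, 16]]
  P := {
    a := 7
    N := 17
    nb := [402, 1933, 2818, 5634, 25057, 12368, 102576, 33875, 18455, 6158, 4234, 772, 75368, 20528,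
      8464, 65728, 36928]
    tri := [(0, 1, 7), (0, 1, 8), (0, 4, 7), (0, 4, 8), (1, 2, 8), (1, 2, 9), (1, 3, 9), (1, 3, 10),
      (1, 7, 10), (2, 8, 11), (2, 9, 11), (3, 9, 12), (3, 10, 12), (4, 5, 6), (4, 5, 13), (4, 6,
      7), (4, 8, 14), (4, 13, 14), (5, 6, 12), (5, 12, 13), (6, 7, 15), (6, 12, 16), (6, 15, 16)]
    fin := [0, 0, 0, 0, 4, 5, 4, 0, 0, 9, 10, 11, 5, 13, 4, 15, 16]
    chd := [(0, 5), (0, 9), (4, 15), (4, 16), (5, 4)]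
    steps := [(0, 1), (0, 2), (0, 3), (0, 7), (0, 8), (4, 6), (4, 14), (5, 12)] }
  rep := [0, 9, 10, 5, 13, 4, 15, 16, 11]

noncomputable def v2347 : Cov.CovD where
  P := 3
  N := 6
  pl := [3, 4, 6]
  lev := [⟨[], [], [(0, 0)], [], [(0, 0, [1, 3]), (1, 0, [1, 3])]⟩,
    ⟨[], [(0, 0), (0, 1)], [(0, 0), (0, 1)], [2], [(0, 0, [1, 3]), (1, 0, [1, 3]), (2, 1,
      [0])]⟩,
    ⟨[(0, 1)], [(0, 0), (1, 0), (1, 1)], [(0, 1)], [8], [(1, 0, [1, 3]), (2, 1, [0])]⟩,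
    ⟨[(0, 1), (1, 2)], [(1, 0), (1, 1), (1, 3), (2, 1)], [(1, 3)], [2], [(2, 1, [0]), (5,
      3, [0, 5])]⟩,
    ⟨[(0, 1)], [(0, 0), (0, 5), (1, 0), (2, 0)], [(0, 0), (0, 5)], [4], [(0, 0, [1, 3]),
      (1, 0, [1, 3]), (7, 5, [3, 6, 7])]⟩,
    ⟨[(0, 4)], [(3, 3), (4, 0), (4, 3), (4, 5)], [], [4], [(5, 3, [0, 5])]⟩,
    ⟨[(0, 4), (4, 5)], [(0, 0), (1, 0), (3, 3), (4, 0), (4, 3), (4, 5), (4, 6), (4, 7), (5,
      0), (5, 3), (5, 6), (5, 7)], [(0, 3), (0, 6), (0, 7), (3, 6), (3, 7), (6, 7)], [], [(0,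
      0, [1, 3]), (5, 3, [0, 5]), (8, 6, [5]), (9, 7, [5])]⟩]
  Ta := [((0, 3), 0, 2), ((0, 8), 0, 6), ((1, 4), 0, 8), ((1, 7), 0, 5)]
  Tb := [((0, 3, 8), 0, 2, 6), ((1, 4, 7), 0, 8, 5), ((2, 4, 5), 1, 8, 3), ((3, 0, 5), 2, 0, 3),
    ((4, 1, 2), 8, 0, 1), ((5, 2, 3), 3, 1, 2), ((5, 2, 6), 3, 1, 4), ((5, 2, 9), 3, 1, 7),
    ((5, 3, 6), 3, 2, 4), ((5, 3, 9), 3, 2, 7), ((5, 6, 9), 3, 4, 7), ((6, 5, 7), 4, 3, 5),
    ((7, 1, 6), 5, 0, 4), ((8, 0, 9), 6, 0, 7), ((9, 5, 8), 7, 3, 6)]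
  Tc := [(0, 1, 3), (3, 0, 5), (5, 3, 6), (5, 3, 7), (5, 6, 7)]
  Td := [((0, 1), (0, 3), 2), ((0, 1), (0, 8), 6), ((0, 1), (1, 4), 8), ((0, 1), (1, 7), 5), ((0,
    3), (0, 3), 2), ((0, 3), (0, 8), 6), ((0, 3), (1, 4), 8), ((0, 3), (1, 7), 5), ((1, 0),
    (2, 4), 8), ((1, 0), (2, 5), 3), ((3, 0), (5, 2), 1), ((3, 0), (5, 3), 2), ((3, 0), (5,
    6), 4), ((3, 0), (5, 9), 7), ((3, 5), (5, 2), 1), ((3, 5), (5, 3), 2), ((3, 5), (5, 6),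
    4), ((3, 5), (5, 9), 7), ((5, 3), (7, 1), 0), ((5, 3), (7, 6), 4), ((5, 6), (7, 1), 0),
    ((5, 6), (7, 6), 4), ((5, 7), (7, 1), 0), ((5, 7), (7, 6), 4), ((6, 5), (8, 0), 0), ((6,
    5), (8, 9), 7), ((7, 5), (9, 5), 3), ((7, 5), (9, 8), 6)]
  G := [[0, 0x725b29c1e14659fac1e1642, 0x688a3c1e463a4c1ec142, 0x666baaa784cde1182,
    0xaa5cc361186698118c], [0, 0x465932bc1e1f438a3d85e1642, 0,
    0x61821bb2dd2e5c125227f22bd2e9c48, 0x774bb3878ccde1c123416f93be41e9c82]]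

noncomputable def n2347 : Ent := ⟨e2347, noF, [], [], [(14, 11, [1685382413448254890285566577566560913002569154707632164201567526913, 0])]⟩

def c2347 : PLift (Cov.check n2347.C.D v2347 = true) := ⟨by decide +kernel⟩

def b2347 : PLift (entF (fidx ts) 400 2347 n2347 = true) := ⟨by decide +kernel⟩

theorem g2347 : GoodF (fidx ts) 400 2347 := GoodF.ofV v2347 n2347 c2347.down b2347.down

/-- 4744746:1921/9 -/
noncomputable def e2348 : SCfg where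
  D := {
    a := 7
    L := 10
    kp := 8
    inn := [(0, 1), (0, 4), (1, 0), (1, 2), (1, 3), (2, 1), (3, 1), (4, 0), (4, 5), (4, 6), (5, 4), (5,
      6), (6, 4), (6, 5)]
    mix := [(0, 0), (0, 1), (1, 0), (1, 1), (1, 2), (1, 3), (2, 1), (2, 2), (2, 4), (3, 2), (3, 3), (3,
      5), (4, 0), (4, 1), (4, 4), (4, 6), (5, 6), (5, 7), (6, 0), (6, 7), (6, 8), (6, 9)]
    cl := [0, 0, 3, 2, 1, 6, 5, 4, 7, 8]
    chq := [(0, 3), (0, 6), (1, 4), (1, 7), (1, 8), (3, 0), (4, 1), (6, 0), (7, 1), (8, 1)]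
    rng := [(0, 3), (0, 8), (1, 4), (2, 4), (2, 5), (3, 0), (3, 5), (4, 1), (4, 2), (4, 6), (5, 2), (5,
      3), (6, 4), (6, 7), (7, 6), (7, 9), (8, 0), (8, 9), (9, 7), (9, 8)]
    lev := [] }
  links := [[1, 7, 4, 8], [7, 0, 8, 2, 9, 3, 10], [9, 1, 8, 11], [10, 1, 9, 12], [8, 0, 7, 6, 5, 13, 11],
    [13, 4, 6, 14], [14, 5, 4, 7, 15, 16]]
  P := {
    a := 7
    N := 17
    nb := [402, 1933, 2818, 5634, 10721, 24656, 114864, 33875, 2071, 6158, 4234, 8980, 1544, 18480,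
      73824, 65728, 49216]
    tri := [(0, 1, 7), (0, 1, 8), (0, 4, 7), (0, 4, 8), (1, 2, 8), (1, 2, 9), (1, 3, 9), (1, 3, 10),
      (1, 7, 10), (2, 8, 11), (2, 9, 11), (3, 9, 12), (3, 10, 12), (4, 5, 6), (4, 5, 13), (4, 6,
      7), (4, 8, 11), (4, 11, 13), (5, 6, 14), (5, 13, 14), (6, 7, 15), (6, 14, 16), (6, 15, 16)]
    fin := [0, 0, 0, 0, 4, 5, 4, 0, 0, 9, 10, 4, 12, 13, 5, 15, 16]
    chd := [(0, 9), (0, 12), (4, 5), (4, 15), (4, 16)]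
    steps := [(0, 1), (0, 2), (0, 3), (0, 7), (0, 8), (4, 6), (4, 11), (5, 14)] }
  rep := [0, 4, 10, 9, 5, 13, 12, 15, 16]

noncomputable def v2348 : Cov.CovD where
  P := 3
  N := 6
  pl := [3, 6]
  lev := [⟨[], [], [(0, 0)], [], [(0, 0, [3, 6]), (1, 0, [3, 6])]⟩,
    ⟨[], [(0, 0), (0, 3)], [(0, 0), (0, 3)], [2], [(0, 0, [3, 6]), (1, 0, [3, 6]), (2, 3,
      [0])]⟩,
    ⟨[(0, 1)], [(0, 0), (1, 0), (1, 1), (1, 3)], [(0, 1), (0, 3), (1, 3)], [], [(1, 0, [3,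
      6]), (2, 3, [0]), (4, 1, [4, 7, 8])]⟩,
    ⟨[(0, 1), (1, 2)], [(1, 0), (1, 3), (1, 6), (2, 3)], [(3, 6)], [2], [(2, 3, [0]), (5,
      6, [0])]⟩,
    ⟨[(0, 1)], [(0, 0), (0, 1), (1, 0), (2, 0), (2, 1)], [(0, 0), (0, 1)], [5], [(0, 0, [3,
      6]), (1, 0, [3, 6]), (4, 1, [4, 7, 8])]⟩,
    ⟨[(0, 4)], [(4, 0), (4, 1), (4, 4)], [], [5], [(7, 4, [1])]⟩,
    ⟨[(0, 4), (4, 5)], [(0, 0), (1, 0), (4, 0), (4, 1), (4, 4), (4, 7), (4, 8), (5, 0), (5,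
      4), (5, 7), (5, 8)], [(0, 4), (0, 7), (0, 8), (4, 7), (4, 8), (7, 8)], [], [(0, 0, [3,
      6]), (7, 4, [1]), (8, 7, [1]), (9, 8, [1])]⟩]
  Ta := [((0, 3), 0, 2), ((0, 8), 0, 7), ((1, 4), 0, 1)]
  Tb := [((0, 3, 8), 0, 2, 7), ((2, 4, 5), 3, 1, 6), ((3, 0, 5), 2, 0, 6), ((4, 1, 2), 1, 0, 3),
    ((4, 1, 6), 1, 0, 5), ((4, 2, 6), 1, 3, 5), ((5, 2, 3), 6, 3, 2), ((6, 4, 7), 5, 1, 4),
    ((7, 6, 9), 4, 5, 8), ((8, 0, 9), 7, 0, 8), ((9, 7, 8), 8, 4, 7)]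
  Tc := [(0, 3, 6), (1, 4, 7), (1, 4, 8), (1, 7, 8)]
  Td := [((0, 3), (0, 3), 2), ((0, 3), (0, 8), 7), ((0, 3), (1, 4), 1), ((0, 6), (0, 3), 2), ((0,
    6), (0, 8), 7), ((0, 6), (1, 4), 1), ((1, 4), (4, 1), 0), ((1, 4), (4, 2), 3), ((1, 4),
    (4, 6), 5), ((1, 7), (4, 1), 0), ((1, 7), (4, 2), 3), ((1, 7), (4, 6), 5), ((1, 8), (4,
    1), 0), ((1, 8), (4, 2), 3), ((1, 8), (4, 6), 5), ((3, 0), (2, 4), 1), ((3, 0), (2, 5),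
    6), ((4, 1), (7, 6), 5), ((4, 1), (7, 9), 8), ((6, 0), (5, 2), 3), ((6, 0), (5, 3), 2),
    ((7, 1), (8, 0), 0), ((7, 1), (8, 9), 8), ((8, 1), (9, 7), 4), ((8, 1), (9, 8), 7)]
  G := [[0, 0, 0x2254623222d88e612229225c8122922c41ca, 0x229225c18229225c14c2,
    0xf2225c18229225c11a2], [0, 0x11c116a1811c116a12c4, 0, 0x229225c182292b6c14c2,
    0x229f2c18229225c14a2]]

noncomputable def n2348 : Ent := ⟨e2348, noF, [], [], [(15, 10, [1685356702439545624464619697705549435909628783578210987402488602625, 0]), (16, 12, [1580044410777118419473445963789405229760683414688298388994433122305, 0]), (14, 12, [1685382413451318758934040885149836426626918246969510546689741725697, 0])]⟩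

def c2348 : PLift (Cov.check n2348.C.D v2348 = true) := ⟨by decide +kernel⟩

def b2348 : PLift (entF (fidx ts) 400 2348 n2348 = true) := ⟨by decide +kernel⟩

theorem g2348 : GoodF (fidx ts) 400 2348 := GoodF.ofV v2348 n2348 c2348.down b2348.down

/-- 4744746:1921 -/
noncomputable def e2349 : SCfg where
  D := {
    a := 7
    L := 11
    kp := 9
    inn := [(0, 1), (0, 4), (1, 0), (1, 2), (1, 3), (2, 1), (3, 1), (4, 0), (4, 5), (4, 6), (5, 4), (5,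
      6), (6, 4), (6, 5)]
    mix := [(0, 0), (0, 1), (1, 0), (1, 1), (1, 2), (1, 3), (2, 1), (2, 2), (2, 4), (3, 2), (3, 3), (3,
      5), (4, 0), (4, 1), (4, 6), (4, 7), (5, 6), (5, 8), (6, 0), (6, 8), (6, 9), (6, 10)]
    cl := [0, 0, 1, 2, 9, 6, 4, 5, 3, 7, 8]
    chq := [(0, 1), (0, 6), (1, 0), (3, 5), (5, 3), (5, 7), (5, 8), (6, 0), (7, 5), (8, 5)]
    rng := [(0, 3), (0, 9), (1, 4), (1, 7), (2, 4), (2, 5), (3, 0), (3, 5), (4, 1), (4, 2), (5, 2), (5,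
      3), (6, 7), (6, 8), (7, 1), (7, 6), (8, 6), (8, 10), (9, 0), (9, 10), (10, 8), (10, 9)]
    lev := [] }
  links := [[1, 7, 4, 8], [7, 0, 8, 2, 9, 3, 10], [9, 1, 8, 11], [10, 1, 9, 12], [8, 0, 7, 6, 5, 13, 14],
    [13, 4, 6, 15], [15, 5, 4, 7, 16, 17]]
  P := {
    a := 7
    N := 18
    nb := [402, 1933, 2818, 5634, 25057, 41040, 229552, 66643, 18455, 6158, 4234, 772, 1544, 49200,
      8464, 139360, 131264, 98368]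
    tri := [(0, 1, 7), (0, 1, 8), (0, 4, 7), (0, 4, 8), (1, 2, 8), (1, 2, 9), (1, 3, 9), (1, 3, 10),
      (1, 7, 10), (2, 8, 11), (2, 9, 11), (3, 9, 12), (3, 10, 12), (4, 5, 6), (4, 5, 13), (4, 6,
      7), (4, 8, 14), (4, 13, 14), (5, 6, 15), (5, 13, 15), (6, 7, 16), (6, 15, 17), (6, 16, 17)]
    fin := [0, 0, 0, 0, 4, 5, 4, 0, 0, 9, 10, 11, 12, 13, 4, 5, 16, 17]
    chd := [(0, 9), (0, 12), (4, 5), (4, 16), (4, 17)]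
    steps := [(0, 1), (0, 2), (0, 3), (0, 7), (0, 8), (4, 6), (4, 14), (5, 15)] }
  rep := [0, 9, 10, 5, 13, 4, 12, 16, 17, 11]

noncomputable def v2349 : Cov.CovD where
  P := 3
  N := 7
  pl := [3, 4, 6]
  lev := [⟨[], [], [(0, 0)], [], [(0, 0, [1, 6]), (1, 0, [1, 6])]⟩,
    ⟨[], [(0, 0), (0, 1)], [(0, 0), (0, 1)], [2], [(0, 0, [1, 6]), (1, 0, [1, 6]), (2, 1,
      [0])]⟩,
    ⟨[(0, 1)], [(0, 0), (1, 0), (1, 1)], [(0, 1)], [9], [(1, 0, [1, 6]), (2, 1, [0])]⟩,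
    ⟨[(0, 1), (1, 2)], [(1, 0), (1, 1), (1, 6), (2, 1)], [(1, 6)], [2], [(2, 1, [0]), (5,
      6, [0])]⟩,
    ⟨[(0, 1)], [(0, 0), (0, 5), (1, 0), (2, 0)], [(0, 0), (0, 5)], [4], [(0, 0, [1, 6]),
      (1, 0, [1, 6]), (7, 5, [3, 7, 8])]⟩,
    ⟨[(0, 4)], [(4, 0), (4, 3), (4, 5)], [], [4], [(8, 3, [5])]⟩,
    ⟨[(0, 4), (4, 5)], [(0, 0), (1, 0), (4, 0), (4, 3), (4, 5), (4, 7), (4, 8), (5, 0), (5,
      3), (5, 7), (5, 8)], [(0, 3), (0, 7), (0, 8), (3, 7), (3, 8), (7, 8)], [], [(0, 0, [1,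
      6]), (8, 3, [5]), (9, 7, [5]), (10, 8, [5])]⟩]
  Ta := [((0, 3), 0, 2), ((0, 9), 0, 7), ((1, 4), 0, 9), ((1, 7), 0, 5)]
  Tb := [((0, 3, 9), 0, 2, 7), ((1, 4, 7), 0, 9, 5), ((2, 4, 5), 1, 9, 6), ((3, 0, 5), 2, 0, 6),
    ((4, 1, 2), 9, 0, 1), ((5, 2, 3), 6, 1, 2), ((6, 7, 8), 4, 5, 3), ((7, 1, 6), 5, 0, 4),
    ((8, 6, 10), 3, 4, 8), ((9, 0, 10), 7, 0, 8), ((10, 8, 9), 8, 3, 7)]
  Tc := [(0, 1, 6), (5, 3, 7), (5, 3, 8), (5, 7, 8)]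
  Td := [((0, 1), (0, 3), 2), ((0, 1), (0, 9), 7), ((0, 1), (1, 4), 9), ((0, 1), (1, 7), 5), ((0,
    6), (0, 3), 2), ((0, 6), (0, 9), 7), ((0, 6), (1, 4), 9), ((0, 6), (1, 7), 5), ((1, 0),
    (2, 4), 9), ((1, 0), (2, 5), 6), ((3, 5), (8, 6), 4), ((3, 5), (8, 10), 8), ((5, 3), (7,
    1), 0), ((5, 3), (7, 6), 4), ((5, 7), (7, 1), 0), ((5, 7), (7, 6), 4), ((5, 8), (7, 1),
    0), ((5, 8), (7, 6), 4), ((6, 0), (5, 2), 1), ((6, 0), (5, 3), 2), ((7, 5), (9, 0), 0),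
    ((7, 5), (9, 10), 8), ((8, 5), (10, 8), 3), ((8, 5), (10, 9), 7)]
  G := [[0, 0x62678aaddc4be163478aadd5cee1a48, 0xaa5cc36418666baaa784cde6698c18a,
    0x666d82abccc7e1184, 0x666baaa784cde1182], [0, 0x2562f92be84cde1674bab8784cde1c42, 0,
    0x734bbb87d5ce1774bbb87944de1c82, 0x752db3add87e1652db3a1dd8fe1c84]]

noncomputable def n2349 : Ent := ⟨e2349, noF, [], [], [(16, 10, [7334685537875745012587286149191694603665281746921258144425058677977089, 0]), (17, 12, [6903326391201342438349770174129673216027896805894258472290640857305089, 0]), (15, 12, [7334790850167418167260058601771954260544355711131940943621308565073921, 0]), (14, 11, [7334790875878422279039713670246906104142305852085743347024383572099073, 0])]⟩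

def c2349 : PLift (Cov.check n2349.C.D v2349 = true) := ⟨by decide +kernel⟩

def b2349 : PLift (entF (fidx ts) 400 2349 n2349 = true) := ⟨by decide +kernel⟩

theorem g2349 : GoodF (fidx ts) 400 2349 := GoodF.ofV v2349 n2349 c2349.down b2349.down

/-- 4745675:1929/1 -/
noncomputable def e2350 : SCfg where
  D := {
    a := 7
    L := 10
    kp := 8
    inn := [(0, 1), (1, 0), (1, 2), (1, 3), (1, 5), (2, 1), (3, 1), (3, 4), (3, 5), (4, 3), (4, 5), (4,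
      6), (5, 1), (5, 3), (5, 4), (5, 6), (6, 4), (6, 5)]
    mix := [(0, 0), (0, 1), (0, 2), (1, 0), (1, 2), (1, 3), (2, 2), (2, 3), (2, 4), (3, 3), (3, 5), (4,
      4), (4, 5), (4, 6), (5, 0), (5, 7), (5, 8), (6, 6), (6, 7), (6, 9)]
    cl := [0, 8, 1, 0, 5, 2, 3, 4, 6, 7]
    chq := [(0, 1), (1, 0), (2, 3), (2, 4), (2, 6), (2, 7), (3, 2), (4, 2), (6, 2), (7, 2)]
    rng := [(0, 1), (0, 8), (1, 0), (1, 2), (2, 1), (2, 4), (3, 4), (3, 5), (4, 2), (4, 3), (4, 5), (4,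
      6), (5, 3), (5, 4), (6, 4), (6, 9), (7, 8), (7, 9), (8, 0), (8, 7), (9, 6), (9, 7)]
    lev := [] }
  links := [[1, 7, 8, 9], [7, 0, 9, 2, 10, 3, 5], [10, 1, 9, 11], [5, 1, 10, 12, 4], [5, 3, 12, 11, 13,
    6], [7, 1, 3, 4, 6, 14, 15], [14, 5, 4, 13, 16]]
  P := {
    a := 7
    N := 17
    nb := [898, 1709, 3586, 5170, 14440, 49370, 90160, 33059, 641, 2311, 6158, 13844, 3096, 67664,
      98400, 16544, 24640]
    tri := [(0, 1, 7), (0, 1, 9), (0, 7, 8), (0, 8, 9), (1, 2, 9), (1, 2, 10), (1, 3, 5), (1, 3, 10),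
      (1, 5, 7), (2, 9, 11), (2, 10, 11), (3, 4, 5), (3, 4, 12), (3, 10, 12), (4, 5, 6), (4, 6,
      13), (4, 11, 12), (4, 11, 13), (5, 6, 14), (5, 7, 15), (5, 14, 15), (6, 13, 16), (6, 14,
      16)]
    fin := [0, 0, 0, 3, 4, 3, 3, 0, 8, 9, 0, 4, 3, 13, 14, 15, 16]
    chd := [(0, 9), (3, 13), (3, 14), (3, 15), (3, 16)]
    steps := [(0, 1), (0, 2), (0, 7), (0, 10), (3, 5), (3, 6), (3, 12), (4, 11)] }
  rep := [0, 9, 3, 13, 14, 4, 15, 16, 8]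

noncomputable def v2350 : Cov.CovD where
  P := 3
  N := 6
  pl := [1, 4]
  lev := [⟨[], [], [(0, 1)], [8], [(0, 0, [1]), (2, 1, [0])]⟩,
    ⟨[], [(0, 0), (0, 1)], [(0, 0), (0, 1)], [], [(0, 0, [1]), (2, 1, [0]), (3, 0, [1])]⟩,
    ⟨[(0, 1)], [(0, 1), (1, 0), (1, 1)], [(0, 1)], [5], [(2, 1, [0]), (3, 0, [1])]⟩,
    ⟨[(0, 1), (1, 2)], [(1, 0), (1, 1), (1, 2), (2, 0)], [(0, 2)], [], [(3, 0, [1]), (5, 2,
      [3, 4, 6, 7])]⟩,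
    ⟨[(1, 3)], [(3, 0), (3, 2), (3, 3)], [(2, 3)], [5], [(5, 2, [3, 4, 6, 7]), (6, 3,
      [2])]⟩,
    ⟨[(0, 1), (1, 2), (1, 3), (1, 4), (3, 4)], [(0, 0), (1, 0), (1, 1), (1, 4), (1, 6), (3,
      0), (3, 2), (3, 4), (3, 6), (4, 0), (4, 2), (4, 3), (4, 4), (4, 6)], [(0, 4), (0, 6),
      (4, 6)], [], [(0, 0, [1]), (7, 4, [2]), (8, 6, [2])]⟩,
    ⟨[(1, 5), (3, 4), (3, 5), (4, 5)], [(4, 2), (4, 3), (4, 4), (4, 7), (5, 0), (5, 3), (5,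
      4), (5, 6), (5, 7)], [(3, 4), (3, 7), (4, 7)], [], [(6, 3, [2]), (7, 4, [2]), (9, 7,
      [2])]⟩]
  Ta := [((0, 1), 0, 8), ((0, 8), 0, 6), ((3, 4), 0, 5), ((3, 5), 0, 2)]
  Tb := [((0, 1, 8), 0, 8, 6), ((1, 0, 2), 8, 0, 1), ((2, 1, 4), 1, 8, 5), ((3, 4, 5), 0, 5, 2),
    ((4, 2, 3), 5, 1, 0), ((4, 2, 5), 5, 1, 2), ((4, 2, 6), 5, 1, 3), ((4, 3, 5), 5, 0, 2),
    ((4, 3, 6), 5, 0, 3), ((4, 5, 6), 5, 2, 3), ((5, 3, 4), 2, 0, 5), ((6, 4, 9), 3, 5, 7),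
    ((7, 8, 9), 4, 6, 7), ((8, 0, 7), 6, 0, 4), ((9, 6, 7), 7, 3, 4)]
  Tc := [(2, 3, 4), (2, 3, 6), (2, 3, 7), (2, 4, 6), (2, 4, 7), (2, 6, 7)]
  Td := [((0, 1), (0, 1), 8), ((0, 1), (0, 8), 6), ((0, 1), (3, 4), 5), ((0, 1), (3, 5), 2), ((1,
    0), (2, 1), 8), ((1, 0), (2, 4), 5), ((2, 3), (5, 3), 0), ((2, 3), (5, 4), 5), ((2, 4),
    (5, 3), 0), ((2, 4), (5, 4), 5), ((2, 6), (5, 3), 0), ((2, 6), (5, 4), 5), ((2, 7), (5,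
    3), 0), ((2, 7), (5, 4), 5), ((3, 2), (6, 4), 5), ((3, 2), (6, 9), 7), ((4, 2), (7, 8),
    6), ((4, 2), (7, 9), 7), ((6, 2), (8, 0), 0), ((6, 2), (8, 7), 4), ((7, 2), (9, 6), 3),
    ((7, 2), (9, 7), 4)]
  G := [[0, 0xc232258c2332922c1664e238422ee41223e14e8a, 0,
    0x246412e6a2236d4528428289c1c2e642e628223edc128818cc,
    0xe46c4546b21424e483488a1c2462e44cc454eba144a821cc], [0,
    0xe281e234821223e98e4e2384e2348223e14e8c, 0x111e2111e464122111e11caa8c1,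
    0x24245242427a92fa8c2fab258cc1, 0xf4644a2f46248454e3ac48828c1]]

noncomputable def n2350 : Ent := ⟨e2350, noF, [], [], []⟩

def c2350 : PLift (Cov.check n2350.C.D v2350 = true) := ⟨by decide +kernel⟩

def b2350 : PLift (entF (fidx ts) 400 2350 n2350 = true) := ⟨by decide +kernel⟩

theorem g2350 : GoodF (fidx ts) 400 2350 := GoodF.ofV v2350 n2350 c2350.down b2350.down

/-- 4745675:1929/2 -/
noncomputable def e2351 : SCfg where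
  D := {
    a := 7
    L := 10
    kp := 8
    inn := [(0, 1), (1, 0), (1, 2), (1, 3), (1, 5), (2, 1), (3, 1), (3, 4), (3, 5), (4, 3), (4, 5), (4,
      6), (5, 1), (5, 3), (5, 4), (5, 6), (6, 4), (6, 5)]
    mix := [(0, 0), (0, 1), (0, 2), (1, 0), (1, 2), (1, 3), (2, 2), (2, 3), (2, 4), (3, 3), (3, 5), (4,
      5), (4, 6), (4, 7), (5, 0), (5, 8), (5, 9), (6, 4), (6, 7), (6, 8)]
    cl := [0, 7, 1, 0, 3, 2, 8, 4, 5, 6]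
    chq := [(0, 1), (1, 0), (2, 3), (2, 4), (2, 5), (2, 6), (3, 2), (4, 2), (5, 2), (6, 2)]
    rng := [(0, 1), (0, 9), (1, 0), (1, 2), (2, 1), (2, 4), (3, 4), (3, 5), (4, 2), (4, 3), (4, 7), (4,
      8), (5, 3), (5, 6), (6, 5), (6, 7), (7, 4), (7, 6), (8, 4), (8, 9), (9, 0), (9, 8)]
    lev := [] }
  links := [[1, 7, 8, 9], [7, 0, 9, 2, 10, 3, 5], [10, 1, 9, 11], [5, 1, 10, 12, 4], [5, 3, 12, 13, 14,
    6], [7, 1, 3, 4, 6, 15, 16], [15, 5, 4, 14, 11]]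
  P := {
    a := 7
    N := 17
    nb := [898, 1709, 3586, 5170, 28776, 98522, 51248, 65827, 641, 2311, 6158, 50756, 9240, 20496,
      10320, 67680, 32928]
    tri := [(0, 1, 7), (0, 1, 9), (0, 7, 8), (0, 8, 9), (1, 2, 9), (1, 2, 10), (1, 3, 5), (1, 3, 10),
      (1, 5, 7), (2, 9, 11), (2, 10, 11), (3, 4, 5), (3, 4, 12), (3, 10, 12), (4, 5, 6), (4, 6,
      14), (4, 12, 13), (4, 13, 14), (5, 6, 15), (5, 7, 16), (5, 15, 16), (6, 11, 14), (6, 11,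
      15)]
    fin := [0, 0, 0, 0, 4, 4, 6, 0, 8, 9, 0, 6, 4, 13, 14, 15, 16]
    chd := [(0, 9), (4, 14), (4, 15), (4, 16), (6, 4)]
    steps := [(0, 1), (0, 2), (0, 3), (0, 7), (0, 10), (4, 5), (4, 12), (6, 11)] }
  rep := [0, 9, 4, 6, 14, 15, 16, 8, 13]

noncomputable def v2351 : Cov.CovD where
  P := 3
  N := 6
  pl := [1, 6]
  lev := [⟨[], [], [(0, 1)], [7], [(0, 0, [1]), (2, 1, [0])]⟩,
    ⟨[], [(0, 0), (0, 1)], [(0, 0), (0, 1)], [], [(0, 0, [1]), (2, 1, [0]), (3, 0, [1])]⟩,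
    ⟨[(0, 1)], [(0, 1), (1, 0), (1, 1), (1, 3)], [(0, 1), (0, 3), (1, 3)], [], [(2, 1,
      [0]), (3, 0, [1]), (4, 3, [2])]⟩,
    ⟨[(0, 1), (1, 2)], [(1, 0), (1, 1), (1, 2), (2, 0)], [(0, 2)], [], [(3, 0, [1]), (5, 2,
      [3, 4, 5, 6])]⟩,
    ⟨[(1, 3)], [(3, 0), (3, 2), (3, 4)], [(2, 4)], [8], [(5, 2, [3, 4, 5, 6]), (7, 4,
      [2])]⟩,
    ⟨[(0, 1), (1, 2), (1, 3), (1, 4), (3, 4)], [(0, 0), (1, 0), (1, 1), (1, 5), (1, 6), (3,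
      0), (3, 2), (3, 5), (3, 6), (4, 0), (4, 2), (4, 4), (4, 5), (4, 6)], [(0, 5), (0, 6),
      (5, 6)], [], [(0, 0, [1]), (8, 5, [2]), (9, 6, [2])]⟩,
    ⟨[(1, 5), (3, 4), (3, 5), (4, 5)], [(2, 3), (4, 2), (4, 3), (4, 4), (4, 5), (5, 0), (5,
      3), (5, 4), (5, 5), (5, 6)], [(3, 4), (3, 5), (4, 5)], [], [(4, 3, [2]), (7, 4, [2]),
      (8, 5, [2])]⟩]
  Ta := [((0, 1), 0, 7), ((0, 9), 0, 6), ((3, 4), 0, 3), ((3, 5), 0, 2)]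
  Tb := [((0, 1, 9), 0, 7, 6), ((1, 0, 2), 7, 0, 1), ((2, 1, 4), 1, 7, 3), ((3, 4, 5), 0, 3, 2),
    ((4, 2, 3), 3, 1, 0), ((4, 2, 7), 3, 1, 4), ((4, 2, 8), 3, 1, 5), ((4, 3, 7), 3, 0, 4),
    ((4, 3, 8), 3, 0, 5), ((4, 7, 8), 3, 4, 5), ((5, 3, 6), 2, 0, 8), ((6, 5, 7), 8, 2, 4),
    ((7, 4, 6), 4, 3, 8), ((8, 4, 9), 5, 3, 6), ((9, 0, 8), 6, 0, 5)]
  Tc := [(2, 3, 4), (2, 3, 5), (2, 3, 6), (2, 4, 5), (2, 4, 6), (2, 5, 6)]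
  Td := [((0, 1), (0, 1), 7), ((0, 1), (0, 9), 6), ((0, 1), (3, 4), 3), ((0, 1), (3, 5), 2), ((1,
    0), (2, 1), 7), ((1, 0), (2, 4), 3), ((2, 3), (5, 3), 0), ((2, 3), (5, 6), 8), ((2, 4),
    (5, 3), 0), ((2, 4), (5, 6), 8), ((2, 5), (5, 3), 0), ((2, 5), (5, 6), 8), ((2, 6), (5,
    3), 0), ((2, 6), (5, 6), 8), ((3, 2), (4, 2), 1), ((3, 2), (4, 3), 0), ((3, 2), (4, 7),
    4), ((3, 2), (4, 8), 5), ((4, 2), (7, 4), 3), ((4, 2), (7, 6), 8), ((5, 2), (8, 4), 3),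
    ((5, 2), (8, 9), 6), ((6, 2), (9, 0), 0), ((6, 2), (9, 8), 5)]
  G := [[0, 0x2148842f272fa927a45282e2b2f6522fe8924e, 0,
    0x23622236d244612828c21c24423622a236dc128821cc,
    0x422f46d4f46b6142c2488a1c141f44f4ea3444a44a921cc], [0,
    0x2f27b232f6d246452827272f2b2fad828c24a, 0x116211614c6111e214111ec6c1811a18e211a82cc1,
    0x2a6b2236d24466232572289cc2828c24c1, 0xf462f46484f4eba448824c1]]

noncomputable def n2351 : Ent := ⟨e2351, noF, [], [], []⟩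

def c2351 : PLift (Cov.check n2351.C.D v2351 = true) := ⟨by decide +kernel⟩

def b2351 : PLift (entF (fidx ts) 400 2351 n2351 = true) := ⟨by decide +kernel⟩

theorem g2351 : GoodF (fidx ts) 400 2351 := GoodF.ofV v2351 n2351 c2351.down b2351.down

/-- 4745675:1929 -/
noncomputable def e2352 : SCfg where
  D := {
    a := 7
    L := 11
    kp := 9
    inn := [(0, 1), (1, 0), (1, 2), (1, 3), (1, 5), (2, 1), (3, 1), (3, 4), (3, 5), (4, 3), (4, 5), (4,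
      6), (5, 1), (5, 3), (5, 4), (5, 6), (6, 4), (6, 5)]
    mix := [(0, 0), (0, 1), (0, 2), (1, 0), (1, 2), (1, 3), (2, 2), (2, 3), (2, 4), (3, 3), (3, 5), (4,
      5), (4, 6), (4, 7), (5, 0), (5, 8), (5, 9), (6, 7), (6, 8), (6, 10)]
    cl := [0, 7, 1, 0, 8, 2, 9, 3, 4, 5, 6]
    chq := [(0, 1), (1, 0), (2, 3), (2, 4), (2, 5), (2, 6), (3, 2), (4, 2), (5, 2), (6, 2)]
    rng := [(0, 1), (0, 9), (1, 0), (1, 2), (2, 1), (2, 4), (3, 4), (3, 5), (4, 2), (4, 3), (5, 3), (5,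
      6), (6, 5), (6, 7), (7, 6), (7, 10), (8, 9), (8, 10), (9, 0), (9, 8), (10, 7), (10, 8)]
    lev := [] }
  links := [[1, 7, 8, 9], [7, 0, 9, 2, 10, 3, 5], [10, 1, 9, 11], [5, 1, 10, 12, 4], [5, 3, 12, 13, 14,
    6], [7, 1, 3, 4, 6, 15, 16], [15, 5, 4, 14, 17]]
  P := {
    a := 7
    N := 18
    nb := [898, 1709, 3586, 5170, 28776, 98522, 180272, 65827, 641, 2311, 6158, 1540, 9240, 20496,
      139344, 196704, 32928, 49216]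
    tri := [(0, 1, 7), (0, 1, 9), (0, 7, 8), (0, 8, 9), (1, 2, 9), (1, 2, 10), (1, 3, 5), (1, 3, 10),
      (1, 5, 7), (2, 9, 11), (2, 10, 11), (3, 4, 5), (3, 4, 12), (3, 10, 12), (4, 5, 6), (4, 6,
      14), (4, 12, 13), (4, 13, 14), (5, 6, 15), (5, 7, 16), (5, 15, 16), (6, 14, 17), (6, 15,
      17)]
    fin := [0, 0, 0, 0, 4, 4, 4, 0, 8, 9, 0, 11, 4, 13, 14, 15, 16, 17]
    chd := [(0, 9), (4, 14), (4, 15), (4, 16), (4, 17)]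
    steps := [(0, 1), (0, 2), (0, 3), (0, 7), (0, 10), (4, 5), (4, 6), (4, 12)] }
  rep := [0, 9, 4, 14, 15, 16, 17, 8, 11, 13]

noncomputable def v2352 : Cov.CovD where
  P := 3
  N := 7
  pl := [1, 4, 6]
  lev := [⟨[], [], [(0, 1)], [7], [(0, 0, [1]), (2, 1, [0])]⟩,
    ⟨[], [(0, 0), (0, 1)], [(0, 0), (0, 1)], [], [(0, 0, [1]), (2, 1, [0]), (3, 0, [1])]⟩,
    ⟨[(0, 1)], [(0, 1), (1, 0), (1, 1)], [(0, 1)], [8], [(2, 1, [0]), (3, 0, [1])]⟩,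
    ⟨[(0, 1), (1, 2)], [(1, 0), (1, 1), (1, 2), (2, 0)], [(0, 2)], [], [(3, 0, [1]), (5, 2,
      [3, 4, 5, 6])]⟩,
    ⟨[(1, 3)], [(3, 0), (3, 2), (3, 3)], [(2, 3)], [9], [(5, 2, [3, 4, 5, 6]), (7, 3,
      [2])]⟩,
    ⟨[(0, 1), (1, 2), (1, 3), (1, 4), (3, 4)], [(0, 0), (1, 0), (1, 1), (1, 4), (1, 5), (3,
      0), (3, 2), (3, 4), (3, 5), (4, 0), (4, 2), (4, 3), (4, 4), (4, 5)], [(0, 4), (0, 5),
      (4, 5)], [], [(0, 0, [1]), (8, 4, [2]), (9, 5, [2])]⟩,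
    ⟨[(1, 5), (3, 4), (3, 5), (4, 5)], [(4, 2), (4, 3), (4, 4), (4, 6), (5, 0), (5, 3), (5,
      4), (5, 5), (5, 6)], [(3, 4), (3, 6), (4, 6)], [], [(7, 3, [2]), (8, 4, [2]), (10, 6,
      [2])]⟩]
  Ta := [((0, 1), 0, 7), ((0, 9), 0, 5), ((3, 4), 0, 8), ((3, 5), 0, 2)]
  Tb := [((0, 1, 9), 0, 7, 5), ((1, 0, 2), 7, 0, 1), ((2, 1, 4), 1, 7, 8), ((3, 4, 5), 0, 8, 2),
    ((4, 2, 3), 8, 1, 0), ((5, 3, 6), 2, 0, 9), ((6, 5, 7), 9, 2, 3), ((7, 6, 10), 3, 9, 6),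
    ((8, 9, 10), 4, 5, 6), ((9, 0, 8), 5, 0, 4), ((10, 7, 8), 6, 3, 4)]
  Tc := [(2, 3, 4), (2, 3, 5), (2, 3, 6), (2, 4, 5), (2, 4, 6), (2, 5, 6)]
  Td := [((0, 1), (0, 1), 7), ((0, 1), (0, 9), 5), ((0, 1), (3, 4), 8), ((0, 1), (3, 5), 2), ((1,
    0), (2, 1), 7), ((1, 0), (2, 4), 8), ((2, 3), (5, 3), 0), ((2, 3), (5, 6), 9), ((2, 4),
    (5, 3), 0), ((2, 4), (5, 6), 9), ((2, 5), (5, 3), 0), ((2, 5), (5, 6), 9), ((2, 6), (5,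
    3), 0), ((2, 6), (5, 6), 9), ((3, 2), (7, 6), 9), ((3, 2), (7, 10), 6), ((4, 2), (8, 9),
    5), ((4, 2), (8, 10), 6), ((5, 2), (9, 0), 0), ((5, 2), (9, 8), 4), ((6, 2), (10, 7), 3),
    ((6, 2), (10, 8), 4)]
  G := [[0, 0x2fa4124223e92889a42a2721223ed422322ac24466821245282b23a9c223262bc8c4e, 0,
    0x24421242fa24d2fa23a9c1c2f623652f68c1282828d21cc,
    0xf444546b21424b4e48b488a1cf465463f464848ba148821cc], [0,
    0x2a2b23a9624521222e58a42144222d28221ed42812449e2225226582a272369284568e,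
    0x1221446116111e11ce2c111e11a11ce2122188acc1,
    0x24422f62492446c242fa24d2fa23a9c2fa23a5288acc1,
    0x422f46d454b6f462f4648454ebac42c44a3488a4882cc1]]

noncomputable def n2352 : Ent := ⟨e2352, noF, [], [], [(11, 13, [7334790875884699379652667093540608452385083566975740343373091413614593, 0]), (11, 17, [6903326391201334775872065844685381424292761054348340378595029939318785, 0])]⟩

def c2352 : PLift (Cov.check n2352.C.D v2352 = true) := ⟨by decide +kernel⟩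

def b2352 : PLift (entF (fidx ts) 400 2352 n2352 = true) := ⟨by decide +kernel⟩

theorem g2352 : GoodF (fidx ts) 400 2352 := GoodF.ofV v2352 n2352 c2352.down b2352.down

/-- 4744744:1931/2 -/
noncomputable def e2353 : SCfg where
  D := {
    a := 7
    L := 8
    kp := 6
    inn := [(0, 1), (1, 0), (1, 2), (1, 3), (2, 1), (2, 4), (3, 1), (4, 2), (4, 5), (4, 6), (5, 4), (6,
      4)]
    mix := [(0, 0), (0, 1), (0, 2), (1, 0), (1, 2), (1, 3), (1, 4), (2, 2), (2, 3), (3, 3), (3, 4), (3,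
      5), (4, 2), (4, 3), (4, 6), (4, 7), (5, 1), (5, 2), (5, 6), (6, 3), (6, 5), (6, 7)]
    cl := [1, 2, 0, 0, 5, 4, 6, 3]
    chq := [(0, 1), (0, 3), (1, 0), (1, 4), (2, 3), (3, 0), (3, 2), (4, 1)]
    rng := [(0, 1), (0, 4), (1, 0), (1, 2), (1, 6), (2, 1), (3, 5), (4, 0), (4, 5), (5, 3), (5, 4), (5,
      7), (6, 1), (6, 7), (7, 5), (7, 6)]
    lev := [] }
  links := [[1, 7, 8, 9], [7, 0, 9, 2, 10, 3, 11], [10, 1, 9, 4], [11, 1, 10, 12], [10, 2, 9, 5, 13, 14,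
    6], [13, 4, 9, 8], [10, 4, 14, 12]]
  P := {
    a := 7
    N := 15
    nb := [898, 3725, 1554, 7170, 26212, 8976, 21520, 2307, 8865, 311, 4190, 4234, 19528, 16688,
      12368]
    tri := [(0, 1, 7), (0, 1, 9), (0, 7, 8), (0, 8, 9), (1, 2, 9), (1, 2, 10), (1, 3, 10), (1, 3, 11),
      (1, 7, 11), (2, 4, 9), (2, 4, 10), (3, 10, 12), (3, 11, 12), (4, 5, 9), (4, 5, 13), (4, 6,
      10), (4, 6, 14), (4, 13, 14), (5, 8, 9), (5, 8, 13), (6, 10, 12), (6, 12, 14)]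
    fin := [0, 0, 2, 0, 4, 4, 2, 0, 4, 2, 2, 11, 12, 13, 14]
    chd := [(0, 2), (0, 12), (2, 14), (4, 14)]
    steps := [(0, 1), (0, 3), (0, 7), (2, 9), (2, 10), (2, 6), (4, 5), (4, 8)] }
  rep := [2, 0, 4, 14, 12, 11, 13]

noncomputable def v2353 : Cov.CovD where
  P := 3
  N := 4
  pl := [4, 6]
  lev := [⟨[], [], [(0, 1), (0, 2), (1, 2)], [], [(0, 1, [0, 4]), (1, 2, [3]), (2, 0, [1, 3])]⟩,
    ⟨[], [(0, 0), (0, 1), (0, 2)], [(0, 0), (0, 1)], [5], [(0, 1, [0, 4]), (2, 0, [1, 3]),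
      (3, 0, [1, 3])]⟩,
    ⟨[(0, 1)], [(0, 0), (1, 0), (1, 1)], [(0, 0)], [], [(2, 0, [1, 3]), (3, 0, [1, 3])]⟩,
    ⟨[(0, 1), (1, 2)], [(1, 0), (1, 1), (1, 4), (2, 0)], [(0, 4)], [5], [(3, 0, [1, 3]),
      (5, 4, [1])]⟩,
    ⟨[(1, 2)], [(0, 0), (1, 0), (2, 0), (2, 3), (3, 0)], [(0, 0), (0, 3)], [6], [(2, 0, [1,
      3]), (3, 0, [1, 3]), (7, 3, [0, 2])]⟩,
    ⟨[(2, 4)], [(0, 0), (0, 2), (1, 0), (2, 0), (4, 0), (4, 2), (4, 3)], [(0, 2)], [6],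
      [(1, 2, [3]), (2, 0, [1, 3])]⟩,
    ⟨[(2, 4), (4, 5)], [(1, 0), (2, 0), (3, 0), (3, 4), (4, 0), (4, 3), (4, 4)], [(0, 3),
      (0, 4), (3, 4)], [], [(3, 0, [1, 3]), (5, 4, [1]), (7, 3, [0, 2])]⟩]
  Ta := [((2, 1), 0, 2), ((3, 5), 0, 4)]
  Tb := [((0, 1, 4), 1, 2, 5), ((1, 0, 2), 2, 1, 0), ((1, 0, 6), 2, 1, 6), ((1, 2, 6), 2, 0, 6),
    ((4, 0, 5), 5, 1, 4), ((5, 3, 4), 4, 0, 5), ((5, 3, 7), 4, 0, 3), ((5, 4, 7), 4, 5, 3),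
    ((6, 1, 7), 6, 2, 3), ((7, 5, 6), 3, 4, 6)]
  Tc := [(0, 1, 3), (1, 0, 4), (3, 0, 2)]
  Td := [((0, 1), (2, 1), 2), ((0, 1), (3, 5), 4), ((0, 3), (2, 1), 2), ((0, 3), (3, 5), 4), ((1,
    0), (0, 1), 2), ((1, 0), (0, 4), 5), ((1, 4), (0, 1), 2), ((1, 4), (0, 4), 5), ((2, 3),
    (1, 0), 1), ((2, 3), (1, 2), 0), ((2, 3), (1, 6), 6), ((3, 0), (7, 5), 4), ((3, 0), (7,
    6), 6), ((3, 2), (7, 5), 4), ((3, 2), (7, 6), 6), ((4, 1), (5, 3), 0), ((4, 1), (5, 4),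
    5), ((4, 1), (5, 7), 3)]
  G := [[0, 0x1892112a4245cd228942c845e1211228e4, 0x181411ce221221212a646a46c78c1812a848c,
    0x22c22422c224c8, 0x5833a92e24422aea286548a81cc8], [0, 0x141811e48142811ce246181811e848c,
    0, 0x225224229228c4, 0x82328624841449e8186a4282882aaac4826a48ea689]]

noncomputable def n2353 : Ent := ⟨e2353, noF, [], [], []⟩

def c2353 : PLift (Cov.check n2353.C.D v2353 = true) := ⟨by decide +kernel⟩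

def b2353 : PLift (entF (fidx ts) 400 2353 n2353 = true) := ⟨by decide +kernel⟩

theorem g2353 : GoodF (fidx ts) 400 2353 := GoodF.ofV v2353 n2353 c2353.down b2353.down

/-- 4744744:1931/1 -/
noncomputable def e2354 : SCfg where
  D := {
    a := 7
    L := 9
    kp := 7
    inn := [(0, 1), (1, 0), (1, 2), (1, 3), (2, 1), (2, 4), (3, 1), (4, 2), (4, 5), (4, 6), (5, 4), (6,
      4)]
    mix := [(0, 0), (0, 1), (0, 2), (1, 0), (1, 2), (1, 3), (1, 4), (2, 2), (2, 3), (3, 3), (3, 4), (3,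
      5), (4, 2), (4, 3), (4, 6), (4, 7), (5, 1), (5, 2), (5, 6), (6, 3), (6, 7), (6, 8)]
    cl := [1, 2, 0, 0, 4, 6, 5, 3, 7]
    chq := [(0, 1), (0, 3), (1, 0), (1, 6), (2, 3), (3, 0), (3, 2), (6, 1)]
    rng := [(0, 1), (0, 4), (1, 0), (1, 2), (1, 6), (2, 1), (3, 5), (3, 8), (4, 0), (4, 5), (5, 3), (5,
      4), (6, 1), (6, 7), (7, 6), (7, 8), (8, 3), (8, 7)]
    lev := [] }
  links := [[1, 7, 8, 9], [7, 0, 9, 2, 10, 3, 11], [10, 1, 9, 4], [11, 1, 10, 12], [10, 2, 9, 5, 13, 14,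
    6], [13, 4, 9, 8], [10, 4, 14, 15]]
  P := {
    a := 7
    N := 16
    nb := [898, 3725, 1554, 7170, 26212, 8976, 50192, 2307, 8865, 311, 36958, 4234, 3080, 16688,
      41040, 17472]
    tri := [(0, 1, 7), (0, 1, 9), (0, 7, 8), (0, 8, 9), (1, 2, 9), (1, 2, 10), (1, 3, 10), (1, 3, 11),
      (1, 7, 11), (2, 4, 9), (2, 4, 10), (3, 10, 12), (3, 11, 12), (4, 5, 9), (4, 5, 13), (4, 6,
      10), (4, 6, 14), (4, 13, 14), (5, 8, 9), (5, 8, 13), (6, 10, 15), (6, 14, 15)]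
    fin := [0, 0, 2, 0, 4, 4, 2, 0, 4, 2, 2, 11, 12, 13, 14, 15]
    chd := [(0, 2), (0, 12), (2, 14), (4, 14)]
    steps := [(0, 1), (0, 3), (0, 7), (2, 9), (2, 10), (2, 6), (4, 5), (4, 8)] }
  rep := [2, 0, 4, 14, 11, 13, 12, 15]

noncomputable def v2354 : Cov.CovD where
  P := 3
  N := 5
  pl := [4, 6, 8]
  lev := [⟨[], [], [(0, 1), (0, 2), (1, 2)], [], [(0, 1, [0, 6]), (1, 2, [3]), (2, 0, [1, 3])]⟩,
    ⟨[], [(0, 0), (0, 1), (0, 2)], [(0, 0), (0, 1)], [4], [(0, 1, [0, 6]), (2, 0, [1, 3]),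
      (3, 0, [1, 3])]⟩,
    ⟨[(0, 1)], [(0, 0), (1, 0), (1, 1)], [(0, 0)], [], [(2, 0, [1, 3]), (3, 0, [1, 3])]⟩,
    ⟨[(0, 1), (1, 2)], [(1, 0), (1, 1), (1, 6), (2, 0)], [(0, 6)], [4], [(3, 0, [1, 3]),
      (5, 6, [1])]⟩,
    ⟨[(1, 2)], [(0, 0), (1, 0), (2, 0), (2, 3), (3, 0)], [(0, 0), (0, 3)], [5], [(2, 0, [1,
      3]), (3, 0, [1, 3]), (7, 3, [0, 2])]⟩,
    ⟨[(2, 4)], [(0, 0), (0, 2), (1, 0), (2, 0), (4, 0), (4, 2), (4, 3)], [(0, 2)], [5],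
      [(1, 2, [3]), (2, 0, [1, 3])]⟩,
    ⟨[(2, 4), (4, 5)], [(1, 0), (2, 0), (3, 0), (4, 0), (4, 3)], [(0, 3)], [7], [(3, 0, [1,
      3]), (7, 3, [0, 2])]⟩]
  Ta := [((2, 1), 0, 2), ((3, 5), 0, 6), ((3, 8), 0, 7)]
  Tb := [((0, 1, 4), 1, 2, 4), ((1, 0, 2), 2, 1, 0), ((1, 0, 6), 2, 1, 5), ((1, 2, 6), 2, 0, 5),
    ((3, 5, 8), 0, 6, 7), ((4, 0, 5), 4, 1, 6), ((5, 3, 4), 6, 0, 4), ((6, 1, 7), 5, 2, 3),
    ((7, 6, 8), 3, 5, 7), ((8, 3, 7), 7, 0, 3)]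
  Tc := [(0, 1, 3), (1, 0, 6), (3, 0, 2)]
  Td := [((0, 1), (2, 1), 2), ((0, 1), (3, 5), 6), ((0, 1), (3, 8), 7), ((0, 3), (2, 1), 2), ((0,
    3), (3, 5), 6), ((0, 3), (3, 8), 7), ((1, 0), (0, 1), 2), ((1, 0), (0, 4), 4), ((1, 6),
    (0, 1), 2), ((1, 6), (0, 4), 4), ((2, 3), (1, 0), 1), ((2, 3), (1, 2), 0), ((2, 3), (1,
    6), 5), ((3, 0), (7, 6), 5), ((3, 0), (7, 8), 7), ((3, 2), (7, 6), 5), ((3, 2), (7, 8),
    7), ((6, 1), (5, 3), 0), ((6, 1), (5, 4), 4)]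
  G := [[0, 0x181411e4241411628c8921118119e24ac, 0x12212261814c26122122a28ce4a4ec16c8,
    0x11cd222ddc222c8, 0x98248aeeac326821583dac2ac8], [0,
    0x1114115e481411115e2861411119e848c, 0, 0xee9224ee9224c8,
    0xe1442e168ee14ec282c4eea686248a24aa82848a8ec24a228c9]]

noncomputable def n2354 : Ent := ⟨e2354, noF, [], [], [(15, 12, [360035747228123463809659675990397950106674496442981057568116737, 0])]⟩

def c2354 : PLift (Cov.check n2354.C.D v2354 = true) := ⟨by decide +kernel⟩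

def b2354 : PLift (entF (fidx ts) 400 2354 n2354 = true) := ⟨by decide +kernel⟩

theorem g2354 : GoodF (fidx ts) 400 2354 := GoodF.ofV v2354 n2354 c2354.down b2354.down

/-- 4744744:1931/3 -/
noncomputable def e2355 : SCfg where
  D := {
    a := 7
    L := 9
    kp := 7
    inn := [(0, 1), (1, 0), (1, 2), (1, 3), (2, 1), (2, 4), (3, 1), (4, 2), (4, 5), (4, 6), (5, 4), (6,
      4)]
    mix := [(0, 0), (0, 1), (0, 2), (1, 0), (1, 2), (1, 3), (1, 4), (2, 2), (2, 3), (3, 3), (3, 4), (3,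
      5), (4, 2), (4, 3), (4, 6), (4, 7), (5, 2), (5, 6), (5, 8), (6, 3), (6, 5), (6, 7)]
    cl := [1, 6, 0, 0, 5, 3, 2, 4, 7]
    chq := [(0, 1), (0, 2), (0, 4), (1, 0), (1, 3), (2, 0), (3, 1), (4, 0)]
    rng := [(0, 1), (0, 4), (1, 0), (1, 2), (2, 1), (2, 8), (3, 5), (4, 0), (4, 5), (5, 3), (5, 4), (5,
      7), (6, 7), (6, 8), (7, 5), (7, 6), (8, 2), (8, 6)]
    lev := [] }
  links := [[1, 7, 8, 9], [7, 0, 9, 2, 10, 3, 11], [10, 1, 9, 4], [11, 1, 10, 12], [10, 2, 9, 5, 13, 14,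
    6], [13, 4, 9, 15], [10, 4, 14, 12]]
  P := {
    a := 7
    N := 16
    nb := [898, 3725, 1554, 7170, 26212, 41488, 21520, 2307, 641, 33079, 4190, 4234, 19528, 49200,
      12368, 8736]
    tri := [(0, 1, 7), (0, 1, 9), (0, 7, 8), (0, 8, 9), (1, 2, 9), (1, 2, 10), (1, 3, 10), (1, 3, 11),
      (1, 7, 11), (2, 4, 9), (2, 4, 10), (3, 10, 12), (3, 11, 12), (4, 5, 9), (4, 5, 13), (4, 6,
      10), (4, 6, 14), (4, 13, 14), (5, 9, 15), (5, 13, 15), (6, 10, 12), (6, 12, 14)]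
    fin := [0, 0, 0, 0, 4, 4, 4, 0, 8, 4, 4, 11, 12, 13, 14, 15]
    chd := [(0, 4), (0, 12), (4, 13), (4, 14)]
    steps := [(0, 1), (0, 2), (0, 3), (0, 7), (4, 5), (4, 6), (4, 9), (4, 10)] }
  rep := [4, 0, 13, 12, 14, 11, 8, 15]

noncomputable def v2355 : Cov.CovD where
  P := 3
  N := 5
  pl := [1, 4, 8]
  lev := [⟨[], [], [(0, 1)], [6], [(0, 1, [0, 3]), (2, 0, [1, 2, 4])]⟩,
    ⟨[], [(0, 0), (0, 1)], [(0, 0), (0, 1)], [5], [(0, 1, [0, 3]), (2, 0, [1, 2, 4]), (3,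
      0, [1, 2, 4])]⟩,
    ⟨[(0, 1)], [(0, 0), (1, 0), (1, 1)], [(0, 0)], [], [(2, 0, [1, 2, 4]), (3, 0, [1, 2,
      4])]⟩,
    ⟨[(0, 1), (1, 2)], [(1, 0), (1, 1), (1, 3), (2, 0)], [(0, 3)], [5], [(3, 0, [1, 2, 4]),
      (5, 3, [1])]⟩,
    ⟨[(1, 2)], [(0, 0), (1, 0), (2, 0), (2, 2), (2, 4), (3, 0)], [(0, 0), (0, 2), (0, 4),
      (2, 4)], [], [(2, 0, [1, 2, 4]), (3, 0, [1, 2, 4]), (6, 2, [0]), (7, 4, [0])]⟩,
    ⟨[(2, 4)], [(0, 0), (1, 0), (2, 0), (4, 0), (4, 2), (4, 4)], [(0, 2)], [7], [(2, 0, [1,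
      2, 4]), (6, 2, [0])]⟩,
    ⟨[(2, 4), (4, 5)], [(1, 0), (2, 0), (3, 0), (3, 3), (4, 0), (4, 2), (4, 3), (4, 4)],
      [(0, 3), (0, 4), (3, 4)], [], [(3, 0, [1, 2, 4]), (5, 3, [1]), (7, 4, [0])]⟩]
  Ta := [((2, 1), 0, 6), ((2, 8), 0, 7), ((3, 5), 0, 3)]
  Tb := [((0, 1, 4), 1, 6, 5), ((1, 0, 2), 6, 1, 0), ((2, 1, 8), 0, 6, 7), ((4, 0, 5), 5, 1, 3),
    ((5, 3, 4), 3, 0, 5), ((5, 3, 7), 3, 0, 4), ((5, 4, 7), 3, 5, 4), ((6, 7, 8), 2, 4, 7),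
    ((7, 5, 6), 4, 3, 2), ((8, 2, 6), 7, 0, 2)]
  Tc := [(0, 1, 2), (0, 1, 4), (0, 2, 4), (1, 0, 3)]
  Td := [((0, 1), (2, 1), 6), ((0, 1), (2, 8), 7), ((0, 1), (3, 5), 3), ((0, 2), (2, 1), 6), ((0,
    2), (2, 8), 7), ((0, 2), (3, 5), 3), ((0, 4), (2, 1), 6), ((0, 4), (2, 8), 7), ((0, 4),
    (3, 5), 3), ((1, 0), (0, 1), 6), ((1, 0), (0, 4), 5), ((1, 3), (0, 1), 6), ((1, 3), (0,
    4), 5), ((2, 0), (6, 7), 4), ((2, 0), (6, 8), 7), ((3, 1), (5, 3), 0), ((3, 1), (5, 4),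
    5), ((3, 1), (5, 7), 4), ((4, 0), (7, 5), 3), ((4, 0), (7, 6), 2)]
  G := [[0, 0x2111c41438181c2a161c124a161c128e, 0x122cca2ac638181214e22c1,
    0x13c42ec83279c82e2c416c8428c12c41cca26eca2cc12cc,
    0x1812ac264aa341223291aaa18842a8188eac1884ca12a64a2b412211a2a3884ea83acc], [0,
    0x1188161c32a161c12ca161c121111c2111ca46c, 0x121418e22ae662ac12c1,
    0x28ca8c26c8a24442c4a626c42cc28ca2cc62c1,
    0xc161a248121a8121aa4c6122818418aa212212a8182ac422466a48a4a4d]]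

noncomputable def n2355 : Ent := ⟨e2355, noF, [], [], [(8, 15, [360035742630636841211993100915356868655746945586763691017310209, 0])]⟩

def c2355 : PLift (Cov.check n2355.C.D v2355 = true) := ⟨by decide +kernel⟩

def b2355 : PLift (entF (fidx ts) 400 2355 n2355 = true) := ⟨by decide +kernel⟩

theorem g2355 : GoodF (fidx ts) 400 2355 := GoodF.ofV v2355 n2355 c2355.down b2355.down

/-- 4744744:1931 -/
noncomputable def e2356 : SCfg where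
  D := {
    a := 7
    L := 10
    kp := 8
    inn := [(0, 1), (1, 0), (1, 2), (1, 3), (2, 1), (2, 4), (3, 1), (4, 2), (4, 5), (4, 6), (5, 4), (6,
      4)]
    mix := [(0, 0), (0, 1), (0, 2), (1, 0), (1, 2), (1, 3), (1, 4), (2, 2), (2, 3), (3, 3), (3, 4), (3,
      5), (4, 2), (4, 3), (4, 6), (4, 7), (5, 2), (5, 6), (5, 8), (6, 3), (6, 7), (6, 9)]
    cl := [1, 6, 0, 0, 2, 5, 3, 4, 7, 8]
    chq := [(0, 1), (0, 3), (0, 4), (1, 0), (1, 5), (3, 0), (4, 0), (5, 1)]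
    rng := [(0, 1), (0, 4), (1, 0), (1, 2), (2, 1), (2, 8), (3, 5), (3, 9), (4, 0), (4, 5), (5, 3), (5,
      4), (6, 7), (6, 8), (7, 6), (7, 9), (8, 2), (8, 6), (9, 3), (9, 7)]
    lev := [] }
  links := [[1, 7, 8, 9], [7, 0, 9, 2, 10, 3, 11], [10, 1, 9, 4], [11, 1, 10, 12], [10, 2, 9, 5, 13, 14,
    6], [13, 4, 9, 15], [10, 4, 14, 16]]
  P := {
    a := 7
    N := 17
    nb := [898, 3725, 1554, 7170, 26212, 41488, 82960, 2307, 641, 33079, 69726, 4234, 3080, 49200,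
      73808, 8736, 17472]
    tri := [(0, 1, 7), (0, 1, 9), (0, 7, 8), (0, 8, 9), (1, 2, 9), (1, 2, 10), (1, 3, 10), (1, 3, 11),
      (1, 7, 11), (2, 4, 9), (2, 4, 10), (3, 10, 12), (3, 11, 12), (4, 5, 9), (4, 5, 13), (4, 6,
      10), (4, 6, 14), (4, 13, 14), (5, 9, 15), (5, 13, 15), (6, 10, 16), (6, 14, 16)]
    fin := [0, 0, 0, 0, 4, 4, 4, 0, 8, 4, 4, 11, 12, 13, 14, 15, 16]
    chd := [(0, 4), (0, 12), (4, 13), (4, 14)]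
    steps := [(0, 1), (0, 2), (0, 3), (0, 7), (4, 5), (4, 6), (4, 9), (4, 10)] }
  rep := [4, 0, 11, 13, 14, 12, 8, 15, 16]

noncomputable def v2356 : Cov.CovD where
  P := 3
  N := 6
  pl := [1, 4, 8, 9]
  lev := [⟨[], [], [(0, 1)], [6], [(0, 1, [0, 5]), (2, 0, [1, 3, 4])]⟩,
    ⟨[], [(0, 0), (0, 1)], [(0, 0), (0, 1)], [2], [(0, 1, [0, 5]), (2, 0, [1, 3, 4]), (3,
      0, [1, 3, 4])]⟩,
    ⟨[(0, 1)], [(0, 0), (1, 0), (1, 1)], [(0, 0)], [], [(2, 0, [1, 3, 4]), (3, 0, [1, 3,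
      4])]⟩,
    ⟨[(0, 1), (1, 2)], [(1, 0), (1, 1), (1, 5), (2, 0)], [(0, 5)], [2], [(3, 0, [1, 3, 4]),
      (5, 5, [1])]⟩,
    ⟨[(1, 2)], [(0, 0), (1, 0), (2, 0), (2, 3), (2, 4), (3, 0)], [(0, 0), (0, 3), (0, 4),
      (3, 4)], [], [(2, 0, [1, 3, 4]), (3, 0, [1, 3, 4]), (6, 3, [0]), (7, 4, [0])]⟩,
    ⟨[(2, 4)], [(0, 0), (1, 0), (2, 0), (4, 0), (4, 3), (4, 4)], [(0, 3)], [7], [(2, 0, [1,
      3, 4]), (6, 3, [0])]⟩,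
    ⟨[(2, 4), (4, 5)], [(1, 0), (2, 0), (3, 0), (4, 0), (4, 3), (4, 4)], [(0, 4)], [8],
      [(3, 0, [1, 3, 4]), (7, 4, [0])]⟩]
  Ta := [((2, 1), 0, 6), ((2, 8), 0, 7), ((3, 5), 0, 5), ((3, 9), 0, 8)]
  Tb := [((0, 1, 4), 1, 6, 2), ((1, 0, 2), 6, 1, 0), ((2, 1, 8), 0, 6, 7), ((3, 5, 9), 0, 5, 8),
    ((4, 0, 5), 2, 1, 5), ((5, 3, 4), 5, 0, 2), ((6, 7, 8), 3, 4, 7), ((7, 6, 9), 4, 3, 8),
    ((8, 2, 6), 7, 0, 3), ((9, 3, 7), 8, 0, 4)]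
  Tc := [(0, 1, 3), (0, 1, 4), (0, 3, 4), (1, 0, 5)]
  Td := [((0, 1), (2, 1), 6), ((0, 1), (2, 8), 7), ((0, 1), (3, 5), 5), ((0, 1), (3, 9), 8), ((0,
    3), (2, 1), 6), ((0, 3), (2, 8), 7), ((0, 3), (3, 5), 5), ((0, 3), (3, 9), 8), ((0, 4),
    (2, 1), 6), ((0, 4), (2, 8), 7), ((0, 4), (3, 5), 5), ((0, 4), (3, 9), 8), ((1, 0), (0,
    1), 6), ((1, 0), (0, 4), 2), ((1, 5), (0, 1), 6), ((1, 5), (0, 4), 2), ((3, 0), (6, 7),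
    4), ((3, 0), (6, 8), 7), ((4, 0), (7, 6), 3), ((4, 0), (7, 9), 8), ((5, 1), (5, 3), 0),
    ((5, 1), (5, 4), 2)]
  G := [[0, 0x1111a1111ae14d28111111e111111ec846, 0x1b1e42711e11dea2c41222391e531e11cde2a8c,
    0x141261222466ca6a8eed18a811a14c848da41221226ac2d1814c1814cac66cacd68c,
    0x122271ce1bce11ce268711e11dea21b1e4268c], [0, 0x111111e448e1211111c8a4112e1e1c928e,
    0x21221e51e31c9e2a41e5221e332cdc2a4c,
    0xe1e1c42e1e16212c1e988cc1e9e1a212ce14e1e1cc6868ce2e84e2866584d,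
    0x1e91e5a21e34268145421e3a11e9e2c8c]]

noncomputable def n2356 : Ent := ⟨e2356, noF, [], [], [(8, 15, [1685356702439545624007900436039642273970977273354372543760009732097, 0]), (16, 12, [1580044410777118419473445963789405229760683414688298388994433167361, 0])]⟩

def c2356 : PLift (Cov.check n2356.C.D v2356 = true) := ⟨by decide +kernel⟩

def b2356 : PLift (entF (fidx ts) 400 2356 n2356 = true) := ⟨by decide +kernel⟩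

theorem g2356 : GoodF (fidx ts) 400 2356 := GoodF.ofV v2356 n2356 c2356.down b2356.down

/-- 4746644:1933/2 -/
noncomputable def e2357 : SCfg where
  D := {
    a := 7
    L := 9
    kp := 6
    inn := [(0, 1), (1, 0), (1, 2), (1, 3), (2, 1), (2, 4), (3, 1), (3, 5), (4, 2), (4, 6), (5, 3), (6,
      4)]
    mix := [(0, 0), (0, 1), (0, 2), (1, 0), (1, 2), (1, 3), (1, 4), (2, 2), (2, 3), (3, 3), (3, 4), (3,
      5), (3, 6), (4, 2), (4, 3), (4, 7), (4, 8), (5, 1), (5, 5), (5, 6), (6, 1), (6, 2), (6, 7)]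
    cl := [2, 1, 0, 0, 0, 3, 4, 5, 6]
    chq := [(1, 6), (3, 4), (4, 3), (6, 1)]
    rng := [(0, 1), (0, 4), (1, 0), (1, 2), (1, 5), (1, 6), (1, 7), (2, 1), (3, 5), (3, 8), (4, 0), (4,
      6), (5, 1), (5, 3), (6, 1), (6, 4), (7, 1), (7, 8), (8, 3), (8, 7)]
    lev := [] }
  links := [[1, 7, 8, 9], [7, 0, 9, 2, 10, 3, 11], [10, 1, 9, 4], [11, 1, 10, 12, 5, 13], [10, 2, 9, 6,
    14, 15], [13, 3, 12, 8], [14, 4, 9, 8]]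
  P := {
    a := 7
    N := 16
    nb := [898, 3725, 1554, 15394, 50756, 12552, 17168, 2307, 29409, 343, 36894, 8330, 1320, 2344,
      33104, 17424]
    tri := [(0, 1, 7), (0, 1, 9), (0, 7, 8), (0, 8, 9), (1, 2, 9), (1, 2, 10), (1, 3, 10), (1, 3, 11),
      (1, 7, 11), (2, 4, 9), (2, 4, 10), (3, 5, 12), (3, 5, 13), (3, 10, 12), (3, 11, 13), (4, 6,
      9), (4, 6, 14), (4, 10, 15), (4, 14, 15), (5, 8, 12), (5, 8, 13), (6, 8, 9), (6, 8, 14)]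
    fin := [0, 0, 2, 2, 4, 5, 4, 0, 4, 2, 2, 2, 5, 13, 14, 15]
    chd := [(4, 15), (5, 13)]
    steps := [(0, 1), (0, 7), (2, 9), (2, 10), (2, 3), (2, 11), (4, 6), (4, 8), (5, 12)] }
  rep := [2, 4, 0, 5, 13, 14, 15]

noncomputable def v2357 : Cov.CovD where
  P := 3
  N := 4
  pl := [0, 7]
  lev := [⟨[], [], [(0, 1)], [2], [(1, 1, [6]), (2, 0, [])]⟩,
    ⟨[], [(0, 0), (0, 1)], [(0, 0)], [2], [(2, 0, []), (3, 0, []), (4, 0, [])]⟩,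
    ⟨[(0, 1)], [(0, 0), (1, 0)], [(0, 0)], [], [(2, 0, []), (3, 0, [])]⟩,
    ⟨[(0, 1), (1, 2)], [(1, 0), (1, 3), (1, 4), (2, 0)], [(0, 0), (0, 3), (0, 4), (3, 4)],
      [], [(3, 0, []), (4, 0, []), (5, 3, [4]), (6, 4, [3])]⟩,
    ⟨[(1, 2)], [(0, 0), (1, 0), (2, 0), (2, 6), (3, 0)], [(0, 0), (0, 6)], [5], [(2, 0,
      []), (3, 0, []), (8, 6, [1])]⟩,
    ⟨[(1, 3)], [(0, 1), (3, 0), (3, 1), (3, 3), (3, 4)], [(1, 3), (1, 4), (3, 4)], [], [(1,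
      1, [6]), (5, 3, [4]), (6, 4, [3])]⟩,
    ⟨[(2, 4)], [(0, 0), (0, 1), (1, 0), (2, 0), (4, 0), (4, 1), (4, 6), (5, 1)], [(0, 1)],
      [5], [(1, 1, [6]), (2, 0, [])]⟩]
  Ta := [((2, 1), 0, 1), ((3, 5), 0, 3), ((3, 8), 0, 6), ((4, 0), 0, 2), ((4, 6), 0, 4)]
  Tb := [((0, 1, 4), 2, 1, 0), ((1, 0, 2), 1, 2, 0), ((1, 0, 5), 1, 2, 3), ((1, 0, 6), 1, 2, 4),
    ((1, 0, 7), 1, 2, 5), ((1, 2, 5), 1, 0, 3), ((1, 2, 6), 1, 0, 4), ((1, 2, 7), 1, 0, 5),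
    ((1, 5, 6), 1, 3, 4), ((1, 5, 7), 1, 3, 5), ((1, 6, 7), 1, 4, 5), ((3, 5, 8), 0, 3, 6),
    ((4, 0, 6), 0, 2, 4), ((5, 1, 3), 3, 1, 0), ((6, 1, 4), 4, 1, 0), ((7, 1, 8), 5, 1, 6),
    ((8, 3, 7), 6, 0, 5)]
  Tc := []
  Td := [((1, 6), (1, 0), 2), ((1, 6), (1, 2), 0), ((1, 6), (1, 5), 3), ((1, 6), (1, 6), 4), ((1,
    6), (1, 7), 5), ((3, 4), (5, 1), 1), ((3, 4), (5, 3), 0), ((4, 3), (6, 1), 1), ((4, 3),
    (6, 4), 0), ((6, 1), (8, 3), 0), ((6, 1), (8, 7), 5)]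
  G := [[0, 0x8424a44444628288848c8242c2eaac4, 0, 0xc122244, 0xc82c128181c1ee428], [0, 0, 0,
    0x595d22844, 0xc82542414d888d11ee828], [0, 0, 0x982512111151ee848, 0xcc9d22448,
    0xc82c42488d888dc1ee421]]

noncomputable def n2357 : Ent := ⟨e2357, noF, [], [], []⟩

def c2357 : PLift (Cov.check n2357.C.D v2357 = true) := ⟨by decide +kernel⟩

def b2357 : PLift (entF (fidx ts) 400 2357 n2357 = true) := ⟨by decide +kernel⟩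

theorem g2357 : GoodF (fidx ts) 400 2357 := GoodF.ofV v2357 n2357 c2357.down b2357.down

/-- 4746644:1933/4 -/
noncomputable def e2358 : SCfg where
  D := {
    a := 7
    L := 8
    kp := 5
    inn := [(0, 1), (1, 0), (1, 2), (1, 3), (2, 1), (2, 4), (3, 1), (3, 5), (4, 2), (4, 6), (5, 3), (6,
      4)]
    mix := [(0, 0), (0, 1), (0, 2), (1, 0), (1, 2), (1, 3), (1, 4), (2, 2), (2, 3), (3, 3), (3, 4), (3,
      5), (3, 6), (4, 2), (4, 3), (4, 5), (4, 7), (5, 5), (5, 6), (5, 7), (6, 1), (6, 2), (6, 7)]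
    cl := [2, 4, 0, 1, 0, 0, 5, 3]
    chq := [(1, 3), (1, 4), (3, 1), (4, 1)]
    rng := [(0, 1), (0, 4), (1, 0), (1, 2), (1, 7), (2, 1), (3, 5), (4, 0), (4, 6), (5, 3), (5, 7), (6,
      4), (6, 7), (7, 1), (7, 5), (7, 6)]
    lev := [] }
  links := [[1, 7, 8, 9], [7, 0, 9, 2, 10, 3, 11], [10, 1, 9, 4], [11, 1, 10, 12, 5, 13], [10, 2, 9, 6,
    14, 12], [13, 3, 12, 14], [14, 4, 9, 8]]
  P := {
    a := 7
    N := 15
    nb := [898, 3725, 1554, 15394, 22084, 28680, 17168, 2307, 17089, 343, 4126, 8330, 17464, 18472,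
      12656]
    tri := [(0, 1, 7), (0, 1, 9), (0, 7, 8), (0, 8, 9), (1, 2, 9), (1, 2, 10), (1, 3, 10), (1, 3, 11),
      (1, 7, 11), (2, 4, 9), (2, 4, 10), (3, 5, 12), (3, 5, 13), (3, 10, 12), (3, 11, 13), (4, 6,
      9), (4, 6, 14), (4, 10, 12), (4, 12, 14), (5, 12, 14), (5, 13, 14), (6, 8, 9), (6, 8, 14)]
    fin := [0, 1, 1, 1, 4, 1, 6, 0, 6, 1, 4, 1, 1, 13, 14]
    chd := [(4, 14), (6, 4)]
    steps := [(0, 7), (1, 2), (1, 3), (1, 5), (1, 9), (1, 11), (4, 10), (1, 12), (6, 8)] }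
  rep := [1, 4, 0, 14, 6, 13]

noncomputable def v2358 : Cov.CovD where
  P := 3
  N := 3
  pl := [0, 6]
  lev := [⟨[], [], [(0, 4)], [2], [(1, 4, [1]), (2, 0, [])]⟩,
    ⟨[], [(0, 0), (0, 1), (0, 4)], [(0, 0), (0, 1)], [2], [(2, 0, []), (3, 1, [3, 4]), (4,
      0, [])]⟩,
    ⟨[(0, 1)], [(0, 0), (1, 0), (1, 1)], [(0, 1)], [], [(2, 0, []), (3, 1, [3, 4])]⟩,
    ⟨[(0, 1), (1, 2)], [(1, 0), (1, 1), (2, 1)], [(0, 0), (0, 1)], [5], [(3, 1, [3, 4]),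
      (4, 0, []), (5, 0, [])]⟩,
    ⟨[(1, 2)], [(0, 0), (1, 0), (1, 1), (2, 0), (2, 1), (2, 3), (3, 0), (3, 1)], [(0, 0),
      (0, 1), (0, 3), (1, 3)], [], [(2, 0, []), (3, 1, [3, 4]), (5, 0, []), (7, 3, [1])]⟩,
    ⟨[(1, 3)], [(3, 0), (3, 1), (3, 3), (4, 0), (4, 3)], [(0, 3)], [5], [(5, 0, []), (7, 3,
      [1])]⟩,
    ⟨[(2, 4)], [(0, 0), (0, 4), (1, 0), (2, 0), (4, 0), (4, 1), (4, 3), (4, 4), (5, 3)],
      [(0, 3), (0, 4), (3, 4)], [], [(1, 4, [1]), (2, 0, []), (7, 3, [1])]⟩]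
  Ta := [((2, 1), 0, 4), ((4, 0), 0, 2), ((4, 6), 0, 5), ((5, 3), 0, 1), ((5, 7), 0, 3)]
  Tb := [((0, 1, 4), 2, 4, 0), ((1, 0, 2), 4, 2, 0), ((1, 0, 7), 4, 2, 3), ((1, 2, 7), 4, 0, 3),
    ((4, 0, 6), 0, 2, 5), ((5, 3, 7), 0, 1, 3), ((6, 4, 7), 5, 0, 3), ((7, 1, 5), 3, 4, 0),
    ((7, 1, 6), 3, 4, 5), ((7, 5, 6), 3, 0, 5)]
  Tc := [(1, 3, 4)]
  Td := [((1, 3), (3, 5), 0), ((1, 4), (3, 5), 0), ((3, 1), (7, 1), 4), ((3, 1), (7, 5), 0), ((3,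
    1), (7, 6), 5), ((4, 1), (1, 0), 2), ((4, 1), (1, 2), 0), ((4, 1), (1, 7), 3)]
  G := [[0, 0, 0, 0x2142122cc842121c218c48c, 0x244214648a121ca18c48a], [0, 0, 0x1211c1112cc482,
    0x2121c2224cc481, 0x1112c1214cc482], [0, 0xe222e4446e8884c1, 0, 0x2224c442822c88c1,
    0xe222c22a24cc481]]

noncomputable def n2358 : Ent := ⟨e2358, noF, [], [], []⟩

def c2358 : PLift (Cov.check n2358.C.D v2358 = true) := ⟨by decide +kernel⟩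

def b2358 : PLift (entF (fidx ts) 400 2358 n2358 = true) := ⟨by decide +kernel⟩

theorem g2358 : GoodF (fidx ts) 400 2358 := GoodF.ofV v2358 n2358 c2358.down b2358.down

/-- 4746644:1933/3 -/
noncomputable def e2359 : SCfg where
  D := {
    a := 7
    L := 9
    kp := 6
    inn := [(0, 1), (1, 0), (1, 2), (1, 3), (2, 1), (2, 4), (3, 1), (3, 5), (4, 2), (4, 6), (5, 3), (6,
      4)]
    mix := [(0, 0), (0, 1), (0, 2), (1, 0), (1, 2), (1, 3), (1, 4), (2, 2), (2, 3), (3, 3), (3, 4), (3,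
      5), (3, 6), (4, 2), (4, 3), (4, 7), (4, 8), (5, 5), (5, 6), (5, 7), (6, 1), (6, 2), (6, 7)]
    cl := [2, 4, 0, 1, 1, 5, 6, 3, 0]
    chq := [(1, 3), (1, 4), (3, 1), (4, 1)]
    rng := [(0, 1), (0, 4), (1, 0), (1, 2), (1, 7), (2, 1), (3, 5), (3, 8), (4, 0), (4, 6), (5, 3), (5,
      7), (6, 4), (6, 7), (7, 1), (7, 5), (7, 6), (7, 8), (8, 3), (8, 7)]
    lev := [] }
  links := [[1, 7, 8, 9], [7, 0, 9, 2, 10, 3, 11], [10, 1, 9, 4], [11, 1, 10, 12, 5, 13], [10, 2, 9, 6,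
    14, 15], [13, 3, 12, 14], [14, 4, 9, 8]]
  P := {
    a := 7
    N := 16
    nb := [898, 3725, 1554, 15394, 50756, 28680, 17168, 2307, 17089, 343, 36894, 8330, 17448, 18472,
      45424, 17424]
    tri := [(0, 1, 7), (0, 1, 9), (0, 7, 8), (0, 8, 9), (1, 2, 9), (1, 2, 10), (1, 3, 10), (1, 3, 11),
      (1, 7, 11), (2, 4, 9), (2, 4, 10), (3, 5, 12), (3, 5, 13), (3, 10, 12), (3, 11, 13), (4, 6,
      9), (4, 6, 14), (4, 10, 15), (4, 14, 15), (5, 12, 14), (5, 13, 14), (6, 8, 9), (6, 8, 14)]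
    fin := [0, 0, 0, 3, 4, 5, 0, 7, 0, 4, 3, 3, 12, 13, 5, 4]
    chd := [(0, 3), (3, 5)]
    steps := [(0, 1), (0, 2), (0, 8), (3, 10), (3, 11), (4, 9), (0, 6), (4, 15), (5, 14)] }
  rep := [4, 3, 7, 5, 0, 12, 13]

noncomputable def v2359 : Cov.CovD where
  P := 3
  N := 4
  pl := [0, 5, 6]
  lev := [⟨[], [], [(0, 4)], [2], [(1, 4, [1]), (2, 0, [])]⟩,
    ⟨[], [(0, 0), (0, 1), (0, 4)], [(0, 1), (1, 1)], [2], [(2, 0, []), (3, 1, [3, 4]), (4,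
      1, [3, 4])]⟩,
    ⟨[(0, 1)], [(0, 0), (1, 0), (1, 1)], [(0, 1)], [], [(2, 0, []), (3, 1, [3, 4])]⟩,
    ⟨[(0, 1), (1, 2)], [(1, 0), (1, 1), (2, 1)], [(1, 1)], [5, 6], [(3, 1, [3, 4]), (4, 1,
      [3, 4])]⟩,
    ⟨[(1, 2)], [(0, 0), (1, 0), (1, 1), (2, 0), (2, 1), (2, 3), (3, 1)], [(0, 0), (0, 1),
      (0, 3), (1, 3)], [], [(2, 0, []), (3, 1, [3, 4]), (7, 3, [1]), (8, 0, [])]⟩,
    ⟨[(1, 3)], [(3, 1), (3, 3), (4, 3)], [], [5, 6], [(7, 3, [1])]⟩,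
    ⟨[(2, 4)], [(0, 0), (0, 4), (1, 0), (2, 0), (4, 0), (4, 1), (4, 3), (4, 4), (5, 3)],
      [(0, 3), (0, 4), (3, 4)], [], [(1, 4, [1]), (2, 0, []), (7, 3, [1])]⟩]
  Ta := [((2, 1), 0, 4), ((3, 5), 1, 5), ((3, 8), 1, 0), ((4, 0), 1, 2), ((4, 6), 1, 6), ((8, 3),
    0, 1), ((8, 7), 0, 3)]
  Tb := [((0, 1, 4), 2, 4, 1), ((1, 0, 2), 4, 2, 0), ((1, 0, 7), 4, 2, 3), ((1, 2, 7), 4, 0, 3),
    ((3, 5, 8), 1, 5, 0), ((4, 0, 6), 1, 2, 6), ((5, 3, 7), 5, 1, 3), ((6, 4, 7), 6, 1, 3),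
    ((7, 1, 5), 3, 4, 5), ((7, 1, 6), 3, 4, 6), ((7, 1, 8), 3, 4, 0), ((7, 5, 6), 3, 5, 6),
    ((7, 5, 8), 3, 5, 0), ((7, 6, 8), 3, 6, 0), ((8, 3, 7), 0, 1, 3)]
  Tc := [(1, 3, 4)]
  Td := [((1, 3), (3, 5), 5), ((1, 3), (3, 8), 0), ((1, 3), (4, 0), 2), ((1, 3), (4, 6), 6), ((1,
    4), (3, 5), 5), ((1, 4), (3, 8), 0), ((1, 4), (4, 0), 2), ((1, 4), (4, 6), 6), ((3, 1),
    (7, 1), 4), ((3, 1), (7, 5), 5), ((3, 1), (7, 6), 6), ((3, 1), (7, 8), 0), ((4, 1), (1,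
    0), 2), ((4, 1), (1, 2), 0), ((4, 1), (1, 7), 3)]
  G := [[0, 0, 0x266422e282e216182eda888c42, 0, 0xe22242e2aa2444ea12142ed482], [0, 0,
    0x2aa2442e4a262ca161c9682, 0x22422826214d842222c228228d48c, 0xa262c2aa64ca161cd282], [0,
    0x1141111a114e2411116118118e28c, 0x1212c21a34c2c2b11cd482, 0,
    0xa888412242224c21223cd483], [0, 0, 0x24126c2116583812c88c2, 0x2222c2222c2222cd841,
    0x1241264ca1311cd2a888292]]

noncomputable def n2359 : Ent := ⟨e2359, noF, [], [], [(15, 12, [360035747228123463809659675990397950106674496442981057568137217, 0])]⟩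

def c2359 : PLift (Cov.check n2359.C.D v2359 = true) := ⟨by decide +kernel⟩

def b2359 : PLift (entF (fidx ts) 400 2359 n2359 = true) := ⟨by decide +kernel⟩

theorem g2359 : GoodF (fidx ts) 400 2359 := GoodF.ofV v2359 n2359 c2359.down b2359.down

/-- 4746644:1933/5 -/
noncomputable def e2360 : SCfg where
  D := {
    a := 7
    L := 9
    kp := 6
    inn := [(0, 1), (1, 0), (1, 2), (1, 3), (2, 1), (2, 4), (3, 1), (3, 5), (4, 2), (4, 6), (5, 3), (6,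
      4)]
    mix := [(0, 0), (0, 1), (0, 2), (1, 0), (1, 2), (1, 3), (1, 4), (2, 2), (2, 3), (3, 3), (3, 4), (3,
      5), (3, 6), (4, 2), (4, 3), (4, 5), (4, 7), (5, 5), (5, 6), (5, 8), (6, 1), (6, 2), (6, 7)]
    cl := [2, 3, 0, 1, 1, 0, 4, 5, 6]
    chq := [(0, 4), (1, 3), (3, 1), (4, 0)]
    rng := [(0, 1), (0, 4), (1, 0), (1, 2), (1, 7), (2, 1), (3, 5), (4, 0), (4, 6), (5, 3), (5, 7), (5,
      8), (6, 4), (6, 8), (7, 1), (7, 5), (8, 5), (8, 6)]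
    lev := [] }
  links := [[1, 7, 8, 9], [7, 0, 9, 2, 10, 3, 11], [10, 1, 9, 4], [11, 1, 10, 12, 5, 13], [10, 2, 9, 6,
    14, 12], [13, 3, 12, 15], [14, 4, 9, 8]]
  P := {
    a := 7
    N := 16
    nb := [898, 3725, 1554, 15394, 22084, 45064, 17168, 2307, 17089, 343, 4126, 8330, 50232, 34856,
      4432, 12320]
    tri := [(0, 1, 7), (0, 1, 9), (0, 7, 8), (0, 8, 9), (1, 2, 9), (1, 2, 10), (1, 3, 10), (1, 3, 11),
      (1, 7, 11), (2, 4, 9), (2, 4, 10), (3, 5, 12), (3, 5, 13), (3, 10, 12), (3, 11, 13), (4, 6,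
      9), (4, 6, 14), (4, 10, 12), (4, 12, 14), (5, 12, 15), (5, 13, 15), (6, 8, 9), (6, 8, 14)]
    fin := [0, 0, 0, 3, 4, 4, 0, 7, 0, 4, 3, 3, 4, 13, 14, 15]
    chd := [(0, 3), (4, 13)]
    steps := [(0, 1), (0, 2), (0, 8), (3, 10), (3, 11), (4, 9), (0, 6), (4, 12), (4, 5)] }
  rep := [4, 3, 7, 0, 13, 14, 15]

noncomputable def v2360 : Cov.CovD where
  P := 3
  N := 4
  pl := [0, 7, 8]
  lev := [⟨[], [], [(0, 3)], [2], [(1, 3, [1]), (2, 0, [4])]⟩,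
    ⟨[], [(0, 0), (0, 1), (0, 3)], [(0, 1), (1, 1)], [2], [(2, 0, [4]), (3, 1, [3]), (4, 1,
      [3])]⟩,
    ⟨[(0, 1)], [(0, 0), (1, 0), (1, 1)], [(0, 1)], [], [(2, 0, [4]), (3, 1, [3])]⟩,
    ⟨[(0, 1), (1, 2)], [(1, 0), (1, 1), (1, 4), (2, 1)], [(0, 1), (0, 4), (1, 1), (1, 4)],
      [], [(3, 1, [3]), (4, 1, [3]), (5, 0, [4]), (6, 4, [0])]⟩,
    ⟨[(1, 2)], [(0, 0), (1, 0), (1, 1), (2, 0), (2, 1), (3, 0), (3, 1)], [(0, 0), (0, 1)],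
      [5], [(2, 0, [4]), (3, 1, [3]), (5, 0, [4])]⟩,
    ⟨[(1, 3)], [(3, 0), (3, 1), (3, 4), (4, 0)], [(0, 4)], [6], [(5, 0, [4]), (6, 4, [0])]⟩,
    ⟨[(2, 4)], [(0, 0), (0, 3), (1, 0), (2, 0), (4, 0), (4, 1), (4, 3)], [(0, 3)], [5],
      [(1, 3, [1]), (2, 0, [4])]⟩]
  Ta := [((2, 1), 0, 3), ((3, 5), 1, 0), ((4, 0), 1, 2), ((4, 6), 1, 4), ((5, 3), 0, 1), ((5, 7),
    0, 5), ((5, 8), 0, 6)]
  Tb := [((0, 1, 4), 2, 3, 1), ((1, 0, 2), 3, 2, 0), ((1, 0, 7), 3, 2, 5), ((1, 2, 7), 3, 0, 5),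
    ((4, 0, 6), 1, 2, 4), ((5, 3, 7), 0, 1, 5), ((5, 3, 8), 0, 1, 6), ((5, 7, 8), 0, 5, 6),
    ((6, 4, 8), 4, 1, 6), ((7, 1, 5), 5, 3, 0), ((8, 5, 6), 6, 0, 4)]
  Tc := []
  Td := [((0, 4), (2, 1), 3), ((0, 4), (5, 3), 1), ((0, 4), (5, 7), 5), ((0, 4), (5, 8), 6), ((1,
    3), (3, 5), 0), ((1, 3), (4, 0), 2), ((1, 3), (4, 6), 4), ((3, 1), (1, 0), 2), ((3, 1),
    (1, 2), 0), ((3, 1), (1, 7), 5), ((4, 0), (6, 4), 1), ((4, 0), (6, 8), 6)]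
  G := [[0, 0, 0xa18aa68c466a4614c8c2, 0, 0x16c466a45a18aa68cc82], [0, 0, 0xa161caa6666cc282,
    0x88a21ac886226c9246141a666226cc48c, 0xa161c1aad666cc282], [0,
    0x8414644844448c2c68ac2266aa4c9, 0xaa664c4131a56ac124c8c2, 0,
    0x1289a6316cc428e6a88e8892], [0, 0, 0x9165d6648a1a16ac82c2, 0x6e6a26c4422aeeac88c1,
    0x122cc6116ac4a86cac8292]]

noncomputable def n2360 : Ent := ⟨e2360, noF, [], [], [(14, 15, [360035742630636841211993100915356868655746945586763691017330689, 0])]⟩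

def c2360 : PLift (Cov.check n2360.C.D v2360 = true) := ⟨by decide +kernel⟩

def b2360 : PLift (entF (fidx ts) 400 2360 n2360 = true) := ⟨by decide +kernel⟩

theorem g2360 : GoodF (fidx ts) 400 2360 := GoodF.ofV v2360 n2360 c2360.down b2360.down

/-- 4746644:1933/1 -/
noncomputable def e2361 : SCfg where
  D := {
    a := 7
    L := 10
    kp := 7
    inn := [(0, 1), (1, 0), (1, 2), (1, 3), (2, 1), (2, 4), (3, 1), (3, 5), (4, 2), (4, 6), (5, 3), (6,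
      4)]
    mix := [(0, 0), (0, 1), (0, 2), (1, 0), (1, 2), (1, 3), (1, 4), (2, 2), (2, 3), (3, 3), (3, 4), (3,
      5), (3, 6), (4, 2), (4, 3), (4, 7), (4, 8), (5, 5), (5, 6), (5, 9), (6, 1), (6, 2), (6, 7)]
    cl := [2, 3, 0, 1, 1, 4, 5, 6, 0, 7]
    chq := [(1, 3), (1, 7), (3, 1), (7, 1)]
    rng := [(0, 1), (0, 4), (1, 0), (1, 2), (1, 7), (2, 1), (3, 5), (3, 8), (4, 0), (4, 6), (5, 3), (5,
      9), (6, 4), (6, 9), (7, 1), (7, 8), (8, 3), (8, 7), (9, 5), (9, 6)]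
    lev := [] }
  links := [[1, 7, 8, 9], [7, 0, 9, 2, 10, 3, 11], [10, 1, 9, 4], [11, 1, 10, 12, 5, 13], [10, 2, 9, 6,
    14, 15], [13, 3, 12, 16], [14, 4, 9, 8]]
  P := {
    a := 7
    N := 17
    nb := [898, 3725, 1554, 15394, 50756, 77832, 17168, 2307, 17089, 343, 36894, 8330, 66600, 67624,
      33104, 17424, 12320]
    tri := [(0, 1, 7), (0, 1, 9), (0, 7, 8), (0, 8, 9), (1, 2, 9), (1, 2, 10), (1, 3, 10), (1, 3, 11),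
      (1, 7, 11), (2, 4, 9), (2, 4, 10), (3, 5, 12), (3, 5, 13), (3, 10, 12), (3, 11, 13), (4, 6,
      9), (4, 6, 14), (4, 10, 15), (4, 14, 15), (5, 12, 16), (5, 13, 16), (6, 8, 9), (6, 8, 14)]
    fin := [0, 0, 0, 3, 4, 3, 0, 7, 0, 4, 3, 3, 12, 13, 14, 4, 16]
    chd := [(0, 3), (3, 16)]
    steps := [(0, 1), (0, 2), (0, 8), (3, 5), (3, 10), (3, 11), (4, 9), (0, 6), (4, 15)] }
  rep := [4, 3, 7, 0, 12, 13, 14, 16]

noncomputable def v2361 : Cov.CovD where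
  P := 3
  N := 5
  pl := [0, 5, 6, 7]
  lev := [⟨[], [], [(0, 3)], [2], [(1, 3, [1]), (2, 0, [])]⟩,
    ⟨[], [(0, 0), (0, 1), (0, 3)], [(0, 1), (1, 1)], [2], [(2, 0, []), (3, 1, [3, 7]), (4,
      1, [3, 7])]⟩,
    ⟨[(0, 1)], [(0, 0), (1, 0), (1, 1)], [(0, 1)], [], [(2, 0, []), (3, 1, [3, 7])]⟩,
    ⟨[(0, 1), (1, 2)], [(1, 0), (1, 1), (2, 1)], [(1, 1)], [4, 5], [(3, 1, [3, 7]), (4, 1,
      [3, 7])]⟩,
    ⟨[(1, 2)], [(0, 0), (1, 0), (1, 1), (2, 0), (2, 1), (3, 1)], [(0, 0), (0, 1)], [6],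
      [(2, 0, []), (3, 1, [3, 7]), (8, 0, [])]⟩,
    ⟨[(1, 3)], [(3, 1), (3, 7)], [], [4, 5], [(9, 7, [1])]⟩,
    ⟨[(2, 4)], [(0, 0), (0, 3), (1, 0), (2, 0), (4, 0), (4, 1), (4, 3)], [(0, 3)], [6],
      [(1, 3, [1]), (2, 0, [])]⟩]
  Ta := [((2, 1), 0, 3), ((3, 5), 1, 4), ((3, 8), 1, 0), ((4, 0), 1, 2), ((4, 6), 1, 5), ((8, 3),
    0, 1), ((8, 7), 0, 6)]
  Tb := [((0, 1, 4), 2, 3, 1), ((1, 0, 2), 3, 2, 0), ((1, 0, 7), 3, 2, 6), ((1, 2, 7), 3, 0, 6),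
    ((3, 5, 8), 1, 4, 0), ((4, 0, 6), 1, 2, 5), ((5, 3, 9), 4, 1, 7), ((6, 4, 9), 5, 1, 7),
    ((7, 1, 8), 6, 3, 0), ((8, 3, 7), 0, 1, 6), ((9, 5, 6), 7, 4, 5)]
  Tc := [(1, 3, 7)]
  Td := [((1, 3), (3, 5), 4), ((1, 3), (3, 8), 0), ((1, 3), (4, 0), 2), ((1, 3), (4, 6), 5), ((1,
    7), (3, 5), 4), ((1, 7), (3, 8), 0), ((1, 7), (4, 0), 2), ((1, 7), (4, 6), 5), ((3, 1),
    (1, 0), 2), ((3, 1), (1, 2), 0), ((3, 1), (1, 7), 6), ((7, 1), (9, 5), 4), ((7, 1), (9,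
    6), 5)]
  G := [[0, 0, 0x6a6e422e282e66674da6ae8aaa789c42, 0, 0x2e6e4666b45e22242ee2ae8aaab8dc82], [0,
    0, 0xeaae266eca262caaa76667cd242, 0x8222c22a2c8222cd2442442284c2242c2242c98cc,
    0xa262caaae666ecaaab666bcd282], [0, 0xc1a162c161ac161acc81,
    0xa212c12ae211ec1a1b212bcd482, 0, 0x9232c219e123ec1a1b212bcd482], [0, 0,
    0x2a68412aa111ec1241231617cd2c2, 0xe222c62a2c62a2cd481, 0xa262c2e2ee2eece62b2aebcd281]]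

noncomputable def n2361 : Ent := ⟨e2361, noF, [], [], [(8, 16, [1580044410770988437309982408355971841652082177953823432505698766849, 0]), (14, 16, [1580044410770988437309982408355971841652082177953823432505698775041, 0]), (15, 12, [1685356702444143110630498102614717315052428200905228761126560563201, 0])]⟩

def c2361 : PLift (Cov.check n2361.C.D v2361 = true) := ⟨by decide +kernel⟩

def b2361 : PLift (entF (fidx ts) 400 2361 n2361 = true) := ⟨by decide +kernel⟩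

theorem g2361 : GoodF (fidx ts) 400 2361 := GoodF.ofV v2361 n2361 c2361.down b2361.down

/-- 4746644:1933/6 -/
noncomputable def e2362 : SCfg where
  D := {
    a := 7
    L := 10
    kp := 7
    inn := [(0, 1), (1, 0), (1, 2), (1, 3), (2, 1), (2, 4), (3, 1), (3, 5), (4, 2), (4, 6), (5, 3), (6,
      4)]
    mix := [(0, 0), (0, 1), (0, 2), (1, 0), (1, 2), (1, 3), (1, 4), (2, 2), (2, 3), (3, 3), (3, 4), (3,
      5), (3, 6), (4, 2), (4, 3), (4, 7), (4, 8), (5, 1), (5, 5), (5, 6), (6, 2), (6, 7), (6, 9)]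
    cl := [1, 2, 0, 0, 0, 3, 4, 5, 6, 7]
    chq := [(3, 4), (4, 3), (6, 7), (7, 6)]
    rng := [(0, 1), (0, 4), (1, 0), (1, 2), (1, 5), (1, 6), (2, 1), (2, 9), (3, 5), (3, 8), (4, 0), (4,
      6), (5, 1), (5, 3), (6, 1), (6, 4), (7, 8), (7, 9), (8, 3), (8, 7), (9, 2), (9, 7)]
    lev := [] }
  links := [[1, 7, 8, 9], [7, 0, 9, 2, 10, 3, 11], [10, 1, 9, 4], [11, 1, 10, 12, 5, 13], [10, 2, 9, 6,
    14, 15], [13, 3, 12, 8], [14, 4, 9, 16]]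
  P := {
    a := 7
    N := 17
    nb := [898, 3725, 1554, 15394, 50756, 12552, 82448, 2307, 12961, 65879, 36894, 8330, 1320, 2344,
      98384, 17424, 16960]
    tri := [(0, 1, 7), (0, 1, 9), (0, 7, 8), (0, 8, 9), (1, 2, 9), (1, 2, 10), (1, 3, 10), (1, 3, 11),
      (1, 7, 11), (2, 4, 9), (2, 4, 10), (3, 5, 12), (3, 5, 13), (3, 10, 12), (3, 11, 13), (4, 6,
      9), (4, 6, 14), (4, 10, 15), (4, 14, 15), (5, 8, 12), (5, 8, 13), (6, 9, 16), (6, 14, 16)]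
    fin := [0, 0, 2, 2, 4, 5, 4, 0, 8, 2, 2, 2, 5, 13, 14, 15, 4]
    chd := [(5, 13), (15, 4)]
    steps := [(0, 1), (0, 7), (2, 9), (2, 10), (2, 3), (2, 11), (4, 6), (4, 16), (5, 12)] }
  rep := [2, 0, 8, 5, 13, 14, 15, 4]

noncomputable def v2362 : Cov.CovD where
  P := 3
  N := 5
  pl := [0, 1, 7]
  lev := [⟨[], [], [], [1, 2], [(2, 0, [])]⟩,
    ⟨[], [(0, 0)], [(0, 0)], [1], [(2, 0, []), (3, 0, []), (4, 0, [])]⟩,
    ⟨[(0, 1)], [(0, 0), (1, 0)], [(0, 0)], [], [(2, 0, []), (3, 0, [])]⟩,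
    ⟨[(0, 1), (1, 2)], [(1, 0), (1, 3), (1, 4), (2, 0)], [(0, 0), (0, 3), (0, 4), (3, 4)],
      [], [(3, 0, []), (4, 0, []), (5, 3, [4]), (6, 4, [3])]⟩,
    ⟨[(1, 2)], [(0, 0), (1, 0), (2, 0), (2, 6), (3, 0)], [(0, 0), (0, 6)], [5], [(2, 0,
      []), (3, 0, []), (8, 6, [7])]⟩,
    ⟨[(1, 3)], [(3, 0), (3, 3), (3, 4)], [(3, 4)], [2], [(5, 3, [4]), (6, 4, [3])]⟩,
    ⟨[(2, 4)], [(0, 0), (1, 0), (2, 0), (4, 0), (4, 6), (4, 7)], [(0, 7)], [5], [(2, 0,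
      []), (9, 7, [6])]⟩]
  Ta := [((2, 1), 0, 2), ((2, 9), 0, 7), ((3, 5), 0, 3), ((3, 8), 0, 6), ((4, 0), 0, 1), ((4, 6),
    0, 4)]
  Tb := [((0, 1, 4), 1, 2, 0), ((1, 0, 2), 2, 1, 0), ((1, 0, 5), 2, 1, 3), ((1, 0, 6), 2, 1, 4),
    ((1, 2, 5), 2, 0, 3), ((1, 2, 6), 2, 0, 4), ((1, 5, 6), 2, 3, 4), ((2, 1, 9), 0, 2, 7),
    ((3, 5, 8), 0, 3, 6), ((4, 0, 6), 0, 1, 4), ((5, 1, 3), 3, 2, 0), ((6, 1, 4), 4, 2, 0),
    ((7, 8, 9), 5, 6, 7), ((8, 3, 7), 6, 0, 5), ((9, 2, 7), 7, 0, 5)]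
  Tc := []
  Td := [((3, 4), (5, 1), 2), ((3, 4), (5, 3), 0), ((4, 3), (6, 1), 2), ((4, 3), (6, 4), 0), ((6,
    7), (8, 3), 0), ((6, 7), (8, 7), 5), ((7, 6), (9, 2), 0), ((7, 6), (9, 7), 5)]
  G := [[0, 0, 0x64a4c4e62a2c2e6268a8c8e82c4, 0x61a1c1e2848, 0x61a1c8e61a1c1ec12e61a1c2a48], [0,
    0, 0, 0x661d993d115de2288, 0x18a858ed11191e527212ee248], [0, 0x519111e54a411e519111ee284,
    0, 0x556da93d115de2844, 0x18a858e3111c1e123252ee248]]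

noncomputable def n2362 : Ent := ⟨e2362, noF, [], [], [(8, 16, [1580044410770988437309982408355971841652082177953823432505698766849, 0])]⟩

def c2362 : PLift (Cov.check n2362.C.D v2362 = true) := ⟨by decide +kernel⟩

def b2362 : PLift (entF (fidx ts) 400 2362 n2362 = true) := ⟨by decide +kernel⟩

theorem g2362 : GoodF (fidx ts) 400 2362 := GoodF.ofV v2362 n2362 c2362.down b2362.down

/-- 4746644:1933/7 -/
noncomputable def e2363 : SCfg where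
  D := {
    a := 7
    L := 10
    kp := 7
    inn := [(0, 1), (1, 0), (1, 2), (1, 3), (2, 1), (2, 4), (3, 1), (3, 5), (4, 2), (4, 6), (5, 3), (6,
      4)]
    mix := [(0, 0), (0, 1), (0, 2), (1, 0), (1, 2), (1, 3), (1, 4), (2, 2), (2, 3), (3, 3), (3, 4), (3,
      5), (3, 6), (4, 2), (4, 3), (4, 7), (4, 8), (5, 5), (5, 6), (5, 9), (6, 2), (6, 7), (6, 9)]
    cl := [2, 7, 0, 1, 1, 4, 5, 6, 0, 3]
    chq := [(1, 3), (1, 7), (3, 1), (7, 1)]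
    rng := [(0, 1), (0, 4), (1, 0), (1, 2), (2, 1), (2, 9), (3, 5), (3, 8), (4, 0), (4, 6), (5, 3), (5,
      9), (6, 4), (6, 9), (7, 8), (7, 9), (8, 3), (8, 7), (9, 2), (9, 5), (9, 6), (9, 7)]
    lev := [] }
  links := [[1, 7, 8, 9], [7, 0, 9, 2, 10, 3, 11], [10, 1, 9, 4], [11, 1, 10, 12, 5, 13], [10, 2, 9, 6,
    14, 15], [13, 3, 12, 16], [14, 4, 9, 16]]
  P := {
    a := 7
    N := 17
    nb := [898, 3725, 1554, 15394, 50756, 77832, 82448, 2307, 641, 65879, 36894, 8330, 66600, 67624,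
      98384, 17424, 29280]
    tri := [(0, 1, 7), (0, 1, 9), (0, 7, 8), (0, 8, 9), (1, 2, 9), (1, 2, 10), (1, 3, 10), (1, 3, 11),
      (1, 7, 11), (2, 4, 9), (2, 4, 10), (3, 5, 12), (3, 5, 13), (3, 10, 12), (3, 11, 13), (4, 6,
      9), (4, 6, 14), (4, 10, 15), (4, 14, 15), (5, 12, 16), (5, 13, 16), (6, 9, 16), (6, 14, 16)]
    fin := [0, 0, 0, 3, 4, 5, 4, 7, 0, 4, 3, 3, 12, 13, 14, 4, 5]
    chd := [(0, 3), (3, 5)]
    steps := [(0, 1), (0, 2), (0, 8), (3, 10), (3, 11), (4, 6), (4, 9), (4, 15), (5, 16)] }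
  rep := [4, 3, 7, 5, 12, 13, 14, 0]

noncomputable def v2363 : Cov.CovD where
  P := 3
  N := 5
  pl := [0, 5, 6, 7]
  lev := [⟨[], [], [(0, 7)], [2], [(1, 7, [1]), (2, 0, [])]⟩,
    ⟨[], [(0, 0), (0, 1), (0, 7)], [(0, 1), (1, 1)], [2], [(2, 0, []), (3, 1, [3, 7]), (4,
      1, [3, 7])]⟩,
    ⟨[(0, 1)], [(0, 0), (1, 0), (1, 1)], [(0, 1)], [], [(2, 0, []), (3, 1, [3, 7])]⟩,
    ⟨[(0, 1), (1, 2)], [(1, 0), (1, 1), (2, 1)], [(1, 1)], [4, 5], [(3, 1, [3, 7]), (4, 1,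
      [3, 7])]⟩,
    ⟨[(1, 2)], [(0, 0), (1, 0), (1, 1), (2, 0), (2, 1), (3, 1)], [(0, 0), (0, 1)], [6],
      [(2, 0, []), (3, 1, [3, 7]), (8, 0, [])]⟩,
    ⟨[(1, 3)], [(3, 1), (3, 3)], [], [4, 5], [(9, 3, [1])]⟩,
    ⟨[(2, 4)], [(0, 0), (1, 0), (2, 0), (4, 0), (4, 1), (4, 3), (5, 3)], [(0, 3)], [6],
      [(2, 0, []), (9, 3, [1])]⟩]
  Ta := [((2, 1), 0, 7), ((2, 9), 0, 3), ((3, 5), 1, 4), ((3, 8), 1, 0), ((4, 0), 1, 2), ((4, 6),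
    1, 5), ((8, 3), 0, 1), ((8, 7), 0, 6)]
  Tb := [((0, 1, 4), 2, 7, 1), ((1, 0, 2), 7, 2, 0), ((2, 1, 9), 0, 7, 3), ((3, 5, 8), 1, 4, 0),
    ((4, 0, 6), 1, 2, 5), ((5, 3, 9), 4, 1, 3), ((6, 4, 9), 5, 1, 3), ((7, 8, 9), 6, 0, 3),
    ((8, 3, 7), 0, 1, 6), ((9, 2, 5), 3, 0, 4), ((9, 2, 6), 3, 0, 5), ((9, 2, 7), 3, 0, 6),
    ((9, 5, 6), 3, 4, 5), ((9, 5, 7), 3, 4, 6), ((9, 6, 7), 3, 5, 6)]
  Tc := [(1, 3, 7)]
  Td := [((1, 3), (3, 5), 4), ((1, 3), (3, 8), 0), ((1, 3), (4, 0), 2), ((1, 3), (4, 6), 5), ((1,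
    7), (3, 5), 4), ((1, 7), (3, 8), 0), ((1, 7), (4, 0), 2), ((1, 7), (4, 6), 5), ((3, 1),
    (9, 2), 0), ((3, 1), (9, 5), 4), ((3, 1), (9, 6), 5), ((3, 1), (9, 7), 6), ((7, 1), (1,
    0), 2), ((7, 1), (1, 2), 0)]
  G := [[0, 0, 0x686226c82385422aa4ac4e3498c2, 0, 0xa42e44e22242e228e888eb222bcdc82], [0, 0,
    0x426448822e24aca2888a7263cd2c2, 0x22e2ce222c62a2cd2462a2ce222ce222cd48c,
    0xa262c828e242ec88eb242bcd282], [0, 0x1111a111161111ae8411116111161111ae48c,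
    0x3292c818e221ec1121cd482, 0, 0x2a662c8aa242eca161cd182], [0, 0,
    0x216242ec87a12c2111cd242, 0x22e2ce222c62a1cd281, 0x2b6126818e15aa3111ad482]]

noncomputable def n2363 : Ent := ⟨e2363, noF, [], [], [(8, 16, [1580044410770988437309982408355971841652082177953823432505698766849, 0])]⟩

def c2363 : PLift (Cov.check n2363.C.D v2363 = true) := ⟨by decide +kernel⟩

def b2363 : PLift (entF (fidx ts) 400 2363 n2363 = true) := ⟨by decide +kernel⟩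

theorem g2363 : GoodF (fidx ts) 400 2363 := GoodF.ofV v2363 n2363 c2363.down b2363.down

/-- 4746644:1933/9 -/
noncomputable def e2364 : SCfg where
  D := {
    a := 7
    L := 9
    kp := 6
    inn := [(0, 1), (1, 0), (1, 2), (1, 3), (2, 1), (2, 4), (3, 1), (3, 5), (4, 2), (4, 6), (5, 3), (6,
      4)]
    mix := [(0, 0), (0, 1), (0, 2), (1, 0), (1, 2), (1, 3), (1, 4), (2, 2), (2, 3), (3, 3), (3, 4), (3,
      5), (3, 6), (4, 2), (4, 3), (4, 5), (4, 7), (5, 5), (5, 6), (5, 7), (6, 2), (6, 7), (6, 8)]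
    cl := [2, 5, 0, 1, 1, 0, 4, 3, 6]
    chq := [(0, 4), (1, 5), (4, 0), (5, 1)]
    rng := [(0, 1), (0, 4), (1, 0), (1, 2), (2, 1), (2, 8), (3, 5), (4, 0), (4, 6), (5, 3), (5, 7), (6,
      4), (6, 7), (7, 5), (7, 6), (7, 8), (8, 2), (8, 7)]
    lev := [] }
  links := [[1, 7, 8, 9], [7, 0, 9, 2, 10, 3, 11], [10, 1, 9, 4], [11, 1, 10, 12, 5, 13], [10, 2, 9, 6,
    14, 12], [13, 3, 12, 14], [14, 4, 9, 15]]
  P := {
    a := 7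
    N := 16
    nb := [898, 3725, 1554, 15394, 22084, 28680, 49680, 2307, 641, 33111, 4126, 8330, 17464, 18472,
      45168, 16960]
    tri := [(0, 1, 7), (0, 1, 9), (0, 7, 8), (0, 8, 9), (1, 2, 9), (1, 2, 10), (1, 3, 10), (1, 3, 11),
      (1, 7, 11), (2, 4, 9), (2, 4, 10), (3, 5, 12), (3, 5, 13), (3, 10, 12), (3, 11, 13), (4, 6,
      9), (4, 6, 14), (4, 10, 12), (4, 12, 14), (5, 12, 14), (5, 13, 14), (6, 9, 15), (6, 14, 15)]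
    fin := [0, 0, 0, 3, 4, 4, 4, 7, 0, 4, 3, 3, 4, 13, 14, 15]
    chd := [(0, 3), (4, 13)]
    steps := [(0, 1), (0, 2), (0, 8), (3, 10), (3, 11), (4, 6), (4, 9), (4, 12), (4, 5)] }
  rep := [4, 3, 7, 14, 13, 0, 15]

noncomputable def v2364 : Cov.CovD where
  P := 3
  N := 4
  pl := [0, 7, 8]
  lev := [⟨[], [], [(0, 5)], [2], [(1, 5, [1]), (2, 0, [4])]⟩,
    ⟨[], [(0, 0), (0, 1), (0, 5)], [(0, 1), (1, 1)], [2], [(2, 0, [4]), (3, 1, [5]), (4, 1,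
      [5])]⟩,
    ⟨[(0, 1)], [(0, 0), (1, 0), (1, 1)], [(0, 1)], [], [(2, 0, [4]), (3, 1, [5])]⟩,
    ⟨[(0, 1), (1, 2)], [(1, 0), (1, 1), (1, 4), (2, 1)], [(0, 1), (0, 4), (1, 1), (1, 4)],
      [], [(3, 1, [5]), (4, 1, [5]), (5, 0, [4]), (6, 4, [0])]⟩,
    ⟨[(1, 2)], [(0, 0), (1, 0), (1, 1), (2, 0), (2, 1), (3, 0), (3, 1)], [(0, 0), (0, 1)],
      [3], [(2, 0, [4]), (3, 1, [5]), (5, 0, [4])]⟩,
    ⟨[(1, 3)], [(3, 0), (3, 1), (3, 4), (4, 0)], [(0, 4)], [3], [(5, 0, [4]), (6, 4, [0])]⟩,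
    ⟨[(2, 4)], [(0, 0), (1, 0), (2, 0), (4, 0), (4, 1)], [], [3, 6], [(2, 0, [4])]⟩]
  Ta := [((2, 1), 0, 5), ((2, 8), 0, 6), ((3, 5), 1, 0), ((4, 0), 1, 2), ((4, 6), 1, 4), ((5, 3),
    0, 1), ((5, 7), 0, 3)]
  Tb := [((0, 1, 4), 2, 5, 1), ((1, 0, 2), 5, 2, 0), ((2, 1, 8), 0, 5, 6), ((4, 0, 6), 1, 2, 4),
    ((5, 3, 7), 0, 1, 3), ((6, 4, 7), 4, 1, 3), ((7, 5, 6), 3, 0, 4), ((7, 5, 8), 3, 0, 6),
    ((7, 6, 8), 3, 4, 6), ((8, 2, 7), 6, 0, 3)]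
  Tc := []
  Td := [((0, 4), (2, 1), 5), ((0, 4), (2, 8), 6), ((0, 4), (5, 3), 1), ((0, 4), (5, 7), 3), ((1,
    5), (3, 5), 0), ((1, 5), (4, 0), 2), ((1, 5), (4, 6), 4), ((4, 0), (6, 4), 1), ((4, 0),
    (6, 7), 3), ((5, 1), (1, 0), 2), ((5, 1), (1, 2), 0)]
  G := [[0, 0, 0x1246245d88ca689c42, 0, 0xe444245e122ca28cc82], [0, 0, 0xe834ca2c66c9242,
    0x18d4ca2c6ac528a21c5ca2c26c924c, 0xa161ca2e4cc282], [0, 0x188122a44188122a84e44428d,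
    0xb44487812c128c8c2, 0, 0x12844624e44ce888c92], [0, 0, 0xd22b4126c418888c2,
    0xe482648e862c228c2c1, 0xe862ca2e4cc212]]

noncomputable def n2364 : Ent := ⟨e2364, noF, [], [], [(8, 15, [360035742630636841211993100915356868655746945586763691017330689, 0])]⟩

def c2364 : PLift (Cov.check n2364.C.D v2364 = true) := ⟨by decide +kernel⟩

def b2364 : PLift (entF (fidx ts) 400 2364 n2364 = true) := ⟨by decide +kernel⟩

theorem g2364 : GoodF (fidx ts) 400 2364 := GoodF.ofV v2364 n2364 c2364.down b2364.down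

/-- 4746644:1933/8 -/
noncomputable def e2365 : SCfg where
  D := {
    a := 7
    L := 10
    kp := 7
    inn := [(0, 1), (1, 0), (1, 2), (1, 3), (2, 1), (2, 4), (3, 1), (3, 5), (4, 2), (4, 6), (5, 3), (6,
      4)]
    mix := [(0, 0), (0, 1), (0, 2), (1, 0), (1, 2), (1, 3), (1, 4), (2, 2), (2, 3), (3, 3), (3, 4), (3,
      5), (3, 6), (4, 2), (4, 3), (4, 7), (4, 8), (5, 5), (5, 6), (5, 7), (6, 2), (6, 7), (6, 9)]
    cl := [2, 5, 0, 0, 0, 4, 1, 3, 6, 7]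
    chq := [(0, 3), (1, 4), (3, 0), (4, 1)]
    rng := [(0, 1), (0, 4), (1, 0), (1, 2), (2, 1), (2, 9), (3, 5), (3, 8), (4, 0), (4, 6), (5, 3), (5,
      7), (6, 4), (6, 7), (7, 5), (7, 6), (7, 8), (7, 9), (8, 3), (8, 7), (9, 2), (9, 7)]
    lev := [] }
  links := [[1, 7, 8, 9], [7, 0, 9, 2, 10, 3, 11], [10, 1, 9, 4], [11, 1, 10, 12, 5, 13], [10, 2, 9, 6,
    14, 15], [13, 3, 12, 14], [14, 4, 9, 16]]
  P := {
    a := 7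
    N := 17
    nb := [898, 3725, 1554, 15394, 50756, 28680, 82448, 2307, 641, 65879, 36894, 8330, 17448, 18472,
      110704, 17424, 16960]
    tri := [(0, 1, 7), (0, 1, 9), (0, 7, 8), (0, 8, 9), (1, 2, 9), (1, 2, 10), (1, 3, 10), (1, 3, 11),
      (1, 7, 11), (2, 4, 9), (2, 4, 10), (3, 5, 12), (3, 5, 13), (3, 10, 12), (3, 11, 13), (4, 6,
      9), (4, 6, 14), (4, 10, 15), (4, 14, 15), (5, 12, 14), (5, 13, 14), (6, 9, 16), (6, 14, 16)]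
    fin := [0, 0, 0, 3, 3, 5, 3, 0, 8, 3, 3, 3, 5, 13, 14, 15, 16]
    chd := [(3, 14), (5, 13)]
    steps := [(0, 1), (0, 2), (0, 7), (3, 10), (3, 4), (3, 6), (3, 9), (3, 11), (5, 12)] }
  rep := [3, 13, 0, 14, 5, 8, 15, 16]

noncomputable def v2365 : Cov.CovD where
  P := 3
  N := 5
  pl := [0, 1, 8, 9]
  lev := [⟨[], [], [], [2, 5], [(2, 0, [3])]⟩,
    ⟨[], [(0, 0)], [(0, 0)], [2], [(2, 0, [3]), (3, 0, [3]), (4, 0, [3])]⟩,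
    ⟨[(0, 1)], [(0, 0), (1, 0)], [(0, 0)], [], [(2, 0, [3]), (3, 0, [3])]⟩,
    ⟨[(0, 1), (1, 2)], [(1, 0), (1, 1), (1, 4), (2, 0)], [(0, 0), (0, 1), (0, 4), (1, 4)],
      [], [(3, 0, [3]), (4, 0, [3]), (5, 4, [1]), (6, 1, [4])]⟩,
    ⟨[(1, 2)], [(0, 0), (1, 0), (2, 0), (2, 3), (3, 0)], [(0, 0), (0, 3)], [6], [(2, 0,
      [3]), (3, 0, [3]), (7, 3, [0])]⟩,
    ⟨[(1, 3)], [(3, 0), (3, 1), (3, 3), (3, 4), (4, 3)], [(1, 3), (1, 4), (3, 4)], [], [(5,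
      4, [1]), (6, 1, [4]), (7, 3, [0])]⟩,
    ⟨[(2, 4)], [(0, 0), (1, 0), (2, 0), (4, 0), (4, 3), (5, 3)], [(0, 3)], [7], [(2, 0,
      [3]), (7, 3, [0])]⟩]
  Ta := [((2, 1), 0, 5), ((2, 9), 0, 7), ((3, 5), 0, 4), ((3, 8), 0, 6), ((4, 0), 0, 2), ((4, 6),
    0, 1)]
  Tb := [((0, 1, 4), 2, 5, 0), ((1, 0, 2), 5, 2, 0), ((2, 1, 9), 0, 5, 7), ((3, 5, 8), 0, 4, 6),
    ((4, 0, 6), 0, 2, 1), ((5, 3, 7), 4, 0, 3), ((6, 4, 7), 1, 0, 3), ((7, 5, 6), 3, 4, 1),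
    ((7, 5, 8), 3, 4, 6), ((7, 5, 9), 3, 4, 7), ((7, 6, 8), 3, 1, 6), ((7, 6, 9), 3, 1, 7),
    ((7, 8, 9), 3, 6, 7), ((8, 3, 7), 6, 0, 3), ((9, 2, 7), 7, 0, 3)]
  Tc := []
  Td := [((0, 3), (2, 1), 5), ((0, 3), (2, 9), 7), ((0, 3), (3, 5), 4), ((0, 3), (3, 8), 6), ((0,
    3), (4, 0), 2), ((0, 3), (4, 6), 1), ((1, 4), (6, 4), 0), ((1, 4), (6, 7), 3), ((3, 0),
    (7, 5), 4), ((3, 0), (7, 6), 1), ((3, 0), (7, 8), 6), ((3, 0), (7, 9), 7), ((4, 1), (5,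
    3), 0), ((4, 1), (5, 7), 3)]
  G := [[0, 0, 0, 0xe1e16e12ce88e1e1cca4e121e1ee1a1e1ecc14444c68c,
    0xe1e16e12ce88e1e1cca2e4e1642128e1e1c1ee18ce8a], [0, 0, 0, 0x866da66d6e1e16ce888e184e41,
    0xe4a6ad64e1e1aee98ce148e81], [0, 0x181411ce116111e12ea8418111e11ce1161412ea24c,
    0x111111e111111ec24181111e111111ec82c, 0xe12e124e1ece1e1cc14c681,
    0xe1e16e1e16ce18e18cc21]]

noncomputable def n2365 : Ent := ⟨e2365, noF, [], [], [(8, 16, [1580044410770988437309982408355971841652082177953823432505698775041, 0]), (15, 12, [1685356702444143110630498102614717315052428200905228761126560579585, 0])]⟩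

def c2365 : PLift (Cov.check n2365.C.D v2365 = true) := ⟨by decide +kernel⟩

def b2365 : PLift (entF (fidx ts) 400 2365 n2365 = true) := ⟨by decide +kernel⟩

theorem g2365 : GoodF (fidx ts) 400 2365 := GoodF.ofV v2365 n2365 c2365.down b2365.down

/-- 4746644:1933/10 -/
noncomputable def e2366 : SCfg where
  D := {
    a := 7
    L := 10
    kp := 7
    inn := [(0, 1), (1, 0), (1, 2), (1, 3), (2, 1), (2, 4), (3, 1), (3, 5), (4, 2), (4, 6), (5, 3), (6,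
      4)]
    mix := [(0, 0), (0, 1), (0, 2), (1, 0), (1, 2), (1, 3), (1, 4), (2, 2), (2, 3), (3, 3), (3, 4), (3,
      5), (3, 6), (4, 2), (4, 3), (4, 5), (4, 7), (5, 5), (5, 6), (5, 8), (6, 2), (6, 7), (6, 9)]
    cl := [2, 5, 0, 1, 1, 0, 3, 4, 6, 7]
    chq := [(0, 3), (1, 5), (3, 0), (5, 1)]
    rng := [(0, 1), (0, 4), (1, 0), (1, 2), (2, 1), (2, 9), (3, 5), (4, 0), (4, 6), (5, 3), (5, 7), (5,
      8), (6, 4), (6, 8), (7, 5), (7, 9), (8, 5), (8, 6), (9, 2), (9, 7)]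
    lev := [] }
  links := [[1, 7, 8, 9], [7, 0, 9, 2, 10, 3, 11], [10, 1, 9, 4], [11, 1, 10, 12, 5, 13], [10, 2, 9, 6,
    14, 12], [13, 3, 12, 15], [14, 4, 9, 16]]
  P := {
    a := 7
    N := 17
    nb := [898, 3725, 1554, 15394, 22084, 45064, 82448, 2307, 641, 65879, 4126, 8330, 50232, 34856,
      69712, 12320, 16960]
    tri := [(0, 1, 7), (0, 1, 9), (0, 7, 8), (0, 8, 9), (1, 2, 9), (1, 2, 10), (1, 3, 10), (1, 3, 11),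
      (1, 7, 11), (2, 4, 9), (2, 4, 10), (3, 5, 12), (3, 5, 13), (3, 10, 12), (3, 11, 13), (4, 6,
      9), (4, 6, 14), (4, 10, 12), (4, 12, 14), (5, 12, 15), (5, 13, 15), (6, 9, 16), (6, 14, 16)]
    fin := [0, 0, 0, 3, 4, 4, 4, 7, 0, 4, 3, 3, 4, 13, 14, 15, 16]
    chd := [(0, 3), (4, 13)]
    steps := [(0, 1), (0, 2), (0, 8), (3, 10), (3, 11), (4, 6), (4, 9), (4, 12), (4, 5)] }
  rep := [4, 3, 7, 13, 14, 0, 15, 16]

noncomputable def v2366 : Cov.CovD where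
  P := 3
  N := 5
  pl := [0, 7, 8, 9]
  lev := [⟨[], [], [(0, 5)], [2], [(1, 5, [1]), (2, 0, [3])]⟩,
    ⟨[], [(0, 0), (0, 1), (0, 5)], [(0, 1), (1, 1)], [2], [(2, 0, [3]), (3, 1, [5]), (4, 1,
      [5])]⟩,
    ⟨[(0, 1)], [(0, 0), (1, 0), (1, 1)], [(0, 1)], [], [(2, 0, [3]), (3, 1, [5])]⟩,
    ⟨[(0, 1), (1, 2)], [(1, 0), (1, 1), (1, 3), (2, 1)], [(0, 1), (0, 3), (1, 1), (1, 3)],
      [], [(3, 1, [5]), (4, 1, [5]), (5, 0, [3]), (6, 3, [0])]⟩,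
    ⟨[(1, 2)], [(0, 0), (1, 0), (1, 1), (2, 0), (2, 1), (3, 0), (3, 1)], [(0, 0), (0, 1)],
      [4], [(2, 0, [3]), (3, 1, [5]), (5, 0, [3])]⟩,
    ⟨[(1, 3)], [(3, 0), (3, 1), (3, 3), (4, 0)], [(0, 3)], [6], [(5, 0, [3]), (6, 3, [0])]⟩,
    ⟨[(2, 4)], [(0, 0), (1, 0), (2, 0), (4, 0), (4, 1)], [], [4, 7], [(2, 0, [3])]⟩]
  Ta := [((2, 1), 0, 5), ((2, 9), 0, 7), ((3, 5), 1, 0), ((4, 0), 1, 2), ((4, 6), 1, 3), ((5, 3),
    0, 1), ((5, 7), 0, 4), ((5, 8), 0, 6)]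
  Tb := [((0, 1, 4), 2, 5, 1), ((1, 0, 2), 5, 2, 0), ((2, 1, 9), 0, 5, 7), ((4, 0, 6), 1, 2, 3),
    ((5, 3, 7), 0, 1, 4), ((5, 3, 8), 0, 1, 6), ((5, 7, 8), 0, 4, 6), ((6, 4, 8), 3, 1, 6),
    ((7, 5, 9), 4, 0, 7), ((8, 5, 6), 6, 0, 3), ((9, 2, 7), 7, 0, 4)]
  Tc := []
  Td := [((0, 3), (2, 1), 5), ((0, 3), (2, 9), 7), ((0, 3), (5, 3), 1), ((0, 3), (5, 7), 4), ((0,
    3), (5, 8), 6), ((1, 5), (3, 5), 0), ((1, 5), (4, 0), 2), ((1, 5), (4, 6), 3), ((3, 0),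
    (6, 4), 1), ((3, 0), (6, 8), 6), ((5, 1), (1, 0), 2), ((5, 1), (1, 2), 0)]
  G := [[0, 0, 0x6144a18aa68cc66a488c2, 0, 0x646e41a18aa613cccc82], [0, 0,
    0xa18aa68c466a4614c8c2, 0xa16616caaa66ac528a1663caa6169cc28c, 0xa161c9a27666cc282], [0,
    0xccc66cacca66aa6481, 0x124196b36cc4aaa68c81c2, 0, 0x124a161b6cc46848aaa88c92], [0, 0,
    0x736156648a1a16ac82c2, 0xaa6666c42aaa66ac82c1, 0x122116bb6cc4a86cac8292]]

noncomputable def n2366 : Ent := ⟨e2366, noF, [], [], [(8, 16, [1580044410770988437309982408355971841652082177953823432505698779137, 0]), (14, 15, [1685356702439545624007900436039642273970977273354372543760009773057, 0])]⟩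

def c2366 : PLift (Cov.check n2366.C.D v2366 = true) := ⟨by decide +kernel⟩

def b2366 : PLift (entF (fidx ts) 400 2366 n2366 = true) := ⟨by decide +kernel⟩

theorem g2366 : GoodF (fidx ts) 400 2366 := GoodF.ofV v2366 n2366 c2366.down b2366.down

/-- 4746644:1933 -/
noncomputable def e2367 : SCfg where
  D := {
    a := 7
    L := 11
    kp := 8
    inn := [(0, 1), (1, 0), (1, 2), (1, 3), (2, 1), (2, 4), (3, 1), (3, 5), (4, 2), (4, 6), (5, 3), (6,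
      4)]
    mix := [(0, 0), (0, 1), (0, 2), (1, 0), (1, 2), (1, 3), (1, 4), (2, 2), (2, 3), (3, 3), (3, 4), (3,
      5), (3, 6), (4, 2), (4, 3), (4, 7), (4, 8), (5, 5), (5, 6), (5, 9), (6, 2), (6, 7), (6, 10)]
    cl := [2, 7, 0, 0, 0, 3, 1, 4, 5, 8, 6]
    chq := [(1, 3), (3, 1), (5, 6), (6, 5)]
    rng := [(0, 1), (0, 4), (1, 0), (1, 2), (2, 1), (2, 10), (3, 5), (3, 8), (4, 0), (4, 6), (5, 3),
      (5, 9), (6, 4), (6, 9), (7, 8), (7, 10), (8, 3), (8, 7), (9, 5), (9, 6), (10, 2), (10, 7)]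
    lev := [] }
  links := [[1, 7, 8, 9], [7, 0, 9, 2, 10, 3, 11], [10, 1, 9, 4], [11, 1, 10, 12, 5, 13], [10, 2, 9, 6,
    14, 15], [13, 3, 12, 16], [14, 4, 9, 17]]
  P := {
    a := 7
    N := 18
    nb := [898, 3725, 1554, 15394, 50756, 77832, 147984, 2307, 641, 131415, 36894, 8330, 66600, 67624,
      163920, 17424, 12320, 16960]
    tri := [(0, 1, 7), (0, 1, 9), (0, 7, 8), (0, 8, 9), (1, 2, 9), (1, 2, 10), (1, 3, 10), (1, 3, 11),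
      (1, 7, 11), (2, 4, 9), (2, 4, 10), (3, 5, 12), (3, 5, 13), (3, 10, 12), (3, 11, 13), (4, 6,
      9), (4, 6, 14), (4, 10, 15), (4, 14, 15), (5, 12, 16), (5, 13, 16), (6, 9, 17), (6, 14, 17)]
    fin := [0, 0, 2, 2, 4, 5, 4, 0, 8, 2, 2, 2, 5, 13, 14, 15, 16, 4]
    chd := [(5, 13), (15, 4)]
    steps := [(0, 1), (0, 7), (2, 9), (2, 10), (2, 3), (2, 11), (4, 6), (4, 17), (5, 12)] }
  rep := [2, 13, 0, 5, 14, 15, 4, 8, 16]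

noncomputable def v2367 : Cov.CovD where
  P := 3
  N := 6
  pl := [0, 1, 7, 9]
  lev := [⟨[], [], [], [2, 7], [(2, 0, [])]⟩,
    ⟨[], [(0, 0)], [(0, 0)], [2], [(2, 0, []), (3, 0, []), (4, 0, [])]⟩,
    ⟨[(0, 1)], [(0, 0), (1, 0)], [(0, 0)], [], [(2, 0, []), (3, 0, [])]⟩,
    ⟨[(0, 1), (1, 2)], [(1, 0), (1, 1), (1, 3), (2, 0)], [(0, 0), (0, 1), (0, 3), (1, 3)],
      [], [(3, 0, []), (4, 0, []), (5, 3, [1]), (6, 1, [3])]⟩,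
    ⟨[(1, 2)], [(0, 0), (1, 0), (2, 0), (2, 5), (3, 0)], [(0, 0), (0, 5)], [4], [(2, 0,
      []), (3, 0, []), (8, 5, [6])]⟩,
    ⟨[(1, 3)], [(3, 0), (3, 1), (3, 3)], [(1, 3)], [8], [(5, 3, [1]), (6, 1, [3])]⟩,
    ⟨[(2, 4)], [(0, 0), (1, 0), (2, 0), (4, 0), (4, 5), (4, 6)], [(0, 6)], [4], [(2, 0,
      []), (10, 6, [5])]⟩]
  Ta := [((2, 1), 0, 7), ((2, 10), 0, 6), ((3, 5), 0, 3), ((3, 8), 0, 5), ((4, 0), 0, 2), ((4,
    6), 0, 1)]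
  Tb := [((0, 1, 4), 2, 7, 0), ((1, 0, 2), 7, 2, 0), ((2, 1, 10), 0, 7, 6), ((3, 5, 8), 0, 3, 5),
    ((4, 0, 6), 0, 2, 1), ((5, 3, 9), 3, 0, 8), ((6, 4, 9), 1, 0, 8), ((7, 8, 10), 4, 5, 6),
    ((8, 3, 7), 5, 0, 4), ((9, 5, 6), 8, 3, 1), ((10, 2, 7), 6, 0, 4)]
  Tc := []
  Td := [((1, 3), (6, 4), 0), ((1, 3), (6, 9), 8), ((3, 1), (5, 3), 0), ((3, 1), (5, 9), 8), ((5,
    6), (8, 3), 0), ((5, 6), (8, 7), 4), ((6, 5), (10, 2), 0), ((6, 5), (10, 7), 4)]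
  G := [[0, 0, 0, 0x665aa5cc5e42669aa9cc9e88ccc524665aa5c4a669aa9cc9e82cc,
    0xaa9cc96665aa5cc5ec66988c2669aa9cc9e61aa5cc5ec6484c2a], [0, 0, 0,
    0x665aa5cc5e42669aa9cc9e88c1, 0x669aa9cc9e665aa5cc5ec421], [0,
    0x66caacccce666aa6cc6ea241, 0x1193a9559e315135955ec42119339c59e6559a5115ec826,
    0x665a4cc5e44669aa9cc9ea14c8c1, 0x669aa9cc9e665aa5cc5ec821]]

noncomputable def n2367 : Ent := ⟨e2367, noF, [], [], [(8, 17, [6903326391201334775872065844685381424292761054348340378595029939359745, 0]), (8, 16, [7334685537875745012586738086077695515070955365108989538292687703351297, 0]), (17, 16, [7334685537875745012586738086077695515070955365108989538292687703355393, 0]), (14, 16, [7334685537875745012586738086077695515070955365108989538292687703363585, 0]), (15, 12, [7334790850167418167260058601771954260544355711131940943621308565151745, 0])]⟩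

def c2367 : PLift (Cov.check n2367.C.D v2367 = true) := ⟨by decide +kernel⟩

def b2367 : PLift (entF (fidx ts) 400 2367 n2367 = true) := ⟨by decide +kernel⟩

theorem g2367 : GoodF (fidx ts) 400 2367 := GoodF.ofV v2367 n2367 c2367.down b2367.down

/-- 4746644:1934/3 -/
noncomputable def e2368 : SCfg where
  D := {
    a := 7
    L := 8
    kp := 5
    inn := [(0, 1), (1, 0), (1, 2), (1, 3), (2, 1), (2, 4), (3, 1), (3, 5), (4, 2), (4, 6), (5, 3), (6,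
      4)]
    mix := [(0, 0), (0, 1), (0, 2), (1, 0), (1, 2), (1, 3), (1, 4), (2, 2), (2, 3), (3, 3), (3, 4), (3,
      5), (3, 6), (4, 1), (4, 2), (4, 3), (4, 7), (5, 5), (5, 6), (5, 7), (6, 3), (6, 5), (6, 7)]
    cl := [2, 5, 0, 0, 0, 3, 1, 4]
    chq := [(0, 4), (1, 3), (3, 1), (4, 0)]
    rng := [(0, 1), (0, 4), (1, 0), (1, 2), (1, 7), (2, 1), (3, 5), (4, 0), (4, 6), (5, 3), (5, 7), (6,
      4), (6, 7), (7, 1), (7, 5), (7, 6)]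
    lev := [] }
  links := [[1, 7, 8, 9], [7, 0, 9, 2, 10, 3, 11], [10, 1, 9, 4], [11, 1, 10, 12, 5, 13], [10, 2, 9, 8,
    14, 6], [13, 3, 12, 14], [10, 4, 14, 12]]
  P := {
    a := 7
    N := 15
    nb := [898, 3725, 1554, 15394, 18244, 28680, 21520, 2307, 17041, 279, 4190, 8330, 17512, 18472,
      12656]
    tri := [(0, 1, 7), (0, 1, 9), (0, 7, 8), (0, 8, 9), (1, 2, 9), (1, 2, 10), (1, 3, 10), (1, 3, 11),
      (1, 7, 11), (2, 4, 9), (2, 4, 10), (3, 5, 12), (3, 5, 13), (3, 10, 12), (3, 11, 13), (4, 6,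
      10), (4, 6, 14), (4, 8, 9), (4, 8, 14), (5, 12, 14), (5, 13, 14), (6, 10, 12), (6, 12, 14)]
    fin := [0, 0, 0, 3, 3, 5, 3, 0, 8, 3, 3, 3, 5, 13, 14]
    chd := [(3, 14), (5, 13)]
    steps := [(0, 1), (0, 2), (0, 7), (3, 10), (3, 4), (3, 6), (3, 9), (3, 11), (5, 12)] }
  rep := [3, 13, 0, 5, 14, 8]

noncomputable def v2368 : Cov.CovD where
  P := 3
  N := 3
  pl := [0, 1]
  lev := [⟨[], [], [], [2, 5], [(2, 0, [4])]⟩,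
    ⟨[], [(0, 0)], [(0, 0)], [2], [(2, 0, [4]), (3, 0, [4]), (4, 0, [4])]⟩,
    ⟨[(0, 1)], [(0, 0), (1, 0)], [(0, 0)], [], [(2, 0, [4]), (3, 0, [4])]⟩,
    ⟨[(0, 1), (1, 2)], [(1, 0), (1, 1), (1, 3), (2, 0)], [(0, 0), (0, 1), (0, 3), (1, 3)],
      [], [(3, 0, [4]), (4, 0, [4]), (5, 3, [1]), (6, 1, [3])]⟩,
    ⟨[(1, 2)], [(0, 0), (1, 0), (2, 0), (2, 4), (3, 0)], [(0, 0), (0, 4)], [5], [(2, 0,
      [4]), (3, 0, [4]), (7, 4, [0])]⟩,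
    ⟨[(1, 3)], [(3, 0), (3, 1), (3, 3), (3, 4), (4, 4)], [(1, 3), (1, 4), (3, 4)], [], [(5,
      3, [1]), (6, 1, [3]), (7, 4, [0])]⟩,
    ⟨[(2, 4)], [(1, 0), (2, 0), (3, 0), (3, 3), (4, 0), (4, 3), (4, 4), (5, 3), (5, 4)],
      [(0, 3), (0, 4), (3, 4)], [], [(3, 0, [4]), (5, 3, [1]), (7, 4, [0])]⟩]
  Ta := [((2, 1), 0, 5), ((3, 5), 0, 3), ((4, 0), 0, 2), ((4, 6), 0, 1)]
  Tb := [((0, 1, 4), 2, 5, 0), ((1, 0, 2), 5, 2, 0), ((1, 0, 7), 5, 2, 4), ((1, 2, 7), 5, 0, 4),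
    ((4, 0, 6), 0, 2, 1), ((5, 3, 7), 3, 0, 4), ((6, 4, 7), 1, 0, 4), ((7, 1, 5), 4, 5, 3),
    ((7, 1, 6), 4, 5, 1), ((7, 5, 6), 4, 3, 1)]
  Tc := []
  Td := [((0, 4), (2, 1), 5), ((0, 4), (3, 5), 3), ((0, 4), (4, 0), 2), ((0, 4), (4, 6), 1), ((1,
    3), (6, 4), 0), ((1, 3), (6, 7), 4), ((3, 1), (5, 3), 0), ((3, 1), (5, 7), 4), ((4, 0),
    (7, 1), 5), ((4, 0), (7, 5), 3), ((4, 0), (7, 6), 1)]
  G := [[0, 0, 0, 0x8111a1141ac249111644116c28c, 0x8121c6144cc228111611216c82a], [0, 0, 0,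
    0x8121a8292ca148694444ec681, 0x81a121e842d2c86944c4681], [0, 0x84c1481ce11a12a12e6281,
    0x1111c1111cc841111641116c28a, 0x113191e114121ec841, 0x313111e114451ec821]]

noncomputable def n2368 : Ent := ⟨e2368, noF, [], [], []⟩

def c2368 : PLift (Cov.check n2368.C.D v2368 = true) := ⟨by decide +kernel⟩

def b2368 : PLift (entF (fidx ts) 400 2368 n2368 = true) := ⟨by decide +kernel⟩

theorem g2368 : GoodF (fidx ts) 400 2368 := GoodF.ofV v2368 n2368 c2368.down b2368.down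

/-- 4746644:1934/2 -/
noncomputable def e2369 : SCfg where
  D := {
    a := 7
    L := 9
    kp := 6
    inn := [(0, 1), (1, 0), (1, 2), (1, 3), (2, 1), (2, 4), (3, 1), (3, 5), (4, 2), (4, 6), (5, 3), (6,
      4)]
    mix := [(0, 0), (0, 1), (0, 2), (1, 0), (1, 2), (1, 3), (1, 4), (2, 2), (2, 3), (3, 3), (3, 4), (3,
      5), (3, 6), (4, 1), (4, 2), (4, 3), (4, 7), (5, 5), (5, 6), (5, 7), (6, 3), (6, 7), (6, 8)]
    cl := [2, 5, 0, 0, 0, 4, 1, 3, 6]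
    chq := [(0, 3), (1, 4), (3, 0), (4, 1)]
    rng := [(0, 1), (0, 4), (1, 0), (1, 2), (1, 7), (2, 1), (3, 5), (3, 8), (4, 0), (4, 6), (5, 3), (5,
      7), (6, 4), (6, 7), (7, 1), (7, 5), (7, 6), (7, 8), (8, 3), (8, 7)]
    lev := [] }
  links := [[1, 7, 8, 9], [7, 0, 9, 2, 10, 3, 11], [10, 1, 9, 4], [11, 1, 10, 12, 5, 13], [10, 2, 9, 8,
    14, 6], [13, 3, 12, 14], [10, 4, 14, 15]]
  P := {
    a := 7
    N := 16
    nb := [898, 3725, 1554, 15394, 18244, 28680, 50192, 2307, 17041, 279, 36958, 8330, 17448, 18472,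
      45424, 17472]
    tri := [(0, 1, 7), (0, 1, 9), (0, 7, 8), (0, 8, 9), (1, 2, 9), (1, 2, 10), (1, 3, 10), (1, 3, 11),
      (1, 7, 11), (2, 4, 9), (2, 4, 10), (3, 5, 12), (3, 5, 13), (3, 10, 12), (3, 11, 13), (4, 6,
      10), (4, 6, 14), (4, 8, 9), (4, 8, 14), (5, 12, 14), (5, 13, 14), (6, 10, 15), (6, 14, 15)]
    fin := [0, 0, 0, 3, 3, 5, 3, 0, 8, 3, 3, 3, 5, 13, 14, 15]
    chd := [(3, 14), (5, 13)]
    steps := [(0, 1), (0, 2), (0, 7), (3, 10), (3, 4), (3, 6), (3, 9), (3, 11), (5, 12)] }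
  rep := [3, 13, 0, 14, 5, 8, 15]

noncomputable def v2369 : Cov.CovD where
  P := 3
  N := 4
  pl := [0, 1, 8]
  lev := [⟨[], [], [], [2, 5], [(2, 0, [3])]⟩,
    ⟨[], [(0, 0)], [(0, 0)], [2], [(2, 0, [3]), (3, 0, [3]), (4, 0, [3])]⟩,
    ⟨[(0, 1)], [(0, 0), (1, 0)], [(0, 0)], [], [(2, 0, [3]), (3, 0, [3])]⟩,
    ⟨[(0, 1), (1, 2)], [(1, 0), (1, 1), (1, 4), (2, 0)], [(0, 0), (0, 1), (0, 4), (1, 4)],
      [], [(3, 0, [3]), (4, 0, [3]), (5, 4, [1]), (6, 1, [4])]⟩,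
    ⟨[(1, 2)], [(0, 0), (1, 0), (2, 0), (2, 3), (3, 0)], [(0, 0), (0, 3)], [5], [(2, 0,
      [3]), (3, 0, [3]), (7, 3, [0])]⟩,
    ⟨[(1, 3)], [(3, 0), (3, 1), (3, 3), (3, 4), (4, 3)], [(1, 3), (1, 4), (3, 4)], [], [(5,
      4, [1]), (6, 1, [4]), (7, 3, [0])]⟩,
    ⟨[(2, 4)], [(1, 0), (2, 0), (3, 0), (4, 0), (4, 3), (5, 3)], [(0, 3)], [6], [(3, 0,
      [3]), (7, 3, [0])]⟩]
  Ta := [((2, 1), 0, 5), ((3, 5), 0, 4), ((3, 8), 0, 6), ((4, 0), 0, 2), ((4, 6), 0, 1)]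
  Tb := [((0, 1, 4), 2, 5, 0), ((1, 0, 2), 5, 2, 0), ((1, 0, 7), 5, 2, 3), ((1, 2, 7), 5, 0, 3),
    ((3, 5, 8), 0, 4, 6), ((4, 0, 6), 0, 2, 1), ((5, 3, 7), 4, 0, 3), ((6, 4, 7), 1, 0, 3),
    ((7, 1, 5), 3, 5, 4), ((7, 1, 6), 3, 5, 1), ((7, 1, 8), 3, 5, 6), ((7, 5, 6), 3, 4, 1),
    ((7, 5, 8), 3, 4, 6), ((7, 6, 8), 3, 1, 6), ((8, 3, 7), 6, 0, 3)]
  Tc := []
  Td := [((0, 3), (2, 1), 5), ((0, 3), (3, 5), 4), ((0, 3), (3, 8), 6), ((0, 3), (4, 0), 2), ((0,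
    3), (4, 6), 1), ((1, 4), (6, 4), 0), ((1, 4), (6, 7), 3), ((3, 0), (7, 1), 5), ((3, 0),
    (7, 5), 4), ((3, 0), (7, 6), 1), ((3, 0), (7, 8), 6), ((4, 1), (5, 3), 0), ((4, 1), (5,
    7), 3)]
  G := [[0, 0, 0, 0x1861a7111ac84b111614a16c48c, 0xd811cb111cc229151614d16c42a], [0, 0, 0,
    0xe1e1aa4ada6adace14e44c681, 0xa6926a52c42e8e1ce1e4cc223], [0, 0x111e1411ce1811a12e6281,
    0x1111c1111cc821111a1411ac426, 0x11e171e7111b1ec841, 0x74e164315191e118ca81]]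

noncomputable def n2369 : Ent := ⟨e2369, noF, [], [], [(15, 12, [360035747228123463809659675990397950106674496442981057568178177, 0])]⟩

def c2369 : PLift (Cov.check n2369.C.D v2369 = true) := ⟨by decide +kernel⟩

def b2369 : PLift (entF (fidx ts) 400 2369 n2369 = true) := ⟨by decide +kernel⟩

theorem g2369 : GoodF (fidx ts) 400 2369 := GoodF.ofV v2369 n2369 c2369.down b2369.down

/-- 4746644:1934/4 -/
noncomputable def e2370 : SCfg where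
  D := {
    a := 7
    L := 9
    kp := 6
    inn := [(0, 1), (1, 0), (1, 2), (1, 3), (2, 1), (2, 4), (3, 1), (3, 5), (4, 2), (4, 6), (5, 3), (6,
      4)]
    mix := [(0, 0), (0, 1), (0, 2), (1, 0), (1, 2), (1, 3), (1, 4), (2, 2), (2, 3), (3, 3), (3, 4), (3,
      5), (3, 6), (4, 1), (4, 2), (4, 3), (4, 7), (5, 5), (5, 6), (5, 8), (6, 3), (6, 5), (6, 7)]
    cl := [2, 1, 0, 0, 0, 3, 4, 5, 6]
    chq := [(1, 3), (3, 1), (3, 4), (4, 3)]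
    rng := [(0, 1), (0, 4), (1, 0), (1, 2), (1, 7), (2, 1), (3, 5), (4, 0), (4, 6), (5, 3), (5, 7), (5,
      8), (6, 4), (6, 8), (7, 1), (7, 5), (8, 5), (8, 6)]
    lev := [] }
  links := [[1, 7, 8, 9], [7, 0, 9, 2, 10, 3, 11], [10, 1, 9, 4], [11, 1, 10, 12, 5, 13], [10, 2, 9, 8,
    14, 6], [13, 3, 12, 15], [10, 4, 14, 12]]
  P := {
    a := 7
    N := 16
    nb := [898, 3725, 1554, 15394, 18244, 45064, 21520, 2307, 17041, 279, 4190, 8330, 50280, 34856,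
      4432, 12320]
    tri := [(0, 1, 7), (0, 1, 9), (0, 7, 8), (0, 8, 9), (1, 2, 9), (1, 2, 10), (1, 3, 10), (1, 3, 11),
      (1, 7, 11), (2, 4, 9), (2, 4, 10), (3, 5, 12), (3, 5, 13), (3, 10, 12), (3, 11, 13), (4, 6,
      10), (4, 6, 14), (4, 8, 9), (4, 8, 14), (5, 12, 15), (5, 13, 15), (6, 10, 12), (6, 12, 14)]
    fin := [0, 0, 2, 2, 4, 5, 4, 0, 4, 2, 2, 2, 5, 13, 14, 15]
    chd := [(4, 5), (5, 13)]
    steps := [(0, 1), (0, 7), (2, 9), (2, 10), (2, 3), (2, 11), (4, 6), (4, 8), (5, 12)] }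
  rep := [2, 4, 0, 5, 13, 14, 15]

noncomputable def v2370 : Cov.CovD where
  P := 3
  N := 4
  pl := [0, 7, 8]
  lev := [⟨[], [], [(0, 1)], [2], [(1, 1, [3]), (2, 0, [])]⟩,
    ⟨[], [(0, 0), (0, 1)], [(0, 0)], [2], [(2, 0, []), (3, 0, []), (4, 0, [])]⟩,
    ⟨[(0, 1)], [(0, 0), (1, 0)], [(0, 0)], [], [(2, 0, []), (3, 0, [])]⟩,
    ⟨[(0, 1), (1, 2)], [(1, 0), (1, 3), (1, 4), (2, 0)], [(0, 0), (0, 3), (0, 4), (3, 4)],
      [], [(3, 0, []), (4, 0, []), (5, 3, [1, 4]), (6, 4, [3])]⟩,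
    ⟨[(1, 2)], [(0, 0), (0, 1), (1, 0), (2, 0), (2, 1), (3, 0)], [(0, 0), (0, 1)], [5],
      [(1, 1, [3]), (2, 0, []), (3, 0, [])]⟩,
    ⟨[(1, 3)], [(3, 0), (3, 3), (3, 4)], [(3, 4)], [6], [(5, 3, [1, 4]), (6, 4, [3])]⟩,
    ⟨[(2, 4)], [(1, 0), (2, 0), (3, 0), (3, 3), (4, 0), (4, 1), (4, 3), (5, 3)], [(0, 3)],
      [5], [(3, 0, []), (5, 3, [1, 4])]⟩]
  Ta := [((2, 1), 0, 1), ((3, 5), 0, 3), ((4, 0), 0, 2), ((4, 6), 0, 4)]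
  Tb := [((0, 1, 4), 2, 1, 0), ((1, 0, 2), 1, 2, 0), ((1, 0, 7), 1, 2, 5), ((1, 2, 7), 1, 0, 5),
    ((4, 0, 6), 0, 2, 4), ((5, 3, 7), 3, 0, 5), ((5, 3, 8), 3, 0, 6), ((5, 7, 8), 3, 5, 6),
    ((6, 4, 8), 4, 0, 6), ((7, 1, 5), 5, 1, 3), ((8, 5, 6), 6, 3, 4)]
  Tc := [(3, 1, 4)]
  Td := [((1, 3), (1, 0), 2), ((1, 3), (1, 2), 0), ((1, 3), (1, 7), 5), ((3, 1), (5, 3), 0), ((3,
    1), (5, 7), 5), ((3, 1), (5, 8), 6), ((3, 4), (5, 3), 0), ((3, 4), (5, 7), 5), ((3, 4),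
    (5, 8), 6), ((4, 3), (6, 4), 0), ((4, 3), (6, 8), 6)]
  G := [[0, 0x415115a123113c62119119688c4, 0, 0x225215c42219229c213123ca2c4,
    0x115225c223113c64889229c84a8], [0, 0, 0, 0x225225c44889229c223223ca2c4,
    0x6e3a23c24889229c225445cc2a8], [0, 0, 0x819129c123213ca2215145c4268,
    0x14215c42229219c218213223ce8c8, 0x125415c113223c62889129c82a8]]

noncomputable def n2370 : Ent := ⟨e2370, noF, [], [], [(14, 15, [360035742630636841211993100915356868655746945586763691017371649, 0])]⟩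

def c2370 : PLift (Cov.check n2370.C.D v2370 = true) := ⟨by decide +kernel⟩

def b2370 : PLift (entF (fidx ts) 400 2370 n2370 = true) := ⟨by decide +kernel⟩

theorem g2370 : GoodF (fidx ts) 400 2370 := GoodF.ofV v2370 n2370 c2370.down b2370.down

/-- 4746644:1934/1 -/
noncomputable def e2371 : SCfg where
  D := {
    a := 7
    L := 10
    kp := 7
    inn := [(0, 1), (1, 0), (1, 2), (1, 3), (2, 1), (2, 4), (3, 1), (3, 5), (4, 2), (4, 6), (5, 3), (6,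
      4)]
    mix := [(0, 0), (0, 1), (0, 2), (1, 0), (1, 2), (1, 3), (1, 4), (2, 2), (2, 3), (3, 3), (3, 4), (3,
      5), (3, 6), (4, 1), (4, 2), (4, 3), (4, 7), (5, 5), (5, 6), (5, 8), (6, 3), (6, 7), (6, 9)]
    cl := [2, 1, 0, 0, 0, 3, 4, 5, 7, 6]
    chq := [(1, 6), (3, 4), (4, 3), (6, 1)]
    rng := [(0, 1), (0, 4), (1, 0), (1, 2), (1, 7), (2, 1), (3, 5), (3, 9), (4, 0), (4, 6), (5, 3), (5,
      8), (6, 4), (6, 8), (7, 1), (7, 9), (8, 5), (8, 6), (9, 3), (9, 7)]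
    lev := [] }
  links := [[1, 7, 8, 9], [7, 0, 9, 2, 10, 3, 11], [10, 1, 9, 4], [11, 1, 10, 12, 5, 13], [10, 2, 9, 8,
    14, 6], [13, 3, 12, 15], [10, 4, 14, 16]]
  P := {
    a := 7
    N := 17
    nb := [898, 3725, 1554, 15394, 18244, 45064, 82960, 2307, 17041, 279, 69726, 8330, 33832, 34856,
      65872, 12320, 17472]
    tri := [(0, 1, 7), (0, 1, 9), (0, 7, 8), (0, 8, 9), (1, 2, 9), (1, 2, 10), (1, 3, 10), (1, 3, 11),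
      (1, 7, 11), (2, 4, 9), (2, 4, 10), (3, 5, 12), (3, 5, 13), (3, 10, 12), (3, 11, 13), (4, 6,
      10), (4, 6, 14), (4, 8, 9), (4, 8, 14), (5, 12, 15), (5, 13, 15), (6, 10, 16), (6, 14, 16)]
    fin := [0, 0, 2, 2, 4, 5, 4, 0, 4, 2, 2, 2, 5, 13, 14, 15, 16]
    chd := [(4, 16), (5, 13)]
    steps := [(0, 1), (0, 7), (2, 9), (2, 10), (2, 3), (2, 11), (4, 6), (4, 8), (5, 12)] }
  rep := [2, 4, 0, 5, 13, 14, 16, 15]

noncomputable def v2371 : Cov.CovD where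
  P := 3
  N := 5
  pl := [0, 7, 8]
  lev := [⟨[], [], [(0, 1)], [2], [(1, 1, [6]), (2, 0, [])]⟩,
    ⟨[], [(0, 0), (0, 1)], [(0, 0)], [2], [(2, 0, []), (3, 0, []), (4, 0, [])]⟩,
    ⟨[(0, 1)], [(0, 0), (1, 0)], [(0, 0)], [], [(2, 0, []), (3, 0, [])]⟩,
    ⟨[(0, 1), (1, 2)], [(1, 0), (1, 3), (1, 4), (2, 0)], [(0, 0), (0, 3), (0, 4), (3, 4)],
      [], [(3, 0, []), (4, 0, []), (5, 3, [4]), (6, 4, [3])]⟩,
    ⟨[(1, 2)], [(0, 0), (0, 1), (1, 0), (2, 0), (2, 1), (3, 0)], [(0, 0), (0, 1)], [5],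
      [(1, 1, [6]), (2, 0, []), (3, 0, [])]⟩,
    ⟨[(1, 3)], [(3, 0), (3, 3), (3, 4)], [(3, 4)], [7], [(5, 3, [4]), (6, 4, [3])]⟩,
    ⟨[(2, 4)], [(1, 0), (2, 0), (3, 0), (4, 0), (4, 1), (4, 6)], [(0, 6)], [5], [(3, 0,
      []), (9, 6, [1])]⟩]
  Ta := [((2, 1), 0, 1), ((3, 5), 0, 3), ((3, 9), 0, 6), ((4, 0), 0, 2), ((4, 6), 0, 4)]
  Tb := [((0, 1, 4), 2, 1, 0), ((1, 0, 2), 1, 2, 0), ((1, 0, 7), 1, 2, 5), ((1, 2, 7), 1, 0, 5),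
    ((3, 5, 9), 0, 3, 6), ((4, 0, 6), 0, 2, 4), ((5, 3, 8), 3, 0, 7), ((6, 4, 8), 4, 0, 7),
    ((7, 1, 9), 5, 1, 6), ((8, 5, 6), 7, 3, 4), ((9, 3, 7), 6, 0, 5)]
  Tc := []
  Td := [((1, 6), (1, 0), 2), ((1, 6), (1, 2), 0), ((1, 6), (1, 7), 5), ((3, 4), (5, 3), 0), ((3,
    4), (5, 8), 7), ((4, 3), (6, 4), 0), ((4, 3), (6, 8), 7), ((6, 1), (9, 3), 0), ((6, 1),
    (9, 7), 5)]
  G := [[0, 0x115115648119119a113113ca2c4, 0, 0x225215c223213c62229219c82c8,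
    0x213123c22229119c125215cc4a8], [0, 0, 0, 0x225225c44229229c223223ca8c4,
    0x623ae3c22629ae9c225ee5cc8a1], [0, 0, 0x229119c223113ca8125215c4464,
    0x225125c44229219c223223ca8c4, 0x213123c24219129c215125cc4a1]]

noncomputable def n2371 : Ent := ⟨e2371, noF, [], [], [(14, 15, [1685356702439545624007900436039642273970977273354372543760009793537, 0]), (16, 12, [1580044410777118419473445963789405229760683414688298388994433228801, 0])]⟩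

def c2371 : PLift (Cov.check n2371.C.D v2371 = true) := ⟨by decide +kernel⟩

def b2371 : PLift (entF (fidx ts) 400 2371 n2371 = true) := ⟨by decide +kernel⟩

theorem g2371 : GoodF (fidx ts) 400 2371 := GoodF.ofV v2371 n2371 c2371.down b2371.down

/-- 4746644:1934/6 -/
noncomputable def e2372 : SCfg where
  D := {
    a := 7
    L := 9
    kp := 6
    inn := [(0, 1), (1, 0), (1, 2), (1, 3), (2, 1), (2, 4), (3, 1), (3, 5), (4, 2), (4, 6), (5, 3), (6,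
      4)]
    mix := [(0, 0), (0, 1), (0, 2), (1, 0), (1, 2), (1, 3), (1, 4), (2, 2), (2, 3), (3, 3), (3, 4), (3,
      5), (3, 6), (4, 2), (4, 3), (4, 7), (4, 8), (5, 1), (5, 5), (5, 6), (6, 3), (6, 5), (6, 8)]
    cl := [1, 2, 0, 0, 0, 3, 4, 6, 5]
    chq := [(3, 4), (3, 6), (4, 3), (6, 3)]
    rng := [(0, 1), (0, 4), (1, 0), (1, 2), (1, 5), (1, 6), (2, 1), (2, 7), (3, 5), (4, 0), (4, 6), (5,
      1), (5, 3), (5, 8), (6, 1), (6, 4), (7, 2), (7, 8), (8, 5), (8, 7)]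
    lev := [] }
  links := [[1, 7, 8, 9], [7, 0, 9, 2, 10, 3, 11], [10, 1, 9, 4], [11, 1, 10, 12, 5, 13], [10, 2, 9, 14,
    15, 6], [13, 3, 12, 8], [10, 4, 15, 12]]
  P := {
    a := 7
    N := 16
    nb := [898, 3725, 1554, 15394, 50756, 12552, 37904, 2307, 12961, 16663, 4190, 8330, 34152, 2344,
      33296, 20560]
    tri := [(0, 1, 7), (0, 1, 9), (0, 7, 8), (0, 8, 9), (1, 2, 9), (1, 2, 10), (1, 3, 10), (1, 3, 11),
      (1, 7, 11), (2, 4, 9), (2, 4, 10), (3, 5, 12), (3, 5, 13), (3, 10, 12), (3, 11, 13), (4, 6,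
      10), (4, 6, 15), (4, 9, 14), (4, 14, 15), (5, 8, 12), (5, 8, 13), (6, 10, 12), (6, 12, 15)]
    fin := [0, 0, 2, 2, 4, 5, 4, 0, 8, 2, 2, 2, 5, 13, 4, 15]
    chd := [(5, 4), (5, 13)]
    steps := [(0, 1), (0, 7), (2, 9), (2, 10), (2, 3), (2, 11), (4, 6), (4, 14), (5, 12)] }
  rep := [2, 0, 8, 5, 13, 15, 4]

noncomputable def v2372 : Cov.CovD where
  P := 3
  N := 4
  pl := [0, 1, 8]
  lev := [⟨[], [], [], [1, 2], [(2, 0, [])]⟩,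
    ⟨[], [(0, 0)], [(0, 0)], [1], [(2, 0, []), (3, 0, []), (4, 0, [])]⟩,
    ⟨[(0, 1)], [(0, 0), (1, 0)], [(0, 0)], [], [(2, 0, []), (3, 0, [])]⟩,
    ⟨[(0, 1), (1, 2)], [(1, 0), (1, 3), (1, 4), (2, 0)], [(0, 0), (0, 3), (0, 4), (3, 4)],
      [], [(3, 0, []), (4, 0, []), (5, 3, [4, 6]), (6, 4, [3])]⟩,
    ⟨[(1, 2)], [(0, 0), (1, 0), (2, 0), (2, 6), (3, 0)], [(0, 0), (0, 6)], [5], [(2, 0,
      []), (3, 0, []), (7, 6, [3])]⟩,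
    ⟨[(1, 3)], [(3, 0), (3, 3), (3, 4)], [(3, 4)], [2], [(5, 3, [4, 6]), (6, 4, [3])]⟩,
    ⟨[(2, 4)], [(1, 0), (2, 0), (3, 0), (3, 3), (4, 0), (4, 3), (4, 6), (5, 3)], [(0, 3)],
      [5], [(3, 0, []), (5, 3, [4, 6])]⟩]
  Ta := [((2, 1), 0, 2), ((2, 7), 0, 6), ((3, 5), 0, 3), ((4, 0), 0, 1), ((4, 6), 0, 4)]
  Tb := [((0, 1, 4), 1, 2, 0), ((1, 0, 2), 2, 1, 0), ((1, 0, 5), 2, 1, 3), ((1, 0, 6), 2, 1, 4),
    ((1, 2, 5), 2, 0, 3), ((1, 2, 6), 2, 0, 4), ((1, 5, 6), 2, 3, 4), ((2, 1, 7), 0, 2, 6),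
    ((4, 0, 6), 0, 1, 4), ((5, 1, 3), 3, 2, 0), ((5, 1, 8), 3, 2, 5), ((5, 3, 8), 3, 0, 5),
    ((6, 1, 4), 4, 2, 0), ((7, 2, 8), 6, 0, 5), ((8, 5, 7), 5, 3, 6)]
  Tc := [(3, 4, 6)]
  Td := [((3, 4), (5, 1), 2), ((3, 4), (5, 3), 0), ((3, 4), (5, 8), 5), ((3, 6), (5, 1), 2), ((3,
    6), (5, 3), 0), ((3, 6), (5, 8), 5), ((4, 3), (6, 1), 2), ((4, 3), (6, 4), 0), ((6, 3),
    (7, 2), 0), ((6, 3), (7, 8), 5)]
  G := [[0, 0, 0x544414e42881898e32a212ea2c4, 0x11a151e2284, 0x119191e614111e323211ee848], [0,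
    0, 0, 0x886daaad222de2488, 0xa8c866141c1e62a222ee8888c48], [0,
    0x1831c1e144454e113121ee824, 0, 0x866d12ad811de2284, 0x881898e514111e123242ee248]]

noncomputable def n2372 : Ent := ⟨e2372, noF, [], [], []⟩

def c2372 : PLift (Cov.check n2372.C.D v2372 = true) := ⟨by decide +kernel⟩

def b2372 : PLift (entF (fidx ts) 400 2372 n2372 = true) := ⟨by decide +kernel⟩

theorem g2372 : GoodF (fidx ts) 400 2372 := GoodF.ofV v2372 n2372 c2372.down b2372.down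

/-- 4746644:1934/5 -/
noncomputable def e2373 : SCfg where
  D := {
    a := 7
    L := 10
    kp := 7
    inn := [(0, 1), (1, 0), (1, 2), (1, 3), (2, 1), (2, 4), (3, 1), (3, 5), (4, 2), (4, 6), (5, 3), (6,
      4)]
    mix := [(0, 0), (0, 1), (0, 2), (1, 0), (1, 2), (1, 3), (1, 4), (2, 2), (2, 3), (3, 3), (3, 4), (3,
      5), (3, 6), (4, 2), (4, 3), (4, 7), (4, 8), (5, 1), (5, 5), (5, 6), (6, 3), (6, 8), (6, 9)]
    cl := [1, 2, 0, 0, 0, 3, 4, 6, 5, 7]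
    chq := [(3, 4), (4, 3), (6, 7), (7, 6)]
    rng := [(0, 1), (0, 4), (1, 0), (1, 2), (1, 5), (1, 6), (2, 1), (2, 7), (3, 5), (3, 9), (4, 0), (4,
      6), (5, 1), (5, 3), (6, 1), (6, 4), (7, 2), (7, 8), (8, 7), (8, 9), (9, 3), (9, 8)]
    lev := [] }
  links := [[1, 7, 8, 9], [7, 0, 9, 2, 10, 3, 11], [10, 1, 9, 4], [11, 1, 10, 12, 5, 13], [10, 2, 9, 14,
    15, 6], [13, 3, 12, 8], [10, 4, 15, 16]]
  P := {
    a := 7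
    N := 17
    nb := [898, 3725, 1554, 15394, 50756, 12552, 99344, 2307, 12961, 16663, 69726, 8330, 1320, 2344,
      33296, 82000, 33856]
    tri := [(0, 1, 7), (0, 1, 9), (0, 7, 8), (0, 8, 9), (1, 2, 9), (1, 2, 10), (1, 3, 10), (1, 3, 11),
      (1, 7, 11), (2, 4, 9), (2, 4, 10), (3, 5, 12), (3, 5, 13), (3, 10, 12), (3, 11, 13), (4, 6,
      10), (4, 6, 15), (4, 9, 14), (4, 14, 15), (5, 8, 12), (5, 8, 13), (6, 10, 16), (6, 15, 16)]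
    fin := [0, 0, 2, 2, 4, 5, 4, 0, 8, 2, 2, 2, 5, 13, 4, 15, 16]
    chd := [(4, 16), (5, 13)]
    steps := [(0, 1), (0, 7), (2, 9), (2, 10), (2, 3), (2, 11), (4, 6), (4, 14), (5, 12)] }
  rep := [2, 0, 8, 5, 13, 15, 4, 16]

noncomputable def v2373 : Cov.CovD where
  P := 3
  N := 5
  pl := [0, 1, 8]
  lev := [⟨[], [], [], [1, 2], [(2, 0, [])]⟩,
    ⟨[], [(0, 0)], [(0, 0)], [1], [(2, 0, []), (3, 0, []), (4, 0, [])]⟩,
    ⟨[(0, 1)], [(0, 0), (1, 0)], [(0, 0)], [], [(2, 0, []), (3, 0, [])]⟩,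
    ⟨[(0, 1), (1, 2)], [(1, 0), (1, 3), (1, 4), (2, 0)], [(0, 0), (0, 3), (0, 4), (3, 4)],
      [], [(3, 0, []), (4, 0, []), (5, 3, [4]), (6, 4, [3])]⟩,
    ⟨[(1, 2)], [(0, 0), (1, 0), (2, 0), (2, 6), (3, 0)], [(0, 0), (0, 6)], [5], [(2, 0,
      []), (3, 0, []), (7, 6, [7])]⟩,
    ⟨[(1, 3)], [(3, 0), (3, 3), (3, 4)], [(3, 4)], [2], [(5, 3, [4]), (6, 4, [3])]⟩,
    ⟨[(2, 4)], [(1, 0), (2, 0), (3, 0), (4, 0), (4, 6), (4, 7)], [(0, 7)], [5], [(3, 0,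
      []), (9, 7, [6])]⟩]
  Ta := [((2, 1), 0, 2), ((2, 7), 0, 6), ((3, 5), 0, 3), ((3, 9), 0, 7), ((4, 0), 0, 1), ((4, 6),
    0, 4)]
  Tb := [((0, 1, 4), 1, 2, 0), ((1, 0, 2), 2, 1, 0), ((1, 0, 5), 2, 1, 3), ((1, 0, 6), 2, 1, 4),
    ((1, 2, 5), 2, 0, 3), ((1, 2, 6), 2, 0, 4), ((1, 5, 6), 2, 3, 4), ((2, 1, 7), 0, 2, 6),
    ((3, 5, 9), 0, 3, 7), ((4, 0, 6), 0, 1, 4), ((5, 1, 3), 3, 2, 0), ((6, 1, 4), 4, 2, 0),
    ((7, 2, 8), 6, 0, 5), ((8, 7, 9), 5, 6, 7), ((9, 3, 8), 7, 0, 5)]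
  Tc := []
  Td := [((3, 4), (5, 1), 2), ((3, 4), (5, 3), 0), ((4, 3), (6, 1), 2), ((4, 3), (6, 4), 0), ((6,
    7), (7, 2), 0), ((6, 7), (7, 8), 5), ((7, 6), (9, 3), 0), ((7, 6), (9, 8), 5)]
  G := [[0, 0, 0x341494e123252e62681898e82c4, 0x51a111e2844, 0x311198e1131c1e3112c2ee248], [0,
    0, 0, 0x666daaadcccde2244, 0x68a8c8e61a1c1e62a2c2ee241], [0, 0x3111c1e519111e11a1c1ee484,
    0, 0x355d1a9dc11de2248, 0x381898e51a111e523292ee848]]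

noncomputable def n2373 : Ent := ⟨e2373, noF, [], [], [(16, 12, [1580044410777118419473445963789405229760683414688298388994433236993, 0])]⟩

def c2373 : PLift (Cov.check n2373.C.D v2373 = true) := ⟨by decide +kernel⟩

def b2373 : PLift (entF (fidx ts) 400 2373 n2373 = true) := ⟨by decide +kernel⟩

theorem g2373 : GoodF (fidx ts) 400 2373 := GoodF.ofV v2373 n2373 c2373.down b2373.down

/-- 4746644:1934/8 -/
noncomputable def e2374 : SCfg where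
  D := {
    a := 7
    L := 9
    kp := 6
    inn := [(0, 1), (1, 0), (1, 2), (1, 3), (2, 1), (2, 4), (3, 1), (3, 5), (4, 2), (4, 6), (5, 3), (6,
      4)]
    mix := [(0, 0), (0, 1), (0, 2), (1, 0), (1, 2), (1, 3), (1, 4), (2, 2), (2, 3), (3, 3), (3, 4), (3,
      5), (3, 6), (4, 2), (4, 3), (4, 7), (4, 8), (5, 5), (5, 6), (5, 8), (6, 3), (6, 5), (6, 8)]
    cl := [2, 5, 0, 0, 0, 1, 4, 6, 3]
    chq := [(0, 3), (1, 4), (3, 0), (4, 1)]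
    rng := [(0, 1), (0, 4), (1, 0), (1, 2), (2, 1), (2, 7), (3, 5), (4, 0), (4, 6), (5, 3), (5, 8), (6,
      4), (6, 8), (7, 2), (7, 8), (8, 5), (8, 6), (8, 7)]
    lev := [] }
  links := [[1, 7, 8, 9], [7, 0, 9, 2, 10, 3, 11], [10, 1, 9, 4], [11, 1, 10, 12, 5, 13], [10, 2, 9, 14,
    15, 6], [13, 3, 12, 15], [10, 4, 15, 12]]
  P := {
    a := 7
    N := 16
    nb := [898, 3725, 1554, 15394, 50756, 45064, 37904, 2307, 641, 16663, 4190, 8330, 33896, 34856,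
      33296, 28784]
    tri := [(0, 1, 7), (0, 1, 9), (0, 7, 8), (0, 8, 9), (1, 2, 9), (1, 2, 10), (1, 3, 10), (1, 3, 11),
      (1, 7, 11), (2, 4, 9), (2, 4, 10), (3, 5, 12), (3, 5, 13), (3, 10, 12), (3, 11, 13), (4, 6,
      10), (4, 6, 15), (4, 9, 14), (4, 14, 15), (5, 12, 15), (5, 13, 15), (6, 10, 12), (6, 12,
      15)]
    fin := [0, 0, 0, 3, 3, 5, 3, 0, 8, 3, 3, 3, 5, 13, 14, 15]
    chd := [(3, 15), (5, 13)]
    steps := [(0, 1), (0, 2), (0, 7), (3, 10), (3, 4), (3, 6), (3, 9), (3, 11), (5, 12)] }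
  rep := [3, 5, 0, 15, 13, 8, 14]

noncomputable def v2374 : Cov.CovD where
  P := 3
  N := 4
  pl := [0, 1, 7]
  lev := [⟨[], [], [], [2, 5], [(2, 0, [3])]⟩,
    ⟨[], [(0, 0)], [(0, 0)], [2], [(2, 0, [3]), (3, 0, [3]), (4, 0, [3])]⟩,
    ⟨[(0, 1)], [(0, 0), (1, 0)], [(0, 0)], [], [(2, 0, [3]), (3, 0, [3])]⟩,
    ⟨[(0, 1), (1, 2)], [(1, 0), (1, 1), (1, 4), (2, 0)], [(0, 0), (0, 1), (0, 4), (1, 4)],
      [], [(3, 0, [3]), (4, 0, [3]), (5, 1, [4]), (6, 4, [1])]⟩,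
    ⟨[(1, 2)], [(0, 0), (1, 0), (2, 0), (2, 3), (3, 0)], [(0, 0), (0, 3)], [6], [(2, 0,
      [3]), (3, 0, [3]), (8, 3, [0])]⟩,
    ⟨[(1, 3)], [(3, 0), (3, 1), (3, 3), (3, 4), (4, 3)], [(1, 3), (1, 4), (3, 4)], [], [(5,
      1, [4]), (6, 4, [1]), (8, 3, [0])]⟩,
    ⟨[(2, 4)], [(1, 0), (2, 0), (3, 0), (3, 1), (4, 0), (4, 1), (4, 3), (5, 1), (5, 3)],
      [(0, 1), (0, 3), (1, 3)], [], [(3, 0, [3]), (5, 1, [4]), (8, 3, [0])]⟩]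
  Ta := [((2, 1), 0, 5), ((2, 7), 0, 6), ((3, 5), 0, 1), ((4, 0), 0, 2), ((4, 6), 0, 4)]
  Tb := [((0, 1, 4), 2, 5, 0), ((1, 0, 2), 5, 2, 0), ((2, 1, 7), 0, 5, 6), ((4, 0, 6), 0, 2, 4),
    ((5, 3, 8), 1, 0, 3), ((6, 4, 8), 4, 0, 3), ((7, 2, 8), 6, 0, 3), ((8, 5, 6), 3, 1, 4),
    ((8, 5, 7), 3, 1, 6), ((8, 6, 7), 3, 4, 6)]
  Tc := []
  Td := [((0, 3), (2, 1), 5), ((0, 3), (2, 7), 6), ((0, 3), (3, 5), 1), ((0, 3), (4, 0), 2), ((0,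
    3), (4, 6), 4), ((1, 4), (5, 3), 0), ((1, 4), (5, 8), 3), ((3, 0), (8, 5), 1), ((3, 0),
    (8, 6), 4), ((3, 0), (8, 7), 6), ((4, 1), (6, 4), 0), ((4, 1), (6, 8), 3)]
  G := [[0, 0, 0, 0x814111e814111ec24814111e814411ec28c,
    0x112112c8141c8144cca2881151e819411ec42a], [0, 0x426442e22e2884484ce8a41, 0,
    0x8141c1e8144c1ec281, 0x41c1648141c1e818ca81], [0, 0,
    0x184111e111111ec84111111e814411ec28c, 0x88145841de814111ec241, 0x8811819e8114185ec421]]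

noncomputable def n2374 : Ent := ⟨e2374, noF, [], [], [(8, 14, [385746751338780685620664494392815470296102193487288376382193665, 0])]⟩

def c2374 : PLift (Cov.check n2374.C.D v2374 = true) := ⟨by decide +kernel⟩

def b2374 : PLift (entF (fidx ts) 400 2374 n2374 = true) := ⟨by decide +kernel⟩

theorem g2374 : GoodF (fidx ts) 400 2374 := GoodF.ofV v2374 n2374 c2374.down b2374.down

/-- 4746644:1934/7 -/
noncomputable def e2375 : SCfg where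
  D := {
    a := 7
    L := 10
    kp := 7
    inn := [(0, 1), (1, 0), (1, 2), (1, 3), (2, 1), (2, 4), (3, 1), (3, 5), (4, 2), (4, 6), (5, 3), (6,
      4)]
    mix := [(0, 0), (0, 1), (0, 2), (1, 0), (1, 2), (1, 3), (1, 4), (2, 2), (2, 3), (3, 3), (3, 4), (3,
      5), (3, 6), (4, 2), (4, 3), (4, 7), (4, 8), (5, 5), (5, 6), (5, 8), (6, 3), (6, 8), (6, 9)]
    cl := [2, 5, 0, 0, 0, 4, 1, 6, 3, 7]
    chq := [(0, 3), (1, 4), (3, 0), (4, 1)]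
    rng := [(0, 1), (0, 4), (1, 0), (1, 2), (2, 1), (2, 7), (3, 5), (3, 9), (4, 0), (4, 6), (5, 3), (5,
      8), (6, 4), (6, 8), (7, 2), (7, 8), (8, 5), (8, 6), (8, 7), (8, 9), (9, 3), (9, 8)]
    lev := [] }
  links := [[1, 7, 8, 9], [7, 0, 9, 2, 10, 3, 11], [10, 1, 9, 4], [11, 1, 10, 12, 5, 13], [10, 2, 9, 14,
    15, 6], [13, 3, 12, 15], [10, 4, 15, 16]]
  P := {
    a := 7
    N := 17
    nb := [898, 3725, 1554, 15394, 50756, 45064, 99344, 2307, 641, 16663, 69726, 8330, 33832, 34856,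
      33296, 94320, 33856]
    tri := [(0, 1, 7), (0, 1, 9), (0, 7, 8), (0, 8, 9), (1, 2, 9), (1, 2, 10), (1, 3, 10), (1, 3, 11),
      (1, 7, 11), (2, 4, 9), (2, 4, 10), (3, 5, 12), (3, 5, 13), (3, 10, 12), (3, 11, 13), (4, 6,
      10), (4, 6, 15), (4, 9, 14), (4, 14, 15), (5, 12, 15), (5, 13, 15), (6, 10, 16), (6, 15,
      16)]
    fin := [0, 0, 0, 3, 3, 5, 3, 0, 8, 3, 3, 3, 5, 13, 14, 15, 16]
    chd := [(3, 15), (5, 13)]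
    steps := [(0, 1), (0, 2), (0, 7), (3, 10), (3, 4), (3, 6), (3, 9), (3, 11), (5, 12)] }
  rep := [3, 13, 0, 15, 5, 8, 14, 16]

noncomputable def v2375 : Cov.CovD where
  P := 3
  N := 5
  pl := [0, 1, 7, 9]
  lev := [⟨[], [], [], [2, 5], [(2, 0, [3])]⟩,
    ⟨[], [(0, 0)], [(0, 0)], [2], [(2, 0, [3]), (3, 0, [3]), (4, 0, [3])]⟩,
    ⟨[(0, 1)], [(0, 0), (1, 0)], [(0, 0)], [], [(2, 0, [3]), (3, 0, [3])]⟩,
    ⟨[(0, 1), (1, 2)], [(1, 0), (1, 1), (1, 4), (2, 0)], [(0, 0), (0, 1), (0, 4), (1, 4)],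
      [], [(3, 0, [3]), (4, 0, [3]), (5, 4, [1]), (6, 1, [4])]⟩,
    ⟨[(1, 2)], [(0, 0), (1, 0), (2, 0), (2, 3), (3, 0)], [(0, 0), (0, 3)], [6], [(2, 0,
      [3]), (3, 0, [3]), (8, 3, [0])]⟩,
    ⟨[(1, 3)], [(3, 0), (3, 1), (3, 3), (3, 4), (4, 3)], [(1, 3), (1, 4), (3, 4)], [], [(5,
      4, [1]), (6, 1, [4]), (8, 3, [0])]⟩,
    ⟨[(2, 4)], [(1, 0), (2, 0), (3, 0), (4, 0), (4, 3), (5, 3)], [(0, 3)], [7], [(3, 0,
      [3]), (8, 3, [0])]⟩]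
  Ta := [((2, 1), 0, 5), ((2, 7), 0, 6), ((3, 5), 0, 4), ((3, 9), 0, 7), ((4, 0), 0, 2), ((4, 6),
    0, 1)]
  Tb := [((0, 1, 4), 2, 5, 0), ((1, 0, 2), 5, 2, 0), ((2, 1, 7), 0, 5, 6), ((3, 5, 9), 0, 4, 7),
    ((4, 0, 6), 0, 2, 1), ((5, 3, 8), 4, 0, 3), ((6, 4, 8), 1, 0, 3), ((7, 2, 8), 6, 0, 3),
    ((8, 5, 6), 3, 4, 1), ((8, 5, 7), 3, 4, 6), ((8, 5, 9), 3, 4, 7), ((8, 6, 7), 3, 1, 6),
    ((8, 6, 9), 3, 1, 7), ((8, 7, 9), 3, 6, 7), ((9, 3, 8), 7, 0, 3)]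
  Tc := []
  Td := [((0, 3), (2, 1), 5), ((0, 3), (2, 7), 6), ((0, 3), (3, 5), 4), ((0, 3), (3, 9), 7), ((0,
    3), (4, 0), 2), ((0, 3), (4, 6), 1), ((1, 4), (6, 4), 0), ((1, 4), (6, 8), 3), ((3, 0),
    (8, 5), 4), ((3, 0), (8, 6), 1), ((3, 0), (8, 7), 6), ((3, 0), (8, 9), 7), ((4, 1), (5,
    3), 0), ((4, 1), (5, 8), 3)]
  G := [[0, 0, 0, 0x385191e711171ec8411b1d1eb17411ec28c,
    0x315191e3151e1ec829131e1e4153191ec42a], [0, 0, 0, 0xe4e164e14e18cae8a66da84c1,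
    0xe8a69a4a56a5ace14e44c621], [0, 0x18111e11ce1161412ea241,
    0x181111e111111ec84111111e111411ec48c, 0x319151ee13191ec481, 0x315191e3194b1ec821]]

noncomputable def n2375 : Ent := ⟨e2375, noF, [], [], [(8, 14, [1685382413448253767852309107433119732572617628602273068445374615553, 0]), (16, 12, [1580044410777118419473445963789405229760683414688298388994433245185, 0])]⟩

def c2375 : PLift (Cov.check n2375.C.D v2375 = true) := ⟨by decide +kernel⟩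

def b2375 : PLift (entF (fidx ts) 400 2375 n2375 = true) := ⟨by decide +kernel⟩

theorem g2375 : GoodF (fidx ts) 400 2375 := GoodF.ofV v2375 n2375 c2375.down b2375.down

/-- 4746644:1934/9 -/
noncomputable def e2376 : SCfg where
  D := {
    a := 7
    L := 10
    kp := 7
    inn := [(0, 1), (1, 0), (1, 2), (1, 3), (2, 1), (2, 4), (3, 1), (3, 5), (4, 2), (4, 6), (5, 3), (6,
      4)]
    mix := [(0, 0), (0, 1), (0, 2), (1, 0), (1, 2), (1, 3), (1, 4), (2, 2), (2, 3), (3, 3), (3, 4), (3,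
      5), (3, 6), (4, 2), (4, 3), (4, 7), (4, 8), (5, 5), (5, 6), (5, 9), (6, 3), (6, 5), (6, 8)]
    cl := [3, 6, 0, 0, 0, 1, 2, 5, 4, 7]
    chq := [(1, 2), (1, 5), (2, 1), (5, 1)]
    rng := [(0, 1), (0, 4), (1, 0), (1, 2), (2, 1), (2, 7), (3, 5), (4, 0), (4, 6), (5, 3), (5, 8), (5,
      9), (6, 4), (6, 9), (7, 2), (7, 8), (8, 5), (8, 7), (9, 5), (9, 6)]
    lev := [] }
  links := [[1, 7, 8, 9], [7, 0, 9, 2, 10, 3, 11], [10, 1, 9, 4], [11, 1, 10, 12, 5, 13], [10, 2, 9, 14,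
    15, 6], [13, 3, 12, 16], [10, 4, 15, 12]]
  P := {
    a := 7
    N := 17
    nb := [898, 3725, 1554, 15394, 50756, 77832, 37904, 2307, 641, 16663, 4190, 8330, 99432, 67624,
      33296, 20560, 12320]
    tri := [(0, 1, 7), (0, 1, 9), (0, 7, 8), (0, 8, 9), (1, 2, 9), (1, 2, 10), (1, 3, 10), (1, 3, 11),
      (1, 7, 11), (2, 4, 9), (2, 4, 10), (3, 5, 12), (3, 5, 13), (3, 10, 12), (3, 11, 13), (4, 6,
      10), (4, 6, 15), (4, 9, 14), (4, 14, 15), (5, 12, 16), (5, 13, 16), (6, 10, 12), (6, 12,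
      15)]
    fin := [0, 0, 2, 2, 4, 5, 4, 0, 8, 2, 2, 2, 5, 13, 4, 15, 16]
    chd := [(5, 4), (5, 13)]
    steps := [(0, 1), (0, 7), (2, 9), (2, 10), (2, 3), (2, 11), (4, 6), (4, 14), (5, 12)] }
  rep := [2, 5, 13, 0, 15, 4, 8, 16]

noncomputable def v2376 : Cov.CovD where
  P := 3
  N := 5
  pl := [0, 1, 8, 9]
  lev := [⟨[], [], [], [3, 6], [(2, 0, [])]⟩,
    ⟨[], [(0, 0)], [(0, 0)], [3], [(2, 0, []), (3, 0, []), (4, 0, [])]⟩,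
    ⟨[(0, 1)], [(0, 0), (1, 0)], [(0, 0)], [], [(2, 0, []), (3, 0, [])]⟩,
    ⟨[(0, 1), (1, 2)], [(1, 0), (1, 1), (1, 2), (2, 0)], [(0, 0), (0, 1), (0, 2), (1, 2)],
      [], [(3, 0, []), (4, 0, []), (5, 1, [2, 5]), (6, 2, [1])]⟩,
    ⟨[(1, 2)], [(0, 0), (1, 0), (2, 0), (2, 5), (3, 0)], [(0, 0), (0, 5)], [4], [(2, 0,
      []), (3, 0, []), (7, 5, [1])]⟩,
    ⟨[(1, 3)], [(3, 0), (3, 1), (3, 2)], [(1, 2)], [7], [(5, 1, [2, 5]), (6, 2, [1])]⟩,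
    ⟨[(2, 4)], [(1, 0), (2, 0), (3, 0), (3, 1), (4, 0), (4, 1), (4, 5), (5, 1)], [(0, 1)],
      [4], [(3, 0, []), (5, 1, [2, 5])]⟩]
  Ta := [((2, 1), 0, 6), ((2, 7), 0, 5), ((3, 5), 0, 1), ((4, 0), 0, 3), ((4, 6), 0, 2)]
  Tb := [((0, 1, 4), 3, 6, 0), ((1, 0, 2), 6, 3, 0), ((2, 1, 7), 0, 6, 5), ((4, 0, 6), 0, 3, 2),
    ((5, 3, 8), 1, 0, 4), ((5, 3, 9), 1, 0, 7), ((5, 8, 9), 1, 4, 7), ((6, 4, 9), 2, 0, 7),
    ((7, 2, 8), 5, 0, 4), ((8, 5, 7), 4, 1, 5), ((9, 5, 6), 7, 1, 2)]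
  Tc := [(1, 2, 5)]
  Td := [((1, 2), (5, 3), 0), ((1, 2), (5, 8), 4), ((1, 2), (5, 9), 7), ((1, 5), (5, 3), 0), ((1,
    5), (5, 8), 4), ((1, 5), (5, 9), 7), ((2, 1), (6, 4), 0), ((2, 1), (6, 9), 7), ((5, 1),
    (7, 2), 0), ((5, 1), (7, 8), 4)]
  G := [[0, 0, 0, 0x9592448599282495c2482e,
    0x449449119e88489189919e846119849999e884149449c19e882e], [0,
    0x44c22c6888c88c44c4888c22ca4c61, 0, 0xcc9248cc9288a1, 0x449889cc9e88889889cc9e8461], [0,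
    0, 0x48c18c51ce4411c84cccce88a1, 0x95928245cc2482cc524887,
    0x44948889119a8c4119819c59e884149489919e882d]]

noncomputable def n2376 : Ent := ⟨e2376, noF, [], [], [(8, 14, [1685382413448253767852309107433119732572617628602273068445374619649, 0]), (8, 16, [1580044410770988437309982408355971841652082177953823432505698828289, 0]), (15, 16, [1580044410770988437309982408355971841652082177953823432505698836481, 0])]⟩

def c2376 : PLift (Cov.check n2376.C.D v2376 = true) := ⟨by decide +kernel⟩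

def b2376 : PLift (entF (fidx ts) 400 2376 n2376 = true) := ⟨by decide +kernel⟩

theorem g2376 : GoodF (fidx ts) 400 2376 := GoodF.ofV v2376 n2376 c2376.down b2376.down

/-- 4746644:1934 -/
noncomputable def e2377 : SCfg where
  D := {
    a := 7
    L := 11
    kp := 8
    inn := [(0, 1), (1, 0), (1, 2), (1, 3), (2, 1), (2, 4), (3, 1), (3, 5), (4, 2), (4, 6), (5, 3), (6,
      4)]
    mix := [(0, 0), (0, 1), (0, 2), (1, 0), (1, 2), (1, 3), (1, 4), (2, 2), (2, 3), (3, 3), (3, 4), (3,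
      5), (3, 6), (4, 2), (4, 3), (4, 7), (4, 8), (5, 5), (5, 6), (5, 9), (6, 3), (6, 8), (6, 10)]
    cl := [2, 7, 0, 0, 0, 3, 1, 5, 4, 8, 6]
    chq := [(1, 3), (3, 1), (5, 6), (6, 5)]
    rng := [(0, 1), (0, 4), (1, 0), (1, 2), (2, 1), (2, 7), (3, 5), (3, 10), (4, 0), (4, 6), (5, 3),
      (5, 9), (6, 4), (6, 9), (7, 2), (7, 8), (8, 7), (8, 10), (9, 5), (9, 6), (10, 3), (10, 8)]
    lev := [] }
  links := [[1, 7, 8, 9], [7, 0, 9, 2, 10, 3, 11], [10, 1, 9, 4], [11, 1, 10, 12, 5, 13], [10, 2, 9, 14,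
    15, 6], [13, 3, 12, 16], [10, 4, 15, 17]]
  P := {
    a := 7
    N := 18
    nb := [898, 3725, 1554, 15394, 50756, 77832, 164880, 2307, 641, 16663, 135262, 8330, 66600, 67624,
      33296, 147536, 12320, 33856]
    tri := [(0, 1, 7), (0, 1, 9), (0, 7, 8), (0, 8, 9), (1, 2, 9), (1, 2, 10), (1, 3, 10), (1, 3, 11),
      (1, 7, 11), (2, 4, 9), (2, 4, 10), (3, 5, 12), (3, 5, 13), (3, 10, 12), (3, 11, 13), (4, 6,
      10), (4, 6, 15), (4, 9, 14), (4, 14, 15), (5, 12, 16), (5, 13, 16), (6, 10, 17), (6, 15,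
      17)]
    fin := [0, 0, 2, 2, 4, 5, 4, 0, 8, 2, 2, 2, 5, 13, 4, 15, 16, 17]
    chd := [(4, 17), (5, 13)]
    steps := [(0, 1), (0, 7), (2, 9), (2, 10), (2, 3), (2, 11), (4, 6), (4, 14), (5, 12)] }
  rep := [2, 13, 0, 5, 15, 4, 17, 8, 16]

noncomputable def v2377 : Cov.CovD where
  P := 3
  N := 6
  pl := [0, 1, 8, 9]
  lev := [⟨[], [], [], [2, 7], [(2, 0, [])]⟩,
    ⟨[], [(0, 0)], [(0, 0)], [2], [(2, 0, []), (3, 0, []), (4, 0, [])]⟩,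
    ⟨[(0, 1)], [(0, 0), (1, 0)], [(0, 0)], [], [(2, 0, []), (3, 0, [])]⟩,
    ⟨[(0, 1), (1, 2)], [(1, 0), (1, 1), (1, 3), (2, 0)], [(0, 0), (0, 1), (0, 3), (1, 3)],
      [], [(3, 0, []), (4, 0, []), (5, 3, [1]), (6, 1, [3])]⟩,
    ⟨[(1, 2)], [(0, 0), (1, 0), (2, 0), (2, 5), (3, 0)], [(0, 0), (0, 5)], [4], [(2, 0,
      []), (3, 0, []), (7, 5, [6])]⟩,
    ⟨[(1, 3)], [(3, 0), (3, 1), (3, 3)], [(1, 3)], [8], [(5, 3, [1]), (6, 1, [3])]⟩,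
    ⟨[(2, 4)], [(1, 0), (2, 0), (3, 0), (4, 0), (4, 5), (4, 6)], [(0, 6)], [4], [(3, 0,
      []), (10, 6, [5])]⟩]
  Ta := [((2, 1), 0, 7), ((2, 7), 0, 5), ((3, 5), 0, 3), ((3, 10), 0, 6), ((4, 0), 0, 2), ((4,
    6), 0, 1)]
  Tb := [((0, 1, 4), 2, 7, 0), ((1, 0, 2), 7, 2, 0), ((2, 1, 7), 0, 7, 5), ((3, 5, 10), 0, 3, 6),
    ((4, 0, 6), 0, 2, 1), ((5, 3, 9), 3, 0, 8), ((6, 4, 9), 1, 0, 8), ((7, 2, 8), 5, 0, 4),
    ((8, 7, 10), 4, 5, 6), ((9, 5, 6), 8, 3, 1), ((10, 3, 8), 6, 0, 4)]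
  Tc := []
  Td := [((1, 3), (6, 4), 0), ((1, 3), (6, 9), 8), ((3, 1), (5, 3), 0), ((3, 1), (5, 9), 8), ((5,
    6), (7, 2), 0), ((5, 6), (7, 8), 4), ((6, 5), (10, 3), 0), ((6, 5), (10, 8), 4)]
  G := [[0, 0, 0, 0x6151359c5e44539a19199e82ca155c56416584cd19139959e82cc,
    0x335115cc5e4411928659979c8aa519739159e6159a5155ec82a], [0, 0, 0,
    0x665aa5cc5e44669aa9cc9e88c1, 0x669aa9cc9e665aa5cc5ec821], [0,
    0x61c9ac15ce636116996ea241, 0x169a19599e3351159c5ec426199a91c9e165a15595ec42a,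
    0x535a151c5e44569919199e88c1, 0x5188238199919e155a95515ec8a1]]

noncomputable def n2377 : Ent := ⟨e2377, noF, [], [], [(8, 14, [7334790875878422277917280412776772662961875900559637987928627379187713, 0]), (8, 16, [7334685537875745012586738086077695515070955365108989538292687703396353, 0]), (15, 16, [7334685537875745012586738086077695515070955365108989538292687703404545, 0]), (17, 12, [6903326391201342438349770174129673216027896805894258472290640857432065, 0])]⟩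

def c2377 : PLift (Cov.check n2377.C.D v2377 = true) := ⟨by decide +kernel⟩

def b2377 : PLift (entF (fidx ts) 400 2377 n2377 = true) := ⟨by decide +kernel⟩

theorem g2377 : GoodF (fidx ts) 400 2377 := GoodF.ofV v2377 n2377 c2377.down b2377.down

/-- 4744746:1938/2 -/
noncomputable def e2378 : SCfg where
  D := {
    a := 7
    L := 9
    kp := 7
    inn := [(0, 1), (1, 0), (1, 2), (1, 3), (2, 1), (2, 4), (3, 1), (4, 2), (4, 5), (4, 6), (5, 4), (5,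
      6), (6, 4), (6, 5)]
    mix := [(0, 0), (0, 1), (0, 2), (1, 0), (1, 2), (1, 3), (1, 4), (2, 2), (2, 3), (3, 3), (3, 4), (3,
      5), (4, 2), (4, 3), (4, 5), (4, 6), (5, 6), (5, 7), (6, 1), (6, 2), (6, 7), (6, 8)]
    cl := [1, 3, 0, 0, 5, 2, 6, 4, 7]
    chq := [(0, 1), (1, 0), (1, 2), (2, 1), (2, 3), (2, 4), (2, 7), (3, 2), (4, 2), (7, 2)]
    rng := [(0, 1), (0, 4), (1, 0), (1, 2), (1, 8), (2, 1), (3, 5), (4, 0), (4, 5), (5, 3), (5, 4), (5,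
      6), (6, 5), (6, 7), (7, 6), (7, 8), (8, 1), (8, 7)]
    lev := [] }
  links := [[1, 7, 8, 9], [7, 0, 9, 2, 10, 3, 11], [10, 1, 9, 4], [11, 1, 10, 12], [10, 2, 9, 6, 5, 13,
    12], [13, 4, 6, 14], [14, 5, 4, 9, 8, 15]]
  P := {
    a := 7
    N := 16
    nb := [898, 3725, 1554, 7170, 13924, 24656, 49968, 2307, 33473, 343, 4126, 4234, 11288, 20528,
      41056, 16704]
    tri := [(0, 1, 7), (0, 1, 9), (0, 7, 8), (0, 8, 9), (1, 2, 9), (1, 2, 10), (1, 3, 10), (1, 3, 11),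
      (1, 7, 11), (2, 4, 9), (2, 4, 10), (3, 10, 12), (3, 11, 12), (4, 5, 6), (4, 5, 13), (4, 6,
      9), (4, 10, 12), (4, 12, 13), (5, 6, 14), (5, 13, 14), (6, 8, 9), (6, 8, 15), (6, 14, 15)]
    fin := [0, 0, 2, 0, 4, 5, 4, 0, 8, 2, 2, 11, 4, 13, 5, 15]
    chd := [(0, 2), (0, 4), (4, 5), (4, 15), (8, 4)]
    steps := [(0, 1), (0, 3), (0, 7), (2, 9), (2, 10), (4, 6), (4, 12), (5, 14)] }
  rep := [2, 0, 4, 8, 5, 11, 13, 15]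

noncomputable def v2378 : Cov.CovD where
  P := 3
  N := 5
  pl := [4, 6]
  lev := [⟨[], [], [(0, 1), (0, 3), (1, 3)], [], [(0, 1, [0, 2]), (1, 3, [2]), (2, 0, [1])]⟩,
    ⟨[], [(0, 0), (0, 1), (0, 3)], [(0, 0), (0, 1)], [5], [(0, 1, [0, 2]), (2, 0, [1]), (3,
      0, [1])]⟩,
    ⟨[(0, 1)], [(0, 0), (1, 0), (1, 1)], [(0, 0)], [], [(2, 0, [1]), (3, 0, [1])]⟩,
    ⟨[(0, 1), (1, 2)], [(1, 0), (1, 1), (1, 2), (2, 0)], [(0, 2)], [5], [(3, 0, [1]), (5,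
      2, [1, 3, 4, 7])]⟩,
    ⟨[(1, 2)], [(0, 0), (1, 0), (2, 0), (2, 2), (3, 0), (3, 2)], [(0, 0), (0, 2)], [6],
      [(2, 0, [1]), (3, 0, [1]), (5, 2, [1, 3, 4, 7])]⟩,
    ⟨[(2, 4)], [(4, 0), (4, 2), (4, 4)], [], [6], [(7, 4, [2])]⟩,
    ⟨[(2, 4), (4, 5)], [(0, 0), (0, 3), (1, 0), (2, 0), (4, 0), (4, 2), (4, 3), (4, 4), (4,
      7), (5, 0), (5, 3), (5, 4), (5, 7)], [(0, 3), (0, 4), (0, 7), (3, 4), (3, 7), (4, 7)],
      [], [(1, 3, [2]), (2, 0, [1]), (7, 4, [2]), (8, 7, [2])]⟩]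
  Ta := [((2, 1), 0, 3), ((3, 5), 0, 2)]
  Tb := [((0, 1, 4), 1, 3, 5), ((1, 0, 2), 3, 1, 0), ((1, 0, 8), 3, 1, 7), ((1, 2, 8), 3, 0, 7),
    ((4, 0, 5), 5, 1, 2), ((5, 3, 4), 2, 0, 5), ((5, 3, 6), 2, 0, 6), ((5, 4, 6), 2, 5, 6),
    ((6, 5, 7), 6, 2, 4), ((7, 6, 8), 4, 6, 7), ((8, 1, 7), 7, 3, 4)]
  Tc := [(1, 0, 2), (2, 1, 3), (2, 1, 4), (2, 1, 7), (2, 3, 4), (2, 3, 7), (2, 4, 7)]
  Td := [((0, 1), (2, 1), 3), ((0, 1), (3, 5), 2), ((1, 0), (0, 1), 3), ((1, 0), (0, 4), 5), ((1,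
    2), (0, 1), 3), ((1, 2), (0, 4), 5), ((2, 1), (5, 3), 0), ((2, 1), (5, 4), 5), ((2, 1),
    (5, 6), 6), ((2, 3), (5, 3), 0), ((2, 3), (5, 4), 5), ((2, 3), (5, 6), 6), ((2, 4), (5,
    3), 0), ((2, 4), (5, 4), 5), ((2, 4), (5, 6), 6), ((2, 7), (5, 3), 0), ((2, 7), (5, 4),
    5), ((2, 7), (5, 6), 6), ((3, 2), (1, 0), 1), ((3, 2), (1, 2), 0), ((3, 2), (1, 8), 7),
    ((4, 2), (7, 6), 6), ((4, 2), (7, 8), 7), ((7, 2), (8, 1), 3), ((7, 2), (8, 7), 4)]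
  G := [[0, 0x5222588e1822222c12229b2c1466, 0, 0x2222c822222c42c2,
    0x444b2449443a418b444ec443a84645444ba28cc], [0, 0xf2f2c1272f288e482124c18e2,
    0x11a116c2211a116c42c11a116c8211c11a628cc, 0x2222c282222c8861, 0x449443a84449443a24c1]]

noncomputable def n2378 : Ent := ⟨e2378, noF, [], [], []⟩

def c2378 : PLift (Cov.check n2378.C.D v2378 = true) := ⟨by decide +kernel⟩

def b2378 : PLift (entF (fidx ts) 400 2378 n2378 = true) := ⟨by decide +kernel⟩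

theorem g2378 : GoodF (fidx ts) 400 2378 := GoodF.ofV v2378 n2378 c2378.down b2378.down

/-- 4744746:1938/1 -/
noncomputable def e2379 : SCfg where
  D := {
    a := 7
    L := 10
    kp := 8
    inn := [(0, 1), (1, 0), (1, 2), (1, 3), (2, 1), (2, 4), (3, 1), (4, 2), (4, 5), (4, 6), (5, 4), (5,
      6), (6, 4), (6, 5)]
    mix := [(0, 0), (0, 1), (0, 2), (1, 0), (1, 2), (1, 3), (1, 4), (2, 2), (2, 3), (3, 3), (3, 4), (3,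
      5), (4, 2), (4, 3), (4, 6), (4, 7), (5, 6), (5, 8), (6, 1), (6, 2), (6, 8), (6, 9)]
    cl := [1, 2, 0, 0, 4, 7, 5, 6, 3, 8]
    chq := [(0, 1), (1, 0), (1, 7), (2, 6), (3, 6), (6, 2), (6, 3), (6, 8), (7, 1), (8, 6)]
    rng := [(0, 1), (0, 4), (1, 0), (1, 2), (1, 9), (2, 1), (3, 5), (3, 7), (4, 0), (4, 5), (5, 3), (5,
      4), (6, 7), (6, 8), (7, 3), (7, 6), (8, 6), (8, 9), (9, 1), (9, 8)]
    lev := [] }
  links := [[1, 7, 8, 9], [7, 0, 9, 2, 10, 3, 11], [10, 1, 9, 4], [11, 1, 10, 12], [10, 2, 9, 6, 5, 13,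
    14], [13, 4, 6, 15], [15, 5, 4, 9, 8, 16]]
  P := {
    a := 7
    N := 17
    nb := [898, 3725, 1554, 7170, 26212, 41040, 99120, 2307, 66241, 343, 20510, 4234, 3080, 49200,
      9232, 73824, 33088]
    tri := [(0, 1, 7), (0, 1, 9), (0, 7, 8), (0, 8, 9), (1, 2, 9), (1, 2, 10), (1, 3, 10), (1, 3, 11),
      (1, 7, 11), (2, 4, 9), (2, 4, 10), (3, 10, 12), (3, 11, 12), (4, 5, 6), (4, 5, 13), (4, 6,
      9), (4, 10, 14), (4, 13, 14), (5, 6, 15), (5, 13, 15), (6, 8, 9), (6, 8, 16), (6, 15, 16)]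
    fin := [0, 0, 2, 0, 4, 5, 4, 0, 8, 2, 2, 11, 12, 13, 4, 5, 16]
    chd := [(0, 2), (0, 12), (4, 5), (4, 16), (8, 4)]
    steps := [(0, 1), (0, 3), (0, 7), (2, 9), (2, 10), (4, 6), (4, 14), (5, 15)] }
  rep := [2, 0, 8, 5, 11, 13, 4, 12, 16]

noncomputable def v2379 : Cov.CovD where
  P := 3
  N := 6
  pl := [4, 6]
  lev := [⟨[], [], [(0, 1), (0, 2), (1, 2)], [], [(0, 1, [0, 7]), (1, 2, [6]), (2, 0, [1])]⟩,
    ⟨[], [(0, 0), (0, 1), (0, 2)], [(0, 0), (0, 1)], [4], [(0, 1, [0, 7]), (2, 0, [1]), (3,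
      0, [1])]⟩,
    ⟨[(0, 1)], [(0, 0), (1, 0), (1, 1)], [(0, 0)], [], [(2, 0, [1]), (3, 0, [1])]⟩,
    ⟨[(0, 1), (1, 2)], [(1, 0), (1, 1), (1, 7), (2, 0)], [(0, 7)], [4], [(3, 0, [1]), (5,
      7, [1])]⟩,
    ⟨[(1, 2)], [(0, 0), (1, 0), (2, 0), (2, 6), (3, 0)], [(0, 0), (0, 6)], [5], [(2, 0,
      [1]), (3, 0, [1]), (7, 6, [2, 3, 8])]⟩,
    ⟨[(2, 4)], [(4, 0), (4, 3), (4, 6)], [], [5], [(8, 3, [6])]⟩,
    ⟨[(2, 4), (4, 5)], [(0, 0), (0, 2), (1, 0), (2, 0), (4, 0), (4, 2), (4, 3), (4, 6), (4,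
      8), (5, 0), (5, 2), (5, 3), (5, 8)], [(0, 2), (0, 3), (0, 8), (2, 3), (2, 8), (3, 8)],
      [], [(1, 2, [6]), (2, 0, [1]), (8, 3, [6]), (9, 8, [6])]⟩]
  Ta := [((2, 1), 0, 2), ((3, 5), 0, 7), ((3, 7), 0, 6)]
  Tb := [((0, 1, 4), 1, 2, 4), ((1, 0, 2), 2, 1, 0), ((1, 0, 9), 2, 1, 8), ((1, 2, 9), 2, 0, 8),
    ((3, 5, 7), 0, 7, 6), ((4, 0, 5), 4, 1, 7), ((5, 3, 4), 7, 0, 4), ((6, 7, 8), 5, 6, 3),
    ((7, 3, 6), 6, 0, 5), ((8, 6, 9), 3, 5, 8), ((9, 1, 8), 8, 2, 3)]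
  Tc := [(1, 0, 7), (6, 2, 3), (6, 2, 8), (6, 3, 8)]
  Td := [((0, 1), (2, 1), 2), ((0, 1), (3, 5), 7), ((0, 1), (3, 7), 6), ((1, 0), (0, 1), 2), ((1,
    0), (0, 4), 4), ((1, 7), (0, 1), 2), ((1, 7), (0, 4), 4), ((2, 6), (1, 0), 1), ((2, 6),
    (1, 2), 0), ((2, 6), (1, 9), 8), ((3, 6), (8, 6), 5), ((3, 6), (8, 9), 8), ((6, 2), (7,
    3), 0), ((6, 2), (7, 6), 5), ((6, 3), (7, 3), 0), ((6, 3), (7, 6), 5), ((6, 8), (7, 3),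
    0), ((6, 8), (7, 6), 5), ((7, 1), (5, 3), 0), ((7, 1), (5, 4), 4), ((8, 6), (9, 1), 2),
    ((8, 6), (9, 8), 3)]
  G := [[0, 0x654ba1878cce12465d9ac48de1868, 0x4e4b82a784ce226e682a7c4ce12c4,
    0xcc321445889c26445c89c4cee28c4, 0x666baa878c9e22263aa2ecccbe18c8], [0,
    0x818bdcc6146581acc321252d921ec1aa4, 0, 0x45c98dc3e245498cdc3e28c4,
    0x94a22343a3ad94e26136a2ad91cee343a328f918ee263a32d9dcbee8c8]]

noncomputable def n2379 : Ent := ⟨e2379, noF, [], [], [(14, 12, [1685382413451318758934040885149836426626918246969510546689741856769, 0])]⟩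

def c2379 : PLift (Cov.check n2379.C.D v2379 = true) := ⟨by decide +kernel⟩

def b2379 : PLift (entF (fidx ts) 400 2379 n2379 = true) := ⟨by decide +kernel⟩

theorem g2379 : GoodF (fidx ts) 400 2379 := GoodF.ofV v2379 n2379 c2379.down b2379.down

/-- 4744746:1938/3 -/
noncomputable def e2380 : SCfg where
  D := {
    a := 7
    L := 10
    kp := 8
    inn := [(0, 1), (1, 0), (1, 2), (1, 3), (2, 1), (2, 4), (3, 1), (4, 2), (4, 5), (4, 6), (5, 4), (5,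
      6), (6, 4), (6, 5)]
    mix := [(0, 0), (0, 1), (0, 2), (1, 0), (1, 2), (1, 3), (1, 4), (2, 2), (2, 3), (3, 3), (3, 4), (3,
      5), (4, 2), (4, 3), (4, 5), (4, 6), (5, 6), (5, 7), (6, 2), (6, 7), (6, 8), (6, 9)]
    cl := [1, 8, 0, 0, 4, 2, 5, 3, 6, 7]
    chq := [(0, 1), (1, 0), (1, 2), (2, 1), (2, 3), (2, 6), (2, 7), (3, 2), (6, 2), (7, 2)]
    rng := [(0, 1), (0, 4), (1, 0), (1, 2), (2, 1), (2, 8), (3, 5), (4, 0), (4, 5), (5, 3), (5, 4), (5,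
      6), (6, 5), (6, 7), (7, 6), (7, 9), (8, 2), (8, 9), (9, 7), (9, 8)]
    lev := [] }
  links := [[1, 7, 8, 9], [7, 0, 9, 2, 10, 3, 11], [10, 1, 9, 4], [11, 1, 10, 12], [10, 2, 9, 6, 5, 13,
    12], [13, 4, 6, 14], [14, 5, 4, 9, 15, 16]]
  P := {
    a := 7
    N := 17
    nb := [898, 3725, 1554, 7170, 13924, 24656, 115248, 2307, 641, 33111, 4126, 4234, 11288, 20528,
      73824, 66112, 49216]
    tri := [(0, 1, 7), (0, 1, 9), (0, 7, 8), (0, 8, 9), (1, 2, 9), (1, 2, 10), (1, 3, 10), (1, 3, 11),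
      (1, 7, 11), (2, 4, 9), (2, 4, 10), (3, 10, 12), (3, 11, 12), (4, 5, 6), (4, 5, 13), (4, 6,
      9), (4, 10, 12), (4, 12, 13), (5, 6, 14), (5, 13, 14), (6, 9, 15), (6, 14, 16), (6, 15, 16)]
    fin := [0, 0, 2, 0, 4, 5, 4, 0, 8, 2, 2, 11, 4, 13, 5, 15, 16]
    chd := [(0, 2), (0, 4), (4, 5), (4, 15), (4, 16)]
    steps := [(0, 1), (0, 3), (0, 7), (2, 9), (2, 10), (4, 6), (4, 12), (5, 14)] }
  rep := [2, 0, 4, 5, 11, 13, 15, 16, 8]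

noncomputable def v2380 : Cov.CovD where
  P := 3
  N := 6
  pl := [1, 4, 6]
  lev := [⟨[], [], [(0, 1)], [8], [(0, 1, [0, 2]), (2, 0, [1])]⟩,
    ⟨[], [(0, 0), (0, 1)], [(0, 0), (0, 1)], [4], [(0, 1, [0, 2]), (2, 0, [1]), (3, 0,
      [1])]⟩,
    ⟨[(0, 1)], [(0, 0), (1, 0), (1, 1)], [(0, 0)], [], [(2, 0, [1]), (3, 0, [1])]⟩,
    ⟨[(0, 1), (1, 2)], [(1, 0), (1, 1), (1, 2), (2, 0)], [(0, 2)], [4], [(3, 0, [1]), (5,
      2, [1, 3, 6, 7])]⟩,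
    ⟨[(1, 2)], [(0, 0), (1, 0), (2, 0), (2, 2), (3, 0), (3, 2)], [(0, 0), (0, 2)], [5],
      [(2, 0, [1]), (3, 0, [1]), (5, 2, [1, 3, 6, 7])]⟩,
    ⟨[(2, 4)], [(4, 0), (4, 2), (4, 3)], [], [5], [(7, 3, [2])]⟩,
    ⟨[(2, 4), (4, 5)], [(0, 0), (1, 0), (2, 0), (4, 0), (4, 2), (4, 3), (4, 6), (4, 7), (5,
      0), (5, 3), (5, 6), (5, 7)], [(0, 3), (0, 6), (0, 7), (3, 6), (3, 7), (6, 7)], [], [(2,
      0, [1]), (7, 3, [2]), (8, 6, [2]), (9, 7, [2])]⟩]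
  Ta := [((2, 1), 0, 8), ((2, 8), 0, 6), ((3, 5), 0, 2)]
  Tb := [((0, 1, 4), 1, 8, 4), ((1, 0, 2), 8, 1, 0), ((2, 1, 8), 0, 8, 6), ((4, 0, 5), 4, 1, 2),
    ((5, 3, 4), 2, 0, 4), ((5, 3, 6), 2, 0, 5), ((5, 4, 6), 2, 4, 5), ((6, 5, 7), 5, 2, 3),
    ((7, 6, 9), 3, 5, 7), ((8, 2, 9), 6, 0, 7), ((9, 7, 8), 7, 3, 6)]
  Tc := [(1, 0, 2), (2, 1, 3), (2, 1, 6), (2, 1, 7), (2, 3, 6), (2, 3, 7), (2, 6, 7)]
  Td := [((0, 1), (2, 1), 8), ((0, 1), (2, 8), 6), ((0, 1), (3, 5), 2), ((1, 0), (0, 1), 8), ((1,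
    0), (0, 4), 4), ((1, 2), (0, 1), 8), ((1, 2), (0, 4), 4), ((2, 1), (5, 3), 0), ((2, 1),
    (5, 4), 4), ((2, 1), (5, 6), 5), ((2, 3), (5, 3), 0), ((2, 3), (5, 4), 4), ((2, 3), (5,
    6), 5), ((2, 6), (5, 3), 0), ((2, 6), (5, 4), 4), ((2, 6), (5, 6), 5), ((2, 7), (5, 3),
    0), ((2, 7), (5, 4), 4), ((2, 7), (5, 6), 5), ((3, 2), (7, 6), 5), ((3, 2), (7, 9), 7),
    ((6, 2), (8, 2), 0), ((6, 2), (8, 9), 7), ((7, 2), (9, 7), 3), ((7, 2), (9, 8), 6)]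
  G := [[0, 0x27a8422254186f24122298146f2225c128e, 0, 0x2222c222222c42c2,
    0xe45444ba14449443a24c449443a844432244982acc], [0,
    0x2222c14229225c12a22225c82229b244e14ac, 0x11a116c2211a116c42c12281814c8611c11a628cc,
    0x2222c222222c28c2, 0x449443a84449443a24c1]]

noncomputable def n2380 : Ent := ⟨e2380, noF, [], [], [(8, 15, [1685356702439545624007900436039642273970977273354372543760009830401, 0])]⟩

def c2380 : PLift (Cov.check n2380.C.D v2380 = true) := ⟨by decide +kernel⟩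

def b2380 : PLift (entF (fidx ts) 400 2380 n2380 = true) := ⟨by decide +kernel⟩

theorem g2380 : GoodF (fidx ts) 400 2380 := GoodF.ofV v2380 n2380 c2380.down b2380.down

/-- 4744746:1938 -/
noncomputable def e2381 : SCfg where
  D := {
    a := 7
    L := 11
    kp := 9
    inn := [(0, 1), (1, 0), (1, 2), (1, 3), (2, 1), (2, 4), (3, 1), (4, 2), (4, 5), (4, 6), (5, 4), (5,
      6), (6, 4), (6, 5)]
    mix := [(0, 0), (0, 1), (0, 2), (1, 0), (1, 2), (1, 3), (1, 4), (2, 2), (2, 3), (3, 3), (3, 4), (3,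
      5), (4, 2), (4, 3), (4, 6), (4, 7), (5, 6), (5, 8), (6, 2), (6, 8), (6, 9), (6, 10)]
    cl := [1, 9, 0, 0, 2, 6, 4, 5, 3, 7, 8]
    chq := [(0, 1), (1, 0), (1, 6), (3, 5), (5, 3), (5, 7), (5, 8), (6, 1), (7, 5), (8, 5)]
    rng := [(0, 1), (0, 4), (1, 0), (1, 2), (2, 1), (2, 9), (3, 5), (3, 7), (4, 0), (4, 5), (5, 3), (5,
      4), (6, 7), (6, 8), (7, 3), (7, 6), (8, 6), (8, 10), (9, 2), (9, 10), (10, 8), (10, 9)]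
    lev := [] }
  links := [[1, 7, 8, 9], [7, 0, 9, 2, 10, 3, 11], [10, 1, 9, 4], [11, 1, 10, 12], [10, 2, 9, 6, 5, 13,
    14], [13, 4, 6, 15], [15, 5, 4, 9, 16, 17]]
  P := {
    a := 7
    N := 18
    nb := [898, 3725, 1554, 7170, 26212, 41040, 229936, 2307, 641, 65879, 20510, 4234, 3080, 49200,
      9232, 139360, 131648, 98368]
    tri := [(0, 1, 7), (0, 1, 9), (0, 7, 8), (0, 8, 9), (1, 2, 9), (1, 2, 10), (1, 3, 10), (1, 3, 11),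
      (1, 7, 11), (2, 4, 9), (2, 4, 10), (3, 10, 12), (3, 11, 12), (4, 5, 6), (4, 5, 13), (4, 6,
      9), (4, 10, 14), (4, 13, 14), (5, 6, 15), (5, 13, 15), (6, 9, 16), (6, 15, 17), (6, 16, 17)]
    fin := [0, 0, 2, 0, 4, 5, 4, 0, 8, 2, 2, 11, 12, 13, 4, 5, 16, 17]
    chd := [(0, 2), (0, 12), (4, 5), (4, 16), (4, 17)]
    steps := [(0, 1), (0, 3), (0, 7), (2, 9), (2, 10), (4, 6), (4, 14), (5, 15)] }
  rep := [2, 0, 11, 5, 13, 4, 12, 16, 17, 8]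

noncomputable def v2381 : Cov.CovD where
  P := 3
  N := 7
  pl := [1, 4, 6]
  lev := [⟨[], [], [(0, 1)], [9], [(0, 1, [0, 6]), (2, 0, [1])]⟩,
    ⟨[], [(0, 0), (0, 1)], [(0, 0), (0, 1)], [2], [(0, 1, [0, 6]), (2, 0, [1]), (3, 0,
      [1])]⟩,
    ⟨[(0, 1)], [(0, 0), (1, 0), (1, 1)], [(0, 0)], [], [(2, 0, [1]), (3, 0, [1])]⟩,
    ⟨[(0, 1), (1, 2)], [(1, 0), (1, 1), (1, 6), (2, 0)], [(0, 6)], [2], [(3, 0, [1]), (5,
      6, [1])]⟩,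
    ⟨[(1, 2)], [(0, 0), (1, 0), (2, 0), (2, 5), (3, 0)], [(0, 0), (0, 5)], [4], [(2, 0,
      [1]), (3, 0, [1]), (7, 5, [3, 7, 8])]⟩,
    ⟨[(2, 4)], [(4, 0), (4, 3), (4, 5)], [], [4], [(8, 3, [5])]⟩,
    ⟨[(2, 4), (4, 5)], [(0, 0), (1, 0), (2, 0), (4, 0), (4, 3), (4, 5), (4, 7), (4, 8), (5,
      0), (5, 3), (5, 7), (5, 8)], [(0, 3), (0, 7), (0, 8), (3, 7), (3, 8), (7, 8)], [], [(2,
      0, [1]), (8, 3, [5]), (9, 7, [5]), (10, 8, [5])]⟩]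
  Ta := [((2, 1), 0, 9), ((2, 9), 0, 7), ((3, 5), 0, 6), ((3, 7), 0, 5)]
  Tb := [((0, 1, 4), 1, 9, 2), ((1, 0, 2), 9, 1, 0), ((2, 1, 9), 0, 9, 7), ((3, 5, 7), 0, 6, 5),
    ((4, 0, 5), 2, 1, 6), ((5, 3, 4), 6, 0, 2), ((6, 7, 8), 4, 5, 3), ((7, 3, 6), 5, 0, 4),
    ((8, 6, 10), 3, 4, 8), ((9, 2, 10), 7, 0, 8), ((10, 8, 9), 8, 3, 7)]
  Tc := [(1, 0, 6), (5, 3, 7), (5, 3, 8), (5, 7, 8)]
  Td := [((0, 1), (2, 1), 9), ((0, 1), (2, 9), 7), ((0, 1), (3, 5), 6), ((0, 1), (3, 7), 5), ((1,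
    0), (0, 1), 9), ((1, 0), (0, 4), 2), ((1, 6), (0, 1), 9), ((1, 6), (0, 4), 2), ((3, 5),
    (8, 6), 4), ((3, 5), (8, 10), 8), ((5, 3), (7, 3), 0), ((5, 3), (7, 6), 4), ((5, 7), (7,
    3), 0), ((5, 7), (7, 6), 4), ((5, 8), (7, 3), 0), ((5, 8), (7, 6), 4), ((6, 1), (5, 3),
    0), ((6, 1), (5, 4), 2), ((7, 5), (9, 2), 0), ((7, 5), (9, 10), 8), ((8, 5), (10, 8), 3),
    ((8, 5), (10, 9), 7)]
  G := [[0, 0x672d9ba4cc7e148aa5cc36166981a4c, 0x669cc3a2aa54264aa5cc36266982c8c,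
    0x669cc3a1aa54164666baaa784cde128c, 0xcc322669aa5c168666baaa784cde128c], [0,
    0x626bab87d5ce128666ba3878ccde128a, 0x71a116c22471a116c22861aa5cc3e284d,
    0x516211c15a6c11c88a411c15a64811c15a688c2666f8eab8c9e4a6baa5849ec28d,
    0x11a116c22811c11a6288aa5cc36266982c8d]]

noncomputable def n2381 : Ent := ⟨e2381, noF, [], [], [(8, 16, [7334685537875745012586738086077695515070955365108989538292687703420929, 0]), (14, 12, [7334790875878425342908362144554489379655930201178005225406871746428929, 0])]⟩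

def c2381 : PLift (Cov.check n2381.C.D v2381 = true) := ⟨by decide +kernel⟩

def b2381 : PLift (entF (fidx ts) 400 2381 n2381 = true) := ⟨by decide +kernel⟩

theorem g2381 : GoodF (fidx ts) 400 2381 := GoodF.ofV v2381 n2381 c2381.down b2381.down

/-- 4746466:1940/2 -/
noncomputable def e2382 : SCfg where
  D := {
    a := 7
    L := 9
    kp := 7
    inn := [(0, 1), (1, 0), (1, 2), (1, 3), (2, 1), (3, 1), (3, 4), (3, 5), (4, 3), (4, 5), (4, 6), (5,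
      3), (5, 4), (5, 6), (6, 4), (6, 5)]
    mix := [(0, 0), (0, 1), (0, 2), (1, 0), (1, 2), (1, 3), (1, 4), (2, 2), (2, 3), (2, 5), (3, 3), (3,
      4), (3, 6), (4, 3), (5, 6), (5, 7), (5, 8), (6, 1), (6, 3), (6, 5), (6, 7)]
    cl := [6, 4, 3, 0, 0, 2, 1, 5, 7]
    chq := [(0, 3), (0, 4), (1, 2), (1, 4), (1, 5), (2, 1), (3, 0), (4, 0), (4, 1), (5, 1)]
    rng := [(0, 1), (0, 4), (1, 0), (1, 2), (1, 5), (1, 7), (2, 1), (2, 5), (3, 5), (4, 0), (4, 6), (5,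
      1), (5, 2), (5, 3), (6, 4), (6, 8), (7, 1), (7, 8), (8, 6), (8, 7)]
    lev := [] }
  links := [[1, 7, 8, 9], [7, 0, 9, 2, 10, 3, 11], [10, 1, 9, 12], [11, 1, 10, 4, 5, 13], [5, 3, 10, 6],
    [13, 3, 4, 6, 14, 15], [14, 5, 4, 10, 12, 8]]
  P := {
    a := 7
    N := 16
    nb := [898, 3725, 5634, 11314, 1128, 57432, 21808, 2307, 21185, 4359, 4190, 8330, 1860, 34856,
      33120, 24608]
    tri := [(0, 1, 7), (0, 1, 9), (0, 7, 8), (0, 8, 9), (1, 2, 9), (1, 2, 10), (1, 3, 10), (1, 3, 11),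
      (1, 7, 11), (2, 9, 12), (2, 10, 12), (3, 4, 5), (3, 4, 10), (3, 5, 13), (3, 11, 13), (4, 5,
      6), (4, 6, 10), (5, 6, 14), (5, 13, 15), (5, 14, 15), (6, 8, 12), (6, 8, 14), (6, 10, 12)]
    fin := [0, 1, 2, 3, 3, 5, 3, 7, 0, 2, 1, 1, 12, 3, 5, 15]
    chd := [(0, 1), (0, 3), (2, 1), (3, 5), (12, 3)]
    steps := [(0, 8), (1, 10), (1, 11), (2, 9), (3, 4), (3, 6), (3, 13), (5, 14)] }
  rep := [1, 3, 12, 2, 0, 5, 7, 15]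

noncomputable def v2382 : Cov.CovD where
  P := 3
  N := 5
  pl := [0, 8]
  lev := [⟨[], [], [(3, 4)], [6], [(1, 4, [0, 1]), (2, 3, [0])]⟩,
    ⟨[], [(0, 0), (0, 3), (0, 4)], [(0, 0), (0, 3)], [6], [(2, 3, [0]), (3, 0, [3, 4]), (4,
      0, [3, 4])]⟩,
    ⟨[(0, 1)], [(0, 3), (1, 0), (1, 2), (1, 3)], [(0, 2), (0, 3), (2, 3)], [], [(2, 3,
      [0]), (3, 0, [3, 4]), (5, 2, [1])]⟩,
    ⟨[(0, 1), (1, 2)], [(1, 0), (1, 1), (1, 3), (2, 0)], [(0, 0), (0, 1)], [], [(3, 0, [3,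
      4]), (4, 0, [3, 4]), (6, 1, [2, 4, 5])]⟩,
    ⟨[(1, 3)], [(1, 0), (2, 0), (3, 0), (3, 1)], [], [], [(3, 0, [3, 4])]⟩,
    ⟨[(1, 3), (3, 4)], [(3, 0), (3, 1), (3, 5), (4, 0), (4, 1), (4, 5)], [(1, 5)], [7],
      [(6, 1, [2, 4, 5]), (7, 5, [1])]⟩,
    ⟨[(3, 4), (3, 5), (4, 5)], [(0, 4), (1, 0), (2, 0), (2, 2), (3, 0), (4, 0), (4, 2), (4,
      4), (4, 5), (5, 0), (5, 1), (5, 2), (5, 4), (5, 5)], [(0, 2), (0, 4), (0, 5), (2, 4),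
      (2, 5), (4, 5)], [], [(1, 4, [0, 1]), (3, 0, [3, 4]), (5, 2, [1]), (7, 5, [1])]⟩]
  Ta := [((3, 5), 0, 2), ((4, 0), 0, 6), ((4, 6), 0, 1)]
  Tb := [((0, 1, 4), 6, 4, 0), ((1, 0, 2), 4, 6, 3), ((1, 0, 5), 4, 6, 2), ((1, 0, 7), 4, 6, 5),
    ((1, 2, 5), 4, 3, 2), ((1, 2, 7), 4, 3, 5), ((1, 5, 7), 4, 2, 5), ((2, 1, 5), 3, 4, 2),
    ((4, 0, 6), 0, 6, 1), ((5, 1, 2), 2, 4, 3), ((5, 1, 3), 2, 4, 0), ((5, 2, 3), 2, 3, 0),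
    ((6, 4, 8), 1, 0, 7), ((7, 1, 8), 5, 4, 7), ((8, 6, 7), 7, 1, 5)]
  Tc := [(0, 3, 4), (1, 2, 4), (1, 2, 5), (1, 4, 5), (4, 0, 1)]
  Td := [((0, 3), (3, 5), 2), ((0, 3), (4, 0), 6), ((0, 3), (4, 6), 1), ((0, 4), (3, 5), 2), ((0,
    4), (4, 0), 6), ((0, 4), (4, 6), 1), ((1, 2), (6, 4), 0), ((1, 2), (6, 8), 7), ((1, 4),
    (6, 4), 0), ((1, 4), (6, 8), 7), ((1, 5), (6, 4), 0), ((1, 5), (6, 8), 7), ((2, 1), (5,
    1), 4), ((2, 1), (5, 2), 3), ((2, 1), (5, 3), 0), ((3, 0), (2, 1), 4), ((3, 0), (2, 5),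
    2), ((4, 0), (1, 0), 6), ((4, 0), (1, 2), 3), ((4, 0), (1, 5), 2), ((4, 0), (1, 7), 5),
    ((4, 1), (1, 0), 6), ((4, 1), (1, 2), 3), ((4, 1), (1, 5), 2), ((4, 1), (1, 7), 5), ((5,
    1), (7, 1), 4), ((5, 1), (7, 8), 7)]
  G := [[0, 0, 0x222d848222d484222d482e1, 0x222d828222d824222d84222d48ce1,
    0x222d84822528a8222d48a222d842e1], [0, 0x111e428111e824111e48111e84ce1, 0,
    0x222d4812222d848222d484c3, 0x222d8418222d4814222d8412222d84822528c81222d842ef]]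

noncomputable def n2382 : Ent := ⟨e2382, noF, [], [], []⟩

def c2382 : PLift (Cov.check n2382.C.D v2382 = true) := ⟨by decide +kernel⟩

def b2382 : PLift (entF (fidx ts) 400 2382 n2382 = true) := ⟨by decide +kernel⟩

theorem g2382 : GoodF (fidx ts) 400 2382 := GoodF.ofV v2382 n2382 c2382.down b2382.down

/-- 4746466:1940/1 -/
noncomputable def e2383 : SCfg where
  D := {
    a := 7
    L := 10
    kp := 8
    inn := [(0, 1), (1, 0), (1, 2), (1, 3), (2, 1), (3, 1), (3, 4), (3, 5), (4, 3), (4, 5), (4, 6), (5,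
      3), (5, 4), (5, 6), (6, 4), (6, 5)]
    mix := [(0, 0), (0, 1), (0, 2), (1, 0), (1, 2), (1, 3), (1, 4), (2, 2), (2, 3), (2, 5), (3, 3), (3,
      4), (3, 6), (4, 3), (5, 6), (5, 7), (5, 8), (6, 1), (6, 3), (6, 7), (6, 9)]
    cl := [1, 4, 3, 0, 0, 6, 2, 5, 8, 7]
    chq := [(1, 3), (1, 6), (2, 4), (2, 5), (2, 7), (3, 1), (4, 2), (5, 2), (6, 1), (7, 2)]
    rng := [(0, 1), (0, 4), (1, 0), (1, 2), (1, 7), (1, 9), (2, 1), (2, 5), (3, 5), (3, 9), (4, 0), (4,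
      6), (5, 2), (5, 3), (6, 4), (6, 8), (7, 1), (7, 8), (8, 6), (8, 7), (9, 1), (9, 3)]
    lev := [] }
  links := [[1, 7, 8, 9], [7, 0, 9, 2, 10, 3, 11], [10, 1, 9, 12], [11, 1, 10, 4, 5, 13], [5, 3, 10, 6],
    [13, 3, 4, 6, 14, 15], [14, 5, 4, 10, 16, 8]]
  P := {
    a := 7
    N := 17
    nb := [898, 3725, 5634, 11314, 1128, 57432, 83248, 2307, 82625, 4359, 69726, 8330, 1540, 34856,
      33120, 24608, 1344]
    tri := [(0, 1, 7), (0, 1, 9), (0, 7, 8), (0, 8, 9), (1, 2, 9), (1, 2, 10), (1, 3, 10), (1, 3, 11),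
      (1, 7, 11), (2, 9, 12), (2, 10, 12), (3, 4, 5), (3, 4, 10), (3, 5, 13), (3, 11, 13), (4, 5,
      6), (4, 6, 10), (5, 6, 14), (5, 13, 15), (5, 14, 15), (6, 8, 14), (6, 8, 16), (6, 10, 16)]
    fin := [0, 0, 0, 3, 3, 5, 5, 0, 8, 9, 3, 3, 12, 5, 14, 15, 16]
    chd := [(0, 9), (0, 12), (5, 14), (5, 16), (8, 5)]
    steps := [(0, 1), (0, 2), (0, 7), (3, 4), (3, 10), (3, 11), (5, 6), (5, 13)] }
  rep := [3, 0, 5, 9, 8, 14, 12, 16, 15]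

noncomputable def v2383 : Cov.CovD where
  P := 3
  N := 6
  pl := [8]
  lev := [⟨[], [], [(1, 3), (1, 4), (3, 4)], [], [(0, 1, [3, 6]), (1, 4, [2]), (2, 3, [1])]⟩,
    ⟨[], [(0, 0), (0, 1), (0, 3), (0, 4)], [(0, 0), (0, 1), (0, 3), (1, 3)], [], [(0, 1,
      [3, 6]), (2, 3, [1]), (3, 0, []), (4, 0, [])]⟩,
    ⟨[(0, 1)], [(0, 3), (1, 0), (1, 1), (1, 3), (1, 6)], [(0, 3), (0, 6), (3, 6)], [], [(2,
      3, [1]), (3, 0, []), (5, 6, [1])]⟩,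
    ⟨[(0, 1), (1, 2)], [(1, 0), (1, 1), (1, 2), (1, 3), (2, 0)], [(0, 0), (0, 2)], [], [(3,
      0, []), (4, 0, []), (6, 2, [4, 5, 7])]⟩,
    ⟨[(1, 3)], [(1, 0), (2, 0), (3, 0), (3, 2)], [], [], [(3, 0, [])]⟩,
    ⟨[(1, 3), (3, 4)], [(3, 0), (3, 2), (3, 5), (4, 0), (4, 2), (4, 5)], [(2, 5)], [8],
      [(6, 2, [4, 5, 7]), (7, 5, [2])]⟩,
    ⟨[(3, 4), (3, 5), (4, 5)], [(0, 4), (1, 0), (2, 0), (3, 0), (4, 0), (4, 4), (4, 5), (4,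
      7), (5, 0), (5, 2), (5, 4), (5, 5), (5, 7)], [(0, 4), (0, 5), (0, 7), (4, 5), (4, 7),
      (5, 7)], [], [(1, 4, [2]), (3, 0, []), (7, 5, [2]), (9, 7, [2])]⟩]
  Ta := [((3, 5), 0, 6), ((3, 9), 0, 7), ((4, 0), 0, 1), ((4, 6), 0, 2)]
  Tb := [((0, 1, 4), 1, 4, 0), ((1, 0, 2), 4, 1, 3), ((1, 0, 7), 4, 1, 5), ((1, 0, 9), 4, 1, 7),
    ((1, 2, 7), 4, 3, 5), ((1, 2, 9), 4, 3, 7), ((1, 7, 9), 4, 5, 7), ((2, 1, 5), 3, 4, 6),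
    ((3, 5, 9), 0, 6, 7), ((4, 0, 6), 0, 1, 2), ((5, 2, 3), 6, 3, 0), ((6, 4, 8), 2, 0, 8),
    ((7, 1, 8), 5, 4, 8), ((8, 6, 7), 8, 2, 5), ((9, 1, 3), 7, 4, 0)]
  Tc := [(1, 3, 6), (2, 4, 5), (2, 4, 7), (2, 5, 7)]
  Td := [((1, 3), (0, 1), 4), ((1, 3), (0, 4), 0), ((1, 6), (0, 1), 4), ((1, 6), (0, 4), 0), ((2,
    4), (6, 4), 0), ((2, 4), (6, 8), 8), ((2, 5), (6, 4), 0), ((2, 5), (6, 8), 8), ((2, 7),
    (6, 4), 0), ((2, 7), (6, 8), 8), ((3, 1), (2, 1), 4), ((3, 1), (2, 5), 6), ((4, 2), (1,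
    0), 1), ((4, 2), (1, 2), 3), ((4, 2), (1, 7), 5), ((4, 2), (1, 9), 7), ((5, 2), (7, 1),
    4), ((5, 2), (7, 8), 8), ((6, 1), (5, 2), 3), ((6, 1), (5, 3), 0), ((7, 2), (9, 1), 4),
    ((7, 2), (9, 3), 0)]
  G := [[0, 0, 0, 0x222d8428222d482421422c8c2222d482cd, 0x444b8228444b2824444b82242449a22cd],
    [0, 0x222d8418222d4814222d4812e, 0x111e4228111e2428111e842111e822cd,
    0x222d8428222d4824222d84222528c81cd, 0x444b8228444b8224444b821b4282cd]]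

noncomputable def n2383 : Ent := ⟨e2383, noF, [], [], [(12, 16, [1580044410770988437309982408355971841652082177953823432505698869249, 0])]⟩

def c2383 : PLift (Cov.check n2383.C.D v2383 = true) := ⟨by decide +kernel⟩

def b2383 : PLift (entF (fidx ts) 400 2383 n2383 = true) := ⟨by decide +kernel⟩

theorem g2383 : GoodF (fidx ts) 400 2383 := GoodF.ofV v2383 n2383 c2383.down b2383.down

/-- 4746466:1940/3 -/
noncomputable def e2384 : SCfg where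
  D := {
    a := 7
    L := 10
    kp := 8
    inn := [(0, 1), (1, 0), (1, 2), (1, 3), (2, 1), (3, 1), (3, 4), (3, 5), (4, 3), (4, 5), (4, 6), (5,
      3), (5, 4), (5, 6), (6, 4), (6, 5)]
    mix := [(0, 0), (0, 1), (0, 2), (1, 0), (1, 2), (1, 3), (1, 4), (2, 2), (2, 3), (2, 5), (3, 3), (3,
      4), (3, 6), (4, 3), (5, 1), (5, 6), (5, 7), (6, 1), (6, 3), (6, 8), (6, 9)]
    cl := [2, 1, 3, 0, 0, 5, 4, 8, 6, 7]
    chq := [(1, 4), (2, 3), (2, 5), (3, 2), (4, 1), (4, 6), (4, 7), (5, 2), (6, 4), (7, 4)]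
    rng := [(0, 1), (0, 4), (1, 0), (1, 2), (1, 7), (1, 9), (2, 1), (2, 5), (3, 5), (3, 8), (4, 0), (4,
      6), (5, 2), (5, 3), (6, 4), (6, 7), (7, 1), (7, 6), (8, 3), (8, 9), (9, 1), (9, 8)]
    lev := [] }
  links := [[1, 7, 8, 9], [7, 0, 9, 2, 10, 3, 11], [10, 1, 9, 12], [11, 1, 10, 4, 5, 13], [5, 3, 10, 6],
    [13, 3, 4, 6, 8, 14], [8, 5, 4, 10, 15, 16]]
  P := {
    a := 7
    N := 17
    nb := [898, 3725, 5634, 11314, 1128, 24920, 99632, 2307, 82657, 4359, 36958, 8330, 1540, 18472,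
      8480, 66624, 33088]
    tri := [(0, 1, 7), (0, 1, 9), (0, 7, 8), (0, 8, 9), (1, 2, 9), (1, 2, 10), (1, 3, 10), (1, 3, 11),
      (1, 7, 11), (2, 9, 12), (2, 10, 12), (3, 4, 5), (3, 4, 10), (3, 5, 13), (3, 11, 13), (4, 5,
      6), (4, 6, 10), (5, 6, 8), (5, 8, 14), (5, 13, 14), (6, 8, 16), (6, 10, 15), (6, 15, 16)]
    fin := [0, 0, 0, 3, 3, 5, 5, 0, 8, 9, 3, 3, 12, 5, 14, 15, 16]
    chd := [(0, 9), (0, 12), (5, 15), (5, 16), (8, 5)]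
    steps := [(0, 1), (0, 2), (0, 7), (3, 4), (3, 10), (3, 11), (5, 6), (5, 13)] }
  rep := [3, 8, 0, 9, 5, 12, 15, 16, 14]

noncomputable def v2384 : Cov.CovD where
  P := 3
  N := 6
  pl := [7]
  lev := [⟨[], [], [(1, 2), (1, 3), (2, 3)], [], [(0, 2, [3, 5]), (1, 1, [4]), (2, 3, [2])]⟩,
    ⟨[], [(0, 0), (0, 1), (0, 2), (0, 3)], [(0, 0), (0, 2), (0, 3), (2, 3)], [], [(0, 2,
      [3, 5]), (2, 3, [2]), (3, 0, []), (4, 0, [])]⟩,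
    ⟨[(0, 1)], [(0, 3), (1, 0), (1, 2), (1, 3), (1, 5)], [(0, 3), (0, 5), (3, 5)], [], [(2,
      3, [2]), (3, 0, []), (5, 5, [2])]⟩,
    ⟨[(0, 1), (1, 2)], [(1, 0), (1, 2), (1, 3), (1, 4), (2, 0)], [(0, 0), (0, 4)], [], [(3,
      0, []), (4, 0, []), (6, 4, [1, 6, 7])]⟩,
    ⟨[(1, 3)], [(1, 0), (2, 0), (3, 0), (3, 4)], [], [], [(3, 0, [])]⟩,
    ⟨[(1, 3), (3, 4)], [(0, 1), (3, 0), (3, 1), (3, 4), (4, 0), (4, 1), (4, 4)], [(1, 4)],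
      [8], [(1, 1, [4]), (6, 4, [1, 6, 7])]⟩,
    ⟨[(3, 4), (3, 5), (4, 5)], [(0, 1), (1, 0), (2, 0), (3, 0), (4, 0), (4, 1), (4, 6), (4,
      7), (5, 0), (5, 1), (5, 4), (5, 6), (5, 7)], [(0, 1), (0, 6), (0, 7), (1, 6), (1, 7),
      (6, 7)], [], [(1, 1, [4]), (3, 0, []), (8, 6, [4]), (9, 7, [4])]⟩]
  Ta := [((3, 5), 0, 5), ((3, 8), 0, 6), ((4, 0), 0, 2), ((4, 6), 0, 4)]
  Tb := [((0, 1, 4), 2, 1, 0), ((1, 0, 2), 1, 2, 3), ((1, 0, 7), 1, 2, 8), ((1, 0, 9), 1, 2, 7),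
    ((1, 2, 7), 1, 3, 8), ((1, 2, 9), 1, 3, 7), ((1, 7, 9), 1, 8, 7), ((2, 1, 5), 3, 1, 5),
    ((3, 5, 8), 0, 5, 6), ((4, 0, 6), 0, 2, 4), ((5, 2, 3), 5, 3, 0), ((6, 4, 7), 4, 0, 8),
    ((7, 1, 6), 8, 1, 4), ((8, 3, 9), 6, 0, 7), ((9, 1, 8), 7, 1, 6)]
  Tc := [(2, 3, 5), (4, 1, 6), (4, 1, 7), (4, 6, 7)]
  Td := [((1, 4), (1, 0), 2), ((1, 4), (1, 2), 3), ((1, 4), (1, 7), 8), ((1, 4), (1, 9), 7), ((2,
    3), (0, 1), 1), ((2, 3), (0, 4), 0), ((2, 5), (0, 1), 1), ((2, 5), (0, 4), 0), ((3, 2),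
    (2, 1), 1), ((3, 2), (2, 5), 5), ((4, 1), (6, 4), 0), ((4, 1), (6, 7), 8), ((4, 6), (6,
    4), 0), ((4, 6), (6, 7), 8), ((4, 7), (6, 4), 0), ((4, 7), (6, 7), 8), ((5, 2), (5, 2),
    3), ((5, 2), (5, 3), 0), ((6, 4), (8, 3), 0), ((6, 4), (8, 9), 7), ((7, 4), (9, 1), 1),
    ((7, 4), (9, 8), 6)]
  G := [[0, 0x2ac262ce86282468c88ce4a24c, 0, 0x449885a22848cd2224c,
    0x6498a5c24822544968854a429], [0, 0x2ac14ca162822c148ce1a24c, 0x449aa5c218469a85c214c,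
    0x59cd222859cd2224c, 0x945c9c248d824349cd86429]]

noncomputable def n2384 : Ent := ⟨e2384, noF, [], [], []⟩

def c2384 : PLift (Cov.check n2384.C.D v2384 = true) := ⟨by decide +kernel⟩

def b2384 : PLift (entF (fidx ts) 400 2384 n2384 = true) := ⟨by decide +kernel⟩

theorem g2384 : GoodF (fidx ts) 400 2384 := GoodF.ofV v2384 n2384 c2384.down b2384.down

/-- 4746466:1940/5 -/
noncomputable def e2385 : SCfg where
  D := {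
    a := 7
    L := 9
    kp := 7
    inn := [(0, 1), (1, 0), (1, 2), (1, 3), (2, 1), (3, 1), (3, 4), (3, 5), (4, 3), (4, 5), (4, 6), (5,
      3), (5, 4), (5, 6), (6, 4), (6, 5)]
    mix := [(0, 0), (0, 1), (0, 2), (1, 0), (1, 2), (1, 3), (1, 4), (2, 2), (2, 3), (2, 5), (3, 3), (3,
      4), (3, 6), (4, 3), (5, 1), (5, 6), (5, 7), (6, 3), (6, 5), (6, 7), (6, 8)]
    cl := [1, 6, 3, 0, 0, 4, 2, 5, 7]
    chq := [(1, 3), (1, 4), (2, 4), (2, 5), (2, 7), (3, 1), (4, 1), (4, 2), (5, 2), (7, 2)]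
    rng := [(0, 1), (0, 4), (1, 0), (1, 2), (1, 6), (1, 7), (2, 1), (2, 5), (3, 5), (4, 0), (4, 6), (5,
      2), (5, 3), (5, 8), (6, 1), (6, 4), (7, 1), (7, 8), (8, 5), (8, 7)]
    lev := [] }
  links := [[1, 7, 8, 9], [7, 0, 9, 2, 10, 3, 11], [10, 1, 9, 12], [11, 1, 10, 4, 5, 13], [5, 3, 10, 6],
    [13, 3, 4, 6, 14, 8], [14, 5, 4, 10, 12, 15]]
  P := {
    a := 7
    N := 16
    nb := [898, 3725, 5634, 11314, 1128, 24920, 54320, 2307, 25249, 4359, 4190, 8330, 34372, 2344,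
      33120, 20544]
    tri := [(0, 1, 7), (0, 1, 9), (0, 7, 8), (0, 8, 9), (1, 2, 9), (1, 2, 10), (1, 3, 10), (1, 3, 11),
      (1, 7, 11), (2, 9, 12), (2, 10, 12), (3, 4, 5), (3, 4, 10), (3, 5, 13), (3, 11, 13), (4, 5,
      6), (4, 6, 10), (5, 6, 14), (5, 8, 13), (5, 8, 14), (6, 10, 12), (6, 12, 15), (6, 14, 15)]
    fin := [0, 0, 0, 3, 3, 5, 5, 0, 8, 9, 3, 3, 12, 5, 14, 15]
    chd := [(0, 9), (0, 12), (5, 14), (5, 15), (12, 5)]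
    steps := [(0, 1), (0, 2), (0, 7), (3, 4), (3, 10), (3, 11), (5, 6), (5, 13)] }
  rep := [3, 0, 5, 9, 12, 14, 8, 15]

noncomputable def v2385 : Cov.CovD where
  P := 3
  N := 5
  pl := [1]
  lev := [⟨[], [], [(1, 3)], [6], [(0, 1, [3, 4]), (2, 3, [1])]⟩,
    ⟨[], [(0, 0), (0, 1), (0, 3)], [(0, 0), (0, 1), (0, 3), (1, 3)], [], [(0, 1, [3, 4]),
      (2, 3, [1]), (3, 0, []), (4, 0, [])]⟩,
    ⟨[(0, 1)], [(0, 3), (1, 0), (1, 1), (1, 3), (1, 4)], [(0, 3), (0, 4), (3, 4)], [], [(2,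
      3, [1]), (3, 0, []), (5, 4, [1, 2])]⟩,
    ⟨[(0, 1), (1, 2)], [(1, 0), (1, 1), (1, 2), (1, 3), (2, 0)], [(0, 0), (0, 2)], [], [(3,
      0, []), (4, 0, []), (6, 2, [4, 5, 7])]⟩,
    ⟨[(1, 3)], [(1, 0), (2, 0), (3, 0), (3, 2)], [], [], [(3, 0, [])]⟩,
    ⟨[(1, 3), (3, 4)], [(3, 0), (3, 2), (3, 5), (4, 0), (4, 2), (4, 5)], [(2, 5)], [6],
      [(6, 2, [4, 5, 7]), (7, 5, [2])]⟩,
    ⟨[(3, 4), (3, 5), (4, 5)], [(1, 0), (2, 0), (2, 4), (3, 0), (4, 0), (4, 4), (4, 5), (4,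
      7), (5, 0), (5, 2), (5, 4), (5, 5), (5, 7)], [(0, 4), (0, 5), (0, 7), (4, 5), (4, 7),
      (5, 7)], [], [(3, 0, []), (5, 4, [1, 2]), (7, 5, [2]), (8, 7, [2])]⟩]
  Ta := [((3, 5), 0, 4), ((4, 0), 0, 1), ((4, 6), 0, 2)]
  Tb := [((0, 1, 4), 1, 6, 0), ((1, 0, 2), 6, 1, 3), ((1, 0, 6), 6, 1, 2), ((1, 0, 7), 6, 1, 5),
    ((1, 2, 6), 6, 3, 2), ((1, 2, 7), 6, 3, 5), ((1, 6, 7), 6, 2, 5), ((2, 1, 5), 3, 6, 4),
    ((4, 0, 6), 0, 1, 2), ((5, 2, 3), 4, 3, 0), ((5, 2, 8), 4, 3, 7), ((5, 3, 8), 4, 0, 7),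
    ((6, 1, 4), 2, 6, 0), ((7, 1, 8), 5, 6, 7), ((8, 5, 7), 7, 4, 5)]
  Tc := [(1, 3, 4), (2, 4, 5), (2, 4, 7), (2, 5, 7), (4, 1, 2)]
  Td := [((1, 3), (0, 1), 6), ((1, 3), (0, 4), 0), ((1, 4), (0, 1), 6), ((1, 4), (0, 4), 0), ((2,
    4), (6, 1), 6), ((2, 4), (6, 4), 0), ((2, 5), (6, 1), 6), ((2, 5), (6, 4), 0), ((2, 7),
    (6, 1), 6), ((2, 7), (6, 4), 0), ((3, 1), (2, 1), 6), ((3, 1), (2, 5), 4), ((4, 1), (5,
    2), 3), ((4, 1), (5, 3), 0), ((4, 1), (5, 8), 7), ((4, 2), (5, 2), 3), ((4, 2), (5, 3),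
    0), ((4, 2), (5, 8), 7), ((5, 2), (7, 1), 6), ((5, 2), (7, 8), 7), ((7, 2), (8, 5), 4),
    ((7, 2), (8, 7), 5)]
  G := [[0, 0, 0, 0x222d8428222d4824225482229482cd, 0x44a8228444b2824443282443482cd], [0,
    0x22984182258814222d8412e, 0x11a42281168428116242111e822cd,
    0x24229c428222d4824225841229841cd, 0x44a8228443489824443281449422cd]]

noncomputable def n2385 : Ent := ⟨e2385, noF, [], [], []⟩

def c2385 : PLift (Cov.check n2385.C.D v2385 = true) := ⟨by decide +kernel⟩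

def b2385 : PLift (entF (fidx ts) 400 2385 n2385 = true) := ⟨by decide +kernel⟩

theorem g2385 : GoodF (fidx ts) 400 2385 := GoodF.ofV v2385 n2385 c2385.down b2385.down

/-- 4746466:1940/4 -/
noncomputable def e2386 : SCfg where
  D := {
    a := 7
    L := 10
    kp := 8
    inn := [(0, 1), (1, 0), (1, 2), (1, 3), (2, 1), (3, 1), (3, 4), (3, 5), (4, 3), (4, 5), (4, 6), (5,
      3), (5, 4), (5, 6), (6, 4), (6, 5)]
    mix := [(0, 0), (0, 1), (0, 2), (1, 0), (1, 2), (1, 3), (1, 4), (2, 2), (2, 3), (2, 5), (3, 3), (3,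
      4), (3, 6), (4, 3), (5, 1), (5, 6), (5, 7), (6, 3), (6, 7), (6, 8), (6, 9)]
    cl := [1, 5, 3, 0, 0, 6, 2, 4, 7, 8]
    chq := [(1, 3), (1, 6), (2, 4), (2, 7), (2, 8), (3, 1), (4, 2), (6, 1), (7, 2), (8, 2)]
    rng := [(0, 1), (0, 4), (1, 0), (1, 2), (1, 6), (1, 7), (2, 1), (2, 5), (3, 5), (3, 8), (4, 0), (4,
      6), (5, 2), (5, 3), (6, 1), (6, 4), (7, 1), (7, 9), (8, 3), (8, 9), (9, 7), (9, 8)]
    lev := [] }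
  links := [[1, 7, 8, 9], [7, 0, 9, 2, 10, 3, 11], [10, 1, 9, 12], [11, 1, 10, 4, 5, 13], [5, 3, 10, 6],
    [13, 3, 4, 6, 14, 8], [14, 5, 4, 10, 15, 16]]
  P := {
    a := 7
    N := 17
    nb := [898, 3725, 5634, 11314, 1128, 24920, 115760, 2307, 25249, 4359, 36958, 8330, 1540, 2344,
      65888, 66624, 49216]
    tri := [(0, 1, 7), (0, 1, 9), (0, 7, 8), (0, 8, 9), (1, 2, 9), (1, 2, 10), (1, 3, 10), (1, 3, 11),
      (1, 7, 11), (2, 9, 12), (2, 10, 12), (3, 4, 5), (3, 4, 10), (3, 5, 13), (3, 11, 13), (4, 5,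
      6), (4, 6, 10), (5, 6, 14), (5, 8, 13), (5, 8, 14), (6, 10, 15), (6, 14, 16), (6, 15, 16)]
    fin := [0, 0, 0, 3, 3, 5, 5, 0, 8, 9, 3, 3, 12, 5, 14, 15, 16]
    chd := [(0, 9), (0, 12), (5, 14), (5, 15), (5, 16)]
    steps := [(0, 1), (0, 2), (0, 7), (3, 4), (3, 10), (3, 11), (5, 6), (5, 13)] }
  rep := [3, 0, 5, 9, 14, 8, 12, 15, 16]

noncomputable def v2386 : Cov.CovD where
  P := 3
  N := 6
  pl := [1]
  lev := [⟨[], [], [(1, 3)], [5], [(0, 1, [3, 6]), (2, 3, [1])]⟩,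
    ⟨[], [(0, 0), (0, 1), (0, 3)], [(0, 0), (0, 1), (0, 3), (1, 3)], [], [(0, 1, [3, 6]),
      (2, 3, [1]), (3, 0, []), (4, 0, [])]⟩,
    ⟨[(0, 1)], [(0, 3), (1, 0), (1, 1), (1, 3), (1, 6)], [(0, 3), (0, 6), (3, 6)], [], [(2,
      3, [1]), (3, 0, []), (5, 6, [1])]⟩,
    ⟨[(0, 1), (1, 2)], [(1, 0), (1, 1), (1, 2), (1, 3), (2, 0)], [(0, 0), (0, 2)], [], [(3,
      0, []), (4, 0, []), (6, 2, [4, 7, 8])]⟩,
    ⟨[(1, 3)], [(1, 0), (2, 0), (3, 0), (3, 2)], [], [], [(3, 0, [])]⟩,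
    ⟨[(1, 3), (3, 4)], [(3, 0), (3, 2), (3, 4), (4, 0), (4, 2), (4, 4)], [(2, 4)], [5],
      [(6, 2, [4, 7, 8]), (7, 4, [2])]⟩,
    ⟨[(3, 4), (3, 5), (4, 5)], [(1, 0), (2, 0), (3, 0), (4, 0), (4, 4), (4, 7), (4, 8), (5,
      0), (5, 2), (5, 4), (5, 7), (5, 8)], [(0, 4), (0, 7), (0, 8), (4, 7), (4, 8), (7, 8)],
      [], [(3, 0, []), (7, 4, [2]), (8, 7, [2]), (9, 8, [2])]⟩]
  Ta := [((3, 5), 0, 6), ((3, 8), 0, 7), ((4, 0), 0, 1), ((4, 6), 0, 2)]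
  Tb := [((0, 1, 4), 1, 5, 0), ((1, 0, 2), 5, 1, 3), ((1, 0, 6), 5, 1, 2), ((1, 0, 7), 5, 1, 4),
    ((1, 2, 6), 5, 3, 2), ((1, 2, 7), 5, 3, 4), ((1, 6, 7), 5, 2, 4), ((2, 1, 5), 3, 5, 6),
    ((3, 5, 8), 0, 6, 7), ((4, 0, 6), 0, 1, 2), ((5, 2, 3), 6, 3, 0), ((6, 1, 4), 2, 5, 0),
    ((7, 1, 9), 4, 5, 8), ((8, 3, 9), 7, 0, 8), ((9, 7, 8), 8, 4, 7)]
  Tc := [(1, 3, 6), (2, 4, 7), (2, 4, 8), (2, 7, 8)]
  Td := [((1, 3), (0, 1), 5), ((1, 3), (0, 4), 0), ((1, 6), (0, 1), 5), ((1, 6), (0, 4), 0), ((2,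
    4), (6, 1), 5), ((2, 4), (6, 4), 0), ((2, 7), (6, 1), 5), ((2, 7), (6, 4), 0), ((2, 8),
    (6, 1), 5), ((2, 8), (6, 4), 0), ((3, 1), (2, 1), 5), ((3, 1), (2, 5), 6), ((4, 2), (7,
    1), 5), ((4, 2), (7, 9), 8), ((6, 1), (5, 2), 3), ((6, 1), (5, 3), 0), ((7, 2), (8, 3),
    0), ((7, 2), (8, 9), 8), ((8, 2), (9, 7), 4), ((8, 2), (9, 8), 7)]
  G := [[0, 0, 0, 0x24229c428222d4824225482229842cd, 0x44a822844348a224443822443822cd], [0,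
    0x22984182254814222d4812e, 0x11a2428116422411682211a422cd,
    0x2122c5428225289824225842229842cd, 0x44a122844348a82444328144a182cd]]

noncomputable def n2386 : Ent := ⟨e2386, noF, [], [], [(12, 15, [1685356702439545624007900436039642273970977273354372543760009859073, 0])]⟩

def c2386 : PLift (Cov.check n2386.C.D v2386 = true) := ⟨by decide +kernel⟩

def b2386 : PLift (entF (fidx ts) 400 2386 n2386 = true) := ⟨by decide +kernel⟩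

theorem g2386 : GoodF (fidx ts) 400 2386 := GoodF.ofV v2386 n2386 c2386.down b2386.down

/-- 4746466:1940/6 -/
noncomputable def e2387 : SCfg where
  D := {
    a := 7
    L := 10
    kp := 8
    inn := [(0, 1), (1, 0), (1, 2), (1, 3), (2, 1), (3, 1), (3, 4), (3, 5), (4, 3), (4, 5), (4, 6), (5,
      3), (5, 4), (5, 6), (6, 4), (6, 5)]
    mix := [(0, 0), (0, 1), (0, 2), (1, 0), (1, 2), (1, 3), (1, 4), (2, 2), (2, 3), (2, 5), (3, 3), (3,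
      4), (3, 6), (4, 3), (5, 6), (5, 7), (5, 8), (6, 3), (6, 5), (6, 7), (6, 9)]
    cl := [1, 7, 3, 0, 0, 4, 2, 5, 8, 6]
    chq := [(1, 3), (1, 4), (2, 4), (2, 5), (2, 6), (3, 1), (4, 1), (4, 2), (5, 2), (6, 2)]
    rng := [(0, 1), (0, 4), (1, 0), (1, 2), (2, 1), (2, 5), (3, 5), (4, 0), (4, 6), (5, 2), (5, 3), (5,
      9), (6, 4), (6, 8), (7, 8), (7, 9), (8, 6), (8, 7), (9, 5), (9, 7)]
    lev := [] }
  links := [[1, 7, 8, 9], [7, 0, 9, 2, 10, 3, 11], [10, 1, 9, 12], [11, 1, 10, 4, 5, 13], [5, 3, 10, 6],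
    [13, 3, 4, 6, 14, 15], [14, 5, 4, 10, 12, 16]]
  P := {
    a := 7
    N := 17
    nb := [898, 3725, 5634, 11314, 1128, 57432, 87088, 2307, 641, 4359, 4190, 8330, 67140, 34856,
      98400, 24608, 20544]
    tri := [(0, 1, 7), (0, 1, 9), (0, 7, 8), (0, 8, 9), (1, 2, 9), (1, 2, 10), (1, 3, 10), (1, 3, 11),
      (1, 7, 11), (2, 9, 12), (2, 10, 12), (3, 4, 5), (3, 4, 10), (3, 5, 13), (3, 11, 13), (4, 5,
      6), (4, 6, 10), (5, 6, 14), (5, 13, 15), (5, 14, 15), (6, 10, 12), (6, 12, 16), (6, 14, 16)]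
    fin := [0, 0, 0, 3, 3, 5, 5, 0, 8, 9, 3, 3, 12, 5, 14, 15, 16]
    chd := [(0, 9), (0, 12), (5, 14), (5, 16), (12, 5)]
    steps := [(0, 1), (0, 2), (0, 7), (3, 4), (3, 10), (3, 11), (5, 6), (5, 13)] }
  rep := [3, 0, 5, 9, 12, 14, 16, 8, 15]

noncomputable def v2387 : Cov.CovD where
  P := 3
  N := 6
  pl := [1, 8]
  lev := [⟨[], [], [(1, 3)], [7], [(0, 1, [3, 4]), (2, 3, [1])]⟩,
    ⟨[], [(0, 0), (0, 1), (0, 3)], [(0, 0), (0, 1), (0, 3), (1, 3)], [], [(0, 1, [3, 4]),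
      (2, 3, [1]), (3, 0, []), (4, 0, [])]⟩,
    ⟨[(0, 1)], [(0, 3), (1, 0), (1, 1), (1, 3), (1, 4)], [(0, 3), (0, 4), (3, 4)], [], [(2,
      3, [1]), (3, 0, []), (5, 4, [1, 2])]⟩,
    ⟨[(0, 1), (1, 2)], [(1, 0), (1, 1), (1, 2), (1, 3), (2, 0)], [(0, 0), (0, 2)], [], [(3,
      0, []), (4, 0, []), (6, 2, [4, 5, 6])]⟩,
    ⟨[(1, 3)], [(1, 0), (2, 0), (3, 0), (3, 2)], [], [], [(3, 0, [])]⟩,
    ⟨[(1, 3), (3, 4)], [(3, 0), (3, 2), (3, 5), (4, 0), (4, 2), (4, 5)], [(2, 5)], [8],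
      [(6, 2, [4, 5, 6]), (7, 5, [2])]⟩,
    ⟨[(3, 4), (3, 5), (4, 5)], [(1, 0), (2, 0), (2, 4), (3, 0), (4, 0), (4, 4), (4, 5), (4,
      6), (5, 0), (5, 2), (5, 4), (5, 5), (5, 6)], [(0, 4), (0, 5), (0, 6), (4, 5), (4, 6),
      (5, 6)], [], [(3, 0, []), (5, 4, [1, 2]), (7, 5, [2]), (9, 6, [2])]⟩]
  Ta := [((3, 5), 0, 4), ((4, 0), 0, 1), ((4, 6), 0, 2)]
  Tb := [((0, 1, 4), 1, 7, 0), ((1, 0, 2), 7, 1, 3), ((2, 1, 5), 3, 7, 4), ((4, 0, 6), 0, 1, 2),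
    ((5, 2, 3), 4, 3, 0), ((5, 2, 9), 4, 3, 6), ((5, 3, 9), 4, 0, 6), ((6, 4, 8), 2, 0, 8),
    ((7, 8, 9), 5, 8, 6), ((8, 6, 7), 8, 2, 5), ((9, 5, 7), 6, 4, 5)]
  Tc := [(1, 3, 4), (2, 4, 5), (2, 4, 6), (2, 5, 6), (4, 1, 2)]
  Td := [((1, 3), (0, 1), 7), ((1, 3), (0, 4), 0), ((1, 4), (0, 1), 7), ((1, 4), (0, 4), 0), ((2,
    4), (6, 4), 0), ((2, 4), (6, 8), 8), ((2, 5), (6, 4), 0), ((2, 5), (6, 8), 8), ((2, 6),
    (6, 4), 0), ((2, 6), (6, 8), 8), ((3, 1), (2, 1), 7), ((3, 1), (2, 5), 4), ((4, 1), (5,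
    2), 3), ((4, 1), (5, 3), 0), ((4, 1), (5, 9), 6), ((4, 2), (5, 2), 3), ((4, 2), (5, 3),
    0), ((4, 2), (5, 9), 6), ((5, 2), (7, 8), 8), ((5, 2), (7, 9), 6), ((6, 2), (9, 5), 4),
    ((6, 2), (9, 7), 5)]
  G := [[0, 0, 0, 0x24229c428222d4824222d842222d482cd, 0x444b8228444b8224444b822444b822cd], [0,
    0x222d841822528c814222d8412e, 0x1411ac428111e8224111e242111e422cd,
    0x2292454282122c9824222d8412412298c2cd, 0x444b82284144a3824444b821444b281cd]]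

noncomputable def n2387 : Ent := ⟨e2387, noF, [], [], [(8, 16, [1580044410770988437309982408355971841652082177953823432505698869249, 0]), (8, 15, [1685356702439545624007900436039642273970977273354372543760009859073, 0])]⟩

def c2387 : PLift (Cov.check n2387.C.D v2387 = true) := ⟨by decide +kernel⟩

def b2387 : PLift (entF (fidx ts) 400 2387 n2387 = true) := ⟨by decide +kernel⟩

theorem g2387 : GoodF (fidx ts) 400 2387 := GoodF.ofV v2387 n2387 c2387.down b2387.down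

/-- 4746466:1940 -/
noncomputable def e2388 : SCfg where
  D := {
    a := 7
    L := 11
    kp := 9
    inn := [(0, 1), (1, 0), (1, 2), (1, 3), (2, 1), (3, 1), (3, 4), (3, 5), (4, 3), (4, 5), (4, 6), (5,
      3), (5, 4), (5, 6), (6, 4), (6, 5)]
    mix := [(0, 0), (0, 1), (0, 2), (1, 0), (1, 2), (1, 3), (1, 4), (2, 2), (2, 3), (2, 5), (3, 3), (3,
      4), (3, 6), (4, 3), (5, 6), (5, 7), (5, 8), (6, 3), (6, 7), (6, 9), (6, 10)]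
    cl := [1, 8, 3, 0, 0, 5, 2, 4, 9, 6, 7]
    chq := [(1, 3), (1, 5), (2, 4), (2, 6), (2, 7), (3, 1), (4, 2), (5, 1), (6, 2), (7, 2)]
    rng := [(0, 1), (0, 4), (1, 0), (1, 2), (2, 1), (2, 5), (3, 5), (3, 9), (4, 0), (4, 6), (5, 2), (5,
      3), (6, 4), (6, 8), (7, 8), (7, 10), (8, 6), (8, 7), (9, 3), (9, 10), (10, 7), (10, 9)]
    lev := [] }
  links := [[1, 7, 8, 9], [7, 0, 9, 2, 10, 3, 11], [10, 1, 9, 12], [11, 1, 10, 4, 5, 13], [5, 3, 10, 6],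
    [13, 3, 4, 6, 14, 15], [14, 5, 4, 10, 16, 17]]
  P := {
    a := 7
    N := 18
    nb := [898, 3725, 5634, 11314, 1128, 57432, 214064, 2307, 641, 4359, 69726, 8330, 1540, 34856,
      163936, 24608, 132160, 81984]
    tri := [(0, 1, 7), (0, 1, 9), (0, 7, 8), (0, 8, 9), (1, 2, 9), (1, 2, 10), (1, 3, 10), (1, 3, 11),
      (1, 7, 11), (2, 9, 12), (2, 10, 12), (3, 4, 5), (3, 4, 10), (3, 5, 13), (3, 11, 13), (4, 5,
      6), (4, 6, 10), (5, 6, 14), (5, 13, 15), (5, 14, 15), (6, 10, 16), (6, 14, 17), (6, 16, 17)]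
    fin := [0, 0, 0, 3, 3, 5, 5, 0, 8, 9, 3, 3, 12, 5, 14, 15, 16, 17]
    chd := [(0, 9), (0, 12), (5, 14), (5, 16), (5, 17)]
    steps := [(0, 1), (0, 2), (0, 7), (3, 4), (3, 10), (3, 11), (5, 6), (5, 13)] }
  rep := [3, 0, 5, 9, 14, 12, 16, 17, 8, 15]

noncomputable def v2388 : Cov.CovD where
  P := 3
  N := 7
  pl := [1, 8]
  lev := [⟨[], [], [(1, 3)], [8], [(0, 1, [3, 5]), (2, 3, [1])]⟩,
    ⟨[], [(0, 0), (0, 1), (0, 3)], [(0, 0), (0, 1), (0, 3), (1, 3)], [], [(0, 1, [3, 5]),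
      (2, 3, [1]), (3, 0, []), (4, 0, [])]⟩,
    ⟨[(0, 1)], [(0, 3), (1, 0), (1, 1), (1, 3), (1, 5)], [(0, 3), (0, 5), (3, 5)], [], [(2,
      3, [1]), (3, 0, []), (5, 5, [1])]⟩,
    ⟨[(0, 1), (1, 2)], [(1, 0), (1, 1), (1, 2), (1, 3), (2, 0)], [(0, 0), (0, 2)], [], [(3,
      0, []), (4, 0, []), (6, 2, [4, 6, 7])]⟩,
    ⟨[(1, 3)], [(1, 0), (2, 0), (3, 0), (3, 2)], [], [], [(3, 0, [])]⟩,
    ⟨[(1, 3), (3, 4)], [(3, 0), (3, 2), (3, 4), (4, 0), (4, 2), (4, 4)], [(2, 4)], [9],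
      [(6, 2, [4, 6, 7]), (7, 4, [2])]⟩,
    ⟨[(3, 4), (3, 5), (4, 5)], [(1, 0), (2, 0), (3, 0), (4, 0), (4, 4), (4, 6), (4, 7), (5,
      0), (5, 2), (5, 4), (5, 6), (5, 7)], [(0, 4), (0, 6), (0, 7), (4, 6), (4, 7), (6, 7)],
      [], [(3, 0, []), (7, 4, [2]), (9, 6, [2]), (10, 7, [2])]⟩]
  Ta := [((3, 5), 0, 5), ((3, 9), 0, 6), ((4, 0), 0, 1), ((4, 6), 0, 2)]
  Tb := [((0, 1, 4), 1, 8, 0), ((1, 0, 2), 8, 1, 3), ((2, 1, 5), 3, 8, 5), ((3, 5, 9), 0, 5, 6),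
    ((4, 0, 6), 0, 1, 2), ((5, 2, 3), 5, 3, 0), ((6, 4, 8), 2, 0, 9), ((7, 8, 10), 4, 9, 7),
    ((8, 6, 7), 9, 2, 4), ((9, 3, 10), 6, 0, 7), ((10, 7, 9), 7, 4, 6)]
  Tc := [(1, 3, 5), (2, 4, 6), (2, 4, 7), (2, 6, 7)]
  Td := [((1, 3), (0, 1), 8), ((1, 3), (0, 4), 0), ((1, 5), (0, 1), 8), ((1, 5), (0, 4), 0), ((2,
    4), (6, 4), 0), ((2, 4), (6, 8), 9), ((2, 6), (6, 4), 0), ((2, 6), (6, 8), 9), ((2, 7),
    (6, 4), 0), ((2, 7), (6, 8), 9), ((3, 1), (2, 1), 8), ((3, 1), (2, 5), 5), ((4, 2), (7,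
    8), 9), ((4, 2), (7, 10), 7), ((5, 1), (5, 2), 3), ((5, 1), (5, 3), 0), ((6, 2), (9, 3),
    0), ((6, 2), (9, 10), 7), ((7, 2), (10, 7), 4), ((7, 2), (10, 9), 6)]
  G := [[0, 0, 0, 0x222d8428222d48242254284c2222d482cd, 0x444b8228444b8224444b822444b282cd], [0,
    0x222d8418222d4814222d8412e, 0x11a146428111e82241162182a2111e282cd,
    0x222d8428222d48242254284c1222d481cd, 0x449423228444b282444942322444b821cd]]

noncomputable def n2388 : Ent := ⟨e2388, noF, [], [], [(8, 17, [6903326391201334775872065844685381424292761054348340378595029939449857, 0]), (8, 14, [7334790875878422277917280412776772662961875900559637987928627379240961, 0]), (8, 15, [7334790850167413569773436004105379185503274260204390087403942014427137, 0]), (12, 16, [7334685537875745012586738086077695515070955365108989538292687703453697, 0])]⟩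

def c2388 : PLift (Cov.check n2388.C.D v2388 = true) := ⟨by decide +kernel⟩

def b2388 : PLift (entF (fidx ts) 400 2388 n2388 = true) := ⟨by decide +kernel⟩

theorem g2388 : GoodF (fidx ts) 400 2388 := GoodF.ofV v2388 n2388 c2388.down b2388.down

/-- 4746464:1941/2 -/
noncomputable def e2389 : SCfg where
  D := {
    a := 7
    L := 8
    kp := 5
    inn := [(0, 1), (1, 0), (1, 2), (1, 3), (2, 1), (3, 1), (3, 4), (3, 5), (4, 3), (4, 5), (5, 3), (5,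
      4), (5, 6), (6, 5)]
    mix := [(0, 0), (0, 1), (0, 2), (1, 0), (1, 2), (1, 3), (1, 4), (2, 2), (2, 3), (2, 5), (3, 3), (3,
      4), (3, 6), (4, 3), (4, 5), (5, 5), (5, 6), (5, 7), (6, 1), (6, 5), (6, 7)]
    cl := [2, 4, 1, 0, 1, 3, 0, 5]
    chq := [(0, 4), (4, 0)]
    rng := [(0, 1), (0, 4), (1, 0), (1, 2), (1, 5), (1, 7), (2, 1), (2, 5), (3, 5), (4, 0), (4, 6), (5,
      1), (5, 2), (5, 3), (6, 4), (6, 7), (7, 1), (7, 6)]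
    lev := [] }
  links := [[1, 7, 8, 9], [7, 0, 9, 2, 10, 3, 11], [10, 1, 9, 12], [11, 1, 10, 4, 5, 13], [5, 3, 10, 12],
    [13, 3, 4, 12, 6, 14], [14, 5, 12, 8]]
  P := {
    a := 7
    N := 15
    nb := [898, 3725, 5634, 11314, 5160, 28760, 20768, 2307, 21185, 4359, 4126, 8330, 1908, 18472,
      8544]
    tri := [(0, 1, 7), (0, 1, 9), (0, 7, 8), (0, 8, 9), (1, 2, 9), (1, 2, 10), (1, 3, 10), (1, 3, 11),
      (1, 7, 11), (2, 9, 12), (2, 10, 12), (3, 4, 5), (3, 4, 10), (3, 5, 13), (3, 11, 13), (4, 5,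
      12), (4, 10, 12), (5, 6, 12), (5, 6, 14), (5, 13, 14), (6, 8, 12), (6, 8, 14)]
    fin := [0, 1, 1, 1, 4, 4, 6, 0, 6, 1, 4, 1, 12, 4, 14]
    chd := [(6, 4)]
    steps := [(0, 7), (1, 2), (1, 3), (1, 9), (1, 11), (4, 5), (4, 10), (4, 13), (6, 8)] }
  rep := [4, 1, 0, 12, 6, 14]

noncomputable def v2389 : Cov.CovD where
  P := 3
  N := 3
  pl := [0, 5, 7]
  lev := [⟨[], [], [(1, 4)], [2], [(1, 4, [0]), (2, 1, [])]⟩,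
    ⟨[], [(0, 0), (0, 1), (0, 4)], [(0, 1), (1, 1)], [2], [(2, 1, []), (3, 0, [4]), (4, 1,
      [])]⟩,
    ⟨[(0, 1)], [(0, 1), (1, 0), (1, 1)], [(0, 1)], [3], [(2, 1, []), (3, 0, [4])]⟩,
    ⟨[(0, 1), (1, 2)], [(1, 0), (1, 1), (2, 0)], [(0, 0), (0, 1)], [], [(3, 0, [4]), (4, 1,
      []), (6, 0, [4])]⟩,
    ⟨[(1, 3)], [(1, 0), (2, 0), (3, 0), (3, 1)], [], [3], [(3, 0, [4])]⟩,
    ⟨[(1, 3), (3, 4)], [(3, 0), (3, 1), (4, 0)], [], [3, 5], [(6, 0, [4])]⟩,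
    ⟨[(3, 5), (4, 5)], [(0, 4), (5, 0), (5, 4)], [], [3, 5], [(1, 4, [0])]⟩]
  Ta := [((2, 1), 1, 4), ((2, 5), 1, 3), ((3, 5), 0, 3), ((4, 0), 1, 2), ((4, 6), 1, 0), ((6, 4),
    0, 1), ((6, 7), 0, 5)]
  Tb := [((0, 1, 4), 2, 4, 1), ((1, 0, 2), 4, 2, 1), ((1, 0, 5), 4, 2, 3), ((1, 0, 7), 4, 2, 5),
    ((1, 2, 5), 4, 1, 3), ((1, 2, 7), 4, 1, 5), ((1, 5, 7), 4, 3, 5), ((2, 1, 5), 1, 4, 3),
    ((4, 0, 6), 1, 2, 0), ((5, 1, 2), 3, 4, 1), ((5, 1, 3), 3, 4, 0), ((5, 2, 3), 3, 1, 0),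
    ((6, 4, 7), 0, 1, 5), ((7, 1, 6), 5, 4, 0)]
  Tc := []
  Td := [((0, 4), (3, 5), 3), ((0, 4), (6, 4), 1), ((0, 4), (6, 7), 5), ((4, 0), (1, 0), 2), ((4,
    0), (1, 2), 1), ((4, 0), (1, 5), 3), ((4, 0), (1, 7), 5)]
  G := [[0, 0, 0xa18293648c42434844968188a8cc, 0, 0x1bcb8441629254ac81], [0, 0, 0x52a8492548c42,
    0xf36d24281, 0x52984229464c82], [0, 0, 0x88143412689412a84122441ac8c, 0,
    0x741898b12b64581], [0, 0x11c1811618a41, 0x3162388c182, 0x81152e38241, 0x342431a24582]]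

noncomputable def n2389 : Ent := ⟨e2389, noF, [], [], []⟩

def c2389 : PLift (Cov.check n2389.C.D v2389 = true) := ⟨by decide +kernel⟩

def b2389 : PLift (entF (fidx ts) 400 2389 n2389 = true) := ⟨by decide +kernel⟩

theorem g2389 : GoodF (fidx ts) 400 2389 := GoodF.ofV v2389 n2389 c2389.down b2389.down

/-- 4746464:1941/1 -/
noncomputable def e2390 : SCfg where
  D := {
    a := 7
    L := 9
    kp := 6
    inn := [(0, 1), (1, 0), (1, 2), (1, 3), (2, 1), (3, 1), (3, 4), (3, 5), (4, 3), (4, 5), (5, 3), (5,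
      4), (5, 6), (6, 5)]
    mix := [(0, 0), (0, 1), (0, 2), (1, 0), (1, 2), (1, 3), (1, 4), (2, 2), (2, 3), (2, 5), (3, 3), (3,
      4), (3, 6), (4, 3), (4, 7), (5, 6), (5, 7), (5, 8), (6, 1), (6, 7), (6, 8)]
    cl := [2, 4, 1, 0, 1, 6, 0, 3, 5]
    chq := [(0, 4), (4, 0)]
    rng := [(0, 1), (0, 4), (1, 0), (1, 2), (1, 7), (1, 8), (2, 1), (2, 5), (3, 5), (3, 7), (4, 0), (4,
      6), (5, 2), (5, 3), (6, 4), (6, 8), (7, 1), (7, 3), (8, 1), (8, 6)]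
    lev := [] }
  links := [[1, 7, 8, 9], [7, 0, 9, 2, 10, 3, 11], [10, 1, 9, 12], [11, 1, 10, 4, 5, 13], [5, 3, 10, 14],
    [13, 3, 4, 14, 6, 15], [15, 5, 14, 8]]
  P := {
    a := 7
    N := 16
    nb := [898, 3725, 5634, 11314, 17448, 57432, 49440, 2307, 49857, 4359, 20510, 8330, 1540, 34856,
      1392, 8544]
    tri := [(0, 1, 7), (0, 1, 9), (0, 7, 8), (0, 8, 9), (1, 2, 9), (1, 2, 10), (1, 3, 10), (1, 3, 11),
      (1, 7, 11), (2, 9, 12), (2, 10, 12), (3, 4, 5), (3, 4, 10), (3, 5, 13), (3, 11, 13), (4, 5,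
      14), (4, 10, 14), (5, 6, 14), (5, 6, 15), (5, 13, 15), (6, 8, 14), (6, 8, 15)]
    fin := [0, 1, 1, 1, 4, 4, 6, 0, 6, 1, 4, 1, 12, 4, 14, 15]
    chd := [(6, 4)]
    steps := [(0, 7), (1, 2), (1, 3), (1, 9), (1, 11), (4, 5), (4, 10), (4, 13), (6, 8)] }
  rep := [4, 1, 0, 14, 6, 15, 12]

noncomputable def v2390 : Cov.CovD where
  P := 3
  N := 4
  pl := [0, 5, 7, 8]
  lev := [⟨[], [], [(1, 4)], [2], [(1, 4, [0]), (2, 1, [])]⟩,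
    ⟨[], [(0, 0), (0, 1), (0, 4)], [(0, 1), (1, 1)], [2], [(2, 1, []), (3, 0, [4]), (4, 1,
      [])]⟩,
    ⟨[(0, 1)], [(0, 1), (1, 0), (1, 1)], [(0, 1)], [6], [(2, 1, []), (3, 0, [4])]⟩,
    ⟨[(0, 1), (1, 2)], [(1, 0), (1, 1), (2, 0)], [(0, 0), (0, 1)], [], [(3, 0, [4]), (4, 1,
      []), (6, 0, [4])]⟩,
    ⟨[(1, 3)], [(1, 0), (2, 0), (3, 0), (3, 1)], [], [3], [(3, 0, [4])]⟩,
    ⟨[(1, 3), (3, 4)], [(3, 0), (3, 1), (4, 0)], [], [3, 5], [(6, 0, [4])]⟩,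
    ⟨[(3, 5), (4, 5)], [(0, 4), (5, 0), (5, 4)], [], [3, 5], [(1, 4, [0])]⟩]
  Ta := [((2, 1), 1, 4), ((2, 5), 1, 6), ((3, 5), 0, 6), ((3, 7), 0, 3), ((4, 0), 1, 2), ((4, 6),
    1, 0), ((6, 4), 0, 1), ((6, 8), 0, 5)]
  Tb := [((0, 1, 4), 2, 4, 1), ((1, 0, 2), 4, 2, 1), ((1, 0, 7), 4, 2, 3), ((1, 0, 8), 4, 2, 5),
    ((1, 2, 7), 4, 1, 3), ((1, 2, 8), 4, 1, 5), ((1, 7, 8), 4, 3, 5), ((2, 1, 5), 1, 4, 6),
    ((3, 5, 7), 0, 6, 3), ((4, 0, 6), 1, 2, 0), ((5, 2, 3), 6, 1, 0), ((6, 4, 8), 0, 1, 5),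
    ((7, 1, 3), 3, 4, 0), ((8, 1, 6), 5, 4, 0)]
  Tc := []
  Td := [((0, 4), (3, 5), 6), ((0, 4), (3, 7), 3), ((0, 4), (6, 4), 1), ((0, 4), (6, 8), 5), ((4,
    0), (1, 0), 2), ((4, 0), (1, 2), 1), ((4, 0), (1, 7), 3), ((4, 0), (1, 8), 5)]
  G := [[0, 0, 0x13c481a2ca1832dc2c434c821264166188cc416288cc, 0,
    0x5292c385ae144612236ad816dc6c81], [0, 0, 0x592e116a479c316a4c82, 0x71cdb65a4281,
    0x92474528b8c281], [0, 0, 0x85a283c46182214422185814c29cc, 0, 0xda3278834dca181], [0,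
    0x1411a58111e12a41, 0x926452a8c142, 0x54192a1c241, 0x5261981c281]]

noncomputable def n2390 : Ent := ⟨e2390, noF, [], [], [(12, 14, [385746751338780685620664494392815470296102193487288376382279681, 0])]⟩

def c2390 : PLift (Cov.check n2390.C.D v2390 = true) := ⟨by decide +kernel⟩

def b2390 : PLift (entF (fidx ts) 400 2390 n2390 = true) := ⟨by decide +kernel⟩

theorem g2390 : GoodF (fidx ts) 400 2390 := GoodF.ofV v2390 n2390 c2390.down b2390.down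

/-- 4746464:1941/5 -/
noncomputable def e2391 : SCfg where
  D := {
    a := 7
    L := 7
    kp := 4
    inn := [(0, 1), (1, 0), (1, 2), (1, 3), (2, 1), (3, 1), (3, 4), (3, 5), (4, 3), (4, 5), (5, 3), (5,
      4), (5, 6), (6, 5)]
    mix := [(0, 0), (0, 1), (0, 2), (1, 0), (1, 2), (1, 3), (1, 4), (2, 2), (2, 3), (2, 5), (3, 3), (3,
      4), (3, 6), (4, 3), (4, 5), (5, 1), (5, 5), (5, 6), (6, 1), (6, 2), (6, 5)]
    cl := [2, 4, 0, 1, 0, 3, 1]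
    chq := [(3, 4), (4, 3)]
    rng := [(0, 1), (0, 4), (1, 0), (1, 2), (1, 6), (2, 1), (2, 5), (3, 5), (4, 0), (4, 6), (5, 2), (5,
      3), (6, 1), (6, 4)]
    lev := [] }
  links := [[1, 7, 8, 9], [7, 0, 9, 2, 10, 3, 11], [10, 1, 9, 12], [11, 1, 10, 4, 5, 13], [5, 3, 10, 12],
    [13, 3, 4, 12, 6, 8], [8, 5, 12, 9]]
  P := {
    a := 7
    N := 14
    nb := [898, 3725, 5634, 11314, 5160, 12632, 4896, 2307, 8929, 4423, 4126, 8330, 1652, 2344]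
    tri := [(0, 1, 7), (0, 1, 9), (0, 7, 8), (0, 8, 9), (1, 2, 9), (1, 2, 10), (1, 3, 10), (1, 3, 11),
      (1, 7, 11), (2, 9, 12), (2, 10, 12), (3, 4, 5), (3, 4, 10), (3, 5, 13), (3, 11, 13), (4, 5,
      12), (4, 10, 12), (5, 6, 8), (5, 6, 12), (5, 8, 13), (6, 8, 9), (6, 9, 12)]
    fin := [0, 1, 1, 1, 4, 4, 6, 0, 6, 1, 4, 1, 12, 4]
    chd := [(6, 12)]
    steps := [(0, 7), (1, 2), (1, 3), (1, 9), (1, 11), (4, 5), (4, 10), (4, 13), (6, 8)] }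
  rep := [1, 4, 0, 12, 6]

noncomputable def v2391 : Cov.CovD where
  P := 3
  N := 2
  pl := [0]
  lev := [⟨[], [], [(0, 4)], [2], [(1, 4, [3]), (2, 0, [])]⟩,
    ⟨[], [(0, 0), (0, 1), (0, 4)], [(0, 0), (0, 1)], [2], [(2, 0, []), (3, 1, []), (4, 0,
      [])]⟩,
    ⟨[(0, 1)], [(0, 0), (1, 0), (1, 1), (1, 3)], [(0, 1), (0, 3), (1, 3)], [], [(2, 0, []),
      (3, 1, []), (5, 3, [4])]⟩,
    ⟨[(0, 1), (1, 2)], [(1, 0), (1, 1), (2, 1)], [(0, 1), (1, 1)], [], [(3, 1, []), (4, 0,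
      []), (6, 1, [])]⟩,
    ⟨[(1, 3)], [(1, 1), (2, 1), (2, 3), (3, 0), (3, 1), (3, 3)], [(1, 3)], [], [(3, 1, []),
      (5, 3, [4])]⟩,
    ⟨[(1, 3), (3, 4)], [(0, 4), (2, 3), (3, 0), (3, 1), (3, 3), (3, 4), (4, 1), (4, 3), (4,
      4)], [(1, 3), (1, 4), (3, 4)], [], [(1, 4, [3]), (5, 3, [4]), (6, 1, [])]⟩,
    ⟨[(3, 5), (4, 5)], [(0, 0), (0, 4), (1, 0), (2, 0), (2, 3), (4, 3), (5, 0), (5, 1), (5,
      3), (5, 4)], [(0, 3), (0, 4), (3, 4)], [], [(1, 4, [3]), (2, 0, []), (5, 3, [4])]⟩]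
  Ta := [((2, 1), 0, 4), ((2, 5), 0, 3), ((3, 5), 1, 3), ((4, 0), 0, 2), ((4, 6), 0, 1), ((6, 1),
    1, 4), ((6, 4), 1, 0)]
  Tb := [((0, 1, 4), 2, 4, 0), ((1, 0, 2), 4, 2, 0), ((1, 0, 6), 4, 2, 1), ((1, 2, 6), 4, 0, 1),
    ((2, 1, 5), 0, 4, 3), ((4, 0, 6), 0, 2, 1), ((5, 2, 3), 3, 0, 1), ((6, 1, 4), 1, 4, 0)]
  Tc := []
  Td := [((3, 4), (5, 2), 0), ((3, 4), (5, 3), 1), ((4, 3), (1, 0), 2), ((4, 3), (1, 2), 0), ((4,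
    3), (1, 6), 1)]
  G := [[0, 0, 0, 0x8288a148c4423844418c8c, 0x82314842b44485c82], [0, 0, 0,
    0x229444824215281c28c, 0x824d188452824219428a], [0, 0, 0xe118142, 0x2184e118c81,
    0xe114182], [0, 0x82a1442618c41, 0xc12814211414a, 0x2114281, 0xa1846118c21]]

noncomputable def n2391 : Ent := ⟨e2391, noF, [], [], []⟩

def c2391 : PLift (Cov.check n2391.C.D v2391 = true) := ⟨by decide +kernel⟩

def b2391 : PLift (entF (fidx ts) 400 2391 n2391 = true) := ⟨by decide +kernel⟩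

theorem g2391 : GoodF (fidx ts) 400 2391 := GoodF.ofV v2391 n2391 c2391.down b2391.down

/-- 4746464:1941/4 -/
noncomputable def e2392 : SCfg where
  D := {
    a := 7
    L := 8
    kp := 5
    inn := [(0, 1), (1, 0), (1, 2), (1, 3), (2, 1), (3, 1), (3, 4), (3, 5), (4, 3), (4, 5), (5, 3), (5,
      4), (5, 6), (6, 5)]
    mix := [(0, 0), (0, 1), (0, 2), (1, 0), (1, 2), (1, 3), (1, 4), (2, 2), (2, 3), (2, 5), (3, 3), (3,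
      4), (3, 6), (4, 3), (4, 7), (5, 1), (5, 6), (5, 7), (6, 1), (6, 2), (6, 7)]
    cl := [2, 3, 0, 1, 0, 5, 1, 4]
    chq := [(3, 4), (4, 3)]
    rng := [(0, 1), (0, 4), (1, 0), (1, 2), (1, 6), (2, 1), (2, 5), (2, 7), (3, 5), (3, 7), (4, 0), (4,
      6), (5, 2), (5, 3), (6, 1), (6, 4), (7, 2), (7, 3)]
    lev := [] }
  links := [[1, 7, 8, 9], [7, 0, 9, 2, 10, 3, 11], [10, 1, 9, 12], [11, 1, 10, 4, 5, 13], [5, 3, 10, 14],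
    [13, 3, 4, 14, 6, 8], [8, 5, 14, 9]]
  P := {
    a := 7
    N := 15
    nb := [898, 3725, 5634, 11314, 17448, 24920, 17184, 2307, 8929, 20807, 20510, 8330, 1540, 2344,
      1648]
    tri := [(0, 1, 7), (0, 1, 9), (0, 7, 8), (0, 8, 9), (1, 2, 9), (1, 2, 10), (1, 3, 10), (1, 3, 11),
      (1, 7, 11), (2, 9, 12), (2, 10, 12), (3, 4, 5), (3, 4, 10), (3, 5, 13), (3, 11, 13), (4, 5,
      14), (4, 10, 14), (5, 6, 8), (5, 6, 14), (5, 8, 13), (6, 8, 9), (6, 9, 14)]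
    fin := [0, 1, 1, 3, 4, 4, 4, 0, 4, 1, 3, 1, 12, 3, 14]
    chd := [(4, 14)]
    steps := [(0, 7), (1, 2), (1, 9), (1, 11), (3, 10), (3, 13), (4, 5), (4, 6), (4, 8)] }
  rep := [1, 3, 0, 4, 14, 12]

noncomputable def v2392 : Cov.CovD where
  P := 3
  N := 3
  pl := [0, 5]
  lev := [⟨[], [], [(0, 3)], [2], [(1, 3, [4]), (2, 0, [])]⟩,
    ⟨[], [(0, 0), (0, 1), (0, 3)], [(0, 0), (0, 1)], [2], [(2, 0, []), (3, 1, []), (4, 0,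
      [])]⟩,
    ⟨[(0, 1)], [(0, 0), (1, 0), (1, 1)], [(0, 1)], [5], [(2, 0, []), (3, 1, [])]⟩,
    ⟨[(0, 1), (1, 2)], [(1, 0), (1, 1), (2, 1)], [(0, 1), (1, 1)], [], [(3, 1, []), (4, 0,
      []), (6, 1, [])]⟩,
    ⟨[(1, 3)], [(1, 1), (2, 1), (3, 0), (3, 1), (3, 4)], [(1, 4)], [], [(3, 1, []), (7, 4,
      [3])]⟩,
    ⟨[(1, 3), (3, 4)], [(0, 3), (3, 0), (3, 1), (3, 3), (3, 4), (4, 1), (4, 3), (4, 4)],
      [(1, 3), (1, 4), (3, 4)], [], [(1, 3, [4]), (6, 1, []), (7, 4, [3])]⟩,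
    ⟨[(3, 5), (4, 5)], [(0, 0), (0, 3), (1, 0), (2, 0), (4, 4), (5, 0), (5, 1), (5, 3), (5,
      4)], [(0, 3), (0, 4), (3, 4)], [], [(1, 3, [4]), (2, 0, []), (7, 4, [3])]⟩]
  Ta := [((2, 1), 0, 3), ((2, 5), 0, 5), ((2, 7), 0, 4), ((3, 5), 1, 5), ((3, 7), 1, 4), ((4, 0),
    0, 2), ((4, 6), 0, 1), ((6, 1), 1, 3), ((6, 4), 1, 0)]
  Tb := [((0, 1, 4), 2, 3, 0), ((1, 0, 2), 3, 2, 0), ((1, 0, 6), 3, 2, 1), ((1, 2, 6), 3, 0, 1),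
    ((2, 1, 5), 0, 3, 5), ((2, 1, 7), 0, 3, 4), ((2, 5, 7), 0, 5, 4), ((3, 5, 7), 1, 5, 4),
    ((4, 0, 6), 0, 2, 1), ((5, 2, 3), 5, 0, 1), ((6, 1, 4), 1, 3, 0), ((7, 2, 3), 4, 0, 1)]
  Tc := []
  Td := [((3, 4), (1, 0), 2), ((3, 4), (1, 2), 0), ((3, 4), (1, 6), 1), ((4, 3), (7, 2), 0), ((4,
    3), (7, 3), 1)]
  G := [[0, 0, 0, 0x28a194824a398c42184485424425588cc, 0x24a86954c248a758c82], [0, 0, 0,
    0x2821942424215828c, 0x849885428211244528a], [0, 0, 0xe114142, 0xa14814611818c,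
    0xe114182], [0, 0x22184c1682a14416c81, 0xc118122114186, 0x2114281, 0xe114281]]

noncomputable def n2392 : Ent := ⟨e2392, noF, [], [], [(12, 14, [81620716623019490593592230936445690773474979418095893180417, 0])]⟩

def c2392 : PLift (Cov.check n2392.C.D v2392 = true) := ⟨by decide +kernel⟩

def b2392 : PLift (entF (fidx ts) 400 2392 n2392 = true) := ⟨by decide +kernel⟩

theorem g2392 : GoodF (fidx ts) 400 2392 := GoodF.ofV v2392 n2392 c2392.down b2392.down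

/-- 4746464:1941/6 -/
noncomputable def e2393 : SCfg where
  D := {
    a := 7
    L := 8
    kp := 5
    inn := [(0, 1), (1, 0), (1, 2), (1, 3), (2, 1), (3, 1), (3, 4), (3, 5), (4, 3), (4, 5), (5, 3), (5,
      4), (5, 6), (6, 5)]
    mix := [(0, 0), (0, 1), (0, 2), (1, 0), (1, 2), (1, 3), (1, 4), (2, 2), (2, 3), (2, 5), (3, 3), (3,
      4), (3, 6), (4, 3), (4, 5), (5, 1), (5, 5), (5, 6), (6, 1), (6, 5), (6, 7)]
    cl := [2, 4, 1, 0, 1, 3, 0, 5]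
    chq := [(3, 4), (4, 3)]
    rng := [(0, 1), (0, 4), (1, 0), (1, 2), (1, 6), (1, 7), (2, 1), (2, 5), (3, 5), (4, 0), (4, 6), (5,
      2), (5, 3), (5, 7), (6, 1), (6, 4), (7, 1), (7, 5)]
    lev := [] }
  links := [[1, 7, 8, 9], [7, 0, 9, 2, 10, 3, 11], [10, 1, 9, 12], [11, 1, 10, 4, 5, 13], [5, 3, 10, 12],
    [13, 3, 4, 12, 6, 8], [8, 5, 12, 14]]
  P := {
    a := 7
    N := 15
    nb := [898, 3725, 5634, 11314, 5160, 12632, 20768, 2307, 25313, 4359, 4126, 8330, 18036, 2344,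
      4416]
    tri := [(0, 1, 7), (0, 1, 9), (0, 7, 8), (0, 8, 9), (1, 2, 9), (1, 2, 10), (1, 3, 10), (1, 3, 11),
      (1, 7, 11), (2, 9, 12), (2, 10, 12), (3, 4, 5), (3, 4, 10), (3, 5, 13), (3, 11, 13), (4, 5,
      12), (4, 10, 12), (5, 6, 8), (5, 6, 12), (5, 8, 13), (6, 8, 14), (6, 12, 14)]
    fin := [0, 1, 1, 1, 4, 4, 6, 0, 6, 1, 4, 1, 12, 4, 14]
    chd := [(6, 12)]
    steps := [(0, 7), (1, 2), (1, 3), (1, 9), (1, 11), (4, 5), (4, 10), (4, 13), (6, 8)] }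
  rep := [4, 1, 0, 12, 6, 14]

noncomputable def v2393 : Cov.CovD where
  P := 3
  N := 3
  pl := [0, 7]
  lev := [⟨[], [], [(1, 4)], [2], [(1, 4, [3]), (2, 1, [])]⟩,
    ⟨[], [(0, 0), (0, 1), (0, 4)], [(0, 1), (1, 1)], [2], [(2, 1, []), (3, 0, []), (4, 1,
      [])]⟩,
    ⟨[(0, 1)], [(0, 1), (1, 0), (1, 1), (1, 3)], [(0, 1), (0, 3), (1, 3)], [], [(2, 1, []),
      (3, 0, []), (5, 3, [4])]⟩,
    ⟨[(0, 1), (1, 2)], [(1, 0), (1, 1), (2, 0)], [(0, 0), (0, 1)], [], [(3, 0, []), (4, 1,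
      []), (6, 0, [])]⟩,
    ⟨[(1, 3)], [(1, 0), (2, 0), (2, 3), (3, 0), (3, 1), (3, 3)], [(0, 3)], [], [(3, 0, []),
      (5, 3, [4])]⟩,
    ⟨[(1, 3), (3, 4)], [(0, 4), (2, 3), (3, 0), (3, 1), (3, 3), (3, 4), (4, 0), (4, 3), (4,
      4)], [(0, 3), (0, 4), (3, 4)], [], [(1, 4, [3]), (5, 3, [4]), (6, 0, [])]⟩,
    ⟨[(3, 5), (4, 5)], [(0, 4), (2, 3), (4, 3), (5, 0), (5, 3), (5, 4)], [(3, 4)], [5],
      [(1, 4, [3]), (5, 3, [4])]⟩]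
  Ta := [((2, 1), 1, 4), ((2, 5), 1, 3), ((3, 5), 0, 3), ((4, 0), 1, 2), ((4, 6), 1, 0), ((6, 1),
    0, 4), ((6, 4), 0, 1)]
  Tb := [((0, 1, 4), 2, 4, 1), ((1, 0, 2), 4, 2, 1), ((1, 0, 6), 4, 2, 0), ((1, 0, 7), 4, 2, 5),
    ((1, 2, 6), 4, 1, 0), ((1, 2, 7), 4, 1, 5), ((1, 6, 7), 4, 0, 5), ((2, 1, 5), 1, 4, 3),
    ((4, 0, 6), 1, 2, 0), ((5, 2, 3), 3, 1, 0), ((5, 2, 7), 3, 1, 5), ((5, 3, 7), 3, 0, 5),
    ((6, 1, 4), 0, 4, 1), ((7, 1, 5), 5, 4, 3)]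
  Tc := []
  Td := [((3, 4), (5, 2), 1), ((3, 4), (5, 3), 0), ((3, 4), (5, 7), 5), ((4, 3), (1, 0), 2), ((4,
    3), (1, 2), 1), ((4, 3), (1, 6), 0), ((4, 3), (1, 7), 5)]
  G := [[0, 0, 0x9842325468c4538718a884c, 0, 0x113cf88a4512728c81], [0, 0, 0x52328b248c42,
    0xe2123a4281, 0xe2123a4281], [0, 0, 0x981453618c41368448618c, 0,
    0xa824442c3a4cc113a845412c89], [0, 0x95c1253618a81, 0x22126228c142, 0xf218243284189,
    0xd222222cc182]]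

noncomputable def n2393 : Ent := ⟨e2393, noF, [], [], [(9, 14, [81620716623019490593592230936445690773474979418095893180417, 0])]⟩

def c2393 : PLift (Cov.check n2393.C.D v2393 = true) := ⟨by decide +kernel⟩

def b2393 : PLift (entF (fidx ts) 400 2393 n2393 = true) := ⟨by decide +kernel⟩

theorem g2393 : GoodF (fidx ts) 400 2393 := GoodF.ofV v2393 n2393 c2393.down b2393.down

/-- 4746464:1941/7 -/
noncomputable def e2394 : SCfg where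
  D := {
    a := 7
    L := 8
    kp := 5
    inn := [(0, 1), (1, 0), (1, 2), (1, 3), (2, 1), (3, 1), (3, 4), (3, 5), (4, 3), (4, 5), (5, 3), (5,
      4), (5, 6), (6, 5)]
    mix := [(0, 0), (0, 1), (0, 2), (1, 0), (1, 2), (1, 3), (1, 4), (2, 2), (2, 3), (2, 5), (3, 3), (3,
      4), (3, 6), (4, 3), (4, 7), (5, 1), (5, 6), (5, 7), (6, 1), (6, 5), (6, 7)]
    cl := [4, 2, 1, 0, 1, 5, 0, 3]
    chq := [(2, 3), (3, 2)]
    rng := [(0, 1), (0, 4), (1, 0), (1, 2), (1, 5), (1, 6), (2, 1), (2, 5), (3, 5), (3, 7), (4, 0), (4,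
      6), (5, 1), (5, 2), (5, 3), (5, 7), (6, 1), (6, 4), (7, 3), (7, 5)]
    lev := [] }
  links := [[1, 7, 8, 9], [7, 0, 9, 2, 10, 3, 11], [10, 1, 9, 12], [11, 1, 10, 4, 5, 13], [5, 3, 10, 14],
    [13, 3, 4, 14, 6, 8], [8, 5, 14, 12]]
  P := {
    a := 7
    N := 15
    nb := [898, 3725, 5634, 11314, 17448, 24920, 20768, 2307, 13025, 4359, 20510, 8330, 18244, 2344,
      5232]
    tri := [(0, 1, 7), (0, 1, 9), (0, 7, 8), (0, 8, 9), (1, 2, 9), (1, 2, 10), (1, 3, 10), (1, 3, 11),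
      (1, 7, 11), (2, 9, 12), (2, 10, 12), (3, 4, 5), (3, 4, 10), (3, 5, 13), (3, 11, 13), (4, 5,
      14), (4, 10, 14), (5, 6, 8), (5, 6, 14), (5, 8, 13), (6, 8, 12), (6, 12, 14)]
    fin := [0, 1, 1, 1, 4, 4, 6, 0, 6, 1, 4, 1, 12, 4, 14]
    chd := [(6, 14)]
    steps := [(0, 7), (1, 2), (1, 3), (1, 9), (1, 11), (4, 5), (4, 10), (4, 13), (6, 8)] }
  rep := [4, 1, 6, 14, 0, 12]

noncomputable def v2394 : Cov.CovD where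
  P := 3
  N := 3
  pl := [0, 5]
  lev := [⟨[], [], [(1, 2)], [4], [(1, 2, [3]), (2, 1, [])]⟩,
    ⟨[], [(0, 0), (0, 1), (0, 2)], [(0, 1), (1, 1)], [4], [(2, 1, []), (3, 0, []), (4, 1,
      [])]⟩,
    ⟨[(0, 1)], [(0, 1), (1, 0), (1, 1)], [(0, 1)], [5], [(2, 1, []), (3, 0, [])]⟩,
    ⟨[(0, 1), (1, 2)], [(1, 0), (1, 1), (2, 0)], [(0, 0), (0, 1)], [], [(3, 0, []), (4, 1,
      []), (6, 0, [])]⟩,
    ⟨[(1, 3)], [(1, 0), (2, 0), (3, 0), (3, 1), (3, 3)], [(0, 3)], [], [(3, 0, []), (7, 3,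
      [2])]⟩,
    ⟨[(1, 3), (3, 4)], [(0, 2), (3, 0), (3, 1), (3, 2), (3, 3), (4, 0), (4, 2), (4, 3)],
      [(0, 2), (0, 3), (2, 3)], [], [(1, 2, [3]), (6, 0, []), (7, 3, [2])]⟩,
    ⟨[(3, 5), (4, 5)], [(0, 2), (4, 3), (5, 0), (5, 2), (5, 3)], [(2, 3)], [5], [(1, 2,
      [3]), (7, 3, [2])]⟩]
  Ta := [((2, 1), 1, 2), ((2, 5), 1, 5), ((3, 5), 0, 5), ((3, 7), 0, 3), ((4, 0), 1, 4), ((4, 6),
    1, 0), ((6, 1), 0, 2), ((6, 4), 0, 1)]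
  Tb := [((0, 1, 4), 4, 2, 1), ((1, 0, 2), 2, 4, 1), ((1, 0, 5), 2, 4, 5), ((1, 0, 6), 2, 4, 0),
    ((1, 2, 5), 2, 1, 5), ((1, 2, 6), 2, 1, 0), ((1, 5, 6), 2, 5, 0), ((2, 1, 5), 1, 2, 5),
    ((3, 5, 7), 0, 5, 3), ((4, 0, 6), 1, 4, 0), ((5, 1, 2), 5, 2, 1), ((5, 1, 3), 5, 2, 0),
    ((5, 1, 7), 5, 2, 3), ((5, 2, 3), 5, 1, 0), ((5, 2, 7), 5, 1, 3), ((5, 3, 7), 5, 0, 3),
    ((6, 1, 4), 0, 2, 1), ((7, 3, 5), 3, 0, 5)]
  Tc := []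
  Td := [((2, 3), (1, 0), 4), ((2, 3), (1, 2), 1), ((2, 3), (1, 5), 5), ((2, 3), (1, 6), 0), ((3,
    2), (7, 3), 0), ((3, 2), (7, 5), 5)]
  G := [[0, 0, 0, 0x5492448985288481c24814c284cd, 0x92a12644829428c8294213a48c49], [0, 0, 0, 0,
    0x92a216428128b48249], [0, 0, 0x68a86ac41884c126824c294c, 0x11c241811c28149,
    0x1812a41811a48149], [0, 0x11c14214c2811c246a1, 0xc2a1428c261824c, 0, 0x11a142812a18249]]

noncomputable def n2394 : Ent := ⟨e2394, noF, [], [], []⟩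

def c2394 : PLift (Cov.check n2394.C.D v2394 = true) := ⟨by decide +kernel⟩

def b2394 : PLift (entF (fidx ts) 400 2394 n2394 = true) := ⟨by decide +kernel⟩

theorem g2394 : GoodF (fidx ts) 400 2394 := GoodF.ofV v2394 n2394 c2394.down b2394.down

/-- 4746464:1941/3 -/
noncomputable def e2395 : SCfg where
  D := {
    a := 7
    L := 9
    kp := 6
    inn := [(0, 1), (1, 0), (1, 2), (1, 3), (2, 1), (3, 1), (3, 4), (3, 5), (4, 3), (4, 5), (5, 3), (5,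
      4), (5, 6), (6, 5)]
    mix := [(0, 0), (0, 1), (0, 2), (1, 0), (1, 2), (1, 3), (1, 4), (2, 2), (2, 3), (2, 5), (3, 3), (3,
      4), (3, 6), (4, 3), (4, 7), (5, 1), (5, 6), (5, 7), (6, 1), (6, 7), (6, 8)]
    cl := [4, 2, 1, 0, 1, 5, 0, 3, 6]
    chq := [(2, 3), (3, 2)]
    rng := [(0, 1), (0, 4), (1, 0), (1, 2), (1, 6), (1, 8), (2, 1), (2, 5), (3, 5), (3, 7), (4, 0), (4,
      6), (5, 2), (5, 3), (6, 1), (6, 4), (7, 3), (7, 8), (8, 1), (8, 7)]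
    lev := [] }
  links := [[1, 7, 8, 9], [7, 0, 9, 2, 10, 3, 11], [10, 1, 9, 12], [11, 1, 10, 4, 5, 13], [5, 3, 10, 14],
    [13, 3, 4, 14, 6, 8], [8, 5, 14, 15]]
  P := {
    a := 7
    N := 16
    nb := [898, 3725, 5634, 11314, 17448, 24920, 49440, 2307, 41697, 4359, 20510, 8330, 1540, 2344,
      33904, 16704]
    tri := [(0, 1, 7), (0, 1, 9), (0, 7, 8), (0, 8, 9), (1, 2, 9), (1, 2, 10), (1, 3, 10), (1, 3, 11),
      (1, 7, 11), (2, 9, 12), (2, 10, 12), (3, 4, 5), (3, 4, 10), (3, 5, 13), (3, 11, 13), (4, 5,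
      14), (4, 10, 14), (5, 6, 8), (5, 6, 14), (5, 8, 13), (6, 8, 15), (6, 14, 15)]
    fin := [0, 1, 1, 3, 4, 4, 4, 0, 4, 1, 3, 1, 12, 3, 14, 15]
    chd := [(4, 14)]
    steps := [(0, 7), (1, 2), (1, 9), (1, 11), (3, 10), (3, 13), (4, 5), (4, 6), (4, 8)] }
  rep := [3, 1, 4, 14, 0, 12, 15]

noncomputable def v2395 : Cov.CovD where
  P := 3
  N := 4
  pl := [0, 5, 8]
  lev := [⟨[], [], [(1, 2)], [4], [(1, 2, [3]), (2, 1, [])]⟩,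
    ⟨[], [(0, 0), (0, 1), (0, 2)], [(0, 1), (1, 1)], [4], [(2, 1, []), (3, 0, []), (4, 1,
      [])]⟩,
    ⟨[(0, 1)], [(0, 1), (1, 0), (1, 1)], [(0, 1)], [5], [(2, 1, []), (3, 0, [])]⟩,
    ⟨[(0, 1), (1, 2)], [(1, 0), (1, 1), (2, 0)], [(0, 0), (0, 1)], [], [(3, 0, []), (4, 1,
      []), (6, 0, [])]⟩,
    ⟨[(1, 3)], [(1, 0), (2, 0), (3, 0), (3, 1), (3, 3)], [(0, 3)], [], [(3, 0, []), (7, 3,
      [2])]⟩,
    ⟨[(1, 3), (3, 4)], [(0, 2), (3, 0), (3, 1), (3, 2), (3, 3), (4, 0), (4, 2), (4, 3)],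
      [(0, 2), (0, 3), (2, 3)], [], [(1, 2, [3]), (6, 0, []), (7, 3, [2])]⟩,
    ⟨[(3, 5), (4, 5)], [(0, 2), (4, 3), (5, 0), (5, 2), (5, 3)], [(2, 3)], [6], [(1, 2,
      [3]), (7, 3, [2])]⟩]
  Ta := [((2, 1), 1, 2), ((2, 5), 1, 5), ((3, 5), 0, 5), ((3, 7), 0, 3), ((4, 0), 1, 4), ((4, 6),
    1, 0), ((6, 1), 0, 2), ((6, 4), 0, 1)]
  Tb := [((0, 1, 4), 4, 2, 1), ((1, 0, 2), 2, 4, 1), ((1, 0, 6), 2, 4, 0), ((1, 0, 8), 2, 4, 6),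
    ((1, 2, 6), 2, 1, 0), ((1, 2, 8), 2, 1, 6), ((1, 6, 8), 2, 0, 6), ((2, 1, 5), 1, 2, 5),
    ((3, 5, 7), 0, 5, 3), ((4, 0, 6), 1, 4, 0), ((5, 2, 3), 5, 1, 0), ((6, 1, 4), 0, 2, 1),
    ((7, 3, 8), 3, 0, 6), ((8, 1, 7), 6, 2, 3)]
  Tc := []
  Td := [((2, 3), (1, 0), 4), ((2, 3), (1, 2), 1), ((2, 3), (1, 6), 0), ((2, 3), (1, 8), 6), ((3,
    2), (7, 3), 0), ((3, 2), (7, 8), 6)]
  G := [[0, 0, 0, 0xd14d24481d8d2884d14d2481d8d284cd,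
    0x124b294641b8b488c93a4481b8b48124b294acc9], [0, 0, 0, 0, 0xb812364281b8b48249], [0, 0,
    0x688e62c418248e24ac4a14c, 0x91c24185428144428198241cd, 0x32498461813a4884a149], [0,
    0x95c12895c12295c124e1, 0xc6a1428ca61824c, 0, 0x98142212643893a14249]]

noncomputable def n2395 : Ent := ⟨e2395, noF, [], [], [(9, 15, [360035742630636841211993100915356868655746945586763691017469953, 0]), (12, 14, [385746751338780685620664494392815470296102193487288376382296065, 0]), (12, 15, [360035742630636841211993100915356868655746945586763691017478145, 0])]⟩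

def c2395 : PLift (Cov.check n2395.C.D v2395 = true) := ⟨by decide +kernel⟩

def b2395 : PLift (entF (fidx ts) 400 2395 n2395 = true) := ⟨by decide +kernel⟩

theorem g2395 : GoodF (fidx ts) 400 2395 := GoodF.ofV v2395 n2395 c2395.down b2395.down

/-- 4746464:1941/9 -/
noncomputable def e2396 : SCfg where
  D := {
    a := 7
    L := 8
    kp := 6
    inn := [(0, 1), (1, 0), (1, 2), (1, 3), (2, 1), (3, 1), (3, 4), (3, 5), (4, 3), (4, 5), (5, 3), (5,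
      4), (5, 6), (6, 5)]
    mix := [(0, 0), (0, 1), (0, 2), (1, 0), (1, 2), (1, 3), (1, 4), (2, 2), (2, 3), (2, 5), (3, 3), (3,
      4), (3, 6), (4, 3), (4, 5), (5, 5), (5, 6), (5, 7), (6, 2), (6, 5), (6, 7)]
    cl := [0, 6, 1, 0, 2, 3, 4, 5]
    chq := [(0, 1), (1, 0), (1, 4), (2, 3), (3, 2), (3, 4), (4, 1), (4, 3)]
    rng := [(0, 1), (0, 4), (1, 0), (1, 2), (2, 1), (2, 5), (2, 7), (3, 5), (4, 0), (4, 6), (5, 2), (5,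
      3), (6, 4), (6, 7), (7, 2), (7, 6)]
    lev := [] }
  links := [[1, 7, 8, 9], [7, 0, 9, 2, 10, 3, 11], [10, 1, 9, 12], [11, 1, 10, 4, 5, 13], [5, 3, 10, 12],
    [13, 3, 4, 12, 6, 14], [14, 5, 12, 9]]
  P := {
    a := 7
    N := 15
    nb := [898, 3725, 5634, 11314, 5160, 28760, 21024, 2307, 641, 20807, 4126, 8330, 1652, 18472,
      8800]
    tri := [(0, 1, 7), (0, 1, 9), (0, 7, 8), (0, 8, 9), (1, 2, 9), (1, 2, 10), (1, 3, 10), (1, 3, 11),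
      (1, 7, 11), (2, 9, 12), (2, 10, 12), (3, 4, 5), (3, 4, 10), (3, 5, 13), (3, 11, 13), (4, 5,
      12), (4, 10, 12), (5, 6, 12), (5, 6, 14), (5, 13, 14), (6, 9, 12), (6, 9, 14)]
    fin := [0, 0, 0, 3, 3, 5, 5, 0, 8, 5, 0, 11, 3, 13, 14]
    chd := [(0, 5), (3, 13), (5, 13), (11, 3)]
    steps := [(0, 1), (0, 2), (0, 7), (0, 10), (3, 4), (3, 12), (5, 6), (5, 9)] }
  rep := [0, 5, 11, 3, 13, 14, 8]

noncomputable def v2396 : Cov.CovD where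
  P := 3
  N := 4
  pl := [1, 7]
  lev := [⟨[], [], [(0, 1)], [6], [(0, 0, [1]), (2, 1, [0, 4])]⟩,
    ⟨[], [(0, 0), (0, 1), (0, 2)], [(0, 0), (0, 1), (0, 2), (1, 2)], [], [(0, 0, [1]), (2,
      1, [0, 4]), (3, 0, [1]), (4, 2, [3])]⟩,
    ⟨[(0, 1)], [(0, 1), (1, 0), (1, 1), (1, 2), (1, 3)], [(0, 1), (0, 3), (1, 3)], [], [(2,
      1, [0, 4]), (3, 0, [1]), (5, 3, [2, 4])]⟩,
    ⟨[(0, 1), (1, 2)], [(1, 0), (1, 1), (1, 2), (1, 4), (2, 0)], [(0, 2), (0, 4), (2, 4)],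
      [], [(3, 0, [1]), (4, 2, [3]), (6, 4, [1, 3])]⟩,
    ⟨[(1, 3)], [(1, 0), (2, 0), (2, 3), (3, 0), (3, 2), (3, 3), (3, 4)], [(0, 3)], [], [(3,
      0, [1]), (5, 3, [2, 4])]⟩,
    ⟨[(1, 3), (3, 4)], [(2, 3), (3, 0), (3, 2), (3, 3), (3, 4), (4, 0), (4, 3), (4, 4)],
      [(3, 4)], [5], [(5, 3, [2, 4]), (6, 4, [1, 3])]⟩,
    ⟨[(3, 5), (4, 5)], [(0, 1), (1, 1), (2, 1), (2, 3), (4, 3), (5, 1), (5, 3), (5, 4)],
      [(1, 3)], [5], [(2, 1, [0, 4]), (5, 3, [2, 4])]⟩]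
  Ta := [((0, 1), 0, 6), ((0, 4), 0, 2), ((3, 5), 0, 3)]
  Tb := [((0, 1, 4), 0, 6, 2), ((1, 0, 2), 6, 0, 1), ((2, 1, 5), 1, 6, 3), ((2, 1, 7), 1, 6, 5),
    ((2, 5, 7), 1, 3, 5), ((4, 0, 6), 2, 0, 4), ((5, 2, 3), 3, 1, 0), ((6, 4, 7), 4, 2, 5),
    ((7, 2, 6), 5, 1, 4)]
  Tc := [(1, 0, 4), (3, 2, 4), (4, 1, 3)]
  Td := [((0, 1), (0, 1), 6), ((0, 1), (0, 4), 2), ((0, 1), (3, 5), 3), ((1, 0), (2, 1), 6), ((1,
    0), (2, 5), 3), ((1, 0), (2, 7), 5), ((1, 4), (2, 1), 6), ((1, 4), (2, 5), 3), ((1, 4),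
    (2, 7), 5), ((2, 3), (4, 0), 0), ((2, 3), (4, 6), 4), ((3, 2), (5, 2), 1), ((3, 2), (5,
    3), 0), ((3, 4), (5, 2), 1), ((3, 4), (5, 3), 0), ((4, 1), (6, 4), 2), ((4, 1), (6, 7),
    5), ((4, 3), (6, 4), 2), ((4, 3), (6, 7), 5)]
  G := [[0, 0xa184e148a4181e41412a12c68c, 0x81388a41f46188138414a41f421cc,
    0x1451f28138c1441341198f2c18c, 0x8bd1f421884de12114258c], [0,
    0x81241a856128a4e14c121ac28c, 0, 0x88d1f248d4344c684c1, 0x891b42443517c2c81]]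

noncomputable def n2396 : Ent := ⟨e2396, noF, [], [], [(8, 14, [81620716623019490593592230936445690773474979418095893180417, 0])]⟩

def c2396 : PLift (Cov.check n2396.C.D v2396 = true) := ⟨by decide +kernel⟩

def b2396 : PLift (entF (fidx ts) 400 2396 n2396 = true) := ⟨by decide +kernel⟩

theorem g2396 : GoodF (fidx ts) 400 2396 := GoodF.ofV v2396 n2396 c2396.down b2396.down

/-- 4746464:1941/8 -/
noncomputable def e2397 : SCfg where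
  D := {
    a := 7
    L := 9
    kp := 7
    inn := [(0, 1), (1, 0), (1, 2), (1, 3), (2, 1), (3, 1), (3, 4), (3, 5), (4, 3), (4, 5), (5, 3), (5,
      4), (5, 6), (6, 5)]
    mix := [(0, 0), (0, 1), (0, 2), (1, 0), (1, 2), (1, 3), (1, 4), (2, 2), (2, 3), (2, 5), (3, 3), (3,
      4), (3, 6), (4, 3), (4, 7), (5, 6), (5, 7), (5, 8), (6, 2), (6, 7), (6, 8)]
    cl := [0, 6, 1, 0, 2, 7, 4, 3, 5]
    chq := [(0, 1), (1, 0), (1, 4), (2, 3), (3, 2), (3, 4), (4, 1), (4, 3)]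
    rng := [(0, 1), (0, 4), (1, 0), (1, 2), (2, 1), (2, 5), (2, 7), (2, 8), (3, 5), (3, 7), (4, 0), (4,
      6), (5, 2), (5, 3), (6, 4), (6, 8), (7, 2), (7, 3), (8, 2), (8, 6)]
    lev := [] }
  links := [[1, 7, 8, 9], [7, 0, 9, 2, 10, 3, 11], [10, 1, 9, 12], [11, 1, 10, 4, 5, 13], [5, 3, 10, 14],
    [13, 3, 4, 14, 6, 15], [15, 5, 14, 9]]
  P := {
    a := 7
    N := 16
    nb := [898, 3725, 5634, 11314, 17448, 57432, 49696, 2307, 641, 53575, 20510, 8330, 1540, 34856,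
      1648, 8800]
    tri := [(0, 1, 7), (0, 1, 9), (0, 7, 8), (0, 8, 9), (1, 2, 9), (1, 2, 10), (1, 3, 10), (1, 3, 11),
      (1, 7, 11), (2, 9, 12), (2, 10, 12), (3, 4, 5), (3, 4, 10), (3, 5, 13), (3, 11, 13), (4, 5,
      14), (4, 10, 14), (5, 6, 14), (5, 6, 15), (5, 13, 15), (6, 9, 14), (6, 9, 15)]
    fin := [0, 0, 0, 3, 3, 5, 5, 0, 8, 5, 0, 11, 12, 13, 3, 15]
    chd := [(0, 5), (5, 13), (11, 3), (13, 3)]
    steps := [(0, 1), (0, 2), (0, 7), (0, 10), (3, 4), (3, 14), (5, 6), (5, 9)] }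
  rep := [0, 5, 11, 3, 13, 15, 8, 12]

noncomputable def v2397 : Cov.CovD where
  P := 3
  N := 5
  pl := [1, 5, 8]
  lev := [⟨[], [], [(0, 1)], [6], [(0, 0, [1]), (2, 1, [0, 4])]⟩,
    ⟨[], [(0, 0), (0, 1), (0, 2)], [(0, 0), (0, 1), (0, 2), (1, 2)], [], [(0, 0, [1]), (2,
      1, [0, 4]), (3, 0, [1]), (4, 2, [3])]⟩,
    ⟨[(0, 1)], [(0, 1), (1, 0), (1, 1), (1, 2)], [(0, 1)], [7], [(2, 1, [0, 4]), (3, 0,
      [1])]⟩,
    ⟨[(0, 1), (1, 2)], [(1, 0), (1, 1), (1, 2), (1, 4), (2, 0)], [(0, 2), (0, 4), (2, 4)],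
      [], [(3, 0, [1]), (4, 2, [3]), (6, 4, [1, 3])]⟩,
    ⟨[(1, 3)], [(1, 0), (2, 0), (3, 0), (3, 2), (3, 3), (3, 4)], [(0, 3)], [], [(3, 0,
      [1]), (7, 3, [2, 4])]⟩,
    ⟨[(1, 3), (3, 4)], [(3, 0), (3, 2), (3, 3), (3, 4), (4, 0), (4, 3), (4, 4)], [(3, 4)],
      [5], [(6, 4, [1, 3]), (7, 3, [2, 4])]⟩,
    ⟨[(3, 5), (4, 5)], [(0, 1), (1, 1), (2, 1), (4, 3), (5, 1), (5, 3), (5, 4)], [(1, 3)],
      [5], [(2, 1, [0, 4]), (7, 3, [2, 4])]⟩]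
  Ta := [((0, 1), 0, 6), ((0, 4), 0, 2), ((3, 5), 0, 7), ((3, 7), 0, 3)]
  Tb := [((0, 1, 4), 0, 6, 2), ((1, 0, 2), 6, 0, 1), ((2, 1, 5), 1, 6, 7), ((2, 1, 7), 1, 6, 3),
    ((2, 1, 8), 1, 6, 5), ((2, 5, 7), 1, 7, 3), ((2, 5, 8), 1, 7, 5), ((2, 7, 8), 1, 3, 5),
    ((3, 5, 7), 0, 7, 3), ((4, 0, 6), 2, 0, 4), ((5, 2, 3), 7, 1, 0), ((6, 4, 8), 4, 2, 5),
    ((7, 2, 3), 3, 1, 0), ((8, 2, 6), 5, 1, 4)]
  Tc := [(1, 0, 4), (3, 2, 4), (4, 1, 3)]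
  Td := [((0, 1), (0, 1), 6), ((0, 1), (0, 4), 2), ((0, 1), (3, 5), 7), ((0, 1), (3, 7), 3), ((1,
    0), (2, 1), 6), ((1, 0), (2, 5), 7), ((1, 0), (2, 7), 3), ((1, 0), (2, 8), 5), ((1, 4),
    (2, 1), 6), ((1, 4), (2, 5), 7), ((1, 4), (2, 7), 3), ((1, 4), (2, 8), 5), ((2, 3), (4,
    0), 0), ((2, 3), (4, 6), 4), ((3, 2), (7, 2), 1), ((3, 2), (7, 3), 0), ((3, 4), (7, 2),
    1), ((3, 4), (7, 3), 0), ((4, 1), (6, 4), 2), ((4, 1), (6, 8), 5), ((4, 3), (6, 4), 2),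
    ((4, 3), (6, 8), 5)]
  G := [[0, 0xa121245441284c8124861212898c614e18c28e, 0x828118a41fc61441346481f8a14c,
    0x8181f241543281c41328198f2c18c, 0x8bd1f42188bd1f4218c], [0,
    0xe12e12c84e12e12c48e12e12c24e, 0, 0x8424c2915a4c54c1f2d132c5d1b28cc1,
    0x4483d1fc28bd1f42c81]]

noncomputable def n2397 : Ent := ⟨e2397, noF, [], [], [(8, 15, [360035742630636841211993100915356868655746945586763691017469953, 0]), (12, 14, [385746751338780685620664494392815470296102193487288376382308353, 0])]⟩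

def c2397 : PLift (Cov.check n2397.C.D v2397 = true) := ⟨by decide +kernel⟩

def b2397 : PLift (entF (fidx ts) 400 2397 n2397 = true) := ⟨by decide +kernel⟩

theorem g2397 : GoodF (fidx ts) 400 2397 := GoodF.ofV v2397 n2397 c2397.down b2397.down

/-- 4746464:1941/10 -/
noncomputable def e2398 : SCfg where
  D := {
    a := 7
    L := 9
    kp := 7
    inn := [(0, 1), (1, 0), (1, 2), (1, 3), (2, 1), (3, 1), (3, 4), (3, 5), (4, 3), (4, 5), (5, 3), (5,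
      4), (5, 6), (6, 5)]
    mix := [(0, 0), (0, 1), (0, 2), (1, 0), (1, 2), (1, 3), (1, 4), (2, 2), (2, 3), (2, 5), (3, 3), (3,
      4), (3, 6), (4, 3), (4, 5), (5, 5), (5, 6), (5, 7), (6, 5), (6, 7), (6, 8)]
    cl := [2, 7, 3, 0, 0, 1, 4, 5, 6]
    chq := [(1, 2), (1, 4), (2, 1), (2, 3), (3, 2), (4, 1), (4, 6), (6, 4)]
    rng := [(0, 1), (0, 4), (1, 0), (1, 2), (2, 1), (2, 5), (3, 5), (4, 0), (4, 6), (5, 2), (5, 3), (5,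
      8), (6, 4), (6, 7), (7, 6), (7, 8), (8, 5), (8, 7)]
    lev := [] }
  links := [[1, 7, 8, 9], [7, 0, 9, 2, 10, 3, 11], [10, 1, 9, 12], [11, 1, 10, 4, 5, 13], [5, 3, 10, 12],
    [13, 3, 4, 12, 6, 14], [14, 5, 12, 15]]
  P := {
    a := 7
    N := 16
    nb := [898, 3725, 5634, 11314, 5160, 28760, 53280, 2307, 641, 4359, 4126, 8330, 34420, 18472,
      41056, 20544]
    tri := [(0, 1, 7), (0, 1, 9), (0, 7, 8), (0, 8, 9), (1, 2, 9), (1, 2, 10), (1, 3, 10), (1, 3, 11),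
      (1, 7, 11), (2, 9, 12), (2, 10, 12), (3, 4, 5), (3, 4, 10), (3, 5, 13), (3, 11, 13), (4, 5,
      12), (4, 10, 12), (5, 6, 12), (5, 6, 14), (5, 13, 14), (6, 12, 15), (6, 14, 15)]
    fin := [0, 0, 0, 3, 4, 5, 6, 0, 8, 9, 3, 3, 4, 5, 14, 6]
    chd := [(0, 4), (0, 9), (4, 5), (5, 6)]
    steps := [(0, 1), (0, 2), (0, 7), (3, 10), (3, 11), (4, 12), (5, 13), (6, 15)] }
  rep := [3, 4, 0, 9, 5, 14, 6, 8]

noncomputable def v2398 : Cov.CovD where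
  P := 3
  N := 5
  pl := [1, 7]
  lev := [⟨[], [], [(2, 3)], [7], [(0, 2, [1, 3]), (2, 3, [2])]⟩,
    ⟨[], [(0, 0), (0, 2), (0, 3)], [(0, 0), (0, 2), (0, 3), (2, 3)], [], [(0, 2, [1, 3]),
      (2, 3, [2]), (3, 0, []), (4, 0, [])]⟩,
    ⟨[(0, 1)], [(0, 3), (1, 0), (1, 1), (1, 2), (1, 3)], [(0, 1), (0, 3), (1, 3)], [], [(2,
      3, [2]), (3, 0, []), (5, 1, [2, 4])]⟩,
    ⟨[(0, 1), (1, 2)], [(1, 0), (1, 2), (1, 3), (1, 4), (2, 0)], [(0, 0), (0, 4)], [], [(3,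
      0, []), (4, 0, []), (6, 4, [1, 6])]⟩,
    ⟨[(1, 3)], [(1, 0), (2, 0), (2, 1), (3, 0), (3, 1), (3, 4)], [(0, 1)], [], [(3, 0, []),
      (5, 1, [2, 4])]⟩,
    ⟨[(1, 3), (3, 4)], [(2, 1), (3, 0), (3, 1), (3, 4), (4, 0), (4, 1), (4, 4)], [(1, 4)],
      [5], [(5, 1, [2, 4]), (6, 4, [1, 6])]⟩,
    ⟨[(3, 5), (4, 5)], [(2, 1), (4, 1), (5, 1), (5, 4), (5, 6)], [(1, 6)], [5], [(5, 1, [2,
      4]), (8, 6, [4])]⟩]
  Ta := [((3, 5), 0, 1), ((4, 0), 0, 2), ((4, 6), 0, 4)]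
  Tb := [((0, 1, 4), 2, 7, 0), ((1, 0, 2), 7, 2, 3), ((2, 1, 5), 3, 7, 1), ((4, 0, 6), 0, 2, 4),
    ((5, 2, 3), 1, 3, 0), ((5, 2, 8), 1, 3, 6), ((5, 3, 8), 1, 0, 6), ((6, 4, 7), 4, 0, 5),
    ((7, 6, 8), 5, 4, 6), ((8, 5, 7), 6, 1, 5)]
  Tc := [(1, 2, 4), (2, 1, 3), (4, 1, 6)]
  Td := [((1, 2), (5, 2), 3), ((1, 2), (5, 3), 0), ((1, 2), (5, 8), 6), ((1, 4), (5, 2), 3), ((1,
    4), (5, 3), 0), ((1, 4), (5, 8), 6), ((2, 1), (0, 1), 7), ((2, 1), (0, 4), 0), ((2, 3),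
    (0, 1), 7), ((2, 3), (0, 4), 0), ((3, 2), (2, 1), 7), ((3, 2), (2, 5), 1), ((4, 1), (6,
    4), 0), ((4, 1), (6, 7), 5), ((4, 6), (6, 4), 0), ((4, 6), (6, 7), 5), ((6, 4), (8, 5),
    1), ((6, 4), (8, 7), 5)]
  G := [[0, 0x6ac26ca86286ac2ac64a24e2c268ce8686ac2ac68a4cd, 0, 0x482d42848dd822c2,
    0x48dd42484d949c58c4248dd428a9584d9864ab], [0, 0, 0x48dd821848dd42144d948d58c12e,
    0x52ad82852ad824c2, 0x59cd42485c949c58c4259cd4217594d858a1ab]]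

noncomputable def n2398 : Ent := ⟨e2398, noF, [], [], [(8, 15, [360035742630636841211993100915356868655746945586763691017457665, 0]), (8, 14, [385746751338780685620664494392815470296102193487288376382296065, 0]), (9, 15, [360035742630636841211993100915356868655746945586763691017486337, 0])]⟩

def c2398 : PLift (Cov.check n2398.C.D v2398 = true) := ⟨by decide +kernel⟩

def b2398 : PLift (entF (fidx ts) 400 2398 n2398 = true) := ⟨by decide +kernel⟩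

theorem g2398 : GoodF (fidx ts) 400 2398 := GoodF.ofV v2398 n2398 c2398.down b2398.down

/-- 4746464:1941/11 -/
noncomputable def e2399 : SCfg where
  D := {
    a := 7
    L := 9
    kp := 7
    inn := [(0, 1), (1, 0), (1, 2), (1, 3), (2, 1), (3, 1), (3, 4), (3, 5), (4, 3), (4, 5), (5, 3), (5,
      4), (5, 6), (6, 5)]
    mix := [(0, 0), (0, 1), (0, 2), (1, 0), (1, 2), (1, 3), (1, 4), (2, 2), (2, 3), (2, 5), (3, 3), (3,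
      4), (3, 6), (4, 3), (4, 7), (5, 6), (5, 7), (5, 8), (6, 5), (6, 7), (6, 8)]
    cl := [1, 7, 3, 0, 0, 2, 5, 4, 6]
    chq := [(1, 2), (1, 3), (2, 1), (2, 5), (3, 1), (4, 5), (5, 2), (5, 4)]
    rng := [(0, 1), (0, 4), (1, 0), (1, 2), (2, 1), (2, 5), (3, 5), (3, 7), (4, 0), (4, 6), (5, 2), (5,
      3), (5, 7), (5, 8), (6, 4), (6, 8), (7, 3), (7, 5), (8, 5), (8, 6)]
    lev := [] }
  links := [[1, 7, 8, 9], [7, 0, 9, 2, 10, 3, 11], [10, 1, 9, 12], [11, 1, 10, 4, 5, 13], [5, 3, 10, 14],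
    [13, 3, 4, 14, 6, 15], [15, 5, 14, 12]]
  P := {
    a := 7
    N := 16
    nb := [898, 3725, 5634, 11314, 17448, 57432, 53280, 2307, 641, 4359, 20510, 8330, 50756, 34856,
      5232, 12384]
    tri := [(0, 1, 7), (0, 1, 9), (0, 7, 8), (0, 8, 9), (1, 2, 9), (1, 2, 10), (1, 3, 10), (1, 3, 11),
      (1, 7, 11), (2, 9, 12), (2, 10, 12), (3, 4, 5), (3, 4, 10), (3, 5, 13), (3, 11, 13), (4, 5,
      14), (4, 10, 14), (5, 6, 14), (5, 6, 15), (5, 13, 15), (6, 12, 14), (6, 12, 15)]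
    fin := [0, 0, 0, 3, 3, 5, 6, 0, 8, 9, 3, 3, 6, 5, 14, 15]
    chd := [(0, 6), (0, 9), (5, 14), (6, 5)]
    steps := [(0, 1), (0, 2), (0, 7), (3, 4), (3, 10), (3, 11), (5, 13), (6, 12)] }
  rep := [3, 0, 6, 9, 14, 5, 15, 8]

noncomputable def v2399 : Cov.CovD where
  P := 3
  N := 5
  pl := [1, 8]
  lev := [⟨[], [], [(1, 3)], [7], [(0, 1, [2, 3]), (2, 3, [1])]⟩,
    ⟨[], [(0, 0), (0, 1), (0, 3)], [(0, 0), (0, 1), (0, 3), (1, 3)], [], [(0, 1, [2, 3]),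
      (2, 3, [1]), (3, 0, []), (4, 0, [])]⟩,
    ⟨[(0, 1)], [(0, 3), (1, 0), (1, 1), (1, 2), (1, 3)], [(0, 2), (0, 3), (2, 3)], [], [(2,
      3, [1]), (3, 0, []), (5, 2, [1, 5])]⟩,
    ⟨[(0, 1), (1, 2)], [(1, 0), (1, 1), (1, 3), (1, 5), (2, 0)], [(0, 0), (0, 5)], [], [(3,
      0, []), (4, 0, []), (6, 5, [2, 4])]⟩,
    ⟨[(1, 3)], [(1, 0), (2, 0), (3, 0), (3, 4), (3, 5)], [(0, 4)], [], [(3, 0, []), (7, 4,
      [5])]⟩,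
    ⟨[(1, 3), (3, 4)], [(3, 0), (3, 4), (3, 5), (4, 0), (4, 4), (4, 5)], [(4, 5)], [6],
      [(6, 5, [2, 4]), (7, 4, [5])]⟩,
    ⟨[(3, 5), (4, 5)], [(2, 2), (4, 4), (5, 2), (5, 4), (5, 5)], [(2, 4)], [6], [(5, 2, [1,
      5]), (7, 4, [5])]⟩]
  Ta := [((3, 5), 0, 2), ((3, 7), 0, 4), ((4, 0), 0, 1), ((4, 6), 0, 5)]
  Tb := [((0, 1, 4), 1, 7, 0), ((1, 0, 2), 7, 1, 3), ((2, 1, 5), 3, 7, 2), ((3, 5, 7), 0, 2, 4),
    ((4, 0, 6), 0, 1, 5), ((5, 2, 3), 2, 3, 0), ((5, 2, 7), 2, 3, 4), ((5, 2, 8), 2, 3, 6),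
    ((5, 3, 7), 2, 0, 4), ((5, 3, 8), 2, 0, 6), ((5, 7, 8), 2, 4, 6), ((6, 4, 8), 5, 0, 6),
    ((7, 3, 5), 4, 0, 2), ((8, 5, 6), 6, 2, 5)]
  Tc := [(1, 2, 3), (2, 1, 5), (5, 2, 4)]
  Td := [((1, 2), (0, 1), 7), ((1, 2), (0, 4), 0), ((1, 3), (0, 1), 7), ((1, 3), (0, 4), 0), ((2,
    1), (5, 2), 3), ((2, 1), (5, 3), 0), ((2, 1), (5, 7), 4), ((2, 1), (5, 8), 6), ((2, 5),
    (5, 2), 3), ((2, 5), (5, 3), 0), ((2, 5), (5, 7), 4), ((2, 5), (5, 8), 6), ((3, 1), (2,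
    1), 7), ((3, 1), (2, 5), 2), ((4, 5), (7, 3), 0), ((4, 5), (7, 5), 2), ((5, 2), (6, 4),
    0), ((5, 2), (6, 8), 6), ((5, 4), (6, 4), 0), ((5, 4), (6, 8), 6)]
  G := [[0, 0, 0x8161ae14628e12e18a24e12e1462e12e18a4cd, 0x9252c22824211e24c2,
    0x82c1f281586282a1d2a8178a2494215a4832522288a8158e2cd], [0,
    0x881b28a41f4618681ba417c214441b488178c12e, 0, 0xd2122d2124c2,
    0x11118b2eb4282311f21981f8a24b414821543198b961e2cd]]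

noncomputable def n2399 : Ent := ⟨e2399, noF, [], [], [(8, 15, [360035742630636841211993100915356868655746945586763691017478145, 0])]⟩

def c2399 : PLift (Cov.check n2399.C.D v2399 = true) := ⟨by decide +kernel⟩

def b2399 : PLift (entF (fidx ts) 400 2399 n2399 = true) := ⟨by decide +kernel⟩

theorem g2399 : GoodF (fidx ts) 400 2399 := GoodF.ofV v2399 n2399 c2399.down b2399.down

/-- 4746464:1941 -/
noncomputable def e2400 : SCfg where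
  D := {
    a := 7
    L := 10
    kp := 8
    inn := [(0, 1), (1, 0), (1, 2), (1, 3), (2, 1), (3, 1), (3, 4), (3, 5), (4, 3), (4, 5), (5, 3), (5,
      4), (5, 6), (6, 5)]
    mix := [(0, 0), (0, 1), (0, 2), (1, 0), (1, 2), (1, 3), (1, 4), (2, 2), (2, 3), (2, 5), (3, 3), (3,
      4), (3, 6), (4, 3), (4, 7), (5, 6), (5, 7), (5, 8), (6, 7), (6, 8), (6, 9)]
    cl := [1, 8, 3, 0, 0, 6, 2, 4, 5, 7]
    chq := [(1, 3), (1, 6), (2, 4), (2, 7), (3, 1), (4, 2), (6, 1), (7, 2)]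
    rng := [(0, 1), (0, 4), (1, 0), (1, 2), (2, 1), (2, 5), (3, 5), (3, 7), (4, 0), (4, 6), (5, 2), (5,
      3), (6, 4), (6, 8), (7, 3), (7, 9), (8, 6), (8, 9), (9, 7), (9, 8)]
    lev := [] }
  links := [[1, 7, 8, 9], [7, 0, 9, 2, 10, 3, 11], [10, 1, 9, 12], [11, 1, 10, 4, 5, 13], [5, 3, 10, 14],
    [13, 3, 4, 14, 6, 15], [15, 5, 14, 16]]
  P := {
    a := 7
    N := 17
    nb := [898, 3725, 5634, 11314, 17448, 57432, 114720, 2307, 641, 4359, 20510, 8330, 1540, 34856,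
      66672, 73824, 49216]
    tri := [(0, 1, 7), (0, 1, 9), (0, 7, 8), (0, 8, 9), (1, 2, 9), (1, 2, 10), (1, 3, 10), (1, 3, 11),
      (1, 7, 11), (2, 9, 12), (2, 10, 12), (3, 4, 5), (3, 4, 10), (3, 5, 13), (3, 11, 13), (4, 5,
      14), (4, 10, 14), (5, 6, 14), (5, 6, 15), (5, 13, 15), (6, 14, 16), (6, 15, 16)]
    fin := [0, 0, 0, 3, 3, 5, 6, 0, 8, 9, 3, 3, 12, 5, 14, 15, 6]
    chd := [(0, 9), (0, 12), (5, 6), (5, 14)]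
    steps := [(0, 1), (0, 2), (0, 7), (3, 4), (3, 10), (3, 11), (5, 13), (6, 16)] }
  rep := [3, 0, 5, 9, 14, 15, 12, 6, 8]

noncomputable def v2400 : Cov.CovD where
  P := 3
  N := 6
  pl := [1, 8]
  lev := [⟨[], [], [(1, 3)], [8], [(0, 1, [3, 6]), (2, 3, [1])]⟩,
    ⟨[], [(0, 0), (0, 1), (0, 3)], [(0, 0), (0, 1), (0, 3), (1, 3)], [], [(0, 1, [3, 6]),
      (2, 3, [1]), (3, 0, []), (4, 0, [])]⟩,
    ⟨[(0, 1)], [(0, 3), (1, 0), (1, 1), (1, 3), (1, 6)], [(0, 3), (0, 6), (3, 6)], [], [(2,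
      3, [1]), (3, 0, []), (5, 6, [1])]⟩,
    ⟨[(0, 1), (1, 2)], [(1, 0), (1, 1), (1, 2), (1, 3), (2, 0)], [(0, 0), (0, 2)], [], [(3,
      0, []), (4, 0, []), (6, 2, [4, 7])]⟩,
    ⟨[(1, 3)], [(1, 0), (2, 0), (3, 0), (3, 2), (3, 4)], [(0, 4)], [], [(3, 0, []), (7, 4,
      [2])]⟩,
    ⟨[(1, 3), (3, 4)], [(3, 0), (3, 2), (3, 4), (4, 0), (4, 2), (4, 4)], [(2, 4)], [5],
      [(6, 2, [4, 7]), (7, 4, [2])]⟩,
    ⟨[(3, 5), (4, 5)], [(4, 4), (5, 2), (5, 4), (5, 7)], [(4, 7)], [5], [(7, 4, [2]), (9,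
      7, [2])]⟩]
  Ta := [((3, 5), 0, 6), ((3, 7), 0, 4), ((4, 0), 0, 1), ((4, 6), 0, 2)]
  Tb := [((0, 1, 4), 1, 8, 0), ((1, 0, 2), 8, 1, 3), ((2, 1, 5), 3, 8, 6), ((3, 5, 7), 0, 6, 4),
    ((4, 0, 6), 0, 1, 2), ((5, 2, 3), 6, 3, 0), ((6, 4, 8), 2, 0, 5), ((7, 3, 9), 4, 0, 7),
    ((8, 6, 9), 5, 2, 7), ((9, 7, 8), 7, 4, 5)]
  Tc := [(1, 3, 6), (2, 4, 7)]
  Td := [((1, 3), (0, 1), 8), ((1, 3), (0, 4), 0), ((1, 6), (0, 1), 8), ((1, 6), (0, 4), 0), ((2,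
    4), (6, 4), 0), ((2, 4), (6, 8), 5), ((2, 7), (6, 4), 0), ((2, 7), (6, 8), 5), ((3, 1),
    (2, 1), 8), ((3, 1), (2, 5), 6), ((4, 2), (7, 3), 0), ((4, 2), (7, 9), 7), ((6, 1), (5,
    2), 3), ((6, 1), (5, 3), 0), ((7, 2), (9, 7), 4), ((7, 2), (9, 8), 5)]
  G := [[0, 0, 0, 0xe27d24282ebd282468af5a42a424bd682cd,
    0xe47b4228e47b4224e47b42242268879ca2cd], [0, 0xe27d2418242f968142ebd2812e,
    0x1811692281411a5224111e1421441812ac1cd, 0x282f5a4286b5283824e27d241f122c382cd,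
    0xf144a5228e47b4224484f3c22e47b421cd]]

noncomputable def n2400 : Ent := ⟨e2400, noF, [], [], [(8, 16, [1580044410770988437309982408355971841652082177953823432505698902017, 0]), (8, 15, [1685356702439545624007900436039642273970977273354372543760009900033, 0]), (9, 16, [1580044410770988437309982408355971841652082177953823432505698930689, 0]), (12, 14, [1685382413448253767852309107433119732572617628602273068445374734337, 0]), (12, 16, [1580044410770988437309982408355971841652082177953823432505698938881, 0])]⟩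

def c2400 : PLift (Cov.check n2400.C.D v2400 = true) := ⟨by decide +kernel⟩

def b2400 : PLift (entF (fidx ts) 400 2400 n2400 = true) := ⟨by decide +kernel⟩

theorem g2400 : GoodF (fidx ts) 400 2400 := GoodF.ofV v2400 n2400 c2400.down b2400.down

/-- 4746466:1942/2 -/
noncomputable def e2401 : SCfg where
  D := {
    a := 7
    L := 9
    kp := 6
    inn := [(0, 1), (1, 0), (1, 2), (1, 3), (2, 1), (3, 1), (3, 4), (3, 6), (4, 3), (4, 5), (4, 6), (5,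
      4), (5, 6), (6, 3), (6, 4), (6, 5)]
    mix := [(0, 0), (0, 1), (0, 2), (1, 0), (1, 2), (1, 3), (1, 4), (2, 2), (2, 3), (2, 5), (3, 3), (3,
      4), (3, 6), (4, 6), (5, 1), (5, 2), (5, 6), (5, 7), (6, 4), (6, 7), (6, 8)]
    cl := [1, 2, 4, 0, 0, 5, 3, 3, 6]
    chq := [(1, 4), (1, 5), (4, 1), (5, 1)]
    rng := [(0, 1), (0, 4), (1, 0), (1, 2), (1, 6), (2, 1), (2, 5), (2, 7), (3, 5), (3, 6), (4, 0), (4,
      8), (5, 2), (5, 3), (6, 1), (6, 3), (7, 2), (7, 8), (8, 4), (8, 7)]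
    lev := [] }
  links := [[1, 7, 8, 9], [7, 0, 9, 2, 10, 3, 11], [10, 1, 9, 12], [11, 1, 10, 13, 4, 6], [6, 3, 13, 5],
    [6, 4, 13, 8, 9, 14], [11, 3, 4, 5, 14, 15]]
  P := {
    a := 7
    N := 16
    nb := [898, 3725, 5634, 11346, 8296, 25424, 51256, 2307, 8865, 20775, 12302, 32970, 1540, 1336,
      33376, 18496]
    tri := [(0, 1, 7), (0, 1, 9), (0, 7, 8), (0, 8, 9), (1, 2, 9), (1, 2, 10), (1, 3, 10), (1, 3, 11),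
      (1, 7, 11), (2, 9, 12), (2, 10, 12), (3, 4, 6), (3, 4, 13), (3, 6, 11), (3, 10, 13), (4, 5,
      6), (4, 5, 13), (5, 6, 14), (5, 8, 9), (5, 8, 13), (5, 9, 14), (6, 11, 15), (6, 14, 15)]
    fin := [0, 0, 0, 3, 3, 5, 3, 0, 8, 9, 3, 3, 12, 5, 5, 15]
    chd := [(0, 9), (0, 12)]
    steps := [(0, 1), (0, 2), (0, 7), (3, 4), (3, 6), (3, 10), (3, 11), (5, 13), (5, 14)] }
  rep := [3, 0, 8, 5, 9, 12, 15]

noncomputable def v2401 : Cov.CovD where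
  P := 3
  N := 4
  pl := [1, 8]
  lev := [⟨[], [], [(1, 4)], [2], [(0, 1, [4, 5]), (2, 4, [1])]⟩,
    ⟨[], [(0, 0), (0, 1), (0, 4)], [(0, 0), (0, 1), (0, 4), (1, 4)], [], [(0, 1, [4, 5]),
      (2, 4, [1]), (3, 0, []), (4, 0, [])]⟩,
    ⟨[(0, 1)], [(0, 4), (1, 0), (1, 1), (1, 4), (1, 5)], [(0, 4), (0, 5), (4, 5)], [], [(2,
      4, [1]), (3, 0, []), (5, 5, [1])]⟩,
    ⟨[(0, 1), (1, 2)], [(1, 0), (1, 1), (1, 3), (1, 4), (2, 0)], [(0, 0), (0, 3)], [], [(3,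
      0, []), (4, 0, []), (6, 3, [])]⟩,
    ⟨[(1, 3)], [(3, 0), (3, 3)], [], [], [(6, 3, [])]⟩,
    ⟨[(3, 4)], [(0, 4), (1, 4), (2, 4), (3, 3), (4, 3), (4, 4)], [(3, 3), (3, 4)], [2],
      [(2, 4, [1]), (6, 3, []), (7, 3, [])]⟩,
    ⟨[(1, 3), (3, 4), (3, 5), (4, 5)], [(1, 0), (3, 0), (3, 3), (4, 0), (4, 3), (5, 0), (5,
      3), (5, 4)], [(0, 3)], [6], [(4, 0, []), (7, 3, [])]⟩]
  Ta := [((3, 5), 0, 5), ((3, 6), 0, 3), ((4, 0), 0, 1), ((4, 8), 0, 6), ((6, 1), 3, 2), ((6, 3),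
    3, 0), ((7, 2), 3, 4), ((7, 8), 3, 6)]
  Tb := [((0, 1, 4), 1, 2, 0), ((1, 0, 2), 2, 1, 4), ((1, 0, 6), 2, 1, 3), ((1, 2, 6), 2, 4, 3),
    ((2, 1, 5), 4, 2, 5), ((2, 1, 7), 4, 2, 3), ((2, 5, 7), 4, 5, 3), ((3, 5, 6), 0, 5, 3),
    ((4, 0, 8), 0, 1, 6), ((5, 2, 3), 5, 4, 0), ((6, 1, 3), 3, 2, 0), ((7, 2, 8), 3, 4, 6),
    ((8, 4, 7), 6, 0, 3)]
  Tc := [(1, 4, 5)]
  Td := [((1, 4), (0, 1), 2), ((1, 4), (0, 4), 0), ((1, 5), (0, 1), 2), ((1, 5), (0, 4), 0), ((4,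
    1), (2, 1), 2), ((4, 1), (2, 5), 5), ((4, 1), (2, 7), 3), ((5, 1), (5, 2), 4), ((5, 1),
    (5, 3), 0)]
  G := [[0, 0, 0x188488e16282461824c, 0x81c86228c452224c, 0xa894c21628a26158249], [0, 0,
    0x11a42281162824c, 0x16982281a54224c, 0x11a4428e148249], [0, 0x611418618814c,
    0x2848861628424e1824c, 0x8124886288451224c, 0x281c8316286118149], [0, 0xe12418e11412c,
    0x62e8a428ea61824c, 0xe1421826ad88c224c, 0xc6a1428e142249]]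

noncomputable def n2401 : Ent := ⟨e2401, noF, [], [], []⟩

def c2401 : PLift (Cov.check n2401.C.D v2401 = true) := ⟨by decide +kernel⟩

def b2401 : PLift (entF (fidx ts) 400 2401 n2401 = true) := ⟨by decide +kernel⟩

theorem g2401 : GoodF (fidx ts) 400 2401 := GoodF.ofV v2401 n2401 c2401.down b2401.down

/-- 4746466:1942/1 -/
noncomputable def e2402 : SCfg where
  D := {
    a := 7
    L := 10
    kp := 7
    inn := [(0, 1), (1, 0), (1, 2), (1, 3), (2, 1), (3, 1), (3, 4), (3, 6), (4, 3), (4, 5), (4, 6), (5,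
      4), (5, 6), (6, 3), (6, 4), (6, 5)]
    mix := [(0, 0), (0, 1), (0, 2), (1, 0), (1, 2), (1, 3), (1, 4), (2, 2), (2, 3), (2, 5), (3, 3), (3,
      4), (3, 6), (4, 6), (5, 1), (5, 6), (5, 7), (5, 8), (6, 4), (6, 8), (6, 9)]
    cl := [1, 2, 4, 0, 0, 5, 3, 6, 3, 7]
    chq := [(1, 4), (1, 5), (4, 1), (5, 1)]
    rng := [(0, 1), (0, 4), (1, 0), (1, 2), (1, 6), (1, 7), (2, 1), (2, 5), (3, 5), (3, 6), (4, 0), (4,
      9), (5, 2), (5, 3), (6, 1), (6, 3), (7, 1), (7, 8), (8, 7), (8, 9), (9, 4), (9, 8)]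
    lev := [] }
  links := [[1, 7, 8, 9], [7, 0, 9, 2, 10, 3, 11], [10, 1, 9, 12], [11, 1, 10, 13, 4, 6], [6, 3, 13, 5],
    [6, 4, 13, 8, 14, 15], [11, 3, 4, 5, 15, 16]]
  P := {
    a := 7
    N := 17
    nb := [898, 3725, 5634, 11346, 8296, 57680, 100408, 2307, 25249, 4359, 12302, 65738, 1540, 1336,
      33056, 82016, 34880]
    tri := [(0, 1, 7), (0, 1, 9), (0, 7, 8), (0, 8, 9), (1, 2, 9), (1, 2, 10), (1, 3, 10), (1, 3, 11),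
      (1, 7, 11), (2, 9, 12), (2, 10, 12), (3, 4, 6), (3, 4, 13), (3, 6, 11), (3, 10, 13), (4, 5,
      6), (4, 5, 13), (5, 6, 15), (5, 8, 13), (5, 8, 14), (5, 14, 15), (6, 11, 16), (6, 15, 16)]
    fin := [0, 0, 0, 3, 4, 5, 4, 0, 5, 9, 3, 3, 12, 4, 14, 4, 16]
    chd := [(0, 9), (0, 12)]
    steps := [(0, 1), (0, 2), (0, 7), (3, 10), (3, 11), (4, 6), (4, 13), (4, 15), (5, 8)] }
  rep := [3, 0, 5, 4, 9, 12, 14, 16]

noncomputable def v2402 : Cov.CovD where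
  P := 3
  N := 5
  pl := [1, 7, 9]
  lev := [⟨[], [], [(1, 4)], [2], [(0, 1, [4, 5]), (2, 4, [1])]⟩,
    ⟨[], [(0, 0), (0, 1), (0, 4)], [(0, 0), (0, 1), (0, 4), (1, 4)], [], [(0, 1, [4, 5]),
      (2, 4, [1]), (3, 0, []), (4, 0, [])]⟩,
    ⟨[(0, 1)], [(0, 4), (1, 0), (1, 1), (1, 4), (1, 5)], [(0, 4), (0, 5), (4, 5)], [], [(2,
      4, [1]), (3, 0, []), (5, 5, [1])]⟩,
    ⟨[(0, 1), (1, 2)], [(1, 0), (1, 1), (1, 3), (1, 4), (2, 0)], [(0, 0), (0, 3)], [], [(3,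
      0, []), (4, 0, []), (6, 3, [])]⟩,
    ⟨[(1, 3)], [(3, 0), (3, 3)], [], [], [(6, 3, [])]⟩,
    ⟨[(3, 4)], [(3, 3), (4, 3)], [(3, 3)], [2, 6], [(6, 3, []), (8, 3, [])]⟩,
    ⟨[(1, 3), (3, 4), (3, 5), (4, 5)], [(1, 0), (3, 0), (3, 3), (4, 0), (4, 3), (5, 0), (5,
      3)], [(0, 3)], [7], [(4, 0, []), (8, 3, [])]⟩]
  Ta := [((3, 5), 0, 5), ((3, 6), 0, 3), ((4, 0), 0, 1), ((4, 9), 0, 7), ((6, 1), 3, 2), ((6, 3),
    3, 0), ((8, 7), 3, 6), ((8, 9), 3, 7)]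
  Tb := [((0, 1, 4), 1, 2, 0), ((1, 0, 2), 2, 1, 4), ((1, 0, 6), 2, 1, 3), ((1, 0, 7), 2, 1, 6),
    ((1, 2, 6), 2, 4, 3), ((1, 2, 7), 2, 4, 6), ((1, 6, 7), 2, 3, 6), ((2, 1, 5), 4, 2, 5),
    ((3, 5, 6), 0, 5, 3), ((4, 0, 9), 0, 1, 7), ((5, 2, 3), 5, 4, 0), ((6, 1, 3), 3, 2, 0),
    ((7, 1, 8), 6, 2, 3), ((8, 7, 9), 3, 6, 7), ((9, 4, 8), 7, 0, 3)]
  Tc := [(1, 4, 5)]
  Td := [((1, 4), (0, 1), 2), ((1, 4), (0, 4), 0), ((1, 5), (0, 1), 2), ((1, 5), (0, 4), 0), ((4,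
    1), (2, 1), 2), ((4, 1), (2, 5), 5), ((5, 1), (5, 2), 4), ((5, 1), (5, 3), 0)]
  G := [[0, 0, 0x2ac14ca162862c18c61a24c, 0x68cc5a228cccd2224c, 0x2a2b44492628229444a883ca249],
    [0, 0, 0x111e8428111e8224c, 0x11ed482411ed24285, 0x11eb242811eb28249], [0,
    0xa251449261862c18c52a14c, 0x2ac14ca162862c18c61a24c, 0x48cd1228486d1224c,
    0x2291c43162822918831a149], [0, 0x26ed8892186e51a84a14c, 0xeea1e41628ee61e81a24c,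
    0xa6ed1228a6ed1214c, 0xc6eb1428221c4eb16149]]

noncomputable def n2402 : Ent := ⟨e2402, noF, [], [], [(9, 14, [1685382413448253767852309107433119732572617628602273068445374746625, 0])]⟩

def c2402 : PLift (Cov.check n2402.C.D v2402 = true) := ⟨by decide +kernel⟩

def b2402 : PLift (entF (fidx ts) 400 2402 n2402 = true) := ⟨by decide +kernel⟩

theorem g2402 : GoodF (fidx ts) 400 2402 := GoodF.ofV v2402 n2402 c2402.down b2402.down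

/-- 4746466:1942/4 -/
noncomputable def e2403 : SCfg where
  D := {
    a := 7
    L := 9
    kp := 6
    inn := [(0, 1), (1, 0), (1, 2), (1, 3), (2, 1), (3, 1), (3, 4), (3, 6), (4, 3), (4, 5), (4, 6), (5,
      4), (5, 6), (6, 3), (6, 4), (6, 5)]
    mix := [(0, 0), (0, 1), (0, 2), (1, 0), (1, 2), (1, 3), (1, 4), (2, 2), (2, 3), (2, 5), (3, 3), (3,
      4), (3, 6), (4, 6), (5, 1), (5, 5), (5, 6), (5, 7), (6, 4), (6, 7), (6, 8)]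
    cl := [2, 1, 4, 0, 0, 5, 3, 3, 6]
    chq := [(0, 1), (0, 4), (1, 0), (4, 0)]
    rng := [(0, 1), (0, 4), (1, 0), (1, 2), (1, 5), (1, 7), (2, 1), (2, 5), (3, 5), (3, 6), (4, 0), (4,
      8), (5, 1), (5, 2), (5, 3), (5, 6), (6, 3), (6, 5), (7, 1), (7, 8), (8, 4), (8, 7)]
    lev := [] }
  links := [[1, 7, 8, 9], [7, 0, 9, 2, 10, 3, 11], [10, 1, 9, 12], [11, 1, 10, 13, 4, 6], [6, 3, 13, 5],
    [6, 4, 13, 12, 8, 14], [11, 3, 4, 5, 14, 15]]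
  P := {
    a := 7
    N := 16
    nb := [898, 3725, 5634, 11346, 8296, 29008, 51256, 2307, 21153, 4359, 12302, 32970, 10020, 5176,
      33120, 18496]
    tri := [(0, 1, 7), (0, 1, 9), (0, 7, 8), (0, 8, 9), (1, 2, 9), (1, 2, 10), (1, 3, 10), (1, 3, 11),
      (1, 7, 11), (2, 9, 12), (2, 10, 12), (3, 4, 6), (3, 4, 13), (3, 6, 11), (3, 10, 13), (4, 5,
      6), (4, 5, 13), (5, 6, 14), (5, 8, 12), (5, 8, 14), (5, 12, 13), (6, 11, 15), (6, 14, 15)]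
    fin := [0, 1, 2, 3, 0, 0, 3, 7, 0, 2, 1, 1, 12, 3, 3, 15]
    chd := [(0, 1), (2, 1)]
    steps := [(0, 8), (0, 5), (0, 4), (1, 10), (1, 11), (2, 9), (3, 6), (3, 13), (3, 14)] }
  rep := [1, 0, 7, 3, 2, 12, 15]

noncomputable def v2403 : Cov.CovD where
  P := 3
  N := 4
  pl := [0, 5, 8]
  lev := [⟨[], [], [(1, 4)], [2], [(1, 1, [0]), (2, 4, [0])]⟩,
    ⟨[], [(0, 0), (0, 1), (0, 4)], [(0, 0), (0, 4)], [2], [(2, 4, [0]), (3, 0, [1, 4]), (4,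
      0, [1, 4])]⟩,
    ⟨[(0, 1)], [(0, 4), (1, 0), (1, 4)], [(0, 4)], [5], [(2, 4, [0]), (3, 0, [1, 4])]⟩,
    ⟨[(0, 1), (1, 2)], [(1, 0), (1, 3), (1, 4), (2, 0)], [(0, 0), (0, 3)], [], [(3, 0, [1,
      4]), (4, 0, [1, 4]), (6, 3, [])]⟩,
    ⟨[(1, 3)], [(3, 0), (3, 3)], [], [], [(6, 3, [])]⟩,
    ⟨[(3, 4)], [(0, 1), (3, 3), (4, 1), (4, 3)], [(1, 3), (3, 3)], [5], [(1, 1, [0]), (6,
      3, []), (7, 3, [])]⟩,
    ⟨[(1, 3), (3, 4), (3, 5), (4, 5)], [(1, 0), (3, 0), (3, 3), (4, 0), (4, 3), (5, 0), (5,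
      1), (5, 3)], [(0, 3)], [6], [(4, 0, [1, 4]), (7, 3, [])]⟩]
  Ta := [((3, 5), 0, 5), ((3, 6), 0, 3), ((4, 0), 0, 2), ((4, 8), 0, 6), ((6, 3), 3, 0), ((6, 5),
    3, 5), ((7, 1), 3, 1), ((7, 8), 3, 6)]
  Tb := [((0, 1, 4), 2, 1, 0), ((1, 0, 2), 1, 2, 4), ((1, 0, 5), 1, 2, 5), ((1, 0, 7), 1, 2, 3),
    ((1, 2, 5), 1, 4, 5), ((1, 2, 7), 1, 4, 3), ((1, 5, 7), 1, 5, 3), ((2, 1, 5), 4, 1, 5),
    ((3, 5, 6), 0, 5, 3), ((4, 0, 8), 0, 2, 6), ((5, 1, 2), 5, 1, 4), ((5, 1, 3), 5, 1, 0),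
    ((5, 1, 6), 5, 1, 3), ((5, 2, 3), 5, 4, 0), ((5, 2, 6), 5, 4, 3), ((5, 3, 6), 5, 0, 3),
    ((6, 3, 5), 3, 0, 5), ((7, 1, 8), 3, 1, 6), ((8, 4, 7), 6, 0, 3)]
  Tc := [(0, 1, 4)]
  Td := [((0, 1), (3, 5), 5), ((0, 1), (3, 6), 3), ((0, 1), (4, 0), 2), ((0, 1), (4, 8), 6), ((0,
    4), (3, 5), 5), ((0, 4), (3, 6), 3), ((0, 4), (4, 0), 2), ((0, 4), (4, 8), 6), ((1, 0),
    (1, 0), 2), ((1, 0), (1, 2), 4), ((1, 0), (1, 5), 5), ((1, 0), (1, 7), 3), ((4, 0), (2,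
    1), 1), ((4, 0), (2, 5), 5)]
  G := [[0, 0x214412618218812a14c, 0, 0x68c4a1b22cccd222c1, 0x688192c4522c4884c26492a852c6a1],
    [0, 0xe14218e12814c, 0, 0x11ce1522811ed2824c, 0x116d42a184c11c84e1186a1], [0,
    0x218c12618218812a14c, 0xc12218c12214c, 0xc1122c1122c1, 0xc122c122cc1121a1], [0,
    0xe18418e18214c, 0xe11218e11814c, 0xe11228e148249, 0xe114a1829e118e1485a1]]

noncomputable def n2403 : Ent := ⟨e2403, noF, [], [], []⟩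

def c2403 : PLift (Cov.check n2403.C.D v2403 = true) := ⟨by decide +kernel⟩

def b2403 : PLift (entF (fidx ts) 400 2403 n2403 = true) := ⟨by decide +kernel⟩

theorem g2403 : GoodF (fidx ts) 400 2403 := GoodF.ofV v2403 n2403 c2403.down b2403.down

/-- 4746466:1942/3 -/
noncomputable def e2404 : SCfg where
  D := {
    a := 7
    L := 10
    kp := 7
    inn := [(0, 1), (1, 0), (1, 2), (1, 3), (2, 1), (3, 1), (3, 4), (3, 6), (4, 3), (4, 5), (4, 6), (5,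
      4), (5, 6), (6, 3), (6, 4), (6, 5)]
    mix := [(0, 0), (0, 1), (0, 2), (1, 0), (1, 2), (1, 3), (1, 4), (2, 2), (2, 3), (2, 5), (3, 3), (3,
      4), (3, 6), (4, 6), (5, 1), (5, 6), (5, 7), (5, 8), (6, 4), (6, 8), (6, 9)]
    cl := [1, 2, 4, 0, 0, 5, 3, 6, 3, 7]
    chq := [(1, 4), (1, 5), (4, 1), (5, 1)]
    rng := [(0, 1), (0, 4), (1, 0), (1, 2), (1, 7), (1, 8), (2, 1), (2, 5), (3, 5), (3, 6), (4, 0), (4,
      9), (5, 2), (5, 3), (6, 3), (6, 7), (7, 1), (7, 6), (8, 1), (8, 9), (9, 4), (9, 8)]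
    lev := [] }
  links := [[1, 7, 8, 9], [7, 0, 9, 2, 10, 3, 11], [10, 1, 9, 12], [11, 1, 10, 13, 4, 6], [6, 3, 13, 5],
    [6, 4, 13, 14, 8, 15], [11, 3, 4, 5, 15, 16]]
  P := {
    a := 7
    N := 17
    nb := [898, 3725, 5634, 11346, 8296, 57680, 100408, 2307, 49825, 4359, 12302, 65738, 1540, 17464,
      8480, 65888, 34880]
    tri := [(0, 1, 7), (0, 1, 9), (0, 7, 8), (0, 8, 9), (1, 2, 9), (1, 2, 10), (1, 3, 10), (1, 3, 11),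
      (1, 7, 11), (2, 9, 12), (2, 10, 12), (3, 4, 6), (3, 4, 13), (3, 6, 11), (3, 10, 13), (4, 5,
      6), (4, 5, 13), (5, 6, 15), (5, 8, 14), (5, 8, 15), (5, 13, 14), (6, 11, 16), (6, 15, 16)]
    fin := [0, 0, 0, 3, 4, 5, 4, 0, 5, 9, 3, 3, 12, 4, 14, 4, 16]
    chd := [(0, 9), (0, 12)]
    steps := [(0, 1), (0, 2), (0, 7), (3, 10), (3, 11), (4, 6), (4, 13), (4, 15), (5, 8)] }
  rep := [3, 0, 5, 4, 9, 12, 14, 16]

noncomputable def v2404 : Cov.CovD where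
  P := 3
  N := 5
  pl := [1, 7, 9]
  lev := [⟨[], [], [(1, 4)], [2], [(0, 1, [4, 5]), (2, 4, [1])]⟩,
    ⟨[], [(0, 0), (0, 1), (0, 4)], [(0, 0), (0, 1), (0, 4), (1, 4)], [], [(0, 1, [4, 5]),
      (2, 4, [1]), (3, 0, []), (4, 0, [])]⟩,
    ⟨[(0, 1)], [(0, 4), (1, 0), (1, 1), (1, 4), (1, 5)], [(0, 4), (0, 5), (4, 5)], [], [(2,
      4, [1]), (3, 0, []), (5, 5, [1])]⟩,
    ⟨[(0, 1), (1, 2)], [(1, 0), (1, 1), (1, 3), (1, 4), (2, 0)], [(0, 0), (0, 3)], [], [(3,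
      0, []), (4, 0, []), (6, 3, [])]⟩,
    ⟨[(1, 3)], [(3, 0), (3, 3)], [], [], [(6, 3, [])]⟩,
    ⟨[(3, 4)], [(3, 3), (4, 3)], [(3, 3)], [2, 6], [(6, 3, []), (8, 3, [])]⟩,
    ⟨[(1, 3), (3, 4), (3, 5), (4, 5)], [(1, 0), (3, 0), (3, 3), (4, 0), (4, 3), (5, 0), (5,
      3)], [(0, 3)], [7], [(4, 0, []), (8, 3, [])]⟩]
  Ta := [((3, 5), 0, 5), ((3, 6), 0, 3), ((4, 0), 0, 1), ((4, 9), 0, 7), ((6, 3), 3, 0), ((6, 7),
    3, 6), ((8, 1), 3, 2), ((8, 9), 3, 7)]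
  Tb := [((0, 1, 4), 1, 2, 0), ((1, 0, 2), 2, 1, 4), ((1, 0, 7), 2, 1, 6), ((1, 0, 8), 2, 1, 3),
    ((1, 2, 7), 2, 4, 6), ((1, 2, 8), 2, 4, 3), ((1, 7, 8), 2, 6, 3), ((2, 1, 5), 4, 2, 5),
    ((3, 5, 6), 0, 5, 3), ((4, 0, 9), 0, 1, 7), ((5, 2, 3), 5, 4, 0), ((6, 3, 7), 3, 0, 6),
    ((7, 1, 6), 6, 2, 3), ((8, 1, 9), 3, 2, 7), ((9, 4, 8), 7, 0, 3)]
  Tc := [(1, 4, 5)]
  Td := [((1, 4), (0, 1), 2), ((1, 4), (0, 4), 0), ((1, 5), (0, 1), 2), ((1, 5), (0, 4), 0), ((4,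
    1), (2, 1), 2), ((4, 1), (2, 5), 5), ((5, 1), (5, 2), 4), ((5, 1), (5, 3), 0)]
  G := [[0, 0, 0x2ac14ca162862c18c61a24c, 0xcccd2228cccd2224c, 0xaaab44286294c834a249], [0, 0,
    0x111e8428111e4224c, 0x11ce1942811ed4824c, 0x11eb422811eb82249], [0, 0x48cd221848cd1214c,
    0x2ac14ca162862c18c61a24c, 0x48ad122848cd12149, 0x28ab442828ab14249], [0,
    0xa6ed1218a6ed1214c, 0x228eece1628ee61e81a24c, 0xae91648628a6ed1224c,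
    0x6e3c8a428221c4eb1a149]]

noncomputable def n2404 : Ent := ⟨e2404, noF, [], [], [(12, 14, [1685382413448253767852309107433119732572617628602273068445374754817, 0])]⟩

def c2404 : PLift (Cov.check n2404.C.D v2404 = true) := ⟨by decide +kernel⟩

def b2404 : PLift (entF (fidx ts) 400 2404 n2404 = true) := ⟨by decide +kernel⟩

theorem g2404 : GoodF (fidx ts) 400 2404 := GoodF.ofV v2404 n2404 c2404.down b2404.down

/-- 4746466:1942/6 -/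
noncomputable def e2405 : SCfg where
  D := {
    a := 7
    L := 9
    kp := 6
    inn := [(0, 1), (1, 0), (1, 2), (1, 3), (2, 1), (3, 1), (3, 4), (3, 6), (4, 3), (4, 5), (4, 6), (5,
      4), (5, 6), (6, 3), (6, 4), (6, 5)]
    mix := [(0, 0), (0, 1), (0, 2), (1, 0), (1, 2), (1, 3), (1, 4), (2, 2), (2, 3), (2, 5), (3, 3), (3,
      4), (3, 6), (4, 6), (5, 2), (5, 5), (5, 6), (5, 7), (6, 4), (6, 7), (6, 8)]
    cl := [2, 5, 1, 0, 0, 4, 3, 3, 6]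
    chq := [(1, 2), (2, 1), (2, 4), (4, 2)]
    rng := [(0, 1), (0, 4), (1, 0), (1, 2), (2, 1), (2, 5), (2, 7), (3, 5), (3, 6), (4, 0), (4, 8), (5,
      2), (5, 3), (5, 6), (6, 3), (6, 5), (7, 2), (7, 8), (8, 4), (8, 7)]
    lev := [] }
  links := [[1, 7, 8, 9], [7, 0, 9, 2, 10, 3, 11], [10, 1, 9, 12], [11, 1, 10, 13, 4, 6], [6, 3, 13, 5],
    [6, 4, 13, 12, 9, 14], [11, 3, 4, 5, 14, 15]]
  P := {
    a := 7
    N := 16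
    nb := [898, 3725, 5634, 11346, 8296, 29264, 51256, 2307, 641, 20775, 12302, 32970, 9764, 5176,
      33376, 18496]
    tri := [(0, 1, 7), (0, 1, 9), (0, 7, 8), (0, 8, 9), (1, 2, 9), (1, 2, 10), (1, 3, 10), (1, 3, 11),
      (1, 7, 11), (2, 9, 12), (2, 10, 12), (3, 4, 6), (3, 4, 13), (3, 6, 11), (3, 10, 13), (4, 5,
      6), (4, 5, 13), (5, 6, 14), (5, 9, 12), (5, 9, 14), (5, 12, 13), (6, 11, 15), (6, 14, 15)]
    fin := [0, 0, 0, 3, 3, 5, 3, 0, 8, 9, 3, 3, 12, 5, 5, 15]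
    chd := [(0, 9), (0, 12)]
    steps := [(0, 1), (0, 2), (0, 7), (3, 4), (3, 6), (3, 10), (3, 11), (5, 13), (5, 14)] }
  rep := [3, 9, 0, 5, 12, 8, 15]

noncomputable def v2405 : Cov.CovD where
  P := 3
  N := 4
  pl := [1, 8]
  lev := [⟨[], [], [(1, 2)], [5], [(0, 2, [1, 4]), (2, 1, [2])]⟩,
    ⟨[], [(0, 0), (0, 1), (0, 2)], [(0, 0), (0, 1), (0, 2), (1, 2)], [], [(0, 2, [1, 4]),
      (2, 1, [2]), (3, 0, []), (4, 0, [])]⟩,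
    ⟨[(0, 1)], [(0, 1), (1, 0), (1, 1), (1, 2), (1, 4)], [(0, 1), (0, 4), (1, 4)], [], [(2,
      1, [2]), (3, 0, []), (5, 4, [2])]⟩,
    ⟨[(0, 1), (1, 2)], [(1, 0), (1, 1), (1, 2), (1, 3), (2, 0)], [(0, 0), (0, 3)], [], [(3,
      0, []), (4, 0, []), (6, 3, [])]⟩,
    ⟨[(1, 3)], [(3, 0), (3, 3)], [], [], [(6, 3, [])]⟩,
    ⟨[(3, 4)], [(0, 1), (1, 1), (2, 1), (2, 4), (3, 3), (4, 1), (4, 3), (4, 4)], [(1, 3),
      (1, 4), (3, 3), (3, 4)], [], [(2, 1, [2]), (5, 4, [2]), (6, 3, []), (7, 3, [])]⟩,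
    ⟨[(1, 3), (3, 4), (3, 5), (4, 5)], [(1, 0), (3, 0), (3, 3), (4, 0), (4, 3), (5, 0), (5,
      1), (5, 3), (5, 4)], [(0, 3)], [6], [(4, 0, []), (7, 3, [])]⟩]
  Ta := [((3, 5), 0, 4), ((3, 6), 0, 3), ((4, 0), 0, 2), ((4, 8), 0, 6), ((6, 3), 3, 0), ((6, 5),
    3, 4), ((7, 2), 3, 1), ((7, 8), 3, 6)]
  Tb := [((0, 1, 4), 2, 5, 0), ((1, 0, 2), 5, 2, 1), ((2, 1, 5), 1, 5, 4), ((2, 1, 7), 1, 5, 3),
    ((2, 5, 7), 1, 4, 3), ((3, 5, 6), 0, 4, 3), ((4, 0, 8), 0, 2, 6), ((5, 2, 3), 4, 1, 0),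
    ((5, 2, 6), 4, 1, 3), ((5, 3, 6), 4, 0, 3), ((6, 3, 5), 3, 0, 4), ((7, 2, 8), 3, 1, 6),
    ((8, 4, 7), 6, 0, 3)]
  Tc := [(2, 1, 4)]
  Td := [((1, 2), (2, 1), 5), ((1, 2), (2, 5), 4), ((1, 2), (2, 7), 3), ((2, 1), (0, 1), 5), ((2,
    1), (0, 4), 0), ((2, 4), (0, 1), 5), ((2, 4), (0, 4), 0), ((4, 2), (5, 2), 1), ((4, 2),
    (5, 3), 0), ((4, 2), (5, 6), 3)]
  G := [[0, 0xc21222c1821a6462c18c61a24c, 0, 0xa8526498624682cc52a249,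
    0xcccd2248a424a444952c89], [0, 0x111e2824111e8224c, 0, 0x128448128284e11824d,
    0x11ed424811ed84489], [0, 0x2ac14ca16282ac14ca1628c, 0xc11218c12214c, 0xc12218c122289,
    0xc11218c122189], [0, 0xeea1e41628228e4ecac628c, 0xe11214e12814c, 0xe11428e112289,
    0xe11248e112189]]

noncomputable def n2405 : Ent := ⟨e2405, noF, [], [], []⟩

def c2405 : PLift (Cov.check n2405.C.D v2405 = true) := ⟨by decide +kernel⟩

def b2405 : PLift (entF (fidx ts) 400 2405 n2405 = true) := ⟨by decide +kernel⟩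

theorem g2405 : GoodF (fidx ts) 400 2405 := GoodF.ofV v2405 n2405 c2405.down b2405.down

/-- 4746466:1942/5 -/
noncomputable def e2406 : SCfg where
  D := {
    a := 7
    L := 10
    kp := 7
    inn := [(0, 1), (1, 0), (1, 2), (1, 3), (2, 1), (3, 1), (3, 4), (3, 6), (4, 3), (4, 5), (4, 6), (5,
      4), (5, 6), (6, 3), (6, 4), (6, 5)]
    mix := [(0, 0), (0, 1), (0, 2), (1, 0), (1, 2), (1, 3), (1, 4), (2, 2), (2, 3), (2, 5), (3, 3), (3,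
      4), (3, 6), (4, 6), (5, 2), (5, 6), (5, 7), (5, 8), (6, 4), (6, 8), (6, 9)]
    cl := [2, 5, 1, 0, 0, 4, 3, 6, 3, 7]
    chq := [(1, 2), (2, 1), (2, 4), (4, 2)]
    rng := [(0, 1), (0, 4), (1, 0), (1, 2), (2, 1), (2, 5), (2, 7), (2, 8), (3, 5), (3, 6), (4, 0), (4,
      9), (5, 2), (5, 3), (6, 3), (6, 7), (7, 2), (7, 6), (8, 2), (8, 9), (9, 4), (9, 8)]
    lev := [] }
  links := [[1, 7, 8, 9], [7, 0, 9, 2, 10, 3, 11], [10, 1, 9, 12], [11, 1, 10, 13, 4, 6], [6, 3, 13, 5],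
    [6, 4, 13, 14, 9, 15], [11, 3, 4, 5, 15, 16]]
  P := {
    a := 7
    N := 17
    nb := [898, 3725, 5634, 11346, 8296, 57936, 100408, 2307, 641, 53543, 12302, 65738, 1540, 17464,
      8736, 66144, 34880]
    tri := [(0, 1, 7), (0, 1, 9), (0, 7, 8), (0, 8, 9), (1, 2, 9), (1, 2, 10), (1, 3, 10), (1, 3, 11),
      (1, 7, 11), (2, 9, 12), (2, 10, 12), (3, 4, 6), (3, 4, 13), (3, 6, 11), (3, 10, 13), (4, 5,
      6), (4, 5, 13), (5, 6, 15), (5, 9, 14), (5, 9, 15), (5, 13, 14), (6, 11, 16), (6, 15, 16)]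
    fin := [0, 0, 0, 3, 3, 5, 3, 0, 8, 9, 3, 3, 12, 5, 14, 5, 16]
    chd := [(0, 9), (0, 12)]
    steps := [(0, 1), (0, 2), (0, 7), (3, 4), (3, 6), (3, 10), (3, 11), (5, 13), (5, 15)] }
  rep := [3, 9, 0, 5, 12, 8, 14, 16]

noncomputable def v2406 : Cov.CovD where
  P := 3
  N := 5
  pl := [1, 7, 9]
  lev := [⟨[], [], [(1, 2)], [5], [(0, 2, [1, 4]), (2, 1, [2])]⟩,
    ⟨[], [(0, 0), (0, 1), (0, 2)], [(0, 0), (0, 1), (0, 2), (1, 2)], [], [(0, 2, [1, 4]),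
      (2, 1, [2]), (3, 0, []), (4, 0, [])]⟩,
    ⟨[(0, 1)], [(0, 1), (1, 0), (1, 1), (1, 2), (1, 4)], [(0, 1), (0, 4), (1, 4)], [], [(2,
      1, [2]), (3, 0, []), (5, 4, [2])]⟩,
    ⟨[(0, 1), (1, 2)], [(1, 0), (1, 1), (1, 2), (1, 3), (2, 0)], [(0, 0), (0, 3)], [], [(3,
      0, []), (4, 0, []), (6, 3, [])]⟩,
    ⟨[(1, 3)], [(3, 0), (3, 3)], [], [], [(6, 3, [])]⟩,
    ⟨[(3, 4)], [(0, 1), (1, 1), (2, 1), (3, 3), (4, 1), (4, 3)], [(1, 3), (3, 3)], [6],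
      [(2, 1, [2]), (6, 3, []), (8, 3, [])]⟩,
    ⟨[(1, 3), (3, 4), (3, 5), (4, 5)], [(1, 0), (3, 0), (3, 3), (4, 0), (4, 3), (5, 0), (5,
      1), (5, 3)], [(0, 3)], [7], [(4, 0, []), (8, 3, [])]⟩]
  Ta := [((3, 5), 0, 4), ((3, 6), 0, 3), ((4, 0), 0, 2), ((4, 9), 0, 7), ((6, 3), 3, 0), ((6, 7),
    3, 6), ((8, 2), 3, 1), ((8, 9), 3, 7)]
  Tb := [((0, 1, 4), 2, 5, 0), ((1, 0, 2), 5, 2, 1), ((2, 1, 5), 1, 5, 4), ((2, 1, 7), 1, 5, 6),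
    ((2, 1, 8), 1, 5, 3), ((2, 5, 7), 1, 4, 6), ((2, 5, 8), 1, 4, 3), ((2, 7, 8), 1, 6, 3),
    ((3, 5, 6), 0, 4, 3), ((4, 0, 9), 0, 2, 7), ((5, 2, 3), 4, 1, 0), ((6, 3, 7), 3, 0, 6),
    ((7, 2, 6), 6, 1, 3), ((8, 2, 9), 3, 1, 7), ((9, 4, 8), 7, 0, 3)]
  Tc := [(2, 1, 4)]
  Td := [((1, 2), (2, 1), 5), ((1, 2), (2, 5), 4), ((1, 2), (2, 7), 6), ((1, 2), (2, 8), 3), ((2,
    1), (0, 1), 5), ((2, 1), (0, 4), 0), ((2, 4), (0, 1), 5), ((2, 4), (0, 4), 0), ((4, 2),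
    (5, 2), 1), ((4, 2), (5, 3), 0)]
  G := [[0, 0x62c18c61a2464a1a861c28c, 0, 0xcccd22284282c244282c28cc, 0xcccd2248cccd22489], [0,
    0x111e4824111e4224c, 0, 0x12481248c412841284c89, 0x11ed424811ed82489], [0,
    0x2ac14ca162462c18c61a28c, 0x48cd121848cd1218c, 0xc21218c212185, 0x48cd121848cd22189],
    [0, 0x228eece1628e28e4e89628c, 0xa6ed121464ae9c218c, 0x22c2f121822c2f8418c,
    0x44a2edc218a6ed12489]]

noncomputable def n2406 : Ent := ⟨e2406, noF, [], [], [(8, 14, [1685382413448253767852309107433119732572617628602273068445374746625, 0]), (12, 14, [1685382413448253767852309107433119732572617628602273068445374763009, 0])]⟩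

def c2406 : PLift (Cov.check n2406.C.D v2406 = true) := ⟨by decide +kernel⟩

def b2406 : PLift (entF (fidx ts) 400 2406 n2406 = true) := ⟨by decide +kernel⟩

theorem g2406 : GoodF (fidx ts) 400 2406 := GoodF.ofV v2406 n2406 c2406.down b2406.down

/-- 4746466:1942/7 -/
noncomputable def e2407 : SCfg where
  D := {
    a := 7
    L := 10
    kp := 7
    inn := [(0, 1), (1, 0), (1, 2), (1, 3), (2, 1), (3, 1), (3, 4), (3, 6), (4, 3), (4, 5), (4, 6), (5,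
      4), (5, 6), (6, 3), (6, 4), (6, 5)]
    mix := [(0, 0), (0, 1), (0, 2), (1, 0), (1, 2), (1, 3), (1, 4), (2, 2), (2, 3), (2, 5), (3, 3), (3,
      4), (3, 6), (4, 6), (5, 5), (5, 6), (5, 7), (5, 8), (6, 4), (6, 8), (6, 9)]
    cl := [2, 5, 3, 0, 0, 4, 1, 6, 1, 7]
    chq := [(2, 3), (2, 4), (3, 2), (4, 2)]
    rng := [(0, 1), (0, 4), (1, 0), (1, 2), (2, 1), (2, 5), (3, 5), (3, 6), (4, 0), (4, 9), (5, 2), (5,
      3), (5, 6), (5, 7), (6, 3), (6, 5), (7, 5), (7, 8), (8, 7), (8, 9), (9, 4), (9, 8)]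
    lev := [] }
  links := [[1, 7, 8, 9], [7, 0, 9, 2, 10, 3, 11], [10, 1, 9, 12], [11, 1, 10, 13, 4, 6], [6, 3, 13, 5],
    [6, 4, 13, 12, 14, 15], [11, 3, 4, 5, 15, 16]]
  P := {
    a := 7
    N := 17
    nb := [898, 3725, 5634, 11346, 8296, 61520, 100408, 2307, 641, 4359, 12302, 65738, 26148, 5176,
      36896, 82016, 34880]
    tri := [(0, 1, 7), (0, 1, 9), (0, 7, 8), (0, 8, 9), (1, 2, 9), (1, 2, 10), (1, 3, 10), (1, 3, 11),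
      (1, 7, 11), (2, 9, 12), (2, 10, 12), (3, 4, 6), (3, 4, 13), (3, 6, 11), (3, 10, 13), (4, 5,
      6), (4, 5, 13), (5, 6, 15), (5, 12, 13), (5, 12, 14), (5, 14, 15), (6, 11, 16), (6, 15, 16)]
    fin := [0, 0, 0, 3, 4, 5, 4, 0, 8, 9, 3, 3, 5, 4, 14, 4, 16]
    chd := [(0, 5), (0, 9)]
    steps := [(0, 1), (0, 2), (0, 7), (3, 10), (3, 11), (4, 6), (4, 13), (4, 15), (5, 12)] }
  rep := [3, 4, 0, 9, 5, 8, 14, 16]

noncomputable def v2407 : Cov.CovD where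
  P := 3
  N := 5
  pl := [1, 7, 9]
  lev := [⟨[], [], [(2, 3)], [5], [(0, 2, [3, 4]), (2, 3, [2])]⟩,
    ⟨[], [(0, 0), (0, 2), (0, 3)], [(0, 0), (0, 2), (0, 3), (2, 3)], [], [(0, 2, [3, 4]),
      (2, 3, [2]), (3, 0, []), (4, 0, [])]⟩,
    ⟨[(0, 1)], [(0, 3), (1, 0), (1, 2), (1, 3), (1, 4)], [(0, 3), (0, 4), (3, 4)], [], [(2,
      3, [2]), (3, 0, []), (5, 4, [2])]⟩,
    ⟨[(0, 1), (1, 2)], [(1, 0), (1, 1), (1, 2), (1, 3), (2, 0)], [(0, 0), (0, 1)], [], [(3,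
      0, []), (4, 0, []), (6, 1, [])]⟩,
    ⟨[(1, 3)], [(3, 0), (3, 1)], [], [], [(6, 1, [])]⟩,
    ⟨[(3, 4)], [(2, 4), (3, 1), (4, 1), (4, 4)], [(1, 1), (1, 4)], [6], [(5, 4, [2]), (6,
      1, []), (8, 1, [])]⟩,
    ⟨[(1, 3), (3, 4), (3, 5), (4, 5)], [(1, 0), (3, 0), (3, 1), (4, 0), (4, 1), (5, 0), (5,
      1), (5, 4)], [(0, 1)], [7], [(4, 0, []), (8, 1, [])]⟩]
  Ta := [((3, 5), 0, 4), ((3, 6), 0, 1), ((4, 0), 0, 2), ((4, 9), 0, 7), ((6, 3), 1, 0), ((6, 5),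
    1, 4), ((8, 7), 1, 6), ((8, 9), 1, 7)]
  Tb := [((0, 1, 4), 2, 5, 0), ((1, 0, 2), 5, 2, 3), ((2, 1, 5), 3, 5, 4), ((3, 5, 6), 0, 4, 1),
    ((4, 0, 9), 0, 2, 7), ((5, 2, 3), 4, 3, 0), ((5, 2, 6), 4, 3, 1), ((5, 2, 7), 4, 3, 6),
    ((5, 3, 6), 4, 0, 1), ((5, 3, 7), 4, 0, 6), ((5, 6, 7), 4, 1, 6), ((6, 3, 5), 1, 0, 4),
    ((7, 5, 8), 6, 4, 1), ((8, 7, 9), 1, 6, 7), ((9, 4, 8), 7, 0, 1)]
  Tc := [(2, 3, 4)]
  Td := [((2, 3), (0, 1), 5), ((2, 3), (0, 4), 0), ((2, 4), (0, 1), 5), ((2, 4), (0, 4), 0), ((3,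
    2), (2, 1), 5), ((3, 2), (2, 5), 4), ((4, 2), (5, 2), 3), ((4, 2), (5, 3), 0), ((4, 2),
    (5, 6), 1), ((4, 2), (5, 7), 6)]
  G := [[0, 0x6aae84286ace8224aace2426cce822cd, 0, 0x222d1428222d1824222d142222d142cd,
    0x222d1448222d1842222d144112d484ab], [0, 0, 0, 0x11cd842811cd482411cd42211cd282cd,
    0x11cd424811cd284218841c542c141c9a82ab], [0, 0, 0x222d1418222d4814222d8412e,
    0x222d1428222d1824222d182222d141cd, 0x222d8448222d8442225181225841ab], [0, 0,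
    0x4c5c8cc218cccd12144c4d18894c12e, 0x4ccd88c22844c8cdc224cccd121cccd121cd,
    0xc8cd4452484cc28c92c428c5844c8614ccd182ab]]

noncomputable def n2407 : Ent := ⟨e2407, noF, [], [], [(8, 14, [1685382413448253767852309107433119732572617628602273068445374754817, 0]), (9, 14, [1685382413448253767852309107433119732572617628602273068445374763009, 0])]⟩

def c2407 : PLift (Cov.check n2407.C.D v2407 = true) := ⟨by decide +kernel⟩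

def b2407 : PLift (entF (fidx ts) 400 2407 n2407 = true) := ⟨by decide +kernel⟩

theorem g2407 : GoodF (fidx ts) 400 2407 := GoodF.ofV v2407 n2407 c2407.down b2407.down

/-- 4746466:1942 -/
noncomputable def e2408 : SCfg where
  D := {
    a := 7
    L := 11
    kp := 8
    inn := [(0, 1), (1, 0), (1, 2), (1, 3), (2, 1), (3, 1), (3, 4), (3, 6), (4, 3), (4, 5), (4, 6), (5,
      4), (5, 6), (6, 3), (6, 4), (6, 5)]
    mix := [(0, 0), (0, 1), (0, 2), (1, 0), (1, 2), (1, 3), (1, 4), (2, 2), (2, 3), (2, 5), (3, 3), (3,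
      4), (3, 6), (4, 6), (5, 6), (5, 7), (5, 8), (5, 9), (6, 4), (6, 9), (6, 10)]
    cl := [2, 5, 3, 0, 0, 4, 1, 6, 7, 1, 8]
    chq := [(2, 3), (2, 4), (3, 2), (4, 2)]
    rng := [(0, 1), (0, 4), (1, 0), (1, 2), (2, 1), (2, 5), (3, 5), (3, 6), (4, 0), (4, 10), (5, 2),
      (5, 3), (6, 3), (6, 7), (7, 6), (7, 8), (8, 7), (8, 9), (9, 8), (9, 10), (10, 4), (10, 9)]
    lev := [] }
  links := [[1, 7, 8, 9], [7, 0, 9, 2, 10, 3, 11], [10, 1, 9, 12], [11, 1, 10, 13, 4, 6], [6, 3, 13, 5],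
    [6, 4, 13, 14, 15, 16], [11, 3, 4, 5, 16, 17]]
  P := {
    a := 7
    N := 18
    nb := [898, 3725, 5634, 11346, 8296, 122960, 198712, 2307, 641, 4359, 12302, 131274, 1540, 17464,
      40992, 81952, 163936, 67648]
    tri := [(0, 1, 7), (0, 1, 9), (0, 7, 8), (0, 8, 9), (1, 2, 9), (1, 2, 10), (1, 3, 10), (1, 3, 11),
      (1, 7, 11), (2, 9, 12), (2, 10, 12), (3, 4, 6), (3, 4, 13), (3, 6, 11), (3, 10, 13), (4, 5,
      6), (4, 5, 13), (5, 6, 16), (5, 13, 14), (5, 14, 15), (5, 15, 16), (6, 11, 17), (6, 16, 17)]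
    fin := [0, 0, 0, 3, 3, 5, 3, 0, 8, 9, 3, 3, 12, 5, 14, 15, 5, 17]
    chd := [(0, 9), (0, 12)]
    steps := [(0, 1), (0, 2), (0, 7), (3, 4), (3, 6), (3, 10), (3, 11), (5, 13), (5, 16)] }
  rep := [3, 5, 0, 9, 12, 8, 14, 15, 17]

noncomputable def v2408 : Cov.CovD where
  P := 3
  N := 6
  pl := [1, 7, 8, 10]
  lev := [⟨[], [], [(2, 3)], [5], [(0, 2, [3, 4]), (2, 3, [2])]⟩,
    ⟨[], [(0, 0), (0, 2), (0, 3)], [(0, 0), (0, 2), (0, 3), (2, 3)], [], [(0, 2, [3, 4]),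
      (2, 3, [2]), (3, 0, []), (4, 0, [])]⟩,
    ⟨[(0, 1)], [(0, 3), (1, 0), (1, 2), (1, 3), (1, 4)], [(0, 3), (0, 4), (3, 4)], [], [(2,
      3, [2]), (3, 0, []), (5, 4, [2])]⟩,
    ⟨[(0, 1), (1, 2)], [(1, 0), (1, 1), (1, 2), (1, 3), (2, 0)], [(0, 0), (0, 1)], [], [(3,
      0, []), (4, 0, []), (6, 1, [])]⟩,
    ⟨[(1, 3)], [(3, 0), (3, 1)], [], [], [(6, 1, [])]⟩,
    ⟨[(3, 4)], [(3, 1), (4, 1)], [(1, 1)], [6, 7], [(6, 1, []), (9, 1, [])]⟩,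
    ⟨[(1, 3), (3, 4), (3, 5), (4, 5)], [(1, 0), (3, 0), (3, 1), (4, 0), (4, 1), (5, 0), (5,
      1)], [(0, 1)], [8], [(4, 0, []), (9, 1, [])]⟩]
  Ta := [((3, 5), 0, 4), ((3, 6), 0, 1), ((4, 0), 0, 2), ((4, 10), 0, 8), ((6, 3), 1, 0), ((6,
    7), 1, 6), ((9, 8), 1, 7), ((9, 10), 1, 8)]
  Tb := [((0, 1, 4), 2, 5, 0), ((1, 0, 2), 5, 2, 3), ((2, 1, 5), 3, 5, 4), ((3, 5, 6), 0, 4, 1),
    ((4, 0, 10), 0, 2, 8), ((5, 2, 3), 4, 3, 0), ((6, 3, 7), 1, 0, 6), ((7, 6, 8), 6, 1, 7),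
    ((8, 7, 9), 7, 6, 1), ((9, 8, 10), 1, 7, 8), ((10, 4, 9), 8, 0, 1)]
  Tc := [(2, 3, 4)]
  Td := [((2, 3), (0, 1), 5), ((2, 3), (0, 4), 0), ((2, 4), (0, 1), 5), ((2, 4), (0, 4), 0), ((3,
    2), (2, 1), 5), ((3, 2), (2, 5), 4), ((4, 2), (5, 2), 3), ((4, 2), (5, 3), 0)]
  G := [[0, 0xaace42286a6e48246cce8226ace282cd, 0, 0x222d1428222d1824122d482222d482cd,
    0x222d1448222d1442212d844222d844ab], [0, 0, 0, 0x1814c1742811cd822411cd84211cd482cd,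
    0x11cd824811cd484211cd84411cd484ab], [0, 0, 0x222d1418222d1814222d8412e,
    0x222d8428222d1824222d182222d841cd, 0x222d8448222d8442222d484222d184ab], [0, 0,
    0xcccd1218c4cc9c214c41cc92c12e, 0x88944c4d8628cccd1224442c8cd2c2cc51c84a2cd,
    0xcccd1248c414c988cc42cccd124442c8cd1c4ab]]

noncomputable def n2408 : Ent := ⟨e2408, noF, [], [], [(8, 14, [7334790875878422277917280412776772662961875900559637987928627379314689, 0]), (8, 15, [7334790850167413569773436004105379185503274260204390087403942014500865, 0]), (9, 15, [7334790850167413569773436004105379185503274260204390087403942014509057, 0]), (12, 14, [7334790875878422277917280412776772662961875900559637987928627379335169, 0])]⟩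

def c2408 : PLift (Cov.check n2408.C.D v2408 = true) := ⟨by decide +kernel⟩

def b2408 : PLift (entF (fidx ts) 400 2408 n2408 = true) := ⟨by decide +kernel⟩

theorem g2408 : GoodF (fidx ts) 400 2408 := GoodF.ofV v2408 n2408 c2408.down b2408.down

/-- 4746466:1943/2 -/
noncomputable def e2409 : SCfg where
  D := {
    a := 7
    L := 9
    kp := 6
    inn := [(0, 1), (1, 0), (1, 2), (1, 3), (2, 1), (3, 1), (3, 4), (3, 6), (4, 3), (4, 5), (4, 6), (5,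
      4), (5, 6), (6, 3), (6, 4), (6, 5)]
    mix := [(0, 0), (0, 1), (0, 2), (1, 0), (1, 2), (1, 3), (1, 4), (2, 2), (2, 3), (2, 5), (3, 3), (3,
      4), (3, 6), (4, 6), (5, 1), (5, 2), (5, 6), (5, 7), (6, 1), (6, 3), (6, 8)]
    cl := [0, 1, 2, 0, 3, 5, 1, 6, 4]
    chq := [(0, 2), (2, 0), (3, 4), (4, 3)]
    rng := [(0, 1), (0, 4), (1, 0), (1, 2), (1, 8), (2, 1), (2, 5), (2, 7), (3, 5), (3, 8), (4, 0), (4,
      6), (5, 2), (5, 3), (6, 4), (6, 7), (7, 2), (7, 6), (8, 1), (8, 3)]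
    lev := [] }
  links := [[1, 7, 8, 9], [7, 0, 9, 2, 10, 3, 11], [10, 1, 9, 12], [11, 1, 10, 6, 4, 13], [13, 3, 6, 5],
    [13, 4, 6, 8, 9, 14], [8, 5, 4, 3, 10, 15]]
  P := {
    a := 7
    N := 16
    nb := [898, 3725, 5634, 11346, 8296, 25424, 34104, 2307, 33505, 20775, 36942, 8330, 1540, 18488,
      8736, 1344]
    tri := [(0, 1, 7), (0, 1, 9), (0, 7, 8), (0, 8, 9), (1, 2, 9), (1, 2, 10), (1, 3, 10), (1, 3, 11),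
      (1, 7, 11), (2, 9, 12), (2, 10, 12), (3, 4, 6), (3, 4, 13), (3, 6, 10), (3, 11, 13), (4, 5,
      6), (4, 5, 13), (5, 6, 8), (5, 8, 9), (5, 9, 14), (5, 13, 14), (6, 8, 15), (6, 10, 15)]
    fin := [0, 0, 0, 3, 4, 4, 3, 0, 4, 9, 0, 11, 12, 4, 14, 3]
    chd := [(0, 9), (11, 3)]
    steps := [(0, 1), (0, 2), (0, 7), (0, 10), (3, 6), (3, 15), (4, 5), (4, 8), (4, 13)] }
  rep := [0, 4, 9, 11, 3, 12, 14]

noncomputable def v2409 : Cov.CovD where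
  P := 3
  N := 4
  pl := [5, 7]
  lev := [⟨[], [], [(0, 1), (0, 2), (1, 2)], [], [(0, 0, [2]), (1, 1, []), (2, 2, [0])]⟩,
    ⟨[], [(0, 0), (0, 1), (0, 2), (0, 3)], [(0, 0), (0, 2), (0, 3), (2, 3)], [], [(0, 0,
      [2]), (2, 2, [0]), (3, 0, [2]), (4, 3, [4])]⟩,
    ⟨[(0, 1)], [(0, 2), (1, 0), (1, 2), (1, 3)], [(0, 2)], [5], [(2, 2, [0]), (3, 0, [2])]⟩,
    ⟨[(0, 1), (1, 2)], [(1, 0), (1, 1), (1, 2), (1, 3), (2, 0)], [(0, 1), (0, 3), (1, 3)],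
      [], [(3, 0, [2]), (4, 3, [4]), (6, 1, [])]⟩,
    ⟨[(1, 3)], [(3, 0), (3, 1), (3, 3)], [], [], [(6, 1, [])]⟩,
    ⟨[(3, 4)], [(0, 1), (0, 2), (1, 2), (2, 2), (3, 1), (4, 1), (4, 2)], [(1, 1), (1, 2)],
      [6], [(1, 1, []), (2, 2, [0]), (6, 1, [])]⟩,
    ⟨[(1, 3), (3, 4), (3, 5), (4, 5)], [(0, 1), (1, 0), (2, 0), (3, 0), (3, 1), (3, 3), (3,
      4), (4, 0), (4, 1), (4, 4), (5, 0), (5, 1), (5, 2), (5, 4)], [(0, 1), (0, 4), (1, 4)],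
      [], [(1, 1, []), (3, 0, [2]), (8, 4, [3])]⟩]
  Ta := [((0, 1), 0, 1), ((0, 4), 0, 3), ((1, 0), 1, 0), ((1, 2), 1, 2), ((1, 8), 1, 4), ((3, 5),
    0, 5), ((3, 8), 0, 4), ((6, 4), 1, 3), ((6, 7), 1, 6)]
  Tb := [((0, 1, 4), 0, 1, 3), ((1, 0, 2), 1, 0, 2), ((1, 0, 8), 1, 0, 4), ((1, 2, 8), 1, 2, 4),
    ((2, 1, 5), 2, 1, 5), ((2, 1, 7), 2, 1, 6), ((2, 5, 7), 2, 5, 6), ((3, 5, 8), 0, 5, 4),
    ((4, 0, 6), 3, 0, 1), ((5, 2, 3), 5, 2, 0), ((6, 4, 7), 1, 3, 6), ((7, 2, 6), 6, 2, 1),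
    ((8, 1, 3), 4, 1, 0)]
  Tc := []
  Td := [((0, 2), (0, 1), 1), ((0, 2), (0, 4), 3), ((0, 2), (3, 5), 5), ((0, 2), (3, 8), 4), ((2,
    0), (2, 1), 1), ((2, 0), (2, 5), 5), ((2, 0), (2, 7), 6), ((3, 4), (4, 0), 0), ((3, 4),
    (4, 6), 1), ((4, 3), (8, 1), 1), ((4, 3), (8, 3), 0)]
  G := [[0, 0x66c18168c121c4, 0xc181c141c24, 0x44982188c421c4, 0x44918892c128], [0, 0,
    0x218142141221818e8, 0, 0x22984142942298c1a8], [0, 0, 0xc121c121a24,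
    0x44c1244918c8851288512cc1, 0x44928892c44918891ca21], [0, 0, 0x214142141821412e4, 0,
    0x42912898c22984a22291422948a89]]

noncomputable def n2409 : Ent := ⟨e2409, noF, [], [], []⟩

def c2409 : PLift (Cov.check n2409.C.D v2409 = true) := ⟨by decide +kernel⟩

def b2409 : PLift (entF (fidx ts) 400 2409 n2409 = true) := ⟨by decide +kernel⟩

theorem g2409 : GoodF (fidx ts) 400 2409 := GoodF.ofV v2409 n2409 c2409.down b2409.down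

/-- 4746466:1943/3 -/
noncomputable def e2410 : SCfg where
  D := {
    a := 7
    L := 9
    kp := 6
    inn := [(0, 1), (1, 0), (1, 2), (1, 3), (2, 1), (3, 1), (3, 4), (3, 6), (4, 3), (4, 5), (4, 6), (5,
      4), (5, 6), (6, 3), (6, 4), (6, 5)]
    mix := [(0, 0), (0, 1), (0, 2), (1, 0), (1, 2), (1, 3), (1, 4), (2, 2), (2, 3), (2, 5), (3, 3), (3,
      4), (3, 6), (4, 6), (5, 1), (5, 6), (5, 7), (5, 8), (6, 1), (6, 3), (6, 5)]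
    cl := [0, 1, 3, 0, 2, 4, 1, 5, 6]
    chq := [(0, 3), (2, 4), (3, 0), (4, 2)]
    rng := [(0, 1), (0, 4), (1, 0), (1, 2), (1, 5), (1, 7), (2, 1), (2, 5), (3, 5), (4, 0), (4, 6), (5,
      1), (5, 2), (5, 3), (6, 4), (6, 8), (7, 1), (7, 8), (8, 6), (8, 7)]
    lev := [] }
  links := [[1, 7, 8, 9], [7, 0, 9, 2, 10, 3, 11], [10, 1, 9, 12], [11, 1, 10, 6, 4, 13], [13, 3, 6, 5],
    [13, 4, 6, 8, 14, 15], [8, 5, 4, 3, 10, 12]]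
  P := {
    a := 7
    N := 16
    nb := [898, 3725, 5634, 11346, 8296, 57680, 5432, 2307, 21217, 4359, 4174, 8330, 1860, 34872,
      33056, 24608]
    tri := [(0, 1, 7), (0, 1, 9), (0, 7, 8), (0, 8, 9), (1, 2, 9), (1, 2, 10), (1, 3, 10), (1, 3, 11),
      (1, 7, 11), (2, 9, 12), (2, 10, 12), (3, 4, 6), (3, 4, 13), (3, 6, 10), (3, 11, 13), (4, 5,
      6), (4, 5, 13), (5, 6, 8), (5, 8, 14), (5, 13, 15), (5, 14, 15), (6, 8, 12), (6, 10, 12)]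
    fin := [0, 0, 0, 3, 4, 4, 3, 0, 4, 9, 0, 11, 3, 4, 14, 15]
    chd := [(0, 9), (11, 3)]
    steps := [(0, 1), (0, 2), (0, 7), (0, 10), (3, 6), (3, 12), (4, 5), (4, 8), (4, 13)] }
  rep := [0, 4, 11, 9, 3, 14, 15]

noncomputable def v2410 : Cov.CovD where
  P := 3
  N := 4
  pl := [7, 8]
  lev := [⟨[], [], [(0, 1), (0, 3), (1, 3)], [], [(0, 0, [3]), (1, 1, []), (2, 3, [0])]⟩,
    ⟨[], [(0, 0), (0, 1), (0, 2), (0, 3)], [(0, 0), (0, 2), (0, 3), (2, 3)], [], [(0, 0,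
      [3]), (2, 3, [0]), (3, 0, [3]), (4, 2, [4])]⟩,
    ⟨[(0, 1)], [(0, 3), (1, 0), (1, 2), (1, 3), (1, 4)], [(0, 3), (0, 4), (3, 4)], [], [(2,
      3, [0]), (3, 0, [3]), (5, 4, [2])]⟩,
    ⟨[(0, 1), (1, 2)], [(1, 0), (1, 1), (1, 2), (1, 3), (2, 0)], [(0, 1), (0, 2), (1, 2)],
      [], [(3, 0, [3]), (4, 2, [4]), (6, 1, [])]⟩,
    ⟨[(1, 3)], [(3, 0), (3, 1), (3, 2)], [], [], [(6, 1, [])]⟩,
    ⟨[(3, 4)], [(0, 1), (3, 1), (4, 1)], [(1, 1)], [5, 6], [(1, 1, []), (6, 1, [])]⟩,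
    ⟨[(1, 3), (3, 4), (3, 5), (4, 5)], [(0, 1), (1, 0), (2, 0), (2, 4), (3, 0), (3, 1), (3,
      2), (3, 4), (4, 0), (4, 1), (4, 4), (5, 0), (5, 1), (5, 4)], [(0, 1), (0, 4), (1, 4)],
      [], [(1, 1, []), (3, 0, [3]), (5, 4, [2])]⟩]
  Ta := [((0, 1), 0, 1), ((0, 4), 0, 2), ((1, 0), 1, 0), ((1, 2), 1, 3), ((1, 5), 1, 4), ((1, 7),
    1, 5), ((3, 5), 0, 4), ((6, 4), 1, 2), ((6, 8), 1, 6)]
  Tb := [((0, 1, 4), 0, 1, 2), ((1, 0, 2), 1, 0, 3), ((1, 0, 5), 1, 0, 4), ((1, 0, 7), 1, 0, 5),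
    ((1, 2, 5), 1, 3, 4), ((1, 2, 7), 1, 3, 5), ((1, 5, 7), 1, 4, 5), ((2, 1, 5), 3, 1, 4),
    ((4, 0, 6), 2, 0, 1), ((5, 1, 2), 4, 1, 3), ((5, 1, 3), 4, 1, 0), ((5, 2, 3), 4, 3, 0),
    ((6, 4, 8), 1, 2, 6), ((7, 1, 8), 5, 1, 6), ((8, 6, 7), 6, 1, 5)]
  Tc := []
  Td := [((0, 3), (0, 1), 1), ((0, 3), (0, 4), 2), ((0, 3), (3, 5), 4), ((2, 4), (4, 0), 0), ((2,
    4), (4, 6), 1), ((3, 0), (2, 1), 1), ((3, 0), (2, 5), 4), ((4, 2), (5, 1), 1), ((4, 2),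
    (5, 2), 3), ((4, 2), (5, 3), 0)]
  G := [[0, 0x226e8418226e1814c, 0x8c5c4c52184c52c8c4a14c, 0, 0x4c4d121811cd2842c], [0, 0,
    0x11cd84211cd482c2, 0x229245418222d8124c, 0x122d4822222d4122c], [0, 0, 0, 0,
    0xcccd1248488d4842484d48444d28a2d], [0, 0, 0, 0x222d1428222d4824c, 0x222d4822222d48225]]

noncomputable def n2410 : Ent := ⟨e2410, noF, [], [], []⟩

def c2410 : PLift (Cov.check n2410.C.D v2410 = true) := ⟨by decide +kernel⟩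

def b2410 : PLift (entF (fidx ts) 400 2410 n2410 = true) := ⟨by decide +kernel⟩

theorem g2410 : GoodF (fidx ts) 400 2410 := GoodF.ofV v2410 n2410 c2410.down b2410.down

/-- 4746466:1943/1 -/
noncomputable def e2411 : SCfg where
  D := {
    a := 7
    L := 10
    kp := 7
    inn := [(0, 1), (1, 0), (1, 2), (1, 3), (2, 1), (3, 1), (3, 4), (3, 6), (4, 3), (4, 5), (4, 6), (5,
      4), (5, 6), (6, 3), (6, 4), (6, 5)]
    mix := [(0, 0), (0, 1), (0, 2), (1, 0), (1, 2), (1, 3), (1, 4), (2, 2), (2, 3), (2, 5), (3, 3), (3,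
      4), (3, 6), (4, 6), (5, 1), (5, 6), (5, 7), (5, 8), (6, 1), (6, 3), (6, 9)]
    cl := [0, 1, 3, 0, 2, 5, 1, 6, 7, 4]
    chq := [(0, 3), (2, 4), (3, 0), (4, 2)]
    rng := [(0, 1), (0, 4), (1, 0), (1, 2), (1, 7), (1, 9), (2, 1), (2, 5), (3, 5), (3, 9), (4, 0), (4,
      6), (5, 2), (5, 3), (6, 4), (6, 8), (7, 1), (7, 8), (8, 6), (8, 7), (9, 1), (9, 3)]
    lev := [] }
  links := [[1, 7, 8, 9], [7, 0, 9, 2, 10, 3, 11], [10, 1, 9, 12], [11, 1, 10, 6, 4, 13], [13, 3, 6, 5],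
    [13, 4, 6, 8, 14, 15], [8, 5, 4, 3, 10, 16]]
  P := {
    a := 7
    N := 17
    nb := [898, 3725, 5634, 11346, 8296, 57680, 66872, 2307, 82657, 4359, 69710, 8330, 1540, 34872,
      33056, 24608, 1344]
    tri := [(0, 1, 7), (0, 1, 9), (0, 7, 8), (0, 8, 9), (1, 2, 9), (1, 2, 10), (1, 3, 10), (1, 3, 11),
      (1, 7, 11), (2, 9, 12), (2, 10, 12), (3, 4, 6), (3, 4, 13), (3, 6, 10), (3, 11, 13), (4, 5,
      6), (4, 5, 13), (5, 6, 8), (5, 8, 14), (5, 13, 15), (5, 14, 15), (6, 8, 16), (6, 10, 16)]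
    fin := [0, 0, 0, 3, 4, 4, 3, 0, 4, 9, 0, 11, 12, 4, 14, 15, 3]
    chd := [(0, 9), (11, 3)]
    steps := [(0, 1), (0, 2), (0, 7), (0, 10), (3, 6), (3, 16), (4, 5), (4, 8), (4, 13)] }
  rep := [0, 4, 11, 9, 3, 12, 14, 15]

noncomputable def v2411 : Cov.CovD where
  P := 3
  N := 5
  pl := [5, 7, 8]
  lev := [⟨[], [], [(0, 1), (0, 3), (1, 3)], [], [(0, 0, [3]), (1, 1, []), (2, 3, [0])]⟩,
    ⟨[], [(0, 0), (0, 1), (0, 2), (0, 3)], [(0, 0), (0, 2), (0, 3), (2, 3)], [], [(0, 0,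
      [3]), (2, 3, [0]), (3, 0, [3]), (4, 2, [4])]⟩,
    ⟨[(0, 1)], [(0, 3), (1, 0), (1, 2), (1, 3)], [(0, 3)], [5], [(2, 3, [0]), (3, 0, [3])]⟩,
    ⟨[(0, 1), (1, 2)], [(1, 0), (1, 1), (1, 2), (1, 3), (2, 0)], [(0, 1), (0, 2), (1, 2)],
      [], [(3, 0, [3]), (4, 2, [4]), (6, 1, [])]⟩,
    ⟨[(1, 3)], [(3, 0), (3, 1), (3, 2)], [], [], [(6, 1, [])]⟩,
    ⟨[(3, 4)], [(0, 1), (3, 1), (4, 1)], [(1, 1)], [6, 7], [(1, 1, []), (6, 1, [])]⟩,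
    ⟨[(1, 3), (3, 4), (3, 5), (4, 5)], [(0, 1), (1, 0), (2, 0), (3, 0), (3, 1), (3, 2), (3,
      4), (4, 0), (4, 1), (4, 4), (5, 0), (5, 1), (5, 4)], [(0, 1), (0, 4), (1, 4)], [], [(1,
      1, []), (3, 0, [3]), (9, 4, [2])]⟩]
  Ta := [((0, 1), 0, 1), ((0, 4), 0, 2), ((1, 0), 1, 0), ((1, 2), 1, 3), ((1, 7), 1, 6), ((1, 9),
    1, 4), ((3, 5), 0, 5), ((3, 9), 0, 4), ((6, 4), 1, 2), ((6, 8), 1, 7)]
  Tb := [((0, 1, 4), 0, 1, 2), ((1, 0, 2), 1, 0, 3), ((1, 0, 7), 1, 0, 6), ((1, 0, 9), 1, 0, 4),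
    ((1, 2, 7), 1, 3, 6), ((1, 2, 9), 1, 3, 4), ((1, 7, 9), 1, 6, 4), ((2, 1, 5), 3, 1, 5),
    ((3, 5, 9), 0, 5, 4), ((4, 0, 6), 2, 0, 1), ((5, 2, 3), 5, 3, 0), ((6, 4, 8), 1, 2, 7),
    ((7, 1, 8), 6, 1, 7), ((8, 6, 7), 7, 1, 6), ((9, 1, 3), 4, 1, 0)]
  Tc := []
  Td := [((0, 3), (0, 1), 1), ((0, 3), (0, 4), 2), ((0, 3), (3, 5), 5), ((0, 3), (3, 9), 4), ((2,
    4), (4, 0), 0), ((2, 4), (4, 6), 1), ((3, 0), (2, 1), 1), ((3, 0), (2, 5), 5), ((4, 2),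
    (9, 1), 1), ((4, 2), (9, 3), 0)]
  G := [[0, 0x22ce1418226e1814c, 0xc4cc99218cccd1214c, 0, 0x4c4d121811c41684c4d2162c], [0, 0,
    0x222d4812222d4812c, 0x222d1418222d482411cd4844e, 0x424d1812222d41422d1862c], [0, 0, 0,
    0, 0x4c4d824c4d82c4c4d284a4c4d184c4d18a25], [0, 0, 0,
    0x222d4124229c468222d1824222d148222d484cd, 0x222d1882424d1842424d1822d]]

noncomputable def n2411 : Ent := ⟨e2411, noF, [], [], [(9, 14, [1685382413448253767852309107433119732572617628602273068445374779393, 0]), (12, 16, [1580044410770988437309982408355971841652082177953823432505698983937, 0])]⟩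

def c2411 : PLift (Cov.check n2411.C.D v2411 = true) := ⟨by decide +kernel⟩

def b2411 : PLift (entF (fidx ts) 400 2411 n2411 = true) := ⟨by decide +kernel⟩

theorem g2411 : GoodF (fidx ts) 400 2411 := GoodF.ofV v2411 n2411 c2411.down b2411.down

/-- 4746466:1943/5 -/
noncomputable def e2412 : SCfg where
  D := {
    a := 7
    L := 9
    kp := 6
    inn := [(0, 1), (1, 0), (1, 2), (1, 3), (2, 1), (3, 1), (3, 4), (3, 6), (4, 3), (4, 5), (4, 6), (5,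
      4), (5, 6), (6, 3), (6, 4), (6, 5)]
    mix := [(0, 0), (0, 1), (0, 2), (1, 0), (1, 2), (1, 3), (1, 4), (2, 2), (2, 3), (2, 5), (3, 3), (3,
      4), (3, 6), (4, 6), (5, 1), (5, 6), (5, 7), (5, 8), (6, 3), (6, 5), (6, 7)]
    cl := [0, 5, 1, 0, 2, 4, 3, 3, 6]
    chq := [(0, 1), (1, 0), (2, 4), (4, 2)]
    rng := [(0, 1), (0, 4), (1, 0), (1, 2), (1, 7), (1, 8), (2, 1), (2, 5), (3, 5), (4, 0), (4, 6), (5,
      2), (5, 3), (5, 7), (6, 4), (6, 8), (7, 1), (7, 5), (8, 1), (8, 6)]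
    lev := [] }
  links := [[1, 7, 8, 9], [7, 0, 9, 2, 10, 3, 11], [10, 1, 9, 12], [11, 1, 10, 6, 4, 13], [13, 3, 6, 5],
    [13, 4, 6, 14, 8, 15], [14, 5, 4, 3, 10, 12]]
  P := {
    a := 7
    N := 16
    nb := [898, 3725, 5634, 11346, 8296, 57680, 21560, 2307, 49825, 4359, 4174, 8330, 17988, 34872,
      4448, 8480]
    tri := [(0, 1, 7), (0, 1, 9), (0, 7, 8), (0, 8, 9), (1, 2, 9), (1, 2, 10), (1, 3, 10), (1, 3, 11),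
      (1, 7, 11), (2, 9, 12), (2, 10, 12), (3, 4, 6), (3, 4, 13), (3, 6, 10), (3, 11, 13), (4, 5,
      6), (4, 5, 13), (5, 6, 14), (5, 8, 14), (5, 8, 15), (5, 13, 15), (6, 10, 12), (6, 12, 14)]
    fin := [0, 0, 0, 3, 3, 5, 3, 0, 8, 9, 0, 11, 3, 5, 5, 15]
    chd := [(0, 9), (11, 3)]
    steps := [(0, 1), (0, 2), (0, 7), (0, 10), (3, 4), (3, 6), (3, 12), (5, 14), (5, 13)] }
  rep := [0, 9, 11, 5, 3, 8, 15]

noncomputable def v2412 : Cov.CovD where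
  P := 3
  N := 4
  pl := [1, 8]
  lev := [⟨[], [], [(0, 1)], [5], [(0, 0, [1]), (2, 1, [0])]⟩,
    ⟨[], [(0, 0), (0, 1), (0, 2)], [(0, 0), (0, 1), (0, 2), (1, 2)], [], [(0, 0, [1]), (2,
      1, [0]), (3, 0, [1]), (4, 2, [4])]⟩,
    ⟨[(0, 1)], [(0, 1), (1, 0), (1, 1), (1, 2), (1, 4)], [(0, 1), (0, 4), (1, 4)], [], [(2,
      1, [0]), (3, 0, [1]), (5, 4, [2])]⟩,
    ⟨[(0, 1), (1, 2)], [(1, 0), (1, 1), (1, 2), (1, 3), (2, 0)], [(0, 2), (0, 3), (2, 3)],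
      [], [(3, 0, [1]), (4, 2, [4]), (6, 3, [])]⟩,
    ⟨[(1, 3)], [(3, 0), (3, 2), (3, 3)], [], [], [(6, 3, [])]⟩,
    ⟨[(3, 4)], [(3, 3), (4, 3)], [(3, 3)], [5, 6], [(6, 3, []), (7, 3, [])]⟩,
    ⟨[(1, 3), (3, 4), (3, 5), (4, 5)], [(1, 0), (2, 0), (2, 4), (3, 0), (3, 2), (3, 3), (3,
      4), (4, 0), (4, 3), (4, 4), (5, 0), (5, 3), (5, 4)], [(0, 3), (0, 4), (3, 4)], [], [(3,
      0, [1]), (5, 4, [2]), (7, 3, [])]⟩]
  Ta := [((0, 1), 0, 5), ((0, 4), 0, 2), ((3, 5), 0, 4), ((6, 4), 3, 2), ((6, 8), 3, 6), ((7, 1),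
    3, 5), ((7, 5), 3, 4)]
  Tb := [((0, 1, 4), 0, 5, 2), ((1, 0, 2), 5, 0, 1), ((1, 0, 7), 5, 0, 3), ((1, 0, 8), 5, 0, 6),
    ((1, 2, 7), 5, 1, 3), ((1, 2, 8), 5, 1, 6), ((1, 7, 8), 5, 3, 6), ((2, 1, 5), 1, 5, 4),
    ((4, 0, 6), 2, 0, 3), ((5, 2, 3), 4, 1, 0), ((5, 2, 7), 4, 1, 3), ((5, 3, 7), 4, 0, 3),
    ((6, 4, 8), 3, 2, 6), ((7, 1, 5), 3, 5, 4), ((8, 1, 6), 6, 5, 3)]
  Tc := []
  Td := [((0, 1), (0, 1), 5), ((0, 1), (0, 4), 2), ((0, 1), (3, 5), 4), ((1, 0), (2, 1), 5), ((1,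
    0), (2, 5), 4), ((2, 4), (4, 0), 0), ((2, 4), (4, 6), 3), ((4, 2), (5, 2), 1), ((4, 2),
    (5, 3), 0), ((4, 2), (5, 7), 3)]
  G := [[0, 0x449228a887ac2444472822274868a, 0x2886f14184246f1818c, 0x222b8464182227489814c,
    0xa8ce42a94348244464497818c], [0, 0x2848222d48c422514882e271428e,
    0x22e4eb6418122822ee5a894c, 0x222b141822278418c, 0x444b8218ddc78248c], [0,
    0xcac24a92528422622d883ac286, 0, 0x28886825b442c24a2178c81, 0x22c61544a8887ca481], [0,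
    0x2422968242d18c4bba74824a, 0, 0x2222f842222f84c81, 0x228ce4ef16481]]

noncomputable def n2412 : Ent := ⟨e2412, noF, [], [], []⟩

def c2412 : PLift (Cov.check n2412.C.D v2412 = true) := ⟨by decide +kernel⟩

def b2412 : PLift (entF (fidx ts) 400 2412 n2412 = true) := ⟨by decide +kernel⟩

theorem g2412 : GoodF (fidx ts) 400 2412 := GoodF.ofV v2412 n2412 c2412.down b2412.down

/-- 4746466:1943/4 -/
noncomputable def e2413 : SCfg where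
  D := {
    a := 7
    L := 10
    kp := 7
    inn := [(0, 1), (1, 0), (1, 2), (1, 3), (2, 1), (3, 1), (3, 4), (3, 6), (4, 3), (4, 5), (4, 6), (5,
      4), (5, 6), (6, 3), (6, 4), (6, 5)]
    mix := [(0, 0), (0, 1), (0, 2), (1, 0), (1, 2), (1, 3), (1, 4), (2, 2), (2, 3), (2, 5), (3, 3), (3,
      4), (3, 6), (4, 6), (5, 1), (5, 6), (5, 7), (5, 8), (6, 3), (6, 7), (6, 9)]
    cl := [1, 2, 4, 0, 0, 5, 3, 3, 6, 7]
    chq := [(1, 4), (1, 5), (4, 1), (5, 1)]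
    rng := [(0, 1), (0, 4), (1, 0), (1, 2), (1, 7), (1, 8), (2, 1), (2, 5), (3, 5), (3, 9), (4, 0), (4,
      6), (5, 2), (5, 3), (6, 4), (6, 8), (7, 1), (7, 9), (8, 1), (8, 6), (9, 3), (9, 7)]
    lev := [] }
  links := [[1, 7, 8, 9], [7, 0, 9, 2, 10, 3, 11], [10, 1, 9, 12], [11, 1, 10, 6, 4, 13], [13, 3, 6, 5],
    [13, 4, 6, 14, 8, 15], [14, 5, 4, 3, 10, 16]]
  P := {
    a := 7
    N := 17
    nb := [898, 3725, 5634, 11346, 8296, 57680, 83000, 2307, 49825, 4359, 69710, 8330, 1540, 34872,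
      65888, 8480, 17472]
    tri := [(0, 1, 7), (0, 1, 9), (0, 7, 8), (0, 8, 9), (1, 2, 9), (1, 2, 10), (1, 3, 10), (1, 3, 11),
      (1, 7, 11), (2, 9, 12), (2, 10, 12), (3, 4, 6), (3, 4, 13), (3, 6, 10), (3, 11, 13), (4, 5,
      6), (4, 5, 13), (5, 6, 14), (5, 8, 14), (5, 8, 15), (5, 13, 15), (6, 10, 16), (6, 14, 16)]
    fin := [0, 0, 0, 3, 3, 5, 3, 0, 8, 9, 3, 3, 12, 5, 5, 15, 16]
    chd := [(0, 9), (0, 12)]
    steps := [(0, 1), (0, 2), (0, 7), (3, 4), (3, 6), (3, 10), (3, 11), (5, 14), (5, 13)] }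
  rep := [3, 0, 8, 5, 9, 12, 15, 16]

noncomputable def v2413 : Cov.CovD where
  P := 3
  N := 5
  pl := [1, 8, 9]
  lev := [⟨[], [], [(1, 4)], [2], [(0, 1, [4, 5]), (2, 4, [1])]⟩,
    ⟨[], [(0, 0), (0, 1), (0, 4)], [(0, 0), (0, 1), (0, 4), (1, 4)], [], [(0, 1, [4, 5]),
      (2, 4, [1]), (3, 0, []), (4, 0, [])]⟩,
    ⟨[(0, 1)], [(0, 4), (1, 0), (1, 1), (1, 4), (1, 5)], [(0, 4), (0, 5), (4, 5)], [], [(2,
      4, [1]), (3, 0, []), (5, 5, [1])]⟩,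
    ⟨[(0, 1), (1, 2)], [(1, 0), (1, 1), (1, 3), (1, 4), (2, 0)], [(0, 0), (0, 3)], [], [(3,
      0, []), (4, 0, []), (6, 3, [])]⟩,
    ⟨[(1, 3)], [(3, 0), (3, 3)], [], [], [(6, 3, [])]⟩,
    ⟨[(3, 4)], [(3, 3), (4, 3)], [(3, 3)], [2, 6], [(6, 3, []), (7, 3, [])]⟩,
    ⟨[(1, 3), (3, 4), (3, 5), (4, 5)], [(1, 0), (2, 0), (3, 0), (3, 3), (4, 0), (4, 3), (5,
      0), (5, 3)], [(0, 3)], [7], [(3, 0, []), (7, 3, [])]⟩]
  Ta := [((3, 5), 0, 5), ((3, 9), 0, 7), ((4, 0), 0, 1), ((4, 6), 0, 3), ((6, 4), 3, 0), ((6, 8),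
    3, 6), ((7, 1), 3, 2), ((7, 9), 3, 7)]
  Tb := [((0, 1, 4), 1, 2, 0), ((1, 0, 2), 2, 1, 4), ((1, 0, 7), 2, 1, 3), ((1, 0, 8), 2, 1, 6),
    ((1, 2, 7), 2, 4, 3), ((1, 2, 8), 2, 4, 6), ((1, 7, 8), 2, 3, 6), ((2, 1, 5), 4, 2, 5),
    ((3, 5, 9), 0, 5, 7), ((4, 0, 6), 0, 1, 3), ((5, 2, 3), 5, 4, 0), ((6, 4, 8), 3, 0, 6),
    ((7, 1, 9), 3, 2, 7), ((8, 1, 6), 6, 2, 3), ((9, 3, 7), 7, 0, 3)]
  Tc := [(1, 4, 5)]
  Td := [((1, 4), (0, 1), 2), ((1, 4), (0, 4), 0), ((1, 5), (0, 1), 2), ((1, 5), (0, 4), 0), ((4,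
    1), (2, 1), 2), ((4, 1), (2, 5), 5), ((5, 1), (5, 2), 4), ((5, 1), (5, 3), 0)]
  G := [[0, 0, 0x2ac14ca162862c18c61a24c, 0x48cd222848cd12249, 0x286b142828ab14249], [0, 0,
    0xe2ee1c48628e24eec1a24c, 0xa6ed1228a6ed1224c, 0xc6eb1428221c4eb1a249], [0,
    0x48ad121848cd2214c, 0x2ac14ca162862c18c61a24c, 0xcccd2228cccd2224c,
    0xaaab442822a88aa1b4149], [0, 0xae916416182eed2882a14c, 0x111e8428111e8224c,
    0x11ed242811ed4224c, 0x11eb422811eb82249]]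

noncomputable def n2413 : Ent := ⟨e2413, noF, [], [], [(12, 16, [1580044410770988437309982408355971841652082177953823432505698992129, 0])]⟩

def c2413 : PLift (Cov.check n2413.C.D v2413 = true) := ⟨by decide +kernel⟩

def b2413 : PLift (entF (fidx ts) 400 2413 n2413 = true) := ⟨by decide +kernel⟩

theorem g2413 : GoodF (fidx ts) 400 2413 := GoodF.ofV v2413 n2413 c2413.down b2413.down

/-- 4746466:1943/7 -/
noncomputable def e2414 : SCfg where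
  D := {
    a := 7
    L := 9
    kp := 6
    inn := [(0, 1), (1, 0), (1, 2), (1, 3), (2, 1), (3, 1), (3, 4), (3, 6), (4, 3), (4, 5), (4, 6), (5,
      4), (5, 6), (6, 3), (6, 4), (6, 5)]
    mix := [(0, 0), (0, 1), (0, 2), (1, 0), (1, 2), (1, 3), (1, 4), (2, 2), (2, 3), (2, 5), (3, 3), (3,
      4), (3, 6), (4, 6), (5, 1), (5, 2), (5, 6), (5, 7), (6, 3), (6, 7), (6, 8)]
    cl := [0, 4, 1, 0, 2, 6, 3, 3, 5]
    chq := [(0, 1), (1, 0), (2, 5), (5, 2)]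
    rng := [(0, 1), (0, 4), (1, 0), (1, 2), (1, 6), (2, 1), (2, 5), (2, 7), (3, 5), (3, 8), (4, 0), (4,
      6), (5, 2), (5, 3), (6, 1), (6, 4), (7, 2), (7, 8), (8, 3), (8, 7)]
    lev := [] }
  links := [[1, 7, 8, 9], [7, 0, 9, 2, 10, 3, 11], [10, 1, 9, 12], [11, 1, 10, 6, 4, 13], [13, 3, 6, 5],
    [13, 4, 6, 14, 9, 8], [14, 5, 4, 3, 10, 15]]
  P := {
    a := 7
    N := 16
    nb := [898, 3725, 5634, 11346, 8296, 25424, 50232, 2307, 8865, 20775, 36942, 8330, 1540, 2360,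
      33376, 17472]
    tri := [(0, 1, 7), (0, 1, 9), (0, 7, 8), (0, 8, 9), (1, 2, 9), (1, 2, 10), (1, 3, 10), (1, 3, 11),
      (1, 7, 11), (2, 9, 12), (2, 10, 12), (3, 4, 6), (3, 4, 13), (3, 6, 10), (3, 11, 13), (4, 5,
      6), (4, 5, 13), (5, 6, 14), (5, 8, 9), (5, 8, 13), (5, 9, 14), (6, 10, 15), (6, 14, 15)]
    fin := [0, 0, 0, 3, 3, 5, 3, 0, 8, 9, 0, 11, 12, 5, 5, 3]
    chd := [(0, 9), (11, 3)]
    steps := [(0, 1), (0, 2), (0, 7), (0, 10), (3, 4), (3, 6), (3, 15), (5, 14), (5, 13)] }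
  rep := [0, 9, 11, 5, 8, 3, 12]

noncomputable def v2414 : Cov.CovD where
  P := 3
  N := 4
  pl := [1, 5]
  lev := [⟨[], [], [(0, 1)], [4], [(0, 0, [1]), (2, 1, [0])]⟩,
    ⟨[], [(0, 0), (0, 1), (0, 2)], [(0, 0), (0, 1), (0, 2), (1, 2)], [], [(0, 0, [1]), (2,
      1, [0]), (3, 0, [1]), (4, 2, [5])]⟩,
    ⟨[(0, 1)], [(0, 1), (1, 0), (1, 1), (1, 2)], [(0, 1)], [6], [(2, 1, [0]), (3, 0, [1])]⟩,
    ⟨[(0, 1), (1, 2)], [(1, 0), (1, 1), (1, 2), (1, 3), (2, 0)], [(0, 2), (0, 3), (2, 3)],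
      [], [(3, 0, [1]), (4, 2, [5]), (6, 3, [])]⟩,
    ⟨[(1, 3)], [(3, 0), (3, 2), (3, 3)], [], [], [(6, 3, [])]⟩,
    ⟨[(3, 4)], [(0, 1), (1, 1), (2, 1), (3, 3), (4, 1), (4, 3)], [(1, 3), (3, 3)], [4],
      [(2, 1, [0]), (6, 3, []), (7, 3, [])]⟩,
    ⟨[(1, 3), (3, 4), (3, 5), (4, 5)], [(1, 0), (2, 0), (3, 0), (3, 2), (3, 3), (3, 5), (4,
      0), (4, 3), (4, 5), (5, 0), (5, 1), (5, 3), (5, 5)], [(0, 3), (0, 5), (3, 5)], [], [(3,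
      0, [1]), (7, 3, []), (8, 5, [2])]⟩]
  Ta := [((0, 1), 0, 4), ((0, 4), 0, 2), ((3, 5), 0, 6), ((3, 8), 0, 5), ((6, 1), 3, 4), ((6, 4),
    3, 2), ((7, 2), 3, 1), ((7, 8), 3, 5)]
  Tb := [((0, 1, 4), 0, 4, 2), ((1, 0, 2), 4, 0, 1), ((1, 0, 6), 4, 0, 3), ((1, 2, 6), 4, 1, 3),
    ((2, 1, 5), 1, 4, 6), ((2, 1, 7), 1, 4, 3), ((2, 5, 7), 1, 6, 3), ((3, 5, 8), 0, 6, 5),
    ((4, 0, 6), 2, 0, 3), ((5, 2, 3), 6, 1, 0), ((6, 1, 4), 3, 4, 2), ((7, 2, 8), 3, 1, 5),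
    ((8, 3, 7), 5, 0, 3)]
  Tc := []
  Td := [((0, 1), (0, 1), 4), ((0, 1), (0, 4), 2), ((0, 1), (3, 5), 6), ((0, 1), (3, 8), 5), ((1,
    0), (2, 1), 4), ((1, 0), (2, 5), 6), ((1, 0), (2, 7), 3), ((2, 5), (4, 0), 0), ((2, 5),
    (4, 6), 3), ((5, 2), (8, 3), 0), ((5, 2), (8, 7), 3)]
  G := [[0, 0xa12128c1218421882121c1c4e, 0xc11214a11214c, 0x682812c14412a42c18c,
    0x4492218c452218c], [0, 0x218184218124218144e, 0xe12418e14814c, 0x22948142251418c,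
    0x4491218e41218c], [0, 0xc121c121a42141612182a168a, 0, 0x664d2811c428416a852c8c1,
    0x4c4d224c4d22c81], [0, 0x218144214824218184e, 0, 0x222d84222d84c81, 0x4a4d82464d12c81]]

noncomputable def n2414 : Ent := ⟨e2414, noF, [], [], []⟩

def c2414 : PLift (Cov.check n2414.C.D v2414 = true) := ⟨by decide +kernel⟩

def b2414 : PLift (entF (fidx ts) 400 2414 n2414 = true) := ⟨by decide +kernel⟩

theorem g2414 : GoodF (fidx ts) 400 2414 := GoodF.ofV v2414 n2414 c2414.down b2414.down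

/-- 4746466:1943/8 -/
noncomputable def e2415 : SCfg where
  D := {
    a := 7
    L := 9
    kp := 6
    inn := [(0, 1), (1, 0), (1, 2), (1, 3), (2, 1), (3, 1), (3, 4), (3, 6), (4, 3), (4, 5), (4, 6), (5,
      4), (5, 6), (6, 3), (6, 4), (6, 5)]
    mix := [(0, 0), (0, 1), (0, 2), (1, 0), (1, 2), (1, 3), (1, 4), (2, 2), (2, 3), (2, 5), (3, 3), (3,
      4), (3, 6), (4, 6), (5, 1), (5, 6), (5, 7), (5, 8), (6, 3), (6, 5), (6, 7)]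
    cl := [0, 5, 1, 0, 2, 4, 3, 3, 6]
    chq := [(0, 1), (1, 0), (2, 4), (4, 2)]
    rng := [(0, 1), (0, 4), (1, 0), (1, 2), (1, 6), (1, 8), (2, 1), (2, 5), (3, 5), (4, 0), (4, 6), (5,
      2), (5, 3), (5, 7), (6, 1), (6, 4), (7, 5), (7, 8), (8, 1), (8, 7)]
    lev := [] }
  links := [[1, 7, 8, 9], [7, 0, 9, 2, 10, 3, 11], [10, 1, 9, 12], [11, 1, 10, 6, 4, 13], [13, 3, 6, 5],
    [13, 4, 6, 14, 15, 8], [14, 5, 4, 3, 10, 12]]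
  P := {
    a := 7
    N := 16
    nb := [898, 3725, 5634, 11346, 8296, 57680, 21560, 2307, 41633, 4359, 4174, 8330, 17988, 2360,
      36960, 16672]
    tri := [(0, 1, 7), (0, 1, 9), (0, 7, 8), (0, 8, 9), (1, 2, 9), (1, 2, 10), (1, 3, 10), (1, 3, 11),
      (1, 7, 11), (2, 9, 12), (2, 10, 12), (3, 4, 6), (3, 4, 13), (3, 6, 10), (3, 11, 13), (4, 5,
      6), (4, 5, 13), (5, 6, 14), (5, 8, 13), (5, 8, 15), (5, 14, 15), (6, 10, 12), (6, 12, 14)]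
    fin := [0, 0, 0, 3, 3, 5, 3, 0, 8, 9, 0, 11, 3, 5, 5, 15]
    chd := [(0, 9), (11, 3)]
    steps := [(0, 1), (0, 2), (0, 7), (0, 10), (3, 4), (3, 6), (3, 12), (5, 14), (5, 13)] }
  rep := [0, 9, 11, 5, 3, 8, 15]

noncomputable def v2415 : Cov.CovD where
  P := 3
  N := 4
  pl := [1, 8]
  lev := [⟨[], [], [(0, 1)], [5], [(0, 0, [1]), (2, 1, [0])]⟩,
    ⟨[], [(0, 0), (0, 1), (0, 2)], [(0, 0), (0, 1), (0, 2), (1, 2)], [], [(0, 0, [1]), (2,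
      1, [0]), (3, 0, [1]), (4, 2, [4])]⟩,
    ⟨[(0, 1)], [(0, 1), (1, 0), (1, 1), (1, 2), (1, 4)], [(0, 1), (0, 4), (1, 4)], [], [(2,
      1, [0]), (3, 0, [1]), (5, 4, [2])]⟩,
    ⟨[(0, 1), (1, 2)], [(1, 0), (1, 1), (1, 2), (1, 3), (2, 0)], [(0, 2), (0, 3), (2, 3)],
      [], [(3, 0, [1]), (4, 2, [4]), (6, 3, [])]⟩,
    ⟨[(1, 3)], [(3, 0), (3, 2), (3, 3)], [], [], [(6, 3, [])]⟩,
    ⟨[(3, 4)], [(3, 3), (4, 3)], [(3, 3)], [5, 6], [(6, 3, []), (7, 3, [])]⟩,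
    ⟨[(1, 3), (3, 4), (3, 5), (4, 5)], [(1, 0), (2, 0), (2, 4), (3, 0), (3, 2), (3, 3), (3,
      4), (4, 0), (4, 3), (4, 4), (5, 0), (5, 3), (5, 4)], [(0, 3), (0, 4), (3, 4)], [], [(3,
      0, [1]), (5, 4, [2]), (7, 3, [])]⟩]
  Ta := [((0, 1), 0, 5), ((0, 4), 0, 2), ((3, 5), 0, 4), ((6, 1), 3, 5), ((6, 4), 3, 2), ((7, 5),
    3, 4), ((7, 8), 3, 6)]
  Tb := [((0, 1, 4), 0, 5, 2), ((1, 0, 2), 5, 0, 1), ((1, 0, 6), 5, 0, 3), ((1, 0, 8), 5, 0, 6),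
    ((1, 2, 6), 5, 1, 3), ((1, 2, 8), 5, 1, 6), ((1, 6, 8), 5, 3, 6), ((2, 1, 5), 1, 5, 4),
    ((4, 0, 6), 2, 0, 3), ((5, 2, 3), 4, 1, 0), ((5, 2, 7), 4, 1, 3), ((5, 3, 7), 4, 0, 3),
    ((6, 1, 4), 3, 5, 2), ((7, 5, 8), 3, 4, 6), ((8, 1, 7), 6, 5, 3)]
  Tc := []
  Td := [((0, 1), (0, 1), 5), ((0, 1), (0, 4), 2), ((0, 1), (3, 5), 4), ((1, 0), (2, 1), 5), ((1,
    0), (2, 5), 4), ((2, 4), (4, 0), 0), ((2, 4), (4, 6), 3), ((4, 2), (5, 2), 1), ((4, 2),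
    (5, 3), 0), ((4, 2), (5, 7), 3)]
  G := [[0, 0x2468ca4c9252842413868883c4686, 0x883121229181c44318a851458c,
    0x44a2288221bc144231242284dc18c, 0x6861c16ca4258225442845aa18c], [0,
    0x2414a2ed14a8676b84286, 0xe6eb14188118ea671894c, 0x222b841822271418c,
    0x444b12187cc78248c], [0, 0x682a42612d2888324212d44a68a46, 0, 0x28c82285d4424e242d38c81,
    0x22c42358c64896a481], [0, 0x22918262d18a4aea71428a, 0, 0x8222f142222f14c81,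
    0x228ce4ef16481]]

noncomputable def n2415 : Ent := ⟨e2415, noF, [], [], []⟩

def c2415 : PLift (Cov.check n2415.C.D v2415 = true) := ⟨by decide +kernel⟩

def b2415 : PLift (entF (fidx ts) 400 2415 n2415 = true) := ⟨by decide +kernel⟩

theorem g2415 : GoodF (fidx ts) 400 2415 := GoodF.ofV v2415 n2415 c2415.down b2415.down

/-- 4746466:1943/6 -/
noncomputable def e2416 : SCfg where
  D := {
    a := 7
    L := 10
    kp := 7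
    inn := [(0, 1), (1, 0), (1, 2), (1, 3), (2, 1), (3, 1), (3, 4), (3, 6), (4, 3), (4, 5), (4, 6), (5,
      4), (5, 6), (6, 3), (6, 4), (6, 5)]
    mix := [(0, 0), (0, 1), (0, 2), (1, 0), (1, 2), (1, 3), (1, 4), (2, 2), (2, 3), (2, 5), (3, 3), (3,
      4), (3, 6), (4, 6), (5, 1), (5, 6), (5, 7), (5, 8), (6, 3), (6, 7), (6, 9)]
    cl := [1, 2, 4, 0, 0, 5, 3, 3, 6, 7]
    chq := [(1, 4), (1, 5), (4, 1), (5, 1)]
    rng := [(0, 1), (0, 4), (1, 0), (1, 2), (1, 6), (1, 8), (2, 1), (2, 5), (3, 5), (3, 9), (4, 0), (4,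
      6), (5, 2), (5, 3), (6, 1), (6, 4), (7, 8), (7, 9), (8, 1), (8, 7), (9, 3), (9, 7)]
    lev := [] }
  links := [[1, 7, 8, 9], [7, 0, 9, 2, 10, 3, 11], [10, 1, 9, 12], [11, 1, 10, 6, 4, 13], [13, 3, 6, 5],
    [13, 4, 6, 14, 15, 8], [14, 5, 4, 3, 10, 16]]
  P := {
    a := 7
    N := 17
    nb := [898, 3725, 5634, 11346, 8296, 57680, 83000, 2307, 41633, 4359, 69710, 8330, 1540, 2360,
      98400, 16672, 17472]
    tri := [(0, 1, 7), (0, 1, 9), (0, 7, 8), (0, 8, 9), (1, 2, 9), (1, 2, 10), (1, 3, 10), (1, 3, 11),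
      (1, 7, 11), (2, 9, 12), (2, 10, 12), (3, 4, 6), (3, 4, 13), (3, 6, 10), (3, 11, 13), (4, 5,
      6), (4, 5, 13), (5, 6, 14), (5, 8, 13), (5, 8, 15), (5, 14, 15), (6, 10, 16), (6, 14, 16)]
    fin := [0, 0, 0, 3, 3, 5, 3, 0, 8, 9, 3, 3, 12, 5, 5, 15, 16]
    chd := [(0, 9), (0, 12)]
    steps := [(0, 1), (0, 2), (0, 7), (3, 4), (3, 6), (3, 10), (3, 11), (5, 14), (5, 13)] }
  rep := [3, 0, 8, 5, 9, 12, 15, 16]

noncomputable def v2416 : Cov.CovD where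
  P := 3
  N := 5
  pl := [1, 8, 9]
  lev := [⟨[], [], [(1, 4)], [2], [(0, 1, [4, 5]), (2, 4, [1])]⟩,
    ⟨[], [(0, 0), (0, 1), (0, 4)], [(0, 0), (0, 1), (0, 4), (1, 4)], [], [(0, 1, [4, 5]),
      (2, 4, [1]), (3, 0, []), (4, 0, [])]⟩,
    ⟨[(0, 1)], [(0, 4), (1, 0), (1, 1), (1, 4), (1, 5)], [(0, 4), (0, 5), (4, 5)], [], [(2,
      4, [1]), (3, 0, []), (5, 5, [1])]⟩,
    ⟨[(0, 1), (1, 2)], [(1, 0), (1, 1), (1, 3), (1, 4), (2, 0)], [(0, 0), (0, 3)], [], [(3,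
      0, []), (4, 0, []), (6, 3, [])]⟩,
    ⟨[(1, 3)], [(3, 0), (3, 3)], [], [], [(6, 3, [])]⟩,
    ⟨[(3, 4)], [(3, 3), (4, 3)], [(3, 3)], [2, 6], [(6, 3, []), (7, 3, [])]⟩,
    ⟨[(1, 3), (3, 4), (3, 5), (4, 5)], [(1, 0), (2, 0), (3, 0), (3, 3), (4, 0), (4, 3), (5,
      0), (5, 3)], [(0, 3)], [7], [(3, 0, []), (7, 3, [])]⟩]
  Ta := [((3, 5), 0, 5), ((3, 9), 0, 7), ((4, 0), 0, 1), ((4, 6), 0, 3), ((6, 1), 3, 2), ((6, 4),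
    3, 0), ((7, 8), 3, 6), ((7, 9), 3, 7)]
  Tb := [((0, 1, 4), 1, 2, 0), ((1, 0, 2), 2, 1, 4), ((1, 0, 6), 2, 1, 3), ((1, 0, 8), 2, 1, 6),
    ((1, 2, 6), 2, 4, 3), ((1, 2, 8), 2, 4, 6), ((1, 6, 8), 2, 3, 6), ((2, 1, 5), 4, 2, 5),
    ((3, 5, 9), 0, 5, 7), ((4, 0, 6), 0, 1, 3), ((5, 2, 3), 5, 4, 0), ((6, 1, 4), 3, 2, 0),
    ((7, 8, 9), 3, 6, 7), ((8, 1, 7), 6, 2, 3), ((9, 3, 7), 7, 0, 3)]
  Tc := [(1, 4, 5)]
  Td := [((1, 4), (0, 1), 2), ((1, 4), (0, 4), 0), ((1, 5), (0, 1), 2), ((1, 5), (0, 4), 0), ((4,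
    1), (2, 1), 2), ((4, 1), (2, 5), 5), ((5, 1), (5, 2), 4), ((5, 1), (5, 3), 0)]
  G := [[0, 0, 0x2ac14ca162862c18c61a24c, 0x48cd222848cd2224c, 0x28ab444986282c918831a249], [0,
    0, 0x221eece1628e2e45e84a24c, 0xa2ed244262826ed1882a24c, 0x22c4eb6428221c4eb16249], [0,
    0xaa51449861862918852a14c, 0x22c148ce162862c18c61a24c, 0xcccd2228cccd2224c,
    0x2a2b4449262822944a68834a249], [0, 0xae9645218a6ed1214c, 0x111e8228111e4824c,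
    0x11ed822811ed4824c, 0x11eb842811eb48249]]

noncomputable def n2416 : Ent := ⟨e2416, noF, [], [], [(9, 15, [1685356702439545624007900436039642273970977273354372543760009977857, 0]), (12, 16, [1580044410770988437309982408355971841652082177953823432505699004417, 0])]⟩

def c2416 : PLift (Cov.check n2416.C.D v2416 = true) := ⟨by decide +kernel⟩

def b2416 : PLift (entF (fidx ts) 400 2416 n2416 = true) := ⟨by decide +kernel⟩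

theorem g2416 : GoodF (fidx ts) 400 2416 := GoodF.ofV v2416 n2416 c2416.down b2416.down

/-- 4746466:1943/9 -/
noncomputable def e2417 : SCfg where
  D := {
    a := 7
    L := 10
    kp := 7
    inn := [(0, 1), (1, 0), (1, 2), (1, 3), (2, 1), (3, 1), (3, 4), (3, 6), (4, 3), (4, 5), (4, 6), (5,
      4), (5, 6), (6, 3), (6, 4), (6, 5)]
    mix := [(0, 0), (0, 1), (0, 2), (1, 0), (1, 2), (1, 3), (1, 4), (2, 2), (2, 3), (2, 5), (3, 3), (3,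
      4), (3, 6), (4, 6), (5, 2), (5, 6), (5, 7), (5, 8), (6, 3), (6, 7), (6, 9)]
    cl := [0, 5, 1, 0, 2, 6, 3, 3, 7, 4]
    chq := [(0, 1), (1, 0), (2, 4), (4, 2)]
    rng := [(0, 1), (0, 4), (1, 0), (1, 2), (2, 1), (2, 5), (2, 7), (2, 8), (3, 5), (3, 9), (4, 0), (4,
      6), (5, 2), (5, 3), (6, 4), (6, 8), (7, 2), (7, 9), (8, 2), (8, 6), (9, 3), (9, 7)]
    lev := [] }
  links := [[1, 7, 8, 9], [7, 0, 9, 2, 10, 3, 11], [10, 1, 9, 12], [11, 1, 10, 6, 4, 13], [13, 3, 6, 5],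
    [13, 4, 6, 14, 9, 15], [14, 5, 4, 3, 10, 16]]
  P := {
    a := 7
    N := 17
    nb := [898, 3725, 5634, 11346, 8296, 57936, 83000, 2307, 641, 53543, 69710, 8330, 1540, 34872,
      66144, 8736, 17472]
    tri := [(0, 1, 7), (0, 1, 9), (0, 7, 8), (0, 8, 9), (1, 2, 9), (1, 2, 10), (1, 3, 10), (1, 3, 11),
      (1, 7, 11), (2, 9, 12), (2, 10, 12), (3, 4, 6), (3, 4, 13), (3, 6, 10), (3, 11, 13), (4, 5,
      6), (4, 5, 13), (5, 6, 14), (5, 9, 14), (5, 9, 15), (5, 13, 15), (6, 10, 16), (6, 14, 16)]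
    fin := [0, 0, 0, 3, 3, 5, 3, 0, 8, 9, 0, 11, 12, 5, 5, 15, 3]
    chd := [(0, 9), (11, 3)]
    steps := [(0, 1), (0, 2), (0, 7), (0, 10), (3, 4), (3, 6), (3, 16), (5, 14), (5, 13)] }
  rep := [0, 9, 11, 5, 3, 8, 12, 15]

noncomputable def v2417 : Cov.CovD where
  P := 3
  N := 5
  pl := [1, 5, 8]
  lev := [⟨[], [], [(0, 1)], [5], [(0, 0, [1]), (2, 1, [0])]⟩,
    ⟨[], [(0, 0), (0, 1), (0, 2)], [(0, 0), (0, 1), (0, 2), (1, 2)], [], [(0, 0, [1]), (2,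
      1, [0]), (3, 0, [1]), (4, 2, [4])]⟩,
    ⟨[(0, 1)], [(0, 1), (1, 0), (1, 1), (1, 2)], [(0, 1)], [6], [(2, 1, [0]), (3, 0, [1])]⟩,
    ⟨[(0, 1), (1, 2)], [(1, 0), (1, 1), (1, 2), (1, 3), (2, 0)], [(0, 2), (0, 3), (2, 3)],
      [], [(3, 0, [1]), (4, 2, [4]), (6, 3, [])]⟩,
    ⟨[(1, 3)], [(3, 0), (3, 2), (3, 3)], [], [], [(6, 3, [])]⟩,
    ⟨[(3, 4)], [(0, 1), (1, 1), (2, 1), (3, 3), (4, 1), (4, 3)], [(1, 3), (3, 3)], [7],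
      [(2, 1, [0]), (6, 3, []), (7, 3, [])]⟩,
    ⟨[(1, 3), (3, 4), (3, 5), (4, 5)], [(1, 0), (2, 0), (3, 0), (3, 2), (3, 3), (3, 4), (4,
      0), (4, 3), (4, 4), (5, 0), (5, 1), (5, 3), (5, 4)], [(0, 3), (0, 4), (3, 4)], [], [(3,
      0, [1]), (7, 3, []), (9, 4, [2])]⟩]
  Ta := [((0, 1), 0, 5), ((0, 4), 0, 2), ((3, 5), 0, 6), ((3, 9), 0, 4), ((6, 4), 3, 2), ((6, 8),
    3, 7), ((7, 2), 3, 1), ((7, 9), 3, 4)]
  Tb := [((0, 1, 4), 0, 5, 2), ((1, 0, 2), 5, 0, 1), ((2, 1, 5), 1, 5, 6), ((2, 1, 7), 1, 5, 3),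
    ((2, 1, 8), 1, 5, 7), ((2, 5, 7), 1, 6, 3), ((2, 5, 8), 1, 6, 7), ((2, 7, 8), 1, 3, 7),
    ((3, 5, 9), 0, 6, 4), ((4, 0, 6), 2, 0, 3), ((5, 2, 3), 6, 1, 0), ((6, 4, 8), 3, 2, 7),
    ((7, 2, 9), 3, 1, 4), ((8, 2, 6), 7, 1, 3), ((9, 3, 7), 4, 0, 3)]
  Tc := []
  Td := [((0, 1), (0, 1), 5), ((0, 1), (0, 4), 2), ((0, 1), (3, 5), 6), ((0, 1), (3, 9), 4), ((1,
    0), (2, 1), 5), ((1, 0), (2, 5), 6), ((1, 0), (2, 7), 3), ((1, 0), (2, 8), 7), ((2, 4),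
    (4, 0), 0), ((2, 4), (4, 6), 3), ((4, 2), (9, 3), 0), ((4, 2), (9, 7), 3)]
  G := [[0, 0x4121c184214161482121c128e, 0x48cd221848cd1214c, 0x6492a852c146492a852c18c,
    0x4c4d2218482c4413a18c], [0, 0x214844214884218124e, 0x2e54a4c1a14a6ed1214c,
    0x222d1418222d4814c, 0x464d8218464d8218c], [0, 0x214161842181a12821416148e, 0,
    0x6492a852c46492a852c8c1, 0x4c4d22a444962c81], [0, 0x218144218488218428e, 0,
    0x222d18222d48c41, 0x464d82464d82c81]]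

noncomputable def n2417 : Ent := ⟨e2417, noF, [], [], [(8, 14, [1685382413448253767852309107433119732572617628602273068445374779393, 0]), (8, 15, [1685356702439545624007900436039642273970977273354372543760009977857, 0])]⟩

def c2417 : PLift (Cov.check n2417.C.D v2417 = true) := ⟨by decide +kernel⟩

def b2417 : PLift (entF (fidx ts) 400 2417 n2417 = true) := ⟨by decide +kernel⟩

theorem g2417 : GoodF (fidx ts) 400 2417 := GoodF.ofV v2417 n2417 c2417.down b2417.down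

/-- 4746466:1943/10 -/
noncomputable def e2418 : SCfg where
  D := {
    a := 7
    L := 10
    kp := 7
    inn := [(0, 1), (1, 0), (1, 2), (1, 3), (2, 1), (3, 1), (3, 4), (3, 6), (4, 3), (4, 5), (4, 6), (5,
      4), (5, 6), (6, 3), (6, 4), (6, 5)]
    mix := [(0, 0), (0, 1), (0, 2), (1, 0), (1, 2), (1, 3), (1, 4), (2, 2), (2, 3), (2, 5), (3, 3), (3,
      4), (3, 6), (4, 6), (5, 6), (5, 7), (5, 8), (5, 9), (6, 3), (6, 5), (6, 7)]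
    cl := [0, 5, 1, 0, 2, 4, 3, 3, 6, 7]
    chq := [(0, 1), (1, 0), (2, 4), (4, 2)]
    rng := [(0, 1), (0, 4), (1, 0), (1, 2), (2, 1), (2, 5), (3, 5), (4, 0), (4, 6), (5, 2), (5, 3), (5,
      7), (6, 4), (6, 9), (7, 5), (7, 8), (8, 7), (8, 9), (9, 6), (9, 8)]
    lev := [] }
  links := [[1, 7, 8, 9], [7, 0, 9, 2, 10, 3, 11], [10, 1, 9, 12], [11, 1, 10, 6, 4, 13], [13, 3, 6, 5],
    [13, 4, 6, 14, 15, 16], [14, 5, 4, 3, 10, 12]]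
  P := {
    a := 7
    N := 17
    nb := [898, 3725, 5634, 11346, 8296, 122960, 21560, 2307, 641, 4359, 4174, 8330, 17988, 67640,
      36960, 81952, 40992]
    tri := [(0, 1, 7), (0, 1, 9), (0, 7, 8), (0, 8, 9), (1, 2, 9), (1, 2, 10), (1, 3, 10), (1, 3, 11),
      (1, 7, 11), (2, 9, 12), (2, 10, 12), (3, 4, 6), (3, 4, 13), (3, 6, 10), (3, 11, 13), (4, 5,
      6), (4, 5, 13), (5, 6, 14), (5, 13, 16), (5, 14, 15), (5, 15, 16), (6, 10, 12), (6, 12, 14)]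
    fin := [0, 0, 0, 3, 3, 5, 3, 0, 8, 9, 0, 11, 3, 5, 5, 15, 16]
    chd := [(0, 9), (11, 3)]
    steps := [(0, 1), (0, 2), (0, 7), (0, 10), (3, 4), (3, 6), (3, 12), (5, 14), (5, 13)] }
  rep := [0, 9, 11, 5, 3, 8, 15, 16]

noncomputable def v2418 : Cov.CovD where
  P := 3
  N := 5
  pl := [1, 8, 9]
  lev := [⟨[], [], [(0, 1)], [5], [(0, 0, [1]), (2, 1, [0])]⟩,
    ⟨[], [(0, 0), (0, 1), (0, 2)], [(0, 0), (0, 1), (0, 2), (1, 2)], [], [(0, 0, [1]), (2,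
      1, [0]), (3, 0, [1]), (4, 2, [4])]⟩,
    ⟨[(0, 1)], [(0, 1), (1, 0), (1, 1), (1, 2), (1, 4)], [(0, 1), (0, 4), (1, 4)], [], [(2,
      1, [0]), (3, 0, [1]), (5, 4, [2])]⟩,
    ⟨[(0, 1), (1, 2)], [(1, 0), (1, 1), (1, 2), (1, 3), (2, 0)], [(0, 2), (0, 3), (2, 3)],
      [], [(3, 0, [1]), (4, 2, [4]), (6, 3, [])]⟩,
    ⟨[(1, 3)], [(3, 0), (3, 2), (3, 3)], [], [], [(6, 3, [])]⟩,
    ⟨[(3, 4)], [(3, 3), (4, 3)], [(3, 3)], [6, 7], [(6, 3, []), (7, 3, [])]⟩,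
    ⟨[(1, 3), (3, 4), (3, 5), (4, 5)], [(1, 0), (2, 0), (2, 4), (3, 0), (3, 2), (3, 3), (3,
      4), (4, 0), (4, 3), (4, 4), (5, 0), (5, 3), (5, 4)], [(0, 3), (0, 4), (3, 4)], [], [(3,
      0, [1]), (5, 4, [2]), (7, 3, [])]⟩]
  Ta := [((0, 1), 0, 5), ((0, 4), 0, 2), ((3, 5), 0, 4), ((6, 4), 3, 2), ((6, 9), 3, 7), ((7, 5),
    3, 4), ((7, 8), 3, 6)]
  Tb := [((0, 1, 4), 0, 5, 2), ((1, 0, 2), 5, 0, 1), ((2, 1, 5), 1, 5, 4), ((4, 0, 6), 2, 0, 3),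
    ((5, 2, 3), 4, 1, 0), ((5, 2, 7), 4, 1, 3), ((5, 3, 7), 4, 0, 3), ((6, 4, 9), 3, 2, 7),
    ((7, 5, 8), 3, 4, 6), ((8, 7, 9), 6, 3, 7), ((9, 6, 8), 7, 3, 6)]
  Tc := []
  Td := [((0, 1), (0, 1), 5), ((0, 1), (0, 4), 2), ((0, 1), (3, 5), 4), ((1, 0), (2, 1), 5), ((1,
    0), (2, 5), 4), ((2, 4), (4, 0), 0), ((2, 4), (4, 6), 3), ((4, 2), (5, 2), 1), ((4, 2),
    (5, 3), 0), ((4, 2), (5, 7), 3)]
  G := [[0, 0x24aa8b84e444b852866472848e88874924c, 0x644b1a8871c14622d18c871a18c,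
    0x22348a22c22279c1488272122628229d894c, 0x222d8144a82c45e258424d1426a88fca18c], [0,
    0x214876d2f28a476def28246, 0xe24eeed1a14e2ee9ae48618c, 0x2222f18142222f4814c,
    0x4e44f1218cbdef4248c], [0, 0x622d8c87a444b85282ac4c4b688a74924c, 0,
    0x28886285b42424a42978c41, 0x64a226d3a8874a481], [0, 0x2222f482252f48c477eb645824a, 0,
    0x2222f482222f48c41, 0x228ca4ef4456481]]

noncomputable def n2418 : Ent := ⟨e2418, noF, [], [], [(8, 14, [1685382413448253767852309107433119732572617628602273068445374783489, 0]), (8, 15, [1685356702439545624007900436039642273970977273354372543760009969665, 0]), (8, 16, [1580044410770988437309982408355971841652082177953823432505699004417, 0])]⟩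

def c2418 : PLift (Cov.check n2418.C.D v2418 = true) := ⟨by decide +kernel⟩

def b2418 : PLift (entF (fidx ts) 400 2418 n2418 = true) := ⟨by decide +kernel⟩

theorem g2418 : GoodF (fidx ts) 400 2418 := GoodF.ofV v2418 n2418 c2418.down b2418.down

/-- 4746466:1943 -/
noncomputable def e2419 : SCfg where
  D := {
    a := 7
    L := 11
    kp := 8
    inn := [(0, 1), (1, 0), (1, 2), (1, 3), (2, 1), (3, 1), (3, 4), (3, 6), (4, 3), (4, 5), (4, 6), (5,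
      4), (5, 6), (6, 3), (6, 4), (6, 5)]
    mix := [(0, 0), (0, 1), (0, 2), (1, 0), (1, 2), (1, 3), (1, 4), (2, 2), (2, 3), (2, 5), (3, 3), (3,
      4), (3, 6), (4, 6), (5, 6), (5, 7), (5, 8), (5, 9), (6, 3), (6, 7), (6, 10)]
    cl := [2, 5, 3, 0, 0, 4, 1, 1, 6, 7, 8]
    chq := [(2, 3), (2, 4), (3, 2), (4, 2)]
    rng := [(0, 1), (0, 4), (1, 0), (1, 2), (2, 1), (2, 5), (3, 5), (3, 10), (4, 0), (4, 6), (5, 2),
      (5, 3), (6, 4), (6, 9), (7, 8), (7, 10), (8, 7), (8, 9), (9, 6), (9, 8), (10, 3), (10, 7)]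
    lev := [] }
  links := [[1, 7, 8, 9], [7, 0, 9, 2, 10, 3, 11], [10, 1, 9, 12], [11, 1, 10, 6, 4, 13], [13, 3, 6, 5],
    [13, 4, 6, 14, 15, 16], [14, 5, 4, 3, 10, 17]]
  P := {
    a := 7
    N := 18
    nb := [898, 3725, 5634, 11346, 8296, 122960, 148536, 2307, 641, 4359, 135246, 8330, 1540, 67640,
      163936, 81952, 40992, 17472]
    tri := [(0, 1, 7), (0, 1, 9), (0, 7, 8), (0, 8, 9), (1, 2, 9), (1, 2, 10), (1, 3, 10), (1, 3, 11),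
      (1, 7, 11), (2, 9, 12), (2, 10, 12), (3, 4, 6), (3, 4, 13), (3, 6, 10), (3, 11, 13), (4, 5,
      6), (4, 5, 13), (5, 6, 14), (5, 13, 16), (5, 14, 15), (5, 15, 16), (6, 10, 17), (6, 14, 17)]
    fin := [0, 0, 0, 3, 3, 5, 3, 0, 8, 9, 3, 3, 12, 5, 5, 15, 16, 17]
    chd := [(0, 9), (0, 12)]
    steps := [(0, 1), (0, 2), (0, 7), (3, 4), (3, 6), (3, 10), (3, 11), (5, 14), (5, 13)] }
  rep := [3, 5, 0, 9, 12, 8, 15, 16, 17]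

noncomputable def v2419 : Cov.CovD where
  P := 3
  N := 6
  pl := [1, 8, 9, 10]
  lev := [⟨[], [], [(2, 3)], [5], [(0, 2, [3, 4]), (2, 3, [2])]⟩,
    ⟨[], [(0, 0), (0, 2), (0, 3)], [(0, 0), (0, 2), (0, 3), (2, 3)], [], [(0, 2, [3, 4]),
      (2, 3, [2]), (3, 0, []), (4, 0, [])]⟩,
    ⟨[(0, 1)], [(0, 3), (1, 0), (1, 2), (1, 3), (1, 4)], [(0, 3), (0, 4), (3, 4)], [], [(2,
      3, [2]), (3, 0, []), (5, 4, [2])]⟩,
    ⟨[(0, 1), (1, 2)], [(1, 0), (1, 1), (1, 2), (1, 3), (2, 0)], [(0, 0), (0, 1)], [], [(3,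
      0, []), (4, 0, []), (6, 1, [])]⟩,
    ⟨[(1, 3)], [(3, 0), (3, 1)], [], [], [(6, 1, [])]⟩,
    ⟨[(3, 4)], [(3, 1), (4, 1)], [(1, 1)], [6, 7], [(6, 1, []), (7, 1, [])]⟩,
    ⟨[(1, 3), (3, 4), (3, 5), (4, 5)], [(1, 0), (2, 0), (3, 0), (3, 1), (4, 0), (4, 1), (5,
      0), (5, 1)], [(0, 1)], [8], [(3, 0, []), (7, 1, [])]⟩]
  Ta := [((3, 5), 0, 4), ((3, 10), 0, 8), ((4, 0), 0, 2), ((4, 6), 0, 1), ((6, 4), 1, 0), ((6,
    9), 1, 7), ((7, 8), 1, 6), ((7, 10), 1, 8)]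
  Tb := [((0, 1, 4), 2, 5, 0), ((1, 0, 2), 5, 2, 3), ((2, 1, 5), 3, 5, 4), ((3, 5, 10), 0, 4, 8),
    ((4, 0, 6), 0, 2, 1), ((5, 2, 3), 4, 3, 0), ((6, 4, 9), 1, 0, 7), ((7, 8, 10), 1, 6, 8),
    ((8, 7, 9), 6, 1, 7), ((9, 6, 8), 7, 1, 6), ((10, 3, 7), 8, 0, 1)]
  Tc := [(2, 3, 4)]
  Td := [((2, 3), (0, 1), 5), ((2, 3), (0, 4), 0), ((2, 4), (0, 1), 5), ((2, 4), (0, 4), 0), ((3,
    2), (2, 1), 5), ((3, 2), (2, 5), 4), ((4, 2), (5, 2), 3), ((4, 2), (5, 3), 0)]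
  G := [[0, 0, 0, 0x222d8428222d4824222d182222d142cd, 0x222d8448222d4842222d14422924544ab], [0,
    0, 0, 0x4cc8c99228cccd12244c5c8cc22c8cd44522cd,
    0x4ccd8892484c52c8c2c42cccd1244ccd2881c4ab], [0, 0xaace42286cce28246ace8226ace421cd,
    0x222d1418222d4814222d4812e, 0x222d1428222d1824122d482222d142cd,
    0x222d1448112d4842212d844222d141ab], [0, 0, 0x4ccd88921844c8cdc214441c8cd2c12e,
    0x11cd242811cd422411cd84211cd282cd, 0x11cd824811cd2842114d2818c411cd844ab]]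

noncomputable def n2419 : Ent := ⟨e2419, noF, [], [], [(8, 14, [7334790875878422277917280412776772662961875900559637987928627379351553, 0]), (8, 15, [7334790850167413569773436004105379185503274260204390087403942014537729, 0]), (8, 16, [7334685537875745012586738086077695515070955365108989538292687703572481, 0]), (9, 15, [7334790850167413569773436004105379185503274260204390087403942014554113, 0]), (12, 17, [6903326391201334775872065844685381424292761054348340378595029939593217, 0])]⟩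

def c2419 : PLift (Cov.check n2419.C.D v2419 = true) := ⟨by decide +kernel⟩

def b2419 : PLift (entF (fidx ts) 400 2419 n2419 = true) := ⟨by decide +kernel⟩

theorem g2419 : GoodF (fidx ts) 400 2419 := GoodF.ofV v2419 n2419 c2419.down b2419.down

/-- 4746464:1944/2 -/
noncomputable def e2420 : SCfg where
  D := {
    a := 7
    L := 9
    kp := 6
    inn := [(0, 1), (1, 0), (1, 2), (1, 3), (2, 1), (3, 1), (3, 4), (3, 5), (4, 3), (5, 3), (5, 6), (6,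
      5)]
    mix := [(0, 0), (0, 1), (0, 2), (1, 0), (1, 2), (1, 3), (1, 4), (2, 2), (2, 3), (2, 5), (3, 3), (3,
      4), (3, 6), (4, 3), (4, 5), (4, 6), (5, 4), (5, 6), (5, 7), (5, 8), (6, 1), (6, 6), (6, 7)]
    cl := [0, 4, 3, 0, 1, 2, 1, 5, 6]
    chq := [(0, 3), (3, 0), (4, 6), (6, 4)]
    rng := [(0, 1), (0, 4), (1, 0), (1, 2), (1, 6), (1, 7), (2, 1), (2, 5), (3, 5), (4, 0), (4, 8), (5,
      2), (5, 3), (5, 6), (6, 1), (6, 5), (7, 1), (7, 8), (8, 4), (8, 7)]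
    lev := [] }
  links := [[1, 7, 8, 9], [7, 0, 9, 2, 10, 3, 11], [10, 1, 9, 12], [11, 1, 10, 4, 13, 5], [13, 3, 10,
    12], [11, 3, 13, 6, 14, 15], [14, 5, 13, 8]]
  P := {
    a := 7
    N := 16
    nb := [898, 3725, 5634, 11314, 13320, 59464, 24864, 2307, 25281, 4359, 4126, 32938, 9748, 4472,
      33120, 18464]
    tri := [(0, 1, 7), (0, 1, 9), (0, 7, 8), (0, 8, 9), (1, 2, 9), (1, 2, 10), (1, 3, 10), (1, 3, 11),
      (1, 7, 11), (2, 9, 12), (2, 10, 12), (3, 4, 10), (3, 4, 13), (3, 5, 11), (3, 5, 13), (4, 10,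
      12), (4, 12, 13), (5, 6, 13), (5, 6, 14), (5, 11, 15), (5, 14, 15), (6, 8, 13), (6, 8, 14)]
    fin := [0, 0, 0, 3, 0, 5, 5, 0, 5, 9, 0, 3, 12, 3, 14, 15]
    chd := [(0, 9), (5, 15)]
    steps := [(0, 1), (0, 2), (0, 7), (0, 10), (0, 4), (3, 13), (3, 11), (5, 6), (5, 8)] }
  rep := [0, 3, 12, 9, 5, 14, 15]

noncomputable def v2420 : Cov.CovD where
  P := 3
  N := 4
  pl := [5, 7]
  lev := [⟨[], [], [(0, 3), (0, 4), (3, 4)], [], [(0, 0, [3]), (1, 4, [6]), (2, 3, [0])]⟩,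
    ⟨[], [(0, 0), (0, 1), (0, 3), (0, 4)], [(0, 0), (0, 1), (0, 3), (1, 3)], [], [(0, 0,
      [3]), (2, 3, [0]), (3, 0, [3]), (4, 1, [])]⟩,
    ⟨[(0, 1)], [(0, 3), (1, 0), (1, 1), (1, 3)], [(0, 3)], [2], [(2, 3, [0]), (3, 0, [3])]⟩,
    ⟨[(0, 1), (1, 2)], [(1, 0), (1, 1), (1, 3), (2, 0)], [(0, 1), (1, 1)], [], [(3, 0,
      [3]), (4, 1, []), (6, 1, [])]⟩,
    ⟨[(1, 3)], [(1, 0), (2, 0), (3, 0), (3, 1)], [(0, 1)], [2], [(3, 0, [3]), (6, 1, [])]⟩,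
    ⟨[(1, 3), (3, 4)], [(1, 1), (3, 0), (3, 1), (3, 6), (4, 1)], [(1, 1), (1, 6)], [5],
      [(4, 1, []), (6, 1, []), (8, 6, [4])]⟩,
    ⟨[(3, 5)], [(0, 4), (3, 1), (4, 1), (5, 1), (5, 4), (5, 6)], [(1, 4)], [5], [(1, 4,
      [6]), (6, 1, [])]⟩]
  Ta := [((0, 1), 0, 4), ((0, 4), 0, 1), ((3, 5), 0, 2), ((4, 0), 1, 0), ((4, 8), 1, 6), ((6, 1),
    1, 4), ((6, 5), 1, 2)]
  Tb := [((0, 1, 4), 0, 4, 1), ((1, 0, 2), 4, 0, 3), ((1, 0, 6), 4, 0, 1), ((1, 0, 7), 4, 0, 5),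
    ((1, 2, 6), 4, 3, 1), ((1, 2, 7), 4, 3, 5), ((1, 6, 7), 4, 1, 5), ((2, 1, 5), 3, 4, 2),
    ((4, 0, 8), 1, 0, 6), ((5, 2, 3), 2, 3, 0), ((5, 2, 6), 2, 3, 1), ((5, 3, 6), 2, 0, 1),
    ((6, 1, 5), 1, 4, 2), ((7, 1, 8), 5, 4, 6), ((8, 4, 7), 6, 1, 5)]
  Tc := []
  Td := [((0, 3), (0, 1), 4), ((0, 3), (0, 4), 1), ((0, 3), (3, 5), 2), ((3, 0), (2, 1), 4), ((3,
    0), (2, 5), 2), ((4, 6), (1, 0), 0), ((4, 6), (1, 2), 3), ((4, 6), (1, 6), 1), ((4, 6),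
    (1, 7), 5), ((6, 4), (8, 4), 1), ((6, 4), (8, 7), 5)]
  G := [[0, 0x819e8218541e8214132e4812e, 0, 0, 0x82ad8418541d2814322d14812c1311c2ce], [0, 0, 0,
    0x59cd848945c9c84c2, 0x891d841851c81811854c89c1883c59cd8429858888c1ce], [0, 0,
    0x52c11a485a2d484c1, 0, 0x2485192c24321d84883], [0, 0, 0x591d84891558c84c1,
    0x591d848591d484c2, 0x41588889249158588c24591d84888842c7]]

noncomputable def n2420 : Ent := ⟨e2420, noF, [], [], []⟩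

def c2420 : PLift (Cov.check n2420.C.D v2420 = true) := ⟨by decide +kernel⟩

def b2420 : PLift (entF (fidx ts) 400 2420 n2420 = true) := ⟨by decide +kernel⟩

theorem g2420 : GoodF (fidx ts) 400 2420 := GoodF.ofV v2420 n2420 c2420.down b2420.down

/-- 4746464:1944/1 -/
noncomputable def e2421 : SCfg where
  D := {
    a := 7
    L := 10
    kp := 7
    inn := [(0, 1), (1, 0), (1, 2), (1, 3), (2, 1), (3, 1), (3, 4), (3, 5), (4, 3), (5, 3), (5, 6), (6,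
      5)]
    mix := [(0, 0), (0, 1), (0, 2), (1, 0), (1, 2), (1, 3), (1, 4), (2, 2), (2, 3), (2, 5), (3, 3), (3,
      4), (3, 6), (4, 3), (4, 6), (4, 7), (5, 4), (5, 6), (5, 8), (5, 9), (6, 1), (6, 6), (6, 8)]
    cl := [0, 3, 2, 0, 1, 6, 1, 7, 4, 5]
    chq := [(0, 2), (2, 0), (3, 5), (5, 3)]
    rng := [(0, 1), (0, 4), (1, 0), (1, 2), (1, 6), (1, 8), (2, 1), (2, 5), (3, 5), (3, 7), (4, 0), (4,
      9), (5, 2), (5, 3), (6, 1), (6, 7), (7, 3), (7, 6), (8, 1), (8, 9), (9, 4), (9, 8)]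
    lev := [] }
  links := [[1, 7, 8, 9], [7, 0, 9, 2, 10, 3, 11], [10, 1, 9, 12], [11, 1, 10, 4, 13, 5], [13, 3, 10,
    14], [11, 3, 13, 6, 15, 16], [15, 5, 13, 8]]
  P := {
    a := 7
    N := 17
    nb := [898, 3725, 5634, 11314, 25608, 108616, 41248, 2307, 41665, 4359, 20510, 65706, 1540, 16760,
      9232, 65888, 34848]
    tri := [(0, 1, 7), (0, 1, 9), (0, 7, 8), (0, 8, 9), (1, 2, 9), (1, 2, 10), (1, 3, 10), (1, 3, 11),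
      (1, 7, 11), (2, 9, 12), (2, 10, 12), (3, 4, 10), (3, 4, 13), (3, 5, 11), (3, 5, 13), (4, 10,
      14), (4, 13, 14), (5, 6, 13), (5, 6, 15), (5, 11, 16), (5, 15, 16), (6, 8, 13), (6, 8, 15)]
    fin := [0, 0, 0, 3, 0, 5, 5, 0, 5, 9, 0, 3, 12, 3, 14, 15, 16]
    chd := [(0, 9), (5, 16)]
    steps := [(0, 1), (0, 2), (0, 7), (0, 10), (0, 4), (3, 13), (3, 11), (5, 6), (5, 8)] }
  rep := [0, 3, 9, 5, 15, 16, 12, 14]

noncomputable def v2421 : Cov.CovD where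
  P := 3
  N := 5
  pl := [5, 7, 8]
  lev := [⟨[], [], [(0, 2), (0, 3), (2, 3)], [], [(0, 0, [2]), (1, 3, [5]), (2, 2, [0])]⟩,
    ⟨[], [(0, 0), (0, 1), (0, 2), (0, 3)], [(0, 0), (0, 1), (0, 2), (1, 2)], [], [(0, 0,
      [2]), (2, 2, [0]), (3, 0, [2]), (4, 1, [])]⟩,
    ⟨[(0, 1)], [(0, 2), (1, 0), (1, 1), (1, 2)], [(0, 2)], [6], [(2, 2, [0]), (3, 0, [2])]⟩,
    ⟨[(0, 1), (1, 2)], [(1, 0), (1, 1), (1, 2), (2, 0)], [(0, 1), (1, 1)], [], [(3, 0,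
      [2]), (4, 1, []), (6, 1, [])]⟩,
    ⟨[(1, 3)], [(1, 0), (2, 0), (3, 0), (3, 1)], [(0, 1)], [7], [(3, 0, [2]), (6, 1, [])]⟩,
    ⟨[(1, 3), (3, 4)], [(1, 1), (3, 0), (3, 1), (3, 5), (4, 1)], [(1, 1), (1, 5)], [4],
      [(4, 1, []), (6, 1, []), (9, 5, [3])]⟩,
    ⟨[(3, 5)], [(0, 3), (3, 1), (4, 1), (5, 1), (5, 3), (5, 5)], [(1, 3)], [4], [(1, 3,
      [5]), (6, 1, [])]⟩]
  Ta := [((0, 1), 0, 3), ((0, 4), 0, 1), ((3, 5), 0, 6), ((3, 7), 0, 7), ((4, 0), 1, 0), ((4, 9),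
    1, 5), ((6, 1), 1, 3), ((6, 7), 1, 7)]
  Tb := [((0, 1, 4), 0, 3, 1), ((1, 0, 2), 3, 0, 2), ((1, 0, 6), 3, 0, 1), ((1, 0, 8), 3, 0, 4),
    ((1, 2, 6), 3, 2, 1), ((1, 2, 8), 3, 2, 4), ((1, 6, 8), 3, 1, 4), ((2, 1, 5), 2, 3, 6),
    ((3, 5, 7), 0, 6, 7), ((4, 0, 9), 1, 0, 5), ((5, 2, 3), 6, 2, 0), ((6, 1, 7), 1, 3, 7),
    ((7, 3, 6), 7, 0, 1), ((8, 1, 9), 4, 3, 5), ((9, 4, 8), 5, 1, 4)]
  Tc := []
  Td := [((0, 2), (0, 1), 3), ((0, 2), (0, 4), 1), ((0, 2), (3, 5), 6), ((0, 2), (3, 7), 7), ((2,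
    0), (2, 1), 3), ((2, 0), (2, 5), 6), ((3, 5), (1, 0), 0), ((3, 5), (1, 2), 2), ((3, 5),
    (1, 6), 1), ((3, 5), (1, 8), 4), ((5, 3), (9, 4), 1), ((5, 3), (9, 8), 4)]
  G := [[0, 0x818e891ec2182452a114ee418c, 0x521d18321d18a42, 0x89cd24182814281441528d8c,
    0x9c522828cc182], [0, 0, 0x891d14824151581c489151581c28e,
    0x985198dc888c14514d14514d14c8c, 0x89cd14259cd188a444514d519cc18a], [0, 0,
    0x231d18521d18c42, 0x591d24591d24c81, 0x591d24594d24a82], [0, 0,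
    0x9418191c541d18a4591d14511d1468a, 0x944591d519cc4915591dc588c8c1,
    0x944591d519cc2944591d519cc8a1]]

noncomputable def n2421 : Ent := ⟨e2421, noF, [], [], [(12, 14, [1685382413448253767852309107433119732572617628602273068445374824449, 0])]⟩

def c2421 : PLift (Cov.check n2421.C.D v2421 = true) := ⟨by decide +kernel⟩

def b2421 : PLift (entF (fidx ts) 400 2421 n2421 = true) := ⟨by decide +kernel⟩

theorem g2421 : GoodF (fidx ts) 400 2421 := GoodF.ofV v2421 n2421 c2421.down b2421.down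

/-- 4746464:1944/4 -/
noncomputable def e2422 : SCfg where
  D := {
    a := 7
    L := 9
    kp := 6
    inn := [(0, 1), (1, 0), (1, 2), (1, 3), (2, 1), (3, 1), (3, 4), (3, 5), (4, 3), (5, 3), (5, 6), (6,
      5)]
    mix := [(0, 0), (0, 1), (0, 2), (1, 0), (1, 2), (1, 3), (1, 4), (2, 2), (2, 3), (2, 5), (3, 3), (3,
      4), (3, 6), (4, 3), (4, 5), (4, 6), (5, 4), (5, 6), (5, 7), (5, 8), (6, 5), (6, 6), (6, 7)]
    cl := [0, 5, 3, 0, 1, 2, 1, 4, 6]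
    chq := [(0, 3), (1, 4), (3, 0), (4, 1)]
    rng := [(0, 1), (0, 4), (1, 0), (1, 2), (2, 1), (2, 5), (3, 5), (4, 0), (4, 8), (5, 2), (5, 3), (5,
      6), (5, 7), (6, 5), (7, 5), (7, 8), (8, 4), (8, 7)]
    lev := [] }
  links := [[1, 7, 8, 9], [7, 0, 9, 2, 10, 3, 11], [10, 1, 9, 12], [11, 1, 10, 4, 13, 5], [13, 3, 10,
    12], [11, 3, 13, 6, 14, 15], [14, 5, 13, 12]]
  P := {
    a := 7
    N := 16
    nb := [898, 3725, 5634, 11314, 13320, 59464, 28704, 2307, 641, 4359, 4126, 32938, 26196, 4216,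
      36960, 18464]
    tri := [(0, 1, 7), (0, 1, 9), (0, 7, 8), (0, 8, 9), (1, 2, 9), (1, 2, 10), (1, 3, 10), (1, 3, 11),
      (1, 7, 11), (2, 9, 12), (2, 10, 12), (3, 4, 10), (3, 4, 13), (3, 5, 11), (3, 5, 13), (4, 10,
      12), (4, 12, 13), (5, 6, 13), (5, 6, 14), (5, 11, 15), (5, 14, 15), (6, 12, 13), (6, 12,
      14)]
    fin := [0, 0, 0, 0, 0, 5, 6, 0, 8, 9, 0, 5, 6, 5, 14, 15]
    chd := [(0, 9), (5, 14)]
    steps := [(0, 1), (0, 2), (0, 3), (0, 7), (0, 10), (0, 4), (5, 13), (5, 11), (6, 12)] }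
  rep := [0, 5, 6, 9, 14, 8, 15]

noncomputable def v2422 : Cov.CovD where
  P := 3
  N := 4
  pl := [1, 5, 8]
  lev := [⟨[], [], [(0, 3)], [5], [(0, 0, [3]), (2, 3, [0])]⟩,
    ⟨[], [(0, 0), (0, 1), (0, 3)], [(0, 0), (0, 1), (0, 3), (1, 3)], [], [(0, 0, [3]), (2,
      3, [0]), (3, 0, [3]), (4, 1, [4])]⟩,
    ⟨[(0, 1)], [(0, 3), (1, 0), (1, 1), (1, 3)], [(0, 3)], [2], [(2, 3, [0]), (3, 0, [3])]⟩,
    ⟨[(0, 1), (1, 2)], [(1, 0), (1, 1), (1, 3), (2, 0)], [(0, 1), (1, 1)], [], [(3, 0,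
      [3]), (4, 1, [4]), (6, 1, [4])]⟩,
    ⟨[(1, 3)], [(1, 0), (2, 0), (3, 0), (3, 1)], [(0, 1)], [2], [(3, 0, [3]), (6, 1, [4])]⟩,
    ⟨[(1, 3), (3, 4)], [(1, 1), (3, 0), (3, 1), (3, 4), (4, 1)], [(1, 1), (1, 4)], [6],
      [(4, 1, [4]), (6, 1, [4]), (7, 4, [1])]⟩,
    ⟨[(3, 5)], [(3, 1), (4, 1), (5, 1), (5, 4)], [(1, 4)], [2], [(6, 1, [4]), (7, 4, [1])]⟩]
  Ta := [((0, 1), 0, 5), ((0, 4), 0, 1), ((3, 5), 0, 2), ((4, 0), 1, 0), ((4, 8), 1, 6), ((6, 5),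
    1, 2)]
  Tb := [((0, 1, 4), 0, 5, 1), ((1, 0, 2), 5, 0, 3), ((2, 1, 5), 3, 5, 2), ((4, 0, 8), 1, 0, 6),
    ((5, 2, 3), 2, 3, 0), ((5, 2, 6), 2, 3, 1), ((5, 2, 7), 2, 3, 4), ((5, 3, 6), 2, 0, 1),
    ((5, 3, 7), 2, 0, 4), ((5, 6, 7), 2, 1, 4), ((7, 5, 8), 4, 2, 6), ((8, 4, 7), 6, 1, 4)]
  Tc := []
  Td := [((0, 3), (0, 1), 5), ((0, 3), (0, 4), 1), ((0, 3), (3, 5), 2), ((1, 4), (4, 0), 0), ((1,
    4), (4, 8), 6), ((1, 4), (6, 5), 2), ((3, 0), (2, 1), 5), ((3, 0), (2, 5), 2), ((4, 1),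
    (7, 5), 2), ((4, 1), (7, 8), 6)]
  G := [[0, 0x841e4218141e8214111e8412e, 0, 0, 0x821d841811182c8911282c89a4891d2482418192c2ce],
    [0, 0, 0, 0x94819c4184488191c42891d14811184c494ce,
    0x891d8418891d8488881915883c91518889211889c892ce], [0, 0, 0x248a9c4824cd484c1, 0,
    0x9152898242158888c2424819a4888242c7], [0, 0, 0x8c9444448a4c58888846c1,
    0x541d488291588c4884488194c42b, 0x91588889249488198c24891d84888842c7]]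

noncomputable def n2422 : Ent := ⟨e2422, noF, [], [], []⟩

def c2422 : PLift (Cov.check n2422.C.D v2422 = true) := ⟨by decide +kernel⟩

def b2422 : PLift (entF (fidx ts) 400 2422 n2422 = true) := ⟨by decide +kernel⟩

theorem g2422 : GoodF (fidx ts) 400 2422 := GoodF.ofV v2422 n2422 c2422.down b2422.down

/-- 4746464:1944/3 -/
noncomputable def e2423 : SCfg where
  D := {
    a := 7
    L := 10
    kp := 7
    inn := [(0, 1), (1, 0), (1, 2), (1, 3), (2, 1), (3, 1), (3, 4), (3, 5), (4, 3), (5, 3), (5, 6), (6,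
      5)]
    mix := [(0, 0), (0, 1), (0, 2), (1, 0), (1, 2), (1, 3), (1, 4), (2, 2), (2, 3), (2, 5), (3, 3), (3,
      4), (3, 6), (4, 3), (4, 5), (4, 6), (5, 4), (5, 6), (5, 7), (5, 8), (6, 6), (6, 7), (6, 9)]
    cl := [0, 5, 2, 0, 1, 4, 1, 3, 6, 7]
    chq := [(0, 2), (1, 3), (2, 0), (3, 1)]
    rng := [(0, 1), (0, 4), (1, 0), (1, 2), (2, 1), (2, 5), (3, 5), (4, 0), (4, 8), (5, 2), (5, 3), (5,
      6), (6, 5), (6, 9), (7, 8), (7, 9), (8, 4), (8, 7), (9, 6), (9, 7)]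
    lev := [] }
  links := [[1, 7, 8, 9], [7, 0, 9, 2, 10, 3, 11], [10, 1, 9, 12], [11, 1, 10, 4, 13, 5], [13, 3, 10,
    12], [11, 3, 13, 6, 14, 15], [14, 5, 13, 16]]
  P := {
    a := 7
    N := 17
    nb := [898, 3725, 5634, 11314, 13320, 59464, 90144, 2307, 641, 4359, 4126, 32938, 9748, 69752,
      98400, 18464, 24640]
    tri := [(0, 1, 7), (0, 1, 9), (0, 7, 8), (0, 8, 9), (1, 2, 9), (1, 2, 10), (1, 3, 10), (1, 3, 11),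
      (1, 7, 11), (2, 9, 12), (2, 10, 12), (3, 4, 10), (3, 4, 13), (3, 5, 11), (3, 5, 13), (4, 10,
      12), (4, 12, 13), (5, 6, 13), (5, 6, 14), (5, 11, 15), (5, 14, 15), (6, 13, 16), (6, 14,
      16)]
    fin := [0, 0, 0, 0, 0, 5, 5, 0, 8, 9, 0, 5, 12, 5, 14, 15, 16]
    chd := [(0, 9), (5, 14)]
    steps := [(0, 1), (0, 2), (0, 3), (0, 7), (0, 10), (0, 4), (5, 6), (5, 13), (5, 11)] }
  rep := [0, 5, 9, 14, 12, 8, 15, 16]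

noncomputable def v2423 : Cov.CovD where
  P := 3
  N := 5
  pl := [1, 5, 8, 9]
  lev := [⟨[], [], [(0, 2)], [5], [(0, 0, [2]), (2, 2, [0])]⟩,
    ⟨[], [(0, 0), (0, 1), (0, 2)], [(0, 0), (0, 1), (0, 2), (1, 2)], [], [(0, 0, [2]), (2,
      2, [0]), (3, 0, [2]), (4, 1, [3])]⟩,
    ⟨[(0, 1)], [(0, 2), (1, 0), (1, 1), (1, 2)], [(0, 2)], [4], [(2, 2, [0]), (3, 0, [2])]⟩,
    ⟨[(0, 1), (1, 2)], [(1, 0), (1, 1), (1, 2), (2, 0)], [(0, 1), (1, 1)], [], [(3, 0,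
      [2]), (4, 1, [3]), (6, 1, [3])]⟩,
    ⟨[(1, 3)], [(1, 0), (2, 0), (3, 0), (3, 1)], [(0, 1)], [4], [(3, 0, [2]), (6, 1, [3])]⟩,
    ⟨[(1, 3), (3, 4)], [(1, 1), (3, 0), (3, 1), (3, 3), (4, 1)], [(1, 1), (1, 3)], [6],
      [(4, 1, [3]), (6, 1, [3]), (7, 3, [1])]⟩,
    ⟨[(3, 5)], [(3, 1), (4, 1), (5, 1), (5, 3)], [(1, 3)], [7], [(6, 1, [3]), (7, 3, [1])]⟩]
  Ta := [((0, 1), 0, 5), ((0, 4), 0, 1), ((3, 5), 0, 4), ((4, 0), 1, 0), ((4, 8), 1, 6), ((6, 5),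
    1, 4), ((6, 9), 1, 7)]
  Tb := [((0, 1, 4), 0, 5, 1), ((1, 0, 2), 5, 0, 2), ((2, 1, 5), 2, 5, 4), ((4, 0, 8), 1, 0, 6),
    ((5, 2, 3), 4, 2, 0), ((5, 2, 6), 4, 2, 1), ((5, 3, 6), 4, 0, 1), ((6, 5, 9), 1, 4, 7),
    ((7, 8, 9), 3, 6, 7), ((8, 4, 7), 6, 1, 3), ((9, 6, 7), 7, 1, 3)]
  Tc := []
  Td := [((0, 2), (0, 1), 5), ((0, 2), (0, 4), 1), ((0, 2), (3, 5), 4), ((1, 3), (4, 0), 0), ((1,
    3), (4, 8), 6), ((1, 3), (6, 5), 4), ((1, 3), (6, 9), 7), ((2, 0), (2, 1), 5), ((2, 0),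
    (2, 5), 4), ((3, 1), (7, 8), 6), ((3, 1), (7, 9), 7)]
  G := [[0, 0x111e111ec218111e111ea418c, 0xd291d425246a3d1824c, 0x241424dd9a458dd52d82c18c,
    0x2b7d1428d2bd1428a], [0, 0, 0xd9dd14244182cd14ddc4948dd98d48584e,
    0xdd9dd9c41d4d4c81c4481dd548d9ddd8c4d8c, 0xdd55dddcd888cc12d18d8d4c5dd51d81ca8a], [0, 0,
    0xb3ad1428d2bd1428a, 0x2b7d84a654d84cc81, 0xdd52d82c281], [0, 0,
    0xd11ddc8584d44dd91c42d41dd91c28e, 0xdd54d84c4dd58d88c8c1, 0xdd54d84c2dd58d88c8a1]]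

noncomputable def n2423 : Ent := ⟨e2423, noF, [], [], [(8, 16, [1580044410770988437309982408355971841652082177953823432505699024897, 0]), (12, 16, [1580044410770988437309982408355971841652082177953823432505699033089, 0])]⟩

def c2423 : PLift (Cov.check n2423.C.D v2423 = true) := ⟨by decide +kernel⟩

def b2423 : PLift (entF (fidx ts) 400 2423 n2423 = true) := ⟨by decide +kernel⟩

theorem g2423 : GoodF (fidx ts) 400 2423 := GoodF.ofV v2423 n2423 c2423.down b2423.down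

/-- 4746464:1944/5 -/
noncomputable def e2424 : SCfg where
  D := {
    a := 7
    L := 10
    kp := 7
    inn := [(0, 1), (1, 0), (1, 2), (1, 3), (2, 1), (3, 1), (3, 4), (3, 5), (4, 3), (5, 3), (5, 6), (6,
      5)]
    mix := [(0, 0), (0, 1), (0, 2), (1, 0), (1, 2), (1, 3), (1, 4), (2, 2), (2, 3), (2, 5), (3, 3), (3,
      4), (3, 6), (4, 3), (4, 6), (4, 7), (5, 4), (5, 6), (5, 8), (5, 9), (6, 5), (6, 6), (6, 8)]
    cl := [0, 6, 2, 0, 1, 3, 1, 7, 4, 5]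
    chq := [(0, 2), (2, 0), (3, 5), (5, 3)]
    rng := [(0, 1), (0, 4), (1, 0), (1, 2), (2, 1), (2, 5), (3, 5), (3, 7), (4, 0), (4, 9), (5, 2), (5,
      3), (5, 6), (5, 8), (6, 5), (6, 7), (7, 3), (7, 6), (8, 5), (8, 9), (9, 4), (9, 8)]
    lev := [] }
  links := [[1, 7, 8, 9], [7, 0, 9, 2, 10, 3, 11], [10, 1, 9, 12], [11, 1, 10, 4, 13, 5], [13, 3, 10,
    14], [11, 3, 13, 6, 15, 16], [15, 5, 13, 12]]
  P := {
    a := 7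
    N := 17
    nb := [898, 3725, 5634, 11314, 25608, 108616, 45088, 2307, 641, 4359, 20510, 65706, 42564, 20600,
      9232, 69728, 34848]
    tri := [(0, 1, 7), (0, 1, 9), (0, 7, 8), (0, 8, 9), (1, 2, 9), (1, 2, 10), (1, 3, 10), (1, 3, 11),
      (1, 7, 11), (2, 9, 12), (2, 10, 12), (3, 4, 10), (3, 4, 13), (3, 5, 11), (3, 5, 13), (4, 10,
      14), (4, 13, 14), (5, 6, 13), (5, 6, 15), (5, 11, 16), (5, 15, 16), (6, 12, 13), (6, 12,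
      15)]
    fin := [0, 0, 0, 3, 0, 5, 5, 0, 8, 9, 0, 3, 5, 3, 14, 15, 16]
    chd := [(0, 9), (5, 16)]
    steps := [(0, 1), (0, 2), (0, 7), (0, 10), (0, 4), (3, 13), (3, 11), (5, 6), (5, 12)] }
  rep := [0, 3, 9, 5, 15, 16, 8, 14]

noncomputable def v2424 : Cov.CovD where
  P := 3
  N := 5
  pl := [1, 7, 8]
  lev := [⟨[], [], [(0, 2)], [6], [(0, 0, [2]), (2, 2, [0])]⟩,
    ⟨[], [(0, 0), (0, 1), (0, 2)], [(0, 0), (0, 1), (0, 2), (1, 2)], [], [(0, 0, [2]), (2,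
      2, [0]), (3, 0, [2]), (4, 1, [])]⟩,
    ⟨[(0, 1)], [(0, 2), (1, 0), (1, 1), (1, 2), (1, 3)], [(0, 2), (0, 3), (2, 3)], [], [(2,
      2, [0]), (3, 0, [2]), (5, 3, [5])]⟩,
    ⟨[(0, 1), (1, 2)], [(1, 0), (1, 1), (1, 2), (2, 0)], [(0, 1), (1, 1)], [], [(3, 0,
      [2]), (4, 1, []), (6, 1, [])]⟩,
    ⟨[(1, 3)], [(1, 0), (2, 0), (3, 0), (3, 1)], [(0, 1)], [7], [(3, 0, [2]), (6, 1, [])]⟩,
    ⟨[(1, 3), (3, 4)], [(1, 1), (3, 0), (3, 1), (3, 5), (4, 1)], [(1, 1), (1, 5)], [4],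
      [(4, 1, []), (6, 1, []), (9, 5, [3])]⟩,
    ⟨[(3, 5)], [(2, 3), (3, 1), (4, 1), (5, 1), (5, 3), (5, 5)], [(1, 3)], [4], [(5, 3,
      [5]), (6, 1, [])]⟩]
  Ta := [((0, 1), 0, 6), ((0, 4), 0, 1), ((3, 5), 0, 3), ((3, 7), 0, 7), ((4, 0), 1, 0), ((4, 9),
    1, 5), ((6, 5), 1, 3), ((6, 7), 1, 7)]
  Tb := [((0, 1, 4), 0, 6, 1), ((1, 0, 2), 6, 0, 2), ((2, 1, 5), 2, 6, 3), ((3, 5, 7), 0, 3, 7),
    ((4, 0, 9), 1, 0, 5), ((5, 2, 3), 3, 2, 0), ((5, 2, 6), 3, 2, 1), ((5, 2, 8), 3, 2, 4),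
    ((5, 3, 6), 3, 0, 1), ((5, 3, 8), 3, 0, 4), ((5, 6, 8), 3, 1, 4), ((6, 5, 7), 1, 3, 7),
    ((7, 3, 6), 7, 0, 1), ((8, 5, 9), 4, 3, 5), ((9, 4, 8), 5, 1, 4)]
  Tc := []
  Td := [((0, 2), (0, 1), 6), ((0, 2), (0, 4), 1), ((0, 2), (3, 5), 3), ((0, 2), (3, 7), 7), ((2,
    0), (2, 1), 6), ((2, 0), (2, 5), 3), ((3, 5), (5, 2), 2), ((3, 5), (5, 3), 0), ((3, 5),
    (5, 6), 1), ((3, 5), (5, 8), 4), ((5, 3), (9, 4), 1), ((5, 3), (9, 8), 4)]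
  G := [[0, 0x61c1caa16e4183c61a1e58e814c, 0x519243428321d1824a, 0x2814891d2458591d2418c,
    0x521d1428231d1428a], [0, 0, 0x591d1442591d1824591d1884e,
    0x511d1449418191c8c514d144191d188cc, 0x514d1425c1d188a891d14511d14a8a], [0, 0,
    0x521d1824231d14286, 0x2424c8192c54cd28c41, 0x59cd24281], [0, 0,
    0x891d1482591d1448591d1824e, 0x4454511d58cc49c5198dc888c8c1,
    0x891d819c49c5451cd58cca44488a1]]

noncomputable def n2424 : Ent := ⟨e2424, noF, [], [], [(12, 14, [1685382413448253767852309107433119732572617628602273068445374832641, 0])]⟩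

def c2424 : PLift (Cov.check n2424.C.D v2424 = true) := ⟨by decide +kernel⟩

def b2424 : PLift (entF (fidx ts) 400 2424 n2424 = true) := ⟨by decide +kernel⟩

theorem g2424 : GoodF (fidx ts) 400 2424 := GoodF.ofV v2424 n2424 c2424.down b2424.down

/-- 4746464:1944/6 -/
noncomputable def e2425 : SCfg where
  D := {
    a := 7
    L := 10
    kp := 7
    inn := [(0, 1), (1, 0), (1, 2), (1, 3), (2, 1), (3, 1), (3, 4), (3, 5), (4, 3), (5, 3), (5, 6), (6,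
      5)]
    mix := [(0, 0), (0, 1), (0, 2), (1, 0), (1, 2), (1, 3), (1, 4), (2, 2), (2, 3), (2, 5), (3, 3), (3,
      4), (3, 6), (4, 3), (4, 6), (4, 7), (5, 4), (5, 6), (5, 8), (5, 9), (6, 6), (6, 7), (6, 8)]
    cl := [0, 6, 2, 0, 1, 7, 1, 3, 4, 5]
    chq := [(0, 2), (2, 0), (3, 5), (5, 3)]
    rng := [(0, 1), (0, 4), (1, 0), (1, 2), (2, 1), (2, 5), (3, 5), (3, 7), (4, 0), (4, 9), (5, 2), (5,
      3), (6, 7), (7, 3), (7, 6), (7, 8), (8, 7), (8, 9), (9, 4), (9, 8)]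
    lev := [] }
  links := [[1, 7, 8, 9], [7, 0, 9, 2, 10, 3, 11], [10, 1, 9, 12], [11, 1, 10, 4, 13, 5], [13, 3, 10,
    14], [11, 3, 13, 6, 15, 16], [15, 5, 13, 14]]
  P := {
    a := 7
    N := 17
    nb := [898, 3725, 5634, 11314, 25608, 108616, 57376, 2307, 641, 4359, 20510, 65706, 1540, 16504,
      42064, 82016, 34848]
    tri := [(0, 1, 7), (0, 1, 9), (0, 7, 8), (0, 8, 9), (1, 2, 9), (1, 2, 10), (1, 3, 10), (1, 3, 11),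
      (1, 7, 11), (2, 9, 12), (2, 10, 12), (3, 4, 10), (3, 4, 13), (3, 5, 11), (3, 5, 13), (4, 10,
      14), (4, 13, 14), (5, 6, 13), (5, 6, 15), (5, 11, 16), (5, 15, 16), (6, 13, 14), (6, 14,
      15)]
    fin := [0, 0, 0, 3, 0, 5, 5, 0, 8, 9, 0, 3, 12, 3, 5, 15, 16]
    chd := [(0, 9), (5, 16)]
    steps := [(0, 1), (0, 2), (0, 7), (0, 10), (0, 4), (3, 13), (3, 11), (5, 6), (5, 14)] }
  rep := [0, 3, 9, 5, 15, 16, 8, 12]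

noncomputable def v2425 : Cov.CovD where
  P := 3
  N := 5
  pl := [1, 5, 8]
  lev := [⟨[], [], [(0, 2)], [6], [(0, 0, [2]), (2, 2, [0])]⟩,
    ⟨[], [(0, 0), (0, 1), (0, 2)], [(0, 0), (0, 1), (0, 2), (1, 2)], [], [(0, 0, [2]), (2,
      2, [0]), (3, 0, [2]), (4, 1, [])]⟩,
    ⟨[(0, 1)], [(0, 2), (1, 0), (1, 1), (1, 2)], [(0, 2)], [7], [(2, 2, [0]), (3, 0, [2])]⟩,
    ⟨[(0, 1), (1, 2)], [(1, 0), (1, 1), (1, 2), (2, 0)], [(0, 1), (1, 1)], [], [(3, 0,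
      [2]), (4, 1, []), (6, 1, [])]⟩,
    ⟨[(1, 3)], [(1, 0), (2, 0), (3, 0), (3, 1), (3, 3)], [(0, 1), (0, 3), (1, 3)], [], [(3,
      0, [2]), (6, 1, []), (7, 3, [5])]⟩,
    ⟨[(1, 3), (3, 4)], [(1, 1), (3, 0), (3, 1), (3, 5), (4, 1)], [(1, 1), (1, 5)], [4],
      [(4, 1, []), (6, 1, []), (9, 5, [3])]⟩,
    ⟨[(3, 5)], [(3, 1), (4, 1), (4, 3), (5, 1), (5, 3), (5, 5)], [(1, 3)], [4], [(6, 1,
      []), (7, 3, [5])]⟩]
  Ta := [((0, 1), 0, 6), ((0, 4), 0, 1), ((3, 5), 0, 7), ((3, 7), 0, 3), ((4, 0), 1, 0), ((4, 9),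
    1, 5), ((6, 7), 1, 3)]
  Tb := [((0, 1, 4), 0, 6, 1), ((1, 0, 2), 6, 0, 2), ((2, 1, 5), 2, 6, 7), ((3, 5, 7), 0, 7, 3),
    ((4, 0, 9), 1, 0, 5), ((5, 2, 3), 7, 2, 0), ((7, 3, 6), 3, 0, 1), ((7, 3, 8), 3, 0, 4),
    ((7, 6, 8), 3, 1, 4), ((8, 7, 9), 4, 3, 5), ((9, 4, 8), 5, 1, 4)]
  Tc := []
  Td := [((0, 2), (0, 1), 6), ((0, 2), (0, 4), 1), ((0, 2), (3, 5), 7), ((0, 2), (3, 7), 3), ((2,
    0), (2, 1), 6), ((2, 0), (2, 5), 7), ((3, 5), (7, 3), 0), ((3, 5), (7, 6), 1), ((3, 5),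
    (7, 8), 4), ((5, 3), (9, 4), 1), ((5, 3), (9, 8), 4)]
  G := [[0, 0x8a1e641ec218415e291e6814c, 0x1123c382413191c64291d18521d18a4c,
    0x591d2814591d2418c, 0x591d2418591d2418a], [0, 0, 0x591d1842591d1824591d1488e,
    0x915541dc888c14444891d549cc18c, 0x444891d519cc12444891d549cc18a], [0, 0,
    0x231d1884321d1448231d1428e, 0x59cd242451cda4c81, 0x59cd24228d28145e4a81], [0, 0,
    0x591d1844591d148211159c1c28e, 0x1884494544dc8998c91554cdc8cc1,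
    0x89cd519c44554898d58cca44488a1]]

noncomputable def n2425 : Ent := ⟨e2425, noF, [], [], [(12, 14, [1685382413448253767852309107433119732572617628602273068445374832641, 0])]⟩

def c2425 : PLift (Cov.check n2425.C.D v2425 = true) := ⟨by decide +kernel⟩

def b2425 : PLift (entF (fidx ts) 400 2425 n2425 = true) := ⟨by decide +kernel⟩

theorem g2425 : GoodF (fidx ts) 400 2425 := GoodF.ofV v2425 n2425 c2425.down b2425.down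

/-- 4746464:1944 -/
noncomputable def e2426 : SCfg where
  D := {
    a := 7
    L := 11
    kp := 8
    inn := [(0, 1), (1, 0), (1, 2), (1, 3), (2, 1), (3, 1), (3, 4), (3, 5), (4, 3), (5, 3), (5, 6), (6,
      5)]
    mix := [(0, 0), (0, 1), (0, 2), (1, 0), (1, 2), (1, 3), (1, 4), (2, 2), (2, 3), (2, 5), (3, 3), (3,
      4), (3, 6), (4, 3), (4, 6), (4, 7), (5, 4), (5, 6), (5, 8), (5, 9), (6, 6), (6, 8), (6, 10)]
    cl := [0, 6, 2, 0, 1, 7, 1, 8, 3, 4, 5]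
    chq := [(0, 2), (2, 0), (4, 5), (5, 4)]
    rng := [(0, 1), (0, 4), (1, 0), (1, 2), (2, 1), (2, 5), (3, 5), (3, 7), (4, 0), (4, 9), (5, 2), (5,
      3), (6, 7), (6, 10), (7, 3), (7, 6), (8, 9), (8, 10), (9, 4), (9, 8), (10, 6), (10, 8)]
    lev := [] }
  links := [[1, 7, 8, 9], [7, 0, 9, 2, 10, 3, 11], [10, 1, 9, 12], [11, 1, 10, 4, 13, 5], [13, 3, 10,
    14], [11, 3, 13, 6, 15, 16], [15, 5, 13, 17]]
  P := {
    a := 7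
    N := 18
    nb := [898, 3725, 5634, 11314, 25608, 108616, 172064, 2307, 641, 4359, 20510, 65706, 1540, 147576,
      9232, 196704, 34848, 41024]
    tri := [(0, 1, 7), (0, 1, 9), (0, 7, 8), (0, 8, 9), (1, 2, 9), (1, 2, 10), (1, 3, 10), (1, 3, 11),
      (1, 7, 11), (2, 9, 12), (2, 10, 12), (3, 4, 10), (3, 4, 13), (3, 5, 11), (3, 5, 13), (4, 10,
      14), (4, 13, 14), (5, 6, 13), (5, 6, 15), (5, 11, 16), (5, 15, 16), (6, 13, 17), (6, 15,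
      17)]
    fin := [0, 0, 0, 3, 0, 5, 5, 0, 8, 9, 0, 3, 12, 3, 14, 15, 16, 5]
    chd := [(0, 9), (16, 5)]
    steps := [(0, 1), (0, 2), (0, 7), (0, 10), (0, 4), (3, 13), (3, 11), (5, 6), (5, 17)] }
  rep := [0, 3, 9, 15, 16, 5, 8, 12, 14]

noncomputable def v2426 : Cov.CovD where
  P := 3
  N := 6
  pl := [1, 5, 7, 8]
  lev := [⟨[], [], [(0, 2)], [6], [(0, 0, [2]), (2, 2, [0])]⟩,
    ⟨[], [(0, 0), (0, 1), (0, 2)], [(0, 0), (0, 1), (0, 2), (1, 2)], [], [(0, 0, [2]), (2,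
      2, [0]), (3, 0, [2]), (4, 1, [])]⟩,
    ⟨[(0, 1)], [(0, 2), (1, 0), (1, 1), (1, 2)], [(0, 2)], [7], [(2, 2, [0]), (3, 0, [2])]⟩,
    ⟨[(0, 1), (1, 2)], [(1, 0), (1, 1), (1, 2), (2, 0)], [(0, 1), (1, 1)], [], [(3, 0,
      [2]), (4, 1, []), (6, 1, [])]⟩,
    ⟨[(1, 3)], [(1, 0), (2, 0), (3, 0), (3, 1)], [(0, 1)], [8], [(3, 0, [2]), (6, 1, [])]⟩,
    ⟨[(1, 3), (3, 4)], [(1, 1), (3, 0), (3, 1), (3, 4), (4, 1)], [(1, 1), (1, 4)], [3],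
      [(4, 1, []), (6, 1, []), (9, 4, [5])]⟩,
    ⟨[(3, 5)], [(3, 1), (4, 1), (5, 1), (5, 4), (5, 5)], [(1, 5)], [3], [(6, 1, []), (10,
      5, [4])]⟩]
  Ta := [((0, 1), 0, 6), ((0, 4), 0, 1), ((3, 5), 0, 7), ((3, 7), 0, 8), ((4, 0), 1, 0), ((4, 9),
    1, 4), ((6, 7), 1, 8), ((6, 10), 1, 5)]
  Tb := [((0, 1, 4), 0, 6, 1), ((1, 0, 2), 6, 0, 2), ((2, 1, 5), 2, 6, 7), ((3, 5, 7), 0, 7, 8),
    ((4, 0, 9), 1, 0, 4), ((5, 2, 3), 7, 2, 0), ((6, 7, 10), 1, 8, 5), ((7, 3, 6), 8, 0, 1),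
    ((8, 9, 10), 3, 4, 5), ((9, 4, 8), 4, 1, 3), ((10, 6, 8), 5, 1, 3)]
  Tc := []
  Td := [((0, 2), (0, 1), 6), ((0, 2), (0, 4), 1), ((0, 2), (3, 5), 7), ((0, 2), (3, 7), 8), ((2,
    0), (2, 1), 6), ((2, 0), (2, 5), 7), ((4, 5), (9, 4), 1), ((4, 5), (9, 8), 3), ((5, 4),
    (10, 6), 1), ((5, 4), (10, 8), 3)]
  G := [[0, 0x591e319ec21413ce6a1ea418c, 0x29bd142823cd1488236d1844e, 0x59cd281459cd2418c,
    0x59cd241859cd2418a], [0, 0, 0x59cd184459cd18849c51581c28e,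
    0x9c559cdc588c149c5459cd58cc18c, 0x9c5459cd58cc129c5459cd58cc18a], [0, 0,
    0x6a2d18327d18a46a2d1852cd18c46, 0x59cd2459cd24c81, 0x59cd2459cd24a81], [0, 0,
    0x59cd144859cd188259cd1428e, 0x59cd5c9c494459cd5c9ccc94488c1,
    0x9c5459cd58cc29c559cdc588c8a1]]

noncomputable def n2426 : Ent := ⟨e2426, noF, [], [], [(8, 17, [6903326391201334775872065844685381424292761054348340378595029939605505, 0]), (12, 14, [7334790875878422277917280412776772662961875900559637987928627379400705, 0]), (12, 17, [6903326391201334775872065844685381424292761054348340378595029939617793, 0]), (14, 17, [6903326391201334775872065844685381424292761054348340378595029939621889, 0])]⟩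

def c2426 : PLift (Cov.check n2426.C.D v2426 = true) := ⟨by decide +kernel⟩

def b2426 : PLift (entF (fidx ts) 400 2426 n2426 = true) := ⟨by decide +kernel⟩

theorem g2426 : GoodF (fidx ts) 400 2426 := GoodF.ofV v2426 n2426 c2426.down b2426.down

/-- 4746464:1945/3 -/
noncomputable def e2427 : SCfg where
  D := {
    a := 7
    L := 8
    kp := 5
    inn := [(0, 1), (1, 0), (1, 2), (1, 3), (2, 1), (3, 1), (3, 4), (3, 5), (4, 3), (5, 3), (5, 6), (6,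
      5)]
    mix := [(0, 0), (0, 1), (0, 2), (1, 0), (1, 2), (1, 3), (1, 4), (2, 2), (2, 3), (2, 5), (3, 3), (3,
      4), (3, 6), (4, 3), (4, 5), (4, 6), (5, 1), (5, 4), (5, 6), (5, 7), (6, 0), (6, 1), (6, 4)]
    cl := [0, 4, 3, 0, 1, 2, 1, 5]
    chq := [(0, 3), (0, 5), (3, 0), (5, 0)]
    rng := [(0, 1), (0, 4), (1, 0), (1, 2), (1, 7), (2, 1), (2, 5), (3, 5), (4, 0), (5, 2), (5, 3), (5,
      6), (6, 5), (6, 7), (7, 1), (7, 6)]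
    lev := [] }
  links := [[1, 7, 8, 9], [7, 0, 9, 2, 10, 3, 11], [10, 1, 9, 12], [11, 1, 10, 4, 13, 5], [13, 3, 10,
    12], [11, 3, 13, 14, 8, 6], [11, 5, 8, 7]]
  P := {
    a := 7
    N := 15
    nb := [898, 3725, 5634, 11314, 13320, 26952, 2464, 2371, 17121, 4359, 4126, 234, 9748, 20536,
      8480]
    tri := [(0, 1, 7), (0, 1, 9), (0, 7, 8), (0, 8, 9), (1, 2, 9), (1, 2, 10), (1, 3, 10), (1, 3, 11),
      (1, 7, 11), (2, 9, 12), (2, 10, 12), (3, 4, 10), (3, 4, 13), (3, 5, 11), (3, 5, 13), (4, 10,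
      12), (4, 12, 13), (5, 6, 8), (5, 6, 11), (5, 8, 14), (5, 13, 14), (6, 7, 8), (6, 7, 11)]
    fin := [0, 0, 0, 3, 0, 0, 0, 0, 8, 9, 0, 3, 12, 3, 14]
    chd := [(0, 9), (0, 14)]
    steps := [(0, 1), (0, 2), (0, 7), (0, 6), (0, 10), (0, 4), (3, 13), (3, 11), (0, 5)] }
  rep := [0, 3, 12, 9, 8, 14]

noncomputable def v2427 : Cov.CovD where
  P := 3
  N := 3
  pl := [1, 5]
  lev := [⟨[], [], [(0, 3)], [4], [(0, 0, [3, 5]), (2, 3, [0])]⟩,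
    ⟨[], [(0, 0), (0, 1), (0, 3)], [(0, 0), (0, 1), (0, 3), (1, 3)], [], [(0, 0, [3, 5]),
      (2, 3, [0]), (3, 0, [3, 5]), (4, 1, [])]⟩,
    ⟨[(0, 1)], [(0, 3), (1, 0), (1, 1), (1, 3)], [(0, 3)], [2], [(2, 3, [0]), (3, 0, [3,
      5])]⟩,
    ⟨[(0, 1), (1, 2)], [(1, 0), (1, 1), (1, 3), (2, 0)], [(0, 1), (1, 1)], [], [(3, 0, [3,
      5]), (4, 1, []), (6, 1, [])]⟩,
    ⟨[(1, 3)], [(1, 0), (2, 0), (3, 0), (3, 1)], [(0, 1)], [2], [(3, 0, [3, 5]), (6, 1,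
      [])]⟩,
    ⟨[(1, 3), (3, 4)], [(1, 1), (3, 0), (3, 1), (3, 5), (4, 1)], [(1, 1), (1, 5)], [4],
      [(4, 1, []), (6, 1, []), (7, 5, [0])]⟩,
    ⟨[(3, 5)], [(0, 0), (1, 0), (1, 1), (3, 1), (5, 0), (5, 1), (5, 5)], [(0, 1)], [4],
      [(0, 0, [3, 5]), (4, 1, [])]⟩]
  Ta := [((0, 1), 0, 4), ((0, 4), 0, 1), ((3, 5), 0, 2), ((4, 0), 1, 0), ((6, 5), 1, 2), ((6, 7),
    1, 5)]
  Tb := [((0, 1, 4), 0, 4, 1), ((1, 0, 2), 4, 0, 3), ((1, 0, 7), 4, 0, 5), ((1, 2, 7), 4, 3, 5),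
    ((2, 1, 5), 3, 4, 2), ((5, 2, 3), 2, 3, 0), ((5, 2, 6), 2, 3, 1), ((5, 3, 6), 2, 0, 1),
    ((6, 5, 7), 1, 2, 5), ((7, 1, 6), 5, 4, 1)]
  Tc := [(0, 3, 5)]
  Td := [((0, 3), (0, 1), 4), ((0, 3), (0, 4), 1), ((0, 3), (3, 5), 2), ((0, 5), (0, 1), 4), ((0,
    5), (0, 4), 1), ((0, 5), (3, 5), 2), ((3, 0), (2, 1), 4), ((3, 0), (2, 5), 2), ((5, 0),
    (7, 1), 4), ((5, 0), (7, 6), 1)]
  G := [[0, 0x8482ac418442e4814222e4812e, 0, 0, 0x8858418812884548a83444924881142ce], [0, 0, 0,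
    0x88c841844c18422114821881ce, 0x888d84184118445889421841829842ce], [0, 0, 0xc1448c1284c1,
    0, 0x412824812824c184887], [0, 0, 0x61848a1884c1, 0x814842218844c144827,
    0x4188242184246184887]]

noncomputable def n2427 : Ent := ⟨e2427, noF, [], [], []⟩

def c2427 : PLift (Cov.check n2427.C.D v2427 = true) := ⟨by decide +kernel⟩

def b2427 : PLift (entF (fidx ts) 400 2427 n2427 = true) := ⟨by decide +kernel⟩

theorem g2427 : GoodF (fidx ts) 400 2427 := GoodF.ofV v2427 n2427 c2427.down b2427.down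

/-- 4746464:1945/2 -/
noncomputable def e2428 : SCfg where
  D := {
    a := 7
    L := 9
    kp := 6
    inn := [(0, 1), (1, 0), (1, 2), (1, 3), (2, 1), (3, 1), (3, 4), (3, 5), (4, 3), (5, 3), (5, 6), (6,
      5)]
    mix := [(0, 0), (0, 1), (0, 2), (1, 0), (1, 2), (1, 3), (1, 4), (2, 2), (2, 3), (2, 5), (3, 3), (3,
      4), (3, 6), (4, 3), (4, 6), (4, 7), (5, 1), (5, 4), (5, 6), (5, 8), (6, 0), (6, 1), (6, 4)]
    cl := [0, 3, 2, 0, 1, 5, 1, 6, 4]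
    chq := [(0, 2), (0, 4), (2, 0), (4, 0)]
    rng := [(0, 1), (0, 4), (1, 0), (1, 2), (1, 8), (2, 1), (2, 5), (3, 5), (3, 7), (4, 0), (5, 2), (5,
      3), (6, 7), (6, 8), (7, 3), (7, 6), (8, 1), (8, 6)]
    lev := [] }
  links := [[1, 7, 8, 9], [7, 0, 9, 2, 10, 3, 11], [10, 1, 9, 12], [11, 1, 10, 4, 13, 5], [13, 3, 10,
    14], [11, 3, 13, 15, 8, 6], [11, 5, 8, 7]]
  P := {
    a := 7
    N := 16
    nb := [898, 3725, 5634, 11314, 25608, 43336, 2464, 2371, 33505, 4359, 20510, 234, 1540, 49208,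
      9232, 8480]
    tri := [(0, 1, 7), (0, 1, 9), (0, 7, 8), (0, 8, 9), (1, 2, 9), (1, 2, 10), (1, 3, 10), (1, 3, 11),
      (1, 7, 11), (2, 9, 12), (2, 10, 12), (3, 4, 10), (3, 4, 13), (3, 5, 11), (3, 5, 13), (4, 10,
      14), (4, 13, 14), (5, 6, 8), (5, 6, 11), (5, 8, 15), (5, 13, 15), (6, 7, 8), (6, 7, 11)]
    fin := [0, 0, 0, 3, 0, 0, 0, 0, 8, 9, 0, 3, 12, 3, 14, 15]
    chd := [(0, 9), (0, 15)]
    steps := [(0, 1), (0, 2), (0, 7), (0, 6), (0, 10), (0, 4), (3, 13), (3, 11), (0, 5)] }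
  rep := [0, 3, 9, 8, 15, 12, 14]

noncomputable def v2428 : Cov.CovD where
  P := 3
  N := 4
  pl := [1, 5, 7]
  lev := [⟨[], [], [(0, 2)], [3], [(0, 0, [2, 4]), (2, 2, [0])]⟩,
    ⟨[], [(0, 0), (0, 1), (0, 2)], [(0, 0), (0, 1), (0, 2), (1, 2)], [], [(0, 0, [2, 4]),
      (2, 2, [0]), (3, 0, [2, 4]), (4, 1, [])]⟩,
    ⟨[(0, 1)], [(0, 2), (1, 0), (1, 1), (1, 2)], [(0, 2)], [5], [(2, 2, [0]), (3, 0, [2,
      4])]⟩,
    ⟨[(0, 1), (1, 2)], [(1, 0), (1, 1), (1, 2), (2, 0)], [(0, 1), (1, 1)], [], [(3, 0, [2,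
      4]), (4, 1, []), (6, 1, [])]⟩,
    ⟨[(1, 3)], [(1, 0), (2, 0), (3, 0), (3, 1)], [(0, 1)], [6], [(3, 0, [2, 4]), (6, 1,
      [])]⟩,
    ⟨[(1, 3), (3, 4)], [(1, 1), (3, 0), (3, 1), (3, 4), (4, 1)], [(1, 1), (1, 4)], [3],
      [(4, 1, []), (6, 1, []), (8, 4, [0])]⟩,
    ⟨[(3, 5)], [(0, 0), (1, 0), (1, 1), (3, 1), (5, 0), (5, 1), (5, 4)], [(0, 1)], [3],
      [(0, 0, [2, 4]), (4, 1, [])]⟩]
  Ta := [((0, 1), 0, 3), ((0, 4), 0, 1), ((3, 5), 0, 5), ((3, 7), 0, 6), ((4, 0), 1, 0), ((6, 7),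
    1, 6), ((6, 8), 1, 4)]
  Tb := [((0, 1, 4), 0, 3, 1), ((1, 0, 2), 3, 0, 2), ((1, 0, 8), 3, 0, 4), ((1, 2, 8), 3, 2, 4),
    ((2, 1, 5), 2, 3, 5), ((3, 5, 7), 0, 5, 6), ((5, 2, 3), 5, 2, 0), ((6, 7, 8), 1, 6, 4),
    ((7, 3, 6), 6, 0, 1), ((8, 1, 6), 4, 3, 1)]
  Tc := [(0, 2, 4)]
  Td := [((0, 2), (0, 1), 3), ((0, 2), (0, 4), 1), ((0, 2), (3, 5), 5), ((0, 2), (3, 7), 6), ((0,
    4), (0, 1), 3), ((0, 4), (0, 4), 1), ((0, 4), (3, 5), 5), ((0, 4), (3, 7), 6), ((2, 0),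
    (2, 1), 3), ((2, 0), (2, 5), 5), ((4, 0), (8, 1), 3), ((4, 0), (8, 6), 1)]
  G := [[0, 0x88a88aa4144464266818c, 0x81248124684124412868c, 0x88924148452418c,
    0x88924188452418a], [0, 0, 0x811824411482211448e, 0x48948298c14845845c814c,
    0x84544cc81222921c418a], [0, 0, 0x811481246841284114a4a, 0xc124c128c41, 0xc124c124a81],
    [0, 0, 0x811428411488211844e, 0xa161c8c1a1c8c41, 0xc161c461a1c4a81]]

noncomputable def n2428 : Ent := ⟨e2428, noF, [], [], [(12, 14, [385746751338780685620664494392815470296102193487288376382435329, 0])]⟩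

def c2428 : PLift (Cov.check n2428.C.D v2428 = true) := ⟨by decide +kernel⟩

def b2428 : PLift (entF (fidx ts) 400 2428 n2428 = true) := ⟨by decide +kernel⟩

theorem g2428 : GoodF (fidx ts) 400 2428 := GoodF.ofV v2428 n2428 c2428.down b2428.down

/-- 4746464:1945/4 -/
noncomputable def e2429 : SCfg where
  D := {
    a := 7
    L := 9
    kp := 6
    inn := [(0, 1), (1, 0), (1, 2), (1, 3), (2, 1), (3, 1), (3, 4), (3, 5), (4, 3), (5, 3), (5, 6), (6,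
      5)]
    mix := [(0, 0), (0, 1), (0, 2), (1, 0), (1, 2), (1, 3), (1, 4), (2, 2), (2, 3), (2, 5), (3, 3), (3,
      4), (3, 6), (4, 3), (4, 5), (4, 6), (5, 4), (5, 6), (5, 7), (5, 8), (6, 0), (6, 4), (6, 8)]
    cl := [0, 6, 3, 0, 1, 2, 1, 5, 4]
    chq := [(0, 3), (0, 5), (3, 0), (5, 0)]
    rng := [(0, 1), (0, 4), (0, 8), (1, 0), (1, 2), (2, 1), (2, 5), (3, 5), (4, 0), (5, 2), (5, 3), (5,
      6), (6, 5), (6, 7), (7, 6), (7, 8), (8, 0), (8, 7)]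
    lev := [] }
  links := [[1, 7, 8, 9], [7, 0, 9, 2, 10, 3, 11], [10, 1, 9, 12], [11, 1, 10, 4, 13, 5], [13, 3, 10,
    12], [11, 3, 13, 14, 15, 6], [11, 5, 15, 7]]
  P := {
    a := 7
    N := 16
    nb := [898, 3725, 5634, 11314, 13320, 59464, 34976, 35139, 641, 4359, 4126, 234, 9748, 20536,
      40992, 16608]
    tri := [(0, 1, 7), (0, 1, 9), (0, 7, 8), (0, 8, 9), (1, 2, 9), (1, 2, 10), (1, 3, 10), (1, 3, 11),
      (1, 7, 11), (2, 9, 12), (2, 10, 12), (3, 4, 10), (3, 4, 13), (3, 5, 11), (3, 5, 13), (4, 10,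
      12), (4, 12, 13), (5, 6, 11), (5, 6, 15), (5, 13, 14), (5, 14, 15), (6, 7, 11), (6, 7, 15)]
    fin := [0, 0, 0, 3, 0, 0, 0, 0, 8, 9, 0, 3, 12, 3, 14, 15]
    chd := [(0, 9), (0, 14)]
    steps := [(0, 1), (0, 2), (0, 7), (0, 6), (0, 10), (0, 4), (3, 13), (3, 11), (0, 5)] }
  rep := [0, 3, 12, 9, 15, 14, 8]

noncomputable def v2429 : Cov.CovD where
  P := 3
  N := 4
  pl := [1, 5, 8]
  lev := [⟨[], [], [(0, 3)], [6], [(0, 0, [3, 5]), (2, 3, [0])]⟩,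
    ⟨[], [(0, 0), (0, 1), (0, 3)], [(0, 0), (0, 1), (0, 3), (1, 3)], [], [(0, 0, [3, 5]),
      (2, 3, [0]), (3, 0, [3, 5]), (4, 1, [])]⟩,
    ⟨[(0, 1)], [(0, 3), (1, 0), (1, 1), (1, 3)], [(0, 3)], [2], [(2, 3, [0]), (3, 0, [3,
      5])]⟩,
    ⟨[(0, 1), (1, 2)], [(1, 0), (1, 1), (1, 3), (2, 0)], [(0, 1), (1, 1)], [], [(3, 0, [3,
      5]), (4, 1, []), (6, 1, [])]⟩,
    ⟨[(1, 3)], [(1, 0), (2, 0), (3, 0), (3, 1)], [(0, 1)], [2], [(3, 0, [3, 5]), (6, 1,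
      [])]⟩,
    ⟨[(1, 3), (3, 4)], [(1, 1), (3, 0), (3, 1), (3, 5), (4, 1)], [(1, 1), (1, 5)], [4],
      [(4, 1, []), (6, 1, []), (7, 5, [0])]⟩,
    ⟨[(3, 5)], [(0, 0), (1, 0), (1, 1), (3, 1), (5, 0), (5, 1), (5, 5)], [(0, 1)], [4],
      [(0, 0, [3, 5]), (4, 1, [])]⟩]
  Ta := [((0, 1), 0, 6), ((0, 4), 0, 1), ((0, 8), 0, 4), ((3, 5), 0, 2), ((4, 0), 1, 0), ((6, 5),
    1, 2), ((6, 7), 1, 5)]
  Tb := [((0, 1, 4), 0, 6, 1), ((0, 1, 8), 0, 6, 4), ((0, 4, 8), 0, 1, 4), ((1, 0, 2), 6, 0, 3),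
    ((2, 1, 5), 3, 6, 2), ((5, 2, 3), 2, 3, 0), ((5, 2, 6), 2, 3, 1), ((5, 3, 6), 2, 0, 1),
    ((6, 5, 7), 1, 2, 5), ((7, 6, 8), 5, 1, 4), ((8, 0, 7), 4, 0, 5)]
  Tc := [(0, 3, 5)]
  Td := [((0, 3), (0, 1), 6), ((0, 3), (0, 4), 1), ((0, 3), (0, 8), 4), ((0, 3), (3, 5), 2), ((0,
    5), (0, 1), 6), ((0, 5), (0, 4), 1), ((0, 5), (0, 8), 4), ((0, 5), (3, 5), 2), ((3, 0),
    (2, 1), 6), ((3, 0), (2, 5), 2), ((5, 0), (7, 6), 1), ((5, 0), (7, 8), 4)]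
  G := [[0, 0x84ce8218642e48144264884c12e, 0, 0, 0x88cd8418c11844cd289488cd2484428c98c2ce], [0,
    0, 0, 0x44cd4882442d4814482d848226d184ce, 0x882d8418289184291884588b4286d84826548982ce],
    [0, 0, 0xc1848c1484c1, 0, 0xc12824c18824c184887], [0, 0, 0x61448c1484c1,
    0xc14442618844c148827, 0xa18824a18424a184887]]

noncomputable def n2429 : Ent := ⟨e2429, noF, [], [], [(8, 15, [360035742630636841211993100915356868655746945586763691017613313, 0])]⟩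

def c2429 : PLift (Cov.check n2429.C.D v2429 = true) := ⟨by decide +kernel⟩

def b2429 : PLift (entF (fidx ts) 400 2429 n2429 = true) := ⟨by decide +kernel⟩

theorem g2429 : GoodF (fidx ts) 400 2429 := GoodF.ofV v2429 n2429 c2429.down b2429.down

/-- 4746464:1945/1 -/
noncomputable def e2430 : SCfg where
  D := {
    a := 7
    L := 10
    kp := 7
    inn := [(0, 1), (1, 0), (1, 2), (1, 3), (2, 1), (3, 1), (3, 4), (3, 5), (4, 3), (5, 3), (5, 6), (6,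
      5)]
    mix := [(0, 0), (0, 1), (0, 2), (1, 0), (1, 2), (1, 3), (1, 4), (2, 2), (2, 3), (2, 5), (3, 3), (3,
      4), (3, 6), (4, 3), (4, 6), (4, 7), (5, 4), (5, 6), (5, 8), (5, 9), (6, 0), (6, 4), (6, 9)]
    cl := [0, 5, 2, 0, 1, 6, 1, 7, 4, 3]
    chq := [(0, 2), (0, 4), (2, 0), (4, 0)]
    rng := [(0, 1), (0, 4), (0, 9), (1, 0), (1, 2), (2, 1), (2, 5), (3, 5), (3, 7), (4, 0), (5, 2), (5,
      3), (6, 7), (6, 8), (7, 3), (7, 6), (8, 6), (8, 9), (9, 0), (9, 8)]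
    lev := [] }
  links := [[1, 7, 8, 9], [7, 0, 9, 2, 10, 3, 11], [10, 1, 9, 12], [11, 1, 10, 4, 13, 5], [13, 3, 10,
    14], [11, 3, 13, 15, 16, 6], [11, 5, 16, 7]]
  P := {
    a := 7
    N := 17
    nb := [898, 3725, 5634, 11314, 25608, 108616, 67744, 67907, 641, 4359, 20510, 234, 1540, 49208,
      9232, 73760, 32992]
    tri := [(0, 1, 7), (0, 1, 9), (0, 7, 8), (0, 8, 9), (1, 2, 9), (1, 2, 10), (1, 3, 10), (1, 3, 11),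
      (1, 7, 11), (2, 9, 12), (2, 10, 12), (3, 4, 10), (3, 4, 13), (3, 5, 11), (3, 5, 13), (4, 10,
      14), (4, 13, 14), (5, 6, 11), (5, 6, 16), (5, 13, 15), (5, 15, 16), (6, 7, 11), (6, 7, 16)]
    fin := [0, 0, 0, 3, 0, 0, 0, 0, 8, 9, 0, 3, 12, 3, 14, 15, 16]
    chd := [(0, 9), (0, 15)]
    steps := [(0, 1), (0, 2), (0, 7), (0, 6), (0, 10), (0, 4), (3, 13), (3, 11), (0, 5)] }
  rep := [0, 3, 9, 16, 15, 8, 12, 14]

noncomputable def v2430 : Cov.CovD where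
  P := 3
  N := 5
  pl := [1, 5, 7, 9]
  lev := [⟨[], [], [(0, 2)], [5], [(0, 0, [2, 4]), (2, 2, [0])]⟩,
    ⟨[], [(0, 0), (0, 1), (0, 2)], [(0, 0), (0, 1), (0, 2), (1, 2)], [], [(0, 0, [2, 4]),
      (2, 2, [0]), (3, 0, [2, 4]), (4, 1, [])]⟩,
    ⟨[(0, 1)], [(0, 2), (1, 0), (1, 1), (1, 2)], [(0, 2)], [6], [(2, 2, [0]), (3, 0, [2,
      4])]⟩,
    ⟨[(0, 1), (1, 2)], [(1, 0), (1, 1), (1, 2), (2, 0)], [(0, 1), (1, 1)], [], [(3, 0, [2,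
      4]), (4, 1, []), (6, 1, [])]⟩,
    ⟨[(1, 3)], [(1, 0), (2, 0), (3, 0), (3, 1)], [(0, 1)], [7], [(3, 0, [2, 4]), (6, 1,
      [])]⟩,
    ⟨[(1, 3), (3, 4)], [(1, 1), (3, 0), (3, 1), (3, 4), (4, 1)], [(1, 1), (1, 4)], [3],
      [(4, 1, []), (6, 1, []), (8, 4, [0])]⟩,
    ⟨[(3, 5)], [(0, 0), (1, 0), (1, 1), (3, 1), (5, 0), (5, 1), (5, 4)], [(0, 1)], [3],
      [(0, 0, [2, 4]), (4, 1, [])]⟩]
  Ta := [((0, 1), 0, 5), ((0, 4), 0, 1), ((0, 9), 0, 3), ((3, 5), 0, 6), ((3, 7), 0, 7), ((4, 0),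
    1, 0), ((6, 7), 1, 7), ((6, 8), 1, 4)]
  Tb := [((0, 1, 4), 0, 5, 1), ((0, 1, 9), 0, 5, 3), ((0, 4, 9), 0, 1, 3), ((1, 0, 2), 5, 0, 2),
    ((2, 1, 5), 2, 5, 6), ((3, 5, 7), 0, 6, 7), ((5, 2, 3), 6, 2, 0), ((6, 7, 8), 1, 7, 4),
    ((7, 3, 6), 7, 0, 1), ((8, 6, 9), 4, 1, 3), ((9, 0, 8), 3, 0, 4)]
  Tc := [(0, 2, 4)]
  Td := [((0, 2), (0, 1), 5), ((0, 2), (0, 4), 1), ((0, 2), (0, 9), 3), ((0, 2), (3, 5), 6), ((0,
    2), (3, 7), 7), ((0, 4), (0, 1), 5), ((0, 4), (0, 4), 1), ((0, 4), (0, 9), 3), ((0, 4),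
    (3, 5), 6), ((0, 4), (3, 7), 7), ((2, 0), (2, 1), 5), ((2, 0), (2, 5), 6), ((4, 0), (8,
    6), 1), ((4, 0), (8, 9), 3)]
  G := [[0, 0x22284ce84c661822484ce84ca618c, 0xc11884c12848c11424e, 0x44cd281448cd2814c,
    0x88cd24184c52882c18a], [0, 0, 0xc118c118a4c118a118646,
    0x826d1442414691c8c844882d829cc18c, 0x882d8c9c4144481a882d14482d14a8a], [0, 0,
    0xc11428c12884c11848e, 0xc124c124c81, 0xc124c128a81], [0, 0, 0xa11448c11488611424e,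
    0xc1a1c46161c4c81, 0xc1a1c4a1c1c4a81]]

noncomputable def n2430 : Ent := ⟨e2430, noF, [], [], [(8, 16, [1580044410770988437309982408355971841652082177953823432505699057665, 0]), (12, 14, [1685382413448253767852309107433119732572617628602273068445374861313, 0])]⟩

def c2430 : PLift (Cov.check n2430.C.D v2430 = true) := ⟨by decide +kernel⟩

def b2430 : PLift (entF (fidx ts) 400 2430 n2430 = true) := ⟨by decide +kernel⟩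

theorem g2430 : GoodF (fidx ts) 400 2430 := GoodF.ofV v2430 n2430 c2430.down b2430.down

/-- 4746464:1945/6 -/
noncomputable def e2431 : SCfg where
  D := {
    a := 7
    L := 9
    kp := 6
    inn := [(0, 1), (1, 0), (1, 2), (1, 3), (2, 1), (3, 1), (3, 4), (3, 5), (4, 3), (5, 3), (5, 6), (6,
      5)]
    mix := [(0, 0), (0, 1), (0, 2), (1, 0), (1, 2), (1, 3), (1, 4), (2, 2), (2, 3), (2, 5), (3, 3), (3,
      4), (3, 6), (4, 3), (4, 5), (4, 6), (5, 1), (5, 4), (5, 6), (5, 7), (6, 1), (6, 4), (6, 8)]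
    cl := [0, 3, 2, 0, 1, 4, 1, 5, 6]
    chq := [(0, 2), (1, 3), (2, 0), (3, 1)]
    rng := [(0, 1), (0, 4), (1, 0), (1, 2), (1, 7), (1, 8), (2, 1), (2, 5), (3, 5), (4, 0), (4, 8), (5,
      2), (5, 3), (5, 6), (6, 5), (6, 7), (7, 1), (7, 6), (8, 1), (8, 4)]
    lev := [] }
  links := [[1, 7, 8, 9], [7, 0, 9, 2, 10, 3, 11], [10, 1, 9, 12], [11, 1, 10, 4, 13, 5], [13, 3, 10,
    12], [11, 3, 13, 14, 8, 6], [11, 5, 8, 15]]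
  P := {
    a := 7
    N := 16
    nb := [898, 3725, 5634, 11314, 13320, 26952, 35104, 2307, 49889, 4359, 4126, 33002, 9748, 20536,
      8480, 2368]
    tri := [(0, 1, 7), (0, 1, 9), (0, 7, 8), (0, 8, 9), (1, 2, 9), (1, 2, 10), (1, 3, 10), (1, 3, 11),
      (1, 7, 11), (2, 9, 12), (2, 10, 12), (3, 4, 10), (3, 4, 13), (3, 5, 11), (3, 5, 13), (4, 10,
      12), (4, 12, 13), (5, 6, 8), (5, 6, 11), (5, 8, 14), (5, 13, 14), (6, 8, 15), (6, 11, 15)]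
    fin := [0, 0, 0, 3, 0, 5, 5, 0, 5, 9, 0, 3, 12, 3, 14, 15]
    chd := [(0, 9), (5, 3)]
    steps := [(0, 1), (0, 2), (0, 7), (0, 10), (0, 4), (3, 13), (3, 11), (5, 6), (5, 8)] }
  rep := [0, 3, 9, 5, 12, 14, 15]

noncomputable def v2431 : Cov.CovD where
  P := 3
  N := 4
  pl := [5, 7, 8]
  lev := [⟨[], [], [(0, 2), (0, 3), (2, 3)], [], [(0, 0, [2]), (1, 3, [1]), (2, 2, [0])]⟩,
    ⟨[], [(0, 0), (0, 1), (0, 2), (0, 3)], [(0, 0), (0, 1), (0, 2), (1, 2)], [], [(0, 0,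
      [2]), (2, 2, [0]), (3, 0, [2]), (4, 1, [3])]⟩,
    ⟨[(0, 1)], [(0, 2), (1, 0), (1, 1), (1, 2)], [(0, 2)], [4], [(2, 2, [0]), (3, 0, [2])]⟩,
    ⟨[(0, 1), (1, 2)], [(1, 0), (1, 1), (1, 2), (2, 0)], [(0, 1), (1, 1)], [], [(3, 0,
      [2]), (4, 1, [3]), (6, 1, [3])]⟩,
    ⟨[(1, 3)], [(1, 0), (2, 0), (3, 0), (3, 1)], [(0, 1)], [4], [(3, 0, [2]), (6, 1, [3])]⟩,
    ⟨[(1, 3), (3, 4)], [(0, 3), (1, 1), (3, 0), (3, 1), (3, 3), (4, 1)], [(1, 1), (1, 3)],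
      [5], [(1, 3, [1]), (4, 1, [3]), (6, 1, [3])]⟩,
    ⟨[(3, 5)], [(0, 3), (1, 1), (3, 1), (5, 1), (5, 3)], [(1, 3)], [6], [(1, 3, [1]), (4,
      1, [3])]⟩]
  Ta := [((0, 1), 0, 3), ((0, 4), 0, 1), ((3, 5), 0, 4), ((4, 0), 1, 0), ((4, 8), 1, 6), ((6, 5),
    1, 4), ((6, 7), 1, 5)]
  Tb := [((0, 1, 4), 0, 3, 1), ((1, 0, 2), 3, 0, 2), ((1, 0, 7), 3, 0, 5), ((1, 0, 8), 3, 0, 6),
    ((1, 2, 7), 3, 2, 5), ((1, 2, 8), 3, 2, 6), ((1, 7, 8), 3, 5, 6), ((2, 1, 5), 2, 3, 4),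
    ((4, 0, 8), 1, 0, 6), ((5, 2, 3), 4, 2, 0), ((5, 2, 6), 4, 2, 1), ((5, 3, 6), 4, 0, 1),
    ((6, 5, 7), 1, 4, 5), ((7, 1, 6), 5, 3, 1), ((8, 1, 4), 6, 3, 1)]
  Tc := []
  Td := [((0, 2), (0, 1), 3), ((0, 2), (0, 4), 1), ((0, 2), (3, 5), 4), ((1, 3), (4, 0), 0), ((1,
    3), (4, 8), 6), ((1, 3), (6, 5), 4), ((1, 3), (6, 7), 5), ((2, 0), (2, 1), 3), ((2, 0),
    (2, 5), 4), ((3, 1), (1, 0), 0), ((3, 1), (1, 2), 2), ((3, 1), (1, 7), 5), ((3, 1), (1,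
    8), 6)]
  G := [[0, 0xaaaeaa6418666e666814c, 0x9d915425242, 0xd992418d552818c, 0xd11ddc29282], [0, 0,
    0x92c21c45b51281ca82, 0x229229c418225225c814c, 0xa35d1424229c4382], [0, 0,
    0x15dd18829242, 0x9844415dd2888c5d548cc1, 0x5d52982c282], [0, 0, 0x222d1493ad14a82,
    0x222d842442294cc81, 0xa36d845449294ca82]]

noncomputable def n2431 : Ent := ⟨e2431, noF, [], [], [(7, 15, [360035742630636841211993100915356868655746945586763691017613313, 0])]⟩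

def c2431 : PLift (Cov.check n2431.C.D v2431 = true) := ⟨by decide +kernel⟩

def b2431 : PLift (entF (fidx ts) 400 2431 n2431 = true) := ⟨by decide +kernel⟩

theorem g2431 : GoodF (fidx ts) 400 2431 := GoodF.ofV v2431 n2431 c2431.down b2431.down

/-- 4746464:1945/5 -/
noncomputable def e2432 : SCfg where
  D := {
    a := 7
    L := 10
    kp := 7
    inn := [(0, 1), (1, 0), (1, 2), (1, 3), (2, 1), (3, 1), (3, 4), (3, 5), (4, 3), (5, 3), (5, 6), (6,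
      5)]
    mix := [(0, 0), (0, 1), (0, 2), (1, 0), (1, 2), (1, 3), (1, 4), (2, 2), (2, 3), (2, 5), (3, 3), (3,
      4), (3, 6), (4, 3), (4, 6), (4, 7), (5, 1), (5, 4), (5, 6), (5, 8), (6, 1), (6, 4), (6, 9)]
    cl := [0, 3, 2, 0, 1, 6, 1, 7, 4, 5]
    chq := [(0, 2), (2, 0), (4, 5), (5, 4)]
    rng := [(0, 1), (0, 4), (1, 0), (1, 2), (1, 8), (1, 9), (2, 1), (2, 5), (3, 5), (3, 7), (4, 0), (4,
      9), (5, 2), (5, 3), (6, 7), (6, 8), (7, 3), (7, 6), (8, 1), (8, 6), (9, 1), (9, 4)]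
    lev := [] }
  links := [[1, 7, 8, 9], [7, 0, 9, 2, 10, 3, 11], [10, 1, 9, 12], [11, 1, 10, 4, 13, 5], [13, 3, 10,
    14], [11, 3, 13, 15, 8, 6], [11, 5, 8, 16]]
  P := {
    a := 7
    N := 17
    nb := [898, 3725, 5634, 11314, 25608, 43336, 67872, 2307, 99041, 4359, 20510, 65770, 1540, 49208,
      9232, 8480, 2368]
    tri := [(0, 1, 7), (0, 1, 9), (0, 7, 8), (0, 8, 9), (1, 2, 9), (1, 2, 10), (1, 3, 10), (1, 3, 11),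
      (1, 7, 11), (2, 9, 12), (2, 10, 12), (3, 4, 10), (3, 4, 13), (3, 5, 11), (3, 5, 13), (4, 10,
      14), (4, 13, 14), (5, 6, 8), (5, 6, 11), (5, 8, 15), (5, 13, 15), (6, 8, 16), (6, 11, 16)]
    fin := [0, 0, 0, 3, 0, 5, 5, 0, 8, 9, 0, 3, 12, 3, 14, 5, 16]
    chd := [(0, 9), (5, 16)]
    steps := [(0, 1), (0, 2), (0, 7), (0, 10), (0, 4), (3, 13), (3, 11), (5, 6), (5, 15)] }
  rep := [0, 3, 9, 8, 5, 16, 12, 14]

noncomputable def v2432 : Cov.CovD where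
  P := 3
  N := 5
  pl := [1, 5, 7]
  lev := [⟨[], [], [(0, 2)], [3], [(0, 0, [2]), (2, 2, [0])]⟩,
    ⟨[], [(0, 0), (0, 1), (0, 2)], [(0, 0), (0, 1), (0, 2), (1, 2)], [], [(0, 0, [2]), (2,
      2, [0]), (3, 0, [2]), (4, 1, [])]⟩,
    ⟨[(0, 1)], [(0, 2), (1, 0), (1, 1), (1, 2)], [(0, 2)], [6], [(2, 2, [0]), (3, 0, [2])]⟩,
    ⟨[(0, 1), (1, 2)], [(1, 0), (1, 1), (1, 2), (2, 0)], [(0, 1), (1, 1)], [], [(3, 0,
      [2]), (4, 1, []), (6, 1, [])]⟩,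
    ⟨[(1, 3)], [(1, 0), (2, 0), (3, 0), (3, 1)], [(0, 1)], [7], [(3, 0, [2]), (6, 1, [])]⟩,
    ⟨[(1, 3), (3, 4)], [(1, 1), (3, 0), (3, 1), (3, 4), (4, 1)], [(1, 1), (1, 4)], [3],
      [(4, 1, []), (6, 1, []), (8, 4, [5])]⟩,
    ⟨[(3, 5)], [(1, 1), (3, 1), (5, 1), (5, 4), (5, 5)], [(1, 5)], [3], [(4, 1, []), (9, 5,
      [4])]⟩]
  Ta := [((0, 1), 0, 3), ((0, 4), 0, 1), ((3, 5), 0, 6), ((3, 7), 0, 7), ((4, 0), 1, 0), ((4, 9),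
    1, 5), ((6, 7), 1, 7), ((6, 8), 1, 4)]
  Tb := [((0, 1, 4), 0, 3, 1), ((1, 0, 2), 3, 0, 2), ((1, 0, 8), 3, 0, 4), ((1, 0, 9), 3, 0, 5),
    ((1, 2, 8), 3, 2, 4), ((1, 2, 9), 3, 2, 5), ((1, 8, 9), 3, 4, 5), ((2, 1, 5), 2, 3, 6),
    ((3, 5, 7), 0, 6, 7), ((4, 0, 9), 1, 0, 5), ((5, 2, 3), 6, 2, 0), ((6, 7, 8), 1, 7, 4),
    ((7, 3, 6), 7, 0, 1), ((8, 1, 6), 4, 3, 1), ((9, 1, 4), 5, 3, 1)]
  Tc := []
  Td := [((0, 2), (0, 1), 3), ((0, 2), (0, 4), 1), ((0, 2), (3, 5), 6), ((0, 2), (3, 7), 7), ((2,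
    0), (2, 1), 3), ((2, 0), (2, 5), 6), ((4, 5), (8, 1), 3), ((4, 5), (8, 6), 1), ((5, 4),
    (9, 1), 3), ((5, 4), (9, 4), 1)]
  G := [[0, 0x68a68aa414a46a46c814c, 0x1891418924681451814528a4c, 0x58924189452818c,
    0x58924189452818a], [0, 0, 0x18914481451828212d1488e, 0x21389c288c14345245c814c,
    0x58c389c41824542258c18a], [0, 0, 0x45c2114528a41c91818918646, 0x1421c92c11cd28c41,
    0x11cd241c52182ca81], [0, 0, 0x189184214518822251281c28e,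
    0x11ad1c9c41654116d28ccc24488c1, 0x144116d269cc21c511cdc188c8a1]]

noncomputable def n2432 : Ent := ⟨e2432, noF, [], [], [(7, 16, [1580044410770988437309982408355971841652082177953823432505699057665, 0]), (12, 14, [1685382413448253767852309107433119732572617628602273068445374869505, 0])]⟩

def c2432 : PLift (Cov.check n2432.C.D v2432 = true) := ⟨by decide +kernel⟩

def b2432 : PLift (entF (fidx ts) 400 2432 n2432 = true) := ⟨by decide +kernel⟩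

theorem g2432 : GoodF (fidx ts) 400 2432 := GoodF.ofV v2432 n2432 c2432.down b2432.down

/-- 4746464:1945/7 -/
noncomputable def e2433 : SCfg where
  D := {
    a := 7
    L := 10
    kp := 7
    inn := [(0, 1), (1, 0), (1, 2), (1, 3), (2, 1), (3, 1), (3, 4), (3, 5), (4, 3), (5, 3), (5, 6), (6,
      5)]
    mix := [(0, 0), (0, 1), (0, 2), (1, 0), (1, 2), (1, 3), (1, 4), (2, 2), (2, 3), (2, 5), (3, 3), (3,
      4), (3, 6), (4, 3), (4, 5), (4, 6), (5, 4), (5, 6), (5, 7), (5, 8), (6, 4), (6, 8), (6, 9)]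
    cl := [0, 5, 2, 0, 1, 4, 1, 6, 3, 7]
    chq := [(0, 2), (1, 3), (2, 0), (3, 1)]
    rng := [(0, 1), (0, 4), (1, 0), (1, 2), (2, 1), (2, 5), (3, 5), (4, 0), (4, 9), (5, 2), (5, 3), (5,
      6), (6, 5), (6, 7), (7, 6), (7, 8), (8, 7), (8, 9), (9, 4), (9, 8)]
    lev := [] }
  links := [[1, 7, 8, 9], [7, 0, 9, 2, 10, 3, 11], [10, 1, 9, 12], [11, 1, 10, 4, 13, 5], [13, 3, 10,
    12], [11, 3, 13, 14, 15, 6], [11, 5, 15, 16]]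
  P := {
    a := 7
    N := 17
    nb := [898, 3725, 5634, 11314, 13320, 59464, 100384, 2307, 641, 4359, 4126, 65770, 9748, 20536,
      40992, 82016, 34880]
    tri := [(0, 1, 7), (0, 1, 9), (0, 7, 8), (0, 8, 9), (1, 2, 9), (1, 2, 10), (1, 3, 10), (1, 3, 11),
      (1, 7, 11), (2, 9, 12), (2, 10, 12), (3, 4, 10), (3, 4, 13), (3, 5, 11), (3, 5, 13), (4, 10,
      12), (4, 12, 13), (5, 6, 11), (5, 6, 15), (5, 13, 14), (5, 14, 15), (6, 11, 16), (6, 15,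
      16)]
    fin := [0, 0, 0, 0, 0, 5, 5, 0, 8, 9, 0, 5, 12, 5, 14, 15, 16]
    chd := [(0, 9), (5, 15)]
    steps := [(0, 1), (0, 2), (0, 3), (0, 7), (0, 10), (0, 4), (5, 6), (5, 13), (5, 11)] }
  rep := [0, 5, 9, 15, 12, 8, 14, 16]

noncomputable def v2433 : Cov.CovD where
  P := 3
  N := 5
  pl := [1, 5, 7, 9]
  lev := [⟨[], [], [(0, 2)], [5], [(0, 0, [2]), (2, 2, [0])]⟩,
    ⟨[], [(0, 0), (0, 1), (0, 2)], [(0, 0), (0, 1), (0, 2), (1, 2)], [], [(0, 0, [2]), (2,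
      2, [0]), (3, 0, [2]), (4, 1, [3])]⟩,
    ⟨[(0, 1)], [(0, 2), (1, 0), (1, 1), (1, 2)], [(0, 2)], [4], [(2, 2, [0]), (3, 0, [2])]⟩,
    ⟨[(0, 1), (1, 2)], [(1, 0), (1, 1), (1, 2), (2, 0)], [(0, 1), (1, 1)], [], [(3, 0,
      [2]), (4, 1, [3]), (6, 1, [3])]⟩,
    ⟨[(1, 3)], [(1, 0), (2, 0), (3, 0), (3, 1)], [(0, 1)], [4], [(3, 0, [2]), (6, 1, [3])]⟩,
    ⟨[(1, 3), (3, 4)], [(1, 1), (3, 0), (3, 1), (3, 3), (4, 1)], [(1, 1), (1, 3)], [6],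
      [(4, 1, [3]), (6, 1, [3]), (8, 3, [1])]⟩,
    ⟨[(3, 5)], [(1, 1), (3, 1), (5, 1), (5, 3)], [(1, 3)], [7], [(4, 1, [3]), (8, 3, [1])]⟩]
  Ta := [((0, 1), 0, 5), ((0, 4), 0, 1), ((3, 5), 0, 4), ((4, 0), 1, 0), ((4, 9), 1, 7), ((6, 5),
    1, 4), ((6, 7), 1, 6)]
  Tb := [((0, 1, 4), 0, 5, 1), ((1, 0, 2), 5, 0, 2), ((2, 1, 5), 2, 5, 4), ((4, 0, 9), 1, 0, 7),
    ((5, 2, 3), 4, 2, 0), ((5, 2, 6), 4, 2, 1), ((5, 3, 6), 4, 0, 1), ((6, 5, 7), 1, 4, 6),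
    ((7, 6, 8), 6, 1, 3), ((8, 7, 9), 3, 6, 7), ((9, 4, 8), 7, 1, 3)]
  Tc := []
  Td := [((0, 2), (0, 1), 5), ((0, 2), (0, 4), 1), ((0, 2), (3, 5), 4), ((1, 3), (4, 0), 0), ((1,
    3), (4, 9), 7), ((1, 3), (6, 5), 4), ((1, 3), (6, 7), 6), ((2, 0), (2, 1), 5), ((2, 0),
    (2, 5), 4), ((3, 1), (8, 7), 6), ((3, 1), (8, 9), 7)]
  G := [[0, 0xe4e4aeeaeeaac14ee6486eeee88a8ca14c, 0xdd51d82924d12ddc25286,
    0xdd52d82c14442d9dd2c18c, 0xd12ddc2528dd52d81c28a], [0, 0,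
    0x222d18277d18a422dd18673d18646, 0xe2bd143a6d8458a8816356a3dc894c,
    0xa36d14222d8438e27d14222d8438a], [0, 0, 0xd42dd92c24d11ddc2928c,
    0xd9dd84d44dd94cc44888c1, 0xdd52d82c281], [0, 0, 0x222d1827dd1864222d183a6d18a4a,
    0xa3dd847254d84cc81, 0x3abd84a354684ca81]]

noncomputable def n2433 : Ent := ⟨e2433, noF, [], [], [(7, 16, [1580044410770988437309982408355971841652082177953823432505699061761, 0]), (8, 15, [1685356702439545624007900436039642273970977273354372543760010047489, 0])]⟩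

def c2433 : PLift (Cov.check n2433.C.D v2433 = true) := ⟨by decide +kernel⟩

def b2433 : PLift (entF (fidx ts) 400 2433 n2433 = true) := ⟨by decide +kernel⟩

theorem g2433 : GoodF (fidx ts) 400 2433 := GoodF.ofV v2433 n2433 c2433.down b2433.down

/-- 4746464:1945 -/
noncomputable def e2434 : SCfg where
  D := {
    a := 7
    L := 11
    kp := 8
    inn := [(0, 1), (1, 0), (1, 2), (1, 3), (2, 1), (3, 1), (3, 4), (3, 5), (4, 3), (5, 3), (5, 6), (6,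
      5)]
    mix := [(0, 0), (0, 1), (0, 2), (1, 0), (1, 2), (1, 3), (1, 4), (2, 2), (2, 3), (2, 5), (3, 3), (3,
      4), (3, 6), (4, 3), (4, 6), (4, 7), (5, 4), (5, 6), (5, 8), (5, 9), (6, 4), (6, 9), (6, 10)]
    cl := [0, 6, 2, 0, 1, 7, 1, 8, 4, 3, 5]
    chq := [(0, 2), (2, 0), (4, 5), (5, 4)]
    rng := [(0, 1), (0, 4), (1, 0), (1, 2), (2, 1), (2, 5), (3, 5), (3, 7), (4, 0), (4, 10), (5, 2),
      (5, 3), (6, 7), (6, 8), (7, 3), (7, 6), (8, 6), (8, 9), (9, 8), (9, 10), (10, 4), (10, 9)]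
    lev := [] }
  links := [[1, 7, 8, 9], [7, 0, 9, 2, 10, 3, 11], [10, 1, 9, 12], [11, 1, 10, 4, 13, 5], [13, 3, 10,
    14], [11, 3, 13, 15, 16, 6], [11, 5, 16, 17]]
  P := {
    a := 7
    N := 18
    nb := [898, 3725, 5634, 11314, 25608, 108616, 198688, 2307, 641, 4359, 20510, 131306, 1540, 49208,
      9232, 73760, 163936, 67648]
    tri := [(0, 1, 7), (0, 1, 9), (0, 7, 8), (0, 8, 9), (1, 2, 9), (1, 2, 10), (1, 3, 10), (1, 3, 11),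
      (1, 7, 11), (2, 9, 12), (2, 10, 12), (3, 4, 10), (3, 4, 13), (3, 5, 11), (3, 5, 13), (4, 10,
      14), (4, 13, 14), (5, 6, 11), (5, 6, 16), (5, 13, 15), (5, 15, 16), (6, 11, 17), (6, 16,
      17)]
    fin := [0, 0, 0, 3, 0, 5, 5, 0, 8, 9, 0, 3, 12, 3, 14, 5, 16, 17]
    chd := [(0, 9), (5, 17)]
    steps := [(0, 1), (0, 2), (0, 7), (0, 10), (0, 4), (3, 13), (3, 11), (5, 6), (5, 15)] }
  rep := [0, 3, 9, 16, 5, 17, 8, 12, 14]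

noncomputable def v2434 : Cov.CovD where
  P := 3
  N := 6
  pl := [1, 5, 7, 9]
  lev := [⟨[], [], [(0, 2)], [6], [(0, 0, [2]), (2, 2, [0])]⟩,
    ⟨[], [(0, 0), (0, 1), (0, 2)], [(0, 0), (0, 1), (0, 2), (1, 2)], [], [(0, 0, [2]), (2,
      2, [0]), (3, 0, [2]), (4, 1, [])]⟩,
    ⟨[(0, 1)], [(0, 2), (1, 0), (1, 1), (1, 2)], [(0, 2)], [7], [(2, 2, [0]), (3, 0, [2])]⟩,
    ⟨[(0, 1), (1, 2)], [(1, 0), (1, 1), (1, 2), (2, 0)], [(0, 1), (1, 1)], [], [(3, 0,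
      [2]), (4, 1, []), (6, 1, [])]⟩,
    ⟨[(1, 3)], [(1, 0), (2, 0), (3, 0), (3, 1)], [(0, 1)], [8], [(3, 0, [2]), (6, 1, [])]⟩,
    ⟨[(1, 3), (3, 4)], [(1, 1), (3, 0), (3, 1), (3, 4), (4, 1)], [(1, 1), (1, 4)], [3],
      [(4, 1, []), (6, 1, []), (8, 4, [5])]⟩,
    ⟨[(3, 5)], [(1, 1), (3, 1), (5, 1), (5, 4), (5, 5)], [(1, 5)], [3], [(4, 1, []), (10,
      5, [4])]⟩]
  Ta := [((0, 1), 0, 6), ((0, 4), 0, 1), ((3, 5), 0, 7), ((3, 7), 0, 8), ((4, 0), 1, 0), ((4,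
    10), 1, 5), ((6, 7), 1, 8), ((6, 8), 1, 4)]
  Tb := [((0, 1, 4), 0, 6, 1), ((1, 0, 2), 6, 0, 2), ((2, 1, 5), 2, 6, 7), ((3, 5, 7), 0, 7, 8),
    ((4, 0, 10), 1, 0, 5), ((5, 2, 3), 7, 2, 0), ((6, 7, 8), 1, 8, 4), ((7, 3, 6), 8, 0, 1),
    ((8, 6, 9), 4, 1, 3), ((9, 8, 10), 3, 4, 5), ((10, 4, 9), 5, 1, 3)]
  Tc := []
  Td := [((0, 2), (0, 1), 6), ((0, 2), (0, 4), 1), ((0, 2), (3, 5), 7), ((0, 2), (3, 7), 8), ((2,
    0), (2, 1), 6), ((2, 0), (2, 5), 7), ((4, 5), (8, 6), 1), ((4, 5), (8, 9), 3), ((5, 4),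
    (10, 4), 1), ((5, 4), (10, 9), 3)]
  G := [[0, 0x6ace6ace68146acec26ace214c, 0xc1259c292459cd244859cd1488e, 0x59cd241859cd2814c,
    0x59cd24189c52582c18a], [0, 0, 0x23cd182429cd1488692d1844e,
    0x3c523cdc288c1452cd14296d14c8c, 0x23cd2c9c4194481a3654236d28cc18a], [0, 0,
    0x59cd1884c1259c254859cd1824e, 0x59cd24459cd288c1, 0x59cd2459cd24a81], [0, 0,
    0x32cd1824236d1448236d1884e, 0x32ad8436545a2d28ccc52ad488c1,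
    0x6a2d3a9c4a44296d629cca94488a1]]

noncomputable def n2434 : Ent := ⟨e2434, noF, [], [], [(7, 17, [6903326391201334775872065844685381424292761054348340378595029939642369, 0]), (8, 16, [7334685537875745012586738086077695515070955365108989538292687703638017, 0]), (12, 14, [7334790875878422277917280412776772662961875900559637987928627379441665, 0])]⟩

def c2434 : PLift (Cov.check n2434.C.D v2434 = true) := ⟨by decide +kernel⟩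

def b2434 : PLift (entF (fidx ts) 400 2434 n2434 = true) := ⟨by decide +kernel⟩

theorem g2434 : GoodF (fidx ts) 400 2434 := GoodF.ofV v2434 n2434 c2434.down b2434.down

/-- 4745764:1946/1 -/
noncomputable def e2435 : SCfg where
  D := {
    a := 7
    L := 10
    kp := 7
    inn := [(0, 1), (1, 0), (1, 2), (1, 3), (1, 5), (2, 1), (3, 1), (3, 4), (3, 5), (4, 3), (4, 5), (4,
      6), (5, 1), (5, 3), (5, 4), (6, 4)]
    mix := [(0, 0), (0, 1), (0, 2), (1, 0), (1, 2), (1, 3), (2, 2), (2, 3), (2, 4), (3, 3), (3, 5), (4,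
      5), (4, 6), (4, 7), (4, 8), (5, 0), (5, 8), (5, 9), (6, 1), (6, 5), (6, 6)]
    cl := [0, 2, 1, 0, 6, 3, 4, 5, 3, 7]
    chq := [(0, 1), (1, 0), (2, 5), (5, 2)]
    rng := [(0, 1), (0, 9), (1, 0), (1, 2), (1, 5), (1, 6), (2, 1), (2, 4), (3, 4), (3, 5), (4, 2), (4,
      3), (5, 1), (5, 3), (6, 1), (6, 7), (7, 6), (7, 8), (8, 7), (8, 9), (9, 0), (9, 8)]
    lev := [] }
  links := [[1, 7, 8, 9], [7, 0, 9, 2, 10, 3, 5], [10, 1, 9, 11], [5, 1, 10, 12, 4], [5, 3, 12, 6, 13,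
    14, 15], [7, 1, 3, 4, 15, 16], [13, 4, 12, 8]]
  P := {
    a := 7
    N := 17
    nb := [898, 1709, 3586, 5170, 61544, 98458, 12560, 65827, 12993, 2311, 6158, 1540, 1368, 16720,
      40976, 81968, 32928]
    tri := [(0, 1, 7), (0, 1, 9), (0, 7, 8), (0, 8, 9), (1, 2, 9), (1, 2, 10), (1, 3, 5), (1, 3, 10),
      (1, 5, 7), (2, 9, 11), (2, 10, 11), (3, 4, 5), (3, 4, 12), (3, 10, 12), (4, 5, 15), (4, 6,
      12), (4, 6, 13), (4, 13, 14), (4, 14, 15), (5, 7, 16), (5, 15, 16), (6, 8, 12), (6, 8, 13)]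
    fin := [0, 0, 0, 3, 4, 3, 4, 0, 4, 9, 0, 11, 3, 13, 14, 3, 16]
    chd := [(0, 9), (4, 14)]
    steps := [(0, 1), (0, 2), (0, 7), (0, 10), (3, 5), (3, 12), (3, 15), (4, 6), (4, 8)] }
  rep := [0, 9, 4, 3, 13, 14, 11, 16]

noncomputable def v2435 : Cov.CovD where
  P := 3
  N := 5
  pl := [4, 6, 9]
  lev := [⟨[], [], [(0, 1), (0, 2), (1, 2)], [], [(0, 0, [1]), (1, 2, [5]), (2, 1, [0])]⟩,
    ⟨[], [(0, 0), (0, 1), (0, 2)], [(0, 0), (0, 1)], [], [(0, 0, [1]), (2, 1, [0]), (3, 0,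
      [1])]⟩,
    ⟨[(0, 1)], [(0, 1), (1, 0), (1, 1)], [(0, 1)], [6], [(2, 1, [0]), (3, 0, [1])]⟩,
    ⟨[(0, 1), (1, 2)], [(1, 0), (1, 1), (1, 3), (2, 0)], [(0, 3)], [], [(3, 0, [1]), (5, 3,
      [])]⟩,
    ⟨[(1, 3)], [(3, 0), (3, 3), (3, 5)], [(3, 3), (3, 5)], [4], [(5, 3, []), (7, 5, [2]),
      (8, 3, [])]⟩,
    ⟨[(0, 1), (1, 2), (1, 3), (1, 4), (3, 4)], [(0, 0), (1, 0), (1, 1), (1, 3), (3, 0), (3,
      3), (4, 0), (4, 3), (4, 5)], [(0, 3)], [7], [(0, 0, [1]), (8, 3, [])]⟩,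
    ⟨[(3, 4), (4, 5)], [(0, 2), (3, 3), (4, 2), (4, 3), (4, 5)], [(2, 3)], [4], [(1, 2,
      [5]), (5, 3, [])]⟩]
  Ta := [((0, 1), 0, 2), ((0, 9), 0, 7), ((3, 4), 0, 6), ((3, 5), 0, 3), ((5, 1), 3, 2), ((5, 3),
    3, 0), ((8, 7), 3, 5), ((8, 9), 3, 7)]
  Tb := [((0, 1, 9), 0, 2, 7), ((1, 0, 2), 2, 0, 1), ((1, 0, 5), 2, 0, 3), ((1, 0, 6), 2, 0, 4),
    ((1, 2, 5), 2, 1, 3), ((1, 2, 6), 2, 1, 4), ((1, 5, 6), 2, 3, 4), ((2, 1, 4), 1, 2, 6),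
    ((3, 4, 5), 0, 6, 3), ((4, 2, 3), 6, 1, 0), ((5, 1, 3), 3, 2, 0), ((6, 1, 7), 4, 2, 5),
    ((7, 6, 8), 5, 4, 3), ((8, 7, 9), 3, 5, 7), ((9, 0, 8), 7, 0, 3)]
  Tc := []
  Td := [((0, 1), (0, 1), 2), ((0, 1), (0, 9), 7), ((0, 1), (3, 4), 6), ((0, 1), (3, 5), 3), ((1,
    0), (2, 1), 2), ((1, 0), (2, 4), 6), ((2, 5), (1, 0), 0), ((2, 5), (1, 2), 1), ((2, 5),
    (1, 5), 3), ((2, 5), (1, 6), 4), ((5, 2), (7, 6), 4), ((5, 2), (7, 8), 3)]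
  G := [[0, 0x4114581189844859ced141819118d8459cada24, 0xe21e81a148, 0x922d82a148,
    0x12929212f38a389818fa148], [0, 0x114151841ef8414151444ef8a48, 0xaaae14184, 0x955e28148,
    0x1229446118c99a84118ef21c8], [0, 0x12118118a44ad9aeb12118118a44ad9aeba44, 0,
    0xd22d426cc5d22c84, 0x82918212f84aa6c1514f64aba211278228aa8853118de8c8], [0,
    0x4151114e78111191811ef48184e28, 0, 0x5122c122c48, 0x21816344819181182ef2113188d8cc8]]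

noncomputable def n2435 : Ent := ⟨e2435, noF, [], [], []⟩

def c2435 : PLift (Cov.check n2435.C.D v2435 = true) := ⟨by decide +kernel⟩

def b2435 : PLift (entF (fidx ts) 400 2435 n2435 = true) := ⟨by decide +kernel⟩

theorem g2435 : GoodF (fidx ts) 400 2435 := GoodF.ofV v2435 n2435 c2435.down b2435.down

/-- 4745764:1946/2 -/
noncomputable def e2436 : SCfg where
  D := {
    a := 7
    L := 10
    kp := 7
    inn := [(0, 1), (1, 0), (1, 2), (1, 3), (1, 5), (2, 1), (3, 1), (3, 4), (3, 5), (4, 3), (4, 5), (4,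
      6), (5, 1), (5, 3), (5, 4), (6, 4)]
    mix := [(0, 0), (0, 1), (0, 2), (1, 0), (1, 2), (1, 3), (2, 2), (2, 3), (2, 4), (3, 3), (3, 5), (4,
      5), (4, 6), (4, 7), (4, 8), (5, 0), (5, 8), (5, 9), (6, 4), (6, 5), (6, 6)]
    cl := [0, 6, 3, 0, 2, 1, 4, 5, 1, 7]
    chq := [(0, 3), (2, 5), (3, 0), (5, 2)]
    rng := [(0, 1), (0, 9), (1, 0), (1, 2), (2, 1), (2, 4), (3, 4), (3, 5), (4, 2), (4, 3), (4, 5), (4,
      6), (5, 3), (5, 4), (6, 4), (6, 7), (7, 6), (7, 8), (8, 7), (8, 9), (9, 0), (9, 8)]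
    lev := [] }
  links := [[1, 7, 8, 9], [7, 0, 9, 2, 10, 3, 5], [10, 1, 9, 11], [5, 1, 10, 12, 4], [5, 3, 12, 6, 13,
    14, 15], [7, 1, 3, 4, 15, 16], [13, 4, 12, 11]]
  P := {
    a := 7
    N := 17
    nb := [898, 1709, 3586, 5170, 61544, 98458, 14352, 65827, 641, 2311, 6158, 13892, 3160, 18512,
      40976, 81968, 32928]
    tri := [(0, 1, 7), (0, 1, 9), (0, 7, 8), (0, 8, 9), (1, 2, 9), (1, 2, 10), (1, 3, 5), (1, 3, 10),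
      (1, 5, 7), (2, 9, 11), (2, 10, 11), (3, 4, 5), (3, 4, 12), (3, 10, 12), (4, 5, 15), (4, 6,
      12), (4, 6, 13), (4, 13, 14), (4, 14, 15), (5, 7, 16), (5, 15, 16), (6, 11, 12), (6, 11,
      13)]
    fin := [0, 0, 0, 3, 4, 3, 4, 0, 8, 9, 0, 4, 3, 13, 14, 3, 16]
    chd := [(0, 9), (4, 14)]
    steps := [(0, 1), (0, 2), (0, 7), (0, 10), (3, 5), (3, 12), (3, 15), (4, 6), (4, 11)] }
  rep := [0, 3, 4, 9, 13, 14, 8, 16]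

noncomputable def v2436 : Cov.CovD where
  P := 3
  N := 5
  pl := [1, 6, 9]
  lev := [⟨[], [], [(0, 3)], [6], [(0, 0, [3]), (2, 3, [0])]⟩,
    ⟨[], [(0, 0), (0, 3)], [(0, 0), (0, 3)], [], [(0, 0, [3]), (2, 3, [0]), (3, 0, [3])]⟩,
    ⟨[(0, 1)], [(0, 3), (1, 0), (1, 2), (1, 3)], [(0, 2), (0, 3), (2, 3)], [], [(2, 3,
      [0]), (3, 0, [3]), (4, 2, [5])]⟩,
    ⟨[(0, 1), (1, 2)], [(1, 0), (1, 1), (1, 3), (2, 0)], [(0, 1)], [], [(3, 0, [3]), (5, 1,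
      [])]⟩,
    ⟨[(1, 3)], [(3, 0), (3, 1), (3, 5)], [(1, 1), (1, 5)], [4], [(5, 1, []), (7, 5, [2]),
      (8, 1, [])]⟩,
    ⟨[(0, 1), (1, 2), (1, 3), (1, 4), (3, 4)], [(0, 0), (1, 0), (1, 1), (1, 3), (3, 0), (3,
      1), (4, 0), (4, 1), (4, 5)], [(0, 1)], [7], [(0, 0, [3]), (8, 1, [])]⟩,
    ⟨[(3, 4), (4, 5)], [(2, 2), (3, 1), (4, 1), (4, 2), (4, 5)], [(1, 2)], [4], [(4, 2,
      [5]), (5, 1, [])]⟩]
  Ta := [((0, 1), 0, 6), ((0, 9), 0, 7), ((3, 4), 0, 2), ((3, 5), 0, 1), ((5, 3), 1, 0), ((5, 4),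
    1, 2), ((8, 7), 1, 5), ((8, 9), 1, 7)]
  Tb := [((0, 1, 9), 0, 6, 7), ((1, 0, 2), 6, 0, 3), ((2, 1, 4), 3, 6, 2), ((3, 4, 5), 0, 2, 1),
    ((4, 2, 3), 2, 3, 0), ((4, 2, 5), 2, 3, 1), ((4, 2, 6), 2, 3, 4), ((4, 3, 5), 2, 0, 1),
    ((4, 3, 6), 2, 0, 4), ((4, 5, 6), 2, 1, 4), ((5, 3, 4), 1, 0, 2), ((6, 4, 7), 4, 2, 5),
    ((7, 6, 8), 5, 4, 1), ((8, 7, 9), 1, 5, 7), ((9, 0, 8), 7, 0, 1)]
  Tc := []
  Td := [((0, 3), (0, 1), 6), ((0, 3), (0, 9), 7), ((0, 3), (3, 4), 2), ((0, 3), (3, 5), 1), ((2,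
    5), (4, 2), 3), ((2, 5), (4, 3), 0), ((2, 5), (4, 5), 1), ((2, 5), (4, 6), 4), ((3, 0),
    (2, 1), 6), ((3, 0), (2, 4), 2), ((5, 2), (7, 6), 4), ((5, 2), (7, 8), 1)]
  G := [[0, 0, 0, 0x829212d41811c158c49cc9421218242c581218242c94ce,
    0x92442129212d88c129212d814924821212992452ce], [0, 0, 0, 0,
    0x944212811c518c89892c418e825824459811c5291882124aac81cd82e29c12c518c8c12e], [0,
    0x44acca648a8a444688accce4861, 0xc2148c2184c1, 0x4111c5818c824111c5818c82524212d844b,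
    0x129182d82491482129c24829212d4887], [0, 0, 0x6418c818ca6c14261, 0,
    0x119181cd284819114d2818128c24428c3811cdc22d]]

noncomputable def n2436 : Ent := ⟨e2436, noF, [], [], []⟩

def c2436 : PLift (Cov.check n2436.C.D v2436 = true) := ⟨by decide +kernel⟩

def b2436 : PLift (entF (fidx ts) 400 2436 n2436 = true) := ⟨by decide +kernel⟩

theorem g2436 : GoodF (fidx ts) 400 2436 := GoodF.ofV v2436 n2436 c2436.down b2436.down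

/-- 4745764:1946 -/
noncomputable def e2437 : SCfg where
  D := {
    a := 7
    L := 11
    kp := 8
    inn := [(0, 1), (1, 0), (1, 2), (1, 3), (1, 5), (2, 1), (3, 1), (3, 4), (3, 5), (4, 3), (4, 5), (4,
      6), (5, 1), (5, 3), (5, 4), (6, 4)]
    mix := [(0, 0), (0, 1), (0, 2), (1, 0), (1, 2), (1, 3), (2, 2), (2, 3), (2, 4), (3, 3), (3, 5), (4,
      5), (4, 6), (4, 7), (4, 8), (5, 0), (5, 8), (5, 9), (6, 5), (6, 6), (6, 10)]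
    cl := [0, 6, 2, 0, 7, 1, 3, 4, 1, 8, 5]
    chq := [(0, 2), (2, 0), (4, 5), (5, 4)]
    rng := [(0, 1), (0, 9), (1, 0), (1, 2), (2, 1), (2, 4), (3, 4), (3, 5), (4, 2), (4, 3), (5, 3), (5,
      10), (6, 7), (6, 10), (7, 6), (7, 8), (8, 7), (8, 9), (9, 0), (9, 8), (10, 5), (10, 6)]
    lev := [] }
  links := [[1, 7, 8, 9], [7, 0, 9, 2, 10, 3, 5], [10, 1, 9, 11], [5, 1, 10, 12, 4], [5, 3, 12, 6, 13,
    14, 15], [7, 1, 3, 4, 15, 16], [13, 4, 12, 17]]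
  P := {
    a := 7
    N := 18
    nb := [898, 1709, 3586, 5170, 61544, 98458, 143376, 65827, 641, 2311, 6158, 1540, 132184, 147536,
      40976, 81968, 32928, 12352]
    tri := [(0, 1, 7), (0, 1, 9), (0, 7, 8), (0, 8, 9), (1, 2, 9), (1, 2, 10), (1, 3, 5), (1, 3, 10),
      (1, 5, 7), (2, 9, 11), (2, 10, 11), (3, 4, 5), (3, 4, 12), (3, 10, 12), (4, 5, 15), (4, 6,
      12), (4, 6, 13), (4, 13, 14), (4, 14, 15), (5, 7, 16), (5, 15, 16), (6, 12, 17), (6, 13,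
      17)]
    fin := [0, 0, 0, 3, 4, 3, 4, 0, 8, 9, 0, 11, 3, 13, 14, 3, 16, 4]
    chd := [(0, 9), (14, 4)]
    steps := [(0, 1), (0, 2), (0, 7), (0, 10), (3, 5), (3, 12), (3, 15), (4, 6), (4, 17)] }
  rep := [0, 3, 9, 13, 14, 4, 8, 11, 16]

noncomputable def v2437 : Cov.CovD where
  P := 3
  N := 6
  pl := [1, 4, 6, 9]
  lev := [⟨[], [], [(0, 2)], [6], [(0, 0, [2]), (2, 2, [0])]⟩,
    ⟨[], [(0, 0), (0, 2)], [(0, 0), (0, 2)], [], [(0, 0, [2]), (2, 2, [0]), (3, 0, [2])]⟩,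
    ⟨[(0, 1)], [(0, 2), (1, 0), (1, 2)], [(0, 2)], [7], [(2, 2, [0]), (3, 0, [2])]⟩,
    ⟨[(0, 1), (1, 2)], [(1, 0), (1, 1), (1, 2), (2, 0)], [(0, 1)], [], [(3, 0, [2]), (5, 1,
      [])]⟩,
    ⟨[(1, 3)], [(3, 0), (3, 1), (3, 4)], [(1, 1), (1, 4)], [3], [(5, 1, []), (7, 4, [5]),
      (8, 1, [])]⟩,
    ⟨[(0, 1), (1, 2), (1, 3), (1, 4), (3, 4)], [(0, 0), (1, 0), (1, 1), (1, 2), (3, 0), (3,
      1), (4, 0), (4, 1), (4, 4)], [(0, 1)], [8], [(0, 0, [2]), (8, 1, [])]⟩,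
    ⟨[(3, 4), (4, 5)], [(3, 1), (4, 1), (4, 4), (4, 5)], [(1, 5)], [3], [(5, 1, []), (10,
      5, [4])]⟩]
  Ta := [((0, 1), 0, 6), ((0, 9), 0, 8), ((3, 4), 0, 7), ((3, 5), 0, 1), ((5, 3), 1, 0), ((5,
    10), 1, 5), ((8, 7), 1, 4), ((8, 9), 1, 8)]
  Tb := [((0, 1, 9), 0, 6, 8), ((1, 0, 2), 6, 0, 2), ((2, 1, 4), 2, 6, 7), ((3, 4, 5), 0, 7, 1),
    ((4, 2, 3), 7, 2, 0), ((5, 3, 10), 1, 0, 5), ((6, 7, 10), 3, 4, 5), ((7, 6, 8), 4, 3, 1),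
    ((8, 7, 9), 1, 4, 8), ((9, 0, 8), 8, 0, 1), ((10, 5, 6), 5, 1, 3)]
  Tc := []
  Td := [((0, 2), (0, 1), 6), ((0, 2), (0, 9), 8), ((0, 2), (3, 4), 7), ((0, 2), (3, 5), 1), ((2,
    0), (2, 1), 6), ((2, 0), (2, 4), 7), ((4, 5), (7, 6), 3), ((4, 5), (7, 8), 1), ((5, 4),
    (10, 5), 1), ((5, 4), (10, 6), 3)]
  G := [[0, 0, 0x52c2992452452c299245885191c2d844e, 0x5292c2d4185292c2d418c,
    0x5292c2d4185292c2d418a], [0, 0, 0x22c186191c8c461a1c42cc14c861a122cd428e,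
    0x9442128a2c555c8a1c2443428aacdc158821cc, 0x94426c3862cdc12549ac22cd688c12a], [0,
    0xcc62666aa6c6aa6cc666668cc81, 0x5291c2d82492c25528948c215292c584e,
    0x5292c2d45292c2d4c81, 0x5292c2d45292c2d4a81], [0, 0,
    0x3121aacd43121accd8623121aacd451a122cd8c26, 0x944224a45543868dcca822c555c8a5882cc1,
    0x93c422c6cc9c94456c28c2cdca21]]

noncomputable def n2437 : Ent := ⟨e2437, noF, [], [], [(8, 17, [6903326391201334775872065844685381424292761054348340378595029939662849, 0]), (11, 17, [6903326391201334775872065844685381424292761054348340378595029939666945, 0])]⟩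

def c2437 : PLift (Cov.check n2437.C.D v2437 = true) := ⟨by decide +kernel⟩

def b2437 : PLift (entF (fidx ts) 400 2437 n2437 = true) := ⟨by decide +kernel⟩

theorem g2437 : GoodF (fidx ts) 400 2437 := GoodF.ofV v2437 n2437 c2437.down b2437.down

/-- 4745764:1947/1 -/
noncomputable def e2438 : SCfg where
  D := {
    a := 7
    L := 10
    kp := 7
    inn := [(0, 1), (1, 0), (1, 2), (1, 3), (1, 5), (2, 1), (3, 1), (3, 4), (3, 5), (4, 3), (4, 5), (4,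
      6), (5, 1), (5, 3), (5, 4), (6, 4)]
    mix := [(0, 0), (0, 1), (0, 2), (1, 0), (1, 2), (1, 3), (2, 2), (2, 3), (2, 4), (3, 3), (3, 5), (4,
      5), (4, 6), (4, 7), (4, 8), (5, 0), (5, 8), (5, 9), (6, 4), (6, 7), (6, 8)]
    cl := [0, 6, 1, 0, 2, 3, 5, 4, 3, 7]
    chq := [(0, 1), (1, 0), (2, 5), (5, 2)]
    rng := [(0, 1), (0, 9), (1, 0), (1, 2), (2, 1), (2, 4), (3, 4), (3, 5), (4, 2), (4, 3), (4, 7), (4,
      8), (5, 3), (5, 6), (6, 5), (6, 7), (7, 4), (7, 6), (8, 4), (8, 9), (9, 0), (9, 8)]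
    lev := [] }
  links := [[1, 7, 8, 9], [7, 0, 9, 2, 10, 3, 5], [10, 1, 9, 11], [5, 1, 10, 12, 4], [5, 3, 12, 13, 14,
    6, 15], [7, 1, 3, 4, 15, 16], [15, 4, 14, 11]]
  P := {
    a := 7
    N := 17
    nb := [898, 1709, 3586, 5170, 61544, 98458, 51216, 65827, 641, 2311, 6158, 50756, 9240, 20496,
      10320, 67696, 32928]
    tri := [(0, 1, 7), (0, 1, 9), (0, 7, 8), (0, 8, 9), (1, 2, 9), (1, 2, 10), (1, 3, 5), (1, 3, 10),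
      (1, 5, 7), (2, 9, 11), (2, 10, 11), (3, 4, 5), (3, 4, 12), (3, 10, 12), (4, 5, 15), (4, 6,
      14), (4, 6, 15), (4, 12, 13), (4, 13, 14), (5, 7, 16), (5, 15, 16), (6, 11, 14), (6, 11,
      15)]
    fin := [0, 0, 0, 3, 4, 3, 4, 0, 8, 9, 0, 4, 3, 13, 14, 3, 16]
    chd := [(0, 9), (4, 13)]
    steps := [(0, 1), (0, 2), (0, 7), (0, 10), (3, 5), (3, 12), (3, 15), (4, 6), (4, 11)] }
  rep := [0, 9, 4, 3, 14, 13, 8, 16]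

noncomputable def v2438 : Cov.CovD where
  P := 3
  N := 5
  pl := [1, 7, 9]
  lev := [⟨[], [], [(0, 1)], [6], [(0, 0, [1]), (2, 1, [0])]⟩,
    ⟨[], [(0, 0), (0, 1)], [(0, 0), (0, 1)], [], [(0, 0, [1]), (2, 1, [0]), (3, 0, [1])]⟩,
    ⟨[(0, 1)], [(0, 1), (1, 0), (1, 1), (1, 2)], [(0, 1), (0, 2), (1, 2)], [], [(2, 1,
      [0]), (3, 0, [1]), (4, 2, [5])]⟩,
    ⟨[(0, 1), (1, 2)], [(1, 0), (1, 1), (1, 3), (2, 0)], [(0, 3)], [], [(3, 0, [1]), (5, 3,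
      [])]⟩,
    ⟨[(1, 3)], [(3, 0), (3, 3), (3, 5)], [(3, 3), (3, 5)], [4], [(5, 3, []), (6, 5, [2]),
      (8, 3, [])]⟩,
    ⟨[(0, 1), (1, 2), (1, 3), (1, 4), (3, 4)], [(0, 0), (1, 0), (1, 1), (1, 3), (3, 0), (3,
      3), (4, 0), (4, 3), (4, 5)], [(0, 3)], [7], [(0, 0, [1]), (8, 3, [])]⟩,
    ⟨[(3, 4), (4, 5)], [(2, 2), (4, 2), (4, 3), (4, 5), (5, 3)], [(2, 3)], [4], [(4, 2,
      [5]), (8, 3, [])]⟩]
  Ta := [((0, 1), 0, 6), ((0, 9), 0, 7), ((3, 4), 0, 2), ((3, 5), 0, 3), ((5, 3), 3, 0), ((5, 6),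
    3, 5), ((8, 4), 3, 2), ((8, 9), 3, 7)]
  Tb := [((0, 1, 9), 0, 6, 7), ((1, 0, 2), 6, 0, 1), ((2, 1, 4), 1, 6, 2), ((3, 4, 5), 0, 2, 3),
    ((4, 2, 3), 2, 1, 0), ((4, 2, 7), 2, 1, 4), ((4, 2, 8), 2, 1, 3), ((4, 3, 7), 2, 0, 4),
    ((4, 3, 8), 2, 0, 3), ((4, 7, 8), 2, 4, 3), ((5, 3, 6), 3, 0, 5), ((6, 5, 7), 5, 3, 4),
    ((7, 4, 6), 4, 2, 5), ((8, 4, 9), 3, 2, 7), ((9, 0, 8), 7, 0, 3)]
  Tc := []
  Td := [((0, 1), (0, 1), 6), ((0, 1), (0, 9), 7), ((0, 1), (3, 4), 2), ((0, 1), (3, 5), 3), ((1,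
    0), (2, 1), 6), ((1, 0), (2, 4), 2), ((2, 5), (4, 2), 1), ((2, 5), (4, 3), 0), ((2, 5),
    (4, 7), 4), ((2, 5), (4, 8), 3), ((5, 2), (6, 5), 3), ((5, 2), (6, 7), 4)]
  G := [[0, 0x844191116f2488441c1116f248c, 0, 0x5ca2144c22582a14c,
    0x1221a939a2865848281694139a18618cc], [0, 0xd128141111ed64841d1111e788182c46, 0,
    0x5d624198288c95de2148c, 0xb442193a229e6388e111e9a1c886229e111ebb44613893ac28cc], [0,
    0x414111cd59c23428148c111af284c, 0xc21681a441, 0x5229426881, 0x92428a18a93818c6e841], [0,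
    0x41d1111e7818a848141d1111ef248c, 0xeeee12841, 0x95de28841,
    0x81b191111ef2848121116bb146818128cc]]

noncomputable def n2438 : Ent := ⟨e2438, noF, [], [], []⟩

def c2438 : PLift (Cov.check n2438.C.D v2438 = true) := ⟨by decide +kernel⟩

def b2438 : PLift (entF (fidx ts) 400 2438 n2438 = true) := ⟨by decide +kernel⟩

theorem g2438 : GoodF (fidx ts) 400 2438 := GoodF.ofV v2438 n2438 c2438.down b2438.down

/-- 4745764:1947 -/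
noncomputable def e2439 : SCfg where
  D := {
    a := 7
    L := 11
    kp := 8
    inn := [(0, 1), (1, 0), (1, 2), (1, 3), (1, 5), (2, 1), (3, 1), (3, 4), (3, 5), (4, 3), (4, 5), (4,
      6), (5, 1), (5, 3), (5, 4), (6, 4)]
    mix := [(0, 0), (0, 1), (0, 2), (1, 0), (1, 2), (1, 3), (2, 2), (2, 3), (2, 4), (3, 3), (3, 5), (4,
      5), (4, 6), (4, 7), (4, 8), (5, 0), (5, 8), (5, 9), (6, 7), (6, 8), (6, 10)]
    cl := [0, 6, 2, 0, 7, 1, 4, 3, 1, 8, 5]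
    chq := [(0, 2), (2, 0), (4, 5), (5, 4)]
    rng := [(0, 1), (0, 9), (1, 0), (1, 2), (2, 1), (2, 4), (3, 4), (3, 5), (4, 2), (4, 3), (5, 3), (5,
      6), (6, 5), (6, 7), (7, 6), (7, 10), (8, 9), (8, 10), (9, 0), (9, 8), (10, 7), (10, 8)]
    lev := [] }
  links := [[1, 7, 8, 9], [7, 0, 9, 2, 10, 3, 5], [10, 1, 9, 11], [5, 1, 10, 12, 4], [5, 3, 12, 13, 14,
    6, 15], [7, 1, 3, 4, 15, 16], [15, 4, 14, 17]]
  P := {
    a := 7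
    N := 18
    nb := [898, 1709, 3586, 5170, 61544, 98458, 180240, 65827, 641, 2311, 6158, 1540, 9240, 20496,
      139344, 196720, 32928, 49216]
    tri := [(0, 1, 7), (0, 1, 9), (0, 7, 8), (0, 8, 9), (1, 2, 9), (1, 2, 10), (1, 3, 5), (1, 3, 10),
      (1, 5, 7), (2, 9, 11), (2, 10, 11), (3, 4, 5), (3, 4, 12), (3, 10, 12), (4, 5, 15), (4, 6,
      14), (4, 6, 15), (4, 12, 13), (4, 13, 14), (5, 7, 16), (5, 15, 16), (6, 14, 17), (6, 15,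
      17)]
    fin := [0, 0, 0, 3, 4, 3, 4, 0, 8, 9, 0, 11, 3, 4, 14, 3, 16, 17]
    chd := [(0, 9), (4, 17)]
    steps := [(0, 1), (0, 2), (0, 7), (0, 10), (3, 5), (3, 12), (3, 15), (4, 6), (4, 13)] }
  rep := [0, 3, 9, 14, 4, 17, 8, 11, 16]

noncomputable def v2439 : Cov.CovD where
  P := 3
  N := 6
  pl := [1, 4, 7, 9]
  lev := [⟨[], [], [(0, 2)], [6], [(0, 0, [2]), (2, 2, [0])]⟩,
    ⟨[], [(0, 0), (0, 2)], [(0, 0), (0, 2)], [], [(0, 0, [2]), (2, 2, [0]), (3, 0, [2])]⟩,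
    ⟨[(0, 1)], [(0, 2), (1, 0), (1, 2)], [(0, 2)], [7], [(2, 2, [0]), (3, 0, [2])]⟩,
    ⟨[(0, 1), (1, 2)], [(1, 0), (1, 1), (1, 2), (2, 0)], [(0, 1)], [], [(3, 0, [2]), (5, 1,
      [])]⟩,
    ⟨[(1, 3)], [(3, 0), (3, 1), (3, 4)], [(1, 1), (1, 4)], [3], [(5, 1, []), (6, 4, [5]),
      (8, 1, [])]⟩,
    ⟨[(0, 1), (1, 2), (1, 3), (1, 4), (3, 4)], [(0, 0), (1, 0), (1, 1), (1, 2), (3, 0), (3,
      1), (4, 0), (4, 1), (4, 4)], [(0, 1)], [8], [(0, 0, [2]), (8, 1, [])]⟩,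
    ⟨[(3, 4), (4, 5)], [(4, 1), (4, 4), (4, 5), (5, 1)], [(1, 5)], [3], [(8, 1, []), (10,
      5, [4])]⟩]
  Ta := [((0, 1), 0, 6), ((0, 9), 0, 8), ((3, 4), 0, 7), ((3, 5), 0, 1), ((5, 3), 1, 0), ((5, 6),
    1, 4), ((8, 9), 1, 8), ((8, 10), 1, 5)]
  Tb := [((0, 1, 9), 0, 6, 8), ((1, 0, 2), 6, 0, 2), ((2, 1, 4), 2, 6, 7), ((3, 4, 5), 0, 7, 1),
    ((4, 2, 3), 7, 2, 0), ((5, 3, 6), 1, 0, 4), ((6, 5, 7), 4, 1, 3), ((7, 6, 10), 3, 4, 5),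
    ((8, 9, 10), 1, 8, 5), ((9, 0, 8), 8, 0, 1), ((10, 7, 8), 5, 3, 1)]
  Tc := []
  Td := [((0, 2), (0, 1), 6), ((0, 2), (0, 9), 8), ((0, 2), (3, 4), 7), ((0, 2), (3, 5), 1), ((2,
    0), (2, 1), 6), ((2, 0), (2, 4), 7), ((4, 5), (6, 5), 1), ((4, 5), (6, 7), 3), ((5, 4),
    (10, 7), 3), ((5, 4), (10, 8), 1)]
  G := [[0, 0, 0x2131c2d84421c2992498421431c29c24e, 0x5292c2d4185292c2d814c,
    0x5292c2d4185292c2d418a], [0, 0, 0x91ccc58518462518491ccc58625191cccd882e,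
    0x9442155c98cccd21c5499cc4d21c81588a1cc, 0x99c455cccc9c1299c455cccc9c12a], [0,
    0x53631a99ce23211a99ae388ac41, 0x31421c29c2492416122c94c86122c98a148c2e,
    0x92452c29c5292c2d8c41, 0x5292c2d45292c2d4a81], [0, 0,
    0x5191cccd85191cccd4c291451ccc9c5191cccd4c26, 0x5494c25499ccccd2c98ccc5588a5882cc1,
    0x99c455cccc9c94455c98cccdca21]]

noncomputable def n2439 : Ent := ⟨e2439, noF, [], [], [(11, 17, [6903326391201334775872065844685381424292761054348340378595029939675137, 0])]⟩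

def c2439 : PLift (Cov.check n2439.C.D v2439 = true) := ⟨by decide +kernel⟩

def b2439 : PLift (entF (fidx ts) 400 2439 n2439 = true) := ⟨by decide +kernel⟩

theorem g2439 : GoodF (fidx ts) 400 2439 := GoodF.ofV v2439 n2439 c2439.down b2439.down

/-- 4746464:1948/1 -/
noncomputable def e2440 : SCfg where
  D := {
    a := 7
    L := 9
    kp := 7
    inn := [(0, 1), (1, 0), (1, 2), (1, 3), (2, 1), (3, 1), (3, 4), (3, 5), (4, 3), (4, 5), (5, 3), (5,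
      4), (5, 6), (6, 5)]
    mix := [(0, 0), (0, 1), (0, 2), (1, 0), (1, 2), (1, 3), (1, 4), (2, 2), (2, 3), (2, 5), (3, 3), (3,
      4), (3, 6), (4, 6), (4, 7), (5, 4), (5, 7), (5, 8), (6, 1), (6, 7), (6, 8)]
    cl := [2, 4, 1, 0, 0, 7, 5, 3, 6]
    chq := [(0, 3), (0, 4), (1, 2), (2, 1), (2, 7), (3, 0), (4, 0), (7, 2)]
    rng := [(0, 1), (0, 4), (1, 0), (1, 2), (1, 7), (1, 8), (2, 1), (2, 5), (3, 5), (3, 6), (4, 0), (4,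
      8), (5, 2), (5, 3), (6, 3), (6, 7), (7, 1), (7, 6), (8, 1), (8, 4)]
    lev := [] }
  links := [[1, 7, 8, 9], [7, 0, 9, 2, 10, 3, 11], [10, 1, 9, 12], [11, 1, 10, 13, 4, 5], [5, 3, 13, 14],
    [11, 3, 4, 14, 6, 15], [15, 5, 14, 8]]
  P := {
    a := 7
    N := 16
    nb := [898, 3725, 5634, 11314, 24616, 51288, 49440, 2307, 49857, 4359, 12302, 32938, 1540, 17432,
      8560, 2400]
    tri := [(0, 1, 7), (0, 1, 9), (0, 7, 8), (0, 8, 9), (1, 2, 9), (1, 2, 10), (1, 3, 10), (1, 3, 11),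
      (1, 7, 11), (2, 9, 12), (2, 10, 12), (3, 4, 5), (3, 4, 13), (3, 5, 11), (3, 10, 13), (4, 5,
      14), (4, 13, 14), (5, 6, 14), (5, 6, 15), (5, 11, 15), (6, 8, 14), (6, 8, 15)]
    fin := [0, 0, 0, 3, 3, 5, 5, 0, 5, 9, 3, 3, 12, 13, 14, 15]
    chd := [(0, 9), (0, 12), (3, 14), (5, 3)]
    steps := [(0, 1), (0, 2), (0, 7), (3, 4), (3, 10), (3, 11), (5, 6), (5, 8)] }
  rep := [3, 9, 0, 14, 5, 13, 15, 12]

noncomputable def v2440 : Cov.CovD where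
  P := 3
  N := 5
  pl := [6, 8]
  lev := [⟨[], [], [(1, 2), (1, 4), (2, 4)], [], [(0, 2, [1, 7]), (1, 4, [0]), (2, 1, [2])]⟩,
    ⟨[], [(0, 0), (0, 1), (0, 2), (0, 4)], [(0, 0), (0, 1), (0, 2), (1, 2)], [], [(0, 2,
      [1, 7]), (2, 1, [2]), (3, 0, [3, 4]), (4, 0, [3, 4])]⟩,
    ⟨[(0, 1)], [(0, 1), (1, 0), (1, 1), (1, 2), (1, 7)], [(0, 1), (0, 7), (1, 7)], [], [(2,
      1, [2]), (3, 0, [3, 4]), (5, 7, [2])]⟩,
    ⟨[(0, 1), (1, 2)], [(1, 0), (1, 1), (1, 2), (2, 0)], [(0, 0)], [5], [(3, 0, [3, 4]),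
      (4, 0, [3, 4])]⟩,
    ⟨[(1, 3)], [(3, 0), (3, 3)], [], [5], [(7, 3, [0])]⟩,
    ⟨[(1, 3), (3, 4)], [(1, 0), (3, 0), (3, 3), (4, 0), (4, 3)], [(0, 3)], [6], [(4, 0, [3,
      4]), (7, 3, [0])]⟩,
    ⟨[(3, 5), (4, 5)], [(0, 4), (4, 3), (5, 0), (5, 3), (5, 4)], [(3, 4)], [6], [(1, 4,
      [0]), (7, 3, [0])]⟩]
  Ta := [((3, 5), 0, 7), ((3, 6), 0, 5), ((4, 0), 0, 2), ((4, 8), 0, 6)]
  Tb := [((0, 1, 4), 2, 4, 0), ((1, 0, 2), 4, 2, 1), ((1, 0, 7), 4, 2, 3), ((1, 0, 8), 4, 2, 6),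
    ((1, 2, 7), 4, 1, 3), ((1, 2, 8), 4, 1, 6), ((1, 7, 8), 4, 3, 6), ((2, 1, 5), 1, 4, 7),
    ((3, 5, 6), 0, 7, 5), ((4, 0, 8), 0, 2, 6), ((5, 2, 3), 7, 1, 0), ((6, 3, 7), 5, 0, 3),
    ((7, 1, 6), 3, 4, 5), ((8, 1, 4), 6, 4, 0)]
  Tc := [(0, 3, 4), (2, 1, 7)]
  Td := [((0, 3), (3, 5), 7), ((0, 3), (3, 6), 5), ((0, 3), (4, 0), 2), ((0, 3), (4, 8), 6), ((0,
    4), (3, 5), 7), ((0, 4), (3, 6), 5), ((0, 4), (4, 0), 2), ((0, 4), (4, 8), 6), ((1, 2),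
    (2, 1), 4), ((1, 2), (2, 5), 7), ((2, 1), (0, 1), 4), ((2, 1), (0, 4), 0), ((2, 7), (0,
    1), 4), ((2, 7), (0, 4), 0), ((3, 0), (7, 1), 4), ((3, 0), (7, 6), 5), ((4, 0), (1, 0),
    2), ((4, 0), (1, 2), 1), ((4, 0), (1, 7), 3), ((4, 0), (1, 8), 6), ((7, 2), (5, 2), 1),
    ((7, 2), (5, 3), 0)]
  G := [[0, 0x1412811eb11c125a628143e111c1296a24c, 0, 0x2174392a1189145ce281,
    0x14512361883a995c1e481], [0, 0x812e1831e1628436112a114c1e28c,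
    0x181269811e1618111e1111e1a14c, 0x152e192a185c1e141, 0x536193a195c1e481]]

noncomputable def n2440 : Ent := ⟨e2440, noF, [], [], []⟩

def c2440 : PLift (Cov.check n2440.C.D v2440 = true) := ⟨by decide +kernel⟩

def b2440 : PLift (entF (fidx ts) 400 2440 n2440 = true) := ⟨by decide +kernel⟩

theorem g2440 : GoodF (fidx ts) 400 2440 := GoodF.ofV v2440 n2440 c2440.down b2440.down

/-- 4746464:1948/2 -/
noncomputable def e2441 : SCfg where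
  D := {
    a := 7
    L := 9
    kp := 6
    inn := [(0, 1), (1, 0), (1, 2), (1, 3), (2, 1), (3, 1), (3, 4), (3, 5), (4, 3), (4, 5), (5, 3), (5,
      4), (5, 6), (6, 5)]
    mix := [(0, 0), (0, 1), (0, 2), (1, 0), (1, 2), (1, 3), (1, 4), (2, 2), (2, 3), (2, 5), (3, 3), (3,
      4), (3, 6), (4, 6), (4, 7), (5, 4), (5, 7), (5, 8), (6, 5), (6, 7), (6, 8)]
    cl := [1, 6, 2, 1, 0, 3, 4, 0, 5]
    chq := [(1, 2), (2, 1)]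
    rng := [(0, 1), (0, 4), (1, 0), (1, 2), (2, 1), (2, 5), (3, 5), (3, 6), (4, 0), (4, 8), (5, 2), (5,
      3), (5, 7), (5, 8), (6, 3), (6, 7), (7, 5), (7, 6), (8, 4), (8, 5)]
    lev := [] }
  links := [[1, 7, 8, 9], [7, 0, 9, 2, 10, 3, 11], [10, 1, 9, 12], [11, 1, 10, 13, 4, 5], [5, 3, 13, 14],
    [11, 3, 4, 14, 6, 15], [15, 5, 14, 12]]
  P := {
    a := 7
    N := 16
    nb := [898, 3725, 5634, 11314, 24616, 51288, 53280, 2307, 641, 4359, 12302, 32938, 50756, 17432,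
      12400, 6240]
    tri := [(0, 1, 7), (0, 1, 9), (0, 7, 8), (0, 8, 9), (1, 2, 9), (1, 2, 10), (1, 3, 10), (1, 3, 11),
      (1, 7, 11), (2, 9, 12), (2, 10, 12), (3, 4, 5), (3, 4, 13), (3, 5, 11), (3, 10, 13), (4, 5,
      14), (4, 13, 14), (5, 6, 14), (5, 6, 15), (5, 11, 15), (6, 12, 14), (6, 12, 15)]
    fin := [0, 0, 0, 0, 0, 5, 6, 0, 8, 9, 0, 5, 6, 13, 5, 15]
    chd := [(0, 9)]
    steps := [(0, 1), (0, 2), (0, 3), (0, 4), (0, 7), (0, 10), (5, 14), (5, 11), (6, 12)] }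
  rep := [5, 0, 9, 6, 13, 15, 8]

noncomputable def v2441 : Cov.CovD where
  P := 3
  N := 4
  pl := [1, 5, 6, 8]
  lev := [⟨[], [], [(1, 2)], [6], [(0, 1, [2]), (2, 2, [1])]⟩,
    ⟨[], [(0, 0), (0, 1), (0, 2)], [(0, 1), (0, 2), (1, 1), (1, 2)], [], [(0, 1, [2]), (2,
      2, [1]), (3, 1, [2]), (4, 0, [])]⟩,
    ⟨[(0, 1)], [(0, 2), (1, 0), (1, 1), (1, 2)], [(1, 2)], [3], [(2, 2, [1]), (3, 1, [2])]⟩,
    ⟨[(0, 1), (1, 2)], [(1, 0), (1, 1), (1, 2), (2, 1)], [(0, 1)], [4], [(3, 1, [2]), (4,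
      0, [])]⟩,
    ⟨[(1, 3)], [(3, 0), (3, 1)], [], [4], [(7, 0, [])]⟩,
    ⟨[(1, 3), (3, 4)], [(1, 0), (3, 0), (3, 1), (4, 0)], [(0, 0)], [5], [(4, 0, []), (7, 0,
      [])]⟩,
    ⟨[(3, 5), (4, 5)], [(4, 0), (5, 0)], [], [3, 5], [(7, 0, [])]⟩]
  Ta := [((0, 1), 1, 6), ((0, 4), 1, 0), ((3, 5), 1, 3), ((3, 6), 1, 4), ((4, 0), 0, 1), ((4, 8),
    0, 5), ((7, 5), 0, 3), ((7, 6), 0, 4)]
  Tb := [((0, 1, 4), 1, 6, 0), ((1, 0, 2), 6, 1, 2), ((2, 1, 5), 2, 6, 3), ((3, 5, 6), 1, 3, 4),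
    ((4, 0, 8), 0, 1, 5), ((5, 2, 3), 3, 2, 1), ((5, 2, 7), 3, 2, 0), ((5, 2, 8), 3, 2, 5),
    ((5, 3, 7), 3, 1, 0), ((5, 3, 8), 3, 1, 5), ((5, 7, 8), 3, 0, 5), ((6, 3, 7), 4, 1, 0),
    ((7, 5, 6), 0, 3, 4), ((8, 4, 5), 5, 0, 3)]
  Tc := []
  Td := [((1, 2), (0, 1), 6), ((1, 2), (0, 4), 0), ((1, 2), (3, 5), 3), ((1, 2), (3, 6), 4), ((2,
    1), (2, 1), 6), ((2, 1), (2, 5), 3)]
  G := [[0, 0x11a411c2618116811c2a14c, 0x24c12482c128c82c1224c12c8c, 0xa6c1218e2c12145,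
    0x6ac12182ec12189], [0, 0, 0x426141a4c4136882a1c8c2, 0x6ac1214e2c12145, 0xca6118625c182],
    [0, 0, 0xc268c2a4924c268a6c2924c, 0x42681c2a445882c218424c21c268854d,
    0x2ec2c2a4c21c2a4a6c25289], [0, 0, 0x86a482c2542a424c25c82,
    0x24c214482c21c268894c2a48268518d, 0x82684ca1c6a424c25982]]

noncomputable def n2441 : Ent := ⟨e2441, noF, [], [], []⟩

def c2441 : PLift (Cov.check n2441.C.D v2441 = true) := ⟨by decide +kernel⟩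

def b2441 : PLift (entF (fidx ts) 400 2441 n2441 = true) := ⟨by decide +kernel⟩

theorem g2441 : GoodF (fidx ts) 400 2441 := GoodF.ofV v2441 n2441 c2441.down b2441.down

/-- 4746464:1948 -/
noncomputable def e2442 : SCfg where
  D := {
    a := 7
    L := 10
    kp := 8
    inn := [(0, 1), (1, 0), (1, 2), (1, 3), (2, 1), (3, 1), (3, 4), (3, 5), (4, 3), (4, 5), (5, 3), (5,
      4), (5, 6), (6, 5)]
    mix := [(0, 0), (0, 1), (0, 2), (1, 0), (1, 2), (1, 3), (1, 4), (2, 2), (2, 3), (2, 5), (3, 3), (3,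
      4), (3, 6), (4, 6), (4, 7), (5, 4), (5, 7), (5, 8), (6, 7), (6, 8), (6, 9)]
    cl := [2, 6, 1, 0, 0, 7, 5, 3, 4, 8]
    chq := [(0, 1), (0, 3), (0, 6), (1, 0), (3, 0), (3, 4), (4, 3), (6, 0)]
    rng := [(0, 1), (0, 4), (1, 0), (1, 2), (2, 1), (2, 5), (3, 5), (3, 6), (4, 0), (4, 8), (5, 2), (5,
      3), (6, 3), (6, 7), (7, 6), (7, 9), (8, 4), (8, 9), (9, 7), (9, 8)]
    lev := [] }
  links := [[1, 7, 8, 9], [7, 0, 9, 2, 10, 3, 11], [10, 1, 9, 12], [11, 1, 10, 13, 4, 5], [5, 3, 13, 14],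
    [11, 3, 4, 14, 6, 15], [15, 5, 14, 16]]
  P := {
    a := 7
    N := 17
    nb := [898, 3725, 5634, 11314, 24616, 51288, 114720, 2307, 641, 4359, 12302, 32938, 1540, 17432,
      73840, 67680, 49216]
    tri := [(0, 1, 7), (0, 1, 9), (0, 7, 8), (0, 8, 9), (1, 2, 9), (1, 2, 10), (1, 3, 10), (1, 3, 11),
      (1, 7, 11), (2, 9, 12), (2, 10, 12), (3, 4, 5), (3, 4, 13), (3, 5, 11), (3, 10, 13), (4, 5,
      14), (4, 13, 14), (5, 6, 14), (5, 6, 15), (5, 11, 15), (6, 14, 16), (6, 15, 16)]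
    fin := [0, 0, 2, 3, 3, 3, 6, 7, 0, 2, 3, 3, 12, 13, 6, 15, 16]
    chd := [(0, 3), (2, 3), (3, 6), (6, 15)]
    steps := [(0, 1), (0, 8), (2, 9), (3, 4), (3, 5), (3, 10), (3, 11), (6, 14)] }
  rep := [3, 2, 7, 6, 15, 13, 0, 12, 16]

noncomputable def v2442 : Cov.CovD where
  P := 3
  N := 6
  pl := [0, 5, 6, 9]
  lev := [⟨[], [], [(1, 6)], [2], [(1, 6, [0]), (2, 1, [0])]⟩,
    ⟨[], [(0, 0), (0, 1), (0, 6)], [(0, 0), (0, 1)], [2], [(2, 1, [0]), (3, 0, [1, 3, 6]),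
      (4, 0, [1, 3, 6])]⟩,
    ⟨[(0, 1)], [(0, 1), (1, 0), (1, 1)], [(0, 1)], [7], [(2, 1, [0]), (3, 0, [1, 3, 6])]⟩,
    ⟨[(0, 1), (1, 2)], [(1, 0), (1, 1), (2, 0)], [(0, 0)], [5], [(3, 0, [1, 3, 6]), (4, 0,
      [1, 3, 6])]⟩,
    ⟨[(1, 3)], [(3, 0), (3, 3)], [], [5], [(7, 3, [0, 4])]⟩,
    ⟨[(1, 3), (3, 4)], [(1, 0), (3, 0), (3, 3), (3, 4), (4, 0), (4, 3), (4, 4)], [(0, 3),
      (0, 4), (3, 4)], [], [(4, 0, [1, 3, 6]), (7, 3, [0, 4]), (8, 4, [3])]⟩,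
    ⟨[(3, 5), (4, 5)], [(4, 3), (5, 0), (5, 3), (5, 4)], [(3, 4)], [8], [(7, 3, [0, 4]),
      (8, 4, [3])]⟩]
  Ta := [((3, 5), 0, 7), ((3, 6), 0, 5), ((4, 0), 0, 2), ((4, 8), 0, 4)]
  Tb := [((0, 1, 4), 2, 6, 0), ((1, 0, 2), 6, 2, 1), ((2, 1, 5), 1, 6, 7), ((3, 5, 6), 0, 7, 5),
    ((4, 0, 8), 0, 2, 4), ((5, 2, 3), 7, 1, 0), ((6, 3, 7), 5, 0, 3), ((7, 6, 9), 3, 5, 8),
    ((8, 4, 9), 4, 0, 8), ((9, 7, 8), 8, 3, 4)]
  Tc := [(0, 1, 3), (0, 1, 6), (0, 3, 6), (3, 0, 4)]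
  Td := [((0, 1), (3, 5), 7), ((0, 1), (3, 6), 5), ((0, 1), (4, 0), 2), ((0, 1), (4, 8), 4), ((0,
    3), (3, 5), 7), ((0, 3), (3, 6), 5), ((0, 3), (4, 0), 2), ((0, 3), (4, 8), 4), ((0, 6),
    (3, 5), 7), ((0, 6), (3, 6), 5), ((0, 6), (4, 0), 2), ((0, 6), (4, 8), 4), ((1, 0), (2,
    1), 6), ((1, 0), (2, 5), 7), ((3, 0), (7, 6), 5), ((3, 0), (7, 9), 8), ((3, 4), (7, 6),
    5), ((3, 4), (7, 9), 8), ((4, 3), (8, 4), 0), ((4, 3), (8, 9), 8), ((6, 0), (1, 0), 2),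
    ((6, 0), (1, 2), 1)]
  G := [[0, 0x81153e9854121951e3a93a15416e41, 0, 0x145123618932995c1e1a31134f18d129971e3ac41,
    0x143d13e5118b1421516f61138f16314d125b51e36c81], [0, 0x41913e545361821951e32e8118984c1,
    0x14143e582a1951e1e14536193a195c1e18c, 0x536193a195c1e141, 0x536193a195c1e181]]

noncomputable def n2442 : Ent := ⟨e2442, noF, [], [], [(8, 16, [1580044410770988437309982408355971841652082177953823432505699106817, 0]), (12, 16, [1580044410770988437309982408355971841652082177953823432505699110913, 0])]⟩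

def c2442 : PLift (Cov.check n2442.C.D v2442 = true) := ⟨by decide +kernel⟩

def b2442 : PLift (entF (fidx ts) 400 2442 n2442 = true) := ⟨by decide +kernel⟩

theorem g2442 : GoodF (fidx ts) 400 2442 := GoodF.ofV v2442 n2442 c2442.down b2442.down

/-- 4745744:1949/2 -/
noncomputable def e2443 : SCfg where
  D := {
    a := 7
    L := 9
    kp := 6
    inn := [(0, 1), (1, 0), (1, 2), (1, 3), (2, 1), (3, 1), (3, 4), (4, 3), (4, 5), (4, 6), (5, 4), (6,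
      4)]
    mix := [(0, 0), (0, 1), (0, 2), (1, 0), (1, 2), (1, 3), (1, 4), (2, 2), (2, 3), (2, 5), (3, 3), (3,
      4), (3, 6), (4, 4), (4, 6), (4, 7), (4, 8), (5, 1), (5, 6), (5, 7), (6, 0), (6, 4), (6, 8)]
    cl := [2, 4, 3, 0, 0, 6, 1, 5, 1]
    chq := [(0, 3), (0, 4), (3, 0), (4, 0)]
    rng := [(0, 1), (0, 4), (0, 8), (1, 0), (1, 2), (1, 6), (1, 7), (2, 1), (2, 5), (3, 5), (3, 6), (4,
      0), (5, 2), (5, 3), (6, 1), (6, 3), (7, 1), (7, 8), (8, 0), (8, 7)]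
    lev := [] }
  links := [[1, 7, 8, 9], [7, 0, 9, 2, 10, 3, 11], [10, 1, 9, 12], [11, 1, 10, 13, 4], [11, 3, 13, 5, 14,
    15, 6], [14, 4, 13, 8], [11, 4, 15, 7]]
  P := {
    a := 7
    N := 16
    nb := [898, 3725, 5634, 11282, 59496, 24848, 34960, 35139, 25249, 4359, 12302, 218, 1540, 1336,
      33072, 16592]
    tri := [(0, 1, 7), (0, 1, 9), (0, 7, 8), (0, 8, 9), (1, 2, 9), (1, 2, 10), (1, 3, 10), (1, 3, 11),
      (1, 7, 11), (2, 9, 12), (2, 10, 12), (3, 4, 11), (3, 4, 13), (3, 10, 13), (4, 5, 13), (4, 5,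
      14), (4, 6, 11), (4, 6, 15), (4, 14, 15), (5, 8, 13), (5, 8, 14), (6, 7, 11), (6, 7, 15)]
    fin := [0, 0, 2, 3, 4, 0, 6, 6, 0, 2, 3, 3, 12, 4, 14, 4]
    chd := [(0, 3), (2, 3)]
    steps := [(0, 1), (0, 8), (0, 5), (2, 9), (3, 10), (3, 11), (4, 13), (4, 15), (6, 7)] }
  rep := [3, 4, 6, 2, 0, 14, 12]

noncomputable def v2443 : Cov.CovD where
  P := 3
  N := 4
  pl := [0, 5, 7]
  lev := [⟨[], [], [(3, 4)], [2], [(1, 4, [0]), (2, 3, [0])]⟩,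
    ⟨[], [(0, 0), (0, 3), (0, 4)], [(0, 0), (0, 3)], [2], [(2, 3, [0]), (3, 0, [3, 4]), (4,
      0, [3, 4])]⟩,
    ⟨[(0, 1)], [(0, 3), (1, 0), (1, 3)], [(0, 3)], [6], [(2, 3, [0]), (3, 0, [3, 4])]⟩,
    ⟨[(0, 1), (1, 2)], [(1, 0), (1, 1), (1, 3), (2, 0)], [(0, 0), (0, 1)], [], [(3, 0, [3,
      4]), (4, 0, [3, 4]), (6, 1, [])]⟩,
    ⟨[(1, 3)], [(1, 0), (3, 0), (3, 1)], [(0, 1), (1, 1)], [5], [(4, 0, [3, 4]), (6, 1,
      []), (8, 1, [])]⟩,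
    ⟨[(3, 4)], [(0, 4), (3, 1), (4, 0), (4, 1), (4, 4)], [(1, 4)], [5], [(1, 4, [0]), (6,
      1, [])]⟩,
    ⟨[(3, 4), (4, 5)], [(1, 0), (3, 0), (4, 0), (4, 1)], [(0, 1)], [2], [(4, 0, [3, 4]),
      (8, 1, [])]⟩]
  Ta := [((3, 5), 0, 6), ((3, 6), 0, 1), ((4, 0), 0, 2), ((6, 1), 1, 4), ((6, 3), 1, 0), ((8, 0),
    1, 2), ((8, 7), 1, 5)]
  Tb := [((0, 1, 4), 2, 4, 0), ((0, 1, 8), 2, 4, 1), ((0, 4, 8), 2, 0, 1), ((1, 0, 2), 4, 2, 3),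
    ((1, 0, 6), 4, 2, 1), ((1, 0, 7), 4, 2, 5), ((1, 2, 6), 4, 3, 1), ((1, 2, 7), 4, 3, 5),
    ((1, 6, 7), 4, 1, 5), ((2, 1, 5), 3, 4, 6), ((3, 5, 6), 0, 6, 1), ((5, 2, 3), 6, 3, 0),
    ((6, 1, 3), 1, 4, 0), ((7, 1, 8), 5, 4, 1), ((8, 0, 7), 1, 2, 5)]
  Tc := [(0, 3, 4)]
  Td := [((0, 3), (3, 5), 6), ((0, 3), (3, 6), 1), ((0, 3), (4, 0), 2), ((0, 4), (3, 5), 6), ((0,
    4), (3, 6), 1), ((0, 4), (4, 0), 2), ((3, 0), (2, 1), 4), ((3, 0), (2, 5), 6), ((4, 0),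
    (1, 0), 2), ((4, 0), (1, 2), 3), ((4, 0), (1, 6), 1), ((4, 0), (1, 7), 5)]
  G := [[0, 0x48a886c244c886a4a48c88a688224884c66c1, 0, 0,
    0x221d2184d482541298cc18542198c22542298c6a1], [0, 0, 0, 0x4212c4424294a4282984282946c1,
    0x8281c44282188c4618c8258c18c82582a3], [0, 0, 0x4881c4182184c81421488dc812e, 0,
    0x222d8124d422542898cc88542898c1a1], [0, 0, 0x4841c2184284c8144182c412e,
    0x8282c48282c4a4282c81c1, 0x8182c4128281c48281c48442d83]]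

noncomputable def n2443 : Ent := ⟨e2443, noF, [], [], []⟩

def c2443 : PLift (Cov.check n2443.C.D v2443 = true) := ⟨by decide +kernel⟩

def b2443 : PLift (entF (fidx ts) 400 2443 n2443 = true) := ⟨by decide +kernel⟩

theorem g2443 : GoodF (fidx ts) 400 2443 := GoodF.ofV v2443 n2443 c2443.down b2443.down

/-- 4745744:1949/4 -/
noncomputable def e2444 : SCfg where
  D := {
    a := 7
    L := 8
    kp := 5
    inn := [(0, 1), (1, 0), (1, 2), (1, 3), (2, 1), (3, 1), (3, 4), (4, 3), (4, 5), (4, 6), (5, 4), (6,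
      4)]
    mix := [(0, 0), (0, 1), (0, 2), (1, 0), (1, 2), (1, 3), (1, 4), (2, 2), (2, 3), (2, 5), (3, 3), (3,
      4), (3, 6), (4, 1), (4, 4), (4, 6), (4, 7), (5, 5), (5, 6), (5, 7), (6, 0), (6, 1), (6, 4)]
    cl := [0, 2, 3, 0, 1, 5, 4, 1]
    chq := [(0, 3), (1, 4), (3, 0), (4, 1)]
    rng := [(0, 1), (0, 4), (1, 0), (1, 2), (1, 7), (2, 1), (2, 5), (3, 5), (3, 6), (4, 0), (5, 2), (5,
      3), (5, 6), (5, 7), (6, 3), (6, 5), (7, 1), (7, 5)]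
    lev := [] }
  links := [[1, 7, 8, 9], [7, 0, 9, 2, 10, 3, 11], [10, 1, 9, 12], [11, 1, 10, 13, 4], [11, 3, 13, 5, 14,
    8, 6], [14, 4, 13, 12], [11, 4, 8, 7]]
  P := {
    a := 7
    N := 15
    nb := [898, 3725, 5634, 11282, 26984, 28688, 2448, 2371, 17105, 4359, 12302, 218, 26148, 5176,
      4400]
    tri := [(0, 1, 7), (0, 1, 9), (0, 7, 8), (0, 8, 9), (1, 2, 9), (1, 2, 10), (1, 3, 10), (1, 3, 11),
      (1, 7, 11), (2, 9, 12), (2, 10, 12), (3, 4, 11), (3, 4, 13), (3, 10, 13), (4, 5, 13), (4, 5,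
      14), (4, 6, 8), (4, 6, 11), (4, 8, 14), (5, 12, 13), (5, 12, 14), (6, 7, 8), (6, 7, 11)]
    fin := [0, 0, 0, 0, 4, 5, 0, 0, 8, 9, 0, 4, 5, 13, 4]
    chd := [(0, 9), (4, 13)]
    steps := [(0, 1), (0, 2), (0, 3), (0, 7), (0, 10), (4, 14), (4, 11), (0, 6), (5, 12)] }
  rep := [0, 4, 8, 9, 13, 5]

noncomputable def v2444 : Cov.CovD where
  P := 3
  N := 3
  pl := [1, 5]
  lev := [⟨[], [], [(0, 3)], [2], [(0, 0, [3]), (2, 3, [0])]⟩,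
    ⟨[], [(0, 0), (0, 1), (0, 3)], [(0, 0), (0, 1), (0, 3), (1, 3)], [], [(0, 0, [3]), (2,
      3, [0]), (3, 0, [3]), (4, 1, [4])]⟩,
    ⟨[(0, 1)], [(0, 3), (1, 0), (1, 1), (1, 3)], [(0, 3)], [5], [(2, 3, [0]), (3, 0, [3])]⟩,
    ⟨[(0, 1), (1, 2)], [(1, 0), (1, 1), (1, 3), (1, 4), (2, 0)], [(0, 1), (0, 4), (1, 4)],
      [], [(3, 0, [3]), (4, 1, [4]), (6, 4, [1])]⟩,
    ⟨[(1, 3)], [(1, 1), (3, 0), (3, 1), (3, 4)], [(1, 1), (1, 4)], [2], [(4, 1, [4]), (6,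
      4, [1]), (7, 1, [4])]⟩,
    ⟨[(3, 4)], [(3, 4), (4, 1), (4, 4)], [(1, 4)], [5], [(6, 4, [1]), (7, 1, [4])]⟩,
    ⟨[(3, 4), (4, 5)], [(0, 0), (1, 0), (1, 1), (3, 1), (4, 0), (4, 1), (4, 4)], [(0, 1)],
      [2], [(0, 0, [3]), (4, 1, [4])]⟩]
  Ta := [((0, 1), 0, 2), ((0, 4), 0, 1), ((3, 5), 0, 5), ((3, 6), 0, 4), ((4, 0), 1, 0), ((7, 1),
    1, 2), ((7, 5), 1, 5)]
  Tb := [((0, 1, 4), 0, 2, 1), ((1, 0, 2), 2, 0, 3), ((1, 0, 7), 2, 0, 1), ((1, 2, 7), 2, 3, 1),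
    ((2, 1, 5), 3, 2, 5), ((3, 5, 6), 0, 5, 4), ((5, 2, 3), 5, 3, 0), ((5, 2, 6), 5, 3, 4),
    ((5, 2, 7), 5, 3, 1), ((5, 3, 6), 5, 0, 4), ((5, 3, 7), 5, 0, 1), ((5, 6, 7), 5, 4, 1),
    ((6, 3, 5), 4, 0, 5), ((7, 1, 5), 1, 2, 5)]
  Tc := []
  Td := [((0, 3), (0, 1), 2), ((0, 3), (0, 4), 1), ((0, 3), (3, 5), 5), ((0, 3), (3, 6), 4), ((1,
    4), (4, 0), 0), ((1, 4), (7, 1), 2), ((1, 4), (7, 5), 5), ((3, 0), (2, 1), 2), ((3, 0),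
    (2, 5), 5), ((4, 1), (6, 3), 0), ((4, 1), (6, 5), 5)]
  G := [[0, 0x814818618418814a14c, 0x81818144388141418834c, 0, 0x81818114382181c811811c24a], [0,
    0, 0x214818618418814c12c, 0x411228811224c, 0x8188116188112811288564a], [0, 0, 0, 0,
    0x84141284946128811c1288cc821821288851c2ca], [0, 0, 0, 0x181441d224488441d2285,
    0x2111886841884922488116a21118862c2258841a44b]]

noncomputable def n2444 : Ent := ⟨e2444, noF, [], [], []⟩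

def c2444 : PLift (Cov.check n2444.C.D v2444 = true) := ⟨by decide +kernel⟩

def b2444 : PLift (entF (fidx ts) 400 2444 n2444 = true) := ⟨by decide +kernel⟩

theorem g2444 : GoodF (fidx ts) 400 2444 := GoodF.ofV v2444 n2444 c2444.down b2444.down

/-- 4745744:1949/3 -/
noncomputable def e2445 : SCfg where
  D := {
    a := 7
    L := 9
    kp := 6
    inn := [(0, 1), (1, 0), (1, 2), (1, 3), (2, 1), (3, 1), (3, 4), (4, 3), (4, 5), (4, 6), (5, 4), (6,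
      4)]
    mix := [(0, 0), (0, 1), (0, 2), (1, 0), (1, 2), (1, 3), (1, 4), (2, 2), (2, 3), (2, 5), (3, 3), (3,
      4), (3, 6), (4, 1), (4, 4), (4, 6), (4, 7), (5, 6), (5, 7), (5, 8), (6, 0), (6, 1), (6, 4)]
    cl := [2, 0, 3, 1, 1, 5, 0, 4, 6]
    chq := [(2, 3), (2, 5), (3, 2), (5, 2)]
    rng := [(0, 1), (0, 4), (1, 0), (1, 2), (1, 7), (2, 1), (2, 5), (3, 5), (3, 6), (4, 0), (5, 2), (5,
      3), (6, 3), (6, 8), (7, 1), (7, 8), (8, 6), (8, 7)]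
    lev := [] }
  links := [[1, 7, 8, 9], [7, 0, 9, 2, 10, 3, 11], [10, 1, 9, 12], [11, 1, 10, 13, 4], [11, 3, 13, 5, 14,
    8, 6], [14, 4, 13, 15], [11, 4, 8, 7]]
  P := {
    a := 7
    N := 16
    nb := [898, 3725, 5634, 11282, 26984, 57360, 2448, 2371, 17105, 4359, 12302, 218, 1540, 33848,
      33072, 24608]
    tri := [(0, 1, 7), (0, 1, 9), (0, 7, 8), (0, 8, 9), (1, 2, 9), (1, 2, 10), (1, 3, 10), (1, 3, 11),
      (1, 7, 11), (2, 9, 12), (2, 10, 12), (3, 4, 11), (3, 4, 13), (3, 10, 13), (4, 5, 13), (4, 5,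
      14), (4, 6, 8), (4, 6, 11), (4, 8, 14), (5, 13, 15), (5, 14, 15), (6, 7, 8), (6, 7, 11)]
    fin := [0, 0, 0, 3, 4, 4, 0, 0, 4, 9, 3, 3, 12, 4, 14, 15]
    chd := [(0, 9), (0, 12)]
    steps := [(0, 1), (0, 2), (0, 7), (0, 6), (3, 10), (3, 11), (4, 5), (4, 8), (4, 13)] }
  rep := [4, 3, 0, 9, 14, 12, 15]

noncomputable def v2445 : Cov.CovD where
  P := 3
  N := 4
  pl := [7, 8]
  lev := [⟨[], [], [(0, 2), (0, 3), (2, 3)], [], [(0, 2, [3, 5]), (1, 0, []), (2, 3, [2])]⟩,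
    ⟨[], [(0, 0), (0, 1), (0, 2), (0, 3)], [(1, 1), (1, 2), (1, 3), (2, 3)], [], [(0, 2,
      [3, 5]), (2, 3, [2]), (3, 1, []), (4, 1, [])]⟩,
    ⟨[(0, 1)], [(0, 3), (1, 1), (1, 2), (1, 3), (1, 5)], [(1, 3), (1, 5), (3, 5)], [], [(2,
      3, [2]), (3, 1, []), (5, 5, [2])]⟩,
    ⟨[(0, 1), (1, 2)], [(1, 0), (1, 1), (1, 2), (1, 3), (2, 1)], [(0, 1), (1, 1)], [], [(3,
      1, []), (4, 1, []), (6, 0, [])]⟩,
    ⟨[(1, 3)], [(0, 0), (1, 1), (3, 0), (3, 1)], [(0, 0), (0, 1)], [4], [(1, 0, []), (4, 1,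
      []), (6, 0, [])]⟩,
    ⟨[(3, 4)], [(3, 0), (4, 0), (4, 1)], [], [4, 6], [(6, 0, [])]⟩,
    ⟨[(3, 4), (4, 5)], [(0, 0), (0, 2), (1, 1), (1, 2), (3, 1), (4, 0), (4, 1), (4, 2)],
      [(0, 1), (0, 2), (1, 2)], [], [(0, 2, [3, 5]), (1, 0, []), (4, 1, [])]⟩]
  Ta := [((1, 0), 0, 2), ((1, 2), 0, 3), ((1, 7), 0, 4), ((3, 5), 1, 5), ((3, 6), 1, 0), ((4, 0),
    1, 2), ((6, 3), 0, 1), ((6, 8), 0, 6)]
  Tb := [((0, 1, 4), 2, 0, 1), ((1, 0, 2), 0, 2, 3), ((1, 0, 7), 0, 2, 4), ((1, 2, 7), 0, 3, 4),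
    ((2, 1, 5), 3, 0, 5), ((3, 5, 6), 1, 5, 0), ((5, 2, 3), 5, 3, 1), ((6, 3, 8), 0, 1, 6),
    ((7, 1, 8), 4, 0, 6), ((8, 6, 7), 6, 0, 4)]
  Tc := [(2, 3, 5)]
  Td := [((2, 3), (0, 1), 0), ((2, 3), (0, 4), 1), ((2, 5), (0, 1), 0), ((2, 5), (0, 4), 1), ((3,
    2), (2, 1), 0), ((3, 2), (2, 5), 5), ((5, 2), (5, 2), 3), ((5, 2), (5, 3), 1)]
  G := [[0, 0, 0x214164182141a814c, 0, 0x28a826c14828c81a441a], [0, 0, 0x8181c4184141c814c,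
    0x44a81c42841846c824c, 0x885889c4488864818c21a], [0, 0x48a846c2288224884ca24c, 0, 0,
    0x218e2284e441286428a8c483], [0, 0, 0, 0x846448a8c2846444a8c2c1,
    0x11a8448864849116411a8c41a]]

noncomputable def n2445 : Ent := ⟨e2445, noF, [], [], [(12, 15, [360035742630636841211993100915356868655746945586763691017682945, 0])]⟩

def c2445 : PLift (Cov.check n2445.C.D v2445 = true) := ⟨by decide +kernel⟩

def b2445 : PLift (entF (fidx ts) 400 2445 n2445 = true) := ⟨by decide +kernel⟩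

theorem g2445 : GoodF (fidx ts) 400 2445 := GoodF.ofV v2445 n2445 c2445.down b2445.down

/-- 4745744:1949/5 -/
noncomputable def e2446 : SCfg where
  D := {
    a := 7
    L := 9
    kp := 6
    inn := [(0, 1), (1, 0), (1, 2), (1, 3), (2, 1), (3, 1), (3, 4), (4, 3), (4, 5), (4, 6), (5, 4), (6,
      4)]
    mix := [(0, 0), (0, 1), (0, 2), (1, 0), (1, 2), (1, 3), (1, 4), (2, 2), (2, 3), (2, 5), (3, 3), (3,
      4), (3, 6), (4, 4), (4, 6), (4, 7), (4, 8), (5, 5), (5, 6), (5, 7), (6, 0), (6, 4), (6, 8)]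
    cl := [2, 6, 3, 0, 0, 4, 1, 5, 1]
    chq := [(2, 3), (2, 4), (3, 2), (4, 2)]
    rng := [(0, 1), (0, 4), (0, 8), (1, 0), (1, 2), (2, 1), (2, 5), (3, 5), (3, 6), (4, 0), (5, 2), (5,
      3), (5, 6), (5, 7), (6, 3), (6, 5), (7, 5), (7, 8), (8, 0), (8, 7)]
    lev := [] }
  links := [[1, 7, 8, 9], [7, 0, 9, 2, 10, 3, 11], [10, 1, 9, 12], [11, 1, 10, 13, 4], [11, 3, 13, 5, 14,
    15, 6], [14, 4, 13, 12], [11, 4, 15, 7]]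
  P := {
    a := 7
    N := 16
    nb := [898, 3725, 5634, 11282, 59496, 28688, 34960, 35139, 641, 4359, 12302, 218, 26148, 5176,
      36912, 16592]
    tri := [(0, 1, 7), (0, 1, 9), (0, 7, 8), (0, 8, 9), (1, 2, 9), (1, 2, 10), (1, 3, 10), (1, 3, 11),
      (1, 7, 11), (2, 9, 12), (2, 10, 12), (3, 4, 11), (3, 4, 13), (3, 10, 13), (4, 5, 13), (4, 5,
      14), (4, 6, 11), (4, 6, 15), (4, 14, 15), (5, 12, 13), (5, 12, 14), (6, 7, 11), (6, 7, 15)]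
    fin := [0, 0, 0, 3, 4, 5, 0, 0, 8, 9, 3, 3, 5, 4, 14, 4]
    chd := [(0, 5), (0, 9)]
    steps := [(0, 1), (0, 2), (0, 7), (0, 6), (3, 10), (3, 11), (4, 13), (4, 15), (5, 12)] }
  rep := [3, 4, 0, 9, 5, 14, 8]

noncomputable def v2446 : Cov.CovD where
  P := 3
  N := 4
  pl := [1, 7]
  lev := [⟨[], [], [(2, 3)], [6], [(0, 2, [3, 4]), (2, 3, [2])]⟩,
    ⟨[], [(0, 0), (0, 2), (0, 3)], [(0, 0), (0, 2), (0, 3), (2, 3)], [], [(0, 2, [3, 4]),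
      (2, 3, [2]), (3, 0, []), (4, 0, [])]⟩,
    ⟨[(0, 1)], [(0, 3), (1, 0), (1, 2), (1, 3), (1, 4)], [(0, 3), (0, 4), (3, 4)], [], [(2,
      3, [2]), (3, 0, []), (5, 4, [2])]⟩,
    ⟨[(0, 1), (1, 2)], [(1, 0), (1, 1), (1, 2), (1, 3), (2, 0)], [(0, 0), (0, 1)], [], [(3,
      0, []), (4, 0, []), (6, 1, [])]⟩,
    ⟨[(1, 3)], [(1, 0), (3, 0), (3, 1)], [(0, 1), (1, 1)], [5], [(4, 0, []), (6, 1, []),
      (8, 1, [])]⟩,
    ⟨[(3, 4)], [(2, 4), (3, 1), (4, 0), (4, 1), (4, 4)], [(1, 4)], [5], [(5, 4, [2]), (6,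
      1, [])]⟩,
    ⟨[(3, 4), (4, 5)], [(0, 2), (1, 0), (1, 2), (3, 0), (4, 0), (4, 1), (4, 2)], [(0, 1),
      (0, 2), (1, 2)], [], [(0, 2, [3, 4]), (4, 0, []), (8, 1, [])]⟩]
  Ta := [((3, 5), 0, 4), ((3, 6), 0, 1), ((4, 0), 0, 2), ((6, 3), 1, 0), ((6, 5), 1, 4), ((8, 0),
    1, 2), ((8, 7), 1, 5)]
  Tb := [((0, 1, 4), 2, 6, 0), ((0, 1, 8), 2, 6, 1), ((0, 4, 8), 2, 0, 1), ((1, 0, 2), 6, 2, 3),
    ((2, 1, 5), 3, 6, 4), ((3, 5, 6), 0, 4, 1), ((5, 2, 3), 4, 3, 0), ((5, 2, 6), 4, 3, 1),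
    ((5, 2, 7), 4, 3, 5), ((5, 3, 6), 4, 0, 1), ((5, 3, 7), 4, 0, 5), ((5, 6, 7), 4, 1, 5),
    ((6, 3, 5), 1, 0, 4), ((7, 5, 8), 5, 4, 1), ((8, 0, 7), 1, 2, 5)]
  Tc := [(2, 3, 4)]
  Td := [((2, 3), (0, 1), 6), ((2, 3), (0, 4), 0), ((2, 3), (0, 8), 1), ((2, 4), (0, 1), 6), ((2,
    4), (0, 4), 0), ((2, 4), (0, 8), 1), ((3, 2), (2, 1), 6), ((3, 2), (2, 5), 4), ((4, 2),
    (5, 2), 3), ((4, 2), (5, 3), 0), ((4, 2), (5, 6), 1), ((4, 2), (5, 7), 5)]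
  G := [[0, 0x4224884c6284224884ca244842a8446248c846a42cd, 0, 0,
    0x128d1184d44821542198c4281542898c412542198c4ab], [0, 0, 0,
    0x828254284242582482425424242942cd, 0x11982c44812815c84281c825841284982ab], [0, 0,
    0x488d81c418445429c814488d21c412e, 0, 0x288d21c44888542898c42888d4218c4282d81c44ab], [0,
    0, 0x8281c4184241c8144281c812e, 0x8281c4284182c8244182c424282c81cd,
    0x8182c4488281c442824818a188682c42ab]]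

noncomputable def n2446 : Ent := ⟨e2446, noF, [], [], [(8, 15, [360035742630636841211993100915356868655746945586763691017682945, 0])]⟩

def c2446 : PLift (Cov.check n2446.C.D v2446 = true) := ⟨by decide +kernel⟩

def b2446 : PLift (entF (fidx ts) 400 2446 n2446 = true) := ⟨by decide +kernel⟩

theorem g2446 : GoodF (fidx ts) 400 2446 := GoodF.ofV v2446 n2446 c2446.down b2446.down

/-- 4745744:1949/1 -/
noncomputable def e2447 : SCfg where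
  D := {
    a := 7
    L := 10
    kp := 7
    inn := [(0, 1), (1, 0), (1, 2), (1, 3), (2, 1), (3, 1), (3, 4), (4, 3), (4, 5), (4, 6), (5, 4), (6,
      4)]
    mix := [(0, 0), (0, 1), (0, 2), (1, 0), (1, 2), (1, 3), (1, 4), (2, 2), (2, 3), (2, 5), (3, 3), (3,
      4), (3, 6), (4, 4), (4, 6), (4, 7), (4, 8), (5, 6), (5, 7), (5, 9), (6, 0), (6, 4), (6, 8)]
    cl := [2, 5, 3, 0, 0, 6, 1, 4, 1, 7]
    chq := [(0, 3), (0, 5), (3, 0), (5, 0)]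
    rng := [(0, 1), (0, 4), (0, 8), (1, 0), (1, 2), (2, 1), (2, 5), (3, 5), (3, 6), (4, 0), (5, 2), (5,
      3), (6, 3), (6, 9), (7, 8), (7, 9), (8, 0), (8, 7), (9, 6), (9, 7)]
    lev := [] }
  links := [[1, 7, 8, 9], [7, 0, 9, 2, 10, 3, 11], [10, 1, 9, 12], [11, 1, 10, 13, 4], [11, 3, 13, 5, 14,
    15, 6], [14, 4, 13, 16], [11, 4, 15, 7]]
  P := {
    a := 7
    N := 17
    nb := [898, 3725, 5634, 11282, 59496, 90128, 34960, 35139, 641, 4359, 12302, 218, 1540, 66616,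
      98352, 16592, 24608]
    tri := [(0, 1, 7), (0, 1, 9), (0, 7, 8), (0, 8, 9), (1, 2, 9), (1, 2, 10), (1, 3, 10), (1, 3, 11),
      (1, 7, 11), (2, 9, 12), (2, 10, 12), (3, 4, 11), (3, 4, 13), (3, 10, 13), (4, 5, 13), (4, 5,
      14), (4, 6, 11), (4, 6, 15), (4, 14, 15), (5, 13, 16), (5, 14, 16), (6, 7, 11), (6, 7, 15)]
    fin := [0, 0, 2, 3, 4, 4, 6, 6, 0, 2, 3, 3, 12, 4, 14, 4, 16]
    chd := [(0, 3), (2, 3)]
    steps := [(0, 1), (0, 8), (2, 9), (3, 10), (3, 11), (4, 5), (4, 13), (4, 15), (6, 7)] }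
  rep := [3, 4, 6, 2, 14, 0, 12, 16]

noncomputable def v2447 : Cov.CovD where
  P := 3
  N := 5
  pl := [0, 5, 7, 9]
  lev := [⟨[], [], [(3, 5)], [2], [(1, 5, [0]), (2, 3, [0])]⟩,
    ⟨[], [(0, 0), (0, 3), (0, 5)], [(0, 0), (0, 3)], [2], [(2, 3, [0]), (3, 0, [3, 5]), (4,
      0, [3, 5])]⟩,
    ⟨[(0, 1)], [(0, 3), (1, 0), (1, 3)], [(0, 3)], [6], [(2, 3, [0]), (3, 0, [3, 5])]⟩,
    ⟨[(0, 1), (1, 2)], [(1, 0), (1, 1), (1, 3), (2, 0)], [(0, 0), (0, 1)], [], [(3, 0, [3,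
      5]), (4, 0, [3, 5]), (6, 1, [])]⟩,
    ⟨[(1, 3)], [(1, 0), (3, 0), (3, 1)], [(0, 1), (1, 1)], [4], [(4, 0, [3, 5]), (6, 1,
      []), (8, 1, [])]⟩,
    ⟨[(3, 4)], [(3, 1), (4, 0), (4, 1)], [], [4, 7], [(6, 1, [])]⟩,
    ⟨[(3, 4), (4, 5)], [(1, 0), (3, 0), (4, 0), (4, 1)], [(0, 1)], [2], [(4, 0, [3, 5]),
      (8, 1, [])]⟩]
  Ta := [((3, 5), 0, 6), ((3, 6), 0, 1), ((4, 0), 0, 2), ((6, 3), 1, 0), ((6, 9), 1, 7), ((8, 0),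
    1, 2), ((8, 7), 1, 4)]
  Tb := [((0, 1, 4), 2, 5, 0), ((0, 1, 8), 2, 5, 1), ((0, 4, 8), 2, 0, 1), ((1, 0, 2), 5, 2, 3),
    ((2, 1, 5), 3, 5, 6), ((3, 5, 6), 0, 6, 1), ((5, 2, 3), 6, 3, 0), ((6, 3, 9), 1, 0, 7),
    ((7, 8, 9), 4, 1, 7), ((8, 0, 7), 1, 2, 4), ((9, 6, 7), 7, 1, 4)]
  Tc := [(0, 3, 5)]
  Td := [((0, 3), (3, 5), 6), ((0, 3), (3, 6), 1), ((0, 3), (4, 0), 2), ((0, 5), (3, 5), 6), ((0,
    5), (3, 6), 1), ((0, 5), (4, 0), 2), ((3, 0), (2, 1), 5), ((3, 0), (2, 5), 6), ((5, 0),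
    (1, 0), 2), ((5, 0), (1, 2), 3)]
  G := [[0, 0x44a846c284826488ca44a886c284826488a6c1, 0, 0,
    0x128d8124d412541198cc11542198c28541198c6a1], [0, 0, 0, 0x128294128258a4282981242946c1,
    0x11c829418c8294c11982c412885c86a1], [0, 0,
    0x42981c412448124481e4884121885c8128841e88542898c12e, 0,
    0x28542298c122541298c22542298c28847a1], [0, 0, 0x444e82c418449845c21442845c812e,
    0x4282c414282c84242c86c1, 0x828885468854828cc888782c41a1]]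

noncomputable def n2447 : Ent := ⟨e2447, noF, [], [], [(8, 16, [1580044410770988437309982408355971841652082177953823432505699119105, 0]), (8, 15, [1685356702439545624007900436039642273970977273354372543760010104833, 0]), (12, 16, [1580044410770988437309982408355971841652082177953823432505699131393, 0])]⟩

def c2447 : PLift (Cov.check n2447.C.D v2447 = true) := ⟨by decide +kernel⟩

def b2447 : PLift (entF (fidx ts) 400 2447 n2447 = true) := ⟨by decide +kernel⟩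

theorem g2447 : GoodF (fidx ts) 400 2447 := GoodF.ofV v2447 n2447 c2447.down b2447.down

/-- 4745744:1949/6 -/
noncomputable def e2448 : SCfg where
  D := {
    a := 7
    L := 10
    kp := 7
    inn := [(0, 1), (1, 0), (1, 2), (1, 3), (2, 1), (3, 1), (3, 4), (4, 3), (4, 5), (4, 6), (5, 4), (6,
      4)]
    mix := [(0, 0), (0, 1), (0, 2), (1, 0), (1, 2), (1, 3), (1, 4), (2, 2), (2, 3), (2, 5), (3, 3), (3,
      4), (3, 6), (4, 4), (4, 6), (4, 7), (4, 8), (5, 1), (5, 6), (5, 7), (6, 4), (6, 8), (6, 9)]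
    cl := [2, 4, 3, 0, 0, 6, 1, 5, 1, 7]
    chq := [(0, 3), (0, 4), (3, 0), (4, 0)]
    rng := [(0, 1), (0, 4), (1, 0), (1, 2), (1, 6), (1, 7), (2, 1), (2, 5), (3, 5), (3, 6), (4, 0), (4,
      9), (5, 2), (5, 3), (6, 1), (6, 3), (7, 1), (7, 8), (8, 7), (8, 9), (9, 4), (9, 8)]
    lev := [] }
  links := [[1, 7, 8, 9], [7, 0, 9, 2, 10, 3, 11], [10, 1, 9, 12], [11, 1, 10, 13, 4], [11, 3, 13, 5, 14,
    15, 6], [14, 4, 13, 8], [11, 4, 15, 16]]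
  P := {
    a := 7
    N := 17
    nb := [898, 3725, 5634, 11282, 59496, 24848, 100368, 2307, 25249, 4359, 12302, 65754, 1540, 1336,
      33072, 82000, 34880]
    tri := [(0, 1, 7), (0, 1, 9), (0, 7, 8), (0, 8, 9), (1, 2, 9), (1, 2, 10), (1, 3, 10), (1, 3, 11),
      (1, 7, 11), (2, 9, 12), (2, 10, 12), (3, 4, 11), (3, 4, 13), (3, 10, 13), (4, 5, 13), (4, 5,
      14), (4, 6, 11), (4, 6, 15), (4, 14, 15), (5, 8, 13), (5, 8, 14), (6, 11, 16), (6, 15, 16)]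
    fin := [0, 0, 2, 3, 4, 0, 3, 7, 0, 2, 3, 3, 12, 4, 14, 4, 16]
    chd := [(0, 3), (2, 3)]
    steps := [(0, 1), (0, 8), (0, 5), (2, 9), (3, 10), (3, 11), (3, 6), (4, 13), (4, 15)] }
  rep := [3, 4, 7, 2, 0, 14, 12, 16]

noncomputable def v2448 : Cov.CovD where
  P := 3
  N := 5
  pl := [0, 5, 7, 9]
  lev := [⟨[], [], [(3, 4)], [2], [(1, 4, [0]), (2, 3, [0])]⟩,
    ⟨[], [(0, 0), (0, 3), (0, 4)], [(0, 0), (0, 3)], [2], [(2, 3, [0]), (3, 0, [3, 4]), (4,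
      0, [3, 4])]⟩,
    ⟨[(0, 1)], [(0, 3), (1, 0), (1, 3)], [(0, 3)], [6], [(2, 3, [0]), (3, 0, [3, 4])]⟩,
    ⟨[(0, 1), (1, 2)], [(1, 0), (1, 1), (1, 3), (2, 0)], [(0, 0), (0, 1)], [], [(3, 0, [3,
      4]), (4, 0, [3, 4]), (6, 1, [])]⟩,
    ⟨[(1, 3)], [(1, 0), (3, 0), (3, 1)], [(0, 1), (1, 1)], [5], [(4, 0, [3, 4]), (6, 1,
      []), (8, 1, [])]⟩,
    ⟨[(3, 4)], [(0, 4), (3, 1), (4, 0), (4, 1), (4, 4)], [(1, 4)], [5], [(1, 4, [0]), (6,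
      1, [])]⟩,
    ⟨[(3, 4), (4, 5)], [(1, 0), (3, 0), (4, 0), (4, 1)], [(0, 1)], [7], [(4, 0, [3, 4]),
      (8, 1, [])]⟩]
  Ta := [((3, 5), 0, 6), ((3, 6), 0, 1), ((4, 0), 0, 2), ((4, 9), 0, 7), ((6, 1), 1, 4), ((6, 3),
    1, 0), ((8, 7), 1, 5), ((8, 9), 1, 7)]
  Tb := [((0, 1, 4), 2, 4, 0), ((1, 0, 2), 4, 2, 3), ((1, 0, 6), 4, 2, 1), ((1, 0, 7), 4, 2, 5),
    ((1, 2, 6), 4, 3, 1), ((1, 2, 7), 4, 3, 5), ((1, 6, 7), 4, 1, 5), ((2, 1, 5), 3, 4, 6),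
    ((3, 5, 6), 0, 6, 1), ((4, 0, 9), 0, 2, 7), ((5, 2, 3), 6, 3, 0), ((6, 1, 3), 1, 4, 0),
    ((7, 1, 8), 5, 4, 1), ((8, 7, 9), 1, 5, 7), ((9, 4, 8), 7, 0, 1)]
  Tc := [(0, 3, 4)]
  Td := [((0, 3), (3, 5), 6), ((0, 3), (3, 6), 1), ((0, 3), (4, 0), 2), ((0, 3), (4, 9), 7), ((0,
    4), (3, 5), 6), ((0, 4), (3, 6), 1), ((0, 4), (4, 0), 2), ((0, 4), (4, 9), 7), ((3, 0),
    (2, 1), 4), ((3, 0), (2, 5), 6), ((4, 0), (1, 0), 2), ((4, 0), (1, 2), 3), ((4, 0), (1,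
    6), 1), ((4, 0), (1, 7), 5)]
  G := [[0, 0x6acac6a468c2aa446ac2268a4ca6aaaa6c26c1, 0,
    0x111d2124d421541298ca21122d28d812541198c6c1,
    0x222d1124d411542298cc12542198c21225c188c6a1], [0, 0, 0,
    0x11912c411912c4a12115c81241198c6c1, 0x11912c411912c4c1112c81112c418847a1], [0, 0,
    0x2821c4182124c814222d21c412e, 0x22542298c121222d28d821222d28d86c1,
    0x22542298c122542298c22542298c6a1], [0, 0, 0x48a8c1461842845c818a14414c281cc12e,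
    0xcc341ca8c1c111cdc2111c3c81c6847c1, 0x1c912c4194791c4c248d4241c982cc1a1]]

noncomputable def n2448 : Ent := ⟨e2448, noF, [], [], [(7, 16, [1580044410770988437309982408355971841652082177953823432505699119105, 0])]⟩

def c2448 : PLift (Cov.check n2448.C.D v2448 = true) := ⟨by decide +kernel⟩

def b2448 : PLift (entF (fidx ts) 400 2448 n2448 = true) := ⟨by decide +kernel⟩

theorem g2448 : GoodF (fidx ts) 400 2448 := GoodF.ofV v2448 n2448 c2448.down b2448.down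

/-- 4745744:1949/8 -/
noncomputable def e2449 : SCfg where
  D := {
    a := 7
    L := 9
    kp := 6
    inn := [(0, 1), (1, 0), (1, 2), (1, 3), (2, 1), (3, 1), (3, 4), (4, 3), (4, 5), (4, 6), (5, 4), (6,
      4)]
    mix := [(0, 0), (0, 1), (0, 2), (1, 0), (1, 2), (1, 3), (1, 4), (2, 2), (2, 3), (2, 5), (3, 3), (3,
      4), (3, 6), (4, 1), (4, 4), (4, 6), (4, 7), (5, 5), (5, 6), (5, 7), (6, 1), (6, 4), (6, 8)]
    cl := [1, 2, 3, 1, 0, 5, 4, 0, 6]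
    chq := [(0, 4), (1, 3), (3, 1), (4, 0)]
    rng := [(0, 1), (0, 4), (1, 0), (1, 2), (1, 7), (1, 8), (2, 1), (2, 5), (3, 5), (3, 6), (4, 0), (4,
      8), (5, 2), (5, 3), (5, 6), (5, 7), (6, 3), (6, 5), (7, 1), (7, 5), (8, 1), (8, 4)]
    lev := [] }
  links := [[1, 7, 8, 9], [7, 0, 9, 2, 10, 3, 11], [10, 1, 9, 12], [11, 1, 10, 13, 4], [11, 3, 13, 5, 14,
    8, 6], [14, 4, 13, 12], [11, 4, 8, 15]]
  P := {
    a := 7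
    N := 16
    nb := [898, 3725, 5634, 11282, 26984, 28688, 35088, 2307, 49873, 4359, 12302, 32986, 26148, 5176,
      4400, 2368]
    tri := [(0, 1, 7), (0, 1, 9), (0, 7, 8), (0, 8, 9), (1, 2, 9), (1, 2, 10), (1, 3, 10), (1, 3, 11),
      (1, 7, 11), (2, 9, 12), (2, 10, 12), (3, 4, 11), (3, 4, 13), (3, 10, 13), (4, 5, 13), (4, 5,
      14), (4, 6, 8), (4, 6, 11), (4, 8, 14), (5, 12, 13), (5, 12, 14), (6, 8, 15), (6, 11, 15)]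
    fin := [0, 0, 0, 0, 4, 5, 6, 0, 6, 9, 0, 4, 5, 13, 4, 15]
    chd := [(0, 9), (4, 13)]
    steps := [(0, 1), (0, 2), (0, 3), (0, 7), (0, 10), (4, 14), (4, 11), (5, 12), (6, 8)] }
  rep := [4, 0, 6, 9, 13, 5, 15]

noncomputable def v2449 : Cov.CovD where
  P := 3
  N := 4
  pl := [1, 5, 8]
  lev := [⟨[], [], [(1, 3)], [2], [(0, 1, [3]), (2, 3, [1])]⟩,
    ⟨[], [(0, 0), (0, 1), (0, 3)], [(0, 1), (0, 3), (1, 1), (1, 3)], [], [(0, 1, [3]), (2,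
      3, [1]), (3, 1, [3]), (4, 0, [4])]⟩,
    ⟨[(0, 1)], [(0, 3), (1, 0), (1, 1), (1, 3)], [(1, 3)], [5], [(2, 3, [1]), (3, 1, [3])]⟩,
    ⟨[(0, 1), (1, 2)], [(1, 0), (1, 1), (1, 3), (1, 4), (2, 1)], [(0, 1), (0, 4), (1, 4)],
      [], [(3, 1, [3]), (4, 0, [4]), (6, 4, [0])]⟩,
    ⟨[(1, 3)], [(1, 0), (3, 0), (3, 1), (3, 4)], [(0, 0), (0, 4)], [2], [(4, 0, [4]), (6,
      4, [0]), (7, 0, [4])]⟩,
    ⟨[(3, 4)], [(3, 4), (4, 0), (4, 4)], [(0, 4)], [5], [(6, 4, [0]), (7, 0, [4])]⟩,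
    ⟨[(3, 4), (4, 5)], [(1, 0), (3, 0), (4, 0), (4, 4)], [], [2, 6], [(4, 0, [4])]⟩]
  Ta := [((0, 1), 1, 2), ((0, 4), 1, 0), ((3, 5), 1, 5), ((3, 6), 1, 4), ((4, 0), 0, 1), ((4, 8),
    0, 6), ((7, 1), 0, 2), ((7, 5), 0, 5)]
  Tb := [((0, 1, 4), 1, 2, 0), ((1, 0, 2), 2, 1, 3), ((1, 0, 7), 2, 1, 0), ((1, 0, 8), 2, 1, 6),
    ((1, 2, 7), 2, 3, 0), ((1, 2, 8), 2, 3, 6), ((1, 7, 8), 2, 0, 6), ((2, 1, 5), 3, 2, 5),
    ((3, 5, 6), 1, 5, 4), ((4, 0, 8), 0, 1, 6), ((5, 2, 3), 5, 3, 1), ((5, 2, 6), 5, 3, 4),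
    ((5, 2, 7), 5, 3, 0), ((5, 3, 6), 5, 1, 4), ((5, 3, 7), 5, 1, 0), ((5, 6, 7), 5, 4, 0),
    ((6, 3, 5), 4, 1, 5), ((7, 1, 5), 0, 2, 5), ((8, 1, 4), 6, 2, 0)]
  Tc := []
  Td := [((0, 4), (4, 0), 1), ((0, 4), (4, 8), 6), ((0, 4), (7, 1), 2), ((0, 4), (7, 5), 5), ((1,
    3), (0, 1), 2), ((1, 3), (0, 4), 0), ((1, 3), (3, 5), 5), ((1, 3), (3, 6), 4), ((3, 1),
    (2, 1), 2), ((3, 1), (2, 5), 5), ((4, 0), (6, 3), 1), ((4, 0), (6, 5), 5)]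
  G := [[0, 0x4188148141ce12c14c1c1ca14c, 0, 0x8241c28244c142c2788142c2428882c2c2b4c,
    0x82324a2823923282c8232a286149], [0, 0, 0, 0,
    0xa4a4a4a4a1a45a82a1823aca128cca1281123a89a81a1ac1c9], [0, 0, 0xc22128c22114c,
    0x124c28528128c24924c, 0x122a28528228e21122122c549], [0, 0, 0x68a4c2e11868a4c2e114c, 0,
    0x18116a2888a512241221412acd116884c2a8e2111a21812ac543]]

noncomputable def n2449 : Ent := ⟨e2449, noF, [], [], [(7, 15, [360035742630636841211993100915356868655746945586763691017682945, 0])]⟩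

def c2449 : PLift (Cov.check n2449.C.D v2449 = true) := ⟨by decide +kernel⟩

def b2449 : PLift (entF (fidx ts) 400 2449 n2449 = true) := ⟨by decide +kernel⟩

theorem g2449 : GoodF (fidx ts) 400 2449 := GoodF.ofV v2449 n2449 c2449.down b2449.down

/-- 4745744:1949/7 -/
noncomputable def e2450 : SCfg where
  D := {
    a := 7
    L := 10
    kp := 7
    inn := [(0, 1), (1, 0), (1, 2), (1, 3), (2, 1), (3, 1), (3, 4), (4, 3), (4, 5), (4, 6), (5, 4), (6,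
      4)]
    mix := [(0, 0), (0, 1), (0, 2), (1, 0), (1, 2), (1, 3), (1, 4), (2, 2), (2, 3), (2, 5), (3, 3), (3,
      4), (3, 6), (4, 1), (4, 4), (4, 6), (4, 7), (5, 6), (5, 7), (5, 8), (6, 1), (6, 4), (6, 9)]
    cl := [2, 0, 3, 1, 1, 5, 0, 4, 6, 7]
    chq := [(2, 3), (2, 5), (3, 2), (5, 2)]
    rng := [(0, 1), (0, 4), (1, 0), (1, 2), (1, 7), (1, 9), (2, 1), (2, 5), (3, 5), (3, 6), (4, 0), (4,
      9), (5, 2), (5, 3), (6, 3), (6, 8), (7, 1), (7, 8), (8, 6), (8, 7), (9, 1), (9, 4)]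
    lev := [] }
  links := [[1, 7, 8, 9], [7, 0, 9, 2, 10, 3, 11], [10, 1, 9, 12], [11, 1, 10, 13, 4], [11, 3, 13, 5, 14,
    8, 6], [14, 4, 13, 15], [11, 4, 8, 16]]
  P := {
    a := 7
    N := 17
    nb := [898, 3725, 5634, 11282, 26984, 57360, 67856, 2307, 82641, 4359, 12302, 65754, 1540, 33848,
      33072, 24608, 2368]
    tri := [(0, 1, 7), (0, 1, 9), (0, 7, 8), (0, 8, 9), (1, 2, 9), (1, 2, 10), (1, 3, 10), (1, 3, 11),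
      (1, 7, 11), (2, 9, 12), (2, 10, 12), (3, 4, 11), (3, 4, 13), (3, 10, 13), (4, 5, 13), (4, 5,
      14), (4, 6, 8), (4, 6, 11), (4, 8, 14), (5, 13, 15), (5, 14, 15), (6, 8, 16), (6, 11, 16)]
    fin := [0, 0, 0, 3, 4, 4, 4, 0, 4, 9, 3, 3, 12, 4, 14, 15, 16]
    chd := [(0, 9), (0, 12)]
    steps := [(0, 1), (0, 2), (0, 7), (3, 10), (3, 11), (4, 5), (4, 6), (4, 8), (4, 13)] }
  rep := [4, 3, 0, 9, 14, 12, 15, 16]

noncomputable def v2450 : Cov.CovD where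
  P := 3
  N := 5
  pl := [7, 8, 9]
  lev := [⟨[], [], [(0, 2), (0, 3), (2, 3)], [], [(0, 2, [3, 5]), (1, 0, []), (2, 3, [2])]⟩,
    ⟨[], [(0, 0), (0, 1), (0, 2), (0, 3)], [(1, 1), (1, 2), (1, 3), (2, 3)], [], [(0, 2,
      [3, 5]), (2, 3, [2]), (3, 1, []), (4, 1, [])]⟩,
    ⟨[(0, 1)], [(0, 3), (1, 1), (1, 2), (1, 3), (1, 5)], [(1, 3), (1, 5), (3, 5)], [], [(2,
      3, [2]), (3, 1, []), (5, 5, [2])]⟩,
    ⟨[(0, 1), (1, 2)], [(1, 0), (1, 1), (1, 2), (1, 3), (2, 1)], [(0, 1), (1, 1)], [], [(3,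
      1, []), (4, 1, []), (6, 0, [])]⟩,
    ⟨[(1, 3)], [(0, 0), (1, 1), (3, 0), (3, 1)], [(0, 0), (0, 1)], [4], [(1, 0, []), (4, 1,
      []), (6, 0, [])]⟩,
    ⟨[(3, 4)], [(3, 0), (4, 0), (4, 1)], [], [4, 6], [(6, 0, [])]⟩,
    ⟨[(3, 4), (4, 5)], [(0, 0), (1, 1), (3, 1), (4, 0), (4, 1)], [(0, 1)], [7], [(1, 0,
      []), (4, 1, [])]⟩]
  Ta := [((1, 0), 0, 2), ((1, 2), 0, 3), ((1, 7), 0, 4), ((1, 9), 0, 7), ((3, 5), 1, 5), ((3, 6),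
    1, 0), ((4, 0), 1, 2), ((4, 9), 1, 7), ((6, 3), 0, 1), ((6, 8), 0, 6)]
  Tb := [((0, 1, 4), 2, 0, 1), ((1, 0, 2), 0, 2, 3), ((1, 0, 7), 0, 2, 4), ((1, 0, 9), 0, 2, 7),
    ((1, 2, 7), 0, 3, 4), ((1, 2, 9), 0, 3, 7), ((1, 7, 9), 0, 4, 7), ((2, 1, 5), 3, 0, 5),
    ((3, 5, 6), 1, 5, 0), ((4, 0, 9), 1, 2, 7), ((5, 2, 3), 5, 3, 1), ((6, 3, 8), 0, 1, 6),
    ((7, 1, 8), 4, 0, 6), ((8, 6, 7), 6, 0, 4), ((9, 1, 4), 7, 0, 1)]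
  Tc := [(2, 3, 5)]
  Td := [((2, 3), (0, 1), 0), ((2, 3), (0, 4), 1), ((2, 5), (0, 1), 0), ((2, 5), (0, 4), 1), ((3,
    2), (2, 1), 0), ((3, 2), (2, 5), 5), ((5, 2), (5, 2), 3), ((5, 2), (5, 3), 1)]
  G := [[0, 0, 0x2121c4182121c814c, 0, 0x22a21c44821226c841a], [0, 0,
    0xc1841841c1c814c148181841ce, 0x4ccd82c42c148298c94824848f8425c,
    0xcc582c444c34849c14844144c8b889cc29a], [0, 0x6caa66c22c2268a4ca2c1, 0, 0,
    0x226422a8c41226422a8c483], [0, 0, 0, 0x14411a12cc21116411a8c21c,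
    0x116411a8c4112116c188c21a]]

noncomputable def n2450 : Ent := ⟨e2450, noF, [], [], [(7, 16, [1580044410770988437309982408355971841652082177953823432505699127297, 0]), (12, 15, [1685356702439545624007900436039642273970977273354372543760010121217, 0])]⟩

def c2450 : PLift (Cov.check n2450.C.D v2450 = true) := ⟨by decide +kernel⟩

def b2450 : PLift (entF (fidx ts) 400 2450 n2450 = true) := ⟨by decide +kernel⟩

theorem g2450 : GoodF (fidx ts) 400 2450 := GoodF.ofV v2450 n2450 c2450.down b2450.down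

/-- 4745744:1949/9 -/
noncomputable def e2451 : SCfg where
  D := {
    a := 7
    L := 10
    kp := 7
    inn := [(0, 1), (1, 0), (1, 2), (1, 3), (2, 1), (3, 1), (3, 4), (4, 3), (4, 5), (4, 6), (5, 4), (6,
      4)]
    mix := [(0, 0), (0, 1), (0, 2), (1, 0), (1, 2), (1, 3), (1, 4), (2, 2), (2, 3), (2, 5), (3, 3), (3,
      4), (3, 6), (4, 4), (4, 6), (4, 7), (4, 8), (5, 5), (5, 6), (5, 7), (6, 4), (6, 8), (6, 9)]
    cl := [1, 6, 4, 0, 0, 2, 3, 5, 3, 7]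
    chq := [(1, 2), (1, 4), (2, 1), (4, 1)]
    rng := [(0, 1), (0, 4), (1, 0), (1, 2), (2, 1), (2, 5), (3, 5), (3, 6), (4, 0), (4, 9), (5, 2), (5,
      3), (5, 6), (5, 7), (6, 3), (6, 5), (7, 5), (7, 8), (8, 7), (8, 9), (9, 4), (9, 8)]
    lev := [] }
  links := [[1, 7, 8, 9], [7, 0, 9, 2, 10, 3, 11], [10, 1, 9, 12], [11, 1, 10, 13, 4], [11, 3, 13, 5, 14,
    15, 6], [14, 4, 13, 12], [11, 4, 15, 16]]
  P := {
    a := 7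
    N := 17
    nb := [898, 3725, 5634, 11282, 59496, 28688, 100368, 2307, 641, 4359, 12302, 65754, 26148, 5176,
      36912, 82000, 34880]
    tri := [(0, 1, 7), (0, 1, 9), (0, 7, 8), (0, 8, 9), (1, 2, 9), (1, 2, 10), (1, 3, 10), (1, 3, 11),
      (1, 7, 11), (2, 9, 12), (2, 10, 12), (3, 4, 11), (3, 4, 13), (3, 10, 13), (4, 5, 13), (4, 5,
      14), (4, 6, 11), (4, 6, 15), (4, 14, 15), (5, 12, 13), (5, 12, 14), (6, 11, 16), (6, 15,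
      16)]
    fin := [0, 0, 0, 3, 4, 5, 3, 0, 8, 9, 3, 3, 5, 4, 14, 4, 16]
    chd := [(0, 5), (0, 9)]
    steps := [(0, 1), (0, 2), (0, 7), (3, 10), (3, 11), (3, 6), (4, 13), (4, 15), (5, 12)] }
  rep := [3, 0, 5, 4, 9, 14, 8, 16]

noncomputable def v2451 : Cov.CovD where
  P := 3
  N := 5
  pl := [1, 7, 9]
  lev := [⟨[], [], [(1, 4)], [6], [(0, 1, [2, 4]), (2, 4, [1])]⟩,
    ⟨[], [(0, 0), (0, 1), (0, 4)], [(0, 0), (0, 1), (0, 4), (1, 4)], [], [(0, 1, [2, 4]),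
      (2, 4, [1]), (3, 0, []), (4, 0, [])]⟩,
    ⟨[(0, 1)], [(0, 4), (1, 0), (1, 1), (1, 2), (1, 4)], [(0, 2), (0, 4), (2, 4)], [], [(2,
      4, [1]), (3, 0, []), (5, 2, [1])]⟩,
    ⟨[(0, 1), (1, 2)], [(1, 0), (1, 1), (1, 3), (1, 4), (2, 0)], [(0, 0), (0, 3)], [], [(3,
      0, []), (4, 0, []), (6, 3, [])]⟩,
    ⟨[(1, 3)], [(1, 0), (3, 0), (3, 3)], [(0, 3), (3, 3)], [5], [(4, 0, []), (6, 3, []),
      (8, 3, [])]⟩,
    ⟨[(3, 4)], [(2, 2), (3, 3), (4, 0), (4, 2), (4, 3)], [(2, 3)], [5], [(5, 2, [1]), (6,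
      3, [])]⟩,
    ⟨[(3, 4), (4, 5)], [(1, 0), (3, 0), (4, 0), (4, 3)], [(0, 3)], [7], [(4, 0, []), (8, 3,
      [])]⟩]
  Ta := [((3, 5), 0, 2), ((3, 6), 0, 3), ((4, 0), 0, 1), ((4, 9), 0, 7), ((6, 3), 3, 0), ((6, 5),
    3, 2), ((8, 7), 3, 5), ((8, 9), 3, 7)]
  Tb := [((0, 1, 4), 1, 6, 0), ((1, 0, 2), 6, 1, 4), ((2, 1, 5), 4, 6, 2), ((3, 5, 6), 0, 2, 3),
    ((4, 0, 9), 0, 1, 7), ((5, 2, 3), 2, 4, 0), ((5, 2, 6), 2, 4, 3), ((5, 2, 7), 2, 4, 5),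
    ((5, 3, 6), 2, 0, 3), ((5, 3, 7), 2, 0, 5), ((5, 6, 7), 2, 3, 5), ((6, 3, 5), 3, 0, 2),
    ((7, 5, 8), 5, 2, 3), ((8, 7, 9), 3, 5, 7), ((9, 4, 8), 7, 0, 3)]
  Tc := [(1, 2, 4)]
  Td := [((1, 2), (0, 1), 6), ((1, 2), (0, 4), 0), ((1, 4), (0, 1), 6), ((1, 4), (0, 4), 0), ((2,
    1), (5, 2), 4), ((2, 1), (5, 3), 0), ((2, 1), (5, 6), 3), ((2, 1), (5, 7), 5), ((4, 1),
    (2, 1), 6), ((4, 1), (2, 5), 2)]
  G := [[0, 0, 0x26c146a1628c2c18661a2422c148ce16826c14ca162cd, 0xcc1d222cc1d222c2,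
    0x2811c2e4842962811619c2e813116a2468a13c42214262882a4881ce2cd], [0, 0,
    0x1221814c628ee61824eea1481221814ca2cd, 0x119248119222c2,
    0x12e854281811911e224119422e2118462cd], [0,
    0x2821c4884c1e6182124c4884c1ea146124449e818856c12e, 0, 0x48cd22848cd224c2,
    0x288a3c48c1a62821229c48883c1ea242a98264221428848883c1ee2cd], [0,
    0xa121ea9e41461821616e5e848a1461e656a18c12e, 0, 0xee9242ee5284c2,
    0xc2289423e41462841e6361e818a24ee9428e1448a68ac1cd]]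

noncomputable def n2451 : Ent := ⟨e2451, noF, [], [], [(7, 16, [1580044410770988437309982408355971841652082177953823432505699131393, 0]), (8, 15, [1685356702439545624007900436039642273970977273354372543760010121217, 0])]⟩

def c2451 : PLift (Cov.check n2451.C.D v2451 = true) := ⟨by decide +kernel⟩

def b2451 : PLift (entF (fidx ts) 400 2451 n2451 = true) := ⟨by decide +kernel⟩

theorem g2451 : GoodF (fidx ts) 400 2451 := GoodF.ofV v2451 n2451 c2451.down b2451.down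

/-- 4745744:1949 -/
noncomputable def e2452 : SCfg where
  D := {
    a := 7
    L := 11
    kp := 8
    inn := [(0, 1), (1, 0), (1, 2), (1, 3), (2, 1), (3, 1), (3, 4), (4, 3), (4, 5), (4, 6), (5, 4), (6,
      4)]
    mix := [(0, 0), (0, 1), (0, 2), (1, 0), (1, 2), (1, 3), (1, 4), (2, 2), (2, 3), (2, 5), (3, 3), (3,
      4), (3, 6), (4, 4), (4, 6), (4, 7), (4, 8), (5, 6), (5, 7), (5, 9), (6, 4), (6, 8), (6, 10)]
    cl := [2, 5, 3, 0, 0, 6, 1, 4, 1, 7, 8]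
    chq := [(0, 3), (0, 5), (3, 0), (5, 0)]
    rng := [(0, 1), (0, 4), (1, 0), (1, 2), (2, 1), (2, 5), (3, 5), (3, 6), (4, 0), (4, 10), (5, 2),
      (5, 3), (6, 3), (6, 9), (7, 8), (7, 9), (8, 7), (8, 10), (9, 6), (9, 7), (10, 4), (10, 8)]
    lev := [] }
  links := [[1, 7, 8, 9], [7, 0, 9, 2, 10, 3, 11], [10, 1, 9, 12], [11, 1, 10, 13, 4], [11, 3, 13, 5, 14,
    15, 6], [14, 4, 13, 16], [11, 4, 15, 17]]
  P := {
    a := 7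
    N := 18
    nb := [898, 3725, 5634, 11282, 59496, 90128, 165904, 2307, 641, 4359, 12302, 131290, 1540, 66616,
      98352, 147536, 24608, 34880]
    tri := [(0, 1, 7), (0, 1, 9), (0, 7, 8), (0, 8, 9), (1, 2, 9), (1, 2, 10), (1, 3, 10), (1, 3, 11),
      (1, 7, 11), (2, 9, 12), (2, 10, 12), (3, 4, 11), (3, 4, 13), (3, 10, 13), (4, 5, 13), (4, 5,
      14), (4, 6, 11), (4, 6, 15), (4, 14, 15), (5, 13, 16), (5, 14, 16), (6, 11, 17), (6, 15,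
      17)]
    fin := [0, 0, 2, 3, 4, 4, 3, 7, 0, 2, 3, 3, 12, 4, 14, 4, 16, 17]
    chd := [(0, 3), (2, 3)]
    steps := [(0, 1), (0, 8), (2, 9), (3, 10), (3, 11), (3, 6), (4, 5), (4, 13), (4, 15)] }
  rep := [3, 4, 7, 2, 14, 0, 12, 16, 17]

noncomputable def v2452 : Cov.CovD where
  P := 3
  N := 6
  pl := [0, 5, 7, 9, 10]
  lev := [⟨[], [], [(3, 5)], [2], [(1, 5, [0]), (2, 3, [0])]⟩,
    ⟨[], [(0, 0), (0, 3), (0, 5)], [(0, 0), (0, 3)], [2], [(2, 3, [0]), (3, 0, [3, 5]), (4,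
      0, [3, 5])]⟩,
    ⟨[(0, 1)], [(0, 3), (1, 0), (1, 3)], [(0, 3)], [6], [(2, 3, [0]), (3, 0, [3, 5])]⟩,
    ⟨[(0, 1), (1, 2)], [(1, 0), (1, 1), (1, 3), (2, 0)], [(0, 0), (0, 1)], [], [(3, 0, [3,
      5]), (4, 0, [3, 5]), (6, 1, [])]⟩,
    ⟨[(1, 3)], [(1, 0), (3, 0), (3, 1)], [(0, 1), (1, 1)], [4], [(4, 0, [3, 5]), (6, 1,
      []), (8, 1, [])]⟩,
    ⟨[(3, 4)], [(3, 1), (4, 0), (4, 1)], [], [4, 7], [(6, 1, [])]⟩,
    ⟨[(3, 4), (4, 5)], [(1, 0), (3, 0), (4, 0), (4, 1)], [(0, 1)], [8], [(4, 0, [3, 5]),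
      (8, 1, [])]⟩]
  Ta := [((3, 5), 0, 6), ((3, 6), 0, 1), ((4, 0), 0, 2), ((4, 10), 0, 8), ((6, 3), 1, 0), ((6,
    9), 1, 7), ((8, 7), 1, 4), ((8, 10), 1, 8)]
  Tb := [((0, 1, 4), 2, 5, 0), ((1, 0, 2), 5, 2, 3), ((2, 1, 5), 3, 5, 6), ((3, 5, 6), 0, 6, 1),
    ((4, 0, 10), 0, 2, 8), ((5, 2, 3), 6, 3, 0), ((6, 3, 9), 1, 0, 7), ((7, 8, 9), 4, 1, 7),
    ((8, 7, 10), 1, 4, 8), ((9, 6, 7), 7, 1, 4), ((10, 4, 8), 8, 0, 1)]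
  Tc := [(0, 3, 5)]
  Td := [((0, 3), (3, 5), 6), ((0, 3), (3, 6), 1), ((0, 3), (4, 0), 2), ((0, 3), (4, 10), 8),
    ((0, 5), (3, 5), 6), ((0, 5), (3, 6), 1), ((0, 5), (4, 0), 2), ((0, 5), (4, 10), 8), ((3,
    0), (2, 1), 5), ((3, 0), (2, 5), 6), ((5, 0), (1, 0), 2), ((5, 0), (1, 2), 3)]
  G := [[0, 0xc2268a4c66aaa66c2aa4c26688aa4c26688c6c1, 0,
    0x111d2124d421542298ca11222d28d822541298c6c1,
    0x221d2124d411542298cc14422921cc12541298c6a1], [0, 0, 0,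
    0x1241198611912c4a12115c812115c86c1, 0x11981154611912c4c12115c812111bc46a1], [0, 0,
    0x22921c412448124481e2884121225c8128841e22542298c12e,
    0x222d2124d422542298c2448b22542298c1c1, 0x22542298c122542298c21225c288c6a1], [0, 0,
    0x4cc8f841c2481c2481e8284142484cfc8182841e84c744ca8c12e,
    0xcccb4c28c18ca45c98a44684c7c828c82847c1, 0x484cf4c28c1cccb4c28c4c344ca88acc6a1]]

noncomputable def n2452 : Ent := ⟨e2452, noF, [], [], [(7, 17, [6903326391201334775872065844685381424292761054348340378595029939712001, 0]), (8, 16, [7334685537875745012586738086077695515070955365108989538292687703703553, 0]), (8, 15, [7334790850167413569773436004105379185503274260204390087403942014689281, 0]), (12, 16, [7334685537875745012586738086077695515070955365108989538292687703715841, 0])]⟩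

def c2452 : PLift (Cov.check n2452.C.D v2452 = true) := ⟨by decide +kernel⟩

def b2452 : PLift (entF (fidx ts) 400 2452 n2452 = true) := ⟨by decide +kernel⟩

theorem g2452 : GoodF (fidx ts) 400 2452 := GoodF.ofV v2452 n2452 c2452.down b2452.down

/-- 4746474:1950/1 -/
noncomputable def e2453 : SCfg where
  D := {
    a := 7
    L := 10
    kp := 7
    inn := [(0, 1), (1, 0), (1, 2), (1, 3), (2, 1), (3, 1), (3, 4), (3, 5), (4, 3), (4, 5), (5, 3), (5,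
      4), (5, 6), (6, 5)]
    mix := [(0, 0), (0, 1), (0, 2), (1, 0), (1, 2), (1, 3), (1, 4), (2, 2), (2, 3), (2, 5), (3, 3), (3,
      4), (3, 6), (4, 6), (4, 7), (5, 4), (5, 7), (5, 8), (5, 9), (6, 1), (6, 8), (6, 9)]
    cl := [2, 4, 3, 0, 0, 7, 5, 1, 6, 1]
    chq := [(0, 3), (0, 4), (3, 0), (4, 0)]
    rng := [(0, 1), (0, 4), (1, 0), (1, 2), (1, 8), (1, 9), (2, 1), (2, 5), (3, 5), (3, 6), (4, 0), (4,
      9), (5, 2), (5, 3), (6, 3), (6, 7), (7, 6), (7, 8), (8, 1), (8, 7), (9, 1), (9, 4)]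
    lev := [] }
  links := [[1, 7, 8, 9], [7, 0, 9, 2, 10, 3, 11], [10, 1, 9, 12], [11, 1, 10, 13, 4, 5], [5, 3, 13, 14],
    [11, 3, 4, 14, 15, 6, 16], [16, 5, 15, 8]]
  P := {
    a := 7
    N := 17
    nb := [898, 3725, 5634, 11314, 24616, 116824, 98592, 2307, 99009, 4359, 12302, 65706, 1540, 17432,
      41008, 16736, 2400]
    tri := [(0, 1, 7), (0, 1, 9), (0, 7, 8), (0, 8, 9), (1, 2, 9), (1, 2, 10), (1, 3, 10), (1, 3, 11),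
      (1, 7, 11), (2, 9, 12), (2, 10, 12), (3, 4, 5), (3, 4, 13), (3, 5, 11), (3, 10, 13), (4, 5,
      14), (4, 13, 14), (5, 6, 15), (5, 6, 16), (5, 11, 16), (5, 14, 15), (6, 8, 15), (6, 8, 16)]
    fin := [0, 0, 2, 3, 3, 5, 0, 7, 0, 2, 3, 3, 12, 13, 5, 15, 5]
    chd := [(0, 3), (2, 3)]
    steps := [(0, 1), (0, 8), (0, 6), (2, 9), (3, 4), (3, 10), (3, 11), (5, 14), (5, 16)] }
  rep := [3, 5, 7, 2, 0, 13, 15, 12]

noncomputable def v2453 : Cov.CovD where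
  P := 3
  N := 5
  pl := [0, 5, 6, 8]
  lev := [⟨[], [], [(3, 4)], [2], [(1, 4, [0]), (2, 3, [0])]⟩,
    ⟨[], [(0, 0), (0, 3), (0, 4)], [(0, 0), (0, 3)], [2], [(2, 3, [0]), (3, 0, [3, 4]), (4,
      0, [3, 4])]⟩,
    ⟨[(0, 1)], [(0, 3), (1, 0), (1, 3)], [(0, 3)], [7], [(2, 3, [0]), (3, 0, [3, 4])]⟩,
    ⟨[(0, 1), (1, 2)], [(1, 0), (1, 3), (2, 0)], [(0, 0)], [5], [(3, 0, [3, 4]), (4, 0, [3,
      4])]⟩,
    ⟨[(1, 3)], [(3, 0), (3, 1)], [], [5], [(7, 1, [])]⟩,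
    ⟨[(1, 3), (3, 4)], [(1, 0), (3, 0), (3, 1), (4, 0), (4, 1)], [(0, 1), (1, 1)], [6],
      [(4, 0, [3, 4]), (7, 1, []), (9, 1, [])]⟩,
    ⟨[(3, 5), (4, 5)], [(0, 4), (5, 0), (5, 1), (5, 4)], [(1, 4)], [6], [(1, 4, [0]), (9,
      1, [])]⟩]
  Ta := [((3, 5), 0, 7), ((3, 6), 0, 5), ((4, 0), 0, 2), ((4, 9), 0, 1), ((7, 6), 1, 5), ((7, 8),
    1, 6), ((9, 1), 1, 4), ((9, 4), 1, 0)]
  Tb := [((0, 1, 4), 2, 4, 0), ((1, 0, 2), 4, 2, 3), ((1, 0, 8), 4, 2, 6), ((1, 0, 9), 4, 2, 1),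
    ((1, 2, 8), 4, 3, 6), ((1, 2, 9), 4, 3, 1), ((1, 8, 9), 4, 6, 1), ((2, 1, 5), 3, 4, 7),
    ((3, 5, 6), 0, 7, 5), ((4, 0, 9), 0, 2, 1), ((5, 2, 3), 7, 3, 0), ((6, 3, 7), 5, 0, 1),
    ((7, 6, 8), 1, 5, 6), ((8, 1, 7), 6, 4, 1), ((9, 1, 4), 1, 4, 0)]
  Tc := [(0, 3, 4)]
  Td := [((0, 3), (3, 5), 7), ((0, 3), (3, 6), 5), ((0, 3), (4, 0), 2), ((0, 3), (4, 9), 1), ((0,
    4), (3, 5), 7), ((0, 4), (3, 6), 5), ((0, 4), (4, 0), 2), ((0, 4), (4, 9), 1), ((3, 0),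
    (2, 1), 4), ((3, 0), (2, 5), 7), ((4, 0), (1, 0), 2), ((4, 0), (1, 2), 3), ((4, 0), (1,
    8), 6), ((4, 0), (1, 9), 1)]
  G := [[0, 0, 0, 0xc29425c16329425c16ac258c294a3258e2c1a6c1,
    0x32c825c16329492c16cc25834a85a72582e94c6a1], [0, 0, 0,
    0xd1c95c521dc95c92ad1c95c52d1c95c526c1, 0xd1c95c521dc95c92c1dc95c921d8d2d49145c6a1], [0,
    0, 0x8824582c161821c124c1a1421c112c1c12e, 0x92c125c1612428992c1a22c125c1a6c1,
    0x2824525c162428c92c16c22c1a6c161a1], [0, 0xc6a1a6c261ca61c6a1c1c1,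
    0x81c121814c121414c12181c121ce, 0x95c12195c1295c126c1, 0x95c1295c12c95c121a1]]

noncomputable def n2453 : Ent := ⟨e2453, noF, [], [], []⟩

def c2453 : PLift (Cov.check n2453.C.D v2453 = true) := ⟨by decide +kernel⟩

def b2453 : PLift (entF (fidx ts) 400 2453 n2453 = true) := ⟨by decide +kernel⟩

theorem g2453 : GoodF (fidx ts) 400 2453 := GoodF.ofV v2453 n2453 c2453.down b2453.down

/-- 4746474:1950/2 -/
noncomputable def e2454 : SCfg where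
  D := {
    a := 7
    L := 10
    kp := 7
    inn := [(0, 1), (1, 0), (1, 2), (1, 3), (2, 1), (3, 1), (3, 4), (3, 5), (4, 3), (4, 5), (5, 3), (5,
      4), (5, 6), (6, 5)]
    mix := [(0, 0), (0, 1), (0, 2), (1, 0), (1, 2), (1, 3), (1, 4), (2, 2), (2, 3), (2, 5), (3, 3), (3,
      4), (3, 6), (4, 6), (4, 7), (5, 4), (5, 7), (5, 8), (5, 9), (6, 5), (6, 8), (6, 9)]
    cl := [2, 7, 3, 0, 0, 4, 5, 1, 6, 1]
    chq := [(2, 3), (2, 4), (3, 2), (4, 2)]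
    rng := [(0, 1), (0, 4), (1, 0), (1, 2), (2, 1), (2, 5), (3, 5), (3, 6), (4, 0), (4, 9), (5, 2), (5,
      3), (5, 8), (5, 9), (6, 3), (6, 7), (7, 6), (7, 8), (8, 5), (8, 7), (9, 4), (9, 5)]
    lev := [] }
  links := [[1, 7, 8, 9], [7, 0, 9, 2, 10, 3, 11], [10, 1, 9, 12], [11, 1, 10, 13, 4, 5], [5, 3, 13, 14],
    [11, 3, 4, 14, 15, 6, 16], [16, 5, 15, 12]]
  P := {
    a := 7
    N := 17
    nb := [898, 3725, 5634, 11314, 24616, 116824, 102432, 2307, 641, 4359, 12302, 65706, 99908, 17432,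
      41008, 20576, 6240]
    tri := [(0, 1, 7), (0, 1, 9), (0, 7, 8), (0, 8, 9), (1, 2, 9), (1, 2, 10), (1, 3, 10), (1, 3, 11),
      (1, 7, 11), (2, 9, 12), (2, 10, 12), (3, 4, 5), (3, 4, 13), (3, 5, 11), (3, 10, 13), (4, 5,
      14), (4, 13, 14), (5, 6, 15), (5, 6, 16), (5, 11, 16), (5, 14, 15), (6, 12, 15), (6, 12,
      16)]
    fin := [0, 0, 0, 3, 3, 5, 6, 0, 8, 9, 3, 3, 6, 13, 5, 15, 5]
    chd := [(0, 6), (0, 9)]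
    steps := [(0, 1), (0, 2), (0, 7), (3, 4), (3, 10), (3, 11), (5, 14), (5, 16), (6, 12)] }
  rep := [3, 5, 0, 9, 6, 13, 15, 8]

noncomputable def v2454 : Cov.CovD where
  P := 3
  N := 5
  pl := [1, 6, 8]
  lev := [⟨[], [], [(2, 3)], [7], [(0, 2, [3, 4]), (2, 3, [2])]⟩,
    ⟨[], [(0, 0), (0, 2), (0, 3)], [(0, 0), (0, 2), (0, 3), (2, 3)], [], [(0, 2, [3, 4]),
      (2, 3, [2]), (3, 0, []), (4, 0, [])]⟩,
    ⟨[(0, 1)], [(0, 3), (1, 0), (1, 2), (1, 3), (1, 4)], [(0, 3), (0, 4), (3, 4)], [], [(2,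
      3, [2]), (3, 0, []), (5, 4, [2])]⟩,
    ⟨[(0, 1), (1, 2)], [(1, 0), (1, 2), (1, 3), (2, 0)], [(0, 0)], [5], [(3, 0, []), (4, 0,
      [])]⟩,
    ⟨[(1, 3)], [(3, 0), (3, 1)], [], [5], [(7, 1, [])]⟩,
    ⟨[(1, 3), (3, 4)], [(1, 0), (3, 0), (3, 1), (4, 0), (4, 1)], [(0, 1), (1, 1)], [6],
      [(4, 0, []), (7, 1, []), (9, 1, [])]⟩,
    ⟨[(3, 5), (4, 5)], [(2, 4), (5, 0), (5, 1), (5, 4)], [(1, 4)], [6], [(5, 4, [2]), (9,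
      1, [])]⟩]
  Ta := [((3, 5), 0, 4), ((3, 6), 0, 5), ((4, 0), 0, 2), ((4, 9), 0, 1), ((7, 6), 1, 5), ((7, 8),
    1, 6), ((9, 4), 1, 0), ((9, 5), 1, 4)]
  Tb := [((0, 1, 4), 2, 7, 0), ((1, 0, 2), 7, 2, 3), ((2, 1, 5), 3, 7, 4), ((3, 5, 6), 0, 4, 5),
    ((4, 0, 9), 0, 2, 1), ((5, 2, 3), 4, 3, 0), ((5, 2, 8), 4, 3, 6), ((5, 2, 9), 4, 3, 1),
    ((5, 3, 8), 4, 0, 6), ((5, 3, 9), 4, 0, 1), ((5, 8, 9), 4, 6, 1), ((6, 3, 7), 5, 0, 1),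
    ((7, 6, 8), 1, 5, 6), ((8, 5, 7), 6, 4, 1), ((9, 4, 5), 1, 0, 4)]
  Tc := [(2, 3, 4)]
  Td := [((2, 3), (0, 1), 7), ((2, 3), (0, 4), 0), ((2, 4), (0, 1), 7), ((2, 4), (0, 4), 0), ((3,
    2), (2, 1), 7), ((3, 2), (2, 5), 4), ((4, 2), (5, 2), 3), ((4, 2), (5, 3), 0), ((4, 2),
    (5, 8), 6), ((4, 2), (5, 9), 1)]
  G := [[0, 0, 0, 0xc29478249628c25825c1a2426941882c962a43892e54a2cd,
    0x329425c1648c258c294c42a694c2586422c121c84c964ab], [0, 0, 0,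
    0x1dc95c9228d418a95c1a241dc95c922d1c95c522cd,
    0x1dc95c9248d8518ad14d2c421dc95c92459c95c924ab], [0, 0,
    0x12c121c161822c112c1a1412c112c1c12e, 0x12c121c162821c112c1a2412c812c16221c121c1a1cd,
    0x1428c21c164812c112c1c4221c112c86412c112c164ab], [0,
    0xc6a4a6c1628ca61a6c2a24ca61e2c1c1c6a16ac161cd, 0x1dc121895c12141dc1d1c2c12e,
    0x95c122895c122495c122d1c121cd, 0x95c12481dc2d1c2c4251c12151c121ab]]

noncomputable def n2454 : Ent := ⟨e2454, noF, [], [], []⟩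

def c2454 : PLift (Cov.check n2454.C.D v2454 = true) := ⟨by decide +kernel⟩

def b2454 : PLift (entF (fidx ts) 400 2454 n2454 = true) := ⟨by decide +kernel⟩

theorem g2454 : GoodF (fidx ts) 400 2454 := GoodF.ofV v2454 n2454 c2454.down b2454.down

/-- 4746474:1950 -/
noncomputable def e2455 : SCfg where
  D := {
    a := 7
    L := 11
    kp := 8
    inn := [(0, 1), (1, 0), (1, 2), (1, 3), (2, 1), (3, 1), (3, 4), (3, 5), (4, 3), (4, 5), (5, 3), (5,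
      4), (5, 6), (6, 5)]
    mix := [(0, 0), (0, 1), (0, 2), (1, 0), (1, 2), (1, 3), (1, 4), (2, 2), (2, 3), (2, 5), (3, 3), (3,
      4), (3, 6), (4, 6), (4, 7), (5, 4), (5, 7), (5, 8), (5, 9), (6, 8), (6, 9), (6, 10)]
    cl := [2, 6, 3, 0, 0, 7, 4, 1, 5, 1, 8]
    chq := [(0, 3), (0, 6), (3, 0), (6, 0)]
    rng := [(0, 1), (0, 4), (1, 0), (1, 2), (2, 1), (2, 5), (3, 5), (3, 6), (4, 0), (4, 9), (5, 2), (5,
      3), (6, 3), (6, 7), (7, 6), (7, 8), (8, 7), (8, 10), (9, 4), (9, 10), (10, 8), (10, 9)]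
    lev := [] }
  links := [[1, 7, 8, 9], [7, 0, 9, 2, 10, 3, 11], [10, 1, 9, 12], [11, 1, 10, 13, 4, 5], [5, 3, 13, 14],
    [11, 3, 4, 14, 15, 6, 16], [16, 5, 15, 17]]
  P := {
    a := 7
    N := 18
    nb := [898, 3725, 5634, 11314, 24616, 116824, 229408, 2307, 641, 4359, 12302, 65706, 1540, 17432,
      41008, 147552, 133216, 98368]
    tri := [(0, 1, 7), (0, 1, 9), (0, 7, 8), (0, 8, 9), (1, 2, 9), (1, 2, 10), (1, 3, 10), (1, 3, 11),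
      (1, 7, 11), (2, 9, 12), (2, 10, 12), (3, 4, 5), (3, 4, 13), (3, 5, 11), (3, 10, 13), (4, 5,
      14), (4, 13, 14), (5, 6, 15), (5, 6, 16), (5, 11, 16), (5, 14, 15), (6, 15, 17), (6, 16,
      17)]
    fin := [0, 0, 2, 3, 3, 5, 5, 7, 0, 2, 3, 3, 12, 13, 5, 15, 5, 17]
    chd := [(0, 3), (2, 3)]
    steps := [(0, 1), (0, 8), (2, 9), (3, 4), (3, 10), (3, 11), (5, 6), (5, 14), (5, 16)] }
  rep := [3, 5, 7, 2, 13, 15, 0, 12, 17]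

noncomputable def v2455 : Cov.CovD where
  P := 3
  N := 6
  pl := [0, 5, 6, 8, 10]
  lev := [⟨[], [], [(3, 6)], [2], [(1, 6, [0]), (2, 3, [0])]⟩,
    ⟨[], [(0, 0), (0, 3), (0, 6)], [(0, 0), (0, 3)], [2], [(2, 3, [0]), (3, 0, [3, 6]), (4,
      0, [3, 6])]⟩,
    ⟨[(0, 1)], [(0, 3), (1, 0), (1, 3)], [(0, 3)], [7], [(2, 3, [0]), (3, 0, [3, 6])]⟩,
    ⟨[(0, 1), (1, 2)], [(1, 0), (1, 3), (2, 0)], [(0, 0)], [4], [(3, 0, [3, 6]), (4, 0, [3,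
      6])]⟩,
    ⟨[(1, 3)], [(3, 0), (3, 1)], [], [4], [(7, 1, [])]⟩,
    ⟨[(1, 3), (3, 4)], [(1, 0), (3, 0), (3, 1), (4, 0), (4, 1)], [(0, 1), (1, 1)], [5],
      [(4, 0, [3, 6]), (7, 1, []), (9, 1, [])]⟩,
    ⟨[(3, 5), (4, 5)], [(5, 0), (5, 1)], [], [5, 8], [(9, 1, [])]⟩]
  Ta := [((3, 5), 0, 7), ((3, 6), 0, 4), ((4, 0), 0, 2), ((4, 9), 0, 1), ((7, 6), 1, 4), ((7, 8),
    1, 5), ((9, 4), 1, 0), ((9, 10), 1, 8)]
  Tb := [((0, 1, 4), 2, 6, 0), ((1, 0, 2), 6, 2, 3), ((2, 1, 5), 3, 6, 7), ((3, 5, 6), 0, 7, 4),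
    ((4, 0, 9), 0, 2, 1), ((5, 2, 3), 7, 3, 0), ((6, 3, 7), 4, 0, 1), ((7, 6, 8), 1, 4, 5),
    ((8, 7, 10), 5, 1, 8), ((9, 4, 10), 1, 0, 8), ((10, 8, 9), 8, 5, 1)]
  Tc := [(0, 3, 6)]
  Td := [((0, 3), (3, 5), 7), ((0, 3), (3, 6), 4), ((0, 3), (4, 0), 2), ((0, 3), (4, 9), 1), ((0,
    6), (3, 5), 7), ((0, 6), (3, 6), 4), ((0, 6), (4, 0), 2), ((0, 6), (4, 9), 1), ((3, 0),
    (2, 1), 6), ((3, 0), (2, 5), 7), ((6, 0), (1, 0), 2), ((6, 0), (1, 2), 3)]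
  G := [[0, 0, 0, 0x629414a4c962e9825c16ac258a6c1a725836c1a6c1,
    0x3a9492c16c2942184c96cc258c294c36582e94c6a1], [0, 0, 0,
    0x549895cd21d8d95c92ad14d95c521d8d295c1a6c1,
    0x1d8d95c921d8d95c92c1d8d95c92d85189d14d2c6a1], [0, 0,
    0x22c192c161822c125c1a1463c192c1c12e, 0x22c14241284c25c12b92c1292c1222c187c1,
    0x22c125c1624128125c1ec22c825c161a1], [0, 0xca61c6a1c1ca61a6c2a1c1,
    0x95c121895c121495c12195c121ce, 0x95c1295c12a95c121c1, 0x95c1295c12c95c121a1]]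

noncomputable def n2455 : Ent := ⟨e2455, noF, [], [], [(8, 17, [6903326391201334775872065844685381424292761054348340378595029939736577, 0]), (12, 17, [6903326391201334775872065844685381424292761054348340378595029939740673, 0])]⟩

def c2455 : PLift (Cov.check n2455.C.D v2455 = true) := ⟨by decide +kernel⟩

def b2455 : PLift (entF (fidx ts) 400 2455 n2455 = true) := ⟨by decide +kernel⟩

theorem g2455 : GoodF (fidx ts) 400 2455 := GoodF.ofV v2455 n2455 c2455.down b2455.down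

/-- 4746644:1951/2 -/
noncomputable def e2456 : SCfg where
  D := {
    a := 7
    L := 8
    kp := 6
    inn := [(0, 1), (1, 0), (1, 2), (1, 3), (2, 1), (3, 1), (3, 4), (3, 5), (4, 3), (4, 5), (4, 6), (5,
      3), (5, 4), (6, 4)]
    mix := [(0, 0), (0, 1), (0, 2), (1, 0), (1, 2), (1, 3), (1, 4), (2, 2), (2, 3), (2, 5), (3, 3), (3,
      4), (3, 6), (4, 1), (4, 6), (4, 7), (5, 4), (5, 7), (6, 0), (6, 1), (6, 7)]
    cl := [2, 3, 0, 1, 0, 6, 5, 4]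
    chq := [(0, 1), (1, 0), (1, 3), (1, 4), (3, 1), (3, 4), (4, 1), (4, 3)]
    rng := [(0, 1), (0, 4), (0, 7), (1, 0), (1, 2), (1, 6), (2, 1), (2, 5), (3, 5), (3, 6), (4, 0), (4,
      7), (5, 2), (5, 3), (6, 1), (6, 3), (7, 0), (7, 4)]
    lev := [] }
  links := [[1, 7, 8, 9], [7, 0, 9, 2, 10, 3, 11], [10, 1, 9, 12], [11, 1, 10, 13, 4, 5], [5, 3, 13, 8,
    6, 14], [11, 3, 4, 14], [14, 4, 8, 7]]
  P := {
    a := 7
    N := 15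
    nb := [898, 3725, 5634, 11314, 24936, 18456, 16784, 18755, 8913, 4359, 12302, 16554, 1540, 1304,
      2288]
    tri := [(0, 1, 7), (0, 1, 9), (0, 7, 8), (0, 8, 9), (1, 2, 9), (1, 2, 10), (1, 3, 10), (1, 3, 11),
      (1, 7, 11), (2, 9, 12), (2, 10, 12), (3, 4, 5), (3, 4, 13), (3, 5, 11), (3, 10, 13), (4, 5,
      14), (4, 6, 8), (4, 6, 14), (4, 8, 13), (5, 11, 14), (6, 7, 8), (6, 7, 14)]
    fin := [0, 1, 1, 3, 4, 3, 0, 0, 4, 1, 3, 1, 12, 13, 14]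
    chd := [(1, 3), (3, 14), (4, 3), (4, 14)]
    steps := [(0, 7), (0, 6), (1, 2), (1, 9), (1, 11), (3, 5), (3, 10), (4, 8)] }
  rep := [1, 3, 0, 4, 14, 13, 12]

noncomputable def v2456 : Cov.CovD where
  P := 3
  N := 4
  pl := [0, 5, 6]
  lev := [⟨[], [], [(0, 3)], [2], [(1, 3, [1, 4]), (2, 0, [1])]⟩,
    ⟨[], [(0, 0), (0, 1), (0, 3)], [(0, 0), (0, 1)], [2], [(2, 0, [1]), (3, 1, [0, 3, 4]),
      (4, 0, [1])]⟩,
    ⟨[(0, 1)], [(0, 0), (1, 0), (1, 1)], [(0, 1)], [6], [(2, 0, [1]), (3, 1, [0, 3, 4])]⟩,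
    ⟨[(0, 1), (1, 2)], [(1, 0), (1, 1), (2, 1)], [(0, 1)], [5], [(3, 1, [0, 3, 4]), (4, 0,
      [1])]⟩,
    ⟨[(1, 3)], [(0, 3), (3, 0), (3, 1), (3, 3), (3, 4)], [(3, 4)], [5], [(1, 3, [1, 4]),
      (7, 4, [1, 3])]⟩,
    ⟨[(1, 3), (3, 4)], [(1, 0), (3, 0), (3, 1), (3, 4), (4, 0), (4, 3), (4, 4)], [(0, 4)],
      [], [(4, 0, [1]), (7, 4, [1, 3])]⟩,
    ⟨[(3, 4), (4, 5)], [(0, 3), (4, 3), (4, 4), (5, 4)], [(3, 4)], [2], [(1, 3, [1, 4]),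
      (7, 4, [1, 3])]⟩]
  Ta := [((2, 1), 0, 3), ((2, 5), 0, 6), ((4, 0), 0, 2), ((4, 7), 0, 4)]
  Tb := [((0, 1, 4), 2, 3, 0), ((0, 1, 7), 2, 3, 4), ((0, 4, 7), 2, 0, 4), ((1, 0, 2), 3, 2, 0),
    ((1, 0, 6), 3, 2, 5), ((1, 2, 6), 3, 0, 5), ((2, 1, 5), 0, 3, 6), ((3, 5, 6), 1, 6, 5),
    ((4, 0, 7), 0, 2, 4), ((5, 2, 3), 6, 0, 1), ((6, 1, 3), 5, 3, 1), ((7, 0, 4), 4, 2, 0)]
  Tc := [(1, 0, 3), (1, 0, 4), (1, 3, 4), (3, 1, 4), (4, 1, 3)]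
  Td := [((0, 1), (2, 1), 3), ((0, 1), (2, 5), 6), ((0, 1), (4, 0), 2), ((0, 1), (4, 7), 4), ((1,
    0), (3, 5), 6), ((1, 0), (3, 6), 5), ((1, 3), (3, 5), 6), ((1, 3), (3, 6), 5), ((1, 4),
    (3, 5), 6), ((1, 4), (3, 6), 5), ((3, 1), (1, 0), 2), ((3, 1), (1, 2), 0), ((3, 1), (1,
    6), 5), ((3, 4), (1, 0), 2), ((3, 4), (1, 2), 0), ((3, 4), (1, 6), 5), ((4, 1), (7, 0),
    2), ((4, 1), (7, 4), 0), ((4, 3), (7, 0), 2), ((4, 3), (7, 4), 0)]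
  G := [[0, 0x11a1211a1411618e81, 0, 0x42125122c12123824254e9c41112382d2a5921831825c8c,
    0x81c212881322112f32c2521123813191ecc8a], [0, 0x11a1411c1211618e41, 0x4222cc278286a9c142,
    0x922828212bc144252644123c18c, 0x2412382b22812f848e182]]

noncomputable def n2456 : Ent := ⟨e2456, noF, [], [], []⟩

def c2456 : PLift (Cov.check n2456.C.D v2456 = true) := ⟨by decide +kernel⟩

def b2456 : PLift (entF (fidx ts) 400 2456 n2456 = true) := ⟨by decide +kernel⟩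

theorem g2456 : GoodF (fidx ts) 400 2456 := GoodF.ofV v2456 n2456 c2456.down b2456.down

/-- 4746644:1951/1 -/
noncomputable def e2457 : SCfg where
  D := {
    a := 7
    L := 9
    kp := 7
    inn := [(0, 1), (1, 0), (1, 2), (1, 3), (2, 1), (3, 1), (3, 4), (3, 5), (4, 3), (4, 5), (4, 6), (5,
      3), (5, 4), (6, 4)]
    mix := [(0, 0), (0, 1), (0, 2), (1, 0), (1, 2), (1, 3), (1, 4), (2, 2), (2, 3), (2, 5), (3, 3), (3,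
      4), (3, 6), (4, 6), (4, 7), (4, 8), (5, 4), (5, 8), (6, 0), (6, 7), (6, 8)]
    cl := [1, 7, 2, 0, 0, 6, 4, 5, 3]
    chq := [(1, 2), (1, 4), (1, 6), (2, 1), (3, 4), (4, 1), (4, 3), (6, 1)]
    rng := [(0, 1), (0, 4), (0, 7), (0, 8), (1, 0), (1, 2), (2, 1), (2, 5), (3, 5), (3, 6), (4, 0), (4,
      8), (5, 2), (5, 3), (6, 3), (6, 7), (7, 0), (7, 6), (8, 0), (8, 4)]
    lev := [] }
  links := [[1, 7, 8, 9], [7, 0, 9, 2, 10, 3, 11], [10, 1, 9, 12], [11, 1, 10, 13, 4, 5], [5, 3, 13, 14,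
    6, 15], [11, 3, 4, 15], [15, 4, 14, 7]]
  P := {
    a := 7
    N := 16
    nb := [898, 3725, 5634, 11314, 57448, 34840, 49296, 51523, 641, 4359, 12302, 32938, 1540, 17432,
      8400, 2288]
    tri := [(0, 1, 7), (0, 1, 9), (0, 7, 8), (0, 8, 9), (1, 2, 9), (1, 2, 10), (1, 3, 10), (1, 3, 11),
      (1, 7, 11), (2, 9, 12), (2, 10, 12), (3, 4, 5), (3, 4, 13), (3, 5, 11), (3, 10, 13), (4, 5,
      15), (4, 6, 14), (4, 6, 15), (4, 13, 14), (5, 11, 15), (6, 7, 14), (6, 7, 15)]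
    fin := [0, 0, 0, 3, 4, 3, 0, 0, 8, 9, 3, 3, 12, 4, 14, 15]
    chd := [(0, 4), (0, 9), (0, 12), (4, 15)]
    steps := [(0, 1), (0, 2), (0, 7), (0, 6), (3, 5), (3, 10), (3, 11), (4, 13)] }
  rep := [3, 0, 9, 15, 4, 14, 12, 8]

noncomputable def v2457 : Cov.CovD where
  P := 3
  N := 5
  pl := [1, 7]
  lev := [⟨[], [], [(1, 2)], [7], [(0, 1, [2, 4, 6]), (2, 2, [1])]⟩,
    ⟨[], [(0, 0), (0, 1), (0, 2)], [(0, 0), (0, 1), (0, 2), (1, 2)], [], [(0, 1, [2, 4,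
      6]), (2, 2, [1]), (3, 0, []), (4, 0, [])]⟩,
    ⟨[(0, 1)], [(0, 2), (1, 0), (1, 1), (1, 2), (1, 6)], [(0, 2), (0, 6), (2, 6)], [], [(2,
      2, [1]), (3, 0, []), (5, 6, [1])]⟩,
    ⟨[(0, 1), (1, 2)], [(1, 0), (1, 1), (1, 2), (1, 4), (2, 0)], [(0, 0), (0, 4)], [], [(3,
      0, []), (4, 0, []), (6, 4, [1, 3])]⟩,
    ⟨[(1, 3)], [(3, 0), (3, 3), (3, 4)], [(3, 4)], [5], [(6, 4, [1, 3]), (8, 3, [4])]⟩,
    ⟨[(1, 3), (3, 4)], [(1, 0), (3, 0), (3, 3), (3, 4), (4, 0), (4, 3), (4, 4)], [(0, 3)],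
      [], [(4, 0, []), (8, 3, [4])]⟩,
    ⟨[(3, 4), (4, 5)], [(0, 1), (1, 1), (4, 1), (4, 3), (4, 4), (5, 3)], [(1, 3)], [5],
      [(0, 1, [2, 4, 6]), (8, 3, [4])]⟩]
  Ta := [((3, 5), 0, 6), ((3, 6), 0, 4), ((4, 0), 0, 1), ((4, 8), 0, 3)]
  Tb := [((0, 1, 4), 1, 7, 0), ((0, 1, 7), 1, 7, 5), ((0, 1, 8), 1, 7, 3), ((0, 4, 7), 1, 0, 5),
    ((0, 4, 8), 1, 0, 3), ((0, 7, 8), 1, 5, 3), ((1, 0, 2), 7, 1, 2), ((2, 1, 5), 2, 7, 6),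
    ((3, 5, 6), 0, 6, 4), ((4, 0, 8), 0, 1, 3), ((5, 2, 3), 6, 2, 0), ((6, 3, 7), 4, 0, 5),
    ((7, 0, 6), 5, 1, 4), ((8, 0, 4), 3, 1, 0)]
  Tc := [(1, 2, 4), (1, 2, 6), (1, 4, 6), (4, 1, 3)]
  Td := [((1, 2), (0, 1), 7), ((1, 2), (0, 4), 0), ((1, 2), (0, 7), 5), ((1, 2), (0, 8), 3), ((1,
    4), (0, 1), 7), ((1, 4), (0, 4), 0), ((1, 4), (0, 7), 5), ((1, 4), (0, 8), 3), ((1, 6),
    (0, 1), 7), ((1, 6), (0, 4), 0), ((1, 6), (0, 7), 5), ((1, 6), (0, 8), 3), ((2, 1), (2,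
    1), 7), ((2, 1), (2, 5), 6), ((3, 4), (8, 0), 1), ((3, 4), (8, 4), 0), ((4, 1), (6, 3),
    0), ((4, 1), (6, 7), 5), ((4, 3), (6, 3), 0), ((4, 3), (6, 7), 5), ((6, 1), (5, 2), 2),
    ((6, 1), (5, 3), 0)]
  G := [[0, 0, 0x8141d111cf2248141d111cf224c, 0xd12224d122285, 0x8141d111cf2288141d111cf2289],
    [0, 0xe21e81a14e21e41618c, 0x28c42c84c11cf22828ca484c11cf228c, 0x95c222895c2224c,
    0x28ca484c11cf21828ca484c11cf2189]]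

noncomputable def n2457 : Ent := ⟨e2457, noF, [], [], [(8, 14, [385746751338780685620664494392815470296102193487288376382554113, 0])]⟩

def c2457 : PLift (Cov.check n2457.C.D v2457 = true) := ⟨by decide +kernel⟩

def b2457 : PLift (entF (fidx ts) 400 2457 n2457 = true) := ⟨by decide +kernel⟩

theorem g2457 : GoodF (fidx ts) 400 2457 := GoodF.ofV v2457 n2457 c2457.down b2457.down

/-- 4746644:1951/4 -/
noncomputable def e2458 : SCfg where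
  D := {
    a := 7
    L := 8
    kp := 6
    inn := [(0, 1), (1, 0), (1, 2), (1, 3), (2, 1), (3, 1), (3, 4), (3, 5), (4, 3), (4, 5), (4, 6), (5,
      3), (5, 4), (6, 4)]
    mix := [(0, 0), (0, 1), (0, 2), (1, 0), (1, 2), (1, 3), (1, 4), (2, 2), (2, 3), (2, 5), (3, 3), (3,
      4), (3, 6), (4, 1), (4, 6), (4, 7), (5, 4), (5, 7), (6, 1), (6, 5), (6, 7)]
    cl := [0, 3, 2, 0, 1, 5, 6, 4]
    chq := [(0, 2), (1, 3), (1, 5), (1, 6), (2, 0), (3, 1), (5, 1), (6, 1)]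
    rng := [(0, 1), (0, 4), (1, 0), (1, 2), (1, 5), (1, 6), (2, 1), (2, 5), (3, 5), (3, 6), (4, 0), (4,
      7), (5, 1), (5, 2), (5, 3), (5, 7), (6, 1), (6, 3), (7, 4), (7, 5)]
    lev := [] }
  links := [[1, 7, 8, 9], [7, 0, 9, 2, 10, 3, 11], [10, 1, 9, 12], [11, 1, 10, 13, 4, 5], [5, 3, 13, 8,
    6, 14], [11, 3, 4, 14], [14, 4, 8, 12]]
  P := {
    a := 7
    N := 15
    nb := [898, 3725, 5634, 11314, 24936, 18456, 20752, 2307, 13009, 4359, 12302, 16554, 18244, 1304,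
      6256]
    tri := [(0, 1, 7), (0, 1, 9), (0, 7, 8), (0, 8, 9), (1, 2, 9), (1, 2, 10), (1, 3, 10), (1, 3, 11),
      (1, 7, 11), (2, 9, 12), (2, 10, 12), (3, 4, 5), (3, 4, 13), (3, 5, 11), (3, 10, 13), (4, 5,
      14), (4, 6, 8), (4, 6, 14), (4, 8, 13), (5, 11, 14), (6, 8, 12), (6, 12, 14)]
    fin := [0, 0, 0, 3, 3, 5, 6, 0, 8, 9, 0, 3, 6, 13, 5]
    chd := [(0, 9), (3, 6), (3, 13), (8, 3)]
    steps := [(0, 1), (0, 2), (0, 7), (0, 10), (3, 4), (5, 14), (3, 11), (6, 12)] }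
  rep := [0, 3, 9, 8, 5, 6, 13]

noncomputable def v2458 : Cov.CovD where
  P := 3
  N := 4
  pl := [7]
  lev := [⟨[], [], [(0, 2), (0, 3), (2, 3)], [], [(0, 0, [2]), (1, 3, [1]), (2, 2, [0])]⟩,
    ⟨[], [(0, 0), (0, 1), (0, 2), (0, 3)], [(0, 0), (0, 1), (0, 2), (1, 2)], [], [(0, 0,
      [2]), (2, 2, [0]), (3, 0, [2]), (4, 1, [3, 5, 6])]⟩,
    ⟨[(0, 1)], [(0, 2), (1, 0), (1, 1), (1, 2), (1, 5)], [(0, 2), (0, 5), (2, 5)], [], [(2,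
      2, [0]), (3, 0, [2]), (5, 5, [1])]⟩,
    ⟨[(0, 1), (1, 2)], [(1, 0), (1, 1), (1, 2), (1, 6), (2, 0)], [(0, 1), (0, 6), (1, 6)],
      [], [(3, 0, [2]), (4, 1, [3, 5, 6]), (6, 6, [1])]⟩,
    ⟨[(1, 3)], [(0, 3), (3, 0), (3, 1), (3, 3), (3, 6)], [(3, 6)], [4], [(1, 3, [1]), (6,
      6, [1])]⟩,
    ⟨[(1, 3), (3, 4)], [(1, 1), (3, 0), (3, 1), (3, 6), (4, 1), (4, 3), (4, 6)], [], [4],
      [(4, 1, [3, 5, 6])]⟩,
    ⟨[(3, 4), (4, 5)], [(0, 3), (2, 5), (4, 3), (4, 5), (4, 6)], [(3, 5)], [4], [(1, 3,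
      [1]), (5, 5, [1])]⟩]
  Ta := [((0, 1), 0, 3), ((0, 4), 0, 1), ((3, 5), 0, 5), ((3, 6), 0, 6)]
  Tb := [((0, 1, 4), 0, 3, 1), ((1, 0, 2), 3, 0, 2), ((1, 0, 5), 3, 0, 5), ((1, 0, 6), 3, 0, 6),
    ((1, 2, 5), 3, 2, 5), ((1, 2, 6), 3, 2, 6), ((1, 5, 6), 3, 5, 6), ((2, 1, 5), 2, 3, 5),
    ((3, 5, 6), 0, 5, 6), ((4, 0, 7), 1, 0, 4), ((5, 1, 2), 5, 3, 2), ((5, 1, 3), 5, 3, 0),
    ((5, 1, 7), 5, 3, 4), ((5, 2, 3), 5, 2, 0), ((5, 2, 7), 5, 2, 4), ((5, 3, 7), 5, 0, 4),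
    ((6, 1, 3), 6, 3, 0), ((7, 4, 5), 4, 1, 5)]
  Tc := [(1, 3, 5), (1, 3, 6), (1, 5, 6)]
  Td := [((0, 2), (0, 1), 3), ((0, 2), (0, 4), 1), ((0, 2), (3, 5), 5), ((0, 2), (3, 6), 6), ((1,
    3), (4, 0), 0), ((1, 3), (4, 7), 4), ((1, 5), (4, 0), 0), ((1, 5), (4, 7), 4), ((1, 6),
    (4, 0), 0), ((1, 6), (4, 7), 4), ((2, 0), (2, 1), 3), ((2, 0), (2, 5), 5), ((3, 1), (1,
    0), 0), ((3, 1), (1, 2), 2), ((3, 1), (1, 5), 5), ((3, 1), (1, 6), 6), ((5, 1), (5, 1),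
    3), ((5, 1), (5, 2), 2), ((5, 1), (5, 3), 0), ((5, 1), (5, 7), 4), ((6, 1), (6, 1), 3),
    ((6, 1), (6, 3), 0)]
  G := [[0, 0x11a111c161411611161a18c, 0x2222c12411a118124f46d24a,
    0x784824e1a1918345484b428e1615143894c, 0x14111c13cc4acb6ced282], [0, 0,
    0x228824141112b1e2f86d24a, 0x28d43441412622514fa81293c344824d8f8cc1,
    0xeb554321338f85a5fc281]]

noncomputable def n2458 : Ent := ⟨e2458, noF, [], [], []⟩

def c2458 : PLift (Cov.check n2458.C.D v2458 = true) := ⟨by decide +kernel⟩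

def b2458 : PLift (entF (fidx ts) 400 2458 n2458 = true) := ⟨by decide +kernel⟩

theorem g2458 : GoodF (fidx ts) 400 2458 := GoodF.ofV v2458 n2458 c2458.down b2458.down

/-- 4746644:1951/3 -/
noncomputable def e2459 : SCfg where
  D := {
    a := 7
    L := 9
    kp := 7
    inn := [(0, 1), (1, 0), (1, 2), (1, 3), (2, 1), (3, 1), (3, 4), (3, 5), (4, 3), (4, 5), (4, 6), (5,
      3), (5, 4), (6, 4)]
    mix := [(0, 0), (0, 1), (0, 2), (1, 0), (1, 2), (1, 3), (1, 4), (2, 2), (2, 3), (2, 5), (3, 3), (3,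
      4), (3, 6), (4, 1), (4, 6), (4, 7), (5, 4), (5, 7), (6, 1), (6, 7), (6, 8)]
    cl := [2, 1, 0, 3, 0, 6, 5, 4, 7]
    chq := [(0, 3), (1, 3), (1, 4), (3, 0), (3, 1), (3, 4), (4, 1), (4, 3)]
    rng := [(0, 1), (0, 4), (1, 0), (1, 2), (1, 6), (1, 8), (2, 1), (2, 5), (3, 5), (3, 6), (4, 0), (4,
      7), (5, 2), (5, 3), (6, 1), (6, 3), (7, 4), (7, 8), (8, 1), (8, 7)]
    lev := [] }
  links := [[1, 7, 8, 9], [7, 0, 9, 2, 10, 3, 11], [10, 1, 9, 12], [11, 1, 10, 13, 4, 5], [5, 3, 13, 8,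
    6, 14], [11, 3, 4, 14], [14, 4, 8, 15]]
  P := {
    a := 7
    N := 16
    nb := [898, 3725, 5634, 11314, 24936, 18456, 49424, 2307, 41681, 4359, 12302, 16554, 1540, 1304,
      34928, 16704]
    tri := [(0, 1, 7), (0, 1, 9), (0, 7, 8), (0, 8, 9), (1, 2, 9), (1, 2, 10), (1, 3, 10), (1, 3, 11),
      (1, 7, 11), (2, 9, 12), (2, 10, 12), (3, 4, 5), (3, 4, 13), (3, 5, 11), (3, 10, 13), (4, 5,
      14), (4, 6, 8), (4, 6, 14), (4, 8, 13), (5, 11, 14), (6, 8, 15), (6, 14, 15)]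
    fin := [0, 1, 1, 3, 3, 1, 6, 0, 6, 1, 3, 1, 12, 13, 14, 15]
    chd := [(1, 3), (3, 14), (6, 3), (6, 14)]
    steps := [(0, 7), (1, 2), (1, 9), (1, 11), (1, 5), (3, 4), (3, 10), (6, 8)] }
  rep := [1, 6, 0, 3, 14, 13, 12, 15]

noncomputable def v2459 : Cov.CovD where
  P := 3
  N := 5
  pl := [0, 5, 6, 8]
  lev := [⟨[], [], [(0, 1)], [2], [(1, 1, [3, 4]), (2, 0, [3])]⟩,
    ⟨[], [(0, 0), (0, 1), (0, 3)], [(0, 0), (0, 3)], [2], [(2, 0, [3]), (3, 3, [0, 1, 4]),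
      (4, 0, [3])]⟩,
    ⟨[(0, 1)], [(0, 0), (1, 0), (1, 3)], [(0, 3)], [6], [(2, 0, [3]), (3, 3, [0, 1, 4])]⟩,
    ⟨[(0, 1), (1, 2)], [(1, 0), (1, 3), (2, 3)], [(0, 3)], [5], [(3, 3, [0, 1, 4]), (4, 0,
      [3])]⟩,
    ⟨[(1, 3)], [(0, 1), (3, 0), (3, 1), (3, 3), (3, 4)], [(1, 4)], [5], [(1, 1, [3, 4]),
      (7, 4, [1, 3])]⟩,
    ⟨[(1, 3), (3, 4)], [(1, 0), (3, 0), (3, 3), (3, 4), (4, 0), (4, 1), (4, 4)], [(0, 4)],
      [], [(4, 0, [3]), (7, 4, [1, 3])]⟩,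
    ⟨[(3, 4), (4, 5)], [(0, 1), (4, 1), (4, 4), (5, 4)], [(1, 4)], [7], [(1, 1, [3, 4]),
      (7, 4, [1, 3])]⟩]
  Ta := [((2, 1), 0, 1), ((2, 5), 0, 6), ((4, 0), 0, 2), ((4, 7), 0, 4)]
  Tb := [((0, 1, 4), 2, 1, 0), ((1, 0, 2), 1, 2, 0), ((1, 0, 6), 1, 2, 5), ((1, 0, 8), 1, 2, 7),
    ((1, 2, 6), 1, 0, 5), ((1, 2, 8), 1, 0, 7), ((1, 6, 8), 1, 5, 7), ((2, 1, 5), 0, 1, 6),
    ((3, 5, 6), 3, 6, 5), ((4, 0, 7), 0, 2, 4), ((5, 2, 3), 6, 0, 3), ((6, 1, 3), 5, 1, 3),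
    ((7, 4, 8), 4, 0, 7), ((8, 1, 7), 7, 1, 4)]
  Tc := [(1, 3, 4), (3, 0, 1), (3, 0, 4), (3, 1, 4), (4, 1, 3)]
  Td := [((0, 3), (2, 1), 1), ((0, 3), (2, 5), 6), ((0, 3), (4, 0), 2), ((0, 3), (4, 7), 4), ((1,
    3), (1, 0), 2), ((1, 3), (1, 2), 0), ((1, 3), (1, 6), 5), ((1, 3), (1, 8), 7), ((1, 4),
    (1, 0), 2), ((1, 4), (1, 2), 0), ((1, 4), (1, 6), 5), ((1, 4), (1, 8), 7), ((3, 0), (3,
    5), 6), ((3, 0), (3, 6), 5), ((3, 1), (3, 5), 6), ((3, 1), (3, 6), 5), ((3, 4), (3, 5),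
    6), ((3, 4), (3, 6), 5), ((4, 1), (7, 4), 0), ((4, 1), (7, 8), 7), ((4, 3), (7, 4), 0),
    ((4, 3), (7, 8), 7)]
  G := [[0, 0x688e4a4e268ee1ca6c828ae164ca6c6aa6ce1c44a4e246e1a8c, 0,
    0xd2929292929264d15252515252a8c, 0x54122d13252222985c1ed12b21d18e52492929928dea8], [0, 0,
    0x522259222995c1e128, 0xd212d212c4d2c2bd2c298d21c4,
    0xd2195c1ad21d21c22d2cd22222dc4c895cded28]]

noncomputable def n2459 : Ent := ⟨e2459, noF, [], [], [(7, 15, [360035742630636841211993100915356868655746945586763691017732097, 0]), (12, 15, [360035742630636841211993100915356868655746945586763691017740289, 0])]⟩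

def c2459 : PLift (Cov.check n2459.C.D v2459 = true) := ⟨by decide +kernel⟩

def b2459 : PLift (entF (fidx ts) 400 2459 n2459 = true) := ⟨by decide +kernel⟩

theorem g2459 : GoodF (fidx ts) 400 2459 := GoodF.ofV v2459 n2459 c2459.down b2459.down

/-- 4746644:1951/6 -/
noncomputable def e2460 : SCfg where
  D := {
    a := 7
    L := 8
    kp := 6
    inn := [(0, 1), (1, 0), (1, 2), (1, 3), (2, 1), (3, 1), (3, 4), (3, 5), (4, 3), (4, 5), (4, 6), (5,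
      3), (5, 4), (6, 4)]
    mix := [(0, 0), (0, 1), (0, 2), (1, 0), (1, 2), (1, 3), (1, 4), (2, 2), (2, 3), (2, 5), (3, 3), (3,
      4), (3, 6), (4, 5), (4, 6), (4, 7), (5, 4), (5, 7), (6, 1), (6, 5), (6, 7)]
    cl := [2, 5, 1, 0, 0, 3, 6, 4]
    chq := [(0, 5), (1, 2), (2, 1), (2, 3), (3, 2), (5, 0), (5, 6), (6, 5)]
    rng := [(0, 1), (0, 4), (1, 0), (1, 2), (1, 5), (1, 7), (2, 1), (2, 5), (3, 5), (3, 6), (4, 0), (4,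
      7), (5, 1), (5, 2), (5, 3), (5, 6), (6, 3), (6, 5), (7, 1), (7, 4)]
    lev := [] }
  links := [[1, 7, 8, 9], [7, 0, 9, 2, 10, 3, 11], [10, 1, 9, 12], [11, 1, 10, 13, 4, 5], [5, 3, 13, 12,
    6, 14], [11, 3, 4, 14], [14, 4, 12, 8]]
  P := {
    a := 7
    N := 15
    nb := [898, 3725, 5634, 11314, 28776, 18456, 20752, 2307, 21185, 4359, 12302, 16554, 10068, 5144,
      2416]
    tri := [(0, 1, 7), (0, 1, 9), (0, 7, 8), (0, 8, 9), (1, 2, 9), (1, 2, 10), (1, 3, 10), (1, 3, 11),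
      (1, 7, 11), (2, 9, 12), (2, 10, 12), (3, 4, 5), (3, 4, 13), (3, 5, 11), (3, 10, 13), (4, 5,
      14), (4, 6, 12), (4, 6, 14), (4, 12, 13), (5, 11, 14), (6, 8, 12), (6, 8, 14)]
    fin := [0, 0, 0, 3, 4, 4, 4, 0, 4, 9, 3, 3, 12, 13, 14]
    chd := [(0, 9), (0, 12), (4, 3), (4, 13)]
    steps := [(0, 1), (0, 2), (0, 7), (3, 10), (3, 11), (4, 5), (4, 6), (4, 8)] }
  rep := [3, 9, 0, 12, 14, 4, 13]

noncomputable def v2460 : Cov.CovD where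
  P := 3
  N := 4
  pl := [7]
  lev := [⟨[], [], [(1, 2), (1, 5), (2, 5)], [], [(0, 2, [1, 3]), (1, 5, [0, 6]), (2, 1, [2])]⟩,
    ⟨[], [(0, 0), (0, 1), (0, 2), (0, 5)], [(0, 0), (0, 1), (0, 2), (1, 2)], [], [(0, 2,
      [1, 3]), (2, 1, [2]), (3, 0, [5]), (4, 0, [5])]⟩,
    ⟨[(0, 1)], [(0, 1), (1, 0), (1, 1), (1, 2), (1, 3)], [(0, 1), (0, 3), (1, 3)], [], [(2,
      1, [2]), (3, 0, [5]), (5, 3, [2])]⟩,
    ⟨[(0, 1), (1, 2)], [(1, 0), (1, 1), (1, 2), (1, 6), (2, 0)], [(0, 0), (0, 6)], [], [(3,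
      0, [5]), (4, 0, [5]), (6, 6, [5])]⟩,
    ⟨[(1, 3)], [(2, 3), (3, 0), (3, 3), (3, 6)], [(3, 6)], [4], [(5, 3, [2]), (6, 6, [5])]⟩,
    ⟨[(1, 3), (3, 4)], [(1, 0), (3, 0), (3, 6), (4, 0), (4, 3), (4, 6)], [], [4], [(4, 0,
      [5])]⟩,
    ⟨[(3, 4), (4, 5)], [(0, 5), (2, 3), (4, 3), (4, 5), (4, 6)], [(3, 5)], [4], [(1, 5, [0,
      6]), (5, 3, [2])]⟩]
  Ta := [((3, 5), 0, 3), ((3, 6), 0, 6), ((4, 0), 0, 2), ((4, 7), 0, 4)]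
  Tb := [((0, 1, 4), 2, 5, 0), ((1, 0, 2), 5, 2, 1), ((1, 0, 5), 5, 2, 3), ((1, 0, 7), 5, 2, 4),
    ((1, 2, 5), 5, 1, 3), ((1, 2, 7), 5, 1, 4), ((1, 5, 7), 5, 3, 4), ((2, 1, 5), 1, 5, 3),
    ((3, 5, 6), 0, 3, 6), ((4, 0, 7), 0, 2, 4), ((5, 1, 2), 3, 5, 1), ((5, 1, 3), 3, 5, 0),
    ((5, 1, 6), 3, 5, 6), ((5, 2, 3), 3, 1, 0), ((5, 2, 6), 3, 1, 6), ((5, 3, 6), 3, 0, 6),
    ((6, 3, 5), 6, 0, 3), ((7, 1, 4), 4, 5, 0)]
  Tc := [(2, 1, 3), (5, 0, 6)]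
  Td := [((0, 5), (3, 5), 3), ((0, 5), (3, 6), 6), ((0, 5), (4, 0), 2), ((0, 5), (4, 7), 4), ((1,
    2), (2, 1), 5), ((1, 2), (2, 5), 3), ((2, 1), (0, 1), 5), ((2, 1), (0, 4), 0), ((2, 3),
    (0, 1), 5), ((2, 3), (0, 4), 0), ((3, 2), (5, 1), 5), ((3, 2), (5, 2), 1), ((3, 2), (5,
    3), 0), ((3, 2), (5, 6), 6), ((5, 0), (1, 0), 2), ((5, 0), (1, 2), 1), ((5, 0), (1, 5),
    3), ((5, 0), (1, 7), 4), ((5, 6), (1, 0), 2), ((5, 6), (1, 2), 1), ((5, 6), (1, 5), 3),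
    ((5, 6), (1, 7), 4), ((6, 5), (6, 3), 0), ((6, 5), (6, 5), 3)]
  G := [[0, 0x181112116f4281161111111ea28c, 0, 0x71a121c26f21d83944e241,
    0xf1b1426d71d1a4cb6481], [0, 0x82a211adc4262822828222442116f82cc, 0x11a14141161818c,
    0x222224e28d2a3f81e241, 0x28a252ad42484b6b6181]]

noncomputable def n2460 : Ent := ⟨e2460, noF, [], [], []⟩

def c2460 : PLift (Cov.check n2460.C.D v2460 = true) := ⟨by decide +kernel⟩

def b2460 : PLift (entF (fidx ts) 400 2460 n2460 = true) := ⟨by decide +kernel⟩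

theorem g2460 : GoodF (fidx ts) 400 2460 := GoodF.ofV v2460 n2460 c2460.down b2460.down

/-- 4746644:1951/5 -/
noncomputable def e2461 : SCfg where
  D := {
    a := 7
    L := 9
    kp := 7
    inn := [(0, 1), (1, 0), (1, 2), (1, 3), (2, 1), (3, 1), (3, 4), (3, 5), (4, 3), (4, 5), (4, 6), (5,
      3), (5, 4), (6, 4)]
    mix := [(0, 0), (0, 1), (0, 2), (1, 0), (1, 2), (1, 3), (1, 4), (2, 2), (2, 3), (2, 5), (3, 3), (3,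
      4), (3, 6), (4, 6), (4, 7), (4, 8), (5, 4), (5, 8), (6, 1), (6, 7), (6, 8)]
    cl := [1, 2, 3, 0, 0, 7, 5, 6, 4]
    chq := [(0, 2), (1, 3), (1, 7), (2, 0), (2, 5), (3, 1), (5, 2), (7, 1)]
    rng := [(0, 1), (0, 4), (1, 0), (1, 2), (1, 7), (1, 8), (2, 1), (2, 5), (3, 5), (3, 6), (4, 0), (4,
      8), (5, 2), (5, 3), (6, 3), (6, 7), (7, 1), (7, 6), (8, 1), (8, 4)]
    lev := [] }
  links := [[1, 7, 8, 9], [7, 0, 9, 2, 10, 3, 11], [10, 1, 9, 12], [11, 1, 10, 13, 4, 5], [5, 3, 13, 14,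
    6, 15], [11, 3, 4, 15], [15, 4, 14, 8]]
  P := {
    a := 7
    N := 16
    nb := [898, 3725, 5634, 11314, 57448, 34840, 49424, 2307, 49857, 4359, 12302, 32938, 1540, 17432,
      8528, 2416]
    tri := [(0, 1, 7), (0, 1, 9), (0, 7, 8), (0, 8, 9), (1, 2, 9), (1, 2, 10), (1, 3, 10), (1, 3, 11),
      (1, 7, 11), (2, 9, 12), (2, 10, 12), (3, 4, 5), (3, 4, 13), (3, 5, 11), (3, 10, 13), (4, 5,
      15), (4, 6, 14), (4, 6, 15), (4, 13, 14), (5, 11, 15), (6, 8, 14), (6, 8, 15)]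
    fin := [0, 0, 0, 3, 4, 4, 4, 0, 4, 9, 3, 3, 12, 13, 14, 15]
    chd := [(0, 9), (0, 12), (4, 3), (4, 13)]
    steps := [(0, 1), (0, 2), (0, 7), (3, 10), (3, 11), (4, 5), (4, 6), (4, 8)] }
  rep := [3, 0, 4, 9, 15, 13, 14, 12]

noncomputable def v2461 : Cov.CovD where
  P := 3
  N := 5
  pl := [7, 8]
  lev := [⟨[], [], [(1, 2), (1, 3), (2, 3)], [], [(0, 1, [3, 7]), (1, 2, [0, 5]), (2, 3, [1])]⟩,
    ⟨[], [(0, 0), (0, 1), (0, 2), (0, 3)], [(0, 0), (0, 1), (0, 3), (1, 3)], [], [(0, 1,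
      [3, 7]), (2, 3, [1]), (3, 0, [2]), (4, 0, [2])]⟩,
    ⟨[(0, 1)], [(0, 3), (1, 0), (1, 1), (1, 3), (1, 7)], [(0, 3), (0, 7), (3, 7)], [], [(2,
      3, [1]), (3, 0, [2]), (5, 7, [1])]⟩,
    ⟨[(0, 1), (1, 2)], [(1, 0), (1, 1), (1, 3), (1, 5), (2, 0)], [(0, 0), (0, 5)], [], [(3,
      0, [2]), (4, 0, [2]), (6, 5, [2])]⟩,
    ⟨[(1, 3)], [(3, 0), (3, 5)], [], [4, 6], [(6, 5, [2])]⟩,
    ⟨[(1, 3), (3, 4)], [(1, 0), (3, 0), (3, 5), (4, 0), (4, 5)], [], [4], [(4, 0, [2])]⟩,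
    ⟨[(3, 4), (4, 5)], [(0, 2), (4, 2), (4, 5)], [], [4, 6], [(1, 2, [0, 5])]⟩]
  Ta := [((3, 5), 0, 7), ((3, 6), 0, 5), ((4, 0), 0, 1), ((4, 8), 0, 4)]
  Tb := [((0, 1, 4), 1, 2, 0), ((1, 0, 2), 2, 1, 3), ((1, 0, 7), 2, 1, 6), ((1, 0, 8), 2, 1, 4),
    ((1, 2, 7), 2, 3, 6), ((1, 2, 8), 2, 3, 4), ((1, 7, 8), 2, 6, 4), ((2, 1, 5), 3, 2, 7),
    ((3, 5, 6), 0, 7, 5), ((4, 0, 8), 0, 1, 4), ((5, 2, 3), 7, 3, 0), ((6, 3, 7), 5, 0, 6),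
    ((7, 1, 6), 6, 2, 5), ((8, 1, 4), 4, 2, 0)]
  Tc := [(1, 3, 7), (2, 0, 5)]
  Td := [((0, 2), (3, 5), 7), ((0, 2), (3, 6), 5), ((0, 2), (4, 0), 1), ((0, 2), (4, 8), 4), ((1,
    3), (0, 1), 2), ((1, 3), (0, 4), 0), ((1, 7), (0, 1), 2), ((1, 7), (0, 4), 0), ((2, 0),
    (1, 0), 1), ((2, 0), (1, 2), 3), ((2, 0), (1, 7), 6), ((2, 0), (1, 8), 4), ((2, 5), (1,
    0), 1), ((2, 5), (1, 2), 3), ((2, 5), (1, 7), 6), ((2, 5), (1, 8), 4), ((3, 1), (2, 1),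
    2), ((3, 1), (2, 5), 7), ((5, 2), (6, 3), 0), ((5, 2), (6, 7), 6), ((7, 1), (5, 2), 3),
    ((7, 1), (5, 3), 0)]
  G := [[0, 0, 0x842e1ca6162c6a1842e1a1c1, 0xd12228d12224c, 0x81b12111af428214812111ab914e249],
    [0, 0x6842c84c11cf21868a484c11cf214c, 0xca61a6c162c6a1a6c1a2c1, 0x95c222895c2224c,
    0x48a82a24a411ef428a448211a993a886e149]]

noncomputable def n2461 : Ent := ⟨e2461, noF, [], [], [(12, 14, [385746751338780685620664494392815470296102193487288376382570497, 0])]⟩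

def c2461 : PLift (Cov.check n2461.C.D v2461 = true) := ⟨by decide +kernel⟩

def b2461 : PLift (entF (fidx ts) 400 2461 n2461 = true) := ⟨by decide +kernel⟩

theorem g2461 : GoodF (fidx ts) 400 2461 := GoodF.ofV v2461 n2461 c2461.down b2461.down

/-- 4746644:1951/7 -/
noncomputable def e2462 : SCfg where
  D := {
    a := 7
    L := 9
    kp := 7
    inn := [(0, 1), (1, 0), (1, 2), (1, 3), (2, 1), (3, 1), (3, 4), (3, 5), (4, 3), (4, 5), (4, 6), (5,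
      3), (5, 4), (6, 4)]
    mix := [(0, 0), (0, 1), (0, 2), (1, 0), (1, 2), (1, 3), (1, 4), (2, 2), (2, 3), (2, 5), (3, 3), (3,
      4), (3, 6), (4, 5), (4, 6), (4, 7), (5, 4), (5, 7), (6, 5), (6, 7), (6, 8)]
    cl := [2, 7, 3, 0, 0, 4, 5, 1, 6]
    chq := [(1, 5), (2, 3), (2, 4), (3, 2), (4, 2), (5, 1), (5, 6), (6, 5)]
    rng := [(0, 1), (0, 4), (1, 0), (1, 2), (2, 1), (2, 5), (3, 5), (3, 6), (4, 0), (4, 7), (5, 2), (5,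
      3), (5, 6), (5, 8), (6, 3), (6, 5), (7, 4), (7, 8), (8, 5), (8, 7)]
    lev := [] }
  links := [[1, 7, 8, 9], [7, 0, 9, 2, 10, 3, 11], [10, 1, 9, 12], [11, 1, 10, 13, 4, 5], [5, 3, 13, 12,
    6, 14], [11, 3, 4, 14], [14, 4, 12, 15]]
  P := {
    a := 7
    N := 16
    nb := [898, 3725, 5634, 11314, 28776, 18456, 53264, 2307, 641, 4359, 12302, 16554, 42580, 5144,
      34928, 20544]
    tri := [(0, 1, 7), (0, 1, 9), (0, 7, 8), (0, 8, 9), (1, 2, 9), (1, 2, 10), (1, 3, 10), (1, 3, 11),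
      (1, 7, 11), (2, 9, 12), (2, 10, 12), (3, 4, 5), (3, 4, 13), (3, 5, 11), (3, 10, 13), (4, 5,
      14), (4, 6, 12), (4, 6, 14), (4, 12, 13), (5, 11, 14), (6, 12, 15), (6, 14, 15)]
    fin := [0, 0, 0, 3, 4, 3, 4, 0, 8, 9, 3, 3, 12, 4, 14, 15]
    chd := [(0, 9), (0, 12), (4, 14), (4, 15)]
    steps := [(0, 1), (0, 2), (0, 7), (3, 5), (3, 10), (3, 11), (4, 6), (4, 13)] }
  rep := [3, 14, 0, 9, 12, 4, 15, 8]

noncomputable def v2462 : Cov.CovD where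
  P := 3
  N := 5
  pl := [1]
  lev := [⟨[], [], [(2, 3)], [7], [(0, 2, [3, 4]), (2, 3, [2])]⟩,
    ⟨[], [(0, 0), (0, 2), (0, 3)], [(0, 0), (0, 2), (0, 3), (2, 3)], [], [(0, 2, [3, 4]),
      (2, 3, [2]), (3, 0, []), (4, 0, [])]⟩,
    ⟨[(0, 1)], [(0, 3), (1, 0), (1, 2), (1, 3), (1, 4)], [(0, 3), (0, 4), (3, 4)], [], [(2,
      3, [2]), (3, 0, []), (5, 4, [2])]⟩,
    ⟨[(0, 1), (1, 2)], [(1, 0), (1, 2), (1, 3), (1, 5), (2, 0)], [(0, 0), (0, 5)], [], [(3,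
      0, []), (4, 0, []), (6, 5, [1, 6])]⟩,
    ⟨[(1, 3)], [(2, 4), (3, 0), (3, 1), (3, 4), (3, 5)], [(1, 4), (1, 5), (4, 5)], [], [(5,
      4, [2]), (6, 5, [1, 6]), (7, 1, [5])]⟩,
    ⟨[(1, 3), (3, 4)], [(1, 0), (3, 0), (3, 1), (3, 5), (4, 0), (4, 1), (4, 4), (4, 5)],
      [(0, 1)], [], [(4, 0, []), (7, 1, [5])]⟩,
    ⟨[(3, 4), (4, 5)], [(2, 4), (4, 1), (4, 4), (4, 5), (4, 6), (5, 1)], [(1, 4), (1, 6),
      (4, 6)], [], [(5, 4, [2]), (7, 1, [5]), (8, 6, [5])]⟩]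
  Ta := [((3, 5), 0, 4), ((3, 6), 0, 5), ((4, 0), 0, 2), ((4, 7), 0, 1)]
  Tb := [((0, 1, 4), 2, 7, 0), ((1, 0, 2), 7, 2, 3), ((2, 1, 5), 3, 7, 4), ((3, 5, 6), 0, 4, 5),
    ((4, 0, 7), 0, 2, 1), ((5, 2, 3), 4, 3, 0), ((5, 2, 6), 4, 3, 5), ((5, 2, 8), 4, 3, 6),
    ((5, 3, 6), 4, 0, 5), ((5, 3, 8), 4, 0, 6), ((5, 6, 8), 4, 5, 6), ((6, 3, 5), 5, 0, 4),
    ((7, 4, 8), 1, 0, 6), ((8, 5, 7), 6, 4, 1)]
  Tc := [(2, 3, 4), (5, 1, 6)]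
  Td := [((1, 5), (7, 4), 0), ((1, 5), (7, 8), 6), ((2, 3), (0, 1), 7), ((2, 3), (0, 4), 0), ((2,
    4), (0, 1), 7), ((2, 4), (0, 4), 0), ((3, 2), (2, 1), 7), ((3, 2), (2, 5), 4), ((4, 2),
    (5, 2), 3), ((4, 2), (5, 3), 0), ((4, 2), (5, 6), 5), ((4, 2), (5, 8), 6), ((5, 1), (6,
    3), 0), ((5, 1), (6, 5), 4), ((5, 6), (6, 3), 0), ((5, 6), (6, 5), 4), ((6, 5), (8, 5),
    4), ((6, 5), (8, 7), 1)]
  G := [[0, 0, 0, 0x5894c4d2285498c4d2245191c8d225198c4d22cd,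
    0x5191c4d2485144998c85c425491c8d2491c8524424c86ab], [0,
    0x2222c6482c4e6286224ca2c46a244422428c8ec12228c2e882c1cd, 0xd81218d81214d41d81c12e,
    0xd81228d81224d8122d8122cd, 0xd81248441d41c4258121241c41a1ab]]

noncomputable def n2462 : Ent := ⟨e2462, noF, [], [], [(8, 15, [360035742630636841211993100915356868655746945586763691017748481, 0])]⟩

def c2462 : PLift (Cov.check n2462.C.D v2462 = true) := ⟨by decide +kernel⟩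

def b2462 : PLift (entF (fidx ts) 400 2462 n2462 = true) := ⟨by decide +kernel⟩

theorem g2462 : GoodF (fidx ts) 400 2462 := GoodF.ofV v2462 n2462 c2462.down b2462.down

/-- 4746644:1951/8 -/
noncomputable def e2463 : SCfg where
  D := {
    a := 7
    L := 9
    kp := 7
    inn := [(0, 1), (1, 0), (1, 2), (1, 3), (2, 1), (3, 1), (3, 4), (3, 5), (4, 3), (4, 5), (4, 6), (5,
      3), (5, 4), (6, 4)]
    mix := [(0, 0), (0, 1), (0, 2), (1, 0), (1, 2), (1, 3), (1, 4), (2, 2), (2, 3), (2, 5), (3, 3), (3,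
      4), (3, 6), (4, 6), (4, 7), (4, 8), (5, 4), (5, 8), (6, 5), (6, 7), (6, 8)]
    cl := [1, 7, 3, 0, 0, 2, 5, 6, 4]
    chq := [(1, 2), (1, 3), (2, 1), (2, 5), (3, 1), (4, 5), (5, 2), (5, 4)]
    rng := [(0, 1), (0, 4), (1, 0), (1, 2), (2, 1), (2, 5), (3, 5), (3, 6), (4, 0), (4, 8), (5, 2), (5,
      3), (5, 7), (5, 8), (6, 3), (6, 7), (7, 5), (7, 6), (8, 4), (8, 5)]
    lev := [] }
  links := [[1, 7, 8, 9], [7, 0, 9, 2, 10, 3, 11], [10, 1, 9, 12], [11, 1, 10, 13, 4, 5], [5, 3, 13, 14,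
    6, 15], [11, 3, 4, 15], [15, 4, 14, 12]]
  P := {
    a := 7
    N := 16
    nb := [898, 3725, 5634, 11314, 57448, 34840, 53264, 2307, 641, 4359, 12302, 32938, 50756, 17432,
      12368, 6256]
    tri := [(0, 1, 7), (0, 1, 9), (0, 7, 8), (0, 8, 9), (1, 2, 9), (1, 2, 10), (1, 3, 10), (1, 3, 11),
      (1, 7, 11), (2, 9, 12), (2, 10, 12), (3, 4, 5), (3, 4, 13), (3, 5, 11), (3, 10, 13), (4, 5,
      15), (4, 6, 14), (4, 6, 15), (4, 13, 14), (5, 11, 15), (6, 12, 14), (6, 12, 15)]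
    fin := [0, 0, 0, 3, 4, 3, 6, 0, 8, 9, 3, 3, 6, 4, 14, 15]
    chd := [(0, 6), (0, 9), (4, 15), (6, 4)]
    steps := [(0, 1), (0, 2), (0, 7), (3, 5), (3, 10), (3, 11), (4, 13), (6, 12)] }
  rep := [3, 0, 6, 9, 15, 4, 14, 8]

noncomputable def v2463 : Cov.CovD where
  P := 3
  N := 5
  pl := [1, 7]
  lev := [⟨[], [], [(1, 3)], [7], [(0, 1, [2, 3]), (2, 3, [1])]⟩,
    ⟨[], [(0, 0), (0, 1), (0, 3)], [(0, 0), (0, 1), (0, 3), (1, 3)], [], [(0, 1, [2, 3]),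
      (2, 3, [1]), (3, 0, []), (4, 0, [])]⟩,
    ⟨[(0, 1)], [(0, 3), (1, 0), (1, 1), (1, 2), (1, 3)], [(0, 2), (0, 3), (2, 3)], [], [(2,
      3, [1]), (3, 0, []), (5, 2, [1, 5])]⟩,
    ⟨[(0, 1), (1, 2)], [(1, 0), (1, 1), (1, 3), (1, 5), (2, 0)], [(0, 0), (0, 5)], [], [(3,
      0, []), (4, 0, []), (6, 5, [2, 4])]⟩,
    ⟨[(1, 3)], [(3, 0), (3, 4), (3, 5)], [(4, 5)], [6], [(6, 5, [2, 4]), (8, 4, [5])]⟩,
    ⟨[(1, 3), (3, 4)], [(1, 0), (3, 0), (3, 4), (3, 5), (4, 0), (4, 4), (4, 5)], [(0, 4)],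
      [], [(4, 0, []), (8, 4, [5])]⟩,
    ⟨[(3, 4), (4, 5)], [(2, 2), (4, 2), (4, 4), (4, 5), (5, 4)], [(2, 4)], [6], [(5, 2, [1,
      5]), (8, 4, [5])]⟩]
  Ta := [((3, 5), 0, 2), ((3, 6), 0, 5), ((4, 0), 0, 1), ((4, 8), 0, 4)]
  Tb := [((0, 1, 4), 1, 7, 0), ((1, 0, 2), 7, 1, 3), ((2, 1, 5), 3, 7, 2), ((3, 5, 6), 0, 2, 5),
    ((4, 0, 8), 0, 1, 4), ((5, 2, 3), 2, 3, 0), ((5, 2, 7), 2, 3, 6), ((5, 2, 8), 2, 3, 4),
    ((5, 3, 7), 2, 0, 6), ((5, 3, 8), 2, 0, 4), ((5, 7, 8), 2, 6, 4), ((6, 3, 7), 5, 0, 6),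
    ((7, 5, 6), 6, 2, 5), ((8, 4, 5), 4, 0, 2)]
  Tc := [(1, 2, 3), (2, 1, 5), (5, 2, 4)]
  Td := [((1, 2), (0, 1), 7), ((1, 2), (0, 4), 0), ((1, 3), (0, 1), 7), ((1, 3), (0, 4), 0), ((2,
    1), (5, 2), 3), ((2, 1), (5, 3), 0), ((2, 1), (5, 7), 6), ((2, 1), (5, 8), 4), ((2, 5),
    (5, 2), 3), ((2, 5), (5, 3), 0), ((2, 5), (5, 7), 6), ((2, 5), (5, 8), 4), ((3, 1), (2,
    1), 7), ((3, 1), (2, 5), 2), ((4, 5), (8, 4), 0), ((4, 5), (8, 5), 2), ((5, 2), (6, 3),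
    0), ((5, 2), (6, 7), 6), ((5, 4), (6, 3), 0), ((5, 4), (6, 7), 6)]
  G := [[0, 0, 0xe21e41628e21a4c1a24e21e4162e21a4c1a4cd, 0xd1228d1224c2,
    0x81b12111af428313122d88819187a24b1442214222181ab8191ce2cd], [0,
    0x84c244884411cf61868a484c11cf214444414b8888187c12e, 0, 0x95c22295c222c2,
    0x48a82a24a11af42822a212da888187a2493a44822a2c2812388145e2cd]]

noncomputable def n2463 : Ent := ⟨e2463, noF, [], [], [(8, 14, [385746751338780685620664494392815470296102193487288376382562305, 0])]⟩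

def c2463 : PLift (Cov.check n2463.C.D v2463 = true) := ⟨by decide +kernel⟩

def b2463 : PLift (entF (fidx ts) 400 2463 n2463 = true) := ⟨by decide +kernel⟩

theorem g2463 : GoodF (fidx ts) 400 2463 := GoodF.ofV v2463 n2463 c2463.down b2463.down

/-- 4746644:1951 -/
noncomputable def e2464 : SCfg where
  D := {
    a := 7
    L := 10
    kp := 8
    inn := [(0, 1), (1, 0), (1, 2), (1, 3), (2, 1), (3, 1), (3, 4), (3, 5), (4, 3), (4, 5), (4, 6), (5,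
      3), (5, 4), (6, 4)]
    mix := [(0, 0), (0, 1), (0, 2), (1, 0), (1, 2), (1, 3), (1, 4), (2, 2), (2, 3), (2, 5), (3, 3), (3,
      4), (3, 6), (4, 6), (4, 7), (4, 8), (5, 4), (5, 8), (6, 7), (6, 8), (6, 9)]
    cl := [1, 8, 3, 0, 0, 6, 2, 5, 4, 7]
    chq := [(1, 3), (1, 6), (2, 4), (2, 7), (3, 1), (4, 2), (6, 1), (7, 2)]
    rng := [(0, 1), (0, 4), (1, 0), (1, 2), (2, 1), (2, 5), (3, 5), (3, 6), (4, 0), (4, 8), (5, 2), (5,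
      3), (6, 3), (6, 7), (7, 6), (7, 9), (8, 4), (8, 9), (9, 7), (9, 8)]
    lev := [] }
  links := [[1, 7, 8, 9], [7, 0, 9, 2, 10, 3, 11], [10, 1, 9, 12], [11, 1, 10, 13, 4, 5], [5, 3, 13, 14,
    6, 15], [11, 3, 4, 15], [15, 4, 14, 16]]
  P := {
    a := 7
    N := 17
    nb := [898, 3725, 5634, 11314, 57448, 34840, 114704, 2307, 641, 4359, 12302, 32938, 1540, 17432,
      73808, 67696, 49216]
    tri := [(0, 1, 7), (0, 1, 9), (0, 7, 8), (0, 8, 9), (1, 2, 9), (1, 2, 10), (1, 3, 10), (1, 3, 11),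
      (1, 7, 11), (2, 9, 12), (2, 10, 12), (3, 4, 5), (3, 4, 13), (3, 5, 11), (3, 10, 13), (4, 5,
      15), (4, 6, 14), (4, 6, 15), (4, 13, 14), (5, 11, 15), (6, 14, 16), (6, 15, 16)]
    fin := [0, 0, 0, 3, 4, 3, 4, 0, 8, 9, 3, 3, 12, 4, 14, 15, 16]
    chd := [(0, 9), (0, 12), (4, 15), (4, 16)]
    steps := [(0, 1), (0, 2), (0, 7), (3, 5), (3, 10), (3, 11), (4, 6), (4, 13)] }
  rep := [3, 0, 4, 9, 15, 14, 12, 16, 8]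

noncomputable def v2464 : Cov.CovD where
  P := 3
  N := 6
  pl := [1, 7]
  lev := [⟨[], [], [(1, 3)], [8], [(0, 1, [3, 6]), (2, 3, [1])]⟩,
    ⟨[], [(0, 0), (0, 1), (0, 3)], [(0, 0), (0, 1), (0, 3), (1, 3)], [], [(0, 1, [3, 6]),
      (2, 3, [1]), (3, 0, []), (4, 0, [])]⟩,
    ⟨[(0, 1)], [(0, 3), (1, 0), (1, 1), (1, 3), (1, 6)], [(0, 3), (0, 6), (3, 6)], [], [(2,
      3, [1]), (3, 0, []), (5, 6, [1])]⟩,
    ⟨[(0, 1), (1, 2)], [(1, 0), (1, 1), (1, 2), (1, 3), (2, 0)], [(0, 0), (0, 2)], [], [(3,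
      0, []), (4, 0, []), (6, 2, [4, 7])]⟩,
    ⟨[(1, 3)], [(3, 0), (3, 2), (3, 4)], [(2, 4)], [5], [(6, 2, [4, 7]), (8, 4, [2])]⟩,
    ⟨[(1, 3), (3, 4)], [(1, 0), (3, 0), (3, 2), (3, 4), (4, 0), (4, 2), (4, 4)], [(0, 4)],
      [], [(4, 0, []), (8, 4, [2])]⟩,
    ⟨[(3, 4), (4, 5)], [(4, 2), (4, 4), (4, 7), (5, 4)], [(4, 7)], [5], [(8, 4, [2]), (9,
      7, [2])]⟩]
  Ta := [((3, 5), 0, 6), ((3, 6), 0, 2), ((4, 0), 0, 1), ((4, 8), 0, 4)]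
  Tb := [((0, 1, 4), 1, 8, 0), ((1, 0, 2), 8, 1, 3), ((2, 1, 5), 3, 8, 6), ((3, 5, 6), 0, 6, 2),
    ((4, 0, 8), 0, 1, 4), ((5, 2, 3), 6, 3, 0), ((6, 3, 7), 2, 0, 5), ((7, 6, 9), 5, 2, 7),
    ((8, 4, 9), 4, 0, 7), ((9, 7, 8), 7, 5, 4)]
  Tc := [(1, 3, 6), (2, 4, 7)]
  Td := [((1, 3), (0, 1), 8), ((1, 3), (0, 4), 0), ((1, 6), (0, 1), 8), ((1, 6), (0, 4), 0), ((2,
    4), (6, 3), 0), ((2, 4), (6, 7), 5), ((2, 7), (6, 3), 0), ((2, 7), (6, 7), 5), ((3, 1),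
    (2, 1), 8), ((3, 1), (2, 5), 6), ((4, 2), (8, 4), 0), ((4, 2), (8, 9), 7), ((6, 1), (5,
    2), 3), ((6, 1), (5, 3), 0), ((7, 2), (9, 7), 5), ((7, 2), (9, 8), 4)]
  G := [[0, 0, 0x181411e228111112e824181111e42181111e22cd,
    0x2821f2d4282124f2d82421f25288c2614a2329c2cd,
    0xc44174b2284141f4b824c14174b224141f4b82cd], [0, 0x2822f2d4182224f2d8142822f2d412e, 0,
    0x2ca2272d42862a4f2d82468a2272d4122e2b2d81cd,
    0x68c4474b22854a56c4b824e44474b22e44474b21cd]]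

noncomputable def n2464 : Ent := ⟨e2464, noF, [], [], [(7, 16, [1580044410770988437309982408355971841652082177953823432505699176449, 0]), (8, 14, [1685382413448253767852309107433119732572617628602273068445374984193, 0]), (8, 16, [1580044410770988437309982408355971841652082177953823432505699192833, 0]), (12, 14, [1685382413448253767852309107433119732572617628602273068445374996481, 0]), (12, 16, [1580044410770988437309982408355971841652082177953823432505699201025, 0])]⟩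

def c2464 : PLift (Cov.check n2464.C.D v2464 = true) := ⟨by decide +kernel⟩

def b2464 : PLift (entF (fidx ts) 400 2464 n2464 = true) := ⟨by decide +kernel⟩

theorem g2464 : GoodF (fidx ts) 400 2464 := GoodF.ofV v2464 n2464 c2464.down b2464.down

/-- 4746646:1952/2 -/
noncomputable def e2465 : SCfg where
  D := {
    a := 7
    L := 9
    kp := 7
    inn := [(0, 1), (1, 0), (1, 2), (1, 3), (2, 1), (3, 1), (3, 4), (3, 5), (4, 3), (4, 5), (4, 6), (5,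
      3), (5, 4), (5, 6), (6, 4), (6, 5)]
    mix := [(0, 0), (0, 1), (0, 2), (1, 0), (1, 2), (1, 3), (1, 4), (2, 2), (2, 3), (2, 5), (3, 3), (3,
      4), (3, 6), (4, 6), (4, 7), (4, 8), (5, 4), (6, 0), (6, 1), (6, 4), (6, 8)]
    cl := [1, 2, 3, 0, 0, 6, 4, 7, 5]
    chq := [(1, 3), (1, 4), (1, 6), (2, 4), (3, 1), (4, 1), (4, 2), (4, 5), (5, 4), (6, 1)]
    rng := [(0, 1), (0, 4), (1, 0), (1, 2), (1, 8), (2, 1), (2, 5), (3, 5), (3, 6), (4, 0), (5, 2), (5,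
      3), (6, 3), (6, 7), (7, 6), (7, 8), (8, 1), (8, 7)]
    lev := [] }
  links := [[1, 7, 8, 9], [7, 0, 9, 2, 10, 3, 11], [10, 1, 9, 12], [11, 1, 10, 13, 4, 5], [5, 3, 13, 14,
    15, 6], [11, 3, 4, 6], [11, 5, 4, 15, 8, 7]]
  P := {
    a := 7
    N := 16
    nb := [898, 3725, 5634, 11314, 57448, 2136, 35248, 2371, 33473, 4359, 12302, 234, 1540, 17432,
      40976, 16720]
    tri := [(0, 1, 7), (0, 1, 9), (0, 7, 8), (0, 8, 9), (1, 2, 9), (1, 2, 10), (1, 3, 10), (1, 3, 11),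
      (1, 7, 11), (2, 9, 12), (2, 10, 12), (3, 4, 5), (3, 4, 13), (3, 5, 11), (3, 10, 13), (4, 5,
      6), (4, 6, 15), (4, 13, 14), (4, 14, 15), (5, 6, 11), (6, 7, 8), (6, 7, 11), (6, 8, 15)]
    fin := [0, 0, 0, 3, 4, 3, 4, 0, 8, 9, 3, 3, 12, 4, 14, 15]
    chd := [(0, 4), (0, 9), (0, 12), (4, 15), (8, 4)]
    steps := [(0, 1), (0, 2), (0, 7), (3, 5), (3, 10), (3, 11), (4, 6), (4, 13)] }
  rep := [3, 0, 8, 9, 4, 15, 12, 14]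

noncomputable def v2465 : Cov.CovD where
  P := 3
  N := 5
  pl := [7]
  lev := [⟨[], [], [(1, 2), (1, 3), (2, 3)], [], [(0, 1, [3, 4, 6]), (1, 2, [4]), (2, 3, [1])]⟩,
    ⟨[], [(0, 0), (0, 1), (0, 2), (0, 3)], [(0, 0), (0, 1), (0, 3), (1, 3)], [], [(0, 1,
      [3, 4, 6]), (2, 3, [1]), (3, 0, []), (4, 0, [])]⟩,
    ⟨[(0, 1)], [(0, 3), (1, 0), (1, 1), (1, 3), (1, 6)], [(0, 3), (0, 6), (3, 6)], [], [(2,
      3, [1]), (3, 0, []), (5, 6, [1])]⟩,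
    ⟨[(0, 1), (1, 2)], [(1, 0), (1, 1), (1, 3), (1, 4), (2, 0)], [(0, 0), (0, 4)], [], [(3,
      0, []), (4, 0, []), (6, 4, [1, 2, 5])]⟩,
    ⟨[(1, 3)], [(3, 0), (3, 4), (3, 5)], [(4, 5)], [7], [(6, 4, [1, 2, 5]), (8, 5, [4])]⟩,
    ⟨[(1, 3), (3, 4)], [(1, 0), (3, 0), (3, 4), (4, 0), (4, 4), (4, 5)], [], [], [(4, 0,
      [])]⟩,
    ⟨[(3, 4), (3, 5), (4, 5)], [(0, 1), (0, 2), (1, 0), (1, 1), (3, 0), (4, 0), (4, 1), (4,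
      2), (4, 4), (4, 5), (5, 0), (5, 1), (5, 2), (5, 5)], [(0, 1), (0, 2), (0, 5), (1, 2),
      (1, 5), (2, 5)], [], [(0, 1, [3, 4, 6]), (1, 2, [4]), (4, 0, []), (8, 5, [4])]⟩]
  Ta := [((3, 5), 0, 6), ((3, 6), 0, 4), ((4, 0), 0, 1)]
  Tb := [((0, 1, 4), 1, 2, 0), ((1, 0, 2), 2, 1, 3), ((1, 0, 8), 2, 1, 5), ((1, 2, 8), 2, 3, 5),
    ((2, 1, 5), 3, 2, 6), ((3, 5, 6), 0, 6, 4), ((5, 2, 3), 6, 3, 0), ((6, 3, 7), 4, 0, 7),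
    ((7, 6, 8), 7, 4, 5), ((8, 1, 7), 5, 2, 7)]
  Tc := [(1, 3, 4), (1, 3, 6), (1, 4, 6), (4, 1, 2), (4, 1, 5), (4, 2, 5)]
  Td := [((1, 3), (0, 1), 2), ((1, 3), (0, 4), 0), ((1, 4), (0, 1), 2), ((1, 4), (0, 4), 0), ((1,
    6), (0, 1), 2), ((1, 6), (0, 4), 0), ((2, 4), (1, 0), 1), ((2, 4), (1, 2), 3), ((2, 4),
    (1, 8), 5), ((3, 1), (2, 1), 2), ((3, 1), (2, 5), 6), ((4, 1), (6, 3), 0), ((4, 1), (6,
    7), 7), ((4, 2), (6, 3), 0), ((4, 2), (6, 7), 7), ((4, 5), (6, 3), 0), ((4, 5), (6, 7),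
    7), ((5, 4), (8, 1), 2), ((5, 4), (8, 7), 7), ((6, 1), (5, 2), 3), ((6, 1), (5, 3), 0)]
  G := [[0, 0, 0x8441c1c8f2288448c1c4f224c, 0x8248c1c2f228814158c4f224c,
    0x841a394a4f2288418998a8f2249], [0, 0x8448c8c4f2188448c4c8f214c,
    0x8448c8c4f2288448c4c8f224c, 0x4242c4c4f2288448c8c4f224c,
    0x84622864ac562884a848ca46f2149]]

noncomputable def n2465 : Ent := ⟨e2465, noF, [], [], []⟩

def c2465 : PLift (Cov.check n2465.C.D v2465 = true) := ⟨by decide +kernel⟩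

def b2465 : PLift (entF (fidx ts) 400 2465 n2465 = true) := ⟨by decide +kernel⟩

theorem g2465 : GoodF (fidx ts) 400 2465 := GoodF.ofV v2465 n2465 c2465.down b2465.down

/-- 4746646:1952/1 -/
noncomputable def e2466 : SCfg where
  D := {
    a := 7
    L := 10
    kp := 8
    inn := [(0, 1), (1, 0), (1, 2), (1, 3), (2, 1), (3, 1), (3, 4), (3, 5), (4, 3), (4, 5), (4, 6), (5,
      3), (5, 4), (5, 6), (6, 4), (6, 5)]
    mix := [(0, 0), (0, 1), (0, 2), (1, 0), (1, 2), (1, 3), (1, 4), (2, 2), (2, 3), (2, 5), (3, 3), (3,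
      4), (3, 6), (4, 6), (4, 7), (4, 8), (5, 4), (6, 0), (6, 4), (6, 8), (6, 9)]
    cl := [1, 7, 3, 0, 0, 5, 2, 8, 4, 6]
    chq := [(1, 2), (1, 3), (1, 5), (2, 1), (2, 4), (2, 6), (3, 1), (4, 2), (5, 1), (6, 2)]
    rng := [(0, 1), (0, 4), (0, 9), (1, 0), (1, 2), (2, 1), (2, 5), (3, 5), (3, 6), (4, 0), (5, 2), (5,
      3), (6, 3), (6, 7), (7, 6), (7, 8), (8, 7), (8, 9), (9, 0), (9, 8)]
    lev := [] }
  links := [[1, 7, 8, 9], [7, 0, 9, 2, 10, 3, 11], [10, 1, 9, 12], [11, 1, 10, 13, 4, 5], [5, 3, 13, 14,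
    15, 6], [11, 3, 4, 6], [11, 5, 4, 15, 16, 7]]
  P := {
    a := 7
    N := 17
    nb := [898, 3725, 5634, 11314, 57448, 2136, 100528, 67907, 641, 4359, 12302, 234, 1540, 17432,
      40976, 82000, 32960]
    tri := [(0, 1, 7), (0, 1, 9), (0, 7, 8), (0, 8, 9), (1, 2, 9), (1, 2, 10), (1, 3, 10), (1, 3, 11),
      (1, 7, 11), (2, 9, 12), (2, 10, 12), (3, 4, 5), (3, 4, 13), (3, 5, 11), (3, 10, 13), (4, 5,
      6), (4, 6, 15), (4, 13, 14), (4, 14, 15), (5, 6, 11), (6, 7, 11), (6, 7, 16), (6, 15, 16)]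
    fin := [0, 0, 0, 3, 4, 3, 4, 0, 8, 9, 3, 3, 12, 4, 14, 15, 16]
    chd := [(0, 4), (0, 9), (0, 12), (4, 15), (4, 16)]
    steps := [(0, 1), (0, 2), (0, 7), (3, 5), (3, 10), (3, 11), (4, 6), (4, 13)] }
  rep := [3, 0, 4, 9, 15, 12, 16, 8, 14]

noncomputable def v2466 : Cov.CovD where
  P := 3
  N := 6
  pl := [1, 7]
  lev := [⟨[], [], [(1, 3)], [7], [(0, 1, [2, 3, 5]), (2, 3, [1])]⟩,
    ⟨[], [(0, 0), (0, 1), (0, 3)], [(0, 0), (0, 1), (0, 3), (1, 3)], [], [(0, 1, [2, 3,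
      5]), (2, 3, [1]), (3, 0, []), (4, 0, [])]⟩,
    ⟨[(0, 1)], [(0, 3), (1, 0), (1, 1), (1, 3), (1, 5)], [(0, 3), (0, 5), (3, 5)], [], [(2,
      3, [1]), (3, 0, []), (5, 5, [1])]⟩,
    ⟨[(0, 1), (1, 2)], [(1, 0), (1, 1), (1, 2), (1, 3), (2, 0)], [(0, 0), (0, 2)], [], [(3,
      0, []), (4, 0, []), (6, 2, [1, 4, 6])]⟩,
    ⟨[(1, 3)], [(3, 0), (3, 2), (3, 4)], [(2, 4)], [8], [(6, 2, [1, 4, 6]), (8, 4, [2])]⟩,
    ⟨[(1, 3), (3, 4)], [(1, 0), (3, 0), (3, 2), (4, 0), (4, 2), (4, 4)], [], [], [(4, 0,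
      [])]⟩,
    ⟨[(3, 4), (3, 5), (4, 5)], [(0, 1), (1, 0), (1, 1), (3, 0), (4, 0), (4, 1), (4, 2), (4,
      4), (4, 6), (5, 0), (5, 1), (5, 4), (5, 6)], [(0, 1), (0, 4), (0, 6), (1, 4), (1, 6),
      (4, 6)], [], [(0, 1, [2, 3, 5]), (4, 0, []), (8, 4, [2]), (9, 6, [2])]⟩]
  Ta := [((3, 5), 0, 5), ((3, 6), 0, 2), ((4, 0), 0, 1)]
  Tb := [((0, 1, 4), 1, 7, 0), ((0, 1, 9), 1, 7, 6), ((0, 4, 9), 1, 0, 6), ((1, 0, 2), 7, 1, 3),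
    ((2, 1, 5), 3, 7, 5), ((3, 5, 6), 0, 5, 2), ((5, 2, 3), 5, 3, 0), ((6, 3, 7), 2, 0, 8),
    ((7, 6, 8), 8, 2, 4), ((8, 7, 9), 4, 8, 6), ((9, 0, 8), 6, 1, 4)]
  Tc := [(1, 2, 3), (1, 2, 5), (1, 3, 5), (2, 1, 4), (2, 1, 6), (2, 4, 6)]
  Td := [((1, 2), (0, 1), 7), ((1, 2), (0, 4), 0), ((1, 2), (0, 9), 6), ((1, 3), (0, 1), 7), ((1,
    3), (0, 4), 0), ((1, 3), (0, 9), 6), ((1, 5), (0, 1), 7), ((1, 5), (0, 4), 0), ((1, 5),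
    (0, 9), 6), ((2, 1), (6, 3), 0), ((2, 1), (6, 7), 8), ((2, 4), (6, 3), 0), ((2, 4), (6,
    7), 8), ((2, 6), (6, 3), 0), ((2, 6), (6, 7), 8), ((3, 1), (2, 1), 7), ((3, 1), (2, 5),
    5), ((4, 2), (8, 7), 8), ((4, 2), (8, 9), 6), ((5, 1), (5, 2), 3), ((5, 1), (5, 3), 0),
    ((6, 2), (9, 0), 1), ((6, 2), (9, 8), 4)]
  G := [[0, 0, 0x121214e428121218e824121814e22141814e22cd, 0xd4282d4282c2,
    0x484848b228424842b824424148b22424148b22cd], [0, 0x242824d418242828d814282828d412e, 0,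
    0x242828d428242828d824242824d41242424d82cd, 0x424842b228484848b224424842b22424242b82cd]]

noncomputable def n2466 : Ent := ⟨e2466, noF, [], [], [(8, 16, [1580044410770988437309982408355971841652082177953823432505699209217, 0])]⟩

def c2466 : PLift (Cov.check n2466.C.D v2466 = true) := ⟨by decide +kernel⟩

def b2466 : PLift (entF (fidx ts) 400 2466 n2466 = true) := ⟨by decide +kernel⟩

theorem g2466 : GoodF (fidx ts) 400 2466 := GoodF.ofV v2466 n2466 c2466.down b2466.down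

/-- The entries 2324 to 2466. -/
theorem rE16 : Rng (GoodF (fidx ts) 400) 2324 2467 :=
  ((((((((((((((((((((((((((((((((((((((((((((((((((((((((((((((((((((((((((((((((((((((((((((((((((((((((((((((((((((((((((((((((((((((((((((((((Rng.nil _ 2324).snoc g2324 rfl).snoc g2325 rfl).snoc g2326 rfl).snoc g2327 rfl).snoc g2328 rfl).snoc g2329 rfl).snoc g2330 rfl).snoc g2331 rfl).snoc g2332 rfl).snoc g2333 rfl).snoc g2334 rfl).snoc g2335 rfl).snoc g2336 rfl).snoc g2337 rfl).snoc g2338 rfl).snoc g2339 rfl).snoc g2340 rfl).snoc g2341 rfl).snoc g2342 rfl).snoc g2343 rfl).snoc g2344 rfl).snoc g2345 rfl).snoc g2346 rfl).snoc g2347 rfl).snoc g2348 rfl).snoc g2349 rfl).snoc g2350 rfl).snoc g2351 rfl).snoc g2352 rfl).snoc g2353 rfl).snoc g2354 rfl).snoc g2355 rfl).snoc g2356 rfl).snoc g2357 rfl).snoc g2358 rfl).snoc g2359 rfl).snoc g2360 rfl).snoc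 g2361 rfl).snoc g2362 rfl).snoc g2363 rfl).snoc g2364 rfl).snoc g2365 rfl).snoc g2366 rfl).snoc g2367 rfl).snoc g2368 rfl).snoc g2369 rfl).snoc g2370 rfl).snoc g2371 rfl).snoc g2372 rfl).snoc g2373 rfl).snoc g2374 rfl).snoc g2375 rfl).snoc g2376 rfl).snoc g2377 rfl).snoc g2378 rfl).snoc g2379 rfl).snoc g2380 rfl).snoc g2381 rfl).snoc g2382 rfl).snoc g2383 rfl).snoc g2384 rfl).snoc g2385 rfl).snoc g2386 rfl).snoc g2387 rfl).snoc g2388 rfl).snoc g2389 rfl).snoc g2390 rfl).snoc g2391 rfl).snoc g2392 rfl).snoc g2393 rfl).snoc g2394 rfl).snoc g2395 rfl).snoc g2396 rfl).snoc g2397 rfl).snoc g2398 rfl).snoc g2399 rfl).snoc g2400 rfl).snoc g2401 rfl).snoc g2402 rfl).snoc g2403 rfl).snoc g2404 rfl).snoc g2405 rfl).snoc g2406 rfl).snoc g2407 rfl).snoc g2408 rfl).snoc g2409 rfl).snoc g2410 rfl).snoc g2411 rfl).snoc g2412 rfl).snoc g2413 rfl).snoc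 g2414 rfl).snoc g2415 rfl).snoc g2416 rfl).snoc g2417 rfl).snoc g2418 rfl).snoc g2419 rfl).snoc g2420 rfl).snoc g2421 rfl).snoc g2422 rfl).snoc g2423 rfl).snoc g2424 rfl).snoc g2425 rfl).snoc g2426 rfl).snoc g2427 rfl).snoc g2428 rfl).snoc g2429 rfl).snoc g2430 rfl).snoc g2431 rfl).snoc g2432 rfl).snoc g2433 rfl).snoc g2434 rfl).snoc g2435 rfl).snoc g2436 rfl).snoc g2437 rfl).snoc g2438 rfl).snoc g2439 rfl).snoc g2440 rfl).snoc g2441 rfl).snoc g2442 rfl).snoc g2443 rfl).snoc g2444 rfl).snoc g2445 rfl).snoc g2446 rfl).snoc g2447 rfl).snoc g2448 rfl).snoc g2449 rfl).snoc g2450 rfl).snoc g2451 rfl).snoc g2452 rfl).snoc g2453 rfl).snoc g2454 rfl).snoc g2455 rfl).snoc g2456 rfl).snoc g2457 rfl).snoc g2458 rfl).snoc g2459 rfl).snoc g2460 rfl).snoc g2461 rfl).snoc g2462 rfl).snoc g2463 rfl).snoc g2464 rfl).snoc g2465 rfl).snoc g2466 rfl)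

end Pool.Agent.W986.ST.Dat
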