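import Pool.Agent.W986.Dat.Tab
import Pool.Agent.W986.SubAltB

/-!
# Entries 2467 to 2595 of the table
-/

set_option autoImplicit false

namespace Pool.Agent.W986.ST.Dat

/-- 4746646:1952/4 -/
noncomputable def e2467 : SCfg where
  D := {
    a := 7
    L := 9
    kp := 6
    inn := [(0, 1), (1, 0), (1, 2), (1, 3), (2, 1), (3, 1), (3, 4), (3, 5), (4, 3), (4, 5), (4, 6), (5,
      3), (5, 4), (5, 6), (6, 4), (6, 5)]
    mix := [(0, 0), (0, 1), (0, 2), (1, 0), (1, 2), (1, 3), (1, 4), (2, 2), (2, 3), (2, 5), (3, 3), (3,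
      4), (3, 6), (4, 1), (4, 6), (4, 7), (5, 4), (6, 4), (6, 5), (6, 7), (6, 8)]
    cl := [1, 2, 3, 1, 0, 5, 4, 0, 6]
    chq := [(0, 4), (1, 3), (3, 1), (4, 0)]
    rng := [(0, 1), (0, 4), (1, 0), (1, 2), (1, 6), (1, 7), (2, 1), (2, 5), (3, 5), (3, 6), (4, 0), (4,
      8), (5, 2), (5, 3), (5, 7), (5, 8), (6, 1), (6, 3), (7, 1), (7, 5), (8, 4), (8, 5)]
    lev := [] }
  links := [[1, 7, 8, 9], [7, 0, 9, 2, 10, 3, 11], [10, 1, 9, 12], [11, 1, 10, 13, 4, 5], [5, 3, 13, 8,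
    14, 6], [11, 3, 4, 6], [11, 5, 4, 14, 12, 15]]
  P := {
    a := 7
    N := 16
    nb := [898, 3725, 5634, 11314, 24936, 2136, 55344, 2307, 25233, 4359, 12302, 33002, 50756, 1304,
      4432, 6208]
    tri := [(0, 1, 7), (0, 1, 9), (0, 7, 8), (0, 8, 9), (1, 2, 9), (1, 2, 10), (1, 3, 10), (1, 3, 11),
      (1, 7, 11), (2, 9, 12), (2, 10, 12), (3, 4, 5), (3, 4, 13), (3, 5, 11), (3, 10, 13), (4, 5,
      6), (4, 6, 14), (4, 8, 13), (4, 8, 14), (5, 6, 11), (6, 11, 15), (6, 12, 14), (6, 12, 15)]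
    fin := [0, 0, 0, 0, 4, 4, 6, 0, 8, 9, 0, 4, 6, 13, 4, 15]
    chd := [(0, 9), (4, 13)]
    steps := [(0, 1), (0, 2), (0, 3), (0, 7), (0, 10), (4, 5), (4, 14), (4, 11), (6, 12)] }
  rep := [4, 0, 8, 9, 13, 6, 15]

noncomputable def v2467 : Cov.CovD where
  P := 3
  N := 4
  pl := [1, 5, 8]
  lev := [⟨[], [], [(1, 3)], [2], [(0, 1, [3]), (2, 3, [1])]⟩,
    ⟨[], [(0, 0), (0, 1), (0, 3)], [(0, 1), (0, 3), (1, 1), (1, 3)], [], [(0, 1, [3]), (2,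
      3, [1]), (3, 1, [3]), (4, 0, [4])]⟩,
    ⟨[(0, 1)], [(0, 3), (1, 0), (1, 1), (1, 3)], [(1, 3)], [5], [(2, 3, [1]), (3, 1, [3])]⟩,
    ⟨[(0, 1), (1, 2)], [(1, 0), (1, 1), (1, 3), (1, 4), (2, 1)], [(0, 1), (0, 4), (1, 4)],
      [], [(3, 1, [3]), (4, 0, [4]), (6, 4, [0])]⟩,
    ⟨[(1, 3)], [(3, 0), (3, 1), (3, 4)], [(0, 4)], [2], [(6, 4, [0]), (7, 0, [4])]⟩,
    ⟨[(1, 3), (3, 4)], [(1, 0), (3, 0), (3, 1), (3, 4), (4, 0), (4, 4)], [], [], [(4, 0,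
      [4])]⟩,
    ⟨[(3, 4), (3, 5), (4, 5)], [(1, 0), (3, 0), (4, 0), (4, 4), (5, 0)], [(0, 0)], [5, 6],
      [(4, 0, [4]), (7, 0, [4])]⟩]
  Ta := [((0, 1), 1, 2), ((0, 4), 1, 0), ((3, 5), 1, 5), ((3, 6), 1, 4), ((4, 0), 0, 1), ((4, 8),
    0, 6), ((7, 1), 0, 2), ((7, 5), 0, 5)]
  Tb := [((0, 1, 4), 1, 2, 0), ((1, 0, 2), 2, 1, 3), ((1, 0, 6), 2, 1, 4), ((1, 0, 7), 2, 1, 0),
    ((1, 2, 6), 2, 3, 4), ((1, 2, 7), 2, 3, 0), ((1, 6, 7), 2, 4, 0), ((2, 1, 5), 3, 2, 5),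
    ((3, 5, 6), 1, 5, 4), ((4, 0, 8), 0, 1, 6), ((5, 2, 3), 5, 3, 1), ((5, 2, 7), 5, 3, 0),
    ((5, 2, 8), 5, 3, 6), ((5, 3, 7), 5, 1, 0), ((5, 3, 8), 5, 1, 6), ((5, 7, 8), 5, 0, 6),
    ((6, 1, 3), 4, 2, 1), ((7, 1, 5), 0, 2, 5), ((8, 4, 5), 6, 0, 5)]
  Tc := []
  Td := [((0, 4), (4, 0), 1), ((0, 4), (4, 8), 6), ((0, 4), (7, 1), 2), ((0, 4), (7, 5), 5), ((1,
    3), (0, 1), 2), ((1, 3), (0, 4), 0), ((1, 3), (3, 5), 5), ((1, 3), (3, 6), 4), ((3, 1),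
    (2, 1), 2), ((3, 1), (2, 5), 5), ((4, 0), (6, 1), 2), ((4, 0), (6, 3), 1)]
  G := [[0, 0xe21e81618e21e41a14c, 0, 0xa2485448a492386484984ac4234c, 0xe8242e4282ce1e892149],
    [0, 0, 0, 0, 0xa824642621c6824634da2188ce41e82c143], [0, 0, 0xe42118e42114c,
    0xa84e4854142386282c824acc924c, 0xe12e825286821e12a486549], [0, 0, 0xe8e86118e4e8c114a,
    0, 0xa18a8256261a4961868294cc22121c4a84a4a9543]]

noncomputable def n2467 : Ent := ⟨e2467, noF, [], [], []⟩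

def c2467 : PLift (Cov.check n2467.C.D v2467 = true) := ⟨by decide +kernel⟩

def b2467 : PLift (entF (fidx ts) 400 2467 n2467 = true) := ⟨by decide +kernel⟩

theorem g2467 : GoodF (fidx ts) 400 2467 := GoodF.ofV v2467 n2467 c2467.down b2467.down

/-- 4746646:1952/3 -/
noncomputable def e2468 : SCfg where
  D := {
    a := 7
    L := 10
    kp := 8
    inn := [(0, 1), (1, 0), (1, 2), (1, 3), (2, 1), (3, 1), (3, 4), (3, 5), (4, 3), (4, 5), (4, 6), (5,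
      3), (5, 4), (5, 6), (6, 4), (6, 5)]
    mix := [(0, 0), (0, 1), (0, 2), (1, 0), (1, 2), (1, 3), (1, 4), (2, 2), (2, 3), (2, 5), (3, 3), (3,
      4), (3, 6), (4, 1), (4, 6), (4, 7), (5, 4), (6, 4), (6, 7), (6, 8), (6, 9)]
    cl := [1, 5, 3, 0, 0, 6, 2, 4, 7, 8]
    chq := [(1, 3), (1, 6), (2, 4), (2, 7), (2, 8), (3, 1), (4, 2), (6, 1), (7, 2), (8, 2)]
    rng := [(0, 1), (0, 4), (1, 0), (1, 2), (1, 6), (1, 7), (2, 1), (2, 5), (3, 5), (3, 6), (4, 0), (4,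
      9), (5, 2), (5, 3), (6, 1), (6, 3), (7, 1), (7, 8), (8, 7), (8, 9), (9, 4), (9, 8)]
    lev := [] }
  links := [[1, 7, 8, 9], [7, 0, 9, 2, 10, 3, 11], [10, 1, 9, 12], [11, 1, 10, 13, 4, 5], [5, 3, 13, 8,
    14, 6], [11, 3, 4, 6], [11, 5, 4, 14, 15, 16]]
  P := {
    a := 7
    N := 17
    nb := [898, 3725, 5634, 11314, 24936, 2136, 116784, 2307, 25233, 4359, 12302, 65770, 1540, 1304,
      33104, 81984, 34880]
    tri := [(0, 1, 7), (0, 1, 9), (0, 7, 8), (0, 8, 9), (1, 2, 9), (1, 2, 10), (1, 3, 10), (1, 3, 11),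
      (1, 7, 11), (2, 9, 12), (2, 10, 12), (3, 4, 5), (3, 4, 13), (3, 5, 11), (3, 10, 13), (4, 5,
      6), (4, 6, 14), (4, 8, 13), (4, 8, 14), (5, 6, 11), (6, 11, 16), (6, 14, 15), (6, 15, 16)]
    fin := [0, 0, 0, 3, 4, 3, 4, 0, 8, 9, 3, 3, 12, 4, 14, 15, 16]
    chd := [(0, 9), (0, 12), (4, 14), (4, 15), (4, 16)]
    steps := [(0, 1), (0, 2), (0, 7), (3, 5), (3, 10), (3, 11), (4, 6), (4, 13)] }
  rep := [3, 0, 4, 9, 14, 8, 12, 15, 16]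

noncomputable def v2468 : Cov.CovD where
  P := 3
  N := 6
  pl := [1]
  lev := [⟨[], [], [(1, 3)], [5], [(0, 1, [3, 6]), (2, 3, [1])]⟩,
    ⟨[], [(0, 0), (0, 1), (0, 3)], [(0, 0), (0, 1), (0, 3), (1, 3)], [], [(0, 1, [3, 6]),
      (2, 3, [1]), (3, 0, []), (4, 0, [])]⟩,
    ⟨[(0, 1)], [(0, 3), (1, 0), (1, 1), (1, 3), (1, 6)], [(0, 3), (0, 6), (3, 6)], [], [(2,
      3, [1]), (3, 0, []), (5, 6, [1])]⟩,
    ⟨[(0, 1), (1, 2)], [(1, 0), (1, 1), (1, 2), (1, 3), (2, 0)], [(0, 0), (0, 2)], [], [(3,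
      0, []), (4, 0, []), (6, 2, [4, 7, 8])]⟩,
    ⟨[(1, 3)], [(3, 0), (3, 2), (3, 4)], [(2, 4)], [5], [(6, 2, [4, 7, 8]), (7, 4, [2])]⟩,
    ⟨[(1, 3), (3, 4)], [(1, 0), (3, 0), (3, 2), (4, 0), (4, 2), (4, 4)], [], [], [(4, 0,
      [])]⟩,
    ⟨[(3, 4), (3, 5), (4, 5)], [(1, 0), (3, 0), (4, 0), (4, 2), (4, 4), (4, 7), (4, 8), (5,
      0), (5, 4), (5, 7), (5, 8)], [(0, 4), (0, 7), (0, 8), (4, 7), (4, 8), (7, 8)], [], [(4,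
      0, []), (7, 4, [2]), (8, 7, [2]), (9, 8, [2])]⟩]
  Ta := [((3, 5), 0, 6), ((3, 6), 0, 2), ((4, 0), 0, 1), ((4, 9), 0, 8)]
  Tb := [((0, 1, 4), 1, 5, 0), ((1, 0, 2), 5, 1, 3), ((1, 0, 6), 5, 1, 2), ((1, 0, 7), 5, 1, 4),
    ((1, 2, 6), 5, 3, 2), ((1, 2, 7), 5, 3, 4), ((1, 6, 7), 5, 2, 4), ((2, 1, 5), 3, 5, 6),
    ((3, 5, 6), 0, 6, 2), ((4, 0, 9), 0, 1, 8), ((5, 2, 3), 6, 3, 0), ((6, 1, 3), 2, 5, 0),
    ((7, 1, 8), 4, 5, 7), ((8, 7, 9), 7, 4, 8), ((9, 4, 8), 8, 0, 7)]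
  Tc := [(1, 3, 6), (2, 4, 7), (2, 4, 8), (2, 7, 8)]
  Td := [((1, 3), (0, 1), 5), ((1, 3), (0, 4), 0), ((1, 6), (0, 1), 5), ((1, 6), (0, 4), 0), ((2,
    4), (6, 1), 5), ((2, 4), (6, 3), 0), ((2, 7), (6, 1), 5), ((2, 7), (6, 3), 0), ((2, 8),
    (6, 1), 5), ((2, 8), (6, 3), 0), ((3, 1), (2, 1), 5), ((3, 1), (2, 5), 6), ((4, 2), (7,
    1), 5), ((4, 2), (7, 8), 7), ((6, 1), (5, 2), 3), ((6, 1), (5, 3), 0), ((7, 2), (8, 7),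
    4), ((7, 2), (8, 9), 8), ((8, 2), (9, 4), 0), ((8, 2), (9, 8), 7)]
  G := [[0, 0, 0x1218a2281218622414146221218a22cd, 0x212124d428242424d82424245822424982cd,
    0x4248a228414148b82442423824448922cd], [0, 0x2424941828285814242828d812e, 0,
    0x282824d428242424d82428285412428982cd, 0x4248a228484848b22442423824244381cd]]

noncomputable def n2468 : Ent := ⟨e2468, noF, [], [], [(12, 15, [1685356702439545624007900436039642273970977273354372543760010194945, 0])]⟩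

def c2468 : PLift (Cov.check n2468.C.D v2468 = true) := ⟨by decide +kernel⟩

def b2468 : PLift (entF (fidx ts) 400 2468 n2468 = true) := ⟨by decide +kernel⟩

theorem g2468 : GoodF (fidx ts) 400 2468 := GoodF.ofV v2468 n2468 c2468.down b2468.down

/-- 4746646:1952/6 -/
noncomputable def e2469 : SCfg where
  D := {
    a := 7
    L := 9
    kp := 7
    inn := [(0, 1), (1, 0), (1, 2), (1, 3), (2, 1), (3, 1), (3, 4), (3, 5), (4, 3), (4, 5), (4, 6), (5,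
      3), (5, 4), (5, 6), (6, 4), (6, 5)]
    mix := [(0, 0), (0, 1), (0, 2), (1, 0), (1, 2), (1, 3), (1, 4), (2, 2), (2, 3), (2, 5), (3, 3), (3,
      4), (3, 6), (4, 1), (4, 6), (4, 7), (5, 4), (6, 1), (6, 4), (6, 5), (6, 8)]
    cl := [5, 1, 3, 0, 0, 2, 4, 7, 6]
    chq := [(0, 1), (0, 3), (1, 0), (1, 4), (2, 4), (3, 0), (4, 1), (4, 2), (4, 6), (6, 4)]
    rng := [(0, 1), (0, 4), (1, 0), (1, 2), (1, 5), (1, 7), (2, 1), (2, 5), (3, 5), (3, 6), (4, 0), (4,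
      8), (5, 1), (5, 2), (5, 3), (5, 8), (6, 3), (6, 7), (7, 1), (7, 6), (8, 4), (8, 5)]
    lev := [] }
  links := [[1, 7, 8, 9], [7, 0, 9, 2, 10, 3, 11], [10, 1, 9, 12], [11, 1, 10, 13, 4, 5], [5, 3, 13, 14,
    8, 6], [11, 3, 4, 6], [11, 5, 4, 8, 12, 15]]
  P := {
    a := 7
    N := 16
    nb := [898, 3725, 5634, 11314, 24936, 2136, 39216, 2307, 21201, 4359, 12302, 33002, 34628, 17432,
      8464, 6208]
    tri := [(0, 1, 7), (0, 1, 9), (0, 7, 8), (0, 8, 9), (1, 2, 9), (1, 2, 10), (1, 3, 10), (1, 3, 11),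
      (1, 7, 11), (2, 9, 12), (2, 10, 12), (3, 4, 5), (3, 4, 13), (3, 5, 11), (3, 10, 13), (4, 5,
      6), (4, 6, 8), (4, 8, 14), (4, 13, 14), (5, 6, 11), (6, 8, 12), (6, 11, 15), (6, 12, 15)]
    fin := [0, 1, 2, 3, 0, 3, 3, 7, 0, 2, 1, 1, 12, 3, 14, 15]
    chd := [(0, 1), (0, 3), (2, 1), (3, 15), (12, 3)]
    steps := [(0, 8), (0, 4), (1, 10), (1, 11), (2, 9), (3, 5), (3, 6), (3, 13)] }
  rep := [1, 0, 12, 2, 3, 7, 15, 14]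

noncomputable def v2469 : Cov.CovD where
  P := 3
  N := 5
  pl := [0, 7]
  lev := [⟨[], [], [(1, 3)], [5], [(1, 1, [0, 4]), (2, 3, [0])]⟩,
    ⟨[], [(0, 0), (0, 1), (0, 3)], [(0, 0), (0, 3)], [5], [(2, 3, [0]), (3, 0, [1, 3]), (4,
      0, [1, 3])]⟩,
    ⟨[(0, 1)], [(0, 3), (1, 0), (1, 2), (1, 3)], [(0, 2), (0, 3), (2, 3)], [], [(2, 3,
      [0]), (3, 0, [1, 3]), (5, 2, [4])]⟩,
    ⟨[(0, 1), (1, 2)], [(1, 0), (1, 3), (1, 4), (2, 0)], [(0, 0), (0, 4)], [], [(3, 0, [1,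
      3]), (4, 0, [1, 3]), (6, 4, [1, 2, 6])]⟩,
    ⟨[(1, 3)], [(0, 1), (3, 0), (3, 1), (3, 4)], [(1, 4)], [7], [(1, 1, [0, 4]), (6, 4, [1,
      2, 6])]⟩,
    ⟨[(1, 3), (3, 4)], [(1, 0), (3, 0), (3, 4), (4, 0), (4, 1), (4, 4)], [], [], [(4, 0,
      [1, 3])]⟩,
    ⟨[(3, 4), (3, 5), (4, 5)], [(0, 1), (1, 0), (2, 2), (3, 0), (4, 0), (4, 1), (4, 2), (4,
      4), (4, 6), (5, 0), (5, 1), (5, 2), (5, 6)], [(0, 1), (0, 2), (0, 6), (1, 2), (1, 6),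
      (2, 6)], [], [(1, 1, [0, 4]), (4, 0, [1, 3]), (5, 2, [4]), (8, 6, [4])]⟩]
  Ta := [((3, 5), 0, 2), ((3, 6), 0, 4), ((4, 0), 0, 5), ((4, 8), 0, 6)]
  Tb := [((0, 1, 4), 5, 1, 0), ((1, 0, 2), 1, 5, 3), ((1, 0, 5), 1, 5, 2), ((1, 0, 7), 1, 5, 7),
    ((1, 2, 5), 1, 3, 2), ((1, 2, 7), 1, 3, 7), ((1, 5, 7), 1, 2, 7), ((2, 1, 5), 3, 1, 2),
    ((3, 5, 6), 0, 2, 4), ((4, 0, 8), 0, 5, 6), ((5, 1, 2), 2, 1, 3), ((5, 1, 3), 2, 1, 0),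
    ((5, 1, 8), 2, 1, 6), ((5, 2, 3), 2, 3, 0), ((5, 2, 8), 2, 3, 6), ((5, 3, 8), 2, 0, 6),
    ((6, 3, 7), 4, 0, 7), ((7, 1, 6), 7, 1, 4), ((8, 4, 5), 6, 0, 2)]
  Tc := [(0, 1, 3), (1, 0, 4), (4, 1, 2), (4, 1, 6), (4, 2, 6)]
  Td := [((0, 1), (3, 5), 2), ((0, 1), (3, 6), 4), ((0, 1), (4, 0), 5), ((0, 1), (4, 8), 6), ((0,
    3), (3, 5), 2), ((0, 3), (3, 6), 4), ((0, 3), (4, 0), 5), ((0, 3), (4, 8), 6), ((1, 0),
    (1, 0), 5), ((1, 0), (1, 2), 3), ((1, 0), (1, 5), 2), ((1, 0), (1, 7), 7), ((1, 4), (1,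
    0), 5), ((1, 4), (1, 2), 3), ((1, 4), (1, 5), 2), ((1, 4), (1, 7), 7), ((2, 4), (5, 1),
    1), ((2, 4), (5, 2), 3), ((2, 4), (5, 3), 0), ((2, 4), (5, 8), 6), ((3, 0), (2, 1), 1),
    ((3, 0), (2, 5), 2), ((4, 1), (6, 3), 0), ((4, 1), (6, 7), 7), ((4, 2), (6, 3), 0), ((4,
    2), (6, 7), 7), ((4, 6), (6, 3), 0), ((4, 6), (6, 7), 7), ((6, 4), (8, 4), 0), ((6, 4),
    (8, 5), 2)]
  G := [[0, 0xc41218c81214421821c12e, 0x4288c4d284481c2d244142982845c2e1, 0x1414c8d21818c4d2c21,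
    0x181882d28141282d2141888d2a1212c2d42e1], [0, 0xc81218c41214421821c12e, 0,
    0x4884c8d28248c8c4d2424884c4d212d, 0x4228aa46d2182812a4d2428248cd23428448822cadc22d]]

noncomputable def n2469 : Ent := ⟨e2469, noF, [], [], []⟩

def c2469 : PLift (Cov.check n2469.C.D v2469 = true) := ⟨by decide +kernel⟩

def b2469 : PLift (entF (fidx ts) 400 2469 n2469 = true) := ⟨by decide +kernel⟩

theorem g2469 : GoodF (fidx ts) 400 2469 := GoodF.ofV v2469 n2469 c2469.down b2469.down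

/-- 4746646:1952/5 -/
noncomputable def e2470 : SCfg where
  D := {
    a := 7
    L := 10
    kp := 8
    inn := [(0, 1), (1, 0), (1, 2), (1, 3), (2, 1), (3, 1), (3, 4), (3, 5), (4, 3), (4, 5), (4, 6), (5,
      3), (5, 4), (5, 6), (6, 4), (6, 5)]
    mix := [(0, 0), (0, 1), (0, 2), (1, 0), (1, 2), (1, 3), (1, 4), (2, 2), (2, 3), (2, 5), (3, 3), (3,
      4), (3, 6), (4, 1), (4, 6), (4, 7), (5, 4), (6, 1), (6, 4), (6, 8), (6, 9)]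
    cl := [2, 1, 3, 0, 0, 5, 4, 8, 6, 7]
    chq := [(1, 4), (2, 3), (2, 5), (3, 2), (4, 1), (4, 6), (4, 7), (5, 2), (6, 4), (7, 4)]
    rng := [(0, 1), (0, 4), (1, 0), (1, 2), (1, 7), (1, 8), (2, 1), (2, 5), (3, 5), (3, 6), (4, 0), (4,
      9), (5, 2), (5, 3), (6, 3), (6, 7), (7, 1), (7, 6), (8, 1), (8, 9), (9, 4), (9, 8)]
    lev := [] }
  links := [[1, 7, 8, 9], [7, 0, 9, 2, 10, 3, 11], [10, 1, 9, 12], [11, 1, 10, 13, 4, 5], [5, 3, 13, 14,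
    8, 6], [11, 3, 4, 6], [11, 5, 4, 8, 15, 16]]
  P := {
    a := 7
    N := 17
    nb := [898, 3725, 5634, 11314, 24936, 2136, 100656, 2307, 49873, 4359, 12302, 65770, 1540, 17432,
      8464, 65856, 34880]
    tri := [(0, 1, 7), (0, 1, 9), (0, 7, 8), (0, 8, 9), (1, 2, 9), (1, 2, 10), (1, 3, 10), (1, 3, 11),
      (1, 7, 11), (2, 9, 12), (2, 10, 12), (3, 4, 5), (3, 4, 13), (3, 5, 11), (3, 10, 13), (4, 5,
      6), (4, 6, 8), (4, 8, 14), (4, 13, 14), (5, 6, 11), (6, 8, 15), (6, 11, 16), (6, 15, 16)]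
    fin := [0, 0, 0, 3, 4, 3, 4, 0, 8, 9, 3, 3, 12, 4, 14, 15, 16]
    chd := [(0, 9), (0, 12), (4, 15), (4, 16), (8, 4)]
    steps := [(0, 1), (0, 2), (0, 7), (3, 5), (3, 10), (3, 11), (4, 6), (4, 13)] }
  rep := [3, 8, 0, 9, 4, 12, 15, 16, 14]

noncomputable def v2470 : Cov.CovD where
  P := 3
  N := 6
  pl := [7]
  lev := [⟨[], [], [(1, 2), (1, 3), (2, 3)], [], [(0, 2, [3, 5]), (1, 1, [4]), (2, 3, [2])]⟩,
    ⟨[], [(0, 0), (0, 1), (0, 2), (0, 3)], [(0, 0), (0, 2), (0, 3), (2, 3)], [], [(0, 2,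
      [3, 5]), (2, 3, [2]), (3, 0, []), (4, 0, [])]⟩,
    ⟨[(0, 1)], [(0, 3), (1, 0), (1, 2), (1, 3), (1, 5)], [(0, 3), (0, 5), (3, 5)], [], [(2,
      3, [2]), (3, 0, []), (5, 5, [2])]⟩,
    ⟨[(0, 1), (1, 2)], [(1, 0), (1, 2), (1, 3), (1, 4), (2, 0)], [(0, 0), (0, 4)], [], [(3,
      0, []), (4, 0, []), (6, 4, [1, 6, 7])]⟩,
    ⟨[(1, 3)], [(0, 1), (3, 0), (3, 1), (3, 4)], [(1, 4)], [8], [(1, 1, [4]), (6, 4, [1, 6,
      7])]⟩,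
    ⟨[(1, 3), (3, 4)], [(1, 0), (3, 0), (3, 4), (4, 0), (4, 1), (4, 4)], [], [], [(4, 0,
      [])]⟩,
    ⟨[(3, 4), (3, 5), (4, 5)], [(0, 1), (1, 0), (3, 0), (4, 0), (4, 1), (4, 4), (4, 6), (4,
      7), (5, 0), (5, 1), (5, 6), (5, 7)], [(0, 1), (0, 6), (0, 7), (1, 6), (1, 7), (6, 7)],
      [], [(1, 1, [4]), (4, 0, []), (8, 6, [4]), (9, 7, [4])]⟩]
  Ta := [((3, 5), 0, 5), ((3, 6), 0, 4), ((4, 0), 0, 2), ((4, 9), 0, 7)]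
  Tb := [((0, 1, 4), 2, 1, 0), ((1, 0, 2), 1, 2, 3), ((1, 0, 7), 1, 2, 8), ((1, 0, 8), 1, 2, 6),
    ((1, 2, 7), 1, 3, 8), ((1, 2, 8), 1, 3, 6), ((1, 7, 8), 1, 8, 6), ((2, 1, 5), 3, 1, 5),
    ((3, 5, 6), 0, 5, 4), ((4, 0, 9), 0, 2, 7), ((5, 2, 3), 5, 3, 0), ((6, 3, 7), 4, 0, 8),
    ((7, 1, 6), 8, 1, 4), ((8, 1, 9), 6, 1, 7), ((9, 4, 8), 7, 0, 6)]
  Tc := [(2, 3, 5), (4, 1, 6), (4, 1, 7), (4, 6, 7)]
  Td := [((1, 4), (1, 0), 2), ((1, 4), (1, 2), 3), ((1, 4), (1, 7), 8), ((1, 4), (1, 8), 6), ((2,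
    3), (0, 1), 1), ((2, 3), (0, 4), 0), ((2, 5), (0, 1), 1), ((2, 5), (0, 4), 0), ((3, 2),
    (2, 1), 1), ((3, 2), (2, 5), 5), ((4, 1), (6, 3), 0), ((4, 1), (6, 7), 8), ((4, 6), (6,
    3), 0), ((4, 6), (6, 7), 8), ((4, 7), (6, 3), 0), ((4, 7), (6, 7), 8), ((5, 2), (5, 2),
    3), ((5, 2), (5, 3), 0), ((6, 4), (8, 1), 1), ((6, 4), (8, 9), 7), ((7, 4), (9, 4), 0),
    ((7, 4), (9, 8), 6)]
  G := [[0, 0x21a1c41c1a6286421c81c16a24c, 0, 0x5492c8d2285298c4d224c,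
    0x54189c4d248145489189825c429], [0, 0x62a888e4248a6286428c82c46a24c,
    0x68a448ad2186884a46d214c, 0x4282c2d2284282846d224c, 0x688268ad24824642928a825c129]]

noncomputable def n2470 : Ent := ⟨e2470, noF, [], [], [(12, 15, [1685356702439545624007900436039642273970977273354372543760010203137, 0])]⟩

def c2470 : PLift (Cov.check n2470.C.D v2470 = true) := ⟨by decide +kernel⟩

def b2470 : PLift (entF (fidx ts) 400 2470 n2470 = true) := ⟨by decide +kernel⟩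

theorem g2470 : GoodF (fidx ts) 400 2470 := GoodF.ofV v2470 n2470 c2470.down b2470.down

/-- 4746646:1952/7 -/
noncomputable def e2471 : SCfg where
  D := {
    a := 7
    L := 10
    kp := 8
    inn := [(0, 1), (1, 0), (1, 2), (1, 3), (2, 1), (3, 1), (3, 4), (3, 5), (4, 3), (4, 5), (4, 6), (5,
      3), (5, 4), (5, 6), (6, 4), (6, 5)]
    mix := [(0, 0), (0, 1), (0, 2), (1, 0), (1, 2), (1, 3), (1, 4), (2, 2), (2, 3), (2, 5), (3, 3), (3,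
      4), (3, 6), (4, 6), (4, 7), (4, 8), (5, 4), (6, 1), (6, 4), (6, 8), (6, 9)]
    cl := [1, 4, 3, 0, 0, 6, 2, 8, 5, 7]
    chq := [(1, 3), (1, 6), (2, 4), (2, 5), (2, 7), (3, 1), (4, 2), (5, 2), (6, 1), (7, 2)]
    rng := [(0, 1), (0, 4), (1, 0), (1, 2), (1, 8), (1, 9), (2, 1), (2, 5), (3, 5), (3, 6), (4, 0), (4,
      9), (5, 2), (5, 3), (6, 3), (6, 7), (7, 6), (7, 8), (8, 1), (8, 7), (9, 1), (9, 4)]
    lev := [] }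
  links := [[1, 7, 8, 9], [7, 0, 9, 2, 10, 3, 11], [10, 1, 9, 12], [11, 1, 10, 13, 4, 5], [5, 3, 13, 14,
    15, 6], [11, 3, 4, 6], [11, 5, 4, 15, 8, 16]]
  P := {
    a := 7
    N := 17
    nb := [898, 3725, 5634, 11314, 57448, 2136, 100656, 2307, 99009, 4359, 12302, 65770, 1540, 17432,
      40976, 16720, 2368]
    tri := [(0, 1, 7), (0, 1, 9), (0, 7, 8), (0, 8, 9), (1, 2, 9), (1, 2, 10), (1, 3, 10), (1, 3, 11),
      (1, 7, 11), (2, 9, 12), (2, 10, 12), (3, 4, 5), (3, 4, 13), (3, 5, 11), (3, 10, 13), (4, 5,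
      6), (4, 6, 15), (4, 13, 14), (4, 14, 15), (5, 6, 11), (6, 8, 15), (6, 8, 16), (6, 11, 16)]
    fin := [0, 0, 0, 3, 4, 3, 4, 0, 8, 9, 3, 3, 12, 4, 14, 15, 16]
    chd := [(0, 9), (0, 12), (4, 15), (4, 16), (8, 4)]
    steps := [(0, 1), (0, 2), (0, 7), (3, 5), (3, 10), (3, 11), (4, 6), (4, 13)] }
  rep := [3, 0, 4, 9, 8, 15, 12, 16, 14]

noncomputable def v2471 : Cov.CovD where
  P := 3
  N := 6
  pl := [7]
  lev := [⟨[], [], [(1, 3), (1, 4), (3, 4)], [], [(0, 1, [3, 6]), (1, 4, [2]), (2, 3, [1])]⟩,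
    ⟨[], [(0, 0), (0, 1), (0, 3), (0, 4)], [(0, 0), (0, 1), (0, 3), (1, 3)], [], [(0, 1,
      [3, 6]), (2, 3, [1]), (3, 0, []), (4, 0, [])]⟩,
    ⟨[(0, 1)], [(0, 3), (1, 0), (1, 1), (1, 3), (1, 6)], [(0, 3), (0, 6), (3, 6)], [], [(2,
      3, [1]), (3, 0, []), (5, 6, [1])]⟩,
    ⟨[(0, 1), (1, 2)], [(1, 0), (1, 1), (1, 2), (1, 3), (2, 0)], [(0, 0), (0, 2)], [], [(3,
      0, []), (4, 0, []), (6, 2, [4, 5, 7])]⟩,
    ⟨[(1, 3)], [(3, 0), (3, 2), (3, 5)], [(2, 5)], [8], [(6, 2, [4, 5, 7]), (8, 5, [2])]⟩,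
    ⟨[(1, 3), (3, 4)], [(1, 0), (3, 0), (3, 2), (4, 0), (4, 2), (4, 5)], [], [], [(4, 0,
      [])]⟩,
    ⟨[(3, 4), (3, 5), (4, 5)], [(0, 4), (1, 0), (3, 0), (4, 0), (4, 2), (4, 4), (4, 5), (4,
      7), (5, 0), (5, 4), (5, 5), (5, 7)], [(0, 4), (0, 5), (0, 7), (4, 5), (4, 7), (5, 7)],
      [], [(1, 4, [2]), (4, 0, []), (8, 5, [2]), (9, 7, [2])]⟩]
  Ta := [((3, 5), 0, 6), ((3, 6), 0, 2), ((4, 0), 0, 1), ((4, 9), 0, 7)]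
  Tb := [((0, 1, 4), 1, 4, 0), ((1, 0, 2), 4, 1, 3), ((1, 0, 8), 4, 1, 5), ((1, 0, 9), 4, 1, 7),
    ((1, 2, 8), 4, 3, 5), ((1, 2, 9), 4, 3, 7), ((1, 8, 9), 4, 5, 7), ((2, 1, 5), 3, 4, 6),
    ((3, 5, 6), 0, 6, 2), ((4, 0, 9), 0, 1, 7), ((5, 2, 3), 6, 3, 0), ((6, 3, 7), 2, 0, 8),
    ((7, 6, 8), 8, 2, 5), ((8, 1, 7), 5, 4, 8), ((9, 1, 4), 7, 4, 0)]
  Tc := [(1, 3, 6), (2, 4, 5), (2, 4, 7), (2, 5, 7)]
  Td := [((1, 3), (0, 1), 4), ((1, 3), (0, 4), 0), ((1, 6), (0, 1), 4), ((1, 6), (0, 4), 0), ((2,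
    4), (6, 3), 0), ((2, 4), (6, 7), 8), ((2, 5), (6, 3), 0), ((2, 5), (6, 7), 8), ((2, 7),
    (6, 3), 0), ((2, 7), (6, 7), 8), ((3, 1), (2, 1), 4), ((3, 1), (2, 5), 6), ((4, 2), (1,
    0), 1), ((4, 2), (1, 2), 3), ((4, 2), (1, 8), 5), ((4, 2), (1, 9), 7), ((5, 2), (8, 1),
    4), ((5, 2), (8, 7), 8), ((6, 1), (5, 2), 3), ((6, 1), (5, 3), 0), ((7, 2), (9, 1), 4),
    ((7, 2), (9, 4), 0)]
  G := [[0, 0, 0x181218e228121814e224141214e42181414e22cd,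
    0x282824d428242124d824282124d42242124d82cd, 0x484848b228414142b224424842b2229a422cd], [0,
    0x282824d418242424d814242824d812e, 0, 0x282828d428242828d824242828d42242428d81cd,
    0x424848b228424842b224484848b21424848b21cd]]

noncomputable def n2471 : Ent := ⟨e2471, noF, [], [], [(7, 16, [1580044410770988437309982408355971841652082177953823432505699209217, 0])]⟩

def c2471 : PLift (Cov.check n2471.C.D v2471 = true) := ⟨by decide +kernel⟩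

def b2471 : PLift (entF (fidx ts) 400 2471 n2471 = true) := ⟨by decide +kernel⟩

theorem g2471 : GoodF (fidx ts) 400 2471 := GoodF.ofV v2471 n2471 c2471.down b2471.down

/-- 4746646:1952/8 -/
noncomputable def e2472 : SCfg where
  D := {
    a := 7
    L := 10
    kp := 7
    inn := [(0, 1), (1, 0), (1, 2), (1, 3), (2, 1), (3, 1), (3, 4), (3, 5), (4, 3), (4, 5), (4, 6), (5,
      3), (5, 4), (5, 6), (6, 4), (6, 5)]
    mix := [(0, 0), (0, 1), (0, 2), (1, 0), (1, 2), (1, 3), (1, 4), (2, 2), (2, 3), (2, 5), (3, 3), (3,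
      4), (3, 6), (4, 6), (4, 7), (4, 8), (5, 4), (6, 4), (6, 5), (6, 8), (6, 9)]
    cl := [1, 5, 2, 1, 0, 4, 3, 6, 0, 7]
    chq := [(0, 3), (1, 2), (2, 1), (3, 0)]
    rng := [(0, 1), (0, 4), (1, 0), (1, 2), (2, 1), (2, 5), (3, 5), (3, 6), (4, 0), (4, 9), (5, 2), (5,
      3), (5, 8), (5, 9), (6, 3), (6, 7), (7, 6), (7, 8), (8, 5), (8, 7), (9, 4), (9, 5)]
    lev := [] }
  links := [[1, 7, 8, 9], [7, 0, 9, 2, 10, 3, 11], [10, 1, 9, 12], [11, 1, 10, 13, 4, 5], [5, 3, 13, 14,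
    15, 6], [11, 3, 4, 6], [11, 5, 4, 15, 12, 16]]
  P := {
    a := 7
    N := 17
    nb := [898, 3725, 5634, 11314, 57448, 2136, 104496, 2307, 641, 4359, 12302, 65770, 99908, 17432,
      40976, 20560, 6208]
    tri := [(0, 1, 7), (0, 1, 9), (0, 7, 8), (0, 8, 9), (1, 2, 9), (1, 2, 10), (1, 3, 10), (1, 3, 11),
      (1, 7, 11), (2, 9, 12), (2, 10, 12), (3, 4, 5), (3, 4, 13), (3, 5, 11), (3, 10, 13), (4, 5,
      6), (4, 6, 15), (4, 13, 14), (4, 14, 15), (5, 6, 11), (6, 11, 16), (6, 12, 15), (6, 12, 16)]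
    fin := [0, 0, 0, 0, 4, 0, 6, 0, 8, 9, 0, 6, 12, 4, 14, 6, 16]
    chd := [(0, 9), (6, 4)]
    steps := [(0, 1), (0, 2), (0, 3), (0, 5), (0, 7), (0, 10), (4, 13), (6, 15), (6, 11)] }
  rep := [6, 0, 9, 4, 12, 8, 14, 16]

noncomputable def v2472 : Cov.CovD where
  P := 3
  N := 5
  pl := [1, 5, 7, 9]
  lev := [⟨[], [], [(1, 2)], [5], [(0, 1, [2]), (2, 2, [1])]⟩,
    ⟨[], [(0, 0), (0, 1), (0, 2)], [(0, 1), (0, 2), (1, 1), (1, 2)], [], [(0, 1, [2]), (2,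
      2, [1]), (3, 1, [2]), (4, 0, [3])]⟩,
    ⟨[(0, 1)], [(0, 2), (1, 0), (1, 1), (1, 2)], [(1, 2)], [4], [(2, 2, [1]), (3, 1, [2])]⟩,
    ⟨[(0, 1), (1, 2)], [(1, 0), (1, 1), (1, 2), (1, 3), (2, 1)], [(0, 1), (0, 3), (1, 3)],
      [], [(3, 1, [2]), (4, 0, [3]), (6, 3, [0])]⟩,
    ⟨[(1, 3)], [(3, 0), (3, 1), (3, 3)], [(0, 3)], [6], [(6, 3, [0]), (8, 0, [3])]⟩,
    ⟨[(1, 3), (3, 4)], [(1, 0), (3, 0), (3, 1), (3, 3), (4, 0), (4, 3)], [], [], [(4, 0,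
      [3])]⟩,
    ⟨[(3, 4), (3, 5), (4, 5)], [(1, 0), (3, 0), (4, 0), (4, 3), (5, 0)], [(0, 0)], [4, 7],
      [(4, 0, [3]), (8, 0, [3])]⟩]
  Ta := [((0, 1), 1, 5), ((0, 4), 1, 0), ((3, 5), 1, 4), ((3, 6), 1, 3), ((4, 0), 0, 1), ((4, 9),
    0, 7), ((8, 5), 0, 4), ((8, 7), 0, 6)]
  Tb := [((0, 1, 4), 1, 5, 0), ((1, 0, 2), 5, 1, 2), ((2, 1, 5), 2, 5, 4), ((3, 5, 6), 1, 4, 3),
    ((4, 0, 9), 0, 1, 7), ((5, 2, 3), 4, 2, 1), ((5, 2, 8), 4, 2, 0), ((5, 2, 9), 4, 2, 7),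
    ((5, 3, 8), 4, 1, 0), ((5, 3, 9), 4, 1, 7), ((5, 8, 9), 4, 0, 7), ((6, 3, 7), 3, 1, 6),
    ((7, 6, 8), 6, 3, 0), ((8, 5, 7), 0, 4, 6), ((9, 4, 5), 7, 0, 4)]
  Tc := []
  Td := [((0, 3), (4, 0), 1), ((0, 3), (4, 9), 7), ((0, 3), (8, 5), 4), ((0, 3), (8, 7), 6), ((1,
    2), (0, 1), 5), ((1, 2), (0, 4), 0), ((1, 2), (3, 5), 4), ((1, 2), (3, 6), 3), ((2, 1),
    (2, 1), 5), ((2, 1), (2, 5), 4), ((3, 0), (6, 3), 1), ((3, 0), (6, 7), 6)]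
  G := [[0, 0xa461e81618e21e41a14c, 0x642cc82b82e29c24a412486492a2e468e8c,
    0xe44ace8d214e1a45e8d2185, 0xe1e1e4d218e1e8e8d2189], [0, 0,
    0xa22866464142286848fcca2188c2, 0xe14ace4d214e1e8e4d2145, 0xe2e25e8e83c182], [0, 0,
    0x4882a8e86a448e4e5688188c26164a62e869a4c, 0xc18c2a86364e8c642394a1a4ca82324a216868c2d49,
    0xa84e4258148c23648829a2e86e4e8a54842389], [0, 0, 0xa8a16a2a8a586224aa6864694c2,
    0x6861cc223a1a1ca4235461c8c6823a1a8ca82358c, 0xa84a2c8a5e224aa646868e5982]]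

noncomputable def n2472 : Ent := ⟨e2472, noF, [], [], [(8, 14, [1685382413448253767852309107433119732572617628602273068445375016961, 0])]⟩

def c2472 : PLift (Cov.check n2472.C.D v2472 = true) := ⟨by decide +kernel⟩

def b2472 : PLift (entF (fidx ts) 400 2472 n2472 = true) := ⟨by decide +kernel⟩

theorem g2472 : GoodF (fidx ts) 400 2472 := GoodF.ofV v2472 n2472 c2472.down b2472.down

/-- 4746646:1952 -/
noncomputable def e2473 : SCfg where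
  D := {
    a := 7
    L := 11
    kp := 9
    inn := [(0, 1), (1, 0), (1, 2), (1, 3), (2, 1), (3, 1), (3, 4), (3, 5), (4, 3), (4, 5), (4, 6), (5,
      3), (5, 4), (5, 6), (6, 4), (6, 5)]
    mix := [(0, 0), (0, 1), (0, 2), (1, 0), (1, 2), (1, 3), (1, 4), (2, 2), (2, 3), (2, 5), (3, 3), (3,
      4), (3, 6), (4, 6), (4, 7), (4, 8), (5, 4), (6, 4), (6, 8), (6, 9), (6, 10)]
    cl := [1, 8, 3, 0, 0, 5, 2, 9, 4, 6, 7]
    chq := [(1, 3), (1, 5), (2, 4), (2, 6), (2, 7), (3, 1), (4, 2), (5, 1), (6, 2), (7, 2)]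
    rng := [(0, 1), (0, 4), (1, 0), (1, 2), (2, 1), (2, 5), (3, 5), (3, 6), (4, 0), (4, 10), (5, 2),
      (5, 3), (6, 3), (6, 7), (7, 6), (7, 8), (8, 7), (8, 9), (9, 8), (9, 10), (10, 4), (10, 9)]
    lev := [] }
  links := [[1, 7, 8, 9], [7, 0, 9, 2, 10, 3, 11], [10, 1, 9, 12], [11, 1, 10, 13, 4, 5], [5, 3, 13, 14,
    15, 6], [11, 3, 4, 6], [11, 5, 4, 15, 16, 17]]
  P := {
    a := 7
    N := 18
    nb := [898, 3725, 5634, 11314, 57448, 2136, 231472, 2307, 641, 4359, 12302, 131306, 1540, 17432,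
      40976, 82000, 163904, 67648]
    tri := [(0, 1, 7), (0, 1, 9), (0, 7, 8), (0, 8, 9), (1, 2, 9), (1, 2, 10), (1, 3, 10), (1, 3, 11),
      (1, 7, 11), (2, 9, 12), (2, 10, 12), (3, 4, 5), (3, 4, 13), (3, 5, 11), (3, 10, 13), (4, 5,
      6), (4, 6, 15), (4, 13, 14), (4, 14, 15), (5, 6, 11), (6, 11, 17), (6, 15, 16), (6, 16, 17)]
    fin := [0, 0, 0, 3, 4, 3, 4, 0, 8, 9, 3, 3, 12, 4, 14, 15, 16, 17]
    chd := [(0, 9), (0, 12), (4, 15), (4, 16), (4, 17)]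
    steps := [(0, 1), (0, 2), (0, 7), (3, 5), (3, 10), (3, 11), (4, 6), (4, 13)] }
  rep := [3, 0, 4, 9, 15, 12, 16, 17, 8, 14]

noncomputable def v2473 : Cov.CovD where
  P := 3
  N := 7
  pl := [1, 7]
  lev := [⟨[], [], [(1, 3)], [8], [(0, 1, [3, 5]), (2, 3, [1])]⟩,
    ⟨[], [(0, 0), (0, 1), (0, 3)], [(0, 0), (0, 1), (0, 3), (1, 3)], [], [(0, 1, [3, 5]),
      (2, 3, [1]), (3, 0, []), (4, 0, [])]⟩,
    ⟨[(0, 1)], [(0, 3), (1, 0), (1, 1), (1, 3), (1, 5)], [(0, 3), (0, 5), (3, 5)], [], [(2,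
      3, [1]), (3, 0, []), (5, 5, [1])]⟩,
    ⟨[(0, 1), (1, 2)], [(1, 0), (1, 1), (1, 2), (1, 3), (2, 0)], [(0, 0), (0, 2)], [], [(3,
      0, []), (4, 0, []), (6, 2, [4, 6, 7])]⟩,
    ⟨[(1, 3)], [(3, 0), (3, 2), (3, 4)], [(2, 4)], [9], [(6, 2, [4, 6, 7]), (8, 4, [2])]⟩,
    ⟨[(1, 3), (3, 4)], [(1, 0), (3, 0), (3, 2), (4, 0), (4, 2), (4, 4)], [], [], [(4, 0,
      [])]⟩,
    ⟨[(3, 4), (3, 5), (4, 5)], [(1, 0), (3, 0), (4, 0), (4, 2), (4, 4), (4, 6), (4, 7), (5,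
      0), (5, 4), (5, 6), (5, 7)], [(0, 4), (0, 6), (0, 7), (4, 6), (4, 7), (6, 7)], [], [(4,
      0, []), (8, 4, [2]), (9, 6, [2]), (10, 7, [2])]⟩]
  Ta := [((3, 5), 0, 5), ((3, 6), 0, 2), ((4, 0), 0, 1), ((4, 10), 0, 7)]
  Tb := [((0, 1, 4), 1, 8, 0), ((1, 0, 2), 8, 1, 3), ((2, 1, 5), 3, 8, 5), ((3, 5, 6), 0, 5, 2),
    ((4, 0, 10), 0, 1, 7), ((5, 2, 3), 5, 3, 0), ((6, 3, 7), 2, 0, 9), ((7, 6, 8), 9, 2, 4),
    ((8, 7, 9), 4, 9, 6), ((9, 8, 10), 6, 4, 7), ((10, 4, 9), 7, 0, 6)]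
  Tc := [(1, 3, 5), (2, 4, 6), (2, 4, 7), (2, 6, 7)]
  Td := [((1, 3), (0, 1), 8), ((1, 3), (0, 4), 0), ((1, 5), (0, 1), 8), ((1, 5), (0, 4), 0), ((2,
    4), (6, 3), 0), ((2, 4), (6, 7), 9), ((2, 6), (6, 3), 0), ((2, 6), (6, 7), 9), ((2, 7),
    (6, 3), 0), ((2, 7), (6, 7), 9), ((3, 1), (2, 1), 8), ((3, 1), (2, 5), 5), ((4, 2), (8,
    7), 9), ((4, 2), (8, 9), 6), ((5, 1), (5, 2), 3), ((5, 1), (5, 3), 0), ((6, 2), (9, 8),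
    4), ((6, 2), (9, 10), 7), ((7, 2), (10, 4), 0), ((7, 2), (10, 9), 6)]
  G := [[0, 0, 0x141218e228141418e224121212e42121814e82cd,
    0x212824d428242828d824282124d42212424d82cd, 0x484142b228414848b224484142b22414148b22cd],
    [0, 0x282828d418242824d814242828d812e, 0, 0x242828d428242828d824282824d41242828d82cd,
    0x424842b228484842b224484848b22424242b81cd]]

noncomputable def n2473 : Ent := ⟨e2473, noF, [], [], [(7, 17, [6903326391201334775872065844685381424292761054348340378595029939789825, 0]), (8, 14, [7334790875878422277917280412776772662961875900559637987928627379585025, 0]), (8, 15, [7334790850167413569773436004105379185503274260204390087403942014771201, 0]), (8, 16, [7334685537875745012586738086077695515070955365108989538292687703797761, 0]), (12, 16, [7334685537875745012586738086077695515070955365108989538292687703801857,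 0])]⟩

def c2473 : PLift (Cov.check n2473.C.D v2473 = true) := ⟨by decide +kernel⟩

def b2473 : PLift (entF (fidx ts) 400 2473 n2473 = true) := ⟨by decide +kernel⟩

theorem g2473 : GoodF (fidx ts) 400 2473 := GoodF.ofV v2473 n2473 c2473.down b2473.down

/-- 4746476:1953/1 -/
noncomputable def e2474 : SCfg where
  D := {
    a := 7
    L := 10
    kp := 7
    inn := [(0, 1), (1, 0), (1, 2), (1, 3), (1, 5), (2, 1), (3, 1), (3, 4), (3, 5), (4, 3), (4, 5), (4,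
      6), (5, 1), (5, 3), (5, 4), (5, 6), (6, 4), (6, 5)]
    mix := [(0, 0), (0, 1), (0, 2), (1, 0), (1, 2), (1, 3), (2, 2), (2, 3), (2, 4), (3, 3), (3, 5), (3,
      6), (4, 6), (5, 0), (5, 7), (5, 8), (6, 4), (6, 6), (6, 7), (6, 9)]
    cl := [0, 4, 2, 0, 3, 5, 1, 1, 6, 7]
    chq := [(0, 1), (0, 2), (1, 0), (2, 0)]
    rng := [(0, 1), (0, 8), (1, 0), (1, 2), (2, 1), (2, 4), (3, 4), (3, 5), (4, 2), (4, 3), (4, 6), (4,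
      9), (5, 3), (5, 6), (6, 4), (6, 5), (7, 8), (7, 9), (8, 0), (8, 7), (9, 4), (9, 7)]
    lev := [] }
  links := [[1, 7, 8, 9], [7, 0, 9, 2, 10, 3, 5], [10, 1, 9, 11], [5, 1, 10, 12, 13, 4], [5, 3, 13, 6],
    [7, 1, 3, 4, 6, 14, 15], [14, 5, 4, 13, 11, 16]]
  P := {
    a := 7
    N := 17
    nb := [898, 1709, 3586, 13362, 8296, 49370, 92208, 33059, 641, 2311, 6158, 75332, 9224, 6232,
      98400, 16544, 18496]
    tri := [(0, 1, 7), (0, 1, 9), (0, 7, 8), (0, 8, 9), (1, 2, 9), (1, 2, 10), (1, 3, 5), (1, 3, 10),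
      (1, 5, 7), (2, 9, 11), (2, 10, 11), (3, 4, 5), (3, 4, 13), (3, 10, 12), (3, 12, 13), (4, 5,
      6), (4, 6, 13), (5, 6, 14), (5, 7, 15), (5, 14, 15), (6, 11, 13), (6, 11, 16), (6, 14, 16)]
    fin := [0, 0, 0, 0, 4, 4, 6, 0, 8, 9, 0, 6, 12, 4, 4, 15, 16]
    chd := [(0, 4), (0, 9)]
    steps := [(0, 1), (0, 2), (0, 3), (0, 7), (0, 10), (4, 5), (4, 13), (4, 14), (6, 11)] }
  rep := [0, 4, 9, 6, 8, 12, 15, 16]

noncomputable def v2474 : Cov.CovD where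
  P := 3
  N := 5
  pl := [1, 4, 5, 8, 9]
  lev := [⟨[], [], [(0, 2)], [4], [(0, 0, [1, 2]), (2, 2, [0])]⟩,
    ⟨[], [(0, 0), (0, 2)], [(0, 0), (0, 2)], [], [(0, 0, [1, 2]), (2, 2, [0]), (3, 0, [1,
      2])]⟩,
    ⟨[(0, 1)], [(0, 2), (1, 0), (1, 2)], [(0, 2)], [3], [(2, 2, [0]), (3, 0, [1, 2])]⟩,
    ⟨[(0, 1), (1, 2)], [(1, 0), (1, 1), (1, 2), (2, 0)], [(0, 1)], [5], [(3, 0, [1, 2]),
      (6, 1, [0])]⟩,
    ⟨[(1, 3)], [(3, 0), (3, 1)], [], [], [(6, 1, [0])]⟩,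
    ⟨[(0, 1), (1, 2), (1, 3), (1, 4), (3, 4)], [(0, 0), (1, 0), (1, 1), (1, 2), (3, 0), (3,
      1), (4, 0), (4, 1)], [(0, 1)], [6], [(0, 0, [1, 2]), (7, 1, [0])]⟩,
    ⟨[(1, 5), (3, 4), (3, 5), (4, 5)], [(3, 1), (4, 1), (5, 0), (5, 1)], [(1, 1)], [3, 7],
      [(6, 1, [0]), (7, 1, [0])]⟩]
  Ta := [((0, 1), 0, 4), ((0, 8), 0, 6), ((3, 4), 0, 3), ((3, 5), 0, 5), ((6, 4), 1, 3), ((6, 5),
    1, 5), ((7, 8), 1, 6), ((7, 9), 1, 7)]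
  Tb := [((0, 1, 8), 0, 4, 6), ((1, 0, 2), 4, 0, 2), ((2, 1, 4), 2, 4, 3), ((3, 4, 5), 0, 3, 5),
    ((4, 2, 3), 3, 2, 0), ((4, 2, 6), 3, 2, 1), ((4, 2, 9), 3, 2, 7), ((4, 3, 6), 3, 0, 1),
    ((4, 3, 9), 3, 0, 7), ((4, 6, 9), 3, 1, 7), ((5, 3, 6), 5, 0, 1), ((6, 4, 5), 1, 3, 5),
    ((7, 8, 9), 1, 6, 7), ((8, 0, 7), 6, 0, 1), ((9, 4, 7), 7, 3, 1)]
  Tc := [(0, 1, 2)]
  Td := [((0, 1), (0, 1), 4), ((0, 1), (0, 8), 6), ((0, 1), (3, 4), 3), ((0, 1), (3, 5), 5), ((0,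
    2), (0, 1), 4), ((0, 2), (0, 8), 6), ((0, 2), (3, 4), 3), ((0, 2), (3, 5), 5), ((1, 0),
    (6, 4), 3), ((1, 0), (6, 5), 5), ((1, 0), (7, 8), 6), ((1, 0), (7, 9), 7), ((2, 0), (2,
    1), 4), ((2, 0), (2, 4), 3)]
  G := [[0, 0x6ace2ea4e1a141, 0xd24128528148928184e, 0xd24d21c145281492418cc,
    0x52812c9c418a92415241a8a], [0, 0x8e6168a2e41e181, 0x11cc1c22411cd8224a,
    0xd4821d8121cd412118c8c21cc, 0x44d9cc122d458c2188418aa], [0, 0xe4e236ace2c181,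
    0xd28124528148924188e, 0x9244524528cc92188c1, 0xc14882c14882c284521528ca8b], [0,
    0xee616ace2c181, 0xc1411c232811cd82246, 0x941255c12c98128c1, 0x81422881422855c1228b]]

noncomputable def n2474 : Ent := ⟨e2474, noF, [], [], []⟩

def c2474 : PLift (Cov.check n2474.C.D v2474 = true) := ⟨by decide +kernel⟩

def b2474 : PLift (entF (fidx ts) 400 2474 n2474 = true) := ⟨by decide +kernel⟩

theorem g2474 : GoodF (fidx ts) 400 2474 := GoodF.ofV v2474 n2474 c2474.down b2474.down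

/-- 4746476:1953/2 -/
noncomputable def e2475 : SCfg where
  D := {
    a := 7
    L := 10
    kp := 7
    inn := [(0, 1), (1, 0), (1, 2), (1, 3), (1, 5), (2, 1), (3, 1), (3, 4), (3, 5), (4, 3), (4, 5), (4,
      6), (5, 1), (5, 3), (5, 4), (5, 6), (6, 4), (6, 5)]
    mix := [(0, 0), (0, 1), (0, 2), (1, 0), (1, 2), (1, 3), (2, 2), (2, 3), (2, 4), (3, 3), (3, 5), (3,
      6), (4, 6), (5, 0), (5, 7), (5, 8), (6, 4), (6, 6), (6, 7), (6, 9)]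
    cl := [0, 4, 2, 0, 3, 5, 1, 1, 6, 7]
    chq := [(0, 1), (0, 2), (1, 0), (2, 0)]
    rng := [(0, 1), (0, 8), (1, 0), (1, 2), (2, 1), (2, 4), (3, 4), (3, 5), (4, 2), (4, 3), (4, 7), (4,
      9), (5, 3), (5, 6), (6, 5), (6, 9), (7, 4), (7, 8), (8, 0), (8, 7), (9, 4), (9, 6)]
    lev := [] }
  links := [[1, 7, 8, 9], [7, 0, 9, 2, 10, 3, 5], [10, 1, 9, 11], [5, 1, 10, 12, 13, 4], [5, 3, 13, 6],
    [7, 1, 3, 4, 6, 14, 15], [14, 5, 4, 13, 16, 11]]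
  P := {
    a := 7
    N := 17
    nb := [898, 1709, 3586, 13362, 8296, 49370, 92208, 33059, 641, 2311, 6158, 83524, 9224, 69720,
      34912, 16544, 10304]
    tri := [(0, 1, 7), (0, 1, 9), (0, 7, 8), (0, 8, 9), (1, 2, 9), (1, 2, 10), (1, 3, 5), (1, 3, 10),
      (1, 5, 7), (2, 9, 11), (2, 10, 11), (3, 4, 5), (3, 4, 13), (3, 10, 12), (3, 12, 13), (4, 5,
      6), (4, 6, 13), (5, 6, 14), (5, 7, 15), (5, 14, 15), (6, 11, 14), (6, 11, 16), (6, 13, 16)]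
    fin := [0, 0, 0, 0, 4, 4, 6, 0, 8, 9, 0, 6, 12, 4, 4, 15, 16]
    chd := [(0, 4), (0, 9)]
    steps := [(0, 1), (0, 2), (0, 3), (0, 7), (0, 10), (4, 5), (4, 13), (4, 14), (6, 11)] }
  rep := [0, 4, 9, 6, 8, 12, 15, 16]

noncomputable def v2475 : Cov.CovD where
  P := 3
  N := 5
  pl := [1, 4, 5, 8, 9]
  lev := [⟨[], [], [(0, 2)], [4], [(0, 0, [1, 2]), (2, 2, [0])]⟩,
    ⟨[], [(0, 0), (0, 2)], [(0, 0), (0, 2)], [], [(0, 0, [1, 2]), (2, 2, [0]), (3, 0, [1,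
      2])]⟩,
    ⟨[(0, 1)], [(0, 2), (1, 0), (1, 2)], [(0, 2)], [3], [(2, 2, [0]), (3, 0, [1, 2])]⟩,
    ⟨[(0, 1), (1, 2)], [(1, 0), (1, 1), (1, 2), (2, 0)], [(0, 1)], [5], [(3, 0, [1, 2]),
      (6, 1, [0])]⟩,
    ⟨[(1, 3)], [(3, 0), (3, 1)], [], [], [(6, 1, [0])]⟩,
    ⟨[(0, 1), (1, 2), (1, 3), (1, 4), (3, 4)], [(0, 0), (1, 0), (1, 1), (1, 2), (3, 0), (3,
      1), (4, 0), (4, 1)], [(0, 1)], [6], [(0, 0, [1, 2]), (7, 1, [0])]⟩,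
    ⟨[(1, 5), (3, 4), (3, 5), (4, 5)], [(3, 1), (4, 1), (5, 0), (5, 1)], [(1, 1)], [3, 7],
      [(6, 1, [0]), (7, 1, [0])]⟩]
  Ta := [((0, 1), 0, 4), ((0, 8), 0, 6), ((3, 4), 0, 3), ((3, 5), 0, 5), ((6, 5), 1, 5), ((6, 9),
    1, 7), ((7, 4), 1, 3), ((7, 8), 1, 6)]
  Tb := [((0, 1, 8), 0, 4, 6), ((1, 0, 2), 4, 0, 2), ((2, 1, 4), 2, 4, 3), ((3, 4, 5), 0, 3, 5),
    ((4, 2, 3), 3, 2, 0), ((4, 2, 7), 3, 2, 1), ((4, 2, 9), 3, 2, 7), ((4, 3, 7), 3, 0, 1),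
    ((4, 3, 9), 3, 0, 7), ((4, 7, 9), 3, 1, 7), ((5, 3, 6), 5, 0, 1), ((6, 5, 9), 1, 5, 7),
    ((7, 4, 8), 1, 3, 6), ((8, 0, 7), 6, 0, 1), ((9, 4, 6), 7, 3, 1)]
  Tc := [(0, 1, 2)]
  Td := [((0, 1), (0, 1), 4), ((0, 1), (0, 8), 6), ((0, 1), (3, 4), 3), ((0, 1), (3, 5), 5), ((0,
    2), (0, 1), 4), ((0, 2), (0, 8), 6), ((0, 2), (3, 4), 3), ((0, 2), (3, 5), 5), ((1, 0),
    (6, 5), 5), ((1, 0), (6, 9), 7), ((1, 0), (7, 4), 3), ((1, 0), (7, 8), 6), ((2, 0), (2,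
    1), 4), ((2, 0), (2, 4), 3)]
  G := [[0, 0x6ace2ea4e1a141, 0xd24128d24124a, 0x52829d21c1492415241c8c, 0xd28128d28128a], [0,
    0xee616ace4a181, 0xc182114d42a8c14255c12a86, 0x44821d894521c5dc12188421cc,
    0xd4121c8415881aa5dc12188218aa], [0, 0x6ace2ea4e1a141, 0xd28124d28124a,
    0x521528c4921921c8c1, 0xd21d28c281], [0, 0x6ea8466ace1a141, 0xc142491c412a5dc2122c14288e,
    0x948255c12c98128c1, 0xc12c12c82c142884451cc228b]]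

noncomputable def n2475 : Ent := ⟨e2475, noF, [], [], []⟩

def c2475 : PLift (Cov.check n2475.C.D v2475 = true) := ⟨by decide +kernel⟩

def b2475 : PLift (entF (fidx ts) 400 2475 n2475 = true) := ⟨by decide +kernel⟩

theorem g2475 : GoodF (fidx ts) 400 2475 := GoodF.ofV v2475 n2475 c2475.down b2475.down

/-- 4746476:1953 -/
noncomputable def e2476 : SCfg where
  D := {
    a := 7
    L := 11
    kp := 8
    inn := [(0, 1), (1, 0), (1, 2), (1, 3), (1, 5), (2, 1), (3, 1), (3, 4), (3, 5), (4, 3), (4, 5), (4,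
      6), (5, 1), (5, 3), (5, 4), (5, 6), (6, 4), (6, 5)]
    mix := [(0, 0), (0, 1), (0, 2), (1, 0), (1, 2), (1, 3), (2, 2), (2, 3), (2, 4), (3, 3), (3, 5), (3,
      6), (4, 6), (5, 0), (5, 7), (5, 8), (6, 6), (6, 7), (6, 9), (6, 10)]
    cl := [0, 5, 1, 0, 6, 4, 3, 3, 2, 7, 8]
    chq := [(0, 1), (1, 0), (2, 4), (4, 2)]
    rng := [(0, 1), (0, 8), (1, 0), (1, 2), (2, 1), (2, 4), (3, 4), (3, 5), (4, 2), (4, 3), (5, 3), (5,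
      6), (6, 5), (6, 9), (7, 8), (7, 10), (8, 0), (8, 7), (9, 6), (9, 10), (10, 7), (10, 9)]
    lev := [] }
  links := [[1, 7, 8, 9], [7, 0, 9, 2, 10, 3, 5], [10, 1, 9, 11], [5, 1, 10, 12, 13, 4], [5, 3, 13, 6],
    [7, 1, 3, 4, 6, 14, 15], [14, 5, 4, 13, 16, 17]]
  P := {
    a := 7
    N := 18
    nb := [898, 1709, 3586, 13362, 8296, 49370, 221232, 33059, 641, 2311, 6158, 1540, 9224, 69720,
      163936, 16544, 139328, 81984]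
    tri := [(0, 1, 7), (0, 1, 9), (0, 7, 8), (0, 8, 9), (1, 2, 9), (1, 2, 10), (1, 3, 5), (1, 3, 10),
      (1, 5, 7), (2, 9, 11), (2, 10, 11), (3, 4, 5), (3, 4, 13), (3, 10, 12), (3, 12, 13), (4, 5,
      6), (4, 6, 13), (5, 6, 14), (5, 7, 15), (5, 14, 15), (6, 13, 16), (6, 14, 17), (6, 16, 17)]
    fin := [0, 0, 0, 3, 3, 3, 6, 0, 8, 9, 0, 11, 3, 6, 6, 15, 16, 17]
    chd := [(0, 9), (3, 15)]
    steps := [(0, 1), (0, 2), (0, 7), (0, 10), (3, 4), (3, 5), (3, 12), (6, 13), (6, 14)] }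
  rep := [0, 9, 15, 6, 3, 8, 11, 16, 17]

noncomputable def v2476 : Cov.CovD where
  P := 3
  N := 6
  pl := [1, 4, 9, 10]
  lev := [⟨[], [], [(0, 1)], [5], [(0, 0, [1]), (2, 1, [0])]⟩,
    ⟨[], [(0, 0), (0, 1)], [(0, 0), (0, 1)], [], [(0, 0, [1]), (2, 1, [0]), (3, 0, [1])]⟩,
    ⟨[(0, 1)], [(0, 1), (1, 0), (1, 1)], [(0, 1)], [6], [(2, 1, [0]), (3, 0, [1])]⟩,
    ⟨[(0, 1), (1, 2)], [(1, 0), (1, 1), (1, 3), (1, 4), (2, 0)], [(0, 3), (0, 4), (3, 4)],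
      [], [(3, 0, [1]), (5, 4, [2]), (6, 3, [])]⟩,
    ⟨[(1, 3)], [(3, 0), (3, 3), (3, 4)], [], [], [(6, 3, [])]⟩,
    ⟨[(0, 1), (1, 2), (1, 3), (1, 4), (3, 4)], [(0, 0), (1, 0), (1, 1), (1, 2), (1, 3), (3,
      0), (3, 2), (3, 3), (3, 4), (4, 0), (4, 2), (4, 3)], [(0, 2), (0, 3), (2, 3)], [], [(0,
      0, [1]), (7, 3, []), (8, 2, [4])]⟩,
    ⟨[(1, 5), (3, 4), (3, 5), (4, 5)], [(3, 3), (4, 3), (5, 0), (5, 2), (5, 3)], [(3, 3)],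
      [7, 8], [(6, 3, []), (7, 3, [])]⟩]
  Ta := [((0, 1), 0, 5), ((0, 8), 0, 2), ((3, 4), 0, 6), ((3, 5), 0, 4), ((6, 5), 3, 4), ((6, 9),
    3, 7), ((7, 8), 3, 2), ((7, 10), 3, 8)]
  Tb := [((0, 1, 8), 0, 5, 2), ((1, 0, 2), 5, 0, 1), ((2, 1, 4), 1, 5, 6), ((3, 4, 5), 0, 6, 4),
    ((4, 2, 3), 6, 1, 0), ((5, 3, 6), 4, 0, 3), ((6, 5, 9), 3, 4, 7), ((7, 8, 10), 3, 2, 8),
    ((8, 0, 7), 2, 0, 3), ((9, 6, 10), 7, 3, 8), ((10, 7, 9), 8, 3, 7)]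
  Tc := []
  Td := [((0, 1), (0, 1), 5), ((0, 1), (0, 8), 2), ((0, 1), (3, 4), 6), ((0, 1), (3, 5), 4), ((1,
    0), (2, 1), 5), ((1, 0), (2, 4), 6), ((2, 4), (8, 0), 0), ((2, 4), (8, 7), 3), ((4, 2),
    (5, 3), 0), ((4, 2), (5, 6), 3)]
  G := [[0, 0xe8428b42186e8b85224389f8c244e, 0xf4121f21f21c1cf41f21d4243e18c,
    0xe4749218e4749218c, 0xa24272b418e2729418c], [0, 0xa1f492a11fc921824e8813fc52a13dc52686,
    0xf21f48618f24f81a14c, 0x74121b8421c74821b8121cc, 0xf21f84a14f248a4198421cc], [0,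
    0xe8b85244f4345c228e8b85284e, 0, 0xe8b852e8b852c41, 0xe27294e27294c81], [0,
    0x41f3c9224a1f4921841c8fa582418818ae, 0, 0x741237c12cb8128842cc1,
    0xf258a44f21f84a8812cc1]]

noncomputable def n2476 : Ent := ⟨e2476, noF, [], [], [(11, 16, [7334685537875745012586738086077695515070955365108989538292687703810049, 0]), (11, 17, [6903326391201334775872065844685381424292761054348340378595029939826689, 0])]⟩

def c2476 : PLift (Cov.check n2476.C.D v2476 = true) := ⟨by decide +kernel⟩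

def b2476 : PLift (entF (fidx ts) 400 2476 n2476 = true) := ⟨by decide +kernel⟩

theorem g2476 : GoodF (fidx ts) 400 2476 := GoodF.ofV v2476 n2476 c2476.down b2476.down

/-- 4588447:1965 -/
noncomputable def e2477 : SCfg where
  D := {
    a := 7
    L := 11
    kp := 9
    inn := [(0, 1), (0, 2), (1, 0), (1, 2), (1, 3), (2, 0), (2, 1), (2, 3), (2, 5), (2, 6), (3, 1), (3,
      2), (3, 4), (3, 6), (4, 3), (4, 6), (5, 2), (5, 6), (6, 2), (6, 3), (6, 4), (6, 5)]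
    mix := [(0, 0), (0, 1), (1, 1), (1, 2), (2, 0), (2, 3), (2, 4), (3, 2), (3, 5), (3, 6), (3, 7), (4,
      7), (4, 8), (5, 3), (5, 9), (6, 8), (6, 9), (6, 10)]
    cl := [1, 2, 0, 3, 6, 8, 9, 0, 5, 4, 7]
    chq := [(0, 1), (0, 3), (0, 4), (0, 6), (0, 7), (1, 0), (3, 0), (4, 0), (6, 0), (7, 0)]
    rng := [(0, 1), (0, 4), (1, 0), (1, 2), (2, 1), (2, 5), (3, 4), (3, 9), (4, 0), (4, 3), (5, 2), (5,
      6), (6, 5), (6, 7), (7, 6), (7, 8), (8, 7), (8, 10), (9, 3), (9, 10), (10, 8), (10, 9)]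
    lev := [] }
  links := [[1, 2, 7, 8], [2, 0, 8, 9, 3], [7, 0, 1, 3, 6, 5, 10, 11], [6, 2, 1, 9, 12, 13, 14, 4], [6,
    3, 14, 15], [10, 2, 6, 16], [16, 5, 2, 3, 4, 15, 17]]
  P := {
    a := 7
    N := 18
    nb := [390, 781, 3307, 29270, 49224, 66628, 229436, 2309, 643, 4362, 67620, 1156, 8712, 20488,
      40984, 147536, 132192, 98368]
    tri := [(0, 1, 2), (0, 1, 8), (0, 2, 7), (0, 7, 8), (1, 2, 3), (1, 3, 9), (1, 8, 9), (2, 3, 6), (2,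
      5, 6), (2, 5, 10), (2, 7, 11), (2, 10, 11), (3, 4, 6), (3, 4, 14), (3, 9, 12), (3, 12, 13),
      (3, 13, 14), (4, 6, 15), (4, 14, 15), (5, 6, 16), (5, 10, 16), (6, 15, 17), (6, 16, 17)]
    fin := [0, 0, 2, 2, 2, 2, 2, 0, 8, 2, 10, 11, 12, 13, 2, 15, 16, 17]
    chd := [(0, 2), (2, 10), (2, 11), (2, 16), (2, 17)]
    steps := [(0, 1), (0, 7), (2, 3), (2, 4), (2, 5), (2, 6), (2, 9), (2, 14)] }
  rep := [2, 0, 8, 10, 16, 15, 11, 17, 12, 13]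

noncomputable def v2477 : Cov.CovD where
  P := 3
  N := 7
  pl := [1, 5, 6, 8]
  lev := [⟨[], [], [], [2], [(0, 1, [0])]⟩,
    ⟨[], [(0, 0), (0, 1)], [], [2], [(2, 0, [1, 3, 4, 6, 7])]⟩,
    ⟨[(0, 1)], [(0, 1), (0, 3), (0, 6), (1, 0), (1, 1), (1, 3), (1, 6)], [(1, 3), (1, 6),
      (3, 6)], [], [(0, 1, [0]), (3, 3, [0]), (4, 6, [0])]⟩,
    ⟨[(0, 1), (0, 2), (1, 2)], [(1, 0), (2, 0), (2, 1), (2, 3), (2, 6)], [(0, 0)], [8, 9],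
      [(2, 0, [1, 3, 4, 6, 7]), (7, 0, [1, 3, 4, 6, 7])]⟩,
    ⟨[(1, 3), (2, 3)], [(3, 0)], [], [5], [(7, 0, [1, 3, 4, 6, 7])]⟩,
    ⟨[(0, 2), (1, 2), (2, 3)], [(2, 1), (2, 3), (2, 4), (2, 6)], [(3, 4)], [], [(3, 3,
      [0]), (9, 4, [0])]⟩,
    ⟨[(0, 2), (1, 2), (1, 3), (2, 3), (2, 4), (2, 5), (3, 4), (3, 5), (4, 5)], [(2, 1), (2,
      3), (2, 4), (2, 6), (2, 7), (3, 0), (3, 4), (3, 7), (4, 0), (4, 4), (4, 7), (5, 3), (5,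
      4), (5, 7)], [(4, 7)], [5], [(9, 4, [0]), (10, 7, [0])]⟩]
  Ta := [((2, 1), 0, 2), ((2, 5), 0, 8), ((7, 6), 0, 9), ((7, 8), 0, 5)]
  Tb := [((0, 1, 4), 1, 2, 6), ((1, 0, 2), 2, 1, 0), ((2, 1, 5), 0, 2, 8), ((3, 4, 9), 3, 6, 4),
    ((4, 0, 3), 6, 1, 3), ((5, 2, 6), 8, 0, 9), ((6, 5, 7), 9, 8, 0), ((7, 6, 8), 0, 9, 5),
    ((8, 7, 10), 5, 0, 7), ((9, 3, 10), 4, 3, 7), ((10, 8, 9), 7, 5, 4)]
  Tc := [(0, 1, 3), (0, 1, 4), (0, 1, 6), (0, 1, 7), (0, 3, 4), (0, 3, 6), (0, 3, 7), (0, 4, 6),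
    (0, 4, 7), (0, 6, 7)]
  Td := [((0, 1), (2, 1), 2), ((0, 1), (2, 5), 8), ((0, 1), (7, 6), 9), ((0, 1), (7, 8), 5), ((0,
    3), (2, 1), 2), ((0, 3), (2, 5), 8), ((0, 3), (7, 6), 9), ((0, 3), (7, 8), 5), ((0, 4),
    (2, 1), 2), ((0, 4), (2, 5), 8), ((0, 4), (7, 6), 9), ((0, 4), (7, 8), 5), ((0, 6), (2,
    1), 2), ((0, 6), (2, 5), 8), ((0, 6), (7, 6), 9), ((0, 6), (7, 8), 5), ((0, 7), (2, 1),
    2), ((0, 7), (2, 5), 8), ((0, 7), (7, 6), 9), ((0, 7), (7, 8), 5), ((1, 0), (0, 1), 2),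
    ((1, 0), (0, 4), 6), ((3, 0), (3, 4), 6), ((3, 0), (3, 9), 4), ((4, 0), (9, 3), 3), ((4,
    0), (9, 10), 7), ((6, 0), (4, 0), 1), ((6, 0), (4, 3), 3), ((7, 0), (10, 8), 5), ((7, 0),
    (10, 9), 4)]
  G := [[0, 0x1111a441111161111a1111ae1111c11116a1111a1111c1111cee1c,
    0x111e111ea111e111ec111e111ece124,
    0x1111314e4113412119aa12311ececbb4d113115611511aca12111e6ce8f7111e111eeeedda9c142113139ac485,
    0x113119a1211914e61118f111ece6bd12111e22cef765111e111ecee7d81a11311561218a11a119ce121468c29],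
    [0, 0x1111a111166111161111a11116e11116111161111cee1111688c1, 0,
    0x113119a113115664115116c849163111e6271c31116fceabde3511ea62dbe111311561111a14ea81c88758911518c48dc,
    0x5c31156fcaab9a356311c22cf611c3111afce678111171117a214119c113119a1211914eecb113115611518cc829]]

noncomputable def n2477 : Ent := ⟨e2477, noF, [], [], []⟩

def c2477 : PLift (Cov.check n2477.C.D v2477 = true) := ⟨by decide +kernel⟩

def b2477 : PLift (entF (fidx ts) 400 2477 n2477 = true) := ⟨by decide +kernel⟩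

theorem g2477 : GoodF (fidx ts) 400 2477 := GoodF.ofV v2477 n2477 c2477.down b2477.down

/-- 4586644:1975/2 -/
noncomputable def e2478 : SCfg where
  D := {
    a := 7
    L := 9
    kp := 6
    inn := [(0, 1), (0, 2), (1, 0), (1, 2), (2, 0), (2, 1), (2, 3), (2, 4), (3, 2), (3, 4), (3, 5), (4,
      2), (4, 3), (4, 6), (5, 3), (6, 4)]
    mix := [(0, 0), (0, 1), (1, 1), (1, 2), (1, 3), (2, 0), (2, 3), (2, 4), (2, 5), (3, 4), (3, 6), (3,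
      7), (4, 5), (4, 7), (4, 8), (5, 1), (5, 6), (5, 7), (6, 1), (6, 7), (6, 8)]
    cl := [2, 1, 6, 2, 0, 3, 4, 0, 5]
    chq := [(0, 3), (1, 3), (3, 0), (3, 1)]
    rng := [(0, 1), (0, 5), (1, 0), (1, 2), (1, 6), (1, 7), (1, 8), (2, 1), (2, 3), (3, 2), (3, 4), (4,
      3), (4, 6), (5, 0), (5, 8), (6, 1), (6, 4), (7, 1), (8, 1), (8, 5)]
    lev := [] }
  links := [[1, 2, 7, 8], [2, 0, 8, 9, 10], [7, 0, 1, 10, 11, 3, 4, 12], [4, 2, 11, 13, 5, 14], [12, 2,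
    3, 14, 6, 15], [14, 3, 13, 8], [15, 4, 14, 8]]
  P := {
    a := 7
    N := 16
    nb := [390, 1797, 7323, 26676, 53324, 24840, 49424, 4357, 58083, 1282, 2566, 9228, 32916, 2344,
      376, 4432]
    tri := [(0, 1, 2), (0, 1, 8), (0, 2, 7), (0, 7, 8), (1, 2, 10), (1, 8, 9), (1, 9, 10), (2, 3, 4),
      (2, 3, 11), (2, 4, 12), (2, 7, 12), (2, 10, 11), (3, 4, 14), (3, 5, 13), (3, 5, 14), (3, 11,
      13), (4, 6, 14), (4, 6, 15), (4, 12, 15), (5, 8, 13), (5, 8, 14), (6, 8, 14), (6, 8, 15)]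
    fin := [0, 0, 0, 3, 4, 5, 5, 0, 5, 9, 0, 3, 4, 13, 3, 15]
    chd := [(3, 4), (5, 4)]
    steps := [(0, 1), (0, 2), (0, 7), (0, 10), (3, 11), (3, 14), (4, 12), (5, 8), (5, 6)] }
  rep := [3, 5, 0, 4, 13, 15, 9]

noncomputable def v2478 : Cov.CovD where
  P := 3
  N := 4
  pl := [2, 6, 8]
  lev := [⟨[], [], [(1, 2)], [], [(0, 2, []), (1, 1, [3])]⟩,
    ⟨[], [(0, 1), (0, 2)], [(1, 2)], [6], [(1, 1, [3]), (3, 2, [])]⟩,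
    ⟨[(0, 1)], [(0, 0), (0, 1), (0, 2), (0, 3), (1, 0), (1, 1), (1, 2), (1, 3)], [(0, 2),
      (0, 3), (2, 2), (2, 3)], [], [(0, 2, []), (3, 2, []), (4, 0, [3]), (5, 3, [0, 1])]⟩,
    ⟨[(0, 2), (1, 2)], [(2, 0), (2, 2), (2, 3)], [(0, 0)], [4], [(4, 0, [3]), (7, 0, [3])]⟩,
    ⟨[(0, 2), (1, 2), (2, 3)], [(2, 0), (2, 2), (2, 3), (3, 0), (3, 3)], [(0, 3)], [5],
      [(5, 3, [0, 1]), (7, 0, [3])]⟩,
    ⟨[(2, 3), (3, 4)], [(0, 1), (1, 1), (3, 0), (3, 1), (4, 0)], [(0, 1)], [4], [(1, 1,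
      [3]), (7, 0, [3])]⟩,
    ⟨[(2, 4), (3, 4)], [(0, 1), (1, 1), (3, 0), (4, 0), (4, 1), (4, 3), (5, 0), (5, 1)],
      [(0, 1)], [5], [(1, 1, [3]), (7, 0, [3])]⟩]
  Ta := [((0, 1), 2, 1), ((0, 5), 2, 3), ((3, 2), 2, 6), ((3, 4), 2, 0), ((4, 3), 0, 2), ((4, 6),
    0, 4), ((7, 1), 0, 1)]
  Tb := [((0, 1, 5), 2, 1, 3), ((1, 0, 2), 1, 2, 6), ((1, 0, 6), 1, 2, 4), ((1, 0, 7), 1, 2, 0),
    ((1, 0, 8), 1, 2, 5), ((1, 2, 6), 1, 6, 4), ((1, 2, 7), 1, 6, 0), ((1, 2, 8), 1, 6, 5),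
    ((1, 6, 7), 1, 4, 0), ((1, 6, 8), 1, 4, 5), ((1, 7, 8), 1, 0, 5), ((2, 1, 3), 6, 1, 2),
    ((3, 2, 4), 2, 6, 0), ((4, 3, 6), 0, 2, 4), ((5, 0, 8), 3, 2, 5), ((6, 1, 4), 4, 1, 0),
    ((8, 1, 5), 5, 1, 3)]
  Tc := [(3, 0, 1)]
  Td := [((0, 3), (4, 3), 2), ((0, 3), (4, 6), 4), ((0, 3), (7, 1), 1), ((1, 3), (1, 0), 2), ((1,
    3), (1, 2), 6), ((1, 3), (1, 6), 4), ((1, 3), (1, 7), 0), ((1, 3), (1, 8), 5), ((3, 0),
    (5, 0), 2), ((3, 0), (5, 8), 5), ((3, 1), (5, 0), 2), ((3, 1), (5, 8), 5)]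
  G := [[0, 0, 0, 0x5c9225c922cc9c22418d22c51, 0x8898c8784c444bc241], [0, 0,
    0x8148344c43c248c8381443c281824e4, 0, 0x48818878114247c2124818e8441c4bc294], [0,
    0x482868424a8842ce128, 0, 0x11c22c82c42a511c22ccc229c4, 0x48c8684c4ac8844c2348], [0,
    0x282888822e4242ce1428822e448224ec1c4, 0, 0, 0x48886842444e2c4248828948886842444e2b4]]

noncomputable def n2478 : Ent := ⟨e2478, noF, [], [], []⟩

def c2478 : PLift (Cov.check n2478.C.D v2478 = true) := ⟨by decide +kernel⟩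

def b2478 : PLift (entF (fidx ts) 400 2478 n2478 = true) := ⟨by decide +kernel⟩

theorem g2478 : GoodF (fidx ts) 400 2478 := GoodF.ofV v2478 n2478 c2478.down b2478.down

/-- 4586644:1975/3 -/
noncomputable def e2479 : SCfg where
  D := {
    a := 7
    L := 9
    kp := 6
    inn := [(0, 1), (0, 2), (1, 0), (1, 2), (2, 0), (2, 1), (2, 3), (2, 4), (3, 2), (3, 4), (3, 5), (4,
      2), (4, 3), (4, 6), (5, 3), (6, 4)]
    mix := [(0, 0), (0, 1), (1, 1), (1, 2), (1, 3), (2, 0), (2, 3), (2, 4), (2, 5), (3, 4), (3, 6), (3,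
      7), (4, 5), (4, 7), (4, 8), (5, 1), (5, 6), (5, 7), (6, 2), (6, 7), (6, 8)]
    cl := [1, 2, 4, 1, 0, 3, 5, 0, 6]
    chq := [(0, 3), (3, 0), (3, 4), (4, 3)]
    rng := [(0, 1), (0, 5), (1, 0), (1, 2), (1, 6), (1, 7), (2, 1), (2, 3), (2, 7), (2, 8), (3, 2), (3,
      4), (4, 3), (4, 6), (5, 0), (5, 8), (6, 1), (6, 4), (7, 1), (7, 2), (8, 2), (8, 5)]
    lev := [] }
  links := [[1, 2, 7, 8], [2, 0, 8, 9, 10], [7, 0, 1, 10, 11, 3, 4, 12], [4, 2, 11, 13, 5, 14], [12, 2,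
    3, 14, 6, 15], [14, 3, 13, 8], [15, 4, 14, 9]]
  P := {
    a := 7
    N := 16
    nb := [390, 1797, 7323, 26676, 53324, 24840, 49680, 4357, 25251, 50498, 2566, 9228, 32916, 2344,
      888, 4688]
    tri := [(0, 1, 2), (0, 1, 8), (0, 2, 7), (0, 7, 8), (1, 2, 10), (1, 8, 9), (1, 9, 10), (2, 3, 4),
      (2, 3, 11), (2, 4, 12), (2, 7, 12), (2, 10, 11), (3, 4, 14), (3, 5, 13), (3, 5, 14), (3, 11,
      13), (4, 6, 14), (4, 6, 15), (4, 12, 15), (5, 8, 13), (5, 8, 14), (6, 9, 14), (6, 9, 15)]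
    fin := [0, 0, 2, 2, 4, 5, 4, 0, 5, 4, 0, 2, 12, 13, 2, 15]
    chd := [(2, 12), (4, 12)]
    steps := [(0, 1), (0, 7), (0, 10), (2, 3), (2, 11), (2, 14), (4, 6), (4, 9), (5, 8)] }
  rep := [2, 0, 5, 12, 4, 13, 15]

noncomputable def v2479 : Cov.CovD where
  P := 3
  N := 4
  pl := [1, 6, 8]
  lev := [⟨[], [], [], [2], [(0, 1, [])]⟩,
    ⟨[], [(0, 1), (0, 4)], [(1, 4)], [2], [(2, 4, [3]), (3, 1, [])]⟩,
    ⟨[(0, 1)], [(0, 0), (0, 1), (0, 3), (1, 0), (1, 1), (1, 3), (1, 4)], [(0, 1), (0, 3),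
      (1, 1), (1, 3)], [], [(0, 1, []), (3, 1, []), (4, 0, [3]), (5, 3, [0, 4])]⟩,
    ⟨[(0, 2), (1, 2)], [(2, 0), (2, 1), (2, 3)], [(0, 0)], [5], [(4, 0, [3]), (7, 0, [3])]⟩,
    ⟨[(0, 2), (1, 2), (2, 3)], [(2, 0), (2, 1), (2, 3), (3, 0), (3, 3)], [(0, 3)], [6],
      [(5, 3, [0, 4]), (7, 0, [3])]⟩,
    ⟨[(2, 3), (3, 4)], [(3, 0), (4, 0)], [], [2, 5], [(7, 0, [3])]⟩,
    ⟨[(2, 4), (3, 4)], [(1, 4), (3, 0), (4, 0), (4, 3), (4, 4), (5, 0)], [(0, 4)], [6],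
      [(2, 4, [3]), (7, 0, [3])]⟩]
  Ta := [((0, 1), 1, 2), ((0, 5), 1, 3), ((3, 2), 1, 4), ((3, 4), 1, 0), ((4, 3), 0, 1), ((4, 6),
    0, 5), ((7, 1), 0, 2), ((7, 2), 0, 4)]
  Tb := [((0, 1, 5), 1, 2, 3), ((1, 0, 2), 2, 1, 4), ((1, 0, 6), 2, 1, 5), ((1, 0, 7), 2, 1, 0),
    ((1, 2, 6), 2, 4, 5), ((1, 2, 7), 2, 4, 0), ((1, 6, 7), 2, 5, 0), ((2, 1, 3), 4, 2, 1),
    ((2, 1, 7), 4, 2, 0), ((2, 1, 8), 4, 2, 6), ((2, 3, 7), 4, 1, 0), ((2, 3, 8), 4, 1, 6),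
    ((2, 7, 8), 4, 0, 6), ((3, 2, 4), 1, 4, 0), ((4, 3, 6), 0, 1, 5), ((5, 0, 8), 3, 1, 6),
    ((6, 1, 4), 5, 2, 0), ((7, 1, 2), 0, 2, 4), ((8, 2, 5), 6, 4, 3)]
  Tc := [(3, 0, 4)]
  Td := [((0, 3), (4, 3), 1), ((0, 3), (4, 6), 5), ((0, 3), (7, 1), 2), ((0, 3), (7, 2), 4), ((3,
    0), (5, 0), 1), ((3, 0), (5, 8), 6), ((3, 4), (5, 0), 1), ((3, 4), (5, 8), 6), ((4, 3),
    (2, 1), 2), ((4, 3), (2, 3), 1), ((4, 3), (2, 7), 0), ((4, 3), (2, 8), 6)]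
  G := [[0, 0, 0, 0x614864b2282185845ac11, 0x1821a226296384924ac21], [0,
    0x21c85a1c45a4342144b614118e68c1, 0, 0, 0x1848a1241a69841832821ec11], [0, 0,
    0x62a822e64a224ec124, 0x882864424a4884ce124275c58a6894, 0x282222c126886286a84a24ac29],
    [0, 0, 0x84286a2846a14288e8e4464ac1c8, 0, 0xc8e8688e2a8282ce15832aa724248e6892]]

noncomputable def n2479 : Ent := ⟨e2479, noF, [], [], []⟩

def c2479 : PLift (Cov.check n2479.C.D v2479 = true) := ⟨by decide +kernel⟩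

def b2479 : PLift (entF (fidx ts) 400 2479 n2479 = true) := ⟨by decide +kernel⟩

theorem g2479 : GoodF (fidx ts) 400 2479 := GoodF.ofV v2479 n2479 c2479.down b2479.down

/-- 4586644:1975/1 -/
noncomputable def e2480 : SCfg where
  D := {
    a := 7
    L := 10
    kp := 7
    inn := [(0, 1), (0, 2), (1, 0), (1, 2), (2, 0), (2, 1), (2, 3), (2, 4), (3, 2), (3, 4), (3, 5), (4,
      2), (4, 3), (4, 6), (5, 3), (6, 4)]
    mix := [(0, 0), (0, 1), (1, 1), (1, 2), (1, 3), (2, 0), (2, 3), (2, 4), (2, 5), (3, 4), (3, 6), (3,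
      7), (4, 5), (4, 7), (4, 8), (5, 1), (5, 6), (5, 7), (6, 7), (6, 8), (6, 9)]
    cl := [1, 2, 7, 1, 0, 3, 4, 0, 5, 6]
    chq := [(0, 3), (3, 0), (3, 6), (6, 3)]
    rng := [(0, 1), (0, 5), (1, 0), (1, 2), (1, 6), (1, 7), (2, 1), (2, 3), (3, 2), (3, 4), (4, 3), (4,
      6), (5, 0), (5, 8), (6, 1), (6, 4), (7, 1), (7, 9), (8, 5), (8, 9), (9, 7), (9, 8)]
    lev := [] }
  links := [[1, 2, 7, 8], [2, 0, 8, 9, 10], [7, 0, 1, 10, 11, 3, 4, 12], [4, 2, 11, 13, 5, 14], [12, 2,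
    3, 14, 6, 15], [14, 3, 13, 8], [15, 4, 14, 16]]
  P := {
    a := 7
    N := 17
    nb := [390, 1797, 7323, 26676, 53324, 24840, 114704, 4357, 25251, 1282, 2566, 9228, 32916, 2344,
      65912, 69712, 49216]
    tri := [(0, 1, 2), (0, 1, 8), (0, 2, 7), (0, 7, 8), (1, 2, 10), (1, 8, 9), (1, 9, 10), (2, 3, 4),
      (2, 3, 11), (2, 4, 12), (2, 7, 12), (2, 10, 11), (3, 4, 14), (3, 5, 13), (3, 5, 14), (3, 11,
      13), (4, 6, 14), (4, 6, 15), (4, 12, 15), (5, 8, 13), (5, 8, 14), (6, 14, 16), (6, 15, 16)]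
    fin := [0, 0, 0, 3, 4, 5, 6, 0, 5, 9, 0, 3, 4, 13, 3, 15, 6]
    chd := [(3, 4), (4, 6)]
    steps := [(0, 1), (0, 2), (0, 7), (0, 10), (3, 11), (3, 14), (4, 12), (5, 8), (6, 16)] }
  rep := [3, 0, 5, 4, 13, 15, 6, 9]

noncomputable def v2480 : Cov.CovD where
  P := 3
  N := 5
  pl := [1, 2, 6, 8]
  lev := [⟨[], [], [], [2], [(0, 1, [])]⟩,
    ⟨[], [(0, 1)], [], [2, 7], [(3, 1, [])]⟩,
    ⟨[(0, 1)], [(0, 0), (0, 1), (0, 3), (1, 0), (1, 1), (1, 3)], [(0, 1), (0, 3), (1, 1),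
      (1, 3)], [], [(0, 1, []), (3, 1, []), (4, 0, [3]), (5, 3, [0, 6])]⟩,
    ⟨[(0, 2), (1, 2)], [(2, 0), (2, 1), (2, 3)], [(0, 0)], [4], [(4, 0, [3]), (7, 0, [3])]⟩,
    ⟨[(0, 2), (1, 2), (2, 3)], [(2, 0), (2, 1), (2, 3), (3, 0), (3, 3)], [(0, 3)], [5],
      [(5, 3, [0, 6]), (7, 0, [3])]⟩,
    ⟨[(2, 3), (3, 4)], [(3, 0), (4, 0)], [], [2, 4], [(7, 0, [3])]⟩,
    ⟨[(2, 4), (3, 4)], [(3, 0), (4, 0), (4, 3), (4, 6), (5, 0)], [(0, 6)], [5], [(7, 0,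
      [3]), (9, 6, [3])]⟩]
  Ta := [((0, 1), 1, 2), ((0, 5), 1, 3), ((3, 2), 1, 7), ((3, 4), 1, 0), ((4, 3), 0, 1), ((4, 6),
    0, 4), ((7, 1), 0, 2), ((7, 9), 0, 6)]
  Tb := [((0, 1, 5), 1, 2, 3), ((1, 0, 2), 2, 1, 7), ((1, 0, 6), 2, 1, 4), ((1, 0, 7), 2, 1, 0),
    ((1, 2, 6), 2, 7, 4), ((1, 2, 7), 2, 7, 0), ((1, 6, 7), 2, 4, 0), ((2, 1, 3), 7, 2, 1),
    ((3, 2, 4), 1, 7, 0), ((4, 3, 6), 0, 1, 4), ((5, 0, 8), 3, 1, 5), ((6, 1, 4), 4, 2, 0),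
    ((7, 1, 9), 0, 2, 6), ((8, 5, 9), 5, 3, 6), ((9, 7, 8), 6, 0, 5)]
  Tc := [(3, 0, 6)]
  Td := [((0, 3), (4, 3), 1), ((0, 3), (4, 6), 4), ((0, 3), (7, 1), 2), ((0, 3), (7, 9), 6), ((3,
    0), (5, 0), 1), ((3, 0), (5, 8), 5), ((3, 6), (5, 0), 1), ((3, 6), (5, 8), 5), ((6, 3),
    (9, 7), 0), ((6, 3), (9, 8), 5)]
  G := [[0, 0, 0, 0x18981c62441c149a281444a68c89611c88c62cd1, 0x48e8341e236b8186221281eac28],
    [0, 0x2118c1421cac868341e43c65421c2118c681e8381e45cac1, 0, 0,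
    0x443e8341e236981861221834ec18149a1248a6e81812924ec91], [0, 0, 0x62a8c8e64a2c4ec124,
    0xe8246cc4aa14e8241c8acc4ea466cccca2aac42c99, 0xb8a8612b2ca482e8c2ae28e528], [0, 0,
    0x4888e4e62a2c8e614288e8e4482e4ec1c8, 0,
    0x98186122924ee8248e2a428e5c2248ecaa628e88e86c22a24ec92]]

noncomputable def n2480 : Ent := ⟨e2480, noF, [], [], [(8, 16, [1580044410770988437309982408355971841652082177953823432505699262465, 0]), (9, 16, [1580044410770988437309982408355971841652082177953823432505699266561, 0])]⟩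

def c2480 : PLift (Cov.check n2480.C.D v2480 = true) := ⟨by decide +kernel⟩

def b2480 : PLift (entF (fidx ts) 400 2480 n2480 = true) := ⟨by decide +kernel⟩

theorem g2480 : GoodF (fidx ts) 400 2480 := GoodF.ofV v2480 n2480 c2480.down b2480.down

/-- 4586644:1975/5 -/
noncomputable def e2481 : SCfg where
  D := {
    a := 7
    L := 9
    kp := 6
    inn := [(0, 1), (0, 2), (1, 0), (1, 2), (2, 0), (2, 1), (2, 3), (2, 4), (3, 2), (3, 4), (3, 5), (4,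
      2), (4, 3), (4, 6), (5, 3), (6, 4)]
    mix := [(0, 0), (0, 1), (1, 1), (1, 2), (1, 3), (2, 0), (2, 3), (2, 4), (2, 5), (3, 4), (3, 6), (3,
      7), (4, 5), (4, 7), (4, 8), (5, 2), (5, 6), (5, 7), (6, 1), (6, 7), (6, 8)]
    cl := [1, 2, 4, 1, 0, 3, 5, 0, 6]
    chq := [(0, 3), (2, 3), (3, 0), (3, 2)]
    rng := [(0, 1), (0, 5), (1, 0), (1, 2), (1, 7), (1, 8), (2, 1), (2, 3), (2, 6), (2, 7), (3, 2), (3,
      4), (4, 3), (4, 6), (5, 0), (5, 8), (6, 2), (6, 4), (7, 1), (7, 2), (8, 1), (8, 5)]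
    lev := [] }
  links := [[1, 2, 7, 8], [2, 0, 8, 9, 10], [7, 0, 1, 10, 11, 3, 4, 12], [4, 2, 11, 13, 5, 14], [12, 2,
    3, 14, 6, 15], [14, 3, 13, 9], [15, 4, 14, 8]]
  P := {
    a := 7
    N := 16
    nb := [390, 1797, 7323, 26676, 53324, 25096, 49424, 4357, 49859, 25890, 2566, 9228, 32916, 2600,
      888, 4432]
    tri := [(0, 1, 2), (0, 1, 8), (0, 2, 7), (0, 7, 8), (1, 2, 10), (1, 8, 9), (1, 9, 10), (2, 3, 4),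
      (2, 3, 11), (2, 4, 12), (2, 7, 12), (2, 10, 11), (3, 4, 14), (3, 5, 13), (3, 5, 14), (3, 11,
      13), (4, 6, 14), (4, 6, 15), (4, 12, 15), (5, 9, 13), (5, 9, 14), (6, 8, 14), (6, 8, 15)]
    fin := [0, 0, 2, 2, 4, 5, 4, 0, 4, 5, 0, 2, 12, 13, 2, 15]
    chd := [(2, 12), (4, 12)]
    steps := [(0, 1), (0, 7), (0, 10), (2, 3), (2, 11), (2, 14), (4, 6), (4, 8), (5, 9)] }
  rep := [2, 0, 4, 12, 5, 13, 15]

noncomputable def v2481 : Cov.CovD where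
  P := 3
  N := 4
  pl := [2, 6, 8]
  lev := [⟨[], [], [(1, 2)], [], [(0, 1, []), (1, 2, [3])]⟩,
    ⟨[], [(0, 1), (0, 2)], [(1, 2)], [4], [(1, 2, [3]), (3, 1, [])]⟩,
    ⟨[(0, 1)], [(0, 0), (0, 1), (0, 2), (0, 3), (1, 0), (1, 1), (1, 2), (1, 3)], [(0, 1),
      (0, 3), (1, 1), (1, 3)], [], [(0, 1, []), (3, 1, []), (4, 0, [3]), (5, 3, [0, 2])]⟩,
    ⟨[(0, 2), (1, 2)], [(2, 0), (2, 1), (2, 3)], [(0, 0)], [5], [(4, 0, [3]), (7, 0, [3])]⟩,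
    ⟨[(0, 2), (1, 2), (2, 3)], [(2, 0), (2, 1), (2, 3), (3, 0), (3, 3)], [(0, 3)], [6],
      [(5, 3, [0, 2]), (7, 0, [3])]⟩,
    ⟨[(2, 3), (3, 4)], [(3, 0), (4, 0)], [], [4, 5], [(7, 0, [3])]⟩,
    ⟨[(2, 4), (3, 4)], [(0, 2), (1, 2), (3, 0), (4, 0), (4, 2), (4, 3), (5, 0)], [(0, 2)],
      [6], [(1, 2, [3]), (7, 0, [3])]⟩]
  Ta := [((0, 1), 1, 2), ((0, 5), 1, 3), ((3, 2), 1, 4), ((3, 4), 1, 0), ((4, 3), 0, 1), ((4, 6),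
    0, 5), ((7, 1), 0, 2), ((7, 2), 0, 4)]
  Tb := [((0, 1, 5), 1, 2, 3), ((1, 0, 2), 2, 1, 4), ((1, 0, 7), 2, 1, 0), ((1, 0, 8), 2, 1, 6),
    ((1, 2, 7), 2, 4, 0), ((1, 2, 8), 2, 4, 6), ((1, 7, 8), 2, 0, 6), ((2, 1, 3), 4, 2, 1),
    ((2, 1, 6), 4, 2, 5), ((2, 1, 7), 4, 2, 0), ((2, 3, 6), 4, 1, 5), ((2, 3, 7), 4, 1, 0),
    ((2, 6, 7), 4, 5, 0), ((3, 2, 4), 1, 4, 0), ((4, 3, 6), 0, 1, 5), ((5, 0, 8), 3, 1, 6),
    ((6, 2, 4), 5, 4, 0), ((7, 1, 2), 0, 2, 4), ((8, 1, 5), 6, 2, 3)]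
  Tc := [(3, 0, 2)]
  Td := [((0, 3), (4, 3), 1), ((0, 3), (4, 6), 5), ((0, 3), (7, 1), 2), ((0, 3), (7, 2), 4), ((2,
    3), (1, 0), 1), ((2, 3), (1, 2), 4), ((2, 3), (1, 7), 0), ((2, 3), (1, 8), 6), ((3, 0),
    (5, 0), 1), ((3, 0), (5, 8), 6), ((3, 2), (5, 0), 1), ((3, 2), (5, 8), 6)]
  G := [[0, 0, 0, 0xcc32c126c12c22cc18, 0x14a121e2232a2da421], [0,
    0x48488878112c1ec22141827818444bc2c1, 0, 0, 0x812258478183614ea411], [0, 0,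
    0x44c22688c222ea8242ce124, 0xc82c22c1c22c42c1181e2441628cd8,
    0x2228121a828eaac48484aa24e528], [0, 0, 0x4828688a8222e888e1442264424a82846ce1c2, 0,
    0x8828682246c184822461885222e6829a684ea4d8]]

noncomputable def n2481 : Ent := ⟨e2481, noF, [], [], []⟩

def c2481 : PLift (Cov.check n2481.C.D v2481 = true) := ⟨by decide +kernel⟩

def b2481 : PLift (entF (fidx ts) 400 2481 n2481 = true) := ⟨by decide +kernel⟩

theorem g2481 : GoodF (fidx ts) 400 2481 := GoodF.ofV v2481 n2481 c2481.down b2481.down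

/-- 4586644:1975/4 -/
noncomputable def e2482 : SCfg where
  D := {
    a := 7
    L := 10
    kp := 7
    inn := [(0, 1), (0, 2), (1, 0), (1, 2), (2, 0), (2, 1), (2, 3), (2, 4), (3, 2), (3, 4), (3, 5), (4,
      2), (4, 3), (4, 6), (5, 3), (6, 4)]
    mix := [(0, 0), (0, 1), (1, 1), (1, 2), (1, 3), (2, 0), (2, 3), (2, 4), (2, 5), (3, 4), (3, 6), (3,
      7), (4, 5), (4, 7), (4, 8), (5, 6), (5, 7), (5, 9), (6, 1), (6, 7), (6, 8)]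
    cl := [1, 2, 6, 1, 0, 3, 4, 0, 5, 7]
    chq := [(0, 3), (2, 3), (3, 0), (3, 2)]
    rng := [(0, 1), (0, 5), (1, 0), (1, 2), (1, 7), (1, 8), (2, 1), (2, 3), (3, 2), (3, 4), (4, 3), (4,
      6), (5, 0), (5, 8), (6, 4), (6, 9), (7, 1), (7, 9), (8, 1), (8, 5), (9, 6), (9, 7)]
    lev := [] }
  links := [[1, 2, 7, 8], [2, 0, 8, 9, 10], [7, 0, 1, 10, 11, 3, 4, 12], [4, 2, 11, 13, 5, 14], [12, 2,
    3, 14, 6, 15], [14, 3, 13, 16], [15, 4, 14, 8]]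
  P := {
    a := 7
    N := 17
    nb := [390, 1797, 7323, 26676, 53324, 90120, 49424, 4357, 49859, 1282, 2566, 9228, 32916, 67624,
      65912, 4432, 24608]
    tri := [(0, 1, 2), (0, 1, 8), (0, 2, 7), (0, 7, 8), (1, 2, 10), (1, 8, 9), (1, 9, 10), (2, 3, 4),
      (2, 3, 11), (2, 4, 12), (2, 7, 12), (2, 10, 11), (3, 4, 14), (3, 5, 13), (3, 5, 14), (3, 11,
      13), (4, 6, 14), (4, 6, 15), (4, 12, 15), (5, 13, 16), (5, 14, 16), (6, 8, 14), (6, 8, 15)]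
    fin := [0, 0, 0, 3, 4, 3, 6, 0, 6, 9, 0, 3, 4, 13, 3, 15, 16]
    chd := [(3, 4), (6, 4)]
    steps := [(0, 1), (0, 2), (0, 7), (0, 10), (3, 5), (3, 11), (3, 14), (4, 12), (6, 8)] }
  rep := [3, 0, 6, 4, 13, 15, 9, 16]

noncomputable def v2482 : Cov.CovD where
  P := 3
  N := 5
  pl := [2, 6, 8, 9]
  lev := [⟨[], [], [(1, 2)], [], [(0, 1, []), (1, 2, [3])]⟩,
    ⟨[], [(0, 1), (0, 2)], [(1, 2)], [6], [(1, 2, [3]), (3, 1, [])]⟩,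
    ⟨[(0, 1)], [(0, 0), (0, 1), (0, 2), (0, 3), (1, 0), (1, 1), (1, 2), (1, 3)], [(0, 1),
      (0, 3), (1, 1), (1, 3)], [], [(0, 1, []), (3, 1, []), (4, 0, [3]), (5, 3, [0, 2])]⟩,
    ⟨[(0, 2), (1, 2)], [(2, 0), (2, 1), (2, 3)], [(0, 0)], [4], [(4, 0, [3]), (7, 0, [3])]⟩,
    ⟨[(0, 2), (1, 2), (2, 3)], [(2, 0), (2, 1), (2, 3), (3, 0), (3, 3)], [(0, 3)], [5],
      [(5, 3, [0, 2]), (7, 0, [3])]⟩,
    ⟨[(2, 3), (3, 4)], [(3, 0), (4, 0)], [], [4, 7], [(7, 0, [3])]⟩,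
    ⟨[(2, 4), (3, 4)], [(0, 2), (1, 2), (3, 0), (4, 0), (4, 2), (4, 3), (5, 0)], [(0, 2)],
      [5], [(1, 2, [3]), (7, 0, [3])]⟩]
  Ta := [((0, 1), 1, 2), ((0, 5), 1, 3), ((3, 2), 1, 6), ((3, 4), 1, 0), ((4, 3), 0, 1), ((4, 6),
    0, 4), ((7, 1), 0, 2), ((7, 9), 0, 7)]
  Tb := [((0, 1, 5), 1, 2, 3), ((1, 0, 2), 2, 1, 6), ((1, 0, 7), 2, 1, 0), ((1, 0, 8), 2, 1, 5),
    ((1, 2, 7), 2, 6, 0), ((1, 2, 8), 2, 6, 5), ((1, 7, 8), 2, 0, 5), ((2, 1, 3), 6, 2, 1),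
    ((3, 2, 4), 1, 6, 0), ((4, 3, 6), 0, 1, 4), ((5, 0, 8), 3, 1, 5), ((6, 4, 9), 4, 0, 7),
    ((7, 1, 9), 0, 2, 7), ((8, 1, 5), 5, 2, 3), ((9, 6, 7), 7, 4, 0)]
  Tc := [(3, 0, 2)]
  Td := [((0, 3), (4, 3), 1), ((0, 3), (4, 6), 4), ((0, 3), (7, 1), 2), ((0, 3), (7, 9), 7), ((2,
    3), (1, 0), 1), ((2, 3), (1, 2), 6), ((2, 3), (1, 7), 0), ((2, 3), (1, 8), 5), ((3, 0),
    (5, 0), 1), ((3, 0), (5, 8), 5), ((3, 2), (5, 0), 1), ((3, 2), (5, 8), 5)]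
  G := [[0, 0, 0, 0xcc5224c129562c5c928c99c2c1265c324cd1, 0x33c22c88c781823a26da421], [0,
    0x414188a78181446bc241c186a78181446bc2c1, 0, 0,
    0x8142388c7819839422fa418c22c88c781a1226da492], [0, 0, 0x44c22a688c226a88a446ce124,
    0xc128cca2cc62c5111e24cca2cc62c9c1228d4, 0xaac22a621288aa4ce88c286aa246528], [0, 0,
    0x48c22a648c226a48a446ce148c22a688c226a48a846ce1c8, 0,
    0x88c222e68121ca28628a646588c42264a188c222e6222886a8684ee4d2]]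

noncomputable def n2482 : Ent := ⟨e2482, noF, [], [], [(8, 16, [1580044410770988437309982408355971841652082177953823432505699262465, 0]), (9, 16, [1580044410770988437309982408355971841652082177953823432505699274753, 0])]⟩

def c2482 : PLift (Cov.check n2482.C.D v2482 = true) := ⟨by decide +kernel⟩

def b2482 : PLift (entF (fidx ts) 400 2482 n2482 = true) := ⟨by decide +kernel⟩

theorem g2482 : GoodF (fidx ts) 400 2482 := GoodF.ofV v2482 n2482 c2482.down b2482.down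

/-- 4586644:1975/7 -/
noncomputable def e2483 : SCfg where
  D := {
    a := 7
    L := 9
    kp := 6
    inn := [(0, 1), (0, 2), (1, 0), (1, 2), (2, 0), (2, 1), (2, 3), (2, 4), (3, 2), (3, 4), (3, 5), (4,
      2), (4, 3), (4, 6), (5, 3), (6, 4)]
    mix := [(0, 0), (0, 1), (1, 1), (1, 2), (1, 3), (2, 0), (2, 3), (2, 4), (2, 5), (3, 4), (3, 6), (3,
      7), (4, 5), (4, 7), (4, 8), (5, 2), (5, 6), (5, 7), (6, 2), (6, 7), (6, 8)]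
    cl := [0, 2, 1, 0, 3, 4, 5, 3, 6]
    chq := [(1, 4), (3, 4), (4, 1), (4, 3)]
    rng := [(0, 1), (0, 5), (1, 0), (1, 2), (2, 1), (2, 3), (2, 6), (2, 7), (2, 8), (3, 2), (3, 4), (4,
      3), (4, 6), (5, 0), (5, 8), (6, 2), (6, 4), (7, 2), (8, 2), (8, 5)]
    lev := [] }
  links := [[1, 2, 7, 8], [2, 0, 8, 9, 10], [7, 0, 1, 10, 11, 3, 4, 12], [4, 2, 11, 13, 5, 14], [12, 2,
    3, 14, 6, 15], [14, 3, 13, 9], [15, 4, 14, 9]]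
  P := {
    a := 7
    N := 16
    nb := [390, 1797, 7323, 26676, 53324, 25096, 49680, 4357, 643, 58722, 2566, 9228, 32916, 2600,
      632, 4688]
    tri := [(0, 1, 2), (0, 1, 8), (0, 2, 7), (0, 7, 8), (1, 2, 10), (1, 8, 9), (1, 9, 10), (2, 3, 4),
      (2, 3, 11), (2, 4, 12), (2, 7, 12), (2, 10, 11), (3, 4, 14), (3, 5, 13), (3, 5, 14), (3, 11,
      13), (4, 6, 14), (4, 6, 15), (4, 12, 15), (5, 9, 13), (5, 9, 14), (6, 9, 14), (6, 9, 15)]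
    fin := [0, 0, 0, 3, 4, 5, 5, 0, 8, 5, 0, 3, 4, 13, 3, 15]
    chd := [(3, 4), (5, 4)]
    steps := [(0, 1), (0, 2), (0, 7), (0, 10), (3, 11), (3, 14), (4, 12), (5, 9), (5, 6)] }
  rep := [0, 5, 8, 3, 4, 13, 15]

noncomputable def v2483 : Cov.CovD where
  P := 3
  N := 4
  pl := [1, 6, 8]
  lev := [⟨[], [], [], [2], [(0, 0, [])]⟩,
    ⟨[], [(0, 0), (0, 1)], [(0, 1)], [2], [(2, 1, [4]), (3, 0, [])]⟩,
    ⟨[(0, 1)], [(0, 0), (0, 3), (0, 4), (1, 0), (1, 1), (1, 3), (1, 4)], [(0, 0), (0, 3),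
      (0, 4), (3, 4)], [], [(0, 0, []), (3, 0, []), (4, 3, [4]), (5, 4, [1, 3])]⟩,
    ⟨[(0, 2), (1, 2)], [(2, 0), (2, 3), (2, 4)], [(3, 3)], [5], [(4, 3, [4]), (7, 3, [4])]⟩,
    ⟨[(0, 2), (1, 2), (2, 3)], [(2, 0), (2, 3), (2, 4), (3, 3), (3, 4)], [(3, 4)], [6],
      [(5, 4, [1, 3]), (7, 3, [4])]⟩,
    ⟨[(2, 3), (3, 4)], [(1, 1), (3, 1), (3, 3), (4, 3)], [(1, 3)], [5], [(2, 1, [4]), (7,
      3, [4])]⟩,
    ⟨[(2, 4), (3, 4)], [(1, 1), (3, 3), (4, 1), (4, 3), (4, 4), (5, 1), (5, 3)], [(1, 3)],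
      [6], [(2, 1, [4]), (7, 3, [4])]⟩]
  Ta := [((0, 1), 0, 2), ((0, 5), 0, 4), ((3, 2), 0, 1), ((3, 4), 0, 3), ((4, 3), 3, 0), ((4, 6),
    3, 5), ((7, 2), 3, 1)]
  Tb := [((0, 1, 5), 0, 2, 4), ((1, 0, 2), 2, 0, 1), ((2, 1, 3), 1, 2, 0), ((2, 1, 6), 1, 2, 5),
    ((2, 1, 7), 1, 2, 3), ((2, 1, 8), 1, 2, 6), ((2, 3, 6), 1, 0, 5), ((2, 3, 7), 1, 0, 3),
    ((2, 3, 8), 1, 0, 6), ((2, 6, 7), 1, 5, 3), ((2, 6, 8), 1, 5, 6), ((2, 7, 8), 1, 3, 6),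
    ((3, 2, 4), 0, 1, 3), ((4, 3, 6), 3, 0, 5), ((5, 0, 8), 4, 0, 6), ((6, 2, 4), 5, 1, 3),
    ((8, 2, 5), 6, 1, 4)]
  Tc := [(4, 1, 3)]
  Td := [((1, 4), (2, 1), 2), ((1, 4), (2, 3), 0), ((1, 4), (2, 6), 5), ((1, 4), (2, 7), 3), ((1,
    4), (2, 8), 6), ((3, 4), (4, 3), 0), ((3, 4), (4, 6), 5), ((3, 4), (7, 2), 1), ((4, 1),
    (5, 0), 0), ((4, 1), (5, 8), 6), ((4, 3), (5, 0), 0), ((4, 3), (5, 8), 6)]
  G := [[0, 0, 0x2848187424814b119191ed284, 0x582542912d248, 0x885818754149484511151ef288], [0,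
    0, 0x4444a2821964888187441431118141c1efa44, 0x982542d12d284,
    0x883411d24898187885414b4118141d1ef688], [0, 0xac6116ca116ac11e48, 0, 0x582942912d288,
    0x4248a8b8244c4711c151a1cf281], [0, 0xa6ee11ecae11a41, 0, 0x982542d12d284,
    0x882411d24888187444414b1118141c1ef681]]

noncomputable def n2483 : Ent := ⟨e2483, noF, [], [], []⟩

def c2483 : PLift (Cov.check n2483.C.D v2483 = true) := ⟨by decide +kernel⟩

def b2483 : PLift (entF (fidx ts) 400 2483 n2483 = true) := ⟨by decide +kernel⟩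

theorem g2483 : GoodF (fidx ts) 400 2483 := GoodF.ofV v2483 n2483 c2483.down b2483.down

/-- 4586644:1975/6 -/
noncomputable def e2484 : SCfg where
  D := {
    a := 7
    L := 10
    kp := 7
    inn := [(0, 1), (0, 2), (1, 0), (1, 2), (2, 0), (2, 1), (2, 3), (2, 4), (3, 2), (3, 4), (3, 5), (4,
      2), (4, 3), (4, 6), (5, 3), (6, 4)]
    mix := [(0, 0), (0, 1), (1, 1), (1, 2), (1, 3), (2, 0), (2, 3), (2, 4), (2, 5), (3, 4), (3, 6), (3,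
      7), (4, 5), (4, 7), (4, 8), (5, 2), (5, 6), (5, 7), (6, 7), (6, 8), (6, 9)]
    cl := [1, 3, 4, 1, 0, 2, 5, 0, 6, 7]
    chq := [(0, 2), (2, 0), (2, 7), (7, 2)]
    rng := [(0, 1), (0, 5), (1, 0), (1, 2), (2, 1), (2, 3), (2, 6), (2, 7), (3, 2), (3, 4), (4, 3), (4,
      6), (5, 0), (5, 8), (6, 2), (6, 4), (7, 2), (7, 9), (8, 5), (8, 9), (9, 7), (9, 8)]
    lev := [] }
  links := [[1, 2, 7, 8], [2, 0, 8, 9, 10], [7, 0, 1, 10, 11, 3, 4, 12], [4, 2, 11, 13, 5, 14], [12, 2,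
    3, 14, 6, 15], [14, 3, 13, 9], [15, 4, 14, 16]]
  P := {
    a := 7
    N := 17
    nb := [390, 1797, 7323, 26676, 53324, 25096, 114704, 4357, 643, 25890, 2566, 9228, 32916, 2600,
      66168, 69712, 49216]
    tri := [(0, 1, 2), (0, 1, 8), (0, 2, 7), (0, 7, 8), (1, 2, 10), (1, 8, 9), (1, 9, 10), (2, 3, 4),
      (2, 3, 11), (2, 4, 12), (2, 7, 12), (2, 10, 11), (3, 4, 14), (3, 5, 13), (3, 5, 14), (3, 11,
      13), (4, 6, 14), (4, 6, 15), (4, 12, 15), (5, 9, 13), (5, 9, 14), (6, 14, 16), (6, 15, 16)]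
    fin := [0, 0, 0, 3, 4, 5, 6, 0, 8, 5, 0, 3, 4, 13, 3, 15, 6]
    chd := [(3, 4), (4, 6)]
    steps := [(0, 1), (0, 2), (0, 7), (0, 10), (3, 11), (3, 14), (4, 12), (5, 9), (6, 16)] }
  rep := [3, 0, 4, 8, 5, 13, 15, 6]

noncomputable def v2484 : Cov.CovD where
  P := 3
  N := 5
  pl := [1, 2, 6, 8]
  lev := [⟨[], [], [], [3], [(0, 1, [])]⟩,
    ⟨[], [(0, 1)], [], [3, 4], [(3, 1, [])]⟩,
    ⟨[(0, 1)], [(0, 0), (0, 1), (0, 2), (1, 0), (1, 1), (1, 2)], [(0, 1), (0, 2), (1, 1),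
      (1, 2)], [], [(0, 1, []), (3, 1, []), (4, 0, [2]), (5, 2, [0, 7])]⟩,
    ⟨[(0, 2), (1, 2)], [(2, 0), (2, 1), (2, 2)], [(0, 0)], [5], [(4, 0, [2]), (7, 0, [2])]⟩,
    ⟨[(0, 2), (1, 2), (2, 3)], [(2, 0), (2, 1), (2, 2), (3, 0), (3, 2)], [(0, 2)], [6],
      [(5, 2, [0, 7]), (7, 0, [2])]⟩,
    ⟨[(2, 3), (3, 4)], [(3, 0), (4, 0)], [], [4, 5], [(7, 0, [2])]⟩,
    ⟨[(2, 4), (3, 4)], [(3, 0), (4, 0), (4, 2), (4, 7), (5, 0)], [(0, 7)], [6], [(7, 0,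
      [2]), (9, 7, [2])]⟩]
  Ta := [((0, 1), 1, 3), ((0, 5), 1, 2), ((3, 2), 1, 4), ((3, 4), 1, 0), ((4, 3), 0, 1), ((4, 6),
    0, 5), ((7, 2), 0, 4), ((7, 9), 0, 7)]
  Tb := [((0, 1, 5), 1, 3, 2), ((1, 0, 2), 3, 1, 4), ((2, 1, 3), 4, 3, 1), ((2, 1, 6), 4, 3, 5),
    ((2, 1, 7), 4, 3, 0), ((2, 3, 6), 4, 1, 5), ((2, 3, 7), 4, 1, 0), ((2, 6, 7), 4, 5, 0),
    ((3, 2, 4), 1, 4, 0), ((4, 3, 6), 0, 1, 5), ((5, 0, 8), 2, 1, 6), ((6, 2, 4), 5, 4, 0),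
    ((7, 2, 9), 0, 4, 7), ((8, 5, 9), 6, 2, 7), ((9, 7, 8), 7, 0, 6)]
  Tc := [(2, 0, 7)]
  Td := [((0, 2), (4, 3), 1), ((0, 2), (4, 6), 5), ((0, 2), (7, 2), 4), ((0, 2), (7, 9), 7), ((2,
    0), (5, 0), 1), ((2, 0), (5, 8), 6), ((2, 7), (5, 0), 1), ((2, 7), (5, 8), 6), ((7, 2),
    (9, 7), 0), ((7, 2), (9, 8), 6)]
  G := [[0, 0, 0xe14e12c1282c2c14a121212ce815, 0x2142238221e422121c1222c682c,
    0x61c1a42e2968241e1a524296815], [0, 0x6142a81e18cce141421c218e8214e181212ce4e1,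
    0x181861212ca41414a1261c68122c161ae18e4d2, 0,
    0xe144a3c8683685444311a41a684c32618e21e8d2], [0, 0, 0xc161a1212c642e14e12128e819,
    0x22c422c82222ce122422cc2882222ce429,
    0xe82488c1e462e2861ac2244e4a628e84e2244ceeaa428e81d], [0, 0,
    0x181861212ac481414a1261c684111e4e12e18e41d, 0,
    0xe824ea42a488e162ecaac464ac1c2244ceecea46a8e8d2]]

noncomputable def n2484 : Ent := ⟨e2484, noF, [], [], [(8, 16, [1580044410770988437309982408355971841652082177953823432505699274753, 0]), (9, 16, [1580044410770988437309982408355971841652082177953823432505699282945, 0])]⟩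

def c2484 : PLift (Cov.check n2484.C.D v2484 = true) := ⟨by decide +kernel⟩

def b2484 : PLift (entF (fidx ts) 400 2484 n2484 = true) := ⟨by decide +kernel⟩

theorem g2484 : GoodF (fidx ts) 400 2484 := GoodF.ofV v2484 n2484 c2484.down b2484.down

/-- 4586644:1975/8 -/
noncomputable def e2485 : SCfg where
  D := {
    a := 7
    L := 10
    kp := 7
    inn := [(0, 1), (0, 2), (1, 0), (1, 2), (2, 0), (2, 1), (2, 3), (2, 4), (3, 2), (3, 4), (3, 5), (4,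
      2), (4, 3), (4, 6), (5, 3), (6, 4)]
    mix := [(0, 0), (0, 1), (1, 1), (1, 2), (1, 3), (2, 0), (2, 3), (2, 4), (2, 5), (3, 4), (3, 6), (3,
      7), (4, 5), (4, 7), (4, 8), (5, 6), (5, 7), (5, 9), (6, 2), (6, 7), (6, 8)]
    cl := [1, 2, 4, 1, 0, 3, 5, 0, 6, 7]
    chq := [(0, 3), (3, 0), (3, 4), (4, 3)]
    rng := [(0, 1), (0, 5), (1, 0), (1, 2), (2, 1), (2, 3), (2, 7), (2, 8), (3, 2), (3, 4), (4, 3), (4,
      6), (5, 0), (5, 8), (6, 4), (6, 9), (7, 2), (7, 9), (8, 2), (8, 5), (9, 6), (9, 7)]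
    lev := [] }
  links := [[1, 2, 7, 8], [2, 0, 8, 9, 10], [7, 0, 1, 10, 11, 3, 4, 12], [4, 2, 11, 13, 5, 14], [12, 2,
    3, 14, 6, 15], [14, 3, 13, 16], [15, 4, 14, 9]]
  P := {
    a := 7
    N := 17
    nb := [390, 1797, 7323, 26676, 53324, 90120, 49680, 4357, 643, 50498, 2566, 9228, 32916, 67624,
      66168, 4688, 24608]
    tri := [(0, 1, 2), (0, 1, 8), (0, 2, 7), (0, 7, 8), (1, 2, 10), (1, 8, 9), (1, 9, 10), (2, 3, 4),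
      (2, 3, 11), (2, 4, 12), (2, 7, 12), (2, 10, 11), (3, 4, 14), (3, 5, 13), (3, 5, 14), (3, 11,
      13), (4, 6, 14), (4, 6, 15), (4, 12, 15), (5, 13, 16), (5, 14, 16), (6, 9, 14), (6, 9, 15)]
    fin := [0, 0, 0, 3, 4, 3, 6, 0, 8, 6, 0, 3, 4, 13, 3, 15, 16]
    chd := [(3, 4), (6, 4)]
    steps := [(0, 1), (0, 2), (0, 7), (0, 10), (3, 5), (3, 11), (3, 14), (4, 12), (6, 9)] }
  rep := [3, 0, 8, 4, 6, 13, 15, 16]

noncomputable def v2485 : Cov.CovD where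
  P := 3
  N := 5
  pl := [1, 6, 8, 9]
  lev := [⟨[], [], [], [2], [(0, 1, [])]⟩,
    ⟨[], [(0, 1), (0, 4)], [(1, 4)], [2], [(2, 4, [3]), (3, 1, [])]⟩,
    ⟨[(0, 1)], [(0, 0), (0, 1), (0, 3), (1, 0), (1, 1), (1, 3), (1, 4)], [(0, 1), (0, 3),
      (1, 1), (1, 3)], [], [(0, 1, []), (3, 1, []), (4, 0, [3]), (5, 3, [0, 4])]⟩,
    ⟨[(0, 2), (1, 2)], [(2, 0), (2, 1), (2, 3)], [(0, 0)], [5], [(4, 0, [3]), (7, 0, [3])]⟩,
    ⟨[(0, 2), (1, 2), (2, 3)], [(2, 0), (2, 1), (2, 3), (3, 0), (3, 3)], [(0, 3)], [6],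
      [(5, 3, [0, 4]), (7, 0, [3])]⟩,
    ⟨[(2, 3), (3, 4)], [(3, 0), (4, 0)], [], [5, 7], [(7, 0, [3])]⟩,
    ⟨[(2, 4), (3, 4)], [(1, 4), (3, 0), (4, 0), (4, 3), (4, 4), (5, 0)], [(0, 4)], [6],
      [(2, 4, [3]), (7, 0, [3])]⟩]
  Ta := [((0, 1), 1, 2), ((0, 5), 1, 3), ((3, 2), 1, 4), ((3, 4), 1, 0), ((4, 3), 0, 1), ((4, 6),
    0, 5), ((7, 2), 0, 4), ((7, 9), 0, 7)]
  Tb := [((0, 1, 5), 1, 2, 3), ((1, 0, 2), 2, 1, 4), ((2, 1, 3), 4, 2, 1), ((2, 1, 7), 4, 2, 0),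
    ((2, 1, 8), 4, 2, 6), ((2, 3, 7), 4, 1, 0), ((2, 3, 8), 4, 1, 6), ((2, 7, 8), 4, 0, 6),
    ((3, 2, 4), 1, 4, 0), ((4, 3, 6), 0, 1, 5), ((5, 0, 8), 3, 1, 6), ((6, 4, 9), 5, 0, 7),
    ((7, 2, 9), 0, 4, 7), ((8, 2, 5), 6, 4, 3), ((9, 6, 7), 7, 5, 0)]
  Tc := [(3, 0, 4)]
  Td := [((0, 3), (4, 3), 1), ((0, 3), (4, 6), 5), ((0, 3), (7, 2), 4), ((0, 3), (7, 9), 7), ((3,
    0), (5, 0), 1), ((3, 0), (5, 8), 6), ((3, 4), (5, 0), 1), ((3, 4), (5, 8), 6), ((4, 3),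
    (2, 1), 2), ((4, 3), (2, 3), 1), ((4, 3), (2, 7), 0), ((4, 3), (2, 8), 6)]
  G := [[0, 0, 0x84a2a52122a34e4234922c946342a9682c, 0x11c21a22a44a9611c228d62121834ec11,
    0x34521a24326a962133cca14ac11], [0, 0xa12128c7c1a1ca41116a46414618184669ec128ac1,
    0x11ca8c6116c16a411c45ca11ac1a68c2, 0, 0x44c11ca11a41a618981c6196816ac11], [0, 0,
    0x21231646bbc216822a266c226a66a8a6ced28,
    0x88c22a644c226a44a886ce199c228e622262ba694ee458,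
    0x24bbc28e116aa6ca22a264c226a626e8e528], [0, 0,
    0x88ceea68121a8a64e44cec6ac8865e2244ce62ea64ac248ee8c2, 0,
    0x88ceea644cec6a48a8e6ce122245ca62ea75a1248ee1848c92]]

noncomputable def n2485 : Ent := ⟨e2485, noF, [], [], [(8, 16, [1580044410770988437309982408355971841652082177953823432505699266561, 0]), (9, 16, [1580044410770988437309982408355971841652082177953823432505699282945, 0])]⟩

def c2485 : PLift (Cov.check n2485.C.D v2485 = true) := ⟨by decide +kernel⟩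

def b2485 : PLift (entF (fidx ts) 400 2485 n2485 = true) := ⟨by decide +kernel⟩

theorem g2485 : GoodF (fidx ts) 400 2485 := GoodF.ofV v2485 n2485 c2485.down b2485.down

/-- 4586644:1975/9 -/
noncomputable def e2486 : SCfg where
  D := {
    a := 7
    L := 10
    kp := 7
    inn := [(0, 1), (0, 2), (1, 0), (1, 2), (2, 0), (2, 1), (2, 3), (2, 4), (3, 2), (3, 4), (3, 5), (4,
      2), (4, 3), (4, 6), (5, 3), (6, 4)]
    mix := [(0, 0), (0, 1), (1, 1), (1, 2), (1, 3), (2, 0), (2, 3), (2, 4), (2, 5), (3, 4), (3, 6), (3,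
      7), (4, 5), (4, 7), (4, 8), (5, 6), (5, 7), (5, 9), (6, 7), (6, 8), (6, 9)]
    cl := [1, 4, 7, 1, 0, 2, 5, 0, 6, 3]
    chq := [(0, 2), (2, 0), (2, 3), (3, 2)]
    rng := [(0, 1), (0, 5), (1, 0), (1, 2), (2, 1), (2, 3), (3, 2), (3, 4), (4, 3), (4, 6), (5, 0), (5,
      8), (6, 4), (6, 9), (7, 9), (8, 5), (8, 9), (9, 6), (9, 7), (9, 8)]
    lev := [] }
  links := [[1, 2, 7, 8], [2, 0, 8, 9, 10], [7, 0, 1, 10, 11, 3, 4, 12], [4, 2, 11, 13, 5, 14], [12, 2,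
    3, 14, 6, 15], [14, 3, 13, 16], [15, 4, 14, 16]]
  P := {
    a := 7
    N := 17
    nb := [390, 1797, 7323, 26676, 53324, 90120, 114704, 4357, 643, 1282, 2566, 9228, 32916, 67624,
      65656, 69712, 57440]
    tri := [(0, 1, 2), (0, 1, 8), (0, 2, 7), (0, 7, 8), (1, 2, 10), (1, 8, 9), (1, 9, 10), (2, 3, 4),
      (2, 3, 11), (2, 4, 12), (2, 7, 12), (2, 10, 11), (3, 4, 14), (3, 5, 13), (3, 5, 14), (3, 11,
      13), (4, 6, 14), (4, 6, 15), (4, 12, 15), (5, 13, 16), (5, 14, 16), (6, 14, 16), (6, 15,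
      16)]
    fin := [0, 0, 0, 3, 4, 3, 6, 0, 8, 9, 0, 3, 4, 13, 3, 15, 6]
    chd := [(3, 4), (4, 6)]
    steps := [(0, 1), (0, 2), (0, 7), (0, 10), (3, 5), (3, 11), (3, 14), (4, 12), (6, 16)] }
  rep := [3, 0, 4, 6, 8, 13, 15, 9]

noncomputable def v2486 : Cov.CovD where
  P := 3
  N := 5
  pl := [1, 2, 6, 8]
  lev := [⟨[], [], [], [4], [(0, 1, [])]⟩,
    ⟨[], [(0, 1)], [], [4, 7], [(3, 1, [])]⟩,
    ⟨[(0, 1)], [(0, 0), (0, 1), (0, 2), (1, 0), (1, 1), (1, 2)], [(0, 1), (0, 2), (1, 1),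
      (1, 2)], [], [(0, 1, []), (3, 1, []), (4, 0, [2]), (5, 2, [0, 3])]⟩,
    ⟨[(0, 2), (1, 2)], [(2, 0), (2, 1), (2, 2)], [(0, 0)], [5], [(4, 0, [2]), (7, 0, [2])]⟩,
    ⟨[(0, 2), (1, 2), (2, 3)], [(2, 0), (2, 1), (2, 2), (3, 0), (3, 2)], [(0, 2)], [6],
      [(5, 2, [0, 3]), (7, 0, [2])]⟩,
    ⟨[(2, 3), (3, 4)], [(3, 0), (3, 3), (4, 0)], [(0, 3)], [5], [(7, 0, [2]), (9, 3, [2])]⟩,
    ⟨[(2, 4), (3, 4)], [(3, 0), (4, 0), (4, 2), (4, 3), (5, 0), (5, 3)], [(0, 3)], [6],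
      [(7, 0, [2]), (9, 3, [2])]⟩]
  Ta := [((0, 1), 1, 4), ((0, 5), 1, 2), ((3, 2), 1, 7), ((3, 4), 1, 0), ((4, 3), 0, 1), ((4, 6),
    0, 5), ((7, 9), 0, 3)]
  Tb := [((0, 1, 5), 1, 4, 2), ((1, 0, 2), 4, 1, 7), ((2, 1, 3), 7, 4, 1), ((3, 2, 4), 1, 7, 0),
    ((4, 3, 6), 0, 1, 5), ((5, 0, 8), 2, 1, 6), ((6, 4, 9), 5, 0, 3), ((8, 5, 9), 6, 2, 3),
    ((9, 6, 7), 3, 5, 0), ((9, 6, 8), 3, 5, 6), ((9, 7, 8), 3, 0, 6)]
  Tc := [(2, 0, 3)]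
  Td := [((0, 2), (4, 3), 1), ((0, 2), (4, 6), 5), ((0, 2), (7, 9), 3), ((2, 0), (5, 0), 1), ((2,
    0), (5, 8), 6), ((2, 3), (5, 0), 1), ((2, 3), (5, 8), 6), ((3, 2), (9, 6), 5), ((3, 2),
    (9, 7), 0), ((3, 2), (9, 8), 6)]
  G := [[0, 0, 0x814e1185661461a8c11c61a11a61c68c111e4e12e18e425, 0x2121c22225a422121c22229a429,
    0x2454cc384946a3682212444ac941849ae84ac5c4314314aa81d], [0,
    0x1221ce18214e4861a1c21123c68125a1ce121ca469,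
    0x1252411a82a6c18cce14a1211a41ce8c1292c1243a1838e413, 0,
    0x45c84c34186a368c1244c146a2438e8e1241c426a418e8d2], [0, 0,
    0xa1116c2411c129684a1262114b8682c1a16884142184c121acc5d,
    0x22c482c82222ce1244422c28c2222ce82c,
    0x2228cc462ea84a48ae1842a284ce26a84a8e1442246c2c2ea46ac8ae81d], [0, 0,
    0xc1a1611661ca8411c4a12e141ae41418c612a112ce496, 0,
    0x42a28cc646a84a8e146a82c4a244ce46ac9226244cc26a44ac8ae8d2]]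

noncomputable def n2486 : Ent := ⟨e2486, noF, [], [], [(8, 16, [1580044410770988437309982408355971841652082177953823432505699262465, 0]), (9, 16, [1580044410770988437309982408355971841652082177953823432505699282945, 0])]⟩

def c2486 : PLift (Cov.check n2486.C.D v2486 = true) := ⟨by decide +kernel⟩

def b2486 : PLift (entF (fidx ts) 400 2486 n2486 = true) := ⟨by decide +kernel⟩

theorem g2486 : GoodF (fidx ts) 400 2486 := GoodF.ofV v2486 n2486 c2486.down b2486.down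

/-- 4586644:1975 -/
noncomputable def e2487 : SCfg where
  D := {
    a := 7
    L := 11
    kp := 8
    inn := [(0, 1), (0, 2), (1, 0), (1, 2), (2, 0), (2, 1), (2, 3), (2, 4), (3, 2), (3, 4), (3, 5), (4,
      2), (4, 3), (4, 6), (5, 3), (6, 4)]
    mix := [(0, 0), (0, 1), (1, 1), (1, 2), (1, 3), (2, 0), (2, 3), (2, 4), (2, 5), (3, 4), (3, 6), (3,
      7), (4, 5), (4, 7), (4, 8), (5, 6), (5, 7), (5, 9), (6, 7), (6, 8), (6, 10)]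
    cl := [1, 3, 7, 1, 0, 2, 4, 0, 5, 8, 6]
    chq := [(0, 2), (2, 0), (2, 6), (6, 2)]
    rng := [(0, 1), (0, 5), (1, 0), (1, 2), (2, 1), (2, 3), (3, 2), (3, 4), (4, 3), (4, 6), (5, 0), (5,
      8), (6, 4), (6, 9), (7, 9), (7, 10), (8, 5), (8, 10), (9, 6), (9, 7), (10, 7), (10, 8)]
    lev := [] }
  links := [[1, 2, 7, 8], [2, 0, 8, 9, 10], [7, 0, 1, 10, 11, 3, 4, 12], [4, 2, 11, 13, 5, 14], [12, 2,
    3, 14, 6, 15], [14, 3, 13, 16], [15, 4, 14, 17]]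
  P := {
    a := 7
    N := 18
    nb := [390, 1797, 7323, 26676, 53324, 90120, 180240, 4357, 643, 1282, 2566, 9228, 32916, 67624,
      196728, 135248, 24608, 49216]
    tri := [(0, 1, 2), (0, 1, 8), (0, 2, 7), (0, 7, 8), (1, 2, 10), (1, 8, 9), (1, 9, 10), (2, 3, 4),
      (2, 3, 11), (2, 4, 12), (2, 7, 12), (2, 10, 11), (3, 4, 14), (3, 5, 13), (3, 5, 14), (3, 11,
      13), (4, 6, 14), (4, 6, 15), (4, 12, 15), (5, 13, 16), (5, 14, 16), (6, 14, 17), (6, 15,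
      17)]
    fin := [0, 0, 0, 3, 4, 3, 6, 0, 8, 9, 0, 3, 4, 13, 3, 15, 16, 6]
    chd := [(3, 4), (4, 6)]
    steps := [(0, 1), (0, 2), (0, 7), (0, 10), (3, 5), (3, 11), (3, 14), (4, 12), (6, 17)] }
  rep := [3, 0, 4, 8, 13, 15, 6, 9, 16]

noncomputable def v2487 : Cov.CovD where
  P := 3
  N := 6
  pl := [1, 2, 6, 8, 9]
  lev := [⟨[], [], [], [3], [(0, 1, [])]⟩,
    ⟨[], [(0, 1)], [], [3, 7], [(3, 1, [])]⟩,
    ⟨[(0, 1)], [(0, 0), (0, 1), (0, 2), (1, 0), (1, 1), (1, 2)], [(0, 1), (0, 2), (1, 1),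
      (1, 2)], [], [(0, 1, []), (3, 1, []), (4, 0, [2]), (5, 2, [0, 6])]⟩,
    ⟨[(0, 2), (1, 2)], [(2, 0), (2, 1), (2, 2)], [(0, 0)], [4], [(4, 0, [2]), (7, 0, [2])]⟩,
    ⟨[(0, 2), (1, 2), (2, 3)], [(2, 0), (2, 1), (2, 2), (3, 0), (3, 2)], [(0, 2)], [5],
      [(5, 2, [0, 6]), (7, 0, [2])]⟩,
    ⟨[(2, 3), (3, 4)], [(3, 0), (4, 0)], [], [4, 8], [(7, 0, [2])]⟩,
    ⟨[(2, 4), (3, 4)], [(3, 0), (4, 0), (4, 2), (4, 6), (5, 0)], [(0, 6)], [5], [(7, 0,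
      [2]), (10, 6, [2])]⟩]
  Ta := [((0, 1), 1, 3), ((0, 5), 1, 2), ((3, 2), 1, 7), ((3, 4), 1, 0), ((4, 3), 0, 1), ((4, 6),
    0, 4), ((7, 9), 0, 8), ((7, 10), 0, 6)]
  Tb := [((0, 1, 5), 1, 3, 2), ((1, 0, 2), 3, 1, 7), ((2, 1, 3), 7, 3, 1), ((3, 2, 4), 1, 7, 0),
    ((4, 3, 6), 0, 1, 4), ((5, 0, 8), 2, 1, 5), ((6, 4, 9), 4, 0, 8), ((7, 9, 10), 0, 8, 6),
    ((8, 5, 10), 5, 2, 6), ((9, 6, 7), 8, 4, 0), ((10, 7, 8), 6, 0, 5)]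
  Tc := [(2, 0, 6)]
  Td := [((0, 2), (4, 3), 1), ((0, 2), (4, 6), 4), ((0, 2), (7, 9), 8), ((0, 2), (7, 10), 6),
    ((2, 0), (5, 0), 1), ((2, 0), (5, 8), 5), ((2, 6), (5, 0), 1), ((2, 6), (5, 8), 5), ((6,
    2), (10, 7), 0), ((6, 2), (10, 8), 5)]
  G := [[0, 0, 0x11a11a6c161ac48c1a1611661ac841414a4181861212cac2d,
    0x2122c922621ca42218229462222c98c2c,
    0x4e52529ce69418e8265cc4c3c166a36844c11ca6118c2b6895], [0,
    0x2111cc11621ca4e1421821116ce8214e1811a21ce4e1,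
    0x11ca16116116ca411c61a411a211a8acc1a1611661ca8d2, 0,
    0x4115ca51a41a684a4c4ec31c946a368e12144e116a418e896], [0, 0,
    0x11c11c6116116ca48c1a16116116ac84c161a11a11ac642d,
    0x22c422c822a226ce1222c422c822a226ce12c,
    0xe6a24cc666a4ca8e1264a2ccc646acea8e1c2264ccecea66ac8ae85c], [0, 0,
    0x11ca16116116ca48e1211c812e1ce82111a81ec161ac45a, 0,
    0xe4a24cc646a4ea8e18e6a244ce66a4ca8e1c2244ceecea66ac8ae85a]]

noncomputable def n2487 : Ent := ⟨e2487, noF, [], [], [(8, 16, [7334685537875745012586738086077695515070955365108989538292687703834625, 0]), (8, 17, [6903326391201334775872065844685381424292761054348340378595029939855361, 0]), (9, 16, [7334685537875745012586738086077695515070955365108989538292687703851009, 0]), (9, 17, [6903326391201334775872065844685381424292761054348340378595029939867649, 0]), (16, 17, [6903326391201334775872065844685381424292761054348340378595029939871745,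 0])]⟩

def c2487 : PLift (Cov.check n2487.C.D v2487 = true) := ⟨by decide +kernel⟩

def b2487 : PLift (entF (fidx ts) 400 2487 n2487 = true) := ⟨by decide +kernel⟩

theorem g2487 : GoodF (fidx ts) 400 2487 := GoodF.ofV v2487 n2487 c2487.down b2487.down

/-- 4846464:1977/2 -/
noncomputable def e2488 : SCfg where
  D := {
    a := 7
    L := 9
    kp := 6
    inn := [(0, 1), (1, 0), (1, 2), (1, 3), (2, 1), (3, 1), (3, 4), (3, 5), (4, 3), (4, 5), (5, 3), (5,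
      4), (5, 6), (6, 5)]
    mix := [(0, 0), (0, 1), (0, 2), (1, 0), (1, 2), (1, 3), (1, 4), (1, 5), (2, 3), (2, 4), (2, 6), (3,
      4), (3, 5), (3, 7), (4, 4), (4, 6), (5, 6), (5, 7), (5, 8), (6, 1), (6, 6), (6, 8)]
    cl := [1, 2, 5, 1, 0, 0, 3, 4, 6]
    chq := [(0, 2), (2, 0), (2, 4), (4, 2)]
    rng := [(0, 1), (0, 5), (1, 0), (1, 2), (1, 6), (1, 8), (2, 1), (2, 3), (3, 2), (3, 6), (4, 6), (5,
      0), (5, 7), (6, 1), (6, 3), (6, 4), (7, 5), (7, 8), (8, 1), (8, 7)]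
    lev := [] }
  links := [[1, 7, 8, 9], [7, 0, 9, 10, 2, 11, 3, 12], [11, 1, 10, 13], [12, 1, 11, 4, 5, 14], [5, 3, 11,
    13], [14, 3, 4, 13, 6, 15], [15, 5, 13, 8]]
  P := {
    a := 7
    N := 16
    nb := [898, 7821, 11266, 22578, 10280, 57432, 41248, 4355, 41665, 1283, 8710, 8222, 16522, 3444,
      36904, 16736]
    tri := [(0, 1, 7), (0, 1, 9), (0, 7, 8), (0, 8, 9), (1, 2, 10), (1, 2, 11), (1, 3, 11), (1, 3, 12),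
      (1, 7, 12), (1, 9, 10), (2, 10, 13), (2, 11, 13), (3, 4, 5), (3, 4, 11), (3, 5, 14), (3, 12,
      14), (4, 5, 13), (4, 11, 13), (5, 6, 13), (5, 6, 15), (5, 14, 15), (6, 8, 13), (6, 8, 15)]
    fin := [0, 0, 0, 3, 4, 4, 4, 0, 4, 9, 0, 3, 3, 13, 14, 15]
    chd := [(4, 3), (4, 14)]
    steps := [(0, 1), (0, 2), (0, 7), (0, 10), (3, 11), (3, 12), (4, 5), (4, 6), (4, 8)] }
  rep := [3, 0, 4, 13, 14, 9, 15]

noncomputable def v2488 : Cov.CovD where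
  P := 3
  N := 4
  pl := [2, 6, 8]
  lev := [⟨[], [], [(1, 2)], [5], [(0, 1, []), (1, 2, [0, 4])]⟩,
    ⟨[], [(0, 0), (0, 1), (0, 2)], [(0, 0), (0, 1), (1, 1)], [5], [(0, 1, []), (3, 1, []),
      (4, 0, [2]), (5, 0, [2])]⟩,
    ⟨[(0, 1)], [(1, 0), (1, 1)], [(0, 1)], [3], [(3, 1, []), (4, 0, [2])]⟩,
    ⟨[(0, 1), (1, 2)], [(1, 0), (1, 1), (1, 4), (2, 0)], [(0, 0), (0, 4)], [], [(4, 0,
      [2]), (5, 0, [2]), (7, 4, [2])]⟩,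
    ⟨[(1, 3)], [(1, 0), (2, 0), (3, 0), (3, 4)], [], [3], [(4, 0, [2])]⟩,
    ⟨[(1, 3), (3, 4)], [(3, 0), (3, 4), (4, 0), (4, 4)], [], [3, 6], [(7, 4, [2])]⟩,
    ⟨[(3, 5), (4, 5)], [(0, 2), (5, 2), (5, 4)], [], [3, 6], [(1, 2, [0, 4])]⟩]
  Ta := [((0, 1), 1, 2), ((0, 5), 1, 0), ((3, 2), 1, 5), ((3, 6), 1, 3), ((4, 6), 0, 3), ((5, 0),
    0, 1), ((5, 7), 0, 4)]
  Tb := [((0, 1, 5), 1, 2, 0), ((1, 0, 2), 2, 1, 5), ((1, 0, 6), 2, 1, 3), ((1, 0, 8), 2, 1, 6),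
    ((1, 2, 6), 2, 5, 3), ((1, 2, 8), 2, 5, 6), ((1, 6, 8), 2, 3, 6), ((2, 1, 3), 5, 2, 1),
    ((3, 2, 6), 1, 5, 3), ((5, 0, 7), 0, 1, 4), ((6, 1, 3), 3, 2, 1), ((6, 1, 4), 3, 2, 0),
    ((6, 3, 4), 3, 1, 0), ((7, 5, 8), 4, 0, 6), ((8, 1, 7), 6, 2, 4)]
  Tc := [(2, 0, 4)]
  Td := [((0, 2), (4, 6), 3), ((0, 2), (5, 0), 1), ((0, 2), (5, 7), 4), ((2, 0), (1, 0), 1), ((2,
    0), (1, 2), 5), ((2, 0), (1, 6), 3), ((2, 0), (1, 8), 6), ((2, 4), (1, 0), 1), ((2, 4),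
    (1, 2), 5), ((2, 4), (1, 6), 3), ((2, 4), (1, 8), 6), ((4, 2), (7, 5), 0), ((4, 2), (7,
    8), 6)]
  G := [[0, 0, 0xe12e12a1e12e12a2c1, 0x9252c2249252c2285, 0x228a41fa428242881b2b42e249], [0, 0,
    0xc1a16c1a16c1c1a16a161ca1c1, 0, 0x842417a448281b8484215aa154ac421388a488b], [0,
    0x11844e521188a926881384c92241742a4c, 0xe12e12618e12e12c249, 0xd21224d212285,
    0x31582a3428244891b2342e149], [0, 0, 0xe14e18e12e1c161ac161ac1c1, 0,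
    0x9268351fa4181182a942154b161ac4a]]

noncomputable def n2488 : Ent := ⟨e2488, noF, [], [], []⟩

def c2488 : PLift (Cov.check n2488.C.D v2488 = true) := ⟨by decide +kernel⟩

def b2488 : PLift (entF (fidx ts) 400 2488 n2488 = true) := ⟨by decide +kernel⟩

theorem g2488 : GoodF (fidx ts) 400 2488 := GoodF.ofV v2488 n2488 c2488.down b2488.down

/-- 4846464:1977/1 -/
noncomputable def e2489 : SCfg where
  D := {
    a := 7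
    L := 10
    kp := 7
    inn := [(0, 1), (1, 0), (1, 2), (1, 3), (2, 1), (3, 1), (3, 4), (3, 5), (4, 3), (4, 5), (5, 3), (5,
      4), (5, 6), (6, 5)]
    mix := [(0, 0), (0, 1), (0, 2), (1, 0), (1, 2), (1, 3), (1, 4), (1, 5), (2, 3), (2, 4), (2, 6), (3,
      4), (3, 5), (3, 7), (4, 4), (4, 8), (5, 7), (5, 8), (5, 9), (6, 1), (6, 8), (6, 9)]
    cl := [1, 2, 5, 1, 0, 0, 7, 4, 3, 6]
    chq := [(0, 2), (2, 0), (2, 4), (4, 2)]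
    rng := [(0, 1), (0, 5), (1, 0), (1, 2), (1, 8), (1, 9), (2, 1), (2, 3), (3, 2), (3, 6), (4, 6), (4,
      8), (5, 0), (5, 7), (6, 3), (6, 4), (7, 5), (7, 9), (8, 1), (8, 4), (9, 1), (9, 7)]
    lev := [] }
  links := [[1, 7, 8, 9], [7, 0, 9, 10, 2, 11, 3, 12], [11, 1, 10, 13], [12, 1, 11, 4, 5, 14], [5, 3, 11,
    15], [14, 3, 4, 15, 6, 16], [16, 5, 15, 8]]
  P := {
    a := 7
    N := 17
    nb := [898, 7821, 11266, 22578, 34856, 114776, 98592, 4355, 99009, 1283, 8710, 40990, 16522, 3076,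
      69672, 2416, 16736]
    tri := [(0, 1, 7), (0, 1, 9), (0, 7, 8), (0, 8, 9), (1, 2, 10), (1, 2, 11), (1, 3, 11), (1, 3, 12),
      (1, 7, 12), (1, 9, 10), (2, 10, 13), (2, 11, 13), (3, 4, 5), (3, 4, 11), (3, 5, 14), (3, 12,
      14), (4, 5, 15), (4, 11, 15), (5, 6, 15), (5, 6, 16), (5, 14, 16), (6, 8, 15), (6, 8, 16)]
    fin := [0, 0, 0, 3, 4, 4, 4, 0, 4, 9, 0, 3, 3, 13, 14, 15, 16]
    chd := [(4, 3), (4, 14)]
    steps := [(0, 1), (0, 2), (0, 7), (0, 10), (3, 11), (3, 12), (4, 5), (4, 6), (4, 8)] }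
  rep := [3, 0, 4, 15, 14, 9, 16, 13]

noncomputable def v2489 : Cov.CovD where
  P := 3
  N := 5
  pl := [2, 6, 8, 9]
  lev := [⟨[], [], [(1, 2)], [5], [(0, 1, []), (1, 2, [0, 4])]⟩,
    ⟨[], [(0, 0), (0, 1), (0, 2)], [(0, 0), (0, 1), (1, 1)], [5], [(0, 1, []), (3, 1, []),
      (4, 0, [2]), (5, 0, [2])]⟩,
    ⟨[(0, 1)], [(1, 0), (1, 1)], [(0, 1)], [7], [(3, 1, []), (4, 0, [2])]⟩,
    ⟨[(0, 1), (1, 2)], [(1, 0), (1, 1), (1, 4), (2, 0)], [(0, 0), (0, 4)], [], [(4, 0,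
      [2]), (5, 0, [2]), (7, 4, [2])]⟩,
    ⟨[(1, 3)], [(1, 0), (2, 0), (3, 0), (3, 4)], [], [3], [(4, 0, [2])]⟩,
    ⟨[(1, 3), (3, 4)], [(3, 0), (3, 4), (4, 0), (4, 4)], [], [3, 6], [(7, 4, [2])]⟩,
    ⟨[(3, 5), (4, 5)], [(0, 2), (5, 2), (5, 4)], [], [3, 6], [(1, 2, [0, 4])]⟩]
  Ta := [((0, 1), 1, 2), ((0, 5), 1, 0), ((3, 2), 1, 5), ((3, 6), 1, 7), ((4, 6), 0, 7), ((4, 8),
    0, 3), ((5, 0), 0, 1), ((5, 7), 0, 4)]
  Tb := [((0, 1, 5), 1, 2, 0), ((1, 0, 2), 2, 1, 5), ((1, 0, 8), 2, 1, 3), ((1, 0, 9), 2, 1, 6),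
    ((1, 2, 8), 2, 5, 3), ((1, 2, 9), 2, 5, 6), ((1, 8, 9), 2, 3, 6), ((2, 1, 3), 5, 2, 1),
    ((3, 2, 6), 1, 5, 7), ((4, 6, 8), 0, 7, 3), ((5, 0, 7), 0, 1, 4), ((6, 3, 4), 7, 1, 0),
    ((7, 5, 9), 4, 0, 6), ((8, 1, 4), 3, 2, 0), ((9, 1, 7), 6, 2, 4)]
  Tc := [(2, 0, 4)]
  Td := [((0, 2), (4, 6), 7), ((0, 2), (4, 8), 3), ((0, 2), (5, 0), 1), ((0, 2), (5, 7), 4), ((2,
    0), (1, 0), 1), ((2, 0), (1, 2), 5), ((2, 0), (1, 8), 3), ((2, 0), (1, 9), 6), ((2, 4),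
    (1, 0), 1), ((2, 4), (1, 2), 5), ((2, 4), (1, 8), 3), ((2, 4), (1, 9), 6), ((4, 2), (7,
    5), 0), ((4, 2), (7, 9), 6)]
  G := [[0, 0, 0xe12e14e18e1a161cc1a16a2c1, 0x824211e2289252c224c,
    0x681d2c17a428a154881b298524ae249], [0, 0, 0xa161cc161a61a161cc161aa1c1, 0,
    0x79c2817a448841124e881b2a154e815221da88178ac44824f118241fe481124624cb], [0,
    0x111184ced281341384cd268111184ced281341384cd2a4c, 0xa161cc161a62c1a16c161ac2c1,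
    0xd21224d212285, 0x11118b2eb428341111182ab848e249], [0, 0, 0xe12e14e18e1e14e12e18e1c1, 0,
    0x591d83d1fa418a1541189aa89c246e14a]]

noncomputable def n2489 : Ent := ⟨e2489, noF, [], [], [(13, 15, [1685356702439545624007900436039642273970977273354372543760010280961, 0])]⟩

def c2489 : PLift (Cov.check n2489.C.D v2489 = true) := ⟨by decide +kernel⟩

def b2489 : PLift (entF (fidx ts) 400 2489 n2489 = true) := ⟨by decide +kernel⟩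

theorem g2489 : GoodF (fidx ts) 400 2489 := GoodF.ofV v2489 n2489 c2489.down b2489.down

/-- 4846464:1977/4 -/
noncomputable def e2490 : SCfg where
  D := {
    a := 7
    L := 9
    kp := 6
    inn := [(0, 1), (1, 0), (1, 2), (1, 3), (2, 1), (3, 1), (3, 4), (3, 5), (4, 3), (4, 5), (5, 3), (5,
      4), (5, 6), (6, 5)]
    mix := [(0, 0), (0, 1), (0, 2), (1, 0), (1, 2), (1, 3), (1, 4), (1, 5), (2, 3), (2, 4), (2, 6), (3,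
      4), (3, 5), (3, 7), (4, 4), (4, 6), (5, 1), (5, 6), (5, 7), (6, 1), (6, 6), (6, 8)]
    cl := [1, 2, 4, 1, 0, 0, 3, 5, 6]
    chq := [(0, 2), (2, 0), (2, 3), (3, 2)]
    rng := [(0, 1), (0, 5), (1, 0), (1, 2), (1, 7), (1, 8), (2, 1), (2, 3), (3, 2), (3, 6), (4, 6), (5,
      0), (5, 7), (6, 3), (6, 4), (6, 8), (7, 1), (7, 5), (8, 1), (8, 6)]
    lev := [] }
  links := [[1, 7, 8, 9], [7, 0, 9, 10, 2, 11, 3, 12], [11, 1, 10, 13], [12, 1, 11, 4, 5, 14], [5, 3, 11,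
    13], [14, 3, 4, 13, 6, 8], [8, 5, 13, 15]]
  P := {
    a := 7
    N := 16
    nb := [898, 7821, 11266, 22578, 10280, 24920, 41248, 4355, 49889, 1283, 8710, 8222, 16522, 35956,
      4392, 8512]
    tri := [(0, 1, 7), (0, 1, 9), (0, 7, 8), (0, 8, 9), (1, 2, 10), (1, 2, 11), (1, 3, 11), (1, 3, 12),
      (1, 7, 12), (1, 9, 10), (2, 10, 13), (2, 11, 13), (3, 4, 5), (3, 4, 11), (3, 5, 14), (3, 12,
      14), (4, 5, 13), (4, 11, 13), (5, 6, 8), (5, 6, 13), (5, 8, 14), (6, 8, 15), (6, 13, 15)]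
    fin := [0, 0, 0, 3, 4, 4, 4, 0, 4, 9, 0, 3, 3, 13, 14, 15]
    chd := [(4, 3), (4, 13)]
    steps := [(0, 1), (0, 2), (0, 7), (0, 10), (3, 11), (3, 12), (4, 5), (4, 6), (4, 8)] }
  rep := [3, 0, 4, 13, 9, 14, 15]

noncomputable def v2490 : Cov.CovD where
  P := 3
  N := 4
  pl := [2, 7, 8]
  lev := [⟨[], [], [(1, 2)], [4], [(0, 1, []), (1, 2, [0, 3])]⟩,
    ⟨[], [(0, 0), (0, 1), (0, 2)], [(0, 0), (0, 1), (1, 1)], [4], [(0, 1, []), (3, 1, []),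
      (4, 0, [2]), (5, 0, [2])]⟩,
    ⟨[(0, 1)], [(1, 0), (1, 1), (1, 3)], [(0, 1), (0, 3), (1, 3)], [], [(3, 1, []), (4, 0,
      [2]), (6, 3, [2])]⟩,
    ⟨[(0, 1), (1, 2)], [(1, 0), (1, 1), (2, 0)], [(0, 0)], [5], [(4, 0, [2]), (5, 0, [2])]⟩,
    ⟨[(1, 3)], [(1, 0), (2, 0), (2, 3), (3, 0), (3, 3)], [(0, 3)], [], [(4, 0, [2]), (6, 3,
      [2])]⟩,
    ⟨[(1, 3), (3, 4)], [(0, 2), (2, 3), (3, 0), (3, 2), (3, 3), (4, 0), (4, 2), (4, 3)],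
      [(2, 3)], [5], [(1, 2, [0, 3]), (6, 3, [2])]⟩,
    ⟨[(3, 5), (4, 5)], [(0, 2), (2, 3), (4, 3), (5, 2), (5, 3)], [(2, 3)], [6], [(1, 2, [0,
      3]), (6, 3, [2])]⟩]
  Ta := [((0, 1), 1, 2), ((0, 5), 1, 0), ((3, 2), 1, 4), ((3, 6), 1, 3), ((4, 6), 0, 3), ((5, 0),
    0, 1), ((5, 7), 0, 5)]
  Tb := [((0, 1, 5), 1, 2, 0), ((1, 0, 2), 2, 1, 4), ((1, 0, 7), 2, 1, 5), ((1, 0, 8), 2, 1, 6),
    ((1, 2, 7), 2, 4, 5), ((1, 2, 8), 2, 4, 6), ((1, 7, 8), 2, 5, 6), ((2, 1, 3), 4, 2, 1),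
    ((3, 2, 6), 1, 4, 3), ((5, 0, 7), 0, 1, 5), ((6, 3, 4), 3, 1, 0), ((6, 3, 8), 3, 1, 6),
    ((6, 4, 8), 3, 0, 6), ((7, 1, 5), 5, 2, 0), ((8, 1, 6), 6, 2, 3)]
  Tc := [(2, 0, 3)]
  Td := [((0, 2), (4, 6), 3), ((0, 2), (5, 0), 1), ((0, 2), (5, 7), 5), ((2, 0), (1, 0), 1), ((2,
    0), (1, 2), 4), ((2, 0), (1, 7), 5), ((2, 0), (1, 8), 6), ((2, 3), (1, 0), 1), ((2, 3),
    (1, 2), 4), ((2, 3), (1, 7), 5), ((2, 3), (1, 8), 6), ((3, 2), (6, 3), 1), ((3, 2), (6,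
    4), 0), ((3, 2), (6, 8), 6)]
  G := [[0, 0, 0xe121216281212e12834c, 0xccdd2228ccdd2224c, 0xa2a39aa39264828222839a8334e249],
    [0, 0, 0x14e1a1812c61814186c1a16a14c, 0, 0x293a2968286432484c283a8a4314a83b4ac4a], [0,
    0xd129151a628d129151ca24c, 0xe12121628e12121a24c, 0x95dd222495dd22185,
    0x312231234628312321c249], [0, 0, 0x1414188c161a658181814414e16a94c, 0,
    0x19913382ab44891bb42142b34814b]]

noncomputable def n2490 : Ent := ⟨e2490, noF, [], [], []⟩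

def c2490 : PLift (Cov.check n2490.C.D v2490 = true) := ⟨by decide +kernel⟩

def b2490 : PLift (entF (fidx ts) 400 2490 n2490 = true) := ⟨by decide +kernel⟩

theorem g2490 : GoodF (fidx ts) 400 2490 := GoodF.ofV v2490 n2490 c2490.down b2490.down

/-- 4846464:1977/5 -/
noncomputable def e2491 : SCfg where
  D := {
    a := 7
    L := 9
    kp := 6
    inn := [(0, 1), (1, 0), (1, 2), (1, 3), (2, 1), (3, 1), (3, 4), (3, 5), (4, 3), (4, 5), (5, 3), (5,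
      4), (5, 6), (6, 5)]
    mix := [(0, 0), (0, 1), (0, 2), (1, 0), (1, 2), (1, 3), (1, 4), (1, 5), (2, 3), (2, 4), (2, 6), (3,
      4), (3, 5), (3, 7), (4, 4), (4, 8), (5, 1), (5, 7), (5, 8), (6, 1), (6, 6), (6, 8)]
    cl := [1, 2, 6, 1, 0, 0, 5, 4, 3]
    chq := [(3, 4), (4, 3), (4, 5), (5, 4)]
    rng := [(0, 1), (0, 5), (1, 0), (1, 2), (1, 6), (1, 7), (2, 1), (2, 3), (3, 2), (3, 6), (4, 6), (4,
      8), (5, 0), (5, 7), (6, 1), (6, 3), (6, 4), (6, 8), (7, 1), (7, 5), (8, 4), (8, 6)]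
    lev := [] }
  links := [[1, 7, 8, 9], [7, 0, 9, 10, 2, 11, 3, 12], [11, 1, 10, 13], [12, 1, 11, 4, 5, 14], [5, 3, 11,
    15], [14, 3, 4, 15, 6, 8], [8, 5, 15, 13]]
  P := {
    a := 7
    N := 16
    nb := [898, 7821, 11266, 22578, 34856, 49496, 41248, 4355, 25313, 1283, 8710, 40990, 16522, 36164,
      4392, 10352]
    tri := [(0, 1, 7), (0, 1, 9), (0, 7, 8), (0, 8, 9), (1, 2, 10), (1, 2, 11), (1, 3, 11), (1, 3, 12),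
      (1, 7, 12), (1, 9, 10), (2, 10, 13), (2, 11, 13), (3, 4, 5), (3, 4, 11), (3, 5, 14), (3, 12,
      14), (4, 5, 15), (4, 11, 15), (5, 6, 8), (5, 6, 15), (5, 8, 14), (6, 8, 13), (6, 13, 15)]
    fin := [0, 0, 0, 3, 3, 5, 6, 0, 8, 9, 0, 3, 3, 6, 5, 15]
    chd := [(5, 15), (6, 5)]
    steps := [(0, 1), (0, 2), (0, 7), (0, 10), (3, 4), (3, 11), (3, 12), (5, 14), (6, 13)] }
  rep := [3, 0, 8, 15, 5, 6, 9]

noncomputable def v2491 : Cov.CovD where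
  P := 3
  N := 4
  pl := [1, 2]
  lev := [⟨[], [], [], [2, 6], [(0, 1, [])]⟩,
    ⟨[], [(0, 0), (0, 1)], [(0, 0), (0, 1), (1, 1)], [6], [(0, 1, []), (3, 1, []), (4, 0,
      []), (5, 0, [])]⟩,
    ⟨[(0, 1)], [(1, 0), (1, 1), (1, 5)], [(0, 1), (0, 5), (1, 5)], [], [(3, 1, []), (4, 0,
      []), (6, 5, [4])]⟩,
    ⟨[(0, 1), (1, 2)], [(1, 0), (1, 1), (1, 4), (2, 0)], [(0, 0), (0, 4)], [], [(4, 0, []),
      (5, 0, []), (7, 4, [3, 5])]⟩,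
    ⟨[(1, 3)], [(1, 0), (2, 0), (3, 0), (3, 3), (3, 4)], [(0, 3)], [], [(4, 0, []), (8, 3,
      [4])]⟩,
    ⟨[(1, 3), (3, 4)], [(3, 0), (3, 3), (3, 4), (4, 0), (4, 3), (4, 4)], [(3, 4)], [2],
      [(7, 4, [3, 5]), (8, 3, [4])]⟩,
    ⟨[(3, 5), (4, 5)], [(2, 5), (4, 3), (5, 3), (5, 4), (5, 5)], [(3, 5)], [2], [(6, 5,
      [4]), (8, 3, [4])]⟩]
  Ta := [((0, 1), 1, 2), ((0, 5), 1, 0), ((3, 2), 1, 6), ((3, 6), 1, 5), ((4, 6), 0, 5), ((4, 8),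
    0, 3), ((5, 0), 0, 1), ((5, 7), 0, 4)]
  Tb := [((0, 1, 5), 1, 2, 0), ((1, 0, 2), 2, 1, 6), ((1, 0, 6), 2, 1, 5), ((1, 0, 7), 2, 1, 4),
    ((1, 2, 6), 2, 6, 5), ((1, 2, 7), 2, 6, 4), ((1, 6, 7), 2, 5, 4), ((2, 1, 3), 6, 2, 1),
    ((3, 2, 6), 1, 6, 5), ((4, 6, 8), 0, 5, 3), ((5, 0, 7), 0, 1, 4), ((6, 1, 3), 5, 2, 1),
    ((6, 1, 4), 5, 2, 0), ((6, 1, 8), 5, 2, 3), ((6, 3, 4), 5, 1, 0), ((6, 3, 8), 5, 1, 3),
    ((6, 4, 8), 5, 0, 3), ((7, 1, 5), 4, 2, 0), ((8, 4, 6), 3, 0, 5)]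
  Tc := [(4, 3, 5)]
  Td := [((3, 4), (8, 4), 0), ((3, 4), (8, 6), 5), ((4, 3), (7, 1), 2), ((4, 3), (7, 5), 0), ((4,
    5), (7, 1), 2), ((4, 5), (7, 5), 0), ((5, 4), (6, 1), 2), ((5, 4), (6, 3), 1), ((5, 4),
    (6, 4), 0), ((5, 4), (6, 8), 3)]
  G := [[0, 0, 0x22c288644ac628224e2488e8a24c, 0x488d51c228895449c224c,
    0xa1222bca39462821239c8838a249], [0, 0, 0x28286ac4a464822c2c868a848482cea484822ce684ce,
    0, 0x28823629946422928134a8c81281ba4388b3168c49], [0, 0x1122112118668118411281148e2c,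
    0x2a2e144a1628622e18868a24c, 0x1111c32281111c3224c, 0x1112a51146281112a3118c249], [0, 0,
    0x28286a484e4618224e2488e8a14c, 0, 0x11321194618119126118c14a]]

noncomputable def n2491 : Ent := ⟨e2491, noF, [], [], []⟩

def c2491 : PLift (Cov.check n2491.C.D v2491 = true) := ⟨by decide +kernel⟩

def b2491 : PLift (entF (fidx ts) 400 2491 n2491 = true) := ⟨by decide +kernel⟩

theorem g2491 : GoodF (fidx ts) 400 2491 := GoodF.ofV v2491 n2491 c2491.down b2491.down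

/-- 4846464:1977/3 -/
noncomputable def e2492 : SCfg where
  D := {
    a := 7
    L := 10
    kp := 7
    inn := [(0, 1), (1, 0), (1, 2), (1, 3), (2, 1), (3, 1), (3, 4), (3, 5), (4, 3), (4, 5), (5, 3), (5,
      4), (5, 6), (6, 5)]
    mix := [(0, 0), (0, 1), (0, 2), (1, 0), (1, 2), (1, 3), (1, 4), (1, 5), (2, 3), (2, 4), (2, 6), (3,
      4), (3, 5), (3, 7), (4, 4), (4, 8), (5, 1), (5, 7), (5, 8), (6, 1), (6, 8), (6, 9)]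
    cl := [1, 2, 5, 1, 0, 0, 7, 4, 3, 6]
    chq := [(3, 4), (4, 3), (4, 6), (6, 4)]
    rng := [(0, 1), (0, 5), (1, 0), (1, 2), (1, 7), (1, 9), (2, 1), (2, 3), (3, 2), (3, 6), (4, 6), (4,
      8), (5, 0), (5, 7), (6, 3), (6, 4), (7, 1), (7, 5), (8, 4), (8, 9), (9, 1), (9, 8)]
    lev := [] }
  links := [[1, 7, 8, 9], [7, 0, 9, 10, 2, 11, 3, 12], [11, 1, 10, 13], [12, 1, 11, 4, 5, 14], [5, 3, 11,
    15], [14, 3, 4, 15, 6, 8], [8, 5, 15, 16]]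
  P := {
    a := 7
    N := 17
    nb := [898, 7821, 11266, 22578, 34856, 49496, 98592, 4355, 82657, 1283, 8710, 40990, 16522, 3076,
      4392, 67696, 33088]
    tri := [(0, 1, 7), (0, 1, 9), (0, 7, 8), (0, 8, 9), (1, 2, 10), (1, 2, 11), (1, 3, 11), (1, 3, 12),
      (1, 7, 12), (1, 9, 10), (2, 10, 13), (2, 11, 13), (3, 4, 5), (3, 4, 11), (3, 5, 14), (3, 12,
      14), (4, 5, 15), (4, 11, 15), (5, 6, 8), (5, 6, 15), (5, 8, 14), (6, 8, 16), (6, 15, 16)]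
    fin := [0, 0, 0, 3, 3, 5, 6, 0, 8, 9, 0, 3, 3, 13, 5, 15, 6]
    chd := [(5, 6), (5, 15)]
    steps := [(0, 1), (0, 2), (0, 7), (0, 10), (3, 4), (3, 11), (3, 12), (5, 14), (6, 16)] }
  rep := [3, 0, 8, 15, 5, 9, 6, 13]

noncomputable def v2492 : Cov.CovD where
  P := 3
  N := 5
  pl := [1, 2, 6]
  lev := [⟨[], [], [], [2, 5], [(0, 1, [])]⟩,
    ⟨[], [(0, 0), (0, 1)], [(0, 0), (0, 1), (1, 1)], [5], [(0, 1, []), (3, 1, []), (4, 0,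
      []), (5, 0, [])]⟩,
    ⟨[(0, 1)], [(1, 0), (1, 1)], [(0, 1)], [7], [(3, 1, []), (4, 0, [])]⟩,
    ⟨[(0, 1), (1, 2)], [(1, 0), (1, 1), (1, 4), (2, 0)], [(0, 0), (0, 4)], [], [(4, 0, []),
      (5, 0, []), (7, 4, [3, 6])]⟩,
    ⟨[(1, 3)], [(1, 0), (2, 0), (3, 0), (3, 3), (3, 4)], [(0, 3)], [], [(4, 0, []), (8, 3,
      [4])]⟩,
    ⟨[(1, 3), (3, 4)], [(3, 0), (3, 3), (3, 4), (4, 0), (4, 3), (4, 4)], [(3, 4)], [2],
      [(7, 4, [3, 6]), (8, 3, [4])]⟩,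
    ⟨[(3, 5), (4, 5)], [(4, 3), (5, 3), (5, 4), (5, 6)], [(3, 6)], [2], [(8, 3, [4]), (9,
      6, [4])]⟩]
  Ta := [((0, 1), 1, 2), ((0, 5), 1, 0), ((3, 2), 1, 5), ((3, 6), 1, 7), ((4, 6), 0, 7), ((4, 8),
    0, 3), ((5, 0), 0, 1), ((5, 7), 0, 4)]
  Tb := [((0, 1, 5), 1, 2, 0), ((1, 0, 2), 2, 1, 5), ((1, 0, 7), 2, 1, 4), ((1, 0, 9), 2, 1, 6),
    ((1, 2, 7), 2, 5, 4), ((1, 2, 9), 2, 5, 6), ((1, 7, 9), 2, 4, 6), ((2, 1, 3), 5, 2, 1),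
    ((3, 2, 6), 1, 5, 7), ((4, 6, 8), 0, 7, 3), ((5, 0, 7), 0, 1, 4), ((6, 3, 4), 7, 1, 0),
    ((7, 1, 5), 4, 2, 0), ((8, 4, 9), 3, 0, 6), ((9, 1, 8), 6, 2, 3)]
  Tc := [(4, 3, 6)]
  Td := [((3, 4), (8, 4), 0), ((3, 4), (8, 9), 6), ((4, 3), (7, 1), 2), ((4, 3), (7, 5), 0), ((4,
    6), (7, 1), 2), ((4, 6), (7, 5), 0), ((6, 4), (9, 1), 2), ((6, 4), (9, 8), 3)]
  G := [[0, 0, 0x22c2488e42c62822c282484eca24c, 0x489d41a22881485dc224c,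
    0x28a1628bb462823928938a249], [0, 0,
    0x228e2484e4648224e2488e8a84228e2484e468246286488e8a4ce, 0,
    0x2a9228bb464823928938a229288311cac428921a28bb4688b], [0,
    0x8151a4146d12514668419168514818aa918446c, 0x22c248ce162862c18c61a24c,
    0x189145c218814111cb224c, 0x2111a3b1462812321898a249], [0, 0,
    0x228e2484e461842c24a68868a14c, 0, 0x12321b9461821218a183ca14a]]

noncomputable def n2492 : Ent := ⟨e2492, noF, [], [], [(13, 15, [1685356702439545624007900436039642273970977273354372543760010289153, 0]), (13, 16, [1580044410770988437309982408355971841652082177953823432505699315713, 0])]⟩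

def c2492 : PLift (Cov.check n2492.C.D v2492 = true) := ⟨by decide +kernel⟩

def b2492 : PLift (entF (fidx ts) 400 2492 n2492 = true) := ⟨by decide +kernel⟩

theorem g2492 : GoodF (fidx ts) 400 2492 := GoodF.ofV v2492 n2492 c2492.down b2492.down

/-- 4846464:1977/7 -/
noncomputable def e2493 : SCfg where
  D := {
    a := 7
    L := 9
    kp := 6
    inn := [(0, 1), (1, 0), (1, 2), (1, 3), (2, 1), (3, 1), (3, 4), (3, 5), (4, 3), (4, 5), (5, 3), (5,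
      4), (5, 6), (6, 5)]
    mix := [(0, 0), (0, 1), (0, 2), (1, 0), (1, 2), (1, 3), (1, 4), (1, 5), (2, 3), (2, 4), (2, 6), (3,
      4), (3, 5), (3, 7), (4, 4), (4, 6), (5, 6), (5, 7), (5, 8), (6, 3), (6, 6), (6, 8)]
    cl := [0, 6, 5, 0, 1, 1, 2, 3, 4]
    chq := [(2, 3), (2, 4), (3, 2), (4, 2)]
    rng := [(0, 1), (0, 5), (1, 0), (1, 2), (2, 1), (2, 3), (3, 2), (3, 6), (3, 8), (4, 6), (5, 0), (5,
      7), (6, 3), (6, 4), (7, 5), (7, 8), (8, 3), (8, 7)]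
    lev := [] }
  links := [[1, 7, 8, 9], [7, 0, 9, 10, 2, 11, 3, 12], [11, 1, 10, 13], [12, 1, 11, 4, 5, 14], [5, 3, 11,
    13], [14, 3, 4, 13, 6, 15], [15, 5, 13, 10]]
  P := {
    a := 7
    N := 16
    nb := [898, 7821, 11266, 22578, 10280, 57432, 42016, 4355, 641, 1283, 41542, 8222, 16522, 3188,
      36904, 17504]
    tri := [(0, 1, 7), (0, 1, 9), (0, 7, 8), (0, 8, 9), (1, 2, 10), (1, 2, 11), (1, 3, 11), (1, 3, 12),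
      (1, 7, 12), (1, 9, 10), (2, 10, 13), (2, 11, 13), (3, 4, 5), (3, 4, 11), (3, 5, 14), (3, 12,
      14), (4, 5, 13), (4, 11, 13), (5, 6, 13), (5, 6, 15), (5, 14, 15), (6, 10, 13), (6, 10, 15)]
    fin := [0, 0, 0, 3, 4, 4, 0, 0, 8, 9, 0, 3, 3, 4, 14, 15]
    chd := [(4, 14), (4, 15)]
    steps := [(0, 1), (0, 2), (0, 7), (0, 10), (0, 6), (3, 11), (3, 12), (4, 5), (4, 13)] }
  rep := [0, 3, 4, 14, 15, 9, 8]

noncomputable def v2493 : Cov.CovD where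
  P := 3
  N := 4
  pl := [1, 2]
  lev := [⟨[], [], [], [5, 6], [(0, 0, [])]⟩,
    ⟨[], [(0, 0), (0, 1)], [(0, 0), (0, 1), (1, 1)], [5], [(0, 0, []), (3, 0, []), (4, 1,
      []), (5, 1, [])]⟩,
    ⟨[(0, 1)], [(1, 0), (1, 1), (1, 2)], [(0, 1), (0, 2), (1, 2)], [], [(3, 0, []), (4, 1,
      []), (6, 2, [3, 4])]⟩,
    ⟨[(0, 1), (1, 2)], [(1, 0), (1, 1), (1, 3), (2, 1)], [(1, 1), (1, 3)], [], [(4, 1, []),
      (5, 1, []), (7, 3, [2])]⟩,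
    ⟨[(1, 3)], [(1, 1), (2, 1), (2, 2), (3, 1), (3, 2), (3, 3)], [(1, 2)], [], [(4, 1, []),
      (6, 2, [3, 4])]⟩,
    ⟨[(1, 3), (3, 4)], [(2, 2), (3, 1), (3, 2), (3, 3), (3, 4), (4, 1), (4, 2), (4, 3), (4,
      4)], [(2, 3), (2, 4), (3, 4)], [], [(6, 2, [3, 4]), (7, 3, [2]), (8, 4, [2])]⟩,
    ⟨[(3, 5), (4, 5)], [(1, 0), (2, 0), (2, 2), (4, 2), (5, 0), (5, 2), (5, 3), (5, 4)],
      [(0, 2), (0, 4), (2, 4)], [], [(3, 0, []), (6, 2, [3, 4]), (8, 4, [2])]⟩]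
  Ta := [((0, 1), 0, 6), ((0, 5), 0, 1), ((3, 2), 0, 5), ((3, 6), 0, 2), ((3, 8), 0, 4), ((4, 6),
    1, 2), ((5, 0), 1, 0), ((5, 7), 1, 3)]
  Tb := [((0, 1, 5), 0, 6, 1), ((1, 0, 2), 6, 0, 5), ((2, 1, 3), 5, 6, 0), ((3, 2, 6), 0, 5, 2),
    ((3, 2, 8), 0, 5, 4), ((3, 6, 8), 0, 2, 4), ((5, 0, 7), 1, 0, 3), ((6, 3, 4), 2, 0, 1),
    ((7, 5, 8), 3, 1, 4), ((8, 3, 7), 4, 0, 3)]
  Tc := [(2, 3, 4)]
  Td := [((2, 3), (6, 3), 0), ((2, 3), (6, 4), 1), ((2, 4), (6, 3), 0), ((2, 4), (6, 4), 1), ((3,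
    2), (7, 5), 1), ((3, 2), (7, 8), 4), ((4, 2), (8, 3), 0), ((4, 2), (8, 7), 3)]
  G := [[0, 0, 0, 0x11c8c1454811c1c14984441884c14d111c4c1894ce,
    0x828b141811a1a18984828b14114a12838c8ce], [0, 0xc18248c18284c14c18c42e, 0, 0,
    0x11ab842811a1a1298411ab84214912a38c2ce], [0, 0, 0x882e418882e418c1,
    0x884c18548448884884c185444188c44144c89488148cd458cf,
    0x228899488828b1488828b14882a1483858c7], [0, 0, 0x82a4461442688c18c1, 0,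
    0x82ab1428228a9a488882234a98584b]]

noncomputable def n2493 : Ent := ⟨e2493, noF, [], [], []⟩

def c2493 : PLift (Cov.check n2493.C.D v2493 = true) := ⟨by decide +kernel⟩

def b2493 : PLift (entF (fidx ts) 400 2493 n2493 = true) := ⟨by decide +kernel⟩

theorem g2493 : GoodF (fidx ts) 400 2493 := GoodF.ofV v2493 n2493 c2493.down b2493.down

/-- 4846464:1977/6 -/
noncomputable def e2494 : SCfg where
  D := {
    a := 7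
    L := 10
    kp := 7
    inn := [(0, 1), (1, 0), (1, 2), (1, 3), (2, 1), (3, 1), (3, 4), (3, 5), (4, 3), (4, 5), (5, 3), (5,
      4), (5, 6), (6, 5)]
    mix := [(0, 0), (0, 1), (0, 2), (1, 0), (1, 2), (1, 3), (1, 4), (1, 5), (2, 3), (2, 4), (2, 6), (3,
      4), (3, 5), (3, 7), (4, 4), (4, 8), (5, 7), (5, 8), (5, 9), (6, 3), (6, 8), (6, 9)]
    cl := [2, 6, 0, 1, 0, 0, 7, 4, 3, 5]
    chq := [(1, 4), (3, 4), (4, 1), (4, 3)]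
    rng := [(0, 1), (0, 5), (1, 0), (1, 2), (2, 1), (2, 3), (3, 2), (3, 6), (3, 8), (3, 9), (4, 6), (4,
      8), (5, 0), (5, 7), (6, 3), (6, 4), (7, 5), (7, 9), (8, 3), (8, 4), (9, 3), (9, 7)]
    lev := [] }
  links := [[1, 7, 8, 9], [7, 0, 9, 10, 2, 11, 3, 12], [11, 1, 10, 13], [12, 1, 11, 4, 5, 14], [5, 3, 11,
    15], [14, 3, 4, 15, 6, 16], [16, 5, 15, 10]]
  P := {
    a := 7
    N := 17
    nb := [898, 7821, 11266, 22578, 34856, 114776, 99360, 4355, 641, 1283, 107078, 40990, 16522, 3076,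
      69672, 3184, 17504]
    tri := [(0, 1, 7), (0, 1, 9), (0, 7, 8), (0, 8, 9), (1, 2, 10), (1, 2, 11), (1, 3, 11), (1, 3, 12),
      (1, 7, 12), (1, 9, 10), (2, 10, 13), (2, 11, 13), (3, 4, 5), (3, 4, 11), (3, 5, 14), (3, 12,
      14), (4, 5, 15), (4, 11, 15), (5, 6, 15), (5, 6, 16), (5, 14, 16), (6, 10, 15), (6, 10, 16)]
    fin := [0, 1, 1, 1, 1, 5, 6, 0, 8, 1, 6, 1, 1, 13, 5, 15, 16]
    chd := [(5, 15), (6, 5)]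
    steps := [(0, 7), (1, 2), (1, 3), (1, 4), (1, 9), (1, 11), (1, 12), (5, 14), (6, 10)] }
  rep := [1, 6, 0, 15, 5, 16, 8, 13]

noncomputable def v2494 : Cov.CovD where
  P := 3
  N := 5
  pl := [0, 1, 6, 9]
  lev := [⟨[], [], [], [2, 6], [(2, 0, [])]⟩,
    ⟨[], [(0, 0), (0, 1)], [(0, 0), (0, 1)], [2], [(2, 0, []), (3, 1, [4]), (4, 0, []), (5,
      0, [])]⟩,
    ⟨[(0, 1)], [(1, 0), (1, 1)], [(0, 1)], [7], [(3, 1, [4]), (4, 0, [])]⟩,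
    ⟨[(0, 1), (1, 2)], [(1, 0), (1, 1), (1, 4), (2, 0)], [(0, 0), (0, 4)], [], [(4, 0, []),
      (5, 0, []), (7, 4, [1, 3])]⟩,
    ⟨[(1, 3)], [(1, 0), (2, 0), (3, 0), (3, 3), (3, 4)], [(0, 3)], [], [(4, 0, []), (8, 3,
      [4])]⟩,
    ⟨[(1, 3), (3, 4)], [(3, 0), (3, 3), (3, 4), (4, 0), (4, 3), (4, 4)], [(3, 4)], [5],
      [(7, 4, [1, 3]), (8, 3, [4])]⟩,
    ⟨[(3, 5), (4, 5)], [(1, 1), (2, 1), (4, 3), (5, 1), (5, 3), (5, 4)], [(1, 3)], [5],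
      [(3, 1, [4]), (8, 3, [4])]⟩]
  Ta := [((2, 1), 0, 6), ((2, 3), 0, 1), ((4, 6), 0, 7), ((4, 8), 0, 3), ((5, 0), 0, 2), ((5, 7),
    0, 4)]
  Tb := [((0, 1, 5), 2, 6, 0), ((1, 0, 2), 6, 2, 0), ((2, 1, 3), 0, 6, 1), ((3, 2, 6), 1, 0, 7),
    ((3, 2, 8), 1, 0, 3), ((3, 2, 9), 1, 0, 5), ((3, 6, 8), 1, 7, 3), ((3, 6, 9), 1, 7, 5),
    ((3, 8, 9), 1, 3, 5), ((4, 6, 8), 0, 7, 3), ((5, 0, 7), 0, 2, 4), ((6, 3, 4), 7, 1, 0),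
    ((7, 5, 9), 4, 0, 5), ((8, 3, 4), 3, 1, 0), ((9, 3, 7), 5, 1, 4)]
  Tc := [(4, 1, 3)]
  Td := [((1, 4), (3, 2), 0), ((1, 4), (3, 6), 7), ((1, 4), (3, 8), 3), ((1, 4), (3, 9), 5), ((3,
    4), (8, 3), 1), ((3, 4), (8, 4), 0), ((4, 1), (7, 5), 0), ((4, 1), (7, 9), 5), ((4, 3),
    (7, 5), 0), ((4, 3), (7, 9), 5)]
  G := [[0, 0xe12e18ae14e18c64e12e18ae12a141caa4c, 0, 0x81388a41f4618681ba417c218c,
    0x81388a41f46184246481f11ca18a], [0, 0, 0, 0x6481f2417c22481f8241fc2c41,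
    0x81388a41f466481f2417c2c81], [0, 0, 0x81342c4841f4618681ba417c2186, 0x451727481f8a141,
    0x451727481f8a181]]

noncomputable def n2494 : Ent := ⟨e2494, noF, [], [], [(13, 15, [1685356702439545624007900436039642273970977273354372543760010301441, 0])]⟩

def c2494 : PLift (Cov.check n2494.C.D v2494 = true) := ⟨by decide +kernel⟩

def b2494 : PLift (entF (fidx ts) 400 2494 n2494 = true) := ⟨by decide +kernel⟩

theorem g2494 : GoodF (fidx ts) 400 2494 := GoodF.ofV v2494 n2494 c2494.down b2494.down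

/-- 4846464:1977/8 -/
noncomputable def e2495 : SCfg where
  D := {
    a := 7
    L := 10
    kp := 7
    inn := [(0, 1), (1, 0), (1, 2), (1, 3), (2, 1), (3, 1), (3, 4), (3, 5), (4, 3), (4, 5), (5, 3), (5,
      4), (5, 6), (6, 5)]
    mix := [(0, 0), (0, 1), (0, 2), (1, 0), (1, 2), (1, 3), (1, 4), (1, 5), (2, 3), (2, 4), (2, 6), (3,
      4), (3, 5), (3, 7), (4, 4), (4, 6), (5, 6), (5, 7), (5, 8), (6, 6), (6, 8), (6, 9)]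
    cl := [2, 7, 4, 2, 0, 0, 1, 3, 5, 6]
    chq := [(1, 3), (3, 1), (3, 6), (6, 3)]
    rng := [(0, 1), (0, 5), (1, 0), (1, 2), (2, 1), (2, 3), (3, 2), (3, 6), (4, 6), (5, 0), (5, 7), (6,
      3), (6, 4), (6, 9), (7, 5), (7, 8), (8, 7), (8, 9), (9, 6), (9, 8)]
    lev := [] }
  links := [[1, 7, 8, 9], [7, 0, 9, 10, 2, 11, 3, 12], [11, 1, 10, 13], [12, 1, 11, 4, 5, 14], [5, 3, 11,
    13], [14, 3, 4, 13, 6, 15], [15, 5, 13, 16]]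
  P := {
    a := 7
    N := 17
    nb := [898, 7821, 11266, 22578, 10280, 57432, 106528, 4355, 641, 1283, 8710, 8222, 16522, 68724,
      36904, 82016, 41024]
    tri := [(0, 1, 7), (0, 1, 9), (0, 7, 8), (0, 8, 9), (1, 2, 10), (1, 2, 11), (1, 3, 11), (1, 3, 12),
      (1, 7, 12), (1, 9, 10), (2, 10, 13), (2, 11, 13), (3, 4, 5), (3, 4, 11), (3, 5, 14), (3, 12,
      14), (4, 5, 13), (4, 11, 13), (5, 6, 13), (5, 6, 15), (5, 14, 15), (6, 13, 16), (6, 15, 16)]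
    fin := [0, 0, 0, 3, 4, 5, 6, 0, 8, 9, 0, 3, 3, 4, 5, 15, 6]
    chd := [(4, 5), (5, 6)]
    steps := [(0, 1), (0, 2), (0, 7), (0, 10), (3, 11), (3, 12), (4, 13), (5, 14), (6, 16)] }
  rep := [3, 4, 0, 5, 9, 15, 6, 8]

noncomputable def v2495 : Cov.CovD where
  P := 3
  N := 5
  pl := [1, 2, 8]
  lev := [⟨[], [], [], [4, 7], [(0, 2, [])]⟩,
    ⟨[], [(0, 0), (0, 2)], [(0, 0), (0, 2), (2, 2)], [4], [(0, 2, []), (3, 2, []), (4, 0,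
      []), (5, 0, [])]⟩,
    ⟨[(0, 1)], [(1, 0), (1, 1), (1, 2)], [(0, 1), (0, 2), (1, 2)], [], [(3, 2, []), (4, 0,
      []), (6, 1, [3])]⟩,
    ⟨[(0, 1), (1, 2)], [(1, 0), (1, 2), (1, 3), (2, 0)], [(0, 0), (0, 3)], [], [(4, 0, []),
      (5, 0, []), (7, 3, [1, 6])]⟩,
    ⟨[(1, 3)], [(1, 0), (2, 0), (2, 1), (3, 0), (3, 1), (3, 3)], [(0, 1)], [], [(4, 0, []),
      (6, 1, [3])]⟩,
    ⟨[(1, 3), (3, 4)], [(2, 1), (3, 0), (3, 1), (3, 3), (4, 0), (4, 1), (4, 3)], [(1, 3)],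
      [5], [(6, 1, [3]), (7, 3, [1, 6])]⟩,
    ⟨[(3, 5), (4, 5)], [(2, 1), (4, 1), (5, 1), (5, 3), (5, 6)], [(1, 6)], [5], [(6, 1,
      [3]), (9, 6, [3])]⟩]
  Ta := [((0, 1), 2, 7), ((0, 5), 2, 0), ((3, 2), 2, 4), ((3, 6), 2, 1), ((4, 6), 0, 1), ((5, 0),
    0, 2), ((5, 7), 0, 3)]
  Tb := [((0, 1, 5), 2, 7, 0), ((1, 0, 2), 7, 2, 4), ((2, 1, 3), 4, 7, 2), ((3, 2, 6), 2, 4, 1),
    ((5, 0, 7), 0, 2, 3), ((6, 3, 4), 1, 2, 0), ((6, 3, 9), 1, 2, 6), ((6, 4, 9), 1, 0, 6),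
    ((7, 5, 8), 3, 0, 5), ((8, 7, 9), 5, 3, 6), ((9, 6, 8), 6, 1, 5)]
  Tc := [(3, 1, 6)]
  Td := [((1, 3), (6, 3), 2), ((1, 3), (6, 4), 0), ((1, 3), (6, 9), 6), ((3, 1), (7, 5), 0), ((3,
    1), (7, 8), 5), ((3, 6), (7, 5), 0), ((3, 6), (7, 8), 5), ((6, 3), (9, 6), 1), ((6, 3),
    (9, 8), 5)]
  G := [[0, 0x68a466ca86486ac4ac64a246ac86ca8686ac2ac64a8cd, 0, 0,
    0x48dd82484d948d58c4248dd4244d948d58c4ab], [0, 0x6ac2ac68a846ac26ca46486ac2ac68a447, 0,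
    0x48dd82448dd828c2, 0x48dd4284d949c58c8a48dd428848dd42887], [0, 0,
    0x48dd824848dd82845c948d58c82e, 0, 0x59cd8248c1585c1949c8259cd4289bc14d9868ab], [0, 0, 0,
    0x59cd82459cd421c2, 0x59cd8218329449dd4682c159c5288d]]

noncomputable def n2495 : Ent := ⟨e2495, noF, [], [], [(8, 16, [1580044410770988437309982408355971841652082177953823432505699303425, 0]), (8, 15, [1685356702439545624007900436039642273970977273354372543760010289153, 0]), (10, 16, [1580044410770988437309982408355971841652082177953823432505699323905, 0])]⟩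

def c2495 : PLift (Cov.check n2495.C.D v2495 = true) := ⟨by decide +kernel⟩

def b2495 : PLift (entF (fidx ts) 400 2495 n2495 = true) := ⟨by decide +kernel⟩

theorem g2495 : GoodF (fidx ts) 400 2495 := GoodF.ofV v2495 n2495 c2495.down b2495.down

/-- 4846464:1977/9 -/
noncomputable def e2496 : SCfg where
  D := {
    a := 7
    L := 10
    kp := 7
    inn := [(0, 1), (1, 0), (1, 2), (1, 3), (2, 1), (3, 1), (3, 4), (3, 5), (4, 3), (4, 5), (5, 3), (5,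
      4), (5, 6), (6, 5)]
    mix := [(0, 0), (0, 1), (0, 2), (1, 0), (1, 2), (1, 3), (1, 4), (1, 5), (2, 3), (2, 4), (2, 6), (3,
      4), (3, 5), (3, 7), (4, 4), (4, 8), (5, 7), (5, 8), (5, 9), (6, 6), (6, 8), (6, 9)]
    cl := [1, 7, 5, 1, 0, 0, 2, 4, 3, 6]
    chq := [(2, 4), (3, 4), (4, 2), (4, 3)]
    rng := [(0, 1), (0, 5), (1, 0), (1, 2), (2, 1), (2, 3), (3, 2), (3, 6), (4, 6), (4, 8), (5, 0), (5,
      7), (6, 3), (6, 4), (6, 8), (6, 9), (7, 5), (7, 9), (8, 4), (8, 6), (9, 6), (9, 7)]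
    lev := [] }
  links := [[1, 7, 8, 9], [7, 0, 9, 10, 2, 11, 3, 12], [11, 1, 10, 13], [12, 1, 11, 4, 5, 14], [5, 3, 11,
    15], [14, 3, 4, 15, 6, 16], [16, 5, 15, 13]]
  P := {
    a := 7
    N := 17
    nb := [898, 7821, 11266, 22578, 34856, 114776, 106528, 4355, 641, 1283, 8710, 40990, 16522,
      101444, 69672, 10352, 24672]
    tri := [(0, 1, 7), (0, 1, 9), (0, 7, 8), (0, 8, 9), (1, 2, 10), (1, 2, 11), (1, 3, 11), (1, 3, 12),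
      (1, 7, 12), (1, 9, 10), (2, 10, 13), (2, 11, 13), (3, 4, 5), (3, 4, 11), (3, 5, 14), (3, 12,
      14), (4, 5, 15), (4, 11, 15), (5, 6, 15), (5, 6, 16), (5, 14, 16), (6, 13, 15), (6, 13, 16)]
    fin := [0, 0, 0, 3, 3, 5, 6, 0, 8, 9, 0, 3, 3, 6, 5, 15, 16]
    chd := [(5, 15), (6, 5)]
    steps := [(0, 1), (0, 2), (0, 7), (0, 10), (3, 4), (3, 11), (3, 12), (5, 14), (6, 13)] }
  rep := [3, 0, 6, 15, 5, 9, 16, 8]

noncomputable def v2496 : Cov.CovD where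
  P := 3
  N := 5
  pl := [1, 2, 9]
  lev := [⟨[], [], [], [5, 7], [(0, 1, [])]⟩,
    ⟨[], [(0, 0), (0, 1)], [(0, 0), (0, 1), (1, 1)], [5], [(0, 1, []), (3, 1, []), (4, 0,
      []), (5, 0, [])]⟩,
    ⟨[(0, 1)], [(1, 0), (1, 1), (1, 2)], [(0, 1), (0, 2), (1, 2)], [], [(3, 1, []), (4, 0,
      []), (6, 2, [4])]⟩,
    ⟨[(0, 1), (1, 2)], [(1, 0), (1, 1), (1, 4), (2, 0)], [(0, 0), (0, 4)], [], [(4, 0, []),
      (5, 0, []), (7, 4, [2, 3])]⟩,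
    ⟨[(1, 3)], [(1, 0), (2, 0), (3, 0), (3, 3), (3, 4)], [(0, 3)], [], [(4, 0, []), (8, 3,
      [4])]⟩,
    ⟨[(1, 3), (3, 4)], [(3, 0), (3, 3), (3, 4), (4, 0), (4, 3), (4, 4)], [(3, 4)], [6],
      [(7, 4, [2, 3]), (8, 3, [4])]⟩,
    ⟨[(3, 5), (4, 5)], [(2, 2), (4, 3), (5, 2), (5, 3), (5, 4)], [(2, 3)], [6], [(6, 2,
      [4]), (8, 3, [4])]⟩]
  Ta := [((0, 1), 1, 7), ((0, 5), 1, 0), ((3, 2), 1, 5), ((3, 6), 1, 2), ((4, 6), 0, 2), ((4, 8),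
    0, 3), ((5, 0), 0, 1), ((5, 7), 0, 4)]
  Tb := [((0, 1, 5), 1, 7, 0), ((1, 0, 2), 7, 1, 5), ((2, 1, 3), 5, 7, 1), ((3, 2, 6), 1, 5, 2),
    ((4, 6, 8), 0, 2, 3), ((5, 0, 7), 0, 1, 4), ((6, 3, 4), 2, 1, 0), ((6, 3, 8), 2, 1, 3),
    ((6, 3, 9), 2, 1, 6), ((6, 4, 8), 2, 0, 3), ((6, 4, 9), 2, 0, 6), ((6, 8, 9), 2, 3, 6),
    ((7, 5, 9), 4, 0, 6), ((8, 4, 6), 3, 0, 2), ((9, 6, 7), 6, 2, 4)]
  Tc := [(4, 2, 3)]
  Td := [((2, 4), (6, 3), 1), ((2, 4), (6, 4), 0), ((2, 4), (6, 8), 3), ((2, 4), (6, 9), 6), ((3,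
    4), (8, 4), 0), ((3, 4), (8, 6), 2), ((4, 2), (7, 5), 0), ((4, 2), (7, 9), 6), ((4, 3),
    (7, 5), 0), ((4, 3), (7, 9), 6)]
  G := [[0, 0, 0xa161c8161c628e12e18a24e12e1464e12e18a4cd, 0,
    0x6821f2417a4282a1d2a8178a844821f8241fa482a1d2a8178a2cd], [0, 0,
    0x41a16e18a84e14e18c48e12e18a847, 0x9252c249252c28c2,
    0x4821f8241fa4884821f8241fa482a1d2a8178a8c82c1f298586887], [0,
    0x111184ced248111184ced284441b4118869c82e, 0, 0,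
    0x81582d1fa81c46181122c311899e9a8411118b2eb48244811182abb41e8cd], [0, 0, 0,
    0xd2128d2124c2, 0x7921f3517a4183411182a38158e8411118b2eb488b]]

noncomputable def n2496 : Ent := ⟨e2496, noF, [], [], [(8, 16, [1580044410770988437309982408355971841652082177953823432505699315713, 0])]⟩

def c2496 : PLift (Cov.check n2496.C.D v2496 = true) := ⟨by decide +kernel⟩

def b2496 : PLift (entF (fidx ts) 400 2496 n2496 = true) := ⟨by decide +kernel⟩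

theorem g2496 : GoodF (fidx ts) 400 2496 := GoodF.ofV v2496 n2496 c2496.down b2496.down

/-- 4846464:1977 -/
noncomputable def e2497 : SCfg where
  D := {
    a := 7
    L := 11
    kp := 8
    inn := [(0, 1), (1, 0), (1, 2), (1, 3), (2, 1), (3, 1), (3, 4), (3, 5), (4, 3), (4, 5), (5, 3), (5,
      4), (5, 6), (6, 5)]
    mix := [(0, 0), (0, 1), (0, 2), (1, 0), (1, 2), (1, 3), (1, 4), (1, 5), (2, 3), (2, 4), (2, 6), (3,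
      4), (3, 5), (3, 7), (4, 4), (4, 8), (5, 7), (5, 8), (5, 9), (6, 8), (6, 9), (6, 10)]
    cl := [1, 7, 2, 1, 0, 0, 8, 4, 3, 5, 6]
    chq := [(3, 4), (4, 3), (4, 6), (6, 4)]
    rng := [(0, 1), (0, 5), (1, 0), (1, 2), (2, 1), (2, 3), (3, 2), (3, 6), (4, 6), (4, 8), (5, 0), (5,
      7), (6, 3), (6, 4), (7, 5), (7, 9), (8, 4), (8, 10), (9, 7), (9, 10), (10, 8), (10, 9)]
    lev := [] }
  links := [[1, 7, 8, 9], [7, 0, 9, 10, 2, 11, 3, 12], [11, 1, 10, 13], [12, 1, 11, 4, 5, 14], [5, 3, 11,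
    15], [14, 3, 4, 15, 6, 16], [16, 5, 15, 17]]
  P := {
    a := 7
    N := 18
    nb := [898, 7821, 11266, 22578, 34856, 114776, 229408, 4355, 641, 1283, 8710, 40990, 16522, 3076,
      69672, 133232, 147552, 98368]
    tri := [(0, 1, 7), (0, 1, 9), (0, 7, 8), (0, 8, 9), (1, 2, 10), (1, 2, 11), (1, 3, 11), (1, 3, 12),
      (1, 7, 12), (1, 9, 10), (2, 10, 13), (2, 11, 13), (3, 4, 5), (3, 4, 11), (3, 5, 14), (3, 12,
      14), (4, 5, 15), (4, 11, 15), (5, 6, 15), (5, 6, 16), (5, 14, 16), (6, 15, 17), (6, 16, 17)]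
    fin := [0, 0, 0, 3, 3, 5, 6, 0, 8, 9, 0, 3, 3, 13, 5, 15, 16, 6]
    chd := [(5, 6), (5, 15)]
    steps := [(0, 1), (0, 2), (0, 7), (0, 10), (3, 4), (3, 11), (3, 12), (5, 14), (6, 17)] }
  rep := [3, 0, 9, 15, 5, 16, 6, 8, 13]

noncomputable def v2497 : Cov.CovD where
  P := 3
  N := 6
  pl := [1, 2, 6, 9]
  lev := [⟨[], [], [], [2, 7], [(0, 1, [])]⟩,
    ⟨[], [(0, 0), (0, 1)], [(0, 0), (0, 1), (1, 1)], [2], [(0, 1, []), (3, 1, []), (4, 0,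
      []), (5, 0, [])]⟩,
    ⟨[(0, 1)], [(1, 0), (1, 1)], [(0, 1)], [8], [(3, 1, []), (4, 0, [])]⟩,
    ⟨[(0, 1), (1, 2)], [(1, 0), (1, 1), (1, 4), (2, 0)], [(0, 0), (0, 4)], [], [(4, 0, []),
      (5, 0, []), (7, 4, [3, 6])]⟩,
    ⟨[(1, 3)], [(1, 0), (2, 0), (3, 0), (3, 3), (3, 4)], [(0, 3)], [], [(4, 0, []), (8, 3,
      [4])]⟩,
    ⟨[(1, 3), (3, 4)], [(3, 0), (3, 3), (3, 4), (4, 0), (4, 3), (4, 4)], [(3, 4)], [5],
      [(7, 4, [3, 6]), (8, 3, [4])]⟩,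
    ⟨[(3, 5), (4, 5)], [(4, 3), (5, 3), (5, 4), (5, 6)], [(3, 6)], [5], [(8, 3, [4]), (10,
      6, [4])]⟩]
  Ta := [((0, 1), 1, 7), ((0, 5), 1, 0), ((3, 2), 1, 2), ((3, 6), 1, 8), ((4, 6), 0, 8), ((4, 8),
    0, 3), ((5, 0), 0, 1), ((5, 7), 0, 4)]
  Tb := [((0, 1, 5), 1, 7, 0), ((1, 0, 2), 7, 1, 2), ((2, 1, 3), 2, 7, 1), ((3, 2, 6), 1, 2, 8),
    ((4, 6, 8), 0, 8, 3), ((5, 0, 7), 0, 1, 4), ((6, 3, 4), 8, 1, 0), ((7, 5, 9), 4, 0, 5),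
    ((8, 4, 10), 3, 0, 6), ((9, 7, 10), 5, 4, 6), ((10, 8, 9), 6, 3, 5)]
  Tc := [(4, 3, 6)]
  Td := [((3, 4), (8, 4), 0), ((3, 4), (8, 10), 6), ((4, 3), (7, 5), 0), ((4, 3), (7, 9), 5),
    ((4, 6), (7, 5), 0), ((4, 6), (7, 9), 5), ((6, 4), (10, 8), 3), ((6, 4), (10, 9), 5)]
  G := [[0, 0, 0x2efd248fba46ca24e287f2885e47bc628c, 0, 0x6afd28887647bc628e28ff2e84ff46289],
    [0, 0, 0xe28ff2e84ff46e28ff2e84ff46c82,
    0x2e4ff24e8ff8a4265f4ac978ac428eff84a8bb2e84ff46c42eff488c41e23d6448d,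
    0xe28ff2e84ff4662516e22d248cdf8ec82], [0,
    0x4f9224e58f38841ef1624e388f78ac465348d52282fac81e22fd823484ff4668c,
    0x22fd2e159de5628225ff258fb94ca14c, 0, 0x229ff218494ffc618329ff2594ff46189], [0, 0,
    0x329ff2594ff46182, 0x365bf288b7514dca14239ff259c4f3c6185, 0x339ef2594ff46182]]

noncomputable def n2497 : Ent := ⟨e2497, noF, [], [], [(8, 17, [6903326391201334775872065844685381424292761054348340378595029939884033, 0]), (8, 16, [7334685537875745012586738086077695515070955365108989538292687703883777, 0]), (10, 17, [6903326391201334775872065844685381424292761054348340378595029939904513, 0]), (13, 15, [7334790850167413569773436004105379185503274260204390087403942014873601, 0]), (13, 17, [6903326391201334775872065844685381424292761054348340378595029939912705, 0])]⟩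

def c2497 : PLift (Cov.check n2497.C.D v2497 = true) := ⟨by decide +kernel⟩

def b2497 : PLift (entF (fidx ts) 400 2497 n2497 = true) := ⟨by decide +kernel⟩

theorem g2497 : GoodF (fidx ts) 400 2497 := GoodF.ofV v2497 n2497 c2497.down b2497.down

/-- 4586464:1978/2 -/
noncomputable def e2498 : SCfg where
  D := {
    a := 7
    L := 9
    kp := 6
    inn := [(0, 1), (0, 2), (1, 0), (1, 2), (1, 3), (2, 0), (2, 1), (2, 3), (2, 4), (3, 1), (3, 2), (3,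
      5), (4, 2), (5, 3), (5, 6), (6, 5)]
    mix := [(0, 0), (0, 1), (1, 1), (1, 2), (2, 0), (2, 3), (2, 4), (2, 5), (3, 2), (3, 3), (3, 6), (4,
      3), (4, 4), (4, 7), (5, 2), (5, 6), (5, 7), (5, 8), (6, 1), (6, 2), (6, 8)]
    cl := [0, 2, 1, 0, 3, 6, 1, 4, 5]
    chq := [(0, 3), (2, 4), (3, 0), (4, 2)]
    rng := [(0, 1), (0, 5), (1, 0), (1, 2), (1, 8), (2, 1), (3, 6), (3, 7), (4, 5), (4, 7), (5, 0), (5,
      4), (6, 3), (6, 7), (7, 3), (7, 4), (7, 6), (7, 8), (8, 1), (8, 7)]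
    lev := [] }
  links := [[1, 2, 7, 8], [2, 0, 8, 9, 3], [7, 0, 1, 3, 10, 4, 11, 12], [10, 2, 1, 9, 5, 13], [11, 2, 10,
    14], [13, 3, 9, 6, 15, 14], [15, 5, 9, 8]]
  P := {
    a := 7
    N := 16
    nb := [390, 781, 7323, 9766, 19460, 57928, 33568, 4357, 33475, 362, 24604, 20500, 2180, 17448,
      44080, 16736]
    tri := [(0, 1, 2), (0, 1, 8), (0, 2, 7), (0, 7, 8), (1, 2, 3), (1, 3, 9), (1, 8, 9), (2, 3, 10),
      (2, 4, 10), (2, 4, 11), (2, 7, 12), (2, 11, 12), (3, 5, 9), (3, 5, 13), (3, 10, 13), (4, 10,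
      14), (4, 11, 14), (5, 6, 9), (5, 6, 15), (5, 13, 14), (5, 14, 15), (6, 8, 9), (6, 8, 15)]
    fin := [0, 0, 0, 3, 0, 5, 5, 0, 5, 3, 0, 11, 12, 3, 14, 15]
    chd := [(0, 11), (5, 14)]
    steps := [(0, 1), (0, 2), (0, 4), (0, 7), (0, 10), (3, 9), (3, 13), (5, 6), (5, 8)] }
  rep := [0, 3, 5, 11, 14, 15, 12]

noncomputable def v2498 : Cov.CovD where
  P := 3
  N := 4
  pl := [5, 8]
  lev := [⟨[], [], [(0, 2)], [], [(0, 0, [3]), (1, 2, [4])]⟩,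
    ⟨[], [(0, 0), (0, 1), (0, 2)], [(1, 2)], [], [(1, 2, [4]), (2, 1, [])]⟩,
    ⟨[(0, 1)], [(0, 0), (0, 2), (0, 3), (1, 0), (1, 1), (1, 2), (1, 3)], [(0, 0), (0, 3)],
      [6], [(0, 0, [3]), (3, 0, [3]), (4, 3, [0])]⟩,
    ⟨[(0, 1), (0, 2), (1, 2)], [(1, 0), (1, 1), (1, 2), (2, 0), (2, 1), (2, 3)], [(0, 1),
      (1, 1)], [], [(2, 1, []), (3, 0, [3]), (6, 1, [])]⟩,
    ⟨[(0, 2), (1, 2), (2, 3)], [(2, 0), (2, 3), (2, 4), (3, 0)], [(0, 3), (0, 4), (3, 4)],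
      [], [(3, 0, [3]), (4, 3, [0]), (7, 4, [2])]⟩,
    ⟨[(1, 3), (2, 3)], [(1, 1), (3, 0), (3, 1), (3, 4), (4, 4)], [(1, 1), (1, 4)], [5],
      [(2, 1, []), (6, 1, []), (7, 4, [2])]⟩,
    ⟨[(3, 5)], [(0, 2), (1, 1), (1, 2), (3, 1), (5, 1), (5, 2), (5, 4)], [(1, 2)], [5],
      [(1, 2, [4]), (2, 1, [])]⟩]
  Ta := [((0, 1), 0, 2), ((0, 5), 0, 6), ((2, 1), 1, 2), ((3, 6), 0, 1), ((3, 7), 0, 4), ((6, 3),
    1, 0), ((6, 7), 1, 4)]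
  Tb := [((0, 1, 5), 0, 2, 6), ((1, 0, 2), 2, 0, 1), ((1, 0, 8), 2, 0, 5), ((1, 2, 8), 2, 1, 5),
    ((3, 6, 7), 0, 1, 4), ((4, 5, 7), 3, 6, 4), ((5, 0, 4), 6, 0, 3), ((6, 3, 7), 1, 0, 4),
    ((7, 3, 4), 4, 0, 3), ((7, 3, 6), 4, 0, 1), ((7, 3, 8), 4, 0, 5), ((7, 4, 6), 4, 3, 1),
    ((7, 4, 8), 4, 3, 5), ((7, 6, 8), 4, 1, 5), ((8, 1, 7), 5, 2, 4)]
  Tc := []
  Td := [((0, 3), (0, 1), 2), ((0, 3), (0, 5), 6), ((0, 3), (3, 6), 1), ((0, 3), (3, 7), 4), ((2,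
    4), (1, 0), 0), ((2, 4), (1, 2), 1), ((2, 4), (1, 8), 5), ((3, 0), (4, 5), 6), ((3, 0),
    (4, 7), 4), ((4, 2), (7, 3), 0), ((4, 2), (7, 4), 3), ((4, 2), (7, 6), 1), ((4, 2), (7,
    8), 5)]
  G := [[0, 0, 0xc114c118c128e84, 0x4154153888c441d18881d24e14, 0x481d815548151881528e18], [0,
    0, 0x6114a118a114e48, 0, 0x221d2155421594583421598e82], [0, 0, 0,
    0x41548448541568198c549519a84152882cec1, 0x891d891d6494198d815e8191d28e18], [0,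
    0x4ca486c84a2c82cc248cee46184a486486e281c, 0, 0,
    0x8152156441c221da4e822912c915e8e181c84829]]

noncomputable def n2498 : Ent := ⟨e2498, noF, [], [], []⟩

def c2498 : PLift (Cov.check n2498.C.D v2498 = true) := ⟨by decide +kernel⟩

def b2498 : PLift (entF (fidx ts) 400 2498 n2498 = true) := ⟨by decide +kernel⟩

theorem g2498 : GoodF (fidx ts) 400 2498 := GoodF.ofV v2498 n2498 c2498.down b2498.down

/-- 4586464:1978/1 -/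
noncomputable def e2499 : SCfg where
  D := {
    a := 7
    L := 10
    kp := 7
    inn := [(0, 1), (0, 2), (1, 0), (1, 2), (1, 3), (2, 0), (2, 1), (2, 3), (2, 4), (3, 1), (3, 2), (3,
      5), (4, 2), (5, 3), (5, 6), (6, 5)]
    mix := [(0, 0), (0, 1), (1, 1), (1, 2), (2, 0), (2, 3), (2, 4), (2, 5), (3, 2), (3, 3), (3, 6), (4,
      3), (4, 4), (4, 7), (5, 2), (5, 6), (5, 8), (5, 9), (6, 1), (6, 2), (6, 8)]
    cl := [0, 2, 1, 0, 3, 6, 1, 7, 4, 5]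
    chq := [(0, 3), (2, 5), (3, 0), (5, 2)]
    rng := [(0, 1), (0, 5), (1, 0), (1, 2), (1, 8), (2, 1), (3, 6), (3, 7), (4, 5), (4, 7), (5, 0), (5,
      4), (6, 3), (6, 9), (7, 3), (7, 4), (8, 1), (8, 9), (9, 6), (9, 8)]
    lev := [] }
  links := [[1, 2, 7, 8], [2, 0, 8, 9, 3], [7, 0, 1, 3, 10, 4, 11, 12], [10, 2, 1, 9, 5, 13], [11, 2, 10,
    14], [13, 3, 9, 6, 15, 16], [15, 5, 9, 8]]
  P := {
    a := 7
    N := 17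
    nb := [390, 781, 7323, 9766, 19460, 107080, 33568, 4357, 33475, 362, 24604, 20500, 2180, 66600,
      3088, 65888, 40992]
    tri := [(0, 1, 2), (0, 1, 8), (0, 2, 7), (0, 7, 8), (1, 2, 3), (1, 3, 9), (1, 8, 9), (2, 3, 10),
      (2, 4, 10), (2, 4, 11), (2, 7, 12), (2, 11, 12), (3, 5, 9), (3, 5, 13), (3, 10, 13), (4, 10,
      14), (4, 11, 14), (5, 6, 9), (5, 6, 15), (5, 13, 16), (5, 15, 16), (6, 8, 9), (6, 8, 15)]
    fin := [0, 0, 0, 3, 0, 5, 5, 0, 5, 3, 0, 11, 12, 3, 14, 15, 16]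
    chd := [(0, 11), (5, 16)]
    steps := [(0, 1), (0, 2), (0, 4), (0, 7), (0, 10), (3, 9), (3, 13), (5, 6), (5, 8)] }
  rep := [0, 3, 5, 11, 15, 16, 12, 14]

noncomputable def v2499 : Cov.CovD where
  P := 3
  N := 5
  pl := [5, 7, 8]
  lev := [⟨[], [], [(0, 2)], [], [(0, 0, [3]), (1, 2, [5])]⟩,
    ⟨[], [(0, 0), (0, 1), (0, 2)], [(1, 2)], [], [(1, 2, [5]), (2, 1, [])]⟩,
    ⟨[(0, 1)], [(0, 0), (0, 2), (0, 3), (1, 0), (1, 1), (1, 2), (1, 3)], [(0, 0), (0, 3)],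
      [6], [(0, 0, [3]), (3, 0, [3]), (4, 3, [0])]⟩,
    ⟨[(0, 1), (0, 2), (1, 2)], [(1, 0), (1, 1), (1, 2), (2, 0), (2, 1), (2, 3)], [(0, 1),
      (1, 1)], [], [(2, 1, []), (3, 0, [3]), (6, 1, [])]⟩,
    ⟨[(0, 2), (1, 2), (2, 3)], [(2, 0), (2, 3), (3, 0)], [(0, 3)], [7], [(3, 0, [3]), (4,
      3, [0])]⟩,
    ⟨[(1, 3), (2, 3)], [(1, 1), (3, 0), (3, 1), (3, 5)], [(1, 1), (1, 5)], [4], [(2, 1,
      []), (6, 1, []), (9, 5, [2])]⟩,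
    ⟨[(3, 5)], [(0, 2), (1, 1), (1, 2), (3, 1), (5, 1), (5, 2), (5, 5)], [(1, 2)], [4],
      [(1, 2, [5]), (2, 1, [])]⟩]
  Ta := [((0, 1), 0, 2), ((0, 5), 0, 6), ((2, 1), 1, 2), ((3, 6), 0, 1), ((3, 7), 0, 7), ((6, 3),
    1, 0), ((6, 9), 1, 5)]
  Tb := [((0, 1, 5), 0, 2, 6), ((1, 0, 2), 2, 0, 1), ((1, 0, 8), 2, 0, 4), ((1, 2, 8), 2, 1, 4),
    ((3, 6, 7), 0, 1, 7), ((4, 5, 7), 3, 6, 7), ((5, 0, 4), 6, 0, 3), ((6, 3, 9), 1, 0, 5),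
    ((7, 3, 4), 7, 0, 3), ((8, 1, 9), 4, 2, 5), ((9, 6, 8), 5, 1, 4)]
  Tc := []
  Td := [((0, 3), (0, 1), 2), ((0, 3), (0, 5), 6), ((0, 3), (3, 6), 1), ((0, 3), (3, 7), 7), ((2,
    5), (1, 0), 0), ((2, 5), (1, 2), 1), ((2, 5), (1, 8), 4), ((3, 0), (4, 5), 6), ((3, 0),
    (4, 7), 7), ((5, 2), (9, 6), 1), ((5, 2), (9, 8), 4)]
  G := [[0, 0, 0xc114c118c114e84, 0x11184c84c84ce548415444478198199c11819891dd4a1c,
    0x891d14198d198d191d78198d1891d891dace18], [0, 0, 0xc11461186114e48, 0,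
    0x819821d5424121d121de8198c21529c121db8e18], [0, 0, 0,
    0x584841891d891d891de4541d541d541de8a14441544e819819ac48d,
    0x191d191da891d4c21891d891d891de4191d198d191de8c1a], [0,
    0x48ce48ce6444ce48ce44cee8c184ce8288ce48ce88cee4a1c, 0, 0,
    0x128d121d128de8232d291d121de861891d891d891de4829]]

noncomputable def n2499 : Ent := ⟨e2499, noF, [], [], [(16, 14, [1580095832788404724998799751142926758855362888449624481876428988417, 0])]⟩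

def c2499 : PLift (Cov.check n2499.C.D v2499 = true) := ⟨by decide +kernel⟩

def b2499 : PLift (entF (fidx ts) 400 2499 n2499 = true) := ⟨by decide +kernel⟩

theorem g2499 : GoodF (fidx ts) 400 2499 := GoodF.ofV v2499 n2499 c2499.down b2499.down

/-- 4586464:1978/3 -/
noncomputable def e2500 : SCfg where
  D := {
    a := 7
    L := 10
    kp := 7
    inn := [(0, 1), (0, 2), (1, 0), (1, 2), (1, 3), (2, 0), (2, 1), (2, 3), (2, 4), (3, 1), (3, 2), (3,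
      5), (4, 2), (5, 3), (5, 6), (6, 5)]
    mix := [(0, 0), (0, 1), (1, 1), (1, 2), (2, 0), (2, 3), (2, 4), (2, 5), (3, 2), (3, 3), (3, 6), (4,
      3), (4, 4), (4, 7), (5, 2), (5, 6), (5, 7), (5, 8), (6, 2), (6, 8), (6, 9)]
    cl := [0, 2, 1, 0, 3, 6, 1, 5, 4, 7]
    chq := [(0, 3), (1, 4), (3, 0), (4, 1)]
    rng := [(0, 1), (0, 5), (1, 0), (1, 2), (2, 1), (2, 9), (3, 6), (3, 7), (4, 5), (4, 7), (5, 0), (5,
      4), (6, 3), (6, 7), (7, 3), (7, 4), (7, 6), (7, 8), (8, 7), (8, 9), (9, 2), (9, 8)]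
    lev := [] }
  links := [[1, 2, 7, 8], [2, 0, 8, 9, 3], [7, 0, 1, 3, 10, 4, 11, 12], [10, 2, 1, 9, 5, 13], [11, 2, 10,
    14], [13, 3, 9, 6, 15, 14], [15, 5, 9, 16]]
  P := {
    a := 7
    N := 17
    nb := [390, 781, 7323, 9766, 19460, 57928, 98848, 4357, 643, 65898, 24604, 20500, 2180, 17448,
      44080, 82016, 33344]
    tri := [(0, 1, 2), (0, 1, 8), (0, 2, 7), (0, 7, 8), (1, 2, 3), (1, 3, 9), (1, 8, 9), (2, 3, 10),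
      (2, 4, 10), (2, 4, 11), (2, 7, 12), (2, 11, 12), (3, 5, 9), (3, 5, 13), (3, 10, 13), (4, 10,
      14), (4, 11, 14), (5, 6, 9), (5, 6, 15), (5, 13, 14), (5, 14, 15), (6, 9, 16), (6, 15, 16)]
    fin := [0, 0, 0, 0, 0, 5, 5, 0, 8, 5, 0, 11, 12, 5, 14, 15, 16]
    chd := [(0, 11), (5, 15)]
    steps := [(0, 1), (0, 2), (0, 3), (0, 4), (0, 7), (0, 10), (5, 6), (5, 9), (5, 13)] }
  rep := [0, 5, 8, 11, 15, 14, 12, 16]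

noncomputable def v2500 : Cov.CovD where
  P := 3
  N := 5
  pl := [1, 5, 7, 9]
  lev := [⟨[], [], [], [2], [(0, 0, [3])]⟩,
    ⟨[], [(0, 0), (0, 1)], [], [2], [(2, 1, [4])]⟩,
    ⟨[(0, 1)], [(0, 0), (0, 3), (1, 0), (1, 1), (1, 3)], [(0, 0), (0, 3)], [6], [(0, 0,
      [3]), (3, 0, [3]), (4, 3, [0])]⟩,
    ⟨[(0, 1), (0, 2), (1, 2)], [(1, 0), (1, 1), (2, 0), (2, 1), (2, 3)], [(0, 1), (1, 1)],
      [], [(2, 1, [4]), (3, 0, [3]), (6, 1, [4])]⟩,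
    ⟨[(0, 2), (1, 2), (2, 3)], [(2, 0), (2, 3), (3, 0)], [(0, 3)], [5], [(3, 0, [3]), (4,
      3, [0])]⟩,
    ⟨[(1, 3), (2, 3)], [(1, 1), (3, 0), (3, 1), (3, 4)], [(1, 1), (1, 4)], [5], [(2, 1,
      [4]), (6, 1, [4]), (8, 4, [1])]⟩,
    ⟨[(3, 5)], [(1, 1), (3, 1), (5, 1), (5, 4)], [(1, 4)], [7], [(2, 1, [4]), (8, 4, [1])]⟩]
  Ta := [((0, 1), 0, 2), ((0, 5), 0, 6), ((2, 1), 1, 2), ((2, 9), 1, 7), ((3, 6), 0, 1), ((3, 7),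
    0, 5), ((6, 3), 1, 0), ((6, 7), 1, 5)]
  Tb := [((0, 1, 5), 0, 2, 6), ((1, 0, 2), 2, 0, 1), ((2, 1, 9), 1, 2, 7), ((3, 6, 7), 0, 1, 5),
    ((4, 5, 7), 3, 6, 5), ((5, 0, 4), 6, 0, 3), ((6, 3, 7), 1, 0, 5), ((7, 3, 4), 5, 0, 3),
    ((7, 3, 6), 5, 0, 1), ((7, 3, 8), 5, 0, 4), ((7, 4, 6), 5, 3, 1), ((7, 4, 8), 5, 3, 4),
    ((7, 6, 8), 5, 1, 4), ((8, 7, 9), 4, 5, 7), ((9, 2, 8), 7, 1, 4)]
  Tc := []
  Td := [((0, 3), (0, 1), 2), ((0, 3), (0, 5), 6), ((0, 3), (3, 6), 1), ((0, 3), (3, 7), 5), ((1,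
    4), (2, 1), 2), ((1, 4), (2, 9), 7), ((1, 4), (6, 3), 0), ((1, 4), (6, 7), 5), ((3, 0),
    (4, 5), 6), ((3, 0), (4, 7), 5), ((4, 1), (8, 7), 5), ((4, 1), (8, 9), 7)]
  G := [[0, 0, 0xcd91c445c8dd1442568cd51c88984c, 0x881441441c88d59ccd54cdd38c42cd92ce1c,
    0xc8dd2442528cd51c88151ecc44cd91cc1a], [0, 0, 0x227d14279124452b51281ce82, 0,
    0x259295295b4259295259d822dd18e12], [0, 0, 0, 0x51d95cd8d59ac4d4d46d599191ec5ddd2882cac1,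
    0xd9dd242442829d4d956d5991ccd954d59d59acc1a], [0,
    0x116411a1811aea41161166111e8a11c11c111ee8ac1, 0, 0,
    0xe29295b25e4729e25369e8c1225225e2dde4283]]

noncomputable def n2500 : Ent := ⟨e2500, noF, [], [], [(8, 16, [1580044410770988437309982408355971841652082177953823432505699344385, 0])]⟩

def c2500 : PLift (Cov.check n2500.C.D v2500 = true) := ⟨by decide +kernel⟩

def b2500 : PLift (entF (fidx ts) 400 2500 n2500 = true) := ⟨by decide +kernel⟩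

theorem g2500 : GoodF (fidx ts) 400 2500 := GoodF.ofV v2500 n2500 c2500.down b2500.down

/-- 4586464:1978 -/
noncomputable def e2501 : SCfg where
  D := {
    a := 7
    L := 11
    kp := 8
    inn := [(0, 1), (0, 2), (1, 0), (1, 2), (1, 3), (2, 0), (2, 1), (2, 3), (2, 4), (3, 1), (3, 2), (3,
      5), (4, 2), (5, 3), (5, 6), (6, 5)]
    mix := [(0, 0), (0, 1), (1, 1), (1, 2), (2, 0), (2, 3), (2, 4), (2, 5), (3, 2), (3, 3), (3, 6), (4,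
      3), (4, 4), (4, 7), (5, 2), (5, 6), (5, 8), (5, 9), (6, 2), (6, 8), (6, 10)]
    cl := [0, 2, 1, 0, 3, 7, 1, 8, 4, 5, 6]
    chq := [(0, 3), (3, 0), (5, 6), (6, 5)]
    rng := [(0, 1), (0, 5), (1, 0), (1, 2), (2, 1), (2, 10), (3, 6), (3, 7), (4, 5), (4, 7), (5, 0),
      (5, 4), (6, 3), (6, 9), (7, 3), (7, 4), (8, 9), (8, 10), (9, 6), (9, 8), (10, 2), (10, 8)]
    lev := [] }
  links := [[1, 2, 7, 8], [2, 0, 8, 9, 3], [7, 0, 1, 3, 10, 4, 11, 12], [10, 2, 1, 9, 5, 13], [11, 2, 10,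
    14], [13, 3, 9, 6, 15, 16], [15, 5, 9, 17]]
  P := {
    a := 7
    N := 18
    nb := [390, 781, 7323, 9766, 19460, 107080, 164384, 4357, 643, 131434, 24604, 20500, 2180, 66600,
      3088, 196704, 40992, 33344]
    tri := [(0, 1, 2), (0, 1, 8), (0, 2, 7), (0, 7, 8), (1, 2, 3), (1, 3, 9), (1, 8, 9), (2, 3, 10),
      (2, 4, 10), (2, 4, 11), (2, 7, 12), (2, 11, 12), (3, 5, 9), (3, 5, 13), (3, 10, 13), (4, 10,
      14), (4, 11, 14), (5, 6, 9), (5, 6, 15), (5, 13, 16), (5, 15, 16), (6, 9, 17), (6, 15, 17)]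
    fin := [0, 0, 0, 3, 0, 5, 5, 0, 8, 3, 0, 11, 12, 3, 14, 15, 16, 5]
    chd := [(0, 11), (16, 5)]
    steps := [(0, 1), (0, 2), (0, 4), (0, 7), (0, 10), (3, 9), (3, 13), (5, 6), (5, 17)] }
  rep := [0, 3, 8, 11, 15, 16, 5, 12, 14]

noncomputable def v2501 : Cov.CovD where
  P := 3
  N := 6
  pl := [1, 5, 7, 8]
  lev := [⟨[], [], [], [2], [(0, 0, [3])]⟩,
    ⟨[], [(0, 0), (0, 1)], [], [2], [(2, 1, [])]⟩,
    ⟨[(0, 1)], [(0, 0), (0, 3), (1, 0), (1, 1), (1, 3)], [(0, 0), (0, 3)], [7], [(0, 0,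
      [3]), (3, 0, [3]), (4, 3, [0])]⟩,
    ⟨[(0, 1), (0, 2), (1, 2)], [(1, 0), (1, 1), (2, 0), (2, 1), (2, 3)], [(0, 1), (1, 1)],
      [], [(2, 1, []), (3, 0, [3]), (6, 1, [])]⟩,
    ⟨[(0, 2), (1, 2), (2, 3)], [(2, 0), (2, 3), (3, 0)], [(0, 3)], [8], [(3, 0, [3]), (4,
      3, [0])]⟩,
    ⟨[(1, 3), (2, 3)], [(1, 1), (3, 0), (3, 1), (3, 5)], [(1, 1), (1, 5)], [4], [(2, 1,
      []), (6, 1, []), (9, 5, [6])]⟩,
    ⟨[(3, 5)], [(1, 1), (3, 1), (5, 1), (5, 5), (5, 6)], [(1, 6)], [4], [(2, 1, []), (10,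
      6, [5])]⟩]
  Ta := [((0, 1), 0, 2), ((0, 5), 0, 7), ((2, 1), 1, 2), ((2, 10), 1, 6), ((3, 6), 0, 1), ((3,
    7), 0, 8), ((6, 3), 1, 0), ((6, 9), 1, 5)]
  Tb := [((0, 1, 5), 0, 2, 7), ((1, 0, 2), 2, 0, 1), ((2, 1, 10), 1, 2, 6), ((3, 6, 7), 0, 1, 8),
    ((4, 5, 7), 3, 7, 8), ((5, 0, 4), 7, 0, 3), ((6, 3, 9), 1, 0, 5), ((7, 3, 4), 8, 0, 3),
    ((8, 9, 10), 4, 5, 6), ((9, 6, 8), 5, 1, 4), ((10, 2, 8), 6, 1, 4)]
  Tc := []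
  Td := [((0, 3), (0, 1), 2), ((0, 3), (0, 5), 7), ((0, 3), (3, 6), 1), ((0, 3), (3, 7), 8), ((3,
    0), (4, 5), 7), ((3, 0), (4, 7), 8), ((5, 6), (9, 6), 1), ((5, 6), (9, 8), 4), ((6, 5),
    (10, 2), 1), ((6, 5), (10, 8), 4)]
  G := [[0, 0, 0x59cd149415c91c59cd14e82, 0x59cd59cd9459cd59cd3859cd59cd58e14,
    0x945c959cdb459cd59cd5859cd94c59cd1ce12], [0, 0, 0x692d142415a91c23bd14e82, 0,
    0x236d52cd342c5a25938689c5a2d32cd54e82], [0, 0, 0,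
    0x59cd4582c419c5946859cd59cd59cde8a59cd585c9e459cd9c5a8c5c,
    0x59cd59cd59cde42859cd59cd59cde459cd59cd59cde8c1a], [0,
    0x619e1a5e31cee2691e5a1e5a1ee46831ce591e135ee284c, 0, 0,
    0x23cd32ad32ade423cd563d6a2de8c12a5216296d386acec283]]

noncomputable def n2501 : Ent := ⟨e2501, noF, [], [], [(8, 17, [6903326391201334775872065844685381424292761054348340378595029939924993, 0]), (16, 14, [7334685589297762428874426903420482469988158645819485339342058433560577, 0])]⟩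

def c2501 : PLift (Cov.check n2501.C.D v2501 = true) := ⟨by decide +kernel⟩

def b2501 : PLift (entF (fidx ts) 400 2501 n2501 = true) := ⟨by decide +kernel⟩

theorem g2501 : GoodF (fidx ts) 400 2501 := GoodF.ofV v2501 n2501 c2501.down b2501.down

/-- 4586464:1979/2 -/
noncomputable def e2502 : SCfg where
  D := {
    a := 7
    L := 9
    kp := 6
    inn := [(0, 1), (0, 2), (1, 0), (1, 2), (1, 3), (2, 0), (2, 1), (2, 3), (2, 4), (3, 1), (3, 2), (3,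
      5), (4, 2), (5, 3), (5, 6), (6, 5)]
    mix := [(0, 0), (0, 1), (1, 1), (1, 2), (2, 0), (2, 3), (2, 4), (2, 5), (3, 2), (3, 3), (3, 6), (4,
      3), (4, 4), (4, 7), (5, 1), (5, 2), (5, 6), (5, 8), (6, 6), (6, 7), (6, 8)]
    cl := [0, 2, 1, 0, 3, 6, 1, 4, 5]
    chq := [(0, 3), (2, 4), (3, 0), (4, 2)]
    rng := [(0, 1), (0, 5), (1, 0), (1, 2), (1, 8), (2, 1), (3, 6), (3, 7), (4, 5), (4, 7), (5, 0), (5,
      4), (6, 3), (6, 7), (7, 3), (7, 4), (7, 6), (7, 8), (8, 1), (8, 7)]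
    lev := [] }
  links := [[1, 2, 7, 8], [2, 0, 8, 9, 3], [7, 0, 1, 3, 10, 4, 11, 12], [10, 2, 1, 9, 5, 13], [11, 2, 10,
    14], [13, 3, 9, 8, 15, 6], [13, 5, 15, 14]]
  P := {
    a := 7
    N := 16
    nb := [390, 781, 7323, 9766, 19460, 41800, 57376, 4357, 33443, 298, 24604, 20500, 2180, 17512,
      44112, 16736]
    tri := [(0, 1, 2), (0, 1, 8), (0, 2, 7), (0, 7, 8), (1, 2, 3), (1, 3, 9), (1, 8, 9), (2, 3, 10),
      (2, 4, 10), (2, 4, 11), (2, 7, 12), (2, 11, 12), (3, 5, 9), (3, 5, 13), (3, 10, 13), (4, 10,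
      14), (4, 11, 14), (5, 6, 13), (5, 6, 15), (5, 8, 9), (5, 8, 15), (6, 13, 14), (6, 14, 15)]
    fin := [0, 0, 0, 3, 0, 5, 5, 0, 5, 3, 0, 11, 12, 3, 14, 15]
    chd := [(0, 11), (5, 14)]
    steps := [(0, 1), (0, 2), (0, 4), (0, 7), (0, 10), (3, 9), (3, 13), (5, 6), (5, 8)] }
  rep := [0, 3, 5, 11, 14, 15, 12]

noncomputable def v2502 : Cov.CovD where
  P := 3
  N := 4
  pl := [5, 8]
  lev := [⟨[], [], [(0, 2)], [], [(0, 0, [3]), (1, 2, [4])]⟩,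
    ⟨[], [(0, 0), (0, 1), (0, 2)], [(1, 2)], [], [(1, 2, [4]), (2, 1, [])]⟩,
    ⟨[(0, 1)], [(0, 0), (0, 2), (0, 3), (1, 0), (1, 1), (1, 2), (1, 3)], [(0, 0), (0, 3)],
      [6], [(0, 0, [3]), (3, 0, [3]), (4, 3, [0])]⟩,
    ⟨[(0, 1), (0, 2), (1, 2)], [(1, 0), (1, 1), (1, 2), (2, 0), (2, 1), (2, 3)], [(0, 1),
      (1, 1)], [], [(2, 1, []), (3, 0, [3]), (6, 1, [])]⟩,
    ⟨[(0, 2), (1, 2), (2, 3)], [(2, 0), (2, 3), (2, 4), (3, 0)], [(0, 3), (0, 4), (3, 4)],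
      [], [(3, 0, [3]), (4, 3, [0]), (7, 4, [2])]⟩,
    ⟨[(1, 3), (2, 3)], [(0, 2), (1, 1), (1, 2), (3, 0), (3, 1), (3, 2)], [(1, 1), (1, 2)],
      [5], [(1, 2, [4]), (2, 1, []), (6, 1, [])]⟩,
    ⟨[(3, 5)], [(3, 1), (4, 4), (5, 1), (5, 2), (5, 4)], [(1, 4)], [5], [(6, 1, []), (7, 4,
      [2])]⟩]
  Ta := [((0, 1), 0, 2), ((0, 5), 0, 6), ((2, 1), 1, 2), ((3, 6), 0, 1), ((3, 7), 0, 4), ((6, 3),
    1, 0), ((6, 7), 1, 4)]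
  Tb := [((0, 1, 5), 0, 2, 6), ((1, 0, 2), 2, 0, 1), ((1, 0, 8), 2, 0, 5), ((1, 2, 8), 2, 1, 5),
    ((3, 6, 7), 0, 1, 4), ((4, 5, 7), 3, 6, 4), ((5, 0, 4), 6, 0, 3), ((6, 3, 7), 1, 0, 4),
    ((7, 3, 4), 4, 0, 3), ((7, 3, 6), 4, 0, 1), ((7, 3, 8), 4, 0, 5), ((7, 4, 6), 4, 3, 1),
    ((7, 4, 8), 4, 3, 5), ((7, 6, 8), 4, 1, 5), ((8, 1, 7), 5, 2, 4)]
  Tc := []
  Td := [((0, 3), (0, 1), 2), ((0, 3), (0, 5), 6), ((0, 3), (3, 6), 1), ((0, 3), (3, 7), 4), ((2,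
    4), (1, 0), 0), ((2, 4), (1, 2), 1), ((2, 4), (1, 8), 5), ((3, 0), (4, 5), 6), ((3, 0),
    (4, 7), 4), ((4, 2), (7, 3), 0), ((4, 2), (7, 4), 3), ((4, 2), (7, 6), 1), ((4, 2), (7,
    8), 5)]
  G := [[0, 0, 0x141181c12c1821c18e42, 0x12c12c342251821c28e18, 0x219249544191441924e18], [0, 0,
    0x11c18211c1411c18c64, 0, 0xc194195441914c1941954e18], [0, 0, 0,
    0x22922922ce8229286122922c249e481c, 0x2594296494249429e824928e18], [0,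
    0x82c24c82ce2482c24c24ce2242c2c2e8ecac1, 0, 0, 0x945c994e85492819819cc61849419419e481a]]

noncomputable def n2502 : Ent := ⟨e2502, noF, [], [], []⟩

def c2502 : PLift (Cov.check n2502.C.D v2502 = true) := ⟨by decide +kernel⟩

def b2502 : PLift (entF (fidx ts) 400 2502 n2502 = true) := ⟨by decide +kernel⟩

theorem g2502 : GoodF (fidx ts) 400 2502 := GoodF.ofV v2502 n2502 c2502.down b2502.down

/-- 4586464:1979/1 -/
noncomputable def e2503 : SCfg where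
  D := {
    a := 7
    L := 10
    kp := 7
    inn := [(0, 1), (0, 2), (1, 0), (1, 2), (1, 3), (2, 0), (2, 1), (2, 3), (2, 4), (3, 1), (3, 2), (3,
      5), (4, 2), (5, 3), (5, 6), (6, 5)]
    mix := [(0, 0), (0, 1), (1, 1), (1, 2), (2, 0), (2, 3), (2, 4), (2, 5), (3, 2), (3, 3), (3, 6), (4,
      3), (4, 4), (4, 7), (5, 1), (5, 2), (5, 6), (5, 8), (6, 6), (6, 8), (6, 9)]
    cl := [0, 2, 1, 0, 3, 6, 1, 7, 4, 5]
    chq := [(0, 3), (2, 5), (3, 0), (5, 2)]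
    rng := [(0, 1), (0, 5), (1, 0), (1, 2), (1, 8), (2, 1), (3, 6), (3, 7), (4, 5), (4, 7), (5, 0), (5,
      4), (6, 3), (6, 9), (7, 3), (7, 4), (8, 1), (8, 9), (9, 6), (9, 8)]
    lev := [] }
  links := [[1, 2, 7, 8], [2, 0, 8, 9, 3], [7, 0, 1, 3, 10, 4, 11, 12], [10, 2, 1, 9, 5, 13], [11, 2, 10,
    14], [13, 3, 9, 8, 15, 6], [13, 5, 15, 16]]
  P := {
    a := 7
    N := 17
    nb := [390, 781, 7323, 9766, 19460, 41800, 106528, 4357, 33443, 298, 24604, 20500, 2180, 66664,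
      3088, 65888, 41024]
    tri := [(0, 1, 2), (0, 1, 8), (0, 2, 7), (0, 7, 8), (1, 2, 3), (1, 3, 9), (1, 8, 9), (2, 3, 10),
      (2, 4, 10), (2, 4, 11), (2, 7, 12), (2, 11, 12), (3, 5, 9), (3, 5, 13), (3, 10, 13), (4, 10,
      14), (4, 11, 14), (5, 6, 13), (5, 6, 15), (5, 8, 9), (5, 8, 15), (6, 13, 16), (6, 15, 16)]
    fin := [0, 0, 0, 3, 0, 5, 5, 0, 5, 3, 0, 11, 12, 3, 14, 15, 16]
    chd := [(0, 11), (5, 16)]
    steps := [(0, 1), (0, 2), (0, 4), (0, 7), (0, 10), (3, 9), (3, 13), (5, 6), (5, 8)] }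
  rep := [0, 3, 5, 11, 15, 16, 12, 14]

noncomputable def v2503 : Cov.CovD where
  P := 3
  N := 5
  pl := [5, 7, 8]
  lev := [⟨[], [], [(0, 2)], [], [(0, 0, [3]), (1, 2, [5])]⟩,
    ⟨[], [(0, 0), (0, 1), (0, 2)], [(1, 2)], [], [(1, 2, [5]), (2, 1, [])]⟩,
    ⟨[(0, 1)], [(0, 0), (0, 2), (0, 3), (1, 0), (1, 1), (1, 2), (1, 3)], [(0, 0), (0, 3)],
      [6], [(0, 0, [3]), (3, 0, [3]), (4, 3, [0])]⟩,
    ⟨[(0, 1), (0, 2), (1, 2)], [(1, 0), (1, 1), (1, 2), (2, 0), (2, 1), (2, 3)], [(0, 1),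
      (1, 1)], [], [(2, 1, []), (3, 0, [3]), (6, 1, [])]⟩,
    ⟨[(0, 2), (1, 2), (2, 3)], [(2, 0), (2, 3), (3, 0)], [(0, 3)], [7], [(3, 0, [3]), (4,
      3, [0])]⟩,
    ⟨[(1, 3), (2, 3)], [(0, 2), (1, 1), (1, 2), (3, 0), (3, 1), (3, 2)], [(1, 1), (1, 2)],
      [4], [(1, 2, [5]), (2, 1, []), (6, 1, [])]⟩,
    ⟨[(3, 5)], [(3, 1), (5, 1), (5, 2), (5, 5)], [(1, 5)], [4], [(6, 1, []), (9, 5, [2])]⟩]
  Ta := [((0, 1), 0, 2), ((0, 5), 0, 6), ((2, 1), 1, 2), ((3, 6), 0, 1), ((3, 7), 0, 7), ((6, 3),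
    1, 0), ((6, 9), 1, 5)]
  Tb := [((0, 1, 5), 0, 2, 6), ((1, 0, 2), 2, 0, 1), ((1, 0, 8), 2, 0, 4), ((1, 2, 8), 2, 1, 4),
    ((3, 6, 7), 0, 1, 7), ((4, 5, 7), 3, 6, 7), ((5, 0, 4), 6, 0, 3), ((6, 3, 9), 1, 0, 5),
    ((7, 3, 4), 7, 0, 3), ((8, 1, 9), 4, 2, 5), ((9, 6, 8), 5, 1, 4)]
  Tc := []
  Td := [((0, 3), (0, 1), 2), ((0, 3), (0, 5), 6), ((0, 3), (3, 6), 1), ((0, 3), (3, 7), 7), ((2,
    5), (1, 0), 0), ((2, 5), (1, 2), 1), ((2, 5), (1, 8), 4), ((3, 0), (4, 5), 6), ((3, 0),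
    (4, 7), 7), ((5, 2), (9, 6), 1), ((5, 2), (9, 8), 4)]
  G := [[0, 0, 0x141181c11c1821c18e42, 0x2124225782822998242122974e14,
    0x429429342494295842924998e18], [0, 0, 0x11c14211c1411c18ca8, 0,
    0xd49c59544d94d9984d91c592ce18], [0, 0, 0, 0x225225225e84229229229e422922c225e8ac1,
    0x429249249e44294429249acc1249249429e4283], [0,
    0xa44a6c68e2cea4e2ce2ca6ce22ec6ac2ece8ac1, 0, 0,
    0xc59c59c59e424d9c59c59e45c94d94d9e8ca1]]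

noncomputable def n2503 : Ent := ⟨e2503, noF, [], [], [(16, 14, [1580095832788404724998799751142926758855362888449624481876429004801, 0])]⟩

def c2503 : PLift (Cov.check n2503.C.D v2503 = true) := ⟨by decide +kernel⟩

def b2503 : PLift (entF (fidx ts) 400 2503 n2503 = true) := ⟨by decide +kernel⟩

theorem g2503 : GoodF (fidx ts) 400 2503 := GoodF.ofV v2503 n2503 c2503.down b2503.down

/-- 4586464:1979/3 -/
noncomputable def e2504 : SCfg where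
  D := {
    a := 7
    L := 10
    kp := 7
    inn := [(0, 1), (0, 2), (1, 0), (1, 2), (1, 3), (2, 0), (2, 1), (2, 3), (2, 4), (3, 1), (3, 2), (3,
      5), (4, 2), (5, 3), (5, 6), (6, 5)]
    mix := [(0, 0), (0, 1), (1, 1), (1, 2), (2, 0), (2, 3), (2, 4), (2, 5), (3, 2), (3, 3), (3, 6), (4,
      3), (4, 4), (4, 7), (5, 2), (5, 6), (5, 8), (5, 9), (6, 6), (6, 7), (6, 9)]
    cl := [0, 2, 1, 0, 3, 6, 1, 5, 7, 4]
    chq := [(0, 3), (1, 4), (3, 0), (4, 1)]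
    rng := [(0, 1), (0, 5), (1, 0), (1, 2), (2, 1), (2, 8), (3, 6), (3, 7), (4, 5), (4, 7), (5, 0), (5,
      4), (6, 3), (6, 7), (7, 3), (7, 4), (7, 6), (7, 9), (8, 2), (8, 9), (9, 7), (9, 8)]
    lev := [] }
  links := [[1, 2, 7, 8], [2, 0, 8, 9, 3], [7, 0, 1, 3, 10, 4, 11, 12], [10, 2, 1, 9, 5, 13], [11, 2, 10,
    14], [13, 3, 9, 15, 16, 6], [13, 5, 16, 14]]
  P := {
    a := 7
    N := 17
    nb := [390, 781, 7323, 9766, 19460, 107080, 90144, 4357, 643, 33066, 24604, 20500, 2180, 17512,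
      76880, 66080, 49248]
    tri := [(0, 1, 2), (0, 1, 8), (0, 2, 7), (0, 7, 8), (1, 2, 3), (1, 3, 9), (1, 8, 9), (2, 3, 10),
      (2, 4, 10), (2, 4, 11), (2, 7, 12), (2, 11, 12), (3, 5, 9), (3, 5, 13), (3, 10, 13), (4, 10,
      14), (4, 11, 14), (5, 6, 13), (5, 6, 16), (5, 9, 15), (5, 15, 16), (6, 13, 14), (6, 14, 16)]
    fin := [0, 0, 0, 0, 0, 5, 5, 0, 8, 5, 0, 11, 12, 5, 14, 15, 16]
    chd := [(0, 11), (5, 16)]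
    steps := [(0, 1), (0, 2), (0, 3), (0, 4), (0, 7), (0, 10), (5, 6), (5, 9), (5, 13)] }
  rep := [0, 5, 8, 11, 16, 14, 12, 15]

noncomputable def v2504 : Cov.CovD where
  P := 3
  N := 5
  pl := [1, 5, 7, 8]
  lev := [⟨[], [], [], [2], [(0, 0, [3])]⟩,
    ⟨[], [(0, 0), (0, 1)], [], [2], [(2, 1, [4])]⟩,
    ⟨[(0, 1)], [(0, 0), (0, 3), (1, 0), (1, 1), (1, 3)], [(0, 0), (0, 3)], [6], [(0, 0,
      [3]), (3, 0, [3]), (4, 3, [0])]⟩,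
    ⟨[(0, 1), (0, 2), (1, 2)], [(1, 0), (1, 1), (2, 0), (2, 1), (2, 3)], [(0, 1), (1, 1)],
      [], [(2, 1, [4]), (3, 0, [3]), (6, 1, [4])]⟩,
    ⟨[(0, 2), (1, 2), (2, 3)], [(2, 0), (2, 3), (3, 0)], [(0, 3)], [5], [(3, 0, [3]), (4,
      3, [0])]⟩,
    ⟨[(1, 3), (2, 3)], [(1, 1), (3, 0), (3, 1), (3, 4)], [(1, 1), (1, 4)], [7], [(2, 1,
      [4]), (6, 1, [4]), (9, 4, [1])]⟩,
    ⟨[(3, 5)], [(3, 1), (5, 1), (5, 4)], [(1, 4)], [5], [(6, 1, [4]), (9, 4, [1])]⟩]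
  Ta := [((0, 1), 0, 2), ((0, 5), 0, 6), ((2, 1), 1, 2), ((2, 8), 1, 7), ((3, 6), 0, 1), ((3, 7),
    0, 5), ((6, 3), 1, 0), ((6, 7), 1, 5)]
  Tb := [((0, 1, 5), 0, 2, 6), ((1, 0, 2), 2, 0, 1), ((2, 1, 8), 1, 2, 7), ((3, 6, 7), 0, 1, 5),
    ((4, 5, 7), 3, 6, 5), ((5, 0, 4), 6, 0, 3), ((6, 3, 7), 1, 0, 5), ((7, 3, 4), 5, 0, 3),
    ((7, 3, 6), 5, 0, 1), ((7, 3, 9), 5, 0, 4), ((7, 4, 6), 5, 3, 1), ((7, 4, 9), 5, 3, 4),
    ((7, 6, 9), 5, 1, 4), ((8, 2, 9), 7, 1, 4), ((9, 7, 8), 4, 5, 7)]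
  Tc := []
  Td := [((0, 3), (0, 1), 2), ((0, 3), (0, 5), 6), ((0, 3), (3, 6), 1), ((0, 3), (3, 7), 5), ((1,
    4), (2, 1), 2), ((1, 4), (2, 8), 7), ((1, 4), (6, 3), 0), ((1, 4), (6, 7), 5), ((3, 0),
    (4, 5), 6), ((3, 0), (4, 7), 5), ((4, 1), (9, 7), 5), ((4, 1), (9, 8), 7)]
  G := [[0, 0, 0x2151381c321d18321d18e42, 0x229221d3424221d38221d24e18,
    0x34e21d34219321d38321d24e18], [0, 0, 0x5d1d188292d91d1444465941d191444dc68, 0,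
    0x44445891d5199c44591d94788d199c5195d1d5881ce12], [0, 0, 0,
    0x222d222d222de8222d2461822d221d221de481c,
    0x82ad621d231de4382468c1395425c28819ac3a6d24683], [0,
    0x22482a22aa4e4ce8acee444c6e4e8ca88e2aec6142642662268c8ece68ae849, 0, 0,
    0x444444e819819d9ddec24444689dd519519ec9454dd94e819819acca1]]

noncomputable def n2504 : Ent := ⟨e2504, noF, [], [], [(8, 15, [1685356702439545624007900436039642273970977273354372543760010338305, 0])]⟩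

def c2504 : PLift (Cov.check n2504.C.D v2504 = true) := ⟨by decide +kernel⟩

def b2504 : PLift (entF (fidx ts) 400 2504 n2504 = true) := ⟨by decide +kernel⟩

theorem g2504 : GoodF (fidx ts) 400 2504 := GoodF.ofV v2504 n2504 c2504.down b2504.down

/-- 4586464:1979 -/
noncomputable def e2505 : SCfg where
  D := {
    a := 7
    L := 11
    kp := 8
    inn := [(0, 1), (0, 2), (1, 0), (1, 2), (1, 3), (2, 0), (2, 1), (2, 3), (2, 4), (3, 1), (3, 2), (3,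
      5), (4, 2), (5, 3), (5, 6), (6, 5)]
    mix := [(0, 0), (0, 1), (1, 1), (1, 2), (2, 0), (2, 3), (2, 4), (2, 5), (3, 2), (3, 3), (3, 6), (4,
      3), (4, 4), (4, 7), (5, 2), (5, 6), (5, 8), (5, 9), (6, 6), (6, 9), (6, 10)]
    cl := [0, 2, 1, 0, 3, 7, 1, 8, 5, 4, 6]
    chq := [(0, 3), (3, 0), (5, 6), (6, 5)]
    rng := [(0, 1), (0, 5), (1, 0), (1, 2), (2, 1), (2, 8), (3, 6), (3, 7), (4, 5), (4, 7), (5, 0), (5,
      4), (6, 3), (6, 10), (7, 3), (7, 4), (8, 2), (8, 9), (9, 8), (9, 10), (10, 6), (10, 9)]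
    lev := [] }
  links := [[1, 2, 7, 8], [2, 0, 8, 9, 3], [7, 0, 1, 3, 10, 4, 11, 12], [10, 2, 1, 9, 5, 13], [11, 2, 10,
    14], [13, 3, 9, 15, 16, 6], [13, 5, 16, 17]]
  P := {
    a := 7
    N := 18
    nb := [390, 781, 7323, 9766, 19460, 107080, 204832, 4357, 643, 33066, 24604, 20500, 2180, 132200,
      3088, 66080, 163936, 73792]
    tri := [(0, 1, 2), (0, 1, 8), (0, 2, 7), (0, 7, 8), (1, 2, 3), (1, 3, 9), (1, 8, 9), (2, 3, 10),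
      (2, 4, 10), (2, 4, 11), (2, 7, 12), (2, 11, 12), (3, 5, 9), (3, 5, 13), (3, 10, 13), (4, 10,
      14), (4, 11, 14), (5, 6, 13), (5, 6, 16), (5, 9, 15), (5, 15, 16), (6, 13, 17), (6, 16, 17)]
    fin := [0, 0, 0, 3, 0, 5, 5, 0, 8, 3, 0, 11, 12, 3, 14, 5, 16, 17]
    chd := [(0, 11), (5, 17)]
    steps := [(0, 1), (0, 2), (0, 4), (0, 7), (0, 10), (3, 9), (3, 13), (5, 6), (5, 15)] }
  rep := [0, 3, 8, 11, 16, 5, 17, 12, 14]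

noncomputable def v2505 : Cov.CovD where
  P := 3
  N := 6
  pl := [1, 5, 7, 9]
  lev := [⟨[], [], [], [2], [(0, 0, [3])]⟩,
    ⟨[], [(0, 0), (0, 1)], [], [2], [(2, 1, [])]⟩,
    ⟨[(0, 1)], [(0, 0), (0, 3), (1, 0), (1, 1), (1, 3)], [(0, 0), (0, 3)], [7], [(0, 0,
      [3]), (3, 0, [3]), (4, 3, [0])]⟩,
    ⟨[(0, 1), (0, 2), (1, 2)], [(1, 0), (1, 1), (2, 0), (2, 1), (2, 3)], [(0, 1), (1, 1)],
      [], [(2, 1, []), (3, 0, [3]), (6, 1, [])]⟩,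
    ⟨[(0, 2), (1, 2), (2, 3)], [(2, 0), (2, 3), (3, 0)], [(0, 3)], [8], [(3, 0, [3]), (4,
      3, [0])]⟩,
    ⟨[(1, 3), (2, 3)], [(1, 1), (3, 0), (3, 1), (3, 5)], [(1, 1), (1, 5)], [4], [(2, 1,
      []), (6, 1, []), (8, 5, [6])]⟩,
    ⟨[(3, 5)], [(3, 1), (5, 1), (5, 5), (5, 6)], [(1, 6)], [4], [(6, 1, []), (10, 6, [5])]⟩]
  Ta := [((0, 1), 0, 2), ((0, 5), 0, 7), ((2, 1), 1, 2), ((2, 8), 1, 5), ((3, 6), 0, 1), ((3, 7),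
    0, 8), ((6, 3), 1, 0), ((6, 10), 1, 6)]
  Tb := [((0, 1, 5), 0, 2, 7), ((1, 0, 2), 2, 0, 1), ((2, 1, 8), 1, 2, 5), ((3, 6, 7), 0, 1, 8),
    ((4, 5, 7), 3, 7, 8), ((5, 0, 4), 7, 0, 3), ((6, 3, 10), 1, 0, 6), ((7, 3, 4), 8, 0, 3),
    ((8, 2, 9), 5, 1, 4), ((9, 8, 10), 4, 5, 6), ((10, 6, 9), 6, 1, 4)]
  Tc := []
  Td := [((0, 3), (0, 1), 2), ((0, 3), (0, 5), 7), ((0, 3), (3, 6), 1), ((0, 3), (3, 7), 8), ((3,
    0), (4, 5), 7), ((3, 0), (4, 7), 8), ((5, 6), (8, 2), 1), ((5, 6), (8, 9), 4), ((6, 5),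
    (10, 6), 1), ((6, 5), (10, 9), 4)]
  G := [[0, 0, 0x2691432ad18692d18e4341884a, 0x22cd3852ad743a59259838236d32adb4e6818494,
    0x29cd5a2d54296d2ecd9832ad52cd34e18], [0, 0, 0x59cd14259cd1459cd18ca8, 0,
    0x59cd59cd3459cd59cd5859cd59cd98e18], [0, 0, 0,
    0x23cd5a2d32cde4232ad692d52ade8493428a4813c596562c928cc84d,
    0x6a2d32ad236de42123cd6a2d29cde4592d32ad32ade8c1a], [0,
    0x6ace6ace6acee26ace6ace6acee466ace6ace6acee28c1, 0, 0,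
    0x59cd59cd59cde8459cd59cd59cde82359cd59cd59cde481a]]

noncomputable def n2505 : Ent := ⟨e2505, noF, [], [], [(8, 15, [7334790850167413569773436004105379185503274260204390087403942014906369, 0]), (17, 14, [6903326468334360900303599070699561856668565975414084080169086034411521, 0])]⟩

def c2505 : PLift (Cov.check n2505.C.D v2505 = true) := ⟨by decide +kernel⟩

def b2505 : PLift (entF (fidx ts) 400 2505 n2505 = true) := ⟨by decide +kernel⟩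

theorem g2505 : GoodF (fidx ts) 400 2505 := GoodF.ofV v2505 n2505 c2505.down b2505.down

/-- 4586644:1982/2 -/
noncomputable def e2506 : SCfg where
  D := {
    a := 7
    L := 9
    kp := 6
    inn := [(0, 1), (0, 2), (1, 0), (1, 2), (1, 3), (2, 0), (2, 1), (2, 3), (2, 6), (3, 1), (3, 2), (3,
      4), (4, 3), (4, 5), (5, 4), (6, 2)]
    mix := [(0, 0), (0, 1), (1, 1), (1, 2), (2, 0), (2, 3), (2, 4), (2, 5), (3, 2), (3, 3), (3, 6), (4,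
      2), (4, 6), (4, 7), (4, 8), (5, 1), (5, 2), (5, 7), (6, 0), (6, 5), (6, 7)]
    cl := [0, 2, 1, 0, 6, 4, 1, 3, 5]
    chq := [(0, 4), (2, 5), (4, 0), (5, 2)]
    rng := [(0, 1), (0, 7), (1, 0), (1, 2), (1, 7), (2, 1), (3, 4), (3, 6), (4, 3), (4, 5), (5, 4), (5,
      7), (6, 3), (6, 8), (7, 0), (7, 1), (7, 5), (7, 8), (8, 6), (8, 7)]
    lev := [] }
  links := [[1, 2, 7, 8], [2, 0, 8, 9, 3], [7, 0, 1, 3, 10, 11, 12, 6], [10, 2, 1, 9, 4, 13], [13, 3, 9,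
    5, 14, 15], [14, 4, 9, 8], [7, 2, 12, 14]]
  P := {
    a := 7
    N := 16
    nb := [390, 781, 7371, 9750, 57896, 17168, 20612, 16709, 17059, 314, 10252, 5124, 18500, 33816,
      37360, 24592]
    tri := [(0, 1, 2), (0, 1, 8), (0, 2, 7), (0, 7, 8), (1, 2, 3), (1, 3, 9), (1, 8, 9), (2, 3, 10),
      (2, 6, 7), (2, 6, 12), (2, 10, 11), (2, 11, 12), (3, 4, 9), (3, 4, 13), (3, 10, 13), (4, 5,
      9), (4, 5, 14), (4, 13, 15), (4, 14, 15), (5, 8, 9), (5, 8, 14), (6, 7, 14), (6, 12, 14)]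
    fin := [0, 0, 0, 3, 4, 4, 0, 0, 4, 3, 0, 11, 12, 3, 14, 15]
    chd := [(0, 12), (4, 15)]
    steps := [(0, 1), (0, 2), (0, 6), (0, 7), (0, 10), (3, 9), (3, 13), (4, 5), (4, 8)] }
  rep := [0, 3, 4, 14, 12, 15, 11]

noncomputable def v2506 : Cov.CovD where
  P := 3
  N := 4
  pl := [4, 7]
  lev := [⟨[], [], [(0, 2)], [], [(0, 0, [4]), (1, 2, [5])]⟩,
    ⟨[], [(0, 0), (0, 1), (0, 2)], [(1, 2)], [], [(1, 2, [5]), (2, 1, [])]⟩,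
    ⟨[(0, 1)], [(0, 0), (0, 2), (0, 4), (1, 0), (1, 1), (1, 2), (1, 4)], [(0, 0), (0, 4)],
      [6], [(0, 0, [4]), (3, 0, [4]), (5, 4, [0])]⟩,
    ⟨[(0, 1), (0, 2), (1, 2)], [(1, 0), (1, 1), (1, 2), (2, 0), (2, 1), (2, 4)], [(0, 1),
      (1, 1)], [], [(2, 1, []), (3, 0, [4]), (6, 1, [])]⟩,
    ⟨[(1, 3), (2, 3)], [(1, 1), (3, 0), (3, 1), (3, 5)], [(1, 1), (1, 5)], [3], [(2, 1,
      []), (6, 1, []), (8, 5, [2])]⟩,
    ⟨[(3, 4)], [(0, 2), (1, 1), (1, 2), (3, 1), (4, 1), (4, 2), (4, 5)], [(1, 2)], [3],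
      [(1, 2, [5]), (2, 1, [])]⟩,
    ⟨[(0, 2), (1, 2), (2, 3)], [(0, 0), (2, 0), (2, 4)], [(0, 4)], [3], [(0, 0, [4]), (5,
      4, [0])]⟩]
  Ta := [((0, 1), 0, 2), ((0, 7), 0, 3), ((2, 1), 1, 2), ((3, 4), 0, 6), ((3, 6), 0, 1), ((6, 3),
    1, 0), ((6, 8), 1, 5)]
  Tb := [((0, 1, 7), 0, 2, 3), ((1, 0, 2), 2, 0, 1), ((1, 0, 7), 2, 0, 3), ((1, 2, 7), 2, 1, 3),
    ((3, 4, 6), 0, 6, 1), ((4, 3, 5), 6, 0, 4), ((5, 4, 7), 4, 6, 3), ((6, 3, 8), 1, 0, 5),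
    ((7, 0, 1), 3, 0, 2), ((7, 0, 5), 3, 0, 4), ((7, 0, 8), 3, 0, 5), ((7, 1, 5), 3, 2, 4),
    ((7, 1, 8), 3, 2, 5), ((7, 5, 8), 3, 4, 5), ((8, 6, 7), 5, 1, 3)]
  Tc := []
  Td := [((0, 4), (0, 1), 2), ((0, 4), (0, 7), 3), ((0, 4), (3, 4), 6), ((0, 4), (3, 6), 1), ((2,
    5), (1, 0), 0), ((2, 5), (1, 2), 1), ((2, 5), (1, 7), 3), ((4, 0), (5, 4), 6), ((4, 0),
    (5, 7), 3), ((5, 2), (8, 6), 1), ((5, 2), (8, 7), 3)]
  G := [[0, 0, 0xe2c14244418486c14a818cca, 0x6441844e15a88c24215288c6588e19481c,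
    0xa8a194494528219c29456888869e1d481a], [0, 0, 0xa4c1842c2618286c148ac, 0,
    0xe822e1d42862488889ca144aca11cc1a], [0, 0, 0, 0x311131d4114411d8282121d4e18,
    0x881131d4a14138d8115118d8e12], [0, 0x111111e418116118a111821e4e84, 0, 0,
    0x51315188c9141c111c911191d8e12]]

noncomputable def n2506 : Ent := ⟨e2506, noF, [], [], []⟩

def c2506 : PLift (Cov.check n2506.C.D v2506 = true) := ⟨by decide +kernel⟩

def b2506 : PLift (entF (fidx ts) 400 2506 n2506 = true) := ⟨by decide +kernel⟩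

theorem g2506 : GoodF (fidx ts) 400 2506 := GoodF.ofV v2506 n2506 c2506.down b2506.down

/-- 4586644:1982/3 -/
noncomputable def e2507 : SCfg where
  D := {
    a := 7
    L := 9
    kp := 6
    inn := [(0, 1), (0, 2), (1, 0), (1, 2), (1, 3), (2, 0), (2, 1), (2, 3), (2, 6), (3, 1), (3, 2), (3,
      4), (4, 3), (4, 5), (5, 4), (6, 2)]
    mix := [(0, 0), (0, 1), (1, 1), (1, 2), (2, 0), (2, 3), (2, 4), (2, 5), (3, 2), (3, 3), (3, 6), (4,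
      2), (4, 6), (4, 7), (4, 8), (5, 1), (5, 2), (5, 7), (6, 0), (6, 5), (6, 8)]
    cl := [0, 2, 1, 0, 6, 3, 1, 5, 4]
    chq := [(0, 3), (2, 4), (3, 0), (4, 2)]
    rng := [(0, 1), (0, 8), (1, 0), (1, 2), (1, 7), (2, 1), (3, 4), (3, 6), (4, 3), (4, 5), (5, 4), (5,
      8), (6, 3), (6, 8), (7, 1), (7, 8), (8, 0), (8, 5), (8, 6), (8, 7)]
    lev := [] }
  links := [[1, 2, 7, 8], [2, 0, 8, 9, 3], [7, 0, 1, 3, 10, 11, 12, 6], [10, 2, 1, 9, 4, 13], [13, 3, 9,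
    5, 14, 15], [14, 4, 9, 8], [7, 2, 12, 15]]
  P := {
    a := 7
    N := 16
    nb := [390, 781, 7371, 9750, 57896, 17168, 36996, 33093, 17059, 314, 10252, 5124, 34884, 33816,
      33072, 28880]
    tri := [(0, 1, 2), (0, 1, 8), (0, 2, 7), (0, 7, 8), (1, 2, 3), (1, 3, 9), (1, 8, 9), (2, 3, 10),
      (2, 6, 7), (2, 6, 12), (2, 10, 11), (2, 11, 12), (3, 4, 9), (3, 4, 13), (3, 10, 13), (4, 5,
      9), (4, 5, 14), (4, 13, 15), (4, 14, 15), (5, 8, 9), (5, 8, 14), (6, 7, 15), (6, 12, 15)]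
    fin := [0, 0, 0, 3, 4, 4, 0, 0, 4, 3, 0, 11, 12, 3, 14, 15]
    chd := [(0, 12), (4, 15)]
    steps := [(0, 1), (0, 2), (0, 6), (0, 7), (0, 10), (3, 9), (3, 13), (4, 5), (4, 8)] }
  rep := [0, 3, 4, 12, 15, 14, 11]

noncomputable def v2507 : Cov.CovD where
  P := 3
  N := 4
  pl := [4, 7]
  lev := [⟨[], [], [(0, 2)], [], [(0, 0, [3]), (1, 2, [4])]⟩,
    ⟨[], [(0, 0), (0, 1), (0, 2)], [(1, 2)], [], [(1, 2, [4]), (2, 1, [])]⟩,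
    ⟨[(0, 1)], [(0, 0), (0, 2), (0, 3), (1, 0), (1, 1), (1, 2), (1, 3)], [(0, 0), (0, 3)],
      [6], [(0, 0, [3]), (3, 0, [3]), (5, 3, [0])]⟩,
    ⟨[(0, 1), (0, 2), (1, 2)], [(1, 0), (1, 1), (1, 2), (2, 0), (2, 1), (2, 3)], [(0, 1),
      (1, 1)], [], [(2, 1, []), (3, 0, [3]), (6, 1, [])]⟩,
    ⟨[(1, 3), (2, 3)], [(1, 1), (3, 0), (3, 1), (3, 4)], [(1, 1), (1, 4)], [5], [(2, 1,
      []), (6, 1, []), (8, 4, [2])]⟩,
    ⟨[(3, 4)], [(0, 2), (1, 1), (1, 2), (3, 1), (4, 1), (4, 2), (4, 4)], [(1, 2)], [5],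
      [(1, 2, [4]), (2, 1, [])]⟩,
    ⟨[(0, 2), (1, 2), (2, 3)], [(0, 0), (2, 0), (2, 3), (2, 4), (4, 4)], [(0, 3), (0, 4),
      (3, 4)], [], [(0, 0, [3]), (5, 3, [0]), (8, 4, [2])]⟩]
  Ta := [((0, 1), 0, 2), ((0, 8), 0, 4), ((2, 1), 1, 2), ((3, 4), 0, 6), ((3, 6), 0, 1), ((6, 3),
    1, 0), ((6, 8), 1, 4)]
  Tb := [((0, 1, 8), 0, 2, 4), ((1, 0, 2), 2, 0, 1), ((1, 0, 7), 2, 0, 5), ((1, 2, 7), 2, 1, 5),
    ((3, 4, 6), 0, 6, 1), ((4, 3, 5), 6, 0, 3), ((5, 4, 8), 3, 6, 4), ((6, 3, 8), 1, 0, 4),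
    ((7, 1, 8), 5, 2, 4), ((8, 0, 5), 4, 0, 3), ((8, 0, 6), 4, 0, 1), ((8, 0, 7), 4, 0, 5),
    ((8, 5, 6), 4, 3, 1), ((8, 5, 7), 4, 3, 5), ((8, 6, 7), 4, 1, 5)]
  Tc := []
  Td := [((0, 3), (0, 1), 2), ((0, 3), (0, 8), 4), ((0, 3), (3, 4), 6), ((0, 3), (3, 6), 1), ((2,
    4), (1, 0), 0), ((2, 4), (1, 2), 1), ((2, 4), (1, 7), 5), ((3, 0), (5, 4), 6), ((3, 0),
    (5, 8), 4), ((4, 2), (8, 0), 0), ((4, 2), (8, 5), 3), ((4, 2), (8, 6), 1), ((4, 2), (8,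
    7), 5)]
  G := [[0, 0, 0x22c1824eec184eec148c6, 0xa8a194445282192445648184988689e1d481c,
    0x6866961d441ea941d82822921d4e18], [0, 0, 0x2ea1428eea184eea148ca, 0,
    0x611462c49e1d8c8a261d4e188689c481a], [0, 0, 0, 0x883811d4141431d8282821d4e14,
    0x481831d4581158c1282158289], [0, 0x181411e214116188a111411ce8e48, 0, 0,
    0x725158184111cd25158e12]]

noncomputable def n2507 : Ent := ⟨e2507, noF, [], [], []⟩

def c2507 : PLift (Cov.check n2507.C.D v2507 = true) := ⟨by decide +kernel⟩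

def b2507 : PLift (entF (fidx ts) 400 2507 n2507 = true) := ⟨by decide +kernel⟩

theorem g2507 : GoodF (fidx ts) 400 2507 := GoodF.ofV v2507 n2507 c2507.down b2507.down

/-- 4586644:1982/1 -/
noncomputable def e2508 : SCfg where
  D := {
    a := 7
    L := 10
    kp := 7
    inn := [(0, 1), (0, 2), (1, 0), (1, 2), (1, 3), (2, 0), (2, 1), (2, 3), (2, 6), (3, 1), (3, 2), (3,
      4), (4, 3), (4, 5), (5, 4), (6, 2)]
    mix := [(0, 0), (0, 1), (1, 1), (1, 2), (2, 0), (2, 3), (2, 4), (2, 5), (3, 2), (3, 3), (3, 6), (4,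
      2), (4, 6), (4, 7), (4, 8), (5, 1), (5, 2), (5, 7), (6, 0), (6, 5), (6, 9)]
    cl := [0, 2, 1, 0, 5, 3, 1, 4, 6, 7]
    chq := [(0, 3), (1, 4), (3, 0), (4, 1)]
    rng := [(0, 1), (0, 9), (1, 0), (1, 2), (1, 7), (2, 1), (3, 4), (3, 6), (4, 3), (4, 5), (5, 4), (5,
      9), (6, 3), (6, 8), (7, 1), (7, 8), (8, 6), (8, 7), (9, 0), (9, 5)]
    lev := [] }
  links := [[1, 2, 7, 8], [2, 0, 8, 9, 3], [7, 0, 1, 3, 10, 11, 12, 6], [10, 2, 1, 9, 4, 13], [13, 3, 9,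
    5, 14, 15], [14, 4, 9, 8], [7, 2, 12, 16]]
  P := {
    a := 7
    N := 17
    nb := [390, 781, 7371, 9750, 57896, 17168, 69764, 65861, 17059, 314, 10252, 5124, 67652, 33816,
      33072, 24592, 4288]
    tri := [(0, 1, 2), (0, 1, 8), (0, 2, 7), (0, 7, 8), (1, 2, 3), (1, 3, 9), (1, 8, 9), (2, 3, 10),
      (2, 6, 7), (2, 6, 12), (2, 10, 11), (2, 11, 12), (3, 4, 9), (3, 4, 13), (3, 10, 13), (4, 5,
      9), (4, 5, 14), (4, 13, 15), (4, 14, 15), (5, 8, 9), (5, 8, 14), (6, 7, 16), (6, 12, 16)]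
    fin := [0, 0, 0, 0, 4, 5, 0, 0, 5, 4, 0, 11, 12, 4, 14, 15, 16]
    chd := [(0, 12), (4, 14)]
    steps := [(0, 1), (0, 2), (0, 3), (0, 6), (0, 7), (0, 10), (4, 9), (4, 13), (5, 8)] }
  rep := [0, 4, 5, 12, 14, 11, 15, 16]

noncomputable def v2508 : Cov.CovD where
  P := 3
  N := 5
  pl := [1, 4, 8, 9]
  lev := [⟨[], [], [], [2], [(0, 0, [3])]⟩,
    ⟨[], [(0, 0), (0, 1)], [], [2], [(2, 1, [4])]⟩,
    ⟨[(0, 1)], [(0, 0), (0, 3), (1, 0), (1, 1), (1, 3)], [(0, 0), (0, 3)], [5], [(0, 0,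
      [3]), (3, 0, [3]), (5, 3, [0])]⟩,
    ⟨[(0, 1), (0, 2), (1, 2)], [(1, 0), (1, 1), (2, 0), (2, 1), (2, 3)], [(0, 1), (1, 1)],
      [], [(2, 1, [4]), (3, 0, [3]), (6, 1, [4])]⟩,
    ⟨[(1, 3), (2, 3)], [(1, 1), (3, 0), (3, 1), (3, 4)], [(1, 1), (1, 4)], [6], [(2, 1,
      [4]), (6, 1, [4]), (7, 4, [1])]⟩,
    ⟨[(3, 4)], [(1, 1), (3, 1), (4, 1), (4, 4)], [(1, 4)], [2], [(2, 1, [4]), (7, 4, [1])]⟩,
    ⟨[(0, 2), (1, 2), (2, 3)], [(0, 0), (2, 0), (2, 3)], [(0, 3)], [7], [(0, 0, [3]), (5,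
      3, [0])]⟩]
  Ta := [((0, 1), 0, 2), ((0, 9), 0, 7), ((2, 1), 1, 2), ((3, 4), 0, 5), ((3, 6), 0, 1), ((6, 3),
    1, 0), ((6, 8), 1, 6)]
  Tb := [((0, 1, 9), 0, 2, 7), ((1, 0, 2), 2, 0, 1), ((1, 0, 7), 2, 0, 4), ((1, 2, 7), 2, 1, 4),
    ((3, 4, 6), 0, 5, 1), ((4, 3, 5), 5, 0, 3), ((5, 4, 9), 3, 5, 7), ((6, 3, 8), 1, 0, 6),
    ((7, 1, 8), 4, 2, 6), ((8, 6, 7), 6, 1, 4), ((9, 0, 5), 7, 0, 3)]
  Tc := []
  Td := [((0, 3), (0, 1), 2), ((0, 3), (0, 9), 7), ((0, 3), (3, 4), 5), ((0, 3), (3, 6), 1), ((1,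
    4), (2, 1), 2), ((1, 4), (6, 3), 0), ((1, 4), (6, 8), 6), ((3, 0), (5, 4), 5), ((3, 0),
    (5, 9), 7), ((4, 1), (7, 1), 2), ((4, 1), (7, 8), 6)]
  G := [[0, 0, 0xe8eec9e44528e4eec5e8894eec1e8e4c58ca, 0xee5e4e1d841e441e11e8e4c9ae8e19485c,
    0xe8ee9c1e8ee9e1d468e8ee9e1d4e118c1a], [0, 0, 0xe8e29e44528e21e8e4c94e8e29e4458c6, 0,
    0xe83e63e1d8e8e2e1d461e8e2e1d481a], [0, 0, 0, 0x5811931d474915988ce4515388ce18,
    0x3819931d4e39e15b88c98d5951d4e12], [0, 0x111411e24181111e2111411e8ac4, 0, 0,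
    0x38b231d4e2515988c581291d4e12]]

noncomputable def n2508 : Ent := ⟨e2508, noF, [], [], [(14, 16, [1580044410770988437309982408355971841652082177953823432505699377153, 0]), (15, 16, [1580044410770988437309982408355971841652082177953823432505699381249, 0])]⟩

def c2508 : PLift (Cov.check n2508.C.D v2508 = true) := ⟨by decide +kernel⟩

def b2508 : PLift (entF (fidx ts) 400 2508 n2508 = true) := ⟨by decide +kernel⟩

theorem g2508 : GoodF (fidx ts) 400 2508 := GoodF.ofV v2508 n2508 c2508.down b2508.down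

/-- 4586644:1982/4 -/
noncomputable def e2509 : SCfg where
  D := {
    a := 7
    L := 10
    kp := 7
    inn := [(0, 1), (0, 2), (1, 0), (1, 2), (1, 3), (2, 0), (2, 1), (2, 3), (2, 6), (3, 1), (3, 2), (3,
      4), (4, 3), (4, 5), (5, 4), (6, 2)]
    mix := [(0, 0), (0, 1), (1, 1), (1, 2), (2, 0), (2, 3), (2, 4), (2, 5), (3, 2), (3, 3), (3, 6), (4,
      2), (4, 6), (4, 7), (4, 8), (5, 2), (5, 7), (5, 9), (6, 0), (6, 5), (6, 9)]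
    cl := [0, 2, 1, 0, 6, 3, 1, 4, 7, 5]
    chq := [(0, 3), (1, 4), (3, 0), (4, 1)]
    rng := [(0, 1), (0, 9), (1, 0), (1, 2), (2, 1), (2, 9), (3, 4), (3, 6), (4, 3), (4, 5), (5, 4), (5,
      9), (6, 3), (6, 8), (7, 8), (7, 9), (8, 6), (8, 7), (9, 0), (9, 2), (9, 5), (9, 7)]
    lev := [] }
  links := [[1, 2, 7, 8], [2, 0, 8, 9, 3], [7, 0, 1, 3, 10, 11, 12, 6], [10, 2, 1, 9, 4, 13], [13, 3, 9,
    5, 14, 15], [14, 4, 9, 16], [7, 2, 12, 16]]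
  P := {
    a := 7
    N := 17
    nb := [390, 781, 7371, 9750, 57896, 82448, 69764, 65861, 643, 65850, 10252, 5124, 67652, 33816,
      98352, 24592, 21216]
    tri := [(0, 1, 2), (0, 1, 8), (0, 2, 7), (0, 7, 8), (1, 2, 3), (1, 3, 9), (1, 8, 9), (2, 3, 10),
      (2, 6, 7), (2, 6, 12), (2, 10, 11), (2, 11, 12), (3, 4, 9), (3, 4, 13), (3, 10, 13), (4, 5,
      9), (4, 5, 14), (4, 13, 15), (4, 14, 15), (5, 9, 16), (5, 14, 16), (6, 7, 16), (6, 12, 16)]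
    fin := [0, 0, 0, 0, 4, 4, 0, 0, 8, 4, 0, 11, 12, 4, 14, 15, 16]
    chd := [(0, 12), (4, 14)]
    steps := [(0, 1), (0, 2), (0, 3), (0, 6), (0, 7), (0, 10), (4, 5), (4, 9), (4, 13)] }
  rep := [0, 4, 8, 12, 14, 16, 11, 15]

noncomputable def v2509 : Cov.CovD where
  P := 3
  N := 5
  pl := [1, 4, 8, 9]
  lev := [⟨[], [], [], [2], [(0, 0, [3])]⟩,
    ⟨[], [(0, 0), (0, 1)], [], [2], [(2, 1, [4])]⟩,
    ⟨[(0, 1)], [(0, 0), (0, 3), (1, 0), (1, 1), (1, 3)], [(0, 0), (0, 3)], [6], [(0, 0,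
      [3]), (3, 0, [3]), (5, 3, [0])]⟩,
    ⟨[(0, 1), (0, 2), (1, 2)], [(1, 0), (1, 1), (2, 0), (2, 1), (2, 3)], [(0, 1), (1, 1)],
      [], [(2, 1, [4]), (3, 0, [3]), (6, 1, [4])]⟩,
    ⟨[(1, 3), (2, 3)], [(1, 1), (3, 0), (3, 1), (3, 4)], [(1, 1), (1, 4)], [7], [(2, 1,
      [4]), (6, 1, [4]), (7, 4, [1])]⟩,
    ⟨[(3, 4)], [(1, 1), (3, 1), (4, 1), (4, 4)], [(1, 4)], [5], [(2, 1, [4]), (7, 4, [1])]⟩,
    ⟨[(0, 2), (1, 2), (2, 3)], [(0, 0), (2, 0), (2, 3)], [(0, 3)], [5], [(0, 0, [3]), (5,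
      3, [0])]⟩]
  Ta := [((0, 1), 0, 2), ((0, 9), 0, 5), ((2, 1), 1, 2), ((2, 9), 1, 5), ((3, 4), 0, 6), ((3, 6),
    0, 1), ((6, 3), 1, 0), ((6, 8), 1, 7)]
  Tb := [((0, 1, 9), 0, 2, 5), ((1, 0, 2), 2, 0, 1), ((2, 1, 9), 1, 2, 5), ((3, 4, 6), 0, 6, 1),
    ((4, 3, 5), 6, 0, 3), ((5, 4, 9), 3, 6, 5), ((6, 3, 8), 1, 0, 7), ((7, 8, 9), 4, 7, 5),
    ((8, 6, 7), 7, 1, 4), ((9, 0, 2), 5, 0, 1), ((9, 0, 5), 5, 0, 3), ((9, 0, 7), 5, 0, 4),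
    ((9, 2, 5), 5, 1, 3), ((9, 2, 7), 5, 1, 4), ((9, 5, 7), 5, 3, 4)]
  Tc := []
  Td := [((0, 3), (0, 1), 2), ((0, 3), (0, 9), 5), ((0, 3), (3, 4), 6), ((0, 3), (3, 6), 1), ((1,
    4), (2, 1), 2), ((1, 4), (2, 9), 5), ((1, 4), (6, 3), 0), ((1, 4), (6, 8), 7), ((3, 0),
    (5, 4), 6), ((3, 0), (5, 9), 5), ((4, 1), (7, 8), 7), ((4, 1), (7, 9), 5)]
  G := [[0, 0, 0x2252e2de1de88c24a4ade15a884458d4644866de198894d8ca,
    0x6441222d222d9222d45a445a4ad44edda88c45866d88988edd481c,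
    0xa44da4adc122ed1e22d2e2dc568644866d88988eddc44ed18c1a], [0, 0,
    0x21122223c928e11e2a4adc9461181186a686cd8c6, 0,
    0x6666261d4e2a4ada4eed822322622ad8e18888a82d481a], [0, 0, 0,
    0x93c8448153d4816d319c11a11d11d824222d21d1298ce1c,
    0x144836d88951dc445a41dc98319c159d4111d919ce12], [0, 0x111111e2111111e46111111e28c8, 0,
    0, 0x31331942222321d4612331311d41248c98]]

noncomputable def n2509 : Ent := ⟨e2509, noF, [], [], []⟩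

def c2509 : PLift (Cov.check n2509.C.D v2509 = true) := ⟨by decide +kernel⟩

def b2509 : PLift (entF (fidx ts) 400 2509 n2509 = true) := ⟨by decide +kernel⟩

theorem g2509 : GoodF (fidx ts) 400 2509 := GoodF.ofV v2509 n2509 c2509.down b2509.down

/-- 4586644:1982/5 -/
noncomputable def e2510 : SCfg where
  D := {
    a := 7
    L := 10
    kp := 7
    inn := [(0, 1), (0, 2), (1, 0), (1, 2), (1, 3), (2, 0), (2, 1), (2, 3), (2, 6), (3, 1), (3, 2), (3,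
      4), (4, 3), (4, 5), (5, 4), (6, 2)]
    mix := [(0, 0), (0, 1), (1, 1), (1, 2), (2, 0), (2, 3), (2, 4), (2, 5), (3, 2), (3, 3), (3, 6), (4,
      2), (4, 6), (4, 7), (4, 8), (5, 2), (5, 7), (5, 9), (6, 0), (6, 5), (6, 7)]
    cl := [0, 2, 1, 0, 5, 4, 1, 3, 6, 7]
    chq := [(0, 4), (1, 3), (3, 1), (4, 0)]
    rng := [(0, 1), (0, 7), (1, 0), (1, 2), (2, 1), (2, 9), (3, 4), (3, 6), (4, 3), (4, 5), (5, 4), (5,
      7), (6, 3), (6, 8), (7, 0), (7, 5), (7, 8), (7, 9), (8, 6), (8, 7), (9, 2), (9, 7)]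
    lev := [] }
  links := [[1, 2, 7, 8], [2, 0, 8, 9, 3], [7, 0, 1, 3, 10, 11, 12, 6], [10, 2, 1, 9, 4, 13], [13, 3, 9,
    5, 14, 15], [14, 4, 9, 16], [7, 2, 12, 14]]
  P := {
    a := 7
    N := 17
    nb := [390, 781, 7371, 9750, 57896, 82448, 20612, 16709, 643, 65850, 10252, 5124, 18500, 33816,
      102640, 24592, 16928]
    tri := [(0, 1, 2), (0, 1, 8), (0, 2, 7), (0, 7, 8), (1, 2, 3), (1, 3, 9), (1, 8, 9), (2, 3, 10),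
      (2, 6, 7), (2, 6, 12), (2, 10, 11), (2, 11, 12), (3, 4, 9), (3, 4, 13), (3, 10, 13), (4, 5,
      9), (4, 5, 14), (4, 13, 15), (4, 14, 15), (5, 9, 16), (5, 14, 16), (6, 7, 14), (6, 12, 14)]
    fin := [0, 0, 0, 0, 4, 4, 0, 0, 8, 4, 0, 11, 12, 4, 14, 15, 16]
    chd := [(0, 12), (4, 14)]
    steps := [(0, 1), (0, 2), (0, 3), (0, 6), (0, 7), (0, 10), (4, 5), (4, 9), (4, 13)] }
  rep := [0, 4, 8, 14, 12, 11, 15, 16]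

noncomputable def v2510 : Cov.CovD where
  P := 3
  N := 5
  pl := [1, 4, 8, 9]
  lev := [⟨[], [], [], [2], [(0, 0, [4])]⟩,
    ⟨[], [(0, 0), (0, 1)], [], [2], [(2, 1, [3])]⟩,
    ⟨[(0, 1)], [(0, 0), (0, 4), (1, 0), (1, 1), (1, 4)], [(0, 0), (0, 4)], [5], [(0, 0,
      [4]), (3, 0, [4]), (5, 4, [0])]⟩,
    ⟨[(0, 1), (0, 2), (1, 2)], [(1, 0), (1, 1), (2, 0), (2, 1), (2, 4)], [(0, 1), (1, 1)],
      [], [(2, 1, [3]), (3, 0, [4]), (6, 1, [3])]⟩,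
    ⟨[(1, 3), (2, 3)], [(1, 1), (3, 0), (3, 1), (3, 3)], [(1, 1), (1, 3)], [6], [(2, 1,
      [3]), (6, 1, [3]), (7, 3, [1])]⟩,
    ⟨[(3, 4)], [(1, 1), (3, 1), (4, 1), (4, 3)], [(1, 3)], [7], [(2, 1, [3]), (7, 3, [1])]⟩,
    ⟨[(0, 2), (1, 2), (2, 3)], [(0, 0), (2, 0), (2, 3), (2, 4), (4, 3), (5, 3)], [(0, 3),
      (0, 4), (3, 4)], [], [(0, 0, [4]), (5, 4, [0]), (7, 3, [1])]⟩]
  Ta := [((0, 1), 0, 2), ((0, 7), 0, 3), ((2, 1), 1, 2), ((2, 9), 1, 7), ((3, 4), 0, 5), ((3, 6),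
    0, 1), ((6, 3), 1, 0), ((6, 8), 1, 6)]
  Tb := [((0, 1, 7), 0, 2, 3), ((1, 0, 2), 2, 0, 1), ((2, 1, 9), 1, 2, 7), ((3, 4, 6), 0, 5, 1),
    ((4, 3, 5), 5, 0, 4), ((5, 4, 7), 4, 5, 3), ((6, 3, 8), 1, 0, 6), ((7, 0, 5), 3, 0, 4),
    ((7, 0, 8), 3, 0, 6), ((7, 0, 9), 3, 0, 7), ((7, 5, 8), 3, 4, 6), ((7, 5, 9), 3, 4, 7),
    ((7, 8, 9), 3, 6, 7), ((8, 6, 7), 6, 1, 3), ((9, 2, 7), 7, 1, 3)]
  Tc := []
  Td := [((0, 4), (0, 1), 2), ((0, 4), (0, 7), 3), ((0, 4), (3, 4), 5), ((0, 4), (3, 6), 1), ((1,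
    3), (2, 1), 2), ((1, 3), (2, 9), 7), ((1, 3), (6, 3), 0), ((1, 3), (6, 8), 6), ((3, 1),
    (7, 0), 0), ((3, 1), (7, 5), 4), ((3, 1), (7, 8), 6), ((3, 1), (7, 9), 7), ((4, 0), (5,
    4), 5), ((4, 0), (5, 7), 3)]
  G := [[0, 0, 0x66541aa981aa9612eedd6445e8a4ed144549488986ed948c6,
    0x44444da4edd84161166545aa981244222d229222ddce888d88868dd489c,
    0xa62d16a2d225c528644888d86986eddc4a5444da4edda88ccc944e1a], [0, 0,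
    0xc2a2c3c26d428424455846867182665c52a27a298cc6, 0,
    0x2c3c2ac26d82182862b868bd4a244474a47d8c1a], [0, 0, 0,
    0x33911111dd411445343dd188c22984e11448225222d58a4c,
    0x14488961833ddc11445943dd188c515111d59998ce12], [0, 0x111111e2111111e21121111cae84, 0,
    0, 0x15a32358898c44549229279c11351511ad8e12]]

noncomputable def n2510 : Ent := ⟨e2510, noF, [], [], [(8, 16, [1580044410770988437309982408355971841652082177953823432505699377153, 0])]⟩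

def c2510 : PLift (Cov.check n2510.C.D v2510 = true) := ⟨by decide +kernel⟩

def b2510 : PLift (entF (fidx ts) 400 2510 n2510 = true) := ⟨by decide +kernel⟩

theorem g2510 : GoodF (fidx ts) 400 2510 := GoodF.ofV v2510 n2510 c2510.down b2510.down

/-- 4586644:1982/6 -/
noncomputable def e2511 : SCfg where
  D := {
    a := 7
    L := 10
    kp := 7
    inn := [(0, 1), (0, 2), (1, 0), (1, 2), (1, 3), (2, 0), (2, 1), (2, 3), (2, 6), (3, 1), (3, 2), (3,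
      4), (4, 3), (4, 5), (5, 4), (6, 2)]
    mix := [(0, 0), (0, 1), (1, 1), (1, 2), (2, 0), (2, 3), (2, 4), (2, 5), (3, 2), (3, 3), (3, 6), (4,
      2), (4, 6), (4, 7), (4, 8), (5, 2), (5, 7), (5, 9), (6, 0), (6, 5), (6, 8)]
    cl := [0, 2, 1, 0, 6, 3, 1, 4, 5, 7]
    chq := [(0, 3), (1, 4), (3, 0), (4, 1)]
    rng := [(0, 1), (0, 8), (1, 0), (1, 2), (2, 1), (2, 9), (3, 4), (3, 6), (4, 3), (4, 5), (5, 4), (5,
      8), (6, 3), (6, 8), (7, 8), (7, 9), (8, 0), (8, 5), (8, 6), (8, 7), (9, 2), (9, 7)]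
    lev := [] }
  links := [[1, 2, 7, 8], [2, 0, 8, 9, 3], [7, 0, 1, 3, 10, 11, 12, 6], [10, 2, 1, 9, 4, 13], [13, 3, 9,
    5, 14, 15], [14, 4, 9, 16], [7, 2, 12, 15]]
  P := {
    a := 7
    N := 17
    nb := [390, 781, 7371, 9750, 57896, 82448, 36996, 33093, 643, 65850, 10252, 5124, 34884, 33816,
      98352, 28880, 16928]
    tri := [(0, 1, 2), (0, 1, 8), (0, 2, 7), (0, 7, 8), (1, 2, 3), (1, 3, 9), (1, 8, 9), (2, 3, 10),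
      (2, 6, 7), (2, 6, 12), (2, 10, 11), (2, 11, 12), (3, 4, 9), (3, 4, 13), (3, 10, 13), (4, 5,
      9), (4, 5, 14), (4, 13, 15), (4, 14, 15), (5, 9, 16), (5, 14, 16), (6, 7, 15), (6, 12, 15)]
    fin := [0, 0, 0, 0, 4, 4, 0, 0, 8, 4, 0, 11, 12, 4, 14, 15, 16]
    chd := [(0, 12), (4, 14)]
    steps := [(0, 1), (0, 2), (0, 3), (0, 6), (0, 7), (0, 10), (4, 5), (4, 9), (4, 13)] }
  rep := [0, 4, 8, 12, 14, 15, 11, 16]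

noncomputable def v2511 : Cov.CovD where
  P := 3
  N := 5
  pl := [1, 4, 8, 9]
  lev := [⟨[], [], [], [2], [(0, 0, [3])]⟩,
    ⟨[], [(0, 0), (0, 1)], [], [2], [(2, 1, [4])]⟩,
    ⟨[(0, 1)], [(0, 0), (0, 3), (1, 0), (1, 1), (1, 3)], [(0, 0), (0, 3)], [6], [(0, 0,
      [3]), (3, 0, [3]), (5, 3, [0])]⟩,
    ⟨[(0, 1), (0, 2), (1, 2)], [(1, 0), (1, 1), (2, 0), (2, 1), (2, 3)], [(0, 1), (1, 1)],
      [], [(2, 1, [4]), (3, 0, [3]), (6, 1, [4])]⟩,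
    ⟨[(1, 3), (2, 3)], [(1, 1), (3, 0), (3, 1), (3, 4)], [(1, 1), (1, 4)], [5], [(2, 1,
      [4]), (6, 1, [4]), (7, 4, [1])]⟩,
    ⟨[(3, 4)], [(1, 1), (3, 1), (4, 1), (4, 4)], [(1, 4)], [7], [(2, 1, [4]), (7, 4, [1])]⟩,
    ⟨[(0, 2), (1, 2), (2, 3)], [(0, 0), (2, 0), (2, 3)], [(0, 3)], [5], [(0, 0, [3]), (5,
      3, [0])]⟩]
  Ta := [((0, 1), 0, 2), ((0, 8), 0, 5), ((2, 1), 1, 2), ((2, 9), 1, 7), ((3, 4), 0, 6), ((3, 6),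
    0, 1), ((6, 3), 1, 0), ((6, 8), 1, 5)]
  Tb := [((0, 1, 8), 0, 2, 5), ((1, 0, 2), 2, 0, 1), ((2, 1, 9), 1, 2, 7), ((3, 4, 6), 0, 6, 1),
    ((4, 3, 5), 6, 0, 3), ((5, 4, 8), 3, 6, 5), ((6, 3, 8), 1, 0, 5), ((7, 8, 9), 4, 5, 7),
    ((8, 0, 5), 5, 0, 3), ((8, 0, 6), 5, 0, 1), ((8, 0, 7), 5, 0, 4), ((8, 5, 6), 5, 3, 1),
    ((8, 5, 7), 5, 3, 4), ((8, 6, 7), 5, 1, 4), ((9, 2, 7), 7, 1, 4)]
  Tc := []
  Td := [((0, 3), (0, 1), 2), ((0, 3), (0, 8), 5), ((0, 3), (3, 4), 6), ((0, 3), (3, 6), 1), ((1,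
    4), (2, 1), 2), ((1, 4), (2, 9), 7), ((1, 4), (6, 3), 0), ((1, 4), (6, 8), 5), ((3, 0),
    (5, 4), 6), ((3, 0), (5, 8), 5), ((4, 1), (7, 8), 5), ((4, 1), (7, 9), 7)]
  G := [[0, 0, 0x2422c222dd288c2444c4aed5aac8c488c68ed966c458ca,
    0x444d4e95a88c4166c4888d8168eddcaa5a498222d222d5222d8ce1c,
    0x222d1222d222dc528644888d68968eddc41444d4aeddaac8cc1a], [0, 0,
    0xe2e22227d4284434ea5aac89468ed18262c58c6, 0,
    0x2e622ae23d4286664888ee639ca434464aedd8c1a], [0, 0, 0,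
    0x44c491d51ac8c4111c113d588c8c2422c222dd288ca1c,
    0x11c131d588c8c1444c413dd188cc122c222d522c8c283], [0, 0x111111e2111111e8111111e8e48, 0,
    0, 0x31c11a353d492423417d82252612bd8e18]]

noncomputable def n2511 : Ent := ⟨e2511, noF, [], [], [(8, 16, [1580044410770988437309982408355971841652082177953823432505699381249, 0])]⟩

def c2511 : PLift (Cov.check n2511.C.D v2511 = true) := ⟨by decide +kernel⟩

def b2511 : PLift (entF (fidx ts) 400 2511 n2511 = true) := ⟨by decide +kernel⟩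

theorem g2511 : GoodF (fidx ts) 400 2511 := GoodF.ofV v2511 n2511 c2511.down b2511.down

/-- 4586644:1982 -/
noncomputable def e2512 : SCfg where
  D := {
    a := 7
    L := 11
    kp := 8
    inn := [(0, 1), (0, 2), (1, 0), (1, 2), (1, 3), (2, 0), (2, 1), (2, 3), (2, 6), (3, 1), (3, 2), (3,
      4), (4, 3), (4, 5), (5, 4), (6, 2)]
    mix := [(0, 0), (0, 1), (1, 1), (1, 2), (2, 0), (2, 3), (2, 4), (2, 5), (3, 2), (3, 3), (3, 6), (4,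
      2), (4, 6), (4, 7), (4, 8), (5, 2), (5, 7), (5, 9), (6, 0), (6, 5), (6, 10)]
    cl := [1, 2, 0, 1, 5, 4, 0, 3, 7, 8, 6]
    chq := [(0, 3), (3, 0), (5, 6), (6, 5)]
    rng := [(0, 1), (0, 10), (1, 0), (1, 2), (2, 1), (2, 9), (3, 4), (3, 6), (4, 3), (4, 5), (5, 4),
      (5, 10), (6, 3), (6, 8), (7, 8), (7, 9), (8, 6), (8, 7), (9, 2), (9, 7), (10, 0), (10, 5)]
    lev := [] }
  links := [[1, 2, 7, 8], [2, 0, 8, 9, 3], [7, 0, 1, 3, 10, 11, 12, 6], [10, 2, 1, 9, 4, 13], [13, 3, 9,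
    5, 14, 15], [14, 4, 9, 16], [7, 2, 12, 17]]
  P := {
    a := 7
    N := 18
    nb := [390, 781, 7371, 9750, 57896, 82448, 135300, 131397, 643, 65850, 10252, 5124, 133188, 33816,
      98352, 24592, 16928, 4288]
    tri := [(0, 1, 2), (0, 1, 8), (0, 2, 7), (0, 7, 8), (1, 2, 3), (1, 3, 9), (1, 8, 9), (2, 3, 10),
      (2, 6, 7), (2, 6, 12), (2, 10, 11), (2, 11, 12), (3, 4, 9), (3, 4, 13), (3, 10, 13), (4, 5,
      9), (4, 5, 14), (4, 13, 15), (4, 14, 15), (5, 9, 16), (5, 14, 16), (6, 7, 17), (6, 12, 17)]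
    fin := [0, 0, 2, 0, 4, 4, 2, 0, 8, 4, 0, 2, 12, 4, 14, 15, 16, 17]
    chd := [(2, 17), (4, 14)]
    steps := [(0, 1), (0, 3), (0, 7), (0, 10), (2, 6), (2, 11), (4, 5), (4, 9), (4, 13)] }
  rep := [4, 0, 8, 14, 12, 2, 17, 15, 16]

noncomputable def v2512 : Cov.CovD where
  P := 3
  N := 6
  pl := [1, 5, 8, 9]
  lev := [⟨[], [], [], [2], [(0, 1, [])]⟩,
    ⟨[], [(0, 0), (0, 1)], [], [2], [(2, 0, [3])]⟩,
    ⟨[(0, 1)], [(0, 1), (0, 5), (1, 0), (1, 1), (1, 5)], [(1, 1), (1, 5)], [4], [(0, 1,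
      []), (3, 1, []), (4, 5, [6])]⟩,
    ⟨[(0, 1), (0, 2), (1, 2)], [(1, 0), (1, 1), (2, 0), (2, 1), (2, 5)], [(0, 0), (0, 1)],
      [], [(2, 0, [3]), (3, 1, []), (6, 0, [3])]⟩,
    ⟨[(1, 3), (2, 3)], [(1, 0), (3, 0), (3, 1), (3, 3)], [(0, 0), (0, 3)], [7], [(2, 0,
      [3]), (6, 0, [3]), (7, 3, [0])]⟩,
    ⟨[(3, 4)], [(1, 0), (3, 0), (4, 0), (4, 3)], [(0, 3)], [8], [(2, 0, [3]), (7, 3, [0])]⟩,
    ⟨[(0, 2), (1, 2), (2, 3)], [(0, 1), (2, 1), (2, 5), (2, 6)], [(1, 6)], [4], [(0, 1,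
      []), (10, 6, [5])]⟩]
  Ta := [((0, 1), 1, 2), ((0, 10), 1, 6), ((2, 1), 0, 2), ((2, 9), 0, 8), ((3, 4), 1, 5), ((3,
    6), 1, 0), ((6, 3), 0, 1), ((6, 8), 0, 7)]
  Tb := [((0, 1, 10), 1, 2, 6), ((1, 0, 2), 2, 1, 0), ((2, 1, 9), 0, 2, 8), ((3, 4, 6), 1, 5, 0),
    ((4, 3, 5), 5, 1, 4), ((5, 4, 10), 4, 5, 6), ((6, 3, 8), 0, 1, 7), ((7, 8, 9), 3, 7, 8),
    ((8, 6, 7), 7, 0, 3), ((9, 2, 7), 8, 0, 3), ((10, 0, 5), 6, 1, 4)]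
  Tc := []
  Td := [((0, 3), (2, 1), 2), ((0, 3), (2, 9), 8), ((0, 3), (6, 3), 1), ((0, 3), (6, 8), 7), ((3,
    0), (7, 8), 7), ((3, 0), (7, 9), 8), ((5, 6), (4, 3), 1), ((5, 6), (4, 5), 4), ((6, 5),
    (10, 0), 1), ((6, 5), (10, 5), 4)]
  G := [[0, 0, 0x999e999e6999e8c42555e2555e555ecaccce2ccceccceca94c,
    0x555e555ea555e46999e999e6999e8accce2cccecccec6d84,
    0x555e2555e555ec6999e999e6999e8accceccaccceec446d81], [0, 0,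
    0x29ae8448662e4e65e362eac9a3e2a9e68226226ea26eea88cd2c, 0,
    0x223e4233e556eac392ea29e6322e8c66ce46cae2a2eacd21], [0, 0, 0,
    0x9932999995c6cc5cc9cc3e45559553a555468c8, 0xcc9cc3cc5e418555e559553e49997999d91e8c29],
    [0, 0x919191e2111111e468616161e2849, 0, 0, 0x655239633e49a3325a327e82256a92a3e4d28]]

noncomputable def n2512 : Ent := ⟨e2512, noF, [], [], [(8, 16, [7334685537875745012586738086077695515070955365108989538292687703949313, 0]), (16, 17, [6903326391201334775872065844685381424292761054348340378595029939965953, 0]), (14, 17, [6903326391201334775872065844685381424292761054348340378595029939970049, 0]), (15, 17, [6903326391201334775872065844685381424292761054348340378595029939974145, 0])]⟩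

def c2512 : PLift (Cov.check n2512.C.D v2512 = true) := ⟨by decide +kernel⟩

def b2512 : PLift (entF (fidx ts) 400 2512 n2512 = true) := ⟨by decide +kernel⟩

theorem g2512 : GoodF (fidx ts) 400 2512 := GoodF.ofV v2512 n2512 c2512.down b2512.down

/-- 4586464:1983/1 -/
noncomputable def e2513 : SCfg where
  D := {
    a := 7
    L := 10
    kp := 7
    inn := [(0, 1), (0, 2), (1, 0), (1, 2), (1, 3), (2, 0), (2, 1), (2, 3), (2, 4), (3, 1), (3, 2), (3,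
      5), (4, 2), (5, 3), (5, 6), (6, 5)]
    mix := [(0, 0), (0, 1), (1, 1), (1, 2), (2, 0), (2, 3), (2, 4), (2, 5), (3, 2), (3, 3), (3, 6), (4,
      0), (4, 5), (4, 7), (5, 2), (5, 6), (5, 7), (5, 8), (6, 6), (6, 8), (6, 9)]
    cl := [0, 2, 1, 0, 6, 3, 1, 5, 4, 7]
    chq := [(0, 3), (1, 4), (3, 0), (4, 1)]
    rng := [(0, 1), (0, 7), (1, 0), (1, 2), (2, 1), (2, 7), (3, 4), (3, 6), (4, 3), (4, 5), (5, 4), (5,
      7), (6, 3), (6, 9), (7, 0), (7, 2), (7, 5), (7, 8), (8, 7), (8, 9), (9, 6), (9, 8)]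
    lev := [] }
  links := [[1, 2, 7, 8], [2, 0, 8, 9, 3], [7, 0, 1, 3, 10, 11, 12, 4], [10, 2, 1, 9, 5, 13], [7, 2, 12,
    14], [13, 3, 9, 14, 15, 6], [13, 5, 15, 16]]
  P := {
    a := 7
    N := 17
    nb := [390, 781, 7323, 9766, 20612, 57928, 106528, 16661, 643, 16682, 10252, 5124, 18452, 66664,
      37552, 82016, 41024]
    tri := [(0, 1, 2), (0, 1, 8), (0, 2, 7), (0, 7, 8), (1, 2, 3), (1, 3, 9), (1, 8, 9), (2, 3, 10),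
      (2, 4, 7), (2, 4, 12), (2, 10, 11), (2, 11, 12), (3, 5, 9), (3, 5, 13), (3, 10, 13), (4, 7,
      14), (4, 12, 14), (5, 6, 13), (5, 6, 15), (5, 9, 14), (5, 14, 15), (6, 13, 16), (6, 15, 16)]
    fin := [0, 0, 0, 0, 0, 5, 5, 0, 8, 5, 0, 11, 12, 5, 14, 15, 16]
    chd := [(0, 12), (5, 15)]
    steps := [(0, 1), (0, 2), (0, 3), (0, 4), (0, 7), (0, 10), (5, 6), (5, 9), (5, 13)] }
  rep := [0, 5, 8, 12, 15, 14, 11, 16]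

noncomputable def v2513 : Cov.CovD where
  P := 3
  N := 5
  pl := [1, 4, 7, 9]
  lev := [⟨[], [], [], [2], [(0, 0, [3])]⟩,
    ⟨[], [(0, 0), (0, 1)], [], [2], [(2, 1, [4])]⟩,
    ⟨[(0, 1)], [(0, 0), (0, 3), (1, 0), (1, 1), (1, 3)], [(0, 0), (0, 3)], [6], [(0, 0,
      [3]), (3, 0, [3]), (5, 3, [0])]⟩,
    ⟨[(0, 1), (0, 2), (1, 2)], [(1, 0), (1, 1), (2, 0), (2, 1), (2, 3)], [(0, 1), (1, 1)],
      [], [(2, 1, [4]), (3, 0, [3]), (6, 1, [4])]⟩,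
    ⟨[(0, 2), (1, 2), (2, 3)], [(0, 0), (2, 0), (2, 3)], [(0, 3)], [5], [(0, 0, [3]), (5,
      3, [0])]⟩,
    ⟨[(1, 3), (2, 3)], [(1, 1), (3, 0), (3, 1), (3, 4)], [(1, 1), (1, 4)], [5], [(2, 1,
      [4]), (6, 1, [4]), (8, 4, [1])]⟩,
    ⟨[(3, 5)], [(3, 1), (5, 1), (5, 4)], [(1, 4)], [7], [(6, 1, [4]), (8, 4, [1])]⟩]
  Ta := [((0, 1), 0, 2), ((0, 7), 0, 5), ((2, 1), 1, 2), ((2, 7), 1, 5), ((3, 4), 0, 6), ((3, 6),
    0, 1), ((6, 3), 1, 0), ((6, 9), 1, 7)]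
  Tb := [((0, 1, 7), 0, 2, 5), ((1, 0, 2), 2, 0, 1), ((2, 1, 7), 1, 2, 5), ((3, 4, 6), 0, 6, 1),
    ((4, 3, 5), 6, 0, 3), ((5, 4, 7), 3, 6, 5), ((6, 3, 9), 1, 0, 7), ((7, 0, 2), 5, 0, 1),
    ((7, 0, 5), 5, 0, 3), ((7, 0, 8), 5, 0, 4), ((7, 2, 5), 5, 1, 3), ((7, 2, 8), 5, 1, 4),
    ((7, 5, 8), 5, 3, 4), ((8, 7, 9), 4, 5, 7), ((9, 6, 8), 7, 1, 4)]
  Tc := []
  Td := [((0, 3), (0, 1), 2), ((0, 3), (0, 7), 5), ((0, 3), (3, 4), 6), ((0, 3), (3, 6), 1), ((1,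
    4), (2, 1), 2), ((1, 4), (2, 7), 5), ((1, 4), (6, 3), 0), ((1, 4), (6, 9), 7), ((3, 0),
    (5, 4), 6), ((3, 0), (5, 7), 5), ((4, 1), (8, 7), 5), ((4, 1), (8, 9), 7)]
  G := [[0, 0, 0x782424e122922522dde8a42121ca392c8c4cd4219191e48c6,
    0x229225c2292c222d2461229225225e481c, 0x22522c3a6de421d29295295e4259d25639e8c1a], [0, 0,
    0x914c59c59ac44d42cd52c8292c95c956c598c86c, 0,
    0xd12ddc2528c95c46d15d91ac1d9d4c59c59acc1a], [0, 0, 0, 0x28225225b4222d18222d24e14,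
    0x25927594644a392e93c295227d58e12], [0, 0xe21eec16ee61e81ae22eec1ae48, 0, 0,
    0x441c8d18d5bcc44cd91cc1442c8dd2c283]]

noncomputable def n2513 : Ent := ⟨e2513, noF, [], [], []⟩

def c2513 : PLift (Cov.check n2513.C.D v2513 = true) := ⟨by decide +kernel⟩

def b2513 : PLift (entF (fidx ts) 400 2513 n2513 = true) := ⟨by decide +kernel⟩

theorem g2513 : GoodF (fidx ts) 400 2513 := GoodF.ofV v2513 n2513 c2513.down b2513.down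

/-- 4586464:1983/2 -/
noncomputable def e2514 : SCfg where
  D := {
    a := 7
    L := 10
    kp := 7
    inn := [(0, 1), (0, 2), (1, 0), (1, 2), (1, 3), (2, 0), (2, 1), (2, 3), (2, 4), (3, 1), (3, 2), (3,
      5), (4, 2), (5, 3), (5, 6), (6, 5)]
    mix := [(0, 0), (0, 1), (1, 1), (1, 2), (2, 0), (2, 3), (2, 4), (2, 5), (3, 2), (3, 3), (3, 6), (4,
      0), (4, 5), (4, 7), (5, 2), (5, 6), (5, 7), (5, 8), (6, 6), (6, 7), (6, 9)]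
    cl := [0, 2, 1, 0, 5, 4, 1, 3, 6, 7]
    chq := [(0, 4), (1, 3), (3, 1), (4, 0)]
    rng := [(0, 1), (0, 7), (1, 0), (1, 2), (2, 1), (2, 8), (3, 4), (3, 6), (4, 3), (4, 5), (5, 4), (5,
      7), (6, 3), (6, 9), (7, 0), (7, 5), (7, 8), (7, 9), (8, 2), (8, 7), (9, 6), (9, 7)]
    lev := [] }
  links := [[1, 2, 7, 8], [2, 0, 8, 9, 3], [7, 0, 1, 3, 10, 11, 12, 4], [10, 2, 1, 9, 5, 13], [7, 2, 12,
    14], [13, 3, 9, 15, 14, 6], [13, 5, 14, 16]]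
  P := {
    a := 7
    N := 17
    nb := [390, 781, 7323, 9766, 20612, 57928, 90144, 16661, 643, 33066, 10252, 5124, 18452, 66664,
      102640, 16928, 24640]
    tri := [(0, 1, 2), (0, 1, 8), (0, 2, 7), (0, 7, 8), (1, 2, 3), (1, 3, 9), (1, 8, 9), (2, 3, 10),
      (2, 4, 7), (2, 4, 12), (2, 10, 11), (2, 11, 12), (3, 5, 9), (3, 5, 13), (3, 10, 13), (4, 7,
      14), (4, 12, 14), (5, 6, 13), (5, 6, 14), (5, 9, 15), (5, 14, 15), (6, 13, 16), (6, 14, 16)]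
    fin := [0, 0, 0, 0, 0, 5, 5, 0, 8, 5, 0, 11, 12, 5, 14, 15, 16]
    chd := [(0, 12), (5, 14)]
    steps := [(0, 1), (0, 2), (0, 3), (0, 4), (0, 7), (0, 10), (5, 6), (5, 9), (5, 13)] }
  rep := [0, 5, 8, 14, 12, 11, 15, 16]

noncomputable def v2514 : Cov.CovD where
  P := 3
  N := 5
  pl := [1, 4, 8, 9]
  lev := [⟨[], [], [], [2], [(0, 0, [4])]⟩,
    ⟨[], [(0, 0), (0, 1)], [], [2], [(2, 1, [3])]⟩,
    ⟨[(0, 1)], [(0, 0), (0, 4), (1, 0), (1, 1), (1, 4)], [(0, 0), (0, 4)], [5], [(0, 0,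
      [4]), (3, 0, [4]), (5, 4, [0])]⟩,
    ⟨[(0, 1), (0, 2), (1, 2)], [(1, 0), (1, 1), (2, 0), (2, 1), (2, 4)], [(0, 1), (1, 1)],
      [], [(2, 1, [3]), (3, 0, [4]), (6, 1, [3])]⟩,
    ⟨[(0, 2), (1, 2), (2, 3)], [(0, 0), (2, 0), (2, 3), (2, 4)], [(0, 3), (0, 4), (3, 4)],
      [], [(0, 0, [4]), (5, 4, [0]), (7, 3, [1])]⟩,
    ⟨[(1, 3), (2, 3)], [(1, 1), (3, 0), (3, 1), (3, 3), (4, 3)], [(1, 1), (1, 3)], [6],
      [(2, 1, [3]), (6, 1, [3]), (7, 3, [1])]⟩,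
    ⟨[(3, 5)], [(3, 1), (4, 3), (5, 1), (5, 3)], [(1, 3)], [7], [(6, 1, [3]), (7, 3, [1])]⟩]
  Ta := [((0, 1), 0, 2), ((0, 7), 0, 3), ((2, 1), 1, 2), ((2, 8), 1, 6), ((3, 4), 0, 5), ((3, 6),
    0, 1), ((6, 3), 1, 0), ((6, 9), 1, 7)]
  Tb := [((0, 1, 7), 0, 2, 3), ((1, 0, 2), 2, 0, 1), ((2, 1, 8), 1, 2, 6), ((3, 4, 6), 0, 5, 1),
    ((4, 3, 5), 5, 0, 4), ((5, 4, 7), 4, 5, 3), ((6, 3, 9), 1, 0, 7), ((7, 0, 5), 3, 0, 4),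
    ((7, 0, 8), 3, 0, 6), ((7, 0, 9), 3, 0, 7), ((7, 5, 8), 3, 4, 6), ((7, 5, 9), 3, 4, 7),
    ((7, 8, 9), 3, 6, 7), ((8, 2, 7), 6, 1, 3), ((9, 6, 7), 7, 1, 3)]
  Tc := []
  Td := [((0, 4), (0, 1), 2), ((0, 4), (0, 7), 3), ((0, 4), (3, 4), 5), ((0, 4), (3, 6), 1), ((1,
    3), (2, 1), 2), ((1, 3), (2, 8), 6), ((1, 3), (6, 3), 0), ((1, 3), (6, 9), 7), ((3, 1),
    (7, 0), 0), ((3, 1), (7, 5), 4), ((3, 1), (7, 8), 6), ((3, 1), (7, 9), 7), ((4, 0), (5,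
    4), 5), ((4, 0), (5, 7), 3)]
  G := [[0, 0, 0x229229a544599c995222de46215162424658c51484929848ca,
    0x225225642254229229ac222d28e12298481c, 0x225365646253a962298c99c955222de4e1a298481a],
    [0, 0, 0x9c99599d9e5425291555199e9888a9469995151e54546584a, 0,
    0xd9dd24425285555556d89d8c91d55cd8d99ac148d595c8e1a], [0, 0, 0,
    0x229222d342422958222d28e18, 0x98225999b42899232d345451822978c98], [0,
    0xee61e81a4ee61e81ae22eec1aac4, 0, 0, 0x5d55d53988c541d91d978888ac5d51981ce12]]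

noncomputable def n2514 : Ent := ⟨e2514, noF, [], [], []⟩

def c2514 : PLift (Cov.check n2514.C.D v2514 = true) := ⟨by decide +kernel⟩

def b2514 : PLift (entF (fidx ts) 400 2514 n2514 = true) := ⟨by decide +kernel⟩

theorem g2514 : GoodF (fidx ts) 400 2514 := GoodF.ofV v2514 n2514 c2514.down b2514.down

/-- 4586464:1983/3 -/
noncomputable def e2515 : SCfg where
  D := {
    a := 7
    L := 10
    kp := 7
    inn := [(0, 1), (0, 2), (1, 0), (1, 2), (1, 3), (2, 0), (2, 1), (2, 3), (2, 4), (3, 1), (3, 2), (3,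
      5), (4, 2), (5, 3), (5, 6), (6, 5)]
    mix := [(0, 0), (0, 1), (1, 1), (1, 2), (2, 0), (2, 3), (2, 4), (2, 5), (3, 2), (3, 3), (3, 6), (4,
      0), (4, 5), (4, 7), (5, 2), (5, 6), (5, 8), (5, 9), (6, 6), (6, 7), (6, 9)]
    cl := [0, 2, 1, 0, 6, 3, 1, 5, 7, 4]
    chq := [(0, 3), (1, 4), (3, 0), (4, 1)]
    rng := [(0, 1), (0, 7), (1, 0), (1, 2), (2, 1), (2, 8), (3, 4), (3, 6), (4, 3), (4, 5), (5, 4), (5,
      7), (6, 3), (6, 7), (7, 0), (7, 5), (7, 6), (7, 9), (8, 2), (8, 9), (9, 7), (9, 8)]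
    lev := [] }
  links := [[1, 2, 7, 8], [2, 0, 8, 9, 3], [7, 0, 1, 3, 10, 11, 12, 4], [10, 2, 1, 9, 5, 13], [7, 2, 12,
    14], [13, 3, 9, 15, 16, 6], [13, 5, 16, 14]]
  P := {
    a := 7
    N := 17
    nb := [390, 781, 7323, 9766, 20612, 107080, 90144, 16661, 643, 33066, 10252, 5124, 18452, 17512,
      78032, 66080, 49248]
    tri := [(0, 1, 2), (0, 1, 8), (0, 2, 7), (0, 7, 8), (1, 2, 3), (1, 3, 9), (1, 8, 9), (2, 3, 10),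
      (2, 4, 7), (2, 4, 12), (2, 10, 11), (2, 11, 12), (3, 5, 9), (3, 5, 13), (3, 10, 13), (4, 7,
      14), (4, 12, 14), (5, 6, 13), (5, 6, 16), (5, 9, 15), (5, 15, 16), (6, 13, 14), (6, 14, 16)]
    fin := [0, 0, 0, 0, 0, 5, 5, 0, 8, 5, 0, 11, 12, 5, 14, 15, 16]
    chd := [(0, 12), (5, 16)]
    steps := [(0, 1), (0, 2), (0, 3), (0, 4), (0, 7), (0, 10), (5, 6), (5, 9), (5, 13)] }
  rep := [0, 5, 8, 12, 16, 14, 11, 15]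

noncomputable def v2515 : Cov.CovD where
  P := 3
  N := 5
  pl := [1, 4, 7, 8]
  lev := [⟨[], [], [], [2], [(0, 0, [3])]⟩,
    ⟨[], [(0, 0), (0, 1)], [], [2], [(2, 1, [4])]⟩,
    ⟨[(0, 1)], [(0, 0), (0, 3), (1, 0), (1, 1), (1, 3)], [(0, 0), (0, 3)], [6], [(0, 0,
      [3]), (3, 0, [3]), (5, 3, [0])]⟩,
    ⟨[(0, 1), (0, 2), (1, 2)], [(1, 0), (1, 1), (2, 0), (2, 1), (2, 3)], [(0, 1), (1, 1)],
      [], [(2, 1, [4]), (3, 0, [3]), (6, 1, [4])]⟩,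
    ⟨[(0, 2), (1, 2), (2, 3)], [(0, 0), (2, 0), (2, 3)], [(0, 3)], [5], [(0, 0, [3]), (5,
      3, [0])]⟩,
    ⟨[(1, 3), (2, 3)], [(1, 1), (3, 0), (3, 1), (3, 4)], [(1, 1), (1, 4)], [7], [(2, 1,
      [4]), (6, 1, [4]), (9, 4, [1])]⟩,
    ⟨[(3, 5)], [(3, 1), (5, 1), (5, 4)], [(1, 4)], [5], [(6, 1, [4]), (9, 4, [1])]⟩]
  Ta := [((0, 1), 0, 2), ((0, 7), 0, 5), ((2, 1), 1, 2), ((2, 8), 1, 7), ((3, 4), 0, 6), ((3, 6),
    0, 1), ((6, 3), 1, 0), ((6, 7), 1, 5)]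
  Tb := [((0, 1, 7), 0, 2, 5), ((1, 0, 2), 2, 0, 1), ((2, 1, 8), 1, 2, 7), ((3, 4, 6), 0, 6, 1),
    ((4, 3, 5), 6, 0, 3), ((5, 4, 7), 3, 6, 5), ((6, 3, 7), 1, 0, 5), ((7, 0, 5), 5, 0, 3),
    ((7, 0, 6), 5, 0, 1), ((7, 0, 9), 5, 0, 4), ((7, 5, 6), 5, 3, 1), ((7, 5, 9), 5, 3, 4),
    ((7, 6, 9), 5, 1, 4), ((8, 2, 9), 7, 1, 4), ((9, 7, 8), 4, 5, 7)]
  Tc := []
  Td := [((0, 3), (0, 1), 2), ((0, 3), (0, 7), 5), ((0, 3), (3, 4), 6), ((0, 3), (3, 6), 1), ((1,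
    4), (2, 1), 2), ((1, 4), (2, 8), 7), ((1, 4), (6, 3), 0), ((1, 4), (6, 7), 5), ((3, 0),
    (5, 4), 6), ((3, 0), (5, 7), 5), ((4, 1), (9, 7), 5), ((4, 1), (9, 8), 7)]
  G := [[0, 0, 0x83c44c1231d28a4219231d6424415c819819a28246dc21848c6,
    0x222d242d222de841822d222d221de4222d28a1c, 0x321d246d321de82bdd24618a2d621d321de481a],
    [0, 0, 0x915541d11e8428889ca1819819d91de444444e56444156891d51958ec8ac, 0,
    0x91554dd915e8888ac4444689cd819d9ddec6144446899d559559ec81a], [0, 0, 0,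
    0x222d222d34222d18222d28e18, 0x8828315621df424321d33192c321d14e12], [0,
    0xeaee14416e21eec1aee61e81ae84, 0, 0,
    0xd4188d199c415446591d891d3c614154153891d5858dc81a]]

noncomputable def n2515 : Ent := ⟨e2515, noF, [], [], []⟩

def c2515 : PLift (Cov.check n2515.C.D v2515 = true) := ⟨by decide +kernel⟩

def b2515 : PLift (entF (fidx ts) 400 2515 n2515 = true) := ⟨by decide +kernel⟩

theorem g2515 : GoodF (fidx ts) 400 2515 := GoodF.ofV v2515 n2515 c2515.down b2515.down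

/-- 4586464:1983 -/
noncomputable def e2516 : SCfg where
  D := {
    a := 7
    L := 11
    kp := 8
    inn := [(0, 1), (0, 2), (1, 0), (1, 2), (1, 3), (2, 0), (2, 1), (2, 3), (2, 4), (3, 1), (3, 2), (3,
      5), (4, 2), (5, 3), (5, 6), (6, 5)]
    mix := [(0, 0), (0, 1), (1, 1), (1, 2), (2, 0), (2, 3), (2, 4), (2, 5), (3, 2), (3, 3), (3, 6), (4,
      0), (4, 5), (4, 7), (5, 2), (5, 6), (5, 8), (5, 9), (6, 6), (6, 9), (6, 10)]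
    cl := [0, 2, 1, 0, 7, 3, 1, 8, 5, 4, 6]
    chq := [(0, 3), (3, 0), (5, 6), (6, 5)]
    rng := [(0, 1), (0, 7), (1, 0), (1, 2), (2, 1), (2, 8), (3, 4), (3, 6), (4, 3), (4, 5), (5, 4), (5,
      7), (6, 3), (6, 10), (7, 0), (7, 5), (8, 2), (8, 9), (9, 8), (9, 10), (10, 6), (10, 9)]
    lev := [] }
  links := [[1, 2, 7, 8], [2, 0, 8, 9, 3], [7, 0, 1, 3, 10, 11, 12, 4], [10, 2, 1, 9, 5, 13], [7, 2, 12,
    14], [13, 3, 9, 15, 16, 6], [13, 5, 16, 17]]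
  P := {
    a := 7
    N := 18
    nb := [390, 781, 7323, 9766, 20612, 107080, 204832, 16661, 643, 33066, 10252, 5124, 18452, 132200,
      4240, 66080, 163936, 73792]
    tri := [(0, 1, 2), (0, 1, 8), (0, 2, 7), (0, 7, 8), (1, 2, 3), (1, 3, 9), (1, 8, 9), (2, 3, 10),
      (2, 4, 7), (2, 4, 12), (2, 10, 11), (2, 11, 12), (3, 5, 9), (3, 5, 13), (3, 10, 13), (4, 7,
      14), (4, 12, 14), (5, 6, 13), (5, 6, 16), (5, 9, 15), (5, 15, 16), (6, 13, 17), (6, 16, 17)]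
    fin := [0, 0, 0, 3, 0, 5, 5, 0, 8, 3, 0, 11, 12, 3, 14, 5, 16, 17]
    chd := [(0, 12), (5, 17)]
    steps := [(0, 1), (0, 2), (0, 4), (0, 7), (0, 10), (3, 9), (3, 13), (5, 6), (5, 15)] }
  rep := [0, 3, 8, 12, 16, 5, 17, 11, 14]

noncomputable def v2516 : Cov.CovD where
  P := 3
  N := 6
  pl := [1, 4, 7, 9]
  lev := [⟨[], [], [], [2], [(0, 0, [3])]⟩,
    ⟨[], [(0, 0), (0, 1)], [], [2], [(2, 1, [])]⟩,
    ⟨[(0, 1)], [(0, 0), (0, 3), (1, 0), (1, 1), (1, 3)], [(0, 0), (0, 3)], [7], [(0, 0,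
      [3]), (3, 0, [3]), (5, 3, [0])]⟩,
    ⟨[(0, 1), (0, 2), (1, 2)], [(1, 0), (1, 1), (2, 0), (2, 1), (2, 3)], [(0, 1), (1, 1)],
      [], [(2, 1, []), (3, 0, [3]), (6, 1, [])]⟩,
    ⟨[(0, 2), (1, 2), (2, 3)], [(0, 0), (2, 0), (2, 3)], [(0, 3)], [8], [(0, 0, [3]), (5,
      3, [0])]⟩,
    ⟨[(1, 3), (2, 3)], [(1, 1), (3, 0), (3, 1), (3, 5)], [(1, 1), (1, 5)], [4], [(2, 1,
      []), (6, 1, []), (8, 5, [6])]⟩,
    ⟨[(3, 5)], [(3, 1), (5, 1), (5, 5), (5, 6)], [(1, 6)], [4], [(6, 1, []), (10, 6, [5])]⟩]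
  Ta := [((0, 1), 0, 2), ((0, 7), 0, 8), ((2, 1), 1, 2), ((2, 8), 1, 5), ((3, 4), 0, 7), ((3, 6),
    0, 1), ((6, 3), 1, 0), ((6, 10), 1, 6)]
  Tb := [((0, 1, 7), 0, 2, 8), ((1, 0, 2), 2, 0, 1), ((2, 1, 8), 1, 2, 5), ((3, 4, 6), 0, 7, 1),
    ((4, 3, 5), 7, 0, 3), ((5, 4, 7), 3, 7, 8), ((6, 3, 10), 1, 0, 6), ((7, 0, 5), 8, 0, 3),
    ((8, 2, 9), 5, 1, 4), ((9, 8, 10), 4, 5, 6), ((10, 6, 9), 6, 1, 4)]
  Tc := []
  Td := [((0, 3), (0, 1), 2), ((0, 3), (0, 7), 8), ((0, 3), (3, 4), 7), ((0, 3), (3, 6), 1), ((3,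
    0), (5, 4), 7), ((3, 0), (5, 7), 8), ((5, 6), (8, 2), 1), ((5, 6), (8, 9), 4), ((6, 5),
    (10, 6), 1), ((6, 5), (10, 9), 4)]
  G := [[0, 0, 0x2a56165ac5823ce952ad62961e9423c69a42121c1e67c67c32ce9421848c6,
    0x29cd52ad5a2de426a2d692d5a2de849692d52ad32ade481c,
    0x32cd236d6a2de4216a2d5a2d692de4692d32ad592de8c1a], [0, 0,
    0x59cd59cd59cde8429459cc1c19c5c1e59c5859ce9a5c9c159cde486c, 0,
    0xc1259c25289c5259cd59cd58ec59cd59cd59cde859cd59cdc8e1a], [0, 0, 0,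
    0x32ad236d34692d32cd5832cd52ad98e18, 0x692d52ad54692d5a2d986a2d23cd34e18], [0,
    0x6ace146ace186ace14e14, 0, 0, 0x9459cd59cd745c959cd5859cd94a59cd1ce18]]

noncomputable def n2516 : Ent := ⟨e2516, noF, [], [], [(15, 14, [7334790875878422277917280412776772662961875900559637987928627379769345, 0]), (16, 14, [7334685589297762428874426903420482469988158645819485339342058433617921, 0]), (17, 14, [6903326468334360900303599070699561856668565975414084080169086034456577, 0])]⟩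

def c2516 : PLift (Cov.check n2516.C.D v2516 = true) := ⟨by decide +kernel⟩

def b2516 : PLift (entF (fidx ts) 400 2516 n2516 = true) := ⟨by decide +kernel⟩

theorem g2516 : GoodF (fidx ts) 400 2516 := GoodF.ofV v2516 n2516 c2516.down b2516.down

/-- 4586647:1985 -/
noncomputable def e2517 : SCfg where
  D := {
    a := 7
    L := 11
    kp := 9
    inn := [(0, 1), (0, 2), (1, 0), (1, 2), (1, 6), (2, 0), (2, 1), (2, 3), (2, 4), (2, 6), (3, 2), (3,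
      4), (3, 5), (4, 2), (4, 3), (4, 5), (4, 6), (5, 3), (5, 4), (6, 1), (6, 2), (6, 4)]
    mix := [(0, 0), (0, 1), (1, 1), (1, 2), (2, 0), (2, 3), (2, 4), (3, 3), (3, 5), (3, 6), (4, 7), (4,
      8), (5, 5), (5, 8), (6, 2), (6, 7), (6, 9), (6, 10)]
    cl := [4, 2, 0, 3, 6, 5, 7, 0, 1, 8, 9]
    chq := [(0, 3), (0, 4), (0, 6), (1, 3), (1, 7), (3, 0), (3, 1), (4, 0), (6, 0), (7, 1)]
    rng := [(0, 1), (0, 4), (1, 0), (1, 2), (2, 1), (2, 9), (3, 4), (3, 6), (4, 0), (4, 3), (5, 6), (5,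
      8), (6, 3), (6, 5), (7, 8), (7, 10), (8, 5), (8, 7), (9, 2), (9, 10), (10, 7), (10, 9)]
    lev := [] }
  links := [[1, 2, 7, 8], [2, 0, 8, 9, 6], [7, 0, 1, 6, 4, 3, 10, 11], [10, 2, 4, 5, 12, 13], [5, 3, 2,
    6, 14, 15], [12, 3, 4, 15], [14, 4, 2, 1, 9, 16, 17]]
  P := {
    a := 7
    N := 18
    nb := [390, 837, 3291, 13364, 49260, 36888, 213526, 2309, 643, 65858, 10252, 1156, 41000, 5128,
      163920, 20528, 131648, 81984]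
    tri := [(0, 1, 2), (0, 1, 8), (0, 2, 7), (0, 7, 8), (1, 2, 6), (1, 6, 9), (1, 8, 9), (2, 3, 4), (2,
      3, 10), (2, 4, 6), (2, 7, 11), (2, 10, 11), (3, 4, 5), (3, 5, 12), (3, 10, 13), (3, 12, 13),
      (4, 5, 15), (4, 6, 14), (4, 14, 15), (5, 12, 15), (6, 9, 16), (6, 14, 17), (6, 16, 17)]
    fin := [0, 0, 2, 3, 2, 3, 2, 0, 8, 2, 10, 11, 12, 13, 2, 3, 16, 17]
    chd := [(0, 2), (2, 10), (2, 11), (10, 3), (13, 3)]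
    steps := [(0, 1), (0, 7), (2, 4), (2, 6), (2, 9), (2, 14), (3, 5), (3, 15)] }
  rep := [2, 3, 8, 10, 0, 12, 11, 13, 16, 17]

noncomputable def v2517 : Cov.CovD where
  P := 3
  N := 7
  pl := [1, 5, 9, 10]
  lev := [⟨[], [], [], [2], [(0, 4, [0])]⟩,
    ⟨[], [(0, 0), (0, 4)], [], [2], [(2, 0, [3, 4, 6])]⟩,
    ⟨[(0, 1)], [(0, 3), (0, 4), (0, 6), (1, 0), (1, 3), (1, 4), (1, 6)], [(3, 4), (3, 6),
      (4, 6)], [], [(0, 4, [0]), (3, 3, [0, 1]), (4, 6, [0])]⟩,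
    ⟨[(0, 2), (1, 2)], [(2, 3), (2, 4), (2, 6), (2, 7)], [(3, 7)], [5], [(3, 3, [0, 1]),
      (6, 7, [1])]⟩,
    ⟨[(0, 2), (1, 2), (2, 3)], [(2, 0), (2, 1), (2, 3), (2, 4), (2, 6), (3, 0), (3, 1), (3,
      3), (3, 7)], [(0, 1)], [], [(7, 0, [3, 4, 6]), (8, 1, [3, 7])]⟩,
    ⟨[(2, 3), (2, 4), (3, 4)], [(3, 1), (3, 3), (3, 7), (4, 0), (4, 1)], [], [5], [(8, 1,
      [3, 7])]⟩,
    ⟨[(0, 1), (0, 2), (1, 2), (1, 4), (2, 3), (2, 4), (3, 4), (4, 5)], [(1, 0), (2, 0), (2,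
      3), (2, 4), (2, 6), (4, 0), (4, 1)], [(0, 0)], [8, 9], [(2, 0, [3, 4, 6]), (7, 0, [3,
      4, 6])]⟩]
  Ta := [((2, 1), 0, 2), ((2, 9), 0, 8), ((7, 8), 0, 1), ((7, 10), 0, 9)]
  Tb := [((0, 1, 4), 4, 2, 6), ((1, 0, 2), 2, 4, 0), ((2, 1, 9), 0, 2, 8), ((3, 4, 6), 3, 6, 7),
    ((4, 0, 3), 6, 4, 3), ((5, 6, 8), 5, 7, 1), ((6, 3, 5), 7, 3, 5), ((7, 8, 10), 0, 1, 9),
    ((8, 5, 7), 1, 5, 0), ((9, 2, 10), 8, 0, 9), ((10, 7, 9), 9, 0, 8)]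
  Tc := [(0, 3, 4), (0, 3, 6), (0, 4, 6), (1, 3, 7), (3, 0, 1)]
  Td := [((0, 3), (2, 1), 2), ((0, 3), (2, 9), 8), ((0, 3), (7, 8), 1), ((0, 3), (7, 10), 9),
    ((0, 4), (2, 1), 2), ((0, 4), (2, 9), 8), ((0, 4), (7, 8), 1), ((0, 4), (7, 10), 9), ((0,
    6), (2, 1), 2), ((0, 6), (2, 9), 8), ((0, 6), (7, 8), 1), ((0, 6), (7, 10), 9), ((1, 3),
    (8, 5), 5), ((1, 3), (8, 7), 0), ((1, 7), (8, 5), 5), ((1, 7), (8, 7), 0), ((3, 0), (3,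
    4), 6), ((3, 0), (3, 6), 7), ((3, 1), (3, 4), 6), ((3, 1), (3, 6), 7), ((4, 0), (0, 1),
    2), ((4, 0), (0, 4), 6), ((6, 0), (4, 0), 4), ((6, 0), (4, 3), 3), ((7, 1), (6, 3), 3),
    ((7, 1), (6, 5), 5)]
  G := [[0, 0, 0xe84e486e8d8e48f12e1444a8c64e8cce84f18c,
    0x6698688316484ce488894848f1ce846488c4aed468c4f18448146484c128981e181ecd,
    0x6181c48a8cee58e84f12e846481c66988cce84f186488c1e141668c418ab], [0,
    0xee6811466688cc118c, 0,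
    0x41a8ce4868ed844a4cf14e8441a8c665885c6888cf184181444a8c1a48168981ecd,
    0xe84e4868ed868c8f12e8428822586888cf1c4848cd861a6481c16884c16e1418ab]]

noncomputable def n2517 : Ent := ⟨e2517, noF, [], [], []⟩

def c2517 : PLift (Cov.check n2517.C.D v2517 = true) := ⟨by decide +kernel⟩

def b2517 : PLift (entF (fidx ts) 400 2517 n2517 = true) := ⟨by decide +kernel⟩

theorem g2517 : GoodF (fidx ts) 400 2517 := GoodF.ofV v2517 n2517 c2517.down b2517.down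

/-- 4846466:1987/1 -/
noncomputable def e2518 : SCfg where
  D := {
    a := 7
    L := 10
    kp := 7
    inn := [(0, 1), (1, 0), (1, 2), (1, 3), (1, 6), (2, 1), (3, 1), (3, 4), (3, 5), (3, 6), (4, 3), (4,
      5), (4, 6), (5, 3), (5, 4), (6, 1), (6, 3), (6, 4)]
    mix := [(0, 0), (0, 1), (0, 2), (1, 0), (1, 2), (1, 3), (1, 4), (2, 3), (2, 4), (2, 5), (3, 4), (3,
      6), (4, 7), (5, 1), (5, 6), (5, 7), (5, 8), (6, 0), (6, 7), (6, 9)]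
    cl := [0, 4, 2, 0, 1, 6, 3, 3, 7, 5]
    chq := [(0, 1), (1, 0), (1, 5), (5, 1)]
    rng := [(0, 1), (0, 9), (1, 0), (1, 2), (1, 6), (1, 8), (2, 1), (2, 3), (3, 2), (3, 5), (4, 5), (4,
      6), (5, 3), (5, 4), (6, 1), (6, 4), (7, 8), (7, 9), (8, 1), (8, 7), (9, 0), (9, 7)]
    lev := [] }
  links := [[1, 7, 8, 9], [7, 0, 9, 10, 2, 11, 3, 6], [11, 1, 10, 12], [6, 1, 11, 13, 5, 4], [6, 3, 5,
    14], [14, 4, 3, 13, 8, 15], [7, 1, 3, 4, 14, 16]]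
  P := {
    a := 7
    N := 17
    nb := [898, 3789, 7170, 10354, 16488, 57624, 82074, 65859, 41633, 1283, 4614, 12302, 3076, 2344,
      98416, 16672, 16576]
    tri := [(0, 1, 7), (0, 1, 9), (0, 7, 8), (0, 8, 9), (1, 2, 10), (1, 2, 11), (1, 3, 6), (1, 3, 11),
      (1, 6, 7), (1, 9, 10), (2, 10, 12), (2, 11, 12), (3, 4, 5), (3, 4, 6), (3, 5, 13), (3, 11,
      13), (4, 5, 14), (4, 6, 14), (5, 8, 13), (5, 8, 15), (5, 14, 15), (6, 7, 16), (6, 14, 16)]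
    fin := [0, 0, 0, 3, 3, 5, 3, 0, 8, 9, 0, 3, 12, 5, 5, 15, 16]
    chd := [(0, 3), (3, 16)]
    steps := [(0, 1), (0, 2), (0, 7), (0, 10), (3, 4), (3, 6), (3, 11), (5, 13), (5, 14)] }
  rep := [0, 3, 9, 5, 8, 16, 12, 15]

noncomputable def v2518 : Cov.CovD where
  P := 3
  N := 5
  pl := [1, 2, 5, 8]
  lev := [⟨[], [], [], [2, 4], [(0, 0, [1])]⟩,
    ⟨[], [(0, 0), (0, 1)], [(0, 0), (0, 1)], [2], [(0, 0, [1]), (3, 0, [1]), (4, 1, [0,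
      5])]⟩,
    ⟨[(0, 1)], [(1, 0), (1, 1)], [(0, 1)], [6], [(3, 0, [1]), (4, 1, [0, 5])]⟩,
    ⟨[(0, 1), (1, 2)], [(1, 0), (1, 1), (1, 3), (2, 1)], [(1, 3)], [], [(4, 1, [0, 5]), (6,
      3, [])]⟩,
    ⟨[(1, 3)], [(3, 1), (3, 3)], [], [], [(7, 3, [])]⟩,
    ⟨[(1, 3), (3, 4)], [(3, 1), (3, 3), (4, 3)], [(3, 3)], [4, 7], [(6, 3, []), (7, 3,
      [])]⟩,
    ⟨[(0, 1), (1, 2), (1, 3), (1, 4), (3, 4), (3, 5), (4, 5)], [(0, 0), (1, 0), (1, 1), (1,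
      3), (1, 5), (3, 0), (3, 1), (3, 3), (3, 5), (4, 0), (4, 3), (4, 5), (5, 3)], [(0, 3),
      (0, 5), (3, 5)], [], [(0, 0, [1]), (7, 3, []), (9, 5, [1])]⟩]
  Ta := [((0, 1), 0, 4), ((0, 9), 0, 5), ((3, 2), 0, 2), ((3, 5), 0, 6), ((6, 1), 3, 4), ((6, 4),
    3, 1), ((7, 8), 3, 7), ((7, 9), 3, 5)]
  Tb := [((0, 1, 9), 0, 4, 5), ((1, 0, 2), 4, 0, 2), ((1, 0, 6), 4, 0, 3), ((1, 0, 8), 4, 0, 7),
    ((1, 2, 6), 4, 2, 3), ((1, 2, 8), 4, 2, 7), ((1, 6, 8), 4, 3, 7), ((2, 1, 3), 2, 4, 0),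
    ((3, 2, 5), 0, 2, 6), ((4, 5, 6), 1, 6, 3), ((5, 3, 4), 6, 0, 1), ((6, 1, 4), 3, 4, 1),
    ((7, 8, 9), 3, 7, 5), ((8, 1, 7), 7, 4, 3), ((9, 0, 7), 5, 0, 3)]
  Tc := [(1, 0, 5)]
  Td := [((0, 1), (0, 1), 4), ((0, 1), (0, 9), 5), ((0, 1), (3, 2), 2), ((0, 1), (3, 5), 6), ((1,
    0), (4, 5), 6), ((1, 0), (4, 6), 3), ((1, 5), (4, 5), 6), ((1, 5), (4, 6), 3), ((5, 1),
    (9, 0), 0), ((5, 1), (9, 7), 3)]
  G := [[0, 0x46a8122222f18852a2188128ac826bcc1, 0, 0x22a1223891422682234518c,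
    0x22c8229851822682234518a], [0, 0x1812c2241214c288eeeb14ee51268d, 0,
    0x28223c11422324c118c, 0x28223924451822278418a], [0, 0x46382611626c8a96a11aa8e458c1,
    0x221b4821948c422278422584c82238122822345c8e, 0x222e8422b85222e8222b45c81,
    0x222e1222b45222e1222b45c81], [0, 0x1191117a418113c26811314c2111782a4c,
    0x22a11644282227c18c22611a4222b24c1c8c, 0x222b2227c122a21922645c81,
    0x222b2227c1222e222794c81]]

noncomputable def n2518 : Ent := ⟨e2518, noF, [], [], []⟩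

def c2518 : PLift (Cov.check n2518.C.D v2518 = true) := ⟨by decide +kernel⟩

def b2518 : PLift (entF (fidx ts) 400 2518 n2518 = true) := ⟨by decide +kernel⟩

theorem g2518 : GoodF (fidx ts) 400 2518 := GoodF.ofV v2518 n2518 c2518.down b2518.down

/-- 4846466:1987 -/
noncomputable def e2519 : SCfg where
  D := {
    a := 7
    L := 11
    kp := 8
    inn := [(0, 1), (1, 0), (1, 2), (1, 3), (1, 6), (2, 1), (3, 1), (3, 4), (3, 5), (3, 6), (4, 3), (4,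
      5), (4, 6), (5, 3), (5, 4), (6, 1), (6, 3), (6, 4)]
    mix := [(0, 0), (0, 1), (0, 2), (1, 0), (1, 2), (1, 3), (1, 4), (2, 3), (2, 4), (2, 5), (3, 4), (3,
      6), (4, 7), (5, 6), (5, 7), (5, 8), (5, 9), (6, 0), (6, 7), (6, 10)]
    cl := [0, 5, 2, 0, 1, 6, 3, 3, 7, 8, 4]
    chq := [(0, 1), (1, 0), (1, 4), (4, 1)]
    rng := [(0, 1), (0, 10), (1, 0), (1, 2), (2, 1), (2, 3), (3, 2), (3, 5), (4, 5), (4, 6), (5, 3),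
      (5, 4), (6, 4), (6, 8), (7, 9), (7, 10), (8, 6), (8, 9), (9, 7), (9, 8), (10, 0), (10, 7)]
    lev := [] }
  links := [[1, 7, 8, 9], [7, 0, 9, 10, 2, 11, 3, 6], [11, 1, 10, 12], [6, 1, 11, 13, 5, 4], [6, 3, 5,
    14], [14, 4, 3, 13, 15, 16], [7, 1, 3, 4, 14, 17]]
  P := {
    a := 7
    N := 18
    nb := [898, 3789, 7170, 10354, 16488, 122904, 147610, 131395, 641, 1283, 4614, 12302, 3076, 34856,
      196720, 73760, 49184, 16576]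
    tri := [(0, 1, 7), (0, 1, 9), (0, 7, 8), (0, 8, 9), (1, 2, 10), (1, 2, 11), (1, 3, 6), (1, 3, 11),
      (1, 6, 7), (1, 9, 10), (2, 10, 12), (2, 11, 12), (3, 4, 5), (3, 4, 6), (3, 5, 13), (3, 11,
      13), (4, 5, 14), (4, 6, 14), (5, 13, 15), (5, 14, 16), (5, 15, 16), (6, 7, 17), (6, 14, 17)]
    fin := [0, 0, 0, 3, 3, 5, 3, 0, 8, 9, 0, 3, 12, 5, 5, 15, 16, 17]
    chd := [(0, 3), (3, 17)]
    steps := [(0, 1), (0, 2), (0, 7), (0, 10), (3, 4), (3, 6), (3, 11), (5, 13), (5, 14)] }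
  rep := [0, 3, 9, 5, 17, 8, 12, 15, 16]

noncomputable def v2519 : Cov.CovD where
  P := 3
  N := 6
  pl := [1, 2, 5, 8, 9]
  lev := [⟨[], [], [], [2, 5], [(0, 0, [1])]⟩,
    ⟨[], [(0, 0), (0, 1)], [(0, 0), (0, 1)], [2], [(0, 0, [1]), (3, 0, [1]), (4, 1, [0,
      4])]⟩,
    ⟨[(0, 1)], [(1, 0), (1, 1)], [(0, 1)], [6], [(3, 0, [1]), (4, 1, [0, 4])]⟩,
    ⟨[(0, 1), (1, 2)], [(1, 0), (1, 1), (1, 3), (2, 1)], [(1, 3)], [], [(4, 1, [0, 4]), (6,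
      3, [])]⟩,
    ⟨[(1, 3)], [(3, 1), (3, 3)], [], [], [(7, 3, [])]⟩,
    ⟨[(1, 3), (3, 4)], [(3, 1), (3, 3), (4, 3)], [(3, 3)], [7, 8], [(6, 3, []), (7, 3,
      [])]⟩,
    ⟨[(0, 1), (1, 2), (1, 3), (1, 4), (3, 4), (3, 5), (4, 5)], [(0, 0), (1, 0), (1, 1), (1,
      3), (1, 4), (3, 0), (3, 1), (3, 3), (3, 4), (4, 0), (4, 3), (4, 4), (5, 3)], [(0, 3),
      (0, 4), (3, 4)], [], [(0, 0, [1]), (7, 3, []), (10, 4, [1])]⟩]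
  Ta := [((0, 1), 0, 5), ((0, 10), 0, 4), ((3, 2), 0, 2), ((3, 5), 0, 6), ((6, 4), 3, 1), ((6,
    8), 3, 7), ((7, 9), 3, 8), ((7, 10), 3, 4)]
  Tb := [((0, 1, 10), 0, 5, 4), ((1, 0, 2), 5, 0, 2), ((2, 1, 3), 2, 5, 0), ((3, 2, 5), 0, 2, 6),
    ((4, 5, 6), 1, 6, 3), ((5, 3, 4), 6, 0, 1), ((6, 4, 8), 3, 1, 7), ((7, 9, 10), 3, 8, 4),
    ((8, 6, 9), 7, 3, 8), ((9, 7, 8), 8, 3, 7), ((10, 0, 7), 4, 0, 3)]
  Tc := [(1, 0, 4)]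
  Td := [((0, 1), (0, 1), 5), ((0, 1), (0, 10), 4), ((0, 1), (3, 2), 2), ((0, 1), (3, 5), 6),
    ((1, 0), (4, 5), 6), ((1, 0), (4, 6), 3), ((1, 4), (4, 5), 6), ((1, 4), (4, 6), 3), ((4,
    1), (10, 0), 0), ((4, 1), (10, 7), 3)]
  G := [[0, 0x214811aaae4b222b4888b1c42b641, 0, 0x222e422278914222e422274914c,
    0x222e8222b4518222e1222b8518a], [0, 0x1132811914c2111d11a68e4111b1117c218113a11546c8c, 0,
    0x22668222b7814222b2227c114c, 0x222b2227c11822a226e1e118a], [0,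
    0x218411666e87218412666e87681, 0x222e1222749222e4222789c4222e1242b85222e1222b45c8a,
    0x222714222e1222b85c222b488c1, 0x222e8222b45222e12122a95c81], [0,
    0x11a111711e2111d111b68c4111b1117c2111d111b68a4c,
    0x247d1b68222b2227c1c4222e22115e4282192262255c8c, 0x24223522a89223128226c9c41,
    0x223122a24c5222b2227c1c81]]

noncomputable def n2519 : Ent := ⟨e2519, noF, [], [], [(8, 15, [7334790850167413569773436004105379185503274260204390087403942014967809, 0])]⟩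

def c2519 : PLift (Cov.check n2519.C.D v2519 = true) := ⟨by decide +kernel⟩

def b2519 : PLift (entF (fidx ts) 400 2519 n2519 = true) := ⟨by decide +kernel⟩

theorem g2519 : GoodF (fidx ts) 400 2519 := GoodF.ofV v2519 n2519 c2519.down b2519.down

/-- 4846464:1988/2 -/
noncomputable def e2520 : SCfg where
  D := {
    a := 7
    L := 9
    kp := 6
    inn := [(0, 1), (1, 0), (1, 2), (1, 3), (2, 1), (3, 1), (3, 4), (3, 5), (4, 3), (4, 5), (5, 3), (5,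
      4), (5, 6), (6, 5)]
    mix := [(0, 0), (0, 1), (0, 2), (1, 0), (1, 2), (1, 3), (1, 4), (1, 5), (2, 3), (2, 4), (2, 6), (3,
      4), (3, 5), (3, 7), (4, 5), (4, 8), (5, 1), (5, 7), (5, 8), (6, 0), (6, 1), (6, 8)]
    cl := [1, 3, 2, 1, 0, 0, 6, 5, 4]
    chq := [(0, 3), (3, 0), (3, 4), (4, 3)]
    rng := [(0, 1), (0, 5), (0, 8), (1, 0), (1, 2), (1, 7), (2, 1), (2, 3), (3, 2), (3, 6), (4, 6), (4,
      7), (5, 0), (5, 8), (6, 3), (6, 4), (7, 1), (7, 4), (8, 0), (8, 5)]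
    lev := [] }
  links := [[1, 7, 8, 9], [7, 0, 9, 10, 2, 11, 3, 12], [11, 1, 10, 13], [12, 1, 11, 14, 5, 4], [12, 3, 5,
    15], [15, 4, 3, 14, 8, 6], [15, 5, 8, 7]]
  P := {
    a := 7
    N := 16
    nb := [898, 7821, 11266, 22578, 36904, 49496, 33184, 37187, 17121, 1283, 8710, 24590, 32922, 3076,
      2344, 4336]
    tri := [(0, 1, 7), (0, 1, 9), (0, 7, 8), (0, 8, 9), (1, 2, 10), (1, 2, 11), (1, 3, 11), (1, 3, 12),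
      (1, 7, 12), (1, 9, 10), (2, 10, 13), (2, 11, 13), (3, 4, 5), (3, 4, 12), (3, 5, 14), (3, 11,
      14), (4, 5, 15), (4, 12, 15), (5, 6, 8), (5, 6, 15), (5, 8, 14), (6, 7, 8), (6, 7, 15)]
    fin := [0, 0, 0, 3, 4, 4, 0, 0, 4, 9, 0, 3, 3, 13, 14, 15]
    chd := [(4, 3), (4, 15)]
    steps := [(0, 1), (0, 2), (0, 7), (0, 6), (0, 10), (3, 11), (3, 12), (4, 5), (4, 8)] }
  rep := [3, 0, 9, 4, 15, 14, 13]

noncomputable def v2520 : Cov.CovD where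
  P := 3
  N := 4
  pl := [2, 6, 7]
  lev := [⟨[], [], [(1, 3)], [2], [(0, 1, []), (1, 3, [0, 4])]⟩,
    ⟨[], [(0, 0), (0, 1), (0, 3)], [(0, 0), (0, 1), (1, 1)], [2], [(0, 1, []), (3, 1, []),
      (4, 0, [3]), (5, 0, [3])]⟩,
    ⟨[(0, 1)], [(1, 0), (1, 1)], [(0, 1)], [6], [(3, 1, []), (4, 0, [3])]⟩,
    ⟨[(0, 1), (1, 2)], [(1, 0), (1, 1), (2, 0)], [(0, 0)], [5], [(4, 0, [3]), (5, 0, [3])]⟩,
    ⟨[(1, 3)], [(1, 0), (3, 0), (3, 4)], [(0, 4)], [], [(5, 0, [3]), (8, 4, [3])]⟩,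
    ⟨[(1, 3), (3, 4)], [(0, 3), (3, 0), (3, 3), (3, 4), (4, 0), (4, 3), (4, 4)], [(3, 4)],
      [5], [(1, 3, [0, 4]), (8, 4, [3])]⟩,
    ⟨[(3, 5), (4, 5)], [(0, 1), (0, 3), (1, 1), (4, 4), (5, 1), (5, 3), (5, 4)], [(1, 3),
      (1, 4), (3, 4)], [], [(0, 1, []), (1, 3, [0, 4]), (8, 4, [3])]⟩]
  Ta := [((0, 1), 1, 3), ((0, 5), 1, 0), ((0, 8), 1, 4), ((3, 2), 1, 2), ((3, 6), 1, 6), ((4, 6),
    0, 6), ((4, 7), 0, 5), ((5, 0), 0, 1), ((5, 8), 0, 4)]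
  Tb := [((0, 1, 5), 1, 3, 0), ((0, 1, 8), 1, 3, 4), ((0, 5, 8), 1, 0, 4), ((1, 0, 2), 3, 1, 2),
    ((1, 0, 7), 3, 1, 5), ((1, 2, 7), 3, 2, 5), ((2, 1, 3), 2, 3, 1), ((3, 2, 6), 1, 2, 6),
    ((4, 6, 7), 0, 6, 5), ((5, 0, 8), 0, 1, 4), ((6, 3, 4), 6, 1, 0), ((7, 1, 4), 5, 3, 0),
    ((8, 0, 5), 4, 1, 0)]
  Tc := [(3, 0, 4)]
  Td := [((0, 3), (4, 6), 6), ((0, 3), (4, 7), 5), ((0, 3), (5, 0), 1), ((0, 3), (5, 8), 4), ((3,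
    0), (1, 0), 1), ((3, 0), (1, 2), 2), ((3, 0), (1, 7), 5), ((3, 4), (1, 0), 1), ((3, 4),
    (1, 2), 2), ((3, 4), (1, 7), 5), ((4, 3), (8, 0), 1), ((4, 3), (8, 5), 0)]
  G := [[0, 0, 0x1111a3114a24111165118c28c, 0, 0x114438811184de9e281], [0, 0,
    0x112121a112121ac42, 0x124212c212121ac411212162121216c8c, 0xd121216d121216c82], [0,
    0xa1488121a28121a4e4a141c26184146412168e8c, 0x819489a46184141568158428e28c, 0,
    0x5188648586184421188c4b116e289], [0, 0, 0x41628192c28e182, 0x4252424a1821948132c145,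
    0xd228282f2c181]]

noncomputable def n2520 : Ent := ⟨e2520, noF, [], [], []⟩

def c2520 : PLift (Cov.check n2520.C.D v2520 = true) := ⟨by decide +kernel⟩

def b2520 : PLift (entF (fidx ts) 400 2520 n2520 = true) := ⟨by decide +kernel⟩

theorem g2520 : GoodF (fidx ts) 400 2520 := GoodF.ofV v2520 n2520 c2520.down b2520.down

/-- 4846464:1988/1 -/
noncomputable def e2521 : SCfg where
  D := {
    a := 7
    L := 10
    kp := 7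
    inn := [(0, 1), (1, 0), (1, 2), (1, 3), (2, 1), (3, 1), (3, 4), (3, 5), (4, 3), (4, 5), (5, 3), (5,
      4), (5, 6), (6, 5)]
    mix := [(0, 0), (0, 1), (0, 2), (1, 0), (1, 2), (1, 3), (1, 4), (1, 5), (2, 3), (2, 4), (2, 6), (3,
      4), (3, 5), (3, 7), (4, 5), (4, 8), (5, 7), (5, 8), (5, 9), (6, 0), (6, 8), (6, 9)]
    cl := [0, 6, 2, 0, 1, 1, 7, 4, 3, 5]
    chq := [(0, 4), (3, 4), (4, 0), (4, 3)]
    rng := [(0, 1), (0, 5), (0, 8), (0, 9), (1, 0), (1, 2), (2, 1), (2, 3), (3, 2), (3, 6), (4, 6), (4,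
      7), (5, 0), (5, 8), (6, 3), (6, 4), (7, 4), (7, 9), (8, 0), (8, 5), (9, 0), (9, 7)]
    lev := [] }
  links := [[1, 7, 8, 9], [7, 0, 9, 10, 2, 11, 3, 12], [11, 1, 10, 13], [12, 1, 11, 14, 5, 4], [12, 3, 5,
    15], [15, 4, 3, 14, 16, 6], [15, 5, 16, 7]]
  P := {
    a := 7
    N := 17
    nb := [898, 7821, 11266, 22578, 36904, 114776, 98464, 102723, 641, 1283, 8710, 24590, 32922, 3076,
      67624, 4336, 16608]
    tri := [(0, 1, 7), (0, 1, 9), (0, 7, 8), (0, 8, 9), (1, 2, 10), (1, 2, 11), (1, 3, 11), (1, 3, 12),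
      (1, 7, 12), (1, 9, 10), (2, 10, 13), (2, 11, 13), (3, 4, 5), (3, 4, 12), (3, 5, 14), (3, 11,
      14), (4, 5, 15), (4, 12, 15), (5, 6, 15), (5, 6, 16), (5, 14, 16), (6, 7, 15), (6, 7, 16)]
    fin := [0, 0, 0, 3, 3, 5, 0, 0, 8, 9, 0, 3, 3, 13, 5, 15, 16]
    chd := [(0, 5), (5, 15)]
    steps := [(0, 1), (0, 2), (0, 7), (0, 6), (0, 10), (3, 4), (3, 11), (3, 12), (5, 14)] }
  rep := [0, 3, 9, 15, 5, 16, 8, 13]

noncomputable def v2521 : Cov.CovD where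
  P := 3
  N := 5
  pl := [1, 2, 6, 9]
  lev := [⟨[], [], [], [2, 6], [(0, 0, [4])]⟩,
    ⟨[], [(0, 0), (0, 1)], [(0, 0), (0, 1), (1, 1)], [2], [(0, 0, [4]), (3, 0, [4]), (4, 1,
      []), (5, 1, [])]⟩,
    ⟨[(0, 1)], [(1, 0), (1, 1)], [(0, 1)], [7], [(3, 0, [4]), (4, 1, [])]⟩,
    ⟨[(0, 1), (1, 2)], [(1, 0), (1, 1), (1, 4), (2, 1)], [(1, 1), (1, 4)], [], [(4, 1, []),
      (5, 1, []), (7, 4, [0, 3])]⟩,
    ⟨[(1, 3)], [(1, 1), (3, 1), (3, 3), (3, 4)], [(1, 3)], [], [(5, 1, []), (8, 3, [4])]⟩,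
    ⟨[(1, 3), (3, 4)], [(3, 1), (3, 3), (3, 4), (4, 1), (4, 3), (4, 4)], [(3, 4)], [5],
      [(7, 4, [0, 3]), (8, 3, [4])]⟩,
    ⟨[(3, 5), (4, 5)], [(0, 0), (1, 0), (4, 3), (5, 0), (5, 3), (5, 4)], [(0, 3)], [5],
      [(0, 0, [4]), (8, 3, [4])]⟩]
  Ta := [((0, 1), 0, 6), ((0, 5), 0, 1), ((0, 8), 0, 3), ((0, 9), 0, 5), ((3, 2), 0, 2), ((3, 6),
    0, 7), ((4, 6), 1, 7), ((4, 7), 1, 4), ((5, 0), 1, 0), ((5, 8), 1, 3)]
  Tb := [((0, 1, 5), 0, 6, 1), ((0, 1, 8), 0, 6, 3), ((0, 1, 9), 0, 6, 5), ((0, 5, 8), 0, 1, 3),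
    ((0, 5, 9), 0, 1, 5), ((0, 8, 9), 0, 3, 5), ((1, 0, 2), 6, 0, 2), ((2, 1, 3), 2, 6, 0),
    ((3, 2, 6), 0, 2, 7), ((4, 6, 7), 1, 7, 4), ((5, 0, 8), 1, 0, 3), ((6, 3, 4), 7, 0, 1),
    ((7, 4, 9), 4, 1, 5), ((8, 0, 5), 3, 0, 1), ((9, 0, 7), 5, 0, 4)]
  Tc := [(4, 0, 3)]
  Td := [((0, 4), (0, 1), 6), ((0, 4), (0, 5), 1), ((0, 4), (0, 8), 3), ((0, 4), (0, 9), 5), ((0,
    4), (3, 2), 2), ((0, 4), (3, 6), 7), ((3, 4), (8, 0), 0), ((3, 4), (8, 5), 1), ((4, 0),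
    (7, 4), 1), ((4, 0), (7, 9), 5), ((4, 3), (7, 4), 1), ((4, 3), (7, 9), 5)]
  G := [[0, 0, 0, 0x222284ede118222284ede118c, 0x222284ede118222284ede118a], [0,
    0xa182e12c14a614e18ce4e182614a12ce12c14ae8c, 0, 0x5428f1247c12841412cb882ec924c,
    0x28388924f4518818228924fc518a], [0, 0, 0xe121e121c8e121e121c86, 0x612a12ce12a189c41,
    0xe126145612a12cc81], [0, 0, 0xa161c124814122d124a, 0x8161c2c389241, 0xe14c1229c281]]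

noncomputable def n2521 : Ent := ⟨e2521, noF, [], [], [(8, 16, [1580044410770988437309982408355971841652082177953823432505699434497, 0])]⟩

def c2521 : PLift (Cov.check n2521.C.D v2521 = true) := ⟨by decide +kernel⟩

def b2521 : PLift (entF (fidx ts) 400 2521 n2521 = true) := ⟨by decide +kernel⟩

theorem g2521 : GoodF (fidx ts) 400 2521 := GoodF.ofV v2521 n2521 c2521.down b2521.down

/-- 4846464:1988/4 -/
noncomputable def e2522 : SCfg where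
  D := {
    a := 7
    L := 9
    kp := 6
    inn := [(0, 1), (1, 0), (1, 2), (1, 3), (2, 1), (3, 1), (3, 4), (3, 5), (4, 3), (4, 5), (5, 3), (5,
      4), (5, 6), (6, 5)]
    mix := [(0, 0), (0, 1), (0, 2), (1, 0), (1, 2), (1, 3), (1, 4), (1, 5), (2, 3), (2, 4), (2, 6), (3,
      4), (3, 5), (3, 7), (4, 5), (4, 8), (5, 1), (5, 7), (5, 8), (6, 1), (6, 6), (6, 8)]
    cl := [1, 2, 4, 1, 0, 0, 5, 6, 3]
    chq := [(0, 2), (2, 0), (2, 3), (3, 2)]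
    rng := [(0, 1), (0, 5), (1, 0), (1, 2), (1, 6), (1, 7), (2, 1), (2, 3), (3, 2), (3, 6), (4, 6), (4,
      7), (5, 0), (5, 8), (6, 1), (6, 3), (6, 4), (6, 8), (7, 1), (7, 4), (8, 5), (8, 6)]
    lev := [] }
  links := [[1, 7, 8, 9], [7, 0, 9, 10, 2, 11, 3, 12], [11, 1, 10, 13], [12, 1, 11, 14, 5, 4], [12, 3, 5,
    15], [15, 4, 3, 14, 8, 6], [15, 5, 8, 13]]
  P := {
    a := 7
    N := 16
    nb := [898, 7821, 11266, 22578, 36904, 49496, 41248, 4355, 25313, 1283, 8710, 24590, 32922, 36164,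
      2344, 12400]
    tri := [(0, 1, 7), (0, 1, 9), (0, 7, 8), (0, 8, 9), (1, 2, 10), (1, 2, 11), (1, 3, 11), (1, 3, 12),
      (1, 7, 12), (1, 9, 10), (2, 10, 13), (2, 11, 13), (3, 4, 5), (3, 4, 12), (3, 5, 14), (3, 11,
      14), (4, 5, 15), (4, 12, 15), (5, 6, 8), (5, 6, 15), (5, 8, 14), (6, 8, 13), (6, 13, 15)]
    fin := [0, 0, 0, 3, 4, 4, 4, 0, 4, 9, 0, 3, 3, 13, 14, 15]
    chd := [(4, 3), (4, 15)]
    steps := [(0, 1), (0, 2), (0, 7), (0, 10), (3, 11), (3, 12), (4, 5), (4, 6), (4, 8)] }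
  rep := [3, 0, 4, 15, 9, 13, 14]

noncomputable def v2522 : Cov.CovD where
  P := 3
  N := 4
  pl := [2, 6, 7]
  lev := [⟨[], [], [(1, 2)], [4], [(0, 1, []), (1, 2, [0, 3])]⟩,
    ⟨[], [(0, 0), (0, 1), (0, 2)], [(0, 0), (0, 1), (1, 1)], [4], [(0, 1, []), (3, 1, []),
      (4, 0, [2]), (5, 0, [2])]⟩,
    ⟨[(0, 1)], [(1, 0), (1, 1)], [(0, 1)], [5], [(3, 1, []), (4, 0, [2])]⟩,
    ⟨[(0, 1), (1, 2)], [(1, 0), (1, 1), (2, 0)], [(0, 0)], [6], [(4, 0, [2]), (5, 0, [2])]⟩,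
    ⟨[(1, 3)], [(1, 0), (3, 0), (3, 3)], [(0, 3)], [], [(5, 0, [2]), (8, 3, [2])]⟩,
    ⟨[(1, 3), (3, 4)], [(0, 2), (3, 0), (3, 2), (3, 3), (4, 0), (4, 2), (4, 3)], [(2, 3)],
      [6], [(1, 2, [0, 3]), (8, 3, [2])]⟩,
    ⟨[(3, 5), (4, 5)], [(0, 2), (4, 3), (5, 2), (5, 3)], [(2, 3)], [5], [(1, 2, [0, 3]),
      (8, 3, [2])]⟩]
  Ta := [((0, 1), 1, 2), ((0, 5), 1, 0), ((3, 2), 1, 4), ((3, 6), 1, 5), ((4, 6), 0, 5), ((4, 7),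
    0, 6), ((5, 0), 0, 1), ((5, 8), 0, 3)]
  Tb := [((0, 1, 5), 1, 2, 0), ((1, 0, 2), 2, 1, 4), ((1, 0, 6), 2, 1, 5), ((1, 0, 7), 2, 1, 6),
    ((1, 2, 6), 2, 4, 5), ((1, 2, 7), 2, 4, 6), ((1, 6, 7), 2, 5, 6), ((2, 1, 3), 4, 2, 1),
    ((3, 2, 6), 1, 4, 5), ((4, 6, 7), 0, 5, 6), ((5, 0, 8), 0, 1, 3), ((6, 1, 3), 5, 2, 1),
    ((6, 1, 4), 5, 2, 0), ((6, 1, 8), 5, 2, 3), ((6, 3, 4), 5, 1, 0), ((6, 3, 8), 5, 1, 3),
    ((6, 4, 8), 5, 0, 3), ((7, 1, 4), 6, 2, 0), ((8, 5, 6), 3, 0, 5)]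
  Tc := [(2, 0, 3)]
  Td := [((0, 2), (4, 6), 5), ((0, 2), (4, 7), 6), ((0, 2), (5, 0), 1), ((0, 2), (5, 8), 3), ((2,
    0), (1, 0), 1), ((2, 0), (1, 2), 4), ((2, 0), (1, 6), 5), ((2, 0), (1, 7), 6), ((2, 3),
    (1, 0), 1), ((2, 3), (1, 2), 4), ((2, 3), (1, 6), 5), ((2, 3), (1, 7), 6), ((3, 2), (8,
    5), 0), ((3, 2), (8, 6), 5)]
  G := [[0, 0, 0x21c11821a618211831161a14c, 0x11dd222411dd22285, 0x123983b14628123983b146249],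
    [0, 0, 0x11c111a161811c11161a14c, 0, 0x211831b346488113388b4122b4914ac4821b4488b], [0,
    0x11221121111a66811228112112c26c, 0x21c111a1628211831161a14c, 0xcc1d2214cc1d22285,
    0x22a11c21946182194228114e249], [0, 0, 0x11c111a161811c11161a14c, 0,
    0x288a1bc2194618219421388a924e14a]]

noncomputable def n2522 : Ent := ⟨e2522, noF, [], [], []⟩

def c2522 : PLift (Cov.check n2522.C.D v2522 = true) := ⟨by decide +kernel⟩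

def b2522 : PLift (entF (fidx ts) 400 2522 n2522 = true) := ⟨by decide +kernel⟩

theorem g2522 : GoodF (fidx ts) 400 2522 := GoodF.ofV v2522 n2522 c2522.down b2522.down

/-- 4846464:1988/3 -/
noncomputable def e2523 : SCfg where
  D := {
    a := 7
    L := 10
    kp := 7
    inn := [(0, 1), (1, 0), (1, 2), (1, 3), (2, 1), (3, 1), (3, 4), (3, 5), (4, 3), (4, 5), (5, 3), (5,
      4), (5, 6), (6, 5)]
    mix := [(0, 0), (0, 1), (0, 2), (1, 0), (1, 2), (1, 3), (1, 4), (1, 5), (2, 3), (2, 4), (2, 6), (3,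
      4), (3, 5), (3, 7), (4, 5), (4, 8), (5, 1), (5, 7), (5, 8), (6, 1), (6, 8), (6, 9)]
    cl := [1, 2, 4, 1, 0, 0, 6, 5, 3, 7]
    chq := [(0, 2), (2, 0), (2, 3), (3, 2)]
    rng := [(0, 1), (0, 5), (1, 0), (1, 2), (1, 7), (1, 9), (2, 1), (2, 3), (3, 2), (3, 6), (4, 6), (4,
      7), (5, 0), (5, 8), (6, 3), (6, 4), (7, 1), (7, 4), (8, 5), (8, 9), (9, 1), (9, 8)]
    lev := [] }
  links := [[1, 7, 8, 9], [7, 0, 9, 10, 2, 11, 3, 12], [11, 1, 10, 13], [12, 1, 11, 14, 5, 4], [12, 3, 5,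
    15], [15, 4, 3, 14, 8, 6], [15, 5, 8, 16]]
  P := {
    a := 7
    N := 17
    nb := [898, 7821, 11266, 22578, 36904, 49496, 98592, 4355, 82657, 1283, 8710, 24590, 32922, 3076,
      2344, 69744, 33088]
    tri := [(0, 1, 7), (0, 1, 9), (0, 7, 8), (0, 8, 9), (1, 2, 10), (1, 2, 11), (1, 3, 11), (1, 3, 12),
      (1, 7, 12), (1, 9, 10), (2, 10, 13), (2, 11, 13), (3, 4, 5), (3, 4, 12), (3, 5, 14), (3, 11,
      14), (4, 5, 15), (4, 12, 15), (5, 6, 8), (5, 6, 15), (5, 8, 14), (6, 8, 16), (6, 15, 16)]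
    fin := [0, 0, 0, 3, 4, 4, 4, 0, 4, 9, 0, 3, 3, 13, 14, 15, 16]
    chd := [(4, 3), (4, 15)]
    steps := [(0, 1), (0, 2), (0, 7), (0, 10), (3, 11), (3, 12), (4, 5), (4, 6), (4, 8)] }
  rep := [3, 0, 4, 15, 9, 14, 13, 16]

noncomputable def v2523 : Cov.CovD where
  P := 3
  N := 5
  pl := [2, 6, 7, 9]
  lev := [⟨[], [], [(1, 2)], [4], [(0, 1, []), (1, 2, [0, 3])]⟩,
    ⟨[], [(0, 0), (0, 1), (0, 2)], [(0, 0), (0, 1), (1, 1)], [4], [(0, 1, []), (3, 1, []),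
      (4, 0, [2]), (5, 0, [2])]⟩,
    ⟨[(0, 1)], [(1, 0), (1, 1)], [(0, 1)], [6], [(3, 1, []), (4, 0, [2])]⟩,
    ⟨[(0, 1), (1, 2)], [(1, 0), (1, 1), (2, 0)], [(0, 0)], [5], [(4, 0, [2]), (5, 0, [2])]⟩,
    ⟨[(1, 3)], [(1, 0), (3, 0), (3, 3)], [(0, 3)], [], [(5, 0, [2]), (8, 3, [2])]⟩,
    ⟨[(1, 3), (3, 4)], [(0, 2), (3, 0), (3, 2), (3, 3), (4, 0), (4, 2), (4, 3)], [(2, 3)],
      [5], [(1, 2, [0, 3]), (8, 3, [2])]⟩,
    ⟨[(3, 5), (4, 5)], [(0, 2), (4, 3), (5, 2), (5, 3)], [(2, 3)], [7], [(1, 2, [0, 3]),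
      (8, 3, [2])]⟩]
  Ta := [((0, 1), 1, 2), ((0, 5), 1, 0), ((3, 2), 1, 4), ((3, 6), 1, 6), ((4, 6), 0, 6), ((4, 7),
    0, 5), ((5, 0), 0, 1), ((5, 8), 0, 3)]
  Tb := [((0, 1, 5), 1, 2, 0), ((1, 0, 2), 2, 1, 4), ((1, 0, 7), 2, 1, 5), ((1, 0, 9), 2, 1, 7),
    ((1, 2, 7), 2, 4, 5), ((1, 2, 9), 2, 4, 7), ((1, 7, 9), 2, 5, 7), ((2, 1, 3), 4, 2, 1),
    ((3, 2, 6), 1, 4, 6), ((4, 6, 7), 0, 6, 5), ((5, 0, 8), 0, 1, 3), ((6, 3, 4), 6, 1, 0),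
    ((7, 1, 4), 5, 2, 0), ((8, 5, 9), 3, 0, 7), ((9, 1, 8), 7, 2, 3)]
  Tc := [(2, 0, 3)]
  Td := [((0, 2), (4, 6), 6), ((0, 2), (4, 7), 5), ((0, 2), (5, 0), 1), ((0, 2), (5, 8), 3), ((2,
    0), (1, 0), 1), ((2, 0), (1, 2), 4), ((2, 0), (1, 7), 5), ((2, 0), (1, 9), 7), ((2, 3),
    (1, 0), 1), ((2, 3), (1, 2), 4), ((2, 3), (1, 7), 5), ((2, 3), (1, 9), 7), ((3, 2), (8,
    5), 0), ((3, 2), (8, 9), 7)]
  G := [[0, 0, 0x11c111a161811c11161a14c, 0x95dd222895dd2224c, 0x3193a3b1462812bb481bb4a249],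
    [0, 0, 0x11c111a161811c11161a14a, 0, 0x3193a5b1464831493a1918e13bb48b94ac43193a5b14688b],
    [0, 0x519162d1246d1288a9151a2d128a8151a446c, 0x11c111a162811c11161a24c,
    0xccdd2218ccdd2214c, 0xa23b98628bb46182b942288a8b34e149], [0, 0,
    0x11c111a161811c1c1125a14c, 0, 0x293a82b6a394618293a39a28bb4614a]]

noncomputable def n2523 : Ent := ⟨e2523, noF, [], [], [(7, 16, [1580044410770988437309982408355971841652082177953823432505699434497, 0]), (13, 16, [1580044410770988437309982408355971841652082177953823432505699442689, 0])]⟩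

def c2523 : PLift (Cov.check n2523.C.D v2523 = true) := ⟨by decide +kernel⟩

def b2523 : PLift (entF (fidx ts) 400 2523 n2523 = true) := ⟨by decide +kernel⟩

theorem g2523 : GoodF (fidx ts) 400 2523 := GoodF.ofV v2523 n2523 c2523.down b2523.down

/-- 4846464:1988/6 -/
noncomputable def e2524 : SCfg where
  D := {
    a := 7
    L := 9
    kp := 6
    inn := [(0, 1), (1, 0), (1, 2), (1, 3), (2, 1), (3, 1), (3, 4), (3, 5), (4, 3), (4, 5), (5, 3), (5,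
      4), (5, 6), (6, 5)]
    mix := [(0, 0), (0, 1), (0, 2), (1, 0), (1, 2), (1, 3), (1, 4), (1, 5), (2, 3), (2, 4), (2, 6), (3,
      4), (3, 5), (3, 7), (4, 5), (4, 8), (5, 6), (5, 7), (5, 8), (6, 1), (6, 6), (6, 8)]
    cl := [1, 2, 6, 1, 0, 0, 3, 5, 4]
    chq := [(0, 2), (2, 0), (2, 5), (5, 2)]
    rng := [(0, 1), (0, 5), (1, 0), (1, 2), (1, 6), (1, 8), (2, 1), (2, 3), (3, 2), (3, 6), (4, 6), (4,
      7), (5, 0), (5, 8), (6, 1), (6, 3), (6, 4), (6, 7), (7, 4), (7, 6), (8, 1), (8, 5)]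
    lev := [] }
  links := [[1, 7, 8, 9], [7, 0, 9, 10, 2, 11, 3, 12], [11, 1, 10, 13], [12, 1, 11, 14, 5, 4], [12, 3, 5,
    15], [15, 4, 3, 14, 13, 6], [15, 5, 13, 8]]
  P := {
    a := 7
    N := 16
    nb := [898, 7821, 11266, 22578, 36904, 57432, 41248, 4355, 41665, 1283, 8710, 24590, 32922, 19812,
      10280, 4464]
    tri := [(0, 1, 7), (0, 1, 9), (0, 7, 8), (0, 8, 9), (1, 2, 10), (1, 2, 11), (1, 3, 11), (1, 3, 12),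
      (1, 7, 12), (1, 9, 10), (2, 10, 13), (2, 11, 13), (3, 4, 5), (3, 4, 12), (3, 5, 14), (3, 11,
      14), (4, 5, 15), (4, 12, 15), (5, 6, 13), (5, 6, 15), (5, 13, 14), (6, 8, 13), (6, 8, 15)]
    fin := [0, 0, 0, 3, 4, 4, 4, 0, 4, 9, 0, 3, 3, 13, 14, 15]
    chd := [(4, 3), (4, 14)]
    steps := [(0, 1), (0, 2), (0, 7), (0, 10), (3, 11), (3, 12), (4, 5), (4, 6), (4, 8)] }
  rep := [3, 0, 4, 13, 15, 14, 9]

noncomputable def v2524 : Cov.CovD where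
  P := 3
  N := 4
  pl := [2, 6, 8]
  lev := [⟨[], [], [(1, 2)], [6], [(0, 1, []), (1, 2, [0, 5])]⟩,
    ⟨[], [(0, 0), (0, 1), (0, 2)], [(0, 0), (0, 1), (1, 1)], [6], [(0, 1, []), (3, 1, []),
      (4, 0, [2]), (5, 0, [2])]⟩,
    ⟨[(0, 1)], [(1, 0), (1, 1)], [(0, 1)], [3], [(3, 1, []), (4, 0, [2])]⟩,
    ⟨[(0, 1), (1, 2)], [(1, 0), (1, 1), (1, 5), (2, 0)], [(0, 0), (0, 5)], [], [(4, 0,
      [2]), (5, 0, [2]), (7, 5, [2])]⟩,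
    ⟨[(1, 3)], [(1, 0), (3, 0), (3, 5)], [], [4], [(5, 0, [2])]⟩,
    ⟨[(1, 3), (3, 4)], [(3, 0), (3, 5), (4, 0), (4, 5)], [], [3, 4], [(7, 5, [2])]⟩,
    ⟨[(3, 5), (4, 5)], [(0, 2), (5, 2), (5, 5)], [], [3, 4], [(1, 2, [0, 5])]⟩]
  Ta := [((0, 1), 1, 2), ((0, 5), 1, 0), ((3, 2), 1, 6), ((3, 6), 1, 3), ((4, 6), 0, 3), ((4, 7),
    0, 5), ((5, 0), 0, 1), ((5, 8), 0, 4)]
  Tb := [((0, 1, 5), 1, 2, 0), ((1, 0, 2), 2, 1, 6), ((1, 0, 6), 2, 1, 3), ((1, 0, 8), 2, 1, 4),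
    ((1, 2, 6), 2, 6, 3), ((1, 2, 8), 2, 6, 4), ((1, 6, 8), 2, 3, 4), ((2, 1, 3), 6, 2, 1),
    ((3, 2, 6), 1, 6, 3), ((4, 6, 7), 0, 3, 5), ((5, 0, 8), 0, 1, 4), ((6, 1, 3), 3, 2, 1),
    ((6, 1, 4), 3, 2, 0), ((6, 1, 7), 3, 2, 5), ((6, 3, 4), 3, 1, 0), ((6, 3, 7), 3, 1, 5),
    ((6, 4, 7), 3, 0, 5), ((7, 4, 6), 5, 0, 3), ((8, 1, 5), 4, 2, 0)]
  Tc := [(2, 0, 5)]
  Td := [((0, 2), (4, 6), 3), ((0, 2), (4, 7), 5), ((0, 2), (5, 0), 1), ((0, 2), (5, 8), 4), ((2,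
    0), (1, 0), 1), ((2, 0), (1, 2), 6), ((2, 0), (1, 6), 3), ((2, 0), (1, 8), 4), ((2, 5),
    (1, 0), 1), ((2, 5), (1, 2), 6), ((2, 5), (1, 6), 3), ((2, 5), (1, 8), 4), ((5, 2), (7,
    4), 0), ((5, 2), (7, 6), 3)]
  G := [[0, 0, 0xc121ac121a62c1216c1229c2c1, 0xd21224d212285, 0x11118b2eb428242111182ab941e249],
    [0, 0, 0x8182c121621443a9c121aa161c61c1, 0,
    0x11b269448811182ab421324a11943ac4213885488b], [0, 0x11221111c26811221111c2a4c,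
    0xc1216c121661c1216c121aa2c1, 0xc2116218c2116224c, 0x2217219a42841246213829ac149], [0, 0,
    0x2111c3c1a16618e121cc1a16a14c, 0, 0xa217819a4181423ca21311a842e14a]]

noncomputable def n2524 : Ent := ⟨e2524, noF, [], [], []⟩

def c2524 : PLift (Cov.check n2524.C.D v2524 = true) := ⟨by decide +kernel⟩

def b2524 : PLift (entF (fidx ts) 400 2524 n2524 = true) := ⟨by decide +kernel⟩

theorem g2524 : GoodF (fidx ts) 400 2524 := GoodF.ofV v2524 n2524 c2524.down b2524.down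

/-- 4846464:1988/5 -/
noncomputable def e2525 : SCfg where
  D := {
    a := 7
    L := 10
    kp := 7
    inn := [(0, 1), (1, 0), (1, 2), (1, 3), (2, 1), (3, 1), (3, 4), (3, 5), (4, 3), (4, 5), (5, 3), (5,
      4), (5, 6), (6, 5)]
    mix := [(0, 0), (0, 1), (0, 2), (1, 0), (1, 2), (1, 3), (1, 4), (1, 5), (2, 3), (2, 4), (2, 6), (3,
      4), (3, 5), (3, 7), (4, 5), (4, 8), (5, 7), (5, 8), (5, 9), (6, 1), (6, 8), (6, 9)]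
    cl := [1, 2, 5, 1, 0, 0, 7, 4, 3, 6]
    chq := [(0, 2), (2, 0), (2, 4), (4, 2)]
    rng := [(0, 1), (0, 5), (1, 0), (1, 2), (1, 8), (1, 9), (2, 1), (2, 3), (3, 2), (3, 6), (4, 6), (4,
      7), (5, 0), (5, 8), (6, 3), (6, 4), (7, 4), (7, 9), (8, 1), (8, 5), (9, 1), (9, 7)]
    lev := [] }
  links := [[1, 7, 8, 9], [7, 0, 9, 10, 2, 11, 3, 12], [11, 1, 10, 13], [12, 1, 11, 14, 5, 4], [12, 3, 5,
    15], [15, 4, 3, 14, 16, 6], [15, 5, 16, 8]]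
  P := {
    a := 7
    N := 17
    nb := [898, 7821, 11266, 22578, 36904, 114776, 98592, 4355, 99009, 1283, 8710, 24590, 32922, 3076,
      67624, 4464, 16736]
    tri := [(0, 1, 7), (0, 1, 9), (0, 7, 8), (0, 8, 9), (1, 2, 10), (1, 2, 11), (1, 3, 11), (1, 3, 12),
      (1, 7, 12), (1, 9, 10), (2, 10, 13), (2, 11, 13), (3, 4, 5), (3, 4, 12), (3, 5, 14), (3, 11,
      14), (4, 5, 15), (4, 12, 15), (5, 6, 15), (5, 6, 16), (5, 14, 16), (6, 8, 15), (6, 8, 16)]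
    fin := [0, 0, 0, 3, 4, 4, 4, 0, 4, 9, 0, 3, 3, 13, 14, 15, 16]
    chd := [(4, 3), (4, 14)]
    steps := [(0, 1), (0, 2), (0, 7), (0, 10), (3, 11), (3, 12), (4, 5), (4, 6), (4, 8)] }
  rep := [3, 0, 4, 15, 14, 9, 16, 13]

noncomputable def v2525 : Cov.CovD where
  P := 3
  N := 5
  pl := [2, 6, 8, 9]
  lev := [⟨[], [], [(1, 2)], [5], [(0, 1, []), (1, 2, [0, 4])]⟩,
    ⟨[], [(0, 0), (0, 1), (0, 2)], [(0, 0), (0, 1), (1, 1)], [5], [(0, 1, []), (3, 1, []),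
      (4, 0, [2]), (5, 0, [2])]⟩,
    ⟨[(0, 1)], [(1, 0), (1, 1)], [(0, 1)], [7], [(3, 1, []), (4, 0, [2])]⟩,
    ⟨[(0, 1), (1, 2)], [(1, 0), (1, 1), (1, 4), (2, 0)], [(0, 0), (0, 4)], [], [(4, 0,
      [2]), (5, 0, [2]), (7, 4, [2])]⟩,
    ⟨[(1, 3)], [(1, 0), (3, 0), (3, 4)], [], [3], [(5, 0, [2])]⟩,
    ⟨[(1, 3), (3, 4)], [(3, 0), (3, 4), (4, 0), (4, 4)], [], [3, 6], [(7, 4, [2])]⟩,
    ⟨[(3, 5), (4, 5)], [(0, 2), (5, 2), (5, 4)], [], [3, 6], [(1, 2, [0, 4])]⟩]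
  Ta := [((0, 1), 1, 2), ((0, 5), 1, 0), ((3, 2), 1, 5), ((3, 6), 1, 7), ((4, 6), 0, 7), ((4, 7),
    0, 4), ((5, 0), 0, 1), ((5, 8), 0, 3)]
  Tb := [((0, 1, 5), 1, 2, 0), ((1, 0, 2), 2, 1, 5), ((1, 0, 8), 2, 1, 3), ((1, 0, 9), 2, 1, 6),
    ((1, 2, 8), 2, 5, 3), ((1, 2, 9), 2, 5, 6), ((1, 8, 9), 2, 3, 6), ((2, 1, 3), 5, 2, 1),
    ((3, 2, 6), 1, 5, 7), ((4, 6, 7), 0, 7, 4), ((5, 0, 8), 0, 1, 3), ((6, 3, 4), 7, 1, 0),
    ((7, 4, 9), 4, 0, 6), ((8, 1, 5), 3, 2, 0), ((9, 1, 7), 6, 2, 4)]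
  Tc := [(2, 0, 4)]
  Td := [((0, 2), (4, 6), 7), ((0, 2), (4, 7), 4), ((0, 2), (5, 0), 1), ((0, 2), (5, 8), 3), ((2,
    0), (1, 0), 1), ((2, 0), (1, 2), 5), ((2, 0), (1, 8), 3), ((2, 0), (1, 9), 6), ((2, 4),
    (1, 0), 1), ((2, 4), (1, 2), 5), ((2, 4), (1, 8), 3), ((2, 4), (1, 9), 6), ((4, 2), (7,
    4), 0), ((4, 2), (7, 9), 6)]
  G := [[0, 0, 0xc1a16c161a61c161ac1a16a2c1, 0xd21228d21224c, 0x11118b2eb428242111182ab941e249],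
    [0, 0, 0xc1a16a12144da1814122dc161ac1c1, 0,
    0x11118b2eb411118b2eb4c8341111182ab848e11113ac781b969ac43], [0,
    0x681ba417c2681ba417c268281b4a41fc25246481f415aaa4c, 0xc161ac1a1661a161ca161ca2c1,
    0x9252c228824211e224c, 0x481d82c1fa42884215c881b2815246e149], [0, 0,
    0x4121887a161c61a161ca161ca1c1, 0, 0x81982c1f6948618b85481928861124ee14a]]

noncomputable def n2525 : Ent := ⟨e2525, noF, [], [], [(13, 16, [1580044410770988437309982408355971841652082177953823432505699450881, 0])]⟩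

def c2525 : PLift (Cov.check n2525.C.D v2525 = true) := ⟨by decide +kernel⟩

def b2525 : PLift (entF (fidx ts) 400 2525 n2525 = true) := ⟨by decide +kernel⟩

theorem g2525 : GoodF (fidx ts) 400 2525 := GoodF.ofV v2525 n2525 c2525.down b2525.down

/-- 4846464:1988/7 -/
noncomputable def e2526 : SCfg where
  D := {
    a := 7
    L := 10
    kp := 7
    inn := [(0, 1), (1, 0), (1, 2), (1, 3), (2, 1), (3, 1), (3, 4), (3, 5), (4, 3), (4, 5), (5, 3), (5,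
      4), (5, 6), (6, 5)]
    mix := [(0, 0), (0, 1), (0, 2), (1, 0), (1, 2), (1, 3), (1, 4), (1, 5), (2, 3), (2, 4), (2, 6), (3,
      4), (3, 5), (3, 7), (4, 5), (4, 8), (5, 6), (5, 7), (5, 8), (6, 6), (6, 8), (6, 9)]
    cl := [1, 7, 5, 1, 0, 0, 2, 4, 3, 6]
    chq := [(3, 4), (4, 3), (4, 6), (6, 4)]
    rng := [(0, 1), (0, 5), (1, 0), (1, 2), (2, 1), (2, 3), (3, 2), (3, 6), (4, 6), (4, 7), (5, 0), (5,
      8), (6, 3), (6, 4), (6, 7), (6, 9), (7, 4), (7, 6), (8, 5), (8, 9), (9, 6), (9, 8)]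
    lev := [] }
  links := [[1, 7, 8, 9], [7, 0, 9, 10, 2, 11, 3, 12], [11, 1, 10, 13], [12, 1, 11, 14, 5, 4], [12, 3, 5,
    15], [15, 4, 3, 14, 13, 6], [15, 5, 13, 16]]
  P := {
    a := 7
    N := 17
    nb := [898, 7821, 11266, 22578, 36904, 57432, 106528, 4355, 641, 1283, 8710, 24590, 32922, 85092,
      10280, 69744, 41024]
    tri := [(0, 1, 7), (0, 1, 9), (0, 7, 8), (0, 8, 9), (1, 2, 10), (1, 2, 11), (1, 3, 11), (1, 3, 12),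
      (1, 7, 12), (1, 9, 10), (2, 10, 13), (2, 11, 13), (3, 4, 5), (3, 4, 12), (3, 5, 14), (3, 11,
      14), (4, 5, 15), (4, 12, 15), (5, 6, 13), (5, 6, 15), (5, 13, 14), (6, 13, 16), (6, 15, 16)]
    fin := [0, 0, 0, 3, 3, 5, 5, 0, 8, 9, 0, 3, 3, 13, 5, 15, 16]
    chd := [(5, 15), (5, 16)]
    steps := [(0, 1), (0, 2), (0, 7), (0, 10), (3, 4), (3, 11), (3, 12), (5, 6), (5, 14)] }
  rep := [3, 0, 13, 15, 5, 9, 16, 8]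

noncomputable def v2526 : Cov.CovD where
  P := 3
  N := 5
  pl := [1, 2, 6]
  lev := [⟨[], [], [], [5, 7], [(0, 1, [])]⟩,
    ⟨[], [(0, 0), (0, 1)], [(0, 0), (0, 1), (1, 1)], [5], [(0, 1, []), (3, 1, []), (4, 0,
      []), (5, 0, [])]⟩,
    ⟨[(0, 1)], [(1, 0), (1, 1)], [(0, 1)], [2], [(3, 1, []), (4, 0, [])]⟩,
    ⟨[(0, 1), (1, 2)], [(1, 0), (1, 1), (1, 4), (2, 0)], [(0, 0), (0, 4)], [], [(4, 0, []),
      (5, 0, []), (7, 4, [3, 6])]⟩,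
    ⟨[(1, 3)], [(1, 0), (3, 0), (3, 3), (3, 4)], [(0, 3)], [], [(5, 0, []), (8, 3, [4])]⟩,
    ⟨[(1, 3), (3, 4)], [(3, 0), (3, 3), (3, 4), (4, 0), (4, 3), (4, 4)], [(3, 4)], [2],
      [(7, 4, [3, 6]), (8, 3, [4])]⟩,
    ⟨[(3, 5), (4, 5)], [(4, 3), (5, 3), (5, 4), (5, 6)], [(3, 6)], [2], [(8, 3, [4]), (9,
      6, [4])]⟩]
  Ta := [((0, 1), 1, 7), ((0, 5), 1, 0), ((3, 2), 1, 5), ((3, 6), 1, 2), ((4, 6), 0, 2), ((4, 7),
    0, 4), ((5, 0), 0, 1), ((5, 8), 0, 3)]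
  Tb := [((0, 1, 5), 1, 7, 0), ((1, 0, 2), 7, 1, 5), ((2, 1, 3), 5, 7, 1), ((3, 2, 6), 1, 5, 2),
    ((4, 6, 7), 0, 2, 4), ((5, 0, 8), 0, 1, 3), ((6, 3, 4), 2, 1, 0), ((6, 3, 7), 2, 1, 4),
    ((6, 3, 9), 2, 1, 6), ((6, 4, 7), 2, 0, 4), ((6, 4, 9), 2, 0, 6), ((6, 7, 9), 2, 4, 6),
    ((7, 4, 6), 4, 0, 2), ((8, 5, 9), 3, 0, 6), ((9, 6, 8), 6, 2, 3)]
  Tc := [(4, 3, 6)]
  Td := [((3, 4), (8, 5), 0), ((3, 4), (8, 9), 6), ((4, 3), (7, 4), 0), ((4, 3), (7, 6), 2), ((4,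
    6), (7, 4), 0), ((4, 6), (7, 6), 2), ((6, 4), (9, 6), 2), ((6, 4), (9, 8), 3)]
  G := [[0, 0, 0x2a8e144a1628624e18868a842a8e144a46822c248ce1a4cd, 0,
    0x12321b9462812321898a842128119a5a2a111a5818c2cd], [0, 0,
    0x2a8e144a1648624e18861a842a8e144a16862c18c61a4ce, 0x189145c24814111cd28c2,
    0x12321898a8412321b94688212a111a56847], [0, 0x8151a414648d12c18a84514918c42e, 0, 0,
    0x288236ab9461823929182ca84282b2ab946223928938a2cd], [0, 0, 0, 0x48cc1628489845c21c2,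
    0x2292289b31a618312868838a14282b2ab94618b]]

noncomputable def n2526 : Ent := ⟨e2526, noF, [], [], [(8, 16, [1580044410770988437309982408355971841652082177953823432505699450881, 0])]⟩

def c2526 : PLift (Cov.check n2526.C.D v2526 = true) := ⟨by decide +kernel⟩

def b2526 : PLift (entF (fidx ts) 400 2526 n2526 = true) := ⟨by decide +kernel⟩

theorem g2526 : GoodF (fidx ts) 400 2526 := GoodF.ofV v2526 n2526 c2526.down b2526.down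

/-- 4846464:1988/8 -/
noncomputable def e2527 : SCfg where
  D := {
    a := 7
    L := 10
    kp := 7
    inn := [(0, 1), (1, 0), (1, 2), (1, 3), (2, 1), (3, 1), (3, 4), (3, 5), (4, 3), (4, 5), (5, 3), (5,
      4), (5, 6), (6, 5)]
    mix := [(0, 0), (0, 1), (0, 2), (1, 0), (1, 2), (1, 3), (1, 4), (1, 5), (2, 3), (2, 4), (2, 6), (3,
      4), (3, 5), (3, 7), (4, 5), (4, 8), (5, 7), (5, 8), (5, 9), (6, 6), (6, 8), (6, 9)]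
    cl := [1, 7, 5, 1, 0, 0, 2, 4, 3, 6]
    chq := [(2, 4), (3, 4), (4, 2), (4, 3)]
    rng := [(0, 1), (0, 5), (1, 0), (1, 2), (2, 1), (2, 3), (3, 2), (3, 6), (4, 6), (4, 7), (5, 0), (5,
      8), (6, 3), (6, 4), (6, 8), (6, 9), (7, 4), (7, 9), (8, 5), (8, 6), (9, 6), (9, 7)]
    lev := [] }
  links := [[1, 7, 8, 9], [7, 0, 9, 10, 2, 11, 3, 12], [11, 1, 10, 13], [12, 1, 11, 14, 5, 4], [12, 3, 5,
    15], [15, 4, 3, 14, 16, 6], [15, 5, 16, 13]]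
  P := {
    a := 7
    N := 17
    nb := [898, 7821, 11266, 22578, 36904, 114776, 106528, 4355, 641, 1283, 8710, 24590, 32922,
      101444, 67624, 12400, 24672]
    tri := [(0, 1, 7), (0, 1, 9), (0, 7, 8), (0, 8, 9), (1, 2, 10), (1, 2, 11), (1, 3, 11), (1, 3, 12),
      (1, 7, 12), (1, 9, 10), (2, 10, 13), (2, 11, 13), (3, 4, 5), (3, 4, 12), (3, 5, 14), (3, 11,
      14), (4, 5, 15), (4, 12, 15), (5, 6, 15), (5, 6, 16), (5, 14, 16), (6, 13, 15), (6, 13, 16)]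
    fin := [0, 0, 0, 3, 3, 5, 6, 0, 8, 9, 0, 3, 3, 6, 5, 15, 16]
    chd := [(5, 15), (6, 5)]
    steps := [(0, 1), (0, 2), (0, 7), (0, 10), (3, 4), (3, 11), (3, 12), (5, 14), (6, 13)] }
  rep := [3, 0, 6, 15, 5, 9, 16, 8]

noncomputable def v2527 : Cov.CovD where
  P := 3
  N := 5
  pl := [1, 2, 9]
  lev := [⟨[], [], [], [5, 7], [(0, 1, [])]⟩,
    ⟨[], [(0, 0), (0, 1)], [(0, 0), (0, 1), (1, 1)], [5], [(0, 1, []), (3, 1, []), (4, 0,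
      []), (5, 0, [])]⟩,
    ⟨[(0, 1)], [(1, 0), (1, 1), (1, 2)], [(0, 1), (0, 2), (1, 2)], [], [(3, 1, []), (4, 0,
      []), (6, 2, [4])]⟩,
    ⟨[(0, 1), (1, 2)], [(1, 0), (1, 1), (1, 4), (2, 0)], [(0, 0), (0, 4)], [], [(4, 0, []),
      (5, 0, []), (7, 4, [2, 3])]⟩,
    ⟨[(1, 3)], [(1, 0), (3, 0), (3, 3), (3, 4)], [(0, 3)], [], [(5, 0, []), (8, 3, [4])]⟩,
    ⟨[(1, 3), (3, 4)], [(3, 0), (3, 3), (3, 4), (4, 0), (4, 3), (4, 4)], [(3, 4)], [6],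
      [(7, 4, [2, 3]), (8, 3, [4])]⟩,
    ⟨[(3, 5), (4, 5)], [(2, 2), (4, 3), (5, 2), (5, 3), (5, 4)], [(2, 3)], [6], [(6, 2,
      [4]), (8, 3, [4])]⟩]
  Ta := [((0, 1), 1, 7), ((0, 5), 1, 0), ((3, 2), 1, 5), ((3, 6), 1, 2), ((4, 6), 0, 2), ((4, 7),
    0, 4), ((5, 0), 0, 1), ((5, 8), 0, 3)]
  Tb := [((0, 1, 5), 1, 7, 0), ((1, 0, 2), 7, 1, 5), ((2, 1, 3), 5, 7, 1), ((3, 2, 6), 1, 5, 2),
    ((4, 6, 7), 0, 2, 4), ((5, 0, 8), 0, 1, 3), ((6, 3, 4), 2, 1, 0), ((6, 3, 8), 2, 1, 3),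
    ((6, 3, 9), 2, 1, 6), ((6, 4, 8), 2, 0, 3), ((6, 4, 9), 2, 0, 6), ((6, 8, 9), 2, 3, 6),
    ((7, 4, 9), 4, 0, 6), ((8, 5, 6), 3, 0, 2), ((9, 6, 7), 6, 2, 4)]
  Tc := [(4, 2, 3)]
  Td := [((2, 4), (6, 3), 1), ((2, 4), (6, 4), 0), ((2, 4), (6, 8), 3), ((2, 4), (6, 9), 6), ((3,
    4), (8, 5), 0), ((3, 4), (8, 6), 2), ((4, 2), (7, 4), 0), ((4, 2), (7, 9), 6), ((4, 3),
    (7, 4), 0), ((4, 3), (7, 9), 6)]
  G := [[0, 0, 0xe12e14628e12e18a84612818e18e2e12e18a2cd, 0,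
    0x11118b2eb42811332e388178a8411118b2eb482441182a381b49e8cd], [0, 0,
    0xe12e14648e12e18a44e12c161a688b, 0xd2128d2128c2,
    0x221d281899e9a8411118b2eb4881134382a18158e847], [0,
    0x98388a41f46484246481f11ca84419246688178c82e, 0, 0,
    0x6821f2417a428a462196a8178a8482c1f281586211a46221b8848e8cd], [0, 0, 0,
    0xd24d22c481352c28c2, 0x4821f8241fa4182a1d2a8178a844821f8241fa418b]]

noncomputable def n2527 : Ent := ⟨e2527, noF, [], [], [(8, 16, [1580044410770988437309982408355971841652082177953823432505699442689, 0])]⟩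

def c2527 : PLift (Cov.check n2527.C.D v2527 = true) := ⟨by decide +kernel⟩

def b2527 : PLift (entF (fidx ts) 400 2527 n2527 = true) := ⟨by decide +kernel⟩

theorem g2527 : GoodF (fidx ts) 400 2527 := GoodF.ofV v2527 n2527 c2527.down b2527.down

/-- 4846464:1988 -/
noncomputable def e2528 : SCfg where
  D := {
    a := 7
    L := 11
    kp := 8
    inn := [(0, 1), (1, 0), (1, 2), (1, 3), (2, 1), (3, 1), (3, 4), (3, 5), (4, 3), (4, 5), (5, 3), (5,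
      4), (5, 6), (6, 5)]
    mix := [(0, 0), (0, 1), (0, 2), (1, 0), (1, 2), (1, 3), (1, 4), (1, 5), (2, 3), (2, 4), (2, 6), (3,
      4), (3, 5), (3, 7), (4, 5), (4, 8), (5, 7), (5, 8), (5, 9), (6, 8), (6, 9), (6, 10)]
    cl := [1, 7, 2, 1, 0, 0, 8, 4, 3, 5, 6]
    chq := [(3, 4), (4, 3), (4, 6), (6, 4)]
    rng := [(0, 1), (0, 5), (1, 0), (1, 2), (2, 1), (2, 3), (3, 2), (3, 6), (4, 6), (4, 7), (5, 0), (5,
      8), (6, 3), (6, 4), (7, 4), (7, 9), (8, 5), (8, 10), (9, 7), (9, 10), (10, 8), (10, 9)]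
    lev := [] }
  links := [[1, 7, 8, 9], [7, 0, 9, 10, 2, 11, 3, 12], [11, 1, 10, 13], [12, 1, 11, 14, 5, 4], [12, 3, 5,
    15], [15, 4, 3, 14, 16, 6], [15, 5, 16, 17]]
  P := {
    a := 7
    N := 18
    nb := [898, 7821, 11266, 22578, 36904, 114776, 229408, 4355, 641, 1283, 8710, 24590, 32922, 3076,
      67624, 135280, 147552, 98368]
    tri := [(0, 1, 7), (0, 1, 9), (0, 7, 8), (0, 8, 9), (1, 2, 10), (1, 2, 11), (1, 3, 11), (1, 3, 12),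
      (1, 7, 12), (1, 9, 10), (2, 10, 13), (2, 11, 13), (3, 4, 5), (3, 4, 12), (3, 5, 14), (3, 11,
      14), (4, 5, 15), (4, 12, 15), (5, 6, 15), (5, 6, 16), (5, 14, 16), (6, 15, 17), (6, 16, 17)]
    fin := [0, 0, 0, 3, 3, 5, 5, 0, 8, 9, 0, 3, 3, 13, 5, 15, 16, 17]
    chd := [(5, 15), (5, 17)]
    steps := [(0, 1), (0, 2), (0, 7), (0, 10), (3, 4), (3, 11), (3, 12), (5, 6), (5, 14)] }
  rep := [3, 0, 9, 15, 5, 16, 17, 8, 13]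

noncomputable def v2528 : Cov.CovD where
  P := 3
  N := 6
  pl := [1, 2, 6, 9]
  lev := [⟨[], [], [], [2, 7], [(0, 1, [])]⟩,
    ⟨[], [(0, 0), (0, 1)], [(0, 0), (0, 1), (1, 1)], [2], [(0, 1, []), (3, 1, []), (4, 0,
      []), (5, 0, [])]⟩,
    ⟨[(0, 1)], [(1, 0), (1, 1)], [(0, 1)], [8], [(3, 1, []), (4, 0, [])]⟩,
    ⟨[(0, 1), (1, 2)], [(1, 0), (1, 1), (1, 4), (2, 0)], [(0, 0), (0, 4)], [], [(4, 0, []),
      (5, 0, []), (7, 4, [3, 6])]⟩,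
    ⟨[(1, 3)], [(1, 0), (3, 0), (3, 3), (3, 4)], [(0, 3)], [], [(5, 0, []), (8, 3, [4])]⟩,
    ⟨[(1, 3), (3, 4)], [(3, 0), (3, 3), (3, 4), (4, 0), (4, 3), (4, 4)], [(3, 4)], [5],
      [(7, 4, [3, 6]), (8, 3, [4])]⟩,
    ⟨[(3, 5), (4, 5)], [(4, 3), (5, 3), (5, 4), (5, 6)], [(3, 6)], [5], [(8, 3, [4]), (10,
      6, [4])]⟩]
  Ta := [((0, 1), 1, 7), ((0, 5), 1, 0), ((3, 2), 1, 2), ((3, 6), 1, 8), ((4, 6), 0, 8), ((4, 7),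
    0, 4), ((5, 0), 0, 1), ((5, 8), 0, 3)]
  Tb := [((0, 1, 5), 1, 7, 0), ((1, 0, 2), 7, 1, 2), ((2, 1, 3), 2, 7, 1), ((3, 2, 6), 1, 2, 8),
    ((4, 6, 7), 0, 8, 4), ((5, 0, 8), 0, 1, 3), ((6, 3, 4), 8, 1, 0), ((7, 4, 9), 4, 0, 5),
    ((8, 5, 10), 3, 0, 6), ((9, 7, 10), 5, 4, 6), ((10, 8, 9), 6, 3, 5)]
  Tc := [(4, 3, 6)]
  Td := [((3, 4), (8, 5), 0), ((3, 4), (8, 10), 6), ((4, 3), (7, 4), 0), ((4, 3), (7, 9), 5),
    ((4, 6), (7, 4), 0), ((4, 6), (7, 9), 5), ((6, 4), (10, 8), 3), ((6, 4), (10, 9), 5)]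
  G := [[0, 0, 0x225ff2f1598e9a2422fd2e159de9a24c, 0, 0x22fd2e159de5628389365a71c9de56289], [0,
    0, 0xe1339e3484ff46329ff2594ff46c82,
    0x3e575a5b18c861e22fd2e159de9ac4e13b9e344fb46a27d2589619d6d6c89,
    0x81613b9eb44fb4633ed259edd256c82], [0,
    0x2247f2488ff8a264bf248dd4aa9384e4224ff2488ff8a224ff2488ff8aa4c,
    0x6a4ff24e8ff8a24a67746abb8c4c8ce28c, 0, 0xe28ff268cff4628e28ff2e84ff46289], [0, 0,
    0xe28ff2e84ff46182, 0x6a4ff24acff8a144265f4a392e8978e145, 0xe28ff2e84ff46182]]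

noncomputable def n2528 : Ent := ⟨e2528, noF, [], [], [(7, 17, [6903326391201334775872065844685381424292761054348340378595029940015105, 0]), (8, 16, [7334685537875745012586738086077695515070955365108989538292687704010753, 0]), (8, 17, [6903326391201334775872065844685381424292761054348340378595029940031489, 0]), (13, 16, [7334685537875745012586738086077695515070955365108989538292687704023041, 0]), (13, 17, [6903326391201334775872065844685381424292761054348340378595029940039681, 0])]⟩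

def c2528 : PLift (Cov.check n2528.C.D v2528 = true) := ⟨by decide +kernel⟩

def b2528 : PLift (entF (fidx ts) 400 2528 n2528 = true) := ⟨by decide +kernel⟩

theorem g2528 : GoodF (fidx ts) 400 2528 := GoodF.ofV v2528 n2528 c2528.down b2528.down

/-- 4846464:1989/1 -/
noncomputable def e2529 : SCfg where
  D := {
    a := 7
    L := 10
    kp := 7
    inn := [(0, 1), (1, 0), (1, 2), (1, 3), (2, 1), (3, 1), (3, 4), (3, 5), (4, 3), (4, 5), (5, 3), (5,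
      4), (5, 6), (6, 5)]
    mix := [(0, 0), (0, 1), (0, 2), (1, 0), (1, 2), (1, 3), (1, 4), (1, 5), (2, 3), (2, 4), (2, 6), (3,
      4), (3, 5), (3, 7), (4, 7), (4, 8), (5, 5), (5, 8), (5, 9), (6, 1), (6, 8), (6, 9)]
    cl := [1, 4, 2, 1, 0, 0, 7, 5, 3, 6]
    chq := [(0, 3), (0, 4), (3, 0), (4, 0)]
    rng := [(0, 1), (0, 5), (1, 0), (1, 2), (1, 8), (1, 9), (2, 1), (2, 3), (3, 2), (3, 6), (4, 6), (4,
      7), (5, 0), (5, 9), (6, 3), (6, 4), (7, 4), (7, 8), (8, 1), (8, 7), (9, 1), (9, 5)]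
    lev := [] }
  links := [[1, 7, 8, 9], [7, 0, 9, 10, 2, 11, 3, 12], [11, 1, 10, 13], [12, 1, 11, 14, 4, 5], [5, 3, 14,
    15], [12, 3, 4, 15, 6, 16], [16, 5, 15, 8]]
  P := {
    a := 7
    N := 17
    nb := [898, 7821, 11266, 22578, 49192, 102488, 98592, 4355, 99009, 1283, 8710, 24590, 65706, 3076,
      34840, 16752, 4448]
    tri := [(0, 1, 7), (0, 1, 9), (0, 7, 8), (0, 8, 9), (1, 2, 10), (1, 2, 11), (1, 3, 11), (1, 3, 12),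
      (1, 7, 12), (1, 9, 10), (2, 10, 13), (2, 11, 13), (3, 4, 5), (3, 4, 14), (3, 5, 12), (3, 11,
      14), (4, 5, 15), (4, 14, 15), (5, 6, 15), (5, 6, 16), (5, 12, 16), (6, 8, 15), (6, 8, 16)]
    fin := [0, 0, 0, 3, 3, 5, 5, 0, 5, 9, 0, 3, 3, 13, 14, 15, 16]
    chd := [(3, 15), (5, 3)]
    steps := [(0, 1), (0, 2), (0, 7), (0, 10), (3, 4), (3, 11), (3, 12), (5, 6), (5, 8)] }
  rep := [3, 0, 9, 15, 5, 14, 16, 13]

noncomputable def v2529 : Cov.CovD where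
  P := 3
  N := 5
  pl := [2, 6, 7, 9]
  lev := [⟨[], [], [(1, 4)], [2], [(0, 1, []), (1, 4, [0])]⟩,
    ⟨[], [(0, 0), (0, 1), (0, 4)], [(0, 0), (0, 1), (1, 1)], [2], [(0, 1, []), (3, 1, []),
      (4, 0, [3, 4]), (5, 0, [3, 4])]⟩,
    ⟨[(0, 1)], [(1, 0), (1, 1)], [(0, 1)], [7], [(3, 1, []), (4, 0, [3, 4])]⟩,
    ⟨[(0, 1), (1, 2)], [(1, 0), (1, 1), (2, 0)], [(0, 0)], [5], [(4, 0, [3, 4]), (5, 0, [3,
      4])]⟩,
    ⟨[(1, 3)], [(3, 0), (3, 3)], [], [5], [(8, 3, [0])]⟩,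
    ⟨[(1, 3), (3, 4)], [(1, 0), (3, 0), (3, 3), (4, 0), (4, 3)], [(0, 3)], [6], [(5, 0, [3,
      4]), (8, 3, [0])]⟩,
    ⟨[(3, 5), (4, 5)], [(0, 4), (4, 3), (5, 0), (5, 3), (5, 4)], [(3, 4)], [6], [(1, 4,
      [0]), (8, 3, [0])]⟩]
  Ta := [((0, 1), 1, 4), ((0, 5), 1, 0), ((3, 2), 1, 2), ((3, 6), 1, 7), ((4, 6), 0, 7), ((4, 7),
    0, 5), ((5, 0), 0, 1), ((5, 9), 0, 6)]
  Tb := [((0, 1, 5), 1, 4, 0), ((1, 0, 2), 4, 1, 2), ((1, 0, 8), 4, 1, 3), ((1, 0, 9), 4, 1, 6),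
    ((1, 2, 8), 4, 2, 3), ((1, 2, 9), 4, 2, 6), ((1, 8, 9), 4, 3, 6), ((2, 1, 3), 2, 4, 1),
    ((3, 2, 6), 1, 2, 7), ((4, 6, 7), 0, 7, 5), ((5, 0, 9), 0, 1, 6), ((6, 3, 4), 7, 1, 0),
    ((7, 4, 8), 5, 0, 3), ((8, 1, 7), 3, 4, 5), ((9, 1, 5), 6, 4, 0)]
  Tc := [(0, 3, 4)]
  Td := [((0, 3), (4, 6), 7), ((0, 3), (4, 7), 5), ((0, 3), (5, 0), 1), ((0, 3), (5, 9), 6), ((0,
    4), (4, 6), 7), ((0, 4), (4, 7), 5), ((0, 4), (5, 0), 1), ((0, 4), (5, 9), 6), ((3, 0),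
    (8, 1), 4), ((3, 0), (8, 7), 5), ((4, 0), (1, 0), 1), ((4, 0), (1, 2), 2), ((4, 0), (1,
    8), 3), ((4, 0), (1, 9), 6)]
  G := [[0, 0, 0xa1926912581a5a24121214cd181431ada24c, 0, 0x14512361883a995c1e281], [0, 0,
    0xd2611812a14185e14112e911c1296ac42, 0x811d2e9914d9296a185152e918125b5cbac41,
    0x1812691412538b6126118814129187ec82], [0,
    0x811e14111e126112e188c141e1111e1a111e1141e1aa4c, 0x14487a1831e1e24512e1341e1618c, 0,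
    0x536193a195c1e281], [0, 0, 0x1d2e152a1944e142, 0x526192a195c1e181, 0x92615883f1e1e182]]

noncomputable def n2529 : Ent := ⟨e2529, noF, [], [], []⟩

def c2529 : PLift (Cov.check n2529.C.D v2529 = true) := ⟨by decide +kernel⟩

def b2529 : PLift (entF (fidx ts) 400 2529 n2529 = true) := ⟨by decide +kernel⟩

theorem g2529 : GoodF (fidx ts) 400 2529 := GoodF.ofV v2529 n2529 c2529.down b2529.down

/-- 4846464:1989/2 -/
noncomputable def e2530 : SCfg where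
  D := {
    a := 7
    L := 10
    kp := 7
    inn := [(0, 1), (1, 0), (1, 2), (1, 3), (2, 1), (3, 1), (3, 4), (3, 5), (4, 3), (4, 5), (5, 3), (5,
      4), (5, 6), (6, 5)]
    mix := [(0, 0), (0, 1), (0, 2), (1, 0), (1, 2), (1, 3), (1, 4), (1, 5), (2, 3), (2, 4), (2, 6), (3,
      4), (3, 5), (3, 7), (4, 7), (4, 8), (5, 5), (5, 8), (5, 9), (6, 6), (6, 8), (6, 9)]
    cl := [1, 7, 2, 1, 0, 0, 5, 6, 3, 4]
    chq := [(0, 3), (3, 0), (3, 4), (4, 3)]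
    rng := [(0, 1), (0, 5), (1, 0), (1, 2), (2, 1), (2, 3), (3, 2), (3, 6), (4, 6), (4, 7), (5, 0), (5,
      9), (6, 3), (6, 4), (6, 8), (6, 9), (7, 4), (7, 8), (8, 6), (8, 7), (9, 5), (9, 6)]
    lev := [] }
  links := [[1, 7, 8, 9], [7, 0, 9, 10, 2, 11, 3, 12], [11, 1, 10, 13], [12, 1, 11, 14, 4, 5], [5, 3, 14,
    15], [12, 3, 4, 15, 6, 16], [16, 5, 15, 13]]
  P := {
    a := 7
    N := 17
    nb := [898, 7821, 11266, 22578, 49192, 102488, 106528, 4355, 641, 1283, 8710, 24590, 65706,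
      101444, 34840, 24688, 12384]
    tri := [(0, 1, 7), (0, 1, 9), (0, 7, 8), (0, 8, 9), (1, 2, 10), (1, 2, 11), (1, 3, 11), (1, 3, 12),
      (1, 7, 12), (1, 9, 10), (2, 10, 13), (2, 11, 13), (3, 4, 5), (3, 4, 14), (3, 5, 12), (3, 11,
      14), (4, 5, 15), (4, 14, 15), (5, 6, 15), (5, 6, 16), (5, 12, 16), (6, 13, 15), (6, 13, 16)]
    fin := [0, 0, 0, 3, 3, 5, 6, 0, 8, 9, 0, 3, 3, 6, 14, 5, 16]
    chd := [(3, 5), (5, 16)]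
    steps := [(0, 1), (0, 2), (0, 7), (0, 10), (3, 4), (3, 11), (3, 12), (5, 15), (6, 13)] }
  rep := [3, 0, 9, 5, 16, 6, 14, 8]

noncomputable def v2530 : Cov.CovD where
  P := 3
  N := 5
  pl := [1, 2, 6, 7]
  lev := [⟨[], [], [], [2, 7], [(0, 1, [])]⟩,
    ⟨[], [(0, 0), (0, 1)], [(0, 0), (0, 1), (1, 1)], [2], [(0, 1, []), (3, 1, []), (4, 0,
      [3]), (5, 0, [3])]⟩,
    ⟨[(0, 1)], [(1, 0), (1, 1)], [(0, 1)], [5], [(3, 1, []), (4, 0, [3])]⟩,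
    ⟨[(0, 1), (1, 2)], [(1, 0), (1, 1), (2, 0)], [(0, 0)], [6], [(4, 0, [3]), (5, 0, [3])]⟩,
    ⟨[(1, 3)], [(3, 0), (3, 3)], [], [6], [(8, 3, [0, 4])]⟩,
    ⟨[(1, 3), (3, 4)], [(1, 0), (3, 0), (3, 3), (3, 4), (4, 0), (4, 3), (4, 4)], [(0, 3),
      (0, 4), (3, 4)], [], [(5, 0, [3]), (8, 3, [0, 4]), (9, 4, [3])]⟩,
    ⟨[(3, 5), (4, 5)], [(4, 3), (5, 0), (5, 3), (5, 4)], [(3, 4)], [5], [(8, 3, [0, 4]),
      (9, 4, [3])]⟩]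
  Ta := [((0, 1), 1, 7), ((0, 5), 1, 0), ((3, 2), 1, 2), ((3, 6), 1, 5), ((4, 6), 0, 5), ((4, 7),
    0, 6), ((5, 0), 0, 1), ((5, 9), 0, 4)]
  Tb := [((0, 1, 5), 1, 7, 0), ((1, 0, 2), 7, 1, 2), ((2, 1, 3), 2, 7, 1), ((3, 2, 6), 1, 2, 5),
    ((4, 6, 7), 0, 5, 6), ((5, 0, 9), 0, 1, 4), ((6, 3, 4), 5, 1, 0), ((6, 3, 8), 5, 1, 3),
    ((6, 3, 9), 5, 1, 4), ((6, 4, 8), 5, 0, 3), ((6, 4, 9), 5, 0, 4), ((6, 8, 9), 5, 3, 4),
    ((7, 4, 8), 6, 0, 3), ((8, 6, 7), 3, 5, 6), ((9, 5, 6), 4, 0, 5)]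
  Tc := [(3, 0, 4)]
  Td := [((0, 3), (4, 6), 5), ((0, 3), (4, 7), 6), ((0, 3), (5, 0), 1), ((0, 3), (5, 9), 4), ((3,
    0), (8, 6), 5), ((3, 0), (8, 7), 6), ((3, 4), (8, 6), 5), ((3, 4), (8, 7), 6), ((4, 3),
    (9, 5), 0), ((4, 3), (9, 6), 5)]
  G := [[0, 0, 0x41d12e5118d12544b628811d2e9914d9296a24c, 0,
    0x149912e511cd165a628526118981421b4c7e289], [0, 0, 0x1851214b81a1144e142e1149112d6ac42,
    0x1812691412581c7641d2a514c425a6c88192691421887a142e1114d1296ac45,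
    0x812e1185112da64161184112e18183ec82], [0,
    0x141e12111e146111e188c1161111e1a1161112e1c618188cc, 0x5261d2a118949e14592e1b71e1a14c, 0,
    0xd12e138f169628d261d12e1181e189], [0, 0, 0x1dbe1d7a1144e142,
    0x1d2e1d2a1144e141261d12e1d81e189, 0xd17e1b71e16182]]

noncomputable def n2530 : Ent := ⟨e2530, noF, [], [], []⟩

def c2530 : PLift (Cov.check n2530.C.D v2530 = true) := ⟨by decide +kernel⟩

def b2530 : PLift (entF (fidx ts) 400 2530 n2530 = true) := ⟨by decide +kernel⟩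

theorem g2530 : GoodF (fidx ts) 400 2530 := GoodF.ofV v2530 n2530 c2530.down b2530.down

/-- 4846464:1989 -/
noncomputable def e2531 : SCfg where
  D := {
    a := 7
    L := 11
    kp := 8
    inn := [(0, 1), (1, 0), (1, 2), (1, 3), (2, 1), (3, 1), (3, 4), (3, 5), (4, 3), (4, 5), (5, 3), (5,
      4), (5, 6), (6, 5)]
    mix := [(0, 0), (0, 1), (0, 2), (1, 0), (1, 2), (1, 3), (1, 4), (1, 5), (2, 3), (2, 4), (2, 6), (3,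
      4), (3, 5), (3, 7), (4, 7), (4, 8), (5, 5), (5, 8), (5, 9), (6, 8), (6, 9), (6, 10)]
    cl := [2, 6, 0, 5, 0, 0, 7, 4, 3, 1, 8]
    chq := [(1, 3), (1, 4), (3, 1), (4, 1)]
    rng := [(0, 1), (0, 5), (1, 0), (1, 2), (2, 1), (2, 3), (3, 2), (3, 6), (4, 6), (4, 7), (5, 0), (5,
      9), (6, 3), (6, 4), (7, 4), (7, 8), (8, 7), (8, 10), (9, 5), (9, 10), (10, 8), (10, 9)]
    lev := [] }
  links := [[1, 7, 8, 9], [7, 0, 9, 10, 2, 11, 3, 12], [11, 1, 10, 13], [12, 1, 11, 14, 4, 5], [5, 3, 14,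
    15], [12, 3, 4, 15, 6, 16], [16, 5, 15, 17]]
  P := {
    a := 7
    N := 18
    nb := [898, 7821, 11266, 22578, 49192, 102488, 229408, 4355, 641, 1283, 8710, 24590, 65706, 3076,
      34840, 147568, 135264, 98368]
    tri := [(0, 1, 7), (0, 1, 9), (0, 7, 8), (0, 8, 9), (1, 2, 10), (1, 2, 11), (1, 3, 11), (1, 3, 12),
      (1, 7, 12), (1, 9, 10), (2, 10, 13), (2, 11, 13), (3, 4, 5), (3, 4, 14), (3, 5, 12), (3, 11,
      14), (4, 5, 15), (4, 14, 15), (5, 6, 15), (5, 6, 16), (5, 12, 16), (6, 15, 17), (6, 16, 17)]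
    fin := [0, 1, 1, 1, 4, 4, 6, 0, 8, 1, 10, 1, 1, 13, 4, 6, 16, 17]
    chd := [(4, 16), (6, 16)]
    steps := [(0, 7), (1, 2), (1, 3), (1, 9), (1, 11), (1, 12), (4, 5), (4, 14), (6, 15)] }
  rep := [1, 16, 0, 6, 4, 10, 8, 13, 17]

noncomputable def v2531 : Cov.CovD where
  P := 3
  N := 6
  pl := [0, 1, 3, 6, 10]
  lev := [⟨[], [], [], [2, 6], [(2, 0, [])]⟩,
    ⟨[], [(0, 0)], [(0, 0)], [2, 5], [(2, 0, []), (4, 0, []), (5, 0, [])]⟩,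
    ⟨[(0, 1)], [(1, 0)], [], [5, 7], [(4, 0, [])]⟩,
    ⟨[(0, 1), (1, 2)], [(1, 0), (1, 4), (2, 0)], [(0, 0), (0, 4)], [], [(4, 0, []), (5, 0,
      []), (7, 4, [1])]⟩,
    ⟨[(1, 3)], [(3, 0), (3, 3), (3, 4)], [(3, 4)], [], [(7, 4, [1]), (8, 3, [1])]⟩,
    ⟨[(1, 3), (3, 4)], [(1, 0), (3, 0), (3, 1), (3, 3), (3, 4), (4, 0), (4, 1), (4, 3), (4,
      4)], [(0, 1), (0, 3), (1, 3)], [], [(5, 0, []), (8, 3, [1]), (9, 1, [3, 4])]⟩,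
    ⟨[(3, 5), (4, 5)], [(4, 3), (5, 0), (5, 1), (5, 3)], [(1, 3)], [8], [(8, 3, [1]), (9,
      1, [3, 4])]⟩]
  Ta := [((2, 1), 0, 6), ((2, 3), 0, 5), ((4, 6), 0, 7), ((4, 7), 0, 4), ((5, 0), 0, 2), ((5, 9),
    0, 1)]
  Tb := [((0, 1, 5), 2, 6, 0), ((1, 0, 2), 6, 2, 0), ((2, 1, 3), 0, 6, 5), ((3, 2, 6), 5, 0, 7),
    ((4, 6, 7), 0, 7, 4), ((5, 0, 9), 0, 2, 1), ((6, 3, 4), 7, 5, 0), ((7, 4, 8), 4, 0, 3),
    ((8, 7, 10), 3, 4, 8), ((9, 5, 10), 1, 0, 8), ((10, 8, 9), 8, 3, 1)]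
  Tc := [(1, 3, 4)]
  Td := [((1, 3), (9, 5), 0), ((1, 3), (9, 10), 8), ((1, 4), (9, 5), 0), ((1, 4), (9, 10), 8),
    ((3, 1), (8, 7), 4), ((3, 1), (8, 10), 8), ((4, 1), (7, 4), 0), ((4, 1), (7, 8), 3)]
  G := [[0, 0, 0, 0xc448c95cd2125c2c195c6a28d854b26cd82d854362485c9872a24c491c721cc,
    0xc292428c815cb25c495c921d8d2d14d2cd14d247a24c895c7228d854b2c1d8d2d14d2c1aa], [0, 0, 0,
    0xd82d495c3654291c294c2ea189b495ce2d82d495c366c1,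
    0x92c2189d4a628145d854f2c1d8d2d14d2c1d8d2d14d2c6a1], [0, 0xca61c6a1c1ca61c6a1c1c1,
    0xd82d85436128c815cb21c24d498721282d854361ca, 0x24c491c72128d854b21c1,
    0x24c895cb21e2c2c495c961a1]]

noncomputable def n2531 : Ent := ⟨e2531, noF, [], [], [(8, 17, [6903326391201334775872065844685381424292761054348340378595029940047873, 0]), (13, 17, [6903326391201334775872065844685381424292761054348340378595029940051969, 0])]⟩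

def c2531 : PLift (Cov.check n2531.C.D v2531 = true) := ⟨by decide +kernel⟩

def b2531 : PLift (entF (fidx ts) 400 2531 n2531 = true) := ⟨by decide +kernel⟩

theorem g2531 : GoodF (fidx ts) 400 2531 := GoodF.ofV v2531 n2531 c2531.down b2531.down

/-- 4586544:1994/2 -/
noncomputable def e2532 : SCfg where
  D := {
    a := 7
    L := 9
    kp := 6
    inn := [(0, 1), (0, 2), (1, 0), (1, 2), (2, 0), (2, 1), (2, 3), (2, 5), (3, 2), (3, 4), (4, 3), (4,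
      6), (5, 2), (6, 4)]
    mix := [(0, 0), (0, 1), (1, 1), (1, 2), (1, 3), (2, 0), (2, 3), (2, 4), (2, 5), (3, 3), (3, 4), (3,
      6), (3, 7), (4, 3), (4, 6), (4, 8), (5, 0), (5, 5), (5, 8), (6, 2), (6, 3), (6, 8)]
    cl := [0, 2, 1, 0, 0, 5, 4, 6, 3]
    chq := [(0, 4), (1, 4), (4, 0), (4, 1)]
    rng := [(0, 1), (0, 8), (1, 0), (1, 2), (2, 1), (2, 3), (2, 8), (3, 2), (4, 5), (4, 7), (5, 4), (5,
      8), (6, 7), (6, 8), (7, 4), (7, 6), (8, 0), (8, 2), (8, 5), (8, 6)]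
    lev := [] }
  links := [[1, 2, 7, 8], [2, 0, 8, 9, 10], [7, 0, 1, 10, 3, 11, 12, 5], [11, 2, 10, 4, 13, 14], [13, 3,
    10, 6, 15], [7, 2, 12, 15], [15, 4, 10, 9]]
  P := {
    a := 7
    N := 16
    nb := [390, 1797, 7339, 27668, 42056, 36996, 34320, 33061, 643, 34114, 606, 20492, 34852, 49176,
      10248, 13040]
    tri := [(0, 1, 2), (0, 1, 8), (0, 2, 7), (0, 7, 8), (1, 2, 10), (1, 8, 9), (1, 9, 10), (2, 3, 10),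
      (2, 3, 11), (2, 5, 7), (2, 5, 12), (2, 11, 12), (3, 4, 10), (3, 4, 13), (3, 11, 14), (3, 13,
      14), (4, 6, 10), (4, 6, 15), (4, 13, 15), (5, 7, 15), (5, 12, 15), (6, 9, 10), (6, 9, 15)]
    fin := [0, 0, 0, 0, 4, 0, 4, 0, 8, 4, 0, 0, 12, 13, 14, 15]
    chd := [(0, 13), (4, 13)]
    steps := [(0, 1), (0, 2), (0, 3), (0, 5), (0, 7), (0, 10), (0, 11), (4, 6), (4, 9)] }
  rep := [0, 4, 8, 15, 13, 12, 14]

noncomputable def v2532 : Cov.CovD where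
  P := 3
  N := 4
  pl := [1, 5, 7, 8]
  lev := [⟨[], [], [], [2], [(0, 0, [4])]⟩,
    ⟨[], [(0, 0), (0, 1)], [(0, 1)], [2], [(2, 1, [4]), (3, 0, [4])]⟩,
    ⟨[(0, 1)], [(0, 0), (1, 0), (1, 1)], [(0, 0)], [5], [(0, 0, [4]), (3, 0, [4]), (4, 0,
      [4])]⟩,
    ⟨[(0, 2), (1, 2)], [(1, 0), (2, 0), (2, 4)], [(0, 0), (0, 4)], [6], [(3, 0, [4]), (4,
      0, [4]), (6, 4, [0, 1])]⟩,
    ⟨[(2, 3)], [(1, 0), (2, 0), (3, 0), (3, 4)], [(0, 4)], [3], [(3, 0, [4]), (6, 4, [0,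
      1])]⟩,
    ⟨[(0, 2), (1, 2), (2, 3)], [(0, 0), (2, 0)], [], [3, 5], [(0, 0, [4])]⟩,
    ⟨[(3, 4)], [(1, 0), (1, 1), (2, 0), (3, 0), (4, 0), (4, 1), (4, 4)], [(0, 1)], [3],
      [(2, 1, [4]), (3, 0, [4])]⟩]
  Ta := [((0, 1), 0, 2), ((0, 8), 0, 3), ((3, 2), 0, 1), ((4, 5), 0, 5), ((4, 7), 0, 6)]
  Tb := [((0, 1, 8), 0, 2, 3), ((1, 0, 2), 2, 0, 1), ((2, 1, 3), 1, 2, 0), ((2, 1, 8), 1, 2, 3),
    ((2, 3, 8), 1, 0, 3), ((4, 5, 7), 0, 5, 6), ((5, 4, 8), 5, 0, 3), ((6, 7, 8), 4, 6, 3),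
    ((7, 4, 6), 6, 0, 4), ((8, 0, 2), 3, 0, 1), ((8, 0, 5), 3, 0, 5), ((8, 0, 6), 3, 0, 4),
    ((8, 2, 5), 3, 1, 5), ((8, 2, 6), 3, 1, 4), ((8, 5, 6), 3, 5, 4)]
  Tc := [(4, 0, 1)]
  Td := [((0, 4), (0, 1), 2), ((0, 4), (0, 8), 3), ((0, 4), (3, 2), 1), ((0, 4), (4, 5), 5), ((0,
    4), (4, 7), 6), ((1, 4), (2, 1), 2), ((1, 4), (2, 3), 0), ((1, 4), (2, 8), 3), ((4, 0),
    (6, 7), 6), ((4, 0), (6, 8), 3), ((4, 1), (6, 7), 6), ((4, 1), (6, 8), 3)]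
  G := [[0, 0, 0x884434861a4884c184a164812a12443ca4c, 0x84c24162a522c22c6884c281a2684c,
    0x14c44a82443a5248388c126c6884c2888884ae681a], [0,
    0x81a181e8181c1e6684121e8141c1ea612122e81a122ece84, 0, 0xc12812c12e41286c12c1268c8,
    0xc128141c1e6c128141c1ea4141a81816ce82], [0, 0, 0, 0x1121126112122a122122ce48,
    0x11211284c1e11512a189126c11e688]]

noncomputable def n2532 : Ent := ⟨e2532, noF, [], [], []⟩

def c2532 : PLift (Cov.check n2532.C.D v2532 = true) := ⟨by decide +kernel⟩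

def b2532 : PLift (entF (fidx ts) 400 2532 n2532 = true) := ⟨by decide +kernel⟩

theorem g2532 : GoodF (fidx ts) 400 2532 := GoodF.ofV v2532 n2532 c2532.down b2532.down

/-- 4586544:1994/1 -/
noncomputable def e2533 : SCfg where
  D := {
    a := 7
    L := 10
    kp := 7
    inn := [(0, 1), (0, 2), (1, 0), (1, 2), (2, 0), (2, 1), (2, 3), (2, 5), (3, 2), (3, 4), (4, 3), (4,
      6), (5, 2), (6, 4)]
    mix := [(0, 0), (0, 1), (1, 1), (1, 2), (1, 3), (2, 0), (2, 3), (2, 4), (2, 5), (3, 3), (3, 4), (3,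
      6), (3, 7), (4, 3), (4, 6), (4, 8), (5, 0), (5, 5), (5, 9), (6, 2), (6, 3), (6, 8)]
    cl := [0, 2, 1, 0, 0, 4, 3, 6, 5, 7]
    chq := [(0, 3), (1, 3), (3, 0), (3, 1)]
    rng := [(0, 1), (0, 9), (1, 0), (1, 2), (2, 1), (2, 3), (2, 8), (3, 2), (4, 5), (4, 7), (5, 4), (5,
      9), (6, 7), (6, 8), (7, 4), (7, 6), (8, 2), (8, 6), (9, 0), (9, 5)]
    lev := [] }
  links := [[1, 2, 7, 8], [2, 0, 8, 9, 10], [7, 0, 1, 10, 3, 11, 12, 5], [11, 2, 10, 4, 13, 14], [13, 3,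
    10, 6, 15], [7, 2, 12, 16], [15, 4, 10, 9]]
  P := {
    a := 7
    N := 17
    nb := [390, 1797, 7339, 27668, 42056, 69764, 34320, 65829, 643, 34114, 606, 20492, 67620, 49176,
      10248, 8784, 4256]
    tri := [(0, 1, 2), (0, 1, 8), (0, 2, 7), (0, 7, 8), (1, 2, 10), (1, 8, 9), (1, 9, 10), (2, 3, 10),
      (2, 3, 11), (2, 5, 7), (2, 5, 12), (2, 11, 12), (3, 4, 10), (3, 4, 13), (3, 11, 14), (3, 13,
      14), (4, 6, 10), (4, 6, 15), (4, 13, 15), (5, 7, 16), (5, 12, 16), (6, 9, 10), (6, 9, 15)]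
    fin := [0, 0, 0, 0, 4, 0, 4, 0, 8, 4, 0, 0, 12, 13, 14, 15, 16]
    chd := [(0, 13), (4, 13)]
    steps := [(0, 1), (0, 2), (0, 3), (0, 5), (0, 7), (0, 10), (0, 11), (4, 6), (4, 9)] }
  rep := [0, 4, 8, 13, 12, 15, 14, 16]

noncomputable def v2533 : Cov.CovD where
  P := 3
  N := 5
  pl := [1, 5, 7, 8, 9]
  lev := [⟨[], [], [], [2], [(0, 0, [3])]⟩,
    ⟨[], [(0, 0), (0, 1)], [(0, 1)], [2], [(2, 1, [3]), (3, 0, [3])]⟩,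
    ⟨[(0, 1)], [(0, 0), (1, 0), (1, 1)], [(0, 0)], [4], [(0, 0, [3]), (3, 0, [3]), (4, 0,
      [3])]⟩,
    ⟨[(0, 2), (1, 2)], [(1, 0), (2, 0), (2, 3)], [(0, 0), (0, 3)], [6], [(3, 0, [3]), (4,
      0, [3]), (6, 3, [0, 1])]⟩,
    ⟨[(2, 3)], [(1, 0), (2, 0), (3, 0), (3, 3)], [(0, 3)], [5], [(3, 0, [3]), (6, 3, [0,
      1])]⟩,
    ⟨[(0, 2), (1, 2), (2, 3)], [(0, 0), (2, 0)], [], [4, 7], [(0, 0, [3])]⟩,
    ⟨[(3, 4)], [(1, 0), (1, 1), (2, 0), (3, 0), (4, 0), (4, 1), (4, 3)], [(0, 1)], [5],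
      [(2, 1, [3]), (3, 0, [3])]⟩]
  Ta := [((0, 1), 0, 2), ((0, 9), 0, 7), ((3, 2), 0, 1), ((4, 5), 0, 4), ((4, 7), 0, 6)]
  Tb := [((0, 1, 9), 0, 2, 7), ((1, 0, 2), 2, 0, 1), ((2, 1, 3), 1, 2, 0), ((2, 1, 8), 1, 2, 5),
    ((2, 3, 8), 1, 0, 5), ((4, 5, 7), 0, 4, 6), ((5, 4, 9), 4, 0, 7), ((6, 7, 8), 3, 6, 5),
    ((7, 4, 6), 6, 0, 3), ((8, 2, 6), 5, 1, 3), ((9, 0, 5), 7, 0, 4)]
  Tc := [(3, 0, 1)]
  Td := [((0, 3), (0, 1), 2), ((0, 3), (0, 9), 7), ((0, 3), (3, 2), 1), ((0, 3), (4, 5), 4), ((0,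
    3), (4, 7), 6), ((1, 3), (2, 1), 2), ((1, 3), (2, 3), 0), ((1, 3), (2, 8), 5), ((3, 0),
    (6, 7), 6), ((3, 0), (6, 8), 5), ((3, 1), (6, 7), 6), ((3, 1), (6, 8), 5)]
  G := [[0, 0, 0x11c88c684a48a3614a41aa4468863ca448c84c34868463a486,
    0xc5c2c562a99a2cc62c6859c295a2684c,
    0x14c41ca8864463a41a14aa8861166c6888cccc688a44accae681a], [0,
    0x81a121e8181c1e6614121e4141c1ea614121e81a181ece84, 0, 0xc12c126c12c12ac12c12ce84,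
    0x81c168141c1e641c1a8181c1ea41c1a81c16ce82], [0, 0, 0, 0x9ca2891b2c2c122c124c92cc62ec58,
    0x821211c2411a444d11a811156ce88ccc968848c4ae6418812ac92]]

noncomputable def n2533 : Ent := ⟨e2533, noF, [], [], [(15, 16, [1580044410770988437309982408355971841652082177953823432505699483649, 0])]⟩

def c2533 : PLift (Cov.check n2533.C.D v2533 = true) := ⟨by decide +kernel⟩

def b2533 : PLift (entF (fidx ts) 400 2533 n2533 = true) := ⟨by decide +kernel⟩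

theorem g2533 : GoodF (fidx ts) 400 2533 := GoodF.ofV v2533 n2533 c2533.down b2533.down

/-- 4586544:1994/3 -/
noncomputable def e2534 : SCfg where
  D := {
    a := 7
    L := 10
    kp := 7
    inn := [(0, 1), (0, 2), (1, 0), (1, 2), (2, 0), (2, 1), (2, 3), (2, 5), (3, 2), (3, 4), (4, 3), (4,
      6), (5, 2), (6, 4)]
    mix := [(0, 0), (0, 1), (1, 1), (1, 2), (1, 3), (2, 0), (2, 3), (2, 4), (2, 5), (3, 3), (3, 4), (3,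
      6), (3, 7), (4, 3), (4, 6), (4, 8), (5, 0), (5, 5), (5, 8), (6, 3), (6, 8), (6, 9)]
    cl := [0, 1, 6, 0, 0, 2, 4, 7, 3, 5]
    chq := [(0, 4), (4, 0), (4, 5), (5, 4)]
    rng := [(0, 1), (0, 8), (1, 0), (1, 2), (2, 1), (2, 3), (3, 2), (3, 9), (4, 5), (4, 7), (5, 4), (5,
      8), (6, 7), (6, 8), (7, 4), (7, 6), (8, 0), (8, 5), (8, 6), (8, 9), (9, 3), (9, 8)]
    lev := [] }
  links := [[1, 2, 7, 8], [2, 0, 8, 9, 10], [7, 0, 1, 10, 3, 11, 12, 5], [11, 2, 10, 4, 13, 14], [13, 3,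
    10, 6, 15], [7, 2, 12, 15], [15, 4, 10, 16]]
  P := {
    a := 7
    N := 17
    nb := [390, 1797, 7339, 27668, 42056, 36996, 99344, 33061, 643, 1282, 66142, 20492, 34852, 49176,
      10248, 78064, 33856]
    tri := [(0, 1, 2), (0, 1, 8), (0, 2, 7), (0, 7, 8), (1, 2, 10), (1, 8, 9), (1, 9, 10), (2, 3, 10),
      (2, 3, 11), (2, 5, 7), (2, 5, 12), (2, 11, 12), (3, 4, 10), (3, 4, 13), (3, 11, 14), (3, 13,
      14), (4, 6, 10), (4, 6, 15), (4, 13, 15), (5, 7, 15), (5, 12, 15), (6, 10, 16), (6, 15, 16)]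
    fin := [0, 0, 0, 0, 4, 0, 4, 0, 8, 9, 0, 0, 12, 13, 14, 15, 4]
    chd := [(0, 13), (13, 4)]
    steps := [(0, 1), (0, 2), (0, 3), (0, 5), (0, 7), (0, 10), (0, 11), (4, 6), (4, 16)] }
  rep := [0, 8, 12, 15, 13, 4, 9, 14]

noncomputable def v2534 : Cov.CovD where
  P := 3
  N := 5
  pl := [1, 2, 5, 7, 8]
  lev := [⟨[], [], [], [1], [(0, 0, [4])]⟩,
    ⟨[], [(0, 0)], [], [1, 6], [(3, 0, [4])]⟩,
    ⟨[(0, 1)], [(0, 0), (1, 0)], [(0, 0)], [2], [(0, 0, [4]), (3, 0, [4]), (4, 0, [4])]⟩,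
    ⟨[(0, 2), (1, 2)], [(1, 0), (2, 0), (2, 4)], [(0, 0), (0, 4)], [7], [(3, 0, [4]), (4,
      0, [4]), (6, 4, [0, 5])]⟩,
    ⟨[(2, 3)], [(1, 0), (2, 0), (3, 0), (3, 4)], [(0, 4)], [3], [(3, 0, [4]), (6, 4, [0,
      5])]⟩,
    ⟨[(0, 2), (1, 2), (2, 3)], [(0, 0), (2, 0)], [], [2, 3], [(0, 0, [4])]⟩,
    ⟨[(3, 4)], [(1, 0), (2, 0), (3, 0), (4, 0), (4, 4), (4, 5)], [(0, 5)], [3], [(3, 0,
      [4]), (9, 5, [4])]⟩]
  Ta := [((0, 1), 0, 1), ((0, 8), 0, 3), ((3, 2), 0, 6), ((3, 9), 0, 5), ((4, 5), 0, 2), ((4, 7),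
    0, 7)]
  Tb := [((0, 1, 8), 0, 1, 3), ((1, 0, 2), 1, 0, 6), ((2, 1, 3), 6, 1, 0), ((3, 2, 9), 0, 6, 5),
    ((4, 5, 7), 0, 2, 7), ((5, 4, 8), 2, 0, 3), ((6, 7, 8), 4, 7, 3), ((7, 4, 6), 7, 0, 4),
    ((8, 0, 5), 3, 0, 2), ((8, 0, 6), 3, 0, 4), ((8, 0, 9), 3, 0, 5), ((8, 5, 6), 3, 2, 4),
    ((8, 5, 9), 3, 2, 5), ((8, 6, 9), 3, 4, 5), ((9, 3, 8), 5, 0, 3)]
  Tc := [(4, 0, 5)]
  Td := [((0, 4), (0, 1), 1), ((0, 4), (0, 8), 3), ((0, 4), (3, 2), 6), ((0, 4), (3, 9), 5), ((0,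
    4), (4, 5), 2), ((0, 4), (4, 7), 7), ((4, 0), (6, 7), 7), ((4, 0), (6, 8), 3), ((4, 5),
    (6, 7), 7), ((4, 5), (6, 8), 3), ((5, 4), (9, 3), 0), ((5, 4), (9, 8), 3)]
  G := [[0, 0x18884641a6c1a6c1e864114a85a6c1e1888ce4, 0, 0x2444628a484ce68a484cee6888a8c14,
    0x22c26242a82a42e6882ac2e4888cea18], [0, 0, 0,
    0x21a1c1e46121849e61a1c1eac421a1c1e61a1c1e66121c1e8c8c,
    0x41a1c1e268a142e61a1849eca48a1c1e26882941e68a1c1ecac4], [0, 0,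
    0x1862914a85a6c1e2ca6114a85a6c1e8c4, 0x1161311e19181184be4e11141181b6111141d8cc8,
    0x114111281b6116158a111111e114e11e22281a42d4]]

noncomputable def n2534 : Ent := ⟨e2534, noF, [], [], [(9, 16, [1580044410770988437309982408355971841652082177953823432505699483649, 0])]⟩

def c2534 : PLift (Cov.check n2534.C.D v2534 = true) := ⟨by decide +kernel⟩

def b2534 : PLift (entF (fidx ts) 400 2534 n2534 = true) := ⟨by decide +kernel⟩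

theorem g2534 : GoodF (fidx ts) 400 2534 := GoodF.ofV v2534 n2534 c2534.down b2534.down

/-- 4586544:1994 -/
noncomputable def e2535 : SCfg where
  D := {
    a := 7
    L := 11
    kp := 8
    inn := [(0, 1), (0, 2), (1, 0), (1, 2), (2, 0), (2, 1), (2, 3), (2, 5), (3, 2), (3, 4), (4, 3), (4,
      6), (5, 2), (6, 4)]
    mix := [(0, 0), (0, 1), (1, 1), (1, 2), (1, 3), (2, 0), (2, 3), (2, 4), (2, 5), (3, 3), (3, 4), (3,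
      6), (3, 7), (4, 3), (4, 6), (4, 8), (5, 0), (5, 5), (5, 9), (6, 3), (6, 8), (6, 10)]
    cl := [0, 1, 6, 0, 0, 2, 3, 7, 4, 8, 5]
    chq := [(0, 3), (3, 0), (3, 5), (5, 3)]
    rng := [(0, 1), (0, 9), (1, 0), (1, 2), (2, 1), (2, 3), (3, 2), (3, 10), (4, 5), (4, 7), (5, 4),
      (5, 9), (6, 7), (6, 8), (7, 4), (7, 6), (8, 6), (8, 10), (9, 0), (9, 5), (10, 3), (10, 8)]
    lev := [] }
  links := [[1, 2, 7, 8], [2, 0, 8, 9, 10], [7, 0, 1, 10, 3, 11, 12, 5], [11, 2, 10, 4, 13, 14], [13, 3,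
    10, 6, 15], [7, 2, 12, 16], [15, 4, 10, 17]]
  P := {
    a := 7
    N := 18
    nb := [390, 1797, 7339, 27668, 42056, 69764, 164880, 65829, 643, 1282, 131678, 20492, 67620,
      49176, 10248, 139344, 4256, 33856]
    tri := [(0, 1, 2), (0, 1, 8), (0, 2, 7), (0, 7, 8), (1, 2, 10), (1, 8, 9), (1, 9, 10), (2, 3, 10),
      (2, 3, 11), (2, 5, 7), (2, 5, 12), (2, 11, 12), (3, 4, 10), (3, 4, 13), (3, 11, 14), (3, 13,
      14), (4, 6, 10), (4, 6, 15), (4, 13, 15), (5, 7, 16), (5, 12, 16), (6, 10, 17), (6, 15, 17)]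
    fin := [0, 0, 0, 0, 4, 0, 4, 0, 8, 9, 0, 0, 12, 13, 14, 15, 16, 4]
    chd := [(0, 13), (13, 4)]
    steps := [(0, 1), (0, 2), (0, 3), (0, 5), (0, 7), (0, 10), (0, 11), (4, 6), (4, 17)] }
  rep := [0, 8, 12, 13, 15, 4, 9, 14, 16]

noncomputable def v2535 : Cov.CovD where
  P := 3
  N := 6
  pl := [1, 2, 5, 7, 8, 9]
  lev := [⟨[], [], [], [1], [(0, 0, [3])]⟩,
    ⟨[], [(0, 0)], [], [1, 6], [(3, 0, [3])]⟩,
    ⟨[(0, 1)], [(0, 0), (1, 0)], [(0, 0)], [2], [(0, 0, [3]), (3, 0, [3]), (4, 0, [3])]⟩,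
    ⟨[(0, 2), (1, 2)], [(1, 0), (2, 0), (2, 3)], [(0, 0), (0, 3)], [7], [(3, 0, [3]), (4,
      0, [3]), (6, 3, [0, 5])]⟩,
    ⟨[(2, 3)], [(1, 0), (2, 0), (3, 0), (3, 3)], [(0, 3)], [4], [(3, 0, [3]), (6, 3, [0,
      5])]⟩,
    ⟨[(0, 2), (1, 2), (2, 3)], [(0, 0), (2, 0)], [], [2, 8], [(0, 0, [3])]⟩,
    ⟨[(3, 4)], [(1, 0), (2, 0), (3, 0), (4, 0), (4, 3), (4, 5)], [(0, 5)], [4], [(3, 0,
      [3]), (10, 5, [3])]⟩]
  Ta := [((0, 1), 0, 1), ((0, 9), 0, 8), ((3, 2), 0, 6), ((3, 10), 0, 5), ((4, 5), 0, 2), ((4,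
    7), 0, 7)]
  Tb := [((0, 1, 9), 0, 1, 8), ((1, 0, 2), 1, 0, 6), ((2, 1, 3), 6, 1, 0), ((3, 2, 10), 0, 6, 5),
    ((4, 5, 7), 0, 2, 7), ((5, 4, 9), 2, 0, 8), ((6, 7, 8), 3, 7, 4), ((7, 4, 6), 7, 0, 3),
    ((8, 6, 10), 4, 3, 5), ((9, 0, 5), 8, 0, 2), ((10, 3, 8), 5, 0, 4)]
  Tc := [(3, 0, 5)]
  Td := [((0, 3), (0, 1), 1), ((0, 3), (0, 9), 8), ((0, 3), (3, 2), 6), ((0, 3), (3, 10), 5),
    ((0, 3), (4, 5), 2), ((0, 3), (4, 7), 7), ((3, 0), (6, 7), 7), ((3, 0), (6, 8), 4), ((3,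
    5), (6, 7), 7), ((3, 5), (6, 8), 4), ((5, 3), (10, 3), 0), ((5, 3), (10, 8), 4)]
  G := [[0, 0xa45464721c9ac11ce41c81c1ccee182848e8c288aceecd477c66c988c55c44c7ac62, 0,
    0x1884464a4c4e8491884864aacccce66caacc4e668a8c8ec82ac5c,
    0x66aaaaccae66aaaaccae666aaaaccae8a14], [0, 0, 0,
    0x61a1c1e84461a1c1e61a1c1e661a1c1e8c61a1c1e61a1c1e68cc,
    0x61a1c1e261a1c1e61a1c1ecaa1c1661a1c1e61a1c1ee6188ac4], [0, 0,
    0x66caaaccae266aaacccce66aaaacc6ec618, 0x61a1c1e461a1c1e61a1c1eac18,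
    0x61a1c1e261a1c1e61a1c1eca18]]

noncomputable def n2535 : Ent := ⟨e2535, noF, [], [], [(9, 17, [6903326391201334775872065844685381424292761054348340378595029940064257, 0]), (15, 16, [7334685537875745012586738086077695515070955365108989538292687704055809, 0])]⟩

def c2535 : PLift (Cov.check n2535.C.D v2535 = true) := ⟨by decide +kernel⟩

def b2535 : PLift (entF (fidx ts) 400 2535 n2535 = true) := ⟨by decide +kernel⟩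

theorem g2535 : GoodF (fidx ts) 400 2535 := GoodF.ofV v2535 n2535 c2535.down b2535.down

/-- 4586544:1995/2 -/
noncomputable def e2536 : SCfg where
  D := {
    a := 7
    L := 9
    kp := 6
    inn := [(0, 1), (0, 2), (1, 0), (1, 2), (2, 0), (2, 1), (2, 3), (2, 5), (3, 2), (3, 4), (4, 3), (4,
      6), (5, 2), (6, 4)]
    mix := [(0, 0), (0, 1), (1, 1), (1, 2), (1, 3), (2, 0), (2, 3), (2, 4), (2, 5), (3, 3), (3, 4), (3,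
      6), (3, 7), (4, 2), (4, 3), (4, 6), (5, 0), (5, 5), (5, 8), (6, 1), (6, 2), (6, 6)]
    cl := [0, 2, 1, 0, 0, 4, 3, 5, 6]
    chq := [(0, 3), (1, 3), (3, 0), (3, 1)]
    rng := [(0, 1), (0, 8), (1, 0), (1, 2), (1, 6), (2, 1), (2, 3), (3, 2), (4, 5), (4, 7), (5, 4), (5,
      8), (6, 1), (6, 7), (7, 4), (7, 6), (8, 0), (8, 5)]
    lev := [] }
  links := [[1, 2, 7, 8], [2, 0, 8, 9, 10], [7, 0, 1, 10, 3, 11, 12, 5], [11, 2, 10, 4, 13, 14], [13, 3,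
    10, 9, 6], [7, 2, 12, 15], [13, 4, 9, 8]]
  P := {
    a := 7
    N := 16
    nb := [390, 1797, 7339, 27668, 9800, 36996, 8976, 33061, 8899, 1362, 542, 20492, 34852, 16728,
      10248, 4256]
    tri := [(0, 1, 2), (0, 1, 8), (0, 2, 7), (0, 7, 8), (1, 2, 10), (1, 8, 9), (1, 9, 10), (2, 3, 10),
      (2, 3, 11), (2, 5, 7), (2, 5, 12), (2, 11, 12), (3, 4, 10), (3, 4, 13), (3, 11, 14), (3, 13,
      14), (4, 6, 9), (4, 6, 13), (4, 9, 10), (5, 7, 15), (5, 12, 15), (6, 8, 9), (6, 8, 13)]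
    fin := [0, 0, 0, 0, 4, 0, 6, 0, 6, 4, 0, 0, 12, 13, 14, 15]
    chd := [(0, 13), (4, 13)]
    steps := [(0, 1), (0, 2), (0, 3), (0, 5), (0, 7), (0, 10), (0, 11), (4, 9), (6, 8)] }
  rep := [0, 4, 6, 13, 12, 14, 15]

noncomputable def v2536 : Cov.CovD where
  P := 3
  N := 4
  pl := [1, 5, 7, 8]
  lev := [⟨[], [], [], [2], [(0, 0, [3])]⟩,
    ⟨[], [(0, 0), (0, 1)], [(0, 1)], [2], [(2, 1, [3]), (3, 0, [3])]⟩,
    ⟨[(0, 1)], [(0, 0), (1, 0), (1, 1)], [(0, 0)], [4], [(0, 0, [3]), (3, 0, [3]), (4, 0,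
      [3])]⟩,
    ⟨[(0, 2), (1, 2)], [(1, 0), (2, 0), (2, 3)], [(0, 0), (0, 3)], [5], [(3, 0, [3]), (4,
      0, [3]), (6, 3, [0, 1])]⟩,
    ⟨[(2, 3)], [(1, 0), (1, 1), (2, 0), (3, 0), (3, 1), (3, 3)], [(0, 1), (0, 3), (1, 3)],
      [], [(2, 1, [3]), (3, 0, [3]), (6, 3, [0, 1])]⟩,
    ⟨[(0, 2), (1, 2), (2, 3)], [(0, 0), (2, 0)], [], [4, 6], [(0, 0, [3])]⟩,
    ⟨[(3, 4)], [(1, 1), (3, 3), (4, 0), (4, 1), (4, 3)], [(1, 3)], [2], [(2, 1, [3]), (6,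
      3, [0, 1])]⟩]
  Ta := [((0, 1), 0, 2), ((0, 8), 0, 6), ((3, 2), 0, 1), ((4, 5), 0, 4), ((4, 7), 0, 5)]
  Tb := [((0, 1, 8), 0, 2, 6), ((1, 0, 2), 2, 0, 1), ((1, 0, 6), 2, 0, 3), ((1, 2, 6), 2, 1, 3),
    ((2, 1, 3), 1, 2, 0), ((4, 5, 7), 0, 4, 5), ((5, 4, 8), 4, 0, 6), ((6, 1, 7), 3, 2, 5),
    ((7, 4, 6), 5, 0, 3), ((8, 0, 5), 6, 0, 4)]
  Tc := [(3, 0, 1)]
  Td := [((0, 3), (0, 1), 2), ((0, 3), (0, 8), 6), ((0, 3), (3, 2), 1), ((0, 3), (4, 5), 4), ((0,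
    3), (4, 7), 5), ((1, 3), (2, 1), 2), ((1, 3), (2, 3), 0), ((3, 0), (6, 1), 2), ((3, 0),
    (6, 7), 5), ((3, 1), (6, 1), 2), ((3, 1), (6, 7), 5)]
  G := [[0, 0, 0x88c1cc61a88a14461c6844c1cca1684a, 0x11c8886416ca4111c481a44ac611a81164ca1c,
    0x11c8186116ca11a81164c6111c481a11ac681a], [0, 0x4141ac1264181ac12a4181a8141ace84, 0,
    0x1148111c61188141ca118114ce48, 0x1148111c61188111ca118114ce82], [0, 0, 0,
    0x11c814c4c9a11811648111ce61144898, 0x11c41111ac6113811611ca1198114ce12]]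

noncomputable def n2536 : Ent := ⟨e2536, noF, [], [], []⟩

def c2536 : PLift (Cov.check n2536.C.D v2536 = true) := ⟨by decide +kernel⟩

def b2536 : PLift (entF (fidx ts) 400 2536 n2536 = true) := ⟨by decide +kernel⟩

theorem g2536 : GoodF (fidx ts) 400 2536 := GoodF.ofV v2536 n2536 c2536.down b2536.down

/-- 4586544:1995/1 -/
noncomputable def e2537 : SCfg where
  D := {
    a := 7
    L := 10
    kp := 7
    inn := [(0, 1), (0, 2), (1, 0), (1, 2), (2, 0), (2, 1), (2, 3), (2, 5), (3, 2), (3, 4), (4, 3), (4,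
      6), (5, 2), (6, 4)]
    mix := [(0, 0), (0, 1), (1, 1), (1, 2), (1, 3), (2, 0), (2, 3), (2, 4), (2, 5), (3, 3), (3, 4), (3,
      6), (3, 7), (4, 3), (4, 6), (4, 8), (5, 0), (5, 5), (5, 9), (6, 1), (6, 6), (6, 8)]
    cl := [0, 1, 5, 0, 0, 2, 3, 6, 4, 7]
    chq := [(0, 3), (3, 0), (3, 4), (4, 3)]
    rng := [(0, 1), (0, 9), (1, 0), (1, 2), (1, 6), (1, 8), (2, 1), (2, 3), (3, 2), (3, 8), (4, 5), (4,
      7), (5, 4), (5, 9), (6, 1), (6, 7), (7, 4), (7, 6), (8, 1), (8, 3), (9, 0), (9, 5)]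
    lev := [] }
  links := [[1, 2, 7, 8], [2, 0, 8, 9, 10], [7, 0, 1, 10, 3, 11, 12, 5], [11, 2, 10, 4, 13, 14], [13, 3,
    10, 15, 6], [7, 2, 12, 16], [13, 4, 15, 8]]
  P := {
    a := 7
    N := 17
    nb := [390, 1797, 7339, 27668, 42056, 69764, 41232, 65829, 41667, 1282, 33310, 20492, 67620,
      16728, 10248, 1360, 4256]
    tri := [(0, 1, 2), (0, 1, 8), (0, 2, 7), (0, 7, 8), (1, 2, 10), (1, 8, 9), (1, 9, 10), (2, 3, 10),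
      (2, 3, 11), (2, 5, 7), (2, 5, 12), (2, 11, 12), (3, 4, 10), (3, 4, 13), (3, 11, 14), (3, 13,
      14), (4, 6, 13), (4, 6, 15), (4, 10, 15), (5, 7, 16), (5, 12, 16), (6, 8, 13), (6, 8, 15)]
    fin := [0, 0, 0, 0, 4, 0, 6, 0, 6, 9, 0, 0, 12, 13, 14, 4, 16]
    chd := [(0, 13), (13, 4)]
    steps := [(0, 1), (0, 2), (0, 3), (0, 5), (0, 7), (0, 10), (0, 11), (4, 15), (6, 8)] }
  rep := [0, 6, 12, 13, 4, 9, 14, 16]

noncomputable def v2537 : Cov.CovD where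
  P := 3
  N := 5
  pl := [1, 2, 5, 7, 9]
  lev := [⟨[], [], [], [1], [(0, 0, [3])]⟩,
    ⟨[], [(0, 0)], [], [1, 5], [(3, 0, [3])]⟩,
    ⟨[(0, 1)], [(0, 0), (1, 0)], [(0, 0)], [2], [(0, 0, [3]), (3, 0, [3]), (4, 0, [3])]⟩,
    ⟨[(0, 2), (1, 2)], [(1, 0), (2, 0), (2, 3)], [(0, 0), (0, 3)], [6], [(3, 0, [3]), (4,
      0, [3]), (6, 3, [0, 4])]⟩,
    ⟨[(2, 3)], [(1, 0), (2, 0), (3, 0), (3, 3), (3, 4)], [(0, 3), (0, 4), (3, 4)], [], [(3,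
      0, [3]), (6, 3, [0, 4]), (8, 4, [3])]⟩,
    ⟨[(0, 2), (1, 2), (2, 3)], [(0, 0), (2, 0)], [], [2, 7], [(0, 0, [3])]⟩,
    ⟨[(3, 4)], [(3, 3), (4, 0), (4, 3), (4, 4)], [(3, 4)], [1], [(6, 3, [0, 4]), (8, 4,
      [3])]⟩]
  Ta := [((0, 1), 0, 1), ((0, 9), 0, 7), ((3, 2), 0, 5), ((3, 8), 0, 4), ((4, 5), 0, 2), ((4, 7),
    0, 6)]
  Tb := [((0, 1, 9), 0, 1, 7), ((1, 0, 2), 1, 0, 5), ((1, 0, 6), 1, 0, 3), ((1, 0, 8), 1, 0, 4),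
    ((1, 2, 6), 1, 5, 3), ((1, 2, 8), 1, 5, 4), ((1, 6, 8), 1, 3, 4), ((2, 1, 3), 5, 1, 0),
    ((3, 2, 8), 0, 5, 4), ((4, 5, 7), 0, 2, 6), ((5, 4, 9), 2, 0, 7), ((6, 1, 7), 3, 1, 6),
    ((7, 4, 6), 6, 0, 3), ((8, 1, 3), 4, 1, 0), ((9, 0, 5), 7, 0, 2)]
  Tc := [(3, 0, 4)]
  Td := [((0, 3), (0, 1), 1), ((0, 3), (0, 9), 7), ((0, 3), (3, 2), 5), ((0, 3), (3, 8), 4), ((0,
    3), (4, 5), 2), ((0, 3), (4, 7), 6), ((3, 0), (6, 1), 1), ((3, 0), (6, 7), 6), ((3, 4),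
    (6, 1), 1), ((3, 4), (6, 7), 6), ((4, 3), (8, 1), 1), ((4, 3), (8, 3), 0)]
  G := [[0, 0xeec1848eec1eec168e41eec1eec1ee818c6c, 0,
    0x11c14c18e84114218c11c11ce11c11c11cee81c, 0x88a44a11ae211a11a11ae11a11a11aeca14], [0, 0,
    0, 0x811151e4114191e811151eac4811151e4114191e814111eac8c,
    0x811151e814111e6114191e8a1191a2114191e811151e414eac4], [0, 0,
    0x1164186446116e611611c11ae81a11aaca18, 0x111111e814111e6111111e8c18,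
    0x811111e111111e6114111e8a18]]

noncomputable def n2537 : Ent := ⟨e2537, noF, [], [], [(9, 15, [1685356702439545624007900436039642273970977273354372543760010477569, 0])]⟩

def c2537 : PLift (Cov.check n2537.C.D v2537 = true) := ⟨by decide +kernel⟩

def b2537 : PLift (entF (fidx ts) 400 2537 n2537 = true) := ⟨by decide +kernel⟩

theorem g2537 : GoodF (fidx ts) 400 2537 := GoodF.ofV v2537 n2537 c2537.down b2537.down

/-- 4586544:1995/4 -/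
noncomputable def e2538 : SCfg where
  D := {
    a := 7
    L := 9
    kp := 6
    inn := [(0, 1), (0, 2), (1, 0), (1, 2), (2, 0), (2, 1), (2, 3), (2, 5), (3, 2), (3, 4), (4, 3), (4,
      6), (5, 2), (6, 4)]
    mix := [(0, 0), (0, 1), (1, 1), (1, 2), (1, 3), (2, 0), (2, 3), (2, 4), (2, 5), (3, 3), (3, 4), (3,
      6), (3, 7), (4, 2), (4, 3), (4, 6), (5, 0), (5, 5), (5, 8), (6, 2), (6, 6), (6, 8)]
    cl := [0, 2, 1, 0, 0, 4, 3, 6, 5]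
    chq := [(0, 3), (1, 3), (3, 0), (3, 1)]
    rng := [(0, 1), (0, 8), (1, 0), (1, 2), (2, 1), (2, 3), (2, 8), (3, 2), (4, 5), (4, 7), (5, 4), (5,
      8), (6, 7), (6, 8), (7, 4), (7, 6), (8, 0), (8, 2), (8, 5), (8, 6)]
    lev := [] }
  links := [[1, 2, 7, 8], [2, 0, 8, 9, 10], [7, 0, 1, 10, 3, 11, 12, 5], [11, 2, 10, 4, 13, 14], [13, 3,
    10, 9, 6], [7, 2, 12, 15], [13, 4, 9, 15]]
  P := {
    a := 7
    N := 16
    nb := [390, 1797, 7339, 27668, 9800, 36996, 41488, 33061, 643, 34130, 542, 20492, 34852, 49240,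
      10248, 13024]
    tri := [(0, 1, 2), (0, 1, 8), (0, 2, 7), (0, 7, 8), (1, 2, 10), (1, 8, 9), (1, 9, 10), (2, 3, 10),
      (2, 3, 11), (2, 5, 7), (2, 5, 12), (2, 11, 12), (3, 4, 10), (3, 4, 13), (3, 11, 14), (3, 13,
      14), (4, 6, 9), (4, 6, 13), (4, 9, 10), (5, 7, 15), (5, 12, 15), (6, 9, 15), (6, 13, 15)]
    fin := [0, 0, 0, 0, 0, 0, 6, 0, 8, 6, 0, 0, 12, 13, 14, 15]
    chd := [(0, 13), (6, 13)]
    steps := [(0, 1), (0, 2), (0, 3), (0, 5), (0, 7), (0, 10), (0, 4), (0, 11), (6, 9)] }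
  rep := [0, 6, 8, 13, 12, 15, 14]

noncomputable def v2538 : Cov.CovD where
  P := 3
  N := 4
  pl := [1, 5, 7, 8]
  lev := [⟨[], [], [], [2], [(0, 0, [3])]⟩,
    ⟨[], [(0, 0), (0, 1)], [(0, 1)], [2], [(2, 1, [3]), (3, 0, [3])]⟩,
    ⟨[(0, 1)], [(0, 0), (1, 0), (1, 1)], [(0, 0)], [4], [(0, 0, [3]), (3, 0, [3]), (4, 0,
      [3])]⟩,
    ⟨[(0, 2), (1, 2)], [(1, 0), (2, 0), (2, 3)], [(0, 0), (0, 3)], [6], [(3, 0, [3]), (4,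
      0, [3]), (6, 3, [0, 1])]⟩,
    ⟨[(2, 3)], [(1, 0), (1, 1), (2, 0), (3, 0), (3, 1), (3, 3)], [(0, 1), (0, 3), (1, 3)],
      [], [(2, 1, [3]), (3, 0, [3]), (6, 3, [0, 1])]⟩,
    ⟨[(0, 2), (1, 2), (2, 3)], [(0, 0), (2, 0)], [], [4, 5], [(0, 0, [3])]⟩,
    ⟨[(3, 4)], [(1, 1), (3, 3), (4, 0), (4, 1), (4, 3)], [(1, 3)], [5], [(2, 1, [3]), (6,
      3, [0, 1])]⟩]
  Ta := [((0, 1), 0, 2), ((0, 8), 0, 5), ((3, 2), 0, 1), ((4, 5), 0, 4), ((4, 7), 0, 6)]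
  Tb := [((0, 1, 8), 0, 2, 5), ((1, 0, 2), 2, 0, 1), ((2, 1, 3), 1, 2, 0), ((2, 1, 8), 1, 2, 5),
    ((2, 3, 8), 1, 0, 5), ((4, 5, 7), 0, 4, 6), ((5, 4, 8), 4, 0, 5), ((6, 7, 8), 3, 6, 5),
    ((7, 4, 6), 6, 0, 3), ((8, 0, 2), 5, 0, 1), ((8, 0, 5), 5, 0, 4), ((8, 0, 6), 5, 0, 3),
    ((8, 2, 5), 5, 1, 4), ((8, 2, 6), 5, 1, 3), ((8, 5, 6), 5, 4, 3)]
  Tc := [(3, 0, 1)]
  Td := [((0, 3), (0, 1), 2), ((0, 3), (0, 8), 5), ((0, 3), (3, 2), 1), ((0, 3), (4, 5), 4), ((0,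
    3), (4, 7), 6), ((1, 3), (2, 1), 2), ((1, 3), (2, 3), 0), ((1, 3), (2, 8), 5), ((3, 0),
    (6, 7), 6), ((3, 0), (6, 8), 5), ((3, 1), (6, 7), 6), ((3, 1), (6, 8), 5)]
  G := [[0, 0, 0x11c41214a88d611a81164ca411c8186416ca486,
    0x1488984141e424918445811e52c61282912425ca928245c,
    0x1488c9916416ca12889116425c684414818481a14ac689a], [0,
    0xc161aa161c6c1a168618281ec161aa161cee48, 0, 0x1141111c61181211ca128114ce84,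
    0x1141111c61181111ca118114ce82], [0, 0, 0, 0x1141211c61181112ca128124ce14,
    0x11981111ca11381164c81e61141212c6898]]

noncomputable def n2538 : Ent := ⟨e2538, noF, [], [], []⟩

def c2538 : PLift (Cov.check n2538.C.D v2538 = true) := ⟨by decide +kernel⟩

def b2538 : PLift (entF (fidx ts) 400 2538 n2538 = true) := ⟨by decide +kernel⟩

theorem g2538 : GoodF (fidx ts) 400 2538 := GoodF.ofV v2538 n2538 c2538.down b2538.down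

/-- 4586544:1995/3 -/
noncomputable def e2539 : SCfg where
  D := {
    a := 7
    L := 10
    kp := 7
    inn := [(0, 1), (0, 2), (1, 0), (1, 2), (2, 0), (2, 1), (2, 3), (2, 5), (3, 2), (3, 4), (4, 3), (4,
      6), (5, 2), (6, 4)]
    mix := [(0, 0), (0, 1), (1, 1), (1, 2), (1, 3), (2, 0), (2, 3), (2, 4), (2, 5), (3, 3), (3, 4), (3,
      6), (3, 7), (4, 2), (4, 3), (4, 6), (5, 0), (5, 5), (5, 8), (6, 2), (6, 6), (6, 9)]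
    cl := [0, 2, 1, 0, 0, 4, 3, 5, 6, 7]
    chq := [(1, 3), (1, 5), (3, 1), (5, 1)]
    rng := [(0, 1), (0, 8), (1, 0), (1, 2), (2, 1), (2, 3), (2, 9), (3, 2), (4, 5), (4, 7), (5, 4), (5,
      8), (6, 7), (6, 9), (7, 4), (7, 6), (8, 0), (8, 5), (9, 2), (9, 6)]
    lev := [] }
  links := [[1, 2, 7, 8], [2, 0, 8, 9, 10], [7, 0, 1, 10, 3, 11, 12, 5], [11, 2, 10, 4, 13, 14], [13, 3,
    10, 9, 6], [7, 2, 12, 15], [13, 4, 9, 16]]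
  P := {
    a := 7
    N := 17
    nb := [390, 1797, 7339, 27668, 9800, 36996, 74256, 33061, 643, 66898, 542, 20492, 34852, 82008,
      10248, 4256, 8768]
    tri := [(0, 1, 2), (0, 1, 8), (0, 2, 7), (0, 7, 8), (1, 2, 10), (1, 8, 9), (1, 9, 10), (2, 3, 10),
      (2, 3, 11), (2, 5, 7), (2, 5, 12), (2, 11, 12), (3, 4, 10), (3, 4, 13), (3, 11, 14), (3, 13,
      14), (4, 6, 9), (4, 6, 13), (4, 9, 10), (5, 7, 15), (5, 12, 15), (6, 9, 16), (6, 13, 16)]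
    fin := [0, 0, 0, 3, 3, 0, 3, 0, 8, 3, 0, 0, 12, 13, 14, 15, 16]
    chd := [(3, 13), (3, 14)]
    steps := [(0, 1), (0, 2), (0, 5), (0, 7), (0, 10), (0, 11), (3, 4), (3, 6), (3, 9)] }
  rep := [0, 3, 8, 13, 12, 14, 15, 16]

noncomputable def v2539 : Cov.CovD where
  P := 3
  N := 5
  pl := [1, 5, 8, 9]
  lev := [⟨[], [], [], [2], [(0, 0, [])]⟩,
    ⟨[], [(0, 0), (0, 1)], [(0, 1)], [2], [(2, 1, [3, 5]), (3, 0, [])]⟩,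
    ⟨[(0, 1)], [(0, 0), (1, 0), (1, 1)], [(0, 0)], [4], [(0, 0, []), (3, 0, []), (4, 0,
      [])]⟩,
    ⟨[(0, 2), (1, 2)], [(1, 0), (2, 0), (2, 3), (2, 5)], [(0, 0), (0, 3), (0, 5), (3, 5)],
      [], [(3, 0, []), (4, 0, []), (6, 3, [1]), (7, 5, [1])]⟩,
    ⟨[(2, 3)], [(1, 0), (1, 1), (2, 0), (3, 0), (3, 1), (3, 3), (3, 5)], [(0, 1), (0, 3),
      (1, 3)], [], [(2, 1, [3, 5]), (3, 0, []), (6, 3, [1])]⟩,
    ⟨[(0, 2), (1, 2), (2, 3)], [(0, 0), (2, 0)], [], [4, 6], [(0, 0, [])]⟩,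
    ⟨[(3, 4)], [(1, 1), (3, 3), (4, 0), (4, 1), (4, 3)], [(1, 3)], [7], [(2, 1, [3, 5]),
      (6, 3, [1])]⟩]
  Ta := [((0, 1), 0, 2), ((0, 8), 0, 6), ((3, 2), 0, 1), ((4, 5), 0, 4), ((4, 7), 0, 5)]
  Tb := [((0, 1, 8), 0, 2, 6), ((1, 0, 2), 2, 0, 1), ((2, 1, 3), 1, 2, 0), ((2, 1, 9), 1, 2, 7),
    ((2, 3, 9), 1, 0, 7), ((4, 5, 7), 0, 4, 5), ((5, 4, 8), 4, 0, 6), ((6, 7, 9), 3, 5, 7),
    ((7, 4, 6), 5, 0, 3), ((8, 0, 5), 6, 0, 4), ((9, 2, 6), 7, 1, 3)]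
  Tc := [(1, 3, 5)]
  Td := [((1, 3), (2, 1), 2), ((1, 3), (2, 3), 0), ((1, 3), (2, 9), 7), ((1, 5), (2, 1), 2), ((1,
    5), (2, 3), 0), ((1, 5), (2, 9), 7), ((3, 1), (6, 7), 5), ((3, 1), (6, 9), 7), ((5, 1),
    (7, 4), 0), ((5, 1), (7, 6), 3)]
  G := [[0, 0, 0x996556c2499a55ac28c2, 0x996556c24199a55ac281c, 0x99a55ac2996556c2c12], [0,
    0xc1a16c161a216181eec1a1641a141ea161ce688, 0, 0x9151c29151c2a48, 0x9151c29151c2c82], [0,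
    0, 0, 0x99a55ac29151c2c14, 0x99a55ac29151c2c12]]

noncomputable def n2539 : Ent := ⟨e2539, noF, [], [], [(8, 16, [1580044410770988437309982408355971841652082177953823432505699500033, 0]), (16, 15, [1685356702439545624007900436039642273970977273354372543760010485761, 0])]⟩

def c2539 : PLift (Cov.check n2539.C.D v2539 = true) := ⟨by decide +kernel⟩

def b2539 : PLift (entF (fidx ts) 400 2539 n2539 = true) := ⟨by decide +kernel⟩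

theorem g2539 : GoodF (fidx ts) 400 2539 := GoodF.ofV v2539 n2539 c2539.down b2539.down

/-- 4586544:1995/5 -/
noncomputable def e2540 : SCfg where
  D := {
    a := 7
    L := 10
    kp := 7
    inn := [(0, 1), (0, 2), (1, 0), (1, 2), (2, 0), (2, 1), (2, 3), (2, 5), (3, 2), (3, 4), (4, 3), (4,
      6), (5, 2), (6, 4)]
    mix := [(0, 0), (0, 1), (1, 1), (1, 2), (1, 3), (2, 0), (2, 3), (2, 4), (2, 5), (3, 3), (3, 4), (3,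
      6), (3, 7), (4, 3), (4, 6), (4, 8), (5, 0), (5, 5), (5, 9), (6, 6), (6, 8), (6, 9)]
    cl := [0, 1, 6, 0, 0, 2, 3, 7, 4, 5]
    chq := [(0, 3), (3, 0), (3, 4), (4, 3)]
    rng := [(0, 1), (0, 9), (1, 0), (1, 2), (2, 1), (2, 3), (3, 2), (3, 8), (4, 5), (4, 7), (5, 4), (5,
      9), (6, 7), (6, 9), (7, 4), (7, 6), (8, 3), (8, 9), (9, 0), (9, 5), (9, 6), (9, 8)]
    lev := [] }
  links := [[1, 2, 7, 8], [2, 0, 8, 9, 10], [7, 0, 1, 10, 3, 11, 12, 5], [11, 2, 10, 4, 13, 14], [13, 3,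
    10, 15, 6], [7, 2, 12, 16], [13, 4, 15, 16]]
  P := {
    a := 7
    N := 17
    nb := [390, 1797, 7339, 27668, 42056, 69764, 106512, 65829, 643, 1282, 33310, 20492, 67620, 82008,
      10248, 66640, 45280]
    tri := [(0, 1, 2), (0, 1, 8), (0, 2, 7), (0, 7, 8), (1, 2, 10), (1, 8, 9), (1, 9, 10), (2, 3, 10),
      (2, 3, 11), (2, 5, 7), (2, 5, 12), (2, 11, 12), (3, 4, 10), (3, 4, 13), (3, 11, 14), (3, 13,
      14), (4, 6, 13), (4, 6, 15), (4, 10, 15), (5, 7, 16), (5, 12, 16), (6, 13, 16), (6, 15, 16)]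
    fin := [0, 0, 0, 0, 0, 0, 6, 0, 8, 9, 0, 0, 12, 13, 14, 6, 16]
    chd := [(0, 13), (13, 6)]
    steps := [(0, 1), (0, 2), (0, 3), (0, 4), (0, 5), (0, 7), (0, 10), (0, 11), (6, 15)] }
  rep := [0, 8, 12, 13, 6, 16, 9, 14]

noncomputable def v2540 : Cov.CovD where
  P := 3
  N := 5
  pl := [1, 2, 5, 7, 9]
  lev := [⟨[], [], [], [1], [(0, 0, [3])]⟩,
    ⟨[], [(0, 0)], [], [1, 6], [(3, 0, [3])]⟩,
    ⟨[(0, 1)], [(0, 0), (1, 0)], [(0, 0)], [2], [(0, 0, [3]), (3, 0, [3]), (4, 0, [3])]⟩,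
    ⟨[(0, 2), (1, 2)], [(1, 0), (2, 0), (2, 3)], [(0, 0), (0, 3)], [7], [(3, 0, [3]), (4,
      0, [3]), (6, 3, [0, 4])]⟩,
    ⟨[(2, 3)], [(1, 0), (2, 0), (3, 0), (3, 3), (3, 4)], [(0, 3), (0, 4), (3, 4)], [], [(3,
      0, [3]), (6, 3, [0, 4]), (8, 4, [3])]⟩,
    ⟨[(0, 2), (1, 2), (2, 3)], [(0, 0), (2, 0)], [], [2, 5], [(0, 0, [3])]⟩,
    ⟨[(3, 4)], [(3, 3), (4, 0), (4, 3), (4, 4)], [(3, 4)], [5], [(6, 3, [0, 4]), (8, 4,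
      [3])]⟩]
  Ta := [((0, 1), 0, 1), ((0, 9), 0, 5), ((3, 2), 0, 6), ((3, 8), 0, 4), ((4, 5), 0, 2), ((4, 7),
    0, 7)]
  Tb := [((0, 1, 9), 0, 1, 5), ((1, 0, 2), 1, 0, 6), ((2, 1, 3), 6, 1, 0), ((3, 2, 8), 0, 6, 4),
    ((4, 5, 7), 0, 2, 7), ((5, 4, 9), 2, 0, 5), ((6, 7, 9), 3, 7, 5), ((7, 4, 6), 7, 0, 3),
    ((8, 3, 9), 4, 0, 5), ((9, 0, 5), 5, 0, 2), ((9, 0, 6), 5, 0, 3), ((9, 0, 8), 5, 0, 4),
    ((9, 5, 6), 5, 2, 3), ((9, 5, 8), 5, 2, 4), ((9, 6, 8), 5, 3, 4)]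
  Tc := [(3, 0, 4)]
  Td := [((0, 3), (0, 1), 1), ((0, 3), (0, 9), 5), ((0, 3), (3, 2), 6), ((0, 3), (3, 8), 4), ((0,
    3), (4, 5), 2), ((0, 3), (4, 7), 7), ((3, 0), (6, 7), 7), ((3, 0), (6, 9), 5), ((3, 4),
    (6, 7), 7), ((3, 4), (6, 9), 5), ((4, 3), (8, 3), 0), ((4, 3), (8, 9), 5)]
  G := [[0, 0x11c11c11ce14181886cfa411c11c12ce4811c11c11ce411c14c12ce11c1811c44face2, 0,
    0x6414881281ac1414c12ce8818a81c14c14ee456414881281ac1418c489c,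
    0x2212c81421ca4212216c818a81a1812ae81a41a18e6121212ae8ad4], [0, 0, 0,
    0x518844d11171e411d1b1eb13151eac91b16519171e3131d1ee8cc,
    0xd13151e3833151e6719191e8ad111253eb17111e611d1b1e8ac4], [0, 0,
    0x116116116e411611c21ce11a11a116eac18, 0x111111e4111111e111111eac14,
    0x111111e2111111e111111eca18]]

noncomputable def n2540 : Ent := ⟨e2540, noF, [], [], [(9, 15, [1685356702439545624007900436039642273970977273354372543760010485761, 0])]⟩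

def c2540 : PLift (Cov.check n2540.C.D v2540 = true) := ⟨by decide +kernel⟩

def b2540 : PLift (entF (fidx ts) 400 2540 n2540 = true) := ⟨by decide +kernel⟩

theorem g2540 : GoodF (fidx ts) 400 2540 := GoodF.ofV v2540 n2540 c2540.down b2540.down

/-- 4586544:1995 -/
noncomputable def e2541 : SCfg where
  D := {
    a := 7
    L := 11
    kp := 8
    inn := [(0, 1), (0, 2), (1, 0), (1, 2), (2, 0), (2, 1), (2, 3), (2, 5), (3, 2), (3, 4), (4, 3), (4,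
      6), (5, 2), (6, 4)]
    mix := [(0, 0), (0, 1), (1, 1), (1, 2), (1, 3), (2, 0), (2, 3), (2, 4), (2, 5), (3, 3), (3, 4), (3,
      6), (3, 7), (4, 3), (4, 6), (4, 8), (5, 0), (5, 5), (5, 9), (6, 6), (6, 8), (6, 10)]
    cl := [0, 4, 6, 0, 0, 2, 3, 5, 1, 7, 8]
    chq := [(1, 3), (1, 5), (3, 1), (5, 1)]
    rng := [(0, 1), (0, 9), (1, 0), (1, 2), (2, 1), (2, 3), (3, 2), (3, 8), (4, 5), (4, 7), (5, 4), (5,
      9), (6, 7), (6, 10), (7, 4), (7, 6), (8, 3), (8, 10), (9, 0), (9, 5), (10, 6), (10, 8)]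
    lev := [] }
  links := [[1, 2, 7, 8], [2, 0, 8, 9, 10], [7, 0, 1, 10, 3, 11, 12, 5], [11, 2, 10, 4, 13, 14], [13, 3,
    10, 15, 6], [7, 2, 12, 16], [13, 4, 15, 17]]
  P := {
    a := 7
    N := 18
    nb := [390, 1797, 7339, 27668, 42056, 69764, 172048, 65829, 643, 1282, 33310, 20492, 67620,
      147544, 10248, 132176, 4256, 41024]
    tri := [(0, 1, 2), (0, 1, 8), (0, 2, 7), (0, 7, 8), (1, 2, 10), (1, 8, 9), (1, 9, 10), (2, 3, 10),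
      (2, 3, 11), (2, 5, 7), (2, 5, 12), (2, 11, 12), (3, 4, 10), (3, 4, 13), (3, 11, 14), (3, 13,
      14), (4, 6, 13), (4, 6, 15), (4, 10, 15), (5, 7, 16), (5, 12, 16), (6, 13, 17), (6, 15, 17)]
    fin := [0, 0, 0, 3, 3, 0, 3, 0, 8, 9, 0, 0, 12, 13, 14, 3, 16, 17]
    chd := [(13, 3), (14, 3)]
    steps := [(0, 1), (0, 2), (0, 5), (0, 7), (0, 10), (0, 11), (3, 4), (3, 6), (3, 15)] }
  rep := [0, 3, 12, 13, 8, 14, 9, 16, 17]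

noncomputable def v2541 : Cov.CovD where
  P := 3
  N := 6
  pl := [1, 2, 5, 9, 10]
  lev := [⟨[], [], [], [4], [(0, 0, [])]⟩,
    ⟨[], [(0, 0)], [], [4, 6], [(3, 0, [])]⟩,
    ⟨[(0, 1)], [(0, 0), (1, 0)], [(0, 0)], [2], [(0, 0, []), (3, 0, []), (4, 0, [])]⟩,
    ⟨[(0, 2), (1, 2)], [(1, 0), (2, 0), (2, 3), (2, 5)], [(0, 0), (0, 3), (0, 5), (3, 5)],
      [], [(3, 0, []), (4, 0, []), (6, 3, [1]), (7, 5, [1])]⟩,
    ⟨[(2, 3)], [(1, 0), (2, 0), (3, 0), (3, 1), (3, 3), (3, 5)], [(0, 1), (0, 3), (1, 3)],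
      [], [(3, 0, []), (6, 3, [1]), (8, 1, [3, 5])]⟩,
    ⟨[(0, 2), (1, 2), (2, 3)], [(0, 0), (2, 0)], [], [2, 7], [(0, 0, [])]⟩,
    ⟨[(3, 4)], [(3, 3), (4, 0), (4, 1), (4, 3)], [(1, 3)], [8], [(6, 3, [1]), (8, 1, [3,
      5])]⟩]
  Ta := [((0, 1), 0, 4), ((0, 9), 0, 7), ((3, 2), 0, 6), ((3, 8), 0, 1), ((4, 5), 0, 2), ((4, 7),
    0, 5)]
  Tb := [((0, 1, 9), 0, 4, 7), ((1, 0, 2), 4, 0, 6), ((2, 1, 3), 6, 4, 0), ((3, 2, 8), 0, 6, 1),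
    ((4, 5, 7), 0, 2, 5), ((5, 4, 9), 2, 0, 7), ((6, 7, 10), 3, 5, 8), ((7, 4, 6), 5, 0, 3),
    ((8, 3, 10), 1, 0, 8), ((9, 0, 5), 7, 0, 2), ((10, 6, 8), 8, 3, 1)]
  Tc := [(1, 3, 5)]
  Td := [((1, 3), (8, 3), 0), ((1, 3), (8, 10), 8), ((1, 5), (8, 3), 0), ((1, 5), (8, 10), 8),
    ((3, 1), (6, 7), 5), ((3, 1), (6, 10), 8), ((5, 1), (7, 4), 0), ((5, 1), (7, 6), 3)]
  G := [[0, 0, 0, 0x99c55cc24899c55cc28499c55cc281e, 0x99a55ac2899a55ac28599a55ac2899a55ac2836],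
    [0, 0xc1a16c161aa12141ee48c1a16c161aa161ce84c1a16c161aa161ce82e, 0,
    0x9151c2489151c2849151c282e, 0x9151c289151c28c9151c289151c28a6], [0, 0,
    0x996556c28199655ac2416, 0x9151c2419151c2416, 0x9151c2819151c281c]]

noncomputable def n2541 : Ent := ⟨e2541, noF, [], [], [(8, 17, [6903326391201334775872065844685381424292761054348340378595029940080641, 0]), (9, 15, [7334790850167413569773436004105379185503274260204390087403942015053825, 0]), (17, 16, [7334685537875745012586738086077695515070955365108989538292687704080385, 0])]⟩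

def c2541 : PLift (Cov.check n2541.C.D v2541 = true) := ⟨by decide +kernel⟩

def b2541 : PLift (entF (fidx ts) 400 2541 n2541 = true) := ⟨by decide +kernel⟩

theorem g2541 : GoodF (fidx ts) 400 2541 := GoodF.ofV v2541 n2541 c2541.down b2541.down

/-- 4676674:1996/1 -/
noncomputable def e2542 : SCfg where
  D := {
    a := 7
    L := 10
    kp := 8
    inn := [(0, 1), (0, 2), (0, 3), (0, 4), (1, 0), (1, 3), (1, 4), (2, 0), (2, 3), (2, 4), (2, 5), (3,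
      0), (3, 1), (3, 2), (4, 0), (4, 1), (4, 2), (4, 5), (5, 2), (5, 4), (5, 6), (6, 5)]
    mix := [(1, 0), (1, 1), (1, 2), (2, 3), (2, 4), (2, 5), (3, 0), (3, 5), (3, 6), (4, 2), (4, 7), (5,
      3), (5, 7), (5, 8), (5, 9), (6, 6), (6, 7), (6, 8)]
    cl := [4, 8, 1, 5, 7, 3, 2, 0, 6, 0]
    chq := [(0, 3), (0, 7), (1, 2), (1, 3), (1, 4), (2, 1), (3, 0), (3, 1), (4, 1), (7, 0)]
    rng := [(0, 1), (0, 6), (1, 0), (1, 2), (2, 1), (2, 7), (3, 4), (3, 9), (4, 3), (4, 5), (5, 4), (5,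
      6), (6, 0), (6, 5), (6, 7), (6, 8), (7, 2), (7, 6), (8, 6), (8, 9), (9, 3), (9, 8)]
    lev := [] }
  links := [[1, 4, 2, 3], [4, 0, 3, 7, 8, 9], [3, 0, 4, 5, 10, 11, 12], [7, 1, 0, 2, 12, 13], [5, 2, 0,
    1, 9, 14], [10, 2, 4, 14, 6, 15, 16], [15, 5, 14, 13]]
  P := {
    a := 7
    N := 17
    nb := [30, 921, 7225, 12423, 16935, 115796, 57376, 8458, 642, 16658, 67620, 5124, 10252, 53448,
      8816, 73824, 33824]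
    tri := [(0, 1, 3), (0, 1, 4), (0, 2, 3), (0, 2, 4), (1, 3, 7), (1, 4, 9), (1, 7, 8), (1, 8, 9), (2,
      3, 12), (2, 4, 5), (2, 5, 10), (2, 10, 11), (2, 11, 12), (3, 7, 13), (3, 12, 13), (4, 5,
      14), (4, 9, 14), (5, 6, 14), (5, 6, 15), (5, 10, 16), (5, 15, 16), (6, 13, 14), (6, 13, 15)]
    fin := [0, 1, 2, 0, 0, 2, 2, 1, 8, 0, 10, 11, 12, 13, 2, 15, 2]
    chd := [(0, 12), (0, 13), (1, 0), (11, 2), (12, 2)]
    steps := [(0, 3), (0, 4), (0, 9), (1, 7), (2, 5), (2, 6), (2, 14), (2, 16)] }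
  rep := [2, 0, 13, 12, 1, 10, 15, 11, 8]

noncomputable def v2542 : Cov.CovD where
  P := 3
  N := 6
  pl := [1, 3, 8]
  lev := [⟨[], [], [], [], []⟩,
    ⟨[], [(0, 1), (0, 4)], [(1, 4)], [8], [(0, 4, [1]), (2, 1, [2, 3, 4])]⟩,
    ⟨[(0, 1)], [(0, 3), (0, 7)], [(3, 7)], [5], [(4, 7, [0]), (5, 3, [0, 1])]⟩,
    ⟨[(0, 1), (0, 2), (1, 2)], [(0, 2), (0, 3), (0, 4), (1, 1), (1, 2), (1, 3), (1, 4), (2,
      2), (2, 3), (2, 4), (2, 7)], [(2, 3), (2, 4), (3, 4)], [], [(0, 4, [1]), (5, 3, [0,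
      1]), (6, 2, [1])]⟩,
    ⟨[(0, 1), (0, 2), (0, 3), (1, 2), (1, 3), (2, 3)], [(0, 0), (0, 1), (1, 0), (1, 1), (1,
      4), (2, 0), (2, 1), (2, 3), (2, 7)], [(0, 1)], [], [(2, 1, [2, 3, 4]), (7, 0, [3, 7])]⟩,
    ⟨[(0, 2), (0, 4), (1, 4), (2, 3), (2, 4)], [(2, 0), (2, 3), (2, 7), (4, 0), (4, 1)],
      [(0, 0)], [5, 6], [(7, 0, [3, 7]), (9, 0, [3, 7])]⟩,
    ⟨[(2, 5), (4, 5)], [(3, 2), (4, 0), (5, 0), (5, 2)], [(0, 2)], [6], [(6, 2, [1]), (7,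
      0, [3, 7])]⟩]
  Ta := [((7, 2), 0, 1), ((7, 6), 0, 2), ((9, 3), 0, 5), ((9, 8), 0, 6)]
  Tb := [((0, 1, 6), 4, 8, 2), ((1, 0, 2), 8, 4, 1), ((2, 1, 7), 1, 8, 0), ((3, 4, 9), 5, 7, 0),
    ((4, 3, 5), 7, 5, 3), ((5, 4, 6), 3, 7, 2), ((6, 0, 5), 2, 4, 3), ((6, 0, 7), 2, 4, 0),
    ((6, 0, 8), 2, 4, 6), ((6, 5, 7), 2, 3, 0), ((6, 5, 8), 2, 3, 6), ((6, 7, 8), 2, 0, 6),
    ((7, 2, 6), 0, 1, 2), ((8, 6, 9), 6, 2, 0), ((9, 3, 8), 0, 5, 6)]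
  Tc := [(0, 3, 7), (1, 2, 3), (1, 2, 4), (1, 3, 4), (3, 0, 1)]
  Td := [((0, 3), (7, 2), 1), ((0, 3), (7, 6), 2), ((0, 3), (9, 3), 5), ((0, 3), (9, 8), 6), ((0,
    7), (7, 2), 1), ((0, 7), (7, 6), 2), ((0, 7), (9, 3), 5), ((0, 7), (9, 8), 6), ((1, 2),
    (2, 1), 8), ((1, 2), (2, 7), 0), ((1, 3), (2, 1), 8), ((1, 3), (2, 7), 0), ((1, 4), (2,
    1), 8), ((1, 4), (2, 7), 0), ((2, 1), (6, 0), 4), ((2, 1), (6, 5), 3), ((2, 1), (6, 7),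
    0), ((2, 1), (6, 8), 6), ((3, 0), (5, 4), 7), ((3, 0), (5, 6), 2), ((3, 1), (5, 4), 7),
    ((3, 1), (5, 6), 2), ((4, 1), (0, 1), 8), ((4, 1), (0, 6), 2), ((7, 0), (4, 3), 5), ((7,
    0), (4, 5), 3)]
  G := [[0, 0x448cac1184ce2118ca44611e4, 0x8a2e4214482ac2142688c21d8,
    0xc284c6214c688c21448cac21d8, 0x8a2e421a482ac218a2e421d8], [0, 0, 0,
    0x12424c19124128124d241e8221e82481acdb212821c85425,
    0x82a4282c12812e42782c112889312688c23144282a4281c41812e42fd1264281168211c82cc9]]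

noncomputable def n2542 : Ent := ⟨e2542, noF, [], [], []⟩

def c2542 : PLift (Cov.check n2542.C.D v2542 = true) := ⟨by decide +kernel⟩

def b2542 : PLift (entF (fidx ts) 400 2542 n2542 = true) := ⟨by decide +kernel⟩

theorem g2542 : GoodF (fidx ts) 400 2542 := GoodF.ofV v2542 n2542 c2542.down b2542.down

/-- 4676674:1996 -/
noncomputable def e2543 : SCfg where
  D := {
    a := 7
    L := 11
    kp := 9
    inn := [(0, 1), (0, 2), (0, 3), (0, 4), (1, 0), (1, 3), (1, 4), (2, 0), (2, 3), (2, 4), (2, 5), (3,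
      0), (3, 1), (3, 2), (4, 0), (4, 1), (4, 2), (4, 5), (5, 2), (5, 4), (5, 6), (6, 5)]
    mix := [(1, 0), (1, 1), (1, 2), (2, 3), (2, 4), (2, 5), (3, 0), (3, 5), (3, 6), (4, 2), (4, 7), (5,
      3), (5, 7), (5, 8), (5, 9), (6, 7), (6, 8), (6, 10)]
    cl := [4, 8, 1, 2, 6, 3, 7, 0, 5, 0, 9]
    chq := [(0, 3), (0, 6), (1, 3), (1, 4), (1, 7), (3, 0), (3, 1), (4, 1), (6, 0), (7, 1)]
    rng := [(0, 1), (0, 6), (1, 0), (1, 2), (2, 1), (2, 7), (3, 4), (3, 9), (4, 3), (4, 5), (5, 4), (5,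
      6), (6, 0), (6, 5), (7, 2), (7, 10), (8, 9), (8, 10), (9, 3), (9, 8), (10, 7), (10, 8)]
    lev := [] }
  links := [[1, 4, 2, 3], [4, 0, 3, 7, 8, 9], [3, 0, 4, 5, 10, 11, 12], [7, 1, 0, 2, 12, 13], [5, 2, 0,
    1, 9, 14], [10, 2, 4, 14, 6, 15, 16], [15, 5, 14, 17]]
  P := {
    a := 7
    N := 18
    nb := [30, 921, 7225, 12423, 16935, 115796, 180256, 8458, 642, 16658, 67620, 5124, 10252, 4232,
      131696, 196704, 33824, 49216]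
    tri := [(0, 1, 3), (0, 1, 4), (0, 2, 3), (0, 2, 4), (1, 3, 7), (1, 4, 9), (1, 7, 8), (1, 8, 9), (2,
      3, 12), (2, 4, 5), (2, 5, 10), (2, 10, 11), (2, 11, 12), (3, 7, 13), (3, 12, 13), (4, 5,
      14), (4, 9, 14), (5, 6, 14), (5, 6, 15), (5, 10, 16), (5, 15, 16), (6, 14, 17), (6, 15, 17)]
    fin := [0, 1, 2, 0, 0, 2, 2, 1, 8, 0, 10, 11, 12, 13, 2, 15, 2, 17]
    chd := [(0, 12), (0, 13), (1, 0), (11, 2), (12, 2)]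
    steps := [(0, 3), (0, 4), (0, 9), (1, 7), (2, 5), (2, 6), (2, 14), (2, 16)] }
  rep := [2, 0, 10, 12, 1, 15, 11, 13, 8, 17]

noncomputable def v2543 : Cov.CovD where
  P := 3
  N := 7
  pl := [1, 3, 8, 10]
  lev := [⟨[], [], [], [], []⟩,
    ⟨[], [(0, 1), (0, 4)], [(1, 4)], [8], [(0, 4, [1]), (2, 1, [3, 4, 7])]⟩,
    ⟨[(0, 1)], [(0, 3), (0, 6)], [(3, 6)], [2], [(4, 6, [0]), (5, 3, [0, 1])]⟩,
    ⟨[(0, 1), (0, 2), (1, 2)], [(0, 3), (0, 4), (0, 7), (1, 1), (1, 3), (1, 4), (1, 7), (2,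
      3), (2, 4), (2, 6), (2, 7)], [(3, 4), (3, 7), (4, 7)], [], [(0, 4, [1]), (5, 3, [0,
      1]), (6, 7, [1])]⟩,
    ⟨[(0, 1), (0, 2), (0, 3), (1, 2), (1, 3), (2, 3)], [(0, 0), (0, 1), (1, 0), (1, 1), (1,
      4), (2, 0), (2, 1), (2, 3), (2, 6)], [(0, 1)], [], [(2, 1, [3, 4, 7]), (7, 0, [3, 6])]⟩,
    ⟨[(0, 2), (0, 4), (1, 4), (2, 3), (2, 4)], [(2, 0), (2, 3), (2, 6), (4, 0), (4, 1)],
      [(0, 0)], [2, 5], [(7, 0, [3, 6]), (9, 0, [3, 6])]⟩,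
    ⟨[(2, 5), (4, 5)], [(4, 0), (5, 0)], [], [5, 9], [(7, 0, [3, 6])]⟩]
  Ta := [((7, 2), 0, 1), ((7, 10), 0, 9), ((9, 3), 0, 2), ((9, 8), 0, 5)]
  Tb := [((0, 1, 6), 4, 8, 7), ((1, 0, 2), 8, 4, 1), ((2, 1, 7), 1, 8, 0), ((3, 4, 9), 2, 6, 0),
    ((4, 3, 5), 6, 2, 3), ((5, 4, 6), 3, 6, 7), ((6, 0, 5), 7, 4, 3), ((7, 2, 10), 0, 1, 9),
    ((8, 9, 10), 5, 0, 9), ((9, 3, 8), 0, 2, 5), ((10, 7, 8), 9, 0, 5)]
  Tc := [(0, 3, 6), (1, 3, 4), (1, 3, 7), (1, 4, 7), (3, 0, 1)]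
  Td := [((0, 3), (7, 2), 1), ((0, 3), (7, 10), 9), ((0, 3), (9, 3), 2), ((0, 3), (9, 8), 5),
    ((0, 6), (7, 2), 1), ((0, 6), (7, 10), 9), ((0, 6), (9, 3), 2), ((0, 6), (9, 8), 5), ((1,
    3), (2, 1), 8), ((1, 3), (2, 7), 0), ((1, 4), (2, 1), 8), ((1, 4), (2, 7), 0), ((1, 7),
    (2, 1), 8), ((1, 7), (2, 7), 0), ((3, 0), (5, 4), 6), ((3, 0), (5, 6), 7), ((3, 1), (5,
    4), 6), ((3, 1), (5, 6), 7), ((4, 1), (0, 1), 8), ((4, 1), (0, 6), 7), ((6, 0), (4, 3),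
    2), ((6, 0), (4, 5), 3), ((7, 1), (6, 0), 4), ((7, 1), (6, 5), 3)]
  G := [[0, 0xa864611a6c211a6c211e4, 0, 0x88421464a8c2126c82164a8c21dc, 0xc6a421c6a421c6a421d8],
    [0, 0,
    0x1164211a4211c411a43e111a4211a4211c411681418c1164fe1168211c8211c811a811c811a4fec9,
    0xa1c42114a8c2159c421d8, 0x16a42159a82116a421d4]]

noncomputable def n2543 : Ent := ⟨e2543, noF, [], [], [(17, 13, [6903326391226443182813612567740724581985591720012749800372886078152705, 0])]⟩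

def c2543 : PLift (Cov.check n2543.C.D v2543 = true) := ⟨by decide +kernel⟩

def b2543 : PLift (entF (fidx ts) 400 2543 n2543 = true) := ⟨by decide +kernel⟩

theorem g2543 : GoodF (fidx ts) 400 2543 := GoodF.ofV v2543 n2543 c2543.down b2543.down

/-- 4587446:2003/1 -/
noncomputable def e2544 : SCfg where
  D := {
    a := 7
    L := 10
    kp := 7
    inn := [(0, 1), (0, 2), (1, 0), (1, 2), (2, 0), (2, 1), (2, 3), (2, 6), (3, 2), (3, 4), (3, 5), (3,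
      6), (4, 3), (5, 3), (5, 6), (6, 2), (6, 3), (6, 5)]
    mix := [(0, 0), (0, 1), (1, 1), (1, 2), (1, 3), (2, 0), (2, 3), (2, 4), (2, 5), (3, 4), (3, 6), (3,
      7), (4, 2), (4, 4), (4, 6), (5, 7), (5, 8), (6, 5), (6, 8), (6, 9)]
    cl := [1, 3, 4, 1, 0, 2, 5, 0, 6, 7]
    chq := [(0, 2), (0, 7), (2, 0), (7, 0)]
    rng := [(0, 1), (0, 5), (1, 0), (1, 2), (2, 1), (2, 3), (2, 4), (2, 6), (3, 2), (3, 4), (4, 2), (4,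
      3), (5, 0), (5, 9), (6, 2), (6, 7), (7, 6), (7, 8), (8, 7), (8, 9), (9, 5), (9, 8)]
    lev := [] }
  links := [[1, 2, 7, 8], [2, 0, 8, 9, 10], [7, 0, 1, 10, 11, 3, 6, 12], [6, 2, 11, 4, 13, 14, 5], [13,
    3, 11, 9], [6, 3, 14, 15], [12, 2, 3, 5, 15, 16]]
  P := {
    a := 7
    N := 17
    nb := [390, 1797, 7371, 26740, 10760, 49224, 102444, 4357, 643, 11538, 2566, 1564, 65732, 16920,
      41000, 82016, 36928]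
    tri := [(0, 1, 2), (0, 1, 8), (0, 2, 7), (0, 7, 8), (1, 2, 10), (1, 8, 9), (1, 9, 10), (2, 3, 6),
      (2, 3, 11), (2, 6, 12), (2, 7, 12), (2, 10, 11), (3, 4, 11), (3, 4, 13), (3, 5, 6), (3, 5,
      14), (3, 13, 14), (4, 9, 11), (4, 9, 13), (5, 6, 15), (5, 14, 15), (6, 12, 16), (6, 15, 16)]
    fin := [0, 0, 2, 3, 3, 2, 2, 0, 8, 3, 0, 2, 12, 13, 2, 15, 16]
    chd := [(2, 12), (2, 16)]
    steps := [(0, 1), (0, 7), (0, 10), (2, 6), (2, 5), (2, 11), (2, 14), (3, 4), (3, 9)] }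
  rep := [2, 0, 12, 8, 3, 13, 15, 16]

noncomputable def v2544 : Cov.CovD where
  P := 3
  N := 5
  pl := [1, 2, 6, 8]
  lev := [⟨[], [], [], [3], [(0, 1, [])]⟩,
    ⟨[], [(0, 1)], [], [3, 4], [(3, 1, [])]⟩,
    ⟨[(0, 1)], [(0, 0), (0, 1), (0, 2), (1, 0), (1, 1), (1, 2)], [(0, 1), (0, 2), (1, 1),
      (1, 2)], [], [(0, 1, []), (3, 1, []), (4, 0, [2, 7]), (5, 2, [0])]⟩,
    ⟨[(0, 2), (1, 2)], [(2, 0), (2, 1), (2, 2)], [(0, 0)], [5], [(4, 0, [2, 7]), (7, 0, [2,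
      7])]⟩,
    ⟨[(2, 3)], [(2, 0), (3, 0)], [], [4, 5], [(4, 0, [2, 7])]⟩,
    ⟨[(2, 3), (3, 4)], [(3, 0)], [], [6], [(7, 0, [2, 7])]⟩,
    ⟨[(0, 2), (1, 2), (2, 3), (2, 5), (3, 4), (3, 5)], [(2, 0), (2, 1), (2, 2), (2, 7), (3,
      0), (3, 2), (3, 7), (5, 0), (5, 2), (5, 7)], [(2, 7)], [6], [(5, 2, [0]), (9, 7, [0])]⟩]
  Ta := [((0, 1), 1, 3), ((0, 5), 1, 2), ((3, 2), 1, 4), ((3, 4), 1, 0), ((4, 2), 0, 4), ((4, 3),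
    0, 1), ((7, 6), 0, 5), ((7, 8), 0, 6)]
  Tb := [((0, 1, 5), 1, 3, 2), ((1, 0, 2), 3, 1, 4), ((2, 1, 3), 4, 3, 1), ((2, 1, 4), 4, 3, 0),
    ((2, 1, 6), 4, 3, 5), ((2, 3, 4), 4, 1, 0), ((2, 3, 6), 4, 1, 5), ((2, 4, 6), 4, 0, 5),
    ((3, 2, 4), 1, 4, 0), ((4, 2, 3), 0, 4, 1), ((5, 0, 9), 2, 1, 7), ((6, 2, 7), 5, 4, 0),
    ((7, 6, 8), 0, 5, 6), ((8, 7, 9), 6, 0, 7), ((9, 5, 8), 7, 2, 6)]
  Tc := [(0, 2, 7)]
  Td := [((0, 2), (4, 2), 4), ((0, 2), (4, 3), 1), ((0, 2), (7, 6), 5), ((0, 2), (7, 8), 6), ((0,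
    7), (4, 2), 4), ((0, 7), (4, 3), 1), ((0, 7), (7, 6), 5), ((0, 7), (7, 8), 6), ((2, 0),
    (5, 0), 1), ((2, 0), (5, 9), 7), ((7, 0), (9, 5), 2), ((7, 0), (9, 8), 6)]
  G := [[0, 0, 0x121181141e82116111c2a815, 0x11a11ac11c268211611cc11c2a429,
    0x11611ac11c268211a411c26811c811c2685c], [0,
    0x116811c11c6a411a44116116a8c116116c11c2a4e1, 0x116111a1c411611161a811a111a164d2, 0,
    0x116811611ca68116211a4c811611ac11a11ca68d2], [0, 0, 0x11c11161a4211a111c16815,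
    0x521981d1c2e4295611dc2682c, 0x321b4119c2e821a6111ca436815], [0, 0,
    0x116111616811c111c16811611161a4d2, 0,
    0x13a13168688884269136482139c1e812b165929438b68d2]]

noncomputable def n2544 : Ent := ⟨e2544, noF, [], [], []⟩

def c2544 : PLift (Cov.check n2544.C.D v2544 = true) := ⟨by decide +kernel⟩

def b2544 : PLift (entF (fidx ts) 400 2544 n2544 = true) := ⟨by decide +kernel⟩

theorem g2544 : GoodF (fidx ts) 400 2544 := GoodF.ofV v2544 n2544 c2544.down b2544.down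

/-- 4587446:2003 -/
noncomputable def e2545 : SCfg where
  D := {
    a := 7
    L := 11
    kp := 8
    inn := [(0, 1), (0, 2), (1, 0), (1, 2), (2, 0), (2, 1), (2, 3), (2, 6), (3, 2), (3, 4), (3, 5), (3,
      6), (4, 3), (5, 3), (5, 6), (6, 2), (6, 3), (6, 5)]
    mix := [(0, 0), (0, 1), (1, 1), (1, 2), (1, 3), (2, 0), (2, 3), (2, 4), (2, 5), (3, 4), (3, 6), (3,
      7), (4, 4), (4, 6), (4, 8), (5, 7), (5, 9), (6, 5), (6, 9), (6, 10)]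
    cl := [1, 3, 7, 1, 0, 2, 4, 0, 8, 5, 6]
    chq := [(0, 2), (0, 6), (2, 0), (6, 0)]
    rng := [(0, 1), (0, 5), (1, 0), (1, 2), (2, 1), (2, 3), (3, 2), (3, 4), (4, 3), (4, 8), (5, 0), (5,
      10), (6, 7), (6, 8), (7, 6), (7, 9), (8, 4), (8, 6), (9, 7), (9, 10), (10, 5), (10, 9)]
    lev := [] }
  links := [[1, 2, 7, 8], [2, 0, 8, 9, 10], [7, 0, 1, 10, 11, 3, 6, 12], [6, 2, 11, 4, 13, 14, 5], [13,
    3, 11, 15], [6, 3, 14, 16], [12, 2, 3, 5, 16, 17]]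
  P := {
    a := 7
    N := 18
    nb := [390, 1797, 7371, 26740, 43016, 81992, 200748, 4357, 643, 1282, 2566, 33820, 131268, 49176,
      73768, 10256, 147552, 69696]
    tri := [(0, 1, 2), (0, 1, 8), (0, 2, 7), (0, 7, 8), (1, 2, 10), (1, 8, 9), (1, 9, 10), (2, 3, 6),
      (2, 3, 11), (2, 6, 12), (2, 7, 12), (2, 10, 11), (3, 4, 11), (3, 4, 13), (3, 5, 6), (3, 5,
      14), (3, 13, 14), (4, 11, 15), (4, 13, 15), (5, 6, 16), (5, 14, 16), (6, 12, 17), (6, 16,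
      17)]
    fin := [0, 0, 0, 3, 3, 3, 3, 0, 8, 9, 0, 3, 12, 13, 3, 15, 16, 17]
    chd := [(3, 12), (3, 17)]
    steps := [(0, 1), (0, 2), (0, 7), (0, 10), (3, 4), (3, 5), (3, 6), (3, 11), (3, 14)] }
  rep := [3, 0, 12, 8, 13, 16, 17, 9, 15]

noncomputable def v2545 : Cov.CovD where
  P := 3
  N := 6
  pl := [1, 2, 6, 8, 9]
  lev := [⟨[], [], [], [3], [(0, 1, [])]⟩,
    ⟨[], [(0, 1)], [], [3, 7], [(3, 1, [])]⟩,
    ⟨[(0, 1)], [(0, 0), (0, 1), (0, 2), (1, 0), (1, 1), (1, 2)], [(0, 1), (0, 2), (1, 1),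
      (1, 2)], [], [(0, 1, []), (3, 1, []), (4, 0, [2, 6]), (5, 2, [0])]⟩,
    ⟨[(0, 2), (1, 2)], [(2, 0), (2, 1), (2, 2)], [(0, 0)], [4], [(4, 0, [2, 6]), (7, 0, [2,
      6])]⟩,
    ⟨[(2, 3)], [(2, 0), (3, 0)], [], [4, 8], [(4, 0, [2, 6])]⟩,
    ⟨[(2, 3), (3, 4)], [(3, 0)], [], [5], [(7, 0, [2, 6])]⟩,
    ⟨[(0, 2), (1, 2), (2, 3), (2, 5), (3, 4), (3, 5)], [(2, 0), (2, 1), (2, 2), (2, 6), (3,
      0), (3, 2), (3, 6), (5, 0), (5, 2), (5, 6)], [(2, 6)], [5], [(5, 2, [0]), (10, 6,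
      [0])]⟩]
  Ta := [((0, 1), 1, 3), ((0, 5), 1, 2), ((3, 2), 1, 7), ((3, 4), 1, 0), ((4, 3), 0, 1), ((4, 8),
    0, 8), ((7, 6), 0, 4), ((7, 9), 0, 5)]
  Tb := [((0, 1, 5), 1, 3, 2), ((1, 0, 2), 3, 1, 7), ((2, 1, 3), 7, 3, 1), ((3, 2, 4), 1, 7, 0),
    ((4, 3, 8), 0, 1, 8), ((5, 0, 10), 2, 1, 6), ((6, 7, 8), 4, 0, 8), ((7, 6, 9), 0, 4, 5),
    ((8, 4, 6), 8, 0, 4), ((9, 7, 10), 5, 0, 6), ((10, 5, 9), 6, 2, 5)]
  Tc := [(0, 2, 6)]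
  Td := [((0, 2), (4, 3), 1), ((0, 2), (4, 8), 8), ((0, 2), (7, 6), 4), ((0, 2), (7, 9), 5), ((0,
    6), (4, 3), 1), ((0, 6), (4, 8), 8), ((0, 6), (7, 6), 4), ((0, 6), (7, 9), 5), ((2, 0),
    (5, 0), 1), ((2, 0), (5, 10), 6), ((6, 0), (10, 5), 2), ((6, 0), (10, 9), 5)]
  G := [[0, 0, 0x11a111a164811611161a84121141181e81d, 0x11a411c2611688c211a44116811c2ac2c,
    0x11611ac11c11ca68211a11ac11c11ca6811611ac11c11ca6895], [0,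
    0x11a411c2611688c11a44116811c2ac11a411c2611688ce1, 0x11a111a1a411a111c1a4116111a1c4d2, 0,
    0x11611ac11611ca6811c11ac11611ca6811c11ac11a11ca68d2], [0, 0,
    0x11c111c1a48116111a1c84116111a1a81d, 0x141259a7181da9a42116116c2b19a1421e429,
    0x11c821c168888a29211a22548488c491a6119619c24b68c11aa454813618419caa83d], [0, 0,
    0x11a111a168116111a168116111a1a4d2, 0,
    0x141238d121438b68482c8288a69316111a11ca27841e81a6119c19c28b68d2]]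

noncomputable def n2545 : Ent := ⟨e2545, noF, [], [], [(9, 15, [7334790850167413569773436004105379185503274260204390087403942015074305, 0])]⟩

def c2545 : PLift (Cov.check n2545.C.D v2545 = true) := ⟨by decide +kernel⟩

def b2545 : PLift (entF (fidx ts) 400 2545 n2545 = true) := ⟨by decide +kernel⟩

theorem g2545 : GoodF (fidx ts) 400 2545 := GoodF.ofV v2545 n2545 c2545.down b2545.down

/-- 4587446:2005/1 -/
noncomputable def e2546 : SCfg where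
  D := {
    a := 7
    L := 10
    kp := 7
    inn := [(0, 1), (0, 2), (1, 0), (1, 2), (2, 0), (2, 1), (2, 3), (2, 6), (3, 2), (3, 4), (3, 5), (3,
      6), (4, 3), (4, 6), (5, 3), (6, 2), (6, 3), (6, 4)]
    mix := [(0, 0), (0, 1), (1, 1), (1, 2), (1, 3), (2, 0), (2, 3), (2, 4), (2, 5), (3, 4), (3, 6), (3,
      7), (4, 6), (4, 8), (5, 4), (5, 7), (5, 9), (6, 2), (6, 3), (6, 8)]
    cl := [1, 2, 3, 1, 0, 6, 0, 4, 5, 7]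
    chq := [(0, 1), (0, 3), (1, 0), (3, 0)]
    rng := [(0, 1), (0, 5), (1, 0), (1, 2), (2, 1), (2, 3), (2, 8), (3, 2), (4, 5), (4, 9), (5, 0), (5,
      4), (6, 7), (6, 8), (7, 6), (7, 9), (8, 2), (8, 6), (9, 4), (9, 7)]
    lev := [] }
  links := [[1, 2, 7, 8], [2, 0, 8, 9, 10], [7, 0, 1, 10, 6, 3, 11, 12], [11, 2, 6, 4, 13, 14, 5], [13,
    3, 6, 15], [11, 3, 14, 16], [15, 4, 3, 2, 10, 9]]
  P := {
    a := 7
    N := 17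
    nb := [390, 1797, 7371, 26740, 41032, 83976, 34332, 4357, 643, 34114, 582, 69676, 2180, 49176,
      73768, 8784, 18464]
    tri := [(0, 1, 2), (0, 1, 8), (0, 2, 7), (0, 7, 8), (1, 2, 10), (1, 8, 9), (1, 9, 10), (2, 3, 6),
      (2, 3, 11), (2, 6, 10), (2, 7, 12), (2, 11, 12), (3, 4, 6), (3, 4, 13), (3, 5, 11), (3, 5,
      14), (3, 13, 14), (4, 6, 15), (4, 13, 15), (5, 11, 16), (5, 14, 16), (6, 9, 10), (6, 9, 15)]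
    fin := [0, 0, 0, 3, 4, 3, 4, 0, 8, 4, 0, 3, 12, 3, 14, 15, 16]
    chd := [(0, 3), (4, 3)]
    steps := [(0, 1), (0, 2), (0, 7), (0, 10), (3, 5), (3, 13), (3, 11), (4, 6), (4, 9)] }
  rep := [3, 0, 8, 4, 14, 15, 12, 16]

noncomputable def v2546 : Cov.CovD where
  P := 3
  N := 5
  pl := [1, 5, 7, 8, 9]
  lev := [⟨[], [], [], [2], [(0, 1, [0])]⟩,
    ⟨[], [(0, 1), (0, 3)], [(1, 3)], [2], [(2, 3, [0]), (3, 1, [0])]⟩,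
    ⟨[(0, 1)], [(0, 0), (0, 1), (1, 0), (1, 1), (1, 3)], [(0, 1), (1, 1)], [6], [(0, 1,
      [0]), (3, 1, [0]), (4, 0, [1, 3])]⟩,
    ⟨[(0, 2), (1, 2)], [(2, 0), (2, 1)], [(0, 0)], [4], [(4, 0, [1, 3]), (6, 0, [1, 3])]⟩,
    ⟨[(2, 3)], [(3, 0)], [], [5], [(6, 0, [1, 3])]⟩,
    ⟨[(2, 3), (3, 4)], [(2, 0), (3, 0)], [], [4, 7], [(4, 0, [1, 3])]⟩,
    ⟨[(0, 2), (1, 2), (2, 3), (2, 4), (3, 4), (3, 5)], [(1, 1), (1, 3), (2, 0), (2, 1), (2,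
      3), (3, 0), (3, 1), (3, 3), (4, 0), (4, 1), (4, 3)], [(1, 3)], [5], [(2, 3, [0]), (3,
      1, [0])]⟩]
  Ta := [((0, 1), 1, 2), ((0, 5), 1, 6), ((3, 2), 1, 3), ((4, 5), 0, 6), ((4, 9), 0, 7), ((6, 7),
    0, 4), ((6, 8), 0, 5)]
  Tb := [((0, 1, 5), 1, 2, 6), ((1, 0, 2), 2, 1, 3), ((2, 1, 3), 3, 2, 1), ((2, 1, 8), 3, 2, 5),
    ((2, 3, 8), 3, 1, 5), ((4, 5, 9), 0, 6, 7), ((5, 0, 4), 6, 1, 0), ((6, 7, 8), 0, 4, 5),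
    ((7, 6, 9), 4, 0, 7), ((8, 2, 6), 5, 3, 0), ((9, 4, 7), 7, 0, 4)]
  Tc := [(0, 1, 3)]
  Td := [((0, 1), (4, 5), 6), ((0, 1), (4, 9), 7), ((0, 1), (6, 7), 4), ((0, 1), (6, 8), 5), ((0,
    3), (4, 5), 6), ((0, 3), (4, 9), 7), ((0, 3), (6, 7), 4), ((0, 3), (6, 8), 5), ((1, 0),
    (0, 1), 2), ((1, 0), (0, 5), 6), ((1, 0), (3, 2), 3), ((3, 0), (2, 1), 2), ((3, 0), (2,
    3), 1), ((3, 0), (2, 8), 5)]
  G := [[0, 0x41215811e11e211e11c11ea14, 0x11c11ca11a11ac611c11c61161214eac24,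
    0x8ca12111c224d911a51ac6186ec5121214c4fac58, 0x11c11ca11a11ac611c11c6116116cac28], [0,
    0x2124c11e11ae11c11ce18,
    0x11c11ca11a11ac611c11c6816116cac841c11ca11a44a9611c11c6116116cac46, 0,
    0x11c11cc1b11a114b88ad6141851c485f118711641dac12], [0,
    0x118132111168611821184ae11421284112ed4, 0x44c48111c2112611321152a88c884ce86d64,
    0x22c488c888a8e144c422c84464e111221122cd4, 0x111d5a121c911e641195c11321d98ec21], [0,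
    0x818426114818e116e118e98, 0x11c2112611c2114a88c888a86d1121168a1418a112a44c44464adc2, 0,
    0x5114618921147916e5114149e1938d12ec12]]

noncomputable def n2546 : Ent := ⟨e2546, noF, [], [], []⟩

def c2546 : PLift (Cov.check n2546.C.D v2546 = true) := ⟨by decide +kernel⟩

def b2546 : PLift (entF (fidx ts) 400 2546 n2546 = true) := ⟨by decide +kernel⟩

theorem g2546 : GoodF (fidx ts) 400 2546 := GoodF.ofV v2546 n2546 c2546.down b2546.down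

/-- 4587446:2005 -/
noncomputable def e2547 : SCfg where
  D := {
    a := 7
    L := 11
    kp := 8
    inn := [(0, 1), (0, 2), (1, 0), (1, 2), (2, 0), (2, 1), (2, 3), (2, 6), (3, 2), (3, 4), (3, 5), (3,
      6), (4, 3), (4, 6), (5, 3), (6, 2), (6, 3), (6, 4)]
    mix := [(0, 0), (0, 1), (1, 1), (1, 2), (1, 3), (2, 0), (2, 3), (2, 4), (2, 5), (3, 4), (3, 6), (3,
      7), (4, 6), (4, 8), (5, 4), (5, 7), (5, 9), (6, 3), (6, 8), (6, 10)]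
    cl := [1, 2, 6, 1, 0, 7, 0, 3, 4, 8, 5]
    chq := [(0, 1), (0, 5), (1, 0), (5, 0)]
    rng := [(0, 1), (0, 5), (1, 0), (1, 2), (2, 1), (2, 3), (3, 2), (3, 10), (4, 5), (4, 9), (5, 0),
      (5, 4), (6, 7), (6, 8), (7, 6), (7, 9), (8, 6), (8, 10), (9, 4), (9, 7), (10, 3), (10, 8)]
    lev := [] }
  links := [[1, 2, 7, 8], [2, 0, 8, 9, 10], [7, 0, 1, 10, 6, 3, 11, 12], [11, 2, 6, 4, 13, 14, 5], [13,
    3, 6, 15], [11, 3, 14, 16], [15, 4, 3, 2, 10, 17]]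
  P := {
    a := 7
    N := 18
    nb := [390, 1797, 7371, 26740, 41032, 83976, 164892, 4357, 643, 1282, 131654, 69676, 2180, 49176,
      73768, 139344, 18464, 33856]
    tri := [(0, 1, 2), (0, 1, 8), (0, 2, 7), (0, 7, 8), (1, 2, 10), (1, 8, 9), (1, 9, 10), (2, 3, 6),
      (2, 3, 11), (2, 6, 10), (2, 7, 12), (2, 11, 12), (3, 4, 6), (3, 4, 13), (3, 5, 11), (3, 5,
      14), (3, 13, 14), (4, 6, 15), (4, 13, 15), (5, 11, 16), (5, 14, 16), (6, 10, 17), (6, 15,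
      17)]
    fin := [0, 0, 0, 3, 4, 3, 4, 0, 8, 9, 0, 3, 12, 3, 14, 15, 16, 4]
    chd := [(0, 3), (3, 4)]
    steps := [(0, 1), (0, 2), (0, 7), (0, 10), (3, 5), (3, 13), (3, 11), (4, 6), (4, 17)] }
  rep := [3, 0, 8, 14, 15, 4, 9, 12, 16]

noncomputable def v2547 : Cov.CovD where
  P := 3
  N := 6
  pl := [1, 2, 5, 7, 8, 9]
  lev := [⟨[], [], [], [2], [(0, 1, [0])]⟩,
    ⟨[], [(0, 1)], [], [2, 6], [(3, 1, [0])]⟩,
    ⟨[(0, 1)], [(0, 0), (0, 1), (1, 0), (1, 1)], [(0, 1), (1, 1)], [7], [(0, 1, [0]), (3,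
      1, [0]), (4, 0, [1, 5])]⟩,
    ⟨[(0, 2), (1, 2)], [(2, 0), (2, 1)], [(0, 0)], [3], [(4, 0, [1, 5]), (6, 0, [1, 5])]⟩,
    ⟨[(2, 3)], [(3, 0)], [], [4], [(6, 0, [1, 5])]⟩,
    ⟨[(2, 3), (3, 4)], [(2, 0), (3, 0)], [], [3, 8], [(4, 0, [1, 5])]⟩,
    ⟨[(0, 2), (1, 2), (2, 3), (2, 4), (3, 4), (3, 5)], [(1, 1), (2, 0), (2, 1), (2, 5), (3,
      0), (3, 1), (3, 5), (4, 0), (4, 1), (4, 5)], [(1, 5)], [4], [(3, 1, [0]), (10, 5,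
      [0])]⟩]
  Ta := [((0, 1), 1, 2), ((0, 5), 1, 7), ((3, 2), 1, 6), ((3, 10), 1, 5), ((4, 5), 0, 7), ((4,
    9), 0, 8), ((6, 7), 0, 3), ((6, 8), 0, 4)]
  Tb := [((0, 1, 5), 1, 2, 7), ((1, 0, 2), 2, 1, 6), ((2, 1, 3), 6, 2, 1), ((3, 2, 10), 1, 6, 5),
    ((4, 5, 9), 0, 7, 8), ((5, 0, 4), 7, 1, 0), ((6, 7, 8), 0, 3, 4), ((7, 6, 9), 3, 0, 8),
    ((8, 6, 10), 4, 0, 5), ((9, 4, 7), 8, 0, 3), ((10, 3, 8), 5, 1, 4)]
  Tc := [(0, 1, 5)]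
  Td := [((0, 1), (4, 5), 7), ((0, 1), (4, 9), 8), ((0, 1), (6, 7), 3), ((0, 1), (6, 8), 4), ((0,
    5), (4, 5), 7), ((0, 5), (4, 9), 8), ((0, 5), (6, 7), 3), ((0, 5), (6, 8), 4), ((1, 0),
    (0, 1), 2), ((1, 0), (0, 5), 7), ((1, 0), (3, 2), 6), ((1, 0), (3, 10), 5), ((5, 0), (10,
    3), 1), ((5, 0), (10, 8), 4)]
  G := [[0, 0x1142411442e114116a112e118ed4, 0x11c11ca11a11ac611c11c6116116cac28,
    0x11c22c5116116ca411c22c911a11ac6811c22c911a11ac6182ec5116116cacd8,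
    0x11c11ca11a11ac611c11c6116116cac28], [0, 0xe11e11a211e11c11e618,
    0x11c11ca11a11ac611c11c61211614eac11c11ca11a11ac611c11c6116116cacc2, 0,
    0x11c11ca11a11ac611c11c61161214eac141811ce11a11ac611c11c6116116cac91], [0,
    0xe1184111411861121111caa112114a11221184ec9, 0x11419529192e8111c6112a44c4cc68ad24,
    0x112266c4aac8c28e5112266c4aac888a446ce91111a21111c2cd8,
    0x11c2112611c2112a44c488c8884c6ced28], [0, 0x1111a41111c26e112e1146911116884c,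
    0x11521192611a2112c44c488c884ce4ed11521192611921152a44c488c8848e42cedc2, 0,
    0x11c2112611921152644c488c888a446ced11cd1a1c31196611c1d96c1115aac92]]

noncomputable def n2547 : Ent := ⟨e2547, noF, [], [], [(9, 17, [6903326391201334775872065844685381424292761054348340378595029940117505, 0])]⟩

def c2547 : PLift (Cov.check n2547.C.D v2547 = true) := ⟨by decide +kernel⟩

def b2547 : PLift (entF (fidx ts) 400 2547 n2547 = true) := ⟨by decide +kernel⟩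

theorem g2547 : GoodF (fidx ts) 400 2547 := GoodF.ofV v2547 n2547 c2547.down b2547.down

/-- 4678446:2032 -/
noncomputable def e2548 : SCfg where
  D := {
    a := 7
    L := 11
    kp := 8
    inn := [(0, 1), (0, 2), (0, 3), (1, 0), (1, 3), (1, 6), (2, 0), (2, 3), (2, 4), (3, 0), (3, 1), (3,
      2), (3, 4), (3, 5), (3, 6), (4, 2), (4, 3), (5, 3), (6, 1), (6, 3)]
    mix := [(0, 0), (1, 0), (1, 1), (1, 2), (2, 0), (2, 3), (2, 4), (2, 5), (3, 6), (3, 7), (4, 5), (4,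
      6), (5, 6), (5, 7), (5, 8), (6, 1), (6, 7), (6, 9), (6, 10)]
    cl := [1, 0, 3, 4, 5, 1, 2, 0, 6, 7, 8]
    chq := [(0, 2), (2, 0), (2, 3), (3, 2)]
    rng := [(0, 2), (0, 3), (1, 2), (1, 10), (2, 0), (2, 1), (3, 0), (3, 4), (4, 3), (4, 5), (5, 4),
      (5, 6), (6, 5), (6, 8), (7, 8), (7, 9), (8, 6), (8, 7), (9, 7), (9, 10), (10, 1), (10, 9)]
    lev := [] }
  links := [[1, 7, 2, 3], [7, 0, 3, 6, 8, 9], [3, 0, 7, 10, 11, 12, 4], [6, 1, 0, 2, 4, 13, 5, 14], [13,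
    3, 2, 12], [14, 3, 13, 15], [8, 1, 3, 14, 16, 17]]
  P := {
    a := 7
    N := 18
    nb := [142, 969, 7321, 24695, 12300, 57352, 213258, 1543, 131650, 386, 2180, 5124, 10260, 36920,
      98408, 24608, 147520, 65856]
    tri := [(0, 1, 3), (0, 1, 7), (0, 2, 3), (0, 2, 7), (1, 3, 6), (1, 6, 8), (1, 7, 9), (1, 8, 9), (2,
      3, 4), (2, 4, 12), (2, 7, 10), (2, 10, 11), (2, 11, 12), (3, 4, 13), (3, 5, 13), (3, 5, 14),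
      (3, 6, 14), (4, 12, 13), (5, 13, 15), (5, 14, 15), (6, 8, 17), (6, 14, 16), (6, 16, 17)]
    fin := [0, 1, 0, 1, 0, 1, 6, 0, 6, 9, 10, 11, 0, 1, 6, 15, 16, 17]
    chd := [(6, 1), (9, 1)]
    steps := [(0, 2), (0, 4), (0, 7), (0, 12), (1, 3), (1, 5), (1, 13), (6, 14), (6, 8)] }
  rep := [6, 0, 1, 9, 10, 11, 15, 16, 17]

noncomputable def v2548 : Cov.CovD where
  P := 3
  N := 6
  pl := [3, 4, 8, 9, 10]
  lev := [⟨[], [], [], [], [(0, 1, [])]⟩,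
    ⟨[], [(0, 0), (0, 1), (0, 3)], [(0, 1), (0, 3), (1, 3)], [], [(0, 1, []), (1, 0, [2]),
      (2, 3, [2])]⟩,
    ⟨[(0, 1)], [(0, 1), (1, 1)], [(1, 1)], [4, 5], [(0, 1, []), (5, 1, [])]⟩,
    ⟨[(0, 1), (0, 2), (1, 2)], [(0, 0), (0, 1), (0, 2), (1, 0), (1, 1), (1, 2), (1, 3), (2,
      0), (2, 1), (2, 2)], [(0, 2)], [], [(6, 2, [0, 3]), (7, 0, [2])]⟩,
    ⟨[(0, 2), (0, 3), (1, 3), (2, 3)], [(2, 1), (2, 2), (3, 0), (3, 1), (3, 2)], [(1, 2)],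
      [], [(5, 1, []), (6, 2, [0, 3])]⟩,
    ⟨[(0, 3), (1, 3), (2, 3), (3, 4)], [(3, 0), (3, 2), (4, 2)], [(0, 2)], [6], [(6, 2, [0,
      3]), (7, 0, [2])]⟩,
    ⟨[(0, 1), (0, 3), (1, 3), (2, 3), (3, 4), (3, 5)], [(1, 0), (1, 1), (1, 3), (3, 0), (3,
      2), (5, 0)], [(0, 0)], [7, 8], [(1, 0, [2]), (7, 0, [2])]⟩]
  Ta := [((0, 2), 1, 3), ((0, 3), 1, 4), ((1, 2), 0, 3), ((1, 10), 0, 8), ((5, 4), 1, 5), ((5,
    6), 1, 2), ((7, 8), 0, 6), ((7, 9), 0, 7)]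
  Tb := [((0, 2, 3), 1, 3, 4), ((1, 2, 10), 0, 3, 8), ((2, 0, 1), 3, 1, 0), ((3, 0, 4), 4, 1, 5),
    ((4, 3, 5), 5, 4, 1), ((5, 4, 6), 1, 5, 2), ((6, 5, 8), 2, 1, 6), ((7, 8, 9), 0, 6, 7),
    ((8, 6, 7), 6, 2, 0), ((9, 7, 10), 7, 0, 8), ((10, 1, 9), 8, 0, 7)]
  Tc := [(2, 0, 3)]
  Td := [((0, 2), (1, 2), 3), ((0, 2), (1, 10), 8), ((0, 2), (7, 8), 6), ((0, 2), (7, 9), 7),
    ((2, 0), (6, 5), 1), ((2, 0), (6, 8), 6), ((2, 3), (6, 5), 1), ((2, 3), (6, 8), 6), ((3,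
    2), (2, 0), 1), ((3, 2), (2, 1), 0)]
  G := [[0, 0x21842144622148e114611818ce114ee8, 0x6ace242ece42eec42d18, 0,
    0x418241184182de182e112e182dc1], [0, 0x212421482148ee184418a18ce184ea1,
    0xeec82eec82eec82d14, 0x21142114e184d21142148e148dc184c148ce1,
    0xa182e112e182d411844184488d61], [0, 0x221422482214eeac14644a88c441eac1ce6444848c18c2c,
    0x2ece42eec82eca22c4d18, 0, 0x221eca1a628e8a8a228eca1ad14], [0,
    0x228422842248e644e8c8c6ec4888ce44e88cea1, 0x624e8a1ae2ce822ece82d14,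
    0x644a848c5c444acca88c444eac1cd12, 0xeca12221eca8a621e8a8ad1221881c]]

noncomputable def n2548 : Ent := ⟨e2548, noF, [], [], []⟩

def c2548 : PLift (Cov.check n2548.C.D v2548 = true) := ⟨by decide +kernel⟩

def b2548 : PLift (entF (fidx ts) 400 2548 n2548 = true) := ⟨by decide +kernel⟩

theorem g2548 : GoodF (fidx ts) 400 2548 := GoodF.ofV v2548 n2548 c2548.down b2548.down

/-- 4587446:2047 -/
noncomputable def e2549 : SCfg where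
  D := {
    a := 7
    L := 11
    kp := 8
    inn := [(0, 1), (0, 2), (1, 0), (1, 2), (2, 0), (2, 1), (2, 3), (2, 6), (3, 2), (3, 4), (3, 5), (3,
      6), (4, 3), (5, 3), (5, 6), (6, 2), (6, 3), (6, 5)]
    mix := [(0, 0), (0, 1), (1, 1), (1, 2), (1, 3), (2, 0), (2, 3), (2, 4), (2, 5), (3, 5), (3, 6), (3,
      7), (4, 5), (4, 6), (4, 8), (5, 7), (5, 9), (6, 0), (6, 9), (6, 10)]
    cl := [1, 2, 6, 1, 7, 0, 3, 0, 8, 4, 5]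
    chq := [(0, 1), (0, 5), (1, 0), (5, 0)]
    rng := [(0, 1), (0, 10), (1, 0), (1, 2), (2, 1), (2, 3), (3, 2), (3, 4), (4, 3), (4, 5), (5, 4),
      (5, 8), (6, 7), (6, 8), (7, 6), (7, 9), (8, 5), (8, 6), (9, 7), (9, 10), (10, 0), (10, 9)]
    lev := [] }
  links := [[1, 2, 7, 8], [2, 0, 8, 9, 10], [7, 0, 1, 10, 11, 12, 3, 6], [6, 2, 12, 4, 13, 14, 5], [13,
    3, 12, 15], [6, 3, 14, 16], [7, 2, 3, 5, 16, 17]]
  P := {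
    a := 7
    N := 18
    nb := [390, 1797, 7371, 28788, 45064, 81992, 196780, 131397, 643, 1282, 2566, 5124, 34844, 49176,
      73768, 12304, 147552, 65728]
    tri := [(0, 1, 2), (0, 1, 8), (0, 2, 7), (0, 7, 8), (1, 2, 10), (1, 8, 9), (1, 9, 10), (2, 3, 6),
      (2, 3, 12), (2, 6, 7), (2, 10, 11), (2, 11, 12), (3, 4, 12), (3, 4, 13), (3, 5, 6), (3, 5,
      14), (3, 13, 14), (4, 12, 15), (4, 13, 15), (5, 6, 16), (5, 14, 16), (6, 7, 17), (6, 16,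
      17)]
    fin := [0, 0, 0, 3, 3, 3, 3, 0, 8, 9, 0, 11, 3, 13, 3, 15, 16, 17]
    chd := [(0, 3), (3, 17)]
    steps := [(0, 1), (0, 2), (0, 7), (0, 10), (3, 4), (3, 5), (3, 6), (3, 12), (3, 14)] }
  rep := [3, 0, 8, 13, 16, 17, 9, 11, 15]

noncomputable def v2549 : Cov.CovD where
  P := 3
  N := 6
  pl := [1, 2, 4, 6, 8, 9]
  lev := [⟨[], [], [], [2], [(0, 1, [0])]⟩,
    ⟨[], [(0, 1)], [], [2, 6], [(3, 1, [0])]⟩,
    ⟨[(0, 1)], [(0, 0), (0, 1), (1, 0), (1, 1)], [(0, 1), (1, 1)], [7], [(0, 1, [0]), (3,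
      1, [0]), (5, 0, [1, 5])]⟩,
    ⟨[(0, 2), (1, 2)], [(2, 0), (2, 1)], [(0, 0)], [3], [(5, 0, [1, 5]), (7, 0, [1, 5])]⟩,
    ⟨[(2, 3)], [(2, 0), (3, 0)], [], [3, 8], [(5, 0, [1, 5])]⟩,
    ⟨[(2, 3), (3, 4)], [(3, 0)], [], [4], [(7, 0, [1, 5])]⟩,
    ⟨[(0, 2), (1, 2), (2, 3), (2, 5), (3, 4), (3, 5)], [(0, 1), (2, 0), (2, 1), (2, 5), (3,
      0), (3, 1), (3, 5), (5, 0), (5, 1), (5, 5)], [(1, 5)], [4], [(0, 1, [0]), (10, 5,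
      [0])]⟩]
  Ta := [((0, 1), 1, 2), ((0, 10), 1, 5), ((3, 2), 1, 6), ((3, 4), 1, 7), ((5, 4), 0, 7), ((5,
    8), 0, 8), ((7, 6), 0, 3), ((7, 9), 0, 4)]
  Tb := [((0, 1, 10), 1, 2, 5), ((1, 0, 2), 2, 1, 6), ((2, 1, 3), 6, 2, 1), ((3, 2, 4), 1, 6, 7),
    ((4, 3, 5), 7, 1, 0), ((5, 4, 8), 0, 7, 8), ((6, 7, 8), 3, 0, 8), ((7, 6, 9), 0, 3, 4),
    ((8, 5, 6), 8, 0, 3), ((9, 7, 10), 4, 0, 5), ((10, 0, 9), 5, 1, 4)]
  Tc := [(0, 1, 5)]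
  Td := [((0, 1), (5, 4), 7), ((0, 1), (5, 8), 8), ((0, 1), (7, 6), 3), ((0, 1), (7, 9), 4), ((0,
    5), (5, 4), 7), ((0, 5), (5, 8), 8), ((0, 5), (7, 6), 3), ((0, 5), (7, 9), 4), ((1, 0),
    (0, 1), 2), ((1, 0), (0, 10), 5), ((1, 0), (3, 2), 6), ((1, 0), (3, 4), 7), ((5, 0), (10,
    0), 1), ((5, 0), (10, 9), 4)]
  G := [[0, 0x11c1411c1211618e14, 0x11a11ac11c11ca611611cc11c11c6ac28,
    0x11611cc11611c6a411c11ac11c11ca6811c11ac11a11ca6116116c11611c6acd8,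
    0x11c11ac11a11ca611611cc11c11c6ac21], [0, 0x1161411a1211a18e18,
    0x11c11ac11a11ca6116116c11a11c6ac11c11ac11a11ca611611cc11c11c6acc2, 0,
    0x11c11ac11c11ca611611ac11a11c6ac11a11ac11a11ca6116116c11c11c6ac92], [0,
    0x1161811c1211a14e14, 0x41a11211ca6121452d58125ac888cc4c4a6d28,
    0x14188888c4484c665848184116121cad59c16121891418927ac416111a126841ed2112212485ecd5,
    0x1212c12161211211c6a4444c8888c8444c8eed28], [0, 0x1161411a1211618e18,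
    0x11c12116126464ca8a8c84c2ed116126464ca8a8cc82e9c11612446, 0,
    0x82c8a218141238d1215a9631612a31a1cc24121c111a11cae1812c51214c1abac99]]

noncomputable def n2549 : Ent := ⟨e2549, noF, [], [], []⟩

def c2549 : PLift (Cov.check n2549.C.D v2549 = true) := ⟨by decide +kernel⟩

def b2549 : PLift (entF (fidx ts) 400 2549 n2549 = true) := ⟨by decide +kernel⟩

theorem g2549 : GoodF (fidx ts) 400 2549 := GoodF.ofV v2549 n2549 c2549.down b2549.down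

/-- 4678464:2048/1 -/
noncomputable def e2550 : SCfg where
  D := {
    a := 7
    L := 10
    kp := 8
    inn := [(0, 1), (0, 2), (0, 3), (1, 0), (1, 3), (1, 4), (2, 0), (2, 3), (2, 5), (3, 0), (3, 1), (3,
      2), (3, 4), (3, 5), (4, 1), (4, 3), (5, 2), (5, 3), (5, 6), (6, 5)]
    mix := [(0, 0), (1, 0), (1, 1), (1, 2), (2, 0), (2, 3), (2, 4), (2, 5), (3, 6), (3, 7), (3, 8), (4,
      1), (4, 8), (5, 5), (5, 6), (5, 9), (6, 1), (6, 5), (6, 9)]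
    cl := [0, 1, 5, 7, 8, 0, 3, 6, 2, 4]
    chq := [(0, 2), (0, 3), (0, 6), (1, 3), (2, 0), (2, 5), (3, 0), (3, 1), (5, 2), (6, 0)]
    rng := [(0, 2), (0, 3), (1, 2), (1, 5), (1, 8), (1, 9), (2, 0), (2, 1), (3, 0), (3, 4), (4, 3), (4,
      5), (5, 1), (5, 4), (6, 7), (6, 9), (7, 6), (7, 8), (8, 1), (8, 7), (9, 1), (9, 6)]
    lev := [] }
  links := [[1, 7, 2, 3], [7, 0, 3, 4, 8, 9], [3, 0, 7, 10, 11, 12, 5], [4, 1, 0, 2, 5, 13, 14, 15], [8,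
    1, 3, 15], [13, 3, 2, 12, 6, 16], [16, 5, 12, 8]]
  P := {
    a := 7
    N := 17
    nb := [142, 921, 7337, 57399, 33034, 77900, 69920, 1543, 102994, 386, 2180, 5124, 2404, 81960,
      40968, 16664, 8544]
    tri := [(0, 1, 3), (0, 1, 7), (0, 2, 3), (0, 2, 7), (1, 3, 4), (1, 4, 8), (1, 7, 9), (1, 8, 9), (2,
      3, 5), (2, 5, 12), (2, 7, 10), (2, 10, 11), (2, 11, 12), (3, 4, 15), (3, 5, 13), (3, 13,
      14), (3, 14, 15), (4, 8, 15), (5, 6, 12), (5, 6, 16), (5, 13, 16), (6, 8, 12), (6, 8, 16)]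
    fin := [0, 1, 0, 0, 1, 5, 5, 0, 5, 9, 10, 11, 0, 13, 14, 1, 16]
    chd := [(0, 1), (0, 13), (0, 14), (5, 13), (9, 1)]
    steps := [(0, 2), (0, 3), (0, 7), (0, 12), (1, 4), (1, 15), (5, 6), (5, 8)] }
  rep := [0, 5, 1, 13, 16, 9, 14, 10, 11]

noncomputable def v2550 : Cov.CovD where
  P := 3
  N := 6
  pl := [3, 4, 9]
  lev := [⟨[], [], [], [], [(0, 0, [2, 3, 6])]⟩,
    ⟨[], [(0, 0), (0, 1), (0, 5)], [(0, 1), (0, 5), (1, 5)], [], [(0, 0, [2, 3, 6]), (1, 1,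
      [3]), (2, 5, [2])]⟩,
    ⟨[(0, 1)], [(0, 0), (1, 0)], [(0, 0)], [7, 8], [(0, 0, [2, 3, 6]), (5, 0, [2, 3, 6])]⟩,
    ⟨[(0, 1), (0, 2), (1, 2)], [(0, 0), (0, 2), (0, 3), (0, 6), (1, 0), (1, 1), (1, 2), (1,
      3), (1, 5), (1, 6), (2, 0), (2, 2), (2, 3), (2, 6)], [(2, 3), (2, 6), (3, 6)], [], [(6,
      3, [0, 1]), (7, 6, [0]), (8, 2, [0, 5])]⟩,
    ⟨[(0, 1), (0, 3), (1, 3), (2, 3)], [(1, 0), (1, 1), (1, 2), (1, 5), (3, 1), (3, 2), (3,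
      3), (3, 6)], [(1, 2)], [], [(1, 1, [3]), (8, 2, [0, 5])]⟩,
    ⟨[(0, 2), (0, 3), (1, 3), (2, 3), (3, 4)], [(2, 0), (2, 3), (3, 0), (3, 2), (3, 3), (3,
      6)], [(0, 3)], [4], [(5, 0, [2, 3, 6]), (6, 3, [0, 1])]⟩,
    ⟨[(2, 5), (3, 5)], [(1, 1), (2, 0), (4, 1), (5, 0), (5, 1), (5, 3)], [(0, 1)], [4],
      [(1, 1, [3]), (5, 0, [2, 3, 6])]⟩]
  Ta := [((0, 2), 0, 5), ((0, 3), 0, 7), ((5, 1), 0, 1), ((5, 4), 0, 8)]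
  Tb := [((0, 2, 3), 0, 5, 7), ((1, 2, 5), 1, 5, 0), ((1, 2, 8), 1, 5, 2), ((1, 2, 9), 1, 5, 4),
    ((1, 5, 8), 1, 0, 2), ((1, 5, 9), 1, 0, 4), ((1, 8, 9), 1, 2, 4), ((2, 0, 1), 5, 0, 1),
    ((3, 0, 4), 7, 0, 8), ((4, 3, 5), 8, 7, 0), ((5, 1, 4), 0, 1, 8), ((6, 7, 9), 3, 6, 4),
    ((7, 6, 8), 6, 3, 2), ((8, 1, 7), 2, 1, 6), ((9, 1, 6), 4, 1, 3)]
  Tc := [(0, 2, 3), (0, 2, 6), (0, 3, 6), (2, 0, 5), (3, 0, 1)]
  Td := [((0, 2), (0, 2), 5), ((0, 2), (0, 3), 7), ((0, 2), (5, 1), 1), ((0, 2), (5, 4), 8), ((0,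
    3), (0, 2), 5), ((0, 3), (0, 3), 7), ((0, 3), (5, 1), 1), ((0, 3), (5, 4), 8), ((0, 6),
    (0, 2), 5), ((0, 6), (0, 3), 7), ((0, 6), (5, 1), 1), ((0, 6), (5, 4), 8), ((1, 3), (1,
    2), 5), ((1, 3), (1, 5), 0), ((1, 3), (1, 8), 2), ((1, 3), (1, 9), 4), ((2, 0), (8, 1),
    1), ((2, 0), (8, 7), 6), ((2, 5), (8, 1), 1), ((2, 5), (8, 7), 6), ((3, 0), (6, 7), 6),
    ((3, 0), (6, 9), 4), ((3, 1), (6, 7), 6), ((3, 1), (6, 9), 4), ((5, 2), (2, 0), 0), ((5,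
    2), (2, 1), 1), ((6, 0), (7, 6), 3), ((6, 0), (7, 8), 2)]
  G := [[0, 0, 0x41ce8114ce81a41ce8114ce81a84348434a4d84384416,
    0x524192416c28152419241ec528188c, 0x149e812441ce81481e81c4a], [0,
    0x426818a2e4184ce81e2688182c, 0x14a414818814645145e4114a41149e81e149e8181ce81acc,
    0xc241c2416c281c281c241ecc24188c, 0x84ce812448ce8188ce81c4a]]

noncomputable def n2550 : Ent := ⟨e2550, noF, [], [], []⟩

def c2550 : PLift (Cov.check n2550.C.D v2550 = true) := ⟨by decide +kernel⟩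

def b2550 : PLift (entF (fidx ts) 400 2550 n2550 = true) := ⟨by decide +kernel⟩

theorem g2550 : GoodF (fidx ts) 400 2550 := GoodF.ofV v2550 n2550 c2550.down b2550.down

/-- 4678464:2048 -/
noncomputable def e2551 : SCfg where
  D := {
    a := 7
    L := 11
    kp := 9
    inn := [(0, 1), (0, 2), (0, 3), (1, 0), (1, 3), (1, 4), (2, 0), (2, 3), (2, 5), (3, 0), (3, 1), (3,
      2), (3, 4), (3, 5), (4, 1), (4, 3), (5, 2), (5, 3), (5, 6), (6, 5)]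
    mix := [(0, 0), (1, 0), (1, 1), (1, 2), (2, 0), (2, 3), (2, 4), (2, 5), (3, 6), (3, 7), (3, 8), (4,
      1), (4, 8), (5, 5), (5, 6), (5, 9), (6, 5), (6, 9), (6, 10)]
    cl := [0, 2, 5, 8, 9, 0, 3, 6, 1, 4, 7]
    chq := [(0, 1), (0, 3), (0, 6), (1, 0), (1, 5), (3, 0), (3, 7), (5, 1), (6, 0), (7, 3)]
    rng := [(0, 2), (0, 3), (1, 2), (1, 8), (2, 0), (2, 1), (3, 0), (3, 4), (4, 3), (4, 5), (5, 4), (5,
      10), (6, 7), (6, 9), (7, 6), (7, 8), (8, 1), (8, 7), (9, 6), (9, 10), (10, 5), (10, 9)]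
    lev := [] }
  links := [[1, 7, 2, 3], [7, 0, 3, 4, 8, 9], [3, 0, 7, 10, 11, 12, 5], [4, 1, 0, 2, 5, 13, 14, 15], [8,
    1, 3, 15], [13, 3, 2, 12, 6, 16], [16, 5, 12, 17]]
  P := {
    a := 7
    N := 18
    nb := [142, 921, 7337, 57399, 33034, 77900, 200736, 1543, 33298, 386, 2180, 5124, 133220, 81960,
      40968, 16664, 139360, 69696]
    tri := [(0, 1, 3), (0, 1, 7), (0, 2, 3), (0, 2, 7), (1, 3, 4), (1, 4, 8), (1, 7, 9), (1, 8, 9), (2,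
      3, 5), (2, 5, 12), (2, 7, 10), (2, 10, 11), (2, 11, 12), (3, 4, 15), (3, 5, 13), (3, 13,
      14), (3, 14, 15), (4, 8, 15), (5, 6, 12), (5, 6, 16), (5, 13, 16), (6, 12, 17), (6, 16, 17)]
    fin := [0, 1, 0, 0, 1, 5, 5, 0, 8, 9, 10, 11, 0, 13, 14, 1, 16, 5]
    chd := [(0, 1), (0, 13), (0, 14), (9, 1), (13, 5)]
    steps := [(0, 2), (0, 3), (0, 7), (0, 12), (1, 4), (1, 15), (5, 6), (5, 17)] }
  rep := [0, 1, 8, 13, 16, 9, 14, 5, 10, 11]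

noncomputable def v2551 : Cov.CovD where
  P := 3
  N := 7
  pl := [1, 3, 4, 9]
  lev := [⟨[], [], [], [], [(0, 0, [1, 3, 6])]⟩,
    ⟨[], [(0, 0), (0, 5)], [(0, 5)], [2], [(0, 0, [1, 3, 6]), (2, 5, [1])]⟩,
    ⟨[(0, 1)], [(0, 0), (1, 0)], [(0, 0)], [8, 9], [(0, 0, [1, 3, 6]), (5, 0, [1, 3, 6])]⟩,
    ⟨[(0, 1), (0, 2), (1, 2)], [(0, 0), (0, 1), (0, 3), (0, 6), (1, 0), (1, 1), (1, 3), (1,
      5), (1, 6), (2, 0), (2, 1), (2, 3), (2, 6)], [(1, 3), (1, 6), (3, 6)], [], [(6, 3, [0,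
      7]), (7, 6, [0]), (8, 1, [0, 5])]⟩,
    ⟨[(0, 1), (0, 3), (1, 3), (2, 3)], [(1, 0), (1, 1), (1, 5), (3, 1), (3, 3), (3, 6)],
      [], [2], [(8, 1, [0, 5])]⟩,
    ⟨[(0, 2), (0, 3), (1, 3), (2, 3), (3, 4)], [(2, 0), (2, 3), (3, 0), (3, 1), (3, 3), (3,
      6)], [(0, 3)], [4], [(5, 0, [1, 3, 6]), (6, 3, [0, 7])]⟩,
    ⟨[(2, 5), (3, 5)], [(2, 0), (5, 0), (5, 3), (5, 7)], [(0, 7)], [4], [(5, 0, [1, 3, 6]),
      (10, 7, [3])]⟩]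
  Ta := [((0, 2), 0, 5), ((0, 3), 0, 8), ((5, 4), 0, 9), ((5, 10), 0, 7)]
  Tb := [((0, 2, 3), 0, 5, 8), ((1, 2, 8), 2, 5, 1), ((2, 0, 1), 5, 0, 2), ((3, 0, 4), 8, 0, 9),
    ((4, 3, 5), 9, 8, 0), ((5, 4, 10), 0, 9, 7), ((6, 7, 9), 3, 6, 4), ((7, 6, 8), 6, 3, 1),
    ((8, 1, 7), 1, 2, 6), ((9, 6, 10), 4, 3, 7), ((10, 5, 9), 7, 0, 4)]
  Tc := [(0, 1, 3), (0, 1, 6), (0, 3, 6), (1, 0, 5), (3, 0, 7)]
  Td := [((0, 1), (0, 2), 5), ((0, 1), (0, 3), 8), ((0, 1), (5, 4), 9), ((0, 1), (5, 10), 7),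
    ((0, 3), (0, 2), 5), ((0, 3), (0, 3), 8), ((0, 3), (5, 4), 9), ((0, 3), (5, 10), 7), ((0,
    6), (0, 2), 5), ((0, 6), (0, 3), 8), ((0, 6), (5, 4), 9), ((0, 6), (5, 10), 7), ((1, 0),
    (8, 1), 2), ((1, 0), (8, 7), 6), ((1, 5), (8, 1), 2), ((1, 5), (8, 7), 6), ((3, 0), (6,
    7), 6), ((3, 0), (6, 9), 4), ((3, 7), (6, 7), 6), ((3, 7), (6, 9), 4), ((5, 1), (2, 0),
    0), ((5, 1), (2, 1), 2), ((6, 0), (7, 6), 3), ((6, 0), (7, 8), 1), ((7, 3), (10, 5), 0),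
    ((7, 3), (10, 9), 4)]
  G := [[0, 0x591e81619e81a31ce81135e81a6e94dc38a4dc8eb84416, 0x319e416a1e4162135e4182c,
    0x13ce414691e814c5a1e41319e41a5a1e81135e81acc, 0x3481421a5e8115a815a1e81e2c], [0,
    0x1441431ce814c31ce4169a81691e81e31ce816a1e81acc, 0xa441426ace816ca416ace41e2c,
    0x6ace416ace416ac6416ace816ace41ec6ace81868418ca, 0xac6816ace816ace81e2688182c]]

noncomputable def n2551 : Ent := ⟨e2551, noF, [], [], [(17, 8, [6903326391201334775872065844734382085129376193087066322065204562583553, 0])]⟩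

def c2551 : PLift (Cov.check n2551.C.D v2551 = true) := ⟨by decide +kernel⟩

def b2551 : PLift (entF (fidx ts) 400 2551 n2551 = true) := ⟨by decide +kernel⟩

theorem g2551 : GoodF (fidx ts) 400 2551 := GoodF.ofV v2551 n2551 c2551.down b2551.down

/-- 4584945:2068/1 -/
noncomputable def e2552 : SCfg where
  D := {
    a := 7
    L := 10
    kp := 7
    inn := [(0, 1), (0, 2), (0, 4), (1, 0), (1, 2), (2, 0), (2, 1), (2, 3), (2, 4), (3, 2), (3, 4), (4,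
      0), (4, 2), (4, 3), (4, 5), (4, 6), (5, 4), (5, 6), (6, 4), (6, 5)]
    mix := [(0, 0), (1, 0), (1, 1), (1, 2), (2, 2), (2, 3), (2, 4), (2, 5), (3, 5), (3, 6), (4, 0), (4,
      6), (4, 7), (4, 8), (5, 8), (5, 9), (6, 0), (6, 1), (6, 9)]
    cl := [0, 2, 1, 6, 7, 1, 3, 5, 0, 4]
    chq := [(2, 3), (2, 5), (3, 2), (5, 2)]
    rng := [(0, 1), (1, 0), (1, 2), (1, 9), (2, 1), (2, 3), (3, 2), (3, 4), (4, 3), (4, 5), (5, 4), (5,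
      6), (6, 5), (6, 7), (7, 6), (7, 8), (8, 7), (8, 9), (9, 1), (9, 8)]
    lev := [] }
  links := [[1, 2, 4, 7], [2, 0, 7, 8, 9], [4, 0, 1, 9, 10, 11, 12, 3], [4, 2, 12, 13], [7, 0, 2, 3, 13,
    14, 15, 5, 6], [6, 4, 15, 16], [7, 4, 5, 16, 8]]
  P := {
    a := 7
    N := 17
    nb := [150, 901, 7707, 12308, 57581, 98384, 65968, 339, 66242, 1286, 2564, 5124, 10252, 20504,
      40976, 81968, 33120]
    tri := [(0, 1, 2), (0, 1, 7), (0, 2, 4), (0, 4, 7), (1, 2, 9), (1, 7, 8), (1, 8, 9), (2, 3, 4), (2,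
      3, 12), (2, 9, 10), (2, 10, 11), (2, 11, 12), (3, 4, 13), (3, 12, 13), (4, 5, 6), (4, 5,
      15), (4, 6, 7), (4, 13, 14), (4, 14, 15), (5, 6, 16), (5, 15, 16), (6, 7, 8), (6, 8, 16)]
    fin := [0, 0, 2, 0, 0, 5, 5, 5, 0, 2, 10, 11, 2, 13, 14, 5, 16]
    chd := [(0, 13), (0, 14)]
    steps := [(0, 1), (0, 4), (0, 3), (2, 9), (2, 12), (5, 6), (5, 7), (0, 8), (5, 15)] }
  rep := [5, 2, 0, 13, 16, 14, 10, 11]

noncomputable def v2552 : Cov.CovD where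
  P := 3
  N := 5
  pl := [3, 4, 9]
  lev := [⟨[], [], [], [], [(0, 0, [])]⟩,
    ⟨[], [(0, 0), (0, 1), (0, 2)], [(0, 1), (0, 2), (1, 2)], [], [(0, 0, []), (1, 2, [3,
      5]), (2, 1, [])]⟩,
    ⟨[(0, 1)], [(0, 0), (0, 1), (1, 0), (1, 1), (1, 2)], [(1, 1)], [6, 7], [(2, 1, []), (5,
      1, [])]⟩,
    ⟨[(0, 2), (1, 2)], [(2, 1), (2, 3)], [(1, 3)], [], [(5, 1, []), (6, 3, [2])]⟩,
    ⟨[(0, 1), (0, 2), (0, 3), (1, 2), (2, 3)], [(0, 0), (0, 3), (0, 5), (1, 0), (2, 0), (2,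
      1), (2, 3), (2, 5), (3, 0), (3, 1), (3, 3), (3, 5)], [(0, 0), (0, 3), (0, 5), (3, 5)],
      [], [(0, 0, []), (6, 3, [2]), (7, 5, [2]), (8, 0, [])]⟩,
    ⟨[(0, 4), (2, 4), (3, 4)], [(4, 0), (4, 3), (4, 5)], [], [4], [(8, 0, [])]⟩,
    ⟨[(0, 4), (2, 4), (3, 4), (4, 5)], [(0, 0), (1, 0), (1, 2), (4, 0), (4, 2), (4, 3), (4,
      5), (5, 0), (5, 2)], [(0, 2)], [4], [(0, 0, []), (1, 2, [3, 5])]⟩]
  Ta := [((0, 1), 0, 2), ((2, 1), 1, 2), ((2, 3), 1, 6), ((5, 4), 1, 7), ((5, 6), 1, 3), ((8, 7),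
    0, 5), ((8, 9), 0, 4)]
  Tb := [((1, 0, 2), 2, 0, 1), ((1, 0, 9), 2, 0, 4), ((1, 2, 9), 2, 1, 4), ((2, 1, 3), 1, 2, 6),
    ((3, 2, 4), 6, 1, 7), ((4, 3, 5), 7, 6, 1), ((5, 4, 6), 1, 7, 3), ((6, 5, 7), 3, 1, 5),
    ((7, 6, 8), 5, 3, 0), ((8, 7, 9), 0, 5, 4), ((9, 1, 8), 4, 2, 0)]
  Tc := [(2, 3, 5)]
  Td := [((2, 3), (1, 0), 0), ((2, 3), (1, 2), 1), ((2, 3), (1, 9), 4), ((2, 5), (1, 0), 0), ((2,
    5), (1, 2), 1), ((2, 5), (1, 9), 4), ((3, 2), (6, 5), 1), ((3, 2), (6, 7), 5), ((5, 2),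
    (7, 6), 3), ((5, 2), (7, 8), 0)]
  G := [[0, 0xc121c1212121485e1e84, 0xa1424a1616161c1a16161c1e1dc618184c,
    0xc12c125c22c129485284a2cd48, 0x8294241a1c4123a142d82], [0,
    0xc1224485284c2c21849a84c2cac2121c22144686, 0xa1c16161283c1e142a61c1e1d425818c2, 0,
    0x41818282a416441a1ca1416941a1ca145d86], [0, 0x84c2184c2122cc284ce1e81, 0,
    0x52281a25522522984c29225d84, 0x81a423482ac942381a42d82], [0,
    0x84c214c2c84c29214c6c65281c628c5288252828ca, 0, 0,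
    0x126881c282a946d12a482a49582a482a49892]]

noncomputable def n2552 : Ent := ⟨e2552, noF, [], [], []⟩

def c2552 : PLift (Cov.check n2552.C.D v2552 = true) := ⟨by decide +kernel⟩

def b2552 : PLift (entF (fidx ts) 400 2552 n2552 = true) := ⟨by decide +kernel⟩

theorem g2552 : GoodF (fidx ts) 400 2552 := GoodF.ofV v2552 n2552 c2552.down b2552.down

/-- 4584945:2068 -/
noncomputable def e2553 : SCfg where
  D := {
    a := 7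
    L := 11
    kp := 9
    inn := [(0, 1), (0, 2), (0, 4), (1, 0), (1, 2), (2, 0), (2, 1), (2, 3), (2, 4), (3, 2), (3, 4), (4,
      0), (4, 2), (4, 3), (4, 5), (4, 6), (5, 4), (5, 6), (6, 4), (6, 5)]
    mix := [(0, 0), (1, 0), (1, 1), (1, 2), (2, 2), (2, 3), (2, 4), (2, 5), (3, 5), (3, 6), (4, 0), (4,
      6), (4, 7), (4, 8), (5, 8), (5, 9), (6, 0), (6, 9), (6, 10)]
    cl := [0, 9, 3, 6, 7, 4, 2, 0, 1, 5, 8]
    chq := [(0, 3), (0, 4), (0, 6), (0, 7), (1, 8), (3, 0), (4, 0), (6, 0), (7, 0), (8, 1)]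
    rng := [(0, 1), (0, 10), (1, 0), (1, 2), (2, 1), (2, 3), (3, 2), (3, 4), (4, 3), (4, 5), (5, 4),
      (5, 6), (6, 5), (6, 7), (7, 6), (7, 8), (8, 7), (8, 9), (9, 8), (9, 10), (10, 0), (10, 9)]
    lev := [] }
  links := [[1, 2, 4, 7], [2, 0, 7, 8, 9], [4, 0, 1, 9, 10, 11, 12, 3], [4, 2, 12, 13], [7, 0, 2, 3, 13,
    14, 15, 5, 6], [6, 4, 15, 16], [7, 4, 5, 16, 17]]
  P := {
    a := 7
    N := 18
    nb := [150, 901, 7707, 12308, 57581, 98384, 196784, 131411, 642, 1286, 2564, 5124, 10252, 20504,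
      40976, 81968, 163936, 65728]
    tri := [(0, 1, 2), (0, 1, 7), (0, 2, 4), (0, 4, 7), (1, 2, 9), (1, 7, 8), (1, 8, 9), (2, 3, 4), (2,
      3, 12), (2, 9, 10), (2, 10, 11), (2, 11, 12), (3, 4, 13), (3, 12, 13), (4, 5, 6), (4, 5,
      15), (4, 6, 7), (4, 13, 14), (4, 14, 15), (5, 6, 16), (5, 15, 16), (6, 7, 17), (6, 16, 17)]
    fin := [0, 0, 0, 0, 0, 5, 5, 0, 8, 9, 10, 11, 12, 13, 0, 5, 16, 17]
    chd := [(0, 9), (0, 10), (0, 11), (0, 12), (5, 17)]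
    steps := [(0, 1), (0, 2), (0, 3), (0, 4), (0, 7), (0, 14), (5, 6), (5, 15)] }
  rep := [0, 5, 13, 9, 12, 16, 10, 11, 17, 8]

noncomputable def v2553 : Cov.CovD where
  P := 3
  N := 7
  pl := [1, 6, 9]
  lev := [⟨[], [], [], [], [(0, 0, [3, 4, 6, 7])]⟩,
    ⟨[], [(0, 0), (0, 3)], [(0, 3)], [9], [(0, 0, [3, 4, 6, 7]), (2, 3, [0])]⟩,
    ⟨[(0, 1)], [(0, 0), (0, 3), (0, 4), (0, 6), (0, 7), (1, 0), (1, 3), (1, 4), (1, 6), (1,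
      7)], [(3, 4), (3, 6), (3, 7), (4, 6), (4, 7), (6, 7)], [], [(2, 3, [0]), (3, 6, [0]),
      (4, 7, [0]), (5, 4, [0])]⟩,
    ⟨[(0, 2), (1, 2)], [(2, 3), (2, 4), (2, 6), (2, 7)], [], [2], [(5, 4, [0])]⟩,
    ⟨[(0, 1), (0, 2), (0, 3), (1, 2), (2, 3)], [(0, 0), (0, 1), (1, 0), (2, 0), (2, 1), (2,
      3), (2, 4), (2, 6), (2, 7), (3, 0), (3, 1), (3, 4)], [(0, 0), (0, 1)], [2], [(0, 0, [3,
      4, 6, 7]), (7, 0, [3, 4, 6, 7]), (8, 1, [8])]⟩,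
    ⟨[(0, 4), (2, 4), (3, 4)], [(4, 0), (4, 1)], [], [5], [(8, 1, [8])]⟩,
    ⟨[(0, 4), (2, 4), (3, 4), (4, 5)], [(0, 0), (1, 0), (4, 0), (4, 1), (4, 8), (5, 0), (5,
      1), (5, 8)], [(0, 8)], [5], [(0, 0, [3, 4, 6, 7]), (10, 8, [1])]⟩]
  Ta := [((0, 1), 0, 9), ((0, 10), 0, 8), ((7, 6), 0, 2), ((7, 8), 0, 1)]
  Tb := [((0, 1, 10), 0, 9, 8), ((1, 0, 2), 9, 0, 3), ((2, 1, 3), 3, 9, 6), ((3, 2, 4), 6, 3, 7),
    ((4, 3, 5), 7, 6, 4), ((5, 4, 6), 4, 7, 2), ((6, 5, 7), 2, 4, 0), ((7, 6, 8), 0, 2, 1),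
    ((8, 7, 9), 1, 0, 5), ((9, 8, 10), 5, 1, 8), ((10, 0, 9), 8, 0, 5)]
  Tc := [(0, 3, 4), (0, 3, 6), (0, 3, 7), (0, 4, 6), (0, 4, 7), (0, 6, 7)]
  Td := [((0, 3), (0, 1), 9), ((0, 3), (0, 10), 8), ((0, 3), (7, 6), 2), ((0, 3), (7, 8), 1),
    ((0, 4), (0, 1), 9), ((0, 4), (0, 10), 8), ((0, 4), (7, 6), 2), ((0, 4), (7, 8), 1), ((0,
    6), (0, 1), 9), ((0, 6), (0, 10), 8), ((0, 6), (7, 6), 2), ((0, 6), (7, 8), 1), ((0, 7),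
    (0, 1), 9), ((0, 7), (0, 10), 8), ((0, 7), (7, 6), 2), ((0, 7), (7, 8), 1), ((1, 8), (8,
    7), 0), ((1, 8), (8, 9), 5), ((3, 0), (2, 1), 9), ((3, 0), (2, 3), 6), ((4, 0), (5, 4),
    7), ((4, 0), (5, 6), 2), ((6, 0), (3, 2), 3), ((6, 0), (3, 4), 7), ((7, 0), (4, 3), 6),
    ((7, 0), (4, 5), 4), ((8, 1), (10, 0), 0), ((8, 1), (10, 9), 5)]
  G := [[0, 0, 0, 0x44829c2e98c172582ec8818d164a8c6a58c1e4,
    0x72586a58848b13658c258848b17258c258848b1e4], [0, 0x11a41111c411116411e2,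
    0x12c421c4a13294325461329412c461e8, 0x329412c8c132583298c1325821c8c1e4,
    0x32583258a1325821c8a1325821c8a1e4]]

noncomputable def n2553 : Ent := ⟨e2553, noF, [], [], [(8, 17, [6903326391201334775872065844685381424292761054348340378595029940142081, 0])]⟩

def c2553 : PLift (Cov.check n2553.C.D v2553 = true) := ⟨by decide +kernel⟩

def b2553 : PLift (entF (fidx ts) 400 2553 n2553 = true) := ⟨by decide +kernel⟩

theorem g2553 : GoodF (fidx ts) 400 2553 := GoodF.ofV v2553 n2553 c2553.down b2553.down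

/-- 4857446:2085 -/
noncomputable def e2554 : SCfg where
  D := {
    a := 7
    L := 11
    kp := 9
    inn := [(0, 1), (0, 3), (1, 0), (1, 2), (1, 3), (1, 6), (2, 1), (2, 4), (3, 0), (3, 1), (3, 5), (3,
      6), (4, 2), (5, 3), (5, 6), (6, 1), (6, 3), (6, 5)]
    mix := [(0, 0), (0, 1), (1, 1), (1, 2), (1, 3), (1, 4), (2, 2), (2, 3), (2, 5), (3, 0), (3, 6), (3,
      7), (4, 2), (4, 5), (4, 8), (5, 6), (5, 9), (6, 4), (6, 9), (6, 10)]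
    cl := [1, 5, 0, 0, 2, 6, 3, 8, 9, 4, 7]
    chq := [(0, 1), (1, 0), (1, 2), (1, 3), (1, 4), (1, 7), (2, 1), (3, 1), (4, 1), (7, 1)]
    rng := [(0, 1), (0, 7), (1, 0), (1, 2), (2, 1), (2, 8), (3, 4), (3, 5), (4, 3), (4, 10), (5, 3),
      (5, 8), (6, 7), (6, 9), (7, 0), (7, 6), (8, 2), (8, 5), (9, 6), (9, 10), (10, 4), (10, 9)]
    lev := [] }
  links := [[1, 3, 7, 8], [3, 0, 8, 9, 2, 10, 11, 6], [10, 1, 9, 4, 12], [7, 0, 1, 6, 5, 13, 14], [12, 2,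
    9, 15], [13, 3, 6, 16], [16, 5, 3, 1, 11, 17]]
  P := {
    a := 7
    N := 18
    nb := [394, 3917, 5650, 24803, 37380, 73800, 198698, 16649, 643, 33046, 6150, 132162, 33812,
      81960, 8328, 4624, 139360, 67648]
    tri := [(0, 1, 3), (0, 1, 8), (0, 3, 7), (0, 7, 8), (1, 2, 9), (1, 2, 10), (1, 3, 6), (1, 6, 11),
      (1, 8, 9), (1, 10, 11), (2, 4, 9), (2, 4, 12), (2, 10, 12), (3, 5, 6), (3, 5, 13), (3, 7,
      14), (3, 13, 14), (4, 9, 15), (4, 12, 15), (5, 6, 16), (5, 13, 16), (6, 11, 17), (6, 16,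
      17)]
    fin := [0, 0, 2, 0, 2, 0, 0, 0, 8, 2, 2, 11, 12, 13, 14, 15, 16, 17]
    chd := [(0, 2), (0, 11), (0, 13), (0, 16), (0, 17)]
    steps := [(0, 1), (0, 3), (0, 5), (0, 6), (0, 7), (2, 4), (2, 9), (2, 10)] }
  rep := [2, 0, 11, 13, 16, 8, 12, 17, 14, 15]

noncomputable def v2554 : Cov.CovD where
  P := 3
  N := 7
  pl := [1, 5, 7, 8]
  lev := [⟨[], [], [], [5], [(0, 1, [0, 2, 3, 4, 7])]⟩,
    ⟨[], [(0, 0), (0, 1), (0, 2)], [(0, 0), (0, 2)], [5], [(2, 0, [1]), (3, 0, [1]), (4, 2,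
      [1])]⟩,
    ⟨[(0, 1)], [(1, 0), (1, 2)], [(0, 0)], [6], [(2, 0, [1]), (3, 0, [1])]⟩,
    ⟨[(0, 1), (1, 2)], [(0, 1), (0, 3), (1, 0), (1, 1), (1, 2), (1, 3)], [(1, 3)], [8],
      [(0, 1, [0, 2, 3, 4, 7]), (6, 3, [1])]⟩,
    ⟨[(1, 2)], [(1, 0), (2, 0)], [], [6, 9], [(2, 0, [1])]⟩,
    ⟨[(0, 3), (1, 3)], [(3, 1), (3, 3), (3, 4)], [(3, 4)], [], [(6, 3, [1]), (9, 4, [1])]⟩,
    ⟨[(0, 1), (0, 3), (1, 2), (1, 3), (1, 5), (3, 5)], [(1, 0), (1, 2), (1, 4), (1, 7), (3,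
      1), (3, 2), (3, 3), (3, 4), (3, 7), (5, 2), (5, 3), (5, 4), (5, 7)], [(2, 4), (2, 7),
      (4, 7)], [], [(4, 2, [1]), (9, 4, [1]), (10, 7, [1])]⟩]
  Ta := [((2, 1), 0, 5), ((2, 8), 0, 9), ((3, 4), 0, 2), ((3, 5), 0, 6)]
  Tb := [((0, 1, 7), 1, 5, 8), ((1, 0, 2), 5, 1, 0), ((2, 1, 8), 0, 5, 9), ((3, 4, 5), 0, 2, 6),
    ((4, 3, 10), 2, 0, 7), ((5, 3, 8), 6, 0, 9), ((6, 7, 9), 3, 8, 4), ((7, 0, 6), 8, 1, 3),
    ((8, 2, 5), 9, 0, 6), ((9, 6, 10), 4, 3, 7), ((10, 4, 9), 7, 2, 4)]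
  Tc := [(1, 0, 2), (1, 0, 3), (1, 0, 4), (1, 0, 7), (1, 2, 3), (1, 2, 4), (1, 2, 7), (1, 3, 4),
    (1, 3, 7), (1, 4, 7)]
  Td := [((0, 1), (2, 1), 5), ((0, 1), (2, 8), 9), ((0, 1), (3, 4), 2), ((0, 1), (3, 5), 6), ((1,
    0), (0, 1), 5), ((1, 0), (0, 7), 8), ((1, 2), (0, 1), 5), ((1, 2), (0, 7), 8), ((1, 3),
    (0, 1), 5), ((1, 3), (0, 7), 8), ((1, 4), (0, 1), 5), ((1, 4), (0, 7), 8), ((1, 7), (0,
    1), 5), ((1, 7), (0, 7), 8), ((2, 1), (4, 3), 0), ((2, 1), (4, 10), 7), ((3, 1), (6, 7),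
    8), ((3, 1), (6, 9), 4), ((4, 1), (9, 6), 3), ((4, 1), (9, 10), 7), ((7, 1), (10, 4), 2),
    ((7, 1), (10, 9), 4)]
  G := [[0, 0x11111161118111111111ee1114111111a111111111eec1, 0,
    0x24296c21c23c552224d2a21d2ad625a25ac928c23c23cd25ad26922222dc236dacd282ad242ac28dd2826d2426cc23,
    0x22236c32223ec522236a223222da5682222c82232a8629682a9282927292bad928262292f2292f69ca2292f2292faa16296a28a24ad2292f2292f62962966cc2d],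
    [0, 0x111111111e111111111e6111111111e111111111eac1,
    0x221e21562122196621e2192212215a823122c2f1c22c2f1c231cc211ee1,
    0x1112111162c11121111a26d2d2ad2d2ac2c29dd21d21c2c25dce1,
    0x222191282821311212321e19211e22222c2222c1111c221f221221a22d62292f1296128a249d2292f2292f6296296628624287dcad]]

noncomputable def n2554 : Ent := ⟨e2554, noF, [], [], []⟩

def c2554 : PLift (Cov.check n2554.C.D v2554 = true) := ⟨by decide +kernel⟩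

def b2554 : PLift (entF (fidx ts) 400 2554 n2554 = true) := ⟨by decide +kernel⟩

theorem g2554 : GoodF (fidx ts) 400 2554 := GoodF.ofV v2554 n2554 c2554.down b2554.down

/-- 4857464:2089/1 -/
noncomputable def e2555 : SCfg where
  D := {
    a := 7
    L := 10
    kp := 8
    inn := [(0, 1), (0, 3), (1, 0), (1, 2), (1, 3), (1, 5), (2, 1), (2, 6), (3, 0), (3, 1), (3, 4), (3,
      5), (4, 3), (4, 5), (5, 1), (5, 3), (5, 4), (6, 2)]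
    mix := [(0, 0), (0, 1), (1, 1), (1, 2), (1, 3), (1, 4), (2, 2), (2, 3), (2, 5), (3, 0), (3, 6), (3,
      7), (4, 6), (4, 8), (5, 4), (5, 8), (5, 9), (6, 3), (6, 5), (6, 9)]
    cl := [1, 6, 0, 0, 2, 7, 3, 8, 4, 5]
    chq := [(0, 1), (1, 0), (1, 2), (1, 3), (1, 4), (1, 5), (2, 1), (3, 1), (4, 1), (5, 1)]
    rng := [(0, 1), (0, 7), (1, 0), (1, 2), (2, 1), (2, 5), (3, 4), (3, 9), (4, 3), (4, 9), (5, 2), (5,
      9), (6, 7), (6, 8), (7, 0), (7, 6), (8, 6), (8, 9), (9, 3), (9, 4), (9, 5), (9, 8)]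
    lev := [] }
  links := [[1, 3, 7, 8], [3, 0, 8, 9, 2, 10, 11, 5], [10, 1, 9, 12, 6], [7, 0, 1, 5, 4, 13, 14], [13, 3,
    5, 15], [15, 4, 3, 1, 11, 16], [10, 2, 12, 16]]
  P := {
    a := 7
    N := 17
    nb := [394, 3885, 5698, 24755, 41000, 100378, 70660, 16649, 643, 4358, 67654, 66594, 66116, 49176,
      8328, 73776, 40032]
    tri := [(0, 1, 3), (0, 1, 8), (0, 3, 7), (0, 7, 8), (1, 2, 9), (1, 2, 10), (1, 3, 5), (1, 5, 11),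
      (1, 8, 9), (1, 10, 11), (2, 6, 10), (2, 6, 12), (2, 9, 12), (3, 4, 5), (3, 4, 13), (3, 7,
      14), (3, 13, 14), (4, 5, 15), (4, 13, 15), (5, 11, 16), (5, 15, 16), (6, 10, 16), (6, 12,
      16)]
    fin := [0, 0, 2, 0, 0, 0, 2, 0, 8, 2, 2, 11, 12, 13, 14, 15, 16]
    chd := [(0, 2), (0, 11), (0, 13), (0, 15), (0, 16)]
    steps := [(0, 1), (0, 3), (0, 4), (0, 5), (0, 7), (2, 6), (2, 9), (2, 10)] }
  rep := [2, 0, 11, 13, 15, 16, 8, 12, 14]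

noncomputable def v2555 : Cov.CovD where
  P := 3
  N := 6
  pl := [1, 5, 7]
  lev := [⟨[], [], [], [6], [(0, 1, [0, 2, 3, 4, 5])]⟩,
    ⟨[], [(0, 0), (0, 1), (0, 2)], [(0, 0), (0, 2)], [6], [(2, 0, [1]), (3, 0, [1]), (4, 2,
      [1])]⟩,
    ⟨[(0, 1)], [(1, 0), (1, 2)], [(0, 0)], [7], [(2, 0, [1]), (3, 0, [1])]⟩,
    ⟨[(0, 1), (1, 2)], [(0, 1), (0, 3), (1, 0), (1, 1), (1, 2), (1, 3)], [(1, 3)], [8],
      [(0, 1, [0, 2, 3, 4, 5]), (6, 3, [1])]⟩,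
    ⟨[(0, 3), (1, 3)], [(3, 1), (3, 3), (3, 4)], [(3, 4)], [], [(6, 3, [1]), (8, 4, [1])]⟩,
    ⟨[(0, 1), (0, 3), (1, 2), (1, 3), (1, 4), (3, 4)], [(1, 0), (1, 2), (1, 4), (1, 5), (3,
      1), (3, 2), (3, 3), (3, 4), (3, 5), (4, 2), (4, 3), (4, 4), (4, 5)], [(2, 4), (2, 5),
      (4, 5)], [], [(4, 2, [1]), (8, 4, [1]), (9, 5, [1])]⟩,
    ⟨[(1, 2)], [(1, 0), (2, 0), (2, 5), (5, 5)], [(0, 5)], [7], [(3, 0, [1]), (9, 5, [1])]⟩]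
  Ta := [((2, 1), 0, 6), ((2, 5), 0, 7), ((3, 4), 0, 2), ((3, 9), 0, 5)]
  Tb := [((0, 1, 7), 1, 6, 8), ((1, 0, 2), 6, 1, 0), ((2, 1, 5), 0, 6, 7), ((3, 4, 9), 0, 2, 5),
    ((4, 3, 9), 2, 0, 5), ((5, 2, 9), 7, 0, 5), ((6, 7, 8), 3, 8, 4), ((7, 0, 6), 8, 1, 3),
    ((8, 6, 9), 4, 3, 5), ((9, 3, 4), 5, 0, 2), ((9, 3, 5), 5, 0, 7), ((9, 3, 8), 5, 0, 4),
    ((9, 4, 5), 5, 2, 7), ((9, 4, 8), 5, 2, 4), ((9, 5, 8), 5, 7, 4)]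
  Tc := [(1, 0, 2), (1, 0, 3), (1, 0, 4), (1, 0, 5), (1, 2, 3), (1, 2, 4), (1, 2, 5), (1, 3, 4),
    (1, 3, 5), (1, 4, 5)]
  Td := [((0, 1), (2, 1), 6), ((0, 1), (2, 5), 7), ((0, 1), (3, 4), 2), ((0, 1), (3, 9), 5), ((1,
    0), (0, 1), 6), ((1, 0), (0, 7), 8), ((1, 2), (0, 1), 6), ((1, 2), (0, 7), 8), ((1, 3),
    (0, 1), 6), ((1, 3), (0, 7), 8), ((1, 4), (0, 1), 6), ((1, 4), (0, 7), 8), ((1, 5), (0,
    1), 6), ((1, 5), (0, 7), 8), ((2, 1), (4, 3), 0), ((2, 1), (4, 9), 5), ((3, 1), (6, 7),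
    8), ((3, 1), (6, 8), 4), ((4, 1), (8, 6), 3), ((4, 1), (8, 9), 5), ((5, 1), (9, 3), 0),
    ((5, 1), (9, 4), 2), ((5, 1), (9, 5), 7), ((5, 1), (9, 8), 4)]
  G := [[0, 0x111111111e111111111e611111161118111111111eec1, 0,
    0x12116121212d5224242196681212c111a22921921d2222c3a4841d2863d285c2d112d2242cc2d,
    0x12213621325211212239a94a122122122d222861281121222839ed11921129aa12839a82a4c4218a24a3162212cd1821e2d],
    [0, 0x111111111e111111111e6111111c111111a1111116ec1,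
    0xe21122222256822282c22c22c22d22223222222da8282ca27628222ce82c2d4224caa4c62324c2dce9,
    0xc11221126c1122112a22ed282ed282c2da42d2242d224c2dce1,
    0xc432122222a235682221827142614271c2c22c22c22286228282982fe282962288ad424226922f2224964228adcad]]

noncomputable def n2555 : Ent := ⟨e2555, noF, [], [], []⟩

def c2555 : PLift (Cov.check n2555.C.D v2555 = true) := ⟨by decide +kernel⟩

def b2555 : PLift (entF (fidx ts) 400 2555 n2555 = true) := ⟨by decide +kernel⟩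

theorem g2555 : GoodF (fidx ts) 400 2555 := GoodF.ofV v2555 n2555 c2555.down b2555.down

/-- 4857464:2089 -/
noncomputable def e2556 : SCfg where
  D := {
    a := 7
    L := 11
    kp := 9
    inn := [(0, 1), (0, 3), (1, 0), (1, 2), (1, 3), (1, 5), (2, 1), (2, 6), (3, 0), (3, 1), (3, 4), (3,
      5), (4, 3), (4, 5), (5, 1), (5, 3), (5, 4), (6, 2)]
    mix := [(0, 0), (0, 1), (1, 1), (1, 2), (1, 3), (1, 4), (2, 2), (2, 3), (2, 5), (3, 0), (3, 6), (3,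
      7), (4, 6), (4, 8), (5, 4), (5, 8), (5, 9), (6, 3), (6, 5), (6, 10)]
    cl := [1, 5, 0, 0, 2, 6, 3, 8, 4, 7, 9]
    chq := [(0, 1), (1, 0), (1, 2), (1, 3), (1, 4), (1, 7), (2, 1), (3, 1), (4, 1), (7, 1)]
    rng := [(0, 1), (0, 7), (1, 0), (1, 2), (2, 1), (2, 5), (3, 4), (3, 10), (4, 3), (4, 9), (5, 2),
      (5, 10), (6, 7), (6, 8), (7, 0), (7, 6), (8, 6), (8, 9), (9, 4), (9, 8), (10, 3), (10, 5)]
    lev := [] }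
  links := [[1, 3, 7, 8], [3, 0, 8, 9, 2, 10, 11, 5], [10, 1, 9, 12, 6], [7, 0, 1, 5, 4, 13, 14], [13, 3,
    5, 15], [15, 4, 3, 1, 11, 16], [10, 2, 12, 17]]
  P := {
    a := 7
    N := 18
    nb := [394, 3885, 5698, 24755, 41000, 100378, 136196, 16649, 643, 4358, 133190, 66594, 131652,
      49176, 8328, 73776, 34848, 5184]
    tri := [(0, 1, 3), (0, 1, 8), (0, 3, 7), (0, 7, 8), (1, 2, 9), (1, 2, 10), (1, 3, 5), (1, 5, 11),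
      (1, 8, 9), (1, 10, 11), (2, 6, 10), (2, 6, 12), (2, 9, 12), (3, 4, 5), (3, 4, 13), (3, 7,
      14), (3, 13, 14), (4, 5, 15), (4, 13, 15), (5, 11, 16), (5, 15, 16), (6, 10, 17), (6, 12,
      17)]
    fin := [0, 0, 2, 0, 0, 0, 2, 0, 8, 2, 2, 11, 12, 13, 14, 15, 16, 17]
    chd := [(0, 2), (0, 11), (0, 13), (0, 15), (0, 16)]
    steps := [(0, 1), (0, 3), (0, 4), (0, 5), (0, 7), (2, 6), (2, 9), (2, 10)] }
  rep := [2, 0, 11, 13, 15, 8, 12, 16, 14, 17]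

noncomputable def v2556 : Cov.CovD where
  P := 3
  N := 7
  pl := [1, 5, 7, 10]
  lev := [⟨[], [], [], [5], [(0, 1, [0, 2, 3, 4, 7])]⟩,
    ⟨[], [(0, 0), (0, 1), (0, 2)], [(0, 0), (0, 2)], [5], [(2, 0, [1]), (3, 0, [1]), (4, 2,
      [1])]⟩,
    ⟨[(0, 1)], [(1, 0), (1, 2)], [(0, 0)], [6], [(2, 0, [1]), (3, 0, [1])]⟩,
    ⟨[(0, 1), (1, 2)], [(0, 1), (0, 3), (1, 0), (1, 1), (1, 2), (1, 3)], [(1, 3)], [8],
      [(0, 1, [0, 2, 3, 4, 7]), (6, 3, [1])]⟩,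
    ⟨[(0, 3), (1, 3)], [(3, 1), (3, 3), (3, 4)], [(3, 4)], [], [(6, 3, [1]), (8, 4, [1])]⟩,
    ⟨[(0, 1), (0, 3), (1, 2), (1, 3), (1, 4), (3, 4)], [(1, 0), (1, 2), (1, 4), (1, 7), (3,
      1), (3, 2), (3, 3), (3, 4), (3, 7), (4, 2), (4, 3), (4, 4), (4, 7)], [(2, 4), (2, 7),
      (4, 7)], [], [(4, 2, [1]), (8, 4, [1]), (9, 7, [1])]⟩,
    ⟨[(1, 2)], [(1, 0), (2, 0)], [], [6, 9], [(3, 0, [1])]⟩]
  Ta := [((2, 1), 0, 5), ((2, 5), 0, 6), ((3, 4), 0, 2), ((3, 10), 0, 9)]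
  Tb := [((0, 1, 7), 1, 5, 8), ((1, 0, 2), 5, 1, 0), ((2, 1, 5), 0, 5, 6), ((3, 4, 10), 0, 2, 9),
    ((4, 3, 9), 2, 0, 7), ((5, 2, 10), 6, 0, 9), ((6, 7, 8), 3, 8, 4), ((7, 0, 6), 8, 1, 3),
    ((8, 6, 9), 4, 3, 7), ((9, 4, 8), 7, 2, 4), ((10, 3, 5), 9, 0, 6)]
  Tc := [(1, 0, 2), (1, 0, 3), (1, 0, 4), (1, 0, 7), (1, 2, 3), (1, 2, 4), (1, 2, 7), (1, 3, 4),
    (1, 3, 7), (1, 4, 7)]
  Td := [((0, 1), (2, 1), 5), ((0, 1), (2, 5), 6), ((0, 1), (3, 4), 2), ((0, 1), (3, 10), 9),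
    ((1, 0), (0, 1), 5), ((1, 0), (0, 7), 8), ((1, 2), (0, 1), 5), ((1, 2), (0, 7), 8), ((1,
    3), (0, 1), 5), ((1, 3), (0, 7), 8), ((1, 4), (0, 1), 5), ((1, 4), (0, 7), 8), ((1, 7),
    (0, 1), 5), ((1, 7), (0, 7), 8), ((2, 1), (4, 3), 0), ((2, 1), (4, 9), 7), ((3, 1), (6,
    7), 8), ((3, 1), (6, 8), 4), ((4, 1), (8, 6), 3), ((4, 1), (8, 9), 7), ((7, 1), (9, 4),
    2), ((7, 1), (9, 8), 4)]
  G := [[0, 0x111111111e111111111e6111111111e111111111eac1, 0,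
    0x1198284121253215115212119611c523d6121212d121212d9a2116c17bd2aadd27ec2d682111d2cc27,
    0x12c136d2c2c2d512212123568113284d2a21812fa291a2b91211119211921592deaa2228292a27d9612c8651212959d2f1241262cd59928ead],
    [0, 0x111111111e111111111e6111111111e111111111eac1,
    0xc221e2224a23568e2282c22c22c22d22a236222662daaac2aace23a8c2dc2c266cc2fe2e266ce64c2dce9,
    0xc112a1126c1126112aaaad2aaad2aac2d666d2666d266c2dce1,
    0xa1a231626162b1c2c22c22c11c22fa22a22a11a22f6a2a2aa9a2fa2aa96a2a2a8ed626266962f62669662686dca5]]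

noncomputable def n2556 : Ent := ⟨e2556, noF, [], [], [(17, 16, [7334685537875745012586738086077695515070955365108989538292687704141825, 0])]⟩

def c2556 : PLift (Cov.check n2556.C.D v2556 = true) := ⟨by decide +kernel⟩

def b2556 : PLift (entF (fidx ts) 400 2556 n2556 = true) := ⟨by decide +kernel⟩

theorem g2556 : GoodF (fidx ts) 400 2556 := GoodF.ofV v2556 n2556 c2556.down b2556.down

/-- 4586464:2095/2 -/
noncomputable def e2557 : SCfg where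
  D := {
    a := 7
    L := 9
    kp := 6
    inn := [(0, 1), (0, 2), (1, 0), (1, 2), (2, 0), (2, 1), (2, 3), (3, 2), (3, 4), (3, 5), (4, 3), (4,
      5), (5, 3), (5, 4), (5, 6), (6, 5)]
    mix := [(0, 0), (0, 1), (1, 1), (1, 2), (1, 3), (2, 0), (2, 3), (2, 4), (2, 5), (2, 6), (3, 0), (3,
      6), (3, 7), (4, 7), (4, 8), (5, 0), (5, 1), (5, 8), (6, 1), (6, 2), (6, 8)]
    cl := [0, 1, 2, 0, 5, 6, 0, 4, 3]
    chq := [(1, 3), (1, 4), (3, 1), (4, 1)]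
    rng := [(0, 1), (1, 0), (1, 2), (2, 1), (2, 3), (2, 8), (3, 2), (3, 4), (4, 3), (4, 5), (5, 4), (5,
      6), (6, 5), (6, 7), (7, 6), (7, 8), (8, 2), (8, 7)]
    lev := [] }
  links := [[1, 2, 7, 8], [2, 0, 8, 9, 10], [7, 0, 1, 10, 11, 12, 13, 3], [7, 2, 13, 14, 4, 5], [5, 3,
    14, 15], [7, 3, 4, 15, 6, 8], [8, 5, 15, 9]]
  P := {
    a := 7
    N := 16
    nb := [390, 1797, 15499, 24756, 49192, 33240, 33568, 301, 739, 34114, 2566, 5124, 10244, 20492,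
      40984, 17008]
    tri := [(0, 1, 2), (0, 1, 8), (0, 2, 7), (0, 7, 8), (1, 2, 10), (1, 8, 9), (1, 9, 10), (2, 3, 7),
      (2, 3, 13), (2, 10, 11), (2, 11, 12), (2, 12, 13), (3, 4, 5), (3, 4, 14), (3, 5, 7), (3, 13,
      14), (4, 5, 15), (4, 14, 15), (5, 6, 8), (5, 6, 15), (5, 7, 8), (6, 8, 9), (6, 9, 15)]
    fin := [0, 0, 0, 0, 4, 4, 4, 0, 4, 9, 0, 11, 12, 0, 14, 15]
    chd := [(4, 14), (4, 15)]
    steps := [(0, 1), (0, 2), (0, 3), (0, 7), (0, 10), (0, 13), (4, 5), (4, 6), (4, 8)] }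
  rep := [0, 4, 9, 15, 14, 11, 12]

noncomputable def v2557 : Cov.CovD where
  P := 3
  N := 4
  pl := [2, 4, 5]
  lev := [⟨[], [], [(0, 1)], [], [(0, 0, []), (1, 1, [3, 4])]⟩,
    ⟨[], [(0, 0), (0, 1)], [(0, 1)], [2], [(1, 1, [3, 4]), (3, 0, [])]⟩,
    ⟨[(0, 1)], [(0, 0), (0, 1), (1, 0), (1, 1)], [(0, 0)], [5, 6], [(0, 0, []), (3, 0, []),
      (6, 0, [])]⟩,
    ⟨[(0, 2), (1, 2)], [(0, 0), (2, 0), (2, 4)], [(0, 0), (0, 4)], [], [(0, 0, []), (6, 0,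
      []), (7, 4, [1])]⟩,
    ⟨[(2, 3)], [(3, 0), (3, 3), (3, 4)], [(3, 4)], [], [(7, 4, [1]), (8, 3, [1])]⟩,
    ⟨[(2, 3), (3, 4)], [(0, 0), (0, 1), (1, 1), (2, 0), (3, 0), (3, 1), (3, 3), (3, 4), (4,
      0), (4, 1), (4, 3), (4, 4)], [(0, 1), (0, 3), (1, 3)], [], [(0, 0, []), (1, 1, [3, 4]),
      (8, 3, [1])]⟩,
    ⟨[(3, 5), (4, 5)], [(0, 1), (1, 1), (4, 3), (5, 0), (5, 1), (5, 3)], [(1, 3)], [2],
      [(1, 1, [3, 4]), (8, 3, [1])]⟩]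
  Ta := [((0, 1), 0, 1), ((3, 2), 0, 2), ((3, 4), 0, 5), ((6, 5), 0, 6), ((6, 7), 0, 4)]
  Tb := [((1, 0, 2), 1, 0, 2), ((2, 1, 3), 2, 1, 0), ((2, 1, 8), 2, 1, 3), ((2, 3, 8), 2, 0, 3),
    ((3, 2, 4), 0, 2, 5), ((4, 3, 5), 5, 0, 6), ((5, 4, 6), 6, 5, 0), ((6, 5, 7), 0, 6, 4),
    ((7, 6, 8), 4, 0, 3), ((8, 2, 7), 3, 2, 4)]
  Tc := [(1, 3, 4)]
  Td := [((1, 3), (1, 0), 0), ((1, 3), (1, 2), 2), ((1, 4), (1, 0), 0), ((1, 4), (1, 2), 2), ((3,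
    1), (8, 2), 2), ((3, 1), (8, 7), 4), ((4, 1), (7, 6), 0), ((4, 1), (7, 8), 3)]
  G := [[0, 0xc2184c16c2184c1a84a184c16e84, 0, 0x84c2214c2244294885ae18,
    0x288814b2288814b294281c2ce84], [0, 0, 0x84c1284c1221284c1ae84, 0x81c2284c2214c281c2ce84,
    0x288814b288284143694281c2ce81], [0, 0, 0, 0x4852281c2214c281c2ce14,
    0x948811c72189481ce294281c2ce81]]

noncomputable def n2557 : Ent := ⟨e2557, noF, [], [], []⟩

def c2557 : PLift (Cov.check n2557.C.D v2557 = true) := ⟨by decide +kernel⟩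

def b2557 : PLift (entF (fidx ts) 400 2557 n2557 = true) := ⟨by decide +kernel⟩

theorem g2557 : GoodF (fidx ts) 400 2557 := GoodF.ofV v2557 n2557 c2557.down b2557.down

/-- 4586464:2095/1 -/
noncomputable def e2558 : SCfg where
  D := {
    a := 7
    L := 10
    kp := 7
    inn := [(0, 1), (0, 2), (1, 0), (1, 2), (2, 0), (2, 1), (2, 3), (3, 2), (3, 4), (3, 5), (4, 3), (4,
      5), (5, 3), (5, 4), (5, 6), (6, 5)]
    mix := [(0, 0), (0, 1), (1, 1), (1, 2), (1, 3), (2, 0), (2, 3), (2, 4), (2, 5), (2, 6), (3, 0), (3,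
      6), (3, 7), (4, 7), (4, 8), (5, 0), (5, 1), (5, 8), (6, 1), (6, 8), (6, 9)]
    cl := [0, 1, 4, 0, 5, 6, 0, 2, 3, 7]
    chq := [(1, 2), (1, 3), (2, 1), (3, 1)]
    rng := [(0, 1), (1, 0), (1, 2), (1, 9), (2, 1), (2, 3), (3, 2), (3, 4), (4, 3), (4, 5), (5, 4), (5,
      6), (6, 5), (6, 7), (7, 6), (7, 8), (8, 7), (8, 9), (9, 1), (9, 8)]
    lev := [] }
  links := [[1, 2, 7, 8], [2, 0, 8, 9, 10], [7, 0, 1, 10, 11, 12, 13, 3], [7, 2, 13, 14, 4, 5], [5, 3,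
    14, 15], [7, 3, 4, 15, 6, 8], [8, 5, 15, 16]]
  P := {
    a := 7
    N := 17
    nb := [390, 1797, 15499, 24756, 49192, 33240, 98592, 301, 66275, 1282, 2566, 5124, 10244, 20492,
      40984, 82032, 33088]
    tri := [(0, 1, 2), (0, 1, 8), (0, 2, 7), (0, 7, 8), (1, 2, 10), (1, 8, 9), (1, 9, 10), (2, 3, 7),
      (2, 3, 13), (2, 10, 11), (2, 11, 12), (2, 12, 13), (3, 4, 5), (3, 4, 14), (3, 5, 7), (3, 13,
      14), (4, 5, 15), (4, 14, 15), (5, 6, 8), (5, 6, 15), (5, 7, 8), (6, 8, 16), (6, 15, 16)]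
    fin := [0, 0, 0, 0, 4, 4, 4, 0, 4, 9, 0, 11, 12, 0, 14, 15, 16]
    chd := [(4, 14), (4, 15)]
    steps := [(0, 1), (0, 2), (0, 3), (0, 7), (0, 10), (0, 13), (4, 5), (4, 6), (4, 8)] }
  rep := [0, 4, 14, 15, 9, 11, 12, 16]

noncomputable def v2558 : Cov.CovD where
  P := 3
  N := 5
  pl := [2, 4, 5, 9]
  lev := [⟨[], [], [(0, 1)], [], [(0, 0, []), (1, 1, [2, 3])]⟩,
    ⟨[], [(0, 0), (0, 1)], [(0, 1)], [4], [(1, 1, [2, 3]), (3, 0, [])]⟩,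
    ⟨[(0, 1)], [(0, 0), (0, 1), (1, 0), (1, 1)], [(0, 0)], [5, 6], [(0, 0, []), (3, 0, []),
      (6, 0, [])]⟩,
    ⟨[(0, 2), (1, 2)], [(0, 0), (2, 0), (2, 2)], [(0, 0), (0, 2)], [], [(0, 0, []), (6, 0,
      []), (7, 2, [1])]⟩,
    ⟨[(2, 3)], [(3, 0), (3, 2), (3, 3)], [(2, 3)], [], [(7, 2, [1]), (8, 3, [1])]⟩,
    ⟨[(2, 3), (3, 4)], [(0, 0), (0, 1), (1, 1), (2, 0), (3, 0), (3, 1), (3, 2), (3, 3), (4,
      0), (4, 1), (4, 2), (4, 3)], [(0, 1), (0, 3), (1, 3)], [], [(0, 0, []), (1, 1, [2, 3]),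
      (8, 3, [1])]⟩,
    ⟨[(3, 5), (4, 5)], [(0, 1), (1, 1), (4, 3), (5, 0), (5, 1), (5, 3)], [(1, 3)], [7],
      [(1, 1, [2, 3]), (8, 3, [1])]⟩]
  Ta := [((0, 1), 0, 1), ((3, 2), 0, 4), ((3, 4), 0, 5), ((6, 5), 0, 6), ((6, 7), 0, 2)]
  Tb := [((1, 0, 2), 1, 0, 4), ((1, 0, 9), 1, 0, 7), ((1, 2, 9), 1, 4, 7), ((2, 1, 3), 4, 1, 0),
    ((3, 2, 4), 0, 4, 5), ((4, 3, 5), 5, 0, 6), ((5, 4, 6), 6, 5, 0), ((6, 5, 7), 0, 6, 2),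
    ((7, 6, 8), 2, 0, 3), ((8, 7, 9), 3, 2, 7), ((9, 1, 8), 7, 1, 3)]
  Tc := [(1, 2, 3)]
  Td := [((1, 2), (1, 0), 0), ((1, 2), (1, 2), 4), ((1, 2), (1, 9), 7), ((1, 3), (1, 0), 0), ((1,
    3), (1, 2), 4), ((1, 3), (1, 9), 7), ((2, 1), (7, 6), 0), ((2, 1), (7, 8), 3), ((3, 1),
    (8, 7), 2), ((3, 1), (8, 9), 7)]
  G := [[0, 0xc6a14ca6186c6a14ca618c6a14ec6a148e8, 0, 0x22c2422c2822c24e14,
    0x94c9432d42981a1dc2881ae14], [0, 0, 0, 0x2821a42124c86229282124c86d14d248e8,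
    0xd85432542982ad42981aed42981ad85432c495c92ec1], [0, 0, 0x189145c2189145c211cd24e18,
    0x229242292422928e18, 0x5885ca2541d82a1d8d28e14]]

noncomputable def n2558 : Ent := ⟨e2558, noF, [], [], [(9, 16, [1580044410770988437309982408355971841652082177953823432505699586049, 0])]⟩

def c2558 : PLift (Cov.check n2558.C.D v2558 = true) := ⟨by decide +kernel⟩

def b2558 : PLift (entF (fidx ts) 400 2558 n2558 = true) := ⟨by decide +kernel⟩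

theorem g2558 : GoodF (fidx ts) 400 2558 := GoodF.ofV v2558 n2558 c2558.down b2558.down

/-- 4586464:2095/3 -/
noncomputable def e2559 : SCfg where
  D := {
    a := 7
    L := 10
    kp := 7
    inn := [(0, 1), (0, 2), (1, 0), (1, 2), (2, 0), (2, 1), (2, 3), (3, 2), (3, 4), (3, 5), (4, 3), (4,
      5), (5, 3), (5, 4), (5, 6), (6, 5)]
    mix := [(0, 0), (0, 1), (1, 1), (1, 2), (1, 3), (2, 0), (2, 3), (2, 4), (2, 5), (2, 6), (3, 0), (3,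
      6), (3, 7), (4, 2), (4, 7), (5, 0), (5, 2), (5, 8), (6, 2), (6, 8), (6, 9)]
    cl := [0, 2, 1, 0, 5, 6, 0, 4, 3, 7]
    chq := [(1, 3), (3, 1), (3, 4), (4, 3)]
    rng := [(0, 1), (0, 8), (1, 0), (1, 2), (2, 1), (2, 3), (2, 7), (2, 9), (3, 2), (3, 4), (4, 3), (4,
      5), (5, 4), (5, 6), (6, 5), (6, 7), (7, 2), (7, 6), (8, 0), (8, 9), (9, 2), (9, 8)]
    lev := [] }
  links := [[1, 2, 7, 8], [2, 0, 8, 9, 10], [7, 0, 1, 10, 11, 12, 13, 3], [7, 2, 13, 14, 4, 5], [5, 3,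
    14, 9], [7, 3, 4, 9, 6, 15], [15, 5, 9, 16]]
  P := {
    a := 7
    N := 17
    nb := [390, 1797, 15499, 24756, 16936, 33496, 98848, 33069, 643, 83314, 2566, 5124, 10244, 20492,
      8728, 65760, 33344]
    tri := [(0, 1, 2), (0, 1, 8), (0, 2, 7), (0, 7, 8), (1, 2, 10), (1, 8, 9), (1, 9, 10), (2, 3, 7),
      (2, 3, 13), (2, 10, 11), (2, 11, 12), (2, 12, 13), (3, 4, 5), (3, 4, 14), (3, 5, 7), (3, 13,
      14), (4, 5, 9), (4, 9, 14), (5, 6, 9), (5, 6, 15), (5, 7, 15), (6, 9, 16), (6, 15, 16)]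
    fin := [0, 0, 0, 3, 4, 3, 4, 0, 8, 4, 0, 11, 12, 0, 3, 15, 16]
    chd := [(3, 15), (4, 15)]
    steps := [(0, 1), (0, 2), (0, 7), (0, 10), (0, 13), (3, 5), (4, 9), (3, 14), (4, 6)] }
  rep := [0, 4, 8, 15, 3, 11, 12, 16]

noncomputable def v2559 : Cov.CovD where
  P := 3
  N := 5
  pl := [1, 4, 5, 9]
  lev := [⟨[], [], [], [2], [(0, 0, [])]⟩,
    ⟨[], [(0, 0), (0, 1)], [(0, 1)], [2], [(2, 1, [3]), (3, 0, [])]⟩,
    ⟨[(0, 1)], [(0, 0), (1, 0), (1, 1)], [(0, 0)], [5, 6], [(0, 0, []), (3, 0, []), (6, 0,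
      [])]⟩,
    ⟨[(0, 2), (1, 2)], [(0, 0), (2, 0), (2, 4)], [(0, 0), (0, 4)], [], [(0, 0, []), (6, 0,
      []), (7, 4, [3])]⟩,
    ⟨[(2, 3)], [(1, 1), (3, 0), (3, 1), (3, 4)], [(1, 4)], [], [(2, 1, [3]), (7, 4, [3])]⟩,
    ⟨[(2, 3), (3, 4)], [(0, 0), (1, 1), (2, 0), (3, 0), (3, 1), (3, 3), (3, 4), (4, 0), (4,
      1), (4, 3), (4, 4)], [(0, 1), (0, 3), (1, 3)], [], [(0, 0, []), (2, 1, [3]), (8, 3, [1,
      4])]⟩,
    ⟨[(3, 5), (4, 5)], [(1, 1), (4, 1), (5, 0), (5, 1), (5, 3)], [(1, 3)], [7], [(2, 1,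
      [3]), (8, 3, [1, 4])]⟩]
  Ta := [((0, 1), 0, 2), ((0, 8), 0, 3), ((3, 2), 0, 1), ((3, 4), 0, 5), ((6, 5), 0, 6), ((6, 7),
    0, 4)]
  Tb := [((0, 1, 8), 0, 2, 3), ((1, 0, 2), 2, 0, 1), ((2, 1, 3), 1, 2, 0), ((2, 1, 7), 1, 2, 4),
    ((2, 1, 9), 1, 2, 7), ((2, 3, 7), 1, 0, 4), ((2, 3, 9), 1, 0, 7), ((2, 7, 9), 1, 4, 7),
    ((3, 2, 4), 0, 1, 5), ((4, 3, 5), 5, 0, 6), ((5, 4, 6), 6, 5, 0), ((6, 5, 7), 0, 6, 4),
    ((7, 2, 6), 4, 1, 0), ((8, 0, 9), 3, 0, 7), ((9, 2, 8), 7, 1, 3)]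
  Tc := [(3, 1, 4)]
  Td := [((1, 3), (2, 1), 2), ((1, 3), (2, 3), 0), ((1, 3), (2, 7), 4), ((1, 3), (2, 9), 7), ((3,
    1), (8, 0), 0), ((3, 1), (8, 9), 7), ((3, 4), (8, 0), 0), ((3, 4), (8, 9), 7), ((4, 3),
    (7, 2), 1), ((4, 3), (7, 6), 0)]
  G := [[0, 0, 0x541981881e541981c68541d81c84a, 0x95c1295c1295c12e14,
    0xd41d81c541981c41ed41d81ce12], [0, 0xe24e426e28a8c46ae48e84ce81, 0,
    0x14598928115c52541981ce48, 0x4191c554161c518c98c1ad411894ce82], [0, 0, 0,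
    0x14598c254189c25498c2e18, 0x1c9145d4861c518cd81cd489494ce18]]

noncomputable def n2559 : Ent := ⟨e2559, noF, [], [], []⟩

def c2559 : PLift (Cov.check n2559.C.D v2559 = true) := ⟨by decide +kernel⟩

def b2559 : PLift (entF (fidx ts) 400 2559 n2559 = true) := ⟨by decide +kernel⟩

theorem g2559 : GoodF (fidx ts) 400 2559 := GoodF.ofV v2559 n2559 c2559.down b2559.down

/-- 4586464:2095/4 -/
noncomputable def e2560 : SCfg where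
  D := {
    a := 7
    L := 10
    kp := 7
    inn := [(0, 1), (0, 2), (1, 0), (1, 2), (2, 0), (2, 1), (2, 3), (3, 2), (3, 4), (3, 5), (4, 3), (4,
      5), (5, 3), (5, 4), (5, 6), (6, 5)]
    mix := [(0, 0), (0, 1), (1, 1), (1, 2), (1, 3), (2, 0), (2, 3), (2, 4), (2, 5), (2, 6), (3, 0), (3,
      6), (3, 7), (4, 7), (4, 8), (5, 0), (5, 8), (5, 9), (6, 2), (6, 8), (6, 9)]
    cl := [0, 2, 5, 0, 6, 7, 0, 1, 3, 4]
    chq := [(1, 4), (3, 4), (4, 1), (4, 3)]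
    rng := [(0, 1), (0, 9), (1, 0), (1, 2), (2, 1), (2, 3), (2, 8), (2, 9), (3, 2), (3, 4), (4, 3), (4,
      5), (5, 4), (5, 6), (6, 5), (6, 7), (7, 6), (7, 8), (8, 2), (8, 7), (9, 0), (9, 2)]
    lev := [] }
  links := [[1, 2, 7, 8], [2, 0, 8, 9, 10], [7, 0, 1, 10, 11, 12, 13, 3], [7, 2, 13, 14, 4, 5], [5, 3,
    14, 15], [7, 3, 4, 15, 6, 16], [16, 5, 15, 9]]
  P := {
    a := 7
    N := 17
    nb := [390, 1797, 15499, 24756, 49192, 98520, 98848, 65837, 643, 99650, 2566, 5124, 10244, 20492,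
      40984, 17008, 736]
    tri := [(0, 1, 2), (0, 1, 8), (0, 2, 7), (0, 7, 8), (1, 2, 10), (1, 8, 9), (1, 9, 10), (2, 3, 7),
      (2, 3, 13), (2, 10, 11), (2, 11, 12), (2, 12, 13), (3, 4, 5), (3, 4, 14), (3, 5, 7), (3, 13,
      14), (4, 5, 15), (4, 14, 15), (5, 6, 15), (5, 6, 16), (5, 7, 16), (6, 9, 15), (6, 9, 16)]
    fin := [0, 0, 0, 0, 4, 4, 6, 0, 8, 9, 0, 11, 12, 0, 4, 6, 16]
    chd := [(4, 16), (6, 16)]
    steps := [(0, 1), (0, 2), (0, 3), (0, 7), (0, 10), (0, 13), (4, 5), (4, 14), (6, 15)] }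
  rep := [0, 4, 8, 6, 16, 9, 11, 12]

noncomputable def v2560 : Cov.CovD where
  P := 3
  N := 5
  pl := [1, 2, 4, 5]
  lev := [⟨[], [], [], [2], [(0, 0, [])]⟩,
    ⟨[], [(0, 0)], [], [2, 5], [(3, 0, [])]⟩,
    ⟨[(0, 1)], [(0, 0), (1, 0)], [(0, 0)], [6, 7], [(0, 0, []), (3, 0, []), (6, 0, [])]⟩,
    ⟨[(0, 2), (1, 2)], [(0, 0), (2, 0), (2, 1)], [(0, 0), (0, 1)], [], [(0, 0, []), (6, 0,
      []), (7, 1, [4])]⟩,
    ⟨[(2, 3)], [(3, 0), (3, 1), (3, 3)], [(1, 3)], [], [(7, 1, [4]), (8, 3, [4])]⟩,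
    ⟨[(2, 3), (3, 4)], [(0, 0), (2, 0), (3, 0), (3, 1), (3, 3), (3, 4), (4, 0), (4, 1), (4,
      3), (4, 4)], [(0, 3), (0, 4), (3, 4)], [], [(0, 0, []), (8, 3, [4]), (9, 4, [1, 3])]⟩,
    ⟨[(3, 5), (4, 5)], [(4, 3), (5, 0), (5, 3), (5, 4)], [(3, 4)], [5], [(8, 3, [4]), (9,
      4, [1, 3])]⟩]
  Ta := [((0, 1), 0, 2), ((0, 9), 0, 4), ((3, 2), 0, 5), ((3, 4), 0, 6), ((6, 5), 0, 7), ((6, 7),
    0, 1)]
  Tb := [((0, 1, 9), 0, 2, 4), ((1, 0, 2), 2, 0, 5), ((2, 1, 3), 5, 2, 0), ((2, 1, 8), 5, 2, 3),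
    ((2, 1, 9), 5, 2, 4), ((2, 3, 8), 5, 0, 3), ((2, 3, 9), 5, 0, 4), ((2, 8, 9), 5, 3, 4),
    ((3, 2, 4), 0, 5, 6), ((4, 3, 5), 6, 0, 7), ((5, 4, 6), 7, 6, 0), ((6, 5, 7), 0, 7, 1),
    ((7, 6, 8), 1, 0, 3), ((8, 2, 7), 3, 5, 1), ((9, 0, 2), 4, 0, 5)]
  Tc := [(4, 1, 3)]
  Td := [((1, 4), (7, 6), 0), ((1, 4), (7, 8), 3), ((3, 4), (8, 2), 5), ((3, 4), (8, 7), 1), ((4,
    1), (9, 0), 0), ((4, 1), (9, 2), 5), ((4, 3), (9, 0), 0), ((4, 3), (9, 2), 5)]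
  G := [[0, 0, 0xc21258c212586c21258832a1165432612a5832a11654ee4, 0xe2f11e54da617a981eadb658e14,
    0xd6a1b6542ace15be585ea97694e12], [0, 0, 0,
    0x12a463c442615a98344b1254e482a811e54a11a6c8a2812e54e8c,
    0x21132cfc832cb21c462c831294c21294c211654e625265181c8aa], [0,
    0x11a116c211a116c21221814c6e18, 0, 0x96a1165433ce125811ee1294e18,
    0xe2111e945a611a98e2111e58e12]]

noncomputable def n2560 : Ent := ⟨e2560, noF, [], [], [(8, 16, [1580044410770988437309982408355971841652082177953823432505699586049, 0])]⟩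

def c2560 : PLift (Cov.check n2560.C.D v2560 = true) := ⟨by decide +kernel⟩

def b2560 : PLift (entF (fidx ts) 400 2560 n2560 = true) := ⟨by decide +kernel⟩

theorem g2560 : GoodF (fidx ts) 400 2560 := GoodF.ofV v2560 n2560 c2560.down b2560.down

/-- 4586464:2095 -/
noncomputable def e2561 : SCfg where
  D := {
    a := 7
    L := 11
    kp := 8
    inn := [(0, 1), (0, 2), (1, 0), (1, 2), (2, 0), (2, 1), (2, 3), (3, 2), (3, 4), (3, 5), (4, 3), (4,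
      5), (5, 3), (5, 4), (5, 6), (6, 5)]
    mix := [(0, 0), (0, 1), (1, 1), (1, 2), (1, 3), (2, 0), (2, 3), (2, 4), (2, 5), (2, 6), (3, 0), (3,
      6), (3, 7), (4, 7), (4, 8), (5, 0), (5, 8), (5, 9), (6, 8), (6, 9), (6, 10)]
    cl := [0, 2, 5, 0, 6, 7, 0, 4, 3, 1, 8]
    chq := [(1, 3), (1, 4), (3, 1), (4, 1)]
    rng := [(0, 1), (0, 9), (1, 0), (1, 2), (2, 1), (2, 3), (3, 2), (3, 4), (4, 3), (4, 5), (5, 4), (5,
      6), (6, 5), (6, 7), (7, 6), (7, 8), (8, 7), (8, 10), (9, 0), (9, 10), (10, 8), (10, 9)]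
    lev := [] }
  links := [[1, 2, 7, 8], [2, 0, 8, 9, 10], [7, 0, 1, 10, 11, 12, 13, 3], [7, 2, 13, 14, 4, 5], [5, 3,
    14, 15], [7, 3, 4, 15, 6, 16], [16, 5, 15, 17]]
  P := {
    a := 7
    N := 18
    nb := [390, 1797, 15499, 24756, 49192, 98520, 229408, 65837, 643, 1282, 2566, 5124, 10244, 20492,
      40984, 147568, 131296, 98368]
    tri := [(0, 1, 2), (0, 1, 8), (0, 2, 7), (0, 7, 8), (1, 2, 10), (1, 8, 9), (1, 9, 10), (2, 3, 7),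
      (2, 3, 13), (2, 10, 11), (2, 11, 12), (2, 12, 13), (3, 4, 5), (3, 4, 14), (3, 5, 7), (3, 13,
      14), (4, 5, 15), (4, 14, 15), (5, 6, 15), (5, 6, 16), (5, 7, 16), (6, 15, 17), (6, 16, 17)]
    fin := [0, 0, 0, 0, 4, 4, 6, 0, 8, 9, 0, 11, 12, 0, 4, 6, 16, 17]
    chd := [(4, 16), (6, 16)]
    steps := [(0, 1), (0, 2), (0, 3), (0, 7), (0, 10), (0, 13), (4, 5), (4, 14), (6, 15)] }
  rep := [0, 16, 8, 6, 4, 9, 11, 12, 17]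

noncomputable def v2561 : Cov.CovD where
  P := 3
  N := 6
  pl := [1, 2, 4, 5, 10]
  lev := [⟨[], [], [], [2], [(0, 0, [])]⟩,
    ⟨[], [(0, 0)], [], [2, 5], [(3, 0, [])]⟩,
    ⟨[(0, 1)], [(0, 0), (1, 0)], [(0, 0)], [6, 7], [(0, 0, []), (3, 0, []), (6, 0, [])]⟩,
    ⟨[(0, 2), (1, 2)], [(0, 0), (2, 0), (2, 4)], [(0, 0), (0, 4)], [], [(0, 0, []), (6, 0,
      []), (7, 4, [1])]⟩,
    ⟨[(2, 3)], [(3, 0), (3, 3), (3, 4)], [(3, 4)], [], [(7, 4, [1]), (8, 3, [1])]⟩,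
    ⟨[(2, 3), (3, 4)], [(0, 0), (2, 0), (3, 0), (3, 1), (3, 3), (3, 4), (4, 0), (4, 1), (4,
      3), (4, 4)], [(0, 1), (0, 3), (1, 3)], [], [(0, 0, []), (8, 3, [1]), (9, 1, [3, 4])]⟩,
    ⟨[(3, 5), (4, 5)], [(4, 3), (5, 0), (5, 1), (5, 3)], [(1, 3)], [8], [(8, 3, [1]), (9,
      1, [3, 4])]⟩]
  Ta := [((0, 1), 0, 2), ((0, 9), 0, 1), ((3, 2), 0, 5), ((3, 4), 0, 6), ((6, 5), 0, 7), ((6, 7),
    0, 4)]
  Tb := [((0, 1, 9), 0, 2, 1), ((1, 0, 2), 2, 0, 5), ((2, 1, 3), 5, 2, 0), ((3, 2, 4), 0, 5, 6),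
    ((4, 3, 5), 6, 0, 7), ((5, 4, 6), 7, 6, 0), ((6, 5, 7), 0, 7, 4), ((7, 6, 8), 4, 0, 3),
    ((8, 7, 10), 3, 4, 8), ((9, 0, 10), 1, 0, 8), ((10, 8, 9), 8, 3, 1)]
  Tc := [(1, 3, 4)]
  Td := [((1, 3), (9, 0), 0), ((1, 3), (9, 10), 8), ((1, 4), (9, 0), 0), ((1, 4), (9, 10), 8),
    ((3, 1), (8, 7), 4), ((3, 1), (8, 10), 8), ((4, 1), (7, 6), 0), ((4, 1), (7, 8), 3)]
  G := [[0, 0x42c2a5a6c16c6a1a6c16ca61a6c1ae18,
    0x28294c543ae2c2c495c96682c2c815c361dc2d8285c1ea24d49872c82c815c36ce8,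
    0x24d4987228d854b22ec2c895c5ae18, 0x2485c987254298295c2e2dc2c895c5ae18], [0, 0, 0,
    0x28d854b2d42d4983a1d8d2d14d2ce2485c98722ec2c895c5aac24d49872445,
    0x1d8d2d14d2c2224c895c7228c815cb21d8d2d14d2ced85281c244183e28d854b2caa], [0, 0, 0,
    0xd82d492c36d852d815c3a1d8d2d14d2ce18, 0x7895c54b2b82d495c361d8d2d14d2ce18]]

noncomputable def n2561 : Ent := ⟨e2561, noF, [], [], [(8, 16, [7334685537875745012586738086077695515070955365108989538292687704154113, 0]), (9, 15, [7334790850167413569773436004105379185503274260204390087403942015135745, 0]), (9, 17, [6903326391201334775872065844685381424292761054348340378595029940174849, 0])]⟩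

def c2561 : PLift (Cov.check n2561.C.D v2561 = true) := ⟨by decide +kernel⟩

def b2561 : PLift (entF (fidx ts) 400 2561 n2561 = true) := ⟨by decide +kernel⟩

theorem g2561 : GoodF (fidx ts) 400 2561 := GoodF.ofV v2561 n2561 c2561.down b2561.down

/-- 4857447:2098 -/
noncomputable def e2562 : SCfg where
  D := {
    a := 7
    L := 11
    kp := 9
    inn := [(0, 1), (0, 6), (1, 0), (1, 2), (1, 3), (1, 4), (1, 6), (2, 1), (2, 3), (3, 1), (3, 2), (3,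
      5), (3, 6), (4, 1), (5, 3), (5, 6), (6, 0), (6, 1), (6, 3), (6, 5)]
    mix := [(0, 0), (0, 1), (1, 0), (1, 2), (1, 3), (2, 2), (2, 4), (2, 5), (3, 4), (3, 6), (3, 7), (4,
      0), (4, 3), (4, 8), (5, 6), (5, 9), (6, 1), (6, 9), (6, 10)]
    cl := [0, 2, 0, 5, 1, 8, 3, 6, 9, 4, 7]
    chq := [(0, 1), (0, 3), (0, 4), (0, 6), (0, 7), (1, 0), (3, 0), (4, 0), (6, 0), (7, 0)]
    rng := [(0, 1), (0, 8), (1, 0), (1, 10), (2, 3), (2, 5), (3, 2), (3, 8), (4, 5), (4, 7), (5, 2),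
      (5, 4), (6, 7), (6, 9), (7, 4), (7, 6), (8, 0), (8, 3), (9, 6), (9, 10), (10, 1), (10, 9)]
    lev := [] }
  links := [[1, 7, 8, 6], [7, 0, 6, 3, 2, 9, 10, 4], [9, 1, 3, 11, 12], [11, 2, 1, 6, 5, 13, 14], [7, 1,
    10, 15], [13, 3, 6, 16], [16, 5, 3, 1, 0, 8, 17]]
  P := {
    a := 7
    N := 18
    nb := [450, 1757, 6666, 26726, 33922, 73800, 196907, 33043, 131265, 5126, 33298, 20492, 2564,
      81960, 10248, 1168, 139360, 65856]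
    tri := [(0, 1, 6), (0, 1, 7), (0, 6, 8), (0, 7, 8), (1, 2, 3), (1, 2, 9), (1, 3, 6), (1, 4, 7), (1,
      4, 10), (1, 9, 10), (2, 3, 11), (2, 9, 12), (2, 11, 12), (3, 5, 6), (3, 5, 13), (3, 11, 14),
      (3, 13, 14), (4, 7, 15), (4, 10, 15), (5, 6, 16), (5, 13, 16), (6, 8, 17), (6, 16, 17)]
    fin := [0, 0, 0, 0, 0, 0, 0, 0, 8, 0, 10, 11, 12, 13, 14, 15, 16, 17]
    chd := [(0, 11), (0, 13), (0, 14), (0, 16), (0, 17)]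
    steps := [(0, 1), (0, 2), (0, 3), (0, 4), (0, 5), (0, 6), (0, 7), (0, 9)] }
  rep := [0, 11, 8, 13, 16, 10, 14, 17, 12, 15]

noncomputable def v2562 : Cov.CovD where
  P := 3
  N := 7
  pl := [1, 3, 5, 8]
  lev := [⟨[], [], [], [2], [(0, 0, [1, 3, 4, 6, 7])]⟩,
    ⟨[], [(0, 0)], [(0, 0)], [5], [(0, 0, [1, 3, 4, 6, 7]), (2, 0, [1, 3, 4, 6, 7])]⟩,
    ⟨[(0, 1)], [(1, 0), (1, 1)], [(0, 1)], [8], [(2, 0, [1, 3, 4, 6, 7]), (4, 1, [0])]⟩,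
    ⟨[(0, 1), (1, 2)], [(1, 0), (1, 1), (1, 3), (1, 6), (2, 0), (2, 1), (2, 3), (2, 6)],
      [(1, 3), (1, 6), (3, 6)], [], [(4, 1, [0]), (6, 3, [0]), (7, 6, [0])]⟩,
    ⟨[(0, 1), (1, 2), (1, 3)], [(0, 0), (1, 0)], [], [5, 9], [(0, 0, [1, 3, 4, 6, 7])]⟩,
    ⟨[(1, 3), (2, 3)], [(3, 1), (3, 3), (3, 4), (3, 6)], [(3, 4)], [], [(6, 3, [0]), (9, 4,
      [0])]⟩,
    ⟨[(0, 1), (0, 3), (0, 5), (1, 2), (1, 3), (1, 4), (1, 5), (2, 3), (3, 5)], [(0, 0), (0,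
      4), (0, 7), (1, 0), (1, 4), (1, 7), (3, 1), (3, 3), (3, 4), (3, 6), (3, 7), (5, 3), (5,
      4), (5, 7)], [(4, 7)], [2], [(9, 4, [0]), (10, 7, [0])]⟩]
  Ta := [((0, 1), 0, 2), ((0, 8), 0, 9), ((2, 3), 0, 5), ((2, 5), 0, 8)]
  Tb := [((0, 1, 8), 0, 2, 9), ((1, 0, 10), 2, 0, 7), ((2, 3, 5), 0, 5, 8), ((3, 2, 8), 5, 0, 9),
    ((4, 5, 7), 1, 8, 6), ((5, 2, 4), 8, 0, 1), ((6, 7, 9), 3, 6, 4), ((7, 4, 6), 6, 1, 3),
    ((8, 0, 3), 9, 0, 5), ((9, 6, 10), 4, 3, 7), ((10, 1, 9), 7, 2, 4)]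
  Tc := [(0, 1, 3), (0, 1, 4), (0, 1, 6), (0, 1, 7), (0, 3, 4), (0, 3, 6), (0, 3, 7), (0, 4, 6),
    (0, 4, 7), (0, 6, 7)]
  Td := [((0, 1), (0, 1), 2), ((0, 1), (0, 8), 9), ((0, 1), (2, 3), 5), ((0, 1), (2, 5), 8), ((0,
    3), (0, 1), 2), ((0, 3), (0, 8), 9), ((0, 3), (2, 3), 5), ((0, 3), (2, 5), 8), ((0, 4),
    (0, 1), 2), ((0, 4), (0, 8), 9), ((0, 4), (2, 3), 5), ((0, 4), (2, 5), 8), ((0, 6), (0,
    1), 2), ((0, 6), (0, 8), 9), ((0, 6), (2, 3), 5), ((0, 6), (2, 5), 8), ((0, 7), (0, 1),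
    2), ((0, 7), (0, 8), 9), ((0, 7), (2, 3), 5), ((0, 7), (2, 5), 8), ((1, 0), (4, 5), 8),
    ((1, 0), (4, 7), 6), ((3, 0), (6, 7), 6), ((3, 0), (6, 9), 4), ((4, 0), (9, 6), 3), ((4,
    0), (9, 10), 7), ((6, 0), (7, 4), 1), ((6, 0), (7, 6), 3), ((7, 0), (10, 1), 2), ((7, 0),
    (10, 9), 4)]
  G := [[0, 0x111111684111111111e211188111111111e4ec,
    0xe141c1e181e1c1e1c241216161e121e1ce1a121e18121a1cc6,
    0x1c31118fc2d1111111cd89dc3dc3a11c31c3c2711111a111111c7cd6111e1c3c83d111611111116dc58c,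
    0xa2114111e111e228afb1111e111ea171c6111e111e2288fd1115115c45bb12fbb12fc111a11ac8911a11161c1ea],
    [0, 0x1114111111ac111111a1114c6111111111e28c, 0,
    0x11a154731116145111e11dcf511814188bb111a18d111e11dcf311161dcb5111a11161cde8,
    0x113e111414511c111eb83d112b8391112b18d12339af31111e11c8a37111a11251cde8]]

noncomputable def n2562 : Ent := ⟨e2562, noF, [], [], []⟩

def c2562 : PLift (Cov.check n2562.C.D v2562 = true) := ⟨by decide +kernel⟩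

def b2562 : PLift (entF (fidx ts) 400 2562 n2562 = true) := ⟨by decide +kernel⟩

theorem g2562 : GoodF (fidx ts) 400 2562 := GoodF.ofV v2562 n2562 c2562.down b2562.down

/-- 4646864:2100/1 -/
noncomputable def e2563 : SCfg where
  D := {
    a := 7
    L := 10
    kp := 8
    inn := [(0, 1), (0, 4), (1, 0), (1, 2), (1, 3), (1, 4), (2, 1), (3, 1), (3, 4), (3, 5), (4, 0), (4,
      1), (4, 3), (4, 5), (4, 6), (5, 3), (5, 4), (6, 4)]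
    mix := [(0, 0), (0, 1), (1, 1), (1, 2), (2, 1), (2, 2), (2, 3), (3, 2), (3, 4), (3, 5), (4, 0), (4,
      6), (4, 7), (5, 5), (5, 6), (5, 8), (5, 9), (6, 0), (6, 3), (6, 7)]
    cl := [3, 1, 0, 2, 8, 4, 3, 5, 6, 7]
    chq := [(0, 1), (0, 3), (0, 4), (0, 6), (0, 7), (1, 0), (3, 0), (4, 0), (6, 0), (7, 0)]
    rng := [(0, 1), (0, 3), (1, 0), (1, 3), (2, 3), (2, 4), (3, 0), (3, 1), (3, 2), (3, 7), (4, 2), (4,
      5), (5, 4), (5, 8), (6, 7), (6, 9), (7, 3), (7, 6), (8, 5), (8, 9), (9, 6), (9, 8)]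
    lev := [] }
  links := [[1, 4, 7, 8], [4, 0, 8, 2, 9, 3], [9, 1, 8, 10], [4, 1, 9, 11, 12, 5], [7, 0, 1, 3, 5, 13,
    14, 6], [13, 4, 3, 12, 15, 16], [7, 4, 14, 10]]
  P := {
    a := 7
    N := 17
    nb := [402, 797, 1794, 6706, 24811, 110616, 17552, 1361, 1159, 3086, 17348, 4616, 34856, 81968,
      9296, 69664, 40992]
    tri := [(0, 1, 4), (0, 1, 8), (0, 4, 7), (0, 7, 8), (1, 2, 8), (1, 2, 9), (1, 3, 4), (1, 3, 9), (2,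
      8, 10), (2, 9, 10), (3, 4, 5), (3, 5, 12), (3, 9, 11), (3, 11, 12), (4, 5, 13), (4, 6, 7),
      (4, 6, 14), (4, 13, 14), (5, 12, 15), (5, 13, 16), (5, 15, 16), (6, 7, 10), (6, 10, 14)]
    fin := [0, 0, 2, 3, 0, 3, 0, 0, 2, 3, 10, 11, 12, 0, 14, 15, 16]
    chd := [(0, 3), (2, 3), (3, 12), (3, 15), (3, 16)]
    steps := [(0, 1), (0, 4), (0, 6), (0, 7), (0, 13), (2, 8), (3, 5), (3, 9)] }
  rep := [3, 2, 10, 0, 12, 14, 15, 16, 11]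

noncomputable def v2563 : Cov.CovD where
  P := 3
  N := 6
  pl := [3, 4, 7]
  lev := [⟨[], [], [(1, 3)], [], [(0, 3, [0]), (1, 1, [0])]⟩,
    ⟨[], [(0, 0), (0, 1), (0, 3)], [(0, 1)], [], [(1, 1, [0]), (2, 0, [1, 3, 4, 6, 7])]⟩,
    ⟨[(0, 1)], [(0, 1), (1, 0), (1, 1)], [(0, 1)], [2], [(1, 1, [0]), (2, 0, [1, 3, 4, 6,
      7])]⟩,
    ⟨[(0, 1), (1, 2)], [(1, 0), (1, 1), (1, 4), (2, 0)], [(0, 4)], [8], [(2, 0, [1, 3, 4,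
      6, 7]), (5, 4, [0])]⟩,
    ⟨[(0, 1), (0, 3), (1, 2), (1, 3)], [(0, 1), (0, 3), (1, 0), (1, 1), (1, 3), (3, 0), (3,
      3), (3, 4)], [(3, 3)], [5], [(0, 3, [0]), (6, 3, [0])]⟩,
    ⟨[(0, 4), (1, 3), (1, 4), (3, 4)], [(3, 0), (3, 3), (3, 4), (3, 6), (3, 7), (4, 3), (4,
      4), (4, 6), (4, 7)], [(3, 4), (3, 6), (3, 7), (4, 6), (4, 7), (6, 7)], [], [(5, 4,
      [0]), (6, 3, [0]), (8, 6, [0]), (9, 7, [0])]⟩,
    ⟨[(0, 4), (1, 4), (3, 4), (4, 5)], [(0, 3), (4, 3)], [], [2, 5], [(0, 3, [0])]⟩]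
  Ta := [((0, 1), 3, 1), ((0, 3), 3, 2), ((6, 7), 3, 5), ((6, 9), 3, 7)]
  Tb := [((0, 1, 3), 3, 1, 2), ((1, 0, 3), 1, 3, 2), ((2, 3, 4), 0, 2, 8), ((3, 0, 1), 2, 3, 1),
    ((3, 0, 2), 2, 3, 0), ((3, 0, 7), 2, 3, 5), ((3, 1, 2), 2, 1, 0), ((3, 1, 7), 2, 1, 5),
    ((3, 2, 7), 2, 0, 5), ((4, 2, 5), 8, 0, 4), ((5, 4, 8), 4, 8, 6), ((6, 7, 9), 3, 5, 7),
    ((7, 3, 6), 5, 2, 3), ((8, 5, 9), 6, 4, 7), ((9, 6, 8), 7, 3, 6)]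
  Tc := [(0, 1, 3), (0, 1, 4), (0, 1, 6), (0, 1, 7), (0, 3, 4), (0, 3, 6), (0, 3, 7), (0, 4, 6),
    (0, 4, 7), (0, 6, 7)]
  Td := [((0, 1), (2, 3), 2), ((0, 1), (2, 4), 8), ((0, 3), (2, 3), 2), ((0, 3), (2, 4), 8), ((0,
    4), (2, 3), 2), ((0, 4), (2, 4), 8), ((0, 6), (2, 3), 2), ((0, 6), (2, 4), 8), ((0, 7),
    (2, 3), 2), ((0, 7), (2, 4), 8), ((1, 0), (1, 0), 3), ((1, 0), (1, 3), 2), ((3, 0), (0,
    1), 1), ((3, 0), (0, 3), 2), ((3, 0), (6, 7), 5), ((3, 0), (6, 9), 7), ((4, 0), (5, 4),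
    8), ((4, 0), (5, 8), 6), ((6, 0), (8, 5), 4), ((6, 0), (8, 9), 7), ((7, 0), (9, 6), 3),
    ((7, 0), (9, 8), 6)]
  G := [[0, 0x4111624114191e811151e818e8a1, 0xa11a11a11e84611611611e48c, 0xd124d12d12ac41,
    0x11448119121e8121a813111ee8c1], [0, 0x91813918136918138c84, 0x611611611e848,
    0x912912912e484, 0x81216a1816688121688c1]]

noncomputable def n2563 : Ent := ⟨e2563, noF, [], [], []⟩

def c2563 : PLift (Cov.check n2563.C.D v2563 = true) := ⟨by decide +kernel⟩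

def b2563 : PLift (entF (fidx ts) 400 2563 n2563 = true) := ⟨by decide +kernel⟩

theorem g2563 : GoodF (fidx ts) 400 2563 := GoodF.ofV v2563 n2563 c2563.down b2563.down

/-- 4646864:2100 -/
noncomputable def e2564 : SCfg where
  D := {
    a := 7
    L := 11
    kp := 9
    inn := [(0, 1), (0, 4), (1, 0), (1, 2), (1, 3), (1, 4), (2, 1), (3, 1), (3, 4), (3, 5), (4, 0), (4,
      1), (4, 3), (4, 5), (4, 6), (5, 3), (5, 4), (6, 4)]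
    mix := [(0, 0), (0, 1), (1, 1), (1, 2), (2, 1), (2, 2), (2, 3), (3, 2), (3, 4), (3, 5), (4, 0), (4,
      6), (4, 7), (5, 5), (5, 6), (5, 8), (5, 9), (6, 0), (6, 7), (6, 10)]
    cl := [0, 2, 1, 7, 8, 3, 0, 4, 5, 6, 9]
    chq := [(0, 1), (1, 0), (1, 2), (1, 3), (1, 5), (1, 6), (2, 1), (3, 1), (5, 1), (6, 1)]
    rng := [(0, 1), (0, 10), (1, 0), (1, 3), (2, 3), (2, 4), (3, 1), (3, 2), (4, 2), (4, 5), (5, 4),
      (5, 8), (6, 7), (6, 9), (7, 6), (7, 10), (8, 5), (8, 9), (9, 6), (9, 8), (10, 0), (10, 7)]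
    lev := [] }
  links := [[1, 4, 7, 8], [4, 0, 8, 2, 9, 3], [9, 1, 8, 10], [4, 1, 9, 11, 12, 5], [7, 0, 1, 3, 5, 13,
    14, 6], [13, 4, 3, 12, 15, 16], [7, 4, 14, 17]]
  P := {
    a := 7
    N := 18
    nb := [402, 797, 1794, 6706, 24811, 110616, 147600, 131409, 1159, 3086, 772, 4616, 34856, 81968,
      139344, 69664, 40992, 16576]
    tri := [(0, 1, 4), (0, 1, 8), (0, 4, 7), (0, 7, 8), (1, 2, 8), (1, 2, 9), (1, 3, 4), (1, 3, 9), (2,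
      8, 10), (2, 9, 10), (3, 4, 5), (3, 5, 12), (3, 9, 11), (3, 11, 12), (4, 5, 13), (4, 6, 7),
      (4, 6, 14), (4, 13, 14), (5, 12, 15), (5, 13, 16), (5, 15, 16), (6, 7, 17), (6, 14, 17)]
    fin := [0, 0, 2, 3, 0, 3, 0, 0, 2, 3, 10, 11, 12, 0, 14, 15, 16, 17]
    chd := [(0, 3), (2, 3), (3, 12), (3, 15), (3, 16)]
    steps := [(0, 1), (0, 4), (0, 6), (0, 7), (0, 13), (2, 8), (3, 5), (3, 9)] }
  rep := [0, 3, 2, 12, 14, 15, 16, 10, 11, 17]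

noncomputable def v2564 : Cov.CovD where
  P := 3
  N := 7
  pl := [3, 4, 7, 10]
  lev := [⟨[], [], [(0, 2)], [], [(0, 0, [1]), (1, 2, [1])]⟩,
    ⟨[], [(0, 0), (0, 1), (0, 2)], [(1, 2)], [], [(1, 2, [1]), (2, 1, [0, 2, 3, 5, 6])]⟩,
    ⟨[(0, 1)], [(0, 2), (1, 1), (1, 2)], [(1, 2)], [7], [(1, 2, [1]), (2, 1, [0, 2, 3, 5,
      6])]⟩,
    ⟨[(0, 1), (1, 2)], [(1, 1), (1, 2), (1, 3), (2, 1)], [(1, 3)], [8], [(2, 1, [0, 2, 3,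
      5, 6]), (5, 3, [1])]⟩,
    ⟨[(0, 1), (0, 3), (1, 2), (1, 3)], [(0, 0), (0, 2), (1, 0), (1, 1), (1, 2), (3, 0), (3,
      1), (3, 3)], [(0, 0)], [4], [(0, 0, [1]), (6, 0, [1])]⟩,
    ⟨[(0, 4), (1, 3), (1, 4), (3, 4)], [(3, 0), (3, 1), (3, 3), (3, 5), (3, 6), (4, 0), (4,
      3), (4, 5), (4, 6)], [(0, 3), (0, 5), (0, 6), (3, 5), (3, 6), (5, 6)], [], [(5, 3,
      [1]), (6, 0, [1]), (8, 5, [1]), (9, 6, [1])]⟩,
    ⟨[(0, 4), (1, 4), (3, 4), (4, 5)], [(0, 0), (4, 0)], [], [4, 9], [(0, 0, [1])]⟩]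
  Ta := [((0, 1), 0, 2), ((0, 10), 0, 9), ((6, 7), 0, 4), ((6, 9), 0, 6)]
  Tb := [((0, 1, 10), 0, 2, 9), ((1, 0, 3), 2, 0, 7), ((2, 3, 4), 1, 7, 8), ((3, 1, 2), 7, 2, 1),
    ((4, 2, 5), 8, 1, 3), ((5, 4, 8), 3, 8, 5), ((6, 7, 9), 0, 4, 6), ((7, 6, 10), 4, 0, 9),
    ((8, 5, 9), 5, 3, 6), ((9, 6, 8), 6, 0, 5), ((10, 0, 7), 9, 0, 4)]
  Tc := [(1, 0, 2), (1, 0, 3), (1, 0, 5), (1, 0, 6), (1, 2, 3), (1, 2, 5), (1, 2, 6), (1, 3, 5),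
    (1, 3, 6), (1, 5, 6)]
  Td := [((0, 1), (0, 1), 2), ((0, 1), (0, 10), 9), ((0, 1), (6, 7), 4), ((0, 1), (6, 9), 6),
    ((1, 0), (2, 3), 7), ((1, 0), (2, 4), 8), ((1, 2), (2, 3), 7), ((1, 2), (2, 4), 8), ((1,
    3), (2, 3), 7), ((1, 3), (2, 4), 8), ((1, 5), (2, 3), 7), ((1, 5), (2, 4), 8), ((1, 6),
    (2, 3), 7), ((1, 6), (2, 4), 8), ((2, 1), (1, 0), 0), ((2, 1), (1, 3), 7), ((3, 1), (5,
    4), 8), ((3, 1), (5, 8), 5), ((5, 1), (8, 5), 3), ((5, 1), (8, 9), 6), ((6, 1), (9, 6),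
    0), ((6, 1), (9, 8), 5)]
  G := [[0, 0x111161111a1111ae184,
    0x4444f24822c22ccc2288c2246245e2885662a2cccde624dc62a2cccdee28a28d2288aa289cc6,
    0x822422c822422c9422e2ce222ca262cd22e2ce222ca262cdc1a,
    0x224444f6822518888f24444f2c82289922e2c1122e2ce222ca262cd828122e2888dee28cb9a], [0,
    0x111161111a1111ce148, 0, 0x12d26b212632926d529263252a12d26dc18,
    0x3252c111262ca212cd212cd1262ca212cc992]]

noncomputable def n2564 : Ent := ⟨e2564, noF, [], [], [(10, 17, [6903326391201334775872065844685381424292761054348340378595029940187137, 0])]⟩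

def c2564 : PLift (Cov.check n2564.C.D v2564 = true) := ⟨by decide +kernel⟩

def b2564 : PLift (entF (fidx ts) 400 2564 n2564 = true) := ⟨by decide +kernel⟩

theorem g2564 : GoodF (fidx ts) 400 2564 := GoodF.ofV v2564 n2564 c2564.down b2564.down

/-- 4646864:2101/1 -/
noncomputable def e2565 : SCfg where
  D := {
    a := 7
    L := 10
    kp := 8
    inn := [(0, 1), (0, 4), (1, 0), (1, 2), (1, 3), (1, 4), (2, 1), (3, 1), (3, 4), (3, 5), (4, 0), (4,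
      1), (4, 3), (4, 5), (5, 3), (5, 4), (5, 6), (6, 5)]
    mix := [(0, 0), (0, 1), (1, 1), (1, 2), (2, 1), (2, 2), (2, 3), (3, 2), (3, 4), (3, 5), (4, 0), (4,
      6), (4, 7), (4, 8), (5, 5), (5, 6), (5, 9), (6, 3), (6, 5), (6, 9)]
    cl := [4, 1, 0, 2, 8, 3, 3, 6, 7, 5]
    chq := [(0, 1), (0, 3), (0, 4), (0, 6), (0, 7), (1, 0), (3, 0), (4, 0), (6, 0), (7, 0)]
    rng := [(0, 1), (0, 8), (1, 0), (1, 3), (2, 3), (2, 4), (3, 1), (3, 2), (3, 5), (3, 9), (4, 2), (4,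
      5), (5, 3), (5, 4), (6, 7), (6, 9), (7, 6), (7, 8), (8, 0), (8, 7), (9, 3), (9, 6)]
    lev := [] }
  links := [[1, 4, 7, 8], [4, 0, 8, 2, 9, 3], [9, 1, 8, 10], [4, 1, 9, 11, 12, 5], [7, 0, 1, 3, 5, 13,
    14, 15], [13, 4, 3, 12, 6, 16], [16, 5, 12, 10]]
  P := {
    a := 7
    N := 17
    nb := [402, 797, 1794, 6706, 57515, 77912, 70688, 33041, 1159, 3086, 70468, 4616, 3176, 81968,
      40976, 16528, 9312]
    tri := [(0, 1, 4), (0, 1, 8), (0, 4, 7), (0, 7, 8), (1, 2, 8), (1, 2, 9), (1, 3, 4), (1, 3, 9), (2,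
      8, 10), (2, 9, 10), (3, 4, 5), (3, 5, 12), (3, 9, 11), (3, 11, 12), (4, 5, 13), (4, 7, 15),
      (4, 13, 14), (4, 14, 15), (5, 6, 12), (5, 6, 16), (5, 13, 16), (6, 10, 12), (6, 10, 16)]
    fin := [0, 0, 2, 3, 3, 5, 6, 0, 2, 3, 6, 11, 5, 5, 14, 15, 16]
    chd := [(0, 3), (2, 3), (3, 5), (3, 14), (3, 15)]
    steps := [(0, 1), (0, 7), (2, 8), (3, 4), (3, 9), (5, 12), (5, 13), (6, 10)] }
  rep := [3, 2, 6, 5, 0, 16, 14, 15, 11]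

noncomputable def v2565 : Cov.CovD where
  P := 3
  N := 6
  pl := [3, 4, 9]
  lev := [⟨[], [], [(1, 4)], [], [(0, 4, [0]), (1, 1, [0])]⟩,
    ⟨[], [(0, 0), (0, 1), (0, 4)], [(0, 1)], [], [(1, 1, [0]), (2, 0, [1, 3, 4, 6, 7])]⟩,
    ⟨[(0, 1)], [(0, 1), (1, 0), (1, 1)], [(0, 1)], [2], [(1, 1, [0]), (2, 0, [1, 3, 4, 6,
      7])]⟩,
    ⟨[(0, 1), (1, 2)], [(1, 0), (1, 1), (1, 3), (2, 0)], [(0, 3)], [8], [(2, 0, [1, 3, 4,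
      6, 7]), (5, 3, [0])]⟩,
    ⟨[(0, 1), (0, 3), (1, 2), (1, 3)], [(0, 1), (0, 3), (0, 4), (0, 6), (0, 7), (1, 0), (1,
      1), (1, 3), (1, 4), (1, 6), (1, 7), (3, 0), (3, 3), (3, 4), (3, 6), (3, 7)], [(3, 4),
      (3, 6), (3, 7), (4, 6), (4, 7), (6, 7)], [], [(0, 4, [0]), (6, 3, [0]), (7, 6, [0]),
      (8, 7, [0])]⟩,
    ⟨[(0, 4), (1, 3), (1, 4), (3, 4)], [(3, 0), (3, 3), (4, 3), (4, 4), (4, 6), (4, 7)],
      [(3, 3)], [5], [(5, 3, [0]), (6, 3, [0])]⟩,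
    ⟨[(3, 5), (4, 5)], [(3, 3), (5, 3)], [], [2, 5], [(5, 3, [0])]⟩]
  Ta := [((5, 3), 3, 2), ((5, 4), 3, 8), ((6, 7), 3, 6), ((6, 9), 3, 5)]
  Tb := [((0, 1, 8), 4, 1, 7), ((1, 0, 3), 1, 4, 2), ((2, 3, 4), 0, 2, 8), ((3, 1, 2), 2, 1, 0),
    ((3, 1, 5), 2, 1, 3), ((3, 1, 9), 2, 1, 5), ((3, 2, 5), 2, 0, 3), ((3, 2, 9), 2, 0, 5),
    ((3, 5, 9), 2, 3, 5), ((4, 2, 5), 8, 0, 3), ((5, 3, 4), 3, 2, 8), ((6, 7, 9), 3, 6, 5),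
    ((7, 6, 8), 6, 3, 7), ((8, 0, 7), 7, 4, 6), ((9, 3, 6), 5, 2, 3)]
  Tc := [(0, 1, 3), (0, 1, 4), (0, 1, 6), (0, 1, 7), (0, 3, 4), (0, 3, 6), (0, 3, 7), (0, 4, 6),
    (0, 4, 7), (0, 6, 7)]
  Td := [((0, 1), (2, 3), 2), ((0, 1), (2, 4), 8), ((0, 3), (2, 3), 2), ((0, 3), (2, 4), 8), ((0,
    4), (2, 3), 2), ((0, 4), (2, 4), 8), ((0, 6), (2, 3), 2), ((0, 6), (2, 4), 8), ((0, 7),
    (2, 3), 2), ((0, 7), (2, 4), 8), ((1, 0), (1, 0), 4), ((1, 0), (1, 3), 2), ((3, 0), (5,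
    3), 2), ((3, 0), (5, 4), 8), ((3, 0), (6, 7), 6), ((3, 0), (6, 9), 5), ((4, 0), (0, 1),
    1), ((4, 0), (0, 8), 7), ((6, 0), (7, 6), 3), ((6, 0), (7, 8), 7), ((7, 0), (8, 0), 4),
    ((7, 0), (8, 7), 6)]
  G := [[0, 0x149e1854b1854b1e8481a12849871815e1441e86c, 0xe114e11e11ac4e11e118691e48c,
    0x921521d21e8452144921d21a8cc, 0x192e182a1831e1e84812e148192e1831e1a8c141481414a18cd],
    [0, 0x98314851648543181a1a84a, 0x882e1848e16881, 0x921921648521521a84c,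
    0x126181c1a84316181c1a84c]]

noncomputable def n2565 : Ent := ⟨e2565, noF, [], [], []⟩

def c2565 : PLift (Cov.check n2565.C.D v2565 = true) := ⟨by decide +kernel⟩

def b2565 : PLift (entF (fidx ts) 400 2565 n2565 = true) := ⟨by decide +kernel⟩

theorem g2565 : GoodF (fidx ts) 400 2565 := GoodF.ofV v2565 n2565 c2565.down b2565.down

/-- 4646864:2101 -/
noncomputable def e2566 : SCfg where
  D := {
    a := 7
    L := 11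
    kp := 9
    inn := [(0, 1), (0, 4), (1, 0), (1, 2), (1, 3), (1, 4), (2, 1), (3, 1), (3, 4), (3, 5), (4, 0), (4,
      1), (4, 3), (4, 5), (5, 3), (5, 4), (5, 6), (6, 5)]
    mix := [(0, 0), (0, 1), (1, 1), (1, 2), (2, 1), (2, 2), (2, 3), (3, 2), (3, 4), (3, 5), (4, 0), (4,
      6), (4, 7), (4, 8), (5, 5), (5, 6), (5, 9), (6, 5), (6, 9), (6, 10)]
    cl := [2, 1, 0, 7, 8, 3, 3, 5, 6, 4, 9]
    chq := [(0, 1), (0, 2), (0, 3), (0, 5), (0, 6), (1, 0), (2, 0), (3, 0), (5, 0), (6, 0)]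
    rng := [(0, 1), (0, 8), (1, 0), (1, 3), (2, 3), (2, 4), (3, 1), (3, 2), (4, 2), (4, 5), (5, 4), (5,
      10), (6, 7), (6, 9), (7, 6), (7, 8), (8, 0), (8, 7), (9, 6), (9, 10), (10, 5), (10, 9)]
    lev := [] }
  links := [[1, 4, 7, 8], [4, 0, 8, 2, 9, 3], [9, 1, 8, 10], [4, 1, 9, 11, 12, 5], [7, 0, 1, 3, 5, 13,
    14, 15], [13, 4, 3, 12, 6, 16], [16, 5, 12, 17]]
  P := {
    a := 7
    N := 18
    nb := [402, 797, 1794, 6706, 57515, 77912, 200736, 33041, 1159, 3086, 772, 4616, 133224, 81968,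
      40976, 16528, 139360, 69696]
    tri := [(0, 1, 4), (0, 1, 8), (0, 4, 7), (0, 7, 8), (1, 2, 8), (1, 2, 9), (1, 3, 4), (1, 3, 9), (2,
      8, 10), (2, 9, 10), (3, 4, 5), (3, 5, 12), (3, 9, 11), (3, 11, 12), (4, 5, 13), (4, 7, 15),
      (4, 13, 14), (4, 14, 15), (5, 6, 12), (5, 6, 16), (5, 13, 16), (6, 12, 17), (6, 16, 17)]
    fin := [0, 0, 2, 3, 3, 5, 5, 0, 2, 3, 10, 11, 5, 5, 14, 15, 16, 17]
    chd := [(0, 3), (2, 3), (3, 5), (3, 14), (3, 15)]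
    steps := [(0, 1), (0, 7), (2, 8), (3, 4), (3, 9), (5, 6), (5, 12), (5, 13)] }
  rep := [3, 2, 0, 5, 16, 14, 15, 10, 11, 17]

noncomputable def v2566 : Cov.CovD where
  P := 3
  N := 7
  pl := [3, 4, 9, 10]
  lev := [⟨[], [], [(1, 2)], [], [(0, 2, [0]), (1, 1, [0])]⟩,
    ⟨[], [(0, 0), (0, 1), (0, 2)], [(0, 1)], [], [(1, 1, [0]), (2, 0, [1, 2, 3, 5, 6])]⟩,
    ⟨[(0, 1)], [(0, 1), (1, 0), (1, 1)], [(0, 1)], [7], [(1, 1, [0]), (2, 0, [1, 2, 3, 5,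
      6])]⟩,
    ⟨[(0, 1), (1, 2)], [(1, 0), (1, 1), (1, 3), (2, 0)], [(0, 3)], [8], [(2, 0, [1, 2, 3,
      5, 6]), (5, 3, [0])]⟩,
    ⟨[(0, 1), (0, 3), (1, 2), (1, 3)], [(0, 1), (0, 2), (0, 3), (0, 5), (0, 6), (1, 0), (1,
      1), (1, 2), (1, 3), (1, 5), (1, 6), (3, 0), (3, 2), (3, 3), (3, 5), (3, 6)], [(2, 3),
      (2, 5), (2, 6), (3, 5), (3, 6), (5, 6)], [], [(0, 2, [0]), (6, 3, [0]), (7, 5, [0]),
      (8, 6, [0])]⟩,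
    ⟨[(0, 4), (1, 3), (1, 4), (3, 4)], [(3, 0), (3, 3), (4, 2), (4, 3), (4, 5), (4, 6)],
      [(3, 3)], [4], [(5, 3, [0]), (6, 3, [0])]⟩,
    ⟨[(3, 5), (4, 5)], [(3, 3), (5, 3)], [], [4, 9], [(5, 3, [0])]⟩]
  Ta := [((5, 4), 3, 8), ((5, 10), 3, 9), ((6, 7), 3, 5), ((6, 9), 3, 4)]
  Tb := [((0, 1, 8), 2, 1, 6), ((1, 0, 3), 1, 2, 7), ((2, 3, 4), 0, 7, 8), ((3, 1, 2), 7, 1, 0),
    ((4, 2, 5), 8, 0, 3), ((5, 4, 10), 3, 8, 9), ((6, 7, 9), 3, 5, 4), ((7, 6, 8), 5, 3, 6),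
    ((8, 0, 7), 6, 2, 5), ((9, 6, 10), 4, 3, 9), ((10, 5, 9), 9, 3, 4)]
  Tc := [(0, 1, 2), (0, 1, 3), (0, 1, 5), (0, 1, 6), (0, 2, 3), (0, 2, 5), (0, 2, 6), (0, 3, 5),
    (0, 3, 6), (0, 5, 6)]
  Td := [((0, 1), (2, 3), 7), ((0, 1), (2, 4), 8), ((0, 2), (2, 3), 7), ((0, 2), (2, 4), 8), ((0,
    3), (2, 3), 7), ((0, 3), (2, 4), 8), ((0, 5), (2, 3), 7), ((0, 5), (2, 4), 8), ((0, 6),
    (2, 3), 7), ((0, 6), (2, 4), 8), ((1, 0), (1, 0), 2), ((1, 0), (1, 3), 7), ((2, 0), (0,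
    1), 1), ((2, 0), (0, 8), 6), ((3, 0), (5, 4), 8), ((3, 0), (5, 10), 9), ((3, 0), (6, 7),
    5), ((3, 0), (6, 9), 4), ((5, 0), (7, 6), 3), ((5, 0), (7, 8), 6), ((6, 0), (8, 0), 2),
    ((6, 0), (8, 7), 5)]
  G := [[0, 0xdb871d174f1b712f1ed174f1b712f166189181dbe18aa4,
    0xc6a41c6ab71e61514915121e915121eeddb6b71ea1db6819121a8dc1,
    0x1db8f181db8f18c4d174f1b712f16d174f1b712f16c818218a1c814414214e141841cd,
    0x41d174f3441db8f151d74b3b712f1882f811db8f3b712f1acc141488185182121ae1c9], [0,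
    0x95ce128356718b812f14668, 0x453e1954e1a148, 0x983e1958e16983e1958e16c84,
    0x453e1954e1a453e1954e1ac48]]

noncomputable def n2566 : Ent := ⟨e2566, noF, [], [], [(10, 17, [6903326391201334775872065844685381424292761054348340378595029940195329, 0])]⟩

def c2566 : PLift (Cov.check n2566.C.D v2566 = true) := ⟨by decide +kernel⟩

def b2566 : PLift (entF (fidx ts) 400 2566 n2566 = true) := ⟨by decide +kernel⟩

theorem g2566 : GoodF (fidx ts) 400 2566 := GoodF.ofV v2566 n2566 c2566.down b2566.down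

/-- 4646844:2102/1 -/
noncomputable def e2567 : SCfg where
  D := {
    a := 7
    L := 9
    kp := 7
    inn := [(0, 1), (0, 4), (1, 0), (1, 2), (1, 3), (1, 4), (2, 1), (3, 1), (3, 4), (4, 0), (4, 1), (4,
      3), (4, 5), (4, 6), (5, 4), (6, 4)]
    mix := [(0, 0), (0, 1), (1, 1), (1, 2), (2, 1), (2, 2), (2, 3), (3, 2), (3, 4), (3, 5), (3, 6), (4,
      0), (4, 6), (4, 7), (5, 6), (5, 7), (5, 8), (6, 0), (6, 3), (6, 7)]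
    cl := [3, 0, 1, 2, 5, 6, 3, 4, 7]
    chq := [(0, 1), (0, 5), (0, 6), (1, 0), (3, 4), (4, 3), (5, 0), (6, 0)]
    rng := [(0, 1), (0, 3), (1, 0), (1, 3), (2, 3), (2, 4), (3, 0), (3, 1), (3, 2), (3, 7), (4, 2), (4,
      5), (5, 4), (5, 6), (6, 5), (6, 8), (7, 3), (7, 8), (8, 6), (8, 7)]
    lev := [] }
  links := [[1, 4, 7, 8], [4, 0, 8, 2, 9, 3], [9, 1, 8, 10], [4, 1, 9, 11, 12, 13], [7, 0, 1, 3, 13, 5,
    14, 6], [14, 4, 13, 15], [7, 4, 14, 10]]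
  P := {
    a := 7
    N := 16
    nb := [402, 797, 1794, 14866, 24811, 57360, 17552, 1361, 1159, 3086, 17348, 4616, 10248, 36920,
      33904, 24608]
    tri := [(0, 1, 4), (0, 1, 8), (0, 4, 7), (0, 7, 8), (1, 2, 8), (1, 2, 9), (1, 3, 4), (1, 3, 9), (2,
      8, 10), (2, 9, 10), (3, 4, 13), (3, 9, 11), (3, 11, 12), (3, 12, 13), (4, 5, 13), (4, 5,
      14), (4, 6, 7), (4, 6, 14), (5, 13, 15), (5, 14, 15), (6, 7, 10), (6, 10, 14)]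
    fin := [0, 1, 1, 1, 0, 0, 0, 0, 1, 9, 10, 11, 12, 0, 14, 15]
    chd := [(0, 14), (1, 9), (1, 11), (1, 12)]
    steps := [(0, 4), (0, 5), (0, 6), (0, 7), (0, 13), (1, 2), (1, 3), (1, 8)] }
  rep := [1, 9, 10, 0, 14, 11, 12, 15]

noncomputable def v2567 : Cov.CovD where
  P := 3
  N := 5
  pl := [3, 8]
  lev := [⟨[], [], [(0, 3)], [], [(0, 3, [4]), (1, 0, [1, 5, 6])]⟩,
    ⟨[], [(0, 0), (0, 1), (0, 3)], [(0, 1)], [], [(1, 0, [1, 5, 6]), (2, 1, [0])]⟩,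
    ⟨[(0, 1)], [(0, 0), (1, 0), (1, 1)], [(0, 1)], [2], [(1, 0, [1, 5, 6]), (2, 1, [0])]⟩,
    ⟨[(0, 1), (1, 2)], [(1, 0), (1, 1), (1, 3), (1, 5), (1, 6), (2, 1)], [(1, 3), (1, 5),
      (1, 6), (3, 5), (3, 6), (5, 6)], [], [(2, 1, [0]), (4, 5, [0]), (5, 6, [0]), (6, 3,
      [4])]⟩,
    ⟨[(0, 1), (0, 3), (1, 2), (1, 3)], [(0, 0), (0, 3), (0, 4), (1, 0), (1, 1), (1, 3), (1,
      4), (3, 1), (3, 3), (3, 4), (3, 5), (3, 6)], [(3, 3), (3, 4)], [], [(0, 3, [4]), (6, 3,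
      [4]), (7, 4, [3])]⟩,
    ⟨[(0, 4), (1, 4), (3, 4)], [(3, 3), (4, 3), (4, 4)], [(3, 4)], [7], [(6, 3, [4]), (7,
      4, [3])]⟩,
    ⟨[(0, 4), (1, 4), (3, 4), (4, 5)], [(0, 3), (4, 3), (4, 4), (5, 4)], [(3, 4)], [2],
      [(0, 3, [4]), (7, 4, [3])]⟩]
  Ta := [((0, 1), 3, 0), ((0, 3), 3, 2), ((6, 5), 3, 6), ((6, 8), 3, 7)]
  Tb := [((0, 1, 3), 3, 0, 2), ((1, 0, 3), 0, 3, 2), ((2, 3, 4), 1, 2, 5), ((3, 0, 1), 2, 3, 0),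
    ((3, 0, 2), 2, 3, 1), ((3, 0, 7), 2, 3, 4), ((3, 1, 2), 2, 0, 1), ((3, 1, 7), 2, 0, 4),
    ((3, 2, 7), 2, 1, 4), ((4, 2, 5), 5, 1, 6), ((5, 4, 6), 6, 5, 3), ((6, 5, 8), 3, 6, 7),
    ((7, 3, 8), 4, 2, 7), ((8, 6, 7), 7, 3, 4)]
  Tc := [(0, 1, 5), (0, 1, 6), (0, 5, 6)]
  Td := [((0, 1), (1, 0), 3), ((0, 1), (1, 3), 2), ((0, 5), (1, 0), 3), ((0, 5), (1, 3), 2), ((0,
    6), (1, 0), 3), ((0, 6), (1, 3), 2), ((1, 0), (2, 3), 2), ((1, 0), (2, 4), 5), ((3, 4),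
    (0, 1), 0), ((3, 4), (0, 3), 2), ((3, 4), (6, 5), 6), ((3, 4), (6, 8), 7), ((4, 3), (7,
    3), 2), ((4, 3), (7, 8), 7), ((5, 0), (4, 2), 1), ((5, 0), (4, 5), 6), ((6, 0), (5, 4),
    5), ((6, 0), (5, 6), 3)]
  G := [[0, 0x88611a411be1841, 0xac61144681184a, 0xd22184d41d2184a, 0x93a22c61882818c8414a1846],
    [0, 0x14414489814517e18c1, 0x41c1842e71481818c2, 0x8451f21848, 0x22982a1849151161886]]

noncomputable def n2567 : Ent := ⟨e2567, noF, [], [], []⟩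

def c2567 : PLift (Cov.check n2567.C.D v2567 = true) := ⟨by decide +kernel⟩

def b2567 : PLift (entF (fidx ts) 400 2567 n2567 = true) := ⟨by decide +kernel⟩

theorem g2567 : GoodF (fidx ts) 400 2567 := GoodF.ofV v2567 n2567 c2567.down b2567.down

/-- 4646844:2102 -/
noncomputable def e2568 : SCfg where
  D := {
    a := 7
    L := 10
    kp := 8
    inn := [(0, 1), (0, 4), (1, 0), (1, 2), (1, 3), (1, 4), (2, 1), (3, 1), (3, 4), (4, 0), (4, 1), (4,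
      3), (4, 5), (4, 6), (5, 4), (6, 4)]
    mix := [(0, 0), (0, 1), (1, 1), (1, 2), (2, 1), (2, 2), (2, 3), (3, 2), (3, 4), (3, 5), (3, 6), (4,
      0), (4, 6), (4, 7), (5, 6), (5, 7), (5, 8), (6, 0), (6, 7), (6, 9)]
    cl := [0, 1, 3, 6, 4, 5, 0, 2, 7, 8]
    chq := [(0, 2), (1, 3), (1, 4), (1, 5), (2, 0), (3, 1), (4, 1), (5, 1)]
    rng := [(0, 1), (0, 9), (1, 0), (1, 3), (2, 3), (2, 4), (3, 1), (3, 2), (4, 2), (4, 5), (5, 4), (5,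
      6), (6, 5), (6, 8), (7, 8), (7, 9), (8, 6), (8, 7), (9, 0), (9, 7)]
    lev := [] }
  links := [[1, 4, 7, 8], [4, 0, 8, 2, 9, 3], [9, 1, 8, 10], [4, 1, 9, 11, 12, 13], [7, 0, 1, 3, 13, 5,
    14, 6], [14, 4, 13, 15], [7, 4, 14, 16]]
  P := {
    a := 7
    N := 17
    nb := [402, 797, 1794, 14866, 24811, 57360, 82064, 65873, 1159, 3086, 772, 4616, 10248, 36920,
      98416, 24608, 16576]
    tri := [(0, 1, 4), (0, 1, 8), (0, 4, 7), (0, 7, 8), (1, 2, 8), (1, 2, 9), (1, 3, 4), (1, 3, 9), (2,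
      8, 10), (2, 9, 10), (3, 4, 13), (3, 9, 11), (3, 11, 12), (3, 12, 13), (4, 5, 13), (4, 5,
      14), (4, 6, 7), (4, 6, 14), (5, 13, 15), (5, 14, 15), (6, 7, 16), (6, 14, 16)]
    fin := [0, 1, 1, 1, 0, 0, 0, 0, 1, 9, 10, 11, 12, 0, 14, 15, 16]
    chd := [(0, 14), (1, 9), (1, 11), (1, 12)]
    steps := [(0, 4), (0, 5), (0, 6), (0, 7), (0, 13), (1, 2), (1, 3), (1, 8)] }
  rep := [0, 1, 14, 9, 11, 12, 10, 15, 16]

noncomputable def v2568 : Cov.CovD where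
  P := 3
  N := 6
  pl := [3, 8, 9]
  lev := [⟨[], [], [(0, 1)], [], [(0, 0, [2]), (1, 1, [3, 4, 5])]⟩,
    ⟨[], [(0, 0), (0, 1), (0, 3)], [(1, 3)], [], [(1, 1, [3, 4, 5]), (2, 3, [1])]⟩,
    ⟨[(0, 1)], [(0, 1), (1, 1), (1, 3)], [(1, 3)], [6], [(1, 1, [3, 4, 5]), (2, 3, [1])]⟩,
    ⟨[(0, 1), (1, 2)], [(1, 0), (1, 1), (1, 3), (1, 4), (1, 5), (2, 3)], [(0, 3), (0, 4),
      (0, 5), (3, 4), (3, 5), (4, 5)], [], [(2, 3, [1]), (4, 4, [1]), (5, 5, [1]), (6, 0,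
      [2])]⟩,
    ⟨[(0, 1), (0, 3), (1, 2), (1, 3)], [(0, 0), (0, 1), (0, 2), (1, 0), (1, 1), (1, 2), (1,
      3), (3, 0), (3, 2), (3, 3), (3, 4), (3, 5)], [(0, 0), (0, 2)], [], [(0, 0, [2]), (6, 0,
      [2]), (7, 2, [0])]⟩,
    ⟨[(0, 4), (1, 4), (3, 4)], [(3, 0), (4, 0), (4, 2)], [(0, 2)], [7], [(6, 0, [2]), (7,
      2, [0])]⟩,
    ⟨[(0, 4), (1, 4), (3, 4), (4, 5)], [(0, 0), (4, 0), (4, 2), (5, 2)], [(0, 2)], [8],
      [(0, 0, [2]), (7, 2, [0])]⟩]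
  Ta := [((0, 1), 0, 1), ((0, 9), 0, 8), ((6, 5), 0, 5), ((6, 8), 0, 7)]
  Tb := [((0, 1, 9), 0, 1, 8), ((1, 0, 3), 1, 0, 6), ((2, 3, 4), 3, 6, 4), ((3, 1, 2), 6, 1, 3),
    ((4, 2, 5), 4, 3, 5), ((5, 4, 6), 5, 4, 0), ((6, 5, 8), 0, 5, 7), ((7, 8, 9), 2, 7, 8),
    ((8, 6, 7), 7, 0, 2), ((9, 0, 7), 8, 0, 2)]
  Tc := [(1, 3, 4), (1, 3, 5), (1, 4, 5)]
  Td := [((0, 2), (0, 1), 1), ((0, 2), (0, 9), 8), ((0, 2), (6, 5), 5), ((0, 2), (6, 8), 7), ((1,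
    3), (1, 0), 0), ((1, 3), (1, 3), 6), ((1, 4), (1, 0), 0), ((1, 4), (1, 3), 6), ((1, 5),
    (1, 0), 0), ((1, 5), (1, 3), 6), ((2, 0), (7, 8), 7), ((2, 0), (7, 9), 8), ((3, 1), (2,
    3), 6), ((3, 1), (2, 4), 4), ((4, 1), (4, 2), 3), ((4, 1), (4, 5), 5), ((5, 1), (5, 4),
    4), ((5, 1), (5, 6), 0)]
  G := [[0, 0x4481884144c8cc1e2c8c418841c44814cc81cca, 0x6668246668215caa42889,
    0x81424181c2c418284182c182c182dd4, 0x2181a22181a2c481822a182a18295c], [0, 0,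
    0x666824cac421566a42889, 0x14821482c1482184211c42d518421842c8c,
    0x1218a24411a821882a11a8211a8295c]]

noncomputable def n2568 : Ent := ⟨e2568, noF, [], [], [(10, 16, [1580044410770988437309982408355971841652082177953823432505699627009, 0])]⟩

def c2568 : PLift (Cov.check n2568.C.D v2568 = true) := ⟨by decide +kernel⟩

def b2568 : PLift (entF (fidx ts) 400 2568 n2568 = true) := ⟨by decide +kernel⟩

theorem g2568 : GoodF (fidx ts) 400 2568 := GoodF.ofV v2568 n2568 c2568.down b2568.down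

/-- 4646847:2103 -/
noncomputable def e2569 : SCfg where
  D := {
    a := 7
    L := 11
    kp := 9
    inn := [(0, 1), (0, 4), (1, 0), (1, 2), (1, 3), (1, 4), (2, 1), (3, 1), (3, 4), (3, 6), (4, 0), (4,
      1), (4, 3), (4, 5), (4, 6), (5, 4), (5, 6), (6, 3), (6, 4), (6, 5)]
    mix := [(0, 0), (0, 1), (1, 1), (1, 2), (2, 1), (2, 2), (2, 3), (3, 2), (3, 4), (3, 5), (4, 0), (4,
      6), (4, 7), (5, 6), (5, 8), (6, 5), (6, 8), (6, 9), (6, 10)]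
    cl := [3, 2, 1, 6, 7, 0, 4, 5, 0, 8, 9]
    chq := [(0, 1), (1, 0), (1, 2), (1, 3), (1, 4), (1, 5), (2, 1), (3, 1), (4, 1), (5, 1)]
    rng := [(0, 1), (0, 7), (1, 0), (1, 3), (2, 3), (2, 4), (3, 1), (3, 2), (4, 2), (4, 5), (5, 4), (5,
      9), (6, 7), (6, 8), (7, 0), (7, 6), (8, 6), (8, 10), (9, 5), (9, 10), (10, 8), (10, 9)]
    lev := [] }
  links := [[1, 4, 7, 8], [4, 0, 8, 2, 9, 3], [9, 1, 8, 10], [4, 1, 9, 11, 12, 6], [7, 0, 1, 3, 6, 5, 13,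
    14], [13, 4, 6, 15], [15, 5, 4, 3, 12, 16, 17]]
  P := {
    a := 7
    N := 18
    nb := [402, 797, 1794, 6738, 24811, 41040, 233528, 16657, 1159, 3086, 772, 4616, 67656, 49200,
      8336, 139360, 135232, 98368]
    tri := [(0, 1, 4), (0, 1, 8), (0, 4, 7), (0, 7, 8), (1, 2, 8), (1, 2, 9), (1, 3, 4), (1, 3, 9), (2,
      8, 10), (2, 9, 10), (3, 4, 6), (3, 6, 12), (3, 9, 11), (3, 11, 12), (4, 5, 6), (4, 5, 13),
      (4, 7, 14), (4, 13, 14), (5, 6, 15), (5, 13, 15), (6, 12, 16), (6, 15, 17), (6, 16, 17)]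
    fin := [0, 0, 2, 3, 3, 3, 6, 0, 2, 3, 10, 11, 6, 13, 14, 6, 16, 17]
    chd := [(0, 3), (2, 3), (3, 6), (3, 13), (3, 14)]
    steps := [(0, 1), (0, 7), (2, 8), (3, 4), (3, 5), (3, 9), (6, 12), (6, 15)] }
  rep := [6, 3, 2, 0, 13, 14, 10, 11, 16, 17]

noncomputable def v2569 : Cov.CovD where
  P := 3
  N := 7
  pl := [3, 4, 9, 10]
  lev := [⟨[], [], [(2, 3)], [], [(0, 3, [1]), (1, 2, [1])]⟩,
    ⟨[], [(0, 1), (0, 2), (0, 3)], [(1, 2)], [], [(1, 2, [1]), (2, 1, [0, 2, 3, 4, 5])]⟩,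
    ⟨[(0, 1)], [(0, 2), (1, 1), (1, 2)], [(1, 2)], [6], [(1, 2, [1]), (2, 1, [0, 2, 3, 4,
      5])]⟩,
    ⟨[(0, 1), (1, 2)], [(1, 0), (1, 1), (1, 2), (2, 1)], [(0, 1)], [7], [(2, 1, [0, 2, 3,
      4, 5]), (5, 0, [1])]⟩,
    ⟨[(0, 1), (0, 3), (1, 2), (1, 3)], [(0, 2), (0, 3), (0, 4), (0, 5), (1, 1), (1, 2), (1,
      3), (1, 4), (1, 5), (3, 0), (3, 1), (3, 3), (3, 4), (3, 5)], [(3, 4), (3, 5), (4, 5)],
      [], [(0, 3, [1]), (6, 4, [1]), (7, 5, [1])]⟩,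
    ⟨[(0, 4), (1, 4), (3, 4)], [(4, 0), (4, 3), (4, 4), (4, 5)], [(0, 4)], [], [(6, 4,
      [1]), (8, 0, [1])]⟩,
    ⟨[(0, 4), (1, 3), (1, 4), (3, 4), (3, 5), (4, 5)], [(3, 0), (3, 1), (4, 0), (4, 3), (4,
      4), (4, 5), (5, 0), (5, 4)], [(0, 0)], [8, 9], [(5, 0, [1]), (8, 0, [1])]⟩]
  Ta := [((5, 4), 0, 7), ((5, 9), 0, 8), ((8, 6), 0, 4), ((8, 10), 0, 9)]
  Tb := [((0, 1, 7), 3, 2, 5), ((1, 0, 3), 2, 3, 6), ((2, 3, 4), 1, 6, 7), ((3, 1, 2), 6, 2, 1),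
    ((4, 2, 5), 7, 1, 0), ((5, 4, 9), 0, 7, 8), ((6, 7, 8), 4, 5, 0), ((7, 0, 6), 5, 3, 4),
    ((8, 6, 10), 0, 4, 9), ((9, 5, 10), 8, 0, 9), ((10, 8, 9), 9, 0, 8)]
  Tc := [(1, 0, 2), (1, 0, 3), (1, 0, 4), (1, 0, 5), (1, 2, 3), (1, 2, 4), (1, 2, 5), (1, 3, 4),
    (1, 3, 5), (1, 4, 5)]
  Td := [((0, 1), (5, 4), 7), ((0, 1), (5, 9), 8), ((0, 1), (8, 6), 4), ((0, 1), (8, 10), 9),
    ((1, 0), (2, 3), 6), ((1, 0), (2, 4), 7), ((1, 2), (2, 3), 6), ((1, 2), (2, 4), 7), ((1,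
    3), (2, 3), 6), ((1, 3), (2, 4), 7), ((1, 4), (2, 3), 6), ((1, 4), (2, 4), 7), ((1, 5),
    (2, 3), 6), ((1, 5), (2, 4), 7), ((2, 1), (1, 0), 3), ((2, 1), (1, 3), 6), ((3, 1), (0,
    1), 2), ((3, 1), (0, 7), 5), ((4, 1), (6, 7), 5), ((4, 1), (6, 8), 0), ((5, 1), (7, 0),
    3), ((5, 1), (7, 6), 4)]
  G := [[0, 0x68ee1eec16181,
    0xe1244e12a12ce128cce124612e12cce1288c4142346121c4a81823821a1226d2261c6ce,
    0xe12418632e12ce128c9e128c232c232ce124d1c,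
    0xe12e12c2121c4e12e12cb121a182d8812831e1242261212265c612e12cbe12889b], [0,
    0xeea1eec16181, 0xeec21eec21c4eec21eec21c822c124452226128892ce,
    0x22ce218422ce211422ce2144d,
    0x8821eec21322ce222ce2c89c24126624c1a8eec2122a122a1ceec21b8b]]

noncomputable def n2569 : Ent := ⟨e2569, noF, [], [], []⟩

def c2569 : PLift (Cov.check n2569.C.D v2569 = true) := ⟨by decide +kernel⟩

def b2569 : PLift (entF (fidx ts) 400 2569 n2569 = true) := ⟨by decide +kernel⟩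

theorem g2569 : GoodF (fidx ts) 400 2569 := GoodF.ofV v2569 n2569 c2569.down b2569.down

/-- 4646854:2107/2 -/
noncomputable def e2570 : SCfg where
  D := {
    a := 7
    L := 9
    kp := 7
    inn := [(0, 1), (0, 4), (1, 0), (1, 2), (1, 3), (1, 4), (2, 1), (3, 1), (3, 4), (4, 0), (4, 1), (4,
      3), (4, 5), (5, 4), (5, 6), (6, 5)]
    mix := [(0, 0), (0, 1), (1, 1), (1, 2), (2, 1), (2, 2), (2, 3), (3, 2), (3, 4), (3, 5), (3, 6), (4,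
      0), (4, 6), (4, 7), (4, 8), (5, 5), (5, 6), (5, 7), (6, 3), (6, 5), (6, 7)]
    cl := [2, 1, 0, 5, 7, 4, 3, 3, 6]
    chq := [(0, 1), (0, 2), (0, 6), (1, 0), (2, 0), (4, 6), (6, 0), (6, 4), (6, 7), (7, 6)]
    rng := [(0, 1), (0, 8), (1, 0), (1, 3), (2, 3), (2, 4), (3, 1), (3, 2), (3, 5), (3, 7), (4, 2), (4,
      5), (5, 3), (5, 4), (5, 6), (6, 5), (7, 3), (7, 8), (8, 0), (8, 7)]
    lev := [] }
  links := [[1, 4, 7, 8], [4, 0, 8, 2, 9, 3], [9, 1, 8, 10], [4, 1, 9, 11, 12, 13], [7, 0, 1, 3, 13, 5,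
    14, 15], [14, 4, 13, 12, 6], [14, 5, 12, 10]]
  P := {
    a := 7
    N := 16
    nb := [402, 797, 1794, 14866, 57515, 28752, 21536, 33041, 1159, 3086, 21316, 4616, 11368, 4152,
      33904, 16528]
    tri := [(0, 1, 4), (0, 1, 8), (0, 4, 7), (0, 7, 8), (1, 2, 8), (1, 2, 9), (1, 3, 4), (1, 3, 9), (2,
      8, 10), (2, 9, 10), (3, 4, 13), (3, 9, 11), (3, 11, 12), (3, 12, 13), (4, 5, 13), (4, 5,
      14), (4, 7, 15), (4, 14, 15), (5, 6, 12), (5, 6, 14), (5, 12, 13), (6, 10, 12), (6, 10, 14)]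
    fin := [0, 0, 2, 3, 3, 5, 6, 0, 2, 9, 6, 11, 12, 5, 5, 3]
    chd := [(0, 9), (2, 9), (9, 3), (11, 3), (12, 3)]
    steps := [(0, 1), (0, 7), (2, 8), (3, 4), (3, 15), (5, 13), (5, 14), (6, 10)] }
  rep := [9, 2, 0, 5, 12, 6, 3, 11]

noncomputable def v2570 : Cov.CovD where
  P := 3
  N := 5
  pl := [3]
  lev := [⟨[], [], [(1, 2)], [], [(0, 2, [0]), (1, 1, [0])]⟩,
    ⟨[], [(0, 0), (0, 1), (0, 2)], [(0, 1)], [], [(1, 1, [0]), (2, 0, [1, 2, 6])]⟩,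
    ⟨[(0, 1)], [(0, 1), (1, 0), (1, 1)], [(0, 1)], [5], [(1, 1, [0]), (2, 0, [1, 2, 6])]⟩,
    ⟨[(0, 1), (1, 2)], [(1, 0), (1, 1), (1, 3), (1, 4), (1, 7), (2, 0)], [(0, 3), (0, 4),
      (0, 7), (3, 4), (3, 7), (4, 7)], [], [(2, 0, [1, 2, 6]), (4, 7, [6]), (5, 4, [6]), (6,
      3, [])]⟩,
    ⟨[(0, 1), (0, 3), (1, 2), (1, 3)], [(0, 1), (0, 2), (0, 3), (0, 6), (1, 0), (1, 1), (1,
      2), (1, 3), (1, 6), (3, 0), (3, 2), (3, 3), (3, 4), (3, 6), (3, 7)], [(2, 3), (2, 6),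
      (3, 3), (3, 6)], [], [(0, 2, [0]), (6, 3, []), (7, 3, []), (8, 6, [0, 4, 7])]⟩,
    ⟨[(0, 4), (1, 4), (3, 4)], [(3, 3), (3, 4), (4, 2), (4, 3), (4, 4), (4, 6)], [(3, 3),
      (3, 4)], [], [(5, 4, [6]), (6, 3, []), (7, 3, [])]⟩,
    ⟨[(4, 5)], [(3, 4), (4, 3), (5, 3), (5, 4)], [(3, 4)], [5], [(5, 4, [6]), (7, 3, [])]⟩]
  Ta := [((6, 5), 3, 4), ((7, 3), 3, 5), ((7, 8), 3, 6)]
  Tb := [((0, 1, 8), 2, 1, 6), ((1, 0, 3), 1, 2, 5), ((2, 3, 4), 0, 5, 7), ((3, 1, 2), 5, 1, 0),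
    ((3, 1, 5), 5, 1, 4), ((3, 1, 7), 5, 1, 3), ((3, 2, 5), 5, 0, 4), ((3, 2, 7), 5, 0, 3),
    ((3, 5, 7), 5, 4, 3), ((4, 2, 5), 7, 0, 4), ((5, 3, 4), 4, 5, 7), ((5, 3, 6), 4, 5, 3),
    ((5, 4, 6), 4, 7, 3), ((7, 3, 8), 3, 5, 6), ((8, 0, 7), 6, 2, 3)]
  Tc := [(0, 1, 2), (0, 1, 6), (0, 2, 6), (6, 0, 4), (6, 0, 7), (6, 4, 7)]
  Td := [((0, 1), (2, 3), 5), ((0, 1), (2, 4), 7), ((0, 2), (2, 3), 5), ((0, 2), (2, 4), 7), ((0,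
    6), (2, 3), 5), ((0, 6), (2, 4), 7), ((1, 0), (1, 0), 2), ((1, 0), (1, 3), 5), ((2, 0),
    (0, 1), 1), ((2, 0), (0, 8), 6), ((4, 6), (5, 3), 5), ((4, 6), (5, 4), 7), ((4, 6), (5,
    6), 3), ((6, 0), (8, 0), 2), ((6, 0), (8, 7), 3), ((6, 4), (8, 0), 2), ((6, 4), (8, 7),
    3), ((6, 7), (8, 0), 2), ((6, 7), (8, 7), 3), ((7, 6), (4, 2), 0), ((7, 6), (4, 5), 4)]
  G := [[0, 0x884a48169324118f12a58514c812429ec24, 0x114194121e34994a38316a829a1c4,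
    0x48215224648a412246184448cc14829c348114d64a11189cc9,
    0x444434481a8293149492298391111af5838352419118bcc8], [0,
    0x22122219a2819885a4349c426818d14c4169c2529ec64, 0x861dd43c61b83a561e1918381c8,
    0x484452222564821b8295a48228e142e18cc812e1468442178c1142d84888cc,
    0x41544344819883a414322813e9112f68142e342612a9acc8282849]]

noncomputable def n2570 : Ent := ⟨e2570, noF, [], [], []⟩

def c2570 : PLift (Cov.check n2570.C.D v2570 = true) := ⟨by decide +kernel⟩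

def b2570 : PLift (entF (fidx ts) 400 2570 n2570 = true) := ⟨by decide +kernel⟩

theorem g2570 : GoodF (fidx ts) 400 2570 := GoodF.ofV v2570 n2570 c2570.down b2570.down

/-- 4646854:2107/1 -/
noncomputable def e2571 : SCfg where
  D := {
    a := 7
    L := 10
    kp := 8
    inn := [(0, 1), (0, 4), (1, 0), (1, 2), (1, 3), (1, 4), (2, 1), (3, 1), (3, 4), (4, 0), (4, 1), (4,
      3), (4, 5), (5, 4), (5, 6), (6, 5)]
    mix := [(0, 0), (0, 1), (1, 1), (1, 2), (2, 1), (2, 2), (2, 3), (3, 2), (3, 4), (3, 5), (3, 6), (4,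
      0), (4, 6), (4, 7), (4, 8), (5, 6), (5, 7), (5, 9), (6, 3), (6, 7), (6, 9)]
    cl := [4, 1, 0, 2, 7, 8, 3, 3, 6, 5]
    chq := [(0, 1), (0, 4), (0, 6), (1, 0), (4, 0), (6, 0), (6, 7), (6, 8), (7, 6), (8, 6)]
    rng := [(0, 1), (0, 8), (1, 0), (1, 3), (2, 3), (2, 4), (3, 1), (3, 2), (3, 7), (3, 9), (4, 2), (4,
      5), (5, 4), (5, 6), (6, 5), (6, 9), (7, 3), (7, 8), (8, 0), (8, 7), (9, 3), (9, 6)]
    lev := [] }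
  links := [[1, 4, 7, 8], [4, 0, 8, 2, 9, 3], [9, 1, 8, 10], [4, 1, 9, 11, 12, 13], [7, 0, 1, 3, 13, 5,
    14, 15], [14, 4, 13, 16, 6], [14, 5, 16, 10]]
  P := {
    a := 7
    N := 17
    nb := [402, 797, 1794, 14866, 57515, 90192, 82976, 33041, 1159, 3086, 82756, 4616, 10248, 69688,
      33904, 16528, 9312]
    tri := [(0, 1, 4), (0, 1, 8), (0, 4, 7), (0, 7, 8), (1, 2, 8), (1, 2, 9), (1, 3, 4), (1, 3, 9), (2,
      8, 10), (2, 9, 10), (3, 4, 13), (3, 9, 11), (3, 11, 12), (3, 12, 13), (4, 5, 13), (4, 5,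
      14), (4, 7, 15), (4, 14, 15), (5, 6, 14), (5, 6, 16), (5, 13, 16), (6, 10, 14), (6, 10, 16)]
    fin := [0, 0, 2, 3, 3, 5, 6, 0, 2, 9, 6, 11, 12, 5, 5, 3, 16]
    chd := [(0, 9), (2, 9), (9, 3), (11, 3), (12, 3)]
    steps := [(0, 1), (0, 7), (2, 8), (3, 4), (3, 15), (5, 13), (5, 14), (6, 10)] }
  rep := [9, 2, 6, 5, 0, 16, 3, 11, 12]

noncomputable def v2571 : Cov.CovD where
  P := 3
  N := 6
  pl := [3, 9]
  lev := [⟨[], [], [(1, 4)], [], [(0, 4, [0]), (1, 1, [0])]⟩,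
    ⟨[], [(0, 0), (0, 1), (0, 4)], [(0, 1)], [], [(1, 1, [0]), (2, 0, [1, 4, 6])]⟩,
    ⟨[(0, 1)], [(0, 1), (1, 0), (1, 1)], [(0, 1)], [2], [(1, 1, [0]), (2, 0, [1, 4, 6])]⟩,
    ⟨[(0, 1), (1, 2)], [(1, 0), (1, 1), (1, 3), (1, 7), (1, 8), (2, 0)], [(0, 3), (0, 7),
      (0, 8), (3, 7), (3, 8), (7, 8)], [], [(2, 0, [1, 4, 6]), (4, 7, [6]), (5, 8, [6]), (6,
      3, [])]⟩,
    ⟨[(0, 1), (0, 3), (1, 2), (1, 3)], [(0, 1), (0, 3), (0, 4), (0, 6), (1, 0), (1, 1), (1,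
      3), (1, 4), (1, 6), (3, 0), (3, 3), (3, 4), (3, 6), (3, 7), (3, 8)], [(3, 3), (3, 4),
      (3, 6), (4, 6)], [], [(0, 4, [0]), (6, 3, []), (7, 3, []), (8, 6, [0, 7, 8])]⟩,
    ⟨[(0, 4), (1, 4), (3, 4)], [(3, 3), (4, 3), (4, 4), (4, 6)], [(3, 3)], [5], [(6, 3,
      []), (7, 3, [])]⟩,
    ⟨[(4, 5)], [(4, 3), (5, 3)], [], [2, 5], [(7, 3, [])]⟩]
  Ta := [((6, 5), 3, 8), ((6, 9), 3, 5), ((7, 3), 3, 2), ((7, 8), 3, 6)]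
  Tb := [((0, 1, 8), 4, 1, 6), ((1, 0, 3), 1, 4, 2), ((2, 3, 4), 0, 2, 7), ((3, 1, 2), 2, 1, 0),
    ((3, 1, 7), 2, 1, 3), ((3, 1, 9), 2, 1, 5), ((3, 2, 7), 2, 0, 3), ((3, 2, 9), 2, 0, 5),
    ((3, 7, 9), 2, 3, 5), ((4, 2, 5), 7, 0, 8), ((5, 4, 6), 8, 7, 3), ((6, 5, 9), 3, 8, 5),
    ((7, 3, 8), 3, 2, 6), ((8, 0, 7), 6, 4, 3), ((9, 3, 6), 5, 2, 3)]
  Tc := [(0, 1, 4), (0, 1, 6), (0, 4, 6), (6, 0, 7), (6, 0, 8), (6, 7, 8)]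
  Td := [((0, 1), (2, 3), 2), ((0, 1), (2, 4), 7), ((0, 4), (2, 3), 2), ((0, 4), (2, 4), 7), ((0,
    6), (2, 3), 2), ((0, 6), (2, 4), 7), ((1, 0), (1, 0), 4), ((1, 0), (1, 3), 2), ((4, 0),
    (0, 1), 1), ((4, 0), (0, 8), 6), ((6, 0), (8, 0), 4), ((6, 0), (8, 7), 3), ((6, 7), (8,
    0), 4), ((6, 7), (8, 7), 3), ((6, 8), (8, 0), 4), ((6, 8), (8, 7), 3), ((7, 6), (4, 2),
    0), ((7, 6), (4, 5), 8), ((8, 6), (5, 4), 7), ((8, 6), (5, 6), 3)]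
  G := [[0, 0x843141684c486b811e42843124881a84a6416241a14ace847, 0x848e1882e164842e184c1,
    0x486292525c2278922928a4c1, 0x8168a8e32158156588217822b21c82cf21c8826128b126d2158f8c1],
    [0, 0x84c841e348644ac8284a44584c841e3c42486841e9244882841b481312ab48f,
    0x842e144842e1842e1a4c1, 0x882841d2d2d25e44162d28841b2b4c1,
    0x88812e34888217821b821d812ef3bc21614b8217821b24812ef8192f845]]

noncomputable def n2571 : Ent := ⟨e2571, noF, [], [], [(12, 16, [1580044410770988437309982408355971841652082177953823432505699639297, 0])]⟩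

def c2571 : PLift (Cov.check n2571.C.D v2571 = true) := ⟨by decide +kernel⟩

def b2571 : PLift (entF (fidx ts) 400 2571 n2571 = true) := ⟨by decide +kernel⟩

theorem g2571 : GoodF (fidx ts) 400 2571 := GoodF.ofV v2571 n2571 c2571.down b2571.down

/-- 4646854:2107/3 -/
noncomputable def e2572 : SCfg where
  D := {
    a := 7
    L := 10
    kp := 8
    inn := [(0, 1), (0, 4), (1, 0), (1, 2), (1, 3), (1, 4), (2, 1), (3, 1), (3, 4), (4, 0), (4, 1), (4,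
      3), (4, 5), (5, 4), (5, 6), (6, 5)]
    mix := [(0, 0), (0, 1), (1, 1), (1, 2), (2, 1), (2, 2), (2, 3), (3, 2), (3, 4), (3, 5), (3, 6), (4,
      0), (4, 6), (4, 7), (4, 8), (5, 5), (5, 6), (5, 7), (6, 5), (6, 7), (6, 9)]
    cl := [2, 1, 0, 7, 6, 4, 3, 3, 5, 8]
    chq := [(0, 1), (0, 2), (0, 5), (1, 0), (2, 0), (4, 5), (5, 0), (5, 4), (5, 6), (6, 5)]
    rng := [(0, 1), (0, 8), (1, 0), (1, 3), (2, 3), (2, 4), (3, 1), (3, 2), (4, 2), (4, 5), (5, 4), (5,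
      6), (5, 9), (6, 5), (7, 8), (7, 9), (8, 0), (8, 7), (9, 5), (9, 7)]
    lev := [] }
  links := [[1, 4, 7, 8], [4, 0, 8, 2, 9, 3], [9, 1, 8, 10], [4, 1, 9, 11, 12, 13], [7, 0, 1, 3, 13, 5,
    14, 15], [14, 4, 13, 12, 6], [14, 5, 12, 16]]
  P := {
    a := 7
    N := 17
    nb := [402, 797, 1794, 14866, 57515, 28752, 86048, 33041, 1159, 3086, 772, 4616, 75880, 4152,
      98416, 16528, 20544]
    tri := [(0, 1, 4), (0, 1, 8), (0, 4, 7), (0, 7, 8), (1, 2, 8), (1, 2, 9), (1, 3, 4), (1, 3, 9), (2,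
      8, 10), (2, 9, 10), (3, 4, 13), (3, 9, 11), (3, 11, 12), (3, 12, 13), (4, 5, 13), (4, 5,
      14), (4, 7, 15), (4, 14, 15), (5, 6, 12), (5, 6, 14), (5, 12, 13), (6, 12, 16), (6, 14, 16)]
    fin := [0, 0, 2, 3, 3, 5, 6, 0, 2, 9, 10, 11, 6, 5, 5, 3, 16]
    chd := [(0, 9), (2, 9), (6, 3), (9, 3), (11, 3)]
    steps := [(0, 1), (0, 7), (2, 8), (3, 4), (3, 15), (5, 13), (5, 14), (6, 12)] }
  rep := [9, 2, 0, 5, 6, 3, 11, 10, 16]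

noncomputable def v2572 : Cov.CovD where
  P := 3
  N := 6
  pl := [3, 9]
  lev := [⟨[], [], [(1, 2)], [], [(0, 2, [0]), (1, 1, [0])]⟩,
    ⟨[], [(0, 0), (0, 1), (0, 2)], [(0, 1)], [], [(1, 1, [0]), (2, 0, [1, 2, 5])]⟩,
    ⟨[(0, 1)], [(0, 1), (1, 0), (1, 1)], [(0, 1)], [7], [(1, 1, [0]), (2, 0, [1, 2, 5])]⟩,
    ⟨[(0, 1), (1, 2)], [(1, 0), (1, 1), (1, 3), (1, 4), (1, 6), (2, 0)], [(0, 3), (0, 4),
      (0, 6), (3, 4), (3, 6), (4, 6)], [], [(2, 0, [1, 2, 5]), (4, 6, [5]), (5, 4, [5]), (6,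
      3, [])]⟩,
    ⟨[(0, 1), (0, 3), (1, 2), (1, 3)], [(0, 1), (0, 2), (0, 3), (0, 5), (1, 0), (1, 1), (1,
      2), (1, 3), (1, 5), (3, 0), (3, 2), (3, 3), (3, 4), (3, 5), (3, 6)], [(2, 3), (2, 5),
      (3, 3), (3, 5)], [], [(0, 2, [0]), (6, 3, []), (7, 3, []), (8, 5, [0, 4, 6])]⟩,
    ⟨[(0, 4), (1, 4), (3, 4)], [(3, 3), (3, 4), (4, 2), (4, 3), (4, 4), (4, 5)], [(3, 3),
      (3, 4)], [], [(5, 4, [5]), (6, 3, []), (7, 3, [])]⟩,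
    ⟨[(4, 5)], [(3, 4), (4, 3), (5, 3), (5, 4)], [(3, 4)], [8], [(5, 4, [5]), (7, 3, [])]⟩]
  Ta := [((6, 5), 3, 4), ((7, 8), 3, 5), ((7, 9), 3, 8)]
  Tb := [((0, 1, 8), 2, 1, 5), ((1, 0, 3), 1, 2, 7), ((2, 3, 4), 0, 7, 6), ((3, 1, 2), 7, 1, 0),
    ((4, 2, 5), 6, 0, 4), ((5, 4, 6), 4, 6, 3), ((5, 4, 9), 4, 6, 8), ((5, 6, 9), 4, 3, 8),
    ((7, 8, 9), 3, 5, 8), ((8, 0, 7), 5, 2, 3), ((9, 5, 7), 8, 4, 3)]
  Tc := [(0, 1, 2), (0, 1, 5), (0, 2, 5), (5, 0, 4), (5, 0, 6), (5, 4, 6)]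
  Td := [((0, 1), (2, 3), 7), ((0, 1), (2, 4), 6), ((0, 2), (2, 3), 7), ((0, 2), (2, 4), 6), ((0,
    5), (2, 3), 7), ((0, 5), (2, 4), 6), ((1, 0), (1, 0), 2), ((1, 0), (1, 3), 7), ((2, 0),
    (0, 1), 1), ((2, 0), (0, 8), 5), ((4, 5), (5, 4), 6), ((4, 5), (5, 6), 3), ((4, 5), (5,
    9), 8), ((5, 0), (8, 0), 2), ((5, 0), (8, 7), 3), ((5, 4), (8, 0), 2), ((5, 4), (8, 7),
    3), ((5, 6), (8, 0), 2), ((5, 6), (8, 7), 3), ((6, 5), (4, 2), 0), ((6, 5), (4, 5), 4)]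
  G := [[0, 0xb8412b5c168127912729ee8c69516c685912e29ec24, 0x58592c34194a6ac37438d69a1c4,
    0xc69171894422258e5b246e84d2514a836d324a14fc1452994ad748e191cd8c9,
    0x14b4381254c1ac29314743b2ac3921c1af35a92c3726c39318bcc8], [0,
    0xe8953e5e3585c9e2325ec6a92a55261714dc2e48e289187249, 0xa61d5263e2953e561e7998581c8,
    0x953e14e8985ca6951e9a293a5ec8e8471454e95c65bb8de4869371ce53618cc5,
    0xeb554344a63d983648454be93c369b18fa63d983e2953e9acc8]]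

noncomputable def n2572 : Ent := ⟨e2572, noF, [], [], [(10, 16, [1580044410770988437309982408355971841652082177953823432505699639297, 0])]⟩

def c2572 : PLift (Cov.check n2572.C.D v2572 = true) := ⟨by decide +kernel⟩

def b2572 : PLift (entF (fidx ts) 400 2572 n2572 = true) := ⟨by decide +kernel⟩

theorem g2572 : GoodF (fidx ts) 400 2572 := GoodF.ofV v2572 n2572 c2572.down b2572.down

/-- 4646854:2107 -/
noncomputable def e2573 : SCfg where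
  D := {
    a := 7
    L := 11
    kp := 9
    inn := [(0, 1), (0, 4), (1, 0), (1, 2), (1, 3), (1, 4), (2, 1), (3, 1), (3, 4), (4, 0), (4, 1), (4,
      3), (4, 5), (5, 4), (5, 6), (6, 5)]
    mix := [(0, 0), (0, 1), (1, 1), (1, 2), (2, 1), (2, 2), (2, 3), (3, 2), (3, 4), (3, 5), (3, 6), (4,
      0), (4, 6), (4, 7), (4, 8), (5, 6), (5, 7), (5, 9), (6, 7), (6, 9), (6, 10)]
    cl := [2, 1, 0, 8, 6, 7, 3, 3, 5, 4, 9]
    chq := [(0, 1), (0, 2), (0, 5), (1, 0), (2, 0), (5, 0), (5, 6), (5, 7), (6, 5), (7, 5)]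
    rng := [(0, 1), (0, 8), (1, 0), (1, 3), (2, 3), (2, 4), (3, 1), (3, 2), (4, 2), (4, 5), (5, 4), (5,
      6), (6, 5), (6, 9), (7, 8), (7, 10), (8, 0), (8, 7), (9, 6), (9, 10), (10, 7), (10, 9)]
    lev := [] }
  links := [[1, 4, 7, 8], [4, 0, 8, 2, 9, 3], [9, 1, 8, 10], [4, 1, 9, 11, 12, 13], [7, 0, 1, 3, 13, 5,
    14, 15], [14, 4, 13, 16, 6], [14, 5, 16, 17]]
  P := {
    a := 7
    N := 18
    nb := [402, 797, 1794, 14866, 57515, 90192, 213024, 33041, 1159, 3086, 772, 4616, 10248, 69688,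
      163952, 16528, 139360, 81984]
    tri := [(0, 1, 4), (0, 1, 8), (0, 4, 7), (0, 7, 8), (1, 2, 8), (1, 2, 9), (1, 3, 4), (1, 3, 9), (2,
      8, 10), (2, 9, 10), (3, 4, 13), (3, 9, 11), (3, 11, 12), (3, 12, 13), (4, 5, 13), (4, 5,
      14), (4, 7, 15), (4, 14, 15), (5, 6, 14), (5, 6, 16), (5, 13, 16), (6, 14, 17), (6, 16, 17)]
    fin := [0, 0, 2, 3, 3, 5, 5, 0, 2, 9, 10, 11, 12, 5, 5, 3, 16, 17]
    chd := [(0, 9), (2, 9), (9, 3), (11, 3), (12, 3)]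
    steps := [(0, 1), (0, 7), (2, 8), (3, 4), (3, 15), (5, 6), (5, 13), (5, 14)] }
  rep := [9, 2, 0, 5, 16, 3, 11, 12, 10, 17]

noncomputable def v2573 : Cov.CovD where
  P := 3
  N := 7
  pl := [3, 9, 10]
  lev := [⟨[], [], [(1, 2)], [], [(0, 2, [0]), (1, 1, [0])]⟩,
    ⟨[], [(0, 0), (0, 1), (0, 2)], [(0, 1)], [], [(1, 1, [0]), (2, 0, [1, 2, 5])]⟩,
    ⟨[(0, 1)], [(0, 1), (1, 0), (1, 1)], [(0, 1)], [8], [(1, 1, [0]), (2, 0, [1, 2, 5])]⟩,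
    ⟨[(0, 1), (1, 2)], [(1, 0), (1, 1), (1, 3), (1, 6), (1, 7), (2, 0)], [(0, 3), (0, 6),
      (0, 7), (3, 6), (3, 7), (6, 7)], [], [(2, 0, [1, 2, 5]), (4, 6, [5]), (5, 7, [5]), (6,
      3, [])]⟩,
    ⟨[(0, 1), (0, 3), (1, 2), (1, 3)], [(0, 1), (0, 2), (0, 3), (0, 5), (1, 0), (1, 1), (1,
      2), (1, 3), (1, 5), (3, 0), (3, 2), (3, 3), (3, 5), (3, 6), (3, 7)], [(2, 3), (2, 5),
      (3, 3), (3, 5)], [], [(0, 2, [0]), (6, 3, []), (7, 3, []), (8, 5, [0, 6, 7])]⟩,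
    ⟨[(0, 4), (1, 4), (3, 4)], [(3, 3), (4, 2), (4, 3), (4, 5)], [(3, 3)], [4], [(6, 3,
      []), (7, 3, [])]⟩,
    ⟨[(4, 5)], [(4, 3), (5, 3)], [], [4, 9], [(7, 3, [])]⟩]
  Ta := [((6, 5), 3, 7), ((6, 9), 3, 4), ((7, 8), 3, 5), ((7, 10), 3, 9)]
  Tb := [((0, 1, 8), 2, 1, 5), ((1, 0, 3), 1, 2, 8), ((2, 3, 4), 0, 8, 6), ((3, 1, 2), 8, 1, 0),
    ((4, 2, 5), 6, 0, 7), ((5, 4, 6), 7, 6, 3), ((6, 5, 9), 3, 7, 4), ((7, 8, 10), 3, 5, 9),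
    ((8, 0, 7), 5, 2, 3), ((9, 6, 10), 4, 3, 9), ((10, 7, 9), 9, 3, 4)]
  Tc := [(0, 1, 2), (0, 1, 5), (0, 2, 5), (5, 0, 6), (5, 0, 7), (5, 6, 7)]
  Td := [((0, 1), (2, 3), 8), ((0, 1), (2, 4), 6), ((0, 2), (2, 3), 8), ((0, 2), (2, 4), 6), ((0,
    5), (2, 3), 8), ((0, 5), (2, 4), 6), ((1, 0), (1, 0), 2), ((1, 0), (1, 3), 8), ((2, 0),
    (0, 1), 1), ((2, 0), (0, 8), 5), ((5, 0), (8, 0), 2), ((5, 0), (8, 7), 3), ((5, 6), (8,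
    0), 2), ((5, 6), (8, 7), 3), ((5, 7), (8, 0), 2), ((5, 7), (8, 7), 3), ((6, 5), (4, 2),
    0), ((6, 5), (4, 5), 7), ((7, 5), (5, 4), 6), ((7, 5), (5, 6), 3)]
  G := [[0, 0x16aa69535c8e3953aca59e16ac69535a8e59936ac39ec24, 0x59692c39a694a561392bc6a581c8,
    0x2b8e116a46a1c4c1616a258ed493a95cdcc1671a924ed39a86598b3cd924e11a68acc1,
    0x39696c34495672c33ac586a481e8e69259ca3af95a92c371a9a692598d6abcc1], [0,
    0xc6a953e5248c65b93a5ca6953e9ca975369ec6a953e5ca975369ca2c,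
    0xa6c953e3c65b93a561c6a953e581c8,
    0xc6a953e544c6a953e5ca178a953e183186c52dc953e1488c6a4ca68c4ca68ca68cca1782ccd,
    0xa6c953e344a63d95c3a6c953e3ca6953e9a938fa61d952e3ca6953e9acc8]]

noncomputable def n2573 : Ent := ⟨e2573, noF, [], [], [(10, 17, [6903326391201334775872065844685381424292761054348340378595029940219905, 0]), (12, 16, [7334685537875745012586738086077695515070955365108989538292687704211457, 0])]⟩

def c2573 : PLift (Cov.check n2573.C.D v2573 = true) := ⟨by decide +kernel⟩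

def b2573 : PLift (entF (fidx ts) 400 2573 n2573 = true) := ⟨by decide +kernel⟩

theorem g2573 : GoodF (fidx ts) 400 2573 := GoodF.ofV v2573 n2573 c2573.down b2573.down

/-- 4646764:2109/2 -/
noncomputable def e2574 : SCfg where
  D := {
    a := 7
    L := 9
    kp := 7
    inn := [(0, 1), (0, 4), (1, 0), (1, 2), (1, 3), (1, 4), (2, 1), (3, 1), (3, 4), (4, 0), (4, 1), (4,
      3), (4, 5), (5, 4), (5, 6), (6, 5)]
    mix := [(0, 0), (0, 1), (1, 1), (1, 2), (2, 1), (2, 2), (2, 3), (3, 2), (3, 4), (3, 5), (3, 6), (4,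
      0), (4, 6), (4, 7), (5, 3), (5, 6), (5, 7), (5, 8), (6, 1), (6, 3), (6, 8)]
    cl := [4, 3, 1, 0, 6, 7, 0, 2, 5]
    chq := [(1, 2), (1, 3), (1, 4), (2, 1), (2, 6), (2, 7), (3, 1), (4, 1), (6, 2), (7, 2)]
    rng := [(0, 1), (0, 7), (1, 0), (1, 3), (1, 8), (2, 3), (2, 4), (3, 1), (3, 2), (3, 7), (4, 2), (4,
      5), (5, 4), (5, 6), (6, 5), (6, 8), (7, 0), (7, 3), (8, 1), (8, 6)]
    lev := [] }
  links := [[1, 4, 7, 8], [4, 0, 8, 2, 9, 3], [9, 1, 8, 10], [4, 1, 9, 11, 12, 13], [7, 0, 1, 3, 13, 5,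
    14], [14, 4, 13, 15, 6, 10], [10, 5, 15, 8]]
  P := {
    a := 7
    N := 16
    nb := [402, 797, 1794, 14866, 24747, 58448, 34080, 16657, 33991, 3086, 17252, 4616, 10248, 36920,
      1200, 8544]
    tri := [(0, 1, 4), (0, 1, 8), (0, 4, 7), (0, 7, 8), (1, 2, 8), (1, 2, 9), (1, 3, 4), (1, 3, 9), (2,
      8, 10), (2, 9, 10), (3, 4, 13), (3, 9, 11), (3, 11, 12), (3, 12, 13), (4, 5, 13), (4, 5,
      14), (4, 7, 14), (5, 6, 10), (5, 6, 15), (5, 10, 14), (5, 13, 15), (6, 8, 10), (6, 8, 15)]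
    fin := [0, 0, 2, 3, 3, 5, 2, 0, 2, 9, 5, 11, 12, 5, 3, 15]
    chd := [(0, 9), (2, 9), (9, 3), (11, 3), (12, 3)]
    steps := [(0, 1), (0, 7), (2, 8), (2, 6), (3, 4), (3, 14), (5, 10), (5, 13)] }
  rep := [5, 9, 3, 2, 0, 15, 11, 12]

noncomputable def v2574 : Cov.CovD where
  P := 3
  N := 5
  pl := [8]
  lev := [⟨[], [], [(3, 4)], [], [(0, 4, [1]), (1, 3, [1])]⟩,
    ⟨[], [(0, 1), (0, 3), (0, 4)], [(1, 3)], [], [(1, 3, [1]), (2, 1, [2, 3, 4])]⟩,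
    ⟨[(0, 1)], [(0, 3), (1, 0), (1, 1), (1, 3)], [(0, 1), (0, 3), (1, 3)], [], [(1, 3,
      [1]), (2, 1, [2, 3, 4]), (3, 0, [])]⟩,
    ⟨[(0, 1), (1, 2)], [(1, 0), (1, 1), (1, 3), (1, 6), (1, 7), (2, 1)], [(0, 1), (0, 6),
      (0, 7), (1, 6), (1, 7), (6, 7)], [], [(2, 1, [2, 3, 4]), (4, 6, [2]), (5, 7, [2]), (6,
      0, [])]⟩,
    ⟨[(0, 1), (0, 3), (1, 2), (1, 3)], [(0, 0), (0, 2), (0, 3), (0, 4), (1, 0), (1, 1), (1,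
      2), (1, 3), (1, 4), (3, 0), (3, 1), (3, 2), (3, 4), (3, 6), (3, 7)], [(0, 2), (0, 4),
      (2, 4)], [], [(0, 4, [1]), (6, 0, []), (7, 2, [1, 6, 7])]⟩,
    ⟨[(0, 4), (1, 4), (3, 4)], [(2, 0), (3, 0), (4, 0), (4, 2), (4, 4)], [(0, 0), (0, 2)],
      [5], [(3, 0, []), (6, 0, []), (7, 2, [1, 6, 7])]⟩,
    ⟨[(4, 5)], [(0, 3), (1, 3), (2, 0), (2, 3), (5, 0), (5, 2), (5, 3)], [(0, 3)], [5],
      [(1, 3, [1]), (3, 0, [])]⟩]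
  Ta := [((3, 1), 0, 3), ((3, 2), 0, 1), ((3, 7), 0, 2), ((6, 5), 0, 7), ((6, 8), 0, 5)]
  Tb := [((0, 1, 7), 4, 3, 2), ((1, 0, 3), 3, 4, 0), ((1, 0, 8), 3, 4, 5), ((1, 3, 8), 3, 0, 5),
    ((2, 3, 4), 1, 0, 6), ((3, 1, 2), 0, 3, 1), ((3, 1, 7), 0, 3, 2), ((3, 2, 7), 0, 1, 2),
    ((4, 2, 5), 6, 1, 7), ((5, 4, 6), 7, 6, 0), ((6, 5, 8), 0, 7, 5), ((7, 0, 3), 2, 4, 0),
    ((8, 1, 6), 5, 3, 0)]
  Tc := [(1, 2, 3), (1, 2, 4), (1, 3, 4), (2, 1, 6), (2, 1, 7), (2, 6, 7)]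
  Td := [((1, 2), (2, 3), 0), ((1, 2), (2, 4), 6), ((1, 3), (2, 3), 0), ((1, 3), (2, 4), 6), ((1,
    4), (2, 3), 0), ((1, 4), (2, 4), 6), ((2, 1), (7, 0), 4), ((2, 1), (7, 3), 0), ((2, 6),
    (7, 0), 4), ((2, 6), (7, 3), 0), ((2, 7), (7, 0), 4), ((2, 7), (7, 3), 0), ((3, 1), (1,
    0), 4), ((3, 1), (1, 3), 0), ((3, 1), (1, 8), 5), ((4, 1), (0, 1), 3), ((4, 1), (0, 7),
    2), ((6, 2), (4, 2), 1), ((6, 2), (4, 5), 7), ((7, 2), (5, 4), 6), ((7, 2), (5, 6), 0)]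
  G := [[0, 0x88124444128482c42a482a24c8268426cd, 0x2ac21862c214c1, 0x82c82c52824c68924c2,
    0x8886a34822844ea68a4c92], [0, 0, 0, 0x9481cc241658c2c12, 0x12a8441a68a4c181a24813]]

noncomputable def n2574 : Ent := ⟨e2574, noF, [], [], []⟩

def c2574 : PLift (Cov.check n2574.C.D v2574 = true) := ⟨by decide +kernel⟩

def b2574 : PLift (entF (fidx ts) 400 2574 n2574 = true) := ⟨by decide +kernel⟩

theorem g2574 : GoodF (fidx ts) 400 2574 := GoodF.ofV v2574 n2574 c2574.down b2574.down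

/-- 4646764:2109/1 -/
noncomputable def e2575 : SCfg where
  D := {
    a := 7
    L := 10
    kp := 8
    inn := [(0, 1), (0, 4), (1, 0), (1, 2), (1, 3), (1, 4), (2, 1), (3, 1), (3, 4), (4, 0), (4, 1), (4,
      3), (4, 5), (5, 4), (5, 6), (6, 5)]
    mix := [(0, 0), (0, 1), (1, 1), (1, 2), (2, 1), (2, 2), (2, 3), (3, 2), (3, 4), (3, 5), (3, 6), (4,
      0), (4, 6), (4, 7), (5, 6), (5, 7), (5, 8), (5, 9), (6, 1), (6, 8), (6, 9)]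
    cl := [4, 0, 1, 8, 6, 7, 3, 2, 5, 3]
    chq := [(0, 1), (1, 0), (1, 2), (1, 4), (2, 1), (2, 6), (2, 7), (4, 1), (6, 2), (7, 2)]
    rng := [(0, 1), (0, 7), (1, 0), (1, 3), (1, 8), (1, 9), (2, 3), (2, 4), (3, 1), (3, 2), (4, 2), (4,
      5), (5, 4), (5, 6), (6, 5), (6, 8), (7, 0), (7, 9), (8, 1), (8, 6), (9, 1), (9, 7)]
    lev := [] }
  links := [[1, 4, 7, 8], [4, 0, 8, 2, 9, 3], [9, 1, 8, 10], [4, 1, 9, 11, 12, 13], [7, 0, 1, 3, 13, 5,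
    14], [14, 4, 13, 15, 6, 16], [16, 5, 15, 8]]
  P := {
    a := 7
    N := 17
    nb := [402, 797, 1794, 14866, 24747, 122960, 98592, 16657, 99527, 3086, 772, 4616, 10248, 36920,
      65712, 8544, 16736]
    tri := [(0, 1, 4), (0, 1, 8), (0, 4, 7), (0, 7, 8), (1, 2, 8), (1, 2, 9), (1, 3, 4), (1, 3, 9), (2,
      8, 10), (2, 9, 10), (3, 4, 13), (3, 9, 11), (3, 11, 12), (3, 12, 13), (4, 5, 13), (4, 5,
      14), (4, 7, 14), (5, 6, 15), (5, 6, 16), (5, 13, 15), (5, 14, 16), (6, 8, 15), (6, 8, 16)]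
    fin := [0, 0, 2, 3, 3, 5, 2, 0, 2, 9, 10, 11, 12, 5, 3, 15, 5]
    chd := [(0, 9), (2, 9), (9, 3), (11, 3), (12, 3)]
    steps := [(0, 1), (0, 7), (2, 8), (2, 6), (3, 4), (3, 14), (5, 13), (5, 16)] }
  rep := [2, 9, 3, 5, 0, 15, 11, 12, 10]

noncomputable def v2575 : Cov.CovD where
  P := 3
  N := 6
  pl := [3, 8]
  lev := [⟨[], [], [(0, 4)], [], [(0, 4, [1]), (1, 0, [1])]⟩,
    ⟨[], [(0, 0), (0, 1), (0, 4)], [(0, 1)], [], [(1, 0, [1]), (2, 1, [0, 2, 4])]⟩,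
    ⟨[(0, 1)], [(0, 0), (1, 0), (1, 1)], [(0, 1)], [8], [(1, 0, [1]), (2, 1, [0, 2, 4])]⟩,
    ⟨[(0, 1), (1, 2)], [(1, 0), (1, 1), (1, 3), (1, 6), (1, 7), (2, 1)], [(1, 3), (1, 6),
      (1, 7), (3, 6), (3, 7), (6, 7)], [], [(2, 1, [0, 2, 4]), (4, 6, [2]), (5, 7, [2]), (6,
      3, [])]⟩,
    ⟨[(0, 1), (0, 3), (1, 2), (1, 3)], [(0, 0), (0, 2), (0, 3), (0, 4), (1, 0), (1, 1), (1,
      2), (1, 3), (1, 4), (3, 1), (3, 2), (3, 3), (3, 4), (3, 6), (3, 7)], [(2, 3), (2, 4),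
      (3, 4)], [], [(0, 4, [1]), (6, 3, []), (7, 2, [1, 6, 7])]⟩,
    ⟨[(0, 4), (1, 4), (3, 4)], [(3, 3), (4, 2), (4, 3), (4, 4)], [(2, 3), (3, 3)], [5],
      [(6, 3, []), (7, 2, [1, 6, 7]), (9, 3, [])]⟩,
    ⟨[(4, 5)], [(0, 0), (1, 0), (2, 0), (5, 0), (5, 2), (5, 3)], [(0, 3)], [5], [(1, 0,
      [1]), (9, 3, [])]⟩]
  Ta := [((6, 5), 3, 7), ((6, 8), 3, 5), ((9, 1), 3, 0), ((9, 7), 3, 2)]
  Tb := [((0, 1, 7), 4, 0, 2), ((1, 0, 3), 0, 4, 8), ((1, 0, 8), 0, 4, 5), ((1, 0, 9), 0, 4, 3),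
    ((1, 3, 8), 0, 8, 5), ((1, 3, 9), 0, 8, 3), ((1, 8, 9), 0, 5, 3), ((2, 3, 4), 1, 8, 6),
    ((3, 1, 2), 8, 0, 1), ((4, 2, 5), 6, 1, 7), ((5, 4, 6), 7, 6, 3), ((6, 5, 8), 3, 7, 5),
    ((7, 0, 9), 2, 4, 3), ((8, 1, 6), 5, 0, 3), ((9, 1, 7), 3, 0, 2)]
  Tc := [(1, 0, 2), (1, 0, 4), (1, 2, 4), (2, 1, 6), (2, 1, 7), (2, 6, 7)]
  Td := [((0, 1), (1, 0), 4), ((0, 1), (1, 3), 8), ((0, 1), (1, 8), 5), ((0, 1), (1, 9), 3), ((1,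
    0), (2, 3), 8), ((1, 0), (2, 4), 6), ((1, 2), (2, 3), 8), ((1, 2), (2, 4), 6), ((1, 4),
    (2, 3), 8), ((1, 4), (2, 4), 6), ((2, 1), (7, 0), 4), ((2, 1), (7, 9), 3), ((2, 6), (7,
    0), 4), ((2, 6), (7, 9), 3), ((2, 7), (7, 0), 4), ((2, 7), (7, 9), 3), ((4, 1), (0, 1),
    0), ((4, 1), (0, 7), 2), ((6, 2), (4, 2), 1), ((6, 2), (4, 5), 7), ((7, 2), (5, 4), 6),
    ((7, 2), (5, 6), 3)]
  G := [[0, 0x611244c11228611288e, 0x8c6218221c442214221c88a8e88618a8e41c644e81642e84ca1cce,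
    0xa18435261c1843d2c61828c2, 0xa144ab3a145616184abb4ca18a18c8c2], [0,
    0xe11284e11244e14228b, 0x88218821c44421444218c82a4182a41c4268142681cce,
    0xe1842d92e1842d92c42, 0xe12488824b14c161824bb4c86]]

noncomputable def n2575 : Ent := ⟨e2575, noF, [], [], [(10, 16, [1580044410770988437309982408355971841652082177953823432505699655681, 0])]⟩

def c2575 : PLift (Cov.check n2575.C.D v2575 = true) := ⟨by decide +kernel⟩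

def b2575 : PLift (entF (fidx ts) 400 2575 n2575 = true) := ⟨by decide +kernel⟩

theorem g2575 : GoodF (fidx ts) 400 2575 := GoodF.ofV v2575 n2575 c2575.down b2575.down

/-- 4646764:2109/3 -/
noncomputable def e2576 : SCfg where
  D := {
    a := 7
    L := 10
    kp := 8
    inn := [(0, 1), (0, 4), (1, 0), (1, 2), (1, 3), (1, 4), (2, 1), (3, 1), (3, 4), (4, 0), (4, 1), (4,
      3), (4, 5), (5, 4), (5, 6), (6, 5)]
    mix := [(0, 0), (0, 1), (1, 1), (1, 2), (2, 1), (2, 2), (2, 3), (3, 2), (3, 4), (3, 5), (3, 6), (4,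
      0), (4, 6), (4, 7), (5, 6), (5, 7), (5, 8), (5, 9), (6, 3), (6, 8), (6, 9)]
    cl := [2, 3, 1, 4, 7, 8, 0, 0, 5, 6]
    chq := [(0, 4), (1, 2), (1, 3), (2, 1), (2, 7), (2, 8), (3, 1), (4, 0), (7, 2), (8, 2)]
    rng := [(0, 1), (0, 7), (1, 0), (1, 3), (2, 3), (2, 4), (3, 1), (3, 2), (3, 8), (3, 9), (4, 2), (4,
      5), (5, 4), (5, 6), (6, 5), (6, 8), (7, 0), (7, 9), (8, 3), (8, 6), (9, 3), (9, 7)]
    lev := [] }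
  links := [[1, 4, 7, 8], [4, 0, 8, 2, 9, 3], [9, 1, 8, 10], [4, 1, 9, 11, 12, 13], [7, 0, 1, 3, 13, 5,
    14], [14, 4, 13, 15, 6, 16], [16, 5, 15, 10]]
  P := {
    a := 7
    N := 17
    nb := [402, 797, 1794, 14866, 24747, 122960, 99360, 16657, 1159, 3086, 99140, 4616, 10248, 36920,
      65712, 9312, 17504]
    tri := [(0, 1, 4), (0, 1, 8), (0, 4, 7), (0, 7, 8), (1, 2, 8), (1, 2, 9), (1, 3, 4), (1, 3, 9), (2,
      8, 10), (2, 9, 10), (3, 4, 13), (3, 9, 11), (3, 11, 12), (3, 12, 13), (4, 5, 13), (4, 5,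
      14), (4, 7, 14), (5, 6, 15), (5, 6, 16), (5, 13, 15), (5, 14, 16), (6, 10, 15), (6, 10, 16)]
    fin := [0, 0, 2, 0, 4, 5, 5, 0, 2, 9, 5, 11, 12, 4, 4, 15, 16]
    chd := [(0, 9), (0, 11), (0, 12), (2, 9), (5, 4)]
    steps := [(0, 1), (0, 3), (0, 7), (2, 8), (4, 13), (4, 14), (5, 6), (5, 10)] }
  rep := [4, 9, 0, 2, 5, 15, 16, 11, 12]

noncomputable def v2576 : Cov.CovD where
  P := 3
  N := 6
  pl := [8, 9]
  lev := [⟨[], [], [(2, 3)], [], [(0, 2, [1, 7, 8]), (1, 3, [1])]⟩,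
    ⟨[], [(0, 1), (0, 2), (0, 3)], [(1, 3)], [], [(1, 3, [1]), (2, 1, [2, 3])]⟩,
    ⟨[(0, 1)], [(0, 3), (1, 1), (1, 3), (1, 4)], [(1, 3), (1, 4), (3, 4)], [], [(1, 3,
      [1]), (2, 1, [2, 3]), (3, 4, [0])]⟩,
    ⟨[(0, 1), (1, 2)], [(1, 0), (1, 1), (1, 3), (1, 7), (1, 8), (2, 1)], [(0, 1), (0, 7),
      (0, 8), (1, 7), (1, 8), (7, 8)], [], [(2, 1, [2, 3]), (4, 7, [2]), (5, 8, [2]), (6, 0,
      [4])]⟩,
    ⟨[(0, 1), (0, 3), (1, 2), (1, 3)], [(0, 0), (0, 2), (0, 3), (1, 0), (1, 1), (1, 2), (1,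
      3), (3, 0), (3, 1), (3, 2), (3, 7), (3, 8)], [(0, 0), (0, 2)], [], [(0, 2, [1, 7, 8]),
      (6, 0, [4]), (7, 0, [4])]⟩,
    ⟨[(0, 4), (1, 4), (3, 4)], [(3, 0), (4, 0), (4, 2)], [(0, 0)], [5, 6], [(6, 0, [4]),
      (7, 0, [4])]⟩,
    ⟨[(4, 5)], [(2, 4), (5, 0), (5, 4)], [], [5, 6], [(3, 4, [0])]⟩]
  Ta := [((6, 5), 0, 8), ((6, 8), 0, 5), ((7, 0), 0, 2), ((7, 9), 0, 6)]
  Tb := [((0, 1, 7), 2, 3, 0), ((1, 0, 3), 3, 2, 4), ((2, 3, 4), 1, 4, 7), ((3, 1, 2), 4, 3, 1),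
    ((3, 1, 8), 4, 3, 5), ((3, 1, 9), 4, 3, 6), ((3, 2, 8), 4, 1, 5), ((3, 2, 9), 4, 1, 6),
    ((3, 8, 9), 4, 5, 6), ((4, 2, 5), 7, 1, 8), ((5, 4, 6), 8, 7, 0), ((6, 5, 8), 0, 8, 5),
    ((7, 0, 9), 0, 2, 6), ((8, 3, 6), 5, 4, 0), ((9, 3, 7), 6, 4, 0)]
  Tc := [(1, 2, 3), (2, 1, 7), (2, 1, 8), (2, 7, 8)]
  Td := [((0, 4), (6, 5), 8), ((0, 4), (6, 8), 5), ((0, 4), (7, 0), 2), ((0, 4), (7, 9), 6), ((1,
    2), (2, 3), 4), ((1, 2), (2, 4), 7), ((1, 3), (2, 3), 4), ((1, 3), (2, 4), 7), ((2, 1),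
    (0, 1), 3), ((2, 1), (0, 7), 0), ((2, 7), (0, 1), 3), ((2, 7), (0, 7), 0), ((2, 8), (0,
    1), 3), ((2, 8), (0, 7), 0), ((3, 1), (1, 0), 2), ((3, 1), (1, 3), 4), ((4, 0), (3, 1),
    3), ((4, 0), (3, 2), 1), ((4, 0), (3, 8), 5), ((4, 0), (3, 9), 6), ((7, 2), (4, 2), 1),
    ((7, 2), (4, 5), 8), ((8, 2), (5, 4), 7), ((8, 2), (5, 6), 0)]
  G := [[0, 0x817e424412ac2a14be82192e826c1, 0, 0x812e428142e8241d2e821d2,
    0x12248883c2441638a42284d12848142e841dbe845d6], [0, 0x817e42512e42a14be82192e826c1,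
    0x111e2118111e8114a, 0x812e428142e824d12e421d2,
    0x81c2443618a4c228228228d811a84141e84d2698a4dd2]]

noncomputable def n2576 : Ent := ⟨e2576, noF, [], [], []⟩

def c2576 : PLift (Cov.check n2576.C.D v2576 = true) := ⟨by decide +kernel⟩

def b2576 : PLift (entF (fidx ts) 400 2576 n2576 = true) := ⟨by decide +kernel⟩

theorem g2576 : GoodF (fidx ts) 400 2576 := GoodF.ofV v2576 n2576 c2576.down b2576.down

/-- 4646764:2109/4 -/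
noncomputable def e2577 : SCfg where
  D := {
    a := 7
    L := 10
    kp := 8
    inn := [(0, 1), (0, 4), (1, 0), (1, 2), (1, 3), (1, 4), (2, 1), (3, 1), (3, 4), (4, 0), (4, 1), (4,
      3), (4, 5), (5, 4), (5, 6), (6, 5)]
    mix := [(0, 0), (0, 1), (1, 1), (1, 2), (2, 1), (2, 2), (2, 3), (3, 2), (3, 4), (3, 5), (3, 6), (4,
      0), (4, 6), (4, 7), (5, 3), (5, 6), (5, 7), (5, 8), (6, 3), (6, 8), (6, 9)]
    cl := [2, 3, 1, 4, 6, 7, 0, 0, 5, 8]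
    chq := [(0, 8), (1, 2), (1, 3), (2, 1), (2, 6), (2, 7), (3, 1), (6, 2), (7, 2), (8, 0)]
    rng := [(0, 1), (0, 7), (1, 0), (1, 3), (2, 3), (2, 4), (3, 1), (3, 2), (3, 7), (3, 9), (4, 2), (4,
      5), (5, 4), (5, 6), (6, 5), (6, 8), (7, 0), (7, 3), (8, 6), (8, 9), (9, 3), (9, 8)]
    lev := [] }
  links := [[1, 4, 7, 8], [4, 0, 8, 2, 9, 3], [9, 1, 8, 10], [4, 1, 9, 11, 12, 13], [7, 0, 1, 3, 13, 5,
    14], [14, 4, 13, 15, 6, 10], [10, 5, 15, 16]]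
  P := {
    a := 7
    N := 17
    nb := [402, 797, 1794, 14866, 24747, 58448, 99360, 16657, 1159, 3086, 82788, 4616, 10248, 36920,
      1200, 73824, 33856]
    tri := [(0, 1, 4), (0, 1, 8), (0, 4, 7), (0, 7, 8), (1, 2, 8), (1, 2, 9), (1, 3, 4), (1, 3, 9), (2,
      8, 10), (2, 9, 10), (3, 4, 13), (3, 9, 11), (3, 11, 12), (3, 12, 13), (4, 5, 13), (4, 5,
      14), (4, 7, 14), (5, 6, 10), (5, 6, 15), (5, 10, 14), (5, 13, 15), (6, 10, 16), (6, 15, 16)]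
    fin := [0, 0, 2, 0, 0, 5, 5, 0, 2, 9, 10, 11, 12, 5, 5, 15, 16]
    chd := [(0, 9), (0, 11), (0, 12), (2, 9), (5, 16)]
    steps := [(0, 1), (0, 3), (0, 4), (0, 7), (2, 8), (5, 6), (5, 13), (5, 14)] }
  rep := [5, 9, 0, 2, 10, 15, 11, 12, 16]

noncomputable def v2577 : Cov.CovD where
  P := 3
  N := 6
  pl := [3, 8]
  lev := [⟨[], [], [(2, 3)], [], [(0, 2, [1, 6, 7]), (1, 3, [1])]⟩,
    ⟨[], [(0, 1), (0, 2), (0, 3)], [(1, 3)], [], [(1, 3, [1]), (2, 1, [2, 3])]⟩,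
    ⟨[(0, 1)], [(0, 3), (1, 1), (1, 3)], [(1, 3)], [4], [(1, 3, [1]), (2, 1, [2, 3])]⟩,
    ⟨[(0, 1), (1, 2)], [(1, 0), (1, 1), (1, 3), (1, 6), (1, 7), (2, 1)], [(0, 1), (0, 6),
      (0, 7), (1, 6), (1, 7), (6, 7)], [], [(2, 1, [2, 3]), (4, 6, [2]), (5, 7, [2]), (6, 0,
      [8])]⟩,
    ⟨[(0, 1), (0, 3), (1, 2), (1, 3)], [(0, 0), (0, 2), (0, 3), (1, 0), (1, 1), (1, 2), (1,
      3), (3, 0), (3, 1), (3, 2), (3, 6), (3, 7)], [(0, 0), (0, 2)], [], [(0, 2, [1, 6, 7]),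
      (6, 0, [8]), (7, 0, [8])]⟩,
    ⟨[(0, 4), (1, 4), (3, 4)], [(3, 0), (4, 0), (4, 2)], [(0, 0)], [4, 5], [(6, 0, [8]),
      (7, 0, [8])]⟩,
    ⟨[(4, 5)], [(5, 0), (5, 8)], [], [4, 5], [(9, 8, [0])]⟩]
  Ta := [((6, 5), 0, 7), ((6, 8), 0, 5), ((7, 0), 0, 2), ((7, 3), 0, 4)]
  Tb := [((0, 1, 7), 2, 3, 0), ((1, 0, 3), 3, 2, 4), ((2, 3, 4), 1, 4, 6), ((3, 1, 2), 4, 3, 1),
    ((3, 1, 7), 4, 3, 0), ((3, 1, 9), 4, 3, 8), ((3, 2, 7), 4, 1, 0), ((3, 2, 9), 4, 1, 8),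
    ((3, 7, 9), 4, 0, 8), ((4, 2, 5), 6, 1, 7), ((5, 4, 6), 7, 6, 0), ((6, 5, 8), 0, 7, 5),
    ((7, 0, 3), 0, 2, 4), ((8, 6, 9), 5, 0, 8), ((9, 3, 8), 8, 4, 5)]
  Tc := [(1, 2, 3), (2, 1, 6), (2, 1, 7), (2, 6, 7)]
  Td := [((0, 8), (6, 5), 7), ((0, 8), (6, 8), 5), ((0, 8), (7, 0), 2), ((0, 8), (7, 3), 4), ((1,
    2), (2, 3), 4), ((1, 2), (2, 4), 6), ((1, 3), (2, 3), 4), ((1, 3), (2, 4), 6), ((2, 1),
    (0, 1), 3), ((2, 1), (0, 7), 0), ((2, 6), (0, 1), 3), ((2, 6), (0, 7), 0), ((2, 7), (0,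
    1), 3), ((2, 7), (0, 7), 0), ((3, 1), (1, 0), 2), ((3, 1), (1, 3), 4), ((6, 2), (4, 2),
    1), ((6, 2), (4, 5), 7), ((7, 2), (5, 4), 6), ((7, 2), (5, 6), 0), ((8, 0), (9, 3), 4),
    ((8, 0), (9, 8), 5)]
  G := [[0, 0xd13e4217642a1d3e8293a426c1, 0, 0x93a4253682c917e42152,
    0x122488b82453684c128481dbe841d6], [0, 0x111e4211642a111e8211a426c1, 0x111e4118111e8114c,
    0xd7a428db6824111e421d2, 0xb6c2411684c128128128d8111e841d42688a4413]]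

noncomputable def n2577 : Ent := ⟨e2577, noF, [], [], [(8, 16, [1580044410770988437309982408355971841652082177953823432505699655681, 0])]⟩

def c2577 : PLift (Cov.check n2577.C.D v2577 = true) := ⟨by decide +kernel⟩

def b2577 : PLift (entF (fidx ts) 400 2577 n2577 = true) := ⟨by decide +kernel⟩

theorem g2577 : GoodF (fidx ts) 400 2577 := GoodF.ofV v2577 n2577 c2577.down b2577.down

/-- 4646764:2109 -/
noncomputable def e2578 : SCfg where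
  D := {
    a := 7
    L := 11
    kp := 9
    inn := [(0, 1), (0, 4), (1, 0), (1, 2), (1, 3), (1, 4), (2, 1), (3, 1), (3, 4), (4, 0), (4, 1), (4,
      3), (4, 5), (5, 4), (5, 6), (6, 5)]
    mix := [(0, 0), (0, 1), (1, 1), (1, 2), (2, 1), (2, 2), (2, 3), (3, 2), (3, 4), (3, 5), (3, 6), (4,
      0), (4, 6), (4, 7), (5, 6), (5, 7), (5, 8), (5, 9), (6, 8), (6, 9), (6, 10)]
    cl := [2, 3, 1, 9, 6, 7, 0, 0, 4, 5, 8]
    chq := [(0, 8), (1, 2), (1, 3), (2, 1), (2, 6), (2, 7), (3, 1), (6, 2), (7, 2), (8, 0)]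
    rng := [(0, 1), (0, 7), (1, 0), (1, 3), (2, 3), (2, 4), (3, 1), (3, 2), (4, 2), (4, 5), (5, 4), (5,
      6), (6, 5), (6, 8), (7, 0), (7, 9), (8, 6), (8, 10), (9, 7), (9, 10), (10, 8), (10, 9)]
    lev := [] }
  links := [[1, 4, 7, 8], [4, 0, 8, 2, 9, 3], [9, 1, 8, 10], [4, 1, 9, 11, 12, 13], [7, 0, 1, 3, 13, 5,
    14], [14, 4, 13, 15, 6, 16], [16, 5, 15, 17]]
  P := {
    a := 7
    N := 18
    nb := [402, 797, 1794, 14866, 24747, 122960, 229408, 16657, 1159, 3086, 772, 4616, 10248, 36920,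
      65712, 139360, 147552, 98368]
    tri := [(0, 1, 4), (0, 1, 8), (0, 4, 7), (0, 7, 8), (1, 2, 8), (1, 2, 9), (1, 3, 4), (1, 3, 9), (2,
      8, 10), (2, 9, 10), (3, 4, 13), (3, 9, 11), (3, 11, 12), (3, 12, 13), (4, 5, 13), (4, 5,
      14), (4, 7, 14), (5, 6, 15), (5, 6, 16), (5, 13, 15), (5, 14, 16), (6, 15, 17), (6, 16, 17)]
    fin := [0, 0, 2, 0, 0, 5, 5, 0, 2, 9, 10, 11, 12, 5, 5, 15, 16, 17]
    chd := [(0, 9), (0, 11), (0, 12), (2, 9), (5, 17)]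
    steps := [(0, 1), (0, 3), (0, 4), (0, 7), (2, 8), (5, 6), (5, 13), (5, 14)] }
  rep := [5, 9, 0, 2, 15, 16, 11, 12, 17, 10]

noncomputable def v2578 : Cov.CovD where
  P := 3
  N := 7
  pl := [3, 8, 9]
  lev := [⟨[], [], [(2, 3)], [], [(0, 2, [1, 6, 7]), (1, 3, [1])]⟩,
    ⟨[], [(0, 1), (0, 2), (0, 3)], [(1, 3)], [], [(1, 3, [1]), (2, 1, [2, 3])]⟩,
    ⟨[(0, 1)], [(0, 3), (1, 1), (1, 3)], [(1, 3)], [9], [(1, 3, [1]), (2, 1, [2, 3])]⟩,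
    ⟨[(0, 1), (1, 2)], [(1, 0), (1, 1), (1, 3), (1, 6), (1, 7), (2, 1)], [(0, 1), (0, 6),
      (0, 7), (1, 6), (1, 7), (6, 7)], [], [(2, 1, [2, 3]), (4, 6, [2]), (5, 7, [2]), (6, 0,
      [8])]⟩,
    ⟨[(0, 1), (0, 3), (1, 2), (1, 3)], [(0, 0), (0, 2), (0, 3), (1, 0), (1, 1), (1, 2), (1,
      3), (3, 0), (3, 1), (3, 2), (3, 6), (3, 7)], [(0, 0), (0, 2)], [], [(0, 2, [1, 6, 7]),
      (6, 0, [8]), (7, 0, [8])]⟩,
    ⟨[(0, 4), (1, 4), (3, 4)], [(3, 0), (4, 0), (4, 2)], [(0, 0)], [4, 5], [(6, 0, [8]),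
      (7, 0, [8])]⟩,
    ⟨[(4, 5)], [(5, 0), (5, 8)], [], [4, 5], [(10, 8, [0])]⟩]
  Ta := [((6, 5), 0, 7), ((6, 8), 0, 4), ((7, 0), 0, 2), ((7, 9), 0, 5)]
  Tb := [((0, 1, 7), 2, 3, 0), ((1, 0, 3), 3, 2, 9), ((2, 3, 4), 1, 9, 6), ((3, 1, 2), 9, 3, 1),
    ((4, 2, 5), 6, 1, 7), ((5, 4, 6), 7, 6, 0), ((6, 5, 8), 0, 7, 4), ((7, 0, 9), 0, 2, 5),
    ((8, 6, 10), 4, 0, 8), ((9, 7, 10), 5, 0, 8), ((10, 8, 9), 8, 4, 5)]
  Tc := [(1, 2, 3), (2, 1, 6), (2, 1, 7), (2, 6, 7)]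
  Td := [((0, 8), (6, 5), 7), ((0, 8), (6, 8), 4), ((0, 8), (7, 0), 2), ((0, 8), (7, 9), 5), ((1,
    2), (2, 3), 9), ((1, 2), (2, 4), 6), ((1, 3), (2, 3), 9), ((1, 3), (2, 4), 6), ((2, 1),
    (0, 1), 3), ((2, 1), (0, 7), 0), ((2, 6), (0, 1), 3), ((2, 6), (0, 7), 0), ((2, 7), (0,
    1), 3), ((2, 7), (0, 7), 0), ((3, 1), (1, 0), 2), ((3, 1), (1, 3), 9), ((6, 2), (4, 2),
    1), ((6, 2), (4, 5), 7), ((7, 2), (5, 4), 6), ((7, 2), (5, 6), 0), ((8, 0), (10, 8), 4),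
    ((8, 0), (10, 9), 5)]
  G := [[0, 0xd17e425493ac2a1dbe825493ac26c1, 0, 0xd17e4281dbe824d17e421d2,
    0x122488b7c2453698a4c1284812841dbe841dbe84dd6], [0, 0xd17e42d17e42a1dbe821dbe826c1,
    0x111e4118111e418111e81111e815ca, 0xd17e4281dbe8241dbe821d2,
    0xb7c2453698a4c128128128d812841dbe841dbe84dd2]]

noncomputable def n2578 : Ent := ⟨e2578, noF, [], [], [(8, 17, [6903326391201334775872065844685381424292761054348340378595029940236289, 0]), (10, 17, [6903326391201334775872065844685381424292761054348340378595029940240385, 0]), (10, 16, [7334685537875745012586738086077695515070955365108989538292687704231937, 0])]⟩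

def c2578 : PLift (Cov.check n2578.C.D v2578 = true) := ⟨by decide +kernel⟩

def b2578 : PLift (entF (fidx ts) 400 2578 n2578 = true) := ⟨by decide +kernel⟩

theorem g2578 : GoodF (fidx ts) 400 2578 := GoodF.ofV v2578 n2578 c2578.down b2578.down

/-- 4647844:2110/1 -/
noncomputable def e2579 : SCfg where
  D := {
    a := 7
    L := 10
    kp := 8
    inn := [(0, 1), (0, 4), (1, 0), (1, 2), (1, 3), (1, 4), (2, 1), (3, 1), (3, 4), (4, 0), (4, 1), (4,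
      3), (4, 5), (4, 6), (5, 4), (6, 4)]
    mix := [(0, 0), (0, 1), (1, 1), (1, 2), (2, 1), (2, 2), (2, 3), (3, 2), (3, 4), (3, 5), (3, 6), (3,
      7), (4, 0), (4, 7), (4, 8), (5, 7), (5, 8), (5, 9), (6, 0), (6, 3), (6, 8)]
    cl := [3, 0, 1, 2, 5, 6, 7, 3, 4, 8]
    chq := [(0, 1), (0, 5), (0, 6), (0, 7), (1, 0), (3, 4), (4, 3), (5, 0), (6, 0), (7, 0)]
    rng := [(0, 1), (0, 3), (1, 0), (1, 3), (2, 3), (2, 4), (3, 0), (3, 1), (3, 2), (3, 8), (4, 2), (4,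
      5), (5, 4), (5, 6), (6, 5), (6, 7), (7, 6), (7, 9), (8, 3), (8, 9), (9, 7), (9, 8)]
    lev := [] }
  links := [[1, 4, 7, 8], [4, 0, 8, 2, 9, 3], [9, 1, 8, 10], [4, 1, 9, 11, 12, 13, 14], [7, 0, 1, 3, 14,
    5, 15, 6], [15, 4, 14, 16], [7, 4, 15, 10]]
  P := {
    a := 7
    N := 17
    nb := [402, 797, 1794, 31250, 49387, 114704, 33936, 1361, 1159, 3086, 33732, 4616, 10248, 20488,
      73784, 66672, 49184]
    tri := [(0, 1, 4), (0, 1, 8), (0, 4, 7), (0, 7, 8), (1, 2, 8), (1, 2, 9), (1, 3, 4), (1, 3, 9), (2,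
      8, 10), (2, 9, 10), (3, 4, 14), (3, 9, 11), (3, 11, 12), (3, 12, 13), (3, 13, 14), (4, 5,
      14), (4, 5, 15), (4, 6, 7), (4, 6, 15), (5, 14, 16), (5, 15, 16), (6, 7, 10), (6, 10, 15)]
    fin := [0, 1, 1, 1, 0, 0, 0, 0, 1, 9, 10, 11, 12, 13, 0, 15, 16]
    chd := [(0, 15), (1, 9), (1, 11), (1, 12), (1, 13)]
    steps := [(0, 4), (0, 5), (0, 6), (0, 7), (0, 14), (1, 2), (1, 3), (1, 8)] }
  rep := [1, 9, 10, 0, 15, 11, 12, 13, 16]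

noncomputable def v2579 : Cov.CovD where
  P := 3
  N := 6
  pl := [3, 9]
  lev := [⟨[], [], [(0, 3)], [], [(0, 3, [4]), (1, 0, [1, 5, 6, 7])]⟩,
    ⟨[], [(0, 0), (0, 1), (0, 3)], [(0, 1)], [], [(1, 0, [1, 5, 6, 7]), (2, 1, [0])]⟩,
    ⟨[(0, 1)], [(0, 0), (1, 0), (1, 1)], [(0, 1)], [2], [(1, 0, [1, 5, 6, 7]), (2, 1,
      [0])]⟩,
    ⟨[(0, 1), (1, 2)], [(1, 0), (1, 1), (1, 3), (1, 5), (1, 6), (1, 7), (2, 1)], [(1, 3),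
      (1, 5), (1, 6), (1, 7), (3, 5), (3, 6), (3, 7), (5, 6), (5, 7), (6, 7)], [], [(2, 1,
      [0]), (4, 5, [0]), (5, 6, [0]), (6, 7, [0]), (7, 3, [4])]⟩,
    ⟨[(0, 1), (0, 3), (1, 2), (1, 3)], [(0, 0), (0, 3), (0, 4), (1, 0), (1, 1), (1, 3), (1,
      4), (3, 1), (3, 3), (3, 4), (3, 5), (3, 6), (3, 7)], [(3, 3), (3, 4)], [], [(0, 3,
      [4]), (7, 3, [4]), (8, 4, [3])]⟩,
    ⟨[(0, 4), (1, 4), (3, 4)], [(3, 3), (4, 3), (4, 4)], [(3, 4)], [8], [(7, 3, [4]), (8,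
      4, [3])]⟩,
    ⟨[(0, 4), (1, 4), (3, 4), (4, 5)], [(0, 3), (4, 3), (4, 4), (5, 4)], [(3, 4)], [2],
      [(0, 3, [4]), (8, 4, [3])]⟩]
  Ta := [((0, 1), 3, 0), ((0, 3), 3, 2), ((7, 6), 3, 7), ((7, 9), 3, 8)]
  Tb := [((0, 1, 3), 3, 0, 2), ((1, 0, 3), 0, 3, 2), ((2, 3, 4), 1, 2, 5), ((3, 0, 1), 2, 3, 0),
    ((3, 0, 2), 2, 3, 1), ((3, 0, 8), 2, 3, 4), ((3, 1, 2), 2, 0, 1), ((3, 1, 8), 2, 0, 4),
    ((3, 2, 8), 2, 1, 4), ((4, 2, 5), 5, 1, 6), ((5, 4, 6), 6, 5, 7), ((6, 5, 7), 7, 6, 3),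
    ((7, 6, 9), 3, 7, 8), ((8, 3, 9), 4, 2, 8), ((9, 7, 8), 8, 3, 4)]
  Tc := [(0, 1, 5), (0, 1, 6), (0, 1, 7), (0, 5, 6), (0, 5, 7), (0, 6, 7)]
  Td := [((0, 1), (1, 0), 3), ((0, 1), (1, 3), 2), ((0, 5), (1, 0), 3), ((0, 5), (1, 3), 2), ((0,
    6), (1, 0), 3), ((0, 6), (1, 3), 2), ((0, 7), (1, 0), 3), ((0, 7), (1, 3), 2), ((1, 0),
    (2, 3), 2), ((1, 0), (2, 4), 5), ((3, 4), (0, 1), 0), ((3, 4), (0, 3), 2), ((3, 4), (7,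
    6), 7), ((3, 4), (7, 9), 8), ((4, 3), (8, 3), 2), ((4, 3), (8, 9), 8), ((5, 0), (4, 2),
    1), ((5, 0), (4, 5), 6), ((6, 0), (5, 4), 5), ((6, 0), (5, 6), 7), ((7, 0), (6, 5), 6),
    ((7, 0), (6, 7), 3)]
  G := [[0, 0x11644a891be1481, 0xc211846ac1184a, 0x424188295ca14c2, 0x93a4188222ca18c8414a1846],
    [0, 0x885c13618449814a1, 0x4141481c1842eb18c2, 0x8491f21484, 0x289823a18491541886]]

noncomputable def n2579 : Ent := ⟨e2579, noF, [], [], []⟩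

def c2579 : PLift (Cov.check n2579.C.D v2579 = true) := ⟨by decide +kernel⟩

def b2579 : PLift (entF (fidx ts) 400 2579 n2579 = true) := ⟨by decide +kernel⟩

theorem g2579 : GoodF (fidx ts) 400 2579 := GoodF.ofV v2579 n2579 c2579.down b2579.down

/-- 4647844:2110 -/
noncomputable def e2580 : SCfg where
  D := {
    a := 7
    L := 11
    kp := 9
    inn := [(0, 1), (0, 4), (1, 0), (1, 2), (1, 3), (1, 4), (2, 1), (3, 1), (3, 4), (4, 0), (4, 1), (4,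
      3), (4, 5), (4, 6), (5, 4), (6, 4)]
    mix := [(0, 0), (0, 1), (1, 1), (1, 2), (2, 1), (2, 2), (2, 3), (3, 2), (3, 4), (3, 5), (3, 6), (3,
      7), (4, 0), (4, 7), (4, 8), (5, 7), (5, 8), (5, 9), (6, 0), (6, 8), (6, 10)]
    cl := [0, 1, 2, 7, 4, 5, 6, 0, 3, 8, 9]
    chq := [(0, 3), (1, 2), (1, 4), (1, 5), (1, 6), (2, 1), (3, 0), (4, 1), (5, 1), (6, 1)]
    rng := [(0, 1), (0, 10), (1, 0), (1, 3), (2, 3), (2, 4), (3, 1), (3, 2), (4, 2), (4, 5), (5, 4),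
      (5, 6), (6, 5), (6, 7), (7, 6), (7, 9), (8, 9), (8, 10), (9, 7), (9, 8), (10, 0), (10, 8)]
    lev := [] }
  links := [[1, 4, 7, 8], [4, 0, 8, 2, 9, 3], [9, 1, 8, 10], [4, 1, 9, 11, 12, 13, 14], [7, 0, 1, 3, 14,
    5, 15, 6], [15, 4, 14, 16], [7, 4, 15, 17]]
  P := {
    a := 7
    N := 18
    nb := [402, 797, 1794, 31250, 49387, 114704, 163984, 131409, 1159, 3086, 772, 4616, 10248, 20488,
      73784, 196720, 49184, 32960]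
    tri := [(0, 1, 4), (0, 1, 8), (0, 4, 7), (0, 7, 8), (1, 2, 8), (1, 2, 9), (1, 3, 4), (1, 3, 9), (2,
      8, 10), (2, 9, 10), (3, 4, 14), (3, 9, 11), (3, 11, 12), (3, 12, 13), (3, 13, 14), (4, 5,
      14), (4, 5, 15), (4, 6, 7), (4, 6, 15), (5, 14, 16), (5, 15, 16), (6, 7, 17), (6, 15, 17)]
    fin := [0, 1, 1, 1, 0, 0, 0, 0, 1, 9, 10, 11, 12, 13, 0, 15, 16, 17]
    chd := [(0, 15), (1, 9), (1, 11), (1, 12), (1, 13)]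
    steps := [(0, 4), (0, 5), (0, 6), (0, 7), (0, 14), (1, 2), (1, 3), (1, 8)] }
  rep := [0, 1, 9, 15, 11, 12, 13, 10, 16, 17]

noncomputable def v2580 : Cov.CovD where
  P := 3
  N := 7
  pl := [3, 9, 10]
  lev := [⟨[], [], [(0, 1)], [], [(0, 0, [3]), (1, 1, [2, 4, 5, 6])]⟩,
    ⟨[], [(0, 0), (0, 1), (0, 2)], [(1, 2)], [], [(1, 1, [2, 4, 5, 6]), (2, 2, [1])]⟩,
    ⟨[(0, 1)], [(0, 1), (1, 1), (1, 2)], [(1, 2)], [7], [(1, 1, [2, 4, 5, 6]), (2, 2,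
      [1])]⟩,
    ⟨[(0, 1), (1, 2)], [(1, 0), (1, 1), (1, 2), (1, 4), (1, 5), (1, 6), (2, 2)], [(0, 2),
      (0, 4), (0, 5), (0, 6), (2, 4), (2, 5), (2, 6), (4, 5), (4, 6), (5, 6)], [], [(2, 2,
      [1]), (4, 4, [1]), (5, 5, [1]), (6, 6, [1]), (7, 0, [3])]⟩,
    ⟨[(0, 1), (0, 3), (1, 2), (1, 3)], [(0, 0), (0, 1), (0, 3), (1, 0), (1, 1), (1, 2), (1,
      3), (3, 0), (3, 2), (3, 3), (3, 4), (3, 5), (3, 6)], [(0, 0), (0, 3)], [], [(0, 0,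
      [3]), (7, 0, [3]), (8, 3, [0])]⟩,
    ⟨[(0, 4), (1, 4), (3, 4)], [(3, 0), (4, 0), (4, 3)], [(0, 3)], [8], [(7, 0, [3]), (8,
      3, [0])]⟩,
    ⟨[(0, 4), (1, 4), (3, 4), (4, 5)], [(0, 0), (4, 0), (4, 3), (5, 3)], [(0, 3)], [9],
      [(0, 0, [3]), (8, 3, [0])]⟩]
  Ta := [((0, 1), 0, 1), ((0, 10), 0, 9), ((7, 6), 0, 6), ((7, 9), 0, 8)]
  Tb := [((0, 1, 10), 0, 1, 9), ((1, 0, 3), 1, 0, 7), ((2, 3, 4), 2, 7, 4), ((3, 1, 2), 7, 1, 2),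
    ((4, 2, 5), 4, 2, 5), ((5, 4, 6), 5, 4, 6), ((6, 5, 7), 6, 5, 0), ((7, 6, 9), 0, 6, 8),
    ((8, 9, 10), 3, 8, 9), ((9, 7, 8), 8, 0, 3), ((10, 0, 8), 9, 0, 3)]
  Tc := [(1, 2, 4), (1, 2, 5), (1, 2, 6), (1, 4, 5), (1, 4, 6), (1, 5, 6)]
  Td := [((0, 3), (0, 1), 1), ((0, 3), (0, 10), 9), ((0, 3), (7, 6), 6), ((0, 3), (7, 9), 8),
    ((1, 2), (1, 0), 0), ((1, 2), (1, 3), 7), ((1, 4), (1, 0), 0), ((1, 4), (1, 3), 7), ((1,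
    5), (1, 0), 0), ((1, 5), (1, 3), 7), ((1, 6), (1, 0), 0), ((1, 6), (1, 3), 7), ((2, 1),
    (2, 3), 7), ((2, 1), (2, 4), 4), ((3, 0), (8, 9), 8), ((3, 0), (8, 10), 9), ((4, 1), (4,
    2), 2), ((4, 1), (4, 5), 5), ((5, 1), (5, 4), 4), ((5, 1), (5, 6), 6), ((6, 1), (6, 5),
    5), ((6, 1), (6, 7), 0)]
  G := [[0, 0xca6e84c61426ca6e84ce1c24ae8128a81cc2, 0xaa6d81624142682141622182c6acb828182acc,
    0x6a9663c26a9a65c2c12, 0xa65421c66b4289a182aa38291c], [0, 0,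
    0xc39e42144263212c21218a2cc5cc14a21882a4c, 0x71a166c259a316c2512,
    0x9664212835ec29151a82188291c]]

noncomputable def n2580 : Ent := ⟨e2580, noF, [], [], [(10, 17, [6903326391201334775872065844685381424292761054348340378595029940252673, 0])]⟩

def c2580 : PLift (Cov.check n2580.C.D v2580 = true) := ⟨by decide +kernel⟩

def b2580 : PLift (entF (fidx ts) 400 2580 n2580 = true) := ⟨by decide +kernel⟩

theorem g2580 : GoodF (fidx ts) 400 2580 := GoodF.ofV v2580 n2580 c2580.down b2580.down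

/-- 4646954:2112/1 -/
noncomputable def e2581 : SCfg where
  D := {
    a := 7
    L := 10
    kp := 8
    inn := [(0, 1), (0, 4), (1, 0), (1, 2), (1, 3), (1, 4), (2, 1), (3, 1), (3, 4), (3, 5), (4, 0), (4,
      1), (4, 3), (4, 5), (4, 6), (5, 3), (5, 4), (6, 4)]
    mix := [(0, 0), (0, 1), (1, 1), (1, 2), (2, 1), (2, 2), (2, 3), (3, 2), (3, 4), (3, 5), (4, 0), (4,
      6), (4, 7), (4, 8), (5, 5), (5, 6), (5, 9), (6, 3), (6, 7), (6, 8)]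
    cl := [3, 1, 0, 2, 8, 4, 3, 5, 6, 7]
    chq := [(0, 3), (0, 4), (0, 7), (2, 3), (3, 0), (3, 2), (4, 0), (5, 6), (6, 5), (7, 0)]
    rng := [(0, 1), (0, 8), (1, 0), (1, 3), (2, 3), (2, 4), (3, 1), (3, 2), (3, 7), (3, 8), (4, 2), (4,
      5), (5, 4), (5, 9), (6, 7), (6, 9), (7, 3), (7, 6), (8, 0), (8, 3), (9, 5), (9, 6)]
    lev := [] }
  links := [[1, 4, 7, 8], [4, 0, 8, 2, 9, 3], [9, 1, 8, 10], [4, 1, 9, 11, 12, 5], [7, 0, 1, 3, 5, 13,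
    14, 6, 15], [13, 4, 3, 12, 16], [15, 4, 14, 10]]
  P := {
    a := 7
    N := 17
    nb := [402, 797, 1794, 6706, 57579, 77848, 50192, 33041, 1159, 3086, 49988, 4616, 67624, 81968,
      9296, 1232, 12320]
    tri := [(0, 1, 4), (0, 1, 8), (0, 4, 7), (0, 7, 8), (1, 2, 8), (1, 2, 9), (1, 3, 4), (1, 3, 9), (2,
      8, 10), (2, 9, 10), (3, 4, 5), (3, 5, 12), (3, 9, 11), (3, 11, 12), (4, 5, 13), (4, 6, 14),
      (4, 6, 15), (4, 7, 15), (4, 13, 14), (5, 12, 16), (5, 13, 16), (6, 10, 14), (6, 10, 15)]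
    fin := [0, 0, 0, 3, 0, 3, 6, 0, 8, 3, 10, 11, 12, 0, 6, 15, 16]
    chd := [(0, 3), (0, 10), (3, 12), (3, 16), (6, 15)]
    steps := [(0, 1), (0, 2), (0, 4), (0, 7), (0, 13), (3, 5), (3, 9), (6, 14)] }
  rep := [3, 8, 10, 0, 12, 6, 15, 16, 11]

noncomputable def v2581 : Cov.CovD where
  P := 3
  N := 6
  pl := [1, 4]
  lev := [⟨[], [], [], [1], [(0, 3, [0, 2])]⟩,
    ⟨[], [(0, 0), (0, 3)], [], [1], [(2, 0, [3, 4, 7])]⟩,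
    ⟨[(0, 1)], [(1, 0), (1, 2)], [(0, 2)], [1], [(2, 0, [3, 4, 7]), (3, 2, [3])]⟩,
    ⟨[(0, 1), (1, 2)], [(1, 0), (1, 4), (2, 0)], [(0, 4)], [8], [(2, 0, [3, 4, 7]), (5, 4,
      [0])]⟩,
    ⟨[(0, 1), (0, 3), (1, 2), (1, 3)], [(0, 3), (0, 5), (0, 6), (1, 0), (1, 3), (1, 5), (1,
      6), (3, 0), (3, 3), (3, 4), (3, 5), (3, 6)], [(3, 3), (3, 5), (3, 6), (5, 6)], [], [(0,
      3, [0, 2]), (6, 3, [0, 2]), (7, 5, [6]), (8, 6, [5])]⟩,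
    ⟨[(0, 4), (1, 3), (1, 4), (3, 4)], [(3, 0), (3, 3), (3, 4), (3, 7), (4, 3), (4, 4), (4,
      5), (4, 6), (4, 7)], [(3, 4), (3, 7), (4, 7)], [], [(5, 4, [0]), (6, 3, [0, 2]), (9, 7,
      [0])]⟩,
    ⟨[(0, 4), (1, 4), (3, 4), (4, 5)], [(2, 2), (4, 2), (4, 3), (4, 5), (4, 6)], [(2, 5),
      (2, 6), (5, 6)], [], [(3, 2, [3]), (7, 5, [6]), (8, 6, [5])]⟩]
  Ta := [((0, 1), 3, 1), ((0, 8), 3, 6), ((6, 7), 3, 5), ((6, 9), 3, 7)]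
  Tb := [((0, 1, 8), 3, 1, 6), ((1, 0, 3), 1, 3, 2), ((2, 3, 4), 0, 2, 8), ((3, 1, 2), 2, 1, 0),
    ((3, 1, 7), 2, 1, 5), ((3, 1, 8), 2, 1, 6), ((3, 2, 7), 2, 0, 5), ((3, 2, 8), 2, 0, 6),
    ((3, 7, 8), 2, 5, 6), ((4, 2, 5), 8, 0, 4), ((5, 4, 9), 4, 8, 7), ((6, 7, 9), 3, 5, 7),
    ((7, 3, 6), 5, 2, 3), ((8, 0, 3), 6, 3, 2), ((9, 5, 6), 7, 4, 3)]
  Tc := [(0, 3, 4), (0, 3, 7), (0, 4, 7), (3, 0, 2)]
  Td := [((0, 3), (2, 3), 2), ((0, 3), (2, 4), 8), ((0, 4), (2, 3), 2), ((0, 4), (2, 4), 8), ((0,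
    7), (2, 3), 2), ((0, 7), (2, 4), 8), ((2, 3), (3, 1), 1), ((2, 3), (3, 2), 0), ((2, 3),
    (3, 7), 5), ((2, 3), (3, 8), 6), ((3, 0), (0, 1), 1), ((3, 0), (0, 8), 6), ((3, 0), (6,
    7), 5), ((3, 0), (6, 9), 7), ((3, 2), (0, 1), 1), ((3, 2), (0, 8), 6), ((3, 2), (6, 7),
    5), ((3, 2), (6, 9), 7), ((4, 0), (5, 4), 8), ((4, 0), (5, 9), 7), ((5, 6), (7, 3), 2),
    ((5, 6), (7, 6), 3), ((6, 5), (8, 0), 3), ((6, 5), (8, 3), 2), ((7, 0), (9, 5), 4), ((7,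
    0), (9, 6), 3)]
  G := [[0, 0x41224881228441d111e77a1d16411112f5e46188111eb9818e8ce,
    0xe11e116e118c4e11e116e118c8c, 0xd12d12d12e481,
    0x211114f3d11112f36881188cb144871b1216eeef81881b1ce8c5], [0,
    0xd1111ef324841d16a1111cf5414e461111cf981d1a818e8c6, 0xe11e11ce112c48, 0xd12d12d12e484,
    0x11c71211c33d11c33e849148c548519121e81881b1ce8c9]]

noncomputable def n2581 : Ent := ⟨e2581, noF, [], [], []⟩

def c2581 : PLift (Cov.check n2581.C.D v2581 = true) := ⟨by decide +kernel⟩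

def b2581 : PLift (entF (fidx ts) 400 2581 n2581 = true) := ⟨by decide +kernel⟩

theorem g2581 : GoodF (fidx ts) 400 2581 := GoodF.ofV v2581 n2581 c2581.down b2581.down

/-- 4646954:2112 -/
noncomputable def e2582 : SCfg where
  D := {
    a := 7
    L := 11
    kp := 9
    inn := [(0, 1), (0, 4), (1, 0), (1, 2), (1, 3), (1, 4), (2, 1), (3, 1), (3, 4), (3, 5), (4, 0), (4,
      1), (4, 3), (4, 5), (4, 6), (5, 3), (5, 4), (6, 4)]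
    mix := [(0, 0), (0, 1), (1, 1), (1, 2), (2, 1), (2, 2), (2, 3), (3, 2), (3, 4), (3, 5), (4, 0), (4,
      6), (4, 7), (4, 8), (5, 5), (5, 6), (5, 9), (6, 7), (6, 8), (6, 10)]
    cl := [0, 2, 1, 8, 9, 3, 0, 4, 5, 6, 7]
    chq := [(0, 1), (0, 7), (1, 0), (1, 2), (1, 3), (1, 6), (2, 1), (3, 1), (6, 1), (7, 0)]
    rng := [(0, 1), (0, 8), (1, 0), (1, 3), (2, 3), (2, 4), (3, 1), (3, 2), (4, 2), (4, 5), (5, 4), (5,
      9), (6, 7), (6, 9), (7, 6), (7, 10), (8, 0), (8, 10), (9, 5), (9, 6), (10, 7), (10, 8)]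
    lev := [] }
  links := [[1, 4, 7, 8], [4, 0, 8, 2, 9, 3], [9, 1, 8, 10], [4, 1, 9, 11, 12, 5], [7, 0, 1, 3, 5, 13,
    14, 6, 15], [13, 4, 3, 12, 16], [15, 4, 14, 17]]
  P := {
    a := 7
    N := 18
    nb := [402, 797, 1794, 6706, 57579, 77848, 180240, 33041, 1159, 3086, 772, 4616, 67624, 81968,
      139344, 131280, 12320, 49216]
    tri := [(0, 1, 4), (0, 1, 8), (0, 4, 7), (0, 7, 8), (1, 2, 8), (1, 2, 9), (1, 3, 4), (1, 3, 9), (2,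
      8, 10), (2, 9, 10), (3, 4, 5), (3, 5, 12), (3, 9, 11), (3, 11, 12), (4, 5, 13), (4, 6, 14),
      (4, 6, 15), (4, 7, 15), (4, 13, 14), (5, 12, 16), (5, 13, 16), (6, 14, 17), (6, 15, 17)]
    fin := [0, 0, 2, 3, 0, 3, 0, 0, 2, 3, 10, 11, 12, 0, 14, 15, 16, 17]
    chd := [(0, 3), (0, 17), (2, 3), (3, 12), (3, 16)]
    steps := [(0, 1), (0, 4), (0, 6), (0, 7), (0, 13), (2, 8), (3, 5), (3, 9)] }
  rep := [0, 3, 2, 12, 14, 15, 16, 17, 10, 11]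

noncomputable def v2582 : Cov.CovD where
  P := 3
  N := 7
  pl := [3, 4, 7, 8]
  lev := [⟨[], [], [(0, 2)], [], [(0, 0, [1, 7]), (1, 2, [1])]⟩,
    ⟨[], [(0, 0), (0, 1), (0, 2)], [(1, 2)], [], [(1, 2, [1]), (2, 1, [0, 2, 3, 6])]⟩,
    ⟨[(0, 1)], [(0, 2), (1, 1), (1, 2)], [(1, 2)], [8], [(1, 2, [1]), (2, 1, [0, 2, 3,
      6])]⟩,
    ⟨[(0, 1), (1, 2)], [(1, 1), (1, 2), (1, 3), (2, 1)], [(1, 3)], [9], [(2, 1, [0, 2, 3,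
      6]), (5, 3, [1])]⟩,
    ⟨[(0, 1), (0, 3), (1, 2), (1, 3)], [(0, 0), (0, 2), (1, 0), (1, 1), (1, 2), (3, 0), (3,
      1), (3, 3)], [(0, 0)], [4, 5], [(0, 0, [1, 7]), (6, 0, [1, 7])]⟩,
    ⟨[(0, 4), (1, 3), (1, 4), (3, 4)], [(3, 0), (3, 1), (3, 3), (3, 6), (4, 0), (4, 3), (4,
      6)], [(0, 3), (0, 6), (3, 6)], [], [(5, 3, [1]), (6, 0, [1, 7]), (9, 6, [1])]⟩,
    ⟨[(0, 4), (1, 4), (3, 4), (4, 5)], [(4, 0), (4, 7)], [], [4, 5], [(10, 7, [0])]⟩]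
  Ta := [((0, 1), 0, 2), ((0, 8), 0, 5), ((6, 7), 0, 4), ((6, 9), 0, 6)]
  Tb := [((0, 1, 8), 0, 2, 5), ((1, 0, 3), 2, 0, 8), ((2, 3, 4), 1, 8, 9), ((3, 1, 2), 8, 2, 1),
    ((4, 2, 5), 9, 1, 3), ((5, 4, 9), 3, 9, 6), ((6, 7, 9), 0, 4, 6), ((7, 6, 10), 4, 0, 7),
    ((8, 0, 10), 5, 0, 7), ((9, 5, 6), 6, 3, 0), ((10, 7, 8), 7, 4, 5)]
  Tc := [(0, 1, 7), (1, 0, 2), (1, 0, 3), (1, 0, 6), (1, 2, 3), (1, 2, 6), (1, 3, 6)]
  Td := [((0, 1), (0, 1), 2), ((0, 1), (0, 8), 5), ((0, 1), (6, 7), 4), ((0, 1), (6, 9), 6), ((0,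
    7), (0, 1), 2), ((0, 7), (0, 8), 5), ((0, 7), (6, 7), 4), ((0, 7), (6, 9), 6), ((1, 0),
    (2, 3), 8), ((1, 0), (2, 4), 9), ((1, 2), (2, 3), 8), ((1, 2), (2, 4), 9), ((1, 3), (2,
    3), 8), ((1, 3), (2, 4), 9), ((1, 6), (2, 3), 8), ((1, 6), (2, 4), 9), ((2, 1), (1, 0),
    0), ((2, 1), (1, 3), 8), ((3, 1), (5, 4), 9), ((3, 1), (5, 9), 6), ((6, 1), (9, 5), 3),
    ((6, 1), (9, 6), 0), ((7, 0), (10, 7), 4), ((7, 0), (10, 8), 5)]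
  G := [[0, 0x11441111111e1111a111111ee1c1,
    0x1221121261c812111d641211561212111de128dc1212111de1281212cd1218a811c21ec6,
    0x72d2a31f37dc64281a6d22fbfd4122fc132d2a92293fbd8294c,
    0x119e211f299a672b2dddbe32f2119eed8932f2c113288828132f2999def232555decb9a], [0,
    0x111161111a111111ee111881c1144185, 0,
    0xb212a172b2d2ef252af23252ed72b2d2ef28cd13252672453244985,
    0xd22999e25192252272111e6d99a289972b2d4e32f2c5132f298ef23254eb28d32f2c899a]]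

noncomputable def n2582 : Ent := ⟨e2582, noF, [], [], [(10, 17, [6903326391201334775872065844685381424292761054348340378595029940260865, 0])]⟩

def c2582 : PLift (Cov.check n2582.C.D v2582 = true) := ⟨by decide +kernel⟩

def b2582 : PLift (entF (fidx ts) 400 2582 n2582 = true) := ⟨by decide +kernel⟩

theorem g2582 : GoodF (fidx ts) 400 2582 := GoodF.ofV v2582 n2582 c2582.down b2582.down

/-- 4646946:2113 -/
noncomputable def e2583 : SCfg where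
  D := {
    a := 7
    L := 11
    kp := 9
    inn := [(0, 1), (0, 4), (1, 0), (1, 2), (1, 3), (1, 4), (2, 1), (3, 1), (3, 4), (3, 6), (4, 0), (4,
      1), (4, 3), (4, 5), (4, 6), (5, 4), (5, 6), (6, 3), (6, 4), (6, 5)]
    mix := [(0, 0), (0, 1), (1, 1), (1, 2), (2, 1), (2, 2), (2, 3), (3, 2), (3, 4), (3, 5), (4, 0), (4,
      6), (4, 7), (4, 8), (5, 6), (5, 9), (6, 5), (6, 9), (6, 10)]
    cl := [0, 2, 1, 6, 7, 3, 0, 8, 9, 4, 5]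
    chq := [(0, 1), (1, 0), (1, 2), (1, 3), (1, 4), (1, 5), (2, 1), (3, 1), (4, 1), (5, 1)]
    rng := [(0, 1), (0, 8), (1, 0), (1, 3), (2, 3), (2, 4), (3, 1), (3, 2), (4, 2), (4, 5), (5, 4), (5,
      10), (6, 7), (6, 9), (7, 6), (7, 8), (8, 0), (8, 7), (9, 6), (9, 10), (10, 5), (10, 9)]
    lev := [] }
  links := [[1, 4, 7, 8], [4, 0, 8, 2, 9, 3], [9, 1, 8, 10], [4, 1, 9, 11, 12, 6], [7, 0, 1, 3, 6, 5, 13,
    14, 15], [13, 4, 6, 16], [16, 5, 4, 3, 12, 17]]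
  P := {
    a := 7
    N := 18
    nb := [402, 797, 1794, 6738, 57579, 73808, 200760, 33041, 1159, 3086, 772, 4616, 133192, 81968,
      40976, 16528, 139360, 69696]
    tri := [(0, 1, 4), (0, 1, 8), (0, 4, 7), (0, 7, 8), (1, 2, 8), (1, 2, 9), (1, 3, 4), (1, 3, 9), (2,
      8, 10), (2, 9, 10), (3, 4, 6), (3, 6, 12), (3, 9, 11), (3, 11, 12), (4, 5, 6), (4, 5, 13),
      (4, 7, 15), (4, 13, 14), (4, 14, 15), (5, 6, 16), (5, 13, 16), (6, 12, 17), (6, 16, 17)]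
    fin := [0, 0, 2, 3, 0, 0, 3, 0, 2, 3, 10, 11, 12, 0, 14, 15, 16, 17]
    chd := [(0, 3), (2, 3), (3, 12), (3, 16), (3, 17)]
    steps := [(0, 1), (0, 4), (0, 5), (0, 7), (0, 13), (2, 8), (3, 6), (3, 9)] }
  rep := [0, 3, 2, 12, 16, 17, 10, 11, 14, 15]

noncomputable def v2583 : Cov.CovD where
  P := 3
  N := 7
  pl := [3, 4, 7, 8]
  lev := [⟨[], [], [(0, 2)], [], [(0, 0, [1]), (1, 2, [1])]⟩,
    ⟨[], [(0, 0), (0, 1), (0, 2)], [(1, 2)], [], [(1, 2, [1]), (2, 1, [0, 2, 3, 4, 5])]⟩,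
    ⟨[(0, 1)], [(0, 2), (1, 1), (1, 2)], [(1, 2)], [6], [(1, 2, [1]), (2, 1, [0, 2, 3, 4,
      5])]⟩,
    ⟨[(0, 1), (1, 2)], [(1, 1), (1, 2), (1, 3), (2, 1)], [(1, 3)], [7], [(2, 1, [0, 2, 3,
      4, 5]), (5, 3, [1])]⟩,
    ⟨[(0, 1), (0, 3), (1, 2), (1, 3)], [(0, 0), (0, 2), (1, 0), (1, 1), (1, 2), (3, 0), (3,
      1), (3, 3)], [(0, 0)], [8, 9], [(0, 0, [1]), (6, 0, [1])]⟩,
    ⟨[(0, 4), (1, 4), (3, 4)], [(4, 0), (4, 4)], [(0, 4)], [], [(6, 0, [1]), (9, 4, [1])]⟩,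
    ⟨[(0, 4), (1, 3), (1, 4), (3, 4), (3, 5), (4, 5)], [(3, 1), (3, 3), (3, 4), (3, 5), (4,
      0), (4, 3), (4, 4), (4, 5), (5, 0), (5, 3), (5, 4), (5, 5)], [(3, 4), (3, 5), (4, 5)],
      [], [(5, 3, [1]), (9, 4, [1]), (10, 5, [1])]⟩]
  Ta := [((0, 1), 0, 2), ((0, 8), 0, 9), ((6, 7), 0, 8), ((6, 9), 0, 4)]
  Tb := [((0, 1, 8), 0, 2, 9), ((1, 0, 3), 2, 0, 6), ((2, 3, 4), 1, 6, 7), ((3, 1, 2), 6, 2, 1),
    ((4, 2, 5), 7, 1, 3), ((5, 4, 10), 3, 7, 5), ((6, 7, 9), 0, 8, 4), ((7, 6, 8), 8, 0, 9),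
    ((8, 0, 7), 9, 0, 8), ((9, 6, 10), 4, 0, 5), ((10, 5, 9), 5, 3, 4)]
  Tc := [(1, 0, 2), (1, 0, 3), (1, 0, 4), (1, 0, 5), (1, 2, 3), (1, 2, 4), (1, 2, 5), (1, 3, 4),
    (1, 3, 5), (1, 4, 5)]
  Td := [((0, 1), (0, 1), 2), ((0, 1), (0, 8), 9), ((0, 1), (6, 7), 8), ((0, 1), (6, 9), 4), ((1,
    0), (2, 3), 6), ((1, 0), (2, 4), 7), ((1, 2), (2, 3), 6), ((1, 2), (2, 4), 7), ((1, 3),
    (2, 3), 6), ((1, 3), (2, 4), 7), ((1, 4), (2, 3), 6), ((1, 4), (2, 4), 7), ((1, 5), (2,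
    3), 6), ((1, 5), (2, 4), 7), ((2, 1), (1, 0), 0), ((2, 1), (1, 3), 6), ((3, 1), (5, 4),
    7), ((3, 1), (5, 10), 5), ((4, 1), (9, 6), 0), ((4, 1), (9, 10), 5), ((5, 1), (10, 5),
    3), ((5, 1), (10, 9), 4)]
  G := [[0, 0x11a411a4c111611aa11611ca11c11a11cee1c1,
    0x211e962111ed654211e562121a212151a7ed12528cc211c964214218cc218821c1a2189cca,
    0x212121e4214491212221e1222121e212221e9222221e2121acd1c,
    0x11a2121a1613211e5621211e9e2121e1ed211e5621211e9ec992148a112188218899a], [0,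
    0x11611a11ae11611c11ce6111611a116e81c1, 0,
    0x2222c42222c62222c6222222ced52222c2222ca222222ced2222ca8cc1,
    0x1dc2122c22c61322c2f8e622622af24ee2222c22ced22c3e9e622622af24eec99228112288242ca24828822c8d2288242cab9a]]

noncomputable def n2583 : Ent := ⟨e2583, noF, [], [], []⟩

def c2583 : PLift (Cov.check n2583.C.D v2583 = true) := ⟨by decide +kernel⟩

def b2583 : PLift (entF (fidx ts) 400 2583 n2583 = true) := ⟨by decide +kernel⟩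

theorem g2583 : GoodF (fidx ts) 400 2583 := GoodF.ofV v2583 n2583 c2583.down b2583.down

/-- 4646784:2123 -/
noncomputable def e2584 : SCfg where
  D := {
    a := 7
    L := 10
    kp := 8
    inn := [(0, 1), (0, 4), (1, 0), (1, 2), (1, 3), (1, 4), (1, 5), (2, 1), (2, 3), (3, 1), (3, 2), (3,
      5), (4, 0), (4, 1), (4, 5), (4, 6), (5, 1), (5, 3), (5, 4), (5, 6), (6, 4), (6, 5)]
    mix := [(0, 0), (0, 1), (1, 1), (2, 1), (2, 2), (3, 2), (3, 3), (3, 4), (4, 0), (4, 5), (4, 6), (5,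
      4), (5, 7), (5, 8), (5, 9), (6, 5), (6, 9)]
    cl := [2, 1, 3, 5, 0, 4, 6, 7, 8, 0]
    chq := [(0, 1), (0, 2), (0, 6), (1, 0), (1, 5), (2, 0), (5, 1), (6, 0)]
    rng := [(0, 1), (0, 6), (1, 0), (1, 2), (2, 1), (2, 3), (3, 2), (3, 4), (4, 3), (4, 7), (5, 6), (5,
      9), (6, 0), (6, 5), (7, 4), (7, 8), (8, 7), (8, 9), (9, 5), (9, 8)]
    lev := [] }
  links := [[1, 4, 7, 8], [4, 0, 8, 2, 3, 5], [3, 1, 8, 9], [5, 1, 2, 9, 10, 11], [7, 0, 1, 5, 6, 12,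
    13], [6, 4, 1, 3, 11, 14, 15, 16], [12, 4, 5, 16]]
  P := {
    a := 7
    N := 17
    nb := [402, 317, 778, 3622, 12515, 116826, 69680, 8465, 647, 1292, 2568, 17448, 73808, 4240,
      34848, 81952, 36960]
    tri := [(0, 1, 4), (0, 1, 8), (0, 4, 7), (0, 7, 8), (1, 2, 3), (1, 2, 8), (1, 3, 5), (1, 4, 5), (2,
      3, 9), (2, 8, 9), (3, 5, 11), (3, 9, 10), (3, 10, 11), (4, 5, 6), (4, 6, 12), (4, 7, 13),
      (4, 12, 13), (5, 6, 16), (5, 11, 14), (5, 14, 15), (5, 15, 16), (6, 12, 16)]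
    fin := [0, 0, 2, 2, 4, 4, 4, 0, 2, 9, 10, 4, 12, 13, 14, 15, 4]
    chd := [(0, 4), (2, 4), (2, 10), (4, 13)]
    steps := [(0, 1), (0, 7), (2, 3), (2, 8), (4, 5), (4, 6), (4, 11), (4, 16)] }
  rep := [4, 2, 0, 9, 12, 10, 13, 14, 15]

noncomputable def v2584 : Cov.CovD where
  P := 3
  N := 6
  pl := [2, 5, 7, 8]
  lev := [⟨[], [], [(1, 2)], [], [(0, 2, [0]), (1, 1, [0, 5])]⟩,
    ⟨[], [(0, 1), (0, 2)], [], [], [(1, 1, [0, 5])]⟩,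
    ⟨[(0, 1)], [(0, 1), (1, 1)], [], [3], [(1, 1, [0, 5])]⟩,
    ⟨[(0, 1), (1, 2)], [(1, 0), (1, 1), (1, 5), (2, 0), (2, 1), (2, 5)], [(0, 5)], [3],
      [(3, 5, [1]), (4, 0, [1, 2, 6])]⟩,
    ⟨[(0, 1), (1, 2), (1, 3)], [(0, 1), (0, 2), (0, 6), (1, 1), (1, 2), (1, 6)], [(2, 6)],
      [4], [(0, 2, [0]), (6, 6, [0])]⟩,
    ⟨[(0, 1), (0, 4), (1, 2), (1, 3), (1, 4), (2, 3), (3, 4)], [(1, 0), (1, 1), (3, 0), (3,
      5), (4, 0), (4, 2), (4, 6)], [(0, 0)], [7, 8], [(4, 0, [1, 2, 6]), (9, 0, [1, 2, 6])]⟩,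
    ⟨[(0, 4), (1, 4), (1, 5), (3, 5), (4, 5)], [(4, 0), (4, 2), (4, 6), (5, 0)], [], [4],
      [(9, 0, [1, 2, 6])]⟩]
  Ta := [((4, 3), 0, 5), ((4, 7), 0, 7), ((9, 5), 0, 4), ((9, 8), 0, 8)]
  Tb := [((0, 1, 6), 2, 1, 6), ((1, 0, 2), 1, 2, 3), ((2, 1, 3), 3, 1, 5), ((3, 2, 4), 5, 3, 0),
    ((4, 3, 7), 0, 5, 7), ((5, 6, 9), 4, 6, 0), ((6, 0, 5), 6, 2, 4), ((7, 4, 8), 7, 0, 8),
    ((8, 7, 9), 8, 7, 0), ((9, 5, 8), 0, 4, 8)]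
  Tc := [(0, 1, 2), (0, 1, 6), (0, 2, 6), (1, 0, 5)]
  Td := [((0, 1), (4, 3), 5), ((0, 1), (4, 7), 7), ((0, 1), (9, 5), 4), ((0, 1), (9, 8), 8), ((0,
    2), (4, 3), 5), ((0, 2), (4, 7), 7), ((0, 2), (9, 5), 4), ((0, 2), (9, 8), 8), ((0, 6),
    (4, 3), 5), ((0, 6), (4, 7), 7), ((0, 6), (9, 5), 4), ((0, 6), (9, 8), 8), ((1, 0), (1,
    0), 2), ((1, 0), (1, 2), 3), ((1, 5), (1, 0), 2), ((1, 5), (1, 2), 3), ((2, 0), (0, 1),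
    1), ((2, 0), (0, 6), 6), ((5, 1), (3, 2), 3), ((5, 1), (3, 4), 0), ((6, 0), (6, 0), 2),
    ((6, 0), (6, 5), 4)]
  G := [[0, 0x6aae11caae11a48, 0xcc6126c6e11ca21c81a8c4, 0x6cce126cce12584,
    0xac6141a661a81ac61e68186ace12dc8], [0, 0x66ce11a6ce11c28, 0xa4114a21cace1aa6a11cc8,
    0x641244628ac2948cca928688e89a22ced24d24428442585,
    0x82c2324ac63644242a228e4a6e39884832cc2481422a82a14248e828d9]]

noncomputable def n2584 : Ent := ⟨e2584, noF, [], [], []⟩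

def c2584 : PLift (Cov.check n2584.C.D v2584 = true) := ⟨by decide +kernel⟩

def b2584 : PLift (entF (fidx ts) 400 2584 n2584 = true) := ⟨by decide +kernel⟩

theorem g2584 : GoodF (fidx ts) 400 2584 := GoodF.ofV v2584 n2584 c2584.down b2584.down

/-- 4646674:2126/1 -/
noncomputable def e2585 : SCfg where
  D := {
    a := 7
    L := 10
    kp := 8
    inn := [(0, 1), (1, 0), (1, 2), (1, 3), (2, 1), (2, 3), (3, 1), (3, 2), (3, 4), (3, 5), (4, 3), (4,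
      5), (5, 3), (5, 4), (5, 6), (6, 5)]
    mix := [(0, 0), (0, 1), (0, 2), (1, 0), (1, 2), (1, 3), (2, 2), (2, 4), (3, 3), (3, 4), (4, 1), (4,
      4), (4, 5), (4, 6), (5, 3), (5, 6), (5, 7), (5, 8), (6, 7), (6, 8), (6, 9)]
    cl := [2, 5, 4, 0, 1, 7, 3, 6, 3, 8]
    chq := [(0, 1), (0, 5), (0, 7), (1, 0), (1, 2), (2, 1), (2, 4), (4, 2), (5, 0), (7, 0)]
    rng := [(0, 1), (0, 3), (1, 0), (1, 2), (1, 4), (1, 5), (2, 1), (2, 4), (3, 0), (3, 8), (4, 1), (4,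
      2), (5, 1), (5, 6), (6, 5), (6, 7), (7, 6), (7, 9), (8, 3), (8, 9), (9, 7), (9, 8)]
    lev := [] }
  links := [[1, 7, 8, 9], [7, 0, 9, 2, 3, 10], [3, 1, 9, 11], [10, 1, 2, 11, 4, 5], [5, 3, 11, 8, 12,
    13], [10, 3, 4, 13, 14, 6, 15], [15, 5, 14, 16]]
  P := {
    a := 7
    N := 17
    nb := [898, 1677, 2570, 3126, 14632, 58456, 114720, 1283, 6801, 2311, 32938, 796, 8464, 20528,
      73824, 66656, 49216]
    tri := [(0, 1, 7), (0, 1, 9), (0, 7, 8), (0, 8, 9), (1, 2, 3), (1, 2, 9), (1, 3, 10), (1, 7, 10),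
      (2, 3, 11), (2, 9, 11), (3, 4, 5), (3, 4, 11), (3, 5, 10), (4, 5, 13), (4, 8, 11), (4, 8,
      12), (4, 12, 13), (5, 6, 14), (5, 6, 15), (5, 10, 15), (5, 13, 14), (6, 14, 16), (6, 15,
      16)]
    fin := [0, 0, 0, 3, 3, 5, 5, 0, 8, 9, 3, 11, 12, 5, 14, 5, 16]
    chd := [(0, 9), (0, 11), (3, 11), (3, 12), (8, 3)]
    steps := [(0, 1), (0, 2), (0, 7), (3, 4), (3, 10), (5, 6), (5, 13), (5, 15)] }
  rep := [3, 11, 0, 5, 9, 8, 14, 12, 16]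

noncomputable def v2585 : Cov.CovD where
  P := 3
  N := 6
  pl := [7, 9]
  lev := [⟨[], [], [(2, 4), (2, 5), (4, 5)], [], [(0, 2, [1, 4]), (1, 5, [0]), (2, 4, [2])]⟩,
    ⟨[], [(0, 0), (0, 2), (0, 4), (0, 5)], [(0, 2), (0, 4), (2, 4)], [], [(0, 2, [1, 4]),
      (2, 4, [2]), (3, 0, [1, 5, 7])]⟩,
    ⟨[(0, 1)], [(0, 4), (1, 0), (1, 1), (1, 2), (1, 4)], [(1, 4)], [], [(2, 4, [2]), (4, 1,
      [0, 2])]⟩,
    ⟨[(0, 1), (1, 2)], [(1, 0), (1, 1), (1, 2), (1, 4), (2, 0), (2, 1), (2, 4)], [(0, 1)],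
      [], [(3, 0, [1, 5, 7]), (4, 1, [0, 2])]⟩,
    ⟨[(1, 3), (2, 3)], [(0, 5), (2, 1), (3, 0), (3, 1), (3, 3), (3, 5), (3, 7)], [(1, 3),
      (1, 5), (1, 7), (3, 5), (3, 7), (5, 7)], [], [(1, 5, [0]), (4, 1, [0, 2]), (5, 7, [0]),
      (6, 3, [])]⟩,
    ⟨[(1, 3), (2, 3), (3, 4)], [(1, 0), (3, 0), (3, 1), (3, 3), (4, 0), (4, 1), (4, 3), (4,
      5), (4, 7)], [(0, 3), (3, 3)], [6], [(3, 0, [1, 5, 7]), (6, 3, []), (8, 3, [])]⟩,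
    ⟨[(3, 5), (4, 5)], [(5, 0), (5, 3)], [], [6, 8], [(8, 3, [])]⟩]
  Ta := [((6, 5), 3, 7), ((6, 7), 3, 6), ((8, 3), 3, 0), ((8, 9), 3, 8)]
  Tb := [((0, 1, 3), 2, 5, 0), ((1, 0, 2), 5, 2, 4), ((1, 0, 4), 5, 2, 1), ((1, 0, 5), 5, 2, 7),
    ((1, 2, 4), 5, 4, 1), ((1, 2, 5), 5, 4, 7), ((1, 4, 5), 5, 1, 7), ((2, 1, 4), 4, 5, 1),
    ((3, 0, 8), 0, 2, 3), ((4, 1, 2), 1, 5, 4), ((5, 1, 6), 7, 5, 3), ((6, 5, 7), 3, 7, 6),
    ((7, 6, 9), 6, 3, 8), ((8, 3, 9), 3, 0, 8), ((9, 7, 8), 8, 6, 3)]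
  Tc := [(0, 1, 5), (0, 1, 7), (0, 5, 7), (1, 0, 2), (2, 1, 4)]
  Td := [((0, 1), (3, 0), 2), ((0, 1), (3, 8), 3), ((0, 5), (3, 0), 2), ((0, 5), (3, 8), 3), ((0,
    7), (3, 0), 2), ((0, 7), (3, 8), 3), ((1, 0), (4, 1), 5), ((1, 0), (4, 2), 4), ((1, 2),
    (4, 1), 5), ((1, 2), (4, 2), 4), ((2, 1), (0, 1), 5), ((2, 1), (0, 3), 0), ((2, 4), (0,
    1), 5), ((2, 4), (0, 3), 0), ((4, 2), (2, 1), 5), ((4, 2), (2, 4), 1), ((5, 0), (1, 0),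
    2), ((5, 0), (1, 2), 4), ((5, 0), (1, 4), 1), ((5, 0), (1, 5), 7), ((7, 0), (5, 1), 5),
    ((7, 0), (5, 6), 3)]
  G := [[0, 0x9ace128653e182c1, 0x6a3e14186a3e18149a3e1412e, 0x9a3e142653e182c2,
    0x9a3e141a361981c8a653e18426a3e1486ace181ab], [0, 0x93a1541625361981a4c1,
    0x93a1415418854181e88141153e18188141e5361981c12e, 0x32195c1a132195c1a4c2,
    0x93a14415c18488145418cb5361981c425361981c15361981c1ab]]

noncomputable def n2585 : Ent := ⟨e2585, noF, [], [], []⟩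

def c2585 : PLift (Cov.check n2585.C.D v2585 = true) := ⟨by decide +kernel⟩

def b2585 : PLift (entF (fidx ts) 400 2585 n2585 = true) := ⟨by decide +kernel⟩

theorem g2585 : GoodF (fidx ts) 400 2585 := GoodF.ofV v2585 n2585 c2585.down b2585.down

/-- 4646674:2126/2 -/
noncomputable def e2586 : SCfg where
  D := {
    a := 7
    L := 10
    kp := 8
    inn := [(0, 1), (1, 0), (1, 2), (1, 3), (2, 1), (2, 3), (3, 1), (3, 2), (3, 4), (3, 5), (4, 3), (4,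
      5), (5, 3), (5, 4), (5, 6), (6, 5)]
    mix := [(0, 0), (0, 1), (0, 2), (1, 0), (1, 2), (1, 3), (2, 2), (2, 4), (3, 3), (3, 4), (4, 4), (4,
      5), (4, 6), (4, 7), (5, 3), (5, 7), (5, 8), (5, 9), (6, 1), (6, 8), (6, 9)]
    cl := [5, 2, 4, 0, 1, 7, 8, 3, 6, 3]
    chq := [(0, 1), (0, 2), (0, 4), (0, 7), (0, 8), (1, 0), (2, 0), (4, 0), (7, 0), (8, 0)]
    rng := [(0, 1), (0, 3), (1, 0), (1, 2), (1, 8), (1, 9), (2, 1), (2, 4), (3, 0), (3, 9), (4, 2), (4,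
      5), (5, 4), (5, 6), (6, 5), (6, 7), (7, 6), (7, 8), (8, 1), (8, 7), (9, 1), (9, 3)]
    lev := [] }
  links := [[1, 7, 8, 9], [7, 0, 9, 2, 3, 10], [3, 1, 9, 11], [10, 1, 2, 11, 4, 5], [5, 3, 11, 12, 13,
    14], [10, 3, 4, 14, 15, 6, 16], [16, 5, 15, 8]]
  P := {
    a := 7
    N := 17
    nb := [898, 1677, 2570, 3126, 30760, 115800, 98592, 1283, 99009, 2311, 65706, 4636, 10256, 20496,
      41008, 16736, 1376]
    tri := [(0, 1, 7), (0, 1, 9), (0, 7, 8), (0, 8, 9), (1, 2, 3), (1, 2, 9), (1, 3, 10), (1, 7, 10),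
      (2, 3, 11), (2, 9, 11), (3, 4, 5), (3, 4, 11), (3, 5, 10), (4, 5, 14), (4, 11, 12), (4, 12,
      13), (4, 13, 14), (5, 6, 15), (5, 6, 16), (5, 10, 16), (5, 14, 15), (6, 8, 15), (6, 8, 16)]
    fin := [0, 0, 2, 3, 3, 5, 0, 7, 0, 2, 3, 11, 12, 13, 5, 15, 5]
    chd := [(0, 3), (2, 3), (3, 11), (3, 12), (3, 13)]
    steps := [(0, 1), (0, 8), (0, 6), (2, 9), (3, 4), (3, 10), (5, 14), (5, 16)] }
  rep := [3, 11, 0, 5, 2, 7, 15, 12, 13]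

noncomputable def v2586 : Cov.CovD where
  P := 3
  N := 6
  pl := [0, 8]
  lev := [⟨[], [], [(2, 4)], [5], [(1, 2, [0]), (2, 4, [0])]⟩,
    ⟨[], [(0, 0), (0, 2), (0, 4)], [(0, 4)], [5], [(2, 4, [0]), (3, 0, [1, 2, 4, 7, 8])]⟩,
    ⟨[(0, 1)], [(0, 4), (1, 0), (1, 1), (1, 4)], [(1, 4)], [], [(2, 4, [0]), (4, 1, [0])]⟩,
    ⟨[(0, 1), (1, 2)], [(1, 0), (1, 1), (1, 4), (2, 0), (2, 1), (2, 4)], [(0, 1)], [], [(3,
      0, [1, 2, 4, 7, 8]), (4, 1, [0])]⟩,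
    ⟨[(1, 3), (2, 3)], [(2, 1), (3, 0), (3, 1), (3, 3), (3, 7), (3, 8)], [(1, 3), (1, 7),
      (1, 8), (3, 7), (3, 8), (7, 8)], [], [(4, 1, [0]), (5, 7, [0]), (6, 8, [0]), (7, 3,
      [])]⟩,
    ⟨[(1, 3), (2, 3), (3, 4)], [(1, 0), (3, 0), (3, 1), (3, 3), (4, 0), (4, 1), (4, 3), (4,
      7), (4, 8)], [(0, 3), (3, 3)], [6], [(3, 0, [1, 2, 4, 7, 8]), (7, 3, []), (9, 3, [])]⟩,
    ⟨[(3, 5), (4, 5)], [(0, 2), (5, 0), (5, 2), (5, 3)], [(2, 3)], [6], [(1, 2, [0]), (9,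
      3, [])]⟩]
  Ta := [((7, 6), 3, 8), ((7, 8), 3, 6), ((9, 1), 3, 2), ((9, 3), 3, 0)]
  Tb := [((0, 1, 3), 5, 2, 0), ((1, 0, 2), 2, 5, 4), ((1, 0, 8), 2, 5, 6), ((1, 0, 9), 2, 5, 3),
    ((1, 2, 8), 2, 4, 6), ((1, 2, 9), 2, 4, 3), ((1, 8, 9), 2, 6, 3), ((2, 1, 4), 4, 2, 1),
    ((3, 0, 9), 0, 5, 3), ((4, 2, 5), 1, 4, 7), ((5, 4, 6), 7, 1, 8), ((6, 5, 7), 8, 7, 3),
    ((7, 6, 8), 3, 8, 6), ((8, 1, 7), 6, 2, 3), ((9, 1, 3), 3, 2, 0)]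
  Tc := [(0, 1, 2), (0, 1, 4), (0, 1, 7), (0, 1, 8), (0, 2, 4), (0, 2, 7), (0, 2, 8), (0, 4, 7),
    (0, 4, 8), (0, 7, 8)]
  Td := [((0, 1), (3, 0), 5), ((0, 1), (3, 9), 3), ((0, 2), (3, 0), 5), ((0, 2), (3, 9), 3), ((0,
    4), (3, 0), 5), ((0, 4), (3, 9), 3), ((0, 7), (3, 0), 5), ((0, 7), (3, 9), 3), ((0, 8),
    (3, 0), 5), ((0, 8), (3, 9), 3), ((1, 0), (4, 2), 4), ((1, 0), (4, 5), 7), ((2, 0), (1,
    0), 5), ((2, 0), (1, 2), 4), ((2, 0), (1, 8), 6), ((2, 0), (1, 9), 3), ((4, 0), (2, 1),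
    2), ((4, 0), (2, 4), 1), ((7, 0), (5, 4), 1), ((7, 0), (5, 6), 8), ((8, 0), (6, 5), 7),
    ((8, 0), (6, 7), 3)]
  G := [[0, 0x521285212441ce182e1, 0x112e1418142e1841141e1812e, 0x815e141841ce181481ce1412d,
    0x2a8e1418132e1412212e1844b], [0, 0xd2128d2184149e182e1, 0x112e141244182a1c144182a1c1c3,
    0x815e1418149e18144161881c12d, 0x192e1418192e1812192e1844b]]

noncomputable def n2586 : Ent := ⟨e2586, noF, [], [], []⟩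

def c2586 : PLift (Cov.check n2586.C.D v2586 = true) := ⟨by decide +kernel⟩

def b2586 : PLift (entF (fidx ts) 400 2586 n2586 = true) := ⟨by decide +kernel⟩

theorem g2586 : GoodF (fidx ts) 400 2586 := GoodF.ofV v2586 n2586 c2586.down b2586.down

/-- 4646674:2126 -/
noncomputable def e2587 : SCfg where
  D := {
    a := 7
    L := 11
    kp := 9
    inn := [(0, 1), (1, 0), (1, 2), (1, 3), (2, 1), (2, 3), (3, 1), (3, 2), (3, 4), (3, 5), (4, 3), (4,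
      5), (5, 3), (5, 4), (5, 6), (6, 5)]
    mix := [(0, 0), (0, 1), (0, 2), (1, 0), (1, 2), (1, 3), (2, 2), (2, 4), (3, 3), (3, 4), (4, 4), (4,
      5), (4, 6), (4, 7), (5, 3), (5, 7), (5, 8), (5, 9), (6, 8), (6, 9), (6, 10)]
    cl := [2, 6, 1, 0, 4, 7, 8, 3, 5, 3, 9]
    chq := [(0, 1), (0, 4), (0, 6), (0, 7), (0, 8), (1, 0), (4, 0), (6, 0), (7, 0), (8, 0)]
    rng := [(0, 1), (0, 3), (1, 0), (1, 2), (2, 1), (2, 4), (3, 0), (3, 9), (4, 2), (4, 5), (5, 4), (5,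
      6), (6, 5), (6, 7), (7, 6), (7, 8), (8, 7), (8, 10), (9, 3), (9, 10), (10, 8), (10, 9)]
    lev := [] }
  links := [[1, 7, 8, 9], [7, 0, 9, 2, 3, 10], [3, 1, 9, 11], [10, 1, 2, 11, 4, 5], [5, 3, 11, 12, 13,
    14], [10, 3, 4, 14, 15, 6, 16], [16, 5, 15, 17]]
  P := {
    a := 7
    N := 18
    nb := [898, 1677, 2570, 3126, 30760, 115800, 229408, 1283, 641, 2311, 65706, 4636, 10256, 20496,
      41008, 147552, 132192, 98368]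
    tri := [(0, 1, 7), (0, 1, 9), (0, 7, 8), (0, 8, 9), (1, 2, 3), (1, 2, 9), (1, 3, 10), (1, 7, 10),
      (2, 3, 11), (2, 9, 11), (3, 4, 5), (3, 4, 11), (3, 5, 10), (4, 5, 14), (4, 11, 12), (4, 12,
      13), (4, 13, 14), (5, 6, 15), (5, 6, 16), (5, 10, 16), (5, 14, 15), (6, 15, 17), (6, 16,
      17)]
    fin := [0, 0, 2, 3, 3, 5, 5, 7, 0, 2, 3, 11, 12, 13, 5, 15, 5, 17]
    chd := [(0, 3), (2, 3), (3, 11), (3, 12), (3, 13)]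
    steps := [(0, 1), (0, 8), (2, 9), (3, 4), (3, 10), (5, 6), (5, 14), (5, 16)] }
  rep := [3, 2, 7, 5, 11, 15, 0, 12, 13, 17]

noncomputable def v2587 : Cov.CovD where
  P := 3
  N := 7
  pl := [0, 8, 10]
  lev := [⟨[], [], [(1, 6)], [2], [(1, 6, [0]), (2, 1, [0])]⟩,
    ⟨[], [(0, 0), (0, 1), (0, 6)], [(0, 1)], [2], [(2, 1, [0]), (3, 0, [1, 4, 6, 7, 8])]⟩,
    ⟨[(0, 1)], [(0, 1), (1, 0), (1, 1), (1, 4)], [(1, 4)], [], [(2, 1, [0]), (4, 4, [0])]⟩,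
    ⟨[(0, 1), (1, 2)], [(1, 0), (1, 1), (1, 4), (2, 0), (2, 1), (2, 4)], [(0, 4)], [], [(3,
      0, [1, 4, 6, 7, 8]), (4, 4, [0])]⟩,
    ⟨[(1, 3), (2, 3)], [(2, 4), (3, 0), (3, 3), (3, 4), (3, 7), (3, 8)], [(3, 4), (3, 7),
      (3, 8), (4, 7), (4, 8), (7, 8)], [], [(4, 4, [0]), (5, 7, [0]), (6, 8, [0]), (7, 3,
      [])]⟩,
    ⟨[(1, 3), (2, 3), (3, 4)], [(1, 0), (3, 0), (3, 3), (3, 4), (4, 0), (4, 3), (4, 4), (4,
      7), (4, 8)], [(0, 3), (3, 3)], [5], [(3, 0, [1, 4, 6, 7, 8]), (7, 3, []), (9, 3, [])]⟩,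
    ⟨[(3, 5), (4, 5)], [(5, 0), (5, 3)], [], [5, 9], [(9, 3, [])]⟩]
  Ta := [((7, 6), 3, 8), ((7, 8), 3, 5), ((9, 3), 3, 0), ((9, 10), 3, 9)]
  Tb := [((0, 1, 3), 2, 6, 0), ((1, 0, 2), 6, 2, 1), ((2, 1, 4), 1, 6, 4), ((3, 0, 9), 0, 2, 3),
    ((4, 2, 5), 4, 1, 7), ((5, 4, 6), 7, 4, 8), ((6, 5, 7), 8, 7, 3), ((7, 6, 8), 3, 8, 5),
    ((8, 7, 10), 5, 3, 9), ((9, 3, 10), 3, 0, 9), ((10, 8, 9), 9, 5, 3)]
  Tc := [(0, 1, 4), (0, 1, 6), (0, 1, 7), (0, 1, 8), (0, 4, 6), (0, 4, 7), (0, 4, 8), (0, 6, 7),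
    (0, 6, 8), (0, 7, 8)]
  Td := [((0, 1), (3, 0), 2), ((0, 1), (3, 9), 3), ((0, 4), (3, 0), 2), ((0, 4), (3, 9), 3), ((0,
    6), (3, 0), 2), ((0, 6), (3, 9), 3), ((0, 7), (3, 0), 2), ((0, 7), (3, 9), 3), ((0, 8),
    (3, 0), 2), ((0, 8), (3, 9), 3), ((1, 0), (2, 1), 6), ((1, 0), (2, 4), 4), ((4, 0), (4,
    2), 1), ((4, 0), (4, 5), 7), ((6, 0), (1, 0), 2), ((6, 0), (1, 2), 1), ((7, 0), (5, 4),
    4), ((7, 0), (5, 6), 8), ((8, 0), (6, 5), 7), ((8, 0), (6, 7), 3)]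
  G := [[0, 0xa361981c32195c16a41, 0x653e19ace1a149a3e165ce1618c, 0x5c61981c9ace12941,
    0x54193a1c65ce12581], [0, 0x93a1445361895c12ac1, 0x526193a1951e1e14913e184c161153e181cc,
    0x5361981a93a15416941, 0x93a154165361981a581]]

noncomputable def n2587 : Ent := ⟨e2587, noF, [], [], [(8, 12, [7334790875884700912148207959429466810732110717284923962112213598179329, 0]), (8, 17, [6903326391201334775872065844685381424292761054348340378595029940281345, 0])]⟩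

def c2587 : PLift (Cov.check n2587.C.D v2587 = true) := ⟨by decide +kernel⟩

def b2587 : PLift (entF (fidx ts) 400 2587 n2587 = true) := ⟨by decide +kernel⟩

theorem g2587 : GoodF (fidx ts) 400 2587 := GoodF.ofV v2587 n2587 c2587.down b2587.down

/-- 4647464:2127/3 -/
noncomputable def e2588 : SCfg where
  D := {
    a := 7
    L := 8
    kp := 5
    inn := [(0, 1), (1, 0), (1, 2), (1, 3), (2, 1), (3, 1), (3, 4), (3, 5), (4, 3), (5, 3), (5, 6), (6,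
      5)]
    mix := [(0, 0), (0, 1), (0, 2), (1, 0), (1, 2), (1, 3), (2, 2), (2, 3), (2, 4), (3, 0), (3, 3), (3,
      5), (3, 6), (4, 3), (4, 4), (4, 5), (5, 0), (5, 1), (5, 6), (5, 7), (6, 1), (6, 2), (6, 7)]
    cl := [0, 3, 1, 0, 2, 5, 0, 4]
    chq := [(0, 1), (1, 0), (3, 4), (4, 3)]
    rng := [(0, 1), (1, 0), (1, 2), (2, 1), (2, 4), (2, 7), (3, 4), (4, 2), (4, 3), (4, 5), (5, 4), (5,
      6), (6, 5), (6, 7), (7, 2), (7, 6)]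
    lev := [] }
  links := [[1, 7, 8, 9], [7, 0, 9, 2, 10, 3], [10, 1, 9, 11], [7, 1, 10, 4, 12, 13, 5], [12, 3, 10, 11],
    [7, 3, 13, 14, 6, 8], [8, 5, 14, 9]]
  P := {
    a := 7
    N := 15
    nb := [898, 1677, 3586, 13490, 7176, 25032, 17184, 299, 737, 18759, 2078, 5652, 10264, 20520,
      8800]
    tri := [(0, 1, 7), (0, 1, 9), (0, 7, 8), (0, 8, 9), (1, 2, 9), (1, 2, 10), (1, 3, 7), (1, 3, 10),
      (2, 9, 11), (2, 10, 11), (3, 4, 10), (3, 4, 12), (3, 5, 7), (3, 5, 13), (3, 12, 13), (4, 10,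
      11), (4, 11, 12), (5, 6, 8), (5, 6, 14), (5, 7, 8), (5, 13, 14), (6, 8, 9), (6, 9, 14)]
    fin := [0, 0, 0, 0, 0, 0, 6, 0, 6, 9, 0, 11, 12, 0, 14]
    chd := [(0, 9), (6, 14)]
    steps := [(0, 1), (0, 2), (0, 3), (0, 7), (0, 5), (0, 10), (0, 4), (0, 13), (6, 8)] }
  rep := [0, 9, 11, 6, 14, 12]

noncomputable def v2588 : Cov.CovD where
  P := 3
  N := 3
  pl := [4, 5]
  lev := [⟨[], [], [(0, 1), (0, 3), (1, 3)], [], [(0, 0, [1]), (1, 3, [4]), (2, 1, [0])]⟩,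
    ⟨[], [(0, 0), (0, 1), (0, 3)], [(0, 0), (0, 1)], [], [(0, 0, [1]), (2, 1, [0]), (3, 0,
      [1])]⟩,
    ⟨[(0, 1)], [(0, 1), (1, 0), (1, 1)], [(0, 1)], [2], [(2, 1, [0]), (3, 0, [1])]⟩,
    ⟨[(0, 1), (1, 2)], [(0, 0), (1, 0), (1, 1), (2, 0)], [(0, 0)], [5], [(0, 0, [1]), (3,
      0, [1]), (6, 0, [1])]⟩,
    ⟨[(1, 3)], [(1, 0), (2, 0), (3, 0)], [], [2, 5], [(3, 0, [1])]⟩,
    ⟨[(1, 3), (3, 4)], [(0, 0), (0, 3), (1, 0), (3, 0), (3, 3), (3, 4)], [(0, 0), (0, 3),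
      (0, 4), (3, 4)], [], [(0, 0, [1]), (1, 3, [4]), (6, 0, [1]), (7, 4, [3])]⟩,
    ⟨[(3, 5)], [(0, 1), (0, 3), (1, 1), (2, 1), (5, 0), (5, 1), (5, 3), (5, 4)], [(1, 3),
      (1, 4), (3, 4)], [], [(1, 3, [4]), (2, 1, [0]), (7, 4, [3])]⟩]
  Ta := [((0, 1), 0, 3), ((3, 4), 0, 2), ((6, 5), 0, 5), ((6, 7), 0, 4)]
  Tb := [((1, 0, 2), 3, 0, 1), ((2, 1, 4), 1, 3, 2), ((2, 1, 7), 1, 3, 4), ((2, 4, 7), 1, 2, 4),
    ((4, 2, 3), 2, 1, 0), ((4, 2, 5), 2, 1, 5), ((4, 3, 5), 2, 0, 5), ((5, 4, 6), 5, 2, 0),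
    ((6, 5, 7), 0, 5, 4), ((7, 2, 6), 4, 1, 0)]
  Tc := []
  Td := [((0, 1), (0, 1), 3), ((0, 1), (3, 4), 2), ((0, 1), (6, 5), 5), ((0, 1), (6, 7), 4), ((1,
    0), (2, 1), 3), ((1, 0), (2, 4), 2), ((1, 0), (2, 7), 4), ((3, 4), (1, 0), 0), ((3, 4),
    (1, 2), 1), ((4, 3), (7, 2), 1), ((4, 3), (7, 6), 0)]
  G := [[0, 0x81c114c164812a181a1a446, 0, 0x121248d21288c, 0x149e181a1c8411614161a84c], [0,
    0x14c414c1a8412a181a86886, 0x1411ac1214ca6481, 0x1212c2841, 0x11681812a14c2e841], [0,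
    0x81c184c868812488111a1e486, 0, 0xd2d2c2141, 0x416881a184c2e841]]

noncomputable def n2588 : Ent := ⟨e2588, noF, [], [], []⟩

def c2588 : PLift (Cov.check n2588.C.D v2588 = true) := ⟨by decide +kernel⟩

def b2588 : PLift (entF (fidx ts) 400 2588 n2588 = true) := ⟨by decide +kernel⟩

theorem g2588 : GoodF (fidx ts) 400 2588 := GoodF.ofV v2588 n2588 c2588.down b2588.down

/-- 4647464:2127/2 -/
noncomputable def e2589 : SCfg where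
  D := {
    a := 7
    L := 9
    kp := 6
    inn := [(0, 1), (1, 0), (1, 2), (1, 3), (2, 1), (3, 1), (3, 4), (3, 5), (4, 3), (5, 3), (5, 6), (6,
      5)]
    mix := [(0, 0), (0, 1), (0, 2), (1, 0), (1, 2), (1, 3), (2, 2), (2, 3), (2, 4), (3, 0), (3, 3), (3,
      5), (3, 6), (4, 3), (4, 5), (4, 7), (5, 0), (5, 1), (5, 6), (5, 8), (6, 1), (6, 2), (6, 8)]
    cl := [0, 3, 1, 0, 5, 2, 0, 6, 4]
    chq := [(0, 1), (1, 0), (3, 4), (4, 3)]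
    rng := [(0, 1), (1, 0), (1, 2), (2, 1), (2, 4), (2, 8), (3, 4), (3, 7), (4, 2), (4, 3), (5, 6), (5,
      7), (6, 5), (6, 8), (7, 3), (7, 5), (8, 2), (8, 6)]
    lev := [] }
  links := [[1, 7, 8, 9], [7, 0, 9, 2, 10, 3], [10, 1, 9, 11], [7, 1, 10, 4, 12, 13, 5], [12, 3, 10, 14],
    [7, 3, 13, 15, 6, 8], [8, 5, 15, 9]]
  P := {
    a := 7
    N := 16
    nb := [898, 1677, 3586, 13490, 21512, 41416, 33568, 299, 737, 35143, 18462, 1540, 24600, 36904,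
      5136, 8800]
    tri := [(0, 1, 7), (0, 1, 9), (0, 7, 8), (0, 8, 9), (1, 2, 9), (1, 2, 10), (1, 3, 7), (1, 3, 10),
      (2, 9, 11), (2, 10, 11), (3, 4, 10), (3, 4, 12), (3, 5, 7), (3, 5, 13), (3, 12, 13), (4, 10,
      14), (4, 12, 14), (5, 6, 8), (5, 6, 15), (5, 7, 8), (5, 13, 15), (6, 8, 9), (6, 9, 15)]
    fin := [0, 0, 0, 0, 0, 0, 6, 0, 6, 9, 0, 11, 12, 0, 14, 15]
    chd := [(0, 9), (6, 15)]
    steps := [(0, 1), (0, 2), (0, 3), (0, 4), (0, 7), (0, 5), (0, 10), (0, 13), (6, 8)] }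
  rep := [0, 9, 12, 6, 15, 11, 14]

noncomputable def v2589 : Cov.CovD where
  P := 3
  N := 4
  pl := [4, 5, 7]
  lev := [⟨[], [], [(0, 1), (0, 3), (1, 3)], [], [(0, 0, [1]), (1, 3, [4]), (2, 1, [0])]⟩,
    ⟨[], [(0, 0), (0, 1), (0, 3)], [(0, 0), (0, 1)], [], [(0, 0, [1]), (2, 1, [0]), (3, 0,
      [1])]⟩,
    ⟨[(0, 1)], [(0, 1), (1, 0), (1, 1)], [(0, 1)], [5], [(2, 1, [0]), (3, 0, [1])]⟩,
    ⟨[(0, 1), (1, 2)], [(0, 0), (1, 0), (1, 1), (2, 0)], [(0, 0)], [2], [(0, 0, [1]), (3,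
      0, [1]), (6, 0, [1])]⟩,
    ⟨[(1, 3)], [(1, 0), (2, 0), (3, 0)], [], [2, 6], [(3, 0, [1])]⟩,
    ⟨[(1, 3), (3, 4)], [(0, 0), (0, 3), (1, 0), (3, 0), (3, 3), (3, 4)], [(0, 0), (0, 3),
      (0, 4), (3, 4)], [], [(0, 0, [1]), (1, 3, [4]), (6, 0, [1]), (8, 4, [3])]⟩,
    ⟨[(3, 5)], [(0, 1), (0, 3), (1, 1), (2, 1), (5, 0), (5, 1), (5, 3), (5, 4)], [(1, 3),
      (1, 4), (3, 4)], [], [(1, 3, [4]), (2, 1, [0]), (8, 4, [3])]⟩]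
  Ta := [((0, 1), 0, 3), ((3, 4), 0, 5), ((3, 7), 0, 6), ((6, 5), 0, 2), ((6, 8), 0, 4)]
  Tb := [((1, 0, 2), 3, 0, 1), ((2, 1, 4), 1, 3, 5), ((2, 1, 8), 1, 3, 4), ((2, 4, 8), 1, 5, 4),
    ((3, 4, 7), 0, 5, 6), ((4, 2, 3), 5, 1, 0), ((5, 6, 7), 2, 0, 6), ((6, 5, 8), 0, 2, 4),
    ((7, 3, 5), 6, 0, 2), ((8, 2, 6), 4, 1, 0)]
  Tc := []
  Td := [((0, 1), (0, 1), 3), ((0, 1), (3, 4), 5), ((0, 1), (3, 7), 6), ((0, 1), (6, 5), 2), ((0,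
    1), (6, 8), 4), ((1, 0), (2, 1), 3), ((1, 0), (2, 4), 5), ((1, 0), (2, 8), 4), ((3, 4),
    (1, 0), 0), ((3, 4), (1, 2), 1), ((4, 3), (8, 2), 1), ((4, 3), (8, 6), 0)]
  G := [[0, 0x112e1428141e1884811e1448e, 0, 0x81a81ac41841641568c18c,
    0x12281a88aa1441624168a18c], [0, 0x11a1882a14641161412614c8c, 0,
    0x111e81ac4144111e11accc44488c1, 0x416141ea888a141e2841e8ac41], [0,
    0x11c1814c18c41161412614a8a, 0x12811e81ce2141, 0x444815e81acc181, 0x122841e84caa181]]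

noncomputable def n2589 : Ent := ⟨e2589, noF, [], [], [(11, 14, [385746751338780685620664494392815470296102193487288376383094785, 0])]⟩

def c2589 : PLift (Cov.check n2589.C.D v2589 = true) := ⟨by decide +kernel⟩

def b2589 : PLift (entF (fidx ts) 400 2589 n2589 = true) := ⟨by decide +kernel⟩

theorem g2589 : GoodF (fidx ts) 400 2589 := GoodF.ofV v2589 n2589 c2589.down b2589.down

/-- 4647464:2127/5 -/
noncomputable def e2590 : SCfg where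
  D := {
    a := 7
    L := 8
    kp := 5
    inn := [(0, 1), (1, 0), (1, 2), (1, 3), (2, 1), (3, 1), (3, 4), (3, 5), (4, 3), (5, 3), (5, 6), (6,
      5)]
    mix := [(0, 0), (0, 1), (0, 2), (1, 0), (1, 2), (1, 3), (2, 2), (2, 3), (2, 4), (3, 0), (3, 3), (3,
      5), (3, 6), (4, 3), (4, 4), (4, 5), (5, 0), (5, 1), (5, 6), (5, 7), (6, 1), (6, 4), (6, 7)]
    cl := [0, 3, 1, 0, 2, 5, 0, 4]
    chq := [(0, 1), (1, 0), (3, 4), (4, 3)]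
    rng := [(0, 1), (1, 0), (1, 2), (1, 4), (2, 1), (2, 4), (3, 4), (4, 1), (4, 2), (4, 3), (4, 5), (4,
      7), (5, 4), (5, 6), (6, 5), (6, 7), (7, 4), (7, 6)]
    lev := [] }
  links := [[1, 7, 8, 9], [7, 0, 9, 2, 10, 3], [10, 1, 9, 11], [7, 1, 10, 4, 12, 13, 5], [12, 3, 10, 11],
    [7, 3, 13, 14, 6, 8], [8, 5, 14, 11]]
  P := {
    a := 7
    N := 15
    nb := [898, 1677, 3586, 13490, 7176, 25032, 18720, 299, 2785, 2311, 2078, 22356, 10264, 20520,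
      10336]
    tri := [(0, 1, 7), (0, 1, 9), (0, 7, 8), (0, 8, 9), (1, 2, 9), (1, 2, 10), (1, 3, 7), (1, 3, 10),
      (2, 9, 11), (2, 10, 11), (3, 4, 10), (3, 4, 12), (3, 5, 7), (3, 5, 13), (3, 12, 13), (4, 10,
      11), (4, 11, 12), (5, 6, 8), (5, 6, 14), (5, 7, 8), (5, 13, 14), (6, 8, 11), (6, 11, 14)]
    fin := [0, 0, 0, 0, 0, 0, 6, 0, 6, 9, 0, 11, 12, 0, 14]
    chd := [(0, 9), (6, 14)]
    steps := [(0, 1), (0, 2), (0, 3), (0, 7), (0, 5), (0, 10), (0, 4), (0, 13), (6, 8)] }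
  rep := [0, 9, 11, 6, 14, 12]

noncomputable def v2590 : Cov.CovD where
  P := 3
  N := 3
  pl := [4, 5]
  lev := [⟨[], [], [(0, 1), (0, 3), (1, 3)], [], [(0, 0, [1]), (1, 3, [4]), (2, 1, [0])]⟩,
    ⟨[], [(0, 0), (0, 1), (0, 3)], [(0, 0), (0, 1)], [], [(0, 0, [1]), (2, 1, [0]), (3, 0,
      [1])]⟩,
    ⟨[(0, 1)], [(0, 1), (1, 0), (1, 1)], [(0, 1)], [2], [(2, 1, [0]), (3, 0, [1])]⟩,
    ⟨[(0, 1), (1, 2)], [(0, 0), (1, 0), (1, 1), (2, 0)], [(0, 0)], [5], [(0, 0, [1]), (3,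
      0, [1]), (6, 0, [1])]⟩,
    ⟨[(1, 3)], [(1, 0), (2, 0), (3, 0)], [], [2, 5], [(3, 0, [1])]⟩,
    ⟨[(1, 3), (3, 4)], [(0, 0), (0, 3), (1, 0), (3, 0), (3, 3), (3, 4)], [(0, 0), (0, 3),
      (0, 4), (3, 4)], [], [(0, 0, [1]), (1, 3, [4]), (6, 0, [1]), (7, 4, [3])]⟩,
    ⟨[(3, 5)], [(0, 3), (5, 0), (5, 3), (5, 4)], [(3, 4)], [2], [(1, 3, [4]), (7, 4, [3])]⟩]
  Ta := [((0, 1), 0, 3), ((3, 4), 0, 2), ((6, 5), 0, 5), ((6, 7), 0, 4)]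
  Tb := [((1, 0, 2), 3, 0, 1), ((1, 0, 4), 3, 0, 2), ((1, 2, 4), 3, 1, 2), ((2, 1, 4), 1, 3, 2),
    ((4, 1, 2), 2, 3, 1), ((4, 1, 3), 2, 3, 0), ((4, 1, 5), 2, 3, 5), ((4, 1, 7), 2, 3, 4),
    ((4, 2, 3), 2, 1, 0), ((4, 2, 5), 2, 1, 5), ((4, 2, 7), 2, 1, 4), ((4, 3, 5), 2, 0, 5),
    ((4, 3, 7), 2, 0, 4), ((4, 5, 7), 2, 5, 4), ((5, 4, 6), 5, 2, 0), ((6, 5, 7), 0, 5, 4),
    ((7, 4, 6), 4, 2, 0)]
  Tc := []
  Td := [((0, 1), (0, 1), 3), ((0, 1), (3, 4), 2), ((0, 1), (6, 5), 5), ((0, 1), (6, 7), 4), ((1,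
    0), (2, 1), 3), ((1, 0), (2, 4), 2), ((3, 4), (1, 0), 0), ((3, 4), (1, 2), 1), ((3, 4),
    (1, 4), 2), ((4, 3), (7, 4), 2), ((4, 3), (7, 6), 0)]
  G := [[0, 0x81c12481211161a44a, 0, 0x121244d21248c, 0x82a148412614b42298c], [0,
    0x14c12481244161688a, 0x4422682a484c2e481, 0x1212c2841, 0x811e12a81c26881], [0,
    0x84c128412111a1a446, 0, 0x12d252441, 0x18812e9492628981]]

noncomputable def n2590 : Ent := ⟨e2590, noF, [], [], []⟩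

def c2590 : PLift (Cov.check n2590.C.D v2590 = true) := ⟨by decide +kernel⟩

def b2590 : PLift (entF (fidx ts) 400 2590 n2590 = true) := ⟨by decide +kernel⟩

theorem g2590 : GoodF (fidx ts) 400 2590 := GoodF.ofV v2590 n2590 c2590.down b2590.down

/-- 4647464:2127/4 -/
noncomputable def e2591 : SCfg where
  D := {
    a := 7
    L := 9
    kp := 6
    inn := [(0, 1), (1, 0), (1, 2), (1, 3), (2, 1), (3, 1), (3, 4), (3, 5), (4, 3), (5, 3), (5, 6), (6,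
      5)]
    mix := [(0, 0), (0, 1), (0, 2), (1, 0), (1, 2), (1, 3), (2, 2), (2, 3), (2, 4), (3, 0), (3, 3), (3,
      5), (3, 6), (4, 3), (4, 4), (4, 5), (5, 0), (5, 1), (5, 6), (5, 7), (6, 1), (6, 7), (6, 8)]
    cl := [0, 3, 1, 0, 2, 5, 0, 4, 6]
    chq := [(0, 1), (1, 0), (3, 4), (4, 3)]
    rng := [(0, 1), (1, 0), (1, 2), (1, 8), (2, 1), (2, 4), (3, 4), (4, 2), (4, 3), (4, 5), (5, 4), (5,
      6), (6, 5), (6, 7), (7, 6), (7, 8), (8, 1), (8, 7)]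
    lev := [] }
  links := [[1, 7, 8, 9], [7, 0, 9, 2, 10, 3], [10, 1, 9, 11], [7, 1, 10, 4, 12, 13, 5], [12, 3, 10, 11],
    [7, 3, 13, 14, 6, 8], [8, 5, 14, 15]]
  P := {
    a := 7
    N := 16
    nb := [898, 1677, 3586, 13490, 7176, 25032, 49440, 299, 33505, 2311, 2078, 5652, 10264, 20520,
      41056, 16704]
    tri := [(0, 1, 7), (0, 1, 9), (0, 7, 8), (0, 8, 9), (1, 2, 9), (1, 2, 10), (1, 3, 7), (1, 3, 10),
      (2, 9, 11), (2, 10, 11), (3, 4, 10), (3, 4, 12), (3, 5, 7), (3, 5, 13), (3, 12, 13), (4, 10,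
      11), (4, 11, 12), (5, 6, 8), (5, 6, 14), (5, 7, 8), (5, 13, 14), (6, 8, 15), (6, 14, 15)]
    fin := [0, 0, 0, 0, 0, 0, 6, 0, 6, 9, 0, 11, 12, 0, 14, 15]
    chd := [(0, 9), (6, 14)]
    steps := [(0, 1), (0, 2), (0, 3), (0, 7), (0, 5), (0, 10), (0, 4), (0, 13), (6, 8)] }
  rep := [0, 9, 11, 6, 14, 12, 15]

noncomputable def v2591 : Cov.CovD where
  P := 3
  N := 4
  pl := [4, 5, 8]
  lev := [⟨[], [], [(0, 1), (0, 3), (1, 3)], [], [(0, 0, [1]), (1, 3, [4]), (2, 1, [0])]⟩,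
    ⟨[], [(0, 0), (0, 1), (0, 3)], [(0, 0), (0, 1)], [], [(0, 0, [1]), (2, 1, [0]), (3, 0,
      [1])]⟩,
    ⟨[(0, 1)], [(0, 1), (1, 0), (1, 1)], [(0, 1)], [2], [(2, 1, [0]), (3, 0, [1])]⟩,
    ⟨[(0, 1), (1, 2)], [(0, 0), (1, 0), (1, 1), (2, 0)], [(0, 0)], [5], [(0, 0, [1]), (3,
      0, [1]), (6, 0, [1])]⟩,
    ⟨[(1, 3)], [(1, 0), (2, 0), (3, 0)], [], [2, 5], [(3, 0, [1])]⟩,
    ⟨[(1, 3), (3, 4)], [(0, 0), (0, 3), (1, 0), (3, 0), (3, 3), (3, 4)], [(0, 0), (0, 3),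
      (0, 4), (3, 4)], [], [(0, 0, [1]), (1, 3, [4]), (6, 0, [1]), (7, 4, [3])]⟩,
    ⟨[(3, 5)], [(0, 3), (5, 0), (5, 3), (5, 4)], [(3, 4)], [6], [(1, 3, [4]), (7, 4, [3])]⟩]
  Ta := [((0, 1), 0, 3), ((3, 4), 0, 2), ((6, 5), 0, 5), ((6, 7), 0, 4)]
  Tb := [((1, 0, 2), 3, 0, 1), ((1, 0, 8), 3, 0, 6), ((1, 2, 8), 3, 1, 6), ((2, 1, 4), 1, 3, 2),
    ((4, 2, 3), 2, 1, 0), ((4, 2, 5), 2, 1, 5), ((4, 3, 5), 2, 0, 5), ((5, 4, 6), 5, 2, 0),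
    ((6, 5, 7), 0, 5, 4), ((7, 6, 8), 4, 0, 6), ((8, 1, 7), 6, 3, 4)]
  Tc := []
  Td := [((0, 1), (0, 1), 3), ((0, 1), (3, 4), 2), ((0, 1), (6, 5), 5), ((0, 1), (6, 7), 4), ((1,
    0), (2, 1), 3), ((1, 0), (2, 4), 2), ((3, 4), (1, 0), 0), ((3, 4), (1, 2), 1), ((3, 4),
    (1, 8), 6), ((4, 3), (7, 6), 0), ((4, 3), (7, 8), 6)]
  G := [[0, 0x541988c95c12c4221453685161ac4a, 0, 0x22122191a1e84221224c4516128cc,
    0x13a183a1c982294136244261536881cc], [0, 0x984981648541541a84328324c42e,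
    0x93a444536895c2a8c1, 0x22448228951e951eca8c1, 0x95c22853689832ac8c1], [0,
    0x88198164815c1541a4232113a1c84e, 0, 0x536832195c985e841, 0x536893a195c2e841]]

noncomputable def n2591 : Ent := ⟨e2591, noF, [], [], [(9, 15, [360035742630636841211993100915356868655746945586763691018272769, 0]), (11, 15, [360035742630636841211993100915356868655746945586763691018280961, 0])]⟩

def c2591 : PLift (Cov.check n2591.C.D v2591 = true) := ⟨by decide +kernel⟩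

def b2591 : PLift (entF (fidx ts) 400 2591 n2591 = true) := ⟨by decide +kernel⟩

theorem g2591 : GoodF (fidx ts) 400 2591 := GoodF.ofV v2591 n2591 c2591.down b2591.down

/-- 4647464:2127/6 -/
noncomputable def e2592 : SCfg where
  D := {
    a := 7
    L := 9
    kp := 6
    inn := [(0, 1), (1, 0), (1, 2), (1, 3), (2, 1), (3, 1), (3, 4), (3, 5), (4, 3), (5, 3), (5, 6), (6,
      5)]
    mix := [(0, 0), (0, 1), (0, 2), (1, 0), (1, 2), (1, 3), (2, 2), (2, 3), (2, 4), (3, 0), (3, 3), (3,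
      5), (3, 6), (4, 3), (4, 5), (4, 7), (5, 0), (5, 1), (5, 6), (5, 8), (6, 1), (6, 4), (6, 8)]
    cl := [0, 3, 1, 0, 2, 5, 0, 6, 4]
    chq := [(0, 1), (1, 0), (3, 4), (4, 3)]
    rng := [(0, 1), (1, 0), (1, 2), (1, 4), (2, 1), (2, 4), (3, 4), (3, 7), (4, 1), (4, 2), (4, 3), (4,
      8), (5, 6), (5, 7), (6, 5), (6, 8), (7, 3), (7, 5), (8, 4), (8, 6)]
    lev := [] }
  links := [[1, 7, 8, 9], [7, 0, 9, 2, 10, 3], [10, 1, 9, 11], [7, 1, 10, 4, 12, 13, 5], [12, 3, 10, 14],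
    [7, 3, 13, 15, 6, 8], [8, 5, 15, 11]]
  P := {
    a := 7
    N := 16
    nb := [898, 1677, 3586, 13490, 21512, 41416, 35104, 299, 2785, 2311, 18462, 34628, 24600, 36904,
      5136, 10336]
    tri := [(0, 1, 7), (0, 1, 9), (0, 7, 8), (0, 8, 9), (1, 2, 9), (1, 2, 10), (1, 3, 7), (1, 3, 10),
      (2, 9, 11), (2, 10, 11), (3, 4, 10), (3, 4, 12), (3, 5, 7), (3, 5, 13), (3, 12, 13), (4, 10,
      14), (4, 12, 14), (5, 6, 8), (5, 6, 15), (5, 7, 8), (5, 13, 15), (6, 8, 11), (6, 11, 15)]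
    fin := [0, 0, 0, 0, 0, 0, 6, 0, 6, 9, 0, 11, 12, 0, 14, 15]
    chd := [(0, 9), (6, 15)]
    steps := [(0, 1), (0, 2), (0, 3), (0, 4), (0, 7), (0, 5), (0, 10), (0, 13), (6, 8)] }
  rep := [0, 9, 11, 6, 15, 12, 14]

noncomputable def v2592 : Cov.CovD where
  P := 3
  N := 4
  pl := [4, 5, 7]
  lev := [⟨[], [], [(0, 1), (0, 3), (1, 3)], [], [(0, 0, [1]), (1, 3, [4]), (2, 1, [0])]⟩,
    ⟨[], [(0, 0), (0, 1), (0, 3)], [(0, 0), (0, 1)], [], [(0, 0, [1]), (2, 1, [0]), (3, 0,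
      [1])]⟩,
    ⟨[(0, 1)], [(0, 1), (1, 0), (1, 1)], [(0, 1)], [2], [(2, 1, [0]), (3, 0, [1])]⟩,
    ⟨[(0, 1), (1, 2)], [(0, 0), (1, 0), (1, 1), (2, 0)], [(0, 0)], [5], [(0, 0, [1]), (3,
      0, [1]), (6, 0, [1])]⟩,
    ⟨[(1, 3)], [(1, 0), (2, 0), (3, 0)], [], [5, 6], [(3, 0, [1])]⟩,
    ⟨[(1, 3), (3, 4)], [(0, 0), (0, 3), (1, 0), (3, 0), (3, 3), (3, 4)], [(0, 0), (0, 3),
      (0, 4), (3, 4)], [], [(0, 0, [1]), (1, 3, [4]), (6, 0, [1]), (8, 4, [3])]⟩,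
    ⟨[(3, 5)], [(0, 3), (5, 0), (5, 3), (5, 4)], [(3, 4)], [2], [(1, 3, [4]), (8, 4, [3])]⟩]
  Ta := [((0, 1), 0, 3), ((3, 4), 0, 2), ((3, 7), 0, 6), ((6, 5), 0, 5), ((6, 8), 0, 4)]
  Tb := [((1, 0, 2), 3, 0, 1), ((1, 0, 4), 3, 0, 2), ((1, 2, 4), 3, 1, 2), ((2, 1, 4), 1, 3, 2),
    ((3, 4, 7), 0, 2, 6), ((4, 1, 2), 2, 3, 1), ((4, 1, 3), 2, 3, 0), ((4, 1, 8), 2, 3, 4),
    ((4, 2, 3), 2, 1, 0), ((4, 2, 8), 2, 1, 4), ((4, 3, 8), 2, 0, 4), ((5, 6, 7), 5, 0, 6),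
    ((6, 5, 8), 0, 5, 4), ((7, 3, 5), 6, 0, 5), ((8, 4, 6), 4, 2, 0)]
  Tc := []
  Td := [((0, 1), (0, 1), 3), ((0, 1), (3, 4), 2), ((0, 1), (3, 7), 6), ((0, 1), (6, 5), 5), ((0,
    1), (6, 8), 4), ((1, 0), (2, 1), 3), ((1, 0), (2, 4), 2), ((3, 4), (1, 0), 0), ((3, 4),
    (1, 2), 1), ((3, 4), (1, 4), 2), ((4, 3), (8, 4), 2), ((4, 3), (8, 6), 0)]
  G := [[0, 0x81c114c168811a181a16886, 0, 0x521d21684921121688c, 0x82a181a168412611161a84c], [0,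
    0x11c114c1a8411a111a1c826, 0x8882a22e444264422e884484cea8c1, 0x121212e12861228c81,
    0x81a4481261422e8822a881411cee8c1], [0, 0x81c184c164811a111a1a446, 0, 0xd218d2d264581,
    0x192e182a2831e146e841]]

noncomputable def n2592 : Ent := ⟨e2592, noF, [], [], [(11, 14, [385746751338780685620664494392815470296102193487288376383102977, 0])]⟩

def c2592 : PLift (Cov.check n2592.C.D v2592 = true) := ⟨by decide +kernel⟩

def b2592 : PLift (entF (fidx ts) 400 2592 n2592 = true) := ⟨by decide +kernel⟩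

theorem g2592 : GoodF (fidx ts) 400 2592 := GoodF.ofV v2592 n2592 c2592.down b2592.down

/-- 4647464:2127/7 -/
noncomputable def e2593 : SCfg where
  D := {
    a := 7
    L := 9
    kp := 6
    inn := [(0, 1), (1, 0), (1, 2), (1, 3), (2, 1), (3, 1), (3, 4), (3, 5), (4, 3), (5, 3), (5, 6), (6,
      5)]
    mix := [(0, 0), (0, 1), (0, 2), (1, 0), (1, 2), (1, 3), (2, 2), (2, 3), (2, 4), (3, 0), (3, 3), (3,
      5), (3, 6), (4, 3), (4, 5), (4, 7), (5, 0), (5, 1), (5, 6), (5, 8), (6, 1), (6, 7), (6, 8)]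
    cl := [0, 3, 1, 0, 6, 2, 0, 5, 4]
    chq := [(0, 1), (1, 0), (3, 4), (4, 3)]
    rng := [(0, 1), (1, 0), (1, 2), (1, 7), (2, 1), (2, 4), (3, 4), (3, 7), (4, 2), (4, 3), (5, 6), (5,
      7), (6, 5), (6, 8), (7, 1), (7, 3), (7, 5), (7, 8), (8, 6), (8, 7)]
    lev := [] }
  links := [[1, 7, 8, 9], [7, 0, 9, 2, 10, 3], [10, 1, 9, 11], [7, 1, 10, 4, 12, 13, 5], [12, 3, 10, 14],
    [7, 3, 13, 15, 6, 8], [8, 5, 15, 14]]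
  P := {
    a := 7
    N := 16
    nb := [898, 1677, 3586, 13490, 21512, 41416, 49440, 299, 17121, 2311, 18462, 1540, 24600, 36904,
      38224, 24672]
    tri := [(0, 1, 7), (0, 1, 9), (0, 7, 8), (0, 8, 9), (1, 2, 9), (1, 2, 10), (1, 3, 7), (1, 3, 10),
      (2, 9, 11), (2, 10, 11), (3, 4, 10), (3, 4, 12), (3, 5, 7), (3, 5, 13), (3, 12, 13), (4, 10,
      14), (4, 12, 14), (5, 6, 8), (5, 6, 15), (5, 7, 8), (5, 13, 15), (6, 8, 14), (6, 14, 15)]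
    fin := [0, 0, 0, 0, 0, 0, 6, 0, 6, 9, 0, 11, 12, 0, 14, 15]
    chd := [(0, 9), (6, 15)]
    steps := [(0, 1), (0, 2), (0, 3), (0, 4), (0, 7), (0, 5), (0, 10), (0, 13), (6, 8)] }
  rep := [0, 9, 12, 6, 15, 14, 11]

noncomputable def v2593 : Cov.CovD where
  P := 3
  N := 4
  pl := [4, 5, 7]
  lev := [⟨[], [], [(0, 1), (0, 3), (1, 3)], [], [(0, 0, [1]), (1, 3, [4]), (2, 1, [0])]⟩,
    ⟨[], [(0, 0), (0, 1), (0, 3)], [(0, 0), (0, 1)], [], [(0, 0, [1]), (2, 1, [0]), (3, 0,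
      [1])]⟩,
    ⟨[(0, 1)], [(0, 1), (1, 0), (1, 1)], [(0, 1)], [6], [(2, 1, [0]), (3, 0, [1])]⟩,
    ⟨[(0, 1), (1, 2)], [(0, 0), (1, 0), (1, 1), (2, 0)], [(0, 0)], [2], [(0, 0, [1]), (3,
      0, [1]), (6, 0, [1])]⟩,
    ⟨[(1, 3)], [(1, 0), (2, 0), (3, 0)], [], [2, 5], [(3, 0, [1])]⟩,
    ⟨[(1, 3), (3, 4)], [(0, 0), (0, 3), (1, 0), (3, 0), (3, 3), (3, 4)], [(0, 0), (0, 3),
      (0, 4), (3, 4)], [], [(0, 0, [1]), (1, 3, [4]), (6, 0, [1]), (8, 4, [3])]⟩,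
    ⟨[(3, 5)], [(0, 3), (5, 0), (5, 3), (5, 4)], [(3, 4)], [5], [(1, 3, [4]), (8, 4, [3])]⟩]
  Ta := [((0, 1), 0, 3), ((3, 4), 0, 6), ((3, 7), 0, 5), ((6, 5), 0, 2), ((6, 8), 0, 4)]
  Tb := [((1, 0, 2), 3, 0, 1), ((1, 0, 7), 3, 0, 5), ((1, 2, 7), 3, 1, 5), ((2, 1, 4), 1, 3, 6),
    ((3, 4, 7), 0, 6, 5), ((4, 2, 3), 6, 1, 0), ((5, 6, 7), 2, 0, 5), ((6, 5, 8), 0, 2, 4),
    ((7, 1, 3), 5, 3, 0), ((7, 1, 5), 5, 3, 2), ((7, 1, 8), 5, 3, 4), ((7, 3, 5), 5, 0, 2),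
    ((7, 3, 8), 5, 0, 4), ((7, 5, 8), 5, 2, 4), ((8, 6, 7), 4, 0, 5)]
  Tc := []
  Td := [((0, 1), (0, 1), 3), ((0, 1), (3, 4), 6), ((0, 1), (3, 7), 5), ((0, 1), (6, 5), 2), ((0,
    1), (6, 8), 4), ((1, 0), (2, 1), 3), ((1, 0), (2, 4), 6), ((3, 4), (1, 0), 0), ((3, 4),
    (1, 2), 1), ((3, 4), (1, 7), 5), ((4, 3), (8, 6), 0), ((4, 3), (8, 7), 5)]
  G := [[0, 0x11c1411c14a211a1411a14686, 0, 0x82a11ac418126436c814c,
    0x12a281a8a1422241654aa18c], [0, 0x11c1411c14c811a1811a18c26, 0,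
    0x444812e11acc414142ec81a8c8c1, 0x142e2811e8a416112ea888ac41], [0,
    0x11c1411c14681161811614c2a, 0x841e1211ce2141, 0x14142ec83a8c141, 0x152e2841e8a141]]

noncomputable def n2593 : Ent := ⟨e2593, noF, [], [], [(11, 14, [385746751338780685620664494392815470296102193487288376383102977, 0])]⟩

def c2593 : PLift (Cov.check n2593.C.D v2593 = true) := ⟨by decide +kernel⟩

def b2593 : PLift (entF (fidx ts) 400 2593 n2593 = true) := ⟨by decide +kernel⟩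

theorem g2593 : GoodF (fidx ts) 400 2593 := GoodF.ofV v2593 n2593 c2593.down b2593.down

/-- 4647464:2127/1 -/
noncomputable def e2594 : SCfg where
  D := {
    a := 7
    L := 10
    kp := 7
    inn := [(0, 1), (1, 0), (1, 2), (1, 3), (2, 1), (3, 1), (3, 4), (3, 5), (4, 3), (5, 3), (5, 6), (6,
      5)]
    mix := [(0, 0), (0, 1), (0, 2), (1, 0), (1, 2), (1, 3), (2, 2), (2, 3), (2, 4), (3, 0), (3, 3), (3,
      5), (3, 6), (4, 3), (4, 5), (4, 7), (5, 0), (5, 1), (5, 6), (5, 8), (6, 1), (6, 8), (6, 9)]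
    cl := [0, 3, 1, 0, 5, 2, 0, 6, 4, 7]
    chq := [(0, 1), (1, 0), (3, 4), (4, 3)]
    rng := [(0, 1), (1, 0), (1, 2), (1, 9), (2, 1), (2, 4), (3, 4), (3, 7), (4, 2), (4, 3), (5, 6), (5,
      7), (6, 5), (6, 8), (7, 3), (7, 5), (8, 6), (8, 9), (9, 1), (9, 8)]
    lev := [] }
  links := [[1, 7, 8, 9], [7, 0, 9, 2, 10, 3], [10, 1, 9, 11], [7, 1, 10, 4, 12, 13, 5], [12, 3, 10, 14],
    [7, 3, 13, 15, 6, 8], [8, 5, 15, 16]]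
  P := {
    a := 7
    N := 17
    nb := [898, 1677, 3586, 13490, 21512, 41416, 98592, 299, 66273, 2311, 18462, 1540, 24600, 36904,
      5136, 73824, 33088]
    tri := [(0, 1, 7), (0, 1, 9), (0, 7, 8), (0, 8, 9), (1, 2, 9), (1, 2, 10), (1, 3, 7), (1, 3, 10),
      (2, 9, 11), (2, 10, 11), (3, 4, 10), (3, 4, 12), (3, 5, 7), (3, 5, 13), (3, 12, 13), (4, 10,
      14), (4, 12, 14), (5, 6, 8), (5, 6, 15), (5, 7, 8), (5, 13, 15), (6, 8, 16), (6, 15, 16)]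
    fin := [0, 0, 0, 0, 0, 0, 6, 0, 6, 9, 0, 11, 12, 0, 14, 15, 16]
    chd := [(0, 9), (6, 15)]
    steps := [(0, 1), (0, 2), (0, 3), (0, 4), (0, 7), (0, 5), (0, 10), (0, 13), (6, 8)] }
  rep := [0, 9, 12, 6, 15, 11, 14, 16]

noncomputable def v2594 : Cov.CovD where
  P := 3
  N := 5
  pl := [4, 5, 7, 9]
  lev := [⟨[], [], [(0, 1), (0, 3), (1, 3)], [], [(0, 0, [1]), (1, 3, [4]), (2, 1, [0])]⟩,
    ⟨[], [(0, 0), (0, 1), (0, 3)], [(0, 0), (0, 1)], [], [(0, 0, [1]), (2, 1, [0]), (3, 0,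
      [1])]⟩,
    ⟨[(0, 1)], [(0, 1), (1, 0), (1, 1)], [(0, 1)], [5], [(2, 1, [0]), (3, 0, [1])]⟩,
    ⟨[(0, 1), (1, 2)], [(0, 0), (1, 0), (1, 1), (2, 0)], [(0, 0)], [2], [(0, 0, [1]), (3,
      0, [1]), (6, 0, [1])]⟩,
    ⟨[(1, 3)], [(1, 0), (2, 0), (3, 0)], [], [2, 6], [(3, 0, [1])]⟩,
    ⟨[(1, 3), (3, 4)], [(0, 0), (0, 3), (1, 0), (3, 0), (3, 3), (3, 4)], [(0, 0), (0, 3),
      (0, 4), (3, 4)], [], [(0, 0, [1]), (1, 3, [4]), (6, 0, [1]), (8, 4, [3])]⟩,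
    ⟨[(3, 5)], [(0, 3), (5, 0), (5, 3), (5, 4)], [(3, 4)], [7], [(1, 3, [4]), (8, 4, [3])]⟩]
  Ta := [((0, 1), 0, 3), ((3, 4), 0, 5), ((3, 7), 0, 6), ((6, 5), 0, 2), ((6, 8), 0, 4)]
  Tb := [((1, 0, 2), 3, 0, 1), ((1, 0, 9), 3, 0, 7), ((1, 2, 9), 3, 1, 7), ((2, 1, 4), 1, 3, 5),
    ((3, 4, 7), 0, 5, 6), ((4, 2, 3), 5, 1, 0), ((5, 6, 7), 2, 0, 6), ((6, 5, 8), 0, 2, 4),
    ((7, 3, 5), 6, 0, 2), ((8, 6, 9), 4, 0, 7), ((9, 1, 8), 7, 3, 4)]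
  Tc := []
  Td := [((0, 1), (0, 1), 3), ((0, 1), (3, 4), 5), ((0, 1), (3, 7), 6), ((0, 1), (6, 5), 2), ((0,
    1), (6, 8), 4), ((1, 0), (2, 1), 3), ((1, 0), (2, 4), 5), ((3, 4), (1, 0), 0), ((3, 4),
    (1, 2), 1), ((3, 4), (1, 9), 7), ((4, 3), (8, 6), 0), ((4, 3), (8, 9), 7)]
  G := [[0, 0x93a1413a188814e45361853618a4c, 0, 0x9814493a143218cc536536c814c,
    0x3232a9898aa14536536a814c], [0, 0x93a1493a14685361853618a4c, 0,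
    0x913e93ac454493a93accc4454c85488cc1, 0x536153ea9888aa536536a9898aac41], [0,
    0x981493a1468541853618c2321884e, 0x53653669898aa181, 0x9814454193a1c53618cc1,
    0x536295c98aa132881c1]]

noncomputable def n2594 : Ent := ⟨e2594, noF, [], [], [(9, 16, [1580044410770988437309982408355971841652082177953823432505699717121, 0]), (11, 14, [1685382413448253767852309107433119732572617628602273068445375524865, 0]), (11, 16, [1580044410770988437309982408355971841652082177953823432505699729409, 0]), (14, 16, [1580044410770988437309982408355971841652082177953823432505699733505, 0])]⟩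

def c2594 : PLift (Cov.check n2594.C.D v2594 = true) := ⟨by decide +kernel⟩

def b2594 : PLift (entF (fidx ts) 400 2594 n2594 = true) := ⟨by decide +kernel⟩

theorem g2594 : GoodF (fidx ts) 400 2594 := GoodF.ofV v2594 n2594 c2594.down b2594.down

/-- 4647464:2127/9 -/
noncomputable def e2595 : SCfg where
  D := {
    a := 7
    L := 9
    kp := 6
    inn := [(0, 1), (1, 0), (1, 2), (1, 3), (2, 1), (3, 1), (3, 4), (3, 5), (4, 3), (5, 3), (5, 6), (6,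
      5)]
    mix := [(0, 0), (0, 1), (0, 2), (1, 0), (1, 2), (1, 3), (2, 2), (2, 3), (2, 4), (3, 0), (3, 3), (3,
      5), (3, 6), (4, 3), (4, 4), (4, 5), (5, 0), (5, 6), (5, 7), (5, 8), (6, 2), (6, 7), (6, 8)]
    cl := [0, 6, 1, 0, 2, 5, 0, 3, 4]
    chq := [(0, 1), (1, 0), (3, 4), (4, 3)]
    rng := [(0, 1), (0, 8), (1, 0), (1, 2), (2, 1), (2, 4), (2, 7), (2, 8), (3, 4), (4, 2), (4, 3), (4,
      5), (5, 4), (5, 6), (6, 5), (6, 7), (7, 2), (7, 6), (8, 0), (8, 2)]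
    lev := [] }
  links := [[1, 7, 8, 9], [7, 0, 9, 2, 10, 3], [10, 1, 9, 11], [7, 1, 10, 4, 12, 13, 5], [12, 3, 10, 11],
    [7, 3, 13, 14, 6, 15], [15, 5, 14, 9]]
  P := {
    a := 7
    N := 16
    nb := [898, 1677, 3586, 13490, 7176, 57544, 49696, 33067, 641, 51527, 2078, 5652, 10264, 20520,
      8800, 736]
    tri := [(0, 1, 7), (0, 1, 9), (0, 7, 8), (0, 8, 9), (1, 2, 9), (1, 2, 10), (1, 3, 7), (1, 3, 10),
      (2, 9, 11), (2, 10, 11), (3, 4, 10), (3, 4, 12), (3, 5, 7), (3, 5, 13), (3, 12, 13), (4, 10,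
      11), (4, 11, 12), (5, 6, 14), (5, 6, 15), (5, 7, 15), (5, 13, 14), (6, 9, 14), (6, 9, 15)]
    fin := [0, 0, 0, 0, 0, 0, 6, 0, 8, 9, 0, 11, 12, 0, 6, 15]
    chd := [(0, 9), (6, 15)]
    steps := [(0, 1), (0, 2), (0, 3), (0, 5), (0, 7), (0, 10), (0, 4), (0, 13), (6, 14)] }
  rep := [0, 9, 11, 6, 15, 12, 8]

noncomputable def v2595 : Cov.CovD where
  P := 3
  N := 4
  pl := [1, 4, 5]
  lev := [⟨[], [], [(0, 1)], [6], [(0, 0, [1]), (2, 1, [0])]⟩,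
    ⟨[], [(0, 0), (0, 1)], [(0, 0), (0, 1)], [], [(0, 0, [1]), (2, 1, [0]), (3, 0, [1])]⟩,
    ⟨[(0, 1)], [(0, 1), (1, 0), (1, 1)], [(0, 1)], [2], [(2, 1, [0]), (3, 0, [1])]⟩,
    ⟨[(0, 1), (1, 2)], [(0, 0), (1, 0), (1, 1), (2, 0)], [(0, 0)], [5], [(0, 0, [1]), (3,
      0, [1]), (6, 0, [1])]⟩,
    ⟨[(1, 3)], [(1, 0), (2, 0), (3, 0)], [], [2, 5], [(3, 0, [1])]⟩,
    ⟨[(1, 3), (3, 4)], [(0, 0), (1, 0), (3, 0), (3, 3), (3, 4)], [(0, 0), (0, 3), (0, 4),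
      (3, 4)], [], [(0, 0, [1]), (6, 0, [1]), (7, 3, [4]), (8, 4, [3])]⟩,
    ⟨[(3, 5)], [(0, 1), (1, 1), (2, 1), (5, 0), (5, 1), (5, 3), (5, 4)], [(1, 3), (1, 4),
      (3, 4)], [], [(2, 1, [0]), (7, 3, [4]), (8, 4, [3])]⟩]
  Ta := [((0, 1), 0, 6), ((0, 8), 0, 4), ((3, 4), 0, 2), ((6, 5), 0, 5), ((6, 7), 0, 3)]
  Tb := [((0, 1, 8), 0, 6, 4), ((1, 0, 2), 6, 0, 1), ((2, 1, 4), 1, 6, 2), ((2, 1, 7), 1, 6, 3),
    ((2, 1, 8), 1, 6, 4), ((2, 4, 7), 1, 2, 3), ((2, 4, 8), 1, 2, 4), ((2, 7, 8), 1, 3, 4),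
    ((4, 2, 3), 2, 1, 0), ((4, 2, 5), 2, 1, 5), ((4, 3, 5), 2, 0, 5), ((5, 4, 6), 5, 2, 0),
    ((6, 5, 7), 0, 5, 3), ((7, 2, 6), 3, 1, 0), ((8, 0, 2), 4, 0, 1)]
  Tc := []
  Td := [((0, 1), (0, 1), 6), ((0, 1), (0, 8), 4), ((0, 1), (3, 4), 2), ((0, 1), (6, 5), 5), ((0,
    1), (6, 7), 3), ((1, 0), (2, 1), 6), ((1, 0), (2, 4), 2), ((1, 0), (2, 7), 3), ((1, 0),
    (2, 8), 4), ((3, 4), (7, 2), 1), ((3, 4), (7, 6), 0), ((4, 3), (8, 0), 0), ((4, 3), (8,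
    2), 1)]
  G := [[0, 0x141e1248142e18841281c5448e, 0, 0xd21248d21284c, 0x149e1841e1a84815e1481284ca21cc],
    [0, 0x111e1882811e1442141e1248e, 0x1481ac1214ca6881, 0x1212c2841, 0x41681812a81c2e841],
    [0, 0x811e1284426189882812e1442e, 0, 0xd2d2c2181, 0x815e884c1236881]]

noncomputable def n2595 : Ent := ⟨e2595, noF, [], [], [(8, 15, [360035742630636841211993100915356868655746945586763691018272769, 0])]⟩

def c2595 : PLift (Cov.check n2595.C.D v2595 = true) := ⟨by decide +kernel⟩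

def b2595 : PLift (entF (fidx ts) 400 2595 n2595 = true) := ⟨by decide +kernel⟩

theorem g2595 : GoodF (fidx ts) 400 2595 := GoodF.ofV v2595 n2595 c2595.down b2595.down

/-- The entries 2467 to 2595. -/
theorem rE17 : Rng (GoodF (fidx ts) 400) 2467 2596 :=
  ((((((((((((((((((((((((((((((((((((((((((((((((((((((((((((((((((((((((((((((((((((((((((((((((((((((((((((((((((((((((((((((((((Rng.nil _ 2467).snoc g2467 rfl).snoc g2468 rfl).snoc g2469 rfl).snoc g2470 rfl).snoc g2471 rfl).snoc g2472 rfl).snoc g2473 rfl).snoc g2474 rfl).snoc g2475 rfl).snoc g2476 rfl).snoc g2477 rfl).snoc g2478 rfl).snoc g2479 rfl).snoc g2480 rfl).snoc g2481 rfl).snoc g2482 rfl).snoc g2483 rfl).snoc g2484 rfl).snoc g2485 rfl).snoc g2486 rfl).snoc g2487 rfl).snoc g2488 rfl).snoc g2489 rfl).snoc g2490 rfl).snoc g2491 rfl).snoc g2492 rfl).snoc g2493 rfl).snoc g2494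 rfl).snoc g2495 rfl).snoc g2496 rfl).snoc g2497 rfl).snoc g2498 rfl).snoc g2499 rfl).snoc g2500 rfl).snoc g2501 rfl).snoc g2502 rfl).snoc g2503 rfl).snoc g2504 rfl).snoc g2505 rfl).snoc g2506 rfl).snoc g2507 rfl).snoc g2508 rfl).snoc g2509 rfl).snoc g2510 rfl).snoc g2511 rfl).snoc g2512 rfl).snoc g2513 rfl).snoc g2514 rfl).snoc g2515 rfl).snoc g2516 rfl).snoc g2517 rfl).snoc g2518 rfl).snoc g2519 rfl).snoc g2520 rfl).snoc g2521 rfl).snoc g2522 rfl).snoc g2523 rfl).snoc g2524 rfl).snoc g2525 rfl).snoc g2526 rfl).snoc g2527 rfl).snoc g2528 rfl).snoc g2529 rfl).snoc g2530 rfl).snoc g2531 rfl).snoc g2532 rfl).snoc g2533 rfl).snoc g2534 rfl).snoc g2535 rfl).snoc g2536 rfl).snoc g2537 rfl).snoc g2538 rfl).snoc g2539 rfl).snoc g2540 rfl).snoc g2541 rfl).snoc g2542 rfl).snoc g2543 rfl).snoc g2544 rfl).snoc g2545 rfl).snoc g2546 rfl).snoc g2547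 rfl).snoc g2548 rfl).snoc g2549 rfl).snoc g2550 rfl).snoc g2551 rfl).snoc g2552 rfl).snoc g2553 rfl).snoc g2554 rfl).snoc g2555 rfl).snoc g2556 rfl).snoc g2557 rfl).snoc g2558 rfl).snoc g2559 rfl).snoc g2560 rfl).snoc g2561 rfl).snoc g2562 rfl).snoc g2563 rfl).snoc g2564 rfl).snoc g2565 rfl).snoc g2566 rfl).snoc g2567 rfl).snoc g2568 rfl).snoc g2569 rfl).snoc g2570 rfl).snoc g2571 rfl).snoc g2572 rfl).snoc g2573 rfl).snoc g2574 rfl).snoc g2575 rfl).snoc g2576 rfl).snoc g2577 rfl).snoc g2578 rfl).snoc g2579 rfl).snoc g2580 rfl).snoc g2581 rfl).snoc g2582 rfl).snoc g2583 rfl).snoc g2584 rfl).snoc g2585 rfl).snoc g2586 rfl).snoc g2587 rfl).snoc g2588 rfl).snoc g2589 rfl).snoc g2590 rfl).snoc g2591 rfl).snoc g2592 rfl).snoc g2593 rfl).snoc g2594 rfl).snoc g2595 rfl)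

end Pool.Agent.W986.ST.Dat
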