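import Pool.Agent.W986.Dat.Tab
import Pool.Agent.W986.SubAltB

/-!
# Entries 2596 to 2724 of the table
-/

set_option autoImplicit false

namespace Pool.Agent.W986.ST.Dat

/-- 4647464:2127/8 -/
noncomputable def e2596 : SCfg where
  D := {
    a := 7
    L := 10
    kp := 7
    inn := [(0, 1), (1, 0), (1, 2), (1, 3), (2, 1), (3, 1), (3, 4), (3, 5), (4, 3), (5, 3), (5, 6), (6,
      5)]
    mix := [(0, 0), (0, 1), (0, 2), (1, 0), (1, 2), (1, 3), (2, 2), (2, 3), (2, 4), (3, 0), (3, 3), (3,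
      5), (3, 6), (4, 3), (4, 5), (4, 7), (5, 0), (5, 6), (5, 8), (5, 9), (6, 2), (6, 8), (6, 9)]
    cl := [0, 5, 1, 0, 6, 2, 0, 7, 3, 4]
    chq := [(0, 1), (1, 0), (3, 4), (4, 3)]
    rng := [(0, 1), (0, 9), (1, 0), (1, 2), (2, 1), (2, 4), (2, 8), (2, 9), (3, 4), (3, 7), (4, 2), (4,
      3), (5, 6), (5, 7), (6, 5), (6, 8), (7, 3), (7, 5), (8, 2), (8, 6), (9, 0), (9, 2)]
    lev := [] }
  links := [[1, 7, 8, 9], [7, 0, 9, 2, 10, 3], [10, 1, 9, 11], [7, 1, 10, 4, 12, 13, 5], [12, 3, 10, 14],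
    [7, 3, 13, 15, 6, 16], [16, 5, 15, 9]]
  P := {
    a := 7
    N := 17
    nb := [898, 1677, 3586, 13490, 21512, 106696, 98848, 65835, 641, 100679, 18462, 1540, 24600,
      36904, 5136, 8800, 736]
    tri := [(0, 1, 7), (0, 1, 9), (0, 7, 8), (0, 8, 9), (1, 2, 9), (1, 2, 10), (1, 3, 7), (1, 3, 10),
      (2, 9, 11), (2, 10, 11), (3, 4, 10), (3, 4, 12), (3, 5, 7), (3, 5, 13), (3, 12, 13), (4, 10,
      14), (4, 12, 14), (5, 6, 15), (5, 6, 16), (5, 7, 16), (5, 13, 15), (6, 9, 15), (6, 9, 16)]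
    fin := [0, 0, 0, 0, 0, 0, 6, 0, 8, 9, 0, 11, 12, 0, 14, 6, 16]
    chd := [(0, 9), (6, 16)]
    steps := [(0, 1), (0, 2), (0, 3), (0, 4), (0, 5), (0, 7), (0, 10), (0, 13), (6, 15)] }
  rep := [0, 9, 12, 6, 16, 8, 11, 14]

noncomputable def v2596 : Cov.CovD where
  P := 3
  N := 5
  pl := [1, 4, 5, 7]
  lev := [⟨[], [], [(0, 1)], [5], [(0, 0, [1]), (2, 1, [0])]⟩,
    ⟨[], [(0, 0), (0, 1)], [(0, 0), (0, 1)], [], [(0, 0, [1]), (2, 1, [0]), (3, 0, [1])]⟩,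
    ⟨[(0, 1)], [(0, 1), (1, 0), (1, 1)], [(0, 1)], [6], [(2, 1, [0]), (3, 0, [1])]⟩,
    ⟨[(0, 1), (1, 2)], [(0, 0), (1, 0), (1, 1), (2, 0)], [(0, 0)], [2], [(0, 0, [1]), (3,
      0, [1]), (6, 0, [1])]⟩,
    ⟨[(1, 3)], [(1, 0), (2, 0), (3, 0)], [], [2, 7], [(3, 0, [1])]⟩,
    ⟨[(1, 3), (3, 4)], [(0, 0), (1, 0), (3, 0), (3, 3), (3, 4)], [(0, 0), (0, 3), (0, 4),
      (3, 4)], [], [(0, 0, [1]), (6, 0, [1]), (8, 3, [4]), (9, 4, [3])]⟩,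
    ⟨[(3, 5)], [(0, 1), (1, 1), (2, 1), (5, 0), (5, 1), (5, 3), (5, 4)], [(1, 3), (1, 4),
      (3, 4)], [], [(2, 1, [0]), (8, 3, [4]), (9, 4, [3])]⟩]
  Ta := [((0, 1), 0, 5), ((0, 9), 0, 4), ((3, 4), 0, 6), ((3, 7), 0, 7), ((6, 5), 0, 2), ((6, 8),
    0, 3)]
  Tb := [((0, 1, 9), 0, 5, 4), ((1, 0, 2), 5, 0, 1), ((2, 1, 4), 1, 5, 6), ((2, 1, 8), 1, 5, 3),
    ((2, 1, 9), 1, 5, 4), ((2, 4, 8), 1, 6, 3), ((2, 4, 9), 1, 6, 4), ((2, 8, 9), 1, 3, 4),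
    ((3, 4, 7), 0, 6, 7), ((4, 2, 3), 6, 1, 0), ((5, 6, 7), 2, 0, 7), ((6, 5, 8), 0, 2, 3),
    ((7, 3, 5), 7, 0, 2), ((8, 2, 6), 3, 1, 0), ((9, 0, 2), 4, 0, 1)]
  Tc := []
  Td := [((0, 1), (0, 1), 5), ((0, 1), (0, 9), 4), ((0, 1), (3, 4), 6), ((0, 1), (3, 7), 7), ((0,
    1), (6, 5), 2), ((0, 1), (6, 8), 3), ((1, 0), (2, 1), 5), ((1, 0), (2, 4), 6), ((1, 0),
    (2, 8), 3), ((1, 0), (2, 9), 4), ((3, 4), (8, 2), 1), ((3, 4), (8, 6), 0), ((4, 3), (9,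
    0), 0), ((4, 3), (9, 2), 1)]
  G := [[0, 0x811e1448142e1824141e1884e, 0, 0x14149ec85a8c144164815e88cc18c,
    0x122841e84caa144962841e18aa18c], [0, 0x811e1428811e1442111e1882e, 0,
    0x811e84444111e81accc111e488c1, 0x122811e81caa116111ea888ac41], [0,
    0x142e1822141e1882112e1842e, 0x841e841ec2181, 0x4164815e88cc181, 0x4162841e88aa181]]

noncomputable def n2596 : Ent := ⟨e2596, noF, [], [], [(8, 16, [1580044410770988437309982408355971841652082177953823432505699717121, 0]), (11, 14, [1685382413448253767852309107433119732572617628602273068445375541249, 0])]⟩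

def c2596 : PLift (Cov.check n2596.C.D v2596 = true) := ⟨by decide +kernel⟩

def b2596 : PLift (entF (fidx ts) 400 2596 n2596 = true) := ⟨by decide +kernel⟩

theorem g2596 : GoodF (fidx ts) 400 2596 := GoodF.ofV v2596 n2596 c2596.down b2596.down

/-- 4647464:2127/11 -/
noncomputable def e2597 : SCfg where
  D := {
    a := 7
    L := 9
    kp := 6
    inn := [(0, 1), (1, 0), (1, 2), (1, 3), (2, 1), (3, 1), (3, 4), (3, 5), (4, 3), (5, 3), (5, 6), (6,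
      5)]
    mix := [(0, 0), (0, 1), (0, 2), (1, 0), (1, 2), (1, 3), (2, 2), (2, 3), (2, 4), (3, 0), (3, 3), (3,
      5), (3, 6), (4, 3), (4, 4), (4, 5), (5, 0), (5, 6), (5, 7), (5, 8), (6, 4), (6, 7), (6, 8)]
    cl := [0, 6, 1, 0, 2, 5, 0, 3, 4]
    chq := [(0, 1), (1, 0), (3, 4), (4, 3)]
    rng := [(0, 1), (0, 8), (1, 0), (1, 2), (2, 1), (2, 4), (3, 4), (4, 2), (4, 3), (4, 5), (4, 7), (4,
      8), (5, 4), (5, 6), (6, 5), (6, 7), (7, 4), (7, 6), (8, 0), (8, 4)]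
    lev := [] }
  links := [[1, 7, 8, 9], [7, 0, 9, 2, 10, 3], [10, 1, 9, 11], [7, 1, 10, 4, 12, 13, 5], [12, 3, 10, 11],
    [7, 3, 13, 14, 6, 15], [15, 5, 14, 11]]
  P := {
    a := 7
    N := 16
    nb := [898, 1677, 3586, 13490, 7176, 57544, 51232, 33067, 641, 2311, 2078, 54868, 10264, 20520,
      10336, 2272]
    tri := [(0, 1, 7), (0, 1, 9), (0, 7, 8), (0, 8, 9), (1, 2, 9), (1, 2, 10), (1, 3, 7), (1, 3, 10),
      (2, 9, 11), (2, 10, 11), (3, 4, 10), (3, 4, 12), (3, 5, 7), (3, 5, 13), (3, 12, 13), (4, 10,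
      11), (4, 11, 12), (5, 6, 14), (5, 6, 15), (5, 7, 15), (5, 13, 14), (6, 11, 14), (6, 11, 15)]
    fin := [0, 0, 0, 0, 0, 0, 6, 0, 8, 9, 0, 11, 12, 0, 6, 15]
    chd := [(0, 9), (6, 15)]
    steps := [(0, 1), (0, 2), (0, 3), (0, 5), (0, 7), (0, 10), (0, 4), (0, 13), (6, 14)] }
  rep := [0, 9, 11, 6, 15, 12, 8]

noncomputable def v2597 : Cov.CovD where
  P := 3
  N := 4
  pl := [1, 4, 5]
  lev := [⟨[], [], [(0, 1)], [6], [(0, 0, [1]), (2, 1, [0])]⟩,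
    ⟨[], [(0, 0), (0, 1)], [(0, 0), (0, 1)], [], [(0, 0, [1]), (2, 1, [0]), (3, 0, [1])]⟩,
    ⟨[(0, 1)], [(0, 1), (1, 0), (1, 1)], [(0, 1)], [2], [(2, 1, [0]), (3, 0, [1])]⟩,
    ⟨[(0, 1), (1, 2)], [(0, 0), (1, 0), (1, 1), (2, 0)], [(0, 0)], [5], [(0, 0, [1]), (3,
      0, [1]), (6, 0, [1])]⟩,
    ⟨[(1, 3)], [(1, 0), (2, 0), (3, 0)], [], [2, 5], [(3, 0, [1])]⟩,
    ⟨[(1, 3), (3, 4)], [(0, 0), (1, 0), (3, 0), (3, 3), (3, 4)], [(0, 0), (0, 3), (0, 4),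
      (3, 4)], [], [(0, 0, [1]), (6, 0, [1]), (7, 3, [4]), (8, 4, [3])]⟩,
    ⟨[(3, 5)], [(5, 0), (5, 3), (5, 4)], [(3, 4)], [2], [(7, 3, [4]), (8, 4, [3])]⟩]
  Ta := [((0, 1), 0, 6), ((0, 8), 0, 4), ((3, 4), 0, 2), ((6, 5), 0, 5), ((6, 7), 0, 3)]
  Tb := [((0, 1, 8), 0, 6, 4), ((1, 0, 2), 6, 0, 1), ((2, 1, 4), 1, 6, 2), ((4, 2, 3), 2, 1, 0),
    ((4, 2, 5), 2, 1, 5), ((4, 2, 7), 2, 1, 3), ((4, 2, 8), 2, 1, 4), ((4, 3, 5), 2, 0, 5),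
    ((4, 3, 7), 2, 0, 3), ((4, 3, 8), 2, 0, 4), ((4, 5, 7), 2, 5, 3), ((4, 5, 8), 2, 5, 4),
    ((4, 7, 8), 2, 3, 4), ((5, 4, 6), 5, 2, 0), ((6, 5, 7), 0, 5, 3), ((7, 4, 6), 3, 2, 0),
    ((8, 0, 4), 4, 0, 2)]
  Tc := []
  Td := [((0, 1), (0, 1), 6), ((0, 1), (0, 8), 4), ((0, 1), (3, 4), 2), ((0, 1), (6, 5), 5), ((0,
    1), (6, 7), 3), ((1, 0), (2, 1), 6), ((1, 0), (2, 4), 2), ((3, 4), (7, 4), 2), ((3, 4),
    (7, 6), 0), ((4, 3), (8, 0), 0), ((4, 3), (8, 4), 2)]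
  G := [[0, 0x124111e1a84121111e1a446, 0, 0xd21284d21288c, 0x14882a1b42e84812e1b42688c], [0,
    0x124841e1a84128141e1a84c, 0x4422682a484c2e481, 0x1212c2441, 0x812e12aa1426881], [0,
    0x128141e1a44128841e1684a, 0, 0xd2d2c2841, 0x812e22a83c26181]]

noncomputable def n2597 : Ent := ⟨e2597, noF, [], [], [(8, 15, [360035742630636841211993100915356868655746945586763691018280961, 0])]⟩

def c2597 : PLift (Cov.check n2597.C.D v2597 = true) := ⟨by decide +kernel⟩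

def b2597 : PLift (entF (fidx ts) 400 2597 n2597 = true) := ⟨by decide +kernel⟩

theorem g2597 : GoodF (fidx ts) 400 2597 := GoodF.ofV v2597 n2597 c2597.down b2597.down

/-- 4647464:2127/10 -/
noncomputable def e2598 : SCfg where
  D := {
    a := 7
    L := 10
    kp := 7
    inn := [(0, 1), (1, 0), (1, 2), (1, 3), (2, 1), (3, 1), (3, 4), (3, 5), (4, 3), (5, 3), (5, 6), (6,
      5)]
    mix := [(0, 0), (0, 1), (0, 2), (1, 0), (1, 2), (1, 3), (2, 2), (2, 3), (2, 4), (3, 0), (3, 3), (3,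
      5), (3, 6), (4, 3), (4, 4), (4, 5), (5, 0), (5, 6), (5, 7), (5, 8), (6, 7), (6, 8), (6, 9)]
    cl := [0, 6, 1, 0, 2, 5, 0, 3, 4, 7]
    chq := [(0, 1), (1, 0), (3, 4), (4, 3)]
    rng := [(0, 1), (0, 8), (1, 0), (1, 2), (2, 1), (2, 4), (3, 4), (4, 2), (4, 3), (4, 5), (5, 4), (5,
      6), (6, 5), (6, 7), (7, 6), (7, 9), (8, 0), (8, 9), (9, 7), (9, 8)]
    lev := [] }
  links := [[1, 7, 8, 9], [7, 0, 9, 2, 10, 3], [10, 1, 9, 11], [7, 1, 10, 4, 12, 13, 5], [12, 3, 10, 11],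
    [7, 3, 13, 14, 6, 15], [15, 5, 14, 16]]
  P := {
    a := 7
    N := 17
    nb := [898, 1677, 3586, 13490, 7176, 57544, 114720, 33067, 641, 2311, 2078, 5652, 10264, 20520,
      73824, 65760, 49216]
    tri := [(0, 1, 7), (0, 1, 9), (0, 7, 8), (0, 8, 9), (1, 2, 9), (1, 2, 10), (1, 3, 7), (1, 3, 10),
      (2, 9, 11), (2, 10, 11), (3, 4, 10), (3, 4, 12), (3, 5, 7), (3, 5, 13), (3, 12, 13), (4, 10,
      11), (4, 11, 12), (5, 6, 14), (5, 6, 15), (5, 7, 15), (5, 13, 14), (6, 14, 16), (6, 15, 16)]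
    fin := [0, 0, 0, 0, 0, 0, 6, 0, 8, 9, 0, 11, 12, 0, 6, 15, 16]
    chd := [(0, 9), (6, 15)]
    steps := [(0, 1), (0, 2), (0, 3), (0, 5), (0, 7), (0, 10), (0, 4), (0, 13), (6, 14)] }
  rep := [0, 9, 11, 6, 15, 12, 8, 16]

noncomputable def v2598 : Cov.CovD where
  P := 3
  N := 5
  pl := [1, 4, 5, 9]
  lev := [⟨[], [], [(0, 1)], [6], [(0, 0, [1]), (2, 1, [0])]⟩,
    ⟨[], [(0, 0), (0, 1)], [(0, 0), (0, 1)], [], [(0, 0, [1]), (2, 1, [0]), (3, 0, [1])]⟩,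
    ⟨[(0, 1)], [(0, 1), (1, 0), (1, 1)], [(0, 1)], [2], [(2, 1, [0]), (3, 0, [1])]⟩,
    ⟨[(0, 1), (1, 2)], [(0, 0), (1, 0), (1, 1), (2, 0)], [(0, 0)], [5], [(0, 0, [1]), (3,
      0, [1]), (6, 0, [1])]⟩,
    ⟨[(1, 3)], [(1, 0), (2, 0), (3, 0)], [], [2, 5], [(3, 0, [1])]⟩,
    ⟨[(1, 3), (3, 4)], [(0, 0), (1, 0), (3, 0), (3, 3), (3, 4)], [(0, 0), (0, 3), (0, 4),
      (3, 4)], [], [(0, 0, [1]), (6, 0, [1]), (7, 3, [4]), (8, 4, [3])]⟩,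
    ⟨[(3, 5)], [(5, 0), (5, 3), (5, 4)], [(3, 4)], [7], [(7, 3, [4]), (8, 4, [3])]⟩]
  Ta := [((0, 1), 0, 6), ((0, 8), 0, 4), ((3, 4), 0, 2), ((6, 5), 0, 5), ((6, 7), 0, 3)]
  Tb := [((0, 1, 8), 0, 6, 4), ((1, 0, 2), 6, 0, 1), ((2, 1, 4), 1, 6, 2), ((4, 2, 3), 2, 1, 0),
    ((4, 2, 5), 2, 1, 5), ((4, 3, 5), 2, 0, 5), ((5, 4, 6), 5, 2, 0), ((6, 5, 7), 0, 5, 3),
    ((7, 6, 9), 3, 0, 7), ((8, 0, 9), 4, 0, 7), ((9, 7, 8), 7, 3, 4)]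
  Tc := []
  Td := [((0, 1), (0, 1), 6), ((0, 1), (0, 8), 4), ((0, 1), (3, 4), 2), ((0, 1), (6, 5), 5), ((0,
    1), (6, 7), 3), ((1, 0), (2, 1), 6), ((1, 0), (2, 4), 2), ((3, 4), (7, 6), 0), ((3, 4),
    (7, 9), 7), ((4, 3), (8, 0), 0), ((4, 3), (8, 9), 7)]
  G := [[0, 0x153e183a495c1e42153e1951e1a882a4446c, 0, 0x2214221951e1ac4221224951e1e48c,
    0x536893a195c2e849822a41536195c123a8cc], [0, 0x536893a495c1e825422593a1951e1e84a,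
    0x93a495c268536884c1, 0x22444536898951eca4c1, 0x53689832a95c2e841], [0,
    0x536893a495c1e424261913e1951e1e48a, 0, 0x22193a454951e9e481, 0x526893a11295cae841]]

noncomputable def n2598 : Ent := ⟨e2598, noF, [], [], [(8, 15, [1685356702439545624007900436039642273970977273354372543760010702849, 0]), (9, 16, [1580044410770988437309982408355971841652082177953823432505699741697, 0]), (11, 16, [1580044410770988437309982408355971841652082177953823432505699749889, 0])]⟩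

def c2598 : PLift (Cov.check n2598.C.D v2598 = true) := ⟨by decide +kernel⟩

def b2598 : PLift (entF (fidx ts) 400 2598 n2598 = true) := ⟨by decide +kernel⟩

theorem g2598 : GoodF (fidx ts) 400 2598 := GoodF.ofV v2598 n2598 c2598.down b2598.down

/-- 4647464:2127/12 -/
noncomputable def e2599 : SCfg where
  D := {
    a := 7
    L := 10
    kp := 7
    inn := [(0, 1), (1, 0), (1, 2), (1, 3), (2, 1), (3, 1), (3, 4), (3, 5), (4, 3), (5, 3), (5, 6), (6,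
      5)]
    mix := [(0, 0), (0, 1), (0, 2), (1, 0), (1, 2), (1, 3), (2, 2), (2, 3), (2, 4), (3, 0), (3, 3), (3,
      5), (3, 6), (4, 3), (4, 5), (4, 7), (5, 0), (5, 6), (5, 8), (5, 9), (6, 4), (6, 8), (6, 9)]
    cl := [0, 6, 1, 0, 2, 5, 0, 7, 3, 4]
    chq := [(0, 1), (1, 0), (3, 4), (4, 3)]
    rng := [(0, 1), (0, 9), (1, 0), (1, 2), (2, 1), (2, 4), (3, 4), (3, 7), (4, 2), (4, 3), (4, 8), (4,
      9), (5, 6), (5, 7), (6, 5), (6, 8), (7, 3), (7, 5), (8, 4), (8, 6), (9, 0), (9, 4)]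
    lev := [] }
  links := [[1, 7, 8, 9], [7, 0, 9, 2, 10, 3], [10, 1, 9, 11], [7, 1, 10, 4, 12, 13, 5], [12, 3, 10, 14],
    [7, 3, 13, 15, 6, 16], [16, 5, 15, 11]]
  P := {
    a := 7
    N := 17
    nb := [898, 1677, 3586, 13490, 21512, 106696, 100384, 65835, 641, 2311, 18462, 99908, 24600,
      36904, 5136, 10336, 2272]
    tri := [(0, 1, 7), (0, 1, 9), (0, 7, 8), (0, 8, 9), (1, 2, 9), (1, 2, 10), (1, 3, 7), (1, 3, 10),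
      (2, 9, 11), (2, 10, 11), (3, 4, 10), (3, 4, 12), (3, 5, 7), (3, 5, 13), (3, 12, 13), (4, 10,
      14), (4, 12, 14), (5, 6, 15), (5, 6, 16), (5, 7, 16), (5, 13, 15), (6, 11, 15), (6, 11, 16)]
    fin := [0, 0, 0, 0, 0, 0, 6, 0, 8, 9, 0, 11, 12, 0, 14, 6, 16]
    chd := [(0, 9), (6, 16)]
    steps := [(0, 1), (0, 2), (0, 3), (0, 4), (0, 5), (0, 7), (0, 10), (0, 13), (6, 15)] }
  rep := [0, 9, 11, 6, 16, 12, 8, 14]

noncomputable def v2599 : Cov.CovD where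
  P := 3
  N := 5
  pl := [1, 4, 5, 7]
  lev := [⟨[], [], [(0, 1)], [6], [(0, 0, [1]), (2, 1, [0])]⟩,
    ⟨[], [(0, 0), (0, 1)], [(0, 0), (0, 1)], [], [(0, 0, [1]), (2, 1, [0]), (3, 0, [1])]⟩,
    ⟨[(0, 1)], [(0, 1), (1, 0), (1, 1)], [(0, 1)], [2], [(2, 1, [0]), (3, 0, [1])]⟩,
    ⟨[(0, 1), (1, 2)], [(0, 0), (1, 0), (1, 1), (2, 0)], [(0, 0)], [5], [(0, 0, [1]), (3,
      0, [1]), (6, 0, [1])]⟩,
    ⟨[(1, 3)], [(1, 0), (2, 0), (3, 0)], [], [5, 7], [(3, 0, [1])]⟩,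
    ⟨[(1, 3), (3, 4)], [(0, 0), (1, 0), (3, 0), (3, 3), (3, 4)], [(0, 0), (0, 3), (0, 4),
      (3, 4)], [], [(0, 0, [1]), (6, 0, [1]), (8, 3, [4]), (9, 4, [3])]⟩,
    ⟨[(3, 5)], [(5, 0), (5, 3), (5, 4)], [(3, 4)], [2], [(8, 3, [4]), (9, 4, [3])]⟩]
  Ta := [((0, 1), 0, 6), ((0, 9), 0, 4), ((3, 4), 0, 2), ((3, 7), 0, 7), ((6, 5), 0, 5), ((6, 8),
    0, 3)]
  Tb := [((0, 1, 9), 0, 6, 4), ((1, 0, 2), 6, 0, 1), ((2, 1, 4), 1, 6, 2), ((3, 4, 7), 0, 2, 7),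
    ((4, 2, 3), 2, 1, 0), ((4, 2, 8), 2, 1, 3), ((4, 2, 9), 2, 1, 4), ((4, 3, 8), 2, 0, 3),
    ((4, 3, 9), 2, 0, 4), ((4, 8, 9), 2, 3, 4), ((5, 6, 7), 5, 0, 7), ((6, 5, 8), 0, 5, 3),
    ((7, 3, 5), 7, 0, 5), ((8, 4, 6), 3, 2, 0), ((9, 0, 4), 4, 0, 2)]
  Tc := []
  Td := [((0, 1), (0, 1), 6), ((0, 1), (0, 9), 4), ((0, 1), (3, 4), 2), ((0, 1), (3, 7), 7), ((0,
    1), (6, 5), 5), ((0, 1), (6, 8), 3), ((1, 0), (2, 1), 6), ((1, 0), (2, 4), 2), ((3, 4),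
    (8, 4), 2), ((3, 4), (8, 6), 0), ((4, 3), (9, 0), 0), ((4, 3), (9, 4), 2)]
  G := [[0, 0x111e1111e1a44111e1111e1a44a, 0, 0xd21d21648d21d21c48c,
    0x112e182a1941e84812e1831e1688c], [0, 0x841e1244111e1488141e1882e,
    0x8882a22e444264422e884484cea8c1, 0x12126481212a84c1, 0x1882a12e181481ce681261422e88c1],
    [0, 0x111e1141e1a84111e1111e1c826, 0, 0xd224d21d24ac41, 0x192e1222831e81c6e841]]

noncomputable def n2599 : Ent := ⟨e2599, noF, [], [], [(8, 16, [1580044410770988437309982408355971841652082177953823432505699729409, 0]), (11, 14, [1685382413448253767852309107433119732572617628602273068445375549441, 0])]⟩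

def c2599 : PLift (Cov.check n2599.C.D v2599 = true) := ⟨by decide +kernel⟩

def b2599 : PLift (entF (fidx ts) 400 2599 n2599 = true) := ⟨by decide +kernel⟩

theorem g2599 : GoodF (fidx ts) 400 2599 := GoodF.ofV v2599 n2599 c2599.down b2599.down

/-- 4647464:2127/13 -/
noncomputable def e2600 : SCfg where
  D := {
    a := 7
    L := 10
    kp := 7
    inn := [(0, 1), (1, 0), (1, 2), (1, 3), (2, 1), (3, 1), (3, 4), (3, 5), (4, 3), (5, 3), (5, 6), (6,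
      5)]
    mix := [(0, 0), (0, 1), (0, 2), (1, 0), (1, 2), (1, 3), (2, 2), (2, 3), (2, 4), (3, 0), (3, 3), (3,
      5), (3, 6), (4, 3), (4, 5), (4, 7), (5, 0), (5, 6), (5, 8), (5, 9), (6, 7), (6, 8), (6, 9)]
    cl := [0, 6, 1, 0, 7, 2, 0, 5, 3, 4]
    chq := [(0, 1), (1, 0), (3, 4), (4, 3)]
    rng := [(0, 1), (0, 9), (1, 0), (1, 2), (2, 1), (2, 4), (3, 4), (3, 7), (4, 2), (4, 3), (5, 6), (5,
      7), (6, 5), (6, 8), (7, 3), (7, 5), (7, 8), (7, 9), (8, 6), (8, 7), (9, 0), (9, 7)]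
    lev := [] }
  links := [[1, 7, 8, 9], [7, 0, 9, 2, 10, 3], [10, 1, 9, 11], [7, 1, 10, 4, 12, 13, 5], [12, 3, 10, 14],
    [7, 3, 13, 15, 6, 16], [16, 5, 15, 14]]
  P := {
    a := 7
    N := 17
    nb := [898, 1677, 3586, 13490, 21512, 106696, 114720, 65835, 641, 2311, 18462, 1540, 24600, 36904,
      103504, 24672, 16608]
    tri := [(0, 1, 7), (0, 1, 9), (0, 7, 8), (0, 8, 9), (1, 2, 9), (1, 2, 10), (1, 3, 7), (1, 3, 10),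
      (2, 9, 11), (2, 10, 11), (3, 4, 10), (3, 4, 12), (3, 5, 7), (3, 5, 13), (3, 12, 13), (4, 10,
      14), (4, 12, 14), (5, 6, 15), (5, 6, 16), (5, 7, 16), (5, 13, 15), (6, 14, 15), (6, 14, 16)]
    fin := [0, 0, 0, 0, 0, 0, 6, 0, 8, 9, 0, 11, 12, 0, 14, 6, 16]
    chd := [(0, 9), (6, 16)]
    steps := [(0, 1), (0, 2), (0, 3), (0, 4), (0, 5), (0, 7), (0, 10), (0, 13), (6, 15)] }
  rep := [0, 9, 12, 6, 16, 14, 8, 11]

noncomputable def v2600 : Cov.CovD where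
  P := 3
  N := 5
  pl := [1, 4, 5, 7]
  lev := [⟨[], [], [(0, 1)], [6], [(0, 0, [1]), (2, 1, [0])]⟩,
    ⟨[], [(0, 0), (0, 1)], [(0, 0), (0, 1)], [], [(0, 0, [1]), (2, 1, [0]), (3, 0, [1])]⟩,
    ⟨[(0, 1)], [(0, 1), (1, 0), (1, 1)], [(0, 1)], [7], [(2, 1, [0]), (3, 0, [1])]⟩,
    ⟨[(0, 1), (1, 2)], [(0, 0), (1, 0), (1, 1), (2, 0)], [(0, 0)], [2], [(0, 0, [1]), (3,
      0, [1]), (6, 0, [1])]⟩,
    ⟨[(1, 3)], [(1, 0), (2, 0), (3, 0)], [], [2, 5], [(3, 0, [1])]⟩,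
    ⟨[(1, 3), (3, 4)], [(0, 0), (1, 0), (3, 0), (3, 3), (3, 4)], [(0, 0), (0, 3), (0, 4),
      (3, 4)], [], [(0, 0, [1]), (6, 0, [1]), (8, 3, [4]), (9, 4, [3])]⟩,
    ⟨[(3, 5)], [(5, 0), (5, 3), (5, 4)], [(3, 4)], [5], [(8, 3, [4]), (9, 4, [3])]⟩]
  Ta := [((0, 1), 0, 6), ((0, 9), 0, 4), ((3, 4), 0, 7), ((3, 7), 0, 5), ((6, 5), 0, 2), ((6, 8),
    0, 3)]
  Tb := [((0, 1, 9), 0, 6, 4), ((1, 0, 2), 6, 0, 1), ((2, 1, 4), 1, 6, 7), ((3, 4, 7), 0, 7, 5),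
    ((4, 2, 3), 7, 1, 0), ((5, 6, 7), 2, 0, 5), ((6, 5, 8), 0, 2, 3), ((7, 3, 5), 5, 0, 2),
    ((7, 3, 8), 5, 0, 3), ((7, 3, 9), 5, 0, 4), ((7, 5, 8), 5, 2, 3), ((7, 5, 9), 5, 2, 4),
    ((7, 8, 9), 5, 3, 4), ((8, 6, 7), 3, 0, 5), ((9, 0, 7), 4, 0, 5)]
  Tc := []
  Td := [((0, 1), (0, 1), 6), ((0, 1), (0, 9), 4), ((0, 1), (3, 4), 7), ((0, 1), (3, 7), 5), ((0,
    1), (6, 5), 2), ((0, 1), (6, 8), 3), ((1, 0), (2, 1), 6), ((1, 0), (2, 4), 7), ((3, 4),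
    (8, 6), 0), ((3, 4), (8, 7), 5), ((4, 3), (9, 0), 0), ((4, 3), (9, 7), 5)]
  G := [[0, 0x111e1824111e1488111e1844e, 0, 0x813e12ac4144481c4164812e38cc18c,
    0x222841e51caa14152e2841e8a14c], [0, 0x111e1844111e1482111e1824e, 0,
    0x444812e11acc4126141ec888c8c1, 0x112e2841e8a116142ea888ac41], [0,
    0x111e1422111e1488111e1448e, 0x111e112e68141, 0x14142ec83a8c141, 0x142e2851e8a141]]

noncomputable def n2600 : Ent := ⟨e2600, noF, [], [], [(8, 16, [1580044410770988437309982408355971841652082177953823432505699733505, 0]), (11, 14, [1685382413448253767852309107433119732572617628602273068445375549441, 0])]⟩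

def c2600 : PLift (Cov.check n2600.C.D v2600 = true) := ⟨by decide +kernel⟩

def b2600 : PLift (entF (fidx ts) 400 2600 n2600 = true) := ⟨by decide +kernel⟩

theorem g2600 : GoodF (fidx ts) 400 2600 := GoodF.ofV v2600 n2600 c2600.down b2600.down

/-- 4647464:2127 -/
noncomputable def e2601 : SCfg where
  D := {
    a := 7
    L := 11
    kp := 8
    inn := [(0, 1), (1, 0), (1, 2), (1, 3), (2, 1), (3, 1), (3, 4), (3, 5), (4, 3), (5, 3), (5, 6), (6,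
      5)]
    mix := [(0, 0), (0, 1), (0, 2), (1, 0), (1, 2), (1, 3), (2, 2), (2, 3), (2, 4), (3, 0), (3, 3), (3,
      5), (3, 6), (4, 3), (4, 5), (4, 7), (5, 0), (5, 6), (5, 8), (5, 9), (6, 8), (6, 9), (6, 10)]
    cl := [0, 5, 1, 0, 6, 2, 0, 7, 3, 4, 8]
    chq := [(0, 1), (1, 0), (3, 4), (4, 3)]
    rng := [(0, 1), (0, 9), (1, 0), (1, 2), (2, 1), (2, 4), (3, 4), (3, 7), (4, 2), (4, 3), (5, 6), (5,
      7), (6, 5), (6, 8), (7, 3), (7, 5), (8, 6), (8, 10), (9, 0), (9, 10), (10, 8), (10, 9)]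
    lev := [] }
  links := [[1, 7, 8, 9], [7, 0, 9, 2, 10, 3], [10, 1, 9, 11], [7, 1, 10, 4, 12, 13, 5], [12, 3, 10, 14],
    [7, 3, 13, 15, 6, 16], [16, 5, 15, 17]]
  P := {
    a := 7
    N := 18
    nb := [898, 1677, 3586, 13490, 21512, 106696, 229408, 65835, 641, 2311, 18462, 1540, 24600, 36904,
      5136, 139360, 131296, 98368]
    tri := [(0, 1, 7), (0, 1, 9), (0, 7, 8), (0, 8, 9), (1, 2, 9), (1, 2, 10), (1, 3, 7), (1, 3, 10),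
      (2, 9, 11), (2, 10, 11), (3, 4, 10), (3, 4, 12), (3, 5, 7), (3, 5, 13), (3, 12, 13), (4, 10,
      14), (4, 12, 14), (5, 6, 15), (5, 6, 16), (5, 7, 16), (5, 13, 15), (6, 15, 17), (6, 16, 17)]
    fin := [0, 0, 0, 0, 0, 0, 6, 0, 8, 9, 0, 11, 12, 0, 14, 6, 16, 17]
    chd := [(0, 9), (6, 16)]
    steps := [(0, 1), (0, 2), (0, 3), (0, 4), (0, 5), (0, 7), (0, 10), (0, 13), (6, 15)] }
  rep := [0, 9, 12, 6, 16, 8, 11, 14, 17]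

noncomputable def v2601 : Cov.CovD where
  P := 3
  N := 6
  pl := [1, 4, 5, 7, 10]
  lev := [⟨[], [], [(0, 1)], [5], [(0, 0, [1]), (2, 1, [0])]⟩,
    ⟨[], [(0, 0), (0, 1)], [(0, 0), (0, 1)], [], [(0, 0, [1]), (2, 1, [0]), (3, 0, [1])]⟩,
    ⟨[(0, 1)], [(0, 1), (1, 0), (1, 1)], [(0, 1)], [6], [(2, 1, [0]), (3, 0, [1])]⟩,
    ⟨[(0, 1), (1, 2)], [(0, 0), (1, 0), (1, 1), (2, 0)], [(0, 0)], [2], [(0, 0, [1]), (3,
      0, [1]), (6, 0, [1])]⟩,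
    ⟨[(1, 3)], [(1, 0), (2, 0), (3, 0)], [], [2, 7], [(3, 0, [1])]⟩,
    ⟨[(1, 3), (3, 4)], [(0, 0), (1, 0), (3, 0), (3, 3), (3, 4)], [(0, 0), (0, 3), (0, 4),
      (3, 4)], [], [(0, 0, [1]), (6, 0, [1]), (8, 3, [4]), (9, 4, [3])]⟩,
    ⟨[(3, 5)], [(5, 0), (5, 3), (5, 4)], [(3, 4)], [8], [(8, 3, [4]), (9, 4, [3])]⟩]
  Ta := [((0, 1), 0, 5), ((0, 9), 0, 4), ((3, 4), 0, 6), ((3, 7), 0, 7), ((6, 5), 0, 2), ((6, 8),
    0, 3)]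
  Tb := [((0, 1, 9), 0, 5, 4), ((1, 0, 2), 5, 0, 1), ((2, 1, 4), 1, 5, 6), ((3, 4, 7), 0, 6, 7),
    ((4, 2, 3), 6, 1, 0), ((5, 6, 7), 2, 0, 7), ((6, 5, 8), 0, 2, 3), ((7, 3, 5), 7, 0, 2),
    ((8, 6, 10), 3, 0, 8), ((9, 0, 10), 4, 0, 8), ((10, 8, 9), 8, 3, 4)]
  Tc := []
  Td := [((0, 1), (0, 1), 5), ((0, 1), (0, 9), 4), ((0, 1), (3, 4), 6), ((0, 1), (3, 7), 7), ((0,
    1), (6, 5), 2), ((0, 1), (6, 8), 3), ((1, 0), (2, 1), 5), ((1, 0), (2, 4), 6), ((3, 4),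
    (8, 6), 0), ((3, 4), (8, 10), 8), ((4, 3), (9, 0), 0), ((4, 3), (9, 10), 8)]
  G := [[0, 0x153e1881c42153e18888148615c183a1c24e, 0, 0x93a93ac415454c81c98149814c536536c81cc,
    0x95c12495c123232a89c32536a95c98aa14c], [0, 0x913e14244182a54193a1c48153e1881c82e, 0,
    0x9893ac4544913e93accc53654c84488cc1, 0x53632a9895caa536153ea9888aac41], [0,
    0x5361981c24913e14844188a153e1881c42e, 0x54536693a98cc181, 0x536493a98cc154881c1,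
    0x536153ea9888aa141]]

noncomputable def n2601 : Ent := ⟨e2601, noF, [], [], [(8, 16, [7334685537875745012586738086077695515070955365108989538292687704301569, 0]), (9, 17, [6903326391201334775872065844685381424292761054348340378595029940322305, 0]), (11, 14, [7334790875878422277917280412776772662961875900559637987928627380117505, 0]), (11, 17, [6903326391201334775872065844685381424292761054348340378595029940334593, 0]), (14, 17, [6903326391201334775872065844685381424292761054348340378595029940338689, 0])]⟩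

def c2601 : PLift (Cov.check n2601.C.D v2601 = true) := ⟨by decide +kernel⟩

def b2601 : PLift (entF (fidx ts) 400 2601 n2601 = true) := ⟨by decide +kernel⟩

theorem g2601 : GoodF (fidx ts) 400 2601 := GoodF.ofV v2601 n2601 c2601.down b2601.down

/-- 4647494:2128/1 -/
noncomputable def e2602 : SCfg where
  D := {
    a := 7
    L := 10
    kp := 7
    inn := [(0, 1), (1, 0), (1, 2), (1, 3), (1, 5), (2, 1), (2, 5), (3, 1), (3, 4), (3, 5), (4, 3), (4,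
      5), (5, 1), (5, 2), (5, 3), (5, 4), (5, 6), (6, 5)]
    mix := [(0, 0), (0, 1), (0, 2), (1, 0), (1, 2), (2, 2), (2, 3), (3, 0), (3, 4), (3, 5), (3, 6), (4,
      4), (4, 7), (5, 3), (5, 7), (5, 8), (5, 9), (6, 1), (6, 8), (6, 9)]
    cl := [0, 2, 1, 3, 0, 6, 7, 3, 4, 5]
    chq := [(0, 1), (1, 0), (2, 3), (3, 2)]
    rng := [(0, 1), (0, 6), (1, 0), (1, 2), (1, 8), (1, 9), (2, 1), (2, 3), (3, 2), (3, 8), (4, 5), (4,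
      7), (5, 4), (5, 6), (6, 0), (6, 5), (7, 4), (7, 9), (8, 1), (8, 3), (9, 1), (9, 7)]
    lev := [] }
  links := [[1, 7, 8, 9], [7, 0, 9, 2, 5, 3], [5, 1, 9, 10], [7, 1, 5, 4, 11, 12, 13], [11, 3, 5, 14],
    [14, 4, 3, 1, 2, 10, 15, 6, 16], [16, 5, 15, 8]]
  P := {
    a := 7
    N := 17
    nb := [898, 685, 1570, 14514, 18472, 115806, 98592, 8459, 99009, 1287, 33316, 20504, 10248, 4232,
      67632, 1376, 16736]
    tri := [(0, 1, 7), (0, 1, 9), (0, 7, 8), (0, 8, 9), (1, 2, 5), (1, 2, 9), (1, 3, 5), (1, 3, 7), (2,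
      5, 10), (2, 9, 10), (3, 4, 5), (3, 4, 11), (3, 7, 13), (3, 11, 12), (3, 12, 13), (4, 5, 14),
      (4, 11, 14), (5, 6, 15), (5, 6, 16), (5, 10, 15), (5, 14, 16), (6, 8, 15), (6, 8, 16)]
    fin := [0, 0, 0, 0, 0, 5, 6, 0, 6, 9, 5, 0, 12, 13, 5, 15, 16]
    chd := [(0, 9), (6, 5)]
    steps := [(0, 1), (0, 2), (0, 3), (0, 4), (0, 7), (0, 11), (5, 10), (5, 14), (6, 8)] }
  rep := [0, 9, 6, 5, 15, 16, 12, 13]

noncomputable def v2602 : Cov.CovD where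
  P := 3
  N := 5
  pl := [5, 6, 8, 9]
  lev := [⟨[], [], [(0, 1), (0, 2), (1, 2)], [], [(0, 0, [1]), (1, 2, [3]), (2, 1, [0])]⟩,
    ⟨[], [(0, 0), (0, 1), (0, 2)], [(0, 1)], [], [(0, 0, [1]), (2, 1, [0])]⟩,
    ⟨[(0, 1)], [(0, 1), (1, 0), (1, 1), (1, 3)], [(1, 3)], [], [(2, 1, [0]), (3, 3, [2])]⟩,
    ⟨[(0, 1), (1, 2)], [(0, 0), (1, 0), (1, 1)], [(0, 0)], [6, 7], [(0, 0, [1]), (4, 0,
      [1])]⟩,
    ⟨[(1, 3)], [(3, 0), (3, 3)], [(0, 3)], [], [(4, 0, [1]), (7, 3, [2])]⟩,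
    ⟨[(0, 1), (1, 2), (1, 3), (1, 4), (2, 3), (2, 4), (3, 4)], [(1, 0), (1, 1), (1, 3), (2,
      1), (2, 3), (3, 0), (3, 3), (4, 0), (4, 3)], [(3, 3)], [4, 5], [(3, 3, [2]), (7, 3,
      [2])]⟩,
    ⟨[(1, 5), (2, 5), (3, 5), (4, 5)], [(0, 2), (5, 2), (5, 3)], [], [4, 5], [(1, 2, [3])]⟩]
  Ta := [((0, 1), 0, 2), ((0, 6), 0, 7), ((3, 2), 3, 1), ((3, 8), 3, 4), ((4, 5), 0, 6), ((4, 7),
    0, 3), ((7, 4), 3, 0), ((7, 9), 3, 5)]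
  Tb := [((0, 1, 6), 0, 2, 7), ((1, 0, 2), 2, 0, 1), ((1, 0, 8), 2, 0, 4), ((1, 0, 9), 2, 0, 5),
    ((1, 2, 8), 2, 1, 4), ((1, 2, 9), 2, 1, 5), ((1, 8, 9), 2, 4, 5), ((2, 1, 3), 1, 2, 3),
    ((3, 2, 8), 3, 1, 4), ((4, 5, 7), 0, 6, 3), ((5, 4, 6), 6, 0, 7), ((6, 0, 5), 7, 0, 6),
    ((7, 4, 9), 3, 0, 5), ((8, 1, 3), 4, 2, 3), ((9, 1, 7), 5, 2, 3)]
  Tc := []
  Td := [((0, 1), (0, 1), 2), ((0, 1), (0, 6), 7), ((0, 1), (4, 5), 6), ((0, 1), (4, 7), 3), ((1,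
    0), (2, 1), 2), ((1, 0), (2, 3), 3), ((2, 3), (1, 0), 0), ((2, 3), (1, 2), 1), ((2, 3),
    (1, 8), 4), ((2, 3), (1, 9), 5), ((3, 2), (3, 2), 1), ((3, 2), (3, 8), 4), ((3, 2), (7,
    4), 0), ((3, 2), (7, 9), 5)]
  G := [[0, 0x415c23ac1786194e4c6123684882c1a4, 0xe14e12e14e184, 0xd21d22d21e184,
    0x11223a1586a4845be562a38828ca4e1c8], [0, 0x11c2324442a4111445e116ca3819c23881eca4,
    0xe12e12e12e184, 0xd22d21d21e148, 0x842412281561142a34c1ba45e48489c8], [0,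
    0x11244c6123a156ca38194a2c28aca41e8, 0, 0xd24d28d28e181,
    0x112ac1786a4245226bed62288a884e1c8], [0, 0x4426a1dc23111144be2c13286828ca1a9c4, 0,
    0xd22d22d2d2ce418, 0x229466415192d211662259cd68bc2a9c1]]

noncomputable def n2602 : Ent := ⟨e2602, noF, [], [], []⟩

def c2602 : PLift (Cov.check n2602.C.D v2602 = true) := ⟨by decide +kernel⟩

def b2602 : PLift (entF (fidx ts) 400 2602 n2602 = true) := ⟨by decide +kernel⟩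

theorem g2602 : GoodF (fidx ts) 400 2602 := GoodF.ofV v2602 n2602 c2602.down b2602.down

/-- 4647494:2128 -/
noncomputable def e2603 : SCfg where
  D := {
    a := 7
    L := 11
    kp := 8
    inn := [(0, 1), (1, 0), (1, 2), (1, 3), (1, 5), (2, 1), (2, 5), (3, 1), (3, 4), (3, 5), (4, 3), (4,
      5), (5, 1), (5, 2), (5, 3), (5, 4), (5, 6), (6, 5)]
    mix := [(0, 0), (0, 1), (0, 2), (1, 0), (1, 2), (2, 2), (2, 3), (3, 0), (3, 4), (3, 5), (3, 6), (4,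
      4), (4, 7), (5, 3), (5, 7), (5, 8), (5, 9), (6, 8), (6, 9), (6, 10)]
    cl := [0, 6, 2, 1, 0, 7, 8, 1, 3, 4, 5]
    chq := [(0, 2), (1, 5), (2, 0), (5, 1)]
    rng := [(0, 1), (0, 6), (1, 0), (1, 2), (2, 1), (2, 3), (3, 2), (3, 8), (4, 5), (4, 7), (5, 4), (5,
      6), (6, 0), (6, 5), (7, 4), (7, 9), (8, 3), (8, 10), (9, 7), (9, 10), (10, 8), (10, 9)]
    lev := [] }
  links := [[1, 7, 8, 9], [7, 0, 9, 2, 5, 3], [5, 1, 9, 10], [7, 1, 5, 4, 11, 12, 13], [11, 3, 5, 14],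
    [14, 4, 3, 1, 2, 10, 15, 6, 16], [16, 5, 15, 17]]
  P := {
    a := 7
    N := 18
    nb := [898, 685, 1570, 14514, 18472, 115806, 229408, 8459, 641, 1287, 33316, 20504, 10248, 4232,
      67632, 132192, 147552, 98368]
    tri := [(0, 1, 7), (0, 1, 9), (0, 7, 8), (0, 8, 9), (1, 2, 5), (1, 2, 9), (1, 3, 5), (1, 3, 7), (2,
      5, 10), (2, 9, 10), (3, 4, 5), (3, 4, 11), (3, 7, 13), (3, 11, 12), (3, 12, 13), (4, 5, 14),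
      (4, 11, 14), (5, 6, 15), (5, 6, 16), (5, 10, 15), (5, 14, 16), (6, 15, 17), (6, 16, 17)]
    fin := [0, 0, 0, 0, 0, 5, 5, 0, 8, 9, 5, 0, 12, 13, 5, 15, 16, 17]
    chd := [(0, 9), (5, 17)]
    steps := [(0, 1), (0, 2), (0, 3), (0, 4), (0, 7), (0, 11), (5, 6), (5, 10), (5, 14)] }
  rep := [0, 5, 9, 15, 16, 17, 8, 12, 13]

noncomputable def v2603 : Cov.CovD where
  P := 3
  N := 6
  pl := [1, 5, 6, 8, 9]
  lev := [⟨[], [], [(0, 2)], [6], [(0, 0, [2]), (2, 2, [0])]⟩,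
    ⟨[], [(0, 0), (0, 2)], [(0, 2)], [], [(0, 0, [2]), (2, 2, [0])]⟩,
    ⟨[(0, 1)], [(0, 2), (1, 0), (1, 1), (1, 2)], [(1, 2)], [], [(2, 2, [0]), (3, 1, [5])]⟩,
    ⟨[(0, 1), (1, 2)], [(0, 0), (1, 0), (1, 2)], [(0, 0)], [7, 8], [(0, 0, [2]), (4, 0,
      [2])]⟩,
    ⟨[(1, 3)], [(3, 0), (3, 1)], [(0, 1)], [], [(4, 0, [2]), (7, 1, [5])]⟩,
    ⟨[(0, 1), (1, 2), (1, 3), (1, 4), (2, 3), (2, 4), (3, 4)], [(1, 0), (1, 1), (1, 2), (2,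
      1), (2, 2), (3, 0), (3, 1), (4, 0), (4, 1)], [(1, 1)], [3, 4], [(3, 1, [5]), (7, 1,
      [5])]⟩,
    ⟨[(1, 5), (2, 5), (3, 5), (4, 5)], [(5, 1), (5, 5)], [], [3, 4], [(10, 5, [1])]⟩]
  Ta := [((0, 1), 0, 6), ((0, 6), 0, 8), ((3, 2), 1, 2), ((3, 8), 1, 3), ((4, 5), 0, 7), ((4, 7),
    0, 1), ((7, 4), 1, 0), ((7, 9), 1, 4)]
  Tb := [((0, 1, 6), 0, 6, 8), ((1, 0, 2), 6, 0, 2), ((2, 1, 3), 2, 6, 1), ((3, 2, 8), 1, 2, 3),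
    ((4, 5, 7), 0, 7, 1), ((5, 4, 6), 7, 0, 8), ((6, 0, 5), 8, 0, 7), ((7, 4, 9), 1, 0, 4),
    ((8, 3, 10), 3, 1, 5), ((9, 7, 10), 4, 1, 5), ((10, 8, 9), 5, 3, 4)]
  Tc := []
  Td := [((0, 2), (0, 1), 6), ((0, 2), (0, 6), 8), ((0, 2), (4, 5), 7), ((0, 2), (4, 7), 1), ((1,
    5), (3, 2), 2), ((1, 5), (3, 8), 3), ((1, 5), (7, 4), 0), ((1, 5), (7, 9), 4), ((2, 0),
    (2, 1), 6), ((2, 0), (2, 3), 1), ((5, 1), (10, 8), 3), ((5, 1), (10, 9), 4)]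
  G := [[0, 0, 0xa4241eb586f92b12ec5e2828caeb52241c281e79471e2c9ec2c,
    0x2414124229c2292229249e1c2258225462252282284ec28281cc,
    0x6afd423fad27bed8c923a9f4521af546afd2c68289aa], [0, 0,
    0xf16ac588471e2c9e42714b186a468c2ec1638eb582f568cc2848c2e, 0,
    0x635822a13fc5f69345a84e1ab1e456f9a456afd4e228481aa], [0, 0,
    0xf142c931866ac4a6c1a92b1e43a752892754e822f94e84ae81454e, 0x225422924622528ce128284c1,
    0xeb58eb528ca284f36d2c921], [0, 0x11a21211ca614845111e281c1,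
    0xb18718318ee4289e8245a6c1e52af54714eb5289e2681e2c1c1aa, 0, 0x7bed4365f8cf36d4e121]]

noncomputable def n2603 : Ent := ⟨e2603, noF, [], [], [(8, 17, [6903326391201334775872065844685381424292761054348340378595029940346881, 0])]⟩

def c2603 : PLift (Cov.check n2603.C.D v2603 = true) := ⟨by decide +kernel⟩

def b2603 : PLift (entF (fidx ts) 400 2603 n2603 = true) := ⟨by decide +kernel⟩

theorem g2603 : GoodF (fidx ts) 400 2603 := GoodF.ofV v2603 n2603 c2603.down b2603.down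

/-- 4647664:2130/2 -/
noncomputable def e2604 : SCfg where
  D := {
    a := 7
    L := 9
    kp := 6
    inn := [(0, 1), (0, 5), (1, 0), (1, 2), (1, 3), (1, 5), (2, 1), (3, 1), (3, 4), (3, 5), (4, 3), (4,
      6), (5, 0), (5, 1), (5, 3), (6, 4)]
    mix := [(0, 0), (0, 1), (1, 1), (1, 2), (2, 1), (2, 2), (2, 3), (3, 2), (3, 4), (3, 5), (3, 6), (4,
      2), (4, 3), (4, 4), (4, 7), (5, 0), (5, 6), (5, 8), (6, 0), (6, 3), (6, 7)]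
    cl := [3, 2, 0, 1, 1, 5, 0, 4, 6]
    chq := [(0, 2), (0, 3), (2, 0), (3, 0)]
    rng := [(0, 1), (0, 3), (0, 7), (0, 8), (1, 0), (1, 3), (2, 3), (3, 0), (3, 1), (3, 2), (4, 5), (4,
      7), (5, 4), (5, 6), (6, 5), (6, 8), (7, 0), (7, 4), (8, 0), (8, 6)]
    lev := [] }
  links := [[1, 5, 7, 8], [5, 0, 8, 2, 9, 3], [9, 1, 8, 10], [5, 1, 9, 4, 11, 12, 13], [11, 3, 9, 10, 6,
    14], [7, 0, 1, 3, 13, 15], [14, 4, 10, 7]]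
  P := {
    a := 7
    N := 16
    nb := [418, 813, 1794, 14898, 20040, 41099, 17552, 50529, 1159, 1054, 980, 20504, 10248, 36904,
      2256, 8352]
    tri := [(0, 1, 5), (0, 1, 8), (0, 5, 7), (0, 7, 8), (1, 2, 8), (1, 2, 9), (1, 3, 5), (1, 3, 9), (2,
      8, 10), (2, 9, 10), (3, 4, 9), (3, 4, 11), (3, 5, 13), (3, 11, 12), (3, 12, 13), (4, 6, 10),
      (4, 6, 14), (4, 9, 10), (4, 11, 14), (5, 7, 15), (5, 13, 15), (6, 7, 10), (6, 7, 14)]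
    fin := [0, 0, 2, 3, 4, 0, 0, 0, 2, 3, 4, 4, 12, 3, 14, 15]
    chd := [(0, 3), (2, 3)]
    steps := [(0, 1), (0, 5), (0, 7), (0, 6), (2, 8), (3, 9), (3, 13), (4, 10), (4, 11)] }
  rep := [3, 4, 2, 0, 14, 12, 15]

noncomputable def v2604 : Cov.CovD where
  P := 3
  N := 4
  pl := [5, 7, 8]
  lev := [⟨[], [], [(2, 3)], [], [(0, 3, [0]), (1, 2, [0])]⟩,
    ⟨[], [(0, 0), (0, 2), (0, 3)], [(0, 2)], [], [(1, 2, [0]), (2, 0, [2, 3])]⟩,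
    ⟨[(0, 1)], [(0, 2), (1, 0), (1, 1), (1, 2)], [(0, 1), (0, 2), (1, 2)], [], [(1, 2,
      [0]), (2, 0, [2, 3]), (3, 1, [])]⟩,
    ⟨[(0, 1), (1, 2)], [(1, 0), (1, 1), (1, 2), (2, 0)], [(0, 0), (0, 1)], [5], [(2, 0, [2,
      3]), (4, 1, []), (6, 0, [2, 3])]⟩,
    ⟨[(1, 3)], [(1, 0), (2, 0), (2, 1), (3, 0), (3, 1)], [(0, 1), (1, 1)], [4], [(2, 0, [2,
      3]), (3, 1, []), (4, 1, [])]⟩,
    ⟨[(0, 1), (0, 3), (1, 2), (1, 3), (3, 4)], [(0, 0), (0, 2), (0, 3), (1, 0), (1, 2), (1,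
      3), (3, 0), (3, 1), (3, 3)], [(0, 3)], [6], [(0, 3, [0]), (6, 0, [2, 3])]⟩,
    ⟨[(3, 4)], [(0, 3), (2, 1), (4, 0), (4, 1), (4, 3), (5, 3)], [(1, 3)], [4], [(0, 3,
      [0]), (3, 1, [])]⟩]
  Ta := [((2, 3), 0, 1), ((3, 0), 1, 3), ((3, 1), 1, 2), ((3, 2), 1, 0), ((4, 5), 1, 5), ((4, 7),
    1, 4), ((6, 5), 0, 5), ((6, 8), 0, 6)]
  Tb := [((0, 1, 3), 3, 2, 1), ((0, 1, 7), 3, 2, 4), ((0, 1, 8), 3, 2, 6), ((0, 3, 7), 3, 1, 4),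
    ((0, 3, 8), 3, 1, 6), ((0, 7, 8), 3, 4, 6), ((1, 0, 3), 2, 3, 1), ((3, 0, 1), 1, 3, 2),
    ((3, 0, 2), 1, 3, 0), ((3, 1, 2), 1, 2, 0), ((4, 5, 7), 1, 5, 4), ((5, 4, 6), 5, 1, 0),
    ((6, 5, 8), 0, 5, 6), ((7, 0, 4), 4, 3, 1), ((8, 0, 6), 6, 3, 0)]
  Tc := [(0, 2, 3)]
  Td := [((0, 2), (2, 3), 1), ((0, 2), (6, 5), 5), ((0, 2), (6, 8), 6), ((0, 3), (2, 3), 1), ((0,
    3), (6, 5), 5), ((0, 3), (6, 8), 6), ((2, 0), (1, 0), 3), ((2, 0), (1, 3), 1), ((3, 0),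
    (0, 1), 2), ((3, 0), (0, 3), 1), ((3, 0), (0, 7), 4), ((3, 0), (0, 8), 6)]
  G := [[0, 0x8121c8121c6484161a2141c688c, 0x8111c2841141c248c, 0x8111c248811d144dc248c,
    0x113143c81119cc82128195455c688a], [0, 0, 0x2111c31219c842, 0,
    0x225141d28d111298acdc822], [0, 0, 0x8111c24851419248a, 0x184284d24d212c89c44ce112884c9,
    0x89c54cc2112d2cd212cc8a1], [0, 0, 0x1121c2111cc822, 0, 0x4414226a41ec226a1acc921]]

noncomputable def n2604 : Ent := ⟨e2604, noF, [], [], []⟩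

def c2604 : PLift (Cov.check n2604.C.D v2604 = true) := ⟨by decide +kernel⟩

def b2604 : PLift (entF (fidx ts) 400 2604 n2604 = true) := ⟨by decide +kernel⟩

theorem g2604 : GoodF (fidx ts) 400 2604 := GoodF.ofV v2604 n2604 c2604.down b2604.down

/-- 4647664:2130/1 -/
noncomputable def e2605 : SCfg where
  D := {
    a := 7
    L := 10
    kp := 7
    inn := [(0, 1), (0, 5), (1, 0), (1, 2), (1, 3), (1, 5), (2, 1), (3, 1), (3, 4), (3, 5), (4, 3), (4,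
      6), (5, 0), (5, 1), (5, 3), (6, 4)]
    mix := [(0, 0), (0, 1), (1, 1), (1, 2), (2, 1), (2, 2), (2, 3), (3, 2), (3, 4), (3, 5), (3, 6), (4,
      2), (4, 4), (4, 7), (4, 8), (5, 0), (5, 6), (5, 9), (6, 0), (6, 7), (6, 8)]
    cl := [3, 1, 0, 6, 2, 7, 0, 2, 4, 5]
    chq := [(0, 1), (1, 0), (1, 5), (5, 1)]
    rng := [(0, 1), (0, 7), (0, 8), (0, 9), (1, 0), (1, 3), (2, 3), (2, 7), (3, 1), (3, 2), (4, 5), (4,
      8), (5, 4), (5, 6), (6, 5), (6, 9), (7, 0), (7, 2), (8, 0), (8, 4), (9, 0), (9, 6)]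
    lev := [] }
  links := [[1, 5, 7, 8], [5, 0, 8, 2, 9, 3], [9, 1, 8, 10], [5, 1, 9, 4, 11, 12, 13], [11, 3, 9, 14, 6,
    15], [7, 0, 1, 3, 13, 16], [15, 4, 14, 7]]
  P := {
    a := 7
    N := 17
    nb := [418, 813, 1794, 14898, 51784, 73867, 49296, 115041, 1159, 17438, 772, 36888, 10248, 69672,
      720, 2256, 8352]
    tri := [(0, 1, 5), (0, 1, 8), (0, 5, 7), (0, 7, 8), (1, 2, 8), (1, 2, 9), (1, 3, 5), (1, 3, 9), (2,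
      8, 10), (2, 9, 10), (3, 4, 9), (3, 4, 11), (3, 5, 13), (3, 11, 12), (3, 12, 13), (4, 6, 14),
      (4, 6, 15), (4, 9, 14), (4, 11, 15), (5, 7, 16), (5, 13, 16), (6, 7, 14), (6, 7, 15)]
    fin := [0, 1, 1, 3, 4, 1, 0, 0, 1, 3, 10, 4, 12, 3, 4, 15, 16]
    chd := [(1, 3), (1, 16)]
    steps := [(0, 7), (0, 6), (1, 2), (1, 5), (1, 8), (3, 9), (3, 13), (4, 14), (4, 11)] }
  rep := [3, 1, 4, 0, 15, 16, 10, 12]

noncomputable def v2605 : Cov.CovD where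
  P := 3
  N := 5
  pl := [0, 3, 5, 8]
  lev := [⟨[], [], [], [3], [(1, 1, [0, 5])]⟩,
    ⟨[], [(0, 0), (0, 1)], [(0, 1)], [], [(1, 1, [0, 5]), (2, 0, [1])]⟩,
    ⟨[(0, 1)], [(0, 1), (1, 0), (1, 1)], [(0, 1)], [6], [(1, 1, [0, 5]), (2, 0, [1])]⟩,
    ⟨[(0, 1), (1, 2)], [(1, 0), (1, 1), (1, 2), (2, 0)], [(0, 0), (0, 2)], [7], [(2, 0,
      [1]), (4, 2, []), (6, 0, [1])]⟩,
    ⟨[(1, 3)], [(1, 0), (2, 0), (3, 0), (3, 2)], [(0, 2), (2, 2)], [4], [(2, 0, [1]), (4,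
      2, []), (7, 2, [])]⟩,
    ⟨[(0, 1), (0, 3), (1, 2), (1, 3), (3, 4)], [(0, 0), (0, 1), (0, 5), (1, 0), (1, 1), (1,
      5), (3, 0), (3, 2), (3, 5)], [(0, 5)], [3], [(6, 0, [1]), (9, 5, [1])]⟩,
    ⟨[(3, 4)], [(4, 0), (4, 2)], [], [3, 4], [(7, 2, [])]⟩]
  Ta := [((2, 3), 0, 6), ((2, 7), 0, 2), ((4, 5), 2, 7), ((4, 8), 2, 4), ((6, 5), 0, 7), ((6, 9),
    0, 5), ((7, 0), 2, 3), ((7, 2), 2, 0)]
  Tb := [((0, 1, 7), 3, 1, 2), ((0, 1, 8), 3, 1, 4), ((0, 1, 9), 3, 1, 5), ((0, 7, 8), 3, 2, 4),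
    ((0, 7, 9), 3, 2, 5), ((0, 8, 9), 3, 4, 5), ((1, 0, 3), 1, 3, 6), ((2, 3, 7), 0, 6, 2),
    ((3, 1, 2), 6, 1, 0), ((4, 5, 8), 2, 7, 4), ((5, 4, 6), 7, 2, 0), ((6, 5, 9), 0, 7, 5),
    ((7, 0, 2), 2, 3, 0), ((8, 0, 4), 4, 3, 2), ((9, 0, 6), 5, 3, 0)]
  Tc := [(1, 0, 5)]
  Td := [((0, 1), (2, 3), 6), ((0, 1), (2, 7), 2), ((0, 1), (6, 5), 7), ((0, 1), (6, 9), 5), ((1,
    0), (1, 0), 3), ((1, 0), (1, 3), 6), ((1, 5), (1, 0), 3), ((1, 5), (1, 3), 6), ((5, 1),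
    (9, 0), 3), ((5, 1), (9, 6), 0)]
  G := [[0, 0x312151121cc312192111ccc22, 0,
    0x8222c4422a2c82288cc6222c44242212ccc82212c481242c82212c8ccd,
    0x428844442225324664c1daac42293a864b419aa8c428844d], [0, 0x8111c2241141c288d111c248e,
    0x8188186c128141cac4414414a84c222a44222222c4222a8ccd,
    0x889419c2889419c2c4855415c2815445c2c8c, 0x82293a482293a4c89212a41222a4c85], [0,
    0x318431215314c31215211ce82, 0, 0x8222c412212c81c2212c412242c81cc,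
    0x42122212926296654caad4298a81c4], [0, 0x8111c2841141c22411d1c244e, 0,
    0x88c44cc214d212c4112d2c81c9, 0x8222a9426189421292aac189]]

noncomputable def n2605 : Ent := ⟨e2605, noF, [], [], [(10, 14, [1685382413448253767852309107433119732572617628602273068445375578113, 0])]⟩

def c2605 : PLift (Cov.check n2605.C.D v2605 = true) := ⟨by decide +kernel⟩

def b2605 : PLift (entF (fidx ts) 400 2605 n2605 = true) := ⟨by decide +kernel⟩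

theorem g2605 : GoodF (fidx ts) 400 2605 := GoodF.ofV v2605 n2605 c2605.down b2605.down

/-- 4647664:2130/4 -/
noncomputable def e2606 : SCfg where
  D := {
    a := 7
    L := 9
    kp := 6
    inn := [(0, 1), (0, 5), (1, 0), (1, 2), (1, 3), (1, 5), (2, 1), (3, 1), (3, 4), (3, 5), (4, 3), (4,
      6), (5, 0), (5, 1), (5, 3), (6, 4)]
    mix := [(0, 0), (0, 1), (1, 1), (1, 2), (2, 1), (2, 2), (2, 3), (3, 2), (3, 4), (3, 5), (3, 6), (4,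
      2), (4, 3), (4, 4), (4, 7), (5, 0), (5, 6), (5, 8), (6, 1), (6, 3), (6, 7)]
    cl := [3, 2, 0, 1, 1, 5, 0, 4, 6]
    chq := [(0, 2), (0, 3), (2, 0), (3, 0)]
    rng := [(0, 1), (0, 8), (1, 0), (1, 3), (1, 7), (2, 3), (3, 1), (3, 2), (4, 5), (4, 7), (5, 4), (5,
      6), (6, 5), (6, 8), (7, 1), (7, 4), (8, 0), (8, 6)]
    lev := [] }
  links := [[1, 5, 7, 8], [5, 0, 8, 2, 9, 3], [9, 1, 8, 10], [5, 1, 9, 4, 11, 12, 13], [11, 3, 9, 10, 6,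
    14], [7, 0, 1, 3, 13, 15], [14, 4, 10, 8]]
  P := {
    a := 7
    N := 16
    nb := [418, 813, 1794, 14898, 20040, 41099, 17680, 33057, 17607, 1054, 852, 20504, 10248, 36904,
      2384, 8352]
    tri := [(0, 1, 5), (0, 1, 8), (0, 5, 7), (0, 7, 8), (1, 2, 8), (1, 2, 9), (1, 3, 5), (1, 3, 9), (2,
      8, 10), (2, 9, 10), (3, 4, 9), (3, 4, 11), (3, 5, 13), (3, 11, 12), (3, 12, 13), (4, 6, 10),
      (4, 6, 14), (4, 9, 10), (4, 11, 14), (5, 7, 15), (5, 13, 15), (6, 8, 10), (6, 8, 14)]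
    fin := [0, 1, 2, 3, 3, 1, 2, 0, 2, 1, 3, 3, 12, 1, 14, 15]
    chd := [(0, 1), (2, 1)]
    steps := [(0, 7), (1, 5), (1, 9), (1, 13), (2, 8), (2, 6), (3, 4), (3, 10), (3, 11)] }
  rep := [1, 3, 2, 0, 14, 12, 15]

noncomputable def v2606 : Cov.CovD where
  P := 3
  N := 4
  pl := [5, 7, 8]
  lev := [⟨[], [], [(2, 3)], [], [(0, 3, [0]), (1, 2, [0])]⟩,
    ⟨[], [(0, 0), (0, 2), (0, 3)], [(0, 2)], [], [(1, 2, [0]), (2, 0, [2, 3])]⟩,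
    ⟨[(0, 1)], [(0, 2), (1, 0), (1, 1), (1, 2)], [(0, 1), (0, 2), (1, 2)], [], [(1, 2,
      [0]), (2, 0, [2, 3]), (3, 1, [])]⟩,
    ⟨[(0, 1), (1, 2)], [(1, 0), (1, 1), (1, 2), (2, 0)], [(0, 0), (0, 1)], [5], [(2, 0, [2,
      3]), (4, 1, []), (6, 0, [2, 3])]⟩,
    ⟨[(1, 3)], [(1, 0), (2, 0), (2, 1), (3, 0), (3, 1)], [(0, 1), (1, 1)], [4], [(2, 0, [2,
      3]), (3, 1, []), (4, 1, [])]⟩,
    ⟨[(0, 1), (0, 3), (1, 2), (1, 3), (3, 4)], [(0, 0), (0, 2), (0, 3), (1, 0), (1, 2), (1,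
      3), (3, 0), (3, 1), (3, 3)], [(0, 3)], [6], [(0, 3, [0]), (6, 0, [2, 3])]⟩,
    ⟨[(3, 4)], [(0, 2), (1, 2), (2, 1), (2, 2), (4, 0), (4, 1), (4, 2)], [(1, 2)], [4],
      [(1, 2, [0]), (3, 1, [])]⟩]
  Ta := [((2, 3), 0, 1), ((3, 1), 1, 2), ((3, 2), 1, 0), ((4, 5), 1, 5), ((4, 7), 1, 4), ((6, 5),
    0, 5), ((6, 8), 0, 6)]
  Tb := [((0, 1, 8), 3, 2, 6), ((1, 0, 3), 2, 3, 1), ((1, 0, 7), 2, 3, 4), ((1, 3, 7), 2, 1, 4),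
    ((3, 1, 2), 1, 2, 0), ((4, 5, 7), 1, 5, 4), ((5, 4, 6), 5, 1, 0), ((6, 5, 8), 0, 5, 6),
    ((7, 1, 4), 4, 2, 1), ((8, 0, 6), 6, 3, 0)]
  Tc := [(0, 2, 3)]
  Td := [((0, 2), (2, 3), 1), ((0, 2), (6, 5), 5), ((0, 2), (6, 8), 6), ((0, 3), (2, 3), 1), ((0,
    3), (6, 5), 5), ((0, 3), (6, 8), 6), ((2, 0), (1, 0), 3), ((2, 0), (1, 3), 1), ((2, 0),
    (1, 7), 4), ((3, 0), (0, 1), 2), ((3, 0), (0, 8), 6)]
  G := [[0, 0x4181641816a848141a8141a688c, 0xc11248c11288a, 0x1141c24844542818d18c2c8c,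
    0x11388828111c2888414c289848818cc8ab], [0, 0, 0x611611c42c1111815c82a, 0,
    0x118214c82114482126221ec188e21acc82b], [0, 0, 0xc11244c11248a, 0x428258212c88c41cce481,
    0x9248212c88c11cce112881a1], [0, 0, 0x611c11c84c11611c48c, 0,
    0x281241c126321ec888e12acc921]]

noncomputable def n2606 : Ent := ⟨e2606, noF, [], [], []⟩

def c2606 : PLift (Cov.check n2606.C.D v2606 = true) := ⟨by decide +kernel⟩

def b2606 : PLift (entF (fidx ts) 400 2606 n2606 = true) := ⟨by decide +kernel⟩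

theorem g2606 : GoodF (fidx ts) 400 2606 := GoodF.ofV v2606 n2606 c2606.down b2606.down

/-- 4647664:2130/3 -/
noncomputable def e2607 : SCfg where
  D := {
    a := 7
    L := 10
    kp := 7
    inn := [(0, 1), (0, 5), (1, 0), (1, 2), (1, 3), (1, 5), (2, 1), (3, 1), (3, 4), (3, 5), (4, 3), (4,
      6), (5, 0), (5, 1), (5, 3), (6, 4)]
    mix := [(0, 0), (0, 1), (1, 1), (1, 2), (2, 1), (2, 2), (2, 3), (3, 2), (3, 4), (3, 5), (3, 6), (4,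
      2), (4, 4), (4, 7), (4, 8), (5, 0), (5, 6), (5, 9), (6, 1), (6, 7), (6, 8)]
    cl := [3, 1, 0, 6, 2, 7, 0, 2, 4, 5]
    chq := [(0, 1), (1, 0), (1, 5), (5, 1)]
    rng := [(0, 1), (0, 9), (1, 0), (1, 3), (1, 7), (1, 8), (2, 3), (2, 7), (3, 1), (3, 2), (4, 5), (4,
      8), (5, 4), (5, 6), (6, 5), (6, 9), (7, 1), (7, 2), (8, 1), (8, 4), (9, 0), (9, 6)]
    lev := [] }
  links := [[1, 5, 7, 8], [5, 0, 8, 2, 9, 3], [9, 1, 8, 10], [5, 1, 9, 4, 11, 12, 13], [11, 3, 9, 14, 6,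
    15], [7, 0, 1, 3, 13, 16], [15, 4, 14, 8]]
  P := {
    a := 7
    N := 17
    nb := [418, 813, 1794, 14898, 51784, 73867, 49424, 65825, 50375, 17438, 772, 36888, 10248, 69672,
      848, 2384, 8352]
    tri := [(0, 1, 5), (0, 1, 8), (0, 5, 7), (0, 7, 8), (1, 2, 8), (1, 2, 9), (1, 3, 5), (1, 3, 9), (2,
      8, 10), (2, 9, 10), (3, 4, 9), (3, 4, 11), (3, 5, 13), (3, 11, 12), (3, 12, 13), (4, 6, 14),
      (4, 6, 15), (4, 9, 14), (4, 11, 15), (5, 7, 16), (5, 13, 16), (6, 8, 14), (6, 8, 15)]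
    fin := [0, 1, 1, 3, 4, 1, 1, 0, 1, 3, 10, 4, 12, 3, 4, 15, 16]
    chd := [(1, 3), (1, 16)]
    steps := [(0, 7), (1, 2), (1, 5), (1, 8), (1, 6), (3, 9), (3, 13), (4, 14), (4, 11)] }
  rep := [3, 1, 4, 0, 15, 16, 10, 12]

noncomputable def v2607 : Cov.CovD where
  P := 3
  N := 5
  pl := [0, 3, 5, 8]
  lev := [⟨[], [], [], [3], [(1, 1, [0, 5])]⟩,
    ⟨[], [(0, 0), (0, 1)], [(0, 1)], [], [(1, 1, [0, 5]), (2, 0, [1])]⟩,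
    ⟨[(0, 1)], [(0, 1), (1, 0), (1, 1)], [(0, 1)], [6], [(1, 1, [0, 5]), (2, 0, [1])]⟩,
    ⟨[(0, 1), (1, 2)], [(1, 0), (1, 1), (1, 2), (2, 0)], [(0, 0), (0, 2)], [7], [(2, 0,
      [1]), (4, 2, []), (6, 0, [1])]⟩,
    ⟨[(1, 3)], [(1, 0), (2, 0), (3, 0), (3, 2)], [(0, 2), (2, 2)], [4], [(2, 0, [1]), (4,
      2, []), (7, 2, [])]⟩,
    ⟨[(0, 1), (0, 3), (1, 2), (1, 3), (3, 4)], [(0, 0), (0, 1), (0, 5), (1, 0), (1, 1), (1,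
      5), (3, 0), (3, 2), (3, 5)], [(0, 5)], [3], [(6, 0, [1]), (9, 5, [1])]⟩,
    ⟨[(3, 4)], [(0, 1), (1, 1), (2, 1), (4, 0), (4, 1), (4, 2)], [(1, 2)], [4], [(1, 1, [0,
      5]), (7, 2, [])]⟩]
  Ta := [((2, 3), 0, 6), ((2, 7), 0, 2), ((4, 5), 2, 7), ((4, 8), 2, 4), ((6, 5), 0, 7), ((6, 9),
    0, 5), ((7, 1), 2, 1), ((7, 2), 2, 0)]
  Tb := [((0, 1, 9), 3, 1, 5), ((1, 0, 3), 1, 3, 6), ((1, 0, 7), 1, 3, 2), ((1, 0, 8), 1, 3, 4),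
    ((1, 3, 7), 1, 6, 2), ((1, 3, 8), 1, 6, 4), ((1, 7, 8), 1, 2, 4), ((2, 3, 7), 0, 6, 2),
    ((3, 1, 2), 6, 1, 0), ((4, 5, 8), 2, 7, 4), ((5, 4, 6), 7, 2, 0), ((6, 5, 9), 0, 7, 5),
    ((7, 1, 2), 2, 1, 0), ((8, 1, 4), 4, 1, 2), ((9, 0, 6), 5, 3, 0)]
  Tc := [(1, 0, 5)]
  Td := [((0, 1), (2, 3), 6), ((0, 1), (2, 7), 2), ((0, 1), (6, 5), 7), ((0, 1), (6, 9), 5), ((1,
    0), (1, 0), 3), ((1, 0), (1, 3), 6), ((1, 0), (1, 7), 2), ((1, 0), (1, 8), 4), ((1, 5),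
    (1, 0), 3), ((1, 5), (1, 3), 6), ((1, 5), (1, 7), 2), ((1, 5), (1, 8), 4), ((5, 1), (9,
    0), 3), ((5, 1), (9, 6), 0)]
  G := [[0, 0xa1186114a4611a11c481141946118a4e, 0, 0,
    0x4152a81119aa42c2a82149aac482415a291281445aac12c1a88c128844d], [0,
    0xc11228c11248c11284e, 0x8142a4181664428168141ac8c8242a88641c6428268241acc8c,
    0x889149c21141c2c4885445c2188d414dc2c8c, 0x8112a44882193a48211a4c88212a488d], [0,
    0x611a11c82a11a11c42c11a11c24e, 0, 0, 0x12596a4291caa144212421212c4aa8254aad49], [0,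
    0x118152481141c224c11284e, 0, 0x42412488c8e184248212cc112881c5,
    0x9428291aac188212a9426185]]

noncomputable def n2607 : Ent := ⟨e2607, noF, [], [], [(10, 14, [1685382413448253767852309107433119732572617628602273068445375586305, 0])]⟩

def c2607 : PLift (Cov.check n2607.C.D v2607 = true) := ⟨by decide +kernel⟩

def b2607 : PLift (entF (fidx ts) 400 2607 n2607 = true) := ⟨by decide +kernel⟩

theorem g2607 : GoodF (fidx ts) 400 2607 := GoodF.ofV v2607 n2607 c2607.down b2607.down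

/-- 4647664:2130/6 -/
noncomputable def e2608 : SCfg where
  D := {
    a := 7
    L := 9
    kp := 6
    inn := [(0, 1), (0, 5), (1, 0), (1, 2), (1, 3), (1, 5), (2, 1), (3, 1), (3, 4), (3, 5), (4, 3), (4,
      6), (5, 0), (5, 1), (5, 3), (6, 4)]
    mix := [(0, 0), (0, 1), (1, 1), (1, 2), (2, 1), (2, 2), (2, 3), (3, 2), (3, 4), (3, 5), (3, 6), (4,
      2), (4, 3), (4, 4), (4, 7), (5, 0), (5, 6), (5, 8), (6, 3), (6, 7), (6, 8)]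
    cl := [3, 2, 0, 1, 1, 6, 0, 4, 5]
    chq := [(0, 2), (0, 3), (2, 0), (3, 0)]
    rng := [(0, 1), (0, 8), (1, 0), (1, 3), (2, 3), (3, 1), (3, 2), (3, 8), (4, 5), (4, 7), (5, 4), (5,
      6), (6, 5), (6, 8), (7, 4), (7, 8), (8, 0), (8, 3), (8, 6), (8, 7)]
    lev := [] }
  links := [[1, 5, 7, 8], [5, 0, 8, 2, 9, 3], [9, 1, 8, 10], [5, 1, 9, 4, 11, 12, 13], [11, 3, 9, 10, 6,
    14], [7, 0, 1, 3, 13, 15], [14, 4, 10, 15]]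
  P := {
    a := 7
    N := 16
    nb := [418, 813, 1794, 14898, 20040, 41099, 50192, 33057, 1159, 1054, 33620, 20504, 10248, 36904,
      34896, 25824]
    tri := [(0, 1, 5), (0, 1, 8), (0, 5, 7), (0, 7, 8), (1, 2, 8), (1, 2, 9), (1, 3, 5), (1, 3, 9), (2,
      8, 10), (2, 9, 10), (3, 4, 9), (3, 4, 11), (3, 5, 13), (3, 11, 12), (3, 12, 13), (4, 6, 10),
      (4, 6, 14), (4, 9, 10), (4, 11, 14), (5, 7, 15), (5, 13, 15), (6, 10, 15), (6, 14, 15)]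
    fin := [0, 1, 2, 3, 3, 1, 3, 0, 2, 1, 3, 3, 12, 1, 14, 15]
    chd := [(0, 1), (2, 1)]
    steps := [(0, 7), (1, 5), (1, 9), (1, 13), (2, 8), (3, 4), (3, 6), (3, 10), (3, 11)] }
  rep := [1, 3, 2, 0, 14, 15, 12]

noncomputable def v2608 : Cov.CovD where
  P := 3
  N := 4
  pl := [5, 7, 8]
  lev := [⟨[], [], [(2, 3)], [], [(0, 3, [0]), (1, 2, [0])]⟩,
    ⟨[], [(0, 0), (0, 2), (0, 3)], [(0, 2)], [], [(1, 2, [0]), (2, 0, [2, 3])]⟩,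
    ⟨[(0, 1)], [(0, 2), (1, 0), (1, 1), (1, 2)], [(0, 1), (0, 2), (1, 2)], [], [(1, 2,
      [0]), (2, 0, [2, 3]), (3, 1, [])]⟩,
    ⟨[(0, 1), (1, 2)], [(1, 0), (1, 1), (1, 2), (2, 0)], [(0, 0), (0, 1)], [6], [(2, 0, [2,
      3]), (4, 1, []), (6, 0, [2, 3])]⟩,
    ⟨[(1, 3)], [(1, 0), (2, 0), (2, 1), (3, 0), (3, 1)], [(0, 1), (1, 1)], [4], [(2, 0, [2,
      3]), (3, 1, []), (4, 1, [])]⟩,
    ⟨[(0, 1), (0, 3), (1, 2), (1, 3), (3, 4)], [(0, 0), (0, 2), (0, 3), (1, 0), (1, 2), (1,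
      3), (3, 0), (3, 1), (3, 3)], [(0, 3)], [5], [(0, 3, [0]), (6, 0, [2, 3])]⟩,
    ⟨[(3, 4)], [(2, 1), (4, 0), (4, 1)], [], [4, 5], [(3, 1, [])]⟩]
  Ta := [((2, 3), 0, 1), ((3, 1), 1, 2), ((3, 2), 1, 0), ((3, 8), 1, 5), ((4, 5), 1, 6), ((4, 7),
    1, 4), ((6, 5), 0, 6), ((6, 8), 0, 5)]
  Tb := [((0, 1, 8), 3, 2, 5), ((1, 0, 3), 2, 3, 1), ((3, 1, 2), 1, 2, 0), ((3, 1, 8), 1, 2, 5),
    ((3, 2, 8), 1, 0, 5), ((4, 5, 7), 1, 6, 4), ((5, 4, 6), 6, 1, 0), ((6, 5, 8), 0, 6, 5),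
    ((7, 4, 8), 4, 1, 5), ((8, 0, 3), 5, 3, 1), ((8, 0, 6), 5, 3, 0), ((8, 0, 7), 5, 3, 4),
    ((8, 3, 6), 5, 1, 0), ((8, 3, 7), 5, 1, 4), ((8, 6, 7), 5, 0, 4)]
  Tc := [(0, 2, 3)]
  Td := [((0, 2), (2, 3), 1), ((0, 2), (6, 5), 6), ((0, 2), (6, 8), 5), ((0, 3), (2, 3), 1), ((0,
    3), (6, 5), 6), ((0, 3), (6, 8), 5), ((2, 0), (1, 0), 3), ((2, 0), (1, 3), 1), ((3, 0),
    (0, 1), 2), ((3, 0), (0, 8), 5)]
  G := [[0, 0xc161aa161c648c1a16a161ca84c, 0x9151c28411d1c2846, 0x5292c4412d2c84c1,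
    0x1139d3c859119cc82185415c288a], [0, 0, 0x312251221cc422111c3112cc82c, 0,
    0x2111c214c822212c811e22cc829], [0, 0, 0x9151c24811d1c2486, 0xd212c4112d282d421c8c1,
    0xd212c89c54cc615292c81a1], [0, 0, 0x2111c829619c841121c31219c84a, 0,
    0x943e822e5841e2222cdc821]]

noncomputable def n2608 : Ent := ⟨e2608, noF, [], [], []⟩

def c2608 : PLift (Cov.check n2608.C.D v2608 = true) := ⟨by decide +kernel⟩

def b2608 : PLift (entF (fidx ts) 400 2608 n2608 = true) := ⟨by decide +kernel⟩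

theorem g2608 : GoodF (fidx ts) 400 2608 := GoodF.ofV v2608 n2608 c2608.down b2608.down

/-- 4647664:2130/5 -/
noncomputable def e2609 : SCfg where
  D := {
    a := 7
    L := 10
    kp := 7
    inn := [(0, 1), (0, 5), (1, 0), (1, 2), (1, 3), (1, 5), (2, 1), (3, 1), (3, 4), (3, 5), (4, 3), (4,
      6), (5, 0), (5, 1), (5, 3), (6, 4)]
    mix := [(0, 0), (0, 1), (1, 1), (1, 2), (2, 1), (2, 2), (2, 3), (3, 2), (3, 4), (3, 5), (3, 6), (4,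
      2), (4, 3), (4, 4), (4, 7), (5, 0), (5, 6), (5, 8), (6, 3), (6, 7), (6, 9)]
    cl := [3, 2, 0, 1, 1, 6, 0, 4, 5, 7]
    chq := [(0, 2), (2, 0), (2, 5), (5, 2)]
    rng := [(0, 1), (0, 8), (1, 0), (1, 3), (2, 3), (3, 1), (3, 2), (3, 9), (4, 5), (4, 7), (5, 4), (5,
      6), (6, 5), (6, 8), (7, 4), (7, 9), (8, 0), (8, 6), (9, 3), (9, 7)]
    lev := [] }
  links := [[1, 5, 7, 8], [5, 0, 8, 2, 9, 3], [9, 1, 8, 10], [5, 1, 9, 4, 11, 12, 13], [11, 3, 9, 10, 6,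
    14], [7, 0, 1, 3, 13, 15], [14, 4, 10, 16]]
  P := {
    a := 7
    N := 17
    nb := [418, 813, 1794, 14898, 20040, 41099, 82960, 33057, 1159, 1054, 66388, 20504, 10248, 36904,
      67664, 8352, 17472]
    tri := [(0, 1, 5), (0, 1, 8), (0, 5, 7), (0, 7, 8), (1, 2, 8), (1, 2, 9), (1, 3, 5), (1, 3, 9), (2,
      8, 10), (2, 9, 10), (3, 4, 9), (3, 4, 11), (3, 5, 13), (3, 11, 12), (3, 12, 13), (4, 6, 10),
      (4, 6, 14), (4, 9, 10), (4, 11, 14), (5, 7, 15), (5, 13, 15), (6, 10, 16), (6, 14, 16)]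
    fin := [0, 1, 1, 3, 4, 1, 4, 0, 1, 3, 4, 4, 12, 3, 14, 15, 16]
    chd := [(1, 3), (1, 15)]
    steps := [(0, 7), (1, 2), (1, 5), (1, 8), (3, 9), (3, 13), (4, 6), (4, 10), (4, 11)] }
  rep := [3, 4, 1, 0, 14, 15, 12, 16]

noncomputable def v2609 : Cov.CovD where
  P := 3
  N := 5
  pl := [0, 5, 7, 9]
  lev := [⟨[], [], [], [3], [(1, 2, [0, 5])]⟩,
    ⟨[], [(0, 0), (0, 2)], [(0, 2)], [], [(1, 2, [0, 5]), (2, 0, [2])]⟩,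
    ⟨[(0, 1)], [(0, 2), (1, 0), (1, 1), (1, 2)], [(0, 1), (0, 2), (1, 2)], [], [(1, 2, [0,
      5]), (2, 0, [2]), (3, 1, [])]⟩,
    ⟨[(0, 1), (1, 2)], [(1, 0), (1, 1), (1, 2), (2, 0)], [(0, 0), (0, 1)], [6], [(2, 0,
      [2]), (4, 1, []), (6, 0, [2])]⟩,
    ⟨[(1, 3)], [(1, 0), (2, 0), (2, 1), (3, 0), (3, 1)], [(0, 1), (1, 1)], [4], [(2, 0,
      [2]), (3, 1, []), (4, 1, [])]⟩,
    ⟨[(0, 1), (0, 3), (1, 2), (1, 3), (3, 4)], [(0, 0), (0, 2), (0, 5), (1, 0), (1, 2), (1,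
      5), (3, 0), (3, 1), (3, 5)], [(0, 5)], [3], [(6, 0, [2]), (8, 5, [2])]⟩,
    ⟨[(3, 4)], [(2, 1), (4, 0), (4, 1)], [], [4, 7], [(3, 1, [])]⟩]
  Ta := [((2, 3), 0, 1), ((3, 1), 1, 2), ((3, 2), 1, 0), ((3, 9), 1, 7), ((4, 5), 1, 6), ((4, 7),
    1, 4), ((6, 5), 0, 6), ((6, 8), 0, 5)]
  Tb := [((0, 1, 8), 3, 2, 5), ((1, 0, 3), 2, 3, 1), ((3, 1, 2), 1, 2, 0), ((3, 1, 9), 1, 2, 7),
    ((3, 2, 9), 1, 0, 7), ((4, 5, 7), 1, 6, 4), ((5, 4, 6), 6, 1, 0), ((6, 5, 8), 0, 6, 5),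
    ((7, 4, 9), 4, 1, 7), ((8, 0, 6), 5, 3, 0), ((9, 3, 7), 7, 1, 4)]
  Tc := [(2, 0, 5)]
  Td := [((0, 2), (2, 3), 1), ((0, 2), (6, 5), 6), ((0, 2), (6, 8), 5), ((2, 0), (1, 0), 3), ((2,
    0), (1, 3), 1), ((2, 5), (1, 0), 3), ((2, 5), (1, 3), 1), ((5, 2), (8, 0), 3), ((5, 2),
    (8, 6), 0)]
  G := [[0, 0xc162aa161c648c261a4c2a268c8c, 0x9151c2849151c284c, 0x995555c248999559c284c,
    0x995555c2889454c2883], [0, 0, 0xc1215a1619c842151c21e15c42c, 0,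
    0x2151c29cb22bcc823464c61a1cc82a], [0, 0, 0x9151c2849151c284a,
    0x9858c29454c2541244412d282dd2429c8c9, 0x821421c812d2cd212c99c55cce839454c288a], [0, 0,
    0x61a159121cc823161cc1219c84a, 0, 0x66634c6aaa3acc81ccae22c5ca62669c829]]

noncomputable def n2609 : Ent := ⟨e2609, noF, [], [], [(7, 16, [1580044410770988437309982408355971841652082177953823432505699778561, 0]), (8, 16, [1580044410770988437309982408355971841652082177953823432505699786753, 0]), (16, 15, [1685356702439545624007900436039642273970977273354372543760010772481, 0])]⟩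

def c2609 : PLift (Cov.check n2609.C.D v2609 = true) := ⟨by decide +kernel⟩

def b2609 : PLift (entF (fidx ts) 400 2609 n2609 = true) := ⟨by decide +kernel⟩

theorem g2609 : GoodF (fidx ts) 400 2609 := GoodF.ofV v2609 n2609 c2609.down b2609.down

/-- 4647664:2130/7 -/
noncomputable def e2610 : SCfg where
  D := {
    a := 7
    L := 10
    kp := 7
    inn := [(0, 1), (0, 5), (1, 0), (1, 2), (1, 3), (1, 5), (2, 1), (3, 1), (3, 4), (3, 5), (4, 3), (4,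
      6), (5, 0), (5, 1), (5, 3), (6, 4)]
    mix := [(0, 0), (0, 1), (1, 1), (1, 2), (2, 1), (2, 2), (2, 3), (3, 2), (3, 4), (3, 5), (3, 6), (4,
      2), (4, 4), (4, 7), (4, 8), (5, 0), (5, 6), (5, 9), (6, 7), (6, 8), (6, 9)]
    cl := [4, 3, 0, 6, 1, 7, 0, 1, 5, 2]
    chq := [(0, 3), (2, 3), (3, 0), (3, 2)]
    rng := [(0, 1), (0, 9), (1, 0), (1, 3), (2, 3), (2, 7), (3, 1), (3, 2), (4, 5), (4, 8), (5, 4), (5,
      6), (6, 5), (6, 9), (7, 2), (7, 9), (8, 4), (8, 9), (9, 0), (9, 6), (9, 7), (9, 8)]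
    lev := [] }
  links := [[1, 5, 7, 8], [5, 0, 8, 2, 9, 3], [9, 1, 8, 10], [5, 1, 9, 4, 11, 12, 13], [11, 3, 9, 14, 6,
    15], [7, 0, 1, 3, 13, 16], [15, 4, 14, 16]]
  P := {
    a := 7
    N := 17
    nb := [418, 813, 1794, 14898, 51784, 73867, 114704, 65825, 1159, 17438, 772, 36888, 10248, 69672,
      66128, 67664, 57568]
    tri := [(0, 1, 5), (0, 1, 8), (0, 5, 7), (0, 7, 8), (1, 2, 8), (1, 2, 9), (1, 3, 5), (1, 3, 9), (2,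
      8, 10), (2, 9, 10), (3, 4, 9), (3, 4, 11), (3, 5, 13), (3, 11, 12), (3, 12, 13), (4, 6, 14),
      (4, 6, 15), (4, 9, 14), (4, 11, 15), (5, 7, 16), (5, 13, 16), (6, 14, 16), (6, 15, 16)]
    fin := [0, 1, 1, 3, 4, 1, 4, 0, 1, 3, 10, 4, 12, 3, 4, 15, 16]
    chd := [(1, 3), (1, 16)]
    steps := [(0, 7), (1, 2), (1, 5), (1, 8), (3, 9), (3, 13), (4, 6), (4, 14), (4, 11)] }
  rep := [3, 4, 16, 1, 0, 15, 10, 12]

noncomputable def v2610 : Cov.CovD where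
  P := 3
  N := 5
  pl := [0, 3, 5, 8]
  lev := [⟨[], [], [], [4], [(1, 3, [0, 2])]⟩,
    ⟨[], [(0, 0), (0, 3)], [(0, 3)], [], [(1, 3, [0, 2]), (2, 0, [3])]⟩,
    ⟨[(0, 1)], [(0, 3), (1, 0), (1, 3)], [(0, 3)], [6], [(1, 3, [0, 2]), (2, 0, [3])]⟩,
    ⟨[(0, 1), (1, 2)], [(1, 0), (1, 1), (1, 3), (2, 0)], [(0, 0), (0, 1)], [7], [(2, 0,
      [3]), (4, 1, []), (6, 0, [3])]⟩,
    ⟨[(1, 3)], [(1, 0), (2, 0), (3, 0), (3, 1)], [(0, 1), (1, 1)], [5], [(2, 0, [3]), (4,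
      1, []), (7, 1, [])]⟩,
    ⟨[(0, 1), (0, 3), (1, 2), (1, 3), (3, 4)], [(0, 0), (0, 2), (0, 3), (1, 0), (1, 2), (1,
      3), (3, 0), (3, 1), (3, 2)], [(0, 2)], [4], [(6, 0, [3]), (9, 2, [3])]⟩,
    ⟨[(3, 4)], [(4, 0), (4, 1), (4, 2), (5, 2)], [(1, 2)], [5], [(7, 1, []), (9, 2, [3])]⟩]
  Ta := [((2, 3), 0, 6), ((2, 7), 0, 1), ((4, 5), 1, 7), ((4, 8), 1, 5), ((6, 5), 0, 7), ((6, 9),
    0, 2), ((7, 2), 1, 0), ((7, 9), 1, 2)]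
  Tb := [((0, 1, 9), 4, 3, 2), ((1, 0, 3), 3, 4, 6), ((2, 3, 7), 0, 6, 1), ((3, 1, 2), 6, 3, 0),
    ((4, 5, 8), 1, 7, 5), ((5, 4, 6), 7, 1, 0), ((6, 5, 9), 0, 7, 2), ((7, 2, 9), 1, 0, 2),
    ((8, 4, 9), 5, 1, 2), ((9, 0, 6), 2, 4, 0), ((9, 0, 7), 2, 4, 1), ((9, 0, 8), 2, 4, 5),
    ((9, 6, 7), 2, 0, 1), ((9, 6, 8), 2, 0, 5), ((9, 7, 8), 2, 1, 5)]
  Tc := [(3, 0, 2)]
  Td := [((0, 3), (2, 3), 6), ((0, 3), (2, 7), 1), ((0, 3), (6, 5), 7), ((0, 3), (6, 9), 2), ((2,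
    3), (9, 0), 4), ((2, 3), (9, 6), 0), ((2, 3), (9, 7), 1), ((2, 3), (9, 8), 5), ((3, 0),
    (1, 0), 4), ((3, 0), (1, 3), 6), ((3, 2), (1, 0), 4), ((3, 2), (1, 3), 6)]
  G := [[0, 0, 0, 0,
    0x2138844883223c412411a28ccc11322c8822312c88311cc2118c88219cc6e22882a44384c46a2449244c984822a8c8124828ce18442ef],
    [0,
    0x8448c24288544a448c566448468848aaa449889648886a488868848ac6cc828848c6c42444c8468484cace27,
    0, 0x885445c2815449c2a889449c2185445c26c2,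
    0x8818c2848111c2889119c2c8889119c2889119c2648818c28818c264f], [0, 0,
    0x22a44122644ac88a8c1226446c88c22acc1e1, 0,
    0x82843241812acc91222c813128988212c43e2248228cc481a28588229c28a1822a14984888cf18444e5],
    [0, 0, 0x88c44cc2188c44cc21c1, 0x88c11cc214181528894499218c14c2d48422d2,
    0x9248212cc18111c21292c888a38212c41e8111c2848818c29842547]]

noncomputable def n2610 : Ent := ⟨e2610, noF, [], [], [(10, 14, [1685382413448253767852309107433119732572617628602273068445375594497, 0])]⟩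

def c2610 : PLift (Cov.check n2610.C.D v2610 = true) := ⟨by decide +kernel⟩

def b2610 : PLift (entF (fidx ts) 400 2610 n2610 = true) := ⟨by decide +kernel⟩

theorem g2610 : GoodF (fidx ts) 400 2610 := GoodF.ofV v2610 n2610 c2610.down b2610.down

/-- 4647664:2130 -/
noncomputable def e2611 : SCfg where
  D := {
    a := 7
    L := 11
    kp := 8
    inn := [(0, 1), (0, 5), (1, 0), (1, 2), (1, 3), (1, 5), (2, 1), (3, 1), (3, 4), (3, 5), (4, 3), (4,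
      6), (5, 0), (5, 1), (5, 3), (6, 4)]
    mix := [(0, 0), (0, 1), (1, 1), (1, 2), (2, 1), (2, 2), (2, 3), (3, 2), (3, 4), (3, 5), (3, 6), (4,
      2), (4, 4), (4, 7), (4, 8), (5, 0), (5, 6), (5, 9), (6, 7), (6, 8), (6, 10)]
    cl := [3, 1, 0, 6, 2, 7, 0, 2, 4, 5, 8]
    chq := [(0, 1), (1, 0), (1, 5), (5, 1)]
    rng := [(0, 1), (0, 9), (1, 0), (1, 3), (2, 3), (2, 7), (3, 1), (3, 2), (4, 5), (4, 8), (5, 4), (5,
      6), (6, 5), (6, 9), (7, 2), (7, 10), (8, 4), (8, 10), (9, 0), (9, 6), (10, 7), (10, 8)]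
    lev := [] }
  links := [[1, 5, 7, 8], [5, 0, 8, 2, 9, 3], [9, 1, 8, 10], [5, 1, 9, 4, 11, 12, 13], [11, 3, 9, 14, 6,
    15], [7, 0, 1, 3, 13, 16], [15, 4, 14, 17]]
  P := {
    a := 7
    N := 18
    nb := [418, 813, 1794, 14898, 51784, 73867, 180240, 65825, 1159, 17438, 772, 36888, 10248, 69672,
      131664, 133200, 8352, 49216]
    tri := [(0, 1, 5), (0, 1, 8), (0, 5, 7), (0, 7, 8), (1, 2, 8), (1, 2, 9), (1, 3, 5), (1, 3, 9), (2,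
      8, 10), (2, 9, 10), (3, 4, 9), (3, 4, 11), (3, 5, 13), (3, 11, 12), (3, 12, 13), (4, 6, 14),
      (4, 6, 15), (4, 9, 14), (4, 11, 15), (5, 7, 16), (5, 13, 16), (6, 14, 17), (6, 15, 17)]
    fin := [0, 1, 1, 3, 4, 1, 4, 0, 1, 3, 10, 4, 12, 3, 4, 15, 16, 17]
    chd := [(1, 3), (1, 16)]
    steps := [(0, 7), (1, 2), (1, 5), (1, 8), (3, 9), (3, 13), (4, 6), (4, 14), (4, 11)] }
  rep := [3, 1, 4, 0, 15, 16, 10, 12, 17]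

noncomputable def v2611 : Cov.CovD where
  P := 3
  N := 6
  pl := [0, 3, 5, 8, 10]
  lev := [⟨[], [], [], [3], [(1, 1, [0, 5])]⟩,
    ⟨[], [(0, 0), (0, 1)], [(0, 1)], [], [(1, 1, [0, 5]), (2, 0, [1])]⟩,
    ⟨[(0, 1)], [(0, 1), (1, 0), (1, 1)], [(0, 1)], [6], [(1, 1, [0, 5]), (2, 0, [1])]⟩,
    ⟨[(0, 1), (1, 2)], [(1, 0), (1, 1), (1, 2), (2, 0)], [(0, 0), (0, 2)], [7], [(2, 0,
      [1]), (4, 2, []), (6, 0, [1])]⟩,
    ⟨[(1, 3)], [(1, 0), (2, 0), (3, 0), (3, 2)], [(0, 2), (2, 2)], [4], [(2, 0, [1]), (4,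
      2, []), (7, 2, [])]⟩,
    ⟨[(0, 1), (0, 3), (1, 2), (1, 3), (3, 4)], [(0, 0), (0, 1), (0, 5), (1, 0), (1, 1), (1,
      5), (3, 0), (3, 2), (3, 5)], [(0, 5)], [3], [(6, 0, [1]), (9, 5, [1])]⟩,
    ⟨[(3, 4)], [(4, 0), (4, 2)], [], [4, 8], [(7, 2, [])]⟩]
  Ta := [((2, 3), 0, 6), ((2, 7), 0, 2), ((4, 5), 2, 7), ((4, 8), 2, 4), ((6, 5), 0, 7), ((6, 9),
    0, 5), ((7, 2), 2, 0), ((7, 10), 2, 8)]
  Tb := [((0, 1, 9), 3, 1, 5), ((1, 0, 3), 1, 3, 6), ((2, 3, 7), 0, 6, 2), ((3, 1, 2), 6, 1, 0),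
    ((4, 5, 8), 2, 7, 4), ((5, 4, 6), 7, 2, 0), ((6, 5, 9), 0, 7, 5), ((7, 2, 10), 2, 0, 8),
    ((8, 4, 10), 4, 2, 8), ((9, 0, 6), 5, 3, 0), ((10, 7, 8), 8, 2, 4)]
  Tc := [(1, 0, 5)]
  Td := [((0, 1), (2, 3), 6), ((0, 1), (2, 7), 2), ((0, 1), (6, 5), 7), ((0, 1), (6, 9), 5), ((1,
    0), (1, 0), 3), ((1, 0), (1, 3), 6), ((1, 5), (1, 0), 3), ((1, 5), (1, 3), 6), ((5, 1),
    (9, 0), 3), ((5, 1), (9, 6), 0)]
  G := [[0, 0x2111ca1615c22c121531619c611868c14c1219ca118c2e, 0,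
    0xa131c442151c2938c323e1c8cc21b23c462432a2ccc2252c88c2244832884cd,
    0x41d1a99a445aa44331a99a41aac432291444daa452c2a91449aa8c428844d], [0,
    0x9151c2289151c2489151c288e, 0xc2a2648361ac863a26a166acac484362a4624c161aaa68eca161c28cc,
    0x9151c24999559c28c995555c2999d555dc2c8c, 0x9232a448993333a49131a4c89232a488d], [0,
    0x7121cb1219c2421e1521b1cc82a161521e19c48e, 0,
    0x2414c26b2c45276526c81c2414b2a4492818281832c6ac29a8cdc9,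
    0x446336a67cc4caa14481421a481421a42d3aa9d644aad49], [0, 0x9151c2849151c2249151c244e, 0,
    0x99c55cc214821421cd24d212cc5821421c12889c9,
    0x9232a41841241a14889c841241ab4299a33aab414ae589]]

noncomputable def n2611 : Ent := ⟨e2611, noF, [], [], [(7, 17, [6903326391201334775872065844685381424292761054348340378595029940359169, 0]), (8, 17, [6903326391201334775872065844685381424292761054348340378595029940367361, 0]), (10, 14, [7334790875878422277917280412776772662961875900559637987928627380162561, 0]), (17, 16, [7334685537875745012586738086077695515070955365108989538292687704367105, 0])]⟩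

def c2611 : PLift (Cov.check n2611.C.D v2611 = true) := ⟨by decide +kernel⟩

def b2611 : PLift (entF (fidx ts) 400 2611 n2611 = true) := ⟨by decide +kernel⟩

theorem g2611 : GoodF (fidx ts) 400 2611 := GoodF.ofV v2611 n2611 c2611.down b2611.down

/-- 4646744:2131/1 -/
noncomputable def e2612 : SCfg where
  D := {
    a := 7
    L := 9
    kp := 6
    inn := [(0, 1), (1, 0), (1, 2), (1, 3), (2, 1), (2, 3), (3, 1), (3, 2), (3, 4), (4, 3), (4, 5), (4,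
      6), (5, 4), (6, 4)]
    mix := [(0, 0), (0, 1), (0, 2), (1, 0), (1, 2), (1, 3), (2, 2), (2, 4), (3, 3), (3, 4), (3, 5), (4,
      4), (4, 5), (4, 6), (4, 7), (5, 5), (5, 7), (5, 8), (6, 1), (6, 4), (6, 6)]
    cl := [4, 2, 3, 0, 0, 1, 1, 5, 6]
    chq := [(3, 4), (4, 3)]
    rng := [(0, 1), (0, 3), (1, 0), (1, 2), (1, 4), (1, 6), (2, 1), (2, 4), (3, 0), (3, 5), (4, 1), (4,
      2), (5, 3), (5, 8), (6, 1), (6, 7), (7, 6), (7, 8), (8, 5), (8, 7)]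
    lev := [] }
  links := [[1, 7, 8, 9], [7, 0, 9, 2, 3, 10], [3, 1, 9, 11], [10, 1, 2, 11, 4, 12], [12, 3, 11, 6, 13,
    14, 5], [12, 4, 14, 15], [13, 4, 11, 8]]
  P := {
    a := 7
    N := 16
    nb := [898, 1677, 2570, 7190, 30824, 53264, 10512, 1283, 10945, 2311, 4234, 860, 33848, 16720,
      41008, 20512]
    tri := [(0, 1, 7), (0, 1, 9), (0, 7, 8), (0, 8, 9), (1, 2, 3), (1, 2, 9), (1, 3, 10), (1, 7, 10),
      (2, 3, 11), (2, 9, 11), (3, 4, 11), (3, 4, 12), (3, 10, 12), (4, 5, 12), (4, 5, 14), (4, 6,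
      11), (4, 6, 13), (4, 13, 14), (5, 12, 15), (5, 14, 15), (6, 8, 11), (6, 8, 13)]
    fin := [0, 0, 0, 3, 4, 4, 6, 0, 6, 9, 3, 3, 4, 4, 14, 15]
    chd := [(0, 9)]
    steps := [(0, 1), (0, 2), (0, 7), (3, 11), (3, 10), (4, 5), (4, 13), (4, 12), (6, 8)] }
  rep := [3, 4, 6, 9, 0, 14, 15]

noncomputable def v2612 : Cov.CovD where
  P := 3
  N := 4
  pl := [1, 7, 8]
  lev := [⟨[], [], [(3, 4)], [2], [(0, 4, [3]), (2, 3, [4])]⟩,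
    ⟨[], [(0, 0), (0, 3), (0, 4)], [(0, 3), (0, 4), (3, 4)], [], [(0, 4, [3]), (2, 3, [4]),
      (3, 0, [])]⟩,
    ⟨[(0, 1)], [(0, 3), (1, 0), (1, 3), (1, 4)], [(0, 3)], [], [(2, 3, [4]), (4, 0, [])]⟩,
    ⟨[(0, 1), (1, 2)], [(1, 0), (1, 1), (1, 3), (1, 4), (2, 0), (2, 1), (2, 3)], [(0, 0),
      (0, 1)], [], [(3, 0, []), (4, 0, []), (5, 1, [])]⟩,
    ⟨[(1, 3), (2, 3)], [(2, 0), (3, 0), (3, 1)], [(0, 1), (1, 1)], [5], [(4, 0, []), (5, 1,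
      []), (6, 1, [])]⟩,
    ⟨[(3, 4)], [(3, 1), (4, 0), (4, 1)], [], [5, 6], [(5, 1, [])]⟩,
    ⟨[(3, 4), (4, 5)], [(2, 0), (3, 0), (4, 0), (4, 1)], [(0, 1)], [2], [(4, 0, []), (6, 1,
      [])]⟩]
  Ta := [((3, 0), 0, 4), ((3, 5), 0, 1), ((4, 1), 0, 2), ((4, 2), 0, 3), ((5, 3), 1, 0), ((5, 8),
    1, 6), ((6, 1), 1, 2), ((6, 7), 1, 5)]
  Tb := [((0, 1, 3), 4, 2, 0), ((1, 0, 2), 2, 4, 3), ((1, 0, 4), 2, 4, 0), ((1, 0, 6), 2, 4, 1),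
    ((1, 2, 4), 2, 3, 0), ((1, 2, 6), 2, 3, 1), ((1, 4, 6), 2, 0, 1), ((2, 1, 4), 3, 2, 0),
    ((3, 0, 5), 0, 4, 1), ((4, 1, 2), 0, 2, 3), ((5, 3, 8), 1, 0, 6), ((6, 1, 7), 1, 2, 5),
    ((7, 6, 8), 5, 1, 6), ((8, 5, 7), 6, 1, 5)]
  Tc := []
  Td := [((3, 4), (2, 1), 2), ((3, 4), (2, 4), 0), ((4, 3), (0, 1), 2), ((4, 3), (0, 3), 0)]
  G := [[0, 0x84826488c14224884ca188c84a682e1, 0, 0,
    0x24142414228d21c47828542898c1228542298c14b], [0, 0, 0, 0x4282c4181282982212829822d,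
    0x8288854618886883c41288c825844b], [0, 0, 0x22542498c8188544298c4141845c288c21e, 0,
    0x88542898c228542898c8582542298c21885c288cc2288421825c82884e4b], [0, 0,
    0x48982c481449845c24142845c821e, 0x8282c4824282c4224242c822d,
    0x828885464882888bc48854828cc28288854688284888b488284ecb]]

noncomputable def n2612 : Ent := ⟨e2612, noF, [], [], []⟩

def c2612 : PLift (Cov.check n2612.C.D v2612 = true) := ⟨by decide +kernel⟩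

def b2612 : PLift (entF (fidx ts) 400 2612 n2612 = true) := ⟨by decide +kernel⟩

theorem g2612 : GoodF (fidx ts) 400 2612 := GoodF.ofV v2612 n2612 c2612.down b2612.down

/-- 4646744:2131/3 -/
noncomputable def e2613 : SCfg where
  D := {
    a := 7
    L := 8
    kp := 5
    inn := [(0, 1), (1, 0), (1, 2), (1, 3), (2, 1), (2, 3), (3, 1), (3, 2), (3, 4), (4, 3), (4, 5), (4,
      6), (5, 4), (6, 4)]
    mix := [(0, 0), (0, 1), (0, 2), (1, 0), (1, 2), (1, 3), (2, 2), (2, 4), (3, 3), (3, 4), (3, 5), (4,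
      1), (4, 4), (4, 5), (4, 6), (5, 5), (5, 6), (5, 7), (6, 1), (6, 2), (6, 4)]
    cl := [3, 0, 2, 1, 1, 0, 4, 5]
    chq := [(2, 3), (3, 2)]
    rng := [(0, 1), (0, 3), (1, 0), (1, 2), (1, 6), (2, 1), (2, 4), (3, 0), (3, 5), (4, 2), (5, 3), (5,
      7), (6, 1), (6, 7), (7, 5), (7, 6)]
    lev := [] }
  links := [[1, 7, 8, 9], [7, 0, 9, 2, 3, 10], [3, 1, 9, 11], [10, 1, 2, 11, 4, 12], [12, 3, 11, 6, 8,
    13, 5], [12, 4, 13, 14], [8, 4, 11, 9]]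
  P := {
    a := 7
    N := 15
    nb := [898, 1677, 2570, 7190, 14696, 28688, 2832, 1283, 8913, 2375, 4234, 604, 17464, 16688,
      12320]
    tri := [(0, 1, 7), (0, 1, 9), (0, 7, 8), (0, 8, 9), (1, 2, 3), (1, 2, 9), (1, 3, 10), (1, 7, 10),
      (2, 3, 11), (2, 9, 11), (3, 4, 11), (3, 4, 12), (3, 10, 12), (4, 5, 12), (4, 5, 13), (4, 6,
      8), (4, 6, 11), (4, 8, 13), (5, 12, 14), (5, 13, 14), (6, 8, 9), (6, 9, 11)]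
    fin := [0, 0, 0, 3, 4, 4, 4, 0, 4, 9, 3, 3, 4, 13, 14]
    chd := [(0, 9)]
    steps := [(0, 1), (0, 2), (0, 7), (3, 11), (3, 10), (4, 5), (4, 6), (4, 8), (4, 12)] }
  rep := [4, 3, 9, 0, 13, 14]

noncomputable def v2613 : Cov.CovD where
  P := 3
  N := 3
  pl := [6, 7]
  lev := [⟨[], [], [(0, 2), (0, 3), (2, 3)], [], [(0, 3, [2]), (1, 0, []), (2, 2, [3])]⟩,
    ⟨[], [(0, 0), (0, 1), (0, 2), (0, 3)], [(1, 2), (1, 3), (2, 3)], [], [(0, 3, [2]), (2,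
      2, [3]), (3, 1, [])]⟩,
    ⟨[(0, 1)], [(0, 2), (1, 1), (1, 2), (1, 3)], [(1, 2)], [], [(2, 2, [3]), (4, 1, [])]⟩,
    ⟨[(0, 1), (1, 2)], [(1, 0), (1, 1), (1, 2), (1, 3), (2, 0), (2, 1), (2, 2)], [(0, 1),
      (1, 1)], [], [(3, 1, []), (4, 1, []), (5, 0, [])]⟩,
    ⟨[(1, 3), (2, 3)], [(0, 0), (2, 1), (3, 0), (3, 1)], [(0, 0), (0, 1)], [4], [(1, 0,
      []), (4, 1, []), (5, 0, [])]⟩,
    ⟨[(3, 4)], [(3, 0), (4, 0), (4, 1)], [], [4, 5], [(5, 0, [])]⟩,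
    ⟨[(3, 4), (4, 5)], [(0, 0), (0, 2), (1, 2), (2, 1), (2, 2), (3, 1), (4, 0), (4, 1), (4,
      2)], [(0, 1), (0, 2), (1, 2)], [], [(1, 0, []), (2, 2, [3]), (4, 1, [])]⟩]
  Ta := [((1, 0), 0, 3), ((1, 2), 0, 2), ((1, 6), 0, 4), ((3, 0), 1, 3), ((3, 5), 1, 0), ((4, 2),
    1, 2), ((5, 3), 0, 1), ((5, 7), 0, 5)]
  Tb := [((0, 1, 3), 3, 0, 1), ((1, 0, 2), 0, 3, 2), ((1, 0, 6), 0, 3, 4), ((1, 2, 6), 0, 2, 4),
    ((2, 1, 4), 2, 0, 1), ((3, 0, 5), 1, 3, 0), ((5, 3, 7), 0, 1, 5), ((6, 1, 7), 4, 0, 5),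
    ((7, 5, 6), 5, 0, 4)]
  Tc := []
  Td := [((2, 3), (2, 1), 0), ((2, 3), (2, 4), 1), ((3, 2), (0, 1), 0), ((3, 2), (0, 3), 1)]
  G := [[0, 0, 0x4181a44841816884c, 0, 0x888781c42828c81a481a], [0, 0, 0x8181c484181c84c2,
    0x48a81c41841886c814c, 0x8181c488864818c192], [0, 0x48c446a41848a846c214c, 0, 0,
    0x216411a8c81226421a8c81a], [0, 0, 0, 0x886448a8c4846444a8c1c1, 0x84418a82cc112]]

noncomputable def n2613 : Ent := ⟨e2613, noF, [], [], []⟩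

def c2613 : PLift (Cov.check n2613.C.D v2613 = true) := ⟨by decide +kernel⟩

def b2613 : PLift (entF (fidx ts) 400 2613 n2613 = true) := ⟨by decide +kernel⟩

theorem g2613 : GoodF (fidx ts) 400 2613 := GoodF.ofV v2613 n2613 c2613.down b2613.down

/-- 4646744:2131/2 -/
noncomputable def e2614 : SCfg where
  D := {
    a := 7
    L := 9
    kp := 6
    inn := [(0, 1), (1, 0), (1, 2), (1, 3), (2, 1), (2, 3), (3, 1), (3, 2), (3, 4), (4, 3), (4, 5), (4,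
      6), (5, 4), (6, 4)]
    mix := [(0, 0), (0, 1), (0, 2), (1, 0), (1, 2), (1, 3), (2, 2), (2, 4), (3, 3), (3, 4), (3, 5), (4,
      1), (4, 4), (4, 5), (4, 6), (5, 5), (5, 6), (5, 7), (6, 1), (6, 4), (6, 8)]
    cl := [3, 0, 2, 1, 1, 0, 4, 5, 6]
    chq := [(2, 3), (3, 2)]
    rng := [(0, 1), (0, 3), (1, 0), (1, 2), (1, 6), (1, 8), (2, 1), (2, 4), (3, 0), (3, 5), (4, 2), (4,
      8), (5, 3), (5, 7), (6, 1), (6, 7), (7, 5), (7, 6), (8, 1), (8, 4)]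
    lev := [] }
  links := [[1, 7, 8, 9], [7, 0, 9, 2, 3, 10], [3, 1, 9, 11], [10, 1, 2, 11, 4, 12], [12, 3, 11, 6, 8,
    13, 5], [12, 4, 13, 14], [8, 4, 11, 15]]
  P := {
    a := 7
    N := 16
    nb := [898, 1677, 2570, 7190, 14696, 28688, 35088, 1283, 41681, 2311, 4234, 33372, 17464, 16688,
      12320, 2368]
    tri := [(0, 1, 7), (0, 1, 9), (0, 7, 8), (0, 8, 9), (1, 2, 3), (1, 2, 9), (1, 3, 10), (1, 7, 10),
      (2, 3, 11), (2, 9, 11), (3, 4, 11), (3, 4, 12), (3, 10, 12), (4, 5, 12), (4, 5, 13), (4, 6,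
      8), (4, 6, 11), (4, 8, 13), (5, 12, 14), (5, 13, 14), (6, 8, 15), (6, 11, 15)]
    fin := [0, 0, 0, 3, 4, 4, 4, 0, 4, 9, 3, 3, 4, 13, 14, 15]
    chd := [(0, 9)]
    steps := [(0, 1), (0, 2), (0, 7), (3, 11), (3, 10), (4, 5), (4, 6), (4, 8), (4, 12)] }
  rep := [4, 3, 9, 0, 13, 14, 15]

noncomputable def v2614 : Cov.CovD where
  P := 3
  N := 4
  pl := [6, 7, 8]
  lev := [⟨[], [], [(0, 2), (0, 3), (2, 3)], [], [(0, 3, [2]), (1, 0, []), (2, 2, [3])]⟩,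
    ⟨[], [(0, 0), (0, 1), (0, 2), (0, 3)], [(1, 2), (1, 3), (2, 3)], [], [(0, 3, [2]), (2,
      2, [3]), (3, 1, [])]⟩,
    ⟨[(0, 1)], [(0, 2), (1, 1), (1, 2), (1, 3)], [(1, 2)], [], [(2, 2, [3]), (4, 1, [])]⟩,
    ⟨[(0, 1), (1, 2)], [(1, 0), (1, 1), (1, 2), (1, 3), (2, 0), (2, 1), (2, 2)], [(0, 1),
      (1, 1)], [], [(3, 1, []), (4, 1, []), (5, 0, [])]⟩,
    ⟨[(1, 3), (2, 3)], [(0, 0), (2, 1), (3, 0), (3, 1)], [(0, 0), (0, 1)], [4], [(1, 0,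
      []), (4, 1, []), (5, 0, [])]⟩,
    ⟨[(3, 4)], [(3, 0), (4, 0), (4, 1)], [], [4, 5], [(5, 0, [])]⟩,
    ⟨[(3, 4), (4, 5)], [(0, 0), (2, 1), (3, 1), (4, 0), (4, 1)], [(0, 1)], [6], [(1, 0,
      []), (4, 1, [])]⟩]
  Ta := [((1, 0), 0, 3), ((1, 2), 0, 2), ((1, 6), 0, 4), ((1, 8), 0, 6), ((3, 0), 1, 3), ((3, 5),
    1, 0), ((4, 2), 1, 2), ((4, 8), 1, 6), ((5, 3), 0, 1), ((5, 7), 0, 5)]
  Tb := [((0, 1, 3), 3, 0, 1), ((1, 0, 2), 0, 3, 2), ((1, 0, 6), 0, 3, 4), ((1, 0, 8), 0, 3, 6),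
    ((1, 2, 6), 0, 2, 4), ((1, 2, 8), 0, 2, 6), ((1, 6, 8), 0, 4, 6), ((2, 1, 4), 2, 0, 1),
    ((3, 0, 5), 1, 3, 0), ((4, 2, 8), 1, 2, 6), ((5, 3, 7), 0, 1, 5), ((6, 1, 7), 4, 0, 5),
    ((7, 5, 6), 5, 0, 4), ((8, 1, 4), 6, 0, 1)]
  Tc := []
  Td := [((2, 3), (2, 1), 0), ((2, 3), (2, 4), 1), ((3, 2), (0, 1), 0), ((3, 2), (0, 3), 1)]
  G := [[0, 0, 0x21c1a44821c16884c, 0, 0x22a21c418229223c481a], [0, 0, 0xc14c18c82c14c18c42c,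
    0x4c3841c8cb4819c148848c8f8415c, 0xc14c18c148c4f4c18c192], [0, 0xa4c26688a466aac6c21c1,
    0, 0, 0x116422a8c81116411a8c21a], [0, 0, 0, 0x116411a8c11116411a8c41c, 0x116411a8c112]]

noncomputable def n2614 : Ent := ⟨e2614, noF, [], [], [(9, 15, [360035742630636841211993100915356868655746945586763691018375169, 0])]⟩

def c2614 : PLift (Cov.check n2614.C.D v2614 = true) := ⟨by decide +kernel⟩

def b2614 : PLift (entF (fidx ts) 400 2614 n2614 = true) := ⟨by decide +kernel⟩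

theorem g2614 : GoodF (fidx ts) 400 2614 := GoodF.ofV v2614 n2614 c2614.down b2614.down

/-- 4646744:2131/5 -/
noncomputable def e2615 : SCfg where
  D := {
    a := 7
    L := 8
    kp := 5
    inn := [(0, 1), (1, 0), (1, 2), (1, 3), (2, 1), (2, 3), (3, 1), (3, 2), (3, 4), (4, 3), (4, 5), (4,
      6), (5, 4), (6, 4)]
    mix := [(0, 0), (0, 1), (0, 2), (1, 0), (1, 2), (1, 3), (2, 2), (2, 4), (3, 3), (3, 4), (3, 5), (4,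
      4), (4, 5), (4, 6), (4, 7), (5, 1), (5, 5), (5, 7), (6, 2), (6, 4), (6, 6)]
    cl := [1, 2, 0, 0, 3, 4, 5, 3]
    chq := [(3, 4), (4, 3)]
    rng := [(0, 1), (0, 3), (1, 0), (1, 2), (1, 5), (1, 7), (2, 1), (2, 4), (2, 6), (3, 0), (3, 5), (4,
      2), (5, 1), (5, 3), (6, 2), (6, 7), (7, 1), (7, 6)]
    lev := [] }
  links := [[1, 7, 8, 9], [7, 0, 9, 2, 3, 10], [3, 1, 9, 11], [10, 1, 2, 11, 4, 12], [12, 3, 11, 6, 13,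
    14, 5], [12, 4, 14, 8], [13, 4, 11, 9]]
  P := {
    a := 7
    N := 15
    nb := [898, 1677, 2570, 7190, 30824, 20752, 10768, 1283, 21153, 10567, 4234, 604, 1336, 16976,
      8496]
    tri := [(0, 1, 7), (0, 1, 9), (0, 7, 8), (0, 8, 9), (1, 2, 3), (1, 2, 9), (1, 3, 10), (1, 7, 10),
      (2, 3, 11), (2, 9, 11), (3, 4, 11), (3, 4, 12), (3, 10, 12), (4, 5, 12), (4, 5, 14), (4, 6,
      11), (4, 6, 13), (4, 13, 14), (5, 8, 12), (5, 8, 14), (6, 9, 11), (6, 9, 13)]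
    fin := [0, 0, 2, 2, 4, 5, 2, 0, 5, 2, 2, 4, 12, 13, 4]
    chd := [(4, 12)]
    steps := [(0, 1), (0, 7), (2, 3), (2, 9), (2, 10), (4, 11), (2, 6), (4, 14), (5, 8)] }
  rep := [2, 0, 5, 4, 12, 13]

noncomputable def v2615 : Cov.CovD where
  P := 3
  N := 3
  pl := [0, 1, 6]
  lev := [⟨[], [], [], [1, 2], [(2, 0, [])]⟩,
    ⟨[], [(0, 0)], [(0, 0)], [1], [(2, 0, []), (3, 0, [])]⟩,
    ⟨[(0, 1)], [(0, 0), (1, 0), (1, 3)], [(0, 3)], [], [(2, 0, []), (4, 3, [4])]⟩,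
    ⟨[(0, 1), (1, 2)], [(1, 0), (1, 3), (1, 4), (2, 0), (2, 3), (2, 4)], [(0, 3), (0, 4),
      (3, 4)], [], [(3, 0, []), (4, 3, [4]), (5, 4, [3])]⟩,
    ⟨[(1, 3), (2, 3)], [(2, 3), (3, 0), (3, 3), (3, 4)], [(3, 3), (3, 4)], [5], [(4, 3,
      [4]), (5, 4, [3]), (7, 3, [4])]⟩,
    ⟨[(3, 4)], [(3, 4), (4, 3), (4, 4)], [(3, 4)], [2], [(5, 4, [3]), (7, 3, [4])]⟩,
    ⟨[(3, 4), (4, 5)], [(0, 0), (1, 0), (2, 0), (2, 3), (3, 3), (4, 0), (4, 3), (4, 4)],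
      [(0, 3)], [5], [(2, 0, []), (4, 3, [4])]⟩]
  Ta := [((2, 1), 0, 2), ((2, 4), 0, 3), ((2, 6), 0, 5), ((3, 0), 0, 1), ((3, 5), 0, 4), ((4, 2),
    3, 0), ((7, 1), 3, 2), ((7, 6), 3, 5)]
  Tb := [((0, 1, 3), 1, 2, 0), ((1, 0, 2), 2, 1, 0), ((1, 0, 5), 2, 1, 4), ((1, 0, 7), 2, 1, 3),
    ((1, 2, 5), 2, 0, 4), ((1, 2, 7), 2, 0, 3), ((1, 5, 7), 2, 4, 3), ((2, 1, 4), 0, 2, 3),
    ((2, 1, 6), 0, 2, 5), ((2, 4, 6), 0, 3, 5), ((3, 0, 5), 0, 1, 4), ((5, 1, 3), 4, 2, 0),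
    ((6, 2, 7), 5, 0, 3), ((7, 1, 6), 3, 2, 5)]
  Tc := []
  Td := [((3, 4), (4, 2), 0), ((3, 4), (7, 1), 2), ((3, 4), (7, 6), 5), ((4, 3), (5, 1), 2), ((4,
    3), (5, 3), 0)]
  G := [[0, 0, 0xe4144e818e212ac8, 0x81c1a281c152123688, 0x21a13814154121674614121c8f84c8], [0,
    0, 0xc81c41a21e284, 0x4112123844, 0xc11814121e32118a48], [0, 0xa11611e11e128, 0,
    0x2822828448e1de148, 0x42c258228e1b42615e481], [0, 0xa11c116188, 0, 0x1442c618c19a244,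
    0x11a12a17421861928c8]]

noncomputable def n2615 : Ent := ⟨e2615, noF, [], [], []⟩

def c2615 : PLift (Cov.check n2615.C.D v2615 = true) := ⟨by decide +kernel⟩

def b2615 : PLift (entF (fidx ts) 400 2615 n2615 = true) := ⟨by decide +kernel⟩

theorem g2615 : GoodF (fidx ts) 400 2615 := GoodF.ofV v2615 n2615 c2615.down b2615.down

/-- 4646744:2131/4 -/
noncomputable def e2616 : SCfg where
  D := {
    a := 7
    L := 9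
    kp := 6
    inn := [(0, 1), (1, 0), (1, 2), (1, 3), (2, 1), (2, 3), (3, 1), (3, 2), (3, 4), (4, 3), (4, 5), (4,
      6), (5, 4), (6, 4)]
    mix := [(0, 0), (0, 1), (0, 2), (1, 0), (1, 2), (1, 3), (2, 2), (2, 4), (3, 3), (3, 4), (3, 5), (4,
      4), (4, 5), (4, 6), (4, 7), (5, 1), (5, 5), (5, 7), (6, 4), (6, 6), (6, 8)]
    cl := [4, 2, 1, 0, 0, 3, 3, 5, 6]
    chq := [(1, 4), (4, 1)]
    rng := [(0, 1), (0, 3), (1, 0), (1, 2), (1, 5), (1, 7), (2, 1), (2, 4), (3, 0), (3, 5), (4, 2), (4,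
      8), (5, 1), (5, 3), (6, 7), (6, 8), (7, 1), (7, 6), (8, 4), (8, 6)]
    lev := [] }
  links := [[1, 7, 8, 9], [7, 0, 9, 2, 3, 10], [3, 1, 9, 11], [10, 1, 2, 11, 4, 12], [12, 3, 11, 6, 13,
    14, 5], [12, 4, 14, 8], [13, 4, 11, 15]]
  P := {
    a := 7
    N := 16
    nb := [898, 1677, 2570, 7190, 30824, 20752, 43024, 1283, 21153, 2311, 4234, 33372, 1336, 49232,
      8496, 10304]
    tri := [(0, 1, 7), (0, 1, 9), (0, 7, 8), (0, 8, 9), (1, 2, 3), (1, 2, 9), (1, 3, 10), (1, 7, 10),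
      (2, 3, 11), (2, 9, 11), (3, 4, 11), (3, 4, 12), (3, 10, 12), (4, 5, 12), (4, 5, 14), (4, 6,
      11), (4, 6, 13), (4, 13, 14), (5, 8, 12), (5, 8, 14), (6, 11, 15), (6, 13, 15)]
    fin := [0, 0, 0, 3, 4, 5, 3, 0, 5, 9, 3, 3, 4, 4, 14, 15]
    chd := [(0, 9)]
    steps := [(0, 1), (0, 2), (0, 7), (3, 11), (3, 6), (3, 10), (4, 13), (4, 12), (5, 8)] }
  rep := [3, 9, 5, 4, 0, 14, 15]

noncomputable def v2616 : Cov.CovD where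
  P := 3
  N := 4
  pl := [1, 7, 8]
  lev := [⟨[], [], [(1, 4)], [2], [(0, 4, [1]), (2, 1, [4])]⟩,
    ⟨[], [(0, 0), (0, 1), (0, 4)], [(0, 1), (0, 4), (1, 4)], [], [(0, 4, [1]), (2, 1, [4]),
      (3, 0, [])]⟩,
    ⟨[(0, 1)], [(0, 1), (1, 0), (1, 1), (1, 4)], [(0, 1)], [], [(2, 1, [4]), (4, 0, [])]⟩,
    ⟨[(0, 1), (1, 2)], [(1, 0), (1, 1), (1, 3), (1, 4), (2, 0), (2, 1), (2, 3)], [(0, 0),
      (0, 3)], [], [(3, 0, []), (4, 0, []), (5, 3, [])]⟩,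
    ⟨[(1, 3), (2, 3)], [(2, 0), (3, 0), (3, 3)], [(0, 3), (3, 3)], [5], [(4, 0, []), (5, 3,
      []), (6, 3, [])]⟩,
    ⟨[(3, 4)], [(3, 3), (4, 0), (4, 3)], [], [2, 5], [(5, 3, [])]⟩,
    ⟨[(3, 4), (4, 5)], [(2, 0), (3, 0), (4, 0), (4, 3)], [(0, 3)], [6], [(4, 0, []), (6, 3,
      [])]⟩]
  Ta := [((3, 0), 0, 4), ((3, 5), 0, 3), ((4, 2), 0, 1), ((4, 8), 0, 6), ((5, 1), 3, 2), ((5, 3),
    3, 0), ((6, 7), 3, 5), ((6, 8), 3, 6)]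
  Tb := [((0, 1, 3), 4, 2, 0), ((1, 0, 2), 2, 4, 1), ((1, 0, 5), 2, 4, 3), ((1, 0, 7), 2, 4, 5),
    ((1, 2, 5), 2, 1, 3), ((1, 2, 7), 2, 1, 5), ((1, 5, 7), 2, 3, 5), ((2, 1, 4), 1, 2, 0),
    ((3, 0, 5), 0, 4, 3), ((4, 2, 8), 0, 1, 6), ((5, 1, 3), 3, 2, 0), ((6, 7, 8), 3, 5, 6),
    ((7, 1, 6), 5, 2, 3), ((8, 4, 6), 6, 0, 3)]
  Tc := []
  Td := [((1, 4), (2, 1), 2), ((1, 4), (2, 4), 0), ((4, 1), (0, 1), 2), ((4, 1), (0, 3), 0)]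
  G := [[0, 0, 0x282494884c2d648244268784825a84c, 0x68a411e248cc1d2284c,
    0x28a1c2e4841a618214262882a4881ce149], [0, 0, 0x1814e2d248181411ce284c,
    0x11c224811c2284c, 0x119e85248124e81a449], [0, 0xc1222821c4884c6682444884c1ea2188a4c,
    0x244262882a4884ce41244262882a4884ce41c, 0x48cd224488c5a28c1,
    0x28ab448214262882a4881ce8c1], [0, 0xa482616e568a22161e65e818a24c,
    0xc268aaa44acc6422468c168a68a8468c6c2a468c1c, 0xee52841ee528449, 0xee9424612c1ec9ca4c1]]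

noncomputable def n2616 : Ent := ⟨e2616, noF, [], [], [(9, 15, [360035742630636841211993100915356868655746945586763691018383361, 0])]⟩

def c2616 : PLift (Cov.check n2616.C.D v2616 = true) := ⟨by decide +kernel⟩

def b2616 : PLift (entF (fidx ts) 400 2616 n2616 = true) := ⟨by decide +kernel⟩

theorem g2616 : GoodF (fidx ts) 400 2616 := GoodF.ofV v2616 n2616 c2616.down b2616.down

/-- 4646744:2131/6 -/
noncomputable def e2617 : SCfg where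
  D := {
    a := 7
    L := 9
    kp := 6
    inn := [(0, 1), (1, 0), (1, 2), (1, 3), (2, 1), (2, 3), (3, 1), (3, 2), (3, 4), (4, 3), (4, 5), (4,
      6), (5, 4), (6, 4)]
    mix := [(0, 0), (0, 1), (0, 2), (1, 0), (1, 2), (1, 3), (2, 2), (2, 4), (3, 3), (3, 4), (3, 5), (4,
      4), (4, 5), (4, 6), (4, 7), (5, 5), (5, 7), (5, 8), (6, 2), (6, 4), (6, 6)]
    cl := [2, 5, 0, 0, 3, 1, 4, 3, 6]
    chq := [(1, 3), (3, 1)]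
    rng := [(0, 1), (0, 3), (1, 0), (1, 2), (2, 1), (2, 4), (2, 6), (3, 0), (3, 5), (4, 2), (5, 3), (5,
      8), (6, 2), (6, 7), (7, 6), (7, 8), (8, 5), (8, 7)]
    lev := [] }
  links := [[1, 7, 8, 9], [7, 0, 9, 2, 3, 10], [3, 1, 9, 11], [10, 1, 2, 11, 4, 12], [12, 3, 11, 6, 13,
    14, 5], [12, 4, 14, 15], [13, 4, 11, 9]]
  P := {
    a := 7
    N := 16
    nb := [898, 1677, 2570, 7190, 30824, 53264, 10768, 1283, 641, 10567, 4234, 604, 33848, 16976,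
      41008, 20512]
    tri := [(0, 1, 7), (0, 1, 9), (0, 7, 8), (0, 8, 9), (1, 2, 3), (1, 2, 9), (1, 3, 10), (1, 7, 10),
      (2, 3, 11), (2, 9, 11), (3, 4, 11), (3, 4, 12), (3, 10, 12), (4, 5, 12), (4, 5, 14), (4, 6,
      11), (4, 6, 13), (4, 13, 14), (5, 12, 15), (5, 14, 15), (6, 9, 11), (6, 9, 13)]
    fin := [0, 0, 2, 2, 4, 4, 2, 0, 8, 2, 2, 4, 12, 13, 4, 15]
    chd := [(4, 12)]
    steps := [(0, 1), (0, 7), (2, 3), (2, 9), (2, 10), (4, 5), (4, 11), (2, 6), (4, 14)] }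
  rep := [2, 12, 0, 4, 13, 8, 15]

noncomputable def v2617 : Cov.CovD where
  P := 3
  N := 4
  pl := [0, 1, 6, 8]
  lev := [⟨[], [], [], [2, 5], [(2, 0, [])]⟩,
    ⟨[], [(0, 0)], [(0, 0)], [2], [(2, 0, []), (3, 0, [])]⟩,
    ⟨[(0, 1)], [(0, 0), (1, 0), (1, 3)], [(0, 3)], [], [(2, 0, []), (4, 3, [1])]⟩,
    ⟨[(0, 1), (1, 2)], [(1, 0), (1, 1), (1, 3), (2, 0), (2, 1), (2, 3)], [(0, 1), (0, 3),
      (1, 3)], [], [(3, 0, []), (4, 3, [1]), (5, 1, [3])]⟩,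
    ⟨[(1, 3), (2, 3)], [(2, 3), (3, 0), (3, 1), (3, 3)], [(1, 3), (3, 3)], [4], [(4, 3,
      [1]), (5, 1, [3]), (7, 3, [1])]⟩,
    ⟨[(3, 4)], [(3, 1), (4, 1), (4, 3)], [(1, 3)], [6], [(5, 1, [3]), (7, 3, [1])]⟩,
    ⟨[(3, 4), (4, 5)], [(0, 0), (1, 0), (2, 0), (2, 3), (3, 3), (4, 0), (4, 1), (4, 3)],
      [(0, 3)], [4], [(2, 0, []), (4, 3, [1])]⟩]
  Ta := [((2, 1), 0, 5), ((2, 4), 0, 3), ((2, 6), 0, 4), ((3, 0), 0, 2), ((3, 5), 0, 1), ((4, 2),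
    3, 0), ((7, 6), 3, 4), ((7, 8), 3, 6)]
  Tb := [((0, 1, 3), 2, 5, 0), ((1, 0, 2), 5, 2, 0), ((2, 1, 4), 0, 5, 3), ((2, 1, 6), 0, 5, 4),
    ((2, 4, 6), 0, 3, 4), ((3, 0, 5), 0, 2, 1), ((5, 3, 8), 1, 0, 6), ((6, 2, 7), 4, 0, 3),
    ((7, 6, 8), 3, 4, 6), ((8, 5, 7), 6, 1, 3)]
  Tc := []
  Td := [((1, 3), (5, 3), 0), ((1, 3), (5, 8), 6), ((3, 1), (4, 2), 0), ((3, 1), (7, 6), 4), ((3,
    1), (7, 8), 6)]
  G := [[0, 0, 0, 0x812898448c522124588c8121c8485241281484da8c,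
    0x8122968d8485224188a216894412458428c968a], [0, 0, 0,
    0x2cad1449845c528c8128922598454d28c, 0x289245c1a82d1468a22d1289885c942a], [0,
    0x424828c2422828448cea41, 0xa41681c12a41681c126, 0xe41e81c281, 0xe41e81c281], [0,
    0x42c24a628c24a48a8e846428224e41, 0xc66d1814aaad14186, 0xe6ad14281, 0xa6ed18421]]

noncomputable def n2617 : Ent := ⟨e2617, noF, [], [], [(8, 13, [385753028440516072301428330182238677962518295842732840417710081, 0]), (8, 15, [360035742630636841211993100915356868655746945586763691018383361, 0])]⟩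

def c2617 : PLift (Cov.check n2617.C.D v2617 = true) := ⟨by decide +kernel⟩

def b2617 : PLift (entF (fidx ts) 400 2617 n2617 = true) := ⟨by decide +kernel⟩

theorem g2617 : GoodF (fidx ts) 400 2617 := GoodF.ofV v2617 n2617 c2617.down b2617.down

/-- 4646744:2131 -/
noncomputable def e2618 : SCfg where
  D := {
    a := 7
    L := 10
    kp := 7
    inn := [(0, 1), (1, 0), (1, 2), (1, 3), (2, 1), (2, 3), (3, 1), (3, 2), (3, 4), (4, 3), (4, 5), (4,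
      6), (5, 4), (6, 4)]
    mix := [(0, 0), (0, 1), (0, 2), (1, 0), (1, 2), (1, 3), (2, 2), (2, 4), (3, 3), (3, 4), (3, 5), (4,
      4), (4, 5), (4, 6), (4, 7), (5, 5), (5, 7), (5, 8), (6, 4), (6, 6), (6, 9)]
    cl := [3, 5, 2, 0, 0, 1, 1, 4, 6, 7]
    chq := [(2, 3), (3, 2)]
    rng := [(0, 1), (0, 3), (1, 0), (1, 2), (2, 1), (2, 4), (3, 0), (3, 5), (4, 2), (4, 9), (5, 3), (5,
      8), (6, 7), (6, 9), (7, 6), (7, 8), (8, 5), (8, 7), (9, 4), (9, 6)]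
    lev := [] }
  links := [[1, 7, 8, 9], [7, 0, 9, 2, 3, 10], [3, 1, 9, 11], [10, 1, 2, 11, 4, 12], [12, 3, 11, 6, 13,
    14, 5], [12, 4, 14, 15], [13, 4, 11, 16]]
  P := {
    a := 7
    N := 17
    nb := [898, 1677, 2570, 7190, 30824, 53264, 75792, 1283, 641, 2311, 4234, 66140, 33848, 82000,
      41008, 20512, 10304]
    tri := [(0, 1, 7), (0, 1, 9), (0, 7, 8), (0, 8, 9), (1, 2, 3), (1, 2, 9), (1, 3, 10), (1, 7, 10),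
      (2, 3, 11), (2, 9, 11), (3, 4, 11), (3, 4, 12), (3, 10, 12), (4, 5, 12), (4, 5, 14), (4, 6,
      11), (4, 6, 13), (4, 13, 14), (5, 12, 15), (5, 14, 15), (6, 11, 16), (6, 13, 16)]
    fin := [0, 0, 0, 3, 4, 4, 3, 0, 8, 9, 3, 3, 4, 4, 14, 15, 16]
    chd := [(0, 9)]
    steps := [(0, 1), (0, 2), (0, 7), (3, 11), (3, 6), (3, 10), (4, 5), (4, 13), (4, 12)] }
  rep := [3, 4, 9, 0, 14, 8, 15, 16]

noncomputable def v2618 : Cov.CovD where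
  P := 3
  N := 5
  pl := [1, 7, 8, 9]
  lev := [⟨[], [], [(2, 3)], [5], [(0, 3, [2]), (2, 2, [3])]⟩,
    ⟨[], [(0, 0), (0, 2), (0, 3)], [(0, 2), (0, 3), (2, 3)], [], [(0, 3, [2]), (2, 2, [3]),
      (3, 0, [])]⟩,
    ⟨[(0, 1)], [(0, 2), (1, 0), (1, 2), (1, 3)], [(0, 2)], [], [(2, 2, [3]), (4, 0, [])]⟩,
    ⟨[(0, 1), (1, 2)], [(1, 0), (1, 1), (1, 2), (1, 3), (2, 0), (2, 1), (2, 2)], [(0, 0),
      (0, 1)], [], [(3, 0, []), (4, 0, []), (5, 1, [])]⟩,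
    ⟨[(1, 3), (2, 3)], [(2, 0), (3, 0), (3, 1)], [(0, 1), (1, 1)], [4], [(4, 0, []), (5, 1,
      []), (6, 1, [])]⟩,
    ⟨[(3, 4)], [(3, 1), (4, 0), (4, 1)], [], [4, 6], [(5, 1, [])]⟩,
    ⟨[(3, 4), (4, 5)], [(2, 0), (3, 0), (4, 0), (4, 1)], [(0, 1)], [7], [(4, 0, []), (6, 1,
      [])]⟩]
  Ta := [((3, 0), 0, 3), ((3, 5), 0, 1), ((4, 2), 0, 2), ((4, 9), 0, 7), ((5, 3), 1, 0), ((5, 8),
    1, 6), ((6, 7), 1, 4), ((6, 9), 1, 7)]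
  Tb := [((0, 1, 3), 3, 5, 0), ((1, 0, 2), 5, 3, 2), ((2, 1, 4), 2, 5, 0), ((3, 0, 5), 0, 3, 1),
    ((4, 2, 9), 0, 2, 7), ((5, 3, 8), 1, 0, 6), ((6, 7, 9), 1, 4, 7), ((7, 6, 8), 4, 1, 6),
    ((8, 5, 7), 6, 1, 4), ((9, 4, 6), 7, 0, 1)]
  Tc := []
  Td := [((2, 3), (2, 1), 5), ((2, 3), (2, 4), 0), ((3, 2), (0, 1), 5), ((3, 2), (0, 3), 0)]
  G := [[0, 0x66aac6c248a4c26688a1466aa66c21cac6ca684cd, 0,
    0x2414222d21c458111d285821889412542298c422542198c8cd,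
    0x122d2124d42822542298c12121d1124d4811542298c2ab], [0, 0, 0,
    0x128115464811cc2588411912c48128115468cd, 0x12111bc42811912c4821241198c211cc2588ab], [0,
    0, 0x22921c422448424482e28842225482188a28842e22542298c82e,
    0x22542298c8122542298c8122542298c422542298c8cd,
    0x22542298c8122542298c8224422921cc222542298c2ab], [0, 0,
    0xccc782c424248842484e82842c244c984ca882842ecccb4c28c82e,
    0xc2848cd464424849846448cb82cc81484cf4c28c4828442484cfc8ccd,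
    0x84c744ca8c218c6448cb8c8148cb88ac44248a84c744ca8c8ab]]

noncomputable def n2618 : Ent := ⟨e2618, noF, [], [], [(8, 16, [1580044410770988437309982408355971841652082177953823432505699811329, 0]), (8, 13, [1685382419725355503238989871268909155780284044704628512909410131969, 0]), (8, 15, [1685356702439545624007900436039642273970977273354372543760010805249, 0]), (9, 16, [1580044410770988437309982408355971841652082177953823432505699831809, 0])]⟩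

def c2618 : PLift (Cov.check n2618.C.D v2618 = true) := ⟨by decide +kernel⟩

def b2618 : PLift (entF (fidx ts) 400 2618 n2618 = true) := ⟨by decide +kernel⟩

theorem g2618 : GoodF (fidx ts) 400 2618 := GoodF.ofV v2618 n2618 c2618.down b2618.down

/-- 4646844:2133/1 -/
noncomputable def e2619 : SCfg where
  D := {
    a := 7
    L := 10
    kp := 7
    inn := [(0, 1), (1, 0), (1, 2), (1, 3), (2, 1), (2, 3), (3, 1), (3, 2), (3, 4), (4, 3), (4, 5), (4,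
      6), (5, 4), (6, 4)]
    mix := [(0, 0), (0, 1), (0, 2), (1, 0), (1, 2), (1, 3), (2, 2), (2, 4), (3, 3), (3, 4), (3, 5), (4,
      4), (4, 5), (4, 6), (4, 7), (4, 8), (5, 1), (5, 4), (5, 6), (6, 5), (6, 8), (6, 9)]
    cl := [2, 4, 3, 1, 0, 0, 5, 0, 6, 7]
    chq := [(1, 3), (1, 4), (3, 1), (4, 1)]
    rng := [(0, 1), (0, 3), (1, 0), (1, 2), (1, 4), (1, 6), (2, 1), (2, 4), (3, 0), (3, 5), (4, 1), (4,
      2), (5, 3), (5, 9), (6, 1), (6, 7), (7, 6), (7, 8), (8, 7), (8, 9), (9, 5), (9, 8)]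
    lev := [] }
  links := [[1, 7, 8, 9], [7, 0, 9, 2, 3, 10], [3, 1, 9, 11], [10, 1, 2, 11, 4, 12], [12, 3, 11, 5, 13,
    14, 15, 6], [13, 4, 11, 8], [12, 4, 15, 16]]
  P := {
    a := 7
    N := 17
    nb := [898, 1677, 2570, 7190, 63592, 10512, 102416, 1283, 10913, 2311, 4234, 828, 66648, 16688,
      40976, 82000, 36928]
    tri := [(0, 1, 7), (0, 1, 9), (0, 7, 8), (0, 8, 9), (1, 2, 3), (1, 2, 9), (1, 3, 10), (1, 7, 10),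
      (2, 3, 11), (2, 9, 11), (3, 4, 11), (3, 4, 12), (3, 10, 12), (4, 5, 11), (4, 5, 13), (4, 6,
      12), (4, 6, 15), (4, 13, 14), (4, 14, 15), (5, 8, 11), (5, 8, 13), (6, 12, 16), (6, 15, 16)]
    fin := [0, 0, 2, 2, 4, 0, 4, 7, 0, 2, 10, 4, 4, 13, 4, 15, 16]
    chd := [(0, 10), (2, 10)]
    steps := [(0, 1), (0, 8), (0, 5), (2, 3), (2, 9), (4, 6), (4, 11), (4, 14), (4, 12)] }
  rep := [4, 10, 7, 2, 0, 13, 15, 16]

noncomputable def v2619 : Cov.CovD where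
  P := 3
  N := 5
  pl := [0, 6, 8, 9]
  lev := [⟨[], [], [(3, 4)], [2], [(1, 4, [1]), (2, 3, [1])]⟩,
    ⟨[], [(0, 1), (0, 3), (0, 4)], [(1, 3)], [2], [(2, 3, [1]), (3, 1, [3, 4])]⟩,
    ⟨[(0, 1)], [(0, 3), (1, 0), (1, 1), (1, 3)], [(0, 3)], [], [(2, 3, [1]), (4, 0, [])]⟩,
    ⟨[(0, 1), (1, 2)], [(1, 0), (1, 1), (1, 3), (2, 0), (2, 1), (2, 3)], [(0, 0), (0, 1)],
      [], [(3, 1, [3, 4]), (4, 0, []), (5, 0, [])]⟩,
    ⟨[(1, 3), (2, 3)], [(2, 0), (3, 0), (3, 1)], [(0, 0)], [5, 6], [(4, 0, []), (5, 0, []),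
      (7, 0, [])]⟩,
    ⟨[(3, 4)], [(0, 4), (2, 0), (3, 0), (4, 0), (4, 4)], [(0, 4)], [5], [(1, 4, [1]), (4,
      0, [])]⟩,
    ⟨[(3, 4), (4, 5)], [(3, 0), (4, 0)], [], [6, 7], [(5, 0, [])]⟩]
  Ta := [((4, 1), 0, 4), ((4, 2), 0, 3), ((5, 3), 0, 1), ((5, 9), 0, 7), ((7, 6), 0, 5), ((7, 8),
    0, 6)]
  Tb := [((0, 1, 3), 2, 4, 1), ((1, 0, 2), 4, 2, 3), ((1, 0, 4), 4, 2, 0), ((1, 0, 6), 4, 2, 5),
    ((1, 2, 4), 4, 3, 0), ((1, 2, 6), 4, 3, 5), ((1, 4, 6), 4, 0, 5), ((2, 1, 4), 3, 4, 0),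
    ((3, 0, 5), 1, 2, 0), ((4, 1, 2), 0, 4, 3), ((5, 3, 9), 0, 1, 7), ((6, 1, 7), 5, 4, 0),
    ((7, 6, 8), 0, 5, 6), ((8, 7, 9), 6, 0, 7), ((9, 5, 8), 7, 0, 6)]
  Tc := [(1, 3, 4)]
  Td := [((1, 3), (3, 0), 2), ((1, 3), (3, 5), 0), ((1, 4), (3, 0), 2), ((1, 4), (3, 5), 0), ((3,
    1), (2, 1), 4), ((3, 1), (2, 4), 0), ((4, 1), (1, 0), 2), ((4, 1), (1, 2), 3), ((4, 1),
    (1, 4), 0), ((4, 1), (1, 6), 5)]
  G := [[0, 0, 0x111e84111e111e68a116111e111ee818846c2,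
    0x1811a12e4281161412e82412111e12e11c8c21d, 0x111e111ea4111e48a111e4111e111eac492], [0,
    0xe12e1e1c68e1e16e18a4c1, 0xe1e1a4e148ae1e168e1846c2, 0xe14e1e1ac211, 0xe1e16e18c211],
    [0, 0, 0x159193135e481131e51e9e84c2, 0x7116312e8211, 0x113163b1e8211]]

noncomputable def n2619 : Ent := ⟨e2619, noF, [], [], []⟩

def c2619 : PLift (Cov.check n2619.C.D v2619 = true) := ⟨by decide +kernel⟩

def b2619 : PLift (entF (fidx ts) 400 2619 n2619 = true) := ⟨by decide +kernel⟩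

theorem g2619 : GoodF (fidx ts) 400 2619 := GoodF.ofV v2619 n2619 c2619.down b2619.down

/-- 4646844:2133/3 -/
noncomputable def e2620 : SCfg where
  D := {
    a := 7
    L := 9
    kp := 6
    inn := [(0, 1), (1, 0), (1, 2), (1, 3), (2, 1), (2, 3), (3, 1), (3, 2), (3, 4), (4, 3), (4, 5), (4,
      6), (5, 4), (6, 4)]
    mix := [(0, 0), (0, 1), (0, 2), (1, 0), (1, 2), (1, 3), (2, 2), (2, 4), (3, 3), (3, 4), (3, 5), (4,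
      1), (4, 4), (4, 5), (4, 6), (4, 7), (5, 1), (5, 2), (5, 4), (6, 5), (6, 7), (6, 8)]
    cl := [4, 2, 1, 3, 0, 0, 0, 5, 6]
    chq := [(1, 3), (2, 3), (3, 1), (3, 2)]
    rng := [(0, 1), (0, 3), (1, 0), (1, 2), (1, 6), (2, 1), (2, 4), (3, 0), (3, 5), (4, 2), (5, 3), (5,
      8), (6, 1), (6, 7), (7, 6), (7, 8), (8, 5), (8, 7)]
    lev := [] }
  links := [[1, 7, 8, 9], [7, 0, 9, 2, 3, 10], [3, 1, 9, 11], [10, 1, 2, 11, 4, 12], [12, 3, 11, 5, 8,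
    13, 14, 6], [8, 4, 11, 9], [12, 4, 14, 15]]
  P := {
    a := 7
    N := 16
    nb := [898, 1677, 2570, 7190, 31080, 2832, 53264, 1283, 8881, 2343, 4234, 572, 33880, 16656,
      41040, 20544]
    tri := [(0, 1, 7), (0, 1, 9), (0, 7, 8), (0, 8, 9), (1, 2, 3), (1, 2, 9), (1, 3, 10), (1, 7, 10),
      (2, 3, 11), (2, 9, 11), (3, 4, 11), (3, 4, 12), (3, 10, 12), (4, 5, 8), (4, 5, 11), (4, 6,
      12), (4, 6, 14), (4, 8, 13), (4, 13, 14), (5, 8, 9), (5, 9, 11), (6, 12, 15), (6, 14, 15)]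
    fin := [0, 0, 2, 2, 4, 0, 4, 7, 0, 2, 10, 4, 4, 4, 14, 15]
    chd := [(0, 10), (2, 10)]
    steps := [(0, 1), (0, 8), (0, 5), (2, 3), (2, 9), (4, 6), (4, 11), (4, 13), (4, 12)] }
  rep := [4, 2, 0, 10, 7, 14, 15]

noncomputable def v2620 : Cov.CovD where
  P := 3
  N := 4
  pl := [0, 7, 8]
  lev := [⟨[], [], [(1, 2)], [4], [(1, 2, [3]), (2, 1, [3])]⟩,
    ⟨[], [(0, 1), (0, 2), (0, 3)], [(1, 3)], [4], [(2, 1, [3]), (3, 3, [1, 2])]⟩,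
    ⟨[(0, 1)], [(0, 1), (1, 0), (1, 1), (1, 3)], [(0, 1)], [], [(2, 1, [3]), (4, 0, [])]⟩,
    ⟨[(0, 1), (1, 2)], [(1, 0), (1, 1), (1, 3), (2, 0), (2, 1), (2, 3)], [(0, 0), (0, 3)],
      [], [(3, 3, [1, 2]), (4, 0, []), (5, 0, [])]⟩,
    ⟨[(1, 3), (2, 3)], [(0, 2), (2, 0), (3, 0), (3, 2), (3, 3)], [(0, 0), (0, 2)], [5],
      [(1, 2, [3]), (4, 0, []), (5, 0, []), (6, 0, [])]⟩,
    ⟨[(3, 4)], [(0, 1), (0, 2), (1, 1), (2, 0), (2, 1), (3, 0), (4, 0), (4, 1), (4, 2)],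
      [(0, 1), (0, 2), (1, 2)], [], [(1, 2, [3]), (2, 1, [3]), (4, 0, [])]⟩,
    ⟨[(3, 4), (4, 5)], [(3, 0), (4, 0), (4, 2)], [], [5, 6], [(5, 0, [])]⟩]
  Ta := [((4, 2), 0, 1), ((5, 3), 0, 3), ((5, 8), 0, 6), ((6, 1), 0, 2), ((6, 7), 0, 5)]
  Tb := [((0, 1, 3), 4, 2, 3), ((1, 0, 2), 2, 4, 1), ((1, 0, 6), 2, 4, 0), ((1, 2, 6), 2, 1, 0),
    ((2, 1, 4), 1, 2, 0), ((3, 0, 5), 3, 4, 0), ((5, 3, 8), 0, 3, 6), ((6, 1, 7), 0, 2, 5),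
    ((7, 6, 8), 5, 0, 6), ((8, 5, 7), 6, 0, 5)]
  Tc := [(3, 1, 2)]
  Td := [((1, 3), (2, 1), 2), ((1, 3), (2, 4), 0), ((2, 3), (1, 0), 4), ((2, 3), (1, 2), 1), ((2,
    3), (1, 6), 0), ((3, 1), (3, 0), 4), ((3, 1), (3, 5), 0), ((3, 2), (3, 0), 4), ((3, 2),
    (3, 5), 0)]
  G := [[0, 0x1414c241414c24a1814c281414c846c, 0, 0x1818c281414c28c1818c2415,
    0x1821818c6841818a4819], [0, 0, 0, 0xa161c248a468c214a168c281d,
    0xc18468245282c148a68c612c1868c168a4859], [0, 0, 0x1818c2811818c241c,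
    0x9458c21a411c28c14245c2815, 0x182c111aa841161a4819]]

noncomputable def n2620 : Ent := ⟨e2620, noF, [], [], []⟩

def c2620 : PLift (Cov.check n2620.C.D v2620 = true) := ⟨by decide +kernel⟩

def b2620 : PLift (entF (fidx ts) 400 2620 n2620 = true) := ⟨by decide +kernel⟩

theorem g2620 : GoodF (fidx ts) 400 2620 := GoodF.ofV v2620 n2620 c2620.down b2620.down

/-- 4646844:2133/2 -/
noncomputable def e2621 : SCfg where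
  D := {
    a := 7
    L := 10
    kp := 7
    inn := [(0, 1), (1, 0), (1, 2), (1, 3), (2, 1), (2, 3), (3, 1), (3, 2), (3, 4), (4, 3), (4, 5), (4,
      6), (5, 4), (6, 4)]
    mix := [(0, 0), (0, 1), (0, 2), (1, 0), (1, 2), (1, 3), (2, 2), (2, 4), (3, 3), (3, 4), (3, 5), (4,
      1), (4, 4), (4, 5), (4, 6), (4, 7), (5, 1), (5, 4), (5, 8), (6, 5), (6, 7), (6, 9)]
    cl := [4, 1, 3, 2, 0, 0, 0, 5, 6, 7]
    chq := [(1, 2), (2, 1), (2, 3), (3, 2)]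
    rng := [(0, 1), (0, 3), (1, 0), (1, 2), (1, 6), (1, 8), (2, 1), (2, 4), (3, 0), (3, 5), (4, 2), (4,
      8), (5, 3), (5, 9), (6, 1), (6, 7), (7, 6), (7, 9), (8, 1), (8, 4), (9, 5), (9, 7)]
    lev := [] }
  links := [[1, 7, 8, 9], [7, 0, 9, 2, 3, 10], [3, 1, 9, 11], [10, 1, 2, 11, 4, 12], [12, 3, 11, 5, 8,
    13, 14, 6], [8, 4, 11, 15], [12, 4, 14, 16]]
  P := {
    a := 7
    N := 17
    nb := [898, 1677, 2570, 7190, 31080, 35088, 86032, 1283, 41649, 2311, 4234, 33340, 66648, 16656,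
      73808, 2336, 20544]
    tri := [(0, 1, 7), (0, 1, 9), (0, 7, 8), (0, 8, 9), (1, 2, 3), (1, 2, 9), (1, 3, 10), (1, 7, 10),
      (2, 3, 11), (2, 9, 11), (3, 4, 11), (3, 4, 12), (3, 10, 12), (4, 5, 8), (4, 5, 11), (4, 6,
      12), (4, 6, 14), (4, 8, 13), (4, 13, 14), (5, 8, 15), (5, 11, 15), (6, 12, 16), (6, 14, 16)]
    fin := [0, 0, 2, 2, 4, 0, 4, 7, 0, 2, 10, 4, 4, 4, 14, 15, 16]
    chd := [(0, 10), (2, 10)]
    steps := [(0, 1), (0, 8), (0, 5), (2, 3), (2, 9), (4, 6), (4, 11), (4, 13), (4, 12)] }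
  rep := [4, 0, 10, 2, 7, 14, 15, 16]

noncomputable def v2621 : Cov.CovD where
  P := 3
  N := 5
  pl := [0, 7, 8, 9]
  lev := [⟨[], [], [(1, 3)], [4], [(1, 1, [2]), (2, 3, [2])]⟩,
    ⟨[], [(0, 1), (0, 2), (0, 3)], [(2, 3)], [4], [(2, 3, [2]), (3, 2, [1, 3])]⟩,
    ⟨[(0, 1)], [(0, 3), (1, 0), (1, 2), (1, 3)], [(0, 3)], [], [(2, 3, [2]), (4, 0, [])]⟩,
    ⟨[(0, 1), (1, 2)], [(1, 0), (1, 2), (1, 3), (2, 0), (2, 2), (2, 3)], [(0, 0), (0, 2)],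
      [], [(3, 2, [1, 3]), (4, 0, []), (5, 0, [])]⟩,
    ⟨[(1, 3), (2, 3)], [(0, 1), (2, 0), (3, 0), (3, 1), (3, 2)], [(0, 0), (0, 1)], [5],
      [(1, 1, [2]), (4, 0, []), (5, 0, []), (6, 0, [])]⟩,
    ⟨[(3, 4)], [(0, 1), (2, 0), (3, 0), (4, 0), (4, 1)], [(0, 1)], [6], [(1, 1, [2]), (4,
      0, [])]⟩,
    ⟨[(3, 4), (4, 5)], [(3, 0), (4, 0), (4, 1)], [], [5, 7], [(5, 0, [])]⟩]
  Ta := [((4, 2), 0, 3), ((4, 8), 0, 6), ((5, 3), 0, 2), ((5, 9), 0, 7), ((6, 1), 0, 1), ((6, 7),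
    0, 5)]
  Tb := [((0, 1, 3), 4, 1, 2), ((1, 0, 2), 1, 4, 3), ((1, 0, 6), 1, 4, 0), ((1, 0, 8), 1, 4, 6),
    ((1, 2, 6), 1, 3, 0), ((1, 2, 8), 1, 3, 6), ((1, 6, 8), 1, 0, 6), ((2, 1, 4), 3, 1, 0),
    ((3, 0, 5), 2, 4, 0), ((4, 2, 8), 0, 3, 6), ((5, 3, 9), 0, 2, 7), ((6, 1, 7), 0, 1, 5),
    ((7, 6, 9), 5, 0, 7), ((8, 1, 4), 6, 1, 0), ((9, 5, 7), 7, 0, 5)]
  Tc := [(2, 1, 3)]
  Td := [((1, 2), (1, 0), 4), ((1, 2), (1, 2), 3), ((1, 2), (1, 6), 0), ((1, 2), (1, 8), 6), ((2,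
    1), (3, 0), 4), ((2, 1), (3, 5), 0), ((2, 3), (3, 0), 4), ((2, 3), (3, 5), 0), ((3, 2),
    (2, 1), 1), ((3, 2), (2, 4), 0)]
  G := [[0, 0, 0, 0x1212c4281212c8241212c821d, 0x11c11cc24818821411cc86211c11cc241d], [0, 0,
    0xa161c28a161c24614a18c2e1, 0xa161c28a161c24c22e281e8213, 0xa161c28a161c24aa161c2415],
    [0, 0x141218e418141218e814141812e421e, 0, 0xa111c481161c24a111c42d2,
    0x3151c2811d1c82a3191c8415]]

noncomputable def n2621 : Ent := ⟨e2621, noF, [], [], [(9, 15, [1685356702439545624007900436039642273970977273354372543760010821633, 0])]⟩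

def c2621 : PLift (Cov.check n2621.C.D v2621 = true) := ⟨by decide +kernel⟩

def b2621 : PLift (entF (fidx ts) 400 2621 n2621 = true) := ⟨by decide +kernel⟩

theorem g2621 : GoodF (fidx ts) 400 2621 := GoodF.ofV v2621 n2621 c2621.down b2621.down

/-- 4646844:2133/5 -/
noncomputable def e2622 : SCfg where
  D := {
    a := 7
    L := 9
    kp := 6
    inn := [(0, 1), (1, 0), (1, 2), (1, 3), (2, 1), (2, 3), (3, 1), (3, 2), (3, 4), (4, 3), (4, 5), (4,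
      6), (5, 4), (6, 4)]
    mix := [(0, 0), (0, 1), (0, 2), (1, 0), (1, 2), (1, 3), (2, 2), (2, 4), (3, 3), (3, 4), (3, 5), (4,
      4), (4, 5), (4, 6), (4, 7), (4, 8), (5, 2), (5, 4), (5, 6), (6, 1), (6, 5), (6, 8)]
    cl := [4, 3, 1, 2, 0, 0, 5, 0, 6]
    chq := [(1, 2), (2, 1), (2, 3), (3, 2)]
    rng := [(0, 1), (0, 3), (1, 0), (1, 2), (1, 5), (1, 8), (2, 1), (2, 4), (2, 6), (3, 0), (3, 5), (4,
      2), (5, 1), (5, 3), (6, 2), (6, 7), (7, 6), (7, 8), (8, 1), (8, 7)]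
    lev := [] }
  links := [[1, 7, 8, 9], [7, 0, 9, 2, 3, 10], [3, 1, 9, 11], [10, 1, 2, 11, 4, 12], [12, 3, 11, 5, 13,
    14, 15, 6], [13, 4, 11, 9], [12, 4, 15, 8]]
  P := {
    a := 7
    N := 16
    nb := [898, 1677, 2570, 7190, 63592, 10768, 37136, 1283, 37569, 10535, 4234, 572, 1368, 16944,
      40976, 16720]
    tri := [(0, 1, 7), (0, 1, 9), (0, 7, 8), (0, 8, 9), (1, 2, 3), (1, 2, 9), (1, 3, 10), (1, 7, 10),
      (2, 3, 11), (2, 9, 11), (3, 4, 11), (3, 4, 12), (3, 10, 12), (4, 5, 11), (4, 5, 13), (4, 6,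
      12), (4, 6, 15), (4, 13, 14), (4, 14, 15), (5, 9, 11), (5, 9, 13), (6, 8, 12), (6, 8, 15)]
    fin := [0, 0, 2, 2, 4, 2, 0, 7, 0, 2, 10, 4, 4, 13, 4, 15]
    chd := [(0, 10), (2, 10)]
    steps := [(0, 1), (0, 8), (0, 6), (2, 3), (2, 9), (4, 11), (2, 5), (4, 14), (4, 12)] }
  rep := [4, 2, 10, 0, 7, 13, 15]

noncomputable def v2622 : Cov.CovD where
  P := 3
  N := 4
  pl := [0, 6, 8]
  lev := [⟨[], [], [(1, 3)], [4], [(1, 3, [2]), (2, 1, [2])]⟩,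
    ⟨[], [(0, 1), (0, 2), (0, 3)], [(1, 2)], [4], [(2, 1, [2]), (3, 2, [1, 3])]⟩,
    ⟨[(0, 1)], [(0, 1), (1, 0), (1, 1), (1, 2)], [(0, 1)], [], [(2, 1, [2]), (4, 0, [])]⟩,
    ⟨[(0, 1), (1, 2)], [(1, 0), (1, 1), (1, 2), (2, 0), (2, 1), (2, 2)], [(0, 0), (0, 2)],
      [], [(3, 2, [1, 3]), (4, 0, []), (5, 0, [])]⟩,
    ⟨[(1, 3), (2, 3)], [(2, 0), (3, 0), (3, 2)], [(0, 0)], [5, 6], [(4, 0, []), (5, 0, []),
      (7, 0, [])]⟩,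
    ⟨[(3, 4)], [(0, 1), (1, 1), (2, 0), (2, 1), (3, 0), (4, 0), (4, 1)], [(0, 1)], [5],
      [(2, 1, [2]), (4, 0, [])]⟩,
    ⟨[(3, 4), (4, 5)], [(0, 3), (3, 0), (4, 0), (4, 3)], [(0, 3)], [6], [(1, 3, [2]), (5,
      0, [])]⟩]
  Ta := [((4, 2), 0, 1), ((5, 1), 0, 3), ((5, 3), 0, 2), ((7, 6), 0, 5), ((7, 8), 0, 6)]
  Tb := [((0, 1, 3), 4, 3, 2), ((1, 0, 2), 3, 4, 1), ((1, 0, 5), 3, 4, 0), ((1, 0, 8), 3, 4, 6),
    ((1, 2, 5), 3, 1, 0), ((1, 2, 8), 3, 1, 6), ((1, 5, 8), 3, 0, 6), ((2, 1, 4), 1, 3, 0),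
    ((2, 1, 6), 1, 3, 5), ((2, 4, 6), 1, 0, 5), ((3, 0, 5), 2, 4, 0), ((5, 1, 3), 0, 3, 2),
    ((6, 2, 7), 5, 1, 0), ((7, 6, 8), 0, 5, 6), ((8, 1, 7), 6, 3, 0)]
  Tc := [(2, 1, 3)]
  Td := [((1, 2), (2, 1), 3), ((1, 2), (2, 4), 0), ((1, 2), (2, 6), 5), ((2, 1), (3, 0), 4), ((2,
    1), (3, 5), 0), ((2, 3), (3, 0), 4), ((2, 3), (3, 5), 0), ((3, 2), (1, 0), 4), ((3, 2),
    (1, 2), 1), ((3, 2), (1, 5), 0), ((3, 2), (1, 8), 6)]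
  G := [[0, 0x1818a12e428188421412688c14126188c41441812ac8ce, 0, 0x1411c6188a421c21814ca4c2,
    0x181411ce288181411ce2815], [0, 0, 0x2c54e1e1ac4e14e1e1ac8c1, 0x212c1c1ca848921ac146452,
    0x8141c1e24821268e1ca4a1281a4ca496141429e841d], [0, 0, 0, 0x1821a1446814216188c892,
    0x383451e248183451e2415]]

noncomputable def n2622 : Ent := ⟨e2622, noF, [], [], []⟩

def c2622 : PLift (Cov.check n2622.C.D v2622 = true) := ⟨by decide +kernel⟩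

def b2622 : PLift (entF (fidx ts) 400 2622 n2622 = true) := ⟨by decide +kernel⟩

theorem g2622 : GoodF (fidx ts) 400 2622 := GoodF.ofV v2622 n2622 c2622.down b2622.down

/-- 4646844:2133/4 -/
noncomputable def e2623 : SCfg where
  D := {
    a := 7
    L := 10
    kp := 7
    inn := [(0, 1), (1, 0), (1, 2), (1, 3), (2, 1), (2, 3), (3, 1), (3, 2), (3, 4), (4, 3), (4, 5), (4,
      6), (5, 4), (6, 4)]
    mix := [(0, 0), (0, 1), (0, 2), (1, 0), (1, 2), (1, 3), (2, 2), (2, 4), (3, 3), (3, 4), (3, 5), (4,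
      4), (4, 5), (4, 6), (4, 7), (4, 8), (5, 4), (5, 6), (5, 9), (6, 1), (6, 5), (6, 8)]
    cl := [4, 3, 1, 2, 0, 0, 5, 0, 6, 7]
    chq := [(1, 2), (2, 1), (2, 3), (3, 2)]
    rng := [(0, 1), (0, 3), (1, 0), (1, 2), (1, 5), (1, 8), (2, 1), (2, 4), (3, 0), (3, 5), (4, 2), (4,
      9), (5, 1), (5, 3), (6, 7), (6, 9), (7, 6), (7, 8), (8, 1), (8, 7), (9, 4), (9, 6)]
    lev := [] }
  links := [[1, 7, 8, 9], [7, 0, 9, 2, 3, 10], [3, 1, 9, 11], [10, 1, 2, 11, 4, 12], [12, 3, 11, 5, 13,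
    14, 15, 6], [13, 4, 11, 16], [12, 4, 15, 8]]
  P := {
    a := 7
    N := 17
    nb := [898, 1677, 2570, 7190, 63592, 75792, 37136, 1283, 37569, 2311, 4234, 66108, 1368, 81968,
      40976, 16720, 10272]
    tri := [(0, 1, 7), (0, 1, 9), (0, 7, 8), (0, 8, 9), (1, 2, 3), (1, 2, 9), (1, 3, 10), (1, 7, 10),
      (2, 3, 11), (2, 9, 11), (3, 4, 11), (3, 4, 12), (3, 10, 12), (4, 5, 11), (4, 5, 13), (4, 6,
      12), (4, 6, 15), (4, 13, 14), (4, 14, 15), (5, 11, 16), (5, 13, 16), (6, 8, 12), (6, 8, 15)]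
    fin := [0, 0, 2, 2, 4, 4, 0, 7, 0, 2, 10, 4, 4, 13, 4, 15, 16]
    chd := [(0, 10), (2, 10)]
    steps := [(0, 1), (0, 8), (0, 6), (2, 3), (2, 9), (4, 5), (4, 11), (4, 14), (4, 12)] }
  rep := [4, 2, 10, 0, 7, 13, 15, 16]

noncomputable def v2623 : Cov.CovD where
  P := 3
  N := 5
  pl := [0, 6, 8, 9]
  lev := [⟨[], [], [(1, 3)], [4], [(1, 3, [2]), (2, 1, [2])]⟩,
    ⟨[], [(0, 1), (0, 2), (0, 3)], [(1, 2)], [4], [(2, 1, [2]), (3, 2, [1, 3])]⟩,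
    ⟨[(0, 1)], [(0, 1), (1, 0), (1, 1), (1, 2)], [(0, 1)], [], [(2, 1, [2]), (4, 0, [])]⟩,
    ⟨[(0, 1), (1, 2)], [(1, 0), (1, 1), (1, 2), (2, 0), (2, 1), (2, 2)], [(0, 0), (0, 2)],
      [], [(3, 2, [1, 3]), (4, 0, []), (5, 0, [])]⟩,
    ⟨[(1, 3), (2, 3)], [(2, 0), (3, 0), (3, 2)], [(0, 0)], [5, 6], [(4, 0, []), (5, 0, []),
      (7, 0, [])]⟩,
    ⟨[(3, 4)], [(2, 0), (3, 0), (4, 0)], [], [5, 7], [(4, 0, [])]⟩,
    ⟨[(3, 4), (4, 5)], [(0, 3), (3, 0), (4, 0), (4, 3)], [(0, 3)], [6], [(1, 3, [2]), (5,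
      0, [])]⟩]
  Ta := [((4, 2), 0, 1), ((4, 9), 0, 7), ((5, 1), 0, 3), ((5, 3), 0, 2), ((7, 6), 0, 5), ((7, 8),
    0, 6)]
  Tb := [((0, 1, 3), 4, 3, 2), ((1, 0, 2), 3, 4, 1), ((1, 0, 5), 3, 4, 0), ((1, 0, 8), 3, 4, 6),
    ((1, 2, 5), 3, 1, 0), ((1, 2, 8), 3, 1, 6), ((1, 5, 8), 3, 0, 6), ((2, 1, 4), 1, 3, 0),
    ((3, 0, 5), 2, 4, 0), ((4, 2, 9), 0, 1, 7), ((5, 1, 3), 0, 3, 2), ((6, 7, 9), 5, 0, 7),
    ((7, 6, 8), 0, 5, 6), ((8, 1, 7), 6, 3, 0), ((9, 4, 6), 7, 0, 5)]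
  Tc := [(2, 1, 3)]
  Td := [((1, 2), (2, 1), 3), ((1, 2), (2, 4), 0), ((2, 1), (3, 0), 4), ((2, 1), (3, 5), 0), ((2,
    3), (3, 0), 4), ((2, 3), (3, 5), 0), ((3, 2), (1, 0), 4), ((3, 2), (1, 2), 1), ((3, 2),
    (1, 5), 0), ((3, 2), (1, 8), 6)]
  G := [[0, 0x218e4118e111eac24111e848114e411e688c111e84111e111e68c211e4111e111eac2ce, 0,
    0x111e2121e111ec68121e2111e211eca4c2, 0x111e2111e111eca48111e2114e111eca815], [0, 0,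
    0xe1e1ae1464e12e1e1ca4c1, 0xe1216e18a4e1216e18c852,
    0x81a1c1e24841216618a421281a1ca896141e1e841d], [0, 0, 0, 0x311d4215129ac8133229a11546452,
    0x139193155e28811515361598a815]]

noncomputable def n2623 : Ent := ⟨e2623, noF, [], [], [(9, 16, [1580044410770988437309982408355971841652082177953823432505699852289, 0])]⟩

def c2623 : PLift (Cov.check n2623.C.D v2623 = true) := ⟨by decide +kernel⟩

def b2623 : PLift (entF (fidx ts) 400 2623 n2623 = true) := ⟨by decide +kernel⟩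

theorem g2623 : GoodF (fidx ts) 400 2623 := GoodF.ofV v2623 n2623 c2623.down b2623.down

/-- 4646844:2133/6 -/
noncomputable def e2624 : SCfg where
  D := {
    a := 7
    L := 10
    kp := 7
    inn := [(0, 1), (1, 0), (1, 2), (1, 3), (2, 1), (2, 3), (3, 1), (3, 2), (3, 4), (4, 3), (4, 5), (4,
      6), (5, 4), (6, 4)]
    mix := [(0, 0), (0, 1), (0, 2), (1, 0), (1, 2), (1, 3), (2, 2), (2, 4), (3, 3), (3, 4), (3, 5), (4,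
      4), (4, 5), (4, 6), (4, 7), (4, 8), (5, 2), (5, 4), (5, 6), (6, 5), (6, 8), (6, 9)]
    cl := [2, 6, 3, 1, 0, 0, 4, 0, 5, 7]
    chq := [(1, 3), (1, 6), (3, 1), (6, 1)]
    rng := [(0, 1), (0, 3), (1, 0), (1, 2), (2, 1), (2, 4), (2, 6), (3, 0), (3, 5), (4, 2), (5, 3), (5,
      9), (6, 2), (6, 7), (7, 6), (7, 8), (8, 7), (8, 9), (9, 5), (9, 8)]
    lev := [] }
  links := [[1, 7, 8, 9], [7, 0, 9, 2, 3, 10], [3, 1, 9, 11], [10, 1, 2, 11, 4, 12], [12, 3, 11, 5, 13,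
    14, 15, 6], [13, 4, 11, 9], [12, 4, 15, 16]]
  P := {
    a := 7
    N := 17
    nb := [898, 1677, 2570, 7190, 63592, 10768, 102416, 1283, 641, 10535, 4234, 572, 66648, 16944,
      40976, 82000, 36928]
    tri := [(0, 1, 7), (0, 1, 9), (0, 7, 8), (0, 8, 9), (1, 2, 3), (1, 2, 9), (1, 3, 10), (1, 7, 10),
      (2, 3, 11), (2, 9, 11), (3, 4, 11), (3, 4, 12), (3, 10, 12), (4, 5, 11), (4, 5, 13), (4, 6,
      12), (4, 6, 15), (4, 13, 14), (4, 14, 15), (5, 9, 11), (5, 9, 13), (6, 12, 16), (6, 15, 16)]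
    fin := [0, 0, 2, 2, 4, 2, 4, 7, 0, 2, 10, 4, 4, 13, 4, 15, 16]
    chd := [(0, 10), (2, 10)]
    steps := [(0, 1), (0, 8), (2, 3), (2, 9), (4, 6), (4, 11), (2, 5), (4, 14), (4, 12)] }
  rep := [4, 10, 7, 2, 13, 15, 0, 16]

noncomputable def v2624 : Cov.CovD where
  P := 3
  N := 5
  pl := [0, 6, 8, 9]
  lev := [⟨[], [], [(3, 6)], [2], [(1, 6, [1]), (2, 3, [1])]⟩,
    ⟨[], [(0, 1), (0, 3), (0, 6)], [(1, 3)], [2], [(2, 3, [1]), (3, 1, [3, 6])]⟩,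
    ⟨[(0, 1)], [(0, 3), (1, 0), (1, 1), (1, 3)], [(0, 3)], [], [(2, 3, [1]), (4, 0, [])]⟩,
    ⟨[(0, 1), (1, 2)], [(1, 0), (1, 1), (1, 3), (2, 0), (2, 1), (2, 3)], [(0, 0), (0, 1)],
      [], [(3, 1, [3, 6]), (4, 0, []), (5, 0, [])]⟩,
    ⟨[(1, 3), (2, 3)], [(2, 0), (3, 0), (3, 1)], [(0, 0)], [4, 5], [(4, 0, []), (5, 0, []),
      (7, 0, [])]⟩,
    ⟨[(3, 4)], [(0, 3), (1, 3), (2, 0), (2, 3), (3, 0), (4, 0), (4, 3)], [(0, 3)], [4],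
      [(2, 3, [1]), (4, 0, [])]⟩,
    ⟨[(3, 4), (4, 5)], [(3, 0), (4, 0)], [], [5, 7], [(5, 0, [])]⟩]
  Ta := [((4, 2), 0, 3), ((5, 3), 0, 1), ((5, 9), 0, 7), ((7, 6), 0, 4), ((7, 8), 0, 5)]
  Tb := [((0, 1, 3), 2, 6, 1), ((1, 0, 2), 6, 2, 3), ((2, 1, 4), 3, 6, 0), ((2, 1, 6), 3, 6, 4),
    ((2, 4, 6), 3, 0, 4), ((3, 0, 5), 1, 2, 0), ((5, 3, 9), 0, 1, 7), ((6, 2, 7), 4, 3, 0),
    ((7, 6, 8), 0, 4, 5), ((8, 7, 9), 5, 0, 7), ((9, 5, 8), 7, 0, 5)]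
  Tc := [(1, 3, 6)]
  Td := [((1, 3), (3, 0), 2), ((1, 3), (3, 5), 0), ((1, 6), (3, 0), 2), ((1, 6), (3, 5), 0), ((3,
    1), (2, 1), 6), ((3, 1), (2, 4), 0), ((3, 1), (2, 6), 4), ((6, 1), (1, 0), 2), ((6, 1),
    (1, 2), 3)]
  G := [[0, 0, 0x1811a12e4811614111ee84c2, 0x1811a12e4281161412e824111e4111e12ac21d,
    0x1811a11ce48144811612a8692], [0, 0xe1e16e18a2a45e16e18a4c1, 0xe1e1a4e148ae148e1e1a46c2,
    0xe1e16e18c21e1482e1e1a445e1e16e18c21d, 0xc1e1ac146414e1a1e1ec612], [0, 0,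
    0x389152e4851941d3e84c2, 0x583192e4289443152ac219113352e421d, 0x18b16a9e4513492e8c12]]

noncomputable def n2624 : Ent := ⟨e2624, noF, [], [], [(8, 13, [1685382419725355503238989871268909155780284044704628512909410156545, 0]), (8, 16, [1580044410770988437309982408355971841652082177953823432505699852289, 0])]⟩

def c2624 : PLift (Cov.check n2624.C.D v2624 = true) := ⟨by decide +kernel⟩

def b2624 : PLift (entF (fidx ts) 400 2624 n2624 = true) := ⟨by decide +kernel⟩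

theorem g2624 : GoodF (fidx ts) 400 2624 := GoodF.ofV v2624 n2624 c2624.down b2624.down

/-- 4646844:2133 -/
noncomputable def e2625 : SCfg where
  D := {
    a := 7
    L := 11
    kp := 8
    inn := [(0, 1), (1, 0), (1, 2), (1, 3), (2, 1), (2, 3), (3, 1), (3, 2), (3, 4), (4, 3), (4, 5), (4,
      6), (5, 4), (6, 4)]
    mix := [(0, 0), (0, 1), (0, 2), (1, 0), (1, 2), (1, 3), (2, 2), (2, 4), (3, 3), (3, 4), (3, 5), (4,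
      4), (4, 5), (4, 6), (4, 7), (4, 8), (5, 4), (5, 6), (5, 9), (6, 5), (6, 8), (6, 10)]
    cl := [2, 6, 3, 1, 0, 0, 4, 0, 5, 7, 8]
    chq := [(1, 3), (1, 6), (3, 1), (6, 1)]
    rng := [(0, 1), (0, 3), (1, 0), (1, 2), (2, 1), (2, 4), (3, 0), (3, 5), (4, 2), (4, 9), (5, 3), (5,
      10), (6, 7), (6, 9), (7, 6), (7, 8), (8, 7), (8, 10), (9, 4), (9, 6), (10, 5), (10, 8)]
    lev := [] }
  links := [[1, 7, 8, 9], [7, 0, 9, 2, 3, 10], [3, 1, 9, 11], [10, 1, 2, 11, 4, 12], [12, 3, 11, 5, 13,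
    14, 15, 6], [13, 4, 11, 16], [12, 4, 15, 17]]
  P := {
    a := 7
    N := 18
    nb := [898, 1677, 2570, 7190, 63592, 75792, 167952, 1283, 641, 2311, 4234, 66108, 132184, 81968,
      40976, 147536, 10272, 36928]
    tri := [(0, 1, 7), (0, 1, 9), (0, 7, 8), (0, 8, 9), (1, 2, 3), (1, 2, 9), (1, 3, 10), (1, 7, 10),
      (2, 3, 11), (2, 9, 11), (3, 4, 11), (3, 4, 12), (3, 10, 12), (4, 5, 11), (4, 5, 13), (4, 6,
      12), (4, 6, 15), (4, 13, 14), (4, 14, 15), (5, 11, 16), (5, 13, 16), (6, 12, 17), (6, 15,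
      17)]
    fin := [0, 0, 2, 2, 4, 4, 4, 7, 0, 2, 10, 4, 4, 13, 4, 15, 16, 17]
    chd := [(0, 10), (2, 10)]
    steps := [(0, 1), (0, 8), (2, 3), (2, 9), (4, 5), (4, 6), (4, 11), (4, 14), (4, 12)] }
  rep := [4, 10, 7, 2, 13, 15, 0, 16, 17]

noncomputable def v2625 : Cov.CovD where
  P := 3
  N := 6
  pl := [0, 6, 8, 9, 10]
  lev := [⟨[], [], [(3, 6)], [2], [(1, 6, [1]), (2, 3, [1])]⟩,
    ⟨[], [(0, 1), (0, 3), (0, 6)], [(1, 3)], [2], [(2, 3, [1]), (3, 1, [3, 6])]⟩,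
    ⟨[(0, 1)], [(0, 3), (1, 0), (1, 1), (1, 3)], [(0, 3)], [], [(2, 3, [1]), (4, 0, [])]⟩,
    ⟨[(0, 1), (1, 2)], [(1, 0), (1, 1), (1, 3), (2, 0), (2, 1), (2, 3)], [(0, 0), (0, 1)],
      [], [(3, 1, [3, 6]), (4, 0, []), (5, 0, [])]⟩,
    ⟨[(1, 3), (2, 3)], [(2, 0), (3, 0), (3, 1)], [(0, 0)], [4, 5], [(4, 0, []), (5, 0, []),
      (7, 0, [])]⟩,
    ⟨[(3, 4)], [(2, 0), (3, 0), (4, 0)], [], [4, 7], [(4, 0, [])]⟩,
    ⟨[(3, 4), (4, 5)], [(3, 0), (4, 0)], [], [5, 8], [(5, 0, [])]⟩]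
  Ta := [((4, 2), 0, 3), ((4, 9), 0, 7), ((5, 3), 0, 1), ((5, 10), 0, 8), ((7, 6), 0, 4), ((7,
    8), 0, 5)]
  Tb := [((0, 1, 3), 2, 6, 1), ((1, 0, 2), 6, 2, 3), ((2, 1, 4), 3, 6, 0), ((3, 0, 5), 1, 2, 0),
    ((4, 2, 9), 0, 3, 7), ((5, 3, 10), 0, 1, 8), ((6, 7, 9), 4, 0, 7), ((7, 6, 8), 0, 4, 5),
    ((8, 7, 10), 5, 0, 8), ((9, 4, 6), 7, 0, 4), ((10, 5, 8), 8, 0, 5)]
  Tc := [(1, 3, 6)]
  Td := [((1, 3), (3, 0), 2), ((1, 3), (3, 5), 0), ((1, 6), (3, 0), 2), ((1, 6), (3, 5), 0), ((3,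
    1), (2, 1), 6), ((3, 1), (2, 4), 0), ((6, 1), (1, 0), 2), ((6, 1), (1, 2), 3)]
  G := [[0, 0, 0x111e111ea4111e48a111e111e68111e846c2,
    0x111e11a111ee421448814488d18844116111e111ee8218842d111e4111e111eac21d,
    0x111e111ea4111e48a111e4111e111eac492], [0, 0xe14e1e1ac2e1e16e18a4c1,
    0xe1e1a4e148ae1e168e1846c2, 0xe14e1e1ac21414e1a1e1ec21e1e16e18c21d,
    0xe14e1e1ace14e1e1ac612], [0, 0, 0x1b9113175e481111cd11abe84c2,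
    0x199133155e428193139155e42111cd1161b7e421d, 0x11cd111e6e18c1551991e3e8612]]

noncomputable def n2625 : Ent := ⟨e2625, noF, [], [], [(8, 16, [7334685537875745012586738086077695515070955365108989538292687704403969, 0]), (8, 13, [7334790875884699379652667093540608452385083566975740343373091414724609, 0]), (8, 17, [6903326391201334775872065844685381424292761054348340378595029940432897, 0]), (9, 16, [7334685537875745012586738086077695515070955365108989538292687704424449, 0])]⟩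

def c2625 : PLift (Cov.check n2625.C.D v2625 = true) := ⟨by decide +kernel⟩

def b2625 : PLift (entF (fidx ts) 400 2625 n2625 = true) := ⟨by decide +kernel⟩

theorem g2625 : GoodF (fidx ts) 400 2625 := GoodF.ofV v2625 n2625 c2625.down b2625.down

/-- 4647674:2135/1 -/
noncomputable def e2626 : SCfg where
  D := {
    a := 7
    L := 10
    kp := 8
    inn := [(0, 1), (1, 0), (1, 2), (1, 3), (1, 5), (2, 1), (2, 5), (3, 1), (3, 4), (3, 5), (4, 3), (4,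
      5), (4, 6), (5, 1), (5, 2), (5, 3), (5, 4), (6, 4)]
    mix := [(0, 0), (0, 1), (0, 2), (1, 0), (1, 2), (2, 2), (2, 3), (3, 0), (3, 4), (3, 5), (3, 6), (4,
      4), (4, 7), (4, 8), (5, 3), (5, 7), (5, 9), (6, 1), (6, 7), (6, 8)]
    cl := [1, 2, 0, 4, 3, 6, 7, 3, 5, 8]
    chq := [(0, 1), (0, 3), (0, 6), (0, 7), (0, 8), (1, 0), (3, 0), (6, 0), (7, 0), (8, 0)]
    rng := [(0, 1), (0, 6), (1, 0), (1, 2), (1, 7), (1, 8), (2, 1), (2, 3), (3, 2), (3, 9), (4, 5), (4,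
      8), (5, 4), (5, 6), (6, 0), (6, 5), (7, 1), (7, 9), (8, 1), (8, 4), (9, 3), (9, 7)]
    lev := [] }
  links := [[1, 7, 8, 9], [7, 0, 9, 2, 5, 3], [5, 1, 9, 10], [7, 1, 5, 4, 11, 12, 13], [11, 3, 5, 14, 6,
    15], [14, 4, 3, 1, 2, 10, 16], [15, 4, 14, 8]]
  P := {
    a := 7
    N := 17
    nb := [898, 685, 1570, 14514, 51304, 82974, 49424, 8459, 49857, 1287, 66084, 36888, 10248, 4232,
      65904, 2384, 17440]
    tri := [(0, 1, 7), (0, 1, 9), (0, 7, 8), (0, 8, 9), (1, 2, 5), (1, 2, 9), (1, 3, 5), (1, 3, 7), (2,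
      5, 10), (2, 9, 10), (3, 4, 5), (3, 4, 11), (3, 7, 13), (3, 11, 12), (3, 12, 13), (4, 5, 14),
      (4, 6, 14), (4, 6, 15), (4, 11, 15), (5, 10, 16), (5, 14, 16), (6, 8, 14), (6, 8, 15)]
    fin := [0, 0, 2, 2, 4, 2, 6, 0, 6, 2, 10, 4, 12, 13, 4, 15, 16]
    chd := [(0, 2), (2, 4), (2, 12), (2, 13), (2, 16)]
    steps := [(0, 1), (0, 7), (2, 5), (2, 3), (2, 9), (4, 14), (4, 11), (6, 8)] }
  rep := [2, 0, 6, 4, 10, 15, 12, 13, 16]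

noncomputable def v2626 : Cov.CovD where
  P := 3
  N := 6
  pl := [1, 3, 8]
  lev := [⟨[], [], [(0, 1)], [2], [(0, 1, [0]), (2, 0, [1, 3, 6, 7, 8])]⟩,
    ⟨[], [(0, 0), (0, 1)], [(0, 1)], [], [(0, 1, [0]), (2, 0, [1, 3, 6, 7, 8])]⟩,
    ⟨[(0, 1)], [(0, 0), (1, 0), (1, 1)], [], [4], [(2, 0, [1, 3, 6, 7, 8])]⟩,
    ⟨[(0, 1), (1, 2)], [(0, 1), (1, 0), (1, 1), (1, 3), (1, 6), (1, 7)], [(1, 3), (1, 6),
      (1, 7), (3, 6), (3, 7), (6, 7)], [], [(0, 1, [0]), (4, 3, [0]), (5, 6, [0]), (6, 7,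
      [0])]⟩,
    ⟨[(1, 3)], [(3, 1), (3, 3), (3, 6), (3, 7)], [(3, 3)], [5], [(4, 3, [0]), (7, 3, [0])]⟩,
    ⟨[(0, 1), (1, 2), (1, 3), (1, 4), (2, 3), (2, 4), (3, 4)], [(1, 0), (1, 1), (1, 3), (1,
      8), (2, 0), (2, 3), (2, 8), (3, 1), (3, 3), (3, 6), (3, 7), (3, 8), (4, 3), (4, 8)],
      [(3, 8)], [4], [(7, 3, [0]), (9, 8, [0])]⟩,
    ⟨[(3, 4), (4, 5)], [(4, 3), (5, 3)], [], [2, 5], [(7, 3, [0])]⟩]
  Ta := [((4, 5), 3, 6), ((4, 8), 3, 5), ((7, 1), 3, 2), ((7, 9), 3, 8)]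
  Tb := [((0, 1, 6), 1, 2, 7), ((1, 0, 2), 2, 1, 0), ((1, 0, 7), 2, 1, 3), ((1, 0, 8), 2, 1, 5),
    ((1, 2, 7), 2, 0, 3), ((1, 2, 8), 2, 0, 5), ((1, 7, 8), 2, 3, 5), ((2, 1, 3), 0, 2, 4),
    ((3, 2, 9), 4, 0, 8), ((4, 5, 8), 3, 6, 5), ((5, 4, 6), 6, 3, 7), ((6, 0, 5), 7, 1, 6),
    ((7, 1, 9), 3, 2, 8), ((8, 1, 4), 5, 2, 3), ((9, 3, 7), 8, 4, 3)]
  Tc := [(0, 1, 3), (0, 1, 6), (0, 1, 7), (0, 1, 8), (0, 3, 6), (0, 3, 7), (0, 3, 8), (0, 6, 7),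
    (0, 6, 8), (0, 7, 8)]
  Td := [((0, 1), (2, 1), 2), ((0, 1), (2, 3), 4), ((0, 3), (2, 1), 2), ((0, 3), (2, 3), 4), ((0,
    6), (2, 1), 2), ((0, 6), (2, 3), 4), ((0, 7), (2, 1), 2), ((0, 7), (2, 3), 4), ((0, 8),
    (2, 1), 2), ((0, 8), (2, 3), 4), ((1, 0), (0, 1), 2), ((1, 0), (0, 6), 7), ((3, 0), (4,
    5), 6), ((3, 0), (4, 8), 5), ((3, 0), (7, 1), 2), ((3, 0), (7, 9), 8), ((6, 0), (5, 4),
    3), ((6, 0), (5, 6), 7), ((7, 0), (6, 0), 1), ((7, 0), (6, 5), 6), ((8, 0), (9, 3), 4),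
    ((8, 0), (9, 7), 3)]
  G := [[0, 0x5ca211481e181e14e1164, 0x814121e1814121e1a48, 0x98c7214298561a51a211c4,
    0xa164111868128a119b28ae111921c61ec8], [0,
    0x811151e814111e6811151e814111e6641918178114191e8ac4, 0x814121e1814121e1648,
    0x51249129125d972dc5129d5b298c4,
    0x811121e4811121e888713172122f514417912181781919222d88f9119121e8cc8]]

noncomputable def n2626 : Ent := ⟨e2626, noF, [], [], []⟩

def c2626 : PLift (Cov.check n2626.C.D v2626 = true) := ⟨by decide +kernel⟩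

def b2626 : PLift (entF (fidx ts) 400 2626 n2626 = true) := ⟨by decide +kernel⟩

theorem g2626 : GoodF (fidx ts) 400 2626 := GoodF.ofV v2626 n2626 c2626.down b2626.down

/-- 4647674:2135 -/
noncomputable def e2627 : SCfg where
  D := {
    a := 7
    L := 11
    kp := 9
    inn := [(0, 1), (1, 0), (1, 2), (1, 3), (1, 5), (2, 1), (2, 5), (3, 1), (3, 4), (3, 5), (4, 3), (4,
      5), (4, 6), (5, 1), (5, 2), (5, 3), (5, 4), (6, 4)]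
    mix := [(0, 0), (0, 1), (0, 2), (1, 0), (1, 2), (2, 2), (2, 3), (3, 0), (3, 4), (3, 5), (3, 6), (4,
      4), (4, 7), (4, 8), (5, 3), (5, 7), (5, 9), (6, 7), (6, 8), (6, 10)]
    cl := [1, 8, 0, 2, 3, 5, 6, 3, 4, 7, 9]
    chq := [(0, 1), (0, 3), (0, 5), (0, 6), (0, 7), (1, 0), (3, 0), (5, 0), (6, 0), (7, 0)]
    rng := [(0, 1), (0, 6), (1, 0), (1, 2), (2, 1), (2, 3), (3, 2), (3, 9), (4, 5), (4, 8), (5, 4), (5,
      6), (6, 0), (6, 5), (7, 9), (7, 10), (8, 4), (8, 10), (9, 3), (9, 7), (10, 7), (10, 8)]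
    lev := [] }
  links := [[1, 7, 8, 9], [7, 0, 9, 2, 5, 3], [5, 1, 9, 10], [7, 1, 5, 4, 11, 12, 13], [11, 3, 5, 14, 6,
    15], [14, 4, 3, 1, 2, 10, 16], [15, 4, 14, 17]]
  P := {
    a := 7
    N := 18
    nb := [898, 685, 1570, 14514, 51304, 82974, 180240, 8459, 641, 1287, 66084, 36888, 10248, 4232,
      196720, 133200, 17440, 49216]
    tri := [(0, 1, 7), (0, 1, 9), (0, 7, 8), (0, 8, 9), (1, 2, 5), (1, 2, 9), (1, 3, 5), (1, 3, 7), (2,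
      5, 10), (2, 9, 10), (3, 4, 5), (3, 4, 11), (3, 7, 13), (3, 11, 12), (3, 12, 13), (4, 5, 14),
      (4, 6, 14), (4, 6, 15), (4, 11, 15), (5, 10, 16), (5, 14, 16), (6, 14, 17), (6, 15, 17)]
    fin := [0, 0, 2, 2, 4, 2, 4, 0, 8, 2, 10, 4, 12, 13, 4, 15, 16, 17]
    chd := [(0, 2), (2, 4), (2, 12), (2, 13), (2, 16)]
    steps := [(0, 1), (0, 7), (2, 5), (2, 3), (2, 9), (4, 6), (4, 14), (4, 11)] }
  rep := [2, 0, 10, 4, 15, 12, 13, 16, 8, 17]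

noncomputable def v2627 : Cov.CovD where
  P := 3
  N := 7
  pl := [1, 3, 8, 10]
  lev := [⟨[], [], [(0, 1)], [8], [(0, 1, [0]), (2, 0, [1, 3, 5, 6, 7])]⟩,
    ⟨[], [(0, 0), (0, 1)], [(0, 1)], [], [(0, 1, [0]), (2, 0, [1, 3, 5, 6, 7])]⟩,
    ⟨[(0, 1)], [(0, 0), (1, 0), (1, 1)], [], [2], [(2, 0, [1, 3, 5, 6, 7])]⟩,
    ⟨[(0, 1), (1, 2)], [(0, 1), (1, 0), (1, 1), (1, 3), (1, 5), (1, 6)], [(1, 3), (1, 5),
      (1, 6), (3, 5), (3, 6), (5, 6)], [], [(0, 1, [0]), (4, 3, [0]), (5, 5, [0]), (6, 6,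
      [0])]⟩,
    ⟨[(1, 3)], [(3, 1), (3, 3), (3, 5), (3, 6)], [(3, 3)], [4], [(4, 3, [0]), (7, 3, [0])]⟩,
    ⟨[(0, 1), (1, 2), (1, 3), (1, 4), (2, 3), (2, 4), (3, 4)], [(1, 0), (1, 1), (1, 3), (1,
      7), (2, 0), (2, 3), (2, 7), (3, 1), (3, 3), (3, 5), (3, 6), (3, 7), (4, 3), (4, 7)],
      [(3, 7)], [2], [(7, 3, [0]), (9, 7, [0])]⟩,
    ⟨[(3, 4), (4, 5)], [(4, 3), (5, 3)], [], [4, 9], [(7, 3, [0])]⟩]
  Ta := [((4, 5), 3, 5), ((4, 8), 3, 4), ((7, 9), 3, 7), ((7, 10), 3, 9)]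
  Tb := [((0, 1, 6), 1, 8, 6), ((1, 0, 2), 8, 1, 0), ((2, 1, 3), 0, 8, 2), ((3, 2, 9), 2, 0, 7),
    ((4, 5, 8), 3, 5, 4), ((5, 4, 6), 5, 3, 6), ((6, 0, 5), 6, 1, 5), ((7, 9, 10), 3, 7, 9),
    ((8, 4, 10), 4, 3, 9), ((9, 3, 7), 7, 2, 3), ((10, 7, 8), 9, 3, 4)]
  Tc := [(0, 1, 3), (0, 1, 5), (0, 1, 6), (0, 1, 7), (0, 3, 5), (0, 3, 6), (0, 3, 7), (0, 5, 6),
    (0, 5, 7), (0, 6, 7)]
  Td := [((0, 1), (2, 1), 8), ((0, 1), (2, 3), 2), ((0, 3), (2, 1), 8), ((0, 3), (2, 3), 2), ((0,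
    5), (2, 1), 8), ((0, 5), (2, 3), 2), ((0, 6), (2, 1), 8), ((0, 6), (2, 3), 2), ((0, 7),
    (2, 1), 8), ((0, 7), (2, 3), 2), ((1, 0), (0, 1), 8), ((1, 0), (0, 6), 6), ((3, 0), (4,
    5), 5), ((3, 0), (4, 8), 4), ((3, 0), (7, 9), 7), ((3, 0), (7, 10), 9), ((5, 0), (5, 4),
    3), ((5, 0), (5, 6), 6), ((6, 0), (6, 0), 1), ((6, 0), (6, 5), 5), ((7, 0), (9, 3), 2),
    ((7, 0), (9, 7), 3)]
  G := [[0, 0x948112852c33ce11a29c52c33ce1126, 0x49a55a34ae144d26ace51e42168c,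
    0x9152931e144925b1385e188942434e18285838e14cd, 0x925242e1485838e1a4925242e1485838e1a4c],
    [0, 0x11d1b181f844d1117141fb1711121f6811d1b181f88cd1117141fb1711121f688e,
    0x14412db6d7ab71e842ef11881ac5494716c4f181bad7ab882af12cc,
    0x9171a49551735e548d171a9151735e5481141594445581151b181f818c8b888f1ccd,
    0xd11171e915131e528d11171e915131e528122111d1b181f4111aad7a82adda4d]]

noncomputable def n2627 : Ent := ⟨e2627, noF, [], [], [(8, 17, [6903326391201334775872065844685381424292761054348340378595029940445185, 0])]⟩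

def c2627 : PLift (Cov.check n2627.C.D v2627 = true) := ⟨by decide +kernel⟩

def b2627 : PLift (entF (fidx ts) 400 2627 n2627 = true) := ⟨by decide +kernel⟩

theorem g2627 : GoodF (fidx ts) 400 2627 := GoodF.ofV v2627 n2627 c2627.down b2627.down

/-- 4647474:2137/1 -/
noncomputable def e2628 : SCfg where
  D := {
    a := 7
    L := 10
    kp := 7
    inn := [(0, 1), (1, 0), (1, 2), (1, 3), (2, 1), (3, 1), (3, 4), (3, 5), (4, 3), (4, 5), (5, 3), (5,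
      4), (5, 6), (6, 5)]
    mix := [(0, 0), (0, 1), (0, 2), (1, 0), (1, 2), (1, 3), (2, 2), (2, 3), (2, 4), (3, 0), (3, 3), (3,
      5), (3, 6), (4, 5), (4, 7), (5, 6), (5, 7), (5, 8), (5, 9), (6, 1), (6, 6), (6, 9)]
    cl := [0, 4, 3, 0, 7, 2, 1, 1, 6, 5]
    chq := [(0, 3), (3, 0), (4, 6), (6, 4)]
    rng := [(0, 1), (0, 6), (1, 0), (1, 2), (1, 6), (1, 9), (2, 1), (2, 4), (3, 4), (3, 5), (4, 2), (4,
      3), (5, 3), (5, 7), (6, 0), (6, 1), (7, 5), (7, 8), (8, 7), (8, 9), (9, 1), (9, 8)]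
    lev := [] }
  links := [[1, 7, 8, 9], [7, 0, 9, 2, 10, 3], [10, 1, 9, 11], [7, 1, 10, 12, 4, 5, 13], [5, 3, 12, 14],
    [13, 3, 4, 14, 15, 16, 6], [13, 5, 16, 8]]
  P := {
    a := 7
    N := 17
    nb := [898, 1677, 3586, 13490, 20520, 122968, 74016, 8459, 74433, 2311, 6158, 1540, 17432, 488,
      36912, 81952, 33120]
    tri := [(0, 1, 7), (0, 1, 9), (0, 7, 8), (0, 8, 9), (1, 2, 9), (1, 2, 10), (1, 3, 7), (1, 3, 10),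
      (2, 9, 11), (2, 10, 11), (3, 4, 5), (3, 4, 12), (3, 5, 13), (3, 7, 13), (3, 10, 12), (4, 5,
      14), (4, 12, 14), (5, 6, 13), (5, 6, 16), (5, 14, 15), (5, 15, 16), (6, 8, 13), (6, 8, 16)]
    fin := [0, 0, 0, 3, 3, 5, 5, 0, 5, 9, 0, 11, 12, 3, 3, 15, 16]
    chd := [(0, 9), (5, 15)]
    steps := [(0, 1), (0, 2), (0, 7), (0, 10), (3, 4), (3, 14), (3, 13), (5, 6), (5, 8)] }
  rep := [0, 3, 12, 9, 5, 16, 15, 11]

noncomputable def v2628 : Cov.CovD where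
  P := 3
  N := 5
  pl := [4, 5, 9]
  lev := [⟨[], [], [(0, 3), (0, 4), (3, 4)], [], [(0, 0, [3]), (1, 4, [6]), (2, 3, [0])]⟩,
    ⟨[], [(0, 0), (0, 3), (0, 4)], [(0, 0), (0, 3)], [], [(0, 0, [3]), (2, 3, [0]), (3, 0,
      [3])]⟩,
    ⟨[(0, 1)], [(0, 3), (1, 0), (1, 3)], [(0, 3)], [7], [(2, 3, [0]), (3, 0, [3])]⟩,
    ⟨[(0, 1), (1, 2)], [(0, 0), (1, 0), (1, 1), (1, 3), (2, 0)], [(0, 0), (0, 1)], [2],
      [(0, 0, [3]), (3, 0, [3]), (6, 1, [])]⟩,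
    ⟨[(1, 3)], [(3, 0), (3, 1)], [], [2], [(7, 1, [])]⟩,
    ⟨[(1, 3), (3, 4)], [(3, 0), (3, 1), (3, 6), (4, 1), (4, 6)], [(1, 1), (1, 6)], [5],
      [(6, 1, []), (7, 1, []), (8, 6, [4])]⟩,
    ⟨[(3, 5), (4, 5)], [(0, 4), (3, 1), (5, 1), (5, 4), (5, 6)], [(1, 4)], [5], [(1, 4,
      [6]), (6, 1, [])]⟩]
  Ta := [((0, 1), 0, 4), ((0, 6), 0, 1), ((3, 4), 0, 7), ((3, 5), 0, 2), ((6, 0), 1, 0), ((6, 1),
    1, 4), ((7, 5), 1, 2), ((7, 8), 1, 6)]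
  Tb := [((0, 1, 6), 0, 4, 1), ((1, 0, 2), 4, 0, 3), ((1, 0, 6), 4, 0, 1), ((1, 0, 9), 4, 0, 5),
    ((1, 2, 6), 4, 3, 1), ((1, 2, 9), 4, 3, 5), ((1, 6, 9), 4, 1, 5), ((2, 1, 4), 3, 4, 7),
    ((3, 4, 5), 0, 7, 2), ((4, 2, 3), 7, 3, 0), ((5, 3, 7), 2, 0, 1), ((6, 0, 1), 1, 0, 4),
    ((7, 5, 8), 1, 2, 6), ((8, 7, 9), 6, 1, 5), ((9, 1, 8), 5, 4, 6)]
  Tc := []
  Td := [((0, 3), (0, 1), 4), ((0, 3), (0, 6), 1), ((0, 3), (3, 4), 7), ((0, 3), (3, 5), 2), ((3,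
    0), (2, 1), 4), ((3, 0), (2, 4), 7), ((4, 6), (1, 0), 0), ((4, 6), (1, 2), 3), ((4, 6),
    (1, 6), 1), ((4, 6), (1, 9), 5), ((6, 4), (8, 7), 1), ((6, 4), (8, 9), 5)]
  G := [[0, 0x8ace14184c668c8146a2e1812e, 0, 0,
    0x198d189155898c41558a8161154c3854cd2834544d1859cd2892e], [0, 0, 0,
    0x128d181448441354284c983251281c291d48692d14d2e,
    0x128d18132d18c4246d181424cd18612d18296d18d2e], [0, 0, 0x591d248591d284591d282e1, 0,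
    0x91518a8191d28a4544d18541d28a4591d284591d289155898a6d], [0, 0,
    0x231d848591d82434219c42e1, 0x31924543192454a82443198c291d483152898e43,
    0x591d823251581aa8591d8252cd18c2153898263]]

noncomputable def n2628 : Ent := ⟨e2628, noF, [], [], []⟩

def c2628 : PLift (Cov.check n2628.C.D v2628 = true) := ⟨by decide +kernel⟩

def b2628 : PLift (entF (fidx ts) 400 2628 n2628 = true) := ⟨by decide +kernel⟩

theorem g2628 : GoodF (fidx ts) 400 2628 := GoodF.ofV v2628 n2628 c2628.down b2628.down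

/-- 4647474:2137 -/
noncomputable def e2629 : SCfg where
  D := {
    a := 7
    L := 11
    kp := 8
    inn := [(0, 1), (1, 0), (1, 2), (1, 3), (2, 1), (3, 1), (3, 4), (3, 5), (4, 3), (4, 5), (5, 3), (5,
      4), (5, 6), (6, 5)]
    mix := [(0, 0), (0, 1), (0, 2), (1, 0), (1, 2), (1, 3), (2, 2), (2, 3), (2, 4), (3, 0), (3, 3), (3,
      5), (3, 6), (4, 5), (4, 7), (5, 6), (5, 7), (5, 8), (5, 9), (6, 6), (6, 9), (6, 10)]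
    cl := [0, 7, 3, 0, 8, 2, 1, 1, 5, 4, 6]
    chq := [(0, 3), (3, 0), (5, 6), (6, 5)]
    rng := [(0, 1), (0, 6), (1, 0), (1, 2), (2, 1), (2, 4), (3, 4), (3, 5), (4, 2), (4, 3), (5, 3), (5,
      7), (6, 0), (6, 10), (7, 5), (7, 8), (8, 7), (8, 9), (9, 8), (9, 10), (10, 6), (10, 9)]
    lev := [] }
  links := [[1, 7, 8, 9], [7, 0, 9, 2, 10, 3], [10, 1, 9, 11], [7, 1, 10, 12, 4, 5, 13], [5, 3, 12, 14],
    [13, 3, 4, 14, 15, 16, 6], [13, 5, 16, 17]]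
  P := {
    a := 7
    N := 18
    nb := [898, 1677, 3586, 13490, 20520, 122968, 204832, 8459, 641, 2311, 6158, 1540, 17432, 131304,
      36912, 81952, 163936, 73792]
    tri := [(0, 1, 7), (0, 1, 9), (0, 7, 8), (0, 8, 9), (1, 2, 9), (1, 2, 10), (1, 3, 7), (1, 3, 10),
      (2, 9, 11), (2, 10, 11), (3, 4, 5), (3, 4, 12), (3, 5, 13), (3, 7, 13), (3, 10, 12), (4, 5,
      14), (4, 12, 14), (5, 6, 13), (5, 6, 16), (5, 14, 15), (5, 15, 16), (6, 13, 17), (6, 16,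
      17)]
    fin := [0, 0, 0, 3, 3, 5, 5, 0, 8, 9, 0, 11, 12, 3, 3, 5, 16, 17]
    chd := [(0, 9), (5, 17)]
    steps := [(0, 1), (0, 2), (0, 7), (0, 10), (3, 4), (3, 14), (3, 13), (5, 6), (5, 15)] }
  rep := [0, 3, 12, 9, 16, 5, 17, 8, 11]

noncomputable def v2629 : Cov.CovD where
  P := 3
  N := 6
  pl := [1, 4, 5, 9]
  lev := [⟨[], [], [(0, 3)], [7], [(0, 0, [3]), (2, 3, [0])]⟩,
    ⟨[], [(0, 0), (0, 3)], [(0, 0), (0, 3)], [], [(0, 0, [3]), (2, 3, [0]), (3, 0, [3])]⟩,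
    ⟨[(0, 1)], [(0, 3), (1, 0), (1, 3)], [(0, 3)], [8], [(2, 3, [0]), (3, 0, [3])]⟩,
    ⟨[(0, 1), (1, 2)], [(0, 0), (1, 0), (1, 1), (1, 3), (2, 0)], [(0, 0), (0, 1)], [2],
      [(0, 0, [3]), (3, 0, [3]), (6, 1, [])]⟩,
    ⟨[(1, 3)], [(3, 0), (3, 1)], [], [2], [(7, 1, [])]⟩,
    ⟨[(1, 3), (3, 4)], [(3, 0), (3, 1), (3, 5), (4, 1), (4, 5)], [(1, 1), (1, 5)], [4],
      [(6, 1, []), (7, 1, []), (8, 5, [6])]⟩,
    ⟨[(3, 5), (4, 5)], [(3, 1), (5, 1), (5, 5), (5, 6)], [(1, 6)], [4], [(6, 1, []), (10,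
      6, [5])]⟩]
  Ta := [((0, 1), 0, 7), ((0, 6), 0, 1), ((3, 4), 0, 8), ((3, 5), 0, 2), ((6, 0), 1, 0), ((6,
    10), 1, 6), ((7, 5), 1, 2), ((7, 8), 1, 5)]
  Tb := [((0, 1, 6), 0, 7, 1), ((1, 0, 2), 7, 0, 3), ((2, 1, 4), 3, 7, 8), ((3, 4, 5), 0, 8, 2),
    ((4, 2, 3), 8, 3, 0), ((5, 3, 7), 2, 0, 1), ((6, 0, 10), 1, 0, 6), ((7, 5, 8), 1, 2, 5),
    ((8, 7, 9), 5, 1, 4), ((9, 8, 10), 4, 5, 6), ((10, 6, 9), 6, 1, 4)]
  Tc := []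
  Td := [((0, 3), (0, 1), 7), ((0, 3), (0, 6), 1), ((0, 3), (3, 4), 8), ((0, 3), (3, 5), 2), ((3,
    0), (2, 1), 7), ((3, 0), (2, 4), 8), ((5, 6), (8, 7), 1), ((5, 6), (8, 9), 4), ((6, 5),
    (10, 6), 1), ((6, 5), (10, 9), 4)]
  G := [[0, 0x6ace84186ace48146caa45412e, 0, 0,
    0x59cd2859cd28c9c558981659cd185c994383459cd2859cd1852e], [0, 0, 0,
    0x32ad8423cd143852ad18942699894a2568c4296d4852e,
    0x59cd121296d184c365289813c5289826e652898236d1892e], [0, 0, 0x59cd24859cd4845c994642e1,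
    0, 0x59cd2859cd28a29c558a859cd28c259cd189c55898c59cd2826b], [0, 0,
    0x236d84836528c84243a9c42e1, 0x2483a98c2424379c44836528c88269c21c48236d48432cd482ef,
    0x692d188432ad182232ad184459cd1282a55898432ad182ef]]

noncomputable def n2629 : Ent := ⟨e2629, noF, [], [], [(8, 17, [6903326391201334775872065844685381424292761054348340378595029940453377, 0])]⟩

def c2629 : PLift (Cov.check n2629.C.D v2629 = true) := ⟨by decide +kernel⟩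

def b2629 : PLift (entF (fidx ts) 400 2629 n2629 = true) := ⟨by decide +kernel⟩

theorem g2629 : GoodF (fidx ts) 400 2629 := GoodF.ofV v2629 n2629 c2629.down b2629.down

/-- 4646774:2140/1 -/
noncomputable def e2630 : SCfg where
  D := {
    a := 7
    L := 10
    kp := 7
    inn := [(0, 1), (1, 0), (1, 2), (1, 3), (1, 5), (2, 1), (2, 3), (3, 1), (3, 2), (3, 4), (3, 5), (4,
      3), (4, 5), (4, 6), (5, 1), (5, 3), (5, 4), (6, 4)]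
    mix := [(0, 0), (0, 1), (0, 2), (1, 0), (1, 2), (2, 2), (2, 3), (3, 3), (3, 4), (4, 4), (4, 5), (4,
      6), (4, 7), (5, 0), (5, 7), (5, 8), (5, 9), (6, 1), (6, 5), (6, 6)]
    cl := [0, 2, 3, 4, 1, 5, 1, 0, 6, 7]
    chq := [(0, 3), (0, 4), (3, 0), (4, 0)]
    rng := [(0, 1), (0, 9), (1, 0), (1, 2), (1, 5), (1, 6), (2, 1), (2, 3), (3, 2), (3, 4), (4, 3), (4,
      5), (5, 1), (5, 4), (6, 1), (6, 7), (7, 6), (7, 8), (8, 7), (8, 9), (9, 0), (9, 8)]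
    lev := [] }
  links := [[1, 7, 8, 9], [7, 0, 9, 2, 3, 5], [3, 1, 9, 10], [5, 1, 2, 10, 11, 4], [5, 3, 11, 12, 6, 13,
    14], [7, 1, 3, 4, 14, 15, 16], [13, 4, 12, 8]]
  P := {
    a := 7
    N := 17
    nb := [898, 685, 1546, 3126, 30824, 114842, 12560, 65827, 12993, 1287, 2572, 5144, 2384, 16720,
      41008, 81952, 32928]
    tri := [(0, 1, 7), (0, 1, 9), (0, 7, 8), (0, 8, 9), (1, 2, 3), (1, 2, 9), (1, 3, 5), (1, 5, 7), (2,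
      3, 10), (2, 9, 10), (3, 4, 5), (3, 4, 11), (3, 10, 11), (4, 5, 14), (4, 6, 12), (4, 6, 13),
      (4, 11, 12), (4, 13, 14), (5, 7, 16), (5, 14, 15), (5, 15, 16), (6, 8, 12), (6, 8, 13)]
    fin := [0, 0, 0, 0, 4, 0, 6, 0, 6, 9, 10, 4, 12, 4, 0, 15, 16]
    chd := [(0, 9), (0, 10)]
    steps := [(0, 1), (0, 2), (0, 3), (0, 5), (0, 7), (0, 14), (4, 11), (4, 13), (6, 8)] }
  rep := [0, 4, 6, 9, 10, 12, 15, 16]

noncomputable def v2630 : Cov.CovD where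
  P := 3
  N := 5
  pl := [1, 5, 8, 9]
  lev := [⟨[], [], [(0, 3)], [2], [(0, 0, [3, 4]), (2, 3, [0])]⟩,
    ⟨[], [(0, 0), (0, 3)], [(0, 3)], [], [(0, 0, [3, 4]), (2, 3, [0])]⟩,
    ⟨[(0, 1)], [(0, 3), (1, 0), (1, 3), (1, 4)], [(3, 4)], [], [(2, 3, [0]), (3, 4, [0])]⟩,
    ⟨[(0, 1), (1, 2)], [(1, 0), (1, 1), (1, 3), (1, 4), (2, 1), (2, 3), (2, 4)], [(1, 4)],
      [], [(3, 4, [0]), (4, 1, [])]⟩,
    ⟨[(1, 3), (2, 3)], [(3, 0), (3, 1), (3, 4)], [(0, 1), (1, 1)], [5], [(4, 1, []), (6, 1,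
      []), (7, 0, [3, 4])]⟩,
    ⟨[(0, 1), (1, 2), (1, 3), (1, 4), (2, 3), (3, 4)], [(0, 0), (1, 0), (1, 3), (3, 0), (3,
      1), (3, 4), (4, 0), (4, 1)], [(0, 0)], [6, 7], [(0, 0, [3, 4]), (7, 0, [3, 4])]⟩,
    ⟨[(3, 4), (4, 5)], [(4, 0), (4, 1)], [], [2, 5], [(6, 1, [])]⟩]
  Ta := [((0, 1), 0, 2), ((0, 9), 0, 7), ((4, 3), 1, 4), ((4, 5), 1, 5), ((6, 1), 1, 2), ((6, 7),
    1, 0), ((7, 6), 0, 1), ((7, 8), 0, 6)]
  Tb := [((0, 1, 9), 0, 2, 7), ((1, 0, 2), 2, 0, 3), ((1, 0, 5), 2, 0, 5), ((1, 0, 6), 2, 0, 1),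
    ((1, 2, 5), 2, 3, 5), ((1, 2, 6), 2, 3, 1), ((1, 5, 6), 2, 5, 1), ((2, 1, 3), 3, 2, 4),
    ((3, 2, 4), 4, 3, 1), ((4, 3, 5), 1, 4, 5), ((5, 1, 4), 5, 2, 1), ((6, 1, 7), 1, 2, 0),
    ((7, 6, 8), 0, 1, 6), ((8, 7, 9), 6, 0, 7), ((9, 0, 8), 7, 0, 6)]
  Tc := [(0, 3, 4)]
  Td := [((0, 3), (0, 1), 2), ((0, 3), (0, 9), 7), ((0, 3), (7, 6), 1), ((0, 3), (7, 8), 6), ((0,
    4), (0, 1), 2), ((0, 4), (0, 9), 7), ((0, 4), (7, 6), 1), ((0, 4), (7, 8), 6), ((3, 0),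
    (2, 1), 2), ((3, 0), (2, 3), 4), ((4, 0), (3, 2), 3), ((4, 0), (3, 4), 1)]
  G := [[0, 0, 0x886246c11828a44ac11428c42cc112e, 0,
    0x88612c8234c51a2c12828982a4d1c288e81224221c324a8598245c16a], [0, 0,
    0xc418242c3148411a488858242c31488121c4121ce, 0x82116c1218c48c12a8244ac1218c14c126c,
    0x928259448212c7118c98c21c188e12c1291c491c4916a], [0, 0, 0, 0,
    0x8862224d2445188222c1283c22c51828c144d161282a28d28c18c914b], [0,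
    0x8244a8cce21822124241484e8cc6488ec4cac5e1, 0, 0x886146c1281844ac1248281258c11cc126d,
    0x144218188e91ac1248212c984611292c18c8a194412eb]]

noncomputable def n2630 : Ent := ⟨e2630, noF, [], [], []⟩

def c2630 : PLift (Cov.check n2630.C.D v2630 = true) := ⟨by decide +kernel⟩

def b2630 : PLift (entF (fidx ts) 400 2630 n2630 = true) := ⟨by decide +kernel⟩

theorem g2630 : GoodF (fidx ts) 400 2630 := GoodF.ofV v2630 n2630 c2630.down b2630.down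

/-- 4646774:2140/2 -/
noncomputable def e2631 : SCfg where
  D := {
    a := 7
    L := 10
    kp := 7
    inn := [(0, 1), (1, 0), (1, 2), (1, 3), (1, 5), (2, 1), (2, 3), (3, 1), (3, 2), (3, 4), (3, 5), (4,
      3), (4, 5), (4, 6), (5, 1), (5, 3), (5, 4), (6, 4)]
    mix := [(0, 0), (0, 1), (0, 2), (1, 0), (1, 2), (2, 2), (2, 3), (3, 3), (3, 4), (4, 4), (4, 5), (4,
      6), (4, 7), (5, 0), (5, 7), (5, 8), (5, 9), (6, 2), (6, 5), (6, 6)]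
    cl := [0, 5, 1, 3, 2, 4, 2, 0, 6, 7]
    chq := [(0, 1), (0, 3), (1, 0), (3, 0)]
    rng := [(0, 1), (0, 9), (1, 0), (1, 2), (2, 1), (2, 3), (2, 5), (2, 6), (3, 2), (3, 4), (4, 3), (4,
      5), (5, 2), (5, 4), (6, 2), (6, 7), (7, 6), (7, 8), (8, 7), (8, 9), (9, 0), (9, 8)]
    lev := [] }
  links := [[1, 7, 8, 9], [7, 0, 9, 2, 3, 5], [3, 1, 9, 10], [5, 1, 2, 10, 11, 4], [5, 3, 11, 12, 6, 13,
    14], [7, 1, 3, 4, 14, 15, 16], [13, 4, 12, 9]]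
  P := {
    a := 7
    N := 17
    nb := [898, 685, 1546, 3126, 30824, 114842, 12816, 65827, 641, 13639, 2572, 5144, 2640, 16976,
      41008, 81952, 32928]
    tri := [(0, 1, 7), (0, 1, 9), (0, 7, 8), (0, 8, 9), (1, 2, 3), (1, 2, 9), (1, 3, 5), (1, 5, 7), (2,
      3, 10), (2, 9, 10), (3, 4, 5), (3, 4, 11), (3, 10, 11), (4, 5, 14), (4, 6, 12), (4, 6, 13),
      (4, 11, 12), (4, 13, 14), (5, 7, 16), (5, 14, 15), (5, 15, 16), (6, 9, 12), (6, 9, 13)]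
    fin := [0, 0, 0, 0, 4, 0, 6, 0, 8, 6, 10, 4, 12, 4, 0, 15, 16]
    chd := [(0, 6), (0, 10)]
    steps := [(0, 1), (0, 2), (0, 3), (0, 5), (0, 7), (0, 14), (4, 11), (4, 13), (6, 9)] }
  rep := [0, 6, 4, 10, 12, 8, 15, 16]

noncomputable def v2631 : Cov.CovD where
  P := 3
  N := 5
  pl := [1, 5, 8, 9]
  lev := [⟨[], [], [(0, 1)], [5], [(0, 0, [1, 3]), (2, 1, [0])]⟩,
    ⟨[], [(0, 0), (0, 1)], [(0, 1)], [], [(0, 0, [1, 3]), (2, 1, [0])]⟩,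
    ⟨[(0, 1)], [(0, 1), (1, 0), (1, 1), (1, 3)], [(1, 3)], [], [(2, 1, [0]), (3, 3, [0])]⟩,
    ⟨[(0, 1), (1, 2)], [(1, 0), (1, 1), (1, 2), (1, 3), (2, 1), (2, 2), (2, 3)], [(2, 3)],
      [], [(3, 3, [0]), (4, 2, [])]⟩,
    ⟨[(1, 3), (2, 3)], [(3, 0), (3, 2), (3, 3)], [(0, 2), (2, 2)], [4], [(4, 2, []), (6, 2,
      []), (7, 0, [1, 3])]⟩,
    ⟨[(0, 1), (1, 2), (1, 3), (1, 4), (2, 3), (3, 4)], [(0, 0), (1, 0), (1, 1), (3, 0), (3,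
      2), (3, 3), (4, 0), (4, 2)], [(0, 0)], [6, 7], [(0, 0, [1, 3]), (7, 0, [1, 3])]⟩,
    ⟨[(3, 4), (4, 5)], [(0, 1), (1, 1), (2, 1), (4, 0), (4, 1), (4, 2)], [(1, 2)], [4],
      [(2, 1, [0]), (6, 2, [])]⟩]
  Ta := [((0, 1), 0, 5), ((0, 9), 0, 7), ((4, 3), 2, 3), ((4, 5), 2, 4), ((6, 2), 2, 1), ((6, 7),
    2, 0), ((7, 6), 0, 2), ((7, 8), 0, 6)]
  Tb := [((0, 1, 9), 0, 5, 7), ((1, 0, 2), 5, 0, 1), ((2, 1, 3), 1, 5, 3), ((2, 1, 5), 1, 5, 4),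
    ((2, 1, 6), 1, 5, 2), ((2, 3, 5), 1, 3, 4), ((2, 3, 6), 1, 3, 2), ((2, 5, 6), 1, 4, 2),
    ((3, 2, 4), 3, 1, 2), ((4, 3, 5), 2, 3, 4), ((5, 2, 4), 4, 1, 2), ((6, 2, 7), 2, 1, 0),
    ((7, 6, 8), 0, 2, 6), ((8, 7, 9), 6, 0, 7), ((9, 0, 8), 7, 0, 6)]
  Tc := [(0, 1, 3)]
  Td := [((0, 1), (0, 1), 5), ((0, 1), (0, 9), 7), ((0, 1), (7, 6), 2), ((0, 1), (7, 8), 6), ((0,
    3), (0, 1), 5), ((0, 3), (0, 9), 7), ((0, 3), (7, 6), 2), ((0, 3), (7, 8), 6), ((1, 0),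
    (2, 1), 5), ((1, 0), (2, 3), 3), ((1, 0), (2, 5), 4), ((1, 0), (2, 6), 2), ((3, 0), (3,
    2), 1), ((3, 0), (3, 4), 2)]
  G := [[0, 0x2414118644ac122c122a1c3c666126ce1c11848c12cc, 0, 0,
    0x88688444ebc55e23148244c884eb82c54ea318c], [0, 0x1211ac1211c14c12611a44ac1c41234a, 0,
    0x1242c8242948cc4c9e1442825844884cd8242cb18c, 0x88614a141891aa14c881886911ea348c], [0,
    0x88142ace1852886411ec1282aae14118818ae, 0, 0, 0x588e444e9c9ce23141], [0,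
    0x118e41ac1441234116116c1c81238a, 0xccce288644a84cea141, 0x144211242c18c48c1242cb1c1,
    0x886911ea1418821c1]]

noncomputable def n2631 : Ent := ⟨e2631, noF, [], [], []⟩

def c2631 : PLift (Cov.check n2631.C.D v2631 = true) := ⟨by decide +kernel⟩

def b2631 : PLift (entF (fidx ts) 400 2631 n2631 = true) := ⟨by decide +kernel⟩

theorem g2631 : GoodF (fidx ts) 400 2631 := GoodF.ofV v2631 n2631 c2631.down b2631.down

/-- 4646774:2140 -/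
noncomputable def e2632 : SCfg where
  D := {
    a := 7
    L := 11
    kp := 9
    inn := [(0, 1), (1, 0), (1, 2), (1, 3), (1, 5), (2, 1), (2, 3), (3, 1), (3, 2), (3, 4), (3, 5), (4,
      3), (4, 5), (4, 6), (5, 1), (5, 3), (5, 4), (6, 4)]
    mix := [(0, 0), (0, 1), (0, 2), (1, 0), (1, 2), (2, 2), (2, 3), (3, 3), (3, 4), (4, 4), (4, 5), (4,
      6), (4, 7), (5, 0), (5, 7), (5, 8), (5, 9), (6, 5), (6, 6), (6, 10)]
    cl := [0, 8, 4, 2, 1, 3, 5, 3, 6, 7, 9]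
    chq := [(0, 1), (0, 2), (0, 4), (1, 0), (1, 6), (1, 7), (2, 0), (4, 0), (6, 1), (7, 1)]
    rng := [(0, 1), (0, 9), (1, 0), (1, 2), (2, 1), (2, 3), (3, 2), (3, 4), (4, 3), (4, 5), (5, 4), (5,
      10), (6, 7), (6, 10), (7, 6), (7, 8), (8, 7), (8, 9), (9, 0), (9, 8), (10, 5), (10, 6)]
    lev := [] }
  links := [[1, 7, 8, 9], [7, 0, 9, 2, 3, 5], [3, 1, 9, 10], [5, 1, 2, 10, 11, 4], [5, 3, 11, 12, 6, 13,
    14], [7, 1, 3, 4, 14, 15, 16], [13, 4, 12, 17]]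
  P := {
    a := 7
    N := 18
    nb := [898, 685, 1546, 3126, 30824, 114842, 143376, 65827, 641, 1287, 2572, 5144, 133200, 147536,
      41008, 81952, 32928, 12352]
    tri := [(0, 1, 7), (0, 1, 9), (0, 7, 8), (0, 8, 9), (1, 2, 3), (1, 2, 9), (1, 3, 5), (1, 5, 7), (2,
      3, 10), (2, 9, 10), (3, 4, 5), (3, 4, 11), (3, 10, 11), (4, 5, 14), (4, 6, 12), (4, 6, 13),
      (4, 11, 12), (4, 13, 14), (5, 7, 16), (5, 14, 15), (5, 15, 16), (6, 12, 17), (6, 13, 17)]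
    fin := [0, 0, 0, 3, 4, 3, 4, 0, 8, 9, 10, 3, 4, 13, 4, 15, 16, 17]
    chd := [(0, 3), (0, 9), (0, 10), (3, 15), (3, 16)]
    steps := [(0, 1), (0, 2), (0, 7), (3, 5), (3, 11), (4, 6), (4, 12), (4, 14)] }
  rep := [0, 3, 10, 4, 9, 13, 15, 16, 8, 17]

noncomputable def v2632 : Cov.CovD where
  P := 3
  N := 7
  pl := [1, 6, 10]
  lev := [⟨[], [], [(0, 4)], [8], [(0, 0, [1, 2, 4]), (2, 4, [0])]⟩,
    ⟨[], [(0, 0), (0, 4)], [(0, 4)], [], [(0, 0, [1, 2, 4]), (2, 4, [0])]⟩,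
    ⟨[(0, 1)], [(0, 4), (1, 0), (1, 2), (1, 4)], [(2, 4)], [], [(2, 4, [0]), (3, 2, [0])]⟩,
    ⟨[(0, 1), (1, 2)], [(1, 0), (1, 1), (1, 2), (1, 4), (2, 1), (2, 2), (2, 4)], [(1, 2)],
      [], [(3, 2, [0]), (4, 1, [0, 6, 7])]⟩,
    ⟨[(1, 3), (2, 3)], [(3, 1), (3, 2), (3, 3)], [(1, 3), (3, 3)], [5], [(4, 1, [0, 6, 7]),
      (5, 3, []), (7, 3, [])]⟩,
    ⟨[(0, 1), (1, 2), (1, 3), (1, 4), (2, 3), (3, 4)], [(0, 0), (1, 0), (1, 3), (1, 4), (1,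
      6), (1, 7), (3, 0), (3, 1), (3, 2), (3, 3), (3, 6), (3, 7), (4, 0), (4, 1), (4, 3), (4,
      6), (4, 7)], [(0, 3), (0, 6), (0, 7), (3, 6), (3, 7), (6, 7)], [], [(0, 0, [1, 2, 4]),
      (7, 3, []), (8, 6, [1]), (9, 7, [1])]⟩,
    ⟨[(3, 4), (4, 5)], [(4, 1), (4, 3)], [], [5, 9], [(5, 3, [])]⟩]
  Ta := [((5, 4), 3, 1), ((5, 10), 3, 9), ((7, 6), 3, 5), ((7, 8), 3, 6)]
  Tb := [((0, 1, 9), 0, 8, 7), ((1, 0, 2), 8, 0, 4), ((2, 1, 3), 4, 8, 2), ((3, 2, 4), 2, 4, 1),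
    ((4, 3, 5), 1, 2, 3), ((5, 4, 10), 3, 1, 9), ((6, 7, 10), 5, 3, 9), ((7, 6, 8), 3, 5, 6),
    ((8, 7, 9), 6, 3, 7), ((9, 0, 8), 7, 0, 6), ((10, 5, 6), 9, 3, 5)]
  Tc := [(0, 1, 2), (0, 1, 4), (0, 2, 4), (1, 0, 6), (1, 0, 7), (1, 6, 7)]
  Td := [((0, 1), (0, 1), 8), ((0, 1), (0, 9), 7), ((0, 2), (0, 1), 8), ((0, 2), (0, 9), 7), ((0,
    4), (0, 1), 8), ((0, 4), (0, 9), 7), ((1, 0), (4, 3), 2), ((1, 0), (4, 5), 3), ((1, 6),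
    (4, 3), 2), ((1, 6), (4, 5), 3), ((1, 7), (4, 3), 2), ((1, 7), (4, 5), 3), ((2, 0), (3,
    2), 4), ((2, 0), (3, 4), 1), ((4, 0), (2, 1), 8), ((4, 0), (2, 3), 2), ((6, 1), (8, 7),
    3), ((6, 1), (8, 9), 7), ((7, 1), (9, 0), 0), ((7, 1), (9, 8), 6)]
  G := [[0, 0x911131e414148141481e11d1b182f8188c18455149131ac12e, 0x624a2329c162325a28c1c1,
    0x321a262c51862325a28c1262325a28c1321a262c51ce,
    0xb272c118281223298333611828398e62325a2891462325a2892321a262c92ce], [0,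
    0x61a131e4186151c1e814615131e812e, 0xa29232d41526232d84c1,
    0xa292c2d418a262c2d142a262c2d185262c2d14ce,
    0xc211a292c1332181c526232d814a292c2d12a262c2d12ce]]

noncomputable def n2632 : Ent := ⟨e2632, noF, [], [], [(8, 17, [6903326391201334775872065844685381424292761054348340378595029940461569, 0]), (9, 17, [6903326391201334775872065844685381424292761054348340378595029940465665, 0])]⟩

def c2632 : PLift (Cov.check n2632.C.D v2632 = true) := ⟨by decide +kernel⟩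

def b2632 : PLift (entF (fidx ts) 400 2632 n2632 = true) := ⟨by decide +kernel⟩

theorem g2632 : GoodF (fidx ts) 400 2632 := GoodF.ofV v2632 n2632 c2632.down b2632.down

/-- 4748644:2141/1 -/
noncomputable def e2633 : SCfg where
  D := {
    a := 7
    L := 10
    kp := 7
    inn := [(0, 1), (0, 3), (1, 0), (1, 2), (1, 3), (2, 1), (2, 3), (3, 0), (3, 1), (3, 2), (3, 4), (4,
      3), (4, 5), (4, 6), (5, 4), (6, 4)]
    mix := [(0, 0), (0, 1), (1, 0), (1, 2), (1, 3), (1, 4), (2, 2), (2, 5), (3, 1), (3, 5), (3, 6), (3,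
      7), (4, 1), (4, 6), (4, 8), (5, 0), (5, 1), (5, 8), (6, 6), (6, 8), (6, 9)]
    cl := [1, 0, 1, 4, 5, 2, 0, 6, 3, 7]
    chq := [(0, 2), (0, 3), (2, 0), (3, 0)]
    rng := [(0, 1), (0, 4), (0, 8), (1, 0), (2, 3), (2, 5), (3, 2), (3, 4), (4, 0), (4, 3), (5, 2), (5,
      7), (6, 7), (6, 9), (7, 5), (7, 6), (8, 0), (8, 9), (9, 6), (9, 8)]
    lev := [] }
  links := [[1, 7, 8, 3], [7, 0, 3, 2, 9, 10, 11], [9, 1, 3, 12], [12, 2, 1, 0, 8, 4, 13, 14], [13, 3, 8,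
    5, 15, 6], [15, 4, 8, 7], [13, 4, 15, 16]]
  P := {
    a := 7
    N := 17
    nb := [394, 3725, 4618, 28951, 41320, 33168, 106512, 35107, 185, 5126, 2562, 1154, 16908, 82008,
      12296, 65776, 41024]
    tri := [(0, 1, 3), (0, 1, 7), (0, 3, 8), (0, 7, 8), (1, 2, 3), (1, 2, 9), (1, 7, 11), (1, 9, 10),
      (1, 10, 11), (2, 3, 12), (2, 9, 12), (3, 4, 8), (3, 4, 13), (3, 12, 14), (3, 13, 14), (4, 5,
      8), (4, 5, 15), (4, 6, 13), (4, 6, 15), (5, 7, 8), (5, 7, 15), (6, 13, 16), (6, 15, 16)]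
    fin := [0, 0, 0, 3, 0, 0, 3, 0, 3, 0, 10, 11, 12, 3, 14, 15, 16]
    chd := [(3, 12), (3, 15)]
    steps := [(0, 1), (0, 2), (0, 7), (0, 5), (0, 9), (3, 8), (0, 4), (3, 13), (3, 6)] }
  rep := [3, 0, 12, 15, 10, 11, 14, 16]

noncomputable def v2633 : Cov.CovD where
  P := 3
  N := 5
  pl := [3, 4, 7, 9]
  lev := [⟨[], [], [(0, 1)], [], [(0, 1, []), (1, 0, [2, 3])]⟩,
    ⟨[], [(0, 0), (0, 1)], [(1, 1)], [4, 5], [(0, 1, []), (2, 1, [])]⟩,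
    ⟨[(0, 1)], [(1, 1), (1, 2)], [(1, 2)], [], [(2, 1, []), (5, 2, [0])]⟩,
    ⟨[(0, 1), (0, 2), (1, 2)], [(0, 0), (0, 1), (0, 2), (1, 0), (1, 1), (1, 2), (2, 0), (2,
      1), (2, 2)], [(0, 0), (0, 2)], [6], [(1, 0, [2, 3]), (5, 2, [0]), (6, 0, [2, 3])]⟩,
    ⟨[(0, 3), (1, 3), (2, 3)], [(0, 0), (3, 0), (3, 2), (3, 3)], [(0, 0), (0, 3)], [], [(1,
      0, [2, 3]), (6, 0, [2, 3]), (8, 3, [0])]⟩,
    ⟨[(3, 4)], [(0, 0), (0, 1), (1, 1), (3, 0), (4, 0), (4, 1), (4, 3)], [(0, 1), (0, 3),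
      (1, 3)], [], [(0, 1, []), (1, 0, [2, 3]), (8, 3, [0])]⟩,
    ⟨[(3, 4), (4, 5)], [(3, 0), (4, 0), (4, 3), (5, 3)], [(0, 3)], [7], [(6, 0, [2, 3]),
      (8, 3, [0])]⟩]
  Ta := [((0, 1), 1, 0), ((0, 4), 1, 5), ((0, 8), 1, 3), ((1, 0), 0, 1), ((2, 3), 1, 4), ((2, 5),
    1, 2), ((6, 7), 0, 6), ((6, 9), 0, 7)]
  Tb := [((0, 1, 4), 1, 0, 5), ((0, 1, 8), 1, 0, 3), ((0, 4, 8), 1, 5, 3), ((2, 3, 5), 1, 4, 2),
    ((3, 2, 4), 4, 1, 5), ((4, 0, 3), 5, 1, 4), ((5, 2, 7), 2, 1, 6), ((6, 7, 9), 0, 6, 7),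
    ((7, 5, 6), 6, 2, 0), ((8, 0, 9), 3, 1, 7), ((9, 6, 8), 7, 0, 3)]
  Tc := [(0, 2, 3)]
  Td := [((0, 2), (1, 0), 1), ((0, 2), (6, 7), 6), ((0, 2), (6, 9), 7), ((0, 3), (1, 0), 1), ((0,
    3), (6, 7), 6), ((0, 3), (6, 9), 7), ((2, 0), (5, 2), 1), ((2, 0), (5, 7), 6), ((3, 0),
    (8, 0), 1), ((3, 0), (8, 9), 7)]
  G := [[0, 0x141861812ac4181261812ac1141261412ac4e2, 0x144112a11845111161111aa1144112188e8d4,
    0, 0x14a86814d8623b41867814ca114a863854aa1d4], [0, 0, 0x112112a1112112a811211268d4,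
    0x14a8616c2c416c28a1c24516c2a1c2c1d2, 0xa1c21dc2a11262cd1c2a114a8662186a1d4], [0, 0,
    0x114112118e1144112118e451142112188c68c, 0,
    0xe1a86289a45ca1e1a86e12444ea8c1842d6e12444ea8d4], [0, 0, 0x1121126111211268112112c4d8,
    0xca524a6c289c6928a6c245ca52842d2c4d2, 0xca5228a246ca1842d228962ca8c692222284cea8d4]]

noncomputable def n2633 : Ent := ⟨e2633, noF, [], [], []⟩

def c2633 : PLift (Cov.check n2633.C.D v2633 = true) := ⟨by decide +kernel⟩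

def b2633 : PLift (entF (fidx ts) 400 2633 n2633 = true) := ⟨by decide +kernel⟩

theorem g2633 : GoodF (fidx ts) 400 2633 := GoodF.ofV v2633 n2633 c2633.down b2633.down

/-- 4748644:2141 -/
noncomputable def e2634 : SCfg where
  D := {
    a := 7
    L := 11
    kp := 8
    inn := [(0, 1), (0, 3), (1, 0), (1, 2), (1, 3), (2, 1), (2, 3), (3, 0), (3, 1), (3, 2), (3, 4), (4,
      3), (4, 5), (4, 6), (5, 4), (6, 4)]
    mix := [(0, 0), (0, 1), (1, 0), (1, 2), (1, 3), (1, 4), (2, 2), (2, 5), (3, 1), (3, 5), (3, 6), (3,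
      7), (4, 1), (4, 6), (4, 8), (5, 1), (5, 8), (5, 9), (6, 6), (6, 8), (6, 10)]
    cl := [1, 0, 1, 5, 6, 2, 0, 4, 3, 7, 8]
    chq := [(0, 3), (1, 4), (3, 0), (4, 1)]
    rng := [(0, 1), (0, 4), (1, 0), (1, 9), (2, 3), (2, 5), (3, 2), (3, 4), (4, 0), (4, 3), (5, 2), (5,
      7), (6, 7), (6, 10), (7, 5), (7, 6), (8, 9), (8, 10), (9, 1), (9, 8), (10, 6), (10, 8)]
    lev := [] }
  links := [[1, 7, 8, 3], [7, 0, 3, 2, 9, 10, 11], [9, 1, 3, 12], [12, 2, 1, 0, 8, 4, 13, 14], [13, 3, 8,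
    5, 15, 6], [15, 4, 8, 16], [13, 4, 15, 17]]
  P := {
    a := 7
    N := 18
    nb := [394, 3725, 4618, 28951, 41320, 98576, 172048, 2307, 65721, 5126, 2562, 1154, 16908, 147544,
      12296, 196720, 33056, 41024]
    tri := [(0, 1, 3), (0, 1, 7), (0, 3, 8), (0, 7, 8), (1, 2, 3), (1, 2, 9), (1, 7, 11), (1, 9, 10),
      (1, 10, 11), (2, 3, 12), (2, 9, 12), (3, 4, 8), (3, 4, 13), (3, 12, 14), (3, 13, 14), (4, 5,
      8), (4, 5, 15), (4, 6, 13), (4, 6, 15), (5, 8, 16), (5, 15, 16), (6, 13, 17), (6, 15, 17)]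
    fin := [0, 0, 0, 0, 4, 4, 4, 0, 4, 0, 10, 11, 12, 4, 14, 15, 16, 17]
    chd := [(0, 14), (4, 15)]
    steps := [(0, 1), (0, 2), (0, 3), (0, 7), (0, 9), (4, 5), (4, 6), (4, 8), (4, 13)] }
  rep := [4, 0, 12, 15, 14, 10, 11, 16, 17]

noncomputable def v2634 : Cov.CovD where
  P := 3
  N := 6
  pl := [3, 4, 5, 9, 10]
  lev := [⟨[], [], [(0, 1)], [], [(0, 1, [4]), (1, 0, [3])]⟩,
    ⟨[], [(0, 0), (0, 1)], [(1, 1)], [5, 6], [(0, 1, [4]), (2, 1, [4])]⟩,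
    ⟨[(0, 1)], [(1, 1)], [], [2], [(2, 1, [4])]⟩,
    ⟨[(0, 1), (0, 2), (1, 2)], [(0, 0), (0, 1), (0, 4), (1, 0), (1, 1), (1, 4), (2, 0), (2,
      1), (2, 4)], [(0, 0), (0, 4)], [2], [(1, 0, [3]), (6, 0, [3]), (7, 4, [1])]⟩,
    ⟨[(0, 3), (1, 3), (2, 3)], [(0, 0), (3, 0), (3, 3), (3, 4)], [(0, 0), (0, 3)], [], [(1,
      0, [3]), (6, 0, [3]), (8, 3, [0])]⟩,
    ⟨[(3, 4)], [(0, 0), (3, 0), (4, 0), (4, 3)], [(0, 3)], [7], [(1, 0, [3]), (8, 3, [0])]⟩,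
    ⟨[(3, 4), (4, 5)], [(3, 0), (4, 0), (4, 3), (5, 3)], [(0, 3)], [8], [(6, 0, [3]), (8,
      3, [0])]⟩]
  Ta := [((0, 1), 1, 0), ((0, 4), 1, 6), ((1, 0), 0, 1), ((1, 9), 0, 7), ((2, 3), 1, 5), ((2, 5),
    1, 2), ((6, 7), 0, 4), ((6, 10), 0, 8)]
  Tb := [((0, 1, 4), 1, 0, 6), ((1, 0, 9), 0, 1, 7), ((2, 3, 5), 1, 5, 2), ((3, 2, 4), 5, 1, 6),
    ((4, 0, 3), 6, 1, 5), ((5, 2, 7), 2, 1, 4), ((6, 7, 10), 0, 4, 8), ((7, 5, 6), 4, 2, 0),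
    ((8, 9, 10), 3, 7, 8), ((9, 1, 8), 7, 0, 3), ((10, 6, 8), 8, 0, 3)]
  Tc := []
  Td := [((0, 3), (1, 0), 1), ((0, 3), (1, 9), 7), ((0, 3), (6, 7), 4), ((0, 3), (6, 10), 8),
    ((1, 4), (0, 1), 0), ((1, 4), (0, 4), 6), ((1, 4), (2, 3), 5), ((1, 4), (2, 5), 2), ((3,
    0), (8, 9), 7), ((3, 0), (8, 10), 8), ((4, 1), (7, 5), 2), ((4, 1), (7, 6), 0)]
  G := [[0, 0x11c11a611c116ac111c11a611c116ac111c11a611c116ac8e2,
    0x51a966c2413a491ec2831a956c24d4, 0, 0x31a956c213aa966c213aa916c28d8], [0, 0,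
    0x1aab16c247aa116c2451a366c24d8, 0xc9c15a63cc196ac453c19a6811c6d6a4519ca5a61cc1d6ac8d2,
    0x31a966c287aa116c281aab16c21d4], [0, 0, 0x4a52647c246a8b61c286a3a65c24d4, 0,
    0x6a3a69c28a1a647c21a1a647c21d4], [0, 0, 0x6a9663c246a3a65c246a8b61c28d8,
    0xcc9ca366c9c65ac144c928a76884c7269a45c1cc2b6c16c27ac89c,
    0x6a8b61c21a1a647c216a9c63c21d4]]

noncomputable def n2634 : Ent := ⟨e2634, noF, [], [], [(7, 16, [7334685537875745012586738086077695515070955365108989538292687704461313, 0])]⟩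

def c2634 : PLift (Cov.check n2634.C.D v2634 = true) := ⟨by decide +kernel⟩

def b2634 : PLift (entF (fidx ts) 400 2634 n2634 = true) := ⟨by decide +kernel⟩

theorem g2634 : GoodF (fidx ts) 400 2634 := GoodF.ofV v2634 n2634 c2634.down b2634.down

/-- 4646744:2143/2 -/
noncomputable def e2635 : SCfg where
  D := {
    a := 7
    L := 8
    kp := 6
    inn := [(0, 1), (1, 0), (1, 2), (1, 3), (2, 1), (2, 3), (3, 1), (3, 2), (3, 4), (4, 3), (4, 5), (4,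
      6), (5, 4), (6, 4)]
    mix := [(0, 0), (0, 1), (0, 2), (1, 0), (1, 2), (1, 3), (2, 2), (2, 4), (3, 3), (3, 4), (3, 5), (4,
      3), (4, 5), (4, 6), (4, 7), (5, 1), (5, 5), (5, 6), (6, 0), (6, 3), (6, 7)]
    cl := [0, 2, 1, 3, 5, 3, 6, 4]
    chq := [(0, 1), (0, 5), (1, 0), (2, 4), (3, 4), (4, 2), (4, 3), (5, 0)]
    rng := [(0, 1), (0, 3), (0, 7), (1, 0), (1, 2), (1, 5), (1, 6), (2, 1), (2, 4), (3, 0), (4, 2), (4,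
      5), (5, 1), (5, 4), (6, 1), (6, 7), (7, 0), (7, 6)]
    lev := [] }
  links := [[1, 7, 8, 9], [7, 0, 9, 2, 3, 10], [3, 1, 9, 11], [10, 1, 2, 11, 12, 4], [10, 3, 12, 5, 13,
    14, 6], [13, 4, 12, 8], [10, 4, 14, 7]]
  P := {
    a := 7
    N := 15
    nb := [898, 1677, 2570, 7190, 29800, 12560, 17552, 17731, 12961, 2311, 218, 4620, 2360, 16688,
      8400]
    tri := [(0, 1, 7), (0, 1, 9), (0, 7, 8), (0, 8, 9), (1, 2, 3), (1, 2, 9), (1, 3, 10), (1, 7, 10),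
      (2, 3, 11), (2, 9, 11), (3, 4, 10), (3, 4, 12), (3, 11, 12), (4, 5, 12), (4, 5, 13), (4, 6,
      10), (4, 6, 14), (4, 13, 14), (5, 8, 12), (5, 8, 13), (6, 7, 10), (6, 7, 14)]
    fin := [0, 0, 0, 3, 4, 4, 3, 0, 4, 9, 3, 11, 3, 13, 14]
    chd := [(0, 9), (0, 11), (3, 14), (4, 14)]
    steps := [(0, 1), (0, 2), (0, 7), (3, 12), (3, 10), (3, 6), (4, 5), (4, 8)] }
  rep := [0, 9, 4, 3, 14, 11, 13]

noncomputable def v2635 : Cov.CovD where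
  P := 3
  N := 4
  pl := [6]
  lev := [⟨[], [], [(0, 1), (0, 2), (1, 2)], [], [(0, 0, [1, 5]), (1, 2, [4]), (2, 1, [0])]⟩,
    ⟨[], [(0, 0), (0, 1), (0, 2), (0, 3)], [(0, 1), (0, 3), (1, 3)], [], [(0, 0, [1, 5]),
      (2, 1, [0]), (3, 3, [4])]⟩,
    ⟨[(0, 1)], [(0, 1), (1, 0), (1, 1), (1, 3), (1, 5)], [(1, 5)], [], [(2, 1, [0]), (4, 5,
      [0])]⟩,
    ⟨[(0, 1), (1, 2)], [(1, 0), (1, 1), (1, 3), (1, 5), (2, 1), (2, 3), (2, 5)], [(3, 3),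
      (3, 5)], [], [(3, 3, [4]), (4, 5, [0]), (5, 3, [4])]⟩,
    ⟨[(1, 3), (2, 3)], [(1, 3), (3, 3), (3, 4), (3, 5)], [(3, 3), (3, 4)], [6], [(3, 3,
      [4]), (5, 3, [4]), (7, 4, [2, 3])]⟩,
    ⟨[(3, 4)], [(0, 2), (3, 3), (4, 2), (4, 3), (4, 4)], [(2, 3)], [6], [(1, 2, [4]), (5,
      3, [4])]⟩,
    ⟨[(3, 4), (4, 5)], [(0, 0), (1, 0), (1, 3), (3, 3), (4, 0), (4, 3), (4, 4)], [(0, 3),
      (0, 4), (3, 4)], [], [(0, 0, [1, 5]), (3, 3, [4]), (7, 4, [2, 3])]⟩]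
  Ta := [((3, 0), 3, 0), ((5, 1), 3, 2), ((5, 4), 3, 5)]
  Tb := [((0, 1, 3), 0, 2, 3), ((0, 1, 7), 0, 2, 4), ((0, 3, 7), 0, 3, 4), ((1, 0, 2), 2, 0, 1),
    ((1, 0, 5), 2, 0, 3), ((1, 0, 6), 2, 0, 6), ((1, 2, 5), 2, 1, 3), ((1, 2, 6), 2, 1, 6),
    ((1, 5, 6), 2, 3, 6), ((2, 1, 4), 1, 2, 5), ((4, 2, 5), 5, 1, 3), ((5, 1, 4), 3, 2, 5),
    ((6, 1, 7), 6, 2, 4), ((7, 0, 6), 4, 0, 6)]
  Tc := [(0, 1, 5), (4, 2, 3)]
  Td := [((0, 1), (0, 1), 2), ((0, 1), (0, 3), 3), ((0, 1), (0, 7), 4), ((0, 5), (0, 1), 2), ((0,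
    5), (0, 3), 3), ((0, 5), (0, 7), 4), ((1, 0), (2, 1), 2), ((1, 0), (2, 4), 5), ((2, 4),
    (1, 0), 0), ((2, 4), (1, 2), 1), ((2, 4), (1, 5), 3), ((2, 4), (1, 6), 6), ((3, 4), (3,
    0), 0), ((3, 4), (5, 1), 2), ((3, 4), (5, 4), 5), ((4, 2), (7, 0), 0), ((4, 2), (7, 6),
    6), ((4, 3), (7, 0), 0), ((4, 3), (7, 6), 6), ((5, 0), (4, 2), 1), ((5, 0), (4, 5), 3)]
  G := [[0, 0x142831182431624, 0xeec114eec118c4, 0x22c21422c21cc9229c8,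
    0x4248942d484241b4494841744a4f148], [0, 0x181d22c31211211181422ce7a48,
    0xacae1184666e1148c, 0x181d222923148, 0x4842a1448a15424134281a1781282bcf1c8]]

noncomputable def n2635 : Ent := ⟨e2635, noF, [], [], []⟩

def c2635 : PLift (Cov.check n2635.C.D v2635 = true) := ⟨by decide +kernel⟩

def b2635 : PLift (entF (fidx ts) 400 2635 n2635 = true) := ⟨by decide +kernel⟩

theorem g2635 : GoodF (fidx ts) 400 2635 := GoodF.ofV v2635 n2635 c2635.down b2635.down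

/-- 4646744:2143/3 -/
noncomputable def e2636 : SCfg where
  D := {
    a := 7
    L := 8
    kp := 5
    inn := [(0, 1), (1, 0), (1, 2), (1, 3), (2, 1), (2, 3), (3, 1), (3, 2), (3, 4), (4, 3), (4, 5), (4,
      6), (5, 4), (6, 4)]
    mix := [(0, 0), (0, 1), (0, 2), (1, 0), (1, 2), (1, 3), (2, 2), (2, 4), (3, 3), (3, 4), (3, 5), (4,
      1), (4, 3), (4, 5), (4, 6), (5, 5), (5, 6), (5, 7), (6, 0), (6, 1), (6, 3)]
    cl := [3, 0, 2, 1, 1, 0, 4, 5]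
    chq := [(2, 3), (3, 2)]
    rng := [(0, 1), (0, 3), (1, 0), (1, 2), (1, 6), (2, 1), (2, 4), (3, 0), (4, 2), (4, 5), (5, 4), (5,
      7), (6, 1), (6, 7), (7, 5), (7, 6)]
    lev := [] }
  links := [[1, 7, 8, 9], [7, 0, 9, 2, 3, 10], [3, 1, 9, 11], [10, 1, 2, 11, 12, 4], [10, 3, 12, 5, 13,
    8, 6], [13, 4, 12, 14], [10, 4, 8, 7]]
  P := {
    a := 7
    N := 15
    nb := [898, 1677, 2570, 7190, 13672, 28688, 1424, 1347, 8913, 2311, 218, 4620, 18488, 16688,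
      12320]
    tri := [(0, 1, 7), (0, 1, 9), (0, 7, 8), (0, 8, 9), (1, 2, 3), (1, 2, 9), (1, 3, 10), (1, 7, 10),
      (2, 3, 11), (2, 9, 11), (3, 4, 10), (3, 4, 12), (3, 11, 12), (4, 5, 12), (4, 5, 13), (4, 6,
      8), (4, 6, 10), (4, 8, 13), (5, 12, 14), (5, 13, 14), (6, 7, 8), (6, 7, 10)]
    fin := [0, 0, 0, 3, 4, 4, 0, 0, 4, 9, 3, 3, 4, 13, 14]
    chd := [(0, 9)]
    steps := [(0, 1), (0, 2), (0, 7), (0, 6), (3, 11), (3, 10), (4, 5), (4, 8), (4, 12)] }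
  rep := [4, 3, 9, 0, 13, 14]

noncomputable def v2636 : Cov.CovD where
  P := 3
  N := 3
  pl := [6, 7]
  lev := [⟨[], [], [(0, 2), (0, 3), (2, 3)], [], [(0, 3, [2]), (1, 0, []), (2, 2, [3])]⟩,
    ⟨[], [(0, 0), (0, 1), (0, 2), (0, 3)], [(1, 2), (1, 3), (2, 3)], [], [(0, 3, [2]), (2,
      2, [3]), (3, 1, [])]⟩,
    ⟨[(0, 1)], [(0, 2), (1, 1), (1, 2), (1, 3)], [(1, 2)], [], [(2, 2, [3]), (4, 1, [])]⟩,
    ⟨[(0, 1), (1, 2)], [(1, 0), (1, 1), (1, 2), (1, 3), (2, 0), (2, 1), (2, 2)], [(0, 1),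
      (1, 1)], [], [(3, 1, []), (4, 1, []), (5, 0, [])]⟩,
    ⟨[(1, 3), (2, 3)], [(0, 0), (1, 1), (3, 0), (3, 1)], [(0, 0), (0, 1)], [4], [(1, 0,
      []), (3, 1, []), (5, 0, [])]⟩,
    ⟨[(3, 4)], [(3, 0), (4, 0), (4, 1)], [], [4, 5], [(5, 0, [])]⟩,
    ⟨[(3, 4), (4, 5)], [(0, 0), (0, 3), (1, 1), (1, 3), (3, 1), (4, 0), (4, 1), (4, 3)],
      [(0, 1), (0, 3), (1, 3)], [], [(0, 3, [2]), (1, 0, []), (3, 1, [])]⟩]
  Ta := [((1, 0), 0, 3), ((1, 2), 0, 2), ((1, 6), 0, 4), ((3, 0), 1, 3), ((4, 2), 1, 2), ((4, 5),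
    1, 0), ((5, 4), 0, 1), ((5, 7), 0, 5)]
  Tb := [((0, 1, 3), 3, 0, 1), ((1, 0, 2), 0, 3, 2), ((1, 0, 6), 0, 3, 4), ((1, 2, 6), 0, 2, 4),
    ((2, 1, 4), 2, 0, 1), ((4, 2, 5), 1, 2, 0), ((5, 4, 7), 0, 1, 5), ((6, 1, 7), 4, 0, 5),
    ((7, 5, 6), 5, 0, 4)]
  Tc := []
  Td := [((2, 3), (2, 1), 0), ((2, 3), (2, 4), 1), ((3, 2), (0, 1), 0), ((3, 2), (0, 3), 1)]
  G := [[0, 0, 0x8181c4284141c824c, 0, 0x44a81c42841444bc811a], [0, 0, 0x81816842141a84c2,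
    0x28a81c41842c416811c, 0x2121c4122c4168892], [0, 0, 0, 0, 0x116441a8c81846444a8c183], [0,
    0x28a226c2824426288c8c1, 0, 0x226428a8c1226422a8c8c1, 0x226422a8c112]]

noncomputable def n2636 : Ent := ⟨e2636, noF, [], [], []⟩

def c2636 : PLift (Cov.check n2636.C.D v2636 = true) := ⟨by decide +kernel⟩

def b2636 : PLift (entF (fidx ts) 400 2636 n2636 = true) := ⟨by decide +kernel⟩

theorem g2636 : GoodF (fidx ts) 400 2636 := GoodF.ofV v2636 n2636 c2636.down b2636.down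

/-- 4646744:2143/1 -/
noncomputable def e2637 : SCfg where
  D := {
    a := 7
    L := 9
    kp := 7
    inn := [(0, 1), (1, 0), (1, 2), (1, 3), (2, 1), (2, 3), (3, 1), (3, 2), (3, 4), (4, 3), (4, 5), (4,
      6), (5, 4), (6, 4)]
    mix := [(0, 0), (0, 1), (0, 2), (1, 0), (1, 2), (1, 3), (2, 2), (2, 4), (3, 3), (3, 4), (3, 5), (4,
      3), (4, 5), (4, 6), (4, 7), (5, 5), (5, 6), (5, 8), (6, 0), (6, 3), (6, 7)]
    cl := [1, 6, 2, 0, 4, 0, 3, 5, 7]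
    chq := [(0, 3), (1, 2), (1, 3), (1, 4), (2, 1), (3, 0), (3, 1), (4, 1)]
    rng := [(0, 1), (0, 3), (0, 7), (1, 0), (1, 2), (2, 1), (2, 4), (3, 0), (4, 2), (4, 5), (5, 4), (5,
      8), (6, 7), (6, 8), (7, 0), (7, 6), (8, 5), (8, 6)]
    lev := [] }
  links := [[1, 7, 8, 9], [7, 0, 9, 2, 3, 10], [3, 1, 9, 11], [10, 1, 2, 11, 12, 4], [10, 3, 12, 5, 13,
    14, 6], [13, 4, 12, 15], [10, 4, 14, 7]]
  P := {
    a := 7
    N := 16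
    nb := [898, 1677, 2570, 7190, 29800, 45072, 17552, 17731, 641, 2311, 218, 4620, 34872, 49200,
      8400, 12320]
    tri := [(0, 1, 7), (0, 1, 9), (0, 7, 8), (0, 8, 9), (1, 2, 3), (1, 2, 9), (1, 3, 10), (1, 7, 10),
      (2, 3, 11), (2, 9, 11), (3, 4, 10), (3, 4, 12), (3, 11, 12), (4, 5, 12), (4, 5, 13), (4, 6,
      10), (4, 6, 14), (4, 13, 14), (5, 12, 15), (5, 13, 15), (6, 7, 10), (6, 7, 14)]
    fin := [0, 0, 0, 3, 0, 3, 0, 0, 8, 9, 3, 11, 3, 13, 14, 15]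
    chd := [(0, 9), (0, 11), (0, 13), (3, 13)]
    steps := [(0, 1), (0, 2), (0, 7), (0, 6), (3, 12), (3, 5), (3, 10), (0, 4)] }
  rep := [3, 0, 9, 13, 11, 14, 8, 15]

noncomputable def v2637 : Cov.CovD where
  P := 3
  N := 5
  pl := [1, 7, 8]
  lev := [⟨[], [], [(1, 2)], [6], [(0, 1, [2, 3, 4]), (2, 2, [1])]⟩,
    ⟨[], [(0, 0), (0, 1), (0, 2)], [(0, 1), (0, 2), (1, 2)], [], [(0, 1, [2, 3, 4]), (2, 2,
      [1]), (3, 0, [3])]⟩,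
    ⟨[(0, 1)], [(0, 2), (1, 0), (1, 1), (1, 2), (1, 4)], [(2, 4)], [], [(2, 2, [1]), (4, 4,
      [1])]⟩,
    ⟨[(0, 1), (1, 2)], [(1, 0), (1, 1), (1, 2), (1, 4), (2, 0), (2, 2), (2, 4)], [(0, 0),
      (0, 4)], [], [(3, 0, [3]), (4, 4, [1]), (5, 0, [3])]⟩,
    ⟨[(1, 3), (2, 3)], [(1, 0), (3, 0), (3, 3), (3, 4)], [(0, 0), (0, 3)], [5], [(3, 0,
      [3]), (5, 0, [3]), (6, 3, [0, 1])]⟩,
    ⟨[(3, 4)], [(3, 0), (4, 0), (4, 3)], [(0, 3)], [7], [(5, 0, [3]), (6, 3, [0, 1])]⟩,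
    ⟨[(3, 4), (4, 5)], [(0, 1), (1, 0), (1, 1), (3, 0), (4, 0), (4, 1), (4, 3)], [(0, 1)],
      [5], [(0, 1, [2, 3, 4]), (3, 0, [3])]⟩]
  Ta := [((3, 0), 0, 1), ((5, 4), 0, 4), ((5, 8), 0, 7)]
  Tb := [((0, 1, 3), 1, 6, 0), ((0, 1, 7), 1, 6, 5), ((0, 3, 7), 1, 0, 5), ((1, 0, 2), 6, 1, 2),
    ((2, 1, 4), 2, 6, 4), ((4, 2, 5), 4, 2, 0), ((5, 4, 8), 0, 4, 7), ((6, 7, 8), 3, 5, 7),
    ((7, 0, 6), 5, 1, 3), ((8, 5, 6), 7, 0, 3)]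
  Tc := [(1, 2, 3), (1, 2, 4), (1, 3, 4), (3, 0, 1)]
  Td := [((0, 3), (3, 0), 1), ((0, 3), (5, 4), 4), ((0, 3), (5, 8), 7), ((1, 2), (0, 1), 6), ((1,
    2), (0, 3), 0), ((1, 2), (0, 7), 5), ((1, 3), (0, 1), 6), ((1, 3), (0, 3), 0), ((1, 3),
    (0, 7), 5), ((1, 4), (0, 1), 6), ((1, 4), (0, 3), 0), ((1, 4), (0, 7), 5), ((2, 1), (2,
    1), 6), ((2, 1), (2, 4), 4), ((3, 0), (6, 7), 5), ((3, 0), (6, 8), 7), ((3, 1), (6, 7),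
    5), ((3, 1), (6, 8), 7), ((4, 1), (4, 2), 2), ((4, 1), (4, 5), 0)]
  G := [[0, 0x614121e8121a414e148121a4412168141ca58c, 0x1c921c5248a846ce2481cd28c47281946ce28c,
    0xc1cd221411cd2214c, 0x8c4728831451c9e6181c521c9248a443ce289], [0, 0,
    0x159e2511e248a846ce24411e2585e218a946ce28c, 0x55ce25cce2c2499ce2995e2c289,
    0x111e241ccce248a846ca2941ce2951e218a846ce289]]

noncomputable def n2637 : Ent := ⟨e2637, noF, [], [], [(8, 15, [360035742630636841211993100915356868655746945586763691018465281, 0]), (8, 14, [385746751338780685620664494392815470296102193487288376383291393, 0])]⟩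

def c2637 : PLift (Cov.check n2637.C.D v2637 = true) := ⟨by decide +kernel⟩

def b2637 : PLift (entF (fidx ts) 400 2637 n2637 = true) := ⟨by decide +kernel⟩

theorem g2637 : GoodF (fidx ts) 400 2637 := GoodF.ofV v2637 n2637 c2637.down b2637.down

/-- 4646744:2143/4 -/
noncomputable def e2638 : SCfg where
  D := {
    a := 7
    L := 9
    kp := 7
    inn := [(0, 1), (1, 0), (1, 2), (1, 3), (2, 1), (2, 3), (3, 1), (3, 2), (3, 4), (4, 3), (4, 5), (4,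
      6), (5, 4), (6, 4)]
    mix := [(0, 0), (0, 1), (0, 2), (1, 0), (1, 2), (1, 3), (2, 2), (2, 4), (3, 3), (3, 4), (3, 5), (4,
      3), (4, 5), (4, 6), (4, 7), (5, 1), (5, 5), (5, 6), (6, 3), (6, 7), (6, 8)]
    cl := [2, 6, 1, 0, 3, 0, 4, 5, 7]
    chq := [(0, 4), (0, 5), (1, 2), (2, 1), (2, 3), (3, 2), (4, 0), (5, 0)]
    rng := [(0, 1), (0, 3), (1, 0), (1, 2), (1, 5), (1, 6), (2, 1), (2, 4), (3, 0), (3, 8), (4, 2), (4,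
      5), (5, 1), (5, 4), (6, 1), (6, 7), (7, 6), (7, 8), (8, 3), (8, 7)]
    lev := [] }
  links := [[1, 7, 8, 9], [7, 0, 9, 2, 3, 10], [3, 1, 9, 11], [10, 1, 2, 11, 12, 4], [10, 3, 12, 5, 13,
    14, 6], [13, 4, 12, 8], [10, 4, 14, 15]]
  P := {
    a := 7
    N := 16
    nb := [898, 1677, 2570, 7190, 29800, 12560, 50192, 1283, 12961, 2311, 32986, 4620, 2360, 16688,
      41040, 17472]
    tri := [(0, 1, 7), (0, 1, 9), (0, 7, 8), (0, 8, 9), (1, 2, 3), (1, 2, 9), (1, 3, 10), (1, 7, 10),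
      (2, 3, 11), (2, 9, 11), (3, 4, 10), (3, 4, 12), (3, 11, 12), (4, 5, 12), (4, 5, 13), (4, 6,
      10), (4, 6, 14), (4, 13, 14), (5, 8, 12), (5, 8, 13), (6, 10, 15), (6, 14, 15)]
    fin := [0, 0, 0, 0, 4, 5, 4, 0, 5, 9, 4, 11, 4, 13, 14, 15]
    chd := [(0, 9), (0, 11), (4, 13), (4, 14)]
    steps := [(0, 1), (0, 2), (0, 3), (0, 7), (4, 6), (4, 12), (4, 10), (5, 8)] }
  rep := [4, 9, 0, 11, 13, 14, 5, 15]

noncomputable def v2638 : Cov.CovD where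
  P := 3
  N := 5
  pl := [1, 8]
  lev := [⟨[], [], [(1, 2)], [6], [(0, 2, [1, 3]), (2, 1, [2])]⟩,
    ⟨[], [(0, 0), (0, 1), (0, 2)], [(0, 1), (0, 2), (1, 2)], [], [(0, 2, [1, 3]), (2, 1,
      [2]), (3, 0, [4, 5])]⟩,
    ⟨[(0, 1)], [(0, 1), (1, 0), (1, 1), (1, 2), (1, 3)], [(1, 3)], [], [(2, 1, [2]), (4, 3,
      [2])]⟩,
    ⟨[(0, 1), (1, 2)], [(1, 0), (1, 1), (1, 2), (1, 3), (2, 0), (2, 1), (2, 3)], [(0, 0),
      (0, 3)], [], [(3, 0, [4, 5]), (4, 3, [2]), (5, 0, [4, 5])]⟩,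
    ⟨[(1, 3), (2, 3)], [(1, 0), (3, 0), (3, 3), (3, 4), (3, 5)], [(0, 0), (0, 4), (0, 5),
      (4, 5)], [], [(3, 0, [4, 5]), (5, 0, [4, 5]), (6, 4, [0]), (7, 5, [0])]⟩,
    ⟨[(3, 4)], [(3, 0), (4, 0), (4, 4), (4, 5)], [(0, 4)], [6], [(5, 0, [4, 5]), (6, 4,
      [0])]⟩,
    ⟨[(3, 4), (4, 5)], [(1, 0), (3, 0), (4, 0), (4, 4), (4, 5)], [(0, 5)], [7], [(3, 0, [4,
      5]), (7, 5, [0])]⟩]
  Ta := [((3, 0), 0, 2), ((3, 8), 0, 7), ((5, 1), 0, 6), ((5, 4), 0, 3)]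
  Tb := [((0, 1, 3), 2, 6, 0), ((1, 0, 2), 6, 2, 1), ((1, 0, 5), 6, 2, 0), ((1, 0, 6), 6, 2, 4),
    ((1, 2, 5), 6, 1, 0), ((1, 2, 6), 6, 1, 4), ((1, 5, 6), 6, 0, 4), ((2, 1, 4), 1, 6, 3),
    ((3, 0, 8), 0, 2, 7), ((4, 2, 5), 3, 1, 0), ((5, 1, 4), 0, 6, 3), ((6, 1, 7), 4, 6, 5),
    ((7, 6, 8), 5, 4, 7), ((8, 3, 7), 7, 0, 5)]
  Tc := [(0, 4, 5), (2, 1, 3)]
  Td := [((0, 4), (3, 0), 2), ((0, 4), (3, 8), 7), ((0, 4), (5, 1), 6), ((0, 4), (5, 4), 3), ((0,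
    5), (3, 0), 2), ((0, 5), (3, 8), 7), ((0, 5), (5, 1), 6), ((0, 5), (5, 4), 3), ((1, 2),
    (2, 1), 6), ((1, 2), (2, 4), 3), ((2, 1), (0, 1), 6), ((2, 1), (0, 3), 0), ((2, 3), (0,
    1), 6), ((2, 3), (0, 3), 0), ((3, 2), (4, 2), 1), ((3, 2), (4, 5), 0), ((4, 0), (6, 1),
    6), ((4, 0), (6, 7), 5), ((5, 0), (7, 6), 4), ((5, 0), (7, 8), 7)]
  G := [[0, 0x52e1e1ee1682baa11e9ce241e5e16e11e3a1e5e1ce28c,
    0xe1e168e1e1ae1e1c694e1e1a44e1e16e1e1ca1cc, 0xe12e12ae31e3ce181, 0xe1411e71e3a1e94e181],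
    [0, 0x5891a119ee781cac6252288c94119e631652a1c6b4ce28c, 0,
    0x181411ce214111e126111e12ac1c6111afc2389, 0x7819a52e14461819c526111eb1611ceaac612a4589]]

noncomputable def n2638 : Ent := ⟨e2638, noF, [], [], [(7, 15, [360035742630636841211993100915356868655746945586763691018465281, 0])]⟩

def c2638 : PLift (Cov.check n2638.C.D v2638 = true) := ⟨by decide +kernel⟩

def b2638 : PLift (entF (fidx ts) 400 2638 n2638 = true) := ⟨by decide +kernel⟩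

theorem g2638 : GoodF (fidx ts) 400 2638 := GoodF.ofV v2638 n2638 c2638.down b2638.down

/-- 4646744:2143/5 -/
noncomputable def e2639 : SCfg where
  D := {
    a := 7
    L := 9
    kp := 6
    inn := [(0, 1), (1, 0), (1, 2), (1, 3), (2, 1), (2, 3), (3, 1), (3, 2), (3, 4), (4, 3), (4, 5), (4,
      6), (5, 4), (6, 4)]
    mix := [(0, 0), (0, 1), (0, 2), (1, 0), (1, 2), (1, 3), (2, 2), (2, 4), (3, 3), (3, 4), (3, 5), (4,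
      1), (4, 3), (4, 5), (4, 6), (5, 5), (5, 6), (5, 7), (6, 1), (6, 3), (6, 8)]
    cl := [3, 0, 2, 1, 1, 0, 4, 5, 6]
    chq := [(2, 3), (3, 2)]
    rng := [(0, 1), (0, 3), (1, 0), (1, 2), (1, 6), (1, 8), (2, 1), (2, 4), (3, 0), (3, 8), (4, 2), (4,
      5), (5, 4), (5, 7), (6, 1), (6, 7), (7, 5), (7, 6), (8, 1), (8, 3)]
    lev := [] }
  links := [[1, 7, 8, 9], [7, 0, 9, 2, 3, 10], [3, 1, 9, 11], [10, 1, 2, 11, 12, 4], [10, 3, 12, 5, 13,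
    8, 6], [13, 4, 12, 14], [10, 4, 8, 15]]
  P := {
    a := 7
    N := 16
    nb := [898, 1677, 2570, 7190, 13672, 28688, 34064, 1283, 41681, 2311, 32986, 4620, 18488, 16688,
      12320, 1344]
    tri := [(0, 1, 7), (0, 1, 9), (0, 7, 8), (0, 8, 9), (1, 2, 3), (1, 2, 9), (1, 3, 10), (1, 7, 10),
      (2, 3, 11), (2, 9, 11), (3, 4, 10), (3, 4, 12), (3, 11, 12), (4, 5, 12), (4, 5, 13), (4, 6,
      8), (4, 6, 10), (4, 8, 13), (5, 12, 14), (5, 13, 14), (6, 8, 15), (6, 10, 15)]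
    fin := [0, 0, 0, 3, 4, 4, 4, 0, 4, 9, 3, 3, 4, 13, 14, 15]
    chd := [(0, 9)]
    steps := [(0, 1), (0, 2), (0, 7), (3, 11), (3, 10), (4, 5), (4, 6), (4, 8), (4, 12)] }
  rep := [4, 3, 9, 0, 13, 14, 15]

noncomputable def v2639 : Cov.CovD where
  P := 3
  N := 4
  pl := [6, 7, 8]
  lev := [⟨[], [], [(0, 2), (0, 3), (2, 3)], [], [(0, 3, [2]), (1, 0, []), (2, 2, [3])]⟩,
    ⟨[], [(0, 0), (0, 1), (0, 2), (0, 3)], [(1, 2), (1, 3), (2, 3)], [], [(0, 3, [2]), (2,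
      2, [3]), (3, 1, [])]⟩,
    ⟨[(0, 1)], [(0, 2), (1, 1), (1, 2), (1, 3)], [(1, 2)], [], [(2, 2, [3]), (4, 1, [])]⟩,
    ⟨[(0, 1), (1, 2)], [(1, 0), (1, 1), (1, 2), (1, 3), (2, 0), (2, 1), (2, 2)], [(0, 1),
      (1, 1)], [], [(3, 1, []), (4, 1, []), (5, 0, [])]⟩,
    ⟨[(1, 3), (2, 3)], [(0, 0), (1, 1), (3, 0), (3, 1)], [(0, 0), (0, 1)], [4], [(1, 0,
      []), (3, 1, []), (5, 0, [])]⟩,
    ⟨[(3, 4)], [(3, 0), (4, 0), (4, 1)], [], [4, 5], [(5, 0, [])]⟩,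
    ⟨[(3, 4), (4, 5)], [(0, 0), (1, 1), (3, 1), (4, 0), (4, 1)], [(0, 1)], [6], [(1, 0,
      []), (3, 1, [])]⟩]
  Ta := [((1, 0), 0, 3), ((1, 2), 0, 2), ((1, 6), 0, 4), ((1, 8), 0, 6), ((3, 0), 1, 3), ((3, 8),
    1, 6), ((4, 2), 1, 2), ((4, 5), 1, 0), ((5, 4), 0, 1), ((5, 7), 0, 5)]
  Tb := [((0, 1, 3), 3, 0, 1), ((1, 0, 2), 0, 3, 2), ((1, 0, 6), 0, 3, 4), ((1, 0, 8), 0, 3, 6),
    ((1, 2, 6), 0, 2, 4), ((1, 2, 8), 0, 2, 6), ((1, 6, 8), 0, 4, 6), ((2, 1, 4), 2, 0, 1),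
    ((3, 0, 8), 1, 3, 6), ((4, 2, 5), 1, 2, 0), ((5, 4, 7), 0, 1, 5), ((6, 1, 7), 4, 0, 5),
    ((7, 5, 6), 5, 0, 4), ((8, 1, 3), 6, 0, 1)]
  Tc := []
  Td := [((2, 3), (2, 1), 0), ((2, 3), (2, 4), 1), ((3, 2), (0, 1), 0), ((3, 2), (0, 3), 1)]
  G := [[0, 0, 0xc181c428c1482441482c1848ce, 0, 0xcc381c42c4948294148288474448b8c89a], [0, 0,
    0x2121c482121c84c2, 0x21422a8c4121422a8984c, 0x2121c4121226c8192], [0, 0, 0, 0,
    0x116411a8c81116411a8c11a], [0, 0x66cac6a48aa646aa8a4c1, 0, 0x226422a8c1226422a8c8c1,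
    0x226422a8c812]]

noncomputable def n2639 : Ent := ⟨e2639, noF, [], [], [(7, 15, [360035742630636841211993100915356868655746945586763691018469377, 0])]⟩

def c2639 : PLift (Cov.check n2639.C.D v2639 = true) := ⟨by decide +kernel⟩

def b2639 : PLift (entF (fidx ts) 400 2639 n2639 = true) := ⟨by decide +kernel⟩

theorem g2639 : GoodF (fidx ts) 400 2639 := GoodF.ofV v2639 n2639 c2639.down b2639.down

/-- 4646744:2143 -/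
noncomputable def e2640 : SCfg where
  D := {
    a := 7
    L := 10
    kp := 8
    inn := [(0, 1), (1, 0), (1, 2), (1, 3), (2, 1), (2, 3), (3, 1), (3, 2), (3, 4), (4, 3), (4, 5), (4,
      6), (5, 4), (6, 4)]
    mix := [(0, 0), (0, 1), (0, 2), (1, 0), (1, 2), (1, 3), (2, 2), (2, 4), (3, 3), (3, 4), (3, 5), (4,
      3), (4, 5), (4, 6), (4, 7), (5, 5), (5, 6), (5, 8), (6, 3), (6, 7), (6, 9)]
    cl := [1, 7, 3, 0, 2, 0, 4, 5, 8, 6]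
    chq := [(0, 4), (1, 2), (1, 3), (2, 1), (3, 1), (4, 0), (4, 6), (6, 4)]
    rng := [(0, 1), (0, 3), (1, 0), (1, 2), (2, 1), (2, 4), (3, 0), (3, 9), (4, 2), (4, 5), (5, 4), (5,
      8), (6, 7), (6, 8), (7, 6), (7, 9), (8, 5), (8, 6), (9, 3), (9, 7)]
    lev := [] }
  links := [[1, 7, 8, 9], [7, 0, 9, 2, 3, 10], [3, 1, 9, 11], [10, 1, 2, 11, 12, 4], [10, 3, 12, 5, 13,
    14, 6], [13, 4, 12, 15], [10, 4, 14, 16]]
  P := {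
    a := 7
    N := 17
    nb := [898, 1677, 2570, 7190, 29800, 45072, 82960, 1283, 641, 2311, 65754, 4620, 34872, 49200,
      73808, 12320, 17472]
    tri := [(0, 1, 7), (0, 1, 9), (0, 7, 8), (0, 8, 9), (1, 2, 3), (1, 2, 9), (1, 3, 10), (1, 7, 10),
      (2, 3, 11), (2, 9, 11), (3, 4, 10), (3, 4, 12), (3, 11, 12), (4, 5, 12), (4, 5, 13), (4, 6,
      10), (4, 6, 14), (4, 13, 14), (5, 12, 15), (5, 13, 15), (6, 10, 16), (6, 14, 16)]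
    fin := [0, 0, 0, 3, 4, 3, 4, 0, 8, 9, 3, 11, 3, 4, 14, 15, 16]
    chd := [(0, 9), (0, 11), (3, 4), (4, 16)]
    steps := [(0, 1), (0, 2), (0, 7), (3, 12), (3, 5), (3, 10), (4, 6), (4, 13)] }
  rep := [3, 0, 11, 9, 4, 14, 16, 8, 15]

noncomputable def v2640 : Cov.CovD where
  P := 3
  N := 6
  pl := [1, 7, 8]
  lev := [⟨[], [], [(1, 3)], [7], [(0, 1, [2, 3]), (2, 3, [1])]⟩,
    ⟨[], [(0, 0), (0, 1), (0, 3)], [(0, 1), (0, 3), (1, 3)], [], [(0, 1, [2, 3]), (2, 3,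
      [1]), (3, 0, [4])]⟩,
    ⟨[(0, 1)], [(0, 3), (1, 0), (1, 1), (1, 2), (1, 3)], [(2, 3)], [], [(2, 3, [1]), (4, 2,
      [1])]⟩,
    ⟨[(0, 1), (1, 2)], [(1, 0), (1, 1), (1, 2), (1, 3), (2, 0), (2, 2), (2, 3)], [(0, 0),
      (0, 2)], [], [(3, 0, [4]), (4, 2, [1]), (5, 0, [4])]⟩,
    ⟨[(1, 3), (2, 3)], [(1, 0), (3, 0), (3, 2), (3, 4)], [(0, 0), (0, 4)], [5], [(3, 0,
      [4]), (5, 0, [4]), (6, 4, [0, 6])]⟩,
    ⟨[(3, 4)], [(3, 0), (4, 0), (4, 4)], [(0, 4)], [8], [(5, 0, [4]), (6, 4, [0, 6])]⟩,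
    ⟨[(3, 4), (4, 5)], [(1, 0), (3, 0), (4, 0), (4, 4), (4, 6)], [(0, 6)], [5], [(3, 0,
      [4]), (9, 6, [4])]⟩]
  Ta := [((3, 0), 0, 1), ((3, 9), 0, 6), ((5, 4), 0, 2), ((5, 8), 0, 8)]
  Tb := [((0, 1, 3), 1, 7, 0), ((1, 0, 2), 7, 1, 3), ((2, 1, 4), 3, 7, 2), ((3, 0, 9), 0, 1, 6),
    ((4, 2, 5), 2, 3, 0), ((5, 4, 8), 0, 2, 8), ((6, 7, 8), 4, 5, 8), ((7, 6, 9), 5, 4, 6),
    ((8, 5, 6), 8, 0, 4), ((9, 3, 7), 6, 0, 5)]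
  Tc := [(1, 2, 3), (4, 0, 6)]
  Td := [((0, 4), (3, 0), 1), ((0, 4), (3, 9), 6), ((0, 4), (5, 4), 2), ((0, 4), (5, 8), 8), ((1,
    2), (0, 1), 7), ((1, 2), (0, 3), 0), ((1, 3), (0, 1), 7), ((1, 3), (0, 3), 0), ((2, 1),
    (4, 2), 3), ((2, 1), (4, 5), 0), ((3, 1), (2, 1), 7), ((3, 1), (2, 4), 2), ((4, 0), (6,
    7), 5), ((4, 0), (6, 8), 8), ((4, 6), (6, 7), 5), ((4, 6), (6, 8), 8), ((6, 4), (9, 3),
    0), ((6, 4), (9, 7), 5)]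
  G := [[0, 0x61a1c1e41861a1c1e81461a1c1e812e, 0, 0x1691a31c5e421a91c561638a4c2,
    0x116b11adc2c1223c1288c1631a51c9e8241a31c561698a11631a51c9e21cd], [0, 0,
    0x124e21a489ee144628aaaeccce6666e8c21111e4324e489eac22a8e411e6114e8a4cd,
    0x624e189ea111e468218e41d4e481eac2c2,
    0x325e19aec22411e28248ce282d1882146238e481ee188aa4c22311e131e48cea141ce2111e2a1eca1cd]]

noncomputable def n2640 : Ent := ⟨e2640, noF, [], [], [(7, 16, [1580044410770988437309982408355971841652082177953823432505699913729, 0]), (8, 15, [1685356702439545624007900436039642273970977273354372543760010895361, 0]), (8, 14, [1685382413448253767852309107433119732572617628602273068445375721473, 0])]⟩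

def c2640 : PLift (Cov.check n2640.C.D v2640 = true) := ⟨by decide +kernel⟩

def b2640 : PLift (entF (fidx ts) 400 2640 n2640 = true) := ⟨by decide +kernel⟩

theorem g2640 : GoodF (fidx ts) 400 2640 := GoodF.ofV v2640 n2640 c2640.down b2640.down

/-- 4646745:2144/2 -/
noncomputable def e2641 : SCfg where
  D := {
    a := 7
    L := 9
    kp := 6
    inn := [(0, 1), (1, 0), (1, 2), (1, 3), (2, 1), (2, 3), (3, 1), (3, 2), (3, 4), (4, 3), (4, 5), (4,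
      6), (5, 4), (6, 4)]
    mix := [(0, 0), (0, 1), (0, 2), (1, 0), (1, 2), (1, 3), (2, 2), (2, 4), (3, 3), (3, 4), (3, 5), (4,
      3), (4, 5), (4, 6), (4, 7), (5, 1), (5, 5), (5, 6), (6, 0), (6, 3), (6, 7), (6, 8)]
    cl := [1, 2, 3, 0, 4, 0, 5, 0, 6]
    chq := [(1, 3), (1, 4), (3, 1), (4, 1)]
    rng := [(0, 1), (0, 3), (0, 8), (1, 0), (1, 2), (1, 5), (1, 6), (2, 1), (2, 4), (3, 0), (4, 2), (4,
      5), (5, 1), (5, 4), (6, 1), (6, 7), (7, 6), (7, 8), (8, 0), (8, 7)]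
    lev := [] }
  links := [[1, 7, 8, 9], [7, 0, 9, 2, 3, 10], [3, 1, 9, 11], [10, 1, 2, 11, 12, 4], [10, 3, 12, 5, 13,
    14, 6], [13, 4, 12, 8], [10, 4, 14, 15, 7]]
  P := {
    a := 7
    N := 16
    nb := [898, 1677, 2570, 7190, 29800, 12560, 50320, 34115, 12961, 2311, 218, 4620, 2360, 16688,
      41040, 16576]
    tri := [(0, 1, 7), (0, 1, 9), (0, 7, 8), (0, 8, 9), (1, 2, 3), (1, 2, 9), (1, 3, 10), (1, 7, 10),
      (2, 3, 11), (2, 9, 11), (3, 4, 10), (3, 4, 12), (3, 11, 12), (4, 5, 12), (4, 5, 13), (4, 6,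
      10), (4, 6, 14), (4, 13, 14), (5, 8, 12), (5, 8, 13), (6, 7, 10), (6, 7, 15), (6, 14, 15)]
    fin := [0, 0, 0, 0, 4, 5, 0, 0, 5, 9, 4, 11, 4, 13, 4, 15]
    chd := [(0, 9), (0, 11)]
    steps := [(0, 1), (0, 2), (0, 3), (0, 7), (4, 12), (4, 14), (4, 10), (0, 6), (5, 8)] }
  rep := [4, 0, 5, 9, 11, 13, 15]

noncomputable def v2641 : Cov.CovD where
  P := 3
  N := 4
  pl := [1, 6, 8]
  lev := [⟨[], [], [(1, 3)], [2], [(0, 1, [3, 4]), (2, 3, [1])]⟩,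
    ⟨[], [(0, 0), (0, 1), (0, 3)], [(0, 1), (0, 3), (1, 3)], [], [(0, 1, [3, 4]), (2, 3,
      [1]), (3, 0, [])]⟩,
    ⟨[(0, 1)], [(0, 3), (1, 0), (1, 1), (1, 3), (1, 4)], [(3, 4)], [], [(2, 3, [1]), (4, 4,
      [1])]⟩,
    ⟨[(0, 1), (1, 2)], [(1, 0), (1, 1), (1, 3), (1, 4), (2, 0), (2, 3), (2, 4)], [(0, 0),
      (0, 4)], [], [(3, 0, []), (4, 4, [1]), (5, 0, [])]⟩,
    ⟨[(1, 3), (2, 3)], [(1, 0), (3, 0), (3, 4)], [(0, 0)], [5], [(3, 0, []), (5, 0, []),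
      (7, 0, [])]⟩,
    ⟨[(3, 4)], [(3, 0), (4, 0)], [], [2, 5], [(5, 0, [])]⟩,
    ⟨[(3, 4), (4, 5)], [(0, 1), (1, 0), (1, 1), (3, 0), (4, 0), (4, 1)], [(0, 0), (0, 1)],
      [6], [(0, 1, [3, 4]), (3, 0, []), (7, 0, [])]⟩]
  Ta := [((3, 0), 0, 1), ((5, 1), 0, 2), ((5, 4), 0, 4), ((7, 6), 0, 5), ((7, 8), 0, 6)]
  Tb := [((0, 1, 3), 1, 2, 0), ((0, 1, 8), 1, 2, 6), ((0, 3, 8), 1, 0, 6), ((1, 0, 2), 2, 1, 3),
    ((1, 0, 5), 2, 1, 0), ((1, 0, 6), 2, 1, 5), ((1, 2, 5), 2, 3, 0), ((1, 2, 6), 2, 3, 5),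
    ((1, 5, 6), 2, 0, 5), ((2, 1, 4), 3, 2, 4), ((4, 2, 5), 4, 3, 0), ((5, 1, 4), 0, 2, 4),
    ((6, 1, 7), 5, 2, 0), ((7, 6, 8), 0, 5, 6), ((8, 0, 7), 6, 1, 0)]
  Tc := [(1, 3, 4)]
  Td := [((1, 3), (0, 1), 2), ((1, 3), (0, 3), 0), ((1, 3), (0, 8), 6), ((1, 4), (0, 1), 2), ((1,
    4), (0, 3), 0), ((1, 4), (0, 8), 6), ((3, 1), (2, 1), 2), ((3, 1), (2, 4), 4), ((4, 1),
    (4, 2), 3), ((4, 1), (4, 5), 0)]
  G := [[0, 0x68a1cc1c1661861a4ca4c16a14c, 0, 0xc12218c1c1c224c, 0x21c2ac1c2c628c2c1c2149], [0,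
    0, 0x48a846c21848a846c214c, 0xc4c28446c4c2238ccc28ccc2234c,
    0x28c2a48a8cac628c8c2648c2a884e249], [0, 0, 0, 0x489845c224cc922185,
    0x28c2a48ac1c628c2c1c2149]]

noncomputable def n2641 : Ent := ⟨e2641, noF, [], [], []⟩

def c2641 : PLift (Cov.check n2641.C.D v2641 = true) := ⟨by decide +kernel⟩

def b2641 : PLift (entF (fidx ts) 400 2641 n2641 = true) := ⟨by decide +kernel⟩

theorem g2641 : GoodF (fidx ts) 400 2641 := GoodF.ofV v2641 n2641 c2641.down b2641.down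

/-- 4646745:2144/3 -/
noncomputable def e2642 : SCfg where
  D := {
    a := 7
    L := 9
    kp := 6
    inn := [(0, 1), (1, 0), (1, 2), (1, 3), (2, 1), (2, 3), (3, 1), (3, 2), (3, 4), (4, 3), (4, 5), (4,
      6), (5, 4), (6, 4)]
    mix := [(0, 0), (0, 1), (0, 2), (1, 0), (1, 2), (1, 3), (2, 2), (2, 4), (3, 3), (3, 4), (3, 5), (4,
      3), (4, 5), (4, 6), (4, 7), (5, 5), (5, 6), (5, 8), (6, 0), (6, 1), (6, 3), (6, 7)]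
    cl := [1, 2, 3, 0, 4, 0, 5, 0, 6]
    chq := [(1, 3), (1, 4), (3, 1), (4, 1)]
    rng := [(0, 1), (0, 3), (1, 0), (1, 2), (1, 7), (2, 1), (2, 4), (3, 0), (4, 2), (4, 5), (5, 4), (5,
      8), (6, 7), (6, 8), (7, 1), (7, 6), (8, 5), (8, 6)]
    lev := [] }
  links := [[1, 7, 8, 9], [7, 0, 9, 2, 3, 10], [3, 1, 9, 11], [10, 1, 2, 11, 12, 4], [10, 3, 12, 5, 13,
    14, 6], [13, 4, 12, 15], [10, 4, 14, 8, 7]]
  P := {
    a := 7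
    N := 16
    nb := [898, 1677, 2570, 7190, 29800, 45072, 17808, 1347, 17089, 2311, 218, 4620, 34872, 49200,
      8528, 12320]
    tri := [(0, 1, 7), (0, 1, 9), (0, 7, 8), (0, 8, 9), (1, 2, 3), (1, 2, 9), (1, 3, 10), (1, 7, 10),
      (2, 3, 11), (2, 9, 11), (3, 4, 10), (3, 4, 12), (3, 11, 12), (4, 5, 12), (4, 5, 13), (4, 6,
      10), (4, 6, 14), (4, 13, 14), (5, 12, 15), (5, 13, 15), (6, 7, 8), (6, 7, 10), (6, 8, 14)]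
    fin := [0, 0, 0, 0, 4, 4, 0, 0, 8, 9, 4, 11, 4, 13, 4, 15]
    chd := [(0, 9), (0, 11)]
    steps := [(0, 1), (0, 2), (0, 3), (0, 7), (4, 5), (4, 12), (4, 14), (4, 10), (0, 6)] }
  rep := [4, 0, 8, 9, 11, 13, 15]

noncomputable def v2642 : Cov.CovD where
  P := 3
  N := 4
  pl := [1, 6, 8]
  lev := [⟨[], [], [(1, 3)], [2], [(0, 1, [3, 4]), (2, 3, [1])]⟩,
    ⟨[], [(0, 0), (0, 1), (0, 3)], [(0, 1), (0, 3), (1, 3)], [], [(0, 1, [3, 4]), (2, 3,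
      [1]), (3, 0, [])]⟩,
    ⟨[(0, 1)], [(0, 3), (1, 0), (1, 1), (1, 3), (1, 4)], [(3, 4)], [], [(2, 3, [1]), (4, 4,
      [1])]⟩,
    ⟨[(0, 1), (1, 2)], [(1, 0), (1, 1), (1, 3), (1, 4), (2, 0), (2, 3), (2, 4)], [(0, 0),
      (0, 4)], [], [(3, 0, []), (4, 4, [1]), (5, 0, [])]⟩,
    ⟨[(1, 3), (2, 3)], [(1, 0), (3, 0), (3, 4)], [(0, 0)], [5], [(3, 0, []), (5, 0, []),
      (7, 0, [])]⟩,
    ⟨[(3, 4)], [(3, 0), (4, 0)], [], [5, 6], [(5, 0, [])]⟩,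
    ⟨[(3, 4), (4, 5)], [(0, 1), (1, 0), (1, 1), (3, 0), (4, 0), (4, 1)], [(0, 0), (0, 1)],
      [2], [(0, 1, [3, 4]), (3, 0, []), (7, 0, [])]⟩]
  Ta := [((3, 0), 0, 1), ((5, 4), 0, 4), ((5, 8), 0, 6), ((7, 1), 0, 2), ((7, 6), 0, 5)]
  Tb := [((0, 1, 3), 1, 2, 0), ((1, 0, 2), 2, 1, 3), ((1, 0, 7), 2, 1, 0), ((1, 2, 7), 2, 3, 0),
    ((2, 1, 4), 3, 2, 4), ((4, 2, 5), 4, 3, 0), ((5, 4, 8), 0, 4, 6), ((6, 7, 8), 5, 0, 6),
    ((7, 1, 6), 0, 2, 5), ((8, 5, 6), 6, 0, 5)]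
  Tc := [(1, 3, 4)]
  Td := [((1, 3), (0, 1), 2), ((1, 3), (0, 3), 0), ((1, 4), (0, 1), 2), ((1, 4), (0, 3), 0), ((3,
    1), (2, 1), 2), ((3, 1), (2, 4), 4), ((4, 1), (4, 2), 3), ((4, 1), (4, 5), 0)]
  G := [[0, 0x81816814166188181681416a14c, 0, 0x4181c2284141c224c, 0x8181a8181c6288181c2149],
    [0, 0, 0, 0x44a886c22844a886c2249, 0x22c888ea88c46288a282c88c4288c88a688a2c649], [0, 0,
    0x8141c2184141c214c, 0x81886c22848a81c224c, 0x81886a88c46281282c81886c2149]]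

noncomputable def n2642 : Ent := ⟨e2642, noF, [], [], []⟩

def c2642 : PLift (Cov.check n2642.C.D v2642 = true) := ⟨by decide +kernel⟩

def b2642 : PLift (entF (fidx ts) 400 2642 n2642 = true) := ⟨by decide +kernel⟩

theorem g2642 : GoodF (fidx ts) 400 2642 := GoodF.ofV v2642 n2642 c2642.down b2642.down

/-- 4646745:2144/1 -/
noncomputable def e2643 : SCfg where
  D := {
    a := 7
    L := 10
    kp := 7
    inn := [(0, 1), (1, 0), (1, 2), (1, 3), (2, 1), (2, 3), (3, 1), (3, 2), (3, 4), (4, 3), (4, 5), (4,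
      6), (5, 4), (6, 4)]
    mix := [(0, 0), (0, 1), (0, 2), (1, 0), (1, 2), (1, 3), (2, 2), (2, 4), (3, 3), (3, 4), (3, 5), (4,
      3), (4, 5), (4, 6), (4, 7), (5, 5), (5, 6), (5, 8), (6, 0), (6, 3), (6, 7), (6, 9)]
    cl := [1, 5, 2, 0, 3, 0, 4, 0, 6, 7]
    chq := [(1, 2), (1, 3), (2, 1), (3, 1)]
    rng := [(0, 1), (0, 3), (0, 9), (1, 0), (1, 2), (2, 1), (2, 4), (3, 0), (4, 2), (4, 5), (5, 4), (5,
      8), (6, 7), (6, 8), (7, 6), (7, 9), (8, 5), (8, 6), (9, 0), (9, 7)]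
    lev := [] }
  links := [[1, 7, 8, 9], [7, 0, 9, 2, 3, 10], [3, 1, 9, 11], [10, 1, 2, 11, 12, 4], [10, 3, 12, 5, 13,
    14, 6], [13, 4, 12, 15], [10, 4, 14, 16, 7]]
  P := {
    a := 7
    N := 17
    nb := [898, 1677, 2570, 7190, 29800, 45072, 83088, 66883, 641, 2311, 218, 4620, 34872, 49200,
      73808, 12320, 16576]
    tri := [(0, 1, 7), (0, 1, 9), (0, 7, 8), (0, 8, 9), (1, 2, 3), (1, 2, 9), (1, 3, 10), (1, 7, 10),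
      (2, 3, 11), (2, 9, 11), (3, 4, 10), (3, 4, 12), (3, 11, 12), (4, 5, 12), (4, 5, 13), (4, 6,
      10), (4, 6, 14), (4, 13, 14), (5, 12, 15), (5, 13, 15), (6, 7, 10), (6, 7, 16), (6, 14, 16)]
    fin := [0, 0, 0, 0, 4, 4, 0, 0, 8, 9, 4, 11, 4, 13, 4, 15, 16]
    chd := [(0, 9), (0, 11)]
    steps := [(0, 1), (0, 2), (0, 3), (0, 7), (4, 5), (4, 12), (4, 14), (4, 10), (0, 6)] }
  rep := [4, 0, 9, 11, 13, 8, 15, 16]

noncomputable def v2643 : Cov.CovD where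
  P := 3
  N := 5
  pl := [1, 6, 8, 9]
  lev := [⟨[], [], [(1, 2)], [5], [(0, 1, [2, 3]), (2, 2, [1])]⟩,
    ⟨[], [(0, 0), (0, 1), (0, 2)], [(0, 1), (0, 2), (1, 2)], [], [(0, 1, [2, 3]), (2, 2,
      [1]), (3, 0, [])]⟩,
    ⟨[(0, 1)], [(0, 2), (1, 0), (1, 1), (1, 2), (1, 3)], [(2, 3)], [], [(2, 2, [1]), (4, 3,
      [1])]⟩,
    ⟨[(0, 1), (1, 2)], [(1, 0), (1, 1), (1, 2), (1, 3), (2, 0), (2, 2), (2, 3)], [(0, 0),
      (0, 3)], [], [(3, 0, []), (4, 3, [1]), (5, 0, [])]⟩,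
    ⟨[(1, 3), (2, 3)], [(1, 0), (3, 0), (3, 3)], [(0, 0)], [4], [(3, 0, []), (5, 0, []),
      (7, 0, [])]⟩,
    ⟨[(3, 4)], [(3, 0), (4, 0)], [], [4, 6], [(5, 0, [])]⟩,
    ⟨[(3, 4), (4, 5)], [(0, 1), (1, 0), (1, 1), (3, 0), (4, 0), (4, 1)], [(0, 0), (0, 1)],
      [7], [(0, 1, [2, 3]), (3, 0, []), (7, 0, [])]⟩]
  Ta := [((3, 0), 0, 1), ((5, 4), 0, 3), ((5, 8), 0, 6), ((7, 6), 0, 4), ((7, 9), 0, 7)]
  Tb := [((0, 1, 3), 1, 5, 0), ((0, 1, 9), 1, 5, 7), ((0, 3, 9), 1, 0, 7), ((1, 0, 2), 5, 1, 2),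
    ((2, 1, 4), 2, 5, 3), ((4, 2, 5), 3, 2, 0), ((5, 4, 8), 0, 3, 6), ((6, 7, 8), 4, 0, 6),
    ((7, 6, 9), 0, 4, 7), ((8, 5, 6), 6, 0, 4), ((9, 0, 7), 7, 1, 0)]
  Tc := [(1, 2, 3)]
  Td := [((1, 2), (0, 1), 5), ((1, 2), (0, 3), 0), ((1, 2), (0, 9), 7), ((1, 3), (0, 1), 5), ((1,
    3), (0, 3), 0), ((1, 3), (0, 9), 7), ((2, 1), (2, 1), 5), ((2, 1), (2, 4), 3), ((3, 1),
    (4, 2), 2), ((3, 1), (4, 5), 0)]
  G := [[0, 0x614612a18e14c14a18c12e18c, 0x2121cc1c1ca2421c1ac1c1ca24c, 0x2121c2182121c2185,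
    0xc1c1c218c1c1c2189], [0, 0, 0x2884cea44c88cc622484ce682cc4ce2422cc4ce644c8cca68c,
    0x22a226c28122a226c21822a226c248d, 0x84ce2822c8ccea44c88cc6a12484ce62884cea44c88cce289],
    [0, 0, 0xc2cc16c148c4fca2422a21c4c98c47c628c, 0x22a21c21422a21c2189,
    0x4c58c47c2184c8b8c9c2189]]

noncomputable def n2643 : Ent := ⟨e2643, noF, [], [], [(8, 15, [1685356702439545624007900436039642273970977273354372543760010907649, 0]), (8, 16, [1580044410770988437309982408355971841652082177953823432505699934209, 0])]⟩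

def c2643 : PLift (Cov.check n2643.C.D v2643 = true) := ⟨by decide +kernel⟩

def b2643 : PLift (entF (fidx ts) 400 2643 n2643 = true) := ⟨by decide +kernel⟩

theorem g2643 : GoodF (fidx ts) 400 2643 := GoodF.ofV v2643 n2643 c2643.down b2643.down

/-- 4646745:2144/4 -/
noncomputable def e2644 : SCfg where
  D := {
    a := 7
    L := 10
    kp := 7
    inn := [(0, 1), (1, 0), (1, 2), (1, 3), (2, 1), (2, 3), (3, 1), (3, 2), (3, 4), (4, 3), (4, 5), (4,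
      6), (5, 4), (6, 4)]
    mix := [(0, 0), (0, 1), (0, 2), (1, 0), (1, 2), (1, 3), (2, 2), (2, 4), (3, 3), (3, 4), (3, 5), (4,
      3), (4, 5), (4, 6), (4, 7), (5, 1), (5, 5), (5, 6), (6, 3), (6, 7), (6, 8), (6, 9)]
    cl := [1, 2, 3, 0, 4, 0, 5, 0, 6, 7]
    chq := [(1, 3), (1, 4), (3, 1), (4, 1)]
    rng := [(0, 1), (0, 3), (1, 0), (1, 2), (1, 5), (1, 6), (2, 1), (2, 4), (3, 0), (3, 9), (4, 2), (4,
      5), (5, 1), (5, 4), (6, 1), (6, 7), (7, 6), (7, 8), (8, 7), (8, 9), (9, 3), (9, 8)]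
    lev := [] }
  links := [[1, 7, 8, 9], [7, 0, 9, 2, 3, 10], [3, 1, 9, 11], [10, 1, 2, 11, 12, 4], [10, 3, 12, 5, 13,
    14, 6], [13, 4, 12, 8], [10, 4, 14, 15, 16]]
  P := {
    a := 7
    N := 17
    nb := [898, 1677, 2570, 7190, 29800, 12560, 115728, 1283, 12961, 2311, 65754, 4620, 2360, 16688,
      41040, 81984, 33856]
    tri := [(0, 1, 7), (0, 1, 9), (0, 7, 8), (0, 8, 9), (1, 2, 3), (1, 2, 9), (1, 3, 10), (1, 7, 10),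
      (2, 3, 11), (2, 9, 11), (3, 4, 10), (3, 4, 12), (3, 11, 12), (4, 5, 12), (4, 5, 13), (4, 6,
      10), (4, 6, 14), (4, 13, 14), (5, 8, 12), (5, 8, 13), (6, 10, 16), (6, 14, 15), (6, 15, 16)]
    fin := [0, 0, 0, 0, 4, 5, 4, 0, 5, 9, 4, 11, 4, 13, 4, 15, 16]
    chd := [(0, 9), (0, 11)]
    steps := [(0, 1), (0, 2), (0, 3), (0, 7), (4, 6), (4, 12), (4, 14), (4, 10), (5, 8)] }
  rep := [4, 0, 5, 9, 11, 13, 15, 16]

noncomputable def v2644 : Cov.CovD where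
  P := 3
  N := 5
  pl := [1, 6, 8, 9]
  lev := [⟨[], [], [(1, 3)], [2], [(0, 1, [3, 4]), (2, 3, [1])]⟩,
    ⟨[], [(0, 0), (0, 1), (0, 3)], [(0, 1), (0, 3), (1, 3)], [], [(0, 1, [3, 4]), (2, 3,
      [1]), (3, 0, [])]⟩,
    ⟨[(0, 1)], [(0, 3), (1, 0), (1, 1), (1, 3), (1, 4)], [(3, 4)], [], [(2, 3, [1]), (4, 4,
      [1])]⟩,
    ⟨[(0, 1), (1, 2)], [(1, 0), (1, 1), (1, 3), (1, 4), (2, 0), (2, 3), (2, 4)], [(0, 0),
      (0, 4)], [], [(3, 0, []), (4, 4, [1]), (5, 0, [])]⟩,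
    ⟨[(1, 3), (2, 3)], [(1, 0), (3, 0), (3, 4)], [(0, 0)], [5], [(3, 0, []), (5, 0, []),
      (7, 0, [])]⟩,
    ⟨[(3, 4)], [(3, 0), (4, 0)], [], [2, 5], [(5, 0, [])]⟩,
    ⟨[(3, 4), (4, 5)], [(1, 0), (3, 0), (4, 0)], [(0, 0)], [6, 7], [(3, 0, []), (7, 0,
      [])]⟩]
  Ta := [((3, 0), 0, 1), ((3, 9), 0, 7), ((5, 1), 0, 2), ((5, 4), 0, 4), ((7, 6), 0, 5), ((7, 8),
    0, 6)]
  Tb := [((0, 1, 3), 1, 2, 0), ((1, 0, 2), 2, 1, 3), ((1, 0, 5), 2, 1, 0), ((1, 0, 6), 2, 1, 5),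
    ((1, 2, 5), 2, 3, 0), ((1, 2, 6), 2, 3, 5), ((1, 5, 6), 2, 0, 5), ((2, 1, 4), 3, 2, 4),
    ((3, 0, 9), 0, 1, 7), ((4, 2, 5), 4, 3, 0), ((5, 1, 4), 0, 2, 4), ((6, 1, 7), 5, 2, 0),
    ((7, 6, 8), 0, 5, 6), ((8, 7, 9), 6, 0, 7), ((9, 3, 8), 7, 0, 6)]
  Tc := [(1, 3, 4)]
  Td := [((1, 3), (0, 1), 2), ((1, 3), (0, 3), 0), ((1, 4), (0, 1), 2), ((1, 4), (0, 3), 0), ((3,
    1), (2, 1), 2), ((3, 1), (2, 4), 4), ((4, 1), (4, 2), 3), ((4, 1), (4, 5), 0)]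
  G := [[0, 0xe1e4aa161c1e618e1268988654e12c, 0, 0x2824c1e218e1e1c224c,
    0x68a1c2ee1e1c628e1e1c2149], [0, 0, 0x68aa46c21868aa46c214c,
    0x8ec242884c268a4ca84c22348ec2688a28d, 0x6882ac2e4268a8eac28cc2268a82aca688eac2349], [0,
    0, 0, 0x4e5a45c228689865c224c, 0x2c9c23ae2e1c628e1e2c2149]]

noncomputable def n2644 : Ent := ⟨e2644, noF, [], [], [(7, 16, [1580044410770988437309982408355971841652082177953823432505699930113, 0])]⟩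

def c2644 : PLift (Cov.check n2644.C.D v2644 = true) := ⟨by decide +kernel⟩

def b2644 : PLift (entF (fidx ts) 400 2644 n2644 = true) := ⟨by decide +kernel⟩

theorem g2644 : GoodF (fidx ts) 400 2644 := GoodF.ofV v2644 n2644 c2644.down b2644.down

/-- 4646745:2144/5 -/
noncomputable def e2645 : SCfg where
  D := {
    a := 7
    L := 10
    kp := 7
    inn := [(0, 1), (1, 0), (1, 2), (1, 3), (2, 1), (2, 3), (3, 1), (3, 2), (3, 4), (4, 3), (4, 5), (4,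
      6), (5, 4), (6, 4)]
    mix := [(0, 0), (0, 1), (0, 2), (1, 0), (1, 2), (1, 3), (2, 2), (2, 4), (3, 3), (3, 4), (3, 5), (4,
      3), (4, 5), (4, 6), (4, 7), (5, 5), (5, 6), (5, 8), (6, 1), (6, 3), (6, 7), (6, 9)]
    cl := [1, 2, 3, 0, 4, 0, 5, 0, 6, 7]
    chq := [(1, 3), (1, 4), (3, 1), (4, 1)]
    rng := [(0, 1), (0, 3), (1, 0), (1, 2), (1, 7), (1, 9), (2, 1), (2, 4), (3, 0), (3, 9), (4, 2), (4,
      5), (5, 4), (5, 8), (6, 7), (6, 8), (7, 1), (7, 6), (8, 5), (8, 6), (9, 1), (9, 3)]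
    lev := [] }
  links := [[1, 7, 8, 9], [7, 0, 9, 2, 3, 10], [3, 1, 9, 11], [10, 1, 2, 11, 12, 4], [10, 3, 12, 5, 13,
    14, 6], [13, 4, 12, 15], [10, 4, 14, 8, 16]]
  P := {
    a := 7
    N := 17
    nb := [898, 1677, 2570, 7190, 29800, 45072, 83216, 1283, 82625, 2311, 65754, 4620, 34872, 49200,
      8528, 12320, 1344]
    tri := [(0, 1, 7), (0, 1, 9), (0, 7, 8), (0, 8, 9), (1, 2, 3), (1, 2, 9), (1, 3, 10), (1, 7, 10),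
      (2, 3, 11), (2, 9, 11), (3, 4, 10), (3, 4, 12), (3, 11, 12), (4, 5, 12), (4, 5, 13), (4, 6,
      10), (4, 6, 14), (4, 13, 14), (5, 12, 15), (5, 13, 15), (6, 8, 14), (6, 8, 16), (6, 10, 16)]
    fin := [0, 0, 0, 0, 4, 4, 6, 0, 6, 9, 4, 11, 4, 13, 4, 15, 16]
    chd := [(0, 9), (0, 11)]
    steps := [(0, 1), (0, 2), (0, 3), (0, 7), (4, 5), (4, 12), (4, 14), (4, 10), (6, 8)] }
  rep := [4, 0, 6, 9, 11, 13, 15, 16]

noncomputable def v2645 : Cov.CovD where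
  P := 3
  N := 5
  pl := [1, 6, 8, 9]
  lev := [⟨[], [], [(1, 3)], [2], [(0, 1, [3, 4]), (2, 3, [1])]⟩,
    ⟨[], [(0, 0), (0, 1), (0, 3)], [(0, 1), (0, 3), (1, 3)], [], [(0, 1, [3, 4]), (2, 3,
      [1]), (3, 0, [])]⟩,
    ⟨[(0, 1)], [(0, 3), (1, 0), (1, 1), (1, 3), (1, 4)], [(3, 4)], [], [(2, 3, [1]), (4, 4,
      [1])]⟩,
    ⟨[(0, 1), (1, 2)], [(1, 0), (1, 1), (1, 3), (1, 4), (2, 0), (2, 3), (2, 4)], [(0, 0),
      (0, 4)], [], [(3, 0, []), (4, 4, [1]), (5, 0, [])]⟩,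
    ⟨[(1, 3), (2, 3)], [(1, 0), (3, 0), (3, 4)], [(0, 0)], [5], [(3, 0, []), (5, 0, []),
      (7, 0, [])]⟩,
    ⟨[(3, 4)], [(3, 0), (4, 0)], [], [5, 6], [(5, 0, [])]⟩,
    ⟨[(3, 4), (4, 5)], [(1, 0), (3, 0), (4, 0)], [(0, 0)], [2, 7], [(3, 0, []), (7, 0,
      [])]⟩]
  Ta := [((3, 0), 0, 1), ((3, 9), 0, 7), ((5, 4), 0, 4), ((5, 8), 0, 6), ((7, 1), 0, 2), ((7, 6),
    0, 5)]
  Tb := [((0, 1, 3), 1, 2, 0), ((1, 0, 2), 2, 1, 3), ((1, 0, 7), 2, 1, 0), ((1, 0, 9), 2, 1, 7),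
    ((1, 2, 7), 2, 3, 0), ((1, 2, 9), 2, 3, 7), ((1, 7, 9), 2, 0, 7), ((2, 1, 4), 3, 2, 4),
    ((3, 0, 9), 0, 1, 7), ((4, 2, 5), 4, 3, 0), ((5, 4, 8), 0, 4, 6), ((6, 7, 8), 5, 0, 6),
    ((7, 1, 6), 0, 2, 5), ((8, 5, 6), 6, 0, 5), ((9, 1, 3), 7, 2, 0)]
  Tc := [(1, 3, 4)]
  Td := [((1, 3), (0, 1), 2), ((1, 3), (0, 3), 0), ((1, 4), (0, 1), 2), ((1, 4), (0, 3), 0), ((3,
    1), (2, 1), 2), ((3, 1), (2, 4), 4), ((4, 1), (4, 2), 3), ((4, 1), (4, 5), 0)]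
  G := [[0, 0xc1c1ac1c1a618c1c16c1c1aa14c, 0, 0xc1c1c228c1c1c224c, 0xa1a1aa1a1c628a1a1c2149],
    [0, 0, 0, 0x84c244ce88cec684c223884c244ce88ceca84c2234c,
    0x2a2e82a8a8ee22a8628a2e88a688c22aa2ea8ae82aa8aae88e2349], [0, 0, 0xc1a1c218a1c1c214c,
    0xcc348cdc2284c8b8c5c224c, 0x2a8d8a3aaa3aa9c628a1aa6c2149]]

noncomputable def n2645 : Ent := ⟨e2645, noF, [], [], [(7, 16, [1580044410770988437309982408355971841652082177953823432505699934209, 0])]⟩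

def c2645 : PLift (Cov.check n2645.C.D v2645 = true) := ⟨by decide +kernel⟩

def b2645 : PLift (entF (fidx ts) 400 2645 n2645 = true) := ⟨by decide +kernel⟩

theorem g2645 : GoodF (fidx ts) 400 2645 := GoodF.ofV v2645 n2645 c2645.down b2645.down

/-- 4646745:2144 -/
noncomputable def e2646 : SCfg where
  D := {
    a := 7
    L := 11
    kp := 8
    inn := [(0, 1), (1, 0), (1, 2), (1, 3), (2, 1), (2, 3), (3, 1), (3, 2), (3, 4), (4, 3), (4, 5), (4,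
      6), (5, 4), (6, 4)]
    mix := [(0, 0), (0, 1), (0, 2), (1, 0), (1, 2), (1, 3), (2, 2), (2, 4), (3, 3), (3, 4), (3, 5), (4,
      3), (4, 5), (4, 6), (4, 7), (5, 5), (5, 6), (5, 8), (6, 3), (6, 7), (6, 9), (6, 10)]
    cl := [1, 5, 3, 0, 2, 0, 4, 0, 6, 7, 8]
    chq := [(1, 2), (1, 3), (2, 1), (3, 1)]
    rng := [(0, 1), (0, 3), (1, 0), (1, 2), (2, 1), (2, 4), (3, 0), (3, 10), (4, 2), (4, 5), (5, 4),
      (5, 8), (6, 7), (6, 8), (7, 6), (7, 9), (8, 5), (8, 6), (9, 7), (9, 10), (10, 3), (10, 9)]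
    lev := [] }
  links := [[1, 7, 8, 9], [7, 0, 9, 2, 3, 10], [3, 1, 9, 11], [10, 1, 2, 11, 12, 4], [10, 3, 12, 5, 13,
    14, 6], [13, 4, 12, 15], [10, 4, 14, 16, 17]]
  P := {
    a := 7
    N := 18
    nb := [898, 1677, 2570, 7190, 29800, 45072, 214032, 1283, 641, 2311, 131290, 4620, 34872, 49200,
      73808, 12320, 147520, 66624]
    tri := [(0, 1, 7), (0, 1, 9), (0, 7, 8), (0, 8, 9), (1, 2, 3), (1, 2, 9), (1, 3, 10), (1, 7, 10),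
      (2, 3, 11), (2, 9, 11), (3, 4, 10), (3, 4, 12), (3, 11, 12), (4, 5, 12), (4, 5, 13), (4, 6,
      10), (4, 6, 14), (4, 13, 14), (5, 12, 15), (5, 13, 15), (6, 10, 17), (6, 14, 16), (6, 16,
      17)]
    fin := [0, 0, 0, 0, 4, 4, 4, 0, 8, 9, 4, 11, 4, 13, 4, 15, 16, 17]
    chd := [(0, 9), (0, 11)]
    steps := [(0, 1), (0, 2), (0, 3), (0, 7), (4, 5), (4, 6), (4, 12), (4, 14), (4, 10)] }
  rep := [4, 0, 11, 9, 13, 8, 15, 16, 17]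

noncomputable def v2646 : Cov.CovD where
  P := 3
  N := 6
  pl := [1, 6, 8, 9, 10]
  lev := [⟨[], [], [(1, 3)], [5], [(0, 1, [2, 3]), (2, 3, [1])]⟩,
    ⟨[], [(0, 0), (0, 1), (0, 3)], [(0, 1), (0, 3), (1, 3)], [], [(0, 1, [2, 3]), (2, 3,
      [1]), (3, 0, [])]⟩,
    ⟨[(0, 1)], [(0, 3), (1, 0), (1, 1), (1, 2), (1, 3)], [(2, 3)], [], [(2, 3, [1]), (4, 2,
      [1])]⟩,
    ⟨[(0, 1), (1, 2)], [(1, 0), (1, 1), (1, 2), (1, 3), (2, 0), (2, 2), (2, 3)], [(0, 0),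
      (0, 2)], [], [(3, 0, []), (4, 2, [1]), (5, 0, [])]⟩,
    ⟨[(1, 3), (2, 3)], [(1, 0), (3, 0), (3, 2)], [(0, 0)], [4], [(3, 0, []), (5, 0, []),
      (7, 0, [])]⟩,
    ⟨[(3, 4)], [(3, 0), (4, 0)], [], [4, 6], [(5, 0, [])]⟩,
    ⟨[(3, 4), (4, 5)], [(1, 0), (3, 0), (4, 0)], [(0, 0)], [7, 8], [(3, 0, []), (7, 0,
      [])]⟩]
  Ta := [((3, 0), 0, 1), ((3, 10), 0, 8), ((5, 4), 0, 2), ((5, 8), 0, 6), ((7, 6), 0, 4), ((7,
    9), 0, 7)]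
  Tb := [((0, 1, 3), 1, 5, 0), ((1, 0, 2), 5, 1, 3), ((2, 1, 4), 3, 5, 2), ((3, 0, 10), 0, 1, 8),
    ((4, 2, 5), 2, 3, 0), ((5, 4, 8), 0, 2, 6), ((6, 7, 8), 4, 0, 6), ((7, 6, 9), 0, 4, 7),
    ((8, 5, 6), 6, 0, 4), ((9, 7, 10), 7, 0, 8), ((10, 3, 9), 8, 0, 7)]
  Tc := [(1, 2, 3)]
  Td := [((1, 2), (0, 1), 5), ((1, 2), (0, 3), 0), ((1, 3), (0, 1), 5), ((1, 3), (0, 3), 0), ((2,
    1), (4, 2), 3), ((2, 1), (4, 5), 0), ((3, 1), (2, 1), 5), ((3, 1), (2, 4), 2)]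
  G := [[0, 0xe1e1a418e1e16814e1e1a412e, 0, 0xe1e1a42e1e1c24c2,
    0xe1e1c228e1e16824e1e1681e1e1c21cd], [0, 0,
    0x6e2e82a8ecee4216e2e82a8ecee421ea2ee4ce64268c2466aa6ea48ee488c2cd,
    0x8a2e4642e84ceac2426ea2ee4cee8252,
    0x64ee8aeec2284c28284c288d426ea2ee4cee82464ee8aee84ce2864ee8aee84ce21cd], [0, 0, 0,
    0x62cdc867a42e14ae4fc24c2, 0x4e5ae47c22862e1e8ae824ee9ee568222e1ecae82cd]]

noncomputable def n2646 : Ent := ⟨e2646, noF, [], [], [(7, 17, [6903326391201334775872065844685381424292761054348340378595029940514817, 0]), (8, 15, [7334790850167413569773436004105379185503274260204390087403942015483905, 0]), (8, 16, [7334685537875745012586738086077695515070955365108989538292687704510465, 0])]⟩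

def c2646 : PLift (Cov.check n2646.C.D v2646 = true) := ⟨by decide +kernel⟩

def b2646 : PLift (entF (fidx ts) 400 2646 n2646 = true) := ⟨by decide +kernel⟩

theorem g2646 : GoodF (fidx ts) 400 2646 := GoodF.ofV v2646 n2646 c2646.down b2646.down

/-- 4748646:2149 -/
noncomputable def e2647 : SCfg where
  D := {
    a := 7
    L := 11
    kp := 8
    inn := [(0, 1), (0, 3), (1, 0), (1, 2), (1, 3), (2, 1), (2, 3), (3, 0), (3, 1), (3, 2), (3, 4), (3,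
      6), (4, 3), (4, 5), (4, 6), (5, 4), (5, 6), (6, 3), (6, 4), (6, 5)]
    mix := [(0, 0), (0, 1), (1, 0), (1, 2), (1, 3), (1, 4), (2, 2), (2, 5), (3, 1), (3, 5), (3, 6), (4,
      1), (4, 7), (4, 8), (5, 8), (5, 9), (6, 6), (6, 9), (6, 10)]
    cl := [1, 0, 1, 5, 6, 2, 0, 7, 3, 4, 8]
    chq := [(0, 3), (0, 4), (3, 0), (4, 0)]
    rng := [(0, 1), (0, 4), (1, 0), (1, 7), (2, 3), (2, 5), (3, 2), (3, 4), (4, 0), (4, 3), (5, 2), (5,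
      6), (6, 5), (6, 10), (7, 1), (7, 8), (8, 7), (8, 9), (9, 8), (9, 10), (10, 6), (10, 9)]
    lev := [] }
  links := [[1, 7, 8, 3], [7, 0, 3, 2, 9, 10, 11], [9, 1, 3, 12], [12, 2, 1, 0, 8, 4, 6, 13], [6, 3, 8,
    14, 15, 5], [6, 4, 15, 16], [13, 3, 4, 5, 16, 17]]
  P := {
    a := 7
    N := 18
    nb := [394, 3725, 4618, 12631, 49512, 98384, 204856, 2307, 16537, 5126, 2562, 1154, 8716, 135240,
      33040, 81968, 163936, 73792]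
    tri := [(0, 1, 3), (0, 1, 7), (0, 3, 8), (0, 7, 8), (1, 2, 3), (1, 2, 9), (1, 7, 11), (1, 9, 10),
      (1, 10, 11), (2, 3, 12), (2, 9, 12), (3, 4, 6), (3, 4, 8), (3, 6, 13), (3, 12, 13), (4, 5,
      6), (4, 5, 15), (4, 8, 14), (4, 14, 15), (5, 6, 16), (5, 15, 16), (6, 13, 17), (6, 16, 17)]
    fin := [0, 0, 0, 0, 4, 4, 4, 0, 4, 0, 10, 11, 12, 4, 14, 15, 16, 17]
    chd := [(4, 15), (4, 16)]
    steps := [(0, 1), (0, 2), (0, 3), (0, 7), (0, 9), (4, 5), (4, 6), (4, 8), (4, 13)] }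
  rep := [4, 0, 12, 15, 16, 10, 11, 14, 17]

noncomputable def v2647 : Cov.CovD where
  P := 3
  N := 6
  pl := [3, 4, 5, 7, 10]
  lev := [⟨[], [], [(0, 1)], [], [(0, 1, []), (1, 0, [3, 4])]⟩,
    ⟨[], [(0, 0), (0, 1)], [(1, 1)], [5, 6], [(0, 1, []), (2, 1, [])]⟩,
    ⟨[(0, 1)], [(1, 1)], [], [2], [(2, 1, [])]⟩,
    ⟨[(0, 1), (0, 2), (1, 2)], [(0, 0), (0, 1), (1, 0), (1, 1), (2, 0), (2, 1)], [(0, 0)],
      [2], [(1, 0, [3, 4]), (6, 0, [3, 4])]⟩,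
    ⟨[(0, 3), (1, 3), (2, 3)], [(0, 0), (3, 0), (3, 3)], [(0, 3)], [7], [(1, 0, [3, 4]),
      (8, 3, [0])]⟩,
    ⟨[(3, 4)], [(4, 0), (4, 3), (4, 4)], [(3, 4)], [], [(8, 3, [0]), (9, 4, [0])]⟩,
    ⟨[(0, 3), (1, 3), (2, 3), (3, 4), (3, 5), (4, 5)], [(3, 0), (3, 4), (4, 0), (4, 3), (4,
      4), (5, 0), (5, 3), (5, 4)], [(0, 4)], [8], [(6, 0, [3, 4]), (9, 4, [0])]⟩]
  Ta := [((0, 1), 1, 0), ((0, 4), 1, 6), ((1, 0), 0, 1), ((1, 7), 0, 7), ((2, 3), 1, 5), ((2, 5),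
    1, 2), ((6, 5), 0, 2), ((6, 10), 0, 8)]
  Tb := [((0, 1, 4), 1, 0, 6), ((1, 0, 7), 0, 1, 7), ((2, 3, 5), 1, 5, 2), ((3, 2, 4), 5, 1, 6),
    ((4, 0, 3), 6, 1, 5), ((5, 2, 6), 2, 1, 0), ((6, 5, 10), 0, 2, 8), ((7, 1, 8), 7, 0, 3),
    ((8, 7, 9), 3, 7, 4), ((9, 8, 10), 4, 3, 8), ((10, 6, 9), 8, 0, 4)]
  Tc := [(0, 3, 4)]
  Td := [((0, 3), (1, 0), 1), ((0, 3), (1, 7), 7), ((0, 3), (6, 5), 2), ((0, 3), (6, 10), 8),
    ((0, 4), (1, 0), 1), ((0, 4), (1, 7), 7), ((0, 4), (6, 5), 2), ((0, 4), (6, 10), 8), ((3,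
    0), (8, 7), 7), ((3, 0), (8, 9), 4), ((4, 0), (9, 8), 3), ((4, 0), (9, 10), 8)]
  G := [[0, 0x111e183a4111e416894111e616111e81ac18184611a5e1e8cac, 0, 0,
    0x122e1e1c1ea11c32e1e1ca12121691a5c1ea8d4], [0, 0, 0,
    0xe1a11c3e41448961e1e1e188c11a54169e1ac1d2, 0x122e11a5c1ea11221691a5c1ea8e11c361698a1d4],
    [0, 0, 0x221e1e1c1ea4221eece1a84e4e1aaa1c2d4, 0,
    0xe1e1c1e21e1e1c1e22128922161e1c188fa1d2128189], [0, 0,
    0xa8144eee18c61e1e1e818c45212e1e1c1ea483,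
    0x41461a1c182afc141a1e1262ef88814521e1e1ec18c1d2,
    0x4261e1a1c1ea161261e18188fa8612e1a18c8eda8d4]]

noncomputable def n2647 : Ent := ⟨e2647, noF, [], [], []⟩

def c2647 : PLift (Cov.check n2647.C.D v2647 = true) := ⟨by decide +kernel⟩

def b2647 : PLift (entF (fidx ts) 400 2647 n2647 = true) := ⟨by decide +kernel⟩

theorem g2647 : GoodF (fidx ts) 400 2647 := GoodF.ofV v2647 n2647 c2647.down b2647.down

/-- 4648466:2150 -/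
noncomputable def e2648 : SCfg where
  D := {
    a := 7
    L := 10
    kp := 8
    inn := [(0, 1), (0, 5), (1, 0), (1, 2), (1, 3), (1, 5), (1, 6), (2, 1), (2, 6), (3, 1), (3, 4), (3,
      5), (3, 6), (4, 3), (5, 0), (5, 1), (5, 3), (6, 1), (6, 2), (6, 3)]
    mix := [(0, 0), (0, 1), (1, 1), (2, 1), (2, 2), (3, 3), (3, 4), (3, 5), (3, 6), (4, 3), (4, 4), (4,
      7), (5, 0), (5, 6), (5, 8), (6, 2), (6, 3), (6, 9)]
    cl := [2, 1, 3, 0, 4, 5, 0, 6, 7, 8]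
    chq := [(0, 1), (0, 2), (0, 3), (1, 0), (2, 0), (3, 0), (5, 6), (6, 5)]
    rng := [(0, 1), (0, 8), (1, 0), (1, 2), (2, 1), (2, 9), (3, 7), (3, 9), (4, 5), (4, 7), (5, 4), (5,
      6), (6, 5), (6, 8), (7, 3), (7, 4), (8, 0), (8, 6), (9, 2), (9, 3)]
    lev := [] }
  links := [[1, 5, 7, 8], [5, 0, 8, 2, 6, 3], [6, 1, 8, 9], [5, 1, 6, 10, 4, 11, 12, 13], [11, 3, 10,
    14], [7, 0, 1, 3, 13, 15], [10, 3, 1, 2, 9, 16]]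
  P := {
    a := 7
    N := 17
    nb := [418, 365, 834, 15474, 19464, 41099, 67086, 33057, 647, 65860, 82008, 20504, 10248, 36904,
      3088, 8352, 1600]
    tri := [(0, 1, 5), (0, 1, 8), (0, 5, 7), (0, 7, 8), (1, 2, 6), (1, 2, 8), (1, 3, 5), (1, 3, 6), (2,
      6, 9), (2, 8, 9), (3, 4, 10), (3, 4, 11), (3, 5, 13), (3, 6, 10), (3, 11, 12), (3, 12, 13),
      (4, 10, 14), (4, 11, 14), (5, 7, 15), (5, 13, 15), (6, 9, 16), (6, 10, 16)]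
    fin := [0, 1, 2, 3, 3, 1, 1, 0, 2, 9, 1, 11, 12, 1, 3, 15, 16]
    chd := [(0, 1), (2, 1), (9, 1), (12, 3)]
    steps := [(0, 7), (1, 5), (1, 6), (1, 10), (1, 13), (2, 8), (3, 4), (3, 14)] }
  rep := [1, 2, 0, 9, 11, 12, 3, 15, 16]

noncomputable def v2648 : Cov.CovD where
  P := 3
  N := 6
  pl := [4, 8, 9]
  lev := [⟨[], [], [(1, 2)], [], [(0, 2, [0]), (1, 1, [0])]⟩,
    ⟨[], [(0, 1), (0, 2)], [], [], [(1, 1, [0])]⟩,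
    ⟨[(0, 1)], [(0, 1), (1, 1), (1, 3)], [(1, 3)], [], [(1, 1, [0]), (2, 3, [0])]⟩,
    ⟨[(0, 1), (1, 2)], [(1, 0), (1, 1), (1, 5)], [(0, 0), (0, 5)], [4], [(3, 0, [1, 2, 3]),
      (5, 5, [6]), (6, 0, [1, 2, 3])]⟩,
    ⟨[(1, 3)], [(3, 0), (3, 5), (3, 6)], [(0, 6)], [4], [(3, 0, [1, 2, 3]), (7, 6, [5])]⟩,
    ⟨[(0, 1), (0, 3), (1, 2), (1, 3), (3, 4)], [(0, 0), (0, 1), (0, 2), (1, 0), (1, 1), (1,
      2), (3, 0), (3, 2), (3, 5)], [(0, 2)], [7], [(0, 2, [0]), (6, 0, [1, 2, 3])]⟩,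
    ⟨[(0, 1), (1, 2), (1, 3), (1, 5), (2, 3), (3, 4), (3, 5)], [(1, 0), (1, 1), (1, 3), (2,
      0), (2, 1), (2, 3), (3, 0), (3, 3), (3, 5), (4, 0)], [(0, 3)], [8], [(2, 3, [0]), (3,
      0, [1, 2, 3])]⟩]
  Ta := [((3, 7), 0, 6), ((3, 9), 0, 8), ((6, 5), 0, 5), ((6, 8), 0, 7)]
  Tb := [((0, 1, 8), 2, 1, 7), ((1, 0, 2), 1, 2, 3), ((2, 1, 9), 3, 1, 8), ((3, 7, 9), 0, 6, 8),
    ((4, 5, 7), 4, 5, 6), ((5, 4, 6), 5, 4, 0), ((6, 5, 8), 0, 5, 7), ((7, 3, 4), 6, 0, 4),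
    ((8, 0, 6), 7, 2, 0), ((9, 2, 3), 8, 3, 0)]
  Tc := [(0, 1, 2), (0, 1, 3), (0, 2, 3)]
  Td := [((0, 1), (3, 7), 6), ((0, 1), (3, 9), 8), ((0, 1), (6, 5), 5), ((0, 1), (6, 8), 7), ((0,
    2), (3, 7), 6), ((0, 2), (3, 9), 8), ((0, 2), (6, 5), 5), ((0, 2), (6, 8), 7), ((0, 3),
    (3, 7), 6), ((0, 3), (3, 9), 8), ((0, 3), (6, 5), 5), ((0, 3), (6, 8), 7), ((1, 0), (1,
    0), 2), ((1, 0), (1, 2), 3), ((2, 0), (0, 1), 1), ((2, 0), (0, 8), 7), ((3, 0), (2, 1),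
    1), ((3, 0), (2, 9), 8), ((5, 6), (5, 4), 4), ((5, 6), (5, 6), 0), ((6, 5), (7, 3), 0),
    ((6, 5), (7, 4), 4)]
  G := [[0, 0x1121111ca1111c2a1111a4e11c11c364,
    0x122116116c61211aa11c11ac666618d182888861eaa1c1d4, 0x6161a41e1e168181ae1e1ce1c8,
    0x4161a41e1e16a181ae1e1ce1c8], [0, 0xa111111c6c111111a1111ce111168e28,
    0x1212a116116c61811aa11c116c6cee61a8a6a3c194,
    0x4411414ac6ac6ac36ec6ec5651818686ac188188889e9c1,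
    0x62248a6ea3426ca68de1181869281aca1212c26ea1a8883881edc1]]

noncomputable def n2648 : Ent := ⟨e2648, noF, [], [], []⟩

def c2648 : PLift (Cov.check n2648.C.D v2648 = true) := ⟨by decide +kernel⟩

def b2648 : PLift (entF (fidx ts) 400 2648 n2648 = true) := ⟨by decide +kernel⟩

theorem g2648 : GoodF (fidx ts) 400 2648 := GoodF.ofV v2648 n2648 c2648.down b2648.down

/-- 4648466:2151/1 -/
noncomputable def e2649 : SCfg where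
  D := {
    a := 7
    L := 10
    kp := 8
    inn := [(0, 1), (0, 5), (1, 0), (1, 2), (1, 3), (1, 5), (2, 1), (3, 1), (3, 4), (3, 5), (3, 6), (4,
      3), (4, 6), (5, 0), (5, 1), (5, 3), (6, 3), (6, 4)]
    mix := [(0, 0), (0, 1), (1, 1), (1, 2), (2, 1), (2, 2), (2, 3), (3, 2), (3, 4), (3, 5), (3, 6), (4,
      4), (4, 7), (5, 0), (5, 6), (5, 8), (6, 2), (6, 3), (6, 7), (6, 9)]
    cl := [3, 1, 0, 2, 5, 6, 0, 4, 8, 7]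
    chq := [(0, 1), (0, 3), (1, 0), (2, 6), (3, 0), (4, 6), (6, 2), (6, 4), (6, 7), (7, 6)]
    rng := [(0, 1), (0, 8), (1, 0), (1, 3), (2, 3), (3, 1), (3, 2), (3, 9), (4, 5), (4, 7), (5, 4), (5,
      6), (6, 5), (6, 8), (7, 4), (7, 9), (8, 0), (8, 6), (9, 3), (9, 7)]
    lev := [] }
  links := [[1, 5, 7, 8], [5, 0, 8, 2, 9, 3], [9, 1, 8, 10], [5, 1, 9, 6, 4, 11, 12, 13], [11, 3, 6, 14],
    [7, 0, 1, 3, 13, 15], [14, 4, 3, 9, 10, 16]]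
  P := {
    a := 7
    N := 17
    nb := [418, 813, 1794, 14962, 18504, 41099, 83480, 33057, 1159, 1102, 66372, 20504, 10248, 36904,
      67664, 8352, 17472]
    tri := [(0, 1, 5), (0, 1, 8), (0, 5, 7), (0, 7, 8), (1, 2, 8), (1, 2, 9), (1, 3, 5), (1, 3, 9), (2,
      8, 10), (2, 9, 10), (3, 4, 6), (3, 4, 11), (3, 5, 13), (3, 6, 9), (3, 11, 12), (3, 12, 13),
      (4, 6, 14), (4, 11, 14), (5, 7, 15), (5, 13, 15), (6, 9, 10), (6, 10, 16), (6, 14, 16)]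
    fin := [0, 1, 2, 3, 4, 1, 3, 0, 2, 1, 10, 11, 3, 1, 4, 15, 16]
    chd := [(0, 1), (2, 1), (3, 4), (3, 16), (10, 3)]
    steps := [(0, 7), (1, 5), (1, 9), (1, 13), (2, 8), (3, 6), (3, 12), (4, 14)] }
  rep := [1, 2, 10, 0, 4, 11, 3, 16, 15]

noncomputable def v2649 : Cov.CovD where
  P := 3
  N := 6
  pl := [4, 8]
  lev := [⟨[], [], [(1, 3)], [], [(0, 3, [0]), (1, 1, [0])]⟩,
    ⟨[], [(0, 0), (0, 1), (0, 3)], [(0, 1)], [], [(1, 1, [0]), (2, 0, [1, 3])]⟩,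
    ⟨[(0, 1)], [(0, 1), (1, 0), (1, 1), (1, 2)], [(0, 1), (0, 2), (1, 2)], [], [(1, 1,
      [0]), (2, 0, [1, 3]), (3, 2, [6])]⟩,
    ⟨[(0, 1), (1, 2)], [(1, 0), (1, 1), (1, 6), (2, 0)], [(0, 0), (0, 6)], [5], [(2, 0, [1,
      3]), (5, 6, [2, 4, 7]), (6, 0, [1, 3])]⟩,
    ⟨[(1, 3)], [(3, 0), (3, 4), (3, 6)], [], [5], [(7, 4, [6])]⟩,
    ⟨[(0, 1), (0, 3), (1, 2), (1, 3), (3, 4)], [(0, 0), (0, 1), (0, 3), (1, 0), (1, 1), (1,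
      3), (3, 0), (3, 3), (3, 6)], [(0, 3)], [8], [(0, 3, [0]), (6, 0, [1, 3])]⟩,
    ⟨[(1, 3), (3, 4), (3, 5)], [(1, 0), (2, 0), (2, 2), (3, 0), (3, 2), (3, 4), (3, 6), (3,
      7), (4, 0), (4, 2), (4, 4), (4, 7)], [(0, 2), (0, 4), (0, 7), (2, 4), (2, 7), (4, 7)],
      [], [(2, 0, [1, 3]), (3, 2, [6]), (7, 4, [6]), (9, 7, [6])]⟩]
  Ta := [((2, 3), 0, 2), ((6, 5), 0, 6), ((6, 8), 0, 8)]
  Tb := [((0, 1, 8), 3, 1, 8), ((1, 0, 3), 1, 3, 2), ((3, 1, 2), 2, 1, 0), ((3, 1, 9), 2, 1, 7),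
    ((3, 2, 9), 2, 0, 7), ((4, 5, 7), 5, 6, 4), ((5, 4, 6), 6, 5, 0), ((6, 5, 8), 0, 6, 8),
    ((7, 4, 9), 4, 5, 7), ((8, 0, 6), 8, 3, 0), ((9, 3, 7), 7, 2, 4)]
  Tc := [(0, 1, 3), (6, 2, 4), (6, 2, 7), (6, 4, 7)]
  Td := [((0, 1), (2, 3), 2), ((0, 1), (6, 5), 6), ((0, 1), (6, 8), 8), ((0, 3), (2, 3), 2), ((0,
    3), (6, 5), 6), ((0, 3), (6, 8), 8), ((1, 0), (1, 0), 3), ((1, 0), (1, 3), 2), ((2, 6),
    (3, 1), 1), ((2, 6), (3, 2), 0), ((2, 6), (3, 9), 7), ((3, 0), (0, 1), 1), ((3, 0), (0,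
    8), 8), ((4, 6), (7, 4), 5), ((4, 6), (7, 9), 7), ((6, 2), (5, 4), 5), ((6, 2), (5, 6),
    0), ((6, 4), (5, 4), 5), ((6, 4), (5, 6), 0), ((6, 7), (5, 4), 5), ((6, 7), (5, 6), 0),
    ((7, 6), (9, 3), 2), ((7, 6), (9, 7), 4)]
  G := [[0, 0x616199184181817e8481116488d1116a11c1c141de84e,
    0xa1a15c1c13646161988c41616c12121dc1c13e48c,
    0xc88e88c9444c4e42444e7828238864cceccc8cafe8c1,
    0x61619884a14488a22a68867486662862666fa828a8b8288ccccccefe8cd], [0,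
    0xa1a154461619c1c13a8c4161581819181fd141ce486, 0,
    0x99692a48888c4944555e12e188c242ddccccefe8c1,
    0xaaae82a2aaee41123b3e33bee998e1b1e8888afa8c1]]

noncomputable def n2649 : Ent := ⟨e2649, noF, [], [], []⟩

def c2649 : PLift (Cov.check n2649.C.D v2649 = true) := ⟨by decide +kernel⟩

def b2649 : PLift (entF (fidx ts) 400 2649 n2649 = true) := ⟨by decide +kernel⟩

theorem g2649 : GoodF (fidx ts) 400 2649 := GoodF.ofV v2649 n2649 c2649.down b2649.down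

/-- 4648466:2151 -/
noncomputable def e2650 : SCfg where
  D := {
    a := 7
    L := 11
    kp := 9
    inn := [(0, 1), (0, 5), (1, 0), (1, 2), (1, 3), (1, 5), (2, 1), (3, 1), (3, 4), (3, 5), (3, 6), (4,
      3), (4, 6), (5, 0), (5, 1), (5, 3), (6, 3), (6, 4)]
    mix := [(0, 0), (0, 1), (1, 1), (1, 2), (2, 1), (2, 2), (2, 3), (3, 2), (3, 4), (3, 5), (3, 6), (4,
      4), (4, 7), (5, 0), (5, 6), (5, 8), (6, 2), (6, 7), (6, 9), (6, 10)]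
    cl := [2, 1, 0, 8, 4, 5, 0, 3, 9, 6, 7]
    chq := [(0, 1), (0, 2), (1, 0), (2, 0), (3, 5), (5, 3), (5, 6), (5, 7), (6, 5), (7, 5)]
    rng := [(0, 1), (0, 8), (1, 0), (1, 3), (2, 3), (2, 9), (3, 1), (3, 2), (4, 5), (4, 7), (5, 4), (5,
      6), (6, 5), (6, 8), (7, 4), (7, 10), (8, 0), (8, 6), (9, 2), (9, 10), (10, 7), (10, 9)]
    lev := [] }
  links := [[1, 5, 7, 8], [5, 0, 8, 2, 9, 3], [9, 1, 8, 10], [5, 1, 9, 6, 4, 11, 12, 13], [11, 3, 6, 14],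
    [7, 0, 1, 3, 13, 15], [14, 4, 3, 9, 16, 17]]
  P := {
    a := 7
    N := 18
    nb := [418, 813, 1794, 14962, 18504, 41099, 213528, 33057, 1159, 66638, 772, 20504, 10248, 36904,
      133200, 8352, 131648, 81984]
    tri := [(0, 1, 5), (0, 1, 8), (0, 5, 7), (0, 7, 8), (1, 2, 8), (1, 2, 9), (1, 3, 5), (1, 3, 9), (2,
      8, 10), (2, 9, 10), (3, 4, 6), (3, 4, 11), (3, 5, 13), (3, 6, 9), (3, 11, 12), (3, 12, 13),
      (4, 6, 14), (4, 11, 14), (5, 7, 15), (5, 13, 15), (6, 9, 16), (6, 14, 17), (6, 16, 17)]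
    fin := [0, 1, 2, 3, 4, 1, 3, 0, 2, 1, 10, 11, 3, 1, 4, 15, 16, 17]
    chd := [(0, 1), (2, 1), (3, 4), (3, 16), (3, 17)]
    steps := [(0, 7), (1, 5), (1, 9), (1, 13), (2, 8), (3, 6), (3, 12), (4, 14)] }
  rep := [1, 2, 0, 4, 11, 3, 16, 17, 10, 15]

noncomputable def v2650 : Cov.CovD where
  P := 3
  N := 7
  pl := [3, 4, 8]
  lev := [⟨[], [], [(1, 2)], [], [(0, 2, [0]), (1, 1, [0])]⟩,
    ⟨[], [(0, 0), (0, 1), (0, 2)], [(0, 1)], [], [(1, 1, [0]), (2, 0, [1, 2])]⟩,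
    ⟨[(0, 1)], [(0, 1), (1, 0), (1, 1)], [(0, 1)], [8], [(1, 1, [0]), (2, 0, [1, 2])]⟩,
    ⟨[(0, 1), (1, 2)], [(1, 0), (1, 1), (1, 5), (2, 0)], [(0, 0), (0, 5)], [4], [(2, 0, [1,
      2]), (5, 5, [3, 6, 7]), (6, 0, [1, 2])]⟩,
    ⟨[(1, 3)], [(3, 0), (3, 3), (3, 5)], [], [4], [(7, 3, [5])]⟩,
    ⟨[(0, 1), (0, 3), (1, 2), (1, 3), (3, 4)], [(0, 0), (0, 1), (0, 2), (1, 0), (1, 1), (1,
      2), (3, 0), (3, 2), (3, 5)], [(0, 2)], [9], [(0, 2, [0]), (6, 0, [1, 2])]⟩,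
    ⟨[(1, 3), (3, 4), (3, 5)], [(1, 0), (2, 0), (3, 0), (3, 3), (3, 5), (3, 6), (3, 7), (4,
      0), (4, 3), (4, 6), (4, 7)], [(0, 3), (0, 6), (0, 7), (3, 6), (3, 7), (6, 7)], [], [(2,
      0, [1, 2]), (7, 3, [5]), (9, 6, [5]), (10, 7, [5])]⟩]
  Ta := [((2, 3), 0, 8), ((2, 9), 0, 6), ((6, 5), 0, 5), ((6, 8), 0, 9)]
  Tb := [((0, 1, 8), 2, 1, 9), ((1, 0, 3), 1, 2, 8), ((2, 3, 9), 0, 8, 6), ((3, 1, 2), 8, 1, 0),
    ((4, 5, 7), 4, 5, 3), ((5, 4, 6), 5, 4, 0), ((6, 5, 8), 0, 5, 9), ((7, 4, 10), 3, 4, 7),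
    ((8, 0, 6), 9, 2, 0), ((9, 2, 10), 6, 0, 7), ((10, 7, 9), 7, 3, 6)]
  Tc := [(0, 1, 2), (5, 3, 6), (5, 3, 7), (5, 6, 7)]
  Td := [((0, 1), (2, 3), 8), ((0, 1), (2, 9), 6), ((0, 1), (6, 5), 5), ((0, 1), (6, 8), 9), ((0,
    2), (2, 3), 8), ((0, 2), (2, 9), 6), ((0, 2), (6, 5), 5), ((0, 2), (6, 8), 9), ((1, 0),
    (1, 0), 2), ((1, 0), (1, 3), 8), ((2, 0), (0, 1), 1), ((2, 0), (0, 8), 9), ((3, 5), (7,
    4), 4), ((3, 5), (7, 10), 7), ((5, 3), (5, 4), 4), ((5, 3), (5, 6), 0), ((5, 6), (5, 4),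
    4), ((5, 6), (5, 6), 0), ((5, 7), (5, 4), 4), ((5, 7), (5, 6), 0), ((6, 5), (9, 2), 0),
    ((6, 5), (9, 10), 7), ((7, 5), (10, 7), 3), ((7, 5), (10, 9), 6)]
  G := [[0, 0x4181c172a1a15c1c1366616198131817c616198ca8, 0xaaaaac5ccccc6361666666981c1,
    0x618844a1a154611a1a15c1c13ec61619c1c13a8cc,
    0xa1a1544616161d8121a1bc1c1c17e61619c1c13acc8], [0,
    0xa1a15c1c136c1c1326615121d861619a131817c6a8, 0xaaaaaa5ccccc636166666a981c1,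
    0x14411c811c11c11ceeaaca8242acfc8c4ccc48cf651451cc1881811c11cee584864442822cf8dc1,
    0x12211a11a12e11a18ae88aa2aa228f451211a12e11a12a1811a18ee66a2ea66a7c8a42c84cafa9c1]]

noncomputable def n2650 : Ent := ⟨e2650, noF, [], [], [(10, 16, [7334685537875745012586738086077695515070955365108989538292687704526849, 0])]⟩

def c2650 : PLift (Cov.check n2650.C.D v2650 = true) := ⟨by decide +kernel⟩

def b2650 : PLift (entF (fidx ts) 400 2650 n2650 = true) := ⟨by decide +kernel⟩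

theorem g2650 : GoodF (fidx ts) 400 2650 := GoodF.ofV v2650 n2650 c2650.down b2650.down

/-- 4648464:2152 -/
noncomputable def e2651 : SCfg where
  D := {
    a := 7
    L := 10
    kp := 8
    inn := [(0, 1), (0, 5), (1, 0), (1, 2), (1, 3), (1, 5), (2, 1), (3, 1), (3, 4), (3, 5), (3, 6), (4,
      3), (5, 0), (5, 1), (5, 3), (6, 3)]
    mix := [(0, 0), (0, 1), (1, 1), (1, 2), (2, 1), (2, 2), (2, 3), (3, 2), (3, 4), (3, 5), (3, 6), (4,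
      4), (4, 5), (4, 7), (5, 0), (5, 6), (5, 8), (6, 5), (6, 6), (6, 9)]
    cl := [2, 1, 0, 6, 3, 4, 3, 7, 5, 8]
    chq := [(0, 1), (0, 2), (0, 5), (1, 0), (2, 0), (3, 4), (4, 3), (5, 0)]
    rng := [(0, 1), (0, 8), (1, 0), (1, 3), (2, 3), (2, 4), (3, 1), (3, 2), (4, 2), (4, 7), (5, 7), (5,
      9), (6, 8), (6, 9), (7, 4), (7, 5), (8, 0), (8, 6), (9, 5), (9, 6)]
    lev := [] }
  links := [[1, 5, 7, 8], [5, 0, 8, 2, 9, 3], [9, 1, 8, 10], [5, 1, 9, 11, 4, 12, 6, 13], [12, 3, 11,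
    14], [7, 0, 1, 3, 13, 15], [13, 3, 12, 16]]
  P := {
    a := 7
    N := 17
    nb := [418, 813, 1794, 14962, 22536, 41099, 77832, 33057, 1159, 3086, 772, 16920, 82008, 98408,
      6160, 8352, 12352]
    tri := [(0, 1, 5), (0, 1, 8), (0, 5, 7), (0, 7, 8), (1, 2, 8), (1, 2, 9), (1, 3, 5), (1, 3, 9), (2,
      8, 10), (2, 9, 10), (3, 4, 11), (3, 4, 12), (3, 5, 13), (3, 6, 12), (3, 6, 13), (3, 9, 11),
      (4, 11, 14), (4, 12, 14), (5, 7, 15), (5, 13, 15), (6, 12, 16), (6, 13, 16)]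
    fin := [0, 1, 2, 3, 3, 1, 3, 0, 2, 1, 10, 3, 12, 3, 14, 15, 16]
    chd := [(0, 1), (1, 15), (2, 1), (3, 12)]
    steps := [(0, 7), (1, 5), (1, 9), (2, 8), (3, 4), (3, 6), (3, 11), (3, 13)] }
  rep := [1, 2, 0, 3, 12, 15, 10, 14, 16]

noncomputable def v2651 : Cov.CovD where
  P := 3
  N := 6
  pl := [3, 7, 9]
  lev := [⟨[], [], [(1, 2)], [], [(0, 2, [0]), (1, 1, [0])]⟩,
    ⟨[], [(0, 0), (0, 1), (0, 2)], [(0, 1)], [], [(1, 1, [0]), (2, 0, [1, 2, 5])]⟩,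
    ⟨[(0, 1)], [(0, 1), (1, 0), (1, 1)], [(0, 1)], [6], [(1, 1, [0]), (2, 0, [1, 2, 5])]⟩,
    ⟨[(0, 1), (1, 2)], [(1, 0), (1, 1), (1, 3), (1, 4), (2, 0)], [(0, 3), (0, 4), (3, 3),
      (3, 4)], [], [(2, 0, [1, 2, 5]), (4, 3, [4]), (5, 4, [3]), (6, 3, [4])]⟩,
    ⟨[(1, 3)], [(3, 0), (3, 3), (3, 4)], [(3, 4)], [7], [(4, 3, [4]), (5, 4, [3])]⟩,
    ⟨[(0, 1), (0, 3), (1, 2), (1, 3), (3, 4)], [(0, 1), (0, 2), (0, 3), (0, 5), (1, 0), (1,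
      1), (1, 2), (1, 3), (1, 5), (3, 0), (3, 2), (3, 3), (3, 4), (3, 5)], [(2, 3), (2, 5),
      (3, 5)], [], [(0, 2, [0]), (6, 3, [4]), (8, 5, [0])]⟩,
    ⟨[(1, 3), (3, 4), (3, 5)], [(3, 0), (3, 3), (3, 4), (4, 4), (5, 3)], [(3, 4)], [8],
      [(5, 4, [3]), (6, 3, [4])]⟩]
  Ta := [((4, 2), 3, 0), ((4, 7), 3, 7), ((6, 8), 3, 5), ((6, 9), 3, 8)]
  Tb := [((0, 1, 8), 2, 1, 5), ((1, 0, 3), 1, 2, 6), ((2, 3, 4), 0, 6, 3), ((3, 1, 2), 6, 1, 0),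
    ((4, 2, 7), 3, 0, 7), ((5, 7, 9), 4, 7, 8), ((6, 8, 9), 3, 5, 8), ((7, 4, 5), 7, 3, 4),
    ((8, 0, 6), 5, 2, 3), ((9, 5, 6), 8, 4, 3)]
  Tc := [(0, 1, 2), (0, 1, 5), (0, 2, 5)]
  Td := [((0, 1), (2, 3), 6), ((0, 1), (2, 4), 3), ((0, 2), (2, 3), 6), ((0, 2), (2, 4), 3), ((0,
    5), (2, 3), 6), ((0, 5), (2, 4), 3), ((1, 0), (1, 0), 2), ((1, 0), (1, 3), 6), ((2, 0),
    (0, 1), 1), ((2, 0), (0, 8), 5), ((3, 4), (4, 2), 0), ((3, 4), (4, 7), 7), ((3, 4), (6,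
    8), 5), ((3, 4), (6, 9), 8), ((4, 3), (5, 7), 7), ((4, 3), (5, 9), 8), ((5, 0), (8, 0),
    2), ((5, 0), (8, 6), 3)]
  G := [[0, 0xa1515c13136c13132c61919861919a1515caa4, 0xa1515c1313616191981c4,
    0x81a151d14264614191d81a19814111cd31fe614191d81411c931facca14488c,
    0x811a32151f81c131b64163c12191f8122a1b18181c931fe612191b8cc9a3442451844c89], [0,
    0x5151a21211111f65151a3131c66919168919168cc8, 0x5151a41919163131ca1c4,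
    0x919168919168c45151a3131c65151a3131c6c8c,
    0x5151a441245919161123131ce919163131cacc55341a4889]]

noncomputable def n2651 : Ent := ⟨e2651, noF, [], [], []⟩

def c2651 : PLift (Cov.check n2651.C.D v2651 = true) := ⟨by decide +kernel⟩

def b2651 : PLift (entF (fidx ts) 400 2651 n2651 = true) := ⟨by decide +kernel⟩

theorem g2651 : GoodF (fidx ts) 400 2651 := GoodF.ofV v2651 n2651 c2651.down b2651.down

/-- 4749445:2153 -/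
noncomputable def e2652 : SCfg where
  D := {
    a := 7
    L := 10
    kp := 7
    inn := [(0, 1), (0, 3), (1, 0), (1, 2), (1, 3), (2, 1), (2, 3), (3, 0), (3, 1), (3, 2), (3, 4), (3,
      5), (3, 6), (4, 3), (5, 3), (5, 6), (6, 3), (6, 5)]
    mix := [(0, 0), (0, 1), (1, 0), (1, 2), (1, 3), (1, 4), (2, 2), (2, 5), (3, 1), (3, 5), (3, 6), (4,
      1), (4, 6), (4, 7), (5, 6), (5, 8), (6, 5), (6, 8), (6, 9)]
    cl := [1, 2, 1, 4, 5, 0, 0, 6, 3, 7]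
    chq := [(0, 2), (2, 0)]
    rng := [(0, 1), (0, 4), (1, 0), (1, 7), (2, 3), (2, 5), (3, 2), (3, 4), (4, 0), (4, 3), (5, 2), (5,
      9), (6, 7), (6, 8), (7, 1), (7, 6), (8, 6), (8, 9), (9, 5), (9, 8)]
    lev := [] }
  links := [[1, 7, 8, 3], [7, 0, 3, 2, 9, 10, 11], [9, 1, 3, 12], [12, 2, 1, 0, 8, 4, 13, 5, 6], [13, 3,
    8, 14], [6, 3, 13, 15], [12, 3, 5, 15, 16]]
  P := {
    a := 7
    N := 17
    nb := [394, 3725, 4618, 12663, 24840, 41032, 102440, 2307, 16537, 5126, 2562, 1154, 66124, 49208,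
      8464, 73824, 36928]
    tri := [(0, 1, 3), (0, 1, 7), (0, 3, 8), (0, 7, 8), (1, 2, 3), (1, 2, 9), (1, 7, 11), (1, 9, 10),
      (1, 10, 11), (2, 3, 12), (2, 9, 12), (3, 4, 8), (3, 4, 13), (3, 5, 6), (3, 5, 13), (3, 6,
      12), (4, 8, 14), (4, 13, 14), (5, 6, 15), (5, 13, 15), (6, 12, 16), (6, 15, 16)]
    fin := [0, 0, 0, 0, 4, 5, 5, 0, 4, 0, 10, 11, 5, 5, 14, 15, 16]
    chd := [(4, 5)]
    steps := [(0, 1), (0, 2), (0, 3), (0, 7), (0, 9), (4, 8), (5, 6), (5, 13), (5, 12)] }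
  rep := [5, 0, 4, 15, 10, 11, 14, 16]

noncomputable def v2652 : Cov.CovD where
  P := 3
  N := 5
  pl := [3, 4, 7, 8, 9]
  lev := [⟨[], [], [(1, 2)], [], [(0, 1, []), (1, 2, [0])]⟩,
    ⟨[], [(0, 1), (0, 2)], [(1, 1)], [4, 5], [(0, 1, []), (2, 1, [])]⟩,
    ⟨[(0, 1)], [(1, 0), (1, 1)], [(0, 1)], [], [(2, 1, []), (5, 0, [2])]⟩,
    ⟨[(0, 1), (0, 2), (1, 2)], [(0, 0), (0, 1), (0, 2), (1, 0), (1, 1), (1, 2), (2, 0), (2,
      1), (2, 2)], [(0, 0), (0, 2)], [], [(1, 2, [0]), (5, 0, [2]), (6, 0, [2])]⟩,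
    ⟨[(0, 3), (1, 3), (2, 3)], [(0, 2), (3, 0), (3, 2)], [(0, 2)], [6], [(1, 2, [0]), (6,
      0, [2])]⟩,
    ⟨[(0, 3), (1, 3), (2, 3), (3, 4)], [(3, 0), (3, 2), (4, 0)], [], [3], [(6, 0, [2])]⟩,
    ⟨[(0, 3), (1, 3), (2, 3), (3, 4), (3, 5)], [(2, 0), (3, 0), (3, 2), (5, 0)], [], [3,
      7], [(5, 0, [2])]⟩]
  Ta := [((0, 1), 1, 2), ((0, 4), 1, 5), ((2, 3), 1, 4), ((2, 5), 1, 0), ((5, 2), 0, 1), ((5, 9),
    0, 7), ((6, 7), 0, 6), ((6, 8), 0, 3)]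
  Tb := [((0, 1, 4), 1, 2, 5), ((1, 0, 7), 2, 1, 6), ((2, 3, 5), 1, 4, 0), ((3, 2, 4), 4, 1, 5),
    ((4, 0, 3), 5, 1, 4), ((5, 2, 9), 0, 1, 7), ((6, 7, 8), 0, 6, 3), ((7, 1, 6), 6, 2, 0),
    ((8, 6, 9), 3, 0, 7), ((9, 5, 8), 7, 0, 3)]
  Tc := []
  Td := [((0, 2), (5, 2), 1), ((0, 2), (5, 9), 7), ((0, 2), (6, 7), 6), ((0, 2), (6, 8), 3), ((2,
    0), (1, 0), 1), ((2, 0), (1, 7), 6)]
  G := [[0, 0, 0x121814e2411a11aa42181214e24d8, 0x44182a1c444182a1c2ca6184d1,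
    0xa6c128ca6182a6c128d1], [0, 0xc6a142ca6184ca6182e1, 0x181214e48121418e84181214e48d2, 0,
    0xa6c124a6c128a6c128d8], [0, 0, 0x1218a14468121418e28141218e84d4,
    0x93693ac4253616ac82c1a93ac42d1, 0x16cd1ca2459c95ca281d695ca24d8], [0, 0,
    0x141218e48141218e84116116688d2, 0, 0x95ad1ca2416c1dca245961dca24d8]]

noncomputable def n2652 : Ent := ⟨e2652, noF, [], [], []⟩

def c2652 : PLift (Cov.check n2652.C.D v2652 = true) := ⟨by decide +kernel⟩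

def b2652 : PLift (entF (fidx ts) 400 2652 n2652 = true) := ⟨by decide +kernel⟩

theorem g2652 : GoodF (fidx ts) 400 2652 := GoodF.ofV v2652 n2652 c2652.down b2652.down

/-- 4749446:2155 -/
noncomputable def e2653 : SCfg where
  D := {
    a := 7
    L := 10
    kp := 7
    inn := [(0, 1), (0, 3), (1, 0), (1, 2), (1, 3), (2, 1), (2, 3), (3, 0), (3, 1), (3, 2), (3, 4), (3,
      5), (3, 6), (4, 3), (4, 6), (5, 3), (5, 6), (6, 3), (6, 4), (6, 5)]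
    mix := [(0, 0), (0, 1), (1, 0), (1, 2), (1, 3), (1, 4), (2, 2), (2, 5), (3, 1), (3, 5), (3, 6), (4,
      1), (4, 7), (5, 6), (5, 8), (6, 7), (6, 8), (6, 9)]
    cl := [1, 0, 1, 6, 7, 2, 0, 3, 4, 5]
    chq := [(0, 5), (5, 0)]
    rng := [(0, 1), (0, 4), (1, 0), (1, 7), (2, 3), (2, 5), (3, 2), (3, 4), (4, 0), (4, 3), (5, 2), (5,
      6), (6, 5), (6, 8), (7, 1), (7, 9), (8, 6), (8, 9), (9, 7), (9, 8)]
    lev := [] }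
  links := [[1, 7, 8, 3], [7, 0, 3, 2, 9, 10, 11], [9, 1, 3, 12], [12, 2, 1, 0, 8, 4, 6, 5, 13], [6, 3,
    8, 14], [13, 3, 6, 15], [15, 5, 3, 4, 14, 16]]
  P := {
    a := 7
    N := 17
    nb := [394, 3725, 4618, 12663, 16712, 41032, 114744, 2307, 16537, 5126, 2562, 1154, 8716, 36904,
      65872, 73824, 49216]
    tri := [(0, 1, 3), (0, 1, 7), (0, 3, 8), (0, 7, 8), (1, 2, 3), (1, 2, 9), (1, 7, 11), (1, 9, 10),
      (1, 10, 11), (2, 3, 12), (2, 9, 12), (3, 4, 6), (3, 4, 8), (3, 5, 6), (3, 5, 13), (3, 12,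
      13), (4, 6, 14), (4, 8, 14), (5, 6, 15), (5, 13, 15), (6, 14, 16), (6, 15, 16)]
    fin := [0, 0, 0, 0, 4, 4, 4, 0, 4, 0, 10, 11, 12, 4, 14, 15, 16]
    chd := [(4, 16)]
    steps := [(0, 1), (0, 2), (0, 3), (0, 7), (0, 9), (4, 6), (4, 5), (4, 8), (4, 13)] }
  rep := [4, 0, 12, 14, 15, 16, 10, 11]

noncomputable def v2653 : Cov.CovD where
  P := 3
  N := 5
  pl := [3, 4, 5, 7, 8]
  lev := [⟨[], [], [(0, 1)], [], [(0, 1, []), (1, 0, [5])]⟩,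
    ⟨[], [(0, 0), (0, 1)], [(1, 1)], [6, 7], [(0, 1, []), (2, 1, [])]⟩,
    ⟨[(0, 1)], [(1, 1)], [], [2], [(2, 1, [])]⟩,
    ⟨[(0, 1), (0, 2), (1, 2)], [(0, 0), (0, 1), (1, 0), (1, 1), (2, 0), (2, 1)], [(0, 0)],
      [2], [(1, 0, [5]), (6, 0, [5])]⟩,
    ⟨[(0, 3), (1, 3), (2, 3)], [(0, 0), (3, 0)], [], [3], [(1, 0, [5])]⟩,
    ⟨[(0, 3), (1, 3), (2, 3), (3, 4)], [(3, 0)], [], [4], [(6, 0, [5])]⟩,
    ⟨[(0, 3), (1, 3), (2, 3), (3, 4), (3, 5), (4, 5)], [(3, 0), (3, 5), (4, 0), (4, 5), (5,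
      0), (5, 5)], [], [3, 4], [(9, 5, [0])]⟩]
  Ta := [((0, 1), 1, 0), ((0, 4), 1, 7), ((1, 0), 0, 1), ((1, 7), 0, 3), ((2, 3), 1, 6), ((2, 5),
    1, 2), ((6, 5), 0, 2), ((6, 8), 0, 4)]
  Tb := [((0, 1, 4), 1, 0, 7), ((1, 0, 7), 0, 1, 3), ((2, 3, 5), 1, 6, 2), ((3, 2, 4), 6, 1, 7),
    ((4, 0, 3), 7, 1, 6), ((5, 2, 6), 2, 1, 0), ((6, 5, 8), 0, 2, 4), ((7, 1, 9), 3, 0, 5),
    ((8, 6, 9), 4, 0, 5), ((9, 7, 8), 5, 3, 4)]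
  Tc := []
  Td := [((0, 5), (1, 0), 1), ((0, 5), (1, 7), 3), ((0, 5), (6, 5), 2), ((0, 5), (6, 8), 4), ((5,
    0), (9, 7), 3), ((5, 0), (9, 8), 4)]
  G := [[0, 0x116116684116116688141218e84e4, 0, 0, 0xe11214e28112b95c62111a969c21d4], [0, 0, 0,
    0x1e511ac48125461a98c812e118e81d2, 0x118b169c281161e9a811161e9c28d4], [0, 0,
    0x141218e24141218e24181214e24d8, 0, 0x1218e4b28121886cb211214e8721d4], [0, 0,
    0x141218e241141218e24121814e28c5, 0x5234618a8c11218e4b81121418e2f81d4,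
    0x1211ce8b211bc35ac218161864b28d8]]

noncomputable def n2653 : Ent := ⟨e2653, noF, [], [], []⟩

def c2653 : PLift (Cov.check n2653.C.D v2653 = true) := ⟨by decide +kernel⟩

def b2653 : PLift (entF (fidx ts) 400 2653 n2653 = true) := ⟨by decide +kernel⟩

theorem g2653 : GoodF (fidx ts) 400 2653 := GoodF.ofV v2653 n2653 c2653.down b2653.down

/-- 4648474:2160 -/
noncomputable def e2654 : SCfg where
  D := {
    a := 7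
    L := 11
    kp := 9
    inn := [(0, 1), (0, 5), (1, 0), (1, 2), (1, 3), (1, 5), (2, 1), (3, 1), (3, 4), (3, 5), (3, 6), (4,
      3), (5, 0), (5, 1), (5, 3), (6, 3)]
    mix := [(0, 0), (0, 1), (1, 1), (1, 2), (2, 1), (2, 2), (2, 3), (3, 2), (3, 4), (3, 5), (3, 6), (4,
      4), (4, 5), (4, 7), (5, 0), (5, 6), (5, 8), (5, 9), (6, 5), (6, 6), (6, 10)]
    cl := [2, 1, 0, 7, 3, 4, 3, 8, 5, 6, 9]
    chq := [(0, 1), (0, 2), (0, 5), (0, 6), (1, 0), (2, 0), (3, 4), (4, 3), (5, 0), (6, 0)]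
    rng := [(0, 1), (0, 9), (1, 0), (1, 3), (2, 3), (2, 4), (3, 1), (3, 2), (4, 2), (4, 7), (5, 7), (5,
      10), (6, 8), (6, 10), (7, 4), (7, 5), (8, 6), (8, 9), (9, 0), (9, 8), (10, 5), (10, 6)]
    lev := [] }
  links := [[1, 5, 7, 8], [5, 0, 8, 2, 9, 3], [9, 1, 8, 10], [5, 1, 9, 11, 4, 12, 6, 13], [12, 3, 11,
    14], [7, 0, 1, 3, 13, 15, 16], [13, 3, 12, 17]]
  P := {
    a := 7
    N := 18
    nb := [418, 813, 1794, 14962, 22536, 106635, 143368, 65825, 1159, 3086, 772, 16920, 147544,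
      163944, 6160, 73760, 32928, 12352]
    tri := [(0, 1, 5), (0, 1, 8), (0, 5, 7), (0, 7, 8), (1, 2, 8), (1, 2, 9), (1, 3, 5), (1, 3, 9), (2,
      8, 10), (2, 9, 10), (3, 4, 11), (3, 4, 12), (3, 5, 13), (3, 6, 12), (3, 6, 13), (3, 9, 11),
      (4, 11, 14), (4, 12, 14), (5, 7, 16), (5, 13, 15), (5, 15, 16), (6, 12, 17), (6, 13, 17)]
    fin := [0, 1, 2, 3, 3, 1, 3, 0, 2, 1, 10, 3, 12, 3, 14, 15, 16, 17]
    chd := [(0, 1), (1, 15), (1, 16), (2, 1), (3, 12)]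
    steps := [(0, 7), (1, 5), (1, 9), (2, 8), (3, 4), (3, 6), (3, 11), (3, 13)] }
  rep := [1, 2, 0, 3, 12, 15, 16, 10, 14, 17]

noncomputable def v2654 : Cov.CovD where
  P := 3
  N := 7
  pl := [3, 7, 10]
  lev := [⟨[], [], [(1, 2)], [], [(0, 2, [0]), (1, 1, [0])]⟩,
    ⟨[], [(0, 0), (0, 1), (0, 2)], [(0, 1)], [], [(1, 1, [0]), (2, 0, [1, 2, 5, 6])]⟩,
    ⟨[(0, 1)], [(0, 1), (1, 0), (1, 1)], [(0, 1)], [7], [(1, 1, [0]), (2, 0, [1, 2, 5,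
      6])]⟩,
    ⟨[(0, 1), (1, 2)], [(1, 0), (1, 1), (1, 3), (1, 4), (2, 0)], [(0, 3), (0, 4), (3, 3),
      (3, 4)], [], [(2, 0, [1, 2, 5, 6]), (4, 3, [4]), (5, 4, [3]), (6, 3, [4])]⟩,
    ⟨[(1, 3)], [(3, 0), (3, 3), (3, 4)], [(3, 4)], [8], [(4, 3, [4]), (5, 4, [3])]⟩,
    ⟨[(0, 1), (0, 3), (1, 2), (1, 3), (3, 4)], [(0, 1), (0, 2), (0, 3), (0, 5), (0, 6), (1,
      0), (1, 1), (1, 2), (1, 3), (1, 5), (1, 6), (3, 0), (3, 2), (3, 3), (3, 4), (3, 5), (3,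
      6)], [(2, 3), (2, 5), (2, 6), (3, 5), (3, 6), (5, 6)], [], [(0, 2, [0]), (6, 3, [4]),
      (8, 5, [0]), (9, 6, [0])]⟩,
    ⟨[(1, 3), (3, 4), (3, 5)], [(3, 0), (3, 3), (3, 4), (4, 4), (5, 3)], [(3, 4)], [9],
      [(5, 4, [3]), (6, 3, [4])]⟩]
  Ta := [((4, 2), 3, 0), ((4, 7), 3, 8), ((6, 8), 3, 5), ((6, 10), 3, 9)]
  Tb := [((0, 1, 9), 2, 1, 6), ((1, 0, 3), 1, 2, 7), ((2, 3, 4), 0, 7, 3), ((3, 1, 2), 7, 1, 0),
    ((4, 2, 7), 3, 0, 8), ((5, 7, 10), 4, 8, 9), ((6, 8, 10), 3, 5, 9), ((7, 4, 5), 8, 3, 4),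
    ((8, 6, 9), 5, 3, 6), ((9, 0, 8), 6, 2, 5), ((10, 5, 6), 9, 4, 3)]
  Tc := [(0, 1, 2), (0, 1, 5), (0, 1, 6), (0, 2, 5), (0, 2, 6), (0, 5, 6)]
  Td := [((0, 1), (2, 3), 7), ((0, 1), (2, 4), 3), ((0, 2), (2, 3), 7), ((0, 2), (2, 4), 3), ((0,
    5), (2, 3), 7), ((0, 5), (2, 4), 3), ((0, 6), (2, 3), 7), ((0, 6), (2, 4), 3), ((1, 0),
    (1, 0), 2), ((1, 0), (1, 3), 7), ((2, 0), (0, 1), 1), ((2, 0), (0, 9), 6), ((3, 4), (4,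
    2), 0), ((3, 4), (4, 7), 8), ((3, 4), (6, 8), 5), ((3, 4), (6, 10), 9), ((4, 3), (5, 7),
    8), ((4, 3), (5, 10), 9), ((5, 0), (8, 6), 3), ((5, 0), (8, 9), 6), ((6, 0), (9, 0), 2),
    ((6, 0), (9, 8), 5)]
  G := [[0, 0xa1515c13136a1515c1c1366619198619198ca4, 0xa15154161919c1313a1c4,
    0x81a12151f8141c131f6461412191f861412191f8cc81a12151f8141c131f688c,
    0x81a12151f4a144561c12191f8121a1b8161c131fe61412191f8141c131facca144889], [0,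
    0x5151a45151a3131c6691916811818111f3131cacc8, 0x5151a3131c619191681c4,
    0x5151a3131c649191684c5151a3131c689191688cc,
    0x5151a45141a45919161123131ce919163131cacc5141a4889]]

noncomputable def n2654 : Ent := ⟨e2654, noF, [], [], []⟩

def c2654 : PLift (Cov.check n2654.C.D v2654 = true) := ⟨by decide +kernel⟩

def b2654 : PLift (entF (fidx ts) 400 2654 n2654 = true) := ⟨by decide +kernel⟩

theorem g2654 : GoodF (fidx ts) 400 2654 := GoodF.ofV v2654 n2654 c2654.down b2654.down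

/-- 4646745:2161/3 -/
noncomputable def e2655 : SCfg where
  D := {
    a := 7
    L := 8
    kp := 5
    inn := [(0, 1), (1, 0), (1, 2), (1, 3), (2, 1), (2, 3), (3, 1), (3, 2), (3, 4), (4, 3), (4, 5), (4,
      6), (5, 4), (6, 4)]
    mix := [(0, 0), (0, 1), (0, 2), (1, 0), (1, 2), (1, 3), (2, 2), (2, 4), (3, 3), (3, 4), (3, 5), (4,
      3), (4, 5), (4, 6), (4, 7), (5, 2), (5, 6), (5, 7), (6, 0), (6, 1), (6, 3), (6, 7)]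
    cl := [1, 2, 3, 0, 4, 0, 5, 0]
    chq := [(1, 3), (1, 4), (3, 1), (4, 1)]
    rng := [(0, 1), (0, 3), (1, 0), (1, 2), (1, 7), (2, 1), (2, 4), (2, 6), (2, 7), (3, 0), (4, 2), (4,
      5), (5, 4), (5, 6), (6, 2), (6, 5), (7, 1), (7, 2)]
    lev := [] }
  links := [[1, 7, 8, 9], [7, 0, 9, 2, 3, 10], [3, 1, 9, 11], [10, 1, 2, 11, 12, 4], [10, 3, 12, 13, 5,
    14, 6], [14, 4, 13, 9], [10, 4, 14, 8, 7]]
  P := {
    a := 7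
    N := 15
    nb := [898, 1677, 2570, 7190, 29800, 25104, 17808, 1347, 17089, 26919, 218, 4620, 10264, 4656,
      880]
    tri := [(0, 1, 7), (0, 1, 9), (0, 7, 8), (0, 8, 9), (1, 2, 3), (1, 2, 9), (1, 3, 10), (1, 7, 10),
      (2, 3, 11), (2, 9, 11), (3, 4, 10), (3, 4, 12), (3, 11, 12), (4, 5, 13), (4, 5, 14), (4, 6,
      10), (4, 6, 14), (4, 12, 13), (5, 9, 13), (5, 9, 14), (6, 7, 8), (6, 7, 10), (6, 8, 14)]
    fin := [0, 0, 0, 0, 4, 5, 0, 0, 8, 5, 4, 11, 4, 13, 4]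
    chd := [(0, 5), (0, 11)]
    steps := [(0, 1), (0, 2), (0, 3), (0, 7), (4, 12), (4, 14), (4, 10), (0, 6), (5, 9)] }
  rep := [4, 0, 8, 5, 11, 13]

noncomputable def v2655 : Cov.CovD where
  P := 3
  N := 3
  pl := [1, 6]
  lev := [⟨[], [], [(1, 3)], [2], [(0, 1, [3, 4]), (2, 3, [1])]⟩,
    ⟨[], [(0, 0), (0, 1), (0, 3)], [(0, 1), (0, 3), (1, 3)], [], [(0, 1, [3, 4]), (2, 3,
      [1]), (3, 0, [])]⟩,
    ⟨[(0, 1)], [(0, 3), (1, 0), (1, 1), (1, 3), (1, 4)], [(3, 4)], [], [(2, 3, [1]), (4, 4,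
      [1])]⟩,
    ⟨[(0, 1), (1, 2)], [(1, 0), (1, 1), (1, 3), (1, 4), (2, 0), (2, 3), (2, 4)], [(0, 0),
      (0, 4)], [], [(3, 0, []), (4, 4, [1]), (5, 0, [])]⟩,
    ⟨[(1, 3), (2, 3)], [(1, 0), (3, 0), (3, 4)], [(0, 0)], [5], [(3, 0, []), (5, 0, []),
      (7, 0, [])]⟩,
    ⟨[(3, 4)], [(0, 3), (1, 3), (2, 3), (4, 0), (4, 3)], [(0, 3)], [5], [(2, 3, [1]), (7,
      0, [])]⟩,
    ⟨[(3, 4), (4, 5)], [(0, 1), (1, 0), (1, 1), (3, 0), (4, 0), (4, 1), (5, 0)], [(0, 0),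
      (0, 1)], [2], [(0, 1, [3, 4]), (3, 0, []), (7, 0, [])]⟩]
  Ta := [((3, 0), 0, 1), ((5, 4), 0, 4), ((5, 6), 0, 5), ((7, 1), 0, 2), ((7, 2), 0, 3)]
  Tb := [((0, 1, 3), 1, 2, 0), ((1, 0, 2), 2, 1, 3), ((1, 0, 7), 2, 1, 0), ((1, 2, 7), 2, 3, 0),
    ((2, 1, 4), 3, 2, 4), ((2, 1, 6), 3, 2, 5), ((2, 1, 7), 3, 2, 0), ((2, 4, 6), 3, 4, 5),
    ((2, 4, 7), 3, 4, 0), ((2, 6, 7), 3, 5, 0), ((4, 2, 5), 4, 3, 0), ((5, 4, 6), 0, 4, 5),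
    ((6, 2, 5), 5, 3, 0), ((7, 1, 2), 0, 2, 3)]
  Tc := [(1, 3, 4)]
  Td := [((1, 3), (0, 1), 2), ((1, 3), (0, 3), 0), ((1, 4), (0, 1), 2), ((1, 4), (0, 3), 0), ((3,
    1), (2, 1), 2), ((3, 1), (2, 4), 4), ((3, 1), (2, 6), 5), ((3, 1), (2, 7), 0), ((4, 1),
    (4, 2), 3), ((4, 1), (4, 5), 0)]
  G := [[0, 0x814164146184181a418a14c, 0, 0x4142c2144182c2185, 0x814218182c21c1], [0, 0, 0,
    0x4841c228142c22c1, 0x889442812818c84423c1], [0, 0, 0x4842c2184284c214c,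
    0x4842c2284284c224c, 0x888268284c6288284c2149]]

noncomputable def n2655 : Ent := ⟨e2655, noF, [], [], []⟩

def c2655 : PLift (Cov.check n2655.C.D v2655 = true) := ⟨by decide +kernel⟩

def b2655 : PLift (entF (fidx ts) 400 2655 n2655 = true) := ⟨by decide +kernel⟩

theorem g2655 : GoodF (fidx ts) 400 2655 := GoodF.ofV v2655 n2655 c2655.down b2655.down

/-- 4646745:2161/2 -/
noncomputable def e2656 : SCfg where
  D := {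
    a := 7
    L := 9
    kp := 6
    inn := [(0, 1), (1, 0), (1, 2), (1, 3), (2, 1), (2, 3), (3, 1), (3, 2), (3, 4), (4, 3), (4, 5), (4,
      6), (5, 4), (6, 4)]
    mix := [(0, 0), (0, 1), (0, 2), (1, 0), (1, 2), (1, 3), (2, 2), (2, 4), (3, 3), (3, 4), (3, 5), (4,
      3), (4, 5), (4, 6), (4, 7), (5, 6), (5, 7), (5, 8), (6, 0), (6, 1), (6, 3), (6, 7)]
    cl := [1, 2, 3, 0, 4, 0, 5, 0, 6]
    chq := [(1, 3), (1, 4), (3, 1), (4, 1)]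
    rng := [(0, 1), (0, 3), (1, 0), (1, 2), (1, 7), (2, 1), (2, 4), (3, 0), (4, 2), (4, 5), (5, 4), (5,
      6), (6, 5), (6, 8), (7, 1), (7, 8), (8, 6), (8, 7)]
    lev := [] }
  links := [[1, 7, 8, 9], [7, 0, 9, 2, 3, 10], [3, 1, 9, 11], [10, 1, 2, 11, 12, 4], [10, 3, 12, 13, 5,
    14, 6], [14, 4, 13, 15], [10, 4, 14, 8, 7]]
  P := {
    a := 7
    N := 16
    nb := [898, 1677, 2570, 7190, 29800, 57360, 17808, 1347, 17089, 2311, 218, 4620, 10264, 36912,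
      33136, 24608]
    tri := [(0, 1, 7), (0, 1, 9), (0, 7, 8), (0, 8, 9), (1, 2, 3), (1, 2, 9), (1, 3, 10), (1, 7, 10),
      (2, 3, 11), (2, 9, 11), (3, 4, 10), (3, 4, 12), (3, 11, 12), (4, 5, 13), (4, 5, 14), (4, 6,
      10), (4, 6, 14), (4, 12, 13), (5, 13, 15), (5, 14, 15), (6, 7, 8), (6, 7, 10), (6, 8, 14)]
    fin := [0, 0, 0, 0, 4, 4, 0, 0, 8, 9, 4, 11, 4, 13, 4, 15]
    chd := [(0, 9), (0, 11)]
    steps := [(0, 1), (0, 2), (0, 3), (0, 7), (4, 5), (4, 12), (4, 14), (4, 10), (0, 6)] }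
  rep := [4, 0, 8, 9, 11, 13, 15]

noncomputable def v2656 : Cov.CovD where
  P := 3
  N := 4
  pl := [1, 6, 8]
  lev := [⟨[], [], [(1, 3)], [2], [(0, 1, [3, 4]), (2, 3, [1])]⟩,
    ⟨[], [(0, 0), (0, 1), (0, 3)], [(0, 1), (0, 3), (1, 3)], [], [(0, 1, [3, 4]), (2, 3,
      [1]), (3, 0, [])]⟩,
    ⟨[(0, 1)], [(0, 3), (1, 0), (1, 1), (1, 3), (1, 4)], [(3, 4)], [], [(2, 3, [1]), (4, 4,
      [1])]⟩,
    ⟨[(0, 1), (1, 2)], [(1, 0), (1, 1), (1, 3), (1, 4), (2, 0), (2, 3), (2, 4)], [(0, 0),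
      (0, 4)], [], [(3, 0, []), (4, 4, [1]), (5, 0, [])]⟩,
    ⟨[(1, 3), (2, 3)], [(1, 0), (3, 0), (3, 4)], [(0, 0)], [5], [(3, 0, []), (5, 0, []),
      (7, 0, [])]⟩,
    ⟨[(3, 4)], [(4, 0)], [], [5, 6], [(7, 0, [])]⟩,
    ⟨[(3, 4), (4, 5)], [(0, 1), (1, 0), (1, 1), (3, 0), (4, 0), (4, 1), (5, 0)], [(0, 0),
      (0, 1)], [2], [(0, 1, [3, 4]), (3, 0, []), (7, 0, [])]⟩]
  Ta := [((3, 0), 0, 1), ((5, 4), 0, 4), ((5, 6), 0, 5), ((7, 1), 0, 2), ((7, 8), 0, 6)]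
  Tb := [((0, 1, 3), 1, 2, 0), ((1, 0, 2), 2, 1, 3), ((1, 0, 7), 2, 1, 0), ((1, 2, 7), 2, 3, 0),
    ((2, 1, 4), 3, 2, 4), ((4, 2, 5), 4, 3, 0), ((5, 4, 6), 0, 4, 5), ((6, 5, 8), 5, 0, 6),
    ((7, 1, 8), 0, 2, 6), ((8, 6, 7), 6, 5, 0)]
  Tc := [(1, 3, 4)]
  Td := [((1, 3), (0, 1), 2), ((1, 3), (0, 3), 0), ((1, 4), (0, 1), 2), ((1, 4), (0, 3), 0), ((3,
    1), (2, 1), 2), ((3, 1), (2, 4), 4), ((4, 1), (4, 2), 3), ((4, 1), (4, 5), 0)]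
  G := [[0, 0x81816814166188181681416a14c, 0, 0x4181c2284141c224c, 0x8181a8181c6288181c2149],
    [0, 0, 0, 0x41846c22848a81c224c, 0x883889c81886c6288181a481886c2349], [0, 0,
    0x48a886c21844a846c214c, 0x48a886c22848a846c224c,
    0x28c888ea884628488a682c28a888e88e2149]]

noncomputable def n2656 : Ent := ⟨e2656, noF, [], [], [(9, 15, [360035742630636841211993100915356868655746945586763691018547201, 0])]⟩

def c2656 : PLift (Cov.check n2656.C.D v2656 = true) := ⟨by decide +kernel⟩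

def b2656 : PLift (entF (fidx ts) 400 2656 n2656 = true) := ⟨by decide +kernel⟩

theorem g2656 : GoodF (fidx ts) 400 2656 := GoodF.ofV v2656 n2656 c2656.down b2656.down

/-- 4646745:2161/4 -/
noncomputable def e2657 : SCfg where
  D := {
    a := 7
    L := 9
    kp := 6
    inn := [(0, 1), (1, 0), (1, 2), (1, 3), (2, 1), (2, 3), (3, 1), (3, 2), (3, 4), (4, 3), (4, 5), (4,
      6), (5, 4), (6, 4)]
    mix := [(0, 0), (0, 1), (0, 2), (1, 0), (1, 2), (1, 3), (2, 2), (2, 4), (3, 3), (3, 4), (3, 5), (4,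
      3), (4, 5), (4, 6), (4, 7), (5, 2), (5, 6), (5, 7), (6, 0), (6, 3), (6, 7), (6, 8)]
    cl := [2, 5, 1, 0, 3, 0, 4, 0, 6]
    chq := [(1, 2), (2, 1), (2, 3), (3, 2)]
    rng := [(0, 1), (0, 3), (0, 8), (1, 0), (1, 2), (2, 1), (2, 4), (2, 6), (2, 7), (3, 0), (4, 2), (4,
      5), (5, 4), (5, 6), (6, 2), (6, 5), (7, 2), (7, 8), (8, 0), (8, 7)]
    lev := [] }
  links := [[1, 7, 8, 9], [7, 0, 9, 2, 3, 10], [3, 1, 9, 11], [10, 1, 2, 11, 12, 4], [10, 3, 12, 13, 5,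
    14, 6], [14, 4, 13, 9], [10, 4, 14, 15, 7]]
  P := {
    a := 7
    N := 16
    nb := [898, 1677, 2570, 7190, 29800, 25104, 50320, 34115, 641, 26919, 218, 4620, 10264, 4656,
      33392, 16576]
    tri := [(0, 1, 7), (0, 1, 9), (0, 7, 8), (0, 8, 9), (1, 2, 3), (1, 2, 9), (1, 3, 10), (1, 7, 10),
      (2, 3, 11), (2, 9, 11), (3, 4, 10), (3, 4, 12), (3, 11, 12), (4, 5, 13), (4, 5, 14), (4, 6,
      10), (4, 6, 14), (4, 12, 13), (5, 9, 13), (5, 9, 14), (6, 7, 10), (6, 7, 15), (6, 14, 15)]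
    fin := [0, 0, 0, 0, 4, 5, 0, 0, 8, 5, 4, 11, 4, 13, 4, 15]
    chd := [(0, 5), (0, 11)]
    steps := [(0, 1), (0, 2), (0, 3), (0, 7), (4, 12), (4, 14), (4, 10), (0, 6), (5, 9)] }
  rep := [4, 5, 0, 11, 13, 8, 15]

noncomputable def v2657 : Cov.CovD where
  P := 3
  N := 4
  pl := [1, 6, 8]
  lev := [⟨[], [], [(1, 2)], [5], [(0, 2, [1, 3]), (2, 1, [2])]⟩,
    ⟨[], [(0, 0), (0, 1), (0, 2)], [(0, 1), (0, 2), (1, 2)], [], [(0, 2, [1, 3]), (2, 1,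
      [2]), (3, 0, [])]⟩,
    ⟨[(0, 1)], [(0, 1), (1, 0), (1, 1), (1, 2), (1, 3)], [(1, 3)], [], [(2, 1, [2]), (4, 3,
      [2])]⟩,
    ⟨[(0, 1), (1, 2)], [(1, 0), (1, 1), (1, 2), (1, 3), (2, 0), (2, 1), (2, 3)], [(0, 0),
      (0, 3)], [], [(3, 0, []), (4, 3, [2]), (5, 0, [])]⟩,
    ⟨[(1, 3), (2, 3)], [(1, 0), (3, 0), (3, 3)], [(0, 0)], [4], [(3, 0, []), (5, 0, []),
      (7, 0, [])]⟩,
    ⟨[(3, 4)], [(0, 1), (1, 1), (2, 1), (4, 0), (4, 1)], [(0, 1)], [4], [(2, 1, [2]), (7,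
      0, [])]⟩,
    ⟨[(3, 4), (4, 5)], [(0, 2), (1, 0), (1, 2), (3, 0), (4, 0), (4, 2), (5, 0)], [(0, 0),
      (0, 2)], [6], [(0, 2, [1, 3]), (3, 0, []), (7, 0, [])]⟩]
  Ta := [((3, 0), 0, 2), ((5, 4), 0, 3), ((5, 6), 0, 4), ((7, 2), 0, 1), ((7, 8), 0, 6)]
  Tb := [((0, 1, 3), 2, 5, 0), ((0, 1, 8), 2, 5, 6), ((0, 3, 8), 2, 0, 6), ((1, 0, 2), 5, 2, 1),
    ((2, 1, 4), 1, 5, 3), ((2, 1, 6), 1, 5, 4), ((2, 1, 7), 1, 5, 0), ((2, 4, 6), 1, 3, 4),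
    ((2, 4, 7), 1, 3, 0), ((2, 6, 7), 1, 4, 0), ((4, 2, 5), 3, 1, 0), ((5, 4, 6), 0, 3, 4),
    ((6, 2, 5), 4, 1, 0), ((7, 2, 8), 0, 1, 6), ((8, 0, 7), 6, 2, 0)]
  Tc := [(2, 1, 3)]
  Td := [((1, 2), (2, 1), 5), ((1, 2), (2, 4), 3), ((1, 2), (2, 6), 4), ((1, 2), (2, 7), 0), ((2,
    1), (0, 1), 5), ((2, 1), (0, 3), 0), ((2, 1), (0, 8), 6), ((2, 3), (0, 1), 5), ((2, 3),
    (0, 3), 0), ((2, 3), (0, 8), 6), ((3, 2), (4, 2), 1), ((3, 2), (4, 5), 0)]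
  G := [[0, 0, 0x612a4c16614a12a4c16618c, 0xc12214c122145, 0xa1a4a418a1a1a4189], [0, 0, 0,
    0xc1242124c258c1282122c2385, 0xaa5241a4c641a4a1a4844a6489], [0,
    0x2822c488ec2c6282224c48a846ca24c, 0, 0x2224c2182222c2149, 0xaac2a4461828c8aca4189]]

noncomputable def n2657 : Ent := ⟨e2657, noF, [], [], [(8, 15, [360035742630636841211993100915356868655746945586763691018547201, 0])]⟩

def c2657 : PLift (Cov.check n2657.C.D v2657 = true) := ⟨by decide +kernel⟩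

def b2657 : PLift (entF (fidx ts) 400 2657 n2657 = true) := ⟨by decide +kernel⟩

theorem g2657 : GoodF (fidx ts) 400 2657 := GoodF.ofV v2657 n2657 c2657.down b2657.down

/-- 4646745:2161/1 -/
noncomputable def e2658 : SCfg where
  D := {
    a := 7
    L := 10
    kp := 7
    inn := [(0, 1), (1, 0), (1, 2), (1, 3), (2, 1), (2, 3), (3, 1), (3, 2), (3, 4), (4, 3), (4, 5), (4,
      6), (5, 4), (6, 4)]
    mix := [(0, 0), (0, 1), (0, 2), (1, 0), (1, 2), (1, 3), (2, 2), (2, 4), (3, 3), (3, 4), (3, 5), (4,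
      3), (4, 5), (4, 6), (4, 7), (5, 6), (5, 7), (5, 8), (6, 0), (6, 3), (6, 7), (6, 9)]
    cl := [1, 5, 2, 0, 3, 0, 4, 0, 6, 7]
    chq := [(1, 2), (1, 3), (2, 1), (3, 1)]
    rng := [(0, 1), (0, 3), (0, 9), (1, 0), (1, 2), (2, 1), (2, 4), (3, 0), (4, 2), (4, 5), (5, 4), (5,
      6), (6, 5), (6, 8), (7, 8), (7, 9), (8, 6), (8, 7), (9, 0), (9, 7)]
    lev := [] }
  links := [[1, 7, 8, 9], [7, 0, 9, 2, 3, 10], [3, 1, 9, 11], [10, 1, 2, 11, 12, 4], [10, 3, 12, 13, 5,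
    14, 6], [14, 4, 13, 15], [10, 4, 14, 16, 7]]
  P := {
    a := 7
    N := 17
    nb := [898, 1677, 2570, 7190, 29800, 57360, 83088, 66883, 641, 2311, 218, 4620, 10264, 36912,
      98416, 24608, 16576]
    tri := [(0, 1, 7), (0, 1, 9), (0, 7, 8), (0, 8, 9), (1, 2, 3), (1, 2, 9), (1, 3, 10), (1, 7, 10),
      (2, 3, 11), (2, 9, 11), (3, 4, 10), (3, 4, 12), (3, 11, 12), (4, 5, 13), (4, 5, 14), (4, 6,
      10), (4, 6, 14), (4, 12, 13), (5, 13, 15), (5, 14, 15), (6, 7, 10), (6, 7, 16), (6, 14, 16)]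
    fin := [0, 0, 0, 0, 4, 4, 0, 0, 8, 9, 4, 11, 4, 13, 4, 15, 16]
    chd := [(0, 9), (0, 11)]
    steps := [(0, 1), (0, 2), (0, 3), (0, 7), (4, 5), (4, 12), (4, 14), (4, 10), (0, 6)] }
  rep := [4, 0, 9, 11, 13, 8, 15, 16]

noncomputable def v2658 : Cov.CovD where
  P := 3
  N := 5
  pl := [1, 6, 8, 9]
  lev := [⟨[], [], [(1, 2)], [5], [(0, 1, [2, 3]), (2, 2, [1])]⟩,
    ⟨[], [(0, 0), (0, 1), (0, 2)], [(0, 1), (0, 2), (1, 2)], [], [(0, 1, [2, 3]), (2, 2,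
      [1]), (3, 0, [])]⟩,
    ⟨[(0, 1)], [(0, 2), (1, 0), (1, 1), (1, 2), (1, 3)], [(2, 3)], [], [(2, 2, [1]), (4, 3,
      [1])]⟩,
    ⟨[(0, 1), (1, 2)], [(1, 0), (1, 1), (1, 2), (1, 3), (2, 0), (2, 2), (2, 3)], [(0, 0),
      (0, 3)], [], [(3, 0, []), (4, 3, [1]), (5, 0, [])]⟩,
    ⟨[(1, 3), (2, 3)], [(1, 0), (3, 0), (3, 3)], [(0, 0)], [4], [(3, 0, []), (5, 0, []),
      (7, 0, [])]⟩,
    ⟨[(3, 4)], [(4, 0)], [], [4, 6], [(7, 0, [])]⟩,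
    ⟨[(3, 4), (4, 5)], [(0, 1), (1, 0), (1, 1), (3, 0), (4, 0), (4, 1), (5, 0)], [(0, 0),
      (0, 1)], [7], [(0, 1, [2, 3]), (3, 0, []), (7, 0, [])]⟩]
  Ta := [((3, 0), 0, 1), ((5, 4), 0, 3), ((5, 6), 0, 4), ((7, 8), 0, 6), ((7, 9), 0, 7)]
  Tb := [((0, 1, 3), 1, 5, 0), ((0, 1, 9), 1, 5, 7), ((0, 3, 9), 1, 0, 7), ((1, 0, 2), 5, 1, 2),
    ((2, 1, 4), 2, 5, 3), ((4, 2, 5), 3, 2, 0), ((5, 4, 6), 0, 3, 4), ((6, 5, 8), 4, 0, 6),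
    ((7, 8, 9), 0, 6, 7), ((8, 6, 7), 6, 4, 0), ((9, 0, 7), 7, 1, 0)]
  Tc := [(1, 2, 3)]
  Td := [((1, 2), (0, 1), 5), ((1, 2), (0, 3), 0), ((1, 2), (0, 9), 7), ((1, 3), (0, 1), 5), ((1,
    3), (0, 3), 0), ((1, 3), (0, 9), 7), ((2, 1), (2, 1), 5), ((2, 1), (2, 4), 3), ((3, 1),
    (4, 2), 2), ((3, 1), (4, 5), 0)]
  G := [[0, 0x614612a18e14c14a18c12e18c, 0x2121cc1c1ca2421c1ac1c1ca24c, 0x2121c2182121c2185,
    0xc1c1c218c1c1c2189], [0, 0, 0x2122c4ec148c4fc62821226c4c8b8c9ca24c,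
    0x21226c82422a21c24822a21c218d, 0x22a21ccc5cc3c628cc94cc52c1c2ce289], [0, 0,
    0x22c84ce6c4ce244c88cce2424c4ce66884cea44c8cce28c, 0x22a226c21822a226c218c,
    0x64ce8ace84ce21864ce8ace84ce2189]]

noncomputable def n2658 : Ent := ⟨e2658, noF, [], [], [(8, 16, [1580044410770988437309982408355971841652082177953823432505699991553, 0]), (9, 15, [1685356702439545624007900436039642273970977273354372543760010973185, 0])]⟩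

def c2658 : PLift (Cov.check n2658.C.D v2658 = true) := ⟨by decide +kernel⟩

def b2658 : PLift (entF (fidx ts) 400 2658 n2658 = true) := ⟨by decide +kernel⟩

theorem g2658 : GoodF (fidx ts) 400 2658 := GoodF.ofV v2658 n2658 c2658.down b2658.down

/-- 4646745:2161/5 -/
noncomputable def e2659 : SCfg where
  D := {
    a := 7
    L := 10
    kp := 7
    inn := [(0, 1), (1, 0), (1, 2), (1, 3), (2, 1), (2, 3), (3, 1), (3, 2), (3, 4), (4, 3), (4, 5), (4,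
      6), (5, 4), (6, 4)]
    mix := [(0, 0), (0, 1), (0, 2), (1, 0), (1, 2), (1, 3), (2, 2), (2, 4), (3, 3), (3, 4), (3, 5), (4,
      3), (4, 5), (4, 6), (4, 7), (5, 1), (5, 6), (5, 7), (6, 3), (6, 7), (6, 8), (6, 9)]
    cl := [1, 2, 3, 0, 4, 0, 5, 0, 6, 7]
    chq := [(1, 3), (1, 4), (3, 1), (4, 1)]
    rng := [(0, 1), (0, 3), (1, 0), (1, 2), (1, 6), (1, 7), (2, 1), (2, 4), (3, 0), (3, 9), (4, 2), (4,
      5), (5, 4), (5, 6), (6, 1), (6, 5), (7, 1), (7, 8), (8, 7), (8, 9), (9, 3), (9, 8)]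
    lev := [] }
  links := [[1, 7, 8, 9], [7, 0, 9, 2, 3, 10], [3, 1, 9, 11], [10, 1, 2, 11, 12, 4], [10, 3, 12, 13, 5,
    14, 6], [14, 4, 13, 8], [10, 4, 14, 15, 16]]
  P := {
    a := 7
    N := 17
    nb := [898, 1677, 2570, 7190, 29800, 24848, 115728, 1283, 25249, 2311, 65754, 4620, 10264, 4400,
      33136, 81984, 33856]
    tri := [(0, 1, 7), (0, 1, 9), (0, 7, 8), (0, 8, 9), (1, 2, 3), (1, 2, 9), (1, 3, 10), (1, 7, 10),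
      (2, 3, 11), (2, 9, 11), (3, 4, 10), (3, 4, 12), (3, 11, 12), (4, 5, 13), (4, 5, 14), (4, 6,
      10), (4, 6, 14), (4, 12, 13), (5, 8, 13), (5, 8, 14), (6, 10, 16), (6, 14, 15), (6, 15, 16)]
    fin := [0, 0, 0, 0, 4, 5, 4, 0, 5, 9, 4, 11, 4, 13, 4, 15, 16]
    chd := [(0, 9), (0, 11)]
    steps := [(0, 1), (0, 2), (0, 3), (0, 7), (4, 6), (4, 12), (4, 14), (4, 10), (5, 8)] }
  rep := [4, 0, 5, 9, 11, 13, 15, 16]

noncomputable def v2659 : Cov.CovD where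
  P := 3
  N := 5
  pl := [1, 6, 8, 9]
  lev := [⟨[], [], [(1, 3)], [2], [(0, 1, [3, 4]), (2, 3, [1])]⟩,
    ⟨[], [(0, 0), (0, 1), (0, 3)], [(0, 1), (0, 3), (1, 3)], [], [(0, 1, [3, 4]), (2, 3,
      [1]), (3, 0, [])]⟩,
    ⟨[(0, 1)], [(0, 3), (1, 0), (1, 1), (1, 3), (1, 4)], [(3, 4)], [], [(2, 3, [1]), (4, 4,
      [1])]⟩,
    ⟨[(0, 1), (1, 2)], [(1, 0), (1, 1), (1, 3), (1, 4), (2, 0), (2, 3), (2, 4)], [(0, 0),
      (0, 4)], [], [(3, 0, []), (4, 4, [1]), (5, 0, [])]⟩,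
    ⟨[(1, 3), (2, 3)], [(1, 0), (3, 0), (3, 4)], [(0, 0)], [5], [(3, 0, []), (5, 0, []),
      (7, 0, [])]⟩,
    ⟨[(3, 4)], [(4, 0)], [], [2, 5], [(7, 0, [])]⟩,
    ⟨[(3, 4), (4, 5)], [(1, 0), (3, 0), (4, 0), (5, 0)], [(0, 0)], [6, 7], [(3, 0, []), (7,
      0, [])]⟩]
  Ta := [((3, 0), 0, 1), ((3, 9), 0, 7), ((5, 4), 0, 4), ((5, 6), 0, 5), ((7, 1), 0, 2), ((7, 8),
    0, 6)]
  Tb := [((0, 1, 3), 1, 2, 0), ((1, 0, 2), 2, 1, 3), ((1, 0, 6), 2, 1, 5), ((1, 0, 7), 2, 1, 0),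
    ((1, 2, 6), 2, 3, 5), ((1, 2, 7), 2, 3, 0), ((1, 6, 7), 2, 5, 0), ((2, 1, 4), 3, 2, 4),
    ((3, 0, 9), 0, 1, 7), ((4, 2, 5), 4, 3, 0), ((5, 4, 6), 0, 4, 5), ((6, 1, 5), 5, 2, 0),
    ((7, 1, 8), 0, 2, 6), ((8, 7, 9), 6, 0, 7), ((9, 3, 8), 7, 0, 6)]
  Tc := [(1, 3, 4)]
  Td := [((1, 3), (0, 1), 2), ((1, 3), (0, 3), 0), ((1, 4), (0, 1), 2), ((1, 4), (0, 3), 0), ((3,
    1), (2, 1), 2), ((3, 1), (2, 4), 4), ((4, 1), (4, 2), 3), ((4, 1), (4, 5), 0)]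
  G := [[0, 0xe1e4aa161c1e618e1268988654e12c, 0, 0x2824c1e218e1e1c224c,
    0x68a1c2ee1e1c628e1e1c2149], [0, 0, 0, 0x689a45c228689a45c224c,
    0x2c9c23ac23ceac628e142e12868a81c2749], [0, 0, 0x68aa46c21868a866c214c,
    0x84c268a4c684c223884c282824ccce234c, 0x6882ac2e68a8eac62868a8eac2149]]

noncomputable def n2659 : Ent := ⟨e2659, noF, [], [], []⟩

def c2659 : PLift (Cov.check n2659.C.D v2659 = true) := ⟨by decide +kernel⟩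

def b2659 : PLift (entF (fidx ts) 400 2659 n2659 = true) := ⟨by decide +kernel⟩

theorem g2659 : GoodF (fidx ts) 400 2659 := GoodF.ofV v2659 n2659 c2659.down b2659.down

/-- 4646745:2161/7 -/
noncomputable def e2660 : SCfg where
  D := {
    a := 7
    L := 9
    kp := 6
    inn := [(0, 1), (1, 0), (1, 2), (1, 3), (2, 1), (2, 3), (3, 1), (3, 2), (3, 4), (4, 3), (4, 5), (4,
      6), (5, 4), (6, 4)]
    mix := [(0, 0), (0, 1), (0, 2), (1, 0), (1, 2), (1, 3), (2, 2), (2, 4), (3, 3), (3, 4), (3, 5), (4,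
      3), (4, 5), (4, 6), (4, 7), (5, 2), (5, 6), (5, 7), (6, 1), (6, 3), (6, 7), (6, 8)]
    cl := [3, 2, 1, 0, 4, 0, 5, 0, 6]
    chq := [(1, 3), (3, 1), (3, 4), (4, 3)]
    rng := [(0, 1), (0, 3), (1, 0), (1, 2), (1, 7), (1, 8), (2, 1), (2, 4), (2, 6), (2, 7), (3, 0), (3,
      8), (4, 2), (4, 5), (5, 4), (5, 6), (6, 2), (6, 5), (7, 1), (7, 2), (8, 1), (8, 3)]
    lev := [] }
  links := [[1, 7, 8, 9], [7, 0, 9, 2, 3, 10], [3, 1, 9, 11], [10, 1, 2, 11, 12, 4], [10, 3, 12, 13, 5,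
    14, 6], [14, 4, 13, 9], [10, 4, 14, 8, 15]]
  P := {
    a := 7
    N := 16
    nb := [898, 1677, 2570, 7190, 29800, 25104, 50448, 1283, 49857, 26919, 32986, 4620, 10264, 4656,
      880, 1344]
    tri := [(0, 1, 7), (0, 1, 9), (0, 7, 8), (0, 8, 9), (1, 2, 3), (1, 2, 9), (1, 3, 10), (1, 7, 10),
      (2, 3, 11), (2, 9, 11), (3, 4, 10), (3, 4, 12), (3, 11, 12), (4, 5, 13), (4, 5, 14), (4, 6,
      10), (4, 6, 14), (4, 12, 13), (5, 9, 13), (5, 9, 14), (6, 8, 14), (6, 8, 15), (6, 10, 15)]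
    fin := [0, 0, 0, 0, 4, 5, 6, 0, 6, 5, 4, 11, 4, 13, 4, 15]
    chd := [(0, 5), (0, 11)]
    steps := [(0, 1), (0, 2), (0, 3), (0, 7), (4, 12), (4, 14), (4, 10), (5, 9), (6, 8)] }
  rep := [4, 5, 6, 0, 11, 13, 15]

noncomputable def v2660 : Cov.CovD where
  P := 3
  N := 4
  pl := [1, 6, 8]
  lev := [⟨[], [], [(1, 3)], [2], [(0, 3, [1, 4]), (2, 1, [3])]⟩,
    ⟨[], [(0, 0), (0, 1), (0, 3)], [(0, 1), (0, 3), (1, 3)], [], [(0, 3, [1, 4]), (2, 1,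
      [3]), (3, 0, [])]⟩,
    ⟨[(0, 1)], [(0, 1), (1, 0), (1, 1), (1, 3), (1, 4)], [(1, 4)], [], [(2, 1, [3]), (4, 4,
      [3])]⟩,
    ⟨[(0, 1), (1, 2)], [(1, 0), (1, 1), (1, 3), (1, 4), (2, 0), (2, 1), (2, 4)], [(0, 0),
      (0, 4)], [], [(3, 0, []), (4, 4, [3]), (5, 0, [])]⟩,
    ⟨[(1, 3), (2, 3)], [(1, 0), (3, 0), (3, 4)], [(0, 0)], [5], [(3, 0, []), (5, 0, []),
      (7, 0, [])]⟩,
    ⟨[(3, 4)], [(0, 1), (1, 1), (2, 1), (4, 0), (4, 1)], [(0, 1)], [5], [(2, 1, [3]), (7,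
      0, [])]⟩,
    ⟨[(3, 4), (4, 5)], [(1, 0), (3, 0), (4, 0), (5, 0)], [(0, 0)], [2, 6], [(3, 0, []), (7,
      0, [])]⟩]
  Ta := [((3, 0), 0, 3), ((3, 8), 0, 6), ((5, 4), 0, 4), ((5, 6), 0, 5), ((7, 1), 0, 2), ((7, 2),
    0, 1)]
  Tb := [((0, 1, 3), 3, 2, 0), ((1, 0, 2), 2, 3, 1), ((1, 0, 7), 2, 3, 0), ((1, 0, 8), 2, 3, 6),
    ((1, 2, 7), 2, 1, 0), ((1, 2, 8), 2, 1, 6), ((1, 7, 8), 2, 0, 6), ((2, 1, 4), 1, 2, 4),
    ((2, 1, 6), 1, 2, 5), ((2, 1, 7), 1, 2, 0), ((2, 4, 6), 1, 4, 5), ((2, 4, 7), 1, 4, 0),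
    ((2, 6, 7), 1, 5, 0), ((3, 0, 8), 0, 3, 6), ((4, 2, 5), 4, 1, 0), ((5, 4, 6), 0, 4, 5),
    ((6, 2, 5), 5, 1, 0), ((7, 1, 2), 0, 2, 1), ((8, 1, 3), 6, 2, 0)]
  Tc := [(3, 1, 4)]
  Td := [((1, 3), (2, 1), 2), ((1, 3), (2, 4), 4), ((1, 3), (2, 6), 5), ((1, 3), (2, 7), 0), ((3,
    1), (0, 1), 2), ((3, 1), (0, 3), 0), ((3, 4), (0, 1), 2), ((3, 4), (0, 3), 0), ((4, 3),
    (4, 2), 1), ((4, 3), (4, 5), 0)]
  G := [[0, 0, 0, 0xc12214c122485, 0xa124a1a4c258a1a168149], [0, 0, 0, 0xcc5224cc5228c1,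
    0x289a4a441a4a168849], [0, 0xc4c2a448c8c2688c8c26826c, 0x68a4a441a4686881c,
    0xccc2248ccc2281c, 0x28c8aca441a4a868149]]

noncomputable def n2660 : Ent := ⟨e2660, noF, [], [], [(7, 15, [360035742630636841211993100915356868655746945586763691018547201, 0])]⟩

def c2660 : PLift (Cov.check n2660.C.D v2660 = true) := ⟨by decide +kernel⟩

def b2660 : PLift (entF (fidx ts) 400 2660 n2660 = true) := ⟨by decide +kernel⟩

theorem g2660 : GoodF (fidx ts) 400 2660 := GoodF.ofV v2660 n2660 c2660.down b2660.down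

/-- 4646745:2161/6 -/
noncomputable def e2661 : SCfg where
  D := {
    a := 7
    L := 10
    kp := 7
    inn := [(0, 1), (1, 0), (1, 2), (1, 3), (2, 1), (2, 3), (3, 1), (3, 2), (3, 4), (4, 3), (4, 5), (4,
      6), (5, 4), (6, 4)]
    mix := [(0, 0), (0, 1), (0, 2), (1, 0), (1, 2), (1, 3), (2, 2), (2, 4), (3, 3), (3, 4), (3, 5), (4,
      3), (4, 5), (4, 6), (4, 7), (5, 6), (5, 7), (5, 8), (6, 1), (6, 3), (6, 7), (6, 9)]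
    cl := [1, 2, 3, 0, 4, 0, 5, 0, 6, 7]
    chq := [(1, 3), (1, 4), (3, 1), (4, 1)]
    rng := [(0, 1), (0, 3), (1, 0), (1, 2), (1, 7), (1, 9), (2, 1), (2, 4), (3, 0), (3, 9), (4, 2), (4,
      5), (5, 4), (5, 6), (6, 5), (6, 8), (7, 1), (7, 8), (8, 6), (8, 7), (9, 1), (9, 3)]
    lev := [] }
  links := [[1, 7, 8, 9], [7, 0, 9, 2, 3, 10], [3, 1, 9, 11], [10, 1, 2, 11, 12, 4], [10, 3, 12, 13, 5,
    14, 6], [14, 4, 13, 15], [10, 4, 14, 8, 16]]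
  P := {
    a := 7
    N := 17
    nb := [898, 1677, 2570, 7190, 29800, 57360, 83216, 1283, 82625, 2311, 65754, 4620, 10264, 36912,
      33136, 24608, 1344]
    tri := [(0, 1, 7), (0, 1, 9), (0, 7, 8), (0, 8, 9), (1, 2, 3), (1, 2, 9), (1, 3, 10), (1, 7, 10),
      (2, 3, 11), (2, 9, 11), (3, 4, 10), (3, 4, 12), (3, 11, 12), (4, 5, 13), (4, 5, 14), (4, 6,
      10), (4, 6, 14), (4, 12, 13), (5, 13, 15), (5, 14, 15), (6, 8, 14), (6, 8, 16), (6, 10, 16)]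
    fin := [0, 0, 0, 0, 4, 4, 6, 0, 6, 9, 4, 11, 4, 13, 4, 15, 16]
    chd := [(0, 9), (0, 11)]
    steps := [(0, 1), (0, 2), (0, 3), (0, 7), (4, 5), (4, 12), (4, 14), (4, 10), (6, 8)] }
  rep := [4, 0, 6, 9, 11, 13, 15, 16]

noncomputable def v2661 : Cov.CovD where
  P := 3
  N := 5
  pl := [1, 6, 8, 9]
  lev := [⟨[], [], [(1, 3)], [2], [(0, 1, [3, 4]), (2, 3, [1])]⟩,
    ⟨[], [(0, 0), (0, 1), (0, 3)], [(0, 1), (0, 3), (1, 3)], [], [(0, 1, [3, 4]), (2, 3,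
      [1]), (3, 0, [])]⟩,
    ⟨[(0, 1)], [(0, 3), (1, 0), (1, 1), (1, 3), (1, 4)], [(3, 4)], [], [(2, 3, [1]), (4, 4,
      [1])]⟩,
    ⟨[(0, 1), (1, 2)], [(1, 0), (1, 1), (1, 3), (1, 4), (2, 0), (2, 3), (2, 4)], [(0, 0),
      (0, 4)], [], [(3, 0, []), (4, 4, [1]), (5, 0, [])]⟩,
    ⟨[(1, 3), (2, 3)], [(1, 0), (3, 0), (3, 4)], [(0, 0)], [5], [(3, 0, []), (5, 0, []),
      (7, 0, [])]⟩,
    ⟨[(3, 4)], [(4, 0)], [], [5, 6], [(7, 0, [])]⟩,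
    ⟨[(3, 4), (4, 5)], [(1, 0), (3, 0), (4, 0), (5, 0)], [(0, 0)], [2, 7], [(3, 0, []), (7,
      0, [])]⟩]
  Ta := [((3, 0), 0, 1), ((3, 9), 0, 7), ((5, 4), 0, 4), ((5, 6), 0, 5), ((7, 1), 0, 2), ((7, 8),
    0, 6)]
  Tb := [((0, 1, 3), 1, 2, 0), ((1, 0, 2), 2, 1, 3), ((1, 0, 7), 2, 1, 0), ((1, 0, 9), 2, 1, 7),
    ((1, 2, 7), 2, 3, 0), ((1, 2, 9), 2, 3, 7), ((1, 7, 9), 2, 0, 7), ((2, 1, 4), 3, 2, 4),
    ((3, 0, 9), 0, 1, 7), ((4, 2, 5), 4, 3, 0), ((5, 4, 6), 0, 4, 5), ((6, 5, 8), 5, 0, 6),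
    ((7, 1, 8), 0, 2, 6), ((8, 6, 7), 6, 5, 0), ((9, 1, 3), 7, 2, 0)]
  Tc := [(1, 3, 4)]
  Td := [((1, 3), (0, 1), 2), ((1, 3), (0, 3), 0), ((1, 4), (0, 1), 2), ((1, 4), (0, 3), 0), ((3,
    1), (2, 1), 2), ((3, 1), (2, 4), 4), ((4, 1), (4, 2), 3), ((4, 1), (4, 5), 0)]
  G := [[0, 0xc1c1ac1c1a618c1c16c1c1aa14c, 0, 0xc1c1c228c1c1c224c, 0xa1a1aa1a1c628a1a1c2149],
    [0, 0, 0, 0x4c8b8c5c2284c8b8c5c224c, 0xa2a78a3c28abaa5c628a1a1a4218a2e81e2349], [0, 0,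
    0x6caac6c2186caaa6c214c, 0x84c244c6c8cec4ce23884c244ce88ceca84c2234c,
    0x2a2e82a8a8ee42aa2ea8a6228a8c8822aa8aae88ea149]]

noncomputable def n2661 : Ent := ⟨e2661, noF, [], [], [(7, 16, [1580044410770988437309982408355971841652082177953823432505699991553, 0]), (9, 15, [1685356702439545624007900436039642273970977273354372543760010985473, 0])]⟩

def c2661 : PLift (Cov.check n2661.C.D v2661 = true) := ⟨by decide +kernel⟩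

def b2661 : PLift (entF (fidx ts) 400 2661 n2661 = true) := ⟨by decide +kernel⟩

theorem g2661 : GoodF (fidx ts) 400 2661 := GoodF.ofV v2661 n2661 c2661.down b2661.down

/-- 4646745:2161/8 -/
noncomputable def e2662 : SCfg where
  D := {
    a := 7
    L := 10
    kp := 7
    inn := [(0, 1), (1, 0), (1, 2), (1, 3), (2, 1), (2, 3), (3, 1), (3, 2), (3, 4), (4, 3), (4, 5), (4,
      6), (5, 4), (6, 4)]
    mix := [(0, 0), (0, 1), (0, 2), (1, 0), (1, 2), (1, 3), (2, 2), (2, 4), (3, 3), (3, 4), (3, 5), (4,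
      3), (4, 5), (4, 6), (4, 7), (5, 2), (5, 6), (5, 7), (6, 3), (6, 7), (6, 8), (6, 9)]
    cl := [3, 5, 1, 0, 4, 0, 2, 0, 6, 7]
    chq := [(1, 3), (3, 1), (3, 4), (4, 3)]
    rng := [(0, 1), (0, 3), (1, 0), (1, 2), (2, 1), (2, 4), (2, 6), (2, 7), (3, 0), (3, 9), (4, 2), (4,
      5), (5, 4), (5, 6), (6, 2), (6, 5), (7, 2), (7, 8), (8, 7), (8, 9), (9, 3), (9, 8)]
    lev := [] }
  links := [[1, 7, 8, 9], [7, 0, 9, 2, 3, 10], [3, 1, 9, 11], [10, 1, 2, 11, 12, 4], [10, 3, 12, 13, 5,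
    14, 6], [14, 4, 13, 9], [10, 4, 14, 15, 16]]
  P := {
    a := 7
    N := 17
    nb := [898, 1677, 2570, 7190, 29800, 25104, 115728, 1283, 641, 26919, 65754, 4620, 10264, 4656,
      33392, 81984, 33856]
    tri := [(0, 1, 7), (0, 1, 9), (0, 7, 8), (0, 8, 9), (1, 2, 3), (1, 2, 9), (1, 3, 10), (1, 7, 10),
      (2, 3, 11), (2, 9, 11), (3, 4, 10), (3, 4, 12), (3, 11, 12), (4, 5, 13), (4, 5, 14), (4, 6,
      10), (4, 6, 14), (4, 12, 13), (5, 9, 13), (5, 9, 14), (6, 10, 16), (6, 14, 15), (6, 15, 16)]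
    fin := [0, 0, 0, 3, 4, 4, 3, 0, 8, 4, 3, 11, 3, 13, 3, 15, 16]
    chd := [(0, 4), (0, 11)]
    steps := [(0, 1), (0, 2), (0, 7), (3, 12), (3, 10), (3, 6), (3, 14), (4, 5), (4, 9)] }
  rep := [3, 4, 13, 0, 11, 8, 15, 16]

noncomputable def v2662 : Cov.CovD where
  P := 3
  N := 5
  pl := [1, 6, 8, 9]
  lev := [⟨[], [], [(1, 3)], [5], [(0, 3, [1, 4]), (2, 1, [3])]⟩,
    ⟨[], [(0, 0), (0, 1), (0, 3)], [(0, 1), (0, 3), (1, 3)], [], [(0, 3, [1, 4]), (2, 1,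
      [3]), (3, 0, [])]⟩,
    ⟨[(0, 1)], [(0, 1), (1, 0), (1, 1), (1, 3), (1, 4)], [(1, 4)], [], [(2, 1, [3]), (4, 4,
      [3])]⟩,
    ⟨[(0, 1), (1, 2)], [(1, 0), (1, 1), (1, 3), (1, 4), (2, 0), (2, 1), (2, 4)], [(0, 0),
      (0, 4)], [], [(3, 0, []), (4, 4, [3]), (5, 0, [])]⟩,
    ⟨[(1, 3), (2, 3)], [(1, 0), (3, 0), (3, 4)], [(0, 0)], [2], [(3, 0, []), (5, 0, []),
      (7, 0, [])]⟩,
    ⟨[(3, 4)], [(0, 1), (1, 1), (2, 1), (4, 0), (4, 1)], [(0, 1)], [2], [(2, 1, [3]), (7,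
      0, [])]⟩,
    ⟨[(3, 4), (4, 5)], [(1, 0), (3, 0), (4, 0), (5, 0)], [(0, 0)], [6, 7], [(3, 0, []), (7,
      0, [])]⟩]
  Ta := [((3, 0), 0, 3), ((3, 9), 0, 7), ((5, 4), 0, 4), ((5, 6), 0, 2), ((7, 2), 0, 1), ((7, 8),
    0, 6)]
  Tb := [((0, 1, 3), 3, 5, 0), ((1, 0, 2), 5, 3, 1), ((2, 1, 4), 1, 5, 4), ((2, 1, 6), 1, 5, 2),
    ((2, 1, 7), 1, 5, 0), ((2, 4, 6), 1, 4, 2), ((2, 4, 7), 1, 4, 0), ((2, 6, 7), 1, 2, 0),
    ((3, 0, 9), 0, 3, 7), ((4, 2, 5), 4, 1, 0), ((5, 4, 6), 0, 4, 2), ((6, 2, 5), 2, 1, 0),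
    ((7, 2, 8), 0, 1, 6), ((8, 7, 9), 6, 0, 7), ((9, 3, 8), 7, 0, 6)]
  Tc := [(3, 1, 4)]
  Td := [((1, 3), (2, 1), 5), ((1, 3), (2, 4), 4), ((1, 3), (2, 6), 2), ((1, 3), (2, 7), 0), ((3,
    1), (0, 1), 5), ((3, 1), (0, 3), 0), ((3, 4), (0, 1), 5), ((3, 4), (0, 3), 0), ((4, 3),
    (4, 2), 1), ((4, 3), (4, 5), 0)]
  G := [[0, 0, 0, 0xe84218e84214e8421e1828cd, 0xe126898618e126898a14e8241e1281cd], [0, 0,
    0xe48441e82881e8241e4281cd, 0xe18241e48281e1844e4828cd, 0xe12441e12881e1244e1288cd], [0,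
    0x68c84e48268e848e842a4e482868c8446e, 0, 0xe482416484c814e4844e8428cd,
    0x6888a441e82881e8241e8281cd]]

noncomputable def n2662 : Ent := ⟨e2662, noF, [], [], [(7, 16, [1580044410770988437309982408355971841652082177953823432505699995649, 0]), (8, 15, [1685356702439545624007900436039642273970977273354372543760010985473, 0])]⟩

def c2662 : PLift (Cov.check n2662.C.D v2662 = true) := ⟨by decide +kernel⟩

def b2662 : PLift (entF (fidx ts) 400 2662 n2662 = true) := ⟨by decide +kernel⟩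

theorem g2662 : GoodF (fidx ts) 400 2662 := GoodF.ofV v2662 n2662 c2662.down b2662.down

/-- 4646745:2161 -/
noncomputable def e2663 : SCfg where
  D := {
    a := 7
    L := 11
    kp := 8
    inn := [(0, 1), (1, 0), (1, 2), (1, 3), (2, 1), (2, 3), (3, 1), (3, 2), (3, 4), (4, 3), (4, 5), (4,
      6), (5, 4), (6, 4)]
    mix := [(0, 0), (0, 1), (0, 2), (1, 0), (1, 2), (1, 3), (2, 2), (2, 4), (3, 3), (3, 4), (3, 5), (4,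
      3), (4, 5), (4, 6), (4, 7), (5, 6), (5, 7), (5, 8), (6, 3), (6, 7), (6, 9), (6, 10)]
    cl := [1, 5, 3, 0, 2, 0, 4, 0, 6, 7, 8]
    chq := [(1, 2), (1, 3), (2, 1), (3, 1)]
    rng := [(0, 1), (0, 3), (1, 0), (1, 2), (2, 1), (2, 4), (3, 0), (3, 10), (4, 2), (4, 5), (5, 4),
      (5, 6), (6, 5), (6, 8), (7, 8), (7, 9), (8, 6), (8, 7), (9, 7), (9, 10), (10, 3), (10, 9)]
    lev := [] }
  links := [[1, 7, 8, 9], [7, 0, 9, 2, 3, 10], [3, 1, 9, 11], [10, 1, 2, 11, 12, 4], [10, 3, 12, 13, 5,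
    14, 6], [14, 4, 13, 15], [10, 4, 14, 16, 17]]
  P := {
    a := 7
    N := 18
    nb := [898, 1677, 2570, 7190, 29800, 57360, 214032, 1283, 641, 2311, 131290, 4620, 10264, 36912,
      98416, 24608, 147520, 66624]
    tri := [(0, 1, 7), (0, 1, 9), (0, 7, 8), (0, 8, 9), (1, 2, 3), (1, 2, 9), (1, 3, 10), (1, 7, 10),
      (2, 3, 11), (2, 9, 11), (3, 4, 10), (3, 4, 12), (3, 11, 12), (4, 5, 13), (4, 5, 14), (4, 6,
      10), (4, 6, 14), (4, 12, 13), (5, 13, 15), (5, 14, 15), (6, 10, 17), (6, 14, 16), (6, 16,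
      17)]
    fin := [0, 0, 0, 0, 4, 4, 4, 0, 8, 9, 4, 11, 4, 13, 4, 15, 16, 17]
    chd := [(0, 9), (0, 11)]
    steps := [(0, 1), (0, 2), (0, 3), (0, 7), (4, 5), (4, 6), (4, 12), (4, 14), (4, 10)] }
  rep := [4, 0, 11, 9, 13, 8, 15, 16, 17]

noncomputable def v2663 : Cov.CovD where
  P := 3
  N := 6
  pl := [1, 6, 8, 9, 10]
  lev := [⟨[], [], [(1, 3)], [5], [(0, 1, [2, 3]), (2, 3, [1])]⟩,
    ⟨[], [(0, 0), (0, 1), (0, 3)], [(0, 1), (0, 3), (1, 3)], [], [(0, 1, [2, 3]), (2, 3,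
      [1]), (3, 0, [])]⟩,
    ⟨[(0, 1)], [(0, 3), (1, 0), (1, 1), (1, 2), (1, 3)], [(2, 3)], [], [(2, 3, [1]), (4, 2,
      [1])]⟩,
    ⟨[(0, 1), (1, 2)], [(1, 0), (1, 1), (1, 2), (1, 3), (2, 0), (2, 2), (2, 3)], [(0, 0),
      (0, 2)], [], [(3, 0, []), (4, 2, [1]), (5, 0, [])]⟩,
    ⟨[(1, 3), (2, 3)], [(1, 0), (3, 0), (3, 2)], [(0, 0)], [4], [(3, 0, []), (5, 0, []),
      (7, 0, [])]⟩,
    ⟨[(3, 4)], [(4, 0)], [], [4, 6], [(7, 0, [])]⟩,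
    ⟨[(3, 4), (4, 5)], [(1, 0), (3, 0), (4, 0), (5, 0)], [(0, 0)], [7, 8], [(3, 0, []), (7,
      0, [])]⟩]
  Ta := [((3, 0), 0, 1), ((3, 10), 0, 8), ((5, 4), 0, 2), ((5, 6), 0, 4), ((7, 8), 0, 6), ((7,
    9), 0, 7)]
  Tb := [((0, 1, 3), 1, 5, 0), ((1, 0, 2), 5, 1, 3), ((2, 1, 4), 3, 5, 2), ((3, 0, 10), 0, 1, 8),
    ((4, 2, 5), 2, 3, 0), ((5, 4, 6), 0, 2, 4), ((6, 5, 8), 4, 0, 6), ((7, 8, 9), 0, 6, 7),
    ((8, 6, 7), 6, 4, 0), ((9, 7, 10), 7, 0, 8), ((10, 3, 9), 8, 0, 7)]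
  Tc := [(1, 2, 3)]
  Td := [((1, 2), (0, 1), 5), ((1, 2), (0, 3), 0), ((1, 3), (0, 1), 5), ((1, 3), (0, 3), 0), ((2,
    1), (4, 2), 3), ((2, 1), (4, 5), 0), ((3, 1), (2, 1), 5), ((3, 1), (2, 4), 2)]
  G := [[0, 0xe1e1a418e1e16814e1e1a412e, 0, 0xe1e1a42e1e1c24c2,
    0xe1e1c228e1e16824e1e1681e1e1c21cd], [0, 0, 0xe1e1a421e1e16824e1e1c2861e181e84cd,
    0xae56cab6822acd4cab682c2, 0x6ee78e5c22822e1ecae8246e8b8e5c2844eace1e82cd], [0, 0, 0,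
    0x6e2e82a8ecee48426ea2ee4cee8292,
    0x64ee8aeec284c22384c282c426ea2ee4cee824ea2ee4ce64268a264ee8aee84ce21cd]]

noncomputable def n2663 : Ent := ⟨e2663, noF, [], [], [(7, 17, [6903326391201334775872065844685381424292761054348340378595029940576257, 0]), (8, 15, [7334790850167413569773436004105379185503274260204390087403942015545345, 0]), (8, 16, [7334685537875745012586738086077695515070955365108989538292687704576001, 0]), (9, 15, [7334790850167413569773436004105379185503274260204390087403942015557633, 0])]⟩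

def c2663 : PLift (Cov.check n2663.C.D v2663 = true) := ⟨by decide +kernel⟩

def b2663 : PLift (entF (fidx ts) 400 2663 n2663 = true) := ⟨by decide +kernel⟩

theorem g2663 : GoodF (fidx ts) 400 2663 := GoodF.ofV v2663 n2663 c2663.down b2663.down

/-- 4648476:2166 -/
noncomputable def e2664 : SCfg where
  D := {
    a := 7
    L := 11
    kp := 9
    inn := [(0, 1), (1, 0), (1, 2), (1, 3), (1, 5), (2, 1), (2, 5), (3, 1), (3, 4), (3, 5), (3, 6), (4,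
      3), (4, 6), (5, 1), (5, 2), (5, 3), (5, 6), (6, 3), (6, 4), (6, 5)]
    mix := [(0, 0), (0, 1), (0, 2), (1, 0), (1, 2), (2, 2), (2, 3), (3, 0), (3, 4), (3, 5), (3, 6), (4,
      4), (4, 7), (5, 3), (5, 8), (5, 9), (6, 7), (6, 9), (6, 10)]
    cl := [0, 7, 1, 3, 0, 8, 9, 2, 5, 4, 6]
    chq := [(0, 1), (0, 3), (0, 4), (0, 5), (0, 6), (1, 0), (3, 0), (4, 0), (5, 0), (6, 0)]
    rng := [(0, 1), (0, 6), (1, 0), (1, 2), (2, 1), (2, 3), (3, 2), (3, 8), (4, 5), (4, 7), (5, 4), (5,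
      6), (6, 0), (6, 5), (7, 4), (7, 10), (8, 3), (8, 9), (9, 8), (9, 10), (10, 7), (10, 9)]
    lev := [] }
  links := [[1, 7, 8, 9], [7, 0, 9, 2, 5, 3], [5, 1, 9, 10], [7, 1, 5, 6, 4, 11, 12, 13], [11, 3, 6, 14],
    [6, 3, 1, 2, 10, 15, 16], [14, 4, 3, 5, 16, 17]]
  P := {
    a := 7
    N := 18
    nb := [898, 685, 1570, 14578, 18504, 99406, 213048, 8459, 641, 1287, 33316, 20504, 10248, 4232,
      133200, 66592, 163936, 81984]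
    tri := [(0, 1, 7), (0, 1, 9), (0, 7, 8), (0, 8, 9), (1, 2, 5), (1, 2, 9), (1, 3, 5), (1, 3, 7), (2,
      5, 10), (2, 9, 10), (3, 4, 6), (3, 4, 11), (3, 5, 6), (3, 7, 13), (3, 11, 12), (3, 12, 13),
      (4, 6, 14), (4, 11, 14), (5, 6, 16), (5, 10, 15), (5, 15, 16), (6, 14, 17), (6, 16, 17)]
    fin := [0, 0, 0, 0, 0, 0, 0, 0, 8, 9, 10, 0, 12, 13, 14, 15, 16, 17]
    chd := [(0, 9), (0, 10), (0, 15), (0, 16), (0, 17)]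
    steps := [(0, 1), (0, 2), (0, 3), (0, 4), (0, 5), (0, 6), (0, 7), (0, 11)] }
  rep := [0, 9, 14, 10, 16, 15, 17, 8, 12, 13]

noncomputable def v2664 : Cov.CovD where
  P := 3
  N := 7
  pl := [1, 5, 6, 7]
  lev := [⟨[], [], [(0, 1)], [7], [(0, 0, [1, 3, 4, 5, 6]), (2, 1, [0])]⟩,
    ⟨[], [(0, 0), (0, 1)], [(0, 1)], [], [(0, 0, [1, 3, 4, 5, 6]), (2, 1, [0])]⟩,
    ⟨[(0, 1)], [(0, 1), (1, 0), (1, 1), (1, 3)], [(1, 3)], [], [(2, 1, [0]), (3, 3, [0])]⟩,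
    ⟨[(0, 1), (1, 2)], [(0, 0), (1, 0), (1, 1)], [(0, 0)], [8, 9], [(0, 0, [1, 3, 4, 5,
      6]), (4, 0, [1, 3, 4, 5, 6])]⟩,
    ⟨[(1, 3)], [(3, 0)], [], [2], [(4, 0, [1, 3, 4, 5, 6])]⟩,
    ⟨[(0, 1), (1, 2), (1, 3), (2, 3), (3, 4)], [(1, 0), (1, 1), (1, 3), (1, 4), (1, 5), (2,
      1), (2, 3), (2, 4), (2, 5), (3, 0), (3, 3), (3, 4), (3, 5)], [(3, 4), (3, 5), (4, 5)],
      [], [(3, 3, [0]), (8, 5, [0]), (9, 4, [0])]⟩,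
    ⟨[(1, 3), (1, 5), (2, 5), (3, 4), (3, 5), (4, 5)], [(3, 0), (3, 4), (3, 6), (4, 0), (4,
      4), (4, 6), (5, 3), (5, 4), (5, 5), (5, 6)], [(4, 6)], [2], [(9, 4, [0]), (10, 6,
      [0])]⟩]
  Ta := [((0, 1), 0, 7), ((0, 6), 0, 9), ((4, 5), 0, 8), ((4, 7), 0, 2)]
  Tb := [((0, 1, 6), 0, 7, 9), ((1, 0, 2), 7, 0, 1), ((2, 1, 3), 1, 7, 3), ((3, 2, 8), 3, 1, 5),
    ((4, 5, 7), 0, 8, 2), ((5, 4, 6), 8, 0, 9), ((6, 0, 5), 9, 0, 8), ((7, 4, 10), 2, 0, 6),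
    ((8, 3, 9), 5, 3, 4), ((9, 8, 10), 4, 5, 6), ((10, 7, 9), 6, 2, 4)]
  Tc := [(0, 1, 3), (0, 1, 4), (0, 1, 5), (0, 1, 6), (0, 3, 4), (0, 3, 5), (0, 3, 6), (0, 4, 5),
    (0, 4, 6), (0, 5, 6)]
  Td := [((0, 1), (0, 1), 7), ((0, 1), (0, 6), 9), ((0, 1), (4, 5), 8), ((0, 1), (4, 7), 2), ((0,
    3), (0, 1), 7), ((0, 3), (0, 6), 9), ((0, 3), (4, 5), 8), ((0, 3), (4, 7), 2), ((0, 4),
    (0, 1), 7), ((0, 4), (0, 6), 9), ((0, 4), (4, 5), 8), ((0, 4), (4, 7), 2), ((0, 5), (0,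
    1), 7), ((0, 5), (0, 6), 9), ((0, 5), (4, 5), 8), ((0, 5), (4, 7), 2), ((0, 6), (0, 1),
    7), ((0, 6), (0, 6), 9), ((0, 6), (4, 5), 8), ((0, 6), (4, 7), 2), ((1, 0), (2, 1), 7),
    ((1, 0), (2, 3), 3), ((3, 0), (3, 2), 1), ((3, 0), (3, 8), 5), ((4, 0), (9, 8), 5), ((4,
    0), (9, 10), 6), ((5, 0), (8, 3), 3), ((5, 0), (8, 9), 4), ((6, 0), (10, 7), 2), ((6, 0),
    (10, 9), 4)]
  G := [[0, 0x118114a1184a211444114114a2c1184114114ac4e, 0,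
    0x1141186c18c1465118118114e11481211cdc8dc51841117411815914ec1538518a189489c111e8111e4618d,
    0x11241187245112139211a13e112912a111af2111e8adcb124112918118e11272111e2112b185aed118118a189289cc],
    [0, 0x118114114e42114114a81184261184118114aa4e, 0xe12e1861e1481c1,
    0x14511cd186114d181198ec1148111cf411a811874e9c1,
    0x118b1861121121952e1a584d11281161a9a11a211a8e9c1]]

noncomputable def n2664 : Ent := ⟨e2664, noF, [], [], []⟩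

def c2664 : PLift (Cov.check n2664.C.D v2664 = true) := ⟨by decide +kernel⟩

def b2664 : PLift (entF (fidx ts) 400 2664 n2664 = true) := ⟨by decide +kernel⟩

theorem g2664 : GoodF (fidx ts) 400 2664 := GoodF.ofV v2664 n2664 c2664.down b2664.down

/-- 4648464:2167/1 -/
noncomputable def e2665 : SCfg where
  D := {
    a := 7
    L := 9
    kp := 7
    inn := [(0, 1), (1, 0), (1, 2), (1, 3), (2, 1), (3, 1), (3, 4), (3, 5), (3, 6), (4, 3), (4, 5), (5,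
      3), (5, 4), (5, 6), (6, 3), (6, 5)]
    mix := [(0, 0), (0, 1), (0, 2), (1, 0), (1, 2), (1, 3), (2, 2), (2, 3), (2, 4), (3, 0), (3, 3), (3,
      5), (3, 6), (4, 3), (4, 4), (5, 4), (5, 7), (5, 8), (6, 5), (6, 8)]
    cl := [0, 6, 1, 0, 2, 3, 7, 5, 4]
    chq := [(0, 1), (0, 3), (0, 4), (0, 5), (1, 0), (3, 0), (4, 0), (5, 0)]
    rng := [(0, 1), (0, 6), (1, 0), (1, 2), (2, 1), (2, 4), (3, 4), (4, 2), (4, 3), (4, 7), (5, 6), (5,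
      8), (6, 0), (6, 5), (7, 4), (7, 8), (8, 5), (8, 7)]
    lev := [] }
  links := [[1, 7, 8, 9], [7, 0, 9, 2, 10, 3], [10, 1, 9, 11], [7, 1, 10, 4, 5, 6, 12, 13], [5, 3, 10,
    11], [6, 3, 4, 11, 14, 15], [12, 3, 5, 15]]
  P := {
    a := 7
    N := 16
    nb := [898, 1677, 3586, 13554, 3112, 51288, 36904, 8459, 641, 2311, 2078, 17972, 41032, 4232,
      34848, 20576]
    tri := [(0, 1, 7), (0, 1, 9), (0, 7, 8), (0, 8, 9), (1, 2, 9), (1, 2, 10), (1, 3, 7), (1, 3, 10),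
      (2, 9, 11), (2, 10, 11), (3, 4, 5), (3, 4, 10), (3, 5, 6), (3, 6, 12), (3, 7, 13), (3, 12,
      13), (4, 5, 11), (4, 10, 11), (5, 6, 15), (5, 11, 14), (5, 14, 15), (6, 12, 15)]
    fin := [0, 0, 0, 0, 0, 0, 0, 0, 8, 9, 0, 11, 12, 13, 14, 15]
    chd := [(0, 9), (0, 12), (0, 14), (0, 15)]
    steps := [(0, 1), (0, 2), (0, 3), (0, 6), (0, 7), (0, 10), (0, 4), (0, 5)] }
  rep := [0, 9, 11, 12, 15, 14, 8, 13]

noncomputable def v2665 : Cov.CovD where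
  P := 3
  N := 5
  pl := [1, 4, 6]
  lev := [⟨[], [], [(0, 1)], [6], [(0, 0, [1, 3, 4, 5]), (2, 1, [0])]⟩,
    ⟨[], [(0, 0), (0, 1)], [(0, 0), (0, 1)], [], [(0, 0, [1, 3, 4, 5]), (2, 1, [0]), (3, 0,
      [1, 3, 4, 5])]⟩,
    ⟨[(0, 1)], [(0, 1), (1, 0), (1, 1)], [(0, 1)], [2], [(2, 1, [0]), (3, 0, [1, 3, 4,
      5])]⟩,
    ⟨[(0, 1), (1, 2)], [(0, 0), (1, 0), (1, 1), (1, 3), (2, 0)], [(0, 0), (0, 3)], [7],
      [(0, 0, [1, 3, 4, 5]), (3, 0, [1, 3, 4, 5]), (5, 3, [0])]⟩,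
    ⟨[(1, 3)], [(1, 0), (2, 0), (3, 0), (3, 3)], [], [2], [(3, 0, [1, 3, 4, 5])]⟩,
    ⟨[(1, 3), (3, 4)], [(3, 0), (3, 3), (3, 4), (3, 5), (4, 0), (4, 4), (4, 5)], [(4, 5)],
      [2], [(7, 5, [0]), (8, 4, [0])]⟩,
    ⟨[(1, 3), (3, 4), (3, 5), (4, 5)], [(3, 0), (3, 3), (3, 4), (5, 3), (5, 4), (5, 5)],
      [(3, 4)], [], [(5, 3, [0]), (8, 4, [0])]⟩]
  Ta := [((0, 1), 0, 6), ((0, 6), 0, 7), ((3, 4), 0, 2)]
  Tb := [((0, 1, 6), 0, 6, 7), ((1, 0, 2), 6, 0, 1), ((2, 1, 4), 1, 6, 2), ((4, 2, 3), 2, 1, 0),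
    ((4, 2, 7), 2, 1, 5), ((4, 3, 7), 2, 0, 5), ((5, 6, 8), 3, 7, 4), ((6, 0, 5), 7, 0, 3),
    ((7, 4, 8), 5, 2, 4), ((8, 5, 7), 4, 3, 5)]
  Tc := [(0, 1, 3), (0, 1, 4), (0, 1, 5), (0, 3, 4), (0, 3, 5), (0, 4, 5)]
  Td := [((0, 1), (0, 1), 6), ((0, 1), (0, 6), 7), ((0, 1), (3, 4), 2), ((0, 3), (0, 1), 6), ((0,
    3), (0, 6), 7), ((0, 3), (3, 4), 2), ((0, 4), (0, 1), 6), ((0, 4), (0, 6), 7), ((0, 4),
    (3, 4), 2), ((0, 5), (0, 1), 6), ((0, 5), (0, 6), 7), ((0, 5), (3, 4), 2), ((1, 0), (2,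
    1), 6), ((1, 0), (2, 4), 2), ((3, 0), (5, 6), 7), ((3, 0), (5, 8), 4), ((4, 0), (8, 5),
    3), ((4, 0), (8, 7), 5), ((5, 0), (7, 4), 2), ((5, 0), (7, 8), 4)]
  G := [[0, 0x118118118e82114118118e84a, 0, 0x41841e14a18e14e8ce1848e14e18a1cc,
    0xe12111b8e18e14e1241e12e18a1cc], [0, 0x114114114e82114114114e486,
    0x111e244111e2111e8a4c1, 0x1598e1468e1488c1, 0xe18e1868193288c1]]

noncomputable def n2665 : Ent := ⟨e2665, noF, [], [], []⟩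

def c2665 : PLift (Cov.check n2665.C.D v2665 = true) := ⟨by decide +kernel⟩

def b2665 : PLift (entF (fidx ts) 400 2665 n2665 = true) := ⟨by decide +kernel⟩

theorem g2665 : GoodF (fidx ts) 400 2665 := GoodF.ofV v2665 n2665 c2665.down b2665.down

/-- 4648464:2167 -/
noncomputable def e2666 : SCfg where
  D := {
    a := 7
    L := 10
    kp := 8
    inn := [(0, 1), (1, 0), (1, 2), (1, 3), (2, 1), (3, 1), (3, 4), (3, 5), (3, 6), (4, 3), (4, 5), (5,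
      3), (5, 4), (5, 6), (6, 3), (6, 5)]
    mix := [(0, 0), (0, 1), (0, 2), (1, 0), (1, 2), (1, 3), (2, 2), (2, 3), (2, 4), (3, 0), (3, 3), (3,
      5), (3, 6), (4, 3), (4, 7), (5, 7), (5, 8), (5, 9), (6, 5), (6, 9)]
    cl := [0, 6, 1, 0, 7, 3, 8, 2, 5, 4]
    chq := [(0, 1), (0, 3), (0, 4), (0, 5), (1, 0), (3, 0), (4, 0), (5, 0)]
    rng := [(0, 1), (0, 6), (1, 0), (1, 2), (2, 1), (2, 4), (3, 4), (3, 7), (4, 2), (4, 3), (5, 6), (5,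
      9), (6, 0), (6, 5), (7, 3), (7, 8), (8, 7), (8, 9), (9, 5), (9, 8)]
    lev := [] }
  links := [[1, 7, 8, 9], [7, 0, 9, 2, 10, 3], [10, 1, 9, 11], [7, 1, 10, 4, 5, 6, 12, 13], [5, 3, 10,
    14], [6, 3, 4, 14, 15, 16], [12, 3, 5, 16]]
  P := {
    a := 7
    N := 17
    nb := [898, 1677, 3586, 13554, 17448, 114776, 69672, 8459, 641, 2311, 18462, 1540, 73800, 4232,
      33840, 81952, 36960]
    tri := [(0, 1, 7), (0, 1, 9), (0, 7, 8), (0, 8, 9), (1, 2, 9), (1, 2, 10), (1, 3, 7), (1, 3, 10),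
      (2, 9, 11), (2, 10, 11), (3, 4, 5), (3, 4, 10), (3, 5, 6), (3, 6, 12), (3, 7, 13), (3, 12,
      13), (4, 5, 14), (4, 10, 14), (5, 6, 16), (5, 14, 15), (5, 15, 16), (6, 12, 16)]
    fin := [0, 0, 0, 0, 0, 0, 0, 0, 8, 9, 0, 11, 12, 13, 14, 15, 16]
    chd := [(0, 9), (0, 12), (0, 15), (0, 16)]
    steps := [(0, 1), (0, 2), (0, 3), (0, 4), (0, 5), (0, 6), (0, 7), (0, 10)] }
  rep := [0, 9, 14, 12, 16, 15, 8, 11, 13]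

noncomputable def v2666 : Cov.CovD where
  P := 3
  N := 6
  pl := [1, 4, 6, 7]
  lev := [⟨[], [], [(0, 1)], [6], [(0, 0, [1, 3, 4, 5]), (2, 1, [0])]⟩,
    ⟨[], [(0, 0), (0, 1)], [(0, 0), (0, 1)], [], [(0, 0, [1, 3, 4, 5]), (2, 1, [0]), (3, 0,
      [1, 3, 4, 5])]⟩,
    ⟨[(0, 1)], [(0, 1), (1, 0), (1, 1)], [(0, 1)], [7], [(2, 1, [0]), (3, 0, [1, 3, 4,
      5])]⟩,
    ⟨[(0, 1), (1, 2)], [(0, 0), (1, 0), (1, 1), (1, 3), (2, 0)], [(0, 0), (0, 3)], [8],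
      [(0, 0, [1, 3, 4, 5]), (3, 0, [1, 3, 4, 5]), (5, 3, [0])]⟩,
    ⟨[(1, 3)], [(1, 0), (2, 0), (3, 0), (3, 3)], [], [2], [(3, 0, [1, 3, 4, 5])]⟩,
    ⟨[(1, 3), (3, 4)], [(3, 0), (3, 3), (3, 4), (3, 5), (4, 0), (4, 4), (4, 5)], [(4, 5)],
      [2], [(8, 5, [0]), (9, 4, [0])]⟩,
    ⟨[(1, 3), (3, 4), (3, 5), (4, 5)], [(3, 0), (3, 3), (3, 4), (5, 3), (5, 4), (5, 5)],
      [(3, 4)], [], [(5, 3, [0]), (9, 4, [0])]⟩]
  Ta := [((0, 1), 0, 6), ((0, 6), 0, 8), ((3, 4), 0, 7), ((3, 7), 0, 2)]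
  Tb := [((0, 1, 6), 0, 6, 8), ((1, 0, 2), 6, 0, 1), ((2, 1, 4), 1, 6, 7), ((3, 4, 7), 0, 7, 2),
    ((4, 2, 3), 7, 1, 0), ((5, 6, 9), 3, 8, 4), ((6, 0, 5), 8, 0, 3), ((7, 3, 8), 2, 0, 5),
    ((8, 7, 9), 5, 2, 4), ((9, 5, 8), 4, 3, 5)]
  Tc := [(0, 1, 3), (0, 1, 4), (0, 1, 5), (0, 3, 4), (0, 3, 5), (0, 4, 5)]
  Td := [((0, 1), (0, 1), 6), ((0, 1), (0, 6), 8), ((0, 1), (3, 4), 7), ((0, 1), (3, 7), 2), ((0,
    3), (0, 1), 6), ((0, 3), (0, 6), 8), ((0, 3), (3, 4), 7), ((0, 3), (3, 7), 2), ((0, 4),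
    (0, 1), 6), ((0, 4), (0, 6), 8), ((0, 4), (3, 4), 7), ((0, 4), (3, 7), 2), ((0, 5), (0,
    1), 6), ((0, 5), (0, 6), 8), ((0, 5), (3, 4), 7), ((0, 5), (3, 7), 2), ((1, 0), (2, 1),
    6), ((1, 0), (2, 4), 7), ((3, 0), (5, 6), 8), ((3, 0), (5, 9), 4), ((4, 0), (9, 5), 3),
    ((4, 0), (9, 8), 5), ((5, 0), (8, 7), 2), ((5, 0), (8, 9), 4)]
  G := [[0, 0x11844118118a4a118114114e82118118114e24e, 0, 0xe18e1861195481c1154e18e18e118481cc,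
    0xe12e1861e1281ce1841e121398a1cc], [0, 0x114118114e84118114114e42114114114e28e,
    0x111e2111e861164111e2111e4ec111e481828cc1, 0xe184e1813546c6181ce18a19548cc1,
    0xe1821c1a61538e186ce128e128cc1]]

noncomputable def n2666 : Ent := ⟨e2666, noF, [], [], [(11, 14, [1685382413448253767852309107433119732572617628602273068445375827969, 0])]⟩

def c2666 : PLift (Cov.check n2666.C.D v2666 = true) := ⟨by decide +kernel⟩

def b2666 : PLift (entF (fidx ts) 400 2666 n2666 = true) := ⟨by decide +kernel⟩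

theorem g2666 : GoodF (fidx ts) 400 2666 := GoodF.ofV v2666 n2666 c2666.down b2666.down

/-- 4648464:2169/1 -/
noncomputable def e2667 : SCfg where
  D := {
    a := 7
    L := 10
    kp := 8
    inn := [(0, 1), (1, 0), (1, 2), (1, 3), (2, 1), (3, 1), (3, 4), (3, 5), (3, 6), (4, 3), (4, 5), (5,
      3), (5, 4), (6, 3)]
    mix := [(0, 0), (0, 1), (0, 2), (1, 0), (1, 2), (1, 3), (2, 2), (2, 3), (2, 4), (3, 0), (3, 3), (3,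
      5), (3, 6), (4, 5), (4, 7), (5, 3), (5, 4), (5, 7), (5, 8), (6, 5), (6, 6), (6, 9)]
    cl := [0, 7, 1, 0, 4, 3, 2, 5, 6, 8]
    chq := [(0, 1), (1, 0), (2, 3), (2, 4), (2, 5), (2, 6), (3, 2), (4, 2), (5, 2), (6, 2)]
    rng := [(0, 1), (0, 6), (1, 0), (1, 2), (2, 1), (2, 4), (3, 4), (4, 2), (4, 3), (4, 8), (5, 7), (5,
      9), (6, 0), (6, 9), (7, 5), (7, 8), (8, 4), (8, 7), (9, 5), (9, 6)]
    lev := [] }
  links := [[1, 7, 8, 9], [7, 0, 9, 2, 10, 3], [10, 1, 9, 11], [7, 1, 10, 5, 4, 12, 6, 13], [12, 3, 5,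
    14], [14, 4, 3, 10, 11, 15], [13, 3, 12, 16]]
  P := {
    a := 7
    N := 17
    nb := [898, 1677, 3586, 13554, 20520, 52248, 77832, 8459, 641, 2311, 2094, 34340, 82008, 65736,
      36912, 18464, 12352]
    tri := [(0, 1, 7), (0, 1, 9), (0, 7, 8), (0, 8, 9), (1, 2, 9), (1, 2, 10), (1, 3, 7), (1, 3, 10),
      (2, 9, 11), (2, 10, 11), (3, 4, 5), (3, 4, 12), (3, 5, 10), (3, 6, 12), (3, 6, 13), (3, 7,
      13), (4, 5, 14), (4, 12, 14), (5, 10, 11), (5, 11, 15), (5, 14, 15), (6, 12, 16), (6, 13,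
      16)]
    fin := [0, 0, 0, 3, 4, 3, 6, 0, 8, 9, 0, 11, 6, 3, 4, 15, 16]
    chd := [(0, 9), (3, 4), (3, 15), (6, 3), (11, 3)]
    steps := [(0, 1), (0, 2), (0, 7), (0, 10), (3, 5), (3, 13), (4, 14), (6, 12)] }
  rep := [0, 9, 3, 6, 11, 4, 15, 8, 16]

noncomputable def v2667 : Cov.CovD where
  P := 3
  N := 6
  pl := [1, 9]
  lev := [⟨[], [], [(0, 1)], [7], [(0, 0, [1]), (2, 1, [0])]⟩,
    ⟨[], [(0, 0), (0, 1)], [(0, 0), (0, 1)], [], [(0, 0, [1]), (2, 1, [0]), (3, 0, [1])]⟩,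
    ⟨[(0, 1)], [(0, 1), (1, 0), (1, 1), (1, 4)], [(0, 1), (0, 4), (1, 4)], [], [(2, 1,
      [0]), (3, 0, [1]), (4, 4, [2])]⟩,
    ⟨[(0, 1), (1, 2)], [(0, 0), (1, 0), (1, 1), (1, 2), (1, 3), (2, 0)], [(0, 0), (0, 2),
      (0, 3), (2, 3)], [], [(0, 0, [1]), (3, 0, [1]), (5, 3, [2]), (6, 2, [3, 4, 5, 6])]⟩,
    ⟨[(1, 3)], [(3, 0), (3, 2), (3, 3), (3, 5)], [(3, 5)], [], [(5, 3, [2]), (7, 5, [2])]⟩,
    ⟨[(1, 3), (3, 4)], [(1, 0), (2, 0), (2, 4), (3, 0), (3, 2), (3, 3), (3, 4), (3, 5), (3,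
      6), (4, 0), (4, 3), (4, 4), (4, 5), (4, 6)], [(0, 4), (0, 5), (0, 6), (4, 5), (4, 6),
      (5, 6)], [], [(3, 0, [1]), (4, 4, [2]), (7, 5, [2]), (8, 6, [2])]⟩,
    ⟨[(1, 3), (3, 4), (3, 5)], [(3, 0), (3, 2), (3, 3), (4, 3)], [(2, 3)], [8], [(5, 3,
      [2]), (6, 2, [3, 4, 5, 6])]⟩]
  Ta := [((0, 1), 0, 7), ((0, 6), 0, 2), ((3, 4), 0, 4)]
  Tb := [((0, 1, 6), 0, 7, 2), ((1, 0, 2), 7, 0, 1), ((2, 1, 4), 1, 7, 4), ((4, 2, 3), 4, 1, 0),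
    ((4, 2, 8), 4, 1, 6), ((4, 3, 8), 4, 0, 6), ((5, 7, 9), 3, 5, 8), ((6, 0, 9), 2, 0, 8),
    ((7, 5, 8), 5, 3, 6), ((8, 4, 7), 6, 4, 5), ((9, 5, 6), 8, 3, 2)]
  Tc := [(2, 3, 4), (2, 3, 5), (2, 3, 6), (2, 4, 5), (2, 4, 6), (2, 5, 6)]
  Td := [((0, 1), (0, 1), 7), ((0, 1), (0, 6), 2), ((0, 1), (3, 4), 4), ((1, 0), (2, 1), 7), ((1,
    0), (2, 4), 4), ((2, 3), (6, 0), 0), ((2, 3), (6, 9), 8), ((2, 4), (6, 0), 0), ((2, 4),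
    (6, 9), 8), ((2, 5), (6, 0), 0), ((2, 5), (6, 9), 8), ((2, 6), (6, 0), 0), ((2, 6), (6,
    9), 8), ((3, 2), (5, 7), 5), ((3, 2), (5, 9), 8), ((4, 2), (4, 2), 1), ((4, 2), (4, 3),
    0), ((4, 2), (4, 8), 6), ((5, 2), (7, 5), 3), ((5, 2), (7, 8), 6), ((6, 2), (8, 4), 4),
    ((6, 2), (8, 7), 5)]
  G := [[0, 0x2252f242522292fa82c922242f64282292f2921c24e,
    0xc12161ea141c6c4a14521c1a1e8161caea6122a2c9c41216c161aa16181eee8ee14521c1a1e8161ca8cc,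
    0x324252741728232b81c721b252227c12292a81cc, 0x449494d34d4447a14649444d2454347a14c], [0,
    0x252752342522299f6282c2c2127523c22252fac222888228aac, 0,
    0x2225a64b2425274c728292b8328232b8cc1, 0x4444944443a74946c346345ac41]]

noncomputable def n2667 : Ent := ⟨e2667, noF, [], [], []⟩

def c2667 : PLift (Cov.check n2667.C.D v2667 = true) := ⟨by decide +kernel⟩

def b2667 : PLift (entF (fidx ts) 400 2667 n2667 = true) := ⟨by decide +kernel⟩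

theorem g2667 : GoodF (fidx ts) 400 2667 := GoodF.ofV v2667 n2667 c2667.down b2667.down

/-- 4648464:2169 -/
noncomputable def e2668 : SCfg where
  D := {
    a := 7
    L := 11
    kp := 9
    inn := [(0, 1), (1, 0), (1, 2), (1, 3), (2, 1), (3, 1), (3, 4), (3, 5), (3, 6), (4, 3), (4, 5), (5,
      3), (5, 4), (6, 3)]
    mix := [(0, 0), (0, 1), (0, 2), (1, 0), (1, 2), (1, 3), (2, 2), (2, 3), (2, 4), (3, 0), (3, 3), (3,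
      5), (3, 6), (4, 5), (4, 7), (5, 3), (5, 7), (5, 8), (5, 9), (6, 5), (6, 6), (6, 10)]
    cl := [0, 7, 1, 0, 8, 3, 2, 4, 5, 6, 9]
    chq := [(0, 1), (1, 0), (2, 3), (2, 4), (2, 5), (2, 6), (3, 2), (4, 2), (5, 2), (6, 2)]
    rng := [(0, 1), (0, 6), (1, 0), (1, 2), (2, 1), (2, 4), (3, 4), (3, 8), (4, 2), (4, 3), (5, 7), (5,
      10), (6, 0), (6, 10), (7, 5), (7, 9), (8, 3), (8, 9), (9, 7), (9, 8), (10, 5), (10, 6)]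
    lev := [] }
  links := [[1, 7, 8, 9], [7, 0, 9, 2, 10, 3], [10, 1, 9, 11], [7, 1, 10, 5, 4, 12, 6, 13], [12, 3, 5,
    14], [14, 4, 3, 10, 15, 16], [13, 3, 12, 17]]
  P := {
    a := 7
    N := 18
    nb := [898, 1677, 3586, 13554, 20520, 115736, 143368, 8459, 641, 2311, 34862, 1540, 147544,
      131272, 69680, 66592, 49184, 12352]
    tri := [(0, 1, 7), (0, 1, 9), (0, 7, 8), (0, 8, 9), (1, 2, 9), (1, 2, 10), (1, 3, 7), (1, 3, 10),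
      (2, 9, 11), (2, 10, 11), (3, 4, 5), (3, 4, 12), (3, 5, 10), (3, 6, 12), (3, 6, 13), (3, 7,
      13), (4, 5, 14), (4, 12, 14), (5, 10, 15), (5, 14, 16), (5, 15, 16), (6, 12, 17), (6, 13,
      17)]
    fin := [0, 0, 0, 3, 4, 3, 6, 0, 8, 9, 0, 11, 6, 3, 4, 15, 16, 17]
    chd := [(0, 9), (3, 4), (3, 15), (3, 16), (6, 3)]
    steps := [(0, 1), (0, 2), (0, 7), (0, 10), (3, 5), (3, 13), (4, 14), (6, 12)] }
  rep := [0, 9, 3, 6, 4, 15, 16, 8, 11, 17]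

noncomputable def v2668 : Cov.CovD where
  P := 3
  N := 7
  pl := [1, 4, 10]
  lev := [⟨[], [], [(0, 1)], [7], [(0, 0, [1]), (2, 1, [0])]⟩,
    ⟨[], [(0, 0), (0, 1)], [(0, 0), (0, 1)], [], [(0, 0, [1]), (2, 1, [0]), (3, 0, [1])]⟩,
    ⟨[(0, 1)], [(0, 1), (1, 0), (1, 1)], [(0, 1)], [8], [(2, 1, [0]), (3, 0, [1])]⟩,
    ⟨[(0, 1), (1, 2)], [(0, 0), (1, 0), (1, 1), (1, 2), (1, 3), (2, 0)], [(0, 0), (0, 2),
      (0, 3), (2, 3)], [], [(0, 0, [1]), (3, 0, [1]), (5, 3, [2]), (6, 2, [3, 4, 5, 6])]⟩,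
    ⟨[(1, 3)], [(3, 0), (3, 2), (3, 3), (3, 4)], [(3, 4)], [], [(5, 3, [2]), (7, 4, [2])]⟩,
    ⟨[(1, 3), (3, 4)], [(1, 0), (2, 0), (3, 0), (3, 2), (3, 3), (3, 4), (3, 5), (3, 6), (4,
      0), (4, 3), (4, 4), (4, 5), (4, 6)], [(0, 4), (0, 5), (0, 6), (4, 5), (4, 6), (5, 6)],
      [], [(3, 0, [1]), (7, 4, [2]), (8, 5, [2]), (9, 6, [2])]⟩,
    ⟨[(1, 3), (3, 4), (3, 5)], [(3, 0), (3, 2), (3, 3), (4, 3)], [(2, 3)], [9], [(5, 3,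
      [2]), (6, 2, [3, 4, 5, 6])]⟩]
  Ta := [((0, 1), 0, 7), ((0, 6), 0, 2), ((3, 4), 0, 8), ((3, 8), 0, 5)]
  Tb := [((0, 1, 6), 0, 7, 2), ((1, 0, 2), 7, 0, 1), ((2, 1, 4), 1, 7, 8), ((3, 4, 8), 0, 8, 5),
    ((4, 2, 3), 8, 1, 0), ((5, 7, 10), 3, 4, 9), ((6, 0, 10), 2, 0, 9), ((7, 5, 9), 4, 3, 6),
    ((8, 3, 9), 5, 0, 6), ((9, 7, 8), 6, 4, 5), ((10, 5, 6), 9, 3, 2)]
  Tc := [(2, 3, 4), (2, 3, 5), (2, 3, 6), (2, 4, 5), (2, 4, 6), (2, 5, 6)]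
  Td := [((0, 1), (0, 1), 7), ((0, 1), (0, 6), 2), ((0, 1), (3, 4), 8), ((0, 1), (3, 8), 5), ((1,
    0), (2, 1), 7), ((1, 0), (2, 4), 8), ((2, 3), (6, 0), 0), ((2, 3), (6, 10), 9), ((2, 4),
    (6, 0), 0), ((2, 4), (6, 10), 9), ((2, 5), (6, 0), 0), ((2, 5), (6, 10), 9), ((2, 6), (6,
    0), 0), ((2, 6), (6, 10), 9), ((3, 2), (5, 7), 4), ((3, 2), (5, 10), 9), ((4, 2), (7, 5),
    3), ((4, 2), (7, 9), 6), ((5, 2), (8, 3), 0), ((5, 2), (8, 9), 6), ((6, 2), (9, 7), 4),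
    ((6, 2), (9, 8), 5)]
  G := [[0, 0x728292b256523c22728292b224c252b24c282255b6421632382b2ccc28a284ae,
    0xc161a4461c1a1e8121a816141eec1a16a161caccc1a121ea141c1e641216c18121ea161c1eec4121688cc,
    0x324252741629222b81c225222741728292b81cc, 0x748494d3444447a14449444d24d4347a14c], [0,
    0x229997a82328292bb242527c8682324252f428328292b8328292ba252227cc2e, 0,
    0x32425274a2522274c22429222f8328292b8cc1, 0x748454d2454347a749444d3444347ac41]]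

noncomputable def n2668 : Ent := ⟨e2668, noF, [], [], [(11, 15, [7334790850167413569773436004105379185503274260204390087403942015578113, 0])]⟩

def c2668 : PLift (Cov.check n2668.C.D v2668 = true) := ⟨by decide +kernel⟩

def b2668 : PLift (entF (fidx ts) 400 2668 n2668 = true) := ⟨by decide +kernel⟩

theorem g2668 : GoodF (fidx ts) 400 2668 := GoodF.ofV v2668 n2668 c2668.down b2668.down

/-- 4648446:2170/1 -/
noncomputable def e2669 : SCfg where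
  D := {
    a := 7
    L := 9
    kp := 7
    inn := [(0, 1), (0, 6), (1, 0), (1, 2), (1, 3), (1, 6), (2, 1), (3, 1), (3, 4), (3, 5), (3, 6), (4,
      3), (5, 3), (6, 0), (6, 1), (6, 3)]
    mix := [(0, 0), (0, 1), (1, 1), (1, 2), (2, 1), (2, 2), (2, 3), (3, 2), (3, 4), (3, 5), (3, 6), (4,
      2), (4, 3), (4, 4), (5, 4), (5, 5), (5, 7), (6, 0), (6, 6), (6, 8)]
    cl := [4, 1, 0, 2, 3, 5, 0, 6, 7]
    chq := [(0, 1), (0, 3), (0, 4), (0, 6), (1, 0), (3, 0), (4, 0), (6, 0)]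
    rng := [(0, 1), (0, 8), (1, 0), (1, 3), (2, 3), (3, 1), (3, 2), (3, 4), (4, 3), (4, 7), (5, 6), (5,
      7), (6, 5), (6, 8), (7, 4), (7, 5), (8, 0), (8, 6)]
    lev := [] }
  links := [[1, 6, 7, 8], [6, 0, 8, 2, 9, 3], [9, 1, 8, 10], [6, 1, 9, 4, 11, 5, 12, 13], [11, 3, 9, 10],
    [12, 3, 11, 14], [7, 0, 1, 3, 13, 15]]
  P := {
    a := 7
    N := 16
    nb := [450, 845, 1794, 14962, 3592, 22536, 41099, 33089, 1159, 1054, 2836, 17464, 24616, 36936,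
      6176, 8384]
    tri := [(0, 1, 6), (0, 1, 8), (0, 6, 7), (0, 7, 8), (1, 2, 8), (1, 2, 9), (1, 3, 6), (1, 3, 9), (2,
      8, 10), (2, 9, 10), (3, 4, 9), (3, 4, 11), (3, 5, 11), (3, 5, 12), (3, 6, 13), (3, 12, 13),
      (4, 9, 10), (4, 10, 11), (5, 11, 14), (5, 12, 14), (6, 7, 15), (6, 13, 15)]
    fin := [0, 0, 2, 3, 4, 3, 0, 0, 2, 3, 4, 11, 12, 3, 14, 15]
    chd := [(0, 3), (2, 3), (3, 11), (3, 14)]
    steps := [(0, 1), (0, 6), (0, 7), (2, 8), (3, 5), (3, 9), (3, 13), (4, 10)] }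
  rep := [3, 2, 4, 11, 0, 12, 14, 15]

noncomputable def v2669 : Cov.CovD where
  P := 3
  N := 5
  pl := [3, 5, 8]
  lev := [⟨[], [], [(1, 4)], [], [(0, 4, [0]), (1, 1, [0])]⟩,
    ⟨[], [(0, 0), (0, 1), (0, 4)], [(0, 1)], [], [(1, 1, [0]), (2, 0, [1, 3, 4, 6])]⟩,
    ⟨[(0, 1)], [(0, 1), (1, 0), (1, 1)], [(0, 1)], [2], [(1, 1, [0]), (2, 0, [1, 3, 4,
      6])]⟩,
    ⟨[(0, 1), (1, 2)], [(1, 0), (1, 1), (1, 3), (2, 0)], [(0, 0), (0, 3)], [5], [(2, 0, [1,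
      3, 4, 6]), (4, 3, [0]), (6, 0, [1, 3, 4, 6])]⟩,
    ⟨[(1, 3)], [(1, 0), (2, 0), (3, 0), (3, 3)], [(0, 3)], [2], [(2, 0, [1, 3, 4, 6]), (4,
      3, [0])]⟩,
    ⟨[(1, 3), (3, 4)], [(3, 0), (3, 3), (3, 6), (4, 3)], [(3, 6)], [5], [(4, 3, [0]), (7,
      6, [0])]⟩,
    ⟨[(0, 1), (0, 3), (1, 2), (1, 3), (3, 4), (3, 5)], [(0, 0), (0, 1), (0, 4), (1, 0), (1,
      1), (1, 4), (3, 0), (3, 3), (3, 4)], [(0, 4)], [7], [(0, 4, [0]), (6, 0, [1, 3, 4,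
      6])]⟩]
  Ta := [((2, 3), 0, 2), ((6, 5), 0, 5), ((6, 8), 0, 7)]
  Tb := [((0, 1, 8), 4, 1, 7), ((1, 0, 3), 1, 4, 2), ((3, 1, 2), 2, 1, 0), ((3, 1, 4), 2, 1, 3),
    ((3, 2, 4), 2, 0, 3), ((4, 3, 7), 3, 2, 6), ((5, 6, 7), 5, 0, 6), ((6, 5, 8), 0, 5, 7),
    ((7, 4, 5), 6, 3, 5), ((8, 0, 6), 7, 4, 0)]
  Tc := [(0, 1, 3), (0, 1, 4), (0, 1, 6), (0, 3, 4), (0, 3, 6), (0, 4, 6)]
  Td := [((0, 1), (2, 3), 2), ((0, 1), (6, 5), 5), ((0, 1), (6, 8), 7), ((0, 3), (2, 3), 2), ((0,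
    3), (6, 5), 5), ((0, 3), (6, 8), 7), ((0, 4), (2, 3), 2), ((0, 4), (6, 5), 5), ((0, 4),
    (6, 8), 7), ((0, 6), (2, 3), 2), ((0, 6), (6, 5), 5), ((0, 6), (6, 8), 7), ((1, 0), (1,
    0), 4), ((1, 0), (1, 3), 2), ((3, 0), (4, 3), 2), ((3, 0), (4, 7), 6), ((4, 0), (0, 1),
    1), ((4, 0), (0, 8), 7), ((6, 0), (7, 4), 3), ((6, 0), (7, 5), 5)]
  G := [[0, 0x111114111e42111111111e48a, 0x11444118112a8c11444118112a8cc,
    0x118884114448a14e1e1c6461888cd, 0x51891a1ad12e843111a48318112a8cc], [0,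
    0x118111111e841112111114cc8a, 0, 0x2ae71442638181decebc4e7ca8c1,
    0x2651484656828f92a38893c18cc2f3e8c1]]

noncomputable def n2669 : Ent := ⟨e2669, noF, [], [], []⟩

def c2669 : PLift (Cov.check n2669.C.D v2669 = true) := ⟨by decide +kernel⟩

def b2669 : PLift (entF (fidx ts) 400 2669 n2669 = true) := ⟨by decide +kernel⟩

theorem g2669 : GoodF (fidx ts) 400 2669 := GoodF.ofV v2669 n2669 c2669.down b2669.down

/-- 4648446:2170 -/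
noncomputable def e2670 : SCfg where
  D := {
    a := 7
    L := 10
    kp := 8
    inn := [(0, 1), (0, 6), (1, 0), (1, 2), (1, 3), (1, 6), (2, 1), (3, 1), (3, 4), (3, 5), (3, 6), (4,
      3), (5, 3), (6, 0), (6, 1), (6, 3)]
    mix := [(0, 0), (0, 1), (1, 1), (1, 2), (2, 1), (2, 2), (2, 3), (3, 2), (3, 4), (3, 5), (3, 6), (4,
      2), (4, 4), (4, 7), (5, 4), (5, 5), (5, 8), (6, 0), (6, 6), (6, 9)]
    cl := [4, 1, 0, 7, 3, 2, 0, 8, 5, 6]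
    chq := [(0, 1), (0, 3), (0, 5), (1, 0), (1, 6), (3, 0), (5, 0), (6, 1)]
    rng := [(0, 1), (0, 9), (1, 0), (1, 3), (2, 3), (2, 7), (3, 1), (3, 2), (4, 7), (4, 8), (5, 6), (5,
      8), (6, 5), (6, 9), (7, 2), (7, 4), (8, 4), (8, 5), (9, 0), (9, 6)]
    lev := [] }
  links := [[1, 6, 7, 8], [6, 0, 8, 2, 9, 3], [9, 1, 8, 10], [6, 1, 9, 4, 11, 5, 12, 13], [11, 3, 9, 14],
    [12, 3, 11, 15], [7, 0, 1, 3, 13, 16]]
  P := {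
    a := 7
    N := 17
    nb := [450, 845, 1794, 14962, 18952, 38920, 73867, 65857, 1159, 17438, 772, 49208, 41000, 69704,
      2576, 6176, 8384]
    tri := [(0, 1, 6), (0, 1, 8), (0, 6, 7), (0, 7, 8), (1, 2, 8), (1, 2, 9), (1, 3, 6), (1, 3, 9), (2,
      8, 10), (2, 9, 10), (3, 4, 9), (3, 4, 11), (3, 5, 11), (3, 5, 12), (3, 6, 13), (3, 12, 13),
      (4, 9, 14), (4, 11, 14), (5, 11, 15), (5, 12, 15), (6, 7, 16), (6, 13, 16)]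
    fin := [0, 1, 1, 3, 3, 3, 1, 0, 1, 3, 10, 11, 12, 3, 14, 15, 16]
    chd := [(1, 3), (1, 16), (3, 11), (3, 15)]
    steps := [(0, 7), (1, 2), (1, 6), (1, 8), (3, 4), (3, 5), (3, 9), (3, 13)] }
  rep := [3, 1, 12, 11, 0, 15, 16, 10, 14]

noncomputable def v2670 : Cov.CovD where
  P := 3
  N := 6
  pl := [0, 3, 5, 7]
  lev := [⟨[], [], [], [4], [(1, 1, [0, 6])]⟩,
    ⟨[], [(0, 0), (0, 1)], [(0, 1)], [], [(1, 1, [0, 6]), (2, 0, [1, 3, 5])]⟩,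
    ⟨[(0, 1)], [(0, 1), (1, 0), (1, 1)], [(0, 1)], [7], [(1, 1, [0, 6]), (2, 0, [1, 3,
      5])]⟩,
    ⟨[(0, 1), (1, 2)], [(1, 0), (1, 1), (1, 3), (2, 0)], [(0, 0), (0, 3)], [2], [(2, 0, [1,
      3, 5]), (4, 3, [0]), (6, 0, [1, 3, 5])]⟩,
    ⟨[(1, 3)], [(1, 0), (2, 0), (3, 0), (3, 3)], [(0, 3)], [8], [(2, 0, [1, 3, 5]), (4, 3,
      [0])]⟩,
    ⟨[(1, 3), (3, 4)], [(3, 0), (3, 3), (3, 5), (4, 3)], [(3, 5)], [2], [(4, 3, [0]), (8,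
      5, [0])]⟩,
    ⟨[(0, 1), (0, 3), (1, 2), (1, 3), (3, 4), (3, 5)], [(0, 0), (0, 1), (0, 6), (1, 0), (1,
      1), (1, 6), (3, 0), (3, 3), (3, 6)], [(0, 6)], [4], [(6, 0, [1, 3, 5]), (9, 6, [1])]⟩]
  Ta := [((2, 3), 0, 7), ((2, 7), 0, 8), ((6, 5), 0, 2), ((6, 9), 0, 6)]
  Tb := [((0, 1, 9), 4, 1, 6), ((1, 0, 3), 1, 4, 7), ((2, 3, 7), 0, 7, 8), ((3, 1, 2), 7, 1, 0),
    ((4, 7, 8), 3, 8, 5), ((5, 6, 8), 2, 0, 5), ((6, 5, 9), 0, 2, 6), ((7, 2, 4), 8, 0, 3),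
    ((8, 4, 5), 5, 3, 2), ((9, 0, 6), 6, 4, 0)]
  Tc := [(0, 1, 3), (0, 1, 5), (0, 3, 5), (1, 0, 6)]
  Td := [((0, 1), (2, 3), 7), ((0, 1), (2, 7), 8), ((0, 1), (6, 5), 2), ((0, 1), (6, 9), 6), ((0,
    3), (2, 3), 7), ((0, 3), (2, 7), 8), ((0, 3), (6, 5), 2), ((0, 3), (6, 9), 6), ((0, 5),
    (2, 3), 7), ((0, 5), (2, 7), 8), ((0, 5), (6, 5), 2), ((0, 5), (6, 9), 6), ((1, 0), (1,
    0), 4), ((1, 0), (1, 3), 7), ((1, 6), (1, 0), 4), ((1, 6), (1, 3), 7), ((3, 0), (4, 7),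
    8), ((3, 0), (4, 8), 5), ((5, 0), (8, 4), 3), ((5, 0), (8, 5), 2), ((6, 1), (9, 0), 4),
    ((6, 1), (9, 6), 0)]
  G := [[0, 0x111111c42111111c22111111c84e, 0,
    0x31316442121a312c3131a8cc314481111a88c212164212164c2121a84cd,
    0x2111ca1516a3121ca1116ac411411d16a41121c11916a8c218844d], [0,
    0x11181114a4111411186811141118c2e,
    0x2261421644128c1c4ce1ec22a188cc22e1446e2e182a18e8e1e22a18cc5,
    0x411421216456161a81c4114a1449811881182121aa12cdc9,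
    0x21461c16a121881c811a11a811a11a61e1c8d45]]

noncomputable def n2670 : Ent := ⟨e2670, noF, [], [], [(10, 14, [1685382413448253767852309107433119732572617628602273068445375844353, 0])]⟩

def c2670 : PLift (Cov.check n2670.C.D v2670 = true) := ⟨by decide +kernel⟩

def b2670 : PLift (entF (fidx ts) 400 2670 n2670 = true) := ⟨by decide +kernel⟩

theorem g2670 : GoodF (fidx ts) 400 2670 := GoodF.ofV v2670 n2670 c2670.down b2670.down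

/-- 4648447:2171 -/
noncomputable def e2671 : SCfg where
  D := {
    a := 7
    L := 10
    kp := 8
    inn := [(0, 1), (1, 0), (1, 2), (1, 3), (1, 6), (2, 1), (2, 6), (3, 1), (3, 4), (3, 5), (3, 6), (4,
      3), (4, 6), (5, 3), (6, 1), (6, 2), (6, 3), (6, 4)]
    mix := [(0, 0), (0, 1), (0, 2), (1, 0), (1, 2), (2, 2), (2, 3), (3, 0), (3, 4), (3, 5), (3, 6), (4,
      4), (4, 7), (5, 4), (5, 5), (5, 8), (6, 3), (6, 7), (6, 9)]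
    cl := [0, 8, 1, 3, 0, 4, 5, 2, 6, 7]
    chq := [(0, 1), (0, 3), (0, 7), (1, 0), (3, 0), (5, 6), (6, 5), (7, 0)]
    rng := [(0, 1), (0, 6), (1, 0), (1, 2), (2, 1), (2, 3), (3, 2), (3, 9), (4, 7), (4, 8), (5, 6), (5,
      8), (6, 0), (6, 5), (7, 4), (7, 9), (8, 4), (8, 5), (9, 3), (9, 7)]
    lev := [] }
  links := [[1, 7, 8, 9], [7, 0, 9, 2, 6, 3], [6, 1, 9, 10], [7, 1, 6, 4, 11, 5, 12, 13], [11, 3, 6, 14],
    [12, 3, 11, 15], [14, 4, 3, 1, 2, 10, 16]]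
  P := {
    a := 7
    N := 17
    nb := [898, 717, 1602, 14578, 18504, 38920, 82974, 8459, 641, 1287, 66116, 49208, 41000, 4232,
      67664, 6176, 17472]
    tri := [(0, 1, 7), (0, 1, 9), (0, 7, 8), (0, 8, 9), (1, 2, 6), (1, 2, 9), (1, 3, 6), (1, 3, 7), (2,
      6, 10), (2, 9, 10), (3, 4, 6), (3, 4, 11), (3, 5, 11), (3, 5, 12), (3, 7, 13), (3, 12, 13),
      (4, 6, 14), (4, 11, 14), (5, 11, 15), (5, 12, 15), (6, 10, 16), (6, 14, 16)]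
    fin := [0, 0, 0, 3, 0, 3, 0, 0, 8, 9, 10, 0, 12, 13, 14, 3, 16]
    chd := [(0, 9), (0, 10), (0, 16), (13, 3)]
    steps := [(0, 1), (0, 2), (0, 6), (0, 4), (0, 7), (0, 11), (3, 5), (3, 15)] }
  rep := [0, 9, 14, 10, 12, 13, 3, 16, 8]

noncomputable def v2671 : Cov.CovD where
  P := 3
  N := 6
  pl := [1, 5, 7]
  lev := [⟨[], [], [(0, 1)], [8], [(0, 0, [1, 3, 7]), (2, 1, [0])]⟩,
    ⟨[], [(0, 0), (0, 1)], [(0, 1)], [], [(0, 0, [1, 3, 7]), (2, 1, [0])]⟩,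
    ⟨[(0, 1)], [(0, 1), (1, 0), (1, 1), (1, 3)], [(1, 3)], [], [(2, 1, [0]), (3, 3, [0])]⟩,
    ⟨[(0, 1), (1, 2)], [(0, 0), (1, 0), (1, 1), (1, 5)], [(0, 0), (0, 5)], [4], [(0, 0, [1,
      3, 7]), (4, 0, [1, 3, 7]), (6, 5, [6])]⟩,
    ⟨[(1, 3)], [(3, 0), (3, 5)], [], [2], [(4, 0, [1, 3, 7])]⟩,
    ⟨[(1, 3), (3, 4)], [(3, 0), (3, 5), (3, 6), (4, 0)], [(0, 6)], [4], [(4, 0, [1, 3, 7]),
      (8, 6, [5])]⟩,
    ⟨[(0, 1), (1, 2), (1, 3), (1, 4), (2, 3), (2, 4), (3, 4), (3, 5)], [(1, 0), (1, 1), (1,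
      3), (1, 7), (2, 1), (2, 3), (2, 7), (3, 0), (3, 3), (3, 5), (3, 7), (4, 0), (4, 3), (4,
      7)], [(3, 7)], [2], [(3, 3, [0]), (9, 7, [0])]⟩]
  Ta := [((0, 1), 0, 8), ((0, 6), 0, 5), ((4, 7), 0, 2), ((4, 8), 0, 6)]
  Tb := [((0, 1, 6), 0, 8, 5), ((1, 0, 2), 8, 0, 1), ((2, 1, 3), 1, 8, 3), ((3, 2, 9), 3, 1, 7),
    ((4, 7, 8), 0, 2, 6), ((5, 6, 8), 4, 5, 6), ((6, 0, 5), 5, 0, 4), ((7, 4, 9), 2, 0, 7),
    ((8, 4, 5), 6, 0, 4), ((9, 3, 7), 7, 3, 2)]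
  Tc := [(0, 1, 3), (0, 1, 7), (0, 3, 7)]
  Td := [((0, 1), (0, 1), 8), ((0, 1), (0, 6), 5), ((0, 1), (4, 7), 2), ((0, 1), (4, 8), 6), ((0,
    3), (0, 1), 8), ((0, 3), (0, 6), 5), ((0, 3), (4, 7), 2), ((0, 3), (4, 8), 6), ((0, 7),
    (0, 1), 8), ((0, 7), (0, 6), 5), ((0, 7), (4, 7), 2), ((0, 7), (4, 8), 6), ((1, 0), (2,
    1), 8), ((1, 0), (2, 3), 3), ((3, 0), (3, 2), 1), ((3, 0), (3, 9), 7), ((5, 6), (6, 0),
    0), ((5, 6), (6, 5), 4), ((6, 5), (8, 4), 0), ((6, 5), (8, 5), 4), ((7, 0), (9, 3), 3),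
    ((7, 0), (9, 7), 2)]
  G := [[0, 0x11c421141138c6411681198118e8211411a8c1154268e, 0,
    0x11a84411641181198e11411c4acc11841198455649d94ad81164884d,
    0xb12bb32bb58e141184113211c86c1121198a336289cc], [0,
    0x11411a811c4e8411421134118184e681142211541198c4ae, 0x6662eea2eec4e1886481c1,
    0x114b84111a84116489964ddc8adc1, 0x11a244116811a811c8e116211c8acc1]]

noncomputable def n2671 : Ent := ⟨e2671, noF, [], [], []⟩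

def c2671 : PLift (Cov.check n2671.C.D v2671 = true) := ⟨by decide +kernel⟩

def b2671 : PLift (entF (fidx ts) 400 2671 n2671 = true) := ⟨by decide +kernel⟩

theorem g2671 : GoodF (fidx ts) 400 2671 := GoodF.ofV v2671 n2671 c2671.down b2671.down

/-- 4646754:2173/2 -/
noncomputable def e2672 : SCfg where
  D := {
    a := 7
    L := 9
    kp := 6
    inn := [(0, 1), (1, 0), (1, 2), (1, 3), (2, 1), (2, 3), (3, 1), (3, 2), (3, 4), (4, 3), (4, 5), (5,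
      4), (5, 6), (6, 5)]
    mix := [(0, 0), (0, 1), (0, 2), (1, 0), (1, 2), (1, 3), (2, 2), (2, 4), (3, 3), (3, 4), (3, 5), (4,
      3), (4, 5), (4, 6), (4, 7), (4, 8), (5, 0), (5, 3), (5, 8), (6, 0), (6, 1), (6, 8)]
    cl := [1, 4, 3, 0, 2, 0, 5, 6, 0]
    chq := [(1, 2), (1, 3), (2, 1), (3, 1)]
    rng := [(0, 1), (0, 3), (1, 0), (1, 2), (1, 8), (2, 1), (2, 4), (3, 0), (4, 2), (4, 5), (5, 4), (5,
      6), (6, 5), (6, 7), (7, 6), (7, 8), (8, 1), (8, 7)]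
    lev := [] }
  links := [[1, 7, 8, 9], [7, 0, 9, 2, 3, 10], [3, 1, 9, 11], [10, 1, 2, 11, 12, 4], [10, 3, 12, 13, 14,
    15, 5], [10, 4, 15, 6, 7], [7, 5, 15, 8]]
  P := {
    a := 7
    N := 16
    nb := [898, 1677, 2570, 7190, 62504, 34000, 33184, 1379, 33473, 2311, 186, 4620, 10264, 20496,
      40976, 16752]
    tri := [(0, 1, 7), (0, 1, 9), (0, 7, 8), (0, 8, 9), (1, 2, 3), (1, 2, 9), (1, 3, 10), (1, 7, 10),
      (2, 3, 11), (2, 9, 11), (3, 4, 10), (3, 4, 12), (3, 11, 12), (4, 5, 10), (4, 5, 15), (4, 12,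
      13), (4, 13, 14), (4, 14, 15), (5, 6, 7), (5, 6, 15), (5, 7, 10), (6, 7, 8), (6, 8, 15)]
    fin := [0, 0, 0, 0, 4, 0, 0, 0, 8, 9, 4, 11, 4, 13, 14, 4]
    chd := [(0, 9), (0, 11)]
    steps := [(0, 1), (0, 2), (0, 3), (0, 7), (0, 6), (4, 12), (4, 10), (0, 5), (4, 15)] }
  rep := [4, 0, 11, 9, 8, 13, 14]

noncomputable def v2672 : Cov.CovD where
  P := 3
  N := 4
  pl := [1, 6, 7]
  lev := [⟨[], [], [(1, 3)], [4], [(0, 1, [2, 3]), (2, 3, [1])]⟩,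
    ⟨[], [(0, 0), (0, 1), (0, 3)], [(0, 1), (0, 3), (1, 3)], [], [(0, 1, [2, 3]), (2, 3,
      [1]), (3, 0, [])]⟩,
    ⟨[(0, 1)], [(0, 3), (1, 0), (1, 1), (1, 2), (1, 3)], [(2, 3)], [], [(2, 3, [1]), (4, 2,
      [1])]⟩,
    ⟨[(0, 1), (1, 2)], [(1, 0), (1, 1), (1, 2), (1, 3), (2, 0), (2, 2), (2, 3)], [(0, 0),
      (0, 2)], [], [(3, 0, []), (4, 2, [1]), (5, 0, [])]⟩,
    ⟨[(1, 3), (2, 3)], [(1, 0), (3, 0), (3, 2)], [(0, 0)], [5, 6], [(3, 0, []), (5, 0, []),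
      (8, 0, [])]⟩,
    ⟨[(3, 4)], [(0, 1), (1, 0), (1, 1), (3, 0), (4, 0), (4, 1)], [(0, 0), (0, 1)], [], [(0,
      1, [2, 3]), (3, 0, []), (8, 0, [])]⟩,
    ⟨[(4, 5)], [(0, 1), (1, 1), (4, 0), (5, 0), (5, 1)], [(0, 1)], [4], [(0, 1, [2, 3]),
      (8, 0, [])]⟩]
  Ta := [((3, 0), 0, 1), ((5, 4), 0, 2), ((5, 6), 0, 5), ((8, 1), 0, 4), ((8, 7), 0, 6)]
  Tb := [((0, 1, 3), 1, 4, 0), ((1, 0, 2), 4, 1, 3), ((1, 0, 8), 4, 1, 0), ((1, 2, 8), 4, 3, 0),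
    ((2, 1, 4), 3, 4, 2), ((4, 2, 5), 2, 3, 0), ((5, 4, 6), 0, 2, 5), ((6, 5, 7), 5, 0, 6),
    ((7, 6, 8), 6, 5, 0), ((8, 1, 7), 0, 4, 6)]
  Tc := [(1, 2, 3)]
  Td := [((1, 2), (0, 1), 4), ((1, 2), (0, 3), 0), ((1, 3), (0, 1), 4), ((1, 3), (0, 3), 0), ((2,
    1), (4, 2), 3), ((2, 1), (4, 5), 0), ((3, 1), (2, 1), 4), ((3, 1), (2, 4), 2)]
  G := [[0, 0x848884e418424244e814242828e412e, 0, 0x141818e42141818e84c2,
    0x1814c2288228c444818e28818186448a1181418e21cd], [0, 0, 0x141414e28181414e24c1,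
    0x181818e42141814e84c2, 0x148888e284441418e824181418e28141414e82cd], [0, 0, 0,
    0xc4c8c4e82c4c8c8e8252, 0x8484c28822388282c444848e824444848e28848884e81cd]]

noncomputable def n2672 : Ent := ⟨e2672, noF, [], [], []⟩

def c2672 : PLift (Cov.check n2672.C.D v2672 = true) := ⟨by decide +kernel⟩

def b2672 : PLift (entF (fidx ts) 400 2672 n2672 = true) := ⟨by decide +kernel⟩

theorem g2672 : GoodF (fidx ts) 400 2672 := GoodF.ofV v2672 n2672 c2672.down b2672.down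

/-- 4646754:2173/1 -/
noncomputable def e2673 : SCfg where
  D := {
    a := 7
    L := 10
    kp := 7
    inn := [(0, 1), (1, 0), (1, 2), (1, 3), (2, 1), (2, 3), (3, 1), (3, 2), (3, 4), (4, 3), (4, 5), (5,
      4), (5, 6), (6, 5)]
    mix := [(0, 0), (0, 1), (0, 2), (1, 0), (1, 2), (1, 3), (2, 2), (2, 4), (3, 3), (3, 4), (3, 5), (4,
      3), (4, 5), (4, 6), (4, 7), (4, 8), (5, 0), (5, 3), (5, 8), (6, 0), (6, 8), (6, 9)]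
    cl := [1, 4, 3, 0, 2, 0, 5, 6, 0, 7]
    chq := [(1, 2), (1, 3), (2, 1), (3, 1)]
    rng := [(0, 1), (0, 3), (0, 9), (1, 0), (1, 2), (2, 1), (2, 4), (3, 0), (4, 2), (4, 5), (5, 4), (5,
      6), (6, 5), (6, 7), (7, 6), (7, 8), (8, 7), (8, 9), (9, 0), (9, 8)]
    lev := [] }
  links := [[1, 7, 8, 9], [7, 0, 9, 2, 3, 10], [3, 1, 9, 11], [10, 1, 2, 11, 12, 4], [10, 3, 12, 13, 14,
    15, 5], [10, 4, 15, 6, 7], [7, 5, 15, 16]]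
  P := {
    a := 7
    N := 17
    nb := [898, 1677, 2570, 7190, 62504, 34000, 98464, 66915, 641, 2311, 186, 4620, 10264, 20496,
      40976, 82032, 32960]
    tri := [(0, 1, 7), (0, 1, 9), (0, 7, 8), (0, 8, 9), (1, 2, 3), (1, 2, 9), (1, 3, 10), (1, 7, 10),
      (2, 3, 11), (2, 9, 11), (3, 4, 10), (3, 4, 12), (3, 11, 12), (4, 5, 10), (4, 5, 15), (4, 12,
      13), (4, 13, 14), (4, 14, 15), (5, 6, 7), (5, 6, 15), (5, 7, 10), (6, 7, 16), (6, 15, 16)]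
    fin := [0, 0, 0, 0, 4, 0, 0, 0, 8, 9, 4, 11, 4, 13, 14, 4, 16]
    chd := [(0, 9), (0, 11)]
    steps := [(0, 1), (0, 2), (0, 3), (0, 7), (0, 6), (4, 12), (4, 10), (0, 5), (4, 15)] }
  rep := [4, 0, 11, 9, 8, 13, 14, 16]

noncomputable def v2673 : Cov.CovD where
  P := 3
  N := 5
  pl := [1, 6, 7, 9]
  lev := [⟨[], [], [(1, 3)], [4], [(0, 1, [2, 3]), (2, 3, [1])]⟩,
    ⟨[], [(0, 0), (0, 1), (0, 3)], [(0, 1), (0, 3), (1, 3)], [], [(0, 1, [2, 3]), (2, 3,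
      [1]), (3, 0, [])]⟩,
    ⟨[(0, 1)], [(0, 3), (1, 0), (1, 1), (1, 2), (1, 3)], [(2, 3)], [], [(2, 3, [1]), (4, 2,
      [1])]⟩,
    ⟨[(0, 1), (1, 2)], [(1, 0), (1, 1), (1, 2), (1, 3), (2, 0), (2, 2), (2, 3)], [(0, 0),
      (0, 2)], [], [(3, 0, []), (4, 2, [1]), (5, 0, [])]⟩,
    ⟨[(1, 3), (2, 3)], [(1, 0), (3, 0), (3, 2)], [(0, 0)], [5, 6], [(3, 0, []), (5, 0, []),
      (8, 0, [])]⟩,
    ⟨[(3, 4)], [(0, 1), (1, 0), (1, 1), (3, 0), (4, 0), (4, 1)], [(0, 0), (0, 1)], [], [(0,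
      1, [2, 3]), (3, 0, []), (8, 0, [])]⟩,
    ⟨[(4, 5)], [(0, 1), (1, 1), (4, 0), (5, 0), (5, 1)], [(0, 1)], [7], [(0, 1, [2, 3]),
      (8, 0, [])]⟩]
  Ta := [((3, 0), 0, 1), ((5, 4), 0, 2), ((5, 6), 0, 5), ((8, 7), 0, 6), ((8, 9), 0, 7)]
  Tb := [((0, 1, 3), 1, 4, 0), ((0, 1, 9), 1, 4, 7), ((0, 3, 9), 1, 0, 7), ((1, 0, 2), 4, 1, 3),
    ((2, 1, 4), 3, 4, 2), ((4, 2, 5), 2, 3, 0), ((5, 4, 6), 0, 2, 5), ((6, 5, 7), 5, 0, 6),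
    ((7, 6, 8), 6, 5, 0), ((8, 7, 9), 0, 6, 7), ((9, 0, 8), 7, 1, 0)]
  Tc := [(1, 2, 3)]
  Td := [((1, 2), (0, 1), 4), ((1, 2), (0, 3), 0), ((1, 2), (0, 9), 7), ((1, 3), (0, 1), 4), ((1,
    3), (0, 3), 0), ((1, 3), (0, 9), 7), ((2, 1), (4, 2), 3), ((2, 1), (4, 5), 0), ((3, 1),
    (2, 1), 4), ((3, 1), (2, 4), 2)]
  G := [[0, 0xa4c264e418a4a4c2e81462a8c4e812e, 0, 0x141818e48141814e84c2,
    0x1414c21422314282c141414e824141814e28141814e82cd], [0, 0,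
    0x181818e421141814e4211818a18462141414e82cd, 0x141418e84181814e4252,
    0x1418c21422314282c141414e824181418e28141414e82cd], [0, 0, 0, 0xc4c8c8e84c4c8c4e8252,
    0xc448cc2c4223c8282cc4c8c8e824c4c8c4e28c4c8c4e82cd]]

noncomputable def n2673 : Ent := ⟨e2673, noF, [], [], [(8, 16, [1580044410770988437309982408355971841652082177953823432505700057089, 0])]⟩

def c2673 : PLift (Cov.check n2673.C.D v2673 = true) := ⟨by decide +kernel⟩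

def b2673 : PLift (entF (fidx ts) 400 2673 n2673 = true) := ⟨by decide +kernel⟩

theorem g2673 : GoodF (fidx ts) 400 2673 := GoodF.ofV v2673 n2673 c2673.down b2673.down

/-- 4646754:2173/3 -/
noncomputable def e2674 : SCfg where
  D := {
    a := 7
    L := 10
    kp := 7
    inn := [(0, 1), (1, 0), (1, 2), (1, 3), (2, 1), (2, 3), (3, 1), (3, 2), (3, 4), (4, 3), (4, 5), (5,
      4), (5, 6), (6, 5)]
    mix := [(0, 0), (0, 1), (0, 2), (1, 0), (1, 2), (1, 3), (2, 2), (2, 4), (3, 3), (3, 4), (3, 5), (4,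
      3), (4, 5), (4, 6), (4, 7), (4, 8), (5, 3), (5, 8), (5, 9), (6, 1), (6, 8), (6, 9)]
    cl := [1, 4, 3, 0, 2, 0, 6, 7, 0, 5]
    chq := [(1, 2), (1, 3), (2, 1), (3, 1)]
    rng := [(0, 1), (0, 3), (1, 0), (1, 2), (1, 8), (1, 9), (2, 1), (2, 4), (3, 0), (3, 9), (4, 2), (4,
      5), (5, 4), (5, 6), (6, 5), (6, 7), (7, 6), (7, 8), (8, 1), (8, 7), (9, 1), (9, 3)]
    lev := [] }
  links := [[1, 7, 8, 9], [7, 0, 9, 2, 3, 10], [3, 1, 9, 11], [10, 1, 2, 11, 12, 4], [10, 3, 12, 13, 14,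
    15, 5], [10, 4, 15, 6, 16], [16, 5, 15, 8]]
  P := {
    a := 7
    N := 17
    nb := [898, 1677, 2570, 7190, 62504, 99408, 98592, 1283, 99009, 2311, 65722, 4620, 10264, 20496,
      40976, 16752, 1376]
    tri := [(0, 1, 7), (0, 1, 9), (0, 7, 8), (0, 8, 9), (1, 2, 3), (1, 2, 9), (1, 3, 10), (1, 7, 10),
      (2, 3, 11), (2, 9, 11), (3, 4, 10), (3, 4, 12), (3, 11, 12), (4, 5, 10), (4, 5, 15), (4, 12,
      13), (4, 13, 14), (4, 14, 15), (5, 6, 15), (5, 6, 16), (5, 10, 16), (6, 8, 15), (6, 8, 16)]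
    fin := [0, 0, 0, 0, 4, 5, 5, 0, 5, 9, 4, 11, 4, 13, 14, 4, 16]
    chd := [(0, 9), (0, 11)]
    steps := [(0, 1), (0, 2), (0, 3), (0, 7), (4, 12), (4, 15), (4, 10), (5, 6), (5, 8)] }
  rep := [4, 0, 11, 9, 5, 16, 13, 14]

noncomputable def v2674 : Cov.CovD where
  P := 3
  N := 5
  pl := [1, 6, 7, 9]
  lev := [⟨[], [], [(1, 3)], [4], [(0, 1, [2, 3]), (2, 3, [1])]⟩,
    ⟨[], [(0, 0), (0, 1), (0, 3)], [(0, 1), (0, 3), (1, 3)], [], [(0, 1, [2, 3]), (2, 3,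
      [1]), (3, 0, [])]⟩,
    ⟨[(0, 1)], [(0, 3), (1, 0), (1, 1), (1, 2), (1, 3)], [(2, 3)], [], [(2, 3, [1]), (4, 2,
      [1])]⟩,
    ⟨[(0, 1), (1, 2)], [(1, 0), (1, 1), (1, 2), (1, 3), (2, 0), (2, 2), (2, 3)], [(0, 0),
      (0, 2)], [], [(3, 0, []), (4, 2, [1]), (5, 0, [])]⟩,
    ⟨[(1, 3), (2, 3)], [(1, 0), (3, 0), (3, 2)], [(0, 0)], [6, 7], [(3, 0, []), (5, 0, []),
      (8, 0, [])]⟩,
    ⟨[(3, 4)], [(1, 0), (3, 0), (4, 0)], [(0, 0)], [5], [(3, 0, []), (8, 0, [])]⟩,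
    ⟨[(4, 5)], [(4, 0), (5, 0)], [], [4, 5], [(8, 0, [])]⟩]
  Ta := [((3, 0), 0, 1), ((3, 9), 0, 5), ((5, 4), 0, 2), ((5, 6), 0, 6), ((8, 1), 0, 4), ((8, 7),
    0, 7)]
  Tb := [((0, 1, 3), 1, 4, 0), ((1, 0, 2), 4, 1, 3), ((1, 0, 8), 4, 1, 0), ((1, 0, 9), 4, 1, 5),
    ((1, 2, 8), 4, 3, 0), ((1, 2, 9), 4, 3, 5), ((1, 8, 9), 4, 0, 5), ((2, 1, 4), 3, 4, 2),
    ((3, 0, 9), 0, 1, 5), ((4, 2, 5), 2, 3, 0), ((5, 4, 6), 0, 2, 6), ((6, 5, 7), 6, 0, 7),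
    ((7, 6, 8), 7, 6, 0), ((8, 1, 7), 0, 4, 7), ((9, 1, 3), 5, 4, 0)]
  Tc := [(1, 2, 3)]
  Td := [((1, 2), (0, 1), 4), ((1, 2), (0, 3), 0), ((1, 3), (0, 1), 4), ((1, 3), (0, 3), 0), ((2,
    1), (4, 2), 3), ((2, 1), (4, 5), 0), ((3, 1), (2, 1), 4), ((3, 1), (2, 4), 2)]
  G := [[0, 0x11c81a11ae41841611c11ae81411c11a11ae412e, 0, 0x12612a316e4212612621ce82c2,
    0x12a81cc2281c228c42641a156e82441612a14ce2812c82c81ce21cd], [0, 0,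
    0x11611611ce2811a11a11ce24c1, 0x12612c61168c211611c11ae82c2,
    0x12a12681ce28441641a14ce82441611611ce2111a12c11ce21cd], [0, 0, 0,
    0xc26c2a2ece82c26c2aa6ce8252,
    0x8a686ac282c22382c282c4a646a24ce82442642a24ce2882682a82ce82cd]]

noncomputable def n2674 : Ent := ⟨e2674, noF, [], [], [(7, 16, [1580044410770988437309982408355971841652082177953823432505700057089, 0])]⟩

def c2674 : PLift (Cov.check n2674.C.D v2674 = true) := ⟨by decide +kernel⟩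

def b2674 : PLift (entF (fidx ts) 400 2674 n2674 = true) := ⟨by decide +kernel⟩

theorem g2674 : GoodF (fidx ts) 400 2674 := GoodF.ofV v2674 n2674 c2674.down b2674.down

/-- 4646754:2173/4 -/
noncomputable def e2675 : SCfg where
  D := {
    a := 7
    L := 10
    kp := 7
    inn := [(0, 1), (1, 0), (1, 2), (1, 3), (2, 1), (2, 3), (3, 1), (3, 2), (3, 4), (4, 3), (4, 5), (5,
      4), (5, 6), (6, 5)]
    mix := [(0, 0), (0, 1), (0, 2), (1, 0), (1, 2), (1, 3), (2, 2), (2, 4), (3, 3), (3, 4), (3, 5), (4,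
      3), (4, 5), (4, 6), (4, 7), (4, 8), (5, 3), (5, 8), (5, 9), (6, 2), (6, 8), (6, 9)]
    cl := [2, 5, 1, 0, 3, 0, 6, 7, 0, 4]
    chq := [(1, 2), (2, 1), (2, 3), (3, 2)]
    rng := [(0, 1), (0, 3), (1, 0), (1, 2), (2, 1), (2, 4), (2, 8), (2, 9), (3, 0), (3, 9), (4, 2), (4,
      5), (5, 4), (5, 6), (6, 5), (6, 7), (7, 6), (7, 8), (8, 2), (8, 7), (9, 2), (9, 3)]
    lev := [] }
  links := [[1, 7, 8, 9], [7, 0, 9, 2, 3, 10], [3, 1, 9, 11], [10, 1, 2, 11, 12, 4], [10, 3, 12, 13, 14,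
    15, 5], [10, 4, 15, 6, 16], [16, 5, 15, 9]]
  P := {
    a := 7
    N := 17
    nb := [898, 1677, 2570, 7190, 62504, 99408, 98848, 1283, 641, 100679, 65722, 4620, 10264, 20496,
      40976, 17008, 1632]
    tri := [(0, 1, 7), (0, 1, 9), (0, 7, 8), (0, 8, 9), (1, 2, 3), (1, 2, 9), (1, 3, 10), (1, 7, 10),
      (2, 3, 11), (2, 9, 11), (3, 4, 10), (3, 4, 12), (3, 11, 12), (4, 5, 10), (4, 5, 15), (4, 12,
      13), (4, 13, 14), (4, 14, 15), (5, 6, 15), (5, 6, 16), (5, 10, 16), (6, 9, 15), (6, 9, 16)]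
    fin := [0, 0, 0, 0, 4, 5, 5, 0, 8, 5, 4, 11, 4, 13, 14, 4, 16]
    chd := [(0, 5), (0, 11)]
    steps := [(0, 1), (0, 2), (0, 3), (0, 7), (4, 12), (4, 15), (4, 10), (5, 6), (5, 9)] }
  rep := [4, 5, 0, 11, 16, 8, 13, 14]

noncomputable def v2675 : Cov.CovD where
  P := 3
  N := 5
  pl := [1, 6, 7, 9]
  lev := [⟨[], [], [(1, 2)], [5], [(0, 2, [1, 3]), (2, 1, [2])]⟩,
    ⟨[], [(0, 0), (0, 1), (0, 2)], [(0, 1), (0, 2), (1, 2)], [], [(0, 2, [1, 3]), (2, 1,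
      [2]), (3, 0, [])]⟩,
    ⟨[(0, 1)], [(0, 1), (1, 0), (1, 1), (1, 2), (1, 3)], [(1, 3)], [], [(2, 1, [2]), (4, 3,
      [2])]⟩,
    ⟨[(0, 1), (1, 2)], [(1, 0), (1, 1), (1, 2), (1, 3), (2, 0), (2, 1), (2, 3)], [(0, 0),
      (0, 3)], [], [(3, 0, []), (4, 3, [2]), (5, 0, [])]⟩,
    ⟨[(1, 3), (2, 3)], [(1, 0), (3, 0), (3, 3)], [(0, 0)], [6, 7], [(3, 0, []), (5, 0, []),
      (8, 0, [])]⟩,
    ⟨[(3, 4)], [(1, 0), (3, 0), (4, 0)], [(0, 0)], [4], [(3, 0, []), (8, 0, [])]⟩,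
    ⟨[(4, 5)], [(0, 1), (1, 1), (2, 1), (4, 0), (5, 0), (5, 1)], [(0, 1)], [4], [(2, 1,
      [2]), (8, 0, [])]⟩]
  Ta := [((3, 0), 0, 2), ((3, 9), 0, 4), ((5, 4), 0, 3), ((5, 6), 0, 6), ((8, 2), 0, 1), ((8, 7),
    0, 7)]
  Tb := [((0, 1, 3), 2, 5, 0), ((1, 0, 2), 5, 2, 1), ((2, 1, 4), 1, 5, 3), ((2, 1, 8), 1, 5, 0),
    ((2, 1, 9), 1, 5, 4), ((2, 4, 8), 1, 3, 0), ((2, 4, 9), 1, 3, 4), ((2, 8, 9), 1, 0, 4),
    ((3, 0, 9), 0, 2, 4), ((4, 2, 5), 3, 1, 0), ((5, 4, 6), 0, 3, 6), ((6, 5, 7), 6, 0, 7),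
    ((7, 6, 8), 7, 6, 0), ((8, 2, 7), 0, 1, 7), ((9, 2, 3), 4, 1, 0)]
  Tc := [(2, 1, 3)]
  Td := [((1, 2), (2, 1), 5), ((1, 2), (2, 4), 3), ((1, 2), (2, 8), 0), ((1, 2), (2, 9), 4), ((2,
    1), (0, 1), 5), ((2, 1), (0, 3), 0), ((2, 3), (0, 1), 5), ((2, 3), (0, 3), 0), ((3, 2),
    (4, 2), 1), ((3, 2), (4, 5), 0)]
  G := [[0, 0, 0x121212e41681681cea14121212e41a11c84cea14c, 0x529281ce218929284ce2145,
    0x41681a416e41a461841ac284ae81a46189], [0, 0, 0, 0x121212ce21412126128a8412421212a464d,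
    0x11c81611ce2121212e4581241212a41681c11cee489], [0,
    0x82c486648684aa42a82cce2482c82c642a84ca24c826ce28c, 0, 0xc222c22ce218486c284ce214c,
    0x486c284ae4ca4618486c2486e84a46189]]

noncomputable def n2675 : Ent := ⟨e2675, noF, [], [], []⟩

def c2675 : PLift (Cov.check n2675.C.D v2675 = true) := ⟨by decide +kernel⟩

def b2675 : PLift (entF (fidx ts) 400 2675 n2675 = true) := ⟨by decide +kernel⟩

theorem g2675 : GoodF (fidx ts) 400 2675 := GoodF.ofV v2675 n2675 c2675.down b2675.down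

/-- 4646754:2173 -/
noncomputable def e2676 : SCfg where
  D := {
    a := 7
    L := 11
    kp := 8
    inn := [(0, 1), (1, 0), (1, 2), (1, 3), (2, 1), (2, 3), (3, 1), (3, 2), (3, 4), (4, 3), (4, 5), (5,
      4), (5, 6), (6, 5)]
    mix := [(0, 0), (0, 1), (0, 2), (1, 0), (1, 2), (1, 3), (2, 2), (2, 4), (3, 3), (3, 4), (3, 5), (4,
      3), (4, 5), (4, 6), (4, 7), (4, 8), (5, 3), (5, 8), (5, 9), (6, 8), (6, 9), (6, 10)]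
    cl := [1, 5, 3, 0, 2, 0, 6, 7, 0, 4, 8]
    chq := [(1, 2), (1, 3), (2, 1), (3, 1)]
    rng := [(0, 1), (0, 3), (1, 0), (1, 2), (2, 1), (2, 4), (3, 0), (3, 9), (4, 2), (4, 5), (5, 4), (5,
      6), (6, 5), (6, 7), (7, 6), (7, 8), (8, 7), (8, 10), (9, 3), (9, 10), (10, 8), (10, 9)]
    lev := [] }
  links := [[1, 7, 8, 9], [7, 0, 9, 2, 3, 10], [3, 1, 9, 11], [10, 1, 2, 11, 12, 4], [10, 3, 12, 13, 14,
    15, 5], [10, 4, 15, 6, 16], [16, 5, 15, 17]]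
  P := {
    a := 7
    N := 18
    nb := [898, 1677, 2570, 7190, 62504, 99408, 229408, 1283, 641, 2311, 65722, 4620, 10264, 20496,
      40976, 147568, 132192, 98368]
    tri := [(0, 1, 7), (0, 1, 9), (0, 7, 8), (0, 8, 9), (1, 2, 3), (1, 2, 9), (1, 3, 10), (1, 7, 10),
      (2, 3, 11), (2, 9, 11), (3, 4, 10), (3, 4, 12), (3, 11, 12), (4, 5, 10), (4, 5, 15), (4, 12,
      13), (4, 13, 14), (4, 14, 15), (5, 6, 15), (5, 6, 16), (5, 10, 16), (6, 15, 17), (6, 16,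
      17)]
    fin := [0, 0, 0, 0, 4, 4, 4, 0, 8, 9, 4, 11, 4, 13, 14, 4, 16, 17]
    chd := [(0, 9), (0, 11)]
    steps := [(0, 1), (0, 2), (0, 3), (0, 7), (4, 5), (4, 6), (4, 12), (4, 15), (4, 10)] }
  rep := [4, 0, 11, 9, 16, 8, 13, 14, 17]

noncomputable def v2676 : Cov.CovD where
  P := 3
  N := 6
  pl := [1, 6, 7, 9, 10]
  lev := [⟨[], [], [(1, 3)], [5], [(0, 1, [2, 3]), (2, 3, [1])]⟩,
    ⟨[], [(0, 0), (0, 1), (0, 3)], [(0, 1), (0, 3), (1, 3)], [], [(0, 1, [2, 3]), (2, 3,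
      [1]), (3, 0, [])]⟩,
    ⟨[(0, 1)], [(0, 3), (1, 0), (1, 1), (1, 2), (1, 3)], [(2, 3)], [], [(2, 3, [1]), (4, 2,
      [1])]⟩,
    ⟨[(0, 1), (1, 2)], [(1, 0), (1, 1), (1, 2), (1, 3), (2, 0), (2, 2), (2, 3)], [(0, 0),
      (0, 2)], [], [(3, 0, []), (4, 2, [1]), (5, 0, [])]⟩,
    ⟨[(1, 3), (2, 3)], [(1, 0), (3, 0), (3, 2)], [(0, 0)], [6, 7], [(3, 0, []), (5, 0, []),
      (8, 0, [])]⟩,
    ⟨[(3, 4)], [(1, 0), (3, 0), (4, 0)], [(0, 0)], [4], [(3, 0, []), (8, 0, [])]⟩,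
    ⟨[(4, 5)], [(4, 0), (5, 0)], [], [4, 8], [(8, 0, [])]⟩]
  Ta := [((3, 0), 0, 1), ((3, 9), 0, 4), ((5, 4), 0, 2), ((5, 6), 0, 6), ((8, 7), 0, 7), ((8,
    10), 0, 8)]
  Tb := [((0, 1, 3), 1, 5, 0), ((1, 0, 2), 5, 1, 3), ((2, 1, 4), 3, 5, 2), ((3, 0, 9), 0, 1, 4),
    ((4, 2, 5), 2, 3, 0), ((5, 4, 6), 0, 2, 6), ((6, 5, 7), 6, 0, 7), ((7, 6, 8), 7, 6, 0),
    ((8, 7, 10), 0, 7, 8), ((9, 3, 10), 4, 0, 8), ((10, 8, 9), 8, 0, 4)]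
  Tc := [(1, 2, 3)]
  Td := [((1, 2), (0, 1), 5), ((1, 2), (0, 3), 0), ((1, 3), (0, 1), 5), ((1, 3), (0, 3), 0), ((2,
    1), (4, 2), 3), ((2, 1), (4, 5), 0), ((3, 1), (2, 1), 5), ((3, 1), (2, 4), 2)]
  G := [[0, 0x11611a11ce41811611a116e81411611611ce812e, 0, 0x1a6c1a218ee48c1616aa1ce82c2,
    0x16c16ac2a1c223a1c228c176c1ac16e824c1616a16ce21c16a1c16ce21cd], [0, 0,
    0x11a11a116e48111611c11ae82411c11a116e4211c11a11ce24cd, 0x11a11a116e4811611611ce8292,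
    0x11a11ac211c22311c282c11611a11ce82411c11a11ce2811611a116e82cd], [0, 0, 0,
    0xca6c6aa6ce48ca6c6aa6ce4292,
    0xca6c6ac2a6c223a6c228cca6c6aa6ce824ca6c6aa6ce28ca6c6aa6ce21cd]]

noncomputable def n2676 : Ent := ⟨e2676, noF, [], [], [(7, 16, [7334685537875745012586738086077695515070955365108989538292687704625153, 0]), (8, 17, [6903326391201334775872065844685381424292761054348340378595029940641793, 0]), (9, 17, [6903326391201334775872065844685381424292761054348340378595029940645889, 0])]⟩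

def c2676 : PLift (Cov.check n2676.C.D v2676 = true) := ⟨by decide +kernel⟩

def b2676 : PLift (entF (fidx ts) 400 2676 n2676 = true) := ⟨by decide +kernel⟩

theorem g2676 : GoodF (fidx ts) 400 2676 := GoodF.ofV v2676 n2676 c2676.down b2676.down

/-- 4646754:2174/2 -/
noncomputable def e2677 : SCfg where
  D := {
    a := 7
    L := 9
    kp := 6
    inn := [(0, 1), (1, 0), (1, 2), (1, 3), (2, 1), (2, 3), (3, 1), (3, 2), (3, 4), (4, 3), (4, 5), (5,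
      4), (5, 6), (6, 5)]
    mix := [(0, 0), (0, 1), (0, 2), (1, 0), (1, 2), (1, 3), (2, 2), (2, 4), (3, 3), (3, 4), (3, 5), (4,
      3), (4, 5), (4, 6), (4, 7), (4, 8), (5, 1), (5, 3), (5, 8), (6, 0), (6, 1), (6, 3)]
    cl := [1, 2, 3, 0, 4, 0, 5, 6, 0]
    chq := [(1, 3), (1, 4), (3, 1), (4, 1)]
    rng := [(0, 1), (0, 3), (1, 0), (1, 2), (1, 8), (2, 1), (2, 4), (3, 0), (4, 2), (4, 5), (5, 4), (5,
      6), (6, 5), (6, 7), (7, 6), (7, 8), (8, 1), (8, 7)]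
    lev := [] }
  links := [[1, 7, 8, 9], [7, 0, 9, 2, 3, 10], [3, 1, 9, 11], [10, 1, 2, 11, 12, 4], [10, 3, 12, 13, 14,
    15, 5], [10, 4, 15, 8, 6], [10, 5, 8, 7]]
  P := {
    a := 7
    N := 16
    nb := [898, 1677, 2570, 7190, 62504, 34128, 1440, 1347, 33505, 2311, 250, 4620, 10264, 20496,
      40976, 16688]
    tri := [(0, 1, 7), (0, 1, 9), (0, 7, 8), (0, 8, 9), (1, 2, 3), (1, 2, 9), (1, 3, 10), (1, 7, 10),
      (2, 3, 11), (2, 9, 11), (3, 4, 10), (3, 4, 12), (3, 11, 12), (4, 5, 10), (4, 5, 15), (4, 12,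
      13), (4, 13, 14), (4, 14, 15), (5, 6, 8), (5, 6, 10), (5, 8, 15), (6, 7, 8), (6, 7, 10)]
    fin := [0, 0, 0, 0, 4, 0, 0, 0, 8, 9, 4, 11, 4, 13, 14, 4]
    chd := [(0, 9), (0, 11)]
    steps := [(0, 1), (0, 2), (0, 3), (0, 7), (0, 6), (4, 12), (4, 15), (4, 10), (0, 5)] }
  rep := [4, 0, 8, 9, 11, 13, 14]

noncomputable def v2677 : Cov.CovD where
  P := 3
  N := 4
  pl := [1, 6, 7]
  lev := [⟨[], [], [(1, 3)], [2], [(0, 1, [3, 4]), (2, 3, [1])]⟩,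
    ⟨[], [(0, 0), (0, 1), (0, 3)], [(0, 1), (0, 3), (1, 3)], [], [(0, 1, [3, 4]), (2, 3,
      [1]), (3, 0, [])]⟩,
    ⟨[(0, 1)], [(0, 3), (1, 0), (1, 1), (1, 3), (1, 4)], [(3, 4)], [], [(2, 3, [1]), (4, 4,
      [1])]⟩,
    ⟨[(0, 1), (1, 2)], [(1, 0), (1, 1), (1, 3), (1, 4), (2, 0), (2, 3), (2, 4)], [(0, 0),
      (0, 4)], [], [(3, 0, []), (4, 4, [1]), (5, 0, [])]⟩,
    ⟨[(1, 3), (2, 3)], [(1, 0), (3, 0), (3, 4)], [(0, 0)], [5, 6], [(3, 0, []), (5, 0, []),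
      (8, 0, [])]⟩,
    ⟨[(3, 4)], [(1, 0), (3, 0), (4, 0)], [(0, 0)], [2], [(3, 0, []), (8, 0, [])]⟩,
    ⟨[(4, 5)], [(0, 1), (1, 0), (1, 1), (3, 0), (4, 0), (5, 0), (5, 1)], [(0, 1)], [2],
      [(0, 1, [3, 4]), (3, 0, [])]⟩]
  Ta := [((3, 0), 0, 1), ((5, 4), 0, 4), ((5, 6), 0, 5), ((8, 1), 0, 2), ((8, 7), 0, 6)]
  Tb := [((0, 1, 3), 1, 2, 0), ((1, 0, 2), 2, 1, 3), ((1, 0, 8), 2, 1, 0), ((1, 2, 8), 2, 3, 0),
    ((2, 1, 4), 3, 2, 4), ((4, 2, 5), 4, 3, 0), ((5, 4, 6), 0, 4, 5), ((6, 5, 7), 5, 0, 6),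
    ((7, 6, 8), 6, 5, 0), ((8, 1, 7), 0, 2, 6)]
  Tc := [(1, 3, 4)]
  Td := [((1, 3), (0, 1), 2), ((1, 3), (0, 3), 0), ((1, 4), (0, 1), 2), ((1, 4), (0, 3), 0), ((3,
    1), (2, 1), 2), ((3, 1), (2, 4), 4), ((4, 1), (4, 2), 3), ((4, 1), (4, 5), 0)]
  G := [[0, 0x848848e488444e618448444e448848ea14c, 0, 0x4824888c68422384822488444e294c,
    0x828288e42828282e82c822828288e6149], [0, 0, 0, 0x4424418c68822381824418ca142234c,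
    0x828818e8218c6288282c828212e8828888e2549], [0, 0, 0x422828484e618442828248ea14c,
    0x8424148444e2581424884ca842234c, 0x181218e1818c6288228c182188818e6149]]

noncomputable def n2677 : Ent := ⟨e2677, noF, [], [], []⟩

def c2677 : PLift (Cov.check n2677.C.D v2677 = true) := ⟨by decide +kernel⟩

def b2677 : PLift (entF (fidx ts) 400 2677 n2677 = true) := ⟨by decide +kernel⟩

theorem g2677 : GoodF (fidx ts) 400 2677 := GoodF.ofV v2677 n2677 c2677.down b2677.down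

/-- 4646754:2174/1 -/
noncomputable def e2678 : SCfg where
  D := {
    a := 7
    L := 10
    kp := 7
    inn := [(0, 1), (1, 0), (1, 2), (1, 3), (2, 1), (2, 3), (3, 1), (3, 2), (3, 4), (4, 3), (4, 5), (5,
      4), (5, 6), (6, 5)]
    mix := [(0, 0), (0, 1), (0, 2), (1, 0), (1, 2), (1, 3), (2, 2), (2, 4), (3, 3), (3, 4), (3, 5), (4,
      3), (4, 5), (4, 6), (4, 7), (4, 8), (5, 3), (5, 8), (5, 9), (6, 0), (6, 3), (6, 9)]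
    cl := [1, 5, 3, 0, 2, 0, 6, 7, 0, 4]
    chq := [(1, 2), (1, 3), (2, 1), (3, 1)]
    rng := [(0, 1), (0, 3), (0, 9), (1, 0), (1, 2), (2, 1), (2, 4), (3, 0), (4, 2), (4, 5), (5, 4), (5,
      6), (6, 5), (6, 7), (7, 6), (7, 8), (8, 7), (8, 9), (9, 0), (9, 8)]
    lev := [] }
  links := [[1, 7, 8, 9], [7, 0, 9, 2, 3, 10], [3, 1, 9, 11], [10, 1, 2, 11, 12, 4], [10, 3, 12, 13, 14,
    15, 5], [10, 4, 15, 16, 6], [10, 5, 16, 7]]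
  P := {
    a := 7
    N := 17
    nb := [898, 1677, 2570, 7190, 62504, 99408, 66720, 66883, 641, 2311, 250, 4620, 10264, 20496,
      40976, 81968, 32992]
    tri := [(0, 1, 7), (0, 1, 9), (0, 7, 8), (0, 8, 9), (1, 2, 3), (1, 2, 9), (1, 3, 10), (1, 7, 10),
      (2, 3, 11), (2, 9, 11), (3, 4, 10), (3, 4, 12), (3, 11, 12), (4, 5, 10), (4, 5, 15), (4, 12,
      13), (4, 13, 14), (4, 14, 15), (5, 6, 10), (5, 6, 16), (5, 15, 16), (6, 7, 10), (6, 7, 16)]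
    fin := [0, 0, 0, 0, 4, 0, 0, 0, 8, 9, 4, 11, 4, 13, 14, 4, 16]
    chd := [(0, 9), (0, 11)]
    steps := [(0, 1), (0, 2), (0, 3), (0, 7), (0, 6), (4, 12), (4, 15), (4, 10), (0, 5)] }
  rep := [4, 0, 11, 9, 16, 8, 13, 14]

noncomputable def v2678 : Cov.CovD where
  P := 3
  N := 5
  pl := [1, 6, 7, 9]
  lev := [⟨[], [], [(1, 3)], [5], [(0, 1, [2, 3]), (2, 3, [1])]⟩,
    ⟨[], [(0, 0), (0, 1), (0, 3)], [(0, 1), (0, 3), (1, 3)], [], [(0, 1, [2, 3]), (2, 3,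
      [1]), (3, 0, [])]⟩,
    ⟨[(0, 1)], [(0, 3), (1, 0), (1, 1), (1, 2), (1, 3)], [(2, 3)], [], [(2, 3, [1]), (4, 2,
      [1])]⟩,
    ⟨[(0, 1), (1, 2)], [(1, 0), (1, 1), (1, 2), (1, 3), (2, 0), (2, 2), (2, 3)], [(0, 0),
      (0, 2)], [], [(3, 0, []), (4, 2, [1]), (5, 0, [])]⟩,
    ⟨[(1, 3), (2, 3)], [(1, 0), (3, 0), (3, 2)], [(0, 0)], [6, 7], [(3, 0, []), (5, 0, []),
      (8, 0, [])]⟩,
    ⟨[(3, 4)], [(1, 0), (3, 0), (4, 0)], [(0, 0)], [4], [(3, 0, []), (8, 0, [])]⟩,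
    ⟨[(4, 5)], [(0, 1), (1, 0), (1, 1), (3, 0), (4, 0), (5, 0), (5, 1)], [(0, 1)], [4],
      [(0, 1, [2, 3]), (3, 0, [])]⟩]
  Ta := [((3, 0), 0, 1), ((5, 4), 0, 2), ((5, 6), 0, 6), ((8, 7), 0, 7), ((8, 9), 0, 4)]
  Tb := [((0, 1, 3), 1, 5, 0), ((0, 1, 9), 1, 5, 4), ((0, 3, 9), 1, 0, 4), ((1, 0, 2), 5, 1, 3),
    ((2, 1, 4), 3, 5, 2), ((4, 2, 5), 2, 3, 0), ((5, 4, 6), 0, 2, 6), ((6, 5, 7), 6, 0, 7),
    ((7, 6, 8), 7, 6, 0), ((8, 7, 9), 0, 7, 4), ((9, 0, 8), 4, 1, 0)]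
  Tc := [(1, 2, 3)]
  Td := [((1, 2), (0, 1), 5), ((1, 2), (0, 3), 0), ((1, 2), (0, 9), 4), ((1, 3), (0, 1), 5), ((1,
    3), (0, 3), 0), ((1, 3), (0, 9), 4), ((2, 1), (4, 2), 3), ((2, 1), (4, 5), 0), ((3, 1),
    (2, 1), 5), ((3, 1), (2, 4), 2)]
  G := [[0, 0x42682a84ce41842642a82ce81442682c84ae812e, 0, 0xc2c284ce42c22c2c2ca4c2,
    0x48684ac284c22384c282c48684a84ce82448684a84ce284864ca84ce21cd], [0, 0,
    0x48684a84ce28141611641ae82441641a84ae4284a211a11aca2cd, 0x121212e42121212e82c2,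
    0x41a81cc284c22384c282c11614a416e82411611a81ce2818611681ce81cd], [0, 0, 0,
    0x9284a92e48c24166928a4c2,
    0x14c81ac284c22384c282c41681c81ae82415681614ce2848681c416e82cd]]

noncomputable def n2678 : Ent := ⟨e2678, noF, [], [], [(8, 16, [1580044410770988437309982408355971841652082177953823432505700077569, 0])]⟩

def c2678 : PLift (Cov.check n2678.C.D v2678 = true) := ⟨by decide +kernel⟩

def b2678 : PLift (entF (fidx ts) 400 2678 n2678 = true) := ⟨by decide +kernel⟩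

theorem g2678 : GoodF (fidx ts) 400 2678 := GoodF.ofV v2678 n2678 c2678.down b2678.down

/-- 4646754:2174/3 -/
noncomputable def e2679 : SCfg where
  D := {
    a := 7
    L := 10
    kp := 7
    inn := [(0, 1), (1, 0), (1, 2), (1, 3), (2, 1), (2, 3), (3, 1), (3, 2), (3, 4), (4, 3), (4, 5), (5,
      4), (5, 6), (6, 5)]
    mix := [(0, 0), (0, 1), (0, 2), (1, 0), (1, 2), (1, 3), (2, 2), (2, 4), (3, 3), (3, 4), (3, 5), (4,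
      3), (4, 5), (4, 6), (4, 7), (4, 8), (5, 1), (5, 3), (5, 8), (6, 1), (6, 3), (6, 9)]
    cl := [2, 1, 3, 0, 4, 0, 5, 6, 0, 7]
    chq := [(2, 3), (2, 4), (3, 2), (4, 2)]
    rng := [(0, 1), (0, 3), (1, 0), (1, 2), (1, 8), (1, 9), (2, 1), (2, 4), (3, 0), (3, 9), (4, 2), (4,
      5), (5, 4), (5, 6), (6, 5), (6, 7), (7, 6), (7, 8), (8, 1), (8, 7), (9, 1), (9, 3)]
    lev := [] }
  links := [[1, 7, 8, 9], [7, 0, 9, 2, 3, 10], [3, 1, 9, 11], [10, 1, 2, 11, 12, 4], [10, 3, 12, 13, 14,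
    15, 5], [10, 4, 15, 8, 6], [10, 5, 8, 16]]
  P := {
    a := 7
    N := 17
    nb := [898, 1677, 2570, 7190, 62504, 34128, 66848, 1283, 99041, 2311, 65786, 4620, 10264, 20496,
      40976, 16688, 1344]
    tri := [(0, 1, 7), (0, 1, 9), (0, 7, 8), (0, 8, 9), (1, 2, 3), (1, 2, 9), (1, 3, 10), (1, 7, 10),
      (2, 3, 11), (2, 9, 11), (3, 4, 10), (3, 4, 12), (3, 11, 12), (4, 5, 10), (4, 5, 15), (4, 12,
      13), (4, 13, 14), (4, 14, 15), (5, 6, 8), (5, 6, 10), (5, 8, 15), (6, 8, 16), (6, 10, 16)]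
    fin := [0, 0, 0, 0, 4, 5, 5, 0, 5, 9, 4, 11, 4, 13, 14, 4, 16]
    chd := [(0, 9), (0, 11)]
    steps := [(0, 1), (0, 2), (0, 3), (0, 7), (4, 12), (4, 15), (4, 10), (5, 6), (5, 8)] }
  rep := [4, 5, 0, 9, 11, 13, 14, 16]

noncomputable def v2679 : Cov.CovD where
  P := 3
  N := 5
  pl := [1, 6, 7, 9]
  lev := [⟨[], [], [(2, 3)], [1], [(0, 2, [3, 4]), (2, 3, [2])]⟩,
    ⟨[], [(0, 0), (0, 2), (0, 3)], [(0, 2), (0, 3), (2, 3)], [], [(0, 2, [3, 4]), (2, 3,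
      [2]), (3, 0, [])]⟩,
    ⟨[(0, 1)], [(0, 3), (1, 0), (1, 2), (1, 3), (1, 4)], [(3, 4)], [], [(2, 3, [2]), (4, 4,
      [2])]⟩,
    ⟨[(0, 1), (1, 2)], [(1, 0), (1, 2), (1, 3), (1, 4), (2, 0), (2, 3), (2, 4)], [(0, 0),
      (0, 4)], [], [(3, 0, []), (4, 4, [2]), (5, 0, [])]⟩,
    ⟨[(1, 3), (2, 3)], [(1, 0), (3, 0), (3, 4)], [(0, 0)], [5, 6], [(3, 0, []), (5, 0, []),
      (8, 0, [])]⟩,
    ⟨[(3, 4)], [(1, 0), (3, 0), (4, 0)], [(0, 0)], [1], [(3, 0, []), (8, 0, [])]⟩,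
    ⟨[(4, 5)], [(1, 0), (3, 0), (4, 0), (5, 0)], [], [1, 7], [(3, 0, [])]⟩]
  Ta := [((3, 0), 0, 2), ((3, 9), 0, 7), ((5, 4), 0, 4), ((5, 6), 0, 5), ((8, 1), 0, 1), ((8, 7),
    0, 6)]
  Tb := [((0, 1, 3), 2, 1, 0), ((1, 0, 2), 1, 2, 3), ((1, 0, 8), 1, 2, 0), ((1, 0, 9), 1, 2, 7),
    ((1, 2, 8), 1, 3, 0), ((1, 2, 9), 1, 3, 7), ((1, 8, 9), 1, 0, 7), ((2, 1, 4), 3, 1, 4),
    ((3, 0, 9), 0, 2, 7), ((4, 2, 5), 4, 3, 0), ((5, 4, 6), 0, 4, 5), ((6, 5, 7), 5, 0, 6),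
    ((7, 6, 8), 6, 5, 0), ((8, 1, 7), 0, 1, 6), ((9, 1, 3), 7, 1, 0)]
  Tc := [(2, 3, 4)]
  Td := [((2, 3), (0, 1), 1), ((2, 3), (0, 3), 0), ((2, 4), (0, 1), 1), ((2, 4), (0, 3), 0), ((3,
    2), (2, 1), 1), ((3, 2), (2, 4), 4), ((4, 2), (4, 2), 3), ((4, 2), (4, 5), 0)]
  G := [[0, 0, 0xc4c8c4ec4c8c8e618c448cc8ec4c8c8ea14c, 0xc42c448cc6c82238c82c4c8cac42234c,
    0xc4c8c8e24c4c8c4e48a48c4c4c8c4ec129], [0, 0, 0, 0x1821814c61422381821414ca142234c,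
    0x141414e24141814e84a141414e8141814e4529], [0, 0xc82c4a4c4e618c22a2a4a4ea14c, 0,
    0x1821814c6142238142184a1814a234c, 0x181418e24141414e84a184141818ec129]]

noncomputable def n2679 : Ent := ⟨e2679, noF, [], [], [(7, 16, [1580044410770988437309982408355971841652082177953823432505700077569, 0])]⟩

def c2679 : PLift (Cov.check n2679.C.D v2679 = true) := ⟨by decide +kernel⟩

def b2679 : PLift (entF (fidx ts) 400 2679 n2679 = true) := ⟨by decide +kernel⟩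

theorem g2679 : GoodF (fidx ts) 400 2679 := GoodF.ofV v2679 n2679 c2679.down b2679.down

/-- 4646754:2174 -/
noncomputable def e2680 : SCfg where
  D := {
    a := 7
    L := 11
    kp := 8
    inn := [(0, 1), (1, 0), (1, 2), (1, 3), (2, 1), (2, 3), (3, 1), (3, 2), (3, 4), (4, 3), (4, 5), (5,
      4), (5, 6), (6, 5)]
    mix := [(0, 0), (0, 1), (0, 2), (1, 0), (1, 2), (1, 3), (2, 2), (2, 4), (3, 3), (3, 4), (3, 5), (4,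
      3), (4, 5), (4, 6), (4, 7), (4, 8), (5, 3), (5, 8), (5, 9), (6, 3), (6, 9), (6, 10)]
    cl := [1, 5, 3, 0, 2, 0, 6, 7, 0, 4, 8]
    chq := [(1, 2), (1, 3), (2, 1), (3, 1)]
    rng := [(0, 1), (0, 3), (1, 0), (1, 2), (2, 1), (2, 4), (3, 0), (3, 10), (4, 2), (4, 5), (5, 4),
      (5, 6), (6, 5), (6, 7), (7, 6), (7, 8), (8, 7), (8, 9), (9, 8), (9, 10), (10, 3), (10, 9)]
    lev := [] }
  links := [[1, 7, 8, 9], [7, 0, 9, 2, 3, 10], [3, 1, 9, 11], [10, 1, 2, 11, 12, 4], [10, 3, 12, 13, 14,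
    15, 5], [10, 4, 15, 16, 6], [10, 5, 16, 17]]
  P := {
    a := 7
    N := 18
    nb := [898, 1677, 2570, 7190, 62504, 99408, 197664, 1283, 641, 2311, 131322, 4620, 10264, 20496,
      40976, 81968, 163936, 66624]
    tri := [(0, 1, 7), (0, 1, 9), (0, 7, 8), (0, 8, 9), (1, 2, 3), (1, 2, 9), (1, 3, 10), (1, 7, 10),
      (2, 3, 11), (2, 9, 11), (3, 4, 10), (3, 4, 12), (3, 11, 12), (4, 5, 10), (4, 5, 15), (4, 12,
      13), (4, 13, 14), (4, 14, 15), (5, 6, 10), (5, 6, 16), (5, 15, 16), (6, 10, 17), (6, 16,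
      17)]
    fin := [0, 0, 0, 0, 4, 4, 4, 0, 8, 9, 4, 11, 4, 13, 14, 4, 16, 17]
    chd := [(0, 9), (0, 11)]
    steps := [(0, 1), (0, 2), (0, 3), (0, 7), (4, 5), (4, 6), (4, 12), (4, 15), (4, 10)] }
  rep := [4, 0, 11, 9, 16, 8, 13, 14, 17]

noncomputable def v2680 : Cov.CovD where
  P := 3
  N := 6
  pl := [1, 6, 7, 9, 10]
  lev := [⟨[], [], [(1, 3)], [5], [(0, 1, [2, 3]), (2, 3, [1])]⟩,
    ⟨[], [(0, 0), (0, 1), (0, 3)], [(0, 1), (0, 3), (1, 3)], [], [(0, 1, [2, 3]), (2, 3,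
      [1]), (3, 0, [])]⟩,
    ⟨[(0, 1)], [(0, 3), (1, 0), (1, 1), (1, 2), (1, 3)], [(2, 3)], [], [(2, 3, [1]), (4, 2,
      [1])]⟩,
    ⟨[(0, 1), (1, 2)], [(1, 0), (1, 1), (1, 2), (1, 3), (2, 0), (2, 2), (2, 3)], [(0, 0),
      (0, 2)], [], [(3, 0, []), (4, 2, [1]), (5, 0, [])]⟩,
    ⟨[(1, 3), (2, 3)], [(1, 0), (3, 0), (3, 2)], [(0, 0)], [6, 7], [(3, 0, []), (5, 0, []),
      (8, 0, [])]⟩,
    ⟨[(3, 4)], [(1, 0), (3, 0), (4, 0)], [(0, 0)], [4], [(3, 0, []), (8, 0, [])]⟩,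
    ⟨[(4, 5)], [(1, 0), (3, 0), (4, 0), (5, 0)], [], [4, 8], [(3, 0, [])]⟩]
  Ta := [((3, 0), 0, 1), ((3, 10), 0, 8), ((5, 4), 0, 2), ((5, 6), 0, 6), ((8, 7), 0, 7), ((8,
    9), 0, 4)]
  Tb := [((0, 1, 3), 1, 5, 0), ((1, 0, 2), 5, 1, 3), ((2, 1, 4), 3, 5, 2), ((3, 0, 10), 0, 1, 8),
    ((4, 2, 5), 2, 3, 0), ((5, 4, 6), 0, 2, 6), ((6, 5, 7), 6, 0, 7), ((7, 6, 8), 7, 6, 0),
    ((8, 7, 9), 0, 7, 4), ((9, 8, 10), 4, 0, 8), ((10, 3, 9), 8, 0, 4)]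
  Tc := [(1, 2, 3)]
  Td := [((1, 2), (0, 1), 5), ((1, 2), (0, 3), 0), ((1, 3), (0, 1), 5), ((1, 3), (0, 3), 0), ((2,
    1), (4, 2), 3), ((2, 1), (4, 5), 0), ((3, 1), (2, 1), 5), ((3, 1), (2, 4), 2)]
  G := [[0, 0xca6c6aa6ce418ca6c6aa6ce814ca6c6aa6ce812e, 0, 0xca6c6aa6ce42ca6c6aa6ce84c2,
    0xca6c6ac2a6c223a6c282cca6c6aa6ce824ca6c6aa6ce21ca6c6aa6ce81cd], [0, 0,
    0x11611a11ae42811611a11ae82411611a11ae4811611a11ce82cd, 0x11c11a11ce4211611a11ae82c2,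
    0x11c116c211c22311c228c11611c11ae82411611611ce2811611a11ae82cd], [0, 0, 0,
    0x1a6c1ac16e84ca6c6aa6ce4252,
    0x16a356c216c22395a282c1a6c6a35ce82416aa1c16ce21c1693616ce81cd]]

noncomputable def n2680 : Ent := ⟨e2680, noF, [], [], [(7, 17, [6903326391201334775872065844685381424292761054348340378595029940658177, 0]), (8, 16, [7334685537875745012586738086077695515070955365108989538292687704649729, 0])]⟩

def c2680 : PLift (Cov.check n2680.C.D v2680 = true) := ⟨by decide +kernel⟩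

def b2680 : PLift (entF (fidx ts) 400 2680 n2680 = true) := ⟨by decide +kernel⟩

theorem g2680 : GoodF (fidx ts) 400 2680 := GoodF.ofV v2680 n2680 c2680.down b2680.down

/-- 4648744:2176/1 -/
noncomputable def e2681 : SCfg where
  D := {
    a := 7
    L := 9
    kp := 7
    inn := [(0, 1), (0, 4), (1, 0), (1, 2), (1, 3), (1, 4), (2, 1), (3, 1), (3, 4), (3, 5), (3, 6), (4,
      0), (4, 1), (4, 3), (4, 6), (5, 3), (6, 3), (6, 4)]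
    mix := [(0, 0), (0, 1), (1, 1), (1, 2), (2, 1), (2, 2), (2, 3), (3, 2), (3, 4), (3, 5), (3, 6), (4,
      0), (4, 7), (4, 8), (5, 2), (5, 3), (5, 4), (6, 6), (6, 7)]
    cl := [3, 1, 0, 2, 5, 0, 6, 4, 7]
    chq := [(0, 1), (0, 3), (0, 4), (0, 7), (1, 0), (3, 0), (4, 0), (7, 0)]
    rng := [(0, 1), (0, 8), (1, 0), (1, 3), (2, 3), (3, 1), (3, 2), (3, 4), (4, 3), (4, 5), (5, 4), (5,
      6), (6, 5), (6, 7), (7, 6), (7, 8), (8, 0), (8, 7)]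
    lev := [] }
  links := [[1, 4, 7, 8], [4, 0, 8, 2, 9, 3], [9, 1, 8, 10], [4, 1, 9, 5, 11, 12, 13, 6], [7, 0, 1, 3, 6,
    14, 15], [11, 3, 9, 10], [14, 4, 3, 13]]
  P := {
    a := 7
    N := 16
    nb := [402, 797, 1794, 14962, 49355, 3592, 24600, 33041, 1159, 1070, 2852, 5160, 10248, 20552,
      41040, 16528]
    tri := [(0, 1, 4), (0, 1, 8), (0, 4, 7), (0, 7, 8), (1, 2, 8), (1, 2, 9), (1, 3, 4), (1, 3, 9), (2,
      8, 10), (2, 9, 10), (3, 4, 6), (3, 5, 9), (3, 5, 11), (3, 6, 13), (3, 11, 12), (3, 12, 13),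
      (4, 6, 14), (4, 7, 15), (4, 14, 15), (5, 9, 10), (5, 10, 11), (6, 13, 14)]
    fin := [0, 0, 2, 3, 3, 5, 3, 0, 2, 3, 5, 11, 3, 13, 14, 15]
    chd := [(0, 3), (2, 3), (3, 14), (3, 15)]
    steps := [(0, 1), (0, 7), (2, 8), (3, 4), (3, 6), (3, 9), (3, 12), (5, 10)] }
  rep := [3, 2, 5, 0, 14, 11, 13, 15]

noncomputable def v2681 : Cov.CovD where
  P := 3
  N := 5
  pl := [3, 4, 6]
  lev := [⟨[], [], [(1, 3)], [], [(0, 3, [0]), (1, 1, [0])]⟩,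
    ⟨[], [(0, 0), (0, 1), (0, 3)], [(0, 1)], [], [(1, 1, [0]), (2, 0, [1, 3, 4, 7])]⟩,
    ⟨[(0, 1)], [(0, 1), (1, 0), (1, 1)], [(0, 1)], [2], [(1, 1, [0]), (2, 0, [1, 3, 4,
      7])]⟩,
    ⟨[(0, 1), (1, 2)], [(1, 0), (1, 1), (2, 0)], [(0, 0)], [5, 6], [(2, 0, [1, 3, 4, 7]),
      (5, 0, [1, 3, 4, 7])]⟩,
    ⟨[(0, 1), (0, 3), (1, 2), (1, 3)], [(0, 1), (0, 3), (0, 4), (0, 7), (1, 0), (1, 1), (1,
      3), (1, 4), (1, 7), (3, 0), (3, 3), (3, 4), (3, 7)], [(3, 4), (3, 7), (4, 7)], [], [(0,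
      3, [0]), (7, 4, [0]), (8, 7, [0])]⟩,
    ⟨[(1, 3), (3, 4)], [(1, 0), (2, 0), (3, 0)], [], [2, 5], [(2, 0, [1, 3, 4, 7])]⟩,
    ⟨[(0, 4), (1, 3), (1, 4), (3, 4), (3, 5)], [(3, 0), (3, 4), (4, 3), (4, 4), (4, 7)],
      [], [6], [(7, 4, [0])]⟩]
  Ta := [((2, 3), 0, 2), ((5, 4), 0, 5), ((5, 6), 0, 6)]
  Tb := [((0, 1, 8), 3, 1, 7), ((1, 0, 3), 1, 3, 2), ((3, 1, 2), 2, 1, 0), ((3, 1, 4), 2, 1, 5),
    ((3, 2, 4), 2, 0, 5), ((4, 3, 5), 5, 2, 0), ((5, 4, 6), 0, 5, 6), ((6, 5, 7), 6, 0, 4),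
    ((7, 6, 8), 4, 6, 7), ((8, 0, 7), 7, 3, 4)]
  Tc := [(0, 1, 3), (0, 1, 4), (0, 1, 7), (0, 3, 4), (0, 3, 7), (0, 4, 7)]
  Td := [((0, 1), (2, 3), 2), ((0, 1), (5, 4), 5), ((0, 1), (5, 6), 6), ((0, 3), (2, 3), 2), ((0,
    3), (5, 4), 5), ((0, 3), (5, 6), 6), ((0, 4), (2, 3), 2), ((0, 4), (5, 4), 5), ((0, 4),
    (5, 6), 6), ((0, 7), (2, 3), 2), ((0, 7), (5, 4), 5), ((0, 7), (5, 6), 6), ((1, 0), (1,
    0), 3), ((1, 0), (1, 3), 2), ((3, 0), (0, 1), 1), ((3, 0), (0, 8), 7), ((4, 0), (7, 6),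
    6), ((4, 0), (7, 8), 7), ((7, 0), (8, 0), 3), ((7, 0), (8, 7), 4)]
  G := [[0, 0x111111111e42181111111e84a, 0x1411216418184c1161141121e48c,
    0x14516ac16418188c94111c33c56858188c142481118a84cd,
    0x181893181119ab121239e846ca112123568789188cc], [0, 0x111141111e82111111111e486, 0,
    0xc116a9164589188c1494341c119651a8cc, 0x5a911112319be11e84e11481e91d231a8cc]]

noncomputable def n2681 : Ent := ⟨e2681, noF, [], [], []⟩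

def c2681 : PLift (Cov.check n2681.C.D v2681 = true) := ⟨by decide +kernel⟩

def b2681 : PLift (entF (fidx ts) 400 2681 n2681 = true) := ⟨by decide +kernel⟩

theorem g2681 : GoodF (fidx ts) 400 2681 := GoodF.ofV v2681 n2681 c2681.down b2681.down

/-- 4648744:2176 -/
noncomputable def e2682 : SCfg where
  D := {
    a := 7
    L := 10
    kp := 8
    inn := [(0, 1), (0, 4), (1, 0), (1, 2), (1, 3), (1, 4), (2, 1), (3, 1), (3, 4), (3, 5), (3, 6), (4,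
      0), (4, 1), (4, 3), (4, 6), (5, 3), (6, 3), (6, 4)]
    mix := [(0, 0), (0, 1), (1, 1), (1, 2), (2, 1), (2, 2), (2, 3), (3, 2), (3, 4), (3, 5), (3, 6), (4,
      0), (4, 7), (4, 8), (5, 2), (5, 4), (5, 9), (6, 6), (6, 7)]
    cl := [3, 1, 0, 6, 2, 7, 0, 4, 5, 8]
    chq := [(0, 1), (0, 2), (0, 3), (0, 5), (1, 0), (2, 0), (3, 0), (5, 0)]
    rng := [(0, 1), (0, 8), (1, 0), (1, 3), (2, 3), (2, 9), (3, 1), (3, 2), (4, 5), (4, 9), (5, 4), (5,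
      6), (6, 5), (6, 7), (7, 6), (7, 8), (8, 0), (8, 7), (9, 2), (9, 4)]
    lev := [] }
  links := [[1, 4, 7, 8], [4, 0, 8, 2, 9, 3], [9, 1, 8, 10], [4, 1, 9, 5, 11, 12, 13, 6], [7, 0, 1, 3, 6,
    14, 15], [11, 3, 9, 16], [14, 4, 3, 13]]
  P := {
    a := 7
    N := 17
    nb := [402, 797, 1794, 14962, 49355, 68104, 24600, 33041, 1159, 66606, 772, 69672, 10248, 20552,
      41040, 16528, 2592]
    tri := [(0, 1, 4), (0, 1, 8), (0, 4, 7), (0, 7, 8), (1, 2, 8), (1, 2, 9), (1, 3, 4), (1, 3, 9), (2,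
      8, 10), (2, 9, 10), (3, 4, 6), (3, 5, 9), (3, 5, 11), (3, 6, 13), (3, 11, 12), (3, 12, 13),
      (4, 6, 14), (4, 7, 15), (4, 14, 15), (5, 9, 16), (5, 11, 16), (6, 13, 14)]
    fin := [0, 0, 2, 3, 3, 3, 3, 0, 2, 3, 10, 11, 12, 3, 14, 15, 16]
    chd := [(0, 3), (2, 3), (3, 11), (3, 15)]
    steps := [(0, 1), (0, 7), (2, 8), (3, 4), (3, 5), (3, 6), (3, 9), (3, 13)] }
  rep := [3, 2, 11, 0, 14, 15, 10, 12, 16]

noncomputable def v2682 : Cov.CovD where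
  P := 3
  N := 6
  pl := [3, 5, 7, 9]
  lev := [⟨[], [], [(1, 3)], [], [(0, 3, [0]), (1, 1, [0])]⟩,
    ⟨[], [(0, 0), (0, 1), (0, 3)], [(0, 1)], [], [(1, 1, [0]), (2, 0, [1, 2, 3, 5])]⟩,
    ⟨[(0, 1)], [(0, 1), (1, 0), (1, 1)], [(0, 1)], [6], [(1, 1, [0]), (2, 0, [1, 2, 3,
      5])]⟩,
    ⟨[(0, 1), (1, 2)], [(1, 0), (1, 1), (1, 2), (2, 0)], [(0, 0), (0, 2)], [7], [(2, 0, [1,
      2, 3, 5]), (4, 2, [0]), (6, 0, [1, 2, 3, 5])]⟩,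
    ⟨[(0, 1), (0, 3), (1, 2), (1, 3)], [(0, 1), (0, 3), (0, 5), (1, 0), (1, 1), (1, 3), (1,
      5), (3, 0), (3, 2), (3, 3), (3, 5)], [(3, 5)], [4], [(0, 3, [0]), (8, 5, [0])]⟩,
    ⟨[(1, 3), (3, 4)], [(1, 0), (2, 0), (3, 0), (3, 2)], [(0, 2)], [8], [(2, 0, [1, 2, 3,
      5]), (4, 2, [0])]⟩,
    ⟨[(0, 4), (1, 3), (1, 4), (3, 4), (3, 5)], [(3, 0), (3, 2), (4, 0), (4, 3), (4, 5)],
      [], [4], [(6, 0, [1, 2, 3, 5])]⟩]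
  Ta := [((2, 3), 0, 6), ((2, 9), 0, 8), ((6, 5), 0, 7), ((6, 7), 0, 4)]
  Tb := [((0, 1, 8), 3, 1, 5), ((1, 0, 3), 1, 3, 6), ((2, 3, 9), 0, 6, 8), ((3, 1, 2), 6, 1, 0),
    ((4, 5, 9), 2, 7, 8), ((5, 4, 6), 7, 2, 0), ((6, 5, 7), 0, 7, 4), ((7, 6, 8), 4, 0, 5),
    ((8, 0, 7), 5, 3, 4), ((9, 2, 4), 8, 0, 2)]
  Tc := [(0, 1, 2), (0, 1, 3), (0, 1, 5), (0, 2, 3), (0, 2, 5), (0, 3, 5)]
  Td := [((0, 1), (2, 3), 6), ((0, 1), (2, 9), 8), ((0, 1), (6, 5), 7), ((0, 1), (6, 7), 4), ((0,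
    2), (2, 3), 6), ((0, 2), (2, 9), 8), ((0, 2), (6, 5), 7), ((0, 2), (6, 7), 4), ((0, 3),
    (2, 3), 6), ((0, 3), (2, 9), 8), ((0, 3), (6, 5), 7), ((0, 3), (6, 7), 4), ((0, 5), (2,
    3), 6), ((0, 5), (2, 9), 8), ((0, 5), (6, 5), 7), ((0, 5), (6, 7), 4), ((1, 0), (1, 0),
    3), ((1, 0), (1, 3), 6), ((2, 0), (4, 5), 7), ((2, 0), (4, 9), 8), ((3, 0), (0, 1), 1),
    ((3, 0), (0, 8), 5), ((5, 0), (8, 0), 3), ((5, 0), (8, 7), 4)]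
  G := [[0, 0xc11611c82611c11c28611a11c48e, 0x428e16cc16181,
    0x1122ccac741141111116acfcc1111216ccf118c112166cb8cc1,
    0x11216cab11116caba11116aab11116caba11a411a4ad41], [0, 0xa11611c82611c11c48c11a11c24e,
    0xaaa1cc616141, 0x411884a121a1744121617613121c1fcc218121a1f818c6188cc9,
    0xc11884811211a42a18944141a412a3121a1b912a28a488a39aacadad4d]]

noncomputable def n2682 : Ent := ⟨e2682, noF, [], [], [(10, 16, [1580044410770988437309982408355971841652082177953823432505700093953, 0])]⟩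

def c2682 : PLift (Cov.check n2682.C.D v2682 = true) := ⟨by decide +kernel⟩

def b2682 : PLift (entF (fidx ts) 400 2682 n2682 = true) := ⟨by decide +kernel⟩

theorem g2682 : GoodF (fidx ts) 400 2682 := GoodF.ofV v2682 n2682 c2682.down b2682.down

/-- 4648466:2177/1 -/
noncomputable def e2683 : SCfg where
  D := {
    a := 7
    L := 10
    kp := 8
    inn := [(0, 1), (0, 6), (1, 0), (1, 2), (1, 3), (1, 6), (2, 1), (3, 1), (3, 4), (3, 5), (3, 6), (4,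
      3), (4, 5), (5, 3), (5, 4), (6, 0), (6, 1), (6, 3)]
    mix := [(0, 0), (0, 1), (1, 1), (1, 2), (2, 1), (2, 2), (2, 3), (3, 2), (3, 4), (3, 5), (3, 6), (4,
      5), (4, 7), (5, 6), (5, 7), (5, 8), (5, 9), (6, 0), (6, 6), (6, 9)]
    cl := [2, 1, 0, 8, 6, 5, 0, 3, 7, 4]
    chq := [(0, 1), (0, 2), (1, 0), (2, 0), (3, 6), (4, 6), (6, 3), (6, 4), (6, 7), (7, 6)]
    rng := [(0, 1), (0, 9), (1, 0), (1, 3), (2, 3), (2, 4), (3, 1), (3, 2), (4, 2), (4, 5), (5, 4), (5,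
      7), (6, 9), (7, 5), (7, 8), (8, 7), (8, 9), (9, 0), (9, 6), (9, 8)]
    lev := [] }
  links := [[1, 6, 7, 8], [6, 0, 8, 2, 9, 3], [9, 1, 8, 10], [6, 1, 9, 11, 12, 4, 5, 13], [5, 3, 12, 14],
    [13, 3, 4, 14, 15, 16], [7, 0, 1, 3, 13, 16]]
  P := {
    a := 7
    N := 17
    nb := [450, 845, 1794, 14962, 20520, 122904, 73867, 65857, 1159, 3086, 772, 4616, 18456, 65640,
      36912, 81952, 41184]
    tri := [(0, 1, 6), (0, 1, 8), (0, 6, 7), (0, 7, 8), (1, 2, 8), (1, 2, 9), (1, 3, 6), (1, 3, 9), (2,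
      8, 10), (2, 9, 10), (3, 4, 5), (3, 4, 12), (3, 5, 13), (3, 6, 13), (3, 9, 11), (3, 11, 12),
      (4, 5, 14), (4, 12, 14), (5, 13, 16), (5, 14, 15), (5, 15, 16), (6, 7, 16), (6, 13, 16)]
    fin := [0, 1, 2, 3, 3, 3, 1, 0, 2, 1, 10, 3, 12, 1, 14, 15, 16]
    chd := [(0, 1), (2, 1), (3, 14), (3, 15), (3, 16)]
    steps := [(0, 7), (1, 6), (1, 9), (1, 13), (2, 8), (3, 4), (3, 5), (3, 11)] }
  rep := [1, 2, 0, 14, 16, 12, 3, 15, 10]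

noncomputable def v2683 : Cov.CovD where
  P := 3
  N := 6
  pl := [3, 5]
  lev := [⟨[], [], [(1, 2)], [], [(0, 2, [0]), (1, 1, [0])]⟩,
    ⟨[], [(0, 0), (0, 1), (0, 2)], [(0, 1)], [], [(1, 1, [0]), (2, 0, [1, 2])]⟩,
    ⟨[(0, 1)], [(0, 1), (1, 0), (1, 1)], [(0, 1)], [8], [(1, 1, [0]), (2, 0, [1, 2])]⟩,
    ⟨[(0, 1), (1, 2)], [(1, 0), (1, 1), (1, 6), (2, 0)], [(0, 0), (0, 6)], [5], [(2, 0, [1,
      2]), (4, 6, [3, 4, 7]), (6, 0, [1, 2])]⟩,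
    ⟨[(1, 3)], [(3, 0), (3, 3), (3, 6)], [], [5], [(7, 3, [6])]⟩,
    ⟨[(1, 3), (3, 4)], [(3, 0), (3, 3), (3, 4), (3, 6), (3, 7), (4, 0), (4, 3), (4, 4), (4,
      7)], [(0, 3), (0, 4), (0, 7), (3, 4), (3, 7), (4, 7)], [], [(6, 0, [1, 2]), (7, 3,
      [6]), (8, 7, [6]), (9, 4, [6])]⟩,
    ⟨[(0, 1), (0, 3), (1, 2), (1, 3), (3, 4), (3, 5)], [(0, 0), (0, 1), (0, 2), (0, 4), (1,
      0), (1, 1), (1, 2), (1, 4), (3, 0), (3, 2), (3, 4), (3, 6), (5, 0), (5, 4)], [(0, 2),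
      (0, 4), (2, 4)], [], [(0, 2, [0]), (6, 0, [1, 2]), (9, 4, [6])]⟩]
  Ta := [((2, 3), 0, 8), ((2, 4), 0, 6), ((6, 9), 0, 4)]
  Tb := [((0, 1, 9), 2, 1, 4), ((1, 0, 3), 1, 2, 8), ((2, 3, 4), 0, 8, 6), ((3, 1, 2), 8, 1, 0),
    ((4, 2, 5), 6, 0, 5), ((5, 4, 7), 5, 6, 3), ((7, 5, 8), 3, 5, 7), ((8, 7, 9), 7, 3, 4),
    ((9, 0, 6), 4, 2, 0), ((9, 0, 8), 4, 2, 7), ((9, 6, 8), 4, 0, 7)]
  Tc := [(0, 1, 2), (6, 3, 4), (6, 3, 7), (6, 4, 7)]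
  Td := [((0, 1), (2, 3), 8), ((0, 1), (2, 4), 6), ((0, 1), (6, 9), 4), ((0, 2), (2, 3), 8), ((0,
    2), (2, 4), 6), ((0, 2), (6, 9), 4), ((1, 0), (1, 0), 2), ((1, 0), (1, 3), 8), ((2, 0),
    (0, 1), 1), ((2, 0), (0, 9), 4), ((3, 6), (7, 5), 5), ((3, 6), (7, 8), 7), ((4, 6), (9,
    0), 2), ((4, 6), (9, 6), 0), ((4, 6), (9, 8), 7), ((6, 3), (4, 2), 0), ((6, 3), (4, 5),
    5), ((6, 4), (4, 2), 0), ((6, 4), (4, 5), 5), ((6, 7), (4, 2), 0), ((6, 7), (4, 5), 5),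
    ((7, 6), (8, 7), 3), ((7, 6), (8, 9), 4)]
  G := [[0, 0x11a11a511c11c36116111a11a5cc11688116116911c11c3aac4,
    0x849a2a223e416422ac66b4c5c8a87a1c1,
    0x4184441888c181211a7145416614416116711a118b12d1c94111cd14fec116185183e81811811cfa8cc,
    0x12311c116d128b22318b829112d118dee1231412d118d11c3ac48a9a232122f4481488148cc9], [0,
    0x11c11c3211a11a511c11c36c116116911a11a5c11611698aa4, 0x66666694c5cccc87a14a2aaaa5418c,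
    0x8888c24caf88c44cccccccf614464c6828c6f81c1,
    0x88aaa22ae4122684a4aa6f82aaa988aa4882acfe1c1]]

noncomputable def n2683 : Ent := ⟨e2683, noF, [], [], []⟩

def c2683 : PLift (Cov.check n2683.C.D v2683 = true) := ⟨by decide +kernel⟩

def b2683 : PLift (entF (fidx ts) 400 2683 n2683 = true) := ⟨by decide +kernel⟩

theorem g2683 : GoodF (fidx ts) 400 2683 := GoodF.ofV v2683 n2683 c2683.down b2683.down

/-- 4648466:2177 -/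
noncomputable def e2684 : SCfg where
  D := {
    a := 7
    L := 11
    kp := 9
    inn := [(0, 1), (0, 6), (1, 0), (1, 2), (1, 3), (1, 6), (2, 1), (3, 1), (3, 4), (3, 5), (3, 6), (4,
      3), (4, 5), (5, 3), (5, 4), (6, 0), (6, 1), (6, 3)]
    mix := [(0, 0), (0, 1), (1, 1), (1, 2), (2, 1), (2, 2), (2, 3), (3, 2), (3, 4), (3, 5), (3, 6), (4,
      5), (4, 7), (5, 6), (5, 7), (5, 8), (5, 9), (6, 0), (6, 6), (6, 10)]
    cl := [3, 1, 0, 8, 5, 2, 0, 4, 6, 7, 9]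
    chq := [(0, 1), (0, 3), (1, 0), (3, 0), (4, 5), (5, 4), (5, 6), (5, 7), (6, 5), (7, 5)]
    rng := [(0, 1), (0, 10), (1, 0), (1, 3), (2, 3), (2, 4), (3, 1), (3, 2), (4, 2), (4, 5), (5, 4),
      (5, 7), (6, 9), (6, 10), (7, 5), (7, 8), (8, 7), (8, 9), (9, 6), (9, 8), (10, 0), (10, 6)]
    lev := [] }
  links := [[1, 6, 7, 8], [6, 0, 8, 2, 9, 3], [9, 1, 8, 10], [6, 1, 9, 11, 12, 4, 5, 13], [5, 3, 12, 14],
    [13, 3, 4, 14, 15, 16], [7, 0, 1, 3, 13, 17]]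
  P := {
    a := 7
    N := 18
    nb := [450, 845, 1794, 14962, 20520, 122904, 139403, 131393, 1159, 3086, 772, 4616, 18456, 196712,
      36912, 81952, 40992, 8384]
    tri := [(0, 1, 6), (0, 1, 8), (0, 6, 7), (0, 7, 8), (1, 2, 8), (1, 2, 9), (1, 3, 6), (1, 3, 9), (2,
      8, 10), (2, 9, 10), (3, 4, 5), (3, 4, 12), (3, 5, 13), (3, 6, 13), (3, 9, 11), (3, 11, 12),
      (4, 5, 14), (4, 12, 14), (5, 13, 16), (5, 14, 15), (5, 15, 16), (6, 7, 17), (6, 13, 17)]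
    fin := [0, 1, 2, 3, 3, 3, 1, 0, 2, 1, 10, 3, 12, 1, 14, 15, 16, 17]
    chd := [(0, 1), (2, 1), (3, 14), (3, 15), (3, 16)]
    steps := [(0, 7), (1, 6), (1, 9), (1, 13), (2, 8), (3, 4), (3, 5), (3, 11)] }
  rep := [1, 2, 12, 0, 14, 3, 15, 16, 10, 17]

noncomputable def v2684 : Cov.CovD where
  P := 3
  N := 7
  pl := [3, 5, 10]
  lev := [⟨[], [], [(1, 3)], [], [(0, 3, [0]), (1, 1, [0])]⟩,
    ⟨[], [(0, 0), (0, 1), (0, 3)], [(0, 1)], [], [(1, 1, [0]), (2, 0, [1, 3])]⟩,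
    ⟨[(0, 1)], [(0, 1), (1, 0), (1, 1)], [(0, 1)], [8], [(1, 1, [0]), (2, 0, [1, 3])]⟩,
    ⟨[(0, 1), (1, 2)], [(1, 0), (1, 1), (1, 5), (2, 0)], [(0, 0), (0, 5)], [2], [(2, 0, [1,
      3]), (4, 5, [4, 6, 7]), (6, 0, [1, 3])]⟩,
    ⟨[(1, 3)], [(3, 0), (3, 4), (3, 5)], [], [2], [(7, 4, [5])]⟩,
    ⟨[(1, 3), (3, 4)], [(3, 0), (3, 4), (3, 5), (3, 6), (3, 7), (4, 0), (4, 4), (4, 6), (4,
      7)], [(0, 4), (0, 6), (0, 7), (4, 6), (4, 7), (6, 7)], [], [(6, 0, [1, 3]), (7, 4,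
      [5]), (8, 6, [5]), (9, 7, [5])]⟩,
    ⟨[(0, 1), (0, 3), (1, 2), (1, 3), (3, 4), (3, 5)], [(0, 0), (0, 1), (0, 3), (1, 0), (1,
      1), (1, 3), (3, 0), (3, 3), (3, 5), (5, 0)], [(0, 3)], [9], [(0, 3, [0]), (6, 0, [1,
      3])]⟩]
  Ta := [((2, 3), 0, 8), ((2, 4), 0, 5), ((6, 9), 0, 7), ((6, 10), 0, 9)]
  Tb := [((0, 1, 10), 3, 1, 9), ((1, 0, 3), 1, 3, 8), ((2, 3, 4), 0, 8, 5), ((3, 1, 2), 8, 1, 0),
    ((4, 2, 5), 5, 0, 2), ((5, 4, 7), 2, 5, 4), ((6, 9, 10), 0, 7, 9), ((7, 5, 8), 4, 2, 6),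
    ((8, 7, 9), 6, 4, 7), ((9, 6, 8), 7, 0, 6), ((10, 0, 6), 9, 3, 0)]
  Tc := [(0, 1, 3), (5, 4, 6), (5, 4, 7), (5, 6, 7)]
  Td := [((0, 1), (2, 3), 8), ((0, 1), (2, 4), 5), ((0, 1), (6, 9), 7), ((0, 1), (6, 10), 9),
    ((0, 3), (2, 3), 8), ((0, 3), (2, 4), 5), ((0, 3), (6, 9), 7), ((0, 3), (6, 10), 9), ((1,
    0), (1, 0), 3), ((1, 0), (1, 3), 8), ((3, 0), (0, 1), 1), ((3, 0), (0, 10), 9), ((4, 5),
    (7, 5), 2), ((4, 5), (7, 8), 6), ((5, 4), (4, 2), 0), ((5, 4), (4, 5), 2), ((5, 6), (4,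
    2), 0), ((5, 6), (4, 5), 2), ((5, 7), (4, 2), 0), ((5, 7), (4, 5), 2), ((6, 5), (8, 7),
    4), ((6, 5), (8, 9), 7), ((7, 5), (9, 6), 0), ((7, 5), (9, 8), 6)]
  G := [[0x1211ac1411ca64811612c1811c6a841162e11218e11c8e28e,
    0x184411a841414911a1ce21414511a1c11a18c46814116911a189c1448c4e,
    0x11a2448624ee6b84eed4e4eee72a884e8cf28ce8c9,
    0x11c488418841818c4c8226b8446474a8eef829cc46cef625888b8caa548ccd,
    0x646724446f849a42eeef2ee8ef8a2a8b2aa88f8acc1],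
    [0x11648116211ad8aa411c8214116c184aa4663286a52eeeb8cc2d,
    0x14116511a189c1488a214111a11a5c28148811614911a185cc2e, 0x42e2e4ea2a8ae4e848ee141,
    0xeea88c8d414eeee45281c1c1, 0x2eeee23ee8ee89a141]]

noncomputable def n2684 : Ent := ⟨e2684, noF, [], [], [(16, 17, [6903326391201334775872065844685381424292761054348340378595029940678657, 0])]⟩

def c2684 : PLift (Cov.check n2684.C.D v2684 = true) := ⟨by decide +kernel⟩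

def b2684 : PLift (entF (fidx ts) 400 2684 n2684 = true) := ⟨by decide +kernel⟩

theorem g2684 : GoodF (fidx ts) 400 2684 := GoodF.ofV v2684 n2684 c2684.down b2684.down

/-- 4648566:2178 -/
noncomputable def e2685 : SCfg where
  D := {
    a := 7
    L := 11
    kp := 9
    inn := [(0, 1), (0, 5), (1, 0), (1, 2), (1, 3), (1, 5), (1, 6), (2, 1), (2, 6), (3, 1), (3, 4), (3,
      5), (3, 6), (4, 3), (5, 0), (5, 1), (5, 3), (6, 1), (6, 2), (6, 3)]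
    mix := [(0, 0), (0, 1), (1, 1), (2, 1), (2, 2), (3, 3), (3, 4), (3, 5), (3, 6), (4, 3), (4, 4), (4,
      7), (4, 8), (5, 0), (5, 6), (5, 9), (6, 2), (6, 3), (6, 10)]
    cl := [3, 1, 4, 0, 0, 5, 2, 8, 9, 6, 7]
    chq := [(1, 5), (3, 5), (4, 5), (5, 1), (5, 3), (5, 4), (5, 6), (5, 7), (6, 5), (7, 5)]
    rng := [(0, 1), (0, 9), (1, 0), (1, 2), (2, 1), (2, 10), (3, 7), (3, 10), (4, 5), (4, 8), (5, 4),
      (5, 6), (6, 5), (6, 9), (7, 3), (7, 8), (8, 4), (8, 7), (9, 0), (9, 6), (10, 2), (10, 3)]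
    lev := [] }
  links := [[1, 5, 7, 8], [5, 0, 8, 2, 6, 3], [6, 1, 8, 9], [5, 1, 6, 10, 4, 11, 12, 13], [11, 3, 10, 14,
    15], [7, 0, 1, 3, 13, 16], [10, 3, 1, 2, 9, 17]]
  P := {
    a := 7
    N := 18
    nb := [418, 365, 834, 15474, 52232, 73867, 132622, 65825, 647, 131396, 147544, 36888, 10248,
      69672, 33808, 18448, 8352, 1600]
    tri := [(0, 1, 5), (0, 1, 8), (0, 5, 7), (0, 7, 8), (1, 2, 6), (1, 2, 8), (1, 3, 5), (1, 3, 6), (2,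
      6, 9), (2, 8, 9), (3, 4, 10), (3, 4, 11), (3, 5, 13), (3, 6, 10), (3, 11, 12), (3, 12, 13),
      (4, 10, 14), (4, 11, 15), (4, 14, 15), (5, 7, 16), (5, 13, 16), (6, 9, 17), (6, 10, 17)]
    fin := [0, 0, 2, 3, 4, 3, 3, 0, 2, 9, 4, 4, 3, 13, 14, 15, 16, 17]
    chd := [(0, 3), (2, 3), (3, 16), (3, 17), (9, 3)]
    steps := [(0, 1), (0, 7), (2, 8), (3, 5), (3, 6), (3, 12), (4, 10), (4, 11)] }
  rep := [4, 2, 13, 0, 9, 3, 16, 17, 14, 15]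

noncomputable def v2685 : Cov.CovD where
  P := 3
  N := 7
  pl := [6, 7, 8]
  lev := [⟨[], [], [(1, 3)], [], [(0, 3, [5]), (1, 1, [5])]⟩,
    ⟨[], [(0, 1), (0, 3)], [], [], [(1, 1, [5])]⟩,
    ⟨[(0, 1)], [(0, 1), (1, 1), (1, 4)], [(1, 4)], [], [(1, 1, [5]), (2, 4, [5])]⟩,
    ⟨[(0, 1), (1, 2)], [(1, 0), (1, 1), (1, 5)], [(0, 0), (0, 5)], [2], [(3, 0, []), (4, 0,
      []), (5, 5, [1, 3, 4, 6, 7])]⟩,
    ⟨[(1, 3)], [(3, 0), (3, 5)], [(0, 0)], [8, 9], [(3, 0, []), (4, 0, [])]⟩,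
    ⟨[(0, 1), (0, 3), (1, 2), (1, 3), (3, 4)], [(0, 1), (0, 3), (0, 6), (1, 1), (1, 3), (1,
      6), (3, 0), (3, 3), (3, 5), (3, 6)], [(3, 6)], [2], [(0, 3, [5]), (9, 6, [5])]⟩,
    ⟨[(0, 1), (1, 2), (1, 3), (1, 5), (2, 3), (3, 4), (3, 5)], [(1, 0), (1, 1), (1, 4), (1,
      7), (2, 0), (2, 1), (2, 4), (2, 7), (3, 0), (3, 4), (3, 5), (3, 7), (4, 0)], [(0, 4),
      (0, 7), (4, 7)], [], [(2, 4, [5]), (3, 0, []), (10, 7, [5])]⟩]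
  Ta := [((3, 7), 0, 8), ((3, 10), 0, 7), ((4, 5), 0, 5), ((4, 8), 0, 9)]
  Tb := [((0, 1, 9), 3, 1, 6), ((1, 0, 2), 1, 3, 4), ((2, 1, 10), 4, 1, 7), ((3, 7, 10), 0, 8,
    7), ((4, 5, 8), 0, 5, 9), ((5, 4, 6), 5, 0, 2), ((6, 5, 9), 2, 5, 6), ((7, 3, 8), 8, 0,
    9), ((8, 4, 7), 9, 0, 8), ((9, 0, 6), 6, 3, 2), ((10, 2, 3), 7, 4, 0)]
  Tc := [(5, 1, 3), (5, 1, 4), (5, 1, 6), (5, 1, 7), (5, 3, 4), (5, 3, 6), (5, 3, 7), (5, 4, 6),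
    (5, 4, 7), (5, 6, 7)]
  Td := [((1, 5), (1, 0), 3), ((1, 5), (1, 2), 4), ((3, 5), (0, 1), 1), ((3, 5), (0, 9), 6), ((4,
    5), (2, 1), 1), ((4, 5), (2, 10), 7), ((5, 1), (5, 4), 0), ((5, 1), (5, 6), 2), ((5, 3),
    (5, 4), 0), ((5, 3), (5, 6), 2), ((5, 4), (5, 4), 0), ((5, 4), (5, 6), 2), ((5, 6), (5,
    4), 0), ((5, 6), (5, 6), 2), ((5, 7), (5, 4), 0), ((5, 7), (5, 6), 2), ((6, 5), (9, 0),
    3), ((6, 5), (9, 6), 2), ((7, 5), (10, 2), 4), ((7, 5), (10, 3), 0)]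
  G := [[0x2222c448662246e88e28ae88eec8c468a2288a2a268a2464e4e4e4eec48a462222c428e,
    0x2844646464e889a8889ecc24444ca888a8ec822422524ea29a29ac288444444c4e8c6e,
    0xacaaaae8aee4222222e4848ca9184a8c2266ec64ecee84262222e8d1c,
    0x4444c88c88cc414444ae82c41a4541e8444444ce8888ccd1a8a8e8e481d,
    0xa8a82222222ec8a88ac8ea54c822643643643ec84ac1222222e888c3c8ea84d],
    [0x5d4e571e5dce24888888e22c276236622be2828ec24229825898ce8c6,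
    0x989da99aa9e4329129119e4c224325315e918c535455d565e8c2c,
    0xeaaaaaaaae481c4c4c4e246a626822426426e44c8ad1b211a11ae448d,
    0x4444e4e88889889ec888888ce4514444c8888cc4444c891311111e4517156918cc8d,
    0x223222e78e8d89ea848888a26246a464be488ac1a151c21131c222222e3e8d4d]]

noncomputable def n2685 : Ent := ⟨e2685, noF, [], [], []⟩

def c2685 : PLift (Cov.check n2685.C.D v2685 = true) := ⟨by decide +kernel⟩

def b2685 : PLift (entF (fidx ts) 400 2685 n2685 = true) := ⟨by decide +kernel⟩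

theorem g2685 : GoodF (fidx ts) 400 2685 := GoodF.ofV v2685 n2685 c2685.down b2685.down

/-- 4649454:2179 -/
noncomputable def e2686 : SCfg where
  D := {
    a := 7
    L := 11
    kp := 8
    inn := [(0, 1), (1, 0), (1, 2), (1, 3), (2, 1), (3, 1), (3, 4), (3, 5), (3, 6), (4, 3), (4, 5), (5,
      3), (5, 4), (6, 3)]
    mix := [(0, 0), (0, 1), (0, 2), (1, 0), (1, 2), (1, 3), (2, 2), (2, 3), (2, 4), (3, 0), (3, 3), (3,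
      5), (3, 6), (3, 7), (4, 5), (4, 8), (5, 6), (5, 8), (5, 9), (6, 6), (6, 7), (6, 10)]
    cl := [0, 6, 2, 0, 7, 1, 1, 3, 4, 8, 5]
    chq := [(0, 2), (0, 5), (2, 0), (5, 0)]
    rng := [(0, 1), (0, 7), (1, 0), (1, 2), (2, 1), (2, 4), (3, 4), (3, 5), (4, 2), (4, 3), (5, 3), (5,
      8), (6, 9), (6, 10), (7, 0), (7, 10), (8, 5), (8, 9), (9, 6), (9, 8), (10, 6), (10, 7)]
    lev := [] }
  links := [[1, 7, 8, 9], [7, 0, 9, 2, 10, 3], [10, 1, 9, 11], [7, 1, 10, 12, 4, 5, 13, 6, 14], [5, 3,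
    12, 15], [13, 3, 4, 15, 16], [14, 3, 13, 17]]
  P := {
    a := 7
    N := 18
    nb := [898, 1677, 3586, 29938, 36904, 106520, 155656, 16651, 641, 2311, 6158, 1540, 33816, 196712,
      131272, 69680, 40992, 24640]
    tri := [(0, 1, 7), (0, 1, 9), (0, 7, 8), (0, 8, 9), (1, 2, 9), (1, 2, 10), (1, 3, 7), (1, 3, 10),
      (2, 9, 11), (2, 10, 11), (3, 4, 5), (3, 4, 12), (3, 5, 13), (3, 6, 13), (3, 6, 14), (3, 7,
      14), (3, 10, 12), (4, 5, 15), (4, 12, 15), (5, 13, 16), (5, 15, 16), (6, 13, 17), (6, 14,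
      17)]
    fin := [0, 0, 0, 0, 4, 4, 0, 0, 8, 9, 0, 11, 4, 4, 14, 15, 16, 17]
    chd := [(0, 9), (0, 17)]
    steps := [(0, 1), (0, 2), (0, 3), (0, 6), (0, 7), (0, 10), (4, 5), (4, 12), (4, 13)] }
  rep := [0, 4, 9, 14, 15, 17, 8, 11, 16]

noncomputable def v2686 : Cov.CovD where
  P := 3
  N := 6
  pl := [1, 4, 7, 8, 9]
  lev := [⟨[], [], [(0, 2)], [6], [(0, 0, [2, 5]), (2, 2, [0])]⟩,
    ⟨[], [(0, 0), (0, 2)], [(0, 0), (0, 2)], [], [(0, 0, [2, 5]), (2, 2, [0]), (3, 0, [2,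
      5])]⟩,
    ⟨[(0, 1)], [(0, 2), (1, 0), (1, 2)], [(0, 2)], [7], [(2, 2, [0]), (3, 0, [2, 5])]⟩,
    ⟨[(0, 1), (1, 2)], [(0, 0), (1, 0), (1, 1), (1, 2), (2, 0)], [(0, 0), (0, 1), (1, 1)],
      [3], [(0, 0, [2, 5]), (3, 0, [2, 5]), (5, 1, []), (6, 1, [])]⟩,
    ⟨[(1, 3)], [(3, 0), (3, 1)], [], [4], [(5, 1, [])]⟩,
    ⟨[(1, 3), (3, 4)], [(3, 0), (3, 1), (4, 1)], [], [4, 8], [(6, 1, [])]⟩,
    ⟨[(1, 3), (3, 4), (3, 5)], [(3, 0), (3, 1), (3, 5), (5, 1)], [(1, 5)], [3], [(6, 1,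
      []), (10, 5, [0])]⟩]
  Ta := [((0, 1), 0, 6), ((0, 7), 0, 3), ((3, 4), 0, 7), ((3, 5), 0, 1), ((5, 3), 1, 0), ((5, 8),
    1, 4), ((6, 9), 1, 8), ((6, 10), 1, 5)]
  Tb := [((0, 1, 7), 0, 6, 3), ((1, 0, 2), 6, 0, 2), ((2, 1, 4), 2, 6, 7), ((3, 4, 5), 0, 7, 1),
    ((4, 2, 3), 7, 2, 0), ((5, 3, 8), 1, 0, 4), ((6, 9, 10), 1, 8, 5), ((7, 0, 10), 3, 0, 5),
    ((8, 5, 9), 4, 1, 8), ((9, 6, 8), 8, 1, 4), ((10, 6, 7), 5, 1, 3)]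
  Tc := [(0, 2, 5)]
  Td := [((0, 2), (0, 1), 6), ((0, 2), (0, 7), 3), ((0, 2), (3, 4), 7), ((0, 2), (3, 5), 1), ((0,
    5), (0, 1), 6), ((0, 5), (0, 7), 3), ((0, 5), (3, 4), 7), ((0, 5), (3, 5), 1), ((2, 0),
    (2, 1), 6), ((2, 0), (2, 4), 7), ((5, 0), (10, 6), 1), ((5, 0), (10, 7), 3)]
  G := [[0, 0, 0x122295121195c4221c125181211dc8212115c21a1139c24e,
    0x122421d311b129c14216133532912cc18c, 0x12325c23912cc121162421d281211dc12a], [0, 0,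
    0x1828111d218115aca2111d211c113c821152111d2c418282ce,
    0x91524155dd2988c1c981491b415d5d281cc, 0x159d2d95d2c121d9d2d15d2c12a], [0,
    0x11c116a12a118e611cc1aa1a1c6c81, 0x1222594121411d862121411d811c12946212115c121295c82e,
    0x12119541161135121159cc12219588c1, 0x12129521c129c121159281211dca21], [0, 0,
    0x1828421152111d2c111d2111d2ca21152111d2c144181411bc6119288ae,
    0x181411b4144111d2cc111d2811928cc1, 0x111d2111d2c11c113111d2ca21]]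

noncomputable def n2686 : Ent := ⟨e2686, noF, [], [], []⟩

def c2686 : PLift (Cov.check n2686.C.D v2686 = true) := ⟨by decide +kernel⟩

def b2686 : PLift (entF (fidx ts) 400 2686 n2686 = true) := ⟨by decide +kernel⟩

theorem g2686 : GoodF (fidx ts) 400 2686 := GoodF.ofV v2686 n2686 c2686.down b2686.down

/-- 4649454:2180/1 -/
noncomputable def e2687 : SCfg where
  D := {
    a := 7
    L := 10
    kp := 7
    inn := [(0, 1), (1, 0), (1, 2), (1, 3), (2, 1), (3, 1), (3, 4), (3, 5), (3, 6), (4, 3), (4, 5), (5,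
      3), (5, 4), (6, 3)]
    mix := [(0, 0), (0, 1), (0, 2), (1, 0), (1, 2), (1, 3), (2, 2), (2, 3), (2, 4), (3, 0), (3, 3), (3,
      5), (3, 6), (3, 7), (4, 5), (4, 8), (5, 6), (5, 8), (5, 9), (6, 0), (6, 1), (6, 7)]
    cl := [0, 3, 1, 0, 7, 2, 0, 4, 5, 6]
    chq := [(0, 1), (1, 0), (2, 6), (6, 2)]
    rng := [(0, 1), (1, 0), (1, 2), (1, 7), (2, 1), (2, 4), (3, 4), (3, 5), (4, 2), (4, 3), (5, 3), (5,
      8), (6, 7), (6, 9), (7, 1), (7, 6), (8, 5), (8, 9), (9, 6), (9, 8)]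
    lev := [] }
  links := [[1, 7, 8, 9], [7, 0, 9, 2, 10, 3], [10, 1, 9, 11], [7, 1, 10, 12, 4, 5, 13, 14, 6], [5, 3,
    12, 15], [13, 3, 4, 15, 16], [7, 3, 14, 8]]
  P := {
    a := 7
    N := 17
    nb := [898, 1677, 3586, 29938, 36904, 106520, 16776, 331, 17089, 2311, 6158, 1540, 33816, 81960,
      8520, 69680, 40992]
    tri := [(0, 1, 7), (0, 1, 9), (0, 7, 8), (0, 8, 9), (1, 2, 9), (1, 2, 10), (1, 3, 7), (1, 3, 10),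
      (2, 9, 11), (2, 10, 11), (3, 4, 5), (3, 4, 12), (3, 5, 13), (3, 6, 7), (3, 6, 14), (3, 10,
      12), (3, 13, 14), (4, 5, 15), (4, 12, 15), (5, 13, 16), (5, 15, 16), (6, 7, 8), (6, 8, 14)]
    fin := [0, 0, 0, 0, 4, 4, 0, 0, 8, 9, 0, 11, 4, 0, 14, 15, 16]
    chd := [(0, 9), (4, 16)]
    steps := [(0, 1), (0, 2), (0, 3), (0, 7), (0, 6), (0, 10), (0, 13), (4, 5), (4, 12)] }
  rep := [0, 9, 4, 8, 14, 15, 16, 11]

noncomputable def v2687 : Cov.CovD where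
  P := 3
  N := 5
  pl := [1, 4, 7, 8]
  lev := [⟨[], [], [(0, 1)], [3], [(0, 0, [1]), (2, 1, [0])]⟩,
    ⟨[], [(0, 0), (0, 1)], [(0, 0), (0, 1)], [], [(0, 0, [1]), (2, 1, [0]), (3, 0, [1])]⟩,
    ⟨[(0, 1)], [(0, 1), (1, 0), (1, 1)], [(0, 1)], [7], [(2, 1, [0]), (3, 0, [1])]⟩,
    ⟨[(0, 1), (1, 2)], [(0, 0), (1, 0), (1, 1), (1, 2), (2, 0)], [(0, 0), (0, 2)], [4],
      [(0, 0, [1]), (3, 0, [1]), (5, 2, [6]), (6, 0, [1])]⟩,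
    ⟨[(1, 3)], [(3, 0), (3, 2)], [], [5], [(5, 2, [6])]⟩,
    ⟨[(1, 3), (3, 4)], [(3, 0), (3, 2), (3, 6), (4, 0), (4, 2), (4, 6)], [(0, 6)], [5],
      [(6, 0, [1]), (9, 6, [2])]⟩,
    ⟨[(1, 3), (3, 4), (3, 5)], [(0, 0), (1, 0), (3, 0), (3, 2)], [], [3, 4], [(0, 0, [1])]⟩]
  Ta := [((0, 1), 0, 3), ((3, 4), 0, 7), ((3, 5), 0, 2), ((6, 7), 0, 4), ((6, 9), 0, 6)]
  Tb := [((1, 0, 2), 3, 0, 1), ((1, 0, 7), 3, 0, 4), ((1, 2, 7), 3, 1, 4), ((2, 1, 4), 1, 3, 7),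
    ((3, 4, 5), 0, 7, 2), ((4, 2, 3), 7, 1, 0), ((5, 3, 8), 2, 0, 5), ((6, 7, 9), 0, 4, 6),
    ((7, 1, 6), 4, 3, 0), ((8, 5, 9), 5, 2, 6), ((9, 6, 8), 6, 0, 5)]
  Tc := []
  Td := [((0, 1), (0, 1), 3), ((0, 1), (3, 4), 7), ((0, 1), (3, 5), 2), ((0, 1), (6, 7), 4), ((0,
    1), (6, 9), 6), ((1, 0), (2, 1), 3), ((1, 0), (2, 4), 7), ((2, 6), (5, 3), 0), ((2, 6),
    (5, 8), 5), ((6, 2), (9, 6), 0), ((6, 2), (9, 8), 5)]
  G := [[0, 0x1211c41281c121ca21112c8811344464122c411c1251138cc2e, 0,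
    0x883825223229c14223225443429c18c, 0x885843225249a144654436441aa18c], [0,
    0x141812d441211c84c118821241112cc86111258124123129ca4e, 0xc1c1aa1a1c6c12e121c6cc1484c1,
    0x1211c4113125124cc82232252c3823cc4aa3a25223229c8c5,
    0x11a149288cc5c43225249a41c8584b665649ac45], [0,
    0x1112c113129c841131254211cc281221c1112cc42e, 0, 0x1484118481c682669412eca25228c1c9,
    0x18143128a144ea44364a649a149]]

noncomputable def n2687 : Ent := ⟨e2687, noF, [], [], []⟩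

def c2687 : PLift (Cov.check n2687.C.D v2687 = true) := ⟨by decide +kernel⟩

def b2687 : PLift (entF (fidx ts) 400 2687 n2687 = true) := ⟨by decide +kernel⟩

theorem g2687 : GoodF (fidx ts) 400 2687 := GoodF.ofV v2687 n2687 c2687.down b2687.down

/-- 4649454:2180 -/
noncomputable def e2688 : SCfg where
  D := {
    a := 7
    L := 11
    kp := 8
    inn := [(0, 1), (1, 0), (1, 2), (1, 3), (2, 1), (3, 1), (3, 4), (3, 5), (3, 6), (4, 3), (4, 5), (5,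
      3), (5, 4), (6, 3)]
    mix := [(0, 0), (0, 1), (0, 2), (1, 0), (1, 2), (1, 3), (2, 2), (2, 3), (2, 4), (3, 0), (3, 3), (3,
      5), (3, 6), (3, 7), (4, 5), (4, 8), (5, 6), (5, 8), (5, 9), (6, 0), (6, 7), (6, 10)]
    cl := [0, 6, 1, 0, 7, 2, 0, 3, 4, 5, 8]
    chq := [(0, 1), (1, 0), (2, 5), (5, 2)]
    rng := [(0, 1), (0, 10), (1, 0), (1, 2), (2, 1), (2, 4), (3, 4), (3, 5), (4, 2), (4, 3), (5, 3),
      (5, 8), (6, 7), (6, 9), (7, 6), (7, 10), (8, 5), (8, 9), (9, 6), (9, 8), (10, 0), (10, 7)]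
    lev := [] }
  links := [[1, 7, 8, 9], [7, 0, 9, 2, 10, 3], [10, 1, 9, 11], [7, 1, 10, 12, 4, 5, 13, 14, 6], [5, 3,
    12, 15], [13, 3, 4, 15, 16], [7, 3, 14, 17]]
  P := {
    a := 7
    N := 18
    nb := [898, 1677, 3586, 29938, 36904, 106520, 147592, 131403, 641, 2311, 6158, 1540, 33816, 81960,
      139336, 69680, 40992, 16576]
    tri := [(0, 1, 7), (0, 1, 9), (0, 7, 8), (0, 8, 9), (1, 2, 9), (1, 2, 10), (1, 3, 7), (1, 3, 10),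
      (2, 9, 11), (2, 10, 11), (3, 4, 5), (3, 4, 12), (3, 5, 13), (3, 6, 7), (3, 6, 14), (3, 10,
      12), (3, 13, 14), (4, 5, 15), (4, 12, 15), (5, 13, 16), (5, 15, 16), (6, 7, 17), (6, 14,
      17)]
    fin := [0, 0, 0, 0, 4, 4, 0, 0, 8, 9, 0, 11, 4, 0, 14, 15, 16, 17]
    chd := [(0, 9), (4, 16)]
    steps := [(0, 1), (0, 2), (0, 3), (0, 6), (0, 7), (0, 10), (0, 13), (4, 5), (4, 12)] }
  rep := [0, 9, 4, 14, 15, 16, 8, 11, 17]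

noncomputable def v2688 : Cov.CovD where
  P := 3
  N := 6
  pl := [1, 4, 7, 8, 10]
  lev := [⟨[], [], [(0, 1)], [6], [(0, 0, [1]), (2, 1, [0])]⟩,
    ⟨[], [(0, 0), (0, 1)], [(0, 0), (0, 1)], [], [(0, 0, [1]), (2, 1, [0]), (3, 0, [1])]⟩,
    ⟨[(0, 1)], [(0, 1), (1, 0), (1, 1)], [(0, 1)], [7], [(2, 1, [0]), (3, 0, [1])]⟩,
    ⟨[(0, 1), (1, 2)], [(0, 0), (1, 0), (1, 1), (1, 2), (2, 0)], [(0, 0), (0, 2)], [3],
      [(0, 0, [1]), (3, 0, [1]), (5, 2, [5]), (6, 0, [1])]⟩,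
    ⟨[(1, 3)], [(3, 0), (3, 2)], [], [4], [(5, 2, [5])]⟩,
    ⟨[(1, 3), (3, 4)], [(3, 0), (3, 2), (3, 5), (4, 0), (4, 2), (4, 5)], [(0, 5)], [4],
      [(6, 0, [1]), (9, 5, [2])]⟩,
    ⟨[(1, 3), (3, 4), (3, 5)], [(0, 0), (1, 0), (3, 0), (3, 2)], [], [3, 8], [(0, 0, [1])]⟩]
  Ta := [((0, 1), 0, 6), ((0, 10), 0, 8), ((3, 4), 0, 7), ((3, 5), 0, 2), ((6, 7), 0, 3), ((6,
    9), 0, 5)]
  Tb := [((0, 1, 10), 0, 6, 8), ((1, 0, 2), 6, 0, 1), ((2, 1, 4), 1, 6, 7), ((3, 4, 5), 0, 7, 2),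
    ((4, 2, 3), 7, 1, 0), ((5, 3, 8), 2, 0, 4), ((6, 7, 9), 0, 3, 5), ((7, 6, 10), 3, 0, 8),
    ((8, 5, 9), 4, 2, 5), ((9, 6, 8), 5, 0, 4), ((10, 0, 7), 8, 0, 3)]
  Tc := []
  Td := [((0, 1), (0, 1), 6), ((0, 1), (0, 10), 8), ((0, 1), (3, 4), 7), ((0, 1), (3, 5), 2),
    ((0, 1), (6, 7), 3), ((0, 1), (6, 9), 5), ((1, 0), (2, 1), 6), ((1, 0), (2, 4), 7), ((2,
    5), (5, 3), 0), ((2, 5), (5, 8), 4), ((5, 2), (9, 6), 0), ((5, 2), (9, 8), 4)]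
  G := [[0, 0x1244411841112c8ac11c125881211c42612441112c118cc2e, 0,
    0x2244f62941aa3a2581c2242244f629c12188382d81cc, 0x41c8584b665649a14cc5c43665649a14c], [0,
    0x1112c441112c113129c2c1112c1211cc1112c4c21211c844e, 0xc1c1aa1a1c64c1c166161ca8c1,
    0x66362944632242d4c21a8382d821a8382d8cc1, 0x66564924cc5c436254124bacc5c438cc1], [0,
    0x1211c441211c82a11312581211c4681112c1211cc82e, 0,
    0x1414118481c1484118481c6266a941a4a2581cd, 0x181128a14182128a14c4cc6368649a14d]]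

noncomputable def n2688 : Ent := ⟨e2688, noF, [], [], [(8, 17, [6903326391201334775872065844685381424292761054348340378595029940695041, 0])]⟩

def c2688 : PLift (Cov.check n2688.C.D v2688 = true) := ⟨by decide +kernel⟩

def b2688 : PLift (entF (fidx ts) 400 2688 n2688 = true) := ⟨by decide +kernel⟩

theorem g2688 : GoodF (fidx ts) 400 2688 := GoodF.ofV v2688 n2688 c2688.down b2688.down

/-- 4648466:2181 -/
noncomputable def e2689 : SCfg where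
  D := {
    a := 7
    L := 10
    kp := 8
    inn := [(0, 1), (0, 5), (1, 0), (1, 2), (1, 3), (1, 5), (1, 6), (2, 1), (2, 6), (3, 1), (3, 4), (3,
      5), (3, 6), (4, 3), (5, 0), (5, 1), (5, 3), (6, 1), (6, 2), (6, 3)]
    mix := [(0, 0), (0, 1), (1, 1), (2, 1), (2, 2), (3, 3), (3, 4), (3, 5), (3, 6), (4, 4), (4, 5), (4,
      7), (5, 0), (5, 6), (5, 8), (6, 2), (6, 3), (6, 9)]
    cl := [3, 1, 4, 0, 2, 5, 0, 6, 8, 7]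
    chq := [(0, 1), (0, 3), (0, 6), (1, 0), (1, 7), (3, 0), (6, 0), (7, 1)]
    rng := [(0, 1), (0, 8), (1, 0), (1, 2), (2, 1), (2, 9), (3, 4), (3, 9), (4, 3), (4, 7), (5, 6), (5,
      7), (6, 5), (6, 8), (7, 4), (7, 5), (8, 0), (8, 6), (9, 2), (9, 3)]
    lev := [] }
  links := [[1, 5, 7, 8], [5, 0, 8, 2, 6, 3], [6, 1, 8, 9], [5, 1, 6, 10, 11, 4, 12, 13], [12, 3, 11,
    14], [7, 0, 1, 3, 13, 15], [10, 3, 1, 2, 9, 16]]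
  P := {
    a := 7
    N := 17
    nb := [418, 365, 834, 15474, 22536, 41099, 67086, 33057, 647, 65860, 67656, 17432, 24600, 36904,
      6160, 8352, 1600]
    tri := [(0, 1, 5), (0, 1, 8), (0, 5, 7), (0, 7, 8), (1, 2, 6), (1, 2, 8), (1, 3, 5), (1, 3, 6), (2,
      6, 9), (2, 8, 9), (3, 4, 11), (3, 4, 12), (3, 5, 13), (3, 6, 10), (3, 10, 11), (3, 12, 13),
      (4, 11, 14), (4, 12, 14), (5, 7, 15), (5, 13, 15), (6, 9, 16), (6, 10, 16)]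
    fin := [0, 0, 2, 3, 3, 0, 2, 0, 2, 9, 3, 11, 12, 3, 14, 15, 16]
    chd := [(0, 3), (2, 3), (2, 16), (3, 14)]
    steps := [(0, 1), (0, 5), (0, 7), (2, 6), (2, 8), (3, 4), (3, 10), (3, 13)] }
  rep := [3, 2, 11, 0, 9, 12, 14, 16, 15]

noncomputable def v2689 : Cov.CovD where
  P := 3
  N := 6
  pl := [2, 4, 5, 8]
  lev := [⟨[], [], [(1, 3)], [], [(0, 3, [0]), (1, 1, [0, 7])]⟩,
    ⟨[], [(0, 1), (0, 3)], [], [], [(1, 1, [0, 7])]⟩,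
    ⟨[(0, 1)], [(0, 1), (1, 1)], [], [4], [(1, 1, [0, 7])]⟩,
    ⟨[(0, 1), (1, 2)], [(1, 0), (1, 1)], [(0, 0)], [2, 5], [(3, 0, [1, 3, 6]), (6, 0, [1,
      3, 6])]⟩,
    ⟨[(1, 3)], [(3, 0), (3, 6)], [], [2, 5], [(7, 6, [0])]⟩,
    ⟨[(0, 1), (0, 3), (1, 2), (1, 3), (3, 4)], [(0, 0), (0, 1), (0, 3), (1, 0), (1, 1), (1,
      3), (3, 0), (3, 3)], [(0, 3)], [8], [(0, 3, [0]), (6, 0, [1, 3, 6])]⟩,
    ⟨[(0, 1), (1, 2), (1, 3), (1, 5), (2, 3), (3, 4), (3, 5)], [(1, 0), (1, 1), (1, 7), (2,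
      0), (2, 1), (2, 7), (3, 0), (3, 7)], [(0, 7)], [4], [(3, 0, [1, 3, 6]), (9, 7, [1])]⟩]
  Ta := [((3, 4), 0, 2), ((3, 9), 0, 7), ((6, 5), 0, 5), ((6, 8), 0, 8)]
  Tb := [((0, 1, 8), 3, 1, 8), ((1, 0, 2), 1, 3, 4), ((2, 1, 9), 4, 1, 7), ((3, 4, 9), 0, 2, 7),
    ((4, 3, 7), 2, 0, 6), ((5, 6, 7), 5, 0, 6), ((6, 5, 8), 0, 5, 8), ((7, 4, 5), 6, 2, 5),
    ((8, 0, 6), 8, 3, 0), ((9, 2, 3), 7, 4, 0)]
  Tc := [(0, 1, 3), (0, 1, 6), (0, 3, 6), (1, 0, 7)]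
  Td := [((0, 1), (3, 4), 2), ((0, 1), (3, 9), 7), ((0, 1), (6, 5), 5), ((0, 1), (6, 8), 8), ((0,
    3), (3, 4), 2), ((0, 3), (3, 9), 7), ((0, 3), (6, 5), 5), ((0, 3), (6, 8), 8), ((0, 6),
    (3, 4), 2), ((0, 6), (3, 9), 7), ((0, 6), (6, 5), 5), ((0, 6), (6, 8), 8), ((1, 0), (1,
    0), 3), ((1, 0), (1, 2), 4), ((1, 7), (1, 0), 3), ((1, 7), (1, 2), 4), ((3, 0), (0, 1),
    1), ((3, 0), (0, 8), 8), ((6, 0), (7, 4), 2), ((6, 0), (7, 5), 5), ((7, 1), (9, 2), 4),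
    ((7, 1), (9, 3), 0)]
  G := [[0, 0x111111c22111111c48111111c84e,
    0x214421216456141c81c1c1ea218121e818c9c214e141c1e641216e1a121ec521888cc,
    0xa11844411418246144414ac1c9626e1a8a1caa6122a1c9cd,
    0x6112181184c611218666111c1a4281aace1a6aae189cd], [0, 0x111111c82111111c48111111c28e, 0,
    0x14336532c12a333edc226122a222e9c5136221e38d828189c1,
    0x32231a55c661eba4326333e99899c11deba2422222eb89c1]]

noncomputable def n2689 : Ent := ⟨e2689, noF, [], [], []⟩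

def c2689 : PLift (Cov.check n2689.C.D v2689 = true) := ⟨by decide +kernel⟩

def b2689 : PLift (entF (fidx ts) 400 2689 n2689 = true) := ⟨by decide +kernel⟩

theorem g2689 : GoodF (fidx ts) 400 2689 := GoodF.ofV v2689 n2689 c2689.down b2689.down

/-- 4649445:2182/1 -/
noncomputable def e2690 : SCfg where
  D := {
    a := 7
    L := 10
    kp := 7
    inn := [(0, 1), (1, 0), (1, 2), (1, 3), (2, 1), (3, 1), (3, 4), (3, 5), (3, 6), (4, 3), (5, 3), (5,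
      6), (6, 3), (6, 5)]
    mix := [(0, 0), (0, 1), (0, 2), (1, 0), (1, 2), (1, 3), (2, 2), (2, 3), (2, 4), (3, 0), (3, 3), (3,
      5), (3, 6), (3, 7), (4, 5), (4, 6), (4, 8), (5, 6), (5, 9), (6, 1), (6, 7), (6, 9)]
    cl := [0, 2, 3, 0, 7, 4, 1, 1, 6, 5]
    chq := [(0, 3), (0, 6), (3, 0), (6, 0)]
    rng := [(0, 1), (0, 7), (1, 0), (1, 2), (1, 7), (1, 9), (2, 1), (2, 4), (3, 4), (3, 5), (4, 2), (4,
      3), (5, 3), (5, 8), (6, 8), (6, 9), (7, 0), (7, 1), (8, 5), (8, 6), (9, 1), (9, 6)]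
    lev := [] }
  links := [[1, 7, 8, 9], [7, 0, 9, 2, 10, 3], [10, 1, 9, 11], [7, 1, 10, 12, 4, 13, 5, 6, 14], [13, 3,
    12, 15], [6, 3, 13, 16], [14, 3, 5, 16, 8]]
  P := {
    a := 7
    N := 17
    nb := [898, 1677, 3586, 29938, 45064, 73800, 82216, 16651, 82625, 2311, 6158, 1540, 33816, 98360,
      456, 12304, 8544]
    tri := [(0, 1, 7), (0, 1, 9), (0, 7, 8), (0, 8, 9), (1, 2, 9), (1, 2, 10), (1, 3, 7), (1, 3, 10),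
      (2, 9, 11), (2, 10, 11), (3, 4, 12), (3, 4, 13), (3, 5, 6), (3, 5, 13), (3, 6, 14), (3, 7,
      14), (3, 10, 12), (4, 12, 15), (4, 13, 15), (5, 6, 16), (5, 13, 16), (6, 8, 14), (6, 8, 16)]
    fin := [0, 0, 0, 0, 0, 5, 5, 0, 8, 9, 0, 11, 12, 5, 5, 15, 16]
    chd := [(0, 9), (0, 15)]
    steps := [(0, 1), (0, 2), (0, 3), (0, 4), (0, 7), (0, 10), (5, 6), (5, 13), (5, 14)] }
  rep := [0, 5, 8, 9, 12, 16, 15, 11]

noncomputable def v2690 : Cov.CovD where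
  P := 3
  N := 5
  pl := [1, 4, 5, 9]
  lev := [⟨[], [], [(0, 3)], [2], [(0, 0, [3, 6]), (2, 3, [0])]⟩,
    ⟨[], [(0, 0), (0, 3)], [(0, 0), (0, 3)], [], [(0, 0, [3, 6]), (2, 3, [0]), (3, 0, [3,
      6])]⟩,
    ⟨[(0, 1)], [(0, 3), (1, 0), (1, 3)], [(0, 3)], [7], [(2, 3, [0]), (3, 0, [3, 6])]⟩,
    ⟨[(0, 1), (1, 2)], [(0, 0), (1, 0), (1, 1), (1, 3), (2, 0)], [(0, 0), (0, 1), (1, 1)],
      [4], [(0, 0, [3, 6]), (3, 0, [3, 6]), (6, 1, []), (7, 1, [])]⟩,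
    ⟨[(1, 3)], [(3, 0), (3, 1), (3, 6)], [(1, 6)], [4], [(6, 1, []), (8, 6, [0])]⟩,
    ⟨[(1, 3), (3, 4)], [(3, 0), (3, 1), (4, 1)], [], [5], [(6, 1, [])]⟩,
    ⟨[(1, 3), (3, 4), (3, 5)], [(3, 0), (3, 1), (5, 1)], [], [2, 5], [(7, 1, [])]⟩]
  Ta := [((0, 1), 0, 2), ((0, 7), 0, 1), ((3, 4), 0, 7), ((3, 5), 0, 4), ((6, 8), 1, 6), ((6, 9),
    1, 5), ((7, 0), 1, 0), ((7, 1), 1, 2)]
  Tb := [((0, 1, 7), 0, 2, 1), ((1, 0, 2), 2, 0, 3), ((1, 0, 7), 2, 0, 1), ((1, 0, 9), 2, 0, 5),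
    ((1, 2, 7), 2, 3, 1), ((1, 2, 9), 2, 3, 5), ((1, 7, 9), 2, 1, 5), ((2, 1, 4), 3, 2, 7),
    ((3, 4, 5), 0, 7, 4), ((4, 2, 3), 7, 3, 0), ((5, 3, 8), 4, 0, 6), ((6, 8, 9), 1, 6, 5),
    ((7, 0, 1), 1, 0, 2), ((8, 5, 6), 6, 4, 1), ((9, 1, 6), 5, 2, 1)]
  Tc := [(0, 3, 6)]
  Td := [((0, 3), (0, 1), 2), ((0, 3), (0, 7), 1), ((0, 3), (3, 4), 7), ((0, 3), (3, 5), 4), ((0,
    6), (0, 1), 2), ((0, 6), (0, 7), 1), ((0, 6), (3, 4), 7), ((0, 6), (3, 5), 4), ((3, 0),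
    (2, 1), 2), ((3, 0), (2, 4), 7), ((6, 0), (8, 5), 4), ((6, 0), (8, 6), 1)]
  G := [[0, 0, 0x6114161181cc11611c126, 0, 0x21914421918291c21518cc28518151c12a], [0,
    0x84a184c1618486184c1a14c, 0xc21418c21814c11c21c12e, 0x8131c21c124851921c4192521c62c,
    0x8191449218131c9218cc81318191c12a], [0, 0, 0, 0,
    0x8191442191111c8c2191881c2a41821914c6815819a4d48215215215d84341819819219dc2eb], [0, 0,
    0, 0x14c281c1c821182388113c4214c28131c22d,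
    0x81c2449218192c9218ac813184815281c1c819249218192ce69]]

noncomputable def n2690 : Ent := ⟨e2690, noF, [], [], []⟩

def c2690 : PLift (Cov.check n2690.C.D v2690 = true) := ⟨by decide +kernel⟩

def b2690 : PLift (entF (fidx ts) 400 2690 n2690 = true) := ⟨by decide +kernel⟩

theorem g2690 : GoodF (fidx ts) 400 2690 := GoodF.ofV v2690 n2690 c2690.down b2690.down

/-- 4649445:2182 -/
noncomputable def e2691 : SCfg where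
  D := {
    a := 7
    L := 11
    kp := 8
    inn := [(0, 1), (1, 0), (1, 2), (1, 3), (2, 1), (3, 1), (3, 4), (3, 5), (3, 6), (4, 3), (5, 3), (5,
      6), (6, 3), (6, 5)]
    mix := [(0, 0), (0, 1), (0, 2), (1, 0), (1, 2), (1, 3), (2, 2), (2, 3), (2, 4), (3, 0), (3, 3), (3,
      5), (3, 6), (3, 7), (4, 5), (4, 6), (4, 8), (5, 6), (5, 9), (6, 7), (6, 9), (6, 10)]
    cl := [0, 6, 2, 0, 7, 3, 1, 1, 5, 4, 8]
    chq := [(0, 2), (0, 5), (2, 0), (5, 0)]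
    rng := [(0, 1), (0, 7), (1, 0), (1, 2), (2, 1), (2, 4), (3, 4), (3, 5), (4, 2), (4, 3), (5, 3), (5,
      8), (6, 8), (6, 9), (7, 0), (7, 10), (8, 5), (8, 6), (9, 6), (9, 10), (10, 7), (10, 9)]
    lev := [] }
  links := [[1, 7, 8, 9], [7, 0, 9, 2, 10, 3], [10, 1, 9, 11], [7, 1, 10, 12, 4, 13, 5, 6, 14], [13, 3,
    12, 15], [6, 3, 13, 16], [14, 3, 5, 16, 17]]
  P := {
    a := 7
    N := 18
    nb := [898, 1677, 3586, 29938, 45064, 73800, 213032, 16651, 641, 2311, 6158, 1540, 33816, 98360,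
      131272, 12304, 139360, 81984]
    tri := [(0, 1, 7), (0, 1, 9), (0, 7, 8), (0, 8, 9), (1, 2, 9), (1, 2, 10), (1, 3, 7), (1, 3, 10),
      (2, 9, 11), (2, 10, 11), (3, 4, 12), (3, 4, 13), (3, 5, 6), (3, 5, 13), (3, 6, 14), (3, 7,
      14), (3, 10, 12), (4, 12, 15), (4, 13, 15), (5, 6, 16), (5, 13, 16), (6, 14, 17), (6, 16,
      17)]
    fin := [0, 0, 0, 0, 0, 5, 5, 0, 8, 9, 0, 11, 12, 5, 5, 15, 16, 17]
    chd := [(0, 9), (0, 15)]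
    steps := [(0, 1), (0, 2), (0, 3), (0, 4), (0, 7), (0, 10), (5, 6), (5, 13), (5, 14)] }
  rep := [0, 5, 9, 12, 16, 15, 8, 11, 17]

noncomputable def v2691 : Cov.CovD where
  P := 3
  N := 6
  pl := [1, 4, 5, 9, 10]
  lev := [⟨[], [], [(0, 2)], [6], [(0, 0, [2, 5]), (2, 2, [0])]⟩,
    ⟨[], [(0, 0), (0, 2)], [(0, 0), (0, 2)], [], [(0, 0, [2, 5]), (2, 2, [0]), (3, 0, [2,
      5])]⟩,
    ⟨[(0, 1)], [(0, 2), (1, 0), (1, 2)], [(0, 2)], [7], [(2, 2, [0]), (3, 0, [2, 5])]⟩,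
    ⟨[(0, 1), (1, 2)], [(0, 0), (1, 0), (1, 1), (1, 2), (2, 0)], [(0, 0), (0, 1), (1, 1)],
      [3], [(0, 0, [2, 5]), (3, 0, [2, 5]), (6, 1, []), (7, 1, [])]⟩,
    ⟨[(1, 3)], [(3, 0), (3, 1), (3, 5)], [(1, 5)], [3], [(6, 1, []), (8, 5, [0])]⟩,
    ⟨[(1, 3), (3, 4)], [(3, 0), (3, 1), (4, 1)], [], [4], [(6, 1, [])]⟩,
    ⟨[(1, 3), (3, 4), (3, 5)], [(3, 0), (3, 1), (5, 1)], [], [4, 8], [(7, 1, [])]⟩]
  Ta := [((0, 1), 0, 6), ((0, 7), 0, 1), ((3, 4), 0, 7), ((3, 5), 0, 3), ((6, 8), 1, 5), ((6, 9),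
    1, 4), ((7, 0), 1, 0), ((7, 10), 1, 8)]
  Tb := [((0, 1, 7), 0, 6, 1), ((1, 0, 2), 6, 0, 2), ((2, 1, 4), 2, 6, 7), ((3, 4, 5), 0, 7, 3),
    ((4, 2, 3), 7, 2, 0), ((5, 3, 8), 3, 0, 5), ((6, 8, 9), 1, 5, 4), ((7, 0, 10), 1, 0, 8),
    ((8, 5, 6), 5, 3, 1), ((9, 6, 10), 4, 1, 8), ((10, 7, 9), 8, 1, 4)]
  Tc := [(0, 2, 5)]
  Td := [((0, 2), (0, 1), 6), ((0, 2), (0, 7), 1), ((0, 2), (3, 4), 7), ((0, 2), (3, 5), 3), ((0,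
    5), (0, 1), 6), ((0, 5), (0, 7), 1), ((0, 5), (3, 4), 7), ((0, 5), (3, 5), 3), ((2, 0),
    (2, 1), 6), ((2, 0), (2, 4), 7), ((5, 0), (8, 5), 3), ((5, 0), (8, 6), 1)]
  G := [[0, 0, 0xc291448241d1a651c25c18c2275186351c291c68e, 0x25c1a391c142751b251c18c,
    0x25c12591c122591a351c12a], [0, 0xc6a1a6c1618ca61a6c1a14c,
    0xd21d21c22d21d21c42d21d21c82e, 0xd2141d2181c121d21c1c2181cc, 0xd21c131c12496185a1c12a],
    [0, 0, 0x482d1c291c426ac1214d1c2225c1a391c84e, 0xa39a35546351c29b29c29dcc7253a9988c1,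
    0x635c25c25dc291c27529592b9c295ca21], [0, 0, 0xd218d214a2496182d2144685a145218c82184ce,
    0x819c234c5924cc49138d218cc1, 0xd21c592c48171c592ca21]]

noncomputable def n2691 : Ent := ⟨e2691, noF, [], [], [(8, 17, [6903326391201334775872065844685381424292761054348340378595029940707329, 0])]⟩

def c2691 : PLift (Cov.check n2691.C.D v2691 = true) := ⟨by decide +kernel⟩

def b2691 : PLift (entF (fidx ts) 400 2691 n2691 = true) := ⟨by decide +kernel⟩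

theorem g2691 : GoodF (fidx ts) 400 2691 := GoodF.ofV v2691 n2691 c2691.down b2691.down

/-- 4649445:2183/1 -/
noncomputable def e2692 : SCfg where
  D := {
    a := 7
    L := 10
    kp := 7
    inn := [(0, 1), (1, 0), (1, 2), (1, 3), (2, 1), (3, 1), (3, 4), (3, 5), (3, 6), (4, 3), (4, 6), (5,
      3), (6, 3), (6, 4)]
    mix := [(0, 0), (0, 1), (0, 2), (1, 0), (1, 2), (1, 3), (2, 2), (2, 3), (2, 4), (3, 0), (3, 3), (3,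
      5), (3, 6), (3, 7), (4, 5), (4, 8), (5, 5), (5, 6), (5, 9), (6, 3), (6, 4), (6, 8)]
    cl := [0, 5, 1, 0, 2, 0, 3, 6, 4, 7]
    chq := [(0, 1), (0, 3), (1, 0), (3, 0)]
    rng := [(0, 1), (0, 7), (1, 0), (1, 2), (2, 1), (2, 4), (3, 4), (4, 2), (4, 3), (4, 8), (5, 8), (5,
      9), (6, 7), (6, 9), (7, 0), (7, 6), (8, 4), (8, 5), (9, 5), (9, 6)]
    lev := [] }
  links := [[1, 7, 8, 9], [7, 0, 9, 2, 10, 3], [10, 1, 9, 11], [7, 1, 10, 6, 4, 12, 5, 13, 14], [12, 3,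
    6, 15], [13, 3, 12, 16], [15, 4, 3, 10, 11]]
  P := {
    a := 7
    N := 17
    nb := [898, 1677, 3586, 29938, 36936, 77832, 35864, 16651, 641, 2311, 2126, 34372, 98360, 81960,
      8328, 6224, 12320]
    tri := [(0, 1, 7), (0, 1, 9), (0, 7, 8), (0, 8, 9), (1, 2, 9), (1, 2, 10), (1, 3, 7), (1, 3, 10),
      (2, 9, 11), (2, 10, 11), (3, 4, 6), (3, 4, 12), (3, 5, 12), (3, 5, 13), (3, 6, 10), (3, 7,
      14), (3, 13, 14), (4, 6, 15), (4, 12, 15), (5, 12, 16), (5, 13, 16), (6, 10, 11), (6, 11,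
      15)]
    fin := [0, 0, 0, 0, 0, 0, 0, 0, 8, 9, 0, 11, 0, 13, 14, 15, 16]
    chd := [(0, 9), (0, 13)]
    steps := [(0, 1), (0, 2), (0, 3), (0, 4), (0, 5), (0, 7), (0, 10), (0, 6), (0, 12)] }
  rep := [0, 9, 11, 13, 15, 8, 14, 16]

noncomputable def v2692 : Cov.CovD where
  P := 3
  N := 5
  pl := [1, 4, 7, 8, 9]
  lev := [⟨[], [], [(0, 1)], [5], [(0, 0, [1, 3]), (2, 1, [0])]⟩,
    ⟨[], [(0, 0), (0, 1)], [(0, 0), (0, 1)], [], [(0, 0, [1, 3]), (2, 1, [0]), (3, 0, [1,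
      3])]⟩,
    ⟨[(0, 1)], [(0, 1), (1, 0), (1, 1)], [(0, 1)], [2], [(2, 1, [0]), (3, 0, [1, 3])]⟩,
    ⟨[(0, 1), (1, 2)], [(0, 0), (1, 0), (1, 1), (1, 3), (2, 0)], [(0, 0), (0, 3)], [6],
      [(0, 0, [1, 3]), (3, 0, [1, 3]), (5, 0, [1, 3]), (6, 3, [0])]⟩,
    ⟨[(1, 3)], [(3, 0), (3, 3)], [], [4], [(5, 0, [1, 3])]⟩,
    ⟨[(1, 3), (3, 4)], [(3, 0), (3, 3), (4, 0)], [(0, 3)], [7], [(5, 0, [1, 3]), (6, 3,
      [0])]⟩,
    ⟨[(1, 3), (3, 4), (3, 5)], [(1, 0), (2, 0), (3, 0), (3, 3), (4, 0)], [], [2, 4], [(3,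
      0, [1, 3])]⟩]
  Ta := [((0, 1), 0, 5), ((0, 7), 0, 6), ((3, 4), 0, 2), ((5, 8), 0, 4), ((5, 9), 0, 7)]
  Tb := [((0, 1, 7), 0, 5, 6), ((1, 0, 2), 5, 0, 1), ((2, 1, 4), 1, 5, 2), ((4, 2, 3), 2, 1, 0),
    ((4, 2, 8), 2, 1, 4), ((4, 3, 8), 2, 0, 4), ((5, 8, 9), 0, 4, 7), ((6, 7, 9), 3, 6, 7),
    ((7, 0, 6), 6, 0, 3), ((8, 4, 5), 4, 2, 0), ((9, 5, 6), 7, 0, 3)]
  Tc := [(0, 1, 3)]
  Td := [((0, 1), (0, 1), 5), ((0, 1), (0, 7), 6), ((0, 1), (3, 4), 2), ((0, 1), (5, 8), 4), ((0,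
    1), (5, 9), 7), ((0, 3), (0, 1), 5), ((0, 3), (0, 7), 6), ((0, 3), (3, 4), 2), ((0, 3),
    (5, 8), 4), ((0, 3), (5, 9), 7), ((1, 0), (2, 1), 5), ((1, 0), (2, 4), 2), ((3, 0), (6,
    7), 6), ((3, 0), (6, 9), 7)]
  G := [[0, 0x1141c8111a1111ce841141a41116a811816446c, 0, 0x115211321192e84113211921152e48c,
    0xaaae1a28e1611111c114a8c88522ae981611328d62128981481cc], [0,
    0x1111a1111a8141ce8441116111161141ae48c, 0x412168121a41816e481, 0x1c92441c321c52a8c1,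
    0xa12a8e58121a21aa8e5e841], [0, 0x4111a118161111ce8241116811168141ae48a, 0,
    0x599e282429cce645c9e284c1, 0x818e122ea288e121ec68118e222e688c1]]

noncomputable def n2692 : Ent := ⟨e2692, noF, [], [], []⟩

def c2692 : PLift (Cov.check n2692.C.D v2692 = true) := ⟨by decide +kernel⟩

def b2692 : PLift (entF (fidx ts) 400 2692 n2692 = true) := ⟨by decide +kernel⟩

theorem g2692 : GoodF (fidx ts) 400 2692 := GoodF.ofV v2692 n2692 c2692.down b2692.down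

/-- 4649445:2183 -/
noncomputable def e2693 : SCfg where
  D := {
    a := 7
    L := 11
    kp := 8
    inn := [(0, 1), (1, 0), (1, 2), (1, 3), (2, 1), (3, 1), (3, 4), (3, 5), (3, 6), (4, 3), (4, 6), (5,
      3), (6, 3), (6, 4)]
    mix := [(0, 0), (0, 1), (0, 2), (1, 0), (1, 2), (1, 3), (2, 2), (2, 3), (2, 4), (3, 0), (3, 3), (3,
      5), (3, 6), (3, 7), (4, 5), (4, 8), (5, 5), (5, 6), (5, 9), (6, 3), (6, 8), (6, 10)]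
    cl := [0, 4, 1, 0, 5, 0, 3, 6, 2, 7, 8]
    chq := [(0, 1), (0, 3), (1, 0), (3, 0)]
    rng := [(0, 1), (0, 7), (1, 0), (1, 2), (2, 1), (2, 4), (3, 4), (3, 10), (4, 2), (4, 3), (5, 8),
      (5, 9), (6, 7), (6, 9), (7, 0), (7, 6), (8, 5), (8, 10), (9, 5), (9, 6), (10, 3), (10, 8)]
    lev := [] }
  links := [[1, 7, 8, 9], [7, 0, 9, 2, 10, 3], [10, 1, 9, 11], [7, 1, 10, 6, 4, 12, 5, 13, 14], [12, 3,
    6, 15], [13, 3, 12, 16], [15, 4, 3, 10, 17]]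
  P := {
    a := 7
    N := 18
    nb := [898, 1677, 3586, 29938, 36936, 77832, 164888, 16651, 641, 2311, 133198, 1540, 98360, 81960,
      8328, 135248, 12320, 33856]
    tri := [(0, 1, 7), (0, 1, 9), (0, 7, 8), (0, 8, 9), (1, 2, 9), (1, 2, 10), (1, 3, 7), (1, 3, 10),
      (2, 9, 11), (2, 10, 11), (3, 4, 6), (3, 4, 12), (3, 5, 12), (3, 5, 13), (3, 6, 10), (3, 7,
      14), (3, 13, 14), (4, 6, 15), (4, 12, 15), (5, 12, 16), (5, 13, 16), (6, 10, 17), (6, 15,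
      17)]
    fin := [0, 0, 0, 0, 0, 0, 0, 0, 8, 9, 0, 11, 0, 13, 14, 15, 16, 17]
    chd := [(0, 9), (0, 13)]
    steps := [(0, 1), (0, 2), (0, 3), (0, 4), (0, 5), (0, 6), (0, 7), (0, 10), (0, 12)] }
  rep := [0, 9, 15, 13, 8, 11, 14, 16, 17]

noncomputable def v2693 : Cov.CovD where
  P := 3
  N := 6
  pl := [1, 4, 7, 8, 9, 10]
  lev := [⟨[], [], [(0, 1)], [4], [(0, 0, [1, 3]), (2, 1, [0])]⟩,
    ⟨[], [(0, 0), (0, 1)], [(0, 0), (0, 1)], [], [(0, 0, [1, 3]), (2, 1, [0]), (3, 0, [1,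
      3])]⟩,
    ⟨[(0, 1)], [(0, 1), (1, 0), (1, 1)], [(0, 1)], [5], [(2, 1, [0]), (3, 0, [1, 3])]⟩,
    ⟨[(0, 1), (1, 2)], [(0, 0), (1, 0), (1, 1), (1, 3), (2, 0)], [(0, 0), (0, 3)], [6],
      [(0, 0, [1, 3]), (3, 0, [1, 3]), (5, 0, [1, 3]), (6, 3, [0])]⟩,
    ⟨[(1, 3)], [(3, 0), (3, 3)], [], [2], [(5, 0, [1, 3])]⟩,
    ⟨[(1, 3), (3, 4)], [(3, 0), (3, 3), (4, 0)], [(0, 3)], [7], [(5, 0, [1, 3]), (6, 3,
      [0])]⟩,
    ⟨[(1, 3), (3, 4), (3, 5)], [(1, 0), (2, 0), (3, 0), (3, 3), (4, 0)], [], [2, 8], [(3,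
      0, [1, 3])]⟩]
  Ta := [((0, 1), 0, 4), ((0, 7), 0, 6), ((3, 4), 0, 5), ((3, 10), 0, 8), ((5, 8), 0, 2), ((5,
    9), 0, 7)]
  Tb := [((0, 1, 7), 0, 4, 6), ((1, 0, 2), 4, 0, 1), ((2, 1, 4), 1, 4, 5), ((3, 4, 10), 0, 5, 8),
    ((4, 2, 3), 5, 1, 0), ((5, 8, 9), 0, 2, 7), ((6, 7, 9), 3, 6, 7), ((7, 0, 6), 6, 0, 3),
    ((8, 5, 10), 2, 0, 8), ((9, 5, 6), 7, 0, 3), ((10, 3, 8), 8, 0, 2)]
  Tc := [(0, 1, 3)]
  Td := [((0, 1), (0, 1), 4), ((0, 1), (0, 7), 6), ((0, 1), (3, 4), 5), ((0, 1), (3, 10), 8),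
    ((0, 1), (5, 8), 2), ((0, 1), (5, 9), 7), ((0, 3), (0, 1), 4), ((0, 3), (0, 7), 6), ((0,
    3), (3, 4), 5), ((0, 3), (3, 10), 8), ((0, 3), (5, 8), 2), ((0, 3), (5, 9), 7), ((1, 0),
    (2, 1), 4), ((1, 0), (2, 4), 5), ((3, 0), (6, 7), 6), ((3, 0), (6, 9), 7)]
  G := [[0, 0x114118118e82114114114e48114118114e28e, 0,
    0xcc38c8c786148cd481c1134411384ccc54cc94a1cc, 0x2aad2a2ab88a38e14aaae121aa8e961a1281cc],
    [0, 0x114118118e4211848114118a8c114114118e28e, 0, 0x1c5841c581c986c1c94cc34acc348cc1,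
    0xaaae141a384c1a921a58a1a521a98acc1], [0, 0x118118114e24118118a1184c21184118118ac4e,
    0xaace2ccce4616c6e481c1, 0x111e84111e84c18481848cc64ccce8adc1,
    0xaaae2aac861111e2128a111e2128acc1]]

noncomputable def n2693 : Ent := ⟨e2693, noF, [], [], [(11, 17, [6903326391201334775872065844685381424292761054348340378595029940715521, 0])]⟩

def c2693 : PLift (Cov.check n2693.C.D v2693 = true) := ⟨by decide +kernel⟩

def b2693 : PLift (entF (fidx ts) 400 2693 n2693 = true) := ⟨by decide +kernel⟩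

theorem g2693 : GoodF (fidx ts) 400 2693 := GoodF.ofV v2693 n2693 c2693.down b2693.down

/-- 4649446:2184 -/
noncomputable def e2694 : SCfg where
  D := {
    a := 7
    L := 11
    kp := 8
    inn := [(0, 1), (1, 0), (1, 2), (1, 3), (2, 1), (3, 1), (3, 4), (3, 5), (3, 6), (4, 3), (4, 6), (5,
      3), (5, 6), (6, 3), (6, 4), (6, 5)]
    mix := [(0, 0), (0, 1), (0, 2), (1, 0), (1, 2), (1, 3), (2, 2), (2, 3), (2, 4), (3, 0), (3, 3), (3,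
      5), (3, 6), (3, 7), (4, 5), (4, 8), (5, 6), (5, 9), (6, 8), (6, 9), (6, 10)]
    cl := [0, 6, 2, 0, 7, 1, 1, 8, 3, 4, 5]
    chq := [(0, 2), (1, 5), (2, 0), (5, 1)]
    rng := [(0, 1), (0, 7), (1, 0), (1, 2), (2, 1), (2, 4), (3, 4), (3, 5), (4, 2), (4, 3), (5, 3), (5,
      8), (6, 7), (6, 9), (7, 0), (7, 6), (8, 5), (8, 10), (9, 6), (9, 10), (10, 8), (10, 9)]
    lev := [] }
  links := [[1, 7, 8, 9], [7, 0, 9, 2, 10, 3], [10, 1, 9, 11], [7, 1, 10, 12, 4, 6, 5, 13, 14], [6, 3,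
    12, 15], [13, 3, 6, 16], [16, 5, 3, 4, 15, 17]]
  P := {
    a := 7
    N := 18
    nb := [898, 1677, 3586, 29938, 36936, 73800, 229432, 16651, 641, 2311, 6158, 1540, 33816, 81960,
      8328, 135248, 139360, 98368]
    tri := [(0, 1, 7), (0, 1, 9), (0, 7, 8), (0, 8, 9), (1, 2, 9), (1, 2, 10), (1, 3, 7), (1, 3, 10),
      (2, 9, 11), (2, 10, 11), (3, 4, 6), (3, 4, 12), (3, 5, 6), (3, 5, 13), (3, 7, 14), (3, 10,
      12), (3, 13, 14), (4, 6, 15), (4, 12, 15), (5, 6, 16), (5, 13, 16), (6, 15, 17), (6, 16,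
      17)]
    fin := [0, 0, 0, 0, 4, 4, 4, 0, 8, 9, 0, 11, 4, 4, 14, 15, 16, 17]
    chd := [(0, 9), (4, 17)]
    steps := [(0, 1), (0, 2), (0, 3), (0, 7), (0, 10), (4, 6), (4, 5), (4, 12), (4, 13)] }
  rep := [0, 4, 9, 15, 16, 17, 8, 11, 14]

noncomputable def v2694 : Cov.CovD where
  P := 3
  N := 6
  pl := [1, 4, 7, 8, 9]
  lev := [⟨[], [], [(0, 2)], [6], [(0, 0, [2]), (2, 2, [0])]⟩,
    ⟨[], [(0, 0), (0, 2)], [(0, 0), (0, 2)], [], [(0, 0, [2]), (2, 2, [0]), (3, 0, [2])]⟩,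
    ⟨[(0, 1)], [(0, 2), (1, 0), (1, 2)], [(0, 2)], [7], [(2, 2, [0]), (3, 0, [2])]⟩,
    ⟨[(0, 1), (1, 2)], [(0, 0), (1, 0), (1, 1), (1, 2), (2, 0)], [(0, 0), (0, 1), (1, 1)],
      [8], [(0, 0, [2]), (3, 0, [2]), (5, 1, [5]), (6, 1, [5])]⟩,
    ⟨[(1, 3)], [(3, 0), (3, 1)], [], [3], [(5, 1, [5])]⟩,
    ⟨[(1, 3), (3, 4)], [(3, 0), (3, 1)], [], [4], [(6, 1, [5])]⟩,
    ⟨[(1, 3), (3, 4), (3, 5), (4, 5)], [(3, 0), (3, 1), (3, 5), (4, 1), (4, 5), (5, 1), (5,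
      5)], [], [3, 4], [(10, 5, [1])]⟩]
  Ta := [((0, 1), 0, 6), ((0, 7), 0, 8), ((3, 4), 0, 7), ((3, 5), 0, 1), ((5, 3), 1, 0), ((5, 8),
    1, 3), ((6, 7), 1, 8), ((6, 9), 1, 4)]
  Tb := [((0, 1, 7), 0, 6, 8), ((1, 0, 2), 6, 0, 2), ((2, 1, 4), 2, 6, 7), ((3, 4, 5), 0, 7, 1),
    ((4, 2, 3), 7, 2, 0), ((5, 3, 8), 1, 0, 3), ((6, 7, 9), 1, 8, 4), ((7, 0, 6), 8, 0, 1),
    ((8, 5, 10), 3, 1, 5), ((9, 6, 10), 4, 1, 5), ((10, 8, 9), 5, 3, 4)]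
  Tc := []
  Td := [((0, 2), (0, 1), 6), ((0, 2), (0, 7), 8), ((0, 2), (3, 4), 7), ((0, 2), (3, 5), 1), ((1,
    5), (5, 3), 0), ((1, 5), (5, 8), 3), ((1, 5), (6, 7), 8), ((1, 5), (6, 9), 4), ((2, 0),
    (2, 1), 6), ((2, 0), (2, 4), 7), ((5, 1), (10, 8), 3), ((5, 1), (10, 9), 4)]
  G := [[0, 0, 0x281421d228d292b8ca4d2322958c33249442229c4e224d29431225521a425ccc2484ce,
    0x2292d65412428d2d81cd232299412252da981cc, 0x2252dacc2325a9c12d2322952252da9c12a], [0, 0,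
    0x225d128b229d86c72c14a22428d1e2e58c42215128b422524524229499ec6d1282ce,
    0x482412428d1e2198229bc1c2428d1e412428d1e81cc, 0x245a1f8d4121d428b81a2428d1e2428d1ec12a],
    [0, 0x121814e121814e61164116211c8ec81,
    0x28696582d274282b289c65214262258c23221e9c822428d2d44d232858c2329658ace,
    0x2d6229c42121275c2325a9cc2428d2d8c248cc1, 0x2252da9c23221e9c2252dac2d6229cca21], [0, 0,
    0x21c1528b2428859ec21d428b2428859ec622462991e21d8247c22528d4e2852851ecc26,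
    0x8254823cb421112257a252851ecc2428d1e8c428cc1, 0x2428d1e482d63c9c21d428b2e572c9ca21]]

noncomputable def n2694 : Ent := ⟨e2694, noF, [], [], []⟩

def c2694 : PLift (Cov.check n2694.C.D v2694 = true) := ⟨by decide +kernel⟩

def b2694 : PLift (entF (fidx ts) 400 2694 n2694 = true) := ⟨by decide +kernel⟩

theorem g2694 : GoodF (fidx ts) 400 2694 := GoodF.ofV v2694 n2694 c2694.down b2694.down

/-- 4649445:2185/1 -/
noncomputable def e2695 : SCfg where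
  D := {
    a := 7
    L := 10
    kp := 7
    inn := [(0, 1), (1, 0), (1, 2), (1, 3), (2, 1), (3, 1), (3, 4), (3, 5), (3, 6), (4, 3), (5, 3), (5,
      6), (6, 3), (6, 5)]
    mix := [(0, 0), (0, 1), (0, 2), (1, 0), (1, 2), (1, 3), (2, 2), (2, 3), (2, 4), (3, 0), (3, 3), (3,
      5), (3, 6), (3, 7), (4, 5), (4, 6), (4, 8), (5, 7), (5, 9), (6, 0), (6, 1), (6, 9)]
    cl := [0, 3, 1, 0, 6, 2, 0, 4, 7, 5]
    chq := [(0, 1), (1, 0), (3, 4), (4, 3)]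
    rng := [(0, 1), (1, 0), (1, 2), (1, 9), (2, 1), (2, 4), (3, 4), (3, 5), (4, 2), (4, 3), (5, 3), (5,
      8), (6, 7), (6, 8), (7, 6), (7, 9), (8, 5), (8, 6), (9, 1), (9, 7)]
    lev := [] }
  links := [[1, 7, 8, 9], [7, 0, 9, 2, 10, 3], [10, 1, 9, 11], [7, 1, 10, 12, 4, 13, 14, 5, 6], [13, 3,
    12, 15], [6, 3, 14, 16], [7, 3, 5, 16, 8]]
  P := {
    a := 7
    N := 17
    nb := [898, 1677, 3586, 29938, 45064, 81992, 65960, 331, 66241, 2311, 6158, 1540, 33816, 49176,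
      73768, 12304, 16736]
    tri := [(0, 1, 7), (0, 1, 9), (0, 7, 8), (0, 8, 9), (1, 2, 9), (1, 2, 10), (1, 3, 7), (1, 3, 10),
      (2, 9, 11), (2, 10, 11), (3, 4, 12), (3, 4, 13), (3, 5, 6), (3, 5, 14), (3, 6, 7), (3, 10,
      12), (3, 13, 14), (4, 12, 15), (4, 13, 15), (5, 6, 16), (5, 14, 16), (6, 7, 8), (6, 8, 16)]
    fin := [0, 0, 0, 0, 0, 5, 5, 0, 5, 9, 0, 11, 12, 0, 14, 15, 16]
    chd := [(0, 9), (5, 14)]
    steps := [(0, 1), (0, 2), (0, 3), (0, 4), (0, 7), (0, 10), (0, 13), (5, 6), (5, 8)] }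
  rep := [0, 9, 12, 5, 14, 16, 11, 15]

noncomputable def v2695 : Cov.CovD where
  P := 3
  N := 5
  pl := [4, 5, 8, 9]
  lev := [⟨[], [], [(0, 1), (0, 3), (1, 3)], [], [(0, 0, [1]), (1, 3, [4]), (2, 1, [0])]⟩,
    ⟨[], [(0, 0), (0, 1), (0, 3)], [(0, 0), (0, 1)], [], [(0, 0, [1]), (2, 1, [0]), (3, 0,
      [1])]⟩,
    ⟨[(0, 1)], [(0, 1), (1, 0), (1, 1)], [(0, 1)], [6], [(2, 1, [0]), (3, 0, [1])]⟩,
    ⟨[(0, 1), (1, 2)], [(0, 0), (1, 0), (1, 1), (1, 4), (2, 0)], [(0, 0), (0, 4)], [2],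
      [(0, 0, [1]), (3, 0, [1]), (6, 0, [1]), (7, 4, [3])]⟩,
    ⟨[(1, 3)], [(3, 0), (3, 4)], [], [2, 7], [(6, 0, [1])]⟩,
    ⟨[(1, 3), (3, 4)], [(3, 0), (3, 4)], [], [5], [(7, 4, [3])]⟩,
    ⟨[(1, 3), (3, 4), (3, 5)], [(0, 0), (0, 3), (1, 0), (3, 0), (3, 3), (3, 4), (5, 0), (5,
      3), (5, 4)], [(0, 3)], [5], [(0, 0, [1]), (1, 3, [4])]⟩]
  Ta := [((0, 1), 0, 3), ((3, 4), 0, 6), ((3, 5), 0, 2), ((6, 7), 0, 4), ((6, 8), 0, 7)]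
  Tb := [((1, 0, 2), 3, 0, 1), ((1, 0, 9), 3, 0, 5), ((1, 2, 9), 3, 1, 5), ((2, 1, 4), 1, 3, 6),
    ((3, 4, 5), 0, 6, 2), ((4, 2, 3), 6, 1, 0), ((5, 3, 8), 2, 0, 7), ((6, 7, 8), 0, 4, 7),
    ((7, 6, 9), 4, 0, 5), ((8, 5, 6), 7, 2, 0), ((9, 1, 7), 5, 3, 4)]
  Tc := []
  Td := [((0, 1), (0, 1), 3), ((0, 1), (3, 4), 6), ((0, 1), (3, 5), 2), ((0, 1), (6, 7), 4), ((0,
    1), (6, 8), 7), ((1, 0), (2, 1), 3), ((1, 0), (2, 4), 6), ((3, 4), (1, 0), 0), ((3, 4),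
    (1, 2), 1), ((3, 4), (1, 9), 5), ((4, 3), (7, 6), 0), ((4, 3), (7, 9), 5)]
  G := [[0, 0x98514382714c2549188146e1826c, 0, 0x88e714184a6b1814c, 0x82518e31a14244d1814c], [0,
    0x2ac714812714a2144e186c91862c, 0x68c656a18c28e3ce2e5c4676ca3ac5cac41,
    0x8e3144118e51cc6c91828a18cc1, 0x2e91ca31a2e91ac61ac41], [0,
    0x38a7142987146254918284b18a4c, 0, 0x1244156358c81c24544a68f8a8bcc185,
    0x1481d6198daa1462676c6da8149]]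

noncomputable def n2695 : Ent := ⟨e2695, noF, [], [], []⟩

def c2695 : PLift (Cov.check n2695.C.D v2695 = true) := ⟨by decide +kernel⟩

def b2695 : PLift (entF (fidx ts) 400 2695 n2695 = true) := ⟨by decide +kernel⟩

theorem g2695 : GoodF (fidx ts) 400 2695 := GoodF.ofV v2695 n2695 c2695.down b2695.down

/-- 4649445:2185 -/
noncomputable def e2696 : SCfg where
  D := {
    a := 7
    L := 11
    kp := 8
    inn := [(0, 1), (1, 0), (1, 2), (1, 3), (2, 1), (3, 1), (3, 4), (3, 5), (3, 6), (4, 3), (5, 3), (5,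
      6), (6, 3), (6, 5)]
    mix := [(0, 0), (0, 1), (0, 2), (1, 0), (1, 2), (1, 3), (2, 2), (2, 3), (2, 4), (3, 0), (3, 3), (3,
      5), (3, 6), (3, 7), (4, 5), (4, 6), (4, 8), (5, 7), (5, 9), (6, 0), (6, 9), (6, 10)]
    cl := [0, 6, 1, 0, 7, 2, 0, 3, 8, 4, 5]
    chq := [(0, 1), (1, 0), (3, 5), (5, 3)]
    rng := [(0, 1), (0, 10), (1, 0), (1, 2), (2, 1), (2, 4), (3, 4), (3, 5), (4, 2), (4, 3), (5, 3),
      (5, 8), (6, 7), (6, 8), (7, 6), (7, 9), (8, 5), (8, 6), (9, 7), (9, 10), (10, 0), (10, 9)]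
    lev := [] }
  links := [[1, 7, 8, 9], [7, 0, 9, 2, 10, 3], [10, 1, 9, 11], [7, 1, 10, 12, 4, 13, 14, 5, 6], [13, 3,
    12, 15], [6, 3, 14, 16], [7, 3, 5, 16, 17]]
  P := {
    a := 7
    N := 18
    nb := [898, 1677, 3586, 29938, 45064, 81992, 196776, 131403, 641, 2311, 6158, 1540, 33816, 49176,
      73768, 12304, 147552, 65728]
    tri := [(0, 1, 7), (0, 1, 9), (0, 7, 8), (0, 8, 9), (1, 2, 9), (1, 2, 10), (1, 3, 7), (1, 3, 10),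
      (2, 9, 11), (2, 10, 11), (3, 4, 12), (3, 4, 13), (3, 5, 6), (3, 5, 14), (3, 6, 7), (3, 10,
      12), (3, 13, 14), (4, 12, 15), (4, 13, 15), (5, 6, 16), (5, 14, 16), (6, 7, 17), (6, 16,
      17)]
    fin := [0, 0, 0, 0, 0, 5, 5, 0, 8, 9, 0, 11, 12, 0, 5, 15, 16, 17]
    chd := [(0, 9), (5, 17)]
    steps := [(0, 1), (0, 2), (0, 3), (0, 4), (0, 7), (0, 10), (0, 13), (5, 6), (5, 14)] }
  rep := [0, 9, 12, 5, 16, 17, 8, 11, 15]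

noncomputable def v2696 : Cov.CovD where
  P := 3
  N := 6
  pl := [1, 4, 5, 8, 9]
  lev := [⟨[], [], [(0, 1)], [6], [(0, 0, [1]), (2, 1, [0])]⟩,
    ⟨[], [(0, 0), (0, 1)], [(0, 0), (0, 1)], [], [(0, 0, [1]), (2, 1, [0]), (3, 0, [1])]⟩,
    ⟨[(0, 1)], [(0, 1), (1, 0), (1, 1)], [(0, 1)], [7], [(2, 1, [0]), (3, 0, [1])]⟩,
    ⟨[(0, 1), (1, 2)], [(0, 0), (1, 0), (1, 1), (1, 3), (2, 0)], [(0, 0), (0, 3)], [2],
      [(0, 0, [1]), (3, 0, [1]), (6, 0, [1]), (7, 3, [5])]⟩,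
    ⟨[(1, 3)], [(3, 0), (3, 3)], [], [2, 8], [(6, 0, [1])]⟩,
    ⟨[(1, 3), (3, 4)], [(3, 0), (3, 3)], [], [4], [(7, 3, [5])]⟩,
    ⟨[(1, 3), (3, 4), (3, 5)], [(0, 0), (1, 0), (3, 0), (3, 3), (3, 5), (5, 0), (5, 3), (5,
      5)], [(0, 5)], [4], [(0, 0, [1]), (10, 5, [3])]⟩]
  Ta := [((0, 1), 0, 6), ((0, 10), 0, 5), ((3, 4), 0, 7), ((3, 5), 0, 2), ((6, 7), 0, 3), ((6,
    8), 0, 8)]
  Tb := [((0, 1, 10), 0, 6, 5), ((1, 0, 2), 6, 0, 1), ((2, 1, 4), 1, 6, 7), ((3, 4, 5), 0, 7, 2),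
    ((4, 2, 3), 7, 1, 0), ((5, 3, 8), 2, 0, 8), ((6, 7, 8), 0, 3, 8), ((7, 6, 9), 3, 0, 4),
    ((8, 5, 6), 8, 2, 0), ((9, 7, 10), 4, 3, 5), ((10, 0, 9), 5, 0, 4)]
  Tc := []
  Td := [((0, 1), (0, 1), 6), ((0, 1), (0, 10), 5), ((0, 1), (3, 4), 7), ((0, 1), (3, 5), 2),
    ((0, 1), (6, 7), 3), ((0, 1), (6, 8), 8), ((1, 0), (2, 1), 6), ((1, 0), (2, 4), 7), ((3,
    5), (7, 6), 0), ((3, 5), (7, 9), 4), ((5, 3), (10, 0), 0), ((5, 3), (10, 9), 4)]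
  G := [[0, 0x34a184186148654919851c227491818614c2e, 0, 0xac6141a63181c6831416e9181cc,
    0x2e91ca31a142e51ac61a14c], [0, 0x524d18161c14a13861ca2749189a314654919861c866,
    0x6ac482d68e58e3ca6e96a96685218c5eac41, 0x8e5148e614c6c9184e918cc1,
    0x2e91e861a2e91ca31ac41], [0, 0x248714451a184c5431a1271c2834a19a31c84e, 0,
    0x41983c4112881c12983c4112881c444748edc88ab8c14d,
    0x148142a141422114881c2656acea2ace885aa14d]]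

noncomputable def n2696 : Ent := ⟨e2696, noF, [], [], [(8, 17, [6903326391201334775872065844685381424292761054348340378595029940727809, 0])]⟩

def c2696 : PLift (Cov.check n2696.C.D v2696 = true) := ⟨by decide +kernel⟩

def b2696 : PLift (entF (fidx ts) 400 2696 n2696 = true) := ⟨by decide +kernel⟩

theorem g2696 : GoodF (fidx ts) 400 2696 := GoodF.ofV v2696 n2696 c2696.down b2696.down

/-- 4596454:2187/1 -/
noncomputable def e2697 : SCfg where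
  D := {
    a := 7
    L := 10
    kp := 7
    inn := [(0, 1), (0, 2), (1, 0), (1, 2), (2, 0), (2, 1), (2, 3), (2, 4), (2, 5), (3, 2), (3, 4), (3,
      6), (4, 2), (4, 3), (5, 2), (6, 3)]
    mix := [(0, 0), (0, 1), (1, 1), (1, 2), (1, 3), (2, 0), (2, 3), (2, 4), (2, 5), (3, 4), (3, 6), (3,
      7), (4, 5), (4, 7), (5, 0), (5, 5), (5, 8), (5, 9), (6, 1), (6, 6), (6, 7)]
    cl := [0, 1, 5, 0, 2, 0, 4, 3, 6, 7]
    chq := [(1, 2), (2, 1), (2, 3), (3, 2)]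
    rng := [(0, 1), (0, 9), (1, 0), (1, 2), (1, 6), (1, 7), (2, 1), (2, 3), (3, 2), (3, 4), (4, 3), (4,
      6), (5, 7), (5, 8), (6, 1), (6, 4), (7, 1), (7, 5), (8, 5), (8, 9), (9, 0), (9, 8)]
    lev := [] }
  links := [[1, 2, 7, 8], [2, 0, 8, 9, 10], [7, 0, 1, 10, 11, 3, 4, 12, 5], [4, 2, 11, 13, 6, 14], [12,
    2, 3, 14], [7, 2, 12, 15, 16], [14, 3, 13, 8]]
  P := {
    a := 7
    N := 17
    nb := [390, 1797, 7355, 26708, 20492, 102532, 24840, 65829, 25283, 1282, 2566, 9228, 49204, 2376,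
      4440, 69664, 32928]
    tri := [(0, 1, 2), (0, 1, 8), (0, 2, 7), (0, 7, 8), (1, 2, 10), (1, 8, 9), (1, 9, 10), (2, 3, 4),
      (2, 3, 11), (2, 4, 12), (2, 5, 7), (2, 5, 12), (2, 10, 11), (3, 4, 14), (3, 6, 13), (3, 6,
      14), (3, 11, 13), (4, 12, 14), (5, 7, 16), (5, 12, 15), (5, 15, 16), (6, 8, 13), (6, 8, 14)]
    fin := [0, 0, 2, 3, 2, 0, 3, 0, 3, 9, 0, 2, 0, 13, 14, 15, 16]
    chd := [(2, 14), (3, 2)]
    steps := [(0, 1), (0, 7), (0, 5), (0, 10), (0, 12), (2, 4), (2, 11), (3, 6), (3, 8)] }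
  rep := [0, 3, 2, 14, 13, 9, 15, 16]

noncomputable def v2697 : Cov.CovD where
  P := 3
  N := 5
  pl := [2, 6, 8, 9]
  lev := [⟨[], [], [(0, 1)], [], [(0, 0, []), (1, 1, [2])]⟩,
    ⟨[], [(0, 0), (0, 1)], [(0, 1)], [5], [(1, 1, [2]), (3, 0, [])]⟩,
    ⟨[(0, 1)], [(0, 0), (0, 1), (0, 2), (1, 0), (1, 1), (1, 2)], [(0, 0), (0, 2)], [], [(0,
      0, []), (3, 0, []), (4, 2, [1, 3]), (5, 0, [])]⟩,
    ⟨[(0, 2), (1, 2)], [(2, 0), (2, 2), (2, 3)], [(2, 3)], [4], [(4, 2, [1, 3]), (7, 3,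
      [2])]⟩,
    ⟨[(0, 2), (1, 2), (2, 3)], [(2, 0), (2, 2), (2, 3), (3, 0), (3, 2), (3, 3)], [(0, 3)],
      [], [(5, 0, []), (7, 3, [2])]⟩,
    ⟨[(0, 2), (1, 2), (2, 3), (2, 4)], [(0, 0), (2, 0), (2, 2), (4, 0)], [(0, 0)], [6, 7],
      [(0, 0, []), (5, 0, [])]⟩,
    ⟨[(2, 3), (3, 4)], [(0, 1), (1, 1), (3, 1), (3, 2), (3, 3), (4, 3)], [(1, 3)], [4],
      [(1, 1, [2]), (7, 3, [2])]⟩]
  Ta := [((0, 1), 0, 1), ((0, 9), 0, 7), ((3, 2), 0, 5), ((3, 4), 0, 2), ((5, 7), 0, 3), ((5, 8),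
    0, 6)]
  Tb := [((0, 1, 9), 0, 1, 7), ((1, 0, 2), 1, 0, 5), ((1, 0, 6), 1, 0, 4), ((1, 0, 7), 1, 0, 3),
    ((1, 2, 6), 1, 5, 4), ((1, 2, 7), 1, 5, 3), ((1, 6, 7), 1, 4, 3), ((2, 1, 3), 5, 1, 0),
    ((3, 2, 4), 0, 5, 2), ((4, 3, 6), 2, 0, 4), ((5, 7, 8), 0, 3, 6), ((6, 1, 4), 4, 1, 2),
    ((7, 1, 5), 3, 1, 0), ((8, 5, 9), 6, 0, 7), ((9, 0, 8), 7, 0, 6)]
  Tc := [(2, 1, 3)]
  Td := [((1, 2), (1, 0), 0), ((1, 2), (1, 2), 5), ((1, 2), (1, 6), 4), ((1, 2), (1, 7), 3), ((2,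
    1), (4, 3), 0), ((2, 1), (4, 6), 4), ((2, 3), (4, 3), 0), ((2, 3), (4, 6), 4), ((3, 2),
    (7, 1), 1), ((3, 2), (7, 5), 0)]
  G := [[0, 0x886e66ea14eeee214a8, 0, 0xddde12814, 0x4212444e844c1111e4ba18], [0, 0,
    0x811e1111e2a111e1461212181e1111e411c1e6c8, 0xddde12821,
    0x44612888e1481111e4ba444e2111e43888e18ac1], [0, 0, 0, 0x4442888e44ac111e23c12,
    0xc4ce22484e4111e49a14]]

noncomputable def n2697 : Ent := ⟨e2697, noF, [], [], []⟩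

def c2697 : PLift (Cov.check n2697.C.D v2697 = true) := ⟨by decide +kernel⟩

def b2697 : PLift (entF (fidx ts) 400 2697 n2697 = true) := ⟨by decide +kernel⟩

theorem g2697 : GoodF (fidx ts) 400 2697 := GoodF.ofV v2697 n2697 c2697.down b2697.down

/-- 4596454:2187/2 -/
noncomputable def e2698 : SCfg where
  D := {
    a := 7
    L := 10
    kp := 7
    inn := [(0, 1), (0, 2), (1, 0), (1, 2), (2, 0), (2, 1), (2, 3), (2, 4), (2, 5), (3, 2), (3, 4), (3,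
      6), (4, 2), (4, 3), (5, 2), (6, 3)]
    mix := [(0, 0), (0, 1), (1, 1), (1, 2), (1, 3), (2, 0), (2, 3), (2, 4), (2, 5), (3, 4), (3, 6), (3,
      7), (4, 5), (4, 7), (5, 0), (5, 5), (5, 8), (5, 9), (6, 2), (6, 6), (6, 7)]
    cl := [0, 2, 1, 0, 4, 0, 5, 3, 6, 7]
    chq := [(1, 4), (3, 4), (4, 1), (4, 3)]
    rng := [(0, 1), (0, 9), (1, 0), (1, 2), (2, 1), (2, 3), (2, 6), (2, 7), (3, 2), (3, 4), (4, 3), (4,
      6), (5, 7), (5, 8), (6, 2), (6, 4), (7, 2), (7, 5), (8, 5), (8, 9), (9, 0), (9, 8)]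
    lev := [] }
  links := [[1, 2, 7, 8], [2, 0, 8, 9, 10], [7, 0, 1, 10, 11, 3, 4, 12, 5], [4, 2, 11, 13, 6, 14], [12,
    2, 3, 14], [7, 2, 12, 15, 16], [14, 3, 13, 9]]
  P := {
    a := 7
    N := 17
    nb := [390, 1797, 7355, 26708, 20492, 102532, 25096, 65829, 643, 25922, 2566, 9228, 49204, 2632,
      4696, 69664, 32928]
    tri := [(0, 1, 2), (0, 1, 8), (0, 2, 7), (0, 7, 8), (1, 2, 10), (1, 8, 9), (1, 9, 10), (2, 3, 4),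
      (2, 3, 11), (2, 4, 12), (2, 5, 7), (2, 5, 12), (2, 10, 11), (3, 4, 14), (3, 6, 13), (3, 6,
      14), (3, 11, 13), (4, 12, 14), (5, 7, 16), (5, 12, 15), (5, 15, 16), (6, 9, 13), (6, 9, 14)]
    fin := [0, 0, 2, 3, 2, 0, 3, 0, 8, 3, 0, 2, 0, 13, 14, 15, 16]
    chd := [(2, 14), (3, 2)]
    steps := [(0, 1), (0, 7), (0, 5), (0, 10), (0, 12), (2, 4), (2, 11), (3, 6), (3, 9)] }
  rep := [0, 3, 8, 14, 2, 13, 15, 16]

noncomputable def v2698 : Cov.CovD where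
  P := 3
  N := 5
  pl := [1, 6, 8, 9]
  lev := [⟨[], [], [], [2], [(0, 0, [])]⟩,
    ⟨[], [(0, 0), (0, 1)], [(0, 1)], [2], [(2, 1, [4]), (3, 0, [])]⟩,
    ⟨[(0, 1)], [(0, 0), (0, 4), (1, 0), (1, 1), (1, 4)], [(0, 0), (0, 4)], [], [(0, 0, []),
      (3, 0, []), (4, 4, [1, 3]), (5, 0, [])]⟩,
    ⟨[(0, 2), (1, 2)], [(2, 0), (2, 3), (2, 4)], [(3, 4)], [5], [(4, 4, [1, 3]), (7, 3,
      [4])]⟩,
    ⟨[(0, 2), (1, 2), (2, 3)], [(2, 0), (2, 3), (2, 4), (3, 0), (3, 3), (3, 4)], [(0, 3)],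
      [], [(5, 0, []), (7, 3, [4])]⟩,
    ⟨[(0, 2), (1, 2), (2, 3), (2, 4)], [(0, 0), (2, 0), (2, 4), (4, 0)], [(0, 0)], [6, 7],
      [(0, 0, []), (5, 0, [])]⟩,
    ⟨[(2, 3), (3, 4)], [(1, 1), (3, 1), (3, 3), (3, 4), (4, 3)], [(1, 3)], [5], [(2, 1,
      [4]), (7, 3, [4])]⟩]
  Ta := [((0, 1), 0, 2), ((0, 9), 0, 7), ((3, 2), 0, 1), ((3, 4), 0, 4), ((5, 7), 0, 3), ((5, 8),
    0, 6)]
  Tb := [((0, 1, 9), 0, 2, 7), ((1, 0, 2), 2, 0, 1), ((2, 1, 3), 1, 2, 0), ((2, 1, 6), 1, 2, 5),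
    ((2, 1, 7), 1, 2, 3), ((2, 3, 6), 1, 0, 5), ((2, 3, 7), 1, 0, 3), ((2, 6, 7), 1, 5, 3),
    ((3, 2, 4), 0, 1, 4), ((4, 3, 6), 4, 0, 5), ((5, 7, 8), 0, 3, 6), ((6, 2, 4), 5, 1, 4),
    ((7, 2, 5), 3, 1, 0), ((8, 5, 9), 6, 0, 7), ((9, 0, 8), 7, 0, 6)]
  Tc := [(4, 1, 3)]
  Td := [((1, 4), (2, 1), 2), ((1, 4), (2, 3), 0), ((1, 4), (2, 6), 5), ((1, 4), (2, 7), 3), ((3,
    4), (7, 2), 1), ((3, 4), (7, 5), 0), ((4, 1), (4, 3), 0), ((4, 1), (4, 6), 5), ((4, 3),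
    (4, 3), 0), ((4, 3), (4, 6), 5)]
  G := [[0, 0, 0xc461289a12444e8484e148c1111e111ecfe84, 0x52128212ddc11283e14,
    0x456128212884e1484e1c8c1111e111ecfe18], [0, 0xeeee21eeee81a41, 0, 0x52129212ddc12e84,
    0x52128282888e1444e1ddc1111e111ecfe81], [0, 0, 0, 0xdd6229dde22d842e18,
    0x4d6428cde82884e4a88e4484111e111ecfe18]]

noncomputable def n2698 : Ent := ⟨e2698, noF, [], [], []⟩

def c2698 : PLift (Cov.check n2698.C.D v2698 = true) := ⟨by decide +kernel⟩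

def b2698 : PLift (entF (fidx ts) 400 2698 n2698 = true) := ⟨by decide +kernel⟩

theorem g2698 : GoodF (fidx ts) 400 2698 := GoodF.ofV v2698 n2698 c2698.down b2698.down

/-- 4596454:2187/3 -/
noncomputable def e2699 : SCfg where
  D := {
    a := 7
    L := 10
    kp := 7
    inn := [(0, 1), (0, 2), (1, 0), (1, 2), (2, 0), (2, 1), (2, 3), (2, 4), (2, 5), (3, 2), (3, 4), (3,
      6), (4, 2), (4, 3), (5, 2), (6, 3)]
    mix := [(0, 0), (0, 1), (1, 1), (1, 2), (1, 3), (2, 0), (2, 3), (2, 4), (2, 5), (3, 4), (3, 6), (3,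
      7), (4, 5), (4, 7), (5, 0), (5, 5), (5, 8), (5, 9), (6, 6), (6, 7), (6, 8)]
    cl := [0, 4, 6, 0, 1, 0, 5, 3, 2, 7]
    chq := [(1, 2), (1, 3), (2, 1), (3, 1)]
    rng := [(0, 1), (0, 9), (1, 0), (1, 2), (2, 1), (2, 3), (3, 2), (3, 4), (4, 3), (4, 6), (5, 7), (5,
      8), (6, 4), (6, 8), (7, 5), (7, 8), (8, 5), (8, 6), (8, 7), (8, 9), (9, 0), (9, 8)]
    lev := [] }
  links := [[1, 2, 7, 8], [2, 0, 8, 9, 10], [7, 0, 1, 10, 11, 3, 4, 12, 5], [4, 2, 11, 13, 6, 14], [12,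
    2, 3, 14], [7, 2, 12, 15, 16], [14, 3, 13, 15]]
  P := {
    a := 7
    N := 17
    nb := [390, 1797, 7355, 26708, 20492, 102532, 57352, 65829, 643, 1282, 2566, 9228, 49204, 34888,
      36952, 94304, 32928]
    tri := [(0, 1, 2), (0, 1, 8), (0, 2, 7), (0, 7, 8), (1, 2, 10), (1, 8, 9), (1, 9, 10), (2, 3, 4),
      (2, 3, 11), (2, 4, 12), (2, 5, 7), (2, 5, 12), (2, 10, 11), (3, 4, 14), (3, 6, 13), (3, 6,
      14), (3, 11, 13), (4, 12, 14), (5, 7, 16), (5, 12, 15), (5, 15, 16), (6, 13, 15), (6, 14,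
      15)]
    fin := [0, 0, 0, 3, 0, 0, 3, 0, 8, 9, 0, 3, 0, 13, 14, 15, 16]
    chd := [(3, 14), (3, 15)]
    steps := [(0, 1), (0, 2), (0, 4), (0, 5), (0, 7), (0, 10), (0, 12), (3, 6), (3, 11)] }
  rep := [0, 3, 15, 14, 8, 13, 9, 16]

noncomputable def v2699 : Cov.CovD where
  P := 3
  N := 5
  pl := [1, 2, 6, 9]
  lev := [⟨[], [], [], [4], [(0, 0, [])]⟩,
    ⟨[], [(0, 0)], [], [4, 6], [(3, 0, [])]⟩,
    ⟨[(0, 1)], [(0, 0), (0, 1), (1, 0), (1, 1)], [(0, 0), (0, 1)], [], [(0, 0, []), (3, 0,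
      []), (4, 1, [2, 3]), (5, 0, [])]⟩,
    ⟨[(0, 2), (1, 2)], [(2, 0), (2, 1), (2, 3)], [(1, 3)], [5], [(4, 1, [2, 3]), (7, 3,
      [1])]⟩,
    ⟨[(0, 2), (1, 2), (2, 3)], [(2, 0), (2, 1), (2, 3), (3, 0), (3, 1), (3, 3)], [(0, 3)],
      [], [(5, 0, []), (7, 3, [1])]⟩,
    ⟨[(0, 2), (1, 2), (2, 3), (2, 4)], [(0, 0), (2, 0), (2, 1), (2, 2), (4, 0)], [(0, 0),
      (0, 2)], [7], [(0, 0, []), (5, 0, []), (8, 2, [1])]⟩,
    ⟨[(2, 3), (3, 4)], [(3, 1), (3, 2), (3, 3), (4, 3), (5, 2)], [(2, 3)], [5], [(7, 3,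
      [1]), (8, 2, [1])]⟩]
  Ta := [((0, 1), 0, 4), ((0, 9), 0, 7), ((3, 2), 0, 6), ((3, 4), 0, 1), ((5, 7), 0, 3), ((5, 8),
    0, 2)]
  Tb := [((0, 1, 9), 0, 4, 7), ((1, 0, 2), 4, 0, 6), ((2, 1, 3), 6, 4, 0), ((3, 2, 4), 0, 6, 1),
    ((4, 3, 6), 1, 0, 5), ((5, 7, 8), 0, 3, 2), ((6, 4, 8), 5, 1, 2), ((7, 5, 8), 3, 0, 2),
    ((8, 5, 6), 2, 0, 5), ((8, 5, 7), 2, 0, 3), ((8, 5, 9), 2, 0, 7), ((8, 6, 7), 2, 5, 3),
    ((8, 6, 9), 2, 5, 7), ((8, 7, 9), 2, 3, 7), ((9, 0, 8), 7, 0, 2)]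
  Tc := [(1, 2, 3)]
  Td := [((1, 2), (4, 3), 0), ((1, 2), (4, 6), 5), ((1, 3), (4, 3), 0), ((1, 3), (4, 6), 5), ((2,
    1), (8, 5), 0), ((2, 1), (8, 6), 5), ((2, 1), (8, 7), 3), ((2, 1), (8, 9), 7), ((3, 1),
    (7, 5), 0), ((3, 1), (7, 8), 2)]
  G := [[0, 0, 0, 0x8242c122348d21284d21241e,
    0x82a122a111a2d422a811a294c22a448422a822a111a2d41e], [0,
    0x18c111c411c1e2814111c411c2e1888a411c1488c111c2ac2e, 0, 0x42925248252928d2124e1,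
    0x82a122a111a2d432a4488a121a29c88a122a111a2d4e1], [0, 0, 0xee6218184e6aa141a,
    0x9252c2418242c122381c, 0x22a4488a211a29c122a411a2588a28c16]]

noncomputable def n2699 : Ent := ⟨e2699, noF, [], [], []⟩

def c2699 : PLift (Cov.check n2699.C.D v2699 = true) := ⟨by decide +kernel⟩

def b2699 : PLift (entF (fidx ts) 400 2699 n2699 = true) := ⟨by decide +kernel⟩

theorem g2699 : GoodF (fidx ts) 400 2699 := GoodF.ofV v2699 n2699 c2699.down b2699.down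

/-- 4596454:2187/4 -/
noncomputable def e2700 : SCfg where
  D := {
    a := 7
    L := 10
    kp := 7
    inn := [(0, 1), (0, 2), (1, 0), (1, 2), (2, 0), (2, 1), (2, 3), (2, 4), (2, 5), (3, 2), (3, 4), (3,
      6), (4, 2), (4, 3), (5, 2), (6, 3)]
    mix := [(0, 0), (0, 1), (1, 1), (1, 2), (1, 3), (2, 0), (2, 3), (2, 4), (2, 5), (3, 4), (3, 6), (3,
      7), (4, 5), (4, 7), (5, 0), (5, 5), (5, 8), (5, 9), (6, 6), (6, 7), (6, 9)]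
    cl := [0, 4, 6, 0, 1, 0, 5, 3, 7, 2]
    chq := [(1, 2), (1, 3), (2, 1), (3, 1)]
    rng := [(0, 1), (0, 9), (1, 0), (1, 2), (2, 1), (2, 3), (3, 2), (3, 4), (4, 3), (4, 6), (5, 7), (5,
      8), (6, 4), (6, 9), (7, 5), (7, 9), (8, 5), (8, 9), (9, 0), (9, 6), (9, 7), (9, 8)]
    lev := [] }
  links := [[1, 2, 7, 8], [2, 0, 8, 9, 10], [7, 0, 1, 10, 11, 3, 4, 12, 5], [4, 2, 11, 13, 6, 14], [12,
    2, 3, 14], [7, 2, 12, 15, 16], [14, 3, 13, 16]]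
  P := {
    a := 7
    N := 17
    nb := [390, 1797, 7355, 26708, 20492, 102532, 90120, 65829, 643, 1282, 2566, 9228, 49204, 67656,
      69720, 69664, 57568]
    tri := [(0, 1, 2), (0, 1, 8), (0, 2, 7), (0, 7, 8), (1, 2, 10), (1, 8, 9), (1, 9, 10), (2, 3, 4),
      (2, 3, 11), (2, 4, 12), (2, 5, 7), (2, 5, 12), (2, 10, 11), (3, 4, 14), (3, 6, 13), (3, 6,
      14), (3, 11, 13), (4, 12, 14), (5, 7, 16), (5, 12, 15), (5, 15, 16), (6, 13, 16), (6, 14,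
      16)]
    fin := [0, 0, 0, 3, 0, 0, 3, 0, 8, 9, 0, 3, 0, 13, 14, 15, 16]
    chd := [(3, 14), (3, 16)]
    steps := [(0, 1), (0, 2), (0, 4), (0, 5), (0, 7), (0, 10), (0, 12), (3, 6), (3, 11)] }
  rep := [0, 3, 16, 14, 8, 13, 9, 15]

noncomputable def v2700 : Cov.CovD where
  P := 3
  N := 5
  pl := [1, 2, 6, 8]
  lev := [⟨[], [], [], [4], [(0, 0, [])]⟩,
    ⟨[], [(0, 0)], [], [4, 6], [(3, 0, [])]⟩,
    ⟨[(0, 1)], [(0, 0), (0, 1), (1, 0), (1, 1)], [(0, 0), (0, 1)], [], [(0, 0, []), (3, 0,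
      []), (4, 1, [2, 3]), (5, 0, [])]⟩,
    ⟨[(0, 2), (1, 2)], [(2, 0), (2, 1), (2, 3)], [(1, 3)], [5], [(4, 1, [2, 3]), (7, 3,
      [1])]⟩,
    ⟨[(0, 2), (1, 2), (2, 3)], [(2, 0), (2, 1), (2, 3), (3, 0), (3, 1), (3, 3)], [(0, 3)],
      [], [(5, 0, []), (7, 3, [1])]⟩,
    ⟨[(0, 2), (1, 2), (2, 3), (2, 4)], [(0, 0), (2, 0), (2, 1), (2, 2), (4, 0)], [(0, 0),
      (0, 2)], [7], [(0, 0, []), (5, 0, []), (9, 2, [1])]⟩,
    ⟨[(2, 3), (3, 4)], [(3, 1), (3, 2), (3, 3), (4, 3), (5, 2)], [(2, 3)], [5], [(7, 3,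
      [1]), (9, 2, [1])]⟩]
  Ta := [((0, 1), 0, 4), ((0, 9), 0, 2), ((3, 2), 0, 6), ((3, 4), 0, 1), ((5, 7), 0, 3), ((5, 8),
    0, 7)]
  Tb := [((0, 1, 9), 0, 4, 2), ((1, 0, 2), 4, 0, 6), ((2, 1, 3), 6, 4, 0), ((3, 2, 4), 0, 6, 1),
    ((4, 3, 6), 1, 0, 5), ((5, 7, 8), 0, 3, 7), ((6, 4, 9), 5, 1, 2), ((7, 5, 9), 3, 0, 2),
    ((8, 5, 9), 7, 0, 2), ((9, 0, 6), 2, 0, 5), ((9, 0, 7), 2, 0, 3), ((9, 0, 8), 2, 0, 7),
    ((9, 6, 7), 2, 5, 3), ((9, 6, 8), 2, 5, 7), ((9, 7, 8), 2, 3, 7)]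
  Tc := [(1, 2, 3)]
  Td := [((1, 2), (4, 3), 0), ((1, 2), (4, 6), 5), ((1, 3), (4, 3), 0), ((1, 3), (4, 6), 5), ((2,
    1), (9, 0), 0), ((2, 1), (9, 6), 5), ((2, 1), (9, 7), 3), ((2, 1), (9, 8), 7), ((3, 1),
    (7, 5), 0), ((3, 1), (7, 9), 2)]
  G := [[0, 0, 0xee62181aac66ac141a, 0xd2124d2128c82429122381a,
    0x88a222a111a2d4122a111a258422a88488a222a111a2d46e], [0,
    0x11c111c411c1e28141411c818111c1ec211c411c1611c88a4b, 0, 0xc2112234d2128d2128e1,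
    0x22a122a111a2d422a411a2582a18c22222a411a2d8818ce1], [0, 0, 0, 0x8242c1223419252c281a,
    0x22a4488a211a29c188a222a211a2d416]]

noncomputable def n2700 : Ent := ⟨e2700, noF, [], [], []⟩

def c2700 : PLift (Cov.check n2700.C.D v2700 = true) := ⟨by decide +kernel⟩

def b2700 : PLift (entF (fidx ts) 400 2700 n2700 = true) := ⟨by decide +kernel⟩

theorem g2700 : GoodF (fidx ts) 400 2700 := GoodF.ofV v2700 n2700 c2700.down b2700.down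

/-- 4596454:2187 -/
noncomputable def e2701 : SCfg where
  D := {
    a := 7
    L := 11
    kp := 8
    inn := [(0, 1), (0, 2), (1, 0), (1, 2), (2, 0), (2, 1), (2, 3), (2, 4), (2, 5), (3, 2), (3, 4), (3,
      6), (4, 2), (4, 3), (5, 2), (6, 3)]
    mix := [(0, 0), (0, 1), (1, 1), (1, 2), (1, 3), (2, 0), (2, 3), (2, 4), (2, 5), (3, 4), (3, 6), (3,
      7), (4, 5), (4, 7), (5, 0), (5, 5), (5, 8), (5, 9), (6, 6), (6, 7), (6, 10)]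
    cl := [0, 2, 6, 0, 1, 0, 4, 3, 7, 8, 5]
    chq := [(1, 3), (1, 5), (3, 1), (5, 1)]
    rng := [(0, 1), (0, 9), (1, 0), (1, 2), (2, 1), (2, 3), (3, 2), (3, 4), (4, 3), (4, 6), (5, 7), (5,
      8), (6, 4), (6, 10), (7, 5), (7, 10), (8, 5), (8, 9), (9, 0), (9, 8), (10, 6), (10, 7)]
    lev := [] }
  links := [[1, 2, 7, 8], [2, 0, 8, 9, 10], [7, 0, 1, 10, 11, 3, 4, 12, 5], [4, 2, 11, 13, 6, 14], [12,
    2, 3, 14], [7, 2, 12, 15, 16], [14, 3, 13, 17]]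
  P := {
    a := 7
    N := 18
    nb := [390, 1797, 7355, 26708, 20492, 102532, 155656, 65829, 643, 1282, 2566, 9228, 49204, 133192,
      135256, 69664, 32928, 24640]
    tri := [(0, 1, 2), (0, 1, 8), (0, 2, 7), (0, 7, 8), (1, 2, 10), (1, 8, 9), (1, 9, 10), (2, 3, 4),
      (2, 3, 11), (2, 4, 12), (2, 5, 7), (2, 5, 12), (2, 10, 11), (3, 4, 14), (3, 6, 13), (3, 6,
      14), (3, 11, 13), (4, 12, 14), (5, 7, 16), (5, 12, 15), (5, 15, 16), (6, 13, 17), (6, 14,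
      17)]
    fin := [0, 0, 0, 3, 0, 0, 3, 0, 8, 9, 0, 3, 0, 13, 14, 15, 16, 17]
    chd := [(3, 14), (3, 17)]
    steps := [(0, 1), (0, 2), (0, 4), (0, 5), (0, 7), (0, 10), (0, 12), (3, 6), (3, 11)] }
  rep := [0, 3, 8, 14, 13, 17, 9, 15, 16]

noncomputable def v2701 : Cov.CovD where
  P := 3
  N := 6
  pl := [1, 2, 6, 8, 9]
  lev := [⟨[], [], [], [2], [(0, 0, [])]⟩,
    ⟨[], [(0, 0)], [], [2, 6], [(3, 0, [])]⟩,
    ⟨[(0, 1)], [(0, 0), (0, 1), (1, 0), (1, 1)], [(0, 0), (0, 1)], [], [(0, 0, []), (3, 0,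
      []), (4, 1, [3, 5]), (5, 0, [])]⟩,
    ⟨[(0, 2), (1, 2)], [(2, 0), (2, 1), (2, 3)], [(1, 3)], [4], [(4, 1, [3, 5]), (7, 3,
      [1])]⟩,
    ⟨[(0, 2), (1, 2), (2, 3)], [(2, 0), (2, 1), (2, 3), (3, 0), (3, 1), (3, 3)], [(0, 3)],
      [], [(5, 0, []), (7, 3, [1])]⟩,
    ⟨[(0, 2), (1, 2), (2, 3), (2, 4)], [(0, 0), (2, 0), (2, 1), (4, 0)], [(0, 0)], [7, 8],
      [(0, 0, []), (5, 0, [])]⟩,
    ⟨[(2, 3), (3, 4)], [(3, 1), (3, 3), (3, 5), (4, 3)], [(3, 5)], [4], [(7, 3, [1]), (10,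
      5, [1])]⟩]
  Ta := [((0, 1), 0, 2), ((0, 9), 0, 8), ((3, 2), 0, 6), ((3, 4), 0, 1), ((5, 7), 0, 3), ((5, 8),
    0, 7)]
  Tb := [((0, 1, 9), 0, 2, 8), ((1, 0, 2), 2, 0, 6), ((2, 1, 3), 6, 2, 0), ((3, 2, 4), 0, 6, 1),
    ((4, 3, 6), 1, 0, 4), ((5, 7, 8), 0, 3, 7), ((6, 4, 10), 4, 1, 5), ((7, 5, 10), 3, 0, 5),
    ((8, 5, 9), 7, 0, 8), ((9, 0, 8), 8, 0, 7), ((10, 6, 7), 5, 4, 3)]
  Tc := [(1, 3, 5)]
  Td := [((1, 3), (4, 3), 0), ((1, 3), (4, 6), 4), ((1, 5), (4, 3), 0), ((1, 5), (4, 6), 4), ((3,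
    1), (7, 5), 0), ((3, 1), (7, 10), 5), ((5, 1), (10, 6), 4), ((5, 1), (10, 7), 3)]
  G := [[0, 0, 0xa81842261222e4fffe2d8242666e13bbe2d22a88ce4, 0x2424222e822a1fffe2dc18,
    0x2424222e822a1fffe2dc18], [0, 0x111e1111e1a111e1461222111e1111e111c1e6c8, 0,
    0x2264f225222e8281ffc2dc2261262e1b42da827fa29cc1,
    0x22644222e8282fffe2dc6261422ae2281fb7e2dca1], [0, 0, 0, 0x6422a2e47f7e2deea28c14,
    0xaa2e4466ce2aff7e29c12]]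

noncomputable def n2701 : Ent := ⟨e2701, noF, [], [], [(8, 17, [6903326391201334775872065844685381424292761054348340378595029940736001, 0]), (9, 17, [6903326391201334775872065844685381424292761054348340378595029940740097, 0]), (17, 15, [6903537015784671890245461680740748765157398844539141476817538562699265, 0]), (17, 16, [7334685537875745012586738086077695515070955365108989538292687704735745, 0])]⟩

def c2701 : PLift (Cov.check n2701.C.D v2701 = true) := ⟨by decide +kernel⟩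

def b2701 : PLift (entF (fidx ts) 400 2701 n2701 = true) := ⟨by decide +kernel⟩

theorem g2701 : GoodF (fidx ts) 400 2701 := GoodF.ofV v2701 n2701 c2701.down b2701.down

/-- 4649465:2189/1 -/
noncomputable def e2702 : SCfg where
  D := {
    a := 7
    L := 10
    kp := 7
    inn := [(0, 1), (0, 5), (1, 0), (1, 2), (1, 3), (1, 5), (2, 1), (3, 1), (3, 4), (3, 5), (3, 6), (4,
      3), (4, 6), (5, 0), (5, 1), (5, 3), (6, 3), (6, 4)]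
    mix := [(0, 0), (0, 1), (1, 1), (1, 2), (2, 1), (2, 2), (2, 3), (3, 2), (3, 4), (3, 5), (3, 6), (3,
      7), (4, 4), (4, 8), (5, 0), (5, 7), (5, 9), (6, 2), (6, 3), (6, 8)]
    cl := [3, 1, 0, 2, 0, 5, 6, 0, 4, 7]
    chq := [(0, 1), (0, 3), (1, 0), (3, 0)]
    rng := [(0, 1), (0, 9), (1, 0), (1, 3), (2, 3), (3, 1), (3, 2), (3, 8), (4, 5), (4, 8), (5, 4), (5,
      6), (6, 5), (6, 7), (7, 6), (7, 9), (8, 3), (8, 4), (9, 0), (9, 7)]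
    lev := [] }
  links := [[1, 5, 7, 8], [5, 0, 8, 2, 9, 3], [9, 1, 8, 10], [5, 1, 9, 6, 4, 11, 12, 13, 14], [11, 3, 6,
    15], [7, 0, 1, 3, 14, 16], [15, 4, 3, 9, 10]]
  P := {
    a := 7
    N := 17
    nb := [418, 813, 1794, 31346, 34888, 82059, 34328, 65825, 1159, 1102, 33604, 36888, 10248, 20488,
      73768, 3152, 16544]
    tri := [(0, 1, 5), (0, 1, 8), (0, 5, 7), (0, 7, 8), (1, 2, 8), (1, 2, 9), (1, 3, 5), (1, 3, 9), (2,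
      8, 10), (2, 9, 10), (3, 4, 6), (3, 4, 11), (3, 5, 14), (3, 6, 9), (3, 11, 12), (3, 12, 13),
      (3, 13, 14), (4, 6, 15), (4, 11, 15), (5, 7, 16), (5, 14, 16), (6, 9, 10), (6, 10, 15)]
    fin := [0, 0, 2, 3, 4, 0, 4, 0, 2, 3, 4, 3, 12, 13, 3, 15, 16]
    chd := [(0, 3), (2, 3)]
    steps := [(0, 1), (0, 5), (0, 7), (2, 8), (3, 9), (3, 11), (3, 14), (4, 6), (4, 10)] }
  rep := [3, 2, 4, 0, 15, 12, 13, 16]

noncomputable def v2702 : Cov.CovD where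
  P := 3
  N := 5
  pl := [3, 5, 6, 8, 9]
  lev := [⟨[], [], [(1, 3)], [], [(0, 3, [0]), (1, 1, [0])]⟩,
    ⟨[], [(0, 0), (0, 1), (0, 3)], [(0, 1)], [], [(1, 1, [0]), (2, 0, [1, 3])]⟩,
    ⟨[(0, 1)], [(0, 1), (1, 0), (1, 1)], [(0, 1)], [2], [(1, 1, [0]), (2, 0, [1, 3])]⟩,
    ⟨[(0, 1), (1, 2)], [(1, 0), (1, 1), (2, 0)], [(0, 0)], [5, 6], [(2, 0, [1, 3]), (4, 0,
      [1, 3]), (7, 0, [1, 3])]⟩,
    ⟨[(1, 3)], [(3, 0)], [], [4], [(4, 0, [1, 3])]⟩,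
    ⟨[(0, 1), (0, 3), (1, 2), (1, 3), (3, 4)], [(0, 0), (0, 1), (0, 3), (1, 0), (1, 1), (1,
      3), (3, 0), (3, 3)], [(0, 3)], [7], [(0, 3, [0]), (7, 0, [1, 3])]⟩,
    ⟨[(1, 3), (3, 4), (3, 5)], [(1, 0), (2, 0), (3, 0), (4, 0)], [], [2, 4], [(2, 0, [1,
      3])]⟩]
  Ta := [((2, 3), 0, 2), ((4, 5), 0, 5), ((4, 8), 0, 4), ((7, 6), 0, 6), ((7, 9), 0, 7)]
  Tb := [((0, 1, 9), 3, 1, 7), ((1, 0, 3), 1, 3, 2), ((3, 1, 2), 2, 1, 0), ((3, 1, 8), 2, 1, 4),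
    ((3, 2, 8), 2, 0, 4), ((4, 5, 8), 0, 5, 4), ((5, 4, 6), 5, 0, 6), ((6, 5, 7), 6, 5, 0),
    ((7, 6, 9), 0, 6, 7), ((8, 3, 4), 4, 2, 0), ((9, 0, 7), 7, 3, 0)]
  Tc := [(0, 1, 3)]
  Td := [((0, 1), (2, 3), 2), ((0, 1), (4, 5), 5), ((0, 1), (4, 8), 4), ((0, 1), (7, 6), 6), ((0,
    1), (7, 9), 7), ((0, 3), (2, 3), 2), ((0, 3), (4, 5), 5), ((0, 3), (4, 8), 4), ((0, 3),
    (7, 6), 6), ((0, 3), (7, 9), 7), ((1, 0), (1, 0), 3), ((1, 0), (1, 3), 2), ((3, 0), (0,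
    1), 1), ((3, 0), (0, 9), 7)]
  G := [[0, 0xc118111ac11e8211413c11c11e48a, 0xa11a11611e84812164611611ac8c,
    0x812884c1248842482c4aaccce1e44c8e188cd, 0xa11888214e84214288a4148aa612aa1aa8e1e8cd], [0,
    0xc1111116c11e821111a1111ac11e84a, 0, 0x59c24459ce2922824299cee8c1,
    0x84222ea41118e222e688a8288e111ece8c1], [0, 0x118134c118141cac4c118111cc11e82c, 0,
    0x1162111e211cc23e418288c1, 0xaa8e141182aae5222121e111ece8c1]]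

noncomputable def n2702 : Ent := ⟨e2702, noF, [], [], []⟩

def c2702 : PLift (Cov.check n2702.C.D v2702 = true) := ⟨by decide +kernel⟩

def b2702 : PLift (entF (fidx ts) 400 2702 n2702 = true) := ⟨by decide +kernel⟩

theorem g2702 : GoodF (fidx ts) 400 2702 := GoodF.ofV v2702 n2702 c2702.down b2702.down

/-- 4649465:2189 -/
noncomputable def e2703 : SCfg where
  D := {
    a := 7
    L := 11
    kp := 8
    inn := [(0, 1), (0, 5), (1, 0), (1, 2), (1, 3), (1, 5), (2, 1), (3, 1), (3, 4), (3, 5), (3, 6), (4,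
      3), (4, 6), (5, 0), (5, 1), (5, 3), (6, 3), (6, 4)]
    mix := [(0, 0), (0, 1), (1, 1), (1, 2), (2, 1), (2, 2), (2, 3), (3, 2), (3, 4), (3, 5), (3, 6), (3,
      7), (4, 4), (4, 8), (5, 0), (5, 7), (5, 9), (6, 2), (6, 8), (6, 10)]
    cl := [2, 1, 0, 5, 0, 6, 7, 0, 3, 4, 8]
    chq := [(0, 1), (1, 0), (1, 4), (4, 1)]
    rng := [(0, 1), (0, 9), (1, 0), (1, 3), (2, 3), (2, 10), (3, 1), (3, 2), (4, 5), (4, 8), (5, 4),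
      (5, 6), (6, 5), (6, 7), (7, 6), (7, 9), (8, 4), (8, 10), (9, 0), (9, 7), (10, 2), (10, 8)]
    lev := [] }
  links := [[1, 5, 7, 8], [5, 0, 8, 2, 9, 3], [9, 1, 8, 10], [5, 1, 9, 6, 4, 11, 12, 13, 14], [11, 3, 6,
    15], [7, 0, 1, 3, 14, 16], [15, 4, 3, 9, 17]]
  P := {
    a := 7
    N := 18
    nb := [418, 813, 1794, 31346, 34888, 82059, 164376, 65825, 1159, 132174, 772, 36888, 10248, 20488,
      73768, 133200, 16544, 33344]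
    tri := [(0, 1, 5), (0, 1, 8), (0, 5, 7), (0, 7, 8), (1, 2, 8), (1, 2, 9), (1, 3, 5), (1, 3, 9), (2,
      8, 10), (2, 9, 10), (3, 4, 6), (3, 4, 11), (3, 5, 14), (3, 6, 9), (3, 11, 12), (3, 12, 13),
      (3, 13, 14), (4, 6, 15), (4, 11, 15), (5, 7, 16), (5, 14, 16), (6, 9, 17), (6, 15, 17)]
    fin := [0, 1, 1, 3, 3, 1, 3, 0, 1, 3, 10, 3, 12, 13, 3, 15, 16, 17]
    chd := [(1, 3), (1, 16)]
    steps := [(0, 7), (1, 2), (1, 5), (1, 8), (3, 4), (3, 6), (3, 9), (3, 11), (3, 14)] }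
  rep := [3, 1, 0, 15, 16, 10, 12, 13, 17]

noncomputable def v2703 : Cov.CovD where
  P := 3
  N := 6
  pl := [0, 3, 5, 6, 8, 10]
  lev := [⟨[], [], [], [2], [(1, 1, [0, 4])]⟩,
    ⟨[], [(0, 0), (0, 1)], [(0, 1)], [], [(1, 1, [0, 4]), (2, 0, [1])]⟩,
    ⟨[(0, 1)], [(0, 1), (1, 0), (1, 1)], [(0, 1)], [5], [(1, 1, [0, 4]), (2, 0, [1])]⟩,
    ⟨[(0, 1), (1, 2)], [(1, 0), (1, 1), (2, 0)], [(0, 0)], [6, 7], [(2, 0, [1]), (4, 0,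
      [1]), (7, 0, [1])]⟩,
    ⟨[(1, 3)], [(3, 0)], [], [3], [(4, 0, [1])]⟩,
    ⟨[(0, 1), (0, 3), (1, 2), (1, 3), (3, 4)], [(0, 0), (0, 1), (0, 4), (1, 0), (1, 1), (1,
      4), (3, 0), (3, 4)], [(0, 4)], [2], [(7, 0, [1]), (9, 4, [1])]⟩,
    ⟨[(1, 3), (3, 4), (3, 5)], [(1, 0), (2, 0), (3, 0), (4, 0)], [], [3, 8], [(2, 0, [1])]⟩]
  Ta := [((2, 3), 0, 5), ((2, 10), 0, 8), ((4, 5), 0, 6), ((4, 8), 0, 3), ((7, 6), 0, 7), ((7,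
    9), 0, 4)]
  Tb := [((0, 1, 9), 2, 1, 4), ((1, 0, 3), 1, 2, 5), ((2, 3, 10), 0, 5, 8), ((3, 1, 2), 5, 1, 0),
    ((4, 5, 8), 0, 6, 3), ((5, 4, 6), 6, 0, 7), ((6, 5, 7), 7, 6, 0), ((7, 6, 9), 0, 7, 4),
    ((8, 4, 10), 3, 0, 8), ((9, 0, 7), 4, 2, 0), ((10, 2, 8), 8, 0, 3)]
  Tc := [(1, 0, 4)]
  Td := [((0, 1), (2, 3), 5), ((0, 1), (2, 10), 8), ((0, 1), (4, 5), 6), ((0, 1), (4, 8), 3),
    ((0, 1), (7, 6), 7), ((0, 1), (7, 9), 4), ((1, 0), (1, 0), 2), ((1, 0), (1, 3), 5), ((1,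
    4), (1, 0), 2), ((1, 4), (1, 3), 5), ((4, 1), (9, 0), 2), ((4, 1), (9, 7), 0)]
  G := [[0, 0x112112611116114114e11116118118ee84, 0xc262a64164e21a21eec1e42a25aca1acc421488c,
    0xe11e1164e1121813e11ee118cc411488c, 0xe1144e218221ae11e41a15e11acc4214889], [0,
    0x11222118112114e114114118e112118ce68, 0x42226c262aaac624ece18282681c4,
    0xc161aa161c614181e1e81c8, 0xc262aa161c61c1a2681c8], [0,
    0x1121111a114e118112a1141111a118ee48, 0xc2141c2a262222ece1e1c8,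
    0x1414a41414a44814d181868181868e41a81eec1edc1, 0x1212c21212c262182629e81ed82181c1]]

noncomputable def n2703 : Ent := ⟨e2703, noF, [], [], [(10, 17, [6903326391201334775872065844685381424292761054348340378595029940756481, 0])]⟩

def c2703 : PLift (Cov.check n2703.C.D v2703 = true) := ⟨by decide +kernel⟩

def b2703 : PLift (entF (fidx ts) 400 2703 n2703 = true) := ⟨by decide +kernel⟩

theorem g2703 : GoodF (fidx ts) 400 2703 := GoodF.ofV v2703 n2703 c2703.down b2703.down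

/-- 4596466:2190 -/
noncomputable def e2704 : SCfg where
  D := {
    a := 7
    L := 11
    kp := 10
    inn := [(0, 1), (0, 2), (1, 0), (1, 2), (1, 5), (2, 0), (2, 1), (2, 3), (2, 4), (2, 5), (2, 6), (3,
      2), (3, 4), (3, 6), (4, 2), (4, 3), (5, 1), (5, 2), (5, 6), (6, 2), (6, 3), (6, 5)]
    mix := [(0, 0), (0, 1), (1, 1), (1, 2), (2, 0), (2, 3), (2, 4), (3, 5), (3, 6), (3, 7), (4, 3), (4,
      7), (5, 2), (5, 8), (5, 9), (6, 5), (6, 9), (6, 10)]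
    cl := [3, 6, 0, 1, 7, 4, 8, 5, 9, 2, 10]
    chq := [(0, 1), (0, 2), (0, 3), (0, 7), (1, 0), (1, 2), (2, 0), (2, 1), (2, 4), (2, 5), (2, 8), (3,
      0), (4, 2), (5, 2), (7, 0), (8, 2)]
    rng := [(0, 1), (0, 4), (1, 0), (1, 2), (2, 1), (2, 8), (3, 4), (3, 7), (4, 0), (4, 3), (5, 6), (5,
      10), (6, 5), (6, 7), (7, 3), (7, 6), (8, 2), (8, 9), (9, 8), (9, 10), (10, 5), (10, 9)]
    lev := [] }
  links := [[1, 2, 7, 8], [2, 0, 8, 9, 5], [7, 0, 1, 5, 6, 3, 4, 10, 11], [4, 2, 6, 12, 13, 14], [10, 2,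
    3, 14], [6, 2, 1, 9, 15, 16], [12, 3, 2, 5, 16, 17]]
  P := {
    a := 7
    N := 18
    nb := [390, 805, 3323, 28756, 17420, 98886, 200748, 2309, 643, 33058, 18452, 1156, 139336, 20488,
      9240, 66080, 163936, 69696]
    tri := [(0, 1, 2), (0, 1, 8), (0, 2, 7), (0, 7, 8), (1, 2, 5), (1, 5, 9), (1, 8, 9), (2, 3, 4), (2,
      3, 6), (2, 4, 10), (2, 5, 6), (2, 7, 11), (2, 10, 11), (3, 4, 14), (3, 6, 12), (3, 12, 13),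
      (3, 13, 14), (4, 10, 14), (5, 6, 16), (5, 9, 15), (5, 15, 16), (6, 12, 17), (6, 16, 17)]
    fin := [0, 0, 2, 3, 3, 2, 3, 0, 8, 2, 10, 11, 12, 13, 14, 15, 3, 17]
    chd := [(0, 2), (2, 3), (2, 10), (2, 11), (10, 3), (12, 3), (13, 3), (14, 3)]
    steps := [(0, 1), (0, 7), (2, 5), (2, 9), (3, 4), (3, 6), (3, 16)] }
  rep := [2, 10, 3, 0, 12, 14, 8, 11, 13, 15, 17]

noncomputable def v2704 : Cov.CovD where
  P := 3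
  N := 8
  pl := [1, 8, 10]
  lev := [⟨[], [], [], [6], [(0, 3, [0])]⟩,
    ⟨[], [(0, 0), (0, 3)], [], [6], [(2, 0, [1, 2, 3, 7])]⟩,
    ⟨[(0, 1)], [(0, 1), (0, 3), (0, 7), (1, 0), (1, 1), (1, 3), (1, 7)], [(1, 3), (1, 7),
      (3, 7)], [], [(0, 3, [0]), (3, 1, [0, 2]), (4, 7, [0])]⟩,
    ⟨[(0, 2), (1, 2)], [(2, 1), (2, 3), (2, 4), (2, 5), (2, 7), (2, 8)], [(4, 5), (4, 8),
      (5, 8)], [], [(5, 4, [2]), (6, 8, [2]), (7, 5, [2])]⟩,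
    ⟨[(0, 2), (1, 2), (2, 3)], [(2, 1), (2, 3), (2, 5), (2, 7), (3, 1), (3, 4), (3, 5), (3,
      8)], [(1, 5)], [], [(3, 1, [0, 2]), (7, 5, [2])]⟩,
    ⟨[(0, 1), (0, 2), (1, 2), (2, 3), (2, 4)], [(1, 0), (1, 2), (2, 0), (2, 1), (2, 2), (2,
      3), (2, 7)], [(0, 2)], [9], [(2, 0, [1, 2, 3, 7]), (9, 2, [0, 1, 4, 5, 8])]⟩,
    ⟨[(0, 2), (1, 2), (1, 5), (2, 3), (2, 4), (2, 5), (3, 4), (3, 5)], [(2, 1), (2, 2), (2,
      3), (2, 4), (2, 7), (3, 2), (3, 4), (3, 5), (3, 8), (5, 0), (5, 2), (5, 4)], [(2, 4)],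
      [10], [(5, 4, [2]), (9, 2, [0, 1, 4, 5, 8])]⟩]
  Ta := []
  Tb := [((0, 1, 4), 3, 6, 7), ((1, 0, 2), 6, 3, 0), ((2, 1, 8), 0, 6, 9), ((3, 4, 7), 1, 7, 5),
    ((4, 0, 3), 7, 3, 1), ((5, 6, 10), 4, 8, 10), ((6, 5, 7), 8, 4, 5), ((7, 3, 6), 5, 1, 8),
    ((8, 2, 9), 9, 0, 2), ((9, 8, 10), 2, 9, 10), ((10, 5, 9), 10, 4, 2)]
  Tc := [(0, 1, 2), (0, 1, 3), (0, 1, 7), (0, 2, 3), (0, 2, 7), (0, 3, 7), (1, 0, 2), (2, 0, 1),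
    (2, 0, 4), (2, 0, 5), (2, 0, 8), (2, 1, 4), (2, 1, 5), (2, 1, 8), (2, 4, 5), (2, 4, 8),
    (2, 5, 8)]
  Td := [((0, 1), (2, 1), 6), ((0, 1), (2, 8), 9), ((0, 2), (2, 1), 6), ((0, 2), (2, 8), 9), ((0,
    3), (2, 1), 6), ((0, 3), (2, 8), 9), ((0, 7), (2, 1), 6), ((0, 7), (2, 8), 9), ((1, 0),
    (3, 4), 7), ((1, 0), (3, 7), 5), ((1, 2), (3, 4), 7), ((1, 2), (3, 7), 5), ((2, 0), (9,
    8), 9), ((2, 0), (9, 10), 10), ((2, 1), (9, 8), 9), ((2, 1), (9, 10), 10), ((2, 4), (9,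
    8), 9), ((2, 4), (9, 10), 10), ((2, 5), (9, 8), 9), ((2, 5), (9, 10), 10), ((2, 8), (9,
    8), 9), ((2, 8), (9, 10), 10), ((3, 0), (0, 1), 6), ((3, 0), (0, 4), 7), ((4, 2), (5, 6),
    8), ((4, 2), (5, 10), 10), ((5, 2), (7, 3), 1), ((5, 2), (7, 6), 8), ((7, 0), (4, 0), 3),
    ((7, 0), (4, 3), 1), ((8, 2), (6, 5), 4), ((8, 2), (6, 7), 5)]
  G := [[0,
    0x14512114d81911cd111cd111cd4f611cd121891211cd111cd23e11cd1211cd1241118d911cd111cd8dee1,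
    0xee6ee6c118eeaeeac114eeceecc112e,
    0xd2d2c218d2d2c214ddcddcc212121252121252c1212c2121292ccf,
    0xb8632a86d41484b8444a4d1c44a8aaa9baaaad4ca444a4f14b244244247192442451b4b8a4dc2c448471e414211a811a31a9a1111a118bcfc1218118bd42244941411ab945c11a11a911a99ac5a844def]]

noncomputable def n2704 : Ent := ⟨e2704, noF, [], [], []⟩

def c2704 : PLift (Cov.check n2704.C.D v2704 = true) := ⟨by decide +kernel⟩

def b2704 : PLift (entF (fidx ts) 400 2704 n2704 = true) := ⟨by decide +kernel⟩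

theorem g2704 : GoodF (fidx ts) 400 2704 := GoodF.ofV v2704 n2704 c2704.down b2704.down

/-- 4649454:2191/2 -/
noncomputable def e2705 : SCfg where
  D := {
    a := 7
    L := 9
    kp := 6
    inn := [(0, 1), (1, 0), (1, 2), (1, 3), (2, 1), (3, 1), (3, 4), (3, 5), (3, 6), (4, 3), (4, 5), (5,
      3), (5, 4), (6, 3)]
    mix := [(0, 0), (0, 1), (0, 2), (1, 0), (1, 2), (1, 3), (2, 2), (2, 3), (2, 4), (3, 0), (3, 3), (3,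
      5), (3, 6), (3, 7), (4, 5), (4, 8), (5, 3), (5, 4), (5, 8), (6, 0), (6, 1), (6, 7)]
    cl := [0, 1, 3, 0, 2, 0, 6, 4, 5]
    chq := [(0, 3), (0, 4), (3, 0), (4, 0)]
    rng := [(0, 1), (1, 0), (1, 2), (1, 7), (2, 1), (2, 4), (3, 4), (4, 2), (4, 3), (4, 8), (5, 6), (5,
      8), (6, 5), (6, 7), (7, 1), (7, 6), (8, 4), (8, 5)]
    lev := [] }
  links := [[1, 7, 8, 9], [7, 0, 9, 2, 10, 3], [10, 1, 9, 11], [7, 1, 10, 5, 4, 12, 13, 14, 6], [12, 3,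
    5, 15], [15, 4, 3, 10, 11], [7, 3, 14, 8]]
  P := {
    a := 7
    N := 16
    nb := [898, 1677, 3586, 29938, 36904, 35864, 16776, 331, 17089, 2311, 2094, 34340, 40984, 20488,
      8520, 6192]
    tri := [(0, 1, 7), (0, 1, 9), (0, 7, 8), (0, 8, 9), (1, 2, 9), (1, 2, 10), (1, 3, 7), (1, 3, 10),
      (2, 9, 11), (2, 10, 11), (3, 4, 5), (3, 4, 12), (3, 5, 10), (3, 6, 7), (3, 6, 14), (3, 12,
      13), (3, 13, 14), (4, 5, 15), (4, 12, 15), (5, 10, 11), (5, 11, 15), (6, 7, 8), (6, 8, 14)]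
    fin := [0, 0, 0, 0, 0, 0, 0, 0, 8, 9, 0, 11, 0, 13, 14, 15]
    chd := [(0, 9), (0, 14)]
    steps := [(0, 1), (0, 2), (0, 3), (0, 4), (0, 7), (0, 6), (0, 10), (0, 5), (0, 12)] }
  rep := [0, 8, 11, 9, 14, 15, 13]

noncomputable def v2705 : Cov.CovD where
  P := 3
  N := 4
  pl := [1, 4, 6, 8]
  lev := [⟨[], [], [(0, 3)], [1], [(0, 0, [3, 4]), (2, 3, [0])]⟩,
    ⟨[], [(0, 0), (0, 3)], [(0, 0), (0, 3)], [], [(0, 0, [3, 4]), (2, 3, [0]), (3, 0, [3,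
      4])]⟩,
    ⟨[(0, 1)], [(0, 3), (1, 0), (1, 3)], [(0, 3)], [2], [(2, 3, [0]), (3, 0, [3, 4])]⟩,
    ⟨[(0, 1), (1, 2)], [(0, 0), (1, 0), (1, 3), (1, 4), (2, 0)], [(0, 0), (0, 4)], [6],
      [(0, 0, [3, 4]), (3, 0, [3, 4]), (5, 0, [3, 4]), (7, 4, [0])]⟩,
    ⟨[(1, 3)], [(3, 0), (3, 4)], [], [5], [(5, 0, [3, 4])]⟩,
    ⟨[(1, 3), (3, 4)], [(1, 0), (2, 0), (3, 0), (3, 4), (4, 0)], [], [2, 5], [(3, 0, [3,
      4])]⟩,
    ⟨[(1, 3), (3, 4), (3, 5)], [(0, 0), (1, 0), (3, 0), (3, 4)], [(0, 4)], [1], [(0, 0, [3,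
      4]), (7, 4, [0])]⟩]
  Ta := [((0, 1), 0, 1), ((3, 4), 0, 2), ((5, 6), 0, 6), ((5, 8), 0, 5)]
  Tb := [((1, 0, 2), 1, 0, 3), ((1, 0, 7), 1, 0, 4), ((1, 2, 7), 1, 3, 4), ((2, 1, 4), 3, 1, 2),
    ((4, 2, 3), 2, 3, 0), ((4, 2, 8), 2, 3, 5), ((4, 3, 8), 2, 0, 5), ((5, 6, 8), 0, 6, 5),
    ((6, 5, 7), 6, 0, 4), ((7, 1, 6), 4, 1, 6), ((8, 4, 5), 5, 2, 0)]
  Tc := [(0, 3, 4)]
  Td := [((0, 3), (0, 1), 1), ((0, 3), (3, 4), 2), ((0, 3), (5, 6), 6), ((0, 3), (5, 8), 5), ((0,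
    4), (0, 1), 1), ((0, 4), (3, 4), 2), ((0, 4), (5, 6), 6), ((0, 4), (5, 8), 5), ((3, 0),
    (2, 1), 1), ((3, 0), (2, 4), 2), ((4, 0), (7, 1), 1), ((4, 0), (7, 6), 6)]
  G := [[0, 0x22c12184124868c122c1a1c68c148a4ac12e, 0, 0x818164841accc1e828181641483ccc1e42c,
    0x4842941c118528148aa811868822cca1a981444a1c26c], [0, 0,
    0x44a14181292688861cca1a48482644a1c269, 0x18c141c15894ce8258c141c115c1e42c,
    0x58a111a1c818488618418129a24cca12848a144a1c2ad], [0, 0, 0,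
    0x812114c821181121814ce42844488c8c4ce12d, 0x1118624842a438182688a5882618c2ca14142a426c]]

noncomputable def n2705 : Ent := ⟨e2705, noF, [], [], []⟩

def c2705 : PLift (Cov.check n2705.C.D v2705 = true) := ⟨by decide +kernel⟩

def b2705 : PLift (entF (fidx ts) 400 2705 n2705 = true) := ⟨by decide +kernel⟩

theorem g2705 : GoodF (fidx ts) 400 2705 := GoodF.ofV v2705 n2705 c2705.down b2705.down

/-- 4649454:2191/1 -/
noncomputable def e2706 : SCfg where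
  D := {
    a := 7
    L := 10
    kp := 7
    inn := [(0, 1), (1, 0), (1, 2), (1, 3), (2, 1), (3, 1), (3, 4), (3, 5), (3, 6), (4, 3), (4, 5), (5,
      3), (5, 4), (6, 3)]
    mix := [(0, 0), (0, 1), (0, 2), (1, 0), (1, 2), (1, 3), (2, 2), (2, 3), (2, 4), (3, 0), (3, 3), (3,
      5), (3, 6), (3, 7), (4, 5), (4, 8), (5, 3), (5, 8), (5, 9), (6, 0), (6, 1), (6, 7)]
    cl := [0, 2, 1, 0, 5, 0, 6, 3, 4, 7]
    chq := [(0, 1), (0, 3), (1, 0), (3, 0)]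
    rng := [(0, 1), (1, 0), (1, 2), (1, 7), (2, 1), (2, 4), (3, 4), (3, 9), (4, 2), (4, 3), (5, 6), (5,
      8), (6, 5), (6, 7), (7, 1), (7, 6), (8, 5), (8, 9), (9, 3), (9, 8)]
    lev := [] }
  links := [[1, 7, 8, 9], [7, 0, 9, 2, 10, 3], [10, 1, 9, 11], [7, 1, 10, 5, 4, 12, 13, 14, 6], [12, 3,
    5, 15], [15, 4, 3, 10, 16], [7, 3, 14, 8]]
  P := {
    a := 7
    N := 17
    nb := [898, 1677, 3586, 29938, 36904, 99352, 16776, 331, 17089, 2311, 67630, 1540, 40984, 20488,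
      8520, 69680, 33824]
    tri := [(0, 1, 7), (0, 1, 9), (0, 7, 8), (0, 8, 9), (1, 2, 9), (1, 2, 10), (1, 3, 7), (1, 3, 10),
      (2, 9, 11), (2, 10, 11), (3, 4, 5), (3, 4, 12), (3, 5, 10), (3, 6, 7), (3, 6, 14), (3, 12,
      13), (3, 13, 14), (4, 5, 15), (4, 12, 15), (5, 10, 16), (5, 15, 16), (6, 7, 8), (6, 8, 14)]
    fin := [0, 0, 0, 0, 0, 0, 0, 0, 8, 9, 0, 11, 0, 13, 14, 15, 16]
    chd := [(0, 9), (0, 14)]
    steps := [(0, 1), (0, 2), (0, 3), (0, 4), (0, 5), (0, 7), (0, 6), (0, 10), (0, 12)] }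
  rep := [0, 9, 8, 14, 15, 11, 13, 16]

noncomputable def v2706 : Cov.CovD where
  P := 3
  N := 5
  pl := [1, 4, 6, 8, 9]
  lev := [⟨[], [], [(0, 1)], [2], [(0, 0, [1, 3]), (2, 1, [0])]⟩,
    ⟨[], [(0, 0), (0, 1)], [(0, 0), (0, 1)], [], [(0, 0, [1, 3]), (2, 1, [0]), (3, 0, [1,
      3])]⟩,
    ⟨[(0, 1)], [(0, 1), (1, 0), (1, 1)], [(0, 1)], [5], [(2, 1, [0]), (3, 0, [1, 3])]⟩,
    ⟨[(0, 1), (1, 2)], [(0, 0), (1, 0), (1, 1), (1, 3), (2, 0)], [(0, 0), (0, 3)], [6],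
      [(0, 0, [1, 3]), (3, 0, [1, 3]), (5, 0, [1, 3]), (7, 3, [0])]⟩,
    ⟨[(1, 3)], [(3, 0), (3, 3)], [], [4], [(5, 0, [1, 3])]⟩,
    ⟨[(1, 3), (3, 4)], [(1, 0), (2, 0), (3, 0), (3, 3), (4, 0)], [], [4, 7], [(3, 0, [1,
      3])]⟩,
    ⟨[(1, 3), (3, 4), (3, 5)], [(0, 0), (1, 0), (3, 0), (3, 3)], [(0, 3)], [2], [(0, 0, [1,
      3]), (7, 3, [0])]⟩]
  Ta := [((0, 1), 0, 2), ((3, 4), 0, 5), ((3, 9), 0, 7), ((5, 6), 0, 6), ((5, 8), 0, 4)]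
  Tb := [((1, 0, 2), 2, 0, 1), ((1, 0, 7), 2, 0, 3), ((1, 2, 7), 2, 1, 3), ((2, 1, 4), 1, 2, 5),
    ((3, 4, 9), 0, 5, 7), ((4, 2, 3), 5, 1, 0), ((5, 6, 8), 0, 6, 4), ((6, 5, 7), 6, 0, 3),
    ((7, 1, 6), 3, 2, 6), ((8, 5, 9), 4, 0, 7), ((9, 3, 8), 7, 0, 4)]
  Tc := [(0, 1, 3)]
  Td := [((0, 1), (0, 1), 2), ((0, 1), (3, 4), 5), ((0, 1), (3, 9), 7), ((0, 1), (5, 6), 6), ((0,
    1), (5, 8), 4), ((0, 3), (0, 1), 2), ((0, 3), (3, 4), 5), ((0, 3), (3, 9), 7), ((0, 3),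
    (5, 6), 6), ((0, 3), (5, 8), 4), ((1, 0), (2, 1), 2), ((1, 0), (2, 4), 5), ((3, 0), (7,
    1), 2), ((3, 0), (7, 6), 6)]
  G := [[0, 0x1121186112114112e114118114ee11888c4, 0x4a4e122ce161688e181c8,
    0x818168444141a44141a4c818168ccce129cc, 0x2121c2aaae145818162121ca818168cc8], [0,
    0x1181111a114e814112a8121111a118ee48, 0, 0x414e1999e164188e1922951e1e181e18cc41c1488c,
    0x381369221e164388e1188281412de188e18ccaa614889], [0,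
    0x1141146411816112118e1111c118112eac8, 0, 0x41c146a91a916c6118c18a681c8,
    0x1414a4118c18a69832a21a216ce1c8]]

noncomputable def n2706 : Ent := ⟨e2706, noF, [], [], [(11, 16, [1580044410770988437309982408355971841652082177953823432505700192257, 0])]⟩

def c2706 : PLift (Cov.check n2706.C.D v2706 = true) := ⟨by decide +kernel⟩

def b2706 : PLift (entF (fidx ts) 400 2706 n2706 = true) := ⟨by decide +kernel⟩

theorem g2706 : GoodF (fidx ts) 400 2706 := GoodF.ofV v2706 n2706 c2706.down b2706.down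

/-- 4649454:2191/3 -/
noncomputable def e2707 : SCfg where
  D := {
    a := 7
    L := 10
    kp := 7
    inn := [(0, 1), (1, 0), (1, 2), (1, 3), (2, 1), (3, 1), (3, 4), (3, 5), (3, 6), (4, 3), (4, 5), (5,
      3), (5, 4), (6, 3)]
    mix := [(0, 0), (0, 1), (0, 2), (1, 0), (1, 2), (1, 3), (2, 2), (2, 3), (2, 4), (3, 0), (3, 3), (3,
      5), (3, 6), (3, 7), (4, 5), (4, 8), (5, 3), (5, 4), (5, 8), (6, 0), (6, 7), (6, 9)]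
    cl := [0, 5, 1, 0, 2, 0, 6, 3, 4, 7]
    chq := [(0, 1), (0, 3), (1, 0), (3, 0)]
    rng := [(0, 1), (0, 9), (1, 0), (1, 2), (2, 1), (2, 4), (3, 4), (4, 2), (4, 3), (4, 8), (5, 6), (5,
      8), (6, 5), (6, 7), (7, 6), (7, 9), (8, 4), (8, 5), (9, 0), (9, 7)]
    lev := [] }
  links := [[1, 7, 8, 9], [7, 0, 9, 2, 10, 3], [10, 1, 9, 11], [7, 1, 10, 5, 4, 12, 13, 14, 6], [12, 3,
    5, 15], [15, 4, 3, 10, 11], [7, 3, 14, 16]]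
  P := {
    a := 7
    N := 17
    nb := [898, 1677, 3586, 29938, 36904, 35864, 82056, 65867, 641, 2311, 2094, 34340, 40984, 20488,
      73800, 6192, 16576]
    tri := [(0, 1, 7), (0, 1, 9), (0, 7, 8), (0, 8, 9), (1, 2, 9), (1, 2, 10), (1, 3, 7), (1, 3, 10),
      (2, 9, 11), (2, 10, 11), (3, 4, 5), (3, 4, 12), (3, 5, 10), (3, 6, 7), (3, 6, 14), (3, 12,
      13), (3, 13, 14), (4, 5, 15), (4, 12, 15), (5, 10, 11), (5, 11, 15), (6, 7, 16), (6, 14,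
      16)]
    fin := [0, 0, 0, 0, 0, 0, 0, 0, 8, 9, 0, 11, 0, 13, 14, 15, 16]
    chd := [(0, 9), (0, 14)]
    steps := [(0, 1), (0, 2), (0, 3), (0, 4), (0, 6), (0, 7), (0, 10), (0, 5), (0, 12)] }
  rep := [0, 9, 11, 14, 15, 8, 13, 16]

noncomputable def v2707 : Cov.CovD where
  P := 3
  N := 5
  pl := [1, 4, 6, 8, 9]
  lev := [⟨[], [], [(0, 1)], [5], [(0, 0, [1, 3]), (2, 1, [0])]⟩,
    ⟨[], [(0, 0), (0, 1)], [(0, 0), (0, 1)], [], [(0, 0, [1, 3]), (2, 1, [0]), (3, 0, [1,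
      3])]⟩,
    ⟨[(0, 1)], [(0, 1), (1, 0), (1, 1)], [(0, 1)], [2], [(2, 1, [0]), (3, 0, [1, 3])]⟩,
    ⟨[(0, 1), (1, 2)], [(0, 0), (1, 0), (1, 1), (1, 3), (2, 0)], [(0, 0), (0, 3)], [6],
      [(0, 0, [1, 3]), (3, 0, [1, 3]), (5, 0, [1, 3]), (7, 3, [0])]⟩,
    ⟨[(1, 3)], [(3, 0), (3, 3)], [], [4], [(5, 0, [1, 3])]⟩,
    ⟨[(1, 3), (3, 4)], [(1, 0), (2, 0), (3, 0), (3, 3), (4, 0)], [], [2, 4], [(3, 0, [1,
      3])]⟩,
    ⟨[(1, 3), (3, 4), (3, 5)], [(0, 0), (1, 0), (3, 0), (3, 3)], [(0, 3)], [7], [(0, 0, [1,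
      3]), (7, 3, [0])]⟩]
  Ta := [((0, 1), 0, 5), ((0, 9), 0, 7), ((3, 4), 0, 2), ((5, 6), 0, 6), ((5, 8), 0, 4)]
  Tb := [((0, 1, 9), 0, 5, 7), ((1, 0, 2), 5, 0, 1), ((2, 1, 4), 1, 5, 2), ((4, 2, 3), 2, 1, 0),
    ((4, 2, 8), 2, 1, 4), ((4, 3, 8), 2, 0, 4), ((5, 6, 8), 0, 6, 4), ((6, 5, 7), 6, 0, 3),
    ((7, 6, 9), 3, 6, 7), ((8, 4, 5), 4, 2, 0), ((9, 0, 7), 7, 0, 3)]
  Tc := [(0, 1, 3)]
  Td := [((0, 1), (0, 1), 5), ((0, 1), (0, 9), 7), ((0, 1), (3, 4), 2), ((0, 1), (5, 6), 6), ((0,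
    1), (5, 8), 4), ((0, 3), (0, 1), 5), ((0, 3), (0, 9), 7), ((0, 3), (3, 4), 2), ((0, 3),
    (5, 6), 6), ((0, 3), (5, 8), 4), ((1, 0), (2, 1), 5), ((1, 0), (2, 4), 2), ((3, 0), (7,
    6), 6), ((3, 0), (7, 9), 7)]
  G := [[0, 0x11c11111a11c1e8411c11118314185e84a, 0, 0xe122821c1e64e1288ce1244e1228c124ba8cc,
    0xeea141e1e25e1e1ca8ce1e2aa16ca568e1e2588cc], [0, 0x1114a1111611c1e421114311c11811ce48c,
    0x11a111a111a1e841161141856141268c8c, 0x11c14418188c11c14418288ce42a88eec1e84d,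
    0x181124a84181121a84eea148e22e88a8cd], [0, 0x111431114911185e8211c1111851111ce82c, 0,
    0xee92e1e4c64ee5284c1, 0xe8e1a48e1e26e8e1ca8c1]]

noncomputable def n2707 : Ent := ⟨e2707, noF, [], [], [(8, 16, [1580044410770988437309982408355971841652082177953823432505700192257, 0])]⟩

def c2707 : PLift (Cov.check n2707.C.D v2707 = true) := ⟨by decide +kernel⟩

def b2707 : PLift (entF (fidx ts) 400 2707 n2707 = true) := ⟨by decide +kernel⟩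

theorem g2707 : GoodF (fidx ts) 400 2707 := GoodF.ofV v2707 n2707 c2707.down b2707.down

/-- 4649454:2191 -/
noncomputable def e2708 : SCfg where
  D := {
    a := 7
    L := 11
    kp := 8
    inn := [(0, 1), (1, 0), (1, 2), (1, 3), (2, 1), (3, 1), (3, 4), (3, 5), (3, 6), (4, 3), (4, 5), (5,
      3), (5, 4), (6, 3)]
    mix := [(0, 0), (0, 1), (0, 2), (1, 0), (1, 2), (1, 3), (2, 2), (2, 3), (2, 4), (3, 0), (3, 3), (3,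
      5), (3, 6), (3, 7), (4, 5), (4, 8), (5, 3), (5, 8), (5, 9), (6, 0), (6, 7), (6, 10)]
    cl := [0, 6, 1, 0, 7, 0, 4, 3, 2, 8, 5]
    chq := [(0, 1), (1, 0), (4, 5), (5, 4)]
    rng := [(0, 1), (0, 10), (1, 0), (1, 2), (2, 1), (2, 4), (3, 4), (3, 9), (4, 2), (4, 3), (5, 6),
      (5, 8), (6, 5), (6, 7), (7, 6), (7, 10), (8, 5), (8, 9), (9, 3), (9, 8), (10, 0), (10, 7)]
    lev := [] }
  links := [[1, 7, 8, 9], [7, 0, 9, 2, 10, 3], [10, 1, 9, 11], [7, 1, 10, 5, 4, 12, 13, 14, 6], [12, 3,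
    5, 15], [15, 4, 3, 10, 16], [7, 3, 14, 17]]
  P := {
    a := 7
    N := 18
    nb := [898, 1677, 3586, 29938, 36904, 99352, 147592, 131403, 641, 2311, 67630, 1540, 40984, 20488,
      139336, 69680, 33824, 16576]
    tri := [(0, 1, 7), (0, 1, 9), (0, 7, 8), (0, 8, 9), (1, 2, 9), (1, 2, 10), (1, 3, 7), (1, 3, 10),
      (2, 9, 11), (2, 10, 11), (3, 4, 5), (3, 4, 12), (3, 5, 10), (3, 6, 7), (3, 6, 14), (3, 12,
      13), (3, 13, 14), (4, 5, 15), (4, 12, 15), (5, 10, 16), (5, 15, 16), (6, 7, 17), (6, 14,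
      17)]
    fin := [0, 0, 0, 3, 0, 0, 3, 0, 8, 9, 0, 11, 0, 3, 14, 15, 16, 17]
    chd := [(0, 9), (3, 17)]
    steps := [(0, 1), (0, 2), (0, 7), (0, 10), (0, 5), (0, 4), (0, 12), (3, 6), (3, 13)] }
  rep := [0, 9, 15, 14, 3, 17, 8, 11, 16]

noncomputable def v2708 : Cov.CovD where
  P := 3
  N := 6
  pl := [1, 4, 7, 8, 9]
  lev := [⟨[], [], [(0, 1)], [6], [(0, 0, [1]), (2, 1, [0])]⟩,
    ⟨[], [(0, 0), (0, 1)], [(0, 0), (0, 1)], [], [(0, 0, [1]), (2, 1, [0]), (3, 0, [1])]⟩,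
    ⟨[(0, 1)], [(0, 1), (1, 0), (1, 1)], [(0, 1)], [7], [(2, 1, [0]), (3, 0, [1])]⟩,
    ⟨[(0, 1), (1, 2)], [(0, 0), (1, 0), (1, 1), (1, 4), (2, 0)], [(0, 0), (0, 4)], [3],
      [(0, 0, [1]), (3, 0, [1]), (5, 0, [1]), (6, 4, [5])]⟩,
    ⟨[(1, 3)], [(3, 0), (3, 4)], [], [2], [(5, 0, [1])]⟩,
    ⟨[(1, 3), (3, 4)], [(1, 0), (2, 0), (3, 0), (3, 4), (4, 0)], [], [2, 8], [(3, 0, [1])]⟩,
    ⟨[(1, 3), (3, 4), (3, 5)], [(0, 0), (1, 0), (3, 0), (3, 4), (3, 5)], [(0, 5)], [3],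
      [(0, 0, [1]), (10, 5, [4])]⟩]
  Ta := [((0, 1), 0, 6), ((0, 10), 0, 5), ((3, 4), 0, 7), ((3, 9), 0, 8), ((5, 6), 0, 4), ((5,
    8), 0, 2)]
  Tb := [((0, 1, 10), 0, 6, 5), ((1, 0, 2), 6, 0, 1), ((2, 1, 4), 1, 6, 7), ((3, 4, 9), 0, 7, 8),
    ((4, 2, 3), 7, 1, 0), ((5, 6, 8), 0, 4, 2), ((6, 5, 7), 4, 0, 3), ((7, 6, 10), 3, 4, 5),
    ((8, 5, 9), 2, 0, 8), ((9, 3, 8), 8, 0, 2), ((10, 0, 7), 5, 0, 3)]
  Tc := []
  Td := [((0, 1), (0, 1), 6), ((0, 1), (0, 10), 5), ((0, 1), (3, 4), 7), ((0, 1), (3, 9), 8),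
    ((0, 1), (5, 6), 4), ((0, 1), (5, 8), 2), ((1, 0), (2, 1), 6), ((1, 0), (2, 4), 7), ((4,
    5), (6, 5), 0), ((4, 5), (6, 7), 3), ((5, 4), (10, 0), 0), ((5, 4), (10, 7), 3)]
  G := [[0, 0xa181146251482c114a14514e42314118c14e84e, 0,
    0xaac14166c4ccc1a1c644aac8ccc8e168481cc, 0x66a2aaa8cca1e14621aaa8cca8e168181cc], [0,
    0x1182514918ca21148318c146c2a185146114c18ac4e, 0, 0xaac14aac8ccc46c66c1ccc1a66c48cc1,
    0x621aaa8cca1e466a1aaa1cca1e6818cc1], [0, 0x114a18c5182a4c182114318ca8114318c18e48e,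
    0x6664aaa2ccc8e181, 0xaac8ccc86161486148cc1, 0x66a2aaa2cca8e141]]

noncomputable def n2708 : Ent := ⟨e2708, noF, [], [], [(8, 17, [6903326391201334775872065844685381424292761054348340378595029940772865, 0]), (11, 16, [7334685537875745012586738086077695515070955365108989538292687704764417, 0])]⟩

def c2708 : PLift (Cov.check n2708.C.D v2708 = true) := ⟨by decide +kernel⟩

def b2708 : PLift (entF (fidx ts) 400 2708 n2708 = true) := ⟨by decide +kernel⟩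

theorem g2708 : GoodF (fidx ts) 400 2708 := GoodF.ofV v2708 n2708 c2708.down b2708.down

/-- 4596444:2192/1 -/
noncomputable def e2709 : SCfg where
  D := {
    a := 7
    L := 9
    kp := 6
    inn := [(0, 1), (0, 2), (1, 0), (1, 2), (2, 0), (2, 1), (2, 3), (2, 4), (2, 5), (3, 2), (3, 5), (3,
      6), (4, 2), (5, 2), (5, 3), (6, 3)]
    mix := [(0, 0), (0, 1), (1, 1), (1, 2), (1, 3), (2, 0), (2, 3), (2, 4), (2, 5), (3, 4), (3, 6), (3,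
      7), (4, 4), (4, 5), (4, 8), (5, 3), (5, 6), (6, 1), (6, 6), (6, 7)]
    cl := [0, 1, 5, 0, 0, 2, 3, 4, 6]
    chq := [(3, 4), (4, 3)]
    rng := [(0, 1), (0, 5), (1, 0), (1, 2), (1, 6), (1, 7), (2, 1), (2, 3), (3, 2), (3, 6), (4, 7), (4,
      8), (5, 0), (5, 8), (6, 1), (6, 3), (7, 1), (7, 4), (8, 4), (8, 5)]
    lev := [] }
  links := [[1, 2, 7, 8], [2, 0, 8, 9, 10], [7, 0, 1, 10, 5, 3, 11, 4, 12], [11, 2, 5, 13, 6, 14], [12,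
    2, 11, 15], [13, 3, 2, 10], [14, 3, 13, 8]]
  P := {
    a := 7
    N := 16
    nb := [390, 1797, 7355, 26724, 38916, 9228, 24840, 4357, 25283, 1282, 8742, 49180, 32916, 1384,
      2376, 6160]
    tri := [(0, 1, 2), (0, 1, 8), (0, 2, 7), (0, 7, 8), (1, 2, 10), (1, 8, 9), (1, 9, 10), (2, 3, 5),
      (2, 3, 11), (2, 4, 11), (2, 4, 12), (2, 5, 10), (2, 7, 12), (3, 5, 13), (3, 6, 13), (3, 6,
      14), (3, 11, 14), (4, 11, 15), (4, 12, 15), (5, 10, 13), (6, 8, 13), (6, 8, 14)]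
    fin := [0, 0, 0, 0, 0, 0, 6, 0, 8, 9, 0, 0, 12, 6, 14, 15]
    chd := [(6, 14)]
    steps := [(0, 1), (0, 2), (0, 3), (0, 4), (0, 5), (0, 7), (0, 10), (0, 11), (6, 13)] }
  rep := [0, 8, 12, 6, 14, 9, 15]

noncomputable def v2709 : Cov.CovD where
  P := 3
  N := 4
  pl := [1, 2, 5, 8]
  lev := [⟨[], [], [], [1], [(0, 0, [])]⟩,
    ⟨[], [(0, 0)], [], [1, 5], [(3, 0, [])]⟩,
    ⟨[(0, 1)], [(0, 0), (1, 0)], [(0, 0)], [2], [(0, 0, []), (3, 0, []), (4, 0, [])]⟩,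
    ⟨[(0, 2), (1, 2)], [(2, 0), (2, 3), (2, 4)], [(0, 3), (0, 4), (3, 4)], [], [(4, 0, []),
      (6, 3, [4]), (7, 4, [3])]⟩,
    ⟨[(0, 2), (1, 2), (2, 3)], [(2, 0), (3, 0)], [], [2, 6], [(4, 0, [])]⟩,
    ⟨[(0, 2), (1, 2), (2, 3), (2, 4)], [(1, 0), (2, 0), (2, 3), (3, 0), (3, 3), (3, 4)],
      [(0, 3)], [], [(3, 0, []), (6, 3, [4])]⟩,
    ⟨[(2, 3), (3, 5)], [(3, 0), (3, 3), (3, 4), (5, 3)], [(3, 4)], [1], [(6, 3, [4]), (7,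
      4, [3])]⟩]
  Ta := [((0, 1), 0, 1), ((0, 5), 0, 2), ((3, 2), 0, 5), ((3, 6), 0, 3), ((4, 7), 0, 4), ((4, 8),
    0, 6)]
  Tb := [((0, 1, 5), 0, 1, 2), ((1, 0, 2), 1, 0, 5), ((1, 0, 6), 1, 0, 3), ((1, 0, 7), 1, 0, 4),
    ((1, 2, 6), 1, 5, 3), ((1, 2, 7), 1, 5, 4), ((1, 6, 7), 1, 3, 4), ((2, 1, 3), 5, 1, 0),
    ((3, 2, 6), 0, 5, 3), ((4, 7, 8), 0, 4, 6), ((5, 0, 8), 2, 0, 6), ((6, 1, 3), 3, 1, 0),
    ((7, 1, 4), 4, 1, 0), ((8, 4, 5), 6, 0, 2)]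
  Tc := []
  Td := [((3, 4), (6, 1), 1), ((3, 4), (6, 3), 0), ((4, 3), (7, 1), 1), ((4, 3), (7, 4), 0)]
  G := [[0, 0x4114811211ac4114811211ac62, 0x12126c8684ca3814, 0x1414181121ac14,
    0x1212181141ca14], [0, 0, 0, 0x141521618a18c116141c1921e8c4,
    0x141521618618a121218c11461cac4], [0, 0, 0, 0x18a4524a419494c4188d28ac1c,
    0x52d2a288618a1441caca14]]

noncomputable def n2709 : Ent := ⟨e2709, noF, [], [], []⟩

def c2709 : PLift (Cov.check n2709.C.D v2709 = true) := ⟨by decide +kernel⟩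

def b2709 : PLift (entF (fidx ts) 400 2709 n2709 = true) := ⟨by decide +kernel⟩

theorem g2709 : GoodF (fidx ts) 400 2709 := GoodF.ofV v2709 n2709 c2709.down b2709.down

/-- 4596444:2192/2 -/
noncomputable def e2710 : SCfg where
  D := {
    a := 7
    L := 9
    kp := 6
    inn := [(0, 1), (0, 2), (1, 0), (1, 2), (2, 0), (2, 1), (2, 3), (2, 4), (2, 5), (3, 2), (3, 5), (3,
      6), (4, 2), (5, 2), (5, 3), (6, 3)]
    mix := [(0, 0), (0, 1), (1, 1), (1, 2), (1, 3), (2, 0), (2, 3), (2, 4), (2, 5), (3, 4), (3, 6), (3,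
      7), (4, 4), (4, 5), (4, 8), (5, 3), (5, 6), (6, 2), (6, 6), (6, 7)]
    cl := [0, 1, 2, 0, 0, 5, 3, 4, 6]
    chq := [(3, 4), (4, 3)]
    rng := [(0, 1), (0, 5), (1, 0), (1, 2), (2, 1), (2, 3), (2, 6), (2, 7), (3, 2), (3, 6), (4, 7), (4,
      8), (5, 0), (5, 8), (6, 2), (6, 3), (7, 2), (7, 4), (8, 4), (8, 5)]
    lev := [] }
  links := [[1, 2, 7, 8], [2, 0, 8, 9, 10], [7, 0, 1, 10, 5, 3, 11, 4, 12], [11, 2, 5, 13, 6, 14], [12,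
    2, 11, 15], [13, 3, 2, 10], [14, 3, 13, 9]]
  P := {
    a := 7
    N := 16
    nb := [390, 1797, 7355, 26724, 38916, 9228, 25096, 4357, 643, 25922, 8742, 49180, 32916, 1640,
      2632, 6160]
    tri := [(0, 1, 2), (0, 1, 8), (0, 2, 7), (0, 7, 8), (1, 2, 10), (1, 8, 9), (1, 9, 10), (2, 3, 5),
      (2, 3, 11), (2, 4, 11), (2, 4, 12), (2, 5, 10), (2, 7, 12), (3, 5, 13), (3, 6, 13), (3, 6,
      14), (3, 11, 14), (4, 11, 15), (4, 12, 15), (5, 10, 13), (6, 9, 13), (6, 9, 14)]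
    fin := [0, 0, 0, 0, 0, 0, 6, 0, 8, 9, 0, 0, 12, 6, 14, 15]
    chd := [(6, 14)]
    steps := [(0, 1), (0, 2), (0, 3), (0, 4), (0, 5), (0, 7), (0, 10), (0, 11), (6, 13)] }
  rep := [0, 8, 9, 6, 14, 12, 15]

noncomputable def v2710 : Cov.CovD where
  P := 3
  N := 4
  pl := [1, 2, 5, 8]
  lev := [⟨[], [], [], [1], [(0, 0, [])]⟩,
    ⟨[], [(0, 0)], [], [1, 2], [(3, 0, [])]⟩,
    ⟨[(0, 1)], [(0, 0), (1, 0)], [(0, 0)], [5], [(0, 0, []), (3, 0, []), (4, 0, [])]⟩,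
    ⟨[(0, 2), (1, 2)], [(2, 0), (2, 3), (2, 4)], [(0, 3), (0, 4), (3, 4)], [], [(4, 0, []),
      (6, 3, [4]), (7, 4, [3])]⟩,
    ⟨[(0, 2), (1, 2), (2, 3)], [(2, 0), (3, 0)], [], [5, 6], [(4, 0, [])]⟩,
    ⟨[(0, 2), (1, 2), (2, 3), (2, 4)], [(1, 0), (2, 0), (2, 3), (3, 0), (3, 3), (3, 4)],
      [(0, 3)], [], [(3, 0, []), (6, 3, [4])]⟩,
    ⟨[(2, 3), (3, 5)], [(3, 0), (3, 3), (3, 4), (5, 3)], [(3, 4)], [2], [(6, 3, [4]), (7,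
      4, [3])]⟩]
  Ta := [((0, 1), 0, 1), ((0, 5), 0, 5), ((3, 2), 0, 2), ((3, 6), 0, 3), ((4, 7), 0, 4), ((4, 8),
    0, 6)]
  Tb := [((0, 1, 5), 0, 1, 5), ((1, 0, 2), 1, 0, 2), ((2, 1, 3), 2, 1, 0), ((2, 1, 6), 2, 1, 3),
    ((2, 1, 7), 2, 1, 4), ((2, 3, 6), 2, 0, 3), ((2, 3, 7), 2, 0, 4), ((2, 6, 7), 2, 3, 4),
    ((3, 2, 6), 0, 2, 3), ((4, 7, 8), 0, 4, 6), ((5, 0, 8), 5, 0, 6), ((6, 2, 3), 3, 2, 0),
    ((7, 2, 4), 4, 2, 0), ((8, 4, 5), 6, 0, 5)]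
  Tc := []
  Td := [((3, 4), (6, 2), 2), ((3, 4), (6, 3), 0), ((4, 3), (7, 2), 2), ((4, 3), (7, 4), 0)]
  G := [[0, 0x111141111e111111111ea44, 0, 0x1211c21112a44, 0x1114811121a1414682aa2ca5e84], [0,
    0, 0x241ca6a4cc3ca6a6c61a41, 0xd212d212c48, 0xb41121618121c1a8161141ce81], [0, 0, 0,
    0xd1d1624d2d2a28c1, 0x8181c21216a8181a11316c683414c1212a681c]]

noncomputable def n2710 : Ent := ⟨e2710, noF, [], [], []⟩

def c2710 : PLift (Cov.check n2710.C.D v2710 = true) := ⟨by decide +kernel⟩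

def b2710 : PLift (entF (fidx ts) 400 2710 n2710 = true) := ⟨by decide +kernel⟩

theorem g2710 : GoodF (fidx ts) 400 2710 := GoodF.ofV v2710 n2710 c2710.down b2710.down

/-- 4596444:2192 -/
noncomputable def e2711 : SCfg where
  D := {
    a := 7
    L := 10
    kp := 7
    inn := [(0, 1), (0, 2), (1, 0), (1, 2), (2, 0), (2, 1), (2, 3), (2, 4), (2, 5), (3, 2), (3, 5), (3,
      6), (4, 2), (5, 2), (5, 3), (6, 3)]
    mix := [(0, 0), (0, 1), (1, 1), (1, 2), (1, 3), (2, 0), (2, 3), (2, 4), (2, 5), (3, 4), (3, 6), (3,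
      7), (4, 4), (4, 5), (4, 8), (5, 3), (5, 6), (6, 6), (6, 7), (6, 9)]
    cl := [1, 3, 6, 1, 0, 2, 0, 4, 5, 7]
    chq := [(1, 5), (5, 1)]
    rng := [(0, 1), (0, 5), (1, 0), (1, 2), (2, 1), (2, 3), (3, 2), (3, 6), (4, 7), (4, 8), (5, 0), (5,
      8), (6, 3), (6, 9), (7, 4), (7, 9), (8, 4), (8, 5), (9, 6), (9, 7)]
    lev := [] }
  links := [[1, 2, 7, 8], [2, 0, 8, 9, 10], [7, 0, 1, 10, 5, 3, 11, 4, 12], [11, 2, 5, 13, 6, 14], [12,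
    2, 11, 15], [13, 3, 2, 10], [14, 3, 13, 16]]
  P := {
    a := 7
    N := 17
    nb := [390, 1797, 7355, 26724, 38916, 9228, 90120, 4357, 643, 1282, 8742, 49180, 32916, 66664,
      67656, 6160, 24640]
    tri := [(0, 1, 2), (0, 1, 8), (0, 2, 7), (0, 7, 8), (1, 2, 10), (1, 8, 9), (1, 9, 10), (2, 3, 5),
      (2, 3, 11), (2, 4, 11), (2, 4, 12), (2, 5, 10), (2, 7, 12), (3, 5, 13), (3, 6, 13), (3, 6,
      14), (3, 11, 14), (4, 11, 15), (4, 12, 15), (5, 10, 13), (6, 13, 16), (6, 14, 16)]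
    fin := [0, 0, 0, 3, 0, 0, 3, 0, 8, 9, 0, 3, 12, 3, 14, 15, 16]
    chd := [(0, 15)]
    steps := [(0, 1), (0, 2), (0, 4), (0, 5), (0, 7), (0, 10), (3, 6), (3, 13), (3, 11)] }
  rep := [3, 0, 12, 8, 14, 15, 9, 16]

noncomputable def v2711 : Cov.CovD where
  P := 3
  N := 5
  pl := [1, 2, 5, 7, 9]
  lev := [⟨[], [], [], [3], [(0, 1, [5])]⟩,
    ⟨[], [(0, 1)], [], [3, 6], [(3, 1, [5])]⟩,
    ⟨[(0, 1)], [(0, 0), (0, 1), (1, 0), (1, 1)], [(0, 1), (1, 1)], [2], [(0, 1, [5]), (3,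
      1, [5]), (4, 0, [])]⟩,
    ⟨[(0, 2), (1, 2)], [(2, 0), (2, 1)], [(0, 0)], [4], [(4, 0, []), (6, 0, [])]⟩,
    ⟨[(0, 2), (1, 2), (2, 3)], [(2, 0), (2, 1), (2, 5), (3, 0)], [(0, 5)], [2], [(4, 0,
      []), (8, 5, [1])]⟩,
    ⟨[(0, 2), (1, 2), (2, 3), (2, 4)], [(1, 1), (2, 0), (2, 1), (3, 0), (3, 1)], [(0, 1)],
      [], [(3, 1, [5]), (6, 0, [])]⟩,
    ⟨[(2, 3), (3, 5)], [(3, 0), (5, 0)], [], [4, 7], [(6, 0, [])]⟩]
  Ta := [((0, 1), 1, 3), ((0, 5), 1, 2), ((3, 2), 1, 6), ((3, 6), 1, 0), ((4, 7), 0, 4), ((4, 8),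
    0, 5), ((6, 3), 0, 1), ((6, 9), 0, 7)]
  Tb := [((0, 1, 5), 1, 3, 2), ((1, 0, 2), 3, 1, 6), ((2, 1, 3), 6, 3, 1), ((3, 2, 6), 1, 6, 0),
    ((4, 7, 8), 0, 4, 5), ((5, 0, 8), 2, 1, 5), ((6, 3, 9), 0, 1, 7), ((7, 4, 9), 4, 0, 7),
    ((8, 4, 5), 5, 0, 2), ((9, 6, 7), 7, 0, 4)]
  Tc := []
  Td := [((1, 5), (0, 1), 3), ((1, 5), (0, 5), 2), ((1, 5), (3, 2), 6), ((1, 5), (3, 6), 0), ((5,
    1), (8, 4), 0), ((5, 1), (8, 5), 2)]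
  G := [[0, 0, 0x182a1264c12182a4c942382a429, 0xe158c842e194c2821438c482d,
    0x94254268142612a8cc821826825], [0, 0, 0x782142a4142612c8182682a4d2, 0,
    0xc1214268742142c8182a1268d2], [0, 0, 0x48a2682a46224a428c9c82a82682c,
    0xc41641a42c81a81682c, 0xc22a4168c82a4268cc81a826825], [0, 0xc21641a4c214a812cc21a8168e1,
    0xc42642a4c82a4268cc42642a413, 0, 0xc82a4261c42682a1c81a4168d2]]

noncomputable def n2711 : Ent := ⟨e2711, noF, [], [], [(8, 16, [1580044410770988437309982408355971841652082177953823432505700208641, 0]), (9, 16, [1580044410770988437309982408355971841652082177953823432505700212737, 0])]⟩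

def c2711 : PLift (Cov.check n2711.C.D v2711 = true) := ⟨by decide +kernel⟩

def b2711 : PLift (entF (fidx ts) 400 2711 n2711 = true) := ⟨by decide +kernel⟩

theorem g2711 : GoodF (fidx ts) 400 2711 := GoodF.ofV v2711 n2711 c2711.down b2711.down

/-- 4596447:2193 -/
noncomputable def e2712 : SCfg where
  D := {
    a := 7
    L := 11
    kp := 8
    inn := [(0, 1), (0, 2), (1, 0), (1, 2), (2, 0), (2, 1), (2, 3), (2, 4), (2, 5), (2, 6), (3, 2), (3,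
      5), (3, 6), (4, 2), (4, 6), (5, 2), (5, 3), (6, 2), (6, 3), (6, 4)]
    mix := [(0, 0), (0, 1), (1, 1), (1, 2), (1, 3), (2, 0), (2, 3), (2, 4), (3, 5), (3, 6), (3, 7), (4,
      4), (4, 8), (5, 3), (5, 5), (6, 7), (6, 8), (6, 9), (6, 10)]
    cl := [0, 1, 6, 0, 2, 4, 5, 3, 3, 7, 8]
    chq := [(0, 3), (0, 5), (3, 0), (5, 0)]
    rng := [(0, 1), (0, 4), (1, 0), (1, 2), (2, 1), (2, 3), (3, 2), (3, 5), (4, 0), (4, 8), (5, 3), (5,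
      6), (6, 5), (6, 7), (7, 6), (7, 9), (8, 4), (8, 10), (9, 7), (9, 10), (10, 8), (10, 9)]
    lev := [] }
  links := [[1, 2, 7, 8], [2, 0, 8, 9, 10], [7, 0, 1, 10, 5, 3, 6, 4, 11], [6, 2, 5, 12, 13, 14], [11, 2,
    6, 15], [12, 3, 2, 10], [15, 4, 2, 3, 14, 16, 17]]
  P := {
    a := 7
    N := 18
    nb := [390, 1797, 3323, 28772, 34884, 5132, 245788, 2309, 643, 1282, 4646, 32916, 9256, 20488,
      73800, 133200, 147520, 98368]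
    tri := [(0, 1, 2), (0, 1, 8), (0, 2, 7), (0, 7, 8), (1, 2, 10), (1, 8, 9), (1, 9, 10), (2, 3, 5),
      (2, 3, 6), (2, 4, 6), (2, 4, 11), (2, 5, 10), (2, 7, 11), (3, 5, 12), (3, 6, 14), (3, 12,
      13), (3, 13, 14), (4, 6, 15), (4, 11, 15), (5, 10, 12), (6, 14, 16), (6, 15, 17), (6, 16,
      17)]
    fin := [0, 0, 0, 0, 0, 0, 6, 0, 8, 9, 0, 11, 12, 13, 6, 6, 16, 17]
    chd := [(0, 6), (0, 13)]
    steps := [(0, 1), (0, 2), (0, 3), (0, 4), (0, 5), (0, 7), (0, 10), (6, 14), (6, 15)] }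
  rep := [0, 8, 11, 6, 12, 13, 9, 16, 17]

noncomputable def v2712 : Cov.CovD where
  P := 3
  N := 6
  pl := [1, 2, 4, 5, 9, 10]
  lev := [⟨[], [], [], [1], [(0, 0, [3, 5])]⟩,
    ⟨[], [(0, 0)], [], [1, 6], [(3, 0, [3, 5])]⟩,
    ⟨[(0, 1)], [(0, 0), (1, 0)], [(0, 0)], [2], [(0, 0, [3, 5]), (3, 0, [3, 5])]⟩,
    ⟨[(0, 2), (1, 2)], [(2, 0), (2, 3), (2, 5)], [(3, 5)], [4], [(6, 5, [0]), (7, 3, [0])]⟩,
    ⟨[(0, 2), (1, 2), (2, 3)], [(2, 0), (2, 3)], [], [2], [(8, 3, [0])]⟩,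
    ⟨[(0, 2), (1, 2), (2, 3), (2, 4)], [(1, 0), (2, 0), (3, 0), (3, 3), (3, 5)], [], [4],
      [(3, 0, [3, 5])]⟩,
    ⟨[(0, 2), (1, 2), (2, 3), (2, 4), (2, 5), (3, 4), (3, 5)], [(2, 0), (2, 3), (3, 3), (3,
      5), (4, 3)], [(3, 3)], [7, 8], [(7, 3, [0]), (8, 3, [0])]⟩]
  Ta := [((0, 1), 0, 1), ((0, 4), 0, 2), ((3, 2), 0, 6), ((3, 5), 0, 4), ((7, 6), 3, 5), ((7, 9),
    3, 7), ((8, 4), 3, 2), ((8, 10), 3, 8)]
  Tb := [((0, 1, 4), 0, 1, 2), ((1, 0, 2), 1, 0, 6), ((2, 1, 3), 6, 1, 0), ((3, 2, 5), 0, 6, 4),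
    ((4, 0, 8), 2, 0, 3), ((5, 3, 6), 4, 0, 5), ((6, 5, 7), 5, 4, 3), ((7, 6, 9), 3, 5, 7),
    ((8, 4, 10), 3, 2, 8), ((9, 7, 10), 7, 3, 8), ((10, 8, 9), 8, 3, 7)]
  Tc := [(0, 3, 5)]
  Td := [((0, 3), (0, 1), 1), ((0, 3), (0, 4), 2), ((0, 3), (3, 2), 6), ((0, 3), (3, 5), 4), ((0,
    5), (0, 1), 1), ((0, 5), (0, 4), 2), ((0, 5), (3, 2), 6), ((0, 5), (3, 5), 4), ((3, 0),
    (7, 6), 5), ((3, 0), (7, 9), 7), ((3, 0), (8, 4), 2), ((3, 0), (8, 10), 8), ((5, 0), (6,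
    5), 4), ((5, 0), (6, 7), 3)]
  G := [[0, 0x7e9e418ff641864, 0x7bce81418, 0x18118812113c68ce9f418, 0x121148188fa5e8f218], [0,
    0x116645119ce891c11c11aea4ed14a2, 0xdda437ea1418, 0x11a11811255aaa6d7814,
    0x1161116192146ecbd214], [0, 0, 0, 0x34614b1312d687bc8bc3461696419c62a571aa18cc1,
    0x25612d213c61fdc8da4bc17817f6271cc18ac1], [0, 0, 0,
    0x1211264551f61f88948bc3da158145c47b21aaa19cc1,
    0xb5613da11214eecbd27961f1a11214eecbd2c8]]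

noncomputable def n2712 : Ent := ⟨e2712, noF, [], [], []⟩

def c2712 : PLift (Cov.check n2712.C.D v2712 = true) := ⟨by decide +kernel⟩

def b2712 : PLift (entF (fidx ts) 400 2712 n2712 = true) := ⟨by decide +kernel⟩

theorem g2712 : GoodF (fidx ts) 400 2712 := GoodF.ofV v2712 n2712 c2712.down b2712.down

/-- 4649454:2194/1 -/
noncomputable def e2713 : SCfg where
  D := {
    a := 7
    L := 10
    kp := 7
    inn := [(0, 1), (1, 0), (1, 2), (1, 3), (2, 1), (3, 1), (3, 4), (3, 5), (3, 6), (4, 3), (4, 5), (5,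
      3), (5, 4), (6, 3)]
    mix := [(0, 0), (0, 1), (0, 2), (1, 0), (1, 2), (1, 3), (2, 2), (2, 3), (2, 4), (3, 0), (3, 3), (3,
      5), (3, 6), (3, 7), (4, 6), (4, 8), (5, 7), (5, 8), (5, 9), (6, 0), (6, 1), (6, 7)]
    cl := [0, 2, 1, 0, 6, 5, 3, 3, 4, 7]
    chq := [(0, 1), (1, 0), (2, 5), (5, 2)]
    rng := [(0, 1), (1, 0), (1, 2), (1, 7), (2, 1), (2, 4), (3, 4), (3, 5), (4, 2), (4, 3), (5, 3), (5,
      6), (6, 5), (6, 8), (7, 1), (7, 9), (8, 6), (8, 9), (9, 7), (9, 8)]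
    lev := [] }
  links := [[1, 7, 8, 9], [7, 0, 9, 2, 10, 3], [10, 1, 9, 11], [7, 1, 10, 12, 13, 4, 5, 14, 6], [5, 3,
    13, 15], [14, 3, 4, 15, 16], [7, 3, 14, 8]]
  P := {
    a := 7
    N := 17
    nb := [898, 1677, 3586, 29938, 41000, 114712, 16776, 331, 17089, 2311, 6158, 1540, 9224, 36888,
      65896, 73776, 49184]
    tri := [(0, 1, 7), (0, 1, 9), (0, 7, 8), (0, 8, 9), (1, 2, 9), (1, 2, 10), (1, 3, 7), (1, 3, 10),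
      (2, 9, 11), (2, 10, 11), (3, 4, 5), (3, 4, 13), (3, 5, 14), (3, 6, 7), (3, 6, 14), (3, 10,
      12), (3, 12, 13), (4, 5, 15), (4, 13, 15), (5, 14, 16), (5, 15, 16), (6, 7, 8), (6, 8, 14)]
    fin := [0, 0, 0, 3, 4, 4, 3, 0, 3, 9, 0, 11, 12, 4, 4, 15, 16]
    chd := [(0, 9), (3, 12)]
    steps := [(0, 1), (0, 2), (0, 7), (0, 10), (3, 6), (3, 8), (4, 5), (4, 13), (4, 14)] }
  rep := [0, 9, 3, 4, 15, 12, 11, 16]

noncomputable def v2713 : Cov.CovD where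
  P := 3
  N := 5
  pl := [4, 8, 9]
  lev := [⟨[], [], [(0, 1), (0, 2), (1, 2)], [], [(0, 0, [1]), (1, 2, [5]), (2, 1, [0])]⟩,
    ⟨[], [(0, 0), (0, 1), (0, 2)], [(0, 0), (0, 1)], [], [(0, 0, [1]), (2, 1, [0]), (3, 0,
      [1])]⟩,
    ⟨[(0, 1)], [(0, 1), (1, 0), (1, 1)], [(0, 1)], [6], [(2, 1, [0]), (3, 0, [1])]⟩,
    ⟨[(0, 1), (1, 2)], [(0, 0), (1, 0), (1, 1), (1, 3), (1, 5), (2, 0)], [(0, 0), (0, 3),
      (0, 5), (3, 3), (3, 5)], [], [(0, 0, [1]), (3, 0, [1]), (5, 5, [2]), (6, 3, []), (7, 3,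
      [])]⟩,
    ⟨[(1, 3)], [(3, 0), (3, 3), (3, 5)], [], [4], [(6, 3, [])]⟩,
    ⟨[(1, 3), (3, 4)], [(3, 0), (3, 3), (3, 5), (4, 3)], [], [4, 7], [(7, 3, [])]⟩,
    ⟨[(1, 3), (3, 4), (3, 5)], [(0, 0), (0, 2), (1, 0), (3, 0), (3, 2), (3, 3), (3, 5), (5,
      3)], [(0, 2), (0, 3), (2, 3)], [], [(0, 0, [1]), (1, 2, [5]), (7, 3, [])]⟩]
  Ta := [((0, 1), 0, 2), ((3, 4), 0, 6), ((3, 5), 0, 5), ((6, 5), 3, 5), ((6, 8), 3, 4), ((7, 1),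
    3, 2), ((7, 9), 3, 7)]
  Tb := [((1, 0, 2), 2, 0, 1), ((1, 0, 7), 2, 0, 3), ((1, 2, 7), 2, 1, 3), ((2, 1, 4), 1, 2, 6),
    ((3, 4, 5), 0, 6, 5), ((4, 2, 3), 6, 1, 0), ((5, 3, 6), 5, 0, 3), ((6, 5, 8), 3, 5, 4),
    ((7, 1, 9), 3, 2, 7), ((8, 6, 9), 4, 3, 7), ((9, 7, 8), 7, 3, 4)]
  Tc := []
  Td := [((0, 1), (0, 1), 2), ((0, 1), (3, 4), 6), ((0, 1), (3, 5), 5), ((1, 0), (2, 1), 2), ((1,
    0), (2, 4), 6), ((2, 5), (1, 0), 0), ((2, 5), (1, 2), 1), ((2, 5), (1, 7), 3), ((5, 2),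
    (5, 3), 0), ((5, 2), (5, 6), 3)]
  G := [[0, 0x4228452a44848c489d284548948cd2ac4, 0x28a449541246483948c2453a1c8, 0x81484d48b2188,
    0x88322928ab4188], [0, 0x88815a414172464881f211a884a48611de142e813841e8139acc8,
    0x24484e41b41648e289322ce8239a1c8, 0x844b4887c2148, 0x2258828fa412828f42282f4a1c8], [0,
    0x888d14941cd288548911cd2a44, 0, 0x814884518f282414884f2c84,
    0x82328928ab488a28982883f8446c81], [0,
    0x4481f2841b4117ca448e813821b2844b4817cea84241841f24c68, 0, 0x811e48179284ce481792c84,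
    0x822d8287a282827c6822d8287a4c2822f48282e8158282f4acc1]]

noncomputable def n2713 : Ent := ⟨e2713, noF, [], [], []⟩

def c2713 : PLift (Cov.check n2713.C.D v2713 = true) := ⟨by decide +kernel⟩

def b2713 : PLift (entF (fidx ts) 400 2713 n2713 = true) := ⟨by decide +kernel⟩

theorem g2713 : GoodF (fidx ts) 400 2713 := GoodF.ofV v2713 n2713 c2713.down b2713.down

/-- 4649454:2194 -/
noncomputable def e2714 : SCfg where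
  D := {
    a := 7
    L := 11
    kp := 8
    inn := [(0, 1), (1, 0), (1, 2), (1, 3), (2, 1), (3, 1), (3, 4), (3, 5), (3, 6), (4, 3), (4, 5), (5,
      3), (5, 4), (6, 3)]
    mix := [(0, 0), (0, 1), (0, 2), (1, 0), (1, 2), (1, 3), (2, 2), (2, 3), (2, 4), (3, 0), (3, 3), (3,
      5), (3, 6), (3, 7), (4, 6), (4, 8), (5, 7), (5, 8), (5, 9), (6, 0), (6, 7), (6, 10)]
    cl := [0, 6, 3, 0, 7, 2, 1, 1, 4, 8, 5]
    chq := [(0, 3), (2, 5), (3, 0), (5, 2)]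
    rng := [(0, 1), (0, 10), (1, 0), (1, 2), (2, 1), (2, 4), (3, 4), (3, 5), (4, 2), (4, 3), (5, 3),
      (5, 6), (6, 5), (6, 8), (7, 9), (7, 10), (8, 6), (8, 9), (9, 7), (9, 8), (10, 0), (10, 7)]
    lev := [] }
  links := [[1, 7, 8, 9], [7, 0, 9, 2, 10, 3], [10, 1, 9, 11], [7, 1, 10, 12, 13, 4, 5, 14, 6], [5, 3,
    13, 15], [14, 3, 4, 15, 16], [7, 3, 14, 17]]
  P := {
    a := 7
    N := 18
    nb := [898, 1677, 3586, 29938, 41000, 114712, 147592, 131403, 641, 2311, 6158, 1540, 9224, 36888,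
      196712, 73776, 49184, 16576]
    tri := [(0, 1, 7), (0, 1, 9), (0, 7, 8), (0, 8, 9), (1, 2, 9), (1, 2, 10), (1, 3, 7), (1, 3, 10),
      (2, 9, 11), (2, 10, 11), (3, 4, 5), (3, 4, 13), (3, 5, 14), (3, 6, 7), (3, 6, 14), (3, 10,
      12), (3, 12, 13), (4, 5, 15), (4, 13, 15), (5, 14, 16), (5, 15, 16), (6, 7, 17), (6, 14,
      17)]
    fin := [0, 0, 0, 3, 4, 4, 3, 0, 8, 9, 0, 11, 3, 4, 4, 15, 16, 17]
    chd := [(0, 9), (3, 17)]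
    steps := [(0, 1), (0, 2), (0, 7), (0, 10), (3, 6), (3, 12), (4, 5), (4, 13), (4, 14)] }
  rep := [0, 4, 3, 9, 15, 17, 8, 11, 16]

noncomputable def v2714 : Cov.CovD where
  P := 3
  N := 6
  pl := [1, 4, 8, 9]
  lev := [⟨[], [], [(0, 3)], [6], [(0, 0, [3]), (2, 3, [0])]⟩,
    ⟨[], [(0, 0), (0, 3)], [(0, 0), (0, 3)], [], [(0, 0, [3]), (2, 3, [0]), (3, 0, [3])]⟩,
    ⟨[(0, 1)], [(0, 3), (1, 0), (1, 3)], [(0, 3)], [7], [(2, 3, [0]), (3, 0, [3])]⟩,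
    ⟨[(0, 1), (1, 2)], [(0, 0), (1, 0), (1, 1), (1, 2), (1, 3), (2, 0)], [(0, 0), (0, 1),
      (0, 2), (1, 1), (1, 2)], [], [(0, 0, [3]), (3, 0, [3]), (5, 2, [5]), (6, 1, []), (7, 1,
      [])]⟩,
    ⟨[(1, 3)], [(3, 0), (3, 1), (3, 2)], [], [4], [(6, 1, [])]⟩,
    ⟨[(1, 3), (3, 4)], [(3, 0), (3, 1), (3, 2), (4, 1)], [], [4, 8], [(7, 1, [])]⟩,
    ⟨[(1, 3), (3, 4), (3, 5)], [(0, 0), (1, 0), (3, 0), (3, 1), (3, 2), (3, 5), (5, 1)],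
      [(0, 1), (0, 5), (1, 5)], [], [(0, 0, [3]), (7, 1, []), (10, 5, [2])]⟩]
  Ta := [((0, 1), 0, 6), ((0, 10), 0, 5), ((3, 4), 0, 7), ((3, 5), 0, 2), ((6, 5), 1, 2), ((6,
    8), 1, 4), ((7, 9), 1, 8), ((7, 10), 1, 5)]
  Tb := [((0, 1, 10), 0, 6, 5), ((1, 0, 2), 6, 0, 3), ((2, 1, 4), 3, 6, 7), ((3, 4, 5), 0, 7, 2),
    ((4, 2, 3), 7, 3, 0), ((5, 3, 6), 2, 0, 1), ((6, 5, 8), 1, 2, 4), ((7, 9, 10), 1, 8, 5),
    ((8, 6, 9), 4, 1, 8), ((9, 7, 8), 8, 1, 4), ((10, 0, 7), 5, 0, 1)]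
  Tc := []
  Td := [((0, 3), (0, 1), 6), ((0, 3), (0, 10), 5), ((0, 3), (3, 4), 7), ((0, 3), (3, 5), 2),
    ((2, 5), (5, 3), 0), ((2, 5), (5, 6), 1), ((3, 0), (2, 1), 6), ((3, 0), (2, 4), 7), ((5,
    2), (10, 0), 0), ((5, 2), (10, 7), 1)]
  G := [[0, 0x22c21a422a21c45821226c822c21683422a21c42122a6492e, 0,
    0x1212c44282c2d45812129822c22958341212c424428219c92e,
    0x4242598142445984242958a64244958144214958424259822c4258d2e], [0,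
    0x222e14222e143824222878222e1894282224b4222e1452e, 0, 0,
    0x444d28444d28c444d2816444d2814114d28111d28444d28d2e], [0,
    0x21226c821226a8a22122a6821226c8a422c21a48212422e8421226c82ed,
    0x22c22594822c22958422c225942e1,
    0x12442212141284c812481288612148622c22594822c22958422c225942ef,
    0x22c425814c1258a2246443584842245988222c42584224598c422441d826f], [0,
    0x2222c3822222e1884222e1442282224b48222e184222e142ef,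
    0xc8c1948884cc4484ccd28cc4488884cc52c82cee1, 0,
    0x411d28141d28c2414d28144d28c244c4138444d28c444d2826b]]

noncomputable def n2714 : Ent := ⟨e2714, noF, [], [], [(8, 17, [6903326391201334775872065844685381424292761054348340378595029940801537, 0])]⟩

def c2714 : PLift (Cov.check n2714.C.D v2714 = true) := ⟨by decide +kernel⟩

def b2714 : PLift (entF (fidx ts) 400 2714 n2714 = true) := ⟨by decide +kernel⟩

theorem g2714 : GoodF (fidx ts) 400 2714 := GoodF.ofV v2714 n2714 c2714.down b2714.down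

/-- 4596456:2196/1 -/
noncomputable def e2715 : SCfg where
  D := {
    a := 7
    L := 10
    kp := 8
    inn := [(0, 1), (0, 2), (1, 0), (1, 2), (2, 0), (2, 1), (2, 3), (2, 4), (2, 5), (2, 6), (3, 2), (3,
      5), (3, 6), (4, 2), (4, 6), (5, 2), (5, 3), (6, 2), (6, 3), (6, 4)]
    mix := [(0, 0), (0, 1), (1, 1), (1, 2), (1, 3), (2, 0), (2, 3), (2, 4), (3, 5), (3, 6), (3, 7), (4,
      4), (4, 8), (5, 2), (5, 3), (5, 5), (6, 7), (6, 8), (6, 9)]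
    cl := [0, 2, 5, 0, 6, 1, 7, 3, 4, 8]
    chq := [(0, 1), (0, 3), (0, 4), (0, 7), (0, 8), (1, 0), (3, 0), (4, 0), (7, 0), (8, 0)]
    rng := [(0, 1), (0, 4), (1, 0), (1, 2), (2, 1), (2, 3), (2, 5), (3, 2), (4, 0), (4, 8), (5, 2), (5,
      6), (6, 5), (6, 7), (7, 6), (7, 9), (8, 4), (8, 9), (9, 7), (9, 8)]
    lev := [] }
  links := [[1, 2, 7, 8], [2, 0, 8, 9, 10], [7, 0, 1, 10, 5, 3, 6, 4, 11], [6, 2, 5, 12, 13, 14], [11, 2,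
    6, 15], [12, 3, 2, 10, 9], [15, 4, 2, 3, 14, 16]]
  P := {
    a := 7
    N := 17
    nb := [390, 1797, 3323, 28772, 34884, 5644, 114716, 2309, 643, 5410, 550, 32916, 8744, 20488,
      73800, 67664, 49216]
    tri := [(0, 1, 2), (0, 1, 8), (0, 2, 7), (0, 7, 8), (1, 2, 10), (1, 8, 9), (1, 9, 10), (2, 3, 5),
      (2, 3, 6), (2, 4, 6), (2, 4, 11), (2, 5, 10), (2, 7, 11), (3, 5, 12), (3, 6, 14), (3, 12,
      13), (3, 13, 14), (4, 6, 15), (4, 11, 15), (5, 9, 10), (5, 9, 12), (6, 14, 16), (6, 15, 16)]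
    fin := [0, 0, 0, 0, 0, 0, 0, 0, 8, 9, 0, 11, 12, 13, 14, 15, 16]
    chd := [(0, 12), (0, 13), (0, 14), (0, 15), (0, 16)]
    steps := [(0, 1), (0, 2), (0, 3), (0, 4), (0, 6), (0, 7), (0, 10), (0, 5)] }
  rep := [0, 12, 8, 14, 15, 9, 11, 13, 16]

noncomputable def v2715 : Cov.CovD where
  P := 3
  N := 6
  pl := [1, 2, 4]
  lev := [⟨[], [], [], [2], [(0, 0, [1, 3, 4, 7, 8])]⟩,
    ⟨[], [(0, 0)], [], [2, 5], [(3, 0, [1, 3, 4, 7, 8])]⟩,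
    ⟨[(0, 1)], [(0, 0), (1, 0)], [(0, 0)], [6], [(0, 0, [1, 3, 4, 7, 8]), (3, 0, [1, 3, 4,
      7, 8])]⟩,
    ⟨[(0, 2), (1, 2)], [(2, 0), (2, 1), (2, 3), (2, 7)], [(1, 3), (1, 7), (3, 7)], [], [(5,
      1, [0]), (6, 7, [0]), (7, 3, [0])]⟩,
    ⟨[(0, 2), (1, 2), (2, 3)], [(2, 0), (2, 4)], [], [6], [(8, 4, [0])]⟩,
    ⟨[(0, 2), (1, 2), (2, 3), (2, 4)], [(1, 0), (2, 0), (2, 1), (3, 0), (3, 1), (3, 3), (3,
      7)], [(0, 1)], [5], [(3, 0, [1, 3, 4, 7, 8]), (5, 1, [0])]⟩,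
    ⟨[(0, 2), (1, 2), (2, 3), (2, 4), (2, 5), (3, 4), (3, 5)], [(2, 0), (2, 3), (2, 4), (2,
      8), (3, 1), (3, 3), (3, 4), (3, 7), (3, 8), (4, 3), (4, 4), (4, 8)], [(3, 4), (3, 8),
      (4, 8)], [], [(7, 3, [0]), (8, 4, [0]), (9, 8, [0])]⟩]
  Ta := [((0, 1), 0, 2), ((0, 4), 0, 6), ((3, 2), 0, 5)]
  Tb := [((0, 1, 4), 0, 2, 6), ((1, 0, 2), 2, 0, 5), ((2, 1, 3), 5, 2, 0), ((2, 1, 5), 5, 2, 1),
    ((2, 3, 5), 5, 0, 1), ((4, 0, 8), 6, 0, 4), ((5, 2, 6), 1, 5, 7), ((6, 5, 7), 7, 1, 3),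
    ((7, 6, 9), 3, 7, 8), ((8, 4, 9), 4, 6, 8), ((9, 7, 8), 8, 3, 4)]
  Tc := [(0, 1, 3), (0, 1, 4), (0, 1, 7), (0, 1, 8), (0, 3, 4), (0, 3, 7), (0, 3, 8), (0, 4, 7),
    (0, 4, 8), (0, 7, 8)]
  Td := [((0, 1), (0, 1), 2), ((0, 1), (0, 4), 6), ((0, 1), (3, 2), 5), ((0, 3), (0, 1), 2), ((0,
    3), (0, 4), 6), ((0, 3), (3, 2), 5), ((0, 4), (0, 1), 2), ((0, 4), (0, 4), 6), ((0, 4),
    (3, 2), 5), ((0, 7), (0, 1), 2), ((0, 7), (0, 4), 6), ((0, 7), (3, 2), 5), ((0, 8), (0,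
    1), 2), ((0, 8), (0, 4), 6), ((0, 8), (3, 2), 5), ((1, 0), (5, 2), 5), ((1, 0), (5, 6),
    7), ((3, 0), (7, 6), 7), ((3, 0), (7, 9), 8), ((4, 0), (8, 4), 6), ((4, 0), (8, 9), 8),
    ((7, 0), (6, 5), 1), ((7, 0), (6, 7), 3), ((8, 0), (9, 7), 3), ((8, 0), (9, 8), 4)]
  G := [[0, 0x116111a111c1e11c111c111c1ea14, 0x1818c11818a1681414c1141461a4c,
    0x18e8514141544511c118811ca49d11c111c199c1411c66cfde98,
    0x11c1141181411ceecfd21141891454c511c11811818eacddc1a], [0,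
    0x11a111a11161e116111a111c1e618, 0,
    0x1111111818e8dd1811811818e8bd61411481414e4dd1141411414e47dac1,
    0x1841811818e8dd1811411818e8bd611814141464f514114a43911114114c45dea1]]

noncomputable def n2715 : Ent := ⟨e2715, noF, [], [], []⟩

def c2715 : PLift (Cov.check n2715.C.D v2715 = true) := ⟨by decide +kernel⟩

def b2715 : PLift (entF (fidx ts) 400 2715 n2715 = true) := ⟨by decide +kernel⟩

theorem g2715 : GoodF (fidx ts) 400 2715 := GoodF.ofV v2715 n2715 c2715.down b2715.down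

/-- 4596456:2196 -/
noncomputable def e2716 : SCfg where
  D := {
    a := 7
    L := 11
    kp := 9
    inn := [(0, 1), (0, 2), (1, 0), (1, 2), (2, 0), (2, 1), (2, 3), (2, 4), (2, 5), (2, 6), (3, 2), (3,
      5), (3, 6), (4, 2), (4, 6), (5, 2), (5, 3), (6, 2), (6, 3), (6, 4)]
    mix := [(0, 0), (0, 1), (1, 1), (1, 2), (1, 3), (2, 0), (2, 3), (2, 4), (3, 5), (3, 6), (3, 7), (4,
      4), (4, 8), (5, 3), (5, 5), (5, 9), (6, 7), (6, 8), (6, 10)]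
    cl := [0, 2, 8, 0, 5, 3, 6, 4, 1, 9, 7]
    chq := [(0, 1), (0, 3), (0, 4), (0, 6), (0, 7), (1, 0), (3, 0), (4, 0), (6, 0), (7, 0)]
    rng := [(0, 1), (0, 4), (1, 0), (1, 2), (2, 1), (2, 3), (3, 2), (3, 9), (4, 0), (4, 8), (5, 6), (5,
      9), (6, 5), (6, 7), (7, 6), (7, 10), (8, 4), (8, 10), (9, 3), (9, 5), (10, 7), (10, 8)]
    lev := [] }
  links := [[1, 2, 7, 8], [2, 0, 8, 9, 10], [7, 0, 1, 10, 5, 3, 6, 4, 11], [6, 2, 5, 12, 13, 14], [11, 2,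
    6, 15], [12, 3, 2, 10, 16], [15, 4, 2, 3, 14, 17]]
  P := {
    a := 7
    N := 18
    nb := [390, 1797, 3323, 28772, 34884, 70668, 180252, 2309, 643, 1282, 66086, 32916, 73768, 20488,
      139336, 133200, 5152, 49216]
    tri := [(0, 1, 2), (0, 1, 8), (0, 2, 7), (0, 7, 8), (1, 2, 10), (1, 8, 9), (1, 9, 10), (2, 3, 5),
      (2, 3, 6), (2, 4, 6), (2, 4, 11), (2, 5, 10), (2, 7, 11), (3, 5, 12), (3, 6, 14), (3, 12,
      13), (3, 13, 14), (4, 6, 15), (4, 11, 15), (5, 10, 16), (5, 12, 16), (6, 14, 17), (6, 15,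
      17)]
    fin := [0, 0, 0, 0, 0, 0, 0, 0, 8, 9, 0, 11, 12, 13, 14, 15, 16, 17]
    chd := [(0, 12), (0, 13), (0, 14), (0, 15), (0, 17)]
    steps := [(0, 1), (0, 2), (0, 3), (0, 4), (0, 5), (0, 6), (0, 7), (0, 10)] }
  rep := [0, 15, 8, 12, 14, 11, 13, 17, 9, 16]

noncomputable def v2716 : Cov.CovD where
  P := 3
  N := 7
  pl := [1, 2, 4, 9]
  lev := [⟨[], [], [], [2], [(0, 0, [1, 3, 4, 6, 7])]⟩,
    ⟨[], [(0, 0)], [], [2, 8], [(3, 0, [1, 3, 4, 6, 7])]⟩,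
    ⟨[(0, 1)], [(0, 0), (1, 0)], [(0, 0)], [5], [(0, 0, [1, 3, 4, 6, 7]), (3, 0, [1, 3, 4,
      6, 7])]⟩,
    ⟨[(0, 2), (1, 2)], [(2, 0), (2, 3), (2, 4), (2, 6)], [(3, 4), (3, 6), (4, 6)], [], [(5,
      3, [0]), (6, 6, [0]), (7, 4, [0])]⟩,
    ⟨[(0, 2), (1, 2), (2, 3)], [(2, 0), (2, 1)], [], [5], [(8, 1, [0])]⟩,
    ⟨[(0, 2), (1, 2), (2, 3), (2, 4)], [(1, 0), (2, 0), (2, 3), (3, 0), (3, 3), (3, 4), (3,
      6)], [(0, 3)], [9], [(3, 0, [1, 3, 4, 6, 7]), (5, 3, [0])]⟩,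
    ⟨[(0, 2), (1, 2), (2, 3), (2, 4), (2, 5), (3, 4), (3, 5)], [(2, 0), (2, 1), (2, 4), (2,
      7), (3, 1), (3, 3), (3, 4), (3, 6), (3, 7), (4, 1), (4, 4), (4, 7)], [(1, 4), (1, 7),
      (4, 7)], [], [(7, 4, [0]), (8, 1, [0]), (10, 7, [0])]⟩]
  Ta := [((0, 1), 0, 2), ((0, 4), 0, 5), ((3, 2), 0, 8), ((3, 9), 0, 9)]
  Tb := [((0, 1, 4), 0, 2, 5), ((1, 0, 2), 2, 0, 8), ((2, 1, 3), 8, 2, 0), ((3, 2, 9), 0, 8, 9),
    ((4, 0, 8), 5, 0, 1), ((5, 6, 9), 3, 6, 9), ((6, 5, 7), 6, 3, 4), ((7, 6, 10), 4, 6, 7),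
    ((8, 4, 10), 1, 5, 7), ((9, 3, 5), 9, 0, 3), ((10, 7, 8), 7, 4, 1)]
  Tc := [(0, 1, 3), (0, 1, 4), (0, 1, 6), (0, 1, 7), (0, 3, 4), (0, 3, 6), (0, 3, 7), (0, 4, 6),
    (0, 4, 7), (0, 6, 7)]
  Td := [((0, 1), (0, 1), 2), ((0, 1), (0, 4), 5), ((0, 1), (3, 2), 8), ((0, 1), (3, 9), 9), ((0,
    3), (0, 1), 2), ((0, 3), (0, 4), 5), ((0, 3), (3, 2), 8), ((0, 3), (3, 9), 9), ((0, 4),
    (0, 1), 2), ((0, 4), (0, 4), 5), ((0, 4), (3, 2), 8), ((0, 4), (3, 9), 9), ((0, 6), (0,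
    1), 2), ((0, 6), (0, 4), 5), ((0, 6), (3, 2), 8), ((0, 6), (3, 9), 9), ((0, 7), (0, 1),
    2), ((0, 7), (0, 4), 5), ((0, 7), (3, 2), 8), ((0, 7), (3, 9), 9), ((1, 0), (8, 4), 5),
    ((1, 0), (8, 10), 7), ((3, 0), (5, 6), 6), ((3, 0), (5, 9), 9), ((4, 0), (7, 6), 6), ((4,
    0), (7, 10), 7), ((6, 0), (6, 5), 3), ((6, 0), (6, 7), 4), ((7, 0), (10, 7), 4), ((7, 0),
    (10, 8), 1)]
  G := [[0, 0x66611eaae11ecce11e18, 0x1411ac1111e14c1611a411814c16a1168182a,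
    0x144141891211cc55658a84df188121881b11c111c111c1181d1eccadfe14,
    0x1411161441711c118111a4494e99acf11c111c111c1111e14cccedfe18], [0,
    0x42611eaee11eece11e18, 0,
    0x494e19ac141418c11a145884b49111e14ccced1215618a48cd198591e4c6d1a14189116844871814911c4188eadc,
    0x1134111e11491a44adb18111c4d15e14c86dd61814511a14599a44a5b11c11814cccd56a111156898116114189116189c861f83a]]

noncomputable def n2716 : Ent := ⟨e2716, noF, [], [], [(9, 16, [7334685537875745012586738086077695515070955365108989538292687704797185, 0])]⟩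

def c2716 : PLift (Cov.check n2716.C.D v2716 = true) := ⟨by decide +kernel⟩

def b2716 : PLift (entF (fidx ts) 400 2716 n2716 = true) := ⟨by decide +kernel⟩

theorem g2716 : GoodF (fidx ts) 400 2716 := GoodF.ofV v2716 n2716 c2716.down b2716.down

/-- 4596444:2197/2 -/
noncomputable def e2717 : SCfg where
  D := {
    a := 7
    L := 9
    kp := 6
    inn := [(0, 1), (0, 2), (1, 0), (1, 2), (2, 0), (2, 1), (2, 3), (2, 4), (3, 2), (3, 5), (3, 6), (4,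
      2), (5, 3), (6, 3)]
    mix := [(0, 0), (0, 1), (1, 1), (1, 2), (1, 3), (2, 0), (2, 3), (2, 4), (2, 5), (2, 6), (3, 4), (3,
      5), (3, 7), (4, 5), (4, 6), (4, 8), (5, 2), (5, 4), (5, 7), (6, 5), (6, 7), (6, 8)]
    cl := [0, 2, 5, 0, 1, 0, 6, 3, 4]
    chq := [(1, 3), (1, 4), (3, 1), (4, 1)]
    rng := [(0, 1), (0, 6), (1, 0), (1, 2), (2, 1), (2, 3), (2, 4), (2, 7), (3, 2), (3, 4), (4, 2), (4,
      3), (5, 8), (6, 0), (6, 8), (7, 2), (7, 8), (8, 5), (8, 6), (8, 7)]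
    lev := [] }
  links := [[1, 2, 7, 8], [2, 0, 8, 9, 10], [7, 0, 1, 10, 11, 3, 12, 4, 13], [12, 2, 11, 5, 14, 6], [13,
    2, 12, 15], [14, 3, 11, 9], [12, 3, 14, 15]]
  P := {
    a := 7
    N := 16
    nb := [390, 1797, 15515, 22628, 45060, 18952, 53256, 8453, 643, 19746, 2566, 1580, 32860, 32916,
      33384, 28752]
    tri := [(0, 1, 2), (0, 1, 8), (0, 2, 7), (0, 7, 8), (1, 2, 10), (1, 8, 9), (1, 9, 10), (2, 3, 11),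
      (2, 3, 12), (2, 4, 12), (2, 4, 13), (2, 7, 13), (2, 10, 11), (3, 5, 11), (3, 5, 14), (3, 6,
      12), (3, 6, 14), (4, 12, 15), (4, 13, 15), (5, 9, 11), (5, 9, 14), (6, 12, 15), (6, 14, 15)]
    fin := [0, 0, 0, 3, 0, 5, 3, 0, 8, 5, 0, 3, 0, 13, 14, 15]
    chd := [(3, 14), (3, 15)]
    steps := [(0, 1), (0, 2), (0, 4), (0, 7), (0, 10), (0, 12), (3, 6), (3, 11), (5, 9)] }
  rep := [0, 3, 8, 14, 15, 5, 13]

noncomputable def v2717 : Cov.CovD where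
  P := 3
  N := 4
  pl := [1, 2, 6]
  lev := [⟨[], [], [], [2], [(0, 0, [])]⟩,
    ⟨[], [(0, 0)], [], [2, 5], [(3, 0, [])]⟩,
    ⟨[(0, 1)], [(0, 0), (0, 1), (1, 0), (1, 1)], [(0, 0), (0, 1)], [6], [(0, 0, []), (3, 0,
      []), (4, 1, [3, 4]), (5, 0, [])]⟩,
    ⟨[(0, 2), (1, 2)], [(2, 0), (2, 1), (2, 3)], [(0, 1), (0, 3), (1, 3)], [], [(4, 1, [3,
      4]), (5, 0, []), (7, 3, [1])]⟩,
    ⟨[(0, 2), (1, 2), (2, 3)], [(2, 0), (2, 1), (2, 4), (3, 0)], [(0, 4)], [6], [(5, 0,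
      []), (8, 4, [1])]⟩,
    ⟨[(2, 3)], [(2, 1), (3, 0), (3, 1), (3, 3)], [(1, 3)], [5], [(4, 1, [3, 4]), (7, 3,
      [1])]⟩,
    ⟨[(2, 3), (3, 5)], [(2, 0), (3, 0), (3, 1), (3, 3), (3, 4), (4, 0), (4, 4), (5, 3)],
      [(0, 3), (0, 4), (3, 4)], [], [(5, 0, []), (7, 3, [1]), (8, 4, [1])]⟩]
  Ta := [((0, 1), 0, 2), ((0, 6), 0, 6), ((3, 2), 0, 5), ((3, 4), 0, 1), ((5, 8), 0, 4)]
  Tb := [((0, 1, 6), 0, 2, 6), ((1, 0, 2), 2, 0, 5), ((2, 1, 3), 5, 2, 0), ((2, 1, 4), 5, 2, 1),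
    ((2, 1, 7), 5, 2, 3), ((2, 3, 4), 5, 0, 1), ((2, 3, 7), 5, 0, 3), ((2, 4, 7), 5, 1, 3),
    ((3, 2, 4), 0, 5, 1), ((4, 2, 3), 1, 5, 0), ((6, 0, 8), 6, 0, 4), ((7, 2, 8), 3, 5, 4),
    ((8, 5, 6), 4, 0, 6), ((8, 5, 7), 4, 0, 3), ((8, 6, 7), 4, 6, 3)]
  Tc := [(1, 3, 4)]
  Td := [((1, 3), (4, 2), 5), ((1, 3), (4, 3), 0), ((1, 4), (4, 2), 5), ((1, 4), (4, 3), 0), ((3,
    1), (7, 2), 5), ((3, 1), (7, 8), 4), ((4, 1), (8, 5), 0), ((4, 1), (8, 6), 6), ((4, 1),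
    (8, 7), 3)]
  G := [[0, 0, 0x21144222c128252812429c2112251c22518cac, 0xc192434642132291cc1112881c,
    0x211c19243c615283211cc12], [0, 0x184891211aca1868986a1c61414c4a218a2114146cec1, 0,
    0x22912825281211c2818e211241c2251441242bcc1, 0x2291a8252816429c112241c2251211cca2], [0,
    0, 0, 0x81442d282de212412e412252882d21249e812e81c,
    0x212222d41424de818e81422d885e2292412ec12]]

noncomputable def n2717 : Ent := ⟨e2717, noF, [], [], []⟩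

def c2717 : PLift (Cov.check n2717.C.D v2717 = true) := ⟨by decide +kernel⟩

def b2717 : PLift (entF (fidx ts) 400 2717 n2717 = true) := ⟨by decide +kernel⟩

theorem g2717 : GoodF (fidx ts) 400 2717 := GoodF.ofV v2717 n2717 c2717.down b2717.down

/-- 4596444:2197/1 -/
noncomputable def e2718 : SCfg where
  D := {
    a := 7
    L := 10
    kp := 7
    inn := [(0, 1), (0, 2), (1, 0), (1, 2), (2, 0), (2, 1), (2, 3), (2, 4), (3, 2), (3, 5), (3, 6), (4,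
      2), (5, 3), (6, 3)]
    mix := [(0, 0), (0, 1), (1, 1), (1, 2), (1, 3), (2, 0), (2, 3), (2, 4), (2, 5), (2, 6), (3, 4), (3,
      5), (3, 7), (4, 5), (4, 6), (4, 8), (5, 2), (5, 4), (5, 7), (6, 5), (6, 7), (6, 9)]
    cl := [1, 2, 4, 1, 0, 0, 5, 3, 6, 7]
    chq := [(0, 3), (1, 6), (3, 0), (6, 1)]
    rng := [(0, 1), (0, 6), (1, 0), (1, 2), (2, 1), (2, 3), (2, 4), (2, 7), (3, 2), (3, 4), (4, 2), (4,
      3), (5, 8), (5, 9), (6, 0), (6, 8), (7, 2), (7, 9), (8, 5), (8, 6), (9, 5), (9, 7)]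
    lev := [] }
  links := [[1, 2, 7, 8], [2, 0, 8, 9, 10], [7, 0, 1, 10, 11, 3, 12, 4, 13], [12, 2, 11, 5, 14, 6], [13,
    2, 12, 15], [14, 3, 11, 9], [12, 3, 14, 16]]
  P := {
    a := 7
    N := 17
    nb := [390, 1797, 15515, 22628, 45060, 18952, 86024, 8453, 643, 19746, 2566, 1580, 98396, 32916,
      66152, 12304, 20544]
    tri := [(0, 1, 2), (0, 1, 8), (0, 2, 7), (0, 7, 8), (1, 2, 10), (1, 8, 9), (1, 9, 10), (2, 3, 11),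
      (2, 3, 12), (2, 4, 12), (2, 4, 13), (2, 7, 13), (2, 10, 11), (3, 5, 11), (3, 5, 14), (3, 6,
      12), (3, 6, 14), (4, 12, 15), (4, 13, 15), (5, 9, 11), (5, 9, 14), (6, 12, 16), (6, 14, 16)]
    fin := [0, 0, 0, 3, 0, 5, 3, 0, 8, 5, 0, 3, 3, 13, 14, 15, 16]
    chd := [(0, 15), (3, 14)]
    steps := [(0, 1), (0, 2), (0, 4), (0, 7), (0, 10), (3, 6), (3, 11), (3, 12), (5, 9)] }
  rep := [3, 0, 8, 14, 5, 13, 15, 16]

noncomputable def v2718 : Cov.CovD where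
  P := 3
  N := 5
  pl := [1, 2, 6, 9]
  lev := [⟨[], [], [], [2], [(0, 1, [6])]⟩,
    ⟨[], [(0, 1)], [], [2, 4], [(3, 1, [6])]⟩,
    ⟨[(0, 1)], [(0, 0), (0, 1), (1, 0), (1, 1)], [(0, 0), (0, 1), (1, 1)], [5], [(0, 1,
      [6]), (3, 1, [6]), (4, 0, [3]), (5, 0, [3])]⟩,
    ⟨[(0, 2), (1, 2)], [(2, 0), (2, 1), (2, 3)], [(0, 0), (0, 3)], [], [(4, 0, [3]), (5, 0,
      [3]), (7, 3, [0])]⟩,
    ⟨[(0, 2), (1, 2), (2, 3)], [(2, 0), (2, 1), (2, 6), (3, 0)], [(0, 6)], [5], [(5, 0,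
      [3]), (8, 6, [1])]⟩,
    ⟨[(2, 3)], [(2, 0), (3, 0), (3, 3)], [(0, 3)], [4], [(4, 0, [3]), (7, 3, [0])]⟩,
    ⟨[(2, 3), (3, 5)], [(2, 0), (3, 0), (3, 3), (4, 0), (5, 3)], [(0, 3)], [7], [(5, 0,
      [3]), (7, 3, [0])]⟩]
  Ta := [((0, 1), 1, 2), ((0, 6), 1, 5), ((3, 2), 1, 4), ((3, 4), 1, 0), ((4, 2), 0, 4), ((4, 3),
    0, 1), ((5, 8), 0, 6), ((5, 9), 0, 7)]
  Tb := [((0, 1, 6), 1, 2, 5), ((1, 0, 2), 2, 1, 4), ((2, 1, 3), 4, 2, 1), ((2, 1, 4), 4, 2, 0),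
    ((2, 1, 7), 4, 2, 3), ((2, 3, 4), 4, 1, 0), ((2, 3, 7), 4, 1, 3), ((2, 4, 7), 4, 0, 3),
    ((3, 2, 4), 1, 4, 0), ((4, 2, 3), 0, 4, 1), ((5, 8, 9), 0, 6, 7), ((6, 0, 8), 5, 1, 6),
    ((7, 2, 9), 3, 4, 7), ((8, 5, 6), 6, 0, 5), ((9, 5, 7), 7, 0, 3)]
  Tc := []
  Td := [((0, 3), (4, 2), 4), ((0, 3), (4, 3), 1), ((0, 3), (5, 8), 6), ((0, 3), (5, 9), 7), ((1,
    6), (0, 1), 2), ((1, 6), (0, 6), 5), ((1, 6), (3, 2), 4), ((1, 6), (3, 4), 0), ((3, 0),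
    (7, 2), 4), ((3, 0), (7, 9), 7), ((6, 1), (8, 5), 0), ((6, 1), (8, 6), 5)]
  G := [[0, 0, 0x441c86e1522e1cca23922ac24, 0xc821226582922ac122b42cc42122acc1,
    0x4261c86e1821e142182d22ec21], [0, 0x1818c1212ca1818a621c681414c1212c61212614146ca4c,
    0xc82a1a26182d22ac142d226c162142acc2, 0, 0x182a1a26582122ac3429226c362142ac91], [0, 0,
    0xe12c3682326c1a2c1ec23c23aac28, 0xc12c23262c324232ac18,
    0x61c1661823c2b6c1a12c3e4232ac21], [0, 0, 0x8692a8266892212422eca452a126c42e12acc2, 0,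
    0xaa4d2a126668d2612ac11]]

noncomputable def n2718 : Ent := ⟨e2718, noF, [], [], [(16, 15, [1685356702439545624007900436039642273970977273354372543760011218945, 0])]⟩

def c2718 : PLift (Cov.check n2718.C.D v2718 = true) := ⟨by decide +kernel⟩

def b2718 : PLift (entF (fidx ts) 400 2718 n2718 = true) := ⟨by decide +kernel⟩

theorem g2718 : GoodF (fidx ts) 400 2718 := GoodF.ofV v2718 n2718 c2718.down b2718.down

/-- 4596444:2197/3 -/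
noncomputable def e2719 : SCfg where
  D := {
    a := 7
    L := 10
    kp := 7
    inn := [(0, 1), (0, 2), (1, 0), (1, 2), (2, 0), (2, 1), (2, 3), (2, 4), (3, 2), (3, 5), (3, 6), (4,
      2), (5, 3), (6, 3)]
    mix := [(0, 0), (0, 1), (1, 1), (1, 2), (1, 3), (2, 0), (2, 3), (2, 4), (2, 5), (2, 6), (3, 4), (3,
      5), (3, 7), (4, 5), (4, 6), (4, 8), (5, 4), (5, 7), (5, 9), (6, 5), (6, 7), (6, 8)]
    cl := [1, 2, 6, 1, 0, 0, 5, 3, 4, 7]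
    chq := [(0, 3), (1, 4), (3, 0), (4, 1)]
    rng := [(0, 1), (0, 6), (1, 0), (1, 2), (2, 1), (2, 3), (3, 2), (3, 4), (4, 3), (4, 9), (5, 8), (6,
      0), (6, 8), (7, 8), (7, 9), (8, 5), (8, 6), (8, 7), (9, 4), (9, 7)]
    lev := [] }
  links := [[1, 2, 7, 8], [2, 0, 8, 9, 10], [7, 0, 1, 10, 11, 3, 12, 4, 13], [12, 2, 11, 5, 14, 6], [13,
    2, 12, 15], [14, 3, 11, 16], [12, 3, 14, 15]]
  P := {
    a := 7
    N := 17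
    nb := [390, 1797, 15515, 22628, 45060, 83976, 53256, 8453, 643, 1282, 2566, 66604, 32860, 32916,
      98408, 28752, 18464]
    tri := [(0, 1, 2), (0, 1, 8), (0, 2, 7), (0, 7, 8), (1, 2, 10), (1, 8, 9), (1, 9, 10), (2, 3, 11),
      (2, 3, 12), (2, 4, 12), (2, 4, 13), (2, 7, 13), (2, 10, 11), (3, 5, 11), (3, 5, 14), (3, 6,
      12), (3, 6, 14), (4, 12, 15), (4, 13, 15), (5, 11, 16), (5, 14, 16), (6, 12, 15), (6, 14,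
      15)]
    fin := [0, 0, 0, 3, 0, 3, 3, 0, 8, 9, 0, 3, 3, 13, 14, 15, 16]
    chd := [(0, 15), (3, 14)]
    steps := [(0, 1), (0, 2), (0, 4), (0, 7), (0, 10), (3, 5), (3, 6), (3, 11), (3, 12)] }
  rep := [3, 0, 8, 14, 15, 13, 9, 16]

noncomputable def v2719 : Cov.CovD where
  P := 3
  N := 5
  pl := [1, 2, 6, 9]
  lev := [⟨[], [], [], [2], [(0, 1, [4])]⟩,
    ⟨[], [(0, 1)], [], [2, 6], [(3, 1, [4])]⟩,
    ⟨[(0, 1)], [(0, 0), (0, 1), (1, 0), (1, 1)], [(0, 0), (0, 1), (1, 1)], [5], [(0, 1,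
      [4]), (3, 1, [4]), (4, 0, [3]), (5, 0, [3])]⟩,
    ⟨[(0, 2), (1, 2)], [(2, 0), (2, 1), (2, 3)], [(0, 0), (0, 3)], [], [(4, 0, [3]), (5, 0,
      [3]), (7, 3, [0])]⟩,
    ⟨[(0, 2), (1, 2), (2, 3)], [(2, 0), (2, 1), (2, 4), (3, 0)], [(0, 4)], [5], [(5, 0,
      [3]), (8, 4, [1])]⟩,
    ⟨[(2, 3)], [(2, 0), (3, 0), (3, 3)], [(0, 3)], [7], [(4, 0, [3]), (7, 3, [0])]⟩,
    ⟨[(2, 3), (3, 5)], [(2, 0), (3, 0), (3, 3), (3, 4), (4, 0), (4, 4), (5, 3)], [(0, 3),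
      (0, 4), (3, 4)], [], [(5, 0, [3]), (7, 3, [0]), (8, 4, [1])]⟩]
  Ta := [((0, 1), 1, 2), ((0, 6), 1, 5), ((3, 2), 1, 6), ((3, 4), 1, 0), ((4, 3), 0, 1), ((4, 9),
    0, 7), ((5, 8), 0, 4)]
  Tb := [((0, 1, 6), 1, 2, 5), ((1, 0, 2), 2, 1, 6), ((2, 1, 3), 6, 2, 1), ((3, 2, 4), 1, 6, 0),
    ((4, 3, 9), 0, 1, 7), ((6, 0, 8), 5, 1, 4), ((7, 8, 9), 3, 4, 7), ((8, 5, 6), 4, 0, 5),
    ((8, 5, 7), 4, 0, 3), ((8, 6, 7), 4, 5, 3), ((9, 4, 7), 7, 0, 3)]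
  Tc := []
  Td := [((0, 3), (4, 3), 1), ((0, 3), (4, 9), 7), ((0, 3), (5, 8), 4), ((1, 4), (0, 1), 2), ((1,
    4), (0, 6), 5), ((1, 4), (3, 2), 6), ((1, 4), (3, 4), 0), ((3, 0), (7, 8), 4), ((3, 0),
    (7, 9), 7), ((4, 1), (8, 5), 0), ((4, 1), (8, 6), 5), ((4, 1), (8, 7), 3)]
  G := [[0, 0, 0x12a43ca11a26186c2e3126463ac24, 0x11c2221e2611c2221e2ac13c221a26312e21162ac91,
    0x221c14e822e3182e186cc33162ac21], [0,
    0x1818c4d116416ca1818a2b116116ac61818a271414627c2c11c41cc1212a8d6849,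
    0x19c2a5a263cc26962ac91c2125e26358e21162acc2, 0,
    0x93c215a265cc21962acc92e211a2619c2215e2ac91], [0, 0, 0xaac72a1268144c28922f2256121eac28,
    0x2c52229262c922252acc12222d26c12222d2ac58, 0x2a3424da8121a626928324741216ac21], [0, 0,
    0xcc52a692a48c9224a7266c92c632acc6c326a52688c, 0,
    0xca4d2a126cc526692acc12ac2b26648d28652ac91]]

noncomputable def n2719 : Ent := ⟨e2719, noF, [], [], [(9, 16, [1580044410770988437309982408355971841652082177953823432505700241409, 0])]⟩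

def c2719 : PLift (Cov.check n2719.C.D v2719 = true) := ⟨by decide +kernel⟩

def b2719 : PLift (entF (fidx ts) 400 2719 n2719 = true) := ⟨by decide +kernel⟩

theorem g2719 : GoodF (fidx ts) 400 2719 := GoodF.ofV v2719 n2719 c2719.down b2719.down

/-- 4596444:2197 -/
noncomputable def e2720 : SCfg where
  D := {
    a := 7
    L := 11
    kp := 8
    inn := [(0, 1), (0, 2), (1, 0), (1, 2), (2, 0), (2, 1), (2, 3), (2, 4), (3, 2), (3, 5), (3, 6), (4,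
      2), (5, 3), (6, 3)]
    mix := [(0, 0), (0, 1), (1, 1), (1, 2), (1, 3), (2, 0), (2, 3), (2, 4), (2, 5), (2, 6), (3, 4), (3,
      5), (3, 7), (4, 5), (4, 6), (4, 8), (5, 4), (5, 7), (5, 9), (6, 5), (6, 7), (6, 10)]
    cl := [1, 4, 6, 1, 0, 0, 2, 3, 5, 7, 8]
    chq := [(0, 3), (1, 5), (3, 0), (5, 1)]
    rng := [(0, 1), (0, 6), (1, 0), (1, 2), (2, 1), (2, 3), (3, 2), (3, 4), (4, 3), (4, 9), (5, 8), (5,
      10), (6, 0), (6, 8), (7, 9), (7, 10), (8, 5), (8, 6), (9, 4), (9, 7), (10, 5), (10, 7)]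
    lev := [] }
  links := [[1, 2, 7, 8], [2, 0, 8, 9, 10], [7, 0, 1, 10, 11, 3, 12, 4, 13], [12, 2, 11, 5, 14, 6], [13,
    2, 12, 15], [14, 3, 11, 16], [12, 3, 14, 17]]
  P := {
    a := 7
    N := 18
    nb := [390, 1797, 15515, 22628, 45060, 83976, 151560, 8453, 643, 1282, 2566, 66604, 163932, 32916,
      196712, 12304, 18464, 20544]
    tri := [(0, 1, 2), (0, 1, 8), (0, 2, 7), (0, 7, 8), (1, 2, 10), (1, 8, 9), (1, 9, 10), (2, 3, 11),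
      (2, 3, 12), (2, 4, 12), (2, 4, 13), (2, 7, 13), (2, 10, 11), (3, 5, 11), (3, 5, 14), (3, 6,
      12), (3, 6, 14), (4, 12, 15), (4, 13, 15), (5, 11, 16), (5, 14, 16), (6, 12, 17), (6, 14,
      17)]
    fin := [0, 0, 0, 3, 0, 3, 3, 0, 8, 9, 0, 3, 3, 13, 14, 15, 16, 17]
    chd := [(0, 15), (3, 14)]
    steps := [(0, 1), (0, 2), (0, 4), (0, 7), (0, 10), (3, 5), (3, 6), (3, 11), (3, 12)] }
  rep := [3, 0, 13, 14, 8, 15, 9, 16, 17]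

noncomputable def v2720 : Cov.CovD where
  P := 3
  N := 6
  pl := [1, 2, 6, 9, 10]
  lev := [⟨[], [], [], [4], [(0, 1, [5])]⟩,
    ⟨[], [(0, 1)], [], [4, 6], [(3, 1, [5])]⟩,
    ⟨[(0, 1)], [(0, 0), (0, 1), (1, 0), (1, 1)], [(0, 0), (0, 1), (1, 1)], [2], [(0, 1,
      [5]), (3, 1, [5]), (4, 0, [3]), (5, 0, [3])]⟩,
    ⟨[(0, 2), (1, 2)], [(2, 0), (2, 1), (2, 3)], [(0, 0), (0, 3)], [], [(4, 0, [3]), (5, 0,
      [3]), (7, 3, [0])]⟩,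
    ⟨[(0, 2), (1, 2), (2, 3)], [(2, 0), (2, 1), (2, 5), (3, 0)], [(0, 5)], [2], [(5, 0,
      [3]), (8, 5, [1])]⟩,
    ⟨[(2, 3)], [(2, 0), (3, 0), (3, 3)], [(0, 3)], [7], [(4, 0, [3]), (7, 3, [0])]⟩,
    ⟨[(2, 3), (3, 5)], [(2, 0), (3, 0), (3, 3), (4, 0), (5, 3)], [(0, 3)], [8], [(5, 0,
      [3]), (7, 3, [0])]⟩]
  Ta := [((0, 1), 1, 4), ((0, 6), 1, 2), ((3, 2), 1, 6), ((3, 4), 1, 0), ((4, 3), 0, 1), ((4, 9),
    0, 7), ((5, 8), 0, 5), ((5, 10), 0, 8)]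
  Tb := [((0, 1, 6), 1, 4, 2), ((1, 0, 2), 4, 1, 6), ((2, 1, 3), 6, 4, 1), ((3, 2, 4), 1, 6, 0),
    ((4, 3, 9), 0, 1, 7), ((5, 8, 10), 0, 5, 8), ((6, 0, 8), 2, 1, 5), ((7, 9, 10), 3, 7, 8),
    ((8, 5, 6), 5, 0, 2), ((9, 4, 7), 7, 0, 3), ((10, 5, 7), 8, 0, 3)]
  Tc := []
  Td := [((0, 3), (4, 3), 1), ((0, 3), (4, 9), 7), ((0, 3), (5, 8), 5), ((0, 3), (5, 10), 8),
    ((1, 5), (0, 1), 4), ((1, 5), (0, 6), 2), ((1, 5), (3, 2), 6), ((1, 5), (3, 4), 0), ((3,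
    0), (7, 9), 7), ((3, 0), (7, 10), 8), ((5, 1), (8, 5), 0), ((5, 1), (8, 6), 2)]
  G := [[0, 0, 0x1bc2a1a2682b662411a28c13c2a5a26859, 0x441cac111a11a44de82441c8c11212a6cde825,
    0xc3c219a2687bc211a268c53c219a26825], [0,
    0x11c11cc116116ca41411cc1211ac61888c1414c1212c61818c8ce1,
    0x358e21162a419c2a5a26819c235a268d2, 0, 0x11c2ada268b4c8311a26813c2a5a268d2], [0, 0,
    0x6c92c632a46c32ca5268c6c926652a425, 0x648dcc3c616164da4228cd6c5c6161c2da429,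
    0x6228e922892e82aac72a1268ca4d2a126895], [0, 0, 0xc126c272a4c126c272a4c84d24a5268d2, 0,
    0xaa4d2a1268c12ac2b268ca4d2a1268d2]]

noncomputable def n2720 : Ent := ⟨e2720, noF, [], [], [(9, 16, [7334685537875745012586738086077695515070955365108989538292687704809473, 0]), (17, 15, [6903537015784671890245461680740748765157398844539141476817538562781185, 0])]⟩

def c2720 : PLift (Cov.check n2720.C.D v2720 = true) := ⟨by decide +kernel⟩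

def b2720 : PLift (entF (fidx ts) 400 2720 n2720 = true) := ⟨by decide +kernel⟩

theorem g2720 : GoodF (fidx ts) 400 2720 := GoodF.ofV v2720 n2720 c2720.down b2720.down

/-- 4596446:2198/1 -/
noncomputable def e2721 : SCfg where
  D := {
    a := 7
    L := 10
    kp := 7
    inn := [(0, 1), (0, 2), (1, 0), (1, 2), (2, 0), (2, 1), (2, 3), (2, 4), (2, 6), (3, 2), (3, 5), (3,
      6), (4, 2), (5, 3), (5, 6), (6, 2), (6, 3), (6, 5)]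
    mix := [(0, 0), (0, 1), (1, 1), (1, 2), (1, 3), (2, 0), (2, 3), (2, 4), (2, 5), (3, 4), (3, 6), (3,
      7), (4, 4), (4, 5), (4, 8), (5, 6), (5, 9), (6, 2), (6, 3), (6, 9)]
    cl := [0, 1, 2, 0, 0, 5, 3, 6, 7, 4]
    chq := [(0, 3), (0, 4), (3, 0), (4, 0)]
    rng := [(0, 1), (0, 5), (1, 0), (1, 2), (2, 1), (2, 3), (2, 9), (3, 2), (4, 7), (4, 8), (5, 0), (5,
      8), (6, 7), (6, 9), (7, 4), (7, 6), (8, 4), (8, 5), (9, 2), (9, 6)]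
    lev := [] }
  links := [[1, 2, 7, 8], [2, 0, 8, 9, 10], [7, 0, 1, 10, 6, 3, 11, 4, 12], [11, 2, 6, 5, 13, 14], [12,
    2, 11, 15], [13, 3, 6, 16], [16, 5, 3, 2, 10, 9]]
  P := {
    a := 7
    N := 17
    nb := [390, 1797, 7387, 26724, 38916, 73800, 67116, 4357, 643, 66882, 582, 49180, 32916, 81960,
      10248, 6160, 8800]
    tri := [(0, 1, 2), (0, 1, 8), (0, 2, 7), (0, 7, 8), (1, 2, 10), (1, 8, 9), (1, 9, 10), (2, 3, 6),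
      (2, 3, 11), (2, 4, 11), (2, 4, 12), (2, 6, 10), (2, 7, 12), (3, 5, 6), (3, 5, 13), (3, 11,
      14), (3, 13, 14), (4, 11, 15), (4, 12, 15), (5, 6, 16), (5, 13, 16), (6, 9, 10), (6, 9, 16)]
    fin := [0, 0, 0, 0, 0, 0, 0, 0, 8, 9, 0, 0, 12, 13, 14, 15, 16]
    chd := [(0, 13), (0, 16)]
    steps := [(0, 1), (0, 2), (0, 3), (0, 4), (0, 5), (0, 7), (0, 10), (0, 6), (0, 11)] }
  rep := [0, 8, 9, 13, 16, 12, 14, 15]

noncomputable def v2721 : Cov.CovD where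
  P := 3
  N := 5
  pl := [1, 2, 5, 7, 8]
  lev := [⟨[], [], [], [1], [(0, 0, [3, 4])]⟩,
    ⟨[], [(0, 0)], [], [1, 2], [(3, 0, [3, 4])]⟩,
    ⟨[(0, 1)], [(0, 0), (1, 0)], [(0, 0)], [5], [(0, 0, [3, 4]), (3, 0, [3, 4]), (4, 0, [3,
      4])]⟩,
    ⟨[(0, 2), (1, 2)], [(2, 0), (2, 3)], [(0, 3)], [6], [(4, 0, [3, 4]), (6, 3, [0])]⟩,
    ⟨[(0, 2), (1, 2), (2, 3)], [(2, 0), (3, 0)], [], [5, 7], [(4, 0, [3, 4])]⟩,
    ⟨[(2, 3)], [(3, 0), (3, 3), (3, 4)], [(3, 4)], [], [(6, 3, [0]), (9, 4, [0])]⟩,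
    ⟨[(0, 2), (1, 2), (2, 3), (2, 4), (2, 5), (3, 5)], [(1, 0), (2, 0), (2, 4), (3, 0), (3,
      3), (3, 4), (5, 0), (5, 3), (5, 4)], [(0, 4)], [2], [(3, 0, [3, 4]), (9, 4, [0])]⟩]
  Ta := [((0, 1), 0, 1), ((0, 5), 0, 5), ((3, 2), 0, 2), ((4, 7), 0, 6), ((4, 8), 0, 7)]
  Tb := [((0, 1, 5), 0, 1, 5), ((1, 0, 2), 1, 0, 2), ((2, 1, 3), 2, 1, 0), ((2, 1, 9), 2, 1, 4),
    ((2, 3, 9), 2, 0, 4), ((4, 7, 8), 0, 6, 7), ((5, 0, 8), 5, 0, 7), ((6, 7, 9), 3, 6, 4),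
    ((7, 4, 6), 6, 0, 3), ((8, 4, 5), 7, 0, 5), ((9, 2, 6), 4, 2, 3)]
  Tc := [(0, 3, 4)]
  Td := [((0, 3), (0, 1), 1), ((0, 3), (0, 5), 5), ((0, 3), (3, 2), 2), ((0, 3), (4, 7), 6), ((0,
    3), (4, 8), 7), ((0, 4), (0, 1), 1), ((0, 4), (0, 5), 5), ((0, 4), (3, 2), 2), ((0, 4),
    (4, 7), 6), ((0, 4), (4, 8), 7), ((3, 0), (6, 7), 6), ((3, 0), (6, 9), 4), ((4, 0), (9,
    2), 2), ((4, 0), (9, 6), 3)]
  G := [[0, 0x81184411c11c11ec11c11c11eac4, 0, 0xc11811c21e121c1184ce84cead64114898,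
    0xa112222a521a13a11aa1121a158ac88cade14], [0, 0, 0xc11a11611ea11c11c11e688,
    0x411c11c11e8118c11c11c11ee41, 0x2112a11a11a11ea11a11811ee81], [0, 0, 0,
    0x114bc1c52c1a6c1c1ac1c16ca4c11187c92926a485,
    0xa1a1c818a1a16e418182a1111e81b84185185e818e621a1c21a1a689c]]

noncomputable def n2721 : Ent := ⟨e2721, noF, [], [], []⟩

def c2721 : PLift (Cov.check n2721.C.D v2721 = true) := ⟨by decide +kernel⟩

def b2721 : PLift (entF (fidx ts) 400 2721 n2721 = true) := ⟨by decide +kernel⟩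

theorem g2721 : GoodF (fidx ts) 400 2721 := GoodF.ofV v2721 n2721 c2721.down b2721.down

/-- 4596446:2198 -/
noncomputable def e2722 : SCfg where
  D := {
    a := 7
    L := 11
    kp := 8
    inn := [(0, 1), (0, 2), (1, 0), (1, 2), (2, 0), (2, 1), (2, 3), (2, 4), (2, 6), (3, 2), (3, 5), (3,
      6), (4, 2), (5, 3), (5, 6), (6, 2), (6, 3), (6, 5)]
    mix := [(0, 0), (0, 1), (1, 1), (1, 2), (1, 3), (2, 0), (2, 3), (2, 4), (2, 5), (3, 4), (3, 6), (3,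
      7), (4, 4), (4, 5), (4, 8), (5, 6), (5, 9), (6, 3), (6, 9), (6, 10)]
    cl := [0, 1, 5, 0, 0, 2, 3, 6, 7, 4, 8]
    chq := [(0, 3), (0, 4), (3, 0), (4, 0)]
    rng := [(0, 1), (0, 5), (1, 0), (1, 2), (2, 1), (2, 3), (3, 2), (3, 10), (4, 7), (4, 8), (5, 0),
      (5, 8), (6, 7), (6, 9), (7, 4), (7, 6), (8, 4), (8, 5), (9, 6), (9, 10), (10, 3), (10, 9)]
    lev := [] }
  links := [[1, 2, 7, 8], [2, 0, 8, 9, 10], [7, 0, 1, 10, 6, 3, 11, 4, 12], [11, 2, 6, 5, 13, 14], [12,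
    2, 11, 15], [13, 3, 6, 16], [16, 5, 3, 2, 10, 17]]
  P := {
    a := 7
    N := 18
    nb := [390, 1797, 7387, 26724, 38916, 73800, 197676, 4357, 643, 1282, 131654, 49180, 32916, 81960,
      10248, 6160, 139360, 66624]
    tri := [(0, 1, 2), (0, 1, 8), (0, 2, 7), (0, 7, 8), (1, 2, 10), (1, 8, 9), (1, 9, 10), (2, 3, 6),
      (2, 3, 11), (2, 4, 11), (2, 4, 12), (2, 6, 10), (2, 7, 12), (3, 5, 6), (3, 5, 13), (3, 11,
      14), (3, 13, 14), (4, 11, 15), (4, 12, 15), (5, 6, 16), (5, 13, 16), (6, 10, 17), (6, 16,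
      17)]
    fin := [0, 0, 0, 0, 0, 0, 0, 0, 8, 9, 0, 0, 12, 13, 14, 15, 16, 17]
    chd := [(0, 13), (0, 16)]
    steps := [(0, 1), (0, 2), (0, 3), (0, 4), (0, 5), (0, 6), (0, 7), (0, 10), (0, 11)] }
  rep := [0, 8, 12, 13, 16, 9, 14, 15, 17]

noncomputable def v2722 : Cov.CovD where
  P := 3
  N := 6
  pl := [1, 2, 5, 7, 8, 10]
  lev := [⟨[], [], [], [1], [(0, 0, [3, 4])]⟩,
    ⟨[], [(0, 0)], [], [1, 5], [(3, 0, [3, 4])]⟩,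
    ⟨[(0, 1)], [(0, 0), (1, 0)], [(0, 0)], [2], [(0, 0, [3, 4]), (3, 0, [3, 4]), (4, 0, [3,
      4])]⟩,
    ⟨[(0, 2), (1, 2)], [(2, 0), (2, 3)], [(0, 3)], [6], [(4, 0, [3, 4]), (6, 3, [0])]⟩,
    ⟨[(0, 2), (1, 2), (2, 3)], [(2, 0), (3, 0)], [], [2, 7], [(4, 0, [3, 4])]⟩,
    ⟨[(2, 3)], [(3, 0), (3, 3), (3, 4)], [(3, 4)], [], [(6, 3, [0]), (9, 4, [0])]⟩,
    ⟨[(0, 2), (1, 2), (2, 3), (2, 4), (2, 5), (3, 5)], [(1, 0), (2, 0), (2, 4), (3, 0), (3,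
      3), (3, 4), (5, 0), (5, 3), (5, 4)], [(0, 4)], [8], [(3, 0, [3, 4]), (9, 4, [0])]⟩]
  Ta := [((0, 1), 0, 1), ((0, 5), 0, 2), ((3, 2), 0, 5), ((3, 10), 0, 8), ((4, 7), 0, 6), ((4,
    8), 0, 7)]
  Tb := [((0, 1, 5), 0, 1, 2), ((1, 0, 2), 1, 0, 5), ((2, 1, 3), 5, 1, 0), ((3, 2, 10), 0, 5, 8),
    ((4, 7, 8), 0, 6, 7), ((5, 0, 8), 2, 0, 7), ((6, 7, 9), 3, 6, 4), ((7, 4, 6), 6, 0, 3),
    ((8, 4, 5), 7, 0, 2), ((9, 6, 10), 4, 3, 8), ((10, 3, 9), 8, 0, 4)]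
  Tc := [(0, 3, 4)]
  Td := [((0, 3), (0, 1), 1), ((0, 3), (0, 5), 2), ((0, 3), (3, 2), 5), ((0, 3), (3, 10), 8),
    ((0, 3), (4, 7), 6), ((0, 3), (4, 8), 7), ((0, 4), (0, 1), 1), ((0, 4), (0, 5), 2), ((0,
    4), (3, 2), 5), ((0, 4), (3, 10), 8), ((0, 4), (4, 7), 6), ((0, 4), (4, 8), 7), ((3, 0),
    (6, 7), 6), ((3, 0), (6, 9), 4), ((4, 0), (9, 6), 3), ((4, 0), (9, 10), 8)]
  G := [[0, 0x6111a51e11e1818c4114e11a111c31ec62, 0x466e2eeea1a88ec8a1a14, 0x611e11e11e8118c14,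
    0x2112e11e11c11ea14], [0, 0, 0, 0x6114e11811e11ec411e11411ea11a11acc1,
    0x6112e11e11811ea2112e11e11c11eac1], [0, 0, 0, 0xe181ca18818e4161441e1c61e1ce81c,
    0x21261e1a21e1aee1c1a818c18ea14]]

noncomputable def n2722 : Ent := ⟨e2722, noF, [], [], [(9, 17, [6903326391201334775872065844685381424292761054348340378595029940834305, 0])]⟩

def c2722 : PLift (Cov.check n2722.C.D v2722 = true) := ⟨by decide +kernel⟩

def b2722 : PLift (entF (fidx ts) 400 2722 n2722 = true) := ⟨by decide +kernel⟩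

theorem g2722 : GoodF (fidx ts) 400 2722 := GoodF.ofV v2722 n2722 c2722.down b2722.down

/-- 4596446:2199/1 -/
noncomputable def e2723 : SCfg where
  D := {
    a := 7
    L := 10
    kp := 7
    inn := [(0, 1), (0, 2), (1, 0), (1, 2), (2, 0), (2, 1), (2, 3), (2, 4), (2, 6), (3, 2), (3, 5), (3,
      6), (4, 2), (4, 6), (5, 3), (6, 2), (6, 3), (6, 4)]
    mix := [(0, 0), (0, 1), (1, 1), (1, 2), (1, 3), (2, 0), (2, 3), (2, 4), (2, 5), (3, 4), (3, 6), (3,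
      7), (4, 5), (4, 8), (5, 1), (5, 6), (5, 7), (6, 7), (6, 8), (6, 9)]
    cl := [0, 1, 6, 0, 3, 2, 5, 3, 4, 7]
    chq := [(0, 4), (3, 4), (4, 0), (4, 3)]
    rng := [(0, 1), (0, 5), (1, 0), (1, 2), (1, 6), (1, 7), (2, 1), (2, 3), (3, 2), (3, 4), (4, 3), (4,
      6), (5, 0), (5, 8), (6, 1), (6, 4), (7, 1), (7, 9), (8, 5), (8, 9), (9, 7), (9, 8)]
    lev := [] }
  links := [[1, 2, 7, 8], [2, 0, 8, 9, 10], [7, 0, 1, 10, 11, 3, 6, 4, 12], [6, 2, 11, 13, 5, 14], [12,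
    2, 6, 15], [14, 3, 13, 8], [15, 4, 2, 3, 14, 16]]
  P := {
    a := 7
    N := 17
    nb := [390, 1797, 7387, 26724, 36932, 24840, 114716, 4357, 25251, 1282, 2566, 9228, 32916, 2344,
      65896, 69712, 49216]
    tri := [(0, 1, 2), (0, 1, 8), (0, 2, 7), (0, 7, 8), (1, 2, 10), (1, 8, 9), (1, 9, 10), (2, 3, 6),
      (2, 3, 11), (2, 4, 6), (2, 4, 12), (2, 7, 12), (2, 10, 11), (3, 5, 13), (3, 5, 14), (3, 6,
      14), (3, 11, 13), (4, 6, 15), (4, 12, 15), (5, 8, 13), (5, 8, 14), (6, 14, 16), (6, 15, 16)]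
    fin := [0, 0, 0, 3, 0, 5, 3, 0, 5, 9, 0, 3, 12, 13, 3, 15, 16]
    chd := [(0, 15), (3, 15)]
    steps := [(0, 1), (0, 2), (0, 4), (0, 7), (0, 10), (3, 6), (3, 11), (3, 14), (5, 8)] }
  rep := [0, 5, 12, 3, 15, 13, 9, 16]

noncomputable def v2723 : Cov.CovD where
  P := 3
  N := 5
  pl := [1, 2, 5, 6, 9]
  lev := [⟨[], [], [], [1], [(0, 0, [4])]⟩,
    ⟨[], [(0, 0)], [], [1, 6], [(3, 0, [4])]⟩,
    ⟨[(0, 1)], [(0, 0), (0, 3), (1, 0), (1, 3)], [(0, 0), (0, 3)], [2], [(0, 0, [4]), (3,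
      0, [4]), (4, 3, [4])]⟩,
    ⟨[(0, 2), (1, 2)], [(2, 0), (2, 3)], [(3, 3)], [5], [(4, 3, [4]), (7, 3, [4])]⟩,
    ⟨[(0, 2), (1, 2), (2, 3)], [(2, 0), (2, 3), (2, 4)], [], [2], [(8, 4, [0, 3])]⟩,
    ⟨[(2, 3)], [(3, 3)], [], [1, 5], [(7, 3, [4])]⟩,
    ⟨[(0, 2), (1, 2), (2, 3), (2, 4), (3, 4), (3, 5)], [(2, 0), (2, 3), (2, 4), (3, 3), (3,
      4), (4, 3), (4, 4), (5, 3)], [(3, 4)], [7], [(7, 3, [4]), (8, 4, [0, 3])]⟩]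
  Ta := [((0, 1), 0, 1), ((0, 5), 0, 2), ((3, 2), 0, 6), ((3, 4), 0, 3), ((4, 3), 3, 0), ((4, 6),
    3, 5), ((7, 1), 3, 1), ((7, 9), 3, 7)]
  Tb := [((0, 1, 5), 0, 1, 2), ((1, 0, 2), 1, 0, 6), ((1, 0, 6), 1, 0, 5), ((1, 0, 7), 1, 0, 3),
    ((1, 2, 6), 1, 6, 5), ((1, 2, 7), 1, 6, 3), ((1, 6, 7), 1, 5, 3), ((2, 1, 3), 6, 1, 0),
    ((3, 2, 4), 0, 6, 3), ((4, 3, 6), 3, 0, 5), ((5, 0, 8), 2, 0, 4), ((6, 1, 4), 5, 1, 3),
    ((7, 1, 9), 3, 1, 7), ((8, 5, 9), 4, 2, 7), ((9, 7, 8), 7, 3, 4)]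
  Tc := [(4, 0, 3)]
  Td := [((0, 4), (0, 1), 1), ((0, 4), (0, 5), 2), ((0, 4), (3, 2), 6), ((0, 4), (3, 4), 3), ((3,
    4), (4, 3), 0), ((3, 4), (4, 6), 5), ((3, 4), (7, 1), 1), ((3, 4), (7, 9), 7), ((4, 0),
    (8, 5), 2), ((4, 0), (8, 9), 7), ((4, 3), (8, 5), 2), ((4, 3), (8, 9), 7)]
  G := [[0, 0xa86114864a118624e1188611c6a, 0x482842d84185c16f218, 0xb44e1138418113c14,
    0x58c1e113214], [0, 0x3419211838cc6ed781411211818eeeed7864, 0x144bc6b41d1161c91a967814,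
    0x4151941b86155e11f814, 0x781b4119841d1e11f218], [0, 0, 0,
    0x1814c2ec1e11b48481411381414ce81e1178418113cc9, 0x68114a431c91e2681b41d11e2c1], [0, 0,
    0, 0x4151941b61d1e11f84144478c1871d114e19bc85, 0x781b41448199e11f2781a4149841d1e11f2c1]]

noncomputable def n2723 : Ent := ⟨e2723, noF, [], [], []⟩

def c2723 : PLift (Cov.check n2723.C.D v2723 = true) := ⟨by decide +kernel⟩

def b2723 : PLift (entF (fidx ts) 400 2723 n2723 = true) := ⟨by decide +kernel⟩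

theorem g2723 : GoodF (fidx ts) 400 2723 := GoodF.ofV v2723 n2723 c2723.down b2723.down

/-- 4596446:2199/2 -/
noncomputable def e2724 : SCfg where
  D := {
    a := 7
    L := 10
    kp := 7
    inn := [(0, 1), (0, 2), (1, 0), (1, 2), (2, 0), (2, 1), (2, 3), (2, 4), (2, 6), (3, 2), (3, 5), (3,
      6), (4, 2), (4, 6), (5, 3), (6, 2), (6, 3), (6, 4)]
    mix := [(0, 0), (0, 1), (1, 1), (1, 2), (1, 3), (2, 0), (2, 3), (2, 4), (2, 5), (3, 4), (3, 6), (3,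
      7), (4, 5), (4, 8), (5, 2), (5, 6), (5, 7), (6, 7), (6, 8), (6, 9)]
    cl := [0, 1, 2, 0, 3, 5, 6, 3, 4, 7]
    chq := [(0, 4), (3, 4), (4, 0), (4, 3)]
    rng := [(0, 1), (0, 5), (1, 0), (1, 2), (2, 1), (2, 3), (2, 6), (2, 7), (3, 2), (3, 4), (4, 3), (4,
      6), (5, 0), (5, 8), (6, 2), (6, 4), (7, 2), (7, 9), (8, 5), (8, 9), (9, 7), (9, 8)]
    lev := [] }
  links := [[1, 2, 7, 8], [2, 0, 8, 9, 10], [7, 0, 1, 10, 11, 3, 6, 4, 12], [6, 2, 11, 13, 5, 14], [12,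
    2, 6, 15], [14, 3, 13, 9], [15, 4, 2, 3, 14, 16]]
  P := {
    a := 7
    N := 17
    nb := [390, 1797, 7387, 26724, 36932, 25096, 114716, 4357, 643, 25890, 2566, 9228, 32916, 2600,
      66152, 69712, 49216]
    tri := [(0, 1, 2), (0, 1, 8), (0, 2, 7), (0, 7, 8), (1, 2, 10), (1, 8, 9), (1, 9, 10), (2, 3, 6),
      (2, 3, 11), (2, 4, 6), (2, 4, 12), (2, 7, 12), (2, 10, 11), (3, 5, 13), (3, 5, 14), (3, 6,
      14), (3, 11, 13), (4, 6, 15), (4, 12, 15), (5, 9, 13), (5, 9, 14), (6, 14, 16), (6, 15, 16)]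
    fin := [0, 0, 0, 3, 0, 5, 3, 0, 8, 5, 0, 3, 12, 13, 3, 15, 16]
    chd := [(0, 15), (3, 15)]
    steps := [(0, 1), (0, 2), (0, 4), (0, 7), (0, 10), (3, 6), (3, 11), (3, 14), (5, 9)] }
  rep := [0, 8, 5, 3, 15, 12, 13, 16]

noncomputable def v2724 : Cov.CovD where
  P := 3
  N := 5
  pl := [1, 2, 5, 6, 9]
  lev := [⟨[], [], [], [1], [(0, 0, [4])]⟩,
    ⟨[], [(0, 0)], [], [1, 2], [(3, 0, [4])]⟩,
    ⟨[(0, 1)], [(0, 0), (0, 3), (1, 0), (1, 3)], [(0, 0), (0, 3)], [5], [(0, 0, [4]), (3,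
      0, [4]), (4, 3, [4])]⟩,
    ⟨[(0, 2), (1, 2)], [(2, 0), (2, 3)], [(3, 3)], [6], [(4, 3, [4]), (7, 3, [4])]⟩,
    ⟨[(0, 2), (1, 2), (2, 3)], [(2, 0), (2, 3), (2, 4)], [], [5], [(8, 4, [0, 3])]⟩,
    ⟨[(2, 3)], [(3, 3)], [], [2, 6], [(7, 3, [4])]⟩,
    ⟨[(0, 2), (1, 2), (2, 3), (2, 4), (3, 4), (3, 5)], [(2, 0), (2, 3), (2, 4), (3, 3), (3,
      4), (4, 3), (4, 4), (5, 3)], [(3, 4)], [7], [(7, 3, [4]), (8, 4, [0, 3])]⟩]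
  Ta := [((0, 1), 0, 1), ((0, 5), 0, 5), ((3, 2), 0, 2), ((3, 4), 0, 3), ((4, 3), 3, 0), ((4, 6),
    3, 6), ((7, 2), 3, 2), ((7, 9), 3, 7)]
  Tb := [((0, 1, 5), 0, 1, 5), ((1, 0, 2), 1, 0, 2), ((2, 1, 3), 2, 1, 0), ((2, 1, 6), 2, 1, 6),
    ((2, 1, 7), 2, 1, 3), ((2, 3, 6), 2, 0, 6), ((2, 3, 7), 2, 0, 3), ((2, 6, 7), 2, 6, 3),
    ((3, 2, 4), 0, 2, 3), ((4, 3, 6), 3, 0, 6), ((5, 0, 8), 5, 0, 4), ((6, 2, 4), 6, 2, 3),
    ((7, 2, 9), 3, 2, 7), ((8, 5, 9), 4, 5, 7), ((9, 7, 8), 7, 3, 4)]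
  Tc := [(4, 0, 3)]
  Td := [((0, 4), (0, 1), 1), ((0, 4), (0, 5), 5), ((0, 4), (3, 2), 2), ((0, 4), (3, 4), 3), ((3,
    4), (4, 3), 0), ((3, 4), (4, 6), 6), ((3, 4), (7, 2), 2), ((3, 4), (7, 9), 7), ((4, 0),
    (8, 5), 5), ((4, 0), (8, 9), 7), ((4, 3), (8, 5), 5), ((4, 3), (8, 9), 7)]
  G := [[0, 0x841a11348581611349c1c113a4c, 0, 0xbbc4233c849811354558cd52e14,
    0x281211548298b236121a1dd78812c195e18], [0, 0x4bc1b41d11818e1d7781b41841d1e11fa44, 0,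
    0x2121413887fd522411524b238185dd4ae1c,
    0x18789821b212523a12f48861b1d2125e1177878a5114c14da1c], [0, 0, 0x6a8e1168ce116624e118c8,
    0xb65128a51258dd12e41, 0x681b11d21e1818ae21e11d68281211588c], [0, 0,
    0xb419211818e46ed778114112128eee7da41, 0xb7fd1248b7fd1284c,
    0x781821b1d21e11f5aa1871b1111e11f688]]

noncomputable def n2724 : Ent := ⟨e2724, noF, [], [], []⟩

def c2724 : PLift (Cov.check n2724.C.D v2724 = true) := ⟨by decide +kernel⟩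

def b2724 : PLift (entF (fidx ts) 400 2724 n2724 = true) := ⟨by decide +kernel⟩

theorem g2724 : GoodF (fidx ts) 400 2724 := GoodF.ofV v2724 n2724 c2724.down b2724.down

/-- The entries 2596 to 2724. -/
theorem rE18 : Rng (GoodF (fidx ts) 400) 2596 2725 :=
  ((((((((((((((((((((((((((((((((((((((((((((((((((((((((((((((((((((((((((((((((((((((((((((((((((((((((((((((((((((((((((((((((((Rng.nil _ 2596).snoc g2596 rfl).snoc g2597 rfl).snoc g2598 rfl).snoc g2599 rfl).snoc g2600 rfl).snoc g2601 rfl).snoc g2602 rfl).snoc g2603 rfl).snoc g2604 rfl).snoc g2605 rfl).snoc g2606 rfl).snoc g2607 rfl).snoc g2608 rfl).snoc g2609 rfl).snoc g2610 rfl).snoc g2611 rfl).snoc g2612 rfl).snoc g2613 rfl).snoc g2614 rfl).snoc g2615 rfl).snoc g2616 rfl).snoc g2617 rfl).snoc g2618 rfl).snoc g2619 rfl).snoc g2620 rfl).snoc g2621 rfl).snoc g2622 rfl).snoc g2623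 rfl).snoc g2624 rfl).snoc g2625 rfl).snoc g2626 rfl).snoc g2627 rfl).snoc g2628 rfl).snoc g2629 rfl).snoc g2630 rfl).snoc g2631 rfl).snoc g2632 rfl).snoc g2633 rfl).snoc g2634 rfl).snoc g2635 rfl).snoc g2636 rfl).snoc g2637 rfl).snoc g2638 rfl).snoc g2639 rfl).snoc g2640 rfl).snoc g2641 rfl).snoc g2642 rfl).snoc g2643 rfl).snoc g2644 rfl).snoc g2645 rfl).snoc g2646 rfl).snoc g2647 rfl).snoc g2648 rfl).snoc g2649 rfl).snoc g2650 rfl).snoc g2651 rfl).snoc g2652 rfl).snoc g2653 rfl).snoc g2654 rfl).snoc g2655 rfl).snoc g2656 rfl).snoc g2657 rfl).snoc g2658 rfl).snoc g2659 rfl).snoc g2660 rfl).snoc g2661 rfl).snoc g2662 rfl).snoc g2663 rfl).snoc g2664 rfl).snoc g2665 rfl).snoc g2666 rfl).snoc g2667 rfl).snoc g2668 rfl).snoc g2669 rfl).snoc g2670 rfl).snoc g2671 rfl).snoc g2672 rfl).snoc g2673 rfl).snoc g2674 rfl).snoc g2675 rfl).snoc g2676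 rfl).snoc g2677 rfl).snoc g2678 rfl).snoc g2679 rfl).snoc g2680 rfl).snoc g2681 rfl).snoc g2682 rfl).snoc g2683 rfl).snoc g2684 rfl).snoc g2685 rfl).snoc g2686 rfl).snoc g2687 rfl).snoc g2688 rfl).snoc g2689 rfl).snoc g2690 rfl).snoc g2691 rfl).snoc g2692 rfl).snoc g2693 rfl).snoc g2694 rfl).snoc g2695 rfl).snoc g2696 rfl).snoc g2697 rfl).snoc g2698 rfl).snoc g2699 rfl).snoc g2700 rfl).snoc g2701 rfl).snoc g2702 rfl).snoc g2703 rfl).snoc g2704 rfl).snoc g2705 rfl).snoc g2706 rfl).snoc g2707 rfl).snoc g2708 rfl).snoc g2709 rfl).snoc g2710 rfl).snoc g2711 rfl).snoc g2712 rfl).snoc g2713 rfl).snoc g2714 rfl).snoc g2715 rfl).snoc g2716 rfl).snoc g2717 rfl).snoc g2718 rfl).snoc g2719 rfl).snoc g2720 rfl).snoc g2721 rfl).snoc g2722 rfl).snoc g2723 rfl).snoc g2724 rfl)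

end Pool.Agent.W986.ST.Dat
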