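import Pool.Agent.W986.Dat.Tab
import Pool.Agent.W986.SubAltB

/-!
# Entries 2725 to 2851 of the table
-/

set_option autoImplicit false

namespace Pool.Agent.W986.ST.Dat

/-- 4596446:2199 -/
noncomputable def e2725 : SCfg where
  D := {
    a := 7
    L := 11
    kp := 8
    inn := [(0, 1), (0, 2), (1, 0), (1, 2), (2, 0), (2, 1), (2, 3), (2, 4), (2, 6), (3, 2), (3, 5), (3,
      6), (4, 2), (4, 6), (5, 3), (6, 2), (6, 3), (6, 4)]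
    mix := [(0, 0), (0, 1), (1, 1), (1, 2), (1, 3), (2, 0), (2, 3), (2, 4), (2, 5), (3, 4), (3, 6), (3,
      7), (4, 5), (4, 8), (5, 6), (5, 7), (5, 9), (6, 7), (6, 8), (6, 10)]
    cl := [1, 4, 6, 1, 0, 2, 5, 0, 3, 7, 8]
    chq := [(0, 3), (1, 3), (3, 0), (3, 1)]
    rng := [(0, 1), (0, 5), (1, 0), (1, 2), (2, 1), (2, 3), (3, 2), (3, 4), (4, 3), (4, 6), (5, 0), (5,
      8), (6, 4), (6, 9), (7, 9), (7, 10), (8, 5), (8, 10), (9, 6), (9, 7), (10, 7), (10, 8)]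
    lev := [] }
  links := [[1, 2, 7, 8], [2, 0, 8, 9, 10], [7, 0, 1, 10, 11, 3, 6, 4, 12], [6, 2, 11, 13, 5, 14], [12,
    2, 6, 15], [14, 3, 13, 16], [15, 4, 2, 3, 14, 17]]
  P := {
    a := 7
    N := 18
    nb := [390, 1797, 7387, 26724, 36932, 90120, 180252, 4357, 643, 1282, 2566, 9228, 32916, 67624,
      196712, 135248, 24608, 49216]
    tri := [(0, 1, 2), (0, 1, 8), (0, 2, 7), (0, 7, 8), (1, 2, 10), (1, 8, 9), (1, 9, 10), (2, 3, 6),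
      (2, 3, 11), (2, 4, 6), (2, 4, 12), (2, 7, 12), (2, 10, 11), (3, 5, 13), (3, 5, 14), (3, 6,
      14), (3, 11, 13), (4, 6, 15), (4, 12, 15), (5, 13, 16), (5, 14, 16), (6, 14, 17), (6, 15,
      17)]
    fin := [0, 0, 0, 3, 0, 3, 3, 0, 8, 9, 0, 3, 12, 13, 3, 15, 16, 17]
    chd := [(0, 15), (3, 15)]
    steps := [(0, 1), (0, 2), (0, 4), (0, 7), (0, 10), (3, 5), (3, 6), (3, 11), (3, 14)] }
  rep := [3, 0, 12, 15, 8, 13, 9, 16, 17]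

noncomputable def v2725 : Cov.CovD where
  P := 3
  N := 6
  pl := [1, 2, 5, 6, 9, 10]
  lev := [⟨[], [], [], [4], [(0, 1, [3])]⟩,
    ⟨[], [(0, 1)], [], [4, 6], [(3, 1, [3])]⟩,
    ⟨[(0, 1)], [(0, 0), (0, 1), (1, 0), (1, 1)], [(0, 1), (1, 1)], [2], [(0, 1, [3]), (3,
      1, [3]), (4, 0, [3])]⟩,
    ⟨[(0, 2), (1, 2)], [(2, 0), (2, 1)], [(0, 0)], [5], [(4, 0, [3]), (7, 0, [3])]⟩,
    ⟨[(0, 2), (1, 2), (2, 3)], [(2, 0), (2, 1), (2, 3)], [], [2], [(8, 3, [0, 1])]⟩,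
    ⟨[(2, 3)], [(3, 0)], [], [5, 7], [(7, 0, [3])]⟩,
    ⟨[(0, 2), (1, 2), (2, 3), (2, 4), (3, 4), (3, 5)], [(2, 0), (2, 1), (2, 3), (3, 0), (3,
      3), (4, 0), (4, 3), (5, 0)], [(0, 3)], [8], [(7, 0, [3]), (8, 3, [0, 1])]⟩]
  Ta := [((0, 1), 1, 4), ((0, 5), 1, 2), ((3, 2), 1, 6), ((3, 4), 1, 0), ((4, 3), 0, 1), ((4, 6),
    0, 5), ((7, 9), 0, 7), ((7, 10), 0, 8)]
  Tb := [((0, 1, 5), 1, 4, 2), ((1, 0, 2), 4, 1, 6), ((2, 1, 3), 6, 4, 1), ((3, 2, 4), 1, 6, 0),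
    ((4, 3, 6), 0, 1, 5), ((5, 0, 8), 2, 1, 3), ((6, 4, 9), 5, 0, 7), ((7, 9, 10), 0, 7, 8),
    ((8, 5, 10), 3, 2, 8), ((9, 6, 7), 7, 5, 0), ((10, 7, 8), 8, 0, 3)]
  Tc := [(3, 0, 1)]
  Td := [((0, 3), (4, 3), 1), ((0, 3), (4, 6), 5), ((0, 3), (7, 9), 7), ((0, 3), (7, 10), 8),
    ((1, 3), (0, 1), 4), ((1, 3), (0, 5), 2), ((1, 3), (3, 2), 6), ((1, 3), (3, 4), 0), ((3,
    0), (8, 5), 2), ((3, 0), (8, 10), 8), ((3, 1), (8, 5), 2), ((3, 1), (8, 10), 8)]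
  G := [[0, 0, 0x11c21162a4811c211a268211c21162a41d, 0x14eac5e116824121511c866ed1e825,
    0x116d211a61368261111c21c32e84611133e2812e81d], [0, 0x11ca15e11684e11a1116ca4e114e118ca5,
    0x11c21162a411c211a26811c211a268d2, 0, 0x11c61355a21368dbc2e1168ce1111cb26813], [0, 0,
    0x2262444c28828cce2ec2282e28444226ea2e22828c4ceee8c282e284444ca2e2c4ce2e83d,
    0x4261ea2e1e4ce1e828aee184c1664ee18c25,
    0x64ee2888e28844ae184661ea6e1e48e1e822661484261ea2e2c2e4c3e89d], [0, 0,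
    0x226246c2e28888cce2ec4662ca6e2c48e2e2828c8aee2464ee28844aacd2, 0,
    0x8a2e14642e284ce2a94226146c2e28888cce2e94261ea2e1e4ce1e896]]

noncomputable def n2725 : Ent := ⟨e2725, noF, [], [], [(8, 16, [7334685537875745012586738086077695515070955365108989538292687704829953, 0]), (9, 16, [7334685537875745012586738086077695515070955365108989538292687704834049, 0])]⟩

def c2725 : PLift (Cov.check n2725.C.D v2725 = true) := ⟨by decide +kernel⟩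

def b2725 : PLift (entF (fidx ts) 400 2725 n2725 = true) := ⟨by decide +kernel⟩

theorem g2725 : GoodF (fidx ts) 400 2725 := GoodF.ofV v2725 n2725 c2725.down b2725.down

/-- 4649464:2201/1 -/
noncomputable def e2726 : SCfg where
  D := {
    a := 7
    L := 10
    kp := 7
    inn := [(0, 1), (1, 0), (1, 2), (1, 3), (1, 5), (2, 1), (2, 5), (3, 1), (3, 4), (3, 5), (3, 6), (4,
      3), (5, 1), (5, 2), (5, 3), (6, 3)]
    mix := [(0, 0), (0, 1), (0, 2), (1, 0), (1, 2), (2, 2), (2, 3), (3, 0), (3, 4), (3, 5), (3, 6), (3,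
      7), (4, 5), (4, 6), (4, 8), (5, 3), (5, 4), (5, 9), (6, 0), (6, 1), (6, 7)]
    cl := [0, 2, 1, 3, 0, 4, 0, 5, 6, 7]
    chq := [(0, 1), (0, 3), (1, 0), (3, 0)]
    rng := [(0, 1), (1, 0), (1, 2), (1, 7), (2, 1), (2, 3), (3, 2), (3, 9), (4, 5), (4, 9), (5, 4), (5,
      8), (6, 7), (6, 8), (7, 1), (7, 6), (8, 5), (8, 6), (9, 3), (9, 4)]
    lev := [] }
  links := [[1, 7, 8, 9], [7, 0, 9, 2, 5, 3], [5, 1, 9, 10], [7, 1, 5, 11, 12, 4, 13, 14, 6], [13, 3, 12,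
    15], [11, 3, 1, 2, 10, 16], [7, 3, 14, 8]]
  P := {
    a := 7
    N := 17
    nb := [898, 685, 1570, 30962, 45064, 68622, 16776, 331, 17089, 1287, 66084, 69672, 34840, 49176,
      8520, 12304, 3104]
    tri := [(0, 1, 7), (0, 1, 9), (0, 7, 8), (0, 8, 9), (1, 2, 5), (1, 2, 9), (1, 3, 5), (1, 3, 7), (2,
      5, 10), (2, 9, 10), (3, 4, 12), (3, 4, 13), (3, 5, 11), (3, 6, 7), (3, 6, 14), (3, 11, 12),
      (3, 13, 14), (4, 12, 15), (4, 13, 15), (5, 10, 16), (5, 11, 16), (6, 7, 8), (6, 8, 14)]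
    fin := [0, 0, 0, 0, 0, 0, 0, 0, 8, 9, 10, 0, 12, 0, 14, 15, 16]
    chd := [(0, 9), (0, 10)]
    steps := [(0, 1), (0, 2), (0, 3), (0, 4), (0, 5), (0, 7), (0, 6), (0, 11), (0, 13)] }
  rep := [0, 9, 8, 10, 12, 14, 15, 16]

noncomputable def v2726 : Cov.CovD where
  P := 3
  N := 5
  pl := [1, 5, 7, 8, 9]
  lev := [⟨[], [], [(0, 1)], [2], [(0, 0, [1, 3]), (2, 1, [0])]⟩,
    ⟨[], [(0, 0), (0, 1)], [(0, 1)], [], [(0, 0, [1, 3]), (2, 1, [0])]⟩,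
    ⟨[(0, 1)], [(0, 1), (1, 0), (1, 1), (1, 3)], [(1, 3)], [], [(2, 1, [0]), (3, 3, [0])]⟩,
    ⟨[(0, 1), (1, 2)], [(0, 0), (1, 0), (1, 1)], [(0, 0)], [4, 5], [(0, 0, [1, 3]), (4, 0,
      [1, 3]), (6, 0, [1, 3])]⟩,
    ⟨[(1, 3)], [(3, 0)], [], [4, 6], [(6, 0, [1, 3])]⟩,
    ⟨[(0, 1), (1, 2), (1, 3), (2, 3), (3, 4)], [(1, 0), (1, 1), (1, 3), (2, 0), (2, 1), (2,
      3), (3, 0), (3, 3)], [(0, 3)], [7], [(3, 3, [0]), (4, 0, [1, 3])]⟩,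
    ⟨[(1, 3), (3, 4), (3, 5)], [(0, 0), (1, 0), (3, 0)], [], [2, 5], [(0, 0, [1, 3])]⟩]
  Ta := [((0, 1), 0, 2), ((4, 5), 0, 4), ((4, 9), 0, 7), ((6, 7), 0, 5), ((6, 8), 0, 6)]
  Tb := [((1, 0, 2), 2, 0, 1), ((1, 0, 7), 2, 0, 5), ((1, 2, 7), 2, 1, 5), ((2, 1, 3), 1, 2, 3),
    ((3, 2, 9), 3, 1, 7), ((4, 5, 9), 0, 4, 7), ((5, 4, 8), 4, 0, 6), ((6, 7, 8), 0, 5, 6),
    ((7, 1, 6), 5, 2, 0), ((8, 5, 6), 6, 4, 0), ((9, 3, 4), 7, 3, 0)]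
  Tc := [(0, 1, 3)]
  Td := [((0, 1), (0, 1), 2), ((0, 1), (4, 5), 4), ((0, 1), (4, 9), 7), ((0, 1), (6, 7), 5), ((0,
    1), (6, 8), 6), ((0, 3), (0, 1), 2), ((0, 3), (4, 5), 4), ((0, 3), (4, 9), 7), ((0, 3),
    (6, 7), 5), ((0, 3), (6, 8), 6), ((1, 0), (2, 1), 2), ((1, 0), (2, 3), 3), ((3, 0), (3,
    2), 1), ((3, 0), (3, 9), 7)]
  G := [[0, 0x111111111e111411111e684, 0x8118811211ac441121164114c8c,
    0x4114481188861ccce1a9c44a1418c, 0x2112aa6145811a81211e88612161a9c8], [0,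
    0x811411111e811111111ec24, 0, 0x1161165411e1111e144e111ede118181c4,
    0x116116341181818b4116181e9111e18111e7a9c8], [0, 0x111111111e111411111ec24, 0,
    0x4111c492445518c12a5122116588ec11a8444e851e11ceedc184418c,
    0x314912621612116e216186c65118218119912fa136122e188ee182c928a8c48d8]]

noncomputable def n2726 : Ent := ⟨e2726, noF, [], [], []⟩

def c2726 : PLift (Cov.check n2726.C.D v2726 = true) := ⟨by decide +kernel⟩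

def b2726 : PLift (entF (fidx ts) 400 2726 n2726 = true) := ⟨by decide +kernel⟩

theorem g2726 : GoodF (fidx ts) 400 2726 := GoodF.ofV v2726 n2726 c2726.down b2726.down

/-- 4649464:2201 -/
noncomputable def e2727 : SCfg where
  D := {
    a := 7
    L := 11
    kp := 8
    inn := [(0, 1), (1, 0), (1, 2), (1, 3), (1, 5), (2, 1), (2, 5), (3, 1), (3, 4), (3, 5), (3, 6), (4,
      3), (5, 1), (5, 2), (5, 3), (6, 3)]
    mix := [(0, 0), (0, 1), (0, 2), (1, 0), (1, 2), (2, 2), (2, 3), (3, 0), (3, 4), (3, 5), (3, 6), (3,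
      7), (4, 5), (4, 6), (4, 8), (5, 3), (5, 4), (5, 9), (6, 0), (6, 7), (6, 10)]
    cl := [0, 6, 1, 3, 0, 2, 0, 4, 7, 5, 8]
    chq := [(0, 1), (1, 0), (1, 5), (5, 1)]
    rng := [(0, 1), (0, 10), (1, 0), (1, 2), (2, 1), (2, 3), (3, 2), (3, 9), (4, 5), (4, 9), (5, 4),
      (5, 8), (6, 7), (6, 8), (7, 6), (7, 10), (8, 5), (8, 6), (9, 3), (9, 4), (10, 0), (10, 7)]
    lev := [] }
  links := [[1, 7, 8, 9], [7, 0, 9, 2, 5, 3], [5, 1, 9, 10], [7, 1, 5, 11, 12, 4, 13, 14, 6], [13, 3, 12,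
    15], [11, 3, 1, 2, 10, 16], [7, 3, 14, 17]]
  P := {
    a := 7
    N := 18
    nb := [898, 685, 1570, 30962, 45064, 68622, 147592, 131403, 641, 1287, 66084, 69672, 34840, 49176,
      139336, 12304, 3104, 16576]
    tri := [(0, 1, 7), (0, 1, 9), (0, 7, 8), (0, 8, 9), (1, 2, 5), (1, 2, 9), (1, 3, 5), (1, 3, 7), (2,
      5, 10), (2, 9, 10), (3, 4, 12), (3, 4, 13), (3, 5, 11), (3, 6, 7), (3, 6, 14), (3, 11, 12),
      (3, 13, 14), (4, 12, 15), (4, 13, 15), (5, 10, 16), (5, 11, 16), (6, 7, 17), (6, 14, 17)]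
    fin := [0, 0, 2, 0, 0, 2, 0, 0, 8, 2, 10, 0, 12, 0, 14, 15, 16, 17]
    chd := [(0, 2), (2, 16)]
    steps := [(0, 1), (0, 3), (0, 4), (0, 6), (0, 7), (0, 11), (0, 13), (2, 5), (2, 9)] }
  rep := [0, 2, 12, 10, 14, 16, 8, 15, 17]

noncomputable def v2727 : Cov.CovD where
  P := 3
  N := 6
  pl := [1, 3, 5, 7, 8, 10]
  lev := [⟨[], [], [(0, 1)], [6], [(0, 0, [1]), (2, 1, [0, 5])]⟩,
    ⟨[], [(0, 0), (0, 1)], [(0, 1)], [], [(0, 0, [1]), (2, 1, [0, 5])]⟩,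
    ⟨[(0, 1)], [(0, 1), (1, 0), (1, 1)], [], [3], [(2, 1, [0, 5])]⟩,
    ⟨[(0, 1), (1, 2)], [(0, 0), (1, 0), (1, 1)], [(0, 0)], [2, 4], [(0, 0, [1]), (4, 0,
      [1]), (6, 0, [1])]⟩,
    ⟨[(1, 3)], [(3, 0)], [], [2, 7], [(6, 0, [1])]⟩,
    ⟨[(0, 1), (1, 2), (1, 3), (2, 3), (3, 4)], [(1, 0), (1, 1), (1, 5), (2, 0), (2, 1), (2,
      5), (3, 0), (3, 5)], [(0, 5)], [3], [(4, 0, [1]), (9, 5, [1])]⟩,
    ⟨[(1, 3), (3, 4), (3, 5)], [(0, 0), (1, 0), (3, 0)], [], [4, 8], [(0, 0, [1])]⟩]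
  Ta := [((0, 1), 0, 6), ((0, 10), 0, 8), ((4, 5), 0, 2), ((4, 9), 0, 5), ((6, 7), 0, 4), ((6,
    8), 0, 7)]
  Tb := [((0, 1, 10), 0, 6, 8), ((1, 0, 2), 6, 0, 1), ((2, 1, 3), 1, 6, 3), ((3, 2, 9), 3, 1, 5),
    ((4, 5, 9), 0, 2, 5), ((5, 4, 8), 2, 0, 7), ((6, 7, 8), 0, 4, 7), ((7, 6, 10), 4, 0, 8),
    ((8, 5, 6), 7, 2, 0), ((9, 3, 4), 5, 3, 0), ((10, 0, 7), 8, 0, 4)]
  Tc := [(1, 0, 5)]
  Td := [((0, 1), (0, 1), 6), ((0, 1), (0, 10), 8), ((0, 1), (4, 5), 2), ((0, 1), (4, 9), 5),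
    ((0, 1), (6, 7), 4), ((0, 1), (6, 8), 7), ((1, 0), (2, 1), 6), ((1, 0), (2, 3), 3), ((1,
    5), (2, 1), 6), ((1, 5), (2, 3), 3), ((5, 1), (9, 3), 3), ((5, 1), (9, 4), 0)]
  G := [[0, 0x11141118a411181114c21118111464e, 0,
    0x6631462145a118a218cc6114211621cca831882189cc,
    0xc11666d1ac21611ac4665124cc316691ac2189cc], [0, 0x111111c82111111c22111111c42e,
    0x4824c6a62a45cc6c46882a6ce6ccea2a2689c1,
    0x1414118184c1414118181c621464a145aa618a21221c9cd,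
    0x1212118181c181121a14cc6166c1ac21641a94d], [0, 0x11181114a411141118c81114111868e, 0,
    0x11344124451138812889c11441244c1138812889c61846284ca148a248ccd,
    0x1181152a128113119aac4116115a2411381192a12889cc126698a62c2a8c4d]]

noncomputable def n2727 : Ent := ⟨e2727, noF, [], [], [(8, 17, [6903326391201334775872065844685381424292761054348340378595029940854785, 0])]⟩

def c2727 : PLift (Cov.check n2727.C.D v2727 = true) := ⟨by decide +kernel⟩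

def b2727 : PLift (entF (fidx ts) 400 2727 n2727 = true) := ⟨by decide +kernel⟩

theorem g2727 : GoodF (fidx ts) 400 2727 := GoodF.ofV v2727 n2727 c2727.down b2727.down

/-- 4649454:2202/1 -/
noncomputable def e2728 : SCfg where
  D := {
    a := 7
    L := 10
    kp := 7
    inn := [(0, 1), (1, 0), (1, 2), (1, 3), (2, 1), (3, 1), (3, 4), (3, 5), (3, 6), (4, 3), (4, 5), (5,
      3), (5, 4), (6, 3)]
    mix := [(0, 0), (0, 1), (0, 2), (1, 0), (1, 2), (1, 3), (2, 2), (2, 3), (2, 4), (3, 0), (3, 3), (3,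
      5), (3, 6), (3, 7), (4, 3), (4, 4), (5, 4), (5, 5), (5, 8), (6, 5), (6, 6), (6, 9)]
    cl := [0, 6, 1, 0, 2, 0, 3, 4, 7, 5]
    chq := [(0, 1), (1, 0), (4, 5), (5, 4)]
    rng := [(0, 1), (0, 7), (1, 0), (1, 2), (2, 1), (2, 4), (3, 4), (4, 2), (4, 3), (4, 8), (5, 8), (5,
      9), (6, 7), (6, 9), (7, 0), (7, 6), (8, 4), (8, 5), (9, 5), (9, 6)]
    lev := [] }
  links := [[1, 7, 8, 9], [7, 0, 9, 2, 10, 3], [10, 1, 9, 11], [7, 1, 10, 4, 5, 12, 6, 13, 14], [5, 3,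
    10, 11], [12, 3, 4, 11, 15], [13, 3, 12, 16]]
  P := {
    a := 7
    N := 17
    nb := [898, 1677, 3586, 29938, 3112, 38936, 77832, 16651, 641, 2311, 2078, 34356, 98408, 81992,
      8328, 6176, 12352]
    tri := [(0, 1, 7), (0, 1, 9), (0, 7, 8), (0, 8, 9), (1, 2, 9), (1, 2, 10), (1, 3, 7), (1, 3, 10),
      (2, 9, 11), (2, 10, 11), (3, 4, 5), (3, 4, 10), (3, 5, 12), (3, 6, 12), (3, 6, 13), (3, 7,
      14), (3, 13, 14), (4, 5, 11), (4, 10, 11), (5, 11, 15), (5, 12, 15), (6, 12, 16), (6, 13,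
      16)]
    fin := [0, 0, 0, 3, 0, 0, 3, 0, 8, 9, 0, 11, 0, 13, 14, 15, 3]
    chd := [(0, 9), (14, 3)]
    steps := [(0, 1), (0, 2), (0, 7), (0, 10), (0, 4), (0, 5), (0, 12), (3, 6), (3, 16)] }
  rep := [0, 9, 11, 13, 14, 3, 8, 15]

noncomputable def v2728 : Cov.CovD where
  P := 3
  N := 5
  pl := [1, 4, 6, 8]
  lev := [⟨[], [], [(0, 1)], [6], [(0, 0, [1]), (2, 1, [0])]⟩,
    ⟨[], [(0, 0), (0, 1)], [(0, 0), (0, 1)], [], [(0, 0, [1]), (2, 1, [0]), (3, 0, [1])]⟩,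
    ⟨[(0, 1)], [(0, 1), (1, 0), (1, 1)], [(0, 1)], [2], [(2, 1, [0]), (3, 0, [1])]⟩,
    ⟨[(0, 1), (1, 2)], [(0, 0), (1, 0), (1, 1), (1, 4), (2, 0)], [(0, 0), (0, 4)], [3],
      [(0, 0, [1]), (3, 0, [1]), (5, 0, [1]), (7, 4, [5])]⟩,
    ⟨[(1, 3)], [(1, 0), (2, 0), (3, 0), (3, 4)], [], [2], [(3, 0, [1])]⟩,
    ⟨[(1, 3), (3, 4)], [(3, 0), (3, 4), (4, 0)], [], [2, 7], [(5, 0, [1])]⟩,
    ⟨[(1, 3), (3, 4), (3, 5)], [(3, 0), (3, 4), (3, 5), (5, 0)], [(0, 5)], [3], [(5, 0,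
      [1]), (9, 5, [4])]⟩]
  Ta := [((0, 1), 0, 6), ((0, 7), 0, 4), ((3, 4), 0, 2), ((5, 8), 0, 7), ((5, 9), 0, 5)]
  Tb := [((0, 1, 7), 0, 6, 4), ((1, 0, 2), 6, 0, 1), ((2, 1, 4), 1, 6, 2), ((4, 2, 3), 2, 1, 0),
    ((4, 2, 8), 2, 1, 7), ((4, 3, 8), 2, 0, 7), ((5, 8, 9), 0, 7, 5), ((6, 7, 9), 3, 4, 5),
    ((7, 0, 6), 4, 0, 3), ((8, 4, 5), 7, 2, 0), ((9, 5, 6), 5, 0, 3)]
  Tc := []
  Td := [((0, 1), (0, 1), 6), ((0, 1), (0, 7), 4), ((0, 1), (3, 4), 2), ((0, 1), (5, 8), 7), ((0,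
    1), (5, 9), 5), ((1, 0), (2, 1), 6), ((1, 0), (2, 4), 2), ((4, 5), (7, 0), 0), ((4, 5),
    (7, 6), 3), ((5, 4), (9, 5), 0), ((5, 4), (9, 6), 3)]
  G := [[0, 0xa184614c18ac4614a1811c4e42c, 0, 0xa18c146161488ca18c186614898c,
    0x61219a8c1a8e84a18c186612898c], [0, 0x11c4a18c18e4211c4a18c18e84a, 0x116233a2b5c4e481,
    0x614a18c14e841, 0x618a18c18e841], [0, 0x614a18c14e4811c424618a18c8a6, 0,
    0xaac8ccc86166c184c1, 0x66a1aaa1cca1e841]]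

noncomputable def n2728 : Ent := ⟨e2728, noF, [], [], []⟩

def c2728 : PLift (Cov.check n2728.C.D v2728 = true) := ⟨by decide +kernel⟩

def b2728 : PLift (entF (fidx ts) 400 2728 n2728 = true) := ⟨by decide +kernel⟩

theorem g2728 : GoodF (fidx ts) 400 2728 := GoodF.ofV v2728 n2728 c2728.down b2728.down

/-- 4649454:2202 -/
noncomputable def e2729 : SCfg where
  D := {
    a := 7
    L := 11
    kp := 8
    inn := [(0, 1), (1, 0), (1, 2), (1, 3), (2, 1), (3, 1), (3, 4), (3, 5), (3, 6), (4, 3), (4, 5), (5,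
      3), (5, 4), (6, 3)]
    mix := [(0, 0), (0, 1), (0, 2), (1, 0), (1, 2), (1, 3), (2, 2), (2, 3), (2, 4), (3, 0), (3, 3), (3,
      5), (3, 6), (3, 7), (4, 3), (4, 8), (5, 5), (5, 8), (5, 9), (6, 5), (6, 6), (6, 10)]
    cl := [0, 6, 1, 0, 7, 0, 3, 4, 2, 8, 5]
    chq := [(0, 1), (1, 0), (4, 5), (5, 4)]
    rng := [(0, 1), (0, 7), (1, 0), (1, 2), (2, 1), (2, 4), (3, 4), (3, 8), (4, 2), (4, 3), (5, 9), (5,
      10), (6, 7), (6, 10), (7, 0), (7, 6), (8, 3), (8, 9), (9, 5), (9, 8), (10, 5), (10, 6)]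
    lev := [] }
  links := [[1, 7, 8, 9], [7, 0, 9, 2, 10, 3], [10, 1, 9, 11], [7, 1, 10, 4, 5, 12, 6, 13, 14], [5, 3,
    10, 15], [12, 3, 4, 15, 16], [13, 3, 12, 17]]
  P := {
    a := 7
    N := 18
    nb := [898, 1677, 3586, 29938, 33832, 102424, 143368, 16651, 641, 2311, 34846, 1540, 196712,
      147528, 8328, 66608, 36896, 12352]
    tri := [(0, 1, 7), (0, 1, 9), (0, 7, 8), (0, 8, 9), (1, 2, 9), (1, 2, 10), (1, 3, 7), (1, 3, 10),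
      (2, 9, 11), (2, 10, 11), (3, 4, 5), (3, 4, 10), (3, 5, 12), (3, 6, 12), (3, 6, 13), (3, 7,
      14), (3, 13, 14), (4, 5, 15), (4, 10, 15), (5, 12, 16), (5, 15, 16), (6, 12, 17), (6, 13,
      17)]
    fin := [0, 0, 0, 3, 0, 0, 3, 0, 8, 9, 0, 11, 0, 13, 14, 15, 16, 3]
    chd := [(0, 9), (14, 3)]
    steps := [(0, 1), (0, 2), (0, 7), (0, 10), (0, 4), (0, 5), (0, 12), (3, 6), (3, 17)] }
  rep := [0, 9, 15, 13, 14, 3, 8, 11, 16]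

noncomputable def v2729 : Cov.CovD where
  P := 3
  N := 6
  pl := [1, 4, 6, 8, 9]
  lev := [⟨[], [], [(0, 1)], [6], [(0, 0, [1]), (2, 1, [0])]⟩,
    ⟨[], [(0, 0), (0, 1)], [(0, 0), (0, 1)], [], [(0, 0, [1]), (2, 1, [0]), (3, 0, [1])]⟩,
    ⟨[(0, 1)], [(0, 1), (1, 0), (1, 1)], [(0, 1)], [7], [(2, 1, [0]), (3, 0, [1])]⟩,
    ⟨[(0, 1), (1, 2)], [(0, 0), (1, 0), (1, 1), (1, 4), (2, 0)], [(0, 0), (0, 4)], [3],
      [(0, 0, [1]), (3, 0, [1]), (5, 0, [1]), (7, 4, [5])]⟩,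
    ⟨[(1, 3)], [(1, 0), (2, 0), (3, 0), (3, 4)], [], [2], [(3, 0, [1])]⟩,
    ⟨[(1, 3), (3, 4)], [(3, 0), (3, 4), (4, 0)], [], [2, 8], [(5, 0, [1])]⟩,
    ⟨[(1, 3), (3, 4), (3, 5)], [(3, 0), (3, 4), (3, 5), (5, 0)], [(0, 5)], [3], [(5, 0,
      [1]), (10, 5, [4])]⟩]
  Ta := [((0, 1), 0, 6), ((0, 7), 0, 4), ((3, 4), 0, 7), ((3, 8), 0, 2), ((5, 9), 0, 8), ((5,
    10), 0, 5)]
  Tb := [((0, 1, 7), 0, 6, 4), ((1, 0, 2), 6, 0, 1), ((2, 1, 4), 1, 6, 7), ((3, 4, 8), 0, 7, 2),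
    ((4, 2, 3), 7, 1, 0), ((5, 9, 10), 0, 8, 5), ((6, 7, 10), 3, 4, 5), ((7, 0, 6), 4, 0, 3),
    ((8, 3, 9), 2, 0, 8), ((9, 5, 8), 8, 0, 2), ((10, 5, 6), 5, 0, 3)]
  Tc := []
  Td := [((0, 1), (0, 1), 6), ((0, 1), (0, 7), 4), ((0, 1), (3, 4), 7), ((0, 1), (3, 8), 2), ((0,
    1), (5, 9), 8), ((0, 1), (5, 10), 5), ((1, 0), (2, 1), 6), ((1, 0), (2, 4), 7), ((4, 5),
    (7, 0), 0), ((4, 5), (7, 6), 3), ((5, 4), (10, 5), 0), ((5, 4), (10, 6), 3)]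
  G := [[0, 0x11c1a18c14e8461411c8c14e42614a1811c1e28e, 0, 0x614a18c18e14614a18c18e18c,
    0x612a1811a8e14612a18c18e18c], [0, 0x614a1811c1e82614a18c18e28c182461411c1c4ae,
    0x3362c5c4615643aa815c8ec116288c1, 0x614a18c14e4614a1811c4e8c1,
    0xa184612a18c18ec11a2c18a8c1], [0, 0x11c1a18c18e24c142614a18cc811c824614a18c86e, 0,
    0xaac84166c4ccc8a1c1, 0x66a2aaa8cca8e141]]

noncomputable def n2729 : Ent := ⟨e2729, noF, [], [], [(11, 15, [7334790850167413569773436004105379185503274260204390087403942015827969, 0])]⟩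

def c2729 : PLift (Cov.check n2729.C.D v2729 = true) := ⟨by decide +kernel⟩

def b2729 : PLift (entF (fidx ts) 400 2729 n2729 = true) := ⟨by decide +kernel⟩

theorem g2729 : GoodF (fidx ts) 400 2729 := GoodF.ofV v2729 n2729 c2729.down b2729.down

/-- 4649454:2203/1 -/
noncomputable def e2730 : SCfg where
  D := {
    a := 7
    L := 10
    kp := 7
    inn := [(0, 1), (1, 0), (1, 2), (1, 3), (2, 1), (3, 1), (3, 4), (3, 5), (3, 6), (4, 3), (4, 5), (5,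
      3), (5, 4), (6, 3)]
    mix := [(0, 0), (0, 1), (0, 2), (1, 0), (1, 2), (1, 3), (2, 2), (2, 3), (2, 4), (3, 0), (3, 3), (3,
      5), (3, 6), (3, 7), (4, 3), (4, 4), (5, 4), (5, 5), (5, 8), (6, 6), (6, 7), (6, 9)]
    cl := [0, 6, 1, 0, 2, 0, 3, 4, 7, 5]
    chq := [(0, 1), (0, 5), (1, 0), (5, 0)]
    rng := [(0, 1), (0, 7), (1, 0), (1, 2), (2, 1), (2, 4), (3, 4), (4, 2), (4, 3), (4, 8), (5, 6), (5,
      8), (6, 5), (6, 9), (7, 0), (7, 9), (8, 4), (8, 5), (9, 6), (9, 7)]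
    lev := [] }
  links := [[1, 7, 8, 9], [7, 0, 9, 2, 10, 3], [10, 1, 9, 11], [7, 1, 10, 4, 5, 12, 13, 6, 14], [5, 3,
    10, 11], [12, 3, 4, 11, 15], [14, 3, 13, 16]]
  P := {
    a := 7
    N := 17
    nb := [898, 1677, 3586, 29938, 3112, 38936, 90120, 16651, 641, 2311, 2078, 34356, 41000, 69704,
      65736, 6176, 24640]
    tri := [(0, 1, 7), (0, 1, 9), (0, 7, 8), (0, 8, 9), (1, 2, 9), (1, 2, 10), (1, 3, 7), (1, 3, 10),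
      (2, 9, 11), (2, 10, 11), (3, 4, 5), (3, 4, 10), (3, 5, 12), (3, 6, 13), (3, 6, 14), (3, 7,
      14), (3, 12, 13), (4, 5, 11), (4, 10, 11), (5, 11, 15), (5, 12, 15), (6, 13, 16), (6, 14,
      16)]
    fin := [0, 0, 0, 0, 0, 0, 0, 0, 8, 9, 0, 11, 0, 13, 14, 15, 16]
    chd := [(0, 9), (0, 16)]
    steps := [(0, 1), (0, 2), (0, 3), (0, 6), (0, 7), (0, 10), (0, 4), (0, 5), (0, 12)] }
  rep := [0, 9, 11, 13, 14, 16, 8, 15]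

noncomputable def v2730 : Cov.CovD where
  P := 3
  N := 5
  pl := [1, 4, 6, 7, 8]
  lev := [⟨[], [], [(0, 1)], [6], [(0, 0, [1, 5]), (2, 1, [0])]⟩,
    ⟨[], [(0, 0), (0, 1)], [(0, 0), (0, 1)], [], [(0, 0, [1, 5]), (2, 1, [0]), (3, 0, [1,
      5])]⟩,
    ⟨[(0, 1)], [(0, 1), (1, 0), (1, 1)], [(0, 1)], [2], [(2, 1, [0]), (3, 0, [1, 5])]⟩,
    ⟨[(0, 1), (1, 2)], [(0, 0), (1, 0), (1, 1), (2, 0)], [(0, 0)], [3, 4], [(0, 0, [1, 5]),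
      (3, 0, [1, 5]), (5, 0, [1, 5])]⟩,
    ⟨[(1, 3)], [(1, 0), (2, 0), (3, 0)], [], [2], [(3, 0, [1, 5])]⟩,
    ⟨[(1, 3), (3, 4)], [(3, 0), (4, 0)], [], [2, 7], [(5, 0, [1, 5])]⟩,
    ⟨[(1, 3), (3, 4), (3, 5)], [(3, 0), (3, 5)], [], [3, 4], [(9, 5, [0])]⟩]
  Ta := [((0, 1), 0, 6), ((0, 7), 0, 4), ((3, 4), 0, 2), ((5, 6), 0, 3), ((5, 8), 0, 7)]
  Tb := [((0, 1, 7), 0, 6, 4), ((1, 0, 2), 6, 0, 1), ((2, 1, 4), 1, 6, 2), ((4, 2, 3), 2, 1, 0),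
    ((4, 2, 8), 2, 1, 7), ((4, 3, 8), 2, 0, 7), ((5, 6, 8), 0, 3, 7), ((6, 5, 9), 3, 0, 5),
    ((7, 0, 9), 4, 0, 5), ((8, 4, 5), 7, 2, 0), ((9, 6, 7), 5, 3, 4)]
  Tc := [(0, 1, 5)]
  Td := [((0, 1), (0, 1), 6), ((0, 1), (0, 7), 4), ((0, 1), (3, 4), 2), ((0, 1), (5, 6), 3), ((0,
    1), (5, 8), 7), ((0, 5), (0, 1), 6), ((0, 5), (0, 7), 4), ((0, 5), (3, 4), 2), ((0, 5),
    (5, 6), 3), ((0, 5), (5, 8), 7), ((1, 0), (2, 1), 6), ((1, 0), (2, 4), 2), ((5, 0), (9,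
    6), 3), ((5, 0), (9, 7), 4)]
  G := [[0, 0x118118114e42114118114e48a, 0, 0x518918f14e1451848914314a1cc,
    0xf12312518e14112d12b18e18c], [0, 0x114118118e82114118114e846, 0x116211a21164e481,
    0x118118118e841, 0x118112118e841], [0, 0x114118118e42118114114e82c, 0,
    0xd1c8481dc4b7c1a8c1, 0x5fa193a2f5a1e841]]

noncomputable def n2730 : Ent := ⟨e2730, noF, [], [], []⟩

def c2730 : PLift (Cov.check n2730.C.D v2730 = true) := ⟨by decide +kernel⟩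

def b2730 : PLift (entF (fidx ts) 400 2730 n2730 = true) := ⟨by decide +kernel⟩

theorem g2730 : GoodF (fidx ts) 400 2730 := GoodF.ofV v2730 n2730 c2730.down b2730.down

/-- 4649454:2203 -/
noncomputable def e2731 : SCfg where
  D := {
    a := 7
    L := 11
    kp := 8
    inn := [(0, 1), (1, 0), (1, 2), (1, 3), (2, 1), (3, 1), (3, 4), (3, 5), (3, 6), (4, 3), (4, 5), (5,
      3), (5, 4), (6, 3)]
    mix := [(0, 0), (0, 1), (0, 2), (1, 0), (1, 2), (1, 3), (2, 2), (2, 3), (2, 4), (3, 0), (3, 3), (3,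
      5), (3, 6), (3, 7), (4, 3), (4, 8), (5, 5), (5, 8), (5, 9), (6, 6), (6, 7), (6, 10)]
    cl := [0, 6, 1, 0, 7, 0, 3, 4, 2, 8, 5]
    chq := [(0, 1), (0, 5), (1, 0), (5, 0)]
    rng := [(0, 1), (0, 7), (1, 0), (1, 2), (2, 1), (2, 4), (3, 4), (3, 8), (4, 2), (4, 3), (5, 6), (5,
      9), (6, 5), (6, 10), (7, 0), (7, 10), (8, 3), (8, 9), (9, 5), (9, 8), (10, 6), (10, 7)]
    lev := [] }
  links := [[1, 7, 8, 9], [7, 0, 9, 2, 10, 3], [10, 1, 9, 11], [7, 1, 10, 4, 5, 12, 13, 6, 14], [5, 3,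
    10, 15], [12, 3, 4, 15, 16], [14, 3, 13, 17]]
  P := {
    a := 7
    N := 18
    nb := [898, 1677, 3586, 29938, 33832, 102424, 155656, 16651, 641, 2311, 34846, 1540, 73768,
      135240, 131272, 66608, 36896, 24640]
    tri := [(0, 1, 7), (0, 1, 9), (0, 7, 8), (0, 8, 9), (1, 2, 9), (1, 2, 10), (1, 3, 7), (1, 3, 10),
      (2, 9, 11), (2, 10, 11), (3, 4, 5), (3, 4, 10), (3, 5, 12), (3, 6, 13), (3, 6, 14), (3, 7,
      14), (3, 12, 13), (4, 5, 15), (4, 10, 15), (5, 12, 16), (5, 15, 16), (6, 13, 17), (6, 14,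
      17)]
    fin := [0, 0, 0, 0, 0, 0, 0, 0, 8, 9, 0, 11, 0, 13, 14, 15, 16, 17]
    chd := [(0, 9), (0, 17)]
    steps := [(0, 1), (0, 2), (0, 3), (0, 4), (0, 5), (0, 6), (0, 7), (0, 10), (0, 12)] }
  rep := [0, 9, 15, 13, 14, 17, 8, 11, 16]

noncomputable def v2731 : Cov.CovD where
  P := 3
  N := 6
  pl := [1, 4, 6, 7, 8, 9]
  lev := [⟨[], [], [(0, 1)], [6], [(0, 0, [1, 5]), (2, 1, [0])]⟩,
    ⟨[], [(0, 0), (0, 1)], [(0, 0), (0, 1)], [], [(0, 0, [1, 5]), (2, 1, [0]), (3, 0, [1,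
      5])]⟩,
    ⟨[(0, 1)], [(0, 1), (1, 0), (1, 1)], [(0, 1)], [7], [(2, 1, [0]), (3, 0, [1, 5])]⟩,
    ⟨[(0, 1), (1, 2)], [(0, 0), (1, 0), (1, 1), (2, 0)], [(0, 0)], [3, 4], [(0, 0, [1, 5]),
      (3, 0, [1, 5]), (5, 0, [1, 5])]⟩,
    ⟨[(1, 3)], [(1, 0), (2, 0), (3, 0)], [], [2], [(3, 0, [1, 5])]⟩,
    ⟨[(1, 3), (3, 4)], [(3, 0), (4, 0)], [], [2, 8], [(5, 0, [1, 5])]⟩,
    ⟨[(1, 3), (3, 4), (3, 5)], [(3, 0), (3, 5)], [], [3, 4], [(10, 5, [0])]⟩]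
  Ta := [((0, 1), 0, 6), ((0, 7), 0, 4), ((3, 4), 0, 7), ((3, 8), 0, 2), ((5, 6), 0, 3), ((5, 9),
    0, 8)]
  Tb := [((0, 1, 7), 0, 6, 4), ((1, 0, 2), 6, 0, 1), ((2, 1, 4), 1, 6, 7), ((3, 4, 8), 0, 7, 2),
    ((4, 2, 3), 7, 1, 0), ((5, 6, 9), 0, 3, 8), ((6, 5, 10), 3, 0, 5), ((7, 0, 10), 4, 0, 5),
    ((8, 3, 9), 2, 0, 8), ((9, 5, 8), 8, 0, 2), ((10, 6, 7), 5, 3, 4)]
  Tc := [(0, 1, 5)]
  Td := [((0, 1), (0, 1), 6), ((0, 1), (0, 7), 4), ((0, 1), (3, 4), 7), ((0, 1), (3, 8), 2), ((0,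
    1), (5, 6), 3), ((0, 1), (5, 9), 8), ((0, 5), (0, 1), 6), ((0, 5), (0, 7), 4), ((0, 5),
    (3, 4), 7), ((0, 5), (3, 8), 2), ((0, 5), (5, 6), 3), ((0, 5), (5, 9), 8), ((1, 0), (2,
    1), 6), ((1, 0), (2, 4), 7), ((5, 0), (10, 6), 3), ((5, 0), (10, 7), 4)]
  G := [[0, 0x11822118118c26118118118e82114118114e48e, 0, 0xd14118714e14114d18b14e18c,
    0xd12118718e14112d12b18e18c], [0, 0x1142118118ca2118114118e4211422114114c86e,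
    0x116211a411c2e4116811a21168e8c1, 0x114118c4114118118e1142cc1,
    0x112112112e4112118118e8c1], [0, 0x1182114118ca2114118118e48114118c1142a4e, 0,
    0x544d9c8bfc8e118481c1, 0x5fa293a8f5a8e141]]

noncomputable def n2731 : Ent := ⟨e2731, noF, [], [], [(11, 15, [7334790850167413569773436004105379185503274260204390087403942015836161, 0])]⟩

def c2731 : PLift (Cov.check n2731.C.D v2731 = true) := ⟨by decide +kernel⟩

def b2731 : PLift (entF (fidx ts) 400 2731 n2731 = true) := ⟨by decide +kernel⟩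

theorem g2731 : GoodF (fidx ts) 400 2731 := GoodF.ofV v2731 n2731 c2731.down b2731.down

/-- 4649454:2204/2 -/
noncomputable def e2732 : SCfg where
  D := {
    a := 7
    L := 9
    kp := 6
    inn := [(0, 1), (1, 0), (1, 2), (1, 3), (2, 1), (3, 1), (3, 4), (3, 5), (3, 6), (4, 3), (4, 5), (5,
      3), (5, 4), (6, 3)]
    mix := [(0, 0), (0, 1), (0, 2), (1, 0), (1, 2), (1, 3), (2, 2), (2, 3), (2, 4), (3, 0), (3, 3), (3,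
      5), (3, 6), (3, 7), (4, 3), (4, 4), (5, 4), (5, 5), (5, 8), (6, 0), (6, 1), (6, 7)]
    cl := [0, 2, 1, 0, 3, 0, 5, 4, 6]
    chq := [(0, 1), (0, 4), (1, 0), (4, 0)]
    rng := [(0, 1), (1, 0), (1, 2), (1, 7), (2, 1), (2, 4), (3, 4), (4, 2), (4, 3), (4, 8), (5, 6), (5,
      8), (6, 5), (6, 7), (7, 1), (7, 6), (8, 4), (8, 5)]
    lev := [] }
  links := [[1, 7, 8, 9], [7, 0, 9, 2, 10, 3], [10, 1, 9, 11], [7, 1, 10, 4, 5, 12, 13, 14, 6], [5, 3,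
    10, 11], [12, 3, 4, 11, 15], [7, 3, 14, 8]]
  P := {
    a := 7
    N := 16
    nb := [898, 1677, 3586, 29938, 3112, 38936, 16776, 331, 17089, 2311, 2078, 34356, 41000, 20488,
      8520, 6176]
    tri := [(0, 1, 7), (0, 1, 9), (0, 7, 8), (0, 8, 9), (1, 2, 9), (1, 2, 10), (1, 3, 7), (1, 3, 10),
      (2, 9, 11), (2, 10, 11), (3, 4, 5), (3, 4, 10), (3, 5, 12), (3, 6, 7), (3, 6, 14), (3, 12,
      13), (3, 13, 14), (4, 5, 11), (4, 10, 11), (5, 11, 15), (5, 12, 15), (6, 7, 8), (6, 8, 14)]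
    fin := [0, 0, 0, 0, 0, 0, 0, 0, 8, 9, 0, 11, 0, 13, 14, 15]
    chd := [(0, 9), (0, 14)]
    steps := [(0, 1), (0, 2), (0, 3), (0, 7), (0, 6), (0, 10), (0, 4), (0, 5), (0, 12)] }
  rep := [0, 9, 8, 11, 14, 13, 15]

noncomputable def v2732 : Cov.CovD where
  P := 3
  N := 4
  pl := [1, 4, 6, 8]
  lev := [⟨[], [], [(0, 1)], [2], [(0, 0, [1, 4]), (2, 1, [0])]⟩,
    ⟨[], [(0, 0), (0, 1)], [(0, 0), (0, 1)], [], [(0, 0, [1, 4]), (2, 1, [0]), (3, 0, [1,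
      4])]⟩,
    ⟨[(0, 1)], [(0, 1), (1, 0), (1, 1)], [(0, 1)], [3], [(2, 1, [0]), (3, 0, [1, 4])]⟩,
    ⟨[(0, 1), (1, 2)], [(0, 0), (1, 0), (1, 1), (1, 4), (2, 0)], [(0, 0), (0, 4)], [5],
      [(0, 0, [1, 4]), (3, 0, [1, 4]), (5, 0, [1, 4]), (7, 4, [0])]⟩,
    ⟨[(1, 3)], [(1, 0), (2, 0), (3, 0), (3, 4)], [], [3], [(3, 0, [1, 4])]⟩,
    ⟨[(1, 3), (3, 4)], [(3, 0), (3, 4), (4, 0)], [], [3, 6], [(5, 0, [1, 4])]⟩,
    ⟨[(1, 3), (3, 4), (3, 5)], [(0, 0), (1, 0), (3, 0), (3, 4)], [(0, 4)], [2], [(0, 0, [1,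
      4]), (7, 4, [0])]⟩]
  Ta := [((0, 1), 0, 2), ((3, 4), 0, 3), ((5, 6), 0, 5), ((5, 8), 0, 6)]
  Tb := [((1, 0, 2), 2, 0, 1), ((1, 0, 7), 2, 0, 4), ((1, 2, 7), 2, 1, 4), ((2, 1, 4), 1, 2, 3),
    ((4, 2, 3), 3, 1, 0), ((4, 2, 8), 3, 1, 6), ((4, 3, 8), 3, 0, 6), ((5, 6, 8), 0, 5, 6),
    ((6, 5, 7), 5, 0, 4), ((7, 1, 6), 4, 2, 5), ((8, 4, 5), 6, 3, 0)]
  Tc := [(0, 1, 4)]
  Td := [((0, 1), (0, 1), 2), ((0, 1), (3, 4), 3), ((0, 1), (5, 6), 5), ((0, 1), (5, 8), 6), ((0,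
    4), (0, 1), 2), ((0, 4), (3, 4), 3), ((0, 4), (5, 6), 5), ((0, 4), (5, 8), 6), ((1, 0),
    (2, 1), 2), ((1, 0), (2, 4), 3), ((4, 0), (7, 1), 2), ((4, 0), (7, 6), 5)]
  G := [[0, 0x114114118e112418112e684, 0x4141a41818162121ca1c8, 0x412c126181281c8,
    0x81816a1a1a2121ce148], [0, 0x114118114e812112112ea48, 0,
    0x41211261147414629164ec81288c4, 0x3144438a211a8218e8142164acc8], [0,
    0x112418118e114114114ec24, 0, 0x11472414e211ac16ce118288c4,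
    0x91ca96a21a216c6118c18a681c8]]

noncomputable def n2732 : Ent := ⟨e2732, noF, [], [], []⟩

def c2732 : PLift (Cov.check n2732.C.D v2732 = true) := ⟨by decide +kernel⟩

def b2732 : PLift (entF (fidx ts) 400 2732 n2732 = true) := ⟨by decide +kernel⟩

theorem g2732 : GoodF (fidx ts) 400 2732 := GoodF.ofV v2732 n2732 c2732.down b2732.down

/-- 4649454:2204/1 -/
noncomputable def e2733 : SCfg where
  D := {
    a := 7
    L := 10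
    kp := 7
    inn := [(0, 1), (1, 0), (1, 2), (1, 3), (2, 1), (3, 1), (3, 4), (3, 5), (3, 6), (4, 3), (4, 5), (5,
      3), (5, 4), (6, 3)]
    mix := [(0, 0), (0, 1), (0, 2), (1, 0), (1, 2), (1, 3), (2, 2), (2, 3), (2, 4), (3, 0), (3, 3), (3,
      5), (3, 6), (3, 7), (4, 3), (4, 8), (5, 5), (5, 8), (5, 9), (6, 0), (6, 1), (6, 7)]
    cl := [0, 2, 1, 0, 5, 0, 6, 3, 4, 7]
    chq := [(0, 1), (0, 3), (1, 0), (3, 0)]
    rng := [(0, 1), (1, 0), (1, 2), (1, 7), (2, 1), (2, 4), (3, 4), (3, 8), (4, 2), (4, 3), (5, 6), (5,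
      9), (6, 5), (6, 7), (7, 1), (7, 6), (8, 3), (8, 9), (9, 5), (9, 8)]
    lev := [] }
  links := [[1, 7, 8, 9], [7, 0, 9, 2, 10, 3], [10, 1, 9, 11], [7, 1, 10, 4, 5, 12, 13, 14, 6], [5, 3,
    10, 15], [12, 3, 4, 15, 16], [7, 3, 14, 8]]
  P := {
    a := 7
    N := 17
    nb := [898, 1677, 3586, 29938, 33832, 102424, 16776, 331, 17089, 2311, 34846, 1540, 73768, 20488,
      8520, 66608, 36896]
    tri := [(0, 1, 7), (0, 1, 9), (0, 7, 8), (0, 8, 9), (1, 2, 9), (1, 2, 10), (1, 3, 7), (1, 3, 10),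
      (2, 9, 11), (2, 10, 11), (3, 4, 5), (3, 4, 10), (3, 5, 12), (3, 6, 7), (3, 6, 14), (3, 12,
      13), (3, 13, 14), (4, 5, 15), (4, 10, 15), (5, 12, 16), (5, 15, 16), (6, 7, 8), (6, 8, 14)]
    fin := [0, 0, 0, 0, 0, 0, 0, 0, 8, 9, 0, 11, 0, 13, 14, 15, 16]
    chd := [(0, 9), (0, 14)]
    steps := [(0, 1), (0, 2), (0, 3), (0, 4), (0, 5), (0, 7), (0, 6), (0, 10), (0, 12)] }
  rep := [0, 9, 8, 14, 15, 11, 13, 16]

noncomputable def v2733 : Cov.CovD where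
  P := 3
  N := 5
  pl := [1, 4, 6, 8, 9]
  lev := [⟨[], [], [(0, 1)], [2], [(0, 0, [1, 3]), (2, 1, [0])]⟩,
    ⟨[], [(0, 0), (0, 1)], [(0, 0), (0, 1)], [], [(0, 0, [1, 3]), (2, 1, [0]), (3, 0, [1,
      3])]⟩,
    ⟨[(0, 1)], [(0, 1), (1, 0), (1, 1)], [(0, 1)], [5], [(2, 1, [0]), (3, 0, [1, 3])]⟩,
    ⟨[(0, 1), (1, 2)], [(0, 0), (1, 0), (1, 1), (1, 3), (2, 0)], [(0, 0), (0, 3)], [6],
      [(0, 0, [1, 3]), (3, 0, [1, 3]), (5, 0, [1, 3]), (7, 3, [0])]⟩,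
    ⟨[(1, 3)], [(1, 0), (2, 0), (3, 0), (3, 3)], [], [4], [(3, 0, [1, 3])]⟩,
    ⟨[(1, 3), (3, 4)], [(3, 0), (3, 3), (4, 0)], [], [4, 7], [(5, 0, [1, 3])]⟩,
    ⟨[(1, 3), (3, 4), (3, 5)], [(0, 0), (1, 0), (3, 0), (3, 3)], [(0, 3)], [2], [(0, 0, [1,
      3]), (7, 3, [0])]⟩]
  Ta := [((0, 1), 0, 2), ((3, 4), 0, 5), ((3, 8), 0, 4), ((5, 6), 0, 6), ((5, 9), 0, 7)]
  Tb := [((1, 0, 2), 2, 0, 1), ((1, 0, 7), 2, 0, 3), ((1, 2, 7), 2, 1, 3), ((2, 1, 4), 1, 2, 5),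
    ((3, 4, 8), 0, 5, 4), ((4, 2, 3), 5, 1, 0), ((5, 6, 9), 0, 6, 7), ((6, 5, 7), 6, 0, 3),
    ((7, 1, 6), 3, 2, 6), ((8, 3, 9), 4, 0, 7), ((9, 5, 8), 7, 0, 4)]
  Tc := [(0, 1, 3)]
  Td := [((0, 1), (0, 1), 2), ((0, 1), (3, 4), 5), ((0, 1), (3, 8), 4), ((0, 1), (5, 6), 6), ((0,
    1), (5, 9), 7), ((0, 3), (0, 1), 2), ((0, 3), (3, 4), 5), ((0, 3), (3, 8), 4), ((0, 3),
    (5, 6), 6), ((0, 3), (5, 9), 7), ((1, 0), (2, 1), 2), ((1, 0), (2, 4), 5), ((3, 0), (7,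
    1), 2), ((3, 0), (7, 6), 6)]
  G := [[0, 0x1121186112114112e114118114ee11888c4, 0x4141a41818162121ca1c8,
    0x4141ac1c16618181681c4, 0x81816a1a1a2121ce148], [0,
    0x8121111a114e118118a8141111a112ee48, 0,
    0x41116a41117516449143ac1116cec8111a6119195aa8c4,
    0x1111a64438c81611191ba21216ce188781629a21cacc8], [0,
    0x412114611116418112e11116114118ee84, 0, 0x41c146a91a516c6118c18a681c4,
    0x11c1187a21a216c6138c18a681c8]]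

noncomputable def n2733 : Ent := ⟨e2733, noF, [], [], [(11, 15, [1685356702439545624007900436039642273970977273354372543760011280385, 0])]⟩

def c2733 : PLift (Cov.check n2733.C.D v2733 = true) := ⟨by decide +kernel⟩

def b2733 : PLift (entF (fidx ts) 400 2733 n2733 = true) := ⟨by decide +kernel⟩

theorem g2733 : GoodF (fidx ts) 400 2733 := GoodF.ofV v2733 n2733 c2733.down b2733.down

/-- 4649454:2204/3 -/
noncomputable def e2734 : SCfg where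
  D := {
    a := 7
    L := 10
    kp := 7
    inn := [(0, 1), (1, 0), (1, 2), (1, 3), (2, 1), (3, 1), (3, 4), (3, 5), (3, 6), (4, 3), (4, 5), (5,
      3), (5, 4), (6, 3)]
    mix := [(0, 0), (0, 1), (0, 2), (1, 0), (1, 2), (1, 3), (2, 2), (2, 3), (2, 4), (3, 0), (3, 3), (3,
      5), (3, 6), (3, 7), (4, 3), (4, 4), (5, 4), (5, 5), (5, 8), (6, 0), (6, 7), (6, 9)]
    cl := [0, 2, 1, 0, 3, 0, 5, 4, 6, 7]
    chq := [(0, 1), (0, 4), (1, 0), (4, 0)]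
    rng := [(0, 1), (0, 9), (1, 0), (1, 2), (2, 1), (2, 4), (3, 4), (4, 2), (4, 3), (4, 8), (5, 6), (5,
      8), (6, 5), (6, 7), (7, 6), (7, 9), (8, 4), (8, 5), (9, 0), (9, 7)]
    lev := [] }
  links := [[1, 7, 8, 9], [7, 0, 9, 2, 10, 3], [10, 1, 9, 11], [7, 1, 10, 4, 5, 12, 13, 14, 6], [5, 3,
    10, 11], [12, 3, 4, 11, 15], [7, 3, 14, 16]]
  P := {
    a := 7
    N := 17
    nb := [898, 1677, 3586, 29938, 3112, 38936, 82056, 65867, 641, 2311, 2078, 34356, 41000, 20488,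
      73800, 6176, 16576]
    tri := [(0, 1, 7), (0, 1, 9), (0, 7, 8), (0, 8, 9), (1, 2, 9), (1, 2, 10), (1, 3, 7), (1, 3, 10),
      (2, 9, 11), (2, 10, 11), (3, 4, 5), (3, 4, 10), (3, 5, 12), (3, 6, 7), (3, 6, 14), (3, 12,
      13), (3, 13, 14), (4, 5, 11), (4, 10, 11), (5, 11, 15), (5, 12, 15), (6, 7, 16), (6, 14,
      16)]
    fin := [0, 0, 0, 0, 0, 0, 0, 0, 8, 9, 0, 11, 0, 13, 14, 15, 16]
    chd := [(0, 9), (0, 14)]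
    steps := [(0, 1), (0, 2), (0, 3), (0, 6), (0, 7), (0, 10), (0, 4), (0, 5), (0, 12)] }
  rep := [0, 9, 8, 11, 14, 13, 15, 16]

noncomputable def v2734 : Cov.CovD where
  P := 3
  N := 5
  pl := [1, 4, 6, 8, 9]
  lev := [⟨[], [], [(0, 1)], [2], [(0, 0, [1, 4]), (2, 1, [0])]⟩,
    ⟨[], [(0, 0), (0, 1)], [(0, 0), (0, 1)], [], [(0, 0, [1, 4]), (2, 1, [0]), (3, 0, [1,
      4])]⟩,
    ⟨[(0, 1)], [(0, 1), (1, 0), (1, 1)], [(0, 1)], [3], [(2, 1, [0]), (3, 0, [1, 4])]⟩,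
    ⟨[(0, 1), (1, 2)], [(0, 0), (1, 0), (1, 1), (1, 4), (2, 0)], [(0, 0), (0, 4)], [5],
      [(0, 0, [1, 4]), (3, 0, [1, 4]), (5, 0, [1, 4]), (7, 4, [0])]⟩,
    ⟨[(1, 3)], [(1, 0), (2, 0), (3, 0), (3, 4)], [], [3], [(3, 0, [1, 4])]⟩,
    ⟨[(1, 3), (3, 4)], [(3, 0), (3, 4), (4, 0)], [], [3, 6], [(5, 0, [1, 4])]⟩,
    ⟨[(1, 3), (3, 4), (3, 5)], [(0, 0), (1, 0), (3, 0), (3, 4)], [(0, 4)], [7], [(0, 0, [1,
      4]), (7, 4, [0])]⟩]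
  Ta := [((0, 1), 0, 2), ((0, 9), 0, 7), ((3, 4), 0, 3), ((5, 6), 0, 5), ((5, 8), 0, 6)]
  Tb := [((0, 1, 9), 0, 2, 7), ((1, 0, 2), 2, 0, 1), ((2, 1, 4), 1, 2, 3), ((4, 2, 3), 3, 1, 0),
    ((4, 2, 8), 3, 1, 6), ((4, 3, 8), 3, 0, 6), ((5, 6, 8), 0, 5, 6), ((6, 5, 7), 5, 0, 4),
    ((7, 6, 9), 4, 5, 7), ((8, 4, 5), 6, 3, 0), ((9, 0, 7), 7, 0, 4)]
  Tc := [(0, 1, 4)]
  Td := [((0, 1), (0, 1), 2), ((0, 1), (0, 9), 7), ((0, 1), (3, 4), 3), ((0, 1), (5, 6), 5), ((0,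
    1), (5, 8), 6), ((0, 4), (0, 1), 2), ((0, 4), (0, 9), 7), ((0, 4), (3, 4), 3), ((0, 4),
    (5, 6), 5), ((0, 4), (5, 8), 6), ((1, 0), (2, 1), 2), ((1, 0), (2, 4), 3), ((4, 0), (7,
    6), 5), ((4, 0), (7, 9), 7)]
  G := [[0, 0x114114114e112112118e684, 0xe1e1a41e1e16e121c1ea1c4, 0xe122121c1e61e1281c4,
    0xe1e1a41e1e16e1e1ca1c8], [0, 0x118118118e112114114ec28, 0,
    0x11c72441d92112d18e1e3212146acc8, 0xb14116464173811a2718ee7548cc8], [0,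
    0x1181186114114112e1128e84, 0, 0x31be251ab16c611116f281c8,
    0x3414415c15a6b832a79a1187ce1c8]]

noncomputable def n2734 : Ent := ⟨e2734, noF, [], [], [(8, 16, [1580044410770988437309982408355971841652082177953823432505700302849, 0])]⟩

def c2734 : PLift (Cov.check n2734.C.D v2734 = true) := ⟨by decide +kernel⟩

def b2734 : PLift (entF (fidx ts) 400 2734 n2734 = true) := ⟨by decide +kernel⟩

theorem g2734 : GoodF (fidx ts) 400 2734 := GoodF.ofV v2734 n2734 c2734.down b2734.down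

/-- 4649454:2204 -/
noncomputable def e2735 : SCfg where
  D := {
    a := 7
    L := 11
    kp := 8
    inn := [(0, 1), (1, 0), (1, 2), (1, 3), (2, 1), (3, 1), (3, 4), (3, 5), (3, 6), (4, 3), (4, 5), (5,
      3), (5, 4), (6, 3)]
    mix := [(0, 0), (0, 1), (0, 2), (1, 0), (1, 2), (1, 3), (2, 2), (2, 3), (2, 4), (3, 0), (3, 3), (3,
      5), (3, 6), (3, 7), (4, 3), (4, 8), (5, 5), (5, 8), (5, 9), (6, 0), (6, 7), (6, 10)]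
    cl := [0, 2, 1, 0, 5, 0, 6, 3, 4, 7, 8]
    chq := [(0, 1), (0, 3), (1, 0), (3, 0)]
    rng := [(0, 1), (0, 10), (1, 0), (1, 2), (2, 1), (2, 4), (3, 4), (3, 8), (4, 2), (4, 3), (5, 6),
      (5, 9), (6, 5), (6, 7), (7, 6), (7, 10), (8, 3), (8, 9), (9, 5), (9, 8), (10, 0), (10, 7)]
    lev := [] }
  links := [[1, 7, 8, 9], [7, 0, 9, 2, 10, 3], [10, 1, 9, 11], [7, 1, 10, 4, 5, 12, 13, 14, 6], [5, 3,
    10, 15], [12, 3, 4, 15, 16], [7, 3, 14, 17]]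
  P := {
    a := 7
    N := 18
    nb := [898, 1677, 3586, 29938, 33832, 102424, 147592, 131403, 641, 2311, 34846, 1540, 73768,
      20488, 139336, 66608, 36896, 16576]
    tri := [(0, 1, 7), (0, 1, 9), (0, 7, 8), (0, 8, 9), (1, 2, 9), (1, 2, 10), (1, 3, 7), (1, 3, 10),
      (2, 9, 11), (2, 10, 11), (3, 4, 5), (3, 4, 10), (3, 5, 12), (3, 6, 7), (3, 6, 14), (3, 12,
      13), (3, 13, 14), (4, 5, 15), (4, 10, 15), (5, 12, 16), (5, 15, 16), (6, 7, 17), (6, 14,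
      17)]
    fin := [0, 0, 0, 0, 0, 0, 0, 0, 8, 9, 0, 11, 0, 13, 14, 15, 16, 17]
    chd := [(0, 9), (0, 14)]
    steps := [(0, 1), (0, 2), (0, 3), (0, 4), (0, 5), (0, 6), (0, 7), (0, 10), (0, 12)] }
  rep := [0, 9, 8, 14, 15, 11, 13, 16, 17]

noncomputable def v2735 : Cov.CovD where
  P := 3
  N := 6
  pl := [1, 4, 6, 8, 9, 10]
  lev := [⟨[], [], [(0, 1)], [2], [(0, 0, [1, 3]), (2, 1, [0])]⟩,
    ⟨[], [(0, 0), (0, 1)], [(0, 0), (0, 1)], [], [(0, 0, [1, 3]), (2, 1, [0]), (3, 0, [1,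
      3])]⟩,
    ⟨[(0, 1)], [(0, 1), (1, 0), (1, 1)], [(0, 1)], [5], [(2, 1, [0]), (3, 0, [1, 3])]⟩,
    ⟨[(0, 1), (1, 2)], [(0, 0), (1, 0), (1, 1), (1, 3), (2, 0)], [(0, 0), (0, 3)], [6],
      [(0, 0, [1, 3]), (3, 0, [1, 3]), (5, 0, [1, 3]), (7, 3, [0])]⟩,
    ⟨[(1, 3)], [(1, 0), (2, 0), (3, 0), (3, 3)], [], [4], [(3, 0, [1, 3])]⟩,
    ⟨[(1, 3), (3, 4)], [(3, 0), (3, 3), (4, 0)], [], [4, 7], [(5, 0, [1, 3])]⟩,
    ⟨[(1, 3), (3, 4), (3, 5)], [(0, 0), (1, 0), (3, 0), (3, 3)], [(0, 3)], [8], [(0, 0, [1,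
      3]), (7, 3, [0])]⟩]
  Ta := [((0, 1), 0, 2), ((0, 10), 0, 8), ((3, 4), 0, 5), ((3, 8), 0, 4), ((5, 6), 0, 6), ((5,
    9), 0, 7)]
  Tb := [((0, 1, 10), 0, 2, 8), ((1, 0, 2), 2, 0, 1), ((2, 1, 4), 1, 2, 5), ((3, 4, 8), 0, 5, 4),
    ((4, 2, 3), 5, 1, 0), ((5, 6, 9), 0, 6, 7), ((6, 5, 7), 6, 0, 3), ((7, 6, 10), 3, 6, 8),
    ((8, 3, 9), 4, 0, 7), ((9, 5, 8), 7, 0, 4), ((10, 0, 7), 8, 0, 3)]
  Tc := [(0, 1, 3)]
  Td := [((0, 1), (0, 1), 2), ((0, 1), (0, 10), 8), ((0, 1), (3, 4), 5), ((0, 1), (3, 8), 4),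
    ((0, 1), (5, 6), 6), ((0, 1), (5, 9), 7), ((0, 3), (0, 1), 2), ((0, 3), (0, 10), 8), ((0,
    3), (3, 4), 5), ((0, 3), (3, 8), 4), ((0, 3), (5, 6), 6), ((0, 3), (5, 9), 7), ((1, 0),
    (2, 1), 2), ((1, 0), (2, 4), 5), ((3, 0), (7, 6), 6), ((3, 0), (7, 10), 8)]
  G := [[0, 0x1121181111ce1141121111ce118114ce28, 0xe1e1ae1e1c61e1e1681c4,
    0xe1e1ae1e1c61e1e1681c4, 0xe1e1ae1e1c61e1e1681c8], [0,
    0x1141141111ce1181121111ce112118ce24, 0,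
    0x1791d3a11cd1a61151736d1116a111167cec71116a88c4,
    0x9193a64451336c31119ba311147ce3139a655c516acc8], [0,
    0x1121141111ce1181121111ce114118ce28, 0, 0xd1c14a411bc1ea6b2271ab16ce1c8,
    0x71c1e6ab1ad16c611ec1da681c8]]

noncomputable def n2735 : Ent := ⟨e2735, noF, [], [], [(8, 17, [6903326391201334775872065844685381424292761054348340378595029940883457, 0]), (11, 15, [7334790850167413569773436004105379185503274260204390087403942015852545, 0])]⟩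

def c2735 : PLift (Cov.check n2735.C.D v2735 = true) := ⟨by decide +kernel⟩

def b2735 : PLift (entF (fidx ts) 400 2735 n2735 = true) := ⟨by decide +kernel⟩

theorem g2735 : GoodF (fidx ts) 400 2735 := GoodF.ofV v2735 n2735 c2735.down b2735.down

/-- 4646865:2206 -/
noncomputable def e2736 : SCfg where
  D := {
    a := 7
    L := 11
    kp := 9
    inn := [(0, 1), (0, 5), (1, 0), (1, 2), (1, 3), (1, 4), (1, 5), (2, 1), (2, 3), (3, 1), (3, 2), (3,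
      4), (4, 1), (4, 3), (4, 5), (4, 6), (5, 0), (5, 1), (5, 4), (6, 4)]
    mix := [(0, 0), (0, 1), (1, 1), (2, 1), (2, 2), (3, 2), (3, 3), (3, 4), (4, 4), (4, 5), (4, 6), (4,
      7), (5, 0), (5, 7), (5, 8), (6, 5), (6, 6), (6, 9), (6, 10)]
    cl := [3, 0, 4, 6, 2, 1, 1, 5, 7, 8, 9]
    chq := [(0, 1), (1, 0), (1, 3), (1, 4), (1, 6), (1, 7), (3, 1), (4, 1), (6, 1), (7, 1)]
    rng := [(0, 1), (0, 8), (1, 0), (1, 2), (2, 1), (2, 3), (3, 2), (3, 4), (4, 3), (4, 5), (5, 4), (5,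
      9), (6, 7), (6, 10), (7, 6), (7, 8), (8, 0), (8, 7), (9, 5), (9, 10), (10, 6), (10, 9)]
    lev := [] }
  links := [[1, 5, 7, 8], [5, 0, 8, 2, 3, 4], [3, 1, 8, 9], [4, 1, 2, 9, 10, 11], [5, 1, 3, 11, 12, 6,
    13, 14], [7, 0, 1, 4, 14, 15], [13, 4, 12, 16, 17]]
  P := {
    a := 7
    N := 18
    nb := [418, 317, 778, 3606, 30826, 49299, 208912, 33057, 647, 1292, 2568, 5144, 67664, 147536,
      41008, 16544, 135232, 73792]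
    tri := [(0, 1, 5), (0, 1, 8), (0, 5, 7), (0, 7, 8), (1, 2, 3), (1, 2, 8), (1, 3, 4), (1, 4, 5), (2,
      3, 9), (2, 8, 9), (3, 4, 11), (3, 9, 10), (3, 10, 11), (4, 5, 14), (4, 6, 12), (4, 6, 13),
      (4, 11, 12), (4, 13, 14), (5, 7, 15), (5, 14, 15), (6, 12, 16), (6, 13, 17), (6, 16, 17)]
    fin := [0, 0, 2, 3, 3, 3, 3, 0, 2, 9, 10, 11, 3, 3, 14, 15, 16, 17]
    chd := [(0, 3), (2, 3), (3, 15), (9, 3), (10, 3)]
    steps := [(0, 1), (0, 7), (2, 8), (3, 4), (3, 5), (3, 6), (3, 12), (3, 13)] }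
  rep := [2, 3, 11, 0, 9, 14, 10, 15, 16, 17]

noncomputable def v2736 : Cov.CovD where
  P := 3
  N := 7
  pl := [4, 7, 9, 10]
  lev := [⟨[], [], [(0, 3)], [], [(0, 3, [1]), (1, 0, [1])]⟩,
    ⟨[], [(0, 0), (0, 3)], [], [], [(1, 0, [1])]⟩,
    ⟨[(0, 1)], [(0, 0), (1, 0), (1, 4)], [(0, 4)], [], [(1, 0, [1]), (2, 4, [1])]⟩,
    ⟨[(0, 1), (1, 2)], [(1, 0), (1, 4), (1, 6), (2, 0), (2, 4), (2, 6)], [(4, 6)], [2],
      [(2, 4, [1]), (3, 6, [1])]⟩,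
    ⟨[(0, 1), (1, 2), (1, 3), (2, 3)], [(1, 0), (1, 1), (3, 1), (3, 4), (3, 6)], [(1, 1)],
      [2, 5], [(5, 1, [0, 3, 4, 6, 7]), (6, 1, [0, 3, 4, 6, 7])]⟩,
    ⟨[(0, 1), (0, 4), (1, 2), (1, 3), (1, 4), (3, 4)], [(0, 0), (0, 3), (0, 7), (1, 0), (1,
      3), (1, 7), (4, 1), (4, 3), (4, 7)], [(3, 7)], [5], [(0, 3, [1]), (8, 7, [1])]⟩,
    ⟨[(1, 4), (3, 4), (4, 5)], [(4, 1)], [(1, 1)], [8, 9], [(5, 1, [0, 3, 4, 6, 7]), (6, 1,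
      [0, 3, 4, 6, 7])]⟩]
  Ta := [((5, 4), 1, 2), ((5, 9), 1, 8), ((6, 7), 1, 5), ((6, 10), 1, 9)]
  Tb := [((0, 1, 8), 3, 0, 7), ((1, 0, 2), 0, 3, 4), ((2, 1, 3), 4, 0, 6), ((3, 2, 4), 6, 4, 2),
    ((4, 3, 5), 2, 6, 1), ((5, 4, 9), 1, 2, 8), ((6, 7, 10), 1, 5, 9), ((7, 6, 8), 5, 1, 7),
    ((8, 0, 7), 7, 3, 5), ((9, 5, 10), 8, 1, 9), ((10, 6, 9), 9, 1, 8)]
  Tc := [(1, 0, 3), (1, 0, 4), (1, 0, 6), (1, 0, 7), (1, 3, 4), (1, 3, 6), (1, 3, 7), (1, 4, 6),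
    (1, 4, 7), (1, 6, 7)]
  Td := [((0, 1), (1, 0), 3), ((0, 1), (1, 2), 4), ((1, 0), (5, 4), 2), ((1, 0), (5, 9), 8), ((1,
    0), (6, 7), 5), ((1, 0), (6, 10), 9), ((1, 3), (5, 4), 2), ((1, 3), (5, 9), 8), ((1, 3),
    (6, 7), 5), ((1, 3), (6, 10), 9), ((1, 4), (5, 4), 2), ((1, 4), (5, 9), 8), ((1, 4), (6,
    7), 5), ((1, 4), (6, 10), 9), ((1, 6), (5, 4), 2), ((1, 6), (5, 9), 8), ((1, 6), (6, 7),
    5), ((1, 6), (6, 10), 9), ((1, 7), (5, 4), 2), ((1, 7), (5, 9), 8), ((1, 7), (6, 7), 5),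
    ((1, 7), (6, 10), 9), ((3, 1), (0, 1), 0), ((3, 1), (0, 8), 7), ((4, 1), (2, 1), 0), ((4,
    1), (2, 3), 6), ((6, 1), (3, 2), 4), ((6, 1), (3, 4), 2), ((7, 1), (8, 0), 3), ((7, 1),
    (8, 7), 5)]
  G := [[0, 0xe1e1c182e1412e1812ce1e1c142e, 0xd292c2245282d24268d4342d4342cdd382d8382cce,
    0xd2d255282d2d12d2c2dd282, 0x52122d2822cd2d292d2d292d159c592e4a], [0,
    0xe1e1c182e1e1c122e1414e1814ce, 0x42422d2822cd242424455d94dfca6d8392c2d8382cca, 0,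
    0x8285a9224921228d2dc392d2dc3925d1d82e4e]]

noncomputable def n2736 : Ent := ⟨e2736, noF, [], [], []⟩

def c2736 : PLift (Cov.check n2736.C.D v2736 = true) := ⟨by decide +kernel⟩

def b2736 : PLift (entF (fidx ts) 400 2736 n2736 = true) := ⟨by decide +kernel⟩

theorem g2736 : GoodF (fidx ts) 400 2736 := GoodF.ofV v2736 n2736 c2736.down b2736.down

/-- 4649446:2207/1 -/
noncomputable def e2737 : SCfg where
  D := {
    a := 7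
    L := 10
    kp := 7
    inn := [(0, 1), (1, 0), (1, 2), (1, 3), (2, 1), (3, 1), (3, 4), (3, 5), (3, 6), (4, 3), (4, 6), (5,
      3), (5, 6), (6, 3), (6, 4), (6, 5)]
    mix := [(0, 0), (0, 1), (0, 2), (1, 0), (1, 2), (1, 3), (2, 2), (2, 3), (2, 4), (3, 0), (3, 3), (3,
      5), (3, 6), (3, 7), (4, 3), (4, 4), (5, 5), (5, 8), (6, 4), (6, 8), (6, 9)]
    cl := [0, 5, 1, 0, 2, 0, 6, 7, 3, 4]
    chq := [(0, 1), (0, 4), (1, 0), (4, 0)]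
    rng := [(0, 1), (0, 7), (1, 0), (1, 2), (2, 1), (2, 4), (3, 4), (4, 2), (4, 3), (4, 9), (5, 6), (5,
      8), (6, 5), (6, 7), (7, 0), (7, 6), (8, 5), (8, 9), (9, 4), (9, 8)]
    lev := [] }
  links := [[1, 7, 8, 9], [7, 0, 9, 2, 10, 3], [10, 1, 9, 11], [7, 1, 10, 4, 6, 5, 12, 13, 14], [6, 3,
    10, 11], [12, 3, 6, 15], [15, 5, 3, 4, 11, 16]]
  P := {
    a := 7
    N := 17
    nb := [898, 1677, 3586, 29938, 3144, 36936, 100408, 16651, 641, 2311, 2078, 67156, 41000, 20488,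
      8328, 69728, 34880]
    tri := [(0, 1, 7), (0, 1, 9), (0, 7, 8), (0, 8, 9), (1, 2, 9), (1, 2, 10), (1, 3, 7), (1, 3, 10),
      (2, 9, 11), (2, 10, 11), (3, 4, 6), (3, 4, 10), (3, 5, 6), (3, 5, 12), (3, 7, 14), (3, 12,
      13), (3, 13, 14), (4, 6, 11), (4, 10, 11), (5, 6, 15), (5, 12, 15), (6, 11, 16), (6, 15,
      16)]
    fin := [0, 0, 0, 0, 0, 0, 0, 0, 8, 9, 0, 11, 0, 13, 14, 15, 16]
    chd := [(0, 9), (0, 16)]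
    steps := [(0, 1), (0, 2), (0, 3), (0, 5), (0, 7), (0, 10), (0, 4), (0, 6), (0, 12)] }
  rep := [0, 9, 11, 15, 16, 8, 13, 14]

noncomputable def v2737 : Cov.CovD where
  P := 3
  N := 5
  pl := [1, 4, 6, 7, 8]
  lev := [⟨[], [], [(0, 1)], [5], [(0, 0, [1, 4]), (2, 1, [0])]⟩,
    ⟨[], [(0, 0), (0, 1)], [(0, 0), (0, 1)], [], [(0, 0, [1, 4]), (2, 1, [0]), (3, 0, [1,
      4])]⟩,
    ⟨[(0, 1)], [(0, 1), (1, 0), (1, 1)], [(0, 1)], [2], [(2, 1, [0]), (3, 0, [1, 4])]⟩,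
    ⟨[(0, 1), (1, 2)], [(0, 0), (1, 0), (1, 1), (2, 0)], [(0, 0)], [6, 7], [(0, 0, [1, 4]),
      (3, 0, [1, 4]), (5, 0, [1, 4])]⟩,
    ⟨[(1, 3)], [(1, 0), (2, 0), (3, 0)], [], [2], [(3, 0, [1, 4])]⟩,
    ⟨[(1, 3), (3, 4)], [(3, 0)], [], [3], [(5, 0, [1, 4])]⟩,
    ⟨[(1, 3), (3, 4), (3, 5), (4, 5)], [(3, 0), (3, 4), (4, 0), (4, 4), (5, 0), (5, 4)],
      [], [2, 3], [(9, 4, [0])]⟩]
  Ta := [((0, 1), 0, 5), ((0, 7), 0, 7), ((3, 4), 0, 2), ((5, 6), 0, 6), ((5, 8), 0, 3)]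
  Tb := [((0, 1, 7), 0, 5, 7), ((1, 0, 2), 5, 0, 1), ((2, 1, 4), 1, 5, 2), ((4, 2, 3), 2, 1, 0),
    ((4, 2, 9), 2, 1, 4), ((4, 3, 9), 2, 0, 4), ((5, 6, 8), 0, 6, 3), ((6, 5, 7), 6, 0, 7),
    ((7, 0, 6), 7, 0, 6), ((8, 5, 9), 3, 0, 4), ((9, 4, 8), 4, 2, 3)]
  Tc := [(0, 1, 4)]
  Td := [((0, 1), (0, 1), 5), ((0, 1), (0, 7), 7), ((0, 1), (3, 4), 2), ((0, 1), (5, 6), 6), ((0,
    1), (5, 8), 3), ((0, 4), (0, 1), 5), ((0, 4), (0, 7), 7), ((0, 4), (3, 4), 2), ((0, 4),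
    (5, 6), 6), ((0, 4), (5, 8), 3), ((1, 0), (2, 1), 5), ((1, 0), (2, 4), 2), ((4, 0), (9,
    4), 2), ((4, 0), (9, 8), 3)]
  G := [[0, 0x11c411a411c4e8211a8411a411c8ac4a, 0, 0x11a411a811a4e14116411c811c4e48c,
    0x116811a811c8e84116211621168e18c], [0, 0x116411681164e48116811a81168e846,
    0xe18e1464e1488c1, 0x116811a81164e841, 0x116811a811c2e841], [0,
    0x1164116811a8e48116411a81164e486, 0, 0x156459a81d68e484184c1, 0xb16814a83681bc288c1]]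

noncomputable def n2737 : Ent := ⟨e2737, noF, [], [], []⟩

def c2737 : PLift (Cov.check n2737.C.D v2737 = true) := ⟨by decide +kernel⟩

def b2737 : PLift (entF (fidx ts) 400 2737 n2737 = true) := ⟨by decide +kernel⟩

theorem g2737 : GoodF (fidx ts) 400 2737 := GoodF.ofV v2737 n2737 c2737.down b2737.down

/-- 4649446:2207 -/
noncomputable def e2738 : SCfg where
  D := {
    a := 7
    L := 11
    kp := 8
    inn := [(0, 1), (1, 0), (1, 2), (1, 3), (2, 1), (3, 1), (3, 4), (3, 5), (3, 6), (4, 3), (4, 6), (5,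
      3), (5, 6), (6, 3), (6, 4), (6, 5)]
    mix := [(0, 0), (0, 1), (0, 2), (1, 0), (1, 2), (1, 3), (2, 2), (2, 3), (2, 4), (3, 0), (3, 3), (3,
      5), (3, 6), (3, 7), (4, 3), (4, 8), (5, 5), (5, 9), (6, 8), (6, 9), (6, 10)]
    cl := [0, 5, 1, 0, 6, 0, 7, 8, 2, 3, 4]
    chq := [(0, 1), (0, 4), (1, 0), (4, 0)]
    rng := [(0, 1), (0, 7), (1, 0), (1, 2), (2, 1), (2, 4), (3, 4), (3, 8), (4, 2), (4, 3), (5, 6), (5,
      9), (6, 5), (6, 7), (7, 0), (7, 6), (8, 3), (8, 10), (9, 5), (9, 10), (10, 8), (10, 9)]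
    lev := [] }
  links := [[1, 7, 8, 9], [7, 0, 9, 2, 10, 3], [10, 1, 9, 11], [7, 1, 10, 4, 6, 5, 12, 13, 14], [6, 3,
    10, 15], [12, 3, 6, 16], [16, 5, 3, 4, 15, 17]]
  P := {
    a := 7
    N := 18
    nb := [898, 1677, 3586, 29938, 33864, 69704, 229432, 16651, 641, 2311, 34846, 1540, 73768, 20488,
      8328, 132176, 135264, 98368]
    tri := [(0, 1, 7), (0, 1, 9), (0, 7, 8), (0, 8, 9), (1, 2, 9), (1, 2, 10), (1, 3, 7), (1, 3, 10),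
      (2, 9, 11), (2, 10, 11), (3, 4, 6), (3, 4, 10), (3, 5, 6), (3, 5, 12), (3, 7, 14), (3, 12,
      13), (3, 13, 14), (4, 6, 15), (4, 10, 15), (5, 6, 16), (5, 12, 16), (6, 15, 17), (6, 16,
      17)]
    fin := [0, 0, 0, 0, 0, 0, 0, 0, 8, 9, 0, 11, 0, 13, 14, 15, 16, 17]
    chd := [(0, 9), (0, 17)]
    steps := [(0, 1), (0, 2), (0, 3), (0, 4), (0, 5), (0, 6), (0, 7), (0, 10), (0, 12)] }
  rep := [0, 9, 15, 16, 17, 8, 11, 13, 14]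

noncomputable def v2738 : Cov.CovD where
  P := 3
  N := 6
  pl := [1, 4, 6, 7, 8, 9]
  lev := [⟨[], [], [(0, 1)], [5], [(0, 0, [1, 4]), (2, 1, [0])]⟩,
    ⟨[], [(0, 0), (0, 1)], [(0, 0), (0, 1)], [], [(0, 0, [1, 4]), (2, 1, [0]), (3, 0, [1,
      4])]⟩,
    ⟨[(0, 1)], [(0, 1), (1, 0), (1, 1)], [(0, 1)], [6], [(2, 1, [0]), (3, 0, [1, 4])]⟩,
    ⟨[(0, 1), (1, 2)], [(0, 0), (1, 0), (1, 1), (2, 0)], [(0, 0)], [7, 8], [(0, 0, [1, 4]),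
      (3, 0, [1, 4]), (5, 0, [1, 4])]⟩,
    ⟨[(1, 3)], [(1, 0), (2, 0), (3, 0)], [], [2], [(3, 0, [1, 4])]⟩,
    ⟨[(1, 3), (3, 4)], [(3, 0)], [], [3], [(5, 0, [1, 4])]⟩,
    ⟨[(1, 3), (3, 4), (3, 5), (4, 5)], [(3, 0), (3, 4), (4, 0), (4, 4), (5, 0), (5, 4)],
      [], [2, 3], [(10, 4, [0])]⟩]
  Ta := [((0, 1), 0, 5), ((0, 7), 0, 8), ((3, 4), 0, 6), ((3, 8), 0, 2), ((5, 6), 0, 7), ((5, 9),
    0, 3)]
  Tb := [((0, 1, 7), 0, 5, 8), ((1, 0, 2), 5, 0, 1), ((2, 1, 4), 1, 5, 6), ((3, 4, 8), 0, 6, 2),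
    ((4, 2, 3), 6, 1, 0), ((5, 6, 9), 0, 7, 3), ((6, 5, 7), 7, 0, 8), ((7, 0, 6), 8, 0, 7),
    ((8, 3, 10), 2, 0, 4), ((9, 5, 10), 3, 0, 4), ((10, 8, 9), 4, 2, 3)]
  Tc := [(0, 1, 4)]
  Td := [((0, 1), (0, 1), 5), ((0, 1), (0, 7), 8), ((0, 1), (3, 4), 6), ((0, 1), (3, 8), 2), ((0,
    1), (5, 6), 7), ((0, 1), (5, 9), 3), ((0, 4), (0, 1), 5), ((0, 4), (0, 7), 8), ((0, 4),
    (3, 4), 6), ((0, 4), (3, 8), 2), ((0, 4), (5, 6), 7), ((0, 4), (5, 9), 3), ((1, 0), (2,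
    1), 5), ((1, 0), (2, 4), 6), ((4, 0), (10, 8), 2), ((4, 0), (10, 9), 3)]
  G := [[0, 0x116811c811c4e8211c4211a411a8c6211c422116811a8c4ae, 0,
    0x11a411a811c8e14116411c81168e18c, 0x11c211a211c8e1411c241116811c2a1cc], [0,
    0x11c411a811a8e841168116811c8e42116811a811c8e24e, 0xc122c4e124c6181ae14ae12e18acc1,
    0x116411a411c8e4116811a81164e8c1, 0x116211c811a8e4116211a811c8e8c1], [0,
    0x11642811a411a4c8611c411a411c8e42116411c811a8e28e, 0, 0x52459c81dc8e194481c1,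
    0x3962b1a23968e141]]

noncomputable def n2738 : Ent := ⟨e2738, noF, [], [], [(11, 15, [7334790850167413569773436004105379185503274260204390087403942015864833, 0])]⟩

def c2738 : PLift (Cov.check n2738.C.D v2738 = true) := ⟨by decide +kernel⟩

def b2738 : PLift (entF (fidx ts) 400 2738 n2738 = true) := ⟨by decide +kernel⟩

theorem g2738 : GoodF (fidx ts) 400 2738 := GoodF.ofV v2738 n2738 c2738.down b2738.down

/-- 4595464:2208/1 -/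
noncomputable def e2739 : SCfg where
  D := {
    a := 7
    L := 10
    kp := 7
    inn := [(0, 1), (0, 2), (1, 0), (1, 2), (2, 0), (2, 1), (2, 3), (2, 4), (2, 5), (3, 2), (3, 4), (4,
      2), (4, 3), (5, 2), (5, 6), (6, 5)]
    mix := [(0, 0), (0, 1), (1, 1), (1, 2), (1, 3), (2, 0), (2, 3), (2, 4), (2, 5), (3, 4), (3, 6), (3,
      7), (4, 5), (4, 7), (5, 0), (5, 5), (5, 8), (5, 9), (6, 5), (6, 7), (6, 8)]
    cl := [0, 2, 5, 0, 1, 0, 6, 3, 4, 7]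
    chq := [(0, 4), (1, 3), (3, 1), (4, 0)]
    rng := [(0, 1), (0, 9), (1, 0), (1, 2), (2, 1), (2, 3), (3, 2), (3, 4), (4, 3), (4, 6), (5, 7), (6,
      4), (6, 7), (7, 5), (7, 6), (7, 8), (8, 7), (8, 9), (9, 0), (9, 8)]
    lev := [] }
  links := [[1, 2, 7, 8], [2, 0, 8, 9, 10], [7, 0, 1, 10, 11, 3, 4, 12, 5], [4, 2, 11, 13, 14], [12, 2,
    3, 14], [7, 2, 12, 6, 15, 16], [15, 5, 12, 14]]
  P := {
    a := 7
    N := 17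
    nb := [390, 1797, 7355, 26644, 20492, 102596, 53280, 65829, 643, 1282, 2566, 9228, 16500, 18440,
      45144, 82016, 32928]
    tri := [(0, 1, 2), (0, 1, 8), (0, 2, 7), (0, 7, 8), (1, 2, 10), (1, 8, 9), (1, 9, 10), (2, 3, 4),
      (2, 3, 11), (2, 4, 12), (2, 5, 7), (2, 5, 12), (2, 10, 11), (3, 4, 14), (3, 11, 13), (3, 13,
      14), (4, 12, 14), (5, 6, 12), (5, 6, 15), (5, 7, 16), (5, 15, 16), (6, 12, 14), (6, 14, 15)]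
    fin := [0, 0, 0, 3, 0, 0, 0, 0, 8, 9, 0, 3, 0, 13, 14, 15, 16]
    chd := [(0, 15), (3, 14)]
    steps := [(0, 1), (0, 2), (0, 4), (0, 5), (0, 7), (0, 10), (0, 12), (0, 6), (3, 11)] }
  rep := [0, 3, 8, 14, 15, 9, 13, 16]

noncomputable def v2739 : Cov.CovD where
  P := 3
  N := 5
  pl := [1, 2, 6, 9]
  lev := [⟨[], [], [], [2], [(0, 0, [4])]⟩,
    ⟨[], [(0, 0)], [], [2, 5], [(3, 0, [4])]⟩,
    ⟨[(0, 1)], [(0, 0), (0, 1), (1, 0), (1, 1)], [(0, 0), (0, 1)], [], [(0, 0, [4]), (3, 0,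
      [4]), (4, 1, [3]), (5, 0, [4])]⟩,
    ⟨[(0, 2), (1, 2)], [(2, 0), (2, 1), (2, 3)], [(1, 3)], [6], [(4, 1, [3]), (7, 3, [1])]⟩,
    ⟨[(0, 2), (1, 2), (2, 3)], [(2, 0), (2, 1), (2, 3), (3, 0), (3, 1), (3, 3)], [(0, 3)],
      [], [(5, 0, [4]), (7, 3, [1])]⟩,
    ⟨[(0, 2), (1, 2), (2, 3), (2, 4)], [(0, 0), (2, 0), (2, 1), (2, 4), (4, 0)], [(0, 0),
      (0, 4)], [7], [(0, 0, [4]), (5, 0, [4]), (8, 4, [0])]⟩,
    ⟨[(2, 5)], [(2, 0), (3, 3), (4, 0), (4, 3), (5, 0), (5, 3), (5, 4)], [(0, 3), (0, 4),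
      (3, 4)], [], [(5, 0, [4]), (7, 3, [1]), (8, 4, [0])]⟩]
  Ta := [((0, 1), 0, 2), ((0, 9), 0, 7), ((3, 2), 0, 5), ((3, 4), 0, 1), ((5, 7), 0, 3)]
  Tb := [((0, 1, 9), 0, 2, 7), ((1, 0, 2), 2, 0, 5), ((2, 1, 3), 5, 2, 0), ((3, 2, 4), 0, 5, 1),
    ((4, 3, 6), 1, 0, 6), ((6, 4, 7), 6, 1, 3), ((7, 5, 6), 3, 0, 6), ((7, 5, 8), 3, 0, 4),
    ((7, 6, 8), 3, 6, 4), ((8, 7, 9), 4, 3, 7), ((9, 0, 8), 7, 0, 4)]
  Tc := []
  Td := [((0, 4), (0, 1), 2), ((0, 4), (0, 9), 7), ((0, 4), (3, 2), 5), ((0, 4), (3, 4), 1), ((0,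
    4), (5, 7), 3), ((1, 3), (4, 3), 0), ((1, 3), (4, 6), 6), ((3, 1), (7, 5), 0), ((3, 1),
    (7, 6), 6), ((3, 1), (7, 8), 4), ((4, 0), (8, 7), 3), ((4, 0), (8, 9), 7)]
  G := [[0, 0, 0x42614111e8182111e2dc142111e2111e2d82a18cc2, 0x4414128ac962a1313e2dc18,
    0x4441d2e258a1e251a2cc12], [0, 0x126221822111e8141e4ce112e22811e8141e4cac4, 0,
    0x1244348a1e2681132e2dca261145e4713e2d1828cc1,
    0x891e862a1593e2d442624819e818231de2dca142488a], [0, 0, 0, 0xa42646e46eae2d8ea28889c14,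
    0x466244458aee8682eaae2dc18]]

noncomputable def n2739 : Ent := ⟨e2739, noF, [], [], []⟩

def c2739 : PLift (Cov.check n2739.C.D v2739 = true) := ⟨by decide +kernel⟩

def b2739 : PLift (entF (fidx ts) 400 2739 n2739 = true) := ⟨by decide +kernel⟩

theorem g2739 : GoodF (fidx ts) 400 2739 := GoodF.ofV v2739 n2739 c2739.down b2739.down

/-- 4595464:2208 -/
noncomputable def e2740 : SCfg where
  D := {
    a := 7
    L := 11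
    kp := 8
    inn := [(0, 1), (0, 2), (1, 0), (1, 2), (2, 0), (2, 1), (2, 3), (2, 4), (2, 5), (3, 2), (3, 4), (4,
      2), (4, 3), (5, 2), (5, 6), (6, 5)]
    mix := [(0, 0), (0, 1), (1, 1), (1, 2), (1, 3), (2, 0), (2, 3), (2, 4), (2, 5), (3, 4), (3, 6), (3,
      7), (4, 5), (4, 7), (5, 0), (5, 5), (5, 8), (5, 9), (6, 5), (6, 8), (6, 10)]
    cl := [0, 2, 5, 0, 1, 0, 6, 3, 4, 7, 8]
    chq := [(0, 4), (1, 3), (3, 1), (4, 0)]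
    rng := [(0, 1), (0, 9), (1, 0), (1, 2), (2, 1), (2, 3), (3, 2), (3, 4), (4, 3), (4, 6), (5, 7), (5,
      10), (6, 4), (6, 7), (7, 5), (7, 6), (8, 9), (8, 10), (9, 0), (9, 8), (10, 5), (10, 8)]
    lev := [] }
  links := [[1, 2, 7, 8], [2, 0, 8, 9, 10], [7, 0, 1, 10, 11, 3, 4, 12, 5], [4, 2, 11, 13, 14], [12, 2,
    3, 14], [7, 2, 12, 6, 15, 16], [15, 5, 12, 17]]
  P := {
    a := 7
    N := 18
    nb := [390, 1797, 7355, 26644, 20492, 102596, 167968, 65829, 643, 1282, 2566, 9228, 147572, 18440,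
      12312, 196704, 32928, 36928]
    tri := [(0, 1, 2), (0, 1, 8), (0, 2, 7), (0, 7, 8), (1, 2, 10), (1, 8, 9), (1, 9, 10), (2, 3, 4),
      (2, 3, 11), (2, 4, 12), (2, 5, 7), (2, 5, 12), (2, 10, 11), (3, 4, 14), (3, 11, 13), (3, 13,
      14), (4, 12, 14), (5, 6, 12), (5, 6, 15), (5, 7, 16), (5, 15, 16), (6, 12, 17), (6, 15, 17)]
    fin := [0, 0, 0, 3, 0, 0, 0, 0, 8, 9, 0, 3, 0, 13, 14, 15, 16, 17]
    chd := [(0, 15), (3, 14)]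
    steps := [(0, 1), (0, 2), (0, 4), (0, 5), (0, 6), (0, 7), (0, 10), (0, 12), (3, 11)] }
  rep := [0, 3, 8, 14, 15, 9, 13, 16, 17]

noncomputable def v2740 : Cov.CovD where
  P := 3
  N := 6
  pl := [1, 2, 6, 9, 10]
  lev := [⟨[], [], [], [2], [(0, 0, [4])]⟩,
    ⟨[], [(0, 0)], [], [2, 5], [(3, 0, [4])]⟩,
    ⟨[(0, 1)], [(0, 0), (0, 1), (1, 0), (1, 1)], [(0, 0), (0, 1)], [], [(0, 0, [4]), (3, 0,
      [4]), (4, 1, [3]), (5, 0, [4])]⟩,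
    ⟨[(0, 2), (1, 2)], [(2, 0), (2, 1), (2, 3)], [(1, 3)], [6], [(4, 1, [3]), (7, 3, [1])]⟩,
    ⟨[(0, 2), (1, 2), (2, 3)], [(2, 0), (2, 1), (2, 3), (3, 0), (3, 1), (3, 3)], [(0, 3)],
      [], [(5, 0, [4]), (7, 3, [1])]⟩,
    ⟨[(0, 2), (1, 2), (2, 3), (2, 4)], [(0, 0), (2, 0), (2, 1), (2, 4), (4, 0)], [(0, 0),
      (0, 4)], [7], [(0, 0, [4]), (5, 0, [4]), (8, 4, [0])]⟩,
    ⟨[(2, 5)], [(2, 0), (4, 0), (5, 0), (5, 4)], [(0, 4)], [8], [(5, 0, [4]), (8, 4, [0])]⟩]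
  Ta := [((0, 1), 0, 2), ((0, 9), 0, 7), ((3, 2), 0, 5), ((3, 4), 0, 1), ((5, 7), 0, 3), ((5,
    10), 0, 8)]
  Tb := [((0, 1, 9), 0, 2, 7), ((1, 0, 2), 2, 0, 5), ((2, 1, 3), 5, 2, 0), ((3, 2, 4), 0, 5, 1),
    ((4, 3, 6), 1, 0, 6), ((5, 7, 10), 0, 3, 8), ((6, 4, 7), 6, 1, 3), ((7, 5, 6), 3, 0, 6),
    ((8, 9, 10), 4, 7, 8), ((9, 0, 8), 7, 0, 4), ((10, 5, 8), 8, 0, 4)]
  Tc := []
  Td := [((0, 4), (0, 1), 2), ((0, 4), (0, 9), 7), ((0, 4), (3, 2), 5), ((0, 4), (3, 4), 1), ((0,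
    4), (5, 7), 3), ((0, 4), (5, 10), 8), ((1, 3), (4, 3), 0), ((1, 3), (4, 6), 6), ((3, 1),
    (7, 5), 0), ((3, 1), (7, 6), 6), ((4, 0), (8, 9), 7), ((4, 0), (8, 10), 8)]
  G := [[0, 0, 0x1162111e2111e2d1888c1162111e4111e2d1828c62, 0xe421bbe4359e2db1a88c14,
    0x14241bde2eea1e1de2dc18], [0, 0x111e22111e8111e4c6111e22111e8111e4cac1, 0,
    0xee6141bee2182593e2dc356235ee2142d982bea29cc1,
    0x39647b6259b3e2582182dcee61359e2771e2d1888ca1], [0, 0, 0,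
    0xe888ea2c41ee626ec2ee62de821c1c, 0xe42e44ee62deea8eea2e82dc12]]

noncomputable def n2740 : Ent := ⟨e2740, noF, [], [], [(14, 17, [6903326391201334775872065844685381424292761054348340378595029940908033, 0])]⟩

def c2740 : PLift (Cov.check n2740.C.D v2740 = true) := ⟨by decide +kernel⟩

def b2740 : PLift (entF (fidx ts) 400 2740 n2740 = true) := ⟨by decide +kernel⟩

theorem g2740 : GoodF (fidx ts) 400 2740 := GoodF.ofV v2740 n2740 c2740.down b2740.down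

/-- 4595464:2209/1 -/
noncomputable def e2741 : SCfg where
  D := {
    a := 7
    L := 10
    kp := 7
    inn := [(0, 1), (0, 2), (1, 0), (1, 2), (2, 0), (2, 1), (2, 3), (2, 4), (2, 5), (3, 2), (3, 4), (4,
      2), (4, 3), (5, 2), (5, 6), (6, 5)]
    mix := [(0, 0), (0, 1), (1, 1), (1, 2), (1, 3), (2, 0), (2, 3), (2, 4), (2, 5), (3, 4), (3, 6), (3,
      7), (4, 5), (4, 7), (5, 0), (5, 5), (5, 8), (5, 9), (6, 2), (6, 8), (6, 9)]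
    cl := [0, 1, 2, 0, 5, 0, 7, 6, 3, 4]
    chq := [(0, 7), (3, 4), (4, 3), (7, 0)]
    rng := [(0, 1), (0, 9), (1, 0), (1, 2), (2, 1), (2, 3), (2, 8), (2, 9), (3, 2), (3, 4), (4, 3), (4,
      6), (5, 7), (5, 8), (6, 4), (6, 7), (7, 5), (7, 6), (8, 2), (8, 5), (9, 0), (9, 2)]
    lev := [] }
  links := [[1, 2, 7, 8], [2, 0, 8, 9, 10], [7, 0, 1, 10, 11, 3, 4, 12, 5], [4, 2, 11, 13, 14], [12, 2,
    3, 14], [7, 2, 12, 15, 6, 16], [16, 5, 15, 9]]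
  P := {
    a := 7
    N := 17
    nb := [390, 1797, 7355, 26644, 20492, 102596, 98848, 65829, 643, 99650, 2566, 9228, 49204, 18440,
      12312, 4704, 736]
    tri := [(0, 1, 2), (0, 1, 8), (0, 2, 7), (0, 7, 8), (1, 2, 10), (1, 8, 9), (1, 9, 10), (2, 3, 4),
      (2, 3, 11), (2, 4, 12), (2, 5, 7), (2, 5, 12), (2, 10, 11), (3, 4, 14), (3, 11, 13), (3, 13,
      14), (4, 12, 14), (5, 6, 15), (5, 6, 16), (5, 7, 16), (5, 12, 15), (6, 9, 15), (6, 9, 16)]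
    fin := [0, 0, 0, 0, 0, 5, 6, 0, 8, 6, 0, 11, 0, 13, 14, 5, 16]
    chd := [(0, 13), (5, 16)]
    steps := [(0, 1), (0, 2), (0, 3), (0, 4), (0, 7), (0, 10), (0, 12), (5, 15), (6, 9)] }
  rep := [0, 8, 6, 5, 16, 11, 14, 13]

noncomputable def v2741 : Cov.CovD where
  P := 3
  N := 5
  pl := [1, 2, 4, 7]
  lev := [⟨[], [], [], [1], [(0, 0, [7])]⟩,
    ⟨[], [(0, 0)], [], [1, 2], [(3, 0, [7])]⟩,
    ⟨[(0, 1)], [(0, 0), (1, 0)], [(0, 0)], [5], [(0, 0, [7]), (3, 0, [7]), (5, 0, [7])]⟩,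
    ⟨[(0, 2), (1, 2)], [(2, 0), (2, 7)], [], [5, 6], [(6, 7, [0])]⟩,
    ⟨[(0, 2), (1, 2), (2, 3)], [(2, 0), (3, 0), (3, 7)], [], [6], [(5, 0, [7])]⟩,
    ⟨[(0, 2), (1, 2), (2, 3), (2, 4)], [(0, 0), (2, 0), (2, 3), (2, 4), (4, 0)], [(0, 0),
      (0, 3), (0, 4), (3, 4)], [], [(0, 0, [7]), (5, 0, [7]), (8, 3, [4]), (9, 4, [3])]⟩,
    ⟨[(2, 5)], [(5, 0), (5, 3), (5, 4)], [(3, 4)], [2], [(8, 3, [4]), (9, 4, [3])]⟩]
  Ta := [((0, 1), 0, 1), ((0, 9), 0, 4), ((3, 2), 0, 2), ((3, 4), 0, 5), ((5, 7), 0, 6), ((5, 8),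
    0, 3)]
  Tb := [((0, 1, 9), 0, 1, 4), ((1, 0, 2), 1, 0, 2), ((2, 1, 3), 2, 1, 0), ((2, 1, 8), 2, 1, 3),
    ((2, 1, 9), 2, 1, 4), ((2, 3, 8), 2, 0, 3), ((2, 3, 9), 2, 0, 4), ((2, 8, 9), 2, 3, 4),
    ((3, 2, 4), 0, 2, 5), ((4, 3, 6), 5, 0, 7), ((5, 7, 8), 0, 6, 3), ((6, 4, 7), 7, 5, 6),
    ((7, 5, 6), 6, 0, 7), ((8, 2, 5), 3, 2, 0), ((9, 0, 2), 4, 0, 2)]
  Tc := []
  Td := [((0, 7), (0, 1), 1), ((0, 7), (0, 9), 4), ((0, 7), (3, 2), 2), ((0, 7), (3, 4), 5), ((0,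
    7), (5, 7), 6), ((0, 7), (5, 8), 3), ((3, 4), (8, 2), 2), ((3, 4), (8, 5), 0), ((4, 3),
    (9, 0), 0), ((4, 3), (9, 2), 2), ((7, 0), (6, 4), 5), ((7, 0), (6, 7), 6)]
  G := [[0, 0x141e111e61141e111ec1a44, 0, 0xd2d261d2d2c1a44, 0x14192e6182a8114831ec1e14], [0, 0,
    0x4264266182a82aa184c84cc1e84, 0x128121122122f1212c1688,
    0x14411625112e882a1111e2182f111e11ca1e81], [0, 0, 0, 0x122124d2c2a74d22d24389d22884c,
    0x1442246812e882a8128812e2f811e814881c8216831ecfe18]]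

noncomputable def n2741 : Ent := ⟨e2741, noF, [], [], []⟩

def c2741 : PLift (Cov.check n2741.C.D v2741 = true) := ⟨by decide +kernel⟩

def b2741 : PLift (entF (fidx ts) 400 2741 n2741 = true) := ⟨by decide +kernel⟩

theorem g2741 : GoodF (fidx ts) 400 2741 := GoodF.ofV v2741 n2741 c2741.down b2741.down

/-- 4595464:2209/2 -/
noncomputable def e2742 : SCfg where
  D := {
    a := 7
    L := 10
    kp := 7
    inn := [(0, 1), (0, 2), (1, 0), (1, 2), (2, 0), (2, 1), (2, 3), (2, 4), (2, 5), (3, 2), (3, 4), (4,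
      2), (4, 3), (5, 2), (5, 6), (6, 5)]
    mix := [(0, 0), (0, 1), (1, 1), (1, 2), (1, 3), (2, 0), (2, 3), (2, 4), (2, 5), (3, 4), (3, 6), (3,
      7), (4, 5), (4, 7), (5, 0), (5, 5), (5, 8), (5, 9), (6, 6), (6, 8), (6, 9)]
    cl := [0, 2, 7, 0, 5, 0, 1, 6, 3, 4]
    chq := [(0, 1), (1, 0), (3, 4), (4, 3)]
    rng := [(0, 1), (0, 9), (1, 0), (1, 2), (2, 1), (2, 3), (3, 2), (3, 4), (4, 3), (4, 6), (5, 7), (5,
      8), (6, 4), (6, 7), (6, 8), (6, 9), (7, 5), (7, 6), (8, 5), (8, 6), (9, 0), (9, 6)]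
    lev := [] }
  links := [[1, 2, 7, 8], [2, 0, 8, 9, 10], [7, 0, 1, 10, 11, 3, 4, 12, 5], [4, 2, 11, 13, 14], [12, 2,
    3, 14], [7, 2, 12, 15, 6, 16], [16, 5, 15, 13]]
  P := {
    a := 7
    N := 17
    nb := [390, 1797, 7355, 26644, 20492, 102596, 106528, 65829, 643, 1282, 2566, 9228, 49204, 116808,
      12312, 12384, 8416]
    tri := [(0, 1, 2), (0, 1, 8), (0, 2, 7), (0, 7, 8), (1, 2, 10), (1, 8, 9), (1, 9, 10), (2, 3, 4),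
      (2, 3, 11), (2, 4, 12), (2, 5, 7), (2, 5, 12), (2, 10, 11), (3, 4, 14), (3, 11, 13), (3, 13,
      14), (4, 12, 14), (5, 6, 15), (5, 6, 16), (5, 7, 16), (5, 12, 15), (6, 13, 15), (6, 13, 16)]
    fin := [0, 0, 0, 0, 0, 0, 6, 0, 8, 9, 0, 11, 0, 13, 14, 6, 16]
    chd := [(0, 13), (6, 16)]
    steps := [(0, 1), (0, 2), (0, 3), (0, 4), (0, 5), (0, 7), (0, 10), (0, 12), (6, 15)] }
  rep := [0, 13, 8, 6, 16, 11, 14, 9]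

noncomputable def v2742 : Cov.CovD where
  P := 3
  N := 5
  pl := [1, 2, 4, 7]
  lev := [⟨[], [], [], [2], [(0, 0, [1])]⟩,
    ⟨[], [(0, 0)], [], [2, 7], [(3, 0, [1])]⟩,
    ⟨[(0, 1)], [(0, 0), (1, 0)], [(0, 0)], [5], [(0, 0, [1]), (3, 0, [1]), (5, 0, [1])]⟩,
    ⟨[(0, 2), (1, 2)], [(2, 0), (2, 1)], [], [5, 6], [(6, 1, [0])]⟩,
    ⟨[(0, 2), (1, 2), (2, 3)], [(2, 0), (3, 0), (3, 1)], [], [6], [(5, 0, [1])]⟩,
    ⟨[(0, 2), (1, 2), (2, 3), (2, 4)], [(0, 0), (2, 0), (2, 3), (2, 4), (4, 0)], [(0, 0),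
      (0, 3), (0, 4), (3, 4)], [], [(0, 0, [1]), (5, 0, [1]), (8, 3, [4]), (9, 4, [3])]⟩,
    ⟨[(2, 5)], [(3, 1), (5, 0), (5, 1), (5, 3), (5, 4)], [(1, 3), (1, 4), (3, 4)], [], [(6,
      1, [0]), (8, 3, [4]), (9, 4, [3])]⟩]
  Ta := [((0, 1), 0, 2), ((0, 9), 0, 4), ((3, 2), 0, 7), ((3, 4), 0, 5), ((5, 7), 0, 6), ((5, 8),
    0, 3)]
  Tb := [((0, 1, 9), 0, 2, 4), ((1, 0, 2), 2, 0, 7), ((2, 1, 3), 7, 2, 0), ((3, 2, 4), 0, 7, 5),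
    ((4, 3, 6), 5, 0, 1), ((5, 7, 8), 0, 6, 3), ((6, 4, 7), 1, 5, 6), ((6, 4, 8), 1, 5, 3),
    ((6, 4, 9), 1, 5, 4), ((6, 7, 8), 1, 6, 3), ((6, 7, 9), 1, 6, 4), ((6, 8, 9), 1, 3, 4),
    ((7, 5, 6), 6, 0, 1), ((8, 5, 6), 3, 0, 1), ((9, 0, 6), 4, 0, 1)]
  Tc := []
  Td := [((0, 1), (0, 1), 2), ((0, 1), (0, 9), 4), ((0, 1), (3, 2), 7), ((0, 1), (3, 4), 5), ((0,
    1), (5, 7), 6), ((0, 1), (5, 8), 3), ((1, 0), (6, 4), 5), ((1, 0), (6, 7), 6), ((1, 0),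
    (6, 8), 3), ((1, 0), (6, 9), 4), ((3, 4), (8, 5), 0), ((3, 4), (8, 6), 1), ((4, 3), (9,
    0), 0), ((4, 3), (9, 6), 1)]
  G := [[0, 0x426426c182a82aa184c84ca1e14, 0x121211ce1212211281c61a12214e8, 0xd22112d284ce1a14,
    0xd22112d284ce1a18], [0, 0x4264266182a82aa184c84cc1e18, 0,
    0x1221811e881c1231211c6d6121111e4c84c1121281ce9ac4,
    0x1221111e1811e41211cada4161442111e2d18281a1811e2dca1], [0,
    0x4264266182a82ac184c84c61e18, 0, 0x81a8d225841e84481284c6d618,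
    0x85a2d285841e84481284c6d618]]

noncomputable def n2742 : Ent := ⟨e2742, noF, [], [], []⟩

def c2742 : PLift (Cov.check n2742.C.D v2742 = true) := ⟨by decide +kernel⟩

def b2742 : PLift (entF (fidx ts) 400 2742 n2742 = true) := ⟨by decide +kernel⟩

theorem g2742 : GoodF (fidx ts) 400 2742 := GoodF.ofV v2742 n2742 c2742.down b2742.down

/-- 4595464:2209 -/
noncomputable def e2743 : SCfg where
  D := {
    a := 7
    L := 11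
    kp := 8
    inn := [(0, 1), (0, 2), (1, 0), (1, 2), (2, 0), (2, 1), (2, 3), (2, 4), (2, 5), (3, 2), (3, 4), (4,
      2), (4, 3), (5, 2), (5, 6), (6, 5)]
    mix := [(0, 0), (0, 1), (1, 1), (1, 2), (1, 3), (2, 0), (2, 3), (2, 4), (2, 5), (3, 4), (3, 6), (3,
      7), (4, 5), (4, 7), (5, 0), (5, 5), (5, 8), (5, 9), (6, 8), (6, 9), (6, 10)]
    cl := [0, 1, 7, 0, 2, 0, 6, 5, 3, 4, 8]
    chq := [(0, 6), (3, 4), (4, 3), (6, 0)]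
    rng := [(0, 1), (0, 9), (1, 0), (1, 2), (2, 1), (2, 3), (3, 2), (3, 4), (4, 3), (4, 6), (5, 7), (5,
      8), (6, 4), (6, 7), (7, 5), (7, 6), (8, 5), (8, 10), (9, 0), (9, 10), (10, 8), (10, 9)]
    lev := [] }
  links := [[1, 2, 7, 8], [2, 0, 8, 9, 10], [7, 0, 1, 10, 11, 3, 4, 12, 5], [4, 2, 11, 13, 14], [12, 2,
    3, 14], [7, 2, 12, 15, 6, 16], [16, 5, 15, 17]]
  P := {
    a := 7
    N := 18
    nb := [390, 1797, 7355, 26644, 20492, 102596, 229408, 65829, 643, 1282, 2566, 9228, 49204, 18440,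
      12312, 135264, 131296, 98368]
    tri := [(0, 1, 2), (0, 1, 8), (0, 2, 7), (0, 7, 8), (1, 2, 10), (1, 8, 9), (1, 9, 10), (2, 3, 4),
      (2, 3, 11), (2, 4, 12), (2, 5, 7), (2, 5, 12), (2, 10, 11), (3, 4, 14), (3, 11, 13), (3, 13,
      14), (4, 12, 14), (5, 6, 15), (5, 6, 16), (5, 7, 16), (5, 12, 15), (6, 15, 17), (6, 16, 17)]
    fin := [0, 0, 0, 0, 0, 0, 6, 0, 8, 9, 0, 11, 0, 13, 14, 6, 16, 17]
    chd := [(0, 13), (6, 16)]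
    steps := [(0, 1), (0, 2), (0, 3), (0, 4), (0, 5), (0, 7), (0, 10), (0, 12), (6, 15)] }
  rep := [0, 8, 11, 6, 16, 14, 13, 9, 17]

noncomputable def v2743 : Cov.CovD where
  P := 3
  N := 6
  pl := [1, 2, 4, 7, 10]
  lev := [⟨[], [], [], [1], [(0, 0, [6])]⟩,
    ⟨[], [(0, 0)], [], [1, 7], [(3, 0, [6])]⟩,
    ⟨[(0, 1)], [(0, 0), (1, 0)], [(0, 0)], [2], [(0, 0, [6]), (3, 0, [6]), (5, 0, [6])]⟩,
    ⟨[(0, 2), (1, 2)], [(2, 0), (2, 6)], [], [2, 5], [(6, 6, [0])]⟩,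
    ⟨[(0, 2), (1, 2), (2, 3)], [(2, 0), (3, 0), (3, 6)], [], [5], [(5, 0, [6])]⟩,
    ⟨[(0, 2), (1, 2), (2, 3), (2, 4)], [(0, 0), (2, 0), (2, 3), (2, 4), (4, 0)], [(0, 0),
      (0, 3), (0, 4), (3, 4)], [], [(0, 0, [6]), (5, 0, [6]), (8, 3, [4]), (9, 4, [3])]⟩,
    ⟨[(2, 5)], [(5, 0), (5, 3), (5, 4)], [(3, 4)], [8], [(8, 3, [4]), (9, 4, [3])]⟩]
  Ta := [((0, 1), 0, 1), ((0, 9), 0, 4), ((3, 2), 0, 7), ((3, 4), 0, 2), ((5, 7), 0, 5), ((5, 8),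
    0, 3)]
  Tb := [((0, 1, 9), 0, 1, 4), ((1, 0, 2), 1, 0, 7), ((2, 1, 3), 7, 1, 0), ((3, 2, 4), 0, 7, 2),
    ((4, 3, 6), 2, 0, 6), ((5, 7, 8), 0, 5, 3), ((6, 4, 7), 6, 2, 5), ((7, 5, 6), 5, 0, 6),
    ((8, 5, 10), 3, 0, 8), ((9, 0, 10), 4, 0, 8), ((10, 8, 9), 8, 3, 4)]
  Tc := []
  Td := [((0, 6), (0, 1), 1), ((0, 6), (0, 9), 4), ((0, 6), (3, 2), 7), ((0, 6), (3, 4), 2), ((0,
    6), (5, 7), 5), ((0, 6), (5, 8), 3), ((3, 4), (8, 5), 0), ((3, 4), (8, 10), 8), ((4, 3),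
    (9, 0), 0), ((4, 3), (9, 10), 8), ((6, 0), (6, 4), 2), ((6, 0), (6, 7), 5)]
  G := [[0, 0x5454618893aa1c54153ec1893a88a14e4, 0, 0x53654a19893aa1c14, 0x536536619898c1a18],
    [0, 0, 0x5361232893a1981e95c8544ce321221321e95c1951e195c1eac1,
    0x536536619898a1c53615ca19883aa1cc1, 0x53653661989861a153e53661889861ac1], [0, 0, 0,
    0x54453625913e893a8982dc1444881c, 0x22253685364b951e89849898cba14]]

noncomputable def n2743 : Ent := ⟨e2743, noF, [], [], [(9, 17, [6903326391201334775872065844685381424292761054348340378595029940916225, 0]), (13, 17, [6903326391201334775872065844685381424292761054348340378595029940920321, 0])]⟩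

def c2743 : PLift (Cov.check n2743.C.D v2743 = true) := ⟨by decide +kernel⟩

def b2743 : PLift (entF (fidx ts) 400 2743 n2743 = true) := ⟨by decide +kernel⟩

theorem g2743 : GoodF (fidx ts) 400 2743 := GoodF.ofV v2743 n2743 c2743.down b2743.down

/-- 4596444:2210/1 -/
noncomputable def e2744 : SCfg where
  D := {
    a := 7
    L := 9
    kp := 6
    inn := [(0, 1), (0, 2), (1, 0), (1, 2), (2, 0), (2, 1), (2, 3), (2, 4), (2, 6), (3, 2), (3, 4), (3,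
      5), (4, 2), (4, 3), (5, 3), (6, 2)]
    mix := [(0, 0), (0, 1), (1, 1), (1, 2), (1, 3), (2, 0), (2, 3), (2, 4), (2, 5), (3, 4), (3, 6), (3,
      7), (4, 3), (4, 6), (5, 1), (5, 6), (5, 7), (6, 0), (6, 5), (6, 8)]
    cl := [0, 1, 5, 0, 0, 2, 3, 4, 6]
    chq := [(3, 4), (4, 3)]
    rng := [(0, 1), (0, 8), (1, 0), (1, 2), (1, 6), (1, 7), (2, 1), (2, 3), (3, 2), (3, 6), (4, 5), (4,
      7), (5, 4), (5, 8), (6, 1), (6, 3), (7, 1), (7, 4), (8, 0), (8, 5)]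
    lev := [] }
  links := [[1, 2, 7, 8], [2, 0, 8, 9, 10], [7, 0, 1, 10, 4, 3, 11, 12, 6], [11, 2, 4, 13, 5, 14], [13,
    3, 2, 10], [14, 3, 13, 8], [7, 2, 12, 15]]
  P := {
    a := 7
    N := 16
    nb := [390, 1797, 7387, 26676, 9228, 24840, 36996, 33093, 25251, 1282, 8726, 20492, 34884, 1336,
      2344, 4288]
    tri := [(0, 1, 2), (0, 1, 8), (0, 2, 7), (0, 7, 8), (1, 2, 10), (1, 8, 9), (1, 9, 10), (2, 3, 4),
      (2, 3, 11), (2, 4, 10), (2, 6, 7), (2, 6, 12), (2, 11, 12), (3, 4, 13), (3, 5, 13), (3, 5,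
      14), (3, 11, 14), (4, 10, 13), (5, 8, 13), (5, 8, 14), (6, 7, 15), (6, 12, 15)]
    fin := [0, 0, 0, 0, 0, 5, 0, 0, 8, 9, 0, 0, 12, 5, 14, 15]
    chd := [(5, 14)]
    steps := [(0, 1), (0, 2), (0, 3), (0, 4), (0, 6), (0, 7), (0, 10), (0, 11), (5, 13)] }
  rep := [0, 8, 12, 5, 14, 9, 15]

noncomputable def v2744 : Cov.CovD where
  P := 3
  N := 4
  pl := [1, 2, 5, 8]
  lev := [⟨[], [], [], [1], [(0, 0, [])]⟩,
    ⟨[], [(0, 0)], [], [1, 5], [(3, 0, [])]⟩,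
    ⟨[(0, 1)], [(0, 0), (1, 0)], [(0, 0)], [2], [(0, 0, []), (3, 0, []), (4, 0, [])]⟩,
    ⟨[(0, 2), (1, 2)], [(2, 0), (2, 3), (2, 4)], [(0, 3), (0, 4), (3, 4)], [], [(4, 0, []),
      (6, 3, [4]), (7, 4, [3])]⟩,
    ⟨[(0, 2), (1, 2), (2, 3)], [(1, 0), (2, 0), (2, 3), (3, 0), (3, 3), (3, 4)], [(0, 3)],
      [], [(3, 0, []), (6, 3, [4])]⟩,
    ⟨[(2, 3), (3, 4)], [(3, 0), (3, 3), (3, 4), (4, 3)], [(3, 4)], [1], [(6, 3, [4]), (7,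
      4, [3])]⟩,
    ⟨[(0, 2), (1, 2), (2, 3), (2, 4)], [(0, 0), (2, 0)], [], [2, 6], [(0, 0, [])]⟩]
  Ta := [((0, 1), 0, 1), ((0, 8), 0, 6), ((3, 2), 0, 5), ((3, 6), 0, 3), ((4, 5), 0, 2), ((4, 7),
    0, 4)]
  Tb := [((0, 1, 8), 0, 1, 6), ((1, 0, 2), 1, 0, 5), ((1, 0, 6), 1, 0, 3), ((1, 0, 7), 1, 0, 4),
    ((1, 2, 6), 1, 5, 3), ((1, 2, 7), 1, 5, 4), ((1, 6, 7), 1, 3, 4), ((2, 1, 3), 5, 1, 0),
    ((3, 2, 6), 0, 5, 3), ((4, 5, 7), 0, 2, 4), ((5, 4, 8), 2, 0, 6), ((6, 1, 3), 3, 1, 0),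
    ((7, 1, 4), 4, 1, 0), ((8, 0, 5), 6, 0, 2)]
  Tc := []
  Td := [((3, 4), (6, 1), 1), ((3, 4), (6, 3), 0), ((4, 3), (7, 1), 1), ((4, 3), (7, 4), 0)]
  G := [[0, 0xccccca618c4148888cae5864, 0, 0xc12cccc4a3418, 0xa122a18a449a14], [0, 0, 0,
    0x14211211c471828c142119211c878c4, 0x11146119261881a41421192611c81a8c], [0, 0,
    0xa14a126c188a14, 0x11411526181868c18, 0x1152218186114ca14]]

noncomputable def n2744 : Ent := ⟨e2744, noF, [], [], []⟩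

def c2744 : PLift (Cov.check n2744.C.D v2744 = true) := ⟨by decide +kernel⟩

def b2744 : PLift (entF (fidx ts) 400 2744 n2744 = true) := ⟨by decide +kernel⟩

theorem g2744 : GoodF (fidx ts) 400 2744 := GoodF.ofV v2744 n2744 c2744.down b2744.down

/-- 4596444:2210/2 -/
noncomputable def e2745 : SCfg where
  D := {
    a := 7
    L := 9
    kp := 6
    inn := [(0, 1), (0, 2), (1, 0), (1, 2), (2, 0), (2, 1), (2, 3), (2, 4), (2, 6), (3, 2), (3, 4), (3,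
      5), (4, 2), (4, 3), (5, 3), (6, 2)]
    mix := [(0, 0), (0, 1), (1, 1), (1, 2), (1, 3), (2, 0), (2, 3), (2, 4), (2, 5), (3, 4), (3, 6), (3,
      7), (4, 3), (4, 6), (5, 2), (5, 6), (5, 7), (6, 0), (6, 5), (6, 8)]
    cl := [0, 1, 2, 0, 0, 5, 3, 4, 6]
    chq := [(3, 4), (4, 3)]
    rng := [(0, 1), (0, 8), (1, 0), (1, 2), (2, 1), (2, 3), (2, 6), (2, 7), (3, 2), (3, 6), (4, 5), (4,
      7), (5, 4), (5, 8), (6, 2), (6, 3), (7, 2), (7, 4), (8, 0), (8, 5)]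
    lev := [] }
  links := [[1, 2, 7, 8], [2, 0, 8, 9, 10], [7, 0, 1, 10, 4, 3, 11, 12, 6], [11, 2, 4, 13, 5, 14], [13,
    3, 2, 10], [14, 3, 13, 9], [7, 2, 12, 15]]
  P := {
    a := 7
    N := 16
    nb := [390, 1797, 7387, 26676, 9228, 25096, 36996, 33093, 643, 25890, 8726, 20492, 34884, 1592,
      2600, 4288]
    tri := [(0, 1, 2), (0, 1, 8), (0, 2, 7), (0, 7, 8), (1, 2, 10), (1, 8, 9), (1, 9, 10), (2, 3, 4),
      (2, 3, 11), (2, 4, 10), (2, 6, 7), (2, 6, 12), (2, 11, 12), (3, 4, 13), (3, 5, 13), (3, 5,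
      14), (3, 11, 14), (4, 10, 13), (5, 9, 13), (5, 9, 14), (6, 7, 15), (6, 12, 15)]
    fin := [0, 0, 0, 0, 0, 5, 0, 0, 8, 9, 0, 0, 12, 5, 14, 15]
    chd := [(5, 14)]
    steps := [(0, 1), (0, 2), (0, 3), (0, 4), (0, 6), (0, 7), (0, 10), (0, 11), (5, 13)] }
  rep := [0, 8, 9, 5, 14, 12, 15]

noncomputable def v2745 : Cov.CovD where
  P := 3
  N := 4
  pl := [1, 2, 5, 8]
  lev := [⟨[], [], [], [1], [(0, 0, [])]⟩,
    ⟨[], [(0, 0)], [], [1, 2], [(3, 0, [])]⟩,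
    ⟨[(0, 1)], [(0, 0), (1, 0)], [(0, 0)], [5], [(0, 0, []), (3, 0, []), (4, 0, [])]⟩,
    ⟨[(0, 2), (1, 2)], [(2, 0), (2, 3), (2, 4)], [(0, 3), (0, 4), (3, 4)], [], [(4, 0, []),
      (6, 3, [4]), (7, 4, [3])]⟩,
    ⟨[(0, 2), (1, 2), (2, 3)], [(1, 0), (2, 0), (2, 3), (3, 0), (3, 3), (3, 4)], [(0, 3)],
      [], [(3, 0, []), (6, 3, [4])]⟩,
    ⟨[(2, 3), (3, 4)], [(3, 0), (3, 3), (3, 4), (4, 3)], [(3, 4)], [2], [(6, 3, [4]), (7,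
      4, [3])]⟩,
    ⟨[(0, 2), (1, 2), (2, 3), (2, 4)], [(0, 0), (2, 0)], [], [5, 6], [(0, 0, [])]⟩]
  Ta := [((0, 1), 0, 1), ((0, 8), 0, 6), ((3, 2), 0, 2), ((3, 6), 0, 3), ((4, 5), 0, 5), ((4, 7),
    0, 4)]
  Tb := [((0, 1, 8), 0, 1, 6), ((1, 0, 2), 1, 0, 2), ((2, 1, 3), 2, 1, 0), ((2, 1, 6), 2, 1, 3),
    ((2, 1, 7), 2, 1, 4), ((2, 3, 6), 2, 0, 3), ((2, 3, 7), 2, 0, 4), ((2, 6, 7), 2, 3, 4),
    ((3, 2, 6), 0, 2, 3), ((4, 5, 7), 0, 5, 4), ((5, 4, 8), 5, 0, 6), ((6, 2, 3), 3, 2, 0),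
    ((7, 2, 4), 4, 2, 0), ((8, 0, 5), 6, 0, 5)]
  Tc := []
  Td := [((3, 4), (6, 2), 2), ((3, 4), (6, 3), 0), ((4, 3), (7, 2), 2), ((4, 3), (7, 4), 0)]
  G := [[0, 0x61266c64a348a11288ac88e384a, 0, 0x41122e1222122c94, 0xc862a148c14a126614a885a1c],
    [0, 0, 0x181412e1181412e1688, 0x111d22111d22c48, 0x11412461118a112a111b411a85e84], [0, 0,
    0, 0x666d224aaad128c1, 0x1113216181921aa81611ce84]]

noncomputable def n2745 : Ent := ⟨e2745, noF, [], [], []⟩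

def c2745 : PLift (Cov.check n2745.C.D v2745 = true) := ⟨by decide +kernel⟩

def b2745 : PLift (entF (fidx ts) 400 2745 n2745 = true) := ⟨by decide +kernel⟩

theorem g2745 : GoodF (fidx ts) 400 2745 := GoodF.ofV v2745 n2745 c2745.down b2745.down

/-- 4596444:2210/3 -/
noncomputable def e2746 : SCfg where
  D := {
    a := 7
    L := 9
    kp := 6
    inn := [(0, 1), (0, 2), (1, 0), (1, 2), (2, 0), (2, 1), (2, 3), (2, 4), (2, 6), (3, 2), (3, 4), (3,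
      5), (4, 2), (4, 3), (5, 3), (6, 2)]
    mix := [(0, 0), (0, 1), (1, 1), (1, 2), (1, 3), (2, 0), (2, 3), (2, 4), (2, 5), (3, 4), (3, 6), (3,
      7), (4, 3), (4, 6), (5, 6), (5, 7), (5, 8), (6, 0), (6, 5), (6, 8)]
    cl := [0, 1, 6, 0, 0, 2, 3, 4, 5]
    chq := [(3, 4), (4, 3)]
    rng := [(0, 1), (0, 8), (1, 0), (1, 2), (2, 1), (2, 3), (3, 2), (3, 6), (4, 5), (4, 7), (5, 4), (5,
      8), (6, 3), (6, 8), (7, 4), (7, 8), (8, 0), (8, 5), (8, 6), (8, 7)]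
    lev := [] }
  links := [[1, 2, 7, 8], [2, 0, 8, 9, 10], [7, 0, 1, 10, 4, 3, 11, 12, 6], [11, 2, 4, 13, 5, 14], [13,
    3, 2, 10], [14, 3, 13, 15], [7, 2, 12, 15]]
  P := {
    a := 7
    N := 16
    nb := [390, 1797, 7387, 26676, 9228, 57352, 36996, 33093, 643, 1282, 8726, 20492, 34884, 33848,
      34856, 28896]
    tri := [(0, 1, 2), (0, 1, 8), (0, 2, 7), (0, 7, 8), (1, 2, 10), (1, 8, 9), (1, 9, 10), (2, 3, 4),
      (2, 3, 11), (2, 4, 10), (2, 6, 7), (2, 6, 12), (2, 11, 12), (3, 4, 13), (3, 5, 13), (3, 5,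
      14), (3, 11, 14), (4, 10, 13), (5, 13, 15), (5, 14, 15), (6, 7, 15), (6, 12, 15)]
    fin := [0, 0, 0, 0, 0, 5, 0, 0, 8, 9, 0, 0, 12, 5, 14, 15]
    chd := [(5, 14)]
    steps := [(0, 1), (0, 2), (0, 3), (0, 4), (0, 6), (0, 7), (0, 10), (0, 11), (5, 13)] }
  rep := [0, 8, 12, 5, 14, 15, 9]

noncomputable def v2746 : Cov.CovD where
  P := 3
  N := 4
  pl := [1, 2, 5, 8]
  lev := [⟨[], [], [], [1], [(0, 0, [])]⟩,
    ⟨[], [(0, 0)], [], [1, 6], [(3, 0, [])]⟩,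
    ⟨[(0, 1)], [(0, 0), (1, 0)], [(0, 0)], [2], [(0, 0, []), (3, 0, []), (4, 0, [])]⟩,
    ⟨[(0, 2), (1, 2)], [(2, 0), (2, 3), (2, 4)], [(0, 3), (0, 4), (3, 4)], [], [(4, 0, []),
      (6, 3, [4]), (7, 4, [3])]⟩,
    ⟨[(0, 2), (1, 2), (2, 3)], [(1, 0), (2, 0), (2, 3), (3, 0), (3, 3), (3, 4)], [(0, 3)],
      [], [(3, 0, []), (6, 3, [4])]⟩,
    ⟨[(2, 3), (3, 4)], [(3, 0), (3, 3), (3, 4), (4, 3)], [(3, 4)], [5], [(6, 3, [4]), (7,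
      4, [3])]⟩,
    ⟨[(0, 2), (1, 2), (2, 3), (2, 4)], [(0, 0), (2, 0)], [], [2, 5], [(0, 0, [])]⟩]
  Ta := [((0, 1), 0, 1), ((0, 8), 0, 5), ((3, 2), 0, 6), ((3, 6), 0, 3), ((4, 5), 0, 2), ((4, 7),
    0, 4)]
  Tb := [((0, 1, 8), 0, 1, 5), ((1, 0, 2), 1, 0, 6), ((2, 1, 3), 6, 1, 0), ((3, 2, 6), 0, 6, 3),
    ((4, 5, 7), 0, 2, 4), ((5, 4, 8), 2, 0, 5), ((6, 3, 8), 3, 0, 5), ((7, 4, 8), 4, 0, 5),
    ((8, 0, 5), 5, 0, 2), ((8, 0, 6), 5, 0, 3), ((8, 0, 7), 5, 0, 4), ((8, 5, 6), 5, 2, 3),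
    ((8, 5, 7), 5, 2, 4), ((8, 6, 7), 5, 3, 4)]
  Tc := []
  Td := [((3, 4), (6, 3), 0), ((3, 4), (6, 8), 5), ((4, 3), (7, 4), 0), ((4, 3), (7, 8), 5)]
  G := [[0, 0x411c11c12e8881cc11c116c188c62, 0, 0x4188181a81284c446af418,
    0x814812621882a226c9a14], [0, 0, 0, 0x1114c612119661188c1111681944611a11ae8c4,
    0x2211621188a11146ca1411c1211a61118c8ac4], [0, 0, 0x6122c18614ca18,
    0x111b4411178181d2ac14, 0x111b4111d26121788a18]]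

noncomputable def n2746 : Ent := ⟨e2746, noF, [], [], []⟩

def c2746 : PLift (Cov.check n2746.C.D v2746 = true) := ⟨by decide +kernel⟩

def b2746 : PLift (entF (fidx ts) 400 2746 n2746 = true) := ⟨by decide +kernel⟩

theorem g2746 : GoodF (fidx ts) 400 2746 := GoodF.ofV v2746 n2746 c2746.down b2746.down

/-- 4596444:2210 -/
noncomputable def e2747 : SCfg where
  D := {
    a := 7
    L := 10
    kp := 7
    inn := [(0, 1), (0, 2), (1, 0), (1, 2), (2, 0), (2, 1), (2, 3), (2, 4), (2, 6), (3, 2), (3, 4), (3,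
      5), (4, 2), (4, 3), (5, 3), (6, 2)]
    mix := [(0, 0), (0, 1), (1, 1), (1, 2), (1, 3), (2, 0), (2, 3), (2, 4), (2, 5), (3, 4), (3, 6), (3,
      7), (4, 3), (4, 6), (5, 6), (5, 7), (5, 8), (6, 0), (6, 5), (6, 9)]
    cl := [0, 2, 5, 0, 0, 4, 1, 3, 6, 7]
    chq := [(1, 3), (3, 1)]
    rng := [(0, 1), (0, 9), (1, 0), (1, 2), (2, 1), (2, 3), (3, 2), (3, 6), (4, 5), (4, 7), (5, 4), (5,
      9), (6, 3), (6, 8), (7, 4), (7, 8), (8, 6), (8, 7), (9, 0), (9, 5)]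
    lev := [] }
  links := [[1, 2, 7, 8], [2, 0, 8, 9, 10], [7, 0, 1, 10, 4, 3, 11, 12, 6], [11, 2, 4, 13, 5, 14], [13,
    3, 2, 10], [14, 3, 13, 15], [7, 2, 12, 16]]
  P := {
    a := 7
    N := 17
    nb := [390, 1797, 7387, 26676, 9228, 57352, 69764, 65861, 643, 1282, 8726, 20492, 67652, 33848,
      34856, 24608, 4288]
    tri := [(0, 1, 2), (0, 1, 8), (0, 2, 7), (0, 7, 8), (1, 2, 10), (1, 8, 9), (1, 9, 10), (2, 3, 4),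
      (2, 3, 11), (2, 4, 10), (2, 6, 7), (2, 6, 12), (2, 11, 12), (3, 4, 13), (3, 5, 13), (3, 5,
      14), (3, 11, 14), (4, 10, 13), (5, 13, 15), (5, 14, 15), (6, 7, 16), (6, 12, 16)]
    fin := [0, 0, 0, 0, 0, 5, 0, 0, 8, 9, 0, 0, 12, 5, 14, 15, 16]
    chd := [(5, 14)]
    steps := [(0, 1), (0, 2), (0, 3), (0, 4), (0, 6), (0, 7), (0, 10), (0, 11), (5, 13)] }
  rep := [0, 5, 8, 14, 12, 9, 15, 16]

noncomputable def v2747 : Cov.CovD where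
  P := 3
  N := 5
  pl := [1, 2, 5, 8, 9]
  lev := [⟨[], [], [], [2], [(0, 0, [])]⟩,
    ⟨[], [(0, 0)], [], [2, 5], [(3, 0, [])]⟩,
    ⟨[(0, 1)], [(0, 0), (1, 0)], [(0, 0)], [4], [(0, 0, []), (3, 0, []), (4, 0, [])]⟩,
    ⟨[(0, 2), (1, 2)], [(2, 0), (2, 1), (2, 3)], [(0, 1), (0, 3), (1, 3)], [], [(4, 0, []),
      (6, 1, [3]), (7, 3, [1])]⟩,
    ⟨[(0, 2), (1, 2), (2, 3)], [(1, 0), (2, 0), (2, 1), (3, 0), (3, 1), (3, 3)], [(0, 1)],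
      [], [(3, 0, []), (6, 1, [3])]⟩,
    ⟨[(2, 3), (3, 4)], [(3, 0), (3, 1), (3, 3), (4, 1)], [(1, 3)], [6], [(6, 1, [3]), (7,
      3, [1])]⟩,
    ⟨[(0, 2), (1, 2), (2, 3), (2, 4)], [(0, 0), (2, 0)], [], [4, 7], [(0, 0, [])]⟩]
  Ta := [((0, 1), 0, 2), ((0, 9), 0, 7), ((3, 2), 0, 5), ((3, 6), 0, 1), ((4, 5), 0, 4), ((4, 7),
    0, 3)]
  Tb := [((0, 1, 9), 0, 2, 7), ((1, 0, 2), 2, 0, 5), ((2, 1, 3), 5, 2, 0), ((3, 2, 6), 0, 5, 1),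
    ((4, 5, 7), 0, 4, 3), ((5, 4, 9), 4, 0, 7), ((6, 3, 8), 1, 0, 6), ((7, 4, 8), 3, 0, 6),
    ((8, 6, 7), 6, 1, 3), ((9, 0, 5), 7, 0, 4)]
  Tc := []
  Td := [((1, 3), (6, 3), 0), ((1, 3), (6, 8), 6), ((3, 1), (7, 4), 0), ((3, 1), (7, 8), 6)]
  G := [[0, 0, 0xc18c6c89aa94614c6c1184acc5146a916658cac14cac4586c,
    0x414c14ccc4d81886e946658ce14, 0x6a946461cc21c14ccc45c188c1a], [0,
    0x11c21168a11a41168c611c211a4611a8211c24ec8, 0,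
    0x114411811c8911411811c8de11411411c4d11811411c8dac4,
    0x11411c45114811941411cce1141411c188d11411811c4dca2], [0, 0, 0,
    0x9994118c53946a58c61148481c, 0x51454c1cc384859949158ce12]]

noncomputable def n2747 : Ent := ⟨e2747, noF, [], [], [(8, 15, [1685356702439545624007900436039642273970977273354372543760011329537, 0]), (9, 15, [1685356702439545624007900436039642273970977273354372543760011333633, 0]), (15, 16, [1580044410770988437309982408355971841652082177953823432505700360193, 0])]⟩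

def c2747 : PLift (Cov.check n2747.C.D v2747 = true) := ⟨by decide +kernel⟩

def b2747 : PLift (entF (fidx ts) 400 2747 n2747 = true) := ⟨by decide +kernel⟩

theorem g2747 : GoodF (fidx ts) 400 2747 := GoodF.ofV v2747 n2747 c2747.down b2747.down

/-- 4596445:2211/1 -/
noncomputable def e2748 : SCfg where
  D := {
    a := 7
    L := 10
    kp := 7
    inn := [(0, 1), (0, 2), (1, 0), (1, 2), (2, 0), (2, 1), (2, 3), (2, 4), (2, 6), (3, 2), (3, 4), (3,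
      5), (4, 2), (4, 3), (5, 3), (6, 2)]
    mix := [(0, 0), (0, 1), (1, 1), (1, 2), (1, 3), (2, 0), (2, 3), (2, 4), (2, 5), (3, 4), (3, 6), (3,
      7), (4, 3), (4, 6), (5, 1), (5, 6), (5, 7), (6, 0), (6, 5), (6, 8), (6, 9)]
    cl := [0, 1, 5, 0, 2, 0, 3, 4, 6, 7]
    chq := [(1, 2), (2, 1), (2, 3), (3, 2)]
    rng := [(0, 1), (0, 9), (1, 0), (1, 2), (1, 6), (1, 7), (2, 1), (2, 3), (3, 2), (3, 6), (4, 5), (4,
      7), (5, 4), (5, 8), (6, 1), (6, 3), (7, 1), (7, 4), (8, 5), (8, 9), (9, 0), (9, 8)]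
    lev := [] }
  links := [[1, 2, 7, 8], [2, 0, 8, 9, 10], [7, 0, 1, 10, 4, 3, 11, 12, 6], [11, 2, 4, 13, 5, 14], [13,
    3, 2, 10], [14, 3, 13, 8], [7, 2, 12, 15, 16]]
  P := {
    a := 7
    N := 17
    nb := [390, 1797, 7387, 26676, 9228, 24840, 102532, 65861, 25251, 1282, 8726, 20492, 34884, 1336,
      2344, 69696, 32960]
    tri := [(0, 1, 2), (0, 1, 8), (0, 2, 7), (0, 7, 8), (1, 2, 10), (1, 8, 9), (1, 9, 10), (2, 3, 4),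
      (2, 3, 11), (2, 4, 10), (2, 6, 7), (2, 6, 12), (2, 11, 12), (3, 4, 13), (3, 5, 13), (3, 5,
      14), (3, 11, 14), (4, 10, 13), (5, 8, 13), (5, 8, 14), (6, 7, 16), (6, 12, 15), (6, 15, 16)]
    fin := [0, 0, 2, 3, 2, 3, 0, 0, 3, 9, 0, 11, 0, 2, 14, 15, 16]
    chd := [(3, 11), (11, 2)]
    steps := [(0, 1), (0, 7), (0, 6), (0, 10), (0, 12), (2, 4), (2, 13), (3, 5), (3, 8)] }
  rep := [0, 3, 11, 2, 14, 9, 15, 16]

noncomputable def v2748 : Cov.CovD where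
  P := 3
  N := 5
  pl := [2, 7, 8, 9]
  lev := [⟨[], [], [(0, 1)], [], [(0, 0, []), (1, 1, [2])]⟩,
    ⟨[], [(0, 0), (0, 1)], [(0, 1)], [5], [(1, 1, [2]), (3, 0, [])]⟩,
    ⟨[(0, 1)], [(0, 0), (0, 1), (0, 2), (1, 0), (1, 1), (1, 2)], [(0, 0), (0, 2)], [], [(0,
      0, []), (3, 0, []), (4, 2, [1, 3]), (5, 0, [])]⟩,
    ⟨[(0, 2), (1, 2)], [(2, 0), (2, 2), (2, 3)], [(2, 3)], [4], [(4, 2, [1, 3]), (6, 3,
      [2])]⟩,
    ⟨[(0, 2), (1, 2), (2, 3)], [(1, 0), (2, 0), (2, 2), (2, 3), (3, 0), (3, 2), (3, 3)],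
      [(0, 3)], [], [(3, 0, []), (6, 3, [2])]⟩,
    ⟨[(2, 3), (3, 4)], [(0, 1), (1, 1), (3, 1), (3, 2), (3, 3), (4, 3)], [(1, 3)], [4],
      [(1, 1, [2]), (6, 3, [2])]⟩,
    ⟨[(0, 2), (1, 2), (2, 3), (2, 4)], [(0, 0), (2, 0), (2, 2)], [(0, 0)], [6, 7], [(0, 0,
      []), (5, 0, [])]⟩]
  Ta := [((0, 1), 0, 1), ((0, 9), 0, 7), ((3, 2), 0, 5), ((3, 6), 0, 3), ((5, 4), 0, 2), ((5, 8),
    0, 6)]
  Tb := [((0, 1, 9), 0, 1, 7), ((1, 0, 2), 1, 0, 5), ((1, 0, 6), 1, 0, 3), ((1, 0, 7), 1, 0, 4),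
    ((1, 2, 6), 1, 5, 3), ((1, 2, 7), 1, 5, 4), ((1, 6, 7), 1, 3, 4), ((2, 1, 3), 5, 1, 0),
    ((3, 2, 6), 0, 5, 3), ((4, 5, 7), 2, 0, 4), ((5, 4, 8), 0, 2, 6), ((6, 1, 3), 3, 1, 0),
    ((7, 1, 4), 4, 1, 2), ((8, 5, 9), 6, 0, 7), ((9, 0, 8), 7, 0, 6)]
  Tc := [(2, 1, 3)]
  Td := [((1, 2), (1, 0), 0), ((1, 2), (1, 2), 5), ((1, 2), (1, 6), 3), ((1, 2), (1, 7), 4), ((2,
    1), (4, 5), 0), ((2, 1), (4, 7), 4), ((2, 3), (4, 5), 0), ((2, 3), (4, 7), 4), ((3, 2),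
    (6, 1), 1), ((3, 2), (6, 3), 0)]
  G := [[0, 0x48aeeea1884e6ee61462, 0, 0xeeed12428, 0xe422e48e149a14], [0, 0, 0,
    0x4424e8a4ce123c28, 0x6422e84844e14bae422e84e149ac1], [0, 0, 0xe122e18e14c618,
    0xeeed12821, 0xe422e84e149a14]]

noncomputable def n2748 : Ent := ⟨e2748, noF, [], [], []⟩

def c2748 : PLift (Cov.check n2748.C.D v2748 = true) := ⟨by decide +kernel⟩

def b2748 : PLift (entF (fidx ts) 400 2748 n2748 = true) := ⟨by decide +kernel⟩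

theorem g2748 : GoodF (fidx ts) 400 2748 := GoodF.ofV v2748 n2748 c2748.down b2748.down

/-- 4596445:2211/2 -/
noncomputable def e2749 : SCfg where
  D := {
    a := 7
    L := 10
    kp := 7
    inn := [(0, 1), (0, 2), (1, 0), (1, 2), (2, 0), (2, 1), (2, 3), (2, 4), (2, 6), (3, 2), (3, 4), (3,
      5), (4, 2), (4, 3), (5, 3), (6, 2)]
    mix := [(0, 0), (0, 1), (1, 1), (1, 2), (1, 3), (2, 0), (2, 3), (2, 4), (2, 5), (3, 4), (3, 6), (3,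
      7), (4, 3), (4, 6), (5, 2), (5, 6), (5, 7), (6, 0), (6, 5), (6, 8), (6, 9)]
    cl := [0, 2, 4, 0, 1, 0, 3, 5, 6, 7]
    chq := [(1, 3), (1, 4), (3, 1), (4, 1)]
    rng := [(0, 1), (0, 9), (1, 0), (1, 2), (2, 1), (2, 3), (2, 6), (2, 7), (3, 2), (3, 6), (4, 5), (4,
      7), (5, 4), (5, 8), (6, 2), (6, 3), (7, 2), (7, 4), (8, 5), (8, 9), (9, 0), (9, 8)]
    lev := [] }
  links := [[1, 2, 7, 8], [2, 0, 8, 9, 10], [7, 0, 1, 10, 4, 3, 11, 12, 6], [11, 2, 4, 13, 5, 14], [13,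
    3, 2, 10], [14, 3, 13, 9], [7, 2, 12, 15, 16]]
  P := {
    a := 7
    N := 17
    nb := [390, 1797, 7387, 26676, 9228, 25096, 102532, 65861, 643, 25890, 8726, 20492, 34884, 1592,
      2600, 69696, 32960]
    tri := [(0, 1, 2), (0, 1, 8), (0, 2, 7), (0, 7, 8), (1, 2, 10), (1, 8, 9), (1, 9, 10), (2, 3, 4),
      (2, 3, 11), (2, 4, 10), (2, 6, 7), (2, 6, 12), (2, 11, 12), (3, 4, 13), (3, 5, 13), (3, 5,
      14), (3, 11, 14), (4, 10, 13), (5, 9, 13), (5, 9, 14), (6, 7, 16), (6, 12, 15), (6, 15, 16)]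
    fin := [0, 0, 2, 3, 2, 3, 0, 0, 8, 3, 0, 11, 0, 2, 14, 15, 16]
    chd := [(3, 11), (11, 2)]
    steps := [(0, 1), (0, 7), (0, 6), (0, 10), (0, 12), (2, 4), (2, 13), (3, 5), (3, 9)] }
  rep := [0, 11, 8, 2, 3, 14, 15, 16]

noncomputable def v2749 : Cov.CovD where
  P := 3
  N := 5
  pl := [1, 7, 8, 9]
  lev := [⟨[], [], [], [2], [(0, 0, [])]⟩,
    ⟨[], [(0, 0), (0, 4)], [(0, 4)], [2], [(2, 4, [1]), (3, 0, [])]⟩,
    ⟨[(0, 1)], [(0, 0), (0, 1), (1, 0), (1, 1), (1, 4)], [(0, 0), (0, 1)], [], [(0, 0, []),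
      (3, 0, []), (4, 1, [3, 4]), (5, 0, [])]⟩,
    ⟨[(0, 2), (1, 2)], [(2, 0), (2, 1), (2, 3)], [(1, 3)], [5], [(4, 1, [3, 4]), (6, 3,
      [1])]⟩,
    ⟨[(0, 2), (1, 2), (2, 3)], [(1, 0), (2, 0), (2, 1), (2, 3), (3, 0), (3, 1), (3, 3)],
      [(0, 3)], [], [(3, 0, []), (6, 3, [1])]⟩,
    ⟨[(2, 3), (3, 4)], [(1, 4), (3, 1), (3, 3), (3, 4), (4, 3)], [(3, 4)], [5], [(2, 4,
      [1]), (6, 3, [1])]⟩,
    ⟨[(0, 2), (1, 2), (2, 3), (2, 4)], [(0, 0), (2, 0), (2, 1)], [(0, 0)], [6, 7], [(0, 0,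
      []), (5, 0, [])]⟩]
  Ta := [((0, 1), 0, 2), ((0, 9), 0, 7), ((3, 2), 0, 4), ((3, 6), 0, 3), ((5, 4), 0, 1), ((5, 8),
    0, 6)]
  Tb := [((0, 1, 9), 0, 2, 7), ((1, 0, 2), 2, 0, 4), ((2, 1, 3), 4, 2, 0), ((2, 1, 6), 4, 2, 3),
    ((2, 1, 7), 4, 2, 5), ((2, 3, 6), 4, 0, 3), ((2, 3, 7), 4, 0, 5), ((2, 6, 7), 4, 3, 5),
    ((3, 2, 6), 0, 4, 3), ((4, 5, 7), 1, 0, 5), ((5, 4, 8), 0, 1, 6), ((6, 2, 3), 3, 4, 0),
    ((7, 2, 4), 5, 4, 1), ((8, 5, 9), 6, 0, 7), ((9, 0, 8), 7, 0, 6)]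
  Tc := [(1, 3, 4)]
  Td := [((1, 3), (4, 5), 0), ((1, 3), (4, 7), 5), ((1, 4), (4, 5), 0), ((1, 4), (4, 7), 5), ((3,
    1), (6, 2), 4), ((3, 1), (6, 3), 0), ((4, 1), (2, 1), 2), ((4, 1), (2, 3), 0), ((4, 1),
    (2, 6), 3), ((4, 1), (2, 7), 5)]
  G := [[0, 0, 0x621e2468e4ce12f88a28c24, 0x4244e28a22e12dc18, 0xe24e125e288c12], [0, 0, 0,
    0x6226125e82822812dc422e42ee32da288cc1, 0xee62ee325eea28c21], [0, 0xe18e12ae144618, 0,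
    0x622e24e12d8288c14, 0xe24e125e288c12]]

noncomputable def n2749 : Ent := ⟨e2749, noF, [], [], []⟩

def c2749 : PLift (Cov.check n2749.C.D v2749 = true) := ⟨by decide +kernel⟩

def b2749 : PLift (entF (fidx ts) 400 2749 n2749 = true) := ⟨by decide +kernel⟩

theorem g2749 : GoodF (fidx ts) 400 2749 := GoodF.ofV v2749 n2749 c2749.down b2749.down

/-- 4596445:2211/3 -/
noncomputable def e2750 : SCfg where
  D := {
    a := 7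
    L := 10
    kp := 7
    inn := [(0, 1), (0, 2), (1, 0), (1, 2), (2, 0), (2, 1), (2, 3), (2, 4), (2, 6), (3, 2), (3, 4), (3,
      5), (4, 2), (4, 3), (5, 3), (6, 2)]
    mix := [(0, 0), (0, 1), (1, 1), (1, 2), (1, 3), (2, 0), (2, 3), (2, 4), (2, 5), (3, 4), (3, 6), (3,
      7), (4, 3), (4, 6), (5, 6), (5, 7), (5, 8), (6, 0), (6, 5), (6, 8), (6, 9)]
    cl := [0, 2, 6, 0, 1, 0, 3, 5, 4, 7]
    chq := [(1, 3), (1, 4), (3, 1), (4, 1)]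
    rng := [(0, 1), (0, 9), (1, 0), (1, 2), (2, 1), (2, 3), (3, 2), (3, 6), (4, 5), (4, 7), (5, 4), (5,
      8), (6, 3), (6, 8), (7, 4), (7, 8), (8, 5), (8, 6), (8, 7), (8, 9), (9, 0), (9, 8)]
    lev := [] }
  links := [[1, 2, 7, 8], [2, 0, 8, 9, 10], [7, 0, 1, 10, 4, 3, 11, 12, 6], [11, 2, 4, 13, 5, 14], [13,
    3, 2, 10], [14, 3, 13, 15], [7, 2, 12, 15, 16]]
  P := {
    a := 7
    N := 17
    nb := [390, 1797, 7387, 26676, 9228, 57352, 102532, 65861, 643, 1282, 8726, 20492, 34884, 33848,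
      34856, 94304, 32960]
    tri := [(0, 1, 2), (0, 1, 8), (0, 2, 7), (0, 7, 8), (1, 2, 10), (1, 8, 9), (1, 9, 10), (2, 3, 4),
      (2, 3, 11), (2, 4, 10), (2, 6, 7), (2, 6, 12), (2, 11, 12), (3, 4, 13), (3, 5, 13), (3, 5,
      14), (3, 11, 14), (4, 10, 13), (5, 13, 15), (5, 14, 15), (6, 7, 16), (6, 12, 15), (6, 15,
      16)]
    fin := [0, 0, 2, 3, 2, 3, 0, 0, 8, 9, 0, 11, 0, 2, 14, 3, 16]
    chd := [(11, 2), (11, 3)]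
    steps := [(0, 1), (0, 7), (0, 6), (0, 10), (0, 12), (2, 4), (2, 13), (3, 5), (3, 15)] }
  rep := [0, 11, 8, 2, 3, 14, 9, 16]

noncomputable def v2750 : Cov.CovD where
  P := 3
  N := 5
  pl := [1, 2, 7, 9]
  lev := [⟨[], [], [], [2], [(0, 0, [])]⟩,
    ⟨[], [(0, 0)], [], [2, 6], [(3, 0, [])]⟩,
    ⟨[(0, 1)], [(0, 0), (0, 1), (1, 0), (1, 1)], [(0, 0), (0, 1)], [], [(0, 0, []), (3, 0,
      []), (4, 1, [3, 4]), (5, 0, [])]⟩,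
    ⟨[(0, 2), (1, 2)], [(2, 0), (2, 1), (2, 3)], [(1, 3)], [5], [(4, 1, [3, 4]), (6, 3,
      [1])]⟩,
    ⟨[(0, 2), (1, 2), (2, 3)], [(1, 0), (2, 0), (2, 1), (2, 3), (3, 0), (3, 1), (3, 3)],
      [(0, 3)], [], [(3, 0, []), (6, 3, [1])]⟩,
    ⟨[(2, 3), (3, 4)], [(3, 1), (3, 3), (3, 4), (4, 3)], [(3, 4)], [5], [(6, 3, [1]), (8,
      4, [1])]⟩,
    ⟨[(0, 2), (1, 2), (2, 3), (2, 4)], [(0, 0), (2, 0), (2, 1), (2, 4), (5, 4)], [(0, 0),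
      (0, 4)], [7], [(0, 0, []), (5, 0, []), (8, 4, [1])]⟩]
  Ta := [((0, 1), 0, 2), ((0, 9), 0, 7), ((3, 2), 0, 6), ((3, 6), 0, 3), ((5, 4), 0, 1), ((5, 8),
    0, 4)]
  Tb := [((0, 1, 9), 0, 2, 7), ((1, 0, 2), 2, 0, 6), ((2, 1, 3), 6, 2, 0), ((3, 2, 6), 0, 6, 3),
    ((4, 5, 7), 1, 0, 5), ((5, 4, 8), 0, 1, 4), ((6, 3, 8), 3, 0, 4), ((7, 4, 8), 5, 1, 4),
    ((8, 5, 6), 4, 0, 3), ((8, 5, 7), 4, 0, 5), ((8, 5, 9), 4, 0, 7), ((8, 6, 7), 4, 3, 5),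
    ((8, 6, 9), 4, 3, 7), ((8, 7, 9), 4, 5, 7), ((9, 0, 8), 7, 0, 4)]
  Tc := [(1, 3, 4)]
  Td := [((1, 3), (4, 5), 0), ((1, 3), (4, 7), 5), ((1, 4), (4, 5), 0), ((1, 4), (4, 7), 5), ((3,
    1), (6, 3), 0), ((3, 1), (6, 8), 4), ((4, 1), (8, 5), 0), ((4, 1), (8, 6), 3), ((4, 1),
    (8, 7), 5), ((4, 1), (8, 9), 7)]
  G := [[0, 0, 0x4214a62e12da218c4214e21a21e12dc62, 0x4244e28a22e12dc18, 0x6224e28822e12dc18],
    [0, 0, 0, 0x4244a66e2a22e12dc6662e24e12da828cc1, 0x6424e28aaa2e12dca6ae24e28e129ca2], [0,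
    0xe122e18e14c618, 0, 0x6226a626e32da828c14, 0xe244e28accef29c12]]

noncomputable def n2750 : Ent := ⟨e2750, noF, [], [], []⟩

def c2750 : PLift (Cov.check n2750.C.D v2750 = true) := ⟨by decide +kernel⟩

def b2750 : PLift (entF (fidx ts) 400 2750 n2750 = true) := ⟨by decide +kernel⟩

theorem g2750 : GoodF (fidx ts) 400 2750 := GoodF.ofV v2750 n2750 c2750.down b2750.down

/-- 4596445:2211/4 -/
noncomputable def e2751 : SCfg where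
  D := {
    a := 7
    L := 10
    kp := 7
    inn := [(0, 1), (0, 2), (1, 0), (1, 2), (2, 0), (2, 1), (2, 3), (2, 4), (2, 6), (3, 2), (3, 4), (3,
      5), (4, 2), (4, 3), (5, 3), (6, 2)]
    mix := [(0, 0), (0, 1), (1, 1), (1, 2), (1, 3), (2, 0), (2, 3), (2, 4), (2, 5), (3, 4), (3, 6), (3,
      7), (4, 3), (4, 6), (5, 6), (5, 7), (5, 8), (6, 0), (6, 5), (6, 8), (6, 9)]
    cl := [0, 2, 6, 0, 1, 0, 3, 5, 4, 7]
    chq := [(1, 3), (1, 4), (3, 1), (4, 1)]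
    rng := [(0, 1), (0, 8), (1, 0), (1, 2), (2, 1), (2, 3), (3, 2), (3, 6), (4, 5), (4, 7), (5, 4), (5,
      9), (6, 3), (6, 8), (7, 4), (7, 8), (8, 0), (8, 6), (8, 7), (8, 9), (9, 5), (9, 8)]
    lev := [] }
  links := [[1, 2, 7, 8], [2, 0, 8, 9, 10], [7, 0, 1, 10, 4, 3, 11, 12, 6], [11, 2, 4, 13, 5, 14], [13,
    3, 2, 10], [14, 3, 13, 15], [7, 2, 12, 16, 15]]
  P := {
    a := 7
    N := 17
    nb := [390, 1797, 7387, 26676, 9228, 57352, 102532, 33093, 643, 1282, 8726, 20492, 67652, 33848,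
      34856, 90336, 36928]
    tri := [(0, 1, 2), (0, 1, 8), (0, 2, 7), (0, 7, 8), (1, 2, 10), (1, 8, 9), (1, 9, 10), (2, 3, 4),
      (2, 3, 11), (2, 4, 10), (2, 6, 7), (2, 6, 12), (2, 11, 12), (3, 4, 13), (3, 5, 13), (3, 5,
      14), (3, 11, 14), (4, 10, 13), (5, 13, 15), (5, 14, 15), (6, 7, 15), (6, 12, 16), (6, 15,
      16)]
    fin := [0, 0, 2, 3, 2, 3, 0, 0, 8, 9, 0, 11, 0, 2, 14, 3, 16]
    chd := [(11, 2), (11, 3)]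
    steps := [(0, 1), (0, 7), (0, 6), (0, 10), (0, 12), (2, 4), (2, 13), (3, 5), (3, 15)] }
  rep := [0, 11, 8, 2, 3, 14, 9, 16]

noncomputable def v2751 : Cov.CovD where
  P := 3
  N := 5
  pl := [1, 2, 7, 9]
  lev := [⟨[], [], [], [2], [(0, 0, [])]⟩,
    ⟨[], [(0, 0)], [], [2, 6], [(3, 0, [])]⟩,
    ⟨[(0, 1)], [(0, 0), (0, 1), (1, 0), (1, 1)], [(0, 0), (0, 1)], [], [(0, 0, []), (3, 0,
      []), (4, 1, [3, 4]), (5, 0, [])]⟩,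
    ⟨[(0, 2), (1, 2)], [(2, 0), (2, 1), (2, 3)], [(1, 3)], [5], [(4, 1, [3, 4]), (6, 3,
      [1])]⟩,
    ⟨[(0, 2), (1, 2), (2, 3)], [(1, 0), (2, 0), (2, 1), (2, 3), (3, 0), (3, 1), (3, 3)],
      [(0, 3)], [], [(3, 0, []), (6, 3, [1])]⟩,
    ⟨[(2, 3), (3, 4)], [(3, 1), (3, 3), (3, 4), (4, 3)], [(3, 4)], [5], [(6, 3, [1]), (8,
      4, [1])]⟩,
    ⟨[(0, 2), (1, 2), (2, 3), (2, 4)], [(0, 0), (2, 0), (2, 1), (2, 4), (5, 4)], [(0, 0),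
      (0, 4)], [7], [(0, 0, []), (5, 0, []), (8, 4, [1])]⟩]
  Ta := [((0, 1), 0, 2), ((0, 8), 0, 4), ((3, 2), 0, 6), ((3, 6), 0, 3), ((5, 4), 0, 1), ((5, 9),
    0, 7)]
  Tb := [((0, 1, 8), 0, 2, 4), ((1, 0, 2), 2, 0, 6), ((2, 1, 3), 6, 2, 0), ((3, 2, 6), 0, 6, 3),
    ((4, 5, 7), 1, 0, 5), ((5, 4, 9), 0, 1, 7), ((6, 3, 8), 3, 0, 4), ((7, 4, 8), 5, 1, 4),
    ((8, 0, 6), 4, 0, 3), ((8, 0, 7), 4, 0, 5), ((8, 0, 9), 4, 0, 7), ((8, 6, 7), 4, 3, 5),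
    ((8, 6, 9), 4, 3, 7), ((8, 7, 9), 4, 5, 7), ((9, 5, 8), 7, 0, 4)]
  Tc := [(1, 3, 4)]
  Td := [((1, 3), (4, 5), 0), ((1, 3), (4, 7), 5), ((1, 4), (4, 5), 0), ((1, 4), (4, 7), 5), ((3,
    1), (6, 3), 0), ((3, 1), (6, 8), 4), ((4, 1), (8, 0), 0), ((4, 1), (8, 6), 3), ((4, 1),
    (8, 7), 5), ((4, 1), (8, 9), 7)]
  G := [[0, 0, 0x4214a62e12da218c4214e21a21e12dc62, 0x626262325a6a2822c12dc18,
    0xa2646ce325a6a28c12], [0, 0, 0, 0x226466125a6a28832822dc4226a62412d22a8aa129cc1,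
    0x6424a6a2a22e12dc6a624a6a2e129ca1], [0, 0xe18e12ae144618, 0, 0x6244e28822e12dc18,
    0x442e125e28a22cc12]]

noncomputable def n2751 : Ent := ⟨e2751, noF, [], [], []⟩

def c2751 : PLift (Cov.check n2751.C.D v2751 = true) := ⟨by decide +kernel⟩

def b2751 : PLift (entF (fidx ts) 400 2751 n2751 = true) := ⟨by decide +kernel⟩

theorem g2751 : GoodF (fidx ts) 400 2751 := GoodF.ofV v2751 n2751 c2751.down b2751.down

/-- 4596445:2211 -/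
noncomputable def e2752 : SCfg where
  D := {
    a := 7
    L := 11
    kp := 8
    inn := [(0, 1), (0, 2), (1, 0), (1, 2), (2, 0), (2, 1), (2, 3), (2, 4), (2, 6), (3, 2), (3, 4), (3,
      5), (4, 2), (4, 3), (5, 3), (6, 2)]
    mix := [(0, 0), (0, 1), (1, 1), (1, 2), (1, 3), (2, 0), (2, 3), (2, 4), (2, 5), (3, 4), (3, 6), (3,
      7), (4, 3), (4, 6), (5, 6), (5, 7), (5, 8), (6, 0), (6, 5), (6, 9), (6, 10)]
    cl := [0, 2, 6, 0, 1, 0, 3, 4, 5, 7, 8]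
    chq := [(1, 3), (1, 5), (3, 1), (5, 1)]
    rng := [(0, 1), (0, 10), (1, 0), (1, 2), (2, 1), (2, 3), (3, 2), (3, 6), (4, 5), (4, 7), (5, 4),
      (5, 9), (6, 3), (6, 8), (7, 4), (7, 8), (8, 6), (8, 7), (9, 5), (9, 10), (10, 0), (10, 9)]
    lev := [] }
  links := [[1, 2, 7, 8], [2, 0, 8, 9, 10], [7, 0, 1, 10, 4, 3, 11, 12, 6], [11, 2, 4, 13, 5, 14], [13,
    3, 2, 10], [14, 3, 13, 15], [7, 2, 12, 16, 17]]
  P := {
    a := 7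
    N := 18
    nb := [390, 1797, 7387, 26676, 9228, 57352, 200836, 131397, 643, 1282, 8726, 20492, 67652, 33848,
      34856, 24608, 135232, 65728]
    tri := [(0, 1, 2), (0, 1, 8), (0, 2, 7), (0, 7, 8), (1, 2, 10), (1, 8, 9), (1, 9, 10), (2, 3, 4),
      (2, 3, 11), (2, 4, 10), (2, 6, 7), (2, 6, 12), (2, 11, 12), (3, 4, 13), (3, 5, 13), (3, 5,
      14), (3, 11, 14), (4, 10, 13), (5, 13, 15), (5, 14, 15), (6, 7, 17), (6, 12, 16), (6, 16,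
      17)]
    fin := [0, 0, 0, 3, 0, 5, 0, 0, 8, 9, 0, 3, 0, 13, 14, 5, 16, 17]
    chd := [(3, 5), (3, 13)]
    steps := [(0, 1), (0, 2), (0, 4), (0, 6), (0, 7), (0, 10), (0, 12), (3, 11), (5, 15)] }
  rep := [0, 3, 8, 13, 14, 5, 9, 16, 17]

noncomputable def v2752 : Cov.CovD where
  P := 3
  N := 6
  pl := [1, 2, 7, 9, 10]
  lev := [⟨[], [], [], [2], [(0, 0, [])]⟩,
    ⟨[], [(0, 0)], [], [2, 6], [(3, 0, [])]⟩,
    ⟨[(0, 1)], [(0, 0), (0, 1), (1, 0), (1, 1)], [(0, 0), (0, 1)], [], [(0, 0, []), (3, 0,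
      []), (4, 1, [3, 5]), (5, 0, [])]⟩,
    ⟨[(0, 2), (1, 2)], [(2, 0), (2, 1), (2, 3)], [(1, 3)], [4], [(4, 1, [3, 5]), (6, 3,
      [1])]⟩,
    ⟨[(0, 2), (1, 2), (2, 3)], [(1, 0), (2, 0), (2, 1), (2, 3), (3, 0), (3, 1), (3, 3)],
      [(0, 3)], [], [(3, 0, []), (6, 3, [1])]⟩,
    ⟨[(2, 3), (3, 4)], [(3, 1), (3, 3), (3, 5), (4, 3)], [(3, 5)], [4], [(6, 3, [1]), (8,
      5, [1])]⟩,
    ⟨[(0, 2), (1, 2), (2, 3), (2, 4)], [(0, 0), (2, 0), (2, 1)], [(0, 0)], [7, 8], [(0, 0,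
      []), (5, 0, [])]⟩]
  Ta := [((0, 1), 0, 2), ((0, 10), 0, 8), ((3, 2), 0, 6), ((3, 6), 0, 3), ((5, 4), 0, 1), ((5,
    9), 0, 7)]
  Tb := [((0, 1, 10), 0, 2, 8), ((1, 0, 2), 2, 0, 6), ((2, 1, 3), 6, 2, 0), ((3, 2, 6), 0, 6, 3),
    ((4, 5, 7), 1, 0, 4), ((5, 4, 9), 0, 1, 7), ((6, 3, 8), 3, 0, 5), ((7, 4, 8), 4, 1, 5),
    ((8, 6, 7), 5, 3, 4), ((9, 5, 10), 7, 0, 8), ((10, 0, 9), 8, 0, 7)]
  Tc := [(1, 3, 5)]
  Td := [((1, 3), (4, 5), 0), ((1, 3), (4, 7), 4), ((1, 5), (4, 5), 0), ((1, 5), (4, 7), 4), ((3,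
    1), (6, 3), 0), ((3, 1), (6, 8), 5), ((5, 1), (8, 6), 3), ((5, 1), (8, 7), 4)]
  G := [[0, 0, 0xa228a84421ee61eeeb2d8621ee614eeb2d88a18ce4, 0x622e2e464eeb2da8a28c14,
    0xe244e28eeeef29c12], [0, 0, 0, 0x666248e6e8a8228ee72dc422e24ec64eeb2daaa28cc1,
    0x626464e2e8ca8228ee72dce2e464e2e8aee329ca2], [0, 0xe122e18e14ca14, 0,
    0x622e24eeeef2d8228c14, 0xe24eeeef25e288c12]]

noncomputable def n2752 : Ent := ⟨e2752, noF, [], [], [(8, 15, [7334790850167413569773436004105379185503274260204390087403942015909889, 0]), (9, 15, [7334790850167413569773436004105379185503274260204390087403942015913985, 0]), (15, 16, [7334685537875745012586738086077695515070955365108989538292687704940545, 0]), (15, 17, [6903326391201334775872065844685381424292761054348340378595029940957185, 0])]⟩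

def c2752 : PLift (Cov.check n2752.C.D v2752 = true) := ⟨by decide +kernel⟩

def b2752 : PLift (entF (fidx ts) 400 2752 n2752 = true) := ⟨by decide +kernel⟩

theorem g2752 : GoodF (fidx ts) 400 2752 := GoodF.ofV v2752 n2752 c2752.down b2752.down

/-- 4595474:2212/1 -/
noncomputable def e2753 : SCfg where
  D := {
    a := 7
    L := 10
    kp := 7
    inn := [(0, 1), (0, 2), (1, 0), (1, 2), (1, 5), (2, 0), (2, 1), (2, 3), (2, 4), (2, 5), (3, 2), (3,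
      4), (4, 2), (4, 3), (5, 1), (5, 2), (5, 6), (6, 5)]
    mix := [(0, 0), (0, 1), (1, 1), (1, 2), (2, 0), (2, 3), (2, 4), (2, 5), (3, 3), (3, 6), (3, 7), (4,
      4), (4, 7), (5, 2), (5, 3), (5, 8), (5, 9), (6, 2), (6, 7), (6, 8)]
    cl := [3, 4, 1, 0, 0, 6, 7, 2, 5, 1]
    chq := [(1, 3), (1, 6), (3, 1), (6, 1)]
    rng := [(0, 1), (0, 5), (1, 0), (1, 2), (2, 1), (2, 7), (3, 6), (3, 9), (4, 5), (4, 7), (5, 0), (5,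
      4), (6, 3), (6, 7), (7, 2), (7, 4), (7, 6), (7, 8), (8, 7), (8, 9), (9, 3), (9, 8)]
    lev := [] }
  links := [[1, 2, 7, 8], [2, 0, 8, 9, 5], [7, 0, 1, 5, 10, 3, 4, 11, 12], [4, 2, 10, 13, 14], [11, 2, 3,
    14], [10, 2, 1, 9, 6, 15, 16], [15, 5, 9, 14]]
  P := {
    a := 7
    N := 17
    nb := [390, 805, 7355, 25620, 18444, 99910, 49696, 4357, 643, 16738, 73772, 20500, 2180, 17416,
      43608, 82016, 33824]
    tri := [(0, 1, 2), (0, 1, 8), (0, 2, 7), (0, 7, 8), (1, 2, 5), (1, 5, 9), (1, 8, 9), (2, 3, 4), (2,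
      3, 10), (2, 4, 11), (2, 5, 10), (2, 7, 12), (2, 11, 12), (3, 4, 14), (3, 10, 13), (3, 13,
      14), (4, 11, 14), (5, 6, 9), (5, 6, 15), (5, 10, 16), (5, 15, 16), (6, 9, 14), (6, 14, 15)]
    fin := [0, 0, 2, 3, 3, 2, 2, 0, 8, 2, 3, 3, 12, 13, 14, 15, 2]
    chd := [(0, 2), (2, 12)]
    steps := [(0, 1), (0, 7), (2, 5), (2, 6), (2, 9), (2, 16), (3, 4), (3, 10), (3, 11)] }
  rep := [3, 2, 14, 0, 8, 15, 12, 13]

noncomputable def v2753 : Cov.CovD where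
  P := 3
  N := 5
  pl := [1, 6, 7, 8]
  lev := [⟨[], [], [], [4], [(0, 3, [1])]⟩,
    ⟨[], [(0, 1), (0, 3)], [], [4], [(2, 1, [3, 6])]⟩,
    ⟨[(0, 1)], [(0, 0), (0, 3), (0, 6), (1, 0), (1, 1), (1, 3), (1, 6)], [(0, 0), (0, 3),
      (0, 6), (3, 6)], [], [(0, 3, [1]), (3, 0, []), (4, 0, []), (5, 6, [1])]⟩,
    ⟨[(0, 2), (1, 2)], [(2, 0), (2, 3), (2, 6)], [], [2, 7], [(3, 0, [])]⟩,
    ⟨[(0, 2), (1, 2), (2, 3)], [(2, 0), (2, 3), (2, 6), (3, 0)], [], [2], [(4, 0, [])]⟩,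
    ⟨[(0, 1), (0, 2), (1, 2), (2, 3), (2, 4)], [(1, 0), (1, 1), (2, 0), (2, 1), (2, 3), (2,
      6), (3, 0)], [(0, 1), (1, 1)], [5], [(2, 1, [3, 6]), (3, 0, []), (9, 1, [3, 6])]⟩,
    ⟨[(1, 5), (2, 5)], [(1, 1), (5, 0), (5, 1)], [], [2, 5], [(2, 1, [3, 6])]⟩]
  Ta := [((2, 1), 1, 4), ((2, 7), 1, 2), ((3, 6), 0, 7), ((3, 9), 0, 1), ((4, 5), 0, 6), ((4, 7),
    0, 2), ((9, 3), 1, 0), ((9, 8), 1, 5)]
  Tb := [((0, 1, 5), 3, 4, 6), ((1, 0, 2), 4, 3, 1), ((2, 1, 7), 1, 4, 2), ((3, 6, 9), 0, 7, 1),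
    ((4, 5, 7), 0, 6, 2), ((5, 0, 4), 6, 3, 0), ((6, 3, 7), 7, 0, 2), ((7, 2, 4), 2, 1, 0),
    ((7, 2, 6), 2, 1, 7), ((7, 2, 8), 2, 1, 5), ((7, 4, 6), 2, 0, 7), ((7, 4, 8), 2, 0, 5),
    ((7, 6, 8), 2, 7, 5), ((8, 7, 9), 5, 2, 1), ((9, 3, 8), 1, 0, 5)]
  Tc := [(1, 3, 6)]
  Td := [((1, 3), (2, 1), 4), ((1, 3), (2, 7), 2), ((1, 3), (9, 3), 0), ((1, 3), (9, 8), 5), ((1,
    6), (2, 1), 4), ((1, 6), (2, 7), 2), ((1, 6), (9, 3), 0), ((1, 6), (9, 8), 5), ((3, 1),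
    (0, 1), 4), ((3, 1), (0, 5), 6), ((6, 1), (5, 0), 3), ((6, 1), (5, 4), 0)]
  G := [[0, 0, 0, 0x14c414c4c281c181c8c2c2,
    0x1418288881c1a288182d141148a2881881a214882d21c82421c12819c1281c12cd81c181c8a21f], [0,
    0x41a411a1c14a41864c6186141a1c81c18168ca18614168c84a481a1cce1, 0, 0,
    0xa41a48a2288888a2c24822881881a2c11c822c2a412c121418a22c2214812c1a2888ed82c882c1a21f],
    [0, 0, 0xc14c18c28c14c18c2484c484c8c21d, 0x14c41214c41292,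
    0x9481218812922c81422c2181c81ac81c8121b], [0, 0, 0x218614c28618a18c2444882882c484c4c21f,
    0, 0x21c8119c8162418a112c81ac82c81213]]

noncomputable def n2753 : Ent := ⟨e2753, noF, [], [], []⟩

def c2753 : PLift (Cov.check n2753.C.D v2753 = true) := ⟨by decide +kernel⟩

def b2753 : PLift (entF (fidx ts) 400 2753 n2753 = true) := ⟨by decide +kernel⟩

theorem g2753 : GoodF (fidx ts) 400 2753 := GoodF.ofV v2753 n2753 c2753.down b2753.down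

/-- 4595474:2212/2 -/
noncomputable def e2754 : SCfg where
  D := {
    a := 7
    L := 10
    kp := 7
    inn := [(0, 1), (0, 2), (1, 0), (1, 2), (1, 5), (2, 0), (2, 1), (2, 3), (2, 4), (2, 5), (3, 2), (3,
      4), (4, 2), (4, 3), (5, 1), (5, 2), (5, 6), (6, 5)]
    mix := [(0, 0), (0, 1), (1, 1), (1, 2), (2, 0), (2, 3), (2, 4), (2, 5), (3, 3), (3, 6), (3, 7), (4,
      4), (4, 7), (5, 2), (5, 3), (5, 6), (5, 8), (6, 2), (6, 8), (6, 9)]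
    cl := [3, 4, 0, 1, 1, 6, 0, 2, 5, 7]
    chq := [(0, 3), (0, 6), (3, 0), (6, 0)]
    rng := [(0, 1), (0, 5), (1, 0), (1, 2), (2, 1), (2, 9), (3, 6), (4, 5), (4, 7), (5, 0), (5, 4), (6,
      3), (6, 7), (6, 8), (7, 4), (7, 6), (8, 6), (8, 9), (9, 2), (9, 8)]
    lev := [] }
  links := [[1, 2, 7, 8], [2, 0, 8, 9, 5], [7, 0, 1, 5, 10, 3, 4, 11, 12], [4, 2, 10, 13, 14], [11, 2, 3,
    14], [10, 2, 1, 9, 6, 15, 13], [15, 5, 9, 16]]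
  P := {
    a := 7
    N := 17
    nb := [390, 805, 7355, 25620, 18444, 42566, 98848, 4357, 643, 65890, 8236, 20500, 2180, 50216,
      10264, 73824, 33344]
    tri := [(0, 1, 2), (0, 1, 8), (0, 2, 7), (0, 7, 8), (1, 2, 5), (1, 5, 9), (1, 8, 9), (2, 3, 4), (2,
      3, 10), (2, 4, 11), (2, 5, 10), (2, 7, 12), (2, 11, 12), (3, 4, 14), (3, 10, 13), (3, 13,
      14), (4, 11, 14), (5, 6, 9), (5, 6, 15), (5, 10, 13), (5, 13, 15), (6, 9, 16), (6, 15, 16)]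
    fin := [0, 0, 2, 3, 3, 2, 2, 0, 8, 2, 3, 3, 12, 2, 14, 15, 16]
    chd := [(0, 2), (2, 12)]
    steps := [(0, 1), (0, 7), (2, 5), (2, 6), (2, 9), (3, 4), (3, 10), (2, 13), (3, 11)] }
  rep := [2, 3, 14, 0, 8, 15, 12, 16]

noncomputable def v2754 : Cov.CovD where
  P := 3
  N := 5
  pl := [1, 7, 8, 9]
  lev := [⟨[], [], [], [4], [(0, 3, [0])]⟩,
    ⟨[], [(0, 0), (0, 3)], [], [4], [(2, 0, [3, 6])]⟩,
    ⟨[(0, 1)], [(0, 1), (0, 3), (0, 6), (1, 0), (1, 1), (1, 3), (1, 6)], [(1, 1), (1, 3),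
      (1, 6), (3, 6)], [], [(0, 3, [0]), (3, 1, []), (4, 1, []), (5, 6, [0])]⟩,
    ⟨[(0, 2), (1, 2)], [(2, 0), (2, 1), (2, 3), (2, 6)], [(0, 1)], [2], [(3, 1, []), (6, 0,
      [3, 6])]⟩,
    ⟨[(0, 2), (1, 2), (2, 3)], [(2, 1), (2, 3), (2, 6), (3, 0), (3, 1)], [], [2], [(4, 1,
      [])]⟩,
    ⟨[(0, 1), (0, 2), (1, 2), (2, 3), (2, 4)], [(1, 0), (1, 1), (2, 0), (2, 1), (2, 3), (2,
      6), (3, 0), (3, 1)], [(0, 0), (0, 1)], [5], [(2, 0, [3, 6]), (3, 1, []), (6, 0, [3,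
      6])]⟩,
    ⟨[(1, 5), (2, 5)], [(1, 0), (5, 0), (5, 1)], [], [5, 7], [(2, 0, [3, 6])]⟩]
  Ta := [((2, 1), 0, 4), ((2, 9), 0, 7), ((3, 6), 1, 0), ((4, 5), 1, 6), ((4, 7), 1, 2), ((6, 3),
    0, 1), ((6, 7), 0, 2), ((6, 8), 0, 5)]
  Tb := [((0, 1, 5), 3, 4, 6), ((1, 0, 2), 4, 3, 0), ((2, 1, 9), 0, 4, 7), ((4, 5, 7), 1, 6, 2),
    ((5, 0, 4), 6, 3, 1), ((6, 3, 7), 0, 1, 2), ((6, 3, 8), 0, 1, 5), ((6, 7, 8), 0, 2, 5),
    ((7, 4, 6), 2, 1, 0), ((8, 6, 9), 5, 0, 7), ((9, 2, 8), 7, 0, 5)]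
  Tc := [(0, 3, 6)]
  Td := [((0, 3), (2, 1), 4), ((0, 3), (2, 9), 7), ((0, 3), (6, 3), 1), ((0, 3), (6, 7), 2), ((0,
    3), (6, 8), 5), ((0, 6), (2, 1), 4), ((0, 6), (2, 9), 7), ((0, 6), (6, 3), 1), ((0, 6),
    (6, 7), 2), ((0, 6), (6, 8), 5), ((3, 0), (0, 1), 4), ((3, 0), (0, 5), 6), ((6, 0), (5,
    0), 3), ((6, 0), (5, 4), 1)]
  G := [[0, 0, 0, 0, 0x64881a8281c64281a8881c11c881211c21a6c8892f], [0, 0, 0,
    0xe968818e5a4414a6c88122888124481cf, 0xa6c8212a6c88121168111a81e24e88d4b], [0,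
    0x1161411a1811a44e1168411a8411c18e61, 0x11c48111c481c1, 0,
    0x64881858281348816a1c281211c1813c88518218cf], [0, 0, 0x11c84111c421c1,
    0xc1644181da841435c4412e, 0x5968818b1a881416c8212e]]

noncomputable def n2754 : Ent := ⟨e2754, noF, [], [], []⟩

def c2754 : PLift (Cov.check n2754.C.D v2754 = true) := ⟨by decide +kernel⟩

def b2754 : PLift (entF (fidx ts) 400 2754 n2754 = true) := ⟨by decide +kernel⟩

theorem g2754 : GoodF (fidx ts) 400 2754 := GoodF.ofV v2754 n2754 c2754.down b2754.down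

/-- 4595474:2212 -/
noncomputable def e2755 : SCfg where
  D := {
    a := 7
    L := 11
    kp := 8
    inn := [(0, 1), (0, 2), (1, 0), (1, 2), (1, 5), (2, 0), (2, 1), (2, 3), (2, 4), (2, 5), (3, 2), (3,
      4), (4, 2), (4, 3), (5, 1), (5, 2), (5, 6), (6, 5)]
    mix := [(0, 0), (0, 1), (1, 1), (1, 2), (2, 0), (2, 3), (2, 4), (2, 5), (3, 3), (3, 6), (3, 7), (4,
      4), (4, 7), (5, 2), (5, 3), (5, 8), (5, 9), (6, 2), (6, 8), (6, 10)]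
    cl := [3, 2, 1, 0, 0, 6, 7, 4, 5, 1, 8]
    chq := [(1, 3), (1, 6), (3, 1), (6, 1)]
    rng := [(0, 1), (0, 5), (1, 0), (1, 2), (2, 1), (2, 10), (3, 6), (3, 9), (4, 5), (4, 7), (5, 0),
      (5, 4), (6, 3), (6, 7), (7, 4), (7, 6), (8, 9), (8, 10), (9, 3), (9, 8), (10, 2), (10, 8)]
    lev := [] }
  links := [[1, 2, 7, 8], [2, 0, 8, 9, 5], [7, 0, 1, 5, 10, 3, 4, 11, 12], [4, 2, 10, 13, 14], [11, 2, 3,
    14], [10, 2, 1, 9, 6, 15, 16], [15, 5, 9, 17]]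
  P := {
    a := 7
    N := 18
    nb := [390, 805, 7355, 25620, 18444, 99910, 164384, 4357, 643, 131426, 73772, 20500, 2180, 17416,
      10264, 196704, 33824, 33344]
    tri := [(0, 1, 2), (0, 1, 8), (0, 2, 7), (0, 7, 8), (1, 2, 5), (1, 5, 9), (1, 8, 9), (2, 3, 4), (2,
      3, 10), (2, 4, 11), (2, 5, 10), (2, 7, 12), (2, 11, 12), (3, 4, 14), (3, 10, 13), (3, 13,
      14), (4, 11, 14), (5, 6, 9), (5, 6, 15), (5, 10, 16), (5, 15, 16), (6, 9, 17), (6, 15, 17)]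
    fin := [0, 0, 2, 3, 3, 2, 2, 0, 8, 2, 3, 3, 12, 13, 14, 15, 2, 17]
    chd := [(0, 2), (2, 12)]
    steps := [(0, 1), (0, 7), (2, 5), (2, 6), (2, 9), (2, 16), (3, 4), (3, 10), (3, 11)] }
  rep := [3, 2, 8, 0, 14, 15, 12, 13, 17]

noncomputable def v2755 : Cov.CovD where
  P := 3
  N := 6
  pl := [1, 6, 7, 8, 10]
  lev := [⟨[], [], [], [2], [(0, 3, [1])]⟩,
    ⟨[], [(0, 1), (0, 3)], [], [2], [(2, 1, [3, 6])]⟩,
    ⟨[(0, 1)], [(0, 0), (0, 3), (0, 6), (1, 0), (1, 1), (1, 3), (1, 6)], [(0, 0), (0, 3),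
      (0, 6), (3, 6)], [], [(0, 3, [1]), (3, 0, []), (4, 0, []), (5, 6, [1])]⟩,
    ⟨[(0, 2), (1, 2)], [(2, 0), (2, 3), (2, 6)], [], [4, 7], [(3, 0, [])]⟩,
    ⟨[(0, 2), (1, 2), (2, 3)], [(2, 0), (2, 3), (2, 6), (3, 0)], [], [4], [(4, 0, [])]⟩,
    ⟨[(0, 1), (0, 2), (1, 2), (2, 3), (2, 4)], [(1, 0), (1, 1), (2, 0), (2, 1), (2, 3), (2,
      6), (3, 0)], [(0, 1), (1, 1)], [5], [(2, 1, [3, 6]), (3, 0, []), (9, 1, [3, 6])]⟩,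
    ⟨[(1, 5), (2, 5)], [(1, 1), (5, 0), (5, 1)], [], [5, 8], [(2, 1, [3, 6])]⟩]
  Ta := [((2, 1), 1, 2), ((2, 10), 1, 8), ((3, 6), 0, 7), ((3, 9), 0, 1), ((4, 5), 0, 6), ((4,
    7), 0, 4), ((9, 3), 1, 0), ((9, 8), 1, 5)]
  Tb := [((0, 1, 5), 3, 2, 6), ((1, 0, 2), 2, 3, 1), ((2, 1, 10), 1, 2, 8), ((3, 6, 9), 0, 7, 1),
    ((4, 5, 7), 0, 6, 4), ((5, 0, 4), 6, 3, 0), ((6, 3, 7), 7, 0, 4), ((7, 4, 6), 4, 0, 7),
    ((8, 9, 10), 5, 1, 8), ((9, 3, 8), 1, 0, 5), ((10, 2, 8), 8, 1, 5)]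
  Tc := [(1, 3, 6)]
  Td := [((1, 3), (2, 1), 2), ((1, 3), (2, 10), 8), ((1, 3), (9, 3), 0), ((1, 3), (9, 8), 5),
    ((1, 6), (2, 1), 2), ((1, 6), (2, 10), 8), ((1, 6), (9, 3), 0), ((1, 6), (9, 8), 5), ((3,
    1), (0, 1), 2), ((3, 1), (0, 5), 6), ((6, 1), (5, 0), 3), ((6, 1), (5, 4), 0)]
  G := [[0, 0, 0x548544541e2988984981e2c282215c8544541e6888981981e2c2412422c128ce,
    0x95c895c495c1e2195c895c495c1e21c, 0x95c895c494c1e2125c1293c12c195c895c495c1e21b], [0,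
    0x116411616116111a11161e11c8116411c1ee116188c1,
    0x241263c892c463c1ea4281225c13ac42ec1e682422428228ce, 0,
    0x25c892c1441e2132c1223c22c192c1a6c4a3c1e21b], [0, 0,
    0xda58544542d298818892c92cc72cda5815c835c35ccb2d29488252cc,
    0x95c895c495c2d2195c895c895c4b219, 0x95c895c495c95ccd2125c895c498495c95ccf219], [0, 0,
    0x482d422c98a52422983a5425c22ccd282252225c85449a8e, 0,
    0xe2c425c425c92ccd2192c825c422c22c98ed219]]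

noncomputable def n2755 : Ent := ⟨e2755, noF, [], [], [(17, 14, [6903326468334360900303599070699561856668565975414084080169086035431425, 0]), (16, 13, [7334685537894576317792898128369202883340578364357296604626079808495617, 0])]⟩

def c2755 : PLift (Cov.check n2755.C.D v2755 = true) := ⟨by decide +kernel⟩

def b2755 : PLift (entF (fidx ts) 400 2755 n2755 = true) := ⟨by decide +kernel⟩

theorem g2755 : GoodF (fidx ts) 400 2755 := GoodF.ofV v2755 n2755 c2755.down b2755.down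

/-- 4596465:2213 -/
noncomputable def e2756 : SCfg where
  D := {
    a := 7
    L := 11
    kp := 9
    inn := [(0, 1), (0, 2), (1, 0), (1, 2), (2, 0), (2, 1), (2, 3), (2, 4), (2, 5), (2, 6), (3, 2), (3,
      4), (3, 5), (4, 2), (4, 3), (5, 2), (5, 3), (5, 6), (6, 2), (6, 5)]
    mix := [(0, 0), (0, 1), (1, 1), (1, 2), (1, 3), (2, 0), (2, 3), (2, 4), (3, 5), (3, 6), (3, 7), (4,
      3), (4, 5), (5, 7), (5, 8), (5, 9), (6, 4), (6, 9), (6, 10)]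
    cl := [0, 5, 8, 0, 1, 2, 6, 3, 9, 4, 7]
    chq := [(1, 2), (1, 3), (1, 6), (2, 1), (3, 1), (3, 4), (3, 7), (4, 3), (6, 1), (7, 3)]
    rng := [(0, 1), (0, 4), (1, 0), (1, 2), (2, 1), (2, 3), (3, 2), (3, 5), (4, 0), (4, 10), (5, 3),
      (5, 6), (6, 5), (6, 7), (7, 6), (7, 8), (8, 7), (8, 9), (9, 8), (9, 10), (10, 4), (10, 9)]
    lev := [] }
  links := [[1, 2, 7, 8], [2, 0, 8, 9, 10], [7, 0, 1, 10, 4, 3, 5, 6, 11], [5, 2, 4, 12, 13, 14], [12, 3,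
    2, 10], [6, 2, 3, 14, 15, 16], [11, 2, 5, 16, 17]]
  P := {
    a := 7
    N := 18
    nb := [390, 1797, 3323, 28724, 5132, 114764, 198692, 2309, 643, 1282, 4630, 131268, 9240, 20488,
      41000, 81952, 163936, 67648]
    tri := [(0, 1, 2), (0, 1, 8), (0, 2, 7), (0, 7, 8), (1, 2, 10), (1, 8, 9), (1, 9, 10), (2, 3, 4),
      (2, 3, 5), (2, 4, 10), (2, 5, 6), (2, 6, 11), (2, 7, 11), (3, 4, 12), (3, 5, 14), (3, 12,
      13), (3, 13, 14), (4, 10, 12), (5, 6, 16), (5, 14, 15), (5, 15, 16), (6, 11, 17), (6, 16,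
      17)]
    fin := [0, 0, 2, 3, 4, 5, 5, 0, 8, 9, 0, 2, 4, 3, 5, 15, 16, 17]
    chd := [(2, 3), (2, 4), (2, 5), (5, 16), (5, 17)]
    steps := [(0, 1), (0, 7), (0, 10), (2, 11), (3, 13), (4, 12), (5, 6), (5, 14)] }
  rep := [0, 2, 4, 5, 16, 8, 3, 17, 9, 15]

noncomputable def v2756 : Cov.CovD where
  P := 3
  N := 7
  pl := [1, 2, 8]
  lev := [⟨[], [], [], [5], [(0, 0, [])]⟩,
    ⟨[], [(0, 0)], [], [5, 8], [(3, 0, [])]⟩,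
    ⟨[(0, 1)], [(0, 0), (0, 1), (1, 0), (1, 1)], [(0, 0), (0, 1)], [], [(0, 0, []), (3, 0,
      []), (4, 1, [2, 3, 6])]⟩,
    ⟨[(0, 2), (1, 2)], [(2, 0), (2, 1), (2, 2), (2, 3), (2, 6)], [(2, 3), (2, 6), (3, 6)],
      [], [(5, 2, [1]), (6, 6, [1]), (7, 3, [1, 4, 7])]⟩,
    ⟨[(0, 2), (1, 2), (2, 3)], [(1, 0), (2, 0), (2, 1), (2, 2), (3, 0), (3, 2), (3, 3), (3,
      6)], [(0, 2)], [], [(3, 0, []), (5, 2, [1])]⟩,
    ⟨[(0, 2), (1, 2), (2, 3), (2, 4), (3, 4)], [(2, 0), (2, 1), (2, 3), (2, 4), (3, 2), (3,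
      3), (3, 4), (3, 6)], [(3, 4)], [9], [(7, 3, [1, 4, 7]), (9, 4, [3])]⟩,
    ⟨[(0, 2), (1, 2), (2, 3), (2, 4), (2, 5), (3, 5)], [(2, 0), (2, 1), (2, 4), (2, 7), (5,
      1), (5, 3), (5, 4), (5, 7)], [(1, 4), (1, 7), (4, 7)], [], [(4, 1, [2, 3, 6]), (9, 4,
      [3]), (10, 7, [3])]⟩]
  Ta := [((0, 1), 0, 5), ((0, 4), 0, 1), ((3, 2), 0, 8), ((3, 5), 0, 2)]
  Tb := [((0, 1, 4), 0, 5, 1), ((1, 0, 2), 5, 0, 8), ((2, 1, 3), 8, 5, 0), ((3, 2, 5), 0, 8, 2),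
    ((4, 0, 10), 1, 0, 7), ((5, 3, 6), 2, 0, 6), ((6, 5, 7), 6, 2, 3), ((7, 6, 8), 3, 6, 9),
    ((8, 7, 9), 9, 3, 4), ((9, 8, 10), 4, 9, 7), ((10, 4, 9), 7, 1, 4)]
  Tc := [(1, 2, 3), (1, 2, 6), (1, 3, 6), (3, 1, 4), (3, 1, 7), (3, 4, 7)]
  Td := [((1, 2), (4, 0), 0), ((1, 2), (4, 10), 7), ((1, 3), (4, 0), 0), ((1, 3), (4, 10), 7),
    ((1, 6), (4, 0), 0), ((1, 6), (4, 10), 7), ((2, 1), (5, 3), 0), ((2, 1), (5, 6), 6), ((3,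
    1), (7, 6), 6), ((3, 1), (7, 8), 9), ((3, 4), (7, 6), 6), ((3, 4), (7, 8), 9), ((3, 7),
    (7, 6), 6), ((3, 7), (7, 8), 9), ((4, 3), (9, 8), 9), ((4, 3), (9, 10), 7), ((6, 1), (6,
    5), 2), ((6, 1), (6, 7), 3), ((7, 3), (10, 4), 1), ((7, 3), (10, 9), 4)]
  G := [[0, 0xeecef41216eeef4181c, 0, 0xd21921d9dd1d22f48521d225bdd4d22f8477582522928b84c22fc1e,
    0x122dbddf8c28b481227dddf1d22b84522d99df8c28b41e], [0, 0,
    0x35542422928d8d8f8ec422d227dddf4e88224522dbddf8ace1,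
    0x77542528928e88c28fc5241282a748c24fbb982c522892279ed8d287ce1,
    0x122dbddf8c28b4744748cac223122b99b8ac522d99df8c28b4e1]]

noncomputable def n2756 : Ent := ⟨e2756, noF, [], [], []⟩

def c2756 : PLift (Cov.check n2756.C.D v2756 = true) := ⟨by decide +kernel⟩

def b2756 : PLift (entF (fidx ts) 400 2756 n2756 = true) := ⟨by decide +kernel⟩

theorem g2756 : GoodF (fidx ts) 400 2756 := GoodF.ofV v2756 n2756 c2756.down b2756.down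

/-- 4596464:2214 -/
noncomputable def e2757 : SCfg where
  D := {
    a := 7
    L := 11
    kp := 8
    inn := [(0, 1), (0, 2), (1, 0), (1, 2), (2, 0), (2, 1), (2, 3), (2, 4), (2, 5), (2, 6), (3, 2), (3,
      4), (3, 5), (4, 2), (4, 3), (5, 2), (5, 3), (6, 2)]
    mix := [(0, 0), (0, 1), (1, 1), (1, 2), (1, 3), (2, 0), (2, 3), (2, 4), (3, 5), (3, 6), (3, 7), (4,
      3), (4, 5), (5, 4), (5, 7), (5, 8), (5, 9), (6, 0), (6, 4), (6, 10)]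
    cl := [0, 1, 5, 0, 3, 2, 4, 3, 6, 7, 8]
    chq := [(0, 3), (0, 4), (3, 0), (4, 0)]
    rng := [(0, 1), (0, 10), (1, 0), (1, 2), (2, 1), (2, 3), (3, 2), (3, 5), (4, 9), (4, 10), (5, 3),
      (5, 6), (6, 5), (6, 7), (7, 6), (7, 8), (8, 7), (8, 9), (9, 4), (9, 8), (10, 0), (10, 4)]
    lev := [] }
  links := [[1, 2, 7, 8], [2, 0, 8, 9, 10], [7, 0, 1, 10, 4, 3, 5, 11, 6], [5, 2, 4, 12, 13, 14], [12, 3,
    2, 10], [11, 2, 3, 14, 15, 16], [7, 2, 11, 17]]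
  P := {
    a := 7
    N := 18
    nb := [390, 1797, 3323, 28724, 5132, 116748, 133252, 131397, 643, 1282, 4630, 196708, 9240, 20488,
      41000, 81952, 34848, 2240]
    tri := [(0, 1, 2), (0, 1, 8), (0, 2, 7), (0, 7, 8), (1, 2, 10), (1, 8, 9), (1, 9, 10), (2, 3, 4),
      (2, 3, 5), (2, 4, 10), (2, 5, 11), (2, 6, 7), (2, 6, 11), (3, 4, 12), (3, 5, 14), (3, 12,
      13), (3, 13, 14), (4, 10, 12), (5, 11, 16), (5, 14, 15), (5, 15, 16), (6, 7, 17), (6, 11,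
      17)]
    fin := [0, 0, 0, 0, 0, 5, 0, 0, 8, 9, 0, 5, 12, 13, 5, 15, 16, 17]
    chd := [(0, 5), (0, 13)]
    steps := [(0, 1), (0, 2), (0, 3), (0, 4), (0, 6), (0, 7), (0, 10), (5, 14), (5, 11)] }
  rep := [0, 8, 12, 5, 13, 9, 15, 16, 17]

noncomputable def v2757 : Cov.CovD where
  P := 3
  N := 6
  pl := [1, 2, 5, 8, 9, 10]
  lev := [⟨[], [], [], [1], [(0, 0, [3, 4])]⟩,
    ⟨[], [(0, 0)], [], [1, 5], [(3, 0, [3, 4])]⟩,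
    ⟨[(0, 1)], [(0, 0), (0, 3), (1, 0), (1, 3)], [(0, 0), (0, 3)], [], [(0, 0, [3, 4]), (3,
      0, [3, 4]), (4, 3, [0])]⟩,
    ⟨[(0, 2), (1, 2)], [(2, 0), (2, 3), (2, 4)], [(3, 4)], [2], [(6, 4, [0]), (7, 3, [0])]⟩,
    ⟨[(0, 2), (1, 2), (2, 3)], [(1, 0), (2, 0), (2, 3), (3, 0), (3, 3), (3, 4)], [], [2],
      [(3, 0, [3, 4])]⟩,
    ⟨[(0, 2), (1, 2), (2, 3), (2, 4), (3, 4)], [(2, 0), (2, 3), (3, 3), (3, 4)], [(3, 3)],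
      [6, 7], [(4, 3, [0]), (7, 3, [0])]⟩,
    ⟨[(0, 2), (1, 2), (2, 3), (2, 4), (2, 5)], [(0, 0), (2, 0), (2, 3), (5, 3)], [(0, 3)],
      [8], [(0, 0, [3, 4]), (4, 3, [0])]⟩]
  Ta := [((0, 1), 0, 1), ((0, 10), 0, 8), ((3, 2), 0, 5), ((3, 5), 0, 2), ((4, 9), 3, 7), ((4,
    10), 3, 8), ((7, 6), 3, 4), ((7, 8), 3, 6)]
  Tb := [((0, 1, 10), 0, 1, 8), ((1, 0, 2), 1, 0, 5), ((2, 1, 3), 5, 1, 0), ((3, 2, 5), 0, 5, 2),
    ((4, 9, 10), 3, 7, 8), ((5, 3, 6), 2, 0, 4), ((6, 5, 7), 4, 2, 3), ((7, 6, 8), 3, 4, 6),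
    ((8, 7, 9), 6, 3, 7), ((9, 4, 8), 7, 3, 6), ((10, 0, 4), 8, 0, 3)]
  Tc := [(0, 3, 4)]
  Td := [((0, 3), (0, 1), 1), ((0, 3), (0, 10), 8), ((0, 3), (3, 2), 5), ((0, 3), (3, 5), 2),
    ((0, 4), (0, 1), 1), ((0, 4), (0, 10), 8), ((0, 4), (3, 2), 5), ((0, 4), (3, 5), 2), ((3,
    0), (4, 9), 7), ((3, 0), (4, 10), 8), ((3, 0), (7, 6), 4), ((3, 0), (7, 8), 6), ((4, 0),
    (6, 5), 2), ((4, 0), (6, 7), 3)]
  G := [[0, 0x82a41a6cef4162214ca6ef81ca444186caef4184c81acc, 0, 0x42641118c86ef89b18a68e45e18,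
    0x426212132cacd29118a4caf83e18], [0, 0xccccf812ccccf412c4, 0, 0x4141146666f4d814,
    0x118118ccccf8b214], [0, 0, 0x1162111d8a111b84612241111f48ac111d4284c,
    0x1181b1d85ad1b81687ca1f41111748a118485c, 0x1b1d81111ad1b896142111982a6d1f81ec118281c],
    [0, 0, 0x116821141f41111f84198e681111f421111f41181f8ca4c, 0xdaa1f814ccc1f412418118c2d8,
    0xccc1f812ccc1f812118118a2d8]]

noncomputable def n2757 : Ent := ⟨e2757, noF, [], [], []⟩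

def c2757 : PLift (Cov.check n2757.C.D v2757 = true) := ⟨by decide +kernel⟩

def b2757 : PLift (entF (fidx ts) 400 2757 n2757 = true) := ⟨by decide +kernel⟩

theorem g2757 : GoodF (fidx ts) 400 2757 := GoodF.ofV v2757 n2757 c2757.down b2757.down

/-- 4596464:2215/1 -/
noncomputable def e2758 : SCfg where
  D := {
    a := 7
    L := 10
    kp := 7
    inn := [(0, 1), (0, 2), (1, 0), (1, 2), (2, 0), (2, 1), (2, 3), (2, 4), (2, 5), (3, 2), (3, 4), (3,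
      5), (4, 2), (4, 3), (5, 2), (5, 3), (5, 6), (6, 5)]
    mix := [(0, 0), (0, 1), (1, 1), (1, 2), (1, 3), (2, 0), (2, 3), (2, 4), (2, 5), (3, 6), (3, 7), (3,
      8), (4, 3), (4, 6), (5, 4), (5, 8), (5, 9), (6, 1), (6, 8), (6, 9)]
    cl := [0, 2, 6, 0, 1, 7, 3, 5, 1, 4]
    chq := [(0, 1), (0, 5), (1, 0), (5, 0)]
    rng := [(0, 1), (0, 5), (1, 0), (1, 2), (1, 8), (1, 9), (2, 1), (2, 3), (3, 2), (3, 6), (4, 5), (4,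
      9), (5, 0), (5, 4), (6, 3), (6, 7), (7, 6), (7, 8), (8, 1), (8, 7), (9, 1), (9, 4)]
    lev := [] }
  links := [[1, 2, 7, 8], [2, 0, 8, 9, 10], [7, 0, 1, 10, 4, 3, 5, 11, 12], [5, 2, 4, 13, 14, 15], [13,
    3, 2, 10], [11, 2, 3, 15, 6, 16], [16, 5, 15, 8]]
  P := {
    a := 7
    N := 17
    nb := [390, 1797, 7355, 57396, 9228, 100428, 98592, 4357, 99011, 1282, 8726, 69668, 2180, 17432,
      40968, 16744, 2400]
    tri := [(0, 1, 2), (0, 1, 8), (0, 2, 7), (0, 7, 8), (1, 2, 10), (1, 8, 9), (1, 9, 10), (2, 3, 4),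
      (2, 3, 5), (2, 4, 10), (2, 5, 11), (2, 7, 12), (2, 11, 12), (3, 4, 13), (3, 5, 15), (3, 13,
      14), (3, 14, 15), (4, 10, 13), (5, 6, 15), (5, 6, 16), (5, 11, 16), (6, 8, 15), (6, 8, 16)]
    fin := [0, 0, 0, 0, 0, 5, 6, 0, 6, 9, 0, 5, 12, 13, 14, 5, 16]
    chd := [(0, 5), (0, 14)]
    steps := [(0, 1), (0, 2), (0, 3), (0, 4), (0, 7), (0, 10), (5, 15), (5, 11), (6, 8)] }
  rep := [0, 5, 6, 13, 16, 14, 9, 12]

noncomputable def v2758 : Cov.CovD where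
  P := 3
  N := 5
  pl := [1, 2, 5, 6, 9]
  lev := [⟨[], [], [], [2], [(0, 0, [1, 5])]⟩,
    ⟨[], [(0, 0)], [], [2, 6], [(3, 0, [1, 5])]⟩,
    ⟨[(0, 1)], [(0, 0), (0, 1), (1, 0), (1, 1)], [(0, 0), (0, 1)], [7], [(0, 0, [1, 5]),
      (3, 0, [1, 5]), (4, 1, [0])]⟩,
    ⟨[(0, 2), (1, 2)], [(2, 0), (2, 1), (2, 5)], [(1, 5)], [3], [(7, 5, [0]), (8, 1, [0])]⟩,
    ⟨[(0, 2), (1, 2), (2, 3)], [(1, 0), (2, 0), (2, 1), (3, 0), (3, 1), (3, 5)], [], [3],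
      [(3, 0, [1, 5])]⟩,
    ⟨[(0, 2), (1, 2), (2, 3), (2, 4), (3, 4)], [(2, 0), (2, 1), (3, 1), (3, 5)], [(1, 1)],
      [4], [(4, 1, [0]), (8, 1, [0])]⟩,
    ⟨[(2, 5), (3, 5)], [(3, 1), (5, 1)], [], [2, 4], [(8, 1, [0])]⟩]
  Ta := [((0, 1), 0, 2), ((0, 5), 0, 7), ((3, 2), 0, 6), ((3, 6), 0, 3), ((4, 5), 1, 7), ((4, 9),
    1, 4), ((8, 1), 1, 2), ((8, 7), 1, 5)]
  Tb := [((0, 1, 5), 0, 2, 7), ((1, 0, 2), 2, 0, 6), ((1, 0, 8), 2, 0, 1), ((1, 0, 9), 2, 0, 4),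
    ((1, 2, 8), 2, 6, 1), ((1, 2, 9), 2, 6, 4), ((1, 8, 9), 2, 1, 4), ((2, 1, 3), 6, 2, 0),
    ((3, 2, 6), 0, 6, 3), ((4, 5, 9), 1, 7, 4), ((5, 0, 4), 7, 0, 1), ((6, 3, 7), 3, 0, 5),
    ((7, 6, 8), 5, 3, 1), ((8, 1, 7), 1, 2, 5), ((9, 1, 4), 4, 2, 1)]
  Tc := [(0, 1, 5)]
  Td := [((0, 1), (0, 1), 2), ((0, 1), (0, 5), 7), ((0, 1), (3, 2), 6), ((0, 1), (3, 6), 3), ((0,
    5), (0, 1), 2), ((0, 5), (0, 5), 7), ((0, 5), (3, 2), 6), ((0, 5), (3, 6), 3), ((1, 0),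
    (4, 5), 7), ((1, 0), (4, 9), 4), ((1, 0), (8, 1), 2), ((1, 0), (8, 7), 5), ((5, 0), (7,
    6), 3), ((5, 0), (7, 8), 1)]
  G := [[0, 0x4864184a2184a81e18, 0xc1425c16161a1ca161a18496161c62, 0, 0x12c2ac6111c8824e1c12],
    [0, 0x4864184a8184c21e18, 0x485c1c12c1c1c12c8, 0x84c81cc1218, 0x81c81cc1218], [0,
    0x4868184a2184a41e14, 0, 0, 0x819482c83411128545819482c83ca114815115825285678815828a9],
    [0, 0x4864184a8184c21e18, 0, 0x14c481c881c81ccd214c4815884c84ccd2c4,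
    0x8158819481c81ccd281521184698519cad815881988a9852dca1]]

noncomputable def n2758 : Ent := ⟨e2758, noF, [], [], []⟩

def c2758 : PLift (Cov.check n2758.C.D v2758 = true) := ⟨by decide +kernel⟩

def b2758 : PLift (entF (fidx ts) 400 2758 n2758 = true) := ⟨by decide +kernel⟩

theorem g2758 : GoodF (fidx ts) 400 2758 := GoodF.ofV v2758 n2758 c2758.down b2758.down

/-- 4596464:2215/2 -/
noncomputable def e2759 : SCfg where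
  D := {
    a := 7
    L := 10
    kp := 7
    inn := [(0, 1), (0, 2), (1, 0), (1, 2), (2, 0), (2, 1), (2, 3), (2, 4), (2, 5), (3, 2), (3, 4), (3,
      5), (4, 2), (4, 3), (5, 2), (5, 3), (5, 6), (6, 5)]
    mix := [(0, 0), (0, 1), (1, 1), (1, 2), (1, 3), (2, 0), (2, 3), (2, 4), (2, 5), (3, 6), (3, 7), (3,
      8), (4, 3), (4, 6), (5, 4), (5, 8), (5, 9), (6, 2), (6, 8), (6, 9)]
    cl := [0, 1, 2, 0, 3, 7, 4, 6, 3, 5]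
    chq := [(0, 3), (0, 6), (3, 0), (6, 0)]
    rng := [(0, 1), (0, 5), (1, 0), (1, 2), (2, 1), (2, 3), (2, 8), (2, 9), (3, 2), (3, 6), (4, 5), (4,
      9), (5, 0), (5, 4), (6, 3), (6, 7), (7, 6), (7, 8), (8, 2), (8, 7), (9, 2), (9, 4)]
    lev := [] }
  links := [[1, 2, 7, 8], [2, 0, 8, 9, 10], [7, 0, 1, 10, 4, 3, 5, 11, 12], [5, 2, 4, 13, 14, 15], [13,
    3, 2, 10], [11, 2, 3, 15, 6, 16], [16, 5, 15, 9]]
  P := {
    a := 7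
    N := 17
    nb := [390, 1797, 7355, 57396, 9228, 100428, 98848, 4357, 643, 99650, 8726, 69668, 2180, 17432,
      40968, 17000, 2656]
    tri := [(0, 1, 2), (0, 1, 8), (0, 2, 7), (0, 7, 8), (1, 2, 10), (1, 8, 9), (1, 9, 10), (2, 3, 4),
      (2, 3, 5), (2, 4, 10), (2, 5, 11), (2, 7, 12), (2, 11, 12), (3, 4, 13), (3, 5, 15), (3, 13,
      14), (3, 14, 15), (4, 10, 13), (5, 6, 15), (5, 6, 16), (5, 11, 16), (6, 9, 15), (6, 9, 16)]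
    fin := [0, 0, 0, 0, 0, 5, 6, 0, 8, 6, 0, 5, 12, 13, 14, 5, 16]
    chd := [(0, 5), (0, 14)]
    steps := [(0, 1), (0, 2), (0, 3), (0, 4), (0, 7), (0, 10), (5, 15), (5, 11), (6, 9)] }
  rep := [0, 8, 6, 5, 13, 16, 14, 12]

noncomputable def v2759 : Cov.CovD where
  P := 3
  N := 5
  pl := [1, 2, 5, 6, 9]
  lev := [⟨[], [], [], [1], [(0, 0, [3, 6])]⟩,
    ⟨[], [(0, 0)], [], [1, 2], [(3, 0, [3, 6])]⟩,
    ⟨[(0, 1)], [(0, 0), (0, 3), (1, 0), (1, 3)], [(0, 0), (0, 3)], [7], [(0, 0, [3, 6]),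
      (3, 0, [3, 6]), (4, 3, [0])]⟩,
    ⟨[(0, 2), (1, 2)], [(2, 0), (2, 3), (2, 6)], [(3, 6)], [4], [(7, 6, [0]), (8, 3, [0])]⟩,
    ⟨[(0, 2), (1, 2), (2, 3)], [(1, 0), (2, 0), (2, 3), (3, 0), (3, 3), (3, 6)], [], [4],
      [(3, 0, [3, 6])]⟩,
    ⟨[(0, 2), (1, 2), (2, 3), (2, 4), (3, 4)], [(2, 0), (2, 3), (3, 3), (3, 6)], [(3, 3)],
      [5], [(4, 3, [0]), (8, 3, [0])]⟩,
    ⟨[(2, 5), (3, 5)], [(3, 3), (5, 3)], [], [2, 5], [(8, 3, [0])]⟩]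
  Ta := [((0, 1), 0, 1), ((0, 5), 0, 7), ((3, 2), 0, 2), ((3, 6), 0, 4), ((4, 5), 3, 7), ((4, 9),
    3, 5), ((8, 2), 3, 2), ((8, 7), 3, 6)]
  Tb := [((0, 1, 5), 0, 1, 7), ((1, 0, 2), 1, 0, 2), ((2, 1, 3), 2, 1, 0), ((2, 1, 8), 2, 1, 3),
    ((2, 1, 9), 2, 1, 5), ((2, 3, 8), 2, 0, 3), ((2, 3, 9), 2, 0, 5), ((2, 8, 9), 2, 3, 5),
    ((3, 2, 6), 0, 2, 4), ((4, 5, 9), 3, 7, 5), ((5, 0, 4), 7, 0, 3), ((6, 3, 7), 4, 0, 6),
    ((7, 6, 8), 6, 4, 3), ((8, 2, 7), 3, 2, 6), ((9, 2, 4), 5, 2, 3)]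
  Tc := [(0, 3, 6)]
  Td := [((0, 3), (0, 1), 1), ((0, 3), (0, 5), 7), ((0, 3), (3, 2), 2), ((0, 3), (3, 6), 4), ((0,
    6), (0, 1), 1), ((0, 6), (0, 5), 7), ((0, 6), (3, 2), 2), ((0, 6), (3, 6), 4), ((3, 0),
    (4, 5), 7), ((3, 0), (4, 9), 5), ((3, 0), (8, 2), 2), ((3, 0), (8, 7), 6), ((6, 0), (7,
    6), 4), ((6, 0), (7, 8), 3)]
  G := [[0, 0x84398361413184329483483c1e84, 0, 0xc2c2615219229c2c2c1e84,
    0x814812ea85a312186a4e161114a41828e381c], [0, 0x854b854ba1841e4187c1688, 0,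
    0xd2d26149685ac1a44, 0x192e192e61831e831ec1a14], [0, 0, 0x61616161c1c1c161c1e81,
    0x8132c2526552292c2a9881d28154c287e84,
    0x1148151152853256781328158a2682a14e7215488682a4e9e81], [0, 0, 0xe1869a14a5e1c1688,
    0x928819285a2b45244152d247d281ac1, 0x21382138221d2812e812eaf8158a411c2154831e83ccf688]]

noncomputable def n2759 : Ent := ⟨e2759, noF, [], [], []⟩

def c2759 : PLift (Cov.check n2759.C.D v2759 = true) := ⟨by decide +kernel⟩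

def b2759 : PLift (entF (fidx ts) 400 2759 n2759 = true) := ⟨by decide +kernel⟩

theorem g2759 : GoodF (fidx ts) 400 2759 := GoodF.ofV v2759 n2759 c2759.down b2759.down

/-- 4596464:2215 -/
noncomputable def e2760 : SCfg where
  D := {
    a := 7
    L := 11
    kp := 8
    inn := [(0, 1), (0, 2), (1, 0), (1, 2), (2, 0), (2, 1), (2, 3), (2, 4), (2, 5), (3, 2), (3, 4), (3,
      5), (4, 2), (4, 3), (5, 2), (5, 3), (5, 6), (6, 5)]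
    mix := [(0, 0), (0, 1), (1, 1), (1, 2), (1, 3), (2, 0), (2, 3), (2, 4), (2, 5), (3, 6), (3, 7), (3,
      8), (4, 3), (4, 6), (5, 4), (5, 8), (5, 9), (6, 8), (6, 9), (6, 10)]
    cl := [0, 2, 6, 0, 1, 7, 3, 5, 1, 4, 8]
    chq := [(0, 1), (0, 5), (1, 0), (5, 0)]
    rng := [(0, 1), (0, 5), (1, 0), (1, 2), (2, 1), (2, 3), (3, 2), (3, 6), (4, 5), (4, 9), (5, 0), (5,
      4), (6, 3), (6, 7), (7, 6), (7, 8), (8, 7), (8, 10), (9, 4), (9, 10), (10, 8), (10, 9)]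
    lev := [] }
  links := [[1, 2, 7, 8], [2, 0, 8, 9, 10], [7, 0, 1, 10, 4, 3, 5, 11, 12], [5, 2, 4, 13, 14, 15], [13,
    3, 2, 10], [11, 2, 3, 15, 6, 16], [16, 5, 15, 17]]
  P := {
    a := 7
    N := 18
    nb := [390, 1797, 7355, 57396, 9228, 100428, 229408, 4357, 643, 1282, 8726, 69668, 2180, 17432,
      40968, 147560, 133216, 98368]
    tri := [(0, 1, 2), (0, 1, 8), (0, 2, 7), (0, 7, 8), (1, 2, 10), (1, 8, 9), (1, 9, 10), (2, 3, 4),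
      (2, 3, 5), (2, 4, 10), (2, 5, 11), (2, 7, 12), (2, 11, 12), (3, 4, 13), (3, 5, 15), (3, 13,
      14), (3, 14, 15), (4, 10, 13), (5, 6, 15), (5, 6, 16), (5, 11, 16), (6, 15, 17), (6, 16,
      17)]
    fin := [0, 0, 0, 0, 0, 5, 5, 0, 8, 9, 0, 5, 12, 13, 14, 5, 16, 17]
    chd := [(0, 5), (0, 14)]
    steps := [(0, 1), (0, 2), (0, 3), (0, 4), (0, 7), (0, 10), (5, 6), (5, 15), (5, 11)] }
  rep := [0, 5, 8, 13, 16, 14, 9, 12, 17]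

noncomputable def v2760 : Cov.CovD where
  P := 3
  N := 6
  pl := [1, 2, 5, 6, 9, 10]
  lev := [⟨[], [], [], [2], [(0, 0, [1, 5])]⟩,
    ⟨[], [(0, 0)], [], [2, 6], [(3, 0, [1, 5])]⟩,
    ⟨[(0, 1)], [(0, 0), (0, 1), (1, 0), (1, 1)], [(0, 0), (0, 1)], [7], [(0, 0, [1, 5]),
      (3, 0, [1, 5]), (4, 1, [0])]⟩,
    ⟨[(0, 2), (1, 2)], [(2, 0), (2, 1), (2, 5)], [(1, 5)], [3], [(7, 5, [0]), (8, 1, [0])]⟩,
    ⟨[(0, 2), (1, 2), (2, 3)], [(1, 0), (2, 0), (2, 1), (3, 0), (3, 1), (3, 5)], [], [3],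
      [(3, 0, [1, 5])]⟩,
    ⟨[(0, 2), (1, 2), (2, 3), (2, 4), (3, 4)], [(2, 0), (2, 1), (3, 1), (3, 5)], [(1, 1)],
      [4], [(4, 1, [0]), (8, 1, [0])]⟩,
    ⟨[(2, 5), (3, 5)], [(3, 1), (5, 1)], [], [4, 8], [(8, 1, [0])]⟩]
  Ta := [((0, 1), 0, 2), ((0, 5), 0, 7), ((3, 2), 0, 6), ((3, 6), 0, 3), ((4, 5), 1, 7), ((4, 9),
    1, 4), ((8, 7), 1, 5), ((8, 10), 1, 8)]
  Tb := [((0, 1, 5), 0, 2, 7), ((1, 0, 2), 2, 0, 6), ((2, 1, 3), 6, 2, 0), ((3, 2, 6), 0, 6, 3),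
    ((4, 5, 9), 1, 7, 4), ((5, 0, 4), 7, 0, 1), ((6, 3, 7), 3, 0, 5), ((7, 6, 8), 5, 3, 1),
    ((8, 7, 10), 1, 5, 8), ((9, 4, 10), 4, 1, 8), ((10, 8, 9), 8, 1, 4)]
  Tc := [(0, 1, 5)]
  Td := [((0, 1), (0, 1), 2), ((0, 1), (0, 5), 7), ((0, 1), (3, 2), 6), ((0, 1), (3, 6), 3), ((0,
    5), (0, 1), 2), ((0, 5), (0, 5), 7), ((0, 5), (3, 2), 6), ((0, 5), (3, 6), 3), ((1, 0),
    (4, 5), 7), ((1, 0), (4, 9), 4), ((1, 0), (8, 7), 5), ((1, 0), (8, 10), 8), ((5, 0), (7,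
    6), 3), ((5, 0), (7, 8), 1)]
  G := [[0, 0x11c2ca643c6ac6aa111688e14, 0xc2521c29c29a1c725818ca65413a5729c1c26,
    0xa46823ce14125c25c6181c, 0x25c3ac613ac92ca1c12], [0, 0x11c22c6ac6aa1116811a4ce14,
    0x95c95cc1295c95cc12c4, 0x95c95cc1214, 0x95c95cc1218], [0, 0xca6ca6a1a6ca6ca1a14, 0,
    0x214c959157256a567c59492c83c244284d182425ccf211c59519c29369abcc1,
    0x914c959152e5c2567248c594782124ebcc95825c43211c598c2947ca2], [0, 0xca641c6a81a6c21e14,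
    0, 0xc954c59895c95ccd2c958c59495c95ccd2c4,
    0xc958c59495c95ccd2c958158d54881d1d8d2d8d548cc59419d14d2dca1]]

noncomputable def n2760 : Ent := ⟨e2760, noF, [], [], [(8, 17, [6903326391201334775872065844685381424292761054348340378595029940985857, 0]), (9, 17, [6903326391201334775872065844685381424292761054348340378595029940989953, 0])]⟩

def c2760 : PLift (Cov.check n2760.C.D v2760 = true) := ⟨by decide +kernel⟩

def b2760 : PLift (entF (fidx ts) 400 2760 n2760 = true) := ⟨by decide +kernel⟩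

theorem g2760 : GoodF (fidx ts) 400 2760 := GoodF.ofV v2760 n2760 c2760.down b2760.down

/-- 4596446:2216/1 -/
noncomputable def e2761 : SCfg where
  D := {
    a := 7
    L := 10
    kp := 7
    inn := [(0, 1), (0, 2), (1, 0), (1, 2), (2, 0), (2, 1), (2, 3), (2, 4), (2, 6), (3, 2), (3, 5), (3,
      6), (4, 2), (5, 3), (5, 6), (6, 2), (6, 3), (6, 5)]
    mix := [(0, 0), (0, 1), (1, 1), (1, 2), (1, 3), (2, 0), (2, 3), (2, 4), (2, 5), (3, 4), (3, 6), (3,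
      7), (4, 0), (4, 5), (4, 8), (5, 6), (5, 9), (6, 2), (6, 3), (6, 9)]
    cl := [0, 1, 2, 0, 0, 5, 3, 6, 7, 4]
    chq := [(0, 3), (0, 4), (3, 0), (4, 0)]
    rng := [(0, 1), (0, 8), (1, 0), (1, 2), (2, 1), (2, 3), (2, 9), (3, 2), (4, 5), (4, 7), (5, 4), (5,
      8), (6, 7), (6, 9), (7, 4), (7, 6), (8, 0), (8, 5), (9, 2), (9, 6)]
    lev := [] }
  links := [[1, 2, 7, 8], [2, 0, 8, 9, 10], [7, 0, 1, 10, 6, 3, 11, 12, 4], [11, 2, 6, 5, 13, 14], [7, 2,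
    12, 15], [13, 3, 6, 16], [16, 5, 3, 2, 10, 9]]
  P := {
    a := 7
    N := 17
    nb := [390, 1797, 7387, 26724, 36996, 73800, 67116, 33045, 643, 66882, 582, 20492, 34836, 81960,
      10248, 4240, 8800]
    tri := [(0, 1, 2), (0, 1, 8), (0, 2, 7), (0, 7, 8), (1, 2, 10), (1, 8, 9), (1, 9, 10), (2, 3, 6),
      (2, 3, 11), (2, 4, 7), (2, 4, 12), (2, 6, 10), (2, 11, 12), (3, 5, 6), (3, 5, 13), (3, 11,
      14), (3, 13, 14), (4, 7, 15), (4, 12, 15), (5, 6, 16), (5, 13, 16), (6, 9, 10), (6, 9, 16)]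
    fin := [0, 0, 0, 0, 0, 0, 0, 0, 8, 9, 0, 0, 12, 13, 14, 15, 16]
    chd := [(0, 13), (0, 16)]
    steps := [(0, 1), (0, 2), (0, 3), (0, 4), (0, 5), (0, 7), (0, 10), (0, 6), (0, 11)] }
  rep := [0, 8, 9, 13, 16, 12, 14, 15]

noncomputable def v2761 : Cov.CovD where
  P := 3
  N := 5
  pl := [1, 2, 5, 7, 8]
  lev := [⟨[], [], [], [1], [(0, 0, [3, 4])]⟩,
    ⟨[], [(0, 0)], [], [1, 2], [(3, 0, [3, 4])]⟩,
    ⟨[(0, 1)], [(0, 0), (1, 0)], [(0, 0)], [5], [(0, 0, [3, 4]), (3, 0, [3, 4]), (4, 0, [3,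
      4])]⟩,
    ⟨[(0, 2), (1, 2)], [(2, 0), (2, 3)], [(0, 3)], [6], [(4, 0, [3, 4]), (6, 3, [0])]⟩,
    ⟨[(0, 2), (1, 2), (2, 3)], [(0, 0), (2, 0)], [], [5, 7], [(0, 0, [3, 4])]⟩,
    ⟨[(2, 3)], [(3, 0), (3, 3), (3, 4)], [(3, 4)], [], [(6, 3, [0]), (9, 4, [0])]⟩,
    ⟨[(0, 2), (1, 2), (2, 3), (2, 4), (2, 5), (3, 5)], [(1, 0), (2, 0), (2, 4), (3, 0), (3,
      3), (3, 4), (5, 0), (5, 3), (5, 4)], [(0, 4)], [2], [(3, 0, [3, 4]), (9, 4, [0])]⟩]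
  Ta := [((0, 1), 0, 1), ((0, 8), 0, 7), ((3, 2), 0, 2), ((4, 5), 0, 5), ((4, 7), 0, 6)]
  Tb := [((0, 1, 8), 0, 1, 7), ((1, 0, 2), 1, 0, 2), ((2, 1, 3), 2, 1, 0), ((2, 1, 9), 2, 1, 4),
    ((2, 3, 9), 2, 0, 4), ((4, 5, 7), 0, 5, 6), ((5, 4, 8), 5, 0, 7), ((6, 7, 9), 3, 6, 4),
    ((7, 4, 6), 6, 0, 3), ((8, 0, 5), 7, 0, 5), ((9, 2, 6), 4, 2, 3)]
  Tc := [(0, 3, 4)]
  Td := [((0, 3), (0, 1), 1), ((0, 3), (0, 8), 7), ((0, 3), (3, 2), 2), ((0, 3), (4, 5), 5), ((0,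
    3), (4, 7), 6), ((0, 4), (0, 1), 1), ((0, 4), (0, 8), 7), ((0, 4), (3, 2), 2), ((0, 4),
    (4, 5), 5), ((0, 4), (4, 7), 6), ((3, 0), (6, 7), 6), ((3, 0), (6, 9), 4), ((4, 0), (9,
    2), 2), ((4, 0), (9, 6), 3)]
  G := [[0, 0x88a88ac148446446c188a44684cee1a4c, 0,
    0xc112c124c288acb12112184ce4484ceed644418c1498484c,
    0x811a1188c8a2e226e71161434682121322622a98184988c88ca3a1c], [0, 0, 0x8a2e1184ce11684,
    0x1214461512188a1312184ce19e48, 0x2112215811a11a41ba11811811ee84], [0, 0, 0,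
    0xc1192526a4841415c11c11e18c1ac1c16ca4c, 0xa11a11aa11881da181147818e621221a1921a1ae894]]

noncomputable def n2761 : Ent := ⟨e2761, noF, [], [], []⟩

def c2761 : PLift (Cov.check n2761.C.D v2761 = true) := ⟨by decide +kernel⟩

def b2761 : PLift (entF (fidx ts) 400 2761 n2761 = true) := ⟨by decide +kernel⟩

theorem g2761 : GoodF (fidx ts) 400 2761 := GoodF.ofV v2761 n2761 c2761.down b2761.down

/-- 4596446:2216 -/
noncomputable def e2762 : SCfg where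
  D := {
    a := 7
    L := 11
    kp := 8
    inn := [(0, 1), (0, 2), (1, 0), (1, 2), (2, 0), (2, 1), (2, 3), (2, 4), (2, 6), (3, 2), (3, 5), (3,
      6), (4, 2), (5, 3), (5, 6), (6, 2), (6, 3), (6, 5)]
    mix := [(0, 0), (0, 1), (1, 1), (1, 2), (1, 3), (2, 0), (2, 3), (2, 4), (2, 5), (3, 4), (3, 6), (3,
      7), (4, 0), (4, 5), (4, 8), (5, 6), (5, 9), (6, 3), (6, 9), (6, 10)]
    cl := [0, 1, 5, 0, 0, 2, 3, 6, 7, 4, 8]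
    chq := [(0, 3), (0, 4), (3, 0), (4, 0)]
    rng := [(0, 1), (0, 8), (1, 0), (1, 2), (2, 1), (2, 3), (3, 2), (3, 10), (4, 5), (4, 7), (5, 4),
      (5, 8), (6, 7), (6, 9), (7, 4), (7, 6), (8, 0), (8, 5), (9, 6), (9, 10), (10, 3), (10, 9)]
    lev := [] }
  links := [[1, 2, 7, 8], [2, 0, 8, 9, 10], [7, 0, 1, 10, 6, 3, 11, 12, 4], [11, 2, 6, 5, 13, 14], [7, 2,
    12, 15], [13, 3, 6, 16], [16, 5, 3, 2, 10, 17]]
  P := {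
    a := 7
    N := 18
    nb := [390, 1797, 7387, 26724, 36996, 73800, 197676, 33045, 643, 1282, 131654, 20492, 34836,
      81960, 10248, 4240, 139360, 66624]
    tri := [(0, 1, 2), (0, 1, 8), (0, 2, 7), (0, 7, 8), (1, 2, 10), (1, 8, 9), (1, 9, 10), (2, 3, 6),
      (2, 3, 11), (2, 4, 7), (2, 4, 12), (2, 6, 10), (2, 11, 12), (3, 5, 6), (3, 5, 13), (3, 11,
      14), (3, 13, 14), (4, 7, 15), (4, 12, 15), (5, 6, 16), (5, 13, 16), (6, 10, 17), (6, 16,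
      17)]
    fin := [0, 0, 0, 0, 0, 0, 0, 0, 8, 9, 0, 0, 12, 13, 14, 15, 16, 17]
    chd := [(0, 13), (0, 16)]
    steps := [(0, 1), (0, 2), (0, 3), (0, 4), (0, 5), (0, 6), (0, 7), (0, 10), (0, 11)] }
  rep := [0, 8, 12, 13, 16, 9, 14, 15, 17]

noncomputable def v2762 : Cov.CovD where
  P := 3
  N := 6
  pl := [1, 2, 5, 7, 8, 10]
  lev := [⟨[], [], [], [1], [(0, 0, [3, 4])]⟩,
    ⟨[], [(0, 0)], [], [1, 5], [(3, 0, [3, 4])]⟩,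
    ⟨[(0, 1)], [(0, 0), (1, 0)], [(0, 0)], [2], [(0, 0, [3, 4]), (3, 0, [3, 4]), (4, 0, [3,
      4])]⟩,
    ⟨[(0, 2), (1, 2)], [(2, 0), (2, 3)], [(0, 3)], [6], [(4, 0, [3, 4]), (6, 3, [0])]⟩,
    ⟨[(0, 2), (1, 2), (2, 3)], [(0, 0), (2, 0)], [], [2, 7], [(0, 0, [3, 4])]⟩,
    ⟨[(2, 3)], [(3, 0), (3, 3), (3, 4)], [(3, 4)], [], [(6, 3, [0]), (9, 4, [0])]⟩,
    ⟨[(0, 2), (1, 2), (2, 3), (2, 4), (2, 5), (3, 5)], [(1, 0), (2, 0), (2, 4), (3, 0), (3,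
      3), (3, 4), (5, 0), (5, 3), (5, 4)], [(0, 4)], [8], [(3, 0, [3, 4]), (9, 4, [0])]⟩]
  Ta := [((0, 1), 0, 1), ((0, 8), 0, 7), ((3, 2), 0, 5), ((3, 10), 0, 8), ((4, 5), 0, 2), ((4,
    7), 0, 6)]
  Tb := [((0, 1, 8), 0, 1, 7), ((1, 0, 2), 1, 0, 5), ((2, 1, 3), 5, 1, 0), ((3, 2, 10), 0, 5, 8),
    ((4, 5, 7), 0, 2, 6), ((5, 4, 8), 2, 0, 7), ((6, 7, 9), 3, 6, 4), ((7, 4, 6), 6, 0, 3),
    ((8, 0, 5), 7, 0, 2), ((9, 6, 10), 4, 3, 8), ((10, 3, 9), 8, 0, 4)]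
  Tc := [(0, 3, 4)]
  Td := [((0, 3), (0, 1), 1), ((0, 3), (0, 8), 7), ((0, 3), (3, 2), 5), ((0, 3), (3, 10), 8),
    ((0, 3), (4, 5), 2), ((0, 3), (4, 7), 6), ((0, 4), (0, 1), 1), ((0, 4), (0, 8), 7), ((0,
    4), (3, 2), 5), ((0, 4), (3, 10), 8), ((0, 4), (4, 5), 2), ((0, 4), (4, 7), 6), ((3, 0),
    (6, 7), 6), ((3, 0), (6, 9), 4), ((4, 0), (9, 6), 3), ((4, 0), (9, 10), 8)]
  G := [[0, 0x14412461698c18a288cbc614a14c14466e8fa88e81c11c86eee458148ce2, 0,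
    0xe18a18e1a1c884f41614a144144444cf81c, 0x212e1261e1a6268f61c181b818a88e8ba14], [0, 0, 0,
    0xe11a11e11e418188194c44118611e114cee1d8cc, 0x42611e11a11c11eae11e11666e178811ac4], [0,
    0, 0x21a1c2e1e1ce1e1cc141ce618, 0x611e11e11e8118c14, 0x2112e11e11c11ea14]]

noncomputable def n2762 : Ent := ⟨e2762, noF, [], [], [(9, 17, [6903326391201334775872065844685381424292761054348340378595029940998145, 0])]⟩

def c2762 : PLift (Cov.check n2762.C.D v2762 = true) := ⟨by decide +kernel⟩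

def b2762 : PLift (entF (fidx ts) 400 2762 n2762 = true) := ⟨by decide +kernel⟩

theorem g2762 : GoodF (fidx ts) 400 2762 := GoodF.ofV v2762 n2762 c2762.down b2762.down

/-- 4595646:2217 -/
noncomputable def e2763 : SCfg where
  D := {
    a := 7
    L := 11
    kp := 9
    inn := [(0, 1), (0, 2), (1, 0), (1, 2), (2, 0), (2, 1), (2, 3), (2, 4), (2, 5), (2, 6), (3, 2), (3,
      4), (4, 2), (4, 3), (4, 6), (5, 2), (5, 6), (6, 2), (6, 4), (6, 5)]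
    mix := [(0, 0), (0, 1), (1, 1), (1, 2), (1, 3), (2, 0), (2, 3), (2, 4), (3, 4), (3, 5), (3, 6), (4,
      6), (4, 7), (4, 8), (5, 0), (5, 9), (6, 8), (6, 9), (6, 10)]
    cl := [0, 2, 8, 0, 1, 9, 4, 6, 3, 5, 7]
    chq := [(0, 3), (0, 7), (1, 3), (1, 4), (1, 6), (3, 0), (3, 1), (4, 1), (6, 1), (7, 0)]
    rng := [(0, 1), (0, 9), (1, 0), (1, 2), (2, 1), (2, 3), (3, 2), (3, 4), (4, 3), (4, 5), (5, 4), (5,
      6), (6, 5), (6, 7), (7, 6), (7, 8), (8, 7), (8, 10), (9, 0), (9, 10), (10, 8), (10, 9)]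
    lev := [] }
  links := [[1, 2, 7, 8], [2, 0, 8, 9, 10], [7, 0, 1, 10, 11, 3, 4, 6, 5], [4, 2, 11, 12, 13], [6, 2, 3,
    13, 14, 15], [7, 2, 6, 16], [16, 5, 2, 4, 15, 17]]
  P := {
    a := 7
    N := 18
    nb := [390, 1797, 3323, 14356, 57420, 65732, 229428, 65829, 643, 1282, 2566, 5132, 10248, 20504,
      40976, 147536, 131296, 98368]
    tri := [(0, 1, 2), (0, 1, 8), (0, 2, 7), (0, 7, 8), (1, 2, 10), (1, 8, 9), (1, 9, 10), (2, 3, 4),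
      (2, 3, 11), (2, 4, 6), (2, 5, 6), (2, 5, 7), (2, 10, 11), (3, 4, 13), (3, 11, 12), (3, 12,
      13), (4, 6, 15), (4, 13, 14), (4, 14, 15), (5, 6, 16), (5, 7, 16), (6, 15, 17), (6, 16, 17)]
    fin := [0, 0, 0, 3, 3, 0, 0, 0, 8, 9, 0, 3, 12, 13, 14, 15, 16, 17]
    chd := [(0, 15), (0, 17), (3, 13), (3, 14), (3, 15)]
    steps := [(0, 1), (0, 2), (0, 5), (0, 6), (0, 7), (0, 10), (3, 4), (3, 11)] }
  rep := [0, 3, 8, 15, 13, 16, 14, 17, 9, 12]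

noncomputable def v2763 : Cov.CovD where
  P := 3
  N := 7
  pl := [1, 2, 5, 9]
  lev := [⟨[], [], [], [2], [(0, 0, [3, 7])]⟩,
    ⟨[], [(0, 0)], [], [2, 8], [(3, 0, [3, 7])]⟩,
    ⟨[(0, 1)], [(0, 0), (0, 1), (1, 0), (1, 1)], [(0, 0), (0, 1)], [], [(0, 0, [3, 7]), (3,
      0, [3, 7]), (4, 1, [3, 4, 6])]⟩,
    ⟨[(0, 2), (1, 2)], [(2, 0), (2, 1), (2, 4)], [(1, 4)], [9], [(4, 1, [3, 4, 6]), (6, 4,
      [1])]⟩,
    ⟨[(0, 2), (1, 2), (2, 3)], [(2, 0), (2, 1), (2, 3), (2, 4), (2, 6), (3, 1), (3, 3), (3,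
      4), (3, 6)], [(3, 4), (3, 6), (4, 6)], [], [(6, 4, [1]), (7, 6, [1]), (8, 3, [0, 1])]⟩,
    ⟨[(0, 2), (1, 2), (2, 3), (2, 4)], [(0, 0), (2, 0), (2, 1)], [], [5], [(0, 0, [3, 7])]⟩,
    ⟨[(0, 2), (1, 2), (2, 3), (2, 4), (2, 5), (3, 4), (4, 5)], [(2, 0), (2, 1), (2, 3), (2,
      7), (4, 3), (4, 4), (4, 6), (4, 7), (5, 0), (5, 3), (5, 7)], [(3, 7)], [5], [(8, 3, [0,
      1]), (10, 7, [0])]⟩]
  Ta := [((0, 1), 0, 2), ((0, 9), 0, 5), ((3, 2), 0, 8), ((3, 4), 0, 1)]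
  Tb := [((0, 1, 9), 0, 2, 5), ((1, 0, 2), 2, 0, 8), ((2, 1, 3), 8, 2, 0), ((3, 2, 4), 0, 8, 1),
    ((4, 3, 5), 1, 0, 9), ((5, 4, 6), 9, 1, 4), ((6, 5, 7), 4, 9, 6), ((7, 6, 8), 6, 4, 3),
    ((8, 7, 10), 3, 6, 7), ((9, 0, 10), 5, 0, 7), ((10, 8, 9), 7, 3, 5)]
  Tc := [(0, 3, 7), (1, 3, 4), (1, 3, 6), (1, 4, 6), (3, 0, 1)]
  Td := [((0, 3), (0, 1), 2), ((0, 3), (0, 9), 5), ((0, 3), (3, 2), 8), ((0, 3), (3, 4), 1), ((0,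
    7), (0, 1), 2), ((0, 7), (0, 9), 5), ((0, 7), (3, 2), 8), ((0, 7), (3, 4), 1), ((1, 3),
    (4, 3), 0), ((1, 3), (4, 5), 9), ((1, 4), (4, 3), 0), ((1, 4), (4, 5), 9), ((1, 6), (4,
    3), 0), ((1, 6), (4, 5), 9), ((3, 0), (8, 7), 6), ((3, 0), (8, 10), 7), ((3, 1), (8, 7),
    6), ((3, 1), (8, 10), 7), ((4, 1), (6, 5), 9), ((4, 1), (6, 7), 6), ((6, 1), (7, 6), 4),
    ((6, 1), (7, 8), 3), ((7, 0), (10, 8), 3), ((7, 0), (10, 9), 5)]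
  G := [[0, 0, 0x1162116211c2d811c2411a211a29c64, 0x24716227222479c22f79a283d2288a8c14,
    0x2448642228b5622f28b1a28bd3c223dc12], [0, 0x11a1116111c1e2116111a11161e8c4, 0,
    0x11c211a21162d4116211a211c2d8c1, 0x116211a211a2d4116211a211a2d8a2]]

noncomputable def n2763 : Ent := ⟨e2763, noF, [], [], []⟩

def c2763 : PLift (Cov.check n2763.C.D v2763 = true) := ⟨by decide +kernel⟩

def b2763 : PLift (entF (fidx ts) 400 2763 n2763 = true) := ⟨by decide +kernel⟩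

theorem g2763 : GoodF (fidx ts) 400 2763 := GoodF.ofV v2763 n2763 c2763.down b2763.down

/-- 4866446:2218/1 -/
noncomputable def e2764 : SCfg where
  D := {
    a := 7
    L := 10
    kp := 7
    inn := [(0, 1), (0, 3), (1, 0), (1, 2), (1, 3), (1, 6), (2, 1), (2, 4), (2, 6), (3, 0), (3, 1), (3,
      5), (4, 2), (4, 6), (5, 3), (6, 1), (6, 2), (6, 4)]
    mix := [(0, 0), (0, 1), (1, 1), (1, 2), (1, 3), (1, 4), (2, 2), (2, 5), (2, 6), (3, 0), (3, 4), (3,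
      7), (4, 5), (4, 8), (5, 0), (5, 7), (5, 9), (6, 1), (6, 8), (6, 9)]
    cl := [1, 0, 0, 6, 1, 3, 7, 4, 5, 2]
    chq := [(0, 3), (2, 3), (3, 0), (3, 2)]
    rng := [(0, 1), (0, 9), (1, 0), (1, 9), (2, 3), (2, 6), (3, 2), (3, 4), (4, 3), (4, 7), (5, 6), (5,
      8), (6, 2), (6, 5), (7, 4), (7, 9), (8, 5), (8, 9), (9, 0), (9, 1), (9, 7), (9, 8)]
    lev := [] }
  links := [[1, 3, 7, 8], [3, 0, 8, 6, 2, 9, 10, 11], [9, 1, 6, 4, 12, 13], [7, 0, 1, 11, 14, 5], [12, 2,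
    6, 15], [7, 3, 14, 16], [15, 4, 2, 1, 8, 16]]
  P := {
    a := 7
    N := 17
    nb := [394, 3917, 12882, 18595, 36932, 82056, 98582, 65833, 65731, 9222, 2562, 17418, 40980, 4612,
      67624, 69712, 49632]
    tri := [(0, 1, 3), (0, 1, 8), (0, 3, 7), (0, 7, 8), (1, 2, 6), (1, 2, 9), (1, 3, 11), (1, 6, 8),
      (1, 9, 10), (1, 10, 11), (2, 4, 6), (2, 4, 12), (2, 9, 13), (2, 12, 13), (3, 5, 7), (3, 5,
      14), (3, 11, 14), (4, 6, 15), (4, 12, 15), (5, 7, 16), (5, 14, 16), (6, 8, 16), (6, 15, 16)]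
    fin := [0, 1, 1, 0, 4, 0, 4, 0, 1, 1, 10, 0, 12, 13, 14, 15, 4]
    chd := [(1, 12), (12, 4)]
    steps := [(0, 3), (0, 5), (0, 7), (0, 11), (1, 2), (1, 8), (1, 9), (4, 6), (4, 16)] }
  rep := [1, 0, 4, 12, 14, 15, 10, 13]

noncomputable def v2764 : Cov.CovD where
  P := 3
  N := 5
  pl := [3, 6, 7, 8]
  lev := [⟨[], [], [(0, 1)], [], [(0, 1, []), (1, 0, [3])]⟩,
    ⟨[], [(0, 0), (0, 1)], [(0, 0), (0, 1)], [6], [(1, 0, [3]), (2, 0, [3]), (4, 1, [])]⟩,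
    ⟨[(0, 1)], [(1, 0), (1, 1), (1, 3)], [(0, 3)], [7], [(2, 0, [3]), (5, 3, [0, 2])]⟩,
    ⟨[(0, 1), (1, 2)], [(0, 0), (0, 1), (1, 0), (1, 1)], [(1, 1)], [4], [(0, 1, []), (4, 1,
      [])]⟩,
    ⟨[(1, 2)], [(2, 0), (2, 3)], [], [5], [(5, 3, [0, 2])]⟩,
    ⟨[(0, 3), (1, 3)], [(0, 1), (3, 1), (3, 2)], [(1, 2)], [4], [(0, 1, []), (9, 2, [3])]⟩,
    ⟨[(0, 1), (1, 2), (1, 3), (1, 4), (2, 4)], [(0, 0), (1, 0), (1, 1), (1, 2), (2, 0), (2,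
      2), (2, 3), (4, 0), (4, 2), (4, 3), (5, 2)], [(0, 2)], [5], [(1, 0, [3]), (9, 2, [3])]⟩]
  Ta := [((0, 1), 1, 0), ((0, 9), 1, 2), ((1, 0), 0, 1), ((1, 9), 0, 2), ((2, 3), 0, 6), ((2, 6),
    0, 7), ((4, 3), 1, 6), ((4, 7), 1, 4)]
  Tb := [((0, 1, 9), 1, 0, 2), ((1, 0, 9), 0, 1, 2), ((2, 3, 6), 0, 6, 7), ((3, 2, 4), 6, 0, 1),
    ((4, 3, 7), 1, 6, 4), ((5, 6, 8), 3, 7, 5), ((6, 2, 5), 7, 0, 3), ((7, 4, 9), 4, 1, 2),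
    ((8, 5, 9), 5, 3, 2), ((9, 0, 1), 2, 1, 0), ((9, 0, 7), 2, 1, 4), ((9, 0, 8), 2, 1, 5),
    ((9, 1, 7), 2, 0, 4), ((9, 1, 8), 2, 0, 5), ((9, 7, 8), 2, 4, 5)]
  Tc := [(3, 0, 2)]
  Td := [((0, 3), (1, 0), 1), ((0, 3), (1, 9), 2), ((0, 3), (2, 3), 6), ((0, 3), (2, 6), 7), ((2,
    3), (9, 0), 1), ((2, 3), (9, 1), 0), ((2, 3), (9, 7), 4), ((2, 3), (9, 8), 5), ((3, 0),
    (5, 6), 7), ((3, 0), (5, 8), 5), ((3, 2), (5, 6), 7), ((3, 2), (5, 8), 5)]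
  G := [[0, 0xc4244c44cc8e614888c8e8444c4ec1a2, 0x88c44cccce1128, 0x142c1291421825c12c42cd28,
    0xa8421451a842149118883118159184118895c882818169de4], [0, 0,
    0x66c44c22ce1188aaaa226e11c4, 0,
    0xa81a115a81a115229a8ca1457a818281a119881a115a848121c9fc2], [0, 0, 0,
    0x54251292982912929429129982512cce4, 0x38229531452988851191c59888959145ca2888511816924c],
    [0, 0, 0, 0, 0x3822953145288295a1451888963145e384239219c8888a8b8121a1b928885118169ec2]]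

noncomputable def n2764 : Ent := ⟨e2764, noF, [], [], []⟩

def c2764 : PLift (Cov.check n2764.C.D v2764 = true) := ⟨by decide +kernel⟩

def b2764 : PLift (entF (fidx ts) 400 2764 n2764 = true) := ⟨by decide +kernel⟩

theorem g2764 : GoodF (fidx ts) 400 2764 := GoodF.ofV v2764 n2764 c2764.down b2764.down

/-- 4866446:2218/2 -/
noncomputable def e2765 : SCfg where
  D := {
    a := 7
    L := 10
    kp := 7
    inn := [(0, 1), (0, 3), (1, 0), (1, 2), (1, 3), (1, 6), (2, 1), (2, 4), (2, 6), (3, 0), (3, 1), (3,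
      5), (4, 2), (4, 6), (5, 3), (6, 1), (6, 2), (6, 4)]
    mix := [(0, 0), (0, 1), (1, 1), (1, 2), (1, 3), (1, 4), (2, 2), (2, 5), (2, 6), (3, 0), (3, 4), (3,
      7), (4, 5), (4, 8), (5, 0), (5, 7), (5, 8), (6, 1), (6, 8), (6, 9)]
    cl := [1, 0, 0, 6, 1, 3, 7, 4, 2, 5]
    chq := [(0, 3), (3, 0), (3, 5), (5, 3)]
    rng := [(0, 1), (0, 8), (1, 0), (1, 9), (2, 3), (2, 6), (3, 2), (3, 4), (4, 3), (4, 7), (5, 6), (5,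
      8), (6, 2), (6, 5), (7, 4), (7, 8), (8, 0), (8, 5), (8, 7), (8, 9), (9, 1), (9, 8)]
    lev := [] }
  links := [[1, 3, 7, 8], [3, 0, 8, 6, 2, 9, 10, 11], [9, 1, 6, 4, 12, 13], [7, 0, 1, 11, 14, 5], [12, 2,
    6, 15], [7, 3, 14, 15], [15, 4, 2, 1, 8, 16]]
  P := {
    a := 7
    N := 17
    nb := [394, 3917, 12882, 18595, 36932, 49288, 98582, 33065, 65731, 9222, 2562, 17418, 40980, 4612,
      34856, 86256, 33088]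
    tri := [(0, 1, 3), (0, 1, 8), (0, 3, 7), (0, 7, 8), (1, 2, 6), (1, 2, 9), (1, 3, 11), (1, 6, 8),
      (1, 9, 10), (1, 10, 11), (2, 4, 6), (2, 4, 12), (2, 9, 13), (2, 12, 13), (3, 5, 7), (3, 5,
      14), (3, 11, 14), (4, 6, 15), (4, 12, 15), (5, 7, 15), (5, 14, 15), (6, 8, 16), (6, 15, 16)]
    fin := [0, 1, 1, 0, 4, 0, 4, 0, 1, 1, 10, 0, 12, 13, 14, 15, 4]
    chd := [(1, 12), (12, 4)]
    steps := [(0, 3), (0, 5), (0, 7), (0, 11), (1, 2), (1, 8), (1, 9), (4, 6), (4, 16)] }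
  rep := [1, 0, 15, 12, 14, 4, 10, 13]

noncomputable def v2765 : Cov.CovD where
  P := 3
  N := 5
  pl := [3, 6, 7, 8]
  lev := [⟨[], [], [(0, 1)], [], [(0, 1, []), (1, 0, [3])]⟩,
    ⟨[], [(0, 0), (0, 1)], [(0, 0), (0, 1)], [6], [(1, 0, [3]), (2, 0, [3]), (4, 1, [])]⟩,
    ⟨[(0, 1)], [(1, 0), (1, 1), (1, 3)], [(0, 3)], [7], [(2, 0, [3]), (5, 3, [0, 5])]⟩,
    ⟨[(0, 1), (1, 2)], [(0, 0), (0, 1), (1, 0), (1, 1)], [(1, 1)], [4], [(0, 1, []), (4, 1,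
      [])]⟩,
    ⟨[(1, 2)], [(2, 0), (2, 3)], [], [2], [(5, 3, [0, 5])]⟩,
    ⟨[(0, 3), (1, 3)], [(0, 1), (3, 1)], [], [2, 4], [(0, 1, [])]⟩,
    ⟨[(0, 1), (1, 2), (1, 3), (1, 4), (2, 4)], [(0, 0), (1, 0), (1, 1), (1, 5), (2, 0), (2,
      3), (2, 5), (4, 0), (4, 3), (4, 5)], [(0, 5)], [2], [(1, 0, [3]), (9, 5, [3])]⟩]
  Ta := [((0, 1), 1, 0), ((0, 8), 1, 2), ((1, 0), 0, 1), ((1, 9), 0, 5), ((2, 3), 0, 6), ((2, 6),
    0, 7), ((4, 3), 1, 6), ((4, 7), 1, 4)]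
  Tb := [((0, 1, 8), 1, 0, 2), ((1, 0, 9), 0, 1, 5), ((2, 3, 6), 0, 6, 7), ((3, 2, 4), 6, 0, 1),
    ((4, 3, 7), 1, 6, 4), ((5, 6, 8), 3, 7, 2), ((6, 2, 5), 7, 0, 3), ((7, 4, 8), 4, 1, 2),
    ((8, 0, 5), 2, 1, 3), ((8, 0, 7), 2, 1, 4), ((8, 0, 9), 2, 1, 5), ((8, 5, 7), 2, 3, 4),
    ((8, 5, 9), 2, 3, 5), ((8, 7, 9), 2, 4, 5), ((9, 1, 8), 5, 0, 2)]
  Tc := [(3, 0, 5)]
  Td := [((0, 3), (1, 0), 1), ((0, 3), (1, 9), 5), ((0, 3), (2, 3), 6), ((0, 3), (2, 6), 7), ((3,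
    0), (5, 6), 7), ((3, 0), (5, 8), 2), ((3, 5), (5, 6), 7), ((3, 5), (5, 8), 2), ((5, 3),
    (9, 1), 0), ((5, 3), (9, 8), 2)]
  G := [[0, 0x4888c4484ca14888c4484cc162, 0x4484cc888a5128, 0x144118514411494484c4181c5d28,
    0x2882185128821851188112518211858828125de8], [0, 0, 0x2242624446912888aa482c91c4, 0,
    0x1224122a115a11122883a2185f1821129a8112292888a2182a9bc4], [0, 0,
    0x244462848652c4212cc82824888cc4446cc888a4484ccc69,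
    0x488894111c52188891111c9248111891848119ce4, 0x182112521821129218811891818a1181a9ce4],
    [0, 0, 0x2848622426588a44a845c424888a5668864892888a2484a9c82c429ec6, 0,
    0x11a2232115a2311122351221125e1881289122a119aca81a119446]]

noncomputable def n2765 : Ent := ⟨e2765, noF, [], [], []⟩

def c2765 : PLift (Cov.check n2765.C.D v2765 = true) := ⟨by decide +kernel⟩

def b2765 : PLift (entF (fidx ts) 400 2765 n2765 = true) := ⟨by decide +kernel⟩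

theorem g2765 : GoodF (fidx ts) 400 2765 := GoodF.ofV v2765 n2765 c2765.down b2765.down

/-- 4866446:2218/3 -/
noncomputable def e2766 : SCfg where
  D := {
    a := 7
    L := 10
    kp := 7
    inn := [(0, 1), (0, 3), (1, 0), (1, 2), (1, 3), (1, 6), (2, 1), (2, 4), (2, 6), (3, 0), (3, 1), (3,
      5), (4, 2), (4, 6), (5, 3), (6, 1), (6, 2), (6, 4)]
    mix := [(0, 0), (0, 1), (1, 1), (1, 2), (1, 3), (1, 4), (2, 2), (2, 5), (2, 6), (3, 0), (3, 4), (3,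
      7), (4, 5), (4, 8), (5, 0), (5, 5), (5, 7), (6, 1), (6, 8), (6, 9)]
    cl := [1, 0, 0, 6, 1, 2, 7, 3, 4, 5]
    chq := [(0, 2), (2, 0), (2, 5), (5, 2)]
    rng := [(0, 1), (0, 5), (1, 0), (1, 9), (2, 3), (2, 6), (3, 2), (3, 4), (4, 3), (4, 7), (5, 0), (5,
      6), (5, 7), (5, 8), (6, 2), (6, 5), (7, 4), (7, 5), (8, 5), (8, 9), (9, 1), (9, 8)]
    lev := [] }
  links := [[1, 3, 7, 8], [3, 0, 8, 6, 2, 9, 10, 11], [9, 1, 6, 4, 12, 13], [7, 0, 1, 11, 14, 5], [12, 2,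
    6, 15], [7, 3, 14, 12], [15, 4, 2, 1, 8, 16]]
  P := {
    a := 7
    N := 17
    nb := [394, 3917, 12882, 18595, 36932, 20616, 98582, 4393, 65731, 9222, 2562, 17418, 57524, 4612,
      6184, 69712, 33088]
    tri := [(0, 1, 3), (0, 1, 8), (0, 3, 7), (0, 7, 8), (1, 2, 6), (1, 2, 9), (1, 3, 11), (1, 6, 8),
      (1, 9, 10), (1, 10, 11), (2, 4, 6), (2, 4, 12), (2, 9, 13), (2, 12, 13), (3, 5, 7), (3, 5,
      14), (3, 11, 14), (4, 6, 15), (4, 12, 15), (5, 7, 12), (5, 12, 14), (6, 8, 16), (6, 15, 16)]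
    fin := [0, 1, 1, 0, 4, 0, 4, 0, 1, 1, 10, 0, 12, 13, 14, 15, 4]
    chd := [(1, 12), (12, 4)]
    steps := [(0, 3), (0, 5), (0, 7), (0, 11), (1, 2), (1, 8), (1, 9), (4, 6), (4, 16)] }
  rep := [1, 0, 12, 14, 15, 4, 10, 13]

noncomputable def v2766 : Cov.CovD where
  P := 3
  N := 5
  pl := [3, 6, 7, 8]
  lev := [⟨[], [], [(0, 1)], [], [(0, 1, []), (1, 0, [2])]⟩,
    ⟨[], [(0, 0), (0, 1)], [(0, 0), (0, 1)], [6], [(1, 0, [2]), (2, 0, [2]), (4, 1, [])]⟩,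
    ⟨[(0, 1)], [(1, 0), (1, 1), (1, 2)], [(0, 2)], [7], [(2, 0, [2]), (5, 2, [0, 5])]⟩,
    ⟨[(0, 1), (1, 2)], [(0, 0), (0, 1), (1, 0), (1, 1)], [(1, 1)], [3], [(0, 1, []), (4, 1,
      [])]⟩,
    ⟨[(1, 2)], [(2, 0), (2, 2)], [], [4], [(5, 2, [0, 5])]⟩,
    ⟨[(0, 3), (1, 3)], [(0, 1), (2, 2), (3, 1), (3, 2), (4, 2)], [(1, 2)], [3], [(0, 1,
      []), (5, 2, [0, 5])]⟩,
    ⟨[(0, 1), (1, 2), (1, 3), (1, 4), (2, 4)], [(0, 0), (1, 0), (1, 1), (1, 5), (2, 0), (2,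
      2), (2, 5), (4, 0), (4, 2), (4, 5)], [(0, 5)], [4], [(1, 0, [2]), (9, 5, [2])]⟩]
  Ta := [((0, 1), 1, 0), ((0, 5), 1, 2), ((1, 0), 0, 1), ((1, 9), 0, 5), ((2, 3), 0, 6), ((2, 6),
    0, 7), ((4, 3), 1, 6), ((4, 7), 1, 3)]
  Tb := [((0, 1, 5), 1, 0, 2), ((1, 0, 9), 0, 1, 5), ((2, 3, 6), 0, 6, 7), ((3, 2, 4), 6, 0, 1),
    ((4, 3, 7), 1, 6, 3), ((5, 0, 6), 2, 1, 7), ((5, 0, 7), 2, 1, 3), ((5, 0, 8), 2, 1, 4),
    ((5, 6, 7), 2, 7, 3), ((5, 6, 8), 2, 7, 4), ((5, 7, 8), 2, 3, 4), ((6, 2, 5), 7, 0, 2),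
    ((7, 4, 5), 3, 1, 2), ((8, 5, 9), 4, 2, 5), ((9, 1, 8), 5, 0, 4)]
  Tc := [(2, 0, 5)]
  Td := [((0, 2), (1, 0), 1), ((0, 2), (1, 9), 5), ((0, 2), (2, 3), 6), ((0, 2), (2, 6), 7), ((2,
    0), (5, 0), 1), ((2, 0), (5, 6), 7), ((2, 0), (5, 7), 3), ((2, 0), (5, 8), 4), ((2, 5),
    (5, 0), 1), ((2, 5), (5, 6), 7), ((2, 5), (5, 7), 3), ((2, 5), (5, 8), 4), ((5, 2), (9,
    1), 0), ((5, 2), (9, 8), 4)]
  G := [[0, 0xa828c2424ca1ccc821664a4c2868c6186, 0x11c11cc11881411c69c24,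
    0x2828c2121c512828c2421c91c4, 0x229841229841c848ac141a51e8], [0, 0,
    0x11611ac1141812e1611a11ac1141812e1ac4, 0, 0x48e2a41e1a518828a81c48184818c161a1b46], [0,
    0, 0x11c11ca111c11cc1c24, 0x242492121954212191411d1c18e2424548282498282898cc9,
    0x9151a12418419a4141952b818a82584834111a98ec], [0, 0,
    0x11a211164111681e181214e1181214e1ac4, 0,
    0x5812a414195212b8a1861a5b212aa16199ac5848351413588a]]

noncomputable def n2766 : Ent := ⟨e2766, noF, [], [], []⟩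

def c2766 : PLift (Cov.check n2766.C.D v2766 = true) := ⟨by decide +kernel⟩

def b2766 : PLift (entF (fidx ts) 400 2766 n2766 = true) := ⟨by decide +kernel⟩

theorem g2766 : GoodF (fidx ts) 400 2766 := GoodF.ofV v2766 n2766 c2766.down b2766.down

/-- 4866446:2218/4 -/
noncomputable def e2767 : SCfg where
  D := {
    a := 7
    L := 10
    kp := 7
    inn := [(0, 1), (0, 3), (1, 0), (1, 2), (1, 3), (1, 6), (2, 1), (2, 4), (2, 6), (3, 0), (3, 1), (3,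
      5), (4, 2), (4, 6), (5, 3), (6, 1), (6, 2), (6, 4)]
    mix := [(0, 0), (0, 1), (1, 1), (1, 2), (1, 3), (1, 4), (2, 2), (2, 5), (2, 6), (3, 0), (3, 4), (3,
      7), (4, 5), (4, 8), (5, 0), (5, 6), (5, 7), (6, 1), (6, 8), (6, 9)]
    cl := [1, 0, 0, 7, 1, 3, 2, 4, 5, 6]
    chq := [(0, 3), (3, 0), (3, 6), (6, 3)]
    rng := [(0, 1), (0, 6), (1, 0), (1, 9), (2, 3), (2, 6), (3, 2), (3, 4), (4, 3), (4, 7), (5, 6), (5,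
      8), (6, 0), (6, 2), (6, 5), (6, 7), (7, 4), (7, 6), (8, 5), (8, 9), (9, 1), (9, 8)]
    lev := [] }
  links := [[1, 3, 7, 8], [3, 0, 8, 6, 2, 9, 10, 11], [9, 1, 6, 4, 12, 13], [7, 0, 1, 11, 14, 5], [12, 2,
    6, 15], [7, 3, 14, 13], [15, 4, 2, 1, 8, 16]]
  P := {
    a := 7
    N := 17
    nb := [394, 3917, 12882, 18595, 36932, 24712, 98582, 8489, 65731, 9222, 2562, 17418, 40980, 21156,
      10280, 69712, 33088]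
    tri := [(0, 1, 3), (0, 1, 8), (0, 3, 7), (0, 7, 8), (1, 2, 6), (1, 2, 9), (1, 3, 11), (1, 6, 8),
      (1, 9, 10), (1, 10, 11), (2, 4, 6), (2, 4, 12), (2, 9, 13), (2, 12, 13), (3, 5, 7), (3, 5,
      14), (3, 11, 14), (4, 6, 15), (4, 12, 15), (5, 7, 13), (5, 13, 14), (6, 8, 16), (6, 15, 16)]
    fin := [0, 1, 1, 0, 4, 0, 4, 0, 1, 1, 10, 0, 12, 13, 14, 15, 4]
    chd := [(1, 12), (12, 4)]
    steps := [(0, 3), (0, 5), (0, 7), (0, 11), (1, 2), (1, 8), (1, 9), (4, 6), (4, 16)] }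
  rep := [1, 0, 13, 12, 14, 15, 4, 10]

noncomputable def v2767 : Cov.CovD where
  P := 3
  N := 5
  pl := [3, 6, 7, 8]
  lev := [⟨[], [], [(0, 1)], [], [(0, 1, []), (1, 0, [3])]⟩,
    ⟨[], [(0, 0), (0, 1)], [(0, 0), (0, 1)], [7], [(1, 0, [3]), (2, 0, [3]), (4, 1, [])]⟩,
    ⟨[(0, 1)], [(1, 0), (1, 1), (1, 3)], [(0, 3)], [2], [(2, 0, [3]), (5, 3, [0, 6])]⟩,
    ⟨[(0, 1), (1, 2)], [(0, 0), (0, 1), (1, 0), (1, 1)], [(1, 1)], [4], [(0, 1, []), (4, 1,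
      [])]⟩,
    ⟨[(1, 2)], [(2, 0), (2, 3)], [], [5], [(5, 3, [0, 6])]⟩,
    ⟨[(0, 3), (1, 3)], [(0, 1), (3, 1)], [], [2, 4], [(0, 1, [])]⟩,
    ⟨[(0, 1), (1, 2), (1, 3), (1, 4), (2, 4)], [(0, 0), (1, 0), (1, 1), (1, 6), (2, 0), (2,
      3), (2, 6), (4, 0), (4, 3), (4, 6)], [(0, 6)], [5], [(1, 0, [3]), (9, 6, [3])]⟩]
  Ta := [((0, 1), 1, 0), ((0, 6), 1, 2), ((1, 0), 0, 1), ((1, 9), 0, 6), ((2, 3), 0, 7), ((2, 6),
    0, 2), ((4, 3), 1, 7), ((4, 7), 1, 4)]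
  Tb := [((0, 1, 6), 1, 0, 2), ((1, 0, 9), 0, 1, 6), ((2, 3, 6), 0, 7, 2), ((3, 2, 4), 7, 0, 1),
    ((4, 3, 7), 1, 7, 4), ((5, 6, 8), 3, 2, 5), ((6, 0, 2), 2, 1, 0), ((6, 0, 5), 2, 1, 3),
    ((6, 0, 7), 2, 1, 4), ((6, 2, 5), 2, 0, 3), ((6, 2, 7), 2, 0, 4), ((6, 5, 7), 2, 3, 4),
    ((7, 4, 6), 4, 1, 2), ((8, 5, 9), 5, 3, 6), ((9, 1, 8), 6, 0, 5)]
  Tc := [(3, 0, 6)]
  Td := [((0, 3), (1, 0), 1), ((0, 3), (1, 9), 6), ((0, 3), (2, 3), 7), ((0, 3), (2, 6), 2), ((3,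
    0), (5, 6), 2), ((3, 0), (5, 8), 5), ((3, 6), (5, 6), 2), ((3, 6), (5, 8), 5), ((6, 3),
    (9, 1), 0), ((6, 3), (9, 8), 5)]
  G := [[0, 0x681264e4ca826924c4922ac12a8e868d48c8cc42c1e2, 0,
    0x28221251914131145813c41cc444a4da282242914c,
    0x281211528221259281211928421499c81c119c8c86c1c1699e4], [0, 0, 0, 0,
    0x2812115e81e1154888c4181c5be8121e199c111a8c86a12cbc2], [0, 0, 0x55c44ca199c81c61c28,
    0x1444a58413514846881165c28, 0x88519681186521898611916925898c51d1c98e4], [0, 0,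
    0x1433a28d144a556a1663a126c111cc9a61ac8, 0,
    0x386253161551885a6c15165a3818c3122c912986119169ac4]]

noncomputable def n2767 : Ent := ⟨e2767, noF, [], [], []⟩

def c2767 : PLift (Cov.check n2767.C.D v2767 = true) := ⟨by decide +kernel⟩

def b2767 : PLift (entF (fidx ts) 400 2767 n2767 = true) := ⟨by decide +kernel⟩

theorem g2767 : GoodF (fidx ts) 400 2767 := GoodF.ofV v2767 n2767 c2767.down b2767.down

/-- 4866446:2218 -/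
noncomputable def e2768 : SCfg where
  D := {
    a := 7
    L := 11
    kp := 8
    inn := [(0, 1), (0, 3), (1, 0), (1, 2), (1, 3), (1, 6), (2, 1), (2, 4), (2, 6), (3, 0), (3, 1), (3,
      5), (4, 2), (4, 6), (5, 3), (6, 1), (6, 2), (6, 4)]
    mix := [(0, 0), (0, 1), (1, 1), (1, 2), (1, 3), (1, 4), (2, 2), (2, 5), (2, 6), (3, 0), (3, 4), (3,
      7), (4, 5), (4, 8), (5, 0), (5, 7), (5, 9), (6, 1), (6, 8), (6, 10)]
    cl := [1, 0, 0, 6, 1, 3, 7, 2, 4, 8, 5]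
    chq := [(0, 3), (3, 0), (3, 5), (5, 3)]
    rng := [(0, 1), (0, 9), (1, 0), (1, 10), (2, 3), (2, 6), (3, 2), (3, 4), (4, 3), (4, 7), (5, 6),
      (5, 8), (6, 2), (6, 5), (7, 4), (7, 9), (8, 5), (8, 10), (9, 0), (9, 7), (10, 1), (10, 8)]
    lev := [] }
  links := [[1, 3, 7, 8], [3, 0, 8, 6, 2, 9, 10, 11], [9, 1, 6, 4, 12, 13], [7, 0, 1, 11, 14, 5], [12, 2,
    6, 15], [7, 3, 14, 16], [15, 4, 2, 1, 8, 17]]
  P := {
    a := 7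
    N := 18
    nb := [394, 3917, 12882, 18595, 36932, 82056, 164118, 65833, 131267, 9222, 2562, 17418, 40980,
      4612, 67624, 135248, 16544, 33088]
    tri := [(0, 1, 3), (0, 1, 8), (0, 3, 7), (0, 7, 8), (1, 2, 6), (1, 2, 9), (1, 3, 11), (1, 6, 8),
      (1, 9, 10), (1, 10, 11), (2, 4, 6), (2, 4, 12), (2, 9, 13), (2, 12, 13), (3, 5, 7), (3, 5,
      14), (3, 11, 14), (4, 6, 15), (4, 12, 15), (5, 7, 16), (5, 14, 16), (6, 8, 17), (6, 15, 17)]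
    fin := [0, 1, 1, 0, 4, 0, 4, 0, 1, 1, 10, 0, 12, 13, 14, 15, 16, 4]
    chd := [(1, 12), (12, 4)]
    steps := [(0, 3), (0, 5), (0, 7), (0, 11), (1, 2), (1, 8), (1, 9), (4, 6), (4, 17)] }
  rep := [1, 0, 14, 12, 15, 4, 10, 13, 16]

noncomputable def v2768 : Cov.CovD where
  P := 3
  N := 6
  pl := [3, 6, 7, 8, 9]
  lev := [⟨[], [], [(0, 1)], [], [(0, 1, []), (1, 0, [3])]⟩,
    ⟨[], [(0, 0), (0, 1)], [(0, 0), (0, 1)], [6], [(1, 0, [3]), (2, 0, [3]), (4, 1, [])]⟩,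
    ⟨[(0, 1)], [(1, 0), (1, 1), (1, 3)], [(0, 3)], [7], [(2, 0, [3]), (5, 3, [0, 5])]⟩,
    ⟨[(0, 1), (1, 2)], [(0, 0), (0, 1), (1, 0), (1, 1)], [(1, 1)], [2], [(0, 1, []), (4, 1,
      [])]⟩,
    ⟨[(1, 2)], [(2, 0), (2, 3)], [], [4], [(5, 3, [0, 5])]⟩,
    ⟨[(0, 3), (1, 3)], [(0, 1), (3, 1)], [], [2, 8], [(0, 1, [])]⟩,
    ⟨[(0, 1), (1, 2), (1, 3), (1, 4), (2, 4)], [(0, 0), (1, 0), (1, 1), (1, 5), (2, 0), (2,
      3), (2, 5), (4, 0), (4, 3), (4, 5)], [(0, 5)], [4], [(1, 0, [3]), (10, 5, [3])]⟩]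
  Ta := [((0, 1), 1, 0), ((0, 9), 1, 8), ((1, 0), 0, 1), ((1, 10), 0, 5), ((2, 3), 0, 6), ((2,
    6), 0, 7), ((4, 3), 1, 6), ((4, 7), 1, 2)]
  Tb := [((0, 1, 9), 1, 0, 8), ((1, 0, 10), 0, 1, 5), ((2, 3, 6), 0, 6, 7), ((3, 2, 4), 6, 0, 1),
    ((4, 3, 7), 1, 6, 2), ((5, 6, 8), 3, 7, 4), ((6, 2, 5), 7, 0, 3), ((7, 4, 9), 2, 1, 8),
    ((8, 5, 10), 4, 3, 5), ((9, 0, 7), 8, 1, 2), ((10, 1, 8), 5, 0, 4)]
  Tc := [(3, 0, 5)]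
  Td := [((0, 3), (1, 0), 1), ((0, 3), (1, 10), 5), ((0, 3), (2, 3), 6), ((0, 3), (2, 6), 7),
    ((3, 0), (5, 6), 7), ((3, 0), (5, 8), 4), ((3, 5), (5, 6), 7), ((3, 5), (5, 8), 4), ((5,
    3), (10, 1), 0), ((5, 3), (10, 8), 4)]
  G := [[0, 0x22c22cc4166caacccce8144c88cccce41e2,
    0x22c22cc412424c2828cc111cccc3411cccc3444c88cccce4de8, 0,
    0x229229c11229229c81119cc938119cc938449889cc9e8de4], [0, 0,
    0x1262946242a451212a8e21862a2c2e87c1212a4a2826438c,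
    0x6814ae514ee9146144acac88c69fee518eec1128aa9889e645445a5bc2,
    0x2211622242e15e218e21862a2c2e8bcc211e21182826178c], [0, 0,
    0x4873c15c44f42d4c43389888bc255c99c41ce455c99c88ce4ce8, 0,
    0x418124cc9ee931238999889b12159d99419e1559999889d8cec], [0, 0,
    0x42283292a2b842c2a8e4325262741232c822c4212a824ce3212c8a218acc,
    0x33555c66c71215135c88c2ccd9ecc34e36548a69b8339999aa9b851c18c1c5e8ec2,
    0x3292a2b14432526271229282d1428928239e322292e8321292e1acc]]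

noncomputable def n2768 : Ent := ⟨e2768, noF, [], [], [(17, 16, [7334685537875745012586738086077695515070955365108989538292687704997889, 0]), (15, 16, [7334685537875745012586738086077695515070955365108989538292687705001985, 0]), (12, 16, [7334685537875745012586738086077695515070955365108989538292687705006081, 0]), (13, 16, [7334685537875745012586738086077695515070955365108989538292687705010177, 0])]⟩

def c2768 : PLift (Cov.check n2768.C.D v2768 = true) := ⟨by decide +kernel⟩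

def b2768 : PLift (entF (fidx ts) 400 2768 n2768 = true) := ⟨by decide +kernel⟩

theorem g2768 : GoodF (fidx ts) 400 2768 := GoodF.ofV v2768 n2768 c2768.down b2768.down

/-- 4596446:2220 -/
noncomputable def e2769 : SCfg where
  D := {
    a := 7
    L := 11
    kp := 8
    inn := [(0, 1), (0, 2), (1, 0), (1, 2), (2, 0), (2, 1), (2, 3), (2, 4), (2, 6), (3, 2), (3, 5), (3,
      6), (4, 2), (5, 3), (5, 6), (6, 2), (6, 3), (6, 5)]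
    mix := [(0, 0), (0, 1), (1, 1), (1, 2), (1, 3), (2, 0), (2, 3), (2, 4), (2, 5), (3, 4), (3, 6), (3,
      7), (4, 0), (4, 5), (4, 8), (5, 7), (5, 9), (6, 5), (6, 9), (6, 10)]
    cl := [1, 2, 5, 1, 0, 0, 6, 3, 7, 4, 8]
    chq := [(0, 3), (0, 4), (3, 0), (4, 0)]
    rng := [(0, 1), (0, 8), (1, 0), (1, 2), (2, 1), (2, 3), (3, 2), (3, 4), (4, 3), (4, 6), (5, 8), (5,
      10), (6, 4), (6, 7), (7, 6), (7, 9), (8, 0), (8, 5), (9, 7), (9, 10), (10, 5), (10, 9)]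
    lev := [] }
  links := [[1, 2, 7, 8], [2, 0, 8, 9, 10], [7, 0, 1, 10, 11, 3, 6, 12, 4], [6, 2, 11, 13, 14, 5], [7, 2,
    12, 15], [6, 3, 14, 16], [12, 2, 3, 5, 16, 17]]
  P := {
    a := 7
    N := 18
    nb := [390, 1797, 7387, 26724, 36996, 81992, 200748, 33045, 643, 1282, 2566, 9228, 163924, 18440,
      73768, 4240, 147552, 69696]
    tri := [(0, 1, 2), (0, 1, 8), (0, 2, 7), (0, 7, 8), (1, 2, 10), (1, 8, 9), (1, 9, 10), (2, 3, 6),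
      (2, 3, 11), (2, 4, 7), (2, 4, 12), (2, 6, 12), (2, 10, 11), (3, 5, 6), (3, 5, 14), (3, 11,
      13), (3, 13, 14), (4, 7, 15), (4, 12, 15), (5, 6, 16), (5, 14, 16), (6, 12, 17), (6, 16,
      17)]
    fin := [0, 0, 0, 3, 0, 3, 3, 0, 8, 9, 0, 3, 3, 13, 14, 15, 16, 17]
    chd := [(3, 14), (3, 16)]
    steps := [(0, 1), (0, 2), (0, 4), (0, 7), (0, 10), (3, 5), (3, 6), (3, 11), (3, 12)] }
  rep := [3, 0, 8, 14, 16, 9, 13, 15, 17]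

noncomputable def v2769 : Cov.CovD where
  P := 3
  N := 6
  pl := [1, 2, 6, 8, 10]
  lev := [⟨[], [], [], [2], [(0, 1, [])]⟩,
    ⟨[], [(0, 1)], [], [2, 5], [(3, 1, [])]⟩,
    ⟨[(0, 1)], [(0, 0), (0, 1), (1, 0), (1, 1)], [(0, 0), (0, 1), (1, 1)], [], [(0, 1, []),
      (3, 1, []), (4, 0, [3, 4]), (5, 0, [3, 4])]⟩,
    ⟨[(0, 2), (1, 2)], [(2, 0), (2, 1), (2, 3)], [(0, 3)], [6], [(4, 0, [3, 4]), (7, 3,
      [0])]⟩,
    ⟨[(0, 2), (1, 2), (2, 3)], [(0, 1), (2, 0), (2, 1)], [(0, 1)], [7], [(0, 1, []), (5, 0,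
      [3, 4])]⟩,
    ⟨[(2, 3)], [(3, 0), (3, 3), (3, 4)], [(3, 4)], [], [(7, 3, [0]), (9, 4, [0])]⟩,
    ⟨[(0, 2), (1, 2), (2, 3), (2, 4), (2, 5), (3, 5)], [(2, 0), (2, 1), (2, 4), (3, 0), (3,
      3), (3, 4), (4, 0), (5, 0), (5, 3), (5, 4)], [(0, 4)], [8], [(5, 0, [3, 4]), (9, 4,
      [0])]⟩]
  Ta := [((0, 1), 1, 2), ((0, 8), 1, 7), ((3, 2), 1, 5), ((3, 4), 1, 0), ((4, 3), 0, 1), ((4, 6),
    0, 6), ((5, 8), 0, 7), ((5, 10), 0, 8)]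
  Tb := [((0, 1, 8), 1, 2, 7), ((1, 0, 2), 2, 1, 5), ((2, 1, 3), 5, 2, 1), ((3, 2, 4), 1, 5, 0),
    ((4, 3, 6), 0, 1, 6), ((5, 8, 10), 0, 7, 8), ((6, 4, 7), 6, 0, 3), ((7, 6, 9), 3, 6, 4),
    ((8, 0, 5), 7, 1, 0), ((9, 7, 10), 4, 3, 8), ((10, 5, 9), 8, 0, 4)]
  Tc := [(0, 3, 4)]
  Td := [((0, 3), (4, 3), 1), ((0, 3), (4, 6), 6), ((0, 3), (5, 8), 7), ((0, 3), (5, 10), 8),
    ((0, 4), (4, 3), 1), ((0, 4), (4, 6), 6), ((0, 4), (5, 8), 7), ((0, 4), (5, 10), 8), ((3,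
    0), (7, 6), 6), ((3, 0), (7, 9), 4), ((4, 0), (9, 7), 3), ((4, 0), (9, 10), 8)]
  G := [[0, 0, 0x611e11e11e8118c24, 0x81184611e11e11e8611e11e11e8118cd4, 0x4114e11a11e11ec28],
    [0, 0xe1e1a2111ea141e14e111aec611612962116e118ee111a14ec18eac8,
    0x4114e11a11e11ec411e11e11ea118cc2, 0, 0x4124e11a11e11ec1424e11a11e11ec91], [0, 0,
    0x446e41e1a1cc1185c88ae8bc261e1c482c,
    0x666e41a18818161de6a88c7c14e1c64858614446e4ceec9e181ca188188cecd1,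
    0x61441e1c414ee181ca18e1a1cec21], [0, 0, 0xe128481284c6124126a12888e23c612e12e12e8cc, 0,
    0xe12a12e12e44421612a12e12882fc94421889]]

noncomputable def n2769 : Ent := ⟨e2769, noF, [], [], []⟩

def c2769 : PLift (Cov.check n2769.C.D v2769 = true) := ⟨by decide +kernel⟩

def b2769 : PLift (entF (fidx ts) 400 2769 n2769 = true) := ⟨by decide +kernel⟩

theorem g2769 : GoodF (fidx ts) 400 2769 := GoodF.ofV v2769 n2769 c2769.down b2769.down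

/-- 4866464:2223/1 -/
noncomputable def e2770 : SCfg where
  D := {
    a := 7
    L := 10
    kp := 9
    inn := [(0, 1), (0, 3), (1, 0), (1, 2), (1, 3), (1, 4), (1, 5), (2, 1), (2, 4), (3, 0), (3, 1), (4,
      1), (4, 2), (4, 5), (5, 1), (5, 4), (5, 6), (6, 5)]
    mix := [(0, 0), (0, 1), (1, 1), (1, 2), (1, 3), (2, 2), (2, 4), (2, 5), (2, 6), (3, 0), (3, 3), (3,
      7), (3, 8), (4, 6), (5, 3), (5, 6), (5, 9), (6, 5), (6, 6), (6, 9)]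
    cl := [2, 5, 1, 0, 7, 4, 3, 8, 9, 6]
    chq := [(0, 1), (0, 3), (0, 4), (0, 7), (1, 0), (1, 2), (1, 8), (1, 9), (2, 1), (3, 0), (3, 7), (4,
      0), (7, 0), (7, 3), (8, 1), (9, 1)]
    rng := [(0, 1), (0, 8), (1, 0), (1, 2), (2, 1), (2, 4), (3, 7), (3, 9), (4, 2), (4, 5), (5, 4), (5,
      6), (5, 9), (6, 5), (7, 3), (7, 8), (8, 0), (8, 7), (9, 3), (9, 5)]
    lev := [] }
  links := [[1, 3, 7, 8], [3, 0, 8, 9, 2, 4, 5, 10], [4, 1, 9, 11, 12, 13], [7, 0, 1, 10, 14, 15], [5, 1,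
    2, 13], [10, 1, 4, 13, 6, 16], [16, 5, 13, 12]]
  P := {
    a := 7
    N := 17
    nb := [394, 1853, 14866, 50307, 8230, 74834, 77856, 33033, 643, 2310, 81962, 4612, 75844, 4212,
      33800, 16520, 5216]
    tri := [(0, 1, 3), (0, 1, 8), (0, 3, 7), (0, 7, 8), (1, 2, 4), (1, 2, 9), (1, 3, 10), (1, 4, 5),
      (1, 5, 10), (1, 8, 9), (2, 4, 13), (2, 9, 11), (2, 11, 12), (2, 12, 13), (3, 7, 15), (3, 10,
      14), (3, 14, 15), (4, 5, 13), (5, 6, 13), (5, 6, 16), (5, 10, 16), (6, 12, 13), (6, 12, 16)]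
    fin := [0, 1, 2, 1, 2, 5, 6, 0, 8, 1, 5, 2, 6, 13, 14, 15, 16]
    chd := [(0, 1), (1, 5), (1, 14), (1, 15), (2, 13), (5, 2), (5, 6), (5, 13)]
    steps := [(0, 7), (1, 3), (1, 9), (2, 4), (2, 11), (5, 10), (6, 12)] }
  rep := [5, 1, 0, 13, 6, 8, 16, 2, 14, 15]

noncomputable def v2770 : Cov.CovD where
  P := 3
  N := 7
  pl := [1, 9]
  lev := [⟨[], [], [], [5], [(0, 2, [1])]⟩,
    ⟨[], [(0, 0), (0, 1), (0, 2)], [(0, 1)], [5], [(2, 1, [0, 2, 8, 9]), (3, 0, [1, 3, 4,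
      7])]⟩,
    ⟨[(0, 1)], [(1, 0), (1, 1), (1, 3), (1, 4), (1, 7)], [(1, 3), (1, 4), (1, 7), (3, 4),
      (3, 7), (4, 7)], [], [(2, 1, [0, 2, 8, 9]), (4, 7, [0, 3]), (5, 4, [0]), (6, 3, [0,
      7])]⟩,
    ⟨[(0, 1), (1, 2)], [(0, 0), (0, 2), (0, 8), (0, 9), (1, 0), (1, 1), (1, 2), (1, 8), (1,
      9)], [(0, 2), (0, 8), (0, 9), (2, 8), (2, 9), (8, 9)], [], [(0, 2, [1]), (3, 0, [1, 3,
      4, 7]), (7, 8, [1]), (8, 9, [1])]⟩,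
    ⟨[(0, 1), (1, 2), (1, 3)], [(1, 0), (1, 1), (1, 3), (2, 1), (2, 3), (2, 4), (2, 7)],
      [], [], [(6, 3, [0, 7])]⟩,
    ⟨[(0, 1), (1, 2), (1, 3), (1, 4), (2, 4)], [(1, 0), (1, 1), (1, 3), (2, 3), (3, 0), (4,
      0), (4, 3)], [(0, 3)], [6], [(3, 0, [1, 3, 4, 7]), (6, 3, [0, 7])]⟩,
    ⟨[(1, 5), (4, 5)], [(2, 3), (2, 4), (4, 3), (5, 0), (5, 3), (5, 4)], [(3, 4)], [6],
      [(5, 4, [0]), (6, 3, [0, 7])]⟩]
  Ta := []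
  Tb := [((0, 1, 8), 2, 5, 9), ((1, 0, 2), 5, 2, 1), ((2, 1, 4), 1, 5, 7), ((3, 7, 9), 0, 8, 6),
    ((4, 2, 5), 7, 1, 4), ((5, 4, 6), 4, 7, 3), ((5, 4, 9), 4, 7, 6), ((5, 6, 9), 4, 3, 6),
    ((7, 3, 8), 8, 0, 9), ((8, 0, 7), 9, 2, 8), ((9, 3, 5), 6, 0, 4)]
  Tc := [(0, 1, 3), (0, 1, 4), (0, 1, 7), (0, 3, 4), (0, 3, 7), (0, 4, 7), (1, 0, 2), (1, 0, 8),
    (1, 0, 9), (1, 2, 8), (1, 2, 9), (1, 8, 9), (3, 0, 7), (7, 0, 3)]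
  Td := [((0, 1), (3, 7), 8), ((0, 1), (3, 9), 6), ((0, 3), (3, 7), 8), ((0, 3), (3, 9), 6), ((0,
    4), (3, 7), 8), ((0, 4), (3, 9), 6), ((0, 7), (3, 7), 8), ((0, 7), (3, 9), 6), ((1, 0),
    (2, 1), 5), ((1, 0), (2, 4), 7), ((1, 2), (2, 1), 5), ((1, 2), (2, 4), 7), ((1, 8), (2,
    1), 5), ((1, 8), (2, 4), 7), ((1, 9), (2, 1), 5), ((1, 9), (2, 4), 7), ((2, 1), (0, 1),
    5), ((2, 1), (0, 8), 9), ((3, 0), (6, 5), 4), ((3, 7), (6, 5), 4), ((4, 0), (5, 4), 7),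
    ((4, 0), (5, 6), 3), ((4, 0), (5, 9), 6), ((7, 0), (4, 2), 1), ((7, 0), (4, 5), 4), ((7,
    3), (4, 2), 1), ((7, 3), (4, 5), 4), ((8, 1), (7, 3), 0), ((8, 1), (7, 8), 9), ((9, 1),
    (8, 0), 2), ((9, 1), (8, 7), 8)]
  G := [[0, 0x141261118811a1812a11144116c,
    0x92c749a722721588588c1a52cb856ba21b444161818487219434a1414a4ba1ce,
    0xbc549a7621852cb8214183848721948356fa21cd,
    0x12c7c9a7c472138821c18182872159b8f74314e21c9]]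

noncomputable def n2770 : Ent := ⟨e2770, noF, [], [], []⟩

def c2770 : PLift (Cov.check n2770.C.D v2770 = true) := ⟨by decide +kernel⟩

def b2770 : PLift (entF (fidx ts) 400 2770 n2770 = true) := ⟨by decide +kernel⟩

theorem g2770 : GoodF (fidx ts) 400 2770 := GoodF.ofV v2770 n2770 c2770.down b2770.down

/-- 4866464:2223 -/
noncomputable def e2771 : SCfg where
  D := {
    a := 7
    L := 11
    kp := 10
    inn := [(0, 1), (0, 3), (1, 0), (1, 2), (1, 3), (1, 4), (1, 5), (2, 1), (2, 4), (3, 0), (3, 1), (4,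
      1), (4, 2), (4, 5), (5, 1), (5, 4), (5, 6), (6, 5)]
    mix := [(0, 0), (0, 1), (1, 1), (1, 2), (1, 3), (2, 2), (2, 4), (2, 5), (2, 6), (3, 0), (3, 3), (3,
      7), (3, 8), (4, 6), (5, 3), (5, 6), (5, 9), (6, 6), (6, 9), (6, 10)]
    cl := [4, 2, 1, 0, 6, 7, 3, 8, 9, 5, 10]
    chq := [(0, 1), (0, 3), (0, 6), (0, 7), (0, 10), (1, 0), (1, 4), (1, 8), (1, 9), (3, 0), (4, 1),
      (6, 0), (7, 0), (8, 1), (9, 1), (10, 0)]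
    rng := [(0, 1), (0, 8), (1, 0), (1, 2), (2, 1), (2, 4), (3, 7), (3, 9), (4, 2), (4, 5), (5, 4), (5,
      6), (6, 5), (6, 10), (7, 3), (7, 8), (8, 0), (8, 7), (9, 3), (9, 10), (10, 6), (10, 9)]
    lev := [] }
  links := [[1, 3, 7, 8], [3, 0, 8, 9, 2, 4, 5, 10], [4, 1, 9, 11, 12, 13], [7, 0, 1, 10, 14, 15], [5, 1,
    2, 13], [10, 1, 4, 13, 6, 16], [16, 5, 13, 17]]
  P := {
    a := 7
    N := 18
    nb := [394, 1853, 14866, 50307, 8230, 74834, 204832, 33033, 643, 2310, 81962, 4612, 10244, 135284,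
      33800, 16520, 132192, 73792]
    tri := [(0, 1, 3), (0, 1, 8), (0, 3, 7), (0, 7, 8), (1, 2, 4), (1, 2, 9), (1, 3, 10), (1, 4, 5),
      (1, 5, 10), (1, 8, 9), (2, 4, 13), (2, 9, 11), (2, 11, 12), (2, 12, 13), (3, 7, 15), (3, 10,
      14), (3, 14, 15), (4, 5, 13), (5, 6, 13), (5, 6, 16), (5, 10, 16), (6, 13, 17), (6, 16, 17)]
    fin := [0, 1, 2, 1, 2, 2, 6, 0, 8, 1, 2, 11, 12, 13, 14, 15, 16, 6]
    chd := [(0, 1), (1, 2), (1, 14), (1, 15), (2, 6), (2, 11), (2, 12), (2, 13)]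
    steps := [(0, 7), (1, 3), (1, 9), (2, 4), (2, 5), (2, 10), (6, 17)] }
  rep := [2, 1, 8, 13, 0, 16, 11, 12, 14, 15, 6]

noncomputable def v2771 : Cov.CovD where
  P := 3
  N := 8
  pl := [1, 9]
  lev := [⟨[], [], [], [2], [(0, 4, [1])]⟩,
    ⟨[], [(0, 0), (0, 1), (0, 4)], [(0, 1)], [2], [(2, 1, [0, 4, 8, 9]), (3, 0, [1, 3, 6,
      7, 10])]⟩,
    ⟨[(0, 1)], [(1, 0), (1, 1), (1, 3), (1, 6), (1, 7)], [(1, 3), (1, 6), (1, 7), (3, 6),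
      (3, 7), (6, 7)], [], [(2, 1, [0, 4, 8, 9]), (4, 6, [0]), (5, 7, [0]), (6, 3, [0])]⟩,
    ⟨[(0, 1), (1, 2)], [(0, 0), (0, 4), (0, 8), (0, 9), (1, 0), (1, 1), (1, 4), (1, 8), (1,
      9)], [(0, 4), (0, 8), (0, 9), (4, 8), (4, 9), (8, 9)], [], [(0, 4, [1]), (3, 0, [1, 3,
      6, 7, 10]), (7, 8, [1]), (8, 9, [1])]⟩,
    ⟨[(0, 1), (1, 2), (1, 3)], [(1, 0), (1, 1), (1, 3), (2, 1), (2, 3), (2, 6), (2, 7)],
      [], [], [(6, 3, [0])]⟩,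
    ⟨[(0, 1), (1, 2), (1, 3), (1, 4), (2, 4)], [(1, 0), (1, 1), (1, 3), (2, 3), (3, 0), (4,
      0), (4, 3)], [(0, 3)], [5], [(3, 0, [1, 3, 6, 7, 10]), (6, 3, [0])]⟩,
    ⟨[(1, 5), (4, 5)], [(2, 3), (4, 3), (5, 0), (5, 3), (5, 10)], [(3, 10)], [5], [(6, 3,
      [0]), (10, 10, [0])]⟩]
  Ta := []
  Tb := [((0, 1, 8), 4, 2, 9), ((1, 0, 2), 2, 4, 1), ((2, 1, 4), 1, 2, 6), ((3, 7, 9), 0, 8, 5),
    ((4, 2, 5), 6, 1, 7), ((5, 4, 6), 7, 6, 3), ((6, 5, 10), 3, 7, 10), ((7, 3, 8), 8, 0, 9),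
    ((8, 0, 7), 9, 4, 8), ((9, 3, 10), 5, 0, 10), ((10, 6, 9), 10, 3, 5)]
  Tc := [(0, 1, 3), (0, 1, 6), (0, 1, 7), (0, 1, 10), (0, 3, 6), (0, 3, 7), (0, 3, 10), (0, 6,
    7), (0, 6, 10), (0, 7, 10), (1, 0, 4), (1, 0, 8), (1, 0, 9), (1, 4, 8), (1, 4, 9), (1, 8,
    9)]
  Td := [((0, 1), (3, 7), 8), ((0, 1), (3, 9), 5), ((0, 3), (3, 7), 8), ((0, 3), (3, 9), 5), ((0,
    6), (3, 7), 8), ((0, 6), (3, 9), 5), ((0, 7), (3, 7), 8), ((0, 7), (3, 9), 5), ((0, 10),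
    (3, 7), 8), ((0, 10), (3, 9), 5), ((1, 0), (2, 1), 2), ((1, 0), (2, 4), 6), ((1, 4), (2,
    1), 2), ((1, 4), (2, 4), 6), ((1, 8), (2, 1), 2), ((1, 8), (2, 4), 6), ((1, 9), (2, 1),
    2), ((1, 9), (2, 4), 6), ((3, 0), (6, 5), 7), ((3, 0), (6, 10), 10), ((4, 1), (0, 1), 2),
    ((4, 1), (0, 8), 9), ((6, 0), (4, 2), 1), ((6, 0), (4, 5), 7), ((7, 0), (5, 4), 6), ((7,
    0), (5, 6), 3), ((8, 1), (7, 3), 0), ((8, 1), (7, 8), 9), ((9, 1), (8, 0), 4), ((9, 1),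
    (8, 7), 8), ((10, 0), (10, 6), 3), ((10, 0), (10, 9), 5)]
  G := [[0, 0x11c116a11411c11a6118c, 0x79c835ea214596e39a6218c, 0x79c3d6a214b44217885aa21cc,
    0x92649644721388388c1a183862185bc3da6218b]]

noncomputable def n2771 : Ent := ⟨e2771, noF, [], [], [(12, 17, [6903326391201334775872065844685381424292761054348340378595029941035009, 0])]⟩

def c2771 : PLift (Cov.check n2771.C.D v2771 = true) := ⟨by decide +kernel⟩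

def b2771 : PLift (entF (fidx ts) 400 2771 n2771 = true) := ⟨by decide +kernel⟩

theorem g2771 : GoodF (fidx ts) 400 2771 := GoodF.ofV v2771 n2771 c2771.down b2771.down

/-- 4594664:2224/1 -/
noncomputable def e2772 : SCfg where
  D := {
    a := 7
    L := 10
    kp := 7
    inn := [(0, 1), (0, 2), (1, 0), (1, 2), (1, 4), (1, 5), (2, 0), (2, 1), (2, 3), (2, 5), (2, 6), (3,
      2), (4, 1), (4, 5), (5, 1), (5, 2), (5, 4), (6, 2)]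
    mix := [(0, 0), (0, 1), (1, 1), (2, 0), (2, 2), (2, 3), (2, 4), (3, 3), (3, 4), (3, 5), (4, 1), (4,
      5), (4, 6), (4, 7), (5, 2), (5, 7), (5, 8), (6, 0), (6, 4), (6, 9)]
    cl := [0, 1, 4, 0, 3, 2, 6, 1, 5, 7]
    chq := [(0, 3), (0, 5), (3, 0), (5, 0)]
    rng := [(0, 1), (0, 9), (1, 0), (1, 5), (2, 3), (2, 8), (3, 2), (3, 5), (4, 5), (4, 9), (5, 1), (5,
      3), (5, 4), (5, 6), (6, 5), (6, 7), (7, 6), (7, 8), (8, 2), (8, 7), (9, 0), (9, 4)]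
    lev := [] }
  links := [[1, 2, 7, 8], [2, 0, 8, 4, 5], [7, 0, 1, 5, 9, 10, 3, 11, 6], [11, 2, 10, 12], [5, 1, 8, 12,
    13, 14], [9, 2, 1, 4, 14, 15], [7, 2, 11, 16]]
  P := {
    a := 7
    N := 17
    nb := [390, 309, 3819, 7172, 28962, 49686, 67716, 65861, 4243, 33828, 4620, 69708, 11544, 20496,
      41008, 16928, 2240]
    tri := [(0, 1, 2), (0, 1, 8), (0, 2, 7), (0, 7, 8), (1, 2, 5), (1, 4, 5), (1, 4, 8), (2, 3, 10),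
      (2, 3, 11), (2, 5, 9), (2, 6, 7), (2, 6, 11), (2, 9, 10), (3, 10, 12), (3, 11, 12), (4, 5,
      14), (4, 8, 12), (4, 12, 13), (4, 13, 14), (5, 9, 15), (5, 14, 15), (6, 7, 16), (6, 11, 16)]
    fin := [0, 0, 0, 0, 4, 0, 0, 0, 4, 9, 0, 11, 12, 13, 4, 15, 16]
    chd := [(0, 11), (0, 15)]
    steps := [(0, 1), (0, 2), (0, 3), (0, 5), (0, 6), (0, 7), (0, 10), (4, 8), (4, 14)] }
  rep := [0, 4, 12, 11, 9, 15, 13, 16]

noncomputable def v2772 : Cov.CovD where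
  P := 3
  N := 5
  pl := [2, 5, 6, 9]
  lev := [⟨[], [], [(0, 1)], [], [(0, 0, [3, 5]), (1, 1, [])]⟩,
    ⟨[], [(0, 0), (0, 1)], [], [], [(1, 1, [])]⟩,
    ⟨[(0, 1)], [(0, 0), (0, 1), (0, 3), (1, 0), (1, 1), (1, 3)], [(0, 0), (0, 3)], [4],
      [(0, 0, [3, 5]), (3, 0, [3, 5]), (4, 3, [0])]⟩,
    ⟨[(0, 2), (1, 2)], [(2, 0), (2, 3)], [(0, 3)], [2], [(3, 0, [3, 5]), (4, 3, [0])]⟩,
    ⟨[(0, 1), (1, 2)], [(0, 1), (1, 1)], [(1, 1)], [2, 6], [(1, 1, []), (7, 1, [])]⟩,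
    ⟨[(0, 1), (0, 2), (1, 2), (1, 4), (2, 3), (2, 4)], [(1, 1), (1, 5), (2, 0), (2, 1), (2,
      3), (2, 5), (4, 1), (4, 5)], [(1, 5)], [4], [(7, 1, []), (8, 5, [0])]⟩,
    ⟨[(0, 2), (1, 2), (2, 3), (2, 5)], [(0, 0), (2, 0), (2, 3), (3, 3)], [(0, 3)], [7],
      [(0, 0, [3, 5]), (4, 3, [0])]⟩]
  Ta := [((0, 1), 0, 1), ((0, 9), 0, 7), ((1, 0), 1, 0), ((1, 5), 1, 2), ((3, 2), 0, 4), ((3, 5),
    0, 2), ((7, 6), 1, 6), ((7, 8), 1, 5)]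
  Tb := [((0, 1, 9), 0, 1, 7), ((1, 0, 5), 1, 0, 2), ((2, 3, 8), 4, 0, 5), ((3, 2, 5), 0, 4, 2),
    ((4, 5, 9), 3, 2, 7), ((5, 1, 3), 2, 1, 0), ((5, 1, 4), 2, 1, 3), ((5, 1, 6), 2, 1, 6),
    ((5, 3, 4), 2, 0, 3), ((5, 3, 6), 2, 0, 6), ((5, 4, 6), 2, 3, 6), ((6, 5, 7), 6, 2, 1),
    ((7, 6, 8), 1, 6, 5), ((8, 2, 7), 5, 4, 1), ((9, 0, 4), 7, 0, 3)]
  Tc := [(0, 3, 5)]
  Td := [((0, 3), (0, 1), 1), ((0, 3), (0, 9), 7), ((0, 3), (3, 2), 4), ((0, 3), (3, 5), 2), ((0,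
    5), (0, 1), 1), ((0, 5), (0, 9), 7), ((0, 5), (3, 2), 4), ((0, 5), (3, 5), 2), ((3, 0),
    (4, 5), 2), ((3, 0), (4, 9), 7), ((5, 0), (8, 2), 4), ((5, 0), (8, 7), 1)]
  G := [[0, 0xe1e1c12841e1c14e1e1c1a181cc6, 0, 0xa116114555e11a551686161981189996184a4c,
    0x2111c513185186c281658a49616198118999e116991a4c], [0, 0, 0, 0,
    0x11cd1e1219324a1a19c11c5934618811e9998ca], [0, 0, 0x1111c41111c2611111c881c,
    0x1b3193514154a111ad9111199c2c31111714d881c, 0x1218391331199a91115d9264153319181984c],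
    [0, 0, 0x1111c41111c26111888114885c, 0, 0x14114199119911319a115d119d926c1351559181982c]]

noncomputable def n2772 : Ent := ⟨e2772, noF, [], [], []⟩

def c2772 : PLift (Cov.check n2772.C.D v2772 = true) := ⟨by decide +kernel⟩

def b2772 : PLift (entF (fidx ts) 400 2772 n2772 = true) := ⟨by decide +kernel⟩

theorem g2772 : GoodF (fidx ts) 400 2772 := GoodF.ofV v2772 n2772 c2772.down b2772.down

/-- 4594664:2224/3 -/
noncomputable def e2773 : SCfg where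
  D := {
    a := 7
    L := 9
    kp := 6
    inn := [(0, 1), (0, 2), (1, 0), (1, 2), (1, 4), (1, 5), (2, 0), (2, 1), (2, 3), (2, 5), (2, 6), (3,
      2), (4, 1), (4, 5), (5, 1), (5, 2), (5, 4), (6, 2)]
    mix := [(0, 0), (0, 1), (1, 1), (2, 0), (2, 2), (2, 3), (2, 4), (3, 3), (3, 4), (3, 5), (4, 1), (4,
      5), (4, 6), (4, 7), (5, 2), (5, 7), (5, 8), (6, 0), (6, 4), (6, 6)]
    cl := [0, 1, 4, 0, 3, 2, 5, 1, 6]
    chq := [(0, 3), (0, 6), (3, 0), (6, 0)]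
    rng := [(0, 1), (0, 6), (1, 0), (1, 6), (2, 3), (2, 8), (3, 2), (3, 5), (4, 5), (4, 6), (5, 3), (5,
      4), (5, 6), (5, 7), (6, 0), (6, 1), (6, 4), (6, 5), (7, 5), (7, 8), (8, 2), (8, 7)]
    lev := [] }
  links := [[1, 2, 7, 8], [2, 0, 8, 4, 5], [7, 0, 1, 5, 9, 10, 3, 11, 6], [11, 2, 10, 12], [5, 1, 8, 13,
    12, 14], [9, 2, 1, 4, 14, 15], [7, 2, 11, 13]]
  P := {
    a := 7
    N := 16
    nb := [390, 309, 3819, 7172, 28962, 49686, 10372, 8517, 8339, 33828, 4620, 12364, 27672, 6608,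
      36912, 16928]
    tri := [(0, 1, 2), (0, 1, 8), (0, 2, 7), (0, 7, 8), (1, 2, 5), (1, 4, 5), (1, 4, 8), (2, 3, 10),
      (2, 3, 11), (2, 5, 9), (2, 6, 7), (2, 6, 11), (2, 9, 10), (3, 10, 12), (3, 11, 12), (4, 5,
      14), (4, 8, 13), (4, 12, 13), (4, 12, 14), (5, 9, 15), (5, 14, 15), (6, 7, 13), (6, 11, 13)]
    fin := [0, 0, 0, 0, 4, 0, 0, 0, 4, 9, 0, 11, 12, 13, 4, 15]
    chd := [(0, 11), (0, 15)]
    steps := [(0, 1), (0, 2), (0, 3), (0, 5), (0, 6), (0, 7), (0, 10), (4, 8), (4, 14)] }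
  rep := [0, 4, 12, 11, 9, 13, 15]

noncomputable def v2773 : Cov.CovD where
  P := 3
  N := 4
  pl := [2, 5, 6]
  lev := [⟨[], [], [(0, 1)], [], [(0, 0, [3, 6]), (1, 1, [])]⟩,
    ⟨[], [(0, 0), (0, 1)], [], [], [(1, 1, [])]⟩,
    ⟨[(0, 1)], [(0, 0), (0, 1), (0, 3), (1, 0), (1, 1), (1, 3)], [(0, 0), (0, 3)], [4],
      [(0, 0, [3, 6]), (3, 0, [3, 6]), (4, 3, [0])]⟩,
    ⟨[(0, 2), (1, 2)], [(2, 0), (2, 3)], [(0, 3)], [2], [(3, 0, [3, 6]), (4, 3, [0])]⟩,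
    ⟨[(0, 1), (1, 2)], [(0, 1), (1, 1)], [(1, 1)], [2, 5], [(1, 1, []), (7, 1, [])]⟩,
    ⟨[(0, 1), (0, 2), (1, 2), (1, 4), (2, 3), (2, 4)], [(1, 1), (1, 6), (2, 0), (2, 1), (2,
      3), (2, 6), (4, 1), (4, 6)], [(1, 6)], [4], [(7, 1, []), (8, 6, [0])]⟩,
    ⟨[(0, 2), (1, 2), (2, 3), (2, 5)], [(0, 0), (2, 0), (2, 3), (3, 3)], [(0, 3)], [5],
      [(0, 0, [3, 6]), (4, 3, [0])]⟩]
  Ta := [((0, 1), 0, 1), ((0, 6), 0, 5), ((1, 0), 1, 0), ((1, 6), 1, 5), ((3, 2), 0, 4), ((3, 5),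
    0, 2), ((7, 5), 1, 2), ((7, 8), 1, 6)]
  Tb := [((0, 1, 6), 0, 1, 5), ((1, 0, 6), 1, 0, 5), ((2, 3, 8), 4, 0, 6), ((3, 2, 5), 0, 4, 2),
    ((4, 5, 6), 3, 2, 5), ((5, 3, 4), 2, 0, 3), ((5, 3, 6), 2, 0, 5), ((5, 3, 7), 2, 0, 1),
    ((5, 4, 6), 2, 3, 5), ((5, 4, 7), 2, 3, 1), ((5, 6, 7), 2, 5, 1), ((6, 0, 1), 5, 0, 1),
    ((6, 0, 4), 5, 0, 3), ((6, 0, 5), 5, 0, 2), ((6, 1, 4), 5, 1, 3), ((6, 1, 5), 5, 1, 2),
    ((6, 4, 5), 5, 3, 2), ((7, 5, 8), 1, 2, 6), ((8, 2, 7), 6, 4, 1)]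
  Tc := [(0, 3, 6)]
  Td := [((0, 3), (0, 1), 1), ((0, 3), (0, 6), 5), ((0, 3), (3, 2), 4), ((0, 3), (3, 5), 2), ((0,
    6), (0, 1), 1), ((0, 6), (0, 6), 5), ((0, 6), (3, 2), 4), ((0, 6), (3, 5), 2), ((3, 0),
    (4, 5), 2), ((3, 0), (4, 6), 5), ((6, 0), (8, 2), 4), ((6, 0), (8, 7), 1)]
  G := [[0, 0x614161a1c1aa141c146818184c, 0, 0, 0x145114881821219a11cd1212193681169918cc], [0,
    0, 0, 0x21215241542121c12112121c5ac8, 0x211222512144999681669918aa114591486], [0, 0,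
    0x1111c41111c2611111c881c, 0, 0x119d12232111c1a45711181984c], [0, 0,
    0x1111c2281111c81111c4c16, 0x112d1214114dc282291442121c88a5,
    0x11dd122111d122c1a4611188181183c]]

noncomputable def n2773 : Ent := ⟨e2773, noF, [], [], []⟩

def c2773 : PLift (Cov.check n2773.C.D v2773 = true) := ⟨by decide +kernel⟩

def b2773 : PLift (entF (fidx ts) 400 2773 n2773 = true) := ⟨by decide +kernel⟩

theorem g2773 : GoodF (fidx ts) 400 2773 := GoodF.ofV v2773 n2773 c2773.down b2773.down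

/-- 4594664:2224/2 -/
noncomputable def e2774 : SCfg where
  D := {
    a := 7
    L := 10
    kp := 7
    inn := [(0, 1), (0, 2), (1, 0), (1, 2), (1, 4), (1, 5), (2, 0), (2, 1), (2, 3), (2, 5), (2, 6), (3,
      2), (4, 1), (4, 5), (5, 1), (5, 2), (5, 4), (6, 2)]
    mix := [(0, 0), (0, 1), (1, 1), (2, 0), (2, 2), (2, 3), (2, 4), (3, 3), (3, 4), (3, 5), (4, 1), (4,
      6), (4, 7), (4, 8), (5, 2), (5, 8), (5, 9), (6, 0), (6, 4), (6, 6)]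
    cl := [0, 1, 4, 0, 3, 6, 2, 7, 1, 5]
    chq := [(0, 3), (0, 5), (3, 0), (5, 0)]
    rng := [(0, 1), (0, 6), (1, 0), (1, 6), (2, 3), (2, 9), (3, 2), (3, 5), (4, 5), (4, 6), (5, 3), (5,
      4), (6, 0), (6, 1), (6, 4), (6, 7), (7, 6), (7, 8), (8, 7), (8, 9), (9, 2), (9, 8)]
    lev := [] }
  links := [[1, 2, 7, 8], [2, 0, 8, 4, 5], [7, 0, 1, 5, 9, 10, 3, 11, 6], [11, 2, 10, 12], [5, 1, 8, 13,
    14, 15], [9, 2, 1, 4, 15, 16], [7, 2, 11, 13]]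
  P := {
    a := 7
    N := 17
    nb := [390, 309, 3819, 7172, 57634, 98838, 10372, 8517, 8339, 66596, 4620, 12364, 3080, 18896,
      40976, 81968, 33312]
    tri := [(0, 1, 2), (0, 1, 8), (0, 2, 7), (0, 7, 8), (1, 2, 5), (1, 4, 5), (1, 4, 8), (2, 3, 10),
      (2, 3, 11), (2, 5, 9), (2, 6, 7), (2, 6, 11), (2, 9, 10), (3, 10, 12), (3, 11, 12), (4, 5,
      15), (4, 8, 13), (4, 13, 14), (4, 14, 15), (5, 9, 16), (5, 15, 16), (6, 7, 13), (6, 11, 13)]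
    fin := [0, 0, 0, 0, 4, 0, 0, 0, 4, 9, 0, 11, 12, 13, 14, 4, 16]
    chd := [(0, 11), (0, 16)]
    steps := [(0, 1), (0, 2), (0, 3), (0, 5), (0, 6), (0, 7), (0, 10), (4, 8), (4, 15)] }
  rep := [0, 4, 13, 11, 9, 16, 12, 14]

noncomputable def v2774 : Cov.CovD where
  P := 3
  N := 5
  pl := [2, 5, 6, 7]
  lev := [⟨[], [], [(0, 1)], [], [(0, 0, [3, 5]), (1, 1, [])]⟩,
    ⟨[], [(0, 0), (0, 1)], [], [], [(1, 1, [])]⟩,
    ⟨[(0, 1)], [(0, 0), (0, 1), (0, 3), (1, 0), (1, 1), (1, 3)], [(0, 0), (0, 3)], [4],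
      [(0, 0, [3, 5]), (3, 0, [3, 5]), (4, 3, [0])]⟩,
    ⟨[(0, 2), (1, 2)], [(2, 0), (2, 3)], [(0, 3)], [6], [(3, 0, [3, 5]), (4, 3, [0])]⟩,
    ⟨[(0, 1), (1, 2)], [(0, 1), (1, 1)], [(1, 1)], [2, 7], [(1, 1, []), (8, 1, [])]⟩,
    ⟨[(0, 1), (0, 2), (1, 2), (1, 4), (2, 3), (2, 4)], [(1, 1), (1, 5), (2, 0), (2, 1), (2,
      3), (2, 5), (4, 1), (4, 5)], [(1, 5)], [4], [(8, 1, []), (9, 5, [0])]⟩,
    ⟨[(0, 2), (1, 2), (2, 3), (2, 5)], [(0, 0), (2, 0), (2, 3), (3, 3)], [(0, 3)], [2],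
      [(0, 0, [3, 5]), (4, 3, [0])]⟩]
  Ta := [((0, 1), 0, 1), ((0, 6), 0, 2), ((1, 0), 1, 0), ((1, 6), 1, 2), ((3, 2), 0, 4), ((3, 5),
    0, 6), ((8, 7), 1, 7), ((8, 9), 1, 5)]
  Tb := [((0, 1, 6), 0, 1, 2), ((1, 0, 6), 1, 0, 2), ((2, 3, 9), 4, 0, 5), ((3, 2, 5), 0, 4, 6),
    ((4, 5, 6), 3, 6, 2), ((5, 3, 4), 6, 0, 3), ((6, 0, 1), 2, 0, 1), ((6, 0, 4), 2, 0, 3),
    ((6, 0, 7), 2, 0, 7), ((6, 1, 4), 2, 1, 3), ((6, 1, 7), 2, 1, 7), ((6, 4, 7), 2, 3, 7),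
    ((7, 6, 8), 7, 2, 1), ((8, 7, 9), 1, 7, 5), ((9, 2, 8), 5, 4, 1)]
  Tc := [(0, 3, 5)]
  Td := [((0, 3), (0, 1), 1), ((0, 3), (0, 6), 2), ((0, 3), (3, 2), 4), ((0, 3), (3, 5), 6), ((0,
    5), (0, 1), 1), ((0, 5), (0, 6), 2), ((0, 5), (3, 2), 4), ((0, 5), (3, 5), 6), ((3, 0),
    (4, 5), 6), ((3, 0), (4, 6), 2), ((5, 0), (9, 2), 4), ((5, 0), (9, 8), 1)]
  G := [[0, 0x4141c1c1c1c168181c18a2, 0x4141c1418181c12121c1a1c,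
    0x4144114553441148188814818c1c1cbec1858184d181c,
    0x21219a12a2b932121921282d956421219811899984c], [0, 0, 0x4141c12121c1618181c181c, 0,
    0x21219a1a1932121921222d9562121981189998a1411416], [0, 0, 0,
    0x1181c4141c11c1111cdde2111b111bc445153153981119181b844141c248d,
    0x113114154111192232196818192232239a21815921229911181d9ee212b844d1131239181984c], [0, 0,
    0, 0,
    0x115111d9228a111922c1141741151159885188d911119181f81918992298ac18844d289222d9225222d9888e247]]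

noncomputable def n2774 : Ent := ⟨e2774, noF, [], [], [(14, 12, [1685382413451318758934040885149836426626918246969510546689743474689, 0])]⟩

def c2774 : PLift (Cov.check n2774.C.D v2774 = true) := ⟨by decide +kernel⟩

def b2774 : PLift (entF (fidx ts) 400 2774 n2774 = true) := ⟨by decide +kernel⟩

theorem g2774 : GoodF (fidx ts) 400 2774 := GoodF.ofV v2774 n2774 c2774.down b2774.down

/-- 4594664:2224/4 -/
noncomputable def e2775 : SCfg where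
  D := {
    a := 7
    L := 10
    kp := 7
    inn := [(0, 1), (0, 2), (1, 0), (1, 2), (1, 4), (1, 5), (2, 0), (2, 1), (2, 3), (2, 5), (2, 6), (3,
      2), (4, 1), (4, 5), (5, 1), (5, 2), (5, 4), (6, 2)]
    mix := [(0, 0), (0, 1), (1, 1), (2, 0), (2, 2), (2, 3), (2, 4), (3, 3), (3, 4), (3, 5), (4, 1), (4,
      5), (4, 6), (4, 7), (5, 2), (5, 7), (5, 8), (6, 0), (6, 4), (6, 9)]
    cl := [0, 1, 4, 0, 3, 2, 6, 1, 5, 7]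
    chq := [(0, 3), (0, 5), (3, 0), (5, 0)]
    rng := [(0, 1), (0, 9), (1, 0), (1, 6), (2, 3), (2, 8), (3, 2), (3, 5), (4, 5), (4, 9), (5, 3), (5,
      4), (5, 6), (5, 7), (6, 1), (6, 5), (7, 5), (7, 8), (8, 2), (8, 7), (9, 0), (9, 4)]
    lev := [] }
  links := [[1, 2, 7, 8], [2, 0, 8, 4, 5], [7, 0, 1, 5, 9, 10, 3, 11, 6], [11, 2, 10, 12], [5, 1, 8, 13,
    12, 14], [9, 2, 1, 4, 14, 15], [7, 2, 11, 16]]
  P := {
    a := 7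
    N := 17
    nb := [390, 309, 3819, 7172, 28962, 49686, 67716, 65861, 8339, 33828, 4620, 69708, 27672, 4368,
      36912, 16928, 2240]
    tri := [(0, 1, 2), (0, 1, 8), (0, 2, 7), (0, 7, 8), (1, 2, 5), (1, 4, 5), (1, 4, 8), (2, 3, 10),
      (2, 3, 11), (2, 5, 9), (2, 6, 7), (2, 6, 11), (2, 9, 10), (3, 10, 12), (3, 11, 12), (4, 5,
      14), (4, 8, 13), (4, 12, 13), (4, 12, 14), (5, 9, 15), (5, 14, 15), (6, 7, 16), (6, 11, 16)]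
    fin := [0, 0, 0, 0, 4, 0, 0, 0, 4, 9, 0, 11, 12, 13, 4, 15, 16]
    chd := [(0, 11), (0, 15)]
    steps := [(0, 1), (0, 2), (0, 3), (0, 5), (0, 6), (0, 7), (0, 10), (4, 8), (4, 14)] }
  rep := [0, 4, 12, 11, 9, 15, 13, 16]

noncomputable def v2775 : Cov.CovD where
  P := 3
  N := 5
  pl := [2, 5, 6, 9]
  lev := [⟨[], [], [(0, 1)], [], [(0, 0, [3, 5]), (1, 1, [])]⟩,
    ⟨[], [(0, 0), (0, 1)], [], [], [(1, 1, [])]⟩,
    ⟨[(0, 1)], [(0, 0), (0, 1), (0, 3), (1, 0), (1, 1), (1, 3)], [(0, 0), (0, 3)], [4],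
      [(0, 0, [3, 5]), (3, 0, [3, 5]), (4, 3, [0])]⟩,
    ⟨[(0, 2), (1, 2)], [(2, 0), (2, 3)], [(0, 3)], [2], [(3, 0, [3, 5]), (4, 3, [0])]⟩,
    ⟨[(0, 1), (1, 2)], [(0, 1), (1, 1)], [(1, 1)], [2, 6], [(1, 1, []), (7, 1, [])]⟩,
    ⟨[(0, 1), (0, 2), (1, 2), (1, 4), (2, 3), (2, 4)], [(1, 1), (1, 5), (2, 0), (2, 1), (2,
      3), (2, 5), (4, 1), (4, 5)], [(1, 5)], [4], [(7, 1, []), (8, 5, [0])]⟩,
    ⟨[(0, 2), (1, 2), (2, 3), (2, 5)], [(0, 0), (2, 0), (2, 3), (3, 3)], [(0, 3)], [7],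
      [(0, 0, [3, 5]), (4, 3, [0])]⟩]
  Ta := [((0, 1), 0, 1), ((0, 9), 0, 7), ((1, 0), 1, 0), ((1, 6), 1, 6), ((3, 2), 0, 4), ((3, 5),
    0, 2), ((7, 5), 1, 2), ((7, 8), 1, 5)]
  Tb := [((0, 1, 9), 0, 1, 7), ((1, 0, 6), 1, 0, 6), ((2, 3, 8), 4, 0, 5), ((3, 2, 5), 0, 4, 2),
    ((4, 5, 9), 3, 2, 7), ((5, 3, 4), 2, 0, 3), ((5, 3, 6), 2, 0, 6), ((5, 3, 7), 2, 0, 1),
    ((5, 4, 6), 2, 3, 6), ((5, 4, 7), 2, 3, 1), ((5, 6, 7), 2, 6, 1), ((6, 1, 5), 6, 1, 2),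
    ((7, 5, 8), 1, 2, 5), ((8, 2, 7), 5, 4, 1), ((9, 0, 4), 7, 0, 3)]
  Tc := [(0, 3, 5)]
  Td := [((0, 3), (0, 1), 1), ((0, 3), (0, 9), 7), ((0, 3), (3, 2), 4), ((0, 3), (3, 5), 2), ((0,
    5), (0, 1), 1), ((0, 5), (0, 9), 7), ((0, 5), (3, 2), 4), ((0, 5), (3, 5), 2), ((3, 0),
    (4, 5), 2), ((3, 0), (4, 9), 7), ((5, 0), (8, 2), 4), ((5, 0), (8, 7), 1)]
  G := [[0, 0xe1e1c12841e1c14e1e1c1a181cc6, 0, 0,
    0x16511481a198e111ed9164281698a4d614239811899984c], [0, 0, 0,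
    0xa141691e18d2a1a1c18aa1b1c414195486, 0xc111cd921219324e11e59146161981189998ca], [0, 0,
    0x1111c4411111c81111c2a1c, 0, 0x121293931399a11119d92653351918198c4], [0, 0,
    0x1111c2241111c81111c4c1a, 0x11461145c2111d18c1658c2199119544e311559884a,
    0x119d11dd922c81d114194615511591819139811319ac4a]]

noncomputable def n2775 : Ent := ⟨e2775, noF, [], [], [(13, 16, [1580044410770988437309982408355971841652082177953823432505700470785, 0])]⟩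

def c2775 : PLift (Cov.check n2775.C.D v2775 = true) := ⟨by decide +kernel⟩

def b2775 : PLift (entF (fidx ts) 400 2775 n2775 = true) := ⟨by decide +kernel⟩

theorem g2775 : GoodF (fidx ts) 400 2775 := GoodF.ofV v2775 n2775 c2775.down b2775.down

/-- 4594664:2224 -/
noncomputable def e2776 : SCfg where
  D := {
    a := 7
    L := 11
    kp := 8
    inn := [(0, 1), (0, 2), (1, 0), (1, 2), (1, 4), (1, 5), (2, 0), (2, 1), (2, 3), (2, 5), (2, 6), (3,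
      2), (4, 1), (4, 5), (5, 1), (5, 2), (5, 4), (6, 2)]
    mix := [(0, 0), (0, 1), (1, 1), (2, 0), (2, 2), (2, 3), (2, 4), (3, 3), (3, 4), (3, 5), (4, 1), (4,
      6), (4, 7), (4, 8), (5, 2), (5, 8), (5, 9), (6, 0), (6, 4), (6, 10)]
    cl := [0, 1, 2, 0, 3, 5, 6, 7, 1, 4, 8]
    chq := [(0, 3), (0, 4), (3, 0), (4, 0)]
    rng := [(0, 1), (0, 10), (1, 0), (1, 6), (2, 3), (2, 9), (3, 2), (3, 5), (4, 5), (4, 10), (5, 3),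
      (5, 4), (6, 1), (6, 7), (7, 6), (7, 8), (8, 7), (8, 9), (9, 2), (9, 8), (10, 0), (10, 4)]
    lev := [] }
  links := [[1, 2, 7, 8], [2, 0, 8, 4, 5], [7, 0, 1, 5, 9, 10, 3, 11, 6], [11, 2, 10, 12], [5, 1, 8, 13,
    14, 15], [9, 2, 1, 4, 15, 16], [7, 2, 11, 17]]
  P := {
    a := 7
    N := 18
    nb := [390, 309, 3819, 7172, 57634, 98838, 133252, 131397, 8339, 66596, 4620, 135244, 3080, 16656,
      40976, 81968, 33312, 2240]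
    tri := [(0, 1, 2), (0, 1, 8), (0, 2, 7), (0, 7, 8), (1, 2, 5), (1, 4, 5), (1, 4, 8), (2, 3, 10),
      (2, 3, 11), (2, 5, 9), (2, 6, 7), (2, 6, 11), (2, 9, 10), (3, 10, 12), (3, 11, 12), (4, 5,
      15), (4, 8, 13), (4, 13, 14), (4, 14, 15), (5, 9, 16), (5, 15, 16), (6, 7, 17), (6, 11, 17)]
    fin := [0, 0, 0, 0, 4, 0, 0, 0, 4, 9, 0, 11, 12, 13, 14, 4, 16, 17]
    chd := [(0, 11), (0, 16)]
    steps := [(0, 1), (0, 2), (0, 3), (0, 5), (0, 6), (0, 7), (0, 10), (4, 8), (4, 15)] }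
  rep := [0, 4, 9, 11, 16, 12, 13, 14, 17]

noncomputable def v2776 : Cov.CovD where
  P := 3
  N := 6
  pl := [2, 5, 6, 7, 10]
  lev := [⟨[], [], [(0, 1)], [], [(0, 0, [3, 4]), (1, 1, [])]⟩,
    ⟨[], [(0, 0), (0, 1)], [], [], [(1, 1, [])]⟩,
    ⟨[(0, 1)], [(0, 0), (0, 1), (0, 3), (1, 0), (1, 1), (1, 3)], [(0, 0), (0, 3)], [2],
      [(0, 0, [3, 4]), (3, 0, [3, 4]), (4, 3, [0])]⟩,
    ⟨[(0, 2), (1, 2)], [(2, 0), (2, 3)], [(0, 3)], [5], [(3, 0, [3, 4]), (4, 3, [0])]⟩,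
    ⟨[(0, 1), (1, 2)], [(0, 1), (1, 1)], [(1, 1)], [6, 7], [(1, 1, []), (8, 1, [])]⟩,
    ⟨[(0, 1), (0, 2), (1, 2), (1, 4), (2, 3), (2, 4)], [(1, 1), (1, 4), (2, 0), (2, 1), (2,
      3), (2, 4), (4, 1), (4, 4)], [(1, 4)], [2], [(8, 1, []), (9, 4, [0])]⟩,
    ⟨[(0, 2), (1, 2), (2, 3), (2, 5)], [(0, 0), (2, 0), (2, 3), (3, 3)], [(0, 3)], [8],
      [(0, 0, [3, 4]), (4, 3, [0])]⟩]
  Ta := [((0, 1), 0, 1), ((0, 10), 0, 8), ((1, 0), 1, 0), ((1, 6), 1, 6), ((3, 2), 0, 2), ((3,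
    5), 0, 5), ((8, 7), 1, 7), ((8, 9), 1, 4)]
  Tb := [((0, 1, 10), 0, 1, 8), ((1, 0, 6), 1, 0, 6), ((2, 3, 9), 2, 0, 4), ((3, 2, 5), 0, 2, 5),
    ((4, 5, 10), 3, 5, 8), ((5, 3, 4), 5, 0, 3), ((6, 1, 7), 6, 1, 7), ((7, 6, 8), 7, 6, 1),
    ((8, 7, 9), 1, 7, 4), ((9, 2, 8), 4, 2, 1), ((10, 0, 4), 8, 0, 3)]
  Tc := [(0, 3, 4)]
  Td := [((0, 3), (0, 1), 1), ((0, 3), (0, 10), 8), ((0, 3), (3, 2), 2), ((0, 3), (3, 5), 5),
    ((0, 4), (0, 1), 1), ((0, 4), (0, 10), 8), ((0, 4), (3, 2), 2), ((0, 4), (3, 5), 5), ((3,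
    0), (4, 5), 5), ((3, 0), (4, 10), 8), ((4, 0), (9, 2), 2), ((4, 0), (9, 8), 1)]
  G := [[0, 0x616161e142a1a1a1e182c, 0, 0xa1a156116114557461a1c6698349a11186181a51a9a4d985c,
    0xc18c182161169d7262625c2625c28282dd894], [0, 0, 0,
    0xa186161165d54616161d61a15a181185db8c2, 0x618c1c1c2161169d72611c1c15c1c1189dd8a4], [0,
    0, 0x121212d121212d641121212d121212da81c,
    0x91144511131d1413819911918d11c66911cd64d31519881754885c,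
    0x1111119dd1111d9d62127212dc2c2c2dc894], [0, 0,
    0x18189188a2141414d141414dc184141414d1411c11cdea5181818d181818dc416,
    0x91911b9d1111165d643131115da1a1119da8c2,
    0x91515226111119d1118962c715131d11c1c1d181d84a]]

noncomputable def n2776 : Ent := ⟨e2776, noF, [], [], [(13, 12, [7334790875884700912148207959429466810732110717284923962112213598945281, 0]), (13, 17, [6903326391201334775872065844685381424292761054348340378595029941051393, 0]), (14, 12, [7334790875878425342908362144554489379655930201178005225406871748046849, 0])]⟩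

def c2776 : PLift (Cov.check n2776.C.D v2776 = true) := ⟨by decide +kernel⟩

def b2776 : PLift (entF (fidx ts) 400 2776 n2776 = true) := ⟨by decide +kernel⟩

theorem g2776 : GoodF (fidx ts) 400 2776 := GoodF.ofV v2776 n2776 c2776.down b2776.down

/-- 4866464:2226/1 -/
noncomputable def e2777 : SCfg where
  D := {
    a := 7
    L := 10
    kp := 7
    inn := [(0, 1), (0, 3), (1, 0), (1, 2), (1, 3), (1, 4), (1, 5), (2, 1), (2, 4), (3, 0), (3, 1), (3,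
      5), (4, 1), (4, 2), (5, 1), (5, 3), (5, 6), (6, 5)]
    mix := [(0, 0), (0, 1), (1, 1), (1, 2), (1, 3), (2, 2), (2, 4), (2, 5), (2, 6), (3, 0), (3, 7), (3,
      8), (4, 3), (4, 6), (5, 3), (5, 7), (5, 9), (6, 4), (6, 7), (6, 9)]
    cl := [3, 2, 1, 0, 4, 7, 1, 0, 6, 5]
    chq := [(0, 2), (2, 0), (2, 6), (6, 2)]
    rng := [(0, 1), (0, 8), (1, 0), (1, 2), (2, 1), (2, 4), (3, 6), (3, 9), (4, 2), (4, 5), (4, 7), (4,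
      9), (5, 4), (5, 6), (6, 3), (6, 5), (7, 4), (7, 8), (8, 0), (8, 7), (9, 3), (9, 4)]
    lev := [] }
  links := [[1, 3, 7, 8], [3, 0, 8, 9, 2, 4, 10, 5], [4, 1, 9, 11, 12, 13], [7, 0, 1, 5, 14, 15], [10, 1,
    2, 13], [14, 3, 1, 10, 16, 6], [14, 5, 16, 11]]
  P := {
    a := 7
    N := 17
    nb := [394, 1853, 14866, 49315, 9222, 83018, 84000, 33033, 643, 2310, 73778, 86596, 10244, 5140,
      34920, 16520, 3168]
    tri := [(0, 1, 3), (0, 1, 8), (0, 3, 7), (0, 7, 8), (1, 2, 4), (1, 2, 9), (1, 3, 5), (1, 4, 10),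
      (1, 5, 10), (1, 8, 9), (2, 4, 13), (2, 9, 11), (2, 11, 12), (2, 12, 13), (3, 5, 14), (3, 7,
      15), (3, 14, 15), (4, 10, 13), (5, 6, 14), (5, 6, 16), (5, 10, 16), (6, 11, 14), (6, 11,
      16)]
    fin := [0, 1, 2, 1, 1, 5, 6, 0, 1, 2, 5, 6, 12, 2, 5, 15, 16]
    chd := [(1, 5), (1, 15)]
    steps := [(0, 7), (1, 3), (1, 4), (1, 8), (2, 9), (2, 13), (5, 10), (5, 14), (6, 11)] }
  rep := [5, 2, 1, 0, 6, 16, 15, 12]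

noncomputable def v2777 : Cov.CovD where
  P := 3
  N := 5
  pl := [0, 4, 5, 9]
  lev := [⟨[], [], [], [3], [(1, 2, [0, 6])]⟩,
    ⟨[], [(0, 0), (0, 1), (0, 2)], [(0, 1), (0, 2), (1, 2)], [], [(1, 2, [0, 6]), (2, 1,
      []), (3, 0, [2])]⟩,
    ⟨[(0, 1)], [(1, 0), (1, 1), (1, 2)], [(1, 1)], [4, 7], [(2, 1, []), (6, 1, [])]⟩,
    ⟨[(0, 1), (1, 2)], [(0, 0), (0, 2), (0, 6), (1, 0), (1, 1), (1, 2), (1, 6)], [(0, 6)],
      [3], [(7, 0, [2]), (8, 6, [2])]⟩,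
    ⟨[(0, 1), (1, 2), (1, 3)], [(1, 0), (1, 1), (1, 2), (2, 0), (2, 1)], [(0, 1)], [], [(3,
      0, [2]), (6, 1, [])]⟩,
    ⟨[(0, 1), (0, 3), (1, 2), (1, 3), (1, 4)], [(1, 0), (1, 1), (1, 2), (3, 0), (3, 6), (4,
      0)], [(0, 0)], [5], [(3, 0, [2]), (7, 0, [2])]⟩,
    ⟨[(1, 5), (3, 5)], [(3, 0), (5, 0)], [], [4, 5], [(7, 0, [2])]⟩]
  Ta := [((2, 1), 1, 2), ((2, 4), 1, 4), ((3, 6), 0, 1), ((3, 9), 0, 5), ((6, 3), 1, 0), ((6, 5),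
    1, 7), ((7, 4), 0, 4), ((7, 8), 0, 6)]
  Tb := [((0, 1, 8), 3, 2, 6), ((1, 0, 2), 2, 3, 1), ((2, 1, 4), 1, 2, 4), ((3, 6, 9), 0, 1, 5),
    ((4, 2, 5), 4, 1, 7), ((4, 2, 7), 4, 1, 0), ((4, 2, 9), 4, 1, 5), ((4, 5, 7), 4, 7, 0),
    ((4, 5, 9), 4, 7, 5), ((4, 7, 9), 4, 0, 5), ((5, 4, 6), 7, 4, 1), ((6, 3, 5), 1, 0, 7),
    ((7, 4, 8), 0, 4, 6), ((8, 0, 7), 6, 3, 0), ((9, 3, 4), 5, 0, 4)]
  Tc := [(2, 0, 6)]
  Td := [((0, 2), (3, 6), 1), ((0, 2), (3, 9), 5), ((0, 2), (7, 4), 4), ((0, 2), (7, 8), 6), ((2,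
    0), (1, 0), 3), ((2, 0), (1, 2), 1), ((2, 6), (1, 0), 3), ((2, 6), (1, 2), 1), ((6, 2),
    (8, 0), 3), ((6, 2), (8, 7), 0)]
  G := [[0, 0, 0x24c414821c211a881c8e12a211a8a116211a21162ed45,
    0x81c8231a8231a42d41862212c2212c22d8c,
    0x42641ca621588218c8164842a864714a4412681826d88162488b], [0,
    0x4a6414148882311c22ac11c42c2681688862838cc, 0x82a4142a81c2a41d4c2641182c8124c81cac, 0,
    0x82c4124c4114821c4cd21264144614a44c2681d8a], [0, 0,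
    0x82c118482a2184116211684168e116411681162e58d,
    0x2422648298822a822924c824da868264a22e2c82d45,
    0xe86884a68a4c8ac182648ce428a6182c42898e6444ea24c262482e2cd8b], [0, 0,
    0x82a111168894826114268112a44d824c11144228358e, 0,
    0xc264e428ca12ac482c8a42a424c4ac942a14844482e4c524482c4c8a3]]

noncomputable def n2777 : Ent := ⟨e2777, noF, [], [], []⟩

def c2777 : PLift (Cov.check n2777.C.D v2777 = true) := ⟨by decide +kernel⟩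

def b2777 : PLift (entF (fidx ts) 400 2777 n2777 = true) := ⟨by decide +kernel⟩

theorem g2777 : GoodF (fidx ts) 400 2777 := GoodF.ofV v2777 n2777 c2777.down b2777.down

/-- 4866464:2226/2 -/
noncomputable def e2778 : SCfg where
  D := {
    a := 7
    L := 10
    kp := 7
    inn := [(0, 1), (0, 3), (1, 0), (1, 2), (1, 3), (1, 4), (1, 5), (2, 1), (2, 4), (3, 0), (3, 1), (3,
      5), (4, 1), (4, 2), (5, 1), (5, 3), (5, 6), (6, 5)]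
    mix := [(0, 0), (0, 1), (1, 1), (1, 2), (1, 3), (2, 2), (2, 4), (2, 5), (2, 6), (3, 0), (3, 7), (3,
      8), (4, 3), (4, 6), (5, 3), (5, 7), (5, 9), (6, 5), (6, 7), (6, 9)]
    cl := [3, 2, 1, 0, 7, 4, 1, 0, 6, 5]
    chq := [(0, 2), (2, 0), (2, 6), (6, 2)]
    rng := [(0, 1), (0, 8), (1, 0), (1, 2), (2, 1), (2, 4), (3, 6), (3, 9), (4, 2), (4, 5), (5, 4), (5,
      6), (5, 7), (5, 9), (6, 3), (6, 5), (7, 5), (7, 8), (8, 0), (8, 7), (9, 3), (9, 5)]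
    lev := [] }
  links := [[1, 3, 7, 8], [3, 0, 8, 9, 2, 4, 10, 5], [4, 1, 9, 11, 12, 13], [7, 0, 1, 5, 14, 15], [10, 1,
    2, 13], [14, 3, 1, 10, 16, 6], [14, 5, 16, 12]]
  P := {
    a := 7
    N := 17
    nb := [394, 1853, 14866, 49315, 9222, 83018, 86048, 33033, 643, 2310, 73778, 4612, 92228, 5140,
      36968, 16520, 5216]
    tri := [(0, 1, 3), (0, 1, 8), (0, 3, 7), (0, 7, 8), (1, 2, 4), (1, 2, 9), (1, 3, 5), (1, 4, 10),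
      (1, 5, 10), (1, 8, 9), (2, 4, 13), (2, 9, 11), (2, 11, 12), (2, 12, 13), (3, 5, 14), (3, 7,
      15), (3, 14, 15), (4, 10, 13), (5, 6, 14), (5, 6, 16), (5, 10, 16), (6, 12, 14), (6, 12,
      16)]
    fin := [0, 1, 2, 1, 1, 5, 6, 0, 1, 2, 5, 11, 6, 2, 5, 15, 16]
    chd := [(1, 5), (1, 15)]
    steps := [(0, 7), (1, 3), (1, 4), (1, 8), (2, 9), (2, 13), (5, 10), (5, 14), (6, 12)] }
  rep := [5, 2, 1, 0, 6, 16, 15, 11]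

noncomputable def v2778 : Cov.CovD where
  P := 3
  N := 5
  pl := [0, 4, 5, 9]
  lev := [⟨[], [], [], [3], [(1, 2, [0, 6])]⟩,
    ⟨[], [(0, 0), (0, 1), (0, 2)], [(0, 1), (0, 2), (1, 2)], [], [(1, 2, [0, 6]), (2, 1,
      []), (3, 0, [2])]⟩,
    ⟨[(0, 1)], [(1, 0), (1, 1), (1, 2)], [(1, 1)], [4, 7], [(2, 1, []), (6, 1, [])]⟩,
    ⟨[(0, 1), (1, 2)], [(0, 0), (0, 2), (0, 6), (1, 0), (1, 1), (1, 2), (1, 6)], [(0, 6)],
      [3], [(7, 0, [2]), (8, 6, [2])]⟩,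
    ⟨[(0, 1), (1, 2), (1, 3)], [(1, 0), (1, 1), (1, 2), (2, 0), (2, 1)], [(0, 1)], [], [(3,
      0, [2]), (6, 1, [])]⟩,
    ⟨[(0, 1), (0, 3), (1, 2), (1, 3), (1, 4)], [(1, 0), (1, 1), (1, 2), (3, 0), (3, 6), (4,
      0)], [(0, 0)], [5], [(3, 0, [2]), (7, 0, [2])]⟩,
    ⟨[(1, 5), (3, 5)], [(3, 0), (5, 0)], [], [4, 5], [(7, 0, [2])]⟩]
  Ta := [((2, 1), 1, 2), ((2, 4), 1, 7), ((3, 6), 0, 1), ((3, 9), 0, 5), ((6, 3), 1, 0), ((6, 5),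
    1, 4), ((7, 5), 0, 4), ((7, 8), 0, 6)]
  Tb := [((0, 1, 8), 3, 2, 6), ((1, 0, 2), 2, 3, 1), ((2, 1, 4), 1, 2, 7), ((3, 6, 9), 0, 1, 5),
    ((4, 2, 5), 7, 1, 4), ((5, 4, 6), 4, 7, 1), ((5, 4, 7), 4, 7, 0), ((5, 4, 9), 4, 7, 5),
    ((5, 6, 7), 4, 1, 0), ((5, 6, 9), 4, 1, 5), ((5, 7, 9), 4, 0, 5), ((6, 3, 5), 1, 0, 4),
    ((7, 5, 8), 0, 4, 6), ((8, 0, 7), 6, 3, 0), ((9, 3, 5), 5, 0, 4)]
  Tc := [(2, 0, 6)]
  Td := [((0, 2), (3, 6), 1), ((0, 2), (3, 9), 5), ((0, 2), (7, 5), 4), ((0, 2), (7, 8), 6), ((2,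
    0), (1, 0), 3), ((2, 0), (1, 2), 1), ((2, 6), (1, 0), 3), ((2, 6), (1, 2), 1), ((6, 2),
    (8, 0), 3), ((6, 2), (8, 7), 0)]
  G := [[0, 0, 0x42641482a11c2a419c82a11c2a219442a1148e, 0x816424168221c42d814c4212c22581a828c5,
    0x42621c2621588421888262144826472248a412a44d81262488f], [0,
    0x81c8212214a2a126211a8ce44a621486a818c11c8224d,
    0x82c4124c411488d28a64124c41c812411a811a4e14d, 0,
    0x12644114882c8c44451c8c1488da8a64142681ca641d8a], [0, 0,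
    0x42621116211a2c582a118c82a1142a81c2a21d46, 0xa862224c422ec22d8a861224c42e428a2d85,
    0x882442648c124c12c262e428ca5826282c2a898264462c24844482e2cd8b], [0, 0,
    0x82a81116889424c1111a445842681482c8111c829ce, 0,
    0x884412ca642ec4a1826882c8a4a68a4c8ac922144ea4486648c4d88148ab]]

noncomputable def n2778 : Ent := ⟨e2778, noF, [], [], []⟩

def c2778 : PLift (Cov.check n2778.C.D v2778 = true) := ⟨by decide +kernel⟩

def b2778 : PLift (entF (fidx ts) 400 2778 n2778 = true) := ⟨by decide +kernel⟩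

theorem g2778 : GoodF (fidx ts) 400 2778 := GoodF.ofV v2778 n2778 c2778.down b2778.down

/-- 4866464:2226 -/
noncomputable def e2779 : SCfg where
  D := {
    a := 7
    L := 11
    kp := 8
    inn := [(0, 1), (0, 3), (1, 0), (1, 2), (1, 3), (1, 4), (1, 5), (2, 1), (2, 4), (3, 0), (3, 1), (3,
      5), (4, 1), (4, 2), (5, 1), (5, 3), (5, 6), (6, 5)]
    mix := [(0, 0), (0, 1), (1, 1), (1, 2), (1, 3), (2, 2), (2, 4), (2, 5), (2, 6), (3, 0), (3, 7), (3,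
      8), (4, 3), (4, 6), (5, 3), (5, 7), (5, 9), (6, 7), (6, 9), (6, 10)]
    cl := [3, 2, 1, 0, 6, 7, 1, 0, 5, 4, 8]
    chq := [(0, 2), (2, 0), (2, 5), (5, 2)]
    rng := [(0, 1), (0, 8), (1, 0), (1, 2), (2, 1), (2, 4), (3, 6), (3, 9), (4, 2), (4, 5), (5, 4), (5,
      6), (6, 3), (6, 5), (7, 8), (7, 10), (8, 0), (8, 7), (9, 3), (9, 10), (10, 7), (10, 9)]
    lev := [] }
  links := [[1, 3, 7, 8], [3, 0, 8, 9, 2, 4, 10, 5], [4, 1, 9, 11, 12, 13], [7, 0, 1, 5, 14, 15], [10, 1,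
    2, 13], [14, 3, 1, 10, 16, 6], [14, 5, 16, 17]]
  P := {
    a := 7
    N := 18
    nb := [394, 1853, 14866, 49315, 9222, 83018, 213024, 33033, 643, 2310, 73778, 4612, 10244, 5140,
      163944, 16520, 132192, 81984]
    tri := [(0, 1, 3), (0, 1, 8), (0, 3, 7), (0, 7, 8), (1, 2, 4), (1, 2, 9), (1, 3, 5), (1, 4, 10),
      (1, 5, 10), (1, 8, 9), (2, 4, 13), (2, 9, 11), (2, 11, 12), (2, 12, 13), (3, 5, 14), (3, 7,
      15), (3, 14, 15), (4, 10, 13), (5, 6, 14), (5, 6, 16), (5, 10, 16), (6, 14, 17), (6, 16,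
      17)]
    fin := [0, 1, 2, 1, 1, 5, 5, 0, 1, 2, 5, 11, 12, 2, 5, 15, 16, 17]
    chd := [(1, 5), (1, 15)]
    steps := [(0, 7), (1, 3), (1, 4), (1, 8), (2, 9), (2, 13), (5, 6), (5, 10), (5, 14)] }
  rep := [5, 2, 1, 0, 16, 15, 11, 12, 17]

noncomputable def v2779 : Cov.CovD where
  P := 3
  N := 6
  pl := [0, 4, 5, 9, 10]
  lev := [⟨[], [], [], [3], [(1, 2, [0, 5])]⟩,
    ⟨[], [(0, 0), (0, 1), (0, 2)], [(0, 1), (0, 2), (1, 2)], [], [(1, 2, [0, 5]), (2, 1,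
      []), (3, 0, [2])]⟩,
    ⟨[(0, 1)], [(1, 0), (1, 1), (1, 2)], [(1, 1)], [6, 7], [(2, 1, []), (6, 1, [])]⟩,
    ⟨[(0, 1), (1, 2)], [(0, 0), (0, 2), (0, 5), (1, 0), (1, 1), (1, 2), (1, 5)], [(0, 5)],
      [3], [(7, 0, [2]), (8, 5, [2])]⟩,
    ⟨[(0, 1), (1, 2), (1, 3)], [(1, 0), (1, 1), (1, 2), (2, 0), (2, 1)], [(0, 1)], [], [(3,
      0, [2]), (6, 1, [])]⟩,
    ⟨[(0, 1), (0, 3), (1, 2), (1, 3), (1, 4)], [(1, 0), (1, 1), (1, 2), (3, 0), (3, 5), (4,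
      0)], [(0, 0)], [4], [(3, 0, [2]), (7, 0, [2])]⟩,
    ⟨[(1, 5), (3, 5)], [(3, 0), (5, 0)], [], [4, 8], [(7, 0, [2])]⟩]
  Ta := [((2, 1), 1, 2), ((2, 4), 1, 6), ((3, 6), 0, 1), ((3, 9), 0, 4), ((6, 3), 1, 0), ((6, 5),
    1, 7), ((7, 8), 0, 5), ((7, 10), 0, 8)]
  Tb := [((0, 1, 8), 3, 2, 5), ((1, 0, 2), 2, 3, 1), ((2, 1, 4), 1, 2, 6), ((3, 6, 9), 0, 1, 4),
    ((4, 2, 5), 6, 1, 7), ((5, 4, 6), 7, 6, 1), ((6, 3, 5), 1, 0, 7), ((7, 8, 10), 0, 5, 8),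
    ((8, 0, 7), 5, 3, 0), ((9, 3, 10), 4, 0, 8), ((10, 7, 9), 8, 0, 4)]
  Tc := [(2, 0, 5)]
  Td := [((0, 2), (3, 6), 1), ((0, 2), (3, 9), 4), ((0, 2), (7, 8), 5), ((0, 2), (7, 10), 8),
    ((2, 0), (1, 0), 3), ((2, 0), (1, 2), 1), ((2, 5), (1, 0), 3), ((2, 5), (1, 2), 1), ((5,
    2), (8, 0), 3), ((5, 2), (8, 7), 0)]
  G := [[0, 0, 0xca64148c6a11c6a8194ca611ca681ca621d8e, 0xc164216c4216c42d8396821da821da82d45,
    0xca621ca6215c8218c9364542ca62771c2648616a44d89364488b], [0,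
    0x128122c88bc6a8118286a43e4124116461841168611c44483e8c,
    0xca6411c6a41c6a11ccca641ca68111a411686d8c, 0, 0xa6c41a6c81a6c81d21764144639a4416a44d8a],
    [0, 0, 0xca611116445c6a41116289cca6118c6a11c6a815ca,
    0x64221644249a4a821a6c22a2c42c5e24e82e4a82e2c22d4d,
    0x82421ca64488a6c8eca648c9ca62e428ca1c824a6c22c98e6248e6489484248ee2cd8b], [0, 0,
    0xa6c81a6c11a6c41d2ca64111a111a16ca641d8c, 0,
    0xc48888c1ca68c6a8cca648c3a242ec4a1c6a4a6c46a6c82c948ee1448ee4828658b]]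

noncomputable def n2779 : Ent := ⟨e2779, noF, [], [], [(11, 17, [6903326391201334775872065844685381424292761054348340378595029941063681, 0]), (12, 17, [6903326391201334775872065844685381424292761054348340378595029941067777, 0])]⟩

def c2779 : PLift (Cov.check n2779.C.D v2779 = true) := ⟨by decide +kernel⟩

def b2779 : PLift (entF (fidx ts) 400 2779 n2779 = true) := ⟨by decide +kernel⟩

theorem g2779 : GoodF (fidx ts) 400 2779 := GoodF.ofV v2779 n2779 c2779.down b2779.down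

/-- 4866464:2227/1 -/
noncomputable def e2780 : SCfg where
  D := {
    a := 7
    L := 10
    kp := 7
    inn := [(0, 1), (0, 3), (1, 0), (1, 2), (1, 3), (1, 5), (2, 1), (2, 4), (2, 5), (3, 0), (3, 1), (3,
      6), (4, 2), (4, 5), (5, 1), (5, 2), (5, 4), (6, 3)]
    mix := [(0, 0), (0, 1), (1, 1), (1, 2), (1, 3), (1, 4), (2, 2), (2, 5), (2, 6), (3, 0), (3, 4), (3,
      7), (4, 6), (4, 8), (5, 3), (5, 8), (5, 9), (6, 0), (6, 5), (6, 7)]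
    cl := [0, 2, 1, 1, 0, 4, 3, 5, 6, 7]
    chq := [(1, 3), (3, 1), (3, 7), (7, 3)]
    rng := [(0, 1), (0, 5), (1, 0), (1, 2), (2, 1), (2, 5), (3, 4), (3, 9), (4, 3), (4, 7), (5, 0), (5,
      2), (5, 6), (5, 7), (6, 5), (6, 8), (7, 4), (7, 5), (8, 6), (8, 9), (9, 3), (9, 8)]
    lev := [] }
  links := [[1, 3, 7, 8], [3, 0, 8, 9, 2, 5, 10, 11], [5, 1, 9, 12, 13, 4], [7, 0, 1, 11, 14, 6], [5, 2,
    13, 15], [10, 1, 2, 4, 15, 16], [7, 3, 14, 12]]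
  P := {
    a := 7
    N := 17
    nb := [394, 3885, 12850, 18627, 40996, 99350, 20616, 4425, 643, 4358, 67618, 17418, 25284, 36884,
      6216, 73776, 33824]
    tri := [(0, 1, 3), (0, 1, 8), (0, 3, 7), (0, 7, 8), (1, 2, 5), (1, 2, 9), (1, 3, 11), (1, 5, 10),
      (1, 8, 9), (1, 10, 11), (2, 4, 5), (2, 4, 13), (2, 9, 12), (2, 12, 13), (3, 6, 7), (3, 6,
      14), (3, 11, 14), (4, 5, 15), (4, 13, 15), (5, 10, 16), (5, 15, 16), (6, 7, 12), (6, 12,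
      14)]
    fin := [0, 1, 1, 0, 4, 4, 0, 0, 8, 1, 1, 0, 12, 4, 14, 15, 16]
    chd := [(1, 4), (4, 16)]
    steps := [(0, 3), (0, 6), (0, 7), (0, 11), (1, 2), (1, 9), (1, 10), (4, 5), (4, 13)] }
  rep := [0, 1, 8, 4, 12, 14, 15, 16]

noncomputable def v2780 : Cov.CovD where
  P := 3
  N := 5
  pl := [1, 5, 7, 8]
  lev := [⟨[], [], [], [2], [(0, 0, [])]⟩,
    ⟨[], [(0, 0), (0, 1)], [(0, 1), (1, 1)], [2], [(2, 1, [3]), (3, 1, [3]), (4, 0, [])]⟩,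
    ⟨[(0, 1)], [(1, 0), (1, 1), (1, 3)], [(1, 3)], [4], [(2, 1, [3]), (6, 3, [1, 7])]⟩,
    ⟨[(0, 1), (1, 2)], [(0, 0), (1, 0), (1, 1)], [(0, 0)], [5], [(0, 0, []), (4, 0, [])]⟩,
    ⟨[(1, 2)], [(2, 1), (2, 3)], [], [6], [(6, 3, [1, 7])]⟩,
    ⟨[(0, 1), (1, 2), (1, 3), (1, 4), (2, 4)], [(1, 0), (1, 1), (1, 7), (2, 1), (2, 3), (2,
      7), (4, 1), (4, 3), (4, 7)], [(1, 7)], [6], [(3, 1, [3]), (9, 7, [3])]⟩,
    ⟨[(0, 3), (1, 3)], [(0, 0), (3, 0)], [], [4, 5], [(0, 0, [])]⟩]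
  Ta := [((0, 1), 0, 2), ((0, 5), 0, 4), ((2, 1), 1, 2), ((2, 5), 1, 4), ((3, 4), 1, 0), ((3, 9),
    1, 7), ((4, 3), 0, 1), ((4, 7), 0, 5)]
  Tb := [((0, 1, 5), 0, 2, 4), ((1, 0, 2), 2, 0, 1), ((2, 1, 5), 1, 2, 4), ((3, 4, 9), 1, 0, 7),
    ((4, 3, 7), 0, 1, 5), ((5, 0, 2), 4, 0, 1), ((5, 0, 6), 4, 0, 3), ((5, 0, 7), 4, 0, 5),
    ((5, 2, 6), 4, 1, 3), ((5, 2, 7), 4, 1, 5), ((5, 6, 7), 4, 3, 5), ((6, 5, 8), 3, 4, 6),
    ((7, 4, 5), 5, 0, 4), ((8, 6, 9), 6, 3, 7), ((9, 3, 8), 7, 1, 6)]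
  Tc := [(3, 1, 7)]
  Td := [((1, 3), (2, 1), 2), ((1, 3), (2, 5), 4), ((1, 3), (3, 4), 0), ((1, 3), (3, 9), 7), ((3,
    1), (6, 5), 4), ((3, 1), (6, 8), 6), ((3, 7), (6, 5), 4), ((3, 7), (6, 8), 6), ((7, 3),
    (9, 3), 1), ((7, 3), (9, 8), 6)]
  G := [[0, 0, 0x2122c4142cc4266c9458281c22321aca2caaae32292c9c2,
    0x8142146418218a4424a982a85242822bed4248487222856458284922249c81c,
    0x8887444c6724aaa7a2d6122622a22d222622a22d44644a48dcc988688a42d881a], [0, 0,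
    0xcc52225261225229c2482882282e3ccc5cc9c824a, 0,
    0x4124c181c4d2252124d62222c2728422988c823844c24e81448828dce1a], [0, 0, 0,
    0x1211c2221c611c811e3248658281c2112ca2822a329c4,
    0x4142c1112c6548941296588838162232166884ca5a846989], [0, 0x11611a11ce11611a11cea148, 0,
    0, 0x12511c21518cc111d243822942222d22383]]

noncomputable def n2780 : Ent := ⟨e2780, noF, [], [], []⟩

def c2780 : PLift (Cov.check n2780.C.D v2780 = true) := ⟨by decide +kernel⟩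

def b2780 : PLift (entF (fidx ts) 400 2780 n2780 = true) := ⟨by decide +kernel⟩

theorem g2780 : GoodF (fidx ts) 400 2780 := GoodF.ofV v2780 n2780 c2780.down b2780.down

/-- 4866464:2227/2 -/
noncomputable def e2781 : SCfg where
  D := {
    a := 7
    L := 10
    kp := 7
    inn := [(0, 1), (0, 3), (1, 0), (1, 2), (1, 3), (1, 5), (2, 1), (2, 4), (2, 5), (3, 0), (3, 1), (3,
      6), (4, 2), (4, 5), (5, 1), (5, 2), (5, 4), (6, 3)]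
    mix := [(0, 0), (0, 1), (1, 1), (1, 2), (1, 3), (1, 4), (2, 2), (2, 5), (2, 6), (3, 0), (3, 4), (3,
      7), (4, 6), (4, 8), (5, 3), (5, 8), (5, 9), (6, 0), (6, 6), (6, 7)]
    cl := [0, 3, 1, 1, 0, 7, 2, 4, 5, 6]
    chq := [(1, 2), (2, 1), (2, 6), (6, 2)]
    rng := [(0, 1), (0, 6), (1, 0), (1, 2), (2, 1), (2, 5), (3, 4), (3, 9), (4, 3), (4, 7), (5, 2), (5,
      6), (6, 0), (6, 5), (6, 7), (6, 8), (7, 4), (7, 6), (8, 6), (8, 9), (9, 3), (9, 8)]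
    lev := [] }
  links := [[1, 3, 7, 8], [3, 0, 8, 9, 2, 5, 10, 11], [5, 1, 9, 12, 13, 4], [7, 0, 1, 11, 14, 6], [5, 2,
    13, 15], [10, 1, 2, 4, 15, 16], [7, 3, 14, 13]]
  P := {
    a := 7
    N := 17
    nb := [394, 3885, 12850, 18627, 40996, 99350, 24712, 8521, 643, 4358, 67618, 17418, 8708, 53460,
      10312, 73776, 33824]
    tri := [(0, 1, 3), (0, 1, 8), (0, 3, 7), (0, 7, 8), (1, 2, 5), (1, 2, 9), (1, 3, 11), (1, 5, 10),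
      (1, 8, 9), (1, 10, 11), (2, 4, 5), (2, 4, 13), (2, 9, 12), (2, 12, 13), (3, 6, 7), (3, 6,
      14), (3, 11, 14), (4, 5, 15), (4, 13, 15), (5, 10, 16), (5, 15, 16), (6, 7, 13), (6, 13,
      14)]
    fin := [0, 1, 1, 0, 4, 4, 0, 0, 8, 1, 1, 0, 12, 4, 14, 15, 16]
    chd := [(1, 4), (4, 16)]
    steps := [(0, 3), (0, 6), (0, 7), (0, 11), (1, 2), (1, 9), (1, 10), (4, 5), (4, 13)] }
  rep := [0, 1, 4, 8, 14, 15, 16, 12]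

noncomputable def v2781 : Cov.CovD where
  P := 3
  N := 5
  pl := [1, 5, 7, 8]
  lev := [⟨[], [], [], [3], [(0, 0, [])]⟩,
    ⟨[], [(0, 0), (0, 1)], [(0, 1), (1, 1)], [3], [(2, 1, [2]), (3, 1, [2]), (4, 0, [])]⟩,
    ⟨[(0, 1)], [(1, 0), (1, 1), (1, 2)], [(1, 2)], [7], [(2, 1, [2]), (6, 2, [1, 6])]⟩,
    ⟨[(0, 1), (1, 2)], [(0, 0), (1, 0), (1, 1)], [(0, 0)], [4], [(0, 0, []), (4, 0, [])]⟩,
    ⟨[(1, 2)], [(2, 1), (2, 2)], [], [5], [(6, 2, [1, 6])]⟩,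
    ⟨[(0, 1), (1, 2), (1, 3), (1, 4), (2, 4)], [(1, 0), (1, 1), (1, 6), (2, 1), (2, 2), (2,
      6), (4, 1), (4, 2), (4, 6)], [(1, 6)], [5], [(3, 1, [2]), (9, 6, [2])]⟩,
    ⟨[(0, 3), (1, 3)], [(0, 0), (2, 2), (3, 0), (3, 2), (4, 2)], [(0, 2)], [4], [(0, 0,
      []), (6, 2, [1, 6])]⟩]
  Ta := [((0, 1), 0, 3), ((0, 6), 0, 2), ((2, 1), 1, 3), ((2, 5), 1, 7), ((3, 4), 1, 0), ((3, 9),
    1, 6), ((4, 3), 0, 1), ((4, 7), 0, 4)]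
  Tb := [((0, 1, 6), 0, 3, 2), ((1, 0, 2), 3, 0, 1), ((2, 1, 5), 1, 3, 7), ((3, 4, 9), 1, 0, 6),
    ((4, 3, 7), 0, 1, 4), ((5, 2, 6), 7, 1, 2), ((6, 0, 5), 2, 0, 7), ((6, 0, 7), 2, 0, 4),
    ((6, 0, 8), 2, 0, 5), ((6, 5, 7), 2, 7, 4), ((6, 5, 8), 2, 7, 5), ((6, 7, 8), 2, 4, 5),
    ((7, 4, 6), 4, 0, 2), ((8, 6, 9), 5, 2, 6), ((9, 3, 8), 6, 1, 5)]
  Tc := [(2, 1, 6)]
  Td := [((1, 2), (2, 1), 3), ((1, 2), (2, 5), 7), ((1, 2), (3, 4), 0), ((1, 2), (3, 9), 6), ((2,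
    1), (6, 0), 0), ((2, 1), (6, 5), 7), ((2, 1), (6, 7), 4), ((2, 1), (6, 8), 5), ((2, 6),
    (6, 0), 0), ((2, 6), (6, 5), 7), ((2, 6), (6, 7), 4), ((2, 6), (6, 8), 5), ((6, 2), (9,
    3), 1), ((6, 2), (9, 8), 5)]
  G := [[0, 0, 0x8141a2181a6488181a2141aa844141681816688181a4141aa4ce,
    0xc2c2528c2c2c21c2c2924d2, 0x82849222496184a292424368982888b922222b9a88388a9222b229a94c],
    [0, 0, 0x8181c2121c6288181c2121ca24c, 0xc282c21294c212c2829c242496,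
    0x8a584924249628aa914284849a2c249c25a], [0, 0, 0, 0x9292c22288292965c29292c292525c2,
    0x848a63242436848292422969828859242822da48c82922322a9c9c1], [0,
    0x4282c12116c6181842111612c21c88a82c484a14b, 0, 0x222252242ccc2c2925c2c252c2c2529c1,
    0xaa5a8c9842496288c885922c2259a2c1]]

noncomputable def n2781 : Ent := ⟨e2781, noF, [], [], []⟩

def c2781 : PLift (Cov.check n2781.C.D v2781 = true) := ⟨by decide +kernel⟩

def b2781 : PLift (entF (fidx ts) 400 2781 n2781 = true) := ⟨by decide +kernel⟩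

theorem g2781 : GoodF (fidx ts) 400 2781 := GoodF.ofV v2781 n2781 c2781.down b2781.down

/-- 4866464:2227/3 -/
noncomputable def e2782 : SCfg where
  D := {
    a := 7
    L := 10
    kp := 7
    inn := [(0, 1), (0, 3), (1, 0), (1, 2), (1, 3), (1, 5), (2, 1), (2, 4), (2, 5), (3, 0), (3, 1), (3,
      6), (4, 2), (4, 5), (5, 1), (5, 2), (5, 4), (6, 3)]
    mix := [(0, 0), (0, 1), (1, 1), (1, 2), (1, 3), (1, 4), (2, 2), (2, 5), (2, 6), (3, 0), (3, 4), (3,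
      7), (4, 6), (4, 8), (5, 3), (5, 8), (5, 9), (6, 0), (6, 7), (6, 8)]
    cl := [0, 2, 1, 1, 0, 7, 4, 5, 3, 6]
    chq := [(1, 4), (4, 1), (4, 6), (6, 4)]
    rng := [(0, 1), (0, 8), (1, 0), (1, 2), (2, 1), (2, 5), (3, 4), (3, 9), (4, 3), (4, 7), (5, 2), (5,
      6), (6, 5), (6, 8), (7, 4), (7, 8), (8, 0), (8, 6), (8, 7), (8, 9), (9, 3), (9, 8)]
    lev := [] }
  links := [[1, 3, 7, 8], [3, 0, 8, 9, 2, 5, 10, 11], [5, 1, 9, 12, 13, 4], [7, 0, 1, 11, 14, 6], [5, 2,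
    13, 15], [10, 1, 2, 4, 15, 16], [7, 3, 14, 15]]
  P := {
    a := 7
    N := 17
    nb := [394, 3885, 12850, 18627, 40996, 99350, 49288, 33097, 643, 4358, 67618, 17418, 8708, 36884,
      34888, 90352, 33824]
    tri := [(0, 1, 3), (0, 1, 8), (0, 3, 7), (0, 7, 8), (1, 2, 5), (1, 2, 9), (1, 3, 11), (1, 5, 10),
      (1, 8, 9), (1, 10, 11), (2, 4, 5), (2, 4, 13), (2, 9, 12), (2, 12, 13), (3, 6, 7), (3, 6,
      14), (3, 11, 14), (4, 5, 15), (4, 13, 15), (5, 10, 16), (5, 15, 16), (6, 7, 15), (6, 14,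
      15)]
    fin := [0, 1, 1, 0, 4, 4, 0, 0, 8, 1, 1, 0, 12, 4, 14, 15, 16]
    chd := [(1, 4), (4, 16)]
    steps := [(0, 3), (0, 6), (0, 7), (0, 11), (1, 2), (1, 9), (1, 10), (4, 5), (4, 13)] }
  rep := [0, 1, 8, 15, 4, 14, 16, 12]

noncomputable def v2782 : Cov.CovD where
  P := 3
  N := 5
  pl := [1, 5, 7, 8]
  lev := [⟨[], [], [], [2], [(0, 0, [])]⟩,
    ⟨[], [(0, 0), (0, 1)], [(0, 1), (1, 1)], [2], [(2, 1, [4]), (3, 1, [4]), (4, 0, [])]⟩,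
    ⟨[(0, 1)], [(1, 0), (1, 1), (1, 4)], [(1, 4)], [7], [(2, 1, [4]), (6, 4, [1, 6])]⟩,
    ⟨[(0, 1), (1, 2)], [(0, 0), (1, 0), (1, 1)], [(0, 0)], [5], [(0, 0, []), (4, 0, [])]⟩,
    ⟨[(1, 2)], [(2, 1), (2, 4)], [], [3], [(6, 4, [1, 6])]⟩,
    ⟨[(0, 1), (1, 2), (1, 3), (1, 4), (2, 4)], [(1, 0), (1, 1), (1, 6), (2, 1), (2, 4), (2,
      6), (4, 1), (4, 4), (4, 6)], [(1, 6)], [3], [(3, 1, [4]), (9, 6, [4])]⟩,
    ⟨[(0, 3), (1, 3)], [(0, 0), (3, 0)], [], [3, 5], [(0, 0, [])]⟩]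
  Ta := [((0, 1), 0, 2), ((0, 8), 0, 3), ((2, 1), 1, 2), ((2, 5), 1, 7), ((3, 4), 1, 0), ((3, 9),
    1, 6), ((4, 3), 0, 1), ((4, 7), 0, 5)]
  Tb := [((0, 1, 8), 0, 2, 3), ((1, 0, 2), 2, 0, 1), ((2, 1, 5), 1, 2, 7), ((3, 4, 9), 1, 0, 6),
    ((4, 3, 7), 0, 1, 5), ((5, 2, 6), 7, 1, 4), ((6, 5, 8), 4, 7, 3), ((7, 4, 8), 5, 0, 3),
    ((8, 0, 6), 3, 0, 4), ((8, 0, 7), 3, 0, 5), ((8, 0, 9), 3, 0, 6), ((8, 6, 7), 3, 4, 5),
    ((8, 6, 9), 3, 4, 6), ((8, 7, 9), 3, 5, 6), ((9, 3, 8), 6, 1, 3)]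
  Tc := [(4, 1, 6)]
  Td := [((1, 4), (2, 1), 2), ((1, 4), (2, 5), 7), ((1, 4), (3, 4), 0), ((1, 4), (3, 9), 6), ((4,
    1), (6, 5), 7), ((4, 1), (6, 8), 3), ((4, 6), (6, 5), 7), ((4, 6), (6, 8), 3), ((6, 4),
    (9, 3), 1), ((6, 4), (9, 8), 3)]
  G := [[0, 0, 0x4452122b2212232c44144544814284ad881889888ee122144c1edca,
    0x8241ca18682449454148c5225aa42488122cc82e3e9a244944884c682a2866cd8,
    0x414265283216644384486722883826d65888682a22d42644a44ec828888d8c1a], [0, 0,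
    0x2122324c2121223a8182998ac24141242d5c428254386, 0,
    0x4a54144d88521c62422323424482429282236c982888882c548285ca1a], [0, 0, 0,
    0x41445444ce1882e165814184ad4121426ba8188921223acc1,
    0x4181436781111476114184cd821181ad6111265441e1cd82], [0,
    0x416144111e1818181161181c12612a22ce2fc8, 0, 0, 0x3211126811d22511453194c9c11323182af82]]

noncomputable def n2782 : Ent := ⟨e2782, noF, [], [], []⟩

def c2782 : PLift (Cov.check n2782.C.D v2782 = true) := ⟨by decide +kernel⟩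

def b2782 : PLift (entF (fidx ts) 400 2782 n2782 = true) := ⟨by decide +kernel⟩

theorem g2782 : GoodF (fidx ts) 400 2782 := GoodF.ofV v2782 n2782 c2782.down b2782.down

/-- 4866464:2227/4 -/
noncomputable def e2783 : SCfg where
  D := {
    a := 7
    L := 10
    kp := 7
    inn := [(0, 1), (0, 3), (1, 0), (1, 2), (1, 3), (1, 5), (2, 1), (2, 4), (2, 5), (3, 0), (3, 1), (3,
      6), (4, 2), (4, 5), (5, 1), (5, 2), (5, 4), (6, 3)]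
    mix := [(0, 0), (0, 1), (1, 1), (1, 2), (1, 3), (1, 4), (2, 2), (2, 5), (2, 6), (3, 0), (3, 4), (3,
      7), (4, 6), (4, 8), (5, 3), (5, 8), (5, 9), (6, 0), (6, 7), (6, 9)]
    cl := [0, 4, 1, 1, 0, 7, 3, 5, 6, 2]
    chq := [(1, 3), (2, 3), (3, 1), (3, 2)]
    rng := [(0, 1), (0, 9), (1, 0), (1, 2), (2, 1), (2, 5), (3, 4), (3, 9), (4, 3), (4, 7), (5, 2), (5,
      6), (6, 5), (6, 8), (7, 4), (7, 9), (8, 6), (8, 9), (9, 0), (9, 3), (9, 7), (9, 8)]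
    lev := [] }
  links := [[1, 3, 7, 8], [3, 0, 8, 9, 2, 5, 10, 11], [5, 1, 9, 12, 13, 4], [7, 0, 1, 11, 14, 6], [5, 2,
    13, 15], [10, 1, 2, 4, 15, 16], [7, 3, 14, 16]]
  P := {
    a := 7
    N := 17
    nb := [394, 3885, 12850, 18627, 40996, 99350, 82056, 65865, 643, 4358, 67618, 17418, 8708, 36884,
      67656, 73776, 50400]
    tri := [(0, 1, 3), (0, 1, 8), (0, 3, 7), (0, 7, 8), (1, 2, 5), (1, 2, 9), (1, 3, 11), (1, 5, 10),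
      (1, 8, 9), (1, 10, 11), (2, 4, 5), (2, 4, 13), (2, 9, 12), (2, 12, 13), (3, 6, 7), (3, 6,
      14), (3, 11, 14), (4, 5, 15), (4, 13, 15), (5, 10, 16), (5, 15, 16), (6, 7, 16), (6, 14,
      16)]
    fin := [0, 1, 1, 0, 4, 4, 0, 0, 8, 1, 1, 0, 12, 4, 14, 15, 16]
    chd := [(1, 4), (4, 16)]
    steps := [(0, 3), (0, 6), (0, 7), (0, 11), (1, 2), (1, 9), (1, 10), (4, 5), (4, 13)] }
  rep := [0, 1, 16, 4, 8, 14, 15, 12]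

noncomputable def v2783 : Cov.CovD where
  P := 3
  N := 5
  pl := [1, 5, 7, 8]
  lev := [⟨[], [], [], [4], [(0, 0, [])]⟩,
    ⟨[], [(0, 0), (0, 1)], [(0, 1), (1, 1)], [4], [(2, 1, [3]), (3, 1, [3]), (4, 0, [])]⟩,
    ⟨[(0, 1)], [(1, 0), (1, 1), (1, 3)], [(1, 3)], [7], [(2, 1, [3]), (6, 3, [1, 2])]⟩,
    ⟨[(0, 1), (1, 2)], [(0, 0), (1, 0), (1, 1)], [(0, 0)], [5], [(0, 0, []), (4, 0, [])]⟩,
    ⟨[(1, 2)], [(2, 1), (2, 3)], [], [6], [(6, 3, [1, 2])]⟩,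
    ⟨[(0, 1), (1, 2), (1, 3), (1, 4), (2, 4)], [(1, 0), (1, 1), (1, 2), (2, 1), (2, 2), (2,
      3), (4, 1), (4, 2), (4, 3)], [(1, 2)], [6], [(3, 1, [3]), (9, 2, [3])]⟩,
    ⟨[(0, 3), (1, 3)], [(0, 0), (3, 0), (3, 2), (5, 2)], [(0, 2)], [5], [(0, 0, []), (9, 2,
      [3])]⟩]
  Ta := [((0, 1), 0, 4), ((0, 9), 0, 2), ((2, 1), 1, 4), ((2, 5), 1, 7), ((3, 4), 1, 0), ((3, 9),
    1, 2), ((4, 3), 0, 1), ((4, 7), 0, 5)]
  Tb := [((0, 1, 9), 0, 4, 2), ((1, 0, 2), 4, 0, 1), ((2, 1, 5), 1, 4, 7), ((3, 4, 9), 1, 0, 2),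
    ((4, 3, 7), 0, 1, 5), ((5, 2, 6), 7, 1, 3), ((6, 5, 8), 3, 7, 6), ((7, 4, 9), 5, 0, 2),
    ((8, 6, 9), 6, 3, 2), ((9, 0, 3), 2, 0, 1), ((9, 0, 7), 2, 0, 5), ((9, 0, 8), 2, 0, 6),
    ((9, 3, 7), 2, 1, 5), ((9, 3, 8), 2, 1, 6), ((9, 7, 8), 2, 5, 6)]
  Tc := [(3, 1, 2)]
  Td := [((1, 3), (2, 1), 4), ((1, 3), (2, 5), 7), ((1, 3), (3, 4), 0), ((1, 3), (3, 9), 2), ((2,
    3), (9, 0), 0), ((2, 3), (9, 3), 1), ((2, 3), (9, 7), 5), ((2, 3), (9, 8), 6), ((3, 1),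
    (6, 5), 7), ((3, 1), (6, 8), 6), ((3, 2), (6, 5), 7), ((3, 2), (6, 8), 6)]
  G := [[0, 0, 0x44614486182616542c128988a1888a124a1a922a124588144a1c88c18c1e, 0,
    0x883a1622346883a2522346522a4289888162221ca8881622285a9488a4a28c88a422aa86cc1e], [0, 0,
    0x821221c421821682c124c1ce12, 0xc8cc9c1d22c8c4cccd2252,
    0x21222221a258a1aa9c8894688924388922292c8898152294c2124b82886282c4da], [0, 0, 0, 0,
    0x883a162234681a868234688825212866d888162128668888981b2122928ba8188628225adc1], [0,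
    0x842141414e618182181818ea1481c241c2c12e, 0, 0xcc5c4c1d22c8cc9c1d22c1,
    0x8881c2821ca2482a16224688922292688a1522946e88922292a8892229265c5]]

noncomputable def n2783 : Ent := ⟨e2783, noF, [], [], []⟩

def c2783 : PLift (Cov.check n2783.C.D v2783 = true) := ⟨by decide +kernel⟩

def b2783 : PLift (entF (fidx ts) 400 2783 n2783 = true) := ⟨by decide +kernel⟩

theorem g2783 : GoodF (fidx ts) 400 2783 := GoodF.ofV v2783 n2783 c2783.down b2783.down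

/-- 4866464:2227 -/
noncomputable def e2784 : SCfg where
  D := {
    a := 7
    L := 11
    kp := 8
    inn := [(0, 1), (0, 3), (1, 0), (1, 2), (1, 3), (1, 5), (2, 1), (2, 4), (2, 5), (3, 0), (3, 1), (3,
      6), (4, 2), (4, 5), (5, 1), (5, 2), (5, 4), (6, 3)]
    mix := [(0, 0), (0, 1), (1, 1), (1, 2), (1, 3), (1, 4), (2, 2), (2, 5), (2, 6), (3, 0), (3, 4), (3,
      7), (4, 6), (4, 8), (5, 3), (5, 8), (5, 9), (6, 0), (6, 7), (6, 10)]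
    cl := [0, 2, 1, 1, 0, 7, 3, 4, 5, 6, 8]
    chq := [(1, 3), (3, 1), (3, 6), (6, 3)]
    rng := [(0, 1), (0, 10), (1, 0), (1, 2), (2, 1), (2, 5), (3, 4), (3, 9), (4, 3), (4, 7), (5, 2),
      (5, 6), (6, 5), (6, 8), (7, 4), (7, 10), (8, 6), (8, 9), (9, 3), (9, 8), (10, 0), (10, 7)]
    lev := [] }
  links := [[1, 3, 7, 8], [3, 0, 8, 9, 2, 5, 10, 11], [5, 1, 9, 12, 13, 4], [7, 0, 1, 11, 14, 6], [5, 2,
    13, 15], [10, 1, 2, 4, 15, 16], [7, 3, 14, 17]]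
  P := {
    a := 7
    N := 18
    nb := [394, 3885, 12850, 18627, 40996, 99350, 147592, 131401, 643, 4358, 67618, 17418, 8708,
      36884, 133192, 73776, 33824, 16576]
    tri := [(0, 1, 3), (0, 1, 8), (0, 3, 7), (0, 7, 8), (1, 2, 5), (1, 2, 9), (1, 3, 11), (1, 5, 10),
      (1, 8, 9), (1, 10, 11), (2, 4, 5), (2, 4, 13), (2, 9, 12), (2, 12, 13), (3, 6, 7), (3, 6,
      14), (3, 11, 14), (4, 5, 15), (4, 13, 15), (5, 10, 16), (5, 15, 16), (6, 7, 17), (6, 14,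
      17)]
    fin := [0, 1, 1, 0, 4, 4, 0, 0, 8, 1, 1, 0, 12, 4, 14, 15, 16, 17]
    chd := [(1, 4), (4, 16)]
    steps := [(0, 3), (0, 6), (0, 7), (0, 11), (1, 2), (1, 9), (1, 10), (4, 5), (4, 13)] }
  rep := [0, 1, 8, 4, 14, 15, 16, 12, 17]

noncomputable def v2784 : Cov.CovD where
  P := 3
  N := 6
  pl := [1, 5, 7, 8, 10]
  lev := [⟨[], [], [], [2], [(0, 0, [])]⟩,
    ⟨[], [(0, 0), (0, 1)], [(0, 1), (1, 1)], [2], [(2, 1, [3]), (3, 1, [3]), (4, 0, [])]⟩,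
    ⟨[(0, 1)], [(1, 0), (1, 1), (1, 3)], [(1, 3)], [7], [(2, 1, [3]), (6, 3, [1, 6])]⟩,
    ⟨[(0, 1), (1, 2)], [(0, 0), (1, 0), (1, 1)], [(0, 0)], [4], [(0, 0, []), (4, 0, [])]⟩,
    ⟨[(1, 2)], [(2, 1), (2, 3)], [], [5], [(6, 3, [1, 6])]⟩,
    ⟨[(0, 1), (1, 2), (1, 3), (1, 4), (2, 4)], [(1, 0), (1, 1), (1, 6), (2, 1), (2, 3), (2,
      6), (4, 1), (4, 3), (4, 6)], [(1, 6)], [5], [(3, 1, [3]), (9, 6, [3])]⟩,
    ⟨[(0, 3), (1, 3)], [(0, 0), (3, 0)], [], [4, 8], [(0, 0, [])]⟩]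
  Ta := [((0, 1), 0, 2), ((0, 10), 0, 8), ((2, 1), 1, 2), ((2, 5), 1, 7), ((3, 4), 1, 0), ((3,
    9), 1, 6), ((4, 3), 0, 1), ((4, 7), 0, 4)]
  Tb := [((0, 1, 10), 0, 2, 8), ((1, 0, 2), 2, 0, 1), ((2, 1, 5), 1, 2, 7), ((3, 4, 9), 1, 0, 6),
    ((4, 3, 7), 0, 1, 4), ((5, 2, 6), 7, 1, 3), ((6, 5, 8), 3, 7, 5), ((7, 4, 10), 4, 0, 8),
    ((8, 6, 9), 5, 3, 6), ((9, 3, 8), 6, 1, 5), ((10, 0, 7), 8, 0, 4)]
  Tc := [(3, 1, 6)]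
  Td := [((1, 3), (2, 1), 2), ((1, 3), (2, 5), 7), ((1, 3), (3, 4), 0), ((1, 3), (3, 9), 6), ((3,
    1), (6, 5), 7), ((3, 1), (6, 8), 5), ((3, 6), (6, 5), 7), ((3, 6), (6, 8), 5), ((6, 3),
    (9, 3), 1), ((6, 3), (9, 8), 5)]
  G := [[0, 0, 0xc1c2ca1a63666d6c4c29a4a2965466a1a4d2a8429cc1c464c8449cc688c818cca,
    0xc18a186c442945aa3a1a4b248488825a1e2a4e8fe9cc6ccac4d4ccac86aaaa866cd8,
    0xc18283663666d6cc3c4cc67aa3a4aa67658a2aaaea4d66666a64ecc2c858c1a], [0, 0,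
    0xa6522cc5cc554668224aadaa9aacd26c66524ecc249eaad28cc928cca, 0,
    0xe2aa5a2aa5a1a4d268c16ccd68d4eecd243eaca2344623ca8a858a9a], [0, 0, 0,
    0xc2cc3116d113464125154d3697365aa11a832173d11c33468245edadc8,
    0xcc3c357c67113195116763132c5152c8d181e1213314d76c6439da1ed82], [0,
    0x116811611a11ce11a11c6e184, 0, 0,
    0xcc5211526c5c21d926515115c76c13cd518d85e519299c26f82]]

noncomputable def n2784 : Ent := ⟨e2784, noF, [], [], [(12, 17, [6903326391201334775872065844685381424292761054348340378595029941075969, 0]), (13, 17, [6903326391201334775872065844685381424292761054348340378595029941080065, 0]), (15, 17, [6903326391201334775872065844685381424292761054348340378595029941084161, 0]), (16, 17, [6903326391201334775872065844685381424292761054348340378595029941088257, 0])]⟩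

def c2784 : PLift (Cov.check n2784.C.D v2784 = true) := ⟨by decide +kernel⟩

def b2784 : PLift (entF (fidx ts) 400 2784 n2784 = true) := ⟨by decide +kernel⟩

theorem g2784 : GoodF (fidx ts) 400 2784 := GoodF.ofV v2784 n2784 c2784.down b2784.down

/-- 4866446:2229/1 -/
noncomputable def e2785 : SCfg where
  D := {
    a := 7
    L := 10
    kp := 8
    inn := [(0, 1), (0, 3), (0, 6), (1, 0), (1, 2), (1, 3), (1, 5), (1, 6), (2, 1), (2, 4), (3, 0), (3,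
      1), (3, 5), (4, 2), (5, 1), (5, 3), (6, 0), (6, 1)]
    mix := [(0, 0), (1, 1), (1, 2), (1, 3), (2, 1), (2, 2), (2, 4), (2, 5), (3, 0), (3, 6), (3, 7), (4,
      4), (4, 5), (4, 6), (5, 3), (5, 6), (6, 0), (6, 1), (6, 8), (6, 9)]
    cl := [3, 0, 2, 4, 5, 0, 1, 8, 6, 7]
    chq := [(1, 2), (1, 3), (2, 1), (2, 3), (2, 6), (2, 7), (3, 1), (3, 2), (6, 2), (7, 2)]
    rng := [(0, 7), (0, 8), (1, 4), (1, 9), (2, 3), (2, 5), (3, 2), (3, 6), (4, 1), (4, 6), (5, 2), (5,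
      6), (6, 3), (6, 4), (6, 5), (6, 7), (7, 0), (7, 6), (8, 0), (8, 9), (9, 1), (9, 8)]
    lev := [] }
  links := [[1, 3, 7, 6], [3, 0, 6, 8, 2, 9, 10, 5], [9, 1, 8, 11, 4, 12], [7, 0, 1, 5, 13, 14], [12, 2,
    11, 13], [13, 3, 1, 10], [8, 1, 0, 7, 15, 16]]
  P := {
    a := 7
    N := 17
    nb := [202, 1901, 6930, 24739, 14340, 9226, 98691, 49225, 67654, 5126, 8738, 8468, 8724, 23608,
      8328, 65728, 33088]
    tri := [(0, 1, 3), (0, 1, 6), (0, 3, 7), (0, 6, 7), (1, 2, 8), (1, 2, 9), (1, 3, 5), (1, 5, 10),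
      (1, 6, 8), (1, 9, 10), (2, 4, 11), (2, 4, 12), (2, 8, 11), (2, 9, 12), (3, 5, 13), (3, 7,
      14), (3, 13, 14), (4, 11, 13), (4, 12, 13), (5, 10, 13), (6, 7, 15), (6, 8, 16), (6, 15,
      16)]
    fin := [0, 1, 2, 0, 2, 5, 1, 0, 2, 1, 10, 11, 2, 5, 14, 15, 16]
    chd := [(0, 1), (0, 5), (1, 5), (1, 15), (1, 16)]
    steps := [(0, 3), (0, 7), (1, 6), (1, 9), (2, 4), (2, 8), (2, 12), (5, 13)] }
  rep := [2, 5, 1, 0, 10, 11, 15, 16, 14]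

noncomputable def v2785 : Cov.CovD where
  P := 3
  N := 6
  pl := [3, 4, 7]
  lev := [⟨[], [], [], [], [(0, 3, [1, 2])]⟩,
    ⟨[], [(0, 0), (0, 2), (0, 3)], [(0, 2)], [4], [(1, 0, []), (2, 2, [1, 3, 6, 7])]⟩,
    ⟨[(0, 1)], [(1, 0), (1, 2)], [(0, 0), (0, 2)], [5], [(1, 0, []), (2, 2, [1, 3, 6, 7]),
      (5, 0, [])]⟩,
    ⟨[(0, 1), (1, 2)], [(0, 1), (0, 3), (1, 0), (1, 1), (1, 2), (1, 3)], [(1, 3)], [8],
      [(0, 3, [1, 2]), (6, 1, [2, 3])]⟩,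
    ⟨[(1, 2)], [(2, 0), (2, 1), (2, 2), (3, 1)], [(0, 1)], [5], [(5, 0, []), (6, 1, [2,
      3])]⟩,
    ⟨[(0, 1), (0, 3), (1, 2), (1, 3)], [(1, 0), (1, 1), (1, 2), (3, 1), (3, 3), (4, 1)],
      [], [4], [(6, 1, [2, 3])]⟩,
    ⟨[(0, 1), (0, 3), (1, 2), (1, 3), (1, 5)], [(0, 0), (0, 3), (0, 6), (0, 7), (1, 0), (1,
      2), (1, 3), (1, 6), (1, 7), (2, 0), (3, 3)], [(0, 3), (0, 6), (0, 7), (3, 6), (3, 7),
      (6, 7)], [], [(0, 3, [1, 2]), (1, 0, []), (8, 6, [2]), (9, 7, [2])]⟩]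
  Ta := [((1, 4), 0, 5), ((1, 9), 0, 7), ((5, 2), 0, 2), ((5, 6), 0, 1)]
  Tb := [((0, 7, 8), 3, 8, 6), ((1, 4, 9), 0, 5, 7), ((2, 3, 5), 2, 4, 0), ((3, 2, 6), 4, 2, 1),
    ((4, 1, 6), 5, 0, 1), ((5, 2, 6), 0, 2, 1), ((6, 3, 4), 1, 4, 5), ((6, 3, 5), 1, 4, 0),
    ((6, 3, 7), 1, 4, 8), ((6, 4, 5), 1, 5, 0), ((6, 4, 7), 1, 5, 8), ((6, 5, 7), 1, 0, 8),
    ((7, 0, 6), 8, 3, 1), ((8, 0, 9), 6, 3, 7), ((9, 1, 8), 7, 0, 6)]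
  Tc := [(1, 2, 3), (2, 1, 3), (2, 1, 6), (2, 1, 7), (2, 3, 6), (2, 3, 7), (2, 6, 7), (3, 1, 2)]
  Td := [((1, 2), (6, 3), 4), ((1, 2), (6, 4), 5), ((1, 2), (6, 5), 0), ((1, 2), (6, 7), 8), ((1,
    3), (6, 3), 4), ((1, 3), (6, 4), 5), ((1, 3), (6, 5), 0), ((1, 3), (6, 7), 8), ((2, 1),
    (2, 3), 4), ((2, 1), (2, 5), 0), ((2, 3), (2, 3), 4), ((2, 3), (2, 5), 0), ((2, 6), (2,
    3), 4), ((2, 6), (2, 5), 0), ((2, 7), (2, 3), 4), ((2, 7), (2, 5), 0), ((3, 1), (0, 7),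
    8), ((3, 1), (0, 8), 6), ((3, 2), (0, 7), 8), ((3, 2), (0, 8), 6), ((6, 2), (8, 0), 3),
    ((6, 2), (8, 9), 7), ((7, 2), (9, 1), 0), ((7, 2), (9, 8), 6)]
  G := [[0, 0, 0, 0x2424522421285222121522c2828c228d,
    0x414441c22444494848948489d2445844584498d8a414441522b], [0,
    0x226282264224ac122a8422a42246c12222824822822ccd,
    0x1148421144421181881811cd21418c1111c148d211414ee, 0x2421c2242128c2282128c222424c22cd,
    0x4444848c4148cd244c844c844c8d84444cc444c2b4444c1223]]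

noncomputable def n2785 : Ent := ⟨e2785, noF, [], [], []⟩

def c2785 : PLift (Cov.check n2785.C.D v2785 = true) := ⟨by decide +kernel⟩

def b2785 : PLift (entF (fidx ts) 400 2785 n2785 = true) := ⟨by decide +kernel⟩

theorem g2785 : GoodF (fidx ts) 400 2785 := GoodF.ofV v2785 n2785 c2785.down b2785.down

/-- 4866446:2229/2 -/
noncomputable def e2786 : SCfg where
  D := {
    a := 7
    L := 10
    kp := 8
    inn := [(0, 1), (0, 3), (0, 6), (1, 0), (1, 2), (1, 3), (1, 5), (1, 6), (2, 1), (2, 4), (3, 0), (3,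
      1), (3, 5), (4, 2), (5, 1), (5, 3), (6, 0), (6, 1)]
    mix := [(0, 0), (1, 1), (1, 2), (1, 3), (2, 1), (2, 2), (2, 4), (2, 5), (3, 0), (3, 6), (3, 7), (4,
      4), (4, 5), (4, 7), (5, 3), (5, 6), (6, 0), (6, 1), (6, 8), (6, 9)]
    cl := [3, 0, 1, 4, 5, 0, 6, 2, 7, 8]
    chq := [(1, 2), (1, 3), (1, 7), (1, 8), (2, 1), (2, 4), (3, 1), (4, 2), (7, 1), (8, 1)]
    rng := [(0, 7), (0, 8), (1, 4), (1, 9), (2, 3), (2, 5), (3, 2), (3, 6), (4, 1), (4, 7), (5, 2), (5,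
      7), (6, 3), (6, 7), (7, 0), (7, 4), (7, 5), (7, 6), (8, 0), (8, 9), (9, 1), (9, 8)]
    lev := [] }
  links := [[1, 3, 7, 6], [3, 0, 6, 8, 2, 9, 10, 5], [9, 1, 8, 11, 4, 12], [7, 0, 1, 5, 13, 14], [12, 2,
    11, 14], [13, 3, 1, 10], [8, 1, 0, 7, 15, 16]]
  P := {
    a := 7
    N := 17
    nb := [202, 1901, 6930, 24739, 22532, 9226, 98691, 49225, 67654, 5126, 8738, 16660, 16916, 17448,
      14488, 65728, 33088]
    tri := [(0, 1, 3), (0, 1, 6), (0, 3, 7), (0, 6, 7), (1, 2, 8), (1, 2, 9), (1, 3, 5), (1, 5, 10),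
      (1, 6, 8), (1, 9, 10), (2, 4, 11), (2, 4, 12), (2, 8, 11), (2, 9, 12), (3, 5, 13), (3, 7,
      14), (3, 13, 14), (4, 11, 14), (4, 12, 14), (5, 10, 13), (6, 7, 15), (6, 8, 16), (6, 15,
      16)]
    fin := [0, 1, 2, 3, 2, 3, 1, 0, 2, 1, 10, 11, 2, 13, 3, 15, 16]
    chd := [(0, 1), (1, 3), (1, 15), (1, 16), (10, 3)]
    steps := [(0, 7), (1, 6), (1, 9), (2, 4), (2, 8), (2, 12), (3, 5), (3, 14)] }
  rep := [2, 1, 3, 0, 10, 11, 13, 15, 16]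

noncomputable def v2786 : Cov.CovD where
  P := 3
  N := 6
  pl := [4, 6]
  lev := [⟨[], [], [], [], [(0, 3, [1])]⟩,
    ⟨[], [(0, 0), (0, 1), (0, 3), (0, 4)], [(0, 1), (0, 4), (1, 4)], [], [(1, 0, []), (2,
      1, [2, 3, 7, 8]), (3, 4, [2])]⟩,
    ⟨[(0, 1)], [(1, 0), (1, 1), (1, 4)], [(0, 0), (0, 1)], [5], [(1, 0, []), (2, 1, [2, 3,
      7, 8]), (5, 0, [])]⟩,
    ⟨[(0, 1), (1, 2)], [(0, 2), (0, 3), (1, 0), (1, 1), (1, 2), (1, 3), (1, 4)], [(2, 3)],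
      [6], [(0, 3, [1]), (7, 2, [1, 4])]⟩,
    ⟨[(1, 2)], [(2, 0), (2, 1), (2, 2), (3, 2)], [(0, 2)], [5], [(5, 0, []), (7, 2, [1,
      4])]⟩,
    ⟨[(0, 1), (0, 3), (1, 2), (1, 3)], [(1, 0), (1, 1), (1, 4), (3, 2), (3, 3), (3, 4)],
      [], [6], [(3, 4, [2])]⟩,
    ⟨[(0, 1), (0, 3), (1, 2), (1, 3), (1, 5)], [(0, 0), (0, 3), (0, 7), (0, 8), (1, 0), (1,
      1), (1, 3), (1, 4), (1, 7), (1, 8), (2, 0), (3, 3)], [(0, 3), (0, 7), (0, 8), (3, 7),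
      (3, 8), (7, 8)], [], [(0, 3, [1]), (1, 0, []), (8, 7, [1]), (9, 8, [1])]⟩]
  Ta := [((1, 4), 0, 5), ((1, 9), 0, 8), ((5, 2), 0, 1), ((5, 7), 0, 2)]
  Tb := [((0, 7, 8), 3, 2, 7), ((1, 4, 9), 0, 5, 8), ((2, 3, 5), 1, 4, 0), ((3, 2, 6), 4, 1, 6),
    ((4, 1, 7), 5, 0, 2), ((5, 2, 7), 0, 1, 2), ((6, 3, 7), 6, 4, 2), ((7, 0, 4), 2, 3, 5),
    ((7, 0, 5), 2, 3, 0), ((7, 0, 6), 2, 3, 6), ((7, 4, 5), 2, 5, 0), ((7, 4, 6), 2, 5, 6),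
    ((7, 5, 6), 2, 0, 6), ((8, 0, 9), 7, 3, 8), ((9, 1, 8), 8, 0, 7)]
  Tc := [(1, 2, 3), (1, 2, 7), (1, 2, 8), (1, 3, 7), (1, 3, 8), (1, 7, 8), (2, 1, 4)]
  Td := [((1, 2), (2, 3), 4), ((1, 2), (2, 5), 0), ((1, 3), (2, 3), 4), ((1, 3), (2, 5), 0), ((1,
    7), (2, 3), 4), ((1, 7), (2, 5), 0), ((1, 8), (2, 3), 4), ((1, 8), (2, 5), 0), ((2, 1),
    (7, 0), 3), ((2, 1), (7, 4), 5), ((2, 1), (7, 5), 0), ((2, 1), (7, 6), 6), ((2, 4), (7,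
    0), 3), ((2, 4), (7, 4), 5), ((2, 4), (7, 5), 0), ((2, 4), (7, 6), 6), ((3, 1), (0, 7),
    2), ((3, 1), (0, 8), 7), ((4, 2), (3, 2), 1), ((4, 2), (3, 6), 6), ((7, 1), (8, 0), 3),
    ((7, 1), (8, 9), 8), ((8, 1), (9, 1), 0), ((8, 1), (9, 8), 7)]
  G := [[0, 0, 0, 0x222252222521225d222282212222922219d6c2,
    0x2482238a223222a1ac42424a241a482121442411422a8222e8322222411ecf], [0,
    0x1168118911641149c211a8118511a41145c2c,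
    0x28882424c12122126214214214e2188e218218218e212222a2144ec3,
    0x2222c4282222c2222c92228228222d2121c224242c4d6,
    0x222788222a12ac2428452422424aa4222b828c3121442424a1424812222c44214ef]]

noncomputable def n2786 : Ent := ⟨e2786, noF, [], [], []⟩

def c2786 : PLift (Cov.check n2786.C.D v2786 = true) := ⟨by decide +kernel⟩

def b2786 : PLift (entF (fidx ts) 400 2786 n2786 = true) := ⟨by decide +kernel⟩

theorem g2786 : GoodF (fidx ts) 400 2786 := GoodF.ofV v2786 n2786 c2786.down b2786.down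

/-- 4866446:2229 -/
noncomputable def e2787 : SCfg where
  D := {
    a := 7
    L := 11
    kp := 9
    inn := [(0, 1), (0, 3), (0, 6), (1, 0), (1, 2), (1, 3), (1, 5), (1, 6), (2, 1), (2, 4), (3, 0), (3,
      1), (3, 5), (4, 2), (5, 1), (5, 3), (6, 0), (6, 1)]
    mix := [(0, 0), (1, 1), (1, 2), (1, 3), (2, 1), (2, 2), (2, 4), (2, 5), (3, 0), (3, 6), (3, 7), (4,
      4), (4, 5), (4, 8), (5, 3), (5, 6), (6, 0), (6, 1), (6, 9), (6, 10)]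
    cl := [3, 0, 1, 2, 5, 0, 4, 6, 9, 7, 8]
    chq := [(1, 3), (1, 4), (1, 6), (1, 7), (1, 8), (3, 1), (4, 1), (6, 1), (7, 1), (8, 1)]
    rng := [(0, 7), (0, 9), (1, 4), (1, 10), (2, 3), (2, 5), (3, 2), (3, 6), (4, 1), (4, 8), (5, 2),
      (5, 8), (6, 3), (6, 7), (7, 0), (7, 6), (8, 4), (8, 5), (9, 0), (9, 10), (10, 1), (10, 9)]
    lev := [] }
  links := [[1, 3, 7, 6], [3, 0, 6, 8, 2, 9, 10, 5], [9, 1, 8, 11, 4, 12], [7, 0, 1, 5, 13, 14], [12, 2,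
    11, 15], [13, 3, 1, 10], [8, 1, 0, 7, 16, 17]]
  P := {
    a := 7
    N := 18
    nb := [202, 1901, 6930, 24739, 38916, 9226, 196995, 81993, 133190, 5126, 8738, 33044, 33300,
      17448, 8328, 6160, 131264, 65856]
    tri := [(0, 1, 3), (0, 1, 6), (0, 3, 7), (0, 6, 7), (1, 2, 8), (1, 2, 9), (1, 3, 5), (1, 5, 10),
      (1, 6, 8), (1, 9, 10), (2, 4, 11), (2, 4, 12), (2, 8, 11), (2, 9, 12), (3, 5, 13), (3, 7,
      14), (3, 13, 14), (4, 11, 15), (4, 12, 15), (5, 10, 13), (6, 7, 16), (6, 8, 17), (6, 16,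
      17)]
    fin := [0, 1, 2, 1, 2, 1, 1, 0, 2, 1, 10, 11, 2, 13, 14, 15, 16, 17]
    chd := [(0, 1), (1, 13), (1, 14), (1, 16), (1, 17)]
    steps := [(0, 7), (1, 3), (1, 5), (1, 6), (1, 9), (2, 4), (2, 8), (2, 12)] }
  rep := [2, 1, 10, 0, 13, 11, 14, 16, 17, 15]

noncomputable def v2787 : Cov.CovD where
  P := 3
  N := 7
  pl := [3, 4, 8]
  lev := [⟨[], [], [], [], [(0, 3, [1])]⟩,
    ⟨[], [(0, 0), (0, 1), (0, 3)], [(0, 1)], [2], [(1, 0, []), (2, 1, [3, 4, 6, 7, 8])]⟩,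
    ⟨[(0, 1)], [(1, 0), (1, 1)], [(0, 0), (0, 1)], [5], [(1, 0, []), (2, 1, [3, 4, 6, 7,
      8]), (5, 0, [])]⟩,
    ⟨[(0, 1), (1, 2)], [(0, 3), (0, 4), (0, 6), (1, 0), (1, 1), (1, 3), (1, 4), (1, 6)],
      [(3, 4), (3, 6), (4, 6)], [], [(0, 3, [1]), (6, 4, [1]), (7, 6, [1])]⟩,
    ⟨[(1, 2)], [(2, 0), (2, 1)], [], [5, 9], [(5, 0, [])]⟩,
    ⟨[(0, 1), (0, 3), (1, 2), (1, 3)], [(1, 0), (1, 1), (1, 4), (3, 3), (3, 4), (3, 6)],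
      [], [2], [(6, 4, [1])]⟩,
    ⟨[(0, 1), (0, 3), (1, 2), (1, 3), (1, 5)], [(0, 0), (0, 3), (0, 7), (0, 8), (1, 0), (1,
      1), (1, 3), (1, 7), (1, 8), (2, 0), (3, 3)], [(0, 3), (0, 7), (0, 8), (3, 7), (3, 8),
      (7, 8)], [], [(0, 3, [1]), (1, 0, []), (9, 7, [1]), (10, 8, [1])]⟩]
  Ta := [((1, 4), 0, 5), ((1, 10), 0, 8), ((5, 2), 0, 1), ((5, 8), 0, 9)]
  Tb := [((0, 7, 9), 3, 6, 7), ((1, 4, 10), 0, 5, 8), ((2, 3, 5), 1, 2, 0), ((3, 2, 6), 2, 1, 4),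
    ((4, 1, 8), 5, 0, 9), ((5, 2, 8), 0, 1, 9), ((6, 3, 7), 4, 2, 6), ((7, 0, 6), 6, 3, 4),
    ((8, 4, 5), 9, 5, 0), ((9, 0, 10), 7, 3, 8), ((10, 1, 9), 8, 0, 7)]
  Tc := [(1, 3, 4), (1, 3, 6), (1, 3, 7), (1, 3, 8), (1, 4, 6), (1, 4, 7), (1, 4, 8), (1, 6, 7),
    (1, 6, 8), (1, 7, 8)]
  Td := [((1, 3), (2, 3), 2), ((1, 3), (2, 5), 0), ((1, 4), (2, 3), 2), ((1, 4), (2, 5), 0), ((1,
    6), (2, 3), 2), ((1, 6), (2, 5), 0), ((1, 7), (2, 3), 2), ((1, 7), (2, 5), 0), ((1, 8),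
    (2, 3), 2), ((1, 8), (2, 5), 0), ((3, 1), (0, 7), 6), ((3, 1), (0, 9), 7), ((4, 1), (6,
    3), 2), ((4, 1), (6, 7), 6), ((6, 1), (7, 0), 3), ((6, 1), (7, 6), 4), ((7, 1), (9, 0),
    3), ((7, 1), (9, 10), 8), ((8, 1), (10, 1), 0), ((8, 1), (10, 9), 7)]
  G := [[0, 0, 0x2222342222622229221ec222228b28c22a22c6242212212222cb2211ac5,
    0x24225524282124b28c22922c624229128cc,
    0x2212122366482222227223162222c8c8221222a2292872222c32212219e8d], [0,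
    0x11411121611818c1111c1111161a4c,
    0x32632662222634228f2ce2ca68c2224222262ec2ec6ac22a38a2222a38cc,
    0x22c22ca222c22c62c122c22ca222c22c62c1c,
    0x2222a2222aa812222a2228a62222622a22a66c122212222622226222222eb2281e8d]]

noncomputable def n2787 : Ent := ⟨e2787, noF, [], [], [(15, 13, [7334790850179967773244209365633050764349689593036594798292870085087233, 0]), (15, 14, [7334790875878422277917280412776772662961875900559637987928627380887553, 0])]⟩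

def c2787 : PLift (Cov.check n2787.C.D v2787 = true) := ⟨by decide +kernel⟩

def b2787 : PLift (entF (fidx ts) 400 2787 n2787 = true) := ⟨by decide +kernel⟩

theorem g2787 : GoodF (fidx ts) 400 2787 := GoodF.ofV v2787 n2787 c2787.down b2787.down

/-- 4866446:2232/1 -/
noncomputable def e2788 : SCfg where
  D := {
    a := 7
    L := 10
    kp := 8
    inn := [(0, 1), (0, 3), (0, 6), (1, 0), (1, 2), (1, 3), (1, 5), (1, 6), (2, 1), (2, 4), (3, 0), (3,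
      1), (3, 5), (4, 2), (5, 1), (5, 3), (6, 0), (6, 1)]
    mix := [(0, 0), (1, 1), (1, 2), (1, 3), (2, 1), (2, 2), (2, 4), (2, 5), (3, 0), (3, 6), (3, 7), (4,
      2), (4, 5), (4, 8), (5, 3), (5, 6), (6, 0), (6, 1), (6, 4), (6, 9)]
    cl := [3, 0, 0, 1, 2, 4, 5, 6, 7, 8]
    chq := [(1, 2), (1, 3), (1, 6), (1, 8), (2, 1), (2, 7), (3, 1), (6, 1), (7, 2), (8, 1)]
    rng := [(0, 7), (0, 9), (1, 4), (2, 3), (2, 8), (3, 2), (3, 6), (4, 1), (4, 5), (4, 9), (5, 4), (5,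
      8), (6, 3), (6, 7), (7, 0), (7, 6), (8, 2), (8, 5), (9, 0), (9, 4)]
    lev := [] }
  links := [[1, 3, 7, 6], [3, 0, 6, 8, 2, 9, 10, 5], [9, 1, 8, 11, 12, 4], [7, 0, 1, 5, 13, 14], [9, 2,
    12, 15], [13, 3, 1, 10], [8, 1, 0, 7, 16, 11]]
  P := {
    a := 7
    N := 17
    nb := [202, 1901, 6930, 24739, 37380, 9226, 67971, 81993, 2118, 33814, 8738, 69956, 34836, 17448,
      8328, 4624, 2240]
    tri := [(0, 1, 3), (0, 1, 6), (0, 3, 7), (0, 6, 7), (1, 2, 8), (1, 2, 9), (1, 3, 5), (1, 5, 10),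
      (1, 6, 8), (1, 9, 10), (2, 4, 9), (2, 4, 12), (2, 8, 11), (2, 11, 12), (3, 5, 13), (3, 7,
      14), (3, 13, 14), (4, 9, 15), (4, 12, 15), (5, 10, 13), (6, 7, 16), (6, 8, 11), (6, 11, 16)]
    fin := [0, 1, 2, 0, 2, 0, 0, 7, 1, 1, 0, 2, 12, 13, 14, 15, 16]
    chd := [(0, 2), (0, 14), (0, 16), (2, 15), (7, 0)]
    steps := [(0, 3), (0, 5), (0, 6), (0, 10), (1, 8), (1, 9), (2, 4), (2, 11)] }
  rep := [1, 0, 2, 7, 12, 13, 14, 15, 16]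

noncomputable def v2788 : Cov.CovD where
  P := 3
  N := 6
  pl := [5, 6]
  lev := [⟨[], [], [], [], [(0, 3, [1])]⟩,
    ⟨[], [(0, 0), (0, 1), (0, 3)], [(0, 0), (0, 1)], [], [(1, 0, []), (2, 0, []), (3, 1,
      [2, 3, 6, 8])]⟩,
    ⟨[(0, 1)], [(1, 0), (1, 1), (1, 2)], [(0, 0), (0, 2)], [4], [(1, 0, []), (2, 0, []),
      (4, 2, [1, 7])]⟩,
    ⟨[(0, 1), (1, 2)], [(0, 3), (0, 6), (1, 0), (1, 1), (1, 3), (1, 6)], [(3, 6)], [5],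
      [(0, 3, [1]), (7, 6, [1])]⟩,
    ⟨[(1, 2)], [(1, 0), (2, 0), (2, 2), (2, 7)], [(0, 7)], [4], [(2, 0, []), (8, 7, [2])]⟩,
    ⟨[(0, 1), (0, 3), (1, 2), (1, 3)], [(1, 0), (1, 1), (3, 1), (3, 3), (3, 6)], [], [5],
      [(3, 1, [2, 3, 6, 8])]⟩,
    ⟨[(0, 1), (0, 3), (1, 2), (1, 3), (1, 5)], [(0, 0), (0, 2), (0, 3), (0, 8), (1, 0), (1,
      1), (1, 2), (1, 3), (1, 8), (2, 0), (2, 2), (3, 3)], [(0, 2), (0, 3), (0, 8), (2, 3),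
      (2, 8), (3, 8)], [], [(0, 3, [1]), (1, 0, []), (4, 2, [1, 7]), (9, 8, [1])]⟩]
  Ta := [((1, 4), 0, 2), ((2, 3), 0, 1), ((2, 8), 0, 7)]
  Tb := [((0, 7, 9), 3, 6, 8), ((2, 3, 8), 0, 1, 7), ((3, 2, 6), 1, 0, 5), ((4, 1, 5), 2, 0, 4),
    ((4, 1, 9), 2, 0, 8), ((4, 5, 9), 2, 4, 8), ((5, 4, 8), 4, 2, 7), ((6, 3, 7), 5, 1, 6),
    ((7, 0, 6), 6, 3, 5), ((8, 2, 5), 7, 0, 4), ((9, 0, 4), 8, 3, 2)]
  Tc := [(1, 2, 3), (1, 2, 6), (1, 2, 8), (1, 3, 6), (1, 3, 8), (1, 6, 8), (2, 1, 7)]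
  Td := [((1, 2), (3, 2), 0), ((1, 2), (3, 6), 5), ((1, 3), (3, 2), 0), ((1, 3), (3, 6), 5), ((1,
    6), (3, 2), 0), ((1, 6), (3, 6), 5), ((1, 8), (3, 2), 0), ((1, 8), (3, 6), 5), ((2, 1),
    (4, 1), 0), ((2, 1), (4, 5), 4), ((2, 1), (4, 9), 8), ((2, 7), (4, 1), 0), ((2, 7), (4,
    5), 4), ((2, 7), (4, 9), 8), ((3, 1), (0, 7), 6), ((3, 1), (0, 9), 8), ((6, 1), (7, 0),
    3), ((6, 1), (7, 6), 5), ((7, 2), (8, 2), 0), ((7, 2), (8, 5), 4), ((8, 1), (9, 0), 3),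
    ((8, 1), (9, 4), 2)]
  G := [[0, 0, 0x211aa91a2418a51a6464161152112115a868122491268b, 0x2252222522c82252222522c85,
    0x2234424122912254ea2842291a8c214229422c4b28124122c1ba45], [0,
    0x1162111a11a116e1c811c11ca111c11c61c26, 0, 0x2252222922c42292222922c49,
    0x24216b1bacca2421cb29bbc6aa43443145b4b421e31b121e5a8282822ce2228428cb]]

noncomputable def n2788 : Ent := ⟨e2788, noF, [], [], []⟩

def c2788 : PLift (Cov.check n2788.C.D v2788 = true) := ⟨by decide +kernel⟩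

def b2788 : PLift (entF (fidx ts) 400 2788 n2788 = true) := ⟨by decide +kernel⟩

theorem g2788 : GoodF (fidx ts) 400 2788 := GoodF.ofV v2788 n2788 c2788.down b2788.down

/-- 4866446:2232 -/
noncomputable def e2789 : SCfg where
  D := {
    a := 7
    L := 11
    kp := 9
    inn := [(0, 1), (0, 3), (0, 6), (1, 0), (1, 2), (1, 3), (1, 5), (1, 6), (2, 1), (2, 4), (3, 0), (3,
      1), (3, 5), (4, 2), (5, 1), (5, 3), (6, 0), (6, 1)]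
    mix := [(0, 0), (1, 1), (1, 2), (1, 3), (2, 1), (2, 2), (2, 4), (2, 5), (3, 0), (3, 6), (3, 7), (4,
      2), (4, 5), (4, 8), (5, 3), (5, 6), (6, 0), (6, 1), (6, 9), (6, 10)]
    cl := [1, 0, 0, 2, 7, 3, 4, 8, 9, 5, 6]
    chq := [(0, 3), (1, 2), (1, 4), (2, 1), (2, 5), (2, 6), (3, 0), (4, 1), (5, 2), (6, 2)]
    rng := [(0, 7), (0, 9), (1, 4), (1, 10), (2, 3), (2, 8), (3, 2), (3, 6), (4, 1), (4, 5), (5, 4),
      (5, 8), (6, 3), (6, 7), (7, 0), (7, 6), (8, 2), (8, 5), (9, 0), (9, 10), (10, 1), (10, 9)]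
    lev := [] }
  links := [[1, 3, 7, 6], [3, 0, 6, 8, 2, 9, 10, 5], [9, 1, 8, 11, 12, 4], [7, 0, 1, 5, 13, 14], [9, 2,
    12, 15], [13, 3, 1, 10], [8, 1, 0, 7, 16, 17]]
  P := {
    a := 7
    N := 18
    nb := [202, 1901, 6930, 24739, 37380, 9226, 196995, 81993, 133190, 33814, 8738, 4356, 34836,
      17448, 8328, 4624, 131264, 65856]
    tri := [(0, 1, 3), (0, 1, 6), (0, 3, 7), (0, 6, 7), (1, 2, 8), (1, 2, 9), (1, 3, 5), (1, 5, 10),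
      (1, 6, 8), (1, 9, 10), (2, 4, 9), (2, 4, 12), (2, 8, 11), (2, 11, 12), (3, 5, 13), (3, 7,
      14), (3, 13, 14), (4, 9, 15), (4, 12, 15), (5, 10, 13), (6, 7, 16), (6, 8, 17), (6, 16, 17)]
    fin := [0, 1, 2, 0, 2, 0, 1, 0, 2, 2, 1, 11, 12, 13, 14, 15, 16, 17]
    chd := [(0, 1), (0, 13), (1, 16), (1, 17), (2, 12)]
    steps := [(0, 3), (0, 5), (0, 7), (1, 6), (1, 10), (2, 4), (2, 8), (2, 9)] }
  rep := [2, 0, 1, 12, 13, 16, 17, 11, 14, 15]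

noncomputable def v2789 : Cov.CovD where
  P := 3
  N := 7
  pl := [4, 7, 8]
  lev := [⟨[], [], [], [], [(0, 1, [2, 4])]⟩,
    ⟨[], [(0, 0), (0, 1), (0, 2)], [(0, 0), (0, 2)], [], [(1, 0, [3]), (2, 0, [3]), (3, 2,
      [1, 5, 6])]⟩,
    ⟨[(0, 1)], [(1, 0), (1, 2), (1, 3)], [(0, 0), (0, 3)], [7], [(1, 0, [3]), (2, 0, [3]),
      (5, 3, [0])]⟩,
    ⟨[(0, 1), (1, 2)], [(0, 1), (0, 4), (1, 0), (1, 1), (1, 2), (1, 4)], [(1, 4)], [8],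
      [(0, 1, [2, 4]), (6, 4, [1])]⟩,
    ⟨[(1, 2)], [(1, 0), (2, 0), (2, 3)], [(0, 3)], [9], [(2, 0, [3]), (5, 3, [0])]⟩,
    ⟨[(0, 1), (0, 3), (1, 2), (1, 3)], [(1, 0), (1, 2), (1, 4), (3, 1), (3, 2), (3, 4)],
      [(2, 4)], [], [(3, 2, [1, 5, 6]), (6, 4, [1])]⟩,
    ⟨[(0, 1), (0, 3), (1, 2), (1, 3), (1, 5)], [(0, 0), (0, 1), (0, 5), (0, 6), (1, 0), (1,
      1), (1, 2), (1, 5), (1, 6), (2, 0), (3, 1)], [(0, 1), (0, 5), (0, 6), (1, 5), (1, 6),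
      (5, 6)], [], [(0, 1, [2, 4]), (1, 0, [3]), (9, 5, [2]), (10, 6, [2])]⟩]
  Ta := [((1, 4), 0, 7), ((1, 10), 0, 6), ((2, 3), 0, 2), ((2, 8), 0, 9)]
  Tb := [((0, 7, 9), 1, 8, 5), ((1, 4, 10), 0, 7, 6), ((2, 3, 8), 0, 2, 9), ((3, 2, 6), 2, 0, 4),
    ((4, 1, 5), 7, 0, 3), ((5, 4, 8), 3, 7, 9), ((6, 3, 7), 4, 2, 8), ((7, 0, 6), 8, 1, 4),
    ((8, 2, 5), 9, 0, 3), ((9, 0, 10), 5, 1, 6), ((10, 1, 9), 6, 0, 5)]
  Tc := [(1, 2, 4), (2, 1, 5), (2, 1, 6), (2, 5, 6)]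
  Td := [((0, 3), (1, 4), 7), ((0, 3), (1, 10), 6), ((0, 3), (2, 3), 2), ((0, 3), (2, 8), 9),
    ((1, 2), (0, 7), 8), ((1, 2), (0, 9), 5), ((1, 4), (0, 7), 8), ((1, 4), (0, 9), 5), ((2,
    1), (3, 2), 0), ((2, 1), (3, 6), 4), ((2, 5), (3, 2), 0), ((2, 5), (3, 6), 4), ((2, 6),
    (3, 2), 0), ((2, 6), (3, 6), 4), ((3, 0), (5, 4), 7), ((3, 0), (5, 8), 9), ((4, 1), (6,
    3), 2), ((4, 1), (6, 7), 8), ((5, 2), (9, 0), 1), ((5, 2), (9, 10), 6), ((6, 2), (10, 1),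
    0), ((6, 2), (10, 9), 5)]
  G := [[0, 0x2121521215621219212121721219e212132121321213ee2828588c4, 0,
    0x2224544282292222922225d22283222239282852222322229dec1,
    0x4211424254242342425d42429424242e42423de4848342429428d8a1], [0,
    0x212121e212121e212121ee84212121e212121e212121ee212121e212121e212121ee68c,
    0x121261121212e121212e121212ed121212e121212e121212ede181218e12898121212e48e4,
    0x2424c51555a22474dd949dddd9e2222222e222222e212221edac2222c81885aa48c,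
    0x424242e424242e5424242e424242e424242ed6484848e42449449e44a4242ed484248e8ca1]]

noncomputable def n2789 : Ent := ⟨e2789, noF, [], [], [(17, 11, [6903326391201334778116932359625648306653620957400551096786542327119873, 0])]⟩

def c2789 : PLift (Cov.check n2789.C.D v2789 = true) := ⟨by decide +kernel⟩

def b2789 : PLift (entF (fidx ts) 400 2789 n2789 = true) := ⟨by decide +kernel⟩

theorem g2789 : GoodF (fidx ts) 400 2789 := GoodF.ofV v2789 n2789 c2789.down b2789.down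

/-- 4866446:2235/1 -/
noncomputable def e2790 : SCfg where
  D := {
    a := 7
    L := 10
    kp := 8
    inn := [(0, 1), (0, 3), (1, 0), (1, 2), (1, 3), (1, 5), (1, 6), (2, 1), (2, 4), (3, 0), (3, 1), (3,
      5), (4, 2), (5, 1), (5, 3), (5, 6), (6, 1), (6, 5)]
    mix := [(0, 0), (0, 1), (1, 1), (1, 2), (1, 3), (2, 2), (2, 3), (2, 4), (2, 5), (3, 0), (3, 6), (3,
      7), (4, 3), (4, 5), (4, 8), (5, 6), (6, 3), (6, 6), (6, 8), (6, 9)]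
    cl := [3, 2, 0, 0, 7, 4, 1, 8, 5, 6]
    chq := [(0, 4), (1, 2), (1, 3), (2, 1), (2, 5), (2, 6), (3, 1), (4, 0), (5, 2), (6, 2)]
    rng := [(0, 1), (0, 7), (1, 0), (1, 2), (2, 1), (2, 4), (3, 8), (4, 2), (4, 5), (5, 4), (5, 8), (6,
      7), (6, 9), (7, 0), (7, 6), (8, 3), (8, 5), (8, 9), (9, 6), (9, 8)]
    lev := [] }
  links := [[1, 3, 7, 8], [3, 0, 8, 9, 2, 10, 6, 5], [10, 1, 9, 11, 12, 4], [7, 0, 1, 5, 13, 14], [10, 2,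
    12, 15], [13, 3, 1, 6], [13, 5, 1, 10, 15, 16]]
  P := {
    a := 7
    N := 17
    nb := [394, 1901, 7698, 24739, 37892, 8266, 107554, 16649, 643, 2310, 32854, 4612, 34836, 82024,
      8328, 70736, 41024]
    tri := [(0, 1, 3), (0, 1, 8), (0, 3, 7), (0, 7, 8), (1, 2, 9), (1, 2, 10), (1, 3, 5), (1, 5, 6),
      (1, 6, 10), (1, 8, 9), (2, 4, 10), (2, 4, 12), (2, 9, 11), (2, 11, 12), (3, 5, 13), (3, 7,
      14), (3, 13, 14), (4, 10, 15), (4, 12, 15), (5, 6, 13), (6, 10, 15), (6, 13, 16), (6, 15,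
      16)]
    fin := [0, 1, 2, 0, 2, 0, 1, 0, 1, 2, 2, 11, 12, 13, 14, 15, 16]
    chd := [(0, 13), (1, 13), (1, 15), (1, 16), (2, 12)]
    steps := [(0, 3), (0, 5), (0, 7), (1, 6), (1, 8), (2, 4), (2, 9), (2, 10)] }
  rep := [2, 13, 1, 0, 12, 15, 16, 11, 14]

noncomputable def v2790 : Cov.CovD where
  P := 3
  N := 6
  pl := [4, 7]
  lev := [⟨[], [], [(2, 3)], [], [(0, 3, [1]), (1, 2, [1, 5, 6])]⟩,
    ⟨[], [(0, 0), (0, 2), (0, 3)], [(0, 0), (0, 2)], [], [(1, 2, [1, 5, 6]), (2, 0, [4]),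
      (3, 0, [4])]⟩,
    ⟨[(0, 1)], [(1, 0), (1, 2), (1, 4)], [(0, 0), (0, 4)], [7], [(2, 0, [4]), (3, 0, [4]),
      (5, 4, [0])]⟩,
    ⟨[(0, 1), (1, 2)], [(0, 1), (0, 2), (0, 3), (1, 0), (1, 1), (1, 2), (1, 3)], [(1, 3)],
      [8], [(0, 3, [1]), (6, 1, [2, 3])]⟩,
    ⟨[(1, 2)], [(1, 0), (2, 0), (2, 4), (2, 5)], [(0, 4), (0, 5), (4, 5)], [], [(3, 0,
      [4]), (5, 4, [0]), (8, 5, [2])]⟩,
    ⟨[(0, 1), (0, 3), (1, 2), (1, 3)], [(1, 0), (1, 1), (1, 2), (3, 1), (3, 3)], [], [],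
      [(6, 1, [2, 3])]⟩,
    ⟨[(0, 1), (1, 2), (1, 3), (1, 5), (3, 5)], [(1, 0), (1, 1), (1, 2), (1, 5), (1, 6), (2,
      0), (3, 1), (4, 0), (4, 5), (5, 0), (5, 1), (5, 5), (5, 6)], [(0, 1), (0, 5), (0, 6),
      (1, 5), (1, 6), (5, 6)], [], [(3, 0, [4]), (6, 1, [2, 3]), (8, 5, [2]), (9, 6, [2])]⟩]
  Ta := [((2, 1), 0, 2), ((2, 4), 0, 7), ((3, 8), 0, 5)]
  Tb := [((0, 1, 7), 3, 2, 8), ((1, 0, 2), 2, 3, 0), ((2, 1, 4), 0, 2, 7), ((4, 2, 5), 7, 0, 4),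
    ((5, 4, 8), 4, 7, 5), ((6, 7, 9), 1, 8, 6), ((7, 0, 6), 8, 3, 1), ((8, 3, 5), 5, 0, 4),
    ((8, 3, 9), 5, 0, 6), ((8, 5, 9), 5, 4, 6), ((9, 6, 8), 6, 1, 5)]
  Tc := [(1, 2, 3), (2, 1, 5), (2, 1, 6), (2, 5, 6)]
  Td := [((0, 4), (2, 1), 2), ((0, 4), (2, 4), 7), ((0, 4), (3, 8), 5), ((1, 2), (6, 7), 8), ((1,
    2), (6, 9), 6), ((1, 3), (6, 7), 8), ((1, 3), (6, 9), 6), ((2, 1), (1, 0), 3), ((2, 1),
    (1, 2), 0), ((2, 5), (1, 0), 3), ((2, 5), (1, 2), 0), ((2, 6), (1, 0), 3), ((2, 6), (1,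
    2), 0), ((3, 1), (0, 1), 2), ((3, 1), (0, 7), 8), ((4, 0), (5, 4), 7), ((4, 0), (5, 8),
    5), ((5, 2), (8, 3), 0), ((5, 2), (8, 5), 4), ((5, 2), (8, 9), 6), ((6, 2), (9, 6), 1),
    ((6, 2), (9, 8), 5)]
  G := [[0, 0x24424245c4242832828928285e28128289a242492828324243eec1,
    0x141414e181414e181814ed141414e181818e18c13d6181818e181818e141818ed8c2,
    0x241442412128321283d212132819282282212dec2,
    0x414141788241415414155414141d4841348489d4114148941483de8a], [0,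
    0x242424e282824e282428ee4282828e282828e242824ee282824e282828e242828eeac1, 0,
    0x212424e242424ec4212121e282821ec242212cac242424e14282428e12421ac3,
    0x414141e882414164414141e484141e414148ed414141e414148e484848ede48848a484848e182b]]

noncomputable def n2790 : Ent := ⟨e2790, noF, [], [], []⟩

def c2790 : PLift (Cov.check n2790.C.D v2790 = true) := ⟨by decide +kernel⟩

def b2790 : PLift (entF (fidx ts) 400 2790 n2790 = true) := ⟨by decide +kernel⟩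

theorem g2790 : GoodF (fidx ts) 400 2790 := GoodF.ofV v2790 n2790 c2790.down b2790.down

/-- 4866446:2235 -/
noncomputable def e2791 : SCfg where
  D := {
    a := 7
    L := 11
    kp := 9
    inn := [(0, 1), (0, 3), (1, 0), (1, 2), (1, 3), (1, 5), (1, 6), (2, 1), (2, 4), (3, 0), (3, 1), (3,
      5), (4, 2), (5, 1), (5, 3), (5, 6), (6, 1), (6, 5)]
    mix := [(0, 0), (0, 1), (1, 1), (1, 2), (1, 3), (2, 2), (2, 3), (2, 4), (2, 5), (3, 0), (3, 6), (3,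
      7), (4, 3), (4, 5), (4, 8), (5, 6), (6, 3), (6, 6), (6, 9), (6, 10)]
    cl := [3, 2, 0, 0, 7, 4, 1, 8, 9, 5, 6]
    chq := [(0, 4), (1, 2), (1, 3), (2, 1), (2, 5), (2, 6), (3, 1), (4, 0), (5, 2), (6, 2)]
    rng := [(0, 1), (0, 7), (1, 0), (1, 2), (2, 1), (2, 4), (3, 8), (3, 9), (4, 2), (4, 5), (5, 4), (5,
      8), (6, 7), (6, 10), (7, 0), (7, 6), (8, 3), (8, 5), (9, 3), (9, 10), (10, 6), (10, 9)]
    lev := [] }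
  links := [[1, 3, 7, 8], [3, 0, 8, 9, 2, 10, 6, 5], [10, 1, 9, 11, 12, 4], [7, 0, 1, 5, 13, 14], [10, 2,
    12, 15], [13, 3, 1, 6], [13, 5, 1, 10, 16, 17]]
  P := {
    a := 7
    N := 18
    nb := [394, 1901, 7698, 24739, 37892, 8266, 205858, 16649, 643, 2310, 98390, 4612, 34836, 147560,
      8328, 5136, 132160, 73792]
    tri := [(0, 1, 3), (0, 1, 8), (0, 3, 7), (0, 7, 8), (1, 2, 9), (1, 2, 10), (1, 3, 5), (1, 5, 6),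
      (1, 6, 10), (1, 8, 9), (2, 4, 10), (2, 4, 12), (2, 9, 11), (2, 11, 12), (3, 5, 13), (3, 7,
      14), (3, 13, 14), (4, 10, 15), (4, 12, 15), (5, 6, 13), (6, 10, 16), (6, 13, 17), (6, 16,
      17)]
    fin := [0, 1, 2, 0, 2, 0, 1, 0, 1, 2, 2, 11, 12, 13, 14, 15, 16, 17]
    chd := [(0, 13), (1, 13), (1, 16), (1, 17), (2, 12)]
    steps := [(0, 3), (0, 5), (0, 7), (1, 6), (1, 8), (2, 4), (2, 9), (2, 10)] }
  rep := [2, 13, 1, 0, 12, 16, 17, 11, 14, 15]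

noncomputable def v2791 : Cov.CovD where
  P := 3
  N := 7
  pl := [4, 7, 8]
  lev := [⟨[], [], [(2, 3)], [], [(0, 3, [1]), (1, 2, [1, 5, 6])]⟩,
    ⟨[], [(0, 0), (0, 2), (0, 3)], [(0, 0), (0, 2)], [], [(1, 2, [1, 5, 6]), (2, 0, [4]),
      (3, 0, [4])]⟩,
    ⟨[(0, 1)], [(1, 0), (1, 2), (1, 4)], [(0, 0), (0, 4)], [7], [(2, 0, [4]), (3, 0, [4]),
      (5, 4, [0])]⟩,
    ⟨[(0, 1), (1, 2)], [(0, 1), (0, 2), (0, 3), (1, 0), (1, 1), (1, 2), (1, 3)], [(1, 3)],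
      [8], [(0, 3, [1]), (6, 1, [2, 3])]⟩,
    ⟨[(1, 2)], [(1, 0), (2, 0), (2, 4)], [(0, 4)], [9], [(3, 0, [4]), (5, 4, [0])]⟩,
    ⟨[(0, 1), (0, 3), (1, 2), (1, 3)], [(1, 0), (1, 1), (1, 2), (3, 1), (3, 3)], [], [],
      [(6, 1, [2, 3])]⟩,
    ⟨[(0, 1), (1, 2), (1, 3), (1, 5), (3, 5)], [(1, 0), (1, 1), (1, 2), (1, 5), (1, 6), (2,
      0), (3, 1), (4, 0), (5, 0), (5, 1), (5, 5), (5, 6)], [(0, 1), (0, 5), (0, 6), (1, 5),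
      (1, 6), (5, 6)], [], [(3, 0, [4]), (6, 1, [2, 3]), (9, 5, [2]), (10, 6, [2])]⟩]
  Ta := [((2, 1), 0, 2), ((2, 4), 0, 7), ((3, 8), 0, 9), ((3, 9), 0, 5)]
  Tb := [((0, 1, 7), 3, 2, 8), ((1, 0, 2), 2, 3, 0), ((2, 1, 4), 0, 2, 7), ((3, 8, 9), 0, 9, 5),
    ((4, 2, 5), 7, 0, 4), ((5, 4, 8), 4, 7, 9), ((6, 7, 10), 1, 8, 6), ((7, 0, 6), 8, 3, 1),
    ((8, 3, 5), 9, 0, 4), ((9, 3, 10), 5, 0, 6), ((10, 6, 9), 6, 1, 5)]
  Tc := [(1, 2, 3), (2, 1, 5), (2, 1, 6), (2, 5, 6)]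
  Td := [((0, 4), (2, 1), 2), ((0, 4), (2, 4), 7), ((0, 4), (3, 8), 9), ((0, 4), (3, 9), 5), ((1,
    2), (6, 7), 8), ((1, 2), (6, 10), 6), ((1, 3), (6, 7), 8), ((1, 3), (6, 10), 6), ((2, 1),
    (1, 0), 3), ((2, 1), (1, 2), 0), ((2, 5), (1, 0), 3), ((2, 5), (1, 2), 0), ((2, 6), (1,
    0), 3), ((2, 6), (1, 2), 0), ((3, 1), (0, 1), 2), ((3, 1), (0, 7), 8), ((4, 0), (5, 4),
    7), ((4, 0), (5, 8), 9), ((5, 2), (9, 3), 0), ((5, 2), (9, 10), 6), ((6, 2), (10, 6), 1),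
    ((6, 2), (10, 9), 5)]
  G := [[0, 0x2412424247624245282428b242824eec28289824283282828e281eac1,
    0x141414e181814e141818ed141414e141418e181414ed6141418e181818e181818ed8c2,
    0x242452424524285d212432428321283d6212492821928219d8c2,
    0x41414174141354141548148415d41413414848741489de4848988a2], [0,
    0x242424e242828e242824ee4282824e282828e242824ee242428e282828e282824eeac1, 0,
    0x242424e282424e212421ed242424e242824e282421ed6282124e212121e242424ed8c2,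
    0x414141e882414141e484141e484148ed414141e414841e484841ed6484141e48a484848e182b]]

noncomputable def n2791 : Ent := ⟨e2791, noF, [], [], [(15, 16, [7334685537875745012586738086077695515070955365108989538292687705104385, 0])]⟩

def c2791 : PLift (Cov.check n2791.C.D v2791 = true) := ⟨by decide +kernel⟩

def b2791 : PLift (entF (fidx ts) 400 2791 n2791 = true) := ⟨by decide +kernel⟩

theorem g2791 : GoodF (fidx ts) 400 2791 := GoodF.ofV v2791 n2791 c2791.down b2791.down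

/-- 4594666:2236 -/
noncomputable def e2792 : SCfg where
  D := {
    a := 7
    L := 11
    kp := 10
    inn := [(0, 1), (0, 2), (0, 4), (1, 0), (1, 2), (2, 0), (2, 1), (2, 3), (2, 4), (2, 5), (2, 6), (3,
      2), (3, 5), (4, 0), (4, 2), (4, 6), (5, 2), (5, 3), (5, 6), (6, 2), (6, 4), (6, 5)]
    mix := [(0, 0), (1, 0), (1, 1), (1, 2), (2, 2), (2, 3), (2, 4), (3, 4), (3, 5), (4, 0), (4, 6), (4,
      7), (5, 5), (5, 8), (5, 9), (6, 6), (6, 9), (6, 10)]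
    cl := [0, 8, 3, 6, 1, 4, 2, 9, 7, 5, 10]
    chq := [(0, 1), (0, 2), (0, 3), (0, 6), (1, 0), (1, 2), (2, 0), (2, 1), (2, 4), (2, 5), (2, 7), (3,
      0), (4, 2), (5, 2), (6, 0), (7, 2)]
    rng := [(0, 1), (0, 7), (1, 0), (1, 2), (2, 1), (2, 3), (3, 2), (3, 4), (4, 3), (4, 5), (5, 4), (5,
      8), (6, 7), (6, 10), (7, 0), (7, 6), (8, 5), (8, 9), (9, 8), (9, 10), (10, 6), (10, 9)]
    lev := [] }
  links := [[1, 2, 4, 7], [2, 0, 7, 8, 9], [4, 0, 1, 9, 10, 11, 3, 5, 6], [5, 2, 11, 12], [7, 0, 2, 6,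
    13, 14], [6, 2, 3, 12, 15, 16], [13, 4, 2, 5, 16, 17]]
  P := {
    a := 7
    N := 18
    nb := [150, 901, 3707, 6180, 24773, 102476, 204852, 16659, 642, 1286, 2564, 5132, 34856, 147536,
      8336, 69664, 163936, 73792]
    tri := [(0, 1, 2), (0, 1, 7), (0, 2, 4), (0, 4, 7), (1, 2, 9), (1, 7, 8), (1, 8, 9), (2, 3, 5), (2,
      3, 11), (2, 4, 6), (2, 5, 6), (2, 9, 10), (2, 10, 11), (3, 5, 12), (3, 11, 12), (4, 6, 13),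
      (4, 7, 14), (4, 13, 14), (5, 6, 16), (5, 12, 15), (5, 15, 16), (6, 13, 17), (6, 16, 17)]
    fin := [0, 0, 0, 3, 0, 5, 5, 0, 8, 9, 10, 3, 12, 5, 14, 15, 16, 17]
    chd := [(0, 3), (0, 5), (0, 9), (0, 10), (3, 5), (5, 15), (5, 16), (12, 5)]
    steps := [(0, 1), (0, 2), (0, 4), (0, 7), (3, 11), (5, 6), (5, 13)] }
  rep := [0, 3, 5, 9, 12, 16, 10, 15, 8, 14, 17]

noncomputable def v2792 : Cov.CovD where
  P := 3
  N := 8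
  pl := [1, 7, 10]
  lev := [⟨[], [], [], [], [(0, 0, [1, 2, 3, 6])]⟩,
    ⟨[], [(0, 0), (0, 3)], [(0, 3)], [8], [(0, 0, [1, 2, 3, 6]), (2, 3, [0])]⟩,
    ⟨[(0, 1)], [(0, 0), (0, 1), (0, 3), (0, 6), (1, 0), (1, 1), (1, 3), (1, 6)], [(1, 3),
      (1, 6), (3, 6)], [], [(2, 3, [0]), (3, 6, [0]), (4, 1, [0, 2])]⟩,
    ⟨[(0, 2), (1, 2)], [(2, 1), (2, 3), (2, 4), (2, 6)], [(1, 4)], [], [(4, 1, [0, 2]), (5,
      4, [2])]⟩,
    ⟨[(0, 1), (0, 2), (1, 2), (2, 3)], [(0, 0), (0, 2), (1, 0), (2, 0), (2, 1), (2, 2), (2,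
      3), (2, 6)], [(0, 2)], [9], [(0, 0, [1, 2, 3, 6]), (6, 2, [0, 1, 4, 5, 7])]⟩,
    ⟨[(0, 2), (1, 2), (2, 3), (2, 4)], [(2, 1), (2, 3), (2, 4), (2, 5), (2, 6), (2, 7), (3,
      1), (3, 4), (3, 5), (3, 7)], [(4, 5), (4, 7), (5, 7)], [], [(5, 4, [2]), (8, 7, [2]),
      (9, 5, [2])]⟩,
    ⟨[(0, 2), (0, 4), (1, 2), (2, 3), (2, 4), (2, 5), (3, 5), (4, 5)], [(2, 1), (2, 2), (2,
      3), (2, 5), (2, 6), (4, 0), (4, 2), (4, 5), (5, 2), (5, 4), (5, 5), (5, 7)], [(2, 5)],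
      [10], [(6, 2, [0, 1, 4, 5, 7]), (9, 5, [2])]⟩]
  Ta := []
  Tb := [((0, 1, 7), 0, 8, 9), ((1, 0, 2), 8, 0, 3), ((2, 1, 3), 3, 8, 6), ((3, 2, 4), 6, 3, 1),
    ((4, 3, 5), 1, 6, 4), ((5, 4, 8), 4, 1, 7), ((6, 7, 10), 2, 9, 10), ((7, 0, 6), 9, 0, 2),
    ((8, 5, 9), 7, 4, 5), ((9, 8, 10), 5, 7, 10), ((10, 6, 9), 10, 2, 5)]
  Tc := [(0, 1, 2), (0, 1, 3), (0, 1, 6), (0, 2, 3), (0, 2, 6), (0, 3, 6), (1, 0, 2), (2, 0, 1),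
    (2, 0, 4), (2, 0, 5), (2, 0, 7), (2, 1, 4), (2, 1, 5), (2, 1, 7), (2, 4, 5), (2, 4, 7),
    (2, 5, 7)]
  Td := [((0, 1), (0, 1), 8), ((0, 1), (0, 7), 9), ((0, 2), (0, 1), 8), ((0, 2), (0, 7), 9), ((0,
    3), (0, 1), 8), ((0, 3), (0, 7), 9), ((0, 6), (0, 1), 8), ((0, 6), (0, 7), 9), ((1, 0),
    (4, 3), 6), ((1, 0), (4, 5), 4), ((1, 2), (4, 3), 6), ((1, 2), (4, 5), 4), ((2, 0), (6,
    7), 9), ((2, 0), (6, 10), 10), ((2, 1), (6, 7), 9), ((2, 1), (6, 10), 10), ((2, 4), (6,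
    7), 9), ((2, 4), (6, 10), 10), ((2, 5), (6, 7), 9), ((2, 5), (6, 10), 10), ((2, 7), (6,
    7), 9), ((2, 7), (6, 10), 10), ((3, 0), (2, 1), 8), ((3, 0), (2, 3), 6), ((4, 2), (5, 4),
    1), ((4, 2), (5, 8), 7), ((5, 2), (9, 8), 7), ((5, 2), (9, 10), 10), ((6, 0), (3, 2), 3),
    ((6, 0), (3, 4), 1), ((7, 2), (8, 5), 4), ((7, 2), (8, 9), 5)]
  G := [[0,
    0x8288182c2a41c22c22c15292c112815111c11511c55a919ecdef424c2c2cc18242c424a18242c214292c14f6,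
    0xe1e16e1e16c141e1a1ee1e16c16e1e1ae1e1ac18c,
    0x1221229441224d22d22c91228d22d22c912211221229d22d22cd12288fc,
    0x1421121414ad423424a4a4a4beef4944faa42d9a484b44feb44fac114214581494ad1128119a424a4beefcbdefacde3441115115a11113a1414adc1488445a111aa344d1158118c41481c4115115a11113a1414adcfe]]

noncomputable def n2792 : Ent := ⟨e2792, noF, [], [], []⟩

def c2792 : PLift (Cov.check n2792.C.D v2792 = true) := ⟨by decide +kernel⟩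

def b2792 : PLift (entF (fidx ts) 400 2792 n2792 = true) := ⟨by decide +kernel⟩

theorem g2792 : GoodF (fidx ts) 400 2792 := GoodF.ofV v2792 n2792 c2792.down b2792.down

/-- 4595464:2239/1 -/
noncomputable def e2793 : SCfg where
  D := {
    a := 7
    L := 10
    kp := 7
    inn := [(0, 1), (0, 2), (1, 0), (1, 2), (2, 0), (2, 1), (2, 3), (2, 4), (2, 5), (3, 2), (4, 2), (4,
      5), (5, 2), (5, 4), (5, 6), (6, 5)]
    mix := [(0, 0), (0, 1), (1, 1), (1, 2), (1, 3), (2, 0), (2, 3), (2, 4), (2, 5), (3, 4), (3, 5), (3,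
      6), (3, 7), (4, 5), (4, 8), (5, 0), (5, 8), (5, 9), (6, 2), (6, 8), (6, 9)]
    cl := [0, 2, 5, 0, 1, 1, 6, 7, 3, 4]
    chq := [(0, 3), (3, 0), (3, 4), (4, 3)]
    rng := [(0, 1), (0, 9), (1, 0), (1, 2), (2, 1), (2, 3), (2, 8), (2, 9), (3, 2), (3, 4), (4, 3), (4,
      6), (5, 7), (5, 8), (6, 4), (6, 7), (7, 5), (7, 6), (8, 2), (8, 5), (9, 0), (9, 2)]
    lev := [] }
  links := [[1, 2, 7, 8], [2, 0, 8, 9, 10], [7, 0, 1, 10, 11, 3, 12, 4, 5], [12, 2, 11, 13, 14], [5, 2,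
    12, 15], [7, 2, 4, 15, 6, 16], [16, 5, 15, 9]]
  P := {
    a := 7
    N := 17
    nb := [390, 1797, 7355, 30724, 36900, 98516, 98848, 65829, 643, 99650, 2566, 9228, 49180, 18440,
      12296, 4720, 736]
    tri := [(0, 1, 2), (0, 1, 8), (0, 2, 7), (0, 7, 8), (1, 2, 10), (1, 8, 9), (1, 9, 10), (2, 3, 11),
      (2, 3, 12), (2, 4, 5), (2, 4, 12), (2, 5, 7), (2, 10, 11), (3, 11, 13), (3, 12, 14), (3, 13,
      14), (4, 5, 15), (4, 12, 15), (5, 6, 15), (5, 6, 16), (5, 7, 16), (6, 9, 15), (6, 9, 16)]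
    fin := [0, 0, 0, 3, 0, 5, 6, 0, 8, 6, 0, 3, 3, 13, 14, 5, 16]
    chd := [(0, 5), (5, 16)]
    steps := [(0, 1), (0, 2), (0, 4), (0, 7), (0, 10), (3, 11), (3, 12), (5, 15), (6, 9)] }
  rep := [0, 3, 8, 5, 16, 6, 13, 14]

noncomputable def v2793 : Cov.CovD where
  P := 3
  N := 5
  pl := [1, 2, 6, 7]
  lev := [⟨[], [], [], [2], [(0, 0, [3])]⟩,
    ⟨[], [(0, 0)], [], [2, 5], [(3, 0, [3])]⟩,
    ⟨[(0, 1)], [(0, 0), (0, 1), (1, 0), (1, 1)], [(0, 0), (0, 1), (1, 1)], [], [(0, 0,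
      [3]), (3, 0, [3]), (4, 1, []), (5, 1, [])]⟩,
    ⟨[(0, 2), (1, 2)], [(2, 0), (2, 1)], [(1, 1)], [6, 7], [(4, 1, []), (5, 1, [])]⟩,
    ⟨[(0, 2), (1, 2), (2, 3)], [(2, 0), (2, 1), (2, 3), (3, 1)], [(1, 3)], [], [(5, 1, []),
      (8, 3, [0, 4])]⟩,
    ⟨[(0, 2), (1, 2), (2, 3), (2, 4)], [(0, 0), (2, 0), (2, 1), (2, 3), (2, 4), (4, 0), (4,
      1), (4, 3), (4, 4)], [(0, 3), (0, 4), (3, 4)], [], [(0, 0, [3]), (8, 3, [0, 4]), (9, 4,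
      [3])]⟩,
    ⟨[(2, 5), (4, 5)], [(4, 3), (5, 0), (5, 3), (5, 4)], [(3, 4)], [5], [(8, 3, [0, 4]),
      (9, 4, [3])]⟩]
  Ta := [((0, 1), 0, 2), ((0, 9), 0, 4), ((3, 2), 0, 5), ((3, 4), 0, 1), ((4, 3), 1, 0), ((4, 6),
    1, 6), ((5, 7), 1, 7), ((5, 8), 1, 3)]
  Tb := [((0, 1, 9), 0, 2, 4), ((1, 0, 2), 2, 0, 5), ((2, 1, 3), 5, 2, 0), ((2, 1, 8), 5, 2, 3),
    ((2, 1, 9), 5, 2, 4), ((2, 3, 8), 5, 0, 3), ((2, 3, 9), 5, 0, 4), ((2, 8, 9), 5, 3, 4),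
    ((3, 2, 4), 0, 5, 1), ((4, 3, 6), 1, 0, 6), ((5, 7, 8), 1, 7, 3), ((6, 4, 7), 6, 1, 7),
    ((7, 5, 6), 7, 1, 6), ((8, 2, 5), 3, 5, 1), ((9, 0, 2), 4, 0, 5)]
  Tc := [(3, 0, 4)]
  Td := [((0, 3), (0, 1), 2), ((0, 3), (0, 9), 4), ((0, 3), (3, 2), 5), ((0, 3), (3, 4), 1), ((3,
    0), (8, 2), 5), ((3, 0), (8, 5), 1), ((3, 4), (8, 2), 5), ((3, 4), (8, 5), 1), ((4, 3),
    (9, 0), 0), ((4, 3), (9, 2), 5)]
  G := [[0, 0, 0x14225142e1141e1d84142411c12311a1112e1dc18884c6, 0x14f2315cb2315cb23d1828c14,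
    0x35644d17e139a8b3c523dc12], [0, 0, 0x1444811e181a1111e1dc4414111e112a1181269dca2,
    0x1444d17e118c7a9d17e1dc18, 0x1dbe1458817e958a97699c12], [0,
    0x11612111e1111e1188ea2212111e114961a11c1eac4, 0,
    0x5414812e182a1812e1dc416111c123121214ced1828cc1,
    0x141234121281ce8811481a3dc426118426314c223d1818ca1], [0, 0, 0,
    0x1414813e182a1812e1dc12445143e1143e1d12a88cc1,
    0x416141615815e1881881dc441144c12a118229512e1dca2]]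

noncomputable def n2793 : Ent := ⟨e2793, noF, [], [], []⟩

def c2793 : PLift (Cov.check n2793.C.D v2793 = true) := ⟨by decide +kernel⟩

def b2793 : PLift (entF (fidx ts) 400 2793 n2793 = true) := ⟨by decide +kernel⟩

theorem g2793 : GoodF (fidx ts) 400 2793 := GoodF.ofV v2793 n2793 c2793.down b2793.down

/-- 4595464:2239/2 -/
noncomputable def e2794 : SCfg where
  D := {
    a := 7
    L := 10
    kp := 7
    inn := [(0, 1), (0, 2), (1, 0), (1, 2), (2, 0), (2, 1), (2, 3), (2, 4), (2, 5), (3, 2), (4, 2), (4,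
      5), (5, 2), (5, 4), (5, 6), (6, 5)]
    mix := [(0, 0), (0, 1), (1, 1), (1, 2), (1, 3), (2, 0), (2, 3), (2, 4), (2, 5), (3, 4), (3, 5), (3,
      6), (3, 7), (4, 5), (4, 8), (5, 0), (5, 8), (5, 9), (6, 6), (6, 8), (6, 9)]
    cl := [0, 2, 6, 0, 1, 1, 5, 7, 3, 4]
    chq := [(0, 3), (3, 0), (3, 4), (4, 3)]
    rng := [(0, 1), (0, 9), (1, 0), (1, 2), (2, 1), (2, 3), (3, 2), (3, 4), (4, 3), (4, 6), (5, 7), (5,
      8), (6, 4), (6, 7), (6, 8), (6, 9), (7, 5), (7, 6), (8, 5), (8, 6), (9, 0), (9, 6)]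
    lev := [] }
  links := [[1, 2, 7, 8], [2, 0, 8, 9, 10], [7, 0, 1, 10, 11, 3, 12, 4, 5], [12, 2, 11, 13, 14], [5, 2,
    12, 15], [7, 2, 4, 15, 6, 16], [16, 5, 15, 13]]
  P := {
    a := 7
    N := 17
    nb := [390, 1797, 7355, 30724, 36900, 98516, 106528, 65829, 643, 1282, 2566, 9228, 49180, 116808,
      12296, 12400, 8416]
    tri := [(0, 1, 2), (0, 1, 8), (0, 2, 7), (0, 7, 8), (1, 2, 10), (1, 8, 9), (1, 9, 10), (2, 3, 11),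
      (2, 3, 12), (2, 4, 5), (2, 4, 12), (2, 5, 7), (2, 10, 11), (3, 11, 13), (3, 12, 14), (3, 13,
      14), (4, 5, 15), (4, 12, 15), (5, 6, 15), (5, 6, 16), (5, 7, 16), (6, 13, 15), (6, 13, 16)]
    fin := [0, 0, 0, 3, 0, 0, 6, 0, 8, 9, 0, 3, 3, 13, 14, 6, 16]
    chd := [(0, 6), (6, 16)]
    steps := [(0, 1), (0, 2), (0, 4), (0, 5), (0, 7), (0, 10), (3, 11), (3, 12), (6, 15)] }
  rep := [0, 3, 8, 6, 16, 13, 9, 14]

noncomputable def v2794 : Cov.CovD where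
  P := 3
  N := 5
  pl := [1, 2, 6, 7]
  lev := [⟨[], [], [], [2], [(0, 0, [3])]⟩,
    ⟨[], [(0, 0)], [], [2, 6], [(3, 0, [3])]⟩,
    ⟨[(0, 1)], [(0, 0), (0, 1), (1, 0), (1, 1)], [(0, 0), (0, 1), (1, 1)], [], [(0, 0,
      [3]), (3, 0, [3]), (4, 1, []), (5, 1, [])]⟩,
    ⟨[(0, 2), (1, 2)], [(2, 0), (2, 1)], [(1, 1)], [5, 7], [(4, 1, []), (5, 1, [])]⟩,
    ⟨[(0, 2), (1, 2), (2, 3)], [(2, 0), (2, 1), (2, 3), (3, 1)], [(1, 3)], [], [(5, 1, []),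
      (8, 3, [0, 4])]⟩,
    ⟨[(0, 2), (1, 2), (2, 3), (2, 4)], [(0, 0), (2, 0), (2, 1), (2, 3), (2, 4), (4, 0), (4,
      1), (4, 3), (4, 4)], [(0, 3), (0, 4), (3, 4)], [], [(0, 0, [3]), (8, 3, [0, 4]), (9, 4,
      [3])]⟩,
    ⟨[(2, 5), (4, 5)], [(4, 3), (5, 0), (5, 3), (5, 4)], [(3, 4)], [5], [(8, 3, [0, 4]),
      (9, 4, [3])]⟩]
  Ta := [((0, 1), 0, 2), ((0, 9), 0, 4), ((3, 2), 0, 6), ((3, 4), 0, 1), ((4, 3), 1, 0), ((4, 6),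
    1, 5), ((5, 7), 1, 7), ((5, 8), 1, 3)]
  Tb := [((0, 1, 9), 0, 2, 4), ((1, 0, 2), 2, 0, 6), ((2, 1, 3), 6, 2, 0), ((3, 2, 4), 0, 6, 1),
    ((4, 3, 6), 1, 0, 5), ((5, 7, 8), 1, 7, 3), ((6, 4, 7), 5, 1, 7), ((6, 4, 8), 5, 1, 3),
    ((6, 4, 9), 5, 1, 4), ((6, 7, 8), 5, 7, 3), ((6, 7, 9), 5, 7, 4), ((6, 8, 9), 5, 3, 4),
    ((7, 5, 6), 7, 1, 5), ((8, 5, 6), 3, 1, 5), ((9, 0, 6), 4, 0, 5)]
  Tc := [(3, 0, 4)]
  Td := [((0, 3), (0, 1), 2), ((0, 3), (0, 9), 4), ((0, 3), (3, 2), 6), ((0, 3), (3, 4), 1), ((3,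
    0), (8, 5), 1), ((3, 0), (8, 6), 5), ((3, 4), (8, 5), 1), ((3, 4), (8, 6), 5), ((4, 3),
    (9, 0), 0), ((4, 3), (9, 6), 5)]
  G := [[0, 0, 0x443234812e1982111e1dc4428854323142e1111e1d882881cce2,
    0x442234813e198111c323dc1442881c, 0x54214c211c323d8822383a1cc12], [0, 0,
    0x426111615812e1981181dc44188441142e1112e1d812e1881cce2, 0x88192a1c4152614419452a5d81c,
    0x541142e19452a5d82a1881cc12], [0, 0x112e12111e1111e1c612221411a5181412d11c1eac8, 0,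
    0x142182c488143631164586921218a9c1147a161a9416311c123d8cc,
    0x42611164541813e3189811a8dc4181c22794932311a1214ed4a2], [0, 0, 0,
    0x4148488184844414812e192a1181269dc5261142e1592e1d8818ccd,
    0x41812e5981592e1d444114225541812e5189229188dca4261488a]]

noncomputable def n2794 : Ent := ⟨e2794, noF, [], [], []⟩

def c2794 : PLift (Cov.check n2794.C.D v2794 = true) := ⟨by decide +kernel⟩

def b2794 : PLift (entF (fidx ts) 400 2794 n2794 = true) := ⟨by decide +kernel⟩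

theorem g2794 : GoodF (fidx ts) 400 2794 := GoodF.ofV v2794 n2794 c2794.down b2794.down

/-- 4595464:2239/3 -/
noncomputable def e2795 : SCfg where
  D := {
    a := 7
    L := 10
    kp := 7
    inn := [(0, 1), (0, 2), (1, 0), (1, 2), (2, 0), (2, 1), (2, 3), (2, 4), (2, 5), (3, 2), (4, 2), (4,
      5), (5, 2), (5, 4), (5, 6), (6, 5)]
    mix := [(0, 0), (0, 1), (1, 1), (1, 2), (1, 3), (2, 0), (2, 3), (2, 4), (2, 5), (3, 4), (3, 5), (3,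
      6), (3, 7), (4, 5), (4, 8), (5, 0), (5, 8), (5, 9), (6, 7), (6, 8), (6, 9)]
    cl := [0, 4, 6, 0, 1, 1, 7, 2, 3, 5]
    chq := [(0, 2), (0, 3), (2, 0), (3, 0)]
    rng := [(0, 1), (0, 9), (1, 0), (1, 2), (2, 1), (2, 3), (3, 2), (3, 4), (4, 3), (4, 6), (5, 7), (5,
      8), (6, 4), (6, 7), (7, 5), (7, 6), (7, 8), (7, 9), (8, 5), (8, 7), (9, 0), (9, 7)]
    lev := [] }
  links := [[1, 2, 7, 8], [2, 0, 8, 9, 10], [7, 0, 1, 10, 11, 3, 12, 4, 5], [12, 2, 11, 13, 14], [5, 2,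
    12, 15], [7, 2, 4, 15, 6, 16], [16, 5, 15, 14]]
  P := {
    a := 7
    N := 17
    nb := [390, 1797, 7355, 30724, 36900, 98516, 114720, 65829, 643, 1282, 2566, 9228, 49180, 18440,
      110664, 20592, 16608]
    tri := [(0, 1, 2), (0, 1, 8), (0, 2, 7), (0, 7, 8), (1, 2, 10), (1, 8, 9), (1, 9, 10), (2, 3, 11),
      (2, 3, 12), (2, 4, 5), (2, 4, 12), (2, 5, 7), (2, 10, 11), (3, 11, 13), (3, 12, 14), (3, 13,
      14), (4, 5, 15), (4, 12, 15), (5, 6, 15), (5, 6, 16), (5, 7, 16), (6, 14, 15), (6, 14, 16)]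
    fin := [0, 0, 0, 3, 0, 0, 0, 0, 8, 9, 0, 3, 3, 13, 14, 15, 16]
    chd := [(0, 14), (0, 15)]
    steps := [(0, 1), (0, 2), (0, 4), (0, 5), (0, 6), (0, 7), (0, 10), (3, 11), (3, 12)] }
  rep := [0, 3, 14, 15, 8, 16, 9, 13]

noncomputable def v2795 : Cov.CovD where
  P := 3
  N := 5
  pl := [1, 2, 6, 9]
  lev := [⟨[], [], [], [4], [(0, 0, [2, 3])]⟩,
    ⟨[], [(0, 0)], [], [4, 6], [(3, 0, [2, 3])]⟩,
    ⟨[(0, 1)], [(0, 0), (0, 1), (1, 0), (1, 1)], [(0, 0), (0, 1), (1, 1)], [], [(0, 0, [2,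
      3]), (3, 0, [2, 3]), (4, 1, []), (5, 1, [])]⟩,
    ⟨[(0, 2), (1, 2)], [(2, 0), (2, 1), (2, 2)], [(1, 1), (1, 2)], [7], [(4, 1, []), (5, 1,
      []), (7, 2, [0])]⟩,
    ⟨[(0, 2), (1, 2), (2, 3)], [(2, 0), (2, 1), (2, 3), (3, 1)], [(1, 3)], [], [(5, 1, []),
      (8, 3, [0])]⟩,
    ⟨[(0, 2), (1, 2), (2, 3), (2, 4)], [(0, 0), (2, 0), (2, 1), (2, 3), (4, 0), (4, 1), (4,
      3)], [(0, 3)], [5], [(0, 0, [2, 3]), (8, 3, [0])]⟩,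
    ⟨[(2, 5), (4, 5)], [(3, 2), (4, 3), (5, 0), (5, 2), (5, 3)], [(2, 3)], [5], [(7, 2,
      [0]), (8, 3, [0])]⟩]
  Ta := [((0, 1), 0, 4), ((0, 9), 0, 5), ((3, 2), 0, 6), ((3, 4), 0, 1), ((4, 3), 1, 0), ((4, 6),
    1, 7), ((5, 7), 1, 2), ((5, 8), 1, 3)]
  Tb := [((0, 1, 9), 0, 4, 5), ((1, 0, 2), 4, 0, 6), ((2, 1, 3), 6, 4, 0), ((3, 2, 4), 0, 6, 1),
    ((4, 3, 6), 1, 0, 7), ((5, 7, 8), 1, 2, 3), ((6, 4, 7), 7, 1, 2), ((7, 5, 6), 2, 1, 7),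
    ((7, 5, 8), 2, 1, 3), ((7, 5, 9), 2, 1, 5), ((7, 6, 8), 2, 7, 3), ((7, 6, 9), 2, 7, 5),
    ((7, 8, 9), 2, 3, 5), ((8, 5, 7), 3, 1, 2), ((9, 0, 7), 5, 0, 2)]
  Tc := [(0, 2, 3)]
  Td := [((0, 2), (0, 1), 4), ((0, 2), (0, 9), 5), ((0, 2), (3, 2), 6), ((0, 2), (3, 4), 1), ((0,
    3), (0, 1), 4), ((0, 3), (0, 9), 5), ((0, 3), (3, 2), 6), ((0, 3), (3, 4), 1), ((2, 0),
    (7, 5), 1), ((2, 0), (7, 6), 7), ((2, 0), (7, 8), 3), ((2, 0), (7, 9), 5), ((3, 0), (8,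
    5), 1), ((3, 0), (8, 7), 2)]
  G := [[0, 0, 0xe12141e12181a, 0, 0x812e111c22394814223141822791888c11422518126391888c2e], [0,
    0, 0x4182a5141814269181c, 0xd2184d21148252944b1214842925d21985c,
    0x812e1812e19482a18491449412a59841812984144882a1812e19c3e], [0,
    0x141264811e1188ca841e1141e1c241614811e1881cce1, 0xe12141e12181a, 0,
    0x81c123812e194126118126398818c1482a3812e194e1], [0, 0, 0x4182a5141a161c141a,
    0xd21d215812112451288c128121124d4e1, 0x142251812e18819c1441412a5981a18c1412a51812e18ce1]]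

noncomputable def n2795 : Ent := ⟨e2795, noF, [], [], []⟩

def c2795 : PLift (Cov.check n2795.C.D v2795 = true) := ⟨by decide +kernel⟩

def b2795 : PLift (entF (fidx ts) 400 2795 n2795 = true) := ⟨by decide +kernel⟩

theorem g2795 : GoodF (fidx ts) 400 2795 := GoodF.ofV v2795 n2795 c2795.down b2795.down

/-- 4595464:2239 -/
noncomputable def e2796 : SCfg where
  D := {
    a := 7
    L := 11
    kp := 8
    inn := [(0, 1), (0, 2), (1, 0), (1, 2), (2, 0), (2, 1), (2, 3), (2, 4), (2, 5), (3, 2), (4, 2), (4,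
      5), (5, 2), (5, 4), (5, 6), (6, 5)]
    mix := [(0, 0), (0, 1), (1, 1), (1, 2), (1, 3), (2, 0), (2, 3), (2, 4), (2, 5), (3, 4), (3, 5), (3,
      6), (3, 7), (4, 5), (4, 8), (5, 0), (5, 8), (5, 9), (6, 8), (6, 9), (6, 10)]
    cl := [0, 2, 5, 0, 1, 1, 6, 7, 3, 4, 8]
    chq := [(0, 3), (3, 0), (3, 4), (4, 3)]
    rng := [(0, 1), (0, 9), (1, 0), (1, 2), (2, 1), (2, 3), (3, 2), (3, 4), (4, 3), (4, 6), (5, 7), (5,
      8), (6, 4), (6, 7), (7, 5), (7, 6), (8, 5), (8, 10), (9, 0), (9, 10), (10, 8), (10, 9)]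
    lev := [] }
  links := [[1, 2, 7, 8], [2, 0, 8, 9, 10], [7, 0, 1, 10, 11, 3, 12, 4, 5], [12, 2, 11, 13, 14], [5, 2,
    12, 15], [7, 2, 4, 15, 6, 16], [16, 5, 15, 17]]
  P := {
    a := 7
    N := 18
    nb := [390, 1797, 7355, 30724, 36900, 98516, 229408, 65829, 643, 1282, 2566, 9228, 49180, 18440,
      12296, 135280, 131296, 98368]
    tri := [(0, 1, 2), (0, 1, 8), (0, 2, 7), (0, 7, 8), (1, 2, 10), (1, 8, 9), (1, 9, 10), (2, 3, 11),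
      (2, 3, 12), (2, 4, 5), (2, 4, 12), (2, 5, 7), (2, 10, 11), (3, 11, 13), (3, 12, 14), (3, 13,
      14), (4, 5, 15), (4, 12, 15), (5, 6, 15), (5, 6, 16), (5, 7, 16), (6, 15, 17), (6, 16, 17)]
    fin := [0, 0, 0, 3, 0, 0, 6, 0, 8, 9, 0, 3, 3, 13, 14, 6, 16, 17]
    chd := [(0, 6), (6, 16)]
    steps := [(0, 1), (0, 2), (0, 4), (0, 5), (0, 7), (0, 10), (3, 11), (3, 12), (6, 15)] }
  rep := [0, 3, 8, 6, 16, 9, 13, 14, 17]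

noncomputable def v2796 : Cov.CovD where
  P := 3
  N := 6
  pl := [1, 2, 6, 7, 10]
  lev := [⟨[], [], [], [2], [(0, 0, [3])]⟩,
    ⟨[], [(0, 0)], [], [2, 5], [(3, 0, [3])]⟩,
    ⟨[(0, 1)], [(0, 0), (0, 1), (1, 0), (1, 1)], [(0, 0), (0, 1), (1, 1)], [], [(0, 0,
      [3]), (3, 0, [3]), (4, 1, []), (5, 1, [])]⟩,
    ⟨[(0, 2), (1, 2)], [(2, 0), (2, 1)], [(1, 1)], [6, 7], [(4, 1, []), (5, 1, [])]⟩,
    ⟨[(0, 2), (1, 2), (2, 3)], [(2, 0), (2, 1), (2, 3), (3, 1)], [(1, 3)], [], [(5, 1, []),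
      (8, 3, [0, 4])]⟩,
    ⟨[(0, 2), (1, 2), (2, 3), (2, 4)], [(0, 0), (2, 0), (2, 1), (2, 3), (2, 4), (4, 0), (4,
      1), (4, 3), (4, 4)], [(0, 3), (0, 4), (3, 4)], [], [(0, 0, [3]), (8, 3, [0, 4]), (9, 4,
      [3])]⟩,
    ⟨[(2, 5), (4, 5)], [(4, 3), (5, 0), (5, 3), (5, 4)], [(3, 4)], [8], [(8, 3, [0, 4]),
      (9, 4, [3])]⟩]
  Ta := [((0, 1), 0, 2), ((0, 9), 0, 4), ((3, 2), 0, 5), ((3, 4), 0, 1), ((4, 3), 1, 0), ((4, 6),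
    1, 6), ((5, 7), 1, 7), ((5, 8), 1, 3)]
  Tb := [((0, 1, 9), 0, 2, 4), ((1, 0, 2), 2, 0, 5), ((2, 1, 3), 5, 2, 0), ((3, 2, 4), 0, 5, 1),
    ((4, 3, 6), 1, 0, 6), ((5, 7, 8), 1, 7, 3), ((6, 4, 7), 6, 1, 7), ((7, 5, 6), 7, 1, 6),
    ((8, 5, 10), 3, 1, 8), ((9, 0, 10), 4, 0, 8), ((10, 8, 9), 8, 3, 4)]
  Tc := [(3, 0, 4)]
  Td := [((0, 3), (0, 1), 2), ((0, 3), (0, 9), 4), ((0, 3), (3, 2), 5), ((0, 3), (3, 4), 1), ((3,
    0), (8, 5), 1), ((3, 0), (8, 10), 8), ((3, 4), (8, 5), 1), ((3, 4), (8, 10), 8), ((4, 3),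
    (9, 0), 0), ((4, 3), (9, 10), 8)]
  G := [[0, 0, 0x1888a881c488144a88114536115c323153e1d85361153e1185363d9828829cec,
    0x882441542153e1542d93a193a19c1c, 0x536114143e515c323d981882882dc12], [0, 0,
    0x1443655415913e198193a1dc4361541441d8541898193a1913e1dce2,
    0x93a14415361144455361d9819819c1c, 0x4415415361d913e193a1981dc12], [0,
    0x321221951e321951e395c1e6c11a311c7221951e321951e3cac4, 0,
    0x5432344193a318e112b9c536111ed12315ad123d8c142982142d498284c5,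
    0x14593a318e112b11ed123d45423215914d32393a1914d2dca1444889], [0, 0, 0,
    0x1431451898c4189888194c5361134745d3a1138b89c145325811dbe9153e1d8cc,
    0x5361541541d17e598193a1dc1454153e1541d18932988193a1dca2]]

noncomputable def n2796 : Ent := ⟨e2796, noF, [], [], [(9, 17, [6903326391201334775872065844685381424292761054348340378595029941129217, 0]), (13, 17, [6903326391201334775872065844685381424292761054348340378595029941133313, 0]), (14, 17, [6903326391201334775872065844685381424292761054348340378595029941137409, 0])]⟩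

def c2796 : PLift (Cov.check n2796.C.D v2796 = true) := ⟨by decide +kernel⟩

def b2796 : PLift (entF (fidx ts) 400 2796 n2796 = true) := ⟨by decide +kernel⟩

theorem g2796 : GoodF (fidx ts) 400 2796 := GoodF.ofV v2796 n2796 c2796.down b2796.down

/-- 4595466:2240 -/
noncomputable def e2797 : SCfg where
  D := {
    a := 7
    L := 11
    kp := 9
    inn := [(0, 1), (0, 2), (1, 0), (1, 2), (1, 5), (2, 0), (2, 1), (2, 3), (2, 4), (2, 5), (2, 6), (3,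
      2), (3, 6), (4, 2), (5, 1), (5, 2), (5, 6), (6, 2), (6, 3), (6, 5)]
    mix := [(0, 0), (0, 1), (1, 1), (1, 2), (2, 0), (2, 3), (2, 4), (3, 3), (3, 5), (3, 6), (4, 0), (4,
      4), (4, 7), (5, 2), (5, 8), (5, 9), (6, 5), (6, 9), (6, 10)]
    cl := [0, 2, 1, 0, 5, 3, 8, 9, 6, 4, 7]
    chq := [(0, 1), (0, 3), (0, 4), (0, 6), (0, 7), (1, 0), (3, 0), (4, 0), (6, 0), (7, 0)]
    rng := [(0, 1), (0, 7), (1, 0), (1, 2), (2, 1), (2, 8), (3, 4), (3, 6), (4, 3), (4, 7), (5, 6), (5,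
      10), (6, 3), (6, 5), (7, 0), (7, 4), (8, 2), (8, 9), (9, 8), (9, 10), (10, 5), (10, 9)]
    lev := [] }
  links := [[1, 2, 7, 8], [2, 0, 8, 9, 5], [7, 0, 1, 5, 6, 3, 10, 11, 4], [10, 2, 6, 12, 13], [7, 2, 11,
    14], [6, 2, 1, 9, 15, 16], [12, 3, 2, 5, 16, 17]]
  P := {
    a := 7
    N := 18
    nb := [390, 805, 3323, 13380, 18564, 98886, 200748, 16661, 643, 33058, 10252, 17428, 139336, 5128,
      2192, 66080, 163936, 69696]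
    tri := [(0, 1, 2), (0, 1, 8), (0, 2, 7), (0, 7, 8), (1, 2, 5), (1, 5, 9), (1, 8, 9), (2, 3, 6), (2,
      3, 10), (2, 4, 7), (2, 4, 11), (2, 5, 6), (2, 10, 11), (3, 6, 12), (3, 10, 13), (3, 12, 13),
      (4, 7, 14), (4, 11, 14), (5, 6, 16), (5, 9, 15), (5, 15, 16), (6, 12, 17), (6, 16, 17)]
    fin := [0, 0, 0, 0, 0, 0, 0, 0, 8, 9, 0, 11, 12, 13, 14, 15, 16, 17]
    chd := [(0, 9), (0, 12), (0, 15), (0, 16), (0, 17)]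
    steps := [(0, 1), (0, 2), (0, 3), (0, 4), (0, 5), (0, 6), (0, 7), (0, 10)] }
  rep := [0, 9, 8, 12, 16, 11, 15, 17, 13, 14]

noncomputable def v2797 : Cov.CovD where
  P := 3
  N := 7
  pl := [1, 4, 6, 7]
  lev := [⟨[], [], [], [2], [(0, 0, [1, 3, 4, 6, 7])]⟩,
    ⟨[], [(0, 0), (0, 1)], [], [2], [(2, 1, [0])]⟩,
    ⟨[(0, 1)], [(0, 0), (1, 0), (1, 1)], [(0, 0)], [5], [(0, 0, [1, 3, 4, 6, 7]), (3, 0,
      [1, 3, 4, 6, 7])]⟩,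
    ⟨[(0, 2), (1, 2)], [(2, 0), (2, 3)], [(0, 3)], [8], [(3, 0, [1, 3, 4, 6, 7]), (5, 3,
      [0])]⟩,
    ⟨[(0, 2), (1, 2), (2, 3)], [(0, 0), (2, 0)], [], [5, 9], [(0, 0, [1, 3, 4, 6, 7])]⟩,
    ⟨[(0, 1), (0, 2), (1, 2), (2, 3), (2, 4)], [(1, 1), (1, 4), (1, 6), (2, 0), (2, 1), (2,
      4), (2, 6)], [(1, 4), (1, 6), (4, 6)], [], [(2, 1, [0]), (8, 6, [0]), (9, 4, [0])]⟩,
    ⟨[(0, 2), (1, 2), (1, 5), (2, 3), (2, 4), (2, 5), (3, 5)], [(2, 0), (2, 3), (2, 4), (2,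
      7), (3, 0), (3, 3), (3, 4), (3, 7), (5, 1), (5, 3), (5, 4), (5, 6), (5, 7)], [(3, 4),
      (3, 7), (4, 7)], [], [(5, 3, [0]), (9, 4, [0]), (10, 7, [0])]⟩]
  Ta := [((0, 1), 0, 2), ((0, 7), 0, 9), ((3, 4), 0, 5), ((3, 6), 0, 8)]
  Tb := [((0, 1, 7), 0, 2, 9), ((1, 0, 2), 2, 0, 1), ((2, 1, 8), 1, 2, 6), ((3, 4, 6), 0, 5, 8),
    ((4, 3, 7), 5, 0, 9), ((5, 6, 10), 3, 8, 7), ((6, 3, 5), 8, 0, 3), ((7, 0, 4), 9, 0, 5),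
    ((8, 2, 9), 6, 1, 4), ((9, 8, 10), 4, 6, 7), ((10, 5, 9), 7, 3, 4)]
  Tc := [(0, 1, 3), (0, 1, 4), (0, 1, 6), (0, 1, 7), (0, 3, 4), (0, 3, 6), (0, 3, 7), (0, 4, 6),
    (0, 4, 7), (0, 6, 7)]
  Td := [((0, 1), (0, 1), 2), ((0, 1), (0, 7), 9), ((0, 1), (3, 4), 5), ((0, 1), (3, 6), 8), ((0,
    3), (0, 1), 2), ((0, 3), (0, 7), 9), ((0, 3), (3, 4), 5), ((0, 3), (3, 6), 8), ((0, 4),
    (0, 1), 2), ((0, 4), (0, 7), 9), ((0, 4), (3, 4), 5), ((0, 4), (3, 6), 8), ((0, 6), (0,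
    1), 2), ((0, 6), (0, 7), 9), ((0, 6), (3, 4), 5), ((0, 6), (3, 6), 8), ((0, 7), (0, 1),
    2), ((0, 7), (0, 7), 9), ((0, 7), (3, 4), 5), ((0, 7), (3, 6), 8), ((1, 0), (2, 1), 2),
    ((1, 0), (2, 8), 6), ((3, 0), (5, 6), 8), ((3, 0), (5, 10), 7), ((4, 0), (9, 8), 6), ((4,
    0), (9, 10), 7), ((6, 0), (8, 2), 1), ((6, 0), (8, 9), 4), ((7, 0), (10, 5), 3), ((7, 0),
    (10, 9), 4)]
  G := [[0, 0x1161111e1111e1e181121a111e1111e111c1ee14,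
    0x1111c1111a61111a11116ca41111c11116a486,
    0x11111e5d11111114fe11b11111e5b11111e57c6141418181811811111c9eec111118d111e93684c,
    0x112111111e1f118c1c1af281114551122117111111edd11189911313111cfe1111c911c1ce11ed1289a],
    [0, 0x14111616111e111a1111e1e111e1111e1181ee18, 0,
    0x1111511165561171b91111299a199199145b1111fd3111d1ee414111cd1c81c,
    0x11165313512117111111edd1b91313111c7e11dd11111cd9ce1812892]]

noncomputable def n2797 : Ent := ⟨e2797, noF, [], [], []⟩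

def c2797 : PLift (Cov.check n2797.C.D v2797 = true) := ⟨by decide +kernel⟩

def b2797 : PLift (entF (fidx ts) 400 2797 n2797 = true) := ⟨by decide +kernel⟩

theorem g2797 : GoodF (fidx ts) 400 2797 := GoodF.ofV v2797 n2797 c2797.down b2797.down

/-- 4595664:2241 -/
noncomputable def e2798 : SCfg where
  D := {
    a := 7
    L := 11
    kp := 9
    inn := [(0, 1), (0, 2), (1, 0), (1, 2), (1, 4), (2, 0), (2, 1), (2, 3), (2, 4), (2, 5), (3, 2), (3,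
      5), (3, 6), (4, 1), (4, 2), (4, 5), (5, 2), (5, 3), (5, 4), (6, 3)]
    mix := [(0, 0), (0, 1), (1, 1), (1, 2), (2, 0), (2, 3), (2, 4), (2, 5), (3, 3), (3, 6), (4, 2), (4,
      7), (4, 8), (5, 6), (5, 8), (5, 9), (6, 3), (6, 6), (6, 10)]
    cl := [0, 2, 3, 0, 7, 8, 1, 5, 4, 6, 9]
    chq := [(0, 1), (0, 3), (0, 4), (0, 5), (0, 6), (1, 0), (3, 0), (4, 0), (5, 0), (6, 0)]
    rng := [(0, 1), (0, 5), (1, 0), (1, 2), (2, 1), (2, 7), (3, 4), (3, 10), (4, 3), (4, 5), (5, 0),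
      (5, 4), (6, 9), (6, 10), (7, 2), (7, 8), (8, 7), (8, 9), (9, 6), (9, 8), (10, 3), (10, 6)]
    lev := [] }
  links := [[1, 2, 7, 8], [2, 0, 8, 9, 4], [7, 0, 1, 4, 5, 3, 10, 11, 12], [10, 2, 5, 13, 6], [5, 2, 1,
    9, 14, 15], [13, 3, 2, 4, 15, 16], [10, 3, 13, 17]]
  P := {
    a := 7
    N := 18
    nb := [390, 789, 7355, 9316, 49702, 106524, 140296, 4357, 643, 16658, 133196, 5124, 2180, 196712,
      33296, 81968, 40992, 9280]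
    tri := [(0, 1, 2), (0, 1, 8), (0, 2, 7), (0, 7, 8), (1, 2, 4), (1, 4, 9), (1, 8, 9), (2, 3, 5), (2,
      3, 10), (2, 4, 5), (2, 7, 12), (2, 10, 11), (2, 11, 12), (3, 5, 13), (3, 6, 10), (3, 6, 13),
      (4, 5, 15), (4, 9, 14), (4, 14, 15), (5, 13, 16), (5, 15, 16), (6, 10, 17), (6, 13, 17)]
    fin := [0, 0, 0, 0, 0, 0, 0, 0, 8, 9, 0, 11, 12, 13, 14, 15, 16, 17]
    chd := [(0, 9), (0, 13), (0, 14), (0, 15), (0, 16)]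
    steps := [(0, 1), (0, 2), (0, 3), (0, 4), (0, 5), (0, 6), (0, 7), (0, 10)] }
  rep := [0, 13, 8, 9, 15, 14, 16, 11, 12, 17]

noncomputable def v2798 : Cov.CovD where
  P := 3
  N := 7
  pl := [1, 4, 5, 10]
  lev := [⟨[], [], [], [2], [(0, 0, [1, 3, 4, 5, 6])]⟩,
    ⟨[], [(0, 0), (0, 3)], [], [2], [(2, 3, [0])]⟩,
    ⟨[(0, 1)], [(0, 0), (1, 0), (1, 3)], [(0, 0)], [7, 8], [(0, 0, [1, 3, 4, 5, 6]), (3, 0,
      [1, 3, 4, 5, 6])]⟩,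
    ⟨[(0, 2), (1, 2)], [(2, 0), (2, 1)], [(0, 1)], [], [(3, 0, [1, 3, 4, 5, 6]), (6, 1,
      [0])]⟩,
    ⟨[(0, 1), (0, 2), (1, 2), (2, 3)], [(1, 3), (1, 4), (1, 5), (2, 0), (2, 3), (2, 4), (2,
      5)], [(3, 4), (3, 5), (4, 5)], [], [(2, 3, [0]), (7, 5, [0]), (8, 4, [0])]⟩,
    ⟨[(0, 2), (1, 2), (1, 4), (2, 3), (2, 4), (3, 4)], [(2, 0), (2, 1), (2, 4), (2, 6), (3,
      0), (3, 1), (3, 4), (3, 6), (4, 1), (4, 3), (4, 4), (4, 5), (4, 6)], [(1, 4), (1, 6),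
      (4, 6)], [], [(6, 1, [0]), (8, 4, [0]), (9, 6, [0])]⟩,
    ⟨[(2, 3), (3, 5)], [(2, 0), (3, 0), (3, 1), (5, 1)], [(0, 1)], [9], [(3, 0, [1, 3, 4,
      5, 6]), (6, 1, [0])]⟩]
  Ta := [((0, 1), 0, 2), ((0, 5), 0, 8), ((3, 4), 0, 7), ((3, 10), 0, 9)]
  Tb := [((0, 1, 5), 0, 2, 8), ((1, 0, 2), 2, 0, 3), ((2, 1, 7), 3, 2, 5), ((3, 4, 10), 0, 7, 9),
    ((4, 3, 5), 7, 0, 8), ((5, 0, 4), 8, 0, 7), ((6, 9, 10), 1, 6, 9), ((7, 2, 8), 5, 3, 4),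
    ((8, 7, 9), 4, 5, 6), ((9, 6, 8), 6, 1, 4), ((10, 3, 6), 9, 0, 1)]
  Tc := [(0, 1, 3), (0, 1, 4), (0, 1, 5), (0, 1, 6), (0, 3, 4), (0, 3, 5), (0, 3, 6), (0, 4, 5),
    (0, 4, 6), (0, 5, 6)]
  Td := [((0, 1), (0, 1), 2), ((0, 1), (0, 5), 8), ((0, 1), (3, 4), 7), ((0, 1), (3, 10), 9),
    ((0, 3), (0, 1), 2), ((0, 3), (0, 5), 8), ((0, 3), (3, 4), 7), ((0, 3), (3, 10), 9), ((0,
    4), (0, 1), 2), ((0, 4), (0, 5), 8), ((0, 4), (3, 4), 7), ((0, 4), (3, 10), 9), ((0, 5),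
    (0, 1), 2), ((0, 5), (0, 5), 8), ((0, 5), (3, 4), 7), ((0, 5), (3, 10), 9), ((0, 6), (0,
    1), 2), ((0, 6), (0, 5), 8), ((0, 6), (3, 4), 7), ((0, 6), (3, 10), 9), ((1, 0), (6, 9),
    6), ((1, 0), (6, 10), 9), ((3, 0), (2, 1), 2), ((3, 0), (2, 7), 5), ((4, 0), (8, 7), 5),
    ((4, 0), (8, 9), 6), ((5, 0), (7, 2), 3), ((5, 0), (7, 8), 4), ((6, 0), (9, 6), 1), ((6,
    0), (9, 8), 4)]
  G := [[0, 0x6cce18caae1461aace1481c, 0x111411181114e111411181118ec2,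
    0x1151841114119181114e11484d11141118a11111111cf41111a811111111cf4e9c,
    0x1118211113411141118e114411111111cf811111111cf4eb115141118c11189489a], [0,
    0x6a61841aace14a8126aae14e1c, 0,
    0xc1181111cd34611c164c111c1c4f8c91184811c5148cc9141c9181111111c9f8ecd,
    0xc11811cd14611c134c118cc914ec14411c1c11ccf81124eb1c5148c1c8941111c8a9a]]

noncomputable def n2798 : Ent := ⟨e2798, noF, [], [], []⟩

def c2798 : PLift (Cov.check n2798.C.D v2798 = true) := ⟨by decide +kernel⟩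

def b2798 : PLift (entF (fidx ts) 400 2798 n2798 = true) := ⟨by decide +kernel⟩

theorem g2798 : GoodF (fidx ts) 400 2798 := GoodF.ofV v2798 n2798 c2798.down b2798.down

/-- 4595664:2242 -/
noncomputable def e2799 : SCfg where
  D := {
    a := 7
    L := 11
    kp := 9
    inn := [(0, 1), (0, 2), (1, 0), (1, 2), (1, 4), (2, 0), (2, 1), (2, 3), (2, 4), (2, 5), (2, 6), (3,
      2), (3, 5), (4, 1), (4, 2), (4, 5), (5, 2), (5, 3), (5, 4), (6, 2)]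
    mix := [(0, 0), (0, 1), (1, 1), (1, 2), (2, 0), (2, 3), (2, 4), (3, 3), (3, 5), (3, 6), (4, 2), (4,
      7), (4, 8), (5, 5), (5, 8), (5, 9), (6, 3), (6, 4), (6, 10)]
    cl := [0, 2, 3, 0, 5, 1, 8, 6, 4, 7, 9]
    chq := [(0, 1), (0, 3), (0, 4), (0, 6), (0, 7), (1, 0), (3, 0), (4, 0), (6, 0), (7, 0)]
    rng := [(0, 1), (0, 4), (1, 0), (1, 2), (2, 1), (2, 7), (3, 6), (3, 10), (4, 0), (4, 10), (5, 6),
      (5, 9), (6, 3), (6, 5), (7, 2), (7, 8), (8, 7), (8, 9), (9, 5), (9, 8), (10, 3), (10, 4)]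
    lev := [] }
  links := [[1, 2, 7, 8], [2, 0, 8, 9, 4], [7, 0, 1, 4, 5, 3, 10, 6, 11], [10, 2, 5, 12, 13], [5, 2, 1,
    9, 14, 15], [12, 3, 2, 4, 15, 16], [11, 2, 10, 17]]
  P := {
    a := 7
    N := 18
    nb := [390, 789, 3323, 13348, 49702, 102428, 134148, 2309, 643, 16658, 139340, 131268, 73768,
      5128, 33296, 81968, 36896, 3136]
    tri := [(0, 1, 2), (0, 1, 8), (0, 2, 7), (0, 7, 8), (1, 2, 4), (1, 4, 9), (1, 8, 9), (2, 3, 5), (2,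
      3, 10), (2, 4, 5), (2, 6, 10), (2, 6, 11), (2, 7, 11), (3, 5, 12), (3, 10, 13), (3, 12, 13),
      (4, 5, 15), (4, 9, 14), (4, 14, 15), (5, 12, 16), (5, 15, 16), (6, 10, 17), (6, 11, 17)]
    fin := [0, 0, 0, 0, 0, 0, 0, 0, 8, 9, 0, 11, 12, 13, 14, 15, 16, 17]
    chd := [(0, 9), (0, 12), (0, 14), (0, 15), (0, 16)]
    steps := [(0, 1), (0, 2), (0, 3), (0, 4), (0, 5), (0, 6), (0, 7), (0, 10)] }
  rep := [0, 12, 8, 9, 15, 11, 14, 16, 13, 17]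

noncomputable def v2799 : Cov.CovD where
  P := 3
  N := 7
  pl := [1, 4, 6, 10]
  lev := [⟨[], [], [], [2], [(0, 0, [1, 3, 4, 6, 7])]⟩,
    ⟨[], [(0, 0), (0, 3)], [], [2], [(2, 3, [0])]⟩,
    ⟨[(0, 1)], [(0, 0), (1, 0), (1, 3)], [(0, 0)], [5], [(0, 0, [1, 3, 4, 6, 7]), (3, 0,
      [1, 3, 4, 6, 7])]⟩,
    ⟨[(0, 2), (1, 2)], [(2, 0), (2, 1)], [(0, 1)], [8], [(3, 0, [1, 3, 4, 6, 7]), (5, 1,
      [0])]⟩,
    ⟨[(0, 1), (0, 2), (1, 2), (2, 3)], [(1, 3), (1, 4), (1, 6), (2, 0), (2, 3), (2, 4), (2,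
      6)], [(3, 4), (3, 6), (4, 6)], [], [(2, 3, [0]), (7, 6, [0]), (8, 4, [0])]⟩,
    ⟨[(0, 2), (1, 2), (1, 4), (2, 3), (2, 4), (3, 4)], [(2, 0), (2, 1), (2, 4), (2, 7), (3,
      0), (3, 1), (3, 4), (3, 7), (4, 1), (4, 3), (4, 4), (4, 6), (4, 7)], [(1, 4), (1, 7),
      (4, 7)], [], [(5, 1, [0]), (8, 4, [0]), (9, 7, [0])]⟩,
    ⟨[(0, 2), (1, 2), (2, 3), (2, 4), (2, 5)], [(2, 0), (3, 0)], [], [5, 9], [(3, 0, [1, 3,
      4, 6, 7])]⟩]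
  Ta := [((0, 1), 0, 2), ((0, 4), 0, 5), ((3, 6), 0, 8), ((3, 10), 0, 9)]
  Tb := [((0, 1, 4), 0, 2, 5), ((1, 0, 2), 2, 0, 3), ((2, 1, 7), 3, 2, 6), ((3, 6, 10), 0, 8, 9),
    ((4, 0, 10), 5, 0, 9), ((5, 6, 9), 1, 8, 7), ((6, 3, 5), 8, 0, 1), ((7, 2, 8), 6, 3, 4),
    ((8, 7, 9), 4, 6, 7), ((9, 5, 8), 7, 1, 4), ((10, 3, 4), 9, 0, 5)]
  Tc := [(0, 1, 3), (0, 1, 4), (0, 1, 6), (0, 1, 7), (0, 3, 4), (0, 3, 6), (0, 3, 7), (0, 4, 6),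
    (0, 4, 7), (0, 6, 7)]
  Td := [((0, 1), (0, 1), 2), ((0, 1), (0, 4), 5), ((0, 1), (3, 6), 8), ((0, 1), (3, 10), 9),
    ((0, 3), (0, 1), 2), ((0, 3), (0, 4), 5), ((0, 3), (3, 6), 8), ((0, 3), (3, 10), 9), ((0,
    4), (0, 1), 2), ((0, 4), (0, 4), 5), ((0, 4), (3, 6), 8), ((0, 4), (3, 10), 9), ((0, 6),
    (0, 1), 2), ((0, 6), (0, 4), 5), ((0, 6), (3, 6), 8), ((0, 6), (3, 10), 9), ((0, 7), (0,
    1), 2), ((0, 7), (0, 4), 5), ((0, 7), (3, 6), 8), ((0, 7), (3, 10), 9), ((1, 0), (5, 6),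
    8), ((1, 0), (5, 9), 7), ((3, 0), (2, 1), 2), ((3, 0), (2, 7), 6), ((4, 0), (8, 7), 6),
    ((4, 0), (8, 9), 7), ((6, 0), (7, 2), 3), ((6, 0), (7, 8), 4), ((7, 0), (9, 5), 1), ((7,
    0), (9, 8), 4)]
  G := [[0, 0x11614181111e16111e1181ce18, 0x11141118c111111c211181114ce2,
    0x1b51b11c111111c687111c91c111111ca1111611111114fc111898111111e111111eeec1de5c,
    0x111111e111111ee6c1d213114111c99911c1118e711a11c1191111cc1111611111118fc41d8ba], [0,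
    0x11612111e1181c181111e1ce18, 0,
    0x11e1c1cb1111ac4114514c11811c11111a5b11111e5bce111141711111c97c8118611e95111695cec9,
    0x111455411111c5d11819c81d111111add111111eddce11112171111ed3c1111ed311213c1891114d1cea1]]

noncomputable def n2799 : Ent := ⟨e2799, noF, [], [], []⟩

def c2799 : PLift (Cov.check n2799.C.D v2799 = true) := ⟨by decide +kernel⟩

def b2799 : PLift (entF (fidx ts) 400 2799 n2799 = true) := ⟨by decide +kernel⟩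

theorem g2799 : GoodF (fidx ts) 400 2799 := GoodF.ofV v2799 n2799 c2799.down b2799.down

/-- 4595464:2243/1 -/
noncomputable def e2800 : SCfg where
  D := {
    a := 7
    L := 10
    kp := 7
    inn := [(0, 1), (0, 2), (1, 0), (1, 2), (2, 0), (2, 1), (2, 3), (2, 4), (2, 5), (3, 2), (4, 2), (4,
      5), (5, 2), (5, 4), (5, 6), (6, 5)]
    mix := [(0, 0), (0, 1), (1, 1), (1, 2), (1, 3), (2, 0), (2, 3), (2, 4), (2, 5), (3, 4), (3, 5), (3,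
      6), (3, 7), (4, 0), (4, 8), (5, 5), (5, 8), (5, 9), (6, 1), (6, 8), (6, 9)]
    cl := [0, 2, 5, 0, 1, 1, 6, 7, 3, 4]
    chq := [(0, 4), (3, 4), (4, 0), (4, 3)]
    rng := [(0, 1), (0, 8), (1, 0), (1, 2), (1, 8), (1, 9), (2, 1), (2, 3), (3, 2), (3, 4), (4, 3), (4,
      6), (5, 7), (5, 9), (6, 4), (6, 7), (7, 5), (7, 6), (8, 0), (8, 1), (9, 1), (9, 5)]
    lev := [] }
  links := [[1, 2, 7, 8], [2, 0, 8, 9, 10], [7, 0, 1, 10, 11, 3, 12, 5, 4], [12, 2, 11, 13, 14], [7, 2,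
    5, 15], [15, 4, 2, 12, 16, 6], [15, 5, 16, 8]]
  P := {
    a := 7
    N := 17
    nb := [390, 1797, 7355, 30724, 32932, 102484, 98592, 33045, 99011, 1282, 2566, 9228, 81964, 18440,
      12296, 496, 4448]
    tri := [(0, 1, 2), (0, 1, 8), (0, 2, 7), (0, 7, 8), (1, 2, 10), (1, 8, 9), (1, 9, 10), (2, 3, 11),
      (2, 3, 12), (2, 4, 5), (2, 4, 7), (2, 5, 12), (2, 10, 11), (3, 11, 13), (3, 12, 14), (3, 13,
      14), (4, 5, 15), (4, 7, 15), (5, 6, 15), (5, 6, 16), (5, 12, 16), (6, 8, 15), (6, 8, 16)]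
    fin := [0, 0, 0, 3, 0, 0, 6, 0, 8, 9, 0, 3, 3, 13, 14, 15, 6]
    chd := [(0, 6), (15, 6)]
    steps := [(0, 1), (0, 2), (0, 4), (0, 5), (0, 7), (0, 10), (3, 11), (3, 12), (6, 16)] }
  rep := [0, 3, 8, 15, 6, 9, 13, 14]

noncomputable def v2800 : Cov.CovD where
  P := 3
  N := 5
  pl := [1, 2, 6, 7]
  lev := [⟨[], [], [], [2], [(0, 0, [4])]⟩,
    ⟨[], [(0, 0)], [], [2, 5], [(3, 0, [4])]⟩,
    ⟨[(0, 1)], [(0, 0), (0, 1), (1, 0), (1, 1)], [(0, 0), (0, 1), (1, 1)], [], [(0, 0,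
      [4]), (3, 0, [4]), (4, 1, []), (5, 1, [])]⟩,
    ⟨[(0, 2), (1, 2)], [(2, 0), (2, 1)], [(1, 1)], [6, 7], [(4, 1, []), (5, 1, [])]⟩,
    ⟨[(0, 2), (1, 2), (2, 3)], [(0, 0), (2, 0), (2, 1), (2, 3)], [(0, 3)], [], [(0, 0,
      [4]), (8, 3, [4])]⟩,
    ⟨[(0, 2), (1, 2), (2, 3), (2, 4)], [(2, 0), (2, 1), (2, 3), (2, 4), (3, 1), (4, 0), (4,
      1), (4, 3), (4, 4)], [(1, 3), (1, 4), (3, 4)], [], [(5, 1, []), (8, 3, [4]), (9, 4, [0,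
      3])]⟩,
    ⟨[(2, 5), (4, 5)], [(4, 3), (5, 1), (5, 3), (5, 4)], [(3, 4)], [2], [(8, 3, [4]), (9,
      4, [0, 3])]⟩]
  Ta := [((0, 1), 0, 2), ((0, 8), 0, 3), ((3, 2), 0, 5), ((3, 4), 0, 1), ((4, 3), 1, 0), ((4, 6),
    1, 6), ((5, 7), 1, 7), ((5, 9), 1, 4)]
  Tb := [((0, 1, 8), 0, 2, 3), ((1, 0, 2), 2, 0, 5), ((1, 0, 8), 2, 0, 3), ((1, 0, 9), 2, 0, 4),
    ((1, 2, 8), 2, 5, 3), ((1, 2, 9), 2, 5, 4), ((1, 8, 9), 2, 3, 4), ((2, 1, 3), 5, 2, 0),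
    ((3, 2, 4), 0, 5, 1), ((4, 3, 6), 1, 0, 6), ((5, 7, 9), 1, 7, 4), ((6, 4, 7), 6, 1, 7),
    ((7, 5, 6), 7, 1, 6), ((8, 0, 1), 3, 0, 2), ((9, 1, 5), 4, 2, 1)]
  Tc := [(4, 0, 3)]
  Td := [((0, 4), (0, 1), 2), ((0, 4), (0, 8), 3), ((0, 4), (3, 2), 5), ((0, 4), (3, 4), 1), ((3,
    4), (8, 0), 0), ((3, 4), (8, 1), 2), ((4, 0), (9, 1), 2), ((4, 0), (9, 5), 1), ((4, 3),
    (9, 1), 2), ((4, 3), (9, 5), 1)]
  G := [[0, 0, 0xc121ac121ac1216d4c1216c1216c1216d8c2, 0x89352cc9351a12841bcd418,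
    0x225231c2256893225cd81948c12], [0, 0, 0xa161cc161ac1a16d4c1a166145c161aa189cc8,
    0x185415651415658194882882dc14952881c, 0x3154a15216581923568292882dc18], [0,
    0x116118326111e1181c14eac11836141e1111e1e8c4, 0,
    0x511259112991125d4511255112554111a98cc8, 0x91216912165811e18c111e1111e15912168ca2], [0,
    0, 0, 0x9151c9151a11951cd4519165191651916d8c1, 0x1181c39131a9131cd49131c9131a1181c3d4a8]]

noncomputable def n2800 : Ent := ⟨e2800, noF, [], [], []⟩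

def c2800 : PLift (Cov.check n2800.C.D v2800 = true) := ⟨by decide +kernel⟩

def b2800 : PLift (entF (fidx ts) 400 2800 n2800 = true) := ⟨by decide +kernel⟩

theorem g2800 : GoodF (fidx ts) 400 2800 := GoodF.ofV v2800 n2800 c2800.down b2800.down

/-- 4595464:2243/2 -/
noncomputable def e2801 : SCfg where
  D := {
    a := 7
    L := 10
    kp := 7
    inn := [(0, 1), (0, 2), (1, 0), (1, 2), (2, 0), (2, 1), (2, 3), (2, 4), (2, 5), (3, 2), (4, 2), (4,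
      5), (5, 2), (5, 4), (5, 6), (6, 5)]
    mix := [(0, 0), (0, 1), (1, 1), (1, 2), (1, 3), (2, 0), (2, 3), (2, 4), (2, 5), (3, 4), (3, 5), (3,
      6), (3, 7), (4, 0), (4, 8), (5, 5), (5, 8), (5, 9), (6, 2), (6, 8), (6, 9)]
    cl := [0, 2, 5, 0, 1, 1, 6, 7, 3, 4]
    chq := [(0, 4), (3, 4), (4, 0), (4, 3)]
    rng := [(0, 1), (0, 8), (1, 0), (1, 2), (2, 1), (2, 3), (2, 8), (2, 9), (3, 2), (3, 4), (4, 3), (4,
      6), (5, 7), (5, 9), (6, 4), (6, 7), (7, 5), (7, 6), (8, 0), (8, 2), (9, 2), (9, 5)]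
    lev := [] }
  links := [[1, 2, 7, 8], [2, 0, 8, 9, 10], [7, 0, 1, 10, 11, 3, 12, 5, 4], [12, 2, 11, 13, 14], [7, 2,
    5, 15], [15, 4, 2, 12, 16, 6], [15, 5, 16, 9]]
  P := {
    a := 7
    N := 17
    nb := [390, 1797, 7355, 30724, 32932, 102484, 98848, 33045, 643, 99650, 2566, 9228, 81964, 18440,
      12296, 752, 4704]
    tri := [(0, 1, 2), (0, 1, 8), (0, 2, 7), (0, 7, 8), (1, 2, 10), (1, 8, 9), (1, 9, 10), (2, 3, 11),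
      (2, 3, 12), (2, 4, 5), (2, 4, 7), (2, 5, 12), (2, 10, 11), (3, 11, 13), (3, 12, 14), (3, 13,
      14), (4, 5, 15), (4, 7, 15), (5, 6, 15), (5, 6, 16), (5, 12, 16), (6, 9, 15), (6, 9, 16)]
    fin := [0, 0, 0, 3, 0, 0, 6, 0, 8, 9, 0, 3, 3, 13, 14, 15, 6]
    chd := [(0, 6), (15, 6)]
    steps := [(0, 1), (0, 2), (0, 4), (0, 5), (0, 7), (0, 10), (3, 11), (3, 12), (6, 16)] }
  rep := [0, 3, 8, 15, 6, 9, 13, 14]

noncomputable def v2801 : Cov.CovD where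
  P := 3
  N := 5
  pl := [1, 2, 6, 7]
  lev := [⟨[], [], [], [2], [(0, 0, [4])]⟩,
    ⟨[], [(0, 0)], [], [2, 5], [(3, 0, [4])]⟩,
    ⟨[(0, 1)], [(0, 0), (0, 1), (1, 0), (1, 1)], [(0, 0), (0, 1), (1, 1)], [], [(0, 0,
      [4]), (3, 0, [4]), (4, 1, []), (5, 1, [])]⟩,
    ⟨[(0, 2), (1, 2)], [(2, 0), (2, 1)], [(1, 1)], [6, 7], [(4, 1, []), (5, 1, [])]⟩,
    ⟨[(0, 2), (1, 2), (2, 3)], [(0, 0), (2, 0), (2, 1), (2, 3)], [(0, 3)], [], [(0, 0,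
      [4]), (8, 3, [4])]⟩,
    ⟨[(0, 2), (1, 2), (2, 3), (2, 4)], [(2, 0), (2, 1), (2, 3), (2, 4), (3, 1), (4, 0), (4,
      1), (4, 3), (4, 4)], [(1, 3), (1, 4), (3, 4)], [], [(5, 1, []), (8, 3, [4]), (9, 4, [0,
      3])]⟩,
    ⟨[(2, 5), (4, 5)], [(4, 3), (5, 1), (5, 3), (5, 4)], [(3, 4)], [5], [(8, 3, [4]), (9,
      4, [0, 3])]⟩]
  Ta := [((0, 1), 0, 2), ((0, 8), 0, 3), ((3, 2), 0, 5), ((3, 4), 0, 1), ((4, 3), 1, 0), ((4, 6),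
    1, 6), ((5, 7), 1, 7), ((5, 9), 1, 4)]
  Tb := [((0, 1, 8), 0, 2, 3), ((1, 0, 2), 2, 0, 5), ((2, 1, 3), 5, 2, 0), ((2, 1, 8), 5, 2, 3),
    ((2, 1, 9), 5, 2, 4), ((2, 3, 8), 5, 0, 3), ((2, 3, 9), 5, 0, 4), ((2, 8, 9), 5, 3, 4),
    ((3, 2, 4), 0, 5, 1), ((4, 3, 6), 1, 0, 6), ((5, 7, 9), 1, 7, 4), ((6, 4, 7), 6, 1, 7),
    ((7, 5, 6), 7, 1, 6), ((8, 0, 2), 3, 0, 5), ((9, 2, 5), 4, 5, 1)]
  Tc := [(4, 0, 3)]
  Td := [((0, 4), (0, 1), 2), ((0, 4), (0, 8), 3), ((0, 4), (3, 2), 5), ((0, 4), (3, 4), 1), ((3,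
    4), (8, 0), 0), ((3, 4), (8, 2), 5), ((4, 0), (9, 2), 5), ((4, 0), (9, 5), 1), ((4, 3),
    (9, 2), 5), ((4, 3), (9, 5), 1)]
  G := [[0, 0, 0x11441181189c114112114d8212118212d8e4, 0x3c17116d2231dc1223c1fcd3828c14,
    0x315422de4c2da8f1838c13215edc12], [0, 0, 0x118112112d411841121189c114114114d8e2,
    0x882448315446315241d6648da19291a79a9c1c, 0x64211c6156315446d119a19ca8211a8adc12], [0,
    0x12121481a5811e111c1ea111e1184121e1292144de2c4, 0,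
    0x811e19121a811e1d4512165121655121a8cc8, 0xc1125c11294181a5d4512165121a2111c3d4a8], [0,
    0, 0, 0x9131c9131a9171cd4513165131611c316d8c1, 0x9151cc151a9151ad4513165131651316d8a1]]

noncomputable def n2801 : Ent := ⟨e2801, noF, [], [], []⟩

def c2801 : PLift (Cov.check n2801.C.D v2801 = true) := ⟨by decide +kernel⟩

def b2801 : PLift (entF (fidx ts) 400 2801 n2801 = true) := ⟨by decide +kernel⟩

theorem g2801 : GoodF (fidx ts) 400 2801 := GoodF.ofV v2801 n2801 c2801.down b2801.down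

/-- 4595464:2243 -/
noncomputable def e2802 : SCfg where
  D := {
    a := 7
    L := 11
    kp := 8
    inn := [(0, 1), (0, 2), (1, 0), (1, 2), (2, 0), (2, 1), (2, 3), (2, 4), (2, 5), (3, 2), (4, 2), (4,
      5), (5, 2), (5, 4), (5, 6), (6, 5)]
    mix := [(0, 0), (0, 1), (1, 1), (1, 2), (1, 3), (2, 0), (2, 3), (2, 4), (2, 5), (3, 4), (3, 5), (3,
      6), (3, 7), (4, 0), (4, 8), (5, 5), (5, 8), (5, 9), (6, 8), (6, 9), (6, 10)]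
    cl := [0, 2, 5, 0, 1, 1, 6, 7, 3, 4, 8]
    chq := [(0, 4), (3, 4), (4, 0), (4, 3)]
    rng := [(0, 1), (0, 8), (1, 0), (1, 2), (2, 1), (2, 3), (3, 2), (3, 4), (4, 3), (4, 6), (5, 7), (5,
      9), (6, 4), (6, 7), (7, 5), (7, 6), (8, 0), (8, 10), (9, 5), (9, 10), (10, 8), (10, 9)]
    lev := [] }
  links := [[1, 2, 7, 8], [2, 0, 8, 9, 10], [7, 0, 1, 10, 11, 3, 12, 5, 4], [12, 2, 11, 13, 14], [7, 2,
    5, 15], [15, 4, 2, 12, 16, 6], [15, 5, 16, 17]]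
  P := {
    a := 7
    N := 18
    nb := [390, 1797, 7355, 30724, 32932, 102484, 229408, 33045, 643, 1282, 2566, 9228, 81964, 18440,
      12296, 131312, 135264, 98368]
    tri := [(0, 1, 2), (0, 1, 8), (0, 2, 7), (0, 7, 8), (1, 2, 10), (1, 8, 9), (1, 9, 10), (2, 3, 11),
      (2, 3, 12), (2, 4, 5), (2, 4, 7), (2, 5, 12), (2, 10, 11), (3, 11, 13), (3, 12, 14), (3, 13,
      14), (4, 5, 15), (4, 7, 15), (5, 6, 15), (5, 6, 16), (5, 12, 16), (6, 15, 17), (6, 16, 17)]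
    fin := [0, 0, 0, 3, 0, 0, 6, 0, 8, 9, 0, 3, 3, 13, 14, 15, 6, 17]
    chd := [(0, 6), (15, 6)]
    steps := [(0, 1), (0, 2), (0, 4), (0, 5), (0, 7), (0, 10), (3, 11), (3, 12), (6, 16)] }
  rep := [0, 3, 8, 15, 6, 9, 13, 14, 17]

noncomputable def v2802 : Cov.CovD where
  P := 3
  N := 6
  pl := [1, 2, 6, 7, 10]
  lev := [⟨[], [], [], [2], [(0, 0, [4])]⟩,
    ⟨[], [(0, 0)], [], [2, 5], [(3, 0, [4])]⟩,
    ⟨[(0, 1)], [(0, 0), (0, 1), (1, 0), (1, 1)], [(0, 0), (0, 1), (1, 1)], [], [(0, 0,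
      [4]), (3, 0, [4]), (4, 1, []), (5, 1, [])]⟩,
    ⟨[(0, 2), (1, 2)], [(2, 0), (2, 1)], [(1, 1)], [6, 7], [(4, 1, []), (5, 1, [])]⟩,
    ⟨[(0, 2), (1, 2), (2, 3)], [(0, 0), (2, 0), (2, 1), (2, 3)], [(0, 3)], [], [(0, 0,
      [4]), (8, 3, [4])]⟩,
    ⟨[(0, 2), (1, 2), (2, 3), (2, 4)], [(2, 0), (2, 1), (2, 3), (2, 4), (3, 1), (4, 0), (4,
      1), (4, 3), (4, 4)], [(1, 3), (1, 4), (3, 4)], [], [(5, 1, []), (8, 3, [4]), (9, 4, [0,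
      3])]⟩,
    ⟨[(2, 5), (4, 5)], [(4, 3), (5, 1), (5, 3), (5, 4)], [(3, 4)], [8], [(8, 3, [4]), (9,
      4, [0, 3])]⟩]
  Ta := [((0, 1), 0, 2), ((0, 8), 0, 3), ((3, 2), 0, 5), ((3, 4), 0, 1), ((4, 3), 1, 0), ((4, 6),
    1, 6), ((5, 7), 1, 7), ((5, 9), 1, 4)]
  Tb := [((0, 1, 8), 0, 2, 3), ((1, 0, 2), 2, 0, 5), ((2, 1, 3), 5, 2, 0), ((3, 2, 4), 0, 5, 1),
    ((4, 3, 6), 1, 0, 6), ((5, 7, 9), 1, 7, 4), ((6, 4, 7), 6, 1, 7), ((7, 5, 6), 7, 1, 6),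
    ((8, 0, 10), 3, 0, 8), ((9, 5, 10), 4, 1, 8), ((10, 8, 9), 8, 3, 4)]
  Tc := [(4, 0, 3)]
  Td := [((0, 4), (0, 1), 2), ((0, 4), (0, 8), 3), ((0, 4), (3, 2), 5), ((0, 4), (3, 4), 1), ((3,
    4), (8, 0), 0), ((3, 4), (8, 10), 8), ((4, 0), (9, 5), 1), ((4, 0), (9, 10), 8), ((4, 3),
    (9, 5), 1), ((4, 3), (9, 10), 8)]
  G := [[0, 0, 0xd1316d131631f1cd8d131ad131ad1316d462, 0x6424a45b2b562d9839ad152a22dedc18,
    0x2d52166897279a12322cffcd2da88c12], [0, 0, 0xd1b164d171ad171a9cd1b16d171ab171cd8a4,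
    0x6424425d1a23dad1a39ad1a23dadc1442881c, 0x4426958642dd1a23d6a792d1a396dc12], [0,
    0x32121452191a721951e395c1ea1c51a368114513ad81153e9e1888ac4, 0,
    0xd171ad171ad1b16d4d1b16b171cd1b16d8c1, 0x815131ed12112bf1123cd4d12112bd12112bd171ad4a8],
    [0, 0, 0, 0xb171cd171ad1b16d4d1b16d1b165d171a8cc8,
    0xd171ad171ab171cd4d1b16d1b16d1b16d8a2]]

noncomputable def n2802 : Ent := ⟨e2802, noF, [], [], [(8, 17, [6903326391201334775872065844685381424292761054348340378595029941157889, 0]), (9, 17, [6903326391201334775872065844685381424292761054348340378595029941161985, 0])]⟩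

def c2802 : PLift (Cov.check n2802.C.D v2802 = true) := ⟨by decide +kernel⟩

def b2802 : PLift (entF (fidx ts) 400 2802 n2802 = true) := ⟨by decide +kernel⟩

theorem g2802 : GoodF (fidx ts) 400 2802 := GoodF.ofV v2802 n2802 c2802.down b2802.down

/-- 4594645:2244/1 -/
noncomputable def e2803 : SCfg where
  D := {
    a := 7
    L := 10
    kp := 7
    inn := [(0, 1), (0, 2), (1, 0), (1, 2), (2, 0), (2, 1), (2, 3), (2, 4), (2, 6), (3, 2), (3, 6), (4,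
      2), (4, 5), (5, 4), (6, 2), (6, 3)]
    mix := [(0, 0), (0, 1), (1, 1), (1, 2), (1, 3), (2, 0), (2, 3), (2, 4), (2, 5), (3, 4), (3, 6), (4,
      3), (4, 4), (4, 7), (4, 8), (5, 2), (5, 3), (5, 7), (6, 5), (6, 6), (6, 9)]
    cl := [0, 2, 3, 0, 0, 1, 4, 5, 6, 7]
    chq := [(1, 4), (3, 6), (4, 1), (6, 3)]
    rng := [(0, 1), (0, 5), (1, 0), (1, 2), (2, 1), (2, 3), (2, 7), (3, 2), (4, 6), (4, 8), (5, 0), (5,
      9), (6, 4), (6, 9), (7, 2), (7, 8), (8, 4), (8, 7), (9, 5), (9, 6)]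
    lev := [] }
  links := [[1, 2, 7, 8], [2, 0, 8, 9, 10], [7, 0, 1, 10, 4, 11, 3, 6, 12], [6, 2, 11, 13], [11, 2, 10,
    5, 14, 15], [14, 4, 10, 9], [12, 2, 3, 13, 16]]
  P := {
    a := 7
    N := 17
    nb := [390, 1797, 7387, 10308, 52260, 17936, 77836, 4357, 643, 17698, 566, 40988, 65732, 67656,
      33328, 18448, 12352]
    tri := [(0, 1, 2), (0, 1, 8), (0, 2, 7), (0, 7, 8), (1, 2, 10), (1, 8, 9), (1, 9, 10), (2, 3, 6),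
      (2, 3, 11), (2, 4, 10), (2, 4, 11), (2, 6, 12), (2, 7, 12), (3, 6, 13), (3, 11, 13), (4, 5,
      10), (4, 5, 14), (4, 11, 15), (4, 14, 15), (5, 9, 10), (5, 9, 14), (6, 12, 16), (6, 13, 16)]
    fin := [0, 0, 0, 0, 4, 4, 6, 0, 8, 4, 0, 0, 12, 6, 14, 15, 16]
    chd := [(4, 15), (12, 6)]
    steps := [(0, 1), (0, 2), (0, 3), (0, 7), (0, 10), (0, 11), (4, 5), (4, 9), (6, 13)] }
  rep := [0, 12, 8, 4, 6, 14, 15, 16]

noncomputable def v2803 : Cov.CovD where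
  P := 3
  N := 5
  pl := [1, 7, 9]
  lev := [⟨[], [], [], [2], [(0, 0, [])]⟩,
    ⟨[], [(0, 0), (0, 3)], [(0, 3)], [2], [(2, 3, [6]), (3, 0, [])]⟩,
    ⟨[(0, 1)], [(0, 0), (0, 1), (1, 0), (1, 1), (1, 3)], [(0, 0), (0, 1)], [], [(0, 0, []),
      (3, 0, []), (4, 0, []), (5, 1, [4])]⟩,
    ⟨[(0, 2), (1, 2)], [(2, 0), (2, 1), (2, 4)], [(0, 4)], [], [(4, 0, []), (6, 4, [1])]⟩,
    ⟨[(0, 2), (1, 2), (2, 3)], [(1, 0), (2, 0), (2, 1), (2, 6), (3, 0)], [(0, 0), (0, 6)],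
      [5], [(3, 0, []), (4, 0, []), (8, 6, [3])]⟩,
    ⟨[(2, 4)], [(1, 0), (1, 3), (2, 0), (4, 0), (4, 3), (4, 6)], [(0, 3)], [5], [(2, 3,
      [6]), (3, 0, [])]⟩,
    ⟨[(0, 2), (1, 2), (2, 3), (2, 4)], [(2, 0), (2, 1), (2, 4), (3, 0), (3, 1), (3, 4)],
      [(1, 4)], [7], [(5, 1, [4]), (6, 4, [1])]⟩]
  Ta := [((0, 1), 0, 2), ((0, 5), 0, 1), ((3, 2), 0, 3), ((4, 6), 0, 4), ((4, 8), 0, 6)]
  Tb := [((0, 1, 5), 0, 2, 1), ((1, 0, 2), 2, 0, 3), ((2, 1, 3), 3, 2, 0), ((2, 1, 7), 3, 2, 5),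
    ((2, 3, 7), 3, 0, 5), ((4, 6, 8), 0, 4, 6), ((5, 0, 9), 1, 0, 7), ((6, 4, 9), 4, 0, 7),
    ((7, 2, 8), 5, 3, 6), ((8, 4, 7), 6, 0, 5), ((9, 5, 6), 7, 1, 4)]
  Tc := []
  Td := [((1, 4), (5, 0), 0), ((1, 4), (5, 9), 7), ((3, 6), (2, 1), 2), ((3, 6), (2, 3), 0), ((3,
    6), (2, 7), 5), ((4, 1), (6, 4), 0), ((4, 1), (6, 9), 7), ((6, 3), (8, 4), 0), ((6, 3),
    (8, 7), 5)]
  G := [[0, 0x442666eeaeace588688c14, 0xd898d1e24444284144d192d2e2ce8, 0x44a44dd699addce2c18,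
    0x516ddaddce28c681c12], [0, 0, 0, 0x44a44d899ad2e2c556d4ddce288682cc1,
    0x4844d898ddce2c52d2d2e2d8682ca1], [0, 0, 0, 0x556ddaddce288688c14,
    0x556ddaddce288682c12]]

noncomputable def n2803 : Ent := ⟨e2803, noF, [], [], []⟩

def c2803 : PLift (Cov.check n2803.C.D v2803 = true) := ⟨by decide +kernel⟩

def b2803 : PLift (entF (fidx ts) 400 2803 n2803 = true) := ⟨by decide +kernel⟩

theorem g2803 : GoodF (fidx ts) 400 2803 := GoodF.ofV v2803 n2803 c2803.down b2803.down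

/-- 4594645:2244 -/
noncomputable def e2804 : SCfg where
  D := {
    a := 7
    L := 11
    kp := 8
    inn := [(0, 1), (0, 2), (1, 0), (1, 2), (2, 0), (2, 1), (2, 3), (2, 4), (2, 6), (3, 2), (3, 6), (4,
      2), (4, 5), (5, 4), (6, 2), (6, 3)]
    mix := [(0, 0), (0, 1), (1, 1), (1, 2), (1, 3), (2, 0), (2, 3), (2, 4), (2, 5), (3, 4), (3, 6), (4,
      3), (4, 4), (4, 7), (4, 8), (5, 3), (5, 7), (5, 9), (6, 5), (6, 6), (6, 10)]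
    cl := [0, 2, 7, 0, 0, 1, 3, 4, 5, 6, 8]
    chq := [(1, 3), (3, 1), (5, 6), (6, 5)]
    rng := [(0, 1), (0, 5), (1, 0), (1, 2), (2, 1), (2, 3), (3, 2), (3, 9), (4, 6), (4, 8), (5, 0), (5,
      10), (6, 4), (6, 10), (7, 8), (7, 9), (8, 4), (8, 7), (9, 3), (9, 7), (10, 5), (10, 6)]
    lev := [] }
  links := [[1, 2, 7, 8], [2, 0, 8, 9, 10], [7, 0, 1, 10, 4, 11, 3, 6, 12], [6, 2, 11, 13], [11, 2, 10,
    5, 14, 15], [14, 4, 10, 16], [12, 2, 3, 13, 17]]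
  P := {
    a := 7
    N := 18
    nb := [390, 1797, 7387, 10308, 52260, 82960, 143372, 4357, 643, 1282, 66102, 40988, 131268,
      133192, 98352, 18448, 17440, 12352]
    tri := [(0, 1, 2), (0, 1, 8), (0, 2, 7), (0, 7, 8), (1, 2, 10), (1, 8, 9), (1, 9, 10), (2, 3, 6),
      (2, 3, 11), (2, 4, 10), (2, 4, 11), (2, 6, 12), (2, 7, 12), (3, 6, 13), (3, 11, 13), (4, 5,
      10), (4, 5, 14), (4, 11, 15), (4, 14, 15), (5, 10, 16), (5, 14, 16), (6, 12, 17), (6, 13,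
      17)]
    fin := [0, 0, 0, 0, 4, 4, 6, 0, 8, 9, 0, 0, 12, 6, 14, 15, 4, 17]
    chd := [(12, 6), (15, 4)]
    steps := [(0, 1), (0, 2), (0, 3), (0, 7), (0, 10), (0, 11), (4, 5), (4, 16), (6, 13)] }
  rep := [0, 12, 8, 6, 14, 15, 4, 9, 17]

noncomputable def v2804 : Cov.CovD where
  P := 3
  N := 6
  pl := [1, 2, 7, 10]
  lev := [⟨[], [], [], [2], [(0, 0, [])]⟩,
    ⟨[], [(0, 0)], [], [2, 7], [(3, 0, [])]⟩,
    ⟨[(0, 1)], [(0, 0), (0, 1), (1, 0), (1, 1)], [(0, 0), (0, 1)], [], [(0, 0, []), (3, 0,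
      []), (4, 0, []), (5, 1, [3])]⟩,
    ⟨[(0, 2), (1, 2)], [(2, 0), (2, 1), (2, 3)], [(0, 3)], [], [(4, 0, []), (6, 3, [1])]⟩,
    ⟨[(0, 2), (1, 2), (2, 3)], [(1, 0), (2, 0), (2, 1), (2, 5), (3, 0)], [(0, 0), (0, 5)],
      [4], [(3, 0, []), (4, 0, []), (8, 5, [6])]⟩,
    ⟨[(2, 4)], [(1, 0), (2, 0), (4, 0), (4, 5), (4, 6)], [(0, 6)], [4], [(3, 0, []), (9, 6,
      [5])]⟩,
    ⟨[(0, 2), (1, 2), (2, 3), (2, 4)], [(2, 0), (2, 1), (2, 3), (3, 0), (3, 1), (3, 3)],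
      [(1, 3)], [8], [(5, 1, [3]), (6, 3, [1])]⟩]
  Ta := [((0, 1), 0, 2), ((0, 5), 0, 1), ((3, 2), 0, 7), ((3, 9), 0, 6), ((4, 6), 0, 3), ((4, 8),
    0, 5)]
  Tb := [((0, 1, 5), 0, 2, 1), ((1, 0, 2), 2, 0, 7), ((2, 1, 3), 7, 2, 0), ((3, 2, 9), 0, 7, 6),
    ((4, 6, 8), 0, 3, 5), ((5, 0, 10), 1, 0, 8), ((6, 4, 10), 3, 0, 8), ((7, 8, 9), 4, 5, 6),
    ((8, 4, 7), 5, 0, 4), ((9, 3, 7), 6, 0, 4), ((10, 5, 6), 8, 1, 3)]
  Tc := []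
  Td := [((1, 3), (5, 0), 0), ((1, 3), (5, 10), 8), ((3, 1), (6, 4), 0), ((3, 1), (6, 10), 8),
    ((5, 6), (8, 4), 0), ((5, 6), (8, 7), 4), ((6, 5), (9, 3), 0), ((6, 5), (9, 7), 4)]
  G := [[0, 0x666eeaeece188688c14, 0x446dd941e299691a2c555ddad1e288582c62,
    0x556ddaddce288681c14, 0x55a54c62dd688a89ce2c18], [0, 0, 0,
    0x44a42dd699addce2c556ddaddce288682cc1, 0x44a41dd699addce2cddaddc62dd682ca2], [0, 0, 0,
    0x44a44dd699addce2c18, 0x556ddaddce288688c12]]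

noncomputable def n2804 : Ent := ⟨e2804, noF, [], [], [(9, 16, [7334685537875745012586738086077695515070955365108989538292687705157633, 0])]⟩

def c2804 : PLift (Cov.check n2804.C.D v2804 = true) := ⟨by decide +kernel⟩

def b2804 : PLift (entF (fidx ts) 400 2804 n2804 = true) := ⟨by decide +kernel⟩

theorem g2804 : GoodF (fidx ts) 400 2804 := GoodF.ofV v2804 n2804 c2804.down b2804.down

/-- 4594644:2245/1 -/
noncomputable def e2805 : SCfg where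
  D := {
    a := 7
    L := 10
    kp := 7
    inn := [(0, 1), (0, 2), (1, 0), (1, 2), (2, 0), (2, 1), (2, 3), (2, 4), (2, 6), (3, 2), (4, 2), (4,
      5), (5, 4), (6, 2)]
    mix := [(0, 0), (0, 1), (1, 1), (1, 2), (1, 3), (2, 0), (2, 3), (2, 4), (2, 5), (3, 4), (3, 5), (3,
      6), (4, 3), (4, 4), (4, 7), (4, 8), (5, 2), (5, 3), (5, 7), (6, 0), (6, 5), (6, 9)]
    cl := [0, 1, 2, 0, 0, 3, 5, 4, 6, 7]
    chq := [(0, 3), (0, 4), (3, 0), (4, 0)]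
    rng := [(0, 1), (0, 9), (1, 0), (1, 2), (2, 1), (2, 3), (2, 7), (3, 2), (4, 6), (4, 8), (5, 6), (5,
      9), (6, 4), (6, 5), (7, 2), (7, 8), (8, 4), (8, 7), (9, 0), (9, 5)]
    lev := [] }
  links := [[1, 2, 7, 8], [2, 0, 8, 9, 10], [7, 0, 1, 10, 4, 11, 3, 12, 6], [12, 2, 11, 13], [11, 2, 10,
    5, 14, 15], [14, 4, 10, 9], [7, 2, 12, 16]]
  P := {
    a := 7
    N := 17
    nb := [390, 1797, 7387, 14340, 52260, 17936, 69764, 65861, 643, 17698, 566, 40988, 73804, 6152,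
      33328, 18448, 4288]
    tri := [(0, 1, 2), (0, 1, 8), (0, 2, 7), (0, 7, 8), (1, 2, 10), (1, 8, 9), (1, 9, 10), (2, 3, 11),
      (2, 3, 12), (2, 4, 10), (2, 4, 11), (2, 6, 7), (2, 6, 12), (3, 11, 13), (3, 12, 13), (4, 5,
      10), (4, 5, 14), (4, 11, 15), (4, 14, 15), (5, 9, 10), (5, 9, 14), (6, 7, 16), (6, 12, 16)]
    fin := [0, 0, 0, 0, 0, 0, 0, 0, 8, 9, 0, 0, 12, 13, 14, 15, 16]
    chd := [(0, 12), (0, 14)]
    steps := [(0, 1), (0, 2), (0, 3), (0, 4), (0, 6), (0, 7), (0, 10), (0, 5), (0, 11)] }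
  rep := [0, 8, 9, 12, 14, 13, 15, 16]

noncomputable def v2805 : Cov.CovD where
  P := 3
  N := 5
  pl := [1, 2, 6, 8, 9]
  lev := [⟨[], [], [], [1], [(0, 0, [3, 4])]⟩,
    ⟨[], [(0, 0)], [], [1, 2], [(3, 0, [3, 4])]⟩,
    ⟨[(0, 1)], [(0, 0), (0, 3), (1, 0), (1, 3)], [(0, 0), (0, 3)], [], [(0, 0, [3, 4]), (3,
      0, [3, 4]), (4, 0, [3, 4]), (5, 3, [0])]⟩,
    ⟨[(0, 2), (1, 2)], [(2, 0), (2, 3)], [(0, 3)], [5], [(4, 0, [3, 4]), (5, 3, [0])]⟩,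
    ⟨[(0, 2), (1, 2), (2, 3)], [(1, 0), (2, 0), (2, 3), (2, 4), (3, 0)], [(0, 0), (0, 4)],
      [6], [(3, 0, [3, 4]), (4, 0, [3, 4]), (7, 4, [0])]⟩,
    ⟨[(2, 4)], [(1, 0), (2, 0), (4, 0), (4, 4)], [(0, 4)], [2], [(3, 0, [3, 4]), (7, 4,
      [0])]⟩,
    ⟨[(0, 2), (1, 2), (2, 3), (2, 4)], [(0, 0), (2, 0), (2, 3), (3, 3)], [(0, 3)], [7],
      [(0, 0, [3, 4]), (5, 3, [0])]⟩]
  Ta := [((0, 1), 0, 1), ((0, 9), 0, 7), ((3, 2), 0, 2), ((4, 6), 0, 5), ((4, 8), 0, 6)]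
  Tb := [((0, 1, 9), 0, 1, 7), ((1, 0, 2), 1, 0, 2), ((2, 1, 3), 2, 1, 0), ((2, 1, 7), 2, 1, 4),
    ((2, 3, 7), 2, 0, 4), ((4, 6, 8), 0, 5, 6), ((5, 6, 9), 3, 5, 7), ((6, 4, 5), 5, 0, 3),
    ((7, 2, 8), 4, 2, 6), ((8, 4, 7), 6, 0, 4), ((9, 0, 5), 7, 0, 3)]
  Tc := [(0, 3, 4)]
  Td := [((0, 3), (0, 1), 1), ((0, 3), (0, 9), 7), ((0, 3), (3, 2), 2), ((0, 3), (4, 6), 5), ((0,
    3), (4, 8), 6), ((0, 4), (0, 1), 1), ((0, 4), (0, 9), 7), ((0, 4), (3, 2), 2), ((0, 4),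
    (4, 6), 5), ((0, 4), (4, 8), 6), ((3, 0), (5, 6), 5), ((3, 0), (5, 9), 7), ((4, 0), (7,
    2), 2), ((4, 0), (7, 8), 6)]
  G := [[0, 0xc161a14a861c12cc4a16184c, 0, 0xa1616c821a348c4e161a18a861c1ea8169cda4c,
    0xc8a1c2ea184888ae2eda81e381e16861462241216788c], [0, 0, 0x1412611812a11814c1e84,
    0x1811ca1a88d88144b674616c4c1611c2d8c4, 0x61411a1265a8a2aa8a2a1812abc141811ac3e84], [0,
    0, 0, 0x1189811a112e48741756c44a12ea881445814cea4c,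
    0x118b812a122ea8861418d1ce681144811a726a22a89c]]

noncomputable def n2805 : Ent := ⟨e2805, noF, [], [], []⟩

def c2805 : PLift (Cov.check n2805.C.D v2805 = true) := ⟨by decide +kernel⟩

def b2805 : PLift (entF (fidx ts) 400 2805 n2805 = true) := ⟨by decide +kernel⟩

theorem g2805 : GoodF (fidx ts) 400 2805 := GoodF.ofV v2805 n2805 c2805.down b2805.down

/-- 4594644:2245 -/
noncomputable def e2806 : SCfg where
  D := {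
    a := 7
    L := 11
    kp := 8
    inn := [(0, 1), (0, 2), (1, 0), (1, 2), (2, 0), (2, 1), (2, 3), (2, 4), (2, 6), (3, 2), (4, 2), (4,
      5), (5, 4), (6, 2)]
    mix := [(0, 0), (0, 1), (1, 1), (1, 2), (1, 3), (2, 0), (2, 3), (2, 4), (2, 5), (3, 4), (3, 5), (3,
      6), (4, 3), (4, 4), (4, 7), (4, 8), (5, 3), (5, 7), (5, 9), (6, 0), (6, 5), (6, 10)]
    cl := [0, 2, 4, 0, 0, 1, 5, 3, 6, 7, 8]
    chq := [(0, 1), (0, 3), (1, 0), (3, 0)]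
    rng := [(0, 1), (0, 10), (1, 0), (1, 2), (2, 1), (2, 3), (3, 2), (3, 9), (4, 6), (4, 8), (5, 6),
      (5, 10), (6, 4), (6, 5), (7, 8), (7, 9), (8, 4), (8, 7), (9, 3), (9, 7), (10, 0), (10, 5)]
    lev := [] }
  links := [[1, 2, 7, 8], [2, 0, 8, 9, 10], [7, 0, 1, 10, 4, 11, 3, 12, 6], [12, 2, 11, 13], [11, 2, 10,
    5, 14, 15], [14, 4, 10, 16], [7, 2, 12, 17]]
  P := {
    a := 7
    N := 18
    nb := [390, 1797, 7387, 14340, 52260, 82960, 135300, 131397, 643, 1282, 66102, 40988, 139340,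
      6152, 98352, 18448, 17440, 4288]
    tri := [(0, 1, 2), (0, 1, 8), (0, 2, 7), (0, 7, 8), (1, 2, 10), (1, 8, 9), (1, 9, 10), (2, 3, 11),
      (2, 3, 12), (2, 4, 10), (2, 4, 11), (2, 6, 7), (2, 6, 12), (3, 11, 13), (3, 12, 13), (4, 5,
      10), (4, 5, 14), (4, 11, 15), (4, 14, 15), (5, 10, 16), (5, 14, 16), (6, 7, 17), (6, 12,
      17)]
    fin := [0, 0, 0, 0, 0, 0, 0, 0, 8, 9, 0, 0, 12, 13, 14, 15, 16, 17]
    chd := [(0, 12), (0, 14)]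
    steps := [(0, 1), (0, 2), (0, 3), (0, 4), (0, 5), (0, 6), (0, 7), (0, 10), (0, 11)] }
  rep := [0, 12, 8, 14, 9, 13, 15, 16, 17]

noncomputable def v2806 : Cov.CovD where
  P := 3
  N := 6
  pl := [1, 2, 6, 8, 9, 10]
  lev := [⟨[], [], [], [2], [(0, 0, [1, 3])]⟩,
    ⟨[], [(0, 0)], [], [2, 4], [(3, 0, [1, 3])]⟩,
    ⟨[(0, 1)], [(0, 0), (0, 1), (1, 0), (1, 1)], [(0, 0), (0, 1)], [], [(0, 0, [1, 3]), (3,
      0, [1, 3]), (4, 0, [1, 3]), (5, 1, [0])]⟩,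
    ⟨[(0, 2), (1, 2)], [(2, 0), (2, 1)], [(0, 1)], [5], [(4, 0, [1, 3]), (5, 1, [0])]⟩,
    ⟨[(0, 2), (1, 2), (2, 3)], [(1, 0), (2, 0), (2, 1), (2, 3), (3, 0)], [(0, 0), (0, 3)],
      [6], [(3, 0, [1, 3]), (4, 0, [1, 3]), (7, 3, [0])]⟩,
    ⟨[(2, 4)], [(1, 0), (2, 0), (4, 0), (4, 3)], [(0, 3)], [7], [(3, 0, [1, 3]), (7, 3,
      [0])]⟩,
    ⟨[(0, 2), (1, 2), (2, 3), (2, 4)], [(0, 0), (2, 0), (2, 1), (3, 1)], [(0, 1)], [8],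
      [(0, 0, [1, 3]), (5, 1, [0])]⟩]
  Ta := [((0, 1), 0, 2), ((0, 10), 0, 8), ((3, 2), 0, 4), ((3, 9), 0, 7), ((4, 6), 0, 5), ((4,
    8), 0, 6)]
  Tb := [((0, 1, 10), 0, 2, 8), ((1, 0, 2), 2, 0, 4), ((2, 1, 3), 4, 2, 0), ((3, 2, 9), 0, 4, 7),
    ((4, 6, 8), 0, 5, 6), ((5, 6, 10), 1, 5, 8), ((6, 4, 5), 5, 0, 1), ((7, 8, 9), 3, 6, 7),
    ((8, 4, 7), 6, 0, 3), ((9, 3, 7), 7, 0, 3), ((10, 0, 5), 8, 0, 1)]
  Tc := [(0, 1, 3)]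
  Td := [((0, 1), (0, 1), 2), ((0, 1), (0, 10), 8), ((0, 1), (3, 2), 4), ((0, 1), (3, 9), 7),
    ((0, 1), (4, 6), 5), ((0, 1), (4, 8), 6), ((0, 3), (0, 1), 2), ((0, 3), (0, 10), 8), ((0,
    3), (3, 2), 4), ((0, 3), (3, 9), 7), ((0, 3), (4, 6), 5), ((0, 3), (4, 8), 6), ((1, 0),
    (5, 6), 5), ((1, 0), (5, 10), 8), ((3, 0), (7, 8), 6), ((3, 0), (7, 9), 7)]
  G := [[0, 0x6161c1e6161c1ec261461c1a1eca1a1a2cc1, 0xc181c1e1441418414161c18181e1ce8,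
    0xccce82cccee141cc4e4181c, 0xccce41cccecccea1c12], [0,
    0xa1c1c1e61a1c1ec261c1c1e6161a1e68c4, 0, 0x111e41111e111ea1c4111e111e61111e81c8c,
    0x1441111e11a111ee1c111e111e61111e81ca2], [0, 0xc126161c1ec1c1ce26161c1ec1a1c1ec2c1, 0,
    0x188441111e4116111e111eec111e111ea8c1c, 0x111e111e6111e4c111e8111e111eacc12]]

noncomputable def n2806 : Ent := ⟨e2806, noF, [], [], [(9, 16, [7334685537875745012586738086077695515070955365108989538292687705165825, 0])]⟩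

def c2806 : PLift (Cov.check n2806.C.D v2806 = true) := ⟨by decide +kernel⟩

def b2806 : PLift (entF (fidx ts) 400 2806 n2806 = true) := ⟨by decide +kernel⟩

theorem g2806 : GoodF (fidx ts) 400 2806 := GoodF.ofV v2806 n2806 c2806.down b2806.down

/-- 4594744:2246 -/
noncomputable def e2807 : SCfg where
  D := {
    a := 7
    L := 10
    kp := 7
    inn := [(0, 1), (0, 2), (1, 0), (1, 2), (1, 4), (2, 0), (2, 1), (2, 3), (2, 4), (2, 5), (2, 6), (3,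
      2), (4, 1), (4, 2), (4, 5), (5, 2), (5, 4), (6, 2)]
    mix := [(0, 0), (0, 1), (1, 1), (1, 2), (2, 0), (2, 3), (2, 4), (3, 3), (3, 4), (3, 5), (4, 2), (4,
      6), (4, 7), (4, 8), (5, 3), (5, 8), (6, 0), (6, 4), (6, 9)]
    cl := [0, 2, 3, 0, 1, 4, 5, 6, 3, 7]
    chq := [(0, 1), (1, 0)]
    rng := [(0, 1), (0, 9), (1, 0), (1, 2), (2, 1), (2, 6), (3, 5), (3, 8), (4, 5), (4, 9), (5, 3), (5,
      4), (6, 2), (6, 7), (7, 6), (7, 8), (8, 3), (8, 7), (9, 0), (9, 4)]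
    lev := [] }
  links := [[1, 2, 7, 8], [2, 0, 8, 9, 4], [7, 0, 1, 4, 5, 10, 3, 11, 6], [11, 2, 10, 12], [5, 2, 1, 9,
    13, 14, 15], [10, 2, 4, 15], [7, 2, 11, 16]]
  P := {
    a := 7
    N := 17
    nb := [390, 789, 3323, 7172, 57894, 33812, 67716, 65861, 643, 8466, 36908, 69708, 3080, 16912,
      40976, 17456, 2240]
    tri := [(0, 1, 2), (0, 1, 8), (0, 2, 7), (0, 7, 8), (1, 2, 4), (1, 4, 9), (1, 8, 9), (2, 3, 10),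
      (2, 3, 11), (2, 4, 5), (2, 5, 10), (2, 6, 7), (2, 6, 11), (3, 10, 12), (3, 11, 12), (4, 5,
      15), (4, 9, 13), (4, 13, 14), (4, 14, 15), (5, 10, 15), (6, 7, 16), (6, 11, 16)]
    fin := [0, 0, 0, 0, 4, 0, 0, 0, 8, 4, 0, 11, 12, 13, 14, 4, 16]
    chd := [(0, 11)]
    steps := [(0, 1), (0, 2), (0, 3), (0, 5), (0, 6), (0, 7), (0, 10), (4, 9), (4, 15)] }
  rep := [0, 11, 8, 4, 12, 13, 14, 16]

noncomputable def v2807 : Cov.CovD where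
  P := 3
  N := 5
  pl := [1, 5, 6, 7, 9]
  lev := [⟨[], [], [], [2], [(0, 0, [1])]⟩,
    ⟨[], [(0, 0), (0, 3)], [], [2], [(2, 3, [])]⟩,
    ⟨[(0, 1)], [(0, 0), (0, 1), (1, 0), (1, 1), (1, 3)], [(0, 0), (0, 1)], [], [(0, 0,
      [1]), (3, 0, [1]), (4, 1, [0])]⟩,
    ⟨[(0, 2), (1, 2)], [(2, 0), (2, 1)], [(0, 1)], [4], [(3, 0, [1]), (4, 1, [0])]⟩,
    ⟨[(0, 1), (0, 2), (1, 2), (2, 3)], [(1, 3), (2, 0), (2, 1), (2, 3)], [(3, 3)], [5, 6],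
      [(2, 3, []), (8, 3, [])]⟩,
    ⟨[(0, 2), (1, 2), (1, 4), (2, 3), (2, 4)], [(2, 0), (2, 1), (2, 3), (3, 0), (4, 0), (4,
      3)], [(0, 3)], [], [(3, 0, [1]), (8, 3, [])]⟩,
    ⟨[(0, 2), (1, 2), (2, 3), (2, 4), (2, 5)], [(0, 0), (2, 0), (2, 1), (3, 1)], [(0, 1)],
      [7], [(0, 0, [1]), (4, 1, [0])]⟩]
  Ta := [((0, 1), 0, 2), ((0, 9), 0, 7), ((2, 1), 3, 2), ((2, 6), 3, 5), ((3, 5), 0, 4), ((3, 8),
    0, 3), ((8, 3), 3, 0), ((8, 7), 3, 6)]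
  Tb := [((0, 1, 9), 0, 2, 7), ((1, 0, 2), 2, 0, 3), ((2, 1, 6), 3, 2, 5), ((3, 5, 8), 0, 4, 3),
    ((4, 5, 9), 1, 4, 7), ((5, 3, 4), 4, 0, 1), ((6, 2, 7), 5, 3, 6), ((7, 6, 8), 6, 5, 3),
    ((8, 3, 7), 3, 0, 6), ((9, 0, 4), 7, 0, 1)]
  Tc := []
  Td := [((0, 1), (0, 1), 2), ((0, 1), (0, 9), 7), ((0, 1), (3, 5), 4), ((0, 1), (3, 8), 3), ((1,
    0), (4, 5), 4), ((1, 0), (4, 9), 7)]
  G := [[0, 0x64626476286162a1a2fe814, 0xc2c2c8b14c2c4c2718c2, 0x4441c888c8c8f1c18,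
    0x4241c882c8c8f1c12], [0, 0xc2c1c1c2fc2c1c27c88e218, 0x422184441c888a88cccaf1c68,
    0x42c2c2c2f18881c14, 0xc4c4c47148c81c12], [0, 0xc8a1c862fc1a1a1c8fa418, 0,
    0x124418121818f181218bcc18, 0x144418181818f181812bcc12], [0, 0xc1a161c2f62a2a262fa481, 0,
    0x1212127412121212f128cc18, 0x141214714141214fc1488c12]]

noncomputable def n2807 : Ent := ⟨e2807, noF, [], [], []⟩

def c2807 : PLift (Cov.check n2807.C.D v2807 = true) := ⟨by decide +kernel⟩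

def b2807 : PLift (entF (fidx ts) 400 2807 n2807 = true) := ⟨by decide +kernel⟩

theorem g2807 : GoodF (fidx ts) 400 2807 := GoodF.ofV v2807 n2807 c2807.down b2807.down

/-- 4594754:2247/1 -/
noncomputable def e2808 : SCfg where
  D := {
    a := 7
    L := 10
    kp := 7
    inn := [(0, 1), (0, 2), (1, 0), (1, 2), (1, 4), (2, 0), (2, 1), (2, 3), (2, 4), (2, 5), (3, 2), (3,
      5), (4, 1), (4, 2), (4, 6), (5, 2), (5, 3), (6, 4)]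
    mix := [(0, 0), (0, 1), (1, 1), (1, 2), (2, 0), (2, 3), (2, 4), (2, 5), (3, 4), (3, 6), (4, 2), (4,
      3), (4, 7), (4, 8), (5, 5), (5, 6), (5, 9), (6, 2), (6, 6), (6, 7)]
    cl := [0, 4, 1, 0, 5, 3, 2, 6, 1, 7]
    chq := [(0, 2), (2, 0), (2, 3), (3, 2)]
    rng := [(0, 1), (0, 5), (1, 0), (1, 2), (2, 1), (2, 6), (3, 4), (3, 8), (4, 3), (4, 6), (5, 0), (5,
      9), (6, 2), (6, 4), (6, 7), (6, 9), (7, 6), (7, 8), (8, 3), (8, 7), (9, 5), (9, 6)]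
    lev := [] }
  links := [[1, 2, 7, 8], [2, 0, 8, 9, 4], [7, 0, 1, 4, 10, 11, 3, 5, 12], [5, 2, 11, 13], [10, 2, 1, 9,
    6, 14, 15], [12, 2, 3, 13, 16], [14, 4, 9, 13]]
  P := {
    a := 7
    N := 17
    nb := [390, 789, 7355, 10276, 50758, 77836, 25104, 4357, 643, 8530, 34836, 9228, 65700, 84584,
      41040, 17424, 12320]
    tri := [(0, 1, 2), (0, 1, 8), (0, 2, 7), (0, 7, 8), (1, 2, 4), (1, 4, 9), (1, 8, 9), (2, 3, 5), (2,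
      3, 11), (2, 4, 10), (2, 5, 12), (2, 7, 12), (2, 10, 11), (3, 5, 13), (3, 11, 13), (4, 6, 9),
      (4, 6, 14), (4, 10, 15), (4, 14, 15), (5, 12, 16), (5, 13, 16), (6, 9, 13), (6, 13, 14)]
    fin := [0, 0, 0, 0, 4, 5, 4, 0, 8, 4, 0, 11, 12, 5, 14, 4, 16]
    chd := [(0, 5), (12, 5)]
    steps := [(0, 1), (0, 2), (0, 3), (0, 7), (0, 10), (4, 6), (4, 9), (4, 15), (5, 13)] }
  rep := [0, 4, 5, 12, 8, 11, 14, 16]

noncomputable def v2808 : Cov.CovD where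
  P := 3
  N := 5
  pl := [1, 4, 7, 9]
  lev := [⟨[], [], [], [4], [(0, 0, [2])]⟩,
    ⟨[], [(0, 0), (0, 1)], [], [4], [(2, 1, [])]⟩,
    ⟨[(0, 1)], [(0, 0), (0, 3), (1, 0), (1, 1), (1, 3)], [(0, 0), (0, 3)], [5], [(0, 0,
      [2]), (3, 0, [2]), (5, 3, [2])]⟩,
    ⟨[(0, 2), (1, 2)], [(2, 0), (2, 2), (2, 3)], [], [5], [(6, 2, [0, 3])]⟩,
    ⟨[(0, 1), (0, 2), (1, 2), (2, 3)], [(1, 0), (1, 1), (2, 0), (2, 1), (2, 3)], [(0, 1),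
      (1, 1)], [6], [(2, 1, []), (3, 0, [2]), (8, 1, [])]⟩,
    ⟨[(0, 2), (1, 2), (2, 3), (2, 4)], [(2, 0), (2, 2), (2, 3), (3, 2), (3, 3)], [(2, 3)],
      [7], [(5, 3, [2]), (6, 2, [0, 3])]⟩,
    ⟨[(1, 4), (2, 4)], [(1, 1), (3, 2), (4, 0), (4, 1), (4, 2), (5, 2)], [(1, 2)], [6],
      [(2, 1, []), (6, 2, [0, 3])]⟩]
  Ta := [((0, 1), 0, 4), ((0, 5), 0, 3), ((2, 1), 1, 4), ((2, 6), 1, 2), ((3, 4), 0, 5), ((3, 8),
    0, 1), ((8, 3), 1, 0), ((8, 7), 1, 6)]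
  Tb := [((0, 1, 5), 0, 4, 3), ((1, 0, 2), 4, 0, 1), ((2, 1, 6), 1, 4, 2), ((3, 4, 8), 0, 5, 1),
    ((4, 3, 6), 5, 0, 2), ((5, 0, 9), 3, 0, 7), ((6, 2, 4), 2, 1, 5), ((6, 2, 7), 2, 1, 6),
    ((6, 2, 9), 2, 1, 7), ((6, 4, 7), 2, 5, 6), ((6, 4, 9), 2, 5, 7), ((6, 7, 9), 2, 6, 7),
    ((7, 6, 8), 6, 2, 1), ((8, 3, 7), 1, 0, 6), ((9, 5, 6), 7, 3, 2)]
  Tc := [(2, 0, 3)]
  Td := [((0, 2), (0, 1), 4), ((0, 2), (0, 5), 3), ((0, 2), (3, 4), 5), ((0, 2), (3, 8), 1), ((2,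
    0), (6, 2), 1), ((2, 0), (6, 4), 5), ((2, 0), (6, 7), 6), ((2, 0), (6, 9), 7), ((2, 3),
    (6, 2), 1), ((2, 3), (6, 4), 5), ((2, 3), (6, 7), 6), ((2, 3), (6, 9), 7), ((3, 2), (5,
    0), 0), ((3, 2), (5, 9), 7)]
  G := [[0, 0, 0xc118c112a4411411a441488184c58118116c114c112e87, 0x888d111dc12881d144dc1252,
    0x999b888b5191492436914189984199341a19994189841888b111bc1c5e], [0, 0,
    0xc11228121c22c118c114ce1, 0, 0xa334129141888b111bc1ca88322391298418633941188b221bc1c1e],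
    [0, 0, 0xc11c116c114c112ec118c11c11ac112ec1, 0x888d444dc888d444dc9212,
    0x111b419241994a689934984a888b8889898111c8212c3e199941888b113c888b119cac1e], [0,
    0x888d444dc12111521111d411dc16119218119211121425ce5, 0xa11228141922c118c114ce1, 0,
    0x8121c121a2412a24121934984a888b113c188b911bc3ce3]]

noncomputable def n2808 : Ent := ⟨e2808, noF, [], [], []⟩

def c2808 : PLift (Cov.check n2808.C.D v2808 = true) := ⟨by decide +kernel⟩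

def b2808 : PLift (entF (fidx ts) 400 2808 n2808 = true) := ⟨by decide +kernel⟩

theorem g2808 : GoodF (fidx ts) 400 2808 := GoodF.ofV v2808 n2808 c2808.down b2808.down

/-- 4594754:2247/2 -/
noncomputable def e2809 : SCfg where
  D := {
    a := 7
    L := 10
    kp := 7
    inn := [(0, 1), (0, 2), (1, 0), (1, 2), (1, 4), (2, 0), (2, 1), (2, 3), (2, 4), (2, 5), (3, 2), (3,
      5), (4, 1), (4, 2), (4, 6), (5, 2), (5, 3), (6, 4)]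
    mix := [(0, 0), (0, 1), (1, 1), (1, 2), (2, 0), (2, 3), (2, 4), (2, 5), (3, 4), (3, 6), (4, 2), (4,
      3), (4, 7), (4, 8), (5, 5), (5, 6), (5, 9), (6, 2), (6, 7), (6, 9)]
    cl := [3, 4, 0, 2, 1, 1, 5, 6, 0, 7]
    chq := [(0, 1), (0, 3), (1, 0), (3, 0)]
    rng := [(0, 1), (0, 5), (1, 0), (1, 2), (2, 1), (2, 9), (3, 4), (3, 8), (4, 3), (4, 6), (5, 0), (5,
      9), (6, 4), (6, 9), (7, 8), (7, 9), (8, 3), (8, 7), (9, 2), (9, 5), (9, 6), (9, 7)]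
    lev := [] }
  links := [[1, 2, 7, 8], [2, 0, 8, 9, 4], [7, 0, 1, 4, 10, 11, 3, 5, 12], [5, 2, 11, 13], [10, 2, 1, 9,
    6, 14, 15], [12, 2, 3, 13, 16], [14, 4, 9, 16]]
  P := {
    a := 7
    N := 17
    nb := [390, 789, 7355, 10276, 50758, 77836, 82448, 4357, 643, 65874, 34836, 9228, 65700, 67624,
      98384, 17424, 29280]
    tri := [(0, 1, 2), (0, 1, 8), (0, 2, 7), (0, 7, 8), (1, 2, 4), (1, 4, 9), (1, 8, 9), (2, 3, 5), (2,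
      3, 11), (2, 4, 10), (2, 5, 12), (2, 7, 12), (2, 10, 11), (3, 5, 13), (3, 11, 13), (4, 6, 9),
      (4, 6, 14), (4, 10, 15), (4, 14, 15), (5, 12, 16), (5, 13, 16), (6, 9, 16), (6, 14, 16)]
    fin := [0, 0, 2, 3, 4, 3, 4, 0, 8, 4, 10, 2, 2, 13, 14, 4, 3]
    chd := [(0, 4), (4, 2)]
    steps := [(0, 1), (0, 7), (2, 11), (2, 12), (3, 5), (3, 16), (4, 6), (4, 9), (4, 15)] }
  rep := [4, 2, 10, 0, 8, 13, 14, 3]

noncomputable def v2809 : Cov.CovD where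
  P := 3
  N := 5
  pl := [1, 3, 6, 7, 9]
  lev := [⟨[], [], [], [4], [(0, 3, [0])]⟩,
    ⟨[], [(0, 0), (0, 3)], [], [4], [(2, 0, [1, 3])]⟩,
    ⟨[(0, 1)], [(0, 1), (0, 3), (1, 0), (1, 1), (1, 3)], [(1, 1), (1, 3)], [2], [(0, 3,
      [0]), (4, 1, [0]), (5, 1, [0])]⟩,
    ⟨[(0, 2), (1, 2)], [(2, 1), (2, 3)], [], [5], [(4, 1, [0])]⟩,
    ⟨[(0, 1), (0, 2), (1, 2), (2, 3)], [(1, 0), (2, 0), (2, 1), (2, 3)], [(0, 0)], [2, 6],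
      [(2, 0, [1, 3]), (8, 0, [1, 3])]⟩,
    ⟨[(0, 2), (1, 2), (2, 3), (2, 4)], [(2, 1), (2, 3), (3, 1)], [], [5, 7], [(5, 1, [0])]⟩,
    ⟨[(1, 4), (2, 4)], [(1, 0), (4, 0)], [], [6, 7], [(2, 0, [1, 3])]⟩]
  Ta := [((2, 1), 0, 4), ((2, 9), 0, 7), ((4, 3), 1, 2), ((4, 6), 1, 5), ((5, 0), 1, 3), ((5, 9),
    1, 7), ((8, 3), 0, 2), ((8, 7), 0, 6)]
  Tb := [((0, 1, 5), 3, 4, 1), ((1, 0, 2), 4, 3, 0), ((2, 1, 9), 0, 4, 7), ((3, 4, 8), 2, 1, 0),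
    ((4, 3, 6), 1, 2, 5), ((5, 0, 9), 1, 3, 7), ((6, 4, 9), 5, 1, 7), ((7, 8, 9), 6, 0, 7),
    ((8, 3, 7), 0, 2, 6), ((9, 2, 5), 7, 0, 1), ((9, 2, 6), 7, 0, 5), ((9, 2, 7), 7, 0, 6),
    ((9, 5, 6), 7, 1, 5), ((9, 5, 7), 7, 1, 6), ((9, 6, 7), 7, 5, 6)]
  Tc := [(0, 1, 3)]
  Td := [((0, 1), (2, 1), 4), ((0, 1), (2, 9), 7), ((0, 1), (8, 3), 2), ((0, 1), (8, 7), 6), ((0,
    3), (2, 1), 4), ((0, 3), (2, 9), 7), ((0, 3), (8, 3), 2), ((0, 3), (8, 7), 6), ((1, 0),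
    (4, 3), 2), ((1, 0), (4, 6), 5), ((1, 0), (5, 0), 3), ((1, 0), (5, 9), 7), ((3, 0), (0,
    1), 4), ((3, 0), (0, 5), 1)]
  G := [[0, 0x11421111c1111cac114118118e81111c11861111c1111cace1, 0,
    0x22e2ce222cc121222c1222c5e222ce222cc943,
    0x2227212a2c184a84868c1a1222a1121a584a22aa486226ac943], [0,
    0x11421111c1111cac1111c11868114118118e1111c1111cace1, 0, 0,
    0x262d221848d821848d821e6444a8c9629a61424226926184cd821a51226da285111a1482296f], [0,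
    0x11441111c1111cac1181111c68114118118e1111c1111cace1,
    0x12411894122261111c91281129c1134128112d1221145ce1,
    0x2212c1222cc122112c11222c851222c48c3,
    0x11321a81421a221272c184a84168c1a22321112a91222a4947], [0,
    0x1144114118114ec1181111c61188c114118118e1141111cace1,
    0x44819111de24811d211d6281414c88e1111c5111d11944e2ce1, 0,
    0x119152da21421221111d821a415112da284c8893111ca112384c11ca2967]]

noncomputable def n2809 : Ent := ⟨e2809, noF, [], [], []⟩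

def c2809 : PLift (Cov.check n2809.C.D v2809 = true) := ⟨by decide +kernel⟩

def b2809 : PLift (entF (fidx ts) 400 2809 n2809 = true) := ⟨by decide +kernel⟩

theorem g2809 : GoodF (fidx ts) 400 2809 := GoodF.ofV v2809 n2809 c2809.down b2809.down

/-- 4594754:2247 -/
noncomputable def e2810 : SCfg where
  D := {
    a := 7
    L := 11
    kp := 8
    inn := [(0, 1), (0, 2), (1, 0), (1, 2), (1, 4), (2, 0), (2, 1), (2, 3), (2, 4), (2, 5), (3, 2), (3,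
      5), (4, 1), (4, 2), (4, 6), (5, 2), (5, 3), (6, 4)]
    mix := [(0, 0), (0, 1), (1, 1), (1, 2), (2, 0), (2, 3), (2, 4), (2, 5), (3, 4), (3, 6), (4, 2), (4,
      3), (4, 7), (4, 8), (5, 5), (5, 6), (5, 9), (6, 2), (6, 7), (6, 10)]
    cl := [3, 4, 0, 2, 1, 1, 5, 6, 0, 7, 8]
    chq := [(0, 1), (0, 3), (1, 0), (3, 0)]
    rng := [(0, 1), (0, 5), (1, 0), (1, 2), (2, 1), (2, 10), (3, 4), (3, 8), (4, 3), (4, 6), (5, 0),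
      (5, 9), (6, 4), (6, 9), (7, 8), (7, 10), (8, 3), (8, 7), (9, 5), (9, 6), (10, 2), (10, 7)]
    lev := [] }
  links := [[1, 2, 7, 8], [2, 0, 8, 9, 4], [7, 0, 1, 4, 10, 11, 3, 5, 12], [5, 2, 11, 13], [10, 2, 1, 9,
    6, 14, 15], [12, 2, 3, 13, 16], [14, 4, 9, 17]]
  P := {
    a := 7
    N := 18
    nb := [390, 789, 7355, 10276, 50758, 77836, 147984, 4357, 643, 131410, 34836, 9228, 65700, 67624,
      163920, 17424, 12320, 16960]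
    tri := [(0, 1, 2), (0, 1, 8), (0, 2, 7), (0, 7, 8), (1, 2, 4), (1, 4, 9), (1, 8, 9), (2, 3, 5), (2,
      3, 11), (2, 4, 10), (2, 5, 12), (2, 7, 12), (2, 10, 11), (3, 5, 13), (3, 11, 13), (4, 6, 9),
      (4, 6, 14), (4, 10, 15), (4, 14, 15), (5, 12, 16), (5, 13, 16), (6, 9, 17), (6, 14, 17)]
    fin := [0, 0, 2, 3, 2, 3, 2, 0, 8, 2, 10, 3, 3, 13, 14, 2, 16, 17]
    chd := [(0, 2), (2, 3)]
    steps := [(0, 1), (0, 7), (2, 4), (2, 6), (2, 9), (2, 15), (3, 5), (3, 11), (3, 12)] }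
  rep := [2, 3, 10, 0, 8, 13, 14, 16, 17]

noncomputable def v2810 : Cov.CovD where
  P := 3
  N := 6
  pl := [1, 3, 6, 7, 9, 10]
  lev := [⟨[], [], [], [4], [(0, 3, [0])]⟩,
    ⟨[], [(0, 0), (0, 3)], [], [4], [(2, 0, [1, 3])]⟩,
    ⟨[(0, 1)], [(0, 1), (0, 3), (1, 0), (1, 1), (1, 3)], [(1, 1), (1, 3)], [2], [(0, 3,
      [0]), (4, 1, [0]), (5, 1, [0])]⟩,
    ⟨[(0, 2), (1, 2)], [(2, 1), (2, 3)], [], [5], [(4, 1, [0])]⟩,
    ⟨[(0, 1), (0, 2), (1, 2), (2, 3)], [(1, 0), (2, 0), (2, 1), (2, 3)], [(0, 0)], [2, 6],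
      [(2, 0, [1, 3]), (8, 0, [1, 3])]⟩,
    ⟨[(0, 2), (1, 2), (2, 3), (2, 4)], [(2, 1), (2, 3), (3, 1)], [], [5, 7], [(5, 1, [0])]⟩,
    ⟨[(1, 4), (2, 4)], [(1, 0), (4, 0)], [], [6, 8], [(2, 0, [1, 3])]⟩]
  Ta := [((2, 1), 0, 4), ((2, 10), 0, 8), ((4, 3), 1, 2), ((4, 6), 1, 5), ((5, 0), 1, 3), ((5,
    9), 1, 7), ((8, 3), 0, 2), ((8, 7), 0, 6)]
  Tb := [((0, 1, 5), 3, 4, 1), ((1, 0, 2), 4, 3, 0), ((2, 1, 10), 0, 4, 8), ((3, 4, 8), 2, 1, 0),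
    ((4, 3, 6), 1, 2, 5), ((5, 0, 9), 1, 3, 7), ((6, 4, 9), 5, 1, 7), ((7, 8, 10), 6, 0, 8),
    ((8, 3, 7), 0, 2, 6), ((9, 5, 6), 7, 1, 5), ((10, 2, 7), 8, 0, 6)]
  Tc := [(0, 1, 3)]
  Td := [((0, 1), (2, 1), 4), ((0, 1), (2, 10), 8), ((0, 1), (8, 3), 2), ((0, 1), (8, 7), 6),
    ((0, 3), (2, 1), 4), ((0, 3), (2, 10), 8), ((0, 3), (8, 3), 2), ((0, 3), (8, 7), 6), ((1,
    0), (4, 3), 2), ((1, 0), (4, 6), 5), ((1, 0), (5, 0), 3), ((1, 0), (5, 9), 7), ((3, 0),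
    (0, 1), 4), ((3, 0), (0, 5), 1)]
  G := [[0, 0x114118114e41111c1111c61182c1111c1111c61111c114ace1, 0,
    0xa262ca262cc12424624c11212c1212c5a222ca28c9c3,
    0x36a253672c11ca8c1c78c1a11612a113169a5cca66aacc6666ac943], [0,
    0x1142114118114ec1111c11861182c114118118e1111c114ace1, 0, 0,
    0x2828181821cccd48a21e1c9665a214666d2211181cccd829a665228155169a2ccc66ca29cf], [0,
    0x11441111c1111cac114118118e81181111c61111c1111cace1,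
    0x11116611411ac1281132dc1241418ac811c1261138511a11c612113c9ce1,
    0xa212ca212cc121247212c94128b2455232c89c3,
    0x12516a148c14182122c11ca8c1c78c1a112118966a89112117a11266aa49c7], [0,
    0x11441111c114ac114118118e1182c1181111c6114118114ece1,
    0x11542111d111da2c1418119e28142111818e6111d11914e2ce1, 0,
    0x11cd131da2141122118cd821a312211c66ca2951818415119da268889e7]]

noncomputable def n2810 : Ent := ⟨e2810, noF, [], [], [(17, 13, [6903326391226443182813612567740724581985591720012749800372886079242241, 0]), (17, 16, [7334685537875745012586738086077695515070955365108989538292687705182209, 0])]⟩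

def c2810 : PLift (Cov.check n2810.C.D v2810 = true) := ⟨by decide +kernel⟩

def b2810 : PLift (entF (fidx ts) 400 2810 n2810 = true) := ⟨by decide +kernel⟩

theorem g2810 : GoodF (fidx ts) 400 2810 := GoodF.ofV v2810 n2810 c2810.down b2810.down

/-- 4595474:2248/1 -/
noncomputable def e2811 : SCfg where
  D := {
    a := 7
    L := 10
    kp := 7
    inn := [(0, 1), (0, 2), (1, 0), (1, 2), (2, 0), (2, 1), (2, 3), (2, 4), (2, 5), (3, 2), (3, 5), (4,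
      2), (4, 5), (5, 2), (5, 3), (5, 4), (5, 6), (6, 5)]
    mix := [(0, 0), (0, 1), (1, 1), (1, 2), (1, 3), (2, 0), (2, 3), (2, 4), (2, 5), (3, 4), (3, 6), (3,
      7), (4, 5), (4, 8), (5, 7), (5, 8), (5, 9), (6, 1), (6, 7), (6, 9)]
    cl := [1, 2, 6, 1, 3, 4, 7, 0, 0, 5]
    chq := [(0, 1), (0, 3), (1, 0), (3, 0)]
    rng := [(0, 1), (0, 5), (1, 0), (1, 2), (1, 7), (1, 9), (2, 1), (2, 3), (3, 2), (3, 4), (4, 3), (4,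
      6), (5, 0), (5, 8), (6, 4), (6, 7), (7, 1), (7, 6), (8, 5), (8, 9), (9, 1), (9, 8)]
    lev := [] }
  links := [[1, 2, 7, 8], [2, 0, 8, 9, 10], [7, 0, 1, 10, 11, 3, 5, 4, 12], [5, 2, 11, 13, 14], [12, 2,
    5, 15], [15, 4, 2, 3, 14, 6, 16], [16, 5, 14, 8]]
  P := {
    a := 7
    N := 17
    nb := [390, 1797, 7355, 26660, 36900, 114780, 82208, 4357, 82627, 1282, 2566, 9228, 32916, 18440,
      8552, 69680, 33120]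
    tri := [(0, 1, 2), (0, 1, 8), (0, 2, 7), (0, 7, 8), (1, 2, 10), (1, 8, 9), (1, 9, 10), (2, 3, 5),
      (2, 3, 11), (2, 4, 5), (2, 4, 12), (2, 7, 12), (2, 10, 11), (3, 5, 14), (3, 11, 13), (3, 13,
      14), (4, 5, 15), (4, 12, 15), (5, 6, 14), (5, 6, 16), (5, 15, 16), (6, 8, 14), (6, 8, 16)]
    fin := [0, 0, 0, 3, 0, 5, 6, 0, 6, 9, 0, 3, 12, 13, 5, 5, 16]
    chd := [(0, 5), (3, 5)]
    steps := [(0, 1), (0, 2), (0, 4), (0, 7), (0, 10), (3, 11), (5, 14), (5, 15), (6, 8)] }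
  rep := [5, 0, 6, 3, 12, 16, 9, 13]

noncomputable def v2811 : Cov.CovD where
  P := 3
  N := 5
  pl := [1, 2, 5, 6, 9]
  lev := [⟨[], [], [], [2], [(0, 1, [0])]⟩,
    ⟨[], [(0, 1)], [], [2, 6], [(3, 1, [0])]⟩,
    ⟨[(0, 1)], [(0, 1), (0, 3), (1, 1), (1, 3)], [(1, 1), (1, 3)], [4], [(0, 1, [0]), (3,
      1, [0]), (4, 3, [0])]⟩,
    ⟨[(0, 2), (1, 2)], [(2, 0), (2, 1), (2, 3)], [(0, 3)], [7], [(4, 3, [0]), (7, 0, [1,
      3])]⟩,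
    ⟨[(0, 2), (1, 2), (2, 3)], [(2, 0), (2, 1), (2, 3)], [], [4], [(8, 0, [1, 3])]⟩,
    ⟨[(0, 2), (1, 2), (2, 3), (2, 4), (3, 4)], [(2, 0), (2, 1), (2, 3), (3, 0), (3, 3), (4,
      0)], [(0, 0)], [5], [(7, 0, [1, 3]), (8, 0, [1, 3])]⟩,
    ⟨[(2, 5), (3, 5), (4, 5)], [(3, 0), (5, 0)], [], [2, 5], [(7, 0, [1, 3])]⟩]
  Ta := [((0, 1), 1, 2), ((0, 5), 1, 4), ((3, 2), 1, 6), ((3, 4), 1, 3), ((7, 1), 0, 2), ((7, 6),
    0, 7), ((8, 5), 0, 4), ((8, 9), 0, 5)]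
  Tb := [((0, 1, 5), 1, 2, 4), ((1, 0, 2), 2, 1, 6), ((1, 0, 7), 2, 1, 0), ((1, 0, 9), 2, 1, 5),
    ((1, 2, 7), 2, 6, 0), ((1, 2, 9), 2, 6, 5), ((1, 7, 9), 2, 0, 5), ((2, 1, 3), 6, 2, 1),
    ((3, 2, 4), 1, 6, 3), ((4, 3, 6), 3, 1, 7), ((5, 0, 8), 4, 1, 0), ((6, 4, 7), 7, 3, 0),
    ((7, 1, 6), 0, 2, 7), ((8, 5, 9), 0, 4, 5), ((9, 1, 8), 5, 2, 0)]
  Tc := [(0, 1, 3)]
  Td := [((0, 1), (7, 1), 2), ((0, 1), (7, 6), 7), ((0, 1), (8, 5), 4), ((0, 1), (8, 9), 5), ((0,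
    3), (7, 1), 2), ((0, 3), (7, 6), 7), ((0, 3), (8, 5), 4), ((0, 3), (8, 9), 5), ((1, 0),
    (0, 1), 2), ((1, 0), (0, 5), 4), ((1, 0), (3, 2), 6), ((1, 0), (3, 4), 3), ((3, 0), (4,
    3), 1), ((3, 0), (4, 6), 7)]
  G := [[0, 0x4861184a1184c21e14, 0x426826c84a84a648682cae128, 0xc22c2284c2e1c2284a284c2e1c8,
    0x8262acc82682ac82c82c6e128], [0, 0x4861184a4184c21e18, 0x486282c224c2e124c284a284c2e1c8,
    0, 0x2ac282c282c2e1126121c2682a1882456a86282c282c2ed92], [0, 0x4868184a1184c21e14, 0,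
    0x52292284c2e1c241c281922c2284c2edc221c221cd8, 0x8264182a4182612cc12a881c2ed28], [0,
    0x4861184a4184c21e18, 0, 0,
    0x82c2121c281c221c2e511a281a4224712a412a881c2e59826418816211c2a899]]

noncomputable def n2811 : Ent := ⟨e2811, noF, [], [], []⟩

def c2811 : PLift (Cov.check n2811.C.D v2811 = true) := ⟨by decide +kernel⟩

def b2811 : PLift (entF (fidx ts) 400 2811 n2811 = true) := ⟨by decide +kernel⟩

theorem g2811 : GoodF (fidx ts) 400 2811 := GoodF.ofV v2811 n2811 c2811.down b2811.down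

/-- 4595474:2248/2 -/
noncomputable def e2812 : SCfg where
  D := {
    a := 7
    L := 10
    kp := 7
    inn := [(0, 1), (0, 2), (1, 0), (1, 2), (2, 0), (2, 1), (2, 3), (2, 4), (2, 5), (3, 2), (3, 5), (4,
      2), (4, 5), (5, 2), (5, 3), (5, 4), (5, 6), (6, 5)]
    mix := [(0, 0), (0, 1), (1, 1), (1, 2), (1, 3), (2, 0), (2, 3), (2, 4), (2, 5), (3, 4), (3, 6), (3,
      7), (4, 5), (4, 8), (5, 7), (5, 8), (5, 9), (6, 2), (6, 7), (6, 9)]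
    cl := [1, 2, 4, 1, 3, 5, 7, 0, 0, 6]
    chq := [(0, 1), (0, 3), (1, 0), (3, 0)]
    rng := [(0, 1), (0, 5), (1, 0), (1, 2), (2, 1), (2, 3), (2, 7), (2, 9), (3, 2), (3, 4), (4, 3), (4,
      6), (5, 0), (5, 8), (6, 4), (6, 7), (7, 2), (7, 6), (8, 5), (8, 9), (9, 2), (9, 8)]
    lev := [] }
  links := [[1, 2, 7, 8], [2, 0, 8, 9, 10], [7, 0, 1, 10, 11, 3, 5, 4, 12], [5, 2, 11, 13, 14], [12, 2,
    5, 15], [15, 4, 2, 3, 14, 6, 16], [16, 5, 14, 9]]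
  P := {
    a := 7
    N := 17
    nb := [390, 1797, 7355, 26660, 36900, 114780, 82464, 4357, 643, 83266, 2566, 9228, 32916, 18440,
      8808, 69680, 33376]
    tri := [(0, 1, 2), (0, 1, 8), (0, 2, 7), (0, 7, 8), (1, 2, 10), (1, 8, 9), (1, 9, 10), (2, 3, 5),
      (2, 3, 11), (2, 4, 5), (2, 4, 12), (2, 7, 12), (2, 10, 11), (3, 5, 14), (3, 11, 13), (3, 13,
      14), (4, 5, 15), (4, 12, 15), (5, 6, 14), (5, 6, 16), (5, 15, 16), (6, 9, 14), (6, 9, 16)]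
    fin := [0, 0, 0, 3, 0, 5, 6, 0, 8, 6, 0, 3, 12, 13, 5, 5, 16]
    chd := [(0, 5), (3, 5)]
    steps := [(0, 1), (0, 2), (0, 4), (0, 7), (0, 10), (3, 11), (5, 14), (5, 15), (6, 9)] }
  rep := [5, 0, 8, 3, 6, 12, 16, 13]

noncomputable def v2812 : Cov.CovD where
  P := 3
  N := 5
  pl := [1, 2, 5, 6, 9]
  lev := [⟨[], [], [], [2], [(0, 1, [0])]⟩,
    ⟨[], [(0, 1)], [], [2, 4], [(3, 1, [0])]⟩,
    ⟨[(0, 1)], [(0, 1), (0, 3), (1, 1), (1, 3)], [(1, 1), (1, 3)], [5], [(0, 1, [0]), (3,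
      1, [0]), (4, 3, [0])]⟩,
    ⟨[(0, 2), (1, 2)], [(2, 0), (2, 1), (2, 3)], [(0, 3)], [7], [(4, 3, [0]), (7, 0, [1,
      3])]⟩,
    ⟨[(0, 2), (1, 2), (2, 3)], [(2, 0), (2, 1), (2, 3)], [], [5], [(8, 0, [1, 3])]⟩,
    ⟨[(0, 2), (1, 2), (2, 3), (2, 4), (3, 4)], [(2, 0), (2, 1), (2, 3), (3, 0), (3, 3), (4,
      0)], [(0, 0)], [6], [(7, 0, [1, 3]), (8, 0, [1, 3])]⟩,
    ⟨[(2, 5), (3, 5), (4, 5)], [(3, 0), (5, 0)], [], [4, 6], [(7, 0, [1, 3])]⟩]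
  Ta := [((0, 1), 1, 2), ((0, 5), 1, 5), ((3, 2), 1, 4), ((3, 4), 1, 3), ((7, 2), 0, 4), ((7, 6),
    0, 7), ((8, 5), 0, 5), ((8, 9), 0, 6)]
  Tb := [((0, 1, 5), 1, 2, 5), ((1, 0, 2), 2, 1, 4), ((2, 1, 3), 4, 2, 1), ((2, 1, 7), 4, 2, 0),
    ((2, 1, 9), 4, 2, 6), ((2, 3, 7), 4, 1, 0), ((2, 3, 9), 4, 1, 6), ((2, 7, 9), 4, 0, 6),
    ((3, 2, 4), 1, 4, 3), ((4, 3, 6), 3, 1, 7), ((5, 0, 8), 5, 1, 0), ((6, 4, 7), 7, 3, 0),
    ((7, 2, 6), 0, 4, 7), ((8, 5, 9), 0, 5, 6), ((9, 2, 8), 6, 4, 0)]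
  Tc := [(0, 1, 3)]
  Td := [((0, 1), (7, 2), 4), ((0, 1), (7, 6), 7), ((0, 1), (8, 5), 5), ((0, 1), (8, 9), 6), ((0,
    3), (7, 2), 4), ((0, 3), (7, 6), 7), ((0, 3), (8, 5), 5), ((0, 3), (8, 9), 6), ((1, 0),
    (0, 1), 2), ((1, 0), (0, 5), 5), ((1, 0), (3, 2), 4), ((1, 0), (3, 4), 3), ((3, 0), (4,
    3), 1), ((3, 0), (4, 6), 7)]
  G := [[0, 0xca681c6a11a6c11e14, 0xc26482ecc2ae2c6e2c2ec6e128,
    0xa86282c282c2e124c264a224c2e1c4, 0xc262eca482ec2ace2ca6c6e128], [0,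
    0xca611c6a11a6c21e14, 0xa86282c282c2e124c264a224c2e1c4, 0,
    0x686284a282c2e1116114123612a441a4a2cc262c224c2ed98], [0, 0xca611c6a11a6c21e14,
    0xc2a412214612c81812cae52c268182c, 0x12c212c221c2e1111621168a11a211a46c15,
    0xc2a4112a4126821c2e52c2681829], [0, 0xca611c6a41a6c21e18,
    0x82a41464a214ca8621816281c282c2e924c21416214a224c2e9cc, 0,
    0x1bc2c1a2a1c2e1111621168a11a211a46c13]]

noncomputable def n2812 : Ent := ⟨e2812, noF, [], [], []⟩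

def c2812 : PLift (Cov.check n2812.C.D v2812 = true) := ⟨by decide +kernel⟩

def b2812 : PLift (entF (fidx ts) 400 2812 n2812 = true) := ⟨by decide +kernel⟩

theorem g2812 : GoodF (fidx ts) 400 2812 := GoodF.ofV v2812 n2812 c2812.down b2812.down

/-- 4595474:2248 -/
noncomputable def e2813 : SCfg where
  D := {
    a := 7
    L := 11
    kp := 8
    inn := [(0, 1), (0, 2), (1, 0), (1, 2), (2, 0), (2, 1), (2, 3), (2, 4), (2, 5), (3, 2), (3, 5), (4,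
      2), (4, 5), (5, 2), (5, 3), (5, 4), (5, 6), (6, 5)]
    mix := [(0, 0), (0, 1), (1, 1), (1, 2), (1, 3), (2, 0), (2, 3), (2, 4), (2, 5), (3, 4), (3, 6), (3,
      7), (4, 5), (4, 8), (5, 7), (5, 8), (5, 9), (6, 7), (6, 9), (6, 10)]
    cl := [1, 2, 6, 1, 3, 4, 7, 0, 0, 5, 8]
    chq := [(0, 1), (0, 3), (1, 0), (3, 0)]
    rng := [(0, 1), (0, 5), (1, 0), (1, 2), (2, 1), (2, 3), (3, 2), (3, 4), (4, 3), (4, 6), (5, 0), (5,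
      8), (6, 4), (6, 7), (7, 6), (7, 10), (8, 5), (8, 9), (9, 8), (9, 10), (10, 7), (10, 9)]
    lev := [] }
  links := [[1, 2, 7, 8], [2, 0, 8, 9, 10], [7, 0, 1, 10, 11, 3, 5, 4, 12], [5, 2, 11, 13, 14], [12, 2,
    5, 15], [15, 4, 2, 3, 14, 6, 16], [16, 5, 14, 17]]
  P := {
    a := 7
    N := 18
    nb := [390, 1797, 7355, 26660, 36900, 114780, 213024, 4357, 643, 1282, 2566, 9228, 32916, 18440,
      139368, 69680, 163936, 81984]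
    tri := [(0, 1, 2), (0, 1, 8), (0, 2, 7), (0, 7, 8), (1, 2, 10), (1, 8, 9), (1, 9, 10), (2, 3, 5),
      (2, 3, 11), (2, 4, 5), (2, 4, 12), (2, 7, 12), (2, 10, 11), (3, 5, 14), (3, 11, 13), (3, 13,
      14), (4, 5, 15), (4, 12, 15), (5, 6, 14), (5, 6, 16), (5, 15, 16), (6, 14, 17), (6, 16, 17)]
    fin := [0, 0, 0, 3, 0, 5, 5, 0, 8, 9, 0, 3, 12, 13, 5, 5, 16, 17]
    chd := [(0, 5), (3, 5)]
    steps := [(0, 1), (0, 2), (0, 4), (0, 7), (0, 10), (3, 11), (5, 6), (5, 14), (5, 15)] }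
  rep := [5, 0, 8, 3, 12, 16, 9, 13, 17]

noncomputable def v2813 : Cov.CovD where
  P := 3
  N := 6
  pl := [1, 2, 5, 6, 9, 10]
  lev := [⟨[], [], [], [2], [(0, 1, [0])]⟩,
    ⟨[], [(0, 1)], [], [2, 6], [(3, 1, [0])]⟩,
    ⟨[(0, 1)], [(0, 1), (0, 3), (1, 1), (1, 3)], [(1, 1), (1, 3)], [4], [(0, 1, [0]), (3,
      1, [0]), (4, 3, [0])]⟩,
    ⟨[(0, 2), (1, 2)], [(2, 0), (2, 1), (2, 3)], [(0, 3)], [7], [(4, 3, [0]), (7, 0, [1,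
      3])]⟩,
    ⟨[(0, 2), (1, 2), (2, 3)], [(2, 0), (2, 1), (2, 3)], [], [4], [(8, 0, [1, 3])]⟩,
    ⟨[(0, 2), (1, 2), (2, 3), (2, 4), (3, 4)], [(2, 0), (2, 1), (2, 3), (3, 0), (3, 3), (4,
      0)], [(0, 0)], [5], [(7, 0, [1, 3]), (8, 0, [1, 3])]⟩,
    ⟨[(2, 5), (3, 5), (4, 5)], [(3, 0), (5, 0)], [], [5, 8], [(7, 0, [1, 3])]⟩]
  Ta := [((0, 1), 1, 2), ((0, 5), 1, 4), ((3, 2), 1, 6), ((3, 4), 1, 3), ((7, 6), 0, 7), ((7,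
    10), 0, 8), ((8, 5), 0, 4), ((8, 9), 0, 5)]
  Tb := [((0, 1, 5), 1, 2, 4), ((1, 0, 2), 2, 1, 6), ((2, 1, 3), 6, 2, 1), ((3, 2, 4), 1, 6, 3),
    ((4, 3, 6), 3, 1, 7), ((5, 0, 8), 4, 1, 0), ((6, 4, 7), 7, 3, 0), ((7, 6, 10), 0, 7, 8),
    ((8, 5, 9), 0, 4, 5), ((9, 8, 10), 5, 0, 8), ((10, 7, 9), 8, 0, 5)]
  Tc := [(0, 1, 3)]
  Td := [((0, 1), (7, 6), 7), ((0, 1), (7, 10), 8), ((0, 1), (8, 5), 4), ((0, 1), (8, 9), 5),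
    ((0, 3), (7, 6), 7), ((0, 3), (7, 10), 8), ((0, 3), (8, 5), 4), ((0, 3), (8, 9), 5), ((1,
    0), (0, 1), 2), ((1, 0), (0, 5), 4), ((1, 0), (3, 2), 6), ((1, 0), (3, 4), 3), ((3, 0),
    (4, 3), 1), ((3, 0), (4, 6), 7)]
  G := [[0, 0xca681c6a11a6c21e14, 0xca648eec62c6ac8ee24ea6c6e124,
    0x2e8e2e24e2a6c2e12e8e2e24e2a6c2e1c4, 0xca62e8ea22c6ac4aee24ea6c6e128], [0,
    0xca611c6a41a6c11e18, 0x2e8e2e24e2a6c2e12e8e2e24e2a6c2e1c8, 0,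
    0x2e8e2e24e2a6c2e111611168a11c211a2c2e8e2e24e2a6c2ed92], [0, 0xca611c6a41a6c11e18,
    0xc6a41a435aac1a216c2e521164c168a82c,
    0x22c4aa11bc2a1c2a1c2e5116211c2a1da253c2a1c2e9ca68162c8a1cd4,
    0xc6a41218e21a68181dcae52124ca689829], [0, 0xca681c6a11a6c11e14,
    0x22c8661c6a41c162a1c216c2edca68122c4aa1c16271a2a1c2edc2, 0,
    0x22c8661c6a41218e2a1c216c2ed116211c2a11a211a4616c21bc2a1c2ed92]]

noncomputable def n2813 : Ent := ⟨e2813, noF, [], [], [(8, 17, [6903326391201334775872065844685381424292761054348340378595029941202945, 0]), (9, 17, [6903326391201334775872065844685381424292761054348340378595029941207041, 0])]⟩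

def c2813 : PLift (Cov.check n2813.C.D v2813 = true) := ⟨by decide +kernel⟩

def b2813 : PLift (entF (fidx ts) 400 2813 n2813 = true) := ⟨by decide +kernel⟩

theorem g2813 : GoodF (fidx ts) 400 2813 := GoodF.ofV v2813 n2813 c2813.down b2813.down

/-- 4594645:2249/1 -/
noncomputable def e2814 : SCfg where
  D := {
    a := 7
    L := 10
    kp := 7
    inn := [(0, 1), (0, 2), (1, 0), (1, 2), (2, 0), (2, 1), (2, 3), (2, 4), (2, 6), (3, 2), (3, 6), (4,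
      2), (4, 5), (5, 4), (6, 2), (6, 3)]
    mix := [(0, 0), (0, 1), (1, 1), (1, 2), (1, 3), (2, 0), (2, 3), (2, 4), (2, 5), (3, 4), (3, 6), (4,
      3), (4, 4), (4, 7), (4, 8), (5, 7), (5, 8), (5, 9), (6, 5), (6, 6), (6, 9)]
    cl := [2, 3, 7, 1, 0, 0, 4, 5, 1, 6]
    chq := [(0, 7), (2, 7), (7, 0), (7, 2)]
    rng := [(0, 1), (0, 5), (1, 0), (1, 2), (2, 1), (2, 3), (3, 2), (3, 7), (4, 6), (4, 8), (5, 0), (5,
      9), (6, 4), (6, 9), (7, 3), (7, 9), (8, 4), (8, 9), (9, 5), (9, 6), (9, 7), (9, 8)]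
    lev := [] }
  links := [[1, 2, 7, 8], [2, 0, 8, 9, 10], [7, 0, 1, 10, 4, 11, 3, 6, 12], [6, 2, 11, 13], [11, 2, 10,
    14, 5, 15], [15, 4, 14, 16], [12, 2, 3, 13, 16]]
  P := {
    a := 7
    N := 17
    nb := [390, 1797, 7387, 10308, 52260, 114704, 77836, 4357, 643, 1282, 16918, 40988, 65732, 67656,
      66608, 67632, 61536]
    tri := [(0, 1, 2), (0, 1, 8), (0, 2, 7), (0, 7, 8), (1, 2, 10), (1, 8, 9), (1, 9, 10), (2, 3, 6),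
      (2, 3, 11), (2, 4, 10), (2, 4, 11), (2, 6, 12), (2, 7, 12), (3, 6, 13), (3, 11, 13), (4, 5,
      14), (4, 5, 15), (4, 10, 14), (4, 11, 15), (5, 14, 16), (5, 15, 16), (6, 12, 16), (6, 13,
      16)]
    fin := [0, 1, 2, 3, 4, 4, 3, 0, 8, 1, 4, 2, 2, 13, 14, 4, 3]
    chd := [(0, 1), (1, 2)]
    steps := [(0, 7), (1, 9), (2, 11), (2, 12), (3, 6), (3, 16), (4, 5), (4, 10), (4, 15)] }
  rep := [2, 4, 0, 8, 13, 14, 3, 1]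

noncomputable def v2814 : Cov.CovD where
  P := 3
  N := 5
  pl := [1, 6, 7, 9]
  lev := [⟨[], [], [], [3], [(0, 2, [7])]⟩,
    ⟨[], [(0, 1), (0, 2), (0, 7)], [(1, 7)], [3], [(2, 7, [0, 2]), (3, 1, [])]⟩,
    ⟨[(0, 1)], [(0, 0), (0, 1), (0, 2), (1, 0), (1, 1), (1, 2), (1, 7)], [(0, 0), (0, 1),
      (0, 2), (1, 2)], [], [(0, 2, [7]), (3, 1, []), (4, 0, [7]), (5, 0, [7])]⟩,
    ⟨[(0, 2), (1, 2)], [(2, 0), (2, 1), (2, 2)], [], [4], [(4, 0, [7])]⟩,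
    ⟨[(0, 2), (1, 2), (2, 3)], [(1, 1), (2, 0), (2, 1), (2, 2), (3, 0)], [(0, 1), (1, 1)],
      [5], [(3, 1, []), (4, 0, [7]), (8, 1, [])]⟩,
    ⟨[(2, 4)], [(4, 0), (4, 1)], [], [5, 6], [(8, 1, [])]⟩,
    ⟨[(0, 2), (1, 2), (2, 3), (2, 4)], [(2, 0), (2, 1), (2, 2), (3, 0)], [], [4, 6], [(5,
      0, [7])]⟩]
  Ta := [((3, 2), 1, 7), ((3, 7), 1, 5), ((4, 6), 0, 4), ((4, 8), 0, 1), ((5, 0), 0, 2), ((5, 9),
    0, 6), ((8, 4), 1, 0), ((8, 9), 1, 6)]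
  Tb := [((0, 1, 5), 2, 3, 0), ((1, 0, 2), 3, 2, 7), ((2, 1, 3), 7, 3, 1), ((3, 2, 7), 1, 7, 5),
    ((4, 6, 8), 0, 4, 1), ((5, 0, 9), 0, 2, 6), ((6, 4, 9), 4, 0, 6), ((7, 3, 9), 5, 1, 6),
    ((8, 4, 9), 1, 0, 6), ((9, 5, 6), 6, 0, 4), ((9, 5, 7), 6, 0, 5), ((9, 5, 8), 6, 0, 1),
    ((9, 6, 7), 6, 4, 5), ((9, 6, 8), 6, 4, 1), ((9, 7, 8), 6, 5, 1)]
  Tc := [(7, 0, 2)]
  Td := [((0, 7), (4, 6), 4), ((0, 7), (4, 8), 1), ((0, 7), (5, 0), 2), ((0, 7), (5, 9), 6), ((2,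
    7), (0, 1), 3), ((2, 7), (0, 5), 0), ((7, 0), (2, 1), 3), ((7, 0), (2, 3), 1), ((7, 2),
    (2, 1), 3), ((7, 2), (2, 3), 1)]
  G := [[0, 0, 0, 0x1241182122ce481211c2122c6841211c2122ca41d,
    0x1131252231256811112c2122c684318128681b], [0, 0x81c816a11c116aa4111c44481a6c1822a2c2c,
    0, 0x42542814d11c1198ac2415431212dca81988c1c, 0x819585c114d11cc2151141dc31212dc684a], [0,
    0, 0x441e2a1c941448856122c58248c1a, 0x84c8142d2232269a4882162c8a7c58422162485c382981c1d,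
    0x44422c225681c2122862dc5888c254858214288c584b], [0, 0, 0x4444a26da1c1c16126adc18888c1a,
    0x141d4244511812911c6c1616a5c1a881c2a49a1c141d,
    0x8881c82c881254144c21222d28d686126adc18561262dc18881a4b]]

noncomputable def n2814 : Ent := ⟨e2814, noF, [], [], []⟩

def c2814 : PLift (Cov.check n2814.C.D v2814 = true) := ⟨by decide +kernel⟩

def b2814 : PLift (entF (fidx ts) 400 2814 n2814 = true) := ⟨by decide +kernel⟩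

theorem g2814 : GoodF (fidx ts) 400 2814 := GoodF.ofV v2814 n2814 c2814.down b2814.down

/-- 4594645:2249 -/
noncomputable def e2815 : SCfg where
  D := {
    a := 7
    L := 11
    kp := 8
    inn := [(0, 1), (0, 2), (1, 0), (1, 2), (2, 0), (2, 1), (2, 3), (2, 4), (2, 6), (3, 2), (3, 6), (4,
      2), (4, 5), (5, 4), (6, 2), (6, 3)]
    mix := [(0, 0), (0, 1), (1, 1), (1, 2), (1, 3), (2, 0), (2, 3), (2, 4), (2, 5), (3, 4), (3, 6), (4,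
      3), (4, 4), (4, 7), (4, 8), (5, 7), (5, 8), (5, 9), (6, 5), (6, 6), (6, 10)]
    cl := [2, 3, 6, 1, 0, 0, 4, 5, 1, 7, 8]
    chq := [(0, 6), (2, 6), (6, 0), (6, 2)]
    rng := [(0, 1), (0, 5), (1, 0), (1, 2), (2, 1), (2, 3), (3, 2), (3, 7), (4, 6), (4, 8), (5, 0), (5,
      10), (6, 4), (6, 10), (7, 3), (7, 9), (8, 4), (8, 9), (9, 7), (9, 8), (10, 5), (10, 6)]
    lev := [] }
  links := [[1, 2, 7, 8], [2, 0, 8, 9, 10], [7, 0, 1, 10, 4, 11, 3, 6, 12], [6, 2, 11, 13], [11, 2, 10,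
    14, 5, 15], [15, 4, 14, 16], [12, 2, 3, 13, 17]]
  P := {
    a := 7
    N := 18
    nb := [390, 1797, 7387, 10308, 52260, 114704, 143372, 4357, 643, 1282, 16918, 40988, 131268,
      133192, 66608, 67632, 49184, 12352]
    tri := [(0, 1, 2), (0, 1, 8), (0, 2, 7), (0, 7, 8), (1, 2, 10), (1, 8, 9), (1, 9, 10), (2, 3, 6),
      (2, 3, 11), (2, 4, 10), (2, 4, 11), (2, 6, 12), (2, 7, 12), (3, 6, 13), (3, 11, 13), (4, 5,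
      14), (4, 5, 15), (4, 10, 14), (4, 11, 15), (5, 14, 16), (5, 15, 16), (6, 12, 17), (6, 13,
      17)]
    fin := [0, 1, 1, 3, 4, 4, 3, 0, 8, 1, 4, 3, 3, 13, 14, 4, 16, 17]
    chd := [(0, 1), (1, 3)]
    steps := [(0, 7), (1, 2), (1, 9), (3, 6), (3, 11), (3, 12), (4, 5), (4, 10), (4, 15)] }
  rep := [3, 4, 0, 8, 13, 14, 1, 16, 17]

noncomputable def v2815 : Cov.CovD where
  P := 3
  N := 6
  pl := [1, 6, 7, 9, 10]
  lev := [⟨[], [], [], [3], [(0, 2, [6])]⟩,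
    ⟨[], [(0, 1), (0, 2), (0, 6)], [(1, 6)], [3], [(2, 6, [0, 2]), (3, 1, [])]⟩,
    ⟨[(0, 1)], [(0, 0), (0, 1), (0, 2), (1, 0), (1, 1), (1, 2), (1, 6)], [(0, 0), (0, 1),
      (0, 2), (1, 2)], [], [(0, 2, [6]), (3, 1, []), (4, 0, [6]), (5, 0, [6])]⟩,
    ⟨[(0, 2), (1, 2)], [(2, 0), (2, 1), (2, 2)], [], [4], [(4, 0, [6])]⟩,
    ⟨[(0, 2), (1, 2), (2, 3)], [(1, 1), (2, 0), (2, 1), (2, 2), (3, 0)], [(0, 1), (1, 1)],
      [5], [(3, 1, []), (4, 0, [6]), (8, 1, [])]⟩,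
    ⟨[(2, 4)], [(4, 0), (4, 1)], [], [5, 7], [(8, 1, [])]⟩,
    ⟨[(0, 2), (1, 2), (2, 3), (2, 4)], [(2, 0), (2, 1), (2, 2), (3, 0)], [], [4, 8], [(5,
      0, [6])]⟩]
  Ta := [((3, 2), 1, 6), ((3, 7), 1, 5), ((4, 6), 0, 4), ((4, 8), 0, 1), ((5, 0), 0, 2), ((5,
    10), 0, 8), ((8, 4), 1, 0), ((8, 9), 1, 7)]
  Tb := [((0, 1, 5), 2, 3, 0), ((1, 0, 2), 3, 2, 6), ((2, 1, 3), 6, 3, 1), ((3, 2, 7), 1, 6, 5),
    ((4, 6, 8), 0, 4, 1), ((5, 0, 10), 0, 2, 8), ((6, 4, 10), 4, 0, 8), ((7, 3, 9), 5, 1, 7),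
    ((8, 4, 9), 1, 0, 7), ((9, 7, 8), 7, 5, 1), ((10, 5, 6), 8, 0, 4)]
  Tc := [(6, 0, 2)]
  Td := [((0, 6), (4, 6), 4), ((0, 6), (4, 8), 1), ((0, 6), (5, 0), 2), ((0, 6), (5, 10), 8),
    ((2, 6), (0, 1), 3), ((2, 6), (0, 5), 0), ((6, 0), (2, 1), 3), ((6, 0), (2, 3), 1), ((6,
    2), (2, 1), 3), ((6, 2), (2, 3), 1)]
  G := [[0, 0, 0, 0x35992c93a83334e4812555c7333a6c6841241198aa9b2ce41d,
    0x115b12511c125681575452315c328e8412872829ec681b], [0,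
    0x11c11a614461812a8c111c11a611c11a6c82c, 0,
    0x555434461c9861931cac211c15c1a5463a98988ac1c,
    0x9c98588c2999995c559555cc25115431bb5ca849885998c24b], [0, 0,
    0x424182da21aec4781621616e6c3c8988c16,
    0xcccc29642d2242da4882182162e8e7c78466544a21aea789c1d,
    0x51c52513c3256818218216638e6ec784821821acc4781b], [0, 0,
    0x66541ee98188541e161ee5c1c898688ac1a,
    0x66541ee981c288541861cc5c4aad48561a982889c3885418c88843d,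
    0x281266d43889885c4498ca8898125218184218188988a281681616eedcd86b]]

noncomputable def n2815 : Ent := ⟨e2815, noF, [], [], [(16, 17, [6903326391201334775872065844685381424292761054348340378595029941215233, 0])]⟩

def c2815 : PLift (Cov.check n2815.C.D v2815 = true) := ⟨by decide +kernel⟩

def b2815 : PLift (entF (fidx ts) 400 2815 n2815 = true) := ⟨by decide +kernel⟩

theorem g2815 : GoodF (fidx ts) 400 2815 := GoodF.ofV v2815 n2815 c2815.down b2815.down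

/-- 4594644:2250/1 -/
noncomputable def e2816 : SCfg where
  D := {
    a := 7
    L := 10
    kp := 7
    inn := [(0, 1), (0, 2), (1, 0), (1, 2), (2, 0), (2, 1), (2, 3), (2, 4), (2, 6), (3, 2), (4, 2), (4,
      5), (5, 4), (6, 2)]
    mix := [(0, 0), (0, 1), (1, 1), (1, 2), (1, 3), (2, 0), (2, 3), (2, 4), (2, 5), (3, 4), (3, 5), (3,
      6), (4, 3), (4, 4), (4, 7), (4, 8), (5, 7), (5, 8), (5, 9), (6, 0), (6, 5), (6, 9)]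
    cl := [0, 2, 6, 0, 0, 1, 7, 3, 4, 5]
    chq := [(0, 1), (1, 0), (3, 4), (4, 3)]
    rng := [(0, 1), (0, 9), (1, 0), (1, 2), (2, 1), (2, 3), (3, 2), (3, 7), (4, 6), (4, 8), (5, 6), (5,
      9), (6, 4), (6, 5), (7, 3), (7, 9), (8, 4), (8, 9), (9, 0), (9, 5), (9, 7), (9, 8)]
    lev := [] }
  links := [[1, 2, 7, 8], [2, 0, 8, 9, 10], [7, 0, 1, 10, 4, 11, 3, 12, 6], [12, 2, 11, 13], [11, 2, 10,
    14, 5, 15], [15, 4, 14, 16], [7, 2, 12, 16]]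
  P := {
    a := 7
    N := 17
    nb := [390, 1797, 7387, 14340, 52260, 114704, 69764, 65861, 643, 1282, 16918, 40988, 73804, 6152,
      66608, 67632, 53472]
    tri := [(0, 1, 2), (0, 1, 8), (0, 2, 7), (0, 7, 8), (1, 2, 10), (1, 8, 9), (1, 9, 10), (2, 3, 11),
      (2, 3, 12), (2, 4, 10), (2, 4, 11), (2, 6, 7), (2, 6, 12), (3, 11, 13), (3, 12, 13), (4, 5,
      14), (4, 5, 15), (4, 10, 14), (4, 11, 15), (5, 14, 16), (5, 15, 16), (6, 7, 16), (6, 12,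
      16)]
    fin := [0, 0, 0, 0, 0, 5, 0, 0, 8, 9, 0, 0, 12, 13, 5, 15, 16]
    chd := [(0, 12), (5, 15)]
    steps := [(0, 1), (0, 2), (0, 3), (0, 4), (0, 6), (0, 7), (0, 10), (0, 11), (5, 14)] }
  rep := [0, 12, 8, 5, 15, 16, 9, 13]

noncomputable def v2816 : Cov.CovD where
  P := 3
  N := 5
  pl := [1, 2, 6, 9]
  lev := [⟨[], [], [], [2], [(0, 0, [1])]⟩,
    ⟨[], [(0, 0)], [], [2, 6], [(3, 0, [1])]⟩,
    ⟨[(0, 1)], [(0, 0), (0, 1), (1, 0), (1, 1)], [(0, 0), (0, 1)], [], [(0, 0, [1]), (3, 0,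
      [1]), (4, 0, [1]), (5, 1, [0])]⟩,
    ⟨[(0, 2), (1, 2)], [(2, 0), (2, 1)], [(0, 1)], [7], [(4, 0, [1]), (5, 1, [0])]⟩,
    ⟨[(0, 2), (1, 2), (2, 3)], [(1, 0), (2, 0), (2, 1), (2, 3), (2, 4), (3, 0)], [(0, 0),
      (0, 3), (0, 4), (3, 4)], [], [(3, 0, [1]), (4, 0, [1]), (7, 3, [4]), (8, 4, [3])]⟩,
    ⟨[(2, 4)], [(4, 0), (4, 3), (4, 4)], [(3, 4)], [5], [(7, 3, [4]), (8, 4, [3])]⟩,
    ⟨[(0, 2), (1, 2), (2, 3), (2, 4)], [(0, 0), (2, 0), (2, 1), (3, 1)], [(0, 1)], [5],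
      [(0, 0, [1]), (5, 1, [0])]⟩]
  Ta := [((0, 1), 0, 2), ((0, 9), 0, 5), ((3, 2), 0, 6), ((3, 7), 0, 3), ((4, 6), 0, 7), ((4, 8),
    0, 4)]
  Tb := [((0, 1, 9), 0, 2, 5), ((1, 0, 2), 2, 0, 6), ((2, 1, 3), 6, 2, 0), ((3, 2, 7), 0, 6, 3),
    ((4, 6, 8), 0, 7, 4), ((5, 6, 9), 1, 7, 5), ((6, 4, 5), 7, 0, 1), ((7, 3, 9), 3, 0, 5),
    ((8, 4, 9), 4, 0, 5), ((9, 0, 5), 5, 0, 1), ((9, 0, 7), 5, 0, 3), ((9, 0, 8), 5, 0, 4),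
    ((9, 5, 7), 5, 1, 3), ((9, 5, 8), 5, 1, 4), ((9, 7, 8), 5, 3, 4)]
  Tc := []
  Td := [((0, 1), (0, 1), 2), ((0, 1), (0, 9), 5), ((0, 1), (3, 2), 6), ((0, 1), (3, 7), 3), ((0,
    1), (4, 6), 7), ((0, 1), (4, 8), 4), ((1, 0), (5, 6), 7), ((1, 0), (5, 9), 5), ((3, 4),
    (7, 3), 0), ((3, 4), (7, 9), 5), ((4, 3), (8, 4), 0), ((4, 3), (8, 9), 5)]
  G := [[0, 0x61c1283e61a161e6814, 0x8181441c1c1e1841c1c1e18181ce4, 0x41485843e18881c14,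
    0x41485483e18881c12], [0, 0x61a1c1e61a1c1ec214, 0, 0x141d118147e144151136111981cc8,
    0x111d111187e141151436181981ca8], [0, 0x61c1c1ec1a1c1ec218, 0,
    0x41544141d118147e119113acc18, 0x115411811d811bec119183a8c12]]

noncomputable def n2816 : Ent := ⟨e2816, noF, [], [], []⟩

def c2816 : PLift (Cov.check n2816.C.D v2816 = true) := ⟨by decide +kernel⟩

def b2816 : PLift (entF (fidx ts) 400 2816 n2816 = true) := ⟨by decide +kernel⟩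

theorem g2816 : GoodF (fidx ts) 400 2816 := GoodF.ofV v2816 n2816 c2816.down b2816.down

/-- 4594644:2250 -/
noncomputable def e2817 : SCfg where
  D := {
    a := 7
    L := 11
    kp := 8
    inn := [(0, 1), (0, 2), (1, 0), (1, 2), (2, 0), (2, 1), (2, 3), (2, 4), (2, 6), (3, 2), (4, 2), (4,
      5), (5, 4), (6, 2)]
    mix := [(0, 0), (0, 1), (1, 1), (1, 2), (1, 3), (2, 0), (2, 3), (2, 4), (2, 5), (3, 4), (3, 5), (3,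
      6), (4, 3), (4, 4), (4, 7), (4, 8), (5, 7), (5, 8), (5, 9), (6, 0), (6, 5), (6, 10)]
    cl := [0, 2, 5, 0, 0, 1, 6, 3, 4, 7, 8]
    chq := [(0, 1), (1, 0), (3, 4), (4, 3)]
    rng := [(0, 1), (0, 10), (1, 0), (1, 2), (2, 1), (2, 3), (3, 2), (3, 7), (4, 6), (4, 8), (5, 6),
      (5, 10), (6, 4), (6, 5), (7, 3), (7, 9), (8, 4), (8, 9), (9, 7), (9, 8), (10, 0), (10, 5)]
    lev := [] }
  links := [[1, 2, 7, 8], [2, 0, 8, 9, 10], [7, 0, 1, 10, 4, 11, 3, 12, 6], [12, 2, 11, 13], [11, 2, 10,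
    14, 5, 15], [15, 4, 14, 16], [7, 2, 12, 17]]
  P := {
    a := 7
    N := 18
    nb := [390, 1797, 7387, 14340, 52260, 114704, 135300, 131397, 643, 1282, 16918, 40988, 139340,
      6152, 66608, 67632, 49184, 4288]
    tri := [(0, 1, 2), (0, 1, 8), (0, 2, 7), (0, 7, 8), (1, 2, 10), (1, 8, 9), (1, 9, 10), (2, 3, 11),
      (2, 3, 12), (2, 4, 10), (2, 4, 11), (2, 6, 7), (2, 6, 12), (3, 11, 13), (3, 12, 13), (4, 5,
      14), (4, 5, 15), (4, 10, 14), (4, 11, 15), (5, 14, 16), (5, 15, 16), (6, 7, 17), (6, 12,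
      17)]
    fin := [0, 0, 0, 0, 0, 5, 0, 0, 8, 9, 0, 0, 12, 13, 5, 15, 16, 17]
    chd := [(0, 12), (5, 15)]
    steps := [(0, 1), (0, 2), (0, 3), (0, 4), (0, 6), (0, 7), (0, 10), (0, 11), (5, 14)] }
  rep := [0, 12, 8, 5, 15, 9, 13, 16, 17]

noncomputable def v2817 : Cov.CovD where
  P := 3
  N := 6
  pl := [1, 2, 6, 9, 10]
  lev := [⟨[], [], [], [2], [(0, 0, [1])]⟩,
    ⟨[], [(0, 0)], [], [2, 5], [(3, 0, [1])]⟩,
    ⟨[(0, 1)], [(0, 0), (0, 1), (1, 0), (1, 1)], [(0, 0), (0, 1)], [], [(0, 0, [1]), (3, 0,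
      [1]), (4, 0, [1]), (5, 1, [0])]⟩,
    ⟨[(0, 2), (1, 2)], [(2, 0), (2, 1)], [(0, 1)], [6], [(4, 0, [1]), (5, 1, [0])]⟩,
    ⟨[(0, 2), (1, 2), (2, 3)], [(1, 0), (2, 0), (2, 1), (2, 3), (2, 4), (3, 0)], [(0, 0),
      (0, 3), (0, 4), (3, 4)], [], [(3, 0, [1]), (4, 0, [1]), (7, 3, [4]), (8, 4, [3])]⟩,
    ⟨[(2, 4)], [(4, 0), (4, 3), (4, 4)], [(3, 4)], [7], [(7, 3, [4]), (8, 4, [3])]⟩,
    ⟨[(0, 2), (1, 2), (2, 3), (2, 4)], [(0, 0), (2, 0), (2, 1), (3, 1)], [(0, 1)], [8],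
      [(0, 0, [1]), (5, 1, [0])]⟩]
  Ta := [((0, 1), 0, 2), ((0, 10), 0, 8), ((3, 2), 0, 5), ((3, 7), 0, 3), ((4, 6), 0, 6), ((4,
    8), 0, 4)]
  Tb := [((0, 1, 10), 0, 2, 8), ((1, 0, 2), 2, 0, 5), ((2, 1, 3), 5, 2, 0), ((3, 2, 7), 0, 5, 3),
    ((4, 6, 8), 0, 6, 4), ((5, 6, 10), 1, 6, 8), ((6, 4, 5), 6, 0, 1), ((7, 3, 9), 3, 0, 7),
    ((8, 4, 9), 4, 0, 7), ((9, 7, 8), 7, 3, 4), ((10, 0, 5), 8, 0, 1)]
  Tc := []
  Td := [((0, 1), (0, 1), 2), ((0, 1), (0, 10), 8), ((0, 1), (3, 2), 5), ((0, 1), (3, 7), 3),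
    ((0, 1), (4, 6), 6), ((0, 1), (4, 8), 4), ((1, 0), (5, 6), 6), ((1, 0), (5, 10), 8), ((3,
    4), (7, 3), 0), ((3, 4), (7, 9), 7), ((4, 3), (8, 4), 0), ((4, 3), (8, 9), 7)]
  G := [[0, 0x6656636665663666a98cc98aa18, 0xcc9814cc5c43618881a1ccc5414c9cc3a1ce2,
    0xc89814141cc5cc3e181c, 0x41cc5cc3e1c8981c12], [0, 0x665663661ac56c3ea688ac98ca14, 0,
    0x119113a141151136111981cc1154188c, 0x1151136111981c1151136111981ca2], [0,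
    0x64663666546669a1c6c96a3aac18, 0, 0x11511364119113a1198cc11154881c,
    0x11541154c119113a119113acc12]]

noncomputable def n2817 : Ent := ⟨e2817, noF, [], [], [(16, 17, [6903326391201334775872065844685381424292761054348340378595029941223425, 0])]⟩

def c2817 : PLift (Cov.check n2817.C.D v2817 = true) := ⟨by decide +kernel⟩

def b2817 : PLift (entF (fidx ts) 400 2817 n2817 = true) := ⟨by decide +kernel⟩

theorem g2817 : GoodF (fidx ts) 400 2817 := GoodF.ofV v2817 n2817 c2817.down b2817.down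

/-- 4594645:2251/2 -/
noncomputable def e2818 : SCfg where
  D := {
    a := 7
    L := 9
    kp := 6
    inn := [(0, 1), (0, 2), (1, 0), (1, 2), (2, 0), (2, 1), (2, 3), (2, 4), (2, 6), (3, 2), (3, 6), (4,
      2), (4, 5), (5, 4), (6, 2), (6, 3)]
    mix := [(0, 0), (0, 1), (1, 1), (1, 2), (1, 3), (2, 0), (2, 3), (2, 4), (2, 5), (3, 4), (3, 6), (4,
      2), (4, 3), (4, 4), (4, 7), (5, 4), (5, 6), (5, 7), (6, 5), (6, 6), (6, 8)]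
    cl := [0, 2, 5, 0, 0, 3, 1, 4, 6]
    chq := [(0, 4), (1, 3), (3, 1), (4, 0)]
    rng := [(0, 1), (0, 5), (1, 0), (1, 2), (2, 1), (2, 3), (2, 7), (3, 2), (4, 6), (5, 0), (5, 8), (6,
      4), (6, 7), (6, 8), (7, 2), (7, 6), (8, 5), (8, 6)]
    lev := [] }
  links := [[1, 2, 7, 8], [2, 0, 8, 9, 10], [7, 0, 1, 10, 4, 11, 3, 6, 12], [6, 2, 11, 13], [11, 2, 10,
    9, 14, 5], [11, 4, 14, 13], [12, 2, 3, 13, 15]]
  P := {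
    a := 7
    N := 16
    nb := [390, 1797, 7387, 10308, 20004, 26640, 45068, 4357, 643, 17682, 534, 8252, 32964, 51304,
      8752, 12352]
    tri := [(0, 1, 2), (0, 1, 8), (0, 2, 7), (0, 7, 8), (1, 2, 10), (1, 8, 9), (1, 9, 10), (2, 3, 6),
      (2, 3, 11), (2, 4, 10), (2, 4, 11), (2, 6, 12), (2, 7, 12), (3, 6, 13), (3, 11, 13), (4, 5,
      11), (4, 5, 14), (4, 9, 10), (4, 9, 14), (5, 11, 13), (5, 13, 14), (6, 12, 15), (6, 13, 15)]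
    fin := [0, 0, 0, 0, 0, 0, 6, 0, 8, 9, 0, 0, 12, 6, 14, 15]
    chd := [(0, 14), (12, 6)]
    steps := [(0, 1), (0, 2), (0, 3), (0, 7), (0, 10), (0, 4), (0, 11), (0, 5), (6, 13)] }
  rep := [0, 6, 8, 12, 14, 9, 15]

noncomputable def v2818 : Cov.CovD where
  P := 3
  N := 4
  pl := [1, 2, 8]
  lev := [⟨[], [], [], [2], [(0, 0, [4])]⟩,
    ⟨[], [(0, 0)], [], [2, 5], [(3, 0, [4])]⟩,
    ⟨[(0, 1)], [(0, 0), (0, 3), (1, 0), (1, 3)], [(0, 0), (0, 3)], [], [(0, 0, [4]), (3, 0,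
      [4]), (4, 0, [4]), (5, 3, [1])]⟩,
    ⟨[(0, 2), (1, 2)], [(2, 0), (2, 1), (2, 3)], [(0, 1)], [], [(4, 0, [4]), (6, 1, [3])]⟩,
    ⟨[(0, 2), (1, 2), (2, 3)], [(1, 0), (2, 0), (2, 3), (2, 4), (3, 0)], [(0, 0), (0, 4)],
      [5], [(3, 0, [4]), (4, 0, [4]), (7, 4, [0])]⟩,
    ⟨[(2, 4)], [(2, 0), (3, 0), (3, 1), (4, 0), (4, 1), (4, 4)], [(0, 1), (0, 4), (1, 4)],
      [], [(4, 0, [4]), (6, 1, [3]), (7, 4, [0])]⟩,
    ⟨[(0, 2), (1, 2), (2, 3), (2, 4)], [(2, 0), (2, 1), (2, 3), (3, 0), (3, 1), (3, 3), (5,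
      1)], [(1, 3)], [6], [(5, 3, [1]), (6, 1, [3])]⟩]
  Ta := [((0, 1), 0, 2), ((0, 5), 0, 3), ((3, 2), 0, 5), ((4, 6), 0, 1)]
  Tb := [((0, 1, 5), 0, 2, 3), ((1, 0, 2), 2, 0, 5), ((2, 1, 3), 5, 2, 0), ((2, 1, 7), 5, 2, 4),
    ((2, 3, 7), 5, 0, 4), ((5, 0, 8), 3, 0, 6), ((6, 4, 7), 1, 0, 4), ((6, 4, 8), 1, 0, 6),
    ((6, 7, 8), 1, 4, 6), ((7, 2, 6), 4, 5, 1), ((8, 5, 6), 6, 3, 1)]
  Tc := []
  Td := [((0, 4), (0, 1), 2), ((0, 4), (0, 5), 3), ((0, 4), (3, 2), 5), ((0, 4), (4, 6), 1), ((1,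
    3), (6, 4), 0), ((1, 3), (6, 7), 4), ((1, 3), (6, 8), 6), ((3, 1), (5, 0), 0), ((3, 1),
    (5, 8), 6), ((4, 0), (7, 2), 5), ((4, 0), (7, 6), 1)]
  G := [[0, 0, 0xd851a82d45168291248e4, 0x9124d8d451e8a14, 0xc128d8d491e8618], [0, 0, 0,
    0x5424d8d4a8a9822d4d164ac1, 0xd8d1c42995245128d444ea1], [0,
    0x442262c862a2a864c8e184826481c, 0, 0x99c24d8d455ce8a14, 0x55c22d8d4ddce4a18]]

noncomputable def n2818 : Ent := ⟨e2818, noF, [], [], []⟩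

def c2818 : PLift (Cov.check n2818.C.D v2818 = true) := ⟨by decide +kernel⟩

def b2818 : PLift (entF (fidx ts) 400 2818 n2818 = true) := ⟨by decide +kernel⟩

theorem g2818 : GoodF (fidx ts) 400 2818 := GoodF.ofV v2818 n2818 c2818.down b2818.down

/-- 4594645:2251/1 -/
noncomputable def e2819 : SCfg where
  D := {
    a := 7
    L := 10
    kp := 7
    inn := [(0, 1), (0, 2), (1, 0), (1, 2), (2, 0), (2, 1), (2, 3), (2, 4), (2, 6), (3, 2), (3, 6), (4,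
      2), (4, 5), (5, 4), (6, 2), (6, 3)]
    mix := [(0, 0), (0, 1), (1, 1), (1, 2), (1, 3), (2, 0), (2, 3), (2, 4), (2, 5), (3, 4), (3, 6), (4,
      2), (4, 3), (4, 4), (4, 7), (5, 4), (5, 7), (5, 8), (6, 5), (6, 6), (6, 9)]
    cl := [0, 2, 5, 0, 0, 1, 3, 4, 6, 7]
    chq := [(0, 4), (1, 3), (3, 1), (4, 0)]
    rng := [(0, 1), (0, 5), (1, 0), (1, 2), (2, 1), (2, 3), (2, 7), (3, 2), (4, 6), (4, 8), (5, 0), (5,
      9), (6, 4), (6, 9), (7, 2), (7, 8), (8, 4), (8, 7), (9, 5), (9, 6)]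
    lev := [] }
  links := [[1, 2, 7, 8], [2, 0, 8, 9, 10], [7, 0, 1, 10, 4, 11, 3, 6, 12], [6, 2, 11, 13], [11, 2, 10,
    9, 14, 5], [11, 4, 14, 15], [12, 2, 3, 13, 16]]
  P := {
    a := 7
    N := 17
    nb := [390, 1797, 7387, 10308, 20004, 51216, 77836, 4357, 643, 17682, 534, 41020, 65732, 67656,
      33328, 18464, 12352]
    tri := [(0, 1, 2), (0, 1, 8), (0, 2, 7), (0, 7, 8), (1, 2, 10), (1, 8, 9), (1, 9, 10), (2, 3, 6),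
      (2, 3, 11), (2, 4, 10), (2, 4, 11), (2, 6, 12), (2, 7, 12), (3, 6, 13), (3, 11, 13), (4, 5,
      11), (4, 5, 14), (4, 9, 10), (4, 9, 14), (5, 11, 15), (5, 14, 15), (6, 12, 16), (6, 13, 16)]
    fin := [0, 0, 0, 0, 0, 0, 6, 0, 8, 9, 0, 0, 12, 6, 14, 15, 16]
    chd := [(0, 14), (12, 6)]
    steps := [(0, 1), (0, 2), (0, 3), (0, 7), (0, 10), (0, 4), (0, 5), (0, 11), (6, 13)] }
  rep := [0, 12, 8, 6, 14, 9, 15, 16]

noncomputable def v2819 : Cov.CovD where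
  P := 3
  N := 5
  pl := [1, 2, 8, 9]
  lev := [⟨[], [], [], [2], [(0, 0, [4])]⟩,
    ⟨[], [(0, 0)], [], [2, 5], [(3, 0, [4])]⟩,
    ⟨[(0, 1)], [(0, 0), (0, 1), (1, 0), (1, 1)], [(0, 0), (0, 1)], [], [(0, 0, [4]), (3, 0,
      [4]), (4, 0, [4]), (5, 1, [3])]⟩,
    ⟨[(0, 2), (1, 2)], [(2, 0), (2, 1), (2, 3)], [(0, 3)], [], [(4, 0, [4]), (6, 3, [1])]⟩,
    ⟨[(0, 2), (1, 2), (2, 3)], [(1, 0), (2, 0), (2, 1), (2, 4), (3, 0)], [(0, 0), (0, 4)],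
      [5], [(3, 0, [4]), (4, 0, [4]), (7, 4, [0])]⟩,
    ⟨[(2, 4)], [(2, 0), (3, 0), (4, 0), (4, 4)], [(0, 4)], [6], [(4, 0, [4]), (7, 4, [0])]⟩,
    ⟨[(0, 2), (1, 2), (2, 3), (2, 4)], [(2, 0), (2, 1), (2, 3), (3, 0), (3, 1), (3, 3)],
      [(1, 3)], [7], [(5, 1, [3]), (6, 3, [1])]⟩]
  Ta := [((0, 1), 0, 2), ((0, 5), 0, 1), ((3, 2), 0, 5), ((4, 6), 0, 3), ((4, 8), 0, 6)]
  Tb := [((0, 1, 5), 0, 2, 1), ((1, 0, 2), 2, 0, 5), ((2, 1, 3), 5, 2, 0), ((2, 1, 7), 5, 2, 4),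
    ((2, 3, 7), 5, 0, 4), ((4, 6, 8), 0, 3, 6), ((5, 0, 9), 1, 0, 7), ((6, 4, 9), 3, 0, 7),
    ((7, 2, 8), 4, 5, 6), ((8, 4, 7), 6, 0, 4), ((9, 5, 6), 7, 1, 3)]
  Tc := []
  Td := [((0, 4), (0, 1), 2), ((0, 4), (0, 5), 1), ((0, 4), (3, 2), 5), ((0, 4), (4, 6), 3), ((0,
    4), (4, 8), 6), ((1, 3), (5, 0), 0), ((1, 3), (5, 9), 7), ((3, 1), (6, 4), 0), ((3, 1),
    (6, 9), 7), ((4, 0), (7, 2), 5), ((4, 0), (7, 8), 6)]
  G := [[0, 0xc1442c1c1a61a161ea458, 0x9182441d1c2841d1a28e4, 0x553dd55dd7e2888e81c14,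
    0x444e44a619d9993d95e2c18], [0, 0, 0, 0x11996a24ddded1628cc1446a2485,
    0x5142ddcb81c2c11d1ddd7e28a1], [0, 0, 0, 0xdddedddea241ddde4284c,
    0xddde824ddde228ddde428b2]]

noncomputable def n2819 : Ent := ⟨e2819, noF, [], [], [(15, 13, [1685356714993749094781261963711221120386310105559083432688080658433, 0])]⟩

def c2819 : PLift (Cov.check n2819.C.D v2819 = true) := ⟨by decide +kernel⟩

def b2819 : PLift (entF (fidx ts) 400 2819 n2819 = true) := ⟨by decide +kernel⟩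

theorem g2819 : GoodF (fidx ts) 400 2819 := GoodF.ofV v2819 n2819 c2819.down b2819.down

/-- 4594645:2251/3 -/
noncomputable def e2820 : SCfg where
  D := {
    a := 7
    L := 10
    kp := 7
    inn := [(0, 1), (0, 2), (1, 0), (1, 2), (2, 0), (2, 1), (2, 3), (2, 4), (2, 6), (3, 2), (3, 6), (4,
      2), (4, 5), (5, 4), (6, 2), (6, 3)]
    mix := [(0, 0), (0, 1), (1, 1), (1, 2), (1, 3), (2, 0), (2, 3), (2, 4), (2, 5), (3, 4), (3, 6), (4,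
      3), (4, 4), (4, 7), (4, 8), (5, 4), (5, 6), (5, 8), (6, 5), (6, 6), (6, 9)]
    cl := [0, 2, 5, 0, 0, 3, 1, 6, 4, 7]
    chq := [(0, 4), (1, 3), (3, 1), (4, 0)]
    rng := [(0, 1), (0, 5), (1, 0), (1, 2), (2, 1), (2, 3), (3, 2), (3, 7), (4, 6), (5, 0), (5, 9), (6,
      4), (6, 8), (6, 9), (7, 3), (7, 8), (8, 6), (8, 7), (9, 5), (9, 6)]
    lev := [] }
  links := [[1, 2, 7, 8], [2, 0, 8, 9, 10], [7, 0, 1, 10, 4, 11, 3, 6, 12], [6, 2, 11, 13], [11, 2, 10,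
    14, 15, 5], [11, 4, 15, 13], [12, 2, 3, 13, 16]]
  P := {
    a := 7
    N := 17
    nb := [390, 1797, 7387, 10308, 52260, 43024, 77836, 4357, 643, 1282, 16918, 8252, 65732, 100456,
      33808, 24624, 12352]
    tri := [(0, 1, 2), (0, 1, 8), (0, 2, 7), (0, 7, 8), (1, 2, 10), (1, 8, 9), (1, 9, 10), (2, 3, 6),
      (2, 3, 11), (2, 4, 10), (2, 4, 11), (2, 6, 12), (2, 7, 12), (3, 6, 13), (3, 11, 13), (4, 5,
      11), (4, 5, 15), (4, 10, 14), (4, 14, 15), (5, 11, 13), (5, 13, 15), (6, 12, 16), (6, 13,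
      16)]
    fin := [0, 0, 0, 0, 0, 0, 6, 0, 8, 9, 0, 0, 12, 6, 14, 15, 16]
    chd := [(0, 15), (12, 6)]
    steps := [(0, 1), (0, 2), (0, 3), (0, 4), (0, 7), (0, 10), (0, 11), (0, 5), (6, 13)] }
  rep := [0, 6, 8, 12, 15, 9, 14, 16]

noncomputable def v2820 : Cov.CovD where
  P := 3
  N := 5
  pl := [1, 2, 7, 9]
  lev := [⟨[], [], [], [2], [(0, 0, [4])]⟩,
    ⟨[], [(0, 0)], [], [2, 5], [(3, 0, [4])]⟩,
    ⟨[(0, 1)], [(0, 0), (0, 3), (1, 0), (1, 3)], [(0, 0), (0, 3)], [], [(0, 0, [4]), (3, 0,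
      [4]), (4, 0, [4]), (5, 3, [1])]⟩,
    ⟨[(0, 2), (1, 2)], [(2, 0), (2, 1), (2, 3)], [(0, 1)], [], [(4, 0, [4]), (6, 1, [3])]⟩,
    ⟨[(0, 2), (1, 2), (2, 3)], [(1, 0), (2, 0), (2, 3), (2, 4), (3, 0)], [(0, 0), (0, 4)],
      [6], [(3, 0, [4]), (4, 0, [4]), (8, 4, [0])]⟩,
    ⟨[(2, 4)], [(2, 0), (3, 0), (3, 1), (4, 0), (4, 1), (4, 4)], [(0, 1), (0, 4), (1, 4)],
      [], [(4, 0, [4]), (6, 1, [3]), (8, 4, [0])]⟩,
    ⟨[(0, 2), (1, 2), (2, 3), (2, 4)], [(2, 0), (2, 1), (2, 3), (3, 0), (3, 1), (3, 3), (5,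
      1)], [(1, 3)], [7], [(5, 3, [1]), (6, 1, [3])]⟩]
  Ta := [((0, 1), 0, 2), ((0, 5), 0, 3), ((3, 2), 0, 5), ((3, 7), 0, 6), ((4, 6), 0, 1)]
  Tb := [((0, 1, 5), 0, 2, 3), ((1, 0, 2), 2, 0, 5), ((2, 1, 3), 5, 2, 0), ((3, 2, 7), 0, 5, 6),
    ((5, 0, 9), 3, 0, 7), ((6, 4, 8), 1, 0, 4), ((6, 4, 9), 1, 0, 7), ((6, 8, 9), 1, 4, 7),
    ((7, 3, 8), 6, 0, 4), ((8, 6, 7), 4, 1, 6), ((9, 5, 6), 7, 3, 1)]
  Tc := []
  Td := [((0, 4), (0, 1), 2), ((0, 4), (0, 5), 3), ((0, 4), (3, 2), 5), ((0, 4), (3, 7), 6), ((0,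
    4), (4, 6), 1), ((1, 3), (6, 4), 0), ((1, 3), (6, 8), 4), ((1, 3), (6, 9), 7), ((3, 1),
    (5, 0), 0), ((3, 1), (5, 9), 7), ((4, 0), (8, 6), 1), ((4, 0), (8, 7), 6)]
  G := [[0, 0, 0xd8d4d1e829124d1d1c8ac5128426, 0x5128d8d491e8618, 0x5128d8d491e8618], [0, 0, 0,
    0xc128d8d491e469128d8d4d1e86c1, 0x5122d8d4d1e46949164c851a89854c4ea1], [0,
    0xc862a241c4a262a864c4a1c, 0, 0xc5c28d8d499ce4618, 0x55c28d8d499ce4618]]

noncomputable def n2820 : Ent := ⟨e2820, noF, [], [], [(9, 14, [1685382413448253767852309107433119732572617628602273068445376454657, 0])]⟩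

def c2820 : PLift (Cov.check n2820.C.D v2820 = true) := ⟨by decide +kernel⟩

def b2820 : PLift (entF (fidx ts) 400 2820 n2820 = true) := ⟨by decide +kernel⟩

theorem g2820 : GoodF (fidx ts) 400 2820 := GoodF.ofV v2820 n2820 c2820.down b2820.down

/-- 4594645:2251 -/
noncomputable def e2821 : SCfg where
  D := {
    a := 7
    L := 11
    kp := 8
    inn := [(0, 1), (0, 2), (1, 0), (1, 2), (2, 0), (2, 1), (2, 3), (2, 4), (2, 6), (3, 2), (3, 6), (4,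
      2), (4, 5), (5, 4), (6, 2), (6, 3)]
    mix := [(0, 0), (0, 1), (1, 1), (1, 2), (1, 3), (2, 0), (2, 3), (2, 4), (2, 5), (3, 4), (3, 6), (4,
      3), (4, 4), (4, 7), (4, 8), (5, 4), (5, 8), (5, 9), (6, 5), (6, 6), (6, 10)]
    cl := [0, 2, 5, 0, 0, 1, 3, 6, 4, 7, 8]
    chq := [(0, 4), (1, 3), (3, 1), (4, 0)]
    rng := [(0, 1), (0, 5), (1, 0), (1, 2), (2, 1), (2, 3), (3, 2), (3, 7), (4, 6), (4, 9), (5, 0), (5,
      10), (6, 4), (6, 10), (7, 3), (7, 8), (8, 7), (8, 9), (9, 4), (9, 8), (10, 5), (10, 6)]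
    lev := [] }
  links := [[1, 2, 7, 8], [2, 0, 8, 9, 10], [7, 0, 1, 10, 4, 11, 3, 6, 12], [6, 2, 11, 13], [11, 2, 10,
    14, 15, 5], [11, 4, 15, 16], [12, 2, 3, 13, 17]]
  P := {
    a := 7
    N := 18
    nb := [390, 1797, 7387, 10308, 52260, 100368, 143372, 4357, 643, 1282, 16918, 73788, 131268,
      133192, 33808, 81968, 34848, 12352]
    tri := [(0, 1, 2), (0, 1, 8), (0, 2, 7), (0, 7, 8), (1, 2, 10), (1, 8, 9), (1, 9, 10), (2, 3, 6),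
      (2, 3, 11), (2, 4, 10), (2, 4, 11), (2, 6, 12), (2, 7, 12), (3, 6, 13), (3, 11, 13), (4, 5,
      11), (4, 5, 15), (4, 10, 14), (4, 14, 15), (5, 11, 16), (5, 15, 16), (6, 12, 17), (6, 13,
      17)]
    fin := [0, 0, 0, 0, 0, 0, 6, 0, 8, 9, 0, 0, 12, 6, 14, 15, 16, 17]
    chd := [(0, 15), (12, 6)]
    steps := [(0, 1), (0, 2), (0, 3), (0, 4), (0, 5), (0, 7), (0, 10), (0, 11), (6, 13)] }
  rep := [0, 12, 8, 6, 15, 9, 14, 16, 17]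

noncomputable def v2821 : Cov.CovD where
  P := 3
  N := 6
  pl := [1, 2, 7, 9, 10]
  lev := [⟨[], [], [], [2], [(0, 0, [4])]⟩,
    ⟨[], [(0, 0)], [], [2, 5], [(3, 0, [4])]⟩,
    ⟨[(0, 1)], [(0, 0), (0, 1), (1, 0), (1, 1)], [(0, 0), (0, 1)], [], [(0, 0, [4]), (3, 0,
      [4]), (4, 0, [4]), (5, 1, [3])]⟩,
    ⟨[(0, 2), (1, 2)], [(2, 0), (2, 1), (2, 3)], [(0, 3)], [], [(4, 0, [4]), (6, 3, [1])]⟩,
    ⟨[(0, 2), (1, 2), (2, 3)], [(1, 0), (2, 0), (2, 1), (2, 4), (3, 0)], [(0, 0), (0, 4)],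
      [6], [(3, 0, [4]), (4, 0, [4]), (8, 4, [0])]⟩,
    ⟨[(2, 4)], [(2, 0), (3, 0), (4, 0), (4, 4)], [(0, 4)], [7], [(4, 0, [4]), (8, 4, [0])]⟩,
    ⟨[(0, 2), (1, 2), (2, 3), (2, 4)], [(2, 0), (2, 1), (2, 3), (3, 0), (3, 1), (3, 3)],
      [(1, 3)], [8], [(5, 1, [3]), (6, 3, [1])]⟩]
  Ta := [((0, 1), 0, 2), ((0, 5), 0, 1), ((3, 2), 0, 5), ((3, 7), 0, 6), ((4, 6), 0, 3), ((4, 9),
    0, 7)]
  Tb := [((0, 1, 5), 0, 2, 1), ((1, 0, 2), 2, 0, 5), ((2, 1, 3), 5, 2, 0), ((3, 2, 7), 0, 5, 6),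
    ((4, 6, 9), 0, 3, 7), ((5, 0, 10), 1, 0, 8), ((6, 4, 10), 3, 0, 8), ((7, 3, 8), 6, 0, 4),
    ((8, 7, 9), 4, 6, 7), ((9, 4, 8), 7, 0, 4), ((10, 5, 6), 8, 1, 3)]
  Tc := []
  Td := [((0, 4), (0, 1), 2), ((0, 4), (0, 5), 1), ((0, 4), (3, 2), 5), ((0, 4), (3, 7), 6), ((0,
    4), (4, 6), 3), ((0, 4), (4, 9), 7), ((1, 3), (5, 0), 0), ((1, 3), (5, 10), 8), ((3, 1),
    (6, 4), 0), ((3, 1), (6, 10), 8), ((4, 0), (8, 7), 6), ((4, 0), (8, 9), 7)]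
  G := [[0, 0x61c161ea146a1a1a8c14, 0x4142d191d1e2c4144d191d1e2ca2, 0x515ddd5ddbe288982c14,
    0x4142dddb91dddbe2c18], [0, 0, 0, 0x544742ddde8939d9e2c51ddd7dddee28188cc1,
    0x44944dd5999dd3e2c4494294db993dd5e2ca2], [0, 0, 0, 0x555e42dddedddea2c1888e4281c,
    0x54dddedddee2d8de82c12]]

noncomputable def n2821 : Ent := ⟨e2821, noF, [], [], [(9, 14, [7334790875878422277917280412776772662961875900559637987928627381022721, 0]), (16, 13, [7334685537894576317792898128369202883340578364357296604626079808765953, 0])]⟩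

def c2821 : PLift (Cov.check n2821.C.D v2821 = true) := ⟨by decide +kernel⟩

def b2821 : PLift (entF (fidx ts) 400 2821 n2821 = true) := ⟨by decide +kernel⟩

theorem g2821 : GoodF (fidx ts) 400 2821 := GoodF.ofV v2821 n2821 c2821.down b2821.down

/-- 4594644:2252/2 -/
noncomputable def e2822 : SCfg where
  D := {
    a := 7
    L := 9
    kp := 6
    inn := [(0, 1), (0, 2), (1, 0), (1, 2), (2, 0), (2, 1), (2, 3), (2, 4), (2, 6), (3, 2), (4, 2), (4,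
      5), (5, 4), (6, 2)]
    mix := [(0, 0), (0, 1), (1, 1), (1, 2), (1, 3), (2, 0), (2, 3), (2, 4), (2, 5), (3, 4), (3, 5), (3,
      6), (4, 2), (4, 3), (4, 4), (4, 7), (5, 4), (5, 6), (5, 7), (6, 0), (6, 5), (6, 8)]
    cl := [0, 2, 4, 0, 0, 1, 5, 3, 6]
    chq := [(0, 1), (0, 3), (1, 0), (3, 0)]
    rng := [(0, 1), (0, 8), (1, 0), (1, 2), (2, 1), (2, 3), (2, 7), (3, 2), (4, 6), (5, 6), (5, 8), (6,
      4), (6, 5), (6, 7), (7, 2), (7, 6), (8, 0), (8, 5)]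
    lev := [] }
  links := [[1, 2, 7, 8], [2, 0, 8, 9, 10], [7, 0, 1, 10, 4, 11, 3, 12, 6], [12, 2, 11, 13], [11, 2, 10,
    9, 14, 5], [11, 4, 14, 13], [7, 2, 12, 15]]
  P := {
    a := 7
    N := 16
    nb := [390, 1797, 7387, 14340, 20004, 26640, 36996, 33093, 643, 17682, 534, 8252, 41036, 22568,
      8752, 4288]
    tri := [(0, 1, 2), (0, 1, 8), (0, 2, 7), (0, 7, 8), (1, 2, 10), (1, 8, 9), (1, 9, 10), (2, 3, 11),
      (2, 3, 12), (2, 4, 10), (2, 4, 11), (2, 6, 7), (2, 6, 12), (3, 11, 13), (3, 12, 13), (4, 5,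
      11), (4, 5, 14), (4, 9, 10), (4, 9, 14), (5, 11, 13), (5, 13, 14), (6, 7, 15), (6, 12, 15)]
    fin := [0, 0, 0, 0, 0, 0, 0, 0, 8, 9, 0, 0, 12, 13, 14, 15]
    chd := [(0, 12), (0, 14)]
    steps := [(0, 1), (0, 2), (0, 3), (0, 6), (0, 7), (0, 10), (0, 4), (0, 11), (0, 5)] }
  rep := [0, 12, 8, 14, 9, 13, 15]

noncomputable def v2822 : Cov.CovD where
  P := 3
  N := 4
  pl := [1, 2, 6, 8]
  lev := [⟨[], [], [], [2], [(0, 0, [1, 3])]⟩,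
    ⟨[], [(0, 0)], [], [2, 4], [(3, 0, [1, 3])]⟩,
    ⟨[(0, 1)], [(0, 0), (0, 1), (1, 0), (1, 1)], [(0, 0), (0, 1)], [], [(0, 0, [1, 3]), (3,
      0, [1, 3]), (4, 0, [1, 3]), (5, 1, [0])]⟩,
    ⟨[(0, 2), (1, 2)], [(2, 0), (2, 1)], [(0, 1)], [5], [(4, 0, [1, 3]), (5, 1, [0])]⟩,
    ⟨[(0, 2), (1, 2), (2, 3)], [(1, 0), (2, 0), (2, 1), (2, 3), (3, 0)], [(0, 0), (0, 3)],
      [4], [(3, 0, [1, 3]), (4, 0, [1, 3]), (7, 3, [0])]⟩,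
    ⟨[(2, 4)], [(2, 0), (3, 0), (4, 0), (4, 3)], [(0, 3)], [5], [(4, 0, [1, 3]), (7, 3,
      [0])]⟩,
    ⟨[(0, 2), (1, 2), (2, 3), (2, 4)], [(0, 0), (2, 0), (2, 1), (3, 1)], [(0, 1)], [6],
      [(0, 0, [1, 3]), (5, 1, [0])]⟩]
  Ta := [((0, 1), 0, 2), ((0, 8), 0, 6), ((3, 2), 0, 4), ((4, 6), 0, 5)]
  Tb := [((0, 1, 8), 0, 2, 6), ((1, 0, 2), 2, 0, 4), ((2, 1, 3), 4, 2, 0), ((2, 1, 7), 4, 2, 3),
    ((2, 3, 7), 4, 0, 3), ((5, 6, 8), 1, 5, 6), ((6, 4, 5), 5, 0, 1), ((6, 4, 7), 5, 0, 3),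
    ((6, 5, 7), 5, 1, 3), ((7, 2, 6), 3, 4, 5), ((8, 0, 5), 6, 0, 1)]
  Tc := [(0, 1, 3)]
  Td := [((0, 1), (0, 1), 2), ((0, 1), (0, 8), 6), ((0, 1), (3, 2), 4), ((0, 1), (4, 6), 5), ((0,
    3), (0, 1), 2), ((0, 3), (0, 8), 6), ((0, 3), (3, 2), 4), ((0, 3), (4, 6), 5), ((1, 0),
    (5, 6), 5), ((1, 0), (5, 8), 6), ((3, 0), (7, 2), 4), ((3, 0), (7, 6), 5)]
  G := [[0, 0x61c161e6161c2e6814, 0xc88818c442cccec188124444cea54e2,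
    0x814cccecccea941414c44984c, 0x418ccceccce65818c885c12], [0, 0xc161c1e61c4c1ec214, 0,
    0x111e116a14111e11a618c4, 0x114111e12c9411c111e618a2], [0, 0x61a1c1ec1c4c1ec218, 0,
    0x14441811a11ae116116acc18, 0x14116641811a11ae1168cc18]]

noncomputable def n2822 : Ent := ⟨e2822, noF, [], [], []⟩

def c2822 : PLift (Cov.check n2822.C.D v2822 = true) := ⟨by decide +kernel⟩

def b2822 : PLift (entF (fidx ts) 400 2822 n2822 = true) := ⟨by decide +kernel⟩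

theorem g2822 : GoodF (fidx ts) 400 2822 := GoodF.ofV v2822 n2822 c2822.down b2822.down

/-- 4594644:2252/1 -/
noncomputable def e2823 : SCfg where
  D := {
    a := 7
    L := 10
    kp := 7
    inn := [(0, 1), (0, 2), (1, 0), (1, 2), (2, 0), (2, 1), (2, 3), (2, 4), (2, 6), (3, 2), (4, 2), (4,
      5), (5, 4), (6, 2)]
    mix := [(0, 0), (0, 1), (1, 1), (1, 2), (1, 3), (2, 0), (2, 3), (2, 4), (2, 5), (3, 4), (3, 5), (3,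
      6), (4, 2), (4, 3), (4, 4), (4, 7), (5, 4), (5, 7), (5, 8), (6, 0), (6, 5), (6, 9)]
    cl := [0, 2, 4, 0, 0, 1, 5, 3, 6, 7]
    chq := [(0, 1), (0, 3), (1, 0), (3, 0)]
    rng := [(0, 1), (0, 9), (1, 0), (1, 2), (2, 1), (2, 3), (2, 7), (3, 2), (4, 6), (4, 8), (5, 6), (5,
      9), (6, 4), (6, 5), (7, 2), (7, 8), (8, 4), (8, 7), (9, 0), (9, 5)]
    lev := [] }
  links := [[1, 2, 7, 8], [2, 0, 8, 9, 10], [7, 0, 1, 10, 4, 11, 3, 12, 6], [12, 2, 11, 13], [11, 2, 10,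
    9, 14, 5], [11, 4, 14, 15], [7, 2, 12, 16]]
  P := {
    a := 7
    N := 17
    nb := [390, 1797, 7387, 14340, 20004, 51216, 69764, 65861, 643, 17682, 534, 41020, 73804, 6152,
      33328, 18464, 4288]
    tri := [(0, 1, 2), (0, 1, 8), (0, 2, 7), (0, 7, 8), (1, 2, 10), (1, 8, 9), (1, 9, 10), (2, 3, 11),
      (2, 3, 12), (2, 4, 10), (2, 4, 11), (2, 6, 7), (2, 6, 12), (3, 11, 13), (3, 12, 13), (4, 5,
      11), (4, 5, 14), (4, 9, 10), (4, 9, 14), (5, 11, 15), (5, 14, 15), (6, 7, 16), (6, 12, 16)]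
    fin := [0, 0, 0, 0, 0, 0, 0, 0, 8, 9, 0, 0, 12, 13, 14, 15, 16]
    chd := [(0, 12), (0, 14)]
    steps := [(0, 1), (0, 2), (0, 3), (0, 6), (0, 7), (0, 10), (0, 4), (0, 5), (0, 11)] }
  rep := [0, 12, 8, 14, 9, 13, 15, 16]

noncomputable def v2823 : Cov.CovD where
  P := 3
  N := 5
  pl := [1, 2, 6, 8, 9]
  lev := [⟨[], [], [], [2], [(0, 0, [1, 3])]⟩,
    ⟨[], [(0, 0)], [], [2, 4], [(3, 0, [1, 3])]⟩,
    ⟨[(0, 1)], [(0, 0), (0, 1), (1, 0), (1, 1)], [(0, 0), (0, 1)], [], [(0, 0, [1, 3]), (3,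
      0, [1, 3]), (4, 0, [1, 3]), (5, 1, [0])]⟩,
    ⟨[(0, 2), (1, 2)], [(2, 0), (2, 1)], [(0, 1)], [5], [(4, 0, [1, 3]), (5, 1, [0])]⟩,
    ⟨[(0, 2), (1, 2), (2, 3)], [(1, 0), (2, 0), (2, 1), (2, 3), (3, 0)], [(0, 0), (0, 3)],
      [4], [(3, 0, [1, 3]), (4, 0, [1, 3]), (7, 3, [0])]⟩,
    ⟨[(2, 4)], [(2, 0), (3, 0), (4, 0), (4, 3)], [(0, 3)], [6], [(4, 0, [1, 3]), (7, 3,
      [0])]⟩,
    ⟨[(0, 2), (1, 2), (2, 3), (2, 4)], [(0, 0), (2, 0), (2, 1), (3, 1)], [(0, 1)], [7],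
      [(0, 0, [1, 3]), (5, 1, [0])]⟩]
  Ta := [((0, 1), 0, 2), ((0, 9), 0, 7), ((3, 2), 0, 4), ((4, 6), 0, 5), ((4, 8), 0, 6)]
  Tb := [((0, 1, 9), 0, 2, 7), ((1, 0, 2), 2, 0, 4), ((2, 1, 3), 4, 2, 0), ((2, 1, 7), 4, 2, 3),
    ((2, 3, 7), 4, 0, 3), ((4, 6, 8), 0, 5, 6), ((5, 6, 9), 1, 5, 7), ((6, 4, 5), 5, 0, 1),
    ((7, 2, 8), 3, 4, 6), ((8, 4, 7), 6, 0, 3), ((9, 0, 5), 7, 0, 1)]
  Tc := [(0, 1, 3)]
  Td := [((0, 1), (0, 1), 2), ((0, 1), (0, 9), 7), ((0, 1), (3, 2), 4), ((0, 1), (4, 6), 5), ((0,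
    1), (4, 8), 6), ((0, 3), (0, 1), 2), ((0, 3), (0, 9), 7), ((0, 3), (3, 2), 4), ((0, 3),
    (4, 6), 5), ((0, 3), (4, 8), 6), ((1, 0), (5, 6), 5), ((1, 0), (5, 9), 7), ((3, 0), (7,
    2), 4), ((3, 0), (7, 8), 6)]
  G := [[0, 0x61c1c1e6161c1ec214, 0xcccecc6a148cccecca6184c, 0x4441ccce88acccee1c1484e4181c,
    0xccceccce61ccce81c12], [0, 0x6161a1e61c1c1e6814, 0, 0x111e116a14111e11a618c4,
    0x11641111e81c11c41111e21ca2], [0, 0xa1c1c1ea1a1c1ec214, 0,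
    0x111e8448111e4111e111e6c111e111ea8c1c, 0x111e111e6116111e111eec111e8188cc12]]

noncomputable def n2823 : Ent := ⟨e2823, noF, [], [], [(15, 13, [1685356714993749094781261963711221120386310105559083432688080674817, 0])]⟩

def c2823 : PLift (Cov.check n2823.C.D v2823 = true) := ⟨by decide +kernel⟩

def b2823 : PLift (entF (fidx ts) 400 2823 n2823 = true) := ⟨by decide +kernel⟩

theorem g2823 : GoodF (fidx ts) 400 2823 := GoodF.ofV v2823 n2823 c2823.down b2823.down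

/-- 4594644:2252/3 -/
noncomputable def e2824 : SCfg where
  D := {
    a := 7
    L := 10
    kp := 7
    inn := [(0, 1), (0, 2), (1, 0), (1, 2), (2, 0), (2, 1), (2, 3), (2, 4), (2, 6), (3, 2), (4, 2), (4,
      5), (5, 4), (6, 2)]
    mix := [(0, 0), (0, 1), (1, 1), (1, 2), (1, 3), (2, 0), (2, 3), (2, 4), (2, 5), (3, 4), (3, 5), (3,
      6), (4, 3), (4, 4), (4, 7), (4, 8), (5, 4), (5, 6), (5, 8), (6, 0), (6, 5), (6, 9)]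
    cl := [0, 1, 5, 0, 0, 3, 2, 6, 4, 7]
    chq := [(0, 3), (0, 4), (3, 0), (4, 0)]
    rng := [(0, 1), (0, 9), (1, 0), (1, 2), (2, 1), (2, 3), (3, 2), (3, 7), (4, 6), (5, 6), (5, 9), (6,
      4), (6, 5), (6, 8), (7, 3), (7, 8), (8, 6), (8, 7), (9, 0), (9, 5)]
    lev := [] }
  links := [[1, 2, 7, 8], [2, 0, 8, 9, 10], [7, 0, 1, 10, 4, 11, 3, 12, 6], [12, 2, 11, 13], [11, 2, 10,
    14, 15, 5], [11, 4, 15, 13], [7, 2, 12, 16]]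
  P := {
    a := 7
    N := 17
    nb := [390, 1797, 7387, 14340, 52260, 43024, 69764, 65861, 643, 1282, 16918, 8252, 73804, 38952,
      33808, 24624, 4288]
    tri := [(0, 1, 2), (0, 1, 8), (0, 2, 7), (0, 7, 8), (1, 2, 10), (1, 8, 9), (1, 9, 10), (2, 3, 11),
      (2, 3, 12), (2, 4, 10), (2, 4, 11), (2, 6, 7), (2, 6, 12), (3, 11, 13), (3, 12, 13), (4, 5,
      11), (4, 5, 15), (4, 10, 14), (4, 14, 15), (5, 11, 13), (5, 13, 15), (6, 7, 16), (6, 12,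
      16)]
    fin := [0, 0, 0, 0, 0, 0, 0, 0, 8, 9, 0, 0, 12, 13, 14, 15, 16]
    chd := [(0, 12), (0, 15)]
    steps := [(0, 1), (0, 2), (0, 3), (0, 4), (0, 6), (0, 7), (0, 10), (0, 11), (0, 5)] }
  rep := [0, 8, 13, 12, 15, 9, 14, 16]

noncomputable def v2824 : Cov.CovD where
  P := 3
  N := 5
  pl := [1, 2, 6, 7, 9]
  lev := [⟨[], [], [], [1], [(0, 0, [3, 4])]⟩,
    ⟨[], [(0, 0)], [], [1, 5], [(3, 0, [3, 4])]⟩,
    ⟨[(0, 1)], [(0, 0), (0, 3), (1, 0), (1, 3)], [(0, 0), (0, 3)], [], [(0, 0, [3, 4]), (3,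
      0, [3, 4]), (4, 0, [3, 4]), (5, 3, [0])]⟩,
    ⟨[(0, 2), (1, 2)], [(2, 0), (2, 3)], [(0, 3)], [2], [(4, 0, [3, 4]), (5, 3, [0])]⟩,
    ⟨[(0, 2), (1, 2), (2, 3)], [(1, 0), (2, 0), (2, 3), (2, 4), (3, 0)], [(0, 0), (0, 4)],
      [6], [(3, 0, [3, 4]), (4, 0, [3, 4]), (8, 4, [0])]⟩,
    ⟨[(2, 4)], [(2, 0), (3, 0), (4, 0), (4, 4)], [(0, 4)], [2], [(4, 0, [3, 4]), (8, 4,
      [0])]⟩,
    ⟨[(0, 2), (1, 2), (2, 3), (2, 4)], [(0, 0), (2, 0), (2, 3), (3, 3)], [(0, 3)], [7],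
      [(0, 0, [3, 4]), (5, 3, [0])]⟩]
  Ta := [((0, 1), 0, 1), ((0, 9), 0, 7), ((3, 2), 0, 5), ((3, 7), 0, 6), ((4, 6), 0, 2)]
  Tb := [((0, 1, 9), 0, 1, 7), ((1, 0, 2), 1, 0, 5), ((2, 1, 3), 5, 1, 0), ((3, 2, 7), 0, 5, 6),
    ((5, 6, 9), 3, 2, 7), ((6, 4, 5), 2, 0, 3), ((6, 4, 8), 2, 0, 4), ((6, 5, 8), 2, 3, 4),
    ((7, 3, 8), 6, 0, 4), ((8, 6, 7), 4, 2, 6), ((9, 0, 5), 7, 0, 3)]
  Tc := [(0, 3, 4)]
  Td := [((0, 3), (0, 1), 1), ((0, 3), (0, 9), 7), ((0, 3), (3, 2), 5), ((0, 3), (3, 7), 6), ((0,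
    3), (4, 6), 2), ((0, 4), (0, 1), 1), ((0, 4), (0, 9), 7), ((0, 4), (3, 2), 5), ((0, 4),
    (3, 7), 6), ((0, 4), (4, 6), 2), ((3, 0), (5, 6), 2), ((3, 0), (5, 9), 7), ((4, 0), (8,
    6), 2), ((4, 0), (8, 7), 6)]
  G := [[0, 0x812a864c92212c1816ca8e4c1acc866ca14c4aac61212c844ca5ca6, 0,
    0x418e4eec658822ca1a881a686441ece14, 0xc881ce229812e8eeac96141216881c], [0, 0, 0,
    0x1411c6198882164d1e1885e712175c4cc1121814c5ac4,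
    0x1811a12e1a8a11d9e8611a411812a1a8d1ad14aec8], [0, 0, 0x141268188122a1814c2e14,
    0x54116d681888188683411cece14, 0x75a7268988122a5819ac2e14]]

noncomputable def n2824 : Ent := ⟨e2824, noF, [], [], [(9, 14, [1685382413448253767852309107433119732572617628602273068445376471041, 0])]⟩

def c2824 : PLift (Cov.check n2824.C.D v2824 = true) := ⟨by decide +kernel⟩

def b2824 : PLift (entF (fidx ts) 400 2824 n2824 = true) := ⟨by decide +kernel⟩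

theorem g2824 : GoodF (fidx ts) 400 2824 := GoodF.ofV v2824 n2824 c2824.down b2824.down

/-- 4594644:2252 -/
noncomputable def e2825 : SCfg where
  D := {
    a := 7
    L := 11
    kp := 8
    inn := [(0, 1), (0, 2), (1, 0), (1, 2), (2, 0), (2, 1), (2, 3), (2, 4), (2, 6), (3, 2), (4, 2), (4,
      5), (5, 4), (6, 2)]
    mix := [(0, 0), (0, 1), (1, 1), (1, 2), (1, 3), (2, 0), (2, 3), (2, 4), (2, 5), (3, 4), (3, 5), (3,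
      6), (4, 3), (4, 4), (4, 7), (4, 8), (5, 4), (5, 8), (5, 9), (6, 0), (6, 5), (6, 10)]
    cl := [0, 2, 4, 0, 0, 1, 5, 6, 3, 7, 8]
    chq := [(0, 1), (0, 3), (1, 0), (3, 0)]
    rng := [(0, 1), (0, 10), (1, 0), (1, 2), (2, 1), (2, 3), (3, 2), (3, 7), (4, 6), (4, 9), (5, 6),
      (5, 10), (6, 4), (6, 5), (7, 3), (7, 8), (8, 7), (8, 9), (9, 4), (9, 8), (10, 0), (10, 5)]
    lev := [] }
  links := [[1, 2, 7, 8], [2, 0, 8, 9, 10], [7, 0, 1, 10, 4, 11, 3, 12, 6], [12, 2, 11, 13], [11, 2, 10,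
    14, 15, 5], [11, 4, 15, 16], [7, 2, 12, 17]]
  P := {
    a := 7
    N := 18
    nb := [390, 1797, 7387, 14340, 52260, 100368, 135300, 131397, 643, 1282, 16918, 73788, 139340,
      6152, 33808, 81968, 34848, 4288]
    tri := [(0, 1, 2), (0, 1, 8), (0, 2, 7), (0, 7, 8), (1, 2, 10), (1, 8, 9), (1, 9, 10), (2, 3, 11),
      (2, 3, 12), (2, 4, 10), (2, 4, 11), (2, 6, 7), (2, 6, 12), (3, 11, 13), (3, 12, 13), (4, 5,
      11), (4, 5, 15), (4, 10, 14), (4, 14, 15), (5, 11, 16), (5, 15, 16), (6, 7, 17), (6, 12,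
      17)]
    fin := [0, 0, 0, 0, 0, 0, 0, 0, 8, 9, 0, 0, 12, 13, 14, 15, 16, 17]
    chd := [(0, 12), (0, 15)]
    steps := [(0, 1), (0, 2), (0, 3), (0, 4), (0, 5), (0, 6), (0, 7), (0, 10), (0, 11)] }
  rep := [0, 12, 8, 15, 9, 13, 14, 16, 17]

noncomputable def v2825 : Cov.CovD where
  P := 3
  N := 6
  pl := [1, 2, 6, 7, 9, 10]
  lev := [⟨[], [], [], [2], [(0, 0, [1, 3])]⟩,
    ⟨[], [(0, 0)], [], [2, 4], [(3, 0, [1, 3])]⟩,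
    ⟨[(0, 1)], [(0, 0), (0, 1), (1, 0), (1, 1)], [(0, 0), (0, 1)], [], [(0, 0, [1, 3]), (3,
      0, [1, 3]), (4, 0, [1, 3]), (5, 1, [0])]⟩,
    ⟨[(0, 2), (1, 2)], [(2, 0), (2, 1)], [(0, 1)], [5], [(4, 0, [1, 3]), (5, 1, [0])]⟩,
    ⟨[(0, 2), (1, 2), (2, 3)], [(1, 0), (2, 0), (2, 1), (2, 3), (3, 0)], [(0, 0), (0, 3)],
      [6], [(3, 0, [1, 3]), (4, 0, [1, 3]), (8, 3, [0])]⟩,
    ⟨[(2, 4)], [(2, 0), (3, 0), (4, 0), (4, 3)], [(0, 3)], [7], [(4, 0, [1, 3]), (8, 3,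
      [0])]⟩,
    ⟨[(0, 2), (1, 2), (2, 3), (2, 4)], [(0, 0), (2, 0), (2, 1), (3, 1)], [(0, 1)], [8],
      [(0, 0, [1, 3]), (5, 1, [0])]⟩]
  Ta := [((0, 1), 0, 2), ((0, 10), 0, 8), ((3, 2), 0, 4), ((3, 7), 0, 6), ((4, 6), 0, 5), ((4,
    9), 0, 7)]
  Tb := [((0, 1, 10), 0, 2, 8), ((1, 0, 2), 2, 0, 4), ((2, 1, 3), 4, 2, 0), ((3, 2, 7), 0, 4, 6),
    ((4, 6, 9), 0, 5, 7), ((5, 6, 10), 1, 5, 8), ((6, 4, 5), 5, 0, 1), ((7, 3, 8), 6, 0, 3),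
    ((8, 7, 9), 3, 6, 7), ((9, 4, 8), 7, 0, 3), ((10, 0, 5), 8, 0, 1)]
  Tc := [(0, 1, 3)]
  Td := [((0, 1), (0, 1), 2), ((0, 1), (0, 10), 8), ((0, 1), (3, 2), 4), ((0, 1), (3, 7), 6),
    ((0, 1), (4, 6), 5), ((0, 1), (4, 9), 7), ((0, 3), (0, 1), 2), ((0, 3), (0, 10), 8), ((0,
    3), (3, 2), 4), ((0, 3), (3, 7), 6), ((0, 3), (4, 6), 5), ((0, 3), (4, 9), 7), ((1, 0),
    (5, 6), 5), ((1, 0), (5, 10), 8), ((3, 0), (8, 7), 6), ((3, 0), (8, 9), 7)]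
  G := [[0, 0x6161661c161e618e814, 0x4181c8441441c1cccce2d888e81cccce41cccecccea1ce2,
    0x4441cccecccea1c1c8ce4181c, 0xccceccce61ccce81c12], [0, 0x61a161ec1a1c1ea418, 0,
    0x118844111e111e61111e81c118111e111e658cc, 0x111e111e61111e81c1144114111e111ea9ca2], [0,
    0x61c161e61c1a1e6814, 0, 0x111e8111e111eac41111e111e6111e4c81c,
    0x111e111e6116111e111eec111e8188cc12]]

noncomputable def n2825 : Ent := ⟨e2825, noF, [], [], [(9, 14, [7334790875878422277917280412776772662961875900559637987928627381039105, 0]), (16, 13, [7334685537894576317792898128369202883340578364357296604626079808782337, 0])]⟩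

def c2825 : PLift (Cov.check n2825.C.D v2825 = true) := ⟨by decide +kernel⟩

def b2825 : PLift (entF (fidx ts) 400 2825 n2825 = true) := ⟨by decide +kernel⟩

theorem g2825 : GoodF (fidx ts) 400 2825 := GoodF.ofV v2825 n2825 c2825.down b2825.down

/-- 4647664:2255/2 -/
noncomputable def e2826 : SCfg where
  D := {
    a := 7
    L := 9
    kp := 6
    inn := [(0, 1), (1, 0), (1, 2), (1, 3), (2, 1), (2, 3), (3, 1), (3, 2), (3, 4), (3, 5), (4, 3), (4,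
      5), (4, 6), (5, 3), (5, 4), (6, 4)]
    mix := [(0, 0), (0, 1), (0, 2), (1, 0), (1, 2), (1, 3), (2, 2), (2, 4), (3, 3), (3, 4), (3, 5), (4,
      3), (4, 6), (4, 7), (5, 1), (5, 5), (5, 6), (5, 8), (6, 0), (6, 3), (6, 7)]
    cl := [1, 2, 3, 0, 4, 0, 0, 5, 6]
    chq := [(1, 3), (1, 4), (3, 1), (4, 1)]
    rng := [(0, 1), (0, 3), (0, 7), (1, 0), (1, 2), (1, 5), (1, 8), (2, 1), (2, 4), (3, 0), (4, 2), (4,
      5), (5, 1), (5, 4), (6, 7), (6, 8), (7, 0), (7, 6), (8, 1), (8, 6)]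
    lev := [] }
  links := [[1, 7, 8, 9], [7, 0, 9, 2, 3, 10], [3, 1, 9, 11], [10, 1, 2, 11, 12, 5, 4], [10, 3, 5, 13,
    14, 6], [13, 4, 3, 12, 8, 15], [10, 4, 14, 7]]
  P := {
    a := 7
    N := 16
    nb := [898, 1677, 2570, 7222, 25704, 45336, 17552, 17731, 37537, 2311, 218, 4620, 2344, 49200,
      8400, 8480]
    tri := [(0, 1, 7), (0, 1, 9), (0, 7, 8), (0, 8, 9), (1, 2, 3), (1, 2, 9), (1, 3, 10), (1, 7, 10),
      (2, 3, 11), (2, 9, 11), (3, 4, 5), (3, 4, 10), (3, 5, 12), (3, 11, 12), (4, 5, 13), (4, 6,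
      10), (4, 6, 14), (4, 13, 14), (5, 8, 12), (5, 8, 15), (5, 13, 15), (6, 7, 10), (6, 7, 14)]
    fin := [0, 0, 0, 3, 3, 5, 0, 0, 5, 9, 3, 11, 3, 3, 14, 15]
    chd := [(0, 9), (0, 11)]
    steps := [(0, 1), (0, 2), (0, 7), (0, 6), (3, 12), (3, 10), (3, 4), (3, 13), (5, 8)] }
  rep := [3, 0, 5, 9, 11, 14, 15]

noncomputable def v2826 : Cov.CovD where
  P := 3
  N := 4
  pl := [1, 7, 8]
  lev := [⟨[], [], [(1, 3)], [2], [(0, 1, [3, 4]), (2, 3, [1])]⟩,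
    ⟨[], [(0, 0), (0, 1), (0, 3)], [(0, 1), (0, 3), (1, 3)], [], [(0, 1, [3, 4]), (2, 3,
      [1]), (3, 0, [])]⟩,
    ⟨[(0, 1)], [(0, 3), (1, 0), (1, 1), (1, 3), (1, 4)], [(3, 4)], [], [(2, 3, [1]), (4, 4,
      [1])]⟩,
    ⟨[(0, 1), (1, 2)], [(1, 0), (1, 1), (1, 3), (1, 4), (2, 0), (2, 3), (2, 4)], [(0, 0),
      (0, 4)], [], [(3, 0, []), (4, 4, [1]), (5, 0, [])]⟩,
    ⟨[(1, 3), (2, 3)], [(1, 0), (3, 0), (3, 4)], [(0, 0)], [5], [(3, 0, []), (6, 0, [])]⟩,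
    ⟨[(1, 3), (2, 3), (3, 4)], [(3, 0), (3, 4), (4, 0)], [(0, 0)], [2, 6], [(5, 0, []), (6,
      0, [])]⟩,
    ⟨[(3, 4), (4, 5)], [(0, 1), (1, 0), (1, 1), (3, 0), (4, 0), (4, 1)], [(0, 1)], [5],
      [(0, 1, [3, 4]), (3, 0, [])]⟩]
  Ta := [((3, 0), 0, 1), ((5, 1), 0, 2), ((5, 4), 0, 4), ((6, 7), 0, 5), ((6, 8), 0, 6)]
  Tb := [((0, 1, 3), 1, 2, 0), ((0, 1, 7), 1, 2, 5), ((0, 3, 7), 1, 0, 5), ((1, 0, 2), 2, 1, 3),
    ((1, 0, 5), 2, 1, 0), ((1, 0, 8), 2, 1, 6), ((1, 2, 5), 2, 3, 0), ((1, 2, 8), 2, 3, 6),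
    ((1, 5, 8), 2, 0, 6), ((2, 1, 4), 3, 2, 4), ((4, 2, 5), 4, 3, 0), ((5, 1, 4), 0, 2, 4),
    ((6, 7, 8), 0, 5, 6), ((7, 0, 6), 5, 1, 0), ((8, 1, 6), 6, 2, 0)]
  Tc := [(1, 3, 4)]
  Td := [((1, 3), (0, 1), 2), ((1, 3), (0, 3), 0), ((1, 3), (0, 7), 5), ((1, 4), (0, 1), 2), ((1,
    4), (0, 3), 0), ((1, 4), (0, 7), 5), ((3, 1), (2, 1), 2), ((3, 1), (2, 4), 4), ((4, 1),
    (4, 2), 3), ((4, 1), (4, 5), 0)]
  G := [[0, 0x44c22ca22c4acc618448822ce28c42cca14c, 0, 0xc4c28486c4c223c4c228cccc22149,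
    0x82cca648462824288e28cc2228a44a88e6149], [0, 0, 0x11c41cc21811c11cc214c,
    0x11c41cc22811c11cc224c, 0x1211a6188621211a682c11a2828188e11a42349], [0, 0, 0,
    0x18c41cc2249cc22185, 0x8251a64846218a12c28cc2218a41ac6149]]

noncomputable def n2826 : Ent := ⟨e2826, noF, [], [], []⟩

def c2826 : PLift (Cov.check n2826.C.D v2826 = true) := ⟨by decide +kernel⟩

def b2826 : PLift (entF (fidx ts) 400 2826 n2826 = true) := ⟨by decide +kernel⟩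

theorem g2826 : GoodF (fidx ts) 400 2826 := GoodF.ofV v2826 n2826 c2826.down b2826.down

/-- 4647664:2255/3 -/
noncomputable def e2827 : SCfg where
  D := {
    a := 7
    L := 9
    kp := 6
    inn := [(0, 1), (1, 0), (1, 2), (1, 3), (2, 1), (2, 3), (3, 1), (3, 2), (3, 4), (3, 5), (4, 3), (4,
      5), (4, 6), (5, 3), (5, 4), (6, 4)]
    mix := [(0, 0), (0, 1), (0, 2), (1, 0), (1, 2), (1, 3), (2, 2), (2, 4), (3, 3), (3, 4), (3, 5), (4,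
      3), (4, 6), (4, 7), (5, 1), (5, 5), (5, 6), (5, 8), (6, 0), (6, 3), (6, 7)]
    cl := [2, 4, 3, 0, 0, 1, 1, 5, 6]
    chq := [(0, 4), (1, 2), (2, 1), (4, 0)]
    rng := [(0, 1), (0, 3), (0, 7), (1, 0), (1, 2), (1, 6), (1, 8), (2, 1), (2, 4), (3, 0), (4, 2), (4,
      5), (5, 4), (5, 8), (6, 1), (6, 7), (7, 0), (7, 6), (8, 1), (8, 5)]
    lev := [] }
  links := [[1, 7, 8, 9], [7, 0, 9, 2, 3, 10], [3, 1, 9, 11], [10, 1, 2, 11, 12, 5, 4], [10, 3, 5, 13,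
    14, 6], [13, 4, 3, 12, 15, 8], [10, 4, 14, 7]]
  P := {
    a := 7
    N := 16
    nb := [898, 1677, 2570, 7222, 25704, 45336, 17552, 17731, 41633, 2311, 218, 4620, 34856, 16688,
      8400, 4384]
    tri := [(0, 1, 7), (0, 1, 9), (0, 7, 8), (0, 8, 9), (1, 2, 3), (1, 2, 9), (1, 3, 10), (1, 7, 10),
      (2, 3, 11), (2, 9, 11), (3, 4, 5), (3, 4, 10), (3, 5, 12), (3, 11, 12), (4, 5, 13), (4, 6,
      10), (4, 6, 14), (4, 13, 14), (5, 8, 13), (5, 8, 15), (5, 12, 15), (6, 7, 10), (6, 7, 14)]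
    fin := [0, 1, 1, 3, 3, 0, 6, 6, 0, 9, 1, 1, 3, 3, 14, 15]
    chd := [(0, 1), (6, 3)]
    steps := [(0, 8), (0, 5), (1, 2), (1, 11), (1, 10), (3, 4), (3, 12), (3, 13), (6, 7)] }
  rep := [1, 3, 6, 9, 0, 14, 15]

noncomputable def v2827 : Cov.CovD where
  P := 3
  N := 4
  pl := [2, 7, 8]
  lev := [⟨[], [], [(2, 4)], [3], [(0, 2, [1]), (1, 4, [0])]⟩,
    ⟨[], [(0, 0), (0, 2), (0, 4)], [(0, 2)], [3], [(0, 2, [1]), (3, 0, [4])]⟩,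
    ⟨[(0, 1)], [(1, 0), (1, 2)], [], [3], [(4, 0, [4])]⟩,
    ⟨[(0, 1), (1, 2)], [(1, 0), (1, 1), (1, 2), (2, 0), (2, 1)], [(0, 0), (0, 1)], [], [(3,
      0, [4]), (4, 0, [4]), (5, 1, [2])]⟩,
    ⟨[(1, 3), (2, 3)], [(1, 0), (3, 0), (3, 1)], [(0, 1)], [5], [(3, 0, [4]), (6, 1, [2])]⟩,
    ⟨[(1, 3), (2, 3), (3, 4)], [(0, 4), (3, 0), (3, 1), (3, 4), (4, 0), (4, 1), (4, 4)],
      [(1, 1), (1, 4)], [6], [(1, 4, [0]), (5, 1, [2]), (6, 1, [2])]⟩,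
    ⟨[(3, 4), (4, 5)], [(0, 2), (1, 0), (1, 2), (3, 0), (4, 0), (4, 1), (4, 2)], [(0, 2)],
      [5], [(0, 2, [1]), (3, 0, [4])]⟩]
  Ta := [((3, 0), 0, 2), ((4, 2), 0, 3), ((4, 5), 0, 1), ((5, 4), 1, 0), ((5, 8), 1, 6), ((6, 1),
    1, 4), ((6, 7), 1, 5)]
  Tb := [((0, 1, 3), 2, 4, 0), ((0, 1, 7), 2, 4, 5), ((0, 3, 7), 2, 0, 5), ((1, 0, 2), 4, 2, 3),
    ((1, 0, 6), 4, 2, 1), ((1, 0, 8), 4, 2, 6), ((1, 2, 6), 4, 3, 1), ((1, 2, 8), 4, 3, 6),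
    ((1, 6, 8), 4, 1, 6), ((2, 1, 4), 3, 4, 0), ((4, 2, 5), 0, 3, 1), ((5, 4, 8), 1, 0, 6),
    ((6, 1, 7), 1, 4, 5), ((7, 0, 6), 5, 2, 1), ((8, 1, 5), 6, 4, 1)]
  Tc := []
  Td := [((0, 4), (3, 0), 2), ((0, 4), (4, 2), 3), ((0, 4), (4, 5), 1), ((1, 2), (5, 4), 0), ((1,
    2), (5, 8), 6), ((1, 2), (6, 1), 4), ((1, 2), (6, 7), 5), ((2, 1), (0, 1), 4), ((2, 1),
    (0, 3), 0), ((2, 1), (0, 7), 5), ((4, 0), (1, 0), 2), ((4, 0), (1, 2), 3), ((4, 0), (1,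
    6), 1), ((4, 0), (1, 8), 6)]
  G := [[0, 0, 0x284c9a418cc52418cccd2812e, 0x222d222dc24cccd28161,
    0x2442298856c12244222d229cc183], [0, 0, 0x229449c218885245c214424d4288d8c12e,
    0x228d422dc28cccd284c1, 0x288da29c24468a22d4288d8c2a1], [0, 0x111e411ec28414e811e684c1,
    0, 0xc95d2488c95d28443, 0x2299856842999d24883], [0, 0, 0, 0x188d411dc2885c5d28443,
    0x189219c4281182524d842281d122dc2882c22c582ab]]

noncomputable def n2827 : Ent := ⟨e2827, noF, [], [], []⟩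

def c2827 : PLift (Cov.check n2827.C.D v2827 = true) := ⟨by decide +kernel⟩

def b2827 : PLift (entF (fidx ts) 400 2827 n2827 = true) := ⟨by decide +kernel⟩

theorem g2827 : GoodF (fidx ts) 400 2827 := GoodF.ofV v2827 n2827 c2827.down b2827.down

/-- 4647664:2255/4 -/
noncomputable def e2828 : SCfg where
  D := {
    a := 7
    L := 9
    kp := 6
    inn := [(0, 1), (1, 0), (1, 2), (1, 3), (2, 1), (2, 3), (3, 1), (3, 2), (3, 4), (3, 5), (4, 3), (4,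
      5), (4, 6), (5, 3), (5, 4), (6, 4)]
    mix := [(0, 0), (0, 1), (0, 2), (1, 0), (1, 2), (1, 3), (2, 2), (2, 4), (3, 3), (3, 4), (3, 5), (4,
      1), (4, 3), (4, 6), (5, 5), (5, 6), (5, 7), (5, 8), (6, 0), (6, 1), (6, 3)]
    cl := [4, 2, 1, 0, 0, 3, 3, 5, 6]
    chq := [(1, 4), (3, 4), (4, 1), (4, 3)]
    rng := [(0, 1), (0, 3), (1, 0), (1, 2), (1, 6), (2, 1), (2, 4), (3, 0), (4, 2), (4, 5), (5, 4), (5,
      7), (6, 1), (6, 8), (7, 5), (7, 8), (8, 6), (8, 7)]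
    lev := [] }
  links := [[1, 7, 8, 9], [7, 0, 9, 2, 3, 10], [3, 1, 9, 11], [10, 1, 2, 11, 12, 5, 4], [10, 3, 5, 13, 8,
    6], [13, 4, 3, 12, 14, 15], [10, 4, 8, 7]]
  P := {
    a := 7
    N := 16
    nb := [898, 1677, 2570, 7222, 9576, 61464, 1424, 1347, 8913, 2311, 218, 4620, 18472, 33072, 36896,
      24608]
    tri := [(0, 1, 7), (0, 1, 9), (0, 7, 8), (0, 8, 9), (1, 2, 3), (1, 2, 9), (1, 3, 10), (1, 7, 10),
      (2, 3, 11), (2, 9, 11), (3, 4, 5), (3, 4, 10), (3, 5, 12), (3, 11, 12), (4, 5, 13), (4, 6,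
      8), (4, 6, 10), (4, 8, 13), (5, 12, 14), (5, 13, 15), (5, 14, 15), (6, 7, 8), (6, 7, 10)]
    fin := [0, 0, 0, 3, 0, 5, 0, 0, 8, 9, 3, 3, 5, 5, 14, 15]
    chd := [(0, 5), (0, 9)]
    steps := [(0, 1), (0, 2), (0, 7), (0, 6), (3, 11), (3, 10), (0, 4), (5, 12), (5, 13)] }
  rep := [3, 9, 8, 5, 0, 14, 15]

noncomputable def v2828 : Cov.CovD where
  P := 3
  N := 4
  pl := [1, 7, 8]
  lev := [⟨[], [], [(1, 4)], [2], [(0, 4, [1, 3]), (2, 1, [4])]⟩,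
    ⟨[], [(0, 0), (0, 1), (0, 4)], [(0, 1), (0, 4), (1, 4)], [], [(0, 4, [1, 3]), (2, 1,
      [4]), (3, 0, [])]⟩,
    ⟨[(0, 1)], [(0, 1), (1, 0), (1, 1), (1, 4)], [(0, 1)], [], [(2, 1, [4]), (4, 0, [])]⟩,
    ⟨[(0, 1), (1, 2)], [(1, 0), (1, 1), (1, 3), (1, 4), (2, 0), (2, 1), (2, 3)], [(0, 0),
      (0, 3)], [], [(3, 0, []), (4, 0, []), (5, 3, [4])]⟩,
    ⟨[(1, 3), (2, 3)], [(1, 0), (3, 0), (3, 3)], [(0, 3)], [2], [(3, 0, []), (6, 3, [4])]⟩,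
    ⟨[(1, 3), (2, 3), (3, 4)], [(3, 0), (3, 3), (4, 0), (4, 3)], [(3, 3)], [5, 6], [(5, 3,
      [4]), (6, 3, [4])]⟩,
    ⟨[(3, 4), (4, 5)], [(0, 4), (1, 0), (1, 4), (3, 0), (4, 0), (4, 3), (4, 4)], [(0, 4)],
      [2], [(0, 4, [1, 3]), (3, 0, [])]⟩]
  Ta := [((3, 0), 0, 4), ((4, 2), 0, 1), ((4, 5), 0, 3), ((5, 4), 3, 0), ((5, 7), 3, 5), ((6, 1),
    3, 2), ((6, 8), 3, 6)]
  Tb := [((0, 1, 3), 4, 2, 0), ((1, 0, 2), 2, 4, 1), ((1, 0, 6), 2, 4, 3), ((1, 2, 6), 2, 1, 3),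
    ((2, 1, 4), 1, 2, 0), ((4, 2, 5), 0, 1, 3), ((5, 4, 7), 3, 0, 5), ((6, 1, 8), 3, 2, 6),
    ((7, 5, 8), 5, 3, 6), ((8, 6, 7), 6, 3, 5)]
  Tc := [(4, 1, 3)]
  Td := [((1, 4), (2, 1), 2), ((1, 4), (2, 4), 0), ((3, 4), (5, 4), 0), ((3, 4), (5, 7), 5), ((3,
    4), (6, 1), 2), ((3, 4), (6, 8), 6), ((4, 1), (0, 1), 2), ((4, 1), (0, 3), 0), ((4, 3),
    (0, 1), 2), ((4, 3), (0, 3), 0)]
  G := [[0, 0, 0x2222f84182222f4814c, 0x8888f42484444f82149, 0x8888f24182484a222b8c149], [0, 0,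
    0x2822f42182244f8284c, 0x8888f42184444f8284c, 0x282d8887a4182222f82849], [0,
    0x1818f42481811f4842c, 0x2222f84812222f4841c, 0x8111f4241111f828c1,
    0x2222f84811111f28449], [0, 0x11888e52484114f8284c, 0x2222f42412242f8481c,
    0x1117424111b828c1, 0x2111822eb241121f828c1]]

noncomputable def n2828 : Ent := ⟨e2828, noF, [], [], []⟩

def c2828 : PLift (Cov.check n2828.C.D v2828 = true) := ⟨by decide +kernel⟩

def b2828 : PLift (entF (fidx ts) 400 2828 n2828 = true) := ⟨by decide +kernel⟩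

theorem g2828 : GoodF (fidx ts) 400 2828 := GoodF.ofV v2828 n2828 c2828.down b2828.down

/-- 4647664:2255/1 -/
noncomputable def e2829 : SCfg where
  D := {
    a := 7
    L := 10
    kp := 7
    inn := [(0, 1), (1, 0), (1, 2), (1, 3), (2, 1), (2, 3), (3, 1), (3, 2), (3, 4), (3, 5), (4, 3), (4,
      5), (4, 6), (5, 3), (5, 4), (6, 4)]
    mix := [(0, 0), (0, 1), (0, 2), (1, 0), (1, 2), (1, 3), (2, 2), (2, 4), (3, 3), (3, 4), (3, 5), (4,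
      3), (4, 6), (4, 7), (5, 5), (5, 6), (5, 8), (5, 9), (6, 0), (6, 3), (6, 7)]
    cl := [1, 5, 3, 0, 2, 0, 0, 4, 6, 7]
    chq := [(1, 2), (1, 3), (2, 1), (3, 1)]
    rng := [(0, 1), (0, 3), (0, 7), (1, 0), (1, 2), (2, 1), (2, 4), (3, 0), (4, 2), (4, 5), (5, 4), (5,
      8), (6, 7), (6, 9), (7, 0), (7, 6), (8, 5), (8, 9), (9, 6), (9, 8)]
    lev := [] }
  links := [[1, 7, 8, 9], [7, 0, 9, 2, 3, 10], [3, 1, 9, 11], [10, 1, 2, 11, 12, 5, 4], [10, 3, 5, 13,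
    14, 6], [13, 4, 3, 12, 15, 16], [10, 4, 14, 7]]
  P := {
    a := 7
    N := 17
    nb := [898, 1677, 2570, 7222, 25704, 110616, 17552, 17731, 641, 2311, 218, 4620, 34856, 81968,
      8400, 69664, 40992]
    tri := [(0, 1, 7), (0, 1, 9), (0, 7, 8), (0, 8, 9), (1, 2, 3), (1, 2, 9), (1, 3, 10), (1, 7, 10),
      (2, 3, 11), (2, 9, 11), (3, 4, 5), (3, 4, 10), (3, 5, 12), (3, 11, 12), (4, 5, 13), (4, 6,
      10), (4, 6, 14), (4, 13, 14), (5, 12, 15), (5, 13, 16), (5, 15, 16), (6, 7, 10), (6, 7, 14)]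
    fin := [0, 0, 0, 0, 4, 4, 0, 0, 8, 9, 4, 11, 4, 4, 14, 15, 16]
    chd := [(0, 9), (0, 11)]
    steps := [(0, 1), (0, 2), (0, 3), (0, 7), (4, 5), (4, 12), (4, 13), (4, 10), (0, 6)] }
  rep := [4, 0, 11, 9, 14, 8, 15, 16]

noncomputable def v2829 : Cov.CovD where
  P := 3
  N := 5
  pl := [1, 7, 8, 9]
  lev := [⟨[], [], [(1, 3)], [5], [(0, 1, [2, 3]), (2, 3, [1])]⟩,
    ⟨[], [(0, 0), (0, 1), (0, 3)], [(0, 1), (0, 3), (1, 3)], [], [(0, 1, [2, 3]), (2, 3,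
      [1]), (3, 0, [])]⟩,
    ⟨[(0, 1)], [(0, 3), (1, 0), (1, 1), (1, 2), (1, 3)], [(2, 3)], [], [(2, 3, [1]), (4, 2,
      [1])]⟩,
    ⟨[(0, 1), (1, 2)], [(1, 0), (1, 1), (1, 2), (1, 3), (2, 0), (2, 2), (2, 3)], [(0, 0),
      (0, 2)], [], [(3, 0, []), (4, 2, [1]), (5, 0, [])]⟩,
    ⟨[(1, 3), (2, 3)], [(1, 0), (3, 0), (3, 2)], [(0, 0)], [4], [(3, 0, []), (6, 0, [])]⟩,
    ⟨[(1, 3), (2, 3), (3, 4)], [(3, 0), (3, 2), (4, 0)], [(0, 0)], [6, 7], [(5, 0, []), (6,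
      0, [])]⟩,
    ⟨[(3, 4), (4, 5)], [(0, 1), (1, 0), (1, 1), (3, 0), (4, 0), (4, 1)], [(0, 1)], [4],
      [(0, 1, [2, 3]), (3, 0, [])]⟩]
  Ta := [((3, 0), 0, 1), ((5, 4), 0, 2), ((5, 8), 0, 6), ((6, 7), 0, 4), ((6, 9), 0, 7)]
  Tb := [((0, 1, 3), 1, 5, 0), ((0, 1, 7), 1, 5, 4), ((0, 3, 7), 1, 0, 4), ((1, 0, 2), 5, 1, 3),
    ((2, 1, 4), 3, 5, 2), ((4, 2, 5), 2, 3, 0), ((5, 4, 8), 0, 2, 6), ((6, 7, 9), 0, 4, 7),
    ((7, 0, 6), 4, 1, 0), ((8, 5, 9), 6, 0, 7), ((9, 6, 8), 7, 0, 6)]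
  Tc := [(1, 2, 3)]
  Td := [((1, 2), (0, 1), 5), ((1, 2), (0, 3), 0), ((1, 2), (0, 7), 4), ((1, 3), (0, 1), 5), ((1,
    3), (0, 3), 0), ((1, 3), (0, 7), 4), ((2, 1), (4, 2), 3), ((2, 1), (4, 5), 0), ((3, 1),
    (2, 1), 5), ((3, 1), (2, 4), 2)]
  G := [[0, 0x488e244ea418484e828e6814484e228e6812e, 0, 0xccce242ccce284c2,
    0x8448c2824284ce23824284ce28c488e8cce682488644a84ce2188644a84ce21cd], [0, 0,
    0x8411a111ee428414e181e682411c11a116e48114e111e684cd, 0x111e248111e284c2,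
    0x11c11cc21212c234212682c11618114ee824481e1211ce21411e111e682cd], [0, 0, 0,
    0x599e2485c9e282c2, 0x18c41cc21242c238212c28c484e811e682412484e81ce21188e411ec21cd]]

noncomputable def n2829 : Ent := ⟨e2829, noF, [], [], [(8, 15, [1685356702439545624007900436039642273970977273354372543760011665409, 0]), (8, 16, [1580044410770988437309982408355971841652082177953823432505700691969, 0]), (8, 14, [1685382413448253767852309107433119732572617628602273068445376495617, 0])]⟩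

def c2829 : PLift (Cov.check n2829.C.D v2829 = true) := ⟨by decide +kernel⟩

def b2829 : PLift (entF (fidx ts) 400 2829 n2829 = true) := ⟨by decide +kernel⟩

theorem g2829 : GoodF (fidx ts) 400 2829 := GoodF.ofV v2829 n2829 c2829.down b2829.down

/-- 4647664:2255/5 -/
noncomputable def e2830 : SCfg where
  D := {
    a := 7
    L := 10
    kp := 7
    inn := [(0, 1), (1, 0), (1, 2), (1, 3), (2, 1), (2, 3), (3, 1), (3, 2), (3, 4), (3, 5), (4, 3), (4,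
      5), (4, 6), (5, 3), (5, 4), (6, 4)]
    mix := [(0, 0), (0, 1), (0, 2), (1, 0), (1, 2), (1, 3), (2, 2), (2, 4), (3, 3), (3, 4), (3, 5), (4,
      3), (4, 6), (4, 7), (5, 1), (5, 5), (5, 6), (5, 8), (6, 3), (6, 7), (6, 9)]
    cl := [1, 2, 3, 0, 4, 0, 0, 5, 6, 7]
    chq := [(1, 3), (1, 4), (3, 1), (4, 1)]
    rng := [(0, 1), (0, 3), (1, 0), (1, 2), (1, 5), (1, 8), (2, 1), (2, 4), (3, 0), (3, 9), (4, 2), (4,
      5), (5, 1), (5, 4), (6, 7), (6, 8), (7, 6), (7, 9), (8, 1), (8, 6), (9, 3), (9, 7)]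
    lev := [] }
  links := [[1, 7, 8, 9], [7, 0, 9, 2, 3, 10], [3, 1, 9, 11], [10, 1, 2, 11, 12, 5, 4], [10, 3, 5, 13,
    14, 6], [13, 4, 3, 12, 8, 15], [10, 4, 14, 16]]
  P := {
    a := 7
    N := 17
    nb := [898, 1677, 2570, 7222, 25704, 45336, 82960, 1283, 37537, 2311, 65754, 4620, 2344, 49200,
      73808, 8480, 17472]
    tri := [(0, 1, 7), (0, 1, 9), (0, 7, 8), (0, 8, 9), (1, 2, 3), (1, 2, 9), (1, 3, 10), (1, 7, 10),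
      (2, 3, 11), (2, 9, 11), (3, 4, 5), (3, 4, 10), (3, 5, 12), (3, 11, 12), (4, 5, 13), (4, 6,
      10), (4, 6, 14), (4, 13, 14), (5, 8, 12), (5, 8, 15), (5, 13, 15), (6, 10, 16), (6, 14, 16)]
    fin := [0, 0, 0, 0, 4, 4, 4, 0, 8, 9, 4, 11, 4, 4, 14, 15, 16]
    chd := [(0, 9), (0, 11)]
    steps := [(0, 1), (0, 2), (0, 3), (0, 7), (4, 5), (4, 6), (4, 12), (4, 13), (4, 10)] }
  rep := [4, 0, 8, 9, 11, 14, 15, 16]

noncomputable def v2830 : Cov.CovD where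
  P := 3
  N := 5
  pl := [1, 7, 8, 9]
  lev := [⟨[], [], [(1, 3)], [2], [(0, 1, [3, 4]), (2, 3, [1])]⟩,
    ⟨[], [(0, 0), (0, 1), (0, 3)], [(0, 1), (0, 3), (1, 3)], [], [(0, 1, [3, 4]), (2, 3,
      [1]), (3, 0, [])]⟩,
    ⟨[(0, 1)], [(0, 3), (1, 0), (1, 1), (1, 3), (1, 4)], [(3, 4)], [], [(2, 3, [1]), (4, 4,
      [1])]⟩,
    ⟨[(0, 1), (1, 2)], [(1, 0), (1, 1), (1, 3), (1, 4), (2, 0), (2, 3), (2, 4)], [(0, 0),
      (0, 4)], [], [(3, 0, []), (4, 4, [1]), (5, 0, [])]⟩,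
    ⟨[(1, 3), (2, 3)], [(1, 0), (3, 0), (3, 4)], [(0, 0)], [5], [(3, 0, []), (6, 0, [])]⟩,
    ⟨[(1, 3), (2, 3), (3, 4)], [(3, 0), (3, 4), (4, 0)], [(0, 0)], [2, 6], [(5, 0, []), (6,
      0, [])]⟩,
    ⟨[(3, 4), (4, 5)], [(1, 0), (3, 0), (4, 0)], [], [5, 7], [(3, 0, [])]⟩]
  Ta := [((3, 0), 0, 1), ((3, 9), 0, 7), ((5, 1), 0, 2), ((5, 4), 0, 4), ((6, 7), 0, 5), ((6, 8),
    0, 6)]
  Tb := [((0, 1, 3), 1, 2, 0), ((1, 0, 2), 2, 1, 3), ((1, 0, 5), 2, 1, 0), ((1, 0, 8), 2, 1, 6),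
    ((1, 2, 5), 2, 3, 0), ((1, 2, 8), 2, 3, 6), ((1, 5, 8), 2, 0, 6), ((2, 1, 4), 3, 2, 4),
    ((3, 0, 9), 0, 1, 7), ((4, 2, 5), 4, 3, 0), ((5, 1, 4), 0, 2, 4), ((6, 7, 8), 0, 5, 6),
    ((7, 6, 9), 5, 0, 7), ((8, 1, 6), 6, 2, 0), ((9, 3, 7), 7, 0, 5)]
  Tc := [(1, 3, 4)]
  Td := [((1, 3), (0, 1), 2), ((1, 3), (0, 3), 0), ((1, 4), (0, 1), 2), ((1, 4), (0, 3), 0), ((3,
    1), (2, 1), 2), ((3, 1), (2, 4), 4), ((4, 1), (4, 2), 3), ((4, 1), (4, 5), 0)]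
  G := [[0, 0x4cc88e6ce2ece2c84ce61844c8caece2ece2c84cea14c, 0,
    0x84c242ece2c84ce23884c22ece2cca84c2234c,
    0x6eaa2ac4ae422aae6a88e28c22e288ae2aae6a88ea149], [0, 0, 0x11c11cc21811c11cc214c,
    0x11c11cc22811c11cc224c, 0x11a11ac188621211a682c11a211a8c11a42349], [0, 0, 0,
    0x15c63cc22811c6bcc224c, 0xb1a1da6423218a9ae82cc212a1aad1ac6149]]

noncomputable def n2830 : Ent := ⟨e2830, noF, [], [], [(7, 16, [1580044410770988437309982408355971841652082177953823432505700687873, 0])]⟩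

def c2830 : PLift (Cov.check n2830.C.D v2830 = true) := ⟨by decide +kernel⟩

def b2830 : PLift (entF (fidx ts) 400 2830 n2830 = true) := ⟨by decide +kernel⟩

theorem g2830 : GoodF (fidx ts) 400 2830 := GoodF.ofV v2830 n2830 c2830.down b2830.down

/-- 4647664:2255/6 -/
noncomputable def e2831 : SCfg where
  D := {
    a := 7
    L := 10
    kp := 7
    inn := [(0, 1), (1, 0), (1, 2), (1, 3), (2, 1), (2, 3), (3, 1), (3, 2), (3, 4), (3, 5), (4, 3), (4,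
      5), (4, 6), (5, 3), (5, 4), (6, 4)]
    mix := [(0, 0), (0, 1), (0, 2), (1, 0), (1, 2), (1, 3), (2, 2), (2, 4), (3, 3), (3, 4), (3, 5), (4,
      3), (4, 6), (4, 7), (5, 1), (5, 5), (5, 6), (5, 8), (6, 3), (6, 7), (6, 9)]
    cl := [1, 2, 3, 0, 4, 0, 0, 5, 6, 7]
    chq := [(1, 3), (1, 4), (3, 1), (4, 1)]
    rng := [(0, 1), (0, 3), (1, 0), (1, 2), (1, 6), (1, 8), (2, 1), (2, 4), (3, 0), (3, 9), (4, 2), (4,
      5), (5, 4), (5, 8), (6, 1), (6, 7), (7, 6), (7, 9), (8, 1), (8, 5), (9, 3), (9, 7)]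
    lev := [] }
  links := [[1, 7, 8, 9], [7, 0, 9, 2, 3, 10], [3, 1, 9, 11], [10, 1, 2, 11, 12, 5, 4], [10, 3, 5, 13,
    14, 6], [13, 4, 3, 12, 15, 8], [10, 4, 14, 16]]
  P := {
    a := 7
    N := 17
    nb := [898, 1677, 2570, 7222, 25704, 45336, 82960, 1283, 41633, 2311, 65754, 4620, 34856, 16688,
      73808, 4384, 17472]
    tri := [(0, 1, 7), (0, 1, 9), (0, 7, 8), (0, 8, 9), (1, 2, 3), (1, 2, 9), (1, 3, 10), (1, 7, 10),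
      (2, 3, 11), (2, 9, 11), (3, 4, 5), (3, 4, 10), (3, 5, 12), (3, 11, 12), (4, 5, 13), (4, 6,
      10), (4, 6, 14), (4, 13, 14), (5, 8, 13), (5, 8, 15), (5, 12, 15), (6, 10, 16), (6, 14, 16)]
    fin := [0, 0, 0, 3, 3, 5, 3, 0, 5, 9, 3, 11, 3, 3, 14, 15, 16]
    chd := [(0, 9), (0, 11)]
    steps := [(0, 1), (0, 2), (0, 7), (3, 4), (3, 6), (3, 12), (3, 13), (3, 10), (5, 8)] }
  rep := [3, 0, 5, 9, 11, 14, 15, 16]

noncomputable def v2831 : Cov.CovD where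
  P := 3
  N := 5
  pl := [1, 7, 8, 9]
  lev := [⟨[], [], [(1, 3)], [2], [(0, 1, [3, 4]), (2, 3, [1])]⟩,
    ⟨[], [(0, 0), (0, 1), (0, 3)], [(0, 1), (0, 3), (1, 3)], [], [(0, 1, [3, 4]), (2, 3,
      [1]), (3, 0, [])]⟩,
    ⟨[(0, 1)], [(0, 3), (1, 0), (1, 1), (1, 3), (1, 4)], [(3, 4)], [], [(2, 3, [1]), (4, 4,
      [1])]⟩,
    ⟨[(0, 1), (1, 2)], [(1, 0), (1, 1), (1, 3), (1, 4), (2, 0), (2, 3), (2, 4)], [(0, 0),
      (0, 4)], [], [(3, 0, []), (4, 4, [1]), (5, 0, [])]⟩,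
    ⟨[(1, 3), (2, 3)], [(1, 0), (3, 0), (3, 4)], [(0, 0)], [5], [(3, 0, []), (6, 0, [])]⟩,
    ⟨[(1, 3), (2, 3), (3, 4)], [(3, 0), (3, 4), (4, 0)], [(0, 0)], [2, 6], [(5, 0, []), (6,
      0, [])]⟩,
    ⟨[(3, 4), (4, 5)], [(1, 0), (3, 0), (4, 0)], [], [5, 7], [(3, 0, [])]⟩]
  Ta := [((3, 0), 0, 1), ((3, 9), 0, 7), ((5, 4), 0, 4), ((5, 8), 0, 6), ((6, 1), 0, 2), ((6, 7),
    0, 5)]
  Tb := [((0, 1, 3), 1, 2, 0), ((1, 0, 2), 2, 1, 3), ((1, 0, 6), 2, 1, 0), ((1, 0, 8), 2, 1, 6),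
    ((1, 2, 6), 2, 3, 0), ((1, 2, 8), 2, 3, 6), ((1, 6, 8), 2, 0, 6), ((2, 1, 4), 3, 2, 4),
    ((3, 0, 9), 0, 1, 7), ((4, 2, 5), 4, 3, 0), ((5, 4, 8), 0, 4, 6), ((6, 1, 7), 0, 2, 5),
    ((7, 6, 9), 5, 0, 7), ((8, 1, 5), 6, 2, 0), ((9, 3, 7), 7, 0, 5)]
  Tc := [(1, 3, 4)]
  Td := [((1, 3), (0, 1), 2), ((1, 3), (0, 3), 0), ((1, 4), (0, 1), 2), ((1, 4), (0, 3), 0), ((3,
    1), (2, 1), 2), ((3, 1), (2, 4), 4), ((4, 1), (4, 2), 3), ((4, 1), (4, 5), 0)]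
  G := [[0, 0x4cc88e6ce2ece2c84ce61844c8caece2ece2c84cea14c, 0,
    0x84c242ece2c84ce23884c22ece2cca84c2234c,
    0x6eaa2ac4ae422aae6a88e28c22e288ae2aae6a88ea149], [0, 0, 0, 0x11c11cc22811c11cc224c,
    0x11a11a61886211a12682c11a411a2c11a82349], [0, 0, 0x11c11cc21811c11cc214c,
    0x3ac91cc2281ac61cc224c, 0x5ca91aa684621aa12c28ce24d2271a18ce149]]

noncomputable def n2831 : Ent := ⟨e2831, noF, [], [], [(7, 16, [1580044410770988437309982408355971841652082177953823432505700691969, 0])]⟩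

def c2831 : PLift (Cov.check n2831.C.D v2831 = true) := ⟨by decide +kernel⟩

def b2831 : PLift (entF (fidx ts) 400 2831 n2831 = true) := ⟨by decide +kernel⟩

theorem g2831 : GoodF (fidx ts) 400 2831 := GoodF.ofV v2831 n2831 c2831.down b2831.down

/-- 4647664:2255/7 -/
noncomputable def e2832 : SCfg where
  D := {
    a := 7
    L := 10
    kp := 7
    inn := [(0, 1), (1, 0), (1, 2), (1, 3), (2, 1), (2, 3), (3, 1), (3, 2), (3, 4), (3, 5), (4, 3), (4,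
      5), (4, 6), (5, 3), (5, 4), (6, 4)]
    mix := [(0, 0), (0, 1), (0, 2), (1, 0), (1, 2), (1, 3), (2, 2), (2, 4), (3, 3), (3, 4), (3, 5), (4,
      1), (4, 3), (4, 6), (5, 5), (5, 6), (5, 7), (5, 8), (6, 1), (6, 3), (6, 9)]
    cl := [2, 1, 3, 0, 4, 0, 0, 5, 6, 7]
    chq := [(2, 3), (2, 4), (3, 2), (4, 2)]
    rng := [(0, 1), (0, 3), (1, 0), (1, 2), (1, 6), (1, 9), (2, 1), (2, 4), (3, 0), (3, 9), (4, 2), (4,
      5), (5, 4), (5, 7), (6, 1), (6, 8), (7, 5), (7, 8), (8, 6), (8, 7), (9, 1), (9, 3)]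
    lev := [] }
  links := [[1, 7, 8, 9], [7, 0, 9, 2, 3, 10], [3, 1, 9, 11], [10, 1, 2, 11, 12, 5, 4], [10, 3, 5, 13, 8,
    6], [13, 4, 3, 12, 14, 15], [10, 4, 8, 16]]
  P := {
    a := 7
    N := 17
    nb := [898, 1677, 2570, 7222, 9576, 61464, 66832, 1283, 74449, 2311, 65754, 4620, 18472, 33072,
      36896, 24608, 1344]
    tri := [(0, 1, 7), (0, 1, 9), (0, 7, 8), (0, 8, 9), (1, 2, 3), (1, 2, 9), (1, 3, 10), (1, 7, 10),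
      (2, 3, 11), (2, 9, 11), (3, 4, 5), (3, 4, 10), (3, 5, 12), (3, 11, 12), (4, 5, 13), (4, 6,
      8), (4, 6, 10), (4, 8, 13), (5, 12, 14), (5, 13, 15), (5, 14, 15), (6, 8, 16), (6, 10, 16)]
    fin := [0, 0, 0, 0, 4, 4, 6, 0, 6, 9, 4, 11, 4, 4, 14, 15, 16]
    chd := [(0, 9), (0, 11)]
    steps := [(0, 1), (0, 2), (0, 3), (0, 7), (4, 5), (4, 12), (4, 13), (4, 10), (6, 8)] }
  rep := [4, 6, 0, 9, 11, 14, 15, 16]

noncomputable def v2832 : Cov.CovD where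
  P := 3
  N := 5
  pl := [1, 7, 8, 9]
  lev := [⟨[], [], [(2, 3)], [1], [(0, 2, [3, 4]), (2, 3, [2])]⟩,
    ⟨[], [(0, 0), (0, 2), (0, 3)], [(0, 2), (0, 3), (2, 3)], [], [(0, 2, [3, 4]), (2, 3,
      [2]), (3, 0, [])]⟩,
    ⟨[(0, 1)], [(0, 3), (1, 0), (1, 2), (1, 3), (1, 4)], [(3, 4)], [], [(2, 3, [2]), (4, 4,
      [2])]⟩,
    ⟨[(0, 1), (1, 2)], [(1, 0), (1, 2), (1, 3), (1, 4), (2, 0), (2, 3), (2, 4)], [(0, 0),
      (0, 4)], [], [(3, 0, []), (4, 4, [2]), (5, 0, [])]⟩,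
    ⟨[(1, 3), (2, 3)], [(1, 0), (3, 0), (3, 4)], [(0, 0)], [1], [(3, 0, []), (6, 0, [])]⟩,
    ⟨[(1, 3), (2, 3), (3, 4)], [(3, 0), (3, 4), (4, 0)], [(0, 0)], [5, 6], [(5, 0, []), (6,
      0, [])]⟩,
    ⟨[(3, 4), (4, 5)], [(1, 0), (3, 0), (4, 0)], [], [1, 7], [(3, 0, [])]⟩]
  Ta := [((3, 0), 0, 2), ((3, 9), 0, 7), ((5, 4), 0, 4), ((5, 7), 0, 5), ((6, 1), 0, 1), ((6, 8),
    0, 6)]
  Tb := [((0, 1, 3), 2, 1, 0), ((1, 0, 2), 1, 2, 3), ((1, 0, 6), 1, 2, 0), ((1, 0, 9), 1, 2, 7),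
    ((1, 2, 6), 1, 3, 0), ((1, 2, 9), 1, 3, 7), ((1, 6, 9), 1, 0, 7), ((2, 1, 4), 3, 1, 4),
    ((3, 0, 9), 0, 2, 7), ((4, 2, 5), 4, 3, 0), ((5, 4, 7), 0, 4, 5), ((6, 1, 8), 0, 1, 6),
    ((7, 5, 8), 5, 0, 6), ((8, 6, 7), 6, 0, 5), ((9, 1, 3), 7, 1, 0)]
  Tc := [(2, 3, 4)]
  Td := [((2, 3), (0, 1), 1), ((2, 3), (0, 3), 0), ((2, 4), (0, 1), 1), ((2, 4), (0, 3), 0), ((3,
    2), (2, 1), 1), ((3, 2), (2, 4), 4), ((4, 2), (4, 2), 3), ((4, 2), (4, 5), 0)]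
  G := [[0, 0, 0x4cce88cc4ccac61844c8cec44c8ceca14c, 0xc28c4c8c6c24238c2484cce88c234c,
    0x4cce88c2444c8cec84a4488cc4cce88cc129], [0, 0, 0, 0x12411c4612823812811c4a128234c,
    0x111e424111e848a111e48111e84329], [0, 0x6286a6e8618c22caae4a14c, 0,
    0x1284111e825812411c4a124234c, 0x111e424111e484a111e81486129]]

noncomputable def n2832 : Ent := ⟨e2832, noF, [], [], [(7, 16, [1580044410770988437309982408355971841652082177953823432505700696065, 0])]⟩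

def c2832 : PLift (Cov.check n2832.C.D v2832 = true) := ⟨by decide +kernel⟩

def b2832 : PLift (entF (fidx ts) 400 2832 n2832 = true) := ⟨by decide +kernel⟩

theorem g2832 : GoodF (fidx ts) 400 2832 := GoodF.ofV v2832 n2832 c2832.down b2832.down

/-- 4647664:2255 -/
noncomputable def e2833 : SCfg where
  D := {
    a := 7
    L := 11
    kp := 8
    inn := [(0, 1), (1, 0), (1, 2), (1, 3), (2, 1), (2, 3), (3, 1), (3, 2), (3, 4), (3, 5), (4, 3), (4,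
      5), (4, 6), (5, 3), (5, 4), (6, 4)]
    mix := [(0, 0), (0, 1), (0, 2), (1, 0), (1, 2), (1, 3), (2, 2), (2, 4), (3, 3), (3, 4), (3, 5), (4,
      3), (4, 6), (4, 7), (5, 5), (5, 6), (5, 8), (5, 9), (6, 3), (6, 7), (6, 10)]
    cl := [1, 5, 3, 0, 2, 0, 0, 4, 6, 7, 8]
    chq := [(1, 2), (1, 3), (2, 1), (3, 1)]
    rng := [(0, 1), (0, 3), (1, 0), (1, 2), (2, 1), (2, 4), (3, 0), (3, 10), (4, 2), (4, 5), (5, 4),
      (5, 8), (6, 7), (6, 9), (7, 6), (7, 10), (8, 5), (8, 9), (9, 6), (9, 8), (10, 3), (10, 7)]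
    lev := [] }
  links := [[1, 7, 8, 9], [7, 0, 9, 2, 3, 10], [3, 1, 9, 11], [10, 1, 2, 11, 12, 5, 4], [10, 3, 5, 13,
    14, 6], [13, 4, 3, 12, 15, 16], [10, 4, 14, 17]]
  P := {
    a := 7
    N := 18
    nb := [898, 1677, 2570, 7222, 25704, 110616, 148496, 1283, 641, 2311, 131290, 4620, 34856, 81968,
      139344, 69664, 40992, 17472]
    tri := [(0, 1, 7), (0, 1, 9), (0, 7, 8), (0, 8, 9), (1, 2, 3), (1, 2, 9), (1, 3, 10), (1, 7, 10),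
      (2, 3, 11), (2, 9, 11), (3, 4, 5), (3, 4, 10), (3, 5, 12), (3, 11, 12), (4, 5, 13), (4, 6,
      10), (4, 6, 14), (4, 13, 14), (5, 12, 15), (5, 13, 16), (5, 15, 16), (6, 10, 17), (6, 14,
      17)]
    fin := [0, 0, 0, 0, 4, 4, 4, 0, 8, 9, 4, 11, 4, 4, 14, 15, 16, 17]
    chd := [(0, 9), (0, 11)]
    steps := [(0, 1), (0, 2), (0, 3), (0, 7), (4, 5), (4, 6), (4, 12), (4, 13), (4, 10)] }
  rep := [4, 0, 11, 9, 14, 8, 15, 16, 17]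

noncomputable def v2833 : Cov.CovD where
  P := 3
  N := 6
  pl := [1, 7, 8, 9, 10]
  lev := [⟨[], [], [(1, 3)], [5], [(0, 1, [2, 3]), (2, 3, [1])]⟩,
    ⟨[], [(0, 0), (0, 1), (0, 3)], [(0, 1), (0, 3), (1, 3)], [], [(0, 1, [2, 3]), (2, 3,
      [1]), (3, 0, [])]⟩,
    ⟨[(0, 1)], [(0, 3), (1, 0), (1, 1), (1, 2), (1, 3)], [(2, 3)], [], [(2, 3, [1]), (4, 2,
      [1])]⟩,
    ⟨[(0, 1), (1, 2)], [(1, 0), (1, 1), (1, 2), (1, 3), (2, 0), (2, 2), (2, 3)], [(0, 0),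
      (0, 2)], [], [(3, 0, []), (4, 2, [1]), (5, 0, [])]⟩,
    ⟨[(1, 3), (2, 3)], [(1, 0), (3, 0), (3, 2)], [(0, 0)], [4], [(3, 0, []), (6, 0, [])]⟩,
    ⟨[(1, 3), (2, 3), (3, 4)], [(3, 0), (3, 2), (4, 0)], [(0, 0)], [6, 7], [(5, 0, []), (6,
      0, [])]⟩,
    ⟨[(3, 4), (4, 5)], [(1, 0), (3, 0), (4, 0)], [], [4, 8], [(3, 0, [])]⟩]
  Ta := [((3, 0), 0, 1), ((3, 10), 0, 8), ((5, 4), 0, 2), ((5, 8), 0, 6), ((6, 7), 0, 4), ((6,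
    9), 0, 7)]
  Tb := [((0, 1, 3), 1, 5, 0), ((1, 0, 2), 5, 1, 3), ((2, 1, 4), 3, 5, 2), ((3, 0, 10), 0, 1, 8),
    ((4, 2, 5), 2, 3, 0), ((5, 4, 8), 0, 2, 6), ((6, 7, 9), 0, 4, 7), ((7, 6, 10), 4, 0, 8),
    ((8, 5, 9), 6, 0, 7), ((9, 6, 8), 7, 0, 6), ((10, 3, 7), 8, 0, 4)]
  Tc := [(1, 2, 3)]
  Td := [((1, 2), (0, 1), 5), ((1, 2), (0, 3), 0), ((1, 3), (0, 1), 5), ((1, 3), (0, 3), 0), ((2,
    1), (4, 2), 3), ((2, 1), (4, 5), 0), ((3, 1), (2, 1), 5), ((3, 1), (2, 4), 2)]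
  G := [[0, 0x4cee82ae64ee418426c8eeae8ee814c6aa6c6ca68c12e, 0,
    0x4cee82ae64ee42426c8eeae8ee82c2,
    0x2ece2cc2a26284ce2362446a288aa8c626caeeac8ee8242eaee26e84ce21426c8eeae8ee81cd], [0, 0,
    0x111e11a14e428111e111e6824111e111ea42111e111e682cd, 0x111e11a14e42116111e18e84c2,
    0x11c11cc21212c231212a82c116111e18e824111e111ec28111e111e681cd], [0, 0, 0,
    0x51ce361ea4272611e61cc8a4c2,
    0x55c93cc29252c23a212c28c115eaa9e68247aae111ec21716c6a11ce82cd]]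

noncomputable def n2833 : Ent := ⟨e2833, noF, [], [], [(7, 17, [6903326391201334775872065844685381424292761054348340378595029941276673, 0]), (8, 15, [7334790850167413569773436004105379185503274260204390087403942016245761, 0]), (8, 16, [7334685537875745012586738086077695515070955365108989538292687705272321, 0]), (8, 14, [7334790875878422277917280412776772662961875900559637987928627381075969, 0])]⟩

def c2833 : PLift (Cov.check n2833.C.D v2833 = true) := ⟨by decide +kernel⟩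

def b2833 : PLift (entF (fidx ts) 400 2833 n2833 = true) := ⟨by decide +kernel⟩

theorem g2833 : GoodF (fidx ts) 400 2833 := GoodF.ofV v2833 n2833 c2833.down b2833.down

/-- 4865464:2257/1 -/
noncomputable def e2834 : SCfg where
  D := {
    a := 7
    L := 10
    kp := 7
    inn := [(0, 1), (0, 3), (1, 0), (1, 2), (1, 4), (1, 5), (2, 1), (2, 4), (2, 6), (3, 0), (4, 1), (4,
      2), (4, 5), (5, 1), (5, 4), (6, 2)]
    mix := [(0, 0), (0, 1), (1, 0), (1, 1), (1, 2), (1, 3), (2, 2), (2, 4), (2, 5), (3, 0), (3, 1), (3,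
      6), (3, 7), (4, 5), (5, 3), (5, 5), (5, 8), (5, 9), (6, 4), (6, 5), (6, 6)]
    cl := [1, 1, 2, 0, 3, 0, 4, 5, 6, 7]
    chq := [(0, 3), (1, 3), (3, 0), (3, 1)]
    rng := [(0, 3), (0, 6), (1, 2), (1, 7), (2, 1), (2, 4), (3, 0), (3, 9), (4, 2), (4, 6), (5, 6), (5,
      8), (6, 0), (6, 4), (6, 5), (6, 7), (7, 1), (7, 6), (8, 5), (8, 9), (9, 3), (9, 8)]
    lev := [] }
  links := [[1, 7, 3, 8], [7, 0, 8, 9, 2, 4, 5, 10], [4, 1, 9, 11, 6, 12], [8, 0, 7, 13, 14], [5, 1, 2,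
    12], [10, 1, 4, 12, 15, 16], [12, 2, 11, 13]]
  P := {
    a := 7
    N := 17
    nb := [394, 1973, 6738, 24961, 4134, 103442, 14340, 9227, 16907, 2310, 65698, 8772, 41076, 22728,
      8456, 69664, 33824]
    tri := [(0, 1, 7), (0, 1, 8), (0, 3, 7), (0, 3, 8), (1, 2, 4), (1, 2, 9), (1, 4, 5), (1, 5, 10),
      (1, 7, 10), (1, 8, 9), (2, 4, 12), (2, 6, 11), (2, 6, 12), (2, 9, 11), (3, 7, 13), (3, 8,
      14), (3, 13, 14), (4, 5, 12), (5, 10, 16), (5, 12, 15), (5, 15, 16), (6, 11, 13), (6, 12,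
      13)]
    fin := [0, 0, 0, 0, 0, 5, 6, 0, 0, 9, 5, 6, 5, 13, 14, 15, 16]
    chd := [(0, 6), (5, 6)]
    steps := [(0, 1), (0, 2), (0, 3), (0, 4), (0, 7), (0, 8), (5, 12), (5, 10), (6, 11)] }
  rep := [5, 0, 9, 6, 13, 14, 15, 16]

noncomputable def v2834 : Cov.CovD where
  P := 3
  N := 5
  pl := [2, 6, 7, 8, 9]
  lev := [⟨[], [], [(1, 1)], [], [(0, 1, [3]), (1, 1, [3])]⟩,
    ⟨[], [(0, 0), (0, 1)], [(0, 1), (1, 1)], [2], [(0, 1, [3]), (1, 1, [3]), (3, 0, [3])]⟩,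
    ⟨[(0, 1)], [(1, 0), (1, 1), (1, 3)], [(0, 3)], [2], [(4, 3, [0, 1]), (5, 0, [3])]⟩,
    ⟨[(0, 1)], [(0, 1), (1, 1)], [(1, 1)], [4, 5], [(0, 1, [3]), (1, 1, [3])]⟩,
    ⟨[(0, 1), (1, 2)], [(1, 0), (1, 1), (2, 0), (2, 3)], [], [], [(5, 0, [3])]⟩,
    ⟨[(0, 1), (1, 2), (1, 4), (2, 4)], [(1, 0), (1, 1), (2, 0), (4, 0)], [(0, 0)], [6, 7],
      [(3, 0, [3]), (5, 0, [3])]⟩,
    ⟨[(1, 2), (2, 4)], [(2, 0), (2, 3), (4, 0), (5, 0)], [(0, 3)], [4], [(4, 3, [0, 1]),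
      (5, 0, [3])]⟩]
  Ta := [((0, 3), 1, 0), ((0, 6), 1, 4), ((1, 2), 1, 2), ((1, 7), 1, 5), ((3, 0), 0, 1), ((3, 9),
    0, 7), ((5, 6), 0, 4), ((5, 8), 0, 6)]
  Tb := [((0, 3, 6), 1, 0, 4), ((1, 2, 7), 1, 2, 5), ((2, 1, 4), 2, 1, 3), ((3, 0, 9), 0, 1, 7),
    ((4, 2, 6), 3, 2, 4), ((5, 6, 8), 0, 4, 6), ((6, 0, 4), 4, 1, 3), ((6, 0, 5), 4, 1, 0),
    ((6, 0, 7), 4, 1, 5), ((6, 4, 5), 4, 3, 0), ((6, 4, 7), 4, 3, 5), ((6, 5, 7), 4, 0, 5),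
    ((7, 1, 6), 5, 1, 4), ((8, 5, 9), 6, 0, 7), ((9, 3, 8), 7, 0, 6)]
  Tc := [(3, 0, 1)]
  Td := [((0, 3), (3, 0), 1), ((0, 3), (3, 9), 7), ((0, 3), (5, 6), 4), ((0, 3), (5, 8), 6), ((1,
    3), (0, 3), 0), ((1, 3), (0, 6), 4), ((1, 3), (1, 2), 2), ((1, 3), (1, 7), 5), ((3, 0),
    (4, 2), 2), ((3, 0), (4, 6), 4), ((3, 1), (4, 2), 2), ((3, 1), (4, 6), 4)]
  G := [[0, 0x116441168141e21162ee88e4226e8cad18448c2, 0x111e8111e8111e8d241, 0,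
    0x99ae4666e1333e4d281], [0, 0, 0x111e8111e8111e8d248,
    0x882e1224e1222e1d22a24642a446222e2d941, 0x3364128396a89565e4e81d289], [0, 0,
    0xaaae4666e4eeee4d284, 0, 0xaaae8666e4eeee8d214], [0, 0, 0xaaae86466aceeee8d241,
    0x228e4222e2222e4d2422ac442e8222e2dc18, 0xaaae4666e4eeee8d214]]

noncomputable def n2834 : Ent := ⟨e2834, noF, [], [], []⟩

def c2834 : PLift (Cov.check n2834.C.D v2834 = true) := ⟨by decide +kernel⟩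

def b2834 : PLift (entF (fidx ts) 400 2834 n2834 = true) := ⟨by decide +kernel⟩

theorem g2834 : GoodF (fidx ts) 400 2834 := GoodF.ofV v2834 n2834 c2834.down b2834.down

/-- 4865464:2257/2 -/
noncomputable def e2835 : SCfg where
  D := {
    a := 7
    L := 10
    kp := 7
    inn := [(0, 1), (0, 3), (1, 0), (1, 2), (1, 4), (1, 5), (2, 1), (2, 4), (2, 6), (3, 0), (4, 1), (4,
      2), (4, 5), (5, 1), (5, 4), (6, 2)]
    mix := [(0, 0), (0, 1), (1, 0), (1, 1), (1, 2), (1, 3), (2, 2), (2, 4), (2, 5), (3, 0), (3, 1), (3,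
      6), (3, 7), (4, 5), (5, 3), (5, 5), (5, 8), (5, 9), (6, 4), (6, 5), (6, 7)]
    cl := [1, 1, 2, 0, 3, 0, 5, 4, 6, 7]
    chq := [(0, 3), (1, 3), (3, 0), (3, 1)]
    rng := [(0, 3), (0, 6), (1, 2), (1, 7), (2, 1), (2, 4), (3, 0), (3, 9), (4, 2), (4, 7), (5, 7), (5,
      8), (6, 0), (6, 7), (7, 1), (7, 4), (7, 5), (7, 6), (8, 5), (8, 9), (9, 3), (9, 8)]
    lev := [] }
  links := [[1, 7, 3, 8], [7, 0, 8, 9, 2, 4, 5, 10], [4, 1, 9, 11, 6, 12], [8, 0, 7, 13, 14], [5, 1, 2,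
    12], [10, 1, 4, 12, 15, 16], [12, 2, 11, 14]]
  P := {
    a := 7
    N := 17
    nb := [394, 1973, 6738, 24961, 4134, 103442, 22532, 9227, 16907, 2310, 65698, 16964, 49268, 16520,
      14664, 69664, 33824]
    tri := [(0, 1, 7), (0, 1, 8), (0, 3, 7), (0, 3, 8), (1, 2, 4), (1, 2, 9), (1, 4, 5), (1, 5, 10),
      (1, 7, 10), (1, 8, 9), (2, 4, 12), (2, 6, 11), (2, 6, 12), (2, 9, 11), (3, 7, 13), (3, 8,
      14), (3, 13, 14), (4, 5, 12), (5, 10, 16), (5, 12, 15), (5, 15, 16), (6, 11, 14), (6, 12,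
      14)]
    fin := [0, 0, 0, 0, 0, 5, 6, 0, 0, 9, 5, 6, 5, 13, 14, 15, 16]
    chd := [(0, 6), (5, 6)]
    steps := [(0, 1), (0, 2), (0, 3), (0, 4), (0, 7), (0, 8), (5, 12), (5, 10), (6, 11)] }
  rep := [5, 0, 9, 6, 14, 13, 15, 16]

noncomputable def v2835 : Cov.CovD where
  P := 3
  N := 5
  pl := [2, 6, 7, 8, 9]
  lev := [⟨[], [], [(1, 1)], [], [(0, 1, [3]), (1, 1, [3])]⟩,
    ⟨[], [(0, 0), (0, 1)], [(0, 1), (1, 1)], [2], [(0, 1, [3]), (1, 1, [3]), (3, 0, [3])]⟩,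
    ⟨[(0, 1)], [(1, 0), (1, 1), (1, 3)], [(0, 3)], [2], [(4, 3, [0, 1]), (5, 0, [3])]⟩,
    ⟨[(0, 1)], [(0, 1), (1, 1)], [(1, 1)], [4, 5], [(0, 1, [3]), (1, 1, [3])]⟩,
    ⟨[(0, 1), (1, 2)], [(1, 0), (1, 1), (2, 0), (2, 3)], [], [], [(5, 0, [3])]⟩,
    ⟨[(0, 1), (1, 2), (1, 4), (2, 4)], [(1, 0), (1, 1), (2, 0), (4, 0)], [(0, 0)], [6, 7],
      [(3, 0, [3]), (5, 0, [3])]⟩,
    ⟨[(1, 2), (2, 4)], [(2, 0), (2, 3), (4, 0), (5, 0)], [(0, 3)], [4], [(4, 3, [0, 1]),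
      (5, 0, [3])]⟩]
  Ta := [((0, 3), 1, 0), ((0, 6), 1, 5), ((1, 2), 1, 2), ((1, 7), 1, 4), ((3, 0), 0, 1), ((3, 9),
    0, 7), ((5, 7), 0, 4), ((5, 8), 0, 6)]
  Tb := [((0, 3, 6), 1, 0, 5), ((1, 2, 7), 1, 2, 4), ((2, 1, 4), 2, 1, 3), ((3, 0, 9), 0, 1, 7),
    ((4, 2, 7), 3, 2, 4), ((5, 7, 8), 0, 4, 6), ((6, 0, 7), 5, 1, 4), ((7, 1, 4), 4, 1, 3),
    ((7, 1, 5), 4, 1, 0), ((7, 1, 6), 4, 1, 5), ((7, 4, 5), 4, 3, 0), ((7, 4, 6), 4, 3, 5),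
    ((7, 5, 6), 4, 0, 5), ((8, 5, 9), 6, 0, 7), ((9, 3, 8), 7, 0, 6)]
  Tc := [(3, 0, 1)]
  Td := [((0, 3), (3, 0), 1), ((0, 3), (3, 9), 7), ((0, 3), (5, 7), 4), ((0, 3), (5, 8), 6), ((1,
    3), (0, 3), 0), ((1, 3), (0, 6), 5), ((1, 3), (1, 2), 2), ((1, 3), (1, 7), 4), ((3, 0),
    (4, 2), 2), ((3, 0), (4, 7), 4), ((3, 1), (4, 2), 2), ((3, 1), (4, 7), 4)]
  G := [[0, 0x116441168141e21162ee88e4226e8cad18448c2, 0x111e4111e4111e4d284, 0,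
    0xaaae1666e133638cd284], [0, 0, 0x111e4111e4111e4d284,
    0x882e1422e122a245d222e2244e2222e8d941, 0xaa9e4556689eeee1d281], [0, 0,
    0xa4aaac666e4eeee4d284, 0, 0xaaae4666e4eeee4d218], [0, 0, 0xaa6a8c666e4eeee4d281,
    0x828e4222e2222e2d222e8422e8222e8dc18, 0xaaae8666e8eeee4d218]]

noncomputable def n2835 : Ent := ⟨e2835, noF, [], [], []⟩

def c2835 : PLift (Cov.check n2835.C.D v2835 = true) := ⟨by decide +kernel⟩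

def b2835 : PLift (entF (fidx ts) 400 2835 n2835 = true) := ⟨by decide +kernel⟩

theorem g2835 : GoodF (fidx ts) 400 2835 := GoodF.ofV v2835 n2835 c2835.down b2835.down

/-- 4865464:2257/3 -/
noncomputable def e2836 : SCfg where
  D := {
    a := 7
    L := 10
    kp := 7
    inn := [(0, 1), (0, 3), (1, 0), (1, 2), (1, 4), (1, 5), (2, 1), (2, 4), (2, 6), (3, 0), (4, 1), (4,
      2), (4, 5), (5, 1), (5, 4), (6, 2)]
    mix := [(0, 0), (0, 1), (1, 0), (1, 1), (1, 2), (1, 3), (2, 2), (2, 4), (2, 5), (3, 0), (3, 1), (3,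
      6), (3, 7), (4, 5), (5, 3), (5, 5), (5, 8), (5, 9), (6, 4), (6, 5), (6, 8)]
    cl := [1, 1, 2, 0, 3, 0, 5, 6, 4, 7]
    chq := [(1, 3), (1, 4), (3, 1), (4, 1)]
    rng := [(0, 3), (0, 6), (1, 2), (1, 7), (2, 1), (2, 4), (3, 0), (3, 9), (4, 2), (4, 8), (5, 8), (6,
      0), (6, 7), (7, 1), (7, 6), (8, 4), (8, 5), (8, 9), (9, 3), (9, 8)]
    lev := [] }
  links := [[1, 7, 3, 8], [7, 0, 8, 9, 2, 4, 5, 10], [4, 1, 9, 11, 6, 12], [8, 0, 7, 13, 14], [5, 1, 2,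
    12], [10, 1, 4, 12, 15, 16], [12, 2, 11, 15]]
  P := {
    a := 7
    N := 17
    nb := [394, 1973, 6738, 24961, 4134, 103442, 38916, 9227, 16907, 2310, 65698, 33348, 32884, 16520,
      8456, 71776, 33824]
    tri := [(0, 1, 7), (0, 1, 8), (0, 3, 7), (0, 3, 8), (1, 2, 4), (1, 2, 9), (1, 4, 5), (1, 5, 10),
      (1, 7, 10), (1, 8, 9), (2, 4, 12), (2, 6, 11), (2, 6, 12), (2, 9, 11), (3, 7, 13), (3, 8,
      14), (3, 13, 14), (4, 5, 12), (5, 10, 16), (5, 12, 15), (5, 15, 16), (6, 11, 15), (6, 12,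
      15)]
    fin := [0, 0, 0, 0, 0, 5, 0, 0, 0, 9, 5, 11, 5, 13, 14, 15, 16]
    chd := [(0, 11), (0, 15)]
    steps := [(0, 1), (0, 2), (0, 3), (0, 4), (0, 6), (0, 7), (0, 8), (5, 12), (5, 10)] }
  rep := [5, 0, 9, 11, 15, 13, 14, 16]

noncomputable def v2836 : Cov.CovD where
  P := 3
  N := 5
  pl := [2, 6, 7, 9]
  lev := [⟨[], [], [(1, 1)], [], [(0, 1, [3, 4]), (1, 1, [3, 4])]⟩,
    ⟨[], [(0, 0), (0, 1)], [(0, 1), (1, 1)], [2], [(0, 1, [3, 4]), (1, 1, [3, 4]), (3, 0,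
      [])]⟩,
    ⟨[(0, 1)], [(1, 0), (1, 1), (1, 3)], [(0, 3)], [2], [(4, 3, [1]), (5, 0, [])]⟩,
    ⟨[(0, 1)], [(0, 1), (1, 1)], [(1, 1)], [5, 6], [(0, 1, [3, 4]), (1, 1, [3, 4])]⟩,
    ⟨[(0, 1), (1, 2)], [(1, 0), (1, 1), (2, 0), (2, 3)], [], [], [(5, 0, [])]⟩,
    ⟨[(0, 1), (1, 2), (1, 4), (2, 4)], [(1, 0), (1, 1), (1, 4), (2, 0), (4, 0), (4, 4)],
      [(0, 0), (0, 4)], [7], [(3, 0, []), (5, 0, []), (8, 4, [1])]⟩,
    ⟨[(1, 2), (2, 4)], [(2, 0), (2, 3), (2, 4), (4, 0), (5, 0), (5, 4)], [(0, 3), (0, 4),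
      (3, 4)], [], [(4, 3, [1]), (5, 0, []), (8, 4, [1])]⟩]
  Ta := [((0, 3), 1, 0), ((0, 6), 1, 5), ((1, 2), 1, 2), ((1, 7), 1, 6), ((3, 0), 0, 1), ((3, 9),
    0, 7), ((5, 8), 0, 4)]
  Tb := [((0, 3, 6), 1, 0, 5), ((1, 2, 7), 1, 2, 6), ((2, 1, 4), 2, 1, 3), ((3, 0, 9), 0, 1, 7),
    ((4, 2, 8), 3, 2, 4), ((6, 0, 7), 5, 1, 6), ((7, 1, 6), 6, 1, 5), ((8, 4, 5), 4, 3, 0),
    ((8, 4, 9), 4, 3, 7), ((8, 5, 9), 4, 0, 7), ((9, 3, 8), 7, 0, 4)]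
  Tc := [(1, 3, 4)]
  Td := [((1, 3), (0, 3), 0), ((1, 3), (0, 6), 5), ((1, 3), (1, 2), 2), ((1, 3), (1, 7), 6), ((1,
    4), (0, 3), 0), ((1, 4), (0, 6), 5), ((1, 4), (1, 2), 2), ((1, 4), (1, 7), 6), ((3, 1),
    (4, 2), 2), ((3, 1), (4, 8), 4), ((4, 1), (8, 4), 3), ((4, 1), (8, 5), 0), ((4, 1), (8,
    9), 7)]
  G := [[0, 0x1164811a411a24168e84c28e2e222eacaed84, 0x2881a5c32c93a645253e8d648, 0,
    0x536a85a6ee1953e4d281], [0, 0, 0x337e836be893a645d241,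
    0x2224c5222e222a246d222e422688c822e2d584, 0x33be432a6c5a63e4d284], [0, 0,
    0x64aeac64aeaca6ee8d241, 0, 0x2482222cc5a6ee8a4ee8226e4da14], [0, 0,
    0xa6ee4a6ee4a6ee4d284, 0x822e422688c222e2d222e822a246242e8dc18, 0xa6ee4a6ee46e6a8cd281]]

noncomputable def n2836 : Ent := ⟨e2836, noF, [], [], []⟩

def c2836 : PLift (Cov.check n2836.C.D v2836 = true) := ⟨by decide +kernel⟩

def b2836 : PLift (entF (fidx ts) 400 2836 n2836 = true) := ⟨by decide +kernel⟩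

theorem g2836 : GoodF (fidx ts) 400 2836 := GoodF.ofV v2836 n2836 c2836.down b2836.down

/-- 4865464:2257 -/
noncomputable def e2837 : SCfg where
  D := {
    a := 7
    L := 11
    kp := 8
    inn := [(0, 1), (0, 3), (1, 0), (1, 2), (1, 4), (1, 5), (2, 1), (2, 4), (2, 6), (3, 0), (4, 1), (4,
      2), (4, 5), (5, 1), (5, 4), (6, 2)]
    mix := [(0, 0), (0, 1), (1, 0), (1, 1), (1, 2), (1, 3), (2, 2), (2, 4), (2, 5), (3, 0), (3, 1), (3,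
      6), (3, 7), (4, 5), (5, 3), (5, 5), (5, 8), (5, 9), (6, 4), (6, 5), (6, 10)]
    cl := [1, 1, 2, 0, 3, 0, 5, 6, 7, 8, 4]
    chq := [(0, 2), (2, 0), (2, 4), (4, 2)]
    rng := [(0, 3), (0, 6), (1, 2), (1, 7), (2, 1), (2, 4), (3, 0), (3, 9), (4, 2), (4, 10), (5, 8),
      (5, 10), (6, 0), (6, 7), (7, 1), (7, 6), (8, 5), (8, 9), (9, 3), (9, 8), (10, 4), (10, 5)]
    lev := [] }
  links := [[1, 7, 3, 8], [7, 0, 8, 9, 2, 4, 5, 10], [4, 1, 9, 11, 6, 12], [8, 0, 7, 13, 14], [5, 1, 2,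
    12], [10, 1, 4, 12, 15, 16], [12, 2, 11, 17]]
  P := {
    a := 7
    N := 18
    nb := [394, 1973, 6738, 24961, 4134, 103442, 137220, 9227, 16907, 2310, 65698, 131652, 163956,
      16520, 8456, 69664, 33824, 6208]
    tri := [(0, 1, 7), (0, 1, 8), (0, 3, 7), (0, 3, 8), (1, 2, 4), (1, 2, 9), (1, 4, 5), (1, 5, 10),
      (1, 7, 10), (1, 8, 9), (2, 4, 12), (2, 6, 11), (2, 6, 12), (2, 9, 11), (3, 7, 13), (3, 8,
      14), (3, 13, 14), (4, 5, 12), (5, 10, 16), (5, 12, 15), (5, 15, 16), (6, 11, 17), (6, 12,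
      17)]
    fin := [0, 0, 2, 0, 0, 5, 2, 0, 0, 2, 5, 11, 5, 13, 14, 15, 16, 17]
    chd := [(2, 5), (2, 17)]
    steps := [(0, 1), (0, 3), (0, 4), (0, 7), (0, 8), (2, 6), (2, 9), (5, 12), (5, 10)] }
  rep := [5, 0, 2, 11, 17, 13, 14, 15, 16]

noncomputable def v2837 : Cov.CovD where
  P := 3
  N := 6
  pl := [4, 6, 7, 8, 9]
  lev := [⟨[], [], [(1, 1)], [], [(0, 1, []), (1, 1, [])]⟩,
    ⟨[], [(0, 0), (0, 1), (0, 2)], [(0, 1), (0, 2), (1, 1), (1, 2)], [], [(0, 1, []), (1,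
      1, []), (2, 2, [0, 4]), (3, 0, [2])]⟩,
    ⟨[(0, 1)], [(1, 0), (1, 1), (1, 2)], [(0, 2)], [3], [(2, 2, [0, 4]), (5, 0, [2])]⟩,
    ⟨[(0, 1)], [(0, 1), (1, 1)], [(1, 1)], [5, 6], [(0, 1, []), (1, 1, [])]⟩,
    ⟨[(0, 1), (1, 2)], [(1, 0), (1, 1), (1, 2), (2, 0), (2, 2)], [], [], [(5, 0, [2])]⟩,
    ⟨[(0, 1), (1, 2), (1, 4), (2, 4)], [(1, 0), (1, 1), (1, 2), (2, 0), (4, 0)], [(0, 0)],
      [7, 8], [(3, 0, [2]), (5, 0, [2])]⟩,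
    ⟨[(1, 2), (2, 4)], [(2, 0), (2, 2), (2, 4), (4, 0), (5, 0)], [(0, 4)], [3], [(5, 0,
      [2]), (10, 4, [2])]⟩]
  Ta := [((0, 3), 1, 0), ((0, 6), 1, 5), ((1, 2), 1, 2), ((1, 7), 1, 6), ((3, 0), 0, 1), ((3, 9),
    0, 8), ((5, 8), 0, 7), ((5, 10), 0, 4)]
  Tb := [((0, 3, 6), 1, 0, 5), ((1, 2, 7), 1, 2, 6), ((2, 1, 4), 2, 1, 3), ((3, 0, 9), 0, 1, 8),
    ((4, 2, 10), 3, 2, 4), ((5, 8, 10), 0, 7, 4), ((6, 0, 7), 5, 1, 6), ((7, 1, 6), 6, 1, 5),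
    ((8, 5, 9), 7, 0, 8), ((9, 3, 8), 8, 0, 7), ((10, 4, 5), 4, 3, 0)]
  Tc := [(2, 0, 4)]
  Td := [((0, 2), (3, 0), 1), ((0, 2), (3, 9), 8), ((0, 2), (5, 8), 7), ((0, 2), (5, 10), 4),
    ((2, 0), (2, 1), 1), ((2, 0), (2, 4), 3), ((2, 4), (2, 1), 1), ((2, 4), (2, 4), 3), ((4,
    2), (10, 4), 3), ((4, 2), (10, 5), 0)]
  G := [[0, 0x131e26412ac33638ce22a121a2c242a42222e8ed48,
    0x1411ac11618c1411acd11618a1211ca1211cad681, 0,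
    0x11644a255c6a44e1a5ae4d444e4484444e2db81], [0, 0,
    0x1211c6111e2111e2d1211ca1211ca111e8da48, 0x222e1222e1222e1d222e2222e2222e8d948,
    0x1442344611164d1254c6511e4544e4d482484484db84], [0, 0,
    0x11641162911a2111e2111e2d11c2111e4182de81, 0,
    0xcca2cece2c4ee2d8164486c6e446668c6e4e4da89], [0, 0,
    0x11618a111e2181166d11a24111e814211a146de48, 0x222e422628c22628cd222e8222e22422acdc18,
    0xeeee4cece4c4ce2d444e4646e86e6e4da14]]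

noncomputable def n2837 : Ent := ⟨e2837, noF, [], [], [(13, 17, [6903326391201334775872065844685381424292761054348340378595029941297153, 0]), (14, 17, [6903326391201334775872065844685381424292761054348340378595029941301249, 0]), (17, 15, [6903537015784671890245461680740748765157398844539141476817538563260417, 0])]⟩

def c2837 : PLift (Cov.check n2837.C.D v2837 = true) := ⟨by decide +kernel⟩

def b2837 : PLift (entF (fidx ts) 400 2837 n2837 = true) := ⟨by decide +kernel⟩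

theorem g2837 : GoodF (fidx ts) 400 2837 := GoodF.ofV v2837 n2837 c2837.down b2837.down

/-- 4647647:2259/1 -/
noncomputable def e2838 : SCfg where
  D := {
    a := 7
    L := 10
    kp := 7
    inn := [(0, 1), (1, 0), (1, 2), (1, 3), (2, 1), (2, 3), (3, 1), (3, 2), (3, 4), (3, 6), (4, 3), (4,
      5), (4, 6), (5, 4), (5, 6), (6, 3), (6, 4), (6, 5)]
    mix := [(0, 0), (0, 1), (0, 2), (1, 0), (1, 2), (1, 3), (2, 2), (2, 4), (3, 3), (3, 4), (3, 5), (4,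
      3), (4, 6), (4, 7), (5, 6), (5, 8), (6, 1), (6, 5), (6, 8), (6, 9)]
    cl := [2, 5, 0, 0, 1, 3, 4, 6, 3, 7]
    chq := [(1, 4), (1, 6), (4, 1), (6, 1)]
    rng := [(0, 1), (0, 3), (1, 0), (1, 2), (1, 5), (1, 9), (2, 1), (2, 4), (3, 0), (3, 7), (4, 2), (4,
      5), (5, 1), (5, 4), (6, 7), (6, 8), (7, 3), (7, 6), (8, 6), (8, 9), (9, 1), (9, 8)]
    lev := [] }
  links := [[1, 7, 8, 9], [7, 0, 9, 2, 3, 10], [3, 1, 9, 11], [10, 1, 2, 11, 12, 6, 4], [10, 3, 6, 5, 13,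
    14], [13, 4, 6, 15], [15, 5, 4, 3, 12, 8, 16]]
  P := {
    a := 7
    N := 17
    nb := [898, 1677, 2570, 7254, 25704, 41040, 102712, 1283, 70337, 2311, 16538, 4620, 2376, 49200,
      9232, 73824, 33088]
    tri := [(0, 1, 7), (0, 1, 9), (0, 7, 8), (0, 8, 9), (1, 2, 3), (1, 2, 9), (1, 3, 10), (1, 7, 10),
      (2, 3, 11), (2, 9, 11), (3, 4, 6), (3, 4, 10), (3, 6, 12), (3, 11, 12), (4, 5, 6), (4, 5,
      13), (4, 10, 14), (4, 13, 14), (5, 6, 15), (5, 13, 15), (6, 8, 12), (6, 8, 16), (6, 15, 16)]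
    fin := [0, 1, 1, 3, 3, 3, 6, 0, 8, 1, 1, 3, 6, 13, 14, 6, 16]
    chd := [(3, 13), (3, 14)]
    steps := [(0, 7), (1, 2), (1, 9), (1, 10), (3, 4), (3, 5), (3, 11), (6, 12), (6, 15)] }
  rep := [1, 3, 0, 6, 13, 8, 14, 16]

noncomputable def v2838 : Cov.CovD where
  P := 3
  N := 5
  pl := [0, 1, 9]
  lev := [⟨[], [], [], [2, 5], [(2, 0, [])]⟩,
    ⟨[], [(0, 0)], [(0, 0)], [2], [(2, 0, []), (3, 0, [])]⟩,
    ⟨[(0, 1)], [(0, 0), (1, 0), (1, 1)], [(0, 1)], [], [(2, 0, []), (4, 1, [4, 6])]⟩,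
    ⟨[(0, 1), (1, 2)], [(1, 0), (1, 1), (1, 3), (2, 0), (2, 1), (2, 3)], [(0, 1), (0, 3),
      (1, 3)], [], [(3, 0, []), (4, 1, [4, 6]), (5, 3, [])]⟩,
    ⟨[(1, 3), (2, 3)], [(1, 0), (3, 0), (3, 1), (3, 3), (3, 4), (3, 6)], [(0, 4), (0, 6),
      (4, 6)], [], [(3, 0, []), (6, 4, [1]), (7, 6, [1])]⟩,
    ⟨[(3, 4)], [(4, 0), (4, 3), (4, 4), (4, 6)], [(3, 4)], [], [(6, 4, [1]), (8, 3, [])]⟩,
    ⟨[(1, 3), (2, 3), (3, 4), (3, 5), (4, 5)], [(3, 0), (3, 1), (3, 3), (4, 0), (4, 3), (4,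
      4), (4, 6), (5, 3), (5, 4)], [(3, 3)], [5, 7], [(5, 3, []), (8, 3, [])]⟩]
  Ta := [((2, 1), 0, 5), ((2, 4), 0, 1), ((3, 0), 0, 2), ((3, 7), 0, 6), ((5, 1), 3, 5), ((5, 4),
    3, 1), ((8, 6), 3, 4), ((8, 9), 3, 7)]
  Tb := [((0, 1, 3), 2, 5, 0), ((1, 0, 2), 5, 2, 0), ((1, 0, 5), 5, 2, 3), ((1, 0, 9), 5, 2, 7),
    ((1, 2, 5), 5, 0, 3), ((1, 2, 9), 5, 0, 7), ((1, 5, 9), 5, 3, 7), ((2, 1, 4), 0, 5, 1),
    ((3, 0, 7), 0, 2, 6), ((4, 2, 5), 1, 0, 3), ((5, 1, 4), 3, 5, 1), ((6, 7, 8), 4, 6, 3),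
    ((7, 3, 6), 6, 0, 4), ((8, 6, 9), 3, 4, 7), ((9, 1, 8), 7, 5, 3)]
  Tc := [(1, 4, 6)]
  Td := [((1, 4), (4, 2), 0), ((1, 4), (4, 5), 3), ((1, 6), (4, 2), 0), ((1, 6), (4, 5), 3), ((4,
    1), (6, 7), 6), ((4, 1), (6, 8), 3), ((6, 1), (7, 3), 0), ((6, 1), (7, 6), 4)]
  G := [[0, 0x1111a2ba416114468111142762c1a1188a4c, 0, 0x243828b49428638c4582832485742438c8c,
    0x58249c528c222742872878287c82a], [0, 0x71118acd231246871f1f1e824c, 0,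
    0x24f152a6784428f1926ab488c, 0x926917c2784222719226e7842a], [0, 0,
    0xd4281258924182122a34e21283c9ec12e, 0x28486482138a42421bc5e8cc1,
    0x2128749e482421b85e84a1], [0, 0, 0x214c9df68928452222e222bab3de4886,
    0x282b8482257f8ff684c1, 0x229f8a4225ff568c21]]

noncomputable def n2838 : Ent := ⟨e2838, noF, [], [], []⟩

def c2838 : PLift (Cov.check n2838.C.D v2838 = true) := ⟨by decide +kernel⟩

def b2838 : PLift (entF (fidx ts) 400 2838 n2838 = true) := ⟨by decide +kernel⟩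

theorem g2838 : GoodF (fidx ts) 400 2838 := GoodF.ofV v2838 n2838 c2838.down b2838.down

/-- 4647647:2259/2 -/
noncomputable def e2839 : SCfg where
  D := {
    a := 7
    L := 10
    kp := 7
    inn := [(0, 1), (1, 0), (1, 2), (1, 3), (2, 1), (2, 3), (3, 1), (3, 2), (3, 4), (3, 6), (4, 3), (4,
      5), (4, 6), (5, 4), (5, 6), (6, 3), (6, 4), (6, 5)]
    mix := [(0, 0), (0, 1), (0, 2), (1, 0), (1, 2), (1, 3), (2, 2), (2, 4), (3, 3), (3, 4), (3, 5), (4,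
      3), (4, 6), (4, 7), (5, 6), (5, 8), (6, 1), (6, 5), (6, 8), (6, 9)]
    cl := [2, 5, 0, 0, 1, 3, 4, 6, 3, 7]
    chq := [(1, 4), (1, 6), (4, 1), (6, 1)]
    rng := [(0, 1), (0, 3), (1, 0), (1, 2), (1, 8), (1, 9), (2, 1), (2, 4), (3, 0), (3, 7), (4, 2), (4,
      5), (5, 4), (5, 9), (6, 7), (6, 8), (7, 3), (7, 6), (8, 1), (8, 6), (9, 1), (9, 5)]
    lev := [] }
  links := [[1, 7, 8, 9], [7, 0, 9, 2, 3, 10], [3, 1, 9, 11], [10, 1, 2, 11, 12, 6, 4], [10, 3, 6, 5, 13,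
    14], [13, 4, 6, 15], [15, 5, 4, 3, 12, 16, 8]]
  P := {
    a := 7
    N := 17
    nb := [898, 1677, 2570, 7254, 25704, 41040, 102712, 1283, 99009, 2311, 16538, 4620, 67656, 49200,
      9232, 8544, 4416]
    tri := [(0, 1, 7), (0, 1, 9), (0, 7, 8), (0, 8, 9), (1, 2, 3), (1, 2, 9), (1, 3, 10), (1, 7, 10),
      (2, 3, 11), (2, 9, 11), (3, 4, 6), (3, 4, 10), (3, 6, 12), (3, 11, 12), (4, 5, 6), (4, 5,
      13), (4, 10, 14), (4, 13, 14), (5, 6, 15), (5, 13, 15), (6, 8, 15), (6, 8, 16), (6, 12, 16)]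
    fin := [0, 1, 1, 3, 3, 3, 6, 0, 8, 1, 1, 3, 6, 13, 14, 6, 16]
    chd := [(3, 13), (3, 14)]
    steps := [(0, 7), (1, 2), (1, 9), (1, 10), (3, 4), (3, 5), (3, 11), (6, 12), (6, 15)] }
  rep := [1, 3, 0, 6, 13, 8, 14, 16]

noncomputable def v2839 : Cov.CovD where
  P := 3
  N := 5
  pl := [0, 1, 9]
  lev := [⟨[], [], [], [2, 5], [(2, 0, [])]⟩,
    ⟨[], [(0, 0)], [(0, 0)], [2], [(2, 0, []), (3, 0, [])]⟩,
    ⟨[(0, 1)], [(0, 0), (1, 0), (1, 1)], [(0, 1)], [], [(2, 0, []), (4, 1, [4, 6])]⟩,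
    ⟨[(0, 1), (1, 2)], [(1, 0), (1, 1), (1, 3), (2, 0), (2, 1), (2, 3)], [(0, 1), (0, 3),
      (1, 3)], [], [(3, 0, []), (4, 1, [4, 6]), (5, 3, [])]⟩,
    ⟨[(1, 3), (2, 3)], [(1, 0), (3, 0), (3, 1), (3, 3), (3, 4), (3, 6)], [(0, 4), (0, 6),
      (4, 6)], [], [(3, 0, []), (6, 4, [1]), (7, 6, [1])]⟩,
    ⟨[(3, 4)], [(4, 0), (4, 3), (4, 4), (4, 6)], [(3, 4)], [], [(6, 4, [1]), (8, 3, [])]⟩,
    ⟨[(1, 3), (2, 3), (3, 4), (3, 5), (4, 5)], [(3, 0), (3, 1), (3, 3), (4, 0), (4, 3), (4,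
      4), (4, 6), (5, 3), (5, 4)], [(3, 3)], [5, 7], [(5, 3, []), (8, 3, [])]⟩]
  Ta := [((2, 1), 0, 5), ((2, 4), 0, 1), ((3, 0), 0, 2), ((3, 7), 0, 6), ((5, 4), 3, 1), ((5, 9),
    3, 7), ((8, 1), 3, 5), ((8, 6), 3, 4)]
  Tb := [((0, 1, 3), 2, 5, 0), ((1, 0, 2), 5, 2, 0), ((1, 0, 8), 5, 2, 3), ((1, 0, 9), 5, 2, 7),
    ((1, 2, 8), 5, 0, 3), ((1, 2, 9), 5, 0, 7), ((1, 8, 9), 5, 3, 7), ((2, 1, 4), 0, 5, 1),
    ((3, 0, 7), 0, 2, 6), ((4, 2, 5), 1, 0, 3), ((5, 4, 9), 3, 1, 7), ((6, 7, 8), 4, 6, 3),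
    ((7, 3, 6), 6, 0, 4), ((8, 1, 6), 3, 5, 4), ((9, 1, 5), 7, 5, 3)]
  Tc := [(1, 4, 6)]
  Td := [((1, 4), (4, 2), 0), ((1, 4), (4, 5), 3), ((1, 6), (4, 2), 0), ((1, 6), (4, 5), 3), ((4,
    1), (6, 7), 6), ((4, 1), (6, 8), 3), ((6, 1), (7, 3), 0), ((6, 1), (7, 6), 4)]
  G := [[0, 0x111128ab4114468111211a46f11485a24c, 0, 0x24b822cb49428c458224853462638c8c,
    0xf824d42281cc217c26a3284942a], [0, 0xb1b1c2b128c47171c27128a4c, 0,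
    0xb229172a6784472251b26ab488c, 0xd2d132c6784232371e26a7842a], [0, 0,
    0x2138a49a528c42134a7492c122234284c18e, 0x21287c9e482421b4e84c1,
    0x284c9642421b4e2138acc21], [0, 0, 0xd94df2424618232b663d683298452a,
    0x222ef3cffa48a427482c1, 0x382b843256e9ff68c21]]

noncomputable def n2839 : Ent := ⟨e2839, noF, [], [], []⟩

def c2839 : PLift (Cov.check n2839.C.D v2839 = true) := ⟨by decide +kernel⟩

def b2839 : PLift (entF (fidx ts) 400 2839 n2839 = true) := ⟨by decide +kernel⟩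

theorem g2839 : GoodF (fidx ts) 400 2839 := GoodF.ofV v2839 n2839 c2839.down b2839.down

/-- 4647647:2259/3 -/
noncomputable def e2840 : SCfg where
  D := {
    a := 7
    L := 10
    kp := 7
    inn := [(0, 1), (1, 0), (1, 2), (1, 3), (2, 1), (2, 3), (3, 1), (3, 2), (3, 4), (3, 6), (4, 3), (4,
      5), (4, 6), (5, 4), (5, 6), (6, 3), (6, 4), (6, 5)]
    mix := [(0, 0), (0, 1), (0, 2), (1, 0), (1, 2), (1, 3), (2, 2), (2, 4), (3, 3), (3, 4), (3, 5), (4,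
      3), (4, 6), (4, 7), (5, 1), (5, 6), (6, 1), (6, 5), (6, 8), (6, 9)]
    cl := [2, 1, 0, 0, 3, 1, 4, 5, 6, 7]
    chq := [(3, 4), (3, 5), (4, 3), (5, 3)]
    rng := [(0, 1), (0, 3), (1, 0), (1, 2), (1, 6), (1, 9), (2, 1), (2, 4), (3, 0), (3, 7), (4, 2), (4,
      5), (5, 4), (5, 8), (6, 1), (6, 7), (7, 3), (7, 6), (8, 5), (8, 9), (9, 1), (9, 8)]
    lev := [] }
  links := [[1, 7, 8, 9], [7, 0, 9, 2, 3, 10], [3, 1, 9, 11], [10, 1, 2, 11, 12, 6, 4], [10, 3, 6, 5, 13,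
    14], [13, 4, 6, 8], [8, 5, 4, 3, 12, 15, 16]]
  P := {
    a := 7
    N := 17
    nb := [898, 1677, 2570, 7254, 25704, 8528, 102712, 1283, 74465, 2311, 16538, 4620, 34888, 16688,
      9232, 69696, 33088]
    tri := [(0, 1, 7), (0, 1, 9), (0, 7, 8), (0, 8, 9), (1, 2, 3), (1, 2, 9), (1, 3, 10), (1, 7, 10),
      (2, 3, 11), (2, 9, 11), (3, 4, 6), (3, 4, 10), (3, 6, 12), (3, 11, 12), (4, 5, 6), (4, 5,
      13), (4, 10, 14), (4, 13, 14), (5, 6, 8), (5, 8, 13), (6, 8, 16), (6, 12, 15), (6, 15, 16)]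
    fin := [0, 1, 1, 3, 3, 5, 5, 0, 5, 1, 1, 3, 5, 13, 14, 15, 16]
    chd := [(3, 13), (3, 14)]
    steps := [(0, 7), (1, 2), (1, 9), (1, 10), (3, 4), (3, 11), (5, 6), (5, 8), (5, 12)] }
  rep := [1, 5, 0, 3, 13, 14, 15, 16]

noncomputable def v2840 : Cov.CovD where
  P := 3
  N := 5
  pl := [0, 8, 9]
  lev := [⟨[], [], [(0, 1)], [2], [(1, 1, []), (2, 0, [])]⟩,
    ⟨[], [(0, 0), (0, 1)], [(0, 0)], [2], [(2, 0, []), (3, 0, [])]⟩,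
    ⟨[(0, 1)], [(0, 0), (1, 0), (1, 3)], [(0, 3)], [], [(2, 0, []), (4, 3, [4, 5])]⟩,
    ⟨[(0, 1), (1, 2)], [(1, 0), (1, 1), (1, 3), (2, 0), (2, 1), (2, 3)], [(0, 1), (0, 3),
      (1, 3)], [], [(3, 0, []), (4, 3, [4, 5]), (5, 1, [])]⟩,
    ⟨[(1, 3), (2, 3)], [(1, 0), (3, 0), (3, 1), (3, 3), (3, 4), (3, 5)], [(0, 4), (0, 5),
      (4, 5)], [], [(3, 0, []), (6, 4, [3]), (7, 5, [3])]⟩,
    ⟨[(3, 4)], [(0, 1), (4, 0), (4, 1), (4, 4), (4, 5)], [(1, 4)], [], [(1, 1, []), (6, 4,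
      [3])]⟩,
    ⟨[(1, 3), (2, 3), (3, 4), (3, 5), (4, 5)], [(0, 1), (3, 0), (3, 1), (3, 3), (4, 0), (4,
      1), (4, 4), (4, 5), (5, 1), (5, 4)], [(1, 1)], [6, 7], [(1, 1, []), (5, 1, [])]⟩]
  Ta := [((1, 0), 1, 2), ((1, 2), 1, 0), ((1, 6), 1, 4), ((1, 9), 1, 7), ((2, 1), 0, 1), ((2, 4),
    0, 3), ((3, 0), 0, 2), ((3, 7), 0, 5), ((5, 4), 1, 3), ((5, 8), 1, 6)]
  Tb := [((0, 1, 3), 2, 1, 0), ((1, 0, 2), 1, 2, 0), ((1, 0, 6), 1, 2, 4), ((1, 0, 9), 1, 2, 7),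
    ((1, 2, 6), 1, 0, 4), ((1, 2, 9), 1, 0, 7), ((1, 6, 9), 1, 4, 7), ((2, 1, 4), 0, 1, 3),
    ((3, 0, 7), 0, 2, 5), ((4, 2, 5), 3, 0, 1), ((5, 4, 8), 1, 3, 6), ((6, 1, 7), 4, 1, 5),
    ((7, 3, 6), 5, 0, 4), ((8, 5, 9), 6, 1, 7), ((9, 1, 8), 7, 1, 6)]
  Tc := [(3, 4, 5)]
  Td := [((3, 4), (4, 2), 0), ((3, 4), (4, 5), 1), ((3, 5), (4, 2), 0), ((3, 5), (4, 5), 1), ((4,
    3), (6, 1), 1), ((4, 3), (6, 7), 5), ((5, 3), (7, 3), 0), ((5, 3), (7, 6), 4)]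
  G := [[0, 0xe8142621822e41e8c8, 0, 0x1454589919d9e4848c41ed284, 0x41494d54ce58c9488cbc228],
    [0, 0, 0, 0, 0x52516c21844d128c285c28], [0, 0, 0x412812dd5dd9ce148, 0x412812589ddd9ce148,
    0x812dd5dd9c6141281a8], [0, 0, 0x42d244ced28291ec124, 0, 0x42d251ed28281ec128]]

noncomputable def n2840 : Ent := ⟨e2840, noF, [], [], []⟩

def c2840 : PLift (Cov.check n2840.C.D v2840 = true) := ⟨by decide +kernel⟩

def b2840 : PLift (entF (fidx ts) 400 2840 n2840 = true) := ⟨by decide +kernel⟩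

theorem g2840 : GoodF (fidx ts) 400 2840 := GoodF.ofV v2840 n2840 c2840.down b2840.down

/-- 4647647:2259 -/
noncomputable def e2841 : SCfg where
  D := {
    a := 7
    L := 11
    kp := 8
    inn := [(0, 1), (1, 0), (1, 2), (1, 3), (2, 1), (2, 3), (3, 1), (3, 2), (3, 4), (3, 6), (4, 3), (4,
      5), (4, 6), (5, 4), (5, 6), (6, 3), (6, 4), (6, 5)]
    mix := [(0, 0), (0, 1), (0, 2), (1, 0), (1, 2), (1, 3), (2, 2), (2, 4), (3, 3), (3, 4), (3, 5), (4,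
      3), (4, 6), (4, 7), (5, 6), (5, 8), (6, 5), (6, 8), (6, 9), (6, 10)]
    cl := [2, 6, 0, 0, 1, 3, 4, 5, 3, 7, 8]
    chq := [(1, 4), (1, 5), (4, 1), (5, 1)]
    rng := [(0, 1), (0, 3), (1, 0), (1, 2), (2, 1), (2, 4), (3, 0), (3, 7), (4, 2), (4, 5), (5, 4), (5,
      9), (6, 7), (6, 8), (7, 3), (7, 6), (8, 6), (8, 10), (9, 5), (9, 10), (10, 8), (10, 9)]
    lev := [] }
  links := [[1, 7, 8, 9], [7, 0, 9, 2, 3, 10], [3, 1, 9, 11], [10, 1, 2, 11, 12, 6, 4], [10, 3, 6, 5, 13,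
    14], [13, 4, 6, 15], [15, 5, 4, 3, 12, 16, 17]]
  P := {
    a := 7
    N := 18
    nb := [898, 1677, 2570, 7254, 25704, 41040, 233528, 1283, 641, 2311, 16538, 4620, 67656, 49200,
      9232, 139360, 135232, 98368]
    tri := [(0, 1, 7), (0, 1, 9), (0, 7, 8), (0, 8, 9), (1, 2, 3), (1, 2, 9), (1, 3, 10), (1, 7, 10),
      (2, 3, 11), (2, 9, 11), (3, 4, 6), (3, 4, 10), (3, 6, 12), (3, 11, 12), (4, 5, 6), (4, 5,
      13), (4, 10, 14), (4, 13, 14), (5, 6, 15), (5, 13, 15), (6, 12, 16), (6, 15, 17), (6, 16,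
      17)]
    fin := [0, 1, 1, 3, 3, 3, 6, 0, 8, 1, 1, 3, 6, 13, 14, 6, 16, 17]
    chd := [(3, 13), (3, 14)]
    steps := [(0, 7), (1, 2), (1, 9), (1, 10), (3, 4), (3, 5), (3, 11), (6, 12), (6, 15)] }
  rep := [1, 3, 0, 6, 13, 14, 8, 16, 17]

noncomputable def v2841 : Cov.CovD where
  P := 3
  N := 6
  pl := [0, 1, 9, 10]
  lev := [⟨[], [], [], [2, 6], [(2, 0, [])]⟩,
    ⟨[], [(0, 0)], [(0, 0)], [2], [(2, 0, []), (3, 0, [])]⟩,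
    ⟨[(0, 1)], [(0, 0), (1, 0), (1, 1)], [(0, 1)], [], [(2, 0, []), (4, 1, [4, 5])]⟩,
    ⟨[(0, 1), (1, 2)], [(1, 0), (1, 1), (1, 3), (2, 0), (2, 1), (2, 3)], [(0, 1), (0, 3),
      (1, 3)], [], [(3, 0, []), (4, 1, [4, 5]), (5, 3, [])]⟩,
    ⟨[(1, 3), (2, 3)], [(1, 0), (3, 0), (3, 1), (3, 3), (3, 4), (3, 5)], [(0, 4), (0, 5),
      (4, 5)], [], [(3, 0, []), (6, 4, [1]), (7, 5, [1])]⟩,
    ⟨[(3, 4)], [(4, 0), (4, 3), (4, 4), (4, 5)], [(3, 4)], [], [(6, 4, [1]), (8, 3, [])]⟩,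
    ⟨[(1, 3), (2, 3), (3, 4), (3, 5), (4, 5)], [(3, 0), (3, 1), (3, 3), (4, 0), (4, 3), (4,
      4), (4, 5), (5, 3), (5, 4)], [(3, 3)], [7, 8], [(5, 3, []), (8, 3, [])]⟩]
  Ta := [((2, 1), 0, 6), ((2, 4), 0, 1), ((3, 0), 0, 2), ((3, 7), 0, 5), ((5, 4), 3, 1), ((5, 9),
    3, 7), ((8, 6), 3, 4), ((8, 10), 3, 8)]
  Tb := [((0, 1, 3), 2, 6, 0), ((1, 0, 2), 6, 2, 0), ((2, 1, 4), 0, 6, 1), ((3, 0, 7), 0, 2, 5),
    ((4, 2, 5), 1, 0, 3), ((5, 4, 9), 3, 1, 7), ((6, 7, 8), 4, 5, 3), ((7, 3, 6), 5, 0, 4),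
    ((8, 6, 10), 3, 4, 8), ((9, 5, 10), 7, 3, 8), ((10, 8, 9), 8, 3, 7)]
  Tc := [(1, 4, 5)]
  Td := [((1, 4), (4, 2), 0), ((1, 4), (4, 5), 3), ((1, 5), (4, 2), 0), ((1, 5), (4, 5), 3), ((4,
    1), (6, 7), 5), ((4, 1), (6, 8), 3), ((5, 1), (7, 3), 0), ((5, 1), (7, 6), 4)]
  G := [[0, 0x121411e2f91911868fa44111424711116cab141484de28c, 0,
    0x182834942c63286869c41d528324e4a5142438c8c, 0x942ea31828328686d4224178a83cf422489c2a],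
    [0, 0xf182f1f1686491829191666e78a4c, 0, 0xb22691f22ee784472a251f22eeb488c,
    0x72a251f22eeb48238f91722ee7a28942a], [0, 0, 0x21287c9e421223b4e8922421f4e2128f8ec126,
    0x21287c9e482421b4e84c1, 0x22528d69e42421b4e8c21], [0, 0,
    0x2a52ed3f68122fe84862d2b22c3fa422fe48c26, 0x223ee2d7fa482c27484c1,
    0x229ea5ffa4252748c21]]

noncomputable def n2841 : Ent := ⟨e2841, noF, [], [], [(8, 16, [7334685537875745012586738086077695515070955365108989538292687705300993, 0]), (8, 17, [6903326391201334775872065844685381424292761054348340378595029941317633, 0]), (8, 15, [7334790850167413569773436004105379185503274260204390087403942016286721, 0])]⟩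

def c2841 : PLift (Cov.check n2841.C.D v2841 = true) := ⟨by decide +kernel⟩

def b2841 : PLift (entF (fidx ts) 400 2841 n2841 = true) := ⟨by decide +kernel⟩

theorem g2841 : GoodF (fidx ts) 400 2841 := GoodF.ofV v2841 n2841 c2841.down b2841.down

/-- 4594445:2263/2 -/
noncomputable def e2842 : SCfg where
  D := {
    a := 7
    L := 8
    kp := 5
    inn := [(0, 1), (0, 2), (1, 0), (1, 2), (2, 0), (2, 1), (2, 3), (2, 4), (2, 5), (3, 2), (4, 2), (4,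
      6), (5, 2), (6, 4)]
    mix := [(0, 0), (0, 1), (1, 1), (1, 2), (1, 3), (2, 0), (2, 3), (2, 4), (2, 5), (3, 4), (3, 5), (3,
      6), (4, 3), (4, 4), (5, 0), (5, 5), (5, 7), (6, 2), (6, 3), (6, 4), (6, 6)]
    cl := [0, 2, 3, 0, 0, 1, 4, 5]
    chq := [(0, 1), (1, 0)]
    rng := [(0, 1), (0, 7), (1, 0), (1, 2), (2, 1), (2, 3), (2, 6), (3, 2), (4, 6), (5, 6), (5, 7), (6,
      2), (6, 4), (6, 5), (7, 0), (7, 5)]
    lev := [] }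
  links := [[1, 2, 7, 8], [2, 0, 8, 9, 10], [7, 0, 1, 10, 4, 11, 3, 12, 5], [12, 2, 11, 13], [11, 2, 10,
    6], [7, 2, 12, 14], [11, 4, 10, 9, 13]]
  P := {
    a := 7
    N := 15
    nb := [390, 1797, 7355, 14340, 3140, 20612, 11792, 16677, 643, 9538, 598, 8284, 24620, 6728, 4256]
    tri := [(0, 1, 2), (0, 1, 8), (0, 2, 7), (0, 7, 8), (1, 2, 10), (1, 8, 9), (1, 9, 10), (2, 3, 11),
      (2, 3, 12), (2, 4, 10), (2, 4, 11), (2, 5, 7), (2, 5, 12), (3, 11, 13), (3, 12, 13), (4, 6,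
      10), (4, 6, 11), (5, 7, 14), (5, 12, 14), (6, 9, 10), (6, 9, 13), (6, 11, 13)]
    fin := [0, 0, 0, 0, 0, 0, 0, 0, 8, 9, 0, 0, 12, 13, 14]
    chd := [(0, 12)]
    steps := [(0, 1), (0, 2), (0, 3), (0, 4), (0, 5), (0, 7), (0, 10), (0, 11), (0, 6)] }
  rep := [0, 12, 8, 9, 13, 14]

noncomputable def v2842 : Cov.CovD where
  P := 3
  N := 3
  pl := [1, 2, 6, 7]
  lev := [⟨[], [], [], [2], [(0, 0, [1])]⟩,
    ⟨[], [(0, 0)], [], [2, 3], [(3, 0, [1])]⟩,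
    ⟨[(0, 1)], [(0, 0), (0, 1), (1, 0), (1, 1)], [(0, 0), (0, 1)], [], [(0, 0, [1]), (3, 0,
      [1]), (4, 0, [1]), (5, 1, [0])]⟩,
    ⟨[(0, 2), (1, 2)], [(2, 0), (2, 1)], [(0, 1)], [4], [(4, 0, [1]), (5, 1, [0])]⟩,
    ⟨[(0, 2), (1, 2), (2, 3)], [(1, 0), (2, 0), (2, 1), (3, 0)], [(0, 0)], [], [(3, 0,
      [1]), (4, 0, [1])]⟩,
    ⟨[(0, 2), (1, 2), (2, 3), (2, 4)], [(0, 0), (2, 0), (2, 1), (3, 1)], [(0, 1)], [5],
      [(0, 0, [1]), (5, 1, [0])]⟩,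
    ⟨[(2, 4)], [(1, 0), (2, 0), (3, 0), (4, 0)], [(0, 0)], [3, 4], [(3, 0, [1]), (4, 0,
      [1])]⟩]
  Ta := [((0, 1), 0, 2), ((0, 7), 0, 5), ((3, 2), 0, 3), ((4, 6), 0, 4)]
  Tb := [((0, 1, 7), 0, 2, 5), ((1, 0, 2), 2, 0, 3), ((2, 1, 3), 3, 2, 0), ((2, 1, 6), 3, 2, 4),
    ((2, 3, 6), 3, 0, 4), ((5, 6, 7), 1, 4, 5), ((6, 2, 4), 4, 3, 0), ((6, 2, 5), 4, 3, 1),
    ((6, 4, 5), 4, 0, 1), ((7, 0, 5), 5, 0, 1)]
  Tc := []
  Td := [((0, 1), (0, 1), 2), ((0, 1), (0, 7), 5), ((0, 1), (3, 2), 3), ((0, 1), (4, 6), 4), ((1,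
    0), (5, 6), 4), ((1, 0), (5, 7), 5)]
  G := [[0, 0xcca4aac86214, 0xccc2146468c18a2, 0x28cec61418, 0x482aec85418], [0,
    0x8244cc8a2c4e218, 0, 0xa121461214c8, 0xc141861418a2], [0, 0xcca8aac46214, 0,
    0xa12618c418, 0xa12612c412]]

noncomputable def n2842 : Ent := ⟨e2842, noF, [], [], []⟩

def c2842 : PLift (Cov.check n2842.C.D v2842 = true) := ⟨by decide +kernel⟩

def b2842 : PLift (entF (fidx ts) 400 2842 n2842 = true) := ⟨by decide +kernel⟩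

theorem g2842 : GoodF (fidx ts) 400 2842 := GoodF.ofV v2842 n2842 c2842.down b2842.down

/-- 4594445:2263/1 -/
noncomputable def e2843 : SCfg where
  D := {
    a := 7
    L := 9
    kp := 6
    inn := [(0, 1), (0, 2), (1, 0), (1, 2), (2, 0), (2, 1), (2, 3), (2, 4), (2, 5), (3, 2), (4, 2), (4,
      6), (5, 2), (6, 4)]
    mix := [(0, 0), (0, 1), (1, 1), (1, 2), (1, 3), (2, 0), (2, 3), (2, 4), (2, 5), (3, 4), (3, 5), (3,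
      6), (4, 3), (4, 4), (5, 0), (5, 5), (5, 7), (6, 2), (6, 3), (6, 4), (6, 8)]
    cl := [0, 2, 3, 0, 0, 1, 4, 5, 6]
    chq := [(0, 1), (1, 0)]
    rng := [(0, 1), (0, 7), (1, 0), (1, 2), (2, 1), (2, 3), (2, 8), (3, 2), (4, 6), (4, 8), (5, 6), (5,
      7), (6, 4), (6, 5), (7, 0), (7, 5), (8, 2), (8, 4)]
    lev := [] }
  links := [[1, 2, 7, 8], [2, 0, 8, 9, 10], [7, 0, 1, 10, 4, 11, 3, 12, 5], [12, 2, 11, 13], [11, 2, 10,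
    6], [7, 2, 12, 14], [11, 4, 10, 9, 15]]
  P := {
    a := 7
    N := 16
    nb := [390, 1797, 7355, 14340, 3140, 20612, 36368, 16677, 643, 34114, 598, 41052, 24620, 6152,
      4256, 2624]
    tri := [(0, 1, 2), (0, 1, 8), (0, 2, 7), (0, 7, 8), (1, 2, 10), (1, 8, 9), (1, 9, 10), (2, 3, 11),
      (2, 3, 12), (2, 4, 10), (2, 4, 11), (2, 5, 7), (2, 5, 12), (3, 11, 13), (3, 12, 13), (4, 6,
      10), (4, 6, 11), (5, 7, 14), (5, 12, 14), (6, 9, 10), (6, 9, 15), (6, 11, 15)]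
    fin := [0, 0, 0, 0, 0, 0, 0, 0, 8, 9, 0, 0, 12, 13, 14, 15]
    chd := [(0, 12)]
    steps := [(0, 1), (0, 2), (0, 3), (0, 4), (0, 5), (0, 7), (0, 10), (0, 6), (0, 11)] }
  rep := [0, 12, 8, 9, 13, 14, 15]

noncomputable def v2843 : Cov.CovD where
  P := 3
  N := 4
  pl := [1, 2, 6, 7, 8]
  lev := [⟨[], [], [], [2], [(0, 0, [1])]⟩,
    ⟨[], [(0, 0)], [], [2, 3], [(3, 0, [1])]⟩,
    ⟨[(0, 1)], [(0, 0), (0, 1), (1, 0), (1, 1)], [(0, 0), (0, 1)], [], [(0, 0, [1]), (3, 0,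
      [1]), (4, 0, [1]), (5, 1, [0])]⟩,
    ⟨[(0, 2), (1, 2)], [(2, 0), (2, 1)], [(0, 1)], [4], [(4, 0, [1]), (5, 1, [0])]⟩,
    ⟨[(0, 2), (1, 2), (2, 3)], [(1, 0), (2, 0), (2, 1), (3, 0)], [(0, 0)], [], [(3, 0,
      [1]), (4, 0, [1])]⟩,
    ⟨[(0, 2), (1, 2), (2, 3), (2, 4)], [(0, 0), (2, 0), (2, 1), (3, 1)], [(0, 1)], [5],
      [(0, 0, [1]), (5, 1, [0])]⟩,
    ⟨[(2, 4)], [(1, 0), (2, 0), (3, 0), (4, 0)], [(0, 0)], [3, 6], [(3, 0, [1]), (4, 0,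
      [1])]⟩]
  Ta := [((0, 1), 0, 2), ((0, 7), 0, 5), ((3, 2), 0, 3), ((4, 6), 0, 4), ((4, 8), 0, 6)]
  Tb := [((0, 1, 7), 0, 2, 5), ((1, 0, 2), 2, 0, 3), ((2, 1, 3), 3, 2, 0), ((2, 1, 8), 3, 2, 6),
    ((2, 3, 8), 3, 0, 6), ((4, 6, 8), 0, 4, 6), ((5, 6, 7), 1, 4, 5), ((6, 4, 5), 4, 0, 1),
    ((7, 0, 5), 5, 0, 1), ((8, 2, 4), 6, 3, 0)]
  Tc := []
  Td := [((0, 1), (0, 1), 2), ((0, 1), (0, 7), 5), ((0, 1), (3, 2), 3), ((0, 1), (4, 6), 4), ((0,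
    1), (4, 8), 6), ((1, 0), (5, 6), 4), ((1, 0), (5, 7), 5)]
  G := [[0, 0xee68eec86214, 0xccc418aac41862, 0xeec41814, 0xeec21412], [0, 0xeea4eea4c218, 0,
    0xa121861418c4, 0xc121461418a8], [0, 0xeec4eea4c214, 0, 0xe18e12c418, 0xe124e128c18]]

noncomputable def n2843 : Ent := ⟨e2843, noF, [], [], [(15, 13, [360048296834107614573520772494203283988579150297652619088338945, 0])]⟩

def c2843 : PLift (Cov.check n2843.C.D v2843 = true) := ⟨by decide +kernel⟩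

def b2843 : PLift (entF (fidx ts) 400 2843 n2843 = true) := ⟨by decide +kernel⟩

theorem g2843 : GoodF (fidx ts) 400 2843 := GoodF.ofV v2843 n2843 c2843.down b2843.down

/-- 4594445:2263/3 -/
noncomputable def e2844 : SCfg where
  D := {
    a := 7
    L := 9
    kp := 6
    inn := [(0, 1), (0, 2), (1, 0), (1, 2), (2, 0), (2, 1), (2, 3), (2, 4), (2, 5), (3, 2), (4, 2), (4,
      6), (5, 2), (6, 4)]
    mix := [(0, 0), (0, 1), (1, 1), (1, 2), (1, 3), (2, 0), (2, 3), (2, 4), (2, 5), (3, 4), (3, 5), (3,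
      6), (4, 3), (4, 4), (5, 0), (5, 5), (5, 7), (6, 3), (6, 4), (6, 6), (6, 8)]
    cl := [0, 2, 4, 0, 0, 1, 3, 5, 6]
    chq := [(0, 1), (1, 0)]
    rng := [(0, 1), (0, 7), (1, 0), (1, 2), (2, 1), (2, 3), (3, 2), (3, 8), (4, 6), (5, 6), (5, 7), (6,
      4), (6, 5), (6, 8), (7, 0), (7, 5), (8, 3), (8, 6)]
    lev := [] }
  links := [[1, 2, 7, 8], [2, 0, 8, 9, 10], [7, 0, 1, 10, 4, 11, 3, 12, 5], [12, 2, 11, 13], [11, 2, 10,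
    6], [7, 2, 12, 14], [11, 4, 10, 15, 13]]
  P := {
    a := 7
    N := 16
    nb := [390, 1797, 7355, 14340, 3140, 20612, 44048, 16677, 643, 1282, 33366, 8284, 24620, 38984,
      4256, 9280]
    tri := [(0, 1, 2), (0, 1, 8), (0, 2, 7), (0, 7, 8), (1, 2, 10), (1, 8, 9), (1, 9, 10), (2, 3, 11),
      (2, 3, 12), (2, 4, 10), (2, 4, 11), (2, 5, 7), (2, 5, 12), (3, 11, 13), (3, 12, 13), (4, 6,
      10), (4, 6, 11), (5, 7, 14), (5, 12, 14), (6, 10, 15), (6, 11, 13), (6, 13, 15)]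
    fin := [0, 0, 0, 0, 0, 0, 0, 0, 8, 9, 0, 0, 12, 13, 14, 15]
    chd := [(0, 12)]
    steps := [(0, 1), (0, 2), (0, 3), (0, 4), (0, 5), (0, 7), (0, 10), (0, 11), (0, 6)] }
  rep := [0, 12, 8, 13, 9, 14, 15]

noncomputable def v2844 : Cov.CovD where
  P := 3
  N := 4
  pl := [1, 2, 6, 7, 8]
  lev := [⟨[], [], [], [2], [(0, 0, [1])]⟩,
    ⟨[], [(0, 0)], [], [2, 4], [(3, 0, [1])]⟩,
    ⟨[(0, 1)], [(0, 0), (0, 1), (1, 0), (1, 1)], [(0, 0), (0, 1)], [], [(0, 0, [1]), (3, 0,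
      [1]), (4, 0, [1]), (5, 1, [0])]⟩,
    ⟨[(0, 2), (1, 2)], [(2, 0), (2, 1)], [(0, 1)], [3], [(4, 0, [1]), (5, 1, [0])]⟩,
    ⟨[(0, 2), (1, 2), (2, 3)], [(1, 0), (2, 0), (2, 1), (3, 0)], [(0, 0)], [], [(3, 0,
      [1]), (4, 0, [1])]⟩,
    ⟨[(0, 2), (1, 2), (2, 3), (2, 4)], [(0, 0), (2, 0), (2, 1), (3, 1)], [(0, 1)], [5],
      [(0, 0, [1]), (5, 1, [0])]⟩,
    ⟨[(2, 4)], [(1, 0), (2, 0), (3, 0), (4, 0)], [(0, 0)], [3, 6], [(3, 0, [1]), (4, 0,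
      [1])]⟩]
  Ta := [((0, 1), 0, 2), ((0, 7), 0, 5), ((3, 2), 0, 4), ((3, 8), 0, 6), ((4, 6), 0, 3)]
  Tb := [((0, 1, 7), 0, 2, 5), ((1, 0, 2), 2, 0, 4), ((2, 1, 3), 4, 2, 0), ((3, 2, 8), 0, 4, 6),
    ((5, 6, 7), 1, 3, 5), ((6, 4, 5), 3, 0, 1), ((6, 4, 8), 3, 0, 6), ((6, 5, 8), 3, 1, 6),
    ((7, 0, 5), 5, 0, 1), ((8, 3, 6), 6, 0, 3)]
  Tc := []
  Td := [((0, 1), (0, 1), 2), ((0, 1), (0, 7), 5), ((0, 1), (3, 2), 4), ((0, 1), (3, 8), 6), ((0,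
    1), (4, 6), 3), ((1, 0), (5, 6), 3), ((1, 0), (5, 7), 5)]
  G := [[0, 0xccc2aac86214, 0xe421e881ceec418c4, 0xeec21814, 0xeec21812], [0, 0xcc64aa646818, 0,
    0xe1214e1418c8, 0xe14186181c18a2], [0, 0xccc2aac86218, 0, 0xa14614c814, 0xa12612c418]]

noncomputable def n2844 : Ent := ⟨e2844, noF, [], [], [(9, 15, [360035742630636841211993100915356868655746945586763691019313153, 0])]⟩

def c2844 : PLift (Cov.check n2844.C.D v2844 = true) := ⟨by decide +kernel⟩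

def b2844 : PLift (entF (fidx ts) 400 2844 n2844 = true) := ⟨by decide +kernel⟩

theorem g2844 : GoodF (fidx ts) 400 2844 := GoodF.ofV v2844 n2844 c2844.down b2844.down

/-- 4594445:2263 -/
noncomputable def e2845 : SCfg where
  D := {
    a := 7
    L := 10
    kp := 7
    inn := [(0, 1), (0, 2), (1, 0), (1, 2), (2, 0), (2, 1), (2, 3), (2, 4), (2, 5), (3, 2), (4, 2), (4,
      6), (5, 2), (6, 4)]
    mix := [(0, 0), (0, 1), (1, 1), (1, 2), (1, 3), (2, 0), (2, 3), (2, 4), (2, 5), (3, 4), (3, 5), (3,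
      6), (4, 3), (4, 4), (5, 0), (5, 5), (5, 7), (6, 3), (6, 4), (6, 8), (6, 9)]
    cl := [0, 2, 3, 0, 0, 1, 4, 5, 6, 7]
    chq := [(0, 1), (1, 0)]
    rng := [(0, 1), (0, 7), (1, 0), (1, 2), (2, 1), (2, 3), (3, 2), (3, 8), (4, 6), (4, 9), (5, 6), (5,
      7), (6, 4), (6, 5), (7, 0), (7, 5), (8, 3), (8, 9), (9, 4), (9, 8)]
    lev := [] }
  links := [[1, 2, 7, 8], [2, 0, 8, 9, 10], [7, 0, 1, 10, 4, 11, 3, 12, 5], [12, 2, 11, 13], [11, 2, 10,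
    6], [7, 2, 12, 14], [11, 4, 10, 15, 16]]
  P := {
    a := 7
    N := 17
    nb := [390, 1797, 7355, 14340, 3140, 20612, 101392, 16677, 643, 1282, 33366, 73820, 24620, 6152,
      4256, 66624, 34880]
    tri := [(0, 1, 2), (0, 1, 8), (0, 2, 7), (0, 7, 8), (1, 2, 10), (1, 8, 9), (1, 9, 10), (2, 3, 11),
      (2, 3, 12), (2, 4, 10), (2, 4, 11), (2, 5, 7), (2, 5, 12), (3, 11, 13), (3, 12, 13), (4, 6,
      10), (4, 6, 11), (5, 7, 14), (5, 12, 14), (6, 10, 15), (6, 11, 16), (6, 15, 16)]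
    fin := [0, 0, 0, 0, 0, 0, 0, 0, 8, 9, 0, 0, 12, 13, 14, 15, 16]
    chd := [(0, 12)]
    steps := [(0, 1), (0, 2), (0, 3), (0, 4), (0, 5), (0, 6), (0, 7), (0, 10), (0, 11)] }
  rep := [0, 12, 8, 9, 13, 14, 15, 16]

noncomputable def v2845 : Cov.CovD where
  P := 3
  N := 5
  pl := [1, 2, 6, 7, 8, 9]
  lev := [⟨[], [], [], [2], [(0, 0, [1])]⟩,
    ⟨[], [(0, 0)], [], [2, 3], [(3, 0, [1])]⟩,
    ⟨[(0, 1)], [(0, 0), (0, 1), (1, 0), (1, 1)], [(0, 0), (0, 1)], [], [(0, 0, [1]), (3, 0,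
      [1]), (4, 0, [1]), (5, 1, [0])]⟩,
    ⟨[(0, 2), (1, 2)], [(2, 0), (2, 1)], [(0, 1)], [4], [(4, 0, [1]), (5, 1, [0])]⟩,
    ⟨[(0, 2), (1, 2), (2, 3)], [(1, 0), (2, 0), (2, 1), (3, 0)], [(0, 0)], [], [(3, 0,
      [1]), (4, 0, [1])]⟩,
    ⟨[(0, 2), (1, 2), (2, 3), (2, 4)], [(0, 0), (2, 0), (2, 1), (3, 1)], [(0, 1)], [5],
      [(0, 0, [1]), (5, 1, [0])]⟩,
    ⟨[(2, 4)], [(1, 0), (2, 0), (3, 0), (4, 0)], [(0, 0)], [6, 7], [(3, 0, [1]), (4, 0,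
      [1])]⟩]
  Ta := [((0, 1), 0, 2), ((0, 7), 0, 5), ((3, 2), 0, 3), ((3, 8), 0, 6), ((4, 6), 0, 4), ((4, 9),
    0, 7)]
  Tb := [((0, 1, 7), 0, 2, 5), ((1, 0, 2), 2, 0, 3), ((2, 1, 3), 3, 2, 0), ((3, 2, 8), 0, 3, 6),
    ((4, 6, 9), 0, 4, 7), ((5, 6, 7), 1, 4, 5), ((6, 4, 5), 4, 0, 1), ((7, 0, 5), 5, 0, 1),
    ((8, 3, 9), 6, 0, 7), ((9, 4, 8), 7, 0, 6)]
  Tc := []
  Td := [((0, 1), (0, 1), 2), ((0, 1), (0, 7), 5), ((0, 1), (3, 2), 3), ((0, 1), (3, 8), 6), ((0,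
    1), (4, 6), 4), ((0, 1), (4, 9), 7), ((1, 0), (5, 6), 4), ((1, 0), (5, 7), 5)]
  G := [[0, 0xeec4eec4a214, 0xeec814eec214a2, 0xeec81418, 0xeec21418], [0, 0xeea8eea2a414, 0,
    0xe1814e1814c8, 0xe1814e1418a8], [0, 0xee64eec4a214, 0, 0xe12e12c814, 0xe12e12c418]]

noncomputable def n2845 : Ent := ⟨e2845, noF, [], [], [(9, 15, [1685356702439545624007900436039642273970977273354372543760011735041, 0]), (16, 13, [1580044429602293643470024699863340111275081426260889765897804300289, 0])]⟩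

def c2845 : PLift (Cov.check n2845.C.D v2845 = true) := ⟨by decide +kernel⟩

def b2845 : PLift (entF (fidx ts) 400 2845 n2845 = true) := ⟨by decide +kernel⟩

theorem g2845 : GoodF (fidx ts) 400 2845 := GoodF.ofV v2845 n2845 c2845.down b2845.down

/-- 4594464:2265/1 -/
noncomputable def e2846 : SCfg where
  D := {
    a := 7
    L := 10
    kp := 7
    inn := [(0, 1), (0, 2), (1, 0), (1, 2), (2, 0), (2, 1), (2, 3), (2, 4), (2, 5), (3, 2), (4, 2), (5,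
      2), (5, 6), (6, 5)]
    mix := [(0, 0), (0, 1), (1, 1), (1, 2), (1, 3), (2, 0), (2, 3), (2, 4), (2, 5), (3, 4), (3, 5), (3,
      6), (4, 3), (4, 4), (4, 7), (5, 0), (5, 5), (5, 8), (5, 9), (6, 5), (6, 6), (6, 8)]
    cl := [0, 2, 6, 0, 1, 0, 3, 7, 4, 5]
    chq := [(0, 1), (1, 0), (3, 5), (5, 3)]
    rng := [(0, 1), (0, 9), (1, 0), (1, 2), (2, 1), (2, 3), (3, 2), (3, 7), (4, 6), (4, 7), (5, 6), (6,
      4), (6, 5), (6, 8), (7, 3), (7, 4), (8, 6), (8, 9), (9, 0), (9, 8)]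
    lev := [] }
  links := [[1, 2, 7, 8], [2, 0, 8, 9, 10], [7, 0, 1, 10, 4, 11, 3, 12, 5], [12, 2, 11, 13], [11, 2, 10,
    14], [7, 2, 12, 6, 15, 16], [15, 5, 12, 13]]
  P := {
    a := 7
    N := 17
    nb := [390, 1797, 7355, 14340, 19460, 102596, 45088, 65829, 643, 1282, 16918, 24604, 8300, 38984,
      3088, 73824, 32928]
    tri := [(0, 1, 2), (0, 1, 8), (0, 2, 7), (0, 7, 8), (1, 2, 10), (1, 8, 9), (1, 9, 10), (2, 3, 11),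
      (2, 3, 12), (2, 4, 10), (2, 4, 11), (2, 5, 7), (2, 5, 12), (3, 11, 13), (3, 12, 13), (4, 10,
      14), (4, 11, 14), (5, 6, 12), (5, 6, 15), (5, 7, 16), (5, 15, 16), (6, 12, 13), (6, 13, 15)]
    fin := [0, 0, 0, 0, 0, 5, 5, 0, 8, 9, 0, 11, 0, 5, 14, 15, 16]
    chd := [(0, 11), (5, 16)]
    steps := [(0, 1), (0, 2), (0, 3), (0, 4), (0, 7), (0, 10), (0, 12), (5, 6), (5, 13)] }
  rep := [0, 11, 8, 5, 15, 16, 9, 14]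

noncomputable def v2846 : Cov.CovD where
  P := 3
  N := 5
  pl := [1, 2, 7, 8]
  lev := [⟨[], [], [], [2], [(0, 0, [1])]⟩,
    ⟨[], [(0, 0)], [], [2, 6], [(3, 0, [1])]⟩,
    ⟨[(0, 1)], [(0, 0), (0, 1), (1, 0), (1, 1)], [(0, 0), (0, 1)], [], [(0, 0, [1]), (3, 0,
      [1]), (4, 1, [0]), (5, 0, [1])]⟩,
    ⟨[(0, 2), (1, 2)], [(2, 0), (2, 1), (2, 3)], [(0, 1), (0, 3), (1, 3)], [], [(4, 1,
      [0]), (5, 0, [1]), (6, 3, [5])]⟩,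
    ⟨[(0, 2), (1, 2), (2, 3)], [(1, 0), (2, 0), (2, 1), (3, 1)], [(0, 1)], [7], [(3, 0,
      [1]), (4, 1, [0])]⟩,
    ⟨[(0, 2), (1, 2), (2, 3), (2, 4)], [(0, 0), (2, 0), (2, 1), (2, 5), (3, 0)], [(0, 0),
      (0, 5)], [4], [(0, 0, [1]), (5, 0, [1]), (9, 5, [3])]⟩,
    ⟨[(2, 5)], [(2, 0), (3, 0), (3, 3), (5, 0), (5, 3), (5, 5)], [(0, 3)], [4], [(5, 0,
      [1]), (6, 3, [5])]⟩]
  Ta := [((0, 1), 0, 2), ((0, 9), 0, 5), ((3, 2), 0, 6), ((3, 7), 0, 7), ((5, 6), 0, 3)]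
  Tb := [((0, 1, 9), 0, 2, 5), ((1, 0, 2), 2, 0, 6), ((2, 1, 3), 6, 2, 0), ((3, 2, 7), 0, 6, 7),
    ((4, 6, 7), 1, 3, 7), ((6, 4, 5), 3, 1, 0), ((6, 4, 8), 3, 1, 4), ((6, 5, 8), 3, 0, 4),
    ((7, 3, 4), 7, 0, 1), ((8, 6, 9), 4, 3, 5), ((9, 0, 8), 5, 0, 4)]
  Tc := []
  Td := [((0, 1), (0, 1), 2), ((0, 1), (0, 9), 5), ((0, 1), (3, 2), 6), ((0, 1), (3, 7), 7), ((0,
    1), (5, 6), 3), ((1, 0), (4, 6), 3), ((1, 0), (4, 7), 7), ((3, 5), (6, 4), 1), ((3, 5),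
    (6, 5), 0), ((3, 5), (6, 8), 4), ((5, 3), (9, 0), 0), ((5, 3), (9, 8), 4)]
  G := [[0, 0x481e481e6126138e28e6814, 0x68114a4116ca11cac6118e8, 0xac6116811c6ace118c4,
    0x6ace1146ace114a8], [0, 0x132e22819e814ce4ca14, 0,
    0x6ace6cac14ac6416ca81cca4418a468c18c9, 0xa4416ace6cac1ca44114862ce6cac9ca1], [0,
    0x3412ac28281ca14a4c6cca14, 0, 0x4c6148a2e1681cca4164ce1c82a18cc1,
    0xac64466642ecc8a8e88c688cc12]]

noncomputable def n2846 : Ent := ⟨e2846, noF, [], [], []⟩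

def c2846 : PLift (Cov.check n2846.C.D v2846 = true) := ⟨by decide +kernel⟩

def b2846 : PLift (entF (fidx ts) 400 2846 n2846 = true) := ⟨by decide +kernel⟩

theorem g2846 : GoodF (fidx ts) 400 2846 := GoodF.ofV v2846 n2846 c2846.down b2846.down

/-- 4594464:2265 -/
noncomputable def e2847 : SCfg where
  D := {
    a := 7
    L := 11
    kp := 8
    inn := [(0, 1), (0, 2), (1, 0), (1, 2), (2, 0), (2, 1), (2, 3), (2, 4), (2, 5), (3, 2), (4, 2), (5,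
      2), (5, 6), (6, 5)]
    mix := [(0, 0), (0, 1), (1, 1), (1, 2), (1, 3), (2, 0), (2, 3), (2, 4), (2, 5), (3, 4), (3, 5), (3,
      6), (4, 3), (4, 4), (4, 7), (5, 0), (5, 5), (5, 8), (5, 9), (6, 5), (6, 8), (6, 10)]
    cl := [0, 2, 6, 0, 1, 0, 7, 8, 3, 4, 5]
    chq := [(0, 1), (1, 0), (4, 5), (5, 4)]
    rng := [(0, 1), (0, 9), (1, 0), (1, 2), (2, 1), (2, 3), (3, 2), (3, 7), (4, 6), (4, 7), (5, 6), (5,
      10), (6, 4), (6, 5), (7, 3), (7, 4), (8, 9), (8, 10), (9, 0), (9, 8), (10, 5), (10, 8)]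
    lev := [] }
  links := [[1, 2, 7, 8], [2, 0, 8, 9, 10], [7, 0, 1, 10, 4, 11, 3, 12, 5], [12, 2, 11, 13], [11, 2, 10,
    14], [7, 2, 12, 6, 15, 16], [15, 5, 12, 17]]
  P := {
    a := 7
    N := 18
    nb := [390, 1797, 7355, 14340, 19460, 102596, 167968, 65829, 643, 1282, 16918, 24604, 139372,
      6152, 3088, 196704, 32928, 36928]
    tri := [(0, 1, 2), (0, 1, 8), (0, 2, 7), (0, 7, 8), (1, 2, 10), (1, 8, 9), (1, 9, 10), (2, 3, 11),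
      (2, 3, 12), (2, 4, 10), (2, 4, 11), (2, 5, 7), (2, 5, 12), (3, 11, 13), (3, 12, 13), (4, 10,
      14), (4, 11, 14), (5, 6, 12), (5, 6, 15), (5, 7, 16), (5, 15, 16), (6, 12, 17), (6, 15, 17)]
    fin := [0, 0, 0, 0, 0, 5, 5, 0, 8, 9, 0, 11, 0, 13, 14, 15, 16, 5]
    chd := [(0, 11), (16, 5)]
    steps := [(0, 1), (0, 2), (0, 3), (0, 4), (0, 7), (0, 10), (0, 12), (5, 6), (5, 17)] }
  rep := [0, 11, 8, 15, 16, 5, 9, 13, 14]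

noncomputable def v2847 : Cov.CovD where
  P := 3
  N := 6
  pl := [1, 2, 6, 7, 8]
  lev := [⟨[], [], [], [2], [(0, 0, [1])]⟩,
    ⟨[], [(0, 0)], [], [2, 6], [(3, 0, [1])]⟩,
    ⟨[(0, 1)], [(0, 0), (0, 1), (1, 0), (1, 1)], [(0, 0), (0, 1)], [], [(0, 0, [1]), (3, 0,
      [1]), (4, 1, [0]), (5, 0, [1])]⟩,
    ⟨[(0, 2), (1, 2)], [(2, 0), (2, 1)], [(0, 1)], [7], [(4, 1, [0]), (5, 0, [1])]⟩,
    ⟨[(0, 2), (1, 2), (2, 3)], [(1, 0), (2, 0), (2, 1), (3, 1)], [(0, 1)], [8], [(3, 0,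
      [1]), (4, 1, [0])]⟩,
    ⟨[(0, 2), (1, 2), (2, 3), (2, 4)], [(0, 0), (2, 0), (2, 1), (2, 4), (3, 0)], [(0, 0),
      (0, 4)], [3], [(0, 0, [1]), (5, 0, [1]), (9, 4, [5])]⟩,
    ⟨[(2, 5)], [(2, 0), (3, 0), (5, 0), (5, 4), (5, 5)], [(0, 5)], [3], [(5, 0, [1]), (10,
      5, [4])]⟩]
  Ta := [((0, 1), 0, 2), ((0, 9), 0, 4), ((3, 2), 0, 6), ((3, 7), 0, 8), ((5, 6), 0, 7), ((5,
    10), 0, 5)]
  Tb := [((0, 1, 9), 0, 2, 4), ((1, 0, 2), 2, 0, 6), ((2, 1, 3), 6, 2, 0), ((3, 2, 7), 0, 6, 8),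
    ((4, 6, 7), 1, 7, 8), ((5, 6, 10), 0, 7, 5), ((6, 4, 5), 7, 1, 0), ((7, 3, 4), 8, 0, 1),
    ((8, 9, 10), 3, 4, 5), ((9, 0, 8), 4, 0, 3), ((10, 5, 8), 5, 0, 3)]
  Tc := []
  Td := [((0, 1), (0, 1), 2), ((0, 1), (0, 9), 4), ((0, 1), (3, 2), 6), ((0, 1), (3, 7), 8), ((0,
    1), (5, 6), 7), ((0, 1), (5, 10), 5), ((1, 0), (4, 6), 7), ((1, 0), (4, 7), 8), ((4, 5),
    (9, 0), 0), ((4, 5), (9, 8), 3), ((5, 4), (10, 5), 0), ((5, 4), (10, 8), 3)]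
  G := [[0, 0x3569218e51ac2a4e31c4e218, 0x181181c4ac61186ace114e8, 0xac6116811c6ace118c4,
    0x6ace1146ace114a8], [0, 0x122261ad4a11ce459c68ce618, 0,
    0xac6416ace68c1cac66acec16881cc1, 0xac6416ace68c1cac66acec16881ca2], [0,
    0xa562916465a1e8182684ea18, 0, 0xa468c688c41ac64ac66acecc6ca88c1c,
    0xa4146ace16ca1ccac616ace1c6818ca2]]

noncomputable def n2847 : Ent := ⟨e2847, noF, [], [], [(13, 17, [6903326391201334775872065844685381424292761054348340378595029941346305, 0])]⟩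

def c2847 : PLift (Cov.check n2847.C.D v2847 = true) := ⟨by decide +kernel⟩

def b2847 : PLift (entF (fidx ts) 400 2847 n2847 = true) := ⟨by decide +kernel⟩

theorem g2847 : GoodF (fidx ts) 400 2847 := GoodF.ofV v2847 n2847 c2847.down b2847.down

/-- 4646944:2268/1 -/
noncomputable def e2848 : SCfg where
  D := {
    a := 7
    L := 9
    kp := 7
    inn := [(0, 1), (0, 3), (0, 4), (1, 0), (1, 2), (1, 4), (1, 5), (2, 1), (2, 4), (3, 0), (3, 4), (4,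
      0), (4, 1), (4, 2), (4, 3), (4, 6), (5, 1), (6, 4)]
    mix := [(0, 0), (1, 0), (1, 1), (2, 1), (2, 2), (3, 0), (3, 3), (3, 4), (3, 5), (4, 2), (4, 5), (4,
      6), (4, 7), (5, 0), (5, 1), (5, 3), (6, 5), (6, 6), (6, 8)]
    cl := [3, 1, 2, 4, 6, 0, 5, 0, 7]
    chq := [(1, 3), (2, 3), (2, 4), (2, 6), (3, 1), (3, 2), (4, 2), (6, 2)]
    rng := [(0, 3), (1, 2), (1, 3), (2, 1), (2, 7), (3, 0), (3, 1), (3, 4), (4, 3), (4, 5), (5, 4), (5,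
      8), (6, 7), (6, 8), (7, 2), (7, 6), (8, 5), (8, 6)]
    lev := [] }
  links := [[1, 7, 3, 4], [7, 0, 4, 2, 8, 5], [8, 1, 4, 9], [4, 0, 7, 10, 11, 12], [9, 2, 1, 0, 3, 12, 6,
    13, 14], [7, 1, 8, 10], [13, 4, 12, 15]]
  P := {
    a := 7
    N := 16
    nb := [154, 437, 786, 7313, 29263, 1410, 45072, 1067, 1574, 16660, 2472, 5128, 34904, 49232, 8720,
      12352]
    tri := [(0, 1, 4), (0, 1, 7), (0, 3, 4), (0, 3, 7), (1, 2, 4), (1, 2, 8), (1, 5, 7), (1, 5, 8), (2,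
      4, 9), (2, 8, 9), (3, 4, 12), (3, 7, 10), (3, 10, 11), (3, 11, 12), (4, 6, 12), (4, 6, 13),
      (4, 9, 14), (4, 13, 14), (5, 7, 10), (5, 8, 10), (6, 12, 15), (6, 13, 15)]
    fin := [0, 0, 0, 0, 4, 5, 4, 5, 8, 0, 10, 11, 4, 13, 4, 15]
    chd := [(0, 10), (0, 11), (5, 0), (5, 8)]
    steps := [(0, 1), (0, 2), (0, 3), (0, 9), (4, 6), (4, 12), (4, 14), (5, 7)] }
  rep := [4, 8, 0, 5, 10, 13, 11, 15]

noncomputable def v2848 : Cov.CovD where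
  P := 3
  N := 5
  pl := [6, 8]
  lev := [⟨[], [], [], [], [(0, 3, [1, 2])]⟩,
    ⟨[], [(0, 1), (0, 3)], [(1, 3)], [], [(0, 3, [1, 2]), (1, 1, [3])]⟩,
    ⟨[(0, 1)], [(1, 1), (1, 2), (1, 3)], [(1, 2)], [], [(1, 1, [3]), (2, 2, [3, 4, 6])]⟩,
    ⟨[(0, 1)], [(0, 0), (0, 3), (0, 4), (0, 6), (1, 3)], [(0, 3), (0, 4), (0, 6), (3, 4),
      (3, 6), (4, 6)], [], [(0, 3, [1, 2]), (3, 4, [2]), (4, 6, [2]), (5, 0, [])]⟩,
    ⟨[(0, 1), (0, 2), (0, 3), (1, 2), (1, 3), (2, 3)], [(0, 0), (0, 2), (0, 3), (1, 0), (1,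
      1), (1, 2), (1, 3), (2, 0), (2, 1), (2, 2), (3, 0), (3, 2), (3, 3), (3, 4), (3, 6)],
      [(0, 0), (0, 2)], [5], [(2, 2, [3, 4, 6]), (5, 0, []), (7, 0, [])]⟩,
    ⟨[(0, 1), (1, 2), (1, 4)], [(0, 3), (1, 1), (1, 3), (1, 4), (2, 1), (3, 3), (3, 4)],
      [(1, 3), (1, 4), (3, 4)], [], [(0, 3, [1, 2]), (1, 1, [3]), (3, 4, [2])]⟩,
    ⟨[(0, 4), (1, 4), (2, 4), (3, 4)], [(3, 0), (4, 0), (4, 2)], [], [5, 7], [(5, 0, [])]⟩]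
  Ta := [((5, 4), 0, 6), ((5, 8), 0, 7), ((7, 2), 0, 2), ((7, 6), 0, 5)]
  Tb := [((1, 2, 3), 1, 2, 4), ((2, 1, 7), 2, 1, 0), ((3, 0, 1), 4, 3, 1), ((3, 0, 4), 4, 3, 6),
    ((3, 1, 4), 4, 1, 6), ((4, 3, 5), 6, 4, 0), ((5, 4, 8), 0, 6, 7), ((6, 7, 8), 5, 0, 7),
    ((7, 2, 6), 0, 2, 5), ((8, 5, 6), 7, 0, 5)]
  Tc := [(2, 3, 4), (2, 3, 6), (2, 4, 6), (3, 1, 2)]
  Td := [((1, 3), (1, 2), 2), ((1, 3), (1, 3), 4), ((2, 3), (2, 1), 1), ((2, 3), (2, 7), 0), ((2,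
    4), (2, 1), 1), ((2, 4), (2, 7), 0), ((2, 6), (2, 1), 1), ((2, 6), (2, 7), 0), ((3, 1),
    (0, 3), 4), ((3, 2), (0, 3), 4), ((4, 2), (3, 0), 3), ((4, 2), (3, 1), 1), ((4, 2), (3,
    4), 6), ((6, 2), (4, 3), 4), ((6, 2), (4, 5), 0)]
  G := [[0, 0x66c422aac82222a666c288a82ce1, 0, 0x66c421aac82144542aa9225c2cd2,
    0x66c2416292485ccc841cc941a4456252484b], [0, 0xb1c42417c8281da116c24e1, 0x6141a181c12,
    0x51c42137c828ad9115c24d2, 0x3888cc111da588c18f1491924183]]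

noncomputable def n2848 : Ent := ⟨e2848, noF, [], [], []⟩

def c2848 : PLift (Cov.check n2848.C.D v2848 = true) := ⟨by decide +kernel⟩

def b2848 : PLift (entF (fidx ts) 400 2848 n2848 = true) := ⟨by decide +kernel⟩

theorem g2848 : GoodF (fidx ts) 400 2848 := GoodF.ofV v2848 n2848 c2848.down b2848.down

/-- 4646944:2268 -/
noncomputable def e2849 : SCfg where
  D := {
    a := 7
    L := 10
    kp := 8
    inn := [(0, 1), (0, 3), (0, 4), (1, 0), (1, 2), (1, 4), (1, 5), (2, 1), (2, 4), (3, 0), (3, 4), (4,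
      0), (4, 1), (4, 2), (4, 3), (4, 6), (5, 1), (6, 4)]
    mix := [(0, 0), (1, 0), (1, 1), (2, 1), (2, 2), (3, 0), (3, 3), (3, 4), (3, 5), (4, 2), (4, 5), (4,
      6), (4, 7), (5, 0), (5, 1), (5, 8), (6, 5), (6, 6), (6, 9)]
    cl := [0, 1, 2, 5, 6, 3, 4, 3, 7, 8]
    chq := [(0, 1), (0, 2), (1, 0), (2, 0), (2, 5), (2, 6), (5, 2), (6, 2)]
    rng := [(0, 3), (0, 8), (1, 2), (1, 8), (2, 1), (2, 7), (3, 0), (3, 4), (4, 3), (4, 5), (5, 4), (5,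
      9), (6, 7), (6, 9), (7, 2), (7, 6), (8, 0), (8, 1), (9, 5), (9, 6)]
    lev := [] }
  links := [[1, 7, 3, 4], [7, 0, 4, 2, 8, 5], [8, 1, 4, 9], [4, 0, 7, 10, 11, 12], [9, 2, 1, 0, 3, 12, 6,
    13, 14], [7, 1, 8, 15], [13, 4, 12, 16]]
  P := {
    a := 7
    N := 17
    nb := [154, 437, 786, 7313, 29263, 33154, 77840, 33835, 33318, 16660, 2184, 5128, 67672, 82000,
      8720, 416, 12352]
    tri := [(0, 1, 4), (0, 1, 7), (0, 3, 4), (0, 3, 7), (1, 2, 4), (1, 2, 8), (1, 5, 7), (1, 5, 8), (2,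
      4, 9), (2, 8, 9), (3, 4, 12), (3, 7, 10), (3, 10, 11), (3, 11, 12), (4, 6, 12), (4, 6, 13),
      (4, 9, 14), (4, 13, 14), (5, 7, 15), (5, 8, 15), (6, 12, 16), (6, 13, 16)]
    fin := [0, 0, 0, 0, 4, 5, 4, 5, 8, 0, 10, 11, 4, 13, 4, 15, 16]
    chd := [(0, 10), (0, 11), (5, 0), (5, 8)]
    steps := [(0, 1), (0, 2), (0, 3), (0, 9), (4, 6), (4, 12), (4, 14), (5, 7)] }
  rep := [5, 8, 0, 4, 13, 10, 11, 15, 16]

noncomputable def v2849 : Cov.CovD where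
  P := 3
  N := 6
  pl := [6, 8, 9]
  lev := [⟨[], [], [], [], [(0, 0, [1, 2])]⟩,
    ⟨[], [(0, 0), (0, 1)], [(0, 1)], [], [(0, 0, [1, 2]), (1, 1, [0])]⟩,
    ⟨[(0, 1)], [(1, 0), (1, 1), (1, 2)], [(1, 2)], [], [(1, 1, [0]), (2, 2, [0, 5, 6])]⟩,
    ⟨[(0, 1)], [(0, 0), (0, 3), (0, 5), (0, 6), (1, 0)], [(0, 3), (0, 5), (0, 6), (3, 5),
      (3, 6), (5, 6)], [], [(0, 0, [1, 2]), (3, 5, [2]), (4, 6, [2]), (5, 3, [])]⟩,
    ⟨[(0, 1), (0, 2), (0, 3), (1, 2), (1, 3), (2, 3)], [(0, 0), (0, 2), (0, 3), (1, 0), (1,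
      1), (1, 2), (1, 3), (2, 1), (2, 2), (2, 3), (3, 0), (3, 2), (3, 3), (3, 5), (3, 6)],
      [(2, 3), (3, 3)], [4], [(2, 2, [0, 5, 6]), (5, 3, []), (7, 3, [])]⟩,
    ⟨[(0, 1), (1, 2), (1, 4)], [(0, 0), (1, 0), (1, 1), (2, 1), (3, 0)], [(0, 1)], [7],
      [(0, 0, [1, 2]), (1, 1, [0])]⟩,
    ⟨[(0, 4), (1, 4), (2, 4), (3, 4)], [(3, 3), (4, 2), (4, 3)], [], [4, 8], [(5, 3, [])]⟩]
  Ta := [((5, 4), 3, 6), ((5, 9), 3, 8), ((7, 2), 3, 2), ((7, 6), 3, 4)]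
  Tb := [((0, 3, 8), 0, 5, 7), ((1, 2, 8), 1, 2, 7), ((2, 1, 7), 2, 1, 3), ((3, 0, 4), 5, 0, 6),
    ((4, 3, 5), 6, 5, 3), ((5, 4, 9), 3, 6, 8), ((6, 7, 9), 4, 3, 8), ((7, 2, 6), 3, 2, 4),
    ((8, 0, 1), 7, 0, 1), ((9, 5, 6), 8, 3, 4)]
  Tc := [(0, 1, 2), (2, 0, 5), (2, 0, 6), (2, 5, 6)]
  Td := [((0, 1), (0, 3), 5), ((0, 1), (0, 8), 7), ((0, 2), (0, 3), 5), ((0, 2), (0, 8), 7), ((1,
    0), (1, 2), 2), ((1, 0), (1, 8), 7), ((2, 0), (2, 1), 1), ((2, 0), (2, 7), 3), ((2, 5),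
    (2, 1), 1), ((2, 5), (2, 7), 3), ((2, 6), (2, 1), 1), ((2, 6), (2, 7), 3), ((5, 2), (3,
    0), 0), ((5, 2), (3, 4), 6), ((6, 2), (4, 3), 5), ((6, 2), (4, 5), 3)]
  G := [[0, 0x33c1242aaa66cc2129, 0x183461138211c45c41199c811c6, 0x46c42133c12aac28c29c2,
    0x66c55c3484ccc8414a], [0, 0x556996ccad2824, 0x5441199ca8ccce11c2, 0x64421aac98cccd21c2,
    0x33c99caacb4842]]

noncomputable def n2849 : Ent := ⟨e2849, noF, [], [], [(10, 15, [1685356702439545624007900436039642273970977273354372543760011755521, 0])]⟩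

def c2849 : PLift (Cov.check n2849.C.D v2849 = true) := ⟨by decide +kernel⟩

def b2849 : PLift (entF (fidx ts) 400 2849 n2849 = true) := ⟨by decide +kernel⟩

theorem g2849 : GoodF (fidx ts) 400 2849 := GoodF.ofV v2849 n2849 c2849.down b2849.down

/-- 4646944:2269/1 -/
noncomputable def e2850 : SCfg where
  D := {
    a := 7
    L := 9
    kp := 7
    inn := [(0, 1), (0, 3), (0, 4), (1, 0), (1, 2), (1, 4), (1, 5), (2, 1), (2, 4), (3, 0), (3, 4), (4,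
      0), (4, 1), (4, 2), (4, 3), (4, 6), (5, 1), (6, 4)]
    mix := [(0, 0), (1, 0), (1, 1), (2, 1), (2, 2), (3, 0), (3, 3), (3, 4), (3, 5), (4, 2), (4, 5), (4,
      6), (4, 7), (5, 0), (5, 1), (5, 3), (6, 6), (6, 7), (6, 8)]
    cl := [0, 1, 2, 4, 6, 3, 5, 3, 7]
    chq := [(0, 2), (0, 6), (2, 0), (2, 4), (2, 6), (4, 2), (6, 0), (6, 2)]
    rng := [(0, 3), (1, 2), (1, 3), (2, 1), (2, 7), (3, 0), (3, 1), (3, 4), (4, 3), (4, 5), (5, 4), (5,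
      6), (6, 5), (6, 8), (7, 2), (7, 8), (8, 6), (8, 7)]
    lev := [] }
  links := [[1, 7, 3, 4], [7, 0, 4, 2, 8, 5], [8, 1, 4, 9], [4, 0, 7, 10, 11, 12], [9, 2, 1, 0, 3, 12,
    13, 6, 14], [7, 1, 8, 10], [14, 4, 13, 15]]
  P := {
    a := 7
    N := 16
    nb := [154, 437, 786, 7313, 29263, 1410, 57360, 1067, 1574, 16660, 2472, 5128, 10264, 36944,
      33360, 24640]
    tri := [(0, 1, 4), (0, 1, 7), (0, 3, 4), (0, 3, 7), (1, 2, 4), (1, 2, 8), (1, 5, 7), (1, 5, 8), (2,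
      4, 9), (2, 8, 9), (3, 4, 12), (3, 7, 10), (3, 10, 11), (3, 11, 12), (4, 6, 13), (4, 6, 14),
      (4, 9, 14), (4, 12, 13), (5, 7, 10), (5, 8, 10), (6, 13, 15), (6, 14, 15)]
    fin := [0, 1, 1, 0, 4, 5, 4, 7, 8, 1, 5, 0, 4, 13, 4, 15]
    chd := [(1, 0), (1, 5), (7, 0), (7, 1)]
    steps := [(0, 3), (0, 11), (1, 2), (1, 9), (4, 6), (4, 12), (4, 14), (5, 10)] }
  rep := [7, 8, 1, 4, 5, 13, 0, 15]

noncomputable def v2850 : Cov.CovD where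
  P := 3
  N := 5
  pl := [1, 6, 8]
  lev := [⟨[], [], [], [], [(0, 0, [2, 6])]⟩,
    ⟨[], [(0, 0)], [], [1], [(0, 0, [2, 6])]⟩,
    ⟨[(0, 1)], [(1, 0), (1, 2)], [], [1], [(2, 2, [0, 4, 6])]⟩,
    ⟨[(0, 1)], [(0, 0), (0, 3), (0, 4), (0, 6), (1, 0)], [(0, 3), (0, 4), (0, 6), (3, 4),
      (3, 6), (4, 6)], [], [(0, 0, [2, 6]), (3, 4, [2]), (4, 6, [0, 2]), (5, 3, [])]⟩,
    ⟨[(0, 1), (0, 2), (0, 3), (1, 2), (1, 3), (2, 3)], [(0, 0), (0, 2), (0, 3), (1, 0), (1,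
      2), (1, 3), (2, 2), (2, 3), (3, 0), (3, 2), (3, 3), (3, 4), (3, 6)], [(2, 3), (3, 3)],
      [5], [(2, 2, [0, 4, 6]), (5, 3, []), (7, 3, [])]⟩,
    ⟨[(0, 1), (1, 2), (1, 4)], [(0, 0), (1, 0), (1, 4), (3, 0), (3, 4)], [(0, 4)], [1],
      [(0, 0, [2, 6]), (3, 4, [2])]⟩,
    ⟨[(0, 4), (1, 4), (2, 4), (3, 4)], [(4, 2), (4, 3)], [], [5, 7], [(7, 3, [])]⟩]
  Ta := [((5, 4), 3, 6), ((5, 6), 3, 5), ((7, 2), 3, 2), ((7, 8), 3, 7)]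
  Tb := [((1, 2, 3), 1, 2, 4), ((2, 1, 7), 2, 1, 3), ((3, 0, 1), 4, 0, 1), ((3, 0, 4), 4, 0, 6),
    ((3, 1, 4), 4, 1, 6), ((4, 3, 5), 6, 4, 3), ((5, 4, 6), 3, 6, 5), ((6, 5, 8), 5, 3, 7),
    ((7, 2, 8), 3, 2, 7), ((8, 6, 7), 7, 5, 3)]
  Tc := [(0, 2, 6), (2, 0, 4), (2, 0, 6), (2, 4, 6), (6, 0, 2)]
  Td := [((0, 2), (0, 3), 4), ((0, 6), (0, 3), 4), ((2, 0), (2, 1), 1), ((2, 0), (2, 7), 3), ((2,
    4), (2, 1), 1), ((2, 4), (2, 7), 3), ((2, 6), (2, 1), 1), ((2, 6), (2, 7), 3), ((4, 2),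
    (3, 0), 0), ((4, 2), (3, 1), 1), ((4, 2), (3, 4), 6), ((6, 0), (4, 3), 4), ((6, 0), (4,
    5), 3), ((6, 2), (4, 3), 4), ((6, 2), (4, 5), 3)]
  G := [[0, 0x99ac3c525a682c24, 0x5441866ca8ccce11c2, 0x6442133c1255c98c29c8, 0x33c99c5acb4842],
    [0, 0x33a12866a4286aa68242c, 0x33c218455c41199c811ca, 0x66c4211412a83892a42492dc2,
    0x66c55c3484ccc8414a]]

noncomputable def n2850 : Ent := ⟨e2850, noF, [], [], []⟩

def c2850 : PLift (Cov.check n2850.C.D v2850 = true) := ⟨by decide +kernel⟩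

def b2850 : PLift (entF (fidx ts) 400 2850 n2850 = true) := ⟨by decide +kernel⟩

theorem g2850 : GoodF (fidx ts) 400 2850 := GoodF.ofV v2850 n2850 c2850.down b2850.down

/-- 4646944:2269/2 -/
noncomputable def e2851 : SCfg where
  D := {
    a := 7
    L := 9
    kp := 6
    inn := [(0, 1), (0, 3), (0, 4), (1, 0), (1, 2), (1, 4), (1, 5), (2, 1), (2, 4), (3, 0), (3, 4), (4,
      0), (4, 1), (4, 2), (4, 3), (4, 6), (5, 1), (6, 4)]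
    mix := [(0, 0), (1, 0), (1, 1), (2, 1), (2, 2), (3, 0), (3, 3), (3, 4), (3, 5), (4, 2), (4, 5), (4,
      6), (4, 7), (5, 0), (5, 1), (5, 8), (6, 6), (6, 7), (6, 8)]
    cl := [0, 3, 1, 5, 6, 0, 1, 2, 4]
    chq := [(0, 3), (3, 0)]
    rng := [(0, 3), (0, 8), (1, 2), (1, 8), (2, 1), (2, 7), (3, 0), (3, 4), (4, 3), (4, 5), (5, 4), (5,
      6), (6, 5), (6, 8), (7, 2), (7, 8), (8, 0), (8, 1), (8, 6), (8, 7)]
    lev := [] }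
  links := [[1, 7, 3, 4], [7, 0, 4, 2, 8, 5], [8, 1, 4, 9], [4, 0, 7, 10, 11, 12], [9, 2, 1, 0, 3, 12,
    13, 6, 14], [7, 1, 8, 15], [14, 4, 13, 15]]
  P := {
    a := 7
    N := 16
    nb := [154, 437, 786, 7313, 29263, 33154, 57360, 33835, 33318, 16660, 2184, 5128, 10264, 36944,
      33360, 25056]
    tri := [(0, 1, 4), (0, 1, 7), (0, 3, 4), (0, 3, 7), (1, 2, 4), (1, 2, 8), (1, 5, 7), (1, 5, 8), (2,
      4, 9), (2, 8, 9), (3, 4, 12), (3, 7, 10), (3, 10, 11), (3, 11, 12), (4, 6, 13), (4, 6, 14),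
      (4, 9, 14), (4, 12, 13), (5, 7, 15), (5, 8, 15), (6, 13, 15), (6, 14, 15)]
    fin := [0, 0, 0, 0, 4, 0, 4, 0, 8, 4, 10, 11, 0, 4, 14, 15]
    chd := [(0, 8)]
    steps := [(0, 1), (0, 2), (0, 3), (0, 5), (0, 7), (0, 12), (4, 6), (4, 13), (4, 9)] }
  rep := [0, 4, 14, 8, 15, 10, 11]

noncomputable def v2851 : Cov.CovD where
  P := 3
  N := 4
  pl := [3, 4, 7, 8]
  lev := [⟨[], [], [], [], [(0, 0, [3])]⟩,
    ⟨[], [(0, 0), (0, 3)], [(0, 3)], [], [(0, 0, [3]), (1, 3, [0])]⟩,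
    ⟨[(0, 1)], [(1, 0), (1, 1), (1, 3)], [(1, 3)], [], [(1, 3, [0]), (2, 1, [])]⟩,
    ⟨[(0, 1)], [(0, 0), (1, 0)], [(0, 0)], [5, 6], [(0, 0, [3]), (5, 0, [3])]⟩,
    ⟨[(0, 1), (0, 2), (0, 3), (1, 2), (1, 3), (2, 3)], [(0, 0), (0, 1), (1, 0), (1, 1), (1,
      3), (2, 0), (2, 1), (2, 3), (3, 0), (3, 1)], [(0, 1), (1, 1)], [2], [(2, 1, []), (5, 0,
      [3]), (6, 1, [])]⟩,
    ⟨[(0, 1), (1, 2), (1, 4)], [(0, 0), (1, 0), (1, 3), (2, 3), (3, 0)], [(0, 3)], [4],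
      [(0, 0, [3]), (1, 3, [0])]⟩,
    ⟨[(0, 4), (1, 4), (2, 4), (3, 4)], [(4, 0), (4, 1)], [], [2, 4], [(6, 1, [])]⟩]
  Ta := [((0, 3), 0, 5), ((0, 8), 0, 4), ((2, 1), 1, 3), ((2, 7), 1, 2), ((5, 4), 0, 6), ((5, 6),
    0, 1), ((6, 5), 1, 0), ((6, 8), 1, 4)]
  Tb := [((0, 3, 8), 0, 5, 4), ((1, 2, 8), 3, 1, 4), ((2, 1, 7), 1, 3, 2), ((3, 0, 4), 5, 0, 6),
    ((4, 3, 5), 6, 5, 0), ((5, 4, 6), 0, 6, 1), ((6, 5, 8), 1, 0, 4), ((7, 2, 8), 2, 1, 4),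
    ((8, 0, 1), 4, 0, 3), ((8, 0, 6), 4, 0, 1), ((8, 0, 7), 4, 0, 2), ((8, 1, 6), 4, 3, 1),
    ((8, 1, 7), 4, 3, 2), ((8, 6, 7), 4, 1, 2)]
  Tc := []
  Td := [((0, 3), (0, 3), 5), ((0, 3), (0, 8), 4), ((0, 3), (5, 4), 6), ((0, 3), (5, 6), 1), ((3,
    0), (1, 2), 1), ((3, 0), (1, 8), 4)]
  G := [[0, 0, 0x224228228e1282c422c482c4e186, 0x524528528e128,
    0x82c1822c822c8694228228228e12c], [0, 0, 0x44688ac84ce884ce8e124, 0,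
    0x881881c841841c12811a86d21288868a12c], [0, 0, 0x224224224e1214218218e1c2,
    0x124128124e124, 0x2182186411881128228228e1e4], [0, 0x4181cc18c18e1884844884c884c8ec34,
    0x4847444582c84ce4e128, 0, 0x111e8181e8111e8e121]]

noncomputable def n2851 : Ent := ⟨e2851, noF, [], [], []⟩

def c2851 : PLift (Cov.check n2851.C.D v2851 = true) := ⟨by decide +kernel⟩

def b2851 : PLift (entF (fidx ts) 400 2851 n2851 = true) := ⟨by decide +kernel⟩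

theorem g2851 : GoodF (fidx ts) 400 2851 := GoodF.ofV v2851 n2851 c2851.down b2851.down

/-- The entries 2725 to 2851. -/
theorem rE19 : Rng (GoodF (fidx ts) 400) 2725 2852 :=
  ((((((((((((((((((((((((((((((((((((((((((((((((((((((((((((((((((((((((((((((((((((((((((((((((((((((((((((((((((((((((((((((((Rng.nil _ 2725).snoc g2725 rfl).snoc g2726 rfl).snoc g2727 rfl).snoc g2728 rfl).snoc g2729 rfl).snoc g2730 rfl).snoc g2731 rfl).snoc g2732 rfl).snoc g2733 rfl).snoc g2734 rfl).snoc g2735 rfl).snoc g2736 rfl).snoc g2737 rfl).snoc g2738 rfl).snoc g2739 rfl).snoc g2740 rfl).snoc g2741 rfl).snoc g2742 rfl).snoc g2743 rfl).snoc g2744 rfl).snoc g2745 rfl).snoc g2746 rfl).snoc g2747 rfl).snoc g2748 rfl).snoc g2749 rfl).snoc g2750 rfl).snoc g2751 rfl).snoc g2752 rfl).snoc g2753 rfl).snoc g2754 rfl).snoc g2755 rfl).snoc g2756 rfl).snoc g2757 rfl).snoc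 g2758 rfl).snoc g2759 rfl).snoc g2760 rfl).snoc g2761 rfl).snoc g2762 rfl).snoc g2763 rfl).snoc g2764 rfl).snoc g2765 rfl).snoc g2766 rfl).snoc g2767 rfl).snoc g2768 rfl).snoc g2769 rfl).snoc g2770 rfl).snoc g2771 rfl).snoc g2772 rfl).snoc g2773 rfl).snoc g2774 rfl).snoc g2775 rfl).snoc g2776 rfl).snoc g2777 rfl).snoc g2778 rfl).snoc g2779 rfl).snoc g2780 rfl).snoc g2781 rfl).snoc g2782 rfl).snoc g2783 rfl).snoc g2784 rfl).snoc g2785 rfl).snoc g2786 rfl).snoc g2787 rfl).snoc g2788 rfl).snoc g2789 rfl).snoc g2790 rfl).snoc g2791 rfl).snoc g2792 rfl).snoc g2793 rfl).snoc g2794 rfl).snoc g2795 rfl).snoc g2796 rfl).snoc g2797 rfl).snoc g2798 rfl).snoc g2799 rfl).snoc g2800 rfl).snoc g2801 rfl).snoc g2802 rfl).snoc g2803 rfl).snoc g2804 rfl).snoc g2805 rfl).snoc g2806 rfl).snoc g2807 rfl).snoc g2808 rfl).snoc g2809 rfl).snoc g2810 rfl).snoc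 g2811 rfl).snoc g2812 rfl).snoc g2813 rfl).snoc g2814 rfl).snoc g2815 rfl).snoc g2816 rfl).snoc g2817 rfl).snoc g2818 rfl).snoc g2819 rfl).snoc g2820 rfl).snoc g2821 rfl).snoc g2822 rfl).snoc g2823 rfl).snoc g2824 rfl).snoc g2825 rfl).snoc g2826 rfl).snoc g2827 rfl).snoc g2828 rfl).snoc g2829 rfl).snoc g2830 rfl).snoc g2831 rfl).snoc g2832 rfl).snoc g2833 rfl).snoc g2834 rfl).snoc g2835 rfl).snoc g2836 rfl).snoc g2837 rfl).snoc g2838 rfl).snoc g2839 rfl).snoc g2840 rfl).snoc g2841 rfl).snoc g2842 rfl).snoc g2843 rfl).snoc g2844 rfl).snoc g2845 rfl).snoc g2846 rfl).snoc g2847 rfl).snoc g2848 rfl).snoc g2849 rfl).snoc g2850 rfl).snoc g2851 rfl)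

end Pool.Agent.W986.ST.Dat
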