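import Pool.Agent.W986.Dat.Tab
import Pool.Agent.W986.SubAltB

/-!
# Entries 362 to 517 of the table
-/

set_option autoImplicit false

namespace Pool.Agent.W986.ST.Dat

/-- 467444:307/2 -/
noncomputable def e362 : SCfg where
  D := {
    a := 6
    L := 7
    kp := 4
    inn := [(0, 1), (0, 2), (1, 0), (1, 4), (2, 0), (2, 3), (2, 5), (3, 2), (4, 1), (5, 2)]
    mix := [(0, 0), (0, 1), (1, 0), (1, 1), (1, 2), (1, 3), (2, 0), (2, 1), (2, 4), (2, 5), (3, 2), (3,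
      4), (3, 5), (4, 1), (4, 2), (4, 6), (5, 1), (5, 5), (5, 6)]
    cl := [0, 1, 2, 1, 3, 0, 4]
    chq := []
    rng := [(0, 3), (0, 4), (1, 6), (2, 3), (2, 4), (2, 5), (2, 6), (3, 0), (3, 2), (4, 0), (4, 2), (5,
      2), (5, 6), (6, 1), (6, 2), (6, 5)]
    lev := [] }
  links := [[1, 6, 2, 7], [6, 0, 7, 4, 8, 9], [7, 0, 6, 10, 3, 11, 5], [11, 2, 10, 8], [8, 1, 7, 12], [7,
    2, 11, 12]]
  P := {
    a := 6
    N := 13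
    nb := [198, 977, 3305, 3332, 4482, 6276, 1543, 4151, 7706, 322, 332, 4396, 2480]
    tri := [(0, 1, 6), (0, 1, 7), (0, 2, 6), (0, 2, 7), (1, 4, 7), (1, 4, 8), (1, 6, 9), (1, 8, 9), (2,
      3, 10), (2, 3, 11), (2, 5, 7), (2, 5, 11), (2, 6, 10), (3, 8, 10), (3, 8, 11), (4, 7, 12),
      (4, 8, 12), (5, 7, 12), (5, 11, 12)]
    fin := [0, 1, 0, 0, 4, 0, 0, 1, 4, 1, 10, 0, 12]
    chd := []
    steps := [(0, 2), (0, 3), (0, 5), (0, 6), (0, 11), (1, 7), (1, 9), (4, 8)] }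
  rep := [0, 1, 4, 10, 12]

noncomputable def v362 : Cov.CovD where
  P := 3
  N := 2
  pl := [2, 4, 6]
  lev := [⟨[], [], [(0, 1)], [], [(0, 0, []), (1, 1, [])]⟩,
    ⟨[], [(0, 0), (0, 1)], [(0, 1), (1, 1)], [2], [(0, 0, []), (1, 1, []), (3, 1, [])]⟩,
    ⟨[(0, 1)], [(0, 0), (0, 1), (1, 0), (1, 1)], [(0, 0), (0, 1)], [3], [(0, 0, []), (1, 1,
      []), (5, 0, [])]⟩,
    ⟨[(0, 2)], [(2, 0), (2, 1)], [], [2, 3], [(5, 0, [])]⟩,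
    ⟨[(0, 1)], [(0, 1), (1, 0), (1, 1), (2, 1)], [], [2, 4], [(1, 1, [])]⟩,
    ⟨[(0, 2), (2, 3)], [(0, 1), (1, 1), (2, 0), (2, 1), (3, 0), (4, 1)], [(0, 1)], [4],
      [(1, 1, []), (5, 0, [])]⟩]
  Ta := [((0, 3), 0, 1), ((0, 4), 0, 3), ((1, 6), 1, 4), ((3, 0), 1, 0), ((3, 2), 1, 2), ((5, 2),
    0, 2), ((5, 6), 0, 4)]
  Tb := [((0, 3, 4), 0, 1, 3), ((2, 3, 4), 2, 1, 3), ((2, 3, 5), 2, 1, 0), ((2, 3, 6), 2, 1, 4),
    ((2, 4, 5), 2, 3, 0), ((2, 4, 6), 2, 3, 4), ((2, 5, 6), 2, 0, 4), ((3, 0, 2), 1, 0, 2),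
    ((4, 0, 2), 3, 0, 2), ((5, 2, 6), 0, 2, 4), ((6, 1, 2), 4, 1, 2), ((6, 1, 5), 4, 1, 0),
    ((6, 2, 5), 4, 2, 0)]
  Tc := []
  Td := []
  G := [[0, 0, 0, 0, 0x118112c84], [0, 0x214611648, 0, 0x114118648, 0x118112c82], [0, 0,
    0x4488a88446c41, 0, 0x4124844988188ac8c], [0, 0, 0x24c822c2c84, 0x48584cc248,
    0x423884a2c81]]

noncomputable def n362 : Ent := ⟨e362, noF, [], [], []⟩

def c362 : PLift (Cov.check n362.C.D v362 = true) := ⟨by decide +kernel⟩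

def b362 : PLift (entF (fidx ts) 400 362 n362 = true) := ⟨by decide +kernel⟩

theorem g362 : GoodF (fidx ts) 400 362 := GoodF.ofV v362 n362 c362.down b362.down

/-- 467444:307/1 -/
noncomputable def e363 : SCfg where
  D := {
    a := 6
    L := 8
    kp := 5
    inn := [(0, 1), (0, 2), (1, 0), (1, 4), (2, 0), (2, 3), (2, 5), (3, 2), (4, 1), (5, 2)]
    mix := [(0, 0), (0, 1), (1, 0), (1, 1), (1, 2), (1, 3), (2, 0), (2, 1), (2, 4), (2, 5), (3, 2), (3,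
      4), (3, 5), (4, 1), (4, 2), (4, 6), (5, 1), (5, 5), (5, 7)]
    cl := [0, 1, 2, 1, 3, 0, 4, 5]
    chq := []
    rng := [(0, 3), (0, 4), (1, 6), (1, 7), (2, 3), (2, 4), (2, 5), (2, 6), (3, 0), (3, 2), (4, 0), (4,
      2), (5, 2), (5, 7), (6, 1), (6, 2), (7, 1), (7, 5)]
    lev := [] }
  links := [[1, 6, 2, 7], [6, 0, 7, 4, 8, 9], [7, 0, 6, 10, 3, 11, 5], [11, 2, 10, 8], [8, 1, 7, 12], [7,
    2, 11, 13]]
  P := {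
    a := 6
    N := 14
    nb := [198, 977, 3305, 3332, 4482, 10372, 1543, 12343, 7706, 322, 332, 8492, 400, 2208]
    tri := [(0, 1, 6), (0, 1, 7), (0, 2, 6), (0, 2, 7), (1, 4, 7), (1, 4, 8), (1, 6, 9), (1, 8, 9), (2,
      3, 10), (2, 3, 11), (2, 5, 7), (2, 5, 11), (2, 6, 10), (3, 8, 10), (3, 8, 11), (4, 7, 12),
      (4, 8, 12), (5, 7, 13), (5, 11, 13)]
    fin := [0, 1, 0, 0, 4, 0, 0, 1, 4, 1, 10, 0, 12, 13]
    chd := []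
    steps := [(0, 2), (0, 3), (0, 5), (0, 6), (0, 11), (1, 7), (1, 9), (4, 8)] }
  rep := [0, 1, 4, 10, 12, 13]

noncomputable def v363 : Cov.CovD where
  P := 3
  N := 3
  pl := [2, 4, 6, 7]
  lev := [⟨[], [], [(0, 1)], [], [(0, 0, []), (1, 1, [])]⟩,
    ⟨[], [(0, 0), (0, 1)], [(0, 1), (1, 1)], [2], [(0, 0, []), (1, 1, []), (3, 1, [])]⟩,
    ⟨[(0, 1)], [(0, 0), (0, 1), (1, 0), (1, 1)], [(0, 0), (0, 1)], [3], [(0, 0, []), (1, 1,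
      []), (5, 0, [])]⟩,
    ⟨[(0, 2)], [(2, 0), (2, 1)], [], [2, 3], [(5, 0, [])]⟩,
    ⟨[(0, 1)], [(0, 1), (1, 0), (1, 1), (2, 1)], [], [2, 4], [(1, 1, [])]⟩,
    ⟨[(0, 2), (2, 3)], [(0, 1), (1, 1), (2, 0), (2, 1), (3, 0), (4, 1)], [(0, 1)], [5],
      [(1, 1, []), (5, 0, [])]⟩]
  Ta := [((0, 3), 0, 1), ((0, 4), 0, 3), ((1, 6), 1, 4), ((1, 7), 1, 5), ((3, 0), 1, 0), ((3, 2),
    1, 2), ((5, 2), 0, 2), ((5, 7), 0, 5)]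
  Tb := [((0, 3, 4), 0, 1, 3), ((1, 6, 7), 1, 4, 5), ((2, 3, 4), 2, 1, 3), ((2, 3, 5), 2, 1, 0),
    ((2, 3, 6), 2, 1, 4), ((2, 4, 5), 2, 3, 0), ((2, 4, 6), 2, 3, 4), ((2, 5, 6), 2, 0, 4),
    ((3, 0, 2), 1, 0, 2), ((4, 0, 2), 3, 0, 2), ((5, 2, 7), 0, 2, 5), ((6, 1, 2), 4, 1, 2),
    ((7, 1, 5), 5, 1, 0)]
  Tc := []
  Td := []
  G := [[0, 0, 0, 0, 0x11981192c84], [0, 0x618c11a84, 0, 0x115115c288, 0x128122c84], [0, 0,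
    0x44c88ca88c44c6c41, 0, 0x449889a889cc9ac81], [0, 0, 0x22c822c4c41, 0x22582254c81,
    0x22982292c84]]

noncomputable def n363 : Ent := ⟨e363, noF, [], [], [(13, 12, [19926558533506552585326781773177673327977379185603026945, 0])]⟩

def c363 : PLift (Cov.check n363.C.D v363 = true) := ⟨by decide +kernel⟩

def b363 : PLift (entF (fidx ts) 400 363 n363 = true) := ⟨by decide +kernel⟩

theorem g363 : GoodF (fidx ts) 400 363 := GoodF.ofV v363 n363 c363.down b363.down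

/-- 467444:307/3 -/
noncomputable def e364 : SCfg where
  D := {
    a := 6
    L := 8
    kp := 6
    inn := [(0, 1), (0, 2), (1, 0), (1, 4), (2, 0), (2, 3), (2, 5), (3, 2), (4, 1), (5, 2)]
    mix := [(0, 0), (0, 1), (1, 0), (1, 1), (1, 2), (1, 3), (2, 0), (2, 1), (2, 4), (2, 5), (3, 4), (3,
      5), (3, 6), (4, 1), (4, 2), (4, 7), (5, 1), (5, 5), (5, 7)]
    cl := [0, 0, 3, 6, 2, 1, 5, 4]
    chq := [(0, 1), (0, 3), (0, 5), (1, 0), (3, 0), (5, 0)]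
    rng := [(0, 3), (0, 4), (1, 7), (2, 3), (2, 7), (3, 0), (3, 2), (4, 0), (4, 6), (5, 6), (5, 7), (6,
      4), (6, 5), (7, 1), (7, 2), (7, 5)]
    lev := [] }
  links := [[1, 6, 2, 7], [6, 0, 7, 4, 8, 9], [7, 0, 6, 10, 3, 11, 5], [11, 2, 10, 12], [8, 1, 7, 13],
    [7, 2, 11, 13]]
  P := {
    a := 6
    N := 14
    nb := [198, 977, 3305, 7172, 8578, 10372, 1543, 8247, 8722, 322, 4172, 12332, 3080, 2480]
    tri := [(0, 1, 6), (0, 1, 7), (0, 2, 6), (0, 2, 7), (1, 4, 7), (1, 4, 8), (1, 6, 9), (1, 8, 9), (2,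
      3, 10), (2, 3, 11), (2, 5, 7), (2, 5, 11), (2, 6, 10), (3, 10, 12), (3, 11, 12), (4, 7, 13),
      (4, 8, 13), (5, 7, 13), (5, 11, 13)]
    fin := [0, 0, 0, 0, 0, 0, 0, 0, 8, 9, 10, 11, 12, 13]
    chd := [(0, 8), (0, 11), (0, 12)]
    steps := [(0, 1), (0, 2), (0, 3), (0, 4), (0, 6), (0, 7), (0, 5)] }
  rep := [0, 11, 10, 8, 13, 12, 9]

noncomputable def v364 : Cov.CovD where
  P := 3
  N := 4
  pl := [3, 4, 7]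
  lev := [⟨[], [], [(0, 0)], [], [(0, 0, [1, 3, 5]), (1, 0, [1, 3, 5])]⟩,
    ⟨[], [(0, 0), (0, 3)], [(0, 0), (0, 3)], [6], [(0, 0, [1, 3, 5]), (1, 0, [1, 3, 5]),
      (2, 3, [0])]⟩,
    ⟨[(0, 1)], [(0, 0), (0, 1), (1, 0)], [(0, 0), (0, 1)], [2], [(0, 0, [1, 3, 5]), (1, 0,
      [1, 3, 5]), (5, 1, [0])]⟩,
    ⟨[(0, 2)], [(2, 0), (2, 1), (2, 5)], [(1, 5)], [2], [(5, 1, [0]), (6, 5, [0])]⟩,
    ⟨[(0, 1)], [(0, 0), (1, 0), (1, 3), (2, 0)], [(0, 3)], [4], [(1, 0, [1, 3, 5]), (2, 3,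
      [0])]⟩,
    ⟨[(0, 2), (2, 3)], [(0, 0), (1, 0), (2, 0), (2, 1), (3, 1), (4, 0)], [(0, 1)], [4],
      [(1, 0, [1, 3, 5]), (5, 1, [0])]⟩]
  Ta := [((0, 3), 0, 6), ((0, 4), 0, 2), ((1, 7), 0, 4)]
  Tb := [((0, 3, 4), 0, 6, 2), ((2, 3, 7), 3, 6, 4), ((3, 0, 2), 6, 0, 3), ((4, 0, 6), 2, 0, 5),
    ((5, 6, 7), 1, 5, 4), ((6, 4, 5), 5, 2, 1), ((7, 1, 2), 4, 0, 3), ((7, 1, 5), 4, 0, 1),
    ((7, 2, 5), 4, 3, 1)]
  Tc := [(0, 1, 3), (0, 1, 5), (0, 3, 5)]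
  Td := [((0, 1), (0, 3), 6), ((0, 1), (0, 4), 2), ((0, 1), (1, 7), 4), ((0, 3), (0, 3), 6), ((0,
    3), (0, 4), 2), ((0, 3), (1, 7), 4), ((0, 5), (0, 3), 6), ((0, 5), (0, 4), 2), ((0, 5),
    (1, 7), 4), ((1, 0), (5, 6), 5), ((1, 0), (5, 7), 4), ((3, 0), (2, 3), 6), ((3, 0), (2,
    7), 4), ((5, 0), (6, 4), 2), ((5, 0), (6, 5), 1)]
  G := [[0, 0x61186118a114e4, 0x149c1c8485185c4c14c18ce2, 0x1c318185181c918e2,
    0x1831821491818518c6], [0, 0xa1146118c118e4, 0, 0x4461881c48ce18a848e1446,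
    0x84ce182844e18848e18c6]]

noncomputable def n364 : Ent := ⟨e364, noF, [], [], [(12, 8, [19926558533506574363398264713239334983952254818768560129, 0])]⟩

def c364 : PLift (Cov.check n364.C.D v364 = true) := ⟨by decide +kernel⟩

def b364 : PLift (entF (fidx ts) 400 364 n364 = true) := ⟨by decide +kernel⟩

theorem g364 : GoodF (fidx ts) 400 364 := GoodF.ofV v364 n364 c364.down b364.down

/-- 467444:307 -/
noncomputable def e365 : SCfg where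
  D := {
    a := 6
    L := 9
    kp := 7
    inn := [(0, 1), (0, 2), (1, 0), (1, 4), (2, 0), (2, 3), (2, 5), (3, 2), (4, 1), (5, 2)]
    mix := [(0, 0), (0, 1), (1, 0), (1, 1), (1, 2), (1, 3), (2, 0), (2, 1), (2, 4), (2, 5), (3, 4), (3,
      5), (3, 6), (4, 1), (4, 2), (4, 7), (5, 1), (5, 5), (5, 8)]
    cl := [0, 0, 3, 5, 2, 1, 4, 6, 7]
    chq := [(0, 1), (0, 3), (0, 4), (1, 0), (3, 0), (4, 0)]
    rng := [(0, 3), (0, 4), (1, 7), (1, 8), (2, 3), (2, 7), (3, 0), (3, 2), (4, 0), (4, 6), (5, 6), (5,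
      8), (6, 4), (6, 5), (7, 1), (7, 2), (8, 1), (8, 5)]
    lev := [] }
  links := [[1, 6, 2, 7], [6, 0, 7, 4, 8, 9], [7, 0, 6, 10, 3, 11, 5], [11, 2, 10, 12], [8, 1, 7, 13],
    [7, 2, 11, 14]]
  P := {
    a := 6
    N := 15
    nb := [198, 977, 3305, 7172, 8578, 18564, 1543, 24631, 8722, 322, 4172, 20524, 3080, 400, 2208]
    tri := [(0, 1, 6), (0, 1, 7), (0, 2, 6), (0, 2, 7), (1, 4, 7), (1, 4, 8), (1, 6, 9), (1, 8, 9), (2,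
      3, 10), (2, 3, 11), (2, 5, 7), (2, 5, 11), (2, 6, 10), (3, 10, 12), (3, 11, 12), (4, 7, 13),
      (4, 8, 13), (5, 7, 14), (5, 11, 14)]
    fin := [0, 0, 0, 0, 0, 0, 0, 0, 8, 9, 10, 11, 12, 13, 14]
    chd := [(0, 8), (0, 11), (0, 12)]
    steps := [(0, 1), (0, 2), (0, 3), (0, 4), (0, 5), (0, 6), (0, 7)] }
  rep := [0, 11, 10, 8, 12, 9, 13, 14]

noncomputable def v365 : Cov.CovD where
  P := 3
  N := 5
  pl := [3, 4, 7, 8]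
  lev := [⟨[], [], [(0, 0)], [], [(0, 0, [1, 3, 4]), (1, 0, [1, 3, 4])]⟩,
    ⟨[], [(0, 0), (0, 3)], [(0, 0), (0, 3)], [5], [(0, 0, [1, 3, 4]), (1, 0, [1, 3, 4]),
      (2, 3, [0])]⟩,
    ⟨[(0, 1)], [(0, 0), (0, 1), (1, 0)], [(0, 0), (0, 1)], [2], [(0, 0, [1, 3, 4]), (1, 0,
      [1, 3, 4]), (5, 1, [0])]⟩,
    ⟨[(0, 2)], [(2, 0), (2, 1), (2, 4)], [(1, 4)], [2], [(5, 1, [0]), (6, 4, [0])]⟩,
    ⟨[(0, 1)], [(0, 0), (1, 0), (1, 3), (2, 0)], [(0, 3)], [6], [(1, 0, [1, 3, 4]), (2, 3,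
      [0])]⟩,
    ⟨[(0, 2), (2, 3)], [(0, 0), (1, 0), (2, 0), (2, 1), (3, 1), (4, 0)], [(0, 1)], [7],
      [(1, 0, [1, 3, 4]), (5, 1, [0])]⟩]
  Ta := [((0, 3), 0, 5), ((0, 4), 0, 2), ((1, 7), 0, 6), ((1, 8), 0, 7)]
  Tb := [((0, 3, 4), 0, 5, 2), ((1, 7, 8), 0, 6, 7), ((2, 3, 7), 3, 5, 6), ((3, 0, 2), 5, 0, 3),
    ((4, 0, 6), 2, 0, 4), ((5, 6, 8), 1, 4, 7), ((6, 4, 5), 4, 2, 1), ((7, 1, 2), 6, 0, 3),
    ((8, 1, 5), 7, 0, 1)]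
  Tc := [(0, 1, 3), (0, 1, 4), (0, 3, 4)]
  Td := [((0, 1), (0, 3), 5), ((0, 1), (0, 4), 2), ((0, 1), (1, 7), 6), ((0, 1), (1, 8), 7), ((0,
    3), (0, 3), 5), ((0, 3), (0, 4), 2), ((0, 3), (1, 7), 6), ((0, 3), (1, 8), 7), ((0, 4),
    (0, 3), 5), ((0, 4), (0, 4), 2), ((0, 4), (1, 7), 6), ((0, 4), (1, 8), 7), ((1, 0), (5,
    6), 4), ((1, 0), (5, 8), 7), ((3, 0), (2, 3), 5), ((3, 0), (2, 7), 6), ((4, 0), (6, 4),
    2), ((4, 0), (6, 5), 1)]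
  G := [[0, 0x61186118a114e4, 0xc1111ec4111ec1c8c14c18ce2, 0xc114111e14111e14e8,
    0x1c9181c318a1c51846], [0, 0xc118a1186118e2, 0, 0xccce182ccce18ccce18c6,
    0xccce18ccce18accce1846]]

noncomputable def n365 : Ent := ⟨e365, noF, [], [], [(12, 8, [87899350853947037268064450189620569160416928477315268521985, 0]), (14, 13, [87897818358406171357428020359653357189577334862559919390721, 0])]⟩

def c365 : PLift (Cov.check n365.C.D v365 = true) := ⟨by decide +kernel⟩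

def b365 : PLift (entF (fidx ts) 400 365 n365 = true) := ⟨by decide +kernel⟩

theorem g365 : GoodF (fidx ts) 400 365 := GoodF.ofV v365 n365 c365.down b365.down

/-- 467446:309/1 -/
noncomputable def e366 : SCfg where
  D := {
    a := 6
    L := 10
    kp := 8
    inn := [(0, 1), (0, 2), (1, 0), (1, 4), (2, 0), (2, 3), (2, 5), (3, 2), (4, 1), (5, 2)]
    mix := [(0, 0), (0, 1), (1, 0), (1, 1), (1, 2), (1, 3), (2, 0), (2, 1), (2, 4), (2, 5), (3, 4), (3,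
      5), (3, 6), (4, 1), (4, 2), (4, 7), (5, 1), (5, 5), (5, 7), (5, 8), (5, 9)]
    cl := [0, 0, 3, 7, 2, 1, 8, 4, 5, 6]
    chq := [(0, 3), (1, 2), (2, 1), (2, 4), (2, 5), (2, 6), (3, 0), (4, 2), (5, 2), (6, 2)]
    rng := [(0, 3), (0, 4), (1, 7), (2, 3), (2, 7), (3, 0), (3, 2), (4, 0), (4, 6), (5, 6), (5, 8), (6,
      4), (6, 5), (7, 1), (7, 2), (7, 9), (8, 5), (8, 9), (9, 7), (9, 8)]
    lev := [] }
  links := [[1, 6, 2, 7], [6, 0, 7, 4, 8, 9], [7, 0, 6, 10, 3, 11, 5], [11, 2, 10, 12], [8, 1, 7, 13],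
    [7, 2, 11, 14, 15, 13]]
  P := {
    a := 6
    N := 16
    nb := [198, 977, 3305, 7172, 8578, 59524, 1543, 8247, 8722, 322, 4172, 20524, 3080, 33200, 34848,
      24608]
    tri := [(0, 1, 6), (0, 1, 7), (0, 2, 6), (0, 2, 7), (1, 4, 7), (1, 4, 8), (1, 6, 9), (1, 8, 9), (2,
      3, 10), (2, 3, 11), (2, 5, 7), (2, 5, 11), (2, 6, 10), (3, 10, 12), (3, 11, 12), (4, 7, 13),
      (4, 8, 13), (5, 7, 13), (5, 11, 14), (5, 13, 15), (5, 14, 15)]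
    fin := [0, 0, 2, 2, 0, 2, 0, 0, 8, 9, 2, 11, 12, 13, 14, 15]
    chd := [(0, 8), (2, 11), (2, 13), (2, 14), (2, 15)]
    steps := [(0, 1), (0, 4), (0, 6), (0, 7), (2, 3), (2, 5), (2, 10)] }
  rep := [0, 11, 2, 8, 13, 14, 15, 9, 12]

noncomputable def v366 : Cov.CovD where
  P := 3
  N := 6
  pl := [3, 6]
  lev := [⟨[], [], [(0, 0)], [], [(0, 0, [3]), (1, 0, [3])]⟩,
    ⟨[], [(0, 0), (0, 3)], [(0, 0), (0, 3)], [7], [(0, 0, [3]), (1, 0, [3]), (2, 3, [0])]⟩,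
    ⟨[(0, 1)], [(0, 0), (0, 1), (0, 2), (1, 0)], [(0, 0), (0, 1), (0, 2), (1, 2)], [], [(0,
      0, [3]), (1, 0, [3]), (4, 2, [1, 4, 5, 6]), (5, 1, [2])]⟩,
    ⟨[(0, 2)], [(2, 0), (2, 1), (2, 2)], [(1, 2)], [8], [(4, 2, [1, 4, 5, 6]), (5, 1,
      [2])]⟩,
    ⟨[(0, 1)], [(0, 0), (1, 0), (1, 3), (1, 4), (2, 0)], [(0, 3), (0, 4), (3, 4)], [], [(1,
      0, [3]), (2, 3, [0]), (7, 4, [2])]⟩,
    ⟨[(0, 2), (2, 3)], [(0, 0), (1, 0), (2, 0), (2, 1), (2, 2), (2, 4), (2, 5), (2, 6), (3,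
      1), (4, 0), (4, 4)], [(0, 1), (0, 4), (0, 5), (0, 6), (1, 4), (1, 5), (1, 6), (4, 5),
      (4, 6), (5, 6)], [], [(1, 0, [3]), (5, 1, [2]), (7, 4, [2]), (8, 5, [2]), (9, 6, [2])]⟩]
  Ta := [((0, 3), 0, 7), ((0, 4), 0, 2), ((1, 7), 0, 4)]
  Tb := [((0, 3, 4), 0, 7, 2), ((2, 3, 7), 3, 7, 4), ((3, 0, 2), 7, 0, 3), ((4, 0, 6), 2, 0, 8),
    ((5, 6, 8), 1, 8, 5), ((6, 4, 5), 8, 2, 1), ((7, 1, 2), 4, 0, 3), ((7, 1, 9), 4, 0, 6),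
    ((7, 2, 9), 4, 3, 6), ((8, 5, 9), 5, 1, 6), ((9, 7, 8), 6, 4, 5)]
  Tc := [(2, 1, 4), (2, 1, 5), (2, 1, 6), (2, 4, 5), (2, 4, 6), (2, 5, 6)]
  Td := [((0, 3), (0, 3), 7), ((0, 3), (0, 4), 2), ((0, 3), (1, 7), 4), ((1, 2), (5, 6), 8), ((1,
    2), (5, 8), 5), ((2, 1), (4, 0), 0), ((2, 1), (4, 6), 8), ((2, 4), (4, 0), 0), ((2, 4),
    (4, 6), 8), ((2, 5), (4, 0), 0), ((2, 5), (4, 6), 8), ((2, 6), (4, 0), 0), ((2, 6), (4,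
    6), 8), ((3, 0), (2, 3), 7), ((3, 0), (2, 7), 4), ((4, 2), (7, 1), 0), ((4, 2), (7, 2),
    3), ((4, 2), (7, 9), 6), ((5, 2), (8, 5), 1), ((5, 2), (8, 9), 6), ((6, 2), (9, 7), 4),
    ((6, 2), (9, 8), 5)]
  G := [[0, 0x2227223c421225c4222256228ce8, 0x111e111ec4111e111ec46111e111ec48a,
    0x22322394212158222258e8, 0x44544998443444e9844944598e2], [0,
    0x222e222ec8222222ce8a222e222ec446, 0, 0x2222582222e222e58222e222e54ca,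
    0x444e444e982444e444e984444a44d8c6]]

noncomputable def n366 : Ent := ⟨e366, noF, [], [], []⟩

def c366 : PLift (Cov.check n366.C.D v366 = true) := ⟨by decide +kernel⟩

def b366 : PLift (entF (fidx ts) 400 366 n366 = true) := ⟨by decide +kernel⟩

theorem g366 : GoodF (fidx ts) 400 366 := GoodF.ofV v366 n366 c366.down b366.down

/-- 467446:309 -/
noncomputable def e367 : SCfg where
  D := {
    a := 6
    L := 11
    kp := 9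
    inn := [(0, 1), (0, 2), (1, 0), (1, 4), (2, 0), (2, 3), (2, 5), (3, 2), (4, 1), (5, 2)]
    mix := [(0, 0), (0, 1), (1, 0), (1, 1), (1, 2), (1, 3), (2, 0), (2, 1), (2, 4), (2, 5), (3, 4), (3,
      5), (3, 6), (4, 1), (4, 2), (4, 7), (5, 1), (5, 5), (5, 8), (5, 9), (5, 10)]
    cl := [0, 0, 3, 7, 2, 1, 8, 9, 4, 5, 6]
    chq := [(0, 3), (1, 2), (2, 1), (2, 4), (2, 5), (2, 6), (3, 0), (4, 2), (5, 2), (6, 2)]
    rng := [(0, 3), (0, 4), (1, 7), (1, 10), (2, 3), (2, 7), (3, 0), (3, 2), (4, 0), (4, 6), (5, 6),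
      (5, 8), (6, 4), (6, 5), (7, 1), (7, 2), (8, 5), (8, 9), (9, 8), (9, 10), (10, 1), (10, 9)]
    lev := [] }
  links := [[1, 6, 2, 7], [6, 0, 7, 4, 8, 9], [7, 0, 6, 10, 3, 11, 5], [11, 2, 10, 12], [8, 1, 7, 13],
    [7, 2, 11, 14, 15, 16]]
  P := {
    a := 6
    N := 17
    nb := [198, 977, 3305, 7172, 8578, 116868, 1543, 73783, 8722, 322, 4172, 20524, 3080, 400, 34848,
      81952, 32928]
    tri := [(0, 1, 6), (0, 1, 7), (0, 2, 6), (0, 2, 7), (1, 4, 7), (1, 4, 8), (1, 6, 9), (1, 8, 9), (2,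
      3, 10), (2, 3, 11), (2, 5, 7), (2, 5, 11), (2, 6, 10), (3, 10, 12), (3, 11, 12), (4, 7, 13),
      (4, 8, 13), (5, 7, 16), (5, 11, 14), (5, 14, 15), (5, 15, 16)]
    fin := [0, 0, 2, 2, 0, 2, 0, 0, 8, 9, 2, 11, 12, 13, 14, 15, 16]
    chd := [(0, 8), (2, 11), (2, 14), (2, 15), (2, 16)]
    steps := [(0, 1), (0, 4), (0, 6), (0, 7), (2, 3), (2, 5), (2, 10)] }
  rep := [0, 11, 2, 8, 14, 15, 16, 9, 12, 13]

noncomputable def v367 : Cov.CovD where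
  P := 3
  N := 7
  pl := [3, 6, 7]
  lev := [⟨[], [], [(0, 0)], [], [(0, 0, [3]), (1, 0, [3])]⟩,
    ⟨[], [(0, 0), (0, 3)], [(0, 0), (0, 3)], [7], [(0, 0, [3]), (1, 0, [3]), (2, 3, [0])]⟩,
    ⟨[(0, 1)], [(0, 0), (0, 1), (0, 2), (1, 0)], [(0, 0), (0, 1), (0, 2), (1, 2)], [], [(0,
      0, [3]), (1, 0, [3]), (4, 2, [1, 4, 5, 6]), (5, 1, [2])]⟩,
    ⟨[(0, 2)], [(2, 0), (2, 1), (2, 2)], [(1, 2)], [8], [(4, 2, [1, 4, 5, 6]), (5, 1,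
      [2])]⟩,
    ⟨[(0, 1)], [(0, 0), (1, 0), (1, 3), (2, 0)], [(0, 3)], [9], [(1, 0, [3]), (2, 3, [0])]⟩,
    ⟨[(0, 2), (2, 3)], [(0, 0), (1, 0), (2, 0), (2, 1), (2, 2), (2, 4), (2, 5), (2, 6), (3,
      1), (4, 0)], [(0, 1), (0, 4), (0, 5), (0, 6), (1, 4), (1, 5), (1, 6), (4, 5), (4, 6),
      (5, 6)], [], [(1, 0, [3]), (5, 1, [2]), (8, 4, [2]), (9, 5, [2]), (10, 6, [2])]⟩]
  Ta := [((0, 3), 0, 7), ((0, 4), 0, 2), ((1, 7), 0, 9), ((1, 10), 0, 6)]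
  Tb := [((0, 3, 4), 0, 7, 2), ((1, 7, 10), 0, 9, 6), ((2, 3, 7), 3, 7, 9), ((3, 0, 2), 7, 0, 3),
    ((4, 0, 6), 2, 0, 8), ((5, 6, 8), 1, 8, 4), ((6, 4, 5), 8, 2, 1), ((7, 1, 2), 9, 0, 3),
    ((8, 5, 9), 4, 1, 5), ((9, 8, 10), 5, 4, 6), ((10, 1, 9), 6, 0, 5)]
  Tc := [(2, 1, 4), (2, 1, 5), (2, 1, 6), (2, 4, 5), (2, 4, 6), (2, 5, 6)]
  Td := [((0, 3), (0, 3), 7), ((0, 3), (0, 4), 2), ((0, 3), (1, 7), 9), ((0, 3), (1, 10), 6),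
    ((1, 2), (5, 6), 8), ((1, 2), (5, 8), 4), ((2, 1), (4, 0), 0), ((2, 1), (4, 6), 8), ((2,
    4), (4, 0), 0), ((2, 4), (4, 6), 8), ((2, 5), (4, 0), 0), ((2, 5), (4, 6), 8), ((2, 6),
    (4, 0), 0), ((2, 6), (4, 6), 8), ((3, 0), (2, 3), 7), ((3, 0), (2, 7), 9), ((4, 2), (8,
    5), 1), ((4, 2), (8, 9), 5), ((5, 2), (9, 8), 4), ((5, 2), (9, 10), 6), ((6, 2), (10, 1),
    0), ((6, 2), (10, 9), 5)]
  G := [[0, 0x223222ec4225225c8229229c4e2, 0x111e111ec8111e111ec8a111e111ec446,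
    0x21222d94222b2158222e2194e4, 0x443444e984494198445444798e4], [0,
    0x222e222ec8222e222ec8a222e222ec446, 0, 0x222e222e942222e222e58222e222ec8c6,
    0x444e444e982444e444e98444e444e98c6]]

noncomputable def n367 : Ent := ⟨e367, noF, [], [], [(16, 13, [1580044429602293643470024699863340111275081426260889765897794150401, 0])]⟩

def c367 : PLift (Cov.check n367.C.D v367 = true) := ⟨by decide +kernel⟩

def b367 : PLift (entF (fidx ts) 400 367 n367 = true) := ⟨by decide +kernel⟩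

theorem g367 : GoodF (fidx ts) 400 367 := GoodF.ofV v367 n367 c367.down b367.down

/-- 457646:311/1 -/
noncomputable def e368 : SCfg where
  D := {
    a := 6
    L := 9
    kp := 6
    inn := [(0, 1), (0, 2), (0, 5), (1, 0), (1, 2), (2, 0), (2, 1), (2, 3), (2, 5), (3, 2), (3, 4), (4,
      3), (5, 0), (5, 2)]
    mix := [(0, 0), (1, 0), (1, 1), (1, 2), (2, 2), (2, 3), (2, 4), (3, 2), (3, 3), (3, 5), (3, 6), (4,
      1), (4, 2), (4, 5), (5, 0), (5, 4), (5, 7), (5, 8)]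
    cl := [1, 2, 0, 0, 1, 3, 4, 5, 6]
    chq := [(0, 3), (3, 0)]
    rng := [(0, 1), (0, 8), (1, 0), (1, 2), (1, 5), (2, 1), (3, 4), (3, 6), (4, 3), (4, 7), (5, 1), (5,
      6), (6, 3), (6, 5), (7, 4), (7, 8), (8, 0), (8, 7)]
    lev := [] }
  links := [[1, 2, 5, 6], [2, 0, 6, 7, 8], [5, 0, 1, 8, 3, 9, 10], [9, 2, 8, 4, 11, 12], [11, 3, 8, 7],
    [6, 0, 2, 10, 13, 14]]
  P := {
    a := 6
    N := 15
    nb := [102, 453, 1835, 6932, 2440, 25669, 16547, 2386, 158, 5132, 8740, 4248, 2568, 17440, 8288]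
    tri := [(0, 1, 2), (0, 1, 6), (0, 2, 5), (0, 5, 6), (1, 2, 8), (1, 6, 7), (1, 7, 8), (2, 3, 8), (2,
      3, 9), (2, 5, 10), (2, 9, 10), (3, 4, 8), (3, 4, 11), (3, 9, 12), (3, 11, 12), (4, 7, 8),
      (4, 7, 11), (5, 6, 14), (5, 10, 13), (5, 13, 14)]
    fin := [0, 0, 0, 3, 4, 0, 0, 4, 3, 3, 0, 11, 12, 13, 14]
    chd := [(3, 11)]
    steps := [(0, 1), (0, 2), (0, 5), (0, 6), (0, 10), (3, 8), (3, 9), (4, 7)] }
  rep := [3, 0, 4, 11, 12, 13, 14]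

noncomputable def v368 : Cov.CovD where
  P := 3
  N := 4
  pl := [1, 6, 7, 8]
  lev := [⟨[], [], [], [], [(0, 1, [])]⟩,
    ⟨[], [(0, 0), (0, 1)], [(0, 1)], [2], [(0, 1, []), (2, 0, [3])]⟩,
    ⟨[(0, 1)], [(0, 0), (0, 1), (1, 0), (1, 1)], [(0, 0), (0, 1)], [], [(2, 0, [3]), (3, 0,
      [3]), (4, 1, [])]⟩,
    ⟨[(0, 2), (1, 2)], [(1, 0), (2, 0), (2, 1), (2, 3)], [(0, 0), (0, 3)], [4], [(2, 0,
      [3]), (3, 0, [3]), (5, 3, [0])]⟩,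
    ⟨[(2, 3)], [(1, 0), (2, 0), (3, 0), (3, 3)], [(0, 3)], [2], [(2, 0, [3]), (5, 3, [0])]⟩,
    ⟨[(0, 1), (0, 2), (1, 2), (2, 3)], [(0, 1), (1, 1), (2, 0), (2, 1)], [(1, 1)], [5, 6],
      [(0, 1, []), (4, 1, [])]⟩]
  Ta := [((0, 1), 1, 2), ((0, 8), 1, 6), ((2, 1), 0, 2), ((3, 4), 0, 1), ((3, 6), 0, 4), ((4, 3),
    1, 0), ((4, 7), 1, 5)]
  Tb := [((0, 1, 8), 1, 2, 6), ((1, 0, 2), 2, 1, 0), ((1, 0, 5), 2, 1, 3), ((1, 2, 5), 2, 0, 3),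
    ((3, 4, 6), 0, 1, 4), ((4, 3, 7), 1, 0, 5), ((5, 1, 6), 3, 2, 4), ((6, 3, 5), 4, 0, 3),
    ((7, 4, 8), 5, 1, 6), ((8, 0, 7), 6, 1, 5)]
  Tc := []
  Td := [((0, 3), (2, 1), 2), ((0, 3), (3, 4), 1), ((0, 3), (3, 6), 4), ((3, 0), (5, 1), 2), ((3,
    0), (5, 6), 4)]
  G := [[0, 0, 0xd8d2ad44681, 0xd4ddc6d88a41, 0x44a4d899ad2ec81], [0, 0, 0xd4d26d88c21, 0,
    0x44a4d899ad2ec82], [0, 0, 0, 0xd12d8d4ca41, 0xd891d2e414681], [0, 0x212e1e4c1ea84, 0, 0,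
    0x414d891d2ec82]]

noncomputable def n368 : Ent := ⟨e368, noF, [], [], []⟩

def c368 : PLift (Cov.check n368.C.D v368 = true) := ⟨by decide +kernel⟩

def b368 : PLift (entF (fidx ts) 400 368 n368 = true) := ⟨by decide +kernel⟩

theorem g368 : GoodF (fidx ts) 400 368 := GoodF.ofV v368 n368 c368.down b368.down

/-- 457646:311 -/
noncomputable def e369 : SCfg where
  D := {
    a := 6
    L := 10
    kp := 7
    inn := [(0, 1), (0, 2), (0, 5), (1, 0), (1, 2), (2, 0), (2, 1), (2, 3), (2, 5), (3, 2), (3, 4), (4,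
      3), (5, 0), (5, 2)]
    mix := [(0, 0), (1, 0), (1, 1), (1, 2), (2, 2), (2, 3), (2, 4), (3, 2), (3, 3), (3, 5), (3, 6), (4,
      2), (4, 5), (4, 7), (5, 0), (5, 4), (5, 8), (5, 9)]
    cl := [1, 4, 0, 0, 1, 3, 2, 5, 6, 7]
    chq := [(0, 3), (3, 0)]
    rng := [(0, 1), (0, 9), (1, 0), (1, 2), (2, 1), (2, 7), (3, 4), (3, 6), (4, 3), (4, 8), (5, 6), (5,
      7), (6, 3), (6, 5), (7, 2), (7, 5), (8, 4), (8, 9), (9, 0), (9, 8)]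
    lev := [] }
  links := [[1, 2, 5, 6], [2, 0, 6, 7, 8], [5, 0, 1, 8, 3, 9, 10], [9, 2, 8, 4, 11, 12], [11, 3, 8, 13],
    [6, 0, 2, 10, 14, 15]]
  P := {
    a := 6
    N := 16
    nb := [102, 453, 1835, 6932, 10504, 50245, 32931, 322, 8350, 5132, 16932, 12312, 2568, 2320,
      33824, 16480]
    tri := [(0, 1, 2), (0, 1, 6), (0, 2, 5), (0, 5, 6), (1, 2, 8), (1, 6, 7), (1, 7, 8), (2, 3, 8), (2,
      3, 9), (2, 5, 10), (2, 9, 10), (3, 4, 8), (3, 4, 11), (3, 9, 12), (3, 11, 12), (4, 8, 13),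
      (4, 11, 13), (5, 6, 15), (5, 10, 14), (5, 14, 15)]
    fin := [0, 0, 0, 3, 3, 0, 0, 7, 3, 3, 0, 11, 12, 13, 14, 15]
    chd := [(3, 11)]
    steps := [(0, 1), (0, 2), (0, 5), (0, 6), (0, 10), (3, 4), (3, 8), (3, 9)] }
  rep := [3, 0, 12, 11, 7, 13, 14, 15]

noncomputable def v369 : Cov.CovD where
  P := 3
  N := 5
  pl := [1, 6, 7, 8, 9]
  lev := [⟨[], [], [], [], [(0, 1, [])]⟩,
    ⟨[], [(0, 0), (0, 1)], [(0, 1)], [4], [(0, 1, []), (2, 0, [3])]⟩,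
    ⟨[(0, 1)], [(0, 0), (0, 1), (1, 0), (1, 1)], [(0, 0), (0, 1)], [], [(2, 0, [3]), (3, 0,
      [3]), (4, 1, [])]⟩,
    ⟨[(0, 2), (1, 2)], [(1, 0), (2, 0), (2, 1), (2, 3)], [(0, 0), (0, 3)], [2], [(2, 0,
      [3]), (3, 0, [3]), (5, 3, [0])]⟩,
    ⟨[(2, 3)], [(1, 0), (2, 0), (3, 0), (3, 3)], [(0, 3)], [5], [(2, 0, [3]), (5, 3, [0])]⟩,
    ⟨[(0, 1), (0, 2), (1, 2), (2, 3)], [(0, 1), (1, 1), (2, 0), (2, 1)], [(1, 1)], [6, 7],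
      [(0, 1, []), (4, 1, [])]⟩]
  Ta := [((0, 1), 1, 4), ((0, 9), 1, 7), ((2, 1), 0, 4), ((2, 7), 0, 5), ((3, 4), 0, 1), ((3, 6),
    0, 2), ((4, 3), 1, 0), ((4, 8), 1, 6)]
  Tb := [((0, 1, 9), 1, 4, 7), ((1, 0, 2), 4, 1, 0), ((2, 1, 7), 0, 4, 5), ((3, 4, 6), 0, 1, 2),
    ((4, 3, 8), 1, 0, 6), ((5, 6, 7), 3, 2, 5), ((6, 3, 5), 2, 0, 3), ((7, 2, 5), 5, 0, 3),
    ((8, 4, 9), 6, 1, 7), ((9, 0, 8), 7, 1, 6)]
  Tc := []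
  Td := [((0, 3), (2, 1), 4), ((0, 3), (2, 7), 5), ((0, 3), (3, 4), 1), ((0, 3), (3, 6), 2), ((3,
    0), (5, 6), 2), ((3, 0), (5, 7), 5)]
  G := [[0, 0, 0, 0xddadd6c2ddadd6c2c1, 0xdd62ddc8654dd6ad8c8ac1], [0, 0, 0, 0xd464dda92cc21,
    0xddcdd6a421], [0, 0, 0xddadd6c218, 0xddadd6c214, 0xdd62ddc8a14], [0,
    0xe1e1c2414e1a1cca1, 0xd1d16824, 0x414dda91cc21, 0xddcdd6a418]]

noncomputable def n369 : Ent := ⟨e369, noF, [], [], [(7, 13, [385753028440516072301428330182238677962518295842732840408514561, 0])]⟩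

def c369 : PLift (Cov.check n369.C.D v369 = true) := ⟨by decide +kernel⟩

def b369 : PLift (entF (fidx ts) 400 369 n369 = true) := ⟨by decide +kernel⟩

theorem g369 : GoodF (fidx ts) 400 369 := GoodF.ofV v369 n369 c369.down b369.down

/-- 457674:318/1 -/
noncomputable def e370 : SCfg where
  D := {
    a := 6
    L := 9
    kp := 6
    inn := [(0, 1), (0, 2), (1, 0), (1, 2), (2, 0), (2, 1), (2, 3), (2, 4), (3, 2), (3, 4), (3, 5), (4,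
      2), (4, 3), (4, 5), (5, 3), (5, 4)]
    mix := [(0, 0), (0, 1), (1, 1), (1, 2), (1, 3), (2, 0), (2, 3), (2, 4), (3, 2), (3, 3), (3, 5), (4,
      4), (4, 6), (4, 7), (4, 8), (5, 5), (5, 6)]
    cl := [0, 1, 2, 0, 3, 4, 3, 5, 6]
    chq := [(0, 4), (4, 0)]
    rng := [(0, 1), (0, 4), (1, 0), (1, 2), (2, 1), (2, 3), (2, 5), (3, 2), (4, 0), (4, 8), (5, 2), (5,
      6), (6, 5), (6, 7), (7, 6), (7, 8), (8, 4), (8, 7)]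
    lev := [] }
  links := [[1, 2, 6, 7], [2, 0, 7, 8, 9], [6, 0, 1, 9, 3, 4, 10], [4, 2, 9, 8, 11, 5], [10, 2, 3, 5, 12,
    13, 14], [12, 4, 3, 11]]
  P := {
    a := 6
    N := 15
    nb := [198, 901, 1627, 2868, 29740, 6168, 1157, 323, 2698, 270, 16468, 4392, 10288, 20496, 9232]
    tri := [(0, 1, 2), (0, 1, 7), (0, 2, 6), (0, 6, 7), (1, 2, 9), (1, 7, 8), (1, 8, 9), (2, 3, 4), (2,
      3, 9), (2, 4, 10), (2, 6, 10), (3, 4, 5), (3, 5, 11), (3, 8, 9), (3, 8, 11), (4, 5, 12), (4,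
      10, 14), (4, 12, 13), (4, 13, 14), (5, 11, 12)]
    fin := [0, 0, 0, 0, 4, 0, 0, 7, 8, 0, 4, 11, 4, 13, 14]
    chd := [(0, 11)]
    steps := [(0, 1), (0, 2), (0, 6), (0, 9), (0, 3), (0, 5), (4, 12), (4, 10)] }
  rep := [0, 7, 8, 4, 11, 13, 14]

noncomputable def v370 : Cov.CovD where
  P := 3
  N := 4
  pl := [1, 2, 7, 8]
  lev := [⟨[], [], [], [1], [(0, 0, [4])]⟩,
    ⟨[], [(0, 0)], [], [1, 2], [(3, 0, [4])]⟩,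
    ⟨[(0, 1)], [(0, 0), (0, 3), (1, 0), (1, 3)], [(0, 0), (0, 3)], [], [(0, 0, [4]), (3, 0,
      [4]), (4, 3, [])]⟩,
    ⟨[(0, 2), (1, 2)], [(1, 0), (2, 0), (2, 3), (2, 4)], [(0, 4)], [2], [(3, 0, [4]), (5,
      4, [0])]⟩,
    ⟨[(0, 2), (1, 2), (2, 3)], [(2, 0), (2, 3), (3, 0), (3, 3), (3, 4)], [(3, 3)], [5, 6],
      [(4, 3, []), (6, 3, [])]⟩,
    ⟨[(2, 3), (2, 4), (3, 4)], [(3, 0), (3, 3), (3, 4), (4, 3), (4, 4)], [(3, 4)], [], [(5,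
      4, [0]), (6, 3, [])]⟩]
  Ta := [((0, 1), 0, 1), ((0, 4), 0, 3), ((3, 2), 0, 2), ((4, 0), 3, 0), ((4, 8), 3, 6), ((6, 5),
    3, 4), ((6, 7), 3, 5)]
  Tb := [((0, 1, 4), 0, 1, 3), ((1, 0, 2), 1, 0, 2), ((2, 1, 3), 2, 1, 0), ((2, 1, 5), 2, 1, 4),
    ((2, 3, 5), 2, 0, 4), ((4, 0, 8), 3, 0, 6), ((5, 2, 6), 4, 2, 3), ((6, 5, 7), 3, 4, 5),
    ((7, 6, 8), 5, 3, 6), ((8, 4, 7), 6, 3, 5)]
  Tc := []
  Td := [((0, 4), (0, 1), 1), ((0, 4), (0, 4), 3), ((0, 4), (3, 2), 2), ((4, 0), (5, 2), 2), ((4,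
    0), (5, 6), 3)]
  G := [[0, 0x11644e58411178486, 0, 0x141212fc12982168e14, 0x1145f24115f8a14], [0,
    0x1111f1111fc284, 0, 0x1111f1116fc248, 0x111cf1111fa488], [0, 0, 0x1111f24111f8a44,
    0x2112f4841222f8485, 0x119721824116f18ae84], [0, 0, 0x1111f1111f6841, 0x111af1111fc248,
    0x111cf1111fa488]]

noncomputable def n370 : Ent := ⟨e370, noF, [], [], []⟩

def c370 : PLift (Cov.check n370.C.D v370 = true) := ⟨by decide +kernel⟩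

def b370 : PLift (entF (fidx ts) 400 370 n370 = true) := ⟨by decide +kernel⟩

theorem g370 : GoodF (fidx ts) 400 370 := GoodF.ofV v370 n370 c370.down b370.down

/-- 457674:318 -/
noncomputable def e371 : SCfg where
  D := {
    a := 6
    L := 10
    kp := 7
    inn := [(0, 1), (0, 2), (1, 0), (1, 2), (2, 0), (2, 1), (2, 3), (2, 4), (3, 2), (3, 4), (3, 5), (4,
      2), (4, 3), (4, 5), (5, 3), (5, 4)]
    mix := [(0, 0), (0, 1), (1, 1), (1, 2), (1, 3), (2, 0), (2, 3), (2, 4), (3, 3), (3, 5), (3, 6), (4,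
      4), (4, 7), (4, 8), (4, 9), (5, 6), (5, 7)]
    cl := [0, 2, 4, 0, 1, 5, 3, 1, 6, 7]
    chq := [(0, 3), (3, 0)]
    rng := [(0, 1), (0, 4), (1, 0), (1, 2), (2, 1), (2, 3), (3, 2), (3, 5), (4, 0), (4, 9), (5, 3), (5,
      6), (6, 5), (6, 7), (7, 6), (7, 8), (8, 7), (8, 9), (9, 4), (9, 8)]
    lev := [] }
  links := [[1, 2, 6, 7], [2, 0, 7, 8, 9], [6, 0, 1, 9, 3, 4, 10], [4, 2, 9, 11, 12, 5], [10, 2, 3, 5,
    13, 14, 15], [13, 4, 3, 12]]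
  P := {
    a := 6
    N := 16
    nb := [198, 901, 1627, 6708, 58412, 12312, 1157, 323, 642, 2318, 32852, 4616, 10280, 20528, 40976,
      17424]
    tri := [(0, 1, 2), (0, 1, 7), (0, 2, 6), (0, 6, 7), (1, 2, 9), (1, 7, 8), (1, 8, 9), (2, 3, 4), (2,
      3, 9), (2, 4, 10), (2, 6, 10), (3, 4, 5), (3, 5, 12), (3, 9, 11), (3, 11, 12), (4, 5, 13),
      (4, 10, 15), (4, 13, 14), (4, 14, 15), (5, 12, 13)]
    fin := [0, 0, 0, 0, 4, 0, 0, 7, 8, 0, 4, 11, 12, 4, 14, 15]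
    chd := [(0, 12)]
    steps := [(0, 1), (0, 2), (0, 3), (0, 5), (0, 6), (0, 9), (4, 13), (4, 10)] }
  rep := [0, 4, 7, 12, 8, 11, 14, 15]

noncomputable def v371 : Cov.CovD where
  P := 3
  N := 5
  pl := [1, 2, 5, 8, 9]
  lev := [⟨[], [], [], [2], [(0, 0, [3])]⟩,
    ⟨[], [(0, 0)], [], [2, 4], [(3, 0, [3])]⟩,
    ⟨[(0, 1)], [(0, 0), (0, 1), (1, 0), (1, 1)], [(0, 0), (0, 1)], [], [(0, 0, [3]), (3, 0,
      [3]), (4, 1, [])]⟩,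
    ⟨[(0, 2), (1, 2)], [(1, 0), (2, 0), (2, 1), (2, 3)], [(0, 3)], [5], [(3, 0, [3]), (6,
      3, [0])]⟩,
    ⟨[(0, 2), (1, 2), (2, 3)], [(2, 0), (2, 1), (3, 0), (3, 1), (3, 3)], [(1, 1)], [6, 7],
      [(4, 1, []), (7, 1, [])]⟩,
    ⟨[(2, 3), (2, 4), (3, 4)], [(3, 0), (3, 1), (3, 3), (4, 1), (4, 3)], [(1, 3)], [], [(6,
      3, [0]), (7, 1, [])]⟩]
  Ta := [((0, 1), 0, 2), ((0, 4), 0, 1), ((3, 2), 0, 4), ((3, 5), 0, 5), ((4, 0), 1, 0), ((4, 9),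
    1, 7), ((7, 6), 1, 3), ((7, 8), 1, 6)]
  Tb := [((0, 1, 4), 0, 2, 1), ((1, 0, 2), 2, 0, 4), ((2, 1, 3), 4, 2, 0), ((3, 2, 5), 0, 4, 5),
    ((4, 0, 9), 1, 0, 7), ((5, 3, 6), 5, 0, 3), ((6, 5, 7), 3, 5, 1), ((7, 6, 8), 1, 3, 6),
    ((8, 7, 9), 6, 1, 7), ((9, 4, 8), 7, 1, 6)]
  Tc := []
  Td := [((0, 3), (0, 1), 2), ((0, 3), (0, 4), 1), ((0, 3), (3, 2), 4), ((0, 3), (3, 5), 5), ((3,
    0), (6, 5), 5), ((3, 0), (6, 7), 1)]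
  G := [[0, 0xaace126cce18c4, 0x81111122cf421111122cf4a8, 0x244182d129111dec18,
    0x2254112d28111dec18], [0, 0, 0x1111a11ccc5641c451111c8bca4, 0x1454118d18111dec18,
    0x114d4118d111dac12], [0, 0, 0, 0x244188d229111dec14422d14e229119acc1,
    0x1254112d18111dec244118d129111deca1], [0, 0, 0, 0x1421192118d414dce114d111d6118d8ac4,
    0x111d2188d414dc6144188d119115deca1]]

noncomputable def n371 : Ent := ⟨e371, noF, [], [], [(8, 11, [385753029973385757586473899687645848430002847914503881323126785, 0])]⟩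

def c371 : PLift (Cov.check n371.C.D v371 = true) := ⟨by decide +kernel⟩

def b371 : PLift (entF (fidx ts) 400 371 n371 = true) := ⟨by decide +kernel⟩

theorem g371 : GoodF (fidx ts) 400 371 := GoodF.ofV v371 n371 c371.down b371.down

/-- 457674:319/2 -/
noncomputable def e372 : SCfg where
  D := {
    a := 6
    L := 9
    kp := 6
    inn := [(0, 1), (0, 2), (1, 0), (1, 2), (2, 0), (2, 1), (2, 3), (2, 4), (3, 2), (3, 4), (4, 2), (4,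
      3), (4, 5), (5, 4)]
    mix := [(0, 0), (0, 1), (1, 1), (1, 2), (1, 3), (2, 0), (2, 3), (2, 4), (3, 2), (3, 3), (3, 5), (3,
      6), (4, 4), (4, 6), (4, 7), (4, 8), (5, 1), (5, 6), (5, 7)]
    cl := [0, 1, 4, 0, 2, 6, 3, 5, 3]
    chq := [(2, 4), (2, 6), (4, 2), (6, 2)]
    rng := [(0, 1), (0, 4), (1, 0), (1, 2), (1, 6), (1, 7), (2, 1), (2, 3), (2, 5), (3, 2), (4, 0), (4,
      8), (5, 2), (5, 6), (6, 1), (6, 5), (7, 1), (7, 8), (8, 4), (8, 7)]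
    lev := [] }
  links := [[1, 2, 6, 7], [2, 0, 7, 8, 9], [6, 0, 1, 9, 3, 4, 10], [4, 2, 9, 8, 11, 12], [10, 2, 3, 12,
    5, 13, 14], [13, 4, 12, 7]]
  P := {
    a := 6
    N := 15
    nb := [198, 901, 1627, 6932, 29740, 12432, 1157, 12643, 2698, 270, 16468, 4360, 2232, 16560, 9232]
    tri := [(0, 1, 2), (0, 1, 7), (0, 2, 6), (0, 6, 7), (1, 2, 9), (1, 7, 8), (1, 8, 9), (2, 3, 4), (2,
      3, 9), (2, 4, 10), (2, 6, 10), (3, 4, 12), (3, 8, 9), (3, 8, 11), (3, 11, 12), (4, 5, 12),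
      (4, 5, 13), (4, 10, 14), (4, 13, 14), (5, 7, 12), (5, 7, 13)]
    fin := [0, 0, 2, 2, 4, 5, 0, 5, 8, 0, 2, 11, 4, 13, 4]
    chd := [(2, 11), (8, 2)]
    steps := [(0, 1), (0, 6), (0, 9), (2, 3), (2, 10), (4, 12), (4, 14), (5, 7)] }
  rep := [0, 5, 2, 4, 8, 13, 11]

noncomputable def v372 : Cov.CovD where
  P := 3
  N := 4
  pl := [1, 7]
  lev := [⟨[], [], [], [1], [(0, 0, [])]⟩,
    ⟨[], [(0, 0), (0, 4)], [(0, 4)], [1], [(2, 4, [2]), (3, 0, [])]⟩,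
    ⟨[(0, 1)], [(0, 0), (0, 2), (1, 0), (1, 2), (1, 4)], [(0, 0), (0, 2)], [], [(0, 0, []),
      (3, 0, []), (4, 2, [4, 6])]⟩,
    ⟨[(0, 2), (1, 2)], [(1, 0), (1, 4), (2, 0), (2, 2), (2, 3), (2, 4), (2, 6)], [(0, 3),
      (0, 4), (0, 6), (3, 4), (3, 6), (4, 6)], [], [(2, 4, [2]), (3, 0, []), (5, 6, [2]), (6,
      3, [])]⟩,
    ⟨[(0, 2), (1, 2), (2, 3)], [(2, 0), (2, 2), (2, 3), (3, 0), (3, 2), (3, 3), (3, 4), (3,
      6)], [(2, 3), (3, 3)], [5], [(4, 2, [4, 6]), (6, 3, []), (8, 3, [])]⟩,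
    ⟨[(2, 4), (3, 4)], [(3, 3), (4, 2), (4, 3)], [], [1, 5], [(6, 3, [])]⟩]
  Ta := [((0, 1), 0, 1), ((0, 4), 0, 2), ((3, 2), 0, 4), ((6, 1), 3, 1), ((6, 5), 3, 6), ((8, 4),
    3, 2), ((8, 7), 3, 5)]
  Tb := [((0, 1, 4), 0, 1, 2), ((1, 0, 2), 1, 0, 4), ((1, 0, 6), 1, 0, 3), ((1, 0, 7), 1, 0, 5),
    ((1, 2, 6), 1, 4, 3), ((1, 2, 7), 1, 4, 5), ((1, 6, 7), 1, 3, 5), ((2, 1, 3), 4, 1, 0),
    ((2, 1, 5), 4, 1, 6), ((2, 3, 5), 4, 0, 6), ((4, 0, 8), 2, 0, 3), ((5, 2, 6), 6, 4, 3),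
    ((6, 1, 5), 3, 1, 6), ((7, 1, 8), 5, 1, 3), ((8, 4, 7), 3, 2, 5)]
  Tc := [(2, 4, 6)]
  Td := [((2, 4), (4, 0), 0), ((2, 4), (4, 8), 3), ((2, 6), (4, 0), 0), ((2, 6), (4, 8), 3), ((4,
    2), (2, 1), 1), ((4, 2), (2, 3), 0), ((4, 2), (2, 5), 6), ((6, 2), (5, 2), 4), ((6, 2),
    (5, 6), 3)]
  G := [[0, 0xe128e128a4, 0x841e12841e12c4, 0x4152882c14, 0x841b4214], [0, 0x6128c12862,
    0x189e12841e12c4, 0x891d2418, 0x841b4218], [0, 0, 0, 0x4152882c4428192cc1,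
    0x841b424c1b48c4], [0, 0, 0, 0x891d244152882cc1, 0x491b18661568a41]]

noncomputable def n372 : Ent := ⟨e372, noF, [], [], []⟩

def c372 : PLift (Cov.check n372.C.D v372 = true) := ⟨by decide +kernel⟩

def b372 : PLift (entF (fidx ts) 400 372 n372 = true) := ⟨by decide +kernel⟩

theorem g372 : GoodF (fidx ts) 400 372 := GoodF.ofV v372 n372 c372.down b372.down

/-- 457674:319/1 -/
noncomputable def e373 : SCfg where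
  D := {
    a := 6
    L := 10
    kp := 7
    inn := [(0, 1), (0, 2), (1, 0), (1, 2), (2, 0), (2, 1), (2, 3), (2, 4), (3, 2), (3, 4), (4, 2), (4,
      3), (4, 5), (5, 4)]
    mix := [(0, 0), (0, 1), (1, 1), (1, 2), (1, 3), (2, 0), (2, 3), (2, 4), (3, 3), (3, 5), (3, 6), (3,
      7), (4, 4), (4, 7), (4, 8), (4, 9), (5, 1), (5, 7), (5, 8)]
    cl := [0, 1, 7, 0, 2, 5, 6, 3, 4, 3]
    chq := [(2, 5), (2, 6), (5, 2), (6, 2)]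
    rng := [(0, 1), (0, 4), (1, 0), (1, 2), (1, 7), (1, 8), (2, 1), (2, 3), (3, 2), (3, 5), (4, 0), (4,
      9), (5, 3), (5, 6), (6, 5), (6, 7), (7, 1), (7, 6), (8, 1), (8, 9), (9, 4), (9, 8)]
    lev := [] }
  links := [[1, 2, 6, 7], [2, 0, 7, 8, 9], [6, 0, 1, 9, 3, 4, 10], [4, 2, 9, 11, 12, 13], [10, 2, 3, 13,
    5, 14, 15], [14, 4, 13, 7]]
  P := {
    a := 6
    N := 16
    nb := [198, 901, 1627, 14868, 58412, 24720, 1157, 24931, 642, 2318, 32852, 4616, 10248, 4280,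
      32944, 17424]
    tri := [(0, 1, 2), (0, 1, 7), (0, 2, 6), (0, 6, 7), (1, 2, 9), (1, 7, 8), (1, 8, 9), (2, 3, 4), (2,
      3, 9), (2, 4, 10), (2, 6, 10), (3, 4, 13), (3, 9, 11), (3, 11, 12), (3, 12, 13), (4, 5, 13),
      (4, 5, 14), (4, 10, 15), (4, 14, 15), (5, 7, 13), (5, 7, 14)]
    fin := [0, 0, 2, 2, 4, 5, 0, 5, 8, 0, 2, 11, 12, 4, 14, 4]
    chd := [(2, 11), (2, 12)]
    steps := [(0, 1), (0, 6), (0, 9), (2, 3), (2, 10), (4, 13), (4, 15), (5, 7)] }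
  rep := [0, 5, 2, 4, 14, 11, 12, 8]

noncomputable def v373 : Cov.CovD where
  P := 3
  N := 5
  pl := [1, 2, 8]
  lev := [⟨[], [], [], [1], [(0, 0, [])]⟩,
    ⟨[], [(0, 0)], [], [1, 7], [(3, 0, [])]⟩,
    ⟨[(0, 1)], [(0, 0), (0, 2), (1, 0), (1, 2)], [(0, 0), (0, 2)], [], [(0, 0, []), (3, 0,
      []), (4, 2, [5, 6])]⟩,
    ⟨[(0, 2), (1, 2)], [(1, 0), (2, 0), (2, 2), (2, 3), (2, 5), (2, 6)], [(0, 3), (0, 5),
      (0, 6), (3, 5), (3, 6), (5, 6)], [], [(3, 0, []), (5, 5, [2]), (6, 6, [2]), (7, 3,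
      [])]⟩,
    ⟨[(0, 2), (1, 2), (2, 3)], [(2, 0), (2, 2), (2, 3), (3, 0), (3, 2), (3, 3), (3, 5), (3,
      6)], [(2, 3), (3, 3)], [4], [(4, 2, [5, 6]), (7, 3, []), (9, 3, [])]⟩,
    ⟨[(2, 4), (3, 4)], [(3, 3), (4, 2), (4, 3)], [], [1, 4], [(7, 3, [])]⟩]
  Ta := [((0, 1), 0, 1), ((0, 4), 0, 2), ((3, 2), 0, 7), ((3, 5), 0, 5), ((7, 1), 3, 1), ((7, 6),
    3, 6), ((9, 4), 3, 2), ((9, 8), 3, 4)]
  Tb := [((0, 1, 4), 0, 1, 2), ((1, 0, 2), 1, 0, 7), ((1, 0, 7), 1, 0, 3), ((1, 0, 8), 1, 0, 4),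
    ((1, 2, 7), 1, 7, 3), ((1, 2, 8), 1, 7, 4), ((1, 7, 8), 1, 3, 4), ((2, 1, 3), 7, 1, 0),
    ((3, 2, 5), 0, 7, 5), ((4, 0, 9), 2, 0, 3), ((5, 3, 6), 5, 0, 6), ((6, 5, 7), 6, 5, 3),
    ((7, 1, 6), 3, 1, 6), ((8, 1, 9), 4, 1, 3), ((9, 4, 8), 3, 2, 4)]
  Tc := [(2, 5, 6)]
  Td := [((2, 5), (4, 0), 0), ((2, 5), (4, 9), 3), ((2, 6), (4, 0), 0), ((2, 6), (4, 9), 3), ((5,
    2), (5, 3), 0), ((5, 2), (5, 6), 6), ((6, 2), (6, 5), 5), ((6, 2), (6, 7), 3)]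
  G := [[0, 0xe128e12864, 0x815e14841e12c8, 0x4152882c18, 0x841b4214], [0, 0xc124c128a8,
    0x48ce12881e12c4, 0x4152882c18, 0x191b4218], [0, 0, 0, 0x4152882c4428192cc1,
    0x841b42841b42c8], [0, 0, 0, 0x4152882c541d28c1, 0x498b42491b42c4]]

noncomputable def n373 : Ent := ⟨e373, noF, [], [], [(8, 11, [385753029973385757586473899687645848430002847914503881323134977, 0])]⟩

def c373 : PLift (Cov.check n373.C.D v373 = true) := ⟨by decide +kernel⟩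

def b373 : PLift (entF (fidx ts) 400 373 n373 = true) := ⟨by decide +kernel⟩

theorem g373 : GoodF (fidx ts) 400 373 := GoodF.ofV v373 n373 c373.down b373.down

/-- 457674:319/3 -/
noncomputable def e374 : SCfg where
  D := {
    a := 6
    L := 10
    kp := 7
    inn := [(0, 1), (0, 2), (1, 0), (1, 2), (2, 0), (2, 1), (2, 3), (2, 4), (3, 2), (3, 4), (4, 2), (4,
      3), (4, 5), (5, 4)]
    mix := [(0, 0), (0, 1), (1, 1), (1, 2), (1, 3), (2, 0), (2, 3), (2, 4), (3, 2), (3, 3), (3, 5), (3,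
      6), (4, 4), (4, 6), (4, 7), (4, 8), (5, 6), (5, 7), (5, 9)]
    cl := [0, 2, 4, 0, 1, 6, 3, 5, 3, 7]
    chq := [(1, 4), (1, 6), (4, 1), (6, 1)]
    rng := [(0, 1), (0, 4), (1, 0), (1, 2), (2, 1), (2, 3), (2, 5), (3, 2), (4, 0), (4, 8), (5, 2), (5,
      6), (6, 5), (6, 9), (7, 8), (7, 9), (8, 4), (8, 7), (9, 6), (9, 7)]
    lev := [] }
  links := [[1, 2, 6, 7], [2, 0, 7, 8, 9], [6, 0, 1, 9, 3, 4, 10], [4, 2, 9, 8, 11, 12], [10, 2, 3, 12,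
    5, 13, 14], [13, 4, 12, 15]]
  P := {
    a := 6
    N := 16
    nb := [198, 901, 1627, 6932, 29740, 45072, 1157, 323, 2698, 270, 16468, 4360, 34872, 49200, 9232,
      12320]
    tri := [(0, 1, 2), (0, 1, 7), (0, 2, 6), (0, 6, 7), (1, 2, 9), (1, 7, 8), (1, 8, 9), (2, 3, 4), (2,
      3, 9), (2, 4, 10), (2, 6, 10), (3, 4, 12), (3, 8, 9), (3, 8, 11), (3, 11, 12), (4, 5, 12),
      (4, 5, 13), (4, 10, 14), (4, 13, 14), (5, 12, 15), (5, 13, 15)]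
    fin := [0, 0, 2, 2, 4, 4, 0, 7, 8, 0, 2, 11, 4, 13, 4, 15]
    chd := [(2, 11), (8, 2)]
    steps := [(0, 1), (0, 6), (0, 9), (2, 3), (2, 10), (4, 5), (4, 12), (4, 14)] }
  rep := [0, 2, 7, 4, 8, 13, 11, 15]

noncomputable def v374 : Cov.CovD where
  P := 3
  N := 5
  pl := [1, 7, 9]
  lev := [⟨[], [], [], [2], [(0, 0, [])]⟩,
    ⟨[], [(0, 0), (0, 4)], [(0, 4)], [2], [(2, 4, [1]), (3, 0, [])]⟩,
    ⟨[(0, 1)], [(0, 0), (0, 1), (1, 0), (1, 1), (1, 4)], [(0, 0), (0, 1)], [], [(0, 0, []),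
      (3, 0, []), (4, 1, [4, 6])]⟩,
    ⟨[(0, 2), (1, 2)], [(1, 0), (1, 4), (2, 0), (2, 1), (2, 3), (2, 4), (2, 6)], [(0, 3),
      (0, 4), (0, 6), (3, 4), (3, 6), (4, 6)], [], [(2, 4, [1]), (3, 0, []), (5, 6, [1]), (6,
      3, [])]⟩,
    ⟨[(0, 2), (1, 2), (2, 3)], [(2, 0), (2, 1), (2, 3), (3, 0), (3, 1), (3, 3), (3, 4), (3,
      6)], [(1, 3), (3, 3)], [5], [(4, 1, [4, 6]), (6, 3, []), (8, 3, [])]⟩,
    ⟨[(2, 4), (3, 4)], [(3, 3), (4, 1), (4, 3)], [], [5, 7], [(6, 3, [])]⟩]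
  Ta := [((0, 1), 0, 2), ((0, 4), 0, 1), ((3, 2), 0, 4), ((6, 5), 3, 6), ((6, 9), 3, 7), ((8, 4),
    3, 1), ((8, 7), 3, 5)]
  Tb := [((0, 1, 4), 0, 2, 1), ((1, 0, 2), 2, 0, 4), ((2, 1, 3), 4, 2, 0), ((2, 1, 5), 4, 2, 6),
    ((2, 3, 5), 4, 0, 6), ((4, 0, 8), 1, 0, 3), ((5, 2, 6), 6, 4, 3), ((6, 5, 9), 3, 6, 7),
    ((7, 8, 9), 5, 3, 7), ((8, 4, 7), 3, 1, 5), ((9, 6, 7), 7, 3, 5)]
  Tc := [(1, 4, 6)]
  Td := [((1, 4), (4, 0), 0), ((1, 4), (4, 8), 3), ((1, 6), (4, 0), 0), ((1, 6), (4, 8), 3), ((4,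
    1), (2, 1), 2), ((4, 1), (2, 3), 0), ((4, 1), (2, 5), 6), ((6, 1), (5, 2), 4), ((6, 1),
    (5, 6), 3)]
  G := [[0, 0x5361981c32195c1ac4, 0x6352a82c642a392ca4, 0x6352a82c18, 0x642a392c12], [0,
    0x9ace129ace12c4, 0x56cd2859cd2864, 0x5ebd2814, 0x5dbd2812], [0, 0, 0,
    0x6352a82c642a392cc1, 0x642a392c6352a82ca1], [0, 0, 0, 0x642d392c5dbd28c4,
    0xa9cd245dbd28a2]]

noncomputable def n374 : Ent := ⟨e374, noF, [], [], [(7, 15, [360035742630636841211993100915356868655746945586763691009196033, 0])]⟩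

def c374 : PLift (Cov.check n374.C.D v374 = true) := ⟨by decide +kernel⟩

def b374 : PLift (entF (fidx ts) 400 374 n374 = true) := ⟨by decide +kernel⟩

theorem g374 : GoodF (fidx ts) 400 374 := GoodF.ofV v374 n374 c374.down b374.down

/-- 457674:319 -/
noncomputable def e375 : SCfg where
  D := {
    a := 6
    L := 11
    kp := 8
    inn := [(0, 1), (0, 2), (1, 0), (1, 2), (2, 0), (2, 1), (2, 3), (2, 4), (3, 2), (3, 4), (4, 2), (4,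
      3), (4, 5), (5, 4)]
    mix := [(0, 0), (0, 1), (1, 1), (1, 2), (1, 3), (2, 0), (2, 3), (2, 4), (3, 3), (3, 5), (3, 6), (3,
      7), (4, 4), (4, 7), (4, 8), (4, 9), (5, 7), (5, 8), (5, 10)]
    cl := [0, 2, 7, 0, 1, 5, 6, 3, 4, 3, 8]
    chq := [(1, 5), (1, 6), (5, 1), (6, 1)]
    rng := [(0, 1), (0, 4), (1, 0), (1, 2), (2, 1), (2, 3), (3, 2), (3, 5), (4, 0), (4, 9), (5, 3), (5,
      6), (6, 5), (6, 7), (7, 6), (7, 10), (8, 9), (8, 10), (9, 4), (9, 8), (10, 7), (10, 8)]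
    lev := [] }
  links := [[1, 2, 6, 7], [2, 0, 7, 8, 9], [6, 0, 1, 9, 3, 4, 10], [4, 2, 9, 11, 12, 13], [10, 2, 3, 13,
    5, 14, 15], [14, 4, 13, 16]]
  P := {
    a := 6
    N := 17
    nb := [198, 901, 1627, 14868, 58412, 90128, 1157, 323, 642, 2318, 32852, 4616, 10248, 69688,
      98352, 17424, 24608]
    tri := [(0, 1, 2), (0, 1, 7), (0, 2, 6), (0, 6, 7), (1, 2, 9), (1, 7, 8), (1, 8, 9), (2, 3, 4), (2,
      3, 9), (2, 4, 10), (2, 6, 10), (3, 4, 13), (3, 9, 11), (3, 11, 12), (3, 12, 13), (4, 5, 13),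
      (4, 5, 14), (4, 10, 15), (4, 14, 15), (5, 13, 16), (5, 14, 16)]
    fin := [0, 0, 2, 2, 4, 4, 0, 7, 8, 0, 2, 11, 12, 4, 14, 4, 16]
    chd := [(2, 11), (2, 12)]
    steps := [(0, 1), (0, 6), (0, 9), (2, 3), (2, 10), (4, 5), (4, 13), (4, 15)] }
  rep := [0, 2, 7, 4, 14, 11, 12, 8, 16]

noncomputable def v375 : Cov.CovD where
  P := 3
  N := 6
  pl := [1, 2, 8, 10]
  lev := [⟨[], [], [], [2], [(0, 0, [])]⟩,
    ⟨[], [(0, 0)], [], [2, 7], [(3, 0, [])]⟩,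
    ⟨[(0, 1)], [(0, 0), (0, 1), (1, 0), (1, 1)], [(0, 0), (0, 1)], [], [(0, 0, []), (3, 0,
      []), (4, 1, [5, 6])]⟩,
    ⟨[(0, 2), (1, 2)], [(1, 0), (2, 0), (2, 1), (2, 3), (2, 5), (2, 6)], [(0, 3), (0, 5),
      (0, 6), (3, 5), (3, 6), (5, 6)], [], [(3, 0, []), (5, 5, [1]), (6, 6, [1]), (7, 3,
      [])]⟩,
    ⟨[(0, 2), (1, 2), (2, 3)], [(2, 0), (2, 1), (2, 3), (3, 0), (3, 1), (3, 3), (3, 5), (3,
      6)], [(1, 3), (3, 3)], [4], [(4, 1, [5, 6]), (7, 3, []), (9, 3, [])]⟩,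
    ⟨[(2, 4), (3, 4)], [(3, 3), (4, 1), (4, 3)], [], [4, 8], [(7, 3, [])]⟩]
  Ta := [((0, 1), 0, 2), ((0, 4), 0, 1), ((3, 2), 0, 7), ((3, 5), 0, 5), ((7, 6), 3, 6), ((7,
    10), 3, 8), ((9, 4), 3, 1), ((9, 8), 3, 4)]
  Tb := [((0, 1, 4), 0, 2, 1), ((1, 0, 2), 2, 0, 7), ((2, 1, 3), 7, 2, 0), ((3, 2, 5), 0, 7, 5),
    ((4, 0, 9), 1, 0, 3), ((5, 3, 6), 5, 0, 6), ((6, 5, 7), 6, 5, 3), ((7, 6, 10), 3, 6, 8),
    ((8, 9, 10), 4, 3, 8), ((9, 4, 8), 3, 1, 4), ((10, 7, 8), 8, 3, 4)]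
  Tc := [(1, 5, 6)]
  Td := [((1, 5), (4, 0), 0), ((1, 5), (4, 9), 3), ((1, 6), (4, 0), 0), ((1, 6), (4, 9), 3), ((5,
    1), (5, 3), 0), ((5, 1), (5, 6), 6), ((6, 1), (6, 5), 5), ((6, 1), (6, 7), 3)]
  G := [[0, 0x32195c1a221951e1ac4, 0x642a392c6352a82c68, 0x642a392c14, 0x6352a82c12], [0,
    0x95ce1265ce12c8, 0x59cd2459cd24a2, 0x59cd2814, 0xe97d2418], [0, 0, 0,
    0x642a392c46352a82c89, 0x442a23d2c642a392ca1], [0, 0, 0, 0x59cd246352a82cc8,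
    0xd97d24e97d24a1]]

noncomputable def n375 : Ent := ⟨e375, noF, [], [], [(7, 16, [1580044410770988437309982408355971841652082177953823432505690640385, 0]), (8, 11, [1685382419726888372924274916838414562950751529256700283950315560961, 0])]⟩

def c375 : PLift (Cov.check n375.C.D v375 = true) := ⟨by decide +kernel⟩

def b375 : PLift (entF (fidx ts) 400 375 n375 = true) := ⟨by decide +kernel⟩

theorem g375 : GoodF (fidx ts) 400 375 := GoodF.ofV v375 n375 c375.down b375.down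

/-- 457674:320/2 -/
noncomputable def e376 : SCfg where
  D := {
    a := 6
    L := 9
    kp := 6
    inn := [(0, 1), (0, 2), (1, 0), (1, 2), (2, 0), (2, 1), (2, 3), (2, 4), (3, 2), (3, 4), (4, 2), (4,
      3), (4, 5), (5, 4)]
    mix := [(0, 0), (0, 1), (1, 1), (1, 2), (1, 3), (2, 0), (2, 3), (2, 4), (3, 2), (3, 3), (3, 5), (3,
      6), (4, 4), (4, 6), (4, 7), (4, 8), (5, 1), (5, 7), (5, 8)]
    cl := [0, 1, 4, 0, 2, 6, 3, 5, 3]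
    chq := [(2, 4), (2, 6), (4, 2), (6, 2)]
    rng := [(0, 1), (0, 4), (1, 0), (1, 2), (1, 7), (1, 8), (2, 1), (2, 3), (2, 5), (3, 2), (4, 0), (4,
      8), (5, 2), (5, 6), (6, 5), (6, 7), (7, 1), (7, 6), (8, 1), (8, 4)]
    lev := [] }
  links := [[1, 2, 6, 7], [2, 0, 7, 8, 9], [6, 0, 1, 9, 3, 4, 10], [4, 2, 9, 8, 11, 12], [10, 2, 3, 12,
    13, 5, 14], [14, 4, 13, 7]]
  P := {
    a := 6
    N := 15
    nb := [198, 901, 1627, 6932, 29740, 24720, 1157, 24931, 2698, 270, 16468, 4360, 10264, 4272, 1200]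
    tri := [(0, 1, 2), (0, 1, 7), (0, 2, 6), (0, 6, 7), (1, 2, 9), (1, 7, 8), (1, 8, 9), (2, 3, 4), (2,
      3, 9), (2, 4, 10), (2, 6, 10), (3, 4, 12), (3, 8, 9), (3, 8, 11), (3, 11, 12), (4, 5, 13),
      (4, 5, 14), (4, 10, 14), (4, 12, 13), (5, 7, 13), (5, 7, 14)]
    fin := [0, 0, 2, 2, 4, 5, 0, 5, 8, 0, 2, 11, 4, 13, 4]
    chd := [(2, 11), (8, 2)]
    steps := [(0, 1), (0, 6), (0, 9), (2, 3), (2, 10), (4, 12), (4, 14), (5, 7)] }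
  rep := [0, 5, 2, 4, 8, 13, 11]

noncomputable def v376 : Cov.CovD where
  P := 3
  N := 4
  pl := [1, 7]
  lev := [⟨[], [], [], [1], [(0, 0, [])]⟩,
    ⟨[], [(0, 0), (0, 4)], [(0, 4)], [1], [(2, 4, [2]), (3, 0, [])]⟩,
    ⟨[(0, 1)], [(0, 0), (0, 2), (1, 0), (1, 2), (1, 4)], [(0, 0), (0, 2)], [], [(0, 0, []),
      (3, 0, []), (4, 2, [4, 6])]⟩,
    ⟨[(0, 2), (1, 2)], [(1, 0), (1, 4), (2, 0), (2, 2), (2, 3), (2, 4), (2, 6)], [(0, 3),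
      (0, 4), (0, 6), (3, 4), (3, 6), (4, 6)], [], [(2, 4, [2]), (3, 0, []), (5, 6, [2]), (6,
      3, [])]⟩,
    ⟨[(0, 2), (1, 2), (2, 3)], [(2, 0), (2, 2), (2, 3), (3, 0), (3, 2), (3, 3), (3, 4), (3,
      6)], [(2, 3), (3, 3)], [5], [(4, 2, [4, 6]), (6, 3, []), (8, 3, [])]⟩,
    ⟨[(2, 4), (3, 4)], [(4, 2), (4, 3)], [], [1, 5], [(8, 3, [])]⟩]
  Ta := [((0, 1), 0, 1), ((0, 4), 0, 2), ((3, 2), 0, 4), ((6, 5), 3, 6), ((6, 7), 3, 5), ((8, 1),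
    3, 1), ((8, 4), 3, 2)]
  Tb := [((0, 1, 4), 0, 1, 2), ((1, 0, 2), 1, 0, 4), ((1, 0, 7), 1, 0, 5), ((1, 0, 8), 1, 0, 3),
    ((1, 2, 7), 1, 4, 5), ((1, 2, 8), 1, 4, 3), ((1, 7, 8), 1, 5, 3), ((2, 1, 3), 4, 1, 0),
    ((2, 1, 5), 4, 1, 6), ((2, 3, 5), 4, 0, 6), ((4, 0, 8), 2, 0, 3), ((5, 2, 6), 6, 4, 3),
    ((6, 5, 7), 3, 6, 5), ((7, 1, 6), 5, 1, 3), ((8, 1, 4), 3, 1, 2)]
  Tc := [(2, 4, 6)]
  Td := [((2, 4), (4, 0), 0), ((2, 4), (4, 8), 3), ((2, 6), (4, 0), 0), ((2, 6), (4, 8), 3), ((4,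
    2), (2, 1), 1), ((4, 2), (2, 3), 0), ((4, 2), (2, 5), 6), ((6, 2), (5, 2), 4), ((6, 2),
    (5, 6), 3)]
  G := [[0, 0xa128a124a4, 0x881e121c61881cc8, 0x891d2418, 0x854b4214], [0, 0xe124e128a8,
    0x149e12841e12c4, 0x4152882c18, 0x841b4218], [0, 0, 0, 0x4152882c541d28c4,
    0x841b42141b48c1], [0, 0, 0, 0x4428192c44152882c8c, 0x841b42841b42c4]]

noncomputable def n376 : Ent := ⟨e376, noF, [], [], []⟩

def c376 : PLift (Cov.check n376.C.D v376 = true) := ⟨by decide +kernel⟩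

def b376 : PLift (entF (fidx ts) 400 376 n376 = true) := ⟨by decide +kernel⟩

theorem g376 : GoodF (fidx ts) 400 376 := GoodF.ofV v376 n376 c376.down b376.down

/-- 457674:320/1 -/
noncomputable def e377 : SCfg where
  D := {
    a := 6
    L := 10
    kp := 7
    inn := [(0, 1), (0, 2), (1, 0), (1, 2), (2, 0), (2, 1), (2, 3), (2, 4), (3, 2), (3, 4), (4, 2), (4,
      3), (4, 5), (5, 4)]
    mix := [(0, 0), (0, 1), (1, 1), (1, 2), (1, 3), (2, 0), (2, 3), (2, 4), (3, 3), (3, 5), (3, 6), (3,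
      7), (4, 4), (4, 7), (4, 8), (4, 9), (5, 1), (5, 8), (5, 9)]
    cl := [0, 1, 7, 0, 2, 5, 6, 3, 4, 3]
    chq := [(2, 5), (2, 6), (5, 2), (6, 2)]
    rng := [(0, 1), (0, 4), (1, 0), (1, 2), (1, 8), (1, 9), (2, 1), (2, 3), (3, 2), (3, 5), (4, 0), (4,
      9), (5, 3), (5, 6), (6, 5), (6, 7), (7, 6), (7, 8), (8, 1), (8, 7), (9, 1), (9, 4)]
    lev := [] }
  links := [[1, 2, 6, 7], [2, 0, 7, 8, 9], [6, 0, 1, 9, 3, 4, 10], [4, 2, 9, 11, 12, 13], [10, 2, 3, 13,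
    14, 5, 15], [15, 4, 14, 7]]
  P := {
    a := 6
    N := 16
    nb := [198, 901, 1627, 14868, 58412, 49296, 1157, 49507, 642, 2318, 32852, 4616, 10248, 20504,
      8368, 1200]
    tri := [(0, 1, 2), (0, 1, 7), (0, 2, 6), (0, 6, 7), (1, 2, 9), (1, 7, 8), (1, 8, 9), (2, 3, 4), (2,
      3, 9), (2, 4, 10), (2, 6, 10), (3, 4, 13), (3, 9, 11), (3, 11, 12), (3, 12, 13), (4, 5, 14),
      (4, 5, 15), (4, 10, 15), (4, 13, 14), (5, 7, 14), (5, 7, 15)]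
    fin := [0, 0, 2, 2, 4, 5, 0, 5, 8, 0, 2, 11, 12, 4, 14, 4]
    chd := [(2, 11), (2, 12)]
    steps := [(0, 1), (0, 6), (0, 9), (2, 3), (2, 10), (4, 13), (4, 15), (5, 7)] }
  rep := [0, 5, 2, 4, 14, 11, 12, 8]

noncomputable def v377 : Cov.CovD where
  P := 3
  N := 5
  pl := [1, 2, 8]
  lev := [⟨[], [], [], [1], [(0, 0, [])]⟩,
    ⟨[], [(0, 0)], [], [1, 7], [(3, 0, [])]⟩,
    ⟨[(0, 1)], [(0, 0), (0, 2), (1, 0), (1, 2)], [(0, 0), (0, 2)], [], [(0, 0, []), (3, 0,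
      []), (4, 2, [5, 6])]⟩,
    ⟨[(0, 2), (1, 2)], [(1, 0), (2, 0), (2, 2), (2, 3), (2, 5), (2, 6)], [(0, 3), (0, 5),
      (0, 6), (3, 5), (3, 6), (5, 6)], [], [(3, 0, []), (5, 5, [2]), (6, 6, [2]), (7, 3,
      [])]⟩,
    ⟨[(0, 2), (1, 2), (2, 3)], [(2, 0), (2, 2), (2, 3), (3, 0), (3, 2), (3, 3), (3, 5), (3,
      6)], [(2, 3), (3, 3)], [4], [(4, 2, [5, 6]), (7, 3, []), (9, 3, [])]⟩,
    ⟨[(2, 4), (3, 4)], [(4, 2), (4, 3)], [], [1, 4], [(9, 3, [])]⟩]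
  Ta := [((0, 1), 0, 1), ((0, 4), 0, 2), ((3, 2), 0, 7), ((3, 5), 0, 5), ((7, 6), 3, 6), ((7, 8),
    3, 4), ((9, 1), 3, 1), ((9, 4), 3, 2)]
  Tb := [((0, 1, 4), 0, 1, 2), ((1, 0, 2), 1, 0, 7), ((1, 0, 8), 1, 0, 4), ((1, 0, 9), 1, 0, 3),
    ((1, 2, 8), 1, 7, 4), ((1, 2, 9), 1, 7, 3), ((1, 8, 9), 1, 4, 3), ((2, 1, 3), 7, 1, 0),
    ((3, 2, 5), 0, 7, 5), ((4, 0, 9), 2, 0, 3), ((5, 3, 6), 5, 0, 6), ((6, 5, 7), 6, 5, 3),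
    ((7, 6, 8), 3, 6, 4), ((8, 1, 7), 4, 1, 3), ((9, 1, 4), 3, 1, 2)]
  Tc := [(2, 5, 6)]
  Td := [((2, 5), (4, 0), 0), ((2, 5), (4, 9), 3), ((2, 6), (4, 0), 0), ((2, 6), (4, 9), 3), ((5,
    2), (5, 3), 0), ((5, 2), (5, 6), 6), ((6, 2), (6, 5), 5), ((6, 2), (6, 7), 3)]
  G := [[0, 0xc128612864, 0x441e128161881ac8, 0x541d2814, 0x848b4218], [0, 0xe124e12862,
    0x841e1244181a1cc8, 0x4428192c14, 0x841b4214], [0, 0, 0, 0x891d24541d28c1,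
    0x491b42451b48c1], [0, 0, 0, 0x4152882c4428192cc1, 0x841b424c1b48c4]]

noncomputable def n377 : Ent := ⟨e377, noF, [], [], [(8, 11, [385753029973385757586473899687645848430002847914503881323151361, 0])]⟩

def c377 : PLift (Cov.check n377.C.D v377 = true) := ⟨by decide +kernel⟩

def b377 : PLift (entF (fidx ts) 400 377 n377 = true) := ⟨by decide +kernel⟩

theorem g377 : GoodF (fidx ts) 400 377 := GoodF.ofV v377 n377 c377.down b377.down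

/-- 457674:320/3 -/
noncomputable def e378 : SCfg where
  D := {
    a := 6
    L := 10
    kp := 7
    inn := [(0, 1), (0, 2), (1, 0), (1, 2), (2, 0), (2, 1), (2, 3), (2, 4), (3, 2), (3, 4), (4, 2), (4,
      3), (4, 5), (5, 4)]
    mix := [(0, 0), (0, 1), (1, 1), (1, 2), (1, 3), (2, 0), (2, 3), (2, 4), (3, 2), (3, 3), (3, 5), (3,
      6), (4, 4), (4, 6), (4, 7), (4, 8), (5, 7), (5, 8), (5, 9)]
    cl := [0, 2, 4, 0, 1, 6, 3, 5, 3, 7]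
    chq := [(1, 4), (1, 6), (4, 1), (6, 1)]
    rng := [(0, 1), (0, 4), (1, 0), (1, 2), (2, 1), (2, 3), (2, 5), (3, 2), (4, 0), (4, 8), (5, 2), (5,
      6), (6, 5), (6, 7), (7, 6), (7, 9), (8, 4), (8, 9), (9, 7), (9, 8)]
    lev := [] }
  links := [[1, 2, 6, 7], [2, 0, 7, 8, 9], [6, 0, 1, 9, 3, 4, 10], [4, 2, 9, 8, 11, 12], [10, 2, 3, 12,
    13, 5, 14], [14, 4, 13, 15]]
  P := {
    a := 6
    N := 16
    nb := [198, 901, 1627, 6932, 29740, 57360, 1157, 323, 2698, 270, 16468, 4360, 10264, 36912, 33840,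
      24608]
    tri := [(0, 1, 2), (0, 1, 7), (0, 2, 6), (0, 6, 7), (1, 2, 9), (1, 7, 8), (1, 8, 9), (2, 3, 4), (2,
      3, 9), (2, 4, 10), (2, 6, 10), (3, 4, 12), (3, 8, 9), (3, 8, 11), (3, 11, 12), (4, 5, 13),
      (4, 5, 14), (4, 10, 14), (4, 12, 13), (5, 13, 15), (5, 14, 15)]
    fin := [0, 0, 2, 2, 4, 4, 0, 7, 8, 0, 2, 11, 4, 13, 4, 15]
    chd := [(2, 11), (8, 2)]
    steps := [(0, 1), (0, 6), (0, 9), (2, 3), (2, 10), (4, 5), (4, 12), (4, 14)] }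
  rep := [0, 2, 7, 4, 8, 13, 11, 15]

noncomputable def v378 : Cov.CovD where
  P := 3
  N := 5
  pl := [1, 7, 9]
  lev := [⟨[], [], [], [2], [(0, 0, [])]⟩,
    ⟨[], [(0, 0), (0, 4)], [(0, 4)], [2], [(2, 4, [1]), (3, 0, [])]⟩,
    ⟨[(0, 1)], [(0, 0), (0, 1), (1, 0), (1, 1), (1, 4)], [(0, 0), (0, 1)], [], [(0, 0, []),
      (3, 0, []), (4, 1, [4, 6])]⟩,
    ⟨[(0, 2), (1, 2)], [(1, 0), (1, 4), (2, 0), (2, 1), (2, 3), (2, 4), (2, 6)], [(0, 3),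
      (0, 4), (0, 6), (3, 4), (3, 6), (4, 6)], [], [(2, 4, [1]), (3, 0, []), (5, 6, [1]), (6,
      3, [])]⟩,
    ⟨[(0, 2), (1, 2), (2, 3)], [(2, 0), (2, 1), (2, 3), (3, 0), (3, 1), (3, 3), (3, 4), (3,
      6)], [(1, 3), (3, 3)], [5], [(4, 1, [4, 6]), (6, 3, []), (8, 3, [])]⟩,
    ⟨[(2, 4), (3, 4)], [(4, 1), (4, 3)], [], [5, 7], [(8, 3, [])]⟩]
  Ta := [((0, 1), 0, 2), ((0, 4), 0, 1), ((3, 2), 0, 4), ((6, 5), 3, 6), ((6, 7), 3, 5), ((8, 4),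
    3, 1), ((8, 9), 3, 7)]
  Tb := [((0, 1, 4), 0, 2, 1), ((1, 0, 2), 2, 0, 4), ((2, 1, 3), 4, 2, 0), ((2, 1, 5), 4, 2, 6),
    ((2, 3, 5), 4, 0, 6), ((4, 0, 8), 1, 0, 3), ((5, 2, 6), 6, 4, 3), ((6, 5, 7), 3, 6, 5),
    ((7, 6, 9), 5, 3, 7), ((8, 4, 9), 3, 1, 7), ((9, 7, 8), 7, 5, 3)]
  Tc := [(1, 4, 6)]
  Td := [((1, 4), (4, 0), 0), ((1, 4), (4, 8), 3), ((1, 6), (4, 0), 0), ((1, 6), (4, 8), 3), ((4,
    1), (2, 1), 2), ((4, 1), (2, 3), 0), ((4, 1), (2, 5), 6), ((6, 1), (5, 2), 4), ((6, 1),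
    (5, 6), 3)]
  G := [[0, 0x9ace12653e18c4, 0x642a392ca93d2468, 0xa93d2418, 0xa93d2412], [0,
    0x93a154165361981ac8, 0x6352a82c642a392ca2, 0x6352a82c14, 0x6352a82c12], [0, 0, 0,
    0x593d24642a392cc8, 0xa9cd2456cd28a1], [0, 0, 0, 0x6352a82c6352a82cc1,
    0x6352a82c642a392ca2]]

noncomputable def n378 : Ent := ⟨e378, noF, [], [], [(7, 15, [360035742630636841211993100915356868655746945586763691009212417, 0])]⟩

def c378 : PLift (Cov.check n378.C.D v378 = true) := ⟨by decide +kernel⟩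

def b378 : PLift (entF (fidx ts) 400 378 n378 = true) := ⟨by decide +kernel⟩

theorem g378 : GoodF (fidx ts) 400 378 := GoodF.ofV v378 n378 c378.down b378.down

/-- 457674:320/4 -/
noncomputable def e379 : SCfg where
  D := {
    a := 6
    L := 10
    kp := 7
    inn := [(0, 1), (0, 2), (1, 0), (1, 2), (2, 0), (2, 1), (2, 3), (2, 4), (3, 2), (3, 4), (4, 2), (4,
      3), (4, 5), (5, 4)]
    mix := [(0, 0), (0, 1), (1, 1), (1, 2), (1, 3), (2, 0), (2, 3), (2, 4), (3, 3), (3, 5), (3, 6), (3,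
      7), (4, 4), (4, 7), (4, 8), (4, 9), (5, 2), (5, 8), (5, 9)]
    cl := [0, 2, 4, 0, 1, 6, 7, 3, 5, 3]
    chq := [(1, 6), (1, 7), (6, 1), (7, 1)]
    rng := [(0, 1), (0, 4), (1, 0), (1, 2), (2, 1), (2, 3), (2, 8), (2, 9), (3, 2), (3, 5), (4, 0), (4,
      9), (5, 3), (5, 6), (6, 5), (6, 7), (7, 6), (7, 8), (8, 2), (8, 7), (9, 2), (9, 4)]
    lev := [] }
  links := [[1, 2, 6, 7], [2, 0, 7, 8, 9], [6, 0, 1, 9, 3, 4, 10], [4, 2, 9, 11, 12, 13], [10, 2, 3, 13,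
    14, 5, 15], [15, 4, 14, 8]]
  P := {
    a := 6
    N := 16
    nb := [198, 901, 1627, 14868, 58412, 49424, 1157, 323, 49826, 2318, 32852, 4616, 10248, 20504,
      8496, 1328]
    tri := [(0, 1, 2), (0, 1, 7), (0, 2, 6), (0, 6, 7), (1, 2, 9), (1, 7, 8), (1, 8, 9), (2, 3, 4), (2,
      3, 9), (2, 4, 10), (2, 6, 10), (3, 4, 13), (3, 9, 11), (3, 11, 12), (3, 12, 13), (4, 5, 14),
      (4, 5, 15), (4, 10, 15), (4, 13, 14), (5, 8, 14), (5, 8, 15)]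
    fin := [0, 0, 2, 2, 4, 5, 0, 7, 5, 0, 2, 11, 12, 4, 14, 4]
    chd := [(2, 11), (2, 12)]
    steps := [(0, 1), (0, 6), (0, 9), (2, 3), (2, 10), (4, 13), (4, 15), (5, 8)] }
  rep := [0, 2, 7, 4, 5, 14, 11, 12]

noncomputable def v379 : Cov.CovD where
  P := 3
  N := 5
  pl := [1, 2, 8]
  lev := [⟨[], [], [], [2], [(0, 0, [])]⟩,
    ⟨[], [(0, 0)], [], [2, 4], [(3, 0, [])]⟩,
    ⟨[(0, 1)], [(0, 0), (0, 1), (1, 0), (1, 1)], [(0, 0), (0, 1)], [], [(0, 0, []), (3, 0,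
      []), (4, 1, [6, 7])]⟩,
    ⟨[(0, 2), (1, 2)], [(1, 0), (2, 0), (2, 1), (2, 3), (2, 6), (2, 7)], [(0, 3), (0, 6),
      (0, 7), (3, 6), (3, 7), (6, 7)], [], [(3, 0, []), (5, 6, [1]), (6, 7, [1]), (7, 3,
      [])]⟩,
    ⟨[(0, 2), (1, 2), (2, 3)], [(2, 0), (2, 1), (2, 3), (3, 0), (3, 1), (3, 3), (3, 6), (3,
      7)], [(1, 3), (3, 3)], [5], [(4, 1, [6, 7]), (7, 3, []), (9, 3, [])]⟩,
    ⟨[(2, 4), (3, 4)], [(4, 1), (4, 3)], [], [4, 5], [(9, 3, [])]⟩]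
  Ta := [((0, 1), 0, 2), ((0, 4), 0, 1), ((3, 2), 0, 4), ((3, 5), 0, 6), ((7, 6), 3, 7), ((7, 8),
    3, 5), ((9, 2), 3, 4), ((9, 4), 3, 1)]
  Tb := [((0, 1, 4), 0, 2, 1), ((1, 0, 2), 2, 0, 4), ((2, 1, 3), 4, 2, 0), ((2, 1, 8), 4, 2, 5),
    ((2, 1, 9), 4, 2, 3), ((2, 3, 8), 4, 0, 5), ((2, 3, 9), 4, 0, 3), ((2, 8, 9), 4, 5, 3),
    ((3, 2, 5), 0, 4, 6), ((4, 0, 9), 1, 0, 3), ((5, 3, 6), 6, 0, 7), ((6, 5, 7), 7, 6, 3),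
    ((7, 6, 8), 3, 7, 5), ((8, 2, 7), 5, 4, 3), ((9, 2, 4), 3, 4, 1)]
  Tc := [(1, 6, 7)]
  Td := [((1, 6), (4, 0), 0), ((1, 6), (4, 9), 3), ((1, 7), (4, 0), 0), ((1, 7), (4, 9), 3), ((6,
    1), (5, 3), 0), ((6, 1), (5, 6), 7), ((7, 1), (6, 5), 6), ((7, 1), (6, 7), 3)]
  G := [[0, 0x1a8e14144e12c8, 0x821d24241d28c2, 0x591d2814, 0x591d2412], [0, 0x831e124261181cc8,
    0x821d24241d28c2, 0x6152a82c18, 0x6152a82c18], [0, 0, 0, 0x9c52882c541d28c4,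
    0x89cd24214d28a2], [0, 0, 0, 0x821d24243d28c1, 0x4152882c263d28a1]]

noncomputable def n379 : Ent := ⟨e379, noF, [], [], []⟩

def c379 : PLift (Cov.check n379.C.D v379 = true) := ⟨by decide +kernel⟩

def b379 : PLift (entF (fidx ts) 400 379 n379 = true) := ⟨by decide +kernel⟩

theorem g379 : GoodF (fidx ts) 400 379 := GoodF.ofV v379 n379 c379.down b379.down

/-- 457674:320 -/
noncomputable def e380 : SCfg where
  D := {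
    a := 6
    L := 11
    kp := 8
    inn := [(0, 1), (0, 2), (1, 0), (1, 2), (2, 0), (2, 1), (2, 3), (2, 4), (3, 2), (3, 4), (4, 2), (4,
      3), (4, 5), (5, 4)]
    mix := [(0, 0), (0, 1), (1, 1), (1, 2), (1, 3), (2, 0), (2, 3), (2, 4), (3, 3), (3, 5), (3, 6), (3,
      7), (4, 4), (4, 7), (4, 8), (4, 9), (5, 8), (5, 9), (5, 10)]
    cl := [0, 2, 7, 0, 1, 5, 6, 3, 4, 3, 8]
    chq := [(1, 5), (1, 6), (5, 1), (6, 1)]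
    rng := [(0, 1), (0, 4), (1, 0), (1, 2), (2, 1), (2, 3), (3, 2), (3, 5), (4, 0), (4, 9), (5, 3), (5,
      6), (6, 5), (6, 7), (7, 6), (7, 8), (8, 7), (8, 10), (9, 4), (9, 10), (10, 8), (10, 9)]
    lev := [] }
  links := [[1, 2, 6, 7], [2, 0, 7, 8, 9], [6, 0, 1, 9, 3, 4, 10], [4, 2, 9, 11, 12, 13], [10, 2, 3, 13,
    14, 5, 15], [15, 4, 14, 16]]
  P := {
    a := 6
    N := 17
    nb := [198, 901, 1627, 14868, 58412, 114704, 1157, 323, 642, 2318, 32852, 4616, 10248, 20504,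
      73776, 66608, 49184]
    tri := [(0, 1, 2), (0, 1, 7), (0, 2, 6), (0, 6, 7), (1, 2, 9), (1, 7, 8), (1, 8, 9), (2, 3, 4), (2,
      3, 9), (2, 4, 10), (2, 6, 10), (3, 4, 13), (3, 9, 11), (3, 11, 12), (3, 12, 13), (4, 5, 14),
      (4, 5, 15), (4, 10, 15), (4, 13, 14), (5, 14, 16), (5, 15, 16)]
    fin := [0, 0, 2, 2, 4, 4, 0, 7, 8, 0, 2, 11, 12, 4, 14, 4, 16]
    chd := [(2, 11), (2, 12)]
    steps := [(0, 1), (0, 6), (0, 9), (2, 3), (2, 10), (4, 5), (4, 13), (4, 15)] }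
  rep := [0, 2, 7, 4, 14, 11, 12, 8, 16]

noncomputable def v380 : Cov.CovD where
  P := 3
  N := 6
  pl := [1, 2, 8, 10]
  lev := [⟨[], [], [], [2], [(0, 0, [])]⟩,
    ⟨[], [(0, 0)], [], [2, 7], [(3, 0, [])]⟩,
    ⟨[(0, 1)], [(0, 0), (0, 1), (1, 0), (1, 1)], [(0, 0), (0, 1)], [], [(0, 0, []), (3, 0,
      []), (4, 1, [5, 6])]⟩,
    ⟨[(0, 2), (1, 2)], [(1, 0), (2, 0), (2, 1), (2, 3), (2, 5), (2, 6)], [(0, 3), (0, 5),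
      (0, 6), (3, 5), (3, 6), (5, 6)], [], [(3, 0, []), (5, 5, [1]), (6, 6, [1]), (7, 3,
      [])]⟩,
    ⟨[(0, 2), (1, 2), (2, 3)], [(2, 0), (2, 1), (2, 3), (3, 0), (3, 1), (3, 3), (3, 5), (3,
      6)], [(1, 3), (3, 3)], [4], [(4, 1, [5, 6]), (7, 3, []), (9, 3, [])]⟩,
    ⟨[(2, 4), (3, 4)], [(4, 1), (4, 3)], [], [4, 8], [(9, 3, [])]⟩]
  Ta := [((0, 1), 0, 2), ((0, 4), 0, 1), ((3, 2), 0, 7), ((3, 5), 0, 5), ((7, 6), 3, 6), ((7, 8),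
    3, 4), ((9, 4), 3, 1), ((9, 10), 3, 8)]
  Tb := [((0, 1, 4), 0, 2, 1), ((1, 0, 2), 2, 0, 7), ((2, 1, 3), 7, 2, 0), ((3, 2, 5), 0, 7, 5),
    ((4, 0, 9), 1, 0, 3), ((5, 3, 6), 5, 0, 6), ((6, 5, 7), 6, 5, 3), ((7, 6, 8), 3, 6, 4),
    ((8, 7, 10), 4, 3, 8), ((9, 4, 10), 3, 1, 8), ((10, 8, 9), 8, 4, 3)]
  Tc := [(1, 5, 6)]
  Td := [((1, 5), (4, 0), 0), ((1, 5), (4, 9), 3), ((1, 6), (4, 0), 0), ((1, 6), (4, 9), 3), ((5,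
    1), (5, 3), 0), ((5, 1), (5, 6), 6), ((6, 1), (6, 5), 5), ((6, 1), (6, 7), 3)]
  G := [[0, 0x5c61681c653e18c4, 0x593d2856cd2864, 0xa93d2418, 0x593d2418], [0,
    0x93a1541632195c1ac4, 0x6352a82c6352a82cc2, 0x6352a82c18, 0x642a392c12], [0, 0, 0,
    0xa93d246c52a82cc1, 0xa93d24563d28a1], [0, 0, 0, 0xa23d24642a392cc442889,
    0x6352a82c642a392ca1]]

noncomputable def n380 : Ent := ⟨e380, noF, [], [], [(7, 16, [1580044410770988437309982408355971841652082177953823432505690656769, 0]), (8, 11, [1685382419726888372924274916838414562950751529256700283950315577345, 0]), (8, 16, [1580044410770988437309982408355971841652082177953823432505690664961, 0])]⟩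

def c380 : PLift (Cov.check n380.C.D v380 = true) := ⟨by decide +kernel⟩

def b380 : PLift (entF (fidx ts) 400 380 n380 = true) := ⟨by decide +kernel⟩

theorem g380 : GoodF (fidx ts) 400 380 := GoodF.ofV v380 n380 c380.down b380.down

/-- 457674:321/1 -/
noncomputable def e381 : SCfg where
  D := {
    a := 6
    L := 10
    kp := 7
    inn := [(0, 1), (0, 2), (1, 0), (1, 2), (2, 0), (2, 1), (2, 3), (2, 4), (3, 2), (3, 4), (4, 2), (4,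
      3), (4, 5), (5, 4)]
    mix := [(0, 0), (0, 1), (1, 1), (1, 2), (1, 3), (2, 0), (2, 3), (2, 4), (3, 2), (3, 3), (3, 5), (3,
      6), (4, 4), (4, 6), (4, 7), (4, 8), (5, 4), (5, 8), (5, 9)]
    cl := [1, 2, 3, 0, 0, 7, 0, 5, 4, 6]
    chq := [(1, 3), (3, 1), (5, 6), (6, 5)]
    rng := [(0, 1), (0, 4), (1, 0), (1, 2), (2, 1), (2, 3), (2, 5), (3, 2), (4, 0), (4, 9), (5, 2), (5,
      6), (6, 5), (6, 7), (7, 6), (7, 8), (8, 7), (8, 9), (9, 4), (9, 8)]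
    lev := [] }
  links := [[1, 2, 6, 7], [2, 0, 7, 8, 9], [6, 0, 1, 9, 3, 4, 10], [4, 2, 9, 8, 11, 12], [10, 2, 3, 12,
    13, 14, 5], [10, 4, 14, 15]]
  P := {
    a := 6
    N := 16
    nb := [198, 901, 1627, 6932, 29740, 50192, 1157, 323, 2698, 270, 32884, 4360, 10264, 20496, 41008,
      17440]
    tri := [(0, 1, 2), (0, 1, 7), (0, 2, 6), (0, 6, 7), (1, 2, 9), (1, 7, 8), (1, 8, 9), (2, 3, 4), (2,
      3, 9), (2, 4, 10), (2, 6, 10), (3, 4, 12), (3, 8, 9), (3, 8, 11), (3, 11, 12), (4, 5, 10),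
      (4, 5, 14), (4, 12, 13), (4, 13, 14), (5, 10, 15), (5, 14, 15)]
    fin := [0, 0, 2, 2, 4, 4, 0, 7, 8, 2, 2, 11, 2, 4, 14, 15]
    chd := [(0, 8), (4, 15)]
    steps := [(0, 1), (0, 6), (2, 3), (2, 9), (2, 12), (2, 10), (4, 5), (4, 13)] }
  rep := [2, 0, 7, 8, 14, 4, 15, 11]

noncomputable def v381 : Cov.CovD where
  P := 3
  N := 5
  pl := [1, 5, 8]
  lev := [⟨[], [], [], [2], [(0, 1, [3])]⟩,
    ⟨[], [(0, 0), (0, 1), (0, 3)], [(0, 3)], [2], [(2, 3, [1]), (3, 0, [])]⟩,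
    ⟨[(0, 1)], [(0, 0), (0, 1), (1, 0), (1, 1), (1, 3)], [(0, 0), (0, 1)], [], [(0, 1,
      [3]), (3, 0, []), (4, 0, [])]⟩,
    ⟨[(0, 2), (1, 2)], [(1, 0), (1, 3), (2, 0), (2, 1), (2, 3)], [(0, 0), (0, 3)], [7],
      [(2, 3, [1]), (3, 0, []), (6, 0, [])]⟩,
    ⟨[(0, 2), (1, 2), (2, 3)], [(2, 0), (2, 1), (2, 5), (3, 0), (3, 3), (3, 5)], [(0, 0),
      (0, 5)], [4], [(4, 0, []), (6, 0, []), (7, 5, [6])]⟩,
    ⟨[(2, 4), (3, 4)], [(2, 0), (4, 0), (4, 5), (4, 6)], [(0, 6)], [4], [(4, 0, []), (9, 6,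
      [5])]⟩]
  Ta := [((3, 2), 0, 3), ((4, 0), 0, 1), ((4, 9), 0, 6), ((6, 5), 0, 7), ((6, 7), 0, 5)]
  Tb := [((0, 1, 4), 1, 2, 0), ((1, 0, 2), 2, 1, 3), ((2, 1, 3), 3, 2, 0), ((2, 1, 5), 3, 2, 7),
    ((2, 3, 5), 3, 0, 7), ((4, 0, 9), 0, 1, 6), ((5, 2, 6), 7, 3, 0), ((6, 5, 7), 0, 7, 5),
    ((7, 6, 8), 5, 0, 4), ((8, 7, 9), 4, 5, 6), ((9, 4, 8), 6, 0, 4)]
  Tc := []
  Td := [((1, 3), (0, 1), 2), ((1, 3), (0, 4), 0), ((3, 1), (2, 1), 2), ((3, 1), (2, 3), 0), ((3,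
    1), (2, 5), 7), ((5, 6), (7, 6), 0), ((5, 6), (7, 8), 4), ((6, 5), (9, 4), 0), ((6, 5),
    (9, 8), 4)]
  G := [[0, 0, 0x9164319e58619eec28, 0x1a5e31cea4319e619e68c1, 0x14431ce39a31ceec21], [0,
    0xc226ace6ace6ace618, 0xa446ace6ca6aceec28, 0xa446ace6ca6aceec18, 0xa446ace6ca6aceec18],
    [0, 0, 0x1c6135e135ee688c24, 0x144135e3ca591eec18, 0xa44591e61a319eec18]]

noncomputable def n381 : Ent := ⟨e381, noF, [], [], []⟩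

def c381 : PLift (Cov.check n381.C.D v381 = true) := ⟨by decide +kernel⟩

def b381 : PLift (entF (fidx ts) 400 381 n381 = true) := ⟨by decide +kernel⟩

theorem g381 : GoodF (fidx ts) 400 381 := GoodF.ofV v381 n381 c381.down b381.down

/-- 457674:321 -/
noncomputable def e382 : SCfg where
  D := {
    a := 6
    L := 11
    kp := 8
    inn := [(0, 1), (0, 2), (1, 0), (1, 2), (2, 0), (2, 1), (2, 3), (2, 4), (3, 2), (3, 4), (4, 2), (4,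
      3), (4, 5), (5, 4)]
    mix := [(0, 0), (0, 1), (1, 1), (1, 2), (1, 3), (2, 0), (2, 3), (2, 4), (3, 3), (3, 5), (3, 6), (3,
      7), (4, 4), (4, 7), (4, 8), (4, 9), (5, 4), (5, 9), (5, 10)]
    cl := [1, 2, 4, 0, 0, 7, 8, 0, 5, 3, 6]
    chq := [(1, 4), (4, 1), (5, 6), (6, 5)]
    rng := [(0, 1), (0, 4), (1, 0), (1, 2), (2, 1), (2, 3), (3, 2), (3, 5), (4, 0), (4, 10), (5, 3),
      (5, 6), (6, 5), (6, 7), (7, 6), (7, 8), (8, 7), (8, 9), (9, 8), (9, 10), (10, 4), (10, 9)]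
    lev := [] }
  links := [[1, 2, 6, 7], [2, 0, 7, 8, 9], [6, 0, 1, 9, 3, 4, 10], [4, 2, 9, 11, 12, 13], [10, 2, 3, 13,
    14, 15, 5], [10, 4, 15, 16]]
  P := {
    a := 6
    N := 17
    nb := [198, 901, 1627, 14868, 58412, 99344, 1157, 323, 642, 2318, 65652, 4616, 10248, 20504,
      40976, 81968, 33824]
    tri := [(0, 1, 2), (0, 1, 7), (0, 2, 6), (0, 6, 7), (1, 2, 9), (1, 7, 8), (1, 8, 9), (2, 3, 4), (2,
      3, 9), (2, 4, 10), (2, 6, 10), (3, 4, 13), (3, 9, 11), (3, 11, 12), (3, 12, 13), (4, 5, 10),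
      (4, 5, 15), (4, 13, 14), (4, 14, 15), (5, 10, 16), (5, 15, 16)]
    fin := [0, 0, 2, 2, 4, 4, 0, 7, 8, 2, 2, 11, 12, 2, 4, 15, 16]
    chd := [(0, 8), (4, 16)]
    steps := [(0, 1), (0, 6), (2, 3), (2, 9), (2, 13), (2, 10), (4, 5), (4, 14)] }
  rep := [2, 0, 7, 15, 8, 4, 16, 11, 12]

noncomputable def v382 : Cov.CovD where
  P := 3
  N := 6
  pl := [1, 5, 6, 9]
  lev := [⟨[], [], [], [2], [(0, 1, [4])]⟩,
    ⟨[], [(0, 0), (0, 1), (0, 4)], [(0, 4)], [2], [(2, 4, [1]), (3, 0, [])]⟩,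
    ⟨[(0, 1)], [(0, 0), (0, 1), (1, 0), (1, 1), (1, 4)], [(0, 0), (0, 1)], [], [(0, 1,
      [4]), (3, 0, []), (4, 0, [])]⟩,
    ⟨[(0, 2), (1, 2)], [(1, 0), (2, 0), (2, 1)], [(0, 0)], [7, 8], [(3, 0, []), (7, 0,
      [])]⟩,
    ⟨[(0, 2), (1, 2), (2, 3)], [(2, 0), (2, 1), (2, 5), (3, 0), (3, 5)], [(0, 0), (0, 5)],
      [3], [(4, 0, []), (7, 0, []), (8, 5, [6])]⟩,
    ⟨[(2, 4), (3, 4)], [(2, 0), (4, 0), (4, 5), (4, 6)], [(0, 6)], [3], [(4, 0, []), (10,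
      6, [5])]⟩]
  Ta := [((3, 2), 0, 4), ((3, 5), 0, 7), ((4, 0), 0, 1), ((4, 10), 0, 6), ((7, 6), 0, 8), ((7,
    8), 0, 5)]
  Tb := [((0, 1, 4), 1, 2, 0), ((1, 0, 2), 2, 1, 4), ((2, 1, 3), 4, 2, 0), ((3, 2, 5), 0, 4, 7),
    ((4, 0, 10), 0, 1, 6), ((5, 3, 6), 7, 0, 8), ((6, 5, 7), 8, 7, 0), ((7, 6, 8), 0, 8, 5),
    ((8, 7, 9), 5, 0, 3), ((9, 8, 10), 3, 5, 6), ((10, 4, 9), 6, 0, 3)]
  Tc := []
  Td := [((1, 4), (0, 1), 2), ((1, 4), (0, 4), 0), ((4, 1), (2, 1), 2), ((4, 1), (2, 3), 0), ((5,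
    6), (8, 7), 0), ((5, 6), (8, 9), 3), ((6, 5), (10, 4), 0), ((6, 5), (10, 9), 3)]
  G := [[0, 0, 0x3c6135e135ee188c24, 0x944619e51a1a5eeca4319e34e61a1caacc1,
    0xa56591ec18591eac21], [0, 0x6ace6ca6aceea44618, 0xac66ace6acee688c24,
    0xac66ace6acee688c14, 0xac66ace6acee688c21], [0, 0, 0x3445a1e15a691eec28,
    0xa4461ce15a691eec18, 0x356591e619ee188c21]]

noncomputable def n382 : Ent := ⟨e382, noF, [], [], [(8, 11, [1685382419726888372924274916838414562950751529256700283950315589633, 0])]⟩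

def c382 : PLift (Cov.check n382.C.D v382 = true) := ⟨by decide +kernel⟩

def b382 : PLift (entF (fidx ts) 400 382 n382 = true) := ⟨by decide +kernel⟩

theorem g382 : GoodF (fidx ts) 400 382 := GoodF.ofV v382 n382 c382.down b382.down

/-- 457664:322 -/
noncomputable def e383 : SCfg where
  D := {
    a := 6
    L := 10
    kp := 7
    inn := [(0, 1), (0, 2), (0, 4), (1, 0), (1, 2), (2, 0), (2, 1), (2, 3), (2, 4), (3, 2), (3, 5), (4,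
      0), (4, 2), (5, 3)]
    mix := [(0, 0), (1, 0), (1, 1), (1, 2), (2, 2), (2, 3), (2, 4), (3, 2), (3, 3), (3, 5), (3, 6), (4,
      0), (4, 4), (4, 7), (4, 8), (5, 3), (5, 6), (5, 9)]
    cl := [1, 2, 0, 0, 1, 4, 3, 5, 6, 7]
    chq := [(0, 3), (3, 0)]
    rng := [(0, 1), (0, 8), (1, 0), (1, 2), (2, 1), (2, 5), (3, 4), (3, 9), (4, 3), (4, 7), (5, 2), (5,
      6), (6, 5), (6, 9), (7, 4), (7, 8), (8, 0), (8, 7), (9, 3), (9, 6)]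
    lev := [] }
  links := [[1, 2, 4, 6], [2, 0, 6, 7, 8], [4, 0, 1, 8, 3, 9, 10], [9, 2, 8, 11, 12, 5], [6, 0, 2, 10,
    13, 14], [9, 3, 12, 15]]
  P := {
    a := 6
    N := 16
    nb := [86, 453, 1819, 6948, 25669, 37384, 16531, 322, 2190, 33836, 8724, 4360, 34856, 17424, 8272,
      4640]
    tri := [(0, 1, 2), (0, 1, 6), (0, 2, 4), (0, 4, 6), (1, 2, 8), (1, 6, 7), (1, 7, 8), (2, 3, 8), (2,
      3, 9), (2, 4, 10), (2, 9, 10), (3, 5, 9), (3, 5, 12), (3, 8, 11), (3, 11, 12), (4, 6, 14),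
      (4, 10, 13), (4, 13, 14), (5, 9, 15), (5, 12, 15)]
    fin := [0, 0, 0, 3, 0, 3, 0, 7, 3, 3, 0, 11, 12, 13, 14, 15]
    chd := [(3, 12)]
    steps := [(0, 1), (0, 2), (0, 4), (0, 6), (0, 10), (3, 5), (3, 8), (3, 9)] }
  rep := [3, 0, 7, 12, 11, 13, 14, 15]

noncomputable def v383 : Cov.CovD where
  P := 3
  N := 5
  pl := [1, 5, 7, 8, 9]
  lev := [⟨[], [], [], [], [(0, 1, [])]⟩,
    ⟨[], [(0, 0), (0, 1)], [(0, 1)], [2], [(0, 1, []), (2, 0, [3])]⟩,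
    ⟨[(0, 1)], [(0, 0), (0, 1), (1, 0), (1, 1)], [(0, 0), (0, 1)], [], [(2, 0, [3]), (3, 0,
      [3]), (4, 1, [])]⟩,
    ⟨[(0, 2), (1, 2)], [(1, 0), (2, 0), (2, 1), (2, 3)], [(0, 0), (0, 3)], [4], [(2, 0,
      [3]), (3, 0, [3]), (6, 3, [0])]⟩,
    ⟨[(0, 1), (0, 2), (1, 2), (2, 3)], [(0, 1), (1, 1), (2, 0), (2, 1)], [(1, 1)], [5, 6],
      [(0, 1, []), (4, 1, [])]⟩,
    ⟨[(2, 3)], [(2, 0), (3, 0), (3, 3)], [(0, 3)], [7], [(3, 0, [3]), (6, 3, [0])]⟩]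
  Ta := [((0, 1), 1, 2), ((0, 8), 1, 6), ((2, 1), 0, 2), ((2, 5), 0, 4), ((3, 4), 0, 1), ((3, 9),
    0, 7), ((4, 3), 1, 0), ((4, 7), 1, 5)]
  Tb := [((0, 1, 8), 1, 2, 6), ((1, 0, 2), 2, 1, 0), ((2, 1, 5), 0, 2, 4), ((3, 4, 9), 0, 1, 7),
    ((4, 3, 7), 1, 0, 5), ((5, 2, 6), 4, 0, 3), ((6, 5, 9), 3, 4, 7), ((7, 4, 8), 5, 1, 6),
    ((8, 0, 7), 6, 1, 5), ((9, 3, 6), 7, 0, 3)]
  Tc := []
  Td := [((0, 3), (2, 1), 2), ((0, 3), (2, 5), 4), ((0, 3), (3, 4), 1), ((0, 3), (3, 9), 7), ((3,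
    0), (6, 5), 4), ((3, 0), (6, 9), 7)]
  G := [[0, 0, 0x14111d111de1198a41, 0x1b52182ed1db7edce48, 0x5152182e9ede3bdce84], [0, 0,
    0x115111d111de188c24, 0, 0x175971d37bde588c21], [0, 0, 0, 0xeeed2eeedeeedc618,
    0xeeedeeedaeeed4681], [0, 0xe24e2eeeeaeeceecce82, 0, 0, 0xeeed4eeedeeedac12]]

noncomputable def n383 : Ent := ⟨e383, noF, [], [], []⟩

def c383 : PLift (Cov.check n383.C.D v383 = true) := ⟨by decide +kernel⟩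

def b383 : PLift (entF (fidx ts) 400 383 n383 = true) := ⟨by decide +kernel⟩

theorem g383 : GoodF (fidx ts) 400 383 := GoodF.ofV v383 n383 c383.down b383.down

/-- 457754:329/1 -/
noncomputable def e384 : SCfg where
  D := {
    a := 6
    L := 10
    kp := 7
    inn := [(0, 1), (0, 2), (1, 0), (1, 2), (2, 0), (2, 1), (2, 3), (3, 2), (3, 4), (3, 5), (4, 3), (5,
      3)]
    mix := [(0, 0), (0, 1), (1, 1), (1, 2), (1, 3), (2, 0), (2, 3), (2, 4), (2, 5), (3, 3), (3, 4), (3,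
      6), (3, 7), (4, 3), (4, 6), (4, 8), (4, 9), (5, 1), (5, 6), (5, 7)]
    cl := [2, 1, 4, 0, 0, 5, 0, 3, 6, 7]
    chq := [(0, 2), (2, 0), (2, 4), (4, 2)]
    rng := [(0, 1), (0, 5), (1, 0), (1, 2), (1, 6), (1, 7), (2, 1), (2, 3), (3, 2), (3, 8), (4, 5), (4,
      7), (5, 0), (5, 4), (6, 1), (6, 9), (7, 1), (7, 4), (8, 3), (8, 9), (9, 6), (9, 8)]
    lev := [] }
  links := [[1, 2, 6, 7], [2, 0, 7, 8, 9], [6, 0, 1, 9, 3, 10, 11], [10, 2, 9, 4, 12, 5, 13], [12, 3, 9,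
    14, 15], [13, 3, 12, 7]]
  P := {
    a := 6
    N := 16
    nb := [198, 901, 3659, 13876, 53768, 12424, 2181, 12643, 642, 16670, 10252, 1092, 32952, 1192,
      33296, 20496]
    tri := [(0, 1, 2), (0, 1, 7), (0, 2, 6), (0, 6, 7), (1, 2, 9), (1, 7, 8), (1, 8, 9), (2, 3, 9), (2,
      3, 10), (2, 6, 11), (2, 10, 11), (3, 4, 9), (3, 4, 12), (3, 5, 12), (3, 5, 13), (3, 10, 13),
      (4, 9, 14), (4, 12, 15), (4, 14, 15), (5, 7, 12), (5, 7, 13)]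
    fin := [0, 0, 2, 3, 2, 3, 0, 3, 8, 2, 2, 11, 2, 13, 14, 15]
    chd := [(0, 2), (0, 8)]
    steps := [(0, 1), (0, 6), (2, 9), (2, 4), (2, 12), (2, 10), (3, 5), (3, 7)] }
  rep := [2, 3, 0, 13, 8, 11, 14, 15]

noncomputable def v384 : Cov.CovD where
  P := 3
  N := 5
  pl := [1, 5, 7, 8, 9]
  lev := [⟨[], [], [], [1], [(0, 2, [0, 4])]⟩,
    ⟨[], [(0, 0), (0, 2), (0, 4)], [(0, 4)], [1], [(2, 4, [2]), (3, 0, [2])]⟩,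
    ⟨[(0, 1)], [(0, 0), (0, 2), (1, 0), (1, 2), (1, 4)], [(0, 0), (0, 2)], [5], [(0, 2, [0,
      4]), (3, 0, [2]), (4, 0, [2])]⟩,
    ⟨[(0, 2), (1, 2)], [(1, 0), (2, 0), (2, 2)], [(0, 0)], [3], [(3, 0, [2]), (4, 0, [2]),
      (6, 0, [2])]⟩,
    ⟨[(2, 3)], [(1, 0), (2, 0), (3, 0)], [(0, 0)], [6, 7], [(3, 0, [2]), (6, 0, [2])]⟩,
    ⟨[(2, 3), (3, 4)], [(3, 0), (4, 0)], [], [1, 3], [(6, 0, [2])]⟩]
  Ta := [((3, 2), 0, 4), ((3, 8), 0, 6), ((4, 5), 0, 5), ((4, 7), 0, 3), ((6, 1), 0, 1), ((6, 9),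
    0, 7)]
  Tb := [((0, 1, 5), 2, 1, 5), ((1, 0, 2), 1, 2, 4), ((1, 0, 6), 1, 2, 0), ((1, 0, 7), 1, 2, 3),
    ((1, 2, 6), 1, 4, 0), ((1, 2, 7), 1, 4, 3), ((1, 6, 7), 1, 0, 3), ((2, 1, 3), 4, 1, 0),
    ((3, 2, 8), 0, 4, 6), ((4, 5, 7), 0, 5, 3), ((5, 0, 4), 5, 2, 0), ((6, 1, 9), 0, 1, 7),
    ((7, 1, 4), 3, 1, 0), ((8, 3, 9), 6, 0, 7), ((9, 6, 8), 7, 0, 6)]
  Tc := [(2, 0, 4)]
  Td := [((0, 2), (3, 2), 4), ((0, 2), (3, 8), 6), ((0, 2), (4, 5), 5), ((0, 2), (4, 7), 3), ((0,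
    2), (6, 1), 1), ((0, 2), (6, 9), 7), ((2, 0), (0, 1), 1), ((2, 0), (0, 5), 5), ((2, 4),
    (0, 1), 1), ((2, 4), (0, 5), 5), ((4, 2), (2, 1), 1), ((4, 2), (2, 3), 0)]
  G := [[0, 0, 0x481166188e8116186e18, 0x111e2111e2c111e2111e2cc1, 0x118e111e6181e114eca41], [0,
    0, 0x181166111e8146186e18, 0x595e299ce2c14, 0x484e811e6181e414eca48], [0,
    0x484e228e6488e224eac24, 0x1411a611a146118e8e18, 0xccce2ccce2c14,
    0x484e8c8e688644a84cea41]]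

noncomputable def n384 : Ent := ⟨e384, noF, [], [], []⟩

def c384 : PLift (Cov.check n384.C.D v384 = true) := ⟨by decide +kernel⟩

def b384 : PLift (entF (fidx ts) 400 384 n384 = true) := ⟨by decide +kernel⟩

theorem g384 : GoodF (fidx ts) 400 384 := GoodF.ofV v384 n384 c384.down b384.down

/-- 457754:329/2 -/
noncomputable def e385 : SCfg where
  D := {
    a := 6
    L := 10
    kp := 7
    inn := [(0, 1), (0, 2), (1, 0), (1, 2), (2, 0), (2, 1), (2, 3), (3, 2), (3, 4), (3, 5), (4, 3), (5,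
      3)]
    mix := [(0, 0), (0, 1), (1, 1), (1, 2), (1, 3), (2, 0), (2, 3), (2, 4), (2, 5), (3, 3), (3, 4), (3,
      6), (3, 7), (4, 2), (4, 3), (4, 6), (4, 8), (5, 6), (5, 7), (5, 9)]
    cl := [3, 2, 1, 0, 0, 5, 0, 4, 6, 7]
    chq := [(0, 3), (1, 3), (3, 0), (3, 1)]
    rng := [(0, 1), (0, 5), (1, 0), (1, 2), (2, 1), (2, 3), (2, 8), (3, 2), (4, 5), (4, 7), (5, 0), (5,
      4), (6, 8), (6, 9), (7, 4), (7, 9), (8, 2), (8, 6), (9, 6), (9, 7)]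
    lev := [] }
  links := [[1, 2, 6, 7], [2, 0, 7, 8, 9], [6, 0, 1, 9, 3, 10, 11], [10, 2, 9, 4, 12, 5, 13], [12, 3, 9,
    8, 14], [13, 3, 12, 15]]
  P := {
    a := 6
    N := 16
    nb := [198, 901, 3659, 13876, 21256, 45064, 2181, 323, 17042, 286, 10252, 1092, 49208, 33832,
      4368, 12320]
    tri := [(0, 1, 2), (0, 1, 7), (0, 2, 6), (0, 6, 7), (1, 2, 9), (1, 7, 8), (1, 8, 9), (2, 3, 9), (2,
      3, 10), (2, 6, 11), (2, 10, 11), (3, 4, 9), (3, 4, 12), (3, 5, 12), (3, 5, 13), (3, 10, 13),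
      (4, 8, 9), (4, 8, 14), (4, 12, 14), (5, 12, 15), (5, 13, 15)]
    fin := [0, 0, 0, 3, 4, 3, 0, 7, 4, 3, 3, 11, 3, 13, 14, 15]
    chd := [(0, 3), (0, 4)]
    steps := [(0, 1), (0, 2), (0, 6), (3, 5), (3, 9), (3, 12), (3, 10), (4, 8)] }
  rep := [3, 4, 7, 0, 13, 11, 14, 15]

noncomputable def v385 : Cov.CovD where
  P := 3
  N := 5
  pl := [1, 5, 7, 8, 9]
  lev := [⟨[], [], [], [2], [(0, 3, [0, 1])]⟩,
    ⟨[], [(0, 0), (0, 1), (0, 3)], [(0, 1)], [2], [(2, 1, [3]), (3, 0, [3])]⟩,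
    ⟨[(0, 1)], [(0, 0), (0, 3), (1, 0), (1, 1), (1, 3)], [(0, 0), (0, 3)], [5], [(0, 3, [0,
      1]), (3, 0, [3]), (4, 0, [3])]⟩,
    ⟨[(0, 2), (1, 2)], [(1, 0), (2, 0), (2, 3)], [(0, 0)], [4], [(3, 0, [3]), (4, 0, [3]),
      (6, 0, [3])]⟩,
    ⟨[(2, 3)], [(1, 0), (1, 1), (2, 0), (3, 0), (3, 1)], [(0, 0), (0, 1)], [6], [(2, 1,
      [3]), (3, 0, [3]), (6, 0, [3])]⟩,
    ⟨[(2, 3), (3, 4)], [(3, 0), (4, 0)], [], [4, 7], [(6, 0, [3])]⟩]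
  Ta := [((3, 2), 0, 1), ((4, 5), 0, 5), ((4, 7), 0, 4), ((6, 8), 0, 6), ((6, 9), 0, 7)]
  Tb := [((0, 1, 5), 3, 2, 5), ((1, 0, 2), 2, 3, 1), ((2, 1, 3), 1, 2, 0), ((2, 1, 8), 1, 2, 6),
    ((2, 3, 8), 1, 0, 6), ((4, 5, 7), 0, 5, 4), ((5, 0, 4), 5, 3, 0), ((6, 8, 9), 0, 6, 7),
    ((7, 4, 9), 4, 0, 7), ((8, 2, 6), 6, 1, 0), ((9, 6, 7), 7, 0, 4)]
  Tc := [(3, 0, 1)]
  Td := [((0, 3), (3, 2), 1), ((0, 3), (4, 5), 5), ((0, 3), (4, 7), 4), ((0, 3), (6, 8), 6), ((0,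
    3), (6, 9), 7), ((1, 3), (2, 1), 2), ((1, 3), (2, 3), 0), ((1, 3), (2, 8), 6), ((3, 0),
    (0, 1), 2), ((3, 0), (0, 5), 5), ((3, 1), (0, 1), 2), ((3, 1), (0, 5), 5)]
  G := [[0, 0x11611c6181214e11611c6e81, 0x11c11c611c11ca11c11cce42, 0x11c11c611c11ca11c11c6e41,
    0x11c11c611c11ca11c11cce81], [0, 0, 0x51c9ac651c96ca15c69cce42,
    0x54c819ce71c16ca15c69cce41, 0x51c9ac65cc3814e5ac31cce81], [0, 0,
    0x84c22484c228884444c8caece4cce6ca2ece2ccece, 0x884444c8caece4cce6ca2ece2c84ceec1,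
    0x44881c8caec64cc88e6ce2ece2c84cee83]]

noncomputable def n385 : Ent := ⟨e385, noF, [], [], []⟩

def c385 : PLift (Cov.check n385.C.D v385 = true) := ⟨by decide +kernel⟩

def b385 : PLift (entF (fidx ts) 400 385 n385 = true) := ⟨by decide +kernel⟩

theorem g385 : GoodF (fidx ts) 400 385 := GoodF.ofV v385 n385 c385.down b385.down

/-- 457754:329 -/
noncomputable def e386 : SCfg where
  D := {
    a := 6
    L := 11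
    kp := 8
    inn := [(0, 1), (0, 2), (1, 0), (1, 2), (2, 0), (2, 1), (2, 3), (3, 2), (3, 4), (3, 5), (4, 3), (5,
      3)]
    mix := [(0, 0), (0, 1), (1, 1), (1, 2), (1, 3), (2, 0), (2, 3), (2, 4), (2, 5), (3, 3), (3, 4), (3,
      6), (3, 7), (4, 3), (4, 6), (4, 8), (4, 9), (5, 6), (5, 7), (5, 10)]
    cl := [1, 2, 4, 0, 0, 5, 0, 3, 6, 7, 8]
    chq := [(0, 1), (1, 0), (1, 4), (4, 1)]
    rng := [(0, 1), (0, 5), (1, 0), (1, 2), (2, 1), (2, 3), (3, 2), (3, 8), (4, 5), (4, 7), (5, 0), (5,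
      4), (6, 9), (6, 10), (7, 4), (7, 10), (8, 3), (8, 9), (9, 6), (9, 8), (10, 6), (10, 7)]
    lev := [] }
  links := [[1, 2, 6, 7], [2, 0, 7, 8, 9], [6, 0, 1, 9, 3, 10, 11], [10, 2, 9, 4, 12, 5, 13], [12, 3, 9,
    14, 15], [13, 3, 12, 16]]
  P := {
    a := 6
    N := 17
    nb := [198, 901, 3659, 13876, 53768, 77832, 2181, 323, 642, 16670, 10252, 1092, 98360, 66600,
      33296, 20496, 12320]
    tri := [(0, 1, 2), (0, 1, 7), (0, 2, 6), (0, 6, 7), (1, 2, 9), (1, 7, 8), (1, 8, 9), (2, 3, 9), (2,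
      3, 10), (2, 6, 11), (2, 10, 11), (3, 4, 9), (3, 4, 12), (3, 5, 12), (3, 5, 13), (3, 10, 13),
      (4, 9, 14), (4, 12, 15), (4, 14, 15), (5, 12, 16), (5, 13, 16)]
    fin := [0, 0, 0, 3, 3, 3, 0, 7, 8, 3, 3, 11, 3, 13, 14, 15, 16]
    chd := [(0, 3), (0, 8)]
    steps := [(0, 1), (0, 2), (0, 6), (3, 4), (3, 5), (3, 9), (3, 12), (3, 10)] }
  rep := [3, 0, 7, 13, 8, 11, 14, 15, 16]

noncomputable def v386 : Cov.CovD where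
  P := 3
  N := 6
  pl := [1, 5, 7, 8, 9, 10]
  lev := [⟨[], [], [], [2], [(0, 1, [0, 4])]⟩,
    ⟨[], [(0, 0), (0, 1), (0, 4)], [(0, 4)], [2], [(2, 4, [1]), (3, 0, [1])]⟩,
    ⟨[(0, 1)], [(0, 0), (0, 1), (1, 0), (1, 1), (1, 4)], [(0, 0), (0, 1)], [5], [(0, 1, [0,
      4]), (3, 0, [1]), (4, 0, [1])]⟩,
    ⟨[(0, 2), (1, 2)], [(1, 0), (2, 0), (2, 1)], [(0, 0)], [3], [(3, 0, [1]), (4, 0, [1]),
      (6, 0, [1])]⟩,
    ⟨[(2, 3)], [(1, 0), (2, 0), (3, 0)], [(0, 0)], [6, 7], [(3, 0, [1]), (6, 0, [1])]⟩,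
    ⟨[(2, 3), (3, 4)], [(3, 0), (4, 0)], [], [3, 8], [(6, 0, [1])]⟩]
  Ta := [((3, 2), 0, 4), ((3, 8), 0, 6), ((4, 5), 0, 5), ((4, 7), 0, 3), ((6, 9), 0, 7), ((6,
    10), 0, 8)]
  Tb := [((0, 1, 5), 1, 2, 5), ((1, 0, 2), 2, 1, 4), ((2, 1, 3), 4, 2, 0), ((3, 2, 8), 0, 4, 6),
    ((4, 5, 7), 0, 5, 3), ((5, 0, 4), 5, 1, 0), ((6, 9, 10), 0, 7, 8), ((7, 4, 10), 3, 0, 8),
    ((8, 3, 9), 6, 0, 7), ((9, 6, 8), 7, 0, 6), ((10, 6, 7), 8, 0, 3)]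
  Tc := [(1, 0, 4)]
  Td := [((0, 1), (3, 2), 4), ((0, 1), (3, 8), 6), ((0, 1), (4, 5), 5), ((0, 1), (4, 7), 3), ((0,
    1), (6, 9), 7), ((0, 1), (6, 10), 8), ((1, 0), (0, 1), 2), ((1, 0), (0, 5), 5), ((1, 4),
    (0, 1), 2), ((1, 4), (0, 5), 5), ((4, 1), (2, 1), 2), ((4, 1), (2, 3), 0)]
  G := [[0, 0x111e2111e8111e4e14, 0x111e111e6111e111eac24,
    0x111e111e6111e111eac4111e111e6111e111eac8c, 0x111e111e6111e111eac28], [0,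
    0x111e2111e8111e4e14, 0xcbce111e61c1e61deac28, 0xc19e1a5e615ceb31eac14,
    0xc1ce1a1e61c9e615eac21], [0, 0x111e2111e8111e4e18, 0x82a442426c8eeae8ee4ceee64eac2c,
    0x82a441426c8eeae8ee4ceee64eac1c, 0x426c8eeae8ee4cee82ae64eec21]]

noncomputable def n386 : Ent := ⟨e386, noF, [], [], [(7, 16, [1580044410770988437309982408355971841652082177953823432505690685441, 0]), (8, 14, [1685382413448253767852309107433119732572617628602273068445366489089, 0])]⟩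

def c386 : PLift (Cov.check n386.C.D v386 = true) := ⟨by decide +kernel⟩

def b386 : PLift (entF (fidx ts) 400 386 n386 = true) := ⟨by decide +kernel⟩

theorem g386 : GoodF (fidx ts) 400 386 := GoodF.ofV v386 n386 c386.down b386.down

/-- 457754:330/1 -/
noncomputable def e387 : SCfg where
  D := {
    a := 6
    L := 10
    kp := 7
    inn := [(0, 1), (0, 2), (1, 0), (1, 2), (2, 0), (2, 1), (2, 3), (3, 2), (3, 4), (3, 5), (4, 3), (5,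
      3)]
    mix := [(0, 0), (0, 1), (1, 1), (1, 2), (1, 3), (2, 0), (2, 3), (2, 4), (2, 5), (3, 3), (3, 4), (3,
      6), (3, 7), (4, 2), (4, 3), (4, 6), (4, 8), (5, 4), (5, 7), (5, 9)]
    cl := [3, 4, 1, 0, 0, 5, 0, 2, 6, 7]
    chq := [(0, 3), (1, 3), (3, 0), (3, 1)]
    rng := [(0, 1), (0, 5), (1, 0), (1, 2), (2, 1), (2, 3), (2, 8), (3, 2), (4, 5), (4, 9), (5, 0), (5,
      4), (6, 7), (6, 8), (7, 6), (7, 9), (8, 2), (8, 6), (9, 4), (9, 7)]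
    lev := [] }
  links := [[1, 2, 6, 7], [2, 0, 7, 8, 9], [6, 0, 1, 9, 3, 10, 11], [10, 2, 9, 4, 12, 13, 5], [12, 3, 9,
    8, 14], [10, 3, 13, 15]]
  P := {
    a := 6
    N := 16
    nb := [198, 901, 3659, 13876, 21256, 41992, 2181, 323, 17042, 286, 34860, 1092, 24600, 36904,
      4368, 9248]
    tri := [(0, 1, 2), (0, 1, 7), (0, 2, 6), (0, 6, 7), (1, 2, 9), (1, 7, 8), (1, 8, 9), (2, 3, 9), (2,
      3, 10), (2, 6, 11), (2, 10, 11), (3, 4, 9), (3, 4, 12), (3, 5, 10), (3, 5, 13), (3, 12, 13),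
      (4, 8, 9), (4, 8, 14), (4, 12, 14), (5, 10, 15), (5, 13, 15)]
    fin := [0, 0, 0, 3, 4, 3, 0, 7, 4, 3, 3, 11, 3, 13, 14, 15]
    chd := [(0, 3), (0, 4)]
    steps := [(0, 1), (0, 2), (0, 6), (3, 5), (3, 9), (3, 12), (3, 10), (4, 8)] }
  rep := [3, 4, 13, 0, 7, 11, 14, 15]

noncomputable def v387 : Cov.CovD where
  P := 3
  N := 5
  pl := [1, 5, 7, 8, 9]
  lev := [⟨[], [], [], [4], [(0, 3, [0, 1])]⟩,
    ⟨[], [(0, 0), (0, 1), (0, 3)], [(0, 1)], [4], [(2, 1, [3]), (3, 0, [3])]⟩,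
    ⟨[(0, 1)], [(0, 0), (0, 3), (1, 0), (1, 1), (1, 3)], [(0, 0), (0, 3)], [5], [(0, 3, [0,
      1]), (3, 0, [3]), (4, 0, [3])]⟩,
    ⟨[(0, 2), (1, 2)], [(1, 0), (2, 0), (2, 3)], [(0, 0)], [2], [(3, 0, [3]), (4, 0, [3]),
      (6, 0, [3])]⟩,
    ⟨[(2, 3)], [(1, 0), (1, 1), (2, 0), (3, 0), (3, 1)], [(0, 0), (0, 1)], [6], [(2, 1,
      [3]), (3, 0, [3]), (6, 0, [3])]⟩,
    ⟨[(2, 3), (3, 4)], [(2, 0), (3, 0)], [], [2, 7], [(4, 0, [3])]⟩]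
  Ta := [((3, 2), 0, 1), ((4, 5), 0, 5), ((4, 9), 0, 7), ((6, 7), 0, 2), ((6, 8), 0, 6)]
  Tb := [((0, 1, 5), 3, 4, 5), ((1, 0, 2), 4, 3, 1), ((2, 1, 3), 1, 4, 0), ((2, 1, 8), 1, 4, 6),
    ((2, 3, 8), 1, 0, 6), ((4, 5, 9), 0, 5, 7), ((5, 0, 4), 5, 3, 0), ((6, 7, 8), 0, 2, 6),
    ((7, 6, 9), 2, 0, 7), ((8, 2, 6), 6, 1, 0), ((9, 4, 7), 7, 0, 2)]
  Tc := [(3, 0, 1)]
  Td := [((0, 3), (3, 2), 1), ((0, 3), (4, 5), 5), ((0, 3), (4, 9), 7), ((0, 3), (6, 7), 2), ((0,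
    3), (6, 8), 6), ((1, 3), (2, 1), 4), ((1, 3), (2, 3), 0), ((1, 3), (2, 8), 6), ((3, 0),
    (0, 1), 4), ((3, 0), (0, 5), 5), ((3, 1), (0, 1), 4), ((3, 1), (0, 5), 5)]
  G := [[0, 0x116411a81168e116811a811c4e61, 0, 0x11c411c811c8e811c411c811c4e43,
    0x11c211c811c8e811c211c811c8e43], [0, 0, 0,
    0xc8c44cc88c4cc88ce4488448884cd884444c8cc4cc84cc88cec3,
    0x8822488228aac2a4a8a2ac8e88822aac2aac22ac88aecf], [0, 0,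
    0x6ac26ac266c8e4cac466c86ac8e83, 0x11c4811c811c86c11c811c461418c8c3,
    0x11c211c211c8e411c211c211c8e83]]

noncomputable def n387 : Ent := ⟨e387, noF, [], [], []⟩

def c387 : PLift (Cov.check n387.C.D v387 = true) := ⟨by decide +kernel⟩

def b387 : PLift (entF (fidx ts) 400 387 n387 = true) := ⟨by decide +kernel⟩

theorem g387 : GoodF (fidx ts) 400 387 := GoodF.ofV v387 n387 c387.down b387.down

/-- 457754:330 -/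
noncomputable def e388 : SCfg where
  D := {
    a := 6
    L := 11
    kp := 8
    inn := [(0, 1), (0, 2), (1, 0), (1, 2), (2, 0), (2, 1), (2, 3), (3, 2), (3, 4), (3, 5), (4, 3), (5,
      3)]
    mix := [(0, 0), (0, 1), (1, 1), (1, 2), (1, 3), (2, 0), (2, 3), (2, 4), (2, 5), (3, 3), (3, 4), (3,
      6), (3, 7), (4, 3), (4, 6), (4, 8), (4, 9), (5, 4), (5, 7), (5, 10)]
    cl := [1, 2, 4, 0, 0, 5, 0, 3, 6, 7, 8]
    chq := [(0, 1), (1, 0), (1, 4), (4, 1)]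
    rng := [(0, 1), (0, 5), (1, 0), (1, 2), (2, 1), (2, 3), (3, 2), (3, 8), (4, 5), (4, 10), (5, 0),
      (5, 4), (6, 7), (6, 9), (7, 6), (7, 10), (8, 3), (8, 9), (9, 6), (9, 8), (10, 4), (10, 7)]
    lev := [] }
  links := [[1, 2, 6, 7], [2, 0, 7, 8, 9], [6, 0, 1, 9, 3, 10, 11], [10, 2, 9, 4, 12, 13, 5], [12, 3, 9,
    14, 15], [10, 3, 13, 16]]
  P := {
    a := 6
    N := 17
    nb := [198, 901, 3659, 13876, 53768, 74760, 2181, 323, 642, 16670, 67628, 1092, 40984, 69672,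
      33296, 20496, 9248]
    tri := [(0, 1, 2), (0, 1, 7), (0, 2, 6), (0, 6, 7), (1, 2, 9), (1, 7, 8), (1, 8, 9), (2, 3, 9), (2,
      3, 10), (2, 6, 11), (2, 10, 11), (3, 4, 9), (3, 4, 12), (3, 5, 10), (3, 5, 13), (3, 12, 13),
      (4, 9, 14), (4, 12, 15), (4, 14, 15), (5, 10, 16), (5, 13, 16)]
    fin := [0, 0, 0, 3, 3, 3, 0, 7, 8, 3, 3, 11, 3, 13, 14, 15, 16]
    chd := [(0, 3), (0, 8)]
    steps := [(0, 1), (0, 2), (0, 6), (3, 4), (3, 5), (3, 9), (3, 12), (3, 10)] }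
  rep := [3, 0, 7, 13, 8, 11, 14, 15, 16]

noncomputable def v388 : Cov.CovD where
  P := 3
  N := 6
  pl := [1, 5, 7, 8, 9, 10]
  lev := [⟨[], [], [], [2], [(0, 1, [0, 4])]⟩,
    ⟨[], [(0, 0), (0, 1), (0, 4)], [(0, 4)], [2], [(2, 4, [1]), (3, 0, [1])]⟩,
    ⟨[(0, 1)], [(0, 0), (0, 1), (1, 0), (1, 1), (1, 4)], [(0, 0), (0, 1)], [5], [(0, 1, [0,
      4]), (3, 0, [1]), (4, 0, [1])]⟩,
    ⟨[(0, 2), (1, 2)], [(1, 0), (2, 0), (2, 1)], [(0, 0)], [3], [(3, 0, [1]), (4, 0, [1]),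
      (6, 0, [1])]⟩,
    ⟨[(2, 3)], [(1, 0), (2, 0), (3, 0)], [(0, 0)], [6, 7], [(3, 0, [1]), (6, 0, [1])]⟩,
    ⟨[(2, 3), (3, 4)], [(2, 0), (3, 0)], [], [3, 8], [(4, 0, [1])]⟩]
  Ta := [((3, 2), 0, 4), ((3, 8), 0, 6), ((4, 5), 0, 5), ((4, 10), 0, 8), ((6, 7), 0, 3), ((6,
    9), 0, 7)]
  Tb := [((0, 1, 5), 1, 2, 5), ((1, 0, 2), 2, 1, 4), ((2, 1, 3), 4, 2, 0), ((3, 2, 8), 0, 4, 6),
    ((4, 5, 10), 0, 5, 8), ((5, 0, 4), 5, 1, 0), ((6, 7, 9), 0, 3, 7), ((7, 6, 10), 3, 0, 8),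
    ((8, 3, 9), 6, 0, 7), ((9, 6, 8), 7, 0, 6), ((10, 4, 7), 8, 0, 3)]
  Tc := [(1, 0, 4)]
  Td := [((0, 1), (3, 2), 4), ((0, 1), (3, 8), 6), ((0, 1), (4, 5), 5), ((0, 1), (4, 10), 8),
    ((0, 1), (6, 7), 3), ((0, 1), (6, 9), 7), ((1, 0), (0, 1), 2), ((1, 0), (0, 5), 5), ((1,
    4), (0, 1), 2), ((1, 4), (0, 5), 5), ((4, 1), (2, 1), 2), ((4, 1), (2, 3), 0)]
  G := [[0, 0x111e2111e8111e4e14, 0x111e111e6111e111eac24,
    0x111e111e6111e111eac4111e111e6111e111eac8c, 0x111e111e6111e111eac28], [0,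
    0x111e2111e8111e4e14, 0x82a442426c8eeae8ee4ceee64eac2c, 0x82a441426c8eeae8ee4ceee64eac1c,
    0x426c8eeae8ee4cee82ae64eec21], [0, 0x111e2111e8111e4e14, 0xc11e1ade6151e69deac24,
    0xc1ce1a1e6713e165eac14, 0x115eaa9e61c9e615eac21]]

noncomputable def n388 : Ent := ⟨e388, noF, [], [], [(8, 14, [1685382413448253767852309107433119732572617628602273068445366497281, 0])]⟩

def c388 : PLift (Cov.check n388.C.D v388 = true) := ⟨by decide +kernel⟩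

def b388 : PLift (entF (fidx ts) 400 388 n388 = true) := ⟨by decide +kernel⟩

theorem g388 : GoodF (fidx ts) 400 388 := GoodF.ofV v388 n388 c388.down b388.down

/-- 457754:332/2 -/
noncomputable def e389 : SCfg where
  D := {
    a := 6
    L := 9
    kp := 6
    inn := [(0, 1), (0, 2), (1, 0), (1, 2), (2, 0), (2, 1), (2, 3), (3, 2), (3, 4), (4, 3), (4, 5), (5,
      4)]
    mix := [(0, 0), (0, 1), (1, 1), (1, 2), (1, 3), (2, 0), (2, 3), (2, 4), (2, 5), (3, 3), (3, 4), (3,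
      6), (3, 7), (3, 8), (4, 2), (4, 3), (4, 6), (5, 1), (5, 2), (5, 6)]
    cl := [3, 2, 1, 0, 0, 4, 0, 5, 6]
    chq := [(1, 3), (1, 4), (3, 1), (4, 1)]
    rng := [(0, 1), (0, 5), (1, 0), (1, 2), (1, 6), (2, 1), (2, 3), (3, 2), (4, 5), (4, 8), (5, 0), (5,
      4), (6, 1), (6, 7), (7, 6), (7, 8), (8, 4), (8, 7)]
    lev := [] }
  links := [[1, 2, 6, 7], [2, 0, 7, 8, 9], [6, 0, 1, 9, 3, 10, 11], [10, 2, 9, 4, 12, 13, 14], [12, 3, 9,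
    8, 5], [12, 4, 8, 7]]
  P := {
    a := 6
    N := 15
    nb := [198, 901, 3659, 30228, 4904, 4496, 2181, 4451, 690, 286, 18444, 1092, 8376, 20488, 9224]
    tri := [(0, 1, 2), (0, 1, 7), (0, 2, 6), (0, 6, 7), (1, 2, 9), (1, 7, 8), (1, 8, 9), (2, 3, 9), (2,
      3, 10), (2, 6, 11), (2, 10, 11), (3, 4, 9), (3, 4, 12), (3, 10, 14), (3, 12, 13), (3, 13,
      14), (4, 5, 8), (4, 5, 12), (4, 8, 9), (5, 7, 8), (5, 7, 12)]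
    fin := [0, 1, 1, 3, 4, 4, 0, 4, 1, 3, 3, 11, 3, 13, 14]
    chd := [(0, 1), (1, 11)]
    steps := [(0, 6), (1, 2), (1, 8), (3, 9), (3, 12), (3, 10), (4, 5), (4, 7)] }
  rep := [3, 1, 4, 0, 11, 13, 14]

noncomputable def v389 : Cov.CovD where
  P := 3
  N := 4
  pl := [1, 7, 8]
  lev := [⟨[], [], [], [2], [(0, 3, [1])]⟩,
    ⟨[], [(0, 0), (0, 1), (0, 3)], [(0, 1)], [2], [(2, 1, [3, 4]), (3, 0, [])]⟩,
    ⟨[(0, 1)], [(0, 0), (0, 3), (0, 4), (1, 0), (1, 1), (1, 3), (1, 4)], [(0, 0), (0, 3),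
      (0, 4), (3, 4)], [], [(0, 3, [1]), (3, 0, []), (4, 0, []), (5, 4, [1])]⟩,
    ⟨[(0, 2), (1, 2)], [(1, 0), (2, 0), (2, 3), (2, 4)], [(0, 0)], [5, 6], [(3, 0, []), (4,
      0, []), (6, 0, [])]⟩,
    ⟨[(2, 3)], [(1, 0), (1, 1), (2, 0), (3, 0), (3, 1)], [(0, 0), (0, 1)], [], [(2, 1, [3,
      4]), (3, 0, []), (6, 0, [])]⟩,
    ⟨[(3, 4)], [(1, 1), (3, 0), (4, 0), (4, 1)], [(0, 1)], [2], [(2, 1, [3, 4]), (6, 0,
      [])]⟩]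
  Ta := [((3, 2), 0, 1), ((4, 5), 0, 4), ((4, 8), 0, 6), ((6, 1), 0, 2), ((6, 7), 0, 5)]
  Tb := [((0, 1, 5), 3, 2, 4), ((1, 0, 2), 2, 3, 1), ((1, 0, 6), 2, 3, 0), ((1, 2, 6), 2, 1, 0),
    ((2, 1, 3), 1, 2, 0), ((4, 5, 8), 0, 4, 6), ((5, 0, 4), 4, 3, 0), ((6, 1, 7), 0, 2, 5),
    ((7, 6, 8), 5, 0, 6), ((8, 4, 7), 6, 0, 5)]
  Tc := [(1, 3, 4)]
  Td := [((1, 3), (2, 1), 2), ((1, 3), (2, 3), 0), ((1, 4), (2, 1), 2), ((1, 4), (2, 3), 0), ((3,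
    1), (0, 1), 2), ((3, 1), (0, 5), 4), ((4, 1), (5, 0), 3), ((4, 1), (5, 4), 0)]
  G := [[0, 0x8844824882e4444a848248eec1, 0, 0x488844e28488484e24c,
    0x1414c28842142c8148884e28b], [0, 0, 0, 0x441448e24484844e249,
    0x1828821818ce1242188884e689], [0, 0, 0x848488e28428c882488448e68c,
    0x448888e28484888e21c, 0x842848888ea1282848484e689]]

noncomputable def n389 : Ent := ⟨e389, noF, [], [], []⟩

def c389 : PLift (Cov.check n389.C.D v389 = true) := ⟨by decide +kernel⟩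

def b389 : PLift (entF (fidx ts) 400 389 n389 = true) := ⟨by decide +kernel⟩

theorem g389 : GoodF (fidx ts) 400 389 := GoodF.ofV v389 n389 c389.down b389.down

/-- 457754:332/1 -/
noncomputable def e390 : SCfg where
  D := {
    a := 6
    L := 10
    kp := 7
    inn := [(0, 1), (0, 2), (1, 0), (1, 2), (2, 0), (2, 1), (2, 3), (3, 2), (3, 4), (4, 3), (4, 5), (5,
      4)]
    mix := [(0, 0), (0, 1), (1, 1), (1, 2), (1, 3), (2, 0), (2, 3), (2, 4), (2, 5), (3, 3), (3, 4), (3,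
      6), (3, 7), (3, 8), (4, 3), (4, 6), (4, 9), (5, 1), (5, 6), (5, 9)]
    cl := [3, 1, 2, 0, 0, 5, 0, 6, 7, 4]
    chq := [(2, 3), (2, 5), (3, 2), (5, 2)]
    rng := [(0, 1), (0, 5), (1, 0), (1, 2), (1, 6), (1, 9), (2, 1), (2, 3), (3, 2), (3, 9), (4, 5), (4,
      8), (5, 0), (5, 4), (6, 1), (6, 7), (7, 6), (7, 8), (8, 4), (8, 7), (9, 1), (9, 3)]
    lev := [] }
  links := [[1, 2, 6, 7], [2, 0, 7, 8, 9], [6, 0, 1, 9, 3, 10, 11], [10, 2, 9, 4, 12, 13, 14], [12, 3, 9,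
    15, 5], [12, 4, 15, 7]]
  P := {
    a := 6
    N := 16
    nb := [198, 901, 3659, 30228, 37416, 37008, 2181, 37219, 642, 33054, 18444, 1092, 8376, 20488,
      9224, 688]
    tri := [(0, 1, 2), (0, 1, 7), (0, 2, 6), (0, 6, 7), (1, 2, 9), (1, 7, 8), (1, 8, 9), (2, 3, 9), (2,
      3, 10), (2, 6, 11), (2, 10, 11), (3, 4, 9), (3, 4, 12), (3, 10, 14), (3, 12, 13), (3, 13,
      14), (4, 5, 12), (4, 5, 15), (4, 9, 15), (5, 7, 12), (5, 7, 15)]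
    fin := [0, 1, 1, 3, 4, 4, 0, 4, 1, 3, 3, 11, 3, 13, 14, 15]
    chd := [(0, 1), (1, 11)]
    steps := [(0, 6), (1, 2), (1, 8), (3, 9), (3, 12), (3, 10), (4, 5), (4, 7)] }
  rep := [3, 4, 1, 0, 15, 11, 13, 14]

noncomputable def v390 : Cov.CovD where
  P := 3
  N := 5
  pl := [1, 7, 8, 9]
  lev := [⟨[], [], [], [1], [(0, 3, [2])]⟩,
    ⟨[], [(0, 0), (0, 2), (0, 3)], [(0, 2)], [1], [(2, 2, [3, 5]), (3, 0, [])]⟩,
    ⟨[(0, 1)], [(0, 0), (0, 3), (0, 5), (1, 0), (1, 2), (1, 3), (1, 5)], [(0, 0), (0, 3),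
      (0, 5), (3, 5)], [], [(0, 3, [2]), (3, 0, []), (4, 0, []), (5, 5, [2])]⟩,
    ⟨[(0, 2), (1, 2)], [(1, 0), (2, 0), (2, 3), (2, 5)], [(0, 0)], [6, 7], [(3, 0, []), (4,
      0, []), (6, 0, [])]⟩,
    ⟨[(2, 3)], [(1, 0), (2, 0), (3, 0)], [(0, 0)], [4], [(3, 0, []), (6, 0, [])]⟩,
    ⟨[(3, 4)], [(3, 0), (4, 0)], [], [1, 4], [(6, 0, [])]⟩]
  Ta := [((3, 2), 0, 2), ((3, 9), 0, 4), ((4, 5), 0, 5), ((4, 8), 0, 7), ((6, 1), 0, 1), ((6, 7),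
    0, 6)]
  Tb := [((0, 1, 5), 3, 1, 5), ((1, 0, 2), 1, 3, 2), ((1, 0, 6), 1, 3, 0), ((1, 0, 9), 1, 3, 4),
    ((1, 2, 6), 1, 2, 0), ((1, 2, 9), 1, 2, 4), ((1, 6, 9), 1, 0, 4), ((2, 1, 3), 2, 1, 0),
    ((3, 2, 9), 0, 2, 4), ((4, 5, 8), 0, 5, 7), ((5, 0, 4), 5, 3, 0), ((6, 1, 7), 0, 1, 6),
    ((7, 6, 8), 6, 0, 7), ((8, 4, 7), 7, 0, 6), ((9, 1, 3), 4, 1, 0)]
  Tc := [(2, 3, 5)]
  Td := [((2, 3), (2, 1), 1), ((2, 3), (2, 3), 0), ((2, 5), (2, 1), 1), ((2, 5), (2, 3), 0), ((3,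
    2), (0, 1), 1), ((3, 2), (0, 5), 5), ((5, 2), (5, 0), 3), ((5, 2), (5, 4), 0)]
  G := [[0, 0, 0x11a4411611a416e41a84ca14c81c11ceec1, 0x925284ce28c29214ce245,
    0x41a14ca4881c444284a886e841681a12e48d], [0, 0, 0, 0x121211ce28121211ce289,
    0x18684ca4881641864a814a11a11ae48d], [0, 0x82c224c82a24cea482c242a82c84ce68c, 0,
    0xc2c284ce28486c284ce245, 0x48684aa4884a484a4a84864ca84ce48d]]

noncomputable def n390 : Ent := ⟨e390, noF, [], [], [(8, 15, [360035742630636841211993100915356868655746945586763691009265665, 0])]⟩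

def c390 : PLift (Cov.check n390.C.D v390 = true) := ⟨by decide +kernel⟩

def b390 : PLift (entF (fidx ts) 400 390 n390 = true) := ⟨by decide +kernel⟩

theorem g390 : GoodF (fidx ts) 400 390 := GoodF.ofV v390 n390 c390.down b390.down

/-- 457754:332/3 -/
noncomputable def e391 : SCfg where
  D := {
    a := 6
    L := 10
    kp := 7
    inn := [(0, 1), (0, 2), (1, 0), (1, 2), (2, 0), (2, 1), (2, 3), (3, 2), (3, 4), (4, 3), (4, 5), (5,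
      4)]
    mix := [(0, 0), (0, 1), (1, 1), (1, 2), (1, 3), (2, 0), (2, 3), (2, 4), (2, 5), (3, 3), (3, 4), (3,
      6), (3, 7), (3, 8), (4, 2), (4, 3), (4, 6), (5, 2), (5, 6), (5, 9)]
    cl := [3, 2, 1, 0, 0, 4, 0, 5, 6, 7]
    chq := [(1, 3), (1, 4), (3, 1), (4, 1)]
    rng := [(0, 1), (0, 5), (1, 0), (1, 2), (2, 1), (2, 3), (2, 9), (3, 2), (4, 5), (4, 8), (5, 0), (5,
      4), (6, 7), (6, 9), (7, 6), (7, 8), (8, 4), (8, 7), (9, 2), (9, 6)]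
    lev := [] }
  links := [[1, 2, 6, 7], [2, 0, 7, 8, 9], [6, 0, 1, 9, 3, 10, 11], [10, 2, 9, 4, 12, 13, 14], [12, 3, 9,
    8, 5], [12, 4, 8, 15]]
  P := {
    a := 6
    N := 16
    nb := [198, 901, 3659, 30228, 4904, 37136, 2181, 323, 33458, 286, 18444, 1092, 41016, 20488, 9224,
      4384]
    tri := [(0, 1, 2), (0, 1, 7), (0, 2, 6), (0, 6, 7), (1, 2, 9), (1, 7, 8), (1, 8, 9), (2, 3, 9), (2,
      3, 10), (2, 6, 11), (2, 10, 11), (3, 4, 9), (3, 4, 12), (3, 10, 14), (3, 12, 13), (3, 13,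
      14), (4, 5, 8), (4, 5, 12), (4, 8, 9), (5, 8, 15), (5, 12, 15)]
    fin := [0, 1, 1, 3, 1, 1, 0, 7, 1, 3, 3, 11, 3, 13, 14, 15]
    chd := [(0, 1), (1, 11)]
    steps := [(0, 6), (1, 2), (1, 8), (1, 5), (3, 9), (1, 4), (3, 12), (3, 10)] }
  rep := [3, 1, 7, 0, 11, 13, 14, 15]

noncomputable def v391 : Cov.CovD where
  P := 3
  N := 5
  pl := [1, 7, 8, 9]
  lev := [⟨[], [], [], [2], [(0, 3, [1])]⟩,
    ⟨[], [(0, 0), (0, 1), (0, 3)], [(0, 1)], [2], [(2, 1, [3, 4]), (3, 0, [])]⟩,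
    ⟨[(0, 1)], [(0, 0), (0, 3), (0, 4), (1, 0), (1, 1), (1, 3), (1, 4)], [(0, 0), (0, 3),
      (0, 4), (3, 4)], [], [(0, 3, [1]), (3, 0, []), (4, 0, []), (5, 4, [1])]⟩,
    ⟨[(0, 2), (1, 2)], [(1, 0), (2, 0), (2, 3), (2, 4)], [(0, 0)], [5, 6], [(3, 0, []), (4,
      0, []), (6, 0, [])]⟩,
    ⟨[(2, 3)], [(1, 0), (1, 1), (2, 0), (3, 0), (3, 1)], [(0, 0), (0, 1)], [], [(2, 1, [3,
      4]), (3, 0, []), (6, 0, [])]⟩,
    ⟨[(3, 4)], [(1, 1), (3, 0), (4, 0), (4, 1)], [(0, 1)], [7], [(2, 1, [3, 4]), (6, 0,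
      [])]⟩]
  Ta := [((3, 2), 0, 1), ((4, 5), 0, 4), ((4, 8), 0, 6), ((6, 7), 0, 5), ((6, 9), 0, 7)]
  Tb := [((0, 1, 5), 3, 2, 4), ((1, 0, 2), 2, 3, 1), ((2, 1, 3), 1, 2, 0), ((2, 1, 9), 1, 2, 7),
    ((2, 3, 9), 1, 0, 7), ((4, 5, 8), 0, 4, 6), ((5, 0, 4), 4, 3, 0), ((6, 7, 9), 0, 5, 7),
    ((7, 6, 8), 5, 0, 6), ((8, 4, 7), 6, 0, 5), ((9, 2, 6), 7, 1, 0)]
  Tc := [(1, 3, 4)]
  Td := [((1, 3), (2, 1), 2), ((1, 3), (2, 3), 0), ((1, 3), (2, 9), 7), ((1, 4), (2, 1), 2), ((1,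
    4), (2, 3), 0), ((1, 4), (2, 9), 7), ((3, 1), (0, 1), 2), ((3, 1), (0, 5), 4), ((4, 1),
    (5, 0), 3), ((4, 1), (5, 4), 0)]
  G := [[0, 0xa84464a4c2ea4c4a646268eec1, 0x141814e21828a282141418e68c, 0x181414e28181414e249,
    0x181418e21828a142141814e689], [0, 0, 0x282141418ea4142181414e68c, 0x141814e28141818e245,
    0x141418e141814ec1141414e283], [0, 0, 0xc42c4c8c4ea4242c4c8c4e68c,
    0x48cc8c8e24c4c8c8e289, 0x242c448cc4ea1242c4c8c8e689]]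

noncomputable def n391 : Ent := ⟨e391, noF, [], [], [(7, 15, [360035742630636841211993100915356868655746945586763691009265665, 0])]⟩

def c391 : PLift (Cov.check n391.C.D v391 = true) := ⟨by decide +kernel⟩

def b391 : PLift (entF (fidx ts) 400 391 n391 = true) := ⟨by decide +kernel⟩

theorem g391 : GoodF (fidx ts) 400 391 := GoodF.ofV v391 n391 c391.down b391.down

/-- 457754:332 -/
noncomputable def e392 : SCfg where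
  D := {
    a := 6
    L := 11
    kp := 8
    inn := [(0, 1), (0, 2), (1, 0), (1, 2), (2, 0), (2, 1), (2, 3), (3, 2), (3, 4), (4, 3), (4, 5), (5,
      4)]
    mix := [(0, 0), (0, 1), (1, 1), (1, 2), (1, 3), (2, 0), (2, 3), (2, 4), (2, 5), (3, 3), (3, 4), (3,
      6), (3, 7), (3, 8), (4, 3), (4, 6), (4, 9), (5, 6), (5, 9), (5, 10)]
    cl := [3, 1, 2, 0, 0, 5, 0, 6, 7, 4, 8]
    chq := [(2, 3), (2, 5), (3, 2), (5, 2)]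
    rng := [(0, 1), (0, 5), (1, 0), (1, 2), (2, 1), (2, 3), (3, 2), (3, 9), (4, 5), (4, 8), (5, 0), (5,
      4), (6, 7), (6, 10), (7, 6), (7, 8), (8, 4), (8, 7), (9, 3), (9, 10), (10, 6), (10, 9)]
    lev := [] }
  links := [[1, 2, 6, 7], [2, 0, 7, 8, 9], [6, 0, 1, 9, 3, 10, 11], [10, 2, 9, 4, 12, 13, 14], [12, 3, 9,
    15, 5], [12, 4, 15, 16]]
  P := {
    a := 6
    N := 17
    nb := [198, 901, 3659, 30228, 37416, 102416, 2181, 323, 642, 33054, 18444, 1092, 73784, 20488,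
      9224, 66096, 36896]
    tri := [(0, 1, 2), (0, 1, 7), (0, 2, 6), (0, 6, 7), (1, 2, 9), (1, 7, 8), (1, 8, 9), (2, 3, 9), (2,
      3, 10), (2, 6, 11), (2, 10, 11), (3, 4, 9), (3, 4, 12), (3, 10, 14), (3, 12, 13), (3, 13,
      14), (4, 5, 12), (4, 5, 15), (4, 9, 15), (5, 12, 16), (5, 15, 16)]
    fin := [0, 1, 1, 3, 3, 3, 0, 7, 1, 3, 3, 11, 3, 13, 14, 15, 16]
    chd := [(0, 1), (1, 11)]
    steps := [(0, 6), (1, 2), (1, 8), (3, 4), (3, 5), (3, 9), (3, 12), (3, 10)] }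
  rep := [3, 7, 1, 0, 15, 11, 13, 14, 16]

noncomputable def v392 : Cov.CovD where
  P := 3
  N := 6
  pl := [1, 7, 8, 9, 10]
  lev := [⟨[], [], [], [1], [(0, 3, [2])]⟩,
    ⟨[], [(0, 0), (0, 2), (0, 3)], [(0, 2)], [1], [(2, 2, [3, 5]), (3, 0, [])]⟩,
    ⟨[(0, 1)], [(0, 0), (0, 3), (0, 5), (1, 0), (1, 2), (1, 3), (1, 5)], [(0, 0), (0, 3),
      (0, 5), (3, 5)], [], [(0, 3, [2]), (3, 0, []), (4, 0, []), (5, 5, [2])]⟩,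
    ⟨[(0, 2), (1, 2)], [(1, 0), (2, 0), (2, 3), (2, 5)], [(0, 0)], [6, 7], [(3, 0, []), (4,
      0, []), (6, 0, [])]⟩,
    ⟨[(2, 3)], [(1, 0), (2, 0), (3, 0)], [(0, 0)], [4], [(3, 0, []), (6, 0, [])]⟩,
    ⟨[(3, 4)], [(3, 0), (4, 0)], [], [4, 8], [(6, 0, [])]⟩]
  Ta := [((3, 2), 0, 2), ((3, 9), 0, 4), ((4, 5), 0, 5), ((4, 8), 0, 7), ((6, 7), 0, 6), ((6,
    10), 0, 8)]
  Tb := [((0, 1, 5), 3, 1, 5), ((1, 0, 2), 1, 3, 2), ((2, 1, 3), 2, 1, 0), ((3, 2, 9), 0, 2, 4),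
    ((4, 5, 8), 0, 5, 7), ((5, 0, 4), 5, 3, 0), ((6, 7, 10), 0, 6, 8), ((7, 6, 8), 6, 0, 7),
    ((8, 4, 7), 7, 0, 6), ((9, 3, 10), 4, 0, 8), ((10, 6, 9), 8, 0, 4)]
  Tc := [(2, 3, 5)]
  Td := [((2, 3), (2, 1), 1), ((2, 3), (2, 3), 0), ((2, 5), (2, 1), 1), ((2, 5), (2, 3), 0), ((3,
    2), (0, 1), 1), ((3, 2), (0, 5), 5), ((5, 2), (5, 0), 3), ((5, 2), (5, 4), 0)]
  G := [[0, 0x16c21a6812e1dcea4c1621a6a1ca1ce68c, 0x11c11a11ae11a11a11ce6116116116e8c1,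
    0x16a1a6a1ce2416a93aa1ce249, 0x1dac1aa48a1c4c1a4a81a693a95ae48d], [0,
    0x11c11611ce211a28c116211a11c11ce68c, 0, 0x11611c11ce2411611c11ce285,
    0x11a11ca48116411c4a811a11a11ae48d], [0, 0xa6c2ca6c6aa6cea4a6c2ca6c6aa6ce68c, 0,
    0xca6c6aa6ce28ca6c6aa6ce245, 0xc6a4ca6a6cac1c6a421ca6c6aa6ce48d]]

noncomputable def n392 : Ent := ⟨e392, noF, [], [], [(7, 16, [1580044410770988437309982408355971841652082177953823432505690710017, 0]), (8, 15, [1685356702439545624007900436039642273970977273354372543760001691649, 0])]⟩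

def c392 : PLift (Cov.check n392.C.D v392 = true) := ⟨by decide +kernel⟩

def b392 : PLift (entF (fidx ts) 400 392 n392 = true) := ⟨by decide +kernel⟩

theorem g392 : GoodF (fidx ts) 400 392 := GoodF.ofV v392 n392 c392.down b392.down

/-- 467446:338/1 -/
noncomputable def e393 : SCfg where
  D := {
    a := 6
    L := 9
    kp := 7
    inn := [(0, 1), (0, 2), (1, 0), (1, 4), (2, 0), (2, 3), (2, 5), (3, 2), (3, 5), (4, 1), (5, 2), (5,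
      3)]
    mix := [(0, 0), (0, 1), (1, 0), (1, 1), (1, 2), (1, 3), (2, 0), (2, 1), (2, 4), (2, 5), (3, 4), (3,
      6), (4, 0), (4, 3), (4, 7), (5, 0), (5, 6), (5, 7), (5, 8)]
    cl := [0, 0, 7, 3, 2, 5, 4, 1, 6]
    chq := [(0, 3), (1, 5), (3, 0), (4, 5), (5, 1), (5, 4), (5, 6), (6, 5)]
    rng := [(0, 7), (1, 2), (1, 5), (2, 1), (2, 3), (3, 2), (3, 7), (4, 5), (4, 6), (5, 1), (5, 4), (6,
      4), (6, 8), (7, 0), (7, 3), (7, 8), (8, 6), (8, 7)]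
    lev := [] }
  links := [[1, 6, 2, 7], [6, 0, 7, 8, 9, 4], [7, 0, 6, 5, 3, 10, 11], [10, 2, 5, 12], [6, 1, 9, 13],
    [12, 3, 2, 6, 13, 14]]
  P := {
    a := 6
    N := 15
    nb := [198, 977, 3305, 5156, 8770, 28748, 8247, 2311, 642, 8466, 6156, 1156, 17448, 17008, 12320]
    tri := [(0, 1, 6), (0, 1, 7), (0, 2, 6), (0, 2, 7), (1, 4, 6), (1, 4, 9), (1, 7, 8), (1, 8, 9), (2,
      3, 5), (2, 3, 10), (2, 5, 6), (2, 7, 11), (2, 10, 11), (3, 5, 12), (3, 10, 12), (4, 6, 13),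
      (4, 9, 13), (5, 6, 13), (5, 12, 14), (5, 13, 14)]
    fin := [0, 0, 2, 3, 0, 2, 0, 0, 8, 9, 10, 2, 3, 13, 14]
    chd := [(0, 9), (2, 3), (2, 13), (2, 14)]
    steps := [(0, 1), (0, 4), (0, 6), (0, 7), (2, 5), (2, 11), (3, 12)] }
  rep := [0, 13, 10, 9, 3, 2, 14, 8]

noncomputable def v393 : Cov.CovD where
  P := 3
  N := 5
  pl := [2, 4]
  lev := [⟨[], [], [(0, 0)], [], [(0, 0, [3]), (1, 0, [3])]⟩,
    ⟨[], [(0, 0), (0, 3)], [(0, 0), (0, 3)], [7], [(0, 0, [3]), (1, 0, [3]), (3, 3, [0])]⟩,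
    ⟨[(0, 1)], [(0, 0), (0, 5), (1, 0)], [(0, 0), (0, 5)], [2], [(0, 0, [3]), (1, 0, [3]),
      (5, 5, [1, 4, 6])]⟩,
    ⟨[(0, 2)], [(2, 0), (2, 4), (2, 5)], [], [2], [(6, 4, [5])]⟩,
    ⟨[(0, 1)], [(0, 0), (1, 0), (1, 1), (1, 3), (2, 0)], [(0, 1), (0, 3), (1, 3)], [], [(0,
      0, [3]), (3, 3, [0]), (7, 1, [5])]⟩,
    ⟨[(0, 2), (2, 3)], [(0, 0), (1, 0), (2, 0), (2, 1), (2, 4), (2, 5), (2, 6), (3, 0), (3,
      1), (3, 4), (3, 6), (4, 0), (4, 1)], [(0, 1), (0, 4), (0, 6), (1, 4), (1, 6), (4, 6)],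
      [], [(0, 0, [3]), (6, 4, [5]), (7, 1, [5]), (8, 6, [5])]⟩]
  Ta := [((0, 7), 0, 1), ((1, 2), 0, 7), ((1, 5), 0, 5)]
  Tb := [((1, 2, 5), 0, 7, 5), ((2, 1, 3), 7, 0, 3), ((3, 2, 7), 3, 7, 1), ((4, 5, 6), 2, 5, 4),
    ((5, 1, 4), 5, 0, 2), ((6, 4, 8), 4, 2, 6), ((7, 0, 3), 1, 0, 3), ((7, 0, 8), 1, 0, 6),
    ((7, 3, 8), 1, 3, 6), ((8, 6, 7), 6, 4, 1)]
  Tc := [(5, 1, 4), (5, 1, 6), (5, 4, 6)]
  Td := [((0, 3), (0, 7), 1), ((0, 3), (1, 2), 7), ((0, 3), (1, 5), 5), ((1, 5), (7, 0), 0), ((1,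
    5), (7, 3), 3), ((1, 5), (7, 8), 6), ((3, 0), (3, 2), 7), ((3, 0), (3, 7), 1), ((4, 5),
    (6, 4), 2), ((4, 5), (6, 8), 6), ((5, 1), (5, 1), 0), ((5, 1), (5, 4), 2), ((5, 4), (5,
    1), 0), ((5, 4), (5, 4), 2), ((5, 6), (5, 1), 0), ((5, 6), (5, 4), 2), ((6, 5), (8, 6),
    4), ((6, 5), (8, 7), 1)]
  G := [[0x622c28a2684a88c644248848ec6, 0xe84a88ce24a28ca644a48c46,
    0x482282888ec88e64446a484ac66c44c6aac88cace2, 0x4848588889c4444984845c44c44c588c88c9ce2,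
    0x241c4c49a4281c8c89a4426c3c8cc8c9aac], [0, 0, 0x9454c2118d55cc26d82c8468a,
    0x584988c544948c114d4118d8ce2, 0xc1822d82c88ad42c48a114d28ea]]

noncomputable def n393 : Ent := ⟨e393, noF, [], [], []⟩

def c393 : PLift (Cov.check n393.C.D v393 = true) := ⟨by decide +kernel⟩

def b393 : PLift (entF (fidx ts) 400 393 n393 = true) := ⟨by decide +kernel⟩

theorem g393 : GoodF (fidx ts) 400 393 := GoodF.ofV v393 n393 c393.down b393.down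

/-- 467446:338 -/
noncomputable def e394 : SCfg where
  D := {
    a := 6
    L := 10
    kp := 8
    inn := [(0, 1), (0, 2), (1, 0), (1, 4), (2, 0), (2, 3), (2, 5), (3, 2), (3, 5), (4, 1), (5, 2), (5,
      3)]
    mix := [(0, 0), (0, 1), (1, 0), (1, 1), (1, 2), (1, 3), (2, 0), (2, 1), (2, 4), (2, 5), (3, 4), (3,
      6), (4, 0), (4, 3), (4, 7), (5, 0), (5, 6), (5, 8), (5, 9)]
    cl := [0, 0, 7, 3, 1, 2, 4, 8, 5, 6]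
    chq := [(0, 3), (2, 4), (2, 5), (2, 6), (3, 0), (4, 2), (5, 2), (6, 2)]
    rng := [(0, 7), (0, 8), (1, 2), (1, 5), (2, 1), (2, 3), (3, 2), (3, 7), (4, 5), (4, 6), (5, 1), (5,
      4), (6, 4), (6, 9), (7, 0), (7, 3), (8, 0), (8, 9), (9, 6), (9, 8)]
    lev := [] }
  links := [[1, 6, 2, 7], [6, 0, 7, 8, 9, 4], [7, 0, 6, 5, 3, 10, 11], [10, 2, 5, 12], [6, 1, 9, 13],
    [12, 3, 2, 6, 14, 15]]
  P := {
    a := 6
    N := 16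
    nb := [198, 977, 3305, 5156, 8770, 53324, 24631, 2311, 642, 8466, 6156, 1156, 33832, 592, 32864,
      20512]
    tri := [(0, 1, 6), (0, 1, 7), (0, 2, 6), (0, 2, 7), (1, 4, 6), (1, 4, 9), (1, 7, 8), (1, 8, 9), (2,
      3, 5), (2, 3, 10), (2, 5, 6), (2, 7, 11), (2, 10, 11), (3, 5, 12), (3, 10, 12), (4, 6, 13),
      (4, 9, 13), (5, 6, 14), (5, 12, 15), (5, 14, 15)]
    fin := [0, 0, 2, 3, 0, 2, 0, 0, 8, 9, 10, 2, 3, 13, 14, 15]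
    chd := [(0, 9), (2, 3), (2, 14), (2, 15)]
    steps := [(0, 1), (0, 4), (0, 6), (0, 7), (2, 5), (2, 11), (3, 12)] }
  rep := [0, 10, 2, 9, 3, 14, 15, 8, 13]

noncomputable def v394 : Cov.CovD where
  P := 3
  N := 6
  pl := [2, 4, 7]
  lev := [⟨[], [], [(0, 0)], [], [(0, 0, [3]), (1, 0, [3])]⟩,
    ⟨[], [(0, 0), (0, 3)], [(0, 0), (0, 3)], [7], [(0, 0, [3]), (1, 0, [3]), (3, 3, [0])]⟩,
    ⟨[(0, 1)], [(0, 0), (0, 2), (1, 0)], [(0, 0), (0, 2)], [1], [(0, 0, [3]), (1, 0, [3]),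
      (5, 2, [4, 5, 6])]⟩,
    ⟨[(0, 2)], [(2, 0), (2, 2), (2, 4)], [], [1], [(6, 4, [2])]⟩,
    ⟨[(0, 1)], [(0, 0), (1, 0), (1, 3), (2, 0)], [(0, 3)], [8], [(0, 0, [3]), (3, 3, [0])]⟩,
    ⟨[(0, 2), (2, 3)], [(0, 0), (1, 0), (2, 0), (2, 2), (2, 4), (2, 5), (2, 6), (3, 0), (3,
      4), (3, 5), (3, 6), (4, 0)], [(0, 4), (0, 5), (0, 6), (4, 5), (4, 6), (5, 6)], [], [(0,
      0, [3]), (6, 4, [2]), (8, 5, [2]), (9, 6, [2])]⟩]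
  Ta := [((0, 7), 0, 8), ((0, 8), 0, 5), ((1, 2), 0, 7), ((1, 5), 0, 2)]
  Tb := [((0, 7, 8), 0, 8, 5), ((1, 2, 5), 0, 7, 2), ((2, 1, 3), 7, 0, 3), ((3, 2, 7), 3, 7, 8),
    ((4, 5, 6), 1, 2, 4), ((5, 1, 4), 2, 0, 1), ((6, 4, 9), 4, 1, 6), ((7, 0, 3), 8, 0, 3),
    ((8, 0, 9), 5, 0, 6), ((9, 6, 8), 6, 4, 5)]
  Tc := [(2, 4, 5), (2, 4, 6), (2, 5, 6)]
  Td := [((0, 3), (0, 7), 8), ((0, 3), (0, 8), 5), ((0, 3), (1, 2), 7), ((0, 3), (1, 5), 2), ((2,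
    4), (5, 1), 0), ((2, 4), (5, 4), 1), ((2, 5), (5, 1), 0), ((2, 5), (5, 4), 1), ((2, 6),
    (5, 1), 0), ((2, 6), (5, 4), 1), ((3, 0), (3, 2), 7), ((3, 0), (3, 7), 8), ((4, 2), (6,
    4), 1), ((4, 2), (6, 9), 6), ((5, 2), (8, 0), 0), ((5, 2), (8, 9), 6), ((6, 2), (9, 6),
    4), ((6, 2), (9, 8), 5)]
  G := [[0, 0x222e222ec44222e222ec8222e4222e8cac, 0, 0x222e222e98222e222e94a222e222e5446,
    0x444e444e982444e444e98444e444e98c6], [0, 0x225225c4229229c4223223c4e8,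
    0x111e111ec4111e111ec46111e111ec88a, 0x242122ad422c2122d421229c8e2,
    0x44cf241d84144998444e44598e4]]

noncomputable def n394 : Ent := ⟨e394, noF, [], [], [(14, 13, [385753028440516072301428330182238677962518295842732840408616961, 0])]⟩

def c394 : PLift (Cov.check n394.C.D v394 = true) := ⟨by decide +kernel⟩

def b394 : PLift (entF (fidx ts) 400 394 n394 = true) := ⟨by decide +kernel⟩

theorem g394 : GoodF (fidx ts) 400 394 := GoodF.ofV v394 n394 c394.down b394.down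

/-- 467444:341/3 -/
noncomputable def e395 : SCfg where
  D := {
    a := 6
    L := 6
    kp := 4
    inn := [(0, 1), (0, 2), (1, 0), (1, 4), (2, 0), (2, 3), (2, 5), (3, 2), (4, 1), (5, 2)]
    mix := [(0, 0), (0, 1), (1, 0), (1, 1), (1, 2), (1, 3), (2, 0), (2, 1), (2, 4), (2, 5), (3, 3), (3,
      4), (3, 5), (4, 0), (4, 3), (4, 4), (5, 1), (5, 2), (5, 5)]
    cl := [0, 0, 2, 1, 4, 3]
    chq := [(0, 1), (0, 3), (1, 0), (3, 0), (3, 4), (4, 3)]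
    rng := [(0, 4), (1, 2), (2, 1), (2, 3), (2, 5), (3, 2), (3, 4), (3, 5), (4, 0), (4, 3), (5, 2), (5,
      3)]
    lev := [] }
  links := [[1, 6, 2, 7], [6, 0, 7, 8, 9, 4], [7, 0, 6, 10, 3, 11, 5], [11, 2, 10, 9], [6, 1, 9, 10], [7,
    2, 11, 8]]
  P := {
    a := 6
    N := 12
    nb := [198, 977, 3305, 3588, 1602, 2436, 1047, 295, 2722, 3354, 604, 812]
    tri := [(0, 1, 6), (0, 1, 7), (0, 2, 6), (0, 2, 7), (1, 4, 6), (1, 4, 9), (1, 7, 8), (1, 8, 9), (2,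
      3, 10), (2, 3, 11), (2, 5, 7), (2, 5, 11), (2, 6, 10), (3, 9, 10), (3, 9, 11), (4, 6, 10),
      (4, 9, 10), (5, 7, 8), (5, 8, 11)]
    fin := [0, 0, 0, 3, 0, 0, 0, 0, 8, 9, 3, 11]
    chd := [(0, 9), (0, 11), (3, 11)]
    steps := [(0, 1), (0, 2), (0, 6), (0, 4), (0, 7), (0, 5), (3, 10)] }
  rep := [0, 9, 8, 11, 3]

noncomputable def v395 : Cov.CovD where
  P := 3
  N := 2
  pl := [2]
  lev := [⟨[], [], [(0, 0)], [], [(0, 0, [1, 3]), (1, 0, [1, 3])]⟩,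
    ⟨[], [(0, 0), (0, 1)], [(0, 0), (0, 1)], [2], [(0, 0, [1, 3]), (1, 0, [1, 3]), (3, 1,
      [0])]⟩,
    ⟨[(0, 1)], [(0, 0), (0, 3), (0, 4), (1, 0)], [(0, 0), (0, 3), (0, 4), (3, 4)], [], [(0,
      0, [1, 3]), (1, 0, [1, 3]), (4, 4, [3]), (5, 3, [0, 4])]⟩,
    ⟨[(0, 2)], [(1, 1), (2, 0), (2, 1), (2, 3), (2, 4)], [(1, 3), (1, 4), (3, 4)], [], [(3,
      1, [0]), (4, 4, [3]), (5, 3, [0, 4])]⟩,
    ⟨[(0, 1)], [(0, 0), (1, 0), (1, 1), (1, 4), (2, 0), (2, 4), (3, 1), (3, 4)], [(0, 1),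
      (0, 4), (1, 4)], [], [(0, 0, [1, 3]), (3, 1, [0]), (4, 4, [3])]⟩,
    ⟨[(0, 2), (2, 3)], [(0, 0), (1, 0), (2, 0), (2, 3), (2, 4), (3, 3)], [(0, 3)], [2],
      [(1, 0, [1, 3]), (5, 3, [0, 4])]⟩]
  Ta := [((0, 4), 0, 4), ((1, 2), 0, 2)]
  Tb := [((2, 1, 3), 2, 0, 1), ((2, 1, 5), 2, 0, 3), ((2, 3, 5), 2, 1, 3), ((3, 2, 4), 1, 2, 4),
    ((3, 2, 5), 1, 2, 3), ((3, 4, 5), 1, 4, 3), ((4, 0, 3), 4, 0, 1), ((5, 2, 3), 3, 2, 1)]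
  Tc := [(0, 1, 3), (3, 0, 4)]
  Td := [((0, 1), (0, 4), 4), ((0, 1), (1, 2), 2), ((0, 3), (0, 4), 4), ((0, 3), (1, 2), 2), ((1,
    0), (3, 2), 2), ((1, 0), (3, 4), 4), ((1, 0), (3, 5), 3), ((3, 0), (5, 2), 2), ((3, 0),
    (5, 3), 1), ((3, 4), (5, 2), 2), ((3, 4), (5, 3), 1), ((4, 3), (4, 0), 0), ((4, 3), (4,
    3), 1)]
  G := [[0, 0x181441121e48, 0, 0x881818cd284, 0x38814418c1e82], [0, 0x188144121e42,
    0x41144811211a4c, 0xc11244, 0x881a11211e84]]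

noncomputable def n395 : Ent := ⟨e395, noF, [], [], []⟩

def c395 : PLift (Cov.check n395.C.D v395 = true) := ⟨by decide +kernel⟩

def b395 : PLift (entF (fidx ts) 400 395 n395 = true) := ⟨by decide +kernel⟩

theorem g395 : GoodF (fidx ts) 400 395 := GoodF.ofV v395 n395 c395.down b395.down

/-- 467444:341/2 -/
noncomputable def e396 : SCfg where
  D := {
    a := 6
    L := 7
    kp := 5
    inn := [(0, 1), (0, 2), (1, 0), (1, 4), (2, 0), (2, 3), (2, 5), (3, 2), (4, 1), (5, 2)]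
    mix := [(0, 0), (0, 1), (1, 0), (1, 1), (1, 2), (1, 3), (2, 0), (2, 1), (2, 4), (2, 5), (3, 3), (3,
      4), (3, 5), (4, 0), (4, 3), (4, 4), (5, 1), (5, 5), (5, 6)]
    cl := [0, 0, 2, 1, 4, 3, 5]
    chq := [(0, 1), (0, 3), (1, 0), (3, 0), (3, 4), (4, 3)]
    rng := [(0, 4), (1, 2), (1, 6), (2, 1), (2, 3), (3, 2), (3, 4), (3, 5), (4, 0), (4, 3), (5, 3), (5,
      6), (6, 1), (6, 5)]
    lev := [] }
  links := [[1, 6, 2, 7], [6, 0, 7, 8, 9, 4], [7, 0, 6, 10, 3, 11, 5], [11, 2, 10, 9], [6, 1, 9, 10], [7,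
    2, 11, 12]]
  P := {
    a := 6
    N := 13
    nb := [198, 977, 3305, 3588, 1602, 6276, 1047, 4391, 642, 3354, 604, 4652, 2208]
    tri := [(0, 1, 6), (0, 1, 7), (0, 2, 6), (0, 2, 7), (1, 4, 6), (1, 4, 9), (1, 7, 8), (1, 8, 9), (2,
      3, 10), (2, 3, 11), (2, 5, 7), (2, 5, 11), (2, 6, 10), (3, 9, 10), (3, 9, 11), (4, 6, 10),
      (4, 9, 10), (5, 7, 12), (5, 11, 12)]
    fin := [0, 0, 0, 3, 0, 0, 0, 0, 8, 9, 3, 11, 12]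
    chd := [(0, 9), (0, 11), (3, 11)]
    steps := [(0, 1), (0, 2), (0, 5), (0, 6), (0, 4), (0, 7), (3, 10)] }
  rep := [0, 9, 8, 11, 3, 12]

noncomputable def v396 : Cov.CovD where
  P := 3
  N := 3
  pl := [2, 6]
  lev := [⟨[], [], [(0, 0)], [], [(0, 0, [1, 3]), (1, 0, [1, 3])]⟩,
    ⟨[], [(0, 0), (0, 1)], [(0, 0), (0, 1)], [2], [(0, 0, [1, 3]), (1, 0, [1, 3]), (3, 1,
      [0])]⟩,
    ⟨[(0, 1)], [(0, 0), (0, 3), (0, 4), (1, 0)], [(0, 0), (0, 3), (0, 4), (3, 4)], [], [(0,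
      0, [1, 3]), (1, 0, [1, 3]), (4, 4, [3]), (5, 3, [0, 4])]⟩,
    ⟨[(0, 2)], [(1, 1), (2, 0), (2, 1), (2, 3), (2, 4)], [(1, 3), (1, 4), (3, 4)], [], [(3,
      1, [0]), (4, 4, [3]), (5, 3, [0, 4])]⟩,
    ⟨[(0, 1)], [(0, 0), (1, 0), (1, 1), (1, 4), (2, 0), (2, 4), (3, 1), (3, 4)], [(0, 1),
      (0, 4), (1, 4)], [], [(0, 0, [1, 3]), (3, 1, [0]), (4, 4, [3])]⟩,
    ⟨[(0, 2), (2, 3)], [(0, 0), (1, 0), (2, 0), (2, 3), (2, 4), (3, 3)], [(0, 3)], [5],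
      [(1, 0, [1, 3]), (5, 3, [0, 4])]⟩]
  Ta := [((0, 4), 0, 4), ((1, 2), 0, 2), ((1, 6), 0, 5)]
  Tb := [((1, 2, 6), 0, 2, 5), ((2, 1, 3), 2, 0, 1), ((3, 2, 4), 1, 2, 4), ((3, 2, 5), 1, 2, 3),
    ((3, 4, 5), 1, 4, 3), ((4, 0, 3), 4, 0, 1), ((5, 3, 6), 3, 1, 5), ((6, 1, 5), 5, 0, 3)]
  Tc := [(0, 1, 3), (3, 0, 4)]
  Td := [((0, 1), (0, 4), 4), ((0, 1), (1, 2), 2), ((0, 1), (1, 6), 5), ((0, 3), (0, 4), 4), ((0,
    3), (1, 2), 2), ((0, 3), (1, 6), 5), ((1, 0), (3, 2), 2), ((1, 0), (3, 4), 4), ((1, 0),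
    (3, 5), 3), ((3, 0), (5, 3), 1), ((3, 0), (5, 6), 5), ((3, 4), (5, 3), 1), ((3, 4), (5,
    6), 5), ((4, 3), (4, 0), 0), ((4, 3), (4, 3), 1)]
  G := [[0, 0x181141121e84, 0, 0x14186acd248, 0x388b4491c1e82], [0, 0x181141121e48,
    0xe81e11a8e11446, 0xe11284, 0xe11e1168e1188a]]

noncomputable def n396 : Ent := ⟨e396, noF, [], [], [(12, 8, [4116502250019204739753360285315596908646230365089793, 0])]⟩

def c396 : PLift (Cov.check n396.C.D v396 = true) := ⟨by decide +kernel⟩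

def b396 : PLift (entF (fidx ts) 400 396 n396 = true) := ⟨by decide +kernel⟩

theorem g396 : GoodF (fidx ts) 400 396 := GoodF.ofV v396 n396 c396.down b396.down

/-- 467444:341/4 -/
noncomputable def e397 : SCfg where
  D := {
    a := 6
    L := 7
    kp := 5
    inn := [(0, 1), (0, 2), (1, 0), (1, 4), (2, 0), (2, 3), (2, 5), (3, 2), (4, 1), (5, 2)]
    mix := [(0, 0), (0, 1), (1, 0), (1, 1), (1, 2), (1, 3), (2, 0), (2, 1), (2, 4), (2, 5), (3, 4), (3,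
      5), (3, 6), (4, 0), (4, 3), (4, 4), (5, 1), (5, 2), (5, 5)]
    cl := [0, 0, 2, 1, 4, 3, 5]
    chq := [(0, 1), (0, 3), (0, 5), (1, 0), (3, 0), (5, 0)]
    rng := [(0, 4), (1, 2), (2, 1), (2, 3), (2, 5), (3, 2), (3, 4), (4, 0), (4, 3), (4, 6), (5, 2), (5,
      6), (6, 4), (6, 5)]
    lev := [] }
  links := [[1, 6, 2, 7], [6, 0, 7, 8, 9, 4], [7, 0, 6, 10, 3, 11, 5], [11, 2, 10, 12], [6, 1, 9, 10],
    [7, 2, 11, 8]]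
  P := {
    a := 6
    N := 13
    nb := [198, 977, 3305, 7172, 1602, 2436, 1047, 295, 2722, 1298, 4700, 4396, 3080]
    tri := [(0, 1, 6), (0, 1, 7), (0, 2, 6), (0, 2, 7), (1, 4, 6), (1, 4, 9), (1, 7, 8), (1, 8, 9), (2,
      3, 10), (2, 3, 11), (2, 5, 7), (2, 5, 11), (2, 6, 10), (3, 10, 12), (3, 11, 12), (4, 6, 10),
      (4, 9, 10), (5, 7, 8), (5, 8, 11)]
    fin := [0, 0, 0, 0, 0, 0, 0, 0, 8, 9, 10, 11, 12]
    chd := [(0, 9), (0, 11), (0, 12)]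
    steps := [(0, 1), (0, 2), (0, 3), (0, 6), (0, 4), (0, 7), (0, 5)] }
  rep := [0, 9, 8, 11, 10, 12]

noncomputable def v397 : Cov.CovD where
  P := 3
  N := 3
  pl := [2, 4]
  lev := [⟨[], [], [(0, 0)], [], [(0, 0, [1, 3, 5]), (1, 0, [1, 3, 5])]⟩,
    ⟨[], [(0, 0), (0, 1)], [(0, 0), (0, 1)], [2], [(0, 0, [1, 3, 5]), (1, 0, [1, 3, 5]),
      (3, 1, [0])]⟩,
    ⟨[(0, 1)], [(0, 0), (0, 3), (1, 0)], [(0, 0), (0, 3)], [4], [(0, 0, [1, 3, 5]), (1, 0,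
      [1, 3, 5]), (5, 3, [0])]⟩,
    ⟨[(0, 2)], [(2, 0), (2, 3), (2, 5)], [(3, 5)], [4], [(5, 3, [0]), (6, 5, [0])]⟩,
    ⟨[(0, 1)], [(0, 0), (1, 0), (1, 1), (2, 0)], [(0, 1)], [4], [(0, 0, [1, 3, 5]), (3, 1,
      [0])]⟩,
    ⟨[(0, 2), (2, 3)], [(0, 0), (1, 0), (2, 0), (2, 3), (3, 3)], [(0, 3)], [2], [(1, 0, [1,
      3, 5]), (5, 3, [0])]⟩]
  Ta := [((0, 4), 0, 4), ((1, 2), 0, 2)]
  Tb := [((2, 1, 3), 2, 0, 1), ((2, 1, 5), 2, 0, 3), ((2, 3, 5), 2, 1, 3), ((3, 2, 4), 1, 2, 4),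
    ((4, 0, 3), 4, 0, 1), ((4, 0, 6), 4, 0, 5), ((4, 3, 6), 4, 1, 5), ((5, 2, 6), 3, 2, 5),
    ((6, 4, 5), 5, 4, 3)]
  Tc := [(0, 1, 3), (0, 1, 5), (0, 3, 5)]
  Td := [((0, 1), (0, 4), 4), ((0, 1), (1, 2), 2), ((0, 3), (0, 4), 4), ((0, 3), (1, 2), 2), ((0,
    5), (0, 4), 4), ((0, 5), (1, 2), 2), ((1, 0), (3, 2), 2), ((1, 0), (3, 4), 4), ((3, 0),
    (5, 2), 2), ((3, 0), (5, 6), 5), ((5, 0), (6, 4), 4), ((5, 0), (6, 5), 3)]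
  G := [[0, 0x881141121e84, 0, 0x84441458cf284, 0x188888d341141811c7e84], [0, 0x181441121e42,
    0x881211a4441486, 0xc11288, 0x811a11211e84]]

noncomputable def n397 : Ent := ⟨e397, noF, [], [], [(12, 9, [4116502316899662263862289648261095751715681717497857, 0])]⟩

def c397 : PLift (Cov.check n397.C.D v397 = true) := ⟨by decide +kernel⟩

def b397 : PLift (entF (fidx ts) 400 397 n397 = true) := ⟨by decide +kernel⟩

theorem g397 : GoodF (fidx ts) 400 397 := GoodF.ofV v397 n397 c397.down b397.down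

/-- 467444:341/1 -/
noncomputable def e398 : SCfg where
  D := {
    a := 6
    L := 8
    kp := 6
    inn := [(0, 1), (0, 2), (1, 0), (1, 4), (2, 0), (2, 3), (2, 5), (3, 2), (4, 1), (5, 2)]
    mix := [(0, 0), (0, 1), (1, 0), (1, 1), (1, 2), (1, 3), (2, 0), (2, 1), (2, 4), (2, 5), (3, 4), (3,
      5), (3, 6), (4, 0), (4, 3), (4, 4), (5, 1), (5, 5), (5, 7)]
    cl := [0, 0, 5, 3, 2, 1, 4, 6]
    chq := [(0, 1), (0, 3), (0, 4), (1, 0), (3, 0), (4, 0)]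
    rng := [(0, 4), (1, 2), (1, 7), (2, 1), (2, 3), (3, 2), (3, 4), (4, 0), (4, 3), (4, 6), (5, 6), (5,
      7), (6, 4), (6, 5), (7, 1), (7, 5)]
    lev := [] }
  links := [[1, 6, 2, 7], [6, 0, 7, 8, 9, 4], [7, 0, 6, 10, 3, 11, 5], [11, 2, 10, 12], [6, 1, 9, 10],
    [7, 2, 11, 13]]
  P := {
    a := 6
    N := 14
    nb := [198, 977, 3305, 7172, 1602, 10372, 1047, 8487, 642, 1298, 4700, 12332, 3080, 2208]
    tri := [(0, 1, 6), (0, 1, 7), (0, 2, 6), (0, 2, 7), (1, 4, 6), (1, 4, 9), (1, 7, 8), (1, 8, 9), (2,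
      3, 10), (2, 3, 11), (2, 5, 7), (2, 5, 11), (2, 6, 10), (3, 10, 12), (3, 11, 12), (4, 6, 10),
      (4, 9, 10), (5, 7, 13), (5, 11, 13)]
    fin := [0, 0, 0, 0, 0, 0, 0, 0, 8, 9, 10, 11, 12, 13]
    chd := [(0, 9), (0, 11), (0, 12)]
    steps := [(0, 1), (0, 2), (0, 3), (0, 5), (0, 6), (0, 4), (0, 7)] }
  rep := [0, 11, 10, 9, 12, 8, 13]

noncomputable def v398 : Cov.CovD where
  P := 3
  N := 4
  pl := [2, 4, 7]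
  lev := [⟨[], [], [(0, 0)], [], [(0, 0, [1, 3, 4]), (1, 0, [1, 3, 4])]⟩,
    ⟨[], [(0, 0), (0, 3)], [(0, 0), (0, 3)], [5], [(0, 0, [1, 3, 4]), (1, 0, [1, 3, 4]),
      (3, 3, [0])]⟩,
    ⟨[(0, 1)], [(0, 0), (0, 1), (1, 0)], [(0, 0), (0, 1)], [2], [(0, 0, [1, 3, 4]), (1, 0,
      [1, 3, 4]), (5, 1, [0])]⟩,
    ⟨[(0, 2)], [(2, 0), (2, 1), (2, 4)], [(1, 4)], [2], [(5, 1, [0]), (6, 4, [0])]⟩,
    ⟨[(0, 1)], [(0, 0), (1, 0), (1, 3), (2, 0)], [(0, 3)], [2], [(0, 0, [1, 3, 4]), (3, 3,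
      [0])]⟩,
    ⟨[(0, 2), (2, 3)], [(0, 0), (1, 0), (2, 0), (2, 1), (3, 1)], [(0, 1)], [6], [(1, 0, [1,
      3, 4]), (5, 1, [0])]⟩]
  Ta := [((0, 4), 0, 2), ((1, 2), 0, 5), ((1, 7), 0, 6)]
  Tb := [((1, 2, 7), 0, 5, 6), ((2, 1, 3), 5, 0, 3), ((3, 2, 4), 3, 5, 2), ((4, 0, 3), 2, 0, 3),
    ((4, 0, 6), 2, 0, 4), ((4, 3, 6), 2, 3, 4), ((5, 6, 7), 1, 4, 6), ((6, 4, 5), 4, 2, 1),
    ((7, 1, 5), 6, 0, 1)]
  Tc := [(0, 1, 3), (0, 1, 4), (0, 3, 4)]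
  Td := [((0, 1), (0, 4), 2), ((0, 1), (1, 2), 5), ((0, 1), (1, 7), 6), ((0, 3), (0, 4), 2), ((0,
    3), (1, 2), 5), ((0, 3), (1, 7), 6), ((0, 4), (0, 4), 2), ((0, 4), (1, 2), 5), ((0, 4),
    (1, 7), 6), ((1, 0), (5, 6), 4), ((1, 0), (5, 7), 6), ((3, 0), (3, 2), 5), ((3, 0), (3,
    4), 2), ((4, 0), (6, 4), 2), ((4, 0), (6, 5), 1)]
  G := [[0, 0xa1146118c118e4, 0x1414c41212c461818c88c, 0x1818141411c14e2, 0x181811a181218e4],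
    [0, 0x611861186118e2, 0, 0xc818c418c114e2, 0xc818c118c218e4]]

noncomputable def n398 : Ent := ⟨e398, noF, [], [], [(12, 9, [19926558533573454820922373642602280482795324270121107457, 0]), (13, 8, [18394062992640690949557788421104441214327234604876484609, 0])]⟩

def c398 : PLift (Cov.check n398.C.D v398 = true) := ⟨by decide +kernel⟩

def b398 : PLift (entF (fidx ts) 400 398 n398 = true) := ⟨by decide +kernel⟩

theorem g398 : GoodF (fidx ts) 400 398 := GoodF.ofV v398 n398 c398.down b398.down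

/-- 467444:341/6 -/
noncomputable def e399 : SCfg where
  D := {
    a := 6
    L := 7
    kp := 5
    inn := [(0, 1), (0, 2), (1, 0), (1, 4), (2, 0), (2, 3), (2, 5), (3, 2), (4, 1), (5, 2)]
    mix := [(0, 0), (0, 1), (1, 0), (1, 1), (1, 2), (1, 3), (2, 0), (2, 1), (2, 4), (2, 5), (3, 3), (3,
      4), (3, 5), (4, 0), (4, 3), (4, 6), (5, 1), (5, 2), (5, 5)]
    cl := [0, 0, 2, 1, 4, 3, 5]
    chq := [(0, 1), (0, 3), (1, 0), (3, 0), (3, 4), (4, 3)]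
    rng := [(0, 4), (0, 6), (1, 2), (2, 1), (2, 3), (2, 5), (3, 2), (3, 4), (3, 5), (3, 6), (4, 0), (4,
      3), (5, 2), (5, 3), (6, 0), (6, 3)]
    lev := [] }
  links := [[1, 6, 2, 7], [6, 0, 7, 8, 9, 4], [7, 0, 6, 10, 3, 11, 5], [11, 2, 10, 9], [6, 1, 9, 12], [7,
    2, 11, 8]]
  P := {
    a := 6
    N := 13
    nb := [198, 977, 3305, 3588, 4674, 2436, 5143, 295, 2722, 7450, 588, 812, 592]
    tri := [(0, 1, 6), (0, 1, 7), (0, 2, 6), (0, 2, 7), (1, 4, 6), (1, 4, 9), (1, 7, 8), (1, 8, 9), (2,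
      3, 10), (2, 3, 11), (2, 5, 7), (2, 5, 11), (2, 6, 10), (3, 9, 10), (3, 9, 11), (4, 6, 12),
      (4, 9, 12), (5, 7, 8), (5, 8, 11)]
    fin := [0, 0, 0, 3, 0, 0, 0, 0, 8, 9, 3, 11, 12]
    chd := [(0, 9), (0, 11), (3, 11)]
    steps := [(0, 1), (0, 2), (0, 4), (0, 6), (0, 7), (0, 5), (3, 10)] }
  rep := [0, 9, 8, 11, 3, 12]

noncomputable def v399 : Cov.CovD where
  P := 3
  N := 3
  pl := [2, 6]
  lev := [⟨[], [], [(0, 0)], [], [(0, 0, [1, 3]), (1, 0, [1, 3])]⟩,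
    ⟨[], [(0, 0), (0, 1)], [(0, 0), (0, 1)], [2], [(0, 0, [1, 3]), (1, 0, [1, 3]), (3, 1,
      [0])]⟩,
    ⟨[(0, 1)], [(0, 0), (0, 3), (0, 4), (1, 0)], [(0, 0), (0, 3), (0, 4), (3, 4)], [], [(0,
      0, [1, 3]), (1, 0, [1, 3]), (4, 4, [3]), (5, 3, [0, 4])]⟩,
    ⟨[(0, 2)], [(1, 1), (2, 0), (2, 1), (2, 3), (2, 4)], [(1, 3), (1, 4), (3, 4)], [], [(3,
      1, [0]), (4, 4, [3]), (5, 3, [0, 4])]⟩,
    ⟨[(0, 1)], [(0, 0), (1, 0), (1, 1), (2, 0), (3, 1)], [(0, 1)], [5], [(0, 0, [1, 3]),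
      (3, 1, [0])]⟩,
    ⟨[(0, 2), (2, 3)], [(0, 0), (1, 0), (2, 0), (2, 3), (2, 4), (3, 3)], [(0, 3)], [2],
      [(1, 0, [1, 3]), (5, 3, [0, 4])]⟩]
  Ta := [((0, 4), 0, 4), ((0, 6), 0, 5), ((1, 2), 0, 2)]
  Tb := [((0, 4, 6), 0, 4, 5), ((2, 1, 3), 2, 0, 1), ((2, 1, 5), 2, 0, 3), ((2, 3, 5), 2, 1, 3),
    ((3, 2, 4), 1, 2, 4), ((3, 2, 5), 1, 2, 3), ((3, 2, 6), 1, 2, 5), ((3, 4, 5), 1, 4, 3),
    ((3, 4, 6), 1, 4, 5), ((3, 5, 6), 1, 3, 5), ((4, 0, 3), 4, 0, 1), ((5, 2, 3), 3, 2, 1),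
    ((6, 0, 3), 5, 0, 1)]
  Tc := [(0, 1, 3), (3, 0, 4)]
  Td := [((0, 1), (0, 4), 4), ((0, 1), (0, 6), 5), ((0, 1), (1, 2), 2), ((0, 3), (0, 4), 4), ((0,
    3), (0, 6), 5), ((0, 3), (1, 2), 2), ((1, 0), (3, 2), 2), ((1, 0), (3, 4), 4), ((1, 0),
    (3, 5), 3), ((1, 0), (3, 6), 5), ((3, 0), (5, 2), 2), ((3, 0), (5, 3), 1), ((3, 4), (5,
    2), 2), ((3, 4), (5, 3), 1), ((4, 3), (4, 0), 0), ((4, 3), (4, 3), 1)]
  G := [[0, 0x11c1446111a2e48, 0, 0x88c44ccccd248, 0x88c181c22c9a811c4486], [0,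
    0x11c1446111a1e42, 0x4112116881188a, 0xc11288, 0x811a11211e84]]

noncomputable def n399 : Ent := ⟨e399, noF, [], [], [(10, 12, [4116502249997426668270420223653940933770597199556609, 0])]⟩

def c399 : PLift (Cov.check n399.C.D v399 = true) := ⟨by decide +kernel⟩

def b399 : PLift (entF (fidx ts) 400 399 n399 = true) := ⟨by decide +kernel⟩

theorem g399 : GoodF (fidx ts) 400 399 := GoodF.ofV v399 n399 c399.down b399.down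

/-- 467444:341/5 -/
noncomputable def e400 : SCfg where
  D := {
    a := 6
    L := 8
    kp := 6
    inn := [(0, 1), (0, 2), (1, 0), (1, 4), (2, 0), (2, 3), (2, 5), (3, 2), (4, 1), (5, 2)]
    mix := [(0, 0), (0, 1), (1, 0), (1, 1), (1, 2), (1, 3), (2, 0), (2, 1), (2, 4), (2, 5), (3, 3), (3,
      4), (3, 5), (4, 0), (4, 3), (4, 6), (5, 1), (5, 5), (5, 7)]
    cl := [0, 0, 2, 1, 4, 3, 5, 6]
    chq := [(0, 1), (0, 3), (1, 0), (3, 0), (3, 4), (4, 3)]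
    rng := [(0, 4), (0, 6), (1, 2), (1, 7), (2, 1), (2, 3), (3, 2), (3, 4), (3, 5), (3, 6), (4, 0), (4,
      3), (5, 3), (5, 7), (6, 0), (6, 3), (7, 1), (7, 5)]
    lev := [] }
  links := [[1, 6, 2, 7], [6, 0, 7, 8, 9, 4], [7, 0, 6, 10, 3, 11, 5], [11, 2, 10, 9], [6, 1, 9, 12], [7,
    2, 11, 13]]
  P := {
    a := 6
    N := 14
    nb := [198, 977, 3305, 3588, 4674, 10372, 5143, 8487, 642, 7450, 588, 8748, 592, 2208]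
    tri := [(0, 1, 6), (0, 1, 7), (0, 2, 6), (0, 2, 7), (1, 4, 6), (1, 4, 9), (1, 7, 8), (1, 8, 9), (2,
      3, 10), (2, 3, 11), (2, 5, 7), (2, 5, 11), (2, 6, 10), (3, 9, 10), (3, 9, 11), (4, 6, 12),
      (4, 9, 12), (5, 7, 13), (5, 11, 13)]
    fin := [0, 0, 0, 3, 0, 0, 0, 0, 8, 9, 3, 11, 12, 13]
    chd := [(0, 9), (0, 11), (3, 11)]
    steps := [(0, 1), (0, 2), (0, 4), (0, 5), (0, 6), (0, 7), (3, 10)] }
  rep := [0, 9, 8, 11, 3, 12, 13]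

noncomputable def v400 : Cov.CovD where
  P := 3
  N := 4
  pl := [2, 6, 7]
  lev := [⟨[], [], [(0, 0)], [], [(0, 0, [1, 3]), (1, 0, [1, 3])]⟩,
    ⟨[], [(0, 0), (0, 1)], [(0, 0), (0, 1)], [2], [(0, 0, [1, 3]), (1, 0, [1, 3]), (3, 1,
      [0])]⟩,
    ⟨[(0, 1)], [(0, 0), (0, 3), (0, 4), (1, 0)], [(0, 0), (0, 3), (0, 4), (3, 4)], [], [(0,
      0, [1, 3]), (1, 0, [1, 3]), (4, 4, [3]), (5, 3, [0, 4])]⟩,
    ⟨[(0, 2)], [(1, 1), (2, 0), (2, 1), (2, 3), (2, 4)], [(1, 3), (1, 4), (3, 4)], [], [(3,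
      1, [0]), (4, 4, [3]), (5, 3, [0, 4])]⟩,
    ⟨[(0, 1)], [(0, 0), (1, 0), (1, 1), (2, 0), (3, 1)], [(0, 1)], [5], [(0, 0, [1, 3]),
      (3, 1, [0])]⟩,
    ⟨[(0, 2), (2, 3)], [(0, 0), (1, 0), (2, 0), (2, 3), (2, 4), (3, 3)], [(0, 3)], [6],
      [(1, 0, [1, 3]), (5, 3, [0, 4])]⟩]
  Ta := [((0, 4), 0, 4), ((0, 6), 0, 5), ((1, 2), 0, 2), ((1, 7), 0, 6)]
  Tb := [((0, 4, 6), 0, 4, 5), ((1, 2, 7), 0, 2, 6), ((2, 1, 3), 2, 0, 1), ((3, 2, 4), 1, 2, 4),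
    ((3, 2, 5), 1, 2, 3), ((3, 2, 6), 1, 2, 5), ((3, 4, 5), 1, 4, 3), ((3, 4, 6), 1, 4, 5),
    ((3, 5, 6), 1, 3, 5), ((4, 0, 3), 4, 0, 1), ((5, 3, 7), 3, 1, 6), ((6, 0, 3), 5, 0, 1),
    ((7, 1, 5), 6, 0, 3)]
  Tc := [(0, 1, 3), (3, 0, 4)]
  Td := [((0, 1), (0, 4), 4), ((0, 1), (0, 6), 5), ((0, 1), (1, 2), 2), ((0, 1), (1, 7), 6), ((0,
    3), (0, 4), 4), ((0, 3), (0, 6), 5), ((0, 3), (1, 2), 2), ((0, 3), (1, 7), 6), ((1, 0),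
    (3, 2), 2), ((1, 0), (3, 4), 4), ((1, 0), (3, 5), 3), ((1, 0), (3, 6), 5), ((3, 0), (5,
    3), 1), ((3, 0), (5, 7), 6), ((3, 4), (5, 3), 1), ((3, 4), (5, 7), 6), ((4, 3), (4, 0),
    0), ((4, 3), (4, 3), 1)]
  G := [[0, 0x11c1116111c2e84, 0, 0x11c11cbbcd248, 0x53c12835c8118d4c86], [0, 0x11c111a11161e82,
    0xe11e1168e1188a, 0xe11284, 0xe11e1168e1188c]]

noncomputable def n400 : Ent := ⟨e400, noF, [], [], [(10, 12, [19926558533506552585326781773177673327977379185603166209, 0]), (13, 8, [18394062992640690949557788421104441214327234604876492801, 0])]⟩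

def c400 : PLift (Cov.check n400.C.D v400 = true) := ⟨by decide +kernel⟩

def b400 : PLift (entF (fidx ts) 400 400 n400 = true) := ⟨by decide +kernel⟩

theorem g400 : GoodF (fidx ts) 400 400 := GoodF.ofV v400 n400 c400.down b400.down

/-- 467444:341/7 -/
noncomputable def e401 : SCfg where
  D := {
    a := 6
    L := 8
    kp := 6
    inn := [(0, 1), (0, 2), (1, 0), (1, 4), (2, 0), (2, 3), (2, 5), (3, 2), (4, 1), (5, 2)]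
    mix := [(0, 0), (0, 1), (1, 0), (1, 1), (1, 2), (1, 3), (2, 0), (2, 1), (2, 4), (2, 5), (3, 4), (3,
      5), (3, 6), (4, 0), (4, 3), (4, 7), (5, 1), (5, 2), (5, 5)]
    cl := [0, 0, 2, 1, 4, 3, 5, 6]
    chq := [(0, 1), (0, 3), (0, 5), (1, 0), (3, 0), (5, 0)]
    rng := [(0, 4), (0, 7), (1, 2), (2, 1), (2, 3), (2, 5), (3, 2), (3, 7), (4, 0), (4, 6), (5, 2), (5,
      6), (6, 4), (6, 5), (7, 0), (7, 3)]
    lev := [] }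
  links := [[1, 6, 2, 7], [6, 0, 7, 8, 9, 4], [7, 0, 6, 10, 3, 11, 5], [11, 2, 10, 12], [6, 1, 9, 13],
    [7, 2, 11, 8]]
  P := {
    a := 6
    N := 14
    nb := [198, 977, 3305, 7172, 8770, 2436, 9239, 295, 2722, 8466, 4172, 4396, 3080, 592]
    tri := [(0, 1, 6), (0, 1, 7), (0, 2, 6), (0, 2, 7), (1, 4, 6), (1, 4, 9), (1, 7, 8), (1, 8, 9), (2,
      3, 10), (2, 3, 11), (2, 5, 7), (2, 5, 11), (2, 6, 10), (3, 10, 12), (3, 11, 12), (4, 6, 13),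
      (4, 9, 13), (5, 7, 8), (5, 8, 11)]
    fin := [0, 0, 0, 0, 0, 0, 0, 0, 8, 9, 10, 11, 12, 13]
    chd := [(0, 9), (0, 11), (0, 12)]
    steps := [(0, 1), (0, 2), (0, 3), (0, 4), (0, 6), (0, 7), (0, 5)] }
  rep := [0, 9, 8, 11, 10, 12, 13]

noncomputable def v401 : Cov.CovD where
  P := 3
  N := 4
  pl := [2, 4, 7]
  lev := [⟨[], [], [(0, 0)], [], [(0, 0, [1, 3, 5]), (1, 0, [1, 3, 5])]⟩,
    ⟨[], [(0, 0), (0, 1)], [(0, 0), (0, 1)], [2], [(0, 0, [1, 3, 5]), (1, 0, [1, 3, 5]),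
      (3, 1, [0])]⟩,
    ⟨[(0, 1)], [(0, 0), (0, 3), (1, 0)], [(0, 0), (0, 3)], [4], [(0, 0, [1, 3, 5]), (1, 0,
      [1, 3, 5]), (5, 3, [0])]⟩,
    ⟨[(0, 2)], [(2, 0), (2, 3), (2, 5)], [(3, 5)], [4], [(5, 3, [0]), (6, 5, [0])]⟩,
    ⟨[(0, 1)], [(0, 0), (1, 0), (1, 1), (2, 0)], [(0, 1)], [6], [(0, 0, [1, 3, 5]), (3, 1,
      [0])]⟩,
    ⟨[(0, 2), (2, 3)], [(0, 0), (1, 0), (2, 0), (2, 3), (3, 3)], [(0, 3)], [2], [(1, 0, [1,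
      3, 5]), (5, 3, [0])]⟩]
  Ta := [((0, 4), 0, 4), ((0, 7), 0, 6), ((1, 2), 0, 2)]
  Tb := [((0, 4, 7), 0, 4, 6), ((2, 1, 3), 2, 0, 1), ((2, 1, 5), 2, 0, 3), ((2, 3, 5), 2, 1, 3),
    ((3, 2, 7), 1, 2, 6), ((4, 0, 6), 4, 0, 5), ((5, 2, 6), 3, 2, 5), ((6, 4, 5), 5, 4, 3),
    ((7, 0, 3), 6, 0, 1)]
  Tc := [(0, 1, 3), (0, 1, 5), (0, 3, 5)]
  Td := [((0, 1), (0, 4), 4), ((0, 1), (0, 7), 6), ((0, 1), (1, 2), 2), ((0, 3), (0, 4), 4), ((0,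
    3), (0, 7), 6), ((0, 3), (1, 2), 2), ((0, 5), (0, 4), 4), ((0, 5), (0, 7), 6), ((0, 5),
    (1, 2), 2), ((1, 0), (3, 2), 2), ((1, 0), (3, 7), 6), ((3, 0), (5, 2), 2), ((3, 0), (5,
    6), 5), ((5, 0), (6, 4), 4), ((5, 0), (6, 5), 3)]
  G := [[0, 0x81c111a111c1e84, 0, 0x11c44c518c11cc1cb6488c184a, 0x11c22c32811c88c911c11c5c86],
    [0, 0x11a111a11161e48, 0x41144811211a8c, 0x811411c11e42, 0x811a11211e84]]

noncomputable def n401 : Ent := ⟨e401, noF, [], [], [(10, 13, [18394062992640663726968434746027364144358640063419568129, 0]), (12, 9, [19926558533573454820922373642602280482795324270121119745, 0])]⟩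

def c401 : PLift (Cov.check n401.C.D v401 = true) := ⟨by decide +kernel⟩

def b401 : PLift (entF (fidx ts) 400 401 n401 = true) := ⟨by decide +kernel⟩

theorem g401 : GoodF (fidx ts) 400 401 := GoodF.ofV v401 n401 c401.down b401.down

/-- 467444:341 -/
noncomputable def e402 : SCfg where
  D := {
    a := 6
    L := 9
    kp := 7
    inn := [(0, 1), (0, 2), (1, 0), (1, 4), (2, 0), (2, 3), (2, 5), (3, 2), (4, 1), (5, 2)]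
    mix := [(0, 0), (0, 1), (1, 0), (1, 1), (1, 2), (1, 3), (2, 0), (2, 1), (2, 4), (2, 5), (3, 4), (3,
      5), (3, 6), (4, 0), (4, 3), (4, 7), (5, 1), (5, 5), (5, 8)]
    cl := [0, 0, 5, 3, 2, 1, 4, 6, 7]
    chq := [(0, 1), (0, 3), (0, 4), (1, 0), (3, 0), (4, 0)]
    rng := [(0, 4), (0, 7), (1, 2), (1, 8), (2, 1), (2, 3), (3, 2), (3, 7), (4, 0), (4, 6), (5, 6), (5,
      8), (6, 4), (6, 5), (7, 0), (7, 3), (8, 1), (8, 5)]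
    lev := [] }
  links := [[1, 6, 2, 7], [6, 0, 7, 8, 9, 4], [7, 0, 6, 10, 3, 11, 5], [11, 2, 10, 12], [6, 1, 9, 13],
    [7, 2, 11, 14]]
  P := {
    a := 6
    N := 15
    nb := [198, 977, 3305, 7172, 8770, 18564, 9239, 16679, 642, 8466, 4172, 20524, 3080, 592, 2208]
    tri := [(0, 1, 6), (0, 1, 7), (0, 2, 6), (0, 2, 7), (1, 4, 6), (1, 4, 9), (1, 7, 8), (1, 8, 9), (2,
      3, 10), (2, 3, 11), (2, 5, 7), (2, 5, 11), (2, 6, 10), (3, 10, 12), (3, 11, 12), (4, 6, 13),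
      (4, 9, 13), (5, 7, 14), (5, 11, 14)]
    fin := [0, 0, 0, 0, 0, 0, 0, 0, 8, 9, 10, 11, 12, 13, 14]
    chd := [(0, 9), (0, 11), (0, 12)]
    steps := [(0, 1), (0, 2), (0, 3), (0, 4), (0, 5), (0, 6), (0, 7)] }
  rep := [0, 11, 10, 9, 12, 8, 13, 14]

noncomputable def v402 : Cov.CovD where
  P := 3
  N := 5
  pl := [2, 4, 7, 8]
  lev := [⟨[], [], [(0, 0)], [], [(0, 0, [1, 3, 4]), (1, 0, [1, 3, 4])]⟩,
    ⟨[], [(0, 0), (0, 3)], [(0, 0), (0, 3)], [5], [(0, 0, [1, 3, 4]), (1, 0, [1, 3, 4]),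
      (3, 3, [0])]⟩,
    ⟨[(0, 1)], [(0, 0), (0, 1), (1, 0)], [(0, 0), (0, 1)], [2], [(0, 0, [1, 3, 4]), (1, 0,
      [1, 3, 4]), (5, 1, [0])]⟩,
    ⟨[(0, 2)], [(2, 0), (2, 1), (2, 4)], [(1, 4)], [2], [(5, 1, [0]), (6, 4, [0])]⟩,
    ⟨[(0, 1)], [(0, 0), (1, 0), (1, 3), (2, 0)], [(0, 3)], [6], [(0, 0, [1, 3, 4]), (3, 3,
      [0])]⟩,
    ⟨[(0, 2), (2, 3)], [(0, 0), (1, 0), (2, 0), (2, 1), (3, 1)], [(0, 1)], [7], [(1, 0, [1,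
      3, 4]), (5, 1, [0])]⟩]
  Ta := [((0, 4), 0, 2), ((0, 7), 0, 6), ((1, 2), 0, 5), ((1, 8), 0, 7)]
  Tb := [((0, 4, 7), 0, 2, 6), ((1, 2, 8), 0, 5, 7), ((2, 1, 3), 5, 0, 3), ((3, 2, 7), 3, 5, 6),
    ((4, 0, 6), 2, 0, 4), ((5, 6, 8), 1, 4, 7), ((6, 4, 5), 4, 2, 1), ((7, 0, 3), 6, 0, 3),
    ((8, 1, 5), 7, 0, 1)]
  Tc := [(0, 1, 3), (0, 1, 4), (0, 3, 4)]
  Td := [((0, 1), (0, 4), 2), ((0, 1), (0, 7), 6), ((0, 1), (1, 2), 5), ((0, 1), (1, 8), 7), ((0,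
    3), (0, 4), 2), ((0, 3), (0, 7), 6), ((0, 3), (1, 2), 5), ((0, 3), (1, 8), 7), ((0, 4),
    (0, 4), 2), ((0, 4), (0, 7), 6), ((0, 4), (1, 2), 5), ((0, 4), (1, 8), 7), ((1, 0), (5,
    6), 4), ((1, 0), (5, 8), 7), ((3, 0), (3, 2), 5), ((3, 0), (3, 7), 6), ((4, 0), (6, 4),
    2), ((4, 0), (6, 5), 1)]
  G := [[0, 0x61186118a114e4, 0x111e4111e8c2111e111ec8111e111ec8ca, 0x111e18111e186111e148a,
    0x111e184111e18111e18ac], [0, 0xa11461186114e8, 0, 0xcc9181c3181c518e4,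
    0xcc9181c3181c518e4]]

noncomputable def n402 : Ent := ⟨e402, noF, [], [], [(10, 13, [87897818358406171357428020359653357189577334862559919529985, 0]), (12, 9, [87899350853947104148521974298549932105915771546766621081601, 0]), (14, 8, [81620716623019490626259338160855783265958941731545633329153, 0])]⟩

def c402 : PLift (Cov.check n402.C.D v402 = true) := ⟨by decide +kernel⟩

def b402 : PLift (entF (fidx ts) 400 402 n402 = true) := ⟨by decide +kernel⟩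

theorem g402 : GoodF (fidx ts) 400 402 := GoodF.ofV v402 n402 c402.down b402.down

/-- 467446:343/2 -/
noncomputable def e403 : SCfg where
  D := {
    a := 6
    L := 9
    kp := 7
    inn := [(0, 1), (0, 2), (1, 0), (1, 4), (2, 0), (2, 3), (2, 5), (3, 2), (4, 1), (5, 2)]
    mix := [(0, 0), (0, 1), (1, 0), (1, 1), (1, 2), (1, 3), (2, 0), (2, 1), (2, 4), (2, 5), (3, 3), (3,
      4), (3, 5), (4, 0), (4, 3), (4, 4), (5, 1), (5, 5), (5, 6), (5, 7), (5, 8)]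
    cl := [0, 0, 7, 3, 1, 2, 4, 5, 6]
    chq := [(0, 3), (1, 2), (1, 4), (1, 5), (1, 6), (2, 1), (3, 0), (4, 1), (5, 1), (6, 1)]
    rng := [(0, 4), (1, 2), (1, 8), (2, 1), (2, 3), (3, 2), (3, 4), (3, 5), (4, 0), (4, 3), (5, 3), (5,
      6), (6, 5), (6, 7), (7, 6), (7, 8), (8, 1), (8, 7)]
    lev := [] }
  links := [[1, 6, 2, 7], [6, 0, 7, 8, 9, 4], [7, 0, 6, 10, 3, 11, 5], [11, 2, 10, 9], [6, 1, 9, 10], [7,
    2, 11, 12, 13, 14]]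
  P := {
    a := 6
    N := 15
    nb := [198, 977, 3305, 3588, 1602, 30852, 1047, 16679, 642, 3354, 604, 4652, 10272, 20512, 8352]
    tri := [(0, 1, 6), (0, 1, 7), (0, 2, 6), (0, 2, 7), (1, 4, 6), (1, 4, 9), (1, 7, 8), (1, 8, 9), (2,
      3, 10), (2, 3, 11), (2, 5, 7), (2, 5, 11), (2, 6, 10), (3, 9, 10), (3, 9, 11), (4, 6, 10),
      (4, 9, 10), (5, 7, 14), (5, 11, 12), (5, 12, 13), (5, 13, 14)]
    fin := [0, 0, 2, 2, 0, 2, 0, 0, 8, 9, 2, 11, 12, 13, 14]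
    chd := [(0, 9), (2, 11), (2, 12), (2, 13), (2, 14)]
    steps := [(0, 1), (0, 4), (0, 6), (0, 7), (2, 3), (2, 5), (2, 10)] }
  rep := [0, 2, 11, 9, 12, 13, 14, 8]

noncomputable def v403 : Cov.CovD where
  P := 3
  N := 5
  pl := [2]
  lev := [⟨[], [], [(0, 0)], [], [(0, 0, [3]), (1, 0, [3])]⟩,
    ⟨[], [(0, 0), (0, 3)], [(0, 0), (0, 3)], [7], [(0, 0, [3]), (1, 0, [3]), (3, 3, [0])]⟩,
    ⟨[(0, 1)], [(0, 0), (0, 1), (0, 2), (1, 0)], [(0, 0), (0, 1), (0, 2), (1, 2)], [], [(0,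
      0, [3]), (1, 0, [3]), (4, 1, [2, 4, 5, 6]), (5, 2, [1])]⟩,
    ⟨[(0, 2)], [(1, 3), (2, 0), (2, 1), (2, 2), (2, 3)], [(1, 2), (1, 3), (2, 3)], [], [(3,
      3, [0]), (4, 1, [2, 4, 5, 6]), (5, 2, [1])]⟩,
    ⟨[(0, 1)], [(0, 0), (1, 0), (1, 1), (1, 3), (2, 0), (2, 1), (3, 1), (3, 3)], [(0, 1),
      (0, 3), (1, 3)], [], [(0, 0, [3]), (3, 3, [0]), (4, 1, [2, 4, 5, 6])]⟩,
    ⟨[(0, 2), (2, 3)], [(0, 0), (1, 0), (2, 0), (2, 1), (2, 2), (2, 4), (2, 5), (2, 6), (3,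
      2)], [(0, 2), (0, 4), (0, 5), (0, 6), (2, 4), (2, 5), (2, 6), (4, 5), (4, 6), (5, 6)],
      [], [(1, 0, [3]), (5, 2, [1]), (6, 4, [1]), (7, 5, [1]), (8, 6, [1])]⟩]
  Ta := [((0, 4), 0, 1), ((1, 2), 0, 7), ((1, 8), 0, 6)]
  Tb := [((1, 2, 8), 0, 7, 6), ((2, 1, 3), 7, 0, 3), ((3, 2, 4), 3, 7, 1), ((3, 2, 5), 3, 7, 2),
    ((3, 4, 5), 3, 1, 2), ((4, 0, 3), 1, 0, 3), ((5, 3, 6), 2, 3, 4), ((6, 5, 7), 4, 2, 5),
    ((7, 6, 8), 5, 4, 6), ((8, 1, 7), 6, 0, 5)]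
  Tc := [(1, 2, 4), (1, 2, 5), (1, 2, 6), (1, 4, 5), (1, 4, 6), (1, 5, 6)]
  Td := [((0, 3), (0, 4), 1), ((0, 3), (1, 2), 7), ((0, 3), (1, 8), 6), ((1, 2), (4, 0), 0), ((1,
    2), (4, 3), 3), ((1, 4), (4, 0), 0), ((1, 4), (4, 3), 3), ((1, 5), (4, 0), 0), ((1, 5),
    (4, 3), 3), ((1, 6), (4, 0), 0), ((1, 6), (4, 3), 3), ((2, 1), (5, 3), 3), ((2, 1), (5,
    6), 4), ((3, 0), (3, 2), 7), ((3, 0), (3, 4), 1), ((3, 0), (3, 5), 2), ((4, 1), (6, 5),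
    2), ((4, 1), (6, 7), 5), ((5, 1), (7, 6), 4), ((5, 1), (7, 8), 6), ((6, 1), (8, 1), 0),
    ((6, 1), (8, 7), 5)]
  G := [[0, 0x14481212c4618888c, 0x288824482824c4e2, 0x2884224822c18e4, 0x2818241822c18e2], [0,
    0, 0x218421482121c4e8, 0x281422142118e2, 0x281824182118e2]]

noncomputable def n403 : Ent := ⟨e403, noF, [], [], []⟩

def c403 : PLift (Cov.check n403.C.D v403 = true) := ⟨by decide +kernel⟩

def b403 : PLift (entF (fidx ts) 400 403 n403 = true) := ⟨by decide +kernel⟩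

theorem g403 : GoodF (fidx ts) 400 403 := GoodF.ofV v403 n403 c403.down b403.down

/-- 467446:343/3 -/
noncomputable def e404 : SCfg where
  D := {
    a := 6
    L := 9
    kp := 7
    inn := [(0, 1), (0, 2), (1, 0), (1, 4), (2, 0), (2, 3), (2, 5), (3, 2), (4, 1), (5, 2)]
    mix := [(0, 0), (0, 1), (1, 0), (1, 1), (1, 2), (1, 3), (2, 0), (2, 1), (2, 4), (2, 5), (3, 4), (3,
      5), (3, 6), (4, 0), (4, 3), (4, 4), (5, 1), (5, 2), (5, 5), (5, 7), (5, 8)]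
    cl := [0, 0, 3, 4, 1, 2, 7, 5, 6]
    chq := [(0, 4), (1, 2), (1, 3), (1, 5), (1, 6), (2, 1), (3, 1), (4, 0), (5, 1), (6, 1)]
    rng := [(0, 4), (1, 2), (2, 1), (2, 3), (2, 8), (3, 2), (3, 4), (4, 0), (4, 3), (4, 6), (5, 6), (5,
      7), (6, 4), (6, 5), (7, 5), (7, 8), (8, 2), (8, 7)]
    lev := [] }
  links := [[1, 6, 2, 7], [6, 0, 7, 8, 9, 4], [7, 0, 6, 10, 3, 11, 5], [11, 2, 10, 12], [6, 1, 9, 10],
    [7, 2, 11, 13, 14, 8]]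
  P := {
    a := 6
    N := 15
    nb := [198, 977, 3305, 7172, 1602, 27012, 1047, 295, 17058, 1298, 4700, 12332, 3080, 18464, 8480]
    tri := [(0, 1, 6), (0, 1, 7), (0, 2, 6), (0, 2, 7), (1, 4, 6), (1, 4, 9), (1, 7, 8), (1, 8, 9), (2,
      3, 10), (2, 3, 11), (2, 5, 7), (2, 5, 11), (2, 6, 10), (3, 10, 12), (3, 11, 12), (4, 6, 10),
      (4, 9, 10), (5, 7, 8), (5, 8, 14), (5, 11, 13), (5, 13, 14)]
    fin := [0, 0, 2, 2, 0, 2, 0, 0, 8, 9, 2, 11, 12, 13, 14]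
    chd := [(0, 9), (2, 11), (2, 13), (2, 14), (8, 2)]
    steps := [(0, 1), (0, 4), (0, 6), (0, 7), (2, 3), (2, 5), (2, 10)] }
  rep := [0, 2, 11, 8, 9, 13, 14, 12]

noncomputable def v404 : Cov.CovD where
  P := 3
  N := 5
  pl := [6]
  lev := [⟨[], [], [(0, 0)], [], [(0, 0, [4]), (1, 0, [4])]⟩,
    ⟨[], [(0, 0), (0, 3), (0, 4)], [(0, 0), (0, 3), (0, 4), (3, 4)], [], [(0, 0, [4]), (1,
      0, [4]), (2, 3, [1]), (3, 4, [0])]⟩,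
    ⟨[(0, 1)], [(0, 0), (0, 1), (0, 2), (1, 0)], [(0, 0), (0, 1), (0, 2), (1, 2)], [], [(0,
      0, [4]), (1, 0, [4]), (4, 1, [2, 3, 5, 6]), (5, 2, [1])]⟩,
    ⟨[(0, 2)], [(2, 0), (2, 1), (2, 2)], [(1, 2)], [7], [(4, 1, [2, 3, 5, 6]), (5, 2,
      [1])]⟩,
    ⟨[(0, 1)], [(0, 0), (1, 0), (1, 1), (1, 3), (1, 4), (2, 0), (2, 1), (3, 1)], [(0, 1),
      (0, 4), (1, 4)], [], [(0, 0, [4]), (3, 4, [0]), (4, 1, [2, 3, 5, 6])]⟩,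
    ⟨[(0, 2), (2, 3)], [(0, 0), (1, 0), (1, 3), (2, 0), (2, 1), (2, 2), (2, 3), (2, 5), (2,
      6), (3, 2)], [(0, 2), (0, 3), (0, 5), (0, 6), (2, 3), (2, 5), (2, 6), (3, 5), (3, 6),
      (5, 6)], [], [(1, 0, [4]), (2, 3, [1]), (5, 2, [1]), (7, 5, [1]), (8, 6, [1])]⟩]
  Ta := [((0, 4), 0, 1), ((1, 2), 0, 3)]
  Tb := [((2, 1, 3), 3, 0, 4), ((2, 1, 8), 3, 0, 6), ((2, 3, 8), 3, 4, 6), ((3, 2, 4), 4, 3, 1),
    ((4, 0, 3), 1, 0, 4), ((4, 0, 6), 1, 0, 7), ((4, 3, 6), 1, 4, 7), ((5, 6, 7), 2, 7, 5),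
    ((6, 4, 5), 7, 1, 2), ((7, 5, 8), 5, 2, 6), ((8, 2, 7), 6, 3, 5)]
  Tc := [(1, 2, 3), (1, 2, 5), (1, 2, 6), (1, 3, 5), (1, 3, 6), (1, 5, 6)]
  Td := [((0, 4), (0, 4), 1), ((0, 4), (1, 2), 3), ((1, 2), (4, 0), 0), ((1, 2), (4, 3), 4), ((1,
    2), (4, 6), 7), ((1, 3), (4, 0), 0), ((1, 3), (4, 3), 4), ((1, 3), (4, 6), 7), ((1, 5),
    (4, 0), 0), ((1, 5), (4, 3), 4), ((1, 5), (4, 6), 7), ((1, 6), (4, 0), 0), ((1, 6), (4,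
    3), 4), ((1, 6), (4, 6), 7), ((2, 1), (5, 6), 7), ((2, 1), (5, 7), 5), ((3, 1), (2, 1),
    0), ((3, 1), (2, 3), 4), ((3, 1), (2, 8), 6), ((4, 0), (3, 2), 3), ((4, 0), (3, 4), 1),
    ((5, 1), (7, 5), 2), ((5, 1), (7, 8), 6), ((6, 1), (8, 2), 3), ((6, 1), (8, 7), 5)]
  G := [[0, 0x1212c421818c81414c8ca, 0x2828c82424c822c22cc8e2, 0x22c22c9428,
    0x28289824249822c22c98e2], [0, 0, 0x2424c42121c462828c88c, 0x242128d824,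
    0x282898242498212198e2]]

noncomputable def n404 : Ent := ⟨e404, noF, [], [], []⟩

def c404 : PLift (Cov.check n404.C.D v404 = true) := ⟨by decide +kernel⟩

def b404 : PLift (entF (fidx ts) 400 404 n404 = true) := ⟨by decide +kernel⟩

theorem g404 : GoodF (fidx ts) 400 404 := GoodF.ofV v404 n404 c404.down b404.down

/-- 467446:343/1 -/
noncomputable def e405 : SCfg where
  D := {
    a := 6
    L := 10
    kp := 8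
    inn := [(0, 1), (0, 2), (1, 0), (1, 4), (2, 0), (2, 3), (2, 5), (3, 2), (4, 1), (5, 2)]
    mix := [(0, 0), (0, 1), (1, 0), (1, 1), (1, 2), (1, 3), (2, 0), (2, 1), (2, 4), (2, 5), (3, 4), (3,
      5), (3, 6), (4, 0), (4, 3), (4, 4), (5, 1), (5, 5), (5, 7), (5, 8), (5, 9)]
    cl := [0, 0, 7, 3, 1, 2, 8, 4, 5, 6]
    chq := [(0, 3), (1, 2), (1, 4), (1, 5), (1, 6), (2, 1), (3, 0), (4, 1), (5, 1), (6, 1)]
    rng := [(0, 4), (1, 2), (1, 9), (2, 1), (2, 3), (3, 2), (3, 4), (4, 0), (4, 3), (4, 6), (5, 6), (5,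
      7), (6, 4), (6, 5), (7, 5), (7, 8), (8, 7), (8, 9), (9, 1), (9, 8)]
    lev := [] }
  links := [[1, 6, 2, 7], [6, 0, 7, 8, 9, 4], [7, 0, 6, 10, 3, 11, 5], [11, 2, 10, 12], [6, 1, 9, 10],
    [7, 2, 11, 13, 14, 15]]
  P := {
    a := 6
    N := 16
    nb := [198, 977, 3305, 7172, 1602, 59524, 1047, 33063, 642, 1298, 4700, 12332, 3080, 18464, 40992,
      16544]
    tri := [(0, 1, 6), (0, 1, 7), (0, 2, 6), (0, 2, 7), (1, 4, 6), (1, 4, 9), (1, 7, 8), (1, 8, 9), (2,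
      3, 10), (2, 3, 11), (2, 5, 7), (2, 5, 11), (2, 6, 10), (3, 10, 12), (3, 11, 12), (4, 6, 10),
      (4, 9, 10), (5, 7, 15), (5, 11, 13), (5, 13, 14), (5, 14, 15)]
    fin := [0, 0, 2, 2, 0, 2, 0, 0, 8, 9, 2, 11, 12, 13, 14, 15]
    chd := [(0, 9), (2, 11), (2, 13), (2, 14), (2, 15)]
    steps := [(0, 1), (0, 4), (0, 6), (0, 7), (2, 3), (2, 5), (2, 10)] }
  rep := [0, 2, 11, 9, 13, 14, 15, 8, 12]

noncomputable def v405 : Cov.CovD where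
  P := 3
  N := 6
  pl := [2, 6]
  lev := [⟨[], [], [(0, 0)], [], [(0, 0, [3]), (1, 0, [3])]⟩,
    ⟨[], [(0, 0), (0, 3)], [(0, 0), (0, 3)], [7], [(0, 0, [3]), (1, 0, [3]), (3, 3, [0])]⟩,
    ⟨[(0, 1)], [(0, 0), (0, 1), (0, 2), (1, 0)], [(0, 0), (0, 1), (0, 2), (1, 2)], [], [(0,
      0, [3]), (1, 0, [3]), (4, 1, [2, 4, 5, 6]), (5, 2, [1])]⟩,
    ⟨[(0, 2)], [(2, 0), (2, 1), (2, 2)], [(1, 2)], [8], [(4, 1, [2, 4, 5, 6]), (5, 2,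
      [1])]⟩,
    ⟨[(0, 1)], [(0, 0), (1, 0), (1, 1), (1, 3), (2, 0), (2, 1), (3, 1)], [(0, 1), (0, 3),
      (1, 3)], [], [(0, 0, [3]), (3, 3, [0]), (4, 1, [2, 4, 5, 6])]⟩,
    ⟨[(0, 2), (2, 3)], [(0, 0), (1, 0), (2, 0), (2, 1), (2, 2), (2, 4), (2, 5), (2, 6), (3,
      2)], [(0, 2), (0, 4), (0, 5), (0, 6), (2, 4), (2, 5), (2, 6), (4, 5), (4, 6), (5, 6)],
      [], [(1, 0, [3]), (5, 2, [1]), (7, 4, [1]), (8, 5, [1]), (9, 6, [1])]⟩]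
  Ta := [((0, 4), 0, 1), ((1, 2), 0, 7), ((1, 9), 0, 6)]
  Tb := [((1, 2, 9), 0, 7, 6), ((2, 1, 3), 7, 0, 3), ((3, 2, 4), 3, 7, 1), ((4, 0, 3), 1, 0, 3),
    ((4, 0, 6), 1, 0, 8), ((4, 3, 6), 1, 3, 8), ((5, 6, 7), 2, 8, 4), ((6, 4, 5), 8, 1, 2),
    ((7, 5, 8), 4, 2, 5), ((8, 7, 9), 5, 4, 6), ((9, 1, 8), 6, 0, 5)]
  Tc := [(1, 2, 4), (1, 2, 5), (1, 2, 6), (1, 4, 5), (1, 4, 6), (1, 5, 6)]
  Td := [((0, 3), (0, 4), 1), ((0, 3), (1, 2), 7), ((0, 3), (1, 9), 6), ((1, 2), (4, 0), 0), ((1,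
    2), (4, 3), 3), ((1, 2), (4, 6), 8), ((1, 4), (4, 0), 0), ((1, 4), (4, 3), 3), ((1, 4),
    (4, 6), 8), ((1, 5), (4, 0), 0), ((1, 5), (4, 3), 3), ((1, 5), (4, 6), 8), ((1, 6), (4,
    0), 0), ((1, 6), (4, 3), 3), ((1, 6), (4, 6), 8), ((2, 1), (5, 6), 8), ((2, 1), (5, 7),
    4), ((3, 0), (3, 2), 7), ((3, 0), (3, 4), 1), ((4, 1), (7, 5), 2), ((4, 1), (7, 8), 5),
    ((5, 1), (8, 7), 4), ((5, 1), (8, 9), 6), ((6, 1), (9, 1), 0), ((6, 1), (9, 8), 5)]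
  G := [[0, 0x1414c41212c461818c48a, 0x2828c82424c422c22cc8e2, 0x2822c82222c822c22c58e4,
    0x28289824249822c22c98e2], [0, 0, 0x2828c42424c42121c4e2, 0x2222942421582122994e8,
    0x2828982421982122998e2]]

noncomputable def n405 : Ent := ⟨e405, noF, [], [], [(12, 9, [385753029973011613234219424136177574537434634279417047110201345, 0]), (15, 8, [360035742630636841212031212540452013763654843542796049049010177, 0])]⟩

def c405 : PLift (Cov.check n405.C.D v405 = true) := ⟨by decide +kernel⟩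

def b405 : PLift (entF (fidx ts) 400 405 n405 = true) := ⟨by decide +kernel⟩

theorem g405 : GoodF (fidx ts) 400 405 := GoodF.ofV v405 n405 c405.down b405.down

/-- 467446:343/4 -/
noncomputable def e406 : SCfg where
  D := {
    a := 6
    L := 10
    kp := 8
    inn := [(0, 1), (0, 2), (1, 0), (1, 4), (2, 0), (2, 3), (2, 5), (3, 2), (4, 1), (5, 2)]
    mix := [(0, 0), (0, 1), (1, 0), (1, 1), (1, 2), (1, 3), (2, 0), (2, 1), (2, 4), (2, 5), (3, 3), (3,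
      4), (3, 5), (4, 0), (4, 3), (4, 6), (5, 1), (5, 5), (5, 7), (5, 8), (5, 9)]
    cl := [0, 0, 7, 1, 2, 3, 8, 4, 5, 6]
    chq := [(0, 1), (1, 0), (2, 3), (2, 4), (2, 5), (2, 6), (3, 2), (4, 2), (5, 2), (6, 2)]
    rng := [(0, 4), (0, 6), (1, 2), (1, 9), (2, 1), (2, 3), (3, 2), (3, 4), (3, 5), (3, 6), (4, 0), (4,
      3), (5, 3), (5, 7), (6, 0), (6, 3), (7, 5), (7, 8), (8, 7), (8, 9), (9, 1), (9, 8)]
    lev := [] }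
  links := [[1, 6, 2, 7], [6, 0, 7, 8, 9, 4], [7, 0, 6, 10, 3, 11, 5], [11, 2, 10, 9], [6, 1, 9, 12], [7,
    2, 11, 13, 14, 15]]
  P := {
    a := 6
    N := 16
    nb := [198, 977, 3305, 3588, 4674, 59524, 5143, 33063, 642, 7450, 588, 8748, 592, 18464, 40992,
      16544]
    tri := [(0, 1, 6), (0, 1, 7), (0, 2, 6), (0, 2, 7), (1, 4, 6), (1, 4, 9), (1, 7, 8), (1, 8, 9), (2,
      3, 10), (2, 3, 11), (2, 5, 7), (2, 5, 11), (2, 6, 10), (3, 9, 10), (3, 9, 11), (4, 6, 12),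
      (4, 9, 12), (5, 7, 15), (5, 11, 13), (5, 13, 14), (5, 14, 15)]
    fin := [0, 0, 2, 2, 0, 2, 0, 0, 8, 9, 2, 11, 12, 13, 14, 15]
    chd := [(0, 9), (2, 11), (2, 13), (2, 14), (2, 15)]
    steps := [(0, 1), (0, 4), (0, 6), (0, 7), (2, 3), (2, 5), (2, 10)] }
  rep := [0, 9, 2, 11, 13, 14, 15, 8, 12]

noncomputable def v406 : Cov.CovD where
  P := 3
  N := 6
  pl := [2, 6]
  lev := [⟨[], [], [(0, 0)], [], [(0, 0, [1]), (1, 0, [1])]⟩,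
    ⟨[], [(0, 0), (0, 1)], [(0, 0), (0, 1)], [7], [(0, 0, [1]), (1, 0, [1]), (3, 1, [0])]⟩,
    ⟨[(0, 1)], [(0, 0), (0, 2), (0, 3), (1, 0)], [(0, 0), (0, 2), (0, 3), (2, 3)], [], [(0,
      0, [1]), (1, 0, [1]), (4, 2, [3, 4, 5, 6]), (5, 3, [2])]⟩,
    ⟨[(0, 2)], [(1, 1), (2, 0), (2, 1), (2, 2), (2, 3)], [(1, 2), (1, 3), (2, 3)], [], [(3,
      1, [0]), (4, 2, [3, 4, 5, 6]), (5, 3, [2])]⟩,
    ⟨[(0, 1)], [(0, 0), (1, 0), (1, 1), (2, 0), (3, 1)], [(0, 1)], [8], [(0, 0, [1]), (3,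
      1, [0])]⟩,
    ⟨[(0, 2), (2, 3)], [(0, 0), (1, 0), (2, 0), (2, 2), (2, 3), (2, 4), (2, 5), (2, 6), (3,
      3)], [(0, 3), (0, 4), (0, 5), (0, 6), (3, 4), (3, 5), (3, 6), (4, 5), (4, 6), (5, 6)],
      [], [(1, 0, [1]), (5, 3, [2]), (7, 4, [2]), (8, 5, [2]), (9, 6, [2])]⟩]
  Ta := [((0, 4), 0, 2), ((0, 6), 0, 8), ((1, 2), 0, 7), ((1, 9), 0, 6)]
  Tb := [((0, 4, 6), 0, 2, 8), ((1, 2, 9), 0, 7, 6), ((2, 1, 3), 7, 0, 1), ((3, 2, 4), 1, 7, 2),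
    ((3, 2, 5), 1, 7, 3), ((3, 2, 6), 1, 7, 8), ((3, 4, 5), 1, 2, 3), ((3, 4, 6), 1, 2, 8),
    ((3, 5, 6), 1, 3, 8), ((4, 0, 3), 2, 0, 1), ((5, 3, 7), 3, 1, 4), ((6, 0, 3), 8, 0, 1),
    ((7, 5, 8), 4, 3, 5), ((8, 7, 9), 5, 4, 6), ((9, 1, 8), 6, 0, 5)]
  Tc := [(2, 3, 4), (2, 3, 5), (2, 3, 6), (2, 4, 5), (2, 4, 6), (2, 5, 6)]
  Td := [((0, 1), (0, 4), 2), ((0, 1), (0, 6), 8), ((0, 1), (1, 2), 7), ((0, 1), (1, 9), 6), ((1,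
    0), (3, 2), 7), ((1, 0), (3, 4), 2), ((1, 0), (3, 5), 3), ((1, 0), (3, 6), 8), ((2, 3),
    (4, 0), 0), ((2, 3), (4, 3), 1), ((2, 4), (4, 0), 0), ((2, 4), (4, 3), 1), ((2, 5), (4,
    0), 0), ((2, 5), (4, 3), 1), ((2, 6), (4, 0), 0), ((2, 6), (4, 3), 1), ((3, 2), (5, 3),
    1), ((3, 2), (5, 7), 4), ((4, 2), (7, 5), 3), ((4, 2), (7, 8), 5), ((5, 2), (8, 7), 4),
    ((5, 2), (8, 9), 6), ((6, 2), (9, 1), 0), ((6, 2), (9, 8), 5)]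
  G := [[0, 0x22c822a1c22a12261ca4, 0x11c811c4c11c811c4cc2, 0x22c122c4c22c822c4cc2,
    0x44c844c1a44c844c1ac2], [0, 0x22a122c1c22612261ca4, 0, 0x218214c211214cc2,
    0x418411a418411ac2]]

noncomputable def n406 : Ent := ⟨e406, noF, [], [], [(10, 12, [385753029973011613167317188540585705112827479461471962592260097, 0])]⟩

def c406 : PLift (Cov.check n406.C.D v406 = true) := ⟨by decide +kernel⟩

def b406 : PLift (entF (fidx ts) 400 406 n406 = true) := ⟨by decide +kernel⟩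

theorem g406 : GoodF (fidx ts) 400 406 := GoodF.ofV v406 n406 c406.down b406.down

/-- 467446:343/6 -/
noncomputable def e407 : SCfg where
  D := {
    a := 6
    L := 9
    kp := 7
    inn := [(0, 1), (0, 2), (1, 0), (1, 4), (2, 0), (2, 3), (2, 5), (3, 2), (4, 1), (5, 2)]
    mix := [(0, 0), (0, 1), (1, 0), (1, 1), (1, 2), (1, 3), (2, 0), (2, 1), (2, 4), (2, 5), (3, 4), (3,
      5), (3, 6), (4, 0), (4, 3), (4, 7), (5, 1), (5, 2), (5, 3), (5, 5), (5, 8)]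
    cl := [0, 0, 4, 3, 2, 1, 6, 7, 5]
    chq := [(0, 3), (1, 2), (2, 1), (2, 3), (2, 4), (2, 5), (3, 0), (3, 2), (4, 2), (5, 2)]
    rng := [(0, 4), (0, 7), (1, 2), (2, 1), (2, 3), (3, 2), (3, 7), (3, 8), (4, 0), (4, 6), (5, 6), (5,
      8), (6, 4), (6, 5), (7, 0), (7, 3), (8, 3), (8, 5)]
    lev := [] }
  links := [[1, 6, 2, 7], [6, 0, 7, 8, 9, 4], [7, 0, 6, 10, 3, 11, 5], [11, 2, 10, 12], [6, 1, 9, 13],
    [7, 2, 11, 14, 9, 8]]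
  P := {
    a := 6
    N := 15
    nb := [198, 977, 3305, 7172, 8770, 19332, 9239, 295, 674, 24882, 4172, 20524, 3080, 592, 2592]
    tri := [(0, 1, 6), (0, 1, 7), (0, 2, 6), (0, 2, 7), (1, 4, 6), (1, 4, 9), (1, 7, 8), (1, 8, 9), (2,
      3, 10), (2, 3, 11), (2, 5, 7), (2, 5, 11), (2, 6, 10), (3, 10, 12), (3, 11, 12), (4, 6, 13),
      (4, 9, 13), (5, 7, 8), (5, 8, 9), (5, 9, 14), (5, 11, 14)]
    fin := [0, 0, 2, 2, 0, 2, 0, 0, 8, 9, 2, 11, 12, 13, 14]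
    chd := [(0, 9), (2, 11), (2, 14), (8, 2), (9, 2)]
    steps := [(0, 1), (0, 4), (0, 6), (0, 7), (2, 3), (2, 5), (2, 10)] }
  rep := [0, 11, 2, 9, 8, 14, 12, 13]

noncomputable def v407 : Cov.CovD where
  P := 3
  N := 5
  pl := [6, 7]
  lev := [⟨[], [], [(0, 0)], [], [(0, 0, [3]), (1, 0, [3])]⟩,
    ⟨[], [(0, 0), (0, 3), (0, 4)], [(0, 0), (0, 3), (0, 4), (3, 4)], [], [(0, 0, [3]), (1,
      0, [3]), (2, 4, [2]), (3, 3, [0, 2])]⟩,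
    ⟨[(0, 1)], [(0, 0), (0, 1), (0, 2), (1, 0)], [(0, 0), (0, 1), (0, 2), (1, 2)], [], [(0,
      0, [3]), (1, 0, [3]), (4, 2, [1, 3, 4, 5]), (5, 1, [2])]⟩,
    ⟨[(0, 2)], [(2, 0), (2, 1), (2, 2)], [(1, 2)], [6], [(4, 2, [1, 3, 4, 5]), (5, 1,
      [2])]⟩,
    ⟨[(0, 1)], [(0, 0), (1, 0), (1, 3), (1, 4), (2, 0)], [(0, 3)], [7], [(0, 0, [3]), (3,
      3, [0, 2])]⟩,
    ⟨[(0, 2), (2, 3)], [(0, 0), (1, 0), (1, 3), (1, 4), (2, 0), (2, 1), (2, 2), (2, 3), (2,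
      4), (2, 5), (3, 1), (4, 3)], [(0, 1), (0, 3), (0, 4), (0, 5), (1, 3), (1, 4), (1, 5),
      (3, 4), (3, 5), (4, 5)], [], [(1, 0, [3]), (2, 4, [2]), (3, 3, [0, 2]), (5, 1, [2]),
      (8, 5, [2])]⟩]
  Ta := [((0, 4), 0, 2), ((0, 7), 0, 7), ((1, 2), 0, 4)]
  Tb := [((0, 4, 7), 0, 2, 7), ((2, 1, 3), 4, 0, 3), ((3, 2, 7), 3, 4, 7), ((3, 2, 8), 3, 4, 5),
    ((3, 7, 8), 3, 7, 5), ((4, 0, 6), 2, 0, 6), ((5, 6, 8), 1, 6, 5), ((6, 4, 5), 6, 2, 1),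
    ((7, 0, 3), 7, 0, 3), ((8, 3, 5), 5, 3, 1)]
  Tc := [(2, 1, 3), (2, 1, 4), (2, 1, 5), (2, 3, 4), (2, 3, 5), (2, 4, 5), (3, 0, 2)]
  Td := [((0, 3), (0, 4), 2), ((0, 3), (0, 7), 7), ((0, 3), (1, 2), 4), ((1, 2), (5, 6), 6), ((1,
    2), (5, 8), 5), ((2, 1), (4, 0), 0), ((2, 1), (4, 6), 6), ((2, 3), (4, 0), 0), ((2, 3),
    (4, 6), 6), ((2, 4), (4, 0), 0), ((2, 4), (4, 6), 6), ((2, 5), (4, 0), 0), ((2, 5), (4,
    6), 6), ((3, 0), (3, 2), 4), ((3, 0), (3, 7), 7), ((3, 0), (3, 8), 5), ((3, 2), (3, 2),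
    4), ((3, 2), (3, 7), 7), ((3, 2), (3, 8), 5), ((4, 2), (2, 1), 0), ((4, 2), (2, 3), 3),
    ((5, 2), (8, 3), 3), ((5, 2), (8, 5), 1)]
  G := [[0, 0x222e28222e222ec8a222e2446, 0x111e111ec4111e111ec46111e111ec88c, 0x222e222e9424,
    0x9448444e48a444e98444ed846], [0, 0x22524229242227222dc4e8, 0, 0x222d222d9422,
    0x444748444b444b984148e2]]

noncomputable def n407 : Ent := ⟨e407, noF, [], [], []⟩

def c407 : PLift (Cov.check n407.C.D v407 = true) := ⟨by decide +kernel⟩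

def b407 : PLift (entF (fidx ts) 400 407 n407 = true) := ⟨by decide +kernel⟩

theorem g407 : GoodF (fidx ts) 400 407 := GoodF.ofV v407 n407 c407.down b407.down

/-- 467446:343/5 -/
noncomputable def e408 : SCfg where
  D := {
    a := 6
    L := 10
    kp := 8
    inn := [(0, 1), (0, 2), (1, 0), (1, 4), (2, 0), (2, 3), (2, 5), (3, 2), (4, 1), (5, 2)]
    mix := [(0, 0), (0, 1), (1, 0), (1, 1), (1, 2), (1, 3), (2, 0), (2, 1), (2, 4), (2, 5), (3, 4), (3,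
      5), (3, 6), (4, 0), (4, 3), (4, 7), (5, 1), (5, 3), (5, 5), (5, 8), (5, 9)]
    cl := [0, 0, 6, 1, 2, 3, 7, 8, 4, 5]
    chq := [(0, 1), (1, 0), (1, 2), (2, 1), (2, 3), (2, 4), (2, 5), (3, 2), (4, 2), (5, 2)]
    rng := [(0, 4), (0, 7), (1, 2), (1, 9), (2, 1), (2, 3), (3, 2), (3, 7), (3, 8), (3, 9), (4, 0), (4,
      6), (5, 6), (5, 8), (6, 4), (6, 5), (7, 0), (7, 3), (8, 3), (8, 5), (9, 1), (9, 3)]
    lev := [] }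
  links := [[1, 6, 2, 7], [6, 0, 7, 8, 9, 4], [7, 0, 6, 10, 3, 11, 5], [11, 2, 10, 12], [6, 1, 9, 13],
    [7, 2, 11, 14, 9, 15]]
  P := {
    a := 6
    N := 16
    nb := [198, 977, 3305, 7172, 8770, 51844, 9239, 33063, 642, 57650, 4172, 20524, 3080, 592, 2592,
      672]
    tri := [(0, 1, 6), (0, 1, 7), (0, 2, 6), (0, 2, 7), (1, 4, 6), (1, 4, 9), (1, 7, 8), (1, 8, 9), (2,
      3, 10), (2, 3, 11), (2, 5, 7), (2, 5, 11), (2, 6, 10), (3, 10, 12), (3, 11, 12), (4, 6, 13),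
      (4, 9, 13), (5, 7, 15), (5, 9, 14), (5, 9, 15), (5, 11, 14)]
    fin := [0, 0, 2, 2, 0, 2, 0, 0, 8, 9, 2, 11, 12, 13, 14, 15]
    chd := [(0, 9), (2, 11), (2, 14), (2, 15), (9, 2)]
    steps := [(0, 1), (0, 4), (0, 6), (0, 7), (2, 3), (2, 5), (2, 10)] }
  rep := [0, 9, 2, 11, 14, 15, 8, 12, 13]

noncomputable def v408 : Cov.CovD where
  P := 3
  N := 6
  pl := [2, 6, 7]
  lev := [⟨[], [], [(0, 0)], [], [(0, 0, [1]), (1, 0, [1])]⟩,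
    ⟨[], [(0, 0), (0, 1)], [(0, 0), (0, 1)], [6], [(0, 0, [1]), (1, 0, [1]), (3, 1, [0,
      2])]⟩,
    ⟨[(0, 1)], [(0, 0), (0, 2), (0, 3), (1, 0)], [(0, 0), (0, 2), (0, 3), (2, 3)], [], [(0,
      0, [1]), (1, 0, [1]), (4, 2, [1, 3, 4, 5]), (5, 3, [2])]⟩,
    ⟨[(0, 2)], [(2, 0), (2, 2), (2, 3)], [(2, 3)], [7], [(4, 2, [1, 3, 4, 5]), (5, 3,
      [2])]⟩,
    ⟨[(0, 1)], [(0, 0), (1, 0), (1, 1), (2, 0)], [(0, 1)], [8], [(0, 0, [1]), (3, 1, [0,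
      2])]⟩,
    ⟨[(0, 2), (2, 3)], [(0, 0), (1, 0), (1, 1), (2, 0), (2, 1), (2, 2), (2, 3), (2, 4), (2,
      5), (3, 3), (4, 1)], [(0, 1), (0, 3), (0, 4), (0, 5), (1, 3), (1, 4), (1, 5), (3, 4),
      (3, 5), (4, 5)], [], [(1, 0, [1]), (3, 1, [0, 2]), (5, 3, [2]), (8, 4, [2]), (9, 5,
      [2])]⟩]
  Ta := [((0, 4), 0, 2), ((0, 7), 0, 8), ((1, 2), 0, 6), ((1, 9), 0, 5)]
  Tb := [((0, 4, 7), 0, 2, 8), ((1, 2, 9), 0, 6, 5), ((2, 1, 3), 6, 0, 1), ((3, 2, 7), 1, 6, 8),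
    ((3, 2, 8), 1, 6, 4), ((3, 2, 9), 1, 6, 5), ((3, 7, 8), 1, 8, 4), ((3, 7, 9), 1, 8, 5),
    ((3, 8, 9), 1, 4, 5), ((4, 0, 6), 2, 0, 7), ((5, 6, 8), 3, 7, 4), ((6, 4, 5), 7, 2, 3),
    ((7, 0, 3), 8, 0, 1), ((8, 3, 5), 4, 1, 3), ((9, 1, 3), 5, 0, 1)]
  Tc := [(1, 0, 2), (2, 1, 3), (2, 1, 4), (2, 1, 5), (2, 3, 4), (2, 3, 5), (2, 4, 5)]
  Td := [((0, 1), (0, 4), 2), ((0, 1), (0, 7), 8), ((0, 1), (1, 2), 6), ((0, 1), (1, 9), 5), ((1,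
    0), (3, 2), 6), ((1, 0), (3, 7), 8), ((1, 0), (3, 8), 4), ((1, 0), (3, 9), 5), ((1, 2),
    (3, 2), 6), ((1, 2), (3, 7), 8), ((1, 2), (3, 8), 4), ((1, 2), (3, 9), 5), ((2, 1), (4,
    0), 0), ((2, 1), (4, 6), 7), ((2, 3), (4, 0), 0), ((2, 3), (4, 6), 7), ((2, 4), (4, 0),
    0), ((2, 4), (4, 6), 7), ((2, 5), (4, 0), 0), ((2, 5), (4, 6), 7), ((3, 2), (5, 6), 7),
    ((3, 2), (5, 8), 4), ((4, 2), (8, 3), 1), ((4, 2), (8, 5), 3), ((5, 2), (9, 1), 0), ((5,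
    2), (9, 3), 1)]
  G := [[0, 0x2422c922225c2222c928245c28824285ce2, 0x11c11cc11c11ca6411c11cc11c11c6a8c,
    0x22c222c2c22c222c2cc2, 0x442244c44c32c4822844c44c944c1a44c44c98ce], [0,
    0x22c22c922c2265c22a226922a22a5cc2, 0, 0x212212c212212cc2, 0x4141941413a414132c41419846]]

noncomputable def n408 : Ent := ⟨e408, noF, [], [], [(15, 8, [360035742630636841212031212540452013763654843542796049049022465, 0])]⟩

def c408 : PLift (Cov.check n408.C.D v408 = true) := ⟨by decide +kernel⟩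

def b408 : PLift (entF (fidx ts) 400 408 n408 = true) := ⟨by decide +kernel⟩

theorem g408 : GoodF (fidx ts) 400 408 := GoodF.ofV v408 n408 c408.down b408.down

/-- 467446:343/7 -/
noncomputable def e409 : SCfg where
  D := {
    a := 6
    L := 10
    kp := 8
    inn := [(0, 1), (0, 2), (1, 0), (1, 4), (2, 0), (2, 3), (2, 5), (3, 2), (4, 1), (5, 2)]
    mix := [(0, 0), (0, 1), (1, 0), (1, 1), (1, 2), (1, 3), (2, 0), (2, 1), (2, 4), (2, 5), (3, 4), (3,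
      5), (3, 6), (4, 0), (4, 3), (4, 7), (5, 1), (5, 2), (5, 5), (5, 8), (5, 9)]
    cl := [0, 0, 2, 4, 1, 3, 7, 8, 5, 6]
    chq := [(0, 4), (1, 2), (1, 3), (1, 5), (1, 6), (2, 1), (3, 1), (4, 0), (5, 1), (6, 1)]
    rng := [(0, 4), (0, 7), (1, 2), (2, 1), (2, 3), (2, 9), (3, 2), (3, 7), (4, 0), (4, 6), (5, 6), (5,
      8), (6, 4), (6, 5), (7, 0), (7, 3), (8, 5), (8, 9), (9, 2), (9, 8)]
    lev := [] }
  links := [[1, 6, 2, 7], [6, 0, 7, 8, 9, 4], [7, 0, 6, 10, 3, 11, 5], [11, 2, 10, 12], [6, 1, 9, 13],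
    [7, 2, 11, 14, 15, 8]]
  P := {
    a := 6
    N := 16
    nb := [198, 977, 3305, 7172, 8770, 51588, 9239, 295, 33442, 8466, 4172, 20524, 3080, 592, 34848,
      16672]
    tri := [(0, 1, 6), (0, 1, 7), (0, 2, 6), (0, 2, 7), (1, 4, 6), (1, 4, 9), (1, 7, 8), (1, 8, 9), (2,
      3, 10), (2, 3, 11), (2, 5, 7), (2, 5, 11), (2, 6, 10), (3, 10, 12), (3, 11, 12), (4, 6, 13),
      (4, 9, 13), (5, 7, 8), (5, 8, 15), (5, 11, 14), (5, 14, 15)]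
    fin := [0, 0, 2, 2, 0, 2, 0, 0, 8, 9, 2, 11, 12, 13, 14, 15]
    chd := [(0, 9), (2, 11), (2, 14), (2, 15), (8, 2)]
    steps := [(0, 1), (0, 4), (0, 6), (0, 7), (2, 3), (2, 5), (2, 10)] }
  rep := [0, 2, 8, 11, 9, 14, 15, 12, 13]

noncomputable def v409 : Cov.CovD where
  P := 3
  N := 6
  pl := [6, 7]
  lev := [⟨[], [], [(0, 0)], [], [(0, 0, [4]), (1, 0, [4])]⟩,
    ⟨[], [(0, 0), (0, 2), (0, 4)], [(0, 0), (0, 2), (0, 4), (2, 4)], [], [(0, 0, [4]), (1,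
      0, [4]), (2, 2, [1]), (3, 4, [0])]⟩,
    ⟨[(0, 1)], [(0, 0), (0, 1), (0, 3), (1, 0)], [(0, 0), (0, 1), (0, 3), (1, 3)], [], [(0,
      0, [4]), (1, 0, [4]), (4, 1, [2, 3, 5, 6]), (5, 3, [1])]⟩,
    ⟨[(0, 2)], [(2, 0), (2, 1), (2, 3)], [(1, 3)], [7], [(4, 1, [2, 3, 5, 6]), (5, 3,
      [1])]⟩,
    ⟨[(0, 1)], [(0, 0), (1, 0), (1, 2), (1, 4), (2, 0)], [(0, 4)], [8], [(0, 0, [4]), (3,
      4, [0])]⟩,
    ⟨[(0, 2), (2, 3)], [(0, 0), (1, 0), (1, 2), (2, 0), (2, 1), (2, 2), (2, 3), (2, 5), (2,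
      6), (3, 3)], [(0, 2), (0, 3), (0, 5), (0, 6), (2, 3), (2, 5), (2, 6), (3, 5), (3, 6),
      (5, 6)], [], [(1, 0, [4]), (2, 2, [1]), (5, 3, [1]), (8, 5, [1]), (9, 6, [1])]⟩]
  Ta := [((0, 4), 0, 1), ((0, 7), 0, 8), ((1, 2), 0, 2)]
  Tb := [((0, 4, 7), 0, 1, 8), ((2, 1, 3), 2, 0, 4), ((2, 1, 9), 2, 0, 6), ((2, 3, 9), 2, 4, 6),
    ((3, 2, 7), 4, 2, 8), ((4, 0, 6), 1, 0, 7), ((5, 6, 8), 3, 7, 5), ((6, 4, 5), 7, 1, 3),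
    ((7, 0, 3), 8, 0, 4), ((8, 5, 9), 5, 3, 6), ((9, 2, 8), 6, 2, 5)]
  Tc := [(1, 2, 3), (1, 2, 5), (1, 2, 6), (1, 3, 5), (1, 3, 6), (1, 5, 6)]
  Td := [((0, 4), (0, 4), 1), ((0, 4), (0, 7), 8), ((0, 4), (1, 2), 2), ((1, 2), (4, 0), 0), ((1,
    2), (4, 6), 7), ((1, 3), (4, 0), 0), ((1, 3), (4, 6), 7), ((1, 5), (4, 0), 0), ((1, 5),
    (4, 6), 7), ((1, 6), (4, 0), 0), ((1, 6), (4, 6), 7), ((2, 1), (2, 1), 0), ((2, 1), (2,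
    3), 4), ((2, 1), (2, 9), 6), ((3, 1), (5, 6), 7), ((3, 1), (5, 8), 5), ((4, 0), (3, 2),
    2), ((4, 0), (3, 7), 8), ((5, 1), (8, 5), 3), ((5, 1), (8, 9), 6), ((6, 1), (9, 2), 2),
    ((6, 1), (9, 8), 5)]
  G := [[0, 0x11622411a811a2a811a4411681164cce, 0, 0x22a222a2c22622262cc2,
    0x22622654222622698222c22c922c22c5c8e], [0, 0, 0x2121921215c2121921215c62,
    0x22a222a2c212212cc2, 0x22c22c922c22c5c2121921215ca2]]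

noncomputable def n409 : Ent := ⟨e409, noF, [], [], [(10, 13, [385753028440516072301428330182238677962518295842732840408662017, 0]), (15, 9, [360035742630636841345797572106540607504961255222653860045221889, 0])]⟩

def c409 : PLift (Cov.check n409.C.D v409 = true) := ⟨by decide +kernel⟩

def b409 : PLift (entF (fidx ts) 400 409 n409 = true) := ⟨by decide +kernel⟩

theorem g409 : GoodF (fidx ts) 400 409 := GoodF.ofV v409 n409 c409.down b409.down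

/-- 467446:343 -/
noncomputable def e410 : SCfg where
  D := {
    a := 6
    L := 11
    kp := 9
    inn := [(0, 1), (0, 2), (1, 0), (1, 4), (2, 0), (2, 3), (2, 5), (3, 2), (4, 1), (5, 2)]
    mix := [(0, 0), (0, 1), (1, 0), (1, 1), (1, 2), (1, 3), (2, 0), (2, 1), (2, 4), (2, 5), (3, 4), (3,
      5), (3, 6), (4, 0), (4, 3), (4, 7), (5, 1), (5, 5), (5, 8), (5, 9), (5, 10)]
    cl := [0, 0, 7, 3, 2, 1, 8, 9, 4, 5, 6]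
    chq := [(0, 3), (1, 2), (2, 1), (2, 4), (2, 5), (2, 6), (3, 0), (4, 2), (5, 2), (6, 2)]
    rng := [(0, 4), (0, 7), (1, 2), (1, 10), (2, 1), (2, 3), (3, 2), (3, 7), (4, 0), (4, 6), (5, 6),
      (5, 8), (6, 4), (6, 5), (7, 0), (7, 3), (8, 5), (8, 9), (9, 8), (9, 10), (10, 1), (10, 9)]
    lev := [] }
  links := [[1, 6, 2, 7], [6, 0, 7, 8, 9, 4], [7, 0, 6, 10, 3, 11, 5], [11, 2, 10, 12], [6, 1, 9, 13],
    [7, 2, 11, 14, 15, 16]]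
  P := {
    a := 6
    N := 17
    nb := [198, 977, 3305, 7172, 8770, 116868, 9239, 65831, 642, 8466, 4172, 20524, 3080, 592, 34848,
      81952, 32928]
    tri := [(0, 1, 6), (0, 1, 7), (0, 2, 6), (0, 2, 7), (1, 4, 6), (1, 4, 9), (1, 7, 8), (1, 8, 9), (2,
      3, 10), (2, 3, 11), (2, 5, 7), (2, 5, 11), (2, 6, 10), (3, 10, 12), (3, 11, 12), (4, 6, 13),
      (4, 9, 13), (5, 7, 16), (5, 11, 14), (5, 14, 15), (5, 15, 16)]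
    fin := [0, 0, 2, 2, 0, 2, 0, 0, 8, 9, 2, 11, 12, 13, 14, 15, 16]
    chd := [(0, 9), (2, 11), (2, 14), (2, 15), (2, 16)]
    steps := [(0, 1), (0, 4), (0, 6), (0, 7), (2, 3), (2, 5), (2, 10)] }
  rep := [0, 11, 2, 9, 14, 15, 16, 8, 12, 13]

noncomputable def v410 : Cov.CovD where
  P := 3
  N := 7
  pl := [2, 6, 7]
  lev := [⟨[], [], [(0, 0)], [], [(0, 0, [3]), (1, 0, [3])]⟩,
    ⟨[], [(0, 0), (0, 3)], [(0, 0), (0, 3)], [7], [(0, 0, [3]), (1, 0, [3]), (3, 3, [0])]⟩,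
    ⟨[(0, 1)], [(0, 0), (0, 1), (0, 2), (1, 0)], [(0, 0), (0, 1), (0, 2), (1, 2)], [], [(0,
      0, [3]), (1, 0, [3]), (4, 2, [1, 4, 5, 6]), (5, 1, [2])]⟩,
    ⟨[(0, 2)], [(2, 0), (2, 1), (2, 2)], [(1, 2)], [8], [(4, 2, [1, 4, 5, 6]), (5, 1,
      [2])]⟩,
    ⟨[(0, 1)], [(0, 0), (1, 0), (1, 3), (2, 0)], [(0, 3)], [9], [(0, 0, [3]), (3, 3, [0])]⟩,
    ⟨[(0, 2), (2, 3)], [(0, 0), (1, 0), (2, 0), (2, 1), (2, 2), (2, 4), (2, 5), (2, 6), (3,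
      1)], [(0, 1), (0, 4), (0, 5), (0, 6), (1, 4), (1, 5), (1, 6), (4, 5), (4, 6), (5, 6)],
      [], [(1, 0, [3]), (5, 1, [2]), (8, 4, [2]), (9, 5, [2]), (10, 6, [2])]⟩]
  Ta := [((0, 4), 0, 2), ((0, 7), 0, 9), ((1, 2), 0, 7), ((1, 10), 0, 6)]
  Tb := [((0, 4, 7), 0, 2, 9), ((1, 2, 10), 0, 7, 6), ((2, 1, 3), 7, 0, 3), ((3, 2, 7), 3, 7, 9),
    ((4, 0, 6), 2, 0, 8), ((5, 6, 8), 1, 8, 4), ((6, 4, 5), 8, 2, 1), ((7, 0, 3), 9, 0, 3),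
    ((8, 5, 9), 4, 1, 5), ((9, 8, 10), 5, 4, 6), ((10, 1, 9), 6, 0, 5)]
  Tc := [(2, 1, 4), (2, 1, 5), (2, 1, 6), (2, 4, 5), (2, 4, 6), (2, 5, 6)]
  Td := [((0, 3), (0, 4), 2), ((0, 3), (0, 7), 9), ((0, 3), (1, 2), 7), ((0, 3), (1, 10), 6),
    ((1, 2), (5, 6), 8), ((1, 2), (5, 8), 4), ((2, 1), (4, 0), 0), ((2, 1), (4, 6), 8), ((2,
    4), (4, 0), 0), ((2, 4), (4, 6), 8), ((2, 5), (4, 0), 0), ((2, 5), (4, 6), 8), ((2, 6),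
    (4, 0), 0), ((2, 6), (4, 6), 8), ((3, 0), (3, 2), 7), ((3, 0), (3, 7), 9), ((4, 2), (8,
    5), 1), ((4, 2), (8, 9), 5), ((5, 2), (9, 8), 4), ((5, 2), (9, 10), 6), ((6, 2), (10, 1),
    0), ((6, 2), (10, 9), 5)]
  G := [[0, 0x222e222ec82222e222ec4222e222ec8c6, 0x111e111ec811a48111e111ec8e111e14c446,
    0x222e222e582222e222e94222e222ec4c6, 0x444e444e982444e444e98444e444e98c6], [0,
    0x223225c4225229c4229223c4e8, 0, 0x229222e94223215822522994e4,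
    0x445444e98443444d984494198e2]]

noncomputable def n410 : Ent := ⟨e410, noF, [], [], [(10, 13, [1685382419725355503238989871268909155780284044704628512909401083905, 0]), (12, 9, [1685382419726887998779922662362863094676858961043065197116102631425, 0]), (15, 9, [1685356702439545624008034240510833457709826487664008433929037643777, 0]), (16, 8, [1580044410770988437309982451912114807532205501265773183772021854209, 0])]⟩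

def c410 : PLift (Cov.check n410.C.D v410 = true) := ⟨by decide +kernel⟩

def b410 : PLift (entF (fidx ts) 400 410 n410 = true) := ⟨by decide +kernel⟩

theorem g410 : GoodF (fidx ts) 400 410 := GoodF.ofV v410 n410 c410.down b410.down

/-- 467467:349 -/
noncomputable def e411 : SCfg where
  D := {
    a := 6
    L := 11
    kp := 8
    inn := [(0, 1), (0, 2), (0, 5), (1, 0), (1, 4), (1, 5), (2, 0), (2, 3), (2, 5), (3, 2), (4, 1), (4,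
      5), (5, 0), (5, 1), (5, 2), (5, 4)]
    mix := [(0, 0), (1, 0), (1, 1), (1, 2), (2, 0), (2, 3), (2, 4), (2, 5), (3, 3), (3, 4), (3, 6), (4,
      2), (4, 7), (4, 8), (4, 9), (5, 3), (5, 9), (5, 10)]
    cl := [0, 5, 3, 1, 2, 1, 6, 7, 8, 3, 4]
    chq := [(0, 3), (0, 4), (3, 0), (4, 0)]
    rng := [(0, 1), (0, 5), (1, 0), (1, 2), (2, 1), (2, 7), (3, 6), (3, 10), (4, 5), (4, 6), (5, 0),
      (5, 4), (6, 3), (6, 4), (7, 2), (7, 8), (8, 7), (8, 9), (9, 8), (9, 10), (10, 3), (10, 9)]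
    lev := [] }
  links := [[1, 5, 2, 6], [5, 0, 6, 7, 8, 4], [6, 0, 5, 9, 3, 10, 11], [10, 2, 9, 12], [5, 1, 8, 13, 14,
    15], [9, 2, 0, 1, 4, 15, 16]]
  P := {
    a := 6
    N := 17
    nb := [102, 497, 3689, 5636, 57634, 98839, 2183, 322, 8338, 69676, 6156, 1092, 1544, 16656, 40976,
      81968, 33312]
    tri := [(0, 1, 5), (0, 1, 6), (0, 2, 5), (0, 2, 6), (1, 4, 5), (1, 4, 8), (1, 6, 7), (1, 7, 8), (2,
      3, 9), (2, 3, 10), (2, 5, 9), (2, 6, 11), (2, 10, 11), (3, 9, 12), (3, 10, 12), (4, 5, 15),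
      (4, 8, 13), (4, 13, 14), (4, 14, 15), (5, 9, 16), (5, 15, 16)]
    fin := [0, 0, 2, 2, 4, 0, 0, 7, 4, 2, 10, 2, 12, 13, 14, 4, 16]
    chd := [(0, 4), (0, 16)]
    steps := [(0, 1), (0, 5), (0, 6), (2, 3), (2, 9), (2, 11), (4, 8), (4, 15)] }
  rep := [0, 2, 10, 4, 16, 7, 12, 13, 14]

noncomputable def v411 : Cov.CovD where
  P := 3
  N := 6
  pl := [1, 4, 6, 7, 8]
  lev := [⟨[], [], [], [], [(0, 0, [3, 4])]⟩,
    ⟨[], [(0, 0), (0, 3)], [(0, 3)], [5], [(0, 0, [3, 4]), (2, 3, [0])]⟩,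
    ⟨[(0, 1)], [(0, 0), (0, 1), (1, 0)], [(0, 1), (1, 1)], [2], [(0, 0, [3, 4]), (3, 1,
      []), (5, 1, [])]⟩,
    ⟨[(0, 2)], [(2, 0), (2, 1)], [], [2, 6], [(3, 1, [])]⟩,
    ⟨[(0, 1)], [(1, 0), (1, 3)], [(3, 3)], [7, 8], [(2, 3, [0]), (9, 3, [0])]⟩,
    ⟨[(0, 1), (0, 2), (0, 4), (1, 2), (1, 4), (2, 3), (2, 4)], [(0, 0), (0, 1), (0, 3), (0,
      4), (1, 0), (1, 1), (1, 3), (1, 4), (2, 0), (2, 1), (2, 3), (2, 4), (3, 1), (4, 1), (4,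
      3), (4, 4)], [(1, 3), (1, 4), (3, 4)], [], [(3, 1, []), (9, 3, [0]), (10, 4, [0])]⟩]
  Ta := [((2, 1), 3, 5), ((2, 7), 3, 7), ((3, 6), 1, 6), ((3, 10), 1, 4), ((5, 0), 1, 0), ((5,
    4), 1, 2), ((9, 8), 3, 8), ((9, 10), 3, 4)]
  Tb := [((0, 1, 5), 0, 5, 1), ((1, 0, 2), 5, 0, 3), ((2, 1, 7), 3, 5, 7), ((3, 6, 10), 1, 6, 4),
    ((4, 5, 6), 2, 1, 6), ((5, 0, 4), 1, 0, 2), ((6, 3, 4), 6, 1, 2), ((7, 2, 8), 7, 3, 8),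
    ((8, 7, 9), 8, 7, 3), ((9, 8, 10), 3, 8, 4), ((10, 3, 9), 4, 1, 3)]
  Tc := [(0, 3, 4)]
  Td := [((0, 3), (0, 1), 5), ((0, 3), (0, 5), 1), ((0, 4), (0, 1), 5), ((0, 4), (0, 5), 1), ((3,
    0), (2, 1), 5), ((3, 0), (2, 7), 7), ((3, 0), (9, 8), 8), ((3, 0), (9, 10), 4), ((4, 0),
    (10, 3), 1), ((4, 0), (10, 9), 3)]
  G := [[0, 0, 0x111df11ac421115f1145fc81189f1119fc419544ea, 0,
    0x1111f111df9818921115f1145f981115f1115f98c6], [0, 0, 0x1115f1115fc81119f1119fc4c2, 0,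
    0x1115f1115f981111f1119f98189c2], [0, 0x44311414222bdc446b18688614211c443511c819c8e,
    0x1119f2421115f281119f24c6, 0x1115f1115f584115f4115f5861119f1119fc48a,
    0x111df2821115f281115f28c6], [0, 0x111e111e61d811c111e111ee1d8c2, 0x4121119f2c1119f28a4,
    0x1112f1112f981119f1119f58a4, 0x1115f281119f28c2]]

noncomputable def n411 : Ent := ⟨e411, noF, [], [], []⟩

def c411 : PLift (Cov.check n411.C.D v411 = true) := ⟨by decide +kernel⟩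

def b411 : PLift (entF (fidx ts) 400 411 n411 = true) := ⟨by decide +kernel⟩

theorem g411 : GoodF (fidx ts) 400 411 := GoodF.ofV v411 n411 c411.down b411.down

/-- 467447:354/1 -/
noncomputable def e412 : SCfg where
  D := {
    a := 6
    L := 9
    kp := 6
    inn := [(0, 1), (0, 2), (0, 5), (1, 0), (1, 5), (2, 0), (2, 3), (2, 4), (2, 5), (3, 2), (4, 2), (5,
      0), (5, 1), (5, 2)]
    mix := [(0, 0), (1, 0), (1, 1), (1, 2), (1, 3), (2, 0), (2, 4), (2, 5), (3, 4), (3, 5), (3, 6), (4,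
      0), (4, 1), (4, 5), (5, 3), (5, 4), (5, 7), (5, 8)]
    cl := [0, 1, 2, 0, 0, 3, 4, 5, 6]
    chq := [(0, 3), (3, 0)]
    rng := [(0, 1), (1, 0), (1, 2), (1, 5), (2, 1), (2, 3), (3, 2), (3, 7), (4, 6), (4, 8), (5, 1), (5,
      6), (6, 4), (6, 5), (7, 3), (7, 8), (8, 4), (8, 7)]
    lev := [] }
  links := [[1, 5, 2, 6], [5, 0, 6, 7, 8, 9], [6, 0, 5, 10, 3, 11, 4], [11, 2, 10, 12], [6, 2, 11, 7],
    [10, 2, 0, 1, 9, 13, 14]]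
  P := {
    a := 6
    N := 15
    nb := [102, 993, 3193, 7172, 2244, 26119, 151, 2386, 642, 8482, 20524, 4252, 3080, 16928, 9248]
    tri := [(0, 1, 5), (0, 1, 6), (0, 2, 5), (0, 2, 6), (1, 5, 9), (1, 6, 7), (1, 7, 8), (1, 8, 9), (2,
      3, 10), (2, 3, 11), (2, 4, 6), (2, 4, 11), (2, 5, 10), (3, 10, 12), (3, 11, 12), (4, 6, 7),
      (4, 7, 11), (5, 9, 13), (5, 10, 14), (5, 13, 14)]
    fin := [0, 0, 0, 0, 0, 0, 0, 7, 8, 0, 0, 11, 12, 13, 14]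
    chd := [(0, 11)]
    steps := [(0, 1), (0, 2), (0, 3), (0, 5), (0, 6), (0, 4), (0, 9), (0, 10)] }
  rep := [0, 7, 8, 11, 12, 13, 14]

noncomputable def v412 : Cov.CovD where
  P := 3
  N := 4
  pl := [1, 2, 6, 7, 8]
  lev := [⟨[], [], [], [], [(0, 0, [3])]⟩,
    ⟨[], [(0, 0)], [(0, 0)], [1, 2], [(0, 0, [3]), (3, 0, [3])]⟩,
    ⟨[(0, 1)], [(0, 0), (0, 3), (1, 0)], [(0, 0), (0, 3)], [], [(0, 0, [3]), (4, 0, [3]),
      (5, 3, [0])]⟩,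
    ⟨[(0, 2)], [(2, 0), (2, 3)], [(0, 3)], [4], [(4, 0, [3]), (5, 3, [0])]⟩,
    ⟨[(0, 2), (2, 3)], [(0, 0), (1, 0), (2, 0), (2, 3), (3, 3)], [(0, 3)], [1], [(0, 0,
      [3]), (5, 3, [0])]⟩,
    ⟨[(0, 1), (0, 2), (1, 2), (2, 3), (2, 4)], [(0, 0), (1, 0), (2, 0), (2, 3), (3, 0)],
      [(0, 0)], [5, 6], [(3, 0, [3]), (4, 0, [3])]⟩]
  Ta := [((0, 1), 0, 1), ((3, 2), 0, 2), ((3, 7), 0, 5), ((4, 6), 0, 4), ((4, 8), 0, 6)]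
  Tb := [((1, 0, 2), 1, 0, 2), ((1, 0, 5), 1, 0, 3), ((1, 2, 5), 1, 2, 3), ((2, 1, 3), 2, 1, 0),
    ((3, 2, 7), 0, 2, 5), ((4, 6, 8), 0, 4, 6), ((5, 1, 6), 3, 1, 4), ((6, 4, 5), 4, 0, 3),
    ((7, 3, 8), 5, 0, 6), ((8, 4, 7), 6, 0, 5)]
  Tc := []
  Td := [((0, 3), (0, 1), 1), ((0, 3), (3, 2), 2), ((0, 3), (3, 7), 5), ((0, 3), (4, 6), 4), ((0,
    3), (4, 8), 6), ((3, 0), (5, 1), 1), ((3, 0), (5, 6), 4)]
  G := [[0, 0x68182a1c21e84, 0, 0xe824c82ecf284, 0x681a86484cea8a41486], [0, 0, 0x611811e11e48,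
    0xe8e4e1d284, 0xc8e1928a868e17486], [0, 0, 0, 0x212242e8e4c1ee48,
    0x446428ea821ae8e4c1ee8884486]]

noncomputable def n412 : Ent := ⟨e412, noF, [], [], []⟩

def c412 : PLift (Cov.check n412.C.D v412 = true) := ⟨by decide +kernel⟩

def b412 : PLift (entF (fidx ts) 400 412 n412 = true) := ⟨by decide +kernel⟩

theorem g412 : GoodF (fidx ts) 400 412 := GoodF.ofV v412 n412 c412.down b412.down

/-- 467447:354 -/
noncomputable def e413 : SCfg where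
  D := {
    a := 6
    L := 10
    kp := 7
    inn := [(0, 1), (0, 2), (0, 5), (1, 0), (1, 5), (2, 0), (2, 3), (2, 4), (2, 5), (3, 2), (4, 2), (5,
      0), (5, 1), (5, 2)]
    mix := [(0, 0), (1, 0), (1, 1), (1, 2), (1, 3), (2, 0), (2, 4), (2, 5), (3, 4), (3, 5), (3, 6), (4,
      0), (4, 5), (4, 7), (5, 3), (5, 4), (5, 8), (5, 9)]
    cl := [0, 1, 2, 0, 0, 3, 4, 5, 6, 7]
    chq := [(0, 3), (3, 0)]
    rng := [(0, 1), (0, 7), (1, 0), (1, 2), (2, 1), (2, 3), (3, 2), (3, 8), (4, 6), (4, 9), (5, 6), (5,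
      7), (6, 4), (6, 5), (7, 0), (7, 5), (8, 3), (8, 9), (9, 4), (9, 8)]
    lev := [] }
  links := [[1, 5, 2, 6], [5, 0, 6, 7, 8, 9], [6, 0, 5, 10, 3, 11, 4], [11, 2, 10, 12], [6, 2, 11, 13],
    [10, 2, 0, 1, 9, 14, 15]]
  P := {
    a := 6
    N := 16
    nb := [102, 993, 3193, 7172, 10308, 50695, 8343, 322, 642, 16674, 36908, 12316, 3080, 2128, 33312,
      17440]
    tri := [(0, 1, 5), (0, 1, 6), (0, 2, 5), (0, 2, 6), (1, 5, 9), (1, 6, 7), (1, 7, 8), (1, 8, 9), (2,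
      3, 10), (2, 3, 11), (2, 4, 6), (2, 4, 11), (2, 5, 10), (3, 10, 12), (3, 11, 12), (4, 6, 13),
      (4, 11, 13), (5, 9, 14), (5, 10, 15), (5, 14, 15)]
    fin := [0, 0, 0, 0, 0, 0, 0, 7, 8, 0, 0, 11, 12, 13, 14, 15]
    chd := [(0, 11)]
    steps := [(0, 1), (0, 2), (0, 3), (0, 4), (0, 5), (0, 6), (0, 9), (0, 10)] }
  rep := [0, 7, 8, 11, 12, 13, 14, 15]

noncomputable def v413 : Cov.CovD where
  P := 3
  N := 5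
  pl := [1, 2, 6, 7, 8, 9]
  lev := [⟨[], [], [], [], [(0, 0, [3])]⟩,
    ⟨[], [(0, 0)], [(0, 0)], [1, 2], [(0, 0, [3]), (3, 0, [3])]⟩,
    ⟨[(0, 1)], [(0, 0), (0, 3), (1, 0)], [(0, 0), (0, 3)], [], [(0, 0, [3]), (4, 0, [3]),
      (5, 3, [0])]⟩,
    ⟨[(0, 2)], [(2, 0), (2, 3)], [(0, 3)], [4], [(4, 0, [3]), (5, 3, [0])]⟩,
    ⟨[(0, 2), (2, 3)], [(0, 0), (1, 0), (2, 0), (2, 3), (3, 3)], [(0, 3)], [5], [(0, 0,
      [3]), (5, 3, [0])]⟩,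
    ⟨[(0, 1), (0, 2), (1, 2), (2, 3), (2, 4)], [(0, 0), (1, 0), (2, 0), (2, 3), (3, 0)],
      [(0, 0)], [6, 7], [(3, 0, [3]), (4, 0, [3])]⟩]
  Ta := [((0, 1), 0, 1), ((0, 7), 0, 5), ((3, 2), 0, 2), ((3, 8), 0, 6), ((4, 6), 0, 4), ((4, 9),
    0, 7)]
  Tb := [((0, 1, 7), 0, 1, 5), ((1, 0, 2), 1, 0, 2), ((2, 1, 3), 2, 1, 0), ((3, 2, 8), 0, 2, 6),
    ((4, 6, 9), 0, 4, 7), ((5, 6, 7), 3, 4, 5), ((6, 4, 5), 4, 0, 3), ((7, 0, 5), 5, 0, 3),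
    ((8, 3, 9), 6, 0, 7), ((9, 4, 8), 7, 0, 6)]
  Tc := []
  Td := [((0, 3), (0, 1), 1), ((0, 3), (0, 7), 5), ((0, 3), (3, 2), 2), ((0, 3), (3, 8), 6), ((0,
    3), (4, 6), 4), ((0, 3), (4, 9), 7), ((3, 0), (5, 6), 4), ((3, 0), (5, 7), 5)]
  G := [[0, 0x8a2e144642e184ce1a8c, 0, 0x642e1c21a8c2c8aa2eaa4f4484c5686,
    0x6428642eb4cc84ce3a8c8a28a2ed486], [0, 0, 0x611a11c11e84, 0x411222aca686c8e1fea118c4,
    0x611aea4aeea1b48c19e82], [0, 0, 0, 0x8852a3aa6e816c6c1e6446541423e88c,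
    0x6141629e81881ec68c9ee82a9e236486]]

noncomputable def n413 : Ent := ⟨e413, noF, [], [], [(7, 13, [385753028440516072301428330182238677962518295842732840408694785, 0])]⟩

def c413 : PLift (Cov.check n413.C.D v413 = true) := ⟨by decide +kernel⟩

def b413 : PLift (entF (fidx ts) 400 413 n413 = true) := ⟨by decide +kernel⟩

theorem g413 : GoodF (fidx ts) 400 413 := GoodF.ofV v413 n413 c413.down b413.down

/-- 467474:358 -/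
noncomputable def e414 : SCfg where
  D := {
    a := 6
    L := 10
    kp := 7
    inn := [(0, 1), (0, 2), (0, 4), (1, 0), (1, 4), (2, 0), (2, 3), (2, 4), (3, 2), (4, 0), (4, 1), (4,
      2), (4, 5), (5, 4)]
    mix := [(0, 0), (1, 0), (1, 1), (1, 2), (1, 3), (2, 0), (2, 4), (2, 5), (2, 6), (3, 4), (3, 5), (3,
      7), (4, 3), (4, 4), (4, 8), (5, 3), (5, 8), (5, 9)]
    cl := [0, 1, 2, 0, 0, 3, 5, 6, 4, 7]
    chq := [(0, 3), (3, 0)]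
    rng := [(0, 1), (0, 6), (1, 0), (1, 2), (2, 1), (2, 3), (3, 2), (3, 9), (4, 7), (4, 8), (5, 6), (5,
      7), (6, 0), (6, 5), (7, 4), (7, 5), (8, 4), (8, 9), (9, 3), (9, 8)]
    lev := [] }
  links := [[1, 4, 2, 6], [4, 0, 6, 7, 8, 9], [6, 0, 4, 10, 3, 11, 12], [11, 2, 10, 13], [10, 2, 0, 1, 9,
    5, 14], [14, 4, 9, 15]]
  P := {
    a := 6
    N := 16
    nb := [86, 977, 7257, 11268, 17959, 49680, 4231, 322, 642, 33074, 24604, 12300, 2116, 3080, 33840,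
      16928]
    tri := [(0, 1, 4), (0, 1, 6), (0, 2, 4), (0, 2, 6), (1, 4, 9), (1, 6, 7), (1, 7, 8), (1, 8, 9), (2,
      3, 10), (2, 3, 11), (2, 4, 10), (2, 6, 12), (2, 11, 12), (3, 10, 13), (3, 11, 13), (4, 5,
      9), (4, 5, 14), (4, 10, 14), (5, 9, 15), (5, 14, 15)]
    fin := [0, 0, 0, 0, 0, 0, 0, 7, 8, 0, 0, 11, 12, 13, 14, 15]
    chd := [(0, 11)]
    steps := [(0, 1), (0, 2), (0, 3), (0, 4), (0, 5), (0, 6), (0, 9), (0, 10)] }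
  rep := [0, 7, 8, 11, 14, 12, 13, 15]

noncomputable def v414 : Cov.CovD where
  P := 3
  N := 5
  pl := [1, 2, 6, 7, 8, 9]
  lev := [⟨[], [], [], [], [(0, 0, [3])]⟩,
    ⟨[], [(0, 0)], [(0, 0)], [1, 2], [(0, 0, [3]), (3, 0, [3])]⟩,
    ⟨[(0, 1)], [(0, 0), (0, 3), (1, 0)], [(0, 0), (0, 3)], [5], [(0, 0, [3]), (4, 0, [3]),
      (5, 3, [0])]⟩,
    ⟨[(0, 2)], [(2, 0), (2, 3)], [(0, 3)], [6], [(4, 0, [3]), (5, 3, [0])]⟩,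
    ⟨[(0, 1), (0, 2), (1, 2), (2, 3)], [(0, 0), (1, 0), (2, 0), (2, 3), (3, 0)], [(0, 0)],
      [4], [(3, 0, [3]), (4, 0, [3])]⟩,
    ⟨[(0, 4), (1, 4), (2, 4)], [(1, 0), (4, 0)], [], [4, 7], [(3, 0, [3])]⟩]
  Ta := [((0, 1), 0, 1), ((0, 6), 0, 5), ((3, 2), 0, 2), ((3, 9), 0, 7), ((4, 7), 0, 6), ((4, 8),
    0, 4)]
  Tb := [((0, 1, 6), 0, 1, 5), ((1, 0, 2), 1, 0, 2), ((2, 1, 3), 2, 1, 0), ((3, 2, 9), 0, 2, 7),
    ((4, 7, 8), 0, 6, 4), ((5, 6, 7), 3, 5, 6), ((6, 0, 5), 5, 0, 3), ((7, 4, 5), 6, 0, 3),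
    ((8, 4, 9), 4, 0, 7), ((9, 3, 8), 7, 0, 4)]
  Tc := []
  Td := [((0, 3), (0, 1), 1), ((0, 3), (0, 6), 5), ((0, 3), (3, 2), 2), ((0, 3), (3, 9), 7), ((0,
    3), (4, 7), 6), ((0, 3), (4, 8), 4), ((3, 0), (5, 6), 5), ((3, 0), (5, 7), 6)]
  G := [[0, 0x116111a111a1e84, 0, 0x1412116b1214116b1811c5e82, 0x116116511a11a911c11a3e84], [0,
    0, 0x48ee1c6a1e24e1e41, 0x182e8e5212648ee91218c6a781c2ec1, 0x116ca6911a48ee516c2e8e3e81],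
    [0, 0, 0, 0x59a1ba1dae71c95653ce641a69361a6e88c, 0x536c161a6e1a616a59ae16c481e39cee81]]

noncomputable def n414 : Ent := ⟨e414, noF, [], [], []⟩

def c414 : PLift (Cov.check n414.C.D v414 = true) := ⟨by decide +kernel⟩

def b414 : PLift (entF (fidx ts) 400 414 n414 = true) := ⟨by decide +kernel⟩

theorem g414 : GoodF (fidx ts) 400 414 := GoodF.ofV v414 n414 c414.down b414.down

/-- 467474:359/1 -/
noncomputable def e415 : SCfg where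
  D := {
    a := 6
    L := 9
    kp := 6
    inn := [(0, 1), (0, 2), (0, 4), (1, 0), (1, 4), (2, 0), (2, 3), (2, 4), (3, 2), (4, 0), (4, 1), (4,
      2), (4, 5), (5, 4)]
    mix := [(0, 0), (1, 0), (1, 1), (1, 2), (1, 3), (2, 0), (2, 4), (2, 5), (2, 6), (3, 4), (3, 5), (3,
      7), (4, 3), (4, 4), (4, 8), (5, 4), (5, 7), (5, 8)]
    cl := [0, 2, 5, 0, 0, 3, 6, 1, 4]
    chq := [(0, 3), (3, 0)]
    rng := [(0, 1), (0, 6), (1, 0), (1, 2), (2, 1), (2, 3), (3, 2), (3, 8), (4, 7), (5, 6), (5, 7), (6,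
      0), (6, 5), (7, 4), (7, 5), (7, 8), (8, 3), (8, 7)]
    lev := [] }
  links := [[1, 4, 2, 6], [4, 0, 6, 7, 8, 9], [6, 0, 4, 10, 3, 11, 12], [11, 2, 10, 13], [10, 2, 0, 1, 9,
    14, 5], [10, 4, 14, 13]]
  P := {
    a := 6
    N := 15
    nb := [86, 977, 7257, 11268, 17959, 25616, 4231, 322, 642, 16658, 8252, 12300, 2116, 19496, 8752]
    tri := [(0, 1, 4), (0, 1, 6), (0, 2, 4), (0, 2, 6), (1, 4, 9), (1, 6, 7), (1, 7, 8), (1, 8, 9), (2,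
      3, 10), (2, 3, 11), (2, 4, 10), (2, 6, 12), (2, 11, 12), (3, 10, 13), (3, 11, 13), (4, 5,
      10), (4, 5, 14), (4, 9, 14), (5, 10, 13), (5, 13, 14)]
    fin := [0, 0, 0, 0, 0, 0, 0, 7, 8, 0, 0, 11, 12, 13, 14]
    chd := [(0, 11)]
    steps := [(0, 1), (0, 2), (0, 3), (0, 4), (0, 6), (0, 9), (0, 10), (0, 5)] }
  rep := [0, 13, 7, 11, 14, 8, 12]

noncomputable def v415 : Cov.CovD where
  P := 3
  N := 4
  pl := [1, 2, 6, 7, 8]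
  lev := [⟨[], [], [], [], [(0, 0, [3])]⟩,
    ⟨[], [(0, 0)], [(0, 0)], [2, 5], [(0, 0, [3]), (3, 0, [3])]⟩,
    ⟨[(0, 1)], [(0, 0), (0, 3), (1, 0)], [(0, 0), (0, 3)], [6], [(0, 0, [3]), (4, 0, [3]),
      (5, 3, [0])]⟩,
    ⟨[(0, 2)], [(2, 0), (2, 3)], [(0, 3)], [1], [(4, 0, [3]), (5, 3, [0])]⟩,
    ⟨[(0, 1), (0, 2), (1, 2), (2, 3)], [(0, 0), (1, 0), (2, 0), (2, 3), (3, 0)], [(0, 0)],
      [4], [(3, 0, [3]), (4, 0, [3])]⟩,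
    ⟨[(0, 4), (1, 4), (2, 4)], [(2, 0), (3, 0), (4, 0)], [], [1, 4], [(4, 0, [3])]⟩]
  Ta := [((0, 1), 0, 2), ((0, 6), 0, 6), ((3, 2), 0, 5), ((3, 8), 0, 4), ((4, 7), 0, 1)]
  Tb := [((0, 1, 6), 0, 2, 6), ((1, 0, 2), 2, 0, 5), ((2, 1, 3), 5, 2, 0), ((3, 2, 8), 0, 5, 4),
    ((5, 6, 7), 3, 6, 1), ((6, 0, 5), 6, 0, 3), ((7, 4, 5), 1, 0, 3), ((7, 4, 8), 1, 0, 4),
    ((7, 5, 8), 1, 3, 4), ((8, 3, 7), 4, 0, 1)]
  Tc := []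
  Td := [((0, 3), (0, 1), 2), ((0, 3), (0, 6), 6), ((0, 3), (3, 2), 5), ((0, 3), (3, 8), 4), ((0,
    3), (4, 7), 1), ((3, 0), (5, 6), 6), ((3, 0), (5, 7), 1)]
  G := [[0, 0, 0xc212816884a1881e6116841a4441e86, 0x116841a4181844de116814a4141488dec2,
    0x11a4181844d62116882416841a4181844de8e], [0, 0, 0, 0x486812485184865e816884a484a1ec1,
    0x416841a4441e448884ca821282812484c1ea3], [0, 0x426842a424c2e826884a482c2ec1, 0,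
    0x48684ca44864cace8c6884a484a84acec1, 0x8c684ca4486486ce486884a484c84ccea1]]

noncomputable def n415 : Ent := ⟨e415, noF, [], [], []⟩

def c415 : PLift (Cov.check n415.C.D v415 = true) := ⟨by decide +kernel⟩

def b415 : PLift (entF (fidx ts) 400 415 n415 = true) := ⟨by decide +kernel⟩

theorem g415 : GoodF (fidx ts) 400 415 := GoodF.ofV v415 n415 c415.down b415.down

/-- 467474:359 -/
noncomputable def e416 : SCfg where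
  D := {
    a := 6
    L := 10
    kp := 7
    inn := [(0, 1), (0, 2), (0, 4), (1, 0), (1, 4), (2, 0), (2, 3), (2, 4), (3, 2), (4, 0), (4, 1), (4,
      2), (4, 5), (5, 4)]
    mix := [(0, 0), (1, 0), (1, 1), (1, 2), (1, 3), (2, 0), (2, 4), (2, 5), (2, 6), (3, 4), (3, 5), (3,
      7), (4, 3), (4, 4), (4, 8), (5, 4), (5, 8), (5, 9)]
    cl := [0, 5, 6, 0, 0, 1, 2, 4, 3, 7]
    chq := [(2, 4), (4, 2)]
    rng := [(0, 1), (0, 6), (1, 0), (1, 2), (2, 1), (2, 3), (3, 2), (3, 8), (4, 7), (4, 9), (5, 6), (5,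
      7), (6, 0), (6, 5), (7, 4), (7, 5), (8, 3), (8, 9), (9, 4), (9, 8)]
    lev := [] }
  links := [[1, 4, 2, 6], [4, 0, 6, 7, 8, 9], [6, 0, 4, 10, 3, 11, 12], [11, 2, 10, 13], [10, 2, 0, 1, 9,
    14, 5], [10, 4, 14, 15]]
  P := {
    a := 6
    N := 16
    nb := [86, 977, 7257, 11268, 17959, 50192, 4231, 322, 642, 16658, 41020, 12300, 2116, 3080, 33328,
      17440]
    tri := [(0, 1, 4), (0, 1, 6), (0, 2, 4), (0, 2, 6), (1, 4, 9), (1, 6, 7), (1, 7, 8), (1, 8, 9), (2,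
      3, 10), (2, 3, 11), (2, 4, 10), (2, 6, 12), (2, 11, 12), (3, 10, 13), (3, 11, 13), (4, 5,
      10), (4, 5, 14), (4, 9, 14), (5, 10, 15), (5, 14, 15)]
    fin := [0, 0, 2, 2, 0, 0, 0, 7, 8, 0, 0, 11, 12, 2, 14, 15]
    chd := [(12, 2)]
    steps := [(0, 1), (0, 4), (0, 5), (0, 6), (0, 9), (0, 10), (2, 3), (2, 13)] }
  rep := [0, 11, 12, 14, 2, 7, 8, 15]

noncomputable def v416 : Cov.CovD where
  P := 3
  N := 5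
  pl := [1, 2, 5, 8, 9]
  lev := [⟨[], [], [], [], [(0, 0, [])]⟩,
    ⟨[], [(0, 0)], [(0, 0)], [5, 6], [(0, 0, []), (3, 0, [])]⟩,
    ⟨[(0, 1)], [(0, 0), (0, 2), (1, 0)], [(0, 0), (0, 2)], [1], [(0, 0, []), (4, 0, []),
      (6, 2, [4])]⟩,
    ⟨[(0, 2)], [(2, 0), (2, 2), (2, 4)], [(0, 4)], [1], [(4, 0, []), (7, 4, [2])]⟩,
    ⟨[(0, 1), (0, 2), (1, 2), (2, 3)], [(0, 0), (1, 0), (2, 0), (2, 2), (3, 0)], [(0, 0)],
      [3], [(3, 0, []), (4, 0, [])]⟩,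
    ⟨[(0, 4), (1, 4), (2, 4)], [(2, 0), (3, 0), (4, 0)], [], [3, 7], [(4, 0, [])]⟩]
  Ta := [((0, 1), 0, 5), ((0, 6), 0, 2), ((3, 2), 0, 6), ((3, 8), 0, 3), ((4, 7), 0, 4), ((4, 9),
    0, 7)]
  Tb := [((0, 1, 6), 0, 5, 2), ((1, 0, 2), 5, 0, 6), ((2, 1, 3), 6, 5, 0), ((3, 2, 8), 0, 6, 3),
    ((4, 7, 9), 0, 4, 7), ((5, 6, 7), 1, 2, 4), ((6, 0, 5), 2, 0, 1), ((7, 4, 5), 4, 0, 1),
    ((8, 3, 9), 3, 0, 7), ((9, 4, 8), 7, 0, 3)]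
  Tc := []
  Td := [((2, 4), (6, 0), 0), ((2, 4), (6, 5), 1), ((4, 2), (7, 4), 0), ((4, 2), (7, 5), 1)]
  G := [[0, 0x11a2411a2811a28e4, 0x116116c8116116c8441a2c1ce2, 0x116116c8241e4a1c26c1881ce2,
    0x116481164811c48e2], [0, 0xc162839a2471c28e2, 0, 0xca61848ee18e24e14e1,
    0x1a64859a4871c48e4], [0, 0xca628c6a242e8e28e1, 0, 0xca6ca6c8c6ac6ac42e8e4e24e8ce1,
    0xca64848ee482e8e48e1]]

noncomputable def n416 : Ent := ⟨e416, noF, [], [], [(15, 13, [360048296834107614573520772494203283988579150297652619078397953, 0])]⟩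

def c416 : PLift (Cov.check n416.C.D v416 = true) := ⟨by decide +kernel⟩

def b416 : PLift (entF (fidx ts) 400 416 n416 = true) := ⟨by decide +kernel⟩

theorem g416 : GoodF (fidx ts) 400 416 := GoodF.ofV v416 n416 c416.down b416.down

/-- 484576:363 -/
noncomputable def e417 : SCfg where
  D := {
    a := 6
    L := 10
    kp := 8
    inn := [(0, 1), (0, 3), (0, 4), (1, 0), (1, 2), (1, 4), (1, 5), (2, 1), (2, 5), (3, 0), (3, 4), (4,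
      0), (4, 1), (4, 3), (4, 5), (5, 1), (5, 2), (5, 4)]
    mix := [(0, 0), (1, 0), (1, 1), (1, 2), (1, 3), (2, 1), (2, 4), (3, 0), (3, 5), (3, 6), (4, 6), (4,
      7), (4, 8), (5, 4), (5, 8), (5, 9)]
    cl := [0, 0, 6, 7, 2, 8, 1, 4, 3, 5]
    chq := [(0, 1), (0, 3), (0, 4), (0, 5), (1, 0), (3, 0), (4, 0), (5, 0)]
    rng := [(0, 3), (0, 5), (1, 2), (1, 4), (2, 1), (2, 3), (3, 0), (3, 2), (4, 1), (4, 9), (5, 0), (5,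
      6), (6, 5), (6, 7), (7, 6), (7, 8), (8, 7), (8, 9), (9, 4), (9, 8)]
    lev := [] }
  links := [[1, 6, 3, 4], [6, 0, 4, 5, 2, 7, 8, 9], [7, 1, 5, 10], [4, 0, 6, 11, 12], [5, 1, 0, 3, 12,
    13, 14], [10, 2, 1, 4, 14, 15]]
  P := {
    a := 6
    N := 16
    nb := [90, 1013, 1186, 6225, 28715, 50198, 2571, 1286, 642, 322, 32932, 4168, 10264, 20496, 41008,
      17440]
    tri := [(0, 1, 4), (0, 1, 6), (0, 3, 4), (0, 3, 6), (1, 2, 5), (1, 2, 7), (1, 4, 5), (1, 6, 9), (1,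
      7, 8), (1, 8, 9), (2, 5, 10), (2, 7, 10), (3, 4, 12), (3, 6, 11), (3, 11, 12), (4, 5, 14),
      (4, 12, 13), (4, 13, 14), (5, 10, 15), (5, 14, 15)]
    fin := [0, 0, 0, 0, 0, 0, 0, 0, 8, 9, 10, 11, 12, 13, 14, 15]
    chd := [(0, 12), (0, 13), (0, 14), (0, 15)]
    steps := [(0, 1), (0, 2), (0, 3), (0, 4), (0, 5), (0, 6), (0, 7)] }
  rep := [0, 12, 10, 14, 13, 15, 8, 9, 11]

noncomputable def v417 : Cov.CovD where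
  P := 3
  N := 6
  pl := [2, 3, 4, 5]
  lev := [⟨[], [], [], [], [(0, 0, [1, 3, 4, 5])]⟩,
    ⟨[], [(0, 0)], [(0, 0)], [6, 7], [(0, 0, [1, 3, 4, 5]), (1, 0, [1, 3, 4, 5])]⟩,
    ⟨[(0, 1)], [(1, 0)], [], [2], [(1, 0, [1, 3, 4, 5])]⟩,
    ⟨[(0, 1)], [(0, 0), (0, 1), (1, 0)], [(0, 1)], [8], [(0, 0, [1, 3, 4, 5]), (6, 1,
      [0])]⟩,
    ⟨[(0, 1), (0, 3), (1, 2), (1, 3)], [(0, 0), (0, 1), (0, 3), (0, 4), (1, 0), (1, 1), (1,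
      3), (1, 4), (3, 0), (3, 1), (3, 3), (3, 4)], [(1, 3), (1, 4), (3, 4)], [], [(6, 1,
      [0]), (7, 4, [0]), (8, 3, [0])]⟩,
    ⟨[(0, 1), (0, 4), (1, 2), (1, 4), (2, 4), (3, 4)], [(1, 0), (1, 3), (1, 5), (2, 0), (2,
      3), (2, 5), (4, 1), (4, 3), (4, 4), (4, 5)], [(3, 5)], [2], [(8, 3, [0]), (9, 5, [0])]⟩]
  Ta := [((0, 3), 0, 7), ((0, 5), 0, 8), ((1, 2), 0, 6), ((1, 4), 0, 2)]
  Tb := [((0, 3, 5), 0, 7, 8), ((1, 2, 4), 0, 6, 2), ((2, 1, 3), 6, 0, 7), ((3, 0, 2), 7, 0, 6),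
    ((4, 1, 9), 2, 0, 5), ((5, 0, 6), 8, 0, 1), ((6, 5, 7), 1, 8, 4), ((7, 6, 8), 4, 1, 3),
    ((8, 7, 9), 3, 4, 5), ((9, 4, 8), 5, 2, 3)]
  Tc := [(0, 1, 3), (0, 1, 4), (0, 1, 5), (0, 3, 4), (0, 3, 5), (0, 4, 5)]
  Td := [((0, 1), (0, 3), 7), ((0, 1), (0, 5), 8), ((0, 1), (1, 2), 6), ((0, 1), (1, 4), 2), ((0,
    3), (0, 3), 7), ((0, 3), (0, 5), 8), ((0, 3), (1, 2), 6), ((0, 3), (1, 4), 2), ((0, 4),
    (0, 3), 7), ((0, 4), (0, 5), 8), ((0, 4), (1, 2), 6), ((0, 4), (1, 4), 2), ((0, 5), (0,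
    3), 7), ((0, 5), (0, 5), 8), ((0, 5), (1, 2), 6), ((0, 5), (1, 4), 2), ((1, 0), (6, 5),
    8), ((1, 0), (6, 7), 4), ((3, 0), (8, 7), 4), ((3, 0), (8, 9), 5), ((4, 0), (7, 6), 1),
    ((4, 0), (7, 8), 3), ((5, 0), (9, 4), 2), ((5, 0), (9, 8), 3)]
  G := [[0, 0x1414a841411a111ee411a11aa8111e11a14e4ec, 0, 0x4151c918111cdc1d91d914d8d1d111cd8e2,
    0x13542313111cd21b51b5c8e13518928a], [0, 0x116116618186c1414a11a11aac12111e11ce8e1,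
    0x41e1c84e1e1c2a182e1e1c8ec, 0xd1d111cd4d1d111cd8d1d111cd4e2,
    0x313111cd8b1b114d86313111cd28a]]

noncomputable def n417 : Ent := ⟨e417, noF, [], [], []⟩

def c417 : PLift (Cov.check n417.C.D v417 = true) := ⟨by decide +kernel⟩

def b417 : PLift (entF (fidx ts) 400 417 n417 = true) := ⟨by decide +kernel⟩

theorem g417 : GoodF (fidx ts) 400 417 := GoodF.ofV v417 n417 c417.down b417.down

/-- 484574:365 -/
noncomputable def e418 : SCfg where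
  D := {
    a := 6
    L := 10
    kp := 8
    inn := [(0, 1), (0, 3), (0, 4), (1, 0), (1, 2), (1, 4), (1, 5), (2, 1), (3, 0), (3, 4), (4, 0), (4,
      1), (4, 3), (5, 1)]
    mix := [(0, 0), (1, 0), (1, 1), (1, 2), (1, 3), (2, 1), (2, 2), (2, 4), (3, 0), (3, 5), (3, 6), (4,
      1), (4, 6), (4, 7), (4, 8), (5, 2), (5, 3), (5, 9)]
    cl := [1, 0, 2, 0, 6, 7, 3, 4, 5, 8]
    chq := [(0, 2), (1, 3), (1, 4), (1, 5), (2, 0), (3, 1), (4, 1), (5, 1)]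
    rng := [(0, 3), (0, 5), (1, 4), (1, 8), (2, 4), (2, 9), (3, 0), (3, 9), (4, 1), (4, 2), (5, 0), (5,
      6), (6, 5), (6, 7), (7, 6), (7, 8), (8, 1), (8, 7), (9, 2), (9, 3)]
    lev := [] }
  links := [[1, 6, 3, 4], [6, 0, 4, 7, 2, 8, 5, 9], [8, 1, 7, 10], [4, 0, 6, 11, 12], [7, 1, 0, 3, 12,
    13, 14], [9, 1, 8, 15]]
  P := {
    a := 6
    N := 16
    nb := [90, 1013, 1410, 6225, 28811, 33538, 2571, 17430, 33830, 32866, 388, 4168, 10264, 20496,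
      8336, 800]
    tri := [(0, 1, 4), (0, 1, 6), (0, 3, 4), (0, 3, 6), (1, 2, 7), (1, 2, 8), (1, 4, 7), (1, 5, 8), (1,
      5, 9), (1, 6, 9), (2, 7, 10), (2, 8, 10), (3, 4, 12), (3, 6, 11), (3, 11, 12), (4, 7, 14),
      (4, 12, 13), (4, 13, 14), (5, 8, 15), (5, 9, 15)]
    fin := [0, 1, 1, 0, 0, 1, 0, 1, 8, 1, 10, 11, 12, 13, 14, 15]
    chd := [(0, 12), (0, 13), (0, 14), (1, 8)]
    steps := [(0, 3), (0, 4), (0, 6), (1, 2), (1, 5), (1, 7), (1, 9)] }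
  rep := [1, 0, 8, 12, 13, 14, 10, 11, 15]

noncomputable def v418 : Cov.CovD where
  P := 3
  N := 6
  pl := [4, 5, 9]
  lev := [⟨[], [], [], [], [(0, 1, [3, 4, 5])]⟩,
    ⟨[], [(0, 0), (0, 1), (0, 2)], [(0, 0), (0, 1), (0, 2), (1, 2)], [], [(0, 1, [3, 4,
      5]), (1, 0, [2]), (2, 2, [0]), (3, 0, [2])]⟩,
    ⟨[(0, 1)], [(1, 0), (1, 1), (1, 2)], [(0, 2)], [6], [(1, 0, [2]), (2, 2, [0])]⟩,
    ⟨[(0, 1)], [(0, 1), (0, 3), (1, 1)], [(1, 3)], [7], [(0, 1, [3, 4, 5]), (6, 3, [1])]⟩,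
    ⟨[(0, 1), (0, 3), (1, 2), (1, 3)], [(0, 0), (0, 1), (0, 3), (0, 4), (0, 5), (1, 0), (1,
      1), (1, 2), (1, 3), (1, 4), (1, 5), (2, 0), (3, 0), (3, 1), (3, 3), (3, 4), (3, 5)],
      [(0, 3), (0, 4), (0, 5), (3, 4), (3, 5), (4, 5)], [], [(1, 0, [2]), (6, 3, [1]), (7, 4,
      [1]), (8, 5, [1])]⟩,
    ⟨[(0, 1), (1, 2), (1, 4)], [(1, 0), (1, 1), (1, 2), (2, 2)], [(0, 2)], [8], [(2, 2,
      [0]), (3, 0, [2])]⟩]
  Ta := [((1, 4), 0, 6), ((1, 8), 0, 5), ((3, 0), 0, 1), ((3, 9), 0, 8)]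
  Tb := [((0, 3, 5), 1, 0, 7), ((1, 4, 8), 0, 6, 5), ((2, 4, 9), 2, 6, 8), ((3, 0, 9), 0, 1, 8),
    ((4, 1, 2), 6, 0, 2), ((5, 0, 6), 7, 1, 3), ((6, 5, 7), 3, 7, 4), ((7, 6, 8), 4, 3, 5),
    ((8, 1, 7), 5, 0, 4), ((9, 2, 3), 8, 2, 0)]
  Tc := [(1, 3, 4), (1, 3, 5), (1, 4, 5)]
  Td := [((0, 2), (1, 4), 6), ((0, 2), (1, 8), 5), ((0, 2), (3, 0), 1), ((0, 2), (3, 9), 8), ((1,
    3), (0, 3), 0), ((1, 3), (0, 5), 7), ((1, 4), (0, 3), 0), ((1, 4), (0, 5), 7), ((1, 5),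
    (0, 3), 0), ((1, 5), (0, 5), 7), ((2, 0), (2, 4), 6), ((2, 0), (2, 9), 8), ((3, 1), (6,
    5), 7), ((3, 1), (6, 7), 4), ((4, 1), (7, 6), 3), ((4, 1), (7, 8), 5), ((5, 1), (8, 1),
    0), ((5, 1), (8, 7), 4)]
  G := [[0, 0, 0x62c2a2d6262a2d684, 0x121212d121212dc81, 0x121212d121212da81], [0,
    0x414c1c1c1ecc181c1e8c2, 0x62a2c2dc2a2a2da48, 0xc2c2c2d184, 0xa2a2a2d184]]

noncomputable def n418 : Ent := ⟨e418, noF, [], [], []⟩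

def c418 : PLift (Cov.check n418.C.D v418 = true) := ⟨by decide +kernel⟩

def b418 : PLift (entF (fidx ts) 400 418 n418 = true) := ⟨by decide +kernel⟩

theorem g418 : GoodF (fidx ts) 400 418 := GoodF.ofV v418 n418 c418.down b418.down

/-- 484557:370/1 -/
noncomputable def e419 : SCfg where
  D := {
    a := 6
    L := 9
    kp := 6
    inn := [(0, 1), (0, 3), (0, 5), (1, 0), (1, 2), (1, 4), (1, 5), (2, 1), (2, 4), (3, 0), (3, 5), (4,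
      1), (4, 2), (5, 0), (5, 1), (5, 3)]
    mix := [(0, 0), (1, 0), (1, 1), (1, 2), (1, 3), (2, 1), (2, 4), (3, 0), (3, 5), (3, 6), (4, 0), (4,
      4), (4, 6), (5, 3), (5, 5), (5, 7), (5, 8)]
    cl := [0, 0, 2, 3, 1, 3, 4, 5, 6]
    chq := [(2, 4), (4, 2)]
    rng := [(0, 6), (1, 2), (1, 4), (2, 1), (2, 3), (3, 2), (3, 7), (4, 1), (4, 6), (5, 6), (5, 8), (6,
      0), (6, 4), (6, 5), (7, 3), (7, 8), (8, 5), (8, 7)]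
    lev := [] }
  links := [[1, 5, 3, 6], [5, 0, 6, 4, 2, 7, 8, 9], [7, 1, 4, 10], [6, 0, 5, 11, 12], [10, 2, 1, 6, 12],
    [11, 3, 0, 1, 9, 13, 14]]
  P := {
    a := 6
    N := 15
    nb := [106, 1013, 1170, 6241, 5190, 27147, 4123, 1286, 642, 8482, 4244, 20520, 3160, 16928, 10272]
    tri := [(0, 1, 5), (0, 1, 6), (0, 3, 5), (0, 3, 6), (1, 2, 4), (1, 2, 7), (1, 4, 6), (1, 5, 9), (1,
      7, 8), (1, 8, 9), (2, 4, 10), (2, 7, 10), (3, 5, 11), (3, 6, 12), (3, 11, 12), (4, 6, 12),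
      (4, 10, 12), (5, 9, 13), (5, 11, 14), (5, 13, 14)]
    fin := [0, 0, 2, 0, 2, 5, 2, 2, 8, 5, 10, 5, 0, 13, 14]
    chd := [(8, 0)]
    steps := [(0, 1), (0, 3), (2, 4), (2, 6), (0, 12), (2, 7), (5, 9), (5, 11)] }
  rep := [2, 10, 8, 5, 0, 13, 14]

noncomputable def v419 : Cov.CovD where
  P := 3
  N := 4
  pl := [4, 7, 8]
  lev := [⟨[], [], [], [], [(0, 0, [])]⟩,
    ⟨[], [(0, 0), (0, 2), (0, 3)], [(0, 0), (0, 2), (0, 3), (2, 3)], [], [(0, 0, []), (1,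
      0, []), (2, 2, [4]), (3, 3, [])]⟩,
    ⟨[(0, 1)], [(1, 0), (1, 2), (1, 3)], [], [1], [(1, 0, [])]⟩,
    ⟨[(0, 1)], [(0, 0), (0, 3), (0, 4), (1, 0)], [(0, 3), (0, 4), (3, 4)], [], [(0, 0, []),
      (5, 3, []), (6, 4, [2])]⟩,
    ⟨[(0, 1), (1, 2)], [(0, 0), (1, 0), (1, 2), (1, 3), (1, 4), (2, 0), (2, 4), (3, 0), (3,
      4)], [(0, 4)], [1], [(0, 0, []), (6, 4, [2])]⟩,
    ⟨[(0, 1), (0, 3), (1, 2), (1, 3), (1, 4)], [(0, 0), (0, 3), (1, 0), (1, 2), (1, 3), (3,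
      0), (3, 3), (3, 4)], [(3, 3)], [5, 6], [(3, 3, []), (5, 3, [])]⟩]
  Ta := [((0, 6), 0, 4), ((1, 2), 0, 2), ((1, 4), 0, 1), ((3, 2), 3, 2), ((3, 7), 3, 5), ((5, 6),
    3, 4), ((5, 8), 3, 6)]
  Tb := [((1, 2, 4), 0, 2, 1), ((2, 1, 3), 2, 0, 3), ((3, 2, 7), 3, 2, 5), ((4, 1, 6), 1, 0, 4),
    ((5, 6, 8), 3, 4, 6), ((6, 0, 4), 4, 0, 1), ((6, 0, 5), 4, 0, 3), ((6, 4, 5), 4, 1, 3),
    ((7, 3, 8), 5, 3, 6), ((8, 5, 7), 6, 3, 5)]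
  Tc := []
  Td := [((2, 4), (2, 1), 0), ((2, 4), (2, 3), 3), ((4, 2), (6, 0), 0), ((4, 2), (6, 4), 1), ((4,
    2), (6, 5), 3)]
  G := [[0, 0, 0, 0xf444f881c2, 0x542a429f884a4], [0, 0, 0, 0xf8214f4218c, 0x48bfc48e428], [0,
    0xf442f882c2, 0xf444f188c2, 0x71284b1248c, 0x314854241d1c48a], [0, 0x28df6247284,
    0x181111eecf424, 0xf12484, 0xf141487428]]

noncomputable def n419 : Ent := ⟨e419, noF, [], [], []⟩

def c419 : PLift (Cov.check n419.C.D v419 = true) := ⟨by decide +kernel⟩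

def b419 : PLift (entF (fidx ts) 400 419 n419 = true) := ⟨by decide +kernel⟩

theorem g419 : GoodF (fidx ts) 400 419 := GoodF.ofV v419 n419 c419.down b419.down

/-- 484557:370 -/
noncomputable def e420 : SCfg where
  D := {
    a := 6
    L := 10
    kp := 8
    inn := [(0, 1), (0, 3), (0, 5), (1, 0), (1, 2), (1, 4), (1, 5), (2, 1), (2, 4), (3, 0), (3, 5), (4,
      1), (4, 2), (5, 0), (5, 1), (5, 3)]
    mix := [(0, 0), (1, 0), (1, 1), (1, 2), (1, 3), (2, 1), (2, 4), (3, 0), (3, 5), (3, 6), (4, 0), (4,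
      4), (4, 7), (5, 3), (5, 5), (5, 8), (5, 9)]
    cl := [0, 0, 6, 1, 2, 3, 7, 8, 4, 5]
    chq := [(0, 1), (0, 3), (0, 4), (0, 5), (1, 0), (3, 0), (4, 0), (5, 0)]
    rng := [(0, 6), (0, 7), (1, 2), (1, 4), (2, 1), (2, 3), (3, 2), (3, 8), (4, 1), (4, 7), (5, 6), (5,
      9), (6, 0), (6, 5), (7, 0), (7, 4), (8, 3), (8, 9), (9, 5), (9, 8)]
    lev := [] }
  links := [[1, 5, 3, 6], [5, 0, 6, 4, 2, 7, 8, 9], [7, 1, 4, 10], [6, 0, 5, 11, 12], [10, 2, 1, 6, 13],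
    [11, 3, 0, 1, 9, 14, 15]]
  P := {
    a := 6
    N := 16
    nb := [106, 1013, 1170, 6241, 9286, 51723, 12315, 1286, 642, 16674, 8340, 36904, 2120, 1104,
      33312, 18464]
    tri := [(0, 1, 5), (0, 1, 6), (0, 3, 5), (0, 3, 6), (1, 2, 4), (1, 2, 7), (1, 4, 6), (1, 5, 9), (1,
      7, 8), (1, 8, 9), (2, 4, 10), (2, 7, 10), (3, 5, 11), (3, 6, 12), (3, 11, 12), (4, 6, 13),
      (4, 10, 13), (5, 9, 14), (5, 11, 15), (5, 14, 15)]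
    fin := [0, 0, 0, 0, 0, 0, 0, 0, 8, 9, 10, 11, 12, 13, 14, 15]
    chd := [(0, 9), (0, 11), (0, 14), (0, 15)]
    steps := [(0, 1), (0, 2), (0, 3), (0, 4), (0, 5), (0, 6), (0, 7)] }
  rep := [0, 9, 10, 11, 14, 15, 8, 12, 13]

noncomputable def v420 : Cov.CovD where
  P := 3
  N := 6
  pl := [2, 4, 6, 7]
  lev := [⟨[], [], [], [], [(0, 0, [1, 3, 4, 5])]⟩,
    ⟨[], [(0, 0), (0, 1)], [(0, 0), (0, 1)], [6], [(0, 0, [1, 3, 4, 5]), (1, 0, [1, 3, 4,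
      5]), (3, 1, [0])]⟩,
    ⟨[(0, 1)], [(1, 0), (1, 1)], [], [2], [(1, 0, [1, 3, 4, 5])]⟩,
    ⟨[(0, 1)], [(0, 0), (0, 3), (1, 0)], [(0, 3)], [7], [(0, 0, [1, 3, 4, 5]), (5, 3,
      [0])]⟩,
    ⟨[(0, 1), (1, 2)], [(0, 0), (1, 0), (1, 1), (2, 0), (3, 0)], [], [2, 8], [(0, 0, [1, 3,
      4, 5])]⟩,
    ⟨[(0, 1), (0, 3), (1, 2), (1, 3), (1, 4)], [(0, 0), (0, 1), (0, 3), (0, 4), (0, 5), (1,
      0), (1, 1), (1, 3), (1, 4), (1, 5), (3, 0), (3, 1), (3, 3), (3, 4), (3, 5)], [(1, 3),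
      (1, 4), (1, 5), (3, 4), (3, 5), (4, 5)], [], [(3, 1, [0]), (5, 3, [0]), (8, 4, [0]),
      (9, 5, [0])]⟩]
  Ta := [((0, 6), 0, 7), ((0, 7), 0, 8), ((1, 2), 0, 6), ((1, 4), 0, 2)]
  Tb := [((0, 6, 7), 0, 7, 8), ((1, 2, 4), 0, 6, 2), ((2, 1, 3), 6, 0, 1), ((3, 2, 8), 1, 6, 4),
    ((4, 1, 7), 2, 0, 8), ((5, 6, 9), 3, 7, 5), ((6, 0, 5), 7, 0, 3), ((7, 0, 4), 8, 0, 2),
    ((8, 3, 9), 4, 1, 5), ((9, 5, 8), 5, 3, 4)]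
  Tc := [(0, 1, 3), (0, 1, 4), (0, 1, 5), (0, 3, 4), (0, 3, 5), (0, 4, 5)]
  Td := [((0, 1), (0, 6), 7), ((0, 1), (0, 7), 8), ((0, 1), (1, 2), 6), ((0, 1), (1, 4), 2), ((0,
    3), (0, 6), 7), ((0, 3), (0, 7), 8), ((0, 3), (1, 2), 6), ((0, 3), (1, 4), 2), ((0, 4),
    (0, 6), 7), ((0, 4), (0, 7), 8), ((0, 4), (1, 2), 6), ((0, 4), (1, 4), 2), ((0, 5), (0,
    6), 7), ((0, 5), (0, 7), 8), ((0, 5), (1, 2), 6), ((0, 5), (1, 4), 2), ((1, 0), (3, 2),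
    6), ((1, 0), (3, 8), 4), ((3, 0), (5, 6), 7), ((3, 0), (5, 9), 5), ((4, 0), (8, 3), 1),
    ((4, 0), (8, 9), 5), ((5, 0), (9, 5), 3), ((5, 0), (9, 8), 4)]
  G := [[0, 0x111111e4111111e4a4, 0, 0x11c11c11ce111c11c11ce1c2, 0x11a11a11ae111a11a11ae2c2],
    [0, 0x111111e4111111e8a4, 0x11611c116e211a22c11a11ac446, 0x111164111111e4c11848a,
    0x111111e8111111e8c2]]

noncomputable def n420 : Ent := ⟨e420, noF, [], [], [(13, 12, [385753029973011613167317188540585705112827479461471962592325633, 0])]⟩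

def c420 : PLift (Cov.check n420.C.D v420 = true) := ⟨by decide +kernel⟩

def b420 : PLift (entF (fidx ts) 400 420 n420 = true) := ⟨by decide +kernel⟩

theorem g420 : GoodF (fidx ts) 400 420 := GoodF.ofV v420 n420 c420.down b420.down

/-- 484558:371/1 -/
noncomputable def e421 : SCfg where
  D := {
    a := 6
    L := 10
    kp := 8
    inn := [(0, 1), (0, 3), (0, 5), (1, 0), (1, 2), (1, 4), (1, 5), (2, 1), (2, 4), (3, 0), (3, 5), (4,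
      1), (4, 2), (5, 0), (5, 1), (5, 3)]
    mix := [(0, 0), (1, 0), (1, 1), (1, 2), (1, 3), (2, 1), (2, 4), (3, 0), (3, 5), (3, 6), (4, 0), (4,
      4), (4, 6), (5, 3), (5, 5), (5, 7), (5, 8), (5, 9)]
    cl := [0, 0, 8, 3, 1, 4, 2, 5, 6, 7]
    chq := [(0, 3), (0, 4), (0, 5), (0, 6), (0, 7), (3, 0), (4, 0), (5, 0), (6, 0), (7, 0)]
    rng := [(0, 6), (1, 2), (1, 4), (2, 1), (2, 3), (3, 2), (3, 7), (4, 1), (4, 6), (5, 6), (5, 9), (6,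
      0), (6, 4), (6, 5), (7, 3), (7, 8), (8, 7), (8, 9), (9, 5), (9, 8)]
    lev := [] }
  links := [[1, 5, 3, 6], [5, 0, 6, 4, 2, 7, 8, 9], [7, 1, 4, 10], [6, 0, 5, 11, 12], [10, 2, 1, 6, 12],
    [11, 3, 0, 1, 9, 13, 14, 15]]
  P := {
    a := 6
    N := 16
    nb := [106, 1013, 1170, 6241, 5190, 59915, 4123, 1286, 642, 8482, 4244, 36904, 3160, 16928, 40992,
      18464]
    tri := [(0, 1, 5), (0, 1, 6), (0, 3, 5), (0, 3, 6), (1, 2, 4), (1, 2, 7), (1, 4, 6), (1, 5, 9), (1,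
      7, 8), (1, 8, 9), (2, 4, 10), (2, 7, 10), (3, 5, 11), (3, 6, 12), (3, 11, 12), (4, 6, 12),
      (4, 10, 12), (5, 9, 13), (5, 11, 15), (5, 13, 14), (5, 14, 15)]
    fin := [0, 0, 0, 0, 0, 0, 0, 0, 8, 9, 10, 11, 12, 13, 14, 15]
    chd := [(0, 9), (0, 11), (0, 13), (0, 14), (0, 15)]
    steps := [(0, 1), (0, 2), (0, 3), (0, 5), (0, 6), (0, 4), (0, 7)] }
  rep := [0, 10, 12, 9, 11, 13, 14, 15, 8]

noncomputable def v421 : Cov.CovD where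
  P := 3
  N := 6
  pl := [2, 4, 6]
  lev := [⟨[], [], [], [], [(0, 0, [3, 4, 5, 6, 7])]⟩,
    ⟨[], [(0, 0), (0, 3)], [(0, 0), (0, 3)], [8], [(0, 0, [3, 4, 5, 6, 7]), (1, 0, [3, 4,
      5, 6, 7]), (3, 3, [0])]⟩,
    ⟨[(0, 1)], [(1, 0), (1, 3)], [], [1], [(1, 0, [3, 4, 5, 6, 7])]⟩,
    ⟨[(0, 1)], [(0, 0), (0, 4), (1, 0)], [(0, 4)], [2], [(0, 0, [3, 4, 5, 6, 7]), (5, 4,
      [0])]⟩,
    ⟨[(0, 1), (1, 2)], [(0, 0), (1, 0), (1, 3), (2, 0), (3, 0)], [], [1, 2], [(0, 0, [3, 4,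
      5, 6, 7])]⟩,
    ⟨[(0, 1), (0, 3), (1, 2), (1, 3), (1, 4)], [(0, 0), (0, 3), (0, 4), (0, 5), (0, 6), (0,
      7), (1, 0), (1, 3), (1, 4), (1, 5), (1, 6), (1, 7), (3, 0), (3, 3), (3, 4), (3, 5), (3,
      6), (3, 7)], [(3, 4), (3, 5), (3, 6), (3, 7), (4, 5), (4, 6), (4, 7), (5, 6), (5, 7),
      (6, 7)], [], [(3, 3, [0]), (5, 4, [0]), (7, 5, [0]), (8, 6, [0]), (9, 7, [0])]⟩]
  Ta := [((0, 6), 0, 2), ((1, 2), 0, 8), ((1, 4), 0, 1)]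
  Tb := [((1, 2, 4), 0, 8, 1), ((2, 1, 3), 8, 0, 3), ((3, 2, 7), 3, 8, 5), ((4, 1, 6), 1, 0, 2),
    ((5, 6, 9), 4, 2, 7), ((6, 0, 4), 2, 0, 1), ((6, 0, 5), 2, 0, 4), ((6, 4, 5), 2, 1, 4),
    ((7, 3, 8), 5, 3, 6), ((8, 7, 9), 6, 5, 7), ((9, 5, 8), 7, 4, 6)]
  Tc := [(0, 3, 4), (0, 3, 5), (0, 3, 6), (0, 3, 7), (0, 4, 5), (0, 4, 6), (0, 4, 7), (0, 5, 6),
    (0, 5, 7), (0, 6, 7)]
  Td := [((0, 3), (0, 6), 2), ((0, 3), (1, 2), 8), ((0, 3), (1, 4), 1), ((0, 4), (0, 6), 2), ((0,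
    4), (1, 2), 8), ((0, 4), (1, 4), 1), ((0, 5), (0, 6), 2), ((0, 5), (1, 2), 8), ((0, 5),
    (1, 4), 1), ((0, 6), (0, 6), 2), ((0, 6), (1, 2), 8), ((0, 6), (1, 4), 1), ((0, 7), (0,
    6), 2), ((0, 7), (1, 2), 8), ((0, 7), (1, 4), 1), ((3, 0), (3, 2), 8), ((3, 0), (3, 7),
    5), ((4, 0), (5, 6), 2), ((4, 0), (5, 9), 7), ((5, 0), (7, 3), 3), ((5, 0), (7, 8), 6),
    ((6, 0), (8, 7), 5), ((6, 0), (8, 9), 7), ((7, 0), (9, 5), 4), ((7, 0), (9, 8), 6)]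
  G := [[0, 0, 0x1818a41818a11418c4e4, 0x1414c81818c41818c1e2, 0x1818a11818a11818a4e4], [0,
    0x1814c21818c41418c4e2, 0, 0x1411c81811c4a1818c446, 0x1111a81811a81118a8e4]]

noncomputable def n421 : Ent := ⟨e421, noF, [], [], []⟩

def c421 : PLift (Cov.check n421.C.D v421 = true) := ⟨by decide +kernel⟩

def b421 : PLift (entF (fidx ts) 400 421 n421 = true) := ⟨by decide +kernel⟩

theorem g421 : GoodF (fidx ts) 400 421 := GoodF.ofV v421 n421 c421.down b421.down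

/-- 484558:371 -/
noncomputable def e422 : SCfg where
  D := {
    a := 6
    L := 11
    kp := 9
    inn := [(0, 1), (0, 3), (0, 5), (1, 0), (1, 2), (1, 4), (1, 5), (2, 1), (2, 4), (3, 0), (3, 5), (4,
      1), (4, 2), (5, 0), (5, 1), (5, 3)]
    mix := [(0, 0), (1, 0), (1, 1), (1, 2), (1, 3), (2, 1), (2, 4), (3, 0), (3, 5), (3, 6), (4, 0), (4,
      4), (4, 7), (5, 3), (5, 5), (5, 8), (5, 9), (5, 10)]
    cl := [0, 0, 7, 1, 2, 3, 8, 9, 4, 5, 6]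
    chq := [(0, 1), (0, 3), (0, 4), (0, 5), (0, 6), (1, 0), (3, 0), (4, 0), (5, 0), (6, 0)]
    rng := [(0, 6), (0, 7), (1, 2), (1, 4), (2, 1), (2, 3), (3, 2), (3, 8), (4, 1), (4, 7), (5, 6), (5,
      10), (6, 0), (6, 5), (7, 0), (7, 4), (8, 3), (8, 9), (9, 8), (9, 10), (10, 5), (10, 9)]
    lev := [] }
  links := [[1, 5, 3, 6], [5, 0, 6, 4, 2, 7, 8, 9], [7, 1, 4, 10], [6, 0, 5, 11, 12], [10, 2, 1, 6, 13],
    [11, 3, 0, 1, 9, 14, 15, 16]]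
  P := {
    a := 6
    N := 17
    nb := [106, 1013, 1170, 6241, 9286, 117259, 12315, 1286, 642, 16674, 8340, 69672, 2120, 1104,
      33312, 81952, 34848]
    tri := [(0, 1, 5), (0, 1, 6), (0, 3, 5), (0, 3, 6), (1, 2, 4), (1, 2, 7), (1, 4, 6), (1, 5, 9), (1,
      7, 8), (1, 8, 9), (2, 4, 10), (2, 7, 10), (3, 5, 11), (3, 6, 12), (3, 11, 12), (4, 6, 13),
      (4, 10, 13), (5, 9, 14), (5, 11, 16), (5, 14, 15), (5, 15, 16)]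
    fin := [0, 0, 0, 0, 0, 0, 0, 0, 8, 9, 10, 11, 12, 13, 14, 15, 16]
    chd := [(0, 9), (0, 11), (0, 14), (0, 15), (0, 16)]
    steps := [(0, 1), (0, 2), (0, 3), (0, 4), (0, 5), (0, 6), (0, 7)] }
  rep := [0, 9, 10, 11, 14, 15, 16, 8, 12, 13]

noncomputable def v422 : Cov.CovD where
  P := 3
  N := 7
  pl := [2, 4, 6, 7]
  lev := [⟨[], [], [], [], [(0, 0, [1, 3, 4, 5, 6])]⟩,
    ⟨[], [(0, 0), (0, 1)], [(0, 0), (0, 1)], [7], [(0, 0, [1, 3, 4, 5, 6]), (1, 0, [1, 3,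
      4, 5, 6]), (3, 1, [0])]⟩,
    ⟨[(0, 1)], [(1, 0), (1, 1)], [], [2], [(1, 0, [1, 3, 4, 5, 6])]⟩,
    ⟨[(0, 1)], [(0, 0), (0, 3), (1, 0)], [(0, 3)], [8], [(0, 0, [1, 3, 4, 5, 6]), (5, 3,
      [0])]⟩,
    ⟨[(0, 1), (1, 2)], [(0, 0), (1, 0), (1, 1), (2, 0), (3, 0)], [], [2, 9], [(0, 0, [1, 3,
      4, 5, 6])]⟩,
    ⟨[(0, 1), (0, 3), (1, 2), (1, 3), (1, 4)], [(0, 0), (0, 1), (0, 3), (0, 4), (0, 5), (0,
      6), (1, 0), (1, 1), (1, 3), (1, 4), (1, 5), (1, 6), (3, 0), (3, 1), (3, 3), (3, 4), (3,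
      5), (3, 6)], [(1, 3), (1, 4), (1, 5), (1, 6), (3, 4), (3, 5), (3, 6), (4, 5), (4, 6),
      (5, 6)], [], [(3, 1, [0]), (5, 3, [0]), (8, 4, [0]), (9, 5, [0]), (10, 6, [0])]⟩]
  Ta := [((0, 6), 0, 8), ((0, 7), 0, 9), ((1, 2), 0, 7), ((1, 4), 0, 2)]
  Tb := [((0, 6, 7), 0, 8, 9), ((1, 2, 4), 0, 7, 2), ((2, 1, 3), 7, 0, 1), ((3, 2, 8), 1, 7, 4),
    ((4, 1, 7), 2, 0, 9), ((5, 6, 10), 3, 8, 6), ((6, 0, 5), 8, 0, 3), ((7, 0, 4), 9, 0, 2),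
    ((8, 3, 9), 4, 1, 5), ((9, 8, 10), 5, 4, 6), ((10, 5, 9), 6, 3, 5)]
  Tc := [(0, 1, 3), (0, 1, 4), (0, 1, 5), (0, 1, 6), (0, 3, 4), (0, 3, 5), (0, 3, 6), (0, 4, 5),
    (0, 4, 6), (0, 5, 6)]
  Td := [((0, 1), (0, 6), 8), ((0, 1), (0, 7), 9), ((0, 1), (1, 2), 7), ((0, 1), (1, 4), 2), ((0,
    3), (0, 6), 8), ((0, 3), (0, 7), 9), ((0, 3), (1, 2), 7), ((0, 3), (1, 4), 2), ((0, 4),
    (0, 6), 8), ((0, 4), (0, 7), 9), ((0, 4), (1, 2), 7), ((0, 4), (1, 4), 2), ((0, 5), (0,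
    6), 8), ((0, 5), (0, 7), 9), ((0, 5), (1, 2), 7), ((0, 5), (1, 4), 2), ((0, 6), (0, 6),
    8), ((0, 6), (0, 7), 9), ((0, 6), (1, 2), 7), ((0, 6), (1, 4), 2), ((1, 0), (3, 2), 7),
    ((1, 0), (3, 8), 4), ((3, 0), (5, 6), 8), ((3, 0), (5, 10), 6), ((4, 0), (8, 3), 1), ((4,
    0), (8, 9), 5), ((5, 0), (9, 8), 4), ((5, 0), (9, 10), 6), ((6, 0), (10, 5), 3), ((6, 0),
    (10, 9), 5)]
  G := [[0, 0x111111e8111111e8c2, 0, 0x11c11c11ce8411c11c11ce18c, 0x11a11a11ae111a11a11ae1c2],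
    [0, 0x111111e4111111e4a4, 0x11611a11ce211c11a116e2c2, 0x111111e4111111e4c2,
    0x111111e84111111e28c]]

noncomputable def n422 : Ent := ⟨e422, noF, [], [], [(13, 12, [1685382419726887998779855760127267502807434353888247252031584751617, 0])]⟩

def c422 : PLift (Cov.check n422.C.D v422 = true) := ⟨by decide +kernel⟩

def b422 : PLift (entF (fidx ts) 400 422 n422 = true) := ⟨by decide +kernel⟩

theorem g422 : GoodF (fidx ts) 400 422 := GoodF.ofV v422 n422 c422.down b422.down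

/-- 484559:372 -/
noncomputable def e423 : SCfg where
  D := {
    a := 6
    L := 11
    kp := 9
    inn := [(0, 1), (0, 3), (0, 5), (1, 0), (1, 2), (1, 4), (1, 5), (2, 1), (2, 4), (3, 0), (3, 5), (4,
      1), (4, 2), (4, 5), (5, 0), (5, 1), (5, 3), (5, 4)]
    mix := [(0, 0), (1, 0), (1, 1), (1, 2), (1, 3), (2, 1), (2, 4), (3, 0), (3, 5), (3, 6), (4, 4), (4,
      7), (5, 6), (5, 7), (5, 8), (5, 9), (5, 10)]
    cl := [0, 0, 7, 8, 2, 9, 1, 3, 4, 5, 6]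
    chq := [(0, 1), (0, 3), (0, 4), (0, 5), (0, 6), (1, 0), (3, 0), (4, 0), (5, 0), (6, 0)]
    rng := [(0, 3), (0, 5), (1, 2), (1, 4), (2, 1), (2, 3), (3, 0), (3, 2), (4, 1), (4, 7), (5, 0), (5,
      6), (6, 5), (6, 8), (7, 4), (7, 10), (8, 6), (8, 9), (9, 8), (9, 10), (10, 7), (10, 9)]
    lev := [] }
  links := [[1, 6, 3, 5], [6, 0, 5, 4, 2, 7, 8, 9], [7, 1, 4, 10], [5, 0, 6, 11, 12], [10, 2, 1, 5, 13],
    [13, 4, 1, 0, 3, 12, 14, 15, 16]]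
  P := {
    a := 6
    N := 17
    nb := [106, 1013, 1170, 6241, 9254, 127003, 2571, 1286, 642, 322, 8340, 4168, 18472, 66608, 36896,
      81952, 40992]
    tri := [(0, 1, 5), (0, 1, 6), (0, 3, 5), (0, 3, 6), (1, 2, 4), (1, 2, 7), (1, 4, 5), (1, 6, 9), (1,
      7, 8), (1, 8, 9), (2, 4, 10), (2, 7, 10), (3, 5, 12), (3, 6, 11), (3, 11, 12), (4, 5, 13),
      (4, 10, 13), (5, 12, 14), (5, 13, 16), (5, 14, 15), (5, 15, 16)]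
    fin := [0, 0, 0, 0, 0, 0, 0, 0, 8, 9, 10, 11, 12, 13, 14, 15, 16]
    chd := [(0, 12), (0, 13), (0, 14), (0, 15), (0, 16)]
    steps := [(0, 1), (0, 2), (0, 3), (0, 4), (0, 5), (0, 6), (0, 7)] }
  rep := [0, 12, 10, 13, 14, 15, 16, 8, 9, 11]

noncomputable def v423 : Cov.CovD where
  P := 3
  N := 7
  pl := [2, 3, 4, 5]
  lev := [⟨[], [], [], [], [(0, 0, [1, 3, 4, 5, 6])]⟩,
    ⟨[], [(0, 0)], [(0, 0)], [7, 8], [(0, 0, [1, 3, 4, 5, 6]), (1, 0, [1, 3, 4, 5, 6])]⟩,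
    ⟨[(0, 1)], [(1, 0)], [], [2], [(1, 0, [1, 3, 4, 5, 6])]⟩,
    ⟨[(0, 1)], [(0, 0), (0, 1), (1, 0)], [(0, 1)], [9], [(0, 0, [1, 3, 4, 5, 6]), (6, 1,
      [0])]⟩,
    ⟨[(0, 1), (1, 2)], [(1, 0), (1, 3), (2, 0), (2, 3)], [], [2], [(7, 3, [0])]⟩,
    ⟨[(0, 1), (0, 3), (0, 4), (1, 2), (1, 3), (1, 4), (2, 4), (3, 4)], [(0, 0), (0, 1), (0,
      3), (0, 4), (0, 5), (0, 6), (1, 0), (1, 1), (1, 3), (1, 4), (1, 5), (1, 6), (3, 0), (3,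
      1), (3, 3), (3, 4), (3, 5), (3, 6), (4, 1), (4, 3), (4, 4), (4, 5), (4, 6)], [(1, 3),
      (1, 4), (1, 5), (1, 6), (3, 4), (3, 5), (3, 6), (4, 5), (4, 6), (5, 6)], [], [(6, 1,
      [0]), (7, 3, [0]), (8, 4, [0]), (9, 5, [0]), (10, 6, [0])]⟩]
  Ta := [((0, 3), 0, 8), ((0, 5), 0, 9), ((1, 2), 0, 7), ((1, 4), 0, 2)]
  Tb := [((0, 3, 5), 0, 8, 9), ((1, 2, 4), 0, 7, 2), ((2, 1, 3), 7, 0, 8), ((3, 0, 2), 8, 0, 7),
    ((4, 1, 7), 2, 0, 3), ((5, 0, 6), 9, 0, 1), ((6, 5, 8), 1, 9, 4), ((7, 4, 10), 3, 2, 6),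
    ((8, 6, 9), 4, 1, 5), ((9, 8, 10), 5, 4, 6), ((10, 7, 9), 6, 3, 5)]
  Tc := [(0, 1, 3), (0, 1, 4), (0, 1, 5), (0, 1, 6), (0, 3, 4), (0, 3, 5), (0, 3, 6), (0, 4, 5),
    (0, 4, 6), (0, 5, 6)]
  Td := [((0, 1), (0, 3), 8), ((0, 1), (0, 5), 9), ((0, 1), (1, 2), 7), ((0, 1), (1, 4), 2), ((0,
    3), (0, 3), 8), ((0, 3), (0, 5), 9), ((0, 3), (1, 2), 7), ((0, 3), (1, 4), 2), ((0, 4),
    (0, 3), 8), ((0, 4), (0, 5), 9), ((0, 4), (1, 2), 7), ((0, 4), (1, 4), 2), ((0, 5), (0,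
    3), 8), ((0, 5), (0, 5), 9), ((0, 5), (1, 2), 7), ((0, 5), (1, 4), 2), ((0, 6), (0, 3),
    8), ((0, 6), (0, 5), 9), ((0, 6), (1, 2), 7), ((0, 6), (1, 4), 2), ((1, 0), (6, 5), 9),
    ((1, 0), (6, 8), 4), ((3, 0), (7, 4), 2), ((3, 0), (7, 10), 6), ((4, 0), (8, 6), 1), ((4,
    0), (8, 9), 5), ((5, 0), (9, 8), 4), ((5, 0), (9, 10), 6), ((6, 0), (10, 7), 3), ((6, 0),
    (10, 9), 5)]
  G := [[0, 0x11c11c6111c11c6811c11cc8e2, 0, 0x11c11cc111c11cc811c11cc8e2,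
    0x11a11ac811a11ac8611a11ac18a], [0, 0x11c11ca111c146188c11c11cc8e2,
    0x11c116c411a11ac411c11cc4e2, 0x11c11cc411c11cc811c11cc4e2,
    0x11a11ac811a11ac8611a11ac28a]]

noncomputable def n423 : Ent := ⟨e423, noF, [], [], []⟩

def c423 : PLift (Cov.check n423.C.D v423 = true) := ⟨by decide +kernel⟩

def b423 : PLift (entF (fidx ts) 400 423 n423 = true) := ⟨by decide +kernel⟩

theorem g423 : GoodF (fidx ts) 400 423 := GoodF.ofV v423 n423 c423.down b423.down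

/-- 484564:374/1 -/
noncomputable def e424 : SCfg where
  D := {
    a := 6
    L := 9
    kp := 7
    inn := [(0, 1), (0, 3), (1, 0), (1, 2), (1, 4), (1, 5), (2, 1), (2, 4), (3, 0), (4, 1), (4, 2), (5,
      1)]
    mix := [(0, 0), (0, 1), (1, 0), (1, 1), (1, 2), (1, 3), (2, 2), (2, 4), (3, 0), (3, 1), (3, 5), (3,
      6), (4, 1), (4, 4), (4, 6), (4, 7), (5, 2), (5, 3), (5, 8)]
    cl := [0, 0, 1, 2, 3, 6, 4, 5, 7]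
    chq := [(1, 2), (2, 1), (2, 3), (2, 4), (2, 5), (3, 2), (4, 2), (5, 2)]
    rng := [(0, 3), (0, 5), (1, 6), (2, 4), (2, 8), (3, 0), (3, 8), (4, 2), (4, 7), (5, 0), (5, 6), (6,
      1), (6, 5), (6, 7), (7, 4), (7, 6), (8, 2), (8, 3)]
    lev := [] }
  links := [[1, 6, 3, 7], [6, 0, 7, 4, 2, 8, 5, 9], [8, 1, 4, 10], [7, 0, 6, 11, 12], [10, 2, 1, 7, 12,
    13], [9, 1, 8, 14]]
  P := {
    a := 6
    N := 15
    nb := [202, 1013, 1298, 6337, 13446, 17154, 2571, 4123, 17446, 16482, 8468, 4168, 10392, 5136,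
      800]
    tri := [(0, 1, 6), (0, 1, 7), (0, 3, 6), (0, 3, 7), (1, 2, 4), (1, 2, 8), (1, 4, 7), (1, 5, 8), (1,
      5, 9), (1, 6, 9), (2, 4, 10), (2, 8, 10), (3, 6, 11), (3, 7, 12), (3, 11, 12), (4, 7, 12),
      (4, 10, 13), (4, 12, 13), (5, 8, 14), (5, 9, 14)]
    fin := [0, 1, 2, 0, 1, 5, 0, 0, 5, 1, 2, 11, 12, 13, 14]
    chd := [(1, 2), (1, 12), (1, 13), (5, 1)]
    steps := [(0, 3), (0, 6), (0, 7), (1, 4), (1, 9), (2, 10), (5, 8)] }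
  rep := [0, 5, 1, 2, 12, 13, 11, 14]

noncomputable def v424 : Cov.CovD where
  P := 3
  N := 5
  pl := [5, 8]
  lev := [⟨[], [], [(0, 0)], [], [(0, 0, []), (1, 0, [])]⟩,
    ⟨[], [(0, 0), (0, 1), (0, 2)], [(0, 0), (0, 1), (0, 2), (1, 2)], [], [(0, 0, []), (1,
      0, []), (2, 1, [2]), (3, 2, [1, 3, 4, 5])]⟩,
    ⟨[(0, 1)], [(1, 0), (1, 1), (1, 2), (1, 3)], [(1, 3)], [], [(2, 1, [2]), (4, 3, [2])]⟩,
    ⟨[(0, 1)], [(0, 0), (0, 4), (1, 0)], [(0, 0), (0, 4)], [6], [(0, 0, []), (1, 0, []),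
      (6, 4, [2])]⟩,
    ⟨[(0, 1), (1, 2)], [(0, 0), (1, 0), (1, 1), (1, 2), (1, 3), (1, 4), (1, 5), (2, 0), (2,
      1), (2, 3), (2, 4), (2, 5), (3, 0), (3, 4)], [(0, 3), (0, 4), (0, 5), (3, 4), (3, 5),
      (4, 5)], [], [(1, 0, []), (4, 3, [2]), (6, 4, [2]), (7, 5, [2])]⟩,
    ⟨[(0, 1), (1, 2), (1, 4)], [(1, 0), (1, 1), (1, 2), (2, 1)], [(1, 2)], [7], [(2, 1,
      [2]), (3, 2, [1, 3, 4, 5])]⟩]
  Ta := [((0, 3), 0, 2), ((0, 5), 0, 6), ((1, 6), 0, 4)]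
  Tb := [((0, 3, 5), 0, 2, 6), ((2, 4, 8), 1, 3, 7), ((3, 0, 8), 2, 0, 7), ((4, 2, 7), 3, 1, 5),
    ((5, 0, 6), 6, 0, 4), ((6, 1, 5), 4, 0, 6), ((6, 1, 7), 4, 0, 5), ((6, 5, 7), 4, 6, 5),
    ((7, 4, 6), 5, 3, 4), ((8, 2, 3), 7, 1, 2)]
  Tc := [(2, 1, 3), (2, 1, 4), (2, 1, 5), (2, 3, 4), (2, 3, 5), (2, 4, 5)]
  Td := [((1, 2), (2, 4), 3), ((1, 2), (2, 8), 7), ((2, 1), (3, 0), 0), ((2, 1), (3, 8), 7), ((2,
    3), (3, 0), 0), ((2, 3), (3, 8), 7), ((2, 4), (3, 0), 0), ((2, 4), (3, 8), 7), ((2, 5),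
    (3, 0), 0), ((2, 5), (3, 8), 7), ((3, 2), (4, 2), 1), ((3, 2), (4, 7), 5), ((4, 2), (6,
    1), 0), ((4, 2), (6, 5), 6), ((4, 2), (6, 7), 5), ((5, 2), (7, 4), 3), ((5, 2), (7, 6),
    4)]
  G := [[0, 0x2c2b2c27c2ccfe248, 0x414c1c1c1ecc181c1e8c2, 0x525252ec2c2c2ec84,
    0x5444a844944f945e948d82], [0, 0xc2c2a2ea2a2a2e424242ee48, 0, 0x525252e9252c2ec84,
    0x545454e848484e949454ed82]]

noncomputable def n424 : Ent := ⟨e424, noF, [], [], []⟩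

def c424 : PLift (Cov.check n424.C.D v424 = true) := ⟨by decide +kernel⟩

def b424 : PLift (entF (fidx ts) 400 424 n424 = true) := ⟨by decide +kernel⟩

theorem g424 : GoodF (fidx ts) 400 424 := GoodF.ofV v424 n424 c424.down b424.down

/-- 484564:374 -/
noncomputable def e425 : SCfg where
  D := {
    a := 6
    L := 10
    kp := 8
    inn := [(0, 1), (0, 3), (1, 0), (1, 2), (1, 4), (1, 5), (2, 1), (2, 4), (3, 0), (4, 1), (4, 2), (5,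
      1)]
    mix := [(0, 0), (0, 1), (1, 0), (1, 1), (1, 2), (1, 3), (2, 2), (2, 4), (3, 0), (3, 1), (3, 5), (3,
      6), (4, 1), (4, 4), (4, 7), (4, 8), (5, 2), (5, 3), (5, 9)]
    cl := [0, 0, 1, 2, 3, 6, 7, 4, 5, 8]
    chq := [(1, 2), (2, 1), (2, 3), (2, 4), (2, 5), (3, 2), (4, 2), (5, 2)]
    rng := [(0, 3), (0, 5), (1, 6), (1, 7), (2, 4), (2, 9), (3, 0), (3, 9), (4, 2), (4, 8), (5, 0), (5,
      6), (6, 1), (6, 5), (7, 1), (7, 8), (8, 4), (8, 7), (9, 2), (9, 3)]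
    lev := [] }
  links := [[1, 6, 3, 7], [6, 0, 7, 4, 2, 8, 5, 9], [8, 1, 4, 10], [7, 0, 6, 11, 12], [10, 2, 1, 7, 13,
    14], [9, 1, 8, 15]]
  P := {
    a := 6
    N := 16
    nb := [202, 1013, 1298, 6337, 25734, 33538, 2571, 12315, 33830, 32866, 16660, 4168, 2184, 16528,
      9232, 800]
    tri := [(0, 1, 6), (0, 1, 7), (0, 3, 6), (0, 3, 7), (1, 2, 4), (1, 2, 8), (1, 4, 7), (1, 5, 8), (1,
      5, 9), (1, 6, 9), (2, 4, 10), (2, 8, 10), (3, 6, 11), (3, 7, 12), (3, 11, 12), (4, 7, 13),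
      (4, 10, 14), (4, 13, 14), (5, 8, 15), (5, 9, 15)]
    fin := [0, 1, 2, 0, 1, 5, 0, 0, 5, 1, 2, 11, 12, 13, 14, 15]
    chd := [(1, 2), (1, 13), (1, 14), (5, 1)]
    steps := [(0, 3), (0, 6), (0, 7), (1, 4), (1, 9), (2, 10), (5, 8)] }
  rep := [0, 5, 1, 2, 13, 14, 11, 12, 15]

noncomputable def v425 : Cov.CovD where
  P := 3
  N := 6
  pl := [5, 6, 9]
  lev := [⟨[], [], [(0, 0)], [], [(0, 0, []), (1, 0, [])]⟩,
    ⟨[], [(0, 0), (0, 1), (0, 2)], [(0, 0), (0, 1), (0, 2), (1, 2)], [], [(0, 0, []), (1,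
      0, []), (2, 1, [2]), (3, 2, [1, 3, 4, 5])]⟩,
    ⟨[(0, 1)], [(1, 0), (1, 1), (1, 2), (1, 3)], [(1, 3)], [], [(2, 1, [2]), (4, 3, [2])]⟩,
    ⟨[(0, 1)], [(0, 0), (1, 0)], [(0, 0)], [6, 7], [(0, 0, []), (1, 0, [])]⟩,
    ⟨[(0, 1), (1, 2)], [(0, 0), (1, 0), (1, 1), (1, 2), (1, 3), (1, 4), (1, 5), (2, 0), (2,
      1), (2, 3), (2, 4), (2, 5), (3, 0)], [(0, 3), (0, 4), (0, 5), (3, 4), (3, 5), (4, 5)],
      [], [(1, 0, []), (4, 3, [2]), (7, 4, [2]), (8, 5, [2])]⟩,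
    ⟨[(0, 1), (1, 2), (1, 4)], [(1, 0), (1, 1), (1, 2), (2, 1)], [(1, 2)], [8], [(2, 1,
      [2]), (3, 2, [1, 3, 4, 5])]⟩]
  Ta := [((0, 3), 0, 2), ((0, 5), 0, 6), ((1, 6), 0, 7), ((1, 7), 0, 4)]
  Tb := [((0, 3, 5), 0, 2, 6), ((1, 6, 7), 0, 7, 4), ((2, 4, 9), 1, 3, 8), ((3, 0, 9), 2, 0, 8),
    ((4, 2, 8), 3, 1, 5), ((5, 0, 6), 6, 0, 7), ((6, 1, 5), 7, 0, 6), ((7, 1, 8), 4, 0, 5),
    ((8, 4, 7), 5, 3, 4), ((9, 2, 3), 8, 1, 2)]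
  Tc := [(2, 1, 3), (2, 1, 4), (2, 1, 5), (2, 3, 4), (2, 3, 5), (2, 4, 5)]
  Td := [((1, 2), (2, 4), 3), ((1, 2), (2, 9), 8), ((2, 1), (3, 0), 0), ((2, 1), (3, 9), 8), ((2,
    3), (3, 0), 0), ((2, 3), (3, 9), 8), ((2, 4), (3, 0), 0), ((2, 4), (3, 9), 8), ((2, 5),
    (3, 0), 0), ((2, 5), (3, 9), 8), ((3, 2), (4, 2), 1), ((3, 2), (4, 8), 5), ((4, 2), (7,
    1), 0), ((4, 2), (7, 8), 5), ((5, 2), (8, 4), 3), ((5, 2), (8, 7), 4)]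
  G := [[0, 0xc2c2aa222a2e422c2b42ee48, 0x414c1c1c1ec8c181c1e846, 0xc29252ec25292e584,
    0x545454e848484e949494ed84], [0, 0x42226c2c222ecc282cc22ac2, 0, 0x529292e925292e584,
    0x544454e849484e944494ed84]]

noncomputable def n425 : Ent := ⟨e425, noF, [], [], [(12, 13, [385753028440516072301428330182238677962518295842732840408743937, 0])]⟩

def c425 : PLift (Cov.check n425.C.D v425 = true) := ⟨by decide +kernel⟩

def b425 : PLift (entF (fidx ts) 400 425 n425 = true) := ⟨by decide +kernel⟩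

theorem g425 : GoodF (fidx ts) 400 425 := GoodF.ofV v425 n425 c425.down b425.down

/-- 484566:375/1 -/
noncomputable def e426 : SCfg where
  D := {
    a := 6
    L := 10
    kp := 7
    inn := [(0, 1), (0, 3), (1, 0), (1, 2), (1, 4), (1, 5), (2, 1), (2, 4), (3, 0), (4, 1), (4, 2), (4,
      5), (5, 1), (5, 4)]
    mix := [(0, 0), (0, 1), (1, 0), (1, 1), (1, 2), (1, 3), (2, 2), (2, 4), (3, 0), (3, 1), (3, 5), (3,
      6), (4, 4), (4, 7), (4, 8), (5, 3), (5, 5), (5, 8), (5, 9)]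
    cl := [0, 0, 2, 1, 3, 4, 6, 5, 1, 7]
    chq := [(0, 3), (0, 5), (3, 0), (5, 0)]
    rng := [(0, 3), (0, 5), (1, 2), (1, 6), (2, 1), (2, 4), (3, 0), (3, 5), (4, 2), (4, 7), (5, 0), (5,
      3), (5, 6), (5, 9), (6, 1), (6, 5), (7, 4), (7, 8), (8, 7), (8, 9), (9, 5), (9, 8)]
    lev := [] }
  links := [[1, 6, 3, 7], [6, 0, 7, 8, 2, 4, 5, 9], [4, 1, 8, 10], [7, 0, 6, 11, 12], [5, 1, 2, 10, 13,
    14], [9, 1, 4, 14, 15, 11]]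
  P := {
    a := 6
    N := 16
    nb := [202, 1013, 1298, 6337, 25638, 51730, 2571, 4363, 1158, 2146, 8468, 37480, 2184, 17424,
      41008, 18464]
    tri := [(0, 1, 6), (0, 1, 7), (0, 3, 6), (0, 3, 7), (1, 2, 4), (1, 2, 8), (1, 4, 5), (1, 5, 9), (1,
      6, 9), (1, 7, 8), (2, 4, 10), (2, 8, 10), (3, 6, 11), (3, 7, 12), (3, 11, 12), (4, 5, 14),
      (4, 10, 13), (4, 13, 14), (5, 9, 11), (5, 11, 15), (5, 14, 15)]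
    fin := [0, 0, 0, 0, 0, 5, 0, 0, 8, 5, 10, 11, 12, 13, 5, 15]
    chd := [(0, 10), (0, 13)]
    steps := [(0, 1), (0, 2), (0, 3), (0, 4), (0, 6), (0, 7), (5, 14), (5, 9)] }
  rep := [0, 5, 8, 10, 11, 13, 12, 15]

noncomputable def v426 : Cov.CovD where
  P := 3
  N := 5
  pl := [2, 5, 6, 9]
  lev := [⟨[], [], [(0, 0)], [], [(0, 0, [3, 5]), (1, 0, [3, 5])]⟩,
    ⟨[], [(0, 0), (0, 1)], [(0, 0), (0, 1)], [2], [(0, 0, [3, 5]), (1, 0, [3, 5]), (3, 1,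
      [])]⟩,
    ⟨[(0, 1)], [(1, 0), (1, 1), (1, 3)], [], [2], [(4, 3, [0])]⟩,
    ⟨[(0, 1)], [(0, 0), (1, 0)], [(0, 0)], [4, 6], [(0, 0, [3, 5]), (1, 0, [3, 5])]⟩,
    ⟨[(0, 1), (1, 2)], [(1, 0), (1, 1), (1, 3), (1, 5), (2, 1), (2, 3), (2, 5)], [(1, 3),
      (1, 5), (3, 5)], [], [(4, 3, [0]), (7, 5, [0]), (8, 1, [])]⟩,
    ⟨[(0, 1), (1, 2), (1, 4), (2, 4)], [(1, 0), (1, 1), (4, 1), (4, 3), (4, 5)], [(1, 1)],
      [4, 7], [(3, 1, []), (8, 1, [])]⟩]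
  Ta := [((0, 3), 0, 1), ((0, 5), 0, 4), ((1, 2), 0, 2), ((1, 6), 0, 6), ((3, 0), 1, 0), ((3, 5),
    1, 4), ((8, 7), 1, 5), ((8, 9), 1, 7)]
  Tb := [((0, 3, 5), 0, 1, 4), ((1, 2, 6), 0, 2, 6), ((2, 1, 4), 2, 0, 3), ((3, 0, 5), 1, 0, 4),
    ((4, 2, 7), 3, 2, 5), ((5, 0, 3), 4, 0, 1), ((5, 0, 6), 4, 0, 6), ((5, 0, 9), 4, 0, 7),
    ((5, 3, 6), 4, 1, 6), ((5, 3, 9), 4, 1, 7), ((5, 6, 9), 4, 6, 7), ((6, 1, 5), 6, 0, 4),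
    ((7, 4, 8), 5, 3, 1), ((8, 7, 9), 1, 5, 7), ((9, 5, 8), 7, 4, 1)]
  Tc := [(0, 3, 5)]
  Td := [((0, 3), (0, 3), 1), ((0, 3), (0, 5), 4), ((0, 3), (1, 2), 2), ((0, 3), (1, 6), 6), ((0,
    5), (0, 3), 1), ((0, 5), (0, 5), 4), ((0, 5), (1, 2), 2), ((0, 5), (1, 6), 6), ((3, 0),
    (4, 2), 2), ((3, 0), (4, 7), 5), ((5, 0), (7, 4), 3), ((5, 0), (7, 8), 1)]
  G := [[0, 0xe1e1c2eee25e1e1c1e8c2, 0, 0x1998f1554f5dd8fe184, 0x1998f1554f5dd8fe182], [0, 0, 0,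
    0x545545611995191d9e911191e148dc8, 0x51491155d1e198d1859cdeb84], [0, 0,
    0x9151d1e9151d1e682, 0x1998f1554f1ddcfe184, 0x1998f5154f5dd8fe182], [0, 0,
    0x9151d1e9151d1ea42, 0x1555164115111e118998d18d9cdedc8, 0x915191e198d55c5dcde382]]

noncomputable def n426 : Ent := ⟨e426, noF, [], [], []⟩

def c426 : PLift (Cov.check n426.C.D v426 = true) := ⟨by decide +kernel⟩

def b426 : PLift (entF (fidx ts) 400 426 n426 = true) := ⟨by decide +kernel⟩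

theorem g426 : GoodF (fidx ts) 400 426 := GoodF.ofV v426 n426 c426.down b426.down

/-- 484566:375 -/
noncomputable def e427 : SCfg where
  D := {
    a := 6
    L := 11
    kp := 8
    inn := [(0, 1), (0, 3), (1, 0), (1, 2), (1, 4), (1, 5), (2, 1), (2, 4), (3, 0), (4, 1), (4, 2), (4,
      5), (5, 1), (5, 4)]
    mix := [(0, 0), (0, 1), (1, 0), (1, 1), (1, 2), (1, 3), (2, 2), (2, 4), (3, 0), (3, 1), (3, 5), (3,
      6), (4, 4), (4, 7), (4, 8), (5, 3), (5, 8), (5, 9), (5, 10)]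
    cl := [0, 0, 2, 1, 3, 5, 6, 4, 1, 7, 8]
    chq := [(0, 3), (0, 4), (3, 0), (4, 0)]
    rng := [(0, 3), (0, 5), (1, 2), (1, 6), (2, 1), (2, 4), (3, 0), (3, 10), (4, 2), (4, 7), (5, 0),
      (5, 6), (6, 1), (6, 5), (7, 4), (7, 8), (8, 7), (8, 9), (9, 8), (9, 10), (10, 3), (10, 9)]
    lev := [] }
  links := [[1, 6, 3, 7], [6, 0, 7, 8, 2, 4, 5, 9], [4, 1, 8, 10], [7, 0, 6, 11, 12], [5, 1, 2, 10, 13,
    14], [9, 1, 4, 14, 15, 16]]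
  P := {
    a := 6
    N := 17
    nb := [202, 1013, 1298, 6337, 25638, 115218, 2571, 4363, 1158, 65634, 8468, 4168, 2184, 17424,
      41008, 81952, 33312]
    tri := [(0, 1, 6), (0, 1, 7), (0, 3, 6), (0, 3, 7), (1, 2, 4), (1, 2, 8), (1, 4, 5), (1, 5, 9), (1,
      6, 9), (1, 7, 8), (2, 4, 10), (2, 8, 10), (3, 6, 11), (3, 7, 12), (3, 11, 12), (4, 5, 14),
      (4, 10, 13), (4, 13, 14), (5, 9, 16), (5, 14, 15), (5, 15, 16)]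
    fin := [0, 0, 0, 0, 0, 5, 0, 0, 8, 5, 10, 11, 12, 13, 5, 15, 16]
    chd := [(0, 10), (0, 13)]
    steps := [(0, 1), (0, 2), (0, 3), (0, 4), (0, 6), (0, 7), (5, 14), (5, 9)] }
  rep := [0, 5, 8, 10, 13, 11, 12, 15, 16]

noncomputable def v427 : Cov.CovD where
  P := 3
  N := 6
  pl := [2, 5, 6, 9, 10]
  lev := [⟨[], [], [(0, 0)], [], [(0, 0, [3, 4]), (1, 0, [3, 4])]⟩,
    ⟨[], [(0, 0), (0, 1)], [(0, 0), (0, 1)], [2], [(0, 0, [3, 4]), (1, 0, [3, 4]), (3, 1,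
      [])]⟩,
    ⟨[(0, 1)], [(1, 0), (1, 1), (1, 3)], [], [2], [(4, 3, [0])]⟩,
    ⟨[(0, 1)], [(0, 0), (1, 0)], [(0, 0)], [5, 6], [(0, 0, [3, 4]), (1, 0, [3, 4])]⟩,
    ⟨[(0, 1), (1, 2)], [(1, 0), (1, 1), (1, 3), (1, 4), (2, 1), (2, 3), (2, 4)], [(1, 3),
      (1, 4), (3, 4)], [], [(4, 3, [0]), (7, 4, [0]), (8, 1, [])]⟩,
    ⟨[(0, 1), (1, 2), (1, 4), (2, 4)], [(1, 0), (1, 1), (4, 1), (4, 3), (4, 4)], [(1, 1)],
      [7, 8], [(3, 1, []), (8, 1, [])]⟩]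
  Ta := [((0, 3), 0, 1), ((0, 5), 0, 5), ((1, 2), 0, 2), ((1, 6), 0, 6), ((3, 0), 1, 0), ((3,
    10), 1, 8), ((8, 7), 1, 4), ((8, 9), 1, 7)]
  Tb := [((0, 3, 5), 0, 1, 5), ((1, 2, 6), 0, 2, 6), ((2, 1, 4), 2, 0, 3), ((3, 0, 10), 1, 0, 8),
    ((4, 2, 7), 3, 2, 4), ((5, 0, 6), 5, 0, 6), ((6, 1, 5), 6, 0, 5), ((7, 4, 8), 4, 3, 1),
    ((8, 7, 9), 1, 4, 7), ((9, 8, 10), 7, 1, 8), ((10, 3, 9), 8, 1, 7)]
  Tc := [(0, 3, 4)]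
  Td := [((0, 3), (0, 3), 1), ((0, 3), (0, 5), 5), ((0, 3), (1, 2), 2), ((0, 3), (1, 6), 6), ((0,
    4), (0, 3), 1), ((0, 4), (0, 5), 5), ((0, 4), (1, 2), 2), ((0, 4), (1, 6), 6), ((3, 0),
    (4, 2), 2), ((3, 0), (4, 7), 4), ((4, 0), (7, 4), 3), ((4, 0), (7, 8), 1)]
  G := [[0, 0xe1e1e1e4e1e1e1e8c2, 0, 0x1d9d1ad259dcf1d6e948, 0x59dcf5dd8f59dcfe184], [0, 0, 0,
    0x511d551e4511d911e998dd9cda9c2, 0x51416911d9d1e5dcd985198deb82], [0, 0,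
    0xd1d1d1ed1d1d1ea48, 0xd1dcf59dcfd9d4fe148, 0x5dd8f5dd8f1ddcfe184], [0, 0,
    0xd1d1d1ed1d1d1ea42, 0x4141d51d51d5ec81d91991d9e846, 0xd1d1d1e59cd1dcd59cde384]]

noncomputable def n427 : Ent := ⟨e427, noF, [], [], [(11, 16, [1580044410770988437309982408355971841652082177953823432505690857473, 0])]⟩

def c427 : PLift (Cov.check n427.C.D v427 = true) := ⟨by decide +kernel⟩

def b427 : PLift (entF (fidx ts) 400 427 n427 = true) := ⟨by decide +kernel⟩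

theorem g427 : GoodF (fidx ts) 400 427 := GoodF.ofV v427 n427 c427.down b427.down

/-- 457764:377/1 -/
noncomputable def e428 : SCfg where
  D := {
    a := 6
    L := 10
    kp := 8
    inn := [(0, 1), (0, 2), (1, 0), (1, 2), (2, 0), (2, 1), (2, 3), (2, 4), (3, 2), (3, 4), (4, 2), (4,
      3), (4, 5), (5, 4)]
    mix := [(0, 0), (0, 1), (1, 1), (1, 2), (1, 3), (2, 0), (2, 3), (2, 4), (3, 3), (3, 5), (3, 6), (3,
      7), (3, 8), (4, 4), (4, 8), (4, 9), (5, 1), (5, 8), (5, 9)]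
    cl := [0, 1, 8, 0, 2, 5, 6, 7, 3, 4]
    chq := [(1, 2), (2, 1), (2, 3), (2, 5), (2, 6), (2, 7), (3, 2), (5, 2), (6, 2), (7, 2)]
    rng := [(0, 1), (0, 4), (1, 0), (1, 2), (1, 8), (1, 9), (2, 1), (2, 3), (3, 2), (3, 5), (4, 0), (4,
      9), (5, 3), (5, 6), (6, 5), (6, 7), (7, 6), (7, 8), (8, 1), (8, 7), (9, 1), (9, 4)]
    lev := [] }
  links := [[1, 2, 6, 7], [2, 0, 7, 8, 9], [6, 0, 1, 9, 3, 4, 10], [4, 2, 9, 11, 12, 13, 14], [10, 2, 3,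
    14, 5, 15], [15, 4, 14, 7]]
  P := {
    a := 6
    N := 16
    nb := [198, 901, 1627, 31252, 50220, 49296, 1157, 49507, 642, 2318, 32852, 4616, 10248, 20488,
      8376, 1200]
    tri := [(0, 1, 2), (0, 1, 7), (0, 2, 6), (0, 6, 7), (1, 2, 9), (1, 7, 8), (1, 8, 9), (2, 3, 4), (2,
      3, 9), (2, 4, 10), (2, 6, 10), (3, 4, 14), (3, 9, 11), (3, 11, 12), (3, 12, 13), (3, 13,
      14), (4, 5, 14), (4, 5, 15), (4, 10, 15), (5, 7, 14), (5, 7, 15)]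
    fin := [0, 0, 2, 2, 4, 4, 0, 4, 8, 0, 2, 11, 12, 13, 14, 15]
    chd := [(2, 11), (2, 12), (2, 13), (2, 14), (4, 2)]
    steps := [(0, 1), (0, 6), (0, 9), (2, 3), (2, 10), (4, 5), (4, 7)] }
  rep := [0, 4, 2, 14, 15, 11, 12, 13, 8]

noncomputable def v428 : Cov.CovD where
  P := 3
  N := 6
  pl := [2, 9]
  lev := [⟨[], [], [(0, 1)], [], [(0, 0, []), (1, 1, [2])]⟩,
    ⟨[], [(0, 0), (0, 1)], [(0, 1)], [8], [(1, 1, [2]), (3, 0, [])]⟩,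
    ⟨[(0, 1)], [(0, 0), (0, 1), (0, 2), (1, 0), (1, 1), (1, 2)], [(0, 0), (0, 2)], [], [(0,
      0, []), (3, 0, []), (4, 2, [1, 3, 5, 6, 7])]⟩,
    ⟨[(0, 2), (1, 2)], [(1, 0), (2, 0), (2, 2), (2, 3), (2, 5), (2, 6), (2, 7)], [(0, 3),
      (0, 5), (0, 6), (0, 7), (3, 5), (3, 6), (3, 7), (5, 6), (5, 7), (6, 7)], [], [(3, 0,
      []), (5, 5, [2]), (6, 6, [2]), (7, 7, [2]), (8, 3, [2])]⟩,
    ⟨[(0, 2), (1, 2), (2, 3)], [(2, 0), (2, 2), (2, 3), (3, 0), (3, 2), (3, 3), (3, 5), (3,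
      6), (3, 7)], [(2, 3)], [4], [(4, 2, [1, 3, 5, 6, 7]), (8, 3, [2])]⟩,
    ⟨[(2, 4), (3, 4)], [(0, 1), (1, 1), (3, 3), (4, 1), (4, 2), (4, 3)], [(1, 3)], [4],
      [(1, 1, [2]), (8, 3, [2])]⟩]
  Ta := [((0, 1), 0, 1), ((0, 4), 0, 2), ((3, 2), 0, 8), ((3, 5), 0, 5)]
  Tb := [((0, 1, 4), 0, 1, 2), ((1, 0, 2), 1, 0, 8), ((1, 0, 8), 1, 0, 3), ((1, 0, 9), 1, 0, 4),
    ((1, 2, 8), 1, 8, 3), ((1, 2, 9), 1, 8, 4), ((1, 8, 9), 1, 3, 4), ((2, 1, 3), 8, 1, 0),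
    ((3, 2, 5), 0, 8, 5), ((4, 0, 9), 2, 0, 4), ((5, 3, 6), 5, 0, 6), ((6, 5, 7), 6, 5, 7),
    ((7, 6, 8), 7, 6, 3), ((8, 1, 7), 3, 1, 7), ((9, 1, 4), 4, 1, 2)]
  Tc := [(2, 1, 3), (2, 1, 5), (2, 1, 6), (2, 1, 7), (2, 3, 5), (2, 3, 6), (2, 3, 7), (2, 5, 6),
    (2, 5, 7), (2, 6, 7)]
  Td := [((1, 2), (1, 0), 0), ((1, 2), (1, 2), 8), ((1, 2), (1, 8), 3), ((1, 2), (1, 9), 4), ((2,
    1), (4, 0), 0), ((2, 1), (4, 9), 4), ((2, 3), (4, 0), 0), ((2, 3), (4, 9), 4), ((2, 5),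
    (4, 0), 0), ((2, 5), (4, 9), 4), ((2, 6), (4, 0), 0), ((2, 6), (4, 9), 4), ((2, 7), (4,
    0), 0), ((2, 7), (4, 9), 4), ((3, 2), (8, 1), 1), ((3, 2), (8, 7), 7), ((5, 2), (5, 3),
    0), ((5, 2), (5, 6), 6), ((6, 2), (6, 5), 5), ((6, 2), (6, 7), 7), ((7, 2), (7, 6), 6),
    ((7, 2), (7, 8), 3)]
  G := [[0, 0xe124e124a4, 0x841e12111e12c8, 0x4152882c12, 0x841b4214], [0, 0, 0, 0x4152882c28,
    0x841b424c1b48c4]]

noncomputable def n428 : Ent := ⟨e428, noF, [], [], []⟩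

def c428 : PLift (Cov.check n428.C.D v428 = true) := ⟨by decide +kernel⟩

def b428 : PLift (entF (fidx ts) 400 428 n428 = true) := ⟨by decide +kernel⟩

theorem g428 : GoodF (fidx ts) 400 428 := GoodF.ofV v428 n428 c428.down b428.down

/-- 457764:377/2 -/
noncomputable def e429 : SCfg where
  D := {
    a := 6
    L := 10
    kp := 8
    inn := [(0, 1), (0, 2), (1, 0), (1, 2), (2, 0), (2, 1), (2, 3), (2, 4), (3, 2), (3, 4), (4, 2), (4,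
      3), (4, 5), (5, 4)]
    mix := [(0, 0), (0, 1), (1, 1), (1, 2), (1, 3), (2, 0), (2, 3), (2, 4), (3, 2), (3, 3), (3, 5), (3,
      6), (3, 7), (4, 4), (4, 7), (4, 8), (5, 7), (5, 8), (5, 9)]
    cl := [0, 5, 2, 0, 1, 6, 7, 3, 4, 8]
    chq := [(1, 2), (1, 3), (1, 6), (1, 7), (2, 1), (3, 1), (3, 4), (4, 3), (6, 1), (7, 1)]
    rng := [(0, 1), (0, 4), (1, 0), (1, 2), (2, 1), (2, 3), (2, 5), (3, 2), (4, 0), (4, 8), (5, 2), (5,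
      6), (6, 5), (6, 7), (7, 6), (7, 9), (8, 4), (8, 9), (9, 7), (9, 8)]
    lev := [] }
  links := [[1, 2, 6, 7], [2, 0, 7, 8, 9], [6, 0, 1, 9, 3, 4, 10], [4, 2, 9, 8, 11, 12, 13], [10, 2, 3,
    13, 5, 14], [14, 4, 13, 15]]
  P := {
    a := 6
    N := 16
    nb := [198, 901, 1627, 15124, 25644, 57360, 1157, 323, 2698, 270, 16468, 4360, 10248, 36920,
      33840, 24608]
    tri := [(0, 1, 2), (0, 1, 7), (0, 2, 6), (0, 6, 7), (1, 2, 9), (1, 7, 8), (1, 8, 9), (2, 3, 4), (2,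
      3, 9), (2, 4, 10), (2, 6, 10), (3, 4, 13), (3, 8, 9), (3, 8, 11), (3, 11, 12), (3, 12, 13),
      (4, 5, 13), (4, 5, 14), (4, 10, 14), (5, 13, 15), (5, 14, 15)]
    fin := [0, 0, 0, 3, 3, 5, 0, 7, 8, 0, 3, 11, 12, 5, 14, 15]
    chd := [(3, 5), (3, 11), (3, 12), (5, 14), (8, 3)]
    steps := [(0, 1), (0, 2), (0, 6), (0, 9), (3, 4), (3, 10), (5, 13)] }
  rep := [0, 3, 8, 5, 14, 7, 11, 12, 15]

noncomputable def v429 : Cov.CovD where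
  P := 3
  N := 6
  pl := [1, 9]
  lev := [⟨[], [], [], [5], [(0, 0, [])]⟩,
    ⟨[], [(0, 0), (0, 2)], [(0, 2)], [5], [(2, 2, [1]), (3, 0, [])]⟩,
    ⟨[(0, 1)], [(0, 0), (0, 1), (1, 0), (1, 1), (1, 2)], [(0, 0), (0, 1)], [], [(0, 0, []),
      (3, 0, []), (4, 1, [2, 3, 6, 7])]⟩,
    ⟨[(0, 2), (1, 2)], [(1, 0), (1, 2), (2, 0), (2, 1), (2, 2), (2, 3), (2, 6), (2, 7)],
      [(0, 2), (0, 3), (0, 6), (0, 7), (2, 3), (2, 6), (2, 7), (3, 6), (3, 7), (6, 7)], [],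
      [(2, 2, [1]), (3, 0, []), (5, 6, [1]), (6, 7, [1]), (7, 3, [1, 4])]⟩,
    ⟨[(0, 2), (1, 2), (2, 3)], [(2, 0), (2, 1), (2, 3), (2, 4), (3, 0), (3, 1), (3, 2), (3,
      3), (3, 4), (3, 6), (3, 7)], [(1, 3), (1, 4), (3, 4)], [], [(4, 1, [2, 3, 6, 7]), (7,
      3, [1, 4]), (8, 4, [3])]⟩,
    ⟨[(2, 4), (3, 4)], [(3, 3), (4, 1), (4, 3), (4, 4)], [(3, 4)], [8], [(7, 3, [1, 4]),
      (8, 4, [3])]⟩]
  Ta := [((0, 1), 0, 5), ((0, 4), 0, 1), ((3, 2), 0, 2)]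
  Tb := [((0, 1, 4), 0, 5, 1), ((1, 0, 2), 5, 0, 2), ((2, 1, 3), 2, 5, 0), ((2, 1, 5), 2, 5, 6),
    ((2, 3, 5), 2, 0, 6), ((4, 0, 8), 1, 0, 4), ((5, 2, 6), 6, 2, 7), ((6, 5, 7), 7, 6, 3),
    ((7, 6, 9), 3, 7, 8), ((8, 4, 9), 4, 1, 8), ((9, 7, 8), 8, 3, 4)]
  Tc := [(1, 2, 3), (1, 2, 6), (1, 2, 7), (1, 3, 6), (1, 3, 7), (1, 6, 7), (3, 1, 4)]
  Td := [((1, 2), (4, 0), 0), ((1, 2), (4, 8), 4), ((1, 3), (4, 0), 0), ((1, 3), (4, 8), 4), ((1,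
    6), (4, 0), 0), ((1, 6), (4, 8), 4), ((1, 7), (4, 0), 0), ((1, 7), (4, 8), 4), ((2, 1),
    (2, 1), 5), ((2, 1), (2, 3), 0), ((2, 1), (2, 5), 6), ((3, 1), (7, 6), 7), ((3, 1), (7,
    9), 8), ((3, 4), (7, 6), 7), ((3, 4), (7, 9), 8), ((4, 3), (8, 4), 1), ((4, 3), (8, 9),
    8), ((6, 1), (5, 2), 2), ((6, 1), (5, 6), 7), ((7, 1), (6, 5), 6), ((7, 1), (6, 7), 3)]
  G := [[0, 0x913e14416832195c1a4c, 0, 0x6352a82c442a23d2c92, 0x642a392c86352a82c26], [0, 0,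
    0x642a392c263d2882c61, 0x442a23d2c6352a82cc1, 0x442a23d2c6352a82ca1]]

noncomputable def n429 : Ent := ⟨e429, noF, [], [], []⟩

def c429 : PLift (Cov.check n429.C.D v429 = true) := ⟨by decide +kernel⟩

def b429 : PLift (entF (fidx ts) 400 429 n429 = true) := ⟨by decide +kernel⟩

theorem g429 : GoodF (fidx ts) 400 429 := GoodF.ofV v429 n429 c429.down b429.down

/-- 457764:377 -/
noncomputable def e430 : SCfg where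
  D := {
    a := 6
    L := 11
    kp := 9
    inn := [(0, 1), (0, 2), (1, 0), (1, 2), (2, 0), (2, 1), (2, 3), (2, 4), (3, 2), (3, 4), (4, 2), (4,
      3), (4, 5), (5, 4)]
    mix := [(0, 0), (0, 1), (1, 1), (1, 2), (1, 3), (2, 0), (2, 3), (2, 4), (3, 3), (3, 5), (3, 6), (3,
      7), (3, 8), (4, 4), (4, 8), (4, 9), (5, 8), (5, 9), (5, 10)]
    cl := [0, 2, 8, 0, 1, 5, 6, 7, 3, 4, 9]
    chq := [(1, 3), (1, 5), (1, 6), (1, 7), (3, 1), (3, 4), (4, 3), (5, 1), (6, 1), (7, 1)]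
    rng := [(0, 1), (0, 4), (1, 0), (1, 2), (2, 1), (2, 3), (3, 2), (3, 5), (4, 0), (4, 9), (5, 3), (5,
      6), (6, 5), (6, 7), (7, 6), (7, 8), (8, 7), (8, 10), (9, 4), (9, 10), (10, 8), (10, 9)]
    lev := [] }
  links := [[1, 2, 6, 7], [2, 0, 7, 8, 9], [6, 0, 1, 9, 3, 4, 10], [4, 2, 9, 11, 12, 13, 14], [10, 2, 3,
    14, 5, 15], [15, 4, 14, 16]]
  P := {
    a := 6
    N := 17
    nb := [198, 901, 1627, 31252, 50220, 114704, 1157, 323, 642, 2318, 32852, 4616, 10248, 20488,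
      73784, 66608, 49184]
    tri := [(0, 1, 2), (0, 1, 7), (0, 2, 6), (0, 6, 7), (1, 2, 9), (1, 7, 8), (1, 8, 9), (2, 3, 4), (2,
      3, 9), (2, 4, 10), (2, 6, 10), (3, 4, 14), (3, 9, 11), (3, 11, 12), (3, 12, 13), (3, 13,
      14), (4, 5, 14), (4, 5, 15), (4, 10, 15), (5, 14, 16), (5, 15, 16)]
    fin := [0, 0, 2, 2, 4, 4, 0, 7, 8, 0, 2, 11, 12, 13, 4, 15, 16]
    chd := [(2, 4), (2, 11), (2, 12), (2, 13), (4, 15)]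
    steps := [(0, 1), (0, 6), (0, 9), (2, 3), (2, 10), (4, 5), (4, 14)] }
  rep := [0, 2, 7, 4, 15, 11, 12, 13, 8, 16]

noncomputable def v430 : Cov.CovD where
  P := 3
  N := 7
  pl := [1, 2, 10]
  lev := [⟨[], [], [], [2], [(0, 0, [])]⟩,
    ⟨[], [(0, 0)], [], [2, 8], [(3, 0, [])]⟩,
    ⟨[(0, 1)], [(0, 0), (0, 1), (1, 0), (1, 1)], [(0, 0), (0, 1)], [], [(0, 0, []), (3, 0,
      []), (4, 1, [3, 5, 6, 7])]⟩,
    ⟨[(0, 2), (1, 2)], [(1, 0), (2, 0), (2, 1), (2, 3), (2, 5), (2, 6), (2, 7)], [(0, 3),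
      (0, 5), (0, 6), (0, 7), (3, 5), (3, 6), (3, 7), (5, 6), (5, 7), (6, 7)], [], [(3, 0,
      []), (5, 5, [1]), (6, 6, [1]), (7, 7, [1]), (8, 3, [1, 4])]⟩,
    ⟨[(0, 2), (1, 2), (2, 3)], [(2, 0), (2, 1), (2, 3), (2, 4), (3, 0), (3, 1), (3, 3), (3,
      4), (3, 5), (3, 6), (3, 7)], [(1, 3), (1, 4), (3, 4)], [], [(4, 1, [3, 5, 6, 7]), (8,
      3, [1, 4]), (9, 4, [3])]⟩,
    ⟨[(2, 4), (3, 4)], [(3, 3), (4, 1), (4, 3), (4, 4)], [(3, 4)], [9], [(8, 3, [1, 4]),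
      (9, 4, [3])]⟩]
  Ta := [((0, 1), 0, 2), ((0, 4), 0, 1), ((3, 2), 0, 8), ((3, 5), 0, 5)]
  Tb := [((0, 1, 4), 0, 2, 1), ((1, 0, 2), 2, 0, 8), ((2, 1, 3), 8, 2, 0), ((3, 2, 5), 0, 8, 5),
    ((4, 0, 9), 1, 0, 4), ((5, 3, 6), 5, 0, 6), ((6, 5, 7), 6, 5, 7), ((7, 6, 8), 7, 6, 3),
    ((8, 7, 10), 3, 7, 9), ((9, 4, 10), 4, 1, 9), ((10, 8, 9), 9, 3, 4)]
  Tc := [(1, 3, 5), (1, 3, 6), (1, 3, 7), (1, 5, 6), (1, 5, 7), (1, 6, 7), (3, 1, 4)]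
  Td := [((1, 3), (4, 0), 0), ((1, 3), (4, 9), 4), ((1, 5), (4, 0), 0), ((1, 5), (4, 9), 4), ((1,
    6), (4, 0), 0), ((1, 6), (4, 9), 4), ((1, 7), (4, 0), 0), ((1, 7), (4, 9), 4), ((3, 1),
    (8, 7), 7), ((3, 1), (8, 10), 9), ((3, 4), (8, 7), 7), ((3, 4), (8, 10), 9), ((4, 3), (9,
    4), 1), ((4, 3), (9, 10), 9), ((5, 1), (5, 3), 0), ((5, 1), (5, 6), 6), ((6, 1), (6, 5),
    5), ((6, 1), (6, 7), 7), ((7, 1), (7, 6), 6), ((7, 1), (7, 8), 3)]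
  G := [[0, 0x32195c165361981ac4, 0x6352a82c6352a82cc2, 0x6352a82c14, 0x642a392c18], [0, 0, 0,
    0x642a392c263d28c882445, 0x6352a82c6352a82ca2]]

noncomputable def n430 : Ent := ⟨e430, noF, [], [], [(7, 16, [1580044410770988437309982408355971841652082177953823432505690865665, 0]), (8, 11, [1685382419726888372924274916838414562950751529256700283950315786241, 0])]⟩

def c430 : PLift (Cov.check n430.C.D v430 = true) := ⟨by decide +kernel⟩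

def b430 : PLift (entF (fidx ts) 400 430 n430 = true) := ⟨by decide +kernel⟩

theorem g430 : GoodF (fidx ts) 400 430 := GoodF.ofV v430 n430 c430.down b430.down

/-- 467646:379/1 -/
noncomputable def e431 : SCfg where
  D := {
    a := 6
    L := 10
    kp := 7
    inn := [(0, 1), (0, 2), (0, 5), (1, 0), (1, 5), (2, 0), (2, 3), (2, 5), (3, 2), (3, 4), (4, 3), (5,
      0), (5, 1), (5, 2)]
    mix := [(0, 0), (1, 0), (1, 1), (1, 2), (1, 3), (2, 0), (2, 4), (2, 5), (2, 6), (3, 2), (3, 4), (3,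
      5), (3, 7), (4, 2), (4, 5), (4, 8), (5, 1), (5, 6), (5, 9)]
    cl := [0, 0, 2, 7, 1, 1, 3, 4, 5, 6]
    chq := [(1, 6), (4, 5), (5, 4), (6, 1)]
    rng := [(0, 3), (0, 4), (1, 2), (1, 9), (2, 1), (2, 3), (2, 7), (2, 8), (3, 0), (3, 2), (4, 0), (4,
      7), (5, 6), (5, 8), (6, 5), (6, 9), (7, 2), (7, 4), (8, 2), (8, 5), (9, 1), (9, 6)]
    lev := [] }
  links := [[1, 6, 2, 5], [6, 0, 5, 7, 8, 9], [5, 0, 6, 10, 3, 11, 12], [11, 2, 10, 13, 8, 4], [11, 3, 8,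
    14], [7, 1, 0, 2, 12, 15]]
  P := {
    a := 6
    N := 16
    nb := [102, 993, 7273, 11540, 18696, 36999, 1543, 33058, 25242, 322, 8268, 20508, 34852, 1288,
      2320, 4256]
    tri := [(0, 1, 5), (0, 1, 6), (0, 2, 5), (0, 2, 6), (1, 5, 7), (1, 6, 9), (1, 7, 8), (1, 8, 9), (2,
      3, 10), (2, 3, 11), (2, 5, 12), (2, 6, 10), (2, 11, 12), (3, 4, 8), (3, 4, 11), (3, 8, 13),
      (3, 10, 13), (4, 8, 14), (4, 11, 14), (5, 7, 15), (5, 12, 15)]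
    fin := [0, 0, 2, 3, 3, 2, 0, 0, 8, 9, 2, 2, 12, 3, 14, 15]
    chd := [(2, 15), (3, 14)]
    steps := [(0, 1), (0, 6), (0, 7), (2, 5), (2, 10), (2, 11), (3, 4), (3, 13)] }
  rep := [0, 2, 8, 12, 3, 14, 15, 9]

noncomputable def v431 : Cov.CovD where
  P := 3
  N := 5
  pl := [2, 3, 6]
  lev := [⟨[], [], [], [], [(0, 0, [])]⟩,
    ⟨[], [(0, 0)], [(0, 0)], [2, 7], [(0, 0, []), (1, 0, [])]⟩,
    ⟨[(0, 1)], [(0, 0), (0, 1), (1, 0)], [(0, 1), (1, 1)], [3], [(0, 0, []), (4, 1, [6]),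
      (5, 1, [6])]⟩,
    ⟨[(0, 2)], [(2, 0), (2, 1), (2, 4)], [(1, 1), (1, 4)], [2], [(4, 1, [6]), (5, 1, [6]),
      (7, 4, [5])]⟩,
    ⟨[(2, 3)], [(2, 1), (3, 1), (3, 4), (3, 5)], [(1, 5)], [2], [(5, 1, [6]), (8, 5, [4])]⟩,
    ⟨[(0, 1), (0, 2), (1, 2), (2, 3)], [(0, 0), (0, 6), (1, 0), (1, 6), (2, 0), (2, 1), (2,
      6)], [(0, 6)], [3], [(1, 0, []), (9, 6, [1])]⟩]
  Ta := [((0, 3), 0, 7), ((0, 4), 0, 1), ((1, 2), 0, 2), ((1, 9), 0, 6), ((4, 0), 1, 0), ((4, 7),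
    1, 4), ((5, 6), 1, 3), ((5, 8), 1, 5)]
  Tb := [((0, 3, 4), 0, 7, 1), ((1, 2, 9), 0, 2, 6), ((2, 1, 3), 2, 0, 7), ((2, 1, 7), 2, 0, 4),
    ((2, 1, 8), 2, 0, 5), ((2, 3, 7), 2, 7, 4), ((2, 3, 8), 2, 7, 5), ((2, 7, 8), 2, 4, 5),
    ((3, 0, 2), 7, 0, 2), ((4, 0, 7), 1, 0, 4), ((5, 6, 8), 1, 3, 5), ((6, 5, 9), 3, 1, 6),
    ((7, 2, 4), 4, 2, 1), ((8, 2, 5), 5, 2, 1), ((9, 1, 6), 6, 0, 3)]
  Tc := []
  Td := [((1, 6), (4, 0), 0), ((1, 6), (4, 7), 4), ((1, 6), (5, 6), 3), ((1, 6), (5, 8), 5), ((4,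
    5), (7, 2), 2), ((4, 5), (7, 4), 1), ((5, 4), (8, 2), 2), ((5, 4), (8, 5), 1), ((6, 1),
    (9, 1), 0), ((6, 1), (9, 6), 3)]
  G := [[0, 0x1111c1118ca1111c1411c6c2, 0, 0x21189442124521289c212458cc,
    0x2212911229c52a2932129ca4], [0, 0, 0, 0x2428c442118911289c1418c8cc,
    0x2118911289c11d89b1189ca4], [0, 0, 0x2228c2222c52242482422cdc8,
    0x2428c21289c2428c21289cc1, 0x28122229228d62a29e289a621425], [0, 0,
    0x684248c428cda4a8c164c8c8e4, 0x6468ca1a89ca428c1c2484944d846,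
    0x681a1a89618da181aa81c1689c25]]

noncomputable def n431 : Ent := ⟨e431, noF, [], [], []⟩

def c431 : PLift (Cov.check n431.C.D v431 = true) := ⟨by decide +kernel⟩

def b431 : PLift (entF (fidx ts) 400 431 n431 = true) := ⟨by decide +kernel⟩

theorem g431 : GoodF (fidx ts) 400 431 := GoodF.ofV v431 n431 c431.down b431.down

/-- 467646:379/2 -/
noncomputable def e432 : SCfg where
  D := {
    a := 6
    L := 10
    kp := 7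
    inn := [(0, 1), (0, 2), (0, 5), (1, 0), (1, 5), (2, 0), (2, 3), (2, 5), (3, 2), (3, 4), (4, 3), (5,
      0), (5, 1), (5, 2)]
    mix := [(0, 0), (1, 0), (1, 1), (1, 2), (1, 3), (2, 0), (2, 4), (2, 5), (2, 6), (3, 4), (3, 5), (3,
      7), (3, 8), (4, 2), (4, 5), (4, 8), (5, 1), (5, 6), (5, 9)]
    cl := [0, 0, 2, 7, 1, 1, 3, 5, 4, 6]
    chq := [(1, 6), (2, 5), (5, 2), (6, 1)]
    rng := [(0, 3), (0, 4), (1, 2), (1, 9), (2, 1), (2, 3), (2, 5), (2, 8), (3, 0), (3, 2), (4, 0), (4,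
      7), (5, 2), (5, 6), (6, 5), (6, 9), (7, 4), (7, 8), (8, 2), (8, 7), (9, 1), (9, 6)]
    lev := [] }
  links := [[1, 6, 2, 5], [6, 0, 5, 7, 8, 9], [5, 0, 6, 10, 3, 11, 12], [11, 2, 10, 13, 14, 4], [11, 3,
    14, 8], [7, 1, 0, 2, 12, 15]]
  P := {
    a := 6
    N := 16
    nb := [102, 993, 7273, 27668, 18696, 36999, 1543, 33058, 19090, 322, 8268, 4380, 34852, 17416,
      8472, 4256]
    tri := [(0, 1, 5), (0, 1, 6), (0, 2, 5), (0, 2, 6), (1, 5, 7), (1, 6, 9), (1, 7, 8), (1, 8, 9), (2,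
      3, 10), (2, 3, 11), (2, 5, 12), (2, 6, 10), (2, 11, 12), (3, 4, 11), (3, 4, 14), (3, 10,
      13), (3, 13, 14), (4, 8, 11), (4, 8, 14), (5, 7, 15), (5, 12, 15)]
    fin := [0, 0, 2, 3, 3, 2, 0, 0, 8, 9, 2, 2, 12, 3, 14, 15]
    chd := [(2, 15), (8, 3)]
    steps := [(0, 1), (0, 6), (0, 7), (2, 5), (2, 10), (2, 11), (3, 4), (3, 13)] }
  rep := [0, 2, 8, 12, 14, 3, 15, 9]

noncomputable def v432 : Cov.CovD where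
  P := 3
  N := 5
  pl := [3, 6, 8]
  lev := [⟨[], [], [], [], [(0, 0, [])]⟩,
    ⟨[], [(0, 0), (0, 2)], [(0, 0), (0, 2)], [7], [(0, 0, []), (1, 0, []), (2, 2, [5])]⟩,
    ⟨[(0, 1)], [(0, 0), (0, 1), (1, 0)], [(0, 1), (1, 1)], [3], [(0, 0, []), (4, 1, [6]),
      (5, 1, [6])]⟩,
    ⟨[(0, 2)], [(2, 0), (2, 1), (2, 5)], [(1, 1), (1, 5)], [4], [(4, 1, [6]), (5, 1, [6]),
      (7, 5, [2])]⟩,
    ⟨[(2, 3)], [(1, 2), (2, 1), (3, 1), (3, 2), (3, 5)], [(1, 2)], [4], [(2, 2, [5]), (5,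
      1, [6])]⟩,
    ⟨[(0, 1), (0, 2), (1, 2), (2, 3)], [(0, 0), (0, 6), (1, 0), (1, 2), (1, 6), (2, 0), (2,
      1), (2, 6)], [(0, 6)], [3], [(1, 0, []), (9, 6, [1])]⟩]
  Ta := [((0, 3), 0, 7), ((0, 4), 0, 1), ((1, 2), 0, 2), ((1, 9), 0, 6), ((4, 0), 1, 0), ((4, 7),
    1, 5), ((5, 2), 1, 2), ((5, 6), 1, 3)]
  Tb := [((0, 3, 4), 0, 7, 1), ((1, 2, 9), 0, 2, 6), ((2, 1, 3), 2, 0, 7), ((2, 1, 5), 2, 0, 1),
    ((2, 1, 8), 2, 0, 4), ((2, 3, 5), 2, 7, 1), ((2, 3, 8), 2, 7, 4), ((2, 5, 8), 2, 1, 4),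
    ((3, 0, 2), 7, 0, 2), ((4, 0, 7), 1, 0, 5), ((5, 2, 6), 1, 2, 3), ((6, 5, 9), 3, 1, 6),
    ((7, 4, 8), 5, 1, 4), ((8, 2, 7), 4, 2, 5), ((9, 1, 6), 6, 0, 3)]
  Tc := []
  Td := [((1, 6), (4, 0), 0), ((1, 6), (4, 7), 5), ((1, 6), (5, 2), 2), ((1, 6), (5, 6), 3), ((2,
    5), (2, 1), 0), ((2, 5), (2, 3), 7), ((2, 5), (2, 5), 1), ((2, 5), (2, 8), 4), ((5, 2),
    (7, 4), 1), ((5, 2), (7, 8), 4), ((6, 1), (9, 1), 0), ((6, 1), (9, 6), 3)]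
  G := [[0, 0x141811e111156188e141411e1121414cec2, 0, 0,
    0x281211d472115681261dca112228d81188ac], [0, 0, 0,
    0x1152421d2822921dc2151421d2822921dcc2, 0x2822911d481111971d8115d911dd8919d1dcaa], [0, 0,
    0x22a122c1c226122a1cc1, 0, 0x8262c122122322d282221dc21ac9a2d68619ca9], [0, 0,
    0x26c1eac1ceec122c1cc1, 0x24215282192824cd24215282192824cdc2,
    0x6114262961528a19e8ae9cd61ac9a1de8669c9ac]]

noncomputable def n432 : Ent := ⟨e432, noF, [], [], []⟩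

def c432 : PLift (Cov.check n432.C.D v432 = true) := ⟨by decide +kernel⟩

def b432 : PLift (entF (fidx ts) 400 432 n432 = true) := ⟨by decide +kernel⟩

theorem g432 : GoodF (fidx ts) 400 432 := GoodF.ofV v432 n432 c432.down b432.down

/-- 467646:379 -/
noncomputable def e433 : SCfg where
  D := {
    a := 6
    L := 11
    kp := 8
    inn := [(0, 1), (0, 2), (0, 5), (1, 0), (1, 5), (2, 0), (2, 3), (2, 5), (3, 2), (3, 4), (4, 3), (5,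
      0), (5, 1), (5, 2)]
    mix := [(0, 0), (1, 0), (1, 1), (1, 2), (1, 3), (2, 0), (2, 4), (2, 5), (2, 6), (3, 4), (3, 5), (3,
      7), (3, 8), (4, 5), (4, 8), (4, 9), (5, 1), (5, 6), (5, 10)]
    cl := [0, 0, 7, 8, 1, 1, 2, 4, 3, 5, 6]
    chq := [(1, 6), (4, 5), (5, 4), (6, 1)]
    rng := [(0, 3), (0, 4), (1, 2), (1, 10), (2, 1), (2, 3), (3, 0), (3, 2), (4, 0), (4, 7), (5, 6),
      (5, 9), (6, 5), (6, 10), (7, 4), (7, 8), (8, 7), (8, 9), (9, 5), (9, 8), (10, 1), (10, 6)]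
    lev := [] }
  links := [[1, 6, 2, 5], [6, 0, 5, 7, 8, 9], [5, 0, 6, 10, 3, 11, 12], [11, 2, 10, 13, 14, 4], [11, 3,
    14, 15], [7, 1, 0, 2, 12, 16]]
  P := {
    a := 6
    N := 17
    nb := [102, 993, 7273, 27668, 51208, 69767, 1543, 65826, 642, 322, 8268, 36892, 67620, 17416,
      40984, 18448, 4256]
    tri := [(0, 1, 5), (0, 1, 6), (0, 2, 5), (0, 2, 6), (1, 5, 7), (1, 6, 9), (1, 7, 8), (1, 8, 9), (2,
      3, 10), (2, 3, 11), (2, 5, 12), (2, 6, 10), (2, 11, 12), (3, 4, 11), (3, 4, 14), (3, 10,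
      13), (3, 13, 14), (4, 11, 15), (4, 14, 15), (5, 7, 16), (5, 12, 16)]
    fin := [0, 0, 2, 3, 3, 2, 0, 0, 8, 9, 2, 2, 12, 3, 14, 15, 16]
    chd := [(2, 16), (3, 15)]
    steps := [(0, 1), (0, 6), (0, 7), (2, 5), (2, 10), (2, 11), (3, 4), (3, 13)] }
  rep := [0, 2, 12, 14, 3, 15, 16, 8, 9]

noncomputable def v433 : Cov.CovD where
  P := 3
  N := 6
  pl := [2, 3, 6, 8]
  lev := [⟨[], [], [], [], [(0, 0, [])]⟩,
    ⟨[], [(0, 0)], [(0, 0)], [7, 8], [(0, 0, []), (1, 0, [])]⟩,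
    ⟨[(0, 1)], [(0, 0), (0, 1), (1, 0)], [(0, 1), (1, 1)], [2], [(0, 0, []), (4, 1, [6]),
      (5, 1, [6])]⟩,
    ⟨[(0, 2)], [(2, 0), (2, 1), (2, 4)], [(1, 1), (1, 4)], [3], [(4, 1, [6]), (5, 1, [6]),
      (7, 4, [5])]⟩,
    ⟨[(2, 3)], [(2, 1), (3, 1), (3, 4), (3, 5)], [(1, 5)], [3], [(5, 1, [6]), (9, 5, [4])]⟩,
    ⟨[(0, 1), (0, 2), (1, 2), (2, 3)], [(0, 0), (0, 6), (1, 0), (1, 6), (2, 0), (2, 1), (2,
      6)], [(0, 6)], [2], [(1, 0, []), (10, 6, [1])]⟩]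
  Ta := [((0, 3), 0, 8), ((0, 4), 0, 1), ((1, 2), 0, 7), ((1, 10), 0, 6), ((4, 0), 1, 0), ((4,
    7), 1, 4), ((5, 6), 1, 2), ((5, 9), 1, 5)]
  Tb := [((0, 3, 4), 0, 8, 1), ((1, 2, 10), 0, 7, 6), ((2, 1, 3), 7, 0, 8), ((3, 0, 2), 8, 0, 7),
    ((4, 0, 7), 1, 0, 4), ((5, 6, 9), 1, 2, 5), ((6, 5, 10), 2, 1, 6), ((7, 4, 8), 4, 1, 3),
    ((8, 7, 9), 3, 4, 5), ((9, 5, 8), 5, 1, 3), ((10, 1, 6), 6, 0, 2)]
  Tc := []
  Td := [((1, 6), (4, 0), 0), ((1, 6), (4, 7), 4), ((1, 6), (5, 6), 2), ((1, 6), (5, 9), 5), ((4,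
    5), (7, 4), 1), ((4, 5), (7, 8), 3), ((5, 4), (9, 5), 1), ((5, 4), (9, 8), 3), ((6, 1),
    (10, 1), 0), ((6, 1), (10, 6), 2)]
  G := [[0, 0x11611a11e411311119e41111311ce4e8, 0x2222322cd42222922cd46266c56658ce8, 0,
    0x1151211ad811611a12d81211311cd8e2], [0, 0, 0x22922c52258c22522922cd8ac966c5aa58ce4,
    0x11511911cd411511911cd411511911cd4e2, 0x11511911cd811511911cd811511911cd8e2], [0, 0,
    0x22522922d422223226d4c43a2366cd4e8, 0, 0x8a681222622a22d82232222cd824aaaa2d8e9], [0, 0,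
    0x22522922cd422c1225229ccc65aa96acd4e8,
    0xccc1cc5cc9c524494cc5889cccdc445cc944cd88588c9cc9,
    0x22922c52258922922c522589aac1aa5aa9c9e4]]

noncomputable def n433 : Ent := ⟨e433, noF, [], [], [(14, 8, [1685382413448253767852309140100226956982710121086235381895114977281, 0]), (15, 8, [1685356702439545624007900474151267369116085181252328576118041542657, 0])]⟩

def c433 : PLift (Cov.check n433.C.D v433 = true) := ⟨by decide +kernel⟩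

def b433 : PLift (entF (fidx ts) 400 433 n433 = true) := ⟨by decide +kernel⟩

theorem g433 : GoodF (fidx ts) 400 433 := GoodF.ofV v433 n433 c433.down b433.down

/-- 484564:383/1 -/
noncomputable def e434 : SCfg where
  D := {
    a := 6
    L := 10
    kp := 7
    inn := [(0, 1), (0, 3), (1, 0), (1, 2), (1, 4), (2, 1), (3, 0), (4, 1), (4, 5), (5, 4)]
    mix := [(0, 0), (0, 1), (1, 0), (1, 1), (1, 2), (1, 3), (1, 4), (2, 2), (2, 3), (2, 5), (3, 0), (3,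
      1), (3, 6), (3, 7), (4, 3), (4, 4), (4, 8), (4, 9), (5, 6), (5, 8), (5, 9)]
    cl := [0, 0, 2, 1, 1, 6, 3, 7, 4, 5]
    chq := [(0, 6), (1, 3), (3, 1), (6, 0)]
    rng := [(0, 4), (0, 6), (1, 2), (1, 7), (2, 1), (2, 5), (3, 5), (3, 8), (4, 0), (4, 9), (5, 2), (5,
      3), (6, 0), (6, 7), (6, 8), (6, 9), (7, 1), (7, 6), (8, 3), (8, 6), (9, 4), (9, 6)]
    lev := [] }
  links := [[1, 6, 3, 7], [6, 0, 7, 8, 2, 9, 4, 10], [9, 1, 8, 11], [7, 0, 6, 12, 13], [10, 1, 9, 14, 5,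
    15], [15, 4, 14, 12]]
  P := {
    a := 6
    N := 16
    nb := [202, 2005, 2818, 12481, 50722, 53264, 5131, 8459, 2182, 18454, 32850, 772, 57448, 4232,
      4656, 5168]
    tri := [(0, 1, 6), (0, 1, 7), (0, 3, 6), (0, 3, 7), (1, 2, 8), (1, 2, 9), (1, 4, 9), (1, 4, 10),
      (1, 6, 10), (1, 7, 8), (2, 8, 11), (2, 9, 11), (3, 6, 12), (3, 7, 13), (3, 12, 13), (4, 5,
      14), (4, 5, 15), (4, 9, 14), (4, 10, 15), (5, 12, 14), (5, 12, 15)]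
    fin := [0, 0, 0, 0, 4, 5, 0, 0, 8, 4, 4, 11, 5, 13, 14, 15]
    chd := [(0, 11), (4, 5)]
    steps := [(0, 1), (0, 2), (0, 3), (0, 6), (0, 7), (4, 9), (4, 10), (5, 12)] }
  rep := [0, 4, 8, 5, 14, 15, 11, 13]

noncomputable def v434 : Cov.CovD where
  P := 3
  N := 5
  pl := [2, 7, 8, 9]
  lev := [⟨[], [], [(0, 0)], [], [(0, 0, [6]), (1, 0, [6])]⟩,
    ⟨[], [(0, 0), (0, 1)], [(0, 0), (0, 1), (1, 1)], [2], [(0, 0, [6]), (1, 0, [6]), (3, 1,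
      [3]), (4, 1, [3])]⟩,
    ⟨[(0, 1)], [(1, 0), (1, 1), (1, 6)], [(1, 6)], [2], [(3, 1, [3]), (5, 6, [0])]⟩,
    ⟨[(0, 1)], [(0, 0), (0, 3), (1, 0)], [(0, 0), (0, 3)], [7], [(0, 0, [6]), (1, 0, [6]),
      (6, 3, [1])]⟩,
    ⟨[(0, 1), (1, 2)], [(1, 0), (1, 1), (2, 1)], [(1, 1)], [4, 5], [(3, 1, [3]), (4, 1,
      [3])]⟩,
    ⟨[(1, 4)], [(3, 3), (4, 1), (4, 3)], [], [4, 5], [(6, 3, [1])]⟩]
  Ta := [((0, 4), 0, 1), ((0, 6), 0, 3), ((1, 2), 0, 2), ((1, 7), 0, 7), ((3, 5), 1, 6), ((3, 8),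
    1, 4), ((4, 0), 1, 0), ((4, 9), 1, 5)]
  Tb := [((0, 4, 6), 0, 1, 3), ((1, 2, 7), 0, 2, 7), ((2, 1, 5), 2, 0, 6), ((3, 5, 8), 1, 6, 4),
    ((4, 0, 9), 1, 0, 5), ((5, 2, 3), 6, 2, 1), ((6, 0, 7), 3, 0, 7), ((6, 0, 8), 3, 0, 4),
    ((6, 0, 9), 3, 0, 5), ((6, 7, 8), 3, 7, 4), ((6, 7, 9), 3, 7, 5), ((6, 8, 9), 3, 4, 5),
    ((7, 1, 6), 7, 0, 3), ((8, 3, 6), 4, 1, 3), ((9, 4, 6), 5, 1, 3)]
  Tc := []
  Td := [((0, 6), (0, 4), 1), ((0, 6), (0, 6), 3), ((0, 6), (1, 2), 2), ((0, 6), (1, 7), 7), ((1,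
    3), (3, 5), 6), ((1, 3), (3, 8), 4), ((1, 3), (4, 0), 0), ((1, 3), (4, 9), 5), ((3, 1),
    (6, 0), 0), ((3, 1), (6, 7), 7), ((3, 1), (6, 8), 4), ((3, 1), (6, 9), 5), ((6, 0), (5,
    2), 2), ((6, 0), (5, 3), 1)]
  G := [[0, 0, 0, 0x2bad342d2e9de184, 0x2abd241d2ebde184], [0, 0x111e141e111ee184, 0,
    0x2abd243d2e9de182, 0x2abd24bd2e1de284], [0, 0, 0xa1522a1d241d6a1dec821d621d68e8c2,
    0x821d621de21de148, 0x2a1d241d2e1de184], [0, 0, 0x2a1d241d2e1de284, 0x821d621de21de148,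
    0x2a1d241d2e1de184]]

noncomputable def n434 : Ent := ⟨e434, noF, [], [], []⟩

def c434 : PLift (Cov.check n434.C.D v434 = true) := ⟨by decide +kernel⟩

def b434 : PLift (entF (fidx ts) 400 434 n434 = true) := ⟨by decide +kernel⟩

theorem g434 : GoodF (fidx ts) 400 434 := GoodF.ofV v434 n434 c434.down b434.down

/-- 484564:383/3 -/
noncomputable def e435 : SCfg where
  D := {
    a := 6
    L := 9
    kp := 6
    inn := [(0, 1), (0, 3), (1, 0), (1, 2), (1, 4), (2, 1), (3, 0), (4, 1), (4, 5), (5, 4)]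
    mix := [(0, 0), (0, 1), (1, 0), (1, 1), (1, 2), (1, 3), (1, 4), (2, 2), (2, 3), (2, 5), (3, 0), (3,
      1), (3, 6), (3, 7), (4, 3), (4, 4), (4, 6), (4, 8), (5, 6), (5, 7), (5, 8)]
    cl := [0, 0, 2, 1, 1, 6, 3, 4, 5]
    chq := [(0, 6), (1, 4), (4, 1), (6, 0)]
    rng := [(0, 4), (0, 6), (1, 2), (1, 7), (2, 1), (2, 5), (3, 5), (3, 8), (4, 0), (4, 6), (5, 2), (5,
      3), (6, 0), (6, 4), (6, 7), (7, 1), (7, 6), (7, 8), (8, 3), (8, 7)]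
    lev := [] }
  links := [[1, 6, 3, 7], [6, 0, 7, 8, 2, 9, 4, 10], [9, 1, 8, 11], [7, 0, 6, 12, 13], [10, 1, 9, 14, 5,
    12], [12, 4, 14, 13]]
  P := {
    a := 6
    N := 15
    nb := [202, 2005, 2818, 12481, 22050, 28688, 5131, 8459, 2182, 18454, 4178, 772, 9336, 20648,
      8752]
    tri := [(0, 1, 6), (0, 1, 7), (0, 3, 6), (0, 3, 7), (1, 2, 8), (1, 2, 9), (1, 4, 9), (1, 4, 10),
      (1, 6, 10), (1, 7, 8), (2, 8, 11), (2, 9, 11), (3, 6, 12), (3, 7, 13), (3, 12, 13), (4, 5,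
      12), (4, 5, 14), (4, 9, 14), (4, 10, 12), (5, 12, 13), (5, 13, 14)]
    fin := [0, 0, 0, 0, 4, 5, 0, 0, 8, 4, 4, 11, 12, 5, 14]
    chd := [(0, 11), (4, 5)]
    steps := [(0, 1), (0, 2), (0, 3), (0, 6), (0, 7), (4, 9), (4, 10), (5, 13)] }
  rep := [0, 4, 8, 12, 5, 14, 11]

noncomputable def v435 : Cov.CovD where
  P := 3
  N := 4
  pl := [2, 6, 8]
  lev := [⟨[], [], [(0, 0)], [], [(0, 0, [6]), (1, 0, [6])]⟩,
    ⟨[], [(0, 0), (0, 1)], [(0, 0), (0, 1), (1, 1)], [2], [(0, 0, [6]), (1, 0, [6]), (3, 1,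
      [4]), (4, 1, [4])]⟩,
    ⟨[(0, 1)], [(1, 0), (1, 1), (1, 6)], [(1, 6)], [2], [(3, 1, [4]), (5, 6, [0])]⟩,
    ⟨[(0, 1)], [(0, 0), (0, 4), (1, 0)], [(0, 0), (0, 4)], [3], [(0, 0, [6]), (1, 0, [6]),
      (7, 4, [1])]⟩,
    ⟨[(0, 1), (1, 2)], [(1, 0), (1, 1), (2, 1)], [(1, 1)], [3, 5], [(3, 1, [4]), (4, 1,
      [4])]⟩,
    ⟨[(1, 4)], [(3, 4), (4, 1), (4, 4)], [], [3, 5], [(7, 4, [1])]⟩]
  Ta := [((0, 4), 0, 1), ((0, 6), 0, 3), ((1, 2), 0, 2), ((1, 7), 0, 4), ((3, 5), 1, 6), ((3, 8),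
    1, 5), ((4, 0), 1, 0), ((4, 6), 1, 3)]
  Tb := [((0, 4, 6), 0, 1, 3), ((1, 2, 7), 0, 2, 4), ((2, 1, 5), 2, 0, 6), ((3, 5, 8), 1, 6, 5),
    ((4, 0, 6), 1, 0, 3), ((5, 2, 3), 6, 2, 1), ((6, 0, 4), 3, 0, 1), ((6, 0, 7), 3, 0, 4),
    ((6, 4, 7), 3, 1, 4), ((7, 1, 6), 4, 0, 3), ((7, 1, 8), 4, 0, 5), ((7, 6, 8), 4, 3, 5),
    ((8, 3, 7), 5, 1, 4)]
  Tc := []
  Td := [((0, 6), (0, 4), 1), ((0, 6), (0, 6), 3), ((0, 6), (1, 2), 2), ((0, 6), (1, 7), 4), ((1,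
    4), (3, 5), 6), ((1, 4), (3, 8), 5), ((1, 4), (4, 0), 0), ((1, 4), (4, 6), 3), ((4, 1),
    (7, 1), 0), ((4, 1), (7, 6), 3), ((4, 1), (7, 8), 5), ((6, 0), (5, 2), 2), ((6, 0), (5,
    3), 1)]
  G := [[0, 0, 0, 0x282e1da184, 0x282e1da184], [0, 0x811e111e112ee148, 0, 0x819421d221de142,
    0x281d415222de282], [0, 0, 0x642424a21d6a192cc8, 0x2826bda184, 0x2826bda184], [0, 0,
    0x4154281c221da2c8, 0x819425d222de142, 0x281d495222de182]]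

noncomputable def n435 : Ent := ⟨e435, noF, [], [], []⟩

def c435 : PLift (Cov.check n435.C.D v435 = true) := ⟨by decide +kernel⟩

def b435 : PLift (entF (fidx ts) 400 435 n435 = true) := ⟨by decide +kernel⟩

theorem g435 : GoodF (fidx ts) 400 435 := GoodF.ofV v435 n435 c435.down b435.down

/-- 484564:383/2 -/
noncomputable def e436 : SCfg where
  D := {
    a := 6
    L := 10
    kp := 7
    inn := [(0, 1), (0, 3), (1, 0), (1, 2), (1, 4), (2, 1), (3, 0), (4, 1), (4, 5), (5, 4)]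
    mix := [(0, 0), (0, 1), (1, 0), (1, 1), (1, 2), (1, 3), (1, 4), (2, 2), (2, 3), (2, 5), (3, 0), (3,
      1), (3, 6), (3, 7), (4, 3), (4, 4), (4, 6), (4, 8), (5, 6), (5, 8), (5, 9)]
    cl := [0, 0, 2, 1, 1, 5, 3, 7, 4, 6]
    chq := [(0, 5), (1, 6), (5, 0), (6, 1)]
    rng := [(0, 4), (0, 6), (1, 2), (1, 7), (2, 1), (2, 5), (3, 5), (3, 8), (4, 0), (4, 6), (5, 2), (5,
      3), (6, 0), (6, 4), (6, 7), (6, 9), (7, 1), (7, 6), (8, 3), (8, 9), (9, 6), (9, 8)]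
    lev := [] }
  links := [[1, 6, 3, 7], [6, 0, 7, 8, 2, 9, 4, 10], [9, 1, 8, 11], [7, 0, 6, 12, 13], [10, 1, 9, 14, 5,
    12], [12, 4, 14, 15]]
  P := {
    a := 6
    N := 16
    nb := [202, 2005, 2818, 12481, 22050, 53264, 5131, 8459, 2182, 18454, 4178, 772, 42104, 4232,
      33328, 20512]
    tri := [(0, 1, 6), (0, 1, 7), (0, 3, 6), (0, 3, 7), (1, 2, 8), (1, 2, 9), (1, 4, 9), (1, 4, 10),
      (1, 6, 10), (1, 7, 8), (2, 8, 11), (2, 9, 11), (3, 6, 12), (3, 7, 13), (3, 12, 13), (4, 5,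
      12), (4, 5, 14), (4, 9, 14), (4, 10, 12), (5, 12, 15), (5, 14, 15)]
    fin := [0, 0, 0, 0, 4, 4, 0, 0, 8, 4, 4, 11, 12, 13, 14, 15]
    chd := [(0, 11), (4, 15)]
    steps := [(0, 1), (0, 2), (0, 3), (0, 6), (0, 7), (4, 5), (4, 9), (4, 10)] }
  rep := [0, 4, 8, 12, 14, 11, 15, 13]

noncomputable def v436 : Cov.CovD where
  P := 3
  N := 5
  pl := [2, 6, 7, 8]
  lev := [⟨[], [], [(0, 0)], [], [(0, 0, [5]), (1, 0, [5])]⟩,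
    ⟨[], [(0, 0), (0, 1)], [(0, 0), (0, 1), (1, 1)], [2], [(0, 0, [5]), (1, 0, [5]), (3, 1,
      [6]), (4, 1, [6])]⟩,
    ⟨[(0, 1)], [(1, 0), (1, 1), (1, 5)], [(1, 5)], [2], [(3, 1, [6]), (5, 5, [0])]⟩,
    ⟨[(0, 1)], [(0, 0), (1, 0)], [(0, 0)], [3, 7], [(0, 0, [5]), (1, 0, [5])]⟩,
    ⟨[(0, 1), (1, 2)], [(1, 0), (1, 1), (2, 1)], [(1, 1)], [3, 4], [(3, 1, [6]), (4, 1,
      [6])]⟩,
    ⟨[(1, 4)], [(4, 1), (4, 6)], [], [3, 4], [(9, 6, [1])]⟩]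
  Ta := [((0, 4), 0, 1), ((0, 6), 0, 3), ((1, 2), 0, 2), ((1, 7), 0, 7), ((3, 5), 1, 5), ((3, 8),
    1, 4), ((4, 0), 1, 0), ((4, 6), 1, 3)]
  Tb := [((0, 4, 6), 0, 1, 3), ((1, 2, 7), 0, 2, 7), ((2, 1, 5), 2, 0, 5), ((3, 5, 8), 1, 5, 4),
    ((4, 0, 6), 1, 0, 3), ((5, 2, 3), 5, 2, 1), ((6, 0, 4), 3, 0, 1), ((6, 0, 7), 3, 0, 7),
    ((6, 0, 9), 3, 0, 6), ((6, 4, 7), 3, 1, 7), ((6, 4, 9), 3, 1, 6), ((6, 7, 9), 3, 7, 6),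
    ((7, 1, 6), 7, 0, 3), ((8, 3, 9), 4, 1, 6), ((9, 6, 8), 6, 3, 4)]
  Tc := []
  Td := [((0, 5), (0, 4), 1), ((0, 5), (0, 6), 3), ((0, 5), (1, 2), 2), ((0, 5), (1, 7), 7), ((1,
    6), (3, 5), 5), ((1, 6), (3, 8), 4), ((1, 6), (4, 0), 0), ((1, 6), (4, 6), 3), ((5, 0),
    (5, 2), 2), ((5, 0), (5, 3), 1), ((6, 1), (9, 6), 3), ((6, 1), (9, 8), 4)]
  G := [[0, 0, 0, 0xe39275e27de142, 0x3a9e352ebde184], [0, 0x111e111e111ee142, 0,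
    0x2cbdeb5222de184, 0x2cbdeb5222de284], [0, 0, 0x63564643a927522fde2b9a39acc8,
    0x2b972526bde182, 0x2b936526bde184], [0, 0, 0x68fdeb5222de284, 0x2cbdeb5222de184,
    0x2cbdeb5222de184]]

noncomputable def n436 : Ent := ⟨e436, noF, [], [], [(13, 15, [360035742630636841211993100915356868655746945586763691009454081, 0])]⟩

def c436 : PLift (Cov.check n436.C.D v436 = true) := ⟨by decide +kernel⟩

def b436 : PLift (entF (fidx ts) 400 436 n436 = true) := ⟨by decide +kernel⟩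

theorem g436 : GoodF (fidx ts) 400 436 := GoodF.ofV v436 n436 c436.down b436.down

/-- 484564:383/4 -/
noncomputable def e437 : SCfg where
  D := {
    a := 6
    L := 10
    kp := 7
    inn := [(0, 1), (0, 3), (1, 0), (1, 2), (1, 4), (2, 1), (3, 0), (4, 1), (4, 5), (5, 4)]
    mix := [(0, 0), (0, 1), (1, 0), (1, 1), (1, 2), (1, 3), (1, 4), (2, 2), (2, 3), (2, 5), (3, 0), (3,
      1), (3, 6), (3, 7), (4, 3), (4, 4), (4, 8), (4, 9), (5, 7), (5, 8), (5, 9)]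
    cl := [0, 0, 2, 1, 1, 6, 7, 3, 4, 5]
    chq := [(0, 6), (1, 3), (3, 1), (6, 0)]
    rng := [(0, 4), (0, 6), (1, 2), (1, 7), (2, 1), (2, 5), (3, 5), (3, 8), (4, 0), (4, 9), (5, 2), (5,
      3), (6, 0), (6, 7), (7, 1), (7, 6), (7, 8), (7, 9), (8, 3), (8, 7), (9, 4), (9, 7)]
    lev := [] }
  links := [[1, 6, 3, 7], [6, 0, 7, 8, 2, 9, 4, 10], [9, 1, 8, 11], [7, 0, 6, 12, 13], [10, 1, 9, 14, 5,
    15], [15, 4, 14, 13]]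
  P := {
    a := 6
    N := 16
    nb := [202, 2005, 2818, 12481, 50722, 57360, 5131, 8459, 2182, 18454, 32850, 772, 8264, 53416,
      8752, 9264]
    tri := [(0, 1, 6), (0, 1, 7), (0, 3, 6), (0, 3, 7), (1, 2, 8), (1, 2, 9), (1, 4, 9), (1, 4, 10),
      (1, 6, 10), (1, 7, 8), (2, 8, 11), (2, 9, 11), (3, 6, 12), (3, 7, 13), (3, 12, 13), (4, 5,
      14), (4, 5, 15), (4, 9, 14), (4, 10, 15), (5, 13, 14), (5, 13, 15)]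
    fin := [0, 0, 0, 0, 4, 5, 0, 0, 8, 4, 4, 11, 12, 5, 14, 15]
    chd := [(0, 11), (4, 5)]
    steps := [(0, 1), (0, 2), (0, 3), (0, 6), (0, 7), (4, 9), (4, 10), (5, 13)] }
  rep := [0, 4, 8, 5, 14, 15, 11, 12]

noncomputable def v437 : Cov.CovD where
  P := 3
  N := 5
  pl := [2, 6, 8, 9]
  lev := [⟨[], [], [(0, 0)], [], [(0, 0, [6]), (1, 0, [6])]⟩,
    ⟨[], [(0, 0), (0, 1)], [(0, 0), (0, 1), (1, 1)], [2], [(0, 0, [6]), (1, 0, [6]), (3, 1,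
      [3]), (4, 1, [3])]⟩,
    ⟨[(0, 1)], [(1, 0), (1, 1), (1, 6)], [(1, 6)], [2], [(3, 1, [3]), (5, 6, [0])]⟩,
    ⟨[(0, 1)], [(0, 0), (0, 3), (1, 0)], [(0, 0), (0, 3)], [7], [(0, 0, [6]), (1, 0, [6]),
      (7, 3, [1])]⟩,
    ⟨[(0, 1), (1, 2)], [(1, 0), (1, 1), (2, 1)], [(1, 1)], [4, 5], [(3, 1, [3]), (4, 1,
      [3])]⟩,
    ⟨[(1, 4)], [(3, 3), (4, 1), (4, 3)], [], [4, 5], [(7, 3, [1])]⟩]
  Ta := [((0, 4), 0, 1), ((0, 6), 0, 7), ((1, 2), 0, 2), ((1, 7), 0, 3), ((3, 5), 1, 6), ((3, 8),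
    1, 4), ((4, 0), 1, 0), ((4, 9), 1, 5)]
  Tb := [((0, 4, 6), 0, 1, 7), ((1, 2, 7), 0, 2, 3), ((2, 1, 5), 2, 0, 6), ((3, 5, 8), 1, 6, 4),
    ((4, 0, 9), 1, 0, 5), ((5, 2, 3), 6, 2, 1), ((6, 0, 7), 7, 0, 3), ((7, 1, 6), 3, 0, 7),
    ((7, 1, 8), 3, 0, 4), ((7, 1, 9), 3, 0, 5), ((7, 6, 8), 3, 7, 4), ((7, 6, 9), 3, 7, 5),
    ((7, 8, 9), 3, 4, 5), ((8, 3, 7), 4, 1, 3), ((9, 4, 7), 5, 1, 3)]
  Tc := []
  Td := [((0, 6), (0, 4), 1), ((0, 6), (0, 6), 7), ((0, 6), (1, 2), 2), ((0, 6), (1, 7), 3), ((1,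
    3), (3, 5), 6), ((1, 3), (3, 8), 4), ((1, 3), (4, 0), 0), ((1, 3), (4, 9), 5), ((3, 1),
    (7, 1), 0), ((3, 1), (7, 6), 7), ((3, 1), (7, 8), 4), ((3, 1), (7, 9), 5), ((6, 0), (5,
    2), 2), ((6, 0), (5, 3), 1)]
  G := [[0, 0, 0, 0x24241d24e1819e19a1c4, 0x2a1d241d6a1de184], [0, 0x111e141e111ee182, 0,
    0x2a1d241d2e1de184, 0x2a1d241d2e1de282], [0, 0, 0x24241d2e1de4821d621de21de8198cc2,
    0x2abd243d2e9de184, 0x2a3d249d2ebde184], [0, 0, 0x821d621de21de248, 0x2abd243d2e9de184,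
    0x2bad243d2e9de184]]

noncomputable def n437 : Ent := ⟨e437, noF, [], [], [(12, 15, [360035742630636841211993100915356868655746945586763691009454081, 0])]⟩

def c437 : PLift (Cov.check n437.C.D v437 = true) := ⟨by decide +kernel⟩

def b437 : PLift (entF (fidx ts) 400 437 n437 = true) := ⟨by decide +kernel⟩

theorem g437 : GoodF (fidx ts) 400 437 := GoodF.ofV v437 n437 c437.down b437.down

/-- 484564:383 -/
noncomputable def e438 : SCfg where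
  D := {
    a := 6
    L := 11
    kp := 8
    inn := [(0, 1), (0, 3), (1, 0), (1, 2), (1, 4), (2, 1), (3, 0), (4, 1), (4, 5), (5, 4)]
    mix := [(0, 0), (0, 1), (1, 0), (1, 1), (1, 2), (1, 3), (1, 4), (2, 2), (2, 3), (2, 5), (3, 0), (3,
      1), (3, 6), (3, 7), (4, 3), (4, 4), (4, 8), (4, 9), (5, 8), (5, 9), (5, 10)]
    cl := [0, 0, 2, 1, 1, 5, 7, 8, 3, 4, 6]
    chq := [(0, 5), (1, 6), (5, 0), (6, 1)]
    rng := [(0, 4), (0, 6), (1, 2), (1, 7), (2, 1), (2, 5), (3, 5), (3, 8), (4, 0), (4, 9), (5, 2), (5,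
      3), (6, 0), (6, 7), (7, 1), (7, 6), (8, 3), (8, 10), (9, 4), (9, 10), (10, 8), (10, 9)]
    lev := [] }
  links := [[1, 6, 3, 7], [6, 0, 7, 8, 2, 9, 4, 10], [9, 1, 8, 11], [7, 0, 6, 12, 13], [10, 1, 9, 14, 5,
    15], [15, 4, 14, 16]]
  P := {
    a := 6
    N := 17
    nb := [202, 2005, 2818, 12481, 50722, 114704, 5131, 8459, 2182, 18454, 32850, 772, 8264, 4232,
      66096, 66608, 49184]
    tri := [(0, 1, 6), (0, 1, 7), (0, 3, 6), (0, 3, 7), (1, 2, 8), (1, 2, 9), (1, 4, 9), (1, 4, 10),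
      (1, 6, 10), (1, 7, 8), (2, 8, 11), (2, 9, 11), (3, 6, 12), (3, 7, 13), (3, 12, 13), (4, 5,
      14), (4, 5, 15), (4, 9, 14), (4, 10, 15), (5, 14, 16), (5, 15, 16)]
    fin := [0, 0, 0, 0, 4, 4, 0, 0, 8, 4, 4, 11, 12, 13, 14, 15, 16]
    chd := [(0, 11), (4, 16)]
    steps := [(0, 1), (0, 2), (0, 3), (0, 6), (0, 7), (4, 5), (4, 9), (4, 10)] }
  rep := [0, 4, 8, 14, 15, 11, 16, 12, 13]

noncomputable def v438 : Cov.CovD where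
  P := 3
  N := 6
  pl := [2, 6, 7, 8, 9]
  lev := [⟨[], [], [(0, 0)], [], [(0, 0, [5]), (1, 0, [5])]⟩,
    ⟨[], [(0, 0), (0, 1)], [(0, 0), (0, 1), (1, 1)], [2], [(0, 0, [5]), (1, 0, [5]), (3, 1,
      [6]), (4, 1, [6])]⟩,
    ⟨[(0, 1)], [(1, 0), (1, 1), (1, 5)], [(1, 5)], [2], [(3, 1, [6]), (5, 5, [0])]⟩,
    ⟨[(0, 1)], [(0, 0), (1, 0)], [(0, 0)], [7, 8], [(0, 0, [5]), (1, 0, [5])]⟩,
    ⟨[(0, 1), (1, 2)], [(1, 0), (1, 1), (2, 1)], [(1, 1)], [3, 4], [(3, 1, [6]), (4, 1,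
      [6])]⟩,
    ⟨[(1, 4)], [(4, 1), (4, 6)], [], [3, 4], [(10, 6, [1])]⟩]
  Ta := [((0, 4), 0, 1), ((0, 6), 0, 7), ((1, 2), 0, 2), ((1, 7), 0, 8), ((3, 5), 1, 5), ((3, 8),
    1, 3), ((4, 0), 1, 0), ((4, 9), 1, 4)]
  Tb := [((0, 4, 6), 0, 1, 7), ((1, 2, 7), 0, 2, 8), ((2, 1, 5), 2, 0, 5), ((3, 5, 8), 1, 5, 3),
    ((4, 0, 9), 1, 0, 4), ((5, 2, 3), 5, 2, 1), ((6, 0, 7), 7, 0, 8), ((7, 1, 6), 8, 0, 7),
    ((8, 3, 10), 3, 1, 6), ((9, 4, 10), 4, 1, 6), ((10, 8, 9), 6, 3, 4)]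
  Tc := []
  Td := [((0, 5), (0, 4), 1), ((0, 5), (0, 6), 7), ((0, 5), (1, 2), 2), ((0, 5), (1, 7), 8), ((1,
    6), (3, 5), 5), ((1, 6), (3, 8), 3), ((1, 6), (4, 0), 0), ((1, 6), (4, 9), 4), ((5, 0),
    (5, 2), 2), ((5, 0), (5, 3), 1), ((6, 1), (10, 8), 3), ((6, 1), (10, 9), 4)]
  G := [[0, 0, 0, 0x2ebd2ebd2ebde184, 0x2ebd2ebd2ebde182], [0, 0x111e111e111ee182, 0,
    0xe27de27de27de142, 0x2ebd2ebd2ebde284], [0, 0, 0x635635a2ebd2ebd635ec8a8e27da8ea82c46,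
    0x2ebd6352ebde18a84146, 0x2ebd2ebd2ebde184], [0, 0, 0x2ebd2ebd2ebde282,
    0xe27de27de27de148, 0x2ebd2ebd2ebde282]]

noncomputable def n438 : Ent := ⟨e438, noF, [], [], [(12, 16, [1580044410770988437309982408355971841652082177953823432505690890241, 0]), (12, 15, [1685356702439545624007900436039642273970977273354372543760001875969, 0]), (13, 16, [1580044410770988437309982408355971841652082177953823432505690902529, 0])]⟩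

def c438 : PLift (Cov.check n438.C.D v438 = true) := ⟨by decide +kernel⟩

def b438 : PLift (entF (fidx ts) 400 438 n438 = true) := ⟨by decide +kernel⟩

theorem g438 : GoodF (fidx ts) 400 438 := GoodF.ofV v438 n438 c438.down b438.down

/-- 467664:384/2 -/
noncomputable def e439 : SCfg where
  D := {
    a := 6
    L := 9
    kp := 6
    inn := [(0, 1), (0, 2), (0, 4), (1, 0), (1, 4), (2, 0), (2, 3), (2, 4), (3, 2), (3, 5), (4, 0), (4,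
      1), (4, 2), (5, 3)]
    mix := [(0, 0), (1, 0), (1, 1), (1, 2), (1, 3), (2, 0), (2, 4), (2, 5), (2, 6), (3, 2), (3, 4), (3,
      5), (3, 7), (4, 1), (4, 6), (4, 8), (5, 2), (5, 3), (5, 4)]
    cl := [0, 0, 2, 3, 1, 1, 4, 5, 6]
    chq := [(1, 6), (3, 5), (5, 3), (6, 1)]
    rng := [(0, 3), (0, 4), (1, 2), (1, 8), (2, 1), (2, 3), (2, 7), (3, 0), (3, 2), (3, 4), (4, 0), (4,
      3), (5, 6), (5, 7), (6, 5), (6, 8), (7, 2), (7, 5), (8, 1), (8, 6)]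
    lev := [] }
  links := [[1, 6, 2, 4], [6, 0, 4, 7, 8, 9], [4, 0, 6, 10, 3, 11, 12], [11, 2, 10, 5, 8, 13], [7, 1, 0,
    2, 12, 14], [8, 3, 10, 9]]
  P := {
    a := 6
    N := 15
    nb := [86, 977, 7257, 11556, 20615, 1800, 1543, 16658, 8874, 1378, 620, 12300, 18452, 2312, 4240]
    tri := [(0, 1, 4), (0, 1, 6), (0, 2, 4), (0, 2, 6), (1, 4, 7), (1, 6, 9), (1, 7, 8), (1, 8, 9), (2,
      3, 10), (2, 3, 11), (2, 4, 12), (2, 6, 10), (2, 11, 12), (3, 5, 8), (3, 5, 10), (3, 8, 13),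
      (3, 11, 13), (4, 7, 14), (4, 12, 14), (5, 8, 9), (5, 9, 10)]
    fin := [0, 0, 2, 3, 2, 3, 0, 0, 8, 3, 2, 2, 12, 13, 14]
    chd := [(2, 14), (3, 13)]
    steps := [(0, 1), (0, 6), (0, 7), (2, 4), (2, 10), (2, 11), (3, 5), (3, 9)] }
  rep := [0, 2, 8, 3, 12, 13, 14]

noncomputable def v439 : Cov.CovD where
  P := 3
  N := 4
  pl := [2, 6]
  lev := [⟨[], [], [], [], [(0, 0, [])]⟩,
    ⟨[], [(0, 0), (0, 3)], [(0, 0), (0, 3)], [2], [(0, 0, []), (1, 0, []), (3, 3, [5])]⟩,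
    ⟨[(0, 1)], [(0, 0), (0, 1), (1, 0)], [(0, 1), (1, 1)], [4], [(0, 0, []), (4, 1, [6]),
      (5, 1, [6])]⟩,
    ⟨[(0, 2)], [(2, 0), (2, 1), (2, 5)], [(1, 1), (1, 5)], [2], [(4, 1, [6]), (5, 1, [6]),
      (7, 5, [3])]⟩,
    ⟨[(0, 1), (0, 2), (1, 2), (2, 3)], [(0, 0), (0, 6), (1, 0), (1, 3), (1, 6), (2, 0), (2,
      1), (2, 6)], [(0, 6)], [4], [(1, 0, []), (8, 6, [1])]⟩,
    ⟨[(2, 3)], [(1, 3), (2, 1), (3, 1), (3, 3), (3, 5)], [(1, 3)], [2], [(3, 3, [5]), (4,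
      1, [6])]⟩]
  Ta := [((0, 3), 0, 3), ((0, 4), 0, 1), ((1, 2), 0, 2), ((1, 8), 0, 6), ((4, 0), 1, 0), ((4, 3),
    1, 3), ((5, 6), 1, 4), ((5, 7), 1, 5)]
  Tb := [((0, 3, 4), 0, 3, 1), ((1, 2, 8), 0, 2, 6), ((2, 1, 3), 2, 0, 3), ((2, 1, 7), 2, 0, 5),
    ((2, 3, 7), 2, 3, 5), ((3, 0, 2), 3, 0, 2), ((3, 0, 4), 3, 0, 1), ((3, 2, 4), 3, 2, 1),
    ((4, 0, 3), 1, 0, 3), ((5, 6, 7), 1, 4, 5), ((6, 5, 8), 4, 1, 6), ((7, 2, 5), 5, 2, 1),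
    ((8, 1, 6), 6, 0, 4)]
  Tc := []
  Td := [((1, 6), (4, 0), 0), ((1, 6), (4, 3), 3), ((1, 6), (5, 6), 4), ((1, 6), (5, 7), 5), ((3,
    5), (3, 0), 0), ((3, 5), (3, 2), 2), ((3, 5), (3, 4), 1), ((5, 3), (7, 2), 2), ((5, 3),
    (7, 5), 1), ((6, 1), (8, 1), 0), ((6, 1), (8, 6), 4)]
  G := [[0, 0x8148146c184186c8, 0, 0x824412425528cc12488c, 0x1192912829c118212b8ca4], [0, 0, 0,
    0x4284452411819c4188cc, 0x2122a9112b219c24], [0, 0, 0xc2482494284289c4,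
    0x82482451281285c8, 0x1212912829c11a81a11c8426], [0, 0, 0x42c822a226c5222c482a,
    0x11a8416854116418a498c, 0x21c286912a85221a182c]]

noncomputable def n439 : Ent := ⟨e439, noF, [], [], []⟩

def c439 : PLift (Cov.check n439.C.D v439 = true) := ⟨by decide +kernel⟩

def b439 : PLift (entF (fidx ts) 400 439 n439 = true) := ⟨by decide +kernel⟩

theorem g439 : GoodF (fidx ts) 400 439 := GoodF.ofV v439 n439 c439.down b439.down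

/-- 467664:384/1 -/
noncomputable def e440 : SCfg where
  D := {
    a := 6
    L := 10
    kp := 7
    inn := [(0, 1), (0, 2), (0, 4), (1, 0), (1, 4), (2, 0), (2, 3), (2, 4), (3, 2), (3, 5), (4, 0), (4,
      1), (4, 2), (5, 3)]
    mix := [(0, 0), (1, 0), (1, 1), (1, 2), (1, 3), (2, 0), (2, 4), (2, 5), (2, 6), (3, 4), (3, 5), (3,
      7), (3, 8), (4, 1), (4, 6), (4, 9), (5, 3), (5, 4), (5, 7)]
    cl := [0, 0, 7, 2, 1, 1, 3, 4, 5, 6]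
    chq := [(1, 6), (2, 5), (5, 2), (6, 1)]
    rng := [(0, 3), (0, 4), (1, 2), (1, 9), (2, 1), (2, 3), (3, 0), (3, 2), (3, 4), (3, 7), (4, 0), (4,
      3), (5, 6), (5, 8), (6, 5), (6, 9), (7, 3), (7, 8), (8, 5), (8, 7), (9, 1), (9, 6)]
    lev := [] }
  links := [[1, 6, 2, 4], [6, 0, 4, 7, 8, 9], [4, 0, 6, 10, 3, 11, 12], [11, 2, 10, 5, 13, 14], [7, 1, 0,
    2, 12, 15], [13, 3, 10, 9]]
  P := {
    a := 6
    N := 16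
    nb := [86, 977, 7257, 27684, 36999, 9736, 1543, 33042, 642, 9570, 620, 20492, 34836, 16936, 10248,
      4240]
    tri := [(0, 1, 4), (0, 1, 6), (0, 2, 4), (0, 2, 6), (1, 4, 7), (1, 6, 9), (1, 7, 8), (1, 8, 9), (2,
      3, 10), (2, 3, 11), (2, 4, 12), (2, 6, 10), (2, 11, 12), (3, 5, 10), (3, 5, 13), (3, 11,
      14), (3, 13, 14), (4, 7, 15), (4, 12, 15), (5, 9, 10), (5, 9, 13)]
    fin := [0, 0, 2, 3, 2, 3, 0, 0, 8, 3, 2, 2, 12, 13, 14, 15]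
    chd := [(2, 15), (3, 14)]
    steps := [(0, 1), (0, 6), (0, 7), (2, 4), (2, 10), (2, 11), (3, 5), (3, 9)] }
  rep := [0, 2, 3, 12, 13, 14, 15, 8]

noncomputable def v440 : Cov.CovD where
  P := 3
  N := 5
  pl := [2, 6, 7]
  lev := [⟨[], [], [], [], [(0, 0, [])]⟩,
    ⟨[], [(0, 0), (0, 2)], [(0, 0), (0, 2)], [7], [(0, 0, []), (1, 0, []), (3, 2, [5])]⟩,
    ⟨[(0, 1)], [(0, 0), (0, 1), (1, 0)], [(0, 1), (1, 1)], [3], [(0, 0, []), (4, 1, [6]),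
      (5, 1, [6])]⟩,
    ⟨[(0, 2)], [(2, 0), (2, 1), (2, 5)], [(1, 1), (1, 5)], [4], [(4, 1, [6]), (5, 1, [6]),
      (8, 5, [2])]⟩,
    ⟨[(0, 1), (0, 2), (1, 2), (2, 3)], [(0, 0), (0, 6), (1, 0), (1, 2), (1, 6), (2, 0), (2,
      1), (2, 6)], [(0, 6)], [3], [(1, 0, []), (9, 6, [1])]⟩,
    ⟨[(2, 3)], [(1, 2), (2, 1), (3, 1), (3, 2), (3, 5)], [(1, 2)], [4], [(3, 2, [5]), (4,
      1, [6])]⟩]
  Ta := [((0, 3), 0, 2), ((0, 4), 0, 1), ((1, 2), 0, 7), ((1, 9), 0, 6), ((4, 0), 1, 0), ((4, 3),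
    1, 2), ((5, 6), 1, 3), ((5, 8), 1, 5)]
  Tb := [((0, 3, 4), 0, 2, 1), ((1, 2, 9), 0, 7, 6), ((2, 1, 3), 7, 0, 2), ((3, 0, 2), 2, 0, 7),
    ((3, 0, 4), 2, 0, 1), ((3, 0, 7), 2, 0, 4), ((3, 2, 4), 2, 7, 1), ((3, 2, 7), 2, 7, 4),
    ((3, 4, 7), 2, 1, 4), ((4, 0, 3), 1, 0, 2), ((5, 6, 8), 1, 3, 5), ((6, 5, 9), 3, 1, 6),
    ((7, 3, 8), 4, 2, 5), ((8, 5, 7), 5, 1, 4), ((9, 1, 6), 6, 0, 3)]
  Tc := []
  Td := [((1, 6), (4, 0), 0), ((1, 6), (4, 3), 2), ((1, 6), (5, 6), 3), ((1, 6), (5, 8), 5), ((2,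
    5), (3, 0), 0), ((2, 5), (3, 2), 7), ((2, 5), (3, 4), 1), ((2, 5), (3, 7), 4), ((5, 2),
    (8, 5), 1), ((5, 2), (8, 7), 4), ((6, 1), (9, 1), 0), ((6, 1), (9, 6), 3)]
  G := [[0, 0x4141c1e41c1a814e4141c1e8141c1eac4, 0xc214c21c21cc118e8,
    0x524212d829212dc514212d829212dcc2, 0x829212d4923115886299116dca129212d81188ac], [0, 0,
    0xa21a11ca218c114e4, 0, 0x822212d4225815886223116dca112181d81188ac], [0, 0, 0,
    0x42125821298242cd42125821298242cdc2, 0x129212d1218292cd29a18a518a996c9a8861169425], [0,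
    0, 0, 0, 0x14826216d8818a982212ecd12692c82ad888e236c9a1161425]]

noncomputable def n440 : Ent := ⟨e440, noF, [], [], [(13, 8, [385753028440516072301455552771592353039595365811327381865721857, 0])]⟩

def c440 : PLift (Cov.check n440.C.D v440 = true) := ⟨by decide +kernel⟩

def b440 : PLift (entF (fidx ts) 400 440 n440 = true) := ⟨by decide +kernel⟩

theorem g440 : GoodF (fidx ts) 400 440 := GoodF.ofV v440 n440 c440.down b440.down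

/-- 467664:384/3 -/
noncomputable def e441 : SCfg where
  D := {
    a := 6
    L := 10
    kp := 7
    inn := [(0, 1), (0, 2), (0, 4), (1, 0), (1, 4), (2, 0), (2, 3), (2, 4), (3, 2), (3, 5), (4, 0), (4,
      1), (4, 2), (5, 3)]
    mix := [(0, 0), (1, 0), (1, 1), (1, 2), (1, 3), (2, 0), (2, 4), (2, 5), (2, 6), (3, 2), (3, 4), (3,
      5), (3, 7), (4, 1), (4, 6), (4, 8), (5, 2), (5, 4), (5, 9)]
    cl := [0, 0, 3, 7, 1, 1, 2, 4, 5, 6]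
    chq := [(1, 5), (4, 6), (5, 1), (6, 4)]
    rng := [(0, 3), (0, 4), (1, 2), (1, 8), (2, 1), (2, 3), (2, 7), (2, 9), (3, 0), (3, 2), (4, 0), (4,
      9), (5, 6), (5, 7), (6, 5), (6, 8), (7, 2), (7, 5), (8, 1), (8, 6), (9, 2), (9, 4)]
    lev := [] }
  links := [[1, 6, 2, 4], [6, 0, 4, 7, 8, 9], [4, 0, 6, 10, 3, 11, 12], [11, 2, 10, 5, 8, 13], [7, 1, 0,
    2, 12, 14], [8, 3, 10, 15]]
  P := {
    a := 6
    N := 16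
    nb := [86, 977, 7257, 11556, 20615, 34056, 1543, 16658, 41642, 322, 32876, 12300, 18452, 2312,
      4240, 1312]
    tri := [(0, 1, 4), (0, 1, 6), (0, 2, 4), (0, 2, 6), (1, 4, 7), (1, 6, 9), (1, 7, 8), (1, 8, 9), (2,
      3, 10), (2, 3, 11), (2, 4, 12), (2, 6, 10), (2, 11, 12), (3, 5, 8), (3, 5, 10), (3, 8, 13),
      (3, 11, 13), (4, 7, 14), (4, 12, 14), (5, 8, 15), (5, 10, 15)]
    fin := [0, 0, 2, 3, 2, 3, 0, 0, 8, 9, 2, 2, 12, 13, 14, 3]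
    chd := [(2, 14), (13, 3)]
    steps := [(0, 1), (0, 6), (0, 7), (2, 4), (2, 10), (2, 11), (3, 5), (3, 15)] }
  rep := [0, 2, 12, 8, 13, 14, 3, 9]

noncomputable def v441 : Cov.CovD where
  P := 3
  N := 5
  pl := [2, 3, 6]
  lev := [⟨[], [], [], [], [(0, 0, [])]⟩,
    ⟨[], [(0, 0)], [(0, 0)], [3, 7], [(0, 0, []), (1, 0, [])]⟩,
    ⟨[(0, 1)], [(0, 0), (0, 1), (1, 0)], [(0, 1), (1, 1)], [2], [(0, 0, []), (4, 1, [5]),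
      (5, 1, [5])]⟩,
    ⟨[(0, 2)], [(2, 0), (2, 1), (2, 4)], [(1, 1), (1, 4)], [3], [(4, 1, [5]), (5, 1, [5]),
      (7, 4, [6])]⟩,
    ⟨[(0, 1), (0, 2), (1, 2), (2, 3)], [(0, 0), (0, 5), (1, 0), (1, 5), (2, 0), (2, 1), (2,
      5)], [(0, 5)], [2], [(1, 0, []), (8, 5, [1])]⟩,
    ⟨[(2, 3)], [(2, 1), (3, 1), (3, 4), (3, 6)], [(1, 6)], [3], [(4, 1, [5]), (9, 6, [4])]⟩]
  Ta := [((0, 3), 0, 7), ((0, 4), 0, 1), ((1, 2), 0, 3), ((1, 8), 0, 5), ((4, 0), 1, 0), ((4, 9),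
    1, 6), ((5, 6), 1, 2), ((5, 7), 1, 4)]
  Tb := [((0, 3, 4), 0, 7, 1), ((1, 2, 8), 0, 3, 5), ((2, 1, 3), 3, 0, 7), ((2, 1, 7), 3, 0, 4),
    ((2, 1, 9), 3, 0, 6), ((2, 3, 7), 3, 7, 4), ((2, 3, 9), 3, 7, 6), ((2, 7, 9), 3, 4, 6),
    ((3, 0, 2), 7, 0, 3), ((4, 0, 9), 1, 0, 6), ((5, 6, 7), 1, 2, 4), ((6, 5, 8), 2, 1, 5),
    ((7, 2, 5), 4, 3, 1), ((8, 1, 6), 5, 0, 2), ((9, 2, 4), 6, 3, 1)]
  Tc := []
  Td := [((1, 5), (4, 0), 0), ((1, 5), (4, 9), 6), ((1, 5), (5, 6), 2), ((1, 5), (5, 7), 4), ((4,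
    6), (7, 2), 3), ((4, 6), (7, 5), 1), ((5, 1), (8, 1), 0), ((5, 1), (8, 6), 2), ((6, 4),
    (9, 2), 3), ((6, 4), (9, 4), 1)]
  G := [[0, 0x618181e841a141e82121c1e8e4, 0x12829412425811611a2cad4e8, 0,
    0x1181981141581111c1d8e2], [0, 0, 0x12829412425811612c22cd8e4, 0x118194114158111121d4e8,
    0x118198114158112121d8e2], [0, 0, 0x52829492425825629a2c6d8e1, 0,
    0x528282d89242582ca125a11ac9e4], [0, 0, 0x32829432425422622c226d8e1,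
    0x53c88c9499c44c5822c422c22c9ce1, 0x8213289421924922a22a522a89e4]]

noncomputable def n441 : Ent := ⟨e441, noF, [], [], [(15, 9, [360035742630636841345797572106540607504961255222653860045352961, 0])]⟩

def c441 : PLift (Cov.check n441.C.D v441 = true) := ⟨by decide +kernel⟩

def b441 : PLift (entF (fidx ts) 400 441 n441 = true) := ⟨by decide +kernel⟩

theorem g441 : GoodF (fidx ts) 400 441 := GoodF.ofV v441 n441 c441.down b441.down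

/-- 467664:384/4 -/
noncomputable def e442 : SCfg where
  D := {
    a := 6
    L := 10
    kp := 7
    inn := [(0, 1), (0, 2), (0, 4), (1, 0), (1, 4), (2, 0), (2, 3), (2, 4), (3, 2), (3, 5), (4, 0), (4,
      1), (4, 2), (5, 3)]
    mix := [(0, 0), (1, 0), (1, 1), (1, 2), (1, 3), (2, 0), (2, 4), (2, 5), (2, 6), (3, 2), (3, 4), (3,
      5), (3, 7), (4, 1), (4, 6), (4, 8), (5, 4), (5, 7), (5, 9)]
    cl := [0, 0, 2, 7, 1, 1, 3, 4, 5, 6]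
    chq := [(1, 5), (2, 6), (5, 1), (6, 2)]
    rng := [(0, 3), (0, 4), (1, 2), (1, 8), (2, 1), (2, 3), (2, 5), (2, 7), (3, 0), (3, 2), (4, 0), (4,
      9), (5, 2), (5, 6), (6, 5), (6, 8), (7, 2), (7, 9), (8, 1), (8, 6), (9, 4), (9, 7)]
    lev := [] }
  links := [[1, 6, 2, 4], [6, 0, 4, 7, 8, 9], [4, 0, 6, 10, 3, 11, 12], [11, 2, 10, 5, 13, 8], [7, 1, 0,
    2, 12, 14], [13, 3, 10, 15]]
  P := {
    a := 6
    N := 16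
    nb := [86, 977, 7257, 11556, 20615, 41992, 1543, 16658, 10890, 322, 32876, 4364, 18452, 33064,
      4240, 9248]
    tri := [(0, 1, 4), (0, 1, 6), (0, 2, 4), (0, 2, 6), (1, 4, 7), (1, 6, 9), (1, 7, 8), (1, 8, 9), (2,
      3, 10), (2, 3, 11), (2, 4, 12), (2, 6, 10), (2, 11, 12), (3, 5, 10), (3, 5, 13), (3, 8, 11),
      (3, 8, 13), (4, 7, 14), (4, 12, 14), (5, 10, 15), (5, 13, 15)]
    fin := [0, 0, 2, 3, 2, 3, 0, 0, 8, 9, 2, 2, 12, 13, 14, 3]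
    chd := [(2, 14), (8, 3)]
    steps := [(0, 1), (0, 6), (0, 7), (2, 4), (2, 10), (2, 11), (3, 5), (3, 15)] }
  rep := [0, 2, 8, 12, 13, 14, 3, 9]

noncomputable def v442 : Cov.CovD where
  P := 3
  N := 5
  pl := [3, 6, 7]
  lev := [⟨[], [], [], [], [(0, 0, [])]⟩,
    ⟨[], [(0, 0), (0, 2)], [(0, 0), (0, 2)], [7], [(0, 0, []), (1, 0, []), (2, 2, [6])]⟩,
    ⟨[(0, 1)], [(0, 0), (0, 1), (1, 0)], [(0, 1), (1, 1)], [3], [(0, 0, []), (4, 1, [5]),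
      (5, 1, [5])]⟩,
    ⟨[(0, 2)], [(1, 2), (2, 0), (2, 1), (2, 2)], [(1, 1), (1, 2)], [4], [(2, 2, [6]), (4,
      1, [5]), (5, 1, [5])]⟩,
    ⟨[(0, 1), (0, 2), (1, 2), (2, 3)], [(0, 0), (0, 5), (1, 0), (1, 2), (1, 5), (2, 0), (2,
      1), (2, 5)], [(0, 5)], [3], [(1, 0, []), (8, 5, [1])]⟩,
    ⟨[(2, 3)], [(2, 1), (3, 1), (3, 2), (3, 6)], [(1, 6)], [4], [(4, 1, [5]), (9, 6, [2])]⟩]
  Ta := [((0, 3), 0, 7), ((0, 4), 0, 1), ((1, 2), 0, 2), ((1, 8), 0, 5), ((4, 0), 1, 0), ((4, 9),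
    1, 6), ((5, 2), 1, 2), ((5, 6), 1, 3)]
  Tb := [((0, 3, 4), 0, 7, 1), ((1, 2, 8), 0, 2, 5), ((2, 1, 3), 2, 0, 7), ((2, 1, 5), 2, 0, 1),
    ((2, 1, 7), 2, 0, 4), ((2, 3, 5), 2, 7, 1), ((2, 3, 7), 2, 7, 4), ((2, 5, 7), 2, 1, 4),
    ((3, 0, 2), 7, 0, 2), ((4, 0, 9), 1, 0, 6), ((5, 2, 6), 1, 2, 3), ((6, 5, 8), 3, 1, 5),
    ((7, 2, 9), 4, 2, 6), ((8, 1, 6), 5, 0, 3), ((9, 4, 7), 6, 1, 4)]
  Tc := []
  Td := [((1, 5), (4, 0), 0), ((1, 5), (4, 9), 6), ((1, 5), (5, 2), 2), ((1, 5), (5, 6), 3), ((2,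
    6), (2, 1), 0), ((2, 6), (2, 3), 7), ((2, 6), (2, 5), 1), ((2, 6), (2, 7), 4), ((5, 1),
    (8, 1), 0), ((5, 1), (8, 6), 3), ((6, 2), (9, 4), 1), ((6, 2), (9, 7), 4)]
  G := [[0, 0x21e1ca18614e61a1ce121cac4, 0, 0, 0x42d1942d29c412da94c2b519ca4], [0, 0, 0,
    0x2222c42222522229cc2222988c, 0x2242941219c242742a941219ca4], [0, 0,
    0x1212c1212cc1212c1212ccc1, 0, 0x42c29d21528d2ca81ac5a1a464569c25], [0, 0,
    0x12126c112e11acc116122ec11a12ccc1, 0x222252222c5224221228dc8,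
    0x4414285221226446944a8da22122c42a9c2818a9]]

noncomputable def n442 : Ent := ⟨e442, noF, [], [], []⟩

def c442 : PLift (Cov.check n442.C.D v442 = true) := ⟨by decide +kernel⟩

def b442 : PLift (entF (fidx ts) 400 442 n442 = true) := ⟨by decide +kernel⟩

theorem g442 : GoodF (fidx ts) 400 442 := GoodF.ofV v442 n442 c442.down b442.down

/-- 467664:384 -/
noncomputable def e443 : SCfg where
  D := {
    a := 6
    L := 11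
    kp := 8
    inn := [(0, 1), (0, 2), (0, 4), (1, 0), (1, 4), (2, 0), (2, 3), (2, 4), (3, 2), (3, 5), (4, 0), (4,
      1), (4, 2), (5, 3)]
    mix := [(0, 0), (1, 0), (1, 1), (1, 2), (1, 3), (2, 0), (2, 4), (2, 5), (2, 6), (3, 4), (3, 5), (3,
      7), (3, 8), (4, 1), (4, 6), (4, 9), (5, 4), (5, 7), (5, 10)]
    cl := [0, 0, 7, 8, 1, 1, 2, 3, 4, 5, 6]
    chq := [(1, 5), (4, 6), (5, 1), (6, 4)]
    rng := [(0, 3), (0, 4), (1, 2), (1, 9), (2, 1), (2, 3), (3, 0), (3, 2), (4, 0), (4, 10), (5, 6),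
      (5, 8), (6, 5), (6, 9), (7, 8), (7, 10), (8, 5), (8, 7), (9, 1), (9, 6), (10, 4), (10, 7)]
    lev := [] }
  links := [[1, 6, 2, 4], [6, 0, 4, 7, 8, 9], [4, 0, 6, 10, 3, 11, 12], [11, 2, 10, 5, 13, 14], [7, 1, 0,
    2, 12, 15], [13, 3, 10, 16]]
  P := {
    a := 6
    N := 17
    nb := [86, 977, 7257, 27684, 36999, 74760, 1543, 33042, 642, 322, 65644, 20492, 34836, 81960,
      10248, 4240, 9248]
    tri := [(0, 1, 4), (0, 1, 6), (0, 2, 4), (0, 2, 6), (1, 4, 7), (1, 6, 9), (1, 7, 8), (1, 8, 9), (2,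
      3, 10), (2, 3, 11), (2, 4, 12), (2, 6, 10), (2, 11, 12), (3, 5, 10), (3, 5, 13), (3, 11,
      14), (3, 13, 14), (4, 7, 15), (4, 12, 15), (5, 10, 16), (5, 13, 16)]
    fin := [0, 0, 2, 3, 2, 3, 0, 0, 8, 9, 2, 2, 12, 13, 14, 15, 3]
    chd := [(2, 15), (14, 3)]
    steps := [(0, 1), (0, 6), (0, 7), (2, 4), (2, 10), (2, 11), (3, 5), (3, 16)] }
  rep := [0, 2, 12, 13, 14, 15, 3, 8, 9]

noncomputable def v443 : Cov.CovD where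
  P := 3
  N := 6
  pl := [2, 3, 6, 7]
  lev := [⟨[], [], [], [], [(0, 0, [])]⟩,
    ⟨[], [(0, 0)], [(0, 0)], [7, 8], [(0, 0, []), (1, 0, [])]⟩,
    ⟨[(0, 1)], [(0, 0), (0, 1), (1, 0)], [(0, 1), (1, 1)], [2], [(0, 0, []), (4, 1, [5]),
      (5, 1, [5])]⟩,
    ⟨[(0, 2)], [(2, 0), (2, 1), (2, 4)], [(1, 1), (1, 4)], [3], [(4, 1, [5]), (5, 1, [5]),
      (8, 4, [6])]⟩,
    ⟨[(0, 1), (0, 2), (1, 2), (2, 3)], [(0, 0), (0, 5), (1, 0), (1, 5), (2, 0), (2, 1), (2,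
      5)], [(0, 5)], [2], [(1, 0, []), (9, 5, [1])]⟩,
    ⟨[(2, 3)], [(2, 1), (3, 1), (3, 4), (3, 6)], [(1, 6)], [3], [(4, 1, [5]), (10, 6,
      [4])]⟩]
  Ta := [((0, 3), 0, 8), ((0, 4), 0, 1), ((1, 2), 0, 7), ((1, 9), 0, 5), ((4, 0), 1, 0), ((4,
    10), 1, 6), ((5, 6), 1, 2), ((5, 8), 1, 4)]
  Tb := [((0, 3, 4), 0, 8, 1), ((1, 2, 9), 0, 7, 5), ((2, 1, 3), 7, 0, 8), ((3, 0, 2), 8, 0, 7),
    ((4, 0, 10), 1, 0, 6), ((5, 6, 8), 1, 2, 4), ((6, 5, 9), 2, 1, 5), ((7, 8, 10), 3, 4, 6),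
    ((8, 5, 7), 4, 1, 3), ((9, 1, 6), 5, 0, 2), ((10, 4, 7), 6, 1, 3)]
  Tc := []
  Td := [((1, 5), (4, 0), 0), ((1, 5), (4, 10), 6), ((1, 5), (5, 6), 2), ((1, 5), (5, 8), 4),
    ((4, 6), (8, 5), 1), ((4, 6), (8, 7), 3), ((5, 1), (9, 1), 0), ((5, 1), (9, 6), 2), ((6,
    4), (10, 4), 1), ((6, 4), (10, 7), 3)]
  G := [[0, 0x61a1c1e861a1c1e861a1c1e4e2, 0x5292c2d45292c2d43964256cca9ce8, 0,
    0x5291c2d85191c1d85191c1d8e4], [0, 0, 0x3222a2d83222c2d8226936666d8e4,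
    0x3121c1d451a121d43121a1d4e2, 0x312171d831a161d82191c1d8e2], [0, 0,
    0x92452c29c5292c2d855699c2c6d8e4, 0, 0x5292c2d85292c2d8cca155a29ac9e4], [0, 0,
    0x52a222d8322272d822693a6cad8e4, 0x34422c3866cdc3492c6ccd288c99c4b2c26c9ce1,
    0x6212292c9629222d8aca135a22ac9e4]]

noncomputable def n443 : Ent := ⟨e443, noF, [], [], [(16, 9, [1580044410770988437310138513572361556014072927981731971036232777729, 0]), (13, 8, [1685382419725355503238989898491498509455361121774597107450858147841, 0]), (14, 8, [1685382413448253767852309140100226956982710121086235381895115022337, 0])]⟩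

def c443 : PLift (Cov.check n443.C.D v443 = true) := ⟨by decide +kernel⟩

def b443 : PLift (entF (fidx ts) 400 443 n443 = true) := ⟨by decide +kernel⟩

theorem g443 : GoodF (fidx ts) 400 443 := GoodF.ofV v443 n443 c443.down b443.down

/-- 457664:388/1 -/
noncomputable def e444 : SCfg where
  D := {
    a := 6
    L := 9
    kp := 7
    inn := [(0, 1), (0, 2), (1, 0), (1, 2), (1, 4), (2, 0), (2, 1), (2, 3), (2, 4), (3, 2), (3, 5), (4,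
      1), (4, 2), (5, 3)]
    mix := [(0, 0), (0, 1), (1, 1), (1, 2), (2, 0), (2, 3), (2, 4), (3, 3), (3, 4), (3, 5), (3, 6), (4,
      2), (4, 3), (4, 7), (4, 8), (5, 1), (5, 5), (5, 6)]
    cl := [2, 0, 4, 3, 1, 5, 3, 6, 7]
    chq := [(1, 4), (1, 6), (1, 7), (2, 4), (4, 1), (4, 2), (6, 1), (7, 1)]
    rng := [(0, 1), (0, 4), (1, 0), (1, 2), (1, 5), (1, 6), (2, 1), (2, 7), (3, 5), (3, 8), (4, 0), (4,
      6), (5, 1), (5, 3), (6, 1), (6, 4), (7, 2), (7, 8), (8, 3), (8, 7)]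
    lev := [] }
  links := [[1, 2, 6, 7], [2, 0, 7, 8, 4], [6, 0, 1, 4, 9, 3, 10], [10, 2, 9, 11, 5, 12], [9, 2, 1, 8,
    13, 14], [12, 3, 11, 7]]
  P := {
    a := 6
    N := 15
    nb := [198, 405, 1627, 7716, 25350, 6280, 1157, 6499, 8338, 18460, 4172, 680, 1192, 16656, 8720]
    tri := [(0, 1, 2), (0, 1, 7), (0, 2, 6), (0, 6, 7), (1, 2, 4), (1, 4, 8), (1, 7, 8), (2, 3, 9), (2,
      3, 10), (2, 4, 9), (2, 6, 10), (3, 5, 11), (3, 5, 12), (3, 9, 11), (3, 10, 12), (4, 8, 13),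
      (4, 9, 14), (4, 13, 14), (5, 7, 11), (5, 7, 12)]
    fin := [0, 0, 2, 3, 2, 5, 0, 5, 8, 3, 2, 11, 3, 13, 14]
    chd := [(0, 8), (2, 13), (2, 14), (8, 2)]
    steps := [(0, 1), (0, 6), (2, 4), (2, 10), (3, 9), (3, 12), (5, 7)] }
  rep := [5, 2, 0, 3, 8, 11, 13, 14]

noncomputable def v444 : Cov.CovD where
  P := 3
  N := 5
  pl := [1, 5]
  lev := [⟨[], [], [], [0], [(0, 2, [4])]⟩,
    ⟨[], [(0, 2), (0, 4)], [], [0], [(2, 4, [1, 2])]⟩,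
    ⟨[(0, 1)], [(0, 1), (0, 2), (0, 3), (1, 1), (1, 2), (1, 3), (1, 4)], [(1, 2), (1, 3),
      (2, 3)], [], [(0, 2, [4]), (3, 3, []), (4, 1, [4, 6, 7])]⟩,
    ⟨[(0, 2), (1, 2)], [(2, 1), (2, 2), (2, 3)], [(1, 3), (3, 3)], [5], [(3, 3, []), (4, 1,
      [4, 6, 7]), (6, 3, [])]⟩,
    ⟨[(0, 1), (0, 2), (1, 2), (2, 3)], [(1, 3), (1, 4), (1, 6), (1, 7), (2, 1), (2, 2), (2,
      3), (2, 4), (2, 6), (2, 7), (3, 3)], [(3, 4), (3, 6), (3, 7), (4, 6), (4, 7), (6, 7)],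
      [], [(2, 4, [1, 2]), (3, 3, []), (7, 6, [1]), (8, 7, [1])]⟩,
    ⟨[(2, 3)], [(3, 1), (3, 3)], [], [0, 5], [(6, 3, [])]⟩]
  Ta := [((3, 5), 3, 5), ((3, 8), 3, 7), ((6, 1), 3, 0), ((6, 4), 3, 1)]
  Tb := [((0, 1, 4), 2, 0, 1), ((1, 0, 2), 0, 2, 4), ((1, 0, 5), 0, 2, 5), ((1, 0, 6), 0, 2, 3),
    ((1, 2, 5), 0, 4, 5), ((1, 2, 6), 0, 4, 3), ((1, 5, 6), 0, 5, 3), ((2, 1, 7), 4, 0, 6),
    ((3, 5, 8), 3, 5, 7), ((4, 0, 6), 1, 2, 3), ((5, 1, 3), 5, 0, 3), ((6, 1, 4), 3, 0, 1),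
    ((7, 2, 8), 6, 4, 7), ((8, 3, 7), 7, 3, 6)]
  Tc := [(1, 4, 6), (1, 4, 7), (1, 6, 7), (4, 1, 2)]
  Td := [((1, 4), (4, 0), 2), ((1, 4), (4, 6), 3), ((1, 6), (4, 0), 2), ((1, 6), (4, 6), 3), ((1,
    7), (4, 0), 2), ((1, 7), (4, 6), 3), ((2, 4), (0, 1), 0), ((2, 4), (0, 4), 1), ((4, 1),
    (2, 1), 0), ((4, 1), (2, 7), 6), ((4, 2), (2, 1), 0), ((4, 2), (2, 7), 6), ((6, 1), (7,
    2), 4), ((6, 1), (7, 8), 7), ((7, 1), (8, 3), 3), ((7, 1), (8, 7), 6)]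
  G := [[0, 0xa14426141a212c2c, 0x621c21cc21621cc2, 0x2242c2d128, 0x4222c2d148], [0,
    0x818424121682c, 0xe214e218c2, 0x824222d128, 0x824222d142]]

noncomputable def n444 : Ent := ⟨e444, noF, [], [], []⟩

def c444 : PLift (Cov.check n444.C.D v444 = true) := ⟨by decide +kernel⟩

def b444 : PLift (entF (fidx ts) 400 444 n444 = true) := ⟨by decide +kernel⟩

theorem g444 : GoodF (fidx ts) 400 444 := GoodF.ofV v444 n444 c444.down b444.down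

/-- 457664:388 -/
noncomputable def e445 : SCfg where
  D := {
    a := 6
    L := 10
    kp := 8
    inn := [(0, 1), (0, 2), (1, 0), (1, 2), (1, 4), (2, 0), (2, 1), (2, 3), (2, 4), (3, 2), (3, 5), (4,
      1), (4, 2), (5, 3)]
    mix := [(0, 0), (0, 1), (1, 1), (1, 2), (2, 0), (2, 3), (2, 4), (3, 3), (3, 4), (3, 5), (3, 6), (4,
      2), (4, 3), (4, 7), (4, 8), (5, 5), (5, 6), (5, 9)]
    cl := [1, 2, 4, 3, 0, 5, 3, 6, 7, 8]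
    chq := [(0, 4), (0, 6), (0, 7), (1, 4), (4, 0), (4, 1), (6, 0), (7, 0)]
    rng := [(0, 1), (0, 4), (1, 0), (1, 2), (2, 1), (2, 7), (3, 5), (3, 8), (4, 0), (4, 6), (5, 3), (5,
      9), (6, 4), (6, 9), (7, 2), (7, 8), (8, 3), (8, 7), (9, 5), (9, 6)]
    lev := [] }
  links := [[1, 2, 6, 7], [2, 0, 7, 8, 4], [6, 0, 1, 4, 9, 3, 10], [10, 2, 9, 11, 5, 12], [9, 2, 1, 8,
    13, 14], [12, 3, 11, 15]]
  P := {
    a := 6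
    N := 16
    nb := [198, 405, 1627, 7716, 25350, 38920, 1157, 323, 8338, 18460, 4172, 33320, 33832, 16656,
      8720, 6176]
    tri := [(0, 1, 2), (0, 1, 7), (0, 2, 6), (0, 6, 7), (1, 2, 4), (1, 4, 8), (1, 7, 8), (2, 3, 9), (2,
      3, 10), (2, 4, 9), (2, 6, 10), (3, 5, 11), (3, 5, 12), (3, 9, 11), (3, 10, 12), (4, 8, 13),
      (4, 9, 14), (4, 13, 14), (5, 11, 15), (5, 12, 15)]
    fin := [0, 0, 2, 3, 2, 3, 0, 7, 8, 3, 2, 11, 3, 13, 14, 15]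
    chd := [(0, 8), (2, 13), (2, 14), (8, 2)]
    steps := [(0, 1), (0, 6), (2, 4), (2, 10), (3, 5), (3, 9), (3, 12)] }
  rep := [2, 0, 7, 3, 8, 11, 13, 14, 15]

noncomputable def v445 : Cov.CovD where
  P := 3
  N := 6
  pl := [1, 5, 9]
  lev := [⟨[], [], [], [2], [(0, 1, [4])]⟩,
    ⟨[], [(0, 1), (0, 4)], [], [2], [(2, 4, [0, 1])]⟩,
    ⟨[(0, 1)], [(0, 0), (0, 1), (0, 3), (1, 0), (1, 1), (1, 3), (1, 4)], [(0, 1), (0, 3),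
      (1, 3)], [], [(0, 1, [4]), (3, 3, []), (4, 0, [4, 6, 7])]⟩,
    ⟨[(0, 2), (1, 2)], [(2, 0), (2, 1), (2, 3)], [(0, 3), (3, 3)], [5], [(3, 3, []), (4, 0,
      [4, 6, 7]), (6, 3, [])]⟩,
    ⟨[(0, 1), (0, 2), (1, 2), (2, 3)], [(1, 3), (1, 4), (1, 6), (1, 7), (2, 0), (2, 1), (2,
      3), (2, 4), (2, 6), (2, 7), (3, 3)], [(3, 4), (3, 6), (3, 7), (4, 6), (4, 7), (6, 7)],
      [], [(2, 4, [0, 1]), (3, 3, []), (7, 6, [0]), (8, 7, [0])]⟩,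
    ⟨[(2, 3)], [(3, 0), (3, 3)], [], [5, 8], [(6, 3, [])]⟩]
  Ta := [((3, 5), 3, 5), ((3, 8), 3, 7), ((6, 4), 3, 0), ((6, 9), 3, 8)]
  Tb := [((0, 1, 4), 1, 2, 0), ((1, 0, 2), 2, 1, 4), ((2, 1, 7), 4, 2, 6), ((3, 5, 8), 3, 5, 7),
    ((4, 0, 6), 0, 1, 3), ((5, 3, 9), 5, 3, 8), ((6, 4, 9), 3, 0, 8), ((7, 2, 8), 6, 4, 7),
    ((8, 3, 7), 7, 3, 6), ((9, 5, 6), 8, 5, 3)]
  Tc := [(0, 4, 6), (0, 4, 7), (0, 6, 7), (4, 0, 1)]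
  Td := [((0, 4), (4, 0), 1), ((0, 4), (4, 6), 3), ((0, 6), (4, 0), 1), ((0, 6), (4, 6), 3), ((0,
    7), (4, 0), 1), ((0, 7), (4, 6), 3), ((1, 4), (0, 1), 2), ((1, 4), (0, 4), 0), ((4, 0),
    (2, 1), 2), ((4, 0), (2, 7), 6), ((4, 1), (2, 1), 2), ((4, 1), (2, 7), 6), ((6, 0), (7,
    2), 4), ((6, 0), (7, 8), 7), ((7, 0), (8, 3), 3), ((7, 0), (8, 7), 6)]
  G := [[0, 0x7121ca1c16a14, 0xb14427141a812c2c, 0xa14416188151613b1816c7141a91a13ccd,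
    0x61c1ab1816c21], [0, 0x3129151ca14, 0x918425131682c, 0x8184141481d1117141f411d1b181f8cd,
    0x5149131ac21]]

noncomputable def n445 : Ent := ⟨e445, noF, [], [], [(7, 15, [360035742630636841211993100915356868655746945586763691009490945, 0])]⟩

def c445 : PLift (Cov.check n445.C.D v445 = true) := ⟨by decide +kernel⟩

def b445 : PLift (entF (fidx ts) 400 445 n445 = true) := ⟨by decide +kernel⟩

theorem g445 : GoodF (fidx ts) 400 445 := GoodF.ofV v445 n445 c445.down b445.down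

/-- 457674:389/1 -/
noncomputable def e446 : SCfg where
  D := {
    a := 6
    L := 10
    kp := 8
    inn := [(0, 1), (0, 2), (1, 0), (1, 2), (1, 4), (2, 0), (2, 1), (2, 3), (2, 4), (3, 2), (3, 5), (4,
      1), (4, 2), (5, 3)]
    mix := [(0, 0), (0, 1), (1, 1), (1, 2), (2, 0), (2, 3), (2, 4), (3, 3), (3, 4), (3, 5), (3, 6), (4,
      2), (4, 3), (4, 7), (4, 8), (4, 9), (5, 1), (5, 5), (5, 6)]
    cl := [2, 0, 4, 3, 1, 5, 3, 6, 7, 8]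
    chq := [(1, 4), (1, 6), (1, 7), (1, 8), (2, 4), (4, 1), (4, 2), (6, 1), (7, 1), (8, 1)]
    rng := [(0, 1), (0, 4), (1, 0), (1, 2), (1, 5), (1, 6), (2, 1), (2, 7), (3, 5), (3, 9), (4, 0), (4,
      6), (5, 1), (5, 3), (6, 1), (6, 4), (7, 2), (7, 8), (8, 7), (8, 9), (9, 3), (9, 8)]
    lev := [] }
  links := [[1, 2, 6, 7], [2, 0, 7, 8, 4], [6, 0, 1, 4, 9, 3, 10], [10, 2, 9, 11, 5, 12], [9, 2, 1, 8,
    13, 14, 15], [12, 3, 11, 7]]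
  P := {
    a := 6
    N := 16
    nb := [198, 405, 1627, 7716, 58118, 6280, 1157, 6499, 8338, 34844, 4172, 680, 1192, 16656, 40976,
      16912]
    tri := [(0, 1, 2), (0, 1, 7), (0, 2, 6), (0, 6, 7), (1, 2, 4), (1, 4, 8), (1, 7, 8), (2, 3, 9), (2,
      3, 10), (2, 4, 9), (2, 6, 10), (3, 5, 11), (3, 5, 12), (3, 9, 11), (3, 10, 12), (4, 8, 13),
      (4, 9, 15), (4, 13, 14), (4, 14, 15), (5, 7, 11), (5, 7, 12)]
    fin := [0, 0, 2, 3, 2, 5, 0, 5, 8, 3, 2, 11, 3, 13, 14, 15]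
    chd := [(0, 8), (2, 13), (2, 14), (2, 15), (8, 2)]
    steps := [(0, 1), (0, 6), (2, 4), (2, 10), (3, 9), (3, 12), (5, 7)] }
  rep := [5, 2, 0, 3, 8, 11, 13, 14, 15]

noncomputable def v446 : Cov.CovD where
  P := 3
  N := 6
  pl := [1, 5]
  lev := [⟨[], [], [], [0], [(0, 2, [4])]⟩,
    ⟨[], [(0, 2), (0, 4)], [], [0], [(2, 4, [1, 2])]⟩,
    ⟨[(0, 1)], [(0, 1), (0, 2), (0, 3), (1, 1), (1, 2), (1, 3), (1, 4)], [(1, 2), (1, 3),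
      (2, 3)], [], [(0, 2, [4]), (3, 3, []), (4, 1, [4, 6, 7, 8])]⟩,
    ⟨[(0, 2), (1, 2)], [(2, 1), (2, 2), (2, 3)], [(1, 3), (3, 3)], [5], [(3, 3, []), (4, 1,
      [4, 6, 7, 8]), (6, 3, [])]⟩,
    ⟨[(0, 1), (0, 2), (1, 2), (2, 3)], [(1, 3), (1, 4), (1, 6), (1, 7), (1, 8), (2, 1), (2,
      2), (2, 3), (2, 4), (2, 6), (2, 7), (2, 8), (3, 3)], [(3, 4), (3, 6), (3, 7), (3, 8),
      (4, 6), (4, 7), (4, 8), (6, 7), (6, 8), (7, 8)], [], [(2, 4, [1, 2]), (3, 3, []), (7,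
      6, [1]), (8, 7, [1]), (9, 8, [1])]⟩,
    ⟨[(2, 3)], [(3, 1), (3, 3)], [], [0, 5], [(6, 3, [])]⟩]
  Ta := [((3, 5), 3, 5), ((3, 9), 3, 8), ((6, 1), 3, 0), ((6, 4), 3, 1)]
  Tb := [((0, 1, 4), 2, 0, 1), ((1, 0, 2), 0, 2, 4), ((1, 0, 5), 0, 2, 5), ((1, 0, 6), 0, 2, 3),
    ((1, 2, 5), 0, 4, 5), ((1, 2, 6), 0, 4, 3), ((1, 5, 6), 0, 5, 3), ((2, 1, 7), 4, 0, 6),
    ((3, 5, 9), 3, 5, 8), ((4, 0, 6), 1, 2, 3), ((5, 1, 3), 5, 0, 3), ((6, 1, 4), 3, 0, 1),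
    ((7, 2, 8), 6, 4, 7), ((8, 7, 9), 7, 6, 8), ((9, 3, 8), 8, 3, 7)]
  Tc := [(1, 4, 6), (1, 4, 7), (1, 4, 8), (1, 6, 7), (1, 6, 8), (1, 7, 8), (4, 1, 2)]
  Td := [((1, 4), (4, 0), 2), ((1, 4), (4, 6), 3), ((1, 6), (4, 0), 2), ((1, 6), (4, 6), 3), ((1,
    7), (4, 0), 2), ((1, 7), (4, 6), 3), ((1, 8), (4, 0), 2), ((1, 8), (4, 6), 3), ((2, 4),
    (0, 1), 0), ((2, 4), (0, 4), 1), ((4, 1), (2, 1), 0), ((4, 1), (2, 7), 6), ((4, 2), (2,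
    1), 0), ((4, 2), (2, 7), 6), ((6, 1), (7, 2), 4), ((6, 1), (7, 8), 7), ((7, 1), (8, 7),
    6), ((7, 1), (8, 9), 8), ((8, 1), (9, 3), 3), ((8, 1), (9, 8), 7)]
  G := [[0, 0xa1816426141a82c, 0x621a21c621621cc2, 0x2242c2d124, 0x228262d148], [0,
    0x8121a4241482c, 0xe214e218c2, 0x824222d128, 0x824222d148]]

noncomputable def n446 : Ent := ⟨e446, noF, [], [], []⟩

def c446 : PLift (Cov.check n446.C.D v446 = true) := ⟨by decide +kernel⟩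

def b446 : PLift (entF (fidx ts) 400 446 n446 = true) := ⟨by decide +kernel⟩

theorem g446 : GoodF (fidx ts) 400 446 := GoodF.ofV v446 n446 c446.down b446.down

/-- 457674:389 -/
noncomputable def e447 : SCfg where
  D := {
    a := 6
    L := 11
    kp := 9
    inn := [(0, 1), (0, 2), (1, 0), (1, 2), (1, 4), (2, 0), (2, 1), (2, 3), (2, 4), (3, 2), (3, 5), (4,
      1), (4, 2), (5, 3)]
    mix := [(0, 0), (0, 1), (1, 1), (1, 2), (2, 0), (2, 3), (2, 4), (3, 3), (3, 4), (3, 5), (3, 6), (4,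
      2), (4, 3), (4, 7), (4, 8), (4, 9), (5, 5), (5, 6), (5, 10)]
    cl := [1, 2, 4, 3, 0, 5, 3, 6, 7, 8, 9]
    chq := [(0, 4), (0, 6), (0, 7), (0, 8), (1, 4), (4, 0), (4, 1), (6, 0), (7, 0), (8, 0)]
    rng := [(0, 1), (0, 4), (1, 0), (1, 2), (2, 1), (2, 7), (3, 5), (3, 9), (4, 0), (4, 6), (5, 3), (5,
      10), (6, 4), (6, 10), (7, 2), (7, 8), (8, 7), (8, 9), (9, 3), (9, 8), (10, 5), (10, 6)]
    lev := [] }
  links := [[1, 2, 6, 7], [2, 0, 7, 8, 4], [6, 0, 1, 4, 9, 3, 10], [10, 2, 9, 11, 5, 12], [9, 2, 1, 8,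
    13, 14, 15], [12, 3, 11, 16]]
  P := {
    a := 6
    N := 17
    nb := [198, 405, 1627, 7716, 58118, 71688, 1157, 323, 8338, 34844, 4172, 66088, 66600, 16656,
      40976, 16912, 6176]
    tri := [(0, 1, 2), (0, 1, 7), (0, 2, 6), (0, 6, 7), (1, 2, 4), (1, 4, 8), (1, 7, 8), (2, 3, 9), (2,
      3, 10), (2, 4, 9), (2, 6, 10), (3, 5, 11), (3, 5, 12), (3, 9, 11), (3, 10, 12), (4, 8, 13),
      (4, 9, 15), (4, 13, 14), (4, 14, 15), (5, 11, 16), (5, 12, 16)]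
    fin := [0, 0, 2, 3, 2, 3, 0, 7, 8, 3, 2, 11, 3, 13, 14, 15, 16]
    chd := [(0, 8), (2, 13), (2, 14), (2, 15), (8, 2)]
    steps := [(0, 1), (0, 6), (2, 4), (2, 10), (3, 5), (3, 9), (3, 12)] }
  rep := [2, 0, 7, 3, 8, 11, 13, 14, 15, 16]

noncomputable def v447 : Cov.CovD where
  P := 3
  N := 7
  pl := [1, 5, 10]
  lev := [⟨[], [], [], [2], [(0, 1, [4])]⟩,
    ⟨[], [(0, 1), (0, 4)], [], [2], [(2, 4, [0, 1])]⟩,
    ⟨[(0, 1)], [(0, 0), (0, 1), (0, 3), (1, 0), (1, 1), (1, 3), (1, 4)], [(0, 1), (0, 3),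
      (1, 3)], [], [(0, 1, [4]), (3, 3, []), (4, 0, [4, 6, 7, 8])]⟩,
    ⟨[(0, 2), (1, 2)], [(2, 0), (2, 1), (2, 3)], [(0, 3), (3, 3)], [5], [(3, 3, []), (4, 0,
      [4, 6, 7, 8]), (6, 3, [])]⟩,
    ⟨[(0, 1), (0, 2), (1, 2), (2, 3)], [(1, 3), (1, 4), (1, 6), (1, 7), (1, 8), (2, 0), (2,
      1), (2, 3), (2, 4), (2, 6), (2, 7), (2, 8), (3, 3)], [(3, 4), (3, 6), (3, 7), (3, 8),
      (4, 6), (4, 7), (4, 8), (6, 7), (6, 8), (7, 8)], [], [(2, 4, [0, 1]), (3, 3, []), (7,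
      6, [0]), (8, 7, [0]), (9, 8, [0])]⟩,
    ⟨[(2, 3)], [(3, 0), (3, 3)], [], [5, 9], [(6, 3, [])]⟩]
  Ta := [((3, 5), 3, 5), ((3, 9), 3, 8), ((6, 4), 3, 0), ((6, 10), 3, 9)]
  Tb := [((0, 1, 4), 1, 2, 0), ((1, 0, 2), 2, 1, 4), ((2, 1, 7), 4, 2, 6), ((3, 5, 9), 3, 5, 8),
    ((4, 0, 6), 0, 1, 3), ((5, 3, 10), 5, 3, 9), ((6, 4, 10), 3, 0, 9), ((7, 2, 8), 6, 4, 7),
    ((8, 7, 9), 7, 6, 8), ((9, 3, 8), 8, 3, 7), ((10, 5, 6), 9, 5, 3)]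
  Tc := [(0, 4, 6), (0, 4, 7), (0, 4, 8), (0, 6, 7), (0, 6, 8), (0, 7, 8), (4, 0, 1)]
  Td := [((0, 4), (4, 0), 1), ((0, 4), (4, 6), 3), ((0, 6), (4, 0), 1), ((0, 6), (4, 6), 3), ((0,
    7), (4, 0), 1), ((0, 7), (4, 6), 3), ((0, 8), (4, 0), 1), ((0, 8), (4, 6), 3), ((1, 4),
    (0, 1), 2), ((1, 4), (0, 4), 0), ((4, 0), (2, 1), 2), ((4, 0), (2, 7), 6), ((4, 1), (2,
    1), 2), ((4, 1), (2, 7), 6), ((6, 0), (7, 2), 4), ((6, 0), (7, 8), 7), ((7, 0), (8, 7),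
    6), ((7, 0), (8, 9), 8), ((8, 0), (9, 3), 3), ((8, 0), (9, 8), 7)]
  G := [[0, 0x7121c51c16a14, 0xa19164261c1a82c, 0xb1816416131a86188551613b1815c81e134cd,
    0x6151ab1816c21], [0, 0x3129151ca14, 0x918425131682c, 0xd1117141f4818494148111d1b181f84d,
    0x5149131ac21]]

noncomputable def n447 : Ent := ⟨e447, noF, [], [], [(7, 16, [1580044410770988437309982408355971841652082177953823432505690939393, 0])]⟩

def c447 : PLift (Cov.check n447.C.D v447 = true) := ⟨by decide +kernel⟩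

def b447 : PLift (entF (fidx ts) 400 447 n447 = true) := ⟨by decide +kernel⟩

theorem g447 : GoodF (fidx ts) 400 447 := GoodF.ofV v447 n447 c447.down b447.down

/-- 457664:390/1 -/
noncomputable def e448 : SCfg where
  D := {
    a := 6
    L := 9
    kp := 7
    inn := [(0, 1), (0, 2), (1, 0), (1, 2), (2, 0), (2, 1), (2, 3), (3, 2), (3, 4), (3, 5), (4, 3), (4,
      5), (5, 3), (5, 4)]
    mix := [(0, 0), (0, 1), (1, 1), (1, 2), (1, 3), (2, 0), (2, 3), (2, 4), (2, 5), (3, 4), (3, 5), (3,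
      6), (4, 1), (4, 4), (4, 7), (4, 8), (5, 6), (5, 8)]
    cl := [0, 1, 6, 2, 0, 3, 5, 7, 4]
    chq := [(0, 6), (1, 3), (3, 1), (3, 4), (3, 7), (4, 3), (6, 0), (7, 3)]
    rng := [(0, 1), (0, 5), (1, 0), (1, 2), (1, 7), (1, 8), (2, 1), (2, 3), (3, 2), (3, 4), (4, 3), (4,
      7), (5, 0), (5, 6), (6, 5), (6, 8), (7, 1), (7, 4), (8, 1), (8, 6)]
    lev := [] }
  links := [[1, 2, 6, 7], [2, 0, 7, 8, 9], [6, 0, 1, 9, 10, 3, 11], [11, 2, 10, 4, 5, 12], [5, 3, 10, 13,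
    7, 14], [12, 3, 4, 14]]
  P := {
    a := 6
    N := 15
    nb := [198, 901, 3659, 7220, 25768, 20504, 2181, 24915, 642, 1286, 8732, 4172, 18472, 1168, 4272]
    tri := [(0, 1, 2), (0, 1, 7), (0, 2, 6), (0, 6, 7), (1, 2, 9), (1, 7, 8), (1, 8, 9), (2, 3, 10),
      (2, 3, 11), (2, 6, 11), (2, 9, 10), (3, 4, 5), (3, 4, 10), (3, 5, 12), (3, 11, 12), (4, 5,
      14), (4, 7, 13), (4, 7, 14), (4, 10, 13), (5, 12, 14)]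
    fin := [0, 0, 0, 3, 3, 5, 0, 7, 8, 9, 0, 3, 12, 13, 5]
    chd := [(0, 8), (3, 5), (3, 13), (7, 3)]
    steps := [(0, 1), (0, 2), (0, 6), (0, 10), (3, 4), (3, 11), (5, 14)] }
  rep := [0, 7, 9, 3, 5, 12, 8, 13]

noncomputable def v448 : Cov.CovD where
  P := 3
  N := 5
  pl := [3, 6]
  lev := [⟨[], [], [(0, 1)], [], [(0, 0, [6]), (1, 1, [3])]⟩,
    ⟨[], [(0, 0), (0, 1), (0, 6)], [(1, 6)], [2], [(1, 1, [3]), (2, 6, [0])]⟩,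
    ⟨[(0, 1)], [(0, 0), (0, 1), (0, 3), (1, 0), (1, 1), (1, 3), (1, 6)], [(0, 0), (0, 3)],
      [2], [(0, 0, [6]), (4, 0, [6]), (5, 3, [1, 4, 7])]⟩,
    ⟨[(0, 2), (1, 2)], [(2, 0), (2, 3)], [(0, 3)], [5], [(4, 0, [6]), (5, 3, [1, 4, 7])]⟩,
    ⟨[(2, 3)], [(0, 1), (1, 1), (2, 0), (3, 0), (3, 1), (3, 3), (3, 4), (3, 7)], [(0, 1),
      (0, 4), (0, 7), (1, 4), (1, 7), (4, 7)], [], [(1, 1, [3]), (4, 0, [6]), (7, 7, [3]),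
      (8, 4, [3])]⟩,
    ⟨[(2, 3), (3, 4)], [(3, 0), (3, 3), (3, 4), (4, 0), (4, 1), (4, 4), (4, 7)], [], [5],
      [(8, 4, [3])]⟩]
  Ta := [((0, 1), 0, 1), ((0, 5), 0, 3), ((4, 3), 0, 2), ((4, 7), 0, 7)]
  Tb := [((0, 1, 5), 0, 1, 3), ((1, 0, 2), 1, 0, 6), ((1, 0, 7), 1, 0, 7), ((1, 0, 8), 1, 0, 4),
    ((1, 2, 7), 1, 6, 7), ((1, 2, 8), 1, 6, 4), ((1, 7, 8), 1, 7, 4), ((2, 1, 3), 6, 1, 2),
    ((3, 2, 4), 2, 6, 0), ((4, 3, 7), 0, 2, 7), ((5, 0, 6), 3, 0, 5), ((6, 5, 8), 5, 3, 4),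
    ((7, 1, 4), 7, 1, 0), ((8, 1, 6), 4, 1, 5)]
  Tc := [(3, 1, 4), (3, 1, 7), (3, 4, 7)]
  Td := [((0, 6), (0, 1), 1), ((0, 6), (0, 5), 3), ((0, 6), (4, 3), 2), ((0, 6), (4, 7), 7), ((1,
    3), (1, 0), 0), ((1, 3), (1, 2), 6), ((1, 3), (1, 7), 7), ((1, 3), (1, 8), 4), ((3, 1),
    (5, 0), 0), ((3, 1), (5, 6), 5), ((3, 4), (5, 0), 0), ((3, 4), (5, 6), 5), ((3, 7), (5,
    0), 0), ((3, 7), (5, 6), 5), ((4, 3), (8, 1), 1), ((4, 3), (8, 6), 5), ((6, 0), (2, 1),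
    1), ((6, 0), (2, 3), 2), ((7, 3), (7, 1), 1), ((7, 3), (7, 4), 0)]
  G := [[0, 0x3254c26738586c11632d4e98c83cc2, 0, 0x61a1b4c4fe8883c14, 0x2e5569cccd214], [0, 0,
    0x796b5a95ce25169ecafda886ac4, 0xcd691ae8e417454a81c, 0xb9675a95ce218]]

noncomputable def n448 : Ent := ⟨e448, noF, [], [], []⟩

def c448 : PLift (Cov.check n448.C.D v448 = true) := ⟨by decide +kernel⟩

def b448 : PLift (entF (fidx ts) 400 448 n448 = true) := ⟨by decide +kernel⟩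

theorem g448 : GoodF (fidx ts) 400 448 := GoodF.ofV v448 n448 c448.down b448.down

/-- 457664:390/2 -/
noncomputable def e449 : SCfg where
  D := {
    a := 6
    L := 9
    kp := 7
    inn := [(0, 1), (0, 2), (1, 0), (1, 2), (2, 0), (2, 1), (2, 3), (3, 2), (3, 4), (3, 5), (4, 3), (4,
      5), (5, 3), (5, 4)]
    mix := [(0, 0), (0, 1), (1, 1), (1, 2), (1, 3), (2, 0), (2, 3), (2, 4), (2, 5), (3, 4), (3, 5), (3,
      6), (4, 1), (4, 4), (4, 7), (4, 8), (5, 1), (5, 6)]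
    cl := [0, 1, 5, 2, 0, 3, 4, 6, 7]
    chq := [(0, 5), (1, 3), (3, 1), (3, 6), (3, 7), (5, 0), (6, 3), (7, 3)]
    rng := [(0, 1), (0, 5), (1, 0), (1, 2), (1, 6), (1, 8), (2, 1), (2, 3), (3, 2), (3, 4), (4, 3), (4,
      7), (5, 0), (5, 6), (6, 1), (6, 5), (7, 4), (7, 8), (8, 1), (8, 7)]
    lev := [] }
  links := [[1, 2, 6, 7], [2, 0, 7, 8, 9], [6, 0, 1, 9, 10, 3, 11], [11, 2, 10, 4, 5, 12], [5, 3, 10, 13,
    14, 7], [12, 3, 4, 7]]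
  P := {
    a := 6
    N := 15
    nb := [198, 901, 3659, 7220, 25768, 4248, 2181, 20851, 642, 1286, 8732, 4172, 2216, 17424, 8336]
    tri := [(0, 1, 2), (0, 1, 7), (0, 2, 6), (0, 6, 7), (1, 2, 9), (1, 7, 8), (1, 8, 9), (2, 3, 10),
      (2, 3, 11), (2, 6, 11), (2, 9, 10), (3, 4, 5), (3, 4, 10), (3, 5, 12), (3, 11, 12), (4, 5,
      7), (4, 7, 14), (4, 10, 13), (4, 13, 14), (5, 7, 12)]
    fin := [0, 0, 0, 3, 3, 5, 0, 5, 8, 9, 0, 3, 12, 13, 14]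
    chd := [(0, 8), (3, 13), (3, 14), (5, 3)]
    steps := [(0, 1), (0, 2), (0, 6), (0, 10), (3, 4), (3, 11), (5, 7)] }
  rep := [0, 5, 9, 3, 12, 8, 13, 14]

noncomputable def v449 : Cov.CovD where
  P := 3
  N := 5
  pl := [3, 6]
  lev := [⟨[], [], [(0, 1)], [], [(0, 0, [5]), (1, 1, [3])]⟩,
    ⟨[], [(0, 0), (0, 1), (0, 5)], [(1, 5)], [2], [(1, 1, [3]), (2, 5, [0])]⟩,
    ⟨[(0, 1)], [(0, 0), (0, 1), (0, 3), (1, 0), (1, 1), (1, 3), (1, 5)], [(0, 0), (0, 3)],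
      [2], [(0, 0, [5]), (4, 0, [5]), (5, 3, [1, 6, 7])]⟩,
    ⟨[(0, 2), (1, 2)], [(2, 0), (2, 3)], [(0, 3)], [4], [(4, 0, [5]), (5, 3, [1, 6, 7])]⟩,
    ⟨[(2, 3)], [(0, 1), (1, 1), (2, 0), (3, 0), (3, 1), (3, 3), (3, 6), (3, 7)], [(0, 1),
      (0, 6), (0, 7), (1, 6), (1, 7), (6, 7)], [], [(1, 1, [3]), (4, 0, [5]), (7, 6, [3]),
      (8, 7, [3])]⟩,
    ⟨[(2, 3), (3, 4)], [(0, 1), (1, 1), (3, 0), (3, 1), (3, 3), (4, 0), (4, 1), (4, 6), (4,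
      7)], [], [4], [(1, 1, [3])]⟩]
  Ta := [((0, 1), 0, 1), ((0, 5), 0, 3), ((4, 3), 0, 2), ((4, 7), 0, 6)]
  Tb := [((0, 1, 5), 0, 1, 3), ((1, 0, 2), 1, 0, 5), ((1, 0, 6), 1, 0, 4), ((1, 0, 8), 1, 0, 7),
    ((1, 2, 6), 1, 5, 4), ((1, 2, 8), 1, 5, 7), ((1, 6, 8), 1, 4, 7), ((2, 1, 3), 5, 1, 2),
    ((3, 2, 4), 2, 5, 0), ((4, 3, 7), 0, 2, 6), ((5, 0, 6), 3, 0, 4), ((6, 1, 5), 4, 1, 3),
    ((7, 4, 8), 6, 0, 7), ((8, 1, 7), 7, 1, 6)]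
  Tc := [(3, 1, 6), (3, 1, 7), (3, 6, 7)]
  Td := [((0, 5), (0, 1), 1), ((0, 5), (0, 5), 3), ((0, 5), (4, 3), 2), ((0, 5), (4, 7), 6), ((1,
    3), (1, 0), 0), ((1, 3), (1, 2), 5), ((1, 3), (1, 6), 4), ((1, 3), (1, 8), 7), ((3, 1),
    (5, 0), 0), ((3, 1), (5, 6), 4), ((3, 6), (5, 0), 0), ((3, 6), (5, 6), 4), ((3, 7), (5,
    0), 0), ((3, 7), (5, 6), 4), ((5, 0), (2, 1), 1), ((5, 0), (2, 3), 2), ((6, 3), (7, 4),
    0), ((6, 3), (7, 8), 7), ((7, 3), (8, 1), 1), ((7, 3), (8, 7), 6)]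
  G := [[0, 0x6416ca1ca416aa1cc2, 0, 0x1459c5a88483c14, 0x8887444b11ce214], [0, 0,
    0x88644a11ce288644a11ce2c1, 0x9428211a58ec114881c, 0x88644a11ce218]]

noncomputable def n449 : Ent := ⟨e449, noF, [], [], []⟩

def c449 : PLift (Cov.check n449.C.D v449 = true) := ⟨by decide +kernel⟩

def b449 : PLift (entF (fidx ts) 400 449 n449 = true) := ⟨by decide +kernel⟩

theorem g449 : GoodF (fidx ts) 400 449 := GoodF.ofV v449 n449 c449.down b449.down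

/-- 457664:390 -/
noncomputable def e450 : SCfg where
  D := {
    a := 6
    L := 10
    kp := 8
    inn := [(0, 1), (0, 2), (1, 0), (1, 2), (2, 0), (2, 1), (2, 3), (3, 2), (3, 4), (3, 5), (4, 3), (4,
      5), (5, 3), (5, 4)]
    mix := [(0, 0), (0, 1), (1, 1), (1, 2), (1, 3), (2, 0), (2, 3), (2, 4), (2, 5), (3, 4), (3, 5), (3,
      6), (4, 4), (4, 7), (4, 8), (4, 9), (5, 6), (5, 9)]
    cl := [0, 4, 6, 2, 0, 1, 5, 7, 8, 3]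
    chq := [(0, 6), (1, 3), (1, 7), (1, 8), (3, 1), (6, 0), (7, 1), (8, 1)]
    rng := [(0, 1), (0, 5), (1, 0), (1, 2), (2, 1), (2, 3), (3, 2), (3, 4), (4, 3), (4, 7), (5, 0), (5,
      6), (6, 5), (6, 9), (7, 4), (7, 8), (8, 7), (8, 9), (9, 6), (9, 8)]
    lev := [] }
  links := [[1, 2, 6, 7], [2, 0, 7, 8, 9], [6, 0, 1, 9, 10, 3, 11], [11, 2, 10, 4, 5, 12], [5, 3, 10, 13,
    14, 15], [12, 3, 4, 15]]
  P := {
    a := 6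
    N := 16
    nb := [198, 901, 3659, 7220, 58408, 36888, 2181, 323, 642, 1286, 8732, 4172, 34856, 17424, 40976,
      20528]
    tri := [(0, 1, 2), (0, 1, 7), (0, 2, 6), (0, 6, 7), (1, 2, 9), (1, 7, 8), (1, 8, 9), (2, 3, 10),
      (2, 3, 11), (2, 6, 11), (2, 9, 10), (3, 4, 5), (3, 4, 10), (3, 5, 12), (3, 11, 12), (4, 5,
      15), (4, 10, 13), (4, 13, 14), (4, 14, 15), (5, 12, 15)]
    fin := [0, 0, 0, 3, 3, 5, 0, 7, 8, 9, 0, 3, 12, 13, 14, 5]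
    chd := [(0, 8), (3, 5), (3, 13), (3, 14)]
    steps := [(0, 1), (0, 2), (0, 6), (0, 10), (3, 4), (3, 11), (5, 15)] }
  rep := [0, 3, 9, 5, 7, 12, 8, 13, 14]

noncomputable def v450 : Cov.CovD where
  P := 3
  N := 6
  pl := [1, 3, 6]
  lev := [⟨[], [], [], [4], [(0, 0, [6])]⟩,
    ⟨[], [(0, 0), (0, 6)], [], [2, 4], [(2, 6, [0])]⟩,
    ⟨[(0, 1)], [(0, 0), (0, 1), (1, 0), (1, 1), (1, 6)], [(0, 0), (0, 1)], [2], [(0, 0,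
      [6]), (4, 0, [6]), (5, 1, [3, 7, 8])]⟩,
    ⟨[(0, 2), (1, 2)], [(2, 0), (2, 1)], [(0, 1)], [5], [(4, 0, [6]), (5, 1, [3, 7, 8])]⟩,
    ⟨[(2, 3)], [(2, 0), (3, 0), (3, 1), (3, 3), (3, 7), (3, 8)], [(0, 3), (0, 7), (0, 8),
      (3, 7), (3, 8), (7, 8)], [], [(4, 0, [6]), (7, 7, [1]), (8, 8, [1]), (9, 3, [1])]⟩,
    ⟨[(2, 3), (3, 4)], [(3, 0), (3, 1), (3, 3), (4, 0), (4, 3), (4, 7), (4, 8)], [], [5],
      [(9, 3, [1])]⟩]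
  Ta := [((0, 1), 0, 4), ((0, 5), 0, 1), ((4, 3), 0, 2), ((4, 7), 0, 7)]
  Tb := [((0, 1, 5), 0, 4, 1), ((1, 0, 2), 4, 0, 6), ((2, 1, 3), 6, 4, 2), ((3, 2, 4), 2, 6, 0),
    ((4, 3, 7), 0, 2, 7), ((5, 0, 6), 1, 0, 5), ((6, 5, 9), 5, 1, 3), ((7, 4, 8), 7, 0, 8),
    ((8, 7, 9), 8, 7, 3), ((9, 6, 8), 3, 5, 8)]
  Tc := [(1, 3, 7), (1, 3, 8), (1, 7, 8)]
  Td := [((0, 6), (0, 1), 4), ((0, 6), (0, 5), 1), ((0, 6), (4, 3), 2), ((0, 6), (4, 7), 7), ((1,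
    3), (5, 0), 0), ((1, 3), (5, 6), 5), ((1, 7), (5, 0), 0), ((1, 7), (5, 6), 5), ((1, 8),
    (5, 0), 0), ((1, 8), (5, 6), 5), ((3, 1), (9, 6), 5), ((3, 1), (9, 8), 8), ((6, 0), (2,
    1), 4), ((6, 0), (2, 3), 2), ((7, 1), (7, 4), 0), ((7, 1), (7, 8), 8), ((8, 1), (8, 7),
    7), ((8, 1), (8, 9), 3)]
  G := [[0, 0xc161a41c1a16816, 0, 0xd21242d4524928cc12d282d81a,
    0x9282d248a12d282d81d22258128298ae], [0, 0, 0x1252c828c2524928c524928cc3,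
    0x524928c1524928c16, 0x3252c828a1236d288e816]]

noncomputable def n450 : Ent := ⟨e450, noF, [], [], [(7, 14, [385746751338780685620664494392815470296102193487288376374329345, 0]), (7, 15, [360035742630636841211993100915356868655746945586763691009511425, 0])]⟩

def c450 : PLift (Cov.check n450.C.D v450 = true) := ⟨by decide +kernel⟩

def b450 : PLift (entF (fidx ts) 400 450 n450 = true) := ⟨by decide +kernel⟩

theorem g450 : GoodF (fidx ts) 400 450 := GoodF.ofV v450 n450 c450.down b450.down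

/-- 457646:397/1 -/
noncomputable def e451 : SCfg where
  D := {
    a := 6
    L := 9
    kp := 7
    inn := [(0, 1), (0, 2), (1, 0), (1, 2), (2, 0), (2, 1), (2, 3), (3, 2), (3, 4), (3, 5), (4, 3), (4,
      5), (5, 3), (5, 4)]
    mix := [(0, 0), (0, 1), (1, 1), (1, 2), (1, 3), (2, 0), (2, 3), (2, 4), (2, 5), (3, 4), (3, 5), (3,
      6), (4, 2), (4, 6), (5, 2), (5, 5), (5, 7), (5, 8)]
    cl := [1, 2, 0, 3, 4, 3, 5, 6, 7]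
    chq := [(0, 1), (0, 4), (1, 0), (4, 0), (4, 6), (4, 7), (6, 4), (7, 4)]
    rng := [(0, 1), (0, 5), (1, 0), (1, 2), (2, 1), (2, 3), (2, 6), (2, 7), (3, 2), (3, 4), (4, 3), (4,
      6), (5, 0), (5, 8), (6, 2), (6, 4), (7, 2), (7, 8), (8, 5), (8, 7)]
    lev := [] }
  links := [[1, 2, 6, 7], [2, 0, 7, 8, 9], [6, 0, 1, 9, 10, 3, 11], [11, 2, 10, 12, 4, 5], [5, 3, 12, 8],
    [11, 3, 4, 8, 13, 14]]
  P := {
    a := 6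
    N := 15
    nb := [198, 901, 3659, 7220, 4392, 26904, 2181, 323, 12978, 1286, 4620, 16492, 1304, 16672, 10272]
    tri := [(0, 1, 2), (0, 1, 7), (0, 2, 6), (0, 6, 7), (1, 2, 9), (1, 7, 8), (1, 8, 9), (2, 3, 10),
      (2, 3, 11), (2, 6, 11), (2, 9, 10), (3, 4, 5), (3, 4, 12), (3, 5, 11), (3, 10, 12), (4, 5,
      8), (4, 8, 12), (5, 8, 13), (5, 11, 14), (5, 13, 14)]
    fin := [0, 0, 2, 3, 4, 3, 0, 7, 4, 2, 3, 2, 12, 13, 14]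
    chd := [(0, 4), (3, 13), (3, 14), (4, 3)]
    steps := [(0, 1), (0, 6), (2, 9), (2, 11), (3, 5), (3, 10), (4, 8)] }
  rep := [4, 0, 7, 2, 3, 12, 13, 14]

noncomputable def v451 : Cov.CovD where
  P := 3
  N := 5
  pl := [1, 6]
  lev := [⟨[], [], [], [2], [(0, 1, [0])]⟩,
    ⟨[], [(0, 0), (0, 1), (0, 3)], [(0, 3)], [2], [(2, 0, [1, 4]), (3, 3, [])]⟩,
    ⟨[(0, 1)], [(0, 1), (0, 3), (0, 4), (1, 0), (1, 1), (1, 3), (1, 4)], [(1, 3), (1, 4),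
      (3, 3), (3, 4)], [], [(0, 1, [0]), (3, 3, []), (4, 4, [0, 6, 7]), (5, 3, [])]⟩,
    ⟨[(0, 2), (1, 2)], [(2, 1), (2, 3), (2, 4)], [(3, 4)], [5], [(4, 4, [0, 6, 7]), (5, 3,
      [])]⟩,
    ⟨[(2, 3)], [(1, 0), (3, 0), (3, 3), (3, 4)], [], [5], [(2, 0, [1, 4])]⟩,
    ⟨[(2, 3), (3, 4)], [(1, 0), (2, 3), (3, 0), (3, 3), (3, 4), (3, 6), (3, 7), (4, 0), (4,
      3), (4, 6), (4, 7)], [(0, 3), (0, 6), (0, 7), (3, 6), (3, 7), (6, 7)], [], [(2, 0, [1,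
      4]), (5, 3, []), (7, 6, [4]), (8, 7, [4])]⟩]
  Ta := [((3, 2), 3, 0), ((3, 4), 3, 4), ((5, 0), 3, 1), ((5, 8), 3, 7)]
  Tb := [((0, 1, 5), 1, 2, 3), ((1, 0, 2), 2, 1, 0), ((2, 1, 3), 0, 2, 3), ((2, 1, 6), 0, 2, 5),
    ((2, 1, 7), 0, 2, 6), ((2, 3, 6), 0, 3, 5), ((2, 3, 7), 0, 3, 6), ((2, 6, 7), 0, 5, 6),
    ((3, 2, 4), 3, 0, 4), ((4, 3, 6), 4, 3, 5), ((5, 0, 8), 3, 1, 7), ((6, 2, 4), 5, 0, 4),
    ((7, 2, 8), 6, 0, 7), ((8, 5, 7), 7, 3, 6)]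
  Tc := [(0, 1, 4), (4, 0, 6), (4, 0, 7), (4, 6, 7)]
  Td := [((0, 1), (2, 1), 2), ((0, 1), (2, 3), 3), ((0, 1), (2, 6), 5), ((0, 1), (2, 7), 6), ((0,
    4), (2, 1), 2), ((0, 4), (2, 3), 3), ((0, 4), (2, 6), 5), ((0, 4), (2, 7), 6), ((1, 0),
    (0, 1), 2), ((1, 0), (0, 5), 3), ((4, 0), (4, 3), 3), ((4, 0), (4, 6), 5), ((4, 6), (4,
    3), 3), ((4, 6), (4, 6), 5), ((4, 7), (4, 3), 3), ((4, 7), (4, 6), 5), ((6, 4), (7, 2),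
    0), ((6, 4), (7, 8), 7), ((7, 4), (8, 5), 3), ((7, 4), (8, 7), 6)]
  G := [[0, 0x6ec1aac1cca1e14, 0x68ee1128, 0xc6a1688284b94811cee6128a426545,
    0x66c1ca61a8c2487d28], [0, 0x6ea1aa61ea4e1e41, 0x6ace1124, 0x3838d26acf184,
    0x78b4d26acef128]]

noncomputable def n451 : Ent := ⟨e451, noF, [], [], []⟩

def c451 : PLift (Cov.check n451.C.D v451 = true) := ⟨by decide +kernel⟩

def b451 : PLift (entF (fidx ts) 400 451 n451 = true) := ⟨by decide +kernel⟩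

theorem g451 : GoodF (fidx ts) 400 451 := GoodF.ofV v451 n451 c451.down b451.down

/-- 457646:397/2 -/
noncomputable def e452 : SCfg where
  D := {
    a := 6
    L := 9
    kp := 7
    inn := [(0, 1), (0, 2), (1, 0), (1, 2), (2, 0), (2, 1), (2, 3), (3, 2), (3, 4), (3, 5), (4, 3), (4,
      5), (5, 3), (5, 4)]
    mix := [(0, 0), (0, 1), (1, 1), (1, 2), (1, 3), (2, 0), (2, 3), (2, 4), (2, 5), (3, 4), (3, 5), (3,
      6), (4, 6), (4, 7), (5, 2), (5, 5), (5, 7), (5, 8)]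
    cl := [2, 5, 3, 0, 1, 0, 6, 4, 7]
    chq := [(1, 3), (1, 4), (1, 7), (2, 3), (3, 1), (3, 2), (4, 1), (7, 1)]
    rng := [(0, 1), (0, 5), (1, 0), (1, 2), (2, 1), (2, 3), (2, 7), (2, 8), (3, 2), (3, 4), (4, 3), (4,
      6), (5, 0), (5, 8), (6, 4), (6, 7), (7, 2), (7, 6), (8, 2), (8, 5)]
    lev := [] }
  links := [[1, 2, 6, 7], [2, 0, 7, 8, 9], [6, 0, 1, 9, 10, 3, 11], [11, 2, 10, 12, 4, 5], [5, 3, 12,
    13], [11, 3, 4, 13, 8, 14]]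
  P := {
    a := 6
    N := 15
    nb := [198, 901, 3659, 7220, 12328, 26904, 2181, 323, 25250, 1286, 4620, 16492, 9240, 4400, 2336]
    tri := [(0, 1, 2), (0, 1, 7), (0, 2, 6), (0, 6, 7), (1, 2, 9), (1, 7, 8), (1, 8, 9), (2, 3, 10),
      (2, 3, 11), (2, 6, 11), (2, 9, 10), (3, 4, 5), (3, 4, 12), (3, 5, 11), (3, 10, 12), (4, 5,
      13), (4, 12, 13), (5, 8, 13), (5, 8, 14), (5, 11, 14)]
    fin := [0, 0, 2, 3, 3, 3, 0, 7, 8, 2, 3, 2, 12, 13, 14]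
    chd := [(0, 8), (3, 13), (3, 14), (8, 3)]
    steps := [(0, 1), (0, 6), (2, 9), (2, 11), (3, 4), (3, 5), (3, 10)] }
  rep := [2, 3, 0, 8, 13, 7, 12, 14]

noncomputable def v452 : Cov.CovD where
  P := 3
  N := 5
  pl := [1, 6]
  lev := [⟨[], [], [], [5], [(0, 2, [3])]⟩,
    ⟨[], [(0, 0), (0, 2), (0, 3)], [(0, 3)], [5], [(2, 3, [1, 2]), (3, 0, [])]⟩,
    ⟨[(0, 1)], [(0, 0), (0, 1), (0, 2), (1, 0), (1, 1), (1, 2), (1, 3)], [(0, 0), (0, 1),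
      (0, 2), (1, 2)], [], [(0, 2, [3]), (3, 0, []), (4, 1, [3, 4, 7]), (5, 0, [])]⟩,
    ⟨[(0, 2), (1, 2)], [(2, 0), (2, 1), (2, 2)], [(0, 1)], [6], [(4, 1, [3, 4, 7]), (5, 0,
      [])]⟩,
    ⟨[(2, 3)], [(3, 0), (3, 1), (3, 4)], [], [6], [(7, 4, [1])]⟩,
    ⟨[(2, 3), (3, 4)], [(1, 3), (2, 0), (3, 0), (3, 1), (3, 3), (3, 4), (3, 7), (4, 0), (4,
      3), (4, 4), (4, 7)], [(0, 3), (0, 4), (0, 7), (3, 4), (3, 7), (4, 7)], [], [(2, 3, [1,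
      2]), (5, 0, []), (7, 4, [1]), (8, 7, [1])]⟩]
  Ta := [((3, 2), 0, 3), ((3, 4), 0, 1), ((5, 0), 0, 2), ((5, 8), 0, 7)]
  Tb := [((0, 1, 5), 2, 5, 0), ((1, 0, 2), 5, 2, 3), ((2, 1, 3), 3, 5, 0), ((2, 1, 7), 3, 5, 4),
    ((2, 1, 8), 3, 5, 7), ((2, 3, 7), 3, 0, 4), ((2, 3, 8), 3, 0, 7), ((2, 7, 8), 3, 4, 7),
    ((3, 2, 4), 0, 3, 1), ((4, 3, 6), 1, 0, 6), ((5, 0, 8), 0, 2, 7), ((6, 4, 7), 6, 1, 4),
    ((7, 2, 6), 4, 3, 6), ((8, 2, 5), 7, 3, 0)]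
  Tc := [(1, 3, 4), (1, 3, 7), (1, 4, 7), (3, 1, 2)]
  Td := [((1, 3), (4, 3), 0), ((1, 3), (4, 6), 6), ((1, 4), (4, 3), 0), ((1, 4), (4, 6), 6), ((1,
    7), (4, 3), 0), ((1, 7), (4, 6), 6), ((2, 3), (0, 1), 5), ((2, 3), (0, 5), 0), ((3, 1),
    (2, 1), 5), ((3, 1), (2, 3), 0), ((3, 1), (2, 7), 4), ((3, 1), (2, 8), 7), ((3, 2), (2,
    1), 5), ((3, 2), (2, 3), 0), ((3, 2), (2, 7), 4), ((3, 2), (2, 8), 7), ((4, 1), (7, 2),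
    3), ((4, 1), (7, 6), 6), ((7, 1), (8, 2), 3), ((7, 1), (8, 5), 0)]
  G := [[0, 0x11c116a4811c11a68411c11a682d, 0, 0x225421a8c623216c8c27a2124d425,
    0x21822b626a58c22c2258212d2c2d82b], [0, 0, 0x22542298c122542298c16,
    0x22542298c222542298c1c, 0x22542298a121222dc8e82288622884b]]

noncomputable def n452 : Ent := ⟨e452, noF, [], [], []⟩

def c452 : PLift (Cov.check n452.C.D v452 = true) := ⟨by decide +kernel⟩

def b452 : PLift (entF (fidx ts) 400 452 n452 = true) := ⟨by decide +kernel⟩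

theorem g452 : GoodF (fidx ts) 400 452 := GoodF.ofV v452 n452 c452.down b452.down

/-- 457646:397 -/
noncomputable def e453 : SCfg where
  D := {
    a := 6
    L := 10
    kp := 8
    inn := [(0, 1), (0, 2), (1, 0), (1, 2), (2, 0), (2, 1), (2, 3), (3, 2), (3, 4), (3, 5), (4, 3), (4,
      5), (5, 3), (5, 4)]
    mix := [(0, 0), (0, 1), (1, 1), (1, 2), (1, 3), (2, 0), (2, 3), (2, 4), (2, 5), (3, 4), (3, 5), (3,
      6), (4, 6), (4, 7), (5, 5), (5, 7), (5, 8), (5, 9)]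
    cl := [2, 4, 6, 0, 1, 0, 5, 3, 7, 8]
    chq := [(1, 3), (1, 7), (1, 8), (2, 6), (3, 1), (6, 2), (7, 1), (8, 1)]
    rng := [(0, 1), (0, 5), (1, 0), (1, 2), (2, 1), (2, 3), (3, 2), (3, 4), (4, 3), (4, 6), (5, 0), (5,
      9), (6, 4), (6, 7), (7, 6), (7, 8), (8, 7), (8, 9), (9, 5), (9, 8)]
    lev := [] }
  links := [[1, 2, 6, 7], [2, 0, 7, 8, 9], [6, 0, 1, 9, 10, 3, 11], [11, 2, 10, 12, 4, 5], [5, 3, 12,
    13], [11, 3, 4, 13, 14, 15]]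
  P := {
    a := 6
    N := 16
    nb := [198, 901, 3659, 7220, 12328, 59416, 2181, 323, 642, 1286, 4620, 32876, 9240, 20528, 40992,
      18464]
    tri := [(0, 1, 2), (0, 1, 7), (0, 2, 6), (0, 6, 7), (1, 2, 9), (1, 7, 8), (1, 8, 9), (2, 3, 10),
      (2, 3, 11), (2, 6, 11), (2, 9, 10), (3, 4, 5), (3, 4, 12), (3, 5, 11), (3, 10, 12), (4, 5,
      13), (4, 12, 13), (5, 11, 15), (5, 13, 14), (5, 14, 15)]
    fin := [0, 0, 2, 3, 3, 3, 0, 7, 8, 2, 3, 2, 12, 13, 14, 15]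
    chd := [(0, 8), (3, 13), (3, 14), (3, 15)]
    steps := [(0, 1), (0, 6), (2, 9), (2, 11), (3, 4), (3, 5), (3, 10)] }
  rep := [2, 3, 0, 13, 7, 12, 8, 14, 15]

noncomputable def v453 : Cov.CovD where
  P := 3
  N := 6
  pl := [1, 6]
  lev := [⟨[], [], [], [4], [(0, 2, [6])]⟩,
    ⟨[], [(0, 0), (0, 2), (0, 6)], [(0, 6)], [4], [(2, 6, [2]), (3, 0, [])]⟩,
    ⟨[(0, 1)], [(0, 0), (0, 1), (0, 2), (1, 0), (1, 1), (1, 2), (1, 6)], [(0, 0), (0, 1),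
      (0, 2), (1, 2)], [], [(0, 2, [6]), (3, 0, []), (4, 1, [3, 7, 8]), (5, 0, [])]⟩,
    ⟨[(0, 2), (1, 2)], [(2, 0), (2, 1), (2, 2)], [(0, 1)], [5], [(4, 1, [3, 7, 8]), (5, 0,
      [])]⟩,
    ⟨[(2, 3)], [(3, 0), (3, 1), (3, 3)], [], [5], [(7, 3, [1])]⟩,
    ⟨[(2, 3), (3, 4)], [(2, 0), (3, 0), (3, 1), (3, 3), (3, 7), (3, 8), (4, 0), (4, 3), (4,
      7), (4, 8)], [(0, 3), (0, 7), (0, 8), (3, 7), (3, 8), (7, 8)], [], [(5, 0, []), (7, 3,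
      [1]), (8, 7, [1]), (9, 8, [1])]⟩]
  Ta := [((3, 2), 0, 6), ((3, 4), 0, 1), ((5, 0), 0, 2), ((5, 9), 0, 8)]
  Tb := [((0, 1, 5), 2, 4, 0), ((1, 0, 2), 4, 2, 6), ((2, 1, 3), 6, 4, 0), ((3, 2, 4), 0, 6, 1),
    ((4, 3, 6), 1, 0, 5), ((5, 0, 9), 0, 2, 8), ((6, 4, 7), 5, 1, 3), ((7, 6, 8), 3, 5, 7),
    ((8, 7, 9), 7, 3, 8), ((9, 5, 8), 8, 0, 7)]
  Tc := [(1, 3, 7), (1, 3, 8), (1, 7, 8)]
  Td := [((1, 3), (4, 3), 0), ((1, 3), (4, 6), 5), ((1, 7), (4, 3), 0), ((1, 7), (4, 6), 5), ((1,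
    8), (4, 3), 0), ((1, 8), (4, 6), 5), ((2, 6), (0, 1), 4), ((2, 6), (0, 5), 0), ((3, 1),
    (7, 6), 5), ((3, 1), (7, 8), 7), ((6, 2), (2, 1), 4), ((6, 2), (2, 3), 0), ((7, 1), (8,
    7), 3), ((7, 1), (8, 9), 8), ((8, 1), (9, 5), 0), ((8, 1), (9, 8), 7)]
  G := [[0, 0x14126188c11c11a68c1441812ac25, 0, 0x22542298c212b628d8c229b244e425,
    0x12828221ee258212b628d8a212b628d84b], [0, 0, 0x22542298c122542298c1a,
    0x22542298c122542298c2c, 0x2254288a1623222d88e8223885223884b]]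

noncomputable def n453 : Ent := ⟨e453, noF, [], [], [(8, 13, [385753028440516072301428330182238677962518295842732840408854529, 0]), (8, 14, [385746751338780685620664494392815470296102193487288376374345729, 0])]⟩

def c453 : PLift (Cov.check n453.C.D v453 = true) := ⟨by decide +kernel⟩

def b453 : PLift (entF (fidx ts) 400 453 n453 = true) := ⟨by decide +kernel⟩

theorem g453 : GoodF (fidx ts) 400 453 := GoodF.ofV v453 n453 c453.down b453.down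

/-- 457647:398/1 -/
noncomputable def e454 : SCfg where
  D := {
    a := 6
    L := 10
    kp := 8
    inn := [(0, 1), (0, 2), (1, 0), (1, 2), (2, 0), (2, 1), (2, 3), (3, 2), (3, 4), (3, 5), (4, 3), (4,
      5), (5, 3), (5, 4)]
    mix := [(0, 0), (0, 1), (1, 1), (1, 2), (1, 3), (2, 0), (2, 3), (2, 4), (2, 5), (3, 4), (3, 5), (3,
      6), (4, 2), (4, 6), (5, 2), (5, 5), (5, 7), (5, 8), (5, 9)]
    cl := [1, 2, 0, 3, 4, 3, 5, 6, 7, 8]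
    chq := [(0, 1), (0, 4), (1, 0), (4, 0), (4, 6), (4, 7), (4, 8), (6, 4), (7, 4), (8, 4)]
    rng := [(0, 1), (0, 5), (1, 0), (1, 2), (2, 1), (2, 3), (2, 6), (2, 7), (3, 2), (3, 4), (4, 3), (4,
      6), (5, 0), (5, 9), (6, 2), (6, 4), (7, 2), (7, 8), (8, 7), (8, 9), (9, 5), (9, 8)]
    lev := [] }
  links := [[1, 2, 6, 7], [2, 0, 7, 8, 9], [6, 0, 1, 9, 10, 3, 11], [11, 2, 10, 12, 4, 5], [5, 3, 12, 8],
    [11, 3, 4, 8, 13, 14, 15]]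
  P := {
    a := 6
    N := 16
    nb := [198, 901, 3659, 7220, 4392, 59672, 2181, 323, 12978, 1286, 4620, 32876, 1304, 16672, 40992,
      18464]
    tri := [(0, 1, 2), (0, 1, 7), (0, 2, 6), (0, 6, 7), (1, 2, 9), (1, 7, 8), (1, 8, 9), (2, 3, 10),
      (2, 3, 11), (2, 6, 11), (2, 9, 10), (3, 4, 5), (3, 4, 12), (3, 5, 11), (3, 10, 12), (4, 5,
      8), (4, 8, 12), (5, 8, 13), (5, 11, 15), (5, 13, 14), (5, 14, 15)]
    fin := [0, 0, 2, 3, 4, 3, 0, 7, 4, 2, 3, 2, 12, 13, 14, 15]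
    chd := [(0, 4), (3, 13), (3, 14), (3, 15), (4, 3)]
    steps := [(0, 1), (0, 6), (2, 9), (2, 11), (3, 5), (3, 10), (4, 8)] }
  rep := [4, 0, 7, 2, 3, 12, 13, 14, 15]

noncomputable def v454 : Cov.CovD where
  P := 3
  N := 6
  pl := [1, 6]
  lev := [⟨[], [], [], [2], [(0, 1, [0])]⟩,
    ⟨[], [(0, 0), (0, 1), (0, 3)], [(0, 3)], [2], [(2, 0, [1, 4]), (3, 3, [])]⟩,
    ⟨[(0, 1)], [(0, 1), (0, 3), (0, 4), (1, 0), (1, 1), (1, 3), (1, 4)], [(1, 3), (1, 4),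
      (3, 3), (3, 4)], [], [(0, 1, [0]), (3, 3, []), (4, 4, [0, 6, 7, 8]), (5, 3, [])]⟩,
    ⟨[(0, 2), (1, 2)], [(2, 1), (2, 3), (2, 4)], [(3, 4)], [5], [(4, 4, [0, 6, 7, 8]), (5,
      3, [])]⟩,
    ⟨[(2, 3)], [(1, 0), (3, 0), (3, 3), (3, 4)], [], [5], [(2, 0, [1, 4])]⟩,
    ⟨[(2, 3), (3, 4)], [(1, 0), (2, 3), (3, 0), (3, 3), (3, 4), (3, 6), (3, 7), (3, 8), (4,
      0), (4, 3), (4, 6), (4, 7), (4, 8)], [(0, 3), (0, 6), (0, 7), (0, 8), (3, 6), (3, 7),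
      (3, 8), (6, 7), (6, 8), (7, 8)], [], [(2, 0, [1, 4]), (5, 3, []), (7, 6, [4]), (8, 7,
      [4]), (9, 8, [4])]⟩]
  Ta := [((3, 2), 3, 0), ((3, 4), 3, 4), ((5, 0), 3, 1), ((5, 9), 3, 8)]
  Tb := [((0, 1, 5), 1, 2, 3), ((1, 0, 2), 2, 1, 0), ((2, 1, 3), 0, 2, 3), ((2, 1, 6), 0, 2, 5),
    ((2, 1, 7), 0, 2, 6), ((2, 3, 6), 0, 3, 5), ((2, 3, 7), 0, 3, 6), ((2, 6, 7), 0, 5, 6),
    ((3, 2, 4), 3, 0, 4), ((4, 3, 6), 4, 3, 5), ((5, 0, 9), 3, 1, 8), ((6, 2, 4), 5, 0, 4),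
    ((7, 2, 8), 6, 0, 7), ((8, 7, 9), 7, 6, 8), ((9, 5, 8), 8, 3, 7)]
  Tc := [(0, 1, 4), (4, 0, 6), (4, 0, 7), (4, 0, 8), (4, 6, 7), (4, 6, 8), (4, 7, 8)]
  Td := [((0, 1), (2, 1), 2), ((0, 1), (2, 3), 3), ((0, 1), (2, 6), 5), ((0, 1), (2, 7), 6), ((0,
    4), (2, 1), 2), ((0, 4), (2, 3), 3), ((0, 4), (2, 6), 5), ((0, 4), (2, 7), 6), ((1, 0),
    (0, 1), 2), ((1, 0), (0, 5), 3), ((4, 0), (4, 3), 3), ((4, 0), (4, 6), 5), ((4, 6), (4,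
    3), 3), ((4, 6), (4, 6), 5), ((4, 7), (4, 3), 3), ((4, 7), (4, 6), 5), ((4, 8), (4, 3),
    3), ((4, 8), (4, 6), 5), ((6, 4), (7, 2), 0), ((6, 4), (7, 8), 7), ((7, 4), (8, 7), 6),
    ((7, 4), (8, 9), 8), ((8, 4), (9, 5), 3), ((8, 4), (9, 8), 7)]
  G := [[0, 0x68a1c1e161a1c1e1c4, 0x6ace1124, 0x38624e5886149a843db4d26871c4,
    0x64a1a86134d26acbd28], [0, 0x66a16a8e1ec61e18, 0x6ace1184, 0x3834d26acf184,
    0x78b4d26acef128]]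

noncomputable def n454 : Ent := ⟨e454, noF, [], [], []⟩

def c454 : PLift (Cov.check n454.C.D v454 = true) := ⟨by decide +kernel⟩

def b454 : PLift (entF (fidx ts) 400 454 n454 = true) := ⟨by decide +kernel⟩

theorem g454 : GoodF (fidx ts) 400 454 := GoodF.ofV v454 n454 c454.down b454.down

/-- 457647:398/2 -/
noncomputable def e455 : SCfg where
  D := {
    a := 6
    L := 10
    kp := 8
    inn := [(0, 1), (0, 2), (1, 0), (1, 2), (2, 0), (2, 1), (2, 3), (3, 2), (3, 4), (3, 5), (4, 3), (4,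
      5), (5, 3), (5, 4)]
    mix := [(0, 0), (0, 1), (1, 1), (1, 2), (1, 3), (2, 0), (2, 3), (2, 4), (2, 5), (3, 4), (3, 5), (3,
      6), (4, 6), (4, 7), (5, 2), (5, 5), (5, 7), (5, 8), (5, 9)]
    cl := [2, 5, 3, 0, 1, 0, 6, 4, 7, 8]
    chq := [(1, 3), (1, 4), (1, 7), (1, 8), (2, 3), (3, 1), (3, 2), (4, 1), (7, 1), (8, 1)]
    rng := [(0, 1), (0, 5), (1, 0), (1, 2), (2, 1), (2, 3), (2, 7), (2, 8), (3, 2), (3, 4), (4, 3), (4,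
      6), (5, 0), (5, 9), (6, 4), (6, 7), (7, 2), (7, 6), (8, 2), (8, 9), (9, 5), (9, 8)]
    lev := [] }
  links := [[1, 2, 6, 7], [2, 0, 7, 8, 9], [6, 0, 1, 9, 10, 3, 11], [11, 2, 10, 12, 4, 5], [5, 3, 12,
    13], [11, 3, 4, 13, 8, 14, 15]]
  P := {
    a := 6
    N := 16
    nb := [198, 901, 3659, 7220, 12328, 59672, 2181, 323, 25250, 1286, 4620, 32876, 9240, 4400, 33056,
      18464]
    tri := [(0, 1, 2), (0, 1, 7), (0, 2, 6), (0, 6, 7), (1, 2, 9), (1, 7, 8), (1, 8, 9), (2, 3, 10),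
      (2, 3, 11), (2, 6, 11), (2, 9, 10), (3, 4, 5), (3, 4, 12), (3, 5, 11), (3, 10, 12), (4, 5,
      13), (4, 12, 13), (5, 8, 13), (5, 8, 14), (5, 11, 15), (5, 14, 15)]
    fin := [0, 0, 2, 3, 3, 3, 0, 7, 8, 2, 3, 2, 12, 13, 14, 15]
    chd := [(0, 8), (3, 13), (3, 14), (3, 15), (8, 3)]
    steps := [(0, 1), (0, 6), (2, 9), (2, 11), (3, 4), (3, 5), (3, 10)] }
  rep := [2, 3, 0, 8, 13, 7, 12, 14, 15]

noncomputable def v455 : Cov.CovD where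
  P := 3
  N := 6
  pl := [1, 6]
  lev := [⟨[], [], [], [5], [(0, 2, [3])]⟩,
    ⟨[], [(0, 0), (0, 2), (0, 3)], [(0, 3)], [5], [(2, 3, [1, 2]), (3, 0, [])]⟩,
    ⟨[(0, 1)], [(0, 0), (0, 1), (0, 2), (1, 0), (1, 1), (1, 2), (1, 3)], [(0, 0), (0, 1),
      (0, 2), (1, 2)], [], [(0, 2, [3]), (3, 0, []), (4, 1, [3, 4, 7, 8]), (5, 0, [])]⟩,
    ⟨[(0, 2), (1, 2)], [(2, 0), (2, 1), (2, 2)], [(0, 1)], [6], [(4, 1, [3, 4, 7, 8]), (5,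
      0, [])]⟩,
    ⟨[(2, 3)], [(3, 0), (3, 1), (3, 4)], [], [6], [(7, 4, [1])]⟩,
    ⟨[(2, 3), (3, 4)], [(1, 3), (2, 0), (3, 0), (3, 1), (3, 3), (3, 4), (3, 7), (3, 8), (4,
      0), (4, 3), (4, 4), (4, 7), (4, 8)], [(0, 3), (0, 4), (0, 7), (0, 8), (3, 4), (3, 7),
      (3, 8), (4, 7), (4, 8), (7, 8)], [], [(2, 3, [1, 2]), (5, 0, []), (7, 4, [1]), (8, 7,
      [1]), (9, 8, [1])]⟩]
  Ta := [((3, 2), 0, 3), ((3, 4), 0, 1), ((5, 0), 0, 2), ((5, 9), 0, 8)]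
  Tb := [((0, 1, 5), 2, 5, 0), ((1, 0, 2), 5, 2, 3), ((2, 1, 3), 3, 5, 0), ((2, 1, 7), 3, 5, 4),
    ((2, 1, 8), 3, 5, 7), ((2, 3, 7), 3, 0, 4), ((2, 3, 8), 3, 0, 7), ((2, 7, 8), 3, 4, 7),
    ((3, 2, 4), 0, 3, 1), ((4, 3, 6), 1, 0, 6), ((5, 0, 9), 0, 2, 8), ((6, 4, 7), 6, 1, 4),
    ((7, 2, 6), 4, 3, 6), ((8, 2, 9), 7, 3, 8), ((9, 5, 8), 8, 0, 7)]
  Tc := [(1, 3, 4), (1, 3, 7), (1, 3, 8), (1, 4, 7), (1, 4, 8), (1, 7, 8), (3, 1, 2)]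
  Td := [((1, 3), (4, 3), 0), ((1, 3), (4, 6), 6), ((1, 4), (4, 3), 0), ((1, 4), (4, 6), 6), ((1,
    7), (4, 3), 0), ((1, 7), (4, 6), 6), ((1, 8), (4, 3), 0), ((1, 8), (4, 6), 6), ((2, 3),
    (0, 1), 5), ((2, 3), (0, 5), 0), ((3, 1), (2, 1), 5), ((3, 1), (2, 3), 0), ((3, 1), (2,
    7), 4), ((3, 1), (2, 8), 7), ((3, 2), (2, 1), 5), ((3, 2), (2, 3), 0), ((3, 2), (2, 7),
    4), ((3, 2), (2, 8), 7), ((4, 1), (7, 2), 3), ((4, 1), (7, 6), 6), ((7, 1), (8, 2), 3),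
    ((7, 1), (8, 9), 8), ((8, 1), (9, 5), 0), ((8, 1), (9, 8), 7)]
  G := [[0, 0x11c116a414126188cc1441812ac29, 0, 0x2884222542298c21225c8c2884212b2728d86d,
    0x229225c2872222d28d8221222d28d84b], [0, 0, 0x22542298c122542298c16,
    0x22542298c122542298c2c, 0x288222542298a521225c822886228288a4b]]

noncomputable def n455 : Ent := ⟨e455, noF, [], [], []⟩

def c455 : PLift (Cov.check n455.C.D v455 = true) := ⟨by decide +kernel⟩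

def b455 : PLift (entF (fidx ts) 400 455 n455 = true) := ⟨by decide +kernel⟩

theorem g455 : GoodF (fidx ts) 400 455 := GoodF.ofV v455 n455 c455.down b455.down

/-- 457647:398/3 -/
noncomputable def e456 : SCfg where
  D := {
    a := 6
    L := 10
    kp := 8
    inn := [(0, 1), (0, 2), (1, 0), (1, 2), (2, 0), (2, 1), (2, 3), (3, 2), (3, 4), (3, 5), (4, 3), (4,
      5), (5, 3), (5, 4)]
    mix := [(0, 0), (0, 1), (1, 1), (1, 2), (1, 3), (2, 0), (2, 3), (2, 4), (2, 5), (3, 4), (3, 5), (3,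
      6), (4, 6), (4, 7), (5, 2), (5, 5), (5, 7), (5, 8), (5, 9)]
    cl := [2, 5, 3, 0, 1, 0, 6, 4, 7, 8]
    chq := [(1, 3), (1, 4), (1, 7), (1, 8), (2, 3), (3, 1), (3, 2), (4, 1), (7, 1), (8, 1)]
    rng := [(0, 1), (0, 5), (1, 0), (1, 2), (2, 1), (2, 3), (2, 8), (2, 9), (3, 2), (3, 4), (4, 3), (4,
      6), (5, 0), (5, 9), (6, 4), (6, 7), (7, 6), (7, 8), (8, 2), (8, 7), (9, 2), (9, 5)]
    lev := [] }
  links := [[1, 2, 6, 7], [2, 0, 7, 8, 9], [6, 0, 1, 9, 10, 3, 11], [11, 2, 10, 12, 4, 5], [5, 3, 12,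
    13], [11, 3, 4, 13, 14, 8, 15]]
  P := {
    a := 6
    N := 16
    nb := [198, 901, 3659, 7220, 12328, 59672, 2181, 323, 49826, 1286, 4620, 32876, 9240, 20528, 8480,
      2336]
    tri := [(0, 1, 2), (0, 1, 7), (0, 2, 6), (0, 6, 7), (1, 2, 9), (1, 7, 8), (1, 8, 9), (2, 3, 10),
      (2, 3, 11), (2, 6, 11), (2, 9, 10), (3, 4, 5), (3, 4, 12), (3, 5, 11), (3, 10, 12), (4, 5,
      13), (4, 12, 13), (5, 8, 14), (5, 8, 15), (5, 11, 15), (5, 13, 14)]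
    fin := [0, 0, 2, 3, 3, 3, 0, 7, 8, 2, 3, 2, 12, 13, 14, 15]
    chd := [(0, 8), (3, 13), (3, 14), (3, 15), (8, 3)]
    steps := [(0, 1), (0, 6), (2, 9), (2, 11), (3, 4), (3, 5), (3, 10)] }
  rep := [2, 3, 0, 8, 13, 7, 12, 14, 15]

noncomputable def v456 : Cov.CovD where
  P := 3
  N := 6
  pl := [1, 6]
  lev := [⟨[], [], [], [5], [(0, 2, [3])]⟩,
    ⟨[], [(0, 0), (0, 2), (0, 3)], [(0, 3)], [5], [(2, 3, [1, 2]), (3, 0, [])]⟩,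
    ⟨[(0, 1)], [(0, 0), (0, 1), (0, 2), (1, 0), (1, 1), (1, 2), (1, 3)], [(0, 0), (0, 1),
      (0, 2), (1, 2)], [], [(0, 2, [3]), (3, 0, []), (4, 1, [3, 4, 7, 8]), (5, 0, [])]⟩,
    ⟨[(0, 2), (1, 2)], [(2, 0), (2, 1), (2, 2)], [(0, 1)], [6], [(4, 1, [3, 4, 7, 8]), (5,
      0, [])]⟩,
    ⟨[(2, 3)], [(3, 0), (3, 1), (3, 4)], [], [6], [(7, 4, [1])]⟩,
    ⟨[(2, 3), (3, 4)], [(1, 3), (2, 0), (3, 0), (3, 1), (3, 3), (3, 4), (3, 7), (3, 8), (4,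
      0), (4, 3), (4, 4), (4, 7), (4, 8)], [(0, 3), (0, 4), (0, 7), (0, 8), (3, 4), (3, 7),
      (3, 8), (4, 7), (4, 8), (7, 8)], [], [(2, 3, [1, 2]), (5, 0, []), (7, 4, [1]), (8, 7,
      [1]), (9, 8, [1])]⟩]
  Ta := [((3, 2), 0, 3), ((3, 4), 0, 1), ((5, 0), 0, 2), ((5, 9), 0, 8)]
  Tb := [((0, 1, 5), 2, 5, 0), ((1, 0, 2), 5, 2, 3), ((2, 1, 3), 3, 5, 0), ((2, 1, 8), 3, 5, 7),
    ((2, 1, 9), 3, 5, 8), ((2, 3, 8), 3, 0, 7), ((2, 3, 9), 3, 0, 8), ((2, 8, 9), 3, 7, 8),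
    ((3, 2, 4), 0, 3, 1), ((4, 3, 6), 1, 0, 6), ((5, 0, 9), 0, 2, 8), ((6, 4, 7), 6, 1, 4),
    ((7, 6, 8), 4, 6, 7), ((8, 2, 7), 7, 3, 4), ((9, 2, 5), 8, 3, 0)]
  Tc := [(1, 3, 4), (1, 3, 7), (1, 3, 8), (1, 4, 7), (1, 4, 8), (1, 7, 8), (3, 1, 2)]
  Td := [((1, 3), (4, 3), 0), ((1, 3), (4, 6), 6), ((1, 4), (4, 3), 0), ((1, 4), (4, 6), 6), ((1,
    7), (4, 3), 0), ((1, 7), (4, 6), 6), ((1, 8), (4, 3), 0), ((1, 8), (4, 6), 6), ((2, 3),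
    (0, 1), 5), ((2, 3), (0, 5), 0), ((3, 1), (2, 1), 5), ((3, 1), (2, 3), 0), ((3, 1), (2,
    8), 7), ((3, 1), (2, 9), 8), ((3, 2), (2, 1), 5), ((3, 2), (2, 3), 0), ((3, 2), (2, 8),
    7), ((3, 2), (2, 9), 8), ((4, 1), (7, 6), 6), ((4, 1), (7, 8), 7), ((7, 1), (8, 2), 3),
    ((7, 1), (8, 7), 4), ((8, 1), (9, 2), 3), ((8, 1), (9, 5), 0)]
  G := [[0, 0x18841884c141268141268c1441812ac2d, 0, 0x222d2124d422542298cc24422921cc29,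
    0x229225c2821222d28d8221222d28d84b], [0, 0, 0x22542298c122542298c1c,
    0x22542298c222542298c1c, 0x288222542298a521225c822886228288a4b]]

noncomputable def n456 : Ent := ⟨e456, noF, [], [], []⟩

def c456 : PLift (Cov.check n456.C.D v456 = true) := ⟨by decide +kernel⟩

def b456 : PLift (entF (fidx ts) 400 456 n456 = true) := ⟨by decide +kernel⟩

theorem g456 : GoodF (fidx ts) 400 456 := GoodF.ofV v456 n456 c456.down b456.down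

/-- 457647:398 -/
noncomputable def e457 : SCfg where
  D := {
    a := 6
    L := 11
    kp := 9
    inn := [(0, 1), (0, 2), (1, 0), (1, 2), (2, 0), (2, 1), (2, 3), (3, 2), (3, 4), (3, 5), (4, 3), (4,
      5), (5, 3), (5, 4)]
    mix := [(0, 0), (0, 1), (1, 1), (1, 2), (1, 3), (2, 0), (2, 3), (2, 4), (2, 5), (3, 4), (3, 5), (3,
      6), (4, 6), (4, 7), (5, 5), (5, 7), (5, 8), (5, 9), (5, 10)]
    cl := [1, 2, 6, 0, 3, 0, 5, 4, 7, 8, 9]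
    chq := [(1, 6), (3, 4), (3, 7), (3, 8), (3, 9), (4, 3), (6, 1), (7, 3), (8, 3), (9, 3)]
    rng := [(0, 1), (0, 5), (1, 0), (1, 2), (2, 1), (2, 3), (3, 2), (3, 4), (4, 3), (4, 6), (5, 0), (5,
      10), (6, 4), (6, 7), (7, 6), (7, 8), (8, 7), (8, 9), (9, 8), (9, 10), (10, 5), (10, 9)]
    lev := [] }
  links := [[1, 2, 6, 7], [2, 0, 7, 8, 9], [6, 0, 1, 9, 10, 3, 11], [11, 2, 10, 12, 4, 5], [5, 3, 12,
    13], [11, 3, 4, 13, 14, 15, 16]]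
  P := {
    a := 6
    N := 17
    nb := [198, 901, 3659, 7220, 12328, 124952, 2181, 323, 642, 1286, 4620, 65644, 9240, 20528, 40992,
      81952, 34848]
    tri := [(0, 1, 2), (0, 1, 7), (0, 2, 6), (0, 6, 7), (1, 2, 9), (1, 7, 8), (1, 8, 9), (2, 3, 10),
      (2, 3, 11), (2, 6, 11), (2, 9, 10), (3, 4, 5), (3, 4, 12), (3, 5, 11), (3, 10, 12), (4, 5,
      13), (4, 12, 13), (5, 11, 16), (5, 13, 14), (5, 14, 15), (5, 15, 16)]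
    fin := [0, 0, 2, 3, 3, 3, 0, 7, 8, 2, 3, 2, 12, 13, 14, 15, 16]
    chd := [(0, 8), (3, 13), (3, 14), (3, 15), (3, 16)]
    steps := [(0, 1), (0, 6), (2, 9), (2, 11), (3, 4), (3, 5), (3, 10)] }
  rep := [2, 0, 7, 3, 13, 12, 8, 14, 15, 16]

noncomputable def v457 : Cov.CovD where
  P := 3
  N := 7
  pl := [1, 6]
  lev := [⟨[], [], [], [2], [(0, 1, [6])]⟩,
    ⟨[], [(0, 0), (0, 1), (0, 6)], [(0, 6)], [2], [(2, 6, [1]), (3, 0, [])]⟩,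
    ⟨[(0, 1)], [(0, 0), (0, 1), (0, 3), (1, 0), (1, 1), (1, 3), (1, 6)], [(0, 0), (0, 1),
      (0, 3), (1, 3)], [], [(0, 1, [6]), (3, 0, []), (4, 3, [4, 7, 8, 9]), (5, 0, [])]⟩,
    ⟨[(0, 2), (1, 2)], [(2, 0), (2, 1), (2, 3)], [(0, 3)], [5], [(4, 3, [4, 7, 8, 9]), (5,
      0, [])]⟩,
    ⟨[(2, 3)], [(3, 0), (3, 3), (3, 4)], [], [5], [(7, 4, [3])]⟩,
    ⟨[(2, 3), (3, 4)], [(2, 0), (3, 0), (3, 3), (3, 4), (3, 7), (3, 8), (3, 9), (4, 0), (4,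
      4), (4, 7), (4, 8), (4, 9)], [(0, 4), (0, 7), (0, 8), (0, 9), (4, 7), (4, 8), (4, 9),
      (7, 8), (7, 9), (8, 9)], [], [(5, 0, []), (7, 4, [3]), (8, 7, [3]), (9, 8, [3]), (10,
      9, [3])]⟩]
  Ta := [((3, 2), 0, 6), ((3, 4), 0, 3), ((5, 0), 0, 1), ((5, 10), 0, 9)]
  Tb := [((0, 1, 5), 1, 2, 0), ((1, 0, 2), 2, 1, 6), ((2, 1, 3), 6, 2, 0), ((3, 2, 4), 0, 6, 3),
    ((4, 3, 6), 3, 0, 5), ((5, 0, 10), 0, 1, 9), ((6, 4, 7), 5, 3, 4), ((7, 6, 8), 4, 5, 7),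
    ((8, 7, 9), 7, 4, 8), ((9, 8, 10), 8, 7, 9), ((10, 5, 9), 9, 0, 8)]
  Tc := [(3, 4, 7), (3, 4, 8), (3, 4, 9), (3, 7, 8), (3, 7, 9), (3, 8, 9)]
  Td := [((1, 6), (0, 1), 2), ((1, 6), (0, 5), 0), ((3, 4), (4, 3), 0), ((3, 4), (4, 6), 5), ((3,
    7), (4, 3), 0), ((3, 7), (4, 6), 5), ((3, 8), (4, 3), 0), ((3, 8), (4, 6), 5), ((3, 9),
    (4, 3), 0), ((3, 9), (4, 6), 5), ((4, 3), (7, 6), 5), ((4, 3), (7, 8), 7), ((6, 1), (2,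
    1), 2), ((6, 1), (2, 3), 0), ((7, 3), (8, 7), 4), ((7, 3), (8, 9), 8), ((8, 3), (9, 8),
    7), ((8, 3), (9, 10), 9), ((9, 3), (10, 5), 0), ((9, 3), (10, 9), 8)]
  G := [[0, 0, 0x613bad55cb48f886a83c24, 0x54644c3736da189c7a4fc6133ad554b68cf8887883cc1,
    0x74dc3a769a189ca4fc21], [0, 0x223422ac2a469a854c5ee18, 0x62988cc3e424447aa544e82c,
    0x6698a9883e4144a4443e81c, 0x465a44c3e688a988aec21]]

noncomputable def n457 : Ent := ⟨e457, noF, [], [], [(8, 13, [1685382419725355503238989871268909155780284044704628512909401284609, 0]), (8, 14, [1685382413448253767852309107433119732572617628602273068445366775809, 0]), (8, 15, [1685356702439545624007900436039642273970977273354372543760001957889, 0])]⟩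

def c457 : PLift (Cov.check n457.C.D v457 = true) := ⟨by decide +kernel⟩

def b457 : PLift (entF (fidx ts) 400 457 n457 = true) := ⟨by decide +kernel⟩

theorem g457 : GoodF (fidx ts) 400 457 := GoodF.ofV v457 n457 c457.down b457.down

/-- 457647:399/1 -/
noncomputable def e458 : SCfg where
  D := {
    a := 6
    L := 10
    kp := 8
    inn := [(0, 1), (0, 2), (1, 0), (1, 2), (2, 0), (2, 1), (2, 3), (2, 5), (3, 2), (3, 4), (3, 5), (4,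
      3), (5, 2), (5, 3)]
    mix := [(0, 0), (0, 1), (1, 1), (1, 2), (1, 3), (2, 0), (2, 3), (2, 4), (3, 4), (3, 5), (3, 6), (4,
      2), (4, 5), (4, 6), (5, 0), (5, 6), (5, 7), (5, 8), (5, 9)]
    cl := [0, 2, 4, 0, 1, 5, 3, 6, 7, 8]
    chq := [(1, 3), (1, 4), (1, 6), (1, 7), (1, 8), (3, 1), (4, 1), (6, 1), (7, 1), (8, 1)]
    rng := [(0, 1), (0, 9), (1, 0), (1, 2), (2, 1), (2, 3), (2, 5), (2, 6), (3, 2), (3, 4), (4, 3), (4,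
      5), (5, 2), (5, 4), (6, 2), (6, 7), (7, 6), (7, 8), (8, 7), (8, 9), (9, 0), (9, 8)]
    lev := [] }
  links := [[1, 2, 6, 7], [2, 0, 7, 8, 9], [6, 0, 1, 9, 10, 3, 5], [5, 2, 10, 11, 4, 12], [12, 3, 11, 8],
    [6, 2, 3, 12, 13, 14, 15]]
  P := {
    a := 6
    N := 16
    nb := [198, 901, 1643, 7220, 6408, 61516, 32933, 323, 6802, 1286, 2572, 1304, 8504, 20512, 40992,
      16480]
    tri := [(0, 1, 2), (0, 1, 7), (0, 2, 6), (0, 6, 7), (1, 2, 9), (1, 7, 8), (1, 8, 9), (2, 3, 5), (2,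
      3, 10), (2, 5, 6), (2, 9, 10), (3, 4, 11), (3, 4, 12), (3, 5, 12), (3, 10, 11), (4, 8, 11),
      (4, 8, 12), (5, 6, 15), (5, 12, 13), (5, 13, 14), (5, 14, 15)]
    fin := [0, 0, 2, 3, 3, 2, 0, 7, 3, 0, 2, 11, 12, 13, 14, 15]
    chd := [(2, 12), (2, 13), (2, 14), (2, 15), (3, 2)]
    steps := [(0, 1), (0, 6), (0, 9), (2, 5), (2, 10), (3, 4), (3, 8)] }
  rep := [0, 2, 7, 12, 3, 11, 13, 14, 15]

noncomputable def v458 : Cov.CovD where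
  P := 3
  N := 6
  pl := [1, 5]
  lev := [⟨[], [], [], [2], [(0, 0, [])]⟩,
    ⟨[], [(0, 0), (0, 4)], [(0, 4)], [2], [(2, 4, [1]), (3, 0, [])]⟩,
    ⟨[(0, 1)], [(0, 0), (0, 1), (1, 0), (1, 1), (1, 4)], [(0, 0), (0, 1)], [], [(0, 0, []),
      (3, 0, []), (4, 1, [3, 4, 6, 7, 8])]⟩,
    ⟨[(0, 2), (1, 2)], [(2, 0), (2, 1), (2, 3)], [(1, 3)], [5], [(4, 1, [3, 4, 6, 7, 8]),
      (6, 3, [1])]⟩,
    ⟨[(2, 3)], [(1, 4), (3, 1), (3, 3), (3, 4)], [(3, 4)], [5], [(2, 4, [1]), (6, 3, [1])]⟩,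
    ⟨[(0, 2), (1, 2), (2, 3), (3, 4)], [(0, 0), (2, 0), (2, 1), (2, 3), (2, 6), (2, 7), (2,
      8), (3, 0), (3, 1), (3, 3), (3, 6), (3, 7), (3, 8), (4, 3)], [(0, 3), (0, 6), (0, 7),
      (0, 8), (3, 6), (3, 7), (3, 8), (6, 7), (6, 8), (7, 8)], [], [(0, 0, []), (6, 3, [1]),
      (7, 6, [1]), (8, 7, [1]), (9, 8, [1])]⟩]
  Ta := [((0, 1), 0, 2), ((0, 9), 0, 8), ((3, 2), 0, 4), ((3, 4), 0, 1)]
  Tb := [((0, 1, 9), 0, 2, 8), ((1, 0, 2), 2, 0, 4), ((2, 1, 3), 4, 2, 0), ((2, 1, 5), 4, 2, 5),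
    ((2, 1, 6), 4, 2, 3), ((2, 3, 5), 4, 0, 5), ((2, 3, 6), 4, 0, 3), ((2, 5, 6), 4, 5, 3),
    ((3, 2, 4), 0, 4, 1), ((4, 3, 5), 1, 0, 5), ((5, 2, 4), 5, 4, 1), ((6, 2, 7), 3, 4, 6),
    ((7, 6, 8), 6, 3, 7), ((8, 7, 9), 7, 6, 8), ((9, 0, 8), 8, 0, 7)]
  Tc := [(1, 3, 4), (1, 3, 6), (1, 3, 7), (1, 3, 8), (1, 4, 6), (1, 4, 7), (1, 4, 8), (1, 6, 7),
    (1, 6, 8), (1, 7, 8)]
  Td := [((1, 3), (4, 3), 0), ((1, 3), (4, 5), 5), ((1, 4), (4, 3), 0), ((1, 4), (4, 5), 5), ((1,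
    6), (4, 3), 0), ((1, 6), (4, 5), 5), ((1, 7), (4, 3), 0), ((1, 7), (4, 5), 5), ((1, 8),
    (4, 3), 0), ((1, 8), (4, 5), 5), ((3, 1), (6, 2), 4), ((3, 1), (6, 7), 6), ((4, 1), (2,
    1), 2), ((4, 1), (2, 3), 0), ((4, 1), (2, 5), 5), ((4, 1), (2, 6), 3), ((6, 1), (7, 6),
    3), ((6, 1), (7, 8), 7), ((7, 1), (8, 7), 6), ((7, 1), (8, 9), 8), ((8, 1), (9, 0), 0),
    ((8, 1), (9, 8), 7)]
  G := [[0, 0, 0x226422a219c24, 0x222e2221d418, 0x22222e21d812], [0, 0x111111e2111111e2c8, 0,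
    0x282221d42232422d8c1, 0x226422a2239c28]]

noncomputable def n458 : Ent := ⟨e458, noF, [], [], []⟩

def c458 : PLift (Cov.check n458.C.D v458 = true) := ⟨by decide +kernel⟩

def b458 : PLift (entF (fidx ts) 400 458 n458 = true) := ⟨by decide +kernel⟩

theorem g458 : GoodF (fidx ts) 400 458 := GoodF.ofV v458 n458 c458.down b458.down

/-- 457647:399 -/
noncomputable def e459 : SCfg where
  D := {
    a := 6
    L := 11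
    kp := 9
    inn := [(0, 1), (0, 2), (1, 0), (1, 2), (2, 0), (2, 1), (2, 3), (2, 5), (3, 2), (3, 4), (3, 5), (4,
      3), (5, 2), (5, 3)]
    mix := [(0, 0), (0, 1), (1, 1), (1, 2), (1, 3), (2, 0), (2, 3), (2, 4), (3, 4), (3, 5), (3, 6), (4,
      5), (4, 6), (4, 7), (5, 0), (5, 6), (5, 8), (5, 9), (5, 10)]
    cl := [0, 2, 9, 0, 1, 4, 3, 5, 6, 7, 8]
    chq := [(1, 3), (1, 5), (1, 6), (1, 7), (1, 8), (3, 1), (5, 1), (6, 1), (7, 1), (8, 1)]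
    rng := [(0, 1), (0, 10), (1, 0), (1, 2), (2, 1), (2, 3), (3, 2), (3, 4), (4, 3), (4, 5), (5, 4),
      (5, 7), (6, 7), (6, 8), (7, 5), (7, 6), (8, 6), (8, 9), (9, 8), (9, 10), (10, 0), (10, 9)]
    lev := [] }
  links := [[1, 2, 6, 7], [2, 0, 7, 8, 9], [6, 0, 1, 9, 10, 3, 5], [5, 2, 10, 11, 4, 12], [12, 3, 11,
    13], [6, 2, 3, 12, 14, 15, 16]]
  P := {
    a := 6
    N := 17
    nb := [198, 901, 1643, 7220, 14344, 118860, 65701, 323, 642, 1286, 2572, 9240, 24632, 6160, 36896,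
      81952, 32864]
    tri := [(0, 1, 2), (0, 1, 7), (0, 2, 6), (0, 6, 7), (1, 2, 9), (1, 7, 8), (1, 8, 9), (2, 3, 5), (2,
      3, 10), (2, 5, 6), (2, 9, 10), (3, 4, 11), (3, 4, 12), (3, 5, 12), (3, 10, 11), (4, 11, 13),
      (4, 12, 13), (5, 6, 16), (5, 12, 14), (5, 14, 15), (5, 15, 16)]
    fin := [0, 0, 0, 3, 3, 3, 0, 7, 8, 0, 3, 11, 12, 13, 14, 15, 16]
    chd := [(3, 12), (3, 13), (3, 14), (3, 15), (3, 16)]
    steps := [(0, 1), (0, 2), (0, 6), (0, 9), (3, 4), (3, 5), (3, 10)] }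
  rep := [0, 3, 7, 12, 11, 13, 14, 15, 16, 8]

noncomputable def v459 : Cov.CovD where
  P := 3
  N := 7
  pl := [1, 2, 5]
  lev := [⟨[], [], [], [2], [(0, 0, [])]⟩,
    ⟨[], [(0, 0)], [], [2, 9], [(3, 0, [])]⟩,
    ⟨[(0, 1)], [(0, 0), (0, 1), (1, 0), (1, 1)], [(0, 0), (0, 1)], [], [(0, 0, []), (3, 0,
      []), (4, 1, [3, 5, 6, 7, 8])]⟩,
    ⟨[(0, 2), (1, 2)], [(2, 0), (2, 1), (2, 3)], [(1, 3)], [4], [(4, 1, [3, 5, 6, 7, 8]),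
      (6, 3, [1])]⟩,
    ⟨[(2, 3)], [(3, 1), (3, 3), (3, 5)], [(3, 5)], [4], [(6, 3, [1]), (7, 5, [1])]⟩,
    ⟨[(0, 2), (1, 2), (2, 3), (3, 4)], [(0, 0), (2, 0), (2, 1), (2, 3), (2, 6), (2, 7), (2,
      8), (3, 0), (3, 1), (3, 3), (3, 6), (3, 7), (3, 8), (4, 3)], [(0, 3), (0, 6), (0, 7),
      (0, 8), (3, 6), (3, 7), (3, 8), (6, 7), (6, 8), (7, 8)], [], [(0, 0, []), (6, 3, [1]),
      (8, 6, [1]), (9, 7, [1]), (10, 8, [1])]⟩]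
  Ta := [((0, 1), 0, 2), ((0, 10), 0, 8), ((3, 2), 0, 9), ((3, 4), 0, 1)]
  Tb := [((0, 1, 10), 0, 2, 8), ((1, 0, 2), 2, 0, 9), ((2, 1, 3), 9, 2, 0), ((3, 2, 4), 0, 9, 1),
    ((4, 3, 5), 1, 0, 4), ((5, 4, 7), 4, 1, 5), ((6, 7, 8), 3, 5, 6), ((7, 5, 6), 5, 4, 3),
    ((8, 6, 9), 6, 3, 7), ((9, 8, 10), 7, 6, 8), ((10, 0, 9), 8, 0, 7)]
  Tc := [(1, 3, 5), (1, 3, 6), (1, 3, 7), (1, 3, 8), (1, 5, 6), (1, 5, 7), (1, 5, 8), (1, 6, 7),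
    (1, 6, 8), (1, 7, 8)]
  Td := [((1, 3), (4, 3), 0), ((1, 3), (4, 5), 4), ((1, 5), (4, 3), 0), ((1, 5), (4, 5), 4), ((1,
    6), (4, 3), 0), ((1, 6), (4, 5), 4), ((1, 7), (4, 3), 0), ((1, 7), (4, 5), 4), ((1, 8),
    (4, 3), 0), ((1, 8), (4, 5), 4), ((3, 1), (6, 7), 5), ((3, 1), (6, 8), 6), ((5, 1), (7,
    5), 4), ((5, 1), (7, 6), 3), ((6, 1), (8, 6), 3), ((6, 1), (8, 9), 7), ((7, 1), (9, 8),
    6), ((7, 1), (9, 10), 8), ((8, 1), (10, 0), 0), ((8, 1), (10, 9), 7)]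
  G := [[0, 0, 0x226223522a8c226422a2239c68, 0x222e222227d418, 0x226223522a8c12], [0,
    0x111111e2111111e2c4, 0, 0x226422a2239c22222e222bd8c4, 0x222e222227d4226422a2239ca8]]

noncomputable def n459 : Ent := ⟨e459, noF, [], [], [(8, 13, [1685382419725355503238989871268909155780284044704628512909401300993, 0])]⟩

def c459 : PLift (Cov.check n459.C.D v459 = true) := ⟨by decide +kernel⟩

def b459 : PLift (entF (fidx ts) 400 459 n459 = true) := ⟨by decide +kernel⟩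

theorem g459 : GoodF (fidx ts) 400 459 := GoodF.ofV v459 n459 c459.down b459.down

/-- 457647:400/1 -/
noncomputable def e460 : SCfg where
  D := {
    a := 6
    L := 10
    kp := 8
    inn := [(0, 1), (0, 2), (1, 0), (1, 2), (2, 0), (2, 1), (2, 3), (3, 2), (3, 4), (3, 5), (4, 3), (4,
      5), (5, 3), (5, 4)]
    mix := [(0, 0), (0, 1), (1, 1), (1, 2), (1, 3), (2, 0), (2, 3), (2, 4), (2, 5), (3, 4), (3, 5), (3,
      6), (4, 6), (4, 7), (5, 1), (5, 4), (5, 7), (5, 8), (5, 9)]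
    cl := [0, 1, 6, 2, 0, 3, 5, 4, 7, 8]
    chq := [(0, 6), (1, 3), (3, 1), (3, 4), (3, 7), (3, 8), (4, 3), (6, 0), (7, 3), (8, 3)]
    rng := [(0, 1), (0, 5), (1, 0), (1, 2), (1, 8), (1, 9), (2, 1), (2, 3), (3, 2), (3, 4), (4, 3), (4,
      8), (5, 0), (5, 6), (6, 5), (6, 7), (7, 6), (7, 9), (8, 1), (8, 4), (9, 1), (9, 7)]
    lev := [] }
  links := [[1, 2, 6, 7], [2, 0, 7, 8, 9], [6, 0, 1, 9, 10, 3, 11], [11, 2, 10, 5, 4, 12], [12, 3, 5,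
    13], [13, 4, 3, 10, 14, 7, 15]]
  P := {
    a := 6
    N := 16
    nb := [198, 901, 3659, 7220, 12328, 58520, 2181, 49507, 642, 1286, 16940, 4172, 10264, 36912,
      1184, 8352]
    tri := [(0, 1, 2), (0, 1, 7), (0, 2, 6), (0, 6, 7), (1, 2, 9), (1, 7, 8), (1, 8, 9), (2, 3, 10),
      (2, 3, 11), (2, 6, 11), (2, 9, 10), (3, 4, 5), (3, 4, 12), (3, 5, 10), (3, 11, 12), (4, 5,
      13), (4, 12, 13), (5, 7, 14), (5, 7, 15), (5, 10, 14), (5, 13, 15)]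
    fin := [0, 0, 0, 3, 4, 3, 0, 7, 8, 9, 0, 3, 12, 4, 14, 15]
    chd := [(0, 8), (3, 4), (3, 14), (3, 15), (7, 3)]
    steps := [(0, 1), (0, 2), (0, 6), (0, 10), (3, 5), (3, 11), (4, 13)] }
  rep := [0, 7, 9, 3, 4, 12, 8, 14, 15]

noncomputable def v460 : Cov.CovD where
  P := 3
  N := 6
  pl := [3, 6]
  lev := [⟨[], [], [(0, 1)], [], [(0, 0, [6]), (1, 1, [3])]⟩,
    ⟨[], [(0, 0), (0, 1), (0, 6)], [(1, 6)], [2], [(1, 1, [3]), (2, 6, [0])]⟩,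
    ⟨[(0, 1)], [(0, 0), (0, 1), (0, 3), (1, 0), (1, 1), (1, 3), (1, 6)], [(0, 0), (0, 3)],
      [2], [(0, 0, [6]), (4, 0, [6]), (5, 3, [1, 4, 7, 8])]⟩,
    ⟨[(0, 2), (1, 2)], [(2, 0), (2, 3)], [(0, 3)], [5], [(4, 0, [6]), (5, 3, [1, 4, 7,
      8])]⟩,
    ⟨[(2, 3)], [(3, 0), (3, 3), (3, 4)], [], [5], [(7, 4, [3])]⟩,
    ⟨[(2, 3), (3, 4)], [(0, 1), (1, 1), (2, 0), (3, 0), (3, 1), (3, 3), (3, 4), (3, 7), (3,
      8), (4, 0), (4, 1), (4, 4), (4, 7), (4, 8)], [(0, 1), (0, 4), (0, 7), (0, 8), (1, 4),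
      (1, 7), (1, 8), (4, 7), (4, 8), (7, 8)], [], [(1, 1, [3]), (4, 0, [6]), (7, 4, [3]),
      (8, 7, [3]), (9, 8, [3])]⟩]
  Ta := [((0, 1), 0, 1), ((0, 5), 0, 3), ((4, 3), 0, 2), ((4, 8), 0, 7)]
  Tb := [((0, 1, 5), 0, 1, 3), ((1, 0, 2), 1, 0, 6), ((1, 0, 8), 1, 0, 7), ((1, 0, 9), 1, 0, 8),
    ((1, 2, 8), 1, 6, 7), ((1, 2, 9), 1, 6, 8), ((1, 8, 9), 1, 7, 8), ((2, 1, 3), 6, 1, 2),
    ((3, 2, 4), 2, 6, 0), ((4, 3, 8), 0, 2, 7), ((5, 0, 6), 3, 0, 5), ((6, 5, 7), 5, 3, 4),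
    ((7, 6, 9), 4, 5, 8), ((8, 1, 4), 7, 1, 0), ((9, 1, 7), 8, 1, 4)]
  Tc := [(3, 1, 4), (3, 1, 7), (3, 1, 8), (3, 4, 7), (3, 4, 8), (3, 7, 8)]
  Td := [((0, 6), (0, 1), 1), ((0, 6), (0, 5), 3), ((0, 6), (4, 3), 2), ((0, 6), (4, 8), 7), ((1,
    3), (1, 0), 0), ((1, 3), (1, 2), 6), ((1, 3), (1, 8), 7), ((1, 3), (1, 9), 8), ((3, 1),
    (5, 0), 0), ((3, 1), (5, 6), 5), ((3, 4), (5, 0), 0), ((3, 4), (5, 6), 5), ((3, 7), (5,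
    0), 0), ((3, 7), (5, 6), 5), ((3, 8), (5, 0), 0), ((3, 8), (5, 6), 5), ((4, 3), (7, 6),
    5), ((4, 3), (7, 9), 8), ((6, 0), (2, 1), 1), ((6, 0), (2, 3), 2), ((7, 3), (8, 1), 1),
    ((7, 3), (8, 4), 0), ((8, 3), (9, 1), 1), ((8, 3), (9, 7), 4)]
  G := [[0, 0x44a4263226da188c784fc465aaad44cbe886a83cc2, 0, 0x45a64c33653a9998ea4fc18,
    0x756bb9a7c1c2f218], [0, 0, 0xcc32669aa544e6cc32669aa588eac1, 0x4462688a98c3ec1465a4c81c,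
    0xc22669aa58c9ea14]]

noncomputable def n460 : Ent := ⟨e460, noF, [], [], []⟩

def c460 : PLift (Cov.check n460.C.D v460 = true) := ⟨by decide +kernel⟩

def b460 : PLift (entF (fidx ts) 400 460 n460 = true) := ⟨by decide +kernel⟩

theorem g460 : GoodF (fidx ts) 400 460 := GoodF.ofV v460 n460 c460.down b460.down

/-- 457647:400/2 -/
noncomputable def e461 : SCfg where
  D := {
    a := 6
    L := 10
    kp := 8
    inn := [(0, 1), (0, 2), (1, 0), (1, 2), (2, 0), (2, 1), (2, 3), (3, 2), (3, 4), (3, 5), (4, 3), (4,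
      5), (5, 3), (5, 4)]
    mix := [(0, 0), (0, 1), (1, 1), (1, 2), (1, 3), (2, 0), (2, 3), (2, 4), (2, 5), (3, 4), (3, 5), (3,
      6), (4, 6), (4, 7), (5, 1), (5, 4), (5, 7), (5, 8), (5, 9)]
    cl := [0, 1, 6, 2, 0, 3, 5, 4, 7, 8]
    chq := [(0, 6), (1, 3), (3, 1), (3, 4), (3, 7), (3, 8), (4, 3), (6, 0), (7, 3), (8, 3)]
    rng := [(0, 1), (0, 5), (1, 0), (1, 2), (1, 7), (1, 9), (2, 1), (2, 3), (3, 2), (3, 4), (4, 3), (4,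
      8), (5, 0), (5, 6), (6, 5), (6, 7), (7, 1), (7, 6), (8, 4), (8, 9), (9, 1), (9, 8)]
    lev := [] }
  links := [[1, 2, 6, 7], [2, 0, 7, 8, 9], [6, 0, 1, 9, 10, 3, 11], [11, 2, 10, 5, 4, 12], [12, 3, 5,
    13], [13, 4, 3, 10, 14, 15, 7]]
  P := {
    a := 6
    N := 16
    nb := [198, 901, 3659, 7220, 12328, 58520, 2181, 41315, 642, 1286, 16940, 4172, 10264, 4272,
      33824, 16544]
    tri := [(0, 1, 2), (0, 1, 7), (0, 2, 6), (0, 6, 7), (1, 2, 9), (1, 7, 8), (1, 8, 9), (2, 3, 10),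
      (2, 3, 11), (2, 6, 11), (2, 9, 10), (3, 4, 5), (3, 4, 12), (3, 5, 10), (3, 11, 12), (4, 5,
      13), (4, 12, 13), (5, 7, 13), (5, 7, 15), (5, 10, 14), (5, 14, 15)]
    fin := [0, 0, 0, 3, 4, 3, 0, 7, 8, 9, 0, 3, 12, 4, 14, 15]
    chd := [(0, 8), (3, 4), (3, 14), (3, 15), (7, 3)]
    steps := [(0, 1), (0, 2), (0, 6), (0, 10), (3, 5), (3, 11), (4, 13)] }
  rep := [0, 7, 9, 3, 4, 12, 8, 14, 15]

noncomputable def v461 : Cov.CovD where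
  P := 3
  N := 6
  pl := [3, 6]
  lev := [⟨[], [], [(0, 1)], [], [(0, 0, [6]), (1, 1, [3])]⟩,
    ⟨[], [(0, 0), (0, 1), (0, 6)], [(1, 6)], [2], [(1, 1, [3]), (2, 6, [0])]⟩,
    ⟨[(0, 1)], [(0, 0), (0, 1), (0, 3), (1, 0), (1, 1), (1, 3), (1, 6)], [(0, 0), (0, 3)],
      [2], [(0, 0, [6]), (4, 0, [6]), (5, 3, [1, 4, 7, 8])]⟩,
    ⟨[(0, 2), (1, 2)], [(2, 0), (2, 3)], [(0, 3)], [5], [(4, 0, [6]), (5, 3, [1, 4, 7,
      8])]⟩,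
    ⟨[(2, 3)], [(3, 0), (3, 3), (3, 4)], [], [5], [(7, 4, [3])]⟩,
    ⟨[(2, 3), (3, 4)], [(0, 1), (1, 1), (2, 0), (3, 0), (3, 1), (3, 3), (3, 4), (3, 7), (3,
      8), (4, 0), (4, 1), (4, 4), (4, 7), (4, 8)], [(0, 1), (0, 4), (0, 7), (0, 8), (1, 4),
      (1, 7), (1, 8), (4, 7), (4, 8), (7, 8)], [], [(1, 1, [3]), (4, 0, [6]), (7, 4, [3]),
      (8, 7, [3]), (9, 8, [3])]⟩]
  Ta := [((0, 1), 0, 1), ((0, 5), 0, 3), ((4, 3), 0, 2), ((4, 8), 0, 7)]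
  Tb := [((0, 1, 5), 0, 1, 3), ((1, 0, 2), 1, 0, 6), ((1, 0, 7), 1, 0, 4), ((1, 0, 9), 1, 0, 8),
    ((1, 2, 7), 1, 6, 4), ((1, 2, 9), 1, 6, 8), ((1, 7, 9), 1, 4, 8), ((2, 1, 3), 6, 1, 2),
    ((3, 2, 4), 2, 6, 0), ((4, 3, 8), 0, 2, 7), ((5, 0, 6), 3, 0, 5), ((6, 5, 7), 5, 3, 4),
    ((7, 1, 6), 4, 1, 5), ((8, 4, 9), 7, 0, 8), ((9, 1, 8), 8, 1, 7)]
  Tc := [(3, 1, 4), (3, 1, 7), (3, 1, 8), (3, 4, 7), (3, 4, 8), (3, 7, 8)]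
  Td := [((0, 6), (0, 1), 1), ((0, 6), (0, 5), 3), ((0, 6), (4, 3), 2), ((0, 6), (4, 8), 7), ((1,
    3), (1, 0), 0), ((1, 3), (1, 2), 6), ((1, 3), (1, 7), 4), ((1, 3), (1, 9), 8), ((3, 1),
    (5, 0), 0), ((3, 1), (5, 6), 5), ((3, 4), (5, 0), 0), ((3, 4), (5, 6), 5), ((3, 7), (5,
    0), 0), ((3, 7), (5, 6), 5), ((3, 8), (5, 0), 0), ((3, 8), (5, 6), 5), ((4, 3), (7, 1),
    1), ((4, 3), (7, 6), 5), ((6, 0), (2, 1), 1), ((6, 0), (2, 3), 2), ((7, 3), (8, 4), 0),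
    ((7, 3), (8, 9), 8), ((8, 3), (9, 1), 1), ((8, 3), (9, 8), 7)]
  G := [[0, 0x44a443226d8a38c5ec46322ad4c9e886883cc2, 0, 0x6133ad5d4b48f889a8c3c14,
    0x756bb9a7c1c2f214], [0, 0, 0xcc32669aa544e661c2a68aa58c9eac1,
    0x4432688a9883ec1465a4c81c, 0xc22669aa58c9ea14]]

noncomputable def n461 : Ent := ⟨e461, noF, [], [], []⟩

def c461 : PLift (Cov.check n461.C.D v461 = true) := ⟨by decide +kernel⟩

def b461 : PLift (entF (fidx ts) 400 461 n461 = true) := ⟨by decide +kernel⟩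

theorem g461 : GoodF (fidx ts) 400 461 := GoodF.ofV v461 n461 c461.down b461.down

/-- 457647:400/3 -/
noncomputable def e462 : SCfg where
  D := {
    a := 6
    L := 10
    kp := 8
    inn := [(0, 1), (0, 2), (1, 0), (1, 2), (2, 0), (2, 1), (2, 3), (3, 2), (3, 4), (3, 5), (4, 3), (4,
      5), (5, 3), (5, 4)]
    mix := [(0, 0), (0, 1), (1, 1), (1, 2), (1, 3), (2, 0), (2, 3), (2, 4), (2, 5), (3, 4), (3, 5), (3,
      6), (4, 1), (4, 6), (5, 1), (5, 4), (5, 7), (5, 8), (5, 9)]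
    cl := [0, 1, 5, 2, 0, 3, 4, 6, 7, 8]
    chq := [(0, 5), (1, 3), (3, 1), (3, 6), (3, 7), (3, 8), (5, 0), (6, 3), (7, 3), (8, 3)]
    rng := [(0, 1), (0, 5), (1, 0), (1, 2), (1, 6), (1, 9), (2, 1), (2, 3), (3, 2), (3, 4), (4, 3), (4,
      7), (5, 0), (5, 6), (6, 1), (6, 5), (7, 4), (7, 8), (8, 7), (8, 9), (9, 1), (9, 8)]
    lev := [] }
  links := [[1, 2, 6, 7], [2, 0, 7, 8, 9], [6, 0, 1, 9, 10, 3, 11], [11, 2, 10, 5, 4, 12], [12, 3, 5, 7],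
    [7, 4, 3, 10, 13, 14, 15]]
  P := {
    a := 6
    N := 16
    nb := [198, 901, 3659, 7220, 4264, 58520, 2181, 37235, 642, 1286, 8748, 4172, 2200, 17440, 40992,
      16544]
    tri := [(0, 1, 2), (0, 1, 7), (0, 2, 6), (0, 6, 7), (1, 2, 9), (1, 7, 8), (1, 8, 9), (2, 3, 10),
      (2, 3, 11), (2, 6, 11), (2, 9, 10), (3, 4, 5), (3, 4, 12), (3, 5, 10), (3, 11, 12), (4, 5,
      7), (4, 7, 12), (5, 7, 15), (5, 10, 13), (5, 13, 14), (5, 14, 15)]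
    fin := [0, 0, 0, 3, 4, 3, 0, 4, 8, 9, 0, 3, 12, 13, 14, 15]
    chd := [(0, 8), (3, 13), (3, 14), (3, 15), (4, 3)]
    steps := [(0, 1), (0, 2), (0, 6), (0, 10), (3, 5), (3, 11), (4, 7)] }
  rep := [0, 4, 9, 3, 12, 8, 13, 14, 15]

noncomputable def v462 : Cov.CovD where
  P := 3
  N := 6
  pl := [3, 6]
  lev := [⟨[], [], [(0, 1)], [], [(0, 0, [5]), (1, 1, [3])]⟩,
    ⟨[], [(0, 0), (0, 1), (0, 5)], [(1, 5)], [2], [(1, 1, [3]), (2, 5, [0])]⟩,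
    ⟨[(0, 1)], [(0, 0), (0, 1), (0, 3), (1, 0), (1, 1), (1, 3), (1, 5)], [(0, 0), (0, 3)],
      [2], [(0, 0, [5]), (4, 0, [5]), (5, 3, [1, 6, 7, 8])]⟩,
    ⟨[(0, 2), (1, 2)], [(2, 0), (2, 3)], [(0, 3)], [4], [(4, 0, [5]), (5, 3, [1, 6, 7,
      8])]⟩,
    ⟨[(2, 3)], [(0, 1), (1, 1), (3, 0), (3, 1), (3, 3)], [], [4], [(1, 1, [3])]⟩,
    ⟨[(2, 3), (3, 4)], [(0, 1), (1, 1), (2, 0), (3, 0), (3, 1), (3, 3), (3, 6), (3, 7), (3,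
      8), (4, 0), (4, 1), (4, 6), (4, 7), (4, 8)], [(0, 1), (0, 6), (0, 7), (0, 8), (1, 6),
      (1, 7), (1, 8), (6, 7), (6, 8), (7, 8)], [], [(1, 1, [3]), (4, 0, [5]), (7, 6, [3]),
      (8, 7, [3]), (9, 8, [3])]⟩]
  Ta := [((0, 1), 0, 1), ((0, 5), 0, 3), ((4, 3), 0, 2), ((4, 7), 0, 6)]
  Tb := [((0, 1, 5), 0, 1, 3), ((1, 0, 2), 1, 0, 5), ((1, 0, 6), 1, 0, 4), ((1, 0, 9), 1, 0, 8),
    ((1, 2, 6), 1, 5, 4), ((1, 2, 9), 1, 5, 8), ((1, 6, 9), 1, 4, 8), ((2, 1, 3), 5, 1, 2),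
    ((3, 2, 4), 2, 5, 0), ((4, 3, 7), 0, 2, 6), ((5, 0, 6), 3, 0, 4), ((6, 1, 5), 4, 1, 3),
    ((7, 4, 8), 6, 0, 7), ((8, 7, 9), 7, 6, 8), ((9, 1, 8), 8, 1, 7)]
  Tc := [(3, 1, 6), (3, 1, 7), (3, 1, 8), (3, 6, 7), (3, 6, 8), (3, 7, 8)]
  Td := [((0, 5), (0, 1), 1), ((0, 5), (0, 5), 3), ((0, 5), (4, 3), 2), ((0, 5), (4, 7), 6), ((1,
    3), (1, 0), 0), ((1, 3), (1, 2), 5), ((1, 3), (1, 6), 4), ((1, 3), (1, 9), 8), ((3, 1),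
    (5, 0), 0), ((3, 1), (5, 6), 4), ((3, 6), (5, 0), 0), ((3, 6), (5, 6), 4), ((3, 7), (5,
    0), 0), ((3, 7), (5, 6), 4), ((3, 8), (5, 0), 0), ((3, 8), (5, 6), 4), ((5, 0), (2, 1),
    1), ((5, 0), (2, 3), 2), ((6, 3), (7, 4), 0), ((6, 3), (7, 8), 7), ((7, 3), (8, 7), 6),
    ((7, 3), (8, 9), 8), ((8, 3), (9, 1), 1), ((8, 3), (9, 8), 7)]
  G := [[0, 0x64a1a861c64a1a861cc2, 0, 0x48443789c5a4bc18, 0x78b4c1e214], [0, 0,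
    0x68a4c1e268a4c1e2c4, 0x41268a1885ec144881c, 0x68a4c1e218]]

noncomputable def n462 : Ent := ⟨e462, noF, [], [], []⟩

def c462 : PLift (Cov.check n462.C.D v462 = true) := ⟨by decide +kernel⟩

def b462 : PLift (entF (fidx ts) 400 462 n462 = true) := ⟨by decide +kernel⟩

theorem g462 : GoodF (fidx ts) 400 462 := GoodF.ofV v462 n462 c462.down b462.down

/-- 457647:400 -/
noncomputable def e463 : SCfg where
  D := {
    a := 6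
    L := 11
    kp := 9
    inn := [(0, 1), (0, 2), (1, 0), (1, 2), (2, 0), (2, 1), (2, 3), (3, 2), (3, 4), (3, 5), (4, 3), (4,
      5), (5, 3), (5, 4)]
    mix := [(0, 0), (0, 1), (1, 1), (1, 2), (1, 3), (2, 0), (2, 3), (2, 4), (2, 5), (3, 4), (3, 5), (3,
      6), (4, 6), (4, 7), (5, 4), (5, 7), (5, 8), (5, 9), (5, 10)]
    cl := [0, 4, 6, 2, 0, 1, 5, 3, 7, 8, 9]
    chq := [(0, 6), (1, 3), (1, 7), (1, 8), (1, 9), (3, 1), (6, 0), (7, 1), (8, 1), (9, 1)]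
    rng := [(0, 1), (0, 5), (1, 0), (1, 2), (2, 1), (2, 3), (3, 2), (3, 4), (4, 3), (4, 8), (5, 0), (5,
      6), (6, 5), (6, 7), (7, 6), (7, 10), (8, 4), (8, 9), (9, 8), (9, 10), (10, 7), (10, 9)]
    lev := [] }
  links := [[1, 2, 6, 7], [2, 0, 7, 8, 9], [6, 0, 1, 9, 10, 3, 11], [11, 2, 10, 5, 4, 12], [12, 3, 5,
    13], [13, 4, 3, 10, 14, 15, 16]]
  P := {
    a := 6
    N := 17
    nb := [198, 901, 3659, 7220, 12328, 123928, 2181, 323, 642, 1286, 16940, 4172, 10264, 69680,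
      33824, 81952, 40992]
    tri := [(0, 1, 2), (0, 1, 7), (0, 2, 6), (0, 6, 7), (1, 2, 9), (1, 7, 8), (1, 8, 9), (2, 3, 10),
      (2, 3, 11), (2, 6, 11), (2, 9, 10), (3, 4, 5), (3, 4, 12), (3, 5, 10), (3, 11, 12), (4, 5,
      13), (4, 12, 13), (5, 10, 14), (5, 13, 16), (5, 14, 15), (5, 15, 16)]
    fin := [0, 0, 0, 3, 4, 3, 0, 7, 8, 9, 0, 3, 12, 4, 14, 15, 16]
    chd := [(0, 8), (3, 4), (3, 14), (3, 15), (3, 16)]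
    steps := [(0, 1), (0, 2), (0, 6), (0, 10), (3, 5), (3, 11), (4, 13)] }
  rep := [0, 3, 9, 4, 7, 12, 8, 14, 15, 16]

noncomputable def v463 : Cov.CovD where
  P := 3
  N := 7
  pl := [1, 3, 6]
  lev := [⟨[], [], [], [4], [(0, 0, [6])]⟩,
    ⟨[], [(0, 0), (0, 6)], [], [2, 4], [(2, 6, [0])]⟩,
    ⟨[(0, 1)], [(0, 0), (0, 1), (1, 0), (1, 1), (1, 6)], [(0, 0), (0, 1)], [2], [(0, 0,
      [6]), (4, 0, [6]), (5, 1, [3, 7, 8, 9])]⟩,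
    ⟨[(0, 2), (1, 2)], [(2, 0), (2, 1)], [(0, 1)], [5], [(4, 0, [6]), (5, 1, [3, 7, 8,
      9])]⟩,
    ⟨[(2, 3)], [(3, 0), (3, 1), (3, 3)], [], [5], [(7, 3, [1])]⟩,
    ⟨[(2, 3), (3, 4)], [(2, 0), (3, 0), (3, 1), (3, 3), (3, 7), (3, 8), (3, 9), (4, 0), (4,
      3), (4, 7), (4, 8), (4, 9)], [(0, 3), (0, 7), (0, 8), (0, 9), (3, 7), (3, 8), (3, 9),
      (7, 8), (7, 9), (8, 9)], [], [(4, 0, [6]), (7, 3, [1]), (8, 7, [1]), (9, 8, [1]), (10,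
      9, [1])]⟩]
  Ta := [((0, 1), 0, 4), ((0, 5), 0, 1), ((4, 3), 0, 2), ((4, 8), 0, 7)]
  Tb := [((0, 1, 5), 0, 4, 1), ((1, 0, 2), 4, 0, 6), ((2, 1, 3), 6, 4, 2), ((3, 2, 4), 2, 6, 0),
    ((4, 3, 8), 0, 2, 7), ((5, 0, 6), 1, 0, 5), ((6, 5, 7), 5, 1, 3), ((7, 6, 10), 3, 5, 9),
    ((8, 4, 9), 7, 0, 8), ((9, 8, 10), 8, 7, 9), ((10, 7, 9), 9, 3, 8)]
  Tc := [(1, 3, 7), (1, 3, 8), (1, 3, 9), (1, 7, 8), (1, 7, 9), (1, 8, 9)]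
  Td := [((0, 6), (0, 1), 4), ((0, 6), (0, 5), 1), ((0, 6), (4, 3), 2), ((0, 6), (4, 8), 7), ((1,
    3), (5, 0), 0), ((1, 3), (5, 6), 5), ((1, 7), (5, 0), 0), ((1, 7), (5, 6), 5), ((1, 8),
    (5, 0), 0), ((1, 8), (5, 6), 5), ((1, 9), (5, 0), 0), ((1, 9), (5, 6), 5), ((3, 1), (7,
    6), 5), ((3, 1), (7, 10), 9), ((6, 0), (2, 1), 4), ((6, 0), (2, 3), 2), ((7, 1), (8, 4),
    0), ((7, 1), (8, 9), 8), ((8, 1), (9, 8), 7), ((8, 1), (9, 10), 9), ((9, 1), (10, 7), 3),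
    ((9, 1), (10, 9), 8)]
  G := [[0, 0x11c11a68111c11a681a, 0, 0x22542298c21222d28d8c22542298c16,
    0x22982821222d28d81222d225821222d28d8ae], [0, 0, 0x22542298c22542298c22542298ce1,
    0x22542298c122542298c1a, 0x22982122225c288a1223225c81e]]

noncomputable def n463 : Ent := ⟨e463, noF, [], [], [(7, 15, [1685356702439545624007900436039642273970977273354372543760001974273, 0]), (7, 16, [1580044410770988437309982408355971841652082177953823432505691000833, 0]), (7, 13, [1685382419725355503238989871268909155780284044704628512909401317377, 0])]⟩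

def c463 : PLift (Cov.check n463.C.D v463 = true) := ⟨by decide +kernel⟩

def b463 : PLift (entF (fidx ts) 400 463 n463 = true) := ⟨by decide +kernel⟩

theorem g463 : GoodF (fidx ts) 400 463 := GoodF.ofV v463 n463 c463.down b463.down

/-- 467644:407/2 -/
noncomputable def e464 : SCfg where
  D := {
    a := 6
    L := 9
    kp := 6
    inn := [(0, 1), (0, 2), (1, 0), (1, 4), (2, 0), (2, 3), (3, 2), (3, 5), (4, 1), (5, 3)]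
    mix := [(0, 0), (0, 1), (1, 0), (1, 1), (1, 2), (1, 3), (2, 0), (2, 1), (2, 4), (2, 5), (2, 6), (3,
      4), (3, 5), (3, 7), (3, 8), (4, 0), (4, 3), (4, 4), (5, 3), (5, 4), (5, 7)]
    cl := [0, 0, 5, 2, 1, 1, 6, 3, 4]
    chq := [(0, 2), (2, 0), (2, 4), (4, 2)]
    rng := [(0, 4), (1, 2), (1, 6), (2, 1), (2, 3), (3, 2), (3, 4), (3, 7), (4, 0), (4, 3), (5, 6), (5,
      8), (6, 1), (6, 5), (7, 3), (7, 8), (8, 5), (8, 7)]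
    lev := [] }
  links := [[1, 6, 2, 7], [6, 0, 7, 8, 9, 4], [7, 0, 6, 10, 3, 11, 12], [11, 2, 10, 5, 13, 14], [6, 1, 9,
    10], [13, 3, 10, 9]]
  P := {
    a := 6
    N := 15
    nb := [198, 977, 7369, 27684, 1602, 9736, 1047, 4359, 642, 9522, 636, 20492, 2180, 16936, 10248]
    tri := [(0, 1, 6), (0, 1, 7), (0, 2, 6), (0, 2, 7), (1, 4, 6), (1, 4, 9), (1, 7, 8), (1, 8, 9), (2,
      3, 10), (2, 3, 11), (2, 6, 10), (2, 7, 12), (2, 11, 12), (3, 5, 10), (3, 5, 13), (3, 11,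
      14), (3, 13, 14), (4, 6, 10), (4, 9, 10), (5, 9, 10), (5, 9, 13)]
    fin := [0, 0, 2, 3, 0, 3, 0, 0, 8, 3, 2, 2, 12, 13, 14]
    chd := [(0, 3), (3, 14)]
    steps := [(0, 1), (0, 4), (0, 6), (0, 7), (2, 10), (2, 11), (3, 5), (3, 9)] }
  rep := [0, 2, 3, 13, 14, 8, 12]

noncomputable def v464 : Cov.CovD where
  P := 3
  N := 4
  pl := [2, 6, 7]
  lev := [⟨[], [], [(0, 0)], [], [(0, 0, [2]), (1, 0, [2])]⟩,
    ⟨[], [(0, 0), (0, 2)], [(0, 0), (0, 2)], [5], [(0, 0, [2]), (1, 0, [2]), (3, 2, [0,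
      4])]⟩,
    ⟨[(0, 1)], [(0, 0), (0, 1), (1, 0)], [(0, 0), (0, 1), (1, 1)], [6], [(0, 0, [2]), (1,
      0, [2]), (4, 1, []), (5, 1, [])]⟩,
    ⟨[(0, 2)], [(2, 0), (2, 1), (2, 4)], [(1, 1), (1, 4)], [3], [(4, 1, []), (5, 1, []),
      (8, 4, [2])]⟩,
    ⟨[(0, 1)], [(0, 0), (1, 0), (1, 1), (1, 2), (2, 0), (2, 1), (3, 1)], [(0, 1), (0, 2),
      (1, 2)], [], [(0, 0, [2]), (3, 2, [0, 4]), (4, 1, [])]⟩,
    ⟨[(2, 3)], [(1, 2), (2, 1), (3, 1), (3, 2), (3, 4), (4, 1), (4, 2)], [(1, 2)], [3],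
      [(3, 2, [0, 4]), (4, 1, [])]⟩]
  Ta := [((0, 4), 0, 1), ((1, 2), 0, 5), ((1, 6), 0, 6), ((4, 0), 1, 0), ((4, 3), 1, 2), ((5, 6),
    1, 6), ((5, 8), 1, 4)]
  Tb := [((1, 2, 6), 0, 5, 6), ((2, 1, 3), 5, 0, 2), ((3, 2, 4), 2, 5, 1), ((3, 2, 7), 2, 5, 3),
    ((3, 4, 7), 2, 1, 3), ((4, 0, 3), 1, 0, 2), ((5, 6, 8), 1, 6, 4), ((6, 1, 5), 6, 0, 1),
    ((7, 3, 8), 3, 2, 4), ((8, 5, 7), 4, 1, 3)]
  Tc := [(2, 0, 4)]
  Td := [((0, 2), (0, 4), 1), ((0, 2), (1, 2), 5), ((0, 2), (1, 6), 6), ((2, 0), (3, 2), 5), ((2,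
    0), (3, 4), 1), ((2, 0), (3, 7), 3), ((2, 4), (3, 2), 5), ((2, 4), (3, 4), 1), ((2, 4),
    (3, 7), 3), ((4, 2), (8, 5), 1), ((4, 2), (8, 7), 3)]
  G := [[0, 0x4888c8e8884c8ec4448c8e44c8a444ec2, 0xc41c41cc81c41ca2,
    0x584814d849414dc584414d889414dcc2, 0x189888d889818dc189888d889818dca2], [0, 0,
    0xa41c81cc41a81cc2, 0, 0x122812d822818dc189888d882818dca2], [0, 0, 0xc81c41cc41c81c68,
    0x584811d819414dc584418d819111dcc2, 0x189188d889818dc119888d889111dca2], [0, 0,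
    0xa81641c641641ca2, 0, 0x822112d42844a182812d8112111d88119cac]]

noncomputable def n464 : Ent := ⟨e464, noF, [], [], []⟩

def c464 : PLift (Cov.check n464.C.D v464 = true) := ⟨by decide +kernel⟩

def b464 : PLift (entF (fidx ts) 400 464 n464 = true) := ⟨by decide +kernel⟩

theorem g464 : GoodF (fidx ts) 400 464 := GoodF.ofV v464 n464 c464.down b464.down

/-- 467644:407/1 -/
noncomputable def e465 : SCfg where
  D := {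
    a := 6
    L := 10
    kp := 7
    inn := [(0, 1), (0, 2), (1, 0), (1, 4), (2, 0), (2, 3), (3, 2), (3, 5), (4, 1), (5, 3)]
    mix := [(0, 0), (0, 1), (1, 0), (1, 1), (1, 2), (1, 3), (2, 0), (2, 1), (2, 4), (2, 5), (2, 6), (3,
      4), (3, 5), (3, 7), (3, 8), (4, 0), (4, 3), (4, 4), (5, 4), (5, 7), (5, 9)]
    cl := [0, 0, 6, 2, 1, 1, 7, 3, 4, 5]
    chq := [(0, 2), (2, 0), (4, 5), (5, 4)]
    rng := [(0, 4), (1, 2), (1, 6), (2, 1), (2, 3), (3, 2), (3, 4), (4, 0), (4, 3), (4, 9), (5, 6), (5,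
      8), (6, 1), (6, 5), (7, 8), (7, 9), (8, 5), (8, 7), (9, 4), (9, 7)]
    lev := [] }
  links := [[1, 6, 2, 7], [6, 0, 7, 8, 9, 4], [7, 0, 6, 10, 3, 11, 12], [11, 2, 10, 5, 13, 14], [6, 1, 9,
    10], [13, 3, 10, 15]]
  P := {
    a := 6
    N := 16
    nb := [198, 977, 7369, 27684, 1602, 41992, 1047, 4359, 642, 1298, 33404, 20492, 2180, 49192,
      10248, 9248]
    tri := [(0, 1, 6), (0, 1, 7), (0, 2, 6), (0, 2, 7), (1, 4, 6), (1, 4, 9), (1, 7, 8), (1, 8, 9), (2,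
      3, 10), (2, 3, 11), (2, 6, 10), (2, 7, 12), (2, 11, 12), (3, 5, 10), (3, 5, 13), (3, 11,
      14), (3, 13, 14), (4, 6, 10), (4, 9, 10), (5, 10, 15), (5, 13, 15)]
    fin := [0, 0, 2, 3, 0, 3, 0, 0, 8, 9, 2, 2, 12, 13, 14, 3]
    chd := [(0, 9), (14, 3)]
    steps := [(0, 1), (0, 4), (0, 6), (0, 7), (2, 10), (2, 11), (3, 5), (3, 15)] }
  rep := [0, 2, 9, 13, 14, 3, 8, 12]

noncomputable def v465 : Cov.CovD where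
  P := 3
  N := 5
  pl := [2, 6, 7]
  lev := [⟨[], [], [(0, 0)], [], [(0, 0, [2]), (1, 0, [2])]⟩,
    ⟨[], [(0, 0), (0, 2)], [(0, 0), (0, 2)], [6], [(0, 0, [2]), (1, 0, [2]), (3, 2, [0])]⟩,
    ⟨[(0, 1)], [(0, 0), (0, 1), (1, 0)], [(0, 0), (0, 1), (1, 1)], [7], [(0, 0, [2]), (1,
      0, [2]), (4, 1, []), (5, 1, [])]⟩,
    ⟨[(0, 2)], [(2, 0), (2, 1), (2, 4)], [(1, 1), (1, 4)], [3], [(4, 1, []), (5, 1, []),
      (8, 4, [5])]⟩,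
    ⟨[(0, 1)], [(0, 0), (1, 0), (1, 1), (1, 2), (2, 0), (2, 1), (3, 1)], [(0, 1), (0, 2),
      (1, 2)], [], [(0, 0, [2]), (3, 2, [0]), (4, 1, [])]⟩,
    ⟨[(2, 3)], [(2, 1), (3, 1), (3, 4), (3, 5), (4, 1)], [(1, 5)], [3], [(4, 1, []), (9, 5,
      [4])]⟩]
  Ta := [((0, 4), 0, 1), ((1, 2), 0, 6), ((1, 6), 0, 7), ((4, 0), 1, 0), ((4, 3), 1, 2), ((4, 9),
    1, 5), ((5, 6), 1, 7), ((5, 8), 1, 4)]
  Tb := [((1, 2, 6), 0, 6, 7), ((2, 1, 3), 6, 0, 2), ((3, 2, 4), 2, 6, 1), ((4, 0, 3), 1, 0, 2),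
    ((4, 0, 9), 1, 0, 5), ((4, 3, 9), 1, 2, 5), ((5, 6, 8), 1, 7, 4), ((6, 1, 5), 7, 0, 1),
    ((7, 8, 9), 3, 4, 5), ((8, 5, 7), 4, 1, 3), ((9, 4, 7), 5, 1, 3)]
  Tc := []
  Td := [((0, 2), (0, 4), 1), ((0, 2), (1, 2), 6), ((0, 2), (1, 6), 7), ((2, 0), (3, 2), 6), ((2,
    0), (3, 4), 1), ((4, 5), (8, 5), 1), ((4, 5), (8, 7), 3), ((5, 4), (9, 4), 1), ((5, 4),
    (9, 7), 3)]
  G := [[0, 0xa8c8664c8a64a8ce68a8c8e68a8c8eac4, 0x5494c8d5498c4dc5898c4d5498c4dc62,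
    0x5894c8d5494c4dc5894c4d5494c4dcc2, 0x5898c8d5898c8dc5898c8d5898c8dca2], [0, 0,
    0x649224d283468dc2434c2d529428dcc2, 0, 0x5228a8d52289c283868d28c89caa8443844a6], [0, 0,
    0x5498c8d5498c4dc5894c8d5494c8dcc2, 0x5891c1d5191c4dc5198c1d5194c4dcc2,
    0x5198c8d5891c1dc5191c8d5898c1dca2], [0, 0, 0x5228a8d86434a4d641c6582438d42492c4c6, 0,
    0x619828d51a128dc3121a8d519128dca2]]

noncomputable def n465 : Ent := ⟨e465, noF, [], [], [(15, 9, [360035742630636841345797572106540607504961255222653860045455361, 0])]⟩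

def c465 : PLift (Cov.check n465.C.D v465 = true) := ⟨by decide +kernel⟩

def b465 : PLift (entF (fidx ts) 400 465 n465 = true) := ⟨by decide +kernel⟩

theorem g465 : GoodF (fidx ts) 400 465 := GoodF.ofV v465 n465 c465.down b465.down

/-- 467644:407/3 -/
noncomputable def e466 : SCfg where
  D := {
    a := 6
    L := 10
    kp := 7
    inn := [(0, 1), (0, 2), (1, 0), (1, 4), (2, 0), (2, 3), (3, 2), (3, 5), (4, 1), (5, 3)]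
    mix := [(0, 0), (0, 1), (1, 0), (1, 1), (1, 2), (1, 3), (2, 0), (2, 1), (2, 4), (2, 5), (2, 6), (3,
      4), (3, 5), (3, 7), (3, 8), (4, 0), (4, 3), (4, 9), (5, 3), (5, 4), (5, 7)]
    cl := [0, 0, 5, 1, 2, 2, 6, 3, 4, 7]
    chq := [(0, 1), (1, 0), (1, 4), (4, 1)]
    rng := [(0, 4), (0, 9), (1, 2), (1, 6), (2, 1), (2, 3), (3, 2), (3, 4), (3, 7), (3, 9), (4, 0), (4,
      3), (5, 6), (5, 8), (6, 1), (6, 5), (7, 3), (7, 8), (8, 5), (8, 7), (9, 0), (9, 3)]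
    lev := [] }
  links := [[1, 6, 2, 7], [6, 0, 7, 8, 9, 4], [7, 0, 6, 10, 3, 11, 12], [11, 2, 10, 5, 13, 14], [6, 1, 9,
    15], [13, 3, 10, 9]]
  P := {
    a := 6
    N := 16
    nb := [198, 977, 7369, 27684, 33346, 9736, 33815, 4359, 642, 42290, 620, 20492, 2180, 16936,
      10248, 592]
    tri := [(0, 1, 6), (0, 1, 7), (0, 2, 6), (0, 2, 7), (1, 4, 6), (1, 4, 9), (1, 7, 8), (1, 8, 9), (2,
      3, 10), (2, 3, 11), (2, 6, 10), (2, 7, 12), (2, 11, 12), (3, 5, 10), (3, 5, 13), (3, 11,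
      14), (3, 13, 14), (4, 6, 15), (4, 9, 15), (5, 9, 10), (5, 9, 13)]
    fin := [0, 0, 2, 3, 0, 3, 0, 0, 8, 3, 2, 2, 12, 13, 14, 15]
    chd := [(0, 3), (3, 14)]
    steps := [(0, 1), (0, 4), (0, 6), (0, 7), (2, 10), (2, 11), (3, 5), (3, 9)] }
  rep := [0, 3, 2, 13, 14, 8, 12, 15]

noncomputable def v466 : Cov.CovD where
  P := 3
  N := 5
  pl := [2, 6, 7, 9]
  lev := [⟨[], [], [(0, 0)], [], [(0, 0, [1]), (1, 0, [1])]⟩,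
    ⟨[], [(0, 0), (0, 1)], [(0, 0), (0, 1)], [5], [(0, 0, [1]), (1, 0, [1]), (3, 1, [0,
      4])]⟩,
    ⟨[(0, 1)], [(0, 0), (0, 2), (1, 0)], [(0, 0), (0, 2), (2, 2)], [6], [(0, 0, [1]), (1,
      0, [1]), (4, 2, []), (5, 2, [])]⟩,
    ⟨[(0, 2)], [(2, 0), (2, 2), (2, 4)], [(2, 2), (2, 4)], [3], [(4, 2, []), (5, 2, []),
      (8, 4, [1])]⟩,
    ⟨[(0, 1)], [(0, 0), (1, 0), (1, 1), (2, 0)], [(0, 1)], [7], [(0, 0, [1]), (3, 1, [0,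
      4])]⟩,
    ⟨[(2, 3)], [(1, 1), (2, 2), (3, 1), (3, 2), (3, 4), (4, 1)], [(1, 2)], [3], [(3, 1, [0,
      4]), (4, 2, [])]⟩]
  Ta := [((0, 4), 0, 2), ((0, 9), 0, 7), ((1, 2), 0, 5), ((1, 6), 0, 6), ((4, 0), 2, 0), ((4, 3),
    2, 1), ((5, 6), 2, 6), ((5, 8), 2, 4)]
  Tb := [((0, 4, 9), 0, 2, 7), ((1, 2, 6), 0, 5, 6), ((2, 1, 3), 5, 0, 1), ((3, 2, 4), 1, 5, 2),
    ((3, 2, 7), 1, 5, 3), ((3, 2, 9), 1, 5, 7), ((3, 4, 7), 1, 2, 3), ((3, 4, 9), 1, 2, 7),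
    ((3, 7, 9), 1, 3, 7), ((4, 0, 3), 2, 0, 1), ((5, 6, 8), 2, 6, 4), ((6, 1, 5), 6, 0, 2),
    ((7, 3, 8), 3, 1, 4), ((8, 5, 7), 4, 2, 3), ((9, 0, 3), 7, 0, 1)]
  Tc := [(1, 0, 4)]
  Td := [((0, 1), (0, 4), 2), ((0, 1), (0, 9), 7), ((0, 1), (1, 2), 5), ((0, 1), (1, 6), 6), ((1,
    0), (3, 2), 5), ((1, 0), (3, 4), 2), ((1, 0), (3, 7), 3), ((1, 0), (3, 9), 7), ((1, 4),
    (3, 2), 5), ((1, 4), (3, 4), 2), ((1, 4), (3, 7), 3), ((1, 4), (3, 9), 7), ((4, 1), (8,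
    5), 2), ((4, 1), (8, 7), 3)]
  G := [[0, 0xccc1cca1ccc61cca1ca4, 0x84cccc684cccca88c44cce444cccc644cccca88c84cce8a,
    0x55c44c11cd88c99c11cdc55c44c11cd88c99c11cdcc2,
    0x99c18c388c99c11cba411c99c11cb88c99c11cba1888c14884e], [0, 0x6ac1a661caca1cca1c68, 0, 0,
    0x44c22411c44c88cb88c44c11cba814c95c11cb88c11c9a4e], [0, 0xcc61cca1cccc1ccc1ca4, 0,
    0x514111d819111dc514111d819111dcc2, 0x119111b819111ba119111b819111bac4], [0,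
    0xaca1842e1c66c16ac1ca4, 0, 0, 0x11c141b819141ba419111b814111bac4]]

noncomputable def n466 : Ent := ⟨e466, noF, [], [], [(10, 15, [360035742630636841211993100915356868655746945586763691009572865, 0])]⟩

def c466 : PLift (Cov.check n466.C.D v466 = true) := ⟨by decide +kernel⟩

def b466 : PLift (entF (fidx ts) 400 466 n466 = true) := ⟨by decide +kernel⟩

theorem g466 : GoodF (fidx ts) 400 466 := GoodF.ofV v466 n466 c466.down b466.down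

/-- 467644:407/5 -/
noncomputable def e467 : SCfg where
  D := {
    a := 6
    L := 9
    kp := 6
    inn := [(0, 1), (0, 2), (1, 0), (1, 4), (2, 0), (2, 3), (3, 2), (3, 5), (4, 1), (5, 3)]
    mix := [(0, 0), (0, 1), (1, 0), (1, 1), (1, 2), (1, 3), (2, 0), (2, 1), (2, 4), (2, 5), (2, 6), (3,
      3), (3, 4), (3, 5), (3, 7), (4, 0), (4, 3), (4, 8), (5, 3), (5, 4), (5, 8)]
    cl := [0, 0, 5, 1, 2, 2, 6, 4, 3]
    chq := [(0, 1), (1, 0), (3, 4), (4, 3)]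
    rng := [(0, 4), (0, 8), (1, 2), (1, 6), (2, 1), (2, 3), (3, 2), (3, 7), (3, 8), (4, 0), (4, 8), (5,
      6), (5, 7), (6, 1), (6, 5), (7, 3), (7, 5), (8, 0), (8, 3), (8, 4)]
    lev := [] }
  links := [[1, 6, 2, 7], [6, 0, 7, 8, 9, 4], [7, 0, 6, 10, 3, 11, 12], [11, 2, 10, 5, 9, 13], [6, 1, 9,
    14], [9, 3, 10, 14]]
  P := {
    a := 6
    N := 15
    nb := [198, 977, 7369, 11812, 16962, 17928, 17431, 4359, 642, 24890, 16492, 12300, 2180, 2568,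
      1648]
    tri := [(0, 1, 6), (0, 1, 7), (0, 2, 6), (0, 2, 7), (1, 4, 6), (1, 4, 9), (1, 7, 8), (1, 8, 9), (2,
      3, 10), (2, 3, 11), (2, 6, 10), (2, 7, 12), (2, 11, 12), (3, 5, 9), (3, 5, 10), (3, 9, 13),
      (3, 11, 13), (4, 6, 14), (4, 9, 14), (5, 9, 14), (5, 10, 14)]
    fin := [0, 0, 2, 3, 0, 3, 0, 0, 8, 9, 2, 2, 12, 13, 3]
    chd := [(0, 9), (13, 3)]
    steps := [(0, 1), (0, 4), (0, 6), (0, 7), (2, 10), (2, 11), (3, 5), (3, 14)] }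
  rep := [0, 9, 2, 3, 13, 8, 12]

noncomputable def v467 : Cov.CovD where
  P := 3
  N := 4
  pl := [2, 6]
  lev := [⟨[], [], [(0, 0)], [], [(0, 0, [1]), (1, 0, [1])]⟩,
    ⟨[], [(0, 0), (0, 1)], [(0, 0), (0, 1)], [5], [(0, 0, [1]), (1, 0, [1]), (3, 1, [0])]⟩,
    ⟨[(0, 1)], [(0, 0), (0, 2), (1, 0)], [(0, 0), (0, 2), (2, 2)], [6], [(0, 0, [1]), (1,
      0, [1]), (4, 2, []), (5, 2, [])]⟩,
    ⟨[(0, 2)], [(1, 1), (2, 0), (2, 1), (2, 2), (2, 4)], [(1, 2), (1, 4), (2, 2), (2, 4)],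
      [], [(3, 1, [0]), (4, 2, []), (5, 2, []), (7, 4, [3])]⟩,
    ⟨[(0, 1)], [(0, 0), (1, 0), (1, 1), (1, 3), (2, 0), (3, 1)], [(0, 1), (0, 3), (1, 3)],
      [], [(0, 0, [1]), (3, 1, [0]), (8, 3, [4])]⟩,
    ⟨[(2, 3)], [(1, 1), (2, 2), (3, 1), (3, 2), (3, 3), (3, 4), (4, 1), (4, 3)], [(1, 2),
      (1, 3), (2, 3)], [], [(3, 1, [0]), (4, 2, []), (8, 3, [4])]⟩]
  Ta := [((0, 4), 0, 2), ((0, 8), 0, 3), ((1, 2), 0, 5), ((1, 6), 0, 6), ((4, 0), 2, 0), ((4, 8),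
    2, 3), ((5, 6), 2, 6), ((5, 7), 2, 4)]
  Tb := [((0, 4, 8), 0, 2, 3), ((1, 2, 6), 0, 5, 6), ((2, 1, 3), 5, 0, 1), ((3, 2, 7), 1, 5, 4),
    ((3, 2, 8), 1, 5, 3), ((3, 7, 8), 1, 4, 3), ((4, 0, 8), 2, 0, 3), ((5, 6, 7), 2, 6, 4),
    ((6, 1, 5), 6, 0, 2), ((7, 3, 5), 4, 1, 2), ((8, 0, 3), 3, 0, 1), ((8, 0, 4), 3, 0, 2),
    ((8, 3, 4), 3, 1, 2)]
  Tc := []
  Td := [((0, 1), (0, 4), 2), ((0, 1), (0, 8), 3), ((0, 1), (1, 2), 5), ((0, 1), (1, 6), 6), ((1,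
    0), (3, 2), 5), ((1, 0), (3, 7), 4), ((1, 0), (3, 8), 3), ((3, 4), (8, 0), 0), ((3, 4),
    (8, 3), 1), ((3, 4), (8, 4), 2), ((4, 3), (7, 3), 1), ((4, 3), (7, 5), 2)]
  G := [[0, 0x84c14861c84c184c1c68, 0x4484cc4488ca44c8c4488cac2, 0x84c44511c889c84c44514c88ccc2,
    0x11c81c981c889a11c98981c889ac2], [0, 0x221221c221221c68, 0,
    0x4488cc5488cc4458c81c889cc2, 0x1444944849a1444944449ac2], [0, 0x486184c1c84a1884c14e4,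
    0, 0x1111911415c1111c11119cc2, 0x1111911119a1111911119ac2], [0, 0x221221c221221c68, 0,
    0x1181c11115c111151188ccc2, 0x1414911449a4111911119ac4]]

noncomputable def n467 : Ent := ⟨e467, noF, [], [], []⟩

def c467 : PLift (Cov.check n467.C.D v467 = true) := ⟨by decide +kernel⟩

def b467 : PLift (entF (fidx ts) 400 467 n467 = true) := ⟨by decide +kernel⟩

theorem g467 : GoodF (fidx ts) 400 467 := GoodF.ofV v467 n467 c467.down b467.down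

/-- 467644:407/4 -/
noncomputable def e468 : SCfg where
  D := {
    a := 6
    L := 10
    kp := 7
    inn := [(0, 1), (0, 2), (1, 0), (1, 4), (2, 0), (2, 3), (3, 2), (3, 5), (4, 1), (5, 3)]
    mix := [(0, 0), (0, 1), (1, 0), (1, 1), (1, 2), (1, 3), (2, 0), (2, 1), (2, 4), (2, 5), (2, 6), (3,
      4), (3, 5), (3, 7), (3, 8), (4, 0), (4, 3), (4, 9), (5, 4), (5, 7), (5, 9)]
    cl := [0, 0, 6, 3, 1, 1, 7, 4, 5, 2]
    chq := [(0, 3), (2, 5), (3, 0), (5, 2)]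
    rng := [(0, 4), (0, 9), (1, 2), (1, 6), (2, 1), (2, 3), (3, 2), (3, 9), (4, 0), (4, 9), (5, 6), (5,
      8), (6, 1), (6, 5), (7, 8), (7, 9), (8, 5), (8, 7), (9, 0), (9, 3), (9, 4), (9, 7)]
    lev := [] }
  links := [[1, 6, 2, 7], [6, 0, 7, 8, 9, 4], [7, 0, 6, 10, 3, 11, 12], [11, 2, 10, 5, 13, 14], [6, 1, 9,
    15], [13, 3, 10, 15]]
  P := {
    a := 6
    N := 16
    nb := [198, 977, 7369, 27684, 33346, 41992, 33815, 4359, 642, 33042, 32876, 20492, 2180, 49192,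
      10248, 9840]
    tri := [(0, 1, 6), (0, 1, 7), (0, 2, 6), (0, 2, 7), (1, 4, 6), (1, 4, 9), (1, 7, 8), (1, 8, 9), (2,
      3, 10), (2, 3, 11), (2, 6, 10), (2, 7, 12), (2, 11, 12), (3, 5, 10), (3, 5, 13), (3, 11,
      14), (3, 13, 14), (4, 6, 15), (4, 9, 15), (5, 10, 15), (5, 13, 15)]
    fin := [0, 0, 2, 3, 0, 3, 0, 0, 8, 9, 2, 2, 12, 13, 14, 3]
    chd := [(0, 9), (14, 3)]
    steps := [(0, 1), (0, 4), (0, 6), (0, 7), (2, 10), (2, 11), (3, 5), (3, 15)] }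
  rep := [0, 2, 3, 9, 13, 14, 8, 12]

noncomputable def v468 : Cov.CovD where
  P := 3
  N := 5
  pl := [2, 6, 7]
  lev := [⟨[], [], [(0, 0)], [], [(0, 0, [3]), (1, 0, [3])]⟩,
    ⟨[], [(0, 0), (0, 3)], [(0, 0), (0, 3)], [6], [(0, 0, [3]), (1, 0, [3]), (3, 3, [0])]⟩,
    ⟨[(0, 1)], [(0, 0), (0, 1), (1, 0)], [(0, 0), (0, 1), (1, 1)], [7], [(0, 0, [3]), (1,
      0, [3]), (4, 1, []), (5, 1, [])]⟩,
    ⟨[(0, 2)], [(2, 0), (2, 1), (2, 5)], [(1, 1), (1, 5)], [4], [(4, 1, []), (5, 1, []),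
      (8, 5, [2])]⟩,
    ⟨[(0, 1)], [(0, 0), (1, 0), (1, 2), (1, 3), (2, 0)], [(0, 2), (0, 3), (2, 3)], [], [(0,
      0, [3]), (3, 3, [0]), (9, 2, [5])]⟩,
    ⟨[(2, 3)], [(2, 1), (3, 1), (3, 2), (3, 5), (4, 2)], [(1, 2)], [4], [(4, 1, []), (9, 2,
      [5])]⟩]
  Ta := [((0, 4), 0, 1), ((0, 9), 0, 2), ((1, 2), 0, 6), ((1, 6), 0, 7), ((4, 0), 1, 0), ((4, 9),
    1, 2), ((5, 6), 1, 7), ((5, 8), 1, 5)]
  Tb := [((0, 4, 9), 0, 1, 2), ((1, 2, 6), 0, 6, 7), ((2, 1, 3), 6, 0, 3), ((3, 2, 9), 3, 6, 2),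
    ((4, 0, 9), 1, 0, 2), ((5, 6, 8), 1, 7, 5), ((6, 1, 5), 7, 0, 1), ((7, 8, 9), 4, 5, 2),
    ((8, 5, 7), 5, 1, 4), ((9, 0, 3), 2, 0, 3), ((9, 0, 4), 2, 0, 1), ((9, 0, 7), 2, 0, 4),
    ((9, 3, 4), 2, 3, 1), ((9, 3, 7), 2, 3, 4), ((9, 4, 7), 2, 1, 4)]
  Tc := []
  Td := [((0, 3), (0, 4), 1), ((0, 3), (0, 9), 2), ((0, 3), (1, 2), 6), ((0, 3), (1, 6), 7), ((2,
    5), (9, 0), 0), ((2, 5), (9, 3), 3), ((2, 5), (9, 4), 1), ((2, 5), (9, 7), 4), ((3, 0),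
    (3, 2), 6), ((3, 0), (3, 9), 2), ((5, 2), (8, 5), 1), ((5, 2), (8, 7), 4)]
  G := [[0, 0x84cccc648cccca88c44cce24848c8e4888c8ec4444c4e8484c4ecc6,
    0xc41c41cc21c21c6c81c81c8a, 0x584818d889818dc544414d849414dc55c44c11cd88c99c11cdce2,
    0x92442189818d88189c129212d82129ca984411a99a18ad88a99a11adcce], [0, 0,
    0xc81681c621c21ca641a41c46, 0,
    0x32225822212dc212882182888d28a818dc22aaaa18ad88a22a11adcce], [0, 0, 0,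
    0x584818d889818dc544414d849414dc514111d819111dce2,
    0x819111d492125829212dc612882189818d889818dc119111d8ce], [0, 0, 0, 0,
    0x8129911d422446119111d8122212d82129c6289818d882118dc8e]]

noncomputable def n468 : Ent := ⟨e468, noF, [], [], [(13, 9, [385753028440516072390631310976361170528661168933326286432841729, 0])]⟩

def c468 : PLift (Cov.check n468.C.D v468 = true) := ⟨by decide +kernel⟩

def b468 : PLift (entF (fidx ts) 400 468 n468 = true) := ⟨by decide +kernel⟩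

theorem g468 : GoodF (fidx ts) 400 468 := GoodF.ofV v468 n468 c468.down b468.down

/-- 467644:407/6 -/
noncomputable def e469 : SCfg where
  D := {
    a := 6
    L := 10
    kp := 7
    inn := [(0, 1), (0, 2), (1, 0), (1, 4), (2, 0), (2, 3), (3, 2), (3, 5), (4, 1), (5, 3)]
    mix := [(0, 0), (0, 1), (1, 0), (1, 1), (1, 2), (1, 3), (2, 0), (2, 1), (2, 4), (2, 5), (2, 6), (3,
      3), (3, 4), (3, 5), (3, 7), (4, 0), (4, 3), (4, 8), (5, 3), (5, 4), (5, 9)]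
    cl := [0, 0, 5, 1, 2, 2, 6, 3, 7, 4]
    chq := [(0, 1), (1, 0), (3, 4), (4, 3)]
    rng := [(0, 4), (0, 8), (1, 2), (1, 6), (2, 1), (2, 3), (3, 2), (3, 7), (3, 8), (3, 9), (4, 0), (4,
      9), (5, 6), (5, 7), (6, 1), (6, 5), (7, 3), (7, 5), (8, 0), (8, 3), (9, 3), (9, 4)]
    lev := [] }
  links := [[1, 6, 2, 7], [6, 0, 7, 8, 9, 4], [7, 0, 6, 10, 3, 11, 12], [11, 2, 10, 5, 9, 13], [6, 1, 9,
    14], [9, 3, 10, 15]]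
  P := {
    a := 6
    N := 16
    nb := [198, 977, 7369, 11812, 16962, 34312, 17431, 4359, 642, 57658, 32876, 12300, 2180, 2568,
      592, 1568]
    tri := [(0, 1, 6), (0, 1, 7), (0, 2, 6), (0, 2, 7), (1, 4, 6), (1, 4, 9), (1, 7, 8), (1, 8, 9), (2,
      3, 10), (2, 3, 11), (2, 6, 10), (2, 7, 12), (2, 11, 12), (3, 5, 9), (3, 5, 10), (3, 9, 13),
      (3, 11, 13), (4, 6, 14), (4, 9, 14), (5, 9, 15), (5, 10, 15)]
    fin := [0, 0, 2, 3, 0, 3, 0, 0, 8, 9, 2, 2, 12, 13, 14, 3]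
    chd := [(0, 9), (13, 3)]
    steps := [(0, 1), (0, 4), (0, 6), (0, 7), (2, 10), (2, 11), (3, 5), (3, 15)] }
  rep := [0, 9, 2, 13, 3, 8, 12, 14]

noncomputable def v469 : Cov.CovD where
  P := 3
  N := 5
  pl := [2, 6, 8]
  lev := [⟨[], [], [(0, 0)], [], [(0, 0, [1]), (1, 0, [1])]⟩,
    ⟨[], [(0, 0), (0, 1)], [(0, 0), (0, 1)], [5], [(0, 0, [1]), (1, 0, [1]), (3, 1, [0])]⟩,
    ⟨[(0, 1)], [(0, 0), (0, 2), (1, 0)], [(0, 0), (0, 2), (2, 2)], [6], [(0, 0, [1]), (1,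
      0, [1]), (4, 2, []), (5, 2, [])]⟩,
    ⟨[(0, 2)], [(1, 1), (2, 0), (2, 1), (2, 2), (2, 3)], [(1, 2), (1, 3), (2, 2), (2, 3)],
      [], [(3, 1, [0]), (4, 2, []), (5, 2, []), (7, 3, [4])]⟩,
    ⟨[(0, 1)], [(0, 0), (1, 0), (1, 1), (2, 0), (3, 1)], [(0, 1)], [7], [(0, 0, [1]), (3,
      1, [0])]⟩,
    ⟨[(2, 3)], [(1, 1), (2, 2), (3, 1), (3, 2), (3, 3), (3, 4), (4, 1)], [(1, 2), (1, 4),
      (2, 4)], [], [(3, 1, [0]), (4, 2, []), (9, 4, [3])]⟩]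
  Ta := [((0, 4), 0, 2), ((0, 8), 0, 7), ((1, 2), 0, 5), ((1, 6), 0, 6), ((4, 0), 2, 0), ((4, 9),
    2, 4), ((5, 6), 2, 6), ((5, 7), 2, 3)]
  Tb := [((0, 4, 8), 0, 2, 7), ((1, 2, 6), 0, 5, 6), ((2, 1, 3), 5, 0, 1), ((3, 2, 7), 1, 5, 3),
    ((3, 2, 8), 1, 5, 7), ((3, 2, 9), 1, 5, 4), ((3, 7, 8), 1, 3, 7), ((3, 7, 9), 1, 3, 4),
    ((3, 8, 9), 1, 7, 4), ((4, 0, 9), 2, 0, 4), ((5, 6, 7), 2, 6, 3), ((6, 1, 5), 6, 0, 2),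
    ((7, 3, 5), 3, 1, 2), ((8, 0, 3), 7, 0, 1), ((9, 3, 4), 4, 1, 2)]
  Tc := []
  Td := [((0, 1), (0, 4), 2), ((0, 1), (0, 8), 7), ((0, 1), (1, 2), 5), ((0, 1), (1, 6), 6), ((1,
    0), (3, 2), 5), ((1, 0), (3, 7), 3), ((1, 0), (3, 8), 7), ((1, 0), (3, 9), 4), ((3, 4),
    (7, 3), 1), ((3, 4), (7, 5), 2), ((4, 3), (9, 3), 1), ((4, 3), (9, 4), 2)]
  G := [[0, 0xccc1cca1ccca1ccc1ca4, 0x44c88cc44c88ccc44c88cc44c88ccac2,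
    0x11c88c911c88c9c11c58c911c44c5cc2, 0x11c88c911c88c9a11c88c911c88c9ac2], [0,
    0x22a122a1c22c122c1c62, 0, 0x11c88c911c88c9c84418c48d49c88ccc46,
    0x44c88c941c44c9a41c44c944c84c9ac2], [0, 0xccc1cc61cccc1ccc1c62, 0,
    0x1181911819c1181911819cc2, 0x1181911819a1181911819ac4], [0, 0x22612261c22c122c1ca2, 0,
    0x1141511415c4181c11819cc2, 0x4141911419a4181911419ac2]]

noncomputable def n469 : Ent := ⟨e469, noF, [], [], [(15, 14, [385746751338780685620664494392815470296102193487288376374407169, 0])]⟩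

def c469 : PLift (Cov.check n469.C.D v469 = true) := ⟨by decide +kernel⟩

def b469 : PLift (entF (fidx ts) 400 469 n469 = true) := ⟨by decide +kernel⟩

theorem g469 : GoodF (fidx ts) 400 469 := GoodF.ofV v469 n469 c469.down b469.down

/-- 467644:407/7 -/
noncomputable def e470 : SCfg where
  D := {
    a := 6
    L := 10
    kp := 7
    inn := [(0, 1), (0, 2), (1, 0), (1, 4), (2, 0), (2, 3), (3, 2), (3, 5), (4, 1), (5, 3)]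
    mix := [(0, 0), (0, 1), (1, 0), (1, 1), (1, 2), (1, 3), (2, 0), (2, 1), (2, 4), (2, 5), (2, 6), (3,
      3), (3, 4), (3, 5), (3, 7), (4, 0), (4, 3), (4, 8), (5, 4), (5, 7), (5, 9)]
    cl := [0, 0, 5, 1, 2, 2, 6, 3, 7, 4]
    chq := [(0, 1), (1, 0), (1, 4), (4, 1)]
    rng := [(0, 4), (0, 8), (1, 2), (1, 6), (2, 1), (2, 3), (3, 2), (3, 5), (3, 7), (3, 8), (4, 0), (4,
      9), (5, 3), (5, 6), (6, 1), (6, 5), (7, 3), (7, 9), (8, 0), (8, 3), (9, 4), (9, 7)]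
    lev := [] }
  links := [[1, 6, 2, 7], [6, 0, 7, 8, 9, 4], [7, 0, 6, 10, 3, 11, 12], [11, 2, 10, 5, 13, 9], [6, 1, 9,
    14], [13, 3, 10, 15]]
  P := {
    a := 6
    N := 16
    nb := [198, 977, 7369, 11812, 16962, 41992, 17431, 4359, 642, 26906, 32876, 4620, 2180, 33320,
      592, 9248]
    tri := [(0, 1, 6), (0, 1, 7), (0, 2, 6), (0, 2, 7), (1, 4, 6), (1, 4, 9), (1, 7, 8), (1, 8, 9), (2,
      3, 10), (2, 3, 11), (2, 6, 10), (2, 7, 12), (2, 11, 12), (3, 5, 10), (3, 5, 13), (3, 9, 11),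
      (3, 9, 13), (4, 6, 14), (4, 9, 14), (5, 10, 15), (5, 13, 15)]
    fin := [0, 0, 2, 3, 0, 3, 0, 0, 8, 9, 2, 2, 12, 13, 14, 3]
    chd := [(0, 9), (9, 3)]
    steps := [(0, 1), (0, 4), (0, 6), (0, 7), (2, 10), (2, 11), (3, 5), (3, 15)] }
  rep := [0, 9, 2, 13, 3, 8, 12, 14]

noncomputable def v470 : Cov.CovD where
  P := 3
  N := 5
  pl := [2, 6, 7, 8]
  lev := [⟨[], [], [(0, 0)], [], [(0, 0, [1]), (1, 0, [1])]⟩,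
    ⟨[], [(0, 0), (0, 1)], [(0, 0), (0, 1)], [5], [(0, 0, [1]), (1, 0, [1]), (3, 1, [0,
      4])]⟩,
    ⟨[(0, 1)], [(0, 0), (0, 2), (1, 0)], [(0, 0), (0, 2), (2, 2)], [6], [(0, 0, [1]), (1,
      0, [1]), (4, 2, []), (5, 2, [])]⟩,
    ⟨[(0, 2)], [(1, 1), (2, 0), (2, 1), (2, 2)], [(1, 2), (2, 2)], [3], [(3, 1, [0, 4]),
      (4, 2, []), (5, 2, [])]⟩,
    ⟨[(0, 1)], [(0, 0), (1, 0), (1, 1), (2, 0), (3, 1)], [(0, 1)], [7], [(0, 0, [1]), (3,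
      1, [0, 4])]⟩,
    ⟨[(2, 3)], [(2, 2), (3, 1), (3, 2), (3, 4)], [(2, 4)], [3], [(4, 2, []), (9, 4, [1])]⟩]
  Ta := [((0, 4), 0, 2), ((0, 8), 0, 7), ((1, 2), 0, 5), ((1, 6), 0, 6), ((4, 0), 2, 0), ((4, 9),
    2, 4), ((5, 3), 2, 1), ((5, 6), 2, 6)]
  Tb := [((0, 4, 8), 0, 2, 7), ((1, 2, 6), 0, 5, 6), ((2, 1, 3), 5, 0, 1), ((3, 2, 5), 1, 5, 2),
    ((3, 2, 7), 1, 5, 3), ((3, 2, 8), 1, 5, 7), ((3, 5, 7), 1, 2, 3), ((3, 5, 8), 1, 2, 7),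
    ((3, 7, 8), 1, 3, 7), ((4, 0, 9), 2, 0, 4), ((5, 3, 6), 2, 1, 6), ((6, 1, 5), 6, 0, 2),
    ((7, 3, 9), 3, 1, 4), ((8, 0, 3), 7, 0, 1), ((9, 4, 7), 4, 2, 3)]
  Tc := [(1, 0, 4)]
  Td := [((0, 1), (0, 4), 2), ((0, 1), (0, 8), 7), ((0, 1), (1, 2), 5), ((0, 1), (1, 6), 6), ((1,
    0), (3, 2), 5), ((1, 0), (3, 5), 2), ((1, 0), (3, 7), 3), ((1, 0), (3, 8), 7), ((1, 4),
    (3, 2), 5), ((1, 4), (3, 5), 2), ((1, 4), (3, 7), 3), ((1, 4), (3, 8), 7), ((4, 1), (9,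
    4), 2), ((4, 1), (9, 7), 3)]
  G := [[0, 0x116116c11611ccc11611cc116116ccc2, 0x6eca2cce6c2acc622ceeccaac66ccac2, 0,
    0x32cabc9b2c2bc9a23cbac9aac33c9ac2], [0, 0x1162265141822dcee61121824dc68, 0,
    0x22c22cc22c22c9c22c22c522c22cccc2, 0x44c22c922c44c9a42c24c924c42c9ac2], [0,
    0x11c11ac11611ccc11c11cc11c11ccc62, 0, 0, 0x31a19b1219a21b19a1319ac2], [0,
    0x1164411622651168ceec122c1ce8, 0, 0x2121c21215c2121521219cc2,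
    0x2141941219a4121941219ac4]]

noncomputable def n470 : Ent := ⟨e470, noF, [], [], []⟩

def c470 : PLift (Cov.check n470.C.D v470 = true) := ⟨by decide +kernel⟩

def b470 : PLift (entF (fidx ts) 400 470 n470 = true) := ⟨by decide +kernel⟩

theorem g470 : GoodF (fidx ts) 400 470 := GoodF.ofV v470 n470 c470.down b470.down

/-- 467644:407 -/
noncomputable def e471 : SCfg where
  D := {
    a := 6
    L := 11
    kp := 8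
    inn := [(0, 1), (0, 2), (1, 0), (1, 4), (2, 0), (2, 3), (3, 2), (3, 5), (4, 1), (5, 3)]
    mix := [(0, 0), (0, 1), (1, 0), (1, 1), (1, 2), (1, 3), (2, 0), (2, 1), (2, 4), (2, 5), (2, 6), (3,
      4), (3, 5), (3, 7), (3, 8), (4, 0), (4, 3), (4, 9), (5, 4), (5, 7), (5, 10)]
    cl := [0, 0, 6, 2, 1, 1, 7, 3, 4, 8, 5]
    chq := [(0, 2), (2, 0), (4, 5), (5, 4)]
    rng := [(0, 4), (0, 9), (1, 2), (1, 6), (2, 1), (2, 3), (3, 2), (3, 9), (4, 0), (4, 10), (5, 6),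
      (5, 8), (6, 1), (6, 5), (7, 8), (7, 10), (8, 5), (8, 7), (9, 0), (9, 3), (10, 4), (10, 7)]
    lev := [] }
  links := [[1, 6, 2, 7], [6, 0, 7, 8, 9, 4], [7, 0, 6, 10, 3, 11, 12], [11, 2, 10, 5, 13, 14], [6, 1, 9,
    15], [13, 3, 10, 16]]
  P := {
    a := 6
    N := 17
    nb := [198, 977, 7369, 27684, 33346, 74760, 33815, 4359, 642, 33042, 65644, 20492, 2180, 81960,
      10248, 592, 9248]
    tri := [(0, 1, 6), (0, 1, 7), (0, 2, 6), (0, 2, 7), (1, 4, 6), (1, 4, 9), (1, 7, 8), (1, 8, 9), (2,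
      3, 10), (2, 3, 11), (2, 6, 10), (2, 7, 12), (2, 11, 12), (3, 5, 10), (3, 5, 13), (3, 11,
      14), (3, 13, 14), (4, 6, 15), (4, 9, 15), (5, 10, 16), (5, 13, 16)]
    fin := [0, 0, 2, 3, 0, 3, 0, 0, 8, 9, 2, 2, 12, 13, 14, 15, 3]
    chd := [(0, 9), (14, 3)]
    steps := [(0, 1), (0, 4), (0, 6), (0, 7), (2, 10), (2, 11), (3, 5), (3, 16)] }
  rep := [0, 2, 9, 13, 14, 3, 8, 12, 15]

noncomputable def v471 : Cov.CovD where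
  P := 3
  N := 6
  pl := [2, 6, 7, 9]
  lev := [⟨[], [], [(0, 0)], [], [(0, 0, [2]), (1, 0, [2])]⟩,
    ⟨[], [(0, 0), (0, 2)], [(0, 0), (0, 2)], [6], [(0, 0, [2]), (1, 0, [2]), (3, 2, [0])]⟩,
    ⟨[(0, 1)], [(0, 0), (0, 1), (1, 0)], [(0, 0), (0, 1), (1, 1)], [7], [(0, 0, [2]), (1,
      0, [2]), (4, 1, []), (5, 1, [])]⟩,
    ⟨[(0, 2)], [(2, 0), (2, 1), (2, 4)], [(1, 1), (1, 4)], [3], [(4, 1, []), (5, 1, []),
      (8, 4, [5])]⟩,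
    ⟨[(0, 1)], [(0, 0), (1, 0), (1, 2), (2, 0)], [(0, 2)], [8], [(0, 0, [2]), (3, 2, [0])]⟩,
    ⟨[(2, 3)], [(2, 1), (3, 1), (3, 4), (3, 5)], [(1, 5)], [3], [(4, 1, []), (10, 5, [4])]⟩]
  Ta := [((0, 4), 0, 1), ((0, 9), 0, 8), ((1, 2), 0, 6), ((1, 6), 0, 7), ((4, 0), 1, 0), ((4,
    10), 1, 5), ((5, 6), 1, 7), ((5, 8), 1, 4)]
  Tb := [((0, 4, 9), 0, 1, 8), ((1, 2, 6), 0, 6, 7), ((2, 1, 3), 6, 0, 2), ((3, 2, 9), 2, 6, 8),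
    ((4, 0, 10), 1, 0, 5), ((5, 6, 8), 1, 7, 4), ((6, 1, 5), 7, 0, 1), ((7, 8, 10), 3, 4, 5),
    ((8, 5, 7), 4, 1, 3), ((9, 0, 3), 8, 0, 2), ((10, 4, 7), 5, 1, 3)]
  Tc := []
  Td := [((0, 2), (0, 4), 1), ((0, 2), (0, 9), 8), ((0, 2), (1, 2), 6), ((0, 2), (1, 6), 7), ((2,
    0), (3, 2), 6), ((2, 0), (3, 9), 8), ((4, 5), (8, 5), 1), ((4, 5), (8, 7), 3), ((5, 4),
    (10, 4), 1), ((5, 4), (10, 7), 3)]
  G := [[0, 0xccc266caacccce66caacce66caacccceccc266caaccec2,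
    0x55c996ccad55a99acccdc55a99acccd55a996cccdcc2,
    0x55c99ccccd55c99ccccdc55c99ccccd55c99ccccdcc2,
    0x92cca555a99accadc25288255a99accad55a99accadc5898c8ae], [0, 0,
    0x58296c492a44625ca9662cd32acc9c32a29aacad86422694ec,
    0x32c2eca6cd53c92c2acdc22ce9c6ccd33c22caccdcc2,
    0xa2a2ca562aa3a26adc265a92a2aad53a2ca9c63a88aa2a448e], [0, 0,
    0x55c99accad55a99accadc55c99ccccd55c99ccccdca2, 0x5191c1d5191c1dc5191c1d5191c1dcc2,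
    0x5191c1d5191c1dc5191c1d5191c1dca2], [0, 0,
    0x626a96266d4aaa226552c9262cadca65c8826c92a2c6d8ca, 0x61a121d219161dc3121a1d2131c1dcc2,
    0x213161d219161dc619121d2131b1dca2]]

noncomputable def n471 : Ent := ⟨e471, noF, [], [], [(10, 15, [1685356702439545624007900436039642273970977273354372543760001994753, 0]), (16, 9, [1580044410770988437310138513572361556014072927981731971036232884225, 0]), (16, 15, [1685356702439545624007900436039642273970977273354372543760002007041, 0]), (13, 9, [1685382419725355503239079074249703278272850187577719106355425267713, 0]), (14, 9, [1685382413448253767852420611159112385688325307193636310252896739329, 0])]⟩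

def c471 : PLift (Cov.check n471.C.D v471 = true) := ⟨by decide +kernel⟩

def b471 : PLift (entF (fidx ts) 400 471 n471 = true) := ⟨by decide +kernel⟩

theorem g471 : GoodF (fidx ts) 400 471 := GoodF.ofV v471 n471 c471.down b471.down

/-- 484656:410/1 -/
noncomputable def e472 : SCfg where
  D := {
    a := 6
    L := 9
    kp := 6
    inn := [(0, 1), (0, 3), (0, 5), (1, 0), (1, 2), (1, 4), (1, 5), (2, 1), (2, 4), (3, 0), (3, 5), (4,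
      1), (4, 2), (5, 0), (5, 1), (5, 3)]
    mix := [(0, 0), (1, 0), (1, 1), (1, 2), (1, 3), (2, 1), (2, 4), (3, 0), (3, 5), (3, 6), (3, 7), (4,
      2), (4, 4), (4, 6), (5, 3), (5, 5), (5, 8)]
    cl := [0, 1, 1, 2, 3, 0, 4, 6, 5]
    chq := [(1, 5), (5, 1)]
    rng := [(0, 1), (0, 7), (1, 0), (1, 4), (2, 3), (2, 6), (3, 2), (3, 8), (4, 1), (4, 6), (5, 6), (5,
      8), (6, 2), (6, 4), (6, 5), (6, 7), (7, 0), (7, 6), (8, 3), (8, 5)]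
    lev := [] }
  links := [[1, 5, 3, 6], [5, 0, 6, 7, 2, 4, 8, 9], [4, 1, 7, 10], [6, 0, 5, 11, 12, 13], [8, 1, 2, 10,
    12], [11, 3, 0, 1, 9, 14]]
  P := {
    a := 6
    N := 15
    nb := [106, 1013, 1170, 14433, 5382, 18955, 8331, 1094, 4626, 16674, 4244, 20520, 11544, 4168,
      2592]
    tri := [(0, 1, 5), (0, 1, 6), (0, 3, 5), (0, 3, 6), (1, 2, 4), (1, 2, 7), (1, 4, 8), (1, 5, 9), (1,
      6, 7), (1, 8, 9), (2, 4, 10), (2, 7, 10), (3, 5, 11), (3, 6, 13), (3, 11, 12), (3, 12, 13),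
      (4, 8, 12), (4, 10, 12), (5, 9, 14), (5, 11, 14)]
    fin := [0, 1, 1, 0, 1, 1, 0, 1, 1, 9, 10, 0, 12, 13, 14]
    chd := [(1, 14)]
    steps := [(0, 3), (0, 6), (0, 11), (1, 2), (1, 4), (1, 5), (1, 7), (1, 8)] }
  rep := [0, 1, 9, 10, 12, 14, 13]

noncomputable def v472 : Cov.CovD where
  P := 3
  N := 4
  pl := [3, 4, 6, 7]
  lev := [⟨[], [], [], [], [(0, 0, [])]⟩,
    ⟨[], [(0, 0), (0, 1)], [(0, 1), (1, 1)], [2], [(0, 0, []), (1, 1, [5]), (2, 1, [5])]⟩,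
    ⟨[(0, 1)], [(1, 0), (1, 1)], [], [3], [(1, 1, [5])]⟩,
    ⟨[(0, 1)], [(0, 0), (1, 0)], [(0, 0)], [4, 6], [(0, 0, []), (5, 0, [])]⟩,
    ⟨[(0, 1), (1, 2)], [(1, 0), (1, 1), (2, 1)], [], [3, 4], [(2, 1, [5])]⟩,
    ⟨[(0, 1), (0, 3), (1, 2), (1, 3), (1, 4)], [(0, 0), (0, 5), (1, 0), (1, 1), (1, 5), (3,
      0), (3, 5)], [(0, 5)], [2], [(5, 0, []), (8, 5, [1])]⟩]
  Ta := [((0, 1), 0, 1), ((0, 7), 0, 6), ((1, 0), 1, 0), ((1, 4), 1, 3), ((2, 3), 1, 2), ((2, 6),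
    1, 4), ((5, 6), 0, 4), ((5, 8), 0, 5)]
  Tb := [((0, 1, 7), 0, 1, 6), ((1, 0, 4), 1, 0, 3), ((2, 3, 6), 1, 2, 4), ((3, 2, 8), 2, 1, 5),
    ((4, 1, 6), 3, 1, 4), ((5, 6, 8), 0, 4, 5), ((6, 2, 4), 4, 1, 3), ((6, 2, 5), 4, 1, 0),
    ((6, 2, 7), 4, 1, 6), ((6, 4, 5), 4, 3, 0), ((6, 4, 7), 4, 3, 6), ((6, 5, 7), 4, 0, 6),
    ((7, 0, 6), 6, 0, 4), ((8, 3, 5), 5, 2, 0)]
  Tc := []
  Td := [((1, 5), (1, 0), 0), ((1, 5), (1, 4), 3), ((1, 5), (2, 3), 2), ((1, 5), (2, 6), 4), ((5,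
    1), (8, 3), 2), ((5, 1), (8, 5), 0)]
  G := [[0, 0x181411e111111ea48, 0x2224a2e212161e584, 0, 0x121212e111111e982], [0, 0,
    0x2292256a6de248, 0x119115111de242, 0x119115111de282], [0, 0, 0x2824c2e2222a1e941, 0,
    0x2824a2e2222a1e584], [0, 0, 0x2292256acde248, 0x444464146cc9885c8cde2c1,
    0x822229222d22ade681]]

noncomputable def n472 : Ent := ⟨e472, noF, [], [], []⟩

def c472 : PLift (Cov.check n472.C.D v472 = true) := ⟨by decide +kernel⟩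

def b472 : PLift (entF (fidx ts) 400 472 n472 = true) := ⟨by decide +kernel⟩

theorem g472 : GoodF (fidx ts) 400 472 := GoodF.ofV v472 n472 c472.down b472.down

/-- 484656:410 -/
noncomputable def e473 : SCfg where
  D := {
    a := 6
    L := 10
    kp := 7
    inn := [(0, 1), (0, 3), (0, 5), (1, 0), (1, 2), (1, 4), (1, 5), (2, 1), (2, 4), (3, 0), (3, 5), (4,
      1), (4, 2), (5, 0), (5, 1), (5, 3)]
    mix := [(0, 0), (1, 0), (1, 1), (1, 2), (1, 3), (2, 1), (2, 4), (3, 0), (3, 5), (3, 6), (3, 7), (4,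
      2), (4, 4), (4, 8), (5, 3), (5, 5), (5, 9)]
    cl := [0, 1, 1, 2, 3, 0, 5, 6, 7, 4]
    chq := [(1, 4), (4, 1)]
    rng := [(0, 1), (0, 7), (1, 0), (1, 4), (2, 3), (2, 8), (3, 2), (3, 9), (4, 1), (4, 8), (5, 6), (5,
      9), (6, 5), (6, 7), (7, 0), (7, 6), (8, 2), (8, 4), (9, 3), (9, 5)]
    lev := [] }
  links := [[1, 5, 3, 6], [5, 0, 6, 7, 2, 4, 8, 9], [4, 1, 7, 10], [6, 0, 5, 11, 12, 13], [8, 1, 2, 10,
    14], [11, 3, 0, 1, 9, 15]]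
  P := {
    a := 6
    N := 16
    nb := [106, 1013, 1170, 14433, 17670, 35339, 8331, 1094, 16914, 33058, 16532, 36904, 10248, 4168,
      1296, 2592]
    tri := [(0, 1, 5), (0, 1, 6), (0, 3, 5), (0, 3, 6), (1, 2, 4), (1, 2, 7), (1, 4, 8), (1, 5, 9), (1,
      6, 7), (1, 8, 9), (2, 4, 10), (2, 7, 10), (3, 5, 11), (3, 6, 13), (3, 11, 12), (3, 12, 13),
      (4, 8, 14), (4, 10, 14), (5, 9, 15), (5, 11, 15)]
    fin := [0, 1, 1, 0, 1, 1, 0, 1, 1, 9, 10, 0, 12, 13, 14, 15]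
    chd := [(1, 15)]
    steps := [(0, 3), (0, 6), (0, 11), (1, 2), (1, 4), (1, 5), (1, 7), (1, 8)] }
  rep := [0, 1, 9, 10, 15, 12, 13, 14]

noncomputable def v473 : Cov.CovD where
  P := 3
  N := 5
  pl := [3, 4, 6, 7, 8]
  lev := [⟨[], [], [], [], [(0, 0, [])]⟩,
    ⟨[], [(0, 0), (0, 1)], [(0, 1), (1, 1)], [2], [(0, 0, []), (1, 1, [4]), (2, 1, [4])]⟩,
    ⟨[(0, 1)], [(1, 0), (1, 1)], [], [3], [(1, 1, [4])]⟩,
    ⟨[(0, 1)], [(0, 0), (1, 0)], [(0, 0)], [5, 6], [(0, 0, []), (5, 0, [])]⟩,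
    ⟨[(0, 1), (1, 2)], [(1, 0), (1, 1), (2, 1)], [], [3, 7], [(2, 1, [4])]⟩,
    ⟨[(0, 1), (0, 3), (1, 2), (1, 3), (1, 4)], [(0, 0), (0, 4), (1, 0), (1, 1), (1, 4), (3,
      0), (3, 4)], [(0, 4)], [2], [(5, 0, []), (9, 4, [1])]⟩]
  Ta := [((0, 1), 0, 1), ((0, 7), 0, 6), ((1, 0), 1, 0), ((1, 4), 1, 3), ((2, 3), 1, 2), ((2, 8),
    1, 7), ((5, 6), 0, 5), ((5, 9), 0, 4)]
  Tb := [((0, 1, 7), 0, 1, 6), ((1, 0, 4), 1, 0, 3), ((2, 3, 8), 1, 2, 7), ((3, 2, 9), 2, 1, 4),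
    ((4, 1, 8), 3, 1, 7), ((5, 6, 9), 0, 5, 4), ((6, 5, 7), 5, 0, 6), ((7, 0, 6), 6, 0, 5),
    ((8, 2, 4), 7, 1, 3), ((9, 3, 5), 4, 2, 0)]
  Tc := []
  Td := [((1, 4), (1, 0), 0), ((1, 4), (1, 4), 3), ((1, 4), (2, 3), 2), ((1, 4), (2, 8), 7), ((4,
    1), (9, 3), 2), ((4, 1), (9, 5), 0)]
  G := [[0, 0x111111e111111e684, 0x2222caace22522c2e948, 0, 0x12c11c12e2222119e584], [0, 0,
    0x222d222daa6de248, 0x111d111d111de248, 0x211d112d111de284], [0, 0,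
    0x222262e225225aa5e984, 0, 0x22c22228ee22229a2e581], [0, 0, 0x222d222d6aade284,
    0x4444c44ec143c8cd88cc8cde2c1, 0x82281222d22c2ace21a16383]]

noncomputable def n473 : Ent := ⟨e473, noF, [], [], [(14, 12, [385746754403771767352442211109509524596720560724766620741632001, 0])]⟩

def c473 : PLift (Cov.check n473.C.D v473 = true) := ⟨by decide +kernel⟩

def b473 : PLift (entF (fidx ts) 400 473 n473 = true) := ⟨by decide +kernel⟩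

theorem g473 : GoodF (fidx ts) 400 473 := GoodF.ofV v473 n473 c473.down b473.down

/-- 457684:414 -/
noncomputable def e474 : SCfg where
  D := {
    a := 6
    L := 10
    kp := 7
    inn := [(0, 1), (0, 2), (0, 3), (0, 4), (1, 0), (1, 2), (1, 4), (2, 0), (2, 1), (2, 3), (3, 0), (3,
      2), (3, 4), (4, 0), (4, 1), (4, 3), (4, 5), (5, 4)]
    mix := [(1, 0), (1, 1), (2, 1), (2, 2), (2, 3), (2, 4), (3, 4), (3, 5), (3, 6), (4, 0), (4, 6), (4,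
      7), (4, 8), (5, 6), (5, 7), (5, 9)]
    cl := [2, 0, 5, 6, 0, 4, 1, 3, 1, 7]
    chq := [(2, 4), (4, 2)]
    rng := [(0, 1), (0, 8), (1, 0), (1, 2), (2, 1), (2, 3), (3, 2), (3, 4), (4, 3), (4, 5), (5, 4), (5,
      6), (6, 5), (6, 9), (7, 8), (7, 9), (8, 0), (8, 7), (9, 6), (9, 7)]
    lev := [] }
  links := [[1, 2, 3, 4], [2, 0, 4, 6, 7], [3, 0, 1, 7, 8, 9, 10], [4, 0, 2, 10, 11, 12], [6, 1, 0, 3,
    12, 5, 13, 14], [13, 4, 12, 15]]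
  P := {
    a := 6
    N := 16
    nb := [30, 213, 1931, 7189, 28779, 45072, 16530, 326, 644, 1284, 2572, 5128, 34872, 49200, 8272,
      12320]
    tri := [(0, 1, 2), (0, 1, 4), (0, 2, 3), (0, 3, 4), (1, 2, 7), (1, 4, 6), (1, 6, 7), (2, 3, 10),
      (2, 7, 8), (2, 8, 9), (2, 9, 10), (3, 4, 12), (3, 10, 11), (3, 11, 12), (4, 5, 12), (4, 5,
      13), (4, 6, 14), (4, 13, 14), (5, 12, 15), (5, 13, 15)]
    fin := [0, 0, 2, 0, 4, 4, 0, 2, 8, 9, 2, 11, 4, 13, 4, 15]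
    chd := [(0, 11)]
    steps := [(0, 1), (0, 3), (0, 6), (2, 7), (2, 10), (4, 5), (4, 12), (4, 14)] }
  rep := [2, 4, 0, 13, 11, 8, 9, 15]

noncomputable def v474 : Cov.CovD where
  P := 3
  N := 5
  pl := [2, 3, 7, 9]
  lev := [⟨[], [], [], [], []⟩,
    ⟨[], [(0, 0), (0, 2)], [(0, 2)], [], [(0, 2, [4]), (1, 0, [])]⟩,
    ⟨[(0, 1)], [(0, 0), (1, 0), (1, 2)], [(0, 0)], [5, 6], [(1, 0, []), (4, 0, [])]⟩,
    ⟨[(0, 1), (0, 2), (1, 2)], [(0, 0), (0, 1), (0, 4), (2, 0), (2, 1), (2, 4)], [(0, 1),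
      (0, 4), (1, 4)], [], [(4, 0, []), (5, 4, [2]), (6, 1, [])]⟩,
    ⟨[(0, 1), (0, 2), (0, 3), (1, 2), (1, 3), (2, 3)], [(0, 1), (0, 2), (1, 0), (1, 1), (1,
      2), (3, 0), (3, 1), (3, 2), (3, 4)], [(1, 1), (1, 2)], [3], [(0, 2, [4]), (6, 1, []),
      (8, 1, [])]⟩,
    ⟨[(0, 4), (1, 4), (3, 4)], [(3, 1), (4, 1), (4, 2)], [], [3, 7], [(6, 1, [])]⟩]
  Ta := [((1, 0), 0, 2), ((1, 2), 0, 5), ((4, 3), 0, 6), ((4, 5), 0, 4), ((6, 5), 1, 4), ((6, 9),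
    1, 7), ((8, 0), 1, 2), ((8, 7), 1, 3)]
  Tb := [((0, 1, 8), 2, 0, 1), ((1, 0, 2), 0, 2, 5), ((2, 1, 3), 5, 0, 6), ((3, 2, 4), 6, 5, 0),
    ((4, 3, 5), 0, 6, 4), ((5, 4, 6), 4, 0, 1), ((6, 5, 9), 1, 4, 7), ((7, 8, 9), 3, 1, 7),
    ((8, 0, 7), 1, 2, 3), ((9, 6, 7), 7, 1, 3)]
  Tc := []
  Td := [((2, 4), (0, 1), 0), ((2, 4), (0, 8), 1), ((4, 2), (5, 4), 0), ((4, 2), (5, 6), 1)]
  G := [[0, 0x6426426426caea82a82a8886ec1, 0x441291c1295c195c1ce2, 0,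
    0x45942c5945151c8dca884223], [0, 0x1424d1c2a8271c1bcaec1, 0x92c1225c192c1c62,
    0x912435128322c1e48, 0x63942c29421d2c5ca2], [0, 0x44226c26444aea2c2882a8a2c6ec1, 0, 0,
    0x5148d5459c4594ec844888c884e92], [0, 0x64216c239c16c6e1828c1, 0,
    0xd852225229c225229ce1828c1, 0x3a942121c8ec294e21]]

noncomputable def n474 : Ent := ⟨e474, noF, [], [], []⟩

def c474 : PLift (Cov.check n474.C.D v474 = true) := ⟨by decide +kernel⟩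

def b474 : PLift (entF (fidx ts) 400 474 n474 = true) := ⟨by decide +kernel⟩

theorem g474 : GoodF (fidx ts) 400 474 := GoodF.ofV v474 n474 c474.down b474.down

/-- 457685:415/1 -/
noncomputable def e475 : SCfg where
  D := {
    a := 6
    L := 10
    kp := 7
    inn := [(0, 1), (0, 2), (0, 3), (0, 4), (1, 0), (1, 2), (1, 4), (2, 0), (2, 1), (2, 3), (3, 0), (3,
      2), (3, 4), (4, 0), (4, 1), (4, 3), (4, 5), (5, 4)]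
    mix := [(1, 0), (1, 1), (2, 1), (2, 2), (2, 3), (2, 4), (3, 4), (3, 5), (3, 6), (4, 0), (4, 6), (4,
      7), (4, 8), (5, 2), (5, 6), (5, 7), (5, 9)]
    cl := [1, 0, 2, 5, 0, 4, 3, 3, 6, 7]
    chq := [(1, 3), (1, 4), (3, 1), (4, 1)]
    rng := [(0, 1), (0, 8), (1, 0), (1, 2), (2, 1), (2, 3), (2, 7), (2, 9), (3, 2), (3, 4), (4, 3), (4,
      5), (5, 4), (5, 6), (6, 5), (6, 9), (7, 2), (7, 8), (8, 0), (8, 7), (9, 2), (9, 6)]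
    lev := [] }
  links := [[1, 2, 3, 4], [2, 0, 4, 6, 7], [3, 0, 1, 7, 8, 9, 10], [4, 0, 2, 10, 11, 12], [6, 1, 0, 3,
    12, 5, 13, 14], [13, 4, 12, 15, 8]]
  P := {
    a := 6
    N := 16
    nb := [30, 213, 1931, 7189, 28779, 45328, 16530, 326, 41636, 1284, 2572, 5128, 34872, 16688, 8272,
      4384]
    tri := [(0, 1, 2), (0, 1, 4), (0, 2, 3), (0, 3, 4), (1, 2, 7), (1, 4, 6), (1, 6, 7), (2, 3, 10),
      (2, 7, 8), (2, 8, 9), (2, 9, 10), (3, 4, 12), (3, 10, 11), (3, 11, 12), (4, 5, 12), (4, 5,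
      13), (4, 6, 14), (4, 13, 14), (5, 8, 13), (5, 8, 15), (5, 12, 15)]
    fin := [0, 0, 2, 0, 4, 5, 0, 2, 5, 9, 2, 11, 4, 4, 14, 15]
    chd := [(0, 4), (0, 11)]
    steps := [(0, 1), (0, 3), (0, 6), (2, 7), (2, 10), (4, 12), (4, 13), (5, 8)] }
  rep := [2, 0, 5, 4, 11, 9, 14, 15]

noncomputable def v475 : Cov.CovD where
  P := 3
  N := 5
  pl := [2, 3, 8, 9]
  lev := [⟨[], [], [], [], []⟩,
    ⟨[], [(0, 0), (0, 1)], [(0, 1)], [], [(0, 1, [3, 4]), (1, 0, [])]⟩,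
    ⟨[(0, 1)], [(0, 0), (1, 0), (1, 1)], [(0, 0)], [2, 5], [(1, 0, []), (4, 0, [])]⟩,
    ⟨[(0, 1), (0, 2), (1, 2)], [(0, 0), (0, 3), (0, 4), (2, 0), (2, 3), (2, 4)], [(0, 3),
      (0, 4), (3, 4)], [], [(4, 0, []), (5, 4, [1]), (6, 3, [1])]⟩,
    ⟨[(0, 1), (0, 2), (0, 3), (1, 2), (1, 3), (2, 3)], [(0, 1), (0, 3), (1, 0), (1, 1), (1,
      3), (3, 0), (3, 1), (3, 3), (3, 4)], [(1, 3), (3, 3)], [6], [(0, 1, [3, 4]), (6, 3,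
      [1]), (7, 3, [1])]⟩,
    ⟨[(0, 4), (1, 4), (3, 4)], [(3, 3), (4, 1), (4, 3)], [(3, 3)], [2, 7], [(6, 3, [1]),
      (7, 3, [1])]⟩]
  Ta := [((1, 0), 0, 1), ((1, 2), 0, 2), ((4, 3), 0, 5), ((4, 5), 0, 4), ((6, 5), 3, 4), ((6, 9),
    3, 7), ((7, 2), 3, 2), ((7, 8), 3, 6)]
  Tb := [((0, 1, 8), 1, 0, 6), ((1, 0, 2), 0, 1, 2), ((2, 1, 3), 2, 0, 5), ((2, 1, 7), 2, 0, 3),
    ((2, 1, 9), 2, 0, 7), ((2, 3, 7), 2, 5, 3), ((2, 3, 9), 2, 5, 7), ((2, 7, 9), 2, 3, 7),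
    ((3, 2, 4), 5, 2, 0), ((4, 3, 5), 0, 5, 4), ((5, 4, 6), 4, 0, 3), ((6, 5, 9), 3, 4, 7),
    ((7, 2, 8), 3, 2, 6), ((8, 0, 7), 6, 1, 3), ((9, 2, 6), 7, 2, 3)]
  Tc := [(1, 3, 4)]
  Td := [((1, 3), (0, 1), 0), ((1, 3), (0, 8), 6), ((1, 4), (0, 1), 0), ((1, 4), (0, 8), 6), ((3,
    1), (6, 5), 4), ((3, 1), (6, 9), 7), ((3, 1), (7, 2), 2), ((3, 1), (7, 8), 6), ((4, 1),
    (5, 4), 0), ((4, 1), (5, 6), 3)]
  G := [[0, 0x5d6115de1c2981881c4a, 0x6e52642ca82ae92cc1, 0xdd5248dd9284d428d824cd,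
    0xb35231a356aa82882ac3aca88bcd246], [0, 0x5d6145d618a981981c2a, 0x6e52e4168a8161a1e8d64a,
    0xd12d12c4d42d42cd82d82cc9, 0xb42b962b92a3deaa39288983ac4], [0, 0, 0,
    0xd124d42d42c9dd928d8245c, 0xb352995233daab4425a82b12b886a49], [0, 0, 0,
    0xd124d425dc2c5dd92888245c, 0xb35284bb5a95c28a82b8a86a4b]]

noncomputable def n475 : Ent := ⟨e475, noF, [], [], []⟩

def c475 : PLift (Cov.check n475.C.D v475 = true) := ⟨by decide +kernel⟩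

def b475 : PLift (entF (fidx ts) 400 475 n475 = true) := ⟨by decide +kernel⟩

theorem g475 : GoodF (fidx ts) 400 475 := GoodF.ofV v475 n475 c475.down b475.down

/-- 457685:415/3 -/
noncomputable def e476 : SCfg where
  D := {
    a := 6
    L := 9
    kp := 6
    inn := [(0, 1), (0, 2), (0, 3), (0, 4), (1, 0), (1, 2), (1, 4), (2, 0), (2, 1), (2, 3), (3, 0), (3,
      2), (3, 4), (4, 0), (4, 1), (4, 3), (4, 5), (5, 4)]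
    mix := [(1, 0), (1, 1), (2, 1), (2, 2), (2, 3), (2, 4), (3, 4), (3, 5), (3, 6), (4, 0), (4, 6), (4,
      7), (4, 8), (5, 3), (5, 5), (5, 6), (5, 7)]
    cl := [3, 1, 5, 2, 1, 4, 0, 0, 6]
    chq := [(0, 3), (3, 0), (3, 4), (4, 3)]
    rng := [(0, 1), (0, 8), (1, 0), (1, 2), (2, 1), (2, 3), (3, 2), (3, 4), (3, 5), (3, 7), (4, 3), (4,
      5), (5, 3), (5, 4), (5, 6), (6, 5), (7, 3), (7, 8), (8, 0), (8, 7)]
    lev := [] }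
  links := [[1, 2, 3, 4], [2, 0, 4, 6, 7], [3, 0, 1, 7, 8, 9, 10], [4, 0, 2, 10, 11, 12], [6, 1, 0, 3,
    12, 5, 13, 14], [13, 4, 12, 11, 9]]
  P := {
    a := 6
    N := 15
    nb := [30, 213, 1931, 7189, 28779, 14864, 16530, 326, 644, 11556, 2572, 5672, 2104, 16944, 8272]
    tri := [(0, 1, 2), (0, 1, 4), (0, 2, 3), (0, 3, 4), (1, 2, 7), (1, 4, 6), (1, 6, 7), (2, 3, 10),
      (2, 7, 8), (2, 8, 9), (2, 9, 10), (3, 4, 12), (3, 10, 11), (3, 11, 12), (4, 5, 12), (4, 5,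
      13), (4, 6, 14), (4, 13, 14), (5, 9, 11), (5, 9, 13), (5, 11, 12)]
    fin := [0, 0, 2, 0, 0, 5, 0, 2, 8, 9, 2, 11, 5, 5, 14]
    chd := [(0, 5), (0, 11)]
    steps := [(0, 1), (0, 3), (0, 4), (0, 6), (2, 7), (2, 10), (5, 12), (5, 13)] }
  rep := [5, 2, 9, 0, 11, 8, 14]

noncomputable def v476 : Cov.CovD where
  P := 3
  N := 4
  pl := [2, 3, 8]
  lev := [⟨[], [], [], [], []⟩,
    ⟨[], [(0, 1), (0, 3)], [(1, 3)], [], [(0, 3, [0, 4]), (1, 1, [])]⟩,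
    ⟨[(0, 1)], [(0, 1), (1, 1), (1, 3)], [(1, 1)], [2, 5], [(1, 1, []), (4, 1, [])]⟩,
    ⟨[(0, 1), (0, 2), (1, 2)], [(0, 0), (0, 1), (0, 4), (2, 0), (2, 1), (2, 4)], [(0, 1),
      (0, 4), (1, 4)], [], [(4, 1, []), (5, 4, [3]), (6, 0, [3])]⟩,
    ⟨[(0, 1), (0, 2), (0, 3), (1, 2), (1, 3), (2, 3)], [(0, 0), (0, 3), (1, 0), (1, 1), (1,
      3), (3, 0), (3, 1), (3, 3), (3, 4)], [(0, 0), (0, 3)], [6], [(0, 3, [0, 4]), (6, 0,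
      [3]), (7, 0, [3])]⟩,
    ⟨[(0, 4), (1, 4), (3, 4)], [(3, 0), (3, 4), (4, 0), (4, 3), (4, 4)], [(0, 0), (0, 4)],
      [2], [(5, 4, [3]), (6, 0, [3]), (7, 0, [3])]⟩]
  Ta := [((1, 0), 1, 3), ((1, 2), 1, 5), ((4, 3), 1, 2), ((4, 5), 1, 4), ((6, 5), 0, 4), ((7, 3),
    0, 2), ((7, 8), 0, 6)]
  Tb := [((0, 1, 8), 3, 1, 6), ((1, 0, 2), 1, 3, 5), ((2, 1, 3), 5, 1, 2), ((3, 2, 4), 2, 5, 1),
    ((3, 2, 5), 2, 5, 4), ((3, 2, 7), 2, 5, 0), ((3, 4, 5), 2, 1, 4), ((3, 4, 7), 2, 1, 0),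
    ((3, 5, 7), 2, 4, 0), ((4, 3, 5), 1, 2, 4), ((5, 3, 4), 4, 2, 1), ((5, 3, 6), 4, 2, 0),
    ((5, 4, 6), 4, 1, 0), ((7, 3, 8), 0, 2, 6), ((8, 0, 7), 6, 3, 0)]
  Tc := [(3, 0, 4)]
  Td := [((0, 3), (6, 5), 4), ((0, 3), (7, 3), 2), ((0, 3), (7, 8), 6), ((3, 0), (0, 1), 1), ((3,
    0), (0, 8), 6), ((3, 4), (0, 1), 1), ((3, 4), (0, 8), 6), ((4, 3), (5, 3), 2), ((4, 3),
    (5, 4), 1), ((4, 3), (5, 6), 0)]
  G := [[0, 0x442c42cc88e2c82c484e488644acce1, 0, 0, 0x822222ce22a4918222ca145], [0,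
    0x88644a84ce88644a84cec12, 0, 0x88644ac88644acc12, 0x224128ca8c1886a2ac8289b4], [0,
    0xc46248c466cc82882c88648c8868ce1, 0x24141222e122a1c1c, 0, 0x2222c61222e18268994], [0,
    0x48684accce88644a84cec12, 0x48ce148ce1c12, 0x48ce148ce1c12, 0x88622ac1a8ae1a8688c994]]

noncomputable def n476 : Ent := ⟨e476, noF, [], [], []⟩

def c476 : PLift (Cov.check n476.C.D v476 = true) := ⟨by decide +kernel⟩

def b476 : PLift (entF (fidx ts) 400 476 n476 = true) := ⟨by decide +kernel⟩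

theorem g476 : GoodF (fidx ts) 400 476 := GoodF.ofV v476 n476 c476.down b476.down

/-- 457685:415/2 -/
noncomputable def e477 : SCfg where
  D := {
    a := 6
    L := 10
    kp := 7
    inn := [(0, 1), (0, 2), (0, 3), (0, 4), (1, 0), (1, 2), (1, 4), (2, 0), (2, 1), (2, 3), (3, 0), (3,
      2), (3, 4), (4, 0), (4, 1), (4, 3), (4, 5), (5, 4)]
    mix := [(1, 0), (1, 1), (2, 1), (2, 2), (2, 3), (2, 4), (3, 4), (3, 5), (3, 6), (4, 0), (4, 6), (4,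
      7), (4, 8), (5, 3), (5, 6), (5, 7), (5, 9)]
    cl := [3, 1, 5, 2, 1, 4, 0, 0, 6, 7]
    chq := [(0, 3), (3, 0), (3, 4), (4, 3)]
    rng := [(0, 1), (0, 8), (1, 0), (1, 2), (2, 1), (2, 3), (3, 2), (3, 4), (3, 7), (3, 9), (4, 3), (4,
      5), (5, 4), (5, 6), (6, 5), (6, 9), (7, 3), (7, 8), (8, 0), (8, 7), (9, 3), (9, 6)]
    lev := [] }
  links := [[1, 2, 3, 4], [2, 0, 4, 6, 7], [3, 0, 1, 7, 8, 9, 10], [4, 0, 2, 10, 11, 12], [6, 1, 0, 3,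
    12, 5, 13, 14], [13, 4, 12, 15, 9]]
  P := {
    a := 6
    N := 16
    nb := [30, 213, 1931, 7189, 28779, 45584, 16530, 326, 644, 42276, 2572, 5128, 34872, 16944, 8272,
      4640]
    tri := [(0, 1, 2), (0, 1, 4), (0, 2, 3), (0, 3, 4), (1, 2, 7), (1, 4, 6), (1, 6, 7), (2, 3, 10),
      (2, 7, 8), (2, 8, 9), (2, 9, 10), (3, 4, 12), (3, 10, 11), (3, 11, 12), (4, 5, 12), (4, 5,
      13), (4, 6, 14), (4, 13, 14), (5, 9, 13), (5, 9, 15), (5, 12, 15)]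
    fin := [0, 0, 2, 0, 4, 5, 0, 2, 8, 5, 2, 11, 4, 4, 14, 15]
    chd := [(0, 4), (0, 11)]
    steps := [(0, 1), (0, 3), (0, 6), (2, 7), (2, 10), (4, 12), (4, 13), (5, 9)] }
  rep := [4, 2, 5, 0, 11, 8, 14, 15]

noncomputable def v477 : Cov.CovD where
  P := 3
  N := 5
  pl := [2, 3, 8, 9]
  lev := [⟨[], [], [], [], []⟩,
    ⟨[], [(0, 1), (0, 3)], [(1, 3)], [], [(0, 3, [0, 4]), (1, 1, [])]⟩,
    ⟨[(0, 1)], [(0, 1), (1, 1), (1, 3)], [(1, 1)], [2, 5], [(1, 1, []), (4, 1, [])]⟩,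
    ⟨[(0, 1), (0, 2), (1, 2)], [(0, 0), (0, 1), (0, 4), (2, 0), (2, 1), (2, 4)], [(0, 1),
      (0, 4), (1, 4)], [], [(4, 1, []), (5, 4, [3]), (6, 0, [3])]⟩,
    ⟨[(0, 1), (0, 2), (0, 3), (1, 2), (1, 3), (2, 3)], [(0, 0), (0, 3), (1, 0), (1, 1), (1,
      3), (3, 0), (3, 1), (3, 3), (3, 4)], [(0, 0), (0, 3)], [6], [(0, 3, [0, 4]), (6, 0,
      [3]), (7, 0, [3])]⟩,
    ⟨[(0, 4), (1, 4), (3, 4)], [(3, 0), (4, 0), (4, 3)], [(0, 0)], [2, 7], [(6, 0, [3]),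
      (7, 0, [3])]⟩]
  Ta := [((1, 0), 1, 3), ((1, 2), 1, 5), ((4, 3), 1, 2), ((4, 5), 1, 4), ((6, 5), 0, 4), ((6, 9),
    0, 7), ((7, 3), 0, 2), ((7, 8), 0, 6)]
  Tb := [((0, 1, 8), 3, 1, 6), ((1, 0, 2), 1, 3, 5), ((2, 1, 3), 5, 1, 2), ((3, 2, 4), 2, 5, 1),
    ((3, 2, 7), 2, 5, 0), ((3, 2, 9), 2, 5, 7), ((3, 4, 7), 2, 1, 0), ((3, 4, 9), 2, 1, 7),
    ((3, 7, 9), 2, 0, 7), ((4, 3, 5), 1, 2, 4), ((5, 4, 6), 4, 1, 0), ((6, 5, 9), 0, 4, 7),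
    ((7, 3, 8), 0, 2, 6), ((8, 0, 7), 6, 3, 0), ((9, 3, 6), 7, 2, 0)]
  Tc := [(3, 0, 4)]
  Td := [((0, 3), (6, 5), 4), ((0, 3), (6, 9), 7), ((0, 3), (7, 3), 2), ((0, 3), (7, 8), 6), ((3,
    0), (0, 1), 1), ((3, 0), (0, 8), 6), ((3, 4), (0, 1), 1), ((3, 4), (0, 8), 6), ((4, 3),
    (5, 4), 1), ((4, 3), (5, 6), 0)]
  G := [[0, 0x442484cc6cc8c2882ccc6ccaccc68cacce1, 0, 0, 0xa2a2aacea2aaac91aac2145], [0,
    0xc2c46cc64cacc1cc6c8c8e88ccc6c1a, 0, 0xcc6c8cec4cceccacc12,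
    0xa2aaaca289182a2c1a484c2aca8c9a5], [0, 0x4424cce2cc8ce2882cc4ccac4cce88cce1,
    0x6ace166ce1c12, 0, 0xa2822ace1aa61a2495a82a8291c], [0, 0xc2481cc6c8cccecc6ccacccec1a,
    0x6ace16ace1c12, 0xccce1ccce1c12, 0xaa6181a241aa681a84a849e9]]

noncomputable def n477 : Ent := ⟨e477, noF, [], [], [(11, 15, [360035742630636841211993100915356868655746945586763691009622017, 0])]⟩

def c477 : PLift (Cov.check n477.C.D v477 = true) := ⟨by decide +kernel⟩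

def b477 : PLift (entF (fidx ts) 400 477 n477 = true) := ⟨by decide +kernel⟩

theorem g477 : GoodF (fidx ts) 400 477 := GoodF.ofV v477 n477 c477.down b477.down

/-- 457685:415/4 -/
noncomputable def e478 : SCfg where
  D := {
    a := 6
    L := 10
    kp := 7
    inn := [(0, 1), (0, 2), (0, 3), (0, 4), (1, 0), (1, 2), (1, 4), (2, 0), (2, 1), (2, 3), (3, 0), (3,
      2), (3, 4), (4, 0), (4, 1), (4, 3), (4, 5), (5, 4)]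
    mix := [(1, 0), (1, 1), (2, 1), (2, 2), (2, 3), (2, 4), (3, 4), (3, 5), (3, 6), (4, 0), (4, 6), (4,
      7), (4, 8), (5, 5), (5, 6), (5, 7), (5, 9)]
    cl := [3, 1, 4, 5, 1, 2, 0, 0, 6, 7]
    chq := [(0, 3), (2, 3), (3, 0), (3, 2)]
    rng := [(0, 1), (0, 8), (1, 0), (1, 2), (2, 1), (2, 3), (3, 2), (3, 4), (4, 3), (4, 5), (5, 4), (5,
      6), (5, 9), (6, 5), (7, 8), (7, 9), (8, 0), (8, 7), (9, 5), (9, 7)]
    lev := [] }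
  links := [[1, 2, 3, 4], [2, 0, 4, 6, 7], [3, 0, 1, 7, 8, 9, 10], [4, 0, 2, 10, 11, 12], [6, 1, 0, 3,
    12, 5, 13, 14], [13, 4, 12, 11, 15]]
  P := {
    a := 6
    N := 16
    nb := [30, 213, 1931, 7189, 28779, 47120, 16530, 326, 644, 1284, 2572, 37928, 2104, 49200, 8272,
      10272]
    tri := [(0, 1, 2), (0, 1, 4), (0, 2, 3), (0, 3, 4), (1, 2, 7), (1, 4, 6), (1, 6, 7), (2, 3, 10),
      (2, 7, 8), (2, 8, 9), (2, 9, 10), (3, 4, 12), (3, 10, 11), (3, 11, 12), (4, 5, 12), (4, 5,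
      13), (4, 6, 14), (4, 13, 14), (5, 11, 12), (5, 11, 15), (5, 13, 15)]
    fin := [0, 0, 2, 0, 0, 5, 0, 2, 8, 9, 2, 11, 5, 5, 14, 15]
    chd := [(0, 5), (0, 11)]
    steps := [(0, 1), (0, 3), (0, 4), (0, 6), (2, 7), (2, 10), (5, 12), (5, 13)] }
  rep := [5, 2, 11, 0, 8, 9, 14, 15]

noncomputable def v478 : Cov.CovD where
  P := 3
  N := 5
  pl := [2, 3, 8, 9]
  lev := [⟨[], [], [], [], []⟩,
    ⟨[], [(0, 1), (0, 3)], [(1, 3)], [], [(0, 3, [0, 2]), (1, 1, [])]⟩,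
    ⟨[(0, 1)], [(0, 1), (1, 1), (1, 3)], [(1, 1)], [4, 5], [(1, 1, []), (4, 1, [])]⟩,
    ⟨[(0, 1), (0, 2), (1, 2)], [(0, 0), (0, 1), (0, 2), (2, 0), (2, 1), (2, 2)], [(0, 1),
      (0, 2), (1, 2)], [], [(4, 1, []), (5, 2, [3]), (6, 0, [3])]⟩,
    ⟨[(0, 1), (0, 2), (0, 3), (1, 2), (1, 3), (2, 3)], [(0, 0), (0, 3), (1, 0), (1, 1), (1,
      3), (3, 0), (3, 1), (3, 2), (3, 3)], [(0, 0), (0, 3)], [6], [(0, 3, [0, 2]), (6, 0,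
      [3]), (7, 0, [3])]⟩,
    ⟨[(0, 4), (1, 4), (3, 4)], [(3, 0), (3, 2), (4, 0), (4, 2), (4, 3)], [(0, 0), (0, 2)],
      [7], [(5, 2, [3]), (6, 0, [3]), (7, 0, [3])]⟩]
  Ta := [((1, 0), 1, 3), ((1, 2), 1, 4), ((4, 3), 1, 5), ((4, 5), 1, 2), ((6, 5), 0, 2), ((7, 8),
    0, 6), ((7, 9), 0, 7)]
  Tb := [((0, 1, 8), 3, 1, 6), ((1, 0, 2), 1, 3, 4), ((2, 1, 3), 4, 1, 5), ((3, 2, 4), 5, 4, 1),
    ((4, 3, 5), 1, 5, 2), ((5, 4, 6), 2, 1, 0), ((5, 4, 9), 2, 1, 7), ((5, 6, 9), 2, 0, 7),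
    ((7, 8, 9), 0, 6, 7), ((8, 0, 7), 6, 3, 0), ((9, 5, 7), 7, 2, 0)]
  Tc := [(3, 0, 2)]
  Td := [((0, 3), (6, 5), 2), ((0, 3), (7, 8), 6), ((0, 3), (7, 9), 7), ((2, 3), (5, 4), 1), ((2,
    3), (5, 6), 0), ((2, 3), (5, 9), 7), ((3, 0), (0, 1), 1), ((3, 0), (0, 8), 6), ((3, 2),
    (0, 1), 1), ((3, 2), (0, 8), 6)]
  G := [[0, 0xc24284c2c2cc6c8cc4ccac44c88cee1, 0xc6aa46116ace46cae8c15, 0,
    0xaa628a1a42a22acac5a2a8a882882d49], [0, 0x8c6c8cc288ca4e1448c4c8c4cc8e25,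
    0xaace46cce8aace4d12, 0x48ce81c4ccaccc6c8c44ccacd52, 0xa28a28a28da48a48a48d61], [0,
    0xc2428c682cc6c8c4cce88c44c8cee1, 0, 0, 0xaa61aa6289c1a82882a2aacad49], [0,
    0xcc68c44cac61cc6c8cc84884e1a, 0, 0x48ce81ccce1ccce144ce88cd52, 0xa28a284aae8da48a48c61]]

noncomputable def n478 : Ent := ⟨e478, noF, [], [], [(9, 15, [360035742630636841211993100915356868655746945586763691009622017, 0])]⟩

def c478 : PLift (Cov.check n478.C.D v478 = true) := ⟨by decide +kernel⟩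

def b478 : PLift (entF (fidx ts) 400 478 n478 = true) := ⟨by decide +kernel⟩

theorem g478 : GoodF (fidx ts) 400 478 := GoodF.ofV v478 n478 c478.down b478.down

/-- 457685:415 -/
noncomputable def e479 : SCfg where
  D := {
    a := 6
    L := 11
    kp := 8
    inn := [(0, 1), (0, 2), (0, 3), (0, 4), (1, 0), (1, 2), (1, 4), (2, 0), (2, 1), (2, 3), (3, 0), (3,
      2), (3, 4), (4, 0), (4, 1), (4, 3), (4, 5), (5, 4)]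
    mix := [(1, 0), (1, 1), (2, 1), (2, 2), (2, 3), (2, 4), (3, 4), (3, 5), (3, 6), (4, 0), (4, 6), (4,
      7), (4, 8), (5, 6), (5, 7), (5, 9), (5, 10)]
    cl := [1, 0, 2, 5, 0, 4, 3, 3, 6, 7, 8]
    chq := [(1, 3), (1, 4), (3, 1), (4, 1)]
    rng := [(0, 1), (0, 8), (1, 0), (1, 2), (2, 1), (2, 3), (3, 2), (3, 4), (4, 3), (4, 5), (5, 4), (5,
      6), (6, 5), (6, 9), (7, 8), (7, 10), (8, 0), (8, 7), (9, 6), (9, 10), (10, 7), (10, 9)]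
    lev := [] }
  links := [[1, 2, 3, 4], [2, 0, 4, 6, 7], [3, 0, 1, 7, 8, 9, 10], [4, 0, 2, 10, 11, 12], [6, 1, 0, 3,
    12, 5, 13, 14], [13, 4, 12, 15, 16]]
  P := {
    a := 6
    N := 17
    nb := [30, 213, 1931, 7189, 28779, 110608, 16530, 326, 644, 1284, 2572, 5128, 34872, 81968, 8272,
      69664, 40992]
    tri := [(0, 1, 2), (0, 1, 4), (0, 2, 3), (0, 3, 4), (1, 2, 7), (1, 4, 6), (1, 6, 7), (2, 3, 10),
      (2, 7, 8), (2, 8, 9), (2, 9, 10), (3, 4, 12), (3, 10, 11), (3, 11, 12), (4, 5, 12), (4, 5,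
      13), (4, 6, 14), (4, 13, 14), (5, 12, 15), (5, 13, 16), (5, 15, 16)]
    fin := [0, 0, 2, 0, 0, 5, 0, 2, 8, 9, 2, 11, 5, 5, 14, 15, 16]
    chd := [(0, 5), (0, 11)]
    steps := [(0, 1), (0, 3), (0, 4), (0, 6), (2, 7), (2, 10), (5, 12), (5, 13)] }
  rep := [2, 0, 8, 5, 11, 9, 14, 15, 16]

noncomputable def v479 : Cov.CovD where
  P := 3
  N := 6
  pl := [2, 3, 8, 9, 10]
  lev := [⟨[], [], [], [], []⟩,
    ⟨[], [(0, 0), (0, 1)], [(0, 1)], [], [(0, 1, [3, 4]), (1, 0, [])]⟩,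
    ⟨[(0, 1)], [(0, 0), (1, 0), (1, 1)], [(0, 0)], [2, 5], [(1, 0, []), (4, 0, [])]⟩,
    ⟨[(0, 1), (0, 2), (1, 2)], [(0, 0), (0, 3), (0, 4), (2, 0), (2, 3), (2, 4)], [(0, 3),
      (0, 4), (3, 4)], [], [(4, 0, []), (5, 4, [1]), (6, 3, [1])]⟩,
    ⟨[(0, 1), (0, 2), (0, 3), (1, 2), (1, 3), (2, 3)], [(0, 1), (0, 3), (1, 0), (1, 1), (1,
      3), (3, 0), (3, 1), (3, 3), (3, 4)], [(1, 3), (3, 3)], [6], [(0, 1, [3, 4]), (6, 3,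
      [1]), (7, 3, [1])]⟩,
    ⟨[(0, 4), (1, 4), (3, 4)], [(3, 3), (4, 1), (4, 3)], [(3, 3)], [7, 8], [(6, 3, [1]),
      (7, 3, [1])]⟩]
  Ta := [((1, 0), 0, 1), ((1, 2), 0, 2), ((4, 3), 0, 5), ((4, 5), 0, 4), ((6, 5), 3, 4), ((6, 9),
    3, 7), ((7, 8), 3, 6), ((7, 10), 3, 8)]
  Tb := [((0, 1, 8), 1, 0, 6), ((1, 0, 2), 0, 1, 2), ((2, 1, 3), 2, 0, 5), ((3, 2, 4), 5, 2, 0),
    ((4, 3, 5), 0, 5, 4), ((5, 4, 6), 4, 0, 3), ((6, 5, 9), 3, 4, 7), ((7, 8, 10), 3, 6, 8),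
    ((8, 0, 7), 6, 1, 3), ((9, 6, 10), 7, 3, 8), ((10, 7, 9), 8, 3, 7)]
  Tc := [(1, 3, 4)]
  Td := [((1, 3), (0, 1), 0), ((1, 3), (0, 8), 6), ((1, 4), (0, 1), 0), ((1, 4), (0, 8), 6), ((3,
    1), (6, 5), 4), ((3, 1), (6, 9), 7), ((3, 1), (7, 8), 6), ((3, 1), (7, 10), 8), ((4, 1),
    (5, 4), 0), ((4, 1), (5, 6), 3)]
  G := [[0, 0xf2142218cd21f41cffc1f81caa, 0x112f12c85e52f42cfac2f82cc5,
    0xf12112c8f42fe52cf82f82cc5, 0x2e97b5e52ef9183ef92acf422ce7e4aa85], [0,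
    0xf21f21cc413fc1c6f3c1c81c2c, 0x112112c4fe527fed2cf82882cc9, 0x1124ff928cf423fed2cc824c5,
    0xaf528f82f1e19aac542f4798ef64ea85], [0, 0, 0, 0x112f12cfbc2f82c94e52f42c85,
    0x112f1215aa87425b5ef546af8ed2788ebe9aac5], [0, 0, 0, 0x1124ff928cf42fe52cf824c5,
    0x11116ff57afdca8fe52442af8282e8aac3]]

noncomputable def n479 : Ent := ⟨e479, noF, [], [], [(8, 16, [1580044410770988437309982408355971841652082177953823432505691058177, 0]), (9, 16, [1580044410770988437309982408355971841652082177953823432505691066369, 0]), (11, 15, [1685356702439545624007900436039642273970977273354372543760002048001, 0])]⟩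

def c479 : PLift (Cov.check n479.C.D v479 = true) := ⟨by decide +kernel⟩

def b479 : PLift (entF (fidx ts) 400 479 n479 = true) := ⟨by decide +kernel⟩

theorem g479 : GoodF (fidx ts) 400 479 := GoodF.ofV v479 n479 c479.down b479.down

/-- 457684:416/1 -/
noncomputable def e480 : SCfg where
  D := {
    a := 6
    L := 9
    kp := 6
    inn := [(0, 1), (0, 2), (0, 3), (0, 4), (1, 0), (1, 2), (1, 4), (2, 0), (2, 1), (2, 3), (3, 0), (3,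
      2), (3, 4), (4, 0), (4, 1), (4, 3), (4, 5), (5, 4)]
    mix := [(1, 0), (1, 1), (2, 1), (2, 2), (2, 3), (2, 4), (3, 4), (3, 5), (3, 6), (4, 0), (4, 6), (4,
      7), (4, 8), (5, 2), (5, 7), (5, 8)]
    cl := [1, 0, 2, 6, 0, 5, 3, 4, 3]
    chq := [(1, 5), (5, 1)]
    rng := [(0, 1), (0, 8), (1, 0), (1, 2), (2, 1), (2, 3), (2, 7), (2, 8), (3, 2), (3, 4), (4, 3), (4,
      5), (5, 4), (5, 6), (6, 5), (6, 7), (7, 2), (7, 6), (8, 0), (8, 2)]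
    lev := [] }
  links := [[1, 2, 3, 4], [2, 0, 4, 6, 7], [3, 0, 1, 7, 8, 9, 10], [4, 0, 2, 10, 11, 12], [6, 1, 0, 3,
    12, 13, 5, 14], [14, 4, 13, 8]]
  P := {
    a := 6
    N := 15
    nb := [30, 213, 1931, 7189, 28779, 24848, 16530, 326, 25252, 1284, 2572, 5128, 10264, 4400, 368]
    tri := [(0, 1, 2), (0, 1, 4), (0, 2, 3), (0, 3, 4), (1, 2, 7), (1, 4, 6), (1, 6, 7), (2, 3, 10),
      (2, 7, 8), (2, 8, 9), (2, 9, 10), (3, 4, 12), (3, 10, 11), (3, 11, 12), (4, 5, 13), (4, 5,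
      14), (4, 6, 14), (4, 12, 13), (5, 8, 13), (5, 8, 14)]
    fin := [0, 0, 2, 0, 4, 5, 0, 2, 5, 9, 2, 11, 4, 13, 4]
    chd := [(0, 11)]
    steps := [(0, 1), (0, 3), (0, 6), (2, 7), (2, 10), (4, 12), (4, 14), (5, 8)] }
  rep := [2, 0, 5, 4, 13, 11, 9]

noncomputable def v480 : Cov.CovD where
  P := 3
  N := 4
  pl := [2, 3, 7]
  lev := [⟨[], [], [], [], []⟩,
    ⟨[], [(0, 0), (0, 1)], [(0, 1)], [], [(0, 1, [5]), (1, 0, [])]⟩,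
    ⟨[(0, 1)], [(0, 0), (1, 0), (1, 1)], [(0, 0)], [2, 6], [(1, 0, []), (4, 0, [])]⟩,
    ⟨[(0, 1), (0, 2), (1, 2)], [(0, 0), (0, 3), (0, 5), (2, 0), (2, 3), (2, 5)], [(0, 3),
      (0, 5), (3, 5)], [], [(4, 0, []), (5, 5, [1]), (6, 3, [])]⟩,
    ⟨[(0, 1), (0, 2), (0, 3), (1, 2), (1, 3), (2, 3)], [(0, 1), (0, 3), (1, 0), (1, 1), (1,
      3), (3, 0), (3, 1), (3, 3), (3, 5)], [(1, 3), (3, 3)], [4], [(0, 1, [5]), (6, 3, []),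
      (8, 3, [])]⟩,
    ⟨[(0, 4), (1, 4), (3, 4)], [(4, 1), (4, 3)], [], [2, 4], [(8, 3, [])]⟩]
  Ta := [((1, 0), 0, 1), ((1, 2), 0, 2), ((4, 3), 0, 6), ((4, 5), 0, 5), ((6, 5), 3, 5), ((6, 7),
    3, 4), ((8, 0), 3, 1), ((8, 2), 3, 2)]
  Tb := [((0, 1, 8), 1, 0, 3), ((1, 0, 2), 0, 1, 2), ((2, 1, 3), 2, 0, 6), ((2, 1, 7), 2, 0, 4),
    ((2, 1, 8), 2, 0, 3), ((2, 3, 7), 2, 6, 4), ((2, 3, 8), 2, 6, 3), ((2, 7, 8), 2, 4, 3),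
    ((3, 2, 4), 6, 2, 0), ((4, 3, 5), 0, 6, 5), ((5, 4, 6), 5, 0, 3), ((6, 5, 7), 3, 5, 4),
    ((7, 2, 6), 4, 2, 3), ((8, 0, 2), 3, 1, 2)]
  Tc := []
  Td := [((1, 5), (0, 1), 0), ((1, 5), (0, 8), 3), ((5, 1), (5, 4), 0), ((5, 1), (5, 6), 3)]
  G := [[0, 0x815e181a1c441462, 0xc12c12c41, 0x54cd2489cd28c1, 0x828d2198b198d6a41], [0,
    0x4161149e1c8818a2, 0xe12e12c41, 0x112481928c442442c8824c5,
    0x215288114248822bad8824ea47], [0, 0, 0, 0x4424c52c8c92882cc1, 0x98528882898b828d6ac1],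
    [0, 0, 0, 0x415241128c4428882882cc9, 0xa15215c28832d22888ca43]]

noncomputable def n480 : Ent := ⟨e480, noF, [], [], []⟩

def c480 : PLift (Cov.check n480.C.D v480 = true) := ⟨by decide +kernel⟩

def b480 : PLift (entF (fidx ts) 400 480 n480 = true) := ⟨by decide +kernel⟩

theorem g480 : GoodF (fidx ts) 400 480 := GoodF.ofV v480 n480 c480.down b480.down

/-- 457684:416/2 -/
noncomputable def e481 : SCfg where
  D := {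
    a := 6
    L := 9
    kp := 6
    inn := [(0, 1), (0, 2), (0, 3), (0, 4), (1, 0), (1, 2), (1, 4), (2, 0), (2, 1), (2, 3), (3, 0), (3,
      2), (3, 4), (4, 0), (4, 1), (4, 3), (4, 5), (5, 4)]
    mix := [(1, 0), (1, 1), (2, 1), (2, 2), (2, 3), (2, 4), (3, 4), (3, 5), (3, 6), (4, 0), (4, 6), (4,
      7), (4, 8), (5, 3), (5, 7), (5, 8)]
    cl := [1, 0, 6, 2, 0, 5, 3, 4, 3]
    chq := [(1, 5), (5, 1)]
    rng := [(0, 1), (0, 8), (1, 0), (1, 2), (2, 1), (2, 3), (3, 2), (3, 4), (3, 7), (3, 8), (4, 3), (4,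
      5), (5, 4), (5, 6), (6, 5), (6, 7), (7, 3), (7, 6), (8, 0), (8, 3)]
    lev := [] }
  links := [[1, 2, 3, 4], [2, 0, 4, 6, 7], [3, 0, 1, 7, 8, 9, 10], [4, 0, 2, 10, 11, 12], [6, 1, 0, 3,
    12, 13, 5, 14], [14, 4, 13, 9]]
  P := {
    a := 6
    N := 15
    nb := [30, 213, 1931, 7189, 28779, 25104, 16530, 326, 644, 25892, 2572, 5128, 10264, 4656, 624]
    tri := [(0, 1, 2), (0, 1, 4), (0, 2, 3), (0, 3, 4), (1, 2, 7), (1, 4, 6), (1, 6, 7), (2, 3, 10),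
      (2, 7, 8), (2, 8, 9), (2, 9, 10), (3, 4, 12), (3, 10, 11), (3, 11, 12), (4, 5, 13), (4, 5,
      14), (4, 6, 14), (4, 12, 13), (5, 9, 13), (5, 9, 14)]
    fin := [0, 0, 2, 0, 4, 5, 0, 2, 8, 5, 2, 11, 4, 13, 4]
    chd := [(0, 11)]
    steps := [(0, 1), (0, 3), (0, 6), (2, 7), (2, 10), (4, 12), (4, 14), (5, 9)] }
  rep := [2, 0, 5, 4, 13, 11, 8]

noncomputable def v481 : Cov.CovD where
  P := 3
  N := 4
  pl := [2, 3, 7]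
  lev := [⟨[], [], [], [], []⟩,
    ⟨[], [(0, 0), (0, 1)], [(0, 1)], [], [(0, 1, [5]), (1, 0, [])]⟩,
    ⟨[(0, 1)], [(0, 0), (1, 0), (1, 1)], [(0, 0)], [2, 6], [(1, 0, []), (4, 0, [])]⟩,
    ⟨[(0, 1), (0, 2), (1, 2)], [(0, 0), (0, 3), (0, 5), (2, 0), (2, 3), (2, 5)], [(0, 3),
      (0, 5), (3, 5)], [], [(4, 0, []), (5, 5, [1]), (6, 3, [])]⟩,
    ⟨[(0, 1), (0, 2), (0, 3), (1, 2), (1, 3), (2, 3)], [(0, 1), (0, 3), (1, 0), (1, 1), (1,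
      3), (3, 0), (3, 1), (3, 3), (3, 5)], [(1, 3), (3, 3)], [4], [(0, 1, [5]), (6, 3, []),
      (8, 3, [])]⟩,
    ⟨[(0, 4), (1, 4), (3, 4)], [(4, 1), (4, 3)], [], [2, 4], [(8, 3, [])]⟩]
  Ta := [((1, 0), 0, 1), ((1, 2), 0, 6), ((4, 3), 0, 2), ((4, 5), 0, 5), ((6, 5), 3, 5), ((6, 7),
    3, 4), ((8, 0), 3, 1), ((8, 3), 3, 2)]
  Tb := [((0, 1, 8), 1, 0, 3), ((1, 0, 2), 0, 1, 6), ((2, 1, 3), 6, 0, 2), ((3, 2, 4), 2, 6, 0),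
    ((3, 2, 7), 2, 6, 4), ((3, 2, 8), 2, 6, 3), ((3, 4, 7), 2, 0, 4), ((3, 4, 8), 2, 0, 3),
    ((3, 7, 8), 2, 4, 3), ((4, 3, 5), 0, 2, 5), ((5, 4, 6), 5, 0, 3), ((6, 5, 7), 3, 5, 4),
    ((7, 3, 6), 4, 2, 3), ((8, 0, 3), 3, 1, 2)]
  Tc := []
  Td := [((1, 5), (0, 1), 0), ((1, 5), (0, 8), 3), ((5, 1), (5, 4), 0), ((5, 1), (5, 6), 3)]
  G := [[0, 0x815e181a1c441462, 0, 0x442442c8c928c92cc1, 0x892d2898b292d6a41], [0,
    0x4161149e1c288182a, 0, 0x415241128c4428882882cc9, 0xa152a1528aa2828c2a1d4286], [0, 0,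
    0xa12a12c48, 0x4c52489cd2882cc1, 0x2852191b128d6a182894], [0, 0, 0xe12e12c84,
    0x1124442442c98192888245c, 0x83c2242a1112162a1d819ca46]]

noncomputable def n481 : Ent := ⟨e481, noF, [], [], []⟩

def c481 : PLift (Cov.check n481.C.D v481 = true) := ⟨by decide +kernel⟩

def b481 : PLift (entF (fidx ts) 400 481 n481 = true) := ⟨by decide +kernel⟩

theorem g481 : GoodF (fidx ts) 400 481 := GoodF.ofV v481 n481 c481.down b481.down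

/-- 457684:416 -/
noncomputable def e482 : SCfg where
  D := {
    a := 6
    L := 10
    kp := 7
    inn := [(0, 1), (0, 2), (0, 3), (0, 4), (1, 0), (1, 2), (1, 4), (2, 0), (2, 1), (2, 3), (3, 0), (3,
      2), (3, 4), (4, 0), (4, 1), (4, 3), (4, 5), (5, 4)]
    mix := [(1, 0), (1, 1), (2, 1), (2, 2), (2, 3), (2, 4), (3, 4), (3, 5), (3, 6), (4, 0), (4, 6), (4,
      7), (4, 8), (5, 7), (5, 8), (5, 9)]
    cl := [2, 0, 5, 6, 0, 4, 1, 3, 1, 7]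
    chq := [(2, 4), (4, 2)]
    rng := [(0, 1), (0, 8), (1, 0), (1, 2), (2, 1), (2, 3), (3, 2), (3, 4), (4, 3), (4, 5), (5, 4), (5,
      6), (6, 5), (6, 7), (7, 6), (7, 9), (8, 0), (8, 9), (9, 7), (9, 8)]
    lev := [] }
  links := [[1, 2, 3, 4], [2, 0, 4, 6, 7], [3, 0, 1, 7, 8, 9, 10], [4, 0, 2, 10, 11, 12], [6, 1, 0, 3,
    12, 13, 5, 14], [14, 4, 13, 15]]
  P := {
    a := 6
    N := 16
    nb := [30, 213, 1931, 7189, 28779, 57360, 16530, 326, 644, 1284, 2572, 5128, 10264, 36912, 32880,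
      24608]
    tri := [(0, 1, 2), (0, 1, 4), (0, 2, 3), (0, 3, 4), (1, 2, 7), (1, 4, 6), (1, 6, 7), (2, 3, 10),
      (2, 7, 8), (2, 8, 9), (2, 9, 10), (3, 4, 12), (3, 10, 11), (3, 11, 12), (4, 5, 13), (4, 5,
      14), (4, 6, 14), (4, 12, 13), (5, 13, 15), (5, 14, 15)]
    fin := [0, 0, 2, 0, 4, 4, 0, 2, 8, 9, 2, 11, 4, 13, 4, 15]
    chd := [(0, 11)]
    steps := [(0, 1), (0, 3), (0, 6), (2, 7), (2, 10), (4, 5), (4, 12), (4, 14)] }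
  rep := [2, 4, 0, 13, 11, 8, 9, 15]

noncomputable def v482 : Cov.CovD where
  P := 3
  N := 5
  pl := [2, 3, 7, 9]
  lev := [⟨[], [], [], [], []⟩,
    ⟨[], [(0, 0), (0, 2)], [(0, 2)], [], [(0, 2, [4]), (1, 0, [])]⟩,
    ⟨[(0, 1)], [(0, 0), (1, 0), (1, 2)], [(0, 0)], [5, 6], [(1, 0, []), (4, 0, [])]⟩,
    ⟨[(0, 1), (0, 2), (1, 2)], [(0, 0), (0, 1), (0, 4), (2, 0), (2, 1), (2, 4)], [(0, 1),
      (0, 4), (1, 4)], [], [(4, 0, []), (5, 4, [2]), (6, 1, [])]⟩,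
    ⟨[(0, 1), (0, 2), (0, 3), (1, 2), (1, 3), (2, 3)], [(0, 1), (0, 2), (1, 0), (1, 1), (1,
      2), (3, 0), (3, 1), (3, 2), (3, 4)], [(1, 1), (1, 2)], [3], [(0, 2, [4]), (6, 1, []),
      (8, 1, [])]⟩,
    ⟨[(0, 4), (1, 4), (3, 4)], [(4, 1), (4, 2)], [], [3, 7], [(8, 1, [])]⟩]
  Ta := [((1, 0), 0, 2), ((1, 2), 0, 5), ((4, 3), 0, 6), ((4, 5), 0, 4), ((6, 5), 1, 4), ((6, 7),
    1, 3), ((8, 0), 1, 2), ((8, 9), 1, 7)]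
  Tb := [((0, 1, 8), 2, 0, 1), ((1, 0, 2), 0, 2, 5), ((2, 1, 3), 5, 0, 6), ((3, 2, 4), 6, 5, 0),
    ((4, 3, 5), 0, 6, 4), ((5, 4, 6), 4, 0, 1), ((6, 5, 7), 1, 4, 3), ((7, 6, 9), 3, 1, 7),
    ((8, 0, 9), 1, 2, 7), ((9, 7, 8), 7, 3, 1)]
  Tc := []
  Td := [((2, 4), (0, 1), 0), ((2, 4), (0, 8), 1), ((4, 2), (5, 4), 0), ((4, 2), (5, 6), 1)]
  G := [[0, 0x35c2493c2c1aa1c6ac1, 0x25c1492c192c1ac2, 0, 0xe14a65729c3694e2848a1], [0,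
    0x4426426464aea2c2a82a8a86ec1, 0x5412981295c195c1ce2, 0xc9525416898124d14d284d,
    0xc592c592881e24594286], [0, 0x64248a1c2182b1aa1c6e1c, 0, 0, 0xc294369c29cc294e21], [0,
    0x6426426426caea82a82a8886ec1, 0, 0x9124592914d9cec42c484ca588241c,
    0x512512114e2c84c82c494e29]]

noncomputable def n482 : Ent := ⟨e482, noF, [], [], [(8, 15, [360035742630636841211993100915356868655746945586763691009638401, 0]), (9, 15, [360035742630636841211993100915356868655746945586763691009642497, 0])]⟩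

def c482 : PLift (Cov.check n482.C.D v482 = true) := ⟨by decide +kernel⟩

def b482 : PLift (entF (fidx ts) 400 482 n482 = true) := ⟨by decide +kernel⟩

theorem g482 : GoodF (fidx ts) 400 482 := GoodF.ofV v482 n482 c482.down b482.down

/-- 457685:417/2 -/
noncomputable def e483 : SCfg where
  D := {
    a := 6
    L := 9
    kp := 6
    inn := [(0, 1), (0, 2), (0, 3), (0, 4), (1, 0), (1, 2), (1, 4), (2, 0), (2, 1), (2, 3), (3, 0), (3,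
      2), (3, 4), (4, 0), (4, 1), (4, 3), (4, 5), (5, 4)]
    mix := [(1, 0), (1, 1), (2, 1), (2, 2), (2, 3), (2, 4), (3, 4), (3, 5), (3, 6), (4, 0), (4, 6), (4,
      7), (4, 8), (5, 2), (5, 3), (5, 7), (5, 8)]
    cl := [1, 0, 4, 5, 0, 6, 3, 2, 2]
    chq := [(1, 3), (1, 6), (3, 1), (6, 1)]
    rng := [(0, 1), (0, 8), (1, 0), (1, 2), (2, 1), (2, 3), (2, 7), (3, 2), (3, 4), (3, 8), (4, 3), (4,
      5), (5, 4), (5, 6), (6, 5), (6, 7), (7, 2), (7, 6), (8, 0), (8, 3)]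
    lev := [] }
  links := [[1, 2, 3, 4], [2, 0, 4, 6, 7], [3, 0, 1, 7, 8, 9, 10], [4, 0, 2, 10, 11, 12], [6, 1, 0, 3,
    12, 13, 5, 14], [14, 4, 13, 8, 9]]
  P := {
    a := 6
    N := 15
    nb := [30, 213, 1931, 7189, 28779, 25360, 16530, 326, 8868, 17700, 2572, 5128, 10264, 4400, 624]
    tri := [(0, 1, 2), (0, 1, 4), (0, 2, 3), (0, 3, 4), (1, 2, 7), (1, 4, 6), (1, 6, 7), (2, 3, 10),
      (2, 7, 8), (2, 8, 9), (2, 9, 10), (3, 4, 12), (3, 10, 11), (3, 11, 12), (4, 5, 13), (4, 5,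
      14), (4, 6, 14), (4, 12, 13), (5, 8, 9), (5, 8, 13), (5, 9, 14)]
    fin := [0, 0, 2, 0, 0, 5, 0, 2, 8, 9, 2, 11, 12, 5, 5]
    chd := [(0, 11), (0, 12)]
    steps := [(0, 1), (0, 3), (0, 4), (0, 6), (2, 7), (2, 10), (5, 13), (5, 14)] }
  rep := [2, 0, 5, 12, 8, 9, 11]

noncomputable def v483 : Cov.CovD where
  P := 3
  N := 4
  pl := [2, 3]
  lev := [⟨[], [], [], [], []⟩,
    ⟨[], [(0, 0), (0, 1)], [(0, 1)], [], [(0, 1, [3, 6]), (1, 0, [])]⟩,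
    ⟨[(0, 1)], [(0, 0), (1, 0), (1, 1)], [(0, 0)], [4, 5], [(1, 0, []), (4, 0, [])]⟩,
    ⟨[(0, 1), (0, 2), (1, 2)], [(0, 0), (0, 3), (0, 6), (2, 0), (2, 3), (2, 6)], [(0, 3),
      (0, 6), (3, 6)], [], [(4, 0, []), (5, 6, [1]), (6, 3, [1])]⟩,
    ⟨[(0, 1), (0, 2), (0, 3), (1, 2), (1, 3), (2, 3)], [(0, 1), (0, 2), (0, 3), (1, 0), (1,
      1), (1, 2), (1, 3), (3, 0), (3, 1), (3, 2), (3, 3), (3, 6)], [(1, 2), (1, 3), (2, 2),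
      (2, 3)], [], [(0, 1, [3, 6]), (6, 3, [1]), (7, 2, []), (8, 2, [])]⟩,
    ⟨[(0, 4), (1, 4), (3, 4)], [(4, 1), (4, 2), (4, 3)], [(2, 2)], [4, 5], [(7, 2, []), (8,
      2, [])]⟩]
  Ta := [((1, 0), 0, 1), ((1, 2), 0, 4), ((4, 3), 0, 5), ((4, 5), 0, 6), ((7, 2), 2, 4), ((7, 6),
    2, 3), ((8, 0), 2, 1), ((8, 3), 2, 5)]
  Tb := [((0, 1, 8), 1, 0, 2), ((1, 0, 2), 0, 1, 4), ((2, 1, 3), 4, 0, 5), ((2, 1, 7), 4, 0, 2),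
    ((2, 3, 7), 4, 5, 2), ((3, 2, 4), 5, 4, 0), ((3, 2, 8), 5, 4, 2), ((3, 4, 8), 5, 0, 2),
    ((4, 3, 5), 0, 5, 6), ((5, 4, 6), 6, 0, 3), ((6, 5, 7), 3, 6, 2), ((7, 2, 6), 2, 4, 3),
    ((8, 0, 3), 2, 1, 5)]
  Tc := [(1, 3, 6)]
  Td := [((1, 3), (0, 1), 0), ((1, 3), (0, 8), 2), ((1, 6), (0, 1), 0), ((1, 6), (0, 8), 2), ((3,
    1), (6, 5), 6), ((3, 1), (6, 7), 2), ((6, 1), (5, 4), 0), ((6, 1), (5, 6), 3)]
  G := [[0, 0x11c1288c114c1c62, 0x4424842482282422c7ec88184a, 0, 0x11922146889228229aac4], [0,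
    0x11c1211c111c1c62, 0x44c1488c122c1ac2, 0x1dcd2281, 0x13921146889228219aac4], [0, 0,
    0x4422422c6688c2482288ec1, 0, 0x33922294688921811aac4], [0, 0, 0x44c2244688c22822caac1,
    0xdd52288, 0x11924888922822921ea45]]

noncomputable def n483 : Ent := ⟨e483, noF, [], [], []⟩

def c483 : PLift (Cov.check n483.C.D v483 = true) := ⟨by decide +kernel⟩

def b483 : PLift (entF (fidx ts) 400 483 n483 = true) := ⟨by decide +kernel⟩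

theorem g483 : GoodF (fidx ts) 400 483 := GoodF.ofV v483 n483 c483.down b483.down

/-- 457685:417/1 -/
noncomputable def e484 : SCfg where
  D := {
    a := 6
    L := 10
    kp := 7
    inn := [(0, 1), (0, 2), (0, 3), (0, 4), (1, 0), (1, 2), (1, 4), (2, 0), (2, 1), (2, 3), (3, 0), (3,
      2), (3, 4), (4, 0), (4, 1), (4, 3), (4, 5), (5, 4)]
    mix := [(1, 0), (1, 1), (2, 1), (2, 2), (2, 3), (2, 4), (3, 4), (3, 5), (3, 6), (4, 0), (4, 6), (4,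
      7), (4, 8), (5, 2), (5, 7), (5, 8), (5, 9)]
    cl := [0, 3, 4, 6, 3, 5, 2, 1, 1, 7]
    chq := [(0, 2), (0, 5), (2, 0), (5, 0)]
    rng := [(0, 1), (0, 8), (1, 0), (1, 2), (2, 1), (2, 3), (2, 7), (2, 9), (3, 2), (3, 4), (4, 3), (4,
      5), (5, 4), (5, 6), (6, 5), (6, 7), (7, 2), (7, 6), (8, 0), (8, 9), (9, 2), (9, 8)]
    lev := [] }
  links := [[1, 2, 3, 4], [2, 0, 4, 6, 7], [3, 0, 1, 7, 8, 9, 10], [4, 0, 2, 10, 11, 12], [6, 1, 0, 3,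
    12, 13, 5, 14], [14, 4, 13, 8, 15]]
  P := {
    a := 6
    N := 16
    nb := [30, 213, 1931, 7189, 28779, 57616, 16530, 326, 41636, 1284, 2572, 5128, 10264, 4400, 32880,
      16672]
    tri := [(0, 1, 2), (0, 1, 4), (0, 2, 3), (0, 3, 4), (1, 2, 7), (1, 4, 6), (1, 6, 7), (2, 3, 10),
      (2, 7, 8), (2, 8, 9), (2, 9, 10), (3, 4, 12), (3, 10, 11), (3, 11, 12), (4, 5, 13), (4, 5,
      14), (4, 6, 14), (4, 12, 13), (5, 8, 13), (5, 8, 15), (5, 14, 15)]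
    fin := [0, 0, 2, 0, 0, 5, 0, 2, 8, 9, 2, 11, 12, 5, 5, 15]
    chd := [(0, 11), (0, 12)]
    steps := [(0, 1), (0, 3), (0, 4), (0, 6), (2, 7), (2, 10), (5, 13), (5, 14)] }
  rep := [0, 5, 12, 2, 8, 11, 9, 15]

noncomputable def v484 : Cov.CovD where
  P := 3
  N := 5
  pl := [2, 3, 9]
  lev := [⟨[], [], [], [], []⟩,
    ⟨[], [(0, 0), (0, 3)], [(0, 3)], [], [(0, 0, [2, 5]), (1, 3, [])]⟩,
    ⟨[(0, 1)], [(0, 3), (1, 0), (1, 3)], [(3, 3)], [4, 6], [(1, 3, []), (4, 3, [])]⟩,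
    ⟨[(0, 1), (0, 2), (1, 2)], [(0, 2), (0, 3), (0, 5), (2, 2), (2, 3), (2, 5)], [(2, 3),
      (2, 5), (3, 5)], [], [(4, 3, []), (5, 5, [0]), (6, 2, [0])]⟩,
    ⟨[(0, 1), (0, 2), (0, 3), (1, 2), (1, 3), (2, 3)], [(0, 0), (0, 1), (0, 2), (1, 0), (1,
      1), (1, 2), (1, 3), (3, 0), (3, 1), (3, 2), (3, 3), (3, 5)], [(0, 1), (0, 2), (1, 1),
      (1, 2)], [], [(0, 0, [2, 5]), (6, 2, [0]), (7, 1, []), (8, 1, [])]⟩,
    ⟨[(0, 4), (1, 4), (3, 4)], [(4, 0), (4, 1), (4, 2)], [(1, 1)], [4, 7], [(7, 1, []), (8,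
      1, [])]⟩]
  Ta := [((1, 0), 3, 0), ((1, 2), 3, 4), ((4, 3), 3, 6), ((4, 5), 3, 5), ((7, 2), 1, 4), ((7, 6),
    1, 2), ((8, 0), 1, 0), ((8, 9), 1, 7)]
  Tb := [((0, 1, 8), 0, 3, 1), ((1, 0, 2), 3, 0, 4), ((2, 1, 3), 4, 3, 6), ((2, 1, 7), 4, 3, 1),
    ((2, 1, 9), 4, 3, 7), ((2, 3, 7), 4, 6, 1), ((2, 3, 9), 4, 6, 7), ((2, 7, 9), 4, 1, 7),
    ((3, 2, 4), 6, 4, 3), ((4, 3, 5), 3, 6, 5), ((5, 4, 6), 5, 3, 2), ((6, 5, 7), 2, 5, 1),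
    ((7, 2, 6), 1, 4, 2), ((8, 0, 9), 1, 0, 7), ((9, 2, 8), 7, 4, 1)]
  Tc := [(0, 2, 5)]
  Td := [((0, 2), (0, 1), 3), ((0, 2), (0, 8), 1), ((0, 5), (0, 1), 3), ((0, 5), (0, 8), 1), ((2,
    0), (6, 5), 5), ((2, 0), (6, 7), 1), ((5, 0), (5, 4), 3), ((5, 0), (5, 6), 2)]
  G := [[0, 0, 0x49c21d8149c83d81d81cb4, 0xd4122d4158c49d8149c85ca,
    0x5821d819829c81d81d81bed81446], [0, 0, 0xd81d81d8158cd8d8ef42, 0xd81d81d815898d8df42,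
    0xd81d81d8158998d8bf24], [0, 0xe4122e41e419e814ac15ca, 0xd82149c1d81d81e5d84125, 0,
    0xd81d8158d89b2d8258d8c8bd82d45], [0, 0xe41e41e4168c1f28, 0xd8158cd8d8e9d41d81652, 0,
    0xd81d81d811c998d8bf42]]

noncomputable def n484 : Ent := ⟨e484, noF, [], [], [(9, 15, [360035742630636841211993100915356868655746945586763691009650689, 0])]⟩

def c484 : PLift (Cov.check n484.C.D v484 = true) := ⟨by decide +kernel⟩

def b484 : PLift (entF (fidx ts) 400 484 n484 = true) := ⟨by decide +kernel⟩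

theorem g484 : GoodF (fidx ts) 400 484 := GoodF.ofV v484 n484 c484.down b484.down

/-- 457685:417/4 -/
noncomputable def e485 : SCfg where
  D := {
    a := 6
    L := 9
    kp := 6
    inn := [(0, 1), (0, 2), (0, 3), (0, 4), (1, 0), (1, 2), (1, 4), (2, 0), (2, 1), (2, 3), (3, 0), (3,
      2), (3, 4), (4, 0), (4, 1), (4, 3), (4, 5), (5, 4)]
    mix := [(1, 0), (1, 1), (2, 1), (2, 2), (2, 3), (2, 4), (3, 4), (3, 5), (3, 6), (4, 0), (4, 6), (4,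
      7), (4, 8), (5, 2), (5, 3), (5, 7), (5, 8)]
    cl := [0, 3, 4, 5, 3, 6, 2, 1, 1]
    chq := [(0, 2), (0, 6), (2, 0), (6, 0)]
    rng := [(0, 1), (0, 8), (1, 0), (1, 2), (2, 1), (2, 3), (2, 8), (3, 2), (3, 4), (3, 7), (4, 3), (4,
      5), (5, 4), (5, 6), (6, 5), (6, 7), (7, 3), (7, 6), (8, 0), (8, 2)]
    lev := [] }
  links := [[1, 2, 3, 4], [2, 0, 4, 6, 7], [3, 0, 1, 7, 8, 9, 10], [4, 0, 2, 10, 11, 12], [6, 1, 0, 3,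
    12, 13, 5, 14], [14, 4, 13, 9, 8]]
  P := {
    a := 6
    N := 15
    nb := [30, 213, 1931, 7189, 28779, 25360, 16530, 326, 17060, 9508, 2572, 5128, 10264, 4656, 368]
    tri := [(0, 1, 2), (0, 1, 4), (0, 2, 3), (0, 3, 4), (1, 2, 7), (1, 4, 6), (1, 6, 7), (2, 3, 10),
      (2, 7, 8), (2, 8, 9), (2, 9, 10), (3, 4, 12), (3, 10, 11), (3, 11, 12), (4, 5, 13), (4, 5,
      14), (4, 6, 14), (4, 12, 13), (5, 8, 9), (5, 8, 14), (5, 9, 13)]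
    fin := [0, 0, 2, 0, 0, 5, 0, 2, 8, 9, 2, 11, 12, 5, 5]
    chd := [(0, 11), (0, 12)]
    steps := [(0, 1), (0, 3), (0, 4), (0, 6), (2, 7), (2, 10), (5, 13), (5, 14)] }
  rep := [0, 5, 12, 2, 8, 9, 11]

noncomputable def v485 : Cov.CovD where
  P := 3
  N := 4
  pl := [2, 3]
  lev := [⟨[], [], [], [], []⟩,
    ⟨[], [(0, 0), (0, 3)], [(0, 3)], [], [(0, 0, [2, 6]), (1, 3, [])]⟩,
    ⟨[(0, 1)], [(0, 3), (1, 0), (1, 3)], [(3, 3)], [4, 5], [(1, 3, []), (4, 3, [])]⟩,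
    ⟨[(0, 1), (0, 2), (1, 2)], [(0, 2), (0, 3), (0, 6), (2, 2), (2, 3), (2, 6)], [(2, 3),
      (2, 6), (3, 6)], [], [(4, 3, []), (5, 6, [0]), (6, 2, [0])]⟩,
    ⟨[(0, 1), (0, 2), (0, 3), (1, 2), (1, 3), (2, 3)], [(0, 0), (0, 1), (0, 2), (1, 0), (1,
      1), (1, 2), (1, 3), (3, 0), (3, 1), (3, 2), (3, 3), (3, 6)], [(0, 1), (0, 2), (1, 1),
      (1, 2)], [], [(0, 0, [2, 6]), (6, 2, [0]), (7, 1, []), (8, 1, [])]⟩,
    ⟨[(0, 4), (1, 4), (3, 4)], [(4, 0), (4, 1), (4, 2)], [(1, 1)], [4, 5], [(7, 1, []), (8,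
      1, [])]⟩]
  Ta := [((1, 0), 3, 0), ((1, 2), 3, 4), ((4, 3), 3, 5), ((4, 5), 3, 6), ((7, 3), 1, 5), ((7, 6),
    1, 2), ((8, 0), 1, 0), ((8, 2), 1, 4)]
  Tb := [((0, 1, 8), 0, 3, 1), ((1, 0, 2), 3, 0, 4), ((2, 1, 3), 4, 3, 5), ((2, 1, 8), 4, 3, 1),
    ((2, 3, 8), 4, 5, 1), ((3, 2, 4), 5, 4, 3), ((3, 2, 7), 5, 4, 1), ((3, 4, 7), 5, 3, 1),
    ((4, 3, 5), 3, 5, 6), ((5, 4, 6), 6, 3, 2), ((6, 5, 7), 2, 6, 1), ((7, 3, 6), 1, 5, 2),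
    ((8, 0, 2), 1, 0, 4)]
  Tc := [(0, 2, 6)]
  Td := [((0, 2), (0, 1), 3), ((0, 2), (0, 8), 1), ((0, 6), (0, 1), 3), ((0, 6), (0, 8), 1), ((2,
    0), (6, 5), 6), ((2, 0), (6, 7), 1), ((6, 0), (5, 4), 3), ((6, 0), (5, 6), 2)]
  G := [[0, 0, 0x18211481841481c81eb4, 0x84148118145d49c12a4, 0x1821881d8181189ba881481c46], [0,
    0, 0x881481c81181818ef24, 0x881481d811418cf42, 0x881481c81181818bf24], [0, 0xe411e411a8,
    0x1821c411843841481c78, 0, 0x8811829881d8118183b6481446], [0, 0xe41182,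
    0x841481c81181818ef24, 0, 0x881481d81188118bf24]]

noncomputable def n485 : Ent := ⟨e485, noF, [], [], []⟩

def c485 : PLift (Cov.check n485.C.D v485 = true) := ⟨by decide +kernel⟩

def b485 : PLift (entF (fidx ts) 400 485 n485 = true) := ⟨by decide +kernel⟩

theorem g485 : GoodF (fidx ts) 400 485 := GoodF.ofV v485 n485 c485.down b485.down

/-- 457685:417/3 -/
noncomputable def e486 : SCfg where
  D := {
    a := 6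
    L := 10
    kp := 7
    inn := [(0, 1), (0, 2), (0, 3), (0, 4), (1, 0), (1, 2), (1, 4), (2, 0), (2, 1), (2, 3), (3, 0), (3,
      2), (3, 4), (4, 0), (4, 1), (4, 3), (4, 5), (5, 4)]
    mix := [(1, 0), (1, 1), (2, 1), (2, 2), (2, 3), (2, 4), (3, 4), (3, 5), (3, 6), (4, 0), (4, 6), (4,
      7), (4, 8), (5, 2), (5, 7), (5, 8), (5, 9)]
    cl := [0, 3, 4, 6, 3, 5, 2, 1, 1, 7]
    chq := [(0, 2), (0, 5), (2, 0), (5, 0)]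
    rng := [(0, 1), (0, 8), (1, 0), (1, 2), (2, 1), (2, 3), (2, 8), (2, 9), (3, 2), (3, 4), (4, 3), (4,
      5), (5, 4), (5, 6), (6, 5), (6, 7), (7, 6), (7, 9), (8, 0), (8, 2), (9, 2), (9, 7)]
    lev := [] }
  links := [[1, 2, 3, 4], [2, 0, 4, 6, 7], [3, 0, 1, 7, 8, 9, 10], [4, 0, 2, 10, 11, 12], [6, 1, 0, 3,
    12, 13, 5, 14], [14, 4, 13, 15, 8]]
  P := {
    a := 6
    N := 16
    nb := [30, 213, 1931, 7189, 28779, 57616, 16530, 326, 49828, 1284, 2572, 5128, 10264, 36912, 368,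
      8480]
    tri := [(0, 1, 2), (0, 1, 4), (0, 2, 3), (0, 3, 4), (1, 2, 7), (1, 4, 6), (1, 6, 7), (2, 3, 10),
      (2, 7, 8), (2, 8, 9), (2, 9, 10), (3, 4, 12), (3, 10, 11), (3, 11, 12), (4, 5, 13), (4, 5,
      14), (4, 6, 14), (4, 12, 13), (5, 8, 14), (5, 8, 15), (5, 13, 15)]
    fin := [0, 0, 2, 0, 0, 5, 0, 2, 8, 9, 2, 11, 12, 5, 5, 15]
    chd := [(0, 11), (0, 12)]
    steps := [(0, 1), (0, 3), (0, 4), (0, 6), (2, 7), (2, 10), (5, 13), (5, 14)] }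
  rep := [0, 5, 12, 2, 8, 11, 9, 15]

noncomputable def v486 : Cov.CovD where
  P := 3
  N := 5
  pl := [2, 3, 9]
  lev := [⟨[], [], [], [], []⟩,
    ⟨[], [(0, 0), (0, 3)], [(0, 3)], [], [(0, 0, [2, 5]), (1, 3, [])]⟩,
    ⟨[(0, 1)], [(0, 3), (1, 0), (1, 3)], [(3, 3)], [4, 6], [(1, 3, []), (4, 3, [])]⟩,
    ⟨[(0, 1), (0, 2), (1, 2)], [(0, 2), (0, 3), (0, 5), (2, 2), (2, 3), (2, 5)], [(2, 3),
      (2, 5), (3, 5)], [], [(4, 3, []), (5, 5, [0]), (6, 2, [0])]⟩,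
    ⟨[(0, 1), (0, 2), (0, 3), (1, 2), (1, 3), (2, 3)], [(0, 0), (0, 1), (0, 2), (1, 0), (1,
      1), (1, 2), (1, 3), (3, 0), (3, 1), (3, 2), (3, 3), (3, 5)], [(0, 1), (0, 2), (1, 1),
      (1, 2)], [], [(0, 0, [2, 5]), (6, 2, [0]), (7, 1, []), (8, 1, [])]⟩,
    ⟨[(0, 4), (1, 4), (3, 4)], [(4, 0), (4, 1), (4, 2)], [(1, 1)], [4, 7], [(7, 1, []), (8,
      1, [])]⟩]
  Ta := [((1, 0), 3, 0), ((1, 2), 3, 4), ((4, 3), 3, 6), ((4, 5), 3, 5), ((7, 6), 1, 2), ((7, 9),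
    1, 7), ((8, 0), 1, 0), ((8, 2), 1, 4)]
  Tb := [((0, 1, 8), 0, 3, 1), ((1, 0, 2), 3, 0, 4), ((2, 1, 3), 4, 3, 6), ((2, 1, 8), 4, 3, 1),
    ((2, 1, 9), 4, 3, 7), ((2, 3, 8), 4, 6, 1), ((2, 3, 9), 4, 6, 7), ((2, 8, 9), 4, 1, 7),
    ((3, 2, 4), 6, 4, 3), ((4, 3, 5), 3, 6, 5), ((5, 4, 6), 5, 3, 2), ((6, 5, 7), 2, 5, 1),
    ((7, 6, 9), 1, 2, 7), ((8, 0, 2), 1, 0, 4), ((9, 2, 7), 7, 4, 1)]
  Tc := [(0, 2, 5)]
  Td := [((0, 2), (0, 1), 3), ((0, 2), (0, 8), 1), ((0, 5), (0, 1), 3), ((0, 5), (0, 8), 1), ((2,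
    0), (6, 5), 5), ((2, 0), (6, 7), 1), ((5, 0), (5, 4), 3), ((5, 0), (5, 6), 2)]
  G := [[0, 0, 0x58c2149c8149c1d81d81eb4, 0xd8122d4158c49d8149c85c6,
    0xd82d829d81d8158d83b6d81446], [0, 0, 0xd41d41d41d449cd4ef82, 0xd81d81d815898d8df42,
    0xd81d81d8158998d8bf24], [0, 0xe41e419e814ce41e48323, 0x58c21d4158c43d41d41c78, 0,
    0xd81d829c81d8158d83b6d81446], [0, 0xe81e81e81e81f42, 0xd81d81d8158cd8d8ef42, 0,
    0xd81d81d8158998d8bf24]]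

noncomputable def n486 : Ent := ⟨e486, noF, [], [], [(9, 15, [360035742630636841211993100915356868655746945586763691009658881, 0])]⟩

def c486 : PLift (Cov.check n486.C.D v486 = true) := ⟨by decide +kernel⟩

def b486 : PLift (entF (fidx ts) 400 486 n486 = true) := ⟨by decide +kernel⟩

theorem g486 : GoodF (fidx ts) 400 486 := GoodF.ofV v486 n486 c486.down b486.down

/-- 457685:417/5 -/
noncomputable def e487 : SCfg where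
  D := {
    a := 6
    L := 10
    kp := 7
    inn := [(0, 1), (0, 2), (0, 3), (0, 4), (1, 0), (1, 2), (1, 4), (2, 0), (2, 1), (2, 3), (3, 0), (3,
      2), (3, 4), (4, 0), (4, 1), (4, 3), (4, 5), (5, 4)]
    mix := [(1, 0), (1, 1), (2, 1), (2, 2), (2, 3), (2, 4), (3, 4), (3, 5), (3, 6), (4, 0), (4, 6), (4,
      7), (4, 8), (5, 3), (5, 7), (5, 8), (5, 9)]
    cl := [0, 3, 6, 4, 3, 5, 2, 1, 1, 7]
    chq := [(0, 2), (0, 5), (2, 0), (5, 0)]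
    rng := [(0, 1), (0, 8), (1, 0), (1, 2), (2, 1), (2, 3), (3, 2), (3, 4), (3, 7), (3, 9), (4, 3), (4,
      5), (5, 4), (5, 6), (6, 5), (6, 7), (7, 3), (7, 6), (8, 0), (8, 9), (9, 3), (9, 8)]
    lev := [] }
  links := [[1, 2, 3, 4], [2, 0, 4, 6, 7], [3, 0, 1, 7, 8, 9, 10], [4, 0, 2, 10, 11, 12], [6, 1, 0, 3,
    12, 13, 5, 14], [14, 4, 13, 9, 15]]
  P := {
    a := 6
    N := 16
    nb := [30, 213, 1931, 7189, 28779, 57872, 16530, 326, 644, 42276, 2572, 5128, 10264, 4656, 32880,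
      16928]
    tri := [(0, 1, 2), (0, 1, 4), (0, 2, 3), (0, 3, 4), (1, 2, 7), (1, 4, 6), (1, 6, 7), (2, 3, 10),
      (2, 7, 8), (2, 8, 9), (2, 9, 10), (3, 4, 12), (3, 10, 11), (3, 11, 12), (4, 5, 13), (4, 5,
      14), (4, 6, 14), (4, 12, 13), (5, 9, 13), (5, 9, 15), (5, 14, 15)]
    fin := [0, 0, 2, 0, 0, 5, 0, 2, 8, 9, 2, 11, 12, 5, 5, 15]
    chd := [(0, 11), (0, 12)]
    steps := [(0, 1), (0, 3), (0, 4), (0, 6), (2, 7), (2, 10), (5, 13), (5, 14)] }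
  rep := [0, 5, 12, 2, 9, 11, 8, 15]

noncomputable def v487 : Cov.CovD where
  P := 3
  N := 5
  pl := [2, 3, 9]
  lev := [⟨[], [], [], [], []⟩,
    ⟨[], [(0, 0), (0, 3)], [(0, 3)], [], [(0, 0, [2, 5]), (1, 3, [])]⟩,
    ⟨[(0, 1)], [(0, 3), (1, 0), (1, 3)], [(3, 3)], [4, 6], [(1, 3, []), (4, 3, [])]⟩,
    ⟨[(0, 1), (0, 2), (1, 2)], [(0, 2), (0, 3), (0, 5), (2, 2), (2, 3), (2, 5)], [(2, 3),
      (2, 5), (3, 5)], [], [(4, 3, []), (5, 5, [0]), (6, 2, [0])]⟩,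
    ⟨[(0, 1), (0, 2), (0, 3), (1, 2), (1, 3), (2, 3)], [(0, 0), (0, 1), (0, 2), (1, 0), (1,
      1), (1, 2), (1, 3), (3, 0), (3, 1), (3, 2), (3, 3), (3, 5)], [(0, 1), (0, 2), (1, 1),
      (1, 2)], [], [(0, 0, [2, 5]), (6, 2, [0]), (7, 1, []), (8, 1, [])]⟩,
    ⟨[(0, 4), (1, 4), (3, 4)], [(4, 0), (4, 1), (4, 2)], [(1, 1)], [4, 7], [(7, 1, []), (8,
      1, [])]⟩]
  Ta := [((1, 0), 3, 0), ((1, 2), 3, 6), ((4, 3), 3, 4), ((4, 5), 3, 5), ((7, 3), 1, 4), ((7, 6),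
    1, 2), ((8, 0), 1, 0), ((8, 9), 1, 7)]
  Tb := [((0, 1, 8), 0, 3, 1), ((1, 0, 2), 3, 0, 6), ((2, 1, 3), 6, 3, 4), ((3, 2, 4), 4, 6, 3),
    ((3, 2, 7), 4, 6, 1), ((3, 2, 9), 4, 6, 7), ((3, 4, 7), 4, 3, 1), ((3, 4, 9), 4, 3, 7),
    ((3, 7, 9), 4, 1, 7), ((4, 3, 5), 3, 4, 5), ((5, 4, 6), 5, 3, 2), ((6, 5, 7), 2, 5, 1),
    ((7, 3, 6), 1, 4, 2), ((8, 0, 9), 1, 0, 7), ((9, 3, 8), 7, 4, 1)]
  Tc := [(0, 2, 5)]
  Td := [((0, 2), (0, 1), 3), ((0, 2), (0, 8), 1), ((0, 5), (0, 1), 3), ((0, 5), (0, 8), 1), ((2,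
    0), (6, 5), 5), ((2, 0), (6, 7), 1), ((5, 0), (5, 4), 3), ((5, 0), (5, 6), 2)]
  G := [[0, 0, 0x49c2149c81d81d81d81eb4, 0x58c122d4158c49d8149c85ca,
    0x58219821c81d81d81bed81d81c46], [0, 0, 0xd81d81d8158cd8d8ef42, 0xd81d81d815898d8df24,
    0xd81d81d8158998d8bf24], [0, 0xe418e81e815e811ee81223, 0xd8214d841d81d81d81e36, 0,
    0x585831c81d81aad81d81811898bd46], [0, 0xe41e41e41e41f82, 0xd41d41d41d449cd4ef82, 0,
    0xd81d81d8158998d8bf42]]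

noncomputable def n487 : Ent := ⟨e487, noF, [], [], [(8, 15, [360035742630636841211993100915356868655746945586763691009658881, 0])]⟩

def c487 : PLift (Cov.check n487.C.D v487 = true) := ⟨by decide +kernel⟩

def b487 : PLift (entF (fidx ts) 400 487 n487 = true) := ⟨by decide +kernel⟩

theorem g487 : GoodF (fidx ts) 400 487 := GoodF.ofV v487 n487 c487.down b487.down

/-- 457685:417/6 -/
noncomputable def e488 : SCfg where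
  D := {
    a := 6
    L := 10
    kp := 7
    inn := [(0, 1), (0, 2), (0, 3), (0, 4), (1, 0), (1, 2), (1, 4), (2, 0), (2, 1), (2, 3), (3, 0), (3,
      2), (3, 4), (4, 0), (4, 1), (4, 3), (4, 5), (5, 4)]
    mix := [(1, 0), (1, 1), (2, 1), (2, 2), (2, 3), (2, 4), (3, 4), (3, 5), (3, 6), (4, 0), (4, 6), (4,
      7), (4, 8), (5, 3), (5, 7), (5, 8), (5, 9)]
    cl := [0, 3, 6, 4, 3, 5, 2, 1, 1, 7]
    chq := [(0, 2), (0, 5), (2, 0), (5, 0)]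
    rng := [(0, 1), (0, 8), (1, 0), (1, 2), (2, 1), (2, 3), (3, 2), (3, 4), (3, 8), (3, 9), (4, 3), (4,
      5), (5, 4), (5, 6), (6, 5), (6, 7), (7, 6), (7, 9), (8, 0), (8, 3), (9, 3), (9, 7)]
    lev := [] }
  links := [[1, 2, 3, 4], [2, 0, 4, 6, 7], [3, 0, 1, 7, 8, 9, 10], [4, 0, 2, 10, 11, 12], [6, 1, 0, 3,
    12, 13, 5, 14], [14, 4, 13, 15, 9]]
  P := {
    a := 6
    N := 16
    nb := [30, 213, 1931, 7189, 28779, 57872, 16530, 326, 644, 50468, 2572, 5128, 10264, 36912, 624,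
      8736]
    tri := [(0, 1, 2), (0, 1, 4), (0, 2, 3), (0, 3, 4), (1, 2, 7), (1, 4, 6), (1, 6, 7), (2, 3, 10),
      (2, 7, 8), (2, 8, 9), (2, 9, 10), (3, 4, 12), (3, 10, 11), (3, 11, 12), (4, 5, 13), (4, 5,
      14), (4, 6, 14), (4, 12, 13), (5, 9, 14), (5, 9, 15), (5, 13, 15)]
    fin := [0, 0, 2, 0, 0, 5, 0, 2, 8, 9, 2, 11, 12, 5, 5, 15]
    chd := [(0, 11), (0, 12)]
    steps := [(0, 1), (0, 3), (0, 4), (0, 6), (2, 7), (2, 10), (5, 13), (5, 14)] }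
  rep := [0, 5, 12, 2, 9, 11, 8, 15]

noncomputable def v488 : Cov.CovD where
  P := 3
  N := 5
  pl := [2, 3, 9]
  lev := [⟨[], [], [], [], []⟩,
    ⟨[], [(0, 0), (0, 3)], [(0, 3)], [], [(0, 0, [2, 5]), (1, 3, [])]⟩,
    ⟨[(0, 1)], [(0, 3), (1, 0), (1, 3)], [(3, 3)], [4, 6], [(1, 3, []), (4, 3, [])]⟩,
    ⟨[(0, 1), (0, 2), (1, 2)], [(0, 2), (0, 3), (0, 5), (2, 2), (2, 3), (2, 5)], [(2, 3),
      (2, 5), (3, 5)], [], [(4, 3, []), (5, 5, [0]), (6, 2, [0])]⟩,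
    ⟨[(0, 1), (0, 2), (0, 3), (1, 2), (1, 3), (2, 3)], [(0, 0), (0, 1), (0, 2), (1, 0), (1,
      1), (1, 2), (1, 3), (3, 0), (3, 1), (3, 2), (3, 3), (3, 5)], [(0, 1), (0, 2), (1, 1),
      (1, 2)], [], [(0, 0, [2, 5]), (6, 2, [0]), (7, 1, []), (8, 1, [])]⟩,
    ⟨[(0, 4), (1, 4), (3, 4)], [(4, 0), (4, 1), (4, 2)], [(1, 1)], [4, 7], [(7, 1, []), (8,
      1, [])]⟩]
  Ta := [((1, 0), 3, 0), ((1, 2), 3, 6), ((4, 3), 3, 4), ((4, 5), 3, 5), ((7, 6), 1, 2), ((7, 9),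
    1, 7), ((8, 0), 1, 0), ((8, 3), 1, 4)]
  Tb := [((0, 1, 8), 0, 3, 1), ((1, 0, 2), 3, 0, 6), ((2, 1, 3), 6, 3, 4), ((3, 2, 4), 4, 6, 3),
    ((3, 2, 8), 4, 6, 1), ((3, 2, 9), 4, 6, 7), ((3, 4, 8), 4, 3, 1), ((3, 4, 9), 4, 3, 7),
    ((3, 8, 9), 4, 1, 7), ((4, 3, 5), 3, 4, 5), ((5, 4, 6), 5, 3, 2), ((6, 5, 7), 2, 5, 1),
    ((7, 6, 9), 1, 2, 7), ((8, 0, 3), 1, 0, 4), ((9, 3, 7), 7, 4, 1)]
  Tc := [(0, 2, 5)]
  Td := [((0, 2), (0, 1), 3), ((0, 2), (0, 8), 1), ((0, 5), (0, 1), 3), ((0, 5), (0, 8), 1), ((2,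
    0), (6, 5), 5), ((2, 0), (6, 7), 1), ((5, 0), (5, 4), 3), ((5, 0), (5, 6), 2)]
  G := [[0, 0, 0x58c4149c81d41d81d41ed2, 0xc4158c158c4b181d8158c149c8fc2,
    0x58219821c81d81d81bed81d81c46], [0, 0, 0x58c1d8149c158cd8d8ef24, 0xd81d81d815898d8df42,
    0xd81d81d8158998d8bf42], [0, 0xe41e419e81e815ce41223, 0x49c2158c158c43d41d41c78, 0,
    0xd81d829c81d8158d83b6d81446], [0, 0xe81e81e81e81f42, 0xd41d41d458cd4e7d41838, 0,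
    0xd81d81d811c998d8bf42]]

noncomputable def n488 : Ent := ⟨e488, noF, [], [], [(8, 15, [360035742630636841211993100915356868655746945586763691009650689, 0])]⟩

def c488 : PLift (Cov.check n488.C.D v488 = true) := ⟨by decide +kernel⟩

def b488 : PLift (entF (fidx ts) 400 488 n488 = true) := ⟨by decide +kernel⟩

theorem g488 : GoodF (fidx ts) 400 488 := GoodF.ofV v488 n488 c488.down b488.down

/-- 457685:417 -/
noncomputable def e489 : SCfg where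
  D := {
    a := 6
    L := 11
    kp := 8
    inn := [(0, 1), (0, 2), (0, 3), (0, 4), (1, 0), (1, 2), (1, 4), (2, 0), (2, 1), (2, 3), (3, 0), (3,
      2), (3, 4), (4, 0), (4, 1), (4, 3), (4, 5), (5, 4)]
    mix := [(1, 0), (1, 1), (2, 1), (2, 2), (2, 3), (2, 4), (3, 4), (3, 5), (3, 6), (4, 0), (4, 6), (4,
      7), (4, 8), (5, 7), (5, 8), (5, 9), (5, 10)]
    cl := [0, 3, 5, 6, 3, 4, 2, 1, 1, 7, 8]
    chq := [(0, 2), (0, 4), (2, 0), (4, 0)]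
    rng := [(0, 1), (0, 8), (1, 0), (1, 2), (2, 1), (2, 3), (3, 2), (3, 4), (4, 3), (4, 5), (5, 4), (5,
      6), (6, 5), (6, 7), (7, 6), (7, 9), (8, 0), (8, 10), (9, 7), (9, 10), (10, 8), (10, 9)]
    lev := [] }
  links := [[1, 2, 3, 4], [2, 0, 4, 6, 7], [3, 0, 1, 7, 8, 9, 10], [4, 0, 2, 10, 11, 12], [6, 1, 0, 3,
    12, 13, 5, 14], [14, 4, 13, 15, 16]]
  P := {
    a := 6
    N := 17
    nb := [30, 213, 1931, 7189, 28779, 122896, 16530, 326, 644, 1284, 2572, 5128, 10264, 36912, 65648,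
      73760, 49184]
    tri := [(0, 1, 2), (0, 1, 4), (0, 2, 3), (0, 3, 4), (1, 2, 7), (1, 4, 6), (1, 6, 7), (2, 3, 10),
      (2, 7, 8), (2, 8, 9), (2, 9, 10), (3, 4, 12), (3, 10, 11), (3, 11, 12), (4, 5, 13), (4, 5,
      14), (4, 6, 14), (4, 12, 13), (5, 13, 15), (5, 14, 16), (5, 15, 16)]
    fin := [0, 0, 2, 0, 0, 5, 0, 2, 8, 9, 2, 11, 12, 5, 5, 15, 16]
    chd := [(0, 11), (0, 12)]
    steps := [(0, 1), (0, 3), (0, 4), (0, 6), (2, 7), (2, 10), (5, 13), (5, 14)] }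
  rep := [0, 5, 12, 2, 11, 8, 9, 15, 16]

noncomputable def v489 : Cov.CovD where
  P := 3
  N := 6
  pl := [2, 3, 9, 10]
  lev := [⟨[], [], [], [], []⟩,
    ⟨[], [(0, 0), (0, 3)], [(0, 3)], [], [(0, 0, [2, 4]), (1, 3, [])]⟩,
    ⟨[(0, 1)], [(0, 3), (1, 0), (1, 3)], [(3, 3)], [5, 6], [(1, 3, []), (4, 3, [])]⟩,
    ⟨[(0, 1), (0, 2), (1, 2)], [(0, 2), (0, 3), (0, 4), (2, 2), (2, 3), (2, 4)], [(2, 3),
      (2, 4), (3, 4)], [], [(4, 3, []), (5, 4, [0]), (6, 2, [0])]⟩,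
    ⟨[(0, 1), (0, 2), (0, 3), (1, 2), (1, 3), (2, 3)], [(0, 0), (0, 1), (0, 2), (1, 0), (1,
      1), (1, 2), (1, 3), (3, 0), (3, 1), (3, 2), (3, 3), (3, 4)], [(0, 1), (0, 2), (1, 1),
      (1, 2)], [], [(0, 0, [2, 4]), (6, 2, [0]), (7, 1, []), (8, 1, [])]⟩,
    ⟨[(0, 4), (1, 4), (3, 4)], [(4, 0), (4, 1), (4, 2)], [(1, 1)], [7, 8], [(7, 1, []), (8,
      1, [])]⟩]
  Ta := [((1, 0), 3, 0), ((1, 2), 3, 5), ((4, 3), 3, 6), ((4, 5), 3, 4), ((7, 6), 1, 2), ((7, 9),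
    1, 7), ((8, 0), 1, 0), ((8, 10), 1, 8)]
  Tb := [((0, 1, 8), 0, 3, 1), ((1, 0, 2), 3, 0, 5), ((2, 1, 3), 5, 3, 6), ((3, 2, 4), 6, 5, 3),
    ((4, 3, 5), 3, 6, 4), ((5, 4, 6), 4, 3, 2), ((6, 5, 7), 2, 4, 1), ((7, 6, 9), 1, 2, 7),
    ((8, 0, 10), 1, 0, 8), ((9, 7, 10), 7, 1, 8), ((10, 8, 9), 8, 1, 7)]
  Tc := [(0, 2, 4)]
  Td := [((0, 2), (0, 1), 3), ((0, 2), (0, 8), 1), ((0, 4), (0, 1), 3), ((0, 4), (0, 8), 1), ((2,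
    0), (6, 5), 4), ((2, 0), (6, 7), 1), ((4, 0), (5, 4), 3), ((4, 0), (5, 6), 2)]
  G := [[0, 0, 0x49c219481d81d8149c1eb448126, 0xd41d4158cd45bd81d816d481e2,
    0xd82d829d81d81d8d83b6d81446], [0, 0, 0xd4158c1d41d449cd4ef28, 0xd41d41d41d4945d4df82,
    0xd81d81d811c9d8d8bf24], [0, 0xe41e419e814ce41e48323, 0x49c21d81d81d81e9d48125, 0,
    0x58218821d81d81d8d83bed81d81c46], [0, 0xe41e41e41e41f82, 0xd41d41d41d449cd4ef28, 0,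
    0xd81d81d811c9d8d8bf42]]

noncomputable def n489 : Ent := ⟨e489, noF, [], [], [(8, 15, [1685356702439545624007900436039642273970977273354372543760002072577, 0]), (8, 16, [1580044410770988437309982408355971841652082177953823432505691103233, 0]), (9, 15, [1685356702439545624007900436039642273970977273354372543760002084865, 0]), (9, 16, [1580044410770988437309982408355971841652082177953823432505691111425, 0])]⟩

def c489 : PLift (Cov.check n489.C.D v489 = true) := ⟨by decide +kernel⟩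

def b489 : PLift (entF (fidx ts) 400 489 n489 = true) := ⟨by decide +kernel⟩

theorem g489 : GoodF (fidx ts) 400 489 := GoodF.ofV v489 n489 c489.down b489.down

/-- 457684:418 -/
noncomputable def e490 : SCfg where
  D := {
    a := 6
    L := 10
    kp := 7
    inn := [(0, 1), (0, 2), (0, 3), (0, 4), (1, 0), (1, 2), (1, 4), (2, 0), (2, 1), (2, 3), (3, 0), (3,
      2), (3, 4), (4, 0), (4, 1), (4, 3), (4, 5), (5, 4)]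
    mix := [(1, 0), (1, 1), (2, 1), (2, 2), (2, 3), (2, 4), (3, 4), (3, 5), (3, 6), (4, 0), (4, 6), (4,
      7), (4, 8), (5, 0), (5, 8), (5, 9)]
    cl := [0, 1, 5, 6, 1, 4, 2, 0, 3, 7]
    chq := [(0, 4), (4, 0)]
    rng := [(0, 1), (0, 9), (1, 0), (1, 2), (2, 1), (2, 3), (3, 2), (3, 4), (4, 3), (4, 5), (5, 4), (5,
      6), (6, 5), (6, 7), (7, 6), (7, 8), (8, 7), (8, 9), (9, 0), (9, 8)]
    lev := [] }
  links := [[1, 2, 3, 4], [2, 0, 4, 6, 7], [3, 0, 1, 7, 8, 9, 10], [4, 0, 2, 10, 11, 12], [6, 1, 0, 3,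
    12, 13, 14, 5], [6, 4, 14, 15]]
  P := {
    a := 6
    N := 16
    nb := [30, 213, 1931, 7189, 28779, 49232, 32946, 326, 644, 1284, 2572, 5128, 10264, 20496, 41008,
      16480]
    tri := [(0, 1, 2), (0, 1, 4), (0, 2, 3), (0, 3, 4), (1, 2, 7), (1, 4, 6), (1, 6, 7), (2, 3, 10),
      (2, 7, 8), (2, 8, 9), (2, 9, 10), (3, 4, 12), (3, 10, 11), (3, 11, 12), (4, 5, 6), (4, 5,
      14), (4, 12, 13), (4, 13, 14), (5, 6, 15), (5, 14, 15)]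
    fin := [0, 0, 2, 0, 0, 0, 0, 2, 8, 9, 2, 11, 12, 0, 14, 15]
    chd := [(0, 11)]
    steps := [(0, 1), (0, 3), (0, 4), (0, 5), (0, 6), (0, 13), (2, 7), (2, 10)] }
  rep := [0, 2, 12, 14, 11, 8, 9, 15]

noncomputable def v490 : Cov.CovD where
  P := 3
  N := 5
  pl := [2, 3, 6, 8, 9]
  lev := [⟨[], [], [], [], []⟩,
    ⟨[], [(0, 0), (0, 1)], [(0, 1)], [], [(0, 0, [4]), (1, 1, [])]⟩,
    ⟨[(0, 1)], [(0, 1), (1, 0), (1, 1)], [(1, 1)], [5, 6], [(1, 1, []), (4, 1, [])]⟩,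
    ⟨[(0, 1), (0, 2), (1, 2)], [(0, 1), (0, 4), (2, 1), (2, 4)], [(1, 4)], [2], [(4, 1,
      []), (5, 4, [0])]⟩,
    ⟨[(0, 1), (0, 2), (0, 3), (1, 2), (1, 3), (2, 3)], [(0, 0), (1, 0), (1, 1), (3, 0), (3,
      1), (3, 4)], [(0, 0)], [2, 3], [(0, 0, [4]), (7, 0, [4])]⟩,
    ⟨[(0, 4), (1, 4), (3, 4)], [(1, 0), (4, 0)], [], [3, 7], [(0, 0, [4])]⟩]
  Ta := [((0, 1), 0, 1), ((0, 9), 0, 7), ((1, 0), 1, 0), ((1, 2), 1, 5), ((4, 3), 1, 6), ((4, 5),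
    1, 4), ((7, 6), 0, 2), ((7, 8), 0, 3)]
  Tb := [((0, 1, 9), 0, 1, 7), ((1, 0, 2), 1, 0, 5), ((2, 1, 3), 5, 1, 6), ((3, 2, 4), 6, 5, 1),
    ((4, 3, 5), 1, 6, 4), ((5, 4, 6), 4, 1, 2), ((6, 5, 7), 2, 4, 0), ((7, 6, 8), 0, 2, 3),
    ((8, 7, 9), 3, 0, 7), ((9, 0, 8), 7, 0, 3)]
  Tc := []
  Td := [((0, 4), (0, 1), 1), ((0, 4), (0, 9), 7), ((0, 4), (7, 6), 2), ((0, 4), (7, 8), 3), ((4,
    0), (5, 4), 1), ((4, 0), (5, 6), 2)]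
  G := [[0, 0xa81a81626412a6c1641ca6, 0, 0x64164164649da81a8118a85dc2,
    0x46a14c862312c862b9c882445], [0, 0, 0, 0x641641441da81a8111ca2c9dc2,
    0x6214c6a111ac6a99c814e4], [0, 0, 0x14211c211c2d1828c1, 0x35c116c15a1c111c89c2,
    0x71a1121862b5c6a1894], [0, 0, 0x11611ac411611ac11a11ac9c2, 0x3414a1c158111ca1c9dc2,
    0x1216215895a1c8111a189d4a]]

noncomputable def n490 : Ent := ⟨e490, noF, [], [], []⟩

def c490 : PLift (Cov.check n490.C.D v490 = true) := ⟨by decide +kernel⟩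

def b490 : PLift (entF (fidx ts) 400 490 n490 = true) := ⟨by decide +kernel⟩

theorem g490 : GoodF (fidx ts) 400 490 := GoodF.ofV v490 n490 c490.down b490.down

/-- 457685:419/1 -/
noncomputable def e491 : SCfg where
  D := {
    a := 6
    L := 10
    kp := 7
    inn := [(0, 1), (0, 2), (0, 3), (0, 4), (1, 0), (1, 2), (1, 4), (2, 0), (2, 1), (2, 3), (3, 0), (3,
      2), (3, 4), (4, 0), (4, 1), (4, 3), (4, 5), (5, 4)]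
    mix := [(1, 0), (1, 1), (2, 1), (2, 2), (2, 3), (2, 4), (3, 4), (3, 5), (3, 6), (4, 0), (4, 6), (4,
      7), (4, 8), (5, 0), (5, 3), (5, 8), (5, 9)]
    cl := [1, 0, 5, 2, 0, 6, 3, 4, 1, 7]
    chq := [(0, 3), (0, 4), (3, 0), (4, 0)]
    rng := [(0, 1), (0, 9), (1, 0), (1, 2), (2, 1), (2, 3), (3, 2), (3, 4), (3, 8), (3, 9), (4, 3), (4,
      5), (5, 4), (5, 6), (6, 5), (6, 7), (7, 6), (7, 8), (8, 3), (8, 7), (9, 0), (9, 3)]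
    lev := [] }
  links := [[1, 2, 3, 4], [2, 0, 4, 6, 7], [3, 0, 1, 7, 8, 9, 10], [4, 0, 2, 10, 11, 12], [6, 1, 0, 3,
    12, 13, 14, 5], [6, 4, 14, 9, 15]]
  P := {
    a := 6
    N := 16
    nb := [30, 213, 1931, 7189, 28779, 49744, 32946, 326, 644, 50468, 2572, 5128, 10264, 20496, 8752,
      608]
    tri := [(0, 1, 2), (0, 1, 4), (0, 2, 3), (0, 3, 4), (1, 2, 7), (1, 4, 6), (1, 6, 7), (2, 3, 10),
      (2, 7, 8), (2, 8, 9), (2, 9, 10), (3, 4, 12), (3, 10, 11), (3, 11, 12), (4, 5, 6), (4, 5,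
      14), (4, 12, 13), (4, 13, 14), (5, 6, 15), (5, 9, 14), (5, 9, 15)]
    fin := [0, 0, 2, 2, 2, 0, 0, 2, 8, 9, 2, 11, 12, 13, 0, 15]
    chd := [(2, 12), (2, 13)]
    steps := [(0, 1), (0, 6), (0, 5), (0, 14), (2, 3), (2, 4), (2, 7), (2, 10)] }
  rep := [2, 0, 9, 12, 13, 8, 11, 15]

noncomputable def v491 : Cov.CovD where
  P := 3
  N := 5
  pl := [2, 3, 5, 9]
  lev := [⟨[], [], [], [], []⟩,
    ⟨[], [(0, 0), (0, 1)], [(0, 1)], [], [(0, 1, []), (1, 0, [3, 4])]⟩,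
    ⟨[(0, 1)], [(0, 0), (1, 0), (1, 1)], [(0, 0)], [2, 5], [(1, 0, [3, 4]), (4, 0, [3,
      4])]⟩,
    ⟨[(0, 1), (0, 2), (1, 2)], [(0, 0), (0, 3), (2, 0), (2, 3)], [(0, 3)], [6], [(4, 0, [3,
      4]), (6, 3, [0])]⟩,
    ⟨[(0, 1), (0, 2), (0, 3), (1, 2), (1, 3), (2, 3)], [(0, 1), (0, 3), (0, 4), (1, 0), (1,
      1), (1, 3), (1, 4), (3, 0), (3, 1), (3, 3), (3, 4)], [(1, 1), (1, 3), (1, 4), (3, 4)],
      [], [(0, 1, []), (6, 3, [0]), (7, 4, [0]), (8, 1, [])]⟩,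
    ⟨[(0, 4), (1, 4), (3, 4)], [(1, 1), (4, 1), (4, 3), (4, 4)], [(1, 1)], [2, 7], [(0, 1,
      []), (8, 1, [])]⟩]
  Ta := [((0, 1), 1, 0), ((0, 9), 1, 7), ((1, 0), 0, 1), ((1, 2), 0, 5), ((4, 3), 0, 2), ((4, 5),
    0, 6), ((8, 3), 1, 2), ((8, 7), 1, 4)]
  Tb := [((0, 1, 9), 1, 0, 7), ((1, 0, 2), 0, 1, 5), ((2, 1, 3), 5, 0, 2), ((3, 2, 4), 2, 5, 0),
    ((3, 2, 8), 2, 5, 1), ((3, 2, 9), 2, 5, 7), ((3, 4, 8), 2, 0, 1), ((3, 4, 9), 2, 0, 7),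
    ((3, 8, 9), 2, 1, 7), ((4, 3, 5), 0, 2, 6), ((5, 4, 6), 6, 0, 3), ((6, 5, 7), 3, 6, 4),
    ((7, 6, 8), 4, 3, 1), ((8, 3, 7), 1, 2, 4), ((9, 0, 3), 7, 1, 2)]
  Tc := [(0, 3, 4)]
  Td := [((0, 3), (1, 0), 1), ((0, 3), (1, 2), 5), ((0, 3), (4, 3), 2), ((0, 3), (4, 5), 6), ((0,
    4), (1, 0), 1), ((0, 4), (1, 2), 5), ((0, 4), (4, 3), 2), ((0, 4), (4, 5), 6), ((3, 0),
    (6, 5), 6), ((3, 0), (6, 7), 4), ((4, 0), (7, 6), 3), ((4, 0), (7, 8), 1)]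
  G := [[0, 0xcc614cce1cc81881ca2, 0, 0, 0x119d224195195691195ca91181818f188aca], [0, 0, 0,
    0xc1c1c1e4c1c1c1e8c2, 0x199224195119d11cd2195199119d11cf8c6], [0, 0,
    0xc1c16c18c1c1c1ee84, 0, 0x1951956218229195199119d11cf1998a4a], [0, 0,
    0xc1c16c1c1c1ec18e82, 0xc1c16c1c1c1ecc188c2, 0x1992241951956195119d11cda91181818f8c6]]

noncomputable def n491 : Ent := ⟨e491, noF, [], [], []⟩

def c491 : PLift (Cov.check n491.C.D v491 = true) := ⟨by decide +kernel⟩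

def b491 : PLift (entF (fidx ts) 400 491 n491 = true) := ⟨by decide +kernel⟩

theorem g491 : GoodF (fidx ts) 400 491 := GoodF.ofV v491 n491 c491.down b491.down

/-- 457685:419 -/
noncomputable def e492 : SCfg where
  D := {
    a := 6
    L := 11
    kp := 8
    inn := [(0, 1), (0, 2), (0, 3), (0, 4), (1, 0), (1, 2), (1, 4), (2, 0), (2, 1), (2, 3), (3, 0), (3,
      2), (3, 4), (4, 0), (4, 1), (4, 3), (4, 5), (5, 4)]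
    mix := [(1, 0), (1, 1), (2, 1), (2, 2), (2, 3), (2, 4), (3, 4), (3, 5), (3, 6), (4, 0), (4, 6), (4,
      7), (4, 8), (5, 0), (5, 8), (5, 9), (5, 10)]
    cl := [1, 0, 4, 5, 0, 6, 3, 2, 1, 7, 8]
    chq := [(0, 2), (0, 3), (2, 0), (3, 0)]
    rng := [(0, 1), (0, 10), (1, 0), (1, 2), (2, 1), (2, 3), (3, 2), (3, 4), (4, 3), (4, 5), (5, 4),
      (5, 6), (6, 5), (6, 7), (7, 6), (7, 8), (8, 7), (8, 9), (9, 8), (9, 10), (10, 0), (10, 9)]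
    lev := [] }
  links := [[1, 2, 3, 4], [2, 0, 4, 6, 7], [3, 0, 1, 7, 8, 9, 10], [4, 0, 2, 10, 11, 12], [6, 1, 0, 3,
    12, 13, 14, 5], [6, 4, 14, 15, 16]]
  P := {
    a := 6
    N := 17
    nb := [30, 213, 1931, 7189, 28779, 114768, 65714, 326, 644, 1284, 2572, 5128, 10264, 20496, 41008,
      81952, 32864]
    tri := [(0, 1, 2), (0, 1, 4), (0, 2, 3), (0, 3, 4), (1, 2, 7), (1, 4, 6), (1, 6, 7), (2, 3, 10),
      (2, 7, 8), (2, 8, 9), (2, 9, 10), (3, 4, 12), (3, 10, 11), (3, 11, 12), (4, 5, 6), (4, 5,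
      14), (4, 12, 13), (4, 13, 14), (5, 6, 16), (5, 14, 15), (5, 15, 16)]
    fin := [0, 0, 2, 2, 2, 0, 0, 2, 8, 9, 2, 11, 12, 13, 0, 15, 16]
    chd := [(2, 12), (2, 13)]
    steps := [(0, 1), (0, 6), (0, 5), (0, 14), (2, 3), (2, 4), (2, 7), (2, 10)] }
  rep := [2, 0, 13, 12, 8, 9, 11, 15, 16]

noncomputable def v492 : Cov.CovD where
  P := 3
  N := 6
  pl := [2, 3, 5, 9, 10]
  lev := [⟨[], [], [], [], []⟩,
    ⟨[], [(0, 0), (0, 1)], [(0, 1)], [], [(0, 1, []), (1, 0, [2, 3])]⟩,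
    ⟨[(0, 1)], [(0, 0), (1, 0), (1, 1)], [(0, 0)], [4, 5], [(1, 0, [2, 3]), (4, 0, [2,
      3])]⟩,
    ⟨[(0, 1), (0, 2), (1, 2)], [(0, 0), (0, 3), (2, 0), (2, 3)], [(0, 3)], [6], [(4, 0, [2,
      3]), (6, 3, [0])]⟩,
    ⟨[(0, 1), (0, 2), (0, 3), (1, 2), (1, 3), (2, 3)], [(0, 1), (0, 2), (0, 3), (1, 0), (1,
      1), (1, 2), (1, 3), (3, 0), (3, 1), (3, 2), (3, 3)], [(1, 1), (1, 2), (1, 3), (2, 3)],
      [], [(0, 1, []), (6, 3, [0]), (7, 2, [0]), (8, 1, [])]⟩,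
    ⟨[(0, 4), (1, 4), (3, 4)], [(1, 1), (4, 1), (4, 2), (4, 3)], [(1, 1)], [7, 8], [(0, 1,
      []), (8, 1, [])]⟩]
  Ta := [((0, 1), 1, 0), ((0, 10), 1, 8), ((1, 0), 0, 1), ((1, 2), 0, 4), ((4, 3), 0, 5), ((4,
    5), 0, 6), ((8, 7), 1, 2), ((8, 9), 1, 7)]
  Tb := [((0, 1, 10), 1, 0, 8), ((1, 0, 2), 0, 1, 4), ((2, 1, 3), 4, 0, 5), ((3, 2, 4), 5, 4, 0),
    ((4, 3, 5), 0, 5, 6), ((5, 4, 6), 6, 0, 3), ((6, 5, 7), 3, 6, 2), ((7, 6, 8), 2, 3, 1),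
    ((8, 7, 9), 1, 2, 7), ((9, 8, 10), 7, 1, 8), ((10, 0, 9), 8, 1, 7)]
  Tc := [(0, 2, 3)]
  Td := [((0, 2), (1, 0), 1), ((0, 2), (1, 2), 4), ((0, 2), (4, 3), 5), ((0, 2), (4, 5), 6), ((0,
    3), (1, 0), 1), ((0, 3), (1, 2), 4), ((0, 3), (4, 3), 5), ((0, 3), (4, 5), 6), ((2, 0),
    (7, 6), 3), ((2, 0), (7, 8), 1), ((3, 0), (6, 5), 6), ((3, 0), (6, 7), 2)]
  G := [[0, 0xe414ec164c1e2e81a818ac1e4a, 0xd4181d81ddc1ddc1e1a, 0,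
    0x1d92281d9441d91d9d871d9d83589d1cec6], [0, 0, 0x5dc12ddc1ddc1881e92,
    0x1d5d43d11d91d5e1c549c5dcde1d58881ac2, 0xd12281d9441d91d9d871d9d831c91d9cec6], [0, 0,
    0xd1c1881d9c1e1c415dc1441e86, 0, 0xd1d16d1d1668d11d91d9e1c918a1c918ce4a], [0, 0,
    0xddc1ddc1ddc1e12, 0xd11d91d5e21d51d9d1e589d1aca1d94486,
    0x1d9224d14d11d91d9ed11d9ced1181d9e8c6]]

noncomputable def n492 : Ent := ⟨e492, noF, [], [], [(9, 15, [1685356702439545624007900436039642273970977273354372543760002101249, 0])]⟩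

def c492 : PLift (Cov.check n492.C.D v492 = true) := ⟨by decide +kernel⟩

def b492 : PLift (entF (fidx ts) 400 492 n492 = true) := ⟨by decide +kernel⟩

theorem g492 : GoodF (fidx ts) 400 492 := GoodF.ofV v492 n492 c492.down b492.down

/-- 457746:423/1 -/
noncomputable def e493 : SCfg where
  D := {
    a := 6
    L := 10
    kp := 7
    inn := [(0, 1), (0, 2), (1, 0), (1, 2), (2, 0), (2, 1), (2, 3), (2, 5), (3, 2), (3, 4), (3, 5), (4,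
      3), (5, 2), (5, 3)]
    mix := [(0, 0), (0, 1), (1, 1), (1, 2), (1, 3), (2, 0), (2, 3), (2, 4), (3, 4), (3, 5), (3, 6), (3,
      7), (4, 2), (4, 6), (4, 7), (5, 0), (5, 7), (5, 8), (5, 9)]
    cl := [0, 2, 4, 0, 1, 3, 5, 3, 6, 7]
    chq := [(1, 6), (1, 7), (6, 1), (7, 1)]
    rng := [(0, 1), (0, 9), (1, 0), (1, 2), (2, 1), (2, 3), (2, 6), (2, 7), (3, 2), (3, 4), (4, 3), (4,
      5), (5, 4), (5, 6), (6, 2), (6, 5), (7, 2), (7, 8), (8, 7), (8, 9), (9, 0), (9, 8)]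
    lev := [] }
  links := [[1, 2, 6, 7], [2, 0, 7, 8, 9], [6, 0, 1, 9, 10, 3, 5], [5, 2, 10, 11, 12, 4, 13], [13, 3, 12,
    8], [6, 2, 3, 13, 14, 15]]
  P := {
    a := 6
    N := 16
    nb := [198, 901, 1643, 15412, 12552, 57420, 32933, 323, 12946, 1286, 2572, 5128, 2328, 16696,
      40992, 16480]
    tri := [(0, 1, 2), (0, 1, 7), (0, 2, 6), (0, 6, 7), (1, 2, 9), (1, 7, 8), (1, 8, 9), (2, 3, 5), (2,
      3, 10), (2, 5, 6), (2, 9, 10), (3, 4, 12), (3, 4, 13), (3, 5, 13), (3, 10, 11), (3, 11, 12),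
      (4, 8, 12), (4, 8, 13), (5, 6, 15), (5, 13, 14), (5, 14, 15)]
    fin := [0, 0, 2, 3, 4, 2, 0, 7, 4, 0, 2, 3, 12, 3, 14, 15]
    chd := [(2, 14), (2, 15)]
    steps := [(0, 1), (0, 6), (0, 9), (2, 5), (2, 10), (3, 11), (3, 13), (4, 8)] }
  rep := [0, 2, 7, 3, 4, 12, 14, 15]

noncomputable def v493 : Cov.CovD where
  P := 3
  N := 5
  pl := [1, 2, 6]
  lev := [⟨[], [], [], [2], [(0, 0, [])]⟩,
    ⟨[], [(0, 0)], [], [2, 4], [(3, 0, [])]⟩,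
    ⟨[(0, 1)], [(0, 0), (0, 1), (1, 0), (1, 1)], [(0, 0), (0, 1)], [], [(0, 0, []), (3, 0,
      []), (4, 1, [6, 7])]⟩,
    ⟨[(0, 2), (1, 2)], [(2, 0), (2, 1), (2, 3)], [(1, 3), (3, 3)], [5], [(4, 1, [6, 7]),
      (5, 3, []), (7, 3, [])]⟩,
    ⟨[(2, 3)], [(3, 1), (3, 3)], [], [4, 5], [(7, 3, [])]⟩,
    ⟨[(0, 2), (1, 2), (2, 3), (3, 4)], [(0, 0), (2, 0), (2, 1), (2, 3), (2, 6), (2, 7), (3,
      0), (3, 1), (3, 3), (3, 6), (3, 7), (4, 3)], [(0, 3), (0, 6), (0, 7), (3, 6), (3, 7),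
      (6, 7)], [], [(0, 0, []), (7, 3, []), (8, 6, [1]), (9, 7, [1])]⟩]
  Ta := [((0, 1), 0, 2), ((0, 9), 0, 7), ((3, 2), 0, 4), ((3, 4), 0, 1), ((5, 4), 3, 1), ((5, 6),
    3, 5), ((7, 2), 3, 4), ((7, 8), 3, 6)]
  Tb := [((0, 1, 9), 0, 2, 7), ((1, 0, 2), 2, 0, 4), ((2, 1, 3), 4, 2, 0), ((2, 1, 6), 4, 2, 5),
    ((2, 1, 7), 4, 2, 3), ((2, 3, 6), 4, 0, 5), ((2, 3, 7), 4, 0, 3), ((2, 6, 7), 4, 5, 3),
    ((3, 2, 4), 0, 4, 1), ((4, 3, 5), 1, 0, 3), ((5, 4, 6), 3, 1, 5), ((6, 2, 5), 5, 4, 3),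
    ((7, 2, 8), 3, 4, 6), ((8, 7, 9), 6, 3, 7), ((9, 0, 8), 7, 0, 6)]
  Tc := [(1, 6, 7)]
  Td := [((1, 6), (4, 3), 0), ((1, 6), (4, 5), 3), ((1, 7), (4, 3), 0), ((1, 7), (4, 5), 3), ((6,
    1), (8, 7), 3), ((6, 1), (8, 9), 7), ((7, 1), (9, 0), 0), ((7, 1), (9, 8), 6)]
  G := [[0, 0, 0x282221d424422219cc2, 0x22522921d418, 0x22522921d812], [0, 0,
    0x282221d4222421d8c2, 0x226422a219c18, 0x226422a219c12], [0, 0x121118e4111414e2c8, 0,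
    0x282221d4242235228cc8, 0x2822921d432242e6d8a2], [0, 0x181112e4141136118cc8, 0,
    0x2822322d424215228cc8, 0x242235288c2222621d8a2]]

noncomputable def n493 : Ent := ⟨e493, noF, [], [], []⟩

def c493 : PLift (Cov.check n493.C.D v493 = true) := ⟨by decide +kernel⟩

def b493 : PLift (entF (fidx ts) 400 493 n493 = true) := ⟨by decide +kernel⟩

theorem g493 : GoodF (fidx ts) 400 493 := GoodF.ofV v493 n493 c493.down b493.down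

/-- 457746:423 -/
noncomputable def e494 : SCfg where
  D := {
    a := 6
    L := 11
    kp := 8
    inn := [(0, 1), (0, 2), (1, 0), (1, 2), (2, 0), (2, 1), (2, 3), (2, 5), (3, 2), (3, 4), (3, 5), (4,
      3), (5, 2), (5, 3)]
    mix := [(0, 0), (0, 1), (1, 1), (1, 2), (1, 3), (2, 0), (2, 3), (2, 4), (3, 4), (3, 5), (3, 6), (3,
      7), (4, 6), (4, 7), (4, 8), (5, 0), (5, 7), (5, 9), (5, 10)]
    cl := [0, 2, 7, 0, 1, 3, 4, 3, 8, 5, 6]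
    chq := [(1, 5), (1, 6), (5, 1), (6, 1)]
    rng := [(0, 1), (0, 10), (1, 0), (1, 2), (2, 1), (2, 3), (3, 2), (3, 4), (4, 3), (4, 5), (5, 4),
      (5, 6), (6, 5), (6, 8), (7, 8), (7, 9), (8, 6), (8, 7), (9, 7), (9, 10), (10, 0), (10, 9)]
    lev := [] }
  links := [[1, 2, 6, 7], [2, 0, 7, 8, 9], [6, 0, 1, 9, 10, 3, 5], [5, 2, 10, 11, 12, 4, 13], [13, 3, 12,
    14], [6, 2, 3, 13, 15, 16]]
  P := {
    a := 6
    N := 17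
    nb := [198, 901, 1643, 15412, 28680, 106572, 65701, 323, 642, 1286, 2572, 5128, 18456, 49208,
      12304, 73760, 32864]
    tri := [(0, 1, 2), (0, 1, 7), (0, 2, 6), (0, 6, 7), (1, 2, 9), (1, 7, 8), (1, 8, 9), (2, 3, 5), (2,
      3, 10), (2, 5, 6), (2, 9, 10), (3, 4, 12), (3, 4, 13), (3, 5, 13), (3, 10, 11), (3, 11, 12),
      (4, 12, 14), (4, 13, 14), (5, 6, 16), (5, 13, 15), (5, 15, 16)]
    fin := [0, 0, 2, 3, 3, 2, 0, 7, 8, 0, 2, 3, 12, 3, 14, 15, 16]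
    chd := [(2, 15), (2, 16)]
    steps := [(0, 1), (0, 6), (0, 9), (2, 5), (2, 10), (3, 4), (3, 11), (3, 13)] }
  rep := [0, 2, 7, 3, 12, 15, 16, 8, 14]

noncomputable def v494 : Cov.CovD where
  P := 3
  N := 6
  pl := [1, 2, 6, 8]
  lev := [⟨[], [], [], [2], [(0, 0, [])]⟩,
    ⟨[], [(0, 0)], [], [2, 7], [(3, 0, [])]⟩,
    ⟨[(0, 1)], [(0, 0), (0, 1), (1, 0), (1, 1)], [(0, 0), (0, 1)], [], [(0, 0, []), (3, 0,
      []), (4, 1, [5, 6])]⟩,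
    ⟨[(0, 2), (1, 2)], [(2, 0), (2, 1), (2, 3)], [(1, 3), (3, 3)], [4], [(4, 1, [5, 6]),
      (5, 3, []), (7, 3, [])]⟩,
    ⟨[(2, 3)], [(3, 1), (3, 3)], [], [4, 8], [(7, 3, [])]⟩,
    ⟨[(0, 2), (1, 2), (2, 3), (3, 4)], [(0, 0), (2, 0), (2, 1), (2, 3), (2, 5), (2, 6), (3,
      0), (3, 1), (3, 3), (3, 5), (3, 6), (4, 3)], [(0, 3), (0, 5), (0, 6), (3, 5), (3, 6),
      (5, 6)], [], [(0, 0, []), (7, 3, []), (9, 5, [1]), (10, 6, [1])]⟩]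
  Ta := [((0, 1), 0, 2), ((0, 10), 0, 6), ((3, 2), 0, 7), ((3, 4), 0, 1), ((5, 4), 3, 1), ((5,
    6), 3, 4), ((7, 8), 3, 8), ((7, 9), 3, 5)]
  Tb := [((0, 1, 10), 0, 2, 6), ((1, 0, 2), 2, 0, 7), ((2, 1, 3), 7, 2, 0), ((3, 2, 4), 0, 7, 1),
    ((4, 3, 5), 1, 0, 3), ((5, 4, 6), 3, 1, 4), ((6, 5, 8), 4, 3, 8), ((7, 8, 9), 3, 8, 5),
    ((8, 6, 7), 8, 4, 3), ((9, 7, 10), 5, 3, 6), ((10, 0, 9), 6, 0, 5)]
  Tc := [(1, 5, 6)]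
  Td := [((1, 5), (4, 3), 0), ((1, 5), (4, 5), 3), ((1, 6), (4, 3), 0), ((1, 6), (4, 5), 3), ((5,
    1), (9, 7), 3), ((5, 1), (9, 10), 6), ((6, 1), (10, 0), 0), ((6, 1), (10, 9), 5)]
  G := [[0, 0, 0x226223522a8c2264222d2239ca4, 0x22522922cd814, 0x226422a2239c18], [0, 0,
    0x226223522a8c226422a2239c62, 0x226422a2239c14, 0x226223522a8c12], [0,
    0x11511c61168c116115113e8c4, 0, 0x222e292b623d4226223522a8cc8,
    0x22522922cd4226422a2239ca1], [0, 0x119113a115461154119113acc8, 0,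
    0x22a84226223522a8cc2262235889, 0x226223522a8c226223522a8ca1]]

noncomputable def n494 : Ent := ⟨e494, noF, [], [], [(8, 14, [1685382413448253767852309107433119732572617628602273068445366931457, 0])]⟩

def c494 : PLift (Cov.check n494.C.D v494 = true) := ⟨by decide +kernel⟩

def b494 : PLift (entF (fidx ts) 400 494 n494 = true) := ⟨by decide +kernel⟩

theorem g494 : GoodF (fidx ts) 400 494 := GoodF.ofV v494 n494 c494.down b494.down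

/-- 457674:426/1 -/
noncomputable def e495 : SCfg where
  D := {
    a := 6
    L := 9
    kp := 6
    inn := [(0, 1), (0, 2), (0, 3), (1, 0), (1, 2), (1, 4), (2, 0), (2, 1), (2, 3), (2, 4), (3, 0), (3,
      2), (4, 1), (4, 2), (4, 5), (5, 4)]
    mix := [(0, 0), (1, 0), (1, 1), (2, 2), (2, 3), (2, 4), (3, 0), (3, 4), (3, 5), (3, 6), (4, 1), (4,
      2), (4, 7), (4, 8), (5, 1), (5, 6), (5, 7)]
    cl := [0, 1, 3, 5, 0, 6, 2, 4, 1]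
    chq := [(1, 5), (5, 1)]
    rng := [(0, 1), (0, 6), (1, 0), (1, 6), (2, 3), (2, 8), (3, 2), (3, 4), (4, 3), (4, 5), (5, 4), (5,
      6), (6, 0), (6, 1), (6, 5), (6, 7), (7, 6), (7, 8), (8, 2), (8, 7)]
    lev := [] }
  links := [[1, 2, 3, 6], [2, 0, 6, 7, 4], [3, 0, 1, 4, 8, 9, 10], [6, 0, 2, 10, 11, 12], [8, 2, 1, 7, 5,
    13, 14], [13, 4, 7, 12]]
  P := {
    a := 6
    N := 15
    nb := [78, 213, 1819, 7237, 24998, 12432, 4235, 4210, 16916, 1284, 2572, 5128, 10472, 20528, 8464]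
    tri := [(0, 1, 2), (0, 1, 6), (0, 2, 3), (0, 3, 6), (1, 2, 4), (1, 4, 7), (1, 6, 7), (2, 3, 10),
      (2, 4, 8), (2, 8, 9), (2, 9, 10), (3, 6, 12), (3, 10, 11), (3, 11, 12), (4, 5, 7), (4, 5,
      13), (4, 8, 14), (4, 13, 14), (5, 7, 12), (5, 12, 13)]
    fin := [0, 0, 2, 0, 2, 2, 0, 2, 8, 9, 0, 11, 12, 13, 2]
    chd := [(2, 9)]
    steps := [(0, 1), (0, 3), (0, 6), (0, 10), (2, 4), (2, 5), (2, 7), (2, 14)] }
  rep := [0, 2, 12, 8, 13, 9, 11]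

noncomputable def v495 : Cov.CovD where
  P := 3
  N := 4
  pl := [2, 5, 6, 7]
  lev := [⟨[], [], [], [], [(0, 0, [])]⟩,
    ⟨[], [(0, 0), (0, 1)], [(0, 1)], [], [(0, 0, []), (1, 1, [5])]⟩,
    ⟨[(0, 1)], [(0, 0), (0, 5), (1, 0), (1, 1), (1, 5)], [(0, 5)], [3], [(3, 5, [1]), (4,
      0, [])]⟩,
    ⟨[(0, 1), (0, 2), (1, 2)], [(0, 0), (1, 0), (2, 0), (2, 5)], [(0, 0)], [2, 6], [(0, 0,
      []), (4, 0, [])]⟩,
    ⟨[(0, 1), (0, 2), (1, 2), (2, 3)], [(1, 0), (1, 1), (2, 0), (2, 1), (2, 5)], [(1, 1)],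
      [3, 4], [(1, 1, [5]), (8, 1, [5])]⟩,
    ⟨[(1, 4), (2, 4)], [(1, 1), (4, 1)], [], [2, 4], [(1, 1, [5])]⟩]
  Ta := [((0, 1), 0, 1), ((0, 6), 0, 2), ((1, 0), 1, 0), ((1, 6), 1, 2), ((4, 3), 0, 5), ((4, 5),
    0, 6), ((8, 2), 1, 3), ((8, 7), 1, 4)]
  Tb := [((0, 1, 6), 0, 1, 2), ((1, 0, 6), 1, 0, 2), ((2, 3, 8), 3, 5, 1), ((3, 2, 4), 5, 3, 0),
    ((4, 3, 5), 0, 5, 6), ((5, 4, 6), 6, 0, 2), ((6, 0, 1), 2, 0, 1), ((6, 0, 5), 2, 0, 6),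
    ((6, 0, 7), 2, 0, 4), ((6, 1, 5), 2, 1, 6), ((6, 1, 7), 2, 1, 4), ((6, 5, 7), 2, 6, 4),
    ((7, 6, 8), 4, 2, 1), ((8, 2, 7), 1, 3, 4)]
  Tc := []
  Td := [((1, 5), (1, 0), 0), ((1, 5), (1, 6), 2), ((1, 5), (8, 2), 3), ((1, 5), (8, 7), 4), ((5,
    1), (3, 2), 3), ((5, 1), (3, 4), 0)]
  G := [[0, 0x84ce84cec124, 0x888c9c244c544c28c, 0x415541dc28882c4, 0x28524891d891da2c219284c],
    [0, 0, 0x444182ad822dc2822ca3c8, 0, 0x21522192821d821da12c88caf48], [0, 0, 0,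
    0x541d415c2884294, 0x98524891d891da2c2192849], [0, 0, 0, 0,
    0x321d2a1da2285219a8819985a4e1]]

noncomputable def n495 : Ent := ⟨e495, noF, [], [], []⟩

def c495 : PLift (Cov.check n495.C.D v495 = true) := ⟨by decide +kernel⟩

def b495 : PLift (entF (fidx ts) 400 495 n495 = true) := ⟨by decide +kernel⟩

theorem g495 : GoodF (fidx ts) 400 495 := GoodF.ofV v495 n495 c495.down b495.down

/-- 457674:426 -/
noncomputable def e496 : SCfg where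
  D := {
    a := 6
    L := 10
    kp := 7
    inn := [(0, 1), (0, 2), (0, 3), (1, 0), (1, 2), (1, 4), (2, 0), (2, 1), (2, 3), (2, 4), (3, 0), (3,
      2), (4, 1), (4, 2), (4, 5), (5, 4)]
    mix := [(0, 0), (1, 0), (1, 1), (2, 2), (2, 3), (2, 4), (3, 0), (3, 4), (3, 5), (3, 6), (4, 1), (4,
      2), (4, 7), (4, 8), (5, 1), (5, 7), (5, 9)]
    cl := [0, 1, 2, 4, 0, 5, 6, 3, 1, 7]
    chq := [(1, 4), (4, 1)]
    rng := [(0, 1), (0, 6), (1, 0), (1, 9), (2, 3), (2, 8), (3, 2), (3, 4), (4, 3), (4, 5), (5, 4), (5,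
      6), (6, 0), (6, 5), (7, 8), (7, 9), (8, 2), (8, 7), (9, 1), (9, 7)]
    lev := [] }
  links := [[1, 2, 3, 6], [2, 0, 6, 7, 4], [3, 0, 1, 4, 8, 9, 10], [6, 0, 2, 10, 11, 12], [8, 2, 1, 7, 5,
    13, 14], [13, 4, 7, 15]]
  P := {
    a := 6
    N := 16
    nb := [78, 213, 1819, 7237, 24998, 41104, 4235, 32882, 16916, 1284, 2572, 5128, 2120, 49200, 8464,
      8352]
    tri := [(0, 1, 2), (0, 1, 6), (0, 2, 3), (0, 3, 6), (1, 2, 4), (1, 4, 7), (1, 6, 7), (2, 3, 10),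
      (2, 4, 8), (2, 8, 9), (2, 9, 10), (3, 6, 12), (3, 10, 11), (3, 11, 12), (4, 5, 7), (4, 5,
      13), (4, 8, 14), (4, 13, 14), (5, 7, 15), (5, 13, 15)]
    fin := [0, 0, 2, 0, 2, 2, 0, 2, 8, 9, 0, 11, 12, 13, 2, 15]
    chd := [(2, 9)]
    steps := [(0, 1), (0, 3), (0, 6), (0, 10), (2, 4), (2, 5), (2, 7), (2, 14)] }
  rep := [0, 2, 8, 13, 9, 11, 12, 15]

noncomputable def v496 : Cov.CovD where
  P := 3
  N := 5
  pl := [2, 5, 6, 7, 9]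
  lev := [⟨[], [], [], [], [(0, 0, [])]⟩,
    ⟨[], [(0, 0), (0, 1)], [(0, 1)], [], [(0, 0, []), (1, 1, [4])]⟩,
    ⟨[(0, 1)], [(0, 0), (0, 4), (1, 0), (1, 1), (1, 4)], [(0, 4)], [2], [(3, 4, [1]), (4,
      0, [])]⟩,
    ⟨[(0, 1), (0, 2), (1, 2)], [(0, 0), (1, 0), (2, 0), (2, 4)], [(0, 0)], [5, 6], [(0, 0,
      []), (4, 0, [])]⟩,
    ⟨[(0, 1), (0, 2), (1, 2), (2, 3)], [(1, 0), (1, 1), (2, 0), (2, 1), (2, 4)], [(1, 1)],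
      [2, 3], [(1, 1, [4]), (8, 1, [4])]⟩,
    ⟨[(1, 4), (2, 4)], [(1, 1), (4, 1)], [], [3, 7], [(1, 1, [4])]⟩]
  Ta := [((0, 1), 0, 1), ((0, 6), 0, 6), ((1, 0), 1, 0), ((1, 9), 1, 7), ((4, 3), 0, 4), ((4, 5),
    0, 5), ((8, 2), 1, 2), ((8, 7), 1, 3)]
  Tb := [((0, 1, 6), 0, 1, 6), ((1, 0, 9), 1, 0, 7), ((2, 3, 8), 2, 4, 1), ((3, 2, 4), 4, 2, 0),
    ((4, 3, 5), 0, 4, 5), ((5, 4, 6), 5, 0, 6), ((6, 0, 5), 6, 0, 5), ((7, 8, 9), 3, 1, 7),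
    ((8, 2, 7), 1, 2, 3), ((9, 1, 7), 7, 1, 3)]
  Tc := []
  Td := [((1, 4), (1, 0), 0), ((1, 4), (1, 9), 7), ((1, 4), (8, 2), 2), ((1, 4), (8, 7), 3), ((4,
    1), (3, 2), 2), ((4, 1), (3, 4), 0)]
  G := [[0, 0xa6ca6ca6ce124, 0x989898e24242282545454ee8c, 0, 0x512c59c5951ec82b48], [0, 0,
    0xa42a822bc3ac32cee48, 0x22c22c22ce148, 0x2122e92151e78286b84], [0, 0,
    0x22c25415c15ce6988888e2c1, 0, 0x2292c59c59c59ea41], [0, 0, 0x22c292ca3c92cea14,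
    0x2294422522c22ce229229acc1, 0x2292259259259ea41]]

noncomputable def n496 : Ent := ⟨e496, noF, [], [], [(15, 12, [360035747228123463809659675990397950106674496442981057560506369, 0])]⟩

def c496 : PLift (Cov.check n496.C.D v496 = true) := ⟨by decide +kernel⟩

def b496 : PLift (entF (fidx ts) 400 496 n496 = true) := ⟨by decide +kernel⟩

theorem g496 : GoodF (fidx ts) 400 496 := GoodF.ofV v496 n496 c496.down b496.down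

/-- 484644:433/2 -/
noncomputable def e497 : SCfg where
  D := {
    a := 6
    L := 8
    kp := 5
    inn := [(0, 1), (0, 3), (1, 0), (1, 2), (1, 4), (2, 1), (3, 0), (3, 5), (4, 1), (5, 3)]
    mix := [(0, 0), (0, 1), (1, 0), (1, 1), (1, 2), (1, 3), (1, 4), (2, 2), (2, 3), (2, 5), (3, 0), (3,
      1), (3, 5), (3, 6), (4, 0), (4, 4), (4, 7), (5, 0), (5, 5), (5, 7)]
    cl := [0, 0, 1, 0, 2, 3, 5, 4]
    chq := [(4, 5), (5, 4)]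
    rng := [(0, 7), (1, 2), (1, 6), (2, 1), (2, 5), (3, 4), (3, 5), (4, 3), (4, 7), (5, 2), (5, 3), (5,
      6), (5, 7), (6, 1), (6, 5), (7, 0), (7, 4), (7, 5)]
    lev := [] }
  links := [[1, 6, 3, 7], [6, 0, 7, 8, 2, 9, 10, 4], [9, 1, 8, 11], [7, 0, 6, 5, 11, 12], [6, 1, 10, 13],
    [11, 3, 6, 13]]
  P := {
    a := 6
    N := 14
    nb := [202, 2005, 2818, 6369, 9282, 10312, 8251, 4363, 2182, 3078, 8722, 13100, 2184, 3184]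
    tri := [(0, 1, 6), (0, 1, 7), (0, 3, 6), (0, 3, 7), (1, 2, 8), (1, 2, 9), (1, 4, 6), (1, 4, 10),
      (1, 7, 8), (1, 9, 10), (2, 8, 11), (2, 9, 11), (3, 5, 6), (3, 5, 11), (3, 7, 12), (3, 11,
      12), (4, 6, 13), (4, 10, 13), (5, 6, 13), (5, 11, 13)]
    fin := [0, 0, 0, 3, 0, 3, 0, 0, 8, 0, 10, 11, 12, 3]
    chd := [(12, 3)]
    steps := [(0, 1), (0, 2), (0, 4), (0, 6), (0, 7), (0, 9), (3, 5), (3, 13)] }
  rep := [0, 8, 10, 11, 3, 12]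

noncomputable def v497 : Cov.CovD where
  P := 3
  N := 3
  pl := [2, 4, 5]
  lev := [⟨[], [], [(0, 0)], [], [(0, 0, []), (1, 0, [])]⟩,
    ⟨[], [(0, 0)], [(0, 0)], [1, 2], [(0, 0, []), (1, 0, []), (3, 0, [])]⟩,
    ⟨[(0, 1)], [(1, 0)], [], [1, 3], [(3, 0, [])]⟩,
    ⟨[(0, 1)], [(0, 0), (0, 5), (1, 0)], [(0, 0), (0, 5)], [3], [(0, 0, []), (1, 0, []),
      (6, 5, [4])]⟩,
    ⟨[(0, 1), (1, 2)], [(0, 0), (1, 0), (1, 4), (3, 0)], [(0, 4)], [2], [(0, 0, []), (7, 4,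
      [5])]⟩,
    ⟨[(0, 3)], [(0, 0), (1, 0), (3, 0), (3, 4), (3, 5), (4, 0), (4, 4)], [(0, 4)], [3],
      [(0, 0, []), (7, 4, [5])]⟩]
  Ta := [((0, 7), 0, 4), ((1, 2), 0, 1), ((1, 6), 0, 5), ((3, 4), 0, 2), ((3, 5), 0, 3)]
  Tb := [((1, 2, 6), 0, 1, 5), ((2, 1, 5), 1, 0, 3), ((3, 4, 5), 0, 2, 3), ((4, 3, 7), 2, 0, 4),
    ((5, 2, 3), 3, 1, 0), ((5, 2, 6), 3, 1, 5), ((5, 2, 7), 3, 1, 4), ((5, 3, 6), 3, 0, 5),
    ((5, 3, 7), 3, 0, 4), ((5, 6, 7), 3, 5, 4), ((6, 1, 5), 5, 0, 3), ((7, 0, 4), 4, 0, 2),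
    ((7, 0, 5), 4, 0, 3), ((7, 4, 5), 4, 2, 3)]
  Tc := []
  Td := [((4, 5), (7, 0), 0), ((4, 5), (7, 4), 2), ((4, 5), (7, 5), 3), ((5, 4), (6, 1), 0), ((5,
    4), (6, 5), 3)]
  G := [[0, 0, 0, 0x86ca2c2cce184, 0xe24e2c4aa582], [0, 0x185814941852e42, 0, 0x61a111ce182,
    0x121211ae182], [0, 0, 0x12812146c1828c4, 0x12581a129416c42, 0x6181a12416c82]]

noncomputable def n497 : Ent := ⟨e497, noF, [], [], []⟩

def c497 : PLift (Cov.check n497.C.D v497 = true) := ⟨by decide +kernel⟩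

def b497 : PLift (entF (fidx ts) 400 497 n497 = true) := ⟨by decide +kernel⟩

theorem g497 : GoodF (fidx ts) 400 497 := GoodF.ofV v497 n497 c497.down b497.down

/-- 484644:433/1 -/
noncomputable def e498 : SCfg where
  D := {
    a := 6
    L := 9
    kp := 6
    inn := [(0, 1), (0, 3), (1, 0), (1, 2), (1, 4), (2, 1), (3, 0), (3, 5), (4, 1), (5, 3)]
    mix := [(0, 0), (0, 1), (1, 0), (1, 1), (1, 2), (1, 3), (1, 4), (2, 2), (2, 3), (2, 5), (3, 0), (3,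
      1), (3, 6), (3, 7), (4, 0), (4, 4), (4, 8), (5, 0), (5, 6), (5, 8)]
    cl := [0, 0, 1, 0, 2, 6, 4, 5, 3]
    chq := [(3, 5), (5, 3)]
    rng := [(0, 8), (1, 2), (1, 7), (2, 1), (2, 5), (3, 4), (3, 5), (4, 3), (4, 8), (5, 2), (5, 3), (6,
      7), (6, 8), (7, 1), (7, 6), (8, 0), (8, 4), (8, 6)]
    lev := [] }
  links := [[1, 6, 3, 7], [6, 0, 7, 8, 2, 9, 10, 4], [9, 1, 8, 11], [7, 0, 6, 5, 12, 13], [6, 1, 10, 14],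
    [12, 3, 6, 14]]
  P := {
    a := 6
    N := 15
    nb := [202, 2005, 2818, 12513, 17474, 20552, 16443, 8459, 2182, 3078, 16914, 772, 24616, 4232,
      5232]
    tri := [(0, 1, 6), (0, 1, 7), (0, 3, 6), (0, 3, 7), (1, 2, 8), (1, 2, 9), (1, 4, 6), (1, 4, 10),
      (1, 7, 8), (1, 9, 10), (2, 8, 11), (2, 9, 11), (3, 5, 6), (3, 5, 12), (3, 7, 13), (3, 12,
      13), (4, 6, 14), (4, 10, 14), (5, 6, 14), (5, 12, 14)]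
    fin := [0, 0, 0, 3, 0, 3, 0, 0, 8, 0, 10, 11, 12, 13, 3]
    chd := [(13, 3)]
    steps := [(0, 1), (0, 2), (0, 4), (0, 6), (0, 7), (0, 9), (3, 5), (3, 14)] }
  rep := [0, 8, 10, 3, 12, 13, 11]

noncomputable def v498 : Cov.CovD where
  P := 3
  N := 4
  pl := [2, 4, 5, 6]
  lev := [⟨[], [], [(0, 0)], [], [(0, 0, []), (1, 0, [])]⟩,
    ⟨[], [(0, 0)], [(0, 0)], [1, 2], [(0, 0, []), (1, 0, []), (3, 0, [])]⟩,
    ⟨[(0, 1)], [(1, 0)], [], [1, 6], [(3, 0, [])]⟩,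
    ⟨[(0, 1)], [(0, 0), (0, 5), (1, 0)], [(0, 0), (0, 5)], [4], [(0, 0, []), (1, 0, []),
      (7, 5, [3])]⟩,
    ⟨[(0, 1), (1, 2)], [(0, 0), (1, 0), (1, 3), (3, 0)], [(0, 3)], [2], [(0, 0, []), (8, 3,
      [5])]⟩,
    ⟨[(0, 3)], [(0, 0), (1, 0), (3, 0), (3, 3), (3, 5), (4, 0), (4, 3)], [(0, 3)], [4],
      [(0, 0, []), (8, 3, [5])]⟩]
  Ta := [((0, 8), 0, 3), ((1, 2), 0, 1), ((1, 7), 0, 5), ((3, 4), 0, 2), ((3, 5), 0, 6)]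
  Tb := [((1, 2, 7), 0, 1, 5), ((2, 1, 5), 1, 0, 6), ((3, 4, 5), 0, 2, 6), ((4, 3, 8), 2, 0, 3),
    ((5, 2, 3), 6, 1, 0), ((6, 7, 8), 4, 5, 3), ((7, 1, 6), 5, 0, 4), ((8, 0, 4), 3, 0, 2),
    ((8, 0, 6), 3, 0, 4), ((8, 4, 6), 3, 2, 4)]
  Tc := []
  Td := [((3, 5), (8, 0), 0), ((3, 5), (8, 4), 2), ((3, 5), (8, 6), 4), ((5, 3), (7, 1), 0), ((5,
    3), (7, 6), 4)]
  G := [[0, 0, 0, 0x86ca4c84ce182, 0x46a82ac2ae184], [0, 0x61a114ce125129c1ea48, 0,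
    0x21ca1c1e182, 0x81aa1c1e182], [0, 0, 0x316896586e86a41684cec82, 0x61a111ce61a1c1ec48,
    0x61a1c1e183383c1ec82]]

noncomputable def n498 : Ent := ⟨e498, noF, [], [], [(12, 11, [87899351228091456402997525766823824674129406633600834539521, 0])]⟩

def c498 : PLift (Cov.check n498.C.D v498 = true) := ⟨by decide +kernel⟩

def b498 : PLift (entF (fidx ts) 400 498 n498 = true) := ⟨by decide +kernel⟩

theorem g498 : GoodF (fidx ts) 400 498 := GoodF.ofV v498 n498 c498.down b498.down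

/-- 484644:433/3 -/
noncomputable def e499 : SCfg where
  D := {
    a := 6
    L := 9
    kp := 6
    inn := [(0, 1), (0, 3), (1, 0), (1, 2), (1, 4), (2, 1), (3, 0), (3, 5), (4, 1), (5, 3)]
    mix := [(0, 0), (0, 1), (1, 0), (1, 1), (1, 2), (1, 3), (1, 4), (2, 2), (2, 3), (2, 5), (3, 0), (3,
      1), (3, 5), (3, 6), (4, 0), (4, 4), (4, 7), (5, 0), (5, 5), (5, 8)]
    cl := [0, 0, 1, 0, 2, 3, 4, 6, 5]
    chq := [(4, 5), (5, 4)]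
    rng := [(0, 7), (0, 8), (1, 2), (1, 6), (2, 1), (2, 5), (3, 4), (3, 5), (4, 3), (4, 7), (5, 2), (5,
      3), (5, 6), (5, 8), (6, 1), (6, 5), (7, 0), (7, 4), (8, 0), (8, 5)]
    lev := [] }
  links := [[1, 6, 3, 7], [6, 0, 7, 8, 2, 9, 10, 4], [9, 1, 8, 11], [7, 0, 6, 5, 11, 12], [6, 1, 10, 13],
    [11, 3, 6, 14]]
  P := {
    a := 6
    N := 15
    nb := [202, 2005, 2818, 6369, 9282, 18504, 24635, 4363, 2182, 3078, 8722, 21292, 2184, 1104, 2144]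
    tri := [(0, 1, 6), (0, 1, 7), (0, 3, 6), (0, 3, 7), (1, 2, 8), (1, 2, 9), (1, 4, 6), (1, 4, 10),
      (1, 7, 8), (1, 9, 10), (2, 8, 11), (2, 9, 11), (3, 5, 6), (3, 5, 11), (3, 7, 12), (3, 11,
      12), (4, 6, 13), (4, 10, 13), (5, 6, 14), (5, 11, 14)]
    fin := [0, 0, 0, 3, 0, 3, 0, 0, 8, 0, 10, 11, 12, 13, 3]
    chd := [(12, 3)]
    steps := [(0, 1), (0, 2), (0, 4), (0, 6), (0, 7), (0, 9), (3, 5), (3, 14)] }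
  rep := [0, 8, 10, 11, 12, 3, 13]

noncomputable def v499 : Cov.CovD where
  P := 3
  N := 4
  pl := [2, 4, 5, 7]
  lev := [⟨[], [], [(0, 0)], [], [(0, 0, []), (1, 0, [])]⟩,
    ⟨[], [(0, 0)], [(0, 0)], [1, 2], [(0, 0, []), (1, 0, []), (3, 0, [])]⟩,
    ⟨[(0, 1)], [(1, 0)], [], [1, 3], [(3, 0, [])]⟩,
    ⟨[(0, 1)], [(0, 0), (0, 4), (1, 0)], [(0, 0), (0, 4)], [3], [(0, 0, []), (1, 0, []),
      (6, 4, [5])]⟩,
    ⟨[(0, 1), (1, 2)], [(0, 0), (1, 0), (3, 0)], [], [2, 6], [(0, 0, [])]⟩,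
    ⟨[(0, 3)], [(0, 0), (1, 0), (3, 0), (3, 4), (3, 5), (4, 0)], [(0, 5)], [3], [(0, 0,
      []), (8, 5, [4])]⟩]
  Ta := [((0, 7), 0, 6), ((0, 8), 0, 5), ((1, 2), 0, 1), ((1, 6), 0, 4), ((3, 4), 0, 2), ((3, 5),
    0, 3)]
  Tb := [((0, 7, 8), 0, 6, 5), ((1, 2, 6), 0, 1, 4), ((2, 1, 5), 1, 0, 3), ((3, 4, 5), 0, 2, 3),
    ((4, 3, 7), 2, 0, 6), ((5, 2, 3), 3, 1, 0), ((5, 2, 6), 3, 1, 4), ((5, 2, 8), 3, 1, 5),
    ((5, 3, 6), 3, 0, 4), ((5, 3, 8), 3, 0, 5), ((5, 6, 8), 3, 4, 5), ((6, 1, 5), 4, 0, 3),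
    ((7, 0, 4), 6, 0, 2), ((8, 0, 5), 5, 0, 3)]
  Tc := []
  Td := [((4, 5), (6, 1), 0), ((4, 5), (6, 5), 3), ((5, 4), (8, 0), 0), ((5, 4), (8, 5), 3)]
  G := [[0, 0, 0, 0x66caacccce142, 0x66aaaaccae184], [0, 0x6181c2111c6a82, 0, 0x11c11c11ce182,
    0x11a11a11ae184], [0, 0, 0x11c11aa11a11a6c42, 0x6181aa1416c84, 0x6181aa1416c82]]

noncomputable def n499 : Ent := ⟨e499, noF, [], [], [(14, 13, [87897818358406171357428020359653357189577334862559919935489, 0])]⟩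

def c499 : PLift (Cov.check n499.C.D v499 = true) := ⟨by decide +kernel⟩

def b499 : PLift (entF (fidx ts) 400 499 n499 = true) := ⟨by decide +kernel⟩

theorem g499 : GoodF (fidx ts) 400 499 := GoodF.ofV v499 n499 c499.down b499.down

/-- 484644:433 -/
noncomputable def e500 : SCfg where
  D := {
    a := 6
    L := 10
    kp := 7
    inn := [(0, 1), (0, 3), (1, 0), (1, 2), (1, 4), (2, 1), (3, 0), (3, 5), (4, 1), (5, 3)]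
    mix := [(0, 0), (0, 1), (1, 0), (1, 1), (1, 2), (1, 3), (1, 4), (2, 2), (2, 3), (2, 5), (3, 0), (3,
      1), (3, 6), (3, 7), (4, 0), (4, 4), (4, 8), (5, 0), (5, 6), (5, 9)]
    cl := [0, 0, 1, 0, 2, 6, 3, 4, 7, 5]
    chq := [(4, 5), (5, 4)]
    rng := [(0, 8), (0, 9), (1, 2), (1, 7), (2, 1), (2, 5), (3, 4), (3, 5), (4, 3), (4, 8), (5, 2), (5,
      3), (6, 7), (6, 9), (7, 1), (7, 6), (8, 0), (8, 4), (9, 0), (9, 6)]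
    lev := [] }
  links := [[1, 6, 3, 7], [6, 0, 7, 8, 2, 9, 10, 4], [9, 1, 8, 11], [7, 0, 6, 5, 12, 13], [6, 1, 10, 14],
    [12, 3, 6, 15]]
  P := {
    a := 6
    N := 16
    nb := [202, 2005, 2818, 12513, 17474, 36936, 49211, 8459, 2182, 3078, 16914, 772, 41000, 4232,
      1104, 4192]
    tri := [(0, 1, 6), (0, 1, 7), (0, 3, 6), (0, 3, 7), (1, 2, 8), (1, 2, 9), (1, 4, 6), (1, 4, 10),
      (1, 7, 8), (1, 9, 10), (2, 8, 11), (2, 9, 11), (3, 5, 6), (3, 5, 12), (3, 7, 13), (3, 12,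
      13), (4, 6, 14), (4, 10, 14), (5, 6, 15), (5, 12, 15)]
    fin := [0, 0, 0, 3, 0, 3, 0, 0, 8, 0, 10, 11, 12, 13, 14, 3]
    chd := [(13, 3)]
    steps := [(0, 1), (0, 2), (0, 4), (0, 6), (0, 7), (0, 9), (3, 5), (3, 15)] }
  rep := [0, 8, 10, 12, 13, 3, 11, 14]

noncomputable def v500 : Cov.CovD where
  P := 3
  N := 5
  pl := [2, 4, 5, 6, 8]
  lev := [⟨[], [], [(0, 0)], [], [(0, 0, []), (1, 0, [])]⟩,
    ⟨[], [(0, 0)], [(0, 0)], [1, 2], [(0, 0, []), (1, 0, []), (3, 0, [])]⟩,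
    ⟨[(0, 1)], [(1, 0)], [], [1, 6], [(3, 0, [])]⟩,
    ⟨[(0, 1)], [(0, 0), (0, 4), (1, 0)], [(0, 0), (0, 4)], [3], [(0, 0, []), (1, 0, []),
      (7, 4, [5])]⟩,
    ⟨[(0, 1), (1, 2)], [(0, 0), (1, 0), (3, 0)], [], [2, 7], [(0, 0, [])]⟩,
    ⟨[(0, 3)], [(0, 0), (1, 0), (3, 0), (3, 4), (3, 5), (4, 0)], [(0, 5)], [3], [(0, 0,
      []), (9, 5, [4])]⟩]
  Ta := [((0, 8), 0, 7), ((0, 9), 0, 5), ((1, 2), 0, 1), ((1, 7), 0, 4), ((3, 4), 0, 2), ((3, 5),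
    0, 6)]
  Tb := [((0, 8, 9), 0, 7, 5), ((1, 2, 7), 0, 1, 4), ((2, 1, 5), 1, 0, 6), ((3, 4, 5), 0, 2, 6),
    ((4, 3, 8), 2, 0, 7), ((5, 2, 3), 6, 1, 0), ((6, 7, 9), 3, 4, 5), ((7, 1, 6), 4, 0, 3),
    ((8, 0, 4), 7, 0, 2), ((9, 0, 6), 5, 0, 3)]
  Tc := []
  Td := [((4, 5), (7, 1), 0), ((4, 5), (7, 6), 3), ((5, 4), (9, 0), 0), ((5, 4), (9, 6), 3)]
  G := [[0, 0, 0, 0x66caacccce184, 0x66aaaaccae184], [0, 0x61a1c1e6111cc1ea84, 0, 0x6111cc1e184,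
    0x61a111ae182], [0, 0, 0x6161369b6e31c13c95cec84, 0x61a1c1e61a1c1ec82,
    0x61a1c1e61a1c1ec82]]

noncomputable def n500 : Ent := ⟨e500, noF, [], [], [(15, 14, [385746751338780685620664494392815470296102193487288376374534145, 0]), (12, 11, [385753029973385757586473899687645848430002847914503881323655169, 0])]⟩

def c500 : PLift (Cov.check n500.C.D v500 = true) := ⟨by decide +kernel⟩

def b500 : PLift (entF (fidx ts) 400 500 n500 = true) := ⟨by decide +kernel⟩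

theorem g500 : GoodF (fidx ts) 400 500 := GoodF.ofV v500 n500 c500.down b500.down

/-- 484644:434/3 -/
noncomputable def e501 : SCfg where
  D := {
    a := 6
    L := 7
    kp := 4
    inn := [(0, 1), (0, 3), (1, 0), (1, 2), (1, 4), (2, 1), (3, 0), (3, 5), (4, 1), (5, 3)]
    mix := [(0, 0), (0, 1), (1, 0), (1, 1), (1, 2), (1, 3), (1, 4), (2, 2), (2, 3), (2, 5), (3, 0), (3,
      1), (3, 5), (3, 6), (4, 0), (4, 4), (4, 6), (5, 1), (5, 2), (5, 5)]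
    cl := [0, 0, 3, 0, 2, 1, 4]
    chq := [(3, 4), (4, 3)]
    rng := [(0, 6), (1, 2), (2, 1), (2, 5), (3, 4), (3, 5), (4, 3), (4, 6), (5, 2), (5, 3), (5, 6), (6,
      0), (6, 4), (6, 5)]
    lev := [] }
  links := [[1, 6, 3, 7], [6, 0, 7, 8, 2, 9, 10, 4], [9, 1, 8, 11], [7, 0, 6, 12, 11, 5], [6, 1, 10, 12],
    [7, 3, 11, 8]]
  P := {
    a := 6
    N := 13
    nb := [202, 2005, 2818, 6369, 5186, 2440, 4123, 299, 2214, 3078, 4626, 4908, 3160]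
    tri := [(0, 1, 6), (0, 1, 7), (0, 3, 6), (0, 3, 7), (1, 2, 8), (1, 2, 9), (1, 4, 6), (1, 4, 10),
      (1, 7, 8), (1, 9, 10), (2, 8, 11), (2, 9, 11), (3, 5, 7), (3, 5, 11), (3, 6, 12), (3, 11,
      12), (4, 6, 12), (4, 10, 12), (5, 7, 8), (5, 8, 11)]
    fin := [0, 0, 0, 3, 0, 3, 0, 0, 8, 0, 10, 11, 3]
    chd := [(8, 3)]
    steps := [(0, 1), (0, 2), (0, 4), (0, 6), (0, 7), (0, 9), (3, 5), (3, 12)] }
  rep := [0, 11, 10, 8, 3]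

noncomputable def v501 : Cov.CovD where
  P := 3
  N := 2
  pl := [4, 5]
  lev := [⟨[], [], [(0, 0)], [], [(0, 0, []), (1, 0, [])]⟩,
    ⟨[], [(0, 0), (0, 3)], [(0, 0), (0, 3)], [2], [(0, 0, []), (1, 0, []), (2, 3, [4]), (3,
      0, [])]⟩,
    ⟨[(0, 1)], [(1, 0), (1, 3)], [(0, 3)], [1], [(2, 3, [4]), (3, 0, [])]⟩,
    ⟨[(0, 1)], [(0, 0), (0, 4), (1, 0)], [(0, 0), (0, 4)], [1], [(0, 0, []), (1, 0, []),
      (6, 4, [3])]⟩,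
    ⟨[(0, 1), (1, 2)], [(0, 0), (1, 0), (1, 3), (1, 4), (3, 0), (3, 4)], [(0, 4)], [2],
      [(0, 0, []), (6, 4, [3])]⟩,
    ⟨[(0, 3)], [(0, 0), (1, 0), (1, 3), (2, 3), (3, 0), (3, 3), (3, 4)], [(0, 3)], [1],
      [(1, 0, []), (2, 3, [4])]⟩]
  Ta := [((0, 6), 0, 4), ((1, 2), 0, 3), ((3, 4), 0, 2), ((3, 5), 0, 1)]
  Tb := [((2, 1, 5), 3, 0, 1), ((3, 4, 5), 0, 2, 1), ((4, 3, 6), 2, 0, 4), ((5, 2, 3), 1, 3, 0),
    ((5, 2, 6), 1, 3, 4), ((5, 3, 6), 1, 0, 4), ((6, 0, 4), 4, 0, 2), ((6, 0, 5), 4, 0, 1),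
    ((6, 4, 5), 4, 2, 1)]
  Tc := []
  Td := [((3, 4), (2, 1), 0), ((3, 4), (2, 5), 1), ((4, 3), (6, 0), 0), ((4, 3), (6, 4), 2), ((4,
    3), (6, 5), 1)]
  G := [[0, 0, 0, 0x14418188146, 0x8812c11881a2], [0, 0, 0, 0x81484184c2, 0x814418c4181a2], [0,
    0x81484184c2, 0x144128c1884a4, 0x11481184c2, 0x8211c84184a2]]

noncomputable def n501 : Ent := ⟨e501, noF, [], [], []⟩

def c501 : PLift (Cov.check n501.C.D v501 = true) := ⟨by decide +kernel⟩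

def b501 : PLift (entF (fidx ts) 400 501 n501 = true) := ⟨by decide +kernel⟩

theorem g501 : GoodF (fidx ts) 400 501 := GoodF.ofV v501 n501 c501.down b501.down

/-- 484644:434/2 -/
noncomputable def e502 : SCfg where
  D := {
    a := 6
    L := 8
    kp := 5
    inn := [(0, 1), (0, 3), (1, 0), (1, 2), (1, 4), (2, 1), (3, 0), (3, 5), (4, 1), (5, 3)]
    mix := [(0, 0), (0, 1), (1, 0), (1, 1), (1, 2), (1, 3), (1, 4), (2, 2), (2, 3), (2, 5), (3, 0), (3,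
      1), (3, 5), (3, 6), (4, 0), (4, 4), (4, 6), (5, 1), (5, 5), (5, 7)]
    cl := [0, 0, 1, 0, 2, 3, 4, 5]
    chq := [(4, 5), (5, 4)]
    rng := [(0, 6), (1, 2), (1, 7), (2, 1), (2, 5), (3, 4), (3, 5), (4, 3), (4, 6), (5, 2), (5, 3), (5,
      6), (5, 7), (6, 0), (6, 4), (6, 5), (7, 1), (7, 5)]
    lev := [] }
  links := [[1, 6, 3, 7], [6, 0, 7, 8, 2, 9, 10, 4], [9, 1, 8, 11], [7, 0, 6, 12, 11, 5], [6, 1, 10, 12],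
    [7, 3, 11, 13]]
  P := {
    a := 6
    N := 14
    nb := [202, 2005, 2818, 6369, 5186, 10376, 4123, 8491, 2182, 3078, 4626, 13100, 3160, 2208]
    tri := [(0, 1, 6), (0, 1, 7), (0, 3, 6), (0, 3, 7), (1, 2, 8), (1, 2, 9), (1, 4, 6), (1, 4, 10),
      (1, 7, 8), (1, 9, 10), (2, 8, 11), (2, 9, 11), (3, 5, 7), (3, 5, 11), (3, 6, 12), (3, 11,
      12), (4, 6, 12), (4, 10, 12), (5, 7, 13), (5, 11, 13)]
    fin := [0, 0, 0, 3, 0, 3, 0, 0, 8, 0, 10, 11, 3, 13]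
    chd := [(3, 13)]
    steps := [(0, 1), (0, 2), (0, 4), (0, 6), (0, 7), (0, 9), (3, 5), (3, 12)] }
  rep := [0, 8, 10, 11, 3, 13]

noncomputable def v502 : Cov.CovD where
  P := 3
  N := 3
  pl := [2, 4, 5]
  lev := [⟨[], [], [(0, 0)], [], [(0, 0, []), (1, 0, [])]⟩,
    ⟨[], [(0, 0)], [(0, 0)], [1, 2], [(0, 0, []), (1, 0, []), (3, 0, [])]⟩,
    ⟨[(0, 1)], [(1, 0)], [], [1, 3], [(3, 0, [])]⟩,
    ⟨[(0, 1)], [(0, 0), (0, 4), (1, 0)], [(0, 0), (0, 4)], [3], [(0, 0, []), (1, 0, []),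
      (6, 4, [5])]⟩,
    ⟨[(0, 1), (1, 2)], [(0, 0), (1, 0), (1, 4), (3, 0), (3, 4)], [(0, 4)], [2], [(0, 0,
      []), (6, 4, [5])]⟩,
    ⟨[(0, 3)], [(0, 0), (1, 0), (3, 0), (3, 4), (3, 5)], [(0, 5)], [3], [(1, 0, []), (7, 5,
      [4])]⟩]
  Ta := [((0, 6), 0, 4), ((1, 2), 0, 1), ((1, 7), 0, 5), ((3, 4), 0, 2), ((3, 5), 0, 3)]
  Tb := [((1, 2, 7), 0, 1, 5), ((2, 1, 5), 1, 0, 3), ((3, 4, 5), 0, 2, 3), ((4, 3, 6), 2, 0, 4),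
    ((5, 2, 3), 3, 1, 0), ((5, 2, 6), 3, 1, 4), ((5, 2, 7), 3, 1, 5), ((5, 3, 6), 3, 0, 4),
    ((5, 3, 7), 3, 0, 5), ((5, 6, 7), 3, 4, 5), ((6, 0, 4), 4, 0, 2), ((6, 0, 5), 4, 0, 3),
    ((6, 4, 5), 4, 2, 3), ((7, 1, 5), 5, 0, 3)]
  Tc := []
  Td := [((4, 5), (6, 0), 0), ((4, 5), (6, 4), 2), ((4, 5), (6, 5), 3), ((5, 4), (7, 1), 0), ((5,
    4), (7, 5), 3)]
  G := [[0, 0, 0, 0x181411ce142, 0x1811a12e182], [0, 0x6184c21c16a84, 0, 0x61a1c1e148,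
    0x61a1c2e182], [0, 0, 0x14612a14126c84, 0x1114a34416c84, 0x6182a11116c82]]

noncomputable def n502 : Ent := ⟨e502, noF, [], [], [(13, 8, [18394062992640690949557788421104441214327234604876910593, 0])]⟩

def c502 : PLift (Cov.check n502.C.D v502 = true) := ⟨by decide +kernel⟩

def b502 : PLift (entF (fidx ts) 400 502 n502 = true) := ⟨by decide +kernel⟩

theorem g502 : GoodF (fidx ts) 400 502 := GoodF.ofV v502 n502 c502.down b502.down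

/-- 484644:434/4 -/
noncomputable def e503 : SCfg where
  D := {
    a := 6
    L := 8
    kp := 5
    inn := [(0, 1), (0, 3), (1, 0), (1, 2), (1, 4), (2, 1), (3, 0), (3, 5), (4, 1), (5, 3)]
    mix := [(0, 0), (0, 1), (1, 0), (1, 1), (1, 2), (1, 3), (1, 4), (2, 2), (2, 3), (2, 5), (3, 0), (3,
      1), (3, 6), (3, 7), (4, 0), (4, 4), (4, 6), (5, 1), (5, 2), (5, 7)]
    cl := [0, 0, 1, 0, 3, 5, 2, 4]
    chq := [(1, 2), (2, 1)]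
    rng := [(0, 6), (1, 2), (2, 1), (2, 5), (2, 7), (3, 4), (3, 5), (4, 3), (4, 6), (5, 2), (5, 3), (6,
      0), (6, 4), (6, 7), (7, 2), (7, 6)]
    lev := [] }
  links := [[1, 6, 3, 7], [6, 0, 7, 8, 2, 9, 10, 4], [9, 1, 8, 11], [7, 0, 6, 12, 13, 5], [6, 1, 10, 12],
    [7, 3, 13, 8]]
  P := {
    a := 6
    N := 14
    nb := [202, 2005, 2818, 12513, 5186, 8584, 4123, 299, 10406, 3078, 4626, 772, 9304, 4392]
    tri := [(0, 1, 6), (0, 1, 7), (0, 3, 6), (0, 3, 7), (1, 2, 8), (1, 2, 9), (1, 4, 6), (1, 4, 10),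
      (1, 7, 8), (1, 9, 10), (2, 8, 11), (2, 9, 11), (3, 5, 7), (3, 5, 13), (3, 6, 12), (3, 12,
      13), (4, 6, 12), (4, 10, 12), (5, 7, 8), (5, 8, 13)]
    fin := [0, 0, 0, 3, 0, 3, 0, 0, 8, 0, 10, 11, 3, 13]
    chd := [(8, 3)]
    steps := [(0, 1), (0, 2), (0, 4), (0, 6), (0, 7), (0, 9), (3, 5), (3, 12)] }
  rep := [0, 8, 3, 10, 13, 11]

noncomputable def v503 : Cov.CovD where
  P := 3
  N := 3
  pl := [4, 5, 7]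
  lev := [⟨[], [], [(0, 0)], [], [(0, 0, []), (1, 0, [])]⟩,
    ⟨[], [(0, 0), (0, 1)], [(0, 0), (0, 1)], [3], [(0, 0, []), (1, 0, []), (2, 1, [2]), (3,
      0, [])]⟩,
    ⟨[(0, 1)], [(1, 0), (1, 1)], [(0, 1)], [5], [(2, 1, [2]), (3, 0, [])]⟩,
    ⟨[(0, 1)], [(0, 0), (0, 2), (1, 0)], [(0, 0), (0, 2)], [4], [(0, 0, []), (1, 0, []),
      (6, 2, [1])]⟩,
    ⟨[(0, 1), (1, 2)], [(0, 0), (1, 0), (1, 1), (1, 2), (3, 0), (3, 2)], [(0, 2)], [3],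
      [(0, 0, []), (6, 2, [1])]⟩,
    ⟨[(0, 3)], [(0, 0), (1, 0), (1, 1), (2, 1), (3, 0), (3, 1), (3, 2)], [(0, 1)], [4],
      [(1, 0, []), (2, 1, [2])]⟩]
  Ta := [((0, 6), 0, 2), ((1, 2), 0, 1), ((3, 4), 0, 3), ((3, 5), 0, 5)]
  Tb := [((2, 1, 5), 1, 0, 5), ((2, 1, 7), 1, 0, 4), ((2, 5, 7), 1, 5, 4), ((3, 4, 5), 0, 3, 5),
    ((4, 3, 6), 3, 0, 2), ((5, 2, 3), 5, 1, 0), ((6, 0, 4), 2, 0, 3), ((6, 0, 7), 2, 0, 4),
    ((6, 4, 7), 2, 3, 4), ((7, 2, 6), 4, 1, 2)]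
  Tc := []
  Td := [((1, 2), (2, 1), 0), ((1, 2), (2, 5), 5), ((1, 2), (2, 7), 4), ((2, 1), (6, 0), 0), ((2,
    1), (6, 4), 3), ((2, 1), (6, 7), 4)]
  G := [[0, 0, 0x8818618212a1c4, 0x59c2128, 0x8848a11292a1c2], [0, 0x8121c88121c2a8121c446, 0,
    0xc12128, 0x8141a18141a1c4], [0, 0, 0, 0xc1229422c8, 0x8242a1848ac8111a8211acc2]]

noncomputable def n503 : Ent := ⟨e503, noF, [], [], [(13, 11, [18394811281478977149262555032661714881264703900881997825, 0])]⟩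

def c503 : PLift (Cov.check n503.C.D v503 = true) := ⟨by decide +kernel⟩

def b503 : PLift (entF (fidx ts) 400 503 n503 = true) := ⟨by decide +kernel⟩

theorem g503 : GoodF (fidx ts) 400 503 := GoodF.ofV v503 n503 c503.down b503.down

/-- 484644:434/1 -/
noncomputable def e504 : SCfg where
  D := {
    a := 6
    L := 9
    kp := 6
    inn := [(0, 1), (0, 3), (1, 0), (1, 2), (1, 4), (2, 1), (3, 0), (3, 5), (4, 1), (5, 3)]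
    mix := [(0, 0), (0, 1), (1, 0), (1, 1), (1, 2), (1, 3), (1, 4), (2, 2), (2, 3), (2, 5), (3, 0), (3,
      1), (3, 6), (3, 7), (4, 0), (4, 4), (4, 6), (5, 1), (5, 7), (5, 8)]
    cl := [0, 0, 1, 0, 2, 6, 3, 4, 5]
    chq := [(3, 5), (5, 3)]
    rng := [(0, 6), (1, 2), (1, 8), (2, 1), (2, 5), (3, 4), (3, 5), (4, 3), (4, 6), (5, 2), (5, 3), (6,
      0), (6, 4), (6, 7), (7, 6), (7, 8), (8, 1), (8, 7)]
    lev := [] }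
  links := [[1, 6, 3, 7], [6, 0, 7, 8, 2, 9, 10, 4], [9, 1, 8, 11], [7, 0, 6, 12, 13, 5], [6, 1, 10, 12],
    [7, 3, 13, 14]]
  P := {
    a := 6
    N := 15
    nb := [202, 2005, 2818, 12513, 5186, 24712, 4123, 16683, 2182, 3078, 4626, 772, 9304, 20520, 8352]
    tri := [(0, 1, 6), (0, 1, 7), (0, 3, 6), (0, 3, 7), (1, 2, 8), (1, 2, 9), (1, 4, 6), (1, 4, 10),
      (1, 7, 8), (1, 9, 10), (2, 8, 11), (2, 9, 11), (3, 5, 7), (3, 5, 13), (3, 6, 12), (3, 12,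
      13), (4, 6, 12), (4, 10, 12), (5, 7, 14), (5, 13, 14)]
    fin := [0, 0, 0, 3, 0, 3, 0, 0, 8, 0, 10, 11, 3, 13, 14]
    chd := [(3, 14)]
    steps := [(0, 1), (0, 2), (0, 4), (0, 6), (0, 7), (0, 9), (3, 5), (3, 12)] }
  rep := [0, 8, 10, 3, 13, 14, 11]

noncomputable def v504 : Cov.CovD where
  P := 3
  N := 4
  pl := [2, 4, 5, 7]
  lev := [⟨[], [], [(0, 0)], [], [(0, 0, []), (1, 0, [])]⟩,
    ⟨[], [(0, 0)], [(0, 0)], [1, 2], [(0, 0, []), (1, 0, []), (3, 0, [])]⟩,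
    ⟨[(0, 1)], [(1, 0)], [], [1, 6], [(3, 0, [])]⟩,
    ⟨[(0, 1)], [(0, 0), (0, 3), (1, 0)], [(0, 0), (0, 3)], [4], [(0, 0, []), (1, 0, []),
      (6, 3, [5])]⟩,
    ⟨[(0, 1), (1, 2)], [(0, 0), (1, 0), (1, 3), (3, 0), (3, 3)], [(0, 3)], [2], [(0, 0,
      []), (6, 3, [5])]⟩,
    ⟨[(0, 3)], [(0, 0), (1, 0), (3, 0), (3, 3), (3, 5)], [(0, 5)], [4], [(1, 0, []), (8, 5,
      [3])]⟩]
  Ta := [((0, 6), 0, 3), ((1, 2), 0, 1), ((1, 8), 0, 5), ((3, 4), 0, 2), ((3, 5), 0, 6)]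
  Tb := [((1, 2, 8), 0, 1, 5), ((2, 1, 5), 1, 0, 6), ((3, 4, 5), 0, 2, 6), ((4, 3, 6), 2, 0, 3),
    ((5, 2, 3), 6, 1, 0), ((6, 0, 4), 3, 0, 2), ((6, 0, 7), 3, 0, 4), ((6, 4, 7), 3, 2, 4),
    ((7, 6, 8), 4, 3, 5), ((8, 1, 7), 5, 0, 4)]
  Tc := []
  Td := [((3, 5), (6, 0), 0), ((3, 5), (6, 4), 2), ((3, 5), (6, 7), 4), ((5, 3), (8, 1), 0), ((5,
    3), (8, 7), 4)]
  G := [[0, 0, 0, 0x583418ce182, 0x5828a12e184], [0, 0x61a1c1e61a1c1ec42, 0, 0x61a1c1e182,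
    0x61a1c2e184], [0, 0, 0x689412e418a452e8c2, 0x311171e311191ec84, 0x519111e311191ec84]]

noncomputable def n504 : Ent := ⟨e504, noF, [], [], [(13, 11, [87897819106695009670850314479939991540314240926397381959681, 0]), (14, 8, [81620716623019490626259338160855783265958941731545633746945, 0])]⟩

def c504 : PLift (Cov.check n504.C.D v504 = true) := ⟨by decide +kernel⟩

def b504 : PLift (entF (fidx ts) 400 504 n504 = true) := ⟨by decide +kernel⟩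

theorem g504 : GoodF (fidx ts) 400 504 := GoodF.ofV v504 n504 c504.down b504.down

/-- 484644:434/6 -/
noncomputable def e505 : SCfg where
  D := {
    a := 6
    L := 8
    kp := 5
    inn := [(0, 1), (0, 3), (1, 0), (1, 2), (1, 4), (2, 1), (3, 0), (3, 5), (4, 1), (5, 3)]
    mix := [(0, 0), (0, 1), (1, 0), (1, 1), (1, 2), (1, 3), (1, 4), (2, 2), (2, 3), (2, 5), (3, 0), (3,
      1), (3, 5), (3, 6), (4, 0), (4, 4), (4, 7), (5, 1), (5, 2), (5, 5)]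
    cl := [0, 0, 3, 0, 2, 1, 4, 5]
    chq := [(3, 4), (4, 3)]
    rng := [(0, 6), (0, 7), (1, 2), (2, 1), (2, 5), (3, 4), (3, 5), (4, 3), (4, 7), (5, 2), (5, 3), (5,
      6), (6, 0), (6, 5), (7, 0), (7, 4)]
    lev := [] }
  links := [[1, 6, 3, 7], [6, 0, 7, 8, 2, 9, 10, 4], [9, 1, 8, 11], [7, 0, 6, 12, 11, 5], [6, 1, 10, 13],
    [7, 3, 11, 8]]
  P := {
    a := 6
    N := 14
    nb := [202, 2005, 2818, 6369, 9282, 2440, 12315, 299, 2214, 3078, 8722, 4908, 2120, 1104]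
    tri := [(0, 1, 6), (0, 1, 7), (0, 3, 6), (0, 3, 7), (1, 2, 8), (1, 2, 9), (1, 4, 6), (1, 4, 10),
      (1, 7, 8), (1, 9, 10), (2, 8, 11), (2, 9, 11), (3, 5, 7), (3, 5, 11), (3, 6, 12), (3, 11,
      12), (4, 6, 13), (4, 10, 13), (5, 7, 8), (5, 8, 11)]
    fin := [0, 0, 0, 3, 0, 3, 0, 0, 8, 0, 10, 11, 3, 13]
    chd := [(8, 3)]
    steps := [(0, 1), (0, 2), (0, 4), (0, 6), (0, 7), (0, 9), (3, 5), (3, 12)] }
  rep := [0, 11, 10, 8, 3, 13]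

noncomputable def v505 : Cov.CovD where
  P := 3
  N := 3
  pl := [4, 5, 7]
  lev := [⟨[], [], [(0, 0)], [], [(0, 0, []), (1, 0, [])]⟩,
    ⟨[], [(0, 0), (0, 3)], [(0, 0), (0, 3)], [2], [(0, 0, []), (1, 0, []), (2, 3, [4]), (3,
      0, [])]⟩,
    ⟨[(0, 1)], [(1, 0), (1, 3)], [(0, 3)], [1], [(2, 3, [4]), (3, 0, [])]⟩,
    ⟨[(0, 1)], [(0, 0), (0, 4), (1, 0)], [(0, 0), (0, 4)], [1], [(0, 0, []), (1, 0, []),
      (6, 4, [3])]⟩,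
    ⟨[(0, 1), (1, 2)], [(0, 0), (1, 0), (1, 3), (3, 0)], [], [2, 5], [(0, 0, [])]⟩,
    ⟨[(0, 3)], [(0, 0), (1, 0), (1, 3), (2, 3), (3, 0), (3, 3), (3, 4)], [(0, 3)], [1],
      [(1, 0, []), (2, 3, [4])]⟩]
  Ta := [((0, 6), 0, 4), ((0, 7), 0, 5), ((1, 2), 0, 3), ((3, 4), 0, 2), ((3, 5), 0, 1)]
  Tb := [((0, 6, 7), 0, 4, 5), ((2, 1, 5), 3, 0, 1), ((3, 4, 5), 0, 2, 1), ((4, 3, 7), 2, 0, 5),
    ((5, 2, 3), 1, 3, 0), ((5, 2, 6), 1, 3, 4), ((5, 3, 6), 1, 0, 4), ((6, 0, 5), 4, 0, 1),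
    ((7, 0, 4), 5, 0, 2)]
  Tc := []
  Td := [((3, 4), (2, 1), 0), ((3, 4), (2, 5), 1), ((4, 3), (6, 0), 0), ((4, 3), (6, 5), 1)]
  G := [[0, 0, 0, 0x11c4111c81c2, 0x14a81ac111a81a4], [0, 0, 0, 0x81484184c2, 0x4181c84184a2],
    [0, 0x81484184c2, 0x1864841a84c2, 0x11481184c2, 0x4181c81184a2]]

noncomputable def n505 : Ent := ⟨e505, noF, [], [], [(12, 13, [18394062992640663726968434746027364144358640063419994113, 0])]⟩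

def c505 : PLift (Cov.check n505.C.D v505 = true) := ⟨by decide +kernel⟩

def b505 : PLift (entF (fidx ts) 400 505 n505 = true) := ⟨by decide +kernel⟩

theorem g505 : GoodF (fidx ts) 400 505 := GoodF.ofV v505 n505 c505.down b505.down

/-- 484644:434/5 -/
noncomputable def e506 : SCfg where
  D := {
    a := 6
    L := 9
    kp := 6
    inn := [(0, 1), (0, 3), (1, 0), (1, 2), (1, 4), (2, 1), (3, 0), (3, 5), (4, 1), (5, 3)]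
    mix := [(0, 0), (0, 1), (1, 0), (1, 1), (1, 2), (1, 3), (1, 4), (2, 2), (2, 3), (2, 5), (3, 0), (3,
      1), (3, 5), (3, 6), (4, 0), (4, 4), (4, 7), (5, 1), (5, 5), (5, 8)]
    cl := [0, 0, 1, 0, 2, 3, 4, 6, 5]
    chq := [(4, 5), (5, 4)]
    rng := [(0, 6), (0, 7), (1, 2), (1, 8), (2, 1), (2, 5), (3, 4), (3, 5), (4, 3), (4, 7), (5, 2), (5,
      3), (5, 6), (5, 8), (6, 0), (6, 5), (7, 0), (7, 4), (8, 1), (8, 5)]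
    lev := [] }
  links := [[1, 6, 3, 7], [6, 0, 7, 8, 2, 9, 10, 4], [9, 1, 8, 11], [7, 0, 6, 12, 11, 5], [6, 1, 10, 13],
    [7, 3, 11, 14]]
  P := {
    a := 6
    N := 15
    nb := [202, 2005, 2818, 6369, 9282, 18568, 12315, 16683, 2182, 3078, 8722, 21292, 2120, 1104,
      2208]
    tri := [(0, 1, 6), (0, 1, 7), (0, 3, 6), (0, 3, 7), (1, 2, 8), (1, 2, 9), (1, 4, 6), (1, 4, 10),
      (1, 7, 8), (1, 9, 10), (2, 8, 11), (2, 9, 11), (3, 5, 7), (3, 5, 11), (3, 6, 12), (3, 11,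
      12), (4, 6, 13), (4, 10, 13), (5, 7, 14), (5, 11, 14)]
    fin := [0, 0, 0, 3, 0, 3, 0, 0, 8, 0, 10, 11, 3, 13, 14]
    chd := [(3, 14)]
    steps := [(0, 1), (0, 2), (0, 4), (0, 6), (0, 7), (0, 9), (3, 5), (3, 12)] }
  rep := [0, 8, 10, 11, 3, 14, 13]

noncomputable def v506 : Cov.CovD where
  P := 3
  N := 4
  pl := [2, 4, 5, 7]
  lev := [⟨[], [], [(0, 0)], [], [(0, 0, []), (1, 0, [])]⟩,
    ⟨[], [(0, 0)], [(0, 0)], [1, 2], [(0, 0, []), (1, 0, []), (3, 0, [])]⟩,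
    ⟨[(0, 1)], [(1, 0)], [], [1, 3], [(3, 0, [])]⟩,
    ⟨[(0, 1)], [(0, 0), (0, 4), (1, 0)], [(0, 0), (0, 4)], [3], [(0, 0, []), (1, 0, []),
      (6, 4, [5])]⟩,
    ⟨[(0, 1), (1, 2)], [(0, 0), (1, 0), (3, 0)], [], [2, 6], [(0, 0, [])]⟩,
    ⟨[(0, 3)], [(0, 0), (1, 0), (3, 0), (3, 4), (3, 5)], [(0, 5)], [3], [(1, 0, []), (8, 5,
      [4])]⟩]
  Ta := [((0, 6), 0, 4), ((0, 7), 0, 6), ((1, 2), 0, 1), ((1, 8), 0, 5), ((3, 4), 0, 2), ((3, 5),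
    0, 3)]
  Tb := [((0, 6, 7), 0, 4, 6), ((1, 2, 8), 0, 1, 5), ((2, 1, 5), 1, 0, 3), ((3, 4, 5), 0, 2, 3),
    ((4, 3, 7), 2, 0, 6), ((5, 2, 3), 3, 1, 0), ((5, 2, 6), 3, 1, 4), ((5, 2, 8), 3, 1, 5),
    ((5, 3, 6), 3, 0, 4), ((5, 3, 8), 3, 0, 5), ((5, 6, 8), 3, 4, 5), ((6, 0, 5), 4, 0, 3),
    ((7, 0, 4), 6, 0, 2), ((8, 1, 5), 5, 0, 3)]
  Tc := []
  Td := [((4, 5), (6, 0), 0), ((4, 5), (6, 5), 3), ((5, 4), (8, 1), 0), ((5, 4), (8, 5), 3)]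
  G := [[0, 0, 0, 0x11c11c11ce148, 0x11a11a11ae184], [0, 0x618a14c12e84, 0, 0x61a1c1e184,
    0x61a1c1e182], [0, 0, 0x11a88ca11a41a6c42, 0x1181a31416c82, 0x3181a11116c84]]

noncomputable def n506 : Ent := ⟨e506, noF, [], [], [(12, 13, [87897818358406171357428020359653357189577334862559919955969, 0]), (14, 8, [81620716623019490626259338160855783265958941731545633755137, 0])]⟩

def c506 : PLift (Cov.check n506.C.D v506 = true) := ⟨by decide +kernel⟩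

def b506 : PLift (entF (fidx ts) 400 506 n506 = true) := ⟨by decide +kernel⟩

theorem g506 : GoodF (fidx ts) 400 506 := GoodF.ofV v506 n506 c506.down b506.down

/-- 484644:434/7 -/
noncomputable def e507 : SCfg where
  D := {
    a := 6
    L := 9
    kp := 6
    inn := [(0, 1), (0, 3), (1, 0), (1, 2), (1, 4), (2, 1), (3, 0), (3, 5), (4, 1), (5, 3)]
    mix := [(0, 0), (0, 1), (1, 0), (1, 1), (1, 2), (1, 3), (1, 4), (2, 2), (2, 3), (2, 5), (3, 0), (3,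
      1), (3, 6), (3, 7), (4, 0), (4, 4), (4, 8), (5, 1), (5, 2), (5, 7)]
    cl := [0, 0, 1, 0, 2, 5, 4, 3, 6]
    chq := [(1, 4), (4, 1)]
    rng := [(0, 6), (0, 8), (1, 2), (2, 1), (2, 5), (2, 7), (3, 4), (3, 5), (4, 3), (4, 8), (5, 2), (5,
      3), (6, 0), (6, 7), (7, 2), (7, 6), (8, 0), (8, 4)]
    lev := [] }
  links := [[1, 6, 3, 7], [6, 0, 7, 8, 2, 9, 10, 4], [9, 1, 8, 11], [7, 0, 6, 12, 13, 5], [6, 1, 10, 14],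
    [7, 3, 13, 8]]
  P := {
    a := 6
    N := 15
    nb := [202, 2005, 2818, 12513, 17474, 8584, 20507, 299, 10406, 3078, 16914, 772, 8264, 4392, 1104]
    tri := [(0, 1, 6), (0, 1, 7), (0, 3, 6), (0, 3, 7), (1, 2, 8), (1, 2, 9), (1, 4, 6), (1, 4, 10),
      (1, 7, 8), (1, 9, 10), (2, 8, 11), (2, 9, 11), (3, 5, 7), (3, 5, 13), (3, 6, 12), (3, 12,
      13), (4, 6, 14), (4, 10, 14), (5, 7, 8), (5, 8, 13)]
    fin := [0, 0, 0, 3, 0, 3, 0, 0, 8, 0, 10, 11, 3, 13, 14]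
    chd := [(8, 3)]
    steps := [(0, 1), (0, 2), (0, 4), (0, 6), (0, 7), (0, 9), (3, 5), (3, 12)] }
  rep := [0, 8, 10, 13, 3, 11, 14]

noncomputable def v507 : Cov.CovD where
  P := 3
  N := 4
  pl := [4, 5, 7, 8]
  lev := [⟨[], [], [(0, 0)], [], [(0, 0, []), (1, 0, [])]⟩,
    ⟨[], [(0, 0), (0, 1)], [(0, 0), (0, 1)], [2], [(0, 0, []), (1, 0, []), (2, 1, [4]), (3,
      0, [])]⟩,
    ⟨[(0, 1)], [(1, 0), (1, 1)], [(0, 1)], [5], [(2, 1, [4]), (3, 0, [])]⟩,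
    ⟨[(0, 1)], [(0, 0), (0, 4), (1, 0)], [(0, 0), (0, 4)], [3], [(0, 0, []), (1, 0, []),
      (6, 4, [1])]⟩,
    ⟨[(0, 1), (1, 2)], [(0, 0), (1, 0), (1, 1), (3, 0)], [], [2, 6], [(0, 0, [])]⟩,
    ⟨[(0, 3)], [(0, 0), (1, 0), (1, 1), (2, 1), (3, 0), (3, 1), (3, 4)], [(0, 1)], [3],
      [(1, 0, []), (2, 1, [4])]⟩]
  Ta := [((0, 6), 0, 4), ((0, 8), 0, 6), ((1, 2), 0, 1), ((3, 4), 0, 2), ((3, 5), 0, 5)]
  Tb := [((0, 6, 8), 0, 4, 6), ((2, 1, 5), 1, 0, 5), ((2, 1, 7), 1, 0, 3), ((2, 5, 7), 1, 5, 3),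
    ((3, 4, 5), 0, 2, 5), ((4, 3, 8), 2, 0, 6), ((5, 2, 3), 5, 1, 0), ((6, 0, 7), 4, 0, 3),
    ((7, 2, 6), 3, 1, 4), ((8, 0, 4), 6, 0, 2)]
  Tc := []
  Td := [((1, 4), (2, 1), 0), ((1, 4), (2, 5), 5), ((1, 4), (2, 7), 3), ((4, 1), (6, 0), 0), ((4,
    1), (6, 7), 3)]
  G := [[0, 0, 0, 0x14c88c91ce184, 0x88a18a51ae184], [0, 0x212848141c8141c1e686, 0,
    0x8181c1e184, 0x8141c1e182], [0, 0, 0x14c48651ce44a84a11aec48, 0x418111e4141c1ec48,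
    0x814111e814111ec82]]

noncomputable def n507 : Ent := ⟨e507, noF, [], [], [(12, 14, [81620716623019490593592230936445690773474979418095885447169, 0]), (13, 11, [87897819106695009670850314479939991540314240926397381971969, 0])]⟩

def c507 : PLift (Cov.check n507.C.D v507 = true) := ⟨by decide +kernel⟩

def b507 : PLift (entF (fidx ts) 400 507 n507 = true) := ⟨by decide +kernel⟩

theorem g507 : GoodF (fidx ts) 400 507 := GoodF.ofV v507 n507 c507.down b507.down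

/-- 484644:434 -/
noncomputable def e508 : SCfg where
  D := {
    a := 6
    L := 10
    kp := 7
    inn := [(0, 1), (0, 3), (1, 0), (1, 2), (1, 4), (2, 1), (3, 0), (3, 5), (4, 1), (5, 3)]
    mix := [(0, 0), (0, 1), (1, 0), (1, 1), (1, 2), (1, 3), (1, 4), (2, 2), (2, 3), (2, 5), (3, 0), (3,
      1), (3, 6), (3, 7), (4, 0), (4, 4), (4, 8), (5, 1), (5, 7), (5, 9)]
    cl := [0, 0, 1, 0, 2, 6, 4, 3, 7, 5]
    chq := [(4, 5), (5, 4)]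
    rng := [(0, 6), (0, 8), (1, 2), (1, 9), (2, 1), (2, 5), (3, 4), (3, 5), (4, 3), (4, 8), (5, 2), (5,
      3), (6, 0), (6, 7), (7, 6), (7, 9), (8, 0), (8, 4), (9, 1), (9, 7)]
    lev := [] }
  links := [[1, 6, 3, 7], [6, 0, 7, 8, 2, 9, 10, 4], [9, 1, 8, 11], [7, 0, 6, 12, 13, 5], [6, 1, 10, 14],
    [7, 3, 13, 15]]
  P := {
    a := 6
    N := 16
    nb := [202, 2005, 2818, 12513, 17474, 41096, 20507, 33067, 2182, 3078, 16914, 772, 8264, 36904,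
      1104, 8352]
    tri := [(0, 1, 6), (0, 1, 7), (0, 3, 6), (0, 3, 7), (1, 2, 8), (1, 2, 9), (1, 4, 6), (1, 4, 10),
      (1, 7, 8), (1, 9, 10), (2, 8, 11), (2, 9, 11), (3, 5, 7), (3, 5, 13), (3, 6, 12), (3, 12,
      13), (4, 6, 14), (4, 10, 14), (5, 7, 15), (5, 13, 15)]
    fin := [0, 0, 0, 3, 0, 3, 0, 0, 8, 0, 10, 11, 3, 13, 14, 15]
    chd := [(3, 15)]
    steps := [(0, 1), (0, 2), (0, 4), (0, 6), (0, 7), (0, 9), (3, 5), (3, 12)] }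
  rep := [0, 8, 10, 13, 3, 15, 11, 14]

noncomputable def v508 : Cov.CovD where
  P := 3
  N := 5
  pl := [2, 4, 5, 7, 8]
  lev := [⟨[], [], [(0, 0)], [], [(0, 0, []), (1, 0, [])]⟩,
    ⟨[], [(0, 0)], [(0, 0)], [1, 2], [(0, 0, []), (1, 0, []), (3, 0, [])]⟩,
    ⟨[(0, 1)], [(1, 0)], [], [1, 6], [(3, 0, [])]⟩,
    ⟨[(0, 1)], [(0, 0), (0, 4), (1, 0)], [(0, 0), (0, 4)], [3], [(0, 0, []), (1, 0, []),
      (6, 4, [5])]⟩,
    ⟨[(0, 1), (1, 2)], [(0, 0), (1, 0), (3, 0)], [], [2, 7], [(0, 0, [])]⟩,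
    ⟨[(0, 3)], [(0, 0), (1, 0), (3, 0), (3, 4), (3, 5)], [(0, 5)], [3], [(1, 0, []), (9, 5,
      [4])]⟩]
  Ta := [((0, 6), 0, 4), ((0, 8), 0, 7), ((1, 2), 0, 1), ((1, 9), 0, 5), ((3, 4), 0, 2), ((3, 5),
    0, 6)]
  Tb := [((0, 6, 8), 0, 4, 7), ((1, 2, 9), 0, 1, 5), ((2, 1, 5), 1, 0, 6), ((3, 4, 5), 0, 2, 6),
    ((4, 3, 8), 2, 0, 7), ((5, 2, 3), 6, 1, 0), ((6, 0, 7), 4, 0, 3), ((7, 6, 9), 3, 4, 5),
    ((8, 0, 4), 7, 0, 2), ((9, 1, 7), 5, 0, 3)]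
  Tc := []
  Td := [((4, 5), (6, 0), 0), ((4, 5), (6, 7), 3), ((5, 4), (9, 1), 0), ((5, 4), (9, 7), 3)]
  G := [[0, 0, 0, 0x15c3ac51ce184, 0x36a11ac9ae182], [0, 0x61a1c1e61a1c1e684, 0, 0x61a1c1e148,
    0x61a1c1e184], [0, 0, 0x13c13a7cae11a3aabcaec48, 0x619111e51a111ec84,
    0x613151e3111c1ec82]]

noncomputable def n508 : Ent := ⟨e508, noF, [], [], [(12, 14, [385746751338780685620664494392815470296102193487288376374558721, 0]), (13, 11, [385753028441264361139741752476358964596869032748796677871083521, 0]), (15, 8, [360035742630636841212031212540452013763654843542796049049432065, 0])]⟩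

def c508 : PLift (Cov.check n508.C.D v508 = true) := ⟨by decide +kernel⟩

def b508 : PLift (entF (fidx ts) 400 508 n508 = true) := ⟨by decide +kernel⟩

theorem g508 : GoodF (fidx ts) 400 508 := GoodF.ofV v508 n508 c508.down b508.down

/-- 457746:435 -/
noncomputable def e509 : SCfg where
  D := {
    a := 6
    L := 10
    kp := 7
    inn := [(0, 1), (0, 2), (1, 0), (1, 2), (2, 0), (2, 1), (2, 3), (2, 5), (3, 2), (3, 4), (3, 5), (4,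
      3), (4, 5), (5, 2), (5, 3), (5, 4)]
    mix := [(0, 0), (0, 1), (1, 1), (1, 2), (1, 3), (2, 0), (2, 3), (2, 4), (3, 4), (3, 5), (3, 6), (3,
      7), (4, 7), (4, 8), (5, 0), (5, 8), (5, 9)]
    cl := [0, 2, 4, 0, 1, 5, 6, 1, 3, 7]
    chq := [(0, 3), (3, 0)]
    rng := [(0, 1), (0, 9), (1, 0), (1, 2), (2, 1), (2, 3), (3, 2), (3, 4), (4, 3), (4, 5), (5, 4), (5,
      6), (6, 5), (6, 7), (7, 6), (7, 8), (8, 7), (8, 9), (9, 0), (9, 8)]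
    lev := [] }
  links := [[1, 2, 6, 7], [2, 0, 7, 8, 9], [6, 0, 1, 9, 10, 3, 5], [5, 2, 10, 11, 12, 13, 4], [5, 3, 13,
    14], [6, 2, 3, 4, 14, 15]]
  P := {
    a := 6
    N := 16
    nb := [198, 901, 1643, 15412, 24616, 49244, 32933, 323, 642, 1286, 2572, 5128, 10248, 20504,
      41008, 16480]
    tri := [(0, 1, 2), (0, 1, 7), (0, 2, 6), (0, 6, 7), (1, 2, 9), (1, 7, 8), (1, 8, 9), (2, 3, 5), (2,
      3, 10), (2, 5, 6), (2, 9, 10), (3, 4, 5), (3, 4, 13), (3, 10, 11), (3, 11, 12), (3, 12, 13),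
      (4, 5, 14), (4, 13, 14), (5, 6, 15), (5, 14, 15)]
    fin := [0, 0, 0, 3, 0, 0, 0, 7, 8, 0, 3, 11, 12, 3, 14, 15]
    chd := [(0, 14)]
    steps := [(0, 1), (0, 2), (0, 5), (0, 4), (0, 6), (0, 9), (3, 10), (3, 13)] }
  rep := [0, 3, 7, 14, 8, 11, 12, 15]

noncomputable def v509 : Cov.CovD where
  P := 3
  N := 5
  pl := [1, 2, 5, 6, 9]
  lev := [⟨[], [], [], [2], [(0, 0, [3])]⟩,
    ⟨[], [(0, 0)], [], [2, 4], [(3, 0, [3])]⟩,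
    ⟨[(0, 1)], [(0, 0), (0, 1), (1, 0), (1, 1)], [(0, 0), (0, 1)], [], [(0, 0, [3]), (3, 0,
      [3]), (4, 1, [])]⟩,
    ⟨[(0, 2), (1, 2)], [(2, 0), (2, 1)], [(1, 1)], [5, 6], [(4, 1, []), (7, 1, [])]⟩,
    ⟨[(2, 3)], [(3, 1), (3, 3)], [(1, 3)], [], [(7, 1, []), (8, 3, [0])]⟩,
    ⟨[(0, 2), (1, 2), (2, 3), (2, 4), (3, 4)], [(0, 0), (2, 0), (2, 1), (2, 3), (3, 0), (3,
      1), (3, 3), (4, 0), (4, 1), (4, 3)], [(0, 3)], [7], [(0, 0, [3]), (8, 3, [0])]⟩]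
  Ta := [((0, 1), 0, 2), ((0, 9), 0, 7), ((3, 2), 0, 4), ((3, 4), 0, 1), ((4, 3), 1, 0), ((4, 5),
    1, 5), ((7, 6), 1, 6), ((7, 8), 1, 3)]
  Tb := [((0, 1, 9), 0, 2, 7), ((1, 0, 2), 2, 0, 4), ((2, 1, 3), 4, 2, 0), ((3, 2, 4), 0, 4, 1),
    ((4, 3, 5), 1, 0, 5), ((5, 4, 6), 5, 1, 6), ((6, 5, 7), 6, 5, 1), ((7, 6, 8), 1, 6, 3),
    ((8, 7, 9), 3, 1, 7), ((9, 0, 8), 7, 0, 3)]
  Tc := []
  Td := [((0, 3), (0, 1), 2), ((0, 3), (0, 9), 7), ((0, 3), (3, 2), 4), ((0, 3), (3, 4), 1), ((3,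
    0), (8, 7), 1), ((3, 0), (8, 9), 7)]
  G := [[0, 0, 0x424e1a1e1dc61e1e1d818cc2, 0x61e1c23d828c14, 0x61e1c23d828c12], [0, 0,
    0xe1a1e1d4146414e1829e1dca8, 0xe121a69dc14618, 0x614e188c69dc18], [0,
    0x11611611ce211611611ce2c4, 0, 0x16926c529a829c523d2c23d8c4,
    0x4251d2a1a88dc523e1c23d8a2], [0, 0, 0, 0x1692151dc84c9a61e1ae5d818ac4,
    0x6141a518a69dc144e1a1ae5dca2]]

noncomputable def n509 : Ent := ⟨e509, noF, [], [], []⟩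

def c509 : PLift (Cov.check n509.C.D v509 = true) := ⟨by decide +kernel⟩

def b509 : PLift (entF (fidx ts) 400 509 n509 = true) := ⟨by decide +kernel⟩

theorem g509 : GoodF (fidx ts) 400 509 := GoodF.ofV v509 n509 c509.down b509.down

/-- 484566:437 -/
noncomputable def e510 : SCfg where
  D := {
    a := 6
    L := 10
    kp := 7
    inn := [(0, 1), (0, 3), (1, 0), (1, 2), (1, 3), (1, 4), (1, 5), (2, 1), (2, 4), (3, 0), (3, 1), (4,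
      1), (4, 2), (4, 5), (5, 1), (5, 4)]
    mix := [(0, 0), (0, 1), (1, 0), (1, 2), (1, 3), (2, 2), (2, 4), (3, 1), (3, 2), (3, 5), (4, 4), (4,
      6), (4, 7), (5, 3), (5, 7), (5, 8), (5, 9)]
    cl := [0, 1, 0, 3, 2, 5, 4, 3, 6, 7]
    chq := [(0, 4), (4, 0)]
    rng := [(0, 1), (0, 3), (1, 0), (1, 5), (2, 4), (2, 5), (3, 0), (3, 9), (4, 2), (4, 6), (5, 1), (5,
      2), (6, 4), (6, 7), (7, 6), (7, 8), (8, 7), (8, 9), (9, 3), (9, 8)]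
    lev := [] }
  links := [[1, 6, 7, 3], [6, 0, 3, 8, 2, 4, 5, 9], [4, 1, 8, 10], [8, 1, 0, 7, 11], [5, 1, 2, 10, 12,
    13], [9, 1, 4, 13, 14, 15]]
  P := {
    a := 6
    N := 16
    nb := [202, 893, 1298, 2435, 13350, 57874, 643, 2121, 3086, 32866, 4372, 392, 9232, 20528, 40992,
      16928]
    tri := [(0, 1, 3), (0, 1, 6), (0, 3, 7), (0, 6, 7), (1, 2, 4), (1, 2, 8), (1, 3, 8), (1, 4, 5), (1,
      5, 9), (1, 6, 9), (2, 4, 10), (2, 8, 10), (3, 7, 11), (3, 8, 11), (4, 5, 13), (4, 10, 12),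
      (4, 12, 13), (5, 9, 15), (5, 13, 14), (5, 14, 15)]
    fin := [0, 0, 0, 0, 0, 5, 0, 7, 0, 5, 10, 11, 12, 5, 14, 15]
    chd := [(0, 12)]
    steps := [(0, 1), (0, 2), (0, 3), (0, 4), (0, 6), (0, 8), (5, 13), (5, 9)] }
  rep := [0, 7, 10, 5, 12, 11, 14, 15]

noncomputable def v510 : Cov.CovD where
  P := 3
  N := 5
  pl := [1, 4, 5, 8, 9]
  lev := [⟨[], [], [], [1], [(0, 0, [4])]⟩,
    ⟨[], [(0, 0), (0, 3)], [(0, 0), (0, 3)], [], [(0, 0, [4]), (2, 0, [4]), (3, 3, [])]⟩,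
    ⟨[(0, 1)], [(1, 0), (1, 3)], [], [2], [(2, 0, [4])]⟩,
    ⟨[(0, 1), (1, 2)], [(0, 0), (1, 0), (1, 3), (2, 0)], [], [1, 5], [(2, 0, [4])]⟩,
    ⟨[(0, 1), (1, 2), (1, 3)], [(1, 0), (1, 3), (1, 4), (2, 0), (2, 3), (2, 4)], [(3, 4)],
      [2], [(6, 4, [0]), (7, 3, [])]⟩,
    ⟨[(0, 1), (1, 2), (1, 3), (1, 4), (2, 4)], [(1, 0), (1, 3), (4, 3), (4, 4)], [(3, 3)],
      [6, 7], [(3, 3, []), (7, 3, [])]⟩]
  Ta := [((0, 1), 0, 1), ((0, 3), 0, 3), ((2, 4), 0, 2), ((2, 5), 0, 5), ((3, 0), 3, 0), ((3, 9),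
    3, 7), ((7, 6), 3, 4), ((7, 8), 3, 6)]
  Tb := [((0, 1, 3), 0, 1, 3), ((1, 0, 5), 1, 0, 5), ((2, 4, 5), 0, 2, 5), ((3, 0, 9), 3, 0, 7),
    ((4, 2, 6), 2, 0, 4), ((5, 1, 2), 5, 1, 0), ((6, 4, 7), 4, 2, 3), ((7, 6, 8), 3, 4, 6),
    ((8, 7, 9), 6, 3, 7), ((9, 3, 8), 7, 3, 6)]
  Tc := []
  Td := [((0, 4), (0, 1), 1), ((0, 4), (0, 3), 3), ((0, 4), (2, 4), 2), ((0, 4), (2, 5), 5), ((4,
    0), (6, 4), 2), ((4, 0), (6, 7), 3)]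
  G := [[0, 0xb1b1647171a8c2, 0, 0x1d5181b91468, 0xd2181f31868], [0, 0xf1f1c428, 0, 0x11fd1848,
    0x11fb1248], [0, 0, 0x72f2c48288f8af8c4e4, 0x144155d1cc81881f5175c8e1,
    0x51421d9189c21b31e3c8e1], [0, 0, 0x59fe44f28f88af464ca84ce1, 0x11fd11fdc821,
    0x11fb11fbc828]]

noncomputable def n510 : Ent := ⟨e510, noF, [], [], []⟩

def c510 : PLift (Cov.check n510.C.D v510 = true) := ⟨by decide +kernel⟩

def b510 : PLift (entF (fidx ts) 400 510 n510 = true) := ⟨by decide +kernel⟩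

theorem g510 : GoodF (fidx ts) 400 510 := GoodF.ofV v510 n510 c510.down b510.down

/-- 484564:438/1 -/
noncomputable def e511 : SCfg where
  D := {
    a := 6
    L := 8
    kp := 5
    inn := [(0, 1), (0, 3), (1, 0), (1, 2), (1, 3), (1, 4), (2, 1), (2, 4), (3, 0), (3, 1), (4, 1), (4,
      2), (4, 5), (5, 4)]
    mix := [(0, 0), (0, 1), (1, 0), (1, 2), (1, 3), (1, 4), (2, 2), (2, 5), (3, 1), (3, 2), (3, 6), (4,
      3), (4, 5), (4, 7), (5, 1), (5, 5), (5, 7)]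
    cl := [0, 2, 0, 1, 4, 1, 5, 3]
    chq := []
    rng := [(0, 1), (0, 4), (1, 0), (1, 5), (1, 6), (1, 7), (2, 5), (2, 6), (3, 4), (3, 7), (4, 0), (4,
      3), (5, 1), (5, 2), (6, 1), (6, 2), (7, 1), (7, 3)]
    lev := [] }
  links := [[1, 6, 7, 3], [6, 0, 3, 8, 2, 4, 9, 10], [4, 1, 8, 11], [8, 1, 0, 7, 12], [9, 1, 2, 11, 5,
    13], [13, 4, 11, 7]]
  P := {
    a := 6
    N := 14
    nb := [202, 1885, 2322, 4483, 10790, 10384, 1155, 14441, 6158, 9234, 578, 436, 392, 688]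
    tri := [(0, 1, 3), (0, 1, 6), (0, 3, 7), (0, 6, 7), (1, 2, 4), (1, 2, 8), (1, 3, 8), (1, 4, 9), (1,
      6, 10), (1, 9, 10), (2, 4, 11), (2, 8, 11), (3, 7, 12), (3, 8, 12), (4, 5, 11), (4, 5, 13),
      (4, 9, 13), (5, 7, 11), (5, 7, 13)]
    fin := [0, 0, 0, 0, 4, 5, 0, 5, 0, 4, 10, 4, 12, 13]
    chd := []
    steps := [(0, 1), (0, 2), (0, 3), (0, 6), (0, 8), (4, 11), (4, 9), (5, 7)] }
  rep := [0, 4, 5, 13, 10, 12]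

noncomputable def v511 : Cov.CovD where
  P := 3
  N := 3
  pl := [1, 4, 6, 7]
  lev := [⟨[], [], [], [2], [(0, 0, [])]⟩,
    ⟨[], [(0, 0), (0, 1)], [(0, 0), (0, 1)], [4], [(0, 0, []), (2, 0, []), (3, 1, [])]⟩,
    ⟨[(0, 1)], [(1, 0), (1, 1)], [(0, 1)], [], [(2, 0, []), (5, 1, [])]⟩,
    ⟨[(0, 1), (1, 2)], [(0, 0), (1, 0), (1, 1), (2, 0)], [], [2, 5], [(2, 0, [])]⟩,
    ⟨[(0, 1), (1, 2), (1, 3)], [(1, 0), (1, 1), (2, 0), (2, 1)], [(1, 1)], [3], [(3, 1,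
      []), (5, 1, [])]⟩,
    ⟨[(1, 4), (2, 4)], [(2, 1), (4, 1)], [], [2, 3], [(5, 1, [])]⟩]
  Ta := [((0, 1), 0, 2), ((0, 4), 0, 4), ((2, 5), 0, 1), ((2, 6), 0, 5), ((3, 4), 1, 4), ((3, 7),
    1, 3), ((5, 1), 1, 2), ((5, 2), 1, 0)]
  Tb := [((0, 1, 4), 0, 2, 4), ((1, 0, 5), 2, 0, 1), ((1, 0, 6), 2, 0, 5), ((1, 0, 7), 2, 0, 3),
    ((1, 5, 6), 2, 1, 5), ((1, 5, 7), 2, 1, 3), ((1, 6, 7), 2, 5, 3), ((2, 5, 6), 0, 1, 5),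
    ((3, 4, 7), 1, 4, 3), ((4, 0, 3), 4, 0, 1), ((5, 1, 2), 1, 2, 0), ((6, 1, 2), 5, 2, 0),
    ((7, 1, 3), 3, 2, 1)]
  Tc := []
  Td := []
  G := [[0, 0, 0xa1a1a46161a4c2, 0, 0x8151281914c2], [0, 0, 0xc1c1c828, 0x4151828, 0x8191428],
    [0, 0, 0, 0, 0x815219a4825219a8c1], [0, 0x486486c284a84ac2c1, 0, 0x415419c821,
    0x815288152881984e1]]

noncomputable def n511 : Ent := ⟨e511, noF, [], [], []⟩

def c511 : PLift (Cov.check n511.C.D v511 = true) := ⟨by decide +kernel⟩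

def b511 : PLift (entF (fidx ts) 400 511 n511 = true) := ⟨by decide +kernel⟩

theorem g511 : GoodF (fidx ts) 400 511 := GoodF.ofV v511 n511 c511.down b511.down

/-- 484564:438/2 -/
noncomputable def e512 : SCfg where
  D := {
    a := 6
    L := 8
    kp := 5
    inn := [(0, 1), (0, 3), (1, 0), (1, 2), (1, 3), (1, 4), (2, 1), (2, 4), (3, 0), (3, 1), (4, 1), (4,
      2), (4, 5), (5, 4)]
    mix := [(0, 0), (0, 1), (1, 0), (1, 2), (1, 3), (1, 4), (2, 2), (2, 5), (3, 1), (3, 2), (3, 6), (4,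
      3), (4, 5), (4, 7), (5, 5), (5, 6), (5, 7)]
    cl := [0, 3, 0, 1, 5, 1, 2, 4]
    chq := []
    rng := [(0, 1), (0, 4), (1, 0), (1, 6), (2, 5), (2, 6), (3, 4), (3, 7), (4, 0), (4, 3), (5, 2), (5,
      6), (6, 1), (6, 2), (6, 5), (6, 7), (7, 3), (7, 6)]
    lev := [] }
  links := [[1, 6, 7, 3], [6, 0, 3, 8, 2, 4, 9, 10], [4, 1, 8, 11], [8, 1, 0, 7, 12], [9, 1, 2, 11, 5,
    13], [13, 4, 11, 12]]
  P := {
    a := 6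
    N := 14
    nb := [202, 1885, 2322, 4483, 10790, 14352, 1155, 4169, 6158, 9234, 578, 4404, 10664, 4656]
    tri := [(0, 1, 3), (0, 1, 6), (0, 3, 7), (0, 6, 7), (1, 2, 4), (1, 2, 8), (1, 3, 8), (1, 4, 9), (1,
      6, 10), (1, 9, 10), (2, 4, 11), (2, 8, 11), (3, 7, 12), (3, 8, 12), (4, 5, 11), (4, 5, 13),
      (4, 9, 13), (5, 11, 12), (5, 12, 13)]
    fin := [0, 0, 0, 0, 4, 5, 0, 7, 0, 4, 10, 4, 5, 13]
    chd := []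
    steps := [(0, 1), (0, 2), (0, 3), (0, 6), (0, 8), (4, 11), (4, 9), (5, 12)] }
  rep := [0, 4, 5, 7, 13, 10]

noncomputable def v512 : Cov.CovD where
  P := 3
  N := 3
  pl := [1, 4, 6, 7]
  lev := [⟨[], [], [], [3], [(0, 0, [])]⟩,
    ⟨[], [(0, 0), (0, 1)], [(0, 0), (0, 1)], [5], [(0, 0, []), (2, 0, []), (3, 1, [])]⟩,
    ⟨[(0, 1)], [(1, 0), (1, 1)], [(0, 1)], [], [(2, 0, []), (5, 1, [])]⟩,
    ⟨[(0, 1), (1, 2)], [(0, 0), (1, 0), (1, 1), (2, 0)], [], [2, 3], [(2, 0, [])]⟩,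
    ⟨[(0, 1), (1, 2), (1, 3)], [(1, 0), (1, 1), (2, 0), (2, 1)], [(1, 1)], [4], [(3, 1,
      []), (5, 1, [])]⟩,
    ⟨[(1, 4), (2, 4)], [(2, 1), (4, 1)], [], [2, 4], [(5, 1, [])]⟩]
  Ta := [((0, 1), 0, 3), ((0, 4), 0, 5), ((2, 5), 0, 1), ((2, 6), 0, 2), ((3, 4), 1, 5), ((3, 7),
    1, 4), ((5, 2), 1, 0), ((5, 6), 1, 2)]
  Tb := [((0, 1, 4), 0, 3, 5), ((1, 0, 6), 3, 0, 2), ((2, 5, 6), 0, 1, 2), ((3, 4, 7), 1, 5, 4),
    ((4, 0, 3), 5, 0, 1), ((5, 2, 6), 1, 0, 2), ((6, 1, 2), 2, 3, 0), ((6, 1, 5), 2, 3, 1),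
    ((6, 1, 7), 2, 3, 4), ((6, 2, 5), 2, 0, 1), ((6, 2, 7), 2, 0, 4), ((6, 5, 7), 2, 1, 4),
    ((7, 3, 6), 4, 1, 2)]
  Tc := []
  Td := []
  G := [[0, 0, 0, 0, 0x2151481982c8152212c28ca], [0, 0, 0, 0x81584214c412c, 0x81c81281c142c],
    [0, 0, 0xc1c1c4a1a1a4c1, 0, 0x21512ca4829819a4c1], [0, 0x486486c284a84ac2c1,
    0x485485c821, 0x415815c821, 0x815248192481588e1]]

noncomputable def n512 : Ent := ⟨e512, noF, [], [], []⟩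

def c512 : PLift (Cov.check n512.C.D v512 = true) := ⟨by decide +kernel⟩

def b512 : PLift (entF (fidx ts) 400 512 n512 = true) := ⟨by decide +kernel⟩

theorem g512 : GoodF (fidx ts) 400 512 := GoodF.ofV v512 n512 c512.down b512.down

/-- 484564:438 -/
noncomputable def e513 : SCfg where
  D := {
    a := 6
    L := 9
    kp := 6
    inn := [(0, 1), (0, 3), (1, 0), (1, 2), (1, 3), (1, 4), (2, 1), (2, 4), (3, 0), (3, 1), (4, 1), (4,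
      2), (4, 5), (5, 4)]
    mix := [(0, 0), (0, 1), (1, 0), (1, 2), (1, 3), (1, 4), (2, 2), (2, 5), (3, 1), (3, 2), (3, 6), (4,
      3), (4, 5), (4, 7), (5, 5), (5, 7), (5, 8)]
    cl := [0, 3, 0, 1, 2, 1, 5, 4, 6]
    chq := []
    rng := [(0, 1), (0, 4), (1, 0), (1, 6), (2, 5), (2, 6), (3, 4), (3, 7), (4, 0), (4, 3), (5, 2), (5,
      8), (6, 1), (6, 2), (7, 3), (7, 8), (8, 5), (8, 7)]
    lev := [] }
  links := [[1, 6, 7, 3], [6, 0, 3, 8, 2, 4, 9, 10], [4, 1, 8, 11], [8, 1, 0, 7, 12], [9, 1, 2, 11, 5,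
    13], [13, 4, 11, 14]]
  P := {
    a := 6
    N := 15
    nb := [202, 1885, 2322, 4483, 10790, 26640, 1155, 4169, 6158, 9234, 578, 16692, 392, 16944, 10272]
    tri := [(0, 1, 3), (0, 1, 6), (0, 3, 7), (0, 6, 7), (1, 2, 4), (1, 2, 8), (1, 3, 8), (1, 4, 9), (1,
      6, 10), (1, 9, 10), (2, 4, 11), (2, 8, 11), (3, 7, 12), (3, 8, 12), (4, 5, 11), (4, 5, 13),
      (4, 9, 13), (5, 11, 14), (5, 13, 14)]
    fin := [0, 0, 0, 0, 4, 4, 0, 7, 0, 4, 10, 4, 12, 13, 14]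
    chd := []
    steps := [(0, 1), (0, 2), (0, 3), (0, 6), (0, 8), (4, 5), (4, 11), (4, 9)] }
  rep := [0, 4, 10, 7, 13, 12, 14]

noncomputable def v513 : Cov.CovD where
  P := 3
  N := 4
  pl := [1, 4, 6, 7, 8]
  lev := [⟨[], [], [], [3], [(0, 0, [])]⟩,
    ⟨[], [(0, 0), (0, 1)], [(0, 0), (0, 1)], [2], [(0, 0, []), (2, 0, []), (3, 1, [])]⟩,
    ⟨[(0, 1)], [(1, 0), (1, 1)], [(0, 1)], [], [(2, 0, []), (5, 1, [])]⟩,
    ⟨[(0, 1), (1, 2)], [(0, 0), (1, 0), (1, 1), (2, 0)], [], [3, 5], [(2, 0, [])]⟩,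
    ⟨[(0, 1), (1, 2), (1, 3)], [(1, 0), (1, 1), (2, 0), (2, 1)], [(1, 1)], [4], [(3, 1,
      []), (5, 1, [])]⟩,
    ⟨[(1, 4), (2, 4)], [(2, 1), (4, 1)], [], [4, 6], [(5, 1, [])]⟩]
  Ta := [((0, 1), 0, 3), ((0, 4), 0, 2), ((2, 5), 0, 1), ((2, 6), 0, 5), ((3, 4), 1, 2), ((3, 7),
    1, 4), ((5, 2), 1, 0), ((5, 8), 1, 6)]
  Tb := [((0, 1, 4), 0, 3, 2), ((1, 0, 6), 3, 0, 5), ((2, 5, 6), 0, 1, 5), ((3, 4, 7), 1, 2, 4),
    ((4, 0, 3), 2, 0, 1), ((5, 2, 8), 1, 0, 6), ((6, 1, 2), 5, 3, 0), ((7, 3, 8), 4, 1, 6),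
    ((8, 5, 7), 6, 1, 4)]
  Tc := []
  Td := []
  G := [[0, 0, 0x2591842591446, 0x225225a84229184c, 0x29514825c25c618c], [0, 0, 0xc59144c59142c,
    0, 0x5114c814ac95c95688c], [0, 0, 0, 0x22c22922ce841, 0x295482d259e481], [0,
    0xca648c6ac6aa4c1, 0, 0, 0xc95c9568d58c4884a1]]

noncomputable def n513 : Ent := ⟨e513, noF, [], [], [(7, 14, [81620716623019490593592230936445690773474979418095885479937, 0]), (12, 14, [81620716623019490593592230936445690773474979418095885484033, 0])]⟩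

def c513 : PLift (Cov.check n513.C.D v513 = true) := ⟨by decide +kernel⟩

def b513 : PLift (entF (fidx ts) 400 513 n513 = true) := ⟨by decide +kernel⟩

theorem g513 : GoodF (fidx ts) 400 513 := GoodF.ofV v513 n513 c513.down b513.down

/-- 484574:439 -/
noncomputable def e514 : SCfg where
  D := {
    a := 6
    L := 9
    kp := 6
    inn := [(0, 1), (0, 3), (1, 0), (1, 2), (1, 3), (1, 4), (1, 5), (2, 1), (2, 4), (3, 0), (3, 1), (4,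
      1), (4, 2), (4, 5), (5, 1), (5, 4)]
    mix := [(0, 0), (0, 1), (1, 0), (1, 2), (1, 3), (2, 2), (2, 4), (3, 1), (3, 2), (3, 5), (4, 4), (4,
      6), (4, 7), (4, 8), (5, 3), (5, 8)]
    cl := [0, 1, 0, 2, 3, 4, 5, 6, 3]
    chq := []
    rng := [(0, 1), (0, 3), (1, 0), (1, 5), (2, 4), (2, 5), (3, 0), (3, 8), (4, 2), (4, 6), (5, 1), (5,
      2), (6, 4), (6, 7), (7, 6), (7, 8), (8, 3), (8, 7)]
    lev := [] }
  links := [[1, 6, 7, 3], [6, 0, 3, 8, 2, 4, 5, 9], [4, 1, 8, 10], [8, 1, 0, 7, 11], [5, 1, 2, 10, 12,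
    13, 14], [9, 1, 4, 14]]
  P := {
    a := 6
    N := 15
    nb := [202, 893, 1298, 2435, 29734, 16914, 643, 2121, 3086, 16482, 4372, 392, 9232, 20496, 8752]
    tri := [(0, 1, 3), (0, 1, 6), (0, 3, 7), (0, 6, 7), (1, 2, 4), (1, 2, 8), (1, 3, 8), (1, 4, 5), (1,
      5, 9), (1, 6, 9), (2, 4, 10), (2, 8, 10), (3, 7, 11), (3, 8, 11), (4, 5, 14), (4, 10, 12),
      (4, 12, 13), (4, 13, 14), (5, 9, 14)]
    fin := [0, 0, 0, 0, 4, 0, 0, 7, 0, 9, 4, 11, 12, 13, 4]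
    chd := []
    steps := [(0, 1), (0, 2), (0, 3), (0, 5), (0, 6), (0, 8), (4, 10), (4, 14)] }
  rep := [0, 7, 9, 4, 11, 12, 13]

noncomputable def v514 : Cov.CovD where
  P := 3
  N := 4
  pl := [1, 3, 5, 6, 7]
  lev := [⟨[], [], [], [1], [(0, 0, [])]⟩,
    ⟨[], [(0, 0)], [(0, 0)], [2], [(0, 0, []), (2, 0, [])]⟩,
    ⟨[(0, 1)], [(1, 0), (1, 3)], [(0, 3)], [], [(2, 0, []), (4, 3, [])]⟩,
    ⟨[(0, 1), (1, 2)], [(0, 0), (1, 0), (2, 0)], [], [1, 4], [(2, 0, [])]⟩,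
    ⟨[(0, 1), (1, 2), (1, 3)], [(1, 0), (1, 3), (2, 0), (2, 3)], [(3, 3)], [5, 6], [(4, 3,
      []), (8, 3, [])]⟩,
    ⟨[(0, 1), (1, 2), (1, 3), (1, 4), (2, 4)], [(1, 0), (1, 3), (4, 3)], [], [2], [(8, 3,
      [])]⟩]
  Ta := [((0, 1), 0, 1), ((0, 3), 0, 2), ((2, 4), 0, 3), ((2, 5), 0, 4), ((4, 2), 3, 0), ((4, 6),
    3, 5), ((8, 3), 3, 2), ((8, 7), 3, 6)]
  Tb := [((0, 1, 3), 0, 1, 2), ((1, 0, 5), 1, 0, 4), ((2, 4, 5), 0, 3, 4), ((3, 0, 8), 2, 0, 3),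
    ((4, 2, 6), 3, 0, 5), ((5, 1, 2), 4, 1, 0), ((6, 4, 7), 5, 3, 6), ((7, 6, 8), 6, 5, 3),
    ((8, 3, 7), 3, 2, 6)]
  Tc := []
  Td := []
  G := [[0, 0x8811f1181fa248, 0x442b188471c28, 0x1181f1248, 0x1181f1428], [0, 0x1111f1111f6284,
    0x6a2cf1848, 0x1111f1484, 0x1111f1284], [0, 0, 0, 0x1451444fc288a82c4, 0x1181f8881fc421],
    [0, 0, 0, 0x1151411fc211a88c4, 0x8111f8111fc428]]

noncomputable def n514 : Ent := ⟨e514, noF, [], [], []⟩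

def c514 : PLift (Cov.check n514.C.D v514 = true) := ⟨by decide +kernel⟩

def b514 : PLift (entF (fidx ts) 400 514 n514 = true) := ⟨by decide +kernel⟩

theorem g514 : GoodF (fidx ts) 400 514 := GoodF.ofV v514 n514 c514.down b514.down

/-- 457674:440/1 -/
noncomputable def e515 : SCfg where
  D := {
    a := 6
    L := 9
    kp := 7
    inn := [(0, 1), (0, 2), (0, 3), (1, 0), (1, 2), (2, 0), (2, 1), (2, 3), (2, 4), (3, 0), (3, 2), (3,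
      4), (4, 2), (4, 3), (4, 5), (5, 4)]
    mix := [(0, 0), (1, 0), (1, 1), (1, 2), (2, 2), (2, 3), (2, 4), (3, 0), (3, 5), (3, 6), (4, 4), (4,
      5), (4, 7), (4, 8), (5, 1), (5, 7), (5, 8)]
    cl := [0, 4, 2, 6, 3, 1, 7, 5, 3]
    chq := [(0, 1), (1, 0), (1, 2), (1, 4), (1, 6), (2, 1), (4, 1), (6, 1)]
    rng := [(0, 1), (0, 6), (1, 0), (1, 2), (1, 7), (1, 8), (2, 1), (2, 3), (3, 2), (3, 4), (4, 3), (4,
      7), (5, 6), (5, 8), (6, 0), (6, 5), (7, 1), (7, 4), (8, 1), (8, 5)]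
    lev := [] }
  links := [[1, 2, 3, 6], [2, 0, 6, 7, 8], [3, 0, 1, 8, 9, 10, 4], [6, 0, 2, 4, 11, 12], [11, 3, 2, 10,
    13, 5, 14], [14, 4, 13, 7]]
  P := {
    a := 6
    N := 15
    nb := [78, 453, 1819, 6229, 27692, 24720, 4235, 24930, 646, 1284, 8724, 20504, 2120, 1200, 2224]
    tri := [(0, 1, 2), (0, 1, 6), (0, 2, 3), (0, 3, 6), (1, 2, 8), (1, 6, 7), (1, 7, 8), (2, 3, 4), (2,
      4, 10), (2, 8, 9), (2, 9, 10), (3, 4, 11), (3, 6, 12), (3, 11, 12), (4, 5, 13), (4, 5, 14),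
      (4, 10, 13), (4, 11, 14), (5, 7, 13), (5, 7, 14)]
    fin := [0, 0, 2, 0, 4, 5, 6, 5, 8, 2, 4, 0, 12, 13, 4]
    chd := [(2, 0), (5, 0), (6, 0), (8, 0)]
    steps := [(0, 1), (0, 3), (0, 11), (2, 9), (4, 10), (4, 14), (5, 7)] }
  rep := [6, 0, 8, 4, 5, 13, 2, 12]

noncomputable def v515 : Cov.CovD where
  P := 3
  N := 5
  pl := [6, 7]
  lev := [⟨[], [], [], [], [(0, 0, [1])]⟩,
    ⟨[], [(0, 0), (0, 2), (0, 4)], [(0, 2), (0, 4), (2, 4)], [], [(0, 0, [1]), (1, 4, [1]),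
      (2, 2, [1])]⟩,
    ⟨[(0, 1)], [(0, 0), (0, 2), (0, 3), (0, 6), (1, 0), (1, 2), (1, 3), (1, 4), (1, 6)],
      [(2, 3), (2, 6), (3, 6)], [], [(2, 2, [1]), (3, 6, [1]), (4, 3, [])]⟩,
    ⟨[(0, 1), (0, 2), (1, 2)], [(0, 0), (0, 1), (1, 0), (2, 0), (2, 1), (2, 2), (2, 3), (2,
      6)], [(0, 1)], [7], [(0, 0, [1]), (5, 1, [0, 2, 4, 6])]⟩,
    ⟨[(0, 2), (0, 3), (1, 2), (2, 3)], [(2, 1), (2, 2), (2, 3), (2, 6), (3, 0), (3, 1), (3,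
      3)], [(1, 3), (3, 3)], [5], [(4, 3, []), (5, 1, [0, 2, 4, 6]), (8, 3, [])]⟩,
    ⟨[(2, 4), (3, 4)], [(1, 4), (4, 1), (4, 3), (4, 4)], [(3, 4)], [5], [(1, 4, [1]), (8,
      3, [])]⟩]
  Ta := [((4, 3), 3, 6), ((4, 7), 3, 5), ((8, 1), 3, 4), ((8, 5), 3, 1)]
  Tb := [((0, 1, 6), 0, 4, 7), ((1, 0, 2), 4, 0, 2), ((1, 0, 7), 4, 0, 5), ((1, 0, 8), 4, 0, 3),
    ((1, 2, 7), 4, 2, 5), ((1, 2, 8), 4, 2, 3), ((1, 7, 8), 4, 5, 3), ((2, 1, 3), 2, 4, 6),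
    ((3, 2, 4), 6, 2, 3), ((4, 3, 7), 3, 6, 5), ((5, 6, 8), 1, 7, 3), ((6, 0, 5), 7, 0, 1),
    ((7, 1, 4), 5, 4, 3), ((8, 1, 5), 3, 4, 1)]
  Tc := [(1, 0, 2), (1, 0, 4), (1, 0, 6), (1, 2, 4), (1, 2, 6), (1, 4, 6)]
  Td := [((0, 1), (0, 1), 4), ((0, 1), (0, 6), 7), ((1, 0), (5, 6), 7), ((1, 0), (5, 8), 3), ((1,
    2), (5, 6), 7), ((1, 2), (5, 8), 3), ((1, 4), (5, 6), 7), ((1, 4), (5, 8), 3), ((1, 6),
    (5, 6), 7), ((1, 6), (5, 8), 3), ((2, 1), (2, 1), 4), ((2, 1), (2, 3), 6), ((4, 1), (1,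
    0), 0), ((4, 1), (1, 2), 2), ((4, 1), (1, 7), 5), ((4, 1), (1, 8), 3), ((6, 1), (3, 2),
    2), ((6, 1), (3, 4), 3)]
  G := [[0, 0x19c81a186e1541e341ea1c4, 0x891d42324d42c292d82241d82cc, 0x238d2482d252214d282c,
    0x22ad42214d42a22ad82151714ac6a2d8aac], [0, 0x813e831e614412a141ee12284d8,
    0x2442621d42c2a1d819c2241d82cc, 0x26bd2b62d2924,
    0x2c3d824956cfbc221d836adf56bcbaa44344926]]

noncomputable def n515 : Ent := ⟨e515, noF, [], [], []⟩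

def c515 : PLift (Cov.check n515.C.D v515 = true) := ⟨by decide +kernel⟩

def b515 : PLift (entF (fidx ts) 400 515 n515 = true) := ⟨by decide +kernel⟩

theorem g515 : GoodF (fidx ts) 400 515 := GoodF.ofV v515 n515 c515.down b515.down

/-- 457674:440 -/
noncomputable def e516 : SCfg where
  D := {
    a := 6
    L := 10
    kp := 8
    inn := [(0, 1), (0, 2), (0, 3), (1, 0), (1, 2), (2, 0), (2, 1), (2, 3), (2, 4), (3, 0), (3, 2), (3,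
      4), (4, 2), (4, 3), (4, 5), (5, 4)]
    mix := [(0, 0), (1, 0), (1, 1), (1, 2), (2, 2), (2, 3), (2, 4), (3, 0), (3, 5), (3, 6), (4, 4), (4,
      5), (4, 7), (4, 8), (5, 7), (5, 8), (5, 9)]
    cl := [1, 7, 3, 5, 0, 0, 8, 2, 4, 6]
    chq := [(0, 1), (0, 6), (1, 0), (1, 3), (1, 5), (3, 1), (5, 1), (6, 0)]
    rng := [(0, 1), (0, 6), (1, 0), (1, 2), (2, 1), (2, 3), (3, 2), (3, 4), (4, 3), (4, 7), (5, 6), (5,
      8), (6, 0), (6, 5), (7, 4), (7, 9), (8, 5), (8, 9), (9, 7), (9, 8)]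
    lev := [] }
  links := [[1, 2, 3, 6], [2, 0, 6, 7, 8], [3, 0, 1, 8, 9, 10, 4], [6, 0, 2, 4, 11, 12], [11, 3, 2, 10,
    13, 5, 14], [14, 4, 13, 15]]
  P := {
    a := 6
    N := 16
    nb := [78, 453, 1819, 6229, 27692, 57360, 4235, 322, 646, 1284, 8724, 20504, 2120, 33840, 34864,
      24608]
    tri := [(0, 1, 2), (0, 1, 6), (0, 2, 3), (0, 3, 6), (1, 2, 8), (1, 6, 7), (1, 7, 8), (2, 3, 4), (2,
      4, 10), (2, 8, 9), (2, 9, 10), (3, 4, 11), (3, 6, 12), (3, 11, 12), (4, 5, 13), (4, 5, 14),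
      (4, 10, 13), (4, 11, 14), (5, 13, 15), (5, 14, 15)]
    fin := [0, 0, 0, 0, 4, 4, 0, 7, 8, 9, 4, 4, 12, 13, 14, 15]
    chd := [(0, 4), (0, 8), (0, 9), (4, 15)]
    steps := [(0, 1), (0, 2), (0, 3), (0, 6), (4, 5), (4, 10), (4, 11)] }
  rep := [4, 0, 13, 8, 14, 9, 15, 7, 12]

noncomputable def v516 : Cov.CovD where
  P := 3
  N := 6
  pl := [1, 6, 7, 8]
  lev := [⟨[], [], [], [], [(0, 1, [0, 3, 5])]⟩,
    ⟨[], [(0, 1), (0, 3)], [(1, 3)], [7], [(0, 1, [0, 3, 5]), (2, 3, [1])]⟩,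
    ⟨[(0, 1)], [(0, 0), (0, 1), (0, 3), (0, 5), (1, 0), (1, 1), (1, 3), (1, 5)], [(0, 3),
      (0, 5), (3, 5)], [], [(2, 3, [1]), (3, 5, [1]), (4, 0, [1, 6])]⟩,
    ⟨[(0, 1), (0, 2), (1, 2)], [(0, 0), (0, 1), (1, 1), (2, 0), (2, 1), (2, 3), (2, 5)],
      [(0, 1)], [8], [(0, 1, [0, 3, 5]), (5, 0, [1, 6])]⟩,
    ⟨[(0, 2), (0, 3), (1, 2), (2, 3)], [(2, 0), (2, 3), (2, 5), (3, 0), (3, 1)], [(0, 0)],
      [2, 4], [(4, 0, [1, 6]), (5, 0, [1, 6])]⟩,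
    ⟨[(2, 4), (3, 4)], [(4, 0), (4, 6)], [], [2, 4], [(9, 6, [0])]⟩]
  Ta := [((4, 3), 0, 5), ((4, 7), 0, 2), ((5, 6), 0, 8), ((5, 8), 0, 4)]
  Tb := [((0, 1, 6), 1, 7, 8), ((1, 0, 2), 7, 1, 3), ((2, 1, 3), 3, 7, 5), ((3, 2, 4), 5, 3, 0),
    ((4, 3, 7), 0, 5, 2), ((5, 6, 8), 0, 8, 4), ((6, 0, 5), 8, 1, 0), ((7, 4, 9), 2, 0, 6),
    ((8, 5, 9), 4, 0, 6), ((9, 7, 8), 6, 2, 4)]
  Tc := [(0, 1, 6), (1, 0, 3), (1, 0, 5), (1, 3, 5)]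
  Td := [((0, 1), (4, 3), 5), ((0, 1), (4, 7), 2), ((0, 1), (5, 6), 8), ((0, 1), (5, 8), 4), ((0,
    6), (4, 3), 5), ((0, 6), (4, 7), 2), ((0, 6), (5, 6), 8), ((0, 6), (5, 8), 4), ((1, 0),
    (0, 1), 7), ((1, 0), (0, 6), 8), ((1, 3), (0, 1), 7), ((1, 3), (0, 6), 8), ((1, 5), (0,
    1), 7), ((1, 5), (0, 6), 8), ((3, 1), (2, 1), 7), ((3, 1), (2, 3), 5), ((5, 1), (3, 2),
    3), ((5, 1), (3, 4), 0), ((6, 0), (9, 7), 2), ((6, 0), (9, 8), 4)]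
  G := [[0, 0x1411c18e11c11ca11c11cce12, 0xa6c12a6c12a6c12d4, 0x11c1211c1211c12d8,
    0x12111a1612112111a1e512111a1a8c], [0, 0x11c1814e111c11ca111c11ca1e4, 0,
    0x1dcd1cc21dcd1cc259c59cc2d1, 0x9212c11248612439ab1aca39ab1ac292889289212c39ab1acef9]]

noncomputable def n516 : Ent := ⟨e516, noF, [], [], [(7, 15, [360035742630636841211993100915356868655746945586763691009781761, 0])]⟩

def c516 : PLift (Cov.check n516.C.D v516 = true) := ⟨by decide +kernel⟩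

def b516 : PLift (entF (fidx ts) 400 516 n516 = true) := ⟨by decide +kernel⟩

theorem g516 : GoodF (fidx ts) 400 516 := GoodF.ofV v516 n516 c516.down b516.down

/-- 457664:444/2 -/
noncomputable def e517 : SCfg where
  D := {
    a := 6
    L := 8
    kp := 5
    inn := [(0, 1), (0, 2), (0, 3), (1, 0), (1, 2), (2, 0), (2, 1), (2, 3), (3, 0), (3, 2), (3, 4), (4,
      3), (4, 5), (5, 4)]
    mix := [(0, 0), (1, 0), (1, 1), (1, 2), (2, 2), (2, 3), (2, 4), (2, 5), (3, 0), (3, 5), (3, 6), (4,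
      0), (4, 1), (4, 6), (4, 7), (5, 4), (5, 6), (5, 7)]
    cl := [0, 4, 1, 5, 2, 1, 0, 3]
    chq := [(0, 3), (3, 0)]
    rng := [(0, 1), (1, 0), (1, 2), (1, 7), (2, 1), (2, 3), (3, 2), (3, 4), (4, 3), (4, 5), (4, 6), (4,
      7), (5, 4), (5, 6), (6, 4), (6, 5), (7, 1), (7, 4)]
    lev := [] }
  links := [[1, 2, 3, 6], [2, 0, 6, 7, 8], [3, 0, 1, 8, 9, 10, 11], [6, 0, 2, 11, 12, 4], [6, 3, 12, 5,
    13, 7], [13, 4, 12, 10]]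
  P := {
    a := 6
    N := 14
    nb := [78, 453, 3851, 6229, 12520, 13328, 155, 8530, 646, 1284, 14884, 5132, 3128, 1200]
    tri := [(0, 1, 2), (0, 1, 6), (0, 2, 3), (0, 3, 6), (1, 2, 8), (1, 6, 7), (1, 7, 8), (2, 3, 11),
      (2, 8, 9), (2, 9, 10), (2, 10, 11), (3, 4, 6), (3, 4, 12), (3, 11, 12), (4, 5, 12), (4, 5,
      13), (4, 6, 7), (4, 7, 13), (5, 10, 12), (5, 10, 13)]
    fin := [0, 0, 2, 0, 0, 0, 0, 7, 2, 9, 10, 2, 0, 13]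
    chd := [(0, 13)]
    steps := [(0, 1), (0, 3), (0, 6), (0, 4), (0, 5), (0, 12), (2, 8), (2, 11)] }
  rep := [0, 2, 10, 13, 7, 9]

noncomputable def v517 : Cov.CovD where
  P := 3
  N := 3
  pl := [1, 3, 4]
  lev := [⟨[], [], [], [], [(0, 0, [3])]⟩,
    ⟨[], [(0, 0), (0, 1)], [(0, 1)], [4], [(0, 0, [3]), (2, 1, [])]⟩,
    ⟨[(0, 1)], [(0, 0), (0, 1), (1, 0), (1, 1)], [(1, 1)], [2, 5], [(2, 1, []), (5, 1,
      [])]⟩,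
    ⟨[(0, 1), (0, 2), (1, 2)], [(0, 0), (0, 1), (1, 0), (2, 0), (2, 1)], [(0, 0), (0, 1)],
      [], [(0, 0, [3]), (5, 1, []), (6, 0, [3])]⟩,
    ⟨[(0, 3), (2, 3)], [(0, 0), (1, 0), (3, 0), (3, 1), (3, 3)], [(0, 0), (0, 3)], [4],
      [(0, 0, [3]), (6, 0, [3]), (7, 3, [0])]⟩,
    ⟨[(3, 4)], [(3, 0), (4, 0), (4, 3)], [(0, 3)], [2], [(6, 0, [3]), (7, 3, [0])]⟩]
  Ta := [((0, 1), 0, 4), ((2, 1), 1, 4), ((2, 3), 1, 5), ((5, 4), 1, 2), ((5, 6), 1, 0), ((6, 4),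
    0, 2), ((6, 5), 0, 1)]
  Tb := [((1, 0, 2), 4, 0, 1), ((1, 0, 7), 4, 0, 3), ((1, 2, 7), 4, 1, 3), ((2, 1, 3), 1, 4, 5),
    ((3, 2, 4), 5, 1, 2), ((4, 3, 5), 2, 5, 1), ((4, 3, 6), 2, 5, 0), ((4, 3, 7), 2, 5, 3),
    ((4, 5, 6), 2, 1, 0), ((4, 5, 7), 2, 1, 3), ((4, 6, 7), 2, 0, 3), ((5, 4, 6), 1, 2, 0),
    ((6, 4, 5), 0, 2, 1), ((7, 1, 4), 3, 4, 2)]
  Tc := []
  Td := [((0, 3), (0, 1), 4), ((0, 3), (6, 4), 2), ((0, 3), (6, 5), 1), ((3, 0), (7, 1), 4), ((3,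
    0), (7, 4), 2)]
  G := [[0, 0, 0, 0, 0x82a482a491268a1689c4], [0, 0, 0, 0x924c24c28, 0x182e482618c928], [0, 0,
    0x4482ac42688cc12, 0, 0x82a41a26818a2e48d2], [0, 0x84a284a4c48684868cc1,
    0x42648c442e8c14, 0xc24c28c14, 0x882e41882e4838]]

noncomputable def n517 : Ent := ⟨e517, noF, [], [], []⟩

def c517 : PLift (Cov.check n517.C.D v517 = true) := ⟨by decide +kernel⟩

def b517 : PLift (entF (fidx ts) 400 517 n517 = true) := ⟨by decide +kernel⟩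

theorem g517 : GoodF (fidx ts) 400 517 := GoodF.ofV v517 n517 c517.down b517.down

/-- The entries 362 to 517. -/
theorem rE2 : Rng (GoodF (fidx ts) 400) 362 518 :=
  (((((((((((((((((((((((((((((((((((((((((((((((((((((((((((((((((((((((((((((((((((((((((((((((((((((((((((((((((((((((((((((((((((((((((((((((((((((((((((((Rng.nil _ 362).snoc g362 rfl).snoc g363 rfl).snoc g364 rfl).snoc g365 rfl).snoc g366 rfl).snoc g367 rfl).snoc g368 rfl).snoc g369 rfl).snoc g370 rfl).snoc g371 rfl).snoc g372 rfl).snoc g373 rfl).snoc g374 rfl).snoc g375 rfl).snoc g376 rfl).snoc g377 rfl).snoc g378 rfl).snoc g379 rfl).snoc g380 rfl).snoc g381 rfl).snoc g382 rfl).snoc g383 rfl).snoc g384 rfl).snoc g385 rfl).snoc g386 rfl).snoc g387 rfl).snoc g388 rfl).snoc g389 rfl).snoc g390 rfl).snoc g391 rfl).snoc g392 rfl).snoc g393 rfl).snoc g394 rfl).snoc g395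 rfl).snoc g396 rfl).snoc g397 rfl).snoc g398 rfl).snoc g399 rfl).snoc g400 rfl).snoc g401 rfl).snoc g402 rfl).snoc g403 rfl).snoc g404 rfl).snoc g405 rfl).snoc g406 rfl).snoc g407 rfl).snoc g408 rfl).snoc g409 rfl).snoc g410 rfl).snoc g411 rfl).snoc g412 rfl).snoc g413 rfl).snoc g414 rfl).snoc g415 rfl).snoc g416 rfl).snoc g417 rfl).snoc g418 rfl).snoc g419 rfl).snoc g420 rfl).snoc g421 rfl).snoc g422 rfl).snoc g423 rfl).snoc g424 rfl).snoc g425 rfl).snoc g426 rfl).snoc g427 rfl).snoc g428 rfl).snoc g429 rfl).snoc g430 rfl).snoc g431 rfl).snoc g432 rfl).snoc g433 rfl).snoc g434 rfl).snoc g435 rfl).snoc g436 rfl).snoc g437 rfl).snoc g438 rfl).snoc g439 rfl).snoc g440 rfl).snoc g441 rfl).snoc g442 rfl).snoc g443 rfl).snoc g444 rfl).snoc g445 rfl).snoc g446 rfl).snoc g447 rfl).snoc g448 rfl).snoc g449 rfl).snoc g450 rfl).snoc g451 rfl).snoc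 g452 rfl).snoc g453 rfl).snoc g454 rfl).snoc g455 rfl).snoc g456 rfl).snoc g457 rfl).snoc g458 rfl).snoc g459 rfl).snoc g460 rfl).snoc g461 rfl).snoc g462 rfl).snoc g463 rfl).snoc g464 rfl).snoc g465 rfl).snoc g466 rfl).snoc g467 rfl).snoc g468 rfl).snoc g469 rfl).snoc g470 rfl).snoc g471 rfl).snoc g472 rfl).snoc g473 rfl).snoc g474 rfl).snoc g475 rfl).snoc g476 rfl).snoc g477 rfl).snoc g478 rfl).snoc g479 rfl).snoc g480 rfl).snoc g481 rfl).snoc g482 rfl).snoc g483 rfl).snoc g484 rfl).snoc g485 rfl).snoc g486 rfl).snoc g487 rfl).snoc g488 rfl).snoc g489 rfl).snoc g490 rfl).snoc g491 rfl).snoc g492 rfl).snoc g493 rfl).snoc g494 rfl).snoc g495 rfl).snoc g496 rfl).snoc g497 rfl).snoc g498 rfl).snoc g499 rfl).snoc g500 rfl).snoc g501 rfl).snoc g502 rfl).snoc g503 rfl).snoc g504 rfl).snoc g505 rfl).snoc g506 rfl).snoc g507 rfl).snoc g508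 rfl).snoc g509 rfl).snoc g510 rfl).snoc g511 rfl).snoc g512 rfl).snoc g513 rfl).snoc g514 rfl).snoc g515 rfl).snoc g516 rfl).snoc g517 rfl)

end Pool.Agent.W986.ST.Dat
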