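import Pool.Agent.W986.Dat.Tab
import Pool.Agent.W986.SubAltB

/-!
# Entries 2852 to 2985 of the table
-/

set_option autoImplicit false

namespace Pool.Agent.W986.ST.Dat

/-- 4646944:2269 -/
noncomputable def e2852 : SCfg where
  D := {
    a := 7
    L := 10
    kp := 8
    inn := [(0, 1), (0, 3), (0, 4), (1, 0), (1, 2), (1, 4), (1, 5), (2, 1), (2, 4), (3, 0), (3, 4), (4,
      0), (4, 1), (4, 2), (4, 3), (4, 6), (5, 1), (6, 4)]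
    mix := [(0, 0), (1, 0), (1, 1), (2, 1), (2, 2), (3, 0), (3, 3), (3, 4), (3, 5), (4, 2), (4, 5), (4,
      6), (4, 7), (5, 0), (5, 1), (5, 8), (6, 6), (6, 7), (6, 9)]
    cl := [0, 1, 2, 5, 6, 3, 4, 3, 7, 8]
    chq := [(0, 1), (0, 2), (1, 0), (2, 0), (2, 5), (2, 6), (5, 2), (6, 2)]
    rng := [(0, 3), (0, 8), (1, 2), (1, 8), (2, 1), (2, 7), (3, 0), (3, 4), (4, 3), (4, 5), (5, 4), (5,
      6), (6, 5), (6, 9), (7, 2), (7, 9), (8, 0), (8, 1), (9, 6), (9, 7)]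
    lev := [] }
  links := [[1, 7, 3, 4], [7, 0, 4, 2, 8, 5], [8, 1, 4, 9], [4, 0, 7, 10, 11, 12], [9, 2, 1, 0, 3, 12,
    13, 6, 14], [7, 1, 8, 15], [14, 4, 13, 16]]
  P := {
    a := 7
    N := 17
    nb := [154, 437, 786, 7313, 29263, 33154, 90128, 33835, 33318, 16660, 2184, 5128, 10264, 69712,
      66128, 416, 24640]
    tri := [(0, 1, 4), (0, 1, 7), (0, 3, 4), (0, 3, 7), (1, 2, 4), (1, 2, 8), (1, 5, 7), (1, 5, 8), (2,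
      4, 9), (2, 8, 9), (3, 4, 12), (3, 7, 10), (3, 10, 11), (3, 11, 12), (4, 6, 13), (4, 6, 14),
      (4, 9, 14), (4, 12, 13), (5, 7, 15), (5, 8, 15), (6, 13, 16), (6, 14, 16)]
    fin := [0, 0, 0, 0, 4, 5, 4, 5, 8, 0, 10, 11, 4, 13, 4, 15, 16]
    chd := [(0, 10), (0, 11), (5, 0), (5, 8)]
    steps := [(0, 1), (0, 2), (0, 3), (0, 9), (4, 6), (4, 12), (4, 14), (5, 7)] }
  rep := [5, 8, 0, 4, 13, 10, 11, 15, 16]

noncomputable def v2852 : Cov.CovD where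
  P := 3
  N := 6
  pl := [6, 8, 9]
  lev := [⟨[], [], [], [], [(0, 0, [1, 2])]⟩,
    ⟨[], [(0, 0), (0, 1)], [(0, 1)], [], [(0, 0, [1, 2]), (1, 1, [0])]⟩,
    ⟨[(0, 1)], [(1, 0), (1, 1), (1, 2)], [(1, 2)], [], [(1, 1, [0]), (2, 2, [0, 5, 6])]⟩,
    ⟨[(0, 1)], [(0, 0), (0, 3), (0, 5), (0, 6), (1, 0)], [(0, 3), (0, 5), (0, 6), (3, 5),
      (3, 6), (5, 6)], [], [(0, 0, [1, 2]), (3, 5, [2]), (4, 6, [2]), (5, 3, [])]⟩,
    ⟨[(0, 1), (0, 2), (0, 3), (1, 2), (1, 3), (2, 3)], [(0, 0), (0, 2), (0, 3), (1, 0), (1,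
      1), (1, 2), (1, 3), (2, 1), (2, 2), (2, 3), (3, 0), (3, 2), (3, 3), (3, 5), (3, 6)],
      [(2, 3), (3, 3)], [4], [(2, 2, [0, 5, 6]), (5, 3, []), (7, 3, [])]⟩,
    ⟨[(0, 1), (1, 2), (1, 4)], [(0, 0), (1, 0), (1, 1), (2, 1), (3, 0)], [(0, 1)], [7],
      [(0, 0, [1, 2]), (1, 1, [0])]⟩,
    ⟨[(0, 4), (1, 4), (2, 4), (3, 4)], [(4, 2), (4, 3)], [], [4, 8], [(7, 3, [])]⟩]
  Ta := [((5, 4), 3, 6), ((5, 6), 3, 4), ((7, 2), 3, 2), ((7, 9), 3, 8)]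
  Tb := [((0, 3, 8), 0, 5, 7), ((1, 2, 8), 1, 2, 7), ((2, 1, 7), 2, 1, 3), ((3, 0, 4), 5, 0, 6),
    ((4, 3, 5), 6, 5, 3), ((5, 4, 6), 3, 6, 4), ((6, 5, 9), 4, 3, 8), ((7, 2, 9), 3, 2, 8),
    ((8, 0, 1), 7, 0, 1), ((9, 6, 7), 8, 4, 3)]
  Tc := [(0, 1, 2), (2, 0, 5), (2, 0, 6), (2, 5, 6)]
  Td := [((0, 1), (0, 3), 5), ((0, 1), (0, 8), 7), ((0, 2), (0, 3), 5), ((0, 2), (0, 8), 7), ((1,
    0), (1, 2), 2), ((1, 0), (1, 8), 7), ((2, 0), (2, 1), 1), ((2, 0), (2, 7), 3), ((2, 5),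
    (2, 1), 1), ((2, 5), (2, 7), 3), ((2, 6), (2, 1), 1), ((2, 6), (2, 7), 3), ((5, 2), (3,
    0), 0), ((5, 2), (3, 4), 6), ((6, 2), (4, 3), 5), ((6, 2), (4, 5), 3)]
  G := [[0, 0x55c996c3cd2428, 0x5441166ca8c3ce11c8, 0x6442155c983ccd28c2, 0xc3c99caacb4142], [0,
    0x336126664258aac82149, 0x33c21198811c55c41194811c6, 0x66c42133c12aac829c2,
    0x66c55c3484ccc8414a]]

noncomputable def n2852 : Ent := ⟨e2852, noF, [], [], [(10, 15, [1685356702439545624007900436039642273970977273354372543760011763713, 0]), (16, 15, [1685356702439545624007900436039642273970977273354372543760011767809, 0])]⟩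

def c2852 : PLift (Cov.check n2852.C.D v2852 = true) := ⟨by decide +kernel⟩

def b2852 : PLift (entF (fidx ts) 400 2852 n2852 = true) := ⟨by decide +kernel⟩

theorem g2852 : GoodF (fidx ts) 400 2852 := GoodF.ofV v2852 n2852 c2852.down b2852.down

/-- 4594564:2270/1 -/
noncomputable def e2853 : SCfg where
  D := {
    a := 7
    L := 10
    kp := 7
    inn := [(0, 1), (0, 2), (1, 0), (1, 2), (2, 0), (2, 1), (2, 3), (2, 4), (2, 5), (3, 2), (3, 5), (4,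
      2), (5, 2), (5, 3), (5, 6), (6, 5)]
    mix := [(0, 0), (0, 1), (1, 1), (1, 2), (1, 3), (2, 0), (2, 3), (2, 4), (2, 5), (3, 4), (3, 6), (4,
      3), (4, 4), (4, 7), (4, 8), (5, 5), (5, 6), (5, 9), (6, 1), (6, 6), (6, 9)]
    cl := [0, 1, 5, 0, 0, 2, 3, 6, 7, 4]
    chq := [(1, 2), (2, 1), (2, 3), (3, 2)]
    rng := [(0, 1), (0, 5), (1, 0), (1, 2), (1, 6), (1, 9), (2, 1), (2, 3), (3, 2), (3, 7), (4, 6), (4,
      8), (5, 0), (5, 9), (6, 1), (6, 4), (7, 3), (7, 8), (8, 4), (8, 7), (9, 1), (9, 5)]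
    lev := [] }
  links := [[1, 2, 7, 8], [2, 0, 8, 9, 10], [7, 0, 1, 10, 4, 11, 3, 5, 12], [5, 2, 11, 13], [11, 2, 10,
    14, 15], [12, 2, 3, 13, 6, 16], [16, 5, 13, 8]]
  P := {
    a := 7
    N := 17
    nb := [390, 1797, 7355, 10276, 52228, 77900, 74016, 4357, 74435, 1282, 16918, 40988, 65700, 2408,
      33808, 18448, 4448]
    tri := [(0, 1, 2), (0, 1, 8), (0, 2, 7), (0, 7, 8), (1, 2, 10), (1, 8, 9), (1, 9, 10), (2, 3, 5),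
      (2, 3, 11), (2, 4, 10), (2, 4, 11), (2, 5, 12), (2, 7, 12), (3, 5, 13), (3, 11, 13), (4, 10,
      14), (4, 11, 15), (4, 14, 15), (5, 6, 13), (5, 6, 16), (5, 12, 16), (6, 8, 13), (6, 8, 16)]
    fin := [0, 0, 0, 0, 0, 5, 6, 0, 6, 9, 0, 0, 5, 13, 14, 15, 16]
    chd := [(5, 13), (6, 5)]
    steps := [(0, 1), (0, 2), (0, 3), (0, 4), (0, 7), (0, 10), (0, 11), (5, 12), (6, 8)] }
  rep := [0, 6, 5, 13, 16, 9, 14, 15]

noncomputable def v2853 : Cov.CovD where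
  P := 3
  N := 5
  pl := [2, 7, 8, 9]
  lev := [⟨[], [], [(0, 1)], [], [(0, 0, []), (1, 1, [2])]⟩,
    ⟨[], [(0, 0), (0, 1)], [(0, 1)], [5], [(1, 1, [2]), (3, 0, [])]⟩,
    ⟨[(0, 1)], [(0, 0), (0, 1), (0, 2), (1, 0), (1, 1), (1, 2)], [(0, 0), (0, 2)], [], [(0,
      0, []), (3, 0, []), (4, 0, []), (5, 2, [1, 3])]⟩,
    ⟨[(0, 2), (1, 2)], [(2, 0), (2, 2), (2, 3)], [(0, 3)], [], [(4, 0, []), (6, 3, [2])]⟩,
    ⟨[(0, 2), (1, 2), (2, 3)], [(1, 0), (2, 0), (2, 2), (3, 0)], [(0, 0)], [6, 7], [(3, 0,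
      []), (4, 0, [])]⟩,
    ⟨[(0, 2), (1, 2), (2, 3), (2, 4)], [(2, 0), (2, 2), (2, 3), (3, 0), (3, 2), (3, 3)],
      [(2, 3)], [4], [(5, 2, [1, 3]), (6, 3, [2])]⟩,
    ⟨[(2, 5), (3, 5)], [(0, 1), (1, 1), (3, 3), (5, 1), (5, 2), (5, 3)], [(1, 3)], [4],
      [(1, 1, [2]), (6, 3, [2])]⟩]
  Ta := [((0, 1), 0, 1), ((0, 5), 0, 2), ((3, 2), 0, 5), ((3, 7), 0, 6), ((4, 6), 0, 3), ((4, 8),
    0, 7)]
  Tb := [((0, 1, 5), 0, 1, 2), ((1, 0, 2), 1, 0, 5), ((1, 0, 6), 1, 0, 3), ((1, 0, 9), 1, 0, 4),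
    ((1, 2, 6), 1, 5, 3), ((1, 2, 9), 1, 5, 4), ((1, 6, 9), 1, 3, 4), ((2, 1, 3), 5, 1, 0),
    ((3, 2, 7), 0, 5, 6), ((4, 6, 8), 0, 3, 7), ((5, 0, 9), 2, 0, 4), ((6, 1, 4), 3, 1, 0),
    ((7, 3, 8), 6, 0, 7), ((8, 4, 7), 7, 0, 6), ((9, 1, 5), 4, 1, 2)]
  Tc := [(2, 1, 3)]
  Td := [((1, 2), (1, 0), 0), ((1, 2), (1, 2), 5), ((1, 2), (1, 6), 3), ((1, 2), (1, 9), 4), ((2,
    1), (5, 0), 0), ((2, 1), (5, 9), 4), ((2, 3), (5, 0), 0), ((2, 3), (5, 9), 4), ((3, 2),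
    (6, 1), 1), ((3, 2), (6, 4), 0)]
  G := [[0, 0x41416e1a1a1e68e1e1e1e2864, 0x1222841e841e81ce1a14, 0xd2d2d2e1412,
    0x4224841b841b819e4a14], [0, 0, 0, 0xd2d2d2e1821,
    0x841b841b819e424221841b841b819e4ac4221889], [0, 0, 0, 0x44242d44e2229229a2c14,
    0x4222841b841b819e4a14]]

noncomputable def n2853 : Ent := ⟨e2853, noF, [], [], []⟩

def c2853 : PLift (Cov.check n2853.C.D v2853 = true) := ⟨by decide +kernel⟩

def b2853 : PLift (entF (fidx ts) 400 2853 n2853 = true) := ⟨by decide +kernel⟩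

theorem g2853 : GoodF (fidx ts) 400 2853 := GoodF.ofV v2853 n2853 c2853.down b2853.down

/-- 4594564:2270/2 -/
noncomputable def e2854 : SCfg where
  D := {
    a := 7
    L := 10
    kp := 7
    inn := [(0, 1), (0, 2), (1, 0), (1, 2), (2, 0), (2, 1), (2, 3), (2, 4), (2, 5), (3, 2), (3, 5), (4,
      2), (5, 2), (5, 3), (5, 6), (6, 5)]
    mix := [(0, 0), (0, 1), (1, 1), (1, 2), (1, 3), (2, 0), (2, 3), (2, 4), (2, 5), (3, 4), (3, 6), (4,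
      3), (4, 4), (4, 7), (4, 8), (5, 5), (5, 6), (5, 9), (6, 2), (6, 6), (6, 9)]
    cl := [0, 2, 4, 0, 0, 1, 3, 6, 7, 5]
    chq := [(1, 3), (1, 4), (3, 1), (4, 1)]
    rng := [(0, 1), (0, 5), (1, 0), (1, 2), (2, 1), (2, 3), (2, 6), (2, 9), (3, 2), (3, 7), (4, 6), (4,
      8), (5, 0), (5, 9), (6, 2), (6, 4), (7, 3), (7, 8), (8, 4), (8, 7), (9, 2), (9, 5)]
    lev := [] }
  links := [[1, 2, 7, 8], [2, 0, 8, 9, 10], [7, 0, 1, 10, 4, 11, 3, 5, 12], [5, 2, 11, 13], [11, 2, 10,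
    14, 15], [12, 2, 3, 13, 6, 16], [16, 5, 13, 9]]
  P := {
    a := 7
    N := 17
    nb := [390, 1797, 7355, 10276, 52228, 77900, 74272, 4357, 643, 75074, 16918, 40988, 65700, 2664,
      33808, 18448, 4704]
    tri := [(0, 1, 2), (0, 1, 8), (0, 2, 7), (0, 7, 8), (1, 2, 10), (1, 8, 9), (1, 9, 10), (2, 3, 5),
      (2, 3, 11), (2, 4, 10), (2, 4, 11), (2, 5, 12), (2, 7, 12), (3, 5, 13), (3, 11, 13), (4, 10,
      14), (4, 11, 15), (4, 14, 15), (5, 6, 13), (5, 6, 16), (5, 12, 16), (6, 9, 13), (6, 9, 16)]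
    fin := [0, 0, 0, 0, 0, 5, 6, 0, 8, 6, 0, 0, 5, 13, 14, 15, 16]
    chd := [(5, 13), (6, 5)]
    steps := [(0, 1), (0, 2), (0, 3), (0, 4), (0, 7), (0, 10), (0, 11), (5, 12), (6, 9)] }
  rep := [0, 5, 8, 13, 6, 16, 14, 15]

noncomputable def v2854 : Cov.CovD where
  P := 3
  N := 5
  pl := [1, 7, 8, 9]
  lev := [⟨[], [], [], [2], [(0, 0, [])]⟩,
    ⟨[], [(0, 0), (0, 4)], [(0, 4)], [2], [(2, 4, [1]), (3, 0, [])]⟩,
    ⟨[(0, 1)], [(0, 0), (0, 1), (1, 0), (1, 1), (1, 4)], [(0, 0), (0, 1)], [], [(0, 0, []),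
      (3, 0, []), (4, 0, []), (5, 1, [3, 4])]⟩,
    ⟨[(0, 2), (1, 2)], [(2, 0), (2, 1), (2, 3)], [(0, 3)], [], [(4, 0, []), (6, 3, [1])]⟩,
    ⟨[(0, 2), (1, 2), (2, 3)], [(1, 0), (2, 0), (2, 1), (3, 0)], [(0, 0)], [6, 7], [(3, 0,
      []), (4, 0, [])]⟩,
    ⟨[(0, 2), (1, 2), (2, 3), (2, 4)], [(2, 0), (2, 1), (2, 3), (3, 0), (3, 1), (3, 3)],
      [(1, 3)], [5], [(5, 1, [3, 4]), (6, 3, [1])]⟩,
    ⟨[(2, 5), (3, 5)], [(1, 4), (3, 3), (5, 1), (5, 3), (5, 4)], [(3, 4)], [5], [(2, 4,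
      [1]), (6, 3, [1])]⟩]
  Ta := [((0, 1), 0, 2), ((0, 5), 0, 1), ((3, 2), 0, 4), ((3, 7), 0, 6), ((4, 6), 0, 3), ((4, 8),
    0, 7)]
  Tb := [((0, 1, 5), 0, 2, 1), ((1, 0, 2), 2, 0, 4), ((2, 1, 3), 4, 2, 0), ((2, 1, 6), 4, 2, 3),
    ((2, 1, 9), 4, 2, 5), ((2, 3, 6), 4, 0, 3), ((2, 3, 9), 4, 0, 5), ((2, 6, 9), 4, 3, 5),
    ((3, 2, 7), 0, 4, 6), ((4, 6, 8), 0, 3, 7), ((5, 0, 9), 1, 0, 5), ((6, 2, 4), 3, 4, 0),
    ((7, 3, 8), 6, 0, 7), ((8, 4, 7), 7, 0, 6), ((9, 2, 5), 5, 4, 1)]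
  Tc := [(1, 3, 4)]
  Td := [((1, 3), (5, 0), 0), ((1, 3), (5, 9), 5), ((1, 4), (5, 0), 0), ((1, 4), (5, 9), 5), ((3,
    1), (6, 2), 4), ((3, 1), (6, 4), 0), ((4, 1), (2, 1), 2), ((4, 1), (2, 3), 0), ((4, 1),
    (2, 6), 3), ((4, 1), (2, 9), 5)]
  G := [[0, 0x1441111e11a111ee1c18, 0x646156211a19c22cea8a3c28, 0x244421921911e2422ca3c18,
    0x2424611219219e622c81c12], [0, 0, 0, 0x823d819839e2423428814c244181121415e4434c28e38cc,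
    0x4352ebd635e2a2c82a8e1c21], [0, 0, 0, 0xa41162684e21d11e2ceac18,
    0xa444e21d619e21de2c12]]

noncomputable def n2854 : Ent := ⟨e2854, noF, [], [], []⟩

def c2854 : PLift (Cov.check n2854.C.D v2854 = true) := ⟨by decide +kernel⟩

def b2854 : PLift (entF (fidx ts) 400 2854 n2854 = true) := ⟨by decide +kernel⟩

theorem g2854 : GoodF (fidx ts) 400 2854 := GoodF.ofV v2854 n2854 c2854.down b2854.down

/-- 4594564:2270/3 -/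
noncomputable def e2855 : SCfg where
  D := {
    a := 7
    L := 10
    kp := 7
    inn := [(0, 1), (0, 2), (1, 0), (1, 2), (2, 0), (2, 1), (2, 3), (2, 4), (2, 5), (3, 2), (3, 5), (4,
      2), (5, 2), (5, 3), (5, 6), (6, 5)]
    mix := [(0, 0), (0, 1), (1, 1), (1, 2), (1, 3), (2, 0), (2, 3), (2, 4), (2, 5), (3, 4), (3, 6), (4,
      3), (4, 4), (4, 7), (4, 8), (5, 5), (5, 6), (5, 9), (6, 6), (6, 8), (6, 9)]
    cl := [0, 4, 6, 0, 0, 1, 3, 7, 2, 5]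
    chq := [(1, 2), (1, 3), (2, 1), (3, 1)]
    rng := [(0, 1), (0, 5), (1, 0), (1, 2), (2, 1), (2, 3), (3, 2), (3, 7), (4, 6), (4, 8), (5, 0), (5,
      9), (6, 4), (6, 8), (7, 3), (7, 8), (8, 4), (8, 6), (8, 7), (8, 9), (9, 5), (9, 8)]
    lev := [] }
  links := [[1, 2, 7, 8], [2, 0, 8, 9, 10], [7, 0, 1, 10, 4, 11, 3, 5, 12], [5, 2, 11, 13], [11, 2, 10,
    14, 15], [12, 2, 3, 13, 6, 16], [16, 5, 13, 15]]
  P := {
    a := 7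
    N := 17
    nb := [390, 1797, 7355, 10276, 52228, 77900, 106528, 4357, 643, 1282, 16918, 40988, 65700, 34920,
      33808, 92240, 36960]
    tri := [(0, 1, 2), (0, 1, 8), (0, 2, 7), (0, 7, 8), (1, 2, 10), (1, 8, 9), (1, 9, 10), (2, 3, 5),
      (2, 3, 11), (2, 4, 10), (2, 4, 11), (2, 5, 12), (2, 7, 12), (3, 5, 13), (3, 11, 13), (4, 10,
      14), (4, 11, 15), (4, 14, 15), (5, 6, 13), (5, 6, 16), (5, 12, 16), (6, 13, 15), (6, 15,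
      16)]
    fin := [0, 0, 0, 0, 0, 5, 6, 0, 8, 9, 0, 0, 5, 13, 14, 6, 16]
    chd := [(5, 6), (5, 13)]
    steps := [(0, 1), (0, 2), (0, 3), (0, 4), (0, 7), (0, 10), (0, 11), (5, 12), (6, 15)] }
  rep := [0, 5, 6, 13, 8, 16, 9, 14]

noncomputable def v2855 : Cov.CovD where
  P := 3
  N := 5
  pl := [1, 2, 7, 9]
  lev := [⟨[], [], [], [4], [(0, 0, [])]⟩,
    ⟨[], [(0, 0)], [], [4, 6], [(3, 0, [])]⟩,
    ⟨[(0, 1)], [(0, 0), (0, 1), (1, 0), (1, 1)], [(0, 0), (0, 1)], [], [(0, 0, []), (3, 0,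
      []), (4, 0, []), (5, 1, [2, 3])]⟩,
    ⟨[(0, 2), (1, 2)], [(2, 0), (2, 1), (2, 3)], [(0, 3)], [], [(4, 0, []), (6, 3, [1])]⟩,
    ⟨[(0, 2), (1, 2), (2, 3)], [(1, 0), (2, 0), (2, 1), (2, 2), (3, 0)], [(0, 0), (0, 2)],
      [7], [(3, 0, []), (4, 0, []), (8, 2, [1])]⟩,
    ⟨[(0, 2), (1, 2), (2, 3), (2, 4)], [(2, 0), (2, 1), (2, 3), (3, 0), (3, 1), (3, 3)],
      [(1, 3)], [5], [(5, 1, [2, 3]), (6, 3, [1])]⟩,
    ⟨[(2, 5), (3, 5)], [(3, 3), (4, 2), (5, 1), (5, 2), (5, 3)], [(2, 3)], [5], [(6, 3,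
      [1]), (8, 2, [1])]⟩]
  Ta := [((0, 1), 0, 4), ((0, 5), 0, 1), ((3, 2), 0, 6), ((3, 7), 0, 7), ((4, 6), 0, 3), ((4, 8),
    0, 2)]
  Tb := [((0, 1, 5), 0, 4, 1), ((1, 0, 2), 4, 0, 6), ((2, 1, 3), 6, 4, 0), ((3, 2, 7), 0, 6, 7),
    ((4, 6, 8), 0, 3, 2), ((5, 0, 9), 1, 0, 5), ((6, 4, 8), 3, 0, 2), ((7, 3, 8), 7, 0, 2),
    ((8, 4, 6), 2, 0, 3), ((8, 4, 7), 2, 0, 7), ((8, 4, 9), 2, 0, 5), ((8, 6, 7), 2, 3, 7),
    ((8, 6, 9), 2, 3, 5), ((8, 7, 9), 2, 7, 5), ((9, 5, 8), 5, 1, 2)]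
  Tc := [(1, 2, 3)]
  Td := [((1, 2), (5, 0), 0), ((1, 2), (5, 9), 5), ((1, 3), (5, 0), 0), ((1, 3), (5, 9), 5), ((2,
    1), (8, 4), 0), ((2, 1), (8, 6), 3), ((2, 1), (8, 7), 7), ((2, 1), (8, 9), 5), ((3, 1),
    (6, 4), 0), ((3, 1), (6, 8), 2)]
  G := [[0, 0x111e11ac1144161416111ec11888c1a, 0, 0xd2218496218cd221416,
    0x821d821da2412424a4819819a2c1111a2422ca32881c6a], [0, 0, 0, 0xd2214d2218d2214e1,
    0x819821da248342424a4819819a2c821d821da24e1], [0, 0, 0xe1e1a241e1e1c2816,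
    0x415228822c14228192641a, 0x821d821da241821d821da241a]]

noncomputable def n2855 : Ent := ⟨e2855, noF, [], [], []⟩

def c2855 : PLift (Cov.check n2855.C.D v2855 = true) := ⟨by decide +kernel⟩

def b2855 : PLift (entF (fidx ts) 400 2855 n2855 = true) := ⟨by decide +kernel⟩

theorem g2855 : GoodF (fidx ts) 400 2855 := GoodF.ofV v2855 n2855 c2855.down b2855.down

/-- 4594564:2270 -/
noncomputable def e2856 : SCfg where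
  D := {
    a := 7
    L := 11
    kp := 8
    inn := [(0, 1), (0, 2), (1, 0), (1, 2), (2, 0), (2, 1), (2, 3), (2, 4), (2, 5), (3, 2), (3, 5), (4,
      2), (5, 2), (5, 3), (5, 6), (6, 5)]
    mix := [(0, 0), (0, 1), (1, 1), (1, 2), (1, 3), (2, 0), (2, 3), (2, 4), (2, 5), (3, 4), (3, 6), (4,
      3), (4, 4), (4, 7), (4, 8), (5, 5), (5, 6), (5, 9), (6, 6), (6, 9), (6, 10)]
    cl := [0, 2, 6, 0, 0, 1, 3, 7, 8, 4, 5]
    chq := [(1, 3), (1, 5), (3, 1), (5, 1)]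
    rng := [(0, 1), (0, 5), (1, 0), (1, 2), (2, 1), (2, 3), (3, 2), (3, 7), (4, 6), (4, 8), (5, 0), (5,
      9), (6, 4), (6, 10), (7, 3), (7, 8), (8, 4), (8, 7), (9, 5), (9, 10), (10, 6), (10, 9)]
    lev := [] }
  links := [[1, 2, 7, 8], [2, 0, 8, 9, 10], [7, 0, 1, 10, 4, 11, 3, 5, 12], [5, 2, 11, 13], [11, 2, 10,
    14, 15], [12, 2, 3, 13, 6, 16], [16, 5, 13, 17]]
  P := {
    a := 7
    N := 18
    nb := [390, 1797, 7355, 10276, 52228, 77900, 204832, 4357, 643, 1282, 16918, 40988, 65700, 133224,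
      33808, 18448, 135264, 73792]
    tri := [(0, 1, 2), (0, 1, 8), (0, 2, 7), (0, 7, 8), (1, 2, 10), (1, 8, 9), (1, 9, 10), (2, 3, 5),
      (2, 3, 11), (2, 4, 10), (2, 4, 11), (2, 5, 12), (2, 7, 12), (3, 5, 13), (3, 11, 13), (4, 10,
      14), (4, 11, 15), (4, 14, 15), (5, 6, 13), (5, 6, 16), (5, 12, 16), (6, 13, 17), (6, 16,
      17)]
    fin := [0, 0, 0, 0, 0, 5, 6, 0, 8, 9, 0, 0, 5, 13, 14, 15, 16, 6]
    chd := [(5, 6), (5, 13)]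
    steps := [(0, 1), (0, 2), (0, 3), (0, 4), (0, 7), (0, 10), (0, 11), (5, 12), (6, 17)] }
  rep := [0, 5, 8, 13, 16, 6, 9, 14, 15]

noncomputable def v2856 : Cov.CovD where
  P := 3
  N := 6
  pl := [1, 2, 7, 8, 9]
  lev := [⟨[], [], [], [2], [(0, 0, [])]⟩,
    ⟨[], [(0, 0)], [], [2, 6], [(3, 0, [])]⟩,
    ⟨[(0, 1)], [(0, 0), (0, 1), (1, 0), (1, 1)], [(0, 0), (0, 1)], [], [(0, 0, []), (3, 0,
      []), (4, 0, []), (5, 1, [3, 5])]⟩,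
    ⟨[(0, 2), (1, 2)], [(2, 0), (2, 1), (2, 3)], [(0, 3)], [], [(4, 0, []), (6, 3, [1])]⟩,
    ⟨[(0, 2), (1, 2), (2, 3)], [(1, 0), (2, 0), (2, 1), (3, 0)], [(0, 0)], [7, 8], [(3, 0,
      []), (4, 0, [])]⟩,
    ⟨[(0, 2), (1, 2), (2, 3), (2, 4)], [(2, 0), (2, 1), (2, 3), (3, 0), (3, 1), (3, 3)],
      [(1, 3)], [4], [(5, 1, [3, 5]), (6, 3, [1])]⟩,
    ⟨[(2, 5), (3, 5)], [(3, 3), (5, 1), (5, 3), (5, 5)], [(3, 5)], [4], [(6, 3, [1]), (10,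
      5, [1])]⟩]
  Ta := [((0, 1), 0, 2), ((0, 5), 0, 1), ((3, 2), 0, 6), ((3, 7), 0, 7), ((4, 6), 0, 3), ((4, 8),
    0, 8)]
  Tb := [((0, 1, 5), 0, 2, 1), ((1, 0, 2), 2, 0, 6), ((2, 1, 3), 6, 2, 0), ((3, 2, 7), 0, 6, 7),
    ((4, 6, 8), 0, 3, 8), ((5, 0, 9), 1, 0, 4), ((6, 4, 10), 3, 0, 5), ((7, 3, 8), 7, 0, 8),
    ((8, 4, 7), 8, 0, 7), ((9, 5, 10), 4, 1, 5), ((10, 6, 9), 5, 3, 4)]
  Tc := [(1, 3, 5)]
  Td := [((1, 3), (5, 0), 0), ((1, 3), (5, 9), 4), ((1, 5), (5, 0), 0), ((1, 5), (5, 9), 4), ((3,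
    1), (6, 4), 0), ((3, 1), (6, 10), 5), ((5, 1), (10, 6), 3), ((5, 1), (10, 9), 4)]
  G := [[0, 0x1222111e111e11ce1a18, 0x646461282e27da39b1eac6b52ebd2ebde22888cc2,
    0x2441282e27da792f5eac18, 0x6b52ebd2ebde22881c12], [0, 0, 0,
    0x282828e2f58a4a888a24c6b56b56286352ebd263de28cc,
    0x6463562e27da39a8e2c6b56b5f1e22c232828c1ca2], [0, 0, 0, 0x2444688af5e79e27deac18,
    0x6352ebd2ebde2a882c12]]

noncomputable def n2856 : Ent := ⟨e2856, noF, [], [], [(8, 17, [6903326391201334775872065844685381424292761054348340378595029941374977, 0]), (9, 17, [6903326391201334775872065844685381424292761054348340378595029941379073, 0]), (15, 17, [6903326391201334775872065844685381424292761054348340378595029941383169, 0])]⟩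

def c2856 : PLift (Cov.check n2856.C.D v2856 = true) := ⟨by decide +kernel⟩

def b2856 : PLift (entF (fidx ts) 400 2856 n2856 = true) := ⟨by decide +kernel⟩

theorem g2856 : GoodF (fidx ts) 400 2856 := GoodF.ofV v2856 n2856 c2856.down b2856.down

/-- 4646964:2272/1 -/
noncomputable def e2857 : SCfg where
  D := {
    a := 7
    L := 10
    kp := 8
    inn := [(0, 1), (0, 3), (0, 4), (1, 0), (1, 2), (1, 4), (2, 1), (2, 4), (3, 0), (3, 4), (3, 5), (4,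
      0), (4, 1), (4, 2), (4, 3), (4, 5), (5, 3), (5, 4), (5, 6), (6, 5)]
    mix := [(0, 0), (1, 0), (1, 1), (1, 2), (2, 1), (2, 3), (3, 0), (3, 4), (3, 5), (4, 3), (4, 6), (4,
      7), (4, 8), (5, 5), (5, 6), (5, 9), (6, 1), (6, 5), (6, 9)]
    cl := [0, 1, 7, 2, 8, 3, 3, 5, 6, 4]
    chq := [(0, 1), (0, 2), (0, 3), (0, 5), (0, 6), (1, 0), (2, 0), (3, 0), (5, 0), (6, 0)]
    rng := [(0, 2), (0, 4), (1, 2), (1, 3), (1, 5), (1, 9), (2, 0), (2, 1), (3, 1), (3, 8), (4, 0), (4,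
      5), (5, 1), (5, 4), (6, 7), (6, 9), (7, 6), (7, 8), (8, 3), (8, 7), (9, 1), (9, 6)]
    lev := [] }
  links := [[1, 7, 3, 4], [7, 0, 4, 2, 8, 9], [8, 1, 4, 10], [4, 0, 7, 11, 12, 5], [10, 2, 1, 0, 3, 5,
    13, 14, 15], [13, 4, 3, 12, 6, 16], [16, 5, 12, 8]]
  P := {
    a := 7
    N := 17
    nb := [154, 917, 1298, 6321, 58415, 77912, 69920, 2571, 71238, 386, 33044, 4232, 2408, 81968,
      40976, 17424, 8544]
    tri := [(0, 1, 4), (0, 1, 7), (0, 3, 4), (0, 3, 7), (1, 2, 4), (1, 2, 8), (1, 7, 9), (1, 8, 9), (2,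
      4, 10), (2, 8, 10), (3, 4, 5), (3, 5, 12), (3, 7, 11), (3, 11, 12), (4, 5, 13), (4, 10, 15),
      (4, 13, 14), (4, 14, 15), (5, 6, 12), (5, 6, 16), (5, 13, 16), (6, 8, 12), (6, 8, 16)]
    fin := [0, 0, 0, 0, 0, 5, 5, 0, 8, 9, 10, 11, 5, 5, 14, 15, 16]
    chd := [(0, 5), (0, 8), (0, 10), (0, 14), (0, 15)]
    steps := [(0, 1), (0, 2), (0, 3), (0, 4), (0, 7), (5, 6), (5, 12), (5, 13)] }
  rep := [0, 8, 10, 5, 16, 14, 15, 9, 11]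

noncomputable def v2857 : Cov.CovD where
  P := 3
  N := 6
  pl := [2, 4, 9]
  lev := [⟨[], [], [], [], [(0, 0, [1, 2, 3, 5, 6])]⟩,
    ⟨[], [(0, 0), (0, 1)], [(0, 1)], [7], [(0, 0, [1, 2, 3, 5, 6]), (1, 1, [0])]⟩,
    ⟨[(0, 1)], [(1, 0), (1, 1), (1, 2)], [(1, 2)], [], [(1, 1, [0]), (3, 2, [0])]⟩,
    ⟨[(0, 1)], [(0, 0), (0, 3), (1, 0)], [(0, 3)], [8], [(0, 0, [1, 2, 3, 5, 6]), (5, 3,
      [0])]⟩,
    ⟨[(0, 1), (0, 2), (0, 3), (1, 2), (1, 3), (2, 3)], [(0, 0), (0, 2), (0, 3), (0, 5), (0,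
      6), (1, 0), (1, 1), (1, 2), (1, 3), (1, 5), (1, 6), (2, 1), (2, 2), (2, 3), (2, 5), (2,
      6), (3, 0), (3, 2), (3, 3), (3, 5), (3, 6)], [(2, 3), (2, 5), (2, 6), (3, 5), (3, 6),
      (5, 6)], [], [(3, 2, [0]), (6, 3, [0]), (7, 5, [0]), (8, 6, [0])]⟩,
    ⟨[(0, 3), (0, 4), (1, 4), (2, 4), (3, 4)], [(3, 0), (3, 3), (4, 2), (4, 3), (4, 5), (4,
      6)], [(3, 3)], [4], [(5, 3, [0]), (6, 3, [0])]⟩,
    ⟨[(3, 5), (4, 5)], [(1, 1), (2, 1), (3, 3), (5, 1), (5, 3)], [(1, 3)], [4], [(1, 1,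
      [0]), (5, 3, [0])]⟩]
  Ta := [((5, 1), 3, 1), ((5, 4), 3, 8), ((6, 7), 3, 5), ((6, 9), 3, 4)]
  Tb := [((0, 2, 4), 0, 7, 8), ((1, 2, 3), 1, 7, 2), ((1, 2, 5), 1, 7, 3), ((1, 2, 9), 1, 7, 4),
    ((1, 3, 5), 1, 2, 3), ((1, 3, 9), 1, 2, 4), ((1, 5, 9), 1, 3, 4), ((2, 0, 1), 7, 0, 1),
    ((3, 1, 8), 2, 1, 6), ((4, 0, 5), 8, 0, 3), ((5, 1, 4), 3, 1, 8), ((6, 7, 9), 3, 5, 4),
    ((7, 6, 8), 5, 3, 6), ((8, 3, 7), 6, 2, 5), ((9, 1, 6), 4, 1, 3)]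
  Tc := [(0, 1, 2), (0, 1, 3), (0, 1, 5), (0, 1, 6), (0, 2, 3), (0, 2, 5), (0, 2, 6), (0, 3, 5),
    (0, 3, 6), (0, 5, 6)]
  Td := [((0, 1), (0, 2), 7), ((0, 1), (0, 4), 8), ((0, 2), (0, 2), 7), ((0, 2), (0, 4), 8), ((0,
    3), (0, 2), 7), ((0, 3), (0, 4), 8), ((0, 5), (0, 2), 7), ((0, 5), (0, 4), 8), ((0, 6),
    (0, 2), 7), ((0, 6), (0, 4), 8), ((1, 0), (1, 2), 7), ((1, 0), (1, 3), 2), ((1, 0), (1,
    5), 3), ((1, 0), (1, 9), 4), ((2, 0), (3, 1), 1), ((2, 0), (3, 8), 6), ((3, 0), (5, 1),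
    1), ((3, 0), (5, 4), 8), ((3, 0), (6, 7), 5), ((3, 0), (6, 9), 4), ((5, 0), (7, 6), 3),
    ((5, 0), (7, 8), 6), ((6, 0), (8, 3), 2), ((6, 0), (8, 7), 5)]
  G := [[0, 0x124b1e11e11e4e11e11e11e4a4,
    0x881284a841e61584a841e611c881248134114114e48178841784158ec5a,
    0x521d2164921521d21e8c921848a, 0x841e12812128c149e1815e1c8149e1815e184c1e8c6], [0,
    0x61188c11246a114886, 0x416181a1c8416181a1c8c2, 0x521921c4521921c8c2,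
    0x416181a1c8416181a1c8c2]]

noncomputable def n2857 : Ent := ⟨e2857, noF, [], [], []⟩

def c2857 : PLift (Cov.check n2857.C.D v2857 = true) := ⟨by decide +kernel⟩

def b2857 : PLift (entF (fidx ts) 400 2857 n2857 = true) := ⟨by decide +kernel⟩

theorem g2857 : GoodF (fidx ts) 400 2857 := GoodF.ofV v2857 n2857 c2857.down b2857.down

/-- 4646964:2272/2 -/
noncomputable def e2858 : SCfg where
  D := {
    a := 7
    L := 10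
    kp := 8
    inn := [(0, 1), (0, 3), (0, 4), (1, 0), (1, 2), (1, 4), (2, 1), (2, 4), (3, 0), (3, 4), (3, 5), (4,
      0), (4, 1), (4, 2), (4, 3), (4, 5), (5, 3), (5, 4), (5, 6), (6, 5)]
    mix := [(0, 0), (1, 0), (1, 1), (1, 2), (2, 1), (2, 3), (3, 0), (3, 4), (3, 5), (4, 3), (4, 6), (4,
      7), (4, 8), (5, 5), (5, 6), (5, 9), (6, 2), (6, 5), (6, 9)]
    cl := [0, 1, 2, 4, 8, 3, 3, 6, 7, 5]
    chq := [(0, 1), (0, 3), (0, 4), (0, 6), (0, 7), (1, 0), (3, 0), (4, 0), (6, 0), (7, 0)]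
    rng := [(0, 2), (0, 4), (1, 2), (1, 3), (2, 0), (2, 1), (2, 5), (2, 9), (3, 1), (3, 8), (4, 0), (4,
      5), (5, 2), (5, 4), (6, 7), (6, 9), (7, 6), (7, 8), (8, 3), (8, 7), (9, 2), (9, 6)]
    lev := [] }
  links := [[1, 7, 3, 4], [7, 0, 4, 2, 8, 9], [8, 1, 4, 10], [4, 0, 7, 11, 12, 5], [10, 2, 1, 0, 3, 5,
    13, 14, 15], [13, 4, 3, 12, 6, 16], [16, 5, 12, 9]]
  P := {
    a := 7
    N := 17
    nb := [154, 917, 1298, 6321, 58415, 77912, 70176, 2571, 1542, 70082, 33044, 4232, 2664, 81968,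
      40976, 17424, 8800]
    tri := [(0, 1, 4), (0, 1, 7), (0, 3, 4), (0, 3, 7), (1, 2, 4), (1, 2, 8), (1, 7, 9), (1, 8, 9), (2,
      4, 10), (2, 8, 10), (3, 4, 5), (3, 5, 12), (3, 7, 11), (3, 11, 12), (4, 5, 13), (4, 10, 15),
      (4, 13, 14), (4, 14, 15), (5, 6, 12), (5, 6, 16), (5, 13, 16), (6, 9, 12), (6, 9, 16)]
    fin := [0, 0, 0, 0, 0, 5, 5, 0, 8, 9, 10, 11, 5, 5, 14, 15, 16]
    chd := [(0, 5), (0, 8), (0, 10), (0, 14), (0, 15)]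
    steps := [(0, 1), (0, 2), (0, 3), (0, 4), (0, 7), (5, 6), (5, 12), (5, 13)] }
  rep := [0, 8, 9, 5, 10, 16, 14, 15, 11]

noncomputable def v2858 : Cov.CovD where
  P := 3
  N := 6
  pl := [2, 4, 9]
  lev := [⟨[], [], [], [], [(0, 0, [1, 3, 4, 6, 7])]⟩,
    ⟨[], [(0, 0), (0, 1)], [(0, 1)], [2], [(0, 0, [1, 3, 4, 6, 7]), (1, 1, [0])]⟩,
    ⟨[(0, 1)], [(1, 0), (1, 1), (1, 4)], [(1, 4)], [], [(1, 1, [0]), (3, 4, [0])]⟩,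
    ⟨[(0, 1)], [(0, 0), (0, 3), (1, 0)], [(0, 3)], [8], [(0, 0, [1, 3, 4, 6, 7]), (5, 3,
      [0])]⟩,
    ⟨[(0, 1), (0, 2), (0, 3), (1, 2), (1, 3), (2, 3)], [(0, 0), (0, 3), (0, 4), (0, 6), (0,
      7), (1, 0), (1, 1), (1, 3), (1, 4), (1, 6), (1, 7), (2, 1), (2, 3), (2, 4), (2, 6), (2,
      7), (3, 0), (3, 3), (3, 4), (3, 6), (3, 7)], [(3, 4), (3, 6), (3, 7), (4, 6), (4, 7),
      (6, 7)], [], [(3, 4, [0]), (6, 3, [0]), (7, 6, [0]), (8, 7, [0])]⟩,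
    ⟨[(0, 3), (0, 4), (1, 4), (2, 4), (3, 4)], [(3, 0), (3, 3), (4, 3), (4, 4), (4, 6), (4,
      7)], [(3, 3)], [5], [(5, 3, [0]), (6, 3, [0])]⟩,
    ⟨[(3, 5), (4, 5)], [(3, 3), (5, 3)], [], [2, 5], [(5, 3, [0])]⟩]
  Ta := [((5, 2), 3, 2), ((5, 4), 3, 8), ((6, 7), 3, 6), ((6, 9), 3, 5)]
  Tb := [((0, 2, 4), 0, 2, 8), ((1, 2, 3), 1, 2, 4), ((2, 0, 1), 2, 0, 1), ((2, 0, 5), 2, 0, 3),
    ((2, 0, 9), 2, 0, 5), ((2, 1, 5), 2, 1, 3), ((2, 1, 9), 2, 1, 5), ((2, 5, 9), 2, 3, 5),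
    ((3, 1, 8), 4, 1, 7), ((4, 0, 5), 8, 0, 3), ((5, 2, 4), 3, 2, 8), ((6, 7, 9), 3, 6, 5),
    ((7, 6, 8), 6, 3, 7), ((8, 3, 7), 7, 4, 6), ((9, 2, 6), 5, 2, 3)]
  Tc := [(0, 1, 3), (0, 1, 4), (0, 1, 6), (0, 1, 7), (0, 3, 4), (0, 3, 6), (0, 3, 7), (0, 4, 6),
    (0, 4, 7), (0, 6, 7)]
  Td := [((0, 1), (0, 2), 2), ((0, 1), (0, 4), 8), ((0, 3), (0, 2), 2), ((0, 3), (0, 4), 8), ((0,
    4), (0, 2), 2), ((0, 4), (0, 4), 8), ((0, 6), (0, 2), 2), ((0, 6), (0, 4), 8), ((0, 7),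
    (0, 2), 2), ((0, 7), (0, 4), 8), ((1, 0), (1, 2), 2), ((1, 0), (1, 3), 4), ((3, 0), (5,
    2), 2), ((3, 0), (5, 4), 8), ((3, 0), (6, 7), 6), ((3, 0), (6, 9), 5), ((4, 0), (3, 1),
    1), ((4, 0), (3, 8), 7), ((6, 0), (7, 6), 3), ((6, 0), (7, 8), 7), ((7, 0), (8, 3), 4),
    ((7, 0), (8, 7), 6)]
  G := [[0, 0x49871854b1dc31e49871854b1841e1ea84, 0xa11e11611ea11e11611e441881ad48,
    0x921521d21e921521d21ec48, 0x812e1831e1648192e182a1831e1e192e18c8141488e], [0,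
    0x416181a1c983148516a82, 0x242e1822e1c142, 0x521921c521921cc82, 0x126181c1a126181c1ac84]]

noncomputable def n2858 : Ent := ⟨e2858, noF, [], [], []⟩

def c2858 : PLift (Cov.check n2858.C.D v2858 = true) := ⟨by decide +kernel⟩

def b2858 : PLift (entF (fidx ts) 400 2858 n2858 = true) := ⟨by decide +kernel⟩

theorem g2858 : GoodF (fidx ts) 400 2858 := GoodF.ofV v2858 n2858 c2858.down b2858.down

/-- 4646964:2272 -/
noncomputable def e2859 : SCfg where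
  D := {
    a := 7
    L := 11
    kp := 9
    inn := [(0, 1), (0, 3), (0, 4), (1, 0), (1, 2), (1, 4), (2, 1), (2, 4), (3, 0), (3, 4), (3, 5), (4,
      0), (4, 1), (4, 2), (4, 3), (4, 5), (5, 3), (5, 4), (5, 6), (6, 5)]
    mix := [(0, 0), (1, 0), (1, 1), (1, 2), (2, 1), (2, 3), (3, 0), (3, 4), (3, 5), (4, 3), (4, 6), (4,
      7), (4, 8), (5, 5), (5, 6), (5, 9), (6, 5), (6, 9), (6, 10)]
    cl := [0, 2, 5, 1, 8, 3, 3, 6, 7, 4, 9]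
    chq := [(0, 1), (0, 3), (0, 6), (0, 7), (1, 0), (1, 5), (3, 0), (5, 1), (6, 0), (7, 0)]
    rng := [(0, 2), (0, 4), (1, 2), (1, 3), (2, 0), (2, 1), (3, 1), (3, 8), (4, 0), (4, 5), (5, 4), (5,
      10), (6, 7), (6, 9), (7, 6), (7, 8), (8, 3), (8, 7), (9, 6), (9, 10), (10, 5), (10, 9)]
    lev := [] }
  links := [[1, 7, 3, 4], [7, 0, 4, 2, 8, 9], [8, 1, 4, 10], [4, 0, 7, 11, 12, 5], [10, 2, 1, 0, 3, 5,
    13, 14, 15], [13, 4, 3, 12, 6, 16], [16, 5, 12, 17]]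
  P := {
    a := 7
    N := 18
    nb := [154, 917, 1298, 6321, 58415, 77912, 200736, 2571, 1542, 386, 33044, 4232, 133224, 81968,
      40976, 17424, 139360, 69696]
    tri := [(0, 1, 4), (0, 1, 7), (0, 3, 4), (0, 3, 7), (1, 2, 4), (1, 2, 8), (1, 7, 9), (1, 8, 9), (2,
      4, 10), (2, 8, 10), (3, 4, 5), (3, 5, 12), (3, 7, 11), (3, 11, 12), (4, 5, 13), (4, 10, 15),
      (4, 13, 14), (4, 14, 15), (5, 6, 12), (5, 6, 16), (5, 13, 16), (6, 12, 17), (6, 16, 17)]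
    fin := [0, 1, 1, 0, 0, 5, 5, 0, 8, 9, 1, 11, 5, 5, 14, 15, 16, 17]
    chd := [(0, 1), (0, 5), (0, 14), (0, 15), (9, 1)]
    steps := [(0, 3), (0, 4), (0, 7), (1, 2), (1, 10), (5, 6), (5, 12), (5, 13)] }
  rep := [0, 1, 8, 5, 16, 9, 14, 15, 11, 17]

noncomputable def v2859 : Cov.CovD where
  P := 3
  N := 7
  pl := [1, 4, 9, 10]
  lev := [⟨[], [], [], [], [(0, 0, [1, 3, 6, 7])]⟩,
    ⟨[], [(0, 0), (0, 5)], [(0, 5)], [2], [(0, 0, [1, 3, 6, 7]), (2, 5, [1])]⟩,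
    ⟨[(0, 1)], [(1, 0), (1, 1), (1, 5)], [], [2], [(3, 1, [0, 5])]⟩,
    ⟨[(0, 1)], [(0, 0), (0, 3), (1, 0)], [(0, 3)], [8], [(0, 0, [1, 3, 6, 7]), (5, 3,
      [0])]⟩,
    ⟨[(0, 1), (0, 2), (0, 3), (1, 2), (1, 3), (2, 3)], [(0, 0), (0, 1), (0, 3), (0, 6), (0,
      7), (1, 0), (1, 1), (1, 3), (1, 5), (1, 6), (1, 7), (2, 1), (2, 3), (2, 6), (2, 7), (3,
      0), (3, 1), (3, 3), (3, 6), (3, 7)], [(1, 3), (1, 6), (1, 7), (3, 6), (3, 7), (6, 7)],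
      [], [(3, 1, [0, 5]), (6, 3, [0]), (7, 6, [0]), (8, 7, [0])]⟩,
    ⟨[(0, 3), (0, 4), (1, 4), (2, 4), (3, 4)], [(3, 0), (3, 3), (4, 1), (4, 3), (4, 6), (4,
      7)], [(3, 3)], [4], [(5, 3, [0]), (6, 3, [0])]⟩,
    ⟨[(3, 5), (4, 5)], [(3, 3), (5, 3)], [], [4, 9], [(5, 3, [0])]⟩]
  Ta := [((5, 4), 3, 8), ((5, 10), 3, 9), ((6, 7), 3, 6), ((6, 9), 3, 4)]
  Tb := [((0, 2, 4), 0, 5, 8), ((1, 2, 3), 2, 5, 1), ((2, 0, 1), 5, 0, 2), ((3, 1, 8), 1, 2, 7),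
    ((4, 0, 5), 8, 0, 3), ((5, 4, 10), 3, 8, 9), ((6, 7, 9), 3, 6, 4), ((7, 6, 8), 6, 3, 7),
    ((8, 3, 7), 7, 1, 6), ((9, 6, 10), 4, 3, 9), ((10, 5, 9), 9, 3, 4)]
  Tc := [(0, 1, 3), (0, 1, 6), (0, 1, 7), (0, 3, 6), (0, 3, 7), (0, 6, 7), (1, 0, 5)]
  Td := [((0, 1), (0, 2), 5), ((0, 1), (0, 4), 8), ((0, 3), (0, 2), 5), ((0, 3), (0, 4), 8), ((0,
    6), (0, 2), 5), ((0, 6), (0, 4), 8), ((0, 7), (0, 2), 5), ((0, 7), (0, 4), 8), ((1, 0),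
    (3, 1), 2), ((1, 0), (3, 8), 7), ((1, 5), (3, 1), 2), ((1, 5), (3, 8), 7), ((3, 0), (5,
    4), 8), ((3, 0), (5, 10), 9), ((3, 0), (6, 7), 6), ((3, 0), (6, 9), 4), ((5, 1), (2, 0),
    0), ((5, 1), (2, 1), 2), ((6, 0), (7, 6), 3), ((6, 0), (7, 8), 7), ((7, 0), (8, 3), 1),
    ((7, 0), (8, 7), 6)]
  G := [[0, 0x641ca6a6ca34a6c2119131a6d331ab131ae4d641ca683448adf4c65b4a394e856,
    0x41482a45d174f14c2811db8f921b712f9448b42c,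
    0xd174f1b712f16412124c1db8f1881db8f1d174f1b72d1e4814414214e818418218ecda,
    0x4114582a45821db8f1d74b1b712f1e8184268992c], [0, 0x453e1954e1a4453e1954e1a8c4,
    0x453e1954e1a424, 0x453e1954e1a4453e1954e1a8c4, 0x983e1958e16828]]

noncomputable def n2859 : Ent := ⟨e2859, noF, [], [], [(17, 8, [6903326391201334775872065844734382085129376193087066322065204563841025, 0]), (17, 9, [6903326391201334775872066023091343012537746186634086559781921989238785, 0])]⟩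

def c2859 : PLift (Cov.check n2859.C.D v2859 = true) := ⟨by decide +kernel⟩

def b2859 : PLift (entF (fidx ts) 400 2859 n2859 = true) := ⟨by decide +kernel⟩

theorem g2859 : GoodF (fidx ts) 400 2859 := GoodF.ofV v2859 n2859 c2859.down b2859.down

/-- 4646947:2273 -/
noncomputable def e2860 : SCfg where
  D := {
    a := 7
    L := 11
    kp := 9
    inn := [(0, 1), (0, 3), (0, 4), (1, 0), (1, 2), (1, 4), (2, 1), (2, 4), (3, 0), (3, 4), (3, 6), (4,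
      0), (4, 1), (4, 2), (4, 3), (4, 5), (4, 6), (5, 4), (5, 6), (6, 3), (6, 4), (6, 5)]
    mix := [(0, 0), (1, 0), (1, 1), (1, 2), (2, 1), (2, 3), (3, 0), (3, 4), (3, 5), (4, 3), (4, 6), (4,
      7), (5, 6), (5, 8), (6, 5), (6, 8), (6, 9), (6, 10)]
    cl := [0, 2, 5, 1, 7, 3, 4, 6, 3, 8, 9]
    chq := [(0, 1), (0, 3), (0, 4), (0, 6), (1, 0), (1, 5), (3, 0), (4, 0), (5, 1), (6, 0)]
    rng := [(0, 2), (0, 4), (1, 2), (1, 3), (2, 0), (2, 1), (3, 1), (3, 7), (4, 0), (4, 5), (5, 4), (5,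
      9), (6, 7), (6, 8), (7, 3), (7, 6), (8, 6), (8, 10), (9, 5), (9, 10), (10, 8), (10, 9)]
    lev := [] }
  links := [[1, 7, 3, 4], [7, 0, 4, 2, 8, 9], [8, 1, 4, 10], [4, 0, 7, 11, 12, 6], [10, 2, 1, 0, 3, 6, 5,
    13, 14], [13, 4, 6, 15], [15, 5, 4, 3, 12, 16, 17]]
  P := {
    a := 7
    N := 18
    nb := [154, 917, 1298, 6353, 25711, 41040, 233528, 2571, 1542, 386, 16660, 4232, 67656, 49200,
      9232, 139360, 135232, 98368]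
    tri := [(0, 1, 4), (0, 1, 7), (0, 3, 4), (0, 3, 7), (1, 2, 4), (1, 2, 8), (1, 7, 9), (1, 8, 9), (2,
      4, 10), (2, 8, 10), (3, 4, 6), (3, 6, 12), (3, 7, 11), (3, 11, 12), (4, 5, 6), (4, 5, 13),
      (4, 10, 14), (4, 13, 14), (5, 6, 15), (5, 13, 15), (6, 12, 16), (6, 15, 17), (6, 16, 17)]
    fin := [0, 1, 1, 0, 0, 0, 6, 0, 8, 9, 1, 11, 6, 13, 14, 6, 16, 17]
    chd := [(0, 1), (0, 6), (0, 13), (0, 14), (9, 1)]
    steps := [(0, 3), (0, 4), (0, 5), (0, 7), (1, 2), (1, 10), (6, 12), (6, 15)] }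
  rep := [0, 1, 8, 6, 13, 9, 14, 11, 16, 17]

noncomputable def v2860 : Cov.CovD where
  P := 3
  N := 7
  pl := [1, 4, 9, 10]
  lev := [⟨[], [], [], [], [(0, 0, [1, 3, 4, 6])]⟩,
    ⟨[], [(0, 0), (0, 5)], [(0, 5)], [2], [(0, 0, [1, 3, 4, 6]), (2, 5, [1])]⟩,
    ⟨[(0, 1)], [(1, 0), (1, 1), (1, 5)], [], [2], [(3, 1, [0, 5])]⟩,
    ⟨[(0, 1)], [(0, 0), (0, 3), (1, 0)], [(0, 3)], [7], [(0, 0, [1, 3, 4, 6]), (5, 3,
      [0])]⟩,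
    ⟨[(0, 1), (0, 2), (0, 3), (1, 2), (1, 3), (2, 3)], [(0, 0), (0, 1), (0, 4), (0, 6), (1,
      0), (1, 1), (1, 4), (1, 5), (1, 6), (2, 1), (2, 4), (2, 6), (3, 0), (3, 1), (3, 3), (3,
      4), (3, 6)], [(1, 4), (1, 6), (4, 6)], [], [(3, 1, [0, 5]), (6, 4, [0]), (7, 6, [0])]⟩,
    ⟨[(0, 4), (1, 4), (2, 4), (3, 4)], [(4, 1), (4, 3), (4, 4), (4, 6)], [(3, 4)], [], [(6,
      4, [0]), (8, 3, [0])]⟩,
    ⟨[(0, 3), (0, 4), (1, 4), (2, 4), (3, 4), (3, 5), (4, 5)], [(3, 0), (3, 3), (4, 1), (4,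
      3), (4, 4), (4, 6), (5, 3), (5, 4)], [(3, 3)], [8, 9], [(5, 3, [0]), (8, 3, [0])]⟩]
  Ta := [((5, 4), 3, 7), ((5, 9), 3, 8), ((8, 6), 3, 4), ((8, 10), 3, 9)]
  Tb := [((0, 2, 4), 0, 5, 7), ((1, 2, 3), 2, 5, 1), ((2, 0, 1), 5, 0, 2), ((3, 1, 7), 1, 2, 6),
    ((4, 0, 5), 7, 0, 3), ((5, 4, 9), 3, 7, 8), ((6, 7, 8), 4, 6, 3), ((7, 3, 6), 6, 1, 4),
    ((8, 6, 10), 3, 4, 9), ((9, 5, 10), 8, 3, 9), ((10, 8, 9), 9, 3, 8)]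
  Tc := [(0, 1, 3), (0, 1, 4), (0, 1, 6), (0, 3, 4), (0, 3, 6), (0, 4, 6), (1, 0, 5)]
  Td := [((0, 1), (0, 2), 5), ((0, 1), (0, 4), 7), ((0, 3), (0, 2), 5), ((0, 3), (0, 4), 7), ((0,
    4), (0, 2), 5), ((0, 4), (0, 4), 7), ((0, 6), (0, 2), 5), ((0, 6), (0, 4), 7), ((1, 0),
    (3, 1), 2), ((1, 0), (3, 7), 6), ((1, 5), (3, 1), 2), ((1, 5), (3, 7), 6), ((3, 0), (5,
    4), 7), ((3, 0), (5, 9), 8), ((3, 0), (8, 6), 4), ((3, 0), (8, 10), 9), ((4, 0), (6, 7),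
    6), ((4, 0), (6, 8), 3), ((5, 1), (2, 0), 0), ((5, 1), (2, 1), 2), ((6, 0), (7, 3), 1),
    ((6, 0), (7, 6), 4)]
  G := [[0, 0x8861841a112612161e39ac61116ac3a8c4141864a14811116119191e1111ce118818ccd6,
    0x11a4411a4127da9124ec212bd691167bc9a42c,
    0x11f29e528bd61147bc9a8cbd617da1c87da14412441211ac11681212cecd6,
    0x11a7da54821238fe5128115127bcde1138892c], [0, 0xf14271f1a7186c1212818a41f1d1688184c1e,
    0x11384421b3efa751151b9f79afda82c, 0xf1f6f1ff52f164f1f6f1ff16f16411642173817586cd124881a,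
    0x1b9ff1af521338492118bffa751158a82c]]

noncomputable def n2860 : Ent := ⟨e2860, noF, [], [], []⟩

def c2860 : PLift (Cov.check n2860.C.D v2860 = true) := ⟨by decide +kernel⟩

def b2860 : PLift (entF (fidx ts) 400 2860 n2860 = true) := ⟨by decide +kernel⟩

theorem g2860 : GoodF (fidx ts) 400 2860 := GoodF.ofV v2860 n2860 c2860.down b2860.down

/-- 4594754:2274/1 -/
noncomputable def e2861 : SCfg where
  D := {
    a := 7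
    L := 10
    kp := 7
    inn := [(0, 1), (0, 2), (1, 0), (1, 2), (2, 0), (2, 1), (2, 3), (2, 4), (2, 5), (3, 2), (3, 4), (4,
      2), (4, 3), (4, 5), (4, 6), (5, 2), (5, 4), (6, 4)]
    mix := [(0, 0), (0, 1), (1, 1), (1, 2), (1, 3), (2, 0), (2, 3), (2, 4), (2, 5), (3, 5), (3, 6), (4,
      6), (4, 7), (4, 8), (5, 0), (5, 8), (5, 9), (6, 1), (6, 7), (6, 8)]
    cl := [1, 2, 6, 1, 5, 3, 0, 4, 0, 7]
    chq := [(0, 1), (0, 5), (1, 0), (5, 0)]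
    rng := [(0, 1), (0, 9), (1, 0), (1, 2), (1, 7), (1, 8), (2, 1), (2, 3), (3, 2), (3, 4), (4, 3), (4,
      5), (5, 4), (5, 6), (6, 5), (6, 7), (7, 1), (7, 6), (8, 1), (8, 9), (9, 0), (9, 8)]
    lev := [] }
  links := [[1, 2, 7, 8], [2, 0, 8, 9, 10], [7, 0, 1, 10, 11, 12, 3, 4, 5], [4, 2, 12, 13], [5, 2, 3, 13,
    14, 6, 15], [7, 2, 4, 15, 16], [15, 4, 14, 8]]
  P := {
    a := 7
    N := 17
    nb := [390, 1797, 7355, 12308, 57452, 98452, 49424, 65829, 49859, 1282, 2566, 5124, 10252, 20504,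
      8528, 65904, 32928]
    tri := [(0, 1, 2), (0, 1, 8), (0, 2, 7), (0, 7, 8), (1, 2, 10), (1, 8, 9), (1, 9, 10), (2, 3, 4),
      (2, 3, 12), (2, 4, 5), (2, 5, 7), (2, 10, 11), (2, 11, 12), (3, 4, 13), (3, 12, 13), (4, 5,
      15), (4, 6, 14), (4, 6, 15), (4, 13, 14), (5, 7, 16), (5, 15, 16), (6, 8, 14), (6, 8, 15)]
    fin := [0, 0, 2, 2, 4, 0, 6, 0, 6, 9, 0, 2, 12, 4, 14, 4, 16]
    chd := [(0, 4), (2, 4)]
    steps := [(0, 1), (0, 7), (0, 5), (0, 10), (2, 3), (2, 11), (4, 13), (4, 15), (6, 8)] }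
  rep := [4, 0, 6, 12, 14, 2, 9, 16]

noncomputable def v2861 : Cov.CovD where
  P := 3
  N := 5
  pl := [1, 2, 5, 7, 9]
  lev := [⟨[], [], [], [2], [(0, 1, [0])]⟩,
    ⟨[], [(0, 1)], [], [2, 6], [(3, 1, [0])]⟩,
    ⟨[(0, 1)], [(0, 1), (0, 5), (1, 1), (1, 5)], [(1, 1), (1, 5)], [3], [(0, 1, [0]), (3,
      1, [0]), (4, 5, [0])]⟩,
    ⟨[(0, 2), (1, 2)], [(2, 0), (2, 1), (2, 5)], [], [3], [(6, 0, [1, 5])]⟩,
    ⟨[(0, 2), (1, 2), (2, 3)], [(2, 0), (2, 1), (2, 5), (3, 0)], [(0, 0)], [4], [(6, 0, [1,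
      5]), (8, 0, [1, 5])]⟩,
    ⟨[(0, 2), (1, 2), (2, 3), (2, 4), (3, 4)], [(0, 1), (2, 0), (2, 1), (2, 5), (4, 0), (4,
      1)], [(0, 1)], [7], [(0, 1, [0]), (8, 0, [1, 5])]⟩,
    ⟨[(2, 4), (3, 4), (4, 5)], [(4, 0), (5, 0)], [], [2, 4], [(8, 0, [1, 5])]⟩]
  Ta := [((0, 1), 1, 2), ((0, 9), 1, 7), ((3, 2), 1, 6), ((3, 4), 1, 5), ((6, 5), 0, 3), ((6, 7),
    0, 4), ((8, 1), 0, 2), ((8, 9), 0, 7)]
  Tb := [((0, 1, 9), 1, 2, 7), ((1, 0, 2), 2, 1, 6), ((1, 0, 7), 2, 1, 4), ((1, 0, 8), 2, 1, 0),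
    ((1, 2, 7), 2, 6, 4), ((1, 2, 8), 2, 6, 0), ((1, 7, 8), 2, 4, 0), ((2, 1, 3), 6, 2, 1),
    ((3, 2, 4), 1, 6, 5), ((4, 3, 5), 5, 1, 3), ((5, 4, 6), 3, 5, 0), ((6, 5, 7), 0, 3, 4),
    ((7, 1, 6), 4, 2, 0), ((8, 1, 9), 0, 2, 7), ((9, 0, 8), 7, 1, 0)]
  Tc := [(0, 1, 5)]
  Td := [((0, 1), (6, 5), 3), ((0, 1), (6, 7), 4), ((0, 1), (8, 1), 2), ((0, 1), (8, 9), 7), ((0,
    5), (6, 5), 3), ((0, 5), (6, 7), 4), ((0, 5), (8, 1), 2), ((0, 5), (8, 9), 7), ((1, 0),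
    (0, 1), 2), ((1, 0), (0, 9), 7), ((1, 0), (3, 2), 6), ((1, 0), (3, 4), 5), ((5, 0), (4,
    3), 1), ((5, 0), (4, 5), 3)]
  G := [[0, 0x144218e111a11aa1841218e1e14, 0, 0xc12499c225c128ccc229c128c124cd1,
    0x8121688121a418c22cc2d21], [0, 0x1461166148a11aa4121814e1e18, 0, 0,
    0x1292c212212c2198121648121a4c8121688121a4c9a], [0, 0x8161166188a1166111c41cc2e18,
    0x44c22ca28c42cc6128, 0x488cc6ccc2c1ccc2ccc2a1c8, 0xaac48822c628c8e128], [0,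
    0x121418e148a11aa1181214e1e14, 0x8222c8242c612242c8222cc1c8, 0,
    0x8222c8222c61a281618222c12288222cad98]]

noncomputable def n2861 : Ent := ⟨e2861, noF, [], [], []⟩

def c2861 : PLift (Cov.check n2861.C.D v2861 = true) := ⟨by decide +kernel⟩

def b2861 : PLift (entF (fidx ts) 400 2861 n2861 = true) := ⟨by decide +kernel⟩

theorem g2861 : GoodF (fidx ts) 400 2861 := GoodF.ofV v2861 n2861 c2861.down b2861.down

/-- 4594754:2274/2 -/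
noncomputable def e2862 : SCfg where
  D := {
    a := 7
    L := 10
    kp := 7
    inn := [(0, 1), (0, 2), (1, 0), (1, 2), (2, 0), (2, 1), (2, 3), (2, 4), (2, 5), (3, 2), (3, 4), (4,
      2), (4, 3), (4, 5), (4, 6), (5, 2), (5, 4), (6, 4)]
    mix := [(0, 0), (0, 1), (1, 1), (1, 2), (1, 3), (2, 0), (2, 3), (2, 4), (2, 5), (3, 5), (3, 6), (4,
      6), (4, 7), (4, 8), (5, 0), (5, 8), (5, 9), (6, 2), (6, 7), (6, 8)]
    cl := [1, 2, 3, 1, 6, 4, 0, 5, 0, 7]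
    chq := [(0, 1), (0, 6), (1, 0), (6, 0)]
    rng := [(0, 1), (0, 9), (1, 0), (1, 2), (2, 1), (2, 3), (2, 7), (2, 8), (3, 2), (3, 4), (4, 3), (4,
      5), (5, 4), (5, 6), (6, 5), (6, 7), (7, 2), (7, 6), (8, 2), (8, 9), (9, 0), (9, 8)]
    lev := [] }
  links := [[1, 2, 7, 8], [2, 0, 8, 9, 10], [7, 0, 1, 10, 11, 12, 3, 4, 5], [4, 2, 12, 13], [5, 2, 3, 13,
    14, 6, 15], [7, 2, 4, 15, 16], [15, 4, 14, 9]]
  P := {
    a := 7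
    N := 17
    nb := [390, 1797, 7355, 12308, 57452, 98452, 49680, 65829, 643, 50498, 2566, 5124, 10252, 20504,
      8784, 66160, 32928]
    tri := [(0, 1, 2), (0, 1, 8), (0, 2, 7), (0, 7, 8), (1, 2, 10), (1, 8, 9), (1, 9, 10), (2, 3, 4),
      (2, 3, 12), (2, 4, 5), (2, 5, 7), (2, 10, 11), (2, 11, 12), (3, 4, 13), (3, 12, 13), (4, 5,
      15), (4, 6, 14), (4, 6, 15), (4, 13, 14), (5, 7, 16), (5, 15, 16), (6, 9, 14), (6, 9, 15)]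
    fin := [0, 0, 2, 2, 4, 2, 4, 0, 8, 4, 0, 11, 12, 2, 14, 2, 16]
    chd := [(0, 2), (11, 2)]
    steps := [(0, 1), (0, 7), (0, 10), (2, 3), (2, 5), (2, 13), (2, 15), (4, 6), (4, 9)] }
  rep := [2, 0, 8, 4, 12, 14, 11, 16]

noncomputable def v2862 : Cov.CovD where
  P := 3
  N := 5
  pl := [1, 2, 5, 7, 9]
  lev := [⟨[], [], [], [2], [(0, 1, [0])]⟩,
    ⟨[], [(0, 1)], [], [2, 3], [(3, 1, [0])]⟩,
    ⟨[(0, 1)], [(0, 1), (0, 6), (1, 1), (1, 6)], [(1, 1), (1, 6)], [4], [(0, 1, [0]), (3,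
      1, [0]), (4, 6, [0])]⟩,
    ⟨[(0, 2), (1, 2)], [(2, 0), (2, 1), (2, 6)], [], [4], [(6, 0, [1, 6])]⟩,
    ⟨[(0, 2), (1, 2), (2, 3)], [(2, 0), (2, 1), (2, 6), (3, 0)], [(0, 0)], [5], [(6, 0, [1,
      6]), (8, 0, [1, 6])]⟩,
    ⟨[(0, 2), (1, 2), (2, 3), (2, 4), (3, 4)], [(0, 1), (2, 0), (2, 1), (2, 6), (4, 0), (4,
      1)], [(0, 1)], [7], [(0, 1, [0]), (8, 0, [1, 6])]⟩,
    ⟨[(2, 4), (3, 4), (4, 5)], [(4, 0), (5, 0)], [], [3, 5], [(8, 0, [1, 6])]⟩]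
  Ta := [((0, 1), 1, 2), ((0, 9), 1, 7), ((3, 2), 1, 3), ((3, 4), 1, 6), ((6, 5), 0, 4), ((6, 7),
    0, 5), ((8, 2), 0, 3), ((8, 9), 0, 7)]
  Tb := [((0, 1, 9), 1, 2, 7), ((1, 0, 2), 2, 1, 3), ((2, 1, 3), 3, 2, 1), ((2, 1, 7), 3, 2, 5),
    ((2, 1, 8), 3, 2, 0), ((2, 3, 7), 3, 1, 5), ((2, 3, 8), 3, 1, 0), ((2, 7, 8), 3, 5, 0),
    ((3, 2, 4), 1, 3, 6), ((4, 3, 5), 6, 1, 4), ((5, 4, 6), 4, 6, 0), ((6, 5, 7), 0, 4, 5),
    ((7, 2, 6), 5, 3, 0), ((8, 2, 9), 0, 3, 7), ((9, 0, 8), 7, 1, 0)]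
  Tc := [(0, 1, 6)]
  Td := [((0, 1), (6, 5), 4), ((0, 1), (6, 7), 5), ((0, 1), (8, 2), 3), ((0, 1), (8, 9), 7), ((0,
    6), (6, 5), 4), ((0, 6), (6, 7), 5), ((0, 6), (8, 2), 3), ((0, 6), (8, 9), 7), ((1, 0),
    (0, 1), 2), ((1, 0), (0, 9), 7), ((1, 0), (3, 2), 3), ((1, 0), (3, 4), 6), ((6, 0), (4,
    3), 1), ((6, 0), (4, 5), 4)]
  G := [[0, 0x1161166811a11aa111611c61e14, 0x1481821ac42c1216811c22cc292c,
    0xc121a411c22cc251c12168819, 0x11c22cc212c12168c121a4c29], [0,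
    0x11611661141812e1121814e1e18, 0x124212c41221a84c1281648288222c694121682242c29cc, 0,
    0x1261a412d2c25112a168819], [0, 0x11611661141218e1181214e1e18, 0x44c8c22ce2cc24ae84e128,
    0x88c22c628ca2cca1444822ce66c44cac1c8, 0x44c8c22ce2ece2cca128], [0,
    0x11611661141812e111611cc1e18, 0x8222c8222c614222c62242ca1c8, 0,
    0x8222c8262c614121611221c12242c2242cad98]]

noncomputable def n2862 : Ent := ⟨e2862, noF, [], [], []⟩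

def c2862 : PLift (Cov.check n2862.C.D v2862 = true) := ⟨by decide +kernel⟩

def b2862 : PLift (entF (fidx ts) 400 2862 n2862 = true) := ⟨by decide +kernel⟩

theorem g2862 : GoodF (fidx ts) 400 2862 := GoodF.ofV v2862 n2862 c2862.down b2862.down

/-- 4594754:2274 -/
noncomputable def e2863 : SCfg where
  D := {
    a := 7
    L := 11
    kp := 8
    inn := [(0, 1), (0, 2), (1, 0), (1, 2), (2, 0), (2, 1), (2, 3), (2, 4), (2, 5), (3, 2), (3, 4), (4,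
      2), (4, 3), (4, 5), (4, 6), (5, 2), (5, 4), (6, 4)]
    mix := [(0, 0), (0, 1), (1, 1), (1, 2), (1, 3), (2, 0), (2, 3), (2, 4), (2, 5), (3, 5), (3, 6), (4,
      6), (4, 7), (4, 8), (5, 0), (5, 8), (5, 9), (6, 7), (6, 8), (6, 10)]
    cl := [1, 2, 6, 1, 5, 3, 0, 4, 0, 7, 8]
    chq := [(0, 1), (0, 5), (1, 0), (5, 0)]
    rng := [(0, 1), (0, 9), (1, 0), (1, 2), (2, 1), (2, 3), (3, 2), (3, 4), (4, 3), (4, 5), (5, 4), (5,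
      6), (6, 5), (6, 7), (7, 6), (7, 10), (8, 9), (8, 10), (9, 0), (9, 8), (10, 7), (10, 8)]
    lev := [] }
  links := [[1, 2, 7, 8], [2, 0, 8, 9, 10], [7, 0, 1, 10, 11, 12, 3, 4, 5], [4, 2, 12, 13], [5, 2, 3, 13,
    14, 6, 15], [7, 2, 4, 15, 16], [15, 4, 14, 17]]
  P := {
    a := 7
    N := 18
    nb := [390, 1797, 7355, 12308, 57452, 98452, 180240, 65829, 643, 1282, 2566, 5124, 10252, 20504,
      139344, 196720, 32928, 49216]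
    tri := [(0, 1, 2), (0, 1, 8), (0, 2, 7), (0, 7, 8), (1, 2, 10), (1, 8, 9), (1, 9, 10), (2, 3, 4),
      (2, 3, 12), (2, 4, 5), (2, 5, 7), (2, 10, 11), (2, 11, 12), (3, 4, 13), (3, 12, 13), (4, 5,
      15), (4, 6, 14), (4, 6, 15), (4, 13, 14), (5, 7, 16), (5, 15, 16), (6, 14, 17), (6, 15, 17)]
    fin := [0, 0, 2, 2, 4, 0, 4, 0, 8, 9, 0, 2, 12, 4, 14, 4, 16, 17]
    chd := [(0, 4), (2, 4)]
    steps := [(0, 1), (0, 7), (0, 5), (0, 10), (2, 3), (2, 11), (4, 6), (4, 13), (4, 15)] }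
  rep := [4, 0, 8, 12, 14, 2, 9, 16, 17]

noncomputable def v2863 : Cov.CovD where
  P := 3
  N := 6
  pl := [1, 2, 5, 7, 9, 10]
  lev := [⟨[], [], [], [2], [(0, 1, [0])]⟩,
    ⟨[], [(0, 1)], [], [2, 6], [(3, 1, [0])]⟩,
    ⟨[(0, 1)], [(0, 1), (0, 5), (1, 1), (1, 5)], [(1, 1), (1, 5)], [3], [(0, 1, [0]), (3,
      1, [0]), (4, 5, [0])]⟩,
    ⟨[(0, 2), (1, 2)], [(2, 0), (2, 1), (2, 5)], [], [3], [(6, 0, [1, 5])]⟩,
    ⟨[(0, 2), (1, 2), (2, 3)], [(2, 0), (2, 1), (2, 5), (3, 0)], [(0, 0)], [4], [(6, 0, [1,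
      5]), (8, 0, [1, 5])]⟩,
    ⟨[(0, 2), (1, 2), (2, 3), (2, 4), (3, 4)], [(0, 1), (2, 0), (2, 1), (2, 5), (4, 0), (4,
      1)], [(0, 1)], [7], [(0, 1, [0]), (8, 0, [1, 5])]⟩,
    ⟨[(2, 4), (3, 4), (4, 5)], [(4, 0), (5, 0)], [], [4, 8], [(8, 0, [1, 5])]⟩]
  Ta := [((0, 1), 1, 2), ((0, 9), 1, 7), ((3, 2), 1, 6), ((3, 4), 1, 5), ((6, 5), 0, 3), ((6, 7),
    0, 4), ((8, 9), 0, 7), ((8, 10), 0, 8)]
  Tb := [((0, 1, 9), 1, 2, 7), ((1, 0, 2), 2, 1, 6), ((2, 1, 3), 6, 2, 1), ((3, 2, 4), 1, 6, 5),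
    ((4, 3, 5), 5, 1, 3), ((5, 4, 6), 3, 5, 0), ((6, 5, 7), 0, 3, 4), ((7, 6, 10), 4, 0, 8),
    ((8, 9, 10), 0, 7, 8), ((9, 0, 8), 7, 1, 0), ((10, 7, 8), 8, 4, 0)]
  Tc := [(0, 1, 5)]
  Td := [((0, 1), (6, 5), 3), ((0, 1), (6, 7), 4), ((0, 1), (8, 9), 7), ((0, 1), (8, 10), 8),
    ((0, 5), (6, 5), 3), ((0, 5), (6, 7), 4), ((0, 5), (8, 9), 7), ((0, 5), (8, 10), 8), ((1,
    0), (0, 1), 2), ((1, 0), (0, 9), 7), ((1, 0), (3, 2), 6), ((1, 0), (3, 4), 5), ((5, 0),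
    (4, 3), 1), ((5, 0), (4, 5), 3)]
  G := [[0, 0x1161166811a11aa111c11cc1e14, 0xc161a442c1a16899c55c6292c,
    0xc161a41cc6814e25c1a16893c59c629c1a168c161a4cd1, 0xc1a168c161a41ac61cc2d21], [0,
    0x11611ca111a11aa111a116c1e14, 0xa28124641261a84c12a1641241262ca912a1681262c29cc, 0,
    0x1212c212d2ca262ca51262c21912a164812a1681261a4c99], [0, 0x1161166811a11aa1181214e1e14,
    0x44c8caece4cc88e6cec128, 0x44c8caecea6c2c4c8ce144c8caecec4a6cac84e1c4,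
    0x4cc88e6ce2ece2c84ce6128], [0, 0x121418e111a11aa111611ac1e14,
    0x4248222caa262ce1624a28a262ce1c4, 0, 0xc24aac2a262ce112aa561a283245c24a82a262ced98]]

noncomputable def n2863 : Ent := ⟨e2863, noF, [], [], [(8, 17, [6903326391201334775872065844685381424292761054348340378595029941407745, 0]), (9, 17, [6903326391201334775872065844685381424292761054348340378595029941411841, 0])]⟩

def c2863 : PLift (Cov.check n2863.C.D v2863 = true) := ⟨by decide +kernel⟩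

def b2863 : PLift (entF (fidx ts) 400 2863 n2863 = true) := ⟨by decide +kernel⟩

theorem g2863 : GoodF (fidx ts) 400 2863 := GoodF.ofV v2863 n2863 c2863.down b2863.down

/-- 4646884:2276/1 -/
noncomputable def e2864 : SCfg where
  D := {
    a := 7
    L := 10
    kp := 7
    inn := [(0, 1), (0, 3), (0, 4), (0, 5), (1, 0), (1, 2), (1, 4), (1, 5), (2, 1), (2, 4), (3, 0), (3,
      4), (3, 5), (4, 0), (4, 1), (4, 2), (4, 3), (5, 0), (5, 1), (5, 3), (5, 6), (6, 5)]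
    mix := [(1, 0), (1, 1), (2, 0), (2, 2), (3, 3), (3, 4), (3, 5), (4, 2), (4, 5), (4, 6), (4, 7), (5,
      1), (5, 3), (5, 8), (5, 9), (6, 6), (6, 8), (6, 9)]
    cl := [2, 1, 0, 3, 6, 0, 4, 7, 3, 5]
    chq := [(0, 1), (1, 0), (1, 6), (6, 1)]
    rng := [(0, 1), (0, 2), (1, 0), (1, 8), (2, 0), (2, 7), (3, 4), (3, 9), (4, 3), (4, 5), (5, 4), (5,
      6), (6, 5), (6, 7), (6, 8), (6, 9), (7, 2), (7, 6), (8, 1), (8, 6), (9, 3), (9, 6)]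
    lev := [] }
  links := [[1, 5, 3, 4], [5, 0, 4, 2, 7, 8], [7, 1, 4, 9], [4, 0, 5, 10, 11, 12], [9, 2, 1, 0, 3, 12,
    13, 14], [10, 3, 0, 1, 8, 15, 6, 16], [16, 5, 15, 13]]
  P := {
    a := 7
    N := 17
    nb := [58, 437, 658, 7217, 29199, 99659, 106528, 774, 32930, 16532, 67624, 5128, 10264, 118864,
      8720, 8544, 9312]
    tri := [(0, 1, 4), (0, 1, 5), (0, 3, 4), (0, 3, 5), (1, 2, 4), (1, 2, 7), (1, 5, 8), (1, 7, 8), (2,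
      4, 9), (2, 7, 9), (3, 4, 12), (3, 5, 10), (3, 10, 11), (3, 11, 12), (4, 9, 14), (4, 12, 13),
      (4, 13, 14), (5, 6, 15), (5, 6, 16), (5, 8, 15), (5, 10, 16), (6, 13, 15), (6, 13, 16)]
    fin := [0, 0, 2, 0, 4, 5, 5, 2, 0, 4, 5, 11, 4, 13, 14, 5, 16]
    chd := [(0, 4), (0, 11)]
    steps := [(0, 1), (0, 3), (0, 8), (2, 7), (4, 12), (4, 9), (5, 6), (5, 15), (5, 10)] }
  rep := [4, 0, 2, 5, 13, 16, 11, 14]

noncomputable def v2864 : Cov.CovD where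
  P := 3
  N := 5
  pl := [0, 6, 7, 9]
  lev := [⟨[], [], [], [], []⟩,
    ⟨[], [(0, 1)], [], [2], [(1, 1, [0, 6])]⟩,
    ⟨[(0, 1)], [(1, 0), (1, 1)], [], [2], [(2, 0, [1])]⟩,
    ⟨[(0, 1)], [(0, 0), (0, 3), (0, 6)], [(0, 3), (0, 6), (3, 6)], [], [(3, 3, []), (4, 6,
      [1]), (5, 0, [1])]⟩,
    ⟨[(0, 1), (0, 2), (0, 3), (1, 2), (1, 3), (2, 3)], [(0, 0), (1, 0), (1, 1), (2, 0), (3,
      0), (3, 3), (3, 6)], [(0, 0)], [4, 7], [(2, 0, [1]), (5, 0, [1])]⟩,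
    ⟨[(0, 1), (0, 3), (0, 4), (1, 2), (1, 3), (1, 4), (3, 4)], [(0, 1), (0, 3), (1, 1), (1,
      3), (3, 0), (3, 1), (3, 3), (3, 6)], [(1, 3), (3, 3)], [5], [(1, 1, [0, 6]), (3, 3,
      []), (8, 3, [])]⟩,
    ⟨[(0, 5), (1, 5), (3, 5)], [(5, 1), (5, 3)], [], [4, 5], [(8, 3, [])]⟩]
  Ta := [((2, 0), 0, 2), ((2, 7), 0, 7), ((3, 4), 3, 6), ((3, 9), 3, 5), ((5, 4), 0, 6), ((5, 6),
    0, 4), ((8, 1), 3, 1), ((8, 6), 3, 4)]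
  Tb := [((0, 1, 2), 2, 1, 0), ((1, 0, 8), 1, 2, 3), ((2, 0, 7), 0, 2, 7), ((3, 4, 9), 3, 6, 5),
    ((4, 3, 5), 6, 3, 0), ((5, 4, 6), 0, 6, 4), ((6, 5, 7), 4, 0, 7), ((6, 5, 8), 4, 0, 3),
    ((6, 5, 9), 4, 0, 5), ((6, 7, 8), 4, 7, 3), ((6, 7, 9), 4, 7, 5), ((6, 8, 9), 4, 3, 5),
    ((7, 2, 6), 7, 0, 4), ((8, 1, 6), 3, 1, 4), ((9, 3, 6), 5, 3, 4)]
  Tc := [(1, 0, 6)]
  Td := [((0, 1), (2, 0), 2), ((0, 1), (2, 7), 7), ((0, 1), (5, 4), 6), ((0, 1), (5, 6), 4), ((1,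
    0), (1, 0), 2), ((1, 0), (1, 8), 3), ((1, 6), (1, 0), 2), ((1, 6), (1, 8), 3), ((6, 1),
    (4, 3), 3), ((6, 1), (4, 5), 0)]
  G := [[0, 0x81ce51a132ee1814441886, 0x98329c554cdc64329288296daa8c1, 0x89cd5c9236de284442851,
    0x28524154628349289cd58236dea81c], [0, 0x444181817e93ad12ee181c,
    0x2152114a8819822cc42342644428ee4f292a8462c5, 0x2121121111ce4886ca4ce3ce2813,
    0xa15211216a1182a8682d3c286ca4c28ee815], [0, 0x1c6641e612ee141888181c, 0,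
    0x9c554cd296de2188821c1, 0x2152444618349289cd5c9692dea81c], [0, 0x592e2141835e349ec181a,
    0, 0x31239621182c486ca4ce4e2419, 0x11243546162582291182188a8c2293f2d2e2c2c81e]]

noncomputable def n2864 : Ent := ⟨e2864, noF, [], [], []⟩

def c2864 : PLift (Cov.check n2864.C.D v2864 = true) := ⟨by decide +kernel⟩

def b2864 : PLift (entF (fidx ts) 400 2864 n2864 = true) := ⟨by decide +kernel⟩

theorem g2864 : GoodF (fidx ts) 400 2864 := GoodF.ofV v2864 n2864 c2864.down b2864.down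

/-- 4646884:2276/2 -/
noncomputable def e2865 : SCfg where
  D := {
    a := 7
    L := 10
    kp := 7
    inn := [(0, 1), (0, 3), (0, 4), (0, 5), (1, 0), (1, 2), (1, 4), (1, 5), (2, 1), (2, 4), (3, 0), (3,
      4), (3, 5), (4, 0), (4, 1), (4, 2), (4, 3), (5, 0), (5, 1), (5, 3), (5, 6), (6, 5)]
    mix := [(1, 0), (1, 1), (2, 0), (2, 2), (3, 3), (3, 4), (3, 5), (4, 2), (4, 5), (4, 6), (4, 7), (5,
      1), (5, 3), (5, 8), (5, 9), (6, 7), (6, 8), (6, 9)]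
    cl := [2, 1, 0, 3, 6, 0, 7, 4, 3, 5]
    chq := [(0, 1), (1, 0), (1, 6), (6, 1)]
    rng := [(0, 1), (0, 2), (1, 0), (1, 8), (2, 0), (2, 7), (3, 4), (3, 9), (4, 3), (4, 5), (5, 4), (5,
      6), (6, 5), (6, 7), (7, 2), (7, 6), (7, 8), (7, 9), (8, 1), (8, 7), (9, 3), (9, 7)]
    lev := [] }
  links := [[1, 5, 3, 4], [5, 0, 4, 2, 7, 8], [7, 1, 4, 9], [4, 0, 5, 10, 11, 12], [9, 2, 1, 0, 3, 12,
    13, 14], [10, 3, 0, 1, 8, 15, 6, 16], [16, 5, 15, 14]]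
  P := {
    a := 7
    N := 17
    nb := [58, 437, 658, 7217, 29199, 99659, 114720, 774, 32930, 16532, 67624, 5128, 10264, 20496,
      107088, 16736, 17504]
    tri := [(0, 1, 4), (0, 1, 5), (0, 3, 4), (0, 3, 5), (1, 2, 4), (1, 2, 7), (1, 5, 8), (1, 7, 8), (2,
      4, 9), (2, 7, 9), (3, 4, 12), (3, 5, 10), (3, 10, 11), (3, 11, 12), (4, 9, 14), (4, 12, 13),
      (4, 13, 14), (5, 6, 15), (5, 6, 16), (5, 8, 15), (5, 10, 16), (6, 14, 15), (6, 14, 16)]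
    fin := [0, 0, 2, 0, 4, 5, 5, 2, 0, 4, 5, 11, 4, 13, 14, 5, 16]
    chd := [(0, 4), (0, 11)]
    steps := [(0, 1), (0, 3), (0, 8), (2, 7), (4, 12), (4, 9), (5, 6), (5, 15), (5, 10)] }
  rep := [4, 0, 2, 5, 14, 16, 11, 13]

noncomputable def v2865 : Cov.CovD where
  P := 3
  N := 5
  pl := [0, 6, 7, 9]
  lev := [⟨[], [], [], [], []⟩,
    ⟨[], [(0, 1)], [], [2], [(1, 1, [0, 6])]⟩,
    ⟨[(0, 1)], [(1, 0), (1, 1)], [], [2], [(2, 0, [1])]⟩,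
    ⟨[(0, 1)], [(0, 0), (0, 3), (0, 6)], [(0, 3), (0, 6), (3, 6)], [], [(3, 3, []), (4, 6,
      [1]), (5, 0, [1])]⟩,
    ⟨[(0, 1), (0, 2), (0, 3), (1, 2), (1, 3), (2, 3)], [(0, 0), (1, 0), (1, 1), (2, 0), (3,
      0), (3, 3), (3, 6)], [(0, 0)], [4, 7], [(2, 0, [1]), (5, 0, [1])]⟩,
    ⟨[(0, 1), (0, 3), (0, 4), (1, 2), (1, 3), (1, 4), (3, 4)], [(0, 1), (0, 3), (1, 1), (1,
      3), (3, 0), (3, 1), (3, 3), (3, 6)], [(1, 3), (3, 3)], [5], [(1, 1, [0, 6]), (3, 3,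
      []), (8, 3, [])]⟩,
    ⟨[(0, 5), (1, 5), (3, 5)], [(5, 1), (5, 3)], [], [4, 5], [(8, 3, [])]⟩]
  Ta := [((2, 0), 0, 2), ((2, 7), 0, 4), ((3, 4), 3, 6), ((3, 9), 3, 5), ((5, 4), 0, 6), ((5, 6),
    0, 7), ((8, 1), 3, 1), ((8, 7), 3, 4)]
  Tb := [((0, 1, 2), 2, 1, 0), ((1, 0, 8), 1, 2, 3), ((2, 0, 7), 0, 2, 4), ((3, 4, 9), 3, 6, 5),
    ((4, 3, 5), 6, 3, 0), ((5, 4, 6), 0, 6, 7), ((6, 5, 7), 7, 0, 4), ((7, 2, 6), 4, 0, 7),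
    ((7, 2, 8), 4, 0, 3), ((7, 2, 9), 4, 0, 5), ((7, 6, 8), 4, 7, 3), ((7, 6, 9), 4, 7, 5),
    ((7, 8, 9), 4, 3, 5), ((8, 1, 7), 3, 1, 4), ((9, 3, 7), 5, 3, 4)]
  Tc := [(1, 0, 6)]
  Td := [((0, 1), (2, 0), 2), ((0, 1), (2, 7), 4), ((0, 1), (5, 4), 6), ((0, 1), (5, 6), 7), ((1,
    0), (1, 0), 2), ((1, 0), (1, 8), 3), ((1, 6), (1, 0), 2), ((1, 6), (1, 8), 3), ((6, 1),
    (4, 3), 3), ((6, 1), (4, 5), 0)]
  G := [[0, 0x81ce51a132ee1814441886, 0x98329c554cdc64329288296daa8c1, 0x89cd5c9332de2814442486,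
    0x632d2281629c554cdc6a114a2888a21c], [0, 0x83a22a11454349e1dce1186,
    0x1142881968a28ca152a152442d886424cc2268288462c7, 0x31421131a2c886ca4ca6ce2815,
    0x1111c228f252425216a8382f3c286ca8ce295], [0, 0x12218481ce145e63ce141a, 0,
    0x11315622822c889cd54cc2416, 0x915519221de21814a218628844ce815], [0,
    0x817ed12ea141349e41186, 0, 0x443f2d624111219c2186c88c249a,
    0xa1521111219ea18442f3c286ca4cce215]]

noncomputable def n2865 : Ent := ⟨e2865, noF, [], [], []⟩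

def c2865 : PLift (Cov.check n2865.C.D v2865 = true) := ⟨by decide +kernel⟩

def b2865 : PLift (entF (fidx ts) 400 2865 n2865 = true) := ⟨by decide +kernel⟩

theorem g2865 : GoodF (fidx ts) 400 2865 := GoodF.ofV v2865 n2865 c2865.down b2865.down

/-- 4646884:2276/3 -/
noncomputable def e2866 : SCfg where
  D := {
    a := 7
    L := 10
    kp := 7
    inn := [(0, 1), (0, 3), (0, 4), (0, 5), (1, 0), (1, 2), (1, 4), (1, 5), (2, 1), (2, 4), (3, 0), (3,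
      4), (3, 5), (4, 0), (4, 1), (4, 2), (4, 3), (5, 0), (5, 1), (5, 3), (5, 6), (6, 5)]
    mix := [(1, 0), (1, 1), (2, 0), (2, 2), (3, 3), (3, 4), (3, 5), (4, 2), (4, 5), (4, 6), (4, 7), (5,
      1), (5, 3), (5, 8), (5, 9), (6, 2), (6, 8), (6, 9)]
    cl := [2, 1, 0, 3, 5, 0, 6, 7, 4, 1]
    chq := [(0, 3), (2, 3), (3, 0), (3, 2)]
    rng := [(0, 1), (0, 2), (1, 0), (1, 8), (2, 0), (2, 7), (2, 8), (2, 9), (3, 4), (3, 9), (4, 3), (4,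
      5), (5, 4), (5, 6), (6, 5), (6, 7), (7, 2), (7, 6), (8, 1), (8, 2), (9, 2), (9, 3)]
    lev := [] }
  links := [[1, 5, 3, 4], [5, 0, 4, 2, 7, 8], [7, 1, 4, 9], [4, 0, 5, 10, 11, 12], [9, 2, 1, 0, 3, 12,
    13, 14], [10, 3, 0, 1, 8, 15, 6, 16], [16, 5, 15, 9]]
  P := {
    a := 7
    N := 17
    nb := [58, 437, 658, 7217, 29199, 99659, 98848, 774, 32930, 114900, 67624, 5128, 10264, 20496,
      8720, 864, 1632]
    tri := [(0, 1, 4), (0, 1, 5), (0, 3, 4), (0, 3, 5), (1, 2, 4), (1, 2, 7), (1, 5, 8), (1, 7, 8), (2,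
      4, 9), (2, 7, 9), (3, 4, 12), (3, 5, 10), (3, 10, 11), (3, 11, 12), (4, 9, 14), (4, 12, 13),
      (4, 13, 14), (5, 6, 15), (5, 6, 16), (5, 8, 15), (5, 10, 16), (6, 9, 15), (6, 9, 16)]
    fin := [0, 0, 0, 3, 4, 5, 5, 0, 5, 4, 3, 11, 4, 13, 14, 15, 5]
    chd := [(0, 3), (4, 3)]
    steps := [(0, 1), (0, 2), (0, 7), (3, 10), (4, 9), (4, 12), (5, 6), (5, 8), (5, 16)] }
  rep := [4, 5, 0, 3, 15, 11, 13, 14]

noncomputable def v2866 : Cov.CovD where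
  P := 3
  N := 5
  pl := [4, 6, 7, 8]
  lev := [⟨[], [], [], [], []⟩,
    ⟨[], [(0, 1), (0, 2)], [(1, 2)], [], [(0, 2, [3]), (1, 1, [])]⟩,
    ⟨[(0, 1)], [(1, 0), (1, 1), (1, 2)], [(0, 2)], [], [(0, 2, [3]), (2, 0, [3])]⟩,
    ⟨[(0, 1)], [(0, 0), (0, 3)], [(0, 3)], [5], [(3, 3, [0, 2]), (5, 0, [3])]⟩,
    ⟨[(0, 1), (0, 2), (0, 3), (1, 2), (1, 3), (2, 3)], [(0, 0), (1, 0), (1, 1), (1, 2), (2,
      0), (2, 2), (3, 0), (3, 3)], [(0, 0)], [6, 7], [(2, 0, [3]), (5, 0, [3])]⟩,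
    ⟨[(0, 1), (0, 3), (0, 4), (1, 2), (1, 3), (1, 4), (3, 4)], [(0, 1), (0, 3), (1, 1), (1,
      2), (1, 3), (3, 0), (3, 1), (3, 3)], [(1, 1), (1, 3)], [4], [(1, 1, []), (3, 3, [0,
      2]), (9, 1, [])]⟩,
    ⟨[(0, 5), (1, 5), (3, 5)], [(2, 0), (4, 0), (5, 0), (5, 1), (5, 3)], [(0, 1)], [4],
      [(2, 0, [3]), (9, 1, [])]⟩]
  Ta := [((1, 0), 1, 2), ((1, 8), 1, 4), ((2, 0), 0, 2), ((2, 7), 0, 7), ((2, 8), 0, 4), ((2, 9),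
    0, 1), ((5, 4), 0, 5), ((5, 6), 0, 6), ((9, 2), 1, 0), ((9, 3), 1, 3)]
  Tb := [((0, 1, 2), 2, 1, 0), ((1, 0, 8), 1, 2, 4), ((2, 0, 7), 0, 2, 7), ((2, 0, 8), 0, 2, 4),
    ((2, 0, 9), 0, 2, 1), ((2, 7, 8), 0, 7, 4), ((2, 7, 9), 0, 7, 1), ((2, 8, 9), 0, 4, 1),
    ((3, 4, 9), 3, 5, 1), ((4, 3, 5), 5, 3, 0), ((5, 4, 6), 0, 5, 6), ((6, 5, 7), 6, 0, 7),
    ((7, 2, 6), 7, 0, 6), ((8, 1, 2), 4, 1, 0), ((9, 2, 3), 1, 0, 3)]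
  Tc := [(3, 0, 2)]
  Td := [((0, 3), (2, 0), 2), ((0, 3), (2, 7), 7), ((0, 3), (2, 8), 4), ((0, 3), (2, 9), 1), ((0,
    3), (5, 4), 5), ((0, 3), (5, 6), 6), ((2, 3), (0, 1), 1), ((2, 3), (0, 2), 0), ((3, 0),
    (3, 4), 5), ((3, 0), (3, 9), 1), ((3, 2), (3, 4), 5), ((3, 2), (3, 9), 1)]
  G := [[0, 0, 0xa161661c16c618a161c6c61884ca122883,
    0x212284212162182121ce2188c8121684c84c44ce5856,
    0xa1c16425462242d22242ac24e1a9a18c18628a], [0, 0x2222618884ce84c84ce1816,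
    0xc122848144c1c1ac1c1c4447c41416888888e94188ac6, 0,
    0xc1c1681c16c4c46dc18c1c1cc487a8188298122883], [0, 0, 0,
    0x212162121a212121ee1821442188c16, 0x4252281c1816c1c161ea161ce18a], [0, 0, 0, 0,
    0xc1c1c412c1c16c1c16ac12c186ac1881ac]]

noncomputable def n2866 : Ent := ⟨e2866, noF, [], [], []⟩

def c2866 : PLift (Cov.check n2866.C.D v2866 = true) := ⟨by decide +kernel⟩

def b2866 : PLift (entF (fidx ts) 400 2866 n2866 = true) := ⟨by decide +kernel⟩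

theorem g2866 : GoodF (fidx ts) 400 2866 := GoodF.ofV v2866 n2866 c2866.down b2866.down

/-- 4646884:2276 -/
noncomputable def e2867 : SCfg where
  D := {
    a := 7
    L := 11
    kp := 8
    inn := [(0, 1), (0, 3), (0, 4), (0, 5), (1, 0), (1, 2), (1, 4), (1, 5), (2, 1), (2, 4), (3, 0), (3,
      4), (3, 5), (4, 0), (4, 1), (4, 2), (4, 3), (5, 0), (5, 1), (5, 3), (5, 6), (6, 5)]
    mix := [(1, 0), (1, 1), (2, 0), (2, 2), (3, 3), (3, 4), (3, 5), (4, 2), (4, 5), (4, 6), (4, 7), (5,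
      1), (5, 3), (5, 8), (5, 9), (6, 8), (6, 9), (6, 10)]
    cl := [2, 1, 0, 3, 5, 0, 6, 7, 3, 4, 8]
    chq := [(0, 1), (1, 0), (1, 5), (5, 1)]
    rng := [(0, 1), (0, 2), (1, 0), (1, 8), (2, 0), (2, 7), (3, 4), (3, 9), (4, 3), (4, 5), (5, 4), (5,
      6), (6, 5), (6, 7), (7, 2), (7, 6), (8, 1), (8, 10), (9, 3), (9, 10), (10, 8), (10, 9)]
    lev := [] }
  links := [[1, 5, 3, 4], [5, 0, 4, 2, 7, 8], [7, 1, 4, 9], [4, 0, 5, 10, 11, 12], [9, 2, 1, 0, 3, 12,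
    13, 14], [10, 3, 0, 1, 8, 15, 6, 16], [16, 5, 15, 17]]
  P := {
    a := 7
    N := 18
    nb := [58, 437, 658, 7217, 29199, 99659, 229408, 774, 32930, 16532, 67624, 5128, 10264, 20496,
      8720, 131424, 132192, 98368]
    tri := [(0, 1, 4), (0, 1, 5), (0, 3, 4), (0, 3, 5), (1, 2, 4), (1, 2, 7), (1, 5, 8), (1, 7, 8), (2,
      4, 9), (2, 7, 9), (3, 4, 12), (3, 5, 10), (3, 10, 11), (3, 11, 12), (4, 9, 14), (4, 12, 13),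
      (4, 13, 14), (5, 6, 15), (5, 6, 16), (5, 8, 15), (5, 10, 16), (6, 15, 17), (6, 16, 17)]
    fin := [0, 0, 2, 0, 4, 5, 5, 2, 0, 4, 5, 11, 4, 13, 14, 5, 16, 17]
    chd := [(0, 4), (0, 11)]
    steps := [(0, 1), (0, 3), (0, 8), (2, 7), (4, 12), (4, 9), (5, 6), (5, 15), (5, 10)] }
  rep := [4, 0, 2, 5, 16, 11, 13, 14, 17]

noncomputable def v2867 : Cov.CovD where
  P := 3
  N := 6
  pl := [0, 6, 7, 9, 10]
  lev := [⟨[], [], [], [], []⟩,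
    ⟨[], [(0, 1)], [], [2], [(1, 1, [0, 5])]⟩,
    ⟨[(0, 1)], [(1, 0), (1, 1)], [], [2], [(2, 0, [1])]⟩,
    ⟨[(0, 1)], [(0, 0), (0, 3), (0, 5)], [(0, 3), (0, 5), (3, 5)], [], [(3, 3, []), (4, 5,
      [1]), (5, 0, [1])]⟩,
    ⟨[(0, 1), (0, 2), (0, 3), (1, 2), (1, 3), (2, 3)], [(0, 0), (1, 0), (1, 1), (2, 0), (3,
      0), (3, 3), (3, 5)], [(0, 0)], [6, 7], [(2, 0, [1]), (5, 0, [1])]⟩,
    ⟨[(0, 1), (0, 3), (0, 4), (1, 2), (1, 3), (1, 4), (3, 4)], [(0, 1), (0, 3), (1, 1), (1,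
      3), (3, 0), (3, 1), (3, 3), (3, 5)], [(1, 3), (3, 3)], [4], [(1, 1, [0, 5]), (3, 3,
      []), (8, 3, [])]⟩,
    ⟨[(0, 5), (1, 5), (3, 5)], [(5, 1), (5, 3)], [], [4, 8], [(8, 3, [])]⟩]
  Ta := [((2, 0), 0, 2), ((2, 7), 0, 7), ((3, 4), 3, 5), ((3, 9), 3, 4), ((5, 4), 0, 5), ((5, 6),
    0, 6), ((8, 1), 3, 1), ((8, 10), 3, 8)]
  Tb := [((0, 1, 2), 2, 1, 0), ((1, 0, 8), 1, 2, 3), ((2, 0, 7), 0, 2, 7), ((3, 4, 9), 3, 5, 4),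
    ((4, 3, 5), 5, 3, 0), ((5, 4, 6), 0, 5, 6), ((6, 5, 7), 6, 0, 7), ((7, 2, 6), 7, 0, 6),
    ((8, 1, 10), 3, 1, 8), ((9, 3, 10), 4, 3, 8), ((10, 8, 9), 8, 3, 4)]
  Tc := [(1, 0, 5)]
  Td := [((0, 1), (2, 0), 2), ((0, 1), (2, 7), 7), ((0, 1), (5, 4), 5), ((0, 1), (5, 6), 6), ((1,
    0), (1, 0), 2), ((1, 0), (1, 8), 3), ((1, 5), (1, 0), 2), ((1, 5), (1, 8), 3), ((5, 1),
    (4, 3), 3), ((5, 1), (4, 5), 0)]
  G := [[0, 0x53665ce6acee141988144a, 0xb8529c556cdc62148b25859cdaa8c1,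
    0x1159cd6284a6cd592dc241a, 0x53c2a9cd5c9d1cde9c62b816442815], [0,
    0x93a93a913ee181545444e1816, 0x243726356356542748a39a8a98238464822e82a8468cd,
    0x31224863531c248a8a6ca6ce241b, 0x1131c228b12712c88218222ec2e82a6ca6c86cee897], [0,
    0x32218495ce95ce9ace1816, 0, 0x9c556cd56cde24a882491, 0xd432b8529c556cd56cdee1a882291],
    [0, 0x323213ae11495c95c85ce181a, 0, 0x62526c626482c111421a39839a21a8428dc,
    0xb12412313131ee182ec2f1c2a6ca6c86cee815]]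

noncomputable def n2867 : Ent := ⟨e2867, noF, [], [], [(17, 13, [6903326391226443182813612567740724581985591720012749800372886079471617, 0]), (17, 14, [6903326468334360900303599070699561856668565975414084080169086035890177, 0]), (17, 9, [6903326391201334775872066023091343012537746186634086559781921989271553, 0])]⟩

def c2867 : PLift (Cov.check n2867.C.D v2867 = true) := ⟨by decide +kernel⟩

def b2867 : PLift (entF (fidx ts) 400 2867 n2867 = true) := ⟨by decide +kernel⟩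

theorem g2867 : GoodF (fidx ts) 400 2867 := GoodF.ofV v2867 n2867 c2867.down b2867.down

/-- 4646864:2278/1 -/
noncomputable def e2868 : SCfg where
  D := {
    a := 7
    L := 10
    kp := 7
    inn := [(0, 1), (0, 3), (0, 4), (1, 0), (1, 2), (1, 4), (2, 1), (2, 4), (3, 0), (3, 4), (3, 5), (4,
      0), (4, 1), (4, 2), (4, 3), (5, 3), (5, 6), (6, 5)]
    mix := [(0, 0), (1, 0), (1, 1), (1, 2), (2, 1), (2, 3), (3, 0), (3, 4), (3, 5), (4, 3), (4, 5), (4,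
      6), (4, 7), (5, 0), (5, 4), (5, 8), (5, 9), (6, 0), (6, 2), (6, 8)]
    cl := [0, 2, 3, 1, 0, 1, 5, 6, 4, 7]
    chq := [(0, 4), (1, 3), (3, 1), (4, 0)]
    rng := [(0, 2), (1, 2), (1, 3), (2, 0), (2, 1), (2, 8), (3, 1), (3, 7), (4, 5), (4, 9), (5, 4), (5,
      6), (6, 5), (6, 7), (7, 3), (7, 6), (8, 2), (8, 9), (9, 4), (9, 8)]
    lev := [] }
  links := [[1, 7, 3, 4], [7, 0, 4, 2, 8, 9], [8, 1, 4, 10], [4, 0, 7, 5, 11, 12], [10, 2, 1, 0, 3, 12,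
    13, 14], [11, 3, 7, 6, 15, 16], [15, 5, 7, 9]]
  P := {
    a := 7
    N := 17
    nb := [154, 917, 1298, 6321, 29711, 100552, 33440, 619, 1542, 33218, 16660, 69672, 10264, 20496,
      9232, 66144, 34848]
    tri := [(0, 1, 4), (0, 1, 7), (0, 3, 4), (0, 3, 7), (1, 2, 4), (1, 2, 8), (1, 7, 9), (1, 8, 9), (2,
      4, 10), (2, 8, 10), (3, 4, 12), (3, 5, 7), (3, 5, 11), (3, 11, 12), (4, 10, 14), (4, 12,
      13), (4, 13, 14), (5, 6, 7), (5, 6, 15), (5, 11, 16), (5, 15, 16), (6, 7, 9), (6, 9, 15)]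
    fin := [0, 1, 1, 0, 4, 0, 0, 0, 8, 1, 4, 0, 4, 13, 14, 15, 16]
    chd := [(0, 15), (1, 4)]
    steps := [(0, 3), (0, 5), (0, 6), (0, 7), (0, 11), (1, 2), (1, 9), (4, 12), (4, 10)] }
  rep := [0, 4, 8, 1, 15, 13, 14, 16]

noncomputable def v2868 : Cov.CovD where
  P := 3
  N := 5
  pl := [1, 6, 7, 9]
  lev := [⟨[], [], [], [], [(0, 0, [4])]⟩,
    ⟨[], [(0, 0), (0, 3)], [(0, 3)], [2], [(0, 0, [4]), (2, 3, [1])]⟩,
    ⟨[(0, 1)], [(1, 0), (1, 1), (1, 3)], [], [2], [(3, 1, [3])]⟩,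
    ⟨[(0, 1)], [(0, 0), (0, 1), (1, 0)], [(0, 0), (0, 1)], [], [(0, 0, [4]), (4, 0, [4]),
      (5, 1, [3])]⟩,
    ⟨[(0, 1), (0, 2), (0, 3), (1, 2), (1, 3), (2, 3)], [(0, 0), (0, 1), (1, 0), (1, 1), (1,
      3), (2, 1), (3, 0), (3, 1)], [(1, 1)], [5, 6], [(3, 1, [3]), (5, 1, [3])]⟩,
    ⟨[(0, 3), (3, 4)], [(0, 0), (1, 0), (3, 0), (3, 1), (3, 4)], [(0, 0), (0, 4)], [7],
      [(0, 0, [4]), (4, 0, [4]), (8, 4, [0])]⟩,
    ⟨[(3, 5)], [(0, 0), (1, 0), (1, 3), (3, 0), (5, 0), (5, 3), (5, 4)], [(0, 3), (0, 4),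
      (3, 4)], [], [(0, 0, [4]), (2, 3, [1]), (8, 4, [0])]⟩]
  Ta := [((0, 2), 0, 3), ((3, 1), 1, 2), ((3, 7), 1, 6), ((4, 5), 0, 1), ((4, 9), 0, 7), ((5, 4),
    1, 0), ((5, 6), 1, 5)]
  Tb := [((1, 2, 3), 2, 3, 1), ((2, 0, 1), 3, 0, 2), ((2, 0, 8), 3, 0, 4), ((2, 1, 8), 3, 2, 4),
    ((3, 1, 7), 1, 2, 6), ((4, 5, 9), 0, 1, 7), ((5, 4, 6), 1, 0, 5), ((6, 5, 7), 5, 1, 6),
    ((7, 3, 6), 6, 1, 5), ((8, 2, 9), 4, 3, 7), ((9, 4, 8), 7, 0, 4)]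
  Tc := []
  Td := [((0, 4), (0, 2), 3), ((0, 4), (4, 5), 1), ((0, 4), (4, 9), 7), ((1, 3), (3, 1), 2), ((1,
    3), (3, 7), 6), ((1, 3), (5, 4), 0), ((1, 3), (5, 6), 5), ((3, 1), (2, 0), 0), ((3, 1),
    (2, 1), 2), ((3, 1), (2, 8), 4), ((4, 0), (8, 2), 3), ((4, 0), (8, 9), 7)]
  G := [[0, 0, 0xe24e2eea9eeceece4de824, 0xa448a2e82a8a2edc1426642e642ed688c1c2,
    0xe24e2e29eeceeceecde124], [0, 0, 0xeea44e4445eaeeeaee9cc2448824a, 0,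
    0xee6ee65e2eee8e8dc12c48812c], [0, 0, 0x1dbe54553a93a9948e824,
    0x812e144426114189c4e264e84aea2e84cd8, 0x744539e71ad1bedc128], [0,
    0xe24eec46e2eeaaeece4a6c18, 0x593e71be593a8c5488c24, 0, 0x73653658593e58e8d4928]]

noncomputable def n2868 : Ent := ⟨e2868, noF, [], [], []⟩

def c2868 : PLift (Cov.check n2868.C.D v2868 = true) := ⟨by decide +kernel⟩

def b2868 : PLift (entF (fidx ts) 400 2868 n2868 = true) := ⟨by decide +kernel⟩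

theorem g2868 : GoodF (fidx ts) 400 2868 := GoodF.ofV v2868 n2868 c2868.down b2868.down

/-- 4646864:2278 -/
noncomputable def e2869 : SCfg where
  D := {
    a := 7
    L := 11
    kp := 8
    inn := [(0, 1), (0, 3), (0, 4), (1, 0), (1, 2), (1, 4), (2, 1), (2, 4), (3, 0), (3, 4), (3, 5), (4,
      0), (4, 1), (4, 2), (4, 3), (5, 3), (5, 6), (6, 5)]
    mix := [(0, 0), (1, 0), (1, 1), (1, 2), (2, 1), (2, 3), (3, 0), (3, 4), (3, 5), (4, 3), (4, 5), (4,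
      6), (4, 7), (5, 0), (5, 4), (5, 8), (5, 9), (6, 0), (6, 8), (6, 10)]
    cl := [0, 2, 4, 1, 0, 1, 5, 6, 3, 7, 8]
    chq := [(0, 3), (1, 4), (3, 0), (4, 1)]
    rng := [(0, 2), (0, 10), (1, 2), (1, 3), (2, 0), (2, 1), (3, 1), (3, 7), (4, 5), (4, 9), (5, 4),
      (5, 6), (6, 5), (6, 7), (7, 3), (7, 6), (8, 9), (8, 10), (9, 4), (9, 8), (10, 0), (10, 8)]
    lev := [] }
  links := [[1, 7, 3, 4], [7, 0, 4, 2, 8, 9], [8, 1, 4, 10], [4, 0, 7, 5, 11, 12], [10, 2, 1, 0, 3, 12,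
    13, 14], [11, 3, 7, 6, 15, 16], [15, 5, 7, 17]]
  P := {
    a := 7
    N := 18
    nb := [154, 917, 1298, 6321, 29711, 100552, 164000, 131691, 1542, 386, 16660, 69672, 10264, 20496,
      9232, 196704, 34848, 32960]
    tri := [(0, 1, 4), (0, 1, 7), (0, 3, 4), (0, 3, 7), (1, 2, 4), (1, 2, 8), (1, 7, 9), (1, 8, 9), (2,
      4, 10), (2, 8, 10), (3, 4, 12), (3, 5, 7), (3, 5, 11), (3, 11, 12), (4, 10, 14), (4, 12,
      13), (4, 13, 14), (5, 6, 7), (5, 6, 15), (5, 11, 16), (5, 15, 16), (6, 7, 17), (6, 15, 17)]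
    fin := [0, 1, 1, 0, 1, 0, 0, 0, 8, 9, 1, 0, 1, 13, 14, 15, 16, 17]
    chd := [(0, 15), (9, 1)]
    steps := [(0, 3), (0, 5), (0, 6), (0, 7), (0, 11), (1, 2), (1, 4), (1, 12), (1, 10)] }
  rep := [0, 1, 8, 15, 9, 13, 14, 16, 17]

noncomputable def v2869 : Cov.CovD where
  P := 3
  N := 6
  pl := [1, 6, 7, 9, 10]
  lev := [⟨[], [], [], [], [(0, 0, [3])]⟩,
    ⟨[], [(0, 0), (0, 4)], [(0, 4)], [2], [(0, 0, [3]), (2, 4, [1])]⟩,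
    ⟨[(0, 1)], [(1, 0), (1, 1), (1, 4)], [], [2], [(3, 1, [4])]⟩,
    ⟨[(0, 1)], [(0, 0), (0, 1), (1, 0)], [(0, 0), (0, 1)], [], [(0, 0, [3]), (4, 0, [3]),
      (5, 1, [4])]⟩,
    ⟨[(0, 1), (0, 2), (0, 3), (1, 2), (1, 3), (2, 3)], [(0, 0), (0, 1), (1, 0), (1, 1), (1,
      4), (2, 1), (3, 0), (3, 1)], [(1, 1)], [5, 6], [(3, 1, [4]), (5, 1, [4])]⟩,
    ⟨[(0, 3), (3, 4)], [(0, 0), (1, 0), (3, 0), (3, 1), (3, 3)], [(0, 0), (0, 3)], [7],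
      [(0, 0, [3]), (4, 0, [3]), (8, 3, [0])]⟩,
    ⟨[(3, 5)], [(0, 0), (1, 0), (3, 0), (5, 0), (5, 3)], [(0, 3)], [8], [(0, 0, [3]), (8,
      3, [0])]⟩]
  Ta := [((0, 2), 0, 4), ((0, 10), 0, 8), ((3, 1), 1, 2), ((3, 7), 1, 6), ((4, 5), 0, 1), ((4,
    9), 0, 7), ((5, 4), 1, 0), ((5, 6), 1, 5)]
  Tb := [((0, 2, 10), 0, 4, 8), ((1, 2, 3), 2, 4, 1), ((2, 0, 1), 4, 0, 2), ((3, 1, 7), 1, 2, 6),
    ((4, 5, 9), 0, 1, 7), ((5, 4, 6), 1, 0, 5), ((6, 5, 7), 5, 1, 6), ((7, 3, 6), 6, 1, 5),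
    ((8, 9, 10), 3, 7, 8), ((9, 4, 8), 7, 0, 3), ((10, 0, 8), 8, 0, 3)]
  Tc := []
  Td := [((0, 3), (0, 2), 4), ((0, 3), (0, 10), 8), ((0, 3), (4, 5), 1), ((0, 3), (4, 9), 7),
    ((1, 4), (3, 1), 2), ((1, 4), (3, 7), 6), ((1, 4), (5, 4), 0), ((1, 4), (5, 6), 5), ((3,
    0), (8, 9), 7), ((3, 0), (8, 10), 8), ((4, 1), (2, 0), 0), ((4, 1), (2, 1), 2)]
  G := [[0, 0, 0xe24eeaeea9e4eece4de824, 0xe24eece4561e2445e2eaee9eeceecce1ceeaeea9e48648c,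
    0xe2eeae2deece4eecd6128], [0, 0, 0xe44eeaeaee5c82e4449eea8c42c, 0,
    0xeeae85482ee6e4ee6de88c12c], [0, 0, 0xe24395e935e91dc4e428,
    0x593e144935e148ee64eea8e4e8ce4d8, 0x395e35ee595a8348e824], [0,
    0x111e111e6111e8c1116111e111ee188a1c2, 0x536498eb1e5ce93e84c28, 0,
    0xd164935ee8e1bedc128]]

noncomputable def n2869 : Ent := ⟨e2869, noF, [], [], [(17, 9, [6903326391201334775872066023091343012537746186634086559781921989279745, 0])]⟩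

def c2869 : PLift (Cov.check n2869.C.D v2869 = true) := ⟨by decide +kernel⟩

def b2869 : PLift (entF (fidx ts) 400 2869 n2869 = true) := ⟨by decide +kernel⟩

theorem g2869 : GoodF (fidx ts) 400 2869 := GoodF.ofV v2869 n2869 c2869.down b2869.down

/-- 4646864:2279/1 -/
noncomputable def e2870 : SCfg where
  D := {
    a := 7
    L := 10
    kp := 7
    inn := [(0, 1), (0, 3), (0, 4), (1, 0), (1, 2), (1, 4), (2, 1), (2, 4), (3, 0), (3, 4), (3, 5), (4,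
      0), (4, 1), (4, 2), (4, 3), (5, 3), (5, 6), (6, 5)]
    mix := [(0, 0), (1, 0), (1, 1), (1, 2), (2, 1), (2, 3), (3, 0), (3, 4), (3, 5), (4, 3), (4, 5), (4,
      6), (4, 7), (5, 0), (5, 2), (5, 4), (5, 8), (6, 4), (6, 8), (6, 9)]
    cl := [0, 2, 1, 3, 0, 3, 5, 6, 4, 7]
    chq := [(0, 4), (1, 3), (3, 1), (4, 0)]
    rng := [(0, 2), (1, 2), (1, 3), (2, 0), (2, 1), (2, 8), (3, 1), (3, 7), (4, 5), (4, 9), (5, 4), (5,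
      6), (6, 5), (6, 7), (7, 3), (7, 6), (8, 2), (8, 9), (9, 4), (9, 8)]
    lev := [] }
  links := [[1, 7, 3, 4], [7, 0, 4, 2, 8, 9], [8, 1, 4, 10], [4, 0, 7, 5, 11, 12], [10, 2, 1, 0, 3, 12,
    13, 14], [11, 3, 7, 9, 15, 6], [11, 5, 15, 16]]
  P := {
    a := 7
    N := 17
    nb := [154, 917, 1298, 6321, 29711, 35528, 100384, 555, 1542, 33186, 16660, 69736, 10264, 20496,
      9232, 66144, 34880]
    tri := [(0, 1, 4), (0, 1, 7), (0, 3, 4), (0, 3, 7), (1, 2, 4), (1, 2, 8), (1, 7, 9), (1, 8, 9), (2,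
      4, 10), (2, 8, 10), (3, 4, 12), (3, 5, 7), (3, 5, 11), (3, 11, 12), (4, 10, 14), (4, 12,
      13), (4, 13, 14), (5, 6, 11), (5, 6, 15), (5, 7, 9), (5, 9, 15), (6, 11, 16), (6, 15, 16)]
    fin := [0, 1, 1, 0, 4, 0, 0, 0, 8, 1, 4, 0, 4, 13, 14, 15, 16]
    chd := [(0, 15), (1, 4)]
    steps := [(0, 3), (0, 5), (0, 6), (0, 7), (0, 11), (1, 2), (1, 9), (4, 12), (4, 10)] }
  rep := [0, 1, 8, 4, 15, 13, 14, 16]

noncomputable def v2870 : Cov.CovD where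
  P := 3
  N := 5
  pl := [1, 6, 7, 9]
  lev := [⟨[], [], [], [], [(0, 0, [4])]⟩,
    ⟨[], [(0, 0), (0, 1)], [(0, 1)], [2], [(0, 0, [4]), (2, 1, [3])]⟩,
    ⟨[(0, 1)], [(1, 0), (1, 1), (1, 3)], [], [2], [(3, 3, [1])]⟩,
    ⟨[(0, 1)], [(0, 0), (0, 3), (1, 0)], [(0, 0), (0, 3)], [], [(0, 0, [4]), (4, 0, [4]),
      (5, 3, [1])]⟩,
    ⟨[(0, 1), (0, 2), (0, 3), (1, 2), (1, 3), (2, 3)], [(0, 0), (0, 3), (1, 0), (1, 1), (1,
      3), (2, 3), (3, 0), (3, 3)], [(3, 3)], [5, 6], [(3, 3, [1]), (5, 3, [1])]⟩,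
    ⟨[(0, 3), (3, 4)], [(0, 0), (1, 0), (1, 1), (3, 0), (3, 1), (3, 3), (3, 4)], [(0, 0),
      (0, 1), (0, 4), (1, 4)], [], [(0, 0, [4]), (2, 1, [3]), (4, 0, [4]), (8, 4, [0])]⟩,
    ⟨[(3, 5)], [(3, 0), (5, 0), (5, 1), (5, 4)], [(0, 4)], [7], [(4, 0, [4]), (8, 4, [0])]⟩]
  Ta := [((0, 2), 0, 1), ((3, 1), 3, 2), ((3, 7), 3, 6), ((4, 5), 0, 3), ((4, 9), 0, 7), ((5, 4),
    3, 0), ((5, 6), 3, 5)]
  Tb := [((1, 2, 3), 2, 1, 3), ((2, 0, 1), 1, 0, 2), ((2, 0, 8), 1, 0, 4), ((2, 1, 8), 1, 2, 4),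
    ((3, 1, 7), 3, 2, 6), ((4, 5, 9), 0, 3, 7), ((5, 4, 6), 3, 0, 5), ((6, 5, 7), 5, 3, 6),
    ((7, 3, 6), 6, 3, 5), ((8, 2, 9), 4, 1, 7), ((9, 4, 8), 7, 0, 4)]
  Tc := []
  Td := [((0, 4), (0, 2), 1), ((0, 4), (4, 5), 3), ((0, 4), (4, 9), 7), ((1, 3), (2, 0), 0), ((1,
    3), (2, 1), 2), ((1, 3), (2, 8), 4), ((3, 1), (3, 1), 2), ((3, 1), (3, 7), 6), ((3, 1),
    (5, 4), 0), ((3, 1), (5, 6), 5), ((4, 0), (8, 2), 1), ((4, 0), (8, 9), 7)]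
  G := [[0, 0x11c11c11c11cf2184, 0x642a1c216ca1c16cde248, 0x16ca1c16ca1cf2184,
    0x16ca1ca1c721816c8228c], [0, 0x11a11c11c116f2148, 0x16ca1c53c72a1c82a48,
    0x16ca6ca1ca1cf2148, 0xd28a1ca1c16c76184], [0, 0, 0xa8a86644628642a6ca6c9a24c,
    0xa6ca6ca6ca6cf2184, 0x642a6ca6ca8a6cfa184], [0, 0, 0xa6ca6c62a6ca6c92a48,
    0xa6ca6ca6c721a6c821c8, 0xa6ca6ca6c721a6c82298]]

noncomputable def n2870 : Ent := ⟨e2870, noF, [], [], []⟩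

def c2870 : PLift (Cov.check n2870.C.D v2870 = true) := ⟨by decide +kernel⟩

def b2870 : PLift (entF (fidx ts) 400 2870 n2870 = true) := ⟨by decide +kernel⟩

theorem g2870 : GoodF (fidx ts) 400 2870 := GoodF.ofV v2870 n2870 c2870.down b2870.down

/-- 4646864:2279/2 -/
noncomputable def e2871 : SCfg where
  D := {
    a := 7
    L := 10
    kp := 7
    inn := [(0, 1), (0, 3), (0, 4), (1, 0), (1, 2), (1, 4), (2, 1), (2, 4), (3, 0), (3, 4), (3, 5), (4,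
      0), (4, 1), (4, 2), (4, 3), (5, 3), (5, 6), (6, 5)]
    mix := [(0, 0), (1, 0), (1, 1), (1, 2), (2, 1), (2, 3), (3, 0), (3, 4), (3, 5), (4, 3), (4, 5), (4,
      6), (4, 7), (5, 0), (5, 4), (5, 8), (5, 9), (6, 1), (6, 4), (6, 9)]
    cl := [0, 2, 4, 1, 0, 1, 5, 6, 7, 3]
    chq := [(0, 3), (1, 4), (3, 0), (4, 1)]
    rng := [(0, 2), (0, 8), (1, 2), (1, 3), (1, 4), (1, 9), (2, 0), (2, 1), (3, 1), (3, 7), (4, 1), (4,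
      5), (5, 4), (5, 6), (6, 5), (6, 7), (7, 3), (7, 6), (8, 0), (8, 9), (9, 1), (9, 8)]
    lev := [] }
  links := [[1, 7, 3, 4], [7, 0, 4, 2, 8, 9], [8, 1, 4, 10], [4, 0, 7, 5, 11, 12], [10, 2, 1, 0, 3, 12,
    13, 14], [11, 3, 7, 15, 16, 6], [11, 5, 16, 8]]
  P := {
    a := 7
    N := 17
    nb := [154, 917, 1298, 6321, 29711, 100552, 67872, 33323, 69190, 386, 16660, 4456, 10264, 20496,
      9232, 65696, 33120]
    tri := [(0, 1, 4), (0, 1, 7), (0, 3, 4), (0, 3, 7), (1, 2, 4), (1, 2, 8), (1, 7, 9), (1, 8, 9), (2,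
      4, 10), (2, 8, 10), (3, 4, 12), (3, 5, 7), (3, 5, 11), (3, 11, 12), (4, 10, 14), (4, 12,
      13), (4, 13, 14), (5, 6, 11), (5, 6, 16), (5, 7, 15), (5, 15, 16), (6, 8, 11), (6, 8, 16)]
    fin := [0, 1, 2, 0, 1, 0, 0, 0, 2, 9, 1, 0, 1, 13, 14, 15, 16]
    chd := [(0, 16), (9, 1)]
    steps := [(0, 3), (0, 5), (0, 6), (0, 7), (0, 11), (1, 4), (1, 12), (2, 8), (1, 10)] }
  rep := [0, 1, 2, 16, 9, 13, 14, 15]

noncomputable def v2871 : Cov.CovD where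
  P := 3
  N := 5
  pl := [1, 6, 7, 8]
  lev := [⟨[], [], [], [], [(0, 0, [3])]⟩,
    ⟨[], [(0, 0), (0, 4)], [(0, 4)], [2], [(0, 0, [3]), (2, 4, [1])]⟩,
    ⟨[(0, 1)], [(1, 0), (1, 1), (1, 4)], [], [2], [(3, 1, [4])]⟩,
    ⟨[(0, 1)], [(0, 0), (0, 1), (1, 0)], [(0, 0), (0, 1)], [], [(0, 0, [3]), (4, 0, [3]),
      (5, 1, [4])]⟩,
    ⟨[(0, 1), (0, 2), (0, 3), (1, 2), (1, 3), (2, 3)], [(0, 0), (0, 1), (1, 0), (1, 1), (1,
      4), (2, 1), (3, 0), (3, 1)], [(1, 1)], [5, 6], [(3, 1, [4]), (5, 1, [4])]⟩,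
    ⟨[(0, 3), (3, 4)], [(0, 0), (1, 0), (3, 0), (3, 1), (3, 3)], [(0, 0), (0, 3)], [7],
      [(0, 0, [3]), (4, 0, [3]), (9, 3, [0])]⟩,
    ⟨[(3, 5)], [(3, 0), (5, 0), (5, 3)], [(0, 3)], [2], [(4, 0, [3]), (9, 3, [0])]⟩]
  Ta := [((0, 2), 0, 4), ((0, 8), 0, 7), ((3, 1), 1, 2), ((3, 7), 1, 6), ((4, 1), 0, 2), ((4, 5),
    0, 1), ((5, 4), 1, 0), ((5, 6), 1, 5)]
  Tb := [((0, 2, 8), 0, 4, 7), ((1, 2, 3), 2, 4, 1), ((1, 2, 4), 2, 4, 0), ((1, 2, 9), 2, 4, 3),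
    ((1, 3, 4), 2, 1, 0), ((1, 3, 9), 2, 1, 3), ((1, 4, 9), 2, 0, 3), ((2, 0, 1), 4, 0, 2),
    ((3, 1, 7), 1, 2, 6), ((4, 1, 5), 0, 2, 1), ((5, 4, 6), 1, 0, 5), ((6, 5, 7), 5, 1, 6),
    ((7, 3, 6), 6, 1, 5), ((8, 0, 9), 7, 0, 3), ((9, 1, 8), 3, 2, 7)]
  Tc := []
  Td := [((0, 3), (0, 2), 4), ((0, 3), (0, 8), 7), ((0, 3), (4, 1), 2), ((0, 3), (4, 5), 1), ((1,
    4), (3, 1), 2), ((1, 4), (3, 7), 6), ((1, 4), (5, 4), 0), ((1, 4), (5, 6), 5), ((3, 0),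
    (9, 1), 2), ((3, 0), (9, 8), 7), ((4, 1), (2, 0), 0), ((4, 1), (2, 1), 2)]
  G := [[0, 0, 0, 0x156496512884c8818de1481a81a94145e445448a58c, 0xa26192e126d88889a124], [0, 0,
    0, 0, 0x126192e192ed888c124], [0, 0, 0x2242222984c84c84cde824,
    0x8ca1441648ca144164c248ca84484cce4d8, 0x22482a229a48ac8acde124], [0,
    0xc2284ce84ce84ce6418, 0x4444582a82a5c8a2e84c28, 0, 0xa448a2e1c128a2e82ac4129]]

noncomputable def n2871 : Ent := ⟨e2871, noF, [], [], []⟩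

def c2871 : PLift (Cov.check n2871.C.D v2871 = true) := ⟨by decide +kernel⟩

def b2871 : PLift (entF (fidx ts) 400 2871 n2871 = true) := ⟨by decide +kernel⟩

theorem g2871 : GoodF (fidx ts) 400 2871 := GoodF.ofV v2871 n2871 c2871.down b2871.down

/-- 4646864:2279 -/
noncomputable def e2872 : SCfg where
  D := {
    a := 7
    L := 11
    kp := 8
    inn := [(0, 1), (0, 3), (0, 4), (1, 0), (1, 2), (1, 4), (2, 1), (2, 4), (3, 0), (3, 4), (3, 5), (4,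
      0), (4, 1), (4, 2), (4, 3), (5, 3), (5, 6), (6, 5)]
    mix := [(0, 0), (1, 0), (1, 1), (1, 2), (2, 1), (2, 3), (3, 0), (3, 4), (3, 5), (4, 3), (4, 5), (4,
      6), (4, 7), (5, 0), (5, 4), (5, 8), (5, 9), (6, 4), (6, 9), (6, 10)]
    cl := [0, 2, 4, 1, 0, 1, 5, 6, 7, 3, 8]
    chq := [(0, 3), (1, 4), (3, 0), (4, 1)]
    rng := [(0, 2), (0, 8), (1, 2), (1, 3), (2, 0), (2, 1), (3, 1), (3, 7), (4, 5), (4, 10), (5, 4),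
      (5, 6), (6, 5), (6, 7), (7, 3), (7, 6), (8, 0), (8, 9), (9, 8), (9, 10), (10, 4), (10, 9)]
    lev := [] }
  links := [[1, 7, 3, 4], [7, 0, 4, 2, 8, 9], [8, 1, 4, 10], [4, 0, 7, 5, 11, 12], [10, 2, 1, 0, 3, 12,
    13, 14], [11, 3, 7, 15, 16, 6], [11, 5, 16, 17]]
  P := {
    a := 7
    N := 18
    nb := [154, 917, 1298, 6321, 29711, 100552, 198688, 33323, 1542, 386, 16660, 135272, 10264, 20496,
      9232, 65696, 163936, 67648]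
    tri := [(0, 1, 4), (0, 1, 7), (0, 3, 4), (0, 3, 7), (1, 2, 4), (1, 2, 8), (1, 7, 9), (1, 8, 9), (2,
      4, 10), (2, 8, 10), (3, 4, 12), (3, 5, 7), (3, 5, 11), (3, 11, 12), (4, 10, 14), (4, 12,
      13), (4, 13, 14), (5, 6, 11), (5, 6, 16), (5, 7, 15), (5, 15, 16), (6, 11, 17), (6, 16, 17)]
    fin := [0, 1, 1, 0, 1, 0, 0, 0, 8, 9, 1, 0, 1, 13, 14, 15, 16, 17]
    chd := [(0, 16), (9, 1)]
    steps := [(0, 3), (0, 5), (0, 6), (0, 7), (0, 11), (1, 2), (1, 4), (1, 12), (1, 10)] }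
  rep := [0, 1, 8, 16, 9, 13, 14, 15, 17]

noncomputable def v2872 : Cov.CovD where
  P := 3
  N := 6
  pl := [1, 6, 7, 8, 10]
  lev := [⟨[], [], [], [], [(0, 0, [3])]⟩,
    ⟨[], [(0, 0), (0, 4)], [(0, 4)], [2], [(0, 0, [3]), (2, 4, [1])]⟩,
    ⟨[(0, 1)], [(1, 0), (1, 1), (1, 4)], [], [2], [(3, 1, [4])]⟩,
    ⟨[(0, 1)], [(0, 0), (0, 1), (1, 0)], [(0, 0), (0, 1)], [], [(0, 0, [3]), (4, 0, [3]),
      (5, 1, [4])]⟩,
    ⟨[(0, 1), (0, 2), (0, 3), (1, 2), (1, 3), (2, 3)], [(0, 0), (0, 1), (1, 0), (1, 1), (1,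
      4), (2, 1), (3, 0), (3, 1)], [(1, 1)], [5, 6], [(3, 1, [4]), (5, 1, [4])]⟩,
    ⟨[(0, 3), (3, 4)], [(0, 0), (1, 0), (3, 0), (3, 1), (3, 3)], [(0, 0), (0, 3)], [7],
      [(0, 0, [3]), (4, 0, [3]), (9, 3, [0])]⟩,
    ⟨[(3, 5)], [(3, 0), (5, 0), (5, 3)], [(0, 3)], [8], [(4, 0, [3]), (9, 3, [0])]⟩]
  Ta := [((0, 2), 0, 4), ((0, 8), 0, 7), ((3, 1), 1, 2), ((3, 7), 1, 6), ((4, 5), 0, 1), ((4,
    10), 0, 8), ((5, 4), 1, 0), ((5, 6), 1, 5)]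
  Tb := [((0, 2, 8), 0, 4, 7), ((1, 2, 3), 2, 4, 1), ((2, 0, 1), 4, 0, 2), ((3, 1, 7), 1, 2, 6),
    ((4, 5, 10), 0, 1, 8), ((5, 4, 6), 1, 0, 5), ((6, 5, 7), 5, 1, 6), ((7, 3, 6), 6, 1, 5),
    ((8, 0, 9), 7, 0, 3), ((9, 8, 10), 3, 7, 8), ((10, 4, 9), 8, 0, 3)]
  Tc := []
  Td := [((0, 3), (0, 2), 4), ((0, 3), (0, 8), 7), ((0, 3), (4, 5), 1), ((0, 3), (4, 10), 8),
    ((1, 4), (3, 1), 2), ((1, 4), (3, 7), 6), ((1, 4), (5, 4), 0), ((1, 4), (5, 6), 5), ((3,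
    0), (9, 8), 7), ((3, 0), (9, 10), 8), ((4, 1), (2, 0), 0), ((4, 1), (2, 1), 2)]
  G := [[0, 0, 0x593e593e5e3a8548e824, 0x544935e39ab1eedc1395e593e571be8c8c2,
    0x541bbe536d93a989c124], [0, 0, 0x38445964b1be395e9cc28, 0, 0x596359e395ed388c124], [0,
    0, 0xe2445eeaeaee9e4eecce428, 0xe41eea1c1e21eec1a8e24eea8e4eecce8d4,
    0xe4ee65e2eeaceece89e128], [0, 0x224e2eeaaeeceecee4ee814, 0xe844ee6e45e8eea9cc2ee688429,
    0, 0xee618e8eeae8d492ee6e4c8129]]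

noncomputable def n2872 : Ent := ⟨e2872, noF, [], [], [(15, 9, [7334790850167413569773436137909850376687013109418699723294111052292097, 0]), (17, 8, [6903326391201334775872065844734382085129376193087066322065204563898369, 0])]⟩

def c2872 : PLift (Cov.check n2872.C.D v2872 = true) := ⟨by decide +kernel⟩

def b2872 : PLift (entF (fidx ts) 400 2872 n2872 = true) := ⟨by decide +kernel⟩

theorem g2872 : GoodF (fidx ts) 400 2872 := GoodF.ofV v2872 n2872 c2872.down b2872.down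

/-- 4646684:2280/1 -/
noncomputable def e2873 : SCfg where
  D := {
    a := 7
    L := 10
    kp := 7
    inn := [(0, 1), (0, 3), (0, 5), (1, 0), (1, 2), (1, 5), (2, 1), (3, 0), (3, 4), (3, 5), (4, 3), (4,
      5), (4, 6), (5, 0), (5, 1), (5, 3), (5, 4), (6, 4)]
    mix := [(0, 0), (1, 0), (1, 1), (1, 2), (2, 0), (2, 1), (2, 3), (3, 0), (3, 4), (3, 5), (4, 4), (4,
      6), (4, 7), (5, 2), (5, 6), (5, 8), (5, 9), (6, 3), (6, 4), (6, 7)]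
    cl := [0, 1, 0, 2, 3, 5, 3, 4, 6, 7]
    chq := [(5, 6), (5, 7), (6, 5), (7, 5)]
    rng := [(0, 3), (0, 5), (1, 2), (1, 3), (2, 1), (2, 8), (3, 0), (3, 1), (3, 4), (3, 7), (4, 3), (4,
      5), (5, 0), (5, 4), (6, 7), (6, 9), (7, 3), (7, 6), (8, 2), (8, 9), (9, 6), (9, 8)]
    lev := [] }
  links := [[1, 5, 3, 7], [5, 0, 7, 2, 8, 9], [8, 1, 7, 10], [7, 0, 5, 4, 11, 12], [11, 3, 5, 13, 14, 6],
    [13, 4, 3, 0, 1, 9, 15, 16], [11, 4, 14, 10]]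
  P := {
    a := 7
    N := 17
    nb := [170, 933, 1410, 6321, 26728, 107035, 19472, 5135, 1542, 33058, 18884, 5208, 2184, 81968,
      9296, 66080, 40992]
    tri := [(0, 1, 5), (0, 1, 7), (0, 3, 5), (0, 3, 7), (1, 2, 7), (1, 2, 8), (1, 5, 9), (1, 8, 9), (2,
      7, 10), (2, 8, 10), (3, 4, 5), (3, 4, 11), (3, 7, 12), (3, 11, 12), (4, 5, 13), (4, 6, 11),
      (4, 6, 14), (4, 13, 14), (5, 9, 15), (5, 13, 16), (5, 15, 16), (6, 10, 11), (6, 10, 14)]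
    fin := [0, 0, 0, 3, 4, 3, 6, 0, 8, 0, 6, 4, 3, 4, 14, 15, 16]
    chd := [(3, 15), (3, 16)]
    steps := [(0, 1), (0, 2), (0, 7), (0, 9), (3, 5), (3, 12), (4, 13), (4, 11), (6, 10)] }
  rep := [0, 8, 6, 4, 14, 3, 15, 16]

noncomputable def v2873 : Cov.CovD where
  P := 3
  N := 5
  pl := [1, 3, 7]
  lev := [⟨[], [], [], [], [(0, 0, [])]⟩,
    ⟨[], [(0, 0)], [(0, 0)], [1], [(0, 0, []), (2, 0, [])]⟩,
    ⟨[(0, 1)], [(0, 0), (1, 0)], [], [1, 2], [(0, 0, [])]⟩,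
    ⟨[(0, 1)], [(0, 0), (0, 3), (0, 5), (1, 0), (2, 0)], [(0, 3), (0, 5), (3, 5)], [], [(0,
      0, []), (4, 3, []), (5, 5, [6, 7])]⟩,
    ⟨[(0, 3)], [(3, 0), (3, 3), (3, 5)], [(3, 3)], [4], [(4, 3, []), (6, 3, [])]⟩,
    ⟨[(0, 1), (0, 3), (0, 4), (1, 2), (1, 3), (1, 4), (3, 4)], [(0, 0), (0, 3), (0, 6), (0,
      7), (1, 0), (1, 3), (1, 6), (1, 7), (3, 0), (3, 3), (3, 5), (3, 6), (3, 7), (4, 0), (4,
      3), (4, 6), (4, 7)], [(0, 3), (0, 6), (0, 7), (3, 6), (3, 7), (6, 7)], [], [(2, 0, []),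
      (6, 3, []), (8, 6, [5]), (9, 7, [5])]⟩,
    ⟨[(3, 4), (4, 5)], [(3, 3), (4, 3)], [], [2, 4], [(4, 3, [])]⟩]
  Ta := [((0, 3), 0, 2), ((0, 5), 0, 5), ((2, 1), 0, 1), ((2, 8), 0, 6), ((4, 3), 3, 2), ((4, 5),
    3, 5), ((6, 7), 3, 4), ((6, 9), 3, 7)]
  Tb := [((0, 3, 5), 0, 2, 5), ((1, 2, 3), 1, 0, 2), ((2, 1, 8), 0, 1, 6), ((3, 0, 1), 2, 0, 1),
    ((3, 0, 4), 2, 0, 3), ((3, 0, 7), 2, 0, 4), ((3, 1, 4), 2, 1, 3), ((3, 1, 7), 2, 1, 4),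
    ((3, 4, 7), 2, 3, 4), ((4, 3, 5), 3, 2, 5), ((5, 0, 4), 5, 0, 3), ((6, 7, 9), 3, 4, 7),
    ((7, 3, 6), 4, 2, 3), ((8, 2, 9), 6, 0, 7), ((9, 6, 8), 7, 3, 6)]
  Tc := [(5, 6, 7)]
  Td := [((5, 6), (5, 0), 0), ((5, 6), (5, 4), 3), ((5, 7), (5, 0), 0), ((5, 7), (5, 4), 3), ((6,
    5), (8, 2), 0), ((6, 5), (8, 9), 7), ((7, 5), (9, 6), 3), ((7, 5), (9, 8), 6)]
  G := [[0, 0, 0x821a6c1a4841e26588e6a144c6, 0x821235532951d2e84d85284d8248ca,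
    0x11618838c842284225e842414da8821b22911a72818968ca], [0, 0, 0xa21c41648c81284c,
    0x425468299912bc842, 0x3411215126f88288b932bc48c2], [0,
    0x82282446ac88488c11674811a94884c11c7e8a1, 0, 0xd9621482c4aa41cc428d821c4a,
    0x241238861424e9888282a2811af28c8818d6843], [0, 0x4212518a8c41448c11c72861, 0,
    0x54123828c48291a644c1, 0x2161163824848e8882818748c1]]

noncomputable def n2873 : Ent := ⟨e2873, noF, [], [], []⟩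

def c2873 : PLift (Cov.check n2873.C.D v2873 = true) := ⟨by decide +kernel⟩

def b2873 : PLift (entF (fidx ts) 400 2873 n2873 = true) := ⟨by decide +kernel⟩

theorem g2873 : GoodF (fidx ts) 400 2873 := GoodF.ofV v2873 n2873 c2873.down b2873.down

/-- 4646684:2280/3 -/
noncomputable def e2874 : SCfg where
  D := {
    a := 7
    L := 9
    kp := 6
    inn := [(0, 1), (0, 3), (0, 5), (1, 0), (1, 2), (1, 5), (2, 1), (3, 0), (3, 4), (3, 5), (4, 3), (4,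
      5), (4, 6), (5, 0), (5, 1), (5, 3), (5, 4), (6, 4)]
    mix := [(0, 0), (1, 0), (1, 1), (1, 2), (2, 0), (2, 1), (2, 3), (3, 0), (3, 3), (3, 4), (4, 4), (4,
      5), (4, 6), (5, 2), (5, 5), (5, 7), (5, 8), (6, 1), (6, 4), (6, 6)]
    cl := [0, 1, 0, 2, 3, 3, 4, 5, 6]
    chq := [(2, 5), (2, 6), (5, 2), (6, 2)]
    rng := [(0, 3), (1, 2), (1, 3), (1, 4), (1, 6), (2, 1), (2, 7), (3, 0), (3, 1), (3, 4), (4, 1), (4,
      3), (5, 6), (5, 8), (6, 1), (6, 5), (7, 2), (7, 8), (8, 5), (8, 7)]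
    lev := [] }
  links := [[1, 5, 3, 7], [5, 0, 7, 2, 8, 9], [8, 1, 7, 10], [7, 0, 5, 4, 11, 10], [11, 3, 5, 12, 13, 6],
    [12, 4, 3, 0, 1, 9, 14, 15], [11, 4, 13, 8]]
  P := {
    a := 7
    N := 16
    nb := [170, 933, 1410, 3249, 14440, 53787, 10512, 1039, 11846, 16674, 2444, 1368, 41008, 4432,
      33312, 20512]
    tri := [(0, 1, 5), (0, 1, 7), (0, 3, 5), (0, 3, 7), (1, 2, 7), (1, 2, 8), (1, 5, 9), (1, 8, 9), (2,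
      7, 10), (2, 8, 10), (3, 4, 5), (3, 4, 11), (3, 7, 10), (3, 10, 11), (4, 5, 12), (4, 6, 11),
      (4, 6, 13), (4, 12, 13), (5, 9, 14), (5, 12, 15), (5, 14, 15), (6, 8, 11), (6, 8, 13)]
    fin := [0, 0, 0, 3, 4, 3, 6, 0, 6, 0, 3, 4, 4, 13, 14, 15]
    chd := [(3, 14), (3, 15)]
    steps := [(0, 1), (0, 2), (0, 7), (0, 9), (3, 5), (3, 10), (4, 12), (4, 11), (6, 8)] }
  rep := [0, 6, 3, 4, 13, 14, 15]

noncomputable def v2874 : Cov.CovD where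
  P := 3
  N := 4
  pl := [1, 6]
  lev := [⟨[], [], [], [], [(0, 0, [])]⟩,
    ⟨[], [(0, 0)], [(0, 0)], [1], [(0, 0, []), (2, 0, [])]⟩,
    ⟨[(0, 1)], [(0, 0), (1, 0), (1, 2)], [(0, 2)], [1], [(0, 0, []), (3, 2, [5, 6])]⟩,
    ⟨[(0, 1)], [(0, 0), (0, 2), (0, 3), (1, 0), (2, 0), (2, 2)], [(0, 2), (0, 3), (2, 3)],
      [], [(0, 0, []), (3, 2, [5, 6]), (4, 3, [])]⟩,
    ⟨[(0, 3)], [(3, 0), (3, 2), (3, 3)], [(3, 3)], [4], [(4, 3, []), (5, 3, [])]⟩,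
    ⟨[(0, 1), (0, 3), (0, 4), (1, 2), (1, 3), (1, 4), (3, 4)], [(0, 0), (0, 3), (0, 5), (0,
      6), (1, 0), (1, 3), (1, 5), (1, 6), (3, 0), (3, 2), (3, 3), (3, 5), (3, 6), (4, 0), (4,
      3), (4, 5), (4, 6)], [(0, 3), (0, 5), (0, 6), (3, 5), (3, 6), (5, 6)], [], [(2, 0, []),
      (5, 3, []), (7, 5, [2]), (8, 6, [2])]⟩,
    ⟨[(3, 4), (4, 5)], [(3, 3), (4, 3)], [], [1, 4], [(4, 3, [])]⟩]
  Ta := [((0, 3), 0, 2), ((2, 1), 0, 1), ((2, 7), 0, 5), ((4, 1), 3, 1), ((4, 3), 3, 2), ((5, 6),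
    3, 4), ((5, 8), 3, 6)]
  Tb := [((1, 2, 3), 1, 0, 2), ((1, 2, 4), 1, 0, 3), ((1, 2, 6), 1, 0, 4), ((1, 3, 4), 1, 2, 3),
    ((1, 3, 6), 1, 2, 4), ((1, 4, 6), 1, 3, 4), ((2, 1, 7), 0, 1, 5), ((3, 0, 1), 2, 0, 1),
    ((3, 0, 4), 2, 0, 3), ((3, 1, 4), 2, 1, 3), ((4, 1, 3), 3, 1, 2), ((5, 6, 8), 3, 4, 6),
    ((6, 1, 5), 4, 1, 3), ((7, 2, 8), 5, 0, 6), ((8, 5, 7), 6, 3, 5)]
  Tc := [(2, 5, 6)]
  Td := [((2, 5), (3, 0), 0), ((2, 5), (3, 1), 1), ((2, 5), (3, 4), 3), ((2, 6), (3, 0), 0), ((2,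
    6), (3, 1), 1), ((2, 6), (3, 4), 3), ((5, 2), (7, 2), 0), ((5, 2), (7, 8), 6), ((6, 2),
    (8, 5), 3), ((6, 2), (8, 7), 5)]
  G := [[0, 0, 0x1191a91516c842, 0x922522c848, 0x443428844c414b141a848428c6], [0, 0,
    0x811191e4448, 0x5228484, 0x144414b8882], [0, 0xa21621c884, 0, 0x922522c848,
    0x44149844414ba881], [0, 0xa214488, 0, 0x9224848, 0x149414b2881]]

noncomputable def n2874 : Ent := ⟨e2874, noF, [], [], []⟩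

def c2874 : PLift (Cov.check n2874.C.D v2874 = true) := ⟨by decide +kernel⟩

def b2874 : PLift (entF (fidx ts) 400 2874 n2874 = true) := ⟨by decide +kernel⟩

theorem g2874 : GoodF (fidx ts) 400 2874 := GoodF.ofV v2874 n2874 c2874.down b2874.down

/-- 4646684:2280/2 -/
noncomputable def e2875 : SCfg where
  D := {
    a := 7
    L := 10
    kp := 7
    inn := [(0, 1), (0, 3), (0, 5), (1, 0), (1, 2), (1, 5), (2, 1), (3, 0), (3, 4), (3, 5), (4, 3), (4,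
      5), (4, 6), (5, 0), (5, 1), (5, 3), (5, 4), (6, 4)]
    mix := [(0, 0), (1, 0), (1, 1), (1, 2), (2, 0), (2, 1), (2, 3), (3, 0), (3, 3), (3, 4), (4, 4), (4,
      5), (4, 6), (5, 2), (5, 5), (5, 7), (5, 8), (6, 4), (6, 6), (6, 9)]
    cl := [0, 2, 0, 1, 3, 3, 4, 5, 6, 7]
    chq := [(1, 5), (1, 6), (5, 1), (6, 1)]
    rng := [(0, 3), (1, 2), (1, 3), (2, 1), (2, 7), (3, 0), (3, 1), (3, 4), (4, 3), (4, 9), (5, 6), (5,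
      8), (6, 5), (6, 9), (7, 2), (7, 8), (8, 5), (8, 7), (9, 4), (9, 6)]
    lev := [] }
  links := [[1, 5, 3, 7], [5, 0, 7, 2, 8, 9], [8, 1, 7, 10], [7, 0, 5, 4, 11, 10], [11, 3, 5, 12, 13, 6],
    [12, 4, 3, 0, 1, 9, 14, 15], [11, 4, 13, 16]]
  P := {
    a := 7
    N := 17
    nb := [170, 933, 1410, 3249, 14440, 53787, 75792, 1039, 1542, 16674, 2444, 66648, 41008, 69712,
      33312, 20512, 10304]
    tri := [(0, 1, 5), (0, 1, 7), (0, 3, 5), (0, 3, 7), (1, 2, 7), (1, 2, 8), (1, 5, 9), (1, 8, 9), (2,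
      7, 10), (2, 8, 10), (3, 4, 5), (3, 4, 11), (3, 7, 10), (3, 10, 11), (4, 5, 12), (4, 6, 11),
      (4, 6, 13), (4, 12, 13), (5, 9, 14), (5, 12, 15), (5, 14, 15), (6, 11, 16), (6, 13, 16)]
    fin := [0, 0, 0, 3, 4, 3, 4, 0, 8, 0, 3, 4, 4, 13, 14, 15, 16]
    chd := [(3, 14), (3, 15)]
    steps := [(0, 1), (0, 2), (0, 7), (0, 9), (3, 5), (3, 10), (4, 6), (4, 12), (4, 11)] }
  rep := [0, 3, 8, 4, 13, 14, 15, 16]

noncomputable def v2875 : Cov.CovD where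
  P := 3
  N := 5
  pl := [1, 6, 9]
  lev := [⟨[], [], [], [], [(0, 0, [])]⟩,
    ⟨[], [(0, 0)], [(0, 0)], [2], [(0, 0, []), (2, 0, [])]⟩,
    ⟨[(0, 1)], [(0, 0), (1, 0), (1, 1)], [(0, 1)], [2], [(0, 0, []), (3, 1, [5, 6])]⟩,
    ⟨[(0, 1)], [(0, 0), (0, 1), (0, 3), (1, 0), (2, 0), (2, 1)], [(0, 1), (0, 3), (1, 3)],
      [], [(0, 0, []), (3, 1, [5, 6]), (4, 3, [])]⟩,
    ⟨[(0, 3)], [(3, 0), (3, 1), (3, 3)], [(3, 3)], [4], [(4, 3, []), (5, 3, [])]⟩,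
    ⟨[(0, 1), (0, 3), (0, 4), (1, 2), (1, 3), (1, 4), (3, 4)], [(0, 0), (0, 3), (0, 5), (0,
      6), (1, 0), (1, 3), (1, 5), (1, 6), (3, 0), (3, 1), (3, 3), (3, 5), (3, 6), (4, 0), (4,
      3), (4, 5), (4, 6)], [(0, 3), (0, 5), (0, 6), (3, 5), (3, 6), (5, 6)], [], [(2, 0, []),
      (5, 3, []), (7, 5, [1]), (8, 6, [1])]⟩,
    ⟨[(3, 4), (4, 5)], [(3, 3), (4, 3)], [], [4, 7], [(4, 3, [])]⟩]
  Ta := [((0, 3), 0, 1), ((2, 1), 0, 2), ((2, 7), 0, 5), ((4, 3), 3, 1), ((4, 9), 3, 7), ((5, 6),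
    3, 4), ((5, 8), 3, 6)]
  Tb := [((1, 2, 3), 2, 0, 1), ((2, 1, 7), 0, 2, 5), ((3, 0, 1), 1, 0, 2), ((3, 0, 4), 1, 0, 3),
    ((3, 1, 4), 1, 2, 3), ((4, 3, 9), 3, 1, 7), ((5, 6, 8), 3, 4, 6), ((6, 5, 9), 4, 3, 7),
    ((7, 2, 8), 5, 0, 6), ((8, 5, 7), 6, 3, 5), ((9, 4, 6), 7, 3, 4)]
  Tc := [(1, 5, 6)]
  Td := [((1, 5), (3, 0), 0), ((1, 5), (3, 1), 2), ((1, 5), (3, 4), 3), ((1, 6), (3, 0), 0), ((1,
    6), (3, 1), 2), ((1, 6), (3, 4), 3), ((5, 1), (7, 2), 0), ((5, 1), (7, 8), 6), ((6, 1),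
    (8, 5), 3), ((6, 1), (8, 7), 5)]
  G := [[0, 0x512169121a915111ee484, 0, 0xa2427274482b2388c628848a,
    0x22ca3927e2529c882ac2666d2c826], [0, 0x9151c1e2448, 0, 0xa29232d4442, 0x526232d8884],
    [0, 0, 0x62325a2329a262cd484, 0x2282b2bc2224272fc481, 0x62325a2329a262cd884], [0, 0,
    0x526232d8884, 0x62325a28c842, 0x526232d8881]]

noncomputable def n2875 : Ent := ⟨e2875, noF, [], [], [(8, 16, [1580044410770988437309982408355971841652082177953823432505700884481, 0])]⟩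

def c2875 : PLift (Cov.check n2875.C.D v2875 = true) := ⟨by decide +kernel⟩

def b2875 : PLift (entF (fidx ts) 400 2875 n2875 = true) := ⟨by decide +kernel⟩

theorem g2875 : GoodF (fidx ts) 400 2875 := GoodF.ofV v2875 n2875 c2875.down b2875.down

/-- 4646684:2280/4 -/
noncomputable def e2876 : SCfg where
  D := {
    a := 7
    L := 10
    kp := 7
    inn := [(0, 1), (0, 3), (0, 5), (1, 0), (1, 2), (1, 5), (2, 1), (3, 0), (3, 4), (3, 5), (4, 3), (4,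
      5), (4, 6), (5, 0), (5, 1), (5, 3), (5, 4), (6, 4)]
    mix := [(0, 0), (1, 0), (1, 1), (1, 2), (2, 0), (2, 1), (2, 3), (3, 0), (3, 4), (3, 5), (4, 4), (4,
      6), (4, 7), (5, 2), (5, 6), (5, 8), (5, 9), (6, 1), (6, 4), (6, 7)]
    cl := [0, 1, 0, 7, 3, 2, 3, 4, 5, 6]
    chq := [(2, 5), (2, 6), (5, 2), (6, 2)]
    rng := [(0, 3), (0, 5), (1, 2), (1, 3), (1, 4), (1, 7), (2, 1), (2, 8), (3, 0), (3, 1), (4, 1), (4,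
      5), (5, 0), (5, 4), (6, 7), (6, 9), (7, 1), (7, 6), (8, 2), (8, 9), (9, 6), (9, 8)]
    lev := [] }
  links := [[1, 5, 3, 7], [5, 0, 7, 2, 8, 9], [8, 1, 7, 10], [7, 0, 5, 4, 11, 12], [11, 3, 5, 13, 14, 6],
    [13, 4, 3, 0, 1, 9, 15, 16], [11, 4, 14, 8]]
  P := {
    a := 7
    N := 17
    nb := [170, 933, 1410, 6321, 26728, 107035, 18704, 5135, 20038, 33058, 388, 4440, 2184, 81968,
      8528, 66080, 40992]
    tri := [(0, 1, 5), (0, 1, 7), (0, 3, 5), (0, 3, 7), (1, 2, 7), (1, 2, 8), (1, 5, 9), (1, 8, 9), (2,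
      7, 10), (2, 8, 10), (3, 4, 5), (3, 4, 11), (3, 7, 12), (3, 11, 12), (4, 5, 13), (4, 6, 11),
      (4, 6, 14), (4, 13, 14), (5, 9, 15), (5, 13, 16), (5, 15, 16), (6, 8, 11), (6, 8, 14)]
    fin := [0, 0, 0, 3, 4, 3, 6, 0, 6, 0, 10, 4, 3, 4, 14, 15, 16]
    chd := [(3, 15), (3, 16)]
    steps := [(0, 1), (0, 2), (0, 7), (0, 9), (3, 5), (3, 12), (4, 13), (4, 11), (6, 8)] }
  rep := [0, 6, 3, 4, 14, 15, 16, 10]

noncomputable def v2876 : Cov.CovD where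
  P := 3
  N := 5
  pl := [1, 3, 7]
  lev := [⟨[], [], [], [], [(0, 0, [])]⟩,
    ⟨[], [(0, 0)], [(0, 0)], [1], [(0, 0, []), (2, 0, [])]⟩,
    ⟨[(0, 1)], [(0, 0), (1, 0)], [], [1, 7], [(0, 0, [])]⟩,
    ⟨[(0, 1)], [(0, 0), (0, 2), (0, 3), (1, 0), (2, 0)], [(0, 2), (0, 3), (2, 3)], [], [(0,
      0, []), (4, 3, []), (5, 2, [5, 6])]⟩,
    ⟨[(0, 3)], [(3, 0), (3, 2), (3, 3)], [(3, 3)], [4], [(4, 3, []), (6, 3, [])]⟩,
    ⟨[(0, 1), (0, 3), (0, 4), (1, 2), (1, 3), (1, 4), (3, 4)], [(0, 0), (0, 3), (0, 5), (0,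
      6), (1, 0), (1, 3), (1, 5), (1, 6), (3, 0), (3, 2), (3, 3), (3, 5), (3, 6), (4, 0), (4,
      3), (4, 5), (4, 6)], [(0, 3), (0, 5), (0, 6), (3, 5), (3, 6), (5, 6)], [], [(2, 0, []),
      (6, 3, []), (8, 5, [2]), (9, 6, [2])]⟩,
    ⟨[(3, 4), (4, 5)], [(3, 3), (4, 3)], [], [1, 4], [(4, 3, [])]⟩]
  Ta := [((0, 3), 0, 7), ((0, 5), 0, 2), ((2, 1), 0, 1), ((2, 8), 0, 5), ((4, 1), 3, 1), ((4, 5),
    3, 2), ((6, 7), 3, 4), ((6, 9), 3, 6)]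
  Tb := [((0, 3, 5), 0, 7, 2), ((1, 2, 3), 1, 0, 7), ((1, 2, 4), 1, 0, 3), ((1, 2, 7), 1, 0, 4),
    ((1, 3, 4), 1, 7, 3), ((1, 3, 7), 1, 7, 4), ((1, 4, 7), 1, 3, 4), ((2, 1, 8), 0, 1, 5),
    ((3, 0, 1), 7, 0, 1), ((4, 1, 5), 3, 1, 2), ((5, 0, 4), 2, 0, 3), ((6, 7, 9), 3, 4, 6),
    ((7, 1, 6), 4, 1, 3), ((8, 2, 9), 5, 0, 6), ((9, 6, 8), 6, 3, 5)]
  Tc := [(2, 5, 6)]
  Td := [((2, 5), (5, 0), 0), ((2, 5), (5, 4), 3), ((2, 6), (5, 0), 0), ((2, 6), (5, 4), 3), ((5,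
    2), (8, 2), 0), ((5, 2), (8, 9), 6), ((6, 2), (9, 6), 3), ((6, 2), (9, 8), 5)]
  G := [[0, 0, 0x1141c41916a41141c814111ea8c4,
    0x42886127443123c428831278244312bcc48892482c882482cc4a,
    0x844414b248444b428444c414b141a441498c8e], [0, 0, 0x114151e8811191e4c42,
    0x829212d44829212d48c8, 0x844414b248445444b888a], [0, 0xa21621ca21621ca81, 0,
    0x8242c182129458242c14212589c8, 0xc4221844149141a18a], [0, 0xa2146218c81, 0,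
    0x829212d4148, 0x149414b2188]]

noncomputable def n2876 : Ent := ⟨e2876, noF, [], [], [(10, 12, [1685382419726887998779855760127267502807434353888247252031594799105, 0])]⟩

def c2876 : PLift (Cov.check n2876.C.D v2876 = true) := ⟨by decide +kernel⟩

def b2876 : PLift (entF (fidx ts) 400 2876 n2876 = true) := ⟨by decide +kernel⟩

theorem g2876 : GoodF (fidx ts) 400 2876 := GoodF.ofV v2876 n2876 c2876.down b2876.down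

/-- 4646684:2280 -/
noncomputable def e2877 : SCfg where
  D := {
    a := 7
    L := 11
    kp := 8
    inn := [(0, 1), (0, 3), (0, 5), (1, 0), (1, 2), (1, 5), (2, 1), (3, 0), (3, 4), (3, 5), (4, 3), (4,
      5), (4, 6), (5, 0), (5, 1), (5, 3), (5, 4), (6, 4)]
    mix := [(0, 0), (1, 0), (1, 1), (1, 2), (2, 0), (2, 1), (2, 3), (3, 0), (3, 4), (3, 5), (4, 4), (4,
      6), (4, 7), (5, 2), (5, 6), (5, 8), (5, 9), (6, 4), (6, 7), (6, 10)]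
    cl := [0, 3, 0, 7, 1, 2, 1, 4, 5, 6, 8]
    chq := [(2, 5), (2, 6), (5, 2), (6, 2)]
    rng := [(0, 3), (0, 5), (1, 2), (1, 3), (2, 1), (2, 8), (3, 0), (3, 1), (4, 5), (4, 10), (5, 0),
      (5, 4), (6, 7), (6, 9), (7, 6), (7, 10), (8, 2), (8, 9), (9, 6), (9, 8), (10, 4), (10, 7)]
    lev := [] }
  links := [[1, 5, 3, 7], [5, 0, 7, 2, 8, 9], [8, 1, 7, 10], [7, 0, 5, 4, 11, 12], [11, 3, 5, 13, 14, 6],
    [13, 4, 3, 0, 1, 9, 15, 16], [11, 4, 14, 17]]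
  P := {
    a := 7
    N := 18
    nb := [170, 933, 1410, 6321, 26728, 107035, 149520, 5135, 1542, 33058, 388, 135256, 2184, 81968,
      139344, 66080, 40992, 18496]
    tri := [(0, 1, 5), (0, 1, 7), (0, 3, 5), (0, 3, 7), (1, 2, 7), (1, 2, 8), (1, 5, 9), (1, 8, 9), (2,
      7, 10), (2, 8, 10), (3, 4, 5), (3, 4, 11), (3, 7, 12), (3, 11, 12), (4, 5, 13), (4, 6, 11),
      (4, 6, 14), (4, 13, 14), (5, 9, 15), (5, 13, 16), (5, 15, 16), (6, 11, 17), (6, 14, 17)]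
    fin := [0, 0, 0, 3, 4, 3, 4, 0, 8, 0, 10, 4, 3, 4, 14, 15, 16, 17]
    chd := [(3, 15), (3, 16)]
    steps := [(0, 1), (0, 2), (0, 7), (0, 9), (3, 5), (3, 12), (4, 6), (4, 13), (4, 11)] }
  rep := [0, 4, 3, 8, 14, 15, 16, 10, 17]

noncomputable def v2877 : Cov.CovD where
  P := 3
  N := 6
  pl := [1, 3, 7, 10]
  lev := [⟨[], [], [], [], [(0, 0, [])]⟩,
    ⟨[], [(0, 0)], [(0, 0)], [3], [(0, 0, []), (2, 0, [])]⟩,
    ⟨[(0, 1)], [(0, 0), (1, 0)], [], [3, 7], [(0, 0, [])]⟩,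
    ⟨[(0, 1)], [(0, 0), (0, 1), (0, 2), (1, 0), (2, 0)], [(0, 1), (0, 2), (1, 2)], [], [(0,
      0, []), (4, 1, []), (5, 2, [5, 6])]⟩,
    ⟨[(0, 3)], [(3, 0), (3, 1), (3, 2)], [(1, 1)], [4], [(4, 1, []), (6, 1, [])]⟩,
    ⟨[(0, 1), (0, 3), (0, 4), (1, 2), (1, 3), (1, 4), (3, 4)], [(0, 0), (0, 1), (0, 5), (0,
      6), (1, 0), (1, 1), (1, 5), (1, 6), (3, 0), (3, 1), (3, 2), (3, 5), (3, 6), (4, 0), (4,
      1), (4, 5), (4, 6)], [(0, 1), (0, 5), (0, 6), (1, 5), (1, 6), (5, 6)], [], [(2, 0, []),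
      (6, 1, []), (8, 5, [2]), (9, 6, [2])]⟩,
    ⟨[(3, 4), (4, 5)], [(3, 1), (4, 1)], [], [4, 8], [(4, 1, [])]⟩]
  Ta := [((0, 3), 0, 7), ((0, 5), 0, 2), ((2, 1), 0, 3), ((2, 8), 0, 5), ((4, 5), 1, 2), ((4,
    10), 1, 8), ((6, 7), 1, 4), ((6, 9), 1, 6)]
  Tb := [((0, 3, 5), 0, 7, 2), ((1, 2, 3), 3, 0, 7), ((2, 1, 8), 0, 3, 5), ((3, 0, 1), 7, 0, 3),
    ((4, 5, 10), 1, 2, 8), ((5, 0, 4), 2, 0, 1), ((6, 7, 9), 1, 4, 6), ((7, 6, 10), 4, 1, 8),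
    ((8, 2, 9), 5, 0, 6), ((9, 6, 8), 6, 1, 5), ((10, 4, 7), 8, 1, 4)]
  Tc := [(2, 5, 6)]
  Td := [((2, 5), (5, 0), 0), ((2, 5), (5, 4), 1), ((2, 6), (5, 0), 0), ((2, 6), (5, 4), 1), ((5,
    2), (8, 2), 0), ((5, 2), (8, 9), 6), ((6, 2), (9, 6), 1), ((6, 2), (9, 8), 5)]
  G := [[0, 0x624a28c624a28c64624a28c624a28ca8c, 0x514918c4514918c264149111cc88a,
    0xc25294c2925864c25294c25294a8c,
    0xcc348494188c5d458668248844c8c82a44885d4d89418cc8484ce], [0,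
    0xa212c4a212c464324528c12d2c8a8c, 0x31a1c4222151c887121c44ca, 0,
    0xc4549222742498245498c7424984aa], [0, 0x624a28c142262c828c2262c828ca89, 0,
    0xc252941c292589252c16c8, 0xc481c481541872541c489445498489c8a], [0,
    0x7212c4112b2c4a212c46c8, 0, 0, 0x6434981874249864a498623]]

noncomputable def n2877 : Ent := ⟨e2877, noF, [], [], [(10, 17, [6903326391201334775872065844685381424292761054348340378595029941456897, 0]), (10, 12, [7334790875884700912148207959429466810732110717284923962112213599367169, 0]), (8, 17, [6903326391201334775872065844685381424292761054348340378595029941469185, 0])]⟩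

def c2877 : PLift (Cov.check n2877.C.D v2877 = true) := ⟨by decide +kernel⟩

def b2877 : PLift (entF (fidx ts) 400 2877 n2877 = true) := ⟨by decide +kernel⟩

theorem g2877 : GoodF (fidx ts) 400 2877 := GoodF.ofV v2877 n2877 c2877.down b2877.down

/-- 4646874:2282/1 -/
noncomputable def e2878 : SCfg where
  D := {
    a := 7
    L := 10
    kp := 8
    inn := [(0, 1), (0, 3), (0, 4), (1, 0), (1, 2), (1, 4), (2, 1), (2, 4), (3, 0), (3, 4), (3, 5), (4,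
      0), (4, 1), (4, 2), (4, 3), (4, 5), (5, 3), (5, 4), (5, 6), (6, 5)]
    mix := [(0, 0), (1, 0), (1, 1), (1, 2), (2, 1), (2, 3), (3, 0), (3, 4), (3, 5), (4, 3), (4, 6), (4,
      7), (5, 5), (5, 6), (5, 8), (5, 9), (6, 1), (6, 8), (6, 9)]
    cl := [4, 0, 6, 2, 7, 3, 1, 8, 5, 3]
    chq := [(0, 1), (1, 0), (1, 2), (1, 4), (1, 6), (1, 7), (2, 1), (4, 1), (6, 1), (7, 1)]
    rng := [(0, 2), (0, 4), (1, 2), (1, 3), (1, 8), (1, 9), (2, 0), (2, 1), (3, 1), (3, 7), (4, 0), (4,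
      5), (5, 4), (5, 8), (6, 7), (6, 9), (7, 3), (7, 6), (8, 1), (8, 5), (9, 1), (9, 6)]
    lev := [] }
  links := [[1, 7, 3, 4], [7, 0, 4, 2, 8, 9], [8, 1, 4, 10], [4, 0, 7, 11, 12, 5], [10, 2, 1, 0, 3, 5,
    13, 14], [13, 4, 3, 12, 15, 6, 16], [16, 5, 15, 8]]
  P := {
    a := 7
    N := 17
    nb := [154, 917, 1298, 6321, 25647, 110680, 98592, 2571, 99910, 386, 16660, 4232, 34856, 81968,
      9232, 4448, 8544]
    tri := [(0, 1, 4), (0, 1, 7), (0, 3, 4), (0, 3, 7), (1, 2, 4), (1, 2, 8), (1, 7, 9), (1, 8, 9), (2,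
      4, 10), (2, 8, 10), (3, 4, 5), (3, 5, 12), (3, 7, 11), (3, 11, 12), (4, 5, 13), (4, 10, 14),
      (4, 13, 14), (5, 6, 15), (5, 6, 16), (5, 12, 15), (5, 13, 16), (6, 8, 15), (6, 8, 16)]
    fin := [0, 1, 2, 3, 1, 5, 5, 0, 2, 9, 10, 3, 5, 1, 14, 15, 5]
    chd := [(0, 1), (2, 1), (3, 1), (9, 1), (10, 1)]
    steps := [(0, 7), (1, 4), (1, 13), (2, 8), (3, 11), (5, 6), (5, 12), (5, 16)] }
  rep := [2, 1, 10, 5, 0, 15, 9, 3, 14]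

noncomputable def v2878 : Cov.CovD where
  P := 3
  N := 6
  pl := [7, 8]
  lev := [⟨[], [], [], [], [(0, 4, [1])]⟩,
    ⟨[], [(0, 0), (0, 4), (0, 6)], [(0, 4), (0, 6), (4, 6)], [], [(0, 4, [1]), (1, 0, [1]),
      (2, 6, [1])]⟩,
    ⟨[(0, 1)], [(1, 0), (1, 2), (1, 4), (1, 6)], [(0, 2)], [], [(1, 0, [1]), (3, 2, [1])]⟩,
    ⟨[(0, 1)], [(0, 3), (0, 4), (0, 7), (1, 4)], [(3, 4), (3, 7), (4, 7)], [], [(0, 4,
      [1]), (4, 7, [1]), (5, 3, [])]⟩,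
    ⟨[(0, 1), (0, 2), (0, 3), (1, 2), (1, 3), (2, 3)], [(0, 1), (0, 2), (0, 4), (1, 0), (1,
      1), (1, 2), (1, 4), (1, 6), (2, 0), (2, 1), (2, 2), (3, 1), (3, 2), (3, 3), (3, 4), (3,
      7)], [(1, 2)], [8], [(3, 2, [1]), (6, 1, [0, 2, 4, 6, 7])]⟩,
    ⟨[(0, 3), (0, 4), (1, 4), (2, 4), (3, 4)], [(3, 1), (3, 3), (3, 4), (3, 7), (4, 1), (4,
      2), (4, 3)], [(1, 3), (3, 3)], [5], [(5, 3, []), (6, 1, [0, 2, 4, 6, 7]), (9, 3, [])]⟩,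
    ⟨[(3, 5), (4, 5)], [(1, 0), (2, 0), (5, 0), (5, 1), (5, 3)], [(0, 3)], [5], [(1, 0,
      [1]), (9, 3, [])]⟩]
  Ta := [((5, 4), 3, 7), ((5, 8), 3, 5), ((9, 1), 3, 0), ((9, 6), 3, 1)]
  Tb := [((0, 2, 4), 4, 6, 7), ((1, 2, 3), 0, 6, 2), ((1, 2, 8), 0, 6, 5), ((1, 2, 9), 0, 6, 3),
    ((1, 3, 8), 0, 2, 5), ((1, 3, 9), 0, 2, 3), ((1, 8, 9), 0, 5, 3), ((2, 0, 1), 6, 4, 0),
    ((3, 1, 7), 2, 0, 8), ((4, 0, 5), 7, 4, 3), ((5, 4, 8), 3, 7, 5), ((6, 7, 9), 1, 8, 3),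
    ((7, 3, 6), 8, 2, 1), ((8, 1, 5), 5, 0, 3), ((9, 1, 6), 3, 0, 1)]
  Tc := [(1, 0, 2), (1, 0, 4), (1, 0, 6), (1, 0, 7), (1, 2, 4), (1, 2, 6), (1, 2, 7), (1, 4, 6),
    (1, 4, 7), (1, 6, 7)]
  Td := [((0, 1), (1, 2), 6), ((0, 1), (1, 3), 2), ((0, 1), (1, 8), 5), ((0, 1), (1, 9), 3), ((1,
    0), (6, 7), 8), ((1, 0), (6, 9), 3), ((1, 2), (6, 7), 8), ((1, 2), (6, 9), 3), ((1, 4),
    (6, 7), 8), ((1, 4), (6, 9), 3), ((1, 6), (6, 7), 8), ((1, 6), (6, 9), 3), ((1, 7), (6,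
    7), 8), ((1, 7), (6, 9), 3), ((2, 1), (3, 1), 0), ((2, 1), (3, 7), 8), ((4, 1), (0, 2),
    6), ((4, 1), (0, 4), 7), ((6, 1), (2, 0), 4), ((6, 1), (2, 1), 0), ((7, 1), (4, 0), 4),
    ((7, 1), (4, 5), 3)]
  G := [[0, 0xa2641812282ac164c81c18ac41642e81c1e, 0x6182261828614a1438e61461461a1ce825,
    0x442c9822dd24222cd826d9242c,
    0x82cd12221128a4a5822246d882d9224821922e482884a584c942832882aad], [0,
    0x414481881842682ac7c14148141c42682acb8188c111c1448188451441814411881caf,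
    0xe1861e1c342e1e1c282e14e18c82d, 0x826d842d528224ad82944d2429,
    0x842d128244288294a52a592a24ad842d92228842d922e828128282884a5822882aaf]]

noncomputable def n2878 : Ent := ⟨e2878, noF, [], [], []⟩

def c2878 : PLift (Cov.check n2878.C.D v2878 = true) := ⟨by decide +kernel⟩

def b2878 : PLift (entF (fidx ts) 400 2878 n2878 = true) := ⟨by decide +kernel⟩

theorem g2878 : GoodF (fidx ts) 400 2878 := GoodF.ofV v2878 n2878 c2878.down b2878.down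

/-- 4646874:2282/2 -/
noncomputable def e2879 : SCfg where
  D := {
    a := 7
    L := 10
    kp := 8
    inn := [(0, 1), (0, 3), (0, 4), (1, 0), (1, 2), (1, 4), (2, 1), (2, 4), (3, 0), (3, 4), (3, 5), (4,
      0), (4, 1), (4, 2), (4, 3), (4, 5), (5, 3), (5, 4), (5, 6), (6, 5)]
    mix := [(0, 0), (1, 0), (1, 1), (1, 2), (2, 1), (2, 3), (3, 0), (3, 4), (3, 5), (4, 3), (4, 6), (4,
      7), (5, 5), (5, 6), (5, 8), (5, 9), (6, 2), (6, 8), (6, 9)]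
    cl := [0, 1, 2, 4, 8, 3, 3, 7, 5, 6]
    chq := [(0, 1), (0, 3), (0, 4), (0, 7), (1, 0), (2, 3), (3, 0), (3, 2), (4, 0), (7, 0)]
    rng := [(0, 2), (0, 4), (1, 2), (1, 3), (2, 0), (2, 1), (2, 8), (2, 9), (3, 1), (3, 7), (4, 0), (4,
      5), (5, 4), (5, 8), (6, 7), (6, 9), (7, 3), (7, 6), (8, 2), (8, 5), (9, 2), (9, 6)]
    lev := [] }
  links := [[1, 7, 3, 4], [7, 0, 4, 2, 8, 9], [8, 1, 4, 10], [4, 0, 7, 11, 12, 5], [10, 2, 1, 0, 3, 5,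
    13, 14], [13, 4, 3, 12, 15, 6, 16], [16, 5, 15, 9]]
  P := {
    a := 7
    N := 17
    nb := [154, 917, 1298, 6321, 25647, 110680, 98848, 2571, 1542, 98754, 16660, 4232, 34856, 81968,
      9232, 4704, 8800]
    tri := [(0, 1, 4), (0, 1, 7), (0, 3, 4), (0, 3, 7), (1, 2, 4), (1, 2, 8), (1, 7, 9), (1, 8, 9), (2,
      4, 10), (2, 8, 10), (3, 4, 5), (3, 5, 12), (3, 7, 11), (3, 11, 12), (4, 5, 13), (4, 10, 14),
      (4, 13, 14), (5, 6, 15), (5, 6, 16), (5, 12, 15), (5, 13, 16), (6, 9, 15), (6, 9, 16)]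
    fin := [0, 0, 0, 0, 0, 5, 5, 0, 8, 9, 10, 11, 5, 5, 14, 15, 16]
    chd := [(0, 5), (0, 8), (0, 10), (0, 14), (9, 5)]
    steps := [(0, 1), (0, 2), (0, 3), (0, 4), (0, 7), (5, 6), (5, 12), (5, 13)] }
  rep := [0, 8, 9, 5, 10, 15, 16, 14, 11]

noncomputable def v2879 : Cov.CovD where
  P := 3
  N := 6
  pl := [4, 8, 9]
  lev := [⟨[], [], [], [], [(0, 0, [1, 3, 4, 7])]⟩,
    ⟨[], [(0, 0), (0, 1), (0, 2)], [(0, 1), (0, 2), (1, 2)], [], [(0, 0, [1, 3, 4, 7]), (1,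
      1, [0]), (2, 2, [3])]⟩,
    ⟨[(0, 1)], [(1, 0), (1, 1), (1, 2), (1, 4)], [(1, 4)], [], [(1, 1, [0]), (3, 4, [0])]⟩,
    ⟨[(0, 1)], [(0, 0), (0, 3), (1, 0)], [(0, 3)], [8], [(0, 0, [1, 3, 4, 7]), (5, 3, [0,
      2])]⟩,
    ⟨[(0, 1), (0, 2), (0, 3), (1, 2), (1, 3), (2, 3)], [(0, 0), (0, 3), (0, 4), (0, 7), (1,
      0), (1, 1), (1, 2), (1, 3), (1, 4), (1, 7), (2, 1), (2, 3), (2, 4), (2, 7), (3, 0), (3,
      3), (3, 4), (3, 7)], [(3, 4), (3, 7), (4, 7)], [], [(3, 4, [0]), (6, 3, [0, 2]), (7, 7,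
      [0])]⟩,
    ⟨[(0, 3), (0, 4), (1, 4), (2, 4), (3, 4)], [(3, 0), (3, 3), (4, 3), (4, 4), (4, 7)],
      [(3, 3)], [5, 6], [(5, 3, [0, 2]), (6, 3, [0, 2])]⟩,
    ⟨[(3, 5), (4, 5)], [(1, 2), (5, 2), (5, 3)], [], [5, 6], [(2, 2, [3])]⟩]
  Ta := [((5, 4), 3, 8), ((5, 8), 3, 5), ((6, 7), 3, 7), ((6, 9), 3, 6)]
  Tb := [((0, 2, 4), 0, 2, 8), ((1, 2, 3), 1, 2, 4), ((2, 0, 1), 2, 0, 1), ((2, 0, 8), 2, 0, 5),
    ((2, 0, 9), 2, 0, 6), ((2, 1, 8), 2, 1, 5), ((2, 1, 9), 2, 1, 6), ((2, 8, 9), 2, 5, 6),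
    ((3, 1, 7), 4, 1, 7), ((4, 0, 5), 8, 0, 3), ((5, 4, 8), 3, 8, 5), ((6, 7, 9), 3, 7, 6),
    ((7, 3, 6), 7, 4, 3), ((8, 2, 5), 5, 2, 3), ((9, 2, 6), 6, 2, 3)]
  Tc := [(0, 1, 3), (0, 1, 4), (0, 1, 7), (0, 3, 4), (0, 3, 7), (0, 4, 7), (3, 0, 2)]
  Td := [((0, 1), (0, 2), 2), ((0, 1), (0, 4), 8), ((0, 3), (0, 2), 2), ((0, 3), (0, 4), 8), ((0,
    4), (0, 2), 2), ((0, 4), (0, 4), 8), ((0, 7), (0, 2), 2), ((0, 7), (0, 4), 8), ((1, 0),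
    (1, 2), 2), ((1, 0), (1, 3), 4), ((2, 3), (2, 0), 0), ((2, 3), (2, 1), 1), ((2, 3), (2,
    8), 5), ((2, 3), (2, 9), 6), ((3, 0), (5, 4), 8), ((3, 0), (5, 8), 5), ((3, 0), (6, 7),
    7), ((3, 0), (6, 9), 6), ((3, 2), (5, 4), 8), ((3, 2), (5, 8), 5), ((3, 2), (6, 7), 7),
    ((3, 2), (6, 9), 6), ((4, 0), (3, 1), 1), ((4, 0), (3, 7), 7), ((7, 0), (7, 3), 4), ((7,
    0), (7, 6), 3)]
  G := [[0, 0x1111688de431411e11c81146c84ed121111a44de84dea994c, 0xe11e11e11ee11e11e11ec48,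
    0xd21d21d21ed21d21d21ec48,
    0x11116a81711a867822718112818113a1e58b2ef1ba51e3b26f18b2e1cc8e], [0,
    0x249af18256f1c249af18256f1cc82, 0xe11e116e11e116c48, 0xd21d21cd21d21cc82,
    0x1142188b92f121182583b2af18326f1c892e14111168d8e]]

noncomputable def n2879 : Ent := ⟨e2879, noF, [], [], []⟩

def c2879 : PLift (Cov.check n2879.C.D v2879 = true) := ⟨by decide +kernel⟩

def b2879 : PLift (entF (fidx ts) 400 2879 n2879 = true) := ⟨by decide +kernel⟩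

theorem g2879 : GoodF (fidx ts) 400 2879 := GoodF.ofV v2879 n2879 c2879.down b2879.down

/-- 4646874:2282 -/
noncomputable def e2880 : SCfg where
  D := {
    a := 7
    L := 11
    kp := 9
    inn := [(0, 1), (0, 3), (0, 4), (1, 0), (1, 2), (1, 4), (2, 1), (2, 4), (3, 0), (3, 4), (3, 5), (4,
      0), (4, 1), (4, 2), (4, 3), (4, 5), (5, 3), (5, 4), (5, 6), (6, 5)]
    mix := [(0, 0), (1, 0), (1, 1), (1, 2), (2, 1), (2, 3), (3, 0), (3, 4), (3, 5), (4, 3), (4, 6), (4,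
      7), (5, 5), (5, 6), (5, 8), (5, 9), (6, 8), (6, 9), (6, 10)]
    cl := [1, 3, 8, 2, 9, 0, 0, 6, 4, 5, 7]
    chq := [(0, 1), (0, 7), (1, 0), (1, 2), (1, 3), (1, 6), (2, 1), (3, 1), (6, 1), (7, 0)]
    rng := [(0, 2), (0, 4), (1, 2), (1, 3), (2, 0), (2, 1), (3, 1), (3, 7), (4, 0), (4, 5), (5, 4), (5,
      8), (6, 7), (6, 9), (7, 3), (7, 6), (8, 5), (8, 10), (9, 6), (9, 10), (10, 8), (10, 9)]
    lev := [] }
  links := [[1, 7, 3, 4], [7, 0, 4, 2, 8, 9], [8, 1, 4, 10], [4, 0, 7, 11, 12, 5], [10, 2, 1, 0, 3, 5,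
    13, 14], [13, 4, 3, 12, 15, 6, 16], [16, 5, 15, 17]]
  P := {
    a := 7
    N := 18
    nb := [154, 917, 1298, 6321, 25647, 110680, 229408, 2571, 1542, 386, 16660, 4232, 34856, 81968,
      9232, 135264, 139360, 98368]
    tri := [(0, 1, 4), (0, 1, 7), (0, 3, 4), (0, 3, 7), (1, 2, 4), (1, 2, 8), (1, 7, 9), (1, 8, 9), (2,
      4, 10), (2, 8, 10), (3, 4, 5), (3, 5, 12), (3, 7, 11), (3, 11, 12), (4, 5, 13), (4, 10, 14),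
      (4, 13, 14), (5, 6, 15), (5, 6, 16), (5, 12, 15), (5, 13, 16), (6, 15, 17), (6, 16, 17)]
    fin := [0, 0, 0, 0, 0, 5, 5, 0, 8, 9, 10, 11, 5, 5, 14, 15, 16, 17]
    chd := [(0, 5), (0, 8), (0, 10), (0, 14), (5, 17)]
    steps := [(0, 1), (0, 2), (0, 3), (0, 4), (0, 7), (5, 6), (5, 12), (5, 13)] }
  rep := [5, 0, 10, 8, 15, 16, 14, 17, 9, 11]

noncomputable def v2880 : Cov.CovD where
  P := 3
  N := 7
  pl := [2, 4, 8, 9]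
  lev := [⟨[], [], [], [], [(0, 1, [0, 2, 3, 6])]⟩,
    ⟨[], [(0, 1), (0, 3)], [(1, 3)], [8], [(0, 1, [0, 2, 3, 6]), (1, 3, [1])]⟩,
    ⟨[(0, 1)], [(1, 1), (1, 2), (1, 3)], [(2, 3)], [], [(1, 3, [1]), (3, 2, [1])]⟩,
    ⟨[(0, 1)], [(0, 0), (0, 1), (1, 1)], [(0, 1)], [9], [(0, 1, [0, 2, 3, 6]), (5, 0, [1,
      7])]⟩,
    ⟨[(0, 1), (0, 2), (0, 3), (1, 2), (1, 3), (2, 3)], [(0, 0), (0, 1), (0, 2), (0, 6), (1,
      0), (1, 1), (1, 2), (1, 3), (1, 6), (2, 0), (2, 2), (2, 3), (2, 6), (3, 0), (3, 1), (3,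
      2), (3, 6)], [(0, 2), (0, 6), (2, 6)], [], [(3, 2, [1]), (6, 0, [1, 7]), (7, 6, [1])]⟩,
    ⟨[(0, 3), (0, 4), (1, 4), (2, 4), (3, 4)], [(3, 0), (3, 1), (4, 0), (4, 2), (4, 6)],
      [(0, 0)], [4, 5], [(5, 0, [1, 7]), (6, 0, [1, 7])]⟩,
    ⟨[(3, 5), (4, 5)], [(5, 0), (5, 7)], [], [4, 5], [(10, 7, [0])]⟩]
  Ta := [((5, 4), 0, 9), ((5, 8), 0, 4), ((6, 7), 0, 6), ((6, 9), 0, 5)]
  Tb := [((0, 2, 4), 1, 8, 9), ((1, 2, 3), 3, 8, 2), ((2, 0, 1), 8, 1, 3), ((3, 1, 7), 2, 3, 6),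
    ((4, 0, 5), 9, 1, 0), ((5, 4, 8), 0, 9, 4), ((6, 7, 9), 0, 6, 5), ((7, 3, 6), 6, 2, 0),
    ((8, 5, 10), 4, 0, 7), ((9, 6, 10), 5, 0, 7), ((10, 8, 9), 7, 4, 5)]
  Tc := [(0, 1, 7), (1, 0, 2), (1, 0, 3), (1, 0, 6), (1, 2, 3), (1, 2, 6), (1, 3, 6)]
  Td := [((0, 1), (5, 4), 9), ((0, 1), (5, 8), 4), ((0, 1), (6, 7), 6), ((0, 1), (6, 9), 5), ((0,
    7), (5, 4), 9), ((0, 7), (5, 8), 4), ((0, 7), (6, 7), 6), ((0, 7), (6, 9), 5), ((1, 0),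
    (0, 2), 8), ((1, 0), (0, 4), 9), ((1, 2), (0, 2), 8), ((1, 2), (0, 4), 9), ((1, 3), (0,
    2), 8), ((1, 3), (0, 4), 9), ((1, 6), (0, 2), 8), ((1, 6), (0, 4), 9), ((2, 1), (3, 1),
    3), ((2, 1), (3, 7), 6), ((3, 1), (1, 2), 8), ((3, 1), (1, 3), 2), ((6, 1), (7, 3), 2),
    ((6, 1), (7, 6), 0), ((7, 0), (10, 8), 4), ((7, 0), (10, 9), 5)]
  G := [[0, 0x111e1111e1c8121111e111c1e4111e4111e8c1e111e111ec2123,
    0x923f9e652f35e6c8923f9ea52f35eac4db61ba1dce176d7ad1cec2d1,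
    0xdb61d17e1cdb61d17e1cc218181818c2c,
    0x14142d17e14252f35ea41d1dbe1d7a1c81dbe182923f9ea81dc], [0,
    0x121111e111c1e8111e1111e1c4c11c4111e11ac111e116ce123,
    0x12b71ea1453693a95ce12512b71e6188c, 0x95c2143232c1536417ec1598211795c2188c,
    0xb71e211281a12211dbeb7ca11221b12b71ea11d4]]

noncomputable def n2880 : Ent := ⟨e2880, noF, [], [], [(17, 8, [6903326391201334775872065844734382085129376193087066322065204563927041, 0]), (17, 9, [6903326391201334775872066023091343012537746186634086559781921989324801, 0])]⟩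

def c2880 : PLift (Cov.check n2880.C.D v2880 = true) := ⟨by decide +kernel⟩

def b2880 : PLift (entF (fidx ts) 400 2880 n2880 = true) := ⟨by decide +kernel⟩

theorem g2880 : GoodF (fidx ts) 400 2880 := GoodF.ofV v2880 n2880 c2880.down b2880.down

/-- 4646649:2283/1 -/
noncomputable def e2881 : SCfg where
  D := {
    a := 7
    L := 10
    kp := 8
    inn := [(0, 1), (0, 3), (0, 6), (1, 0), (1, 2), (1, 6), (2, 1), (3, 0), (3, 4), (3, 6), (4, 3), (4,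
      5), (4, 6), (5, 4), (5, 6), (6, 0), (6, 1), (6, 3), (6, 4), (6, 5)]
    mix := [(0, 0), (1, 0), (1, 1), (1, 2), (2, 0), (2, 1), (2, 3), (3, 0), (3, 3), (3, 4), (4, 4), (4,
      5), (4, 6), (5, 5), (5, 7), (6, 2), (6, 7), (6, 8), (6, 9)]
    cl := [0, 2, 0, 5, 1, 3, 8, 4, 6, 7]
    chq := [(0, 1), (1, 0), (1, 3), (1, 4), (1, 6), (1, 7), (3, 1), (4, 1), (6, 1), (7, 1)]
    rng := [(0, 3), (1, 2), (1, 3), (2, 1), (2, 8), (3, 0), (3, 1), (3, 4), (4, 3), (4, 6), (5, 6), (5,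
      7), (6, 4), (6, 5), (7, 5), (7, 9), (8, 2), (8, 9), (9, 7), (9, 8)]
    lev := [] }
  links := [[1, 6, 3, 7], [6, 0, 7, 2, 8, 9], [8, 1, 7, 10], [7, 0, 6, 4, 11, 10], [11, 3, 6, 5, 12, 13],
    [12, 4, 6, 14], [14, 5, 4, 3, 0, 1, 9, 15, 16]]
  P := {
    a := 7
    N := 17
    nb := [202, 965, 1410, 3281, 14440, 20560, 115259, 1039, 1542, 33090, 2444, 9240, 24624, 6160,
      69728, 66112, 49216]
    tri := [(0, 1, 6), (0, 1, 7), (0, 3, 6), (0, 3, 7), (1, 2, 7), (1, 2, 8), (1, 6, 9), (1, 8, 9), (2,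
      7, 10), (2, 8, 10), (3, 4, 6), (3, 4, 11), (3, 7, 10), (3, 10, 11), (4, 5, 6), (4, 5, 12),
      (4, 11, 13), (4, 12, 13), (5, 6, 14), (5, 12, 14), (6, 9, 15), (6, 14, 16), (6, 15, 16)]
    fin := [0, 0, 0, 0, 4, 5, 4, 0, 8, 0, 10, 4, 12, 13, 5, 15, 16]
    chd := [(0, 4), (4, 5), (4, 12), (4, 15), (4, 16)]
    steps := [(0, 1), (0, 2), (0, 7), (0, 3), (0, 9), (4, 6), (4, 11), (5, 14)] }
  rep := [0, 4, 8, 12, 5, 10, 15, 16, 13]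

noncomputable def v2881 : Cov.CovD where
  P := 3
  N := 6
  pl := [1, 3, 6]
  lev := [⟨[], [], [], [], [(0, 0, [1])]⟩,
    ⟨[], [(0, 0)], [(0, 0)], [2], [(0, 0, [1]), (2, 0, [1])]⟩,
    ⟨[(0, 1)], [(0, 0), (1, 0)], [], [2, 5], [(0, 0, [1])]⟩,
    ⟨[(0, 1)], [(0, 0), (0, 1), (1, 0), (2, 0)], [(0, 1)], [5], [(0, 0, [1]), (4, 1, [0, 3,
      4, 6, 7])]⟩,
    ⟨[(0, 3)], [(3, 0), (3, 1), (3, 3)], [(1, 3)], [8], [(4, 1, [0, 3, 4, 6, 7]), (5, 3,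
      [1])]⟩,
    ⟨[(3, 4)], [(4, 1), (4, 3), (4, 4)], [(3, 4)], [], [(5, 3, [1]), (7, 4, [1])]⟩,
    ⟨[(0, 1), (0, 3), (0, 4), (0, 5), (1, 2), (1, 3), (1, 4), (1, 5), (3, 4), (3, 5), (4,
      5)], [(0, 0), (0, 4), (0, 6), (0, 7), (1, 0), (1, 4), (1, 6), (1, 7), (3, 0), (3, 1),
      (3, 4), (3, 6), (3, 7), (4, 0), (4, 1), (4, 3), (4, 4), (4, 6), (4, 7), (5, 0), (5, 3),
      (5, 4), (5, 6), (5, 7)], [(0, 4), (0, 6), (0, 7), (4, 6), (4, 7), (6, 7)], [], [(2, 0,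
      [1]), (7, 4, [1]), (8, 6, [1]), (9, 7, [1])]⟩]
  Ta := [((0, 3), 0, 5), ((2, 1), 0, 2), ((2, 8), 0, 6)]
  Tb := [((1, 2, 3), 2, 0, 5), ((2, 1, 8), 0, 2, 6), ((3, 0, 1), 5, 0, 2), ((3, 0, 4), 5, 0, 1),
    ((3, 1, 4), 5, 2, 1), ((4, 3, 6), 1, 5, 8), ((5, 6, 7), 3, 8, 4), ((6, 4, 5), 8, 1, 3),
    ((7, 5, 9), 4, 3, 7), ((8, 2, 9), 6, 0, 7), ((9, 7, 8), 7, 4, 6)]
  Tc := [(1, 0, 3), (1, 0, 4), (1, 0, 6), (1, 0, 7), (1, 3, 4), (1, 3, 6), (1, 3, 7), (1, 4, 6),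
    (1, 4, 7), (1, 6, 7)]
  Td := [((0, 1), (0, 3), 5), ((0, 1), (2, 1), 2), ((0, 1), (2, 8), 6), ((1, 0), (4, 3), 5), ((1,
    0), (4, 6), 8), ((1, 3), (4, 3), 5), ((1, 3), (4, 6), 8), ((1, 4), (4, 3), 5), ((1, 4),
    (4, 6), 8), ((1, 6), (4, 3), 5), ((1, 6), (4, 6), 8), ((1, 7), (4, 3), 5), ((1, 7), (4,
    6), 8), ((3, 1), (5, 6), 8), ((3, 1), (5, 7), 4), ((4, 1), (7, 5), 3), ((4, 1), (7, 9),
    7), ((6, 1), (8, 2), 0), ((6, 1), (8, 9), 7), ((7, 1), (9, 7), 4), ((7, 1), (9, 8), 6)]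
  G := [[0, 0x111e111e6111e111ea111e111ece148, 0, 0x42424222d222d58222db2222dd4cc7288882828cc,
    0x22442462872222e222dd8222d222d94a8292c22ac], [0, 0x111e111e6111e111ea111e111ece142,
    0x22222d92245222d1222d222dc9684, 0x2441222d229222dd45222d1222d222dc98c8,
    0x222d222dc12222222dd222d1c384]]

noncomputable def n2881 : Ent := ⟨e2881, noF, [], [], []⟩

def c2881 : PLift (Cov.check n2881.C.D v2881 = true) := ⟨by decide +kernel⟩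

def b2881 : PLift (entF (fidx ts) 400 2881 n2881 = true) := ⟨by decide +kernel⟩

theorem g2881 : GoodF (fidx ts) 400 2881 := GoodF.ofV v2881 n2881 c2881.down b2881.down

/-- 4646649:2283 -/
noncomputable def e2882 : SCfg where
  D := {
    a := 7
    L := 11
    kp := 9
    inn := [(0, 1), (0, 3), (0, 6), (1, 0), (1, 2), (1, 6), (2, 1), (3, 0), (3, 4), (3, 6), (4, 3), (4,
      5), (4, 6), (5, 4), (5, 6), (6, 0), (6, 1), (6, 3), (6, 4), (6, 5)]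
    mix := [(0, 0), (1, 0), (1, 1), (1, 2), (2, 0), (2, 1), (2, 3), (3, 0), (3, 4), (3, 5), (4, 4), (4,
      6), (4, 7), (5, 6), (5, 8), (6, 2), (6, 8), (6, 9), (6, 10)]
    cl := [0, 2, 0, 8, 1, 9, 4, 5, 3, 6, 7]
    chq := [(0, 1), (1, 0), (1, 3), (1, 6), (1, 7), (3, 1), (3, 5), (5, 3), (6, 1), (7, 1)]
    rng := [(0, 3), (0, 5), (1, 2), (1, 3), (2, 1), (2, 9), (3, 0), (3, 1), (4, 5), (4, 7), (5, 0), (5,
      4), (6, 7), (6, 8), (7, 4), (7, 6), (8, 6), (8, 10), (9, 2), (9, 10), (10, 8), (10, 9)]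
    lev := [] }
  links := [[1, 6, 3, 7], [6, 0, 7, 2, 8, 9], [8, 1, 7, 10], [7, 0, 6, 4, 11, 12], [11, 3, 6, 5, 13, 14],
    [13, 4, 6, 15], [15, 5, 4, 3, 0, 1, 9, 16, 17]]
  P := {
    a := 7
    N := 18
    nb := [202, 965, 1410, 6353, 26728, 41040, 229947, 5135, 1542, 65858, 388, 20504, 2184, 49200,
      10256, 139360, 131648, 98368]
    tri := [(0, 1, 6), (0, 1, 7), (0, 3, 6), (0, 3, 7), (1, 2, 7), (1, 2, 8), (1, 6, 9), (1, 8, 9), (2,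
      7, 10), (2, 8, 10), (3, 4, 6), (3, 4, 11), (3, 7, 12), (3, 11, 12), (4, 5, 6), (4, 5, 13),
      (4, 11, 14), (4, 13, 14), (5, 6, 15), (5, 13, 15), (6, 9, 16), (6, 15, 17), (6, 16, 17)]
    fin := [0, 0, 0, 3, 4, 4, 3, 0, 8, 0, 10, 3, 12, 13, 14, 4, 16, 17]
    chd := [(0, 3), (3, 4), (3, 16), (3, 17), (14, 4)]
    steps := [(0, 1), (0, 2), (0, 7), (0, 9), (3, 6), (3, 11), (4, 5), (4, 15)] }
  rep := [0, 3, 8, 4, 13, 14, 16, 17, 10, 12]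

noncomputable def v2882 : Cov.CovD where
  P := 3
  N := 7
  pl := [1, 3, 5, 6]
  lev := [⟨[], [], [], [], [(0, 0, [1])]⟩,
    ⟨[], [(0, 0)], [(0, 0)], [2], [(0, 0, [1]), (2, 0, [1])]⟩,
    ⟨[(0, 1)], [(0, 0), (1, 0)], [], [2, 8], [(0, 0, [1])]⟩,
    ⟨[(0, 1)], [(0, 0), (0, 1), (1, 0), (2, 0)], [(0, 1)], [9], [(0, 0, [1]), (4, 1, [0, 3,
      6, 7])]⟩,
    ⟨[(0, 3)], [(3, 0), (3, 1), (3, 5)], [(1, 5)], [4], [(4, 1, [0, 3, 6, 7]), (7, 5,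
      [3])]⟩,
    ⟨[(3, 4)], [(4, 1), (4, 3), (4, 5)], [], [4], [(8, 3, [1, 5])]⟩,
    ⟨[(0, 1), (0, 3), (0, 4), (0, 5), (1, 2), (1, 3), (1, 4), (1, 5), (3, 4), (3, 5), (4,
      5)], [(0, 0), (0, 3), (0, 6), (0, 7), (1, 0), (1, 3), (1, 6), (1, 7), (3, 0), (3, 1),
      (3, 3), (3, 6), (3, 7), (4, 0), (4, 1), (4, 3), (4, 5), (4, 6), (4, 7), (5, 0), (5, 3),
      (5, 6), (5, 7)], [(0, 3), (0, 6), (0, 7), (3, 6), (3, 7), (6, 7)], [], [(2, 0, [1]),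
      (8, 3, [1, 5]), (9, 6, [1]), (10, 7, [1])]⟩]
  Ta := [((0, 3), 0, 8), ((0, 5), 0, 9), ((2, 1), 0, 2), ((2, 9), 0, 6)]
  Tb := [((0, 3, 5), 0, 8, 9), ((1, 2, 3), 2, 0, 8), ((2, 1, 9), 0, 2, 6), ((3, 0, 1), 8, 0, 2),
    ((4, 5, 7), 1, 9, 5), ((5, 0, 4), 9, 0, 1), ((6, 7, 8), 4, 5, 3), ((7, 4, 6), 5, 1, 4),
    ((8, 6, 10), 3, 4, 7), ((9, 2, 10), 6, 0, 7), ((10, 8, 9), 7, 3, 6)]
  Tc := [(1, 0, 3), (1, 0, 6), (1, 0, 7), (1, 3, 6), (1, 3, 7), (1, 6, 7), (3, 1, 5)]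
  Td := [((0, 1), (0, 3), 8), ((0, 1), (0, 5), 9), ((0, 1), (2, 1), 2), ((0, 1), (2, 9), 6), ((1,
    0), (4, 5), 9), ((1, 0), (4, 7), 5), ((1, 3), (4, 5), 9), ((1, 3), (4, 7), 5), ((1, 6),
    (4, 5), 9), ((1, 6), (4, 7), 5), ((1, 7), (4, 5), 9), ((1, 7), (4, 7), 5), ((3, 1), (8,
    6), 4), ((3, 1), (8, 10), 7), ((3, 5), (8, 6), 4), ((3, 5), (8, 10), 7), ((5, 3), (7, 4),
    1), ((5, 3), (7, 6), 4), ((6, 1), (9, 2), 0), ((6, 1), (9, 10), 7), ((7, 1), (10, 8), 3),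
    ((7, 1), (10, 9), 6)]
  G := [[0, 0x11611a11ce11611a11cea144, 0, 0x22922c522522922cdc22522922cd4c42258822522922cd8c8c,
    0x22522922cd42292b442468a22522922cd22522c9c22522922cd8a8c], [0,
    0x11611a11ce11611a11cea144, 0x22c122c1225229cd22c122c1225229cda84,
    0x225229c1225229c122c122c1cd84, 0x225229c1225229c122c122c1cb84]]

noncomputable def n2882 : Ent := ⟨e2882, noF, [], [], [(10, 12, [7334790875884700912148207959429466810732110717284923962112213599391745, 0])]⟩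

def c2882 : PLift (Cov.check n2882.C.D v2882 = true) := ⟨by decide +kernel⟩

def b2882 : PLift (entF (fidx ts) 400 2882 n2882 = true) := ⟨by decide +kernel⟩

theorem g2882 : GoodF (fidx ts) 400 2882 := GoodF.ofV v2882 n2882 c2882.down b2882.down

/-- 4646945:2284/1 -/
noncomputable def e2883 : SCfg where
  D := {
    a := 7
    L := 10
    kp := 7
    inn := [(0, 1), (0, 3), (0, 4), (1, 0), (1, 2), (1, 4), (2, 1), (3, 0), (3, 4), (4, 0), (4, 1), (4,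
      3), (4, 5), (4, 6), (5, 4), (5, 6), (6, 4), (6, 5)]
    mix := [(0, 0), (1, 0), (1, 1), (1, 2), (2, 0), (2, 1), (2, 3), (3, 0), (3, 4), (3, 5), (3, 6), (4,
      2), (4, 4), (4, 7), (4, 8), (5, 2), (5, 9), (6, 3), (6, 7), (6, 9)]
    cl := [0, 2, 0, 1, 0, 6, 7, 4, 5, 3]
    chq := [(1, 5), (3, 5), (5, 1), (5, 3)]
    rng := [(0, 3), (0, 6), (1, 2), (1, 3), (2, 1), (2, 9), (3, 0), (3, 1), (3, 7), (3, 9), (4, 5), (4,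
      8), (5, 4), (5, 6), (6, 0), (6, 5), (7, 3), (7, 8), (8, 4), (8, 7), (9, 2), (9, 3)]
    lev := [] }
  links := [[1, 4, 3, 7], [4, 0, 7, 2, 8, 9], [8, 1, 7, 10], [7, 0, 4, 11, 12, 13], [11, 3, 0, 1, 9, 5,
    6, 14, 15], [6, 4, 9, 16], [14, 4, 5, 16, 10]]
  P := {
    a := 7
    N := 17
    nb := [154, 917, 1410, 14481, 51819, 66128, 82992, 9231, 1542, 65842, 82372, 36888, 10248, 4232,
      33872, 18448, 1632]
    tri := [(0, 1, 4), (0, 1, 7), (0, 3, 4), (0, 3, 7), (1, 2, 7), (1, 2, 8), (1, 4, 9), (1, 8, 9), (2,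
      7, 10), (2, 8, 10), (3, 4, 11), (3, 7, 13), (3, 11, 12), (3, 12, 13), (4, 5, 6), (4, 5, 9),
      (4, 6, 14), (4, 11, 15), (4, 14, 15), (5, 6, 16), (5, 9, 16), (6, 10, 14), (6, 10, 16)]
    fin := [0, 0, 0, 0, 4, 0, 4, 0, 8, 0, 10, 0, 12, 13, 14, 4, 16]
    chd := [(4, 16), (10, 4)]
    steps := [(0, 1), (0, 2), (0, 3), (0, 7), (0, 9), (0, 5), (0, 11), (4, 6), (4, 15)] }
  rep := [0, 10, 8, 16, 14, 4, 12, 13]

noncomputable def v2883 : Cov.CovD where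
  P := 3
  N := 5
  pl := [1, 5, 6, 7]
  lev := [⟨[], [], [], [], [(0, 0, [])]⟩,
    ⟨[], [(0, 0)], [(0, 0)], [2], [(0, 0, []), (2, 0, [])]⟩,
    ⟨[(0, 1)], [(0, 0), (1, 0), (1, 1)], [(0, 1)], [2], [(0, 0, []), (3, 1, [5])]⟩,
    ⟨[(0, 1)], [(0, 0), (1, 0), (2, 0)], [(0, 0)], [6, 7], [(0, 0, []), (4, 0, [])]⟩,
    ⟨[(0, 1), (0, 3), (1, 2), (1, 3)], [(0, 0), (0, 5), (1, 0), (1, 5), (3, 0), (3, 5)],
      [(0, 0), (0, 5)], [4], [(2, 0, []), (4, 0, []), (8, 5, [1, 3])]⟩,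
    ⟨[(0, 4), (1, 4), (3, 4)], [(1, 0), (4, 0), (4, 3), (4, 5)], [(0, 3)], [], [(2, 0, []),
      (9, 3, [5])]⟩,
    ⟨[(0, 4), (1, 4), (3, 4), (4, 5)], [(2, 1), (4, 0), (4, 1), (4, 3), (4, 5), (5, 0), (5,
      1), (5, 3)], [(1, 3)], [4], [(3, 1, [5]), (9, 3, [5])]⟩]
  Ta := [((0, 3), 0, 1), ((0, 6), 0, 7), ((2, 1), 0, 2), ((2, 9), 0, 3), ((4, 5), 0, 6), ((4, 8),
    0, 5)]
  Tb := [((0, 3, 6), 0, 1, 7), ((1, 2, 3), 2, 0, 1), ((2, 1, 9), 0, 2, 3), ((3, 0, 1), 1, 0, 2),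
    ((3, 0, 7), 1, 0, 4), ((3, 0, 9), 1, 0, 3), ((3, 1, 7), 1, 2, 4), ((3, 1, 9), 1, 2, 3),
    ((3, 7, 9), 1, 4, 3), ((4, 5, 8), 0, 6, 5), ((5, 4, 6), 6, 0, 7), ((6, 0, 5), 7, 0, 6),
    ((7, 3, 8), 4, 1, 5), ((8, 4, 7), 5, 0, 4), ((9, 2, 3), 3, 0, 1)]
  Tc := [(5, 1, 3)]
  Td := [((1, 5), (3, 0), 0), ((1, 5), (3, 1), 2), ((1, 5), (3, 7), 4), ((1, 5), (3, 9), 3), ((3,
    5), (9, 2), 0), ((3, 5), (9, 3), 1), ((5, 1), (8, 4), 0), ((5, 1), (8, 7), 4), ((5, 3),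
    (8, 4), 0), ((5, 3), (8, 7), 4)]
  G := [[0, 0x425c1ac12a84a1461a1c1e61a1ce486, 0, 0xd22d2295c2e484,
    0x12448212c162812312c1e61185ad28e8ac], [0, 0, 0x1285ca1294ca14c2e418488425c92ce461,
    0xd22d2295c2e441, 0x94c2881cc6c1c2e85282c528d252ce8a1], [0, 0, 0, 0xd22d22158d2e184,
    0x12585614c2685292c1e1285292ce8a1]]

noncomputable def n2883 : Ent := ⟨e2883, noF, [], [], []⟩

def c2883 : PLift (Cov.check n2883.C.D v2883 = true) := ⟨by decide +kernel⟩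

def b2883 : PLift (entF (fidx ts) 400 2883 n2883 = true) := ⟨by decide +kernel⟩

theorem g2883 : GoodF (fidx ts) 400 2883 := GoodF.ofV v2883 n2883 c2883.down b2883.down

/-- 4646945:2284/2 -/
noncomputable def e2884 : SCfg where
  D := {
    a := 7
    L := 10
    kp := 7
    inn := [(0, 1), (0, 3), (0, 4), (1, 0), (1, 2), (1, 4), (2, 1), (3, 0), (3, 4), (4, 0), (4, 1), (4,
      3), (4, 5), (4, 6), (5, 4), (5, 6), (6, 4), (6, 5)]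
    mix := [(0, 0), (1, 0), (1, 1), (1, 2), (2, 0), (2, 1), (2, 3), (3, 0), (3, 3), (3, 4), (3, 5), (4,
      2), (4, 4), (4, 6), (4, 7), (5, 2), (5, 8), (6, 6), (6, 8), (6, 9)]
    cl := [0, 1, 0, 2, 0, 7, 4, 5, 3, 6]
    chq := [(3, 5), (5, 3), (5, 6), (6, 5)]
    rng := [(0, 3), (1, 2), (1, 3), (2, 1), (2, 8), (3, 0), (3, 1), (3, 5), (4, 5), (4, 7), (5, 3), (5,
      4), (6, 7), (6, 9), (7, 4), (7, 6), (8, 2), (8, 9), (9, 6), (9, 8)]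
    lev := [] }
  links := [[1, 4, 3, 7], [4, 0, 7, 2, 8, 9], [8, 1, 7, 10], [7, 0, 4, 11, 12, 10], [11, 3, 0, 1, 9, 5,
    6, 13, 14], [6, 4, 9, 15], [13, 4, 5, 15, 16]]
  P := {
    a := 7
    N := 17
    nb := [154, 917, 1410, 7313, 27243, 33360, 106544, 1039, 1542, 33074, 4492, 20504, 3080, 82000,
      10256, 66144, 41024]
    tri := [(0, 1, 4), (0, 1, 7), (0, 3, 4), (0, 3, 7), (1, 2, 7), (1, 2, 8), (1, 4, 9), (1, 8, 9), (2,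
      7, 10), (2, 8, 10), (3, 4, 11), (3, 7, 10), (3, 10, 12), (3, 11, 12), (4, 5, 6), (4, 5, 9),
      (4, 6, 13), (4, 11, 14), (4, 13, 14), (5, 6, 15), (5, 9, 15), (6, 13, 16), (6, 15, 16)]
    fin := [0, 0, 0, 0, 4, 0, 4, 0, 8, 0, 10, 0, 12, 13, 4, 15, 16]
    chd := [(4, 15), (4, 16)]
    steps := [(0, 1), (0, 2), (0, 7), (0, 3), (0, 9), (0, 5), (0, 11), (4, 6), (4, 14)] }
  rep := [0, 8, 10, 15, 13, 4, 16, 12]

noncomputable def v2884 : Cov.CovD where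
  P := 3
  N := 5
  pl := [1, 3, 5, 6]
  lev := [⟨[], [], [], [], [(0, 0, [])]⟩,
    ⟨[], [(0, 0)], [(0, 0)], [1], [(0, 0, []), (2, 0, [])]⟩,
    ⟨[(0, 1)], [(0, 0), (1, 0)], [], [1, 2], [(0, 0, [])]⟩,
    ⟨[(0, 1)], [(0, 0), (1, 0), (2, 0)], [(0, 0)], [2, 7], [(0, 0, []), (4, 0, [])]⟩,
    ⟨[(0, 1), (0, 3), (1, 2), (1, 3)], [(0, 0), (0, 5), (1, 0), (1, 5), (3, 0), (3, 5)],
      [(0, 0), (0, 5)], [4], [(2, 0, []), (4, 0, []), (7, 5, [3, 6])]⟩,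
    ⟨[(0, 4), (1, 4), (3, 4)], [(1, 0), (4, 0), (4, 3), (4, 5)], [(0, 3)], [], [(2, 0, []),
      (8, 3, [5])]⟩,
    ⟨[(0, 4), (1, 4), (3, 4), (4, 5)], [(4, 0), (4, 3), (4, 5), (4, 6), (5, 0), (5, 3), (5,
      6)], [(3, 6)], [4], [(8, 3, [5]), (9, 6, [5])]⟩]
  Ta := [((0, 3), 0, 2), ((2, 1), 0, 1), ((2, 8), 0, 3), ((4, 5), 0, 7), ((4, 7), 0, 5)]
  Tb := [((1, 2, 3), 1, 0, 2), ((2, 1, 8), 0, 1, 3), ((3, 0, 1), 2, 0, 1), ((3, 0, 5), 2, 0, 7),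
    ((3, 1, 5), 2, 1, 7), ((4, 5, 7), 0, 7, 5), ((5, 3, 4), 7, 2, 0), ((6, 7, 9), 4, 5, 6),
    ((7, 4, 6), 5, 0, 4), ((8, 2, 9), 3, 0, 6), ((9, 6, 8), 6, 4, 3)]
  Tc := [(5, 3, 6)]
  Td := [((3, 5), (8, 2), 0), ((3, 5), (8, 9), 6), ((5, 3), (7, 4), 0), ((5, 3), (7, 6), 4), ((5,
    6), (7, 4), 0), ((5, 6), (7, 6), 4), ((6, 5), (9, 6), 4), ((6, 5), (9, 8), 3)]
  G := [[0, 0, 0x1a31c561631c9a61a1ce482, 0x1a31c56a11c96c8618b438c8c2,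
    0x1a31c56a14a8618163949aa8c4], [0, 0xf2c9dc6a3a4c86368796c5cac4c2, 0,
    0x93a4445769aaf86e796c4aac8c1, 0x5669aaa5cec36a3ac5cea841], [0, 0, 0,
    0x969c16163a11c9ec4525884c2, 0x611a31c5e165929c1ea841]]

noncomputable def n2884 : Ent := ⟨e2884, noF, [], [], []⟩

def c2884 : PLift (Cov.check n2884.C.D v2884 = true) := ⟨by decide +kernel⟩

def b2884 : PLift (entF (fidx ts) 400 2884 n2884 = true) := ⟨by decide +kernel⟩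

theorem g2884 : GoodF (fidx ts) 400 2884 := GoodF.ofV v2884 n2884 c2884.down b2884.down

/-- 4646945:2284 -/
noncomputable def e2885 : SCfg where
  D := {
    a := 7
    L := 11
    kp := 8
    inn := [(0, 1), (0, 3), (0, 4), (1, 0), (1, 2), (1, 4), (2, 1), (3, 0), (3, 4), (4, 0), (4, 1), (4,
      3), (4, 5), (4, 6), (5, 4), (5, 6), (6, 4), (6, 5)]
    mix := [(0, 0), (1, 0), (1, 1), (1, 2), (2, 0), (2, 1), (2, 3), (3, 0), (3, 4), (3, 5), (3, 6), (4,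
      2), (4, 4), (4, 7), (4, 8), (5, 2), (5, 9), (6, 7), (6, 9), (6, 10)]
    cl := [0, 1, 0, 6, 0, 7, 8, 4, 2, 3, 5]
    chq := [(2, 3), (2, 5), (3, 2), (5, 2)]
    rng := [(0, 3), (0, 6), (1, 2), (1, 3), (2, 1), (2, 9), (3, 0), (3, 1), (4, 5), (4, 8), (5, 4), (5,
      6), (6, 0), (6, 5), (7, 8), (7, 10), (8, 4), (8, 7), (9, 2), (9, 10), (10, 7), (10, 9)]
    lev := [] }
  links := [[1, 4, 3, 7], [4, 0, 7, 2, 8, 9], [8, 1, 7, 10], [7, 0, 4, 11, 12, 13], [11, 3, 0, 1, 9, 5,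
    6, 14, 15], [6, 4, 9, 16], [14, 4, 5, 16, 17]]
  P := {
    a := 7
    N := 18
    nb := [154, 917, 1410, 14481, 51819, 66128, 213040, 9231, 1542, 65842, 388, 36888, 10248, 4232,
      163920, 18448, 131680, 81984]
    tri := [(0, 1, 4), (0, 1, 7), (0, 3, 4), (0, 3, 7), (1, 2, 7), (1, 2, 8), (1, 4, 9), (1, 8, 9), (2,
      7, 10), (2, 8, 10), (3, 4, 11), (3, 7, 13), (3, 11, 12), (3, 12, 13), (4, 5, 6), (4, 5, 9),
      (4, 6, 14), (4, 11, 15), (4, 14, 15), (5, 6, 16), (5, 9, 16), (6, 14, 17), (6, 16, 17)]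
    fin := [0, 0, 0, 0, 4, 0, 4, 0, 8, 0, 10, 0, 12, 13, 14, 4, 16, 17]
    chd := [(4, 16), (4, 17)]
    steps := [(0, 1), (0, 2), (0, 3), (0, 7), (0, 9), (0, 5), (0, 11), (4, 6), (4, 15)] }
  rep := [0, 8, 4, 16, 14, 17, 10, 12, 13]

noncomputable def v2885 : Cov.CovD where
  P := 3
  N := 6
  pl := [1, 3, 5, 6, 7]
  lev := [⟨[], [], [], [], [(0, 0, [])]⟩,
    ⟨[], [(0, 0)], [(0, 0)], [1], [(0, 0, []), (2, 0, [])]⟩,
    ⟨[(0, 1)], [(0, 0), (1, 0)], [], [1, 6], [(0, 0, [])]⟩,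
    ⟨[(0, 1)], [(0, 0), (1, 0), (2, 0)], [(0, 0)], [7, 8], [(0, 0, []), (4, 0, [])]⟩,
    ⟨[(0, 1), (0, 3), (1, 2), (1, 3)], [(0, 0), (0, 2), (1, 0), (1, 2), (3, 0), (3, 2)],
      [(0, 0), (0, 2)], [4], [(2, 0, []), (4, 0, []), (8, 2, [3, 5])]⟩,
    ⟨[(0, 4), (1, 4), (3, 4)], [(1, 0), (4, 0), (4, 2), (4, 3)], [(0, 3)], [], [(2, 0, []),
      (9, 3, [2])]⟩,
    ⟨[(0, 4), (1, 4), (3, 4), (4, 5)], [(4, 0), (4, 2), (4, 3), (4, 5), (5, 0), (5, 3), (5,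
      5)], [(3, 5)], [4], [(9, 3, [2]), (10, 5, [2])]⟩]
  Ta := [((0, 3), 0, 6), ((0, 6), 0, 8), ((2, 1), 0, 1), ((2, 9), 0, 3), ((4, 5), 0, 7), ((4, 8),
    0, 2)]
  Tb := [((0, 3, 6), 0, 6, 8), ((1, 2, 3), 1, 0, 6), ((2, 1, 9), 0, 1, 3), ((3, 0, 1), 6, 0, 1),
    ((4, 5, 8), 0, 7, 2), ((5, 4, 6), 7, 0, 8), ((6, 0, 5), 8, 0, 7), ((7, 8, 10), 4, 2, 5),
    ((8, 4, 7), 2, 0, 4), ((9, 2, 10), 3, 0, 5), ((10, 7, 9), 5, 4, 3)]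
  Tc := [(2, 3, 5)]
  Td := [((2, 3), (8, 4), 0), ((2, 3), (8, 7), 4), ((2, 5), (8, 4), 0), ((2, 5), (8, 7), 4), ((3,
    2), (9, 2), 0), ((3, 2), (9, 10), 5), ((5, 2), (10, 7), 4), ((5, 2), (10, 9), 3)]
  G := [[0, 0, 0, 0xe142141e34ef24163a1c21f2cec1238f28218e2188cc2,
    0x345c1a24122c4746c1af441ac611c5a165c1ab458ec4a], [0,
    0x2362dac26c2bac29625ace236f2c69623acf222ccea21, 0, 0xf242762bac236f2ce1236881c2,
    0xf42566c4aa7464dcae145468814a], [0, 0, 0x11a11c611611aa11a11c6e184,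
    0x923441a14618611a3ce1c2768814a, 0x145e1a41145e1af441aa1c4]]

noncomputable def n2885 : Ent := ⟨e2885, noF, [], [], [(10, 17, [6903326391201334775872065844685381424292761054348340378595029941497857, 0]), (10, 13, [7334790875884699379652667093540608452385083566975740343373091415801857, 0])]⟩

def c2885 : PLift (Cov.check n2885.C.D v2885 = true) := ⟨by decide +kernel⟩

def b2885 : PLift (entF (fidx ts) 400 2885 n2885 = true) := ⟨by decide +kernel⟩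

theorem g2885 : GoodF (fidx ts) 400 2885 := GoodF.ofV v2885 n2885 c2885.down b2885.down

/-- 4646945:2285/1 -/
noncomputable def e2886 : SCfg where
  D := {
    a := 7
    L := 10
    kp := 7
    inn := [(0, 1), (0, 3), (0, 4), (1, 0), (1, 2), (1, 4), (2, 1), (3, 0), (3, 4), (4, 0), (4, 1), (4,
      3), (4, 5), (4, 6), (5, 4), (5, 6), (6, 4), (6, 5)]
    mix := [(0, 0), (1, 0), (1, 1), (1, 2), (2, 0), (2, 1), (2, 3), (3, 0), (3, 3), (3, 4), (3, 5), (4,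
      2), (4, 4), (4, 6), (4, 7), (5, 6), (5, 8), (6, 2), (6, 8), (6, 9)]
    cl := [0, 1, 0, 2, 0, 7, 3, 6, 4, 5]
    chq := [(3, 5), (5, 3), (5, 6), (6, 5)]
    rng := [(0, 3), (1, 2), (1, 3), (2, 1), (2, 9), (3, 0), (3, 1), (3, 5), (4, 5), (4, 7), (5, 3), (5,
      4), (6, 7), (6, 8), (7, 4), (7, 6), (8, 6), (8, 9), (9, 2), (9, 8)]
    lev := [] }
  links := [[1, 4, 3, 7], [4, 0, 7, 2, 8, 9], [8, 1, 7, 10], [7, 0, 4, 11, 12, 10], [11, 3, 0, 1, 9, 6,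
    5, 13, 14], [13, 4, 6, 15], [15, 5, 4, 9, 16]]
  P := {
    a := 7
    N := 17
    nb := [154, 917, 1410, 7313, 27243, 41040, 98864, 1039, 1542, 65874, 4492, 20504, 3080, 49200,
      10256, 73824, 33344]
    tri := [(0, 1, 4), (0, 1, 7), (0, 3, 4), (0, 3, 7), (1, 2, 7), (1, 2, 8), (1, 4, 9), (1, 8, 9), (2,
      7, 10), (2, 8, 10), (3, 4, 11), (3, 7, 10), (3, 10, 12), (3, 11, 12), (4, 5, 6), (4, 5, 13),
      (4, 6, 9), (4, 11, 14), (4, 13, 14), (5, 6, 15), (5, 13, 15), (6, 9, 16), (6, 15, 16)]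
    fin := [0, 0, 0, 0, 4, 4, 4, 0, 8, 0, 10, 0, 12, 13, 14, 15, 4]
    chd := [(13, 4), (14, 4)]
    steps := [(0, 1), (0, 2), (0, 7), (0, 3), (0, 9), (0, 11), (4, 5), (4, 6), (4, 16)] }
  rep := [0, 8, 10, 13, 15, 4, 14, 12]

noncomputable def v2886 : Cov.CovD where
  P := 3
  N := 5
  pl := [1, 3, 5, 8]
  lev := [⟨[], [], [], [], [(0, 0, [])]⟩,
    ⟨[], [(0, 0)], [(0, 0)], [1], [(0, 0, []), (2, 0, [])]⟩,
    ⟨[(0, 1)], [(0, 0), (1, 0)], [], [1, 2], [(0, 0, [])]⟩,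
    ⟨[(0, 1)], [(0, 0), (1, 0), (2, 0)], [(0, 0)], [2, 7], [(0, 0, []), (4, 0, [])]⟩,
    ⟨[(0, 1), (0, 3), (1, 2), (1, 3)], [(0, 0), (0, 3), (0, 6), (1, 0), (1, 3), (1, 6), (3,
      0), (3, 3), (3, 6)], [(0, 0), (0, 3), (0, 6), (3, 6)], [], [(2, 0, []), (4, 0, []), (6,
      3, [5]), (7, 6, [5])]⟩,
    ⟨[(0, 4), (1, 4), (3, 4)], [(4, 0), (4, 3), (4, 6)], [], [4], [(6, 3, [5])]⟩,
    ⟨[(0, 4), (1, 4), (3, 4), (4, 5)], [(1, 0), (4, 0), (4, 3), (4, 5), (4, 6), (5, 0), (5,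
      3), (5, 5)], [(0, 5)], [4], [(2, 0, []), (9, 5, [3, 6])]⟩]
  Ta := [((0, 3), 0, 2), ((2, 1), 0, 1), ((2, 9), 0, 5), ((4, 5), 0, 7), ((4, 7), 0, 6)]
  Tb := [((1, 2, 3), 1, 0, 2), ((2, 1, 9), 0, 1, 5), ((3, 0, 1), 2, 0, 1), ((3, 0, 5), 2, 0, 7),
    ((3, 1, 5), 2, 1, 7), ((4, 5, 7), 0, 7, 6), ((5, 3, 4), 7, 2, 0), ((6, 7, 8), 3, 6, 4),
    ((7, 4, 6), 6, 0, 3), ((8, 6, 9), 4, 3, 5), ((9, 2, 8), 5, 0, 4)]
  Tc := [(5, 3, 6)]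
  Td := [((3, 5), (6, 7), 6), ((3, 5), (6, 8), 4), ((5, 3), (9, 2), 0), ((5, 3), (9, 8), 4), ((5,
    6), (9, 2), 0), ((5, 6), (9, 8), 4), ((6, 5), (7, 4), 0), ((6, 5), (7, 6), 3)]
  G := [[0, 0, 0x218e58cd6218e4a246754cda246786c82, 0xa3ab85876448246739ab58cde6498c84a,
    0x32ab489ab4a82267481ea234d58cdaa8c4], [0, 0x82a7c4ce66267a2abcccdec46267884a1, 0,
    0xea2e4c8766267a2ab8484fec42667884c1, 0xa2ab48aab4a8626748cea62ce4ccdaa1c4], [0, 0, 0,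
    0x128d494b6481e2c23622abc4c24678188c4c1, 0x32ab18ce689ab4a824678442d59cdaa1c4]]

noncomputable def n2886 : Ent := ⟨e2886, noF, [], [], []⟩

def c2886 : PLift (Cov.check n2886.C.D v2886 = true) := ⟨by decide +kernel⟩

def b2886 : PLift (entF (fidx ts) 400 2886 n2886 = true) := ⟨by decide +kernel⟩

theorem g2886 : GoodF (fidx ts) 400 2886 := GoodF.ofV v2886 n2886 c2886.down b2886.down

/-- 4646945:2285 -/
noncomputable def e2887 : SCfg where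
  D := {
    a := 7
    L := 11
    kp := 8
    inn := [(0, 1), (0, 3), (0, 4), (1, 0), (1, 2), (1, 4), (2, 1), (3, 0), (3, 4), (4, 0), (4, 1), (4,
      3), (4, 5), (4, 6), (5, 4), (5, 6), (6, 4), (6, 5)]
    mix := [(0, 0), (1, 0), (1, 1), (1, 2), (2, 0), (2, 1), (2, 3), (3, 0), (3, 4), (3, 5), (3, 6), (4,
      2), (4, 4), (4, 7), (4, 8), (5, 7), (5, 9), (6, 2), (6, 9), (6, 10)]
    cl := [0, 1, 0, 6, 0, 7, 8, 3, 5, 4, 2]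
    chq := [(2, 3), (2, 5), (3, 2), (5, 2)]
    rng := [(0, 3), (0, 6), (1, 2), (1, 3), (2, 1), (2, 10), (3, 0), (3, 1), (4, 5), (4, 8), (5, 4),
      (5, 6), (6, 0), (6, 5), (7, 8), (7, 9), (8, 4), (8, 7), (9, 7), (9, 10), (10, 2), (10, 9)]
    lev := [] }
  links := [[1, 4, 3, 7], [4, 0, 7, 2, 8, 9], [8, 1, 7, 10], [7, 0, 4, 11, 12, 13], [11, 3, 0, 1, 9, 6,
    5, 14, 15], [14, 4, 6, 16], [16, 5, 4, 9, 17]]
  P := {
    a := 7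
    N := 18
    nb := [154, 917, 1410, 14481, 51819, 82000, 197168, 9231, 1542, 131410, 388, 36888, 10248, 4232,
      98352, 18448, 147552, 66112]
    tri := [(0, 1, 4), (0, 1, 7), (0, 3, 4), (0, 3, 7), (1, 2, 7), (1, 2, 8), (1, 4, 9), (1, 8, 9), (2,
      7, 10), (2, 8, 10), (3, 4, 11), (3, 7, 13), (3, 11, 12), (3, 12, 13), (4, 5, 6), (4, 5, 14),
      (4, 6, 9), (4, 11, 15), (4, 14, 15), (5, 6, 16), (5, 14, 16), (6, 9, 17), (6, 16, 17)]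
    fin := [0, 0, 0, 0, 4, 4, 4, 0, 8, 0, 10, 0, 12, 13, 14, 15, 16, 4]
    chd := [(14, 4), (15, 4)]
    steps := [(0, 1), (0, 2), (0, 3), (0, 7), (0, 9), (0, 11), (4, 5), (4, 6), (4, 17)] }
  rep := [0, 8, 4, 14, 16, 15, 10, 12, 13]

noncomputable def v2887 : Cov.CovD where
  P := 3
  N := 6
  pl := [1, 3, 5, 6, 9]
  lev := [⟨[], [], [], [], [(0, 0, [])]⟩,
    ⟨[], [(0, 0)], [(0, 0)], [1], [(0, 0, []), (2, 0, [])]⟩,
    ⟨[(0, 1)], [(0, 0), (1, 0)], [], [1, 6], [(0, 0, [])]⟩,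
    ⟨[(0, 1)], [(0, 0), (1, 0), (2, 0)], [(0, 0)], [7, 8], [(0, 0, []), (4, 0, [])]⟩,
    ⟨[(0, 1), (0, 3), (1, 2), (1, 3)], [(0, 0), (0, 3), (0, 5), (1, 0), (1, 3), (1, 5), (3,
      0), (3, 3), (3, 5)], [(0, 0), (0, 3), (0, 5), (3, 5)], [], [(2, 0, []), (4, 0, []), (7,
      3, [2]), (8, 5, [2])]⟩,
    ⟨[(0, 4), (1, 4), (3, 4)], [(4, 0), (4, 3), (4, 5)], [], [4], [(7, 3, [2])]⟩,
    ⟨[(0, 4), (1, 4), (3, 4), (4, 5)], [(1, 0), (4, 0), (4, 2), (4, 3), (4, 5), (5, 0), (5,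
      2), (5, 3)], [(0, 2)], [4], [(2, 0, []), (10, 2, [3, 5])]⟩]
  Ta := [((0, 3), 0, 6), ((0, 6), 0, 8), ((2, 1), 0, 1), ((2, 10), 0, 2), ((4, 5), 0, 7), ((4,
    8), 0, 5)]
  Tb := [((0, 3, 6), 0, 6, 8), ((1, 2, 3), 1, 0, 6), ((2, 1, 10), 0, 1, 2), ((3, 0, 1), 6, 0, 1),
    ((4, 5, 8), 0, 7, 5), ((5, 4, 6), 7, 0, 8), ((6, 0, 5), 8, 0, 7), ((7, 8, 9), 3, 5, 4),
    ((8, 4, 7), 5, 0, 3), ((9, 7, 10), 4, 3, 2), ((10, 2, 9), 2, 0, 4)]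
  Tc := [(2, 3, 5)]
  Td := [((2, 3), (10, 2), 0), ((2, 3), (10, 9), 4), ((2, 5), (10, 2), 0), ((2, 5), (10, 9), 4),
    ((3, 2), (7, 8), 5), ((3, 2), (7, 9), 4), ((5, 2), (8, 4), 0), ((5, 2), (8, 7), 3)]
  G := [[0, 0, 0, 0x84cd284cd29284cd6e84cd284cd2529284cdeec92828c4,
    0x82ab482ab94682ab4e82ab43482ab94e82ab4eca4848c2], [0,
    0x84cd284cd2423c284cdee84cd284cd2423c284cdee681, 0xa14c1261861a1c1ea1c1ac1a1ce14a,
    0x84cd284cd242382384cdee184, 0x82ab424582ab845e82ab4e182], [0, 0, 0,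
    0x84cd284cd2529244cdee184, 0x82ab43482ab94e82ab4e182]]

noncomputable def n2887 : Ent := ⟨e2887, noF, [], [], [(10, 13, [7334790875884699379652667093540608452385083566975740343373091415810049, 0])]⟩

def c2887 : PLift (Cov.check n2887.C.D v2887 = true) := ⟨by decide +kernel⟩

def b2887 : PLift (entF (fidx ts) 400 2887 n2887 = true) := ⟨by decide +kernel⟩

theorem g2887 : GoodF (fidx ts) 400 2887 := GoodF.ofV v2887 n2887 c2887.down b2887.down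

/-- 4646945:2287/1 -/
noncomputable def e2888 : SCfg where
  D := {
    a := 7
    L := 10
    kp := 7
    inn := [(0, 1), (0, 3), (0, 4), (1, 0), (1, 2), (1, 4), (2, 1), (3, 0), (3, 4), (4, 0), (4, 1), (4,
      3), (4, 5), (4, 6), (5, 4), (5, 6), (6, 4), (6, 5)]
    mix := [(0, 0), (1, 0), (1, 1), (1, 2), (2, 0), (2, 1), (2, 3), (3, 0), (3, 4), (3, 5), (3, 6), (4,
      2), (4, 4), (4, 7), (4, 8), (5, 3), (5, 8), (6, 3), (6, 4), (6, 9)]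
    cl := [0, 2, 0, 1, 0, 6, 7, 4, 3, 5]
    chq := [(1, 4), (4, 1), (4, 5), (5, 4)]
    rng := [(0, 3), (0, 6), (1, 2), (1, 3), (2, 1), (2, 7), (3, 0), (3, 1), (3, 8), (3, 9), (4, 5), (4,
      9), (5, 4), (5, 6), (6, 0), (6, 5), (7, 2), (7, 8), (8, 3), (8, 7), (9, 3), (9, 4)]
    lev := [] }
  links := [[1, 4, 3, 7], [4, 0, 7, 2, 8, 9], [8, 1, 7, 10], [7, 0, 4, 11, 12, 13], [11, 3, 0, 1, 9, 14,
    15, 5, 6], [6, 4, 15, 10], [11, 4, 5, 10, 16]]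
  P := {
    a := 7
    N := 17
    nb := [154, 917, 1410, 14481, 51819, 33872, 68656, 9231, 1542, 16658, 98788, 69720, 10248, 4232,
      33296, 17456, 3136]
    tri := [(0, 1, 4), (0, 1, 7), (0, 3, 4), (0, 3, 7), (1, 2, 7), (1, 2, 8), (1, 4, 9), (1, 8, 9), (2,
      7, 10), (2, 8, 10), (3, 4, 11), (3, 7, 13), (3, 11, 12), (3, 12, 13), (4, 5, 6), (4, 5, 15),
      (4, 6, 11), (4, 9, 14), (4, 14, 15), (5, 6, 10), (5, 10, 15), (6, 10, 16), (6, 11, 16)]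
    fin := [0, 0, 0, 0, 4, 5, 4, 0, 8, 0, 5, 0, 12, 13, 4, 15, 16]
    chd := [(4, 16), (5, 4)]
    steps := [(0, 1), (0, 2), (0, 3), (0, 7), (0, 9), (0, 11), (4, 6), (4, 14), (5, 10)] }
  rep := [0, 5, 8, 15, 4, 16, 12, 13]

noncomputable def v2888 : Cov.CovD where
  P := 3
  N := 5
  pl := [1, 5, 6, 8]
  lev := [⟨[], [], [], [], [(0, 0, [])]⟩,
    ⟨[], [(0, 0)], [(0, 0)], [2], [(0, 0, []), (2, 0, [])]⟩,
    ⟨[(0, 1)], [(0, 0), (1, 0), (1, 1)], [(0, 1)], [2], [(0, 0, []), (3, 1, [4])]⟩,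
    ⟨[(0, 1)], [(0, 0), (1, 0), (2, 0)], [(0, 0)], [6, 7], [(0, 0, []), (4, 0, [])]⟩,
    ⟨[(0, 1), (0, 3), (1, 2), (1, 3)], [(0, 0), (0, 4), (1, 0), (1, 4), (3, 0), (3, 4)],
      [(0, 0), (0, 4)], [3], [(2, 0, []), (4, 0, []), (7, 4, [1, 5])]⟩,
    ⟨[(0, 4), (1, 4), (3, 4)], [(2, 1), (4, 0), (4, 1), (4, 4)], [], [3], [(3, 1, [4])]⟩,
    ⟨[(0, 4), (1, 4), (3, 4), (4, 5)], [(2, 1), (3, 0), (4, 0), (4, 1), (4, 4), (4, 5), (5,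
      0), (5, 1), (5, 5)], [(0, 1), (0, 5), (1, 5)], [], [(3, 1, [4]), (4, 0, []), (9, 5,
      [4])]⟩]
  Ta := [((0, 3), 0, 1), ((0, 6), 0, 7), ((2, 1), 0, 2), ((2, 7), 0, 4), ((4, 5), 0, 6), ((4, 9),
    0, 5)]
  Tb := [((0, 3, 6), 0, 1, 7), ((1, 2, 3), 2, 0, 1), ((2, 1, 7), 0, 2, 4), ((3, 0, 1), 1, 0, 2),
    ((3, 0, 8), 1, 0, 3), ((3, 0, 9), 1, 0, 5), ((3, 1, 8), 1, 2, 3), ((3, 1, 9), 1, 2, 5),
    ((3, 8, 9), 1, 3, 5), ((4, 5, 9), 0, 6, 5), ((5, 4, 6), 6, 0, 7), ((6, 0, 5), 7, 0, 6),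
    ((7, 2, 8), 4, 0, 3), ((8, 3, 7), 3, 1, 4), ((9, 3, 4), 5, 1, 0)]
  Tc := [(4, 1, 5)]
  Td := [((1, 4), (3, 0), 0), ((1, 4), (3, 1), 2), ((1, 4), (3, 8), 3), ((1, 4), (3, 9), 5), ((4,
    1), (7, 2), 0), ((4, 1), (7, 8), 3), ((4, 5), (7, 2), 0), ((4, 5), (7, 8), 3), ((5, 4),
    (9, 3), 1), ((5, 4), (9, 4), 0)]
  G := [[0, 0xc22c4c2688a4ccc6aaa48264e46668688688e4c6, 0, 0x11c211c211c2e884,
    0x1411c6116a111ce6114ce8218522861888ac], [0, 0, 0x811856149211a11c6e884181481c188e825,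
    0x11c211c211c2e441, 0x8111c611c2125a111cee184184881cc126], [0, 0, 0, 0xcc52cc52cc92e848,
    0x8894a4461881c856414c9a614c9ae141881ac]]

noncomputable def n2888 : Ent := ⟨e2888, noF, [], [], []⟩

def c2888 : PLift (Cov.check n2888.C.D v2888 = true) := ⟨by decide +kernel⟩

def b2888 : PLift (entF (fidx ts) 400 2888 n2888 = true) := ⟨by decide +kernel⟩

theorem g2888 : GoodF (fidx ts) 400 2888 := GoodF.ofV v2888 n2888 c2888.down b2888.down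

/-- 4646945:2287/2 -/
noncomputable def e2889 : SCfg where
  D := {
    a := 7
    L := 10
    kp := 7
    inn := [(0, 1), (0, 3), (0, 4), (1, 0), (1, 2), (1, 4), (2, 1), (3, 0), (3, 4), (4, 0), (4, 1), (4,
      3), (4, 5), (4, 6), (5, 4), (5, 6), (6, 4), (6, 5)]
    mix := [(0, 0), (1, 0), (1, 1), (1, 2), (2, 0), (2, 1), (2, 3), (3, 0), (3, 3), (3, 4), (3, 5), (4,
      2), (4, 4), (4, 6), (4, 7), (5, 7), (5, 8), (6, 4), (6, 8), (6, 9)]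
    cl := [0, 1, 0, 2, 0, 7, 5, 4, 3, 6]
    chq := [(3, 5), (5, 3), (5, 6), (6, 5)]
    rng := [(0, 3), (1, 2), (1, 3), (2, 1), (2, 6), (3, 0), (3, 1), (3, 5), (4, 5), (4, 9), (5, 3), (5,
      4), (6, 2), (6, 7), (7, 6), (7, 8), (8, 7), (8, 9), (9, 4), (9, 8)]
    lev := [] }
  links := [[1, 4, 3, 7], [4, 0, 7, 2, 8, 9], [8, 1, 7, 10], [7, 0, 4, 11, 12, 10], [11, 3, 0, 1, 9, 13,
    14, 5, 6], [6, 4, 14, 15], [11, 4, 5, 15, 16]]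
  P := {
    a := 7
    N := 17
    nb := [154, 917, 1410, 7313, 27243, 49232, 100400, 1039, 1542, 8466, 4492, 69720, 3080, 16912,
      41008, 82016, 34880]
    tri := [(0, 1, 4), (0, 1, 7), (0, 3, 4), (0, 3, 7), (1, 2, 7), (1, 2, 8), (1, 4, 9), (1, 8, 9), (2,
      7, 10), (2, 8, 10), (3, 4, 11), (3, 7, 10), (3, 10, 12), (3, 11, 12), (4, 5, 6), (4, 5, 14),
      (4, 6, 11), (4, 9, 13), (4, 13, 14), (5, 6, 15), (5, 14, 15), (6, 11, 16), (6, 15, 16)]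
    fin := [0, 0, 0, 0, 4, 4, 4, 0, 8, 0, 10, 0, 12, 4, 14, 15, 16]
    chd := [(4, 15), (4, 16)]
    steps := [(0, 1), (0, 2), (0, 7), (0, 3), (0, 9), (0, 11), (4, 5), (4, 6), (4, 13)] }
  rep := [0, 8, 10, 15, 14, 4, 16, 12]

noncomputable def v2889 : Cov.CovD where
  P := 3
  N := 5
  pl := [1, 3, 5, 7]
  lev := [⟨[], [], [], [], [(0, 0, [])]⟩,
    ⟨[], [(0, 0)], [(0, 0)], [1], [(0, 0, []), (2, 0, [])]⟩,
    ⟨[(0, 1)], [(0, 0), (1, 0)], [], [1, 2], [(0, 0, [])]⟩,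
    ⟨[(0, 1)], [(0, 0), (1, 0), (2, 0)], [(0, 0)], [2, 7], [(0, 0, []), (4, 0, [])]⟩,
    ⟨[(0, 1), (0, 3), (1, 2), (1, 3)], [(0, 0), (0, 5), (1, 0), (1, 5), (3, 0), (3, 5)],
      [(0, 0), (0, 5)], [4], [(2, 0, []), (4, 0, []), (6, 5, [3, 6])]⟩,
    ⟨[(0, 4), (1, 4), (3, 4)], [(4, 0), (4, 3), (4, 5)], [], [4], [(8, 3, [5])]⟩,
    ⟨[(0, 4), (1, 4), (3, 4), (4, 5)], [(3, 0), (4, 0), (4, 3), (4, 5), (4, 6), (5, 0), (5,
      3), (5, 6)], [(0, 3), (0, 6), (3, 6)], [], [(4, 0, []), (8, 3, [5]), (9, 6, [5])]⟩]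
  Ta := [((0, 3), 0, 2), ((2, 1), 0, 1), ((2, 6), 0, 5), ((4, 5), 0, 7), ((4, 9), 0, 6)]
  Tb := [((1, 2, 3), 1, 0, 2), ((2, 1, 6), 0, 1, 5), ((3, 0, 1), 2, 0, 1), ((3, 0, 5), 2, 0, 7),
    ((3, 1, 5), 2, 1, 7), ((4, 5, 9), 0, 7, 6), ((5, 3, 4), 7, 2, 0), ((6, 2, 7), 5, 0, 4),
    ((7, 6, 8), 4, 5, 3), ((8, 7, 9), 3, 4, 6), ((9, 4, 8), 6, 0, 3)]
  Tc := [(5, 3, 6)]
  Td := [((3, 5), (8, 7), 4), ((3, 5), (8, 9), 6), ((5, 3), (6, 2), 0), ((5, 3), (6, 7), 4), ((5,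
    6), (6, 2), 0), ((5, 6), (6, 7), 4), ((6, 5), (9, 4), 0), ((6, 5), (9, 8), 3)]
  G := [[0, 0, 0x48624a28b844b67768726baac1eec84, 0x183e4776bbaddcec4676c48da84c2,
    0x666cc3a624b8ccaa841a2d4aa54a886], [0, 0x1a2d4ccb66247baa914eec4626884c1, 0,
    0x994e28aa4c8736a28bc252dcc3ac8c1, 0x1a1e854b6adac5c6a862686698a8c1], [0, 0, 0,
    0x2aad8c4b66247a28bcccdec4426888c1, 0x6247a28b88c4fe646baa2b8c4dea841]]

noncomputable def n2889 : Ent := ⟨e2889, noF, [], [], []⟩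

def c2889 : PLift (Cov.check n2889.C.D v2889 = true) := ⟨by decide +kernel⟩

def b2889 : PLift (entF (fidx ts) 400 2889 n2889 = true) := ⟨by decide +kernel⟩

theorem g2889 : GoodF (fidx ts) 400 2889 := GoodF.ofV v2889 n2889 c2889.down b2889.down

/-- 4646945:2287 -/
noncomputable def e2890 : SCfg where
  D := {
    a := 7
    L := 11
    kp := 8
    inn := [(0, 1), (0, 3), (0, 4), (1, 0), (1, 2), (1, 4), (2, 1), (3, 0), (3, 4), (4, 0), (4, 1), (4,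
      3), (4, 5), (4, 6), (5, 4), (5, 6), (6, 4), (6, 5)]
    mix := [(0, 0), (1, 0), (1, 1), (1, 2), (2, 0), (2, 1), (2, 3), (3, 0), (3, 4), (3, 5), (3, 6), (4,
      2), (4, 4), (4, 7), (4, 8), (5, 8), (5, 9), (6, 4), (6, 9), (6, 10)]
    cl := [0, 1, 0, 6, 0, 7, 8, 2, 4, 3, 5]
    chq := [(2, 3), (2, 5), (3, 2), (5, 2)]
    rng := [(0, 3), (0, 6), (1, 2), (1, 3), (2, 1), (2, 7), (3, 0), (3, 1), (4, 5), (4, 10), (5, 4),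
      (5, 6), (6, 0), (6, 5), (7, 2), (7, 8), (8, 7), (8, 9), (9, 8), (9, 10), (10, 4), (10, 9)]
    lev := [] }
  links := [[1, 4, 3, 7], [4, 0, 7, 2, 8, 9], [8, 1, 7, 10], [7, 0, 4, 11, 12, 13], [11, 3, 0, 1, 9, 14,
    15, 5, 6], [6, 4, 15, 16], [11, 4, 5, 16, 17]]
  P := {
    a := 7
    N := 18
    nb := [154, 917, 1410, 14481, 51819, 98384, 198704, 9231, 1542, 16658, 388, 135256, 10248, 4232,
      33296, 81968, 163936, 67648]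
    tri := [(0, 1, 4), (0, 1, 7), (0, 3, 4), (0, 3, 7), (1, 2, 7), (1, 2, 8), (1, 4, 9), (1, 8, 9), (2,
      7, 10), (2, 8, 10), (3, 4, 11), (3, 7, 13), (3, 11, 12), (3, 12, 13), (4, 5, 6), (4, 5, 15),
      (4, 6, 11), (4, 9, 14), (4, 14, 15), (5, 6, 16), (5, 15, 16), (6, 11, 17), (6, 16, 17)]
    fin := [0, 0, 0, 0, 4, 4, 4, 0, 8, 0, 10, 0, 12, 13, 4, 15, 16, 17]
    chd := [(4, 16), (4, 17)]
    steps := [(0, 1), (0, 2), (0, 3), (0, 7), (0, 9), (0, 11), (4, 5), (4, 6), (4, 14)] }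
  rep := [0, 8, 4, 16, 15, 17, 10, 12, 13]

noncomputable def v2890 : Cov.CovD where
  P := 3
  N := 6
  pl := [1, 3, 5, 6, 8]
  lev := [⟨[], [], [], [], [(0, 0, [])]⟩,
    ⟨[], [(0, 0)], [(0, 0)], [1], [(0, 0, []), (2, 0, [])]⟩,
    ⟨[(0, 1)], [(0, 0), (1, 0)], [], [1, 6], [(0, 0, [])]⟩,
    ⟨[(0, 1)], [(0, 0), (1, 0), (2, 0)], [(0, 0)], [7, 8], [(0, 0, []), (4, 0, [])]⟩,
    ⟨[(0, 1), (0, 3), (1, 2), (1, 3)], [(0, 0), (0, 2), (1, 0), (1, 2), (3, 0), (3, 2)],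
      [(0, 0), (0, 2)], [4], [(2, 0, []), (4, 0, []), (7, 2, [3, 5])]⟩,
    ⟨[(0, 4), (1, 4), (3, 4)], [(4, 0), (4, 2), (4, 3)], [], [4], [(9, 3, [2])]⟩,
    ⟨[(0, 4), (1, 4), (3, 4), (4, 5)], [(3, 0), (4, 0), (4, 2), (4, 3), (4, 5), (5, 0), (5,
      3), (5, 5)], [(0, 3), (0, 5), (3, 5)], [], [(4, 0, []), (9, 3, [2]), (10, 5, [2])]⟩]
  Ta := [((0, 3), 0, 6), ((0, 6), 0, 8), ((2, 1), 0, 1), ((2, 7), 0, 2), ((4, 5), 0, 7), ((4,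
    10), 0, 5)]
  Tb := [((0, 3, 6), 0, 6, 8), ((1, 2, 3), 1, 0, 6), ((2, 1, 7), 0, 1, 2), ((3, 0, 1), 6, 0, 1),
    ((4, 5, 10), 0, 7, 5), ((5, 4, 6), 7, 0, 8), ((6, 0, 5), 8, 0, 7), ((7, 2, 8), 2, 0, 4),
    ((8, 7, 9), 4, 2, 3), ((9, 8, 10), 3, 4, 5), ((10, 4, 9), 5, 0, 3)]
  Tc := [(2, 3, 5)]
  Td := [((2, 3), (7, 2), 0), ((2, 3), (7, 8), 4), ((2, 5), (7, 2), 0), ((2, 5), (7, 8), 4), ((3,
    2), (9, 8), 4), ((3, 2), (9, 10), 5), ((5, 2), (10, 4), 0), ((5, 2), (10, 9), 3)]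
  G := [[0, 0, 0, 0xb242164622546232bac72225cec2627b2c22982298e7288cc2,
    0x1462d42646454dca28c6447d4a449d4ac746c45a41c84498ec4a], [0,
    0x72225c229b2cd2225ce72225c229b2c21a216cea21, 0x2141446161a1c1e169c1a16912ce1c2,
    0x244b24c17221c229821aa23ce1c2, 0x74443a4174443a41cc45aa1c4], [0, 0, 0,
    0x222d4a23421e2ce1623826a8288e1c2, 0x6458447a416458447a424bc45aa1c4]]

noncomputable def n2890 : Ent := ⟨e2890, noF, [], [], [(10, 16, [7334685537875745012586738086077695515070955365108989538292687705505793, 0]), (10, 13, [7334790875884699379652667093540608452385083566975740343373091415822337, 0])]⟩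

def c2890 : PLift (Cov.check n2890.C.D v2890 = true) := ⟨by decide +kernel⟩

def b2890 : PLift (entF (fidx ts) 400 2890 n2890 = true) := ⟨by decide +kernel⟩

theorem g2890 : GoodF (fidx ts) 400 2890 := GoodF.ofV v2890 n2890 c2890.down b2890.down

/-- 4646864:2288/1 -/
noncomputable def e2891 : SCfg where
  D := {
    a := 7
    L := 10
    kp := 7
    inn := [(0, 1), (0, 3), (0, 4), (1, 0), (1, 2), (1, 4), (2, 1), (2, 4), (3, 0), (3, 4), (4, 0), (4,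
      1), (4, 2), (4, 3), (4, 5), (5, 4), (5, 6), (6, 5)]
    mix := [(0, 0), (1, 0), (1, 1), (1, 2), (2, 1), (2, 3), (3, 0), (3, 4), (3, 5), (3, 6), (4, 3), (4,
      6), (4, 7), (5, 3), (5, 7), (5, 8), (5, 9), (6, 5), (6, 7), (6, 8)]
    cl := [0, 3, 6, 1, 7, 2, 0, 1, 4, 5]
    chq := [(0, 3), (2, 5), (3, 0), (5, 2)]
    rng := [(0, 2), (0, 4), (1, 2), (1, 3), (2, 0), (2, 1), (3, 1), (3, 9), (4, 0), (4, 5), (5, 4), (5,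
      6), (5, 7), (5, 8), (6, 5), (6, 7), (7, 5), (7, 6), (8, 5), (8, 9), (9, 3), (9, 8)]
    lev := [] }
  links := [[1, 7, 3, 4], [7, 0, 4, 2, 8, 9], [8, 1, 4, 10], [4, 0, 7, 11, 12, 13], [10, 2, 1, 0, 3, 13,
    14, 5], [10, 4, 14, 6, 15, 16], [15, 5, 14, 12]]
  P := {
    a := 7
    N := 17
    nb := [154, 917, 1298, 14481, 25647, 115792, 53280, 2571, 1542, 386, 65844, 4232, 59464, 20504,
      12400, 69728, 33824]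
    tri := [(0, 1, 4), (0, 1, 7), (0, 3, 4), (0, 3, 7), (1, 2, 4), (1, 2, 8), (1, 7, 9), (1, 8, 9), (2,
      4, 10), (2, 8, 10), (3, 4, 13), (3, 7, 11), (3, 11, 12), (3, 12, 13), (4, 5, 10), (4, 5,
      14), (4, 13, 14), (5, 6, 14), (5, 6, 15), (5, 10, 16), (5, 15, 16), (6, 12, 14), (6, 12,
      15)]
    fin := [0, 0, 0, 0, 4, 5, 5, 0, 8, 9, 4, 11, 5, 0, 4, 15, 16]
    chd := [(0, 8), (5, 16)]
    steps := [(0, 1), (0, 2), (0, 3), (0, 7), (0, 13), (4, 14), (4, 10), (5, 6), (5, 12)] }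
  rep := [0, 4, 5, 8, 15, 16, 9, 11]

noncomputable def v2891 : Cov.CovD where
  P := 3
  N := 5
  pl := [2, 4, 8]
  lev := [⟨[], [], [], [], [(0, 0, [3])]⟩,
    ⟨[], [(0, 0), (0, 3)], [(0, 3)], [6], [(0, 0, [3]), (1, 3, [0])]⟩,
    ⟨[(0, 1)], [(1, 0), (1, 1), (1, 3)], [(1, 3)], [], [(1, 3, [0]), (3, 1, [])]⟩,
    ⟨[(0, 1)], [(0, 0), (0, 2), (1, 0)], [(0, 0), (0, 2)], [7], [(0, 0, [3]), (5, 2, [5]),
      (6, 0, [3])]⟩,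
    ⟨[(0, 1), (0, 2), (0, 3), (1, 2), (1, 3), (2, 3)], [(0, 0), (0, 1), (1, 0), (1, 1), (1,
      3), (2, 0), (2, 1), (2, 3), (3, 0), (3, 1), (3, 2)], [(0, 1), (1, 1)], [], [(3, 1, []),
      (6, 0, [3]), (7, 1, [])]⟩,
    ⟨[(0, 4), (1, 4), (2, 4), (3, 4)], [(2, 1), (4, 0), (4, 1), (4, 5)], [(1, 1), (1, 5)],
      [4], [(3, 1, []), (7, 1, []), (9, 5, [2])]⟩,
    ⟨[(4, 5)], [(3, 2), (4, 1), (5, 1), (5, 2), (5, 5)], [(1, 2)], [4], [(5, 2, [5]), (7,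
      1, [])]⟩]
  Ta := [((0, 2), 0, 6), ((0, 4), 0, 7), ((3, 1), 1, 3), ((3, 9), 1, 5), ((6, 5), 0, 2), ((6, 7),
    0, 1), ((7, 5), 1, 2), ((7, 6), 1, 0)]
  Tb := [((0, 2, 4), 0, 6, 7), ((1, 2, 3), 3, 6, 1), ((2, 0, 1), 6, 0, 3), ((3, 1, 9), 1, 3, 5),
    ((4, 0, 5), 7, 0, 2), ((5, 4, 6), 2, 7, 0), ((5, 4, 7), 2, 7, 1), ((5, 4, 8), 2, 7, 4),
    ((5, 6, 7), 2, 0, 1), ((5, 6, 8), 2, 0, 4), ((5, 7, 8), 2, 1, 4), ((6, 5, 7), 0, 2, 1),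
    ((7, 5, 6), 1, 2, 0), ((8, 5, 9), 4, 2, 5), ((9, 3, 8), 5, 1, 4)]
  Tc := []
  Td := [((0, 3), (0, 2), 6), ((0, 3), (0, 4), 7), ((0, 3), (6, 5), 2), ((0, 3), (6, 7), 1), ((2,
    5), (5, 4), 7), ((2, 5), (5, 6), 0), ((2, 5), (5, 7), 1), ((2, 5), (5, 8), 4), ((3, 0),
    (1, 2), 6), ((3, 0), (1, 3), 1), ((5, 2), (9, 3), 1), ((5, 2), (9, 8), 4)]
  G := [[0, 0, 0, 0, 0x821d428588ca12821d432528ca128518c28588ca1ca], [0, 0, 0,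
    0x891d444819cc11184c91184c9c441588c44819cc1e2,
    0x91588c212819945985889a28189c5191d8a2891d481ea], [0, 0, 0xc14a14aa18618cc14, 0,
    0x821d432518ca1a1528c121d8a192588c121d8a1e1], [0, 0x8ca4464c648ac88ce44c688cc618,
    0xc18c186214, 0x81948441415889cc891d444819cc1891d444819cc278,
    0x81994528985889198d8a491518c8198588c191d8a2f2]]

noncomputable def n2891 : Ent := ⟨e2891, noF, [], [], []⟩

def c2891 : PLift (Cov.check n2891.C.D v2891 = true) := ⟨by decide +kernel⟩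

def b2891 : PLift (entF (fidx ts) 400 2891 n2891 = true) := ⟨by decide +kernel⟩

theorem g2891 : GoodF (fidx ts) 400 2891 := GoodF.ofV v2891 n2891 c2891.down b2891.down

/-- 4646864:2288 -/
noncomputable def e2892 : SCfg where
  D := {
    a := 7
    L := 11
    kp := 8
    inn := [(0, 1), (0, 3), (0, 4), (1, 0), (1, 2), (1, 4), (2, 1), (2, 4), (3, 0), (3, 4), (4, 0), (4,
      1), (4, 2), (4, 3), (4, 5), (5, 4), (5, 6), (6, 5)]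
    mix := [(0, 0), (1, 0), (1, 1), (1, 2), (2, 1), (2, 3), (3, 0), (3, 4), (3, 5), (3, 6), (4, 3), (4,
      6), (4, 7), (5, 3), (5, 7), (5, 8), (5, 9), (6, 7), (6, 8), (6, 10)]
    cl := [0, 2, 4, 1, 5, 6, 0, 1, 3, 7, 8]
    chq := [(0, 2), (1, 3), (2, 0), (3, 1)]
    rng := [(0, 2), (0, 4), (1, 2), (1, 3), (2, 0), (2, 1), (3, 1), (3, 9), (4, 0), (4, 5), (5, 4), (5,
      6), (6, 5), (6, 7), (7, 6), (7, 10), (8, 9), (8, 10), (9, 3), (9, 8), (10, 7), (10, 8)]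
    lev := [] }
  links := [[1, 7, 3, 4], [7, 0, 4, 2, 8, 9], [8, 1, 4, 10], [4, 0, 7, 11, 12, 13], [10, 2, 1, 0, 3, 13,
    14, 5], [10, 4, 14, 6, 15, 16], [15, 5, 14, 17]]
  P := {
    a := 7
    N := 18
    nb := [154, 917, 1298, 14481, 25647, 115792, 180256, 2571, 1542, 386, 65844, 4232, 10248, 20504,
      139376, 196704, 33824, 49216]
    tri := [(0, 1, 4), (0, 1, 7), (0, 3, 4), (0, 3, 7), (1, 2, 4), (1, 2, 8), (1, 7, 9), (1, 8, 9), (2,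
      4, 10), (2, 8, 10), (3, 4, 13), (3, 7, 11), (3, 11, 12), (3, 12, 13), (4, 5, 10), (4, 5,
      14), (4, 13, 14), (5, 6, 14), (5, 6, 15), (5, 10, 16), (5, 15, 16), (6, 14, 17), (6, 15,
      17)]
    fin := [0, 0, 0, 0, 0, 5, 5, 0, 8, 9, 5, 11, 12, 0, 5, 15, 16, 17]
    chd := [(0, 8), (5, 15)]
    steps := [(0, 1), (0, 2), (0, 3), (0, 4), (0, 7), (0, 13), (5, 6), (5, 14), (5, 10)] }
  rep := [0, 5, 8, 15, 9, 11, 12, 16, 17]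

noncomputable def v2892 : Cov.CovD where
  P := 3
  N := 6
  pl := [2, 4, 5, 9, 10]
  lev := [⟨[], [], [], [], [(0, 0, [2])]⟩,
    ⟨[], [(0, 0), (0, 2)], [(0, 2)], [4], [(0, 0, [2]), (1, 2, [0])]⟩,
    ⟨[(0, 1)], [(1, 0), (1, 1), (1, 2)], [(1, 2)], [], [(1, 2, [0]), (3, 1, [3])]⟩,
    ⟨[(0, 1)], [(0, 0), (1, 0)], [(0, 0)], [5, 6], [(0, 0, [2]), (6, 0, [2])]⟩,
    ⟨[(0, 1), (0, 2), (0, 3), (1, 2), (1, 3), (2, 3)], [(0, 0), (0, 1), (1, 0), (1, 1), (1,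
      2), (2, 0), (2, 1), (2, 2), (3, 0), (3, 1)], [(0, 1), (1, 1)], [], [(3, 1, [3]), (6, 0,
      [2]), (7, 1, [3])]⟩,
    ⟨[(0, 4), (1, 4), (2, 4), (3, 4)], [(2, 1), (4, 0), (4, 1), (4, 3)], [(1, 1), (1, 3)],
      [7], [(3, 1, [3]), (7, 1, [3]), (8, 3, [1])]⟩,
    ⟨[(4, 5)], [(4, 1), (5, 1), (5, 3)], [(1, 3)], [8], [(7, 1, [3]), (8, 3, [1])]⟩]
  Ta := [((0, 2), 0, 4), ((0, 4), 0, 5), ((3, 1), 1, 2), ((3, 9), 1, 7), ((6, 5), 0, 6), ((6, 7),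
    0, 1), ((7, 6), 1, 0), ((7, 10), 1, 8)]
  Tb := [((0, 2, 4), 0, 4, 5), ((1, 2, 3), 2, 4, 1), ((2, 0, 1), 4, 0, 2), ((3, 1, 9), 1, 2, 7),
    ((4, 0, 5), 5, 0, 6), ((5, 4, 6), 6, 5, 0), ((6, 5, 7), 0, 6, 1), ((7, 6, 10), 1, 0, 8),
    ((8, 9, 10), 3, 7, 8), ((9, 3, 8), 7, 1, 3), ((10, 7, 8), 8, 1, 3)]
  Tc := []
  Td := [((0, 2), (0, 2), 4), ((0, 2), (0, 4), 5), ((0, 2), (6, 5), 6), ((0, 2), (6, 7), 1), ((1,
    3), (3, 1), 2), ((1, 3), (3, 9), 7), ((1, 3), (7, 6), 0), ((1, 3), (7, 10), 8), ((2, 0),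
    (1, 2), 4), ((2, 0), (1, 3), 1), ((3, 1), (8, 9), 7), ((3, 1), (8, 10), 8)]
  G := [[0, 0, 0x3a6d42d9745ea6d4e8365a89613ac936dd8e4c2,
    0x22924522c1c2182122c96c4222d422528c222d4e18a,
    0x63ad431d6c563ad4e8261a3c53a9645727d4e88a], [0, 0,
    0xd1ddc5dd9d45d1ddc5e8dd5d89d1ddc9d1ddc9e4c2, 0,
    0xdd9d45ddc1dd9d45ed1849dd9d45dd5d89d1ddc5e8a4], [0, 0,
    0xa36d424dd9c3a6d4e164a39c763d86add8e1c2, 0x22528c222d8222d8e412,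
    0xab3d4365a8cdd528ce812], [0, 0xe2eec6ee6e8ae4eeace814,
    0xd1ddc5ddc1dd9d45ed184add9d45dd5d89dd5d8ce8a4, 0, 0x44d9ddcd4dd9cdd5d8ce212]]

noncomputable def n2892 : Ent := ⟨e2892, noF, [], [], [(12, 17, [6903326391201334775872065844685381424292761054348340378595029941530625, 0])]⟩

def c2892 : PLift (Cov.check n2892.C.D v2892 = true) := ⟨by decide +kernel⟩

def b2892 : PLift (entF (fidx ts) 400 2892 n2892 = true) := ⟨by decide +kernel⟩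

theorem g2892 : GoodF (fidx ts) 400 2892 := GoodF.ofV v2892 n2892 c2892.down b2892.down

/-- 4646864:2289/1 -/
noncomputable def e2893 : SCfg where
  D := {
    a := 7
    L := 10
    kp := 7
    inn := [(0, 1), (0, 3), (0, 4), (1, 0), (1, 2), (1, 4), (2, 1), (2, 4), (3, 0), (3, 4), (4, 0), (4,
      1), (4, 2), (4, 3), (4, 5), (5, 4), (5, 6), (6, 5)]
    mix := [(0, 0), (1, 0), (1, 1), (1, 2), (2, 1), (2, 3), (3, 0), (3, 4), (3, 5), (3, 6), (4, 3), (4,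
      6), (4, 7), (5, 3), (5, 7), (5, 8), (5, 9), (6, 0), (6, 8), (6, 9)]
    cl := [0, 2, 5, 1, 6, 7, 0, 1, 3, 4]
    chq := [(0, 2), (2, 0), (3, 4), (4, 3)]
    rng := [(0, 2), (0, 4), (0, 8), (0, 9), (1, 2), (1, 3), (2, 0), (2, 1), (3, 1), (3, 9), (4, 0), (4,
      5), (5, 4), (5, 6), (6, 5), (6, 7), (7, 6), (7, 8), (8, 0), (8, 7), (9, 0), (9, 3)]
    lev := [] }
  links := [[1, 7, 3, 4], [7, 0, 4, 2, 8, 9], [8, 1, 4, 10], [4, 0, 7, 11, 12, 13], [10, 2, 1, 0, 3, 13,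
    14, 5], [10, 4, 14, 15, 6, 16], [16, 5, 15, 7]]
  P := {
    a := 7
    N := 17
    nb := [154, 917, 1298, 14481, 25647, 115792, 98464, 100939, 1542, 386, 65844, 4232, 10248, 20504,
      41008, 16608, 1248]
    tri := [(0, 1, 4), (0, 1, 7), (0, 3, 4), (0, 3, 7), (1, 2, 4), (1, 2, 8), (1, 7, 9), (1, 8, 9), (2,
      4, 10), (2, 8, 10), (3, 4, 13), (3, 7, 11), (3, 11, 12), (3, 12, 13), (4, 5, 10), (4, 5,
      14), (4, 13, 14), (5, 6, 15), (5, 6, 16), (5, 10, 16), (5, 14, 15), (6, 7, 15), (6, 7, 16)]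
    fin := [0, 0, 0, 0, 0, 5, 6, 0, 8, 9, 5, 11, 12, 0, 5, 6, 16]
    chd := [(0, 8), (6, 16)]
    steps := [(0, 1), (0, 2), (0, 3), (0, 4), (0, 7), (0, 13), (5, 14), (5, 10), (6, 15)] }
  rep := [0, 5, 8, 6, 16, 9, 11, 12]

noncomputable def v2893 : Cov.CovD where
  P := 3
  N := 5
  pl := [2, 4, 5]
  lev := [⟨[], [], [], [], [(0, 0, [2])]⟩,
    ⟨[], [(0, 0), (0, 2)], [(0, 2)], [5], [(0, 0, [2]), (1, 2, [0])]⟩,
    ⟨[(0, 1)], [(1, 0), (1, 1), (1, 2)], [(1, 2)], [], [(1, 2, [0]), (3, 1, [])]⟩,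
    ⟨[(0, 1)], [(0, 0), (1, 0)], [(0, 0)], [6, 7], [(0, 0, [2]), (6, 0, [2])]⟩,
    ⟨[(0, 1), (0, 2), (0, 3), (1, 2), (1, 3), (2, 3)], [(0, 0), (0, 1), (1, 0), (1, 1), (1,
      2), (2, 0), (2, 1), (2, 2), (3, 0), (3, 1)], [(0, 1), (1, 1)], [], [(3, 1, []), (6, 0,
      [2]), (7, 1, [])]⟩,
    ⟨[(0, 4), (1, 4), (2, 4), (3, 4)], [(2, 1), (4, 0), (4, 1), (4, 3), (4, 4)], [(1, 1),
      (1, 3), (1, 4), (3, 4)], [], [(3, 1, []), (7, 1, []), (8, 3, [4]), (9, 4, [3])]⟩,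
    ⟨[(4, 5)], [(0, 0), (1, 0), (3, 0), (5, 0), (5, 1), (5, 3), (5, 4)], [(0, 3), (0, 4),
      (3, 4)], [], [(0, 0, [2]), (8, 3, [4]), (9, 4, [3])]⟩]
  Ta := [((0, 2), 0, 5), ((0, 4), 0, 6), ((0, 8), 0, 3), ((0, 9), 0, 4), ((3, 1), 1, 2), ((3, 9),
    1, 4), ((6, 5), 0, 7), ((6, 7), 0, 1), ((7, 6), 1, 0), ((7, 8), 1, 3)]
  Tb := [((0, 2, 4), 0, 5, 6), ((0, 2, 8), 0, 5, 3), ((0, 2, 9), 0, 5, 4), ((0, 4, 8), 0, 6, 3),
    ((0, 4, 9), 0, 6, 4), ((0, 8, 9), 0, 3, 4), ((1, 2, 3), 2, 5, 1), ((2, 0, 1), 5, 0, 2),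
    ((3, 1, 9), 1, 2, 4), ((4, 0, 5), 6, 0, 7), ((5, 4, 6), 7, 6, 0), ((6, 5, 7), 0, 7, 1),
    ((7, 6, 8), 1, 0, 3), ((8, 0, 7), 3, 0, 1), ((9, 0, 3), 4, 0, 1)]
  Tc := []
  Td := [((0, 2), (0, 2), 5), ((0, 2), (0, 4), 6), ((0, 2), (0, 8), 3), ((0, 2), (0, 9), 4), ((0,
    2), (6, 5), 7), ((0, 2), (6, 7), 1), ((2, 0), (1, 2), 5), ((2, 0), (1, 3), 1), ((3, 4),
    (8, 0), 0), ((3, 4), (8, 7), 1), ((4, 3), (9, 0), 0), ((4, 3), (9, 3), 1)]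
  G := [[0, 0, 0xe18e18e18e4e14e18e14e461, 0x2122c52124c92184c9e422588c222d8242d8e1c2,
    0x2184c584c1829445e2184944829c24ad844829ce1a4], [0, 0, 0xe14e18e14e1e14e18e18e8a4, 0,
    0x2184c52184c9425889e224869c24ad842588ce1a4], [0, 0, 0xe14e18e14e4e14e18e18e4a1,
    0x214218218e812, 0xe14e14e18e812], [0, 0x42688a2284ca2284cae414,
    0xe1844e18e18a2a1445e18e18e8e4, 0, 0xe18e18e18e212]]

noncomputable def n2893 : Ent := ⟨e2893, noF, [], [], []⟩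

def c2893 : PLift (Cov.check n2893.C.D v2893 = true) := ⟨by decide +kernel⟩

def b2893 : PLift (entF (fidx ts) 400 2893 n2893 = true) := ⟨by decide +kernel⟩

theorem g2893 : GoodF (fidx ts) 400 2893 := GoodF.ofV v2893 n2893 c2893.down b2893.down

/-- 4646864:2289/2 -/
noncomputable def e2894 : SCfg where
  D := {
    a := 7
    L := 10
    kp := 7
    inn := [(0, 1), (0, 3), (0, 4), (1, 0), (1, 2), (1, 4), (2, 1), (2, 4), (3, 0), (3, 4), (4, 0), (4,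
      1), (4, 2), (4, 3), (4, 5), (5, 4), (5, 6), (6, 5)]
    mix := [(0, 0), (1, 0), (1, 1), (1, 2), (2, 1), (2, 3), (3, 0), (3, 4), (3, 5), (3, 6), (4, 3), (4,
      6), (4, 7), (5, 3), (5, 7), (5, 8), (5, 9), (6, 4), (6, 8), (6, 9)]
    cl := [0, 3, 6, 1, 2, 7, 0, 1, 4, 5]
    chq := [(0, 3), (1, 2), (2, 1), (3, 0)]
    rng := [(0, 2), (0, 4), (1, 2), (1, 3), (2, 0), (2, 1), (3, 1), (3, 9), (4, 0), (4, 5), (4, 8), (4,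
      9), (5, 4), (5, 6), (6, 5), (6, 7), (7, 6), (7, 8), (8, 4), (8, 7), (9, 3), (9, 4)]
    lev := [] }
  links := [[1, 7, 3, 4], [7, 0, 4, 2, 8, 9], [8, 1, 4, 10], [4, 0, 7, 11, 12, 13], [10, 2, 1, 0, 3, 13,
    14, 5], [10, 4, 14, 15, 6, 16], [16, 5, 15, 11]]
  P := {
    a := 7
    N := 17
    nb := [154, 917, 1298, 14481, 25647, 115792, 100384, 2571, 1542, 386, 65844, 102600, 10248, 20504,
      41008, 18528, 3168]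
    tri := [(0, 1, 4), (0, 1, 7), (0, 3, 4), (0, 3, 7), (1, 2, 4), (1, 2, 8), (1, 7, 9), (1, 8, 9), (2,
      4, 10), (2, 8, 10), (3, 4, 13), (3, 7, 11), (3, 11, 12), (3, 12, 13), (4, 5, 10), (4, 5,
      14), (4, 13, 14), (5, 6, 15), (5, 6, 16), (5, 10, 16), (5, 14, 15), (6, 11, 15), (6, 11,
      16)]
    fin := [0, 0, 0, 0, 4, 5, 5, 0, 8, 9, 4, 5, 12, 0, 4, 15, 16]
    chd := [(0, 8), (4, 5)]
    steps := [(0, 1), (0, 2), (0, 3), (0, 7), (0, 13), (4, 14), (4, 10), (5, 6), (5, 11)] }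
  rep := [0, 4, 5, 8, 15, 16, 9, 12]

noncomputable def v2894 : Cov.CovD where
  P := 3
  N := 5
  pl := [2, 5, 8, 9]
  lev := [⟨[], [], [], [], [(0, 0, [3])]⟩,
    ⟨[], [(0, 0), (0, 3)], [(0, 3)], [6], [(0, 0, [3]), (1, 3, [0])]⟩,
    ⟨[(0, 1)], [(1, 0), (1, 1), (1, 3)], [(1, 3)], [], [(1, 3, [0]), (3, 1, [2])]⟩,
    ⟨[(0, 1)], [(0, 0), (0, 2), (1, 0)], [(0, 0), (0, 2)], [7], [(0, 0, [3]), (4, 2, [1]),
      (6, 0, [3])]⟩,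
    ⟨[(0, 1), (0, 2), (0, 3), (1, 2), (1, 3), (2, 3)], [(0, 0), (0, 1), (1, 0), (1, 1), (1,
      3), (2, 0), (2, 1), (2, 3), (3, 0), (3, 1), (3, 2)], [(0, 1), (1, 1)], [], [(3, 1,
      [2]), (6, 0, [3]), (7, 1, [2])]⟩,
    ⟨[(0, 4), (1, 4), (2, 4), (3, 4)], [(2, 1), (4, 0), (4, 1)], [(1, 1)], [4, 5], [(3, 1,
      [2]), (7, 1, [2])]⟩,
    ⟨[(4, 5)], [(3, 2), (5, 1), (5, 2)], [], [4, 5], [(4, 2, [1])]⟩]
  Ta := [((0, 2), 0, 6), ((0, 4), 0, 2), ((3, 1), 1, 3), ((3, 9), 1, 5), ((6, 5), 0, 7), ((6, 7),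
    0, 1), ((7, 6), 1, 0), ((7, 8), 1, 4)]
  Tb := [((0, 2, 4), 0, 6, 2), ((1, 2, 3), 3, 6, 1), ((2, 0, 1), 6, 0, 3), ((3, 1, 9), 1, 3, 5),
    ((4, 0, 5), 2, 0, 7), ((4, 0, 8), 2, 0, 4), ((4, 0, 9), 2, 0, 5), ((4, 5, 8), 2, 7, 4),
    ((4, 5, 9), 2, 7, 5), ((4, 8, 9), 2, 4, 5), ((5, 4, 6), 7, 2, 0), ((6, 5, 7), 0, 7, 1),
    ((7, 6, 8), 1, 0, 4), ((8, 4, 7), 4, 2, 1), ((9, 3, 4), 5, 1, 2)]
  Tc := []
  Td := [((0, 3), (0, 2), 6), ((0, 3), (0, 4), 2), ((0, 3), (6, 5), 7), ((0, 3), (6, 7), 1), ((1,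
    2), (3, 1), 3), ((1, 2), (3, 9), 5), ((1, 2), (7, 6), 0), ((1, 2), (7, 8), 4), ((2, 1),
    (4, 0), 0), ((2, 1), (4, 5), 7), ((2, 1), (4, 8), 4), ((2, 1), (4, 9), 5), ((3, 0), (1,
    2), 6), ((3, 0), (1, 3), 1)]
  G := [[0, 0, 0xe14e14a1e18e18a1e18e18c1e4, 0x819445221184c92241588c21e4,
    0x24819c212821d4821d4a12158891182c9a4821d481e6], [0, 0, 0xe14e18c1e18e18c2e18e14c1e2,
    0x415889224158892241588c21e4, 0x821d421588ca12821d4821d4a121588c2a1d8a1ca], [0, 0, 0,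
    0x44819c2244819c2141588c22b4, 0x821d4821d4a8821d48121588c24819ca4b821d42123], [0,
    0x141e2141e8c11a446141e8c614, 0, 0x4158892244819c2144819c2274,
    0x8192451182c9a2821d421588ca1821d4821d4a278]]

noncomputable def n2894 : Ent := ⟨e2894, noF, [], [], []⟩

def c2894 : PLift (Cov.check n2894.C.D v2894 = true) := ⟨by decide +kernel⟩

def b2894 : PLift (entF (fidx ts) 400 2894 n2894 = true) := ⟨by decide +kernel⟩

theorem g2894 : GoodF (fidx ts) 400 2894 := GoodF.ofV v2894 n2894 c2894.down b2894.down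

/-- 4646864:2289/3 -/
noncomputable def e2895 : SCfg where
  D := {
    a := 7
    L := 10
    kp := 7
    inn := [(0, 1), (0, 3), (0, 4), (1, 0), (1, 2), (1, 4), (2, 1), (2, 4), (3, 0), (3, 4), (4, 0), (4,
      1), (4, 2), (4, 3), (4, 5), (5, 4), (5, 6), (6, 5)]
    mix := [(0, 0), (1, 0), (1, 1), (1, 2), (2, 1), (2, 3), (3, 0), (3, 4), (3, 5), (3, 6), (4, 3), (4,
      6), (4, 7), (5, 3), (5, 7), (5, 8), (5, 9), (6, 5), (6, 8), (6, 9)]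
    cl := [0, 3, 6, 1, 7, 2, 0, 1, 4, 5]
    chq := [(0, 3), (1, 2), (2, 1), (3, 0)]
    rng := [(0, 2), (0, 4), (1, 2), (1, 3), (2, 0), (2, 1), (3, 1), (3, 9), (4, 0), (4, 5), (5, 4), (5,
      6), (5, 8), (5, 9), (6, 5), (6, 7), (7, 6), (7, 8), (8, 5), (8, 7), (9, 3), (9, 5)]
    lev := [] }
  links := [[1, 7, 3, 4], [7, 0, 4, 2, 8, 9], [8, 1, 4, 10], [4, 0, 7, 11, 12, 13], [10, 2, 1, 0, 3, 13,
    14, 5], [10, 4, 14, 15, 6, 16], [16, 5, 15, 12]]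
  P := {
    a := 7
    N := 17
    nb := [154, 917, 1298, 14481, 25647, 115792, 102432, 2571, 1542, 386, 65844, 4232, 108616, 20504,
      41008, 20576, 5216]
    tri := [(0, 1, 4), (0, 1, 7), (0, 3, 4), (0, 3, 7), (1, 2, 4), (1, 2, 8), (1, 7, 9), (1, 8, 9), (2,
      4, 10), (2, 8, 10), (3, 4, 13), (3, 7, 11), (3, 11, 12), (3, 12, 13), (4, 5, 10), (4, 5,
      14), (4, 13, 14), (5, 6, 15), (5, 6, 16), (5, 10, 16), (5, 14, 15), (6, 12, 15), (6, 12,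
      16)]
    fin := [0, 0, 0, 0, 4, 5, 5, 0, 8, 9, 4, 11, 5, 0, 4, 15, 16]
    chd := [(0, 8), (4, 5)]
    steps := [(0, 1), (0, 2), (0, 3), (0, 7), (0, 13), (4, 14), (4, 10), (5, 6), (5, 12)] }
  rep := [0, 4, 5, 8, 15, 16, 9, 11]

noncomputable def v2895 : Cov.CovD where
  P := 3
  N := 5
  pl := [2, 4, 8, 9]
  lev := [⟨[], [], [], [], [(0, 0, [3])]⟩,
    ⟨[], [(0, 0), (0, 3)], [(0, 3)], [6], [(0, 0, [3]), (1, 3, [0])]⟩,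
    ⟨[(0, 1)], [(1, 0), (1, 1), (1, 3)], [(1, 3)], [], [(1, 3, [0]), (3, 1, [2])]⟩,
    ⟨[(0, 1)], [(0, 0), (0, 2), (1, 0)], [(0, 0), (0, 2)], [7], [(0, 0, [3]), (5, 2, [1]),
      (6, 0, [3])]⟩,
    ⟨[(0, 1), (0, 2), (0, 3), (1, 2), (1, 3), (2, 3)], [(0, 0), (0, 1), (1, 0), (1, 1), (1,
      3), (2, 0), (2, 1), (2, 3), (3, 0), (3, 1), (3, 2)], [(0, 1), (1, 1)], [], [(3, 1,
      [2]), (6, 0, [3]), (7, 1, [2])]⟩,
    ⟨[(0, 4), (1, 4), (2, 4), (3, 4)], [(2, 1), (4, 0), (4, 1)], [(1, 1)], [4, 5], [(3, 1,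
      [2]), (7, 1, [2])]⟩,
    ⟨[(4, 5)], [(3, 2), (5, 1), (5, 2)], [], [4, 5], [(5, 2, [1])]⟩]
  Ta := [((0, 2), 0, 6), ((0, 4), 0, 7), ((3, 1), 1, 3), ((3, 9), 1, 5), ((6, 5), 0, 2), ((6, 7),
    0, 1), ((7, 6), 1, 0), ((7, 8), 1, 4)]
  Tb := [((0, 2, 4), 0, 6, 7), ((1, 2, 3), 3, 6, 1), ((2, 0, 1), 6, 0, 3), ((3, 1, 9), 1, 3, 5),
    ((4, 0, 5), 7, 0, 2), ((5, 4, 6), 2, 7, 0), ((5, 4, 8), 2, 7, 4), ((5, 4, 9), 2, 7, 5),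
    ((5, 6, 8), 2, 0, 4), ((5, 6, 9), 2, 0, 5), ((5, 8, 9), 2, 4, 5), ((6, 5, 7), 0, 2, 1),
    ((7, 6, 8), 1, 0, 4), ((8, 5, 7), 4, 2, 1), ((9, 3, 5), 5, 1, 2)]
  Tc := []
  Td := [((0, 3), (0, 2), 6), ((0, 3), (0, 4), 7), ((0, 3), (6, 5), 2), ((0, 3), (6, 7), 1), ((1,
    2), (3, 1), 3), ((1, 2), (3, 9), 5), ((1, 2), (7, 6), 0), ((1, 2), (7, 8), 4), ((2, 1),
    (5, 4), 7), ((2, 1), (5, 6), 0), ((2, 1), (5, 8), 4), ((2, 1), (5, 9), 5), ((3, 0), (1,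
    2), 6), ((3, 0), (1, 3), 1)]
  G := [[0, 0, 0, 0x8194452241588c2241588c21e8,
    0x821d4212418819421588ca5821d4821d4a1e821d4818a], [0, 0, 0, 0x44819c214158892241588c21e4,
    0x8192451182c9a22158891182c9a224819c2a1d8a1e4], [0, 0, 0xe14e18ae18e186c14,
    0x41588c2144819c2144819c22b4, 0x821d4821d4a12482a1d8a819485821d4821d4a1e1], [0,
    0x141e2141e8c4411ac1214cac614, 0xe14e18a218, 0x8194452841588c2144819c2278,
    0x821d421821d4821d4a1821d4821d4a2b821d48189]]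

noncomputable def n2895 : Ent := ⟨e2895, noF, [], [], []⟩

def c2895 : PLift (Cov.check n2895.C.D v2895 = true) := ⟨by decide +kernel⟩

def b2895 : PLift (entF (fidx ts) 400 2895 n2895 = true) := ⟨by decide +kernel⟩

theorem g2895 : GoodF (fidx ts) 400 2895 := GoodF.ofV v2895 n2895 c2895.down b2895.down

/-- 4646864:2289/4 -/
noncomputable def e2896 : SCfg where
  D := {
    a := 7
    L := 10
    kp := 7
    inn := [(0, 1), (0, 3), (0, 4), (1, 0), (1, 2), (1, 4), (2, 1), (2, 4), (3, 0), (3, 4), (4, 0), (4,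
      1), (4, 2), (4, 3), (4, 5), (5, 4), (5, 6), (6, 5)]
    mix := [(0, 0), (1, 0), (1, 1), (1, 2), (2, 1), (2, 3), (3, 0), (3, 4), (3, 5), (3, 6), (4, 3), (4,
      6), (4, 7), (5, 3), (5, 7), (5, 8), (5, 9), (6, 2), (6, 8), (6, 9)]
    cl := [0, 2, 3, 1, 6, 7, 0, 1, 4, 5]
    chq := [(0, 2), (1, 3), (2, 0), (3, 1)]
    rng := [(0, 2), (0, 4), (1, 2), (1, 3), (2, 0), (2, 1), (2, 8), (2, 9), (3, 1), (3, 9), (4, 0), (4,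
      5), (5, 4), (5, 6), (6, 5), (6, 7), (7, 6), (7, 8), (8, 2), (8, 7), (9, 2), (9, 3)]
    lev := [] }
  links := [[1, 7, 3, 4], [7, 0, 4, 2, 8, 9], [8, 1, 4, 10], [4, 0, 7, 11, 12, 13], [10, 2, 1, 0, 3, 13,
    14, 5], [10, 4, 14, 15, 6, 16], [16, 5, 15, 9]]
  P := {
    a := 7
    N := 17
    nb := [154, 917, 1298, 14481, 25647, 115792, 98848, 2571, 1542, 98754, 65844, 4232, 10248, 20504,
      41008, 16992, 1632]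
    tri := [(0, 1, 4), (0, 1, 7), (0, 3, 4), (0, 3, 7), (1, 2, 4), (1, 2, 8), (1, 7, 9), (1, 8, 9), (2,
      4, 10), (2, 8, 10), (3, 4, 13), (3, 7, 11), (3, 11, 12), (3, 12, 13), (4, 5, 10), (4, 5,
      14), (4, 13, 14), (5, 6, 15), (5, 6, 16), (5, 10, 16), (5, 14, 15), (6, 9, 15), (6, 9, 16)]
    fin := [0, 0, 0, 0, 0, 5, 5, 0, 8, 9, 5, 11, 12, 0, 5, 15, 16]
    chd := [(0, 8), (9, 5)]
    steps := [(0, 1), (0, 2), (0, 3), (0, 4), (0, 7), (0, 13), (5, 6), (5, 14), (5, 10)] }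
  rep := [0, 5, 8, 9, 15, 16, 11, 12]

noncomputable def v2896 : Cov.CovD where
  P := 3
  N := 5
  pl := [4, 5, 8, 9]
  lev := [⟨[], [], [], [], [(0, 0, [2])]⟩,
    ⟨[], [(0, 0), (0, 2), (0, 3)], [(0, 2), (0, 3), (2, 3)], [], [(0, 0, [2]), (1, 2, [0]),
      (2, 3, [1])]⟩,
    ⟨[(0, 1)], [(1, 0), (1, 1), (1, 2), (1, 3)], [(1, 2)], [], [(1, 2, [0]), (3, 1, [3])]⟩,
    ⟨[(0, 1)], [(0, 0), (1, 0)], [(0, 0)], [6, 7], [(0, 0, [2]), (6, 0, [2])]⟩,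
    ⟨[(0, 1), (0, 2), (0, 3), (1, 2), (1, 3), (2, 3)], [(0, 0), (0, 1), (1, 0), (1, 1), (1,
      2), (1, 3), (2, 0), (2, 1), (2, 2), (3, 0), (3, 1)], [(0, 1), (1, 1)], [], [(3, 1,
      [3]), (6, 0, [2]), (7, 1, [3])]⟩,
    ⟨[(0, 4), (1, 4), (2, 4), (3, 4)], [(2, 1), (4, 0), (4, 1)], [(1, 1)], [4, 5], [(3, 1,
      [3]), (7, 1, [3])]⟩,
    ⟨[(4, 5)], [(1, 3), (5, 1), (5, 3)], [], [4, 5], [(2, 3, [1])]⟩]
  Ta := [((0, 2), 0, 3), ((0, 4), 0, 6), ((3, 1), 1, 2), ((3, 9), 1, 5), ((6, 5), 0, 7), ((6, 7),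
    0, 1), ((7, 6), 1, 0), ((7, 8), 1, 4)]
  Tb := [((0, 2, 4), 0, 3, 6), ((1, 2, 3), 2, 3, 1), ((2, 0, 1), 3, 0, 2), ((2, 0, 8), 3, 0, 4),
    ((2, 0, 9), 3, 0, 5), ((2, 1, 8), 3, 2, 4), ((2, 1, 9), 3, 2, 5), ((2, 8, 9), 3, 4, 5),
    ((3, 1, 9), 1, 2, 5), ((4, 0, 5), 6, 0, 7), ((5, 4, 6), 7, 6, 0), ((6, 5, 7), 0, 7, 1),
    ((7, 6, 8), 1, 0, 4), ((8, 2, 7), 4, 3, 1), ((9, 2, 3), 5, 3, 1)]
  Tc := []
  Td := [((0, 2), (0, 2), 3), ((0, 2), (0, 4), 6), ((0, 2), (6, 5), 7), ((0, 2), (6, 7), 1), ((1,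
    3), (3, 1), 2), ((1, 3), (3, 9), 5), ((1, 3), (7, 6), 0), ((1, 3), (7, 8), 4), ((2, 0),
    (1, 2), 3), ((2, 0), (1, 3), 1), ((3, 1), (2, 0), 0), ((3, 1), (2, 1), 2), ((3, 1), (2,
    8), 4), ((3, 1), (2, 9), 5)]
  G := [[0, 0, 0x615a8911a6c9615a89e424, 0x821d422528c222d4e144229c221d8242d8e1c2,
    0x31a6c531a6c964a39ce824], [0, 0, 0x615a8c261d88c44a21dce121, 0,
    0x31a6c5a39645a23d445e828], [0, 0, 0xa19645615a89a19645e428, 0x222d422528c221d4e812,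
    0x6a1d4615a8ce21d4e812], [0, 0x11a146111e211a146e814, 0x881464a19c261d8615a8ce524, 0,
    0xe21d4e21d4ae1528c4a18]]

noncomputable def n2896 : Ent := ⟨e2896, noF, [], [], []⟩

def c2896 : PLift (Cov.check n2896.C.D v2896 = true) := ⟨by decide +kernel⟩

def b2896 : PLift (entF (fidx ts) 400 2896 n2896 = true) := ⟨by decide +kernel⟩

theorem g2896 : GoodF (fidx ts) 400 2896 := GoodF.ofV v2896 n2896 c2896.down b2896.down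

/-- 4646864:2289 -/
noncomputable def e2897 : SCfg where
  D := {
    a := 7
    L := 11
    kp := 8
    inn := [(0, 1), (0, 3), (0, 4), (1, 0), (1, 2), (1, 4), (2, 1), (2, 4), (3, 0), (3, 4), (4, 0), (4,
      1), (4, 2), (4, 3), (4, 5), (5, 4), (5, 6), (6, 5)]
    mix := [(0, 0), (1, 0), (1, 1), (1, 2), (2, 1), (2, 3), (3, 0), (3, 4), (3, 5), (3, 6), (4, 3), (4,
      6), (4, 7), (5, 3), (5, 7), (5, 8), (5, 9), (6, 8), (6, 9), (6, 10)]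
    cl := [0, 2, 6, 1, 7, 8, 0, 1, 3, 4, 5]
    chq := [(0, 2), (1, 5), (2, 0), (5, 1)]
    rng := [(0, 2), (0, 4), (1, 2), (1, 3), (2, 0), (2, 1), (3, 1), (3, 9), (4, 0), (4, 5), (5, 4), (5,
      6), (6, 5), (6, 7), (7, 6), (7, 8), (8, 7), (8, 10), (9, 3), (9, 10), (10, 8), (10, 9)]
    lev := [] }
  links := [[1, 7, 3, 4], [7, 0, 4, 2, 8, 9], [8, 1, 4, 10], [4, 0, 7, 11, 12, 13], [10, 2, 1, 0, 3, 13,
    14, 5], [10, 4, 14, 15, 6, 16], [16, 5, 15, 17]]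
  P := {
    a := 7
    N := 18
    nb := [154, 917, 1298, 14481, 25647, 115792, 229408, 2571, 1542, 386, 65844, 4232, 10248, 20504,
      41008, 147552, 132192, 98368]
    tri := [(0, 1, 4), (0, 1, 7), (0, 3, 4), (0, 3, 7), (1, 2, 4), (1, 2, 8), (1, 7, 9), (1, 8, 9), (2,
      4, 10), (2, 8, 10), (3, 4, 13), (3, 7, 11), (3, 11, 12), (3, 12, 13), (4, 5, 10), (4, 5,
      14), (4, 13, 14), (5, 6, 15), (5, 6, 16), (5, 10, 16), (5, 14, 15), (6, 15, 17), (6, 16,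
      17)]
    fin := [0, 0, 0, 0, 0, 5, 5, 0, 8, 9, 5, 11, 12, 0, 5, 15, 16, 17]
    chd := [(0, 8), (5, 17)]
    steps := [(0, 1), (0, 2), (0, 3), (0, 4), (0, 7), (0, 13), (5, 6), (5, 14), (5, 10)] }
  rep := [0, 5, 8, 15, 16, 17, 9, 11, 12]

noncomputable def v2897 : Cov.CovD where
  P := 3
  N := 6
  pl := [2, 4, 5, 8, 9]
  lev := [⟨[], [], [], [], [(0, 0, [2])]⟩,
    ⟨[], [(0, 0), (0, 2)], [(0, 2)], [6], [(0, 0, [2]), (1, 2, [0])]⟩,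
    ⟨[(0, 1)], [(1, 0), (1, 1), (1, 2)], [(1, 2)], [], [(1, 2, [0]), (3, 1, [5])]⟩,
    ⟨[(0, 1)], [(0, 0), (1, 0)], [(0, 0)], [7, 8], [(0, 0, [2]), (6, 0, [2])]⟩,
    ⟨[(0, 1), (0, 2), (0, 3), (1, 2), (1, 3), (2, 3)], [(0, 0), (0, 1), (1, 0), (1, 1), (1,
      2), (2, 0), (2, 1), (2, 2), (3, 0), (3, 1)], [(0, 1), (1, 1)], [], [(3, 1, [5]), (6, 0,
      [2]), (7, 1, [5])]⟩,
    ⟨[(0, 4), (1, 4), (2, 4), (3, 4)], [(2, 1), (4, 0), (4, 1)], [(1, 1)], [3, 4], [(3, 1,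
      [5]), (7, 1, [5])]⟩,
    ⟨[(4, 5)], [(5, 1), (5, 5)], [], [3, 4], [(10, 5, [1])]⟩]
  Ta := [((0, 2), 0, 6), ((0, 4), 0, 7), ((3, 1), 1, 2), ((3, 9), 1, 4), ((6, 5), 0, 8), ((6, 7),
    0, 1), ((7, 6), 1, 0), ((7, 8), 1, 3)]
  Tb := [((0, 2, 4), 0, 6, 7), ((1, 2, 3), 2, 6, 1), ((2, 0, 1), 6, 0, 2), ((3, 1, 9), 1, 2, 4),
    ((4, 0, 5), 7, 0, 8), ((5, 4, 6), 8, 7, 0), ((6, 5, 7), 0, 8, 1), ((7, 6, 8), 1, 0, 3),
    ((8, 7, 10), 3, 1, 5), ((9, 3, 10), 4, 1, 5), ((10, 8, 9), 5, 3, 4)]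
  Tc := []
  Td := [((0, 2), (0, 2), 6), ((0, 2), (0, 4), 7), ((0, 2), (6, 5), 8), ((0, 2), (6, 7), 1), ((1,
    5), (3, 1), 2), ((1, 5), (3, 9), 4), ((1, 5), (7, 6), 0), ((1, 5), (7, 8), 3), ((2, 0),
    (1, 2), 6), ((2, 0), (1, 3), 1), ((5, 1), (10, 8), 3), ((5, 1), (10, 9), 4)]
  G := [[0, 0, 0xe27d431a6c531a6c5e831a6c5635a89635a8ce8c2,
    0x222d42122c5222d4e82122c9222d8222d8e4c2, 0xa39645a81a39645e63584964a39c2ebd82ebd8e1a4],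
    [0, 0, 0x31a6c5e27d46231a6c588e27d464a39ce27d4e1e8, 0,
    0x31a6c5635a8964a39ce264a39c2ebd82ebd8e1a4], [0, 0,
    0xe27d4a3964531a6c5e831a6c5635a89635a89e8c2, 0x22528c222d8222d8e412,
    0xe27d4635a8ce27d4e812], [0, 0x11618c111e8111e8e412,
    0xe27d4635a8c635a8ce2635a8c2ebd864a39ce4a1, 0, 0xe27d464a39ce27d4e218]]

noncomputable def n2897 : Ent := ⟨e2897, noF, [], [], [(7, 17, [6903326391201334775872065844685381424292761054348340378595029941538817, 0]), (11, 17, [6903326391201334775872065844685381424292761054348340378595029941542913, 0]), (12, 17, [6903326391201334775872065844685381424292761054348340378595029941547009, 0]), (17, 9, [6903326391201334775872066023091343012537746186634086559781921989394433, 0])]⟩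

def c2897 : PLift (Cov.check n2897.C.D v2897 = true) := ⟨by decide +kernel⟩

def b2897 : PLift (entF (fidx ts) 400 2897 n2897 = true) := ⟨by decide +kernel⟩

theorem g2897 : GoodF (fidx ts) 400 2897 := GoodF.ofV v2897 n2897 c2897.down b2897.down

/-- 4646864:2290/1 -/
noncomputable def e2898 : SCfg where
  D := {
    a := 7
    L := 10
    kp := 7
    inn := [(0, 1), (0, 3), (0, 4), (1, 0), (1, 2), (1, 4), (2, 1), (2, 4), (3, 0), (3, 4), (4, 0), (4,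
      1), (4, 2), (4, 3), (4, 5), (5, 4), (5, 6), (6, 5)]
    mix := [(0, 0), (1, 0), (1, 1), (1, 2), (2, 1), (2, 3), (3, 0), (3, 4), (3, 5), (3, 6), (4, 3), (4,
      6), (4, 7), (5, 3), (5, 7), (5, 8), (5, 9), (6, 1), (6, 3), (6, 9)]
    cl := [0, 2, 4, 1, 5, 6, 0, 1, 7, 3]
    chq := [(0, 2), (1, 3), (2, 0), (3, 1)]
    rng := [(0, 2), (0, 4), (1, 2), (1, 3), (1, 9), (2, 0), (2, 1), (3, 1), (4, 0), (4, 5), (5, 4), (5,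
      6), (6, 5), (6, 7), (7, 6), (7, 8), (8, 7), (8, 9), (9, 1), (9, 8)]
    lev := [] }
  links := [[1, 7, 3, 4], [7, 0, 4, 2, 8, 9], [8, 1, 4, 10], [4, 0, 7, 11, 12, 13], [10, 2, 1, 0, 3, 13,
    14, 5], [10, 4, 14, 15, 16, 6], [10, 5, 16, 8]]
  P := {
    a := 7
    N := 17
    nb := [154, 917, 1298, 14481, 25647, 115792, 66848, 2571, 67142, 386, 372, 4232, 10248, 20504,
      41008, 81952, 33120]
    tri := [(0, 1, 4), (0, 1, 7), (0, 3, 4), (0, 3, 7), (1, 2, 4), (1, 2, 8), (1, 7, 9), (1, 8, 9), (2,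
      4, 10), (2, 8, 10), (3, 4, 13), (3, 7, 11), (3, 11, 12), (3, 12, 13), (4, 5, 10), (4, 5,
      14), (4, 13, 14), (5, 6, 10), (5, 6, 16), (5, 14, 15), (5, 15, 16), (6, 8, 10), (6, 8, 16)]
    fin := [0, 0, 0, 0, 0, 5, 5, 0, 8, 9, 5, 11, 12, 0, 5, 15, 16]
    chd := [(0, 8), (5, 16)]
    steps := [(0, 1), (0, 2), (0, 3), (0, 4), (0, 7), (0, 13), (5, 6), (5, 14), (5, 10)] }
  rep := [0, 5, 8, 16, 9, 11, 12, 15]

noncomputable def v2898 : Cov.CovD where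
  P := 3
  N := 5
  pl := [2, 4, 5, 8]
  lev := [⟨[], [], [], [], [(0, 0, [2])]⟩,
    ⟨[], [(0, 0), (0, 2)], [(0, 2)], [4], [(0, 0, [2]), (1, 2, [0])]⟩,
    ⟨[(0, 1)], [(1, 0), (1, 1), (1, 2)], [(1, 2)], [], [(1, 2, [0]), (3, 1, [3])]⟩,
    ⟨[(0, 1)], [(0, 0), (1, 0)], [(0, 0)], [5, 6], [(0, 0, [2]), (6, 0, [2])]⟩,
    ⟨[(0, 1), (0, 2), (0, 3), (1, 2), (1, 3), (2, 3)], [(0, 0), (0, 1), (1, 0), (1, 1), (1,
      2), (2, 0), (2, 1), (2, 2), (3, 0), (3, 1)], [(0, 1), (1, 1)], [], [(3, 1, [3]), (6, 0,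
      [2]), (7, 1, [3])]⟩,
    ⟨[(0, 4), (1, 4), (2, 4), (3, 4)], [(2, 1), (4, 0), (4, 1), (4, 3)], [(1, 1), (1, 3)],
      [7], [(3, 1, [3]), (7, 1, [3]), (9, 3, [1])]⟩,
    ⟨[(4, 5)], [(1, 2), (2, 1), (2, 2), (4, 1), (5, 1), (5, 2), (5, 3)], [(1, 2), (1, 3),
      (2, 3)], [], [(1, 2, [0]), (3, 1, [3]), (9, 3, [1])]⟩]
  Ta := [((0, 2), 0, 4), ((0, 4), 0, 5), ((3, 1), 1, 2), ((6, 5), 0, 6), ((6, 7), 0, 1), ((7, 6),
    1, 0), ((7, 8), 1, 7)]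
  Tb := [((0, 2, 4), 0, 4, 5), ((1, 2, 3), 2, 4, 1), ((1, 2, 9), 2, 4, 3), ((1, 3, 9), 2, 1, 3),
    ((2, 0, 1), 4, 0, 2), ((4, 0, 5), 5, 0, 6), ((5, 4, 6), 6, 5, 0), ((6, 5, 7), 0, 6, 1),
    ((7, 6, 8), 1, 0, 7), ((8, 7, 9), 7, 1, 3), ((9, 1, 8), 3, 2, 7)]
  Tc := []
  Td := [((0, 2), (0, 2), 4), ((0, 2), (0, 4), 5), ((0, 2), (6, 5), 6), ((0, 2), (6, 7), 1), ((1,
    3), (3, 1), 2), ((1, 3), (7, 6), 0), ((1, 3), (7, 8), 7), ((2, 0), (1, 2), 4), ((2, 0),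
    (1, 3), 1), ((2, 0), (1, 9), 3), ((3, 1), (9, 1), 2), ((3, 1), (9, 8), 7)]
  G := [[0, 0, 0x144884c1c944c581c588cec11cd4148c9c81cd4e8a1,
    0x8194451184c51184c5e81184c9415889415889e4c2,
    0x891d491588c891d4e12891d48199451189c5e88a], [0, 0,
    0x2111c52111c5112d4e8125889142d8112d8e4c2, 0, 0x821d4819245821d4e82821d424819c821d4e18a],
    [0, 0, 0x81cd41c9481cd4e44849141c9c11cd811cd8e4a1, 0x891d48194891d4e4484c18,
    0x891d491588c891d4e812], [0, 0x841e2111e2141e8e414,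
    0x42588c24cd82c588ce114269c112d844129ce461, 0, 0x1189cc91588c891d4e212]]

noncomputable def n2898 : Ent := ⟨e2898, noF, [], [], []⟩

def c2898 : PLift (Cov.check n2898.C.D v2898 = true) := ⟨by decide +kernel⟩

def b2898 : PLift (entF (fidx ts) 400 2898 n2898 = true) := ⟨by decide +kernel⟩

theorem g2898 : GoodF (fidx ts) 400 2898 := GoodF.ofV v2898 n2898 c2898.down b2898.down

/-- 4646864:2290 -/
noncomputable def e2899 : SCfg where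
  D := {
    a := 7
    L := 11
    kp := 8
    inn := [(0, 1), (0, 3), (0, 4), (1, 0), (1, 2), (1, 4), (2, 1), (2, 4), (3, 0), (3, 4), (4, 0), (4,
      1), (4, 2), (4, 3), (4, 5), (5, 4), (5, 6), (6, 5)]
    mix := [(0, 0), (1, 0), (1, 1), (1, 2), (2, 1), (2, 3), (3, 0), (3, 4), (3, 5), (3, 6), (4, 3), (4,
      6), (4, 7), (5, 3), (5, 7), (5, 8), (5, 9), (6, 3), (6, 9), (6, 10)]
    cl := [0, 2, 6, 1, 7, 8, 0, 1, 4, 3, 5]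
    chq := [(0, 2), (2, 0), (4, 5), (5, 4)]
    rng := [(0, 2), (0, 4), (1, 2), (1, 3), (2, 0), (2, 1), (3, 1), (3, 10), (4, 0), (4, 5), (5, 4),
      (5, 6), (6, 5), (6, 7), (7, 6), (7, 8), (8, 7), (8, 9), (9, 8), (9, 10), (10, 3), (10, 9)]
    lev := [] }
  links := [[1, 7, 3, 4], [7, 0, 4, 2, 8, 9], [8, 1, 4, 10], [4, 0, 7, 11, 12, 13], [10, 2, 1, 0, 3, 13,
    14, 5], [10, 4, 14, 15, 16, 6], [10, 5, 16, 17]]
  P := {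
    a := 7
    N := 18
    nb := [154, 917, 1298, 14481, 25647, 115792, 197664, 2571, 1542, 386, 131444, 4232, 10248, 20504,
      41008, 81952, 163936, 66624]
    tri := [(0, 1, 4), (0, 1, 7), (0, 3, 4), (0, 3, 7), (1, 2, 4), (1, 2, 8), (1, 7, 9), (1, 8, 9), (2,
      4, 10), (2, 8, 10), (3, 4, 13), (3, 7, 11), (3, 11, 12), (3, 12, 13), (4, 5, 10), (4, 5,
      14), (4, 13, 14), (5, 6, 10), (5, 6, 16), (5, 14, 15), (5, 15, 16), (6, 10, 17), (6, 16,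
      17)]
    fin := [0, 0, 0, 0, 4, 5, 5, 0, 8, 9, 4, 11, 12, 0, 4, 5, 16, 17]
    chd := [(0, 8), (5, 17)]
    steps := [(0, 1), (0, 2), (0, 3), (0, 7), (0, 13), (4, 14), (4, 10), (5, 6), (5, 15)] }
  rep := [0, 4, 8, 16, 5, 17, 9, 11, 12]

noncomputable def v2899 : Cov.CovD where
  P := 3
  N := 6
  pl := [2, 4, 5, 9]
  lev := [⟨[], [], [], [], [(0, 0, [2])]⟩,
    ⟨[], [(0, 0), (0, 2)], [(0, 2)], [6], [(0, 0, [2]), (1, 2, [0])]⟩,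
    ⟨[(0, 1)], [(1, 0), (1, 1), (1, 2)], [(1, 2)], [], [(1, 2, [0]), (3, 1, [])]⟩,
    ⟨[(0, 1)], [(0, 0), (1, 0)], [(0, 0)], [7, 8], [(0, 0, [2]), (6, 0, [2])]⟩,
    ⟨[(0, 1), (0, 2), (0, 3), (1, 2), (1, 3), (2, 3)], [(0, 0), (0, 1), (1, 0), (1, 1), (1,
      2), (2, 0), (2, 1), (2, 2), (3, 0), (3, 1)], [(0, 1), (1, 1)], [], [(3, 1, []), (6, 0,
      [2]), (7, 1, [])]⟩,
    ⟨[(0, 4), (1, 4), (2, 4), (3, 4)], [(2, 1), (4, 0), (4, 1), (4, 4)], [(1, 1), (1, 4)],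
      [3], [(3, 1, []), (7, 1, []), (8, 4, [5])]⟩,
    ⟨[(4, 5)], [(2, 1), (4, 1), (5, 1), (5, 4), (5, 5)], [(1, 5)], [3], [(3, 1, []), (10,
      5, [4])]⟩]
  Ta := [((0, 2), 0, 6), ((0, 4), 0, 7), ((3, 1), 1, 2), ((3, 10), 1, 5), ((6, 5), 0, 8), ((6,
    7), 0, 1), ((7, 6), 1, 0), ((7, 8), 1, 4)]
  Tb := [((0, 2, 4), 0, 6, 7), ((1, 2, 3), 2, 6, 1), ((2, 0, 1), 6, 0, 2), ((3, 1, 10), 1, 2, 5),
    ((4, 0, 5), 7, 0, 8), ((5, 4, 6), 8, 7, 0), ((6, 5, 7), 0, 8, 1), ((7, 6, 8), 1, 0, 4),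
    ((8, 7, 9), 4, 1, 3), ((9, 8, 10), 3, 4, 5), ((10, 3, 9), 5, 1, 3)]
  Tc := []
  Td := [((0, 2), (0, 2), 6), ((0, 2), (0, 4), 7), ((0, 2), (6, 5), 8), ((0, 2), (6, 7), 1), ((2,
    0), (1, 2), 6), ((2, 0), (1, 3), 1), ((4, 5), (8, 7), 1), ((4, 5), (8, 9), 3), ((5, 4),
    (10, 3), 1), ((5, 4), (10, 9), 3)]
  G := [[0, 0, 0x59c19c55899c5589ec1485945c9c59cd8945c9ce1a4,
    0x59cd4945c9c9c558ce19c5589c159c959cd8e4c2, 0x59cd821259cd4945c9c59cd4e159cd459cd8c1a6],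
    [0, 0, 0x26934589652899256896c236d436528c6a2d4e168, 0,
    0x692d8212b92d436528c327d4e1236d4216ac5c8a6], [0, 0,
    0x59cd4945c9c9c558ce19c558c59cd89c558ce1c1, 0x59cd4945c9c59cd4e812,
    0x59cd4945c9c9c558ce812], [0, 0x9231ca691e25a1e8e414,
    0x6123c945c948652c1a25689a8a2583652896a2d8e4e4, 0, 0x28434269ca9c5859cd8ca14]]

noncomputable def n2899 : Ent := ⟨e2899, noF, [], [], [(17, 8, [6903326391201334775872065844734382085129376193087066322065204564008961, 0])]⟩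

def c2899 : PLift (Cov.check n2899.C.D v2899 = true) := ⟨by decide +kernel⟩

def b2899 : PLift (entF (fidx ts) 400 2899 n2899 = true) := ⟨by decide +kernel⟩

theorem g2899 : GoodF (fidx ts) 400 2899 := GoodF.ofV v2899 n2899 c2899.down b2899.down

/-- 4646945:2291/1 -/
noncomputable def e2900 : SCfg where
  D := {
    a := 7
    L := 10
    kp := 7
    inn := [(0, 1), (0, 3), (0, 4), (1, 0), (1, 2), (1, 4), (2, 1), (3, 0), (3, 4), (4, 0), (4, 1), (4,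
      3), (4, 5), (4, 6), (5, 4), (5, 6), (6, 4), (6, 5)]
    mix := [(0, 0), (1, 0), (1, 1), (1, 2), (2, 0), (2, 1), (2, 3), (3, 0), (3, 4), (3, 5), (3, 6), (4,
      2), (4, 4), (4, 7), (4, 8), (5, 4), (5, 9), (6, 3), (6, 8), (6, 9)]
    cl := [0, 1, 0, 2, 3, 6, 7, 5, 3, 4]
    chq := [(5, 6), (5, 7), (6, 5), (7, 5)]
    rng := [(0, 3), (0, 6), (1, 2), (1, 3), (2, 1), (2, 7), (3, 0), (3, 1), (3, 8), (3, 9), (4, 5), (4,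
      9), (5, 4), (5, 6), (6, 0), (6, 5), (7, 2), (7, 8), (8, 3), (8, 7), (9, 3), (9, 4)]
    lev := [] }
  links := [[1, 4, 3, 7], [4, 0, 7, 2, 8, 9], [8, 1, 7, 10], [7, 0, 4, 11, 12, 13], [11, 3, 0, 1, 9, 14,
    15, 6, 5], [11, 4, 6, 16], [16, 5, 4, 15, 10]]
  P := {
    a := 7
    N := 17
    nb := [154, 917, 1410, 14481, 51819, 67664, 99376, 9231, 1542, 16658, 98756, 69688, 10248, 4232,
      33296, 17488, 3168]
    tri := [(0, 1, 4), (0, 1, 7), (0, 3, 4), (0, 3, 7), (1, 2, 7), (1, 2, 8), (1, 4, 9), (1, 8, 9), (2,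
      7, 10), (2, 8, 10), (3, 4, 11), (3, 7, 13), (3, 11, 12), (3, 12, 13), (4, 5, 6), (4, 5, 11),
      (4, 6, 15), (4, 9, 14), (4, 14, 15), (5, 6, 16), (5, 11, 16), (6, 10, 15), (6, 10, 16)]
    fin := [0, 0, 0, 3, 3, 5, 5, 0, 8, 0, 10, 5, 12, 13, 3, 5, 16]
    chd := [(12, 3), (13, 3)]
    steps := [(0, 1), (0, 2), (0, 7), (0, 9), (3, 4), (3, 14), (5, 6), (5, 15), (5, 11)] }
  rep := [0, 8, 10, 5, 16, 3, 12, 13]

noncomputable def v2900 : Cov.CovD where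
  P := 3
  N := 5
  pl := [1, 3, 9]
  lev := [⟨[], [], [], [], [(0, 0, [])]⟩,
    ⟨[], [(0, 0)], [(0, 0)], [1], [(0, 0, []), (2, 0, [])]⟩,
    ⟨[(0, 1)], [(0, 0), (1, 0)], [], [1, 2], [(0, 0, [])]⟩,
    ⟨[(0, 1)], [(0, 0), (0, 3), (0, 6), (0, 7), (1, 0), (2, 0)], [(0, 3), (0, 6), (0, 7),
      (3, 6), (3, 7), (6, 7)], [], [(0, 0, []), (4, 3, []), (5, 6, [5]), (6, 7, [5])]⟩,
    ⟨[(0, 1), (0, 3), (1, 2), (1, 3)], [(0, 0), (0, 3), (0, 5), (1, 0), (1, 3), (1, 5), (3,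
      0), (3, 3), (3, 5), (3, 6), (3, 7)], [(0, 3), (0, 5), (3, 3), (3, 5)], [], [(2, 0, []),
      (4, 3, []), (7, 5, [6, 7]), (8, 3, [])]⟩,
    ⟨[(0, 4), (1, 4), (3, 4)], [(3, 3), (4, 0), (4, 3), (4, 5)], [], [4], [(4, 3, [])]⟩,
    ⟨[(0, 4), (1, 4), (3, 4), (4, 5)], [(4, 0), (4, 3), (4, 5), (5, 3)], [], [2, 4], [(8,
      3, [])]⟩]
  Ta := [((0, 3), 0, 2), ((0, 6), 0, 7), ((2, 1), 0, 1), ((2, 7), 0, 5), ((4, 5), 3, 6), ((4, 9),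
    3, 4), ((8, 3), 3, 2), ((8, 7), 3, 5)]
  Tb := [((0, 3, 6), 0, 2, 7), ((1, 2, 3), 1, 0, 2), ((2, 1, 7), 0, 1, 5), ((3, 0, 1), 2, 0, 1),
    ((3, 0, 8), 2, 0, 3), ((3, 0, 9), 2, 0, 4), ((3, 1, 8), 2, 1, 3), ((3, 1, 9), 2, 1, 4),
    ((3, 8, 9), 2, 3, 4), ((4, 5, 9), 3, 6, 4), ((5, 4, 6), 6, 3, 7), ((6, 0, 5), 7, 0, 6),
    ((7, 2, 8), 5, 0, 3), ((8, 3, 7), 3, 2, 5), ((9, 3, 4), 4, 2, 3)]
  Tc := [(5, 6, 7)]
  Td := [((5, 6), (7, 2), 0), ((5, 6), (7, 8), 3), ((5, 7), (7, 2), 0), ((5, 7), (7, 8), 3), ((6,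
    5), (5, 4), 3), ((6, 5), (5, 6), 7), ((7, 5), (6, 0), 0), ((7, 5), (6, 5), 6)]
  G := [[0, 0, 0x882e1284842e1242e1c846, 0xc2292c25648522884c, 0x121b428881c481c2a2e3c886], [0,
    0, 0xc6a1a6c1684842e1884c, 0x841d2d2825648c132118a84c, 0x349828d284b18265888361828b48ca],
    [0, 0x844d24862419983ce841, 0, 0x8132184c22486252c2ce485,
    0x81c4215493217813815e82646982], [0, 0x4138196c2415a895413ce821, 0,
    0x841d2524618d22928a14c, 0x922956a194a8a9338a213868c1]]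

noncomputable def n2900 : Ent := ⟨e2900, noF, [], [], []⟩

def c2900 : PLift (Cov.check n2900.C.D v2900 = true) := ⟨by decide +kernel⟩

def b2900 : PLift (entF (fidx ts) 400 2900 n2900 = true) := ⟨by decide +kernel⟩

theorem g2900 : GoodF (fidx ts) 400 2900 := GoodF.ofV v2900 n2900 c2900.down b2900.down

/-- 4646945:2291/2 -/
noncomputable def e2901 : SCfg where
  D := {
    a := 7
    L := 10
    kp := 7
    inn := [(0, 1), (0, 3), (0, 4), (1, 0), (1, 2), (1, 4), (2, 1), (3, 0), (3, 4), (4, 0), (4, 1), (4,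
      3), (4, 5), (4, 6), (5, 4), (5, 6), (6, 4), (6, 5)]
    mix := [(0, 0), (1, 0), (1, 1), (1, 2), (2, 0), (2, 1), (2, 3), (3, 0), (3, 3), (3, 4), (3, 5), (4,
      2), (4, 4), (4, 6), (4, 7), (5, 4), (5, 8), (6, 7), (6, 8), (6, 9)]
    cl := [0, 2, 0, 1, 3, 6, 5, 3, 4, 7]
    chq := [(1, 5), (5, 1), (5, 6), (6, 5)]
    rng := [(0, 3), (1, 2), (1, 3), (2, 1), (2, 6), (3, 0), (3, 1), (3, 5), (4, 5), (4, 8), (5, 3), (5,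
      4), (6, 2), (6, 7), (7, 6), (7, 9), (8, 4), (8, 9), (9, 7), (9, 8)]
    lev := [] }
  links := [[1, 4, 3, 7], [4, 0, 7, 2, 8, 9], [8, 1, 7, 10], [7, 0, 4, 11, 12, 10], [11, 3, 0, 1, 9, 13,
    14, 6, 5], [11, 4, 6, 15], [15, 5, 4, 14, 16]]
  P := {
    a := 7
    N := 17
    nb := [154, 917, 1410, 7313, 27243, 34896, 114736, 1039, 1542, 8466, 4492, 36920, 3080, 16912,
      73808, 67680, 49216]
    tri := [(0, 1, 4), (0, 1, 7), (0, 3, 4), (0, 3, 7), (1, 2, 7), (1, 2, 8), (1, 4, 9), (1, 8, 9), (2,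
      7, 10), (2, 8, 10), (3, 4, 11), (3, 7, 10), (3, 10, 12), (3, 11, 12), (4, 5, 6), (4, 5, 11),
      (4, 6, 14), (4, 9, 13), (4, 13, 14), (5, 6, 15), (5, 11, 15), (6, 14, 16), (6, 15, 16)]
    fin := [0, 0, 0, 3, 3, 5, 5, 0, 8, 0, 10, 5, 12, 3, 5, 15, 16]
    chd := [(10, 3), (12, 3)]
    steps := [(0, 1), (0, 2), (0, 7), (0, 9), (3, 4), (3, 13), (5, 6), (5, 14), (5, 11)] }
  rep := [0, 10, 8, 5, 15, 3, 12, 16]

noncomputable def v2901 : Cov.CovD where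
  P := 3
  N := 5
  pl := [1, 8, 9]
  lev := [⟨[], [], [], [], [(0, 0, [])]⟩,
    ⟨[], [(0, 0)], [(0, 0)], [2], [(0, 0, []), (2, 0, [])]⟩,
    ⟨[(0, 1)], [(0, 0), (1, 0), (1, 1)], [(0, 1)], [2], [(0, 0, []), (3, 1, [5])]⟩,
    ⟨[(0, 1)], [(0, 0), (0, 1), (0, 3), (0, 6), (1, 0), (2, 0), (2, 1)], [(0, 1), (0, 3),
      (0, 6), (1, 3), (1, 6), (3, 6)], [], [(0, 0, []), (3, 1, [5]), (4, 3, []), (5, 6,
      [5])]⟩,
    ⟨[(0, 1), (0, 3), (1, 2), (1, 3)], [(0, 0), (0, 3), (0, 5), (1, 0), (1, 3), (1, 5), (3,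
      0), (3, 1), (3, 3), (3, 5), (3, 6)], [(0, 3), (0, 5), (3, 3), (3, 5)], [], [(2, 0, []),
      (4, 3, []), (6, 5, [1, 6]), (7, 3, [])]⟩,
    ⟨[(0, 4), (1, 4), (3, 4)], [(3, 3), (4, 0), (4, 3), (4, 5)], [], [4], [(4, 3, [])]⟩,
    ⟨[(0, 4), (1, 4), (3, 4), (4, 5)], [(4, 0), (4, 3), (4, 5), (5, 3)], [], [4, 7], [(7,
      3, [])]⟩]
  Ta := [((0, 3), 0, 1), ((2, 1), 0, 2), ((2, 6), 0, 5), ((4, 5), 3, 6), ((4, 8), 3, 4), ((7, 6),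
    3, 5), ((7, 9), 3, 7)]
  Tb := [((1, 2, 3), 2, 0, 1), ((2, 1, 6), 0, 2, 5), ((3, 0, 1), 1, 0, 2), ((3, 0, 5), 1, 0, 6),
    ((3, 1, 5), 1, 2, 6), ((4, 5, 8), 3, 6, 4), ((5, 3, 4), 6, 1, 3), ((6, 2, 7), 5, 0, 3),
    ((7, 6, 9), 3, 5, 7), ((8, 4, 9), 4, 3, 7), ((9, 7, 8), 7, 3, 4)]
  Tc := [(5, 1, 6)]
  Td := [((1, 5), (3, 0), 0), ((1, 5), (3, 1), 2), ((1, 5), (3, 5), 6), ((5, 1), (6, 2), 0), ((5,
    1), (6, 7), 3), ((5, 6), (6, 2), 0), ((5, 6), (6, 7), 3), ((6, 5), (5, 3), 1), ((6, 5),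
    (5, 4), 3)]
  G := [[0, 0xc962ec3a9c6ca564e24e188c8, 0, 0x954da6c336ce869c842,
    0xe861482c5ae2c3596283983c6a5e88c], [0, 0x44293d14a6fed38c842, 0, 0xb15468e21f2d8acc42,
    0xed3116c2a1c8f1848a2], [0, 0, 0xc15d26351d8da48dd2d442594842a,
    0x93cd49648dd292177d85a4c82, 0x48dd2188a3cc596d852c836c848a5], [0, 0,
    0x4217e39a484865b4828c429, 0x44e39a484ed348492844c9, 0xe392418865b4e138c12a]]

noncomputable def n2901 : Ent := ⟨e2901, noF, [], [], []⟩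

def c2901 : PLift (Cov.check n2901.C.D v2901 = true) := ⟨by decide +kernel⟩

def b2901 : PLift (entF (fidx ts) 400 2901 n2901 = true) := ⟨by decide +kernel⟩

theorem g2901 : GoodF (fidx ts) 400 2901 := GoodF.ofV v2901 n2901 c2901.down b2901.down

/-- 4646945:2291 -/
noncomputable def e2902 : SCfg where
  D := {
    a := 7
    L := 11
    kp := 8
    inn := [(0, 1), (0, 3), (0, 4), (1, 0), (1, 2), (1, 4), (2, 1), (3, 0), (3, 4), (4, 0), (4, 1), (4,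
      3), (4, 5), (4, 6), (5, 4), (5, 6), (6, 4), (6, 5)]
    mix := [(0, 0), (1, 0), (1, 1), (1, 2), (2, 0), (2, 1), (2, 3), (3, 0), (3, 4), (3, 5), (3, 6), (4,
      2), (4, 4), (4, 7), (4, 8), (5, 4), (5, 9), (6, 8), (6, 9), (6, 10)]
    cl := [0, 1, 0, 7, 3, 5, 6, 2, 3, 4, 8]
    chq := [(2, 5), (2, 6), (5, 2), (6, 2)]
    rng := [(0, 3), (0, 6), (1, 2), (1, 3), (2, 1), (2, 7), (3, 0), (3, 1), (4, 5), (4, 9), (5, 4), (5,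
      6), (6, 0), (6, 5), (7, 2), (7, 8), (8, 7), (8, 10), (9, 4), (9, 10), (10, 8), (10, 9)]
    lev := [] }
  links := [[1, 4, 3, 7], [4, 0, 7, 2, 8, 9], [8, 1, 7, 10], [7, 0, 4, 11, 12, 13], [11, 3, 0, 1, 9, 14,
    15, 6, 5], [11, 4, 6, 16], [16, 5, 4, 15, 17]]
  P := {
    a := 7
    N := 18
    nb := [154, 917, 1410, 14481, 51819, 67664, 229424, 9231, 1542, 16658, 388, 69688, 10248, 4232,
      33296, 147536, 133216, 98368]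
    tri := [(0, 1, 4), (0, 1, 7), (0, 3, 4), (0, 3, 7), (1, 2, 7), (1, 2, 8), (1, 4, 9), (1, 8, 9), (2,
      7, 10), (2, 8, 10), (3, 4, 11), (3, 7, 13), (3, 11, 12), (3, 12, 13), (4, 5, 6), (4, 5, 11),
      (4, 6, 15), (4, 9, 14), (4, 14, 15), (5, 6, 16), (5, 11, 16), (6, 15, 17), (6, 16, 17)]
    fin := [0, 0, 0, 3, 3, 5, 5, 0, 8, 0, 10, 5, 12, 13, 3, 5, 16, 17]
    chd := [(12, 3), (13, 3)]
    steps := [(0, 1), (0, 2), (0, 7), (0, 9), (3, 4), (3, 14), (5, 6), (5, 15), (5, 11)] }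
  rep := [0, 8, 3, 5, 16, 12, 13, 10, 17]

noncomputable def v2902 : Cov.CovD where
  P := 3
  N := 6
  pl := [1, 3, 9, 10]
  lev := [⟨[], [], [], [], [(0, 0, [])]⟩,
    ⟨[], [(0, 0)], [(0, 0)], [1], [(0, 0, []), (2, 0, [])]⟩,
    ⟨[(0, 1)], [(0, 0), (1, 0)], [], [1, 7], [(0, 0, [])]⟩,
    ⟨[(0, 1)], [(0, 0), (0, 3), (0, 5), (0, 6), (1, 0), (2, 0)], [(0, 3), (0, 5), (0, 6),
      (3, 5), (3, 6), (5, 6)], [], [(0, 0, []), (4, 3, []), (5, 5, [2]), (6, 6, [2])]⟩,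
    ⟨[(0, 1), (0, 3), (1, 2), (1, 3)], [(0, 0), (0, 2), (0, 3), (1, 0), (1, 2), (1, 3), (3,
      0), (3, 2), (3, 3), (3, 5), (3, 6)], [(0, 2), (0, 3), (2, 3), (3, 3)], [], [(2, 0, []),
      (4, 3, []), (7, 2, [5, 6]), (8, 3, [])]⟩,
    ⟨[(0, 4), (1, 4), (3, 4)], [(3, 3), (4, 0), (4, 2), (4, 3)], [], [4], [(4, 3, [])]⟩,
    ⟨[(0, 4), (1, 4), (3, 4), (4, 5)], [(4, 0), (4, 2), (4, 3), (5, 3)], [], [4, 8], [(8,
      3, [])]⟩]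
  Ta := [((0, 3), 0, 7), ((0, 6), 0, 6), ((2, 1), 0, 1), ((2, 7), 0, 2), ((4, 5), 3, 5), ((4, 9),
    3, 4), ((8, 7), 3, 2), ((8, 10), 3, 8)]
  Tb := [((0, 3, 6), 0, 7, 6), ((1, 2, 3), 1, 0, 7), ((2, 1, 7), 0, 1, 2), ((3, 0, 1), 7, 0, 1),
    ((4, 5, 9), 3, 5, 4), ((5, 4, 6), 5, 3, 6), ((6, 0, 5), 6, 0, 5), ((7, 2, 8), 2, 0, 3),
    ((8, 7, 10), 3, 2, 8), ((9, 4, 10), 4, 3, 8), ((10, 8, 9), 8, 3, 4)]
  Tc := [(2, 5, 6)]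
  Td := [((2, 5), (7, 2), 0), ((2, 5), (7, 8), 3), ((2, 6), (7, 2), 0), ((2, 6), (7, 8), 3), ((5,
    2), (5, 4), 3), ((5, 2), (5, 6), 6), ((6, 2), (6, 0), 0), ((6, 2), (6, 5), 5)]
  G := [[0, 0, 0, 0x1747b83c2456c8e6928c4, 0xc962ec34725596a4c48], [0, 0, 0,
    0xb1c2c52526b8c8d2c51828c4, 0xf2d168b4b151e2b4c42], [0, 0x43a836c25ca836c2621,
    0x6598b3c1639c95a1c42, 0x4731a9bc2148, 0x275596a4148], [0, 0x253d2ac249482e85619c2aa1,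
    0x61588f8e148d6635a18c4, 0x484218b8421f4821cc, 0x415f8a414a28414a]]

noncomputable def n2902 : Ent := ⟨e2902, noF, [], [], [(10, 17, [6903326391201334775872065844685381424292761054348340378595029941567489, 0]), (10, 13, [7334790875884699379652667093540608452385083566975740343373091415871489, 0])]⟩

def c2902 : PLift (Cov.check n2902.C.D v2902 = true) := ⟨by decide +kernel⟩

def b2902 : PLift (entF (fidx ts) 400 2902 n2902 = true) := ⟨by decide +kernel⟩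

theorem g2902 : GoodF (fidx ts) 400 2902 := GoodF.ofV v2902 n2902 c2902.down b2902.down

/-- 4648644:2296/2 -/
noncomputable def e2903 : SCfg where
  D := {
    a := 7
    L := 9
    kp := 6
    inn := [(0, 1), (1, 0), (1, 2), (1, 3), (2, 1), (2, 3), (3, 1), (3, 2), (3, 4), (3, 5), (4, 3), (4,
      6), (5, 3), (6, 4)]
    mix := [(0, 0), (0, 1), (0, 2), (1, 0), (1, 2), (1, 3), (2, 2), (2, 4), (3, 3), (3, 4), (3, 5), (3,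
      6), (4, 1), (4, 4), (4, 5), (4, 7), (5, 5), (5, 6), (5, 8), (6, 5), (6, 7), (6, 8)]
    cl := [4, 0, 3, 2, 1, 0, 1, 5, 6]
    chq := [(2, 3), (3, 2), (3, 4), (4, 3)]
    rng := [(0, 1), (0, 3), (1, 0), (1, 2), (1, 4), (1, 7), (2, 1), (2, 4), (3, 0), (3, 6), (4, 1), (4,
      2), (5, 8), (6, 3), (6, 8), (7, 1), (7, 8), (8, 5), (8, 6), (8, 7)]
    lev := [] }
  links := [[1, 7, 8, 9], [7, 0, 9, 2, 3, 10], [3, 1, 9, 11], [10, 1, 2, 11, 4, 12, 5, 13], [12, 3, 11,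
    8, 14, 6], [13, 3, 12, 15], [12, 4, 14, 15]]
  P := {
    a := 7
    N := 16
    nb := [898, 1677, 2570, 15414, 22856, 45064, 53264, 1283, 19089, 2311, 8330, 796, 32888, 33832,
      33104, 28768]
    tri := [(0, 1, 7), (0, 1, 9), (0, 7, 8), (0, 8, 9), (1, 2, 3), (1, 2, 9), (1, 3, 10), (1, 7, 10),
      (2, 3, 11), (2, 9, 11), (3, 4, 11), (3, 4, 12), (3, 5, 12), (3, 5, 13), (3, 10, 13), (4, 6,
      12), (4, 6, 14), (4, 8, 11), (4, 8, 14), (5, 12, 15), (5, 13, 15), (6, 12, 15), (6, 14, 15)]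
    fin := [0, 1, 1, 3, 4, 4, 4, 0, 4, 1, 10, 3, 4, 3, 14, 15]
    chd := [(0, 1), (1, 10)]
    steps := [(0, 7), (1, 2), (1, 9), (3, 11), (3, 13), (4, 6), (4, 8), (4, 12), (4, 5)] }
  rep := [4, 3, 10, 1, 0, 14, 15]

noncomputable def v2903 : Cov.CovD where
  P := 3
  N := 4
  pl := [7, 8]
  lev := [⟨[], [], [(0, 3), (0, 4), (3, 4)], [], [(0, 4, [3]), (1, 0, []), (2, 3, [2, 4])]⟩,
    ⟨[], [(0, 0), (0, 2), (0, 3), (0, 4)], [(2, 3), (2, 4), (3, 4)], [], [(0, 4, [3]), (2,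
      3, [2, 4]), (3, 2, [3])]⟩,
    ⟨[(0, 1)], [(0, 3), (1, 1), (1, 2), (1, 3), (1, 4)], [(1, 3)], [], [(2, 3, [2, 4]), (4,
      1, [])]⟩,
    ⟨[(0, 1), (1, 2)], [(1, 0), (1, 1), (1, 2), (1, 3), (1, 4), (2, 0), (2, 1), (2, 2), (2,
      3)], [(0, 1), (0, 2), (1, 1), (1, 2)], [], [(3, 2, [3]), (4, 1, []), (5, 0, []), (6, 1,
      [])]⟩,
    ⟨[(1, 3), (2, 3)], [(0, 0), (2, 1), (3, 0), (3, 1), (3, 2)], [(0, 0), (0, 1)], [5],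
      [(1, 0, []), (4, 1, []), (5, 0, [])]⟩,
    ⟨[(1, 3), (2, 3), (3, 4)], [(3, 0), (3, 1), (3, 2), (4, 0)], [(0, 1)], [6], [(5, 0,
      []), (6, 1, [])]⟩,
    ⟨[(3, 4)], [(3, 0), (4, 0), (4, 1), (5, 0)], [], [5, 6], [(5, 0, [])]⟩]
  Ta := [((1, 0), 0, 4), ((1, 2), 0, 3), ((1, 4), 0, 1), ((1, 7), 0, 5), ((4, 1), 1, 0), ((4, 2),
    1, 3), ((5, 8), 0, 6), ((6, 3), 1, 2), ((6, 8), 1, 6)]
  Tb := [((0, 1, 3), 4, 0, 2), ((1, 0, 2), 0, 4, 3), ((1, 0, 4), 0, 4, 1), ((1, 0, 7), 0, 4, 5),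
    ((1, 2, 4), 0, 3, 1), ((1, 2, 7), 0, 3, 5), ((1, 4, 7), 0, 1, 5), ((2, 1, 4), 3, 0, 1),
    ((3, 0, 6), 2, 4, 1), ((4, 1, 2), 1, 0, 3), ((6, 3, 8), 1, 2, 6), ((7, 1, 8), 5, 0, 6),
    ((8, 5, 6), 6, 0, 1), ((8, 5, 7), 6, 0, 5), ((8, 6, 7), 6, 1, 5)]
  Tc := [(3, 2, 4)]
  Td := [((2, 3), (3, 0), 4), ((2, 3), (3, 6), 1), ((3, 2), (2, 1), 0), ((3, 2), (2, 4), 1), ((3,
    4), (2, 1), 0), ((3, 4), (2, 4), 1), ((4, 3), (0, 1), 0), ((4, 3), (0, 3), 2)]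
  G := [[0, 0x11a116642814a12c6824141218e421e, 0x1222c4181221c8142112c812e, 0,
    0x22e2c1482112c8111221c842e], [0, 0, 0xe1129c4281491856814c111c6812e,
    0x11c21c4821149c842114cc82d2, 0x61482c892e1185681982c24cc1426], [0, 0,
    0x62a2c4822e2c84224a6c81e1, 0, 0x22e2c81122e2c81122e2c842d], [0, 0,
    0x44482c28cc124a4c88e8424c482c8c1e1, 0x24c482c8c112, 0x24a4c88e81124a4c88e8426]]

noncomputable def n2903 : Ent := ⟨e2903, noF, [], [], []⟩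

def c2903 : PLift (Cov.check n2903.C.D v2903 = true) := ⟨by decide +kernel⟩

def b2903 : PLift (entF (fidx ts) 400 2903 n2903 = true) := ⟨by decide +kernel⟩

theorem g2903 : GoodF (fidx ts) 400 2903 := GoodF.ofV v2903 n2903 c2903.down b2903.down

/-- 4648644:2296/1 -/
noncomputable def e2904 : SCfg where
  D := {
    a := 7
    L := 10
    kp := 7
    inn := [(0, 1), (1, 0), (1, 2), (1, 3), (2, 1), (2, 3), (3, 1), (3, 2), (3, 4), (3, 5), (4, 3), (4,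
      6), (5, 3), (6, 4)]
    mix := [(0, 0), (0, 1), (0, 2), (1, 0), (1, 2), (1, 3), (2, 2), (2, 4), (3, 3), (3, 4), (3, 5), (3,
      6), (4, 1), (4, 4), (4, 5), (4, 7), (5, 5), (5, 6), (5, 8), (6, 5), (6, 7), (6, 9)]
    cl := [1, 4, 3, 0, 0, 0, 2, 5, 7, 6]
    chq := [(1, 3), (3, 1), (4, 6), (6, 4)]
    rng := [(0, 1), (0, 3), (1, 0), (1, 2), (1, 4), (1, 7), (2, 1), (2, 4), (3, 0), (3, 6), (4, 1), (4,
      2), (5, 8), (5, 9), (6, 3), (6, 8), (7, 1), (7, 9), (8, 5), (8, 6), (9, 5), (9, 7)]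
    lev := [] }
  links := [[1, 7, 8, 9], [7, 0, 9, 2, 3, 10], [3, 1, 9, 11], [10, 1, 2, 11, 4, 12, 5, 13], [12, 3, 11,
    8, 14, 6], [13, 3, 12, 15], [12, 4, 14, 16]]
  P := {
    a := 7
    N := 17
    nb := [898, 1677, 2570, 15414, 22856, 45064, 86032, 1283, 19089, 2311, 8330, 796, 98424, 33832,
      65872, 12320, 20544]
    tri := [(0, 1, 7), (0, 1, 9), (0, 7, 8), (0, 8, 9), (1, 2, 3), (1, 2, 9), (1, 3, 10), (1, 7, 10),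
      (2, 3, 11), (2, 9, 11), (3, 4, 11), (3, 4, 12), (3, 5, 12), (3, 5, 13), (3, 10, 13), (4, 6,
      12), (4, 6, 14), (4, 8, 11), (4, 8, 14), (5, 12, 15), (5, 13, 15), (6, 12, 16), (6, 14, 16)]
    fin := [0, 0, 0, 3, 4, 3, 4, 0, 4, 9, 3, 3, 3, 13, 14, 15, 16]
    chd := [(0, 9), (4, 16)]
    steps := [(0, 1), (0, 2), (0, 7), (3, 5), (3, 11), (3, 12), (3, 10), (4, 6), (4, 8)] }
  rep := [3, 0, 13, 9, 4, 14, 16, 15]

noncomputable def v2904 : Cov.CovD where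
  P := 3
  N := 5
  pl := [6, 7, 8]
  lev := [⟨[], [], [(1, 3), (1, 4), (3, 4)], [], [(0, 1, [3]), (1, 4, [6]), (2, 3, [1])]⟩,
    ⟨[], [(0, 0), (0, 1), (0, 3), (0, 4)], [(0, 1), (0, 3), (1, 3)], [], [(0, 1, [3]), (2,
      3, [1]), (3, 0, [])]⟩,
    ⟨[(0, 1)], [(0, 3), (1, 0), (1, 1), (1, 3)], [(0, 3)], [], [(2, 3, [1]), (4, 0, [])]⟩,
    ⟨[(0, 1), (1, 2)], [(1, 0), (1, 1), (1, 3), (2, 0), (2, 3)], [(0, 0)], [2], [(3, 0,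
      []), (4, 0, []), (5, 0, [])]⟩,
    ⟨[(1, 3), (2, 3)], [(0, 4), (2, 0), (3, 0), (3, 4)], [(0, 0), (0, 4)], [5], [(1, 4,
      [6]), (4, 0, []), (5, 0, [])]⟩,
    ⟨[(1, 3), (2, 3), (3, 4)], [(3, 0), (4, 0)], [], [2, 7], [(5, 0, [])]⟩,
    ⟨[(3, 4)], [(3, 0), (4, 0), (4, 4), (4, 6), (5, 0)], [(0, 6)], [5], [(5, 0, []), (9, 6,
      [4])]⟩]
  Ta := [((3, 0), 0, 1), ((3, 6), 0, 2), ((4, 1), 0, 4), ((4, 2), 0, 3), ((5, 8), 0, 7), ((5, 9),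
    0, 6)]
  Tb := [((0, 1, 3), 1, 4, 0), ((1, 0, 2), 4, 1, 3), ((1, 0, 4), 4, 1, 0), ((1, 0, 7), 4, 1, 5),
    ((1, 2, 4), 4, 3, 0), ((1, 2, 7), 4, 3, 5), ((1, 4, 7), 4, 0, 5), ((2, 1, 4), 3, 4, 0),
    ((3, 0, 6), 0, 1, 2), ((4, 1, 2), 0, 4, 3), ((5, 8, 9), 0, 7, 6), ((6, 3, 8), 2, 0, 7),
    ((7, 1, 9), 5, 4, 6), ((8, 5, 6), 7, 0, 2), ((9, 5, 7), 6, 0, 5)]
  Tc := []
  Td := [((1, 3), (0, 1), 4), ((1, 3), (0, 3), 0), ((3, 1), (2, 1), 4), ((3, 1), (2, 4), 0), ((4,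
    6), (1, 0), 1), ((4, 6), (1, 2), 3), ((4, 6), (1, 4), 0), ((4, 6), (1, 7), 5), ((6, 4),
    (9, 5), 0), ((6, 4), (9, 7), 5)]
  G := [[0, 0xe12141e41821e181e8144181e1e812e, 0x61631a5cce28556aa611ce82c1,
    0x61a1c1e4861a1c1e81c1, 0x6111ac1e2861a1c1e82c1], [0, 0, 0,
    0xe161a428e1a16824e18168261c1a42cd, 0x4122e161c268e1a1682411ac1628e141a24cd], [0, 0, 0,
    0xa4466ca8cccec164aacccce688c1c1, 0xc2266aaaac8ea162aaaccae688a1c1]]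

noncomputable def n2904 : Ent := ⟨e2904, noF, [], [], [(16, 15, [1685356702439545624007900436039642273970977273354372543760011980801, 0])]⟩

def c2904 : PLift (Cov.check n2904.C.D v2904 = true) := ⟨by decide +kernel⟩

def b2904 : PLift (entF (fidx ts) 400 2904 n2904 = true) := ⟨by decide +kernel⟩

theorem g2904 : GoodF (fidx ts) 400 2904 := GoodF.ofV v2904 n2904 c2904.down b2904.down

/-- 4648644:2296/4 -/
noncomputable def e2905 : SCfg where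
  D := {
    a := 7
    L := 9
    kp := 6
    inn := [(0, 1), (1, 0), (1, 2), (1, 3), (2, 1), (2, 3), (3, 1), (3, 2), (3, 4), (3, 5), (4, 3), (4,
      6), (5, 3), (6, 4)]
    mix := [(0, 0), (0, 1), (0, 2), (1, 0), (1, 2), (1, 3), (2, 2), (2, 4), (3, 3), (3, 4), (3, 5), (3,
      6), (4, 1), (4, 4), (4, 5), (4, 7), (5, 5), (5, 6), (5, 8), (6, 1), (6, 5), (6, 8)]
    cl := [5, 3, 1, 1, 0, 0, 2, 6, 4]
    chq := [(0, 2), (2, 0), (4, 6), (6, 4)]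
    rng := [(0, 1), (0, 3), (1, 0), (1, 2), (1, 7), (1, 8), (2, 1), (2, 4), (3, 0), (3, 6), (4, 2), (4,
      7), (5, 8), (6, 3), (6, 8), (7, 1), (7, 4), (8, 1), (8, 5), (8, 6)]
    lev := [] }
  links := [[1, 7, 8, 9], [7, 0, 9, 2, 3, 10], [3, 1, 9, 11], [10, 1, 2, 11, 4, 12, 5, 13], [12, 3, 11,
    14, 8, 6], [13, 3, 12, 15], [12, 4, 8, 15]]
  P := {
    a := 7
    N := 16
    nb := [898, 1677, 2570, 15414, 22856, 45064, 37136, 1283, 49873, 2311, 8330, 16924, 32888, 33832,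
      2320, 12640]
    tri := [(0, 1, 7), (0, 1, 9), (0, 7, 8), (0, 8, 9), (1, 2, 3), (1, 2, 9), (1, 3, 10), (1, 7, 10),
      (2, 3, 11), (2, 9, 11), (3, 4, 11), (3, 4, 12), (3, 5, 12), (3, 5, 13), (3, 10, 13), (4, 6,
      8), (4, 6, 12), (4, 8, 14), (4, 11, 14), (5, 12, 15), (5, 13, 15), (6, 8, 15), (6, 12, 15)]
    fin := [0, 1, 1, 3, 4, 3, 4, 0, 8, 1, 1, 3, 3, 13, 4, 15]
    chd := [(3, 13), (4, 15)]
    steps := [(0, 7), (1, 2), (1, 9), (1, 10), (3, 5), (3, 11), (3, 12), (4, 6), (4, 14)] }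
  rep := [3, 1, 13, 8, 15, 0, 4]

noncomputable def v2905 : Cov.CovD where
  P := 3
  N := 4
  pl := [0, 1]
  lev := [⟨[], [], [], [3, 5], [(2, 1, [])]⟩,
    ⟨[], [(0, 1)], [(1, 1)], [5], [(2, 1, []), (3, 1, [])]⟩,
    ⟨[(0, 1)], [(0, 1), (1, 0), (1, 1)], [(0, 1)], [], [(2, 1, []), (4, 0, [2])]⟩,
    ⟨[(0, 1), (1, 2)], [(1, 0), (1, 1), (1, 2), (2, 0), (2, 1), (2, 2)], [(0, 0), (0, 1),
      (0, 2), (1, 2)], [], [(3, 1, []), (4, 0, [2]), (5, 0, [2]), (6, 2, [0])]⟩,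
    ⟨[(1, 3), (2, 3)], [(2, 0), (3, 0), (3, 1), (3, 2), (3, 6)], [(0, 0), (0, 6)], [3],
      [(4, 0, [2]), (5, 0, [2]), (7, 6, [4])]⟩,
    ⟨[(1, 3), (2, 3), (3, 4)], [(3, 0), (3, 1), (3, 2), (3, 4), (4, 0)], [(0, 2), (0, 4),
      (2, 4)], [], [(5, 0, [2]), (6, 2, [0]), (8, 4, [6])]⟩,
    ⟨[(3, 4)], [(3, 0), (4, 0), (4, 4), (4, 6), (5, 0), (5, 4)], [(0, 4)], [3], [(5, 0,
      [2]), (8, 4, [6])]⟩]
  Ta := [((2, 1), 1, 3), ((2, 4), 1, 0), ((3, 0), 1, 5), ((3, 6), 1, 2), ((4, 2), 0, 1), ((4, 7),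
    0, 6), ((5, 8), 0, 4)]
  Tb := [((0, 1, 3), 5, 3, 1), ((1, 0, 2), 3, 5, 1), ((1, 0, 7), 3, 5, 6), ((1, 0, 8), 3, 5, 4),
    ((1, 2, 7), 3, 1, 6), ((1, 2, 8), 3, 1, 4), ((1, 7, 8), 3, 6, 4), ((2, 1, 4), 1, 3, 0),
    ((3, 0, 6), 1, 5, 2), ((4, 2, 7), 0, 1, 6), ((6, 3, 8), 2, 1, 4), ((7, 1, 4), 6, 3, 0),
    ((8, 1, 5), 4, 3, 0), ((8, 1, 6), 4, 3, 2), ((8, 5, 6), 4, 0, 2)]
  Tc := []
  Td := [((0, 2), (4, 2), 1), ((0, 2), (4, 7), 6), ((0, 2), (5, 8), 4), ((2, 0), (6, 3), 1), ((2,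
    0), (6, 8), 4), ((4, 6), (8, 1), 3), ((4, 6), (8, 5), 0), ((4, 6), (8, 6), 2), ((6, 4),
    (7, 1), 3), ((6, 4), (7, 4), 0)]
  G := [[0, 0x81c8181e4284111c44e8242121125e842e, 0x6288a448a2446884121211ae481d, 0,
    0x6181c2481284c224168841212129e841d], [0, 0, 0x2288a42822446884122212ce421d,
    0x212121e8421216248c852, 0x2141682421c168422884c2181a8417], [0, 0,
    0x6288a418d24468841241211aac41d, 0, 0xa888c242288a8442884d426244ae81422a2c2ae841d], [0,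
    0, 0x2288a42822446824221281ce821d, 0x24482c2822cec182c2828e4892,
    0x2282aa8442242a68142222c2ae841e]]

noncomputable def n2905 : Ent := ⟨e2905, noF, [], [], []⟩

def c2905 : PLift (Cov.check n2905.C.D v2905 = true) := ⟨by decide +kernel⟩

def b2905 : PLift (entF (fidx ts) 400 2905 n2905 = true) := ⟨by decide +kernel⟩

theorem g2905 : GoodF (fidx ts) 400 2905 := GoodF.ofV v2905 n2905 c2905.down b2905.down

/-- 4648644:2296/3 -/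
noncomputable def e2906 : SCfg where
  D := {
    a := 7
    L := 10
    kp := 7
    inn := [(0, 1), (1, 0), (1, 2), (1, 3), (2, 1), (2, 3), (3, 1), (3, 2), (3, 4), (3, 5), (4, 3), (4,
      6), (5, 3), (6, 4)]
    mix := [(0, 0), (0, 1), (0, 2), (1, 0), (1, 2), (1, 3), (2, 2), (2, 4), (3, 3), (3, 4), (3, 5), (3,
      6), (4, 1), (4, 4), (4, 5), (4, 7), (5, 5), (5, 6), (5, 8), (6, 1), (6, 5), (6, 9)]
    cl := [2, 3, 1, 0, 0, 0, 4, 5, 7, 6]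
    chq := [(1, 2), (2, 1), (5, 6), (6, 5)]
    rng := [(0, 1), (0, 3), (1, 0), (1, 2), (1, 7), (1, 9), (2, 1), (2, 4), (3, 0), (3, 6), (4, 2), (4,
      7), (5, 8), (5, 9), (6, 3), (6, 8), (7, 1), (7, 4), (8, 5), (8, 6), (9, 1), (9, 5)]
    lev := [] }
  links := [[1, 7, 8, 9], [7, 0, 9, 2, 3, 10], [3, 1, 9, 11], [10, 1, 2, 11, 4, 12, 5, 13], [12, 3, 11,
    14, 8, 6], [13, 3, 12, 15], [12, 4, 8, 16]]
  P := {
    a := 7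
    N := 17
    nb := [898, 1677, 2570, 15414, 22856, 45064, 69904, 1283, 82641, 2311, 8330, 16924, 98424, 33832,
      2320, 12320, 4416]
    tri := [(0, 1, 7), (0, 1, 9), (0, 7, 8), (0, 8, 9), (1, 2, 3), (1, 2, 9), (1, 3, 10), (1, 7, 10),
      (2, 3, 11), (2, 9, 11), (3, 4, 11), (3, 4, 12), (3, 5, 12), (3, 5, 13), (3, 10, 13), (4, 6,
      8), (4, 6, 12), (4, 8, 14), (4, 11, 14), (5, 12, 15), (5, 13, 15), (6, 8, 16), (6, 12, 16)]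
    fin := [0, 0, 0, 3, 4, 3, 4, 0, 8, 9, 3, 3, 3, 13, 4, 15, 16]
    chd := [(0, 9), (4, 16)]
    steps := [(0, 1), (0, 2), (0, 7), (3, 5), (3, 11), (3, 12), (3, 10), (4, 6), (4, 14)] }
  rep := [3, 9, 0, 8, 13, 4, 16, 15]

noncomputable def v2906 : Cov.CovD where
  P := 3
  N := 5
  pl := [1, 6, 8]
  lev := [⟨[], [], [(1, 2)], [3], [(0, 2, [1]), (2, 1, [2])]⟩,
    ⟨[], [(0, 0), (0, 1), (0, 2)], [(0, 1), (0, 2), (1, 2)], [], [(0, 2, [1]), (2, 1, [2]),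
      (3, 0, [])]⟩,
    ⟨[(0, 1)], [(0, 1), (1, 0), (1, 1), (1, 2)], [(0, 1)], [], [(2, 1, [2]), (4, 0, [])]⟩,
    ⟨[(0, 1), (1, 2)], [(1, 0), (1, 1), (1, 2), (2, 0), (2, 1)], [(0, 0)], [4], [(3, 0,
      []), (4, 0, []), (5, 0, [])]⟩,
    ⟨[(1, 3), (2, 3)], [(2, 0), (3, 0), (3, 5)], [(0, 0), (0, 5)], [3], [(4, 0, []), (5, 0,
      []), (7, 5, [6])]⟩,
    ⟨[(1, 3), (2, 3), (3, 4)], [(3, 0), (4, 0)], [], [4, 7], [(5, 0, [])]⟩,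
    ⟨[(3, 4)], [(3, 0), (4, 0), (4, 5), (4, 6), (5, 0)], [(0, 6)], [3], [(5, 0, []), (9, 6,
      [5])]⟩]
  Ta := [((3, 0), 0, 2), ((3, 6), 0, 4), ((4, 2), 0, 1), ((4, 7), 0, 5), ((5, 8), 0, 7), ((5, 9),
    0, 6)]
  Tb := [((0, 1, 3), 2, 3, 0), ((1, 0, 2), 3, 2, 1), ((1, 0, 7), 3, 2, 5), ((1, 0, 9), 3, 2, 6),
    ((1, 2, 7), 3, 1, 5), ((1, 2, 9), 3, 1, 6), ((1, 7, 9), 3, 5, 6), ((2, 1, 4), 1, 3, 0),
    ((3, 0, 6), 0, 2, 4), ((4, 2, 7), 0, 1, 5), ((5, 8, 9), 0, 7, 6), ((6, 3, 8), 4, 0, 7),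
    ((7, 1, 4), 5, 3, 0), ((8, 5, 6), 7, 0, 4), ((9, 1, 5), 6, 3, 0)]
  Tc := []
  Td := [((1, 2), (2, 1), 3), ((1, 2), (2, 4), 0), ((2, 1), (0, 1), 3), ((2, 1), (0, 3), 0), ((5,
    6), (7, 1), 3), ((5, 6), (7, 4), 0), ((6, 5), (9, 1), 3), ((6, 5), (9, 5), 0)]
  G := [[0, 0, 0x6181a6181a64811c416a1416a14c, 0x2188ca22681aa4421145611a14966889,
    0x6181c66a88ac6181127c16211166c189], [0, 0x6181a11a81a648a1416412a14e28c, 0,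
    0x2181a2181a6812141621416c28c, 0x6181a6181c648a1c1621416a489], [0, 0, 0,
    0x22c886a22a8688a28c122c44a64222264e442461c,
    0x66c88ca66a888ec618a844ce6222ec866a4c268989]]

noncomputable def n2906 : Ent := ⟨e2906, noF, [], [], [(16, 15, [1685356702439545624007900436039642273970977273354372543760011988993, 0])]⟩

def c2906 : PLift (Cov.check n2906.C.D v2906 = true) := ⟨by decide +kernel⟩

def b2906 : PLift (entF (fidx ts) 400 2906 n2906 = true) := ⟨by decide +kernel⟩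

theorem g2906 : GoodF (fidx ts) 400 2906 := GoodF.ofV v2906 n2906 c2906.down b2906.down

/-- 4648644:2296/6 -/
noncomputable def e2907 : SCfg where
  D := {
    a := 7
    L := 9
    kp := 6
    inn := [(0, 1), (1, 0), (1, 2), (1, 3), (2, 1), (2, 3), (3, 1), (3, 2), (3, 4), (3, 5), (4, 3), (4,
      6), (5, 3), (6, 4)]
    mix := [(0, 0), (0, 1), (0, 2), (1, 0), (1, 2), (1, 3), (2, 2), (2, 4), (3, 3), (3, 4), (3, 5), (3,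
      6), (4, 4), (4, 5), (4, 7), (4, 8), (5, 1), (5, 5), (5, 6), (6, 1), (6, 5), (6, 8)]
    cl := [2, 1, 0, 0, 3, 3, 4, 6, 5]
    chq := [(1, 6), (3, 4), (4, 3), (6, 1)]
    rng := [(0, 1), (0, 3), (1, 0), (1, 2), (1, 5), (1, 6), (1, 8), (2, 1), (2, 4), (3, 0), (3, 6), (4,
      2), (4, 7), (5, 1), (6, 1), (6, 3), (7, 4), (7, 8), (8, 1), (8, 7)]
    lev := [] }
  links := [[1, 7, 8, 9], [7, 0, 9, 2, 3, 10], [3, 1, 9, 11], [10, 1, 2, 11, 4, 12, 5, 13], [12, 3, 11,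
    14, 15, 6], [13, 3, 12, 8], [12, 4, 15, 8]]
  P := {
    a := 7
    N := 16
    nb := [898, 1677, 2570, 15414, 55368, 12552, 37136, 1283, 45793, 2311, 8330, 16924, 376, 1320,
      34832, 16720]
    tri := [(0, 1, 7), (0, 1, 9), (0, 7, 8), (0, 8, 9), (1, 2, 3), (1, 2, 9), (1, 3, 10), (1, 7, 10),
      (2, 3, 11), (2, 9, 11), (3, 4, 11), (3, 4, 12), (3, 5, 12), (3, 5, 13), (3, 10, 13), (4, 6,
      12), (4, 6, 15), (4, 11, 14), (4, 14, 15), (5, 8, 12), (5, 8, 13), (6, 8, 12), (6, 8, 15)]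
    fin := [0, 1, 1, 3, 4, 4, 4, 0, 4, 1, 1, 3, 3, 13, 14, 15]
    chd := [(3, 13), (4, 14)]
    steps := [(0, 7), (1, 2), (1, 9), (1, 10), (3, 11), (3, 12), (4, 6), (4, 8), (4, 5)] }
  rep := [1, 4, 0, 3, 13, 15, 14]

noncomputable def v2907 : Cov.CovD where
  P := 3
  N := 4
  pl := [0, 8]
  lev := [⟨[], [], [(0, 1)], [2], [(1, 1, [6]), (2, 0, [])]⟩,
    ⟨[], [(0, 0), (0, 1)], [(0, 0)], [2], [(2, 0, []), (3, 0, [])]⟩,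
    ⟨[(0, 1)], [(0, 0), (1, 0), (1, 3)], [(0, 3)], [], [(2, 0, []), (4, 3, [4])]⟩,
    ⟨[(0, 1), (1, 2)], [(1, 0), (1, 3), (1, 4), (2, 0), (2, 3), (2, 4)], [(0, 3), (0, 4),
      (3, 3), (3, 4)], [], [(3, 0, []), (4, 3, [4]), (5, 3, [4]), (6, 4, [3])]⟩,
    ⟨[(1, 3), (2, 3)], [(2, 3), (3, 0), (3, 3), (3, 4), (3, 6)], [(3, 3), (3, 6)], [5],
      [(4, 3, [4]), (5, 3, [4]), (7, 6, [1])]⟩,
    ⟨[(1, 3), (2, 3), (3, 4)], [(0, 1), (3, 0), (3, 1), (3, 3), (3, 4), (4, 3)], [(1, 3),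
      (1, 4), (3, 4)], [], [(1, 1, [6]), (5, 3, [4]), (6, 4, [3])]⟩,
    ⟨[(3, 4)], [(0, 1), (3, 3), (4, 1), (4, 3), (4, 6), (5, 1), (5, 3)], [(1, 3)], [5],
      [(1, 1, [6]), (5, 3, [4])]⟩]
  Ta := [((2, 1), 0, 1), ((2, 4), 0, 3), ((3, 0), 0, 2), ((3, 6), 0, 4), ((4, 2), 3, 0), ((4, 7),
    3, 6), ((5, 1), 3, 1)]
  Tb := [((0, 1, 3), 2, 1, 0), ((1, 0, 2), 1, 2, 0), ((1, 0, 5), 1, 2, 3), ((1, 0, 6), 1, 2, 4),
    ((1, 0, 8), 1, 2, 5), ((1, 2, 5), 1, 0, 3), ((1, 2, 6), 1, 0, 4), ((1, 2, 8), 1, 0, 5),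
    ((1, 5, 6), 1, 3, 4), ((1, 5, 8), 1, 3, 5), ((1, 6, 8), 1, 4, 5), ((2, 1, 4), 0, 1, 3),
    ((3, 0, 6), 0, 2, 4), ((4, 2, 7), 3, 0, 6), ((6, 1, 3), 4, 1, 0), ((7, 4, 8), 6, 3, 5),
    ((8, 1, 7), 5, 1, 6)]
  Tc := []
  Td := [((1, 6), (1, 0), 2), ((1, 6), (1, 2), 0), ((1, 6), (1, 5), 3), ((1, 6), (1, 6), 4), ((1,
    6), (1, 8), 5), ((3, 4), (4, 2), 0), ((3, 4), (4, 7), 6), ((3, 4), (5, 1), 1), ((4, 3),
    (6, 1), 1), ((4, 3), (6, 3), 0), ((6, 1), (7, 4), 3), ((6, 1), (7, 8), 5)]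
  G := [[0, 0x2418244c5a41a41681eac21621a8c4, 0, 0xc122c122c84, 0x814141d22c1214259c2d2a8], [0,
    0xe4142e212e818ac8, 0, 0xd122488, 0x111d1264181814111d88c44c95ceb4a8], [0, 0,
    0x512912c4181c111f2348, 0x95522148, 0xc1221982c4248c44c119de1a8], [0, 0,
    0x51489118f511138141d111fe18191c4168, 0x95dd22148,
    0x889145d111f2451489818f84915414fc1a8]]

noncomputable def n2907 : Ent := ⟨e2907, noF, [], [], []⟩

def c2907 : PLift (Cov.check n2907.C.D v2907 = true) := ⟨by decide +kernel⟩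

def b2907 : PLift (entF (fidx ts) 400 2907 n2907 = true) := ⟨by decide +kernel⟩

theorem g2907 : GoodF (fidx ts) 400 2907 := GoodF.ofV v2907 n2907 c2907.down b2907.down

/-- 4648644:2296/5 -/
noncomputable def e2908 : SCfg where
  D := {
    a := 7
    L := 10
    kp := 7
    inn := [(0, 1), (1, 0), (1, 2), (1, 3), (2, 1), (2, 3), (3, 1), (3, 2), (3, 4), (3, 5), (4, 3), (4,
      6), (5, 3), (6, 4)]
    mix := [(0, 0), (0, 1), (0, 2), (1, 0), (1, 2), (1, 3), (2, 2), (2, 4), (3, 3), (3, 4), (3, 5), (3,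
      6), (4, 4), (4, 5), (4, 7), (4, 8), (5, 5), (5, 6), (5, 9), (6, 1), (6, 5), (6, 8)]
    cl := [1, 2, 3, 0, 0, 0, 4, 6, 5, 7]
    chq := [(1, 3), (2, 6), (3, 1), (6, 2)]
    rng := [(0, 1), (0, 3), (1, 0), (1, 2), (1, 5), (1, 8), (2, 1), (2, 4), (3, 0), (3, 6), (4, 2), (4,
      7), (5, 1), (5, 9), (6, 3), (6, 9), (7, 4), (7, 8), (8, 1), (8, 7), (9, 5), (9, 6)]
    lev := [] }
  links := [[1, 7, 8, 9], [7, 0, 9, 2, 3, 10], [3, 1, 9, 11], [10, 1, 2, 11, 4, 12, 5, 13], [12, 3, 11,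
    14, 15, 6], [13, 3, 12, 16], [12, 4, 15, 8]]
  P := {
    a := 7
    N := 17
    nb := [898, 1677, 2570, 15414, 55368, 77832, 37136, 1283, 37569, 2311, 8330, 16924, 65912, 66600,
      34832, 16720, 12320]
    tri := [(0, 1, 7), (0, 1, 9), (0, 7, 8), (0, 8, 9), (1, 2, 3), (1, 2, 9), (1, 3, 10), (1, 7, 10),
      (2, 3, 11), (2, 9, 11), (3, 4, 11), (3, 4, 12), (3, 5, 12), (3, 5, 13), (3, 10, 13), (4, 6,
      12), (4, 6, 15), (4, 11, 14), (4, 14, 15), (5, 12, 16), (5, 13, 16), (6, 8, 12), (6, 8, 15)]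
    fin := [0, 0, 0, 3, 4, 3, 4, 0, 4, 9, 3, 3, 3, 13, 14, 15, 16]
    chd := [(0, 9), (4, 14)]
    steps := [(0, 1), (0, 2), (0, 7), (3, 5), (3, 11), (3, 12), (3, 10), (4, 6), (4, 8)] }
  rep := [3, 0, 4, 9, 13, 15, 14, 16]

noncomputable def v2908 : Cov.CovD where
  P := 3
  N := 5
  pl := [6, 8, 9]
  lev := [⟨[], [], [(1, 2), (1, 3), (2, 3)], [], [(0, 1, [3]), (1, 2, [6]), (2, 3, [1])]⟩,
    ⟨[], [(0, 0), (0, 1), (0, 2), (0, 3)], [(0, 1), (0, 3), (1, 3)], [], [(0, 1, [3]), (2,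
      3, [1]), (3, 0, [])]⟩,
    ⟨[(0, 1)], [(0, 3), (1, 0), (1, 1), (1, 3)], [(0, 3)], [], [(2, 3, [1]), (4, 0, [])]⟩,
    ⟨[(0, 1), (1, 2)], [(1, 0), (1, 1), (1, 3), (2, 0), (2, 3)], [(0, 0)], [4], [(3, 0,
      []), (4, 0, []), (5, 0, [])]⟩,
    ⟨[(1, 3), (2, 3)], [(2, 0), (3, 0), (3, 6)], [(0, 0), (0, 6)], [5], [(4, 0, []), (5, 0,
      []), (7, 6, [2])]⟩,
    ⟨[(1, 3), (2, 3), (3, 4)], [(3, 0), (4, 0)], [], [4, 7], [(5, 0, [])]⟩,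
    ⟨[(3, 4)], [(0, 2), (3, 0), (4, 0), (4, 2), (4, 6), (5, 0)], [(0, 2)], [5], [(1, 2,
      [6]), (5, 0, [])]⟩]
  Ta := [((3, 0), 0, 1), ((3, 6), 0, 4), ((4, 2), 0, 3), ((4, 7), 0, 6), ((5, 1), 0, 2), ((5, 9),
    0, 7)]
  Tb := [((0, 1, 3), 1, 2, 0), ((1, 0, 2), 2, 1, 3), ((1, 0, 5), 2, 1, 0), ((1, 0, 8), 2, 1, 5),
    ((1, 2, 5), 2, 3, 0), ((1, 2, 8), 2, 3, 5), ((1, 5, 8), 2, 0, 5), ((2, 1, 4), 3, 2, 0),
    ((3, 0, 6), 0, 1, 4), ((4, 2, 7), 0, 3, 6), ((5, 1, 9), 0, 2, 7), ((6, 3, 9), 4, 0, 7),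
    ((7, 4, 8), 6, 0, 5), ((8, 1, 7), 5, 2, 6), ((9, 5, 6), 7, 0, 4)]
  Tc := []
  Td := [((1, 3), (0, 1), 2), ((1, 3), (0, 3), 0), ((2, 6), (1, 0), 1), ((2, 6), (1, 2), 3), ((2,
    6), (1, 5), 0), ((2, 6), (1, 8), 5), ((3, 1), (2, 1), 2), ((3, 1), (2, 4), 0), ((6, 2),
    (7, 4), 0), ((6, 2), (7, 8), 5)]
  G := [[0, 0x4181c1e8141c1e6184181c1e8141c1ea14c, 0, 0x99c2c126114cd28c32c2c1,
    0x3a54aa94a2211ac21ce886a181ea4c1], [0, 0, 0, 0xc1242c12289c1282c12425c,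
    0x81a121e21a1c6221282c21a121e81a181ea449], [0, 0,
    0x88c226a88a446c644c22a68a144c22a688a446ca88c226a461c, 0xcca2cc62c21cca2cc62c21c,
    0xaa642aac48a124aac828ee2822a888eaa684ee149]]

noncomputable def n2908 : Ent := ⟨e2908, noF, [], [], [(8, 16, [1580044410770988437309982408355971841652082177953823432505701019649, 0])]⟩

def c2908 : PLift (Cov.check n2908.C.D v2908 = true) := ⟨by decide +kernel⟩

def b2908 : PLift (entF (fidx ts) 400 2908 n2908 = true) := ⟨by decide +kernel⟩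

theorem g2908 : GoodF (fidx ts) 400 2908 := GoodF.ofV v2908 n2908 c2908.down b2908.down

/-- 4648644:2296/7 -/
noncomputable def e2909 : SCfg where
  D := {
    a := 7
    L := 10
    kp := 7
    inn := [(0, 1), (1, 0), (1, 2), (1, 3), (2, 1), (2, 3), (3, 1), (3, 2), (3, 4), (3, 5), (4, 3), (4,
      6), (5, 3), (6, 4)]
    mix := [(0, 0), (0, 1), (0, 2), (1, 0), (1, 2), (1, 3), (2, 2), (2, 4), (3, 3), (3, 4), (3, 5), (3,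
      6), (4, 4), (4, 5), (4, 7), (4, 8), (5, 1), (5, 5), (5, 6), (6, 5), (6, 8), (6, 9)]
    cl := [1, 2, 0, 0, 3, 3, 4, 6, 5, 7]
    chq := [(3, 4), (4, 3), (6, 7), (7, 6)]
    rng := [(0, 1), (0, 3), (1, 0), (1, 2), (1, 5), (1, 6), (2, 1), (2, 4), (3, 0), (3, 6), (4, 2), (4,
      7), (5, 1), (5, 9), (6, 1), (6, 3), (7, 4), (7, 8), (8, 7), (8, 9), (9, 5), (9, 8)]
    lev := [] }
  links := [[1, 7, 8, 9], [7, 0, 9, 2, 3, 10], [3, 1, 9, 11], [10, 1, 2, 11, 4, 12, 5, 13], [12, 3, 11,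
    14, 15, 6], [13, 3, 12, 8], [12, 4, 15, 16]]
  P := {
    a := 7
    N := 17
    nb := [898, 1677, 2570, 15414, 55368, 12552, 102416, 1283, 12961, 2311, 8330, 16924, 65912, 1320,
      34832, 82000, 36928]
    tri := [(0, 1, 7), (0, 1, 9), (0, 7, 8), (0, 8, 9), (1, 2, 3), (1, 2, 9), (1, 3, 10), (1, 7, 10),
      (2, 3, 11), (2, 9, 11), (3, 4, 11), (3, 4, 12), (3, 5, 12), (3, 5, 13), (3, 10, 13), (4, 6,
      12), (4, 6, 15), (4, 11, 14), (4, 14, 15), (5, 8, 12), (5, 8, 13), (6, 12, 16), (6, 15, 16)]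
    fin := [0, 1, 1, 3, 4, 5, 4, 0, 5, 1, 1, 3, 3, 13, 4, 15, 16]
    chd := [(3, 13), (4, 16)]
    steps := [(0, 7), (1, 2), (1, 9), (1, 10), (3, 11), (3, 12), (4, 6), (4, 14), (5, 8)] }
  rep := [1, 0, 5, 3, 13, 15, 4, 16]

noncomputable def v2909 : Cov.CovD where
  P := 3
  N := 5
  pl := [0, 1, 8]
  lev := [⟨[], [], [], [1, 2], [(2, 0, [])]⟩,
    ⟨[], [(0, 0)], [(0, 0)], [1], [(2, 0, []), (3, 0, [])]⟩,
    ⟨[(0, 1)], [(0, 0), (1, 0), (1, 3)], [(0, 3)], [], [(2, 0, []), (4, 3, [4])]⟩,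
    ⟨[(0, 1), (1, 2)], [(1, 0), (1, 3), (1, 4), (2, 0), (2, 3), (2, 4)], [(0, 3), (0, 4),
      (3, 3), (3, 4)], [], [(3, 0, []), (4, 3, [4]), (5, 3, [4]), (6, 4, [3])]⟩,
    ⟨[(1, 3), (2, 3)], [(2, 3), (3, 0), (3, 3), (3, 4), (3, 6)], [(3, 3), (3, 6)], [5],
      [(4, 3, [4]), (5, 3, [4]), (7, 6, [7])]⟩,
    ⟨[(1, 3), (2, 3), (3, 4)], [(3, 0), (3, 3), (3, 4), (4, 3)], [(3, 4)], [2], [(5, 3,
      [4]), (6, 4, [3])]⟩,
    ⟨[(3, 4)], [(3, 3), (4, 3), (4, 6), (4, 7), (5, 3)], [(3, 7)], [5], [(5, 3, [4]), (9,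
      7, [6])]⟩]
  Ta := [((2, 1), 0, 2), ((2, 4), 0, 3), ((3, 0), 0, 1), ((3, 6), 0, 4), ((4, 2), 3, 0), ((4, 7),
    3, 6), ((5, 1), 3, 2), ((5, 9), 3, 7)]
  Tb := [((0, 1, 3), 1, 2, 0), ((1, 0, 2), 2, 1, 0), ((1, 0, 5), 2, 1, 3), ((1, 0, 6), 2, 1, 4),
    ((1, 2, 5), 2, 0, 3), ((1, 2, 6), 2, 0, 4), ((1, 5, 6), 2, 3, 4), ((2, 1, 4), 0, 2, 3),
    ((3, 0, 6), 0, 1, 4), ((4, 2, 7), 3, 0, 6), ((5, 1, 9), 3, 2, 7), ((6, 1, 3), 4, 2, 0),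
    ((7, 4, 8), 6, 3, 5), ((8, 7, 9), 5, 6, 7), ((9, 5, 8), 7, 3, 5)]
  Tc := []
  Td := [((3, 4), (4, 2), 0), ((3, 4), (4, 7), 6), ((3, 4), (5, 1), 2), ((3, 4), (5, 9), 7), ((4,
    3), (6, 1), 2), ((4, 3), (6, 3), 0), ((6, 7), (7, 4), 3), ((6, 7), (7, 8), 5), ((7, 6),
    (9, 5), 3), ((7, 6), (9, 8), 5)]
  G := [[0, 0, 0x8212c4146c2162165a92c72818481389c669ec8, 0x619441b2a1c18172c84,
    0x6158a1b12c181739a47461a128d84c8], [0, 0, 0xe21753e9b3e95dee3e4146e8182c8,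
    0x3131d1e1f2488, 0x51b151e1fe1173a93a9dae72e1188c8], [0, 0x9184c1741819161f6131c841b81a8,
    0, 0x4498859956a9f2184, 0x52a158a1f9281c27616138a8d84c8], [0,
    0x51b154e4f3131d1e1f61719898e8f81c4, 0, 0x339335a6edd295dd22344,
    0x3232d1e2f2559b1553e1f46719898e8f82c1]]

noncomputable def n2909 : Ent := ⟨e2909, noF, [], [], [(8, 16, [1580044410770988437309982408355971841652082177953823432505701019649, 0])]⟩

def c2909 : PLift (Cov.check n2909.C.D v2909 = true) := ⟨by decide +kernel⟩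

def b2909 : PLift (entF (fidx ts) 400 2909 n2909 = true) := ⟨by decide +kernel⟩

theorem g2909 : GoodF (fidx ts) 400 2909 := GoodF.ofV v2909 n2909 c2909.down b2909.down

/-- 4648644:2296/8 -/
noncomputable def e2910 : SCfg where
  D := {
    a := 7
    L := 10
    kp := 7
    inn := [(0, 1), (1, 0), (1, 2), (1, 3), (2, 1), (2, 3), (3, 1), (3, 2), (3, 4), (3, 5), (4, 3), (4,
      6), (5, 3), (6, 4)]
    mix := [(0, 0), (0, 1), (0, 2), (1, 0), (1, 2), (1, 3), (2, 2), (2, 4), (3, 3), (3, 4), (3, 5), (3,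
      6), (4, 4), (4, 5), (4, 7), (4, 8), (5, 5), (5, 6), (5, 9), (6, 5), (6, 8), (6, 9)]
    cl := [2, 7, 1, 0, 0, 0, 4, 6, 5, 3]
    chq := [(1, 2), (2, 1), (3, 6), (6, 3)]
    rng := [(0, 1), (0, 3), (1, 0), (1, 2), (2, 1), (2, 4), (3, 0), (3, 6), (4, 2), (4, 7), (5, 9), (6,
      3), (6, 9), (7, 4), (7, 8), (8, 7), (8, 9), (9, 5), (9, 6), (9, 8)]
    lev := [] }
  links := [[1, 7, 8, 9], [7, 0, 9, 2, 3, 10], [3, 1, 9, 11], [10, 1, 2, 11, 4, 12, 5, 13], [12, 3, 11,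
    14, 15, 6], [13, 3, 12, 16], [12, 4, 15, 16]]
  P := {
    a := 7
    N := 17
    nb := [898, 1677, 2570, 15414, 55368, 77832, 102416, 1283, 641, 2311, 8330, 16924, 65656, 66600,
      34832, 82000, 45152]
    tri := [(0, 1, 7), (0, 1, 9), (0, 7, 8), (0, 8, 9), (1, 2, 3), (1, 2, 9), (1, 3, 10), (1, 7, 10),
      (2, 3, 11), (2, 9, 11), (3, 4, 11), (3, 4, 12), (3, 5, 12), (3, 5, 13), (3, 10, 13), (4, 6,
      12), (4, 6, 15), (4, 11, 14), (4, 14, 15), (5, 12, 16), (5, 13, 16), (6, 12, 16), (6, 15,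
      16)]
    fin := [0, 0, 0, 3, 4, 3, 4, 0, 8, 9, 3, 3, 3, 13, 4, 15, 16]
    chd := [(0, 9), (4, 16)]
    steps := [(0, 1), (0, 2), (0, 7), (3, 5), (3, 11), (3, 12), (3, 10), (4, 6), (4, 14)] }
  rep := [3, 9, 0, 16, 13, 15, 4, 8]

noncomputable def v2910 : Cov.CovD where
  P := 3
  N := 5
  pl := [1, 6, 8]
  lev := [⟨[], [], [(1, 2)], [7], [(0, 2, [1]), (2, 1, [2])]⟩,
    ⟨[], [(0, 0), (0, 1), (0, 2)], [(0, 1), (0, 2), (1, 2)], [], [(0, 2, [1]), (2, 1, [2]),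
      (3, 0, [])]⟩,
    ⟨[(0, 1)], [(0, 1), (1, 0), (1, 1), (1, 2)], [(0, 1)], [], [(2, 1, [2]), (4, 0, [])]⟩,
    ⟨[(0, 1), (1, 2)], [(1, 0), (1, 1), (1, 2), (2, 0), (2, 1)], [(0, 0)], [4], [(3, 0,
      []), (4, 0, []), (5, 0, [])]⟩,
    ⟨[(1, 3), (2, 3)], [(2, 0), (3, 0), (3, 6)], [(0, 0), (0, 6)], [5], [(4, 0, []), (5, 0,
      []), (7, 6, [3])]⟩,
    ⟨[(1, 3), (2, 3), (3, 4)], [(3, 0), (3, 3), (4, 0)], [(0, 3)], [4], [(5, 0, []), (9, 3,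
      [6])]⟩,
    ⟨[(3, 4)], [(3, 0), (4, 0), (4, 3), (4, 6), (5, 0), (5, 3)], [(0, 3)], [5], [(5, 0,
      []), (9, 3, [6])]⟩]
  Ta := [((3, 0), 0, 2), ((3, 6), 0, 4), ((4, 2), 0, 1), ((4, 7), 0, 6), ((5, 9), 0, 3)]
  Tb := [((0, 1, 3), 2, 7, 0), ((1, 0, 2), 7, 2, 1), ((2, 1, 4), 1, 7, 0), ((3, 0, 6), 0, 2, 4),
    ((4, 2, 7), 0, 1, 6), ((6, 3, 9), 4, 0, 3), ((7, 4, 8), 6, 0, 5), ((8, 7, 9), 5, 6, 3),
    ((9, 5, 6), 3, 0, 4), ((9, 5, 8), 3, 0, 5), ((9, 6, 8), 3, 4, 5)]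
  Tc := []
  Td := [((1, 2), (2, 1), 7), ((1, 2), (2, 4), 0), ((2, 1), (0, 1), 7), ((2, 1), (0, 3), 0), ((3,
    6), (9, 5), 0), ((3, 6), (9, 6), 4), ((3, 6), (9, 8), 5), ((6, 3), (7, 4), 0), ((6, 3),
    (7, 8), 5)]
  G := [[0, 0, 0x61a1c1e61a1c1ea4461a1c1e61a1149e688c,
    0x11ca1525e611ca849e618816a43485e2611498c9e8a4c,
    0x614c3a81a8a9149e6122b4458585a121ce18343ac1e6889], [0,
    0x61a1c1e61a1185ea4461a1c1e81aa1c1e688c, 0, 0x61149c1e84441261a1185ea84185a1c1e488d,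
    0x61c1a4461149c1ea14a49a1c1661c1a143a1ce489], [0, 0, 0,
    0xa2cc24e622246a4a6c4ee26c846186cc86a4246a4a6c2a4cc2a68ac5,
    0x26cc26a4a4cc2a646a4a6cac186ca82c2ee86a44aec8e6242268989]]

noncomputable def n2910 : Ent := ⟨e2910, noF, [], [], [(8, 14, [1685382413448253767852309107433119732572617628602273068445376802817, 0]), (8, 15, [1685356702439545624007900436039642273970977273354372543760011988993, 0]), (8, 16, [1580044410770988437309982408355971841652082177953823432505701019649, 0])]⟩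

def c2910 : PLift (Cov.check n2910.C.D v2910 = true) := ⟨by decide +kernel⟩

def b2910 : PLift (entF (fidx ts) 400 2910 n2910 = true) := ⟨by decide +kernel⟩

theorem g2910 : GoodF (fidx ts) 400 2910 := GoodF.ofV v2910 n2910 c2910.down b2910.down

/-- 4648644:2296 -/
noncomputable def e2911 : SCfg where
  D := {
    a := 7
    L := 11
    kp := 8
    inn := [(0, 1), (1, 0), (1, 2), (1, 3), (2, 1), (2, 3), (3, 1), (3, 2), (3, 4), (3, 5), (4, 3), (4,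
      6), (5, 3), (6, 4)]
    mix := [(0, 0), (0, 1), (0, 2), (1, 0), (1, 2), (1, 3), (2, 2), (2, 4), (3, 3), (3, 4), (3, 5), (3,
      6), (4, 4), (4, 5), (4, 7), (4, 8), (5, 5), (5, 6), (5, 9), (6, 5), (6, 8), (6, 10)]
    cl := [2, 7, 1, 0, 0, 0, 3, 5, 4, 8, 6]
    chq := [(1, 2), (2, 1), (5, 6), (6, 5)]
    rng := [(0, 1), (0, 3), (1, 0), (1, 2), (2, 1), (2, 4), (3, 0), (3, 6), (4, 2), (4, 7), (5, 9), (5,
      10), (6, 3), (6, 9), (7, 4), (7, 8), (8, 7), (8, 10), (9, 5), (9, 6), (10, 5), (10, 8)]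
    lev := [] }
  links := [[1, 7, 8, 9], [7, 0, 9, 2, 3, 10], [3, 1, 9, 11], [10, 1, 2, 11, 4, 12, 5, 13], [12, 3, 11,
    14, 15, 6], [13, 3, 12, 16], [12, 4, 15, 17]]
  P := {
    a := 7
    N := 18
    nb := [898, 1677, 2570, 15414, 55368, 77832, 167952, 1283, 641, 2311, 8330, 16924, 196728, 66600,
      34832, 147536, 12320, 36928]
    tri := [(0, 1, 7), (0, 1, 9), (0, 7, 8), (0, 8, 9), (1, 2, 3), (1, 2, 9), (1, 3, 10), (1, 7, 10),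
      (2, 3, 11), (2, 9, 11), (3, 4, 11), (3, 4, 12), (3, 5, 12), (3, 5, 13), (3, 10, 13), (4, 6,
      12), (4, 6, 15), (4, 11, 14), (4, 14, 15), (5, 12, 16), (5, 13, 16), (6, 12, 17), (6, 15,
      17)]
    fin := [0, 0, 0, 3, 4, 3, 4, 0, 8, 9, 3, 3, 3, 13, 4, 15, 16, 17]
    chd := [(0, 9), (4, 17)]
    steps := [(0, 1), (0, 2), (0, 7), (3, 5), (3, 11), (3, 12), (3, 10), (4, 6), (4, 14)] }
  rep := [3, 9, 0, 13, 15, 4, 17, 8, 16]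

noncomputable def v2911 : Cov.CovD where
  P := 3
  N := 6
  pl := [1, 6, 8, 9]
  lev := [⟨[], [], [(1, 2)], [7], [(0, 2, [1]), (2, 1, [2])]⟩,
    ⟨[], [(0, 0), (0, 1), (0, 2)], [(0, 1), (0, 2), (1, 2)], [], [(0, 2, [1]), (2, 1, [2]),
      (3, 0, [])]⟩,
    ⟨[(0, 1)], [(0, 1), (1, 0), (1, 1), (1, 2)], [(0, 1)], [], [(2, 1, [2]), (4, 0, [])]⟩,
    ⟨[(0, 1), (1, 2)], [(1, 0), (1, 1), (1, 2), (2, 0), (2, 1)], [(0, 0)], [3], [(3, 0,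
      []), (4, 0, []), (5, 0, [])]⟩,
    ⟨[(1, 3), (2, 3)], [(2, 0), (3, 0), (3, 5)], [(0, 0), (0, 5)], [4], [(4, 0, []), (5, 0,
      []), (7, 5, [6])]⟩,
    ⟨[(1, 3), (2, 3), (3, 4)], [(3, 0), (4, 0)], [], [3, 8], [(5, 0, [])]⟩,
    ⟨[(3, 4)], [(3, 0), (4, 0), (4, 5), (4, 6), (5, 0)], [(0, 6)], [4], [(5, 0, []), (10,
      6, [5])]⟩]
  Ta := [((3, 0), 0, 2), ((3, 6), 0, 3), ((4, 2), 0, 1), ((4, 7), 0, 5), ((5, 9), 0, 8), ((5,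
    10), 0, 6)]
  Tb := [((0, 1, 3), 2, 7, 0), ((1, 0, 2), 7, 2, 1), ((2, 1, 4), 1, 7, 0), ((3, 0, 6), 0, 2, 3),
    ((4, 2, 7), 0, 1, 5), ((5, 9, 10), 0, 8, 6), ((6, 3, 9), 3, 0, 8), ((7, 4, 8), 5, 0, 4),
    ((8, 7, 10), 4, 5, 6), ((9, 5, 6), 8, 0, 3), ((10, 5, 8), 6, 0, 4)]
  Tc := []
  Td := [((1, 2), (2, 1), 7), ((1, 2), (2, 4), 0), ((2, 1), (0, 1), 7), ((2, 1), (0, 3), 0), ((5,
    6), (7, 4), 0), ((5, 6), (7, 8), 4), ((6, 5), (10, 5), 0), ((6, 5), (10, 8), 4)]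
  G := [[0, 0, 0x61a1c1e61116c1ea1411ca1c1e6111ac1e688c,
    0x61a195ce1363a6c1ea14a1416c51ca11a936c1ee189,
    0x63c11ab99ce11aa1c1e618184434461cccba13aa1c1eec89], [0,
    0xa112661c1a6111618ee8461a1c1e61a1c1e688c, 0, 0xa1c1661c1a11aa1ce8461a1c1e61a1c1e681c,
    0x116a1c1e2461a111ce84911ca1c1e61a1c1e6889], [0, 0, 0,
    0xaaccca666aaa6ca66ccc6a46166ccc6a66aaa6c68aaccca684c5,
    0x66ccc6a66aaa6c6aaccca68c1a4c2666ca8cccee66aaaaec8ee189]]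

noncomputable def n2911 : Ent := ⟨e2911, noF, [], [], [(8, 14, [7334790875878422277917280412776772662961875900559637987928627381370881, 0]), (8, 15, [7334790850167413569773436004105379185503274260204390087403942016557057, 0]), (8, 17, [6903326391201334775872065844685381424292761054348340378595029941600257, 0]), (8, 16, [7334685537875745012586738086077695515070955365108989538292687705591809, 0]), (17, 16, [7334685537875745012586738086077695515070955365108989538292687705595905, 0])]⟩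

def c2911 : PLift (Cov.check n2911.C.D v2911 = true) := ⟨by decide +kernel⟩

def b2911 : PLift (entF (fidx ts) 400 2911 n2911 = true) := ⟨by decide +kernel⟩

theorem g2911 : GoodF (fidx ts) 400 2911 := GoodF.ofV v2911 n2911 c2911.down b2911.down

/-- 4648844:2297/1 -/
noncomputable def e2912 : SCfg where
  D := {
    a := 7
    L := 10
    kp := 8
    inn := [(0, 1), (0, 4), (1, 0), (1, 2), (1, 3), (1, 4), (2, 1), (2, 3), (2, 4), (3, 1), (3, 2), (3,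
      5), (3, 6), (4, 0), (4, 1), (4, 2), (5, 3), (6, 3)]
    mix := [(0, 0), (0, 1), (1, 0), (1, 2), (2, 3), (3, 2), (3, 3), (3, 4), (3, 5), (4, 1), (4, 3), (4,
      6), (4, 7), (4, 8), (5, 3), (5, 4), (5, 9), (6, 1), (6, 4), (6, 5)]
    cl := [4, 1, 2, 0, 3, 0, 5, 6, 7, 8]
    chq := [(0, 3), (1, 2), (2, 1), (2, 5), (2, 6), (2, 7), (3, 0), (5, 2), (6, 2), (7, 2)]
    rng := [(0, 1), (0, 2), (1, 0), (1, 4), (1, 5), (1, 6), (2, 0), (2, 5), (3, 8), (3, 9), (4, 1), (4,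
      9), (5, 1), (5, 2), (6, 1), (6, 7), (7, 6), (7, 8), (8, 3), (8, 7), (9, 3), (9, 4)]
    lev := [] }
  links := [[1, 7, 8, 4], [7, 0, 4, 2, 3, 9], [3, 1, 4, 10], [9, 1, 2, 10, 5, 11, 6, 12], [10, 2, 1, 0,
    8, 13, 14, 15], [11, 3, 10, 16], [12, 3, 11, 8]]
  P := {
    a := 7
    N := 17
    nb := [402, 669, 1050, 7782, 58631, 68616, 6408, 771, 14545, 4234, 98364, 65896, 840, 16656,
      40976, 17424, 3104]
    tri := [(0, 1, 4), (0, 1, 7), (0, 4, 8), (0, 7, 8), (1, 2, 3), (1, 2, 4), (1, 3, 9), (1, 7, 9), (2,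
      3, 10), (2, 4, 10), (3, 5, 10), (3, 5, 11), (3, 6, 11), (3, 6, 12), (3, 9, 12), (4, 8, 13),
      (4, 10, 15), (4, 13, 14), (4, 14, 15), (5, 10, 16), (5, 11, 16), (6, 8, 11), (6, 8, 12)]
    fin := [0, 1, 2, 2, 1, 2, 6, 0, 6, 1, 2, 11, 2, 13, 14, 15, 16]
    chd := [(1, 13), (1, 14), (1, 15), (2, 11), (6, 1)]
    steps := [(0, 7), (1, 4), (1, 9), (2, 3), (2, 5), (2, 10), (2, 12), (6, 8)] }
  rep := [2, 6, 1, 11, 0, 13, 14, 15, 16]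

noncomputable def v2912 : Cov.CovD where
  P := 3
  N := 6
  pl := [0, 9]
  lev := [⟨[], [], [], [4], [(1, 1, [2])]⟩,
    ⟨[], [(0, 1), (0, 2)], [], [4], [(2, 2, [1, 5, 6, 7])]⟩,
    ⟨[(0, 1)], [(1, 0), (1, 2)], [], [], [(3, 0, [3])]⟩,
    ⟨[(0, 1), (1, 2)], [(1, 0), (1, 2), (1, 3), (2, 0), (2, 2), (2, 3)], [(0, 0), (0, 2),
      (0, 3), (2, 3)], [], [(2, 2, [1, 5, 6, 7]), (3, 0, [3]), (4, 3, [0]), (5, 0, [3])]⟩,
    ⟨[(0, 1), (0, 2), (1, 2), (1, 3), (2, 3)], [(0, 0), (0, 1), (0, 5), (0, 6), (0, 7), (1,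
      0), (1, 1), (1, 2), (1, 5), (1, 6), (1, 7), (2, 0), (2, 1), (2, 5), (2, 6), (2, 7), (3,
      0)], [(0, 1), (0, 5), (0, 6), (0, 7), (1, 5), (1, 6), (1, 7), (5, 6), (5, 7), (6, 7)],
      [], [(1, 1, [2]), (3, 0, [3]), (6, 5, [2]), (7, 6, [2]), (8, 7, [2])]⟩,
    ⟨[(1, 3), (2, 3)], [(2, 0), (3, 0), (3, 2), (3, 3), (4, 0)], [(0, 3)], [8], [(3, 0,
      [3]), (4, 3, [0])]⟩,
    ⟨[(1, 3), (2, 3), (3, 5)], [(0, 1), (3, 0), (3, 1), (3, 2), (3, 3), (4, 1), (5, 3)],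
      [(0, 1), (0, 3), (1, 3)], [], [(1, 1, [2]), (4, 3, [0]), (5, 0, [3])]⟩]
  Ta := [((3, 8), 0, 7), ((3, 9), 0, 8), ((5, 1), 0, 1), ((5, 2), 0, 2)]
  Tb := [((0, 1, 2), 4, 1, 2), ((1, 0, 4), 1, 4, 3), ((1, 0, 5), 1, 4, 0), ((1, 0, 6), 1, 4, 5),
    ((1, 4, 5), 1, 3, 0), ((1, 4, 6), 1, 3, 5), ((1, 5, 6), 1, 0, 5), ((2, 0, 5), 2, 4, 0),
    ((3, 8, 9), 0, 7, 8), ((4, 1, 9), 3, 1, 8), ((5, 1, 2), 0, 1, 2), ((6, 1, 7), 5, 1, 6),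
    ((7, 6, 8), 6, 5, 7), ((8, 3, 7), 7, 0, 6), ((9, 3, 4), 8, 0, 3)]
  Tc := [(2, 1, 5), (2, 1, 6), (2, 1, 7), (2, 5, 6), (2, 5, 7), (2, 6, 7)]
  Td := [((0, 3), (3, 8), 7), ((0, 3), (3, 9), 8), ((0, 3), (5, 1), 1), ((0, 3), (5, 2), 2), ((1,
    2), (1, 0), 4), ((1, 2), (1, 4), 3), ((1, 2), (1, 5), 0), ((1, 2), (1, 6), 5), ((2, 1),
    (2, 0), 4), ((2, 1), (2, 5), 0), ((2, 5), (2, 0), 4), ((2, 5), (2, 5), 0), ((2, 6), (2,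
    0), 4), ((2, 6), (2, 5), 0), ((2, 7), (2, 0), 4), ((2, 7), (2, 5), 0), ((3, 0), (4, 1),
    1), ((3, 0), (4, 9), 8), ((5, 2), (6, 1), 1), ((5, 2), (6, 7), 6), ((6, 2), (7, 6), 5),
    ((6, 2), (7, 8), 7), ((7, 2), (8, 3), 0), ((7, 2), (8, 7), 6)]
  G := [[0, 0, 0, 0x122442618a28c41221462882e819, 0x424212444466148e482a4964214c48a19], [0,
    0x812212c41212412c81c, 0x84ce1288c146884ce1248c18a4c, 0x88cd228484cd22815,
    0x44642181482a48548494a219]]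

noncomputable def n2912 : Ent := ⟨e2912, noF, [], [], []⟩

def c2912 : PLift (Cov.check n2912.C.D v2912 = true) := ⟨by decide +kernel⟩

def b2912 : PLift (entF (fidx ts) 400 2912 n2912 = true) := ⟨by decide +kernel⟩

theorem g2912 : GoodF (fidx ts) 400 2912 := GoodF.ofV v2912 n2912 c2912.down b2912.down

/-- 4648844:2297/3 -/
noncomputable def e2913 : SCfg where
  D := {
    a := 7
    L := 9
    kp := 7
    inn := [(0, 1), (0, 4), (1, 0), (1, 2), (1, 3), (1, 4), (2, 1), (2, 3), (2, 4), (3, 1), (3, 2), (3,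
      5), (3, 6), (4, 0), (4, 1), (4, 2), (5, 3), (6, 3)]
    mix := [(0, 0), (0, 1), (1, 0), (1, 2), (2, 3), (3, 2), (3, 3), (3, 4), (3, 5), (4, 1), (4, 3), (4,
      6), (4, 7), (4, 8), (5, 3), (5, 4), (5, 8), (6, 4), (6, 5), (6, 6)]
    cl := [6, 2, 1, 0, 3, 0, 4, 7, 5]
    chq := [(0, 3), (1, 2), (1, 4), (1, 5), (1, 7), (2, 1), (3, 0), (4, 1), (5, 1), (7, 1)]
    rng := [(0, 1), (0, 2), (1, 0), (1, 6), (2, 0), (2, 5), (3, 8), (4, 6), (4, 8), (5, 2), (5, 6), (6,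
      1), (6, 4), (6, 5), (6, 7), (7, 6), (7, 8), (8, 3), (8, 4), (8, 7)]
    lev := [] }
  links := [[1, 7, 8, 4], [7, 0, 4, 2, 3, 9], [3, 1, 4, 10], [9, 1, 2, 10, 5, 11, 6, 12], [10, 2, 1, 0,
    8, 13, 14, 15], [11, 3, 10, 15], [12, 3, 11, 13]]
  P := {
    a := 7
    N := 16
    nb := [402, 669, 1050, 7782, 58631, 35848, 14344, 771, 8337, 4234, 32828, 41064, 8776, 22864,
      40976, 19504]
    tri := [(0, 1, 4), (0, 1, 7), (0, 4, 8), (0, 7, 8), (1, 2, 3), (1, 2, 4), (1, 3, 9), (1, 7, 9), (2,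
      3, 10), (2, 4, 10), (3, 5, 10), (3, 5, 11), (3, 6, 11), (3, 6, 12), (3, 9, 12), (4, 8, 13),
      (4, 10, 15), (4, 13, 14), (4, 14, 15), (5, 10, 15), (5, 11, 15), (6, 11, 13), (6, 12, 13)]
    fin := [0, 1, 2, 2, 1, 5, 6, 0, 8, 1, 2, 11, 2, 6, 14, 5]
    chd := [(1, 5), (1, 6), (1, 14), (2, 11), (8, 1)]
    steps := [(0, 7), (1, 4), (1, 9), (2, 3), (2, 10), (2, 12), (5, 15), (6, 13)] }
  rep := [2, 1, 8, 11, 6, 5, 0, 14]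

noncomputable def v2913 : Cov.CovD where
  P := 3
  N := 5
  pl := [0]
  lev := [⟨[], [], [], [6], [(1, 2, [1])]⟩,
    ⟨[], [(0, 1), (0, 2)], [], [6], [(2, 1, [2, 4, 5, 7])]⟩,
    ⟨[(0, 1)], [(1, 0), (1, 1)], [], [], [(3, 0, [3])]⟩,
    ⟨[(0, 1), (1, 2)], [(1, 0), (1, 1), (1, 3), (2, 0), (2, 1), (2, 3)], [(0, 0), (0, 1),
      (0, 3), (1, 3)], [], [(2, 1, [2, 4, 5, 7]), (3, 0, [3]), (4, 3, [0]), (5, 0, [3])]⟩,
    ⟨[(0, 1), (0, 2), (1, 2), (1, 3), (2, 3)], [(0, 0), (0, 2), (0, 4), (0, 5), (0, 7), (1,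
      0), (1, 1), (1, 2), (1, 4), (1, 5), (1, 7), (2, 0), (2, 2), (2, 4), (2, 5), (2, 7), (3,
      0)], [(0, 2), (0, 4), (0, 5), (0, 7), (2, 4), (2, 5), (2, 7), (4, 5), (4, 7), (5, 7)],
      [], [(1, 2, [1]), (3, 0, [3]), (6, 4, [1]), (7, 7, [1]), (8, 5, [1])]⟩,
    ⟨[(1, 3), (2, 3)], [(2, 0), (3, 0), (3, 1), (3, 3), (3, 5), (4, 0), (4, 5)], [(0, 3),
      (0, 5), (3, 5)], [], [(3, 0, [3]), (4, 3, [0]), (8, 5, [1])]⟩,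
    ⟨[(1, 3), (2, 3), (3, 5)], [(3, 0), (3, 1), (3, 3), (3, 4), (4, 4), (5, 3)], [(0, 3),
      (0, 4), (3, 4)], [], [(4, 3, [0]), (5, 0, [3]), (6, 4, [1])]⟩]
  Ta := [((3, 8), 0, 5), ((5, 2), 0, 1), ((5, 6), 0, 4)]
  Tb := [((0, 1, 2), 6, 2, 1), ((1, 0, 6), 2, 6, 4), ((2, 0, 5), 1, 6, 0), ((4, 6, 8), 3, 4, 5),
    ((5, 2, 6), 0, 1, 4), ((6, 1, 4), 4, 2, 3), ((6, 1, 5), 4, 2, 0), ((6, 1, 7), 4, 2, 7),
    ((6, 4, 5), 4, 3, 0), ((6, 4, 7), 4, 3, 7), ((6, 5, 7), 4, 0, 7), ((7, 6, 8), 7, 4, 5),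
    ((8, 3, 4), 5, 0, 3), ((8, 3, 7), 5, 0, 7), ((8, 4, 7), 5, 3, 7)]
  Tc := [(1, 2, 4), (1, 2, 5), (1, 2, 7), (1, 4, 5), (1, 4, 7), (1, 5, 7)]
  Td := [((0, 3), (3, 8), 5), ((0, 3), (5, 2), 1), ((0, 3), (5, 6), 4), ((1, 2), (2, 0), 6), ((1,
    2), (2, 5), 0), ((1, 4), (2, 0), 6), ((1, 4), (2, 5), 0), ((1, 5), (2, 0), 6), ((1, 5),
    (2, 5), 0), ((1, 7), (2, 0), 6), ((1, 7), (2, 5), 0), ((2, 1), (1, 0), 6), ((2, 1), (1,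
    6), 4), ((3, 0), (4, 6), 4), ((3, 0), (4, 8), 5), ((4, 1), (6, 1), 2), ((4, 1), (6, 4),
    3), ((4, 1), (6, 5), 0), ((4, 1), (6, 7), 7), ((5, 1), (8, 3), 0), ((5, 1), (8, 4), 3),
    ((5, 1), (8, 7), 7), ((7, 1), (7, 6), 4), ((7, 1), (7, 8), 5)]
  G := [[0, 0, 0xb3a219c26411628891362882162418a28c5c, 0x12a244116288c222111e2c819,
    0xb2214264311e284c116243aa28c19], [0, 0xca6e184c16224ae184a4261a6ce1a8c82e1486c,
    0x8a6e241e1284964ae281e12485c, 0x2c3242228982c32212c415, 0x266241e1284c622612c28928c19]]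

noncomputable def n2913 : Ent := ⟨e2913, noF, [], [], []⟩

def c2913 : PLift (Cov.check n2913.C.D v2913 = true) := ⟨by decide +kernel⟩

def b2913 : PLift (entF (fidx ts) 400 2913 n2913 = true) := ⟨by decide +kernel⟩

theorem g2913 : GoodF (fidx ts) 400 2913 := GoodF.ofV v2913 n2913 c2913.down b2913.down

/-- 4648844:2297/2 -/
noncomputable def e2914 : SCfg where
  D := {
    a := 7
    L := 10
    kp := 8
    inn := [(0, 1), (0, 4), (1, 0), (1, 2), (1, 3), (1, 4), (2, 1), (2, 3), (2, 4), (3, 1), (3, 2), (3,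
      5), (3, 6), (4, 0), (4, 1), (4, 2), (5, 3), (6, 3)]
    mix := [(0, 0), (0, 1), (1, 0), (1, 2), (2, 3), (3, 2), (3, 3), (3, 4), (3, 5), (4, 1), (4, 3), (4,
      6), (4, 7), (4, 8), (5, 3), (5, 4), (5, 9), (6, 4), (6, 5), (6, 6)]
    cl := [5, 3, 2, 0, 1, 0, 4, 6, 7, 8]
    chq := [(0, 1), (1, 0), (2, 3), (2, 4), (2, 6), (2, 7), (3, 2), (4, 2), (6, 2), (7, 2)]
    rng := [(0, 1), (0, 2), (1, 0), (1, 6), (2, 0), (2, 5), (3, 8), (3, 9), (4, 6), (4, 9), (5, 2), (5,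
      6), (6, 1), (6, 4), (6, 5), (6, 7), (7, 6), (7, 8), (8, 3), (8, 7), (9, 3), (9, 4)]
    lev := [] }
  links := [[1, 7, 8, 4], [7, 0, 4, 2, 3, 9], [3, 1, 4, 10], [9, 1, 2, 10, 5, 11, 6, 12], [10, 2, 1, 0,
    8, 13, 14, 15], [11, 3, 10, 16], [12, 3, 11, 13]]
  P := {
    a := 7
    N := 17
    nb := [402, 669, 1050, 7782, 58631, 68616, 14344, 771, 8337, 4234, 98364, 73832, 8776, 22864,
      40976, 17424, 3104]
    tri := [(0, 1, 4), (0, 1, 7), (0, 4, 8), (0, 7, 8), (1, 2, 3), (1, 2, 4), (1, 3, 9), (1, 7, 9), (2,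
      3, 10), (2, 4, 10), (3, 5, 10), (3, 5, 11), (3, 6, 11), (3, 6, 12), (3, 9, 12), (4, 8, 13),
      (4, 10, 15), (4, 13, 14), (4, 14, 15), (5, 10, 16), (5, 11, 16), (6, 11, 13), (6, 12, 13)]
    fin := [0, 1, 2, 2, 1, 2, 6, 0, 8, 1, 2, 11, 2, 6, 14, 15, 16]
    chd := [(1, 6), (1, 14), (1, 15), (2, 11), (8, 1)]
    steps := [(0, 7), (1, 4), (1, 9), (2, 3), (2, 5), (2, 10), (2, 12), (6, 13)] }
  rep := [2, 11, 1, 8, 6, 0, 14, 15, 16]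

noncomputable def v2914 : Cov.CovD where
  P := 3
  N := 6
  pl := [0, 9]
  lev := [⟨[], [], [], [5], [(1, 3, [2])]⟩,
    ⟨[], [(0, 2), (0, 3)], [], [5], [(2, 2, [3, 4, 6, 7])]⟩,
    ⟨[(0, 1)], [(1, 0), (1, 2)], [], [], [(3, 0, [1])]⟩,
    ⟨[(0, 1), (1, 2)], [(1, 0), (1, 1), (1, 2), (2, 0), (2, 1), (2, 2)], [(0, 0), (0, 1),
      (0, 2), (1, 2)], [], [(2, 2, [3, 4, 6, 7]), (3, 0, [1]), (4, 1, [0]), (5, 0, [1])]⟩,
    ⟨[(0, 1), (0, 2), (1, 2), (1, 3), (2, 3)], [(0, 0), (0, 3), (0, 4), (0, 6), (0, 7), (1,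
      0), (1, 2), (1, 3), (1, 4), (1, 6), (1, 7), (2, 0), (2, 3), (2, 4), (2, 6), (2, 7), (3,
      0)], [(0, 3), (0, 4), (0, 6), (0, 7), (3, 4), (3, 6), (3, 7), (4, 6), (4, 7), (6, 7)],
      [], [(1, 3, [2]), (3, 0, [1]), (6, 4, [2]), (7, 6, [2]), (8, 7, [2])]⟩,
    ⟨[(1, 3), (2, 3)], [(2, 0), (3, 0), (3, 1), (3, 2), (4, 0)], [(0, 1)], [8], [(3, 0,
      [1]), (4, 1, [0])]⟩,
    ⟨[(1, 3), (2, 3), (3, 5)], [(3, 0), (3, 1), (3, 2), (3, 4), (4, 4), (5, 1)], [(0, 1),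
      (0, 4), (1, 4)], [], [(4, 1, [0]), (5, 0, [1]), (6, 4, [2])]⟩]
  Ta := [((3, 8), 0, 7), ((3, 9), 0, 8), ((5, 2), 0, 2), ((5, 6), 0, 4)]
  Tb := [((0, 1, 2), 5, 3, 2), ((1, 0, 6), 3, 5, 4), ((2, 0, 5), 2, 5, 0), ((3, 8, 9), 0, 7, 8),
    ((4, 6, 9), 1, 4, 8), ((5, 2, 6), 0, 2, 4), ((6, 1, 4), 4, 3, 1), ((6, 1, 5), 4, 3, 0),
    ((6, 1, 7), 4, 3, 6), ((6, 4, 5), 4, 1, 0), ((6, 4, 7), 4, 1, 6), ((6, 5, 7), 4, 0, 6),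
    ((7, 6, 8), 6, 4, 7), ((8, 3, 7), 7, 0, 6), ((9, 3, 4), 8, 0, 1)]
  Tc := [(2, 3, 4), (2, 3, 6), (2, 3, 7), (2, 4, 6), (2, 4, 7), (2, 6, 7)]
  Td := [((0, 1), (3, 8), 7), ((0, 1), (3, 9), 8), ((0, 1), (5, 2), 2), ((0, 1), (5, 6), 4), ((1,
    0), (4, 6), 4), ((1, 0), (4, 9), 8), ((2, 3), (2, 0), 5), ((2, 3), (2, 5), 0), ((2, 4),
    (2, 0), 5), ((2, 4), (2, 5), 0), ((2, 6), (2, 0), 5), ((2, 6), (2, 5), 0), ((2, 7), (2,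
    0), 5), ((2, 7), (2, 5), 0), ((3, 2), (1, 0), 5), ((3, 2), (1, 6), 4), ((4, 2), (6, 1),
    3), ((4, 2), (6, 4), 1), ((4, 2), (6, 5), 0), ((4, 2), (6, 7), 6), ((6, 2), (7, 6), 4),
    ((6, 2), (7, 8), 7), ((7, 2), (8, 3), 0), ((7, 2), (8, 7), 6)]
  G := [[0, 0x6ac2418ca628146662881d, 0, 0x182441428814288d11c24811c284911c2841d,
    0x11c48211c4823144184c1848c211c4821b], [0, 0xa6624186662884aaa2441d,
    0xc8c1424418844184e881444cc18288144e441c8c1c82e, 0xc1284c12845812444128881284dc12841d,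
    0xc1482c14823414814c82c14821b]]

noncomputable def n2914 : Ent := ⟨e2914, noF, [], [], [(15, 16, [1580044410770988437309982408355971841652082177953823432505701044225, 0])]⟩

def c2914 : PLift (Cov.check n2914.C.D v2914 = true) := ⟨by decide +kernel⟩

def b2914 : PLift (entF (fidx ts) 400 2914 n2914 = true) := ⟨by decide +kernel⟩

theorem g2914 : GoodF (fidx ts) 400 2914 := GoodF.ofV v2914 n2914 c2914.down b2914.down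

/-- 4648844:2297/5 -/
noncomputable def e2915 : SCfg where
  D := {
    a := 7
    L := 9
    kp := 7
    inn := [(0, 1), (0, 4), (1, 0), (1, 2), (1, 3), (1, 4), (2, 1), (2, 3), (2, 4), (3, 1), (3, 2), (3,
      5), (3, 6), (4, 0), (4, 1), (4, 2), (5, 3), (6, 3)]
    mix := [(0, 0), (0, 1), (1, 0), (1, 2), (2, 3), (3, 2), (3, 3), (3, 4), (3, 5), (4, 1), (4, 3), (4,
      6), (4, 7), (4, 8), (5, 3), (5, 4), (5, 8), (6, 4), (6, 5), (6, 7)]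
    cl := [6, 2, 1, 0, 3, 0, 7, 4, 5]
    chq := [(0, 3), (1, 2), (1, 4), (1, 5), (1, 7), (2, 1), (3, 0), (4, 1), (5, 1), (7, 1)]
    rng := [(0, 1), (0, 2), (1, 0), (1, 6), (2, 0), (2, 5), (3, 8), (4, 7), (4, 8), (5, 2), (5, 7), (6,
      1), (6, 7), (7, 4), (7, 5), (7, 6), (7, 8), (8, 3), (8, 4), (8, 7)]
    lev := [] }
  links := [[1, 7, 8, 4], [7, 0, 4, 2, 3, 9], [3, 1, 4, 10], [9, 1, 2, 10, 5, 11, 6, 12], [10, 2, 1, 0,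
    8, 13, 14, 15], [11, 3, 10, 15], [12, 3, 11, 14]]
  P := {
    a := 7
    N := 16
    nb := [402, 669, 1050, 7782, 58631, 35848, 22536, 771, 8337, 4234, 32828, 49256, 16968, 16656,
      47184, 19504]
    tri := [(0, 1, 4), (0, 1, 7), (0, 4, 8), (0, 7, 8), (1, 2, 3), (1, 2, 4), (1, 3, 9), (1, 7, 9), (2,
      3, 10), (2, 4, 10), (3, 5, 10), (3, 5, 11), (3, 6, 11), (3, 6, 12), (3, 9, 12), (4, 8, 13),
      (4, 10, 15), (4, 13, 14), (4, 14, 15), (5, 10, 15), (5, 11, 15), (6, 11, 14), (6, 12, 14)]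
    fin := [0, 1, 2, 2, 1, 5, 6, 0, 8, 1, 2, 11, 2, 13, 6, 5]
    chd := [(1, 5), (1, 6), (1, 13), (2, 11), (8, 1)]
    steps := [(0, 7), (1, 4), (1, 9), (2, 3), (2, 10), (2, 12), (5, 15), (6, 14)] }
  rep := [2, 1, 8, 11, 6, 5, 0, 13]

noncomputable def v2915 : Cov.CovD where
  P := 3
  N := 5
  pl := [0]
  lev := [⟨[], [], [], [6], [(1, 2, [1])]⟩,
    ⟨[], [(0, 1), (0, 2)], [], [6], [(2, 1, [2, 4, 5, 7])]⟩,
    ⟨[(0, 1)], [(1, 0), (1, 1)], [], [], [(3, 0, [3])]⟩,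
    ⟨[(0, 1), (1, 2)], [(1, 0), (1, 1), (1, 3), (2, 0), (2, 1), (2, 3)], [(0, 0), (0, 1),
      (0, 3), (1, 3)], [], [(2, 1, [2, 4, 5, 7]), (3, 0, [3]), (4, 3, [0]), (5, 0, [3])]⟩,
    ⟨[(0, 1), (0, 2), (1, 2), (1, 3), (2, 3)], [(0, 0), (0, 2), (0, 4), (0, 5), (0, 7), (1,
      0), (1, 1), (1, 2), (1, 4), (1, 5), (1, 7), (2, 0), (2, 2), (2, 4), (2, 5), (2, 7), (3,
      0)], [(0, 2), (0, 4), (0, 5), (0, 7), (2, 4), (2, 5), (2, 7), (4, 5), (4, 7), (5, 7)],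
      [], [(1, 2, [1]), (3, 0, [3]), (6, 7, [1]), (7, 4, [1]), (8, 5, [1])]⟩,
    ⟨[(1, 3), (2, 3)], [(2, 0), (3, 0), (3, 1), (3, 3), (3, 5), (4, 0), (4, 5)], [(0, 3),
      (0, 5), (3, 5)], [], [(3, 0, [3]), (4, 3, [0]), (8, 5, [1])]⟩,
    ⟨[(1, 3), (2, 3), (3, 5)], [(3, 0), (3, 1), (3, 3), (3, 4), (4, 4), (5, 3)], [(0, 3),
      (0, 4), (3, 4)], [], [(4, 3, [0]), (5, 0, [3]), (7, 4, [1])]⟩]
  Ta := [((3, 8), 0, 5), ((5, 2), 0, 1), ((5, 7), 0, 4)]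
  Tb := [((0, 1, 2), 6, 2, 1), ((1, 0, 6), 2, 6, 7), ((2, 0, 5), 1, 6, 0), ((4, 7, 8), 3, 4, 5),
    ((5, 2, 7), 0, 1, 4), ((6, 1, 7), 7, 2, 4), ((7, 4, 5), 4, 3, 0), ((7, 4, 6), 4, 3, 7),
    ((7, 4, 8), 4, 3, 5), ((7, 5, 6), 4, 0, 7), ((7, 5, 8), 4, 0, 5), ((7, 6, 8), 4, 7, 5),
    ((8, 3, 4), 5, 0, 3), ((8, 3, 7), 5, 0, 4), ((8, 4, 7), 5, 3, 4)]
  Tc := [(1, 2, 4), (1, 2, 5), (1, 2, 7), (1, 4, 5), (1, 4, 7), (1, 5, 7)]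
  Td := [((0, 3), (3, 8), 5), ((0, 3), (5, 2), 1), ((0, 3), (5, 7), 4), ((1, 2), (2, 0), 6), ((1,
    2), (2, 5), 0), ((1, 4), (2, 0), 6), ((1, 4), (2, 5), 0), ((1, 5), (2, 0), 6), ((1, 5),
    (2, 5), 0), ((1, 7), (2, 0), 6), ((1, 7), (2, 5), 0), ((2, 1), (1, 0), 6), ((2, 1), (1,
    6), 7), ((3, 0), (4, 7), 4), ((3, 0), (4, 8), 5), ((4, 1), (7, 4), 3), ((4, 1), (7, 5),
    0), ((4, 1), (7, 6), 7), ((4, 1), (7, 8), 5), ((5, 1), (8, 3), 0), ((5, 1), (8, 4), 3),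
    ((5, 1), (8, 7), 4), ((7, 1), (6, 1), 2), ((7, 1), (6, 7), 4)]
  G := [[0, 0, 0x99a244213e2142a49536211c2a891a2445c, 0x116212a2c84116212a2c419,
    0x122459ae2142ac41662431a28c19], [0, 0xa6ce12c2a146c26182a4261a6ce1a48c18a82a1446c,
    0xca6e241e1284924ae281e12485c, 0xe124822288ce12222c415, 0x266241e1284c2acb2212412e419]]

noncomputable def n2915 : Ent := ⟨e2915, noF, [], [], []⟩

def c2915 : PLift (Cov.check n2915.C.D v2915 = true) := ⟨by decide +kernel⟩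

def b2915 : PLift (entF (fidx ts) 400 2915 n2915 = true) := ⟨by decide +kernel⟩

theorem g2915 : GoodF (fidx ts) 400 2915 := GoodF.ofV v2915 n2915 c2915.down b2915.down

/-- 4648844:2297/4 -/
noncomputable def e2916 : SCfg where
  D := {
    a := 7
    L := 10
    kp := 8
    inn := [(0, 1), (0, 4), (1, 0), (1, 2), (1, 3), (1, 4), (2, 1), (2, 3), (2, 4), (3, 1), (3, 2), (3,
      5), (3, 6), (4, 0), (4, 1), (4, 2), (5, 3), (6, 3)]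
    mix := [(0, 0), (0, 1), (1, 0), (1, 2), (2, 3), (3, 2), (3, 3), (3, 4), (3, 5), (4, 1), (4, 3), (4,
      6), (4, 7), (4, 8), (5, 3), (5, 4), (5, 9), (6, 4), (6, 5), (6, 7)]
    cl := [5, 2, 1, 0, 3, 0, 6, 4, 7, 8]
    chq := [(0, 3), (1, 2), (1, 4), (1, 6), (1, 7), (2, 1), (3, 0), (4, 1), (6, 1), (7, 1)]
    rng := [(0, 1), (0, 2), (1, 0), (1, 6), (2, 0), (2, 5), (3, 8), (3, 9), (4, 7), (4, 9), (5, 2), (5,
      7), (6, 1), (6, 7), (7, 4), (7, 5), (7, 6), (7, 8), (8, 3), (8, 7), (9, 3), (9, 4)]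
    lev := [] }
  links := [[1, 7, 8, 4], [7, 0, 4, 2, 3, 9], [3, 1, 4, 10], [9, 1, 2, 10, 5, 11, 6, 12], [10, 2, 1, 0,
    8, 13, 14, 15], [11, 3, 10, 16], [12, 3, 11, 14]]
  P := {
    a := 7
    N := 17
    nb := [402, 669, 1050, 7782, 58631, 68616, 22536, 771, 8337, 4234, 98364, 82024, 16968, 16656,
      47184, 17424, 3104]
    tri := [(0, 1, 4), (0, 1, 7), (0, 4, 8), (0, 7, 8), (1, 2, 3), (1, 2, 4), (1, 3, 9), (1, 7, 9), (2,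
      3, 10), (2, 4, 10), (3, 5, 10), (3, 5, 11), (3, 6, 11), (3, 6, 12), (3, 9, 12), (4, 8, 13),
      (4, 10, 15), (4, 13, 14), (4, 14, 15), (5, 10, 16), (5, 11, 16), (6, 11, 14), (6, 12, 14)]
    fin := [0, 1, 2, 2, 1, 2, 6, 0, 8, 1, 2, 11, 2, 13, 6, 15, 16]
    chd := [(1, 6), (1, 13), (1, 15), (2, 11), (8, 1)]
    steps := [(0, 7), (1, 4), (1, 9), (2, 3), (2, 5), (2, 10), (2, 12), (6, 14)] }
  rep := [2, 1, 8, 11, 6, 0, 13, 15, 16]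

noncomputable def v2916 : Cov.CovD where
  P := 3
  N := 6
  pl := [0, 9]
  lev := [⟨[], [], [], [5], [(1, 2, [1])]⟩,
    ⟨[], [(0, 1), (0, 2)], [], [5], [(2, 1, [2, 4, 6, 7])]⟩,
    ⟨[(0, 1)], [(1, 0), (1, 1)], [], [], [(3, 0, [3])]⟩,
    ⟨[(0, 1), (1, 2)], [(1, 0), (1, 1), (1, 3), (2, 0), (2, 1), (2, 3)], [(0, 0), (0, 1),
      (0, 3), (1, 3)], [], [(2, 1, [2, 4, 6, 7]), (3, 0, [3]), (4, 3, [0]), (5, 0, [3])]⟩,
    ⟨[(0, 1), (0, 2), (1, 2), (1, 3), (2, 3)], [(0, 0), (0, 2), (0, 4), (0, 6), (0, 7), (1,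
      0), (1, 1), (1, 2), (1, 4), (1, 6), (1, 7), (2, 0), (2, 2), (2, 4), (2, 6), (2, 7), (3,
      0)], [(0, 2), (0, 4), (0, 6), (0, 7), (2, 4), (2, 6), (2, 7), (4, 6), (4, 7), (6, 7)],
      [], [(1, 2, [1]), (3, 0, [3]), (6, 6, [1]), (7, 4, [1]), (8, 7, [1])]⟩,
    ⟨[(1, 3), (2, 3)], [(2, 0), (3, 0), (3, 1), (3, 3), (4, 0)], [(0, 3)], [8], [(3, 0,
      [3]), (4, 3, [0])]⟩,
    ⟨[(1, 3), (2, 3), (3, 5)], [(3, 0), (3, 1), (3, 3), (3, 4), (4, 4), (5, 3)], [(0, 3),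
      (0, 4), (3, 4)], [], [(4, 3, [0]), (5, 0, [3]), (7, 4, [1])]⟩]
  Ta := [((3, 8), 0, 7), ((3, 9), 0, 8), ((5, 2), 0, 1), ((5, 7), 0, 4)]
  Tb := [((0, 1, 2), 5, 2, 1), ((1, 0, 6), 2, 5, 6), ((2, 0, 5), 1, 5, 0), ((3, 8, 9), 0, 7, 8),
    ((4, 7, 9), 3, 4, 8), ((5, 2, 7), 0, 1, 4), ((6, 1, 7), 6, 2, 4), ((7, 4, 5), 4, 3, 0),
    ((7, 4, 6), 4, 3, 6), ((7, 4, 8), 4, 3, 7), ((7, 5, 6), 4, 0, 6), ((7, 5, 8), 4, 0, 7),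
    ((7, 6, 8), 4, 6, 7), ((8, 3, 7), 7, 0, 4), ((9, 3, 4), 8, 0, 3)]
  Tc := [(1, 2, 4), (1, 2, 6), (1, 2, 7), (1, 4, 6), (1, 4, 7), (1, 6, 7)]
  Td := [((0, 3), (3, 8), 7), ((0, 3), (3, 9), 8), ((0, 3), (5, 2), 1), ((0, 3), (5, 7), 4), ((1,
    2), (2, 0), 5), ((1, 2), (2, 5), 0), ((1, 4), (2, 0), 5), ((1, 4), (2, 5), 0), ((1, 6),
    (2, 0), 5), ((1, 6), (2, 5), 0), ((1, 7), (2, 0), 5), ((1, 7), (2, 5), 0), ((2, 1), (1,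
    0), 5), ((2, 1), (1, 6), 6), ((3, 0), (4, 7), 4), ((3, 0), (4, 9), 8), ((4, 1), (7, 4),
    3), ((4, 1), (7, 5), 0), ((4, 1), (7, 6), 6), ((4, 1), (7, 8), 7), ((6, 1), (6, 1), 2),
    ((6, 1), (6, 7), 4), ((7, 1), (8, 3), 0), ((7, 1), (8, 7), 4)]
  G := [[0, 0, 0x942451a2322cc1135e248122982a2828a516e248dc, 0x312e218261228c81262432a28c15,
    0x3224142465c1e2142a4c1223662c5828c19], [0, 0xca6e184c16224ae182a4261a6ce1a848c182a1c46c,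
    0xa12486124668b28c5c122642e289a12445c, 0x22c7242128c822624e128c15,
    0x266244261e1284c6124668b28c19]]

noncomputable def n2916 : Ent := ⟨e2916, noF, [], [], [(15, 16, [1580044410770988437309982408355971841652082177953823432505701052417, 0])]⟩

def c2916 : PLift (Cov.check n2916.C.D v2916 = true) := ⟨by decide +kernel⟩

def b2916 : PLift (entF (fidx ts) 400 2916 n2916 = true) := ⟨by decide +kernel⟩

theorem g2916 : GoodF (fidx ts) 400 2916 := GoodF.ofV v2916 n2916 c2916.down b2916.down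

/-- 4648844:2297/6 -/
noncomputable def e2917 : SCfg where
  D := {
    a := 7
    L := 10
    kp := 8
    inn := [(0, 1), (0, 4), (1, 0), (1, 2), (1, 3), (1, 4), (2, 1), (2, 3), (2, 4), (3, 1), (3, 2), (3,
      5), (3, 6), (4, 0), (4, 1), (4, 2), (5, 3), (6, 3)]
    mix := [(0, 0), (0, 1), (1, 0), (1, 2), (2, 3), (3, 2), (3, 3), (3, 4), (3, 5), (4, 1), (4, 3), (4,
      6), (4, 7), (4, 8), (5, 3), (5, 4), (5, 8), (6, 4), (6, 5), (6, 9)]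
    cl := [5, 2, 1, 0, 3, 0, 6, 7, 4, 8]
    chq := [(0, 3), (1, 2), (1, 4), (1, 6), (1, 7), (2, 1), (3, 0), (4, 1), (6, 1), (7, 1)]
    rng := [(0, 1), (0, 2), (1, 0), (1, 6), (2, 0), (2, 5), (3, 8), (4, 8), (4, 9), (5, 2), (5, 9), (6,
      1), (6, 7), (7, 6), (7, 8), (8, 3), (8, 4), (8, 7), (9, 4), (9, 5)]
    lev := [] }
  links := [[1, 7, 8, 4], [7, 0, 4, 2, 3, 9], [3, 1, 4, 10], [9, 1, 2, 10, 5, 11, 6, 12], [10, 2, 1, 0,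
    8, 13, 14, 15], [11, 3, 10, 15], [12, 3, 11, 16]]
  P := {
    a := 7
    N := 17
    nb := [402, 669, 1050, 7782, 58631, 35848, 71688, 771, 8337, 4234, 32828, 98408, 66120, 16656,
      40976, 19504, 6208]
    tri := [(0, 1, 4), (0, 1, 7), (0, 4, 8), (0, 7, 8), (1, 2, 3), (1, 2, 4), (1, 3, 9), (1, 7, 9), (2,
      3, 10), (2, 4, 10), (3, 5, 10), (3, 5, 11), (3, 6, 11), (3, 6, 12), (3, 9, 12), (4, 8, 13),
      (4, 10, 15), (4, 13, 14), (4, 14, 15), (5, 10, 15), (5, 11, 15), (6, 11, 16), (6, 12, 16)]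
    fin := [0, 1, 2, 2, 1, 5, 2, 0, 8, 1, 2, 11, 2, 13, 14, 5, 16]
    chd := [(1, 5), (1, 13), (1, 14), (2, 11), (8, 1)]
    steps := [(0, 7), (1, 4), (1, 9), (2, 3), (2, 6), (2, 10), (2, 12), (5, 15)] }
  rep := [2, 1, 8, 11, 5, 0, 13, 14, 16]

noncomputable def v2917 : Cov.CovD where
  P := 3
  N := 6
  pl := [0, 9]
  lev := [⟨[], [], [], [5], [(1, 2, [1])]⟩,
    ⟨[], [(0, 1), (0, 2)], [], [5], [(2, 1, [2, 4, 6, 7])]⟩,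
    ⟨[(0, 1)], [(1, 0), (1, 1)], [], [], [(3, 0, [3])]⟩,
    ⟨[(0, 1), (1, 2)], [(1, 0), (1, 1), (1, 3), (2, 0), (2, 1), (2, 3)], [(0, 0), (0, 1),
      (0, 3), (1, 3)], [], [(2, 1, [2, 4, 6, 7]), (3, 0, [3]), (4, 3, [0]), (5, 0, [3])]⟩,
    ⟨[(0, 1), (0, 2), (1, 2), (1, 3), (2, 3)], [(0, 0), (0, 2), (0, 4), (0, 6), (0, 7), (1,
      0), (1, 1), (1, 2), (1, 4), (1, 6), (1, 7), (2, 0), (2, 2), (2, 4), (2, 6), (2, 7), (3,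
      0)], [(0, 2), (0, 4), (0, 6), (0, 7), (2, 4), (2, 6), (2, 7), (4, 6), (4, 7), (6, 7)],
      [], [(1, 2, [1]), (3, 0, [3]), (6, 6, [1]), (7, 7, [1]), (8, 4, [1])]⟩,
    ⟨[(1, 3), (2, 3)], [(2, 0), (3, 0), (3, 1), (3, 3), (3, 4), (4, 0), (4, 4)], [(0, 3),
      (0, 4), (3, 4)], [], [(3, 0, [3]), (4, 3, [0]), (8, 4, [1])]⟩,
    ⟨[(1, 3), (2, 3), (3, 5)], [(3, 0), (3, 1), (3, 3), (5, 3)], [(0, 3)], [8], [(4, 3,
      [0]), (5, 0, [3])]⟩]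
  Ta := [((3, 8), 0, 4), ((5, 2), 0, 1), ((5, 9), 0, 8)]
  Tb := [((0, 1, 2), 5, 2, 1), ((1, 0, 6), 2, 5, 6), ((2, 0, 5), 1, 5, 0), ((4, 8, 9), 3, 4, 8),
    ((5, 2, 9), 0, 1, 8), ((6, 1, 7), 6, 2, 7), ((7, 6, 8), 7, 6, 4), ((8, 3, 4), 4, 0, 3),
    ((8, 3, 7), 4, 0, 7), ((8, 4, 7), 4, 3, 7), ((9, 4, 5), 8, 3, 0)]
  Tc := [(1, 2, 4), (1, 2, 6), (1, 2, 7), (1, 4, 6), (1, 4, 7), (1, 6, 7)]
  Td := [((0, 3), (3, 8), 4), ((0, 3), (5, 2), 1), ((0, 3), (5, 9), 8), ((1, 2), (2, 0), 5), ((1,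
    2), (2, 5), 0), ((1, 4), (2, 0), 5), ((1, 4), (2, 5), 0), ((1, 6), (2, 0), 5), ((1, 6),
    (2, 5), 0), ((1, 7), (2, 0), 5), ((1, 7), (2, 5), 0), ((2, 1), (1, 0), 5), ((2, 1), (1,
    6), 6), ((3, 0), (4, 8), 4), ((3, 0), (4, 9), 8), ((4, 1), (8, 3), 0), ((4, 1), (8, 4),
    3), ((4, 1), (8, 7), 7), ((6, 1), (6, 1), 2), ((6, 1), (6, 7), 7), ((7, 1), (7, 6), 6),
    ((7, 1), (7, 8), 4)]
  G := [[0, 0, 0xb3a244942411a28c9716211c2a8c1a2485c, 0x115e24832288c122116e2c815,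
    0x12241cae2142ac4316245aa28c19], [0, 0xa68e12c6a146c26182a426186ce1a68c18a82a1446c,
    0x26624426181284e1284d64ae281e12882685c, 0xe1248a2281c2c324a228c15,
    0x266244261e1284c6124668b28c19]]

noncomputable def n2917 : Ent := ⟨e2917, noF, [], [], [(13, 16, [1580044410770988437309982408355971841652082177953823432505701044225, 0]), (14, 16, [1580044410770988437309982408355971841652082177953823432505701052417, 0])]⟩

def c2917 : PLift (Cov.check n2917.C.D v2917 = true) := ⟨by decide +kernel⟩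

def b2917 : PLift (entF (fidx ts) 400 2917 n2917 = true) := ⟨by decide +kernel⟩

theorem g2917 : GoodF (fidx ts) 400 2917 := GoodF.ofV v2917 n2917 c2917.down b2917.down

/-- 4648844:2297 -/
noncomputable def e2918 : SCfg where
  D := {
    a := 7
    L := 11
    kp := 9
    inn := [(0, 1), (0, 4), (1, 0), (1, 2), (1, 3), (1, 4), (2, 1), (2, 3), (2, 4), (3, 1), (3, 2), (3,
      5), (3, 6), (4, 0), (4, 1), (4, 2), (5, 3), (6, 3)]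
    mix := [(0, 0), (0, 1), (1, 0), (1, 2), (2, 3), (3, 2), (3, 3), (3, 4), (3, 5), (4, 1), (4, 3), (4,
      6), (4, 7), (4, 8), (5, 3), (5, 4), (5, 9), (6, 4), (6, 5), (6, 10)]
    cl := [2, 4, 1, 0, 3, 0, 5, 6, 7, 8, 9]
    chq := [(0, 3), (1, 4), (1, 5), (1, 6), (1, 7), (3, 0), (4, 1), (5, 1), (6, 1), (7, 1)]
    rng := [(0, 1), (0, 2), (1, 0), (1, 6), (2, 0), (2, 5), (3, 8), (3, 9), (4, 9), (4, 10), (5, 2),
      (5, 10), (6, 1), (6, 7), (7, 6), (7, 8), (8, 3), (8, 7), (9, 3), (9, 4), (10, 4), (10, 5)]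
    lev := [] }
  links := [[1, 7, 8, 4], [7, 0, 4, 2, 3, 9], [3, 1, 4, 10], [9, 1, 2, 10, 5, 11, 6, 12], [10, 2, 1, 0,
    8, 13, 14, 15], [11, 3, 10, 16], [12, 3, 11, 17]]
  P := {
    a := 7
    N := 18
    nb := [402, 669, 1050, 7782, 58631, 68616, 137224, 771, 8337, 4234, 98364, 196712, 131656, 16656,
      40976, 17424, 3104, 6208]
    tri := [(0, 1, 4), (0, 1, 7), (0, 4, 8), (0, 7, 8), (1, 2, 3), (1, 2, 4), (1, 3, 9), (1, 7, 9), (2,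
      3, 10), (2, 4, 10), (3, 5, 10), (3, 5, 11), (3, 6, 11), (3, 6, 12), (3, 9, 12), (4, 8, 13),
      (4, 10, 15), (4, 13, 14), (4, 14, 15), (5, 10, 16), (5, 11, 16), (6, 11, 17), (6, 12, 17)]
    fin := [0, 1, 2, 2, 1, 2, 2, 0, 8, 1, 2, 11, 2, 13, 14, 15, 16, 17]
    chd := [(1, 13), (1, 14), (1, 15), (2, 11), (8, 1)]
    steps := [(0, 7), (1, 4), (1, 9), (2, 3), (2, 5), (2, 6), (2, 10), (2, 12)] }
  rep := [2, 1, 0, 11, 8, 13, 14, 15, 16, 17]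

noncomputable def v2918 : Cov.CovD where
  P := 3
  N := 7
  pl := [0, 9, 10]
  lev := [⟨[], [], [], [2], [(1, 4, [1])]⟩,
    ⟨[], [(0, 1), (0, 4)], [], [2], [(2, 1, [4, 5, 6, 7])]⟩,
    ⟨[(0, 1)], [(1, 0), (1, 1)], [], [], [(3, 0, [3])]⟩,
    ⟨[(0, 1), (1, 2)], [(1, 0), (1, 1), (1, 3), (2, 0), (2, 1), (2, 3)], [(0, 0), (0, 1),
      (0, 3), (1, 3)], [], [(2, 1, [4, 5, 6, 7]), (3, 0, [3]), (4, 3, [0]), (5, 0, [3])]⟩,
    ⟨[(0, 1), (0, 2), (1, 2), (1, 3), (2, 3)], [(0, 0), (0, 4), (0, 5), (0, 6), (0, 7), (1,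
      0), (1, 1), (1, 4), (1, 5), (1, 6), (1, 7), (2, 0), (2, 4), (2, 5), (2, 6), (2, 7), (3,
      0)], [(0, 4), (0, 5), (0, 6), (0, 7), (4, 5), (4, 6), (4, 7), (5, 6), (5, 7), (6, 7)],
      [], [(1, 4, [1]), (3, 0, [3]), (6, 5, [1]), (7, 6, [1]), (8, 7, [1])]⟩,
    ⟨[(1, 3), (2, 3)], [(2, 0), (3, 0), (3, 1), (3, 3), (4, 0)], [(0, 3)], [8], [(3, 0,
      [3]), (4, 3, [0])]⟩,
    ⟨[(1, 3), (2, 3), (3, 5)], [(3, 0), (3, 1), (3, 3), (5, 3)], [(0, 3)], [9], [(4, 3,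
      [0]), (5, 0, [3])]⟩]
  Ta := [((3, 8), 0, 7), ((3, 9), 0, 8), ((5, 2), 0, 1), ((5, 10), 0, 9)]
  Tb := [((0, 1, 2), 2, 4, 1), ((1, 0, 6), 4, 2, 5), ((2, 0, 5), 1, 2, 0), ((3, 8, 9), 0, 7, 8),
    ((4, 9, 10), 3, 8, 9), ((5, 2, 10), 0, 1, 9), ((6, 1, 7), 5, 4, 6), ((7, 6, 8), 6, 5, 7),
    ((8, 3, 7), 7, 0, 6), ((9, 3, 4), 8, 0, 3), ((10, 4, 5), 9, 3, 0)]
  Tc := [(1, 4, 5), (1, 4, 6), (1, 4, 7), (1, 5, 6), (1, 5, 7), (1, 6, 7)]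
  Td := [((0, 3), (3, 8), 7), ((0, 3), (3, 9), 8), ((0, 3), (5, 2), 1), ((0, 3), (5, 10), 9),
    ((1, 4), (2, 0), 2), ((1, 4), (2, 5), 0), ((1, 5), (2, 0), 2), ((1, 5), (2, 5), 0), ((1,
    6), (2, 0), 2), ((1, 6), (2, 5), 0), ((1, 7), (2, 0), 2), ((1, 7), (2, 5), 0), ((3, 0),
    (4, 9), 8), ((3, 0), (4, 10), 9), ((4, 1), (1, 0), 2), ((4, 1), (1, 6), 5), ((5, 1), (6,
    1), 4), ((5, 1), (6, 7), 6), ((6, 1), (7, 6), 5), ((6, 1), (7, 8), 7), ((7, 1), (8, 3),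
    0), ((7, 1), (8, 7), 6)]
  G := [[0, 0, 0x14242122142671ae28ccc16e21826812281828acc, 0x3aa29162c2111a2c16e2c219,
    0x116247aa28c1316245aa28c19], [0, 0x82a146cae1864e1ac4c82e1424261a6ce1a8cc,
    0x4124a66243e12412a4c4124a124c81286aa2882a3cc, 0x6a8b2826124258a32426d2c215,
    0x2632448ad28c1a6524aa328c19]]

noncomputable def n2918 : Ent := ⟨e2918, noF, [], [], [(8, 17, [6903326391201334775872065844685381424292761054348340378595029941616641, 0]), (13, 17, [6903326391201334775872065844685381424292761054348340378595029941624833, 0]), (14, 17, [6903326391201334775872065844685381424292761054348340378595029941633025, 0]), (15, 16, [7334685537875745012586738086077695515070955365108989538292687705624577, 0])]⟩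

def c2918 : PLift (Cov.check n2918.C.D v2918 = true) := ⟨by decide +kernel⟩

def b2918 : PLift (entF (fidx ts) 400 2918 n2918 = true) := ⟨by decide +kernel⟩

theorem g2918 : GoodF (fidx ts) 400 2918 := GoodF.ofV v2918 n2918 c2918.down b2918.down

/-- 4648644:2298/2 -/
noncomputable def e2919 : SCfg where
  D := {
    a := 7
    L := 8
    kp := 5
    inn := [(0, 1), (1, 0), (1, 2), (1, 3), (1, 5), (2, 1), (2, 3), (3, 1), (3, 2), (3, 4), (3, 5), (4,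
      3), (4, 6), (5, 1), (5, 3), (6, 4)]
    mix := [(0, 0), (0, 1), (0, 2), (1, 0), (1, 2), (2, 2), (2, 3), (3, 3), (3, 4), (3, 5), (3, 6), (4,
      1), (4, 3), (4, 4), (4, 7), (5, 0), (5, 6), (6, 0), (6, 1), (6, 7)]
    cl := [3, 0, 2, 1, 0, 5, 1, 4]
    chq := [(2, 3), (3, 2)]
    rng := [(0, 1), (0, 6), (0, 7), (1, 0), (1, 2), (1, 3), (2, 1), (2, 3), (3, 1), (3, 2), (4, 5), (4,
      7), (5, 4), (5, 6), (6, 0), (6, 5), (7, 0), (7, 4)]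
    lev := [] }
  links := [[1, 7, 8, 9], [7, 0, 9, 2, 3, 5], [3, 1, 9, 10], [5, 1, 2, 10, 4, 11, 12, 13], [11, 3, 10, 8,
    6, 14], [7, 1, 3, 13], [14, 4, 8, 7]]
  P := {
    a := 7
    N := 15
    nb := [898, 685, 1546, 15414, 19784, 8330, 16784, 24931, 1745, 1287, 796, 20504, 10248, 4264,
      2256]
    tri := [(0, 1, 7), (0, 1, 9), (0, 7, 8), (0, 8, 9), (1, 2, 3), (1, 2, 9), (1, 3, 5), (1, 5, 7), (2,
      3, 10), (2, 9, 10), (3, 4, 10), (3, 4, 11), (3, 5, 13), (3, 11, 12), (3, 12, 13), (4, 6, 8),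
      (4, 6, 14), (4, 8, 10), (4, 11, 14), (5, 7, 13), (6, 7, 8), (6, 7, 14)]
    fin := [0, 0, 0, 3, 4, 0, 0, 0, 4, 9, 3, 4, 12, 3, 14]
    chd := [(0, 9)]
    steps := [(0, 1), (0, 2), (0, 5), (0, 7), (0, 6), (3, 10), (3, 13), (4, 8), (4, 11)] }
  rep := [4, 3, 9, 0, 14, 12]

noncomputable def v2919 : Cov.CovD where
  P := 3
  N := 3
  pl := [5, 7]
  lev := [⟨[], [], [(0, 2), (0, 3), (2, 3)], [], [(0, 3, [2]), (1, 0, []), (2, 2, [3])]⟩,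
    ⟨[], [(0, 0), (0, 2), (0, 3)], [(2, 3)], [], [(0, 3, [2]), (2, 2, [3])]⟩,
    ⟨[(0, 1)], [(0, 2), (1, 1), (1, 2), (1, 3)], [(1, 2)], [], [(2, 2, [3]), (3, 1, [])]⟩,
    ⟨[(0, 1), (1, 2)], [(1, 0), (1, 1), (1, 2), (1, 3), (2, 0), (2, 1), (2, 2)], [(0, 1),
      (1, 1)], [5], [(3, 1, []), (4, 0, []), (6, 1, [])]⟩,
    ⟨[(1, 3), (2, 3)], [(0, 0), (2, 1), (3, 0), (3, 1)], [(0, 0), (0, 1)], [4], [(1, 0,
      []), (3, 1, []), (4, 0, [])]⟩,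
    ⟨[(0, 1), (1, 2), (1, 3), (2, 3), (3, 4)], [(0, 3), (1, 1), (1, 2), (1, 3), (3, 0), (3,
      1), (3, 3)], [(1, 3)], [], [(0, 3, [2]), (6, 1, [])]⟩,
    ⟨[(3, 4)], [(0, 0), (0, 3), (1, 3), (4, 0), (4, 1), (4, 3), (5, 3)], [(0, 3)], [4],
      [(0, 3, [2]), (1, 0, [])]⟩]
  Ta := [((1, 0), 0, 3), ((1, 2), 0, 2), ((1, 3), 0, 1), ((3, 1), 1, 0), ((3, 2), 1, 2), ((4, 5),
    0, 5), ((4, 7), 0, 4), ((6, 0), 1, 3), ((6, 5), 1, 5)]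
  Tb := [((0, 1, 6), 3, 0, 1), ((0, 1, 7), 3, 0, 4), ((0, 6, 7), 3, 1, 4), ((1, 0, 2), 0, 3, 2),
    ((1, 0, 3), 0, 3, 1), ((1, 2, 3), 0, 2, 1), ((2, 1, 3), 2, 0, 1), ((3, 1, 2), 1, 0, 2),
    ((4, 5, 7), 0, 5, 4), ((5, 4, 6), 5, 0, 1), ((6, 0, 5), 1, 3, 5), ((7, 0, 4), 4, 3, 0)]
  Tc := []
  Td := [((2, 3), (2, 1), 0), ((2, 3), (2, 3), 1), ((3, 2), (0, 1), 0), ((3, 2), (0, 6), 1), ((3,
    2), (0, 7), 4)]
  G := [[0, 0x8221a8121c648444242648e81c, 0x82c24cc1822, 0x8222c1482242c184c, 0xa464c1822], [0,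
    0, 0x8444c12882c24cc1826, 0, 0x8444c1286424c182a], [0, 0, 0,
    0x2218c2812cc112444c6222cc11c, 0x1422c1222cc112], [0, 0, 0, 0,
    0x145464111ac82c12c42c183]]

noncomputable def n2919 : Ent := ⟨e2919, noF, [], [], []⟩

def c2919 : PLift (Cov.check n2919.C.D v2919 = true) := ⟨by decide +kernel⟩

def b2919 : PLift (entF (fidx ts) 400 2919 n2919 = true) := ⟨by decide +kernel⟩

theorem g2919 : GoodF (fidx ts) 400 2919 := GoodF.ofV v2919 n2919 c2919.down b2919.down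

/-- 4648644:2298/1 -/
noncomputable def e2920 : SCfg where
  D := {
    a := 7
    L := 9
    kp := 6
    inn := [(0, 1), (1, 0), (1, 2), (1, 3), (1, 5), (2, 1), (2, 3), (3, 1), (3, 2), (3, 4), (3, 5), (4,
      3), (4, 6), (5, 1), (5, 3), (6, 4)]
    mix := [(0, 0), (0, 1), (0, 2), (1, 0), (1, 2), (2, 2), (2, 3), (3, 3), (3, 4), (3, 5), (3, 6), (4,
      3), (4, 4), (4, 7), (4, 8), (5, 0), (5, 6), (6, 0), (6, 7), (6, 8)]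
    cl := [1, 5, 3, 0, 2, 6, 0, 2, 4]
    chq := [(1, 3), (3, 1)]
    rng := [(0, 1), (0, 6), (0, 7), (0, 8), (1, 0), (1, 2), (2, 1), (2, 3), (3, 2), (3, 7), (4, 5), (4,
      8), (5, 4), (5, 6), (6, 0), (6, 5), (7, 0), (7, 3), (8, 0), (8, 4)]
    lev := [] }
  links := [[1, 7, 8, 9], [7, 0, 9, 2, 3, 5], [3, 1, 9, 10], [5, 1, 2, 10, 4, 11, 12, 13], [11, 3, 10,
    14, 6, 15], [7, 1, 3, 13], [15, 4, 14, 7]]
  P := {
    a := 7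
    N := 16
    nb := [898, 685, 1546, 15414, 52296, 8330, 49296, 57699, 641, 1287, 16924, 36888, 10248, 4264,
      1232, 2256]
    tri := [(0, 1, 7), (0, 1, 9), (0, 7, 8), (0, 8, 9), (1, 2, 3), (1, 2, 9), (1, 3, 5), (1, 5, 7), (2,
      3, 10), (2, 9, 10), (3, 4, 10), (3, 4, 11), (3, 5, 13), (3, 11, 12), (3, 12, 13), (4, 6,
      14), (4, 6, 15), (4, 10, 14), (4, 11, 15), (5, 7, 13), (6, 7, 14), (6, 7, 15)]
    fin := [0, 0, 0, 3, 4, 0, 0, 0, 8, 9, 3, 4, 12, 3, 4, 15]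
    chd := [(0, 9)]
    steps := [(0, 1), (0, 2), (0, 5), (0, 7), (0, 6), (3, 10), (3, 13), (4, 14), (4, 11)] }
  rep := [3, 0, 4, 9, 15, 8, 12]

noncomputable def v2920 : Cov.CovD where
  P := 3
  N := 4
  pl := [1, 5, 8]
  lev := [⟨[], [], [(1, 3)], [5], [(0, 1, [3]), (2, 3, [1])]⟩,
    ⟨[], [(0, 1), (0, 3)], [(1, 3)], [], [(0, 1, [3]), (2, 3, [1])]⟩,
    ⟨[(0, 1)], [(0, 3), (1, 0), (1, 1), (1, 3)], [(0, 3)], [], [(2, 3, [1]), (3, 0, [])]⟩,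
    ⟨[(0, 1), (1, 2)], [(1, 0), (1, 1), (1, 2), (1, 3), (2, 0), (2, 2), (2, 3)], [(0, 0),
      (0, 2)], [6], [(3, 0, []), (4, 2, []), (6, 0, [])]⟩,
    ⟨[(1, 3), (2, 3)], [(2, 0), (3, 0), (3, 2)], [(0, 2), (2, 2)], [4], [(3, 0, []), (4, 2,
      []), (7, 2, [])]⟩,
    ⟨[(0, 1), (1, 2), (1, 3), (2, 3), (3, 4)], [(0, 1), (1, 0), (1, 1), (1, 3), (3, 0), (3,
      1), (3, 2)], [(0, 1)], [], [(0, 1, [3]), (6, 0, [])]⟩,
    ⟨[(3, 4)], [(0, 1), (1, 1), (4, 0), (4, 1), (4, 2), (5, 1)], [(1, 2)], [4], [(0, 1,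
      [3]), (7, 2, [])]⟩]
  Ta := [((3, 2), 0, 3), ((3, 7), 0, 2), ((4, 5), 2, 6), ((4, 8), 2, 4), ((6, 0), 0, 1), ((6, 5),
    0, 6), ((7, 0), 2, 1), ((7, 3), 2, 0)]
  Tb := [((0, 1, 6), 1, 5, 0), ((0, 1, 7), 1, 5, 2), ((0, 1, 8), 1, 5, 4), ((0, 6, 7), 1, 0, 2),
    ((0, 6, 8), 1, 0, 4), ((0, 7, 8), 1, 2, 4), ((1, 0, 2), 5, 1, 3), ((2, 1, 3), 3, 5, 0),
    ((3, 2, 7), 0, 3, 2), ((4, 5, 8), 2, 6, 4), ((5, 4, 6), 6, 2, 0), ((6, 0, 5), 0, 1, 6),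
    ((7, 0, 3), 2, 1, 0), ((8, 0, 4), 4, 1, 2)]
  Tc := []
  Td := [((1, 3), (0, 1), 5), ((1, 3), (0, 6), 0), ((1, 3), (0, 7), 2), ((1, 3), (0, 8), 4), ((3,
    1), (2, 1), 5), ((3, 1), (2, 3), 0)]
  G := [[0, 0, 0, 0, 0x818224111a182a448221444a8ad11221148a818aa482245142244221448a848ae1d], [0,
    0, 0x444c42888e81c82888484e41448868448ac21d,
    0x8441c248818c2898118c281844c2458444c21448c2c1d, 0x8111a4288118a428818a4298818a421d], [0,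
    0xa21c81c8a41a41c8682229482242c8168142e2444c8828cc12e, 0, 0,
    0xc8221498a441aa1488438844aa411448a88449a21d], [0, 0x8444c2188848c2148444928c8124ce, 0,
    0x8444c2188818c2141448c88489c21d, 0x8818a4218818a4218818a421d]]

noncomputable def n2920 : Ent := ⟨e2920, noF, [], [], [(8, 14, [385746751338780685620664494392815470296102193487288376384450561, 0])]⟩

def c2920 : PLift (Cov.check n2920.C.D v2920 = true) := ⟨by decide +kernel⟩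

def b2920 : PLift (entF (fidx ts) 400 2920 n2920 = true) := ⟨by decide +kernel⟩

theorem g2920 : GoodF (fidx ts) 400 2920 := GoodF.ofV v2920 n2920 c2920.down b2920.down

/-- 4648644:2298/3 -/
noncomputable def e2921 : SCfg where
  D := {
    a := 7
    L := 9
    kp := 6
    inn := [(0, 1), (1, 0), (1, 2), (1, 3), (1, 5), (2, 1), (2, 3), (3, 1), (3, 2), (3, 4), (3, 5), (4,
      3), (4, 6), (5, 1), (5, 3), (6, 4)]
    mix := [(0, 0), (0, 1), (0, 2), (1, 0), (1, 2), (2, 2), (2, 3), (3, 3), (3, 4), (3, 5), (3, 6), (4,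
      1), (4, 3), (4, 4), (4, 7), (5, 0), (5, 6), (6, 1), (6, 7), (6, 8)]
    cl := [3, 0, 2, 1, 0, 5, 1, 4, 6]
    chq := [(2, 3), (3, 2)]
    rng := [(0, 1), (0, 6), (1, 0), (1, 2), (1, 3), (1, 8), (2, 1), (2, 3), (3, 1), (3, 2), (4, 5), (4,
      7), (5, 4), (5, 6), (6, 0), (6, 5), (7, 4), (7, 8), (8, 1), (8, 7)]
    lev := [] }
  links := [[1, 7, 8, 9], [7, 0, 9, 2, 3, 5], [3, 1, 9, 10], [5, 1, 2, 10, 4, 11, 12, 13], [11, 3, 10, 8,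
    6, 14], [7, 1, 3, 13], [14, 4, 8, 15]]
  P := {
    a := 7
    N := 16
    nb := [898, 685, 1546, 15414, 19784, 8330, 49424, 8483, 34513, 1287, 796, 20504, 10248, 4264,
      34896, 16704]
    tri := [(0, 1, 7), (0, 1, 9), (0, 7, 8), (0, 8, 9), (1, 2, 3), (1, 2, 9), (1, 3, 5), (1, 5, 7), (2,
      3, 10), (2, 9, 10), (3, 4, 10), (3, 4, 11), (3, 5, 13), (3, 11, 12), (3, 12, 13), (4, 6, 8),
      (4, 6, 14), (4, 8, 10), (4, 11, 14), (5, 7, 13), (6, 8, 15), (6, 14, 15)]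
    fin := [0, 0, 0, 3, 4, 0, 4, 0, 4, 9, 3, 4, 12, 3, 14, 15]
    chd := [(0, 9)]
    steps := [(0, 1), (0, 2), (0, 5), (0, 7), (3, 10), (3, 13), (4, 6), (4, 8), (4, 11)] }
  rep := [4, 3, 9, 0, 14, 12, 15]

noncomputable def v2921 : Cov.CovD where
  P := 3
  N := 4
  pl := [5, 7, 8]
  lev := [⟨[], [], [(0, 2), (0, 3), (2, 3)], [], [(0, 3, [2]), (1, 0, []), (2, 2, [3])]⟩,
    ⟨[], [(0, 0), (0, 2), (0, 3)], [(2, 3)], [], [(0, 3, [2]), (2, 2, [3])]⟩,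
    ⟨[(0, 1)], [(0, 2), (1, 1), (1, 2), (1, 3)], [(1, 2)], [], [(2, 2, [3]), (3, 1, [])]⟩,
    ⟨[(0, 1), (1, 2)], [(1, 0), (1, 1), (1, 2), (1, 3), (2, 0), (2, 1), (2, 2)], [(0, 1),
      (1, 1)], [5], [(3, 1, []), (4, 0, []), (6, 1, [])]⟩,
    ⟨[(1, 3), (2, 3)], [(0, 0), (2, 1), (3, 0), (3, 1)], [(0, 0), (0, 1)], [4], [(1, 0,
      []), (3, 1, []), (4, 0, [])]⟩,
    ⟨[(0, 1), (1, 2), (1, 3), (2, 3), (3, 4)], [(0, 3), (1, 1), (1, 2), (1, 3), (3, 0), (3,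
      1), (3, 3)], [(1, 3)], [], [(0, 3, [2]), (6, 1, [])]⟩,
    ⟨[(3, 4)], [(0, 0), (4, 0), (4, 1)], [], [4, 6], [(1, 0, [])]⟩]
  Ta := [((1, 0), 0, 3), ((1, 2), 0, 2), ((1, 3), 0, 1), ((1, 8), 0, 6), ((3, 1), 1, 0), ((3, 2),
    1, 2), ((4, 5), 0, 5), ((4, 7), 0, 4), ((6, 0), 1, 3), ((6, 5), 1, 5)]
  Tb := [((0, 1, 6), 3, 0, 1), ((1, 0, 2), 0, 3, 2), ((1, 0, 3), 0, 3, 1), ((1, 0, 8), 0, 3, 6),
    ((1, 2, 3), 0, 2, 1), ((1, 2, 8), 0, 2, 6), ((1, 3, 8), 0, 1, 6), ((2, 1, 3), 2, 0, 1),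
    ((3, 1, 2), 1, 0, 2), ((4, 5, 7), 0, 5, 4), ((5, 4, 6), 5, 0, 1), ((6, 0, 5), 1, 3, 5),
    ((7, 4, 8), 4, 0, 6), ((8, 1, 7), 6, 0, 4)]
  Tc := []
  Td := [((2, 3), (2, 1), 0), ((2, 3), (2, 3), 1), ((3, 2), (0, 1), 0), ((3, 2), (0, 6), 1)]
  G := [[0, 0xc2a86c868ac41e24e22e48e81c, 0x644142aac68c1426, 0xa262c148a262c184c, 0xa464c1822],
    [0, 0, 0xa868c144214214aac44ccd82a, 0, 0xa464c128a464c182a], [0, 0, 0,
    0x1262c83892c4511262ca212cc11c, 0x1164c3191cc122], [0, 0, 0, 0,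
    0x9851647414c89151916a411cc81a]]

noncomputable def n2921 : Ent := ⟨e2921, noF, [], [], [(7, 15, [360035742630636841211993100915356868655746945586763691019628545, 0])]⟩

def c2921 : PLift (Cov.check n2921.C.D v2921 = true) := ⟨by decide +kernel⟩

def b2921 : PLift (entF (fidx ts) 400 2921 n2921 = true) := ⟨by decide +kernel⟩

theorem g2921 : GoodF (fidx ts) 400 2921 := GoodF.ofV v2921 n2921 c2921.down b2921.down

/-- 4648644:2298/4 -/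
noncomputable def e2922 : SCfg where
  D := {
    a := 7
    L := 9
    kp := 6
    inn := [(0, 1), (1, 0), (1, 2), (1, 3), (1, 5), (2, 1), (2, 3), (3, 1), (3, 2), (3, 4), (3, 5), (4,
      3), (4, 6), (5, 1), (5, 3), (6, 4)]
    mix := [(0, 0), (0, 1), (0, 2), (1, 0), (1, 2), (2, 2), (2, 3), (3, 3), (3, 4), (3, 5), (3, 6), (4,
      3), (4, 4), (4, 7), (4, 8), (5, 0), (5, 6), (6, 1), (6, 7), (6, 8)]
    cl := [3, 2, 4, 0, 1, 6, 0, 1, 5]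
    chq := [(3, 4), (4, 3)]
    rng := [(0, 1), (0, 6), (1, 0), (1, 2), (1, 7), (1, 8), (2, 1), (2, 3), (3, 2), (3, 7), (4, 5), (4,
      8), (5, 4), (5, 6), (6, 0), (6, 5), (7, 1), (7, 3), (8, 1), (8, 4)]
    lev := [] }
  links := [[1, 7, 8, 9], [7, 0, 9, 2, 3, 5], [3, 1, 9, 10], [5, 1, 2, 10, 4, 11, 12, 13], [11, 3, 10,
    14, 6, 15], [7, 1, 3, 13], [15, 4, 14, 8]]
  P := {
    a := 7
    N := 16
    nb := [898, 685, 1546, 15414, 52296, 8330, 49424, 8483, 49857, 1287, 16924, 36888, 10248, 4264,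
      1360, 2384]
    tri := [(0, 1, 7), (0, 1, 9), (0, 7, 8), (0, 8, 9), (1, 2, 3), (1, 2, 9), (1, 3, 5), (1, 5, 7), (2,
      3, 10), (2, 9, 10), (3, 4, 10), (3, 4, 11), (3, 5, 13), (3, 11, 12), (3, 12, 13), (4, 6,
      14), (4, 6, 15), (4, 10, 14), (4, 11, 15), (5, 7, 13), (6, 8, 14), (6, 8, 15)]
    fin := [0, 0, 0, 3, 4, 0, 6, 0, 6, 9, 3, 4, 12, 3, 4, 15]
    chd := [(0, 9)]
    steps := [(0, 1), (0, 2), (0, 5), (0, 7), (3, 10), (3, 13), (4, 14), (4, 11), (6, 8)] }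
  rep := [3, 4, 6, 0, 9, 15, 12]

noncomputable def v2922 : Cov.CovD where
  P := 3
  N := 4
  pl := [1, 5, 8]
  lev := [⟨[], [], [(3, 4)], [2], [(0, 3, [4]), (2, 4, [3])]⟩,
    ⟨[], [(0, 3), (0, 4)], [(3, 4)], [], [(0, 3, [4]), (2, 4, [3])]⟩,
    ⟨[(0, 1)], [(0, 4), (1, 0), (1, 3), (1, 4)], [(0, 4)], [], [(2, 4, [3]), (3, 0, [])]⟩,
    ⟨[(0, 1), (1, 2)], [(1, 0), (1, 1), (1, 3), (1, 4), (2, 0), (2, 1), (2, 4)], [(0, 0),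
      (0, 1)], [6], [(3, 0, []), (4, 1, []), (6, 0, [])]⟩,
    ⟨[(1, 3), (2, 3)], [(2, 0), (3, 0), (3, 1)], [(0, 1), (1, 1)], [5], [(3, 0, []), (4, 1,
      []), (7, 1, [])]⟩,
    ⟨[(0, 1), (1, 2), (1, 3), (2, 3), (3, 4)], [(0, 3), (1, 0), (1, 3), (1, 4), (3, 0), (3,
      1), (3, 3)], [(0, 3)], [], [(0, 3, [4]), (6, 0, [])]⟩,
    ⟨[(3, 4)], [(4, 0), (4, 1)], [], [2, 5], [(7, 1, [])]⟩]
  Ta := [((3, 2), 0, 4), ((3, 7), 0, 1), ((4, 5), 1, 6), ((4, 8), 1, 5), ((6, 0), 0, 3), ((6, 5),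
    0, 6), ((7, 1), 1, 2), ((7, 3), 1, 0)]
  Tb := [((0, 1, 6), 3, 2, 0), ((1, 0, 2), 2, 3, 4), ((1, 0, 7), 2, 3, 1), ((1, 0, 8), 2, 3, 5),
    ((1, 2, 7), 2, 4, 1), ((1, 2, 8), 2, 4, 5), ((1, 7, 8), 2, 1, 5), ((2, 1, 3), 4, 2, 0),
    ((3, 2, 7), 0, 4, 1), ((4, 5, 8), 1, 6, 5), ((5, 4, 6), 6, 1, 0), ((6, 0, 5), 0, 3, 6),
    ((7, 1, 3), 1, 2, 0), ((8, 1, 4), 5, 2, 1)]
  Tc := []
  Td := [((3, 4), (0, 1), 2), ((3, 4), (0, 6), 0), ((4, 3), (2, 1), 2), ((4, 3), (2, 3), 0)]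
  G := [[0, 0, 0x44648828cc22882488e18222c42444c88828c4e12242c8222cc21e, 0,
    0x8121c422411c82c11441121c818cc28222c41432c83448818cce1b], [0,
    0xc228242ca4484688c44ac611, 0x8848c2818444c2418444c28848c2c1e,
    0x8111c2488111c2841444c21848c2c1d, 0x1191c2488414c28494428498c2c1b], [0, 0,
    0x426286548289c812444c88a42a9c41422258222cc21e, 0,
    0x28141422c888c941424c1428cc128222c49284583448418cce1b], [0, 0,
    0x8848c281448452414282582429c21e, 0x8444c2181848c2148444c2488852c1d,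
    0x8414c2188818c24494428498c2c1b]]

noncomputable def n2922 : Ent := ⟨e2922, noF, [], [], []⟩

def c2922 : PLift (Cov.check n2922.C.D v2922 = true) := ⟨by decide +kernel⟩

def b2922 : PLift (entF (fidx ts) 400 2922 n2922 = true) := ⟨by decide +kernel⟩

theorem g2922 : GoodF (fidx ts) 400 2922 := GoodF.ofV v2922 n2922 c2922.down b2922.down

/-- 4648644:2298 -/
noncomputable def e2923 : SCfg where
  D := {
    a := 7
    L := 10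
    kp := 7
    inn := [(0, 1), (1, 0), (1, 2), (1, 3), (1, 5), (2, 1), (2, 3), (3, 1), (3, 2), (3, 4), (3, 5), (4,
      3), (4, 6), (5, 1), (5, 3), (6, 4)]
    mix := [(0, 0), (0, 1), (0, 2), (1, 0), (1, 2), (2, 2), (2, 3), (3, 3), (3, 4), (3, 5), (3, 6), (4,
      3), (4, 4), (4, 7), (4, 8), (5, 0), (5, 6), (6, 7), (6, 8), (6, 9)]
    cl := [3, 5, 2, 0, 1, 6, 0, 1, 4, 7]
    chq := [(2, 3), (3, 2)]
    rng := [(0, 1), (0, 6), (1, 0), (1, 2), (2, 1), (2, 3), (3, 2), (3, 7), (4, 5), (4, 8), (5, 4), (5,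
      6), (6, 0), (6, 5), (7, 3), (7, 9), (8, 4), (8, 9), (9, 7), (9, 8)]
    lev := [] }
  links := [[1, 7, 8, 9], [7, 0, 9, 2, 3, 5], [3, 1, 9, 10], [5, 1, 2, 10, 4, 11, 12, 13], [11, 3, 10,
    14, 6, 15], [7, 1, 3, 13], [15, 4, 14, 16]]
  P := {
    a := 7
    N := 17
    nb := [898, 685, 1546, 15414, 52296, 8330, 114704, 8483, 641, 1287, 16924, 36888, 10248, 4264,
      66640, 67664, 49216]
    tri := [(0, 1, 7), (0, 1, 9), (0, 7, 8), (0, 8, 9), (1, 2, 3), (1, 2, 9), (1, 3, 5), (1, 5, 7), (2,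
      3, 10), (2, 9, 10), (3, 4, 10), (3, 4, 11), (3, 5, 13), (3, 11, 12), (3, 12, 13), (4, 6,
      14), (4, 6, 15), (4, 10, 14), (4, 11, 15), (5, 7, 13), (6, 14, 16), (6, 15, 16)]
    fin := [0, 0, 0, 3, 4, 0, 4, 0, 8, 9, 3, 4, 12, 3, 4, 15, 16]
    chd := [(0, 9)]
    steps := [(0, 1), (0, 2), (0, 5), (0, 7), (3, 10), (3, 13), (4, 6), (4, 14), (4, 11)] }
  rep := [3, 4, 9, 0, 15, 8, 12, 16]

noncomputable def v2923 : Cov.CovD where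
  P := 3
  N := 5
  pl := [1, 5, 8, 9]
  lev := [⟨[], [], [(2, 3)], [5], [(0, 3, [2]), (2, 2, [3])]⟩,
    ⟨[], [(0, 2), (0, 3)], [(2, 3)], [], [(0, 3, [2]), (2, 2, [3])]⟩,
    ⟨[(0, 1)], [(0, 2), (1, 0), (1, 2), (1, 3)], [(0, 2)], [], [(2, 2, [3]), (3, 0, [])]⟩,
    ⟨[(0, 1), (1, 2)], [(1, 0), (1, 1), (1, 2), (1, 3), (2, 0), (2, 1), (2, 2)], [(0, 0),
      (0, 1)], [6], [(3, 0, []), (4, 1, []), (6, 0, [])]⟩,
    ⟨[(1, 3), (2, 3)], [(2, 0), (3, 0), (3, 1)], [(0, 1), (1, 1)], [4], [(3, 0, []), (4, 1,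
      []), (7, 1, [])]⟩,
    ⟨[(0, 1), (1, 2), (1, 3), (2, 3), (3, 4)], [(0, 3), (1, 0), (1, 2), (1, 3), (3, 0), (3,
      1), (3, 3)], [(0, 3)], [], [(0, 3, [2]), (6, 0, [])]⟩,
    ⟨[(3, 4)], [(4, 0), (4, 1)], [], [4, 7], [(7, 1, [])]⟩]
  Ta := [((3, 2), 0, 2), ((3, 7), 0, 1), ((4, 5), 1, 6), ((4, 8), 1, 4), ((6, 0), 0, 3), ((6, 5),
    0, 6), ((7, 3), 1, 0), ((7, 9), 1, 7)]
  Tb := [((0, 1, 6), 3, 5, 0), ((1, 0, 2), 5, 3, 2), ((2, 1, 3), 2, 5, 0), ((3, 2, 7), 0, 2, 1),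
    ((4, 5, 8), 1, 6, 4), ((5, 4, 6), 6, 1, 0), ((6, 0, 5), 0, 3, 6), ((7, 3, 9), 1, 0, 7),
    ((8, 4, 9), 4, 1, 7), ((9, 7, 8), 7, 1, 4)]
  Tc := []
  Td := [((2, 3), (2, 1), 5), ((2, 3), (2, 3), 0), ((3, 2), (0, 1), 5), ((3, 2), (0, 6), 0)]
  G := [[0, 0, 0x6131c4231a1c842252c84e9421c426131c8221b2c48ea131c47121c8c2e,
    0x22442258c988cc1b24422b2c228cc15249222cc2288c1d,
    0x7428c9828cc216434c32a2cc212454c9422acc21b], [0,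
    0xc262aa161c648e42e48e44e81c2a26c262ac81d, 0x9151c2489151c2849158c249151c24ce,
    0x9151c2489151c28499c55cc241d, 0x9854c2819454c2819454c281b], [0, 0, 0,
    0x22b2c4124e458822e2588da838c417222c81b222944d7222962a29c41d,
    0x2454cc8289c264a499828cc2364a45242ec9c82c4245ccc249c81b], [0, 0, 0,
    0x9454c249858c2499454c289454c28999c55cc241d, 0x9454c2189454c289454c2899454c281b]]

noncomputable def n2923 : Ent := ⟨e2923, noF, [], [], [(7, 16, [1580044410770988437309982408355971841652082177953823432505701072897, 0]), (8, 14, [1685382413448253767852309107433119732572617628602273068445376876545, 0]), (8, 16, [1580044410770988437309982408355971841652082177953823432505701081089, 0])]⟩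

def c2923 : PLift (Cov.check n2923.C.D v2923 = true) := ⟨by decide +kernel⟩

def b2923 : PLift (entF (fidx ts) 400 2923 n2923 = true) := ⟨by decide +kernel⟩

theorem g2923 : GoodF (fidx ts) 400 2923 := GoodF.ofV v2923 n2923 c2923.down b2923.down

/-- 4648464:2304/1 -/
noncomputable def e2924 : SCfg where
  D := {
    a := 7
    L := 9
    kp := 7
    inn := [(0, 1), (1, 0), (1, 2), (1, 3), (2, 1), (2, 3), (3, 1), (3, 2), (3, 4), (3, 5), (3, 6), (4,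
      3), (4, 5), (5, 3), (5, 4), (6, 3)]
    mix := [(0, 0), (0, 1), (0, 2), (1, 0), (1, 2), (1, 3), (2, 2), (2, 4), (3, 3), (3, 4), (3, 5), (4,
      5), (4, 6), (5, 3), (5, 6), (5, 7), (5, 8), (6, 1), (6, 4), (6, 5)]
    cl := [2, 5, 0, 0, 1, 3, 4, 6, 7]
    chq := [(1, 3), (1, 4), (1, 6), (1, 7), (3, 1), (4, 1), (6, 1), (7, 1)]
    rng := [(0, 1), (0, 3), (1, 0), (1, 2), (1, 4), (1, 5), (2, 1), (2, 4), (3, 0), (3, 8), (4, 1), (4,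
      2), (5, 1), (5, 6), (6, 5), (6, 7), (7, 6), (7, 8), (8, 3), (8, 7)]
    lev := [] }
  links := [[1, 7, 8, 9], [7, 0, 9, 2, 3, 10], [3, 1, 9, 11], [10, 1, 2, 11, 6, 12, 4, 5], [5, 3, 12,
    13], [10, 3, 4, 13, 14, 15], [12, 3, 11, 8]]
  P := {
    a := 7
    N := 16
    nb := [898, 1677, 2570, 7286, 12328, 58392, 6408, 1283, 6849, 2311, 32938, 844, 8536, 20528,
      40992, 17440]
    tri := [(0, 1, 7), (0, 1, 9), (0, 7, 8), (0, 8, 9), (1, 2, 3), (1, 2, 9), (1, 3, 10), (1, 7, 10),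
      (2, 3, 11), (2, 9, 11), (3, 4, 5), (3, 4, 12), (3, 5, 10), (3, 6, 11), (3, 6, 12), (4, 5,
      13), (4, 12, 13), (5, 10, 15), (5, 13, 14), (5, 14, 15), (6, 8, 11), (6, 8, 12)]
    fin := [0, 1, 1, 3, 3, 3, 6, 0, 6, 1, 1, 3, 12, 13, 14, 15]
    chd := [(3, 12), (3, 13), (3, 14), (3, 15)]
    steps := [(0, 7), (1, 2), (1, 9), (1, 10), (3, 4), (3, 5), (3, 11), (6, 8)] }
  rep := [1, 3, 0, 12, 13, 6, 14, 15]

noncomputable def v2924 : Cov.CovD where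
  P := 3
  N := 5
  pl := [0, 1]
  lev := [⟨[], [], [], [2, 5], [(2, 0, [])]⟩,
    ⟨[], [(0, 0)], [(0, 0)], [2], [(2, 0, []), (3, 0, [])]⟩,
    ⟨[(0, 1)], [(0, 0), (1, 0), (1, 1)], [(0, 1)], [], [(2, 0, []), (4, 1, [3, 4, 6, 7])]⟩,
    ⟨[(0, 1), (1, 2)], [(1, 0), (1, 1), (1, 3), (2, 0), (2, 1), (2, 3)], [(0, 1), (0, 3),
      (1, 3)], [], [(3, 0, []), (4, 1, [3, 4, 6, 7]), (5, 3, [1])]⟩,
    ⟨[(1, 3), (2, 3)], [(3, 0), (3, 1), (3, 3), (3, 4)], [(3, 4)], [], [(5, 3, [1]), (6, 4,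
      [1])]⟩,
    ⟨[(1, 3), (2, 3), (3, 4)], [(1, 0), (3, 0), (3, 1), (3, 3), (3, 4), (3, 6), (3, 7), (4,
      0), (4, 3), (4, 4), (4, 6), (4, 7)], [(0, 4), (0, 6), (0, 7), (4, 6), (4, 7), (6, 7)],
      [], [(3, 0, []), (6, 4, [1]), (7, 6, [1]), (8, 7, [1])]⟩,
    ⟨[(1, 3), (2, 3), (3, 4), (3, 5)], [(2, 1), (3, 0), (3, 1), (3, 3), (4, 3)], [(1, 3)],
      [5], [(4, 1, [3, 4, 6, 7]), (5, 3, [1])]⟩]
  Ta := [((2, 1), 0, 5), ((2, 4), 0, 1), ((3, 0), 0, 2), ((3, 8), 0, 7)]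
  Tb := [((0, 1, 3), 2, 5, 0), ((1, 0, 2), 5, 2, 0), ((1, 0, 4), 5, 2, 1), ((1, 0, 5), 5, 2, 3),
    ((1, 2, 4), 5, 0, 1), ((1, 2, 5), 5, 0, 3), ((1, 4, 5), 5, 1, 3), ((2, 1, 4), 0, 5, 1),
    ((3, 0, 8), 0, 2, 7), ((4, 1, 2), 1, 5, 0), ((5, 1, 6), 3, 5, 4), ((6, 5, 7), 4, 3, 6),
    ((7, 6, 8), 6, 4, 7), ((8, 3, 7), 7, 0, 6)]
  Tc := [(1, 3, 4), (1, 3, 6), (1, 3, 7), (1, 4, 6), (1, 4, 7), (1, 6, 7)]
  Td := [((1, 3), (4, 1), 5), ((1, 3), (4, 2), 0), ((1, 4), (4, 1), 5), ((1, 4), (4, 2), 0), ((1,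
    6), (4, 1), 5), ((1, 6), (4, 2), 0), ((1, 7), (4, 1), 5), ((1, 7), (4, 2), 0), ((3, 1),
    (5, 1), 5), ((3, 1), (5, 6), 4), ((4, 1), (6, 5), 3), ((4, 1), (6, 7), 6), ((6, 1), (7,
    6), 4), ((6, 1), (7, 8), 7), ((7, 1), (8, 3), 0), ((7, 1), (8, 7), 6)]
  G := [[0, 0x812281a121e8186684121641416a6188a4c, 0,
    0x292b24248238222c9c42242f248121232242c98cc, 0x822422942252723228527a28d82a], [0, 0,
    0x122422c183244228222b121cc26, 0xa2b212d18861561238c81, 0x22d21274321298c21]]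

noncomputable def n2924 : Ent := ⟨e2924, noF, [], [], []⟩

def c2924 : PLift (Cov.check n2924.C.D v2924 = true) := ⟨by decide +kernel⟩

def b2924 : PLift (entF (fidx ts) 400 2924 n2924 = true) := ⟨by decide +kernel⟩

theorem g2924 : GoodF (fidx ts) 400 2924 := GoodF.ofV v2924 n2924 c2924.down b2924.down

/-- 4648464:2304 -/
noncomputable def e2925 : SCfg where
  D := {
    a := 7
    L := 10
    kp := 8
    inn := [(0, 1), (1, 0), (1, 2), (1, 3), (2, 1), (2, 3), (3, 1), (3, 2), (3, 4), (3, 5), (3, 6), (4,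
      3), (4, 5), (5, 3), (5, 4), (6, 3)]
    mix := [(0, 0), (0, 1), (0, 2), (1, 0), (1, 2), (1, 3), (2, 2), (2, 4), (3, 3), (3, 4), (3, 5), (4,
      5), (4, 6), (5, 3), (5, 6), (5, 7), (5, 8), (6, 4), (6, 5), (6, 9)]
    cl := [2, 7, 0, 0, 1, 3, 4, 5, 6, 8]
    chq := [(1, 3), (1, 4), (1, 5), (1, 6), (3, 1), (4, 1), (5, 1), (6, 1)]
    rng := [(0, 1), (0, 3), (1, 0), (1, 2), (2, 1), (2, 4), (3, 0), (3, 8), (4, 2), (4, 9), (5, 6), (5,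
      9), (6, 5), (6, 7), (7, 6), (7, 8), (8, 3), (8, 7), (9, 4), (9, 5)]
    lev := [] }
  links := [[1, 7, 8, 9], [7, 0, 9, 2, 3, 10], [3, 1, 9, 11], [10, 1, 2, 11, 6, 12, 4, 5], [5, 3, 12,
    13], [10, 3, 4, 13, 14, 15], [12, 3, 11, 16]]
  P := {
    a := 7
    N := 17
    nb := [898, 1677, 2570, 7286, 12328, 58392, 71688, 1283, 641, 2311, 32938, 66124, 73816, 20528,
      40992, 17440, 6208]
    tri := [(0, 1, 7), (0, 1, 9), (0, 7, 8), (0, 8, 9), (1, 2, 3), (1, 2, 9), (1, 3, 10), (1, 7, 10),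
      (2, 3, 11), (2, 9, 11), (3, 4, 5), (3, 4, 12), (3, 5, 10), (3, 6, 11), (3, 6, 12), (4, 5,
      13), (4, 12, 13), (5, 10, 15), (5, 13, 14), (5, 14, 15), (6, 11, 16), (6, 12, 16)]
    fin := [0, 1, 1, 3, 3, 3, 3, 0, 8, 1, 1, 3, 12, 13, 14, 15, 16]
    chd := [(3, 12), (3, 13), (3, 14), (3, 15)]
    steps := [(0, 7), (1, 2), (1, 9), (1, 10), (3, 4), (3, 5), (3, 6), (3, 11)] }
  rep := [1, 3, 0, 12, 13, 14, 15, 8, 16]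

noncomputable def v2925 : Cov.CovD where
  P := 3
  N := 6
  pl := [0, 1, 9]
  lev := [⟨[], [], [], [2, 7], [(2, 0, [])]⟩,
    ⟨[], [(0, 0)], [(0, 0)], [2], [(2, 0, []), (3, 0, [])]⟩,
    ⟨[(0, 1)], [(0, 0), (1, 0), (1, 1)], [(0, 1)], [], [(2, 0, []), (4, 1, [3, 4, 5, 6])]⟩,
    ⟨[(0, 1), (1, 2)], [(1, 0), (1, 1), (1, 3), (2, 0), (2, 1), (2, 3)], [(0, 1), (0, 3),
      (1, 3)], [], [(3, 0, []), (4, 1, [3, 4, 5, 6]), (5, 3, [1])]⟩,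
    ⟨[(1, 3), (2, 3)], [(3, 0), (3, 1), (3, 3), (3, 4)], [(3, 4)], [], [(5, 3, [1]), (6, 4,
      [1])]⟩,
    ⟨[(1, 3), (2, 3), (3, 4)], [(1, 0), (3, 0), (3, 1), (3, 3), (3, 4), (3, 5), (3, 6), (4,
      0), (4, 3), (4, 4), (4, 5), (4, 6)], [(0, 4), (0, 5), (0, 6), (4, 5), (4, 6), (5, 6)],
      [], [(3, 0, []), (6, 4, [1]), (7, 5, [1]), (8, 6, [1])]⟩,
    ⟨[(1, 3), (2, 3), (3, 4), (3, 5)], [(2, 1), (3, 0), (3, 1), (3, 3), (4, 3)], [(1, 3)],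
      [8], [(4, 1, [3, 4, 5, 6]), (5, 3, [1])]⟩]
  Ta := [((2, 1), 0, 7), ((2, 4), 0, 1), ((3, 0), 0, 2), ((3, 8), 0, 6)]
  Tb := [((0, 1, 3), 2, 7, 0), ((1, 0, 2), 7, 2, 0), ((2, 1, 4), 0, 7, 1), ((3, 0, 8), 0, 2, 6),
    ((4, 2, 9), 1, 0, 8), ((5, 6, 9), 3, 4, 8), ((6, 5, 7), 4, 3, 5), ((7, 6, 8), 5, 4, 6),
    ((8, 3, 7), 6, 0, 5), ((9, 4, 5), 8, 1, 3)]
  Tc := [(1, 3, 4), (1, 3, 5), (1, 3, 6), (1, 4, 5), (1, 4, 6), (1, 5, 6)]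
  Td := [((1, 3), (4, 2), 0), ((1, 3), (4, 9), 8), ((1, 4), (4, 2), 0), ((1, 4), (4, 9), 8), ((1,
    5), (4, 2), 0), ((1, 5), (4, 9), 8), ((1, 6), (4, 2), 0), ((1, 6), (4, 9), 8), ((3, 1),
    (5, 6), 4), ((3, 1), (5, 9), 8), ((4, 1), (6, 5), 3), ((4, 1), (6, 7), 5), ((5, 1), (7,
    6), 4), ((5, 1), (7, 8), 6), ((6, 1), (8, 3), 0), ((6, 1), (8, 7), 5)]
  G := [[0, 0x8121a816141e661c1a1e8a4c1a121ea141c1e6412168c8c, 0,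
    0x123234722d27a624269c4b22d2b6412323a282a9c8c,
    0x2252f24728292b8c2322ca527a2851239238c2a], [0, 0,
    0x728232b813242527486728292b8432425274866, 0xb24252748229222b84c1,
    0x321b242527c3282a8c21]]

noncomputable def n2925 : Ent := ⟨e2925, noF, [], [], [(8, 16, [1580044410770988437309982408355971841652082177953823432505701089281, 0])]⟩

def c2925 : PLift (Cov.check n2925.C.D v2925 = true) := ⟨by decide +kernel⟩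

def b2925 : PLift (entF (fidx ts) 400 2925 n2925 = true) := ⟨by decide +kernel⟩

theorem g2925 : GoodF (fidx ts) 400 2925 := GoodF.ofV v2925 n2925 c2925.down b2925.down

/-- 4646854:2306/1 -/
noncomputable def e2926 : SCfg where
  D := {
    a := 7
    L := 10
    kp := 7
    inn := [(0, 1), (0, 3), (0, 4), (1, 0), (1, 2), (1, 4), (2, 1), (3, 0), (3, 4), (4, 0), (4, 1), (4,
      3), (4, 5), (5, 4), (5, 6), (6, 5)]
    mix := [(0, 0), (1, 0), (1, 1), (1, 2), (2, 0), (2, 1), (2, 3), (3, 0), (3, 4), (3, 5), (3, 6), (4,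
      2), (4, 4), (4, 7), (4, 8), (5, 7), (5, 8), (5, 9), (6, 3), (6, 7), (6, 9)]
    cl := [0, 3, 2, 4, 0, 6, 7, 1, 1, 5]
    chq := [(0, 2), (0, 3), (2, 0), (3, 0)]
    rng := [(0, 3), (0, 6), (1, 2), (1, 3), (2, 1), (2, 7), (3, 0), (3, 1), (3, 7), (3, 9), (4, 5), (4,
      8), (5, 4), (5, 6), (6, 0), (6, 5), (7, 2), (7, 3), (8, 4), (8, 9), (9, 3), (9, 8)]
    lev := [] }
  links := [[1, 4, 3, 7], [4, 0, 7, 2, 8, 9], [8, 1, 7, 10], [7, 0, 4, 11, 12, 13], [11, 3, 0, 1, 9, 14,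
    5, 15], [15, 4, 14, 6, 16], [16, 5, 14, 10]]
  P := {
    a := 7
    N := 17
    nb := [154, 917, 1410, 14481, 51755, 114768, 82976, 9231, 1542, 16658, 82372, 36888, 10248, 4232,
      1648, 67632, 33888]
    tri := [(0, 1, 4), (0, 1, 7), (0, 3, 4), (0, 3, 7), (1, 2, 7), (1, 2, 8), (1, 4, 9), (1, 8, 9), (2,
      7, 10), (2, 8, 10), (3, 4, 11), (3, 7, 13), (3, 11, 12), (3, 12, 13), (4, 5, 14), (4, 5,
      15), (4, 9, 14), (4, 11, 15), (5, 6, 14), (5, 6, 16), (5, 15, 16), (6, 10, 14), (6, 10, 16)]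
    fin := [0, 0, 0, 0, 4, 5, 5, 0, 8, 9, 5, 0, 12, 13, 4, 4, 16]
    chd := [(0, 8), (0, 9)]
    steps := [(0, 1), (0, 2), (0, 3), (0, 7), (0, 11), (4, 14), (4, 15), (5, 6), (5, 10)] }
  rep := [0, 4, 9, 8, 5, 16, 12, 13]

noncomputable def v2926 : Cov.CovD where
  P := 3
  N := 5
  pl := [3, 5, 6, 9]
  lev := [⟨[], [], [], [], [(0, 0, [2, 3])]⟩,
    ⟨[], [(0, 0), (0, 2), (0, 3)], [(0, 2), (0, 3), (2, 3)], [], [(0, 0, [2, 3]), (1, 3,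
      [0]), (2, 2, [0])]⟩,
    ⟨[(0, 1)], [(0, 0), (1, 0), (1, 2), (1, 3)], [(0, 3)], [4], [(0, 0, [2, 3]), (1, 3,
      [0])]⟩,
    ⟨[(0, 1)], [(0, 0), (1, 0), (2, 0)], [(0, 0)], [6, 7], [(0, 0, [2, 3]), (4, 0, [2,
      3])]⟩,
    ⟨[(0, 1), (0, 3), (1, 2), (1, 3)], [(0, 0), (0, 1), (0, 2), (1, 0), (1, 1), (1, 2), (1,
      3), (3, 0), (3, 1), (3, 2)], [(0, 1), (0, 2), (1, 1), (1, 2)], [], [(2, 2, [0]), (4, 0,
      [2, 3]), (7, 1, []), (8, 1, [])]⟩,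
    ⟨[(0, 4), (1, 4), (3, 4)], [(4, 0), (4, 1), (4, 2)], [(1, 1)], [5], [(7, 1, []), (8, 1,
      [])]⟩,
    ⟨[(4, 5)], [(4, 1), (5, 1)], [], [4, 5], [(7, 1, [])]⟩]
  Ta := [((0, 3), 0, 4), ((0, 6), 0, 7), ((4, 5), 0, 6), ((4, 8), 0, 1), ((7, 2), 1, 2), ((7, 3),
    1, 4), ((8, 4), 1, 0), ((8, 9), 1, 5)]
  Tb := [((0, 3, 6), 0, 4, 7), ((1, 2, 3), 3, 2, 4), ((2, 1, 7), 2, 3, 1), ((3, 0, 1), 4, 0, 3),
    ((3, 0, 7), 4, 0, 1), ((3, 0, 9), 4, 0, 5), ((3, 1, 7), 4, 3, 1), ((3, 1, 9), 4, 3, 5),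
    ((3, 7, 9), 4, 1, 5), ((4, 5, 8), 0, 6, 1), ((5, 4, 6), 6, 0, 7), ((6, 0, 5), 7, 0, 6),
    ((7, 2, 3), 1, 2, 4), ((8, 4, 9), 1, 0, 5), ((9, 3, 8), 5, 4, 1)]
  Tc := [(0, 2, 3)]
  Td := [((0, 2), (0, 3), 4), ((0, 2), (0, 6), 7), ((0, 2), (4, 5), 6), ((0, 2), (4, 8), 1), ((0,
    3), (0, 3), 4), ((0, 3), (0, 6), 7), ((0, 3), (4, 5), 6), ((0, 3), (4, 8), 1), ((2, 0),
    (2, 1), 3), ((2, 0), (2, 7), 1), ((3, 0), (1, 2), 2), ((3, 0), (1, 3), 4)]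
  G := [[0, 0, 0xc194c158c194e1c194c158c158e1a4, 0xc59495c1c594e295c1c958a2cc9584246,
    0x84c184c14198ec158c15895c1e6281c181c181c1e14c1415814c1ec86], [0, 0,
    0x215421582154e1219421582198e1c2, 0, 0x81c182c181c1e24c1425824c1ec295825c1c258e2a4], [0,
    0, 0xc194c158c158e1c194c158c194e1a4, 0xc194c158c194e2c158c158c194e252,
    0x415848158c15865415881c1c14c82c1588158ac1584f8158841588cb4], [0,
    0x116411a41168e111a411c811a8e1c2, 0x215421583258e1219421c82158e1c2, 0,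
    0x2158215861215821982158e22158841588cb4]]

noncomputable def n2926 : Ent := ⟨e2926, noF, [], [], []⟩

def c2926 : PLift (Cov.check n2926.C.D v2926 = true) := ⟨by decide +kernel⟩

def b2926 : PLift (entF (fidx ts) 400 2926 n2926 = true) := ⟨by decide +kernel⟩

theorem g2926 : GoodF (fidx ts) 400 2926 := GoodF.ofV v2926 n2926 c2926.down b2926.down

/-- 4646854:2306/2 -/
noncomputable def e2927 : SCfg where
  D := {
    a := 7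
    L := 10
    kp := 7
    inn := [(0, 1), (0, 3), (0, 4), (1, 0), (1, 2), (1, 4), (2, 1), (3, 0), (3, 4), (4, 0), (4, 1), (4,
      3), (4, 5), (5, 4), (5, 6), (6, 5)]
    mix := [(0, 0), (1, 0), (1, 1), (1, 2), (2, 0), (2, 1), (2, 3), (3, 0), (3, 4), (3, 5), (3, 6), (4,
      2), (4, 4), (4, 7), (4, 8), (5, 3), (5, 7), (5, 8), (6, 3), (6, 7), (6, 9)]
    cl := [0, 4, 2, 3, 0, 5, 6, 1, 1, 7]
    chq := [(0, 2), (0, 4), (2, 0), (4, 0)]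
    rng := [(0, 3), (0, 6), (1, 2), (1, 3), (2, 1), (2, 7), (3, 0), (3, 1), (3, 8), (3, 9), (4, 5), (4,
      8), (5, 4), (5, 6), (6, 0), (6, 5), (7, 2), (7, 9), (8, 3), (8, 4), (9, 3), (9, 7)]
    lev := [] }
  links := [[1, 4, 3, 7], [4, 0, 7, 2, 8, 9], [8, 1, 7, 10], [7, 0, 4, 11, 12, 13], [11, 3, 0, 1, 9, 14,
    5, 15], [15, 4, 14, 6, 10], [10, 5, 14, 16]]
  P := {
    a := 7
    N := 17
    nb := [154, 917, 1410, 14481, 51755, 50256, 82976, 9231, 1542, 16658, 98788, 36888, 10248, 4232,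
      66160, 3120, 17472]
    tri := [(0, 1, 4), (0, 1, 7), (0, 3, 4), (0, 3, 7), (1, 2, 7), (1, 2, 8), (1, 4, 9), (1, 8, 9), (2,
      7, 10), (2, 8, 10), (3, 4, 11), (3, 7, 13), (3, 11, 12), (3, 12, 13), (4, 5, 14), (4, 5,
      15), (4, 9, 14), (4, 11, 15), (5, 6, 10), (5, 6, 14), (5, 10, 15), (6, 10, 16), (6, 14, 16)]
    fin := [0, 0, 0, 0, 0, 5, 6, 0, 8, 9, 6, 0, 12, 13, 5, 5, 16]
    chd := [(0, 8), (0, 9)]
    steps := [(0, 1), (0, 2), (0, 3), (0, 4), (0, 7), (0, 11), (5, 14), (5, 15), (6, 10)] }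
  rep := [0, 5, 9, 6, 8, 12, 13, 16]

noncomputable def v2927 : Cov.CovD where
  P := 3
  N := 5
  pl := [3, 5, 6, 9]
  lev := [⟨[], [], [], [], [(0, 0, [2, 4])]⟩,
    ⟨[], [(0, 0), (0, 2), (0, 4)], [(0, 2), (0, 4), (2, 4)], [], [(0, 0, [2, 4]), (1, 4,
      [0]), (2, 2, [0])]⟩,
    ⟨[(0, 1)], [(0, 0), (1, 0), (1, 2), (1, 4)], [(0, 4)], [3], [(0, 0, [2, 4]), (1, 4,
      [0])]⟩,
    ⟨[(0, 1)], [(0, 0), (1, 0), (2, 0)], [(0, 0)], [5, 6], [(0, 0, [2, 4]), (4, 0, [2,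
      4])]⟩,
    ⟨[(0, 1), (0, 3), (1, 2), (1, 3)], [(0, 0), (0, 1), (0, 2), (1, 0), (1, 1), (1, 2), (1,
      4), (3, 0), (3, 1), (3, 2)], [(0, 1), (0, 2), (1, 1), (1, 2)], [], [(2, 2, [0]), (4, 0,
      [2, 4]), (7, 1, []), (8, 1, [])]⟩,
    ⟨[(0, 4), (1, 4), (3, 4)], [(4, 0), (4, 1), (4, 2)], [(1, 1)], [3], [(7, 1, []), (8, 1,
      [])]⟩,
    ⟨[(4, 5)], [(4, 1), (5, 1)], [], [3, 7], [(7, 1, [])]⟩]
  Ta := [((0, 3), 0, 3), ((0, 6), 0, 6), ((4, 5), 0, 5), ((4, 8), 0, 1), ((7, 2), 1, 2), ((7, 9),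
    1, 7), ((8, 3), 1, 3), ((8, 4), 1, 0)]
  Tb := [((0, 3, 6), 0, 3, 6), ((1, 2, 3), 4, 2, 3), ((2, 1, 7), 2, 4, 1), ((3, 0, 1), 3, 0, 4),
    ((3, 0, 8), 3, 0, 1), ((3, 0, 9), 3, 0, 7), ((3, 1, 8), 3, 4, 1), ((3, 1, 9), 3, 4, 7),
    ((3, 8, 9), 3, 1, 7), ((4, 5, 8), 0, 5, 1), ((5, 4, 6), 5, 0, 6), ((6, 0, 5), 6, 0, 5),
    ((7, 2, 9), 1, 2, 7), ((8, 3, 4), 1, 3, 0), ((9, 3, 7), 7, 3, 1)]
  Tc := [(0, 2, 4)]
  Td := [((0, 2), (0, 3), 3), ((0, 2), (0, 6), 6), ((0, 2), (4, 5), 5), ((0, 2), (4, 8), 1), ((0,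
    4), (0, 3), 3), ((0, 4), (0, 6), 6), ((0, 4), (4, 5), 5), ((0, 4), (4, 8), 1), ((2, 0),
    (2, 1), 4), ((2, 0), (2, 7), 1), ((4, 0), (1, 2), 2), ((4, 0), (1, 3), 3)]
  G := [[0, 0, 0xd14d18d18e1d18d18d18e1a4, 0xc59495c1c958e251c89c958a2cc9584246,
    0x981d81981e541518541ecc95895c195c1e2a4], [0, 0, 0x214218218e1714b14b18e168, 0,
    0x981d81781e241248248ec518c48c81e22c1218218e6a4], [0, 0, 0xd14d18d14e1d18d18d14e1c2,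
    0xd14d18d18e2d14d18d18e258, 0xd18d1861d18d18d18e291885188cb4], [0,
    0x11a411c46111a411681168e1c11c4818a, 0xd14e14b14e1e14b18b14e1c2, 0,
    0x718718619188418548c18e218218218ee21883488cb4]]

noncomputable def n2927 : Ent := ⟨e2927, noF, [], [], []⟩

def c2927 : PLift (Cov.check n2927.C.D v2927 = true) := ⟨by decide +kernel⟩

def b2927 : PLift (entF (fidx ts) 400 2927 n2927 = true) := ⟨by decide +kernel⟩

theorem g2927 : GoodF (fidx ts) 400 2927 := GoodF.ofV v2927 n2927 c2927.down b2927.down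

/-- 4646854:2306/3 -/
noncomputable def e2928 : SCfg where
  D := {
    a := 7
    L := 10
    kp := 7
    inn := [(0, 1), (0, 3), (0, 4), (1, 0), (1, 2), (1, 4), (2, 1), (3, 0), (3, 4), (4, 0), (4, 1), (4,
      3), (4, 5), (5, 4), (5, 6), (6, 5)]
    mix := [(0, 0), (1, 0), (1, 1), (1, 2), (2, 0), (2, 1), (2, 3), (3, 0), (3, 3), (3, 4), (3, 5), (4,
      2), (4, 4), (4, 6), (4, 7), (5, 6), (5, 7), (5, 8), (6, 6), (6, 8), (6, 9)]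
    cl := [0, 3, 2, 4, 0, 6, 1, 1, 5, 7]
    chq := [(0, 2), (0, 3), (2, 0), (3, 0)]
    rng := [(0, 3), (1, 2), (1, 3), (2, 1), (2, 6), (3, 0), (3, 1), (3, 5), (4, 5), (4, 7), (5, 3), (5,
      4), (6, 2), (6, 9), (7, 4), (7, 8), (8, 7), (8, 9), (9, 6), (9, 8)]
    lev := [] }
  links := [[1, 4, 3, 7], [4, 0, 7, 2, 8, 9], [8, 1, 7, 10], [7, 0, 4, 11, 12, 10], [11, 3, 0, 1, 9, 13,
    5, 14], [14, 4, 13, 6, 15], [15, 5, 13, 16]]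
  P := {
    a := 7
    N := 17
    nb := [154, 917, 1410, 7313, 27179, 57424, 106528, 1039, 1542, 8466, 4492, 20504, 3080, 66160,
      34864, 82016, 41024]
    tri := [(0, 1, 4), (0, 1, 7), (0, 3, 4), (0, 3, 7), (1, 2, 7), (1, 2, 8), (1, 4, 9), (1, 8, 9), (2,
      7, 10), (2, 8, 10), (3, 4, 11), (3, 7, 10), (3, 10, 12), (3, 11, 12), (4, 5, 13), (4, 5,
      14), (4, 9, 13), (4, 11, 14), (5, 6, 13), (5, 6, 15), (5, 14, 15), (6, 13, 16), (6, 15, 16)]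
    fin := [0, 0, 0, 0, 0, 5, 5, 0, 8, 9, 10, 0, 12, 5, 5, 15, 16]
    chd := [(0, 8), (0, 9)]
    steps := [(0, 1), (0, 2), (0, 4), (0, 7), (0, 3), (0, 11), (5, 6), (5, 13), (5, 14)] }
  rep := [0, 5, 9, 8, 10, 15, 12, 16]

noncomputable def v2928 : Cov.CovD where
  P := 3
  N := 5
  pl := [3, 5, 8, 9]
  lev := [⟨[], [], [], [], [(0, 0, [2, 3])]⟩,
    ⟨[], [(0, 0), (0, 2), (0, 3)], [(0, 2), (0, 3), (2, 3)], [], [(0, 0, [2, 3]), (1, 3,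
      [0]), (2, 2, [0])]⟩,
    ⟨[(0, 1)], [(0, 0), (1, 0), (1, 2), (1, 3)], [(0, 3)], [4], [(0, 0, [2, 3]), (1, 3,
      [0])]⟩,
    ⟨[(0, 1)], [(0, 0), (1, 0), (2, 0)], [(0, 0)], [4, 6], [(0, 0, [2, 3]), (4, 0, [2,
      3])]⟩,
    ⟨[(0, 1), (0, 3), (1, 2), (1, 3)], [(0, 0), (0, 1), (0, 2), (1, 0), (1, 1), (1, 2), (1,
      3), (3, 0), (3, 1), (3, 2)], [(0, 1), (0, 2), (1, 1), (1, 2)], [], [(2, 2, [0]), (4, 0,
      [2, 3]), (6, 1, []), (7, 1, [])]⟩,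
    ⟨[(0, 4), (1, 4), (3, 4)], [(4, 0), (4, 1), (4, 2)], [(1, 1)], [5], [(6, 1, []), (7, 1,
      [])]⟩,
    ⟨[(4, 5)], [(4, 1), (5, 1)], [], [5, 7], [(6, 1, [])]⟩]
  Ta := [((0, 3), 0, 4), ((4, 5), 0, 6), ((4, 7), 0, 1), ((6, 2), 1, 2), ((6, 9), 1, 7), ((7, 4),
    1, 0), ((7, 8), 1, 5)]
  Tb := [((1, 2, 3), 3, 2, 4), ((2, 1, 6), 2, 3, 1), ((3, 0, 1), 4, 0, 3), ((3, 0, 5), 4, 0, 6),
    ((3, 1, 5), 4, 3, 6), ((4, 5, 7), 0, 6, 1), ((5, 3, 4), 6, 4, 0), ((6, 2, 9), 1, 2, 7),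
    ((7, 4, 8), 1, 0, 5), ((8, 7, 9), 5, 1, 7), ((9, 6, 8), 7, 1, 5)]
  Tc := [(0, 2, 3)]
  Td := [((0, 2), (0, 3), 4), ((0, 2), (4, 5), 6), ((0, 2), (4, 7), 1), ((0, 3), (0, 3), 4), ((0,
    3), (4, 5), 6), ((0, 3), (4, 7), 1), ((2, 0), (2, 1), 3), ((2, 0), (2, 6), 1), ((3, 0),
    (1, 2), 2), ((3, 0), (1, 3), 4)]
  G := [[0, 0, 0xc594c594c958e1c594c958c594e1c2, 0x1184c595c1cc59441588c6ac95895c1cc958c594a6c2,
    0x95c1c958c95c1c95895c1e6295c195c195c1ec95895c16c8c], [0, 0,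
    0x92c42958c294e1c29425c8c294e1c2, 0, 0x3ac125c125c1ec2586a586cc25825c8cc2586ac1c258e6a4],
    [0, 0, 0xc594c95861c594c958c594e1c95881e2, 0xc5948c5942c9584bc9584c594241588c87c2,
    0xc958c95861c9588c9584c9582c9588fc95888b4], [0, 0x11a4116811a4e1116811c8a1116844d4,
    0x6a94c258b294e1c29472c825c8e1a4, 0, 0xa6c18c9584c2582d6a582295825c8c3b25888b4]]

noncomputable def n2928 : Ent := ⟨e2928, noF, [], [], []⟩

def c2928 : PLift (Cov.check n2928.C.D v2928 = true) := ⟨by decide +kernel⟩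

def b2928 : PLift (entF (fidx ts) 400 2928 n2928 = true) := ⟨by decide +kernel⟩

theorem g2928 : GoodF (fidx ts) 400 2928 := GoodF.ofV v2928 n2928 c2928.down b2928.down

/-- 4646854:2306 -/
noncomputable def e2929 : SCfg where
  D := {
    a := 7
    L := 11
    kp := 8
    inn := [(0, 1), (0, 3), (0, 4), (1, 0), (1, 2), (1, 4), (2, 1), (3, 0), (3, 4), (4, 0), (4, 1), (4,
      3), (4, 5), (5, 4), (5, 6), (6, 5)]
    mix := [(0, 0), (1, 0), (1, 1), (1, 2), (2, 0), (2, 1), (2, 3), (3, 0), (3, 4), (3, 5), (3, 6), (4,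
      2), (4, 4), (4, 7), (4, 8), (5, 7), (5, 8), (5, 9), (6, 7), (6, 9), (6, 10)]
    cl := [0, 3, 2, 5, 0, 6, 7, 1, 1, 4, 8]
    chq := [(0, 2), (0, 3), (2, 0), (3, 0)]
    rng := [(0, 3), (0, 6), (1, 2), (1, 3), (2, 1), (2, 7), (3, 0), (3, 1), (4, 5), (4, 8), (5, 4), (5,
      6), (6, 0), (6, 5), (7, 2), (7, 10), (8, 4), (8, 9), (9, 8), (9, 10), (10, 7), (10, 9)]
    lev := [] }
  links := [[1, 4, 3, 7], [4, 0, 7, 2, 8, 9], [8, 1, 7, 10], [7, 0, 4, 11, 12, 13], [11, 3, 0, 1, 9, 14,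
    5, 15], [15, 4, 14, 6, 16], [16, 5, 14, 17]]
  P := {
    a := 7
    N := 18
    nb := [154, 917, 1410, 14481, 51755, 114768, 213024, 9231, 1542, 16658, 388, 36888, 10248, 4232,
      131696, 67632, 163936, 81984]
    tri := [(0, 1, 4), (0, 1, 7), (0, 3, 4), (0, 3, 7), (1, 2, 7), (1, 2, 8), (1, 4, 9), (1, 8, 9), (2,
      7, 10), (2, 8, 10), (3, 4, 11), (3, 7, 13), (3, 11, 12), (3, 12, 13), (4, 5, 14), (4, 5,
      15), (4, 9, 14), (4, 11, 15), (5, 6, 14), (5, 6, 16), (5, 15, 16), (6, 14, 17), (6, 16, 17)]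
    fin := [0, 0, 0, 0, 0, 5, 5, 0, 8, 9, 10, 0, 12, 13, 5, 5, 16, 17]
    chd := [(0, 8), (0, 9)]
    steps := [(0, 1), (0, 2), (0, 3), (0, 4), (0, 7), (0, 11), (5, 6), (5, 14), (5, 15)] }
  rep := [0, 5, 9, 8, 16, 10, 12, 13, 17]

noncomputable def v2929 : Cov.CovD where
  P := 3
  N := 6
  pl := [3, 5, 6, 9, 10]
  lev := [⟨[], [], [], [], [(0, 0, [2, 3])]⟩,
    ⟨[], [(0, 0), (0, 2), (0, 3)], [(0, 2), (0, 3), (2, 3)], [], [(0, 0, [2, 3]), (1, 3,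
      [0]), (2, 2, [0])]⟩,
    ⟨[(0, 1)], [(0, 0), (1, 0), (1, 2), (1, 3)], [(0, 3)], [5], [(0, 0, [2, 3]), (1, 3,
      [0])]⟩,
    ⟨[(0, 1)], [(0, 0), (1, 0), (2, 0)], [(0, 0)], [6, 7], [(0, 0, [2, 3]), (4, 0, [2,
      3])]⟩,
    ⟨[(0, 1), (0, 3), (1, 2), (1, 3)], [(0, 0), (0, 1), (0, 2), (1, 0), (1, 1), (1, 2), (1,
      3), (3, 0), (3, 1), (3, 2)], [(0, 1), (0, 2), (1, 1), (1, 2)], [], [(2, 2, [0]), (4, 0,
      [2, 3]), (7, 1, []), (8, 1, [])]⟩,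
    ⟨[(0, 4), (1, 4), (3, 4)], [(4, 0), (4, 1), (4, 2)], [(1, 1)], [4], [(7, 1, []), (8, 1,
      [])]⟩,
    ⟨[(4, 5)], [(4, 1), (5, 1)], [], [4, 8], [(7, 1, [])]⟩]
  Ta := [((0, 3), 0, 5), ((0, 6), 0, 7), ((4, 5), 0, 6), ((4, 8), 0, 1), ((7, 2), 1, 2), ((7,
    10), 1, 8), ((8, 4), 1, 0), ((8, 9), 1, 4)]
  Tb := [((0, 3, 6), 0, 5, 7), ((1, 2, 3), 3, 2, 5), ((2, 1, 7), 2, 3, 1), ((3, 0, 1), 5, 0, 3),
    ((4, 5, 8), 0, 6, 1), ((5, 4, 6), 6, 0, 7), ((6, 0, 5), 7, 0, 6), ((7, 2, 10), 1, 2, 8),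
    ((8, 4, 9), 1, 0, 4), ((9, 8, 10), 4, 1, 8), ((10, 7, 9), 8, 1, 4)]
  Tc := [(0, 2, 3)]
  Td := [((0, 2), (0, 3), 5), ((0, 2), (0, 6), 7), ((0, 2), (4, 5), 6), ((0, 2), (4, 8), 1), ((0,
    3), (0, 3), 5), ((0, 3), (0, 6), 7), ((0, 3), (4, 5), 6), ((0, 3), (4, 8), 1), ((2, 0),
    (2, 1), 3), ((2, 0), (2, 7), 1), ((3, 0), (1, 2), 2), ((3, 0), (1, 3), 5)]
  G := [[0, 0, 0xc95841c958c958a1c594c958c958e1e4,
    0xc594c594c594e819445c594c958ea95c1c95895c1ec95895c1c958e6c2,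
    0x95c195c195c1e95c195c1c958ecc95895c195c1e95c1c95895c1e6a4], [0, 0,
    0x2594c258a358e129543694c258e168, 0,
    0x25c192c125c1e72c13ac1c258ec92c125986358e25c1e2c195c1e6a4], [0, 0,
    0xc594c958c594e1c958c95861c95881e2, 0xc594c594c594e8c958c958c958e4c958c95844819ce2d2,
    0xc958c95861c9588c958c9586c958c958c958eec9588c9588cb4], [0,
    0x11c411a41168e111a411c811c8e1c2, 0xc29429582e58e16a943694c258e168, 0,
    0xc258295861c258482d8c258ec25825982958e6c2588c2588cb4]]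

noncomputable def n2929 : Ent := ⟨e2929, noF, [], [], [(10, 17, [6903326391201334775872065844685381424292761054348340378595029941673985, 0]), (10, 16, [7334685537875745012586738086077695515070955365108989538292687705665537, 0]), (10, 13, [7334790875884699379652667093540608452385083566975740343373091415982081, 0])]⟩

def c2929 : PLift (Cov.check n2929.C.D v2929 = true) := ⟨by decide +kernel⟩

def b2929 : PLift (entF (fidx ts) 400 2929 n2929 = true) := ⟨by decide +kernel⟩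

theorem g2929 : GoodF (fidx ts) 400 2929 := GoodF.ofV v2929 n2929 c2929.down b2929.down

/-- 4646854:2307/1 -/
noncomputable def e2930 : SCfg where
  D := {
    a := 7
    L := 10
    kp := 7
    inn := [(0, 1), (0, 3), (0, 4), (1, 0), (1, 2), (1, 4), (2, 1), (3, 0), (3, 4), (4, 0), (4, 1), (4,
      3), (4, 5), (5, 4), (5, 6), (6, 5)]
    mix := [(0, 0), (1, 0), (1, 1), (1, 2), (2, 0), (2, 1), (2, 3), (3, 0), (3, 4), (3, 5), (3, 6), (4,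
      2), (4, 4), (4, 7), (4, 8), (5, 3), (5, 7), (5, 8), (6, 3), (6, 8), (6, 9)]
    cl := [0, 4, 2, 3, 0, 5, 6, 1, 1, 7]
    chq := [(0, 2), (0, 4), (2, 0), (4, 0)]
    rng := [(0, 3), (0, 6), (1, 2), (1, 3), (2, 1), (2, 7), (3, 0), (3, 1), (3, 7), (3, 9), (4, 5), (4,
      8), (5, 4), (5, 6), (6, 0), (6, 5), (7, 2), (7, 3), (8, 4), (8, 9), (9, 3), (9, 8)]
    lev := [] }
  links := [[1, 4, 3, 7], [4, 0, 7, 2, 8, 9], [8, 1, 7, 10], [7, 0, 4, 11, 12, 13], [11, 3, 0, 1, 9, 14,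
    5, 15], [15, 4, 14, 10, 6], [15, 5, 10, 16]]
  P := {
    a := 7
    N := 17
    nb := [154, 917, 1410, 14481, 51755, 50256, 99360, 9231, 1542, 16658, 82404, 36888, 10248, 4232,
      1584, 67696, 33856]
    tri := [(0, 1, 4), (0, 1, 7), (0, 3, 4), (0, 3, 7), (1, 2, 7), (1, 2, 8), (1, 4, 9), (1, 8, 9), (2,
      7, 10), (2, 8, 10), (3, 4, 11), (3, 7, 13), (3, 11, 12), (3, 12, 13), (4, 5, 14), (4, 5,
      15), (4, 9, 14), (4, 11, 15), (5, 6, 10), (5, 6, 15), (5, 10, 14), (6, 10, 16), (6, 15, 16)]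
    fin := [0, 0, 0, 0, 4, 5, 5, 0, 8, 9, 5, 0, 12, 13, 4, 4, 16]
    chd := [(0, 8), (0, 9)]
    steps := [(0, 1), (0, 2), (0, 3), (0, 7), (0, 11), (4, 14), (4, 15), (5, 6), (5, 10)] }
  rep := [0, 4, 9, 5, 8, 12, 13, 16]

noncomputable def v2930 : Cov.CovD where
  P := 3
  N := 5
  pl := [3, 5, 6, 9]
  lev := [⟨[], [], [], [], [(0, 0, [2, 4])]⟩,
    ⟨[], [(0, 0), (0, 2), (0, 4)], [(0, 2), (0, 4), (2, 4)], [], [(0, 0, [2, 4]), (1, 4,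
      [0]), (2, 2, [0])]⟩,
    ⟨[(0, 1)], [(0, 0), (1, 0), (1, 2), (1, 4)], [(0, 4)], [3], [(0, 0, [2, 4]), (1, 4,
      [0])]⟩,
    ⟨[(0, 1)], [(0, 0), (1, 0), (2, 0)], [(0, 0)], [5, 6], [(0, 0, [2, 4]), (4, 0, [2,
      4])]⟩,
    ⟨[(0, 1), (0, 3), (1, 2), (1, 3)], [(0, 0), (0, 1), (0, 2), (1, 0), (1, 1), (1, 2), (1,
      4), (3, 0), (3, 1), (3, 2)], [(0, 1), (0, 2), (1, 1), (1, 2)], [], [(2, 2, [0]), (4, 0,
      [2, 4]), (7, 1, []), (8, 1, [])]⟩,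
    ⟨[(0, 4), (1, 4), (3, 4)], [(4, 0), (4, 1), (4, 2)], [(1, 1)], [3], [(7, 1, []), (8, 1,
      [])]⟩,
    ⟨[(4, 5)], [(4, 1), (5, 1)], [], [3, 7], [(8, 1, [])]⟩]
  Ta := [((0, 3), 0, 3), ((0, 6), 0, 6), ((4, 5), 0, 5), ((4, 8), 0, 1), ((7, 2), 1, 2), ((7, 3),
    1, 3), ((8, 4), 1, 0), ((8, 9), 1, 7)]
  Tb := [((0, 3, 6), 0, 3, 6), ((1, 2, 3), 4, 2, 3), ((2, 1, 7), 2, 4, 1), ((3, 0, 1), 3, 0, 4),
    ((3, 0, 7), 3, 0, 1), ((3, 0, 9), 3, 0, 7), ((3, 1, 7), 3, 4, 1), ((3, 1, 9), 3, 4, 7),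
    ((3, 7, 9), 3, 1, 7), ((4, 5, 8), 0, 5, 1), ((5, 4, 6), 5, 0, 6), ((6, 0, 5), 6, 0, 5),
    ((7, 2, 3), 1, 2, 3), ((8, 4, 9), 1, 0, 7), ((9, 3, 8), 7, 3, 1)]
  Tc := [(0, 2, 4)]
  Td := [((0, 2), (0, 3), 3), ((0, 2), (0, 6), 6), ((0, 2), (4, 5), 5), ((0, 2), (4, 8), 1), ((0,
    4), (0, 3), 3), ((0, 4), (0, 6), 6), ((0, 4), (4, 5), 5), ((0, 4), (4, 8), 1), ((2, 0),
    (2, 1), 4), ((2, 0), (2, 7), 1), ((4, 0), (1, 2), 2), ((4, 0), (1, 3), 3)]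
  G := [[0, 0, 0xd14b18e18e1b18d18b18e1c2, 0x225422c12254e2225822c82294e2c2,
    0xe81e81981e241241241ecc41c41941e21821822c8e6a4], [0, 0, 0xd14d188594e1d14d18d18e2a4, 0,
    0x981d81981e541518541ecc95854989c958e2a4], [0, 0, 0x214218218e1b14d14d14e168,
    0x214214218e2218214214e292, 0x218218622d1871861948c48588e2188691882188cbc], [0,
    0xc6a4ca68ca68e1c6a4ca68c6a4e1c2, 0xd14d18d18e1d184958d18e1c2, 0,
    0xd18d1861d18d18d18e291885188cb4]]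

noncomputable def n2930 : Ent := ⟨e2930, noF, [], [], []⟩

def c2930 : PLift (Cov.check n2930.C.D v2930 = true) := ⟨by decide +kernel⟩

def b2930 : PLift (entF (fidx ts) 400 2930 n2930 = true) := ⟨by decide +kernel⟩

theorem g2930 : GoodF (fidx ts) 400 2930 := GoodF.ofV v2930 n2930 c2930.down b2930.down

/-- 4646854:2307/2 -/
noncomputable def e2931 : SCfg where
  D := {
    a := 7
    L := 10
    kp := 7
    inn := [(0, 1), (0, 3), (0, 4), (1, 0), (1, 2), (1, 4), (2, 1), (3, 0), (3, 4), (4, 0), (4, 1), (4,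
      3), (4, 5), (5, 4), (5, 6), (6, 5)]
    mix := [(0, 0), (1, 0), (1, 1), (1, 2), (2, 0), (2, 1), (2, 3), (3, 0), (3, 4), (3, 5), (3, 6), (4,
      2), (4, 4), (4, 7), (4, 8), (5, 7), (5, 8), (5, 9), (6, 3), (6, 8), (6, 9)]
    cl := [0, 3, 2, 4, 0, 6, 7, 1, 1, 5]
    chq := [(0, 2), (0, 3), (2, 0), (3, 0)]
    rng := [(0, 3), (0, 6), (1, 2), (1, 3), (2, 1), (2, 7), (3, 0), (3, 1), (3, 8), (3, 9), (4, 5), (4,
      8), (5, 4), (5, 6), (6, 0), (6, 5), (7, 2), (7, 9), (8, 3), (8, 4), (9, 3), (9, 7)]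
    lev := [] }
  links := [[1, 4, 3, 7], [4, 0, 7, 2, 8, 9], [8, 1, 7, 10], [7, 0, 4, 11, 12, 13], [11, 3, 0, 1, 9, 14,
    5, 15], [15, 4, 14, 16, 6], [15, 5, 16, 10]]
  P := {
    a := 7
    N := 17
    nb := [154, 917, 1410, 14481, 51755, 114768, 99360, 9231, 1542, 16658, 98756, 36888, 10248, 4232,
      66096, 3184, 17504]
    tri := [(0, 1, 4), (0, 1, 7), (0, 3, 4), (0, 3, 7), (1, 2, 7), (1, 2, 8), (1, 4, 9), (1, 8, 9), (2,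
      7, 10), (2, 8, 10), (3, 4, 11), (3, 7, 13), (3, 11, 12), (3, 12, 13), (4, 5, 14), (4, 5,
      15), (4, 9, 14), (4, 11, 15), (5, 6, 15), (5, 6, 16), (5, 14, 16), (6, 10, 15), (6, 10, 16)]
    fin := [0, 0, 0, 0, 4, 5, 5, 0, 8, 9, 5, 0, 12, 13, 4, 4, 16]
    chd := [(0, 8), (0, 9)]
    steps := [(0, 1), (0, 2), (0, 3), (0, 7), (0, 11), (4, 14), (4, 15), (5, 6), (5, 10)] }
  rep := [0, 4, 9, 8, 5, 16, 12, 13]

noncomputable def v2931 : Cov.CovD where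
  P := 3
  N := 5
  pl := [3, 5, 6, 9]
  lev := [⟨[], [], [], [], [(0, 0, [2, 3])]⟩,
    ⟨[], [(0, 0), (0, 2), (0, 3)], [(0, 2), (0, 3), (2, 3)], [], [(0, 0, [2, 3]), (1, 3,
      [0]), (2, 2, [0])]⟩,
    ⟨[(0, 1)], [(0, 0), (1, 0), (1, 2), (1, 3)], [(0, 3)], [4], [(0, 0, [2, 3]), (1, 3,
      [0])]⟩,
    ⟨[(0, 1)], [(0, 0), (1, 0), (2, 0)], [(0, 0)], [6, 7], [(0, 0, [2, 3]), (4, 0, [2,
      3])]⟩,
    ⟨[(0, 1), (0, 3), (1, 2), (1, 3)], [(0, 0), (0, 1), (0, 2), (1, 0), (1, 1), (1, 2), (1,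
      3), (3, 0), (3, 1), (3, 2)], [(0, 1), (0, 2), (1, 1), (1, 2)], [], [(2, 2, [0]), (4, 0,
      [2, 3]), (7, 1, []), (8, 1, [])]⟩,
    ⟨[(0, 4), (1, 4), (3, 4)], [(4, 0), (4, 1), (4, 2)], [(1, 1)], [5], [(7, 1, []), (8, 1,
      [])]⟩,
    ⟨[(4, 5)], [(4, 1), (5, 1)], [], [4, 5], [(8, 1, [])]⟩]
  Ta := [((0, 3), 0, 4), ((0, 6), 0, 7), ((4, 5), 0, 6), ((4, 8), 0, 1), ((7, 2), 1, 2), ((7, 9),
    1, 5), ((8, 3), 1, 4), ((8, 4), 1, 0)]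
  Tb := [((0, 3, 6), 0, 4, 7), ((1, 2, 3), 3, 2, 4), ((2, 1, 7), 2, 3, 1), ((3, 0, 1), 4, 0, 3),
    ((3, 0, 8), 4, 0, 1), ((3, 0, 9), 4, 0, 5), ((3, 1, 8), 4, 3, 1), ((3, 1, 9), 4, 3, 5),
    ((3, 8, 9), 4, 1, 5), ((4, 5, 8), 0, 6, 1), ((5, 4, 6), 6, 0, 7), ((6, 0, 5), 7, 0, 6),
    ((7, 2, 9), 1, 2, 5), ((8, 3, 4), 1, 4, 0), ((9, 3, 7), 5, 4, 1)]
  Tc := [(0, 2, 3)]
  Td := [((0, 2), (0, 3), 4), ((0, 2), (0, 6), 7), ((0, 2), (4, 5), 6), ((0, 2), (4, 8), 1), ((0,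
    3), (0, 3), 4), ((0, 3), (0, 6), 7), ((0, 3), (4, 5), 6), ((0, 3), (4, 8), 1), ((2, 0),
    (2, 1), 3), ((2, 0), (2, 7), 1), ((3, 0), (1, 2), 2), ((3, 0), (1, 3), 4)]
  G := [[0, 0, 0x219421582158e1329421582198e1a4, 0x22c122c12254e2229422c12294e2c2,
    0x82c182c182c1e24c1425824c1ec295825c12598e2a4], [0, 0, 0xc194c158c194e1c194c158c158e168,
    0, 0x14c114c14858e95c1c958c158e6281c181c181c1e14c141584158ec8c], [0, 0,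
    0x219421582194e1215821982194e1a4, 0x22c122582194e222c421582154e258,
    0x21582158612158219821c8e22158842588cb4], [0, 0xc6a4ca68c6a4e14c6a4ca68ca68e18c,
    0xc194c158c194e1c194c158c194e1a4, 0,
    0xc158c1586181c18c158898158841588cb415814c84158e815881586625]]

noncomputable def n2931 : Ent := ⟨e2931, noF, [], [], []⟩

def c2931 : PLift (Cov.check n2931.C.D v2931 = true) := ⟨by decide +kernel⟩

def b2931 : PLift (entF (fidx ts) 400 2931 n2931 = true) := ⟨by decide +kernel⟩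

theorem g2931 : GoodF (fidx ts) 400 2931 := GoodF.ofV v2931 n2931 c2931.down b2931.down

/-- 4646854:2307/3 -/
noncomputable def e2932 : SCfg where
  D := {
    a := 7
    L := 10
    kp := 7
    inn := [(0, 1), (0, 3), (0, 4), (1, 0), (1, 2), (1, 4), (2, 1), (3, 0), (3, 4), (4, 0), (4, 1), (4,
      3), (4, 5), (5, 4), (5, 6), (6, 5)]
    mix := [(0, 0), (1, 0), (1, 1), (1, 2), (2, 0), (2, 1), (2, 3), (3, 0), (3, 3), (3, 4), (3, 5), (4,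
      2), (4, 4), (4, 6), (4, 7), (5, 6), (5, 7), (5, 8), (6, 7), (6, 8), (6, 9)]
    cl := [0, 3, 2, 4, 0, 6, 1, 1, 5, 7]
    chq := [(0, 2), (0, 3), (2, 0), (3, 0)]
    rng := [(0, 3), (1, 2), (1, 3), (2, 1), (2, 6), (3, 0), (3, 1), (3, 5), (4, 5), (4, 7), (5, 3), (5,
      4), (6, 2), (6, 8), (7, 4), (7, 9), (8, 6), (8, 9), (9, 7), (9, 8)]
    lev := [] }
  links := [[1, 4, 3, 7], [4, 0, 7, 2, 8, 9], [8, 1, 7, 10], [7, 0, 4, 11, 12, 10], [11, 3, 0, 1, 9, 13,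
    5, 14], [14, 4, 13, 15, 6], [14, 5, 15, 16]]
  P := {
    a := 7
    N := 17
    nb := [154, 917, 1410, 7313, 27179, 57424, 114720, 1039, 1542, 8466, 4492, 20504, 3080, 33328,
      67696, 73824, 49216]
    tri := [(0, 1, 4), (0, 1, 7), (0, 3, 4), (0, 3, 7), (1, 2, 7), (1, 2, 8), (1, 4, 9), (1, 8, 9), (2,
      7, 10), (2, 8, 10), (3, 4, 11), (3, 7, 10), (3, 10, 12), (3, 11, 12), (4, 5, 13), (4, 5,
      14), (4, 9, 13), (4, 11, 14), (5, 6, 14), (5, 6, 15), (5, 13, 15), (6, 14, 16), (6, 15, 16)]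
    fin := [0, 0, 0, 0, 0, 5, 5, 0, 8, 9, 10, 0, 12, 5, 5, 15, 16]
    chd := [(0, 8), (0, 9)]
    steps := [(0, 1), (0, 2), (0, 4), (0, 7), (0, 3), (0, 11), (5, 6), (5, 13), (5, 14)] }
  rep := [0, 5, 9, 8, 10, 15, 12, 16]

noncomputable def v2932 : Cov.CovD where
  P := 3
  N := 5
  pl := [3, 5, 8, 9]
  lev := [⟨[], [], [], [], [(0, 0, [2, 3])]⟩,
    ⟨[], [(0, 0), (0, 2), (0, 3)], [(0, 2), (0, 3), (2, 3)], [], [(0, 0, [2, 3]), (1, 3,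
      [0]), (2, 2, [0])]⟩,
    ⟨[(0, 1)], [(0, 0), (1, 0), (1, 2), (1, 3)], [(0, 3)], [4], [(0, 0, [2, 3]), (1, 3,
      [0])]⟩,
    ⟨[(0, 1)], [(0, 0), (1, 0), (2, 0)], [(0, 0)], [4, 6], [(0, 0, [2, 3]), (4, 0, [2,
      3])]⟩,
    ⟨[(0, 1), (0, 3), (1, 2), (1, 3)], [(0, 0), (0, 1), (0, 2), (1, 0), (1, 1), (1, 2), (1,
      3), (3, 0), (3, 1), (3, 2)], [(0, 1), (0, 2), (1, 1), (1, 2)], [], [(2, 2, [0]), (4, 0,
      [2, 3]), (6, 1, []), (7, 1, [])]⟩,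
    ⟨[(0, 4), (1, 4), (3, 4)], [(4, 0), (4, 1), (4, 2)], [(1, 1)], [5], [(6, 1, []), (7, 1,
      [])]⟩,
    ⟨[(4, 5)], [(4, 1), (5, 1)], [], [5, 7], [(7, 1, [])]⟩]
  Ta := [((0, 3), 0, 4), ((4, 5), 0, 6), ((4, 7), 0, 1), ((6, 2), 1, 2), ((6, 8), 1, 5), ((7, 4),
    1, 0), ((7, 9), 1, 7)]
  Tb := [((1, 2, 3), 3, 2, 4), ((2, 1, 6), 2, 3, 1), ((3, 0, 1), 4, 0, 3), ((3, 0, 5), 4, 0, 6),
    ((3, 1, 5), 4, 3, 6), ((4, 5, 7), 0, 6, 1), ((5, 3, 4), 6, 4, 0), ((6, 2, 8), 1, 2, 5),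
    ((7, 4, 9), 1, 0, 7), ((8, 6, 9), 5, 1, 7), ((9, 7, 8), 7, 1, 5)]
  Tc := [(0, 2, 3)]
  Td := [((0, 2), (0, 3), 4), ((0, 2), (4, 5), 6), ((0, 2), (4, 7), 1), ((0, 3), (0, 3), 4), ((0,
    3), (4, 5), 6), ((0, 3), (4, 7), 1), ((2, 0), (2, 1), 3), ((2, 0), (2, 6), 1), ((3, 0),
    (1, 2), 2), ((3, 0), (1, 3), 4)]
  G := [[0, 0, 0x25942594c294e1a39425c83ac8e1c2, 0x225422c1c229422c46a22c122c1c22c12258a6c2,
    0x25c195c1a6c1e25c125c16cc25825c1c25c17298c258e6a4], [0, 0,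
    0xc594c958c958e1c958c958c594e1a4, 0,
    0x95c195c1c95c1c958c958e6295c195c195c1ec95895c16c8a], [0, 0,
    0xc294a3c461c5948192c4a3942958e1e8, 0x225482258222944b2298422948522c422d2,
    0x29584c25825c25886358c258a729847c25888b4], [0, 0xc6a4ca68c6a4e1ca68ca68a1ca6844d4,
    0xc594c594c594e1c958c958c594e1c2, 0, 0xc958c95861c958889c958c958cc958c958a623]]

noncomputable def n2932 : Ent := ⟨e2932, noF, [], [], []⟩

def c2932 : PLift (Cov.check n2932.C.D v2932 = true) := ⟨by decide +kernel⟩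

def b2932 : PLift (entF (fidx ts) 400 2932 n2932 = true) := ⟨by decide +kernel⟩

theorem g2932 : GoodF (fidx ts) 400 2932 := GoodF.ofV v2932 n2932 c2932.down b2932.down

/-- 4646854:2307 -/
noncomputable def e2933 : SCfg where
  D := {
    a := 7
    L := 11
    kp := 8
    inn := [(0, 1), (0, 3), (0, 4), (1, 0), (1, 2), (1, 4), (2, 1), (3, 0), (3, 4), (4, 0), (4, 1), (4,
      3), (4, 5), (5, 4), (5, 6), (6, 5)]
    mix := [(0, 0), (1, 0), (1, 1), (1, 2), (2, 0), (2, 1), (2, 3), (3, 0), (3, 4), (3, 5), (3, 6), (4,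
      2), (4, 4), (4, 7), (4, 8), (5, 7), (5, 8), (5, 9), (6, 8), (6, 9), (6, 10)]
    cl := [0, 3, 2, 5, 0, 6, 7, 1, 1, 4, 8]
    chq := [(0, 2), (0, 3), (2, 0), (3, 0)]
    rng := [(0, 3), (0, 6), (1, 2), (1, 3), (2, 1), (2, 7), (3, 0), (3, 1), (4, 5), (4, 8), (5, 4), (5,
      6), (6, 0), (6, 5), (7, 2), (7, 9), (8, 4), (8, 10), (9, 7), (9, 10), (10, 8), (10, 9)]
    lev := [] }
  links := [[1, 4, 3, 7], [4, 0, 7, 2, 8, 9], [8, 1, 7, 10], [7, 0, 4, 11, 12, 13], [11, 3, 0, 1, 9, 14,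
    5, 15], [15, 4, 14, 16, 6], [15, 5, 16, 17]]
  P := {
    a := 7
    N := 18
    nb := [154, 917, 1410, 14481, 51755, 114768, 229408, 9231, 1542, 16658, 388, 36888, 10248, 4232,
      66096, 133232, 147552, 98368]
    tri := [(0, 1, 4), (0, 1, 7), (0, 3, 4), (0, 3, 7), (1, 2, 7), (1, 2, 8), (1, 4, 9), (1, 8, 9), (2,
      7, 10), (2, 8, 10), (3, 4, 11), (3, 7, 13), (3, 11, 12), (3, 12, 13), (4, 5, 14), (4, 5,
      15), (4, 9, 14), (4, 11, 15), (5, 6, 15), (5, 6, 16), (5, 14, 16), (6, 15, 17), (6, 16, 17)]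
    fin := [0, 0, 0, 0, 0, 5, 5, 0, 8, 9, 10, 0, 12, 13, 5, 5, 16, 17]
    chd := [(0, 8), (0, 9)]
    steps := [(0, 1), (0, 2), (0, 3), (0, 4), (0, 7), (0, 11), (5, 6), (5, 14), (5, 15)] }
  rep := [0, 5, 9, 8, 16, 10, 12, 13, 17]

noncomputable def v2933 : Cov.CovD where
  P := 3
  N := 6
  pl := [3, 5, 6, 9, 10]
  lev := [⟨[], [], [], [], [(0, 0, [2, 3])]⟩,
    ⟨[], [(0, 0), (0, 2), (0, 3)], [(0, 2), (0, 3), (2, 3)], [], [(0, 0, [2, 3]), (1, 3,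
      [0]), (2, 2, [0])]⟩,
    ⟨[(0, 1)], [(0, 0), (1, 0), (1, 2), (1, 3)], [(0, 3)], [5], [(0, 0, [2, 3]), (1, 3,
      [0])]⟩,
    ⟨[(0, 1)], [(0, 0), (1, 0), (2, 0)], [(0, 0)], [6, 7], [(0, 0, [2, 3]), (4, 0, [2,
      3])]⟩,
    ⟨[(0, 1), (0, 3), (1, 2), (1, 3)], [(0, 0), (0, 1), (0, 2), (1, 0), (1, 1), (1, 2), (1,
      3), (3, 0), (3, 1), (3, 2)], [(0, 1), (0, 2), (1, 1), (1, 2)], [], [(2, 2, [0]), (4, 0,
      [2, 3]), (7, 1, []), (8, 1, [])]⟩,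
    ⟨[(0, 4), (1, 4), (3, 4)], [(4, 0), (4, 1), (4, 2)], [(1, 1)], [4], [(7, 1, []), (8, 1,
      [])]⟩,
    ⟨[(4, 5)], [(4, 1), (5, 1)], [], [4, 8], [(8, 1, [])]⟩]
  Ta := [((0, 3), 0, 5), ((0, 6), 0, 7), ((4, 5), 0, 6), ((4, 8), 0, 1), ((7, 2), 1, 2), ((7, 9),
    1, 4), ((8, 4), 1, 0), ((8, 10), 1, 8)]
  Tb := [((0, 3, 6), 0, 5, 7), ((1, 2, 3), 3, 2, 5), ((2, 1, 7), 2, 3, 1), ((3, 0, 1), 5, 0, 3),
    ((4, 5, 8), 0, 6, 1), ((5, 4, 6), 6, 0, 7), ((6, 0, 5), 7, 0, 6), ((7, 2, 9), 1, 2, 4),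
    ((8, 4, 10), 1, 0, 8), ((9, 7, 10), 4, 1, 8), ((10, 8, 9), 8, 1, 4)]
  Tc := [(0, 2, 3)]
  Td := [((0, 2), (0, 3), 5), ((0, 2), (0, 6), 7), ((0, 2), (4, 5), 6), ((0, 2), (4, 8), 1), ((0,
    3), (0, 3), 5), ((0, 3), (0, 6), 7), ((0, 3), (4, 5), 6), ((0, 3), (4, 8), 1), ((2, 0),
    (2, 1), 3), ((2, 0), (2, 7), 1), ((3, 0), (1, 2), 2), ((3, 0), (1, 3), 5)]
  G := [[0, 0, 0x3a54c2942594e1a394c258128d8e1c2,
    0x22c1229422c1e229422c122c1ea22c1225822c1e22c122982294e6c2,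
    0x63c192c125c1ea3c1c25825c1ec95c1259825c1e295836c1a3c1e6a4], [0, 0,
    0xc594c59461c594c958c958e1c59481e8, 0,
    0x95c195c195c1e95c1c95854989ec95c195c195c1ec958c95895c1e6a4], [0, 0,
    0x29542594c294e12594259825c8e1c2, 0x22c4229422c4e82258229822c8e4225822982254e2d2,
    0x2958295861c258842958829588cb25c8295866358c2582598e623], [0,
    0xc6a4c6a4c6a4e1c6a4ca68c6a4e1c2, 0xc5945498cc958e1c491cc958c594e1c2, 0,
    0xc958c95861c958c958c958ec958c958c958e6c9588c9588cb4]]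

noncomputable def n2933 : Ent := ⟨e2933, noF, [], [], [(10, 16, [7334685537875745012586738086077695515070955365108989538292687705677825, 0]), (10, 17, [6903326391201334775872065844685381424292761054348340378595029941694465, 0]), (10, 13, [7334790875884699379652667093540608452385083566975740343373091415998465, 0])]⟩

def c2933 : PLift (Cov.check n2933.C.D v2933 = true) := ⟨by decide +kernel⟩

def b2933 : PLift (entF (fidx ts) 400 2933 n2933 = true) := ⟨by decide +kernel⟩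

theorem g2933 : GoodF (fidx ts) 400 2933 := GoodF.ofV v2933 n2933 c2933.down b2933.down

/-- 4648474:2310/1 -/
noncomputable def e2934 : SCfg where
  D := {
    a := 7
    L := 10
    kp := 8
    inn := [(0, 1), (1, 0), (1, 2), (1, 3), (2, 1), (2, 3), (3, 1), (3, 2), (3, 4), (3, 5), (3, 6), (4,
      3), (4, 5), (5, 3), (5, 4), (6, 3)]
    mix := [(0, 0), (0, 1), (0, 2), (1, 0), (1, 2), (1, 3), (2, 2), (2, 4), (3, 3), (3, 4), (3, 5), (4,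
      5), (4, 6), (5, 3), (5, 6), (5, 7), (5, 8), (5, 9), (6, 1), (6, 4), (6, 5)]
    cl := [2, 5, 0, 0, 1, 3, 4, 6, 7, 8]
    chq := [(1, 3), (1, 4), (1, 6), (1, 7), (1, 8), (3, 1), (4, 1), (6, 1), (7, 1), (8, 1)]
    rng := [(0, 1), (0, 3), (1, 0), (1, 2), (1, 4), (1, 5), (2, 1), (2, 4), (3, 0), (3, 9), (4, 1), (4,
      2), (5, 1), (5, 6), (6, 5), (6, 7), (7, 6), (7, 8), (8, 7), (8, 9), (9, 3), (9, 8)]
    lev := [] }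
  links := [[1, 7, 8, 9], [7, 0, 9, 2, 3, 10], [3, 1, 9, 11], [10, 1, 2, 11, 6, 12, 4, 5], [5, 3, 12,
    13], [10, 3, 4, 13, 14, 15, 16], [12, 3, 11, 8]]
  P := {
    a := 7
    N := 17
    nb := [898, 1677, 2570, 7286, 12328, 123928, 6408, 1283, 6849, 2311, 65706, 844, 8536, 20528,
      40992, 81952, 33824]
    tri := [(0, 1, 7), (0, 1, 9), (0, 7, 8), (0, 8, 9), (1, 2, 3), (1, 2, 9), (1, 3, 10), (1, 7, 10),
      (2, 3, 11), (2, 9, 11), (3, 4, 5), (3, 4, 12), (3, 5, 10), (3, 6, 11), (3, 6, 12), (4, 5,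
      13), (4, 12, 13), (5, 10, 16), (5, 13, 14), (5, 14, 15), (5, 15, 16), (6, 8, 11), (6, 8,
      12)]
    fin := [0, 1, 1, 3, 3, 3, 6, 0, 6, 1, 1, 3, 12, 13, 14, 15, 16]
    chd := [(3, 12), (3, 13), (3, 14), (3, 15), (3, 16)]
    steps := [(0, 7), (1, 2), (1, 9), (1, 10), (3, 4), (3, 5), (3, 11), (6, 8)] }
  rep := [1, 3, 0, 12, 13, 6, 14, 15, 16]

noncomputable def v2934 : Cov.CovD where
  P := 3
  N := 6
  pl := [0, 1]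
  lev := [⟨[], [], [], [2, 5], [(2, 0, [])]⟩,
    ⟨[], [(0, 0)], [(0, 0)], [2], [(2, 0, []), (3, 0, [])]⟩,
    ⟨[(0, 1)], [(0, 0), (1, 0), (1, 1)], [(0, 1)], [], [(2, 0, []), (4, 1, [3, 4, 6, 7,
      8])]⟩,
    ⟨[(0, 1), (1, 2)], [(1, 0), (1, 1), (1, 3), (2, 0), (2, 1), (2, 3)], [(0, 1), (0, 3),
      (1, 3)], [], [(3, 0, []), (4, 1, [3, 4, 6, 7, 8]), (5, 3, [1])]⟩,
    ⟨[(1, 3), (2, 3)], [(3, 0), (3, 1), (3, 3), (3, 4)], [(3, 4)], [], [(5, 3, [1]), (6, 4,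
      [1])]⟩,
    ⟨[(1, 3), (2, 3), (3, 4)], [(1, 0), (3, 0), (3, 1), (3, 3), (3, 4), (3, 6), (3, 7), (3,
      8), (4, 0), (4, 3), (4, 4), (4, 6), (4, 7), (4, 8)], [(0, 4), (0, 6), (0, 7), (0, 8),
      (4, 6), (4, 7), (4, 8), (6, 7), (6, 8), (7, 8)], [], [(3, 0, []), (6, 4, [1]), (7, 6,
      [1]), (8, 7, [1]), (9, 8, [1])]⟩,
    ⟨[(1, 3), (2, 3), (3, 4), (3, 5)], [(2, 1), (3, 0), (3, 1), (3, 3), (4, 3)], [(1, 3)],
      [5], [(4, 1, [3, 4, 6, 7, 8]), (5, 3, [1])]⟩]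
  Ta := [((2, 1), 0, 5), ((2, 4), 0, 1), ((3, 0), 0, 2), ((3, 9), 0, 8)]
  Tb := [((0, 1, 3), 2, 5, 0), ((1, 0, 2), 5, 2, 0), ((1, 0, 4), 5, 2, 1), ((1, 0, 5), 5, 2, 3),
    ((1, 2, 4), 5, 0, 1), ((1, 2, 5), 5, 0, 3), ((1, 4, 5), 5, 1, 3), ((2, 1, 4), 0, 5, 1),
    ((3, 0, 9), 0, 2, 8), ((4, 1, 2), 1, 5, 0), ((5, 1, 6), 3, 5, 4), ((6, 5, 7), 4, 3, 6),
    ((7, 6, 8), 6, 4, 7), ((8, 7, 9), 7, 6, 8), ((9, 3, 8), 8, 0, 7)]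
  Tc := [(1, 3, 4), (1, 3, 6), (1, 3, 7), (1, 3, 8), (1, 4, 6), (1, 4, 7), (1, 4, 8), (1, 6, 7),
    (1, 6, 8), (1, 7, 8)]
  Td := [((1, 3), (4, 1), 5), ((1, 3), (4, 2), 0), ((1, 4), (4, 1), 5), ((1, 4), (4, 2), 0), ((1,
    6), (4, 1), 5), ((1, 6), (4, 2), 0), ((1, 7), (4, 1), 5), ((1, 7), (4, 2), 0), ((1, 8),
    (4, 1), 5), ((1, 8), (4, 2), 0), ((3, 1), (5, 1), 5), ((3, 1), (5, 6), 4), ((4, 1), (6,
    5), 3), ((4, 1), (6, 7), 6), ((6, 1), (7, 6), 4), ((6, 1), (7, 8), 7), ((7, 1), (8, 7),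
    6), ((7, 1), (8, 9), 8), ((8, 1), (9, 3), 0), ((8, 1), (9, 8), 7)]
  G := [[0, 0x2142818168121a818ea4414162614121e8a4c, 0,
    0x821212b8262c548282584c423242d4522232289c8c, 0x42248228c232423274729298c2a], [0, 0,
    0x12129422c12228212b32125c126, 0x321254832c212b84c1, 0x1213242127c3282a8c21]]

noncomputable def n2934 : Ent := ⟨e2934, noF, [], [], []⟩

def c2934 : PLift (Cov.check n2934.C.D v2934 = true) := ⟨by decide +kernel⟩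

def b2934 : PLift (entF (fidx ts) 400 2934 n2934 = true) := ⟨by decide +kernel⟩

theorem g2934 : GoodF (fidx ts) 400 2934 := GoodF.ofV v2934 n2934 c2934.down b2934.down

/-- 4648474:2310 -/
noncomputable def e2935 : SCfg where
  D := {
    a := 7
    L := 11
    kp := 9
    inn := [(0, 1), (1, 0), (1, 2), (1, 3), (2, 1), (2, 3), (3, 1), (3, 2), (3, 4), (3, 5), (3, 6), (4,
      3), (4, 5), (5, 3), (5, 4), (6, 3)]
    mix := [(0, 0), (0, 1), (0, 2), (1, 0), (1, 2), (1, 3), (2, 2), (2, 4), (3, 3), (3, 4), (3, 5), (4,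
      5), (4, 6), (5, 3), (5, 6), (5, 7), (5, 8), (5, 9), (6, 4), (6, 5), (6, 10)]
    cl := [2, 8, 0, 0, 1, 3, 4, 5, 6, 7, 9]
    chq := [(1, 3), (1, 4), (1, 5), (1, 6), (1, 7), (3, 1), (4, 1), (5, 1), (6, 1), (7, 1)]
    rng := [(0, 1), (0, 3), (1, 0), (1, 2), (2, 1), (2, 4), (3, 0), (3, 9), (4, 2), (4, 10), (5, 6),
      (5, 10), (6, 5), (6, 7), (7, 6), (7, 8), (8, 7), (8, 9), (9, 3), (9, 8), (10, 4), (10, 5)]
    lev := [] }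
  links := [[1, 7, 8, 9], [7, 0, 9, 2, 3, 10], [3, 1, 9, 11], [10, 1, 2, 11, 6, 12, 4, 5], [5, 3, 12,
    13], [10, 3, 4, 13, 14, 15, 16], [12, 3, 11, 17]]
  P := {
    a := 7
    N := 18
    nb := [898, 1677, 2570, 7286, 12328, 123928, 137224, 1283, 641, 2311, 65706, 131660, 139352,
      20528, 40992, 81952, 33824, 6208]
    tri := [(0, 1, 7), (0, 1, 9), (0, 7, 8), (0, 8, 9), (1, 2, 3), (1, 2, 9), (1, 3, 10), (1, 7, 10),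
      (2, 3, 11), (2, 9, 11), (3, 4, 5), (3, 4, 12), (3, 5, 10), (3, 6, 11), (3, 6, 12), (4, 5,
      13), (4, 12, 13), (5, 10, 16), (5, 13, 14), (5, 14, 15), (5, 15, 16), (6, 11, 17), (6, 12,
      17)]
    fin := [0, 1, 1, 3, 3, 3, 3, 0, 8, 1, 1, 3, 12, 13, 14, 15, 16, 17]
    chd := [(3, 12), (3, 13), (3, 14), (3, 15), (3, 16)]
    steps := [(0, 7), (1, 2), (1, 9), (1, 10), (3, 4), (3, 5), (3, 6), (3, 11)] }
  rep := [1, 3, 0, 12, 13, 14, 15, 16, 8, 17]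

noncomputable def v2935 : Cov.CovD where
  P := 3
  N := 7
  pl := [0, 1, 10]
  lev := [⟨[], [], [], [2, 8], [(2, 0, [])]⟩,
    ⟨[], [(0, 0)], [(0, 0)], [2], [(2, 0, []), (3, 0, [])]⟩,
    ⟨[(0, 1)], [(0, 0), (1, 0), (1, 1)], [(0, 1)], [], [(2, 0, []), (4, 1, [3, 4, 5, 6,
      7])]⟩,
    ⟨[(0, 1), (1, 2)], [(1, 0), (1, 1), (1, 3), (2, 0), (2, 1), (2, 3)], [(0, 1), (0, 3),
      (1, 3)], [], [(3, 0, []), (4, 1, [3, 4, 5, 6, 7]), (5, 3, [1])]⟩,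
    ⟨[(1, 3), (2, 3)], [(3, 0), (3, 1), (3, 3), (3, 4)], [(3, 4)], [], [(5, 3, [1]), (6, 4,
      [1])]⟩,
    ⟨[(1, 3), (2, 3), (3, 4)], [(1, 0), (3, 0), (3, 1), (3, 3), (3, 4), (3, 5), (3, 6), (3,
      7), (4, 0), (4, 3), (4, 4), (4, 5), (4, 6), (4, 7)], [(0, 4), (0, 5), (0, 6), (0, 7),
      (4, 5), (4, 6), (4, 7), (5, 6), (5, 7), (6, 7)], [], [(3, 0, []), (6, 4, [1]), (7, 5,
      [1]), (8, 6, [1]), (9, 7, [1])]⟩,
    ⟨[(1, 3), (2, 3), (3, 4), (3, 5)], [(2, 1), (3, 0), (3, 1), (3, 3), (4, 3)], [(1, 3)],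
      [9], [(4, 1, [3, 4, 5, 6, 7]), (5, 3, [1])]⟩]
  Ta := [((2, 1), 0, 8), ((2, 4), 0, 1), ((3, 0), 0, 2), ((3, 9), 0, 7)]
  Tb := [((0, 1, 3), 2, 8, 0), ((1, 0, 2), 8, 2, 0), ((2, 1, 4), 0, 8, 1), ((3, 0, 9), 0, 2, 7),
    ((4, 2, 10), 1, 0, 9), ((5, 6, 10), 3, 4, 9), ((6, 5, 7), 4, 3, 5), ((7, 6, 8), 5, 4, 6),
    ((8, 7, 9), 6, 5, 7), ((9, 3, 8), 7, 0, 6), ((10, 4, 5), 9, 1, 3)]
  Tc := [(1, 3, 4), (1, 3, 5), (1, 3, 6), (1, 3, 7), (1, 4, 5), (1, 4, 6), (1, 4, 7), (1, 5, 6),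
    (1, 5, 7), (1, 6, 7)]
  Td := [((1, 3), (4, 2), 0), ((1, 3), (4, 10), 9), ((1, 4), (4, 2), 0), ((1, 4), (4, 10), 9),
    ((1, 5), (4, 2), 0), ((1, 5), (4, 10), 9), ((1, 6), (4, 2), 0), ((1, 6), (4, 10), 9),
    ((1, 7), (4, 2), 0), ((1, 7), (4, 10), 9), ((3, 1), (5, 6), 4), ((3, 1), (5, 10), 9),
    ((4, 1), (6, 5), 3), ((4, 1), (6, 7), 5), ((5, 1), (7, 6), 4), ((5, 1), (7, 8), 6), ((6,
    1), (8, 7), 5), ((6, 1), (8, 9), 7), ((7, 1), (9, 3), 0), ((7, 1), (9, 8), 6)]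
  G := [[0, 0x2128121ac61c1c8161c1eac4c18121e4241216a161c1ea8cc, 0,
    0x9222322c265726292d8c42232c252fa282a5122238c8c,
    0x1252542222d222f4249c2324264728292b321cc2a], [0, 0,
    0x328232bb242527c12328292ba252227c12c, 0x225252748728232b84c1, 0x32423274728292b8c21]]

noncomputable def n2935 : Ent := ⟨e2935, noF, [], [], [(8, 17, [6903326391201334775872065844685381424292761054348340378595029941706753, 0])]⟩

def c2935 : PLift (Cov.check n2935.C.D v2935 = true) := ⟨by decide +kernel⟩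

def b2935 : PLift (entF (fidx ts) 400 2935 n2935 = true) := ⟨by decide +kernel⟩

theorem g2935 : GoodF (fidx ts) 400 2935 := GoodF.ofV v2935 n2935 c2935.down b2935.down

/-- 4648544:2311/1 -/
noncomputable def e2936 : SCfg where
  D := {
    a := 7
    L := 9
    kp := 6
    inn := [(0, 1), (1, 0), (1, 2), (1, 3), (2, 1), (2, 3), (3, 1), (3, 2), (3, 4), (3, 6), (4, 3), (4,
      5), (5, 4), (6, 3)]
    mix := [(0, 0), (0, 1), (0, 2), (1, 0), (1, 2), (1, 3), (2, 2), (2, 4), (3, 3), (3, 4), (3, 5), (3,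
      6), (4, 5), (4, 6), (4, 7), (5, 6), (5, 7), (5, 8), (6, 1), (6, 4), (6, 5)]
    cl := [2, 4, 1, 1, 3, 0, 0, 5, 6]
    chq := [(0, 3), (3, 0)]
    rng := [(0, 1), (0, 3), (1, 0), (1, 2), (1, 4), (1, 5), (2, 1), (2, 4), (3, 0), (3, 6), (4, 1), (4,
      2), (5, 1), (5, 7), (6, 3), (6, 8), (7, 5), (7, 8), (8, 6), (8, 7)]
    lev := [] }
  links := [[1, 7, 8, 9], [7, 0, 9, 2, 3, 10], [3, 1, 9, 11], [10, 1, 2, 11, 6, 12, 4, 13], [13, 3, 12,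
    14, 5], [13, 4, 14, 15], [12, 3, 11, 8]]
  P := {
    a := 7
    N := 16
    nb := [898, 1677, 2570, 15446, 28712, 57360, 6408, 1283, 6849, 2311, 8330, 844, 16728, 33848,
      36912, 24608]
    tri := [(0, 1, 7), (0, 1, 9), (0, 7, 8), (0, 8, 9), (1, 2, 3), (1, 2, 9), (1, 3, 10), (1, 7, 10),
      (2, 3, 11), (2, 9, 11), (3, 4, 12), (3, 4, 13), (3, 6, 11), (3, 6, 12), (3, 10, 13), (4, 5,
      13), (4, 5, 14), (4, 12, 14), (5, 13, 15), (5, 14, 15), (6, 8, 11), (6, 8, 12)]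
    fin := [0, 0, 2, 2, 4, 4, 6, 0, 8, 2, 2, 6, 4, 4, 14, 15]
    chd := [(6, 4)]
    steps := [(0, 1), (0, 7), (2, 3), (2, 9), (2, 10), (4, 5), (4, 12), (4, 13), (6, 11)] }
  rep := [4, 2, 0, 6, 8, 14, 15]

noncomputable def v2936 : Cov.CovD where
  P := 3
  N := 4
  pl := [0, 1, 7, 8]
  lev := [⟨[], [], [], [2, 4], [(2, 1, [])]⟩,
    ⟨[], [(0, 1)], [(1, 1)], [2], [(2, 1, []), (3, 1, [])]⟩,
    ⟨[(0, 1)], [(0, 1), (1, 1), (1, 3)], [(1, 3)], [], [(2, 1, []), (4, 3, [0])]⟩,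
    ⟨[(0, 1), (1, 2)], [(1, 0), (1, 1), (1, 3), (2, 0), (2, 1), (2, 3)], [(0, 0), (0, 1),
      (0, 3), (1, 3)], [], [(3, 1, []), (4, 3, [0]), (5, 0, [3]), (6, 0, [3])]⟩,
    ⟨[(1, 3), (2, 3)], [(3, 0), (3, 1), (3, 3)], [(0, 0)], [5], [(5, 0, [3]), (6, 0, [3])]⟩,
    ⟨[(3, 4)], [(3, 0), (4, 0)], [], [5, 6], [(6, 0, [3])]⟩,
    ⟨[(1, 3), (2, 3), (3, 4)], [(2, 3), (3, 0), (3, 1), (3, 3), (4, 0)], [(0, 3)], [4],
      [(4, 3, [0]), (5, 0, [3])]⟩]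
  Ta := [((2, 1), 1, 4), ((2, 4), 1, 3), ((3, 0), 1, 2), ((3, 6), 1, 0), ((5, 1), 0, 4), ((5, 7),
    0, 5), ((6, 3), 0, 1), ((6, 8), 0, 6)]
  Tb := [((0, 1, 3), 2, 4, 1), ((1, 0, 2), 4, 2, 1), ((1, 0, 4), 4, 2, 3), ((1, 0, 5), 4, 2, 0),
    ((1, 2, 4), 4, 1, 3), ((1, 2, 5), 4, 1, 0), ((1, 4, 5), 4, 3, 0), ((2, 1, 4), 1, 4, 3),
    ((3, 0, 6), 1, 2, 0), ((4, 1, 2), 3, 4, 1), ((5, 1, 7), 0, 4, 5), ((6, 3, 8), 0, 1, 6),
    ((7, 5, 8), 5, 0, 6), ((8, 6, 7), 6, 0, 5)]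
  Tc := []
  Td := [((0, 3), (5, 1), 4), ((0, 3), (5, 7), 5), ((0, 3), (6, 3), 1), ((0, 3), (6, 8), 6), ((3,
    0), (4, 1), 4), ((3, 0), (4, 2), 1)]
  G := [[0, 0, 0x8188a621226ac142122a644c41ac18c, 0, 0x4161a81886c6182122a6eecc1ac189], [0, 0,
    0x21226a22c21ac142, 0x2121a2121ac212122a622c21ac289, 0x22c21621226ac182], [0, 0,
    0x18c18a622c116ac1414c44a651a116ca14c, 0, 0x15c11a68b3c1387a4c11], [0,
    0x11c11a6811a116c2641, 0x22c11a621c126ac182, 0x12c12a621c126ac281, 0x22c22a622c226ac211]]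

noncomputable def n2936 : Ent := ⟨e2936, noF, [], [], []⟩

def c2936 : PLift (Cov.check n2936.C.D v2936 = true) := ⟨by decide +kernel⟩

def b2936 : PLift (entF (fidx ts) 400 2936 n2936 = true) := ⟨by decide +kernel⟩

theorem g2936 : GoodF (fidx ts) 400 2936 := GoodF.ofV v2936 n2936 c2936.down b2936.down

/-- 4648544:2311/2 -/
noncomputable def e2937 : SCfg where
  D := {
    a := 7
    L := 9
    kp := 6
    inn := [(0, 1), (1, 0), (1, 2), (1, 3), (2, 1), (2, 3), (3, 1), (3, 2), (3, 4), (3, 6), (4, 3), (4,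
      5), (5, 4), (6, 3)]
    mix := [(0, 0), (0, 1), (0, 2), (1, 0), (1, 2), (1, 3), (2, 2), (2, 4), (3, 3), (3, 4), (3, 5), (3,
      6), (4, 1), (4, 5), (4, 6), (5, 1), (5, 6), (5, 7), (6, 4), (6, 5), (6, 8)]
    cl := [2, 4, 1, 1, 3, 0, 0, 5, 6]
    chq := [(0, 3), (3, 0)]
    rng := [(0, 1), (0, 3), (1, 0), (1, 2), (1, 5), (1, 7), (2, 1), (2, 4), (3, 0), (3, 6), (4, 2), (4,
      8), (5, 1), (5, 8), (6, 3), (6, 7), (7, 1), (7, 6), (8, 4), (8, 5)]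
    lev := [] }
  links := [[1, 7, 8, 9], [7, 0, 9, 2, 3, 10], [3, 1, 9, 11], [10, 1, 2, 11, 6, 12, 4, 13], [13, 3, 12,
    8, 5], [13, 4, 8, 14], [12, 3, 11, 15]]
  P := {
    a := 7
    N := 16
    nb := [898, 1677, 2570, 15446, 12584, 24848, 38920, 1283, 21169, 2311, 8330, 33356, 33112, 17464,
      8480, 6208]
    tri := [(0, 1, 7), (0, 1, 9), (0, 7, 8), (0, 8, 9), (1, 2, 3), (1, 2, 9), (1, 3, 10), (1, 7, 10),
      (2, 3, 11), (2, 9, 11), (3, 4, 12), (3, 4, 13), (3, 6, 11), (3, 6, 12), (3, 10, 13), (4, 5,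
      8), (4, 5, 13), (4, 8, 12), (5, 8, 14), (5, 13, 14), (6, 11, 15), (6, 12, 15)]
    fin := [0, 0, 2, 2, 4, 5, 6, 0, 5, 2, 2, 6, 4, 4, 14, 15]
    chd := [(6, 4)]
    steps := [(0, 1), (0, 7), (2, 3), (2, 9), (2, 10), (4, 12), (4, 13), (5, 8), (6, 11)] }
  rep := [4, 2, 0, 6, 5, 14, 15]

noncomputable def v2937 : Cov.CovD where
  P := 3
  N := 4
  pl := [0, 1, 7, 8]
  lev := [⟨[], [], [], [2, 4], [(2, 1, [])]⟩,
    ⟨[], [(0, 1)], [(1, 1)], [2], [(2, 1, []), (3, 1, [])]⟩,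
    ⟨[(0, 1)], [(0, 1), (1, 1), (1, 3)], [(1, 3)], [], [(2, 1, []), (4, 3, [0])]⟩,
    ⟨[(0, 1), (1, 2)], [(1, 0), (1, 1), (1, 3), (2, 0), (2, 1), (2, 3)], [(0, 0), (0, 1),
      (0, 3), (1, 3)], [], [(3, 1, []), (4, 3, [0]), (5, 0, [3]), (6, 0, [3])]⟩,
    ⟨[(1, 3), (2, 3)], [(3, 0), (3, 1), (3, 3)], [(0, 0)], [4], [(5, 0, [3]), (6, 0, [3])]⟩,
    ⟨[(3, 4)], [(3, 0), (4, 0)], [], [4, 5], [(6, 0, [3])]⟩,
    ⟨[(1, 3), (2, 3), (3, 4)], [(2, 3), (3, 0), (3, 1), (3, 3), (4, 0)], [(0, 3)], [6],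
      [(4, 3, [0]), (5, 0, [3])]⟩]
  Ta := [((2, 1), 1, 4), ((2, 4), 1, 3), ((3, 0), 1, 2), ((3, 6), 1, 0), ((5, 1), 0, 4), ((5, 8),
    0, 6), ((6, 3), 0, 1), ((6, 7), 0, 5)]
  Tb := [((0, 1, 3), 2, 4, 1), ((1, 0, 2), 4, 2, 1), ((1, 0, 5), 4, 2, 0), ((1, 0, 7), 4, 2, 5),
    ((1, 2, 5), 4, 1, 0), ((1, 2, 7), 4, 1, 5), ((1, 5, 7), 4, 0, 5), ((2, 1, 4), 1, 4, 3),
    ((3, 0, 6), 1, 2, 0), ((4, 2, 8), 3, 1, 6), ((5, 1, 8), 0, 4, 6), ((6, 3, 7), 0, 1, 5),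
    ((7, 1, 6), 5, 4, 0), ((8, 4, 5), 6, 3, 0)]
  Tc := []
  Td := [((0, 3), (5, 1), 4), ((0, 3), (5, 8), 6), ((0, 3), (6, 3), 1), ((0, 3), (6, 7), 5), ((3,
    0), (4, 2), 1), ((3, 0), (4, 8), 6)]
  G := [[0, 0, 0x61841a1281c21441e14414a1cc, 0, 0x2484aaa264c8c51214e12814e189], [0, 0,
    0x61241a1281c2, 0xaaa266a8c21a12612c219, 0x2a524aaa72644d2c512], [0, 0,
    0x1ca2d1a8a141c62d164a14c, 0, 0x117e2d1ad16c6181], [0, 0x11c11a681221814c6a41,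
    0x111e2666e2c182, 0x1112f2596e2c181, 0x111e2666e2c182]]

noncomputable def n2937 : Ent := ⟨e2937, noF, [], [], []⟩

def c2937 : PLift (Cov.check n2937.C.D v2937 = true) := ⟨by decide +kernel⟩

def b2937 : PLift (entF (fidx ts) 400 2937 n2937 = true) := ⟨by decide +kernel⟩

theorem g2937 : GoodF (fidx ts) 400 2937 := GoodF.ofV v2937 n2937 c2937.down b2937.down

/-- 4648544:2311/3 -/
noncomputable def e2938 : SCfg where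
  D := {
    a := 7
    L := 9
    kp := 6
    inn := [(0, 1), (1, 0), (1, 2), (1, 3), (2, 1), (2, 3), (3, 1), (3, 2), (3, 4), (3, 6), (4, 3), (4,
      5), (5, 4), (6, 3)]
    mix := [(0, 0), (0, 1), (0, 2), (1, 0), (1, 2), (1, 3), (2, 2), (2, 4), (3, 3), (3, 4), (3, 5), (3,
      6), (4, 5), (4, 6), (4, 7), (5, 1), (5, 6), (5, 7), (6, 4), (6, 5), (6, 8)]
    cl := [2, 4, 1, 1, 3, 0, 0, 5, 6]
    chq := [(0, 3), (3, 0)]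
    rng := [(0, 1), (0, 3), (1, 0), (1, 2), (1, 6), (1, 7), (2, 1), (2, 4), (3, 0), (3, 6), (4, 2), (4,
      8), (5, 7), (5, 8), (6, 1), (6, 3), (7, 1), (7, 5), (8, 4), (8, 5)]
    lev := [] }
  links := [[1, 7, 8, 9], [7, 0, 9, 2, 3, 10], [3, 1, 9, 11], [10, 1, 2, 11, 6, 12, 4, 13], [13, 3, 12,
    14, 5], [13, 4, 14, 8], [12, 3, 11, 15]]
  P := {
    a := 7
    N := 16
    nb := [898, 1677, 2570, 15446, 28712, 24848, 38920, 1283, 25249, 2311, 8330, 33356, 49240, 1336,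
      4400, 6208]
    tri := [(0, 1, 7), (0, 1, 9), (0, 7, 8), (0, 8, 9), (1, 2, 3), (1, 2, 9), (1, 3, 10), (1, 7, 10),
      (2, 3, 11), (2, 9, 11), (3, 4, 12), (3, 4, 13), (3, 6, 11), (3, 6, 12), (3, 10, 13), (4, 5,
      13), (4, 5, 14), (4, 12, 14), (5, 8, 13), (5, 8, 14), (6, 11, 15), (6, 12, 15)]
    fin := [0, 1, 1, 3, 4, 4, 6, 0, 4, 1, 1, 6, 3, 3, 14, 15]
    chd := [(6, 3)]
    steps := [(0, 7), (1, 2), (1, 9), (1, 10), (3, 12), (3, 13), (4, 5), (4, 8), (6, 11)] }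
  rep := [3, 1, 0, 6, 4, 14, 15]

noncomputable def v2938 : Cov.CovD where
  P := 3
  N := 4
  pl := [0, 1, 7, 8]
  lev := [⟨[], [], [], [2, 4], [(2, 1, [])]⟩,
    ⟨[], [(0, 1)], [(1, 1)], [2], [(2, 1, []), (3, 1, [])]⟩,
    ⟨[(0, 1)], [(0, 1), (1, 1), (1, 3)], [(1, 3)], [], [(2, 1, []), (4, 3, [0])]⟩,
    ⟨[(0, 1), (1, 2)], [(1, 0), (1, 1), (1, 3), (2, 0), (2, 1), (2, 3)], [(0, 0), (0, 1),
      (0, 3), (1, 3)], [], [(3, 1, []), (4, 3, [0]), (5, 0, [3]), (6, 0, [3])]⟩,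
    ⟨[(1, 3), (2, 3)], [(3, 0), (3, 1), (3, 3)], [(0, 0)], [5], [(5, 0, [3]), (6, 0, [3])]⟩,
    ⟨[(3, 4)], [(3, 0), (4, 0)], [], [4, 5], [(6, 0, [3])]⟩,
    ⟨[(1, 3), (2, 3), (3, 4)], [(2, 3), (3, 0), (3, 1), (3, 3), (4, 0)], [(0, 3)], [6],
      [(4, 3, [0]), (5, 0, [3])]⟩]
  Ta := [((2, 1), 1, 4), ((2, 4), 1, 3), ((3, 0), 1, 2), ((3, 6), 1, 0), ((5, 7), 0, 5), ((5, 8),
    0, 6), ((6, 1), 0, 4), ((6, 3), 0, 1)]
  Tb := [((0, 1, 3), 2, 4, 1), ((1, 0, 2), 4, 2, 1), ((1, 0, 6), 4, 2, 0), ((1, 0, 7), 4, 2, 5),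
    ((1, 2, 6), 4, 1, 0), ((1, 2, 7), 4, 1, 5), ((1, 6, 7), 4, 0, 5), ((2, 1, 4), 1, 4, 3),
    ((3, 0, 6), 1, 2, 0), ((4, 2, 8), 3, 1, 6), ((5, 7, 8), 0, 5, 6), ((6, 1, 3), 0, 4, 1),
    ((7, 1, 5), 5, 4, 0), ((8, 4, 5), 6, 3, 0)]
  Tc := []
  Td := [((0, 3), (5, 7), 5), ((0, 3), (5, 8), 6), ((0, 3), (6, 1), 4), ((0, 3), (6, 3), 1), ((3,
    0), (4, 2), 1), ((3, 0), (4, 8), 6)]
  G := [[0, 0, 0xe8e162822a4841ce142446461ac181a2681cc, 0, 0x21222d64e92e6a88ac1ce181], [0, 0,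
    0x4162a41a1a26218c1c2, 0x4142a41a1a262122ac2c1, 0xa1a266162ac211], [0, 0,
    0x58c2a9812c618c4c261214ca14c, 0, 0x122188144e111432a518b585c6189], [0,
    0x1441812ac1221814ca681, 0x5aca2691c12ac142, 0x341261412ac1818126389626c285,
    0x17c12661c62ac182]]

noncomputable def n2938 : Ent := ⟨e2938, noF, [], [], []⟩

def c2938 : PLift (Cov.check n2938.C.D v2938 = true) := ⟨by decide +kernel⟩

def b2938 : PLift (entF (fidx ts) 400 2938 n2938 = true) := ⟨by decide +kernel⟩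

theorem g2938 : GoodF (fidx ts) 400 2938 := GoodF.ofV v2938 n2938 c2938.down b2938.down

/-- 4648544:2311 -/
noncomputable def e2939 : SCfg where
  D := {
    a := 7
    L := 10
    kp := 7
    inn := [(0, 1), (1, 0), (1, 2), (1, 3), (2, 1), (2, 3), (3, 1), (3, 2), (3, 4), (3, 6), (4, 3), (4,
      5), (5, 4), (6, 3)]
    mix := [(0, 0), (0, 1), (0, 2), (1, 0), (1, 2), (1, 3), (2, 2), (2, 4), (3, 3), (3, 4), (3, 5), (3,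
      6), (4, 5), (4, 6), (4, 7), (5, 6), (5, 7), (5, 8), (6, 4), (6, 5), (6, 9)]
    cl := [3, 5, 1, 1, 2, 0, 0, 4, 6, 7]
    chq := [(0, 2), (2, 0)]
    rng := [(0, 1), (0, 3), (1, 0), (1, 2), (2, 1), (2, 4), (3, 0), (3, 6), (4, 2), (4, 9), (5, 7), (5,
      9), (6, 3), (6, 8), (7, 5), (7, 8), (8, 6), (8, 7), (9, 4), (9, 5)]
    lev := [] }
  links := [[1, 7, 8, 9], [7, 0, 9, 2, 3, 10], [3, 1, 9, 11], [10, 1, 2, 11, 6, 12, 4, 13], [13, 3, 12,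
    14, 5], [13, 4, 14, 15], [12, 3, 11, 16]]
  P := {
    a := 7
    N := 17
    nb := [898, 1677, 2570, 15446, 28712, 57360, 71688, 1283, 641, 2311, 8330, 66124, 82008, 33848,
      36912, 24608, 6208]
    tri := [(0, 1, 7), (0, 1, 9), (0, 7, 8), (0, 8, 9), (1, 2, 3), (1, 2, 9), (1, 3, 10), (1, 7, 10),
      (2, 3, 11), (2, 9, 11), (3, 4, 12), (3, 4, 13), (3, 6, 11), (3, 6, 12), (3, 10, 13), (4, 5,
      13), (4, 5, 14), (4, 12, 14), (5, 13, 15), (5, 14, 15), (6, 11, 16), (6, 12, 16)]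
    fin := [0, 0, 2, 2, 4, 4, 6, 0, 8, 2, 2, 6, 4, 4, 14, 15, 16]
    chd := [(6, 4)]
    steps := [(0, 1), (0, 7), (2, 3), (2, 9), (2, 10), (4, 5), (4, 12), (4, 13), (6, 11)] }
  rep := [4, 2, 6, 0, 14, 8, 15, 16]

noncomputable def v2939 : Cov.CovD where
  P := 3
  N := 5
  pl := [0, 1, 7, 8, 9]
  lev := [⟨[], [], [], [3, 5], [(2, 1, [])]⟩,
    ⟨[], [(0, 1)], [(1, 1)], [3], [(2, 1, []), (3, 1, [])]⟩,
    ⟨[(0, 1)], [(0, 1), (1, 1), (1, 2)], [(1, 2)], [], [(2, 1, []), (4, 2, [0])]⟩,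
    ⟨[(0, 1), (1, 2)], [(1, 0), (1, 1), (1, 2), (2, 0), (2, 1), (2, 2)], [(0, 0), (0, 1),
      (0, 2), (1, 2)], [], [(3, 1, []), (4, 2, [0]), (5, 0, [2]), (6, 0, [2])]⟩,
    ⟨[(1, 3), (2, 3)], [(3, 0), (3, 1), (3, 2)], [(0, 0)], [4], [(5, 0, [2]), (6, 0, [2])]⟩,
    ⟨[(3, 4)], [(3, 0), (4, 0)], [], [4, 6], [(6, 0, [2])]⟩,
    ⟨[(1, 3), (2, 3), (3, 4)], [(2, 2), (3, 0), (3, 1), (3, 2), (4, 0)], [(0, 2)], [7],
      [(4, 2, [0]), (5, 0, [2])]⟩]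
  Ta := [((2, 1), 1, 5), ((2, 4), 1, 2), ((3, 0), 1, 3), ((3, 6), 1, 0), ((5, 7), 0, 4), ((5, 9),
    0, 7), ((6, 3), 0, 1), ((6, 8), 0, 6)]
  Tb := [((0, 1, 3), 3, 5, 1), ((1, 0, 2), 5, 3, 1), ((2, 1, 4), 1, 5, 2), ((3, 0, 6), 1, 3, 0),
    ((4, 2, 9), 2, 1, 7), ((5, 7, 9), 0, 4, 7), ((6, 3, 8), 0, 1, 6), ((7, 5, 8), 4, 0, 6),
    ((8, 6, 7), 6, 0, 4), ((9, 4, 5), 7, 2, 0)]
  Tc := []
  Td := [((0, 2), (5, 7), 4), ((0, 2), (5, 9), 7), ((0, 2), (6, 3), 1), ((0, 2), (6, 8), 6), ((2,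
    0), (4, 2), 1), ((2, 0), (4, 9), 7)]
  G := [[0, 0, 0xa1a1a44861a1681461616881d, 0xc4581cc9e418cc3cc56814c1cc6a481d,
    0x8182c2121a26a8121a26c81daa5aa3681422c21688a81ca81d], [0, 0,
    0x6161a814a1c16418616168847, 0, 0xaaca16811aaca16814a1aaa6821b], [0, 0,
    0x61a1c41861c1a814c1c1c241d, 0x11c116a41811c11a688411c116a441d,
    0x11a116c2181221814ca8411c11a6881d], [0, 0x1441812ac811c116a4861,
    0xc1a1c41861a1684461c1a421b, 0, 0x11c11a681111c11a681811c11a68817]]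

noncomputable def n2939 : Ent := ⟨e2939, noF, [], [], [(8, 16, [1580044410770988437309982408355971841652082177953823432505701138433, 0]), (8, 14, [1685382413448253767852309107433119732572617628602273068445376942081, 0]), (8, 15, [1685356702439545624007900436039642273970977273354372543760012124161, 0])]⟩

def c2939 : PLift (Cov.check n2939.C.D v2939 = true) := ⟨by decide +kernel⟩

def b2939 : PLift (entF (fidx ts) 400 2939 n2939 = true) := ⟨by decide +kernel⟩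

theorem g2939 : GoodF (fidx ts) 400 2939 := GoodF.ofV v2939 n2939 c2939.down b2939.down

/-- 4648454:2314/2 -/
noncomputable def e2940 : SCfg where
  D := {
    a := 7
    L := 8
    kp := 5
    inn := [(0, 1), (1, 0), (1, 2), (1, 3), (2, 1), (2, 3), (3, 1), (3, 2), (3, 4), (3, 5), (4, 3), (5,
      3), (5, 6), (6, 5)]
    mix := [(0, 0), (0, 1), (0, 2), (1, 0), (1, 2), (1, 3), (2, 2), (2, 4), (3, 3), (3, 4), (3, 5), (3,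
      6), (4, 1), (4, 4), (4, 5), (5, 5), (5, 6), (5, 7), (6, 1), (6, 5), (6, 7)]
    cl := [2, 4, 1, 1, 3, 0, 0, 5]
    chq := [(0, 3), (3, 0)]
    rng := [(0, 1), (0, 3), (1, 0), (1, 2), (1, 4), (1, 5), (1, 7), (2, 1), (2, 4), (3, 0), (3, 6), (4,
      1), (4, 2), (5, 1), (6, 3), (6, 7), (7, 1), (7, 6)]
    lev := [] }
  links := [[1, 7, 8, 9], [7, 0, 9, 2, 3, 10], [3, 1, 9, 11], [10, 1, 2, 11, 4, 12, 5, 13], [12, 3, 11,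
    8], [13, 3, 12, 6, 14], [14, 5, 12, 8]]
  P := {
    a := 7
    N := 15
    nb := [898, 1677, 2570, 15414, 6408, 28744, 20768, 1283, 23249, 2311, 8330, 796, 376, 17448, 8544]
    tri := [(0, 1, 7), (0, 1, 9), (0, 7, 8), (0, 8, 9), (1, 2, 3), (1, 2, 9), (1, 3, 10), (1, 7, 10),
      (2, 3, 11), (2, 9, 11), (3, 4, 11), (3, 4, 12), (3, 5, 12), (3, 5, 13), (3, 10, 13), (4, 8,
      11), (4, 8, 12), (5, 6, 12), (5, 6, 14), (5, 13, 14), (6, 8, 12), (6, 8, 14)]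
    fin := [0, 0, 2, 2, 4, 5, 6, 0, 6, 2, 2, 4, 5, 5, 14]
    chd := [(4, 5)]
    steps := [(0, 1), (0, 7), (2, 3), (2, 9), (2, 10), (4, 11), (5, 12), (5, 13), (6, 8)] }
  rep := [5, 2, 0, 4, 6, 14]

noncomputable def v2940 : Cov.CovD where
  P := 3
  N := 3
  pl := [0, 1, 7]
  lev := [⟨[], [], [], [2, 4], [(2, 1, [])]⟩,
    ⟨[], [(0, 1)], [(1, 1)], [2], [(2, 1, []), (3, 1, [])]⟩,
    ⟨[(0, 1)], [(0, 1), (1, 1), (1, 3)], [(1, 3)], [], [(2, 1, []), (4, 3, [0])]⟩,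
    ⟨[(0, 1), (1, 2)], [(1, 0), (1, 1), (1, 3), (2, 0), (2, 1), (2, 3)], [(0, 0), (0, 1),
      (0, 3), (1, 3)], [], [(3, 1, []), (4, 3, [0]), (5, 0, [3]), (6, 0, [3])]⟩,
    ⟨[(1, 3), (2, 3)], [(2, 3), (3, 0), (3, 1), (3, 3)], [(0, 3)], [4], [(4, 3, [0]), (5,
      0, [3])]⟩,
    ⟨[(1, 3), (2, 3), (3, 4)], [(3, 0), (3, 1), (3, 3), (4, 0)], [(0, 0)], [5], [(5, 0,
      [3]), (6, 0, [3])]⟩,
    ⟨[(3, 5)], [(3, 0), (4, 0), (5, 0)], [], [4, 5], [(5, 0, [3])]⟩]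
  Ta := [((2, 1), 1, 4), ((2, 4), 1, 3), ((3, 0), 1, 2), ((3, 6), 1, 0), ((5, 1), 0, 4), ((6, 3),
    0, 1), ((6, 7), 0, 5)]
  Tb := [((0, 1, 3), 2, 4, 1), ((1, 0, 2), 4, 2, 1), ((1, 0, 4), 4, 2, 3), ((1, 0, 5), 4, 2, 0),
    ((1, 0, 7), 4, 2, 5), ((1, 2, 4), 4, 1, 3), ((1, 2, 5), 4, 1, 0), ((1, 2, 7), 4, 1, 5),
    ((1, 4, 5), 4, 3, 0), ((1, 4, 7), 4, 3, 5), ((1, 5, 7), 4, 0, 5), ((2, 1, 4), 1, 4, 3),
    ((3, 0, 6), 1, 2, 0), ((4, 1, 2), 3, 4, 1), ((6, 3, 7), 0, 1, 5), ((7, 1, 6), 5, 4, 0)]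
  Tc := []
  Td := [((0, 3), (5, 1), 4), ((0, 3), (6, 3), 1), ((0, 3), (6, 7), 5), ((3, 0), (4, 1), 4), ((3,
    0), (4, 2), 1)]
  G := [[0, 0, 0x8e6882a2c1442626ca4c18c, 0, 0xa484ac84c8618426242aa46c189], [0, 0,
    0xc262c2a2c142, 0x826882a2c144262682c249, 0xc2a2442628582], [0, 0,
    0x816882a1c1424c114c4a14c, 0, 0x1411a22da4c16181], [0, 0xc2618a6c12a41, 0x126212c2c182,
    0x12c212a2c211, 0x42621262c182]]

noncomputable def n2940 : Ent := ⟨e2940, noF, [], [], []⟩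

def c2940 : PLift (Cov.check n2940.C.D v2940 = true) := ⟨by decide +kernel⟩

def b2940 : PLift (entF (fidx ts) 400 2940 n2940 = true) := ⟨by decide +kernel⟩

theorem g2940 : GoodF (fidx ts) 400 2940 := GoodF.ofV v2940 n2940 c2940.down b2940.down

/-- 4648454:2314/1 -/
noncomputable def e2941 : SCfg where
  D := {
    a := 7
    L := 9
    kp := 6
    inn := [(0, 1), (1, 0), (1, 2), (1, 3), (2, 1), (2, 3), (3, 1), (3, 2), (3, 4), (3, 5), (4, 3), (5,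
      3), (5, 6), (6, 5)]
    mix := [(0, 0), (0, 1), (0, 2), (1, 0), (1, 2), (1, 3), (2, 2), (2, 4), (3, 3), (3, 4), (3, 5), (3,
      6), (4, 1), (4, 4), (4, 5), (5, 5), (5, 6), (5, 7), (6, 5), (6, 7), (6, 8)]
    cl := [2, 4, 1, 1, 3, 0, 0, 5, 6]
    chq := [(0, 3), (3, 0)]
    rng := [(0, 1), (0, 3), (1, 0), (1, 2), (1, 4), (1, 5), (2, 1), (2, 4), (3, 0), (3, 6), (4, 1), (4,
      2), (5, 1), (5, 8), (6, 3), (6, 7), (7, 6), (7, 8), (8, 5), (8, 7)]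
    lev := [] }
  links := [[1, 7, 8, 9], [7, 0, 9, 2, 3, 10], [3, 1, 9, 11], [10, 1, 2, 11, 4, 12, 5, 13], [12, 3, 11,
    8], [13, 3, 12, 6, 14], [14, 5, 12, 15]]
  P := {
    a := 7
    N := 16
    nb := [898, 1677, 2570, 15414, 6408, 28744, 53280, 1283, 6801, 2311, 8330, 796, 33144, 17448,
      41056, 20544]
    tri := [(0, 1, 7), (0, 1, 9), (0, 7, 8), (0, 8, 9), (1, 2, 3), (1, 2, 9), (1, 3, 10), (1, 7, 10),
      (2, 3, 11), (2, 9, 11), (3, 4, 11), (3, 4, 12), (3, 5, 12), (3, 5, 13), (3, 10, 13), (4, 8,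
      11), (4, 8, 12), (5, 6, 12), (5, 6, 14), (5, 13, 14), (6, 12, 15), (6, 14, 15)]
    fin := [0, 0, 2, 2, 4, 5, 5, 0, 8, 2, 2, 4, 5, 5, 14, 15]
    chd := [(4, 5)]
    steps := [(0, 1), (0, 7), (2, 3), (2, 9), (2, 10), (4, 11), (5, 6), (5, 12), (5, 13)] }
  rep := [5, 2, 0, 4, 8, 14, 15]

noncomputable def v2941 : Cov.CovD where
  P := 3
  N := 4
  pl := [0, 1, 7, 8]
  lev := [⟨[], [], [], [2, 4], [(2, 1, [])]⟩,
    ⟨[], [(0, 1)], [(1, 1)], [2], [(2, 1, []), (3, 1, [])]⟩,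
    ⟨[(0, 1)], [(0, 1), (1, 1), (1, 3)], [(1, 3)], [], [(2, 1, []), (4, 3, [0])]⟩,
    ⟨[(0, 1), (1, 2)], [(1, 0), (1, 1), (1, 3), (2, 0), (2, 1), (2, 3)], [(0, 0), (0, 1),
      (0, 3), (1, 3)], [], [(3, 1, []), (4, 3, [0]), (5, 0, [3]), (6, 0, [3])]⟩,
    ⟨[(1, 3), (2, 3)], [(2, 3), (3, 0), (3, 1), (3, 3)], [(0, 3)], [4], [(4, 3, [0]), (5,
      0, [3])]⟩,
    ⟨[(1, 3), (2, 3), (3, 4)], [(3, 0), (3, 1), (3, 3), (4, 0)], [(0, 0)], [5], [(5, 0,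
      [3]), (6, 0, [3])]⟩,
    ⟨[(3, 5)], [(3, 0), (4, 0), (5, 0)], [], [5, 6], [(5, 0, [3])]⟩]
  Ta := [((2, 1), 1, 4), ((2, 4), 1, 3), ((3, 0), 1, 2), ((3, 6), 1, 0), ((5, 1), 0, 4), ((5, 8),
    0, 6), ((6, 3), 0, 1), ((6, 7), 0, 5)]
  Tb := [((0, 1, 3), 2, 4, 1), ((1, 0, 2), 4, 2, 1), ((1, 0, 4), 4, 2, 3), ((1, 0, 5), 4, 2, 0),
    ((1, 2, 4), 4, 1, 3), ((1, 2, 5), 4, 1, 0), ((1, 4, 5), 4, 3, 0), ((2, 1, 4), 1, 4, 3),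
    ((3, 0, 6), 1, 2, 0), ((4, 1, 2), 3, 4, 1), ((5, 1, 8), 0, 4, 6), ((6, 3, 7), 0, 1, 5),
    ((7, 6, 8), 5, 0, 6), ((8, 5, 7), 6, 0, 5)]
  Tc := []
  Td := [((0, 3), (5, 1), 4), ((0, 3), (5, 8), 6), ((0, 3), (6, 3), 1), ((0, 3), (6, 7), 5), ((3,
    0), (4, 1), 4), ((3, 0), (4, 2), 1)]
  G := [[0, 0, 0xca68c6a2c14ca62c6a4c18c, 0, 0xca68c6a2c11ca62c6a4c189], [0, 0, 0xca62c6a2c142,
    0xca628c6a24a4ca62c6a2c189, 0xca62c6a2c182], [0, 0, 0xc168a6c1a1416a4a6c1618c, 0,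
    0x1412e47188ac6a14c11], [0, 0xc6a14a6c12681, 0x7162a1c2c182, 0x1a62c1a2c281,
    0x1a62816a24c12]]

noncomputable def n2941 : Ent := ⟨e2941, noF, [], [], [(8, 15, [360035742630636841211993100915356868655746945586763691019714561, 0])]⟩

def c2941 : PLift (Cov.check n2941.C.D v2941 = true) := ⟨by decide +kernel⟩

def b2941 : PLift (entF (fidx ts) 400 2941 n2941 = true) := ⟨by decide +kernel⟩

theorem g2941 : GoodF (fidx ts) 400 2941 := GoodF.ofV v2941 n2941 c2941.down b2941.down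

/-- 4648454:2314/3 -/
noncomputable def e2942 : SCfg where
  D := {
    a := 7
    L := 9
    kp := 6
    inn := [(0, 1), (1, 0), (1, 2), (1, 3), (2, 1), (2, 3), (3, 1), (3, 2), (3, 4), (3, 5), (4, 3), (5,
      3), (5, 6), (6, 5)]
    mix := [(0, 0), (0, 1), (0, 2), (1, 0), (1, 2), (1, 3), (2, 2), (2, 4), (3, 3), (3, 4), (3, 5), (3,
      6), (4, 4), (4, 5), (4, 7), (5, 5), (5, 6), (5, 8), (6, 1), (6, 5), (6, 8)]
    cl := [2, 4, 1, 1, 3, 0, 0, 6, 5]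
    chq := [(0, 3), (3, 0)]
    rng := [(0, 1), (0, 3), (1, 0), (1, 2), (1, 5), (1, 8), (2, 1), (2, 4), (3, 0), (3, 6), (4, 2), (4,
      7), (5, 1), (5, 7), (6, 3), (6, 8), (7, 4), (7, 5), (8, 1), (8, 6)]
    lev := [] }
  links := [[1, 7, 8, 9], [7, 0, 9, 2, 3, 10], [3, 1, 9, 11], [10, 1, 2, 11, 4, 12, 5, 13], [12, 3, 11,
    14], [13, 3, 12, 6, 15], [15, 5, 12, 8]]
  P := {
    a := 7
    N := 16
    nb := [898, 1677, 2570, 15414, 22536, 45128, 37152, 1283, 37569, 2311, 8330, 16924, 16760, 33832,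
      6160, 8544]
    tri := [(0, 1, 7), (0, 1, 9), (0, 7, 8), (0, 8, 9), (1, 2, 3), (1, 2, 9), (1, 3, 10), (1, 7, 10),
      (2, 3, 11), (2, 9, 11), (3, 4, 11), (3, 4, 12), (3, 5, 12), (3, 5, 13), (3, 10, 13), (4, 11,
      14), (4, 12, 14), (5, 6, 12), (5, 6, 15), (5, 13, 15), (6, 8, 12), (6, 8, 15)]
    fin := [0, 0, 2, 2, 4, 5, 6, 0, 6, 2, 2, 4, 5, 5, 14, 15]
    chd := [(4, 5)]
    steps := [(0, 1), (0, 7), (2, 3), (2, 9), (2, 10), (4, 11), (5, 12), (5, 13), (6, 8)] }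
  rep := [5, 2, 0, 4, 6, 15, 14]

noncomputable def v2942 : Cov.CovD where
  P := 3
  N := 4
  pl := [0, 1, 7, 8]
  lev := [⟨[], [], [], [2, 4], [(2, 1, [])]⟩,
    ⟨[], [(0, 1)], [(1, 1)], [2], [(2, 1, []), (3, 1, [])]⟩,
    ⟨[(0, 1)], [(0, 1), (1, 1), (1, 3)], [(1, 3)], [], [(2, 1, []), (4, 3, [0])]⟩,
    ⟨[(0, 1), (1, 2)], [(1, 0), (1, 1), (1, 3), (2, 0), (2, 1), (2, 3)], [(0, 0), (0, 1),
      (0, 3), (1, 3)], [], [(3, 1, []), (4, 3, [0]), (5, 0, [3]), (6, 0, [3])]⟩,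
    ⟨[(1, 3), (2, 3)], [(2, 3), (3, 0), (3, 1), (3, 3)], [(0, 3)], [6], [(4, 3, [0]), (5,
      0, [3])]⟩,
    ⟨[(1, 3), (2, 3), (3, 4)], [(3, 0), (3, 1), (3, 3), (4, 0)], [(0, 0)], [5], [(5, 0,
      [3]), (6, 0, [3])]⟩,
    ⟨[(3, 5)], [(3, 0), (4, 0), (5, 0)], [], [4, 5], [(5, 0, [3])]⟩]
  Ta := [((2, 1), 1, 4), ((2, 4), 1, 3), ((3, 0), 1, 2), ((3, 6), 1, 0), ((5, 1), 0, 4), ((5, 7),
    0, 6), ((6, 3), 0, 1), ((6, 8), 0, 5)]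
  Tb := [((0, 1, 3), 2, 4, 1), ((1, 0, 2), 4, 2, 1), ((1, 0, 5), 4, 2, 0), ((1, 0, 8), 4, 2, 5),
    ((1, 2, 5), 4, 1, 0), ((1, 2, 8), 4, 1, 5), ((1, 5, 8), 4, 0, 5), ((2, 1, 4), 1, 4, 3),
    ((3, 0, 6), 1, 2, 0), ((4, 2, 7), 3, 1, 6), ((5, 1, 7), 0, 4, 6), ((6, 3, 8), 0, 1, 5),
    ((7, 4, 5), 6, 3, 0), ((8, 1, 6), 5, 4, 0)]
  Tc := []
  Td := [((0, 3), (5, 1), 4), ((0, 3), (5, 7), 6), ((0, 3), (6, 3), 1), ((0, 3), (6, 8), 5), ((3,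
    0), (4, 2), 1), ((3, 0), (4, 7), 6)]
  G := [[0, 0, 0x82a82a6418a68a6a81c42a46a641426426a444a1cc, 0,
    0x8884a84ae8886122c86a819426242a42a42ae24c8e189], [0, 0, 0xc2ac2a641c26c26a81c2,
    0x826826a82a84a6c11c262c2a42a6c242688299, 0xc262c2ac2a6c1c2688192], [0, 0,
    0x81a81ac82c161821c41ac24c1618c, 0, 0x14126c2a118e49e181], [0, 0xc6a14a6c12681,
    0xc26112a12a6c182, 0xc26112a1266c281, 0xc26112a21c6c182]]

noncomputable def n2942 : Ent := ⟨e2942, noF, [], [], [(8, 14, [385746751338780685620664494392815470296102193487288376384536577, 0])]⟩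

def c2942 : PLift (Cov.check n2942.C.D v2942 = true) := ⟨by decide +kernel⟩

def b2942 : PLift (entF (fidx ts) 400 2942 n2942 = true) := ⟨by decide +kernel⟩

theorem g2942 : GoodF (fidx ts) 400 2942 := GoodF.ofV v2942 n2942 c2942.down b2942.down

/-- 4648454:2314/5 -/
noncomputable def e2943 : SCfg where
  D := {
    a := 7
    L := 8
    kp := 5
    inn := [(0, 1), (1, 0), (1, 2), (1, 3), (2, 1), (2, 3), (3, 1), (3, 2), (3, 4), (3, 5), (4, 3), (5,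
      3), (5, 6), (6, 5)]
    mix := [(0, 0), (0, 1), (0, 2), (1, 0), (1, 2), (1, 3), (2, 2), (2, 4), (3, 3), (3, 4), (3, 5), (3,
      6), (4, 4), (4, 5), (4, 7), (5, 1), (5, 5), (5, 6), (6, 1), (6, 5), (6, 7)]
    cl := [2, 4, 1, 1, 3, 0, 0, 5]
    chq := [(0, 3), (3, 0)]
    rng := [(0, 1), (0, 3), (1, 0), (1, 2), (1, 6), (1, 7), (2, 1), (2, 4), (3, 0), (3, 6), (4, 2), (4,
      7), (5, 7), (6, 1), (6, 3), (7, 1), (7, 4), (7, 5)]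
    lev := [] }
  links := [[1, 7, 8, 9], [7, 0, 9, 2, 3, 10], [3, 1, 9, 11], [10, 1, 2, 11, 4, 12, 5, 13], [12, 3, 11,
    14], [13, 3, 12, 6, 8], [8, 5, 12, 14]]
  P := {
    a := 7
    N := 15
    nb := [898, 1677, 2570, 15414, 22536, 12616, 20768, 1283, 25313, 2311, 8330, 16924, 16504, 1320,
      6480]
    tri := [(0, 1, 7), (0, 1, 9), (0, 7, 8), (0, 8, 9), (1, 2, 3), (1, 2, 9), (1, 3, 10), (1, 7, 10),
      (2, 3, 11), (2, 9, 11), (3, 4, 11), (3, 4, 12), (3, 5, 12), (3, 5, 13), (3, 10, 13), (4, 11,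
      14), (4, 12, 14), (5, 6, 8), (5, 6, 12), (5, 8, 13), (6, 8, 14), (6, 12, 14)]
    fin := [0, 0, 2, 2, 4, 5, 6, 0, 6, 2, 2, 4, 5, 5, 14]
    chd := [(4, 5)]
    steps := [(0, 1), (0, 7), (2, 3), (2, 9), (2, 10), (4, 11), (5, 12), (5, 13), (6, 8)] }
  rep := [5, 2, 0, 4, 6, 14]

noncomputable def v2943 : Cov.CovD where
  P := 3
  N := 3
  pl := [0, 1, 7]
  lev := [⟨[], [], [], [2, 4], [(2, 1, [])]⟩,
    ⟨[], [(0, 1)], [(1, 1)], [2], [(2, 1, []), (3, 1, [])]⟩,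
    ⟨[(0, 1)], [(0, 1), (1, 1), (1, 3)], [(1, 3)], [], [(2, 1, []), (4, 3, [0])]⟩,
    ⟨[(0, 1), (1, 2)], [(1, 0), (1, 1), (1, 3), (2, 0), (2, 1), (2, 3)], [(0, 0), (0, 1),
      (0, 3), (1, 3)], [], [(3, 1, []), (4, 3, [0]), (5, 0, [3]), (6, 0, [3])]⟩,
    ⟨[(1, 3), (2, 3)], [(2, 3), (3, 0), (3, 1), (3, 3)], [(0, 3)], [5], [(4, 3, [0]), (5,
      0, [3])]⟩,
    ⟨[(1, 3), (2, 3), (3, 4)], [(3, 0), (3, 1), (3, 3), (4, 0)], [(0, 0)], [4], [(5, 0,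
      [3]), (6, 0, [3])]⟩,
    ⟨[(3, 5)], [(3, 0), (4, 0), (5, 0)], [], [4, 5], [(5, 0, [3])]⟩]
  Ta := [((2, 1), 1, 4), ((2, 4), 1, 3), ((3, 0), 1, 2), ((3, 6), 1, 0), ((5, 7), 0, 5), ((6, 1),
    0, 4), ((6, 3), 0, 1)]
  Tb := [((0, 1, 3), 2, 4, 1), ((1, 0, 2), 4, 2, 1), ((1, 0, 6), 4, 2, 0), ((1, 0, 7), 4, 2, 5),
    ((1, 2, 6), 4, 1, 0), ((1, 2, 7), 4, 1, 5), ((1, 6, 7), 4, 0, 5), ((2, 1, 4), 1, 4, 3),
    ((3, 0, 6), 1, 2, 0), ((4, 2, 7), 3, 1, 5), ((6, 1, 3), 0, 4, 1), ((7, 1, 4), 5, 4, 3),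
    ((7, 1, 5), 5, 4, 0), ((7, 4, 5), 5, 3, 0)]
  Tc := []
  Td := [((0, 3), (5, 7), 5), ((0, 3), (6, 1), 4), ((0, 3), (6, 3), 1), ((3, 0), (4, 2), 1), ((3,
    0), (4, 7), 5)]
  G := [[0, 0, 0x82a2c8e8886122288c642244224e448e18c, 0, 0x426222a2a4e84c44ce181], [0, 0,
    0x84a441c222a222c1c2, 0x48622ac2226c211, 0xe2246418c222a8213], [0, 0,
    0x1218ca81618621411414a81cc, 0, 0x884492a8149162112146c189], [0, 0xc6a14a6c12681,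
    0x1212a22c23c142, 0x62142245c211228a12225c215, 0x22c2312a45c182]]

noncomputable def n2943 : Ent := ⟨e2943, noF, [], [], []⟩

def c2943 : PLift (Cov.check n2943.C.D v2943 = true) := ⟨by decide +kernel⟩

def b2943 : PLift (entF (fidx ts) 400 2943 n2943 = true) := ⟨by decide +kernel⟩

theorem g2943 : GoodF (fidx ts) 400 2943 := GoodF.ofV v2943 n2943 c2943.down b2943.down

/-- 4648454:2314/4 -/
noncomputable def e2944 : SCfg where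
  D := {
    a := 7
    L := 9
    kp := 6
    inn := [(0, 1), (1, 0), (1, 2), (1, 3), (2, 1), (2, 3), (3, 1), (3, 2), (3, 4), (3, 5), (4, 3), (5,
      3), (5, 6), (6, 5)]
    mix := [(0, 0), (0, 1), (0, 2), (1, 0), (1, 2), (1, 3), (2, 2), (2, 4), (3, 3), (3, 4), (3, 5), (3,
      6), (4, 4), (4, 5), (4, 7), (5, 1), (5, 5), (5, 6), (6, 1), (6, 5), (6, 8)]
    cl := [2, 4, 1, 1, 3, 0, 0, 5, 6]
    chq := [(0, 3), (3, 0)]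
    rng := [(0, 1), (0, 3), (1, 0), (1, 2), (1, 6), (1, 8), (2, 1), (2, 4), (3, 0), (3, 6), (4, 2), (4,
      7), (5, 7), (5, 8), (6, 1), (6, 3), (7, 4), (7, 5), (8, 1), (8, 5)]
    lev := [] }
  links := [[1, 7, 8, 9], [7, 0, 9, 2, 3, 10], [3, 1, 9, 11], [10, 1, 2, 11, 4, 12, 5, 13], [12, 3, 11,
    14], [13, 3, 12, 6, 8], [8, 5, 12, 15]]
  P := {
    a := 7
    N := 16
    nb := [898, 1677, 2570, 15414, 22536, 12616, 37152, 1283, 41697, 2311, 8330, 16924, 49272, 1320,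
      6160, 4416]
    tri := [(0, 1, 7), (0, 1, 9), (0, 7, 8), (0, 8, 9), (1, 2, 3), (1, 2, 9), (1, 3, 10), (1, 7, 10),
      (2, 3, 11), (2, 9, 11), (3, 4, 11), (3, 4, 12), (3, 5, 12), (3, 5, 13), (3, 10, 13), (4, 11,
      14), (4, 12, 14), (5, 6, 8), (5, 6, 12), (5, 8, 13), (6, 8, 15), (6, 12, 15)]
    fin := [0, 0, 2, 2, 4, 5, 6, 0, 6, 2, 2, 4, 5, 5, 14, 15]
    chd := [(4, 5)]
    steps := [(0, 1), (0, 7), (2, 3), (2, 9), (2, 10), (4, 11), (5, 12), (5, 13), (6, 8)] }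
  rep := [5, 2, 0, 4, 6, 14, 15]

noncomputable def v2944 : Cov.CovD where
  P := 3
  N := 4
  pl := [0, 1, 7, 8]
  lev := [⟨[], [], [], [2, 4], [(2, 1, [])]⟩,
    ⟨[], [(0, 1)], [(1, 1)], [2], [(2, 1, []), (3, 1, [])]⟩,
    ⟨[(0, 1)], [(0, 1), (1, 1), (1, 3)], [(1, 3)], [], [(2, 1, []), (4, 3, [0])]⟩,
    ⟨[(0, 1), (1, 2)], [(1, 0), (1, 1), (1, 3), (2, 0), (2, 1), (2, 3)], [(0, 0), (0, 1),
      (0, 3), (1, 3)], [], [(3, 1, []), (4, 3, [0]), (5, 0, [3]), (6, 0, [3])]⟩,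
    ⟨[(1, 3), (2, 3)], [(2, 3), (3, 0), (3, 1), (3, 3)], [(0, 3)], [5], [(4, 3, [0]), (5,
      0, [3])]⟩,
    ⟨[(1, 3), (2, 3), (3, 4)], [(3, 0), (3, 1), (3, 3), (4, 0)], [(0, 0)], [4], [(5, 0,
      [3]), (6, 0, [3])]⟩,
    ⟨[(3, 5)], [(3, 0), (4, 0), (5, 0)], [], [4, 6], [(5, 0, [3])]⟩]
  Ta := [((2, 1), 1, 4), ((2, 4), 1, 3), ((3, 0), 1, 2), ((3, 6), 1, 0), ((5, 7), 0, 5), ((5, 8),
    0, 6), ((6, 1), 0, 4), ((6, 3), 0, 1)]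
  Tb := [((0, 1, 3), 2, 4, 1), ((1, 0, 2), 4, 2, 1), ((1, 0, 6), 4, 2, 0), ((1, 0, 8), 4, 2, 6),
    ((1, 2, 6), 4, 1, 0), ((1, 2, 8), 4, 1, 6), ((1, 6, 8), 4, 0, 6), ((2, 1, 4), 1, 4, 3),
    ((3, 0, 6), 1, 2, 0), ((4, 2, 7), 3, 1, 5), ((5, 7, 8), 0, 5, 6), ((6, 1, 3), 0, 4, 1),
    ((7, 4, 5), 5, 3, 0), ((8, 1, 5), 6, 4, 0)]
  Tc := []
  Td := [((0, 3), (5, 7), 5), ((0, 3), (5, 8), 6), ((0, 3), (6, 1), 4), ((0, 3), (6, 3), 1), ((3,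
    0), (4, 2), 1), ((3, 0), (4, 7), 5)]
  G := [[0, 0, 0xa8e8641a2a2a81c62244e462e4e644a1cc, 0, 0xca62e2c6ac6aea6c8e181], [0, 0,
    0xe22e2e26c1e2881c2, 0xe2e2a86ae26c211, 0xe2e2ae286a6c211], [0, 0,
    0x1218ca816181412c641a14c, 0, 0x681c81618621181214ec189], [0, 0x184182618ca6186412a49,
    0xe21441212a81c2, 0x621a81c211212a12126c215, 0xe21621c11121264283]]

noncomputable def n2944 : Ent := ⟨e2944, noF, [], [], [(14, 15, [360035742630636841211993100915356868655746945586763691019726849, 0])]⟩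

def c2944 : PLift (Cov.check n2944.C.D v2944 = true) := ⟨by decide +kernel⟩

def b2944 : PLift (entF (fidx ts) 400 2944 n2944 = true) := ⟨by decide +kernel⟩

theorem g2944 : GoodF (fidx ts) 400 2944 := GoodF.ofV v2944 n2944 c2944.down b2944.down

/-- 4648454:2314/6 -/
noncomputable def e2945 : SCfg where
  D := {
    a := 7
    L := 9
    kp := 6
    inn := [(0, 1), (1, 0), (1, 2), (1, 3), (2, 1), (2, 3), (3, 1), (3, 2), (3, 4), (3, 5), (4, 3), (5,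
      3), (5, 6), (6, 5)]
    mix := [(0, 0), (0, 1), (0, 2), (1, 0), (1, 2), (1, 3), (2, 2), (2, 4), (3, 3), (3, 4), (3, 5), (3,
      6), (4, 4), (4, 5), (4, 7), (5, 5), (5, 6), (5, 8), (6, 5), (6, 7), (6, 8)]
    cl := [2, 6, 1, 1, 3, 0, 0, 4, 5]
    chq := [(0, 3), (3, 0)]
    rng := [(0, 1), (0, 3), (1, 0), (1, 2), (2, 1), (2, 4), (3, 0), (3, 6), (4, 2), (4, 7), (5, 7), (6,
      3), (6, 8), (7, 4), (7, 5), (7, 8), (8, 6), (8, 7)]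
    lev := [] }
  links := [[1, 7, 8, 9], [7, 0, 9, 2, 3, 10], [3, 1, 9, 11], [10, 1, 2, 11, 4, 12, 5, 13], [12, 3, 11,
    14], [13, 3, 12, 6, 15], [15, 5, 12, 14]]
  P := {
    a := 7
    N := 16
    nb := [898, 1677, 2570, 15414, 22536, 45128, 53280, 1283, 641, 2311, 8330, 16924, 16504, 33832,
      38992, 24672]
    tri := [(0, 1, 7), (0, 1, 9), (0, 7, 8), (0, 8, 9), (1, 2, 3), (1, 2, 9), (1, 3, 10), (1, 7, 10),
      (2, 3, 11), (2, 9, 11), (3, 4, 11), (3, 4, 12), (3, 5, 12), (3, 5, 13), (3, 10, 13), (4, 11,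
      14), (4, 12, 14), (5, 6, 12), (5, 6, 15), (5, 13, 15), (6, 12, 14), (6, 14, 15)]
    fin := [0, 0, 2, 2, 4, 5, 6, 0, 8, 2, 2, 4, 5, 5, 6, 15]
    chd := [(4, 5)]
    steps := [(0, 1), (0, 7), (2, 3), (2, 9), (2, 10), (4, 11), (5, 12), (5, 13), (6, 14)] }
  rep := [5, 2, 0, 4, 6, 15, 8]

noncomputable def v2945 : Cov.CovD where
  P := 3
  N := 4
  pl := [0, 1, 7, 8]
  lev := [⟨[], [], [], [2, 6], [(2, 1, [])]⟩,
    ⟨[], [(0, 1)], [(1, 1)], [2], [(2, 1, []), (3, 1, [])]⟩,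
    ⟨[(0, 1)], [(0, 1), (1, 1), (1, 3)], [(1, 3)], [], [(2, 1, []), (4, 3, [0])]⟩,
    ⟨[(0, 1), (1, 2)], [(1, 0), (1, 1), (1, 3), (2, 0), (2, 1), (2, 3)], [(0, 0), (0, 1),
      (0, 3), (1, 3)], [], [(3, 1, []), (4, 3, [0]), (5, 0, [3]), (6, 0, [3])]⟩,
    ⟨[(1, 3), (2, 3)], [(2, 3), (3, 0), (3, 1), (3, 3)], [(0, 3)], [4], [(4, 3, [0]), (5,
      0, [3])]⟩,
    ⟨[(1, 3), (2, 3), (3, 4)], [(3, 0), (3, 1), (3, 3), (4, 0)], [(0, 0)], [5], [(5, 0,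
      [3]), (6, 0, [3])]⟩,
    ⟨[(3, 5)], [(3, 0), (4, 0), (5, 0)], [], [4, 5], [(5, 0, [3])]⟩]
  Ta := [((2, 1), 1, 6), ((2, 4), 1, 3), ((3, 0), 1, 2), ((3, 6), 1, 0), ((5, 7), 0, 4), ((6, 3),
    0, 1), ((6, 8), 0, 5)]
  Tb := [((0, 1, 3), 2, 6, 1), ((1, 0, 2), 6, 2, 1), ((2, 1, 4), 1, 6, 3), ((3, 0, 6), 1, 2, 0),
    ((4, 2, 7), 3, 1, 4), ((6, 3, 8), 0, 1, 5), ((7, 4, 5), 4, 3, 0), ((7, 4, 8), 4, 3, 5),
    ((7, 5, 8), 4, 0, 5), ((8, 6, 7), 5, 0, 4)]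
  Tc := []
  Td := [((0, 3), (5, 7), 4), ((0, 3), (6, 3), 1), ((0, 3), (6, 8), 5), ((3, 0), (4, 2), 1), ((3,
    0), (4, 7), 4)]
  G := [[0, 0, 0x8e642642ae82a284c4e14426282cc2a82ae84c44ce18c, 0,
    0x4262826884c8e4ea82c6491426282ae4a82ae84c8e189], [0, 0, 0xc4a8266418c6426a81c2,
    0xc86426ac4a82a6c21c86426ac4a8266c219, 0xc4a82a641486c26a8192], [0, 0,
    0x14182222fa6c161818642a914c82c5a14c, 0, 0x4448822ac22184c1a51ca6114a1266c189], [0,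
    0xc6a14a6c12681, 0x816126a1886a3c142, 0x12c486341a82c6c2118642aac6a1c145,
    0xca6114a82a6c182]]

noncomputable def n2945 : Ent := ⟨e2945, noF, [], [], [(8, 14, [385746751338780685620664494392815470296102193487288376384536577, 0]), (8, 15, [360035742630636841211993100915356868655746945586763691019726849, 0])]⟩

def c2945 : PLift (Cov.check n2945.C.D v2945 = true) := ⟨by decide +kernel⟩

def b2945 : PLift (entF (fidx ts) 400 2945 n2945 = true) := ⟨by decide +kernel⟩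

theorem g2945 : GoodF (fidx ts) 400 2945 := GoodF.ofV v2945 n2945 c2945.down b2945.down

/-- 4648454:2314 -/
noncomputable def e2946 : SCfg where
  D := {
    a := 7
    L := 10
    kp := 7
    inn := [(0, 1), (1, 0), (1, 2), (1, 3), (2, 1), (2, 3), (3, 1), (3, 2), (3, 4), (3, 5), (4, 3), (5,
      3), (5, 6), (6, 5)]
    mix := [(0, 0), (0, 1), (0, 2), (1, 0), (1, 2), (1, 3), (2, 2), (2, 4), (3, 3), (3, 4), (3, 5), (3,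
      6), (4, 4), (4, 5), (4, 7), (5, 5), (5, 6), (5, 8), (6, 5), (6, 8), (6, 9)]
    cl := [2, 5, 1, 1, 3, 0, 0, 6, 4, 7]
    chq := [(0, 3), (3, 0)]
    rng := [(0, 1), (0, 3), (1, 0), (1, 2), (2, 1), (2, 4), (3, 0), (3, 6), (4, 2), (4, 7), (5, 7), (5,
      9), (6, 3), (6, 8), (7, 4), (7, 5), (8, 6), (8, 9), (9, 5), (9, 8)]
    lev := [] }
  links := [[1, 7, 8, 9], [7, 0, 9, 2, 3, 10], [3, 1, 9, 11], [10, 1, 2, 11, 4, 12, 5, 13], [12, 3, 11,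
    14], [13, 3, 12, 6, 15], [15, 5, 12, 16]]
  P := {
    a := 7
    N := 17
    nb := [898, 1677, 2570, 15414, 22536, 45128, 102432, 1283, 641, 2311, 8330, 16924, 82040, 33832,
      6160, 73824, 36928]
    tri := [(0, 1, 7), (0, 1, 9), (0, 7, 8), (0, 8, 9), (1, 2, 3), (1, 2, 9), (1, 3, 10), (1, 7, 10),
      (2, 3, 11), (2, 9, 11), (3, 4, 11), (3, 4, 12), (3, 5, 12), (3, 5, 13), (3, 10, 13), (4, 11,
      14), (4, 12, 14), (5, 6, 12), (5, 6, 15), (5, 13, 15), (6, 12, 16), (6, 15, 16)]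
    fin := [0, 0, 2, 2, 4, 5, 5, 0, 8, 2, 2, 4, 5, 5, 14, 15, 16]
    chd := [(4, 5)]
    steps := [(0, 1), (0, 7), (2, 3), (2, 9), (2, 10), (4, 11), (5, 6), (5, 12), (5, 13)] }
  rep := [5, 2, 0, 4, 15, 8, 14, 16]

noncomputable def v2946 : Cov.CovD where
  P := 3
  N := 5
  pl := [0, 1, 7, 8, 9]
  lev := [⟨[], [], [], [2, 5], [(2, 1, [])]⟩,
    ⟨[], [(0, 1)], [(1, 1)], [2], [(2, 1, []), (3, 1, [])]⟩,
    ⟨[(0, 1)], [(0, 1), (1, 1), (1, 3)], [(1, 3)], [], [(2, 1, []), (4, 3, [0])]⟩,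
    ⟨[(0, 1), (1, 2)], [(1, 0), (1, 1), (1, 3), (2, 0), (2, 1), (2, 3)], [(0, 0), (0, 1),
      (0, 3), (1, 3)], [], [(3, 1, []), (4, 3, [0]), (5, 0, [3]), (6, 0, [3])]⟩,
    ⟨[(1, 3), (2, 3)], [(2, 3), (3, 0), (3, 1), (3, 3)], [(0, 3)], [6], [(4, 3, [0]), (5,
      0, [3])]⟩,
    ⟨[(1, 3), (2, 3), (3, 4)], [(3, 0), (3, 1), (3, 3), (4, 0)], [(0, 0)], [4], [(5, 0,
      [3]), (6, 0, [3])]⟩,
    ⟨[(3, 5)], [(3, 0), (4, 0), (5, 0)], [], [4, 7], [(5, 0, [3])]⟩]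
  Ta := [((2, 1), 1, 5), ((2, 4), 1, 3), ((3, 0), 1, 2), ((3, 6), 1, 0), ((5, 7), 0, 6), ((5, 9),
    0, 7), ((6, 3), 0, 1), ((6, 8), 0, 4)]
  Tb := [((0, 1, 3), 2, 5, 1), ((1, 0, 2), 5, 2, 1), ((2, 1, 4), 1, 5, 3), ((3, 0, 6), 1, 2, 0),
    ((4, 2, 7), 3, 1, 6), ((5, 7, 9), 0, 6, 7), ((6, 3, 8), 0, 1, 4), ((7, 4, 5), 6, 3, 0),
    ((8, 6, 9), 4, 0, 7), ((9, 5, 8), 7, 0, 4)]
  Tc := []
  Td := [((0, 3), (5, 7), 6), ((0, 3), (5, 9), 7), ((0, 3), (6, 3), 1), ((0, 3), (6, 8), 4), ((3,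
    0), (4, 2), 1), ((3, 0), (4, 7), 6)]
  G := [[0, 0, 0xc6ac6a641ca6ca6a81cc6ac6a641ca6ca6a81cc, 0,
    0xc6ac6a641ca628ca68899ca62c6ac6ac6aea6c8e189], [0, 0, 0xc6ac6a641ca6ca6a81c2,
    0xca6ca6ac6ac6a6c21c6ac6a641ca6ca6a81cc, 0xca62c6ac6a6c1ca688192], [0, 0,
    0x1a616aca6c1a14ca6111a11ca27c18c, 0, 0xc1a16aca6c161818c6a941412ca678589], [0,
    0xa6c12c6a14c81, 0xca6116a16a6c182, 0xc1a24ca6116a4c61c1616aac6a1c149,
    0xca61c1a16a6c182]]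

noncomputable def n2946 : Ent := ⟨e2946, noF, [], [], [(8, 14, [1685382413448253767852309107433119732572617628602273068445376958465, 0]), (8, 16, [1580044410770988437309982408355971841652082177953823432505701163009, 0]), (8, 15, [1685356702439545624007900436039642273970977273354372543760012148737, 0]), (14, 16, [1580044410770988437309982408355971841652082177953823432505701175297, 0])]⟩

def c2946 : PLift (Cov.check n2946.C.D v2946 = true) := ⟨by decide +kernel⟩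

def b2946 : PLift (entF (fidx ts) 400 2946 n2946 = true) := ⟨by decide +kernel⟩

theorem g2946 : GoodF (fidx ts) 400 2946 := GoodF.ofV v2946 n2946 c2946.down b2946.down

/-- 4649464:2316/1 -/
noncomputable def e2947 : SCfg where
  D := {
    a := 7
    L := 9
    kp := 6
    inn := [(0, 1), (1, 0), (1, 2), (1, 3), (1, 6), (2, 1), (2, 3), (3, 1), (3, 2), (3, 4), (3, 5), (3,
      6), (4, 3), (4, 5), (5, 3), (5, 4), (6, 1), (6, 3)]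
    mix := [(0, 0), (0, 1), (0, 2), (1, 0), (1, 2), (2, 2), (2, 3), (3, 3), (3, 4), (3, 5), (3, 6), (4,
      1), (4, 3), (5, 1), (5, 4), (5, 7), (5, 8), (6, 0), (6, 6)]
    cl := [3, 0, 2, 1, 0, 4, 1, 5, 6]
    chq := [(2, 3), (3, 2)]
    rng := [(0, 1), (0, 6), (1, 0), (1, 2), (1, 3), (1, 7), (2, 1), (2, 3), (3, 1), (3, 2), (4, 5), (4,
      8), (5, 4), (5, 6), (6, 0), (6, 5), (7, 1), (7, 8), (8, 4), (8, 7)]
    lev := [] }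
  links := [[1, 7, 8, 9], [7, 0, 9, 2, 3, 6], [3, 1, 9, 10], [6, 1, 2, 10, 4, 5, 11, 12, 13], [5, 3, 10,
    8], [11, 3, 4, 8, 14, 15], [7, 1, 3, 13]]
  P := {
    a := 7
    N := 16
    nb := [898, 717, 1546, 15478, 1320, 51480, 8330, 8515, 18097, 1287, 796, 36904, 10248, 4296,
      33056, 18464]
    tri := [(0, 1, 7), (0, 1, 9), (0, 7, 8), (0, 8, 9), (1, 2, 3), (1, 2, 9), (1, 3, 6), (1, 6, 7), (2,
      3, 10), (2, 9, 10), (3, 4, 5), (3, 4, 10), (3, 5, 11), (3, 6, 13), (3, 11, 12), (3, 12, 13),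
      (4, 5, 8), (4, 8, 10), (5, 8, 14), (5, 11, 15), (5, 14, 15), (6, 7, 13)]
    fin := [0, 0, 0, 3, 4, 4, 0, 0, 4, 9, 3, 4, 12, 3, 14, 15]
    chd := [(0, 9)]
    steps := [(0, 1), (0, 2), (0, 6), (0, 7), (3, 10), (3, 13), (4, 5), (4, 8), (4, 11)] }
  rep := [4, 3, 9, 0, 12, 14, 15]

noncomputable def v2947 : Cov.CovD where
  P := 3
  N := 4
  pl := [5, 7, 8]
  lev := [⟨[], [], [(0, 2), (0, 3), (2, 3)], [], [(0, 3, [2]), (1, 0, []), (2, 2, [3])]⟩,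
    ⟨[], [(0, 0), (0, 2), (0, 3)], [(2, 3)], [], [(0, 3, [2]), (2, 2, [3])]⟩,
    ⟨[(0, 1)], [(0, 2), (1, 1), (1, 2), (1, 3)], [(1, 2)], [], [(2, 2, [3]), (3, 1, [])]⟩,
    ⟨[(0, 1), (1, 2)], [(1, 0), (1, 1), (1, 2), (1, 3), (2, 0), (2, 1), (2, 2)], [(0, 1),
      (1, 1)], [4], [(3, 1, []), (4, 0, []), (6, 1, [])]⟩,
    ⟨[(1, 3), (2, 3)], [(0, 0), (2, 1), (3, 0), (3, 1)], [(0, 1)], [], [(1, 0, []), (3, 1,
      [])]⟩,
    ⟨[(1, 3), (2, 3), (3, 4)], [(0, 0), (3, 0), (3, 1), (4, 0), (4, 1)], [(0, 0)], [5, 6],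
      [(1, 0, []), (4, 0, [])]⟩,
    ⟨[(0, 1), (1, 2), (1, 3), (2, 3), (3, 4), (3, 5)], [(0, 3), (1, 1), (1, 2), (1, 3), (3,
      0), (3, 1), (3, 3)], [(1, 3)], [], [(0, 3, [2]), (6, 1, [])]⟩]
  Ta := [((1, 0), 0, 3), ((1, 2), 0, 2), ((1, 3), 0, 1), ((1, 7), 0, 5), ((3, 1), 1, 0), ((3, 2),
    1, 2), ((4, 5), 0, 4), ((4, 8), 0, 6), ((6, 0), 1, 3), ((6, 5), 1, 4)]
  Tb := [((0, 1, 6), 3, 0, 1), ((1, 0, 2), 0, 3, 2), ((1, 0, 3), 0, 3, 1), ((1, 0, 7), 0, 3, 5),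
    ((1, 2, 3), 0, 2, 1), ((1, 2, 7), 0, 2, 5), ((1, 3, 7), 0, 1, 5), ((2, 1, 3), 2, 0, 1),
    ((3, 1, 2), 1, 0, 2), ((4, 5, 8), 0, 4, 6), ((5, 4, 6), 4, 0, 1), ((6, 0, 5), 1, 3, 4),
    ((7, 1, 8), 5, 0, 6), ((8, 4, 7), 6, 0, 5)]
  Tc := []
  Td := [((2, 3), (2, 1), 0), ((2, 3), (2, 3), 1), ((3, 2), (0, 1), 0), ((3, 2), (0, 6), 1)]
  G := [[0, 0x24482a8888e4e41422e4444e4a41c, 0xccce81422, 0x222e8148222e8184c, 0x444e81822], [0,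
    0, 0x888e81441164111e8c1828c2a, 0, 0x444e4128444e8182a], [0, 0, 0,
    0x121e1841214e14124e18c12411ac488d, 0x242e4222e1c112], [0, 0, 0, 0,
    0x448e488a845c111464111e8c482892a]]

noncomputable def n2947 : Ent := ⟨e2947, noF, [], [], []⟩

def c2947 : PLift (Cov.check n2947.C.D v2947 = true) := ⟨by decide +kernel⟩

def b2947 : PLift (entF (fidx ts) 400 2947 n2947 = true) := ⟨by decide +kernel⟩

theorem g2947 : GoodF (fidx ts) 400 2947 := GoodF.ofV v2947 n2947 c2947.down b2947.down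

/-- 4649464:2316/2 -/
noncomputable def e2948 : SCfg where
  D := {
    a := 7
    L := 9
    kp := 6
    inn := [(0, 1), (1, 0), (1, 2), (1, 3), (1, 6), (2, 1), (2, 3), (3, 1), (3, 2), (3, 4), (3, 5), (3,
      6), (4, 3), (4, 5), (5, 3), (5, 4), (6, 1), (6, 3)]
    mix := [(0, 0), (0, 1), (0, 2), (1, 0), (1, 2), (2, 2), (2, 3), (3, 3), (3, 4), (3, 5), (3, 6), (4,
      3), (4, 7), (5, 1), (5, 4), (5, 7), (5, 8), (6, 0), (6, 6)]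
    cl := [3, 2, 4, 0, 1, 5, 0, 1, 6]
    chq := [(3, 4), (4, 3)]
    rng := [(0, 1), (0, 6), (1, 0), (1, 2), (1, 7), (1, 8), (2, 1), (2, 3), (3, 2), (3, 7), (4, 5), (4,
      8), (5, 4), (5, 6), (6, 0), (6, 5), (7, 1), (7, 3), (8, 1), (8, 4)]
    lev := [] }
  links := [[1, 7, 8, 9], [7, 0, 9, 2, 3, 6], [3, 1, 9, 10], [6, 1, 2, 10, 4, 5, 11, 12, 13], [5, 3, 10,
    14], [11, 3, 4, 14, 8, 15], [7, 1, 3, 13]]
  P := {
    a := 7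
    N := 16
    nb := [898, 717, 1546, 15478, 17448, 51480, 8330, 8515, 49825, 1287, 16924, 36904, 10248, 4296,
      1328, 2336]
    tri := [(0, 1, 7), (0, 1, 9), (0, 7, 8), (0, 8, 9), (1, 2, 3), (1, 2, 9), (1, 3, 6), (1, 6, 7), (2,
      3, 10), (2, 9, 10), (3, 4, 5), (3, 4, 10), (3, 5, 11), (3, 6, 13), (3, 11, 12), (3, 12, 13),
      (4, 5, 14), (4, 10, 14), (5, 8, 14), (5, 8, 15), (5, 11, 15), (6, 7, 13)]
    fin := [0, 0, 0, 3, 3, 5, 0, 0, 8, 9, 3, 5, 12, 3, 5, 15]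
    chd := [(0, 9)]
    steps := [(0, 1), (0, 2), (0, 6), (0, 7), (3, 4), (3, 10), (3, 13), (5, 14), (5, 11)] }
  rep := [3, 5, 8, 0, 9, 12, 15]

noncomputable def v2948 : Cov.CovD where
  P := 3
  N := 4
  pl := [1, 5, 8]
  lev := [⟨[], [], [(3, 4)], [2], [(0, 3, [4]), (2, 4, [3])]⟩,
    ⟨[], [(0, 3), (0, 4)], [(3, 4)], [], [(0, 3, [4]), (2, 4, [3])]⟩,
    ⟨[(0, 1)], [(0, 4), (1, 0), (1, 3), (1, 4)], [(0, 4)], [], [(2, 4, [3]), (3, 0, [])]⟩,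
    ⟨[(0, 1), (1, 2)], [(1, 0), (1, 1), (1, 3), (1, 4), (2, 0), (2, 1), (2, 4)], [(0, 0),
      (0, 1)], [5], [(3, 0, []), (4, 1, []), (6, 0, [])]⟩,
    ⟨[(1, 3), (2, 3)], [(2, 0), (3, 0), (3, 1)], [(0, 1)], [], [(3, 0, []), (7, 1, [])]⟩,
    ⟨[(1, 3), (2, 3), (3, 4)], [(3, 0), (3, 1), (4, 0), (4, 1)], [(1, 1)], [2, 6], [(4, 1,
      []), (7, 1, [])]⟩,
    ⟨[(0, 1), (1, 2), (1, 3), (2, 3), (3, 4), (3, 5)], [(0, 3), (1, 0), (1, 3), (1, 4), (3,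
      0), (3, 1), (3, 3)], [(0, 3)], [], [(0, 3, [4]), (6, 0, [])]⟩]
  Ta := [((3, 2), 0, 4), ((3, 7), 0, 1), ((4, 5), 1, 5), ((4, 8), 1, 6), ((6, 0), 0, 3), ((6, 5),
    0, 5), ((7, 1), 1, 2), ((7, 3), 1, 0)]
  Tb := [((0, 1, 6), 3, 2, 0), ((1, 0, 2), 2, 3, 4), ((1, 0, 7), 2, 3, 1), ((1, 0, 8), 2, 3, 6),
    ((1, 2, 7), 2, 4, 1), ((1, 2, 8), 2, 4, 6), ((1, 7, 8), 2, 1, 6), ((2, 1, 3), 4, 2, 0),
    ((3, 2, 7), 0, 4, 1), ((4, 5, 8), 1, 5, 6), ((5, 4, 6), 5, 1, 0), ((6, 0, 5), 0, 3, 5),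
    ((7, 1, 3), 1, 2, 0), ((8, 1, 4), 6, 2, 1)]
  Tc := []
  Td := [((3, 4), (0, 1), 2), ((3, 4), (0, 6), 0), ((4, 3), (2, 1), 2), ((4, 3), (2, 3), 0)]
  G := [[0, 0, 0x64488c2c28284828e122c8444c4848c24e122c422c2c21e, 0,
    0x119842449282c4492411948c2482422948a92c44948e1b], [0, 0x22c844c2688c2288c24e11,
    0x88c828144c424144c8288c42c1e, 0x115424811c428444c4288582c1d,
    0x119424811942444498288942c1b], [0, 0, 0x88c1428c4844c18e142c2444c1848c84e122c428245c21e,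
    0, 0x22948229245444948894c1222922292c44944498c61b], [0, 0, 0x88c828144c124122c122c8c21e,
    0x44c4218889421444c8288c12c1d, 0x449421888982444494288982c1b]]

noncomputable def n2948 : Ent := ⟨e2948, noF, [], [], []⟩

def c2948 : PLift (Cov.check n2948.C.D v2948 = true) := ⟨by decide +kernel⟩

def b2948 : PLift (entF (fidx ts) 400 2948 n2948 = true) := ⟨by decide +kernel⟩

theorem g2948 : GoodF (fidx ts) 400 2948 := GoodF.ofV v2948 n2948 c2948.down b2948.down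

/-- 4649464:2316/3 -/
noncomputable def e2949 : SCfg where
  D := {
    a := 7
    L := 9
    kp := 6
    inn := [(0, 1), (1, 0), (1, 2), (1, 3), (1, 6), (2, 1), (2, 3), (3, 1), (3, 2), (3, 4), (3, 5), (3,
      6), (4, 3), (4, 5), (5, 3), (5, 4), (6, 1), (6, 3)]
    mix := [(0, 0), (0, 1), (0, 2), (1, 0), (1, 2), (2, 2), (2, 3), (3, 3), (3, 4), (3, 5), (3, 6), (4,
      3), (4, 7), (5, 1), (5, 4), (5, 7), (5, 8), (6, 0), (6, 6)]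
    cl := [3, 2, 4, 0, 1, 5, 0, 1, 6]
    chq := [(3, 4), (4, 3)]
    rng := [(0, 1), (0, 6), (1, 0), (1, 2), (1, 4), (1, 8), (2, 1), (2, 3), (3, 2), (3, 7), (4, 1), (4,
      5), (5, 4), (5, 6), (6, 0), (6, 5), (7, 3), (7, 8), (8, 1), (8, 7)]
    lev := [] }
  links := [[1, 7, 8, 9], [7, 0, 9, 2, 3, 6], [3, 1, 9, 10], [6, 1, 2, 10, 4, 5, 11, 12, 13], [5, 3, 10,
    14], [11, 3, 4, 14, 15, 8], [7, 1, 3, 13]]
  P := {
    a := 7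
    N := 16
    nb := [898, 717, 1546, 15478, 17448, 51480, 8330, 8515, 35489, 1287, 16924, 4392, 10248, 4296,
      33840, 16672]
    tri := [(0, 1, 7), (0, 1, 9), (0, 7, 8), (0, 8, 9), (1, 2, 3), (1, 2, 9), (1, 3, 6), (1, 6, 7), (2,
      3, 10), (2, 9, 10), (3, 4, 5), (3, 4, 10), (3, 5, 11), (3, 6, 13), (3, 11, 12), (3, 12, 13),
      (4, 5, 14), (4, 10, 14), (5, 8, 11), (5, 8, 15), (5, 14, 15), (6, 7, 13)]
    fin := [0, 0, 0, 3, 3, 5, 0, 0, 8, 9, 3, 5, 12, 3, 5, 15]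
    chd := [(0, 9)]
    steps := [(0, 1), (0, 2), (0, 6), (0, 7), (3, 4), (3, 10), (3, 13), (5, 14), (5, 11)] }
  rep := [3, 5, 8, 0, 9, 12, 15]

noncomputable def v2949 : Cov.CovD where
  P := 3
  N := 4
  pl := [1, 5, 8]
  lev := [⟨[], [], [(3, 4)], [2], [(0, 3, [4]), (2, 4, [3])]⟩,
    ⟨[], [(0, 3), (0, 4)], [(3, 4)], [], [(0, 3, [4]), (2, 4, [3])]⟩,
    ⟨[(0, 1)], [(0, 4), (1, 0), (1, 3), (1, 4)], [(0, 4)], [], [(2, 4, [3]), (3, 0, [])]⟩,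
    ⟨[(0, 1), (1, 2)], [(1, 0), (1, 1), (1, 3), (1, 4), (2, 0), (2, 1), (2, 4)], [(0, 0),
      (0, 1)], [5], [(3, 0, []), (4, 1, []), (6, 0, [])]⟩,
    ⟨[(1, 3), (2, 3)], [(2, 0), (3, 0), (3, 1)], [(0, 1)], [], [(3, 0, []), (7, 1, [])]⟩,
    ⟨[(1, 3), (2, 3), (3, 4)], [(3, 0), (3, 1), (4, 0), (4, 1)], [(1, 1)], [2, 6], [(4, 1,
      []), (7, 1, [])]⟩,
    ⟨[(0, 1), (1, 2), (1, 3), (2, 3), (3, 4), (3, 5)], [(0, 3), (1, 0), (1, 3), (1, 4), (3,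
      0), (3, 1), (3, 3)], [(0, 3)], [], [(0, 3, [4]), (6, 0, [])]⟩]
  Ta := [((3, 2), 0, 4), ((3, 7), 0, 1), ((4, 1), 1, 2), ((4, 5), 1, 5), ((6, 0), 0, 3), ((6, 5),
    0, 5), ((7, 3), 1, 0), ((7, 8), 1, 6)]
  Tb := [((0, 1, 6), 3, 2, 0), ((1, 0, 2), 2, 3, 4), ((1, 0, 4), 2, 3, 1), ((1, 0, 8), 2, 3, 6),
    ((1, 2, 4), 2, 4, 1), ((1, 2, 8), 2, 4, 6), ((1, 4, 8), 2, 1, 6), ((2, 1, 3), 4, 2, 0),
    ((3, 2, 7), 0, 4, 1), ((4, 1, 5), 1, 2, 5), ((5, 4, 6), 5, 1, 0), ((6, 0, 5), 0, 3, 5),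
    ((7, 3, 8), 1, 0, 6), ((8, 1, 7), 6, 2, 1)]
  Tc := []
  Td := [((3, 4), (0, 1), 2), ((3, 4), (0, 6), 0), ((4, 3), (2, 1), 2), ((4, 3), (2, 3), 0)]
  G := [[0, 0, 0x64288c2c28484828e1248444c4a82c8484e122c422c8c21e,
    0x115211c8c8242581192c42119411c2c22d, 0x149242449282c4198411928c22294aa98c4494861b], [0,
    0x2426ac8c68c48c8c82e11, 0x88c428144c424144c4288c42c1e, 0,
    0x119824811942844498288942c1b], [0, 0, 0x64288c1c28484828e122c1444c1848c14e122c422c2c21e,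
    0x44582458c1244c22892c4222c122c8c21d, 0x449241229484c4148a4492c122294aa92c4492861b], [0,
    0, 0x88c828144c424144c8288c42c1e, 0, 0x449821844944498c12cc98241b]]

noncomputable def n2949 : Ent := ⟨e2949, noF, [], [], []⟩

def c2949 : PLift (Cov.check n2949.C.D v2949 = true) := ⟨by decide +kernel⟩

def b2949 : PLift (entF (fidx ts) 400 2949 n2949 = true) := ⟨by decide +kernel⟩

theorem g2949 : GoodF (fidx ts) 400 2949 := GoodF.ofV v2949 n2949 c2949.down b2949.down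

/-- 4649464:2316 -/
noncomputable def e2950 : SCfg where
  D := {
    a := 7
    L := 10
    kp := 7
    inn := [(0, 1), (1, 0), (1, 2), (1, 3), (1, 6), (2, 1), (2, 3), (3, 1), (3, 2), (3, 4), (3, 5), (3,
      6), (4, 3), (4, 5), (5, 3), (5, 4), (6, 1), (6, 3)]
    mix := [(0, 0), (0, 1), (0, 2), (1, 0), (1, 2), (2, 2), (2, 3), (3, 3), (3, 4), (3, 5), (3, 6), (4,
      3), (4, 7), (5, 4), (5, 7), (5, 8), (5, 9), (6, 0), (6, 6)]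
    cl := [3, 4, 2, 0, 1, 5, 0, 1, 6, 7]
    chq := [(2, 3), (3, 2)]
    rng := [(0, 1), (0, 6), (1, 0), (1, 2), (2, 1), (2, 3), (3, 2), (3, 7), (4, 5), (4, 9), (5, 4), (5,
      6), (6, 0), (6, 5), (7, 3), (7, 8), (8, 7), (8, 9), (9, 4), (9, 8)]
    lev := [] }
  links := [[1, 7, 8, 9], [7, 0, 9, 2, 3, 6], [3, 1, 9, 10], [6, 1, 2, 10, 4, 5, 11, 12, 13], [5, 3, 10,
    14], [11, 3, 4, 14, 15, 16], [7, 1, 3, 13]]
  P := {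
    a := 7
    N := 17
    nb := [898, 717, 1546, 15478, 17448, 116760, 8330, 8515, 641, 1287, 16924, 69672, 10248, 4296,
      33840, 81952, 34848]
    tri := [(0, 1, 7), (0, 1, 9), (0, 7, 8), (0, 8, 9), (1, 2, 3), (1, 2, 9), (1, 3, 6), (1, 6, 7), (2,
      3, 10), (2, 9, 10), (3, 4, 5), (3, 4, 10), (3, 5, 11), (3, 6, 13), (3, 11, 12), (3, 12, 13),
      (4, 5, 14), (4, 10, 14), (5, 11, 16), (5, 14, 15), (5, 15, 16), (6, 7, 13)]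
    fin := [0, 0, 0, 3, 3, 5, 0, 0, 8, 9, 3, 5, 12, 3, 5, 15, 16]
    chd := [(0, 9)]
    steps := [(0, 1), (0, 2), (0, 6), (0, 7), (3, 4), (3, 10), (3, 13), (5, 14), (5, 11)] }
  rep := [3, 5, 9, 0, 8, 12, 15, 16]

noncomputable def v2950 : Cov.CovD where
  P := 3
  N := 5
  pl := [1, 5, 8, 9]
  lev := [⟨[], [], [(2, 3)], [4], [(0, 3, [2]), (2, 2, [3])]⟩,
    ⟨[], [(0, 2), (0, 3)], [(2, 3)], [], [(0, 3, [2]), (2, 2, [3])]⟩,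
    ⟨[(0, 1)], [(0, 2), (1, 0), (1, 2), (1, 3)], [(0, 2)], [], [(2, 2, [3]), (3, 0, [])]⟩,
    ⟨[(0, 1), (1, 2)], [(1, 0), (1, 1), (1, 2), (1, 3), (2, 0), (2, 1), (2, 2)], [(0, 0),
      (0, 1)], [5], [(3, 0, []), (4, 1, []), (6, 0, [])]⟩,
    ⟨[(1, 3), (2, 3)], [(2, 0), (3, 0), (3, 1)], [(0, 1)], [], [(3, 0, []), (7, 1, [])]⟩,
    ⟨[(1, 3), (2, 3), (3, 4)], [(3, 0), (3, 1), (4, 0), (4, 1)], [(1, 1)], [6, 7], [(4, 1,
      []), (7, 1, [])]⟩,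
    ⟨[(0, 1), (1, 2), (1, 3), (2, 3), (3, 4), (3, 5)], [(0, 3), (1, 0), (1, 2), (1, 3), (3,
      0), (3, 1), (3, 3)], [(0, 3)], [], [(0, 3, [2]), (6, 0, [])]⟩]
  Ta := [((3, 2), 0, 2), ((3, 7), 0, 1), ((4, 5), 1, 5), ((4, 9), 1, 7), ((6, 0), 0, 3), ((6, 5),
    0, 5), ((7, 3), 1, 0), ((7, 8), 1, 6)]
  Tb := [((0, 1, 6), 3, 4, 0), ((1, 0, 2), 4, 3, 2), ((2, 1, 3), 2, 4, 0), ((3, 2, 7), 0, 2, 1),
    ((4, 5, 9), 1, 5, 7), ((5, 4, 6), 5, 1, 0), ((6, 0, 5), 0, 3, 5), ((7, 3, 8), 1, 0, 6),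
    ((8, 7, 9), 6, 1, 7), ((9, 4, 8), 7, 1, 6)]
  Tc := []
  Td := [((2, 3), (2, 1), 4), ((2, 3), (2, 3), 0), ((3, 2), (0, 1), 4), ((3, 2), (0, 6), 0)]
  G := [[0, 0, 0x11914642444d482288d484e114d848111d482124d248e115414119cc1848c2e,
    0x2252282d8c2848c12484222d42292cc12254222d2c2828c1d,
    0x444d4888d8c211454111d2c828482344548a4a4d8c21b], [0,
    0x282e2828e8a41226411c2a822a24452264222e8284e81d, 0x111d8248111d4284181d824411d828ce,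
    0x888d8241111d8284cccd8281d, 0x488d4281444d8281444d8281b], [0, 0, 0,
    0x222d24122528c81225482818cd428d8412252828489424d848d222d84222d48c1d,
    0x44548a484d8c2888d844454898a3444d4484d8c1242483444d4aacd2c21b], [0, 0, 0,
    0x884d421888d428544944528444d8249cccd4241d, 0x444d8218848d821444d42894144c5281b]]

noncomputable def n2950 : Ent := ⟨e2950, noF, [], [], [(8, 14, [1685382413448253767852309107433119732572617628602273068445376983041, 0]), (8, 15, [1685356702439545624007900436039642273970977273354372543760012165121, 0]), (8, 16, [1580044410770988437309982408355971841652082177953823432505701191681, 0])]⟩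

def c2950 : PLift (Cov.check n2950.C.D v2950 = true) := ⟨by decide +kernel⟩

def b2950 : PLift (entF (fidx ts) 400 2950 n2950 = true) := ⟨by decide +kernel⟩

theorem g2950 : GoodF (fidx ts) 400 2950 := GoodF.ofV v2950 n2950 c2950.down b2950.down

/-- 4649444:2317/1 -/
noncomputable def e2951 : SCfg where
  D := {
    a := 7
    L := 8
    kp := 6
    inn := [(0, 1), (1, 0), (1, 2), (1, 3), (1, 6), (2, 1), (2, 3), (3, 1), (3, 2), (3, 4), (3, 5), (3,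
      6), (4, 3), (5, 3), (6, 1), (6, 3)]
    mix := [(0, 0), (0, 1), (0, 2), (1, 0), (1, 2), (2, 2), (2, 3), (3, 3), (3, 4), (3, 5), (3, 6), (4,
      1), (4, 3), (4, 4), (5, 4), (5, 5), (5, 7), (6, 0), (6, 6)]
    cl := [3, 5, 1, 0, 4, 0, 2, 6]
    chq := [(0, 4), (1, 2), (1, 3), (2, 1), (3, 1), (4, 0)]
    rng := [(0, 1), (0, 6), (1, 0), (1, 2), (1, 3), (1, 4), (2, 1), (2, 3), (3, 1), (3, 2), (4, 1), (4,
      7), (5, 6), (5, 7), (6, 0), (6, 5), (7, 4), (7, 5)]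
    lev := [] }
  links := [[1, 7, 8, 9], [7, 0, 9, 2, 3, 6], [3, 1, 9, 10], [6, 1, 2, 10, 4, 11, 5, 12, 13], [11, 3, 10,
    8], [12, 3, 11, 14], [7, 1, 3, 13]]
  P := {
    a := 7
    N := 15
    nb := [898, 717, 1546, 15478, 3336, 22536, 8330, 8515, 3729, 1287, 796, 16696, 24616, 4296, 6176]
    tri := [(0, 1, 7), (0, 1, 9), (0, 7, 8), (0, 8, 9), (1, 2, 3), (1, 2, 9), (1, 3, 6), (1, 6, 7), (2,
      3, 10), (2, 9, 10), (3, 4, 10), (3, 4, 11), (3, 5, 11), (3, 5, 12), (3, 6, 13), (3, 12, 13),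
      (4, 8, 10), (4, 8, 11), (5, 11, 14), (5, 12, 14), (6, 7, 13)]
    fin := [0, 1, 1, 3, 4, 3, 1, 0, 4, 1, 3, 11, 3, 13, 14]
    chd := [(0, 1), (1, 13), (3, 11)]
    steps := [(0, 7), (1, 2), (1, 6), (1, 9), (3, 5), (3, 10), (3, 12), (4, 8)] }
  rep := [3, 1, 13, 0, 11, 4, 14]

noncomputable def v2951 : Cov.CovD where
  P := 3
  N := 4
  pl := [1, 7]
  lev := [⟨[], [], [(1, 3)], [5], [(0, 3, [1]), (2, 1, [2, 3])]⟩,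
    ⟨[], [(0, 1), (0, 3)], [(1, 3)], [], [(0, 3, [1]), (2, 1, [2, 3])]⟩,
    ⟨[(0, 1)], [(0, 1), (1, 0), (1, 1), (1, 3)], [(0, 1)], [], [(2, 1, [2, 3]), (3, 0,
      [4])]⟩,
    ⟨[(0, 1), (1, 2)], [(1, 0), (1, 1), (1, 2), (1, 3), (1, 4), (2, 0), (2, 1), (2, 2), (2,
      4)], [(0, 0), (0, 2), (0, 4), (2, 4)], [], [(3, 0, [4]), (4, 4, [0]), (5, 0, [4]), (6,
      2, [1])]⟩,
    ⟨[(1, 3), (2, 3)], [(2, 0), (3, 0), (3, 2), (3, 4)], [(0, 4)], [5], [(3, 0, [4]), (4,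
      4, [0])]⟩,
    ⟨[(1, 3), (2, 3), (3, 4)], [(3, 0), (3, 2), (3, 4), (4, 4)], [(0, 4)], [6], [(4, 4,
      [0]), (5, 0, [4])]⟩,
    ⟨[(0, 1), (1, 2), (1, 3), (2, 3), (3, 4), (3, 5)], [(0, 3), (1, 1), (1, 2), (1, 3), (3,
      0), (3, 2), (3, 3), (3, 4)], [(2, 3)], [], [(0, 3, [1]), (6, 2, [1])]⟩]
  Ta := [((3, 1), 0, 5), ((3, 2), 0, 1), ((5, 6), 0, 2), ((5, 7), 0, 6)]
  Tb := [((0, 1, 6), 3, 5, 2), ((1, 0, 2), 5, 3, 1), ((1, 0, 3), 5, 3, 0), ((1, 0, 4), 5, 3, 4),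
    ((1, 2, 3), 5, 1, 0), ((1, 2, 4), 5, 1, 4), ((1, 3, 4), 5, 0, 4), ((2, 1, 3), 1, 5, 0),
    ((3, 1, 2), 0, 5, 1), ((4, 1, 7), 4, 5, 6), ((5, 6, 7), 0, 2, 6), ((6, 0, 5), 2, 3, 0),
    ((7, 4, 5), 6, 4, 0)]
  Tc := [(1, 2, 3)]
  Td := [((0, 4), (3, 1), 5), ((0, 4), (3, 2), 1), ((0, 4), (5, 6), 2), ((0, 4), (5, 7), 6), ((1,
    2), (2, 1), 5), ((1, 2), (2, 3), 0), ((1, 3), (2, 1), 5), ((1, 3), (2, 3), 0), ((2, 1),
    (6, 0), 3), ((2, 1), (6, 5), 0), ((3, 1), (0, 1), 5), ((3, 1), (0, 6), 2), ((4, 0), (4,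
    1), 5), ((4, 0), (4, 7), 6)]
  G := [[0, 0x111141e421128211882e11441128a118114c2a112111111ec82e, 0,
    0x2124212122ae8c11116641121a8c52,
    0x2142422388852a411884d22548992a84111d2282122cc21816a45d], [0, 0, 0x2261422a18c11,
    0x8862412222c38422624288e18cd2, 0x2262892861a4488a1228c4244a9411c12328222e12864a45d]]

noncomputable def n2951 : Ent := ⟨e2951, noF, [], [], []⟩

def c2951 : PLift (Cov.check n2951.C.D v2951 = true) := ⟨by decide +kernel⟩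

def b2951 : PLift (entF (fidx ts) 400 2951 n2951 = true) := ⟨by decide +kernel⟩

theorem g2951 : GoodF (fidx ts) 400 2951 := GoodF.ofV v2951 n2951 c2951.down b2951.down

/-- 4649444:2317/2 -/
noncomputable def e2952 : SCfg where
  D := {
    a := 7
    L := 8
    kp := 6
    inn := [(0, 1), (1, 0), (1, 2), (1, 3), (1, 6), (2, 1), (2, 3), (3, 1), (3, 2), (3, 4), (3, 5), (3,
      6), (4, 3), (5, 3), (6, 1), (6, 3)]
    mix := [(0, 0), (0, 1), (0, 2), (1, 0), (1, 2), (2, 2), (2, 3), (3, 3), (3, 4), (3, 5), (3, 6), (4,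
      3), (4, 4), (4, 7), (5, 1), (5, 4), (5, 5), (6, 0), (6, 6)]
    cl := [1, 2, 3, 0, 4, 5, 0, 6]
    chq := [(0, 2), (0, 4), (1, 3), (2, 0), (3, 1), (4, 0)]
    rng := [(0, 1), (0, 6), (1, 0), (1, 2), (1, 4), (1, 5), (2, 1), (2, 3), (3, 2), (3, 7), (4, 1), (4,
      7), (5, 1), (5, 6), (6, 0), (6, 5), (7, 3), (7, 4)]
    lev := [] }
  links := [[1, 7, 8, 9], [7, 0, 9, 2, 3, 6], [3, 1, 9, 10], [6, 1, 2, 10, 4, 11, 5, 12, 13], [11, 3, 10,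
    14], [12, 3, 11, 8], [7, 1, 3, 13]]
  P := {
    a := 7
    N := 15
    nb := [898, 717, 1546, 15478, 19464, 6408, 8330, 8515, 6817, 1287, 16924, 16696, 8488, 4296, 3088]
    tri := [(0, 1, 7), (0, 1, 9), (0, 7, 8), (0, 8, 9), (1, 2, 3), (1, 2, 9), (1, 3, 6), (1, 6, 7), (2,
      3, 10), (2, 9, 10), (3, 4, 10), (3, 4, 11), (3, 5, 11), (3, 5, 12), (3, 6, 13), (3, 12, 13),
      (4, 10, 14), (4, 11, 14), (5, 8, 11), (5, 8, 12), (6, 7, 13)]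
    fin := [0, 0, 0, 3, 3, 5, 0, 0, 5, 9, 3, 11, 12, 3, 14]
    chd := [(0, 9), (3, 11), (5, 3)]
    steps := [(0, 1), (0, 2), (0, 6), (0, 7), (3, 4), (3, 10), (3, 13), (5, 8)] }
  rep := [3, 0, 5, 9, 11, 12, 14]

noncomputable def v2952 : Cov.CovD where
  P := 3
  N := 4
  pl := [5, 7]
  lev := [⟨[], [], [(1, 2), (1, 3), (2, 3)], [], [(0, 1, [3]), (1, 2, [0]), (2, 3, [1])]⟩,
    ⟨[], [(0, 1), (0, 2), (0, 3)], [(1, 3)], [], [(0, 1, [3]), (2, 3, [1])]⟩,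
    ⟨[(0, 1)], [(0, 3), (1, 0), (1, 1), (1, 3)], [(0, 3)], [], [(2, 3, [1]), (3, 0, [2,
      4])]⟩,
    ⟨[(0, 1), (1, 2)], [(1, 0), (1, 1), (1, 3), (1, 4), (2, 0), (2, 3), (2, 4)], [(0, 0),
      (0, 4)], [5], [(3, 0, [2, 4]), (4, 4, [0]), (6, 0, [2, 4])]⟩,
    ⟨[(1, 3), (2, 3)], [(2, 0), (3, 0), (3, 4)], [(0, 4)], [6], [(3, 0, [2, 4]), (4, 4,
      [0])]⟩,
    ⟨[(1, 3), (2, 3), (3, 4)], [(0, 2), (3, 0), (3, 2), (3, 4), (4, 4)], [(2, 4)], [5],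
      [(1, 2, [0]), (4, 4, [0])]⟩,
    ⟨[(0, 1), (1, 2), (1, 3), (2, 3), (3, 4), (3, 5)], [(0, 1), (1, 0), (1, 1), (1, 3), (3,
      0), (3, 1), (3, 4)], [(0, 1)], [], [(0, 1, [3]), (6, 0, [2, 4])]⟩]
  Ta := [((3, 2), 0, 3), ((3, 7), 0, 6), ((6, 0), 0, 1), ((6, 5), 0, 5)]
  Tb := [((0, 1, 6), 1, 2, 0), ((1, 0, 2), 2, 1, 3), ((1, 0, 4), 2, 1, 4), ((1, 0, 5), 2, 1, 5),
    ((1, 2, 4), 2, 3, 4), ((1, 2, 5), 2, 3, 5), ((1, 4, 5), 2, 4, 5), ((2, 1, 3), 3, 2, 0),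
    ((3, 2, 7), 0, 3, 6), ((4, 1, 7), 4, 2, 6), ((5, 1, 6), 5, 2, 0), ((6, 0, 5), 0, 1, 5),
    ((7, 3, 4), 6, 0, 4)]
  Tc := [(0, 2, 4)]
  Td := [((0, 2), (3, 2), 3), ((0, 2), (3, 7), 6), ((0, 2), (6, 0), 1), ((0, 2), (6, 5), 5), ((0,
    4), (3, 2), 3), ((0, 4), (3, 7), 6), ((0, 4), (6, 0), 1), ((0, 4), (6, 5), 5), ((1, 3),
    (0, 1), 2), ((1, 3), (0, 6), 0), ((2, 0), (1, 0), 1), ((2, 0), (1, 2), 3), ((2, 0), (1,
    4), 4), ((2, 0), (1, 5), 5), ((3, 1), (2, 1), 2), ((3, 1), (2, 3), 0), ((4, 0), (4, 1),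
    2), ((4, 0), (4, 7), 6)]
  G := [[0, 0, 0x411411421e81411811821e41c, 0x111181e284812241228141c2e15,
    0x124241e2111141e46118118e84c424281e2414848e418141ec619], [0,
    0x411841811e82812181e21481411c26c, 0x411841821e81481811421e41c, 0x4181484dd2211,
    0x418292484858142443bc611]]

noncomputable def n2952 : Ent := ⟨e2952, noF, [], [], []⟩

def c2952 : PLift (Cov.check n2952.C.D v2952 = true) := ⟨by decide +kernel⟩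

def b2952 : PLift (entF (fidx ts) 400 2952 n2952 = true) := ⟨by decide +kernel⟩

theorem g2952 : GoodF (fidx ts) 400 2952 := GoodF.ofV v2952 n2952 c2952.down b2952.down

/-- 4649444:2317 -/
noncomputable def e2953 : SCfg where
  D := {
    a := 7
    L := 9
    kp := 7
    inn := [(0, 1), (1, 0), (1, 2), (1, 3), (1, 6), (2, 1), (2, 3), (3, 1), (3, 2), (3, 4), (3, 5), (3,
      6), (4, 3), (5, 3), (6, 1), (6, 3)]
    mix := [(0, 0), (0, 1), (0, 2), (1, 0), (1, 2), (2, 2), (2, 3), (3, 3), (3, 4), (3, 5), (3, 6), (4,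
      3), (4, 4), (4, 7), (5, 4), (5, 5), (5, 8), (6, 0), (6, 6)]
    cl := [3, 6, 1, 0, 4, 2, 0, 7, 5]
    chq := [(0, 4), (0, 5), (1, 3), (3, 1), (4, 0), (5, 0)]
    rng := [(0, 1), (0, 6), (1, 0), (1, 2), (2, 1), (2, 3), (3, 2), (3, 7), (4, 7), (4, 8), (5, 6), (5,
      8), (6, 0), (6, 5), (7, 3), (7, 4), (8, 4), (8, 5)]
    lev := [] }
  links := [[1, 7, 8, 9], [7, 0, 9, 2, 3, 6], [3, 1, 9, 10], [6, 1, 2, 10, 4, 11, 5, 12, 13], [11, 3, 10,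
    14], [12, 3, 11, 15], [7, 1, 3, 13]]
  P := {
    a := 7
    N := 16
    nb := [898, 717, 1546, 15478, 19464, 38920, 8330, 8515, 641, 1287, 16924, 49208, 41000, 4296,
      3088, 6176]
    tri := [(0, 1, 7), (0, 1, 9), (0, 7, 8), (0, 8, 9), (1, 2, 3), (1, 2, 9), (1, 3, 6), (1, 6, 7), (2,
      3, 10), (2, 9, 10), (3, 4, 10), (3, 4, 11), (3, 5, 11), (3, 5, 12), (3, 6, 13), (3, 12, 13),
      (4, 10, 14), (4, 11, 14), (5, 11, 15), (5, 12, 15), (6, 7, 13)]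
    fin := [0, 0, 0, 3, 3, 3, 0, 0, 8, 9, 3, 11, 12, 3, 14, 15]
    chd := [(0, 9), (3, 11), (3, 15)]
    steps := [(0, 1), (0, 2), (0, 6), (0, 7), (3, 4), (3, 5), (3, 10), (3, 13)] }
  rep := [3, 9, 12, 0, 11, 15, 8, 14]

noncomputable def v2953 : Cov.CovD where
  P := 3
  N := 5
  pl := [1, 5, 7]
  lev := [⟨[], [], [(1, 3)], [6], [(0, 3, [1]), (2, 1, [3])]⟩,
    ⟨[], [(0, 1), (0, 3)], [(1, 3)], [], [(0, 3, [1]), (2, 1, [3])]⟩,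
    ⟨[(0, 1)], [(0, 1), (1, 0), (1, 1), (1, 3)], [(0, 1)], [], [(2, 1, [3]), (3, 0, [4,
      5])]⟩,
    ⟨[(0, 1), (1, 2)], [(1, 0), (1, 1), (1, 3), (1, 4), (2, 0), (2, 1), (2, 4)], [(0, 0),
      (0, 4)], [2], [(3, 0, [4, 5]), (4, 4, [0]), (6, 0, [4, 5])]⟩,
    ⟨[(1, 3), (2, 3)], [(2, 0), (3, 0), (3, 4)], [(0, 4)], [7], [(3, 0, [4, 5]), (4, 4,
      [0])]⟩,
    ⟨[(1, 3), (2, 3), (3, 4)], [(3, 0), (3, 4), (3, 5), (4, 4)], [(4, 5)], [2], [(4, 4,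
      [0]), (8, 5, [0])]⟩,
    ⟨[(0, 1), (1, 2), (1, 3), (2, 3), (3, 4), (3, 5)], [(0, 3), (1, 0), (1, 1), (1, 3), (3,
      0), (3, 3), (3, 4)], [(0, 3)], [], [(0, 3, [1]), (6, 0, [4, 5])]⟩]
  Ta := [((3, 2), 0, 1), ((3, 7), 0, 7), ((6, 0), 0, 3), ((6, 5), 0, 2)]
  Tb := [((0, 1, 6), 3, 6, 0), ((1, 0, 2), 6, 3, 1), ((2, 1, 3), 1, 6, 0), ((3, 2, 7), 0, 1, 7),
    ((4, 7, 8), 4, 7, 5), ((5, 6, 8), 2, 0, 5), ((6, 0, 5), 0, 3, 2), ((7, 3, 4), 7, 0, 4),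
    ((8, 4, 5), 5, 4, 2)]
  Tc := [(0, 4, 5)]
  Td := [((0, 4), (3, 2), 1), ((0, 4), (3, 7), 7), ((0, 4), (6, 0), 3), ((0, 4), (6, 5), 2), ((0,
    5), (3, 2), 1), ((0, 5), (3, 7), 7), ((0, 5), (6, 0), 3), ((0, 5), (6, 5), 2), ((1, 3),
    (2, 1), 6), ((1, 3), (2, 3), 0), ((3, 1), (0, 1), 6), ((3, 1), (0, 6), 0), ((4, 0), (4,
    7), 7), ((4, 0), (4, 8), 5), ((5, 0), (8, 4), 4), ((5, 0), (8, 5), 2)]
  G := [[0, 0x1124114461111a842121a84e11816421111a822111648e1111641111a8c2e, 0,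
    0x2121642121a8c121442121a212cc12121642121a8c1d,
    0x2181c81816a414141c41416a412121c21c16a41d], [0, 0,
    0x88c188a168124c12461a412261422a18c1d,
    0x21144811842121a84d41148211882121648d2144211212cc1d,
    0x21124211882121c84d2121217a11a842121cc11a41d]]

noncomputable def n2953 : Ent := ⟨e2953, noF, [], [], [(8, 14, [385746751338780685620664494392815470296102193487288376384581633, 0]), (8, 15, [360035742630636841211993100915356868655746945586763691019763713, 0])]⟩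

def c2953 : PLift (Cov.check n2953.C.D v2953 = true) := ⟨by decide +kernel⟩

def b2953 : PLift (entF (fidx ts) 400 2953 n2953 = true) := ⟨by decide +kernel⟩

theorem g2953 : GoodF (fidx ts) 400 2953 := GoodF.ofV v2953 n2953 c2953.down b2953.down

/-- 4866645:2318 -/
noncomputable def e2954 : SCfg where
  D := {
    a := 7
    L := 11
    kp := 10
    inn := [(0, 1), (0, 3), (1, 0), (1, 2), (1, 3), (1, 4), (1, 6), (2, 1), (2, 4), (2, 6), (3, 0), (3,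
      1), (3, 4), (4, 1), (4, 2), (4, 3), (4, 5), (5, 4), (6, 1), (6, 2)]
    mix := [(0, 0), (0, 1), (1, 0), (1, 2), (1, 3), (2, 4), (2, 5), (2, 6), (3, 1), (3, 7), (3, 8), (4,
      4), (4, 8), (5, 4), (5, 8), (5, 9), (6, 2), (6, 6), (6, 10)]
    cl := [2, 5, 4, 9, 1, 6, 3, 7, 0, 10, 8]
    chq := [(0, 1), (0, 2), (0, 3), (0, 6), (1, 0), (2, 0), (2, 3), (2, 4), (2, 7), (2, 8), (3, 0), (3,
      2), (4, 2), (6, 0), (7, 2), (8, 2)]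
    rng := [(0, 1), (0, 3), (1, 0), (1, 7), (2, 3), (2, 10), (3, 0), (3, 2), (4, 5), (4, 9), (5, 4),
      (5, 6), (6, 5), (6, 10), (7, 1), (7, 8), (8, 7), (8, 9), (9, 4), (9, 8), (10, 2), (10, 6)]
    lev := [] }
  links := [[1, 7, 8, 3], [7, 0, 3, 4, 2, 6, 9, 10], [6, 1, 4, 11, 12, 13], [4, 1, 0, 8, 14, 15], [11, 2,
    1, 3, 15, 5], [11, 4, 15, 16], [9, 1, 2, 13, 17]]
  P := {
    a := 7
    N := 18
    nb := [394, 1757, 14418, 49427, 34862, 100368, 139782, 1283, 16521, 132162, 642, 69684, 10244,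
      135236, 33032, 81976, 34848, 8768]
    tri := [(0, 1, 3), (0, 1, 7), (0, 3, 8), (0, 7, 8), (1, 2, 4), (1, 2, 6), (1, 3, 4), (1, 6, 9), (1,
      7, 10), (1, 9, 10), (2, 4, 11), (2, 6, 13), (2, 11, 12), (2, 12, 13), (3, 4, 15), (3, 8,
      14), (3, 14, 15), (4, 5, 11), (4, 5, 15), (5, 11, 16), (5, 15, 16), (6, 9, 17), (6, 13, 17)]
    fin := [0, 0, 2, 0, 2, 2, 0, 0, 8, 9, 10, 11, 12, 13, 14, 2, 16, 17]
    chd := [(0, 2), (0, 9), (0, 13), (0, 14), (0, 17), (11, 2), (12, 2), (13, 2)]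
    steps := [(0, 1), (0, 3), (0, 6), (0, 7), (2, 4), (2, 5), (2, 15)] }
  rep := [2, 11, 0, 13, 9, 8, 12, 14, 17, 10, 16]

noncomputable def v2954 : Cov.CovD where
  P := 3
  N := 8
  pl := [1, 3, 9]
  lev := [⟨[], [], [], [5], [(0, 2, [0, 3, 4, 7, 8])]⟩,
    ⟨[], [(0, 2), (0, 4)], [(2, 4)], [9], [(0, 2, [0, 3, 4, 7, 8]), (2, 4, [2])]⟩,
    ⟨[(0, 1)], [(1, 1), (1, 2), (1, 3), (1, 4), (1, 6)], [(1, 3), (1, 6), (3, 6)], [], [(4,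
      1, [0]), (5, 6, [0]), (6, 3, [0, 2])]⟩,
    ⟨[(0, 1), (1, 2)], [(0, 0), (0, 2), (0, 7), (1, 0), (1, 2), (1, 4), (1, 7)], [(0, 7)],
      [5], [(7, 7, [2]), (8, 0, [1, 2, 3, 6])]⟩,
    ⟨[(0, 1), (0, 3), (1, 2), (1, 3), (2, 3)], [(1, 0), (1, 1), (1, 2), (1, 4), (2, 0), (2,
      1), (2, 3), (2, 6), (3, 0), (3, 1), (3, 7)], [(0, 1)], [], [(4, 1, [0]), (8, 0, [1, 2,
      3, 6])]⟩,
    ⟨[(1, 4), (2, 4), (3, 4)], [(2, 1), (3, 0), (4, 0), (4, 1)], [(0, 1)], [10], [(4, 1,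
      [0]), (8, 0, [1, 2, 3, 6])]⟩,
    ⟨[(0, 1), (1, 2), (1, 3), (1, 4), (2, 4)], [(1, 2), (1, 3), (1, 4), (1, 8), (2, 1), (2,
      3), (2, 4), (2, 6), (2, 8)], [(3, 4), (3, 8), (4, 8)], [], [(2, 4, [2]), (6, 3, [0,
      2]), (10, 8, [2])]⟩]
  Ta := []
  Tb := [((0, 1, 3), 2, 5, 9), ((1, 0, 7), 5, 2, 7), ((2, 3, 10), 4, 9, 8), ((3, 0, 2), 9, 2, 4),
    ((4, 5, 9), 1, 6, 10), ((5, 4, 6), 6, 1, 3), ((6, 5, 10), 3, 6, 8), ((7, 1, 8), 7, 5, 0),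
    ((8, 7, 9), 0, 7, 10), ((9, 4, 8), 10, 1, 0), ((10, 2, 6), 8, 4, 3)]
  Tc := [(0, 1, 2), (0, 1, 3), (0, 1, 6), (0, 2, 3), (0, 2, 6), (0, 3, 6), (2, 0, 3), (2, 0, 4),
    (2, 0, 7), (2, 0, 8), (2, 3, 4), (2, 3, 7), (2, 3, 8), (2, 4, 7), (2, 4, 8), (2, 7, 8),
    (3, 0, 2)]
  Td := [((0, 1), (8, 7), 7), ((0, 1), (8, 9), 10), ((0, 2), (8, 7), 7), ((0, 2), (8, 9), 10),
    ((0, 3), (8, 7), 7), ((0, 3), (8, 9), 10), ((0, 6), (8, 7), 7), ((0, 6), (8, 9), 10),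
    ((1, 0), (4, 5), 6), ((1, 0), (4, 9), 10), ((2, 0), (0, 1), 5), ((2, 0), (0, 3), 9), ((2,
    3), (0, 1), 5), ((2, 3), (0, 3), 9), ((2, 4), (0, 1), 5), ((2, 4), (0, 3), 9), ((2, 7),
    (0, 1), 5), ((2, 7), (0, 3), 9), ((2, 8), (0, 1), 5), ((2, 8), (0, 3), 9), ((3, 0), (6,
    5), 6), ((3, 0), (6, 10), 8), ((3, 2), (6, 5), 6), ((3, 2), (6, 10), 8), ((4, 2), (2, 3),
    9), ((4, 2), (2, 10), 8), ((6, 0), (5, 4), 1), ((6, 0), (5, 6), 3), ((7, 2), (7, 1), 5),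
    ((7, 2), (7, 8), 0), ((8, 2), (10, 2), 4), ((8, 2), (10, 6), 3)]
  G := [[0, 0x22a41122621122c42264a22a433a4aad22c42122682122a422c8c22c833a466d22a222a4622682c1d,
    0x114118118e1114118114e1114114114e1e1,
    0x22c42122c82122c4214c214218218e22c42dd214222c422c822c8e5122c42428c2428ce12428c22c822c8e121428dd,
    0x4844446144c444c4a1414418cf18444c844c86db444484a14184146418f1844c8e4448c44c8cd94844448cc144c841ab]]

noncomputable def n2954 : Ent := ⟨e2954, noF, [], [], []⟩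

def c2954 : PLift (Cov.check n2954.C.D v2954 = true) := ⟨by decide +kernel⟩

def b2954 : PLift (entF (fidx ts) 400 2954 n2954 = true) := ⟨by decide +kernel⟩

theorem g2954 : GoodF (fidx ts) 400 2954 := GoodF.ofV v2954 n2954 c2954.down b2954.down

/-- 4595464:2320/2 -/
noncomputable def e2955 : SCfg where
  D := {
    a := 7
    L := 9
    kp := 6
    inn := [(0, 1), (0, 2), (1, 0), (1, 2), (2, 0), (2, 1), (2, 3), (2, 4), (2, 5), (3, 2), (3, 4), (4,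
      2), (4, 3), (5, 2), (5, 6), (6, 5)]
    mix := [(0, 0), (0, 1), (1, 1), (1, 2), (1, 3), (2, 0), (2, 3), (2, 4), (2, 5), (3, 4), (3, 6), (3,
      7), (4, 5), (4, 7), (5, 3), (5, 4), (5, 6), (5, 8), (6, 2), (6, 3), (6, 8)]
    cl := [0, 2, 1, 0, 0, 5, 3, 4, 6]
    chq := [(0, 4), (1, 3), (3, 1), (4, 0)]
    rng := [(0, 1), (0, 5), (1, 0), (1, 2), (2, 1), (2, 3), (2, 8), (3, 2), (4, 6), (5, 0), (5, 7), (6,
      4), (6, 7), (6, 8), (7, 5), (7, 6), (8, 2), (8, 6)]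
    lev := [] }
  links := [[1, 2, 7, 8], [2, 0, 8, 9, 10], [7, 0, 1, 10, 5, 11, 3, 4, 12], [4, 2, 11, 13, 14], [12, 2,
    3, 14], [11, 2, 10, 6, 15, 13], [15, 5, 10, 9]]
  P := {
    a := 7
    N := 16
    nb := [390, 1797, 7355, 26644, 20492, 44100, 34336, 4357, 643, 34114, 614, 8236, 16532, 51240,
      12312, 8800]
    tri := [(0, 1, 2), (0, 1, 8), (0, 2, 7), (0, 7, 8), (1, 2, 10), (1, 8, 9), (1, 9, 10), (2, 3, 4),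
      (2, 3, 11), (2, 4, 12), (2, 5, 10), (2, 5, 11), (2, 7, 12), (3, 4, 14), (3, 11, 13), (3, 13,
      14), (4, 12, 14), (5, 6, 10), (5, 6, 15), (5, 11, 13), (5, 13, 15), (6, 9, 10), (6, 9, 15)]
    fin := [0, 0, 0, 0, 0, 5, 5, 0, 8, 5, 0, 0, 12, 13, 14, 15]
    chd := [(0, 14), (5, 13)]
    steps := [(0, 1), (0, 2), (0, 3), (0, 4), (0, 7), (0, 10), (0, 11), (5, 6), (5, 9)] }
  rep := [0, 5, 8, 13, 14, 12, 15]

noncomputable def v2955 : Cov.CovD where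
  P := 3
  N := 4
  pl := [1, 5, 8]
  lev := [⟨[], [], [], [2], [(0, 0, [4])]⟩,
    ⟨[], [(0, 0), (0, 1)], [(0, 1)], [2], [(2, 1, [3]), (3, 0, [4])]⟩,
    ⟨[(0, 1)], [(0, 0), (1, 0), (1, 1)], [(0, 0)], [5], [(0, 0, [4]), (3, 0, [4]), (4, 0,
      [4])]⟩,
    ⟨[(0, 2), (1, 2)], [(2, 0), (2, 3), (2, 4)], [(0, 3), (0, 4), (3, 4)], [], [(4, 0,
      [4]), (6, 3, [1]), (7, 4, [0])]⟩,
    ⟨[(0, 2), (1, 2), (2, 3)], [(2, 0), (2, 4), (3, 0), (3, 3), (3, 4)], [], [5], [(7, 4,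
      [0])]⟩,
    ⟨[(0, 2), (1, 2), (2, 3), (2, 4)], [(1, 0), (2, 0), (2, 3), (3, 0), (3, 3)], [(0, 0),
      (0, 3)], [6], [(3, 0, [4]), (4, 0, [4]), (6, 3, [1])]⟩,
    ⟨[(2, 5)], [(1, 0), (1, 1), (2, 0), (5, 0), (5, 1), (5, 3)], [(0, 1)], [6], [(2, 1,
      [3]), (3, 0, [4])]⟩]
  Ta := [((0, 1), 0, 2), ((0, 5), 0, 5), ((3, 2), 0, 1), ((4, 6), 0, 3)]
  Tb := [((0, 1, 5), 0, 2, 5), ((1, 0, 2), 2, 0, 1), ((2, 1, 3), 1, 2, 0), ((2, 1, 8), 1, 2, 6),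
    ((2, 3, 8), 1, 0, 6), ((5, 0, 7), 5, 0, 4), ((6, 4, 7), 3, 0, 4), ((6, 4, 8), 3, 0, 6),
    ((6, 7, 8), 3, 4, 6), ((7, 5, 6), 4, 5, 3), ((8, 2, 6), 6, 1, 3)]
  Tc := []
  Td := [((0, 4), (0, 1), 2), ((0, 4), (0, 5), 5), ((0, 4), (3, 2), 1), ((0, 4), (4, 6), 3), ((1,
    3), (2, 1), 2), ((1, 3), (2, 3), 0), ((1, 3), (2, 8), 6), ((3, 1), (6, 4), 0), ((3, 1),
    (6, 7), 4), ((3, 1), (6, 8), 6), ((4, 0), (7, 5), 5), ((4, 0), (7, 6), 3)]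
  G := [[0, 0, 0x81a1218841e84ce1644c614c12e184c, 0xc21c283c222c241e14,
    0x1812981641ac344c61284a1486184c2da98], [0, 0x8882a22e144264422e1884484ce1ac1, 0,
    0xc212c21c243c281e81, 0x4c6128ca188ce8384a1486184c2de81], [0, 0, 0,
    0x921c216921521ac28521ce48, 0x41614161684a1819e1a81a14861881ee81]]

noncomputable def n2955 : Ent := ⟨e2955, noF, [], [], []⟩

def c2955 : PLift (Cov.check n2955.C.D v2955 = true) := ⟨by decide +kernel⟩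

def b2955 : PLift (entF (fidx ts) 400 2955 n2955 = true) := ⟨by decide +kernel⟩

theorem g2955 : GoodF (fidx ts) 400 2955 := GoodF.ofV v2955 n2955 c2955.down b2955.down

/-- 4595464:2320/1 -/
noncomputable def e2956 : SCfg where
  D := {
    a := 7
    L := 10
    kp := 7
    inn := [(0, 1), (0, 2), (1, 0), (1, 2), (2, 0), (2, 1), (2, 3), (2, 4), (2, 5), (3, 2), (3, 4), (4,
      2), (4, 3), (5, 2), (5, 6), (6, 5)]
    mix := [(0, 0), (0, 1), (1, 1), (1, 2), (1, 3), (2, 0), (2, 3), (2, 4), (2, 5), (3, 4), (3, 6), (3,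
      7), (4, 5), (4, 7), (5, 3), (5, 4), (5, 8), (5, 9), (6, 2), (6, 3), (6, 8)]
    cl := [0, 1, 3, 0, 0, 2, 7, 4, 5, 6]
    chq := [(0, 4), (3, 6), (4, 0), (6, 3)]
    rng := [(0, 1), (0, 5), (1, 0), (1, 2), (2, 1), (2, 3), (2, 8), (3, 2), (4, 6), (4, 9), (5, 0), (5,
      7), (6, 4), (6, 7), (7, 5), (7, 6), (8, 2), (8, 9), (9, 4), (9, 8)]
    lev := [] }
  links := [[1, 2, 7, 8], [2, 0, 8, 9, 10], [7, 0, 1, 10, 5, 11, 3, 4, 12], [4, 2, 11, 13, 14], [12, 2,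
    3, 14], [11, 2, 10, 6, 15, 16], [15, 5, 10, 9]]
  P := {
    a := 7
    N := 17
    nb := [390, 1797, 7355, 26644, 20492, 101444, 34336, 4357, 643, 34114, 614, 73772, 16532, 18440,
      12312, 66144, 34848]
    tri := [(0, 1, 2), (0, 1, 8), (0, 2, 7), (0, 7, 8), (1, 2, 10), (1, 8, 9), (1, 9, 10), (2, 3, 4),
      (2, 3, 11), (2, 4, 12), (2, 5, 10), (2, 5, 11), (2, 7, 12), (3, 4, 14), (3, 11, 13), (3, 13,
      14), (4, 12, 14), (5, 6, 10), (5, 6, 15), (5, 11, 16), (5, 15, 16), (6, 9, 10), (6, 9, 15)]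
    fin := [0, 0, 0, 0, 0, 5, 5, 0, 8, 5, 0, 0, 12, 13, 14, 15, 16]
    chd := [(0, 14), (5, 16)]
    steps := [(0, 1), (0, 2), (0, 3), (0, 4), (0, 7), (0, 10), (0, 11), (5, 6), (5, 9)] }
  rep := [0, 8, 12, 5, 14, 15, 16, 13]

noncomputable def v2956 : Cov.CovD where
  P := 3
  N := 5
  pl := [1, 5, 6, 8]
  lev := [⟨[], [], [], [1], [(0, 0, [4])]⟩,
    ⟨[], [(0, 0), (0, 3)], [(0, 3)], [1], [(2, 3, [6]), (3, 0, [4])]⟩,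
    ⟨[(0, 1)], [(0, 0), (1, 0), (1, 3)], [(0, 0)], [2], [(0, 0, [4]), (3, 0, [4]), (4, 0,
      [4])]⟩,
    ⟨[(0, 2), (1, 2)], [(2, 0), (2, 4)], [(0, 4)], [7], [(4, 0, [4]), (7, 4, [0])]⟩,
    ⟨[(0, 2), (1, 2), (2, 3)], [(2, 0), (2, 4), (3, 0), (3, 4)], [], [2], [(7, 4, [0])]⟩,
    ⟨[(0, 2), (1, 2), (2, 3), (2, 4)], [(1, 0), (2, 0), (2, 6), (3, 0)], [(0, 0), (0, 6)],
      [5], [(3, 0, [4]), (4, 0, [4]), (9, 6, [3])]⟩,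
    ⟨[(2, 5)], [(1, 0), (1, 3), (2, 0), (5, 0), (5, 3), (5, 6)], [(0, 3)], [5], [(2, 3,
      [6]), (3, 0, [4])]⟩]
  Ta := [((0, 1), 0, 1), ((0, 5), 0, 2), ((3, 2), 0, 3), ((4, 6), 0, 7), ((4, 9), 0, 6)]
  Tb := [((0, 1, 5), 0, 1, 2), ((1, 0, 2), 1, 0, 3), ((2, 1, 3), 3, 1, 0), ((2, 1, 8), 3, 1, 5),
    ((2, 3, 8), 3, 0, 5), ((4, 6, 9), 0, 7, 6), ((5, 0, 7), 2, 0, 4), ((6, 4, 7), 7, 0, 4),
    ((7, 5, 6), 4, 2, 7), ((8, 2, 9), 5, 3, 6), ((9, 4, 8), 6, 0, 5)]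
  Tc := []
  Td := [((0, 4), (0, 1), 1), ((0, 4), (0, 5), 2), ((0, 4), (3, 2), 3), ((0, 4), (4, 6), 7), ((0,
    4), (4, 9), 6), ((3, 6), (2, 1), 1), ((3, 6), (2, 3), 0), ((3, 6), (2, 8), 5), ((4, 0),
    (7, 5), 2), ((4, 0), (7, 6), 7), ((6, 3), (9, 4), 0), ((6, 3), (9, 8), 5)]
  G := [[0, 0x41a814426441ec1834132ec11881ce4, 0x6acec26ace1214, 0xac6416ace86ace1684bc18,
    0x6ace126ace16ace85a14], [0, 0, 0, 0xa861a86168ace1881284bc641e1644e142642c76888cc1,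
    0xa261ac6268a8e8288882da642e1264ce1644e85ac1], [0, 0, 0, 0xa416ace4a41e6ca16ca1ac14,
    0x6ace16ace166ace18a14]]

noncomputable def n2956 : Ent := ⟨e2956, noF, [], [], [(16, 13, [1580044429602293643470024699863340111275081426260889765897804754945, 0])]⟩

def c2956 : PLift (Cov.check n2956.C.D v2956 = true) := ⟨by decide +kernel⟩

def b2956 : PLift (entF (fidx ts) 400 2956 n2956 = true) := ⟨by decide +kernel⟩

theorem g2956 : GoodF (fidx ts) 400 2956 := GoodF.ofV v2956 n2956 c2956.down b2956.down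

/-- 4595464:2320/3 -/
noncomputable def e2957 : SCfg where
  D := {
    a := 7
    L := 10
    kp := 7
    inn := [(0, 1), (0, 2), (1, 0), (1, 2), (2, 0), (2, 1), (2, 3), (2, 4), (2, 5), (3, 2), (3, 4), (4,
      2), (4, 3), (5, 2), (5, 6), (6, 5)]
    mix := [(0, 0), (0, 1), (1, 1), (1, 2), (1, 3), (2, 0), (2, 3), (2, 4), (2, 5), (3, 4), (3, 6), (3,
      7), (4, 5), (4, 7), (5, 3), (5, 4), (5, 6), (5, 8), (6, 3), (6, 8), (6, 9)]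
    cl := [0, 1, 7, 0, 0, 2, 3, 4, 5, 6]
    chq := [(0, 4), (3, 6), (4, 0), (6, 3)]
    rng := [(0, 1), (0, 5), (1, 0), (1, 2), (2, 1), (2, 3), (3, 2), (3, 9), (4, 6), (5, 0), (5, 7), (6,
      4), (6, 7), (6, 8), (7, 5), (7, 6), (8, 6), (8, 9), (9, 3), (9, 8)]
    lev := [] }
  links := [[1, 2, 7, 8], [2, 0, 8, 9, 10], [7, 0, 1, 10, 5, 11, 3, 4, 12], [4, 2, 11, 13, 14], [12, 2,
    3, 14], [11, 2, 10, 6, 15, 13], [15, 5, 10, 16]]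
  P := {
    a := 7
    N := 17
    nb := [390, 1797, 7355, 26644, 20492, 44100, 99360, 4357, 643, 1282, 66150, 8236, 16532, 51240,
      12312, 73824, 33856]
    tri := [(0, 1, 2), (0, 1, 8), (0, 2, 7), (0, 7, 8), (1, 2, 10), (1, 8, 9), (1, 9, 10), (2, 3, 4),
      (2, 3, 11), (2, 4, 12), (2, 5, 10), (2, 5, 11), (2, 7, 12), (3, 4, 14), (3, 11, 13), (3, 13,
      14), (4, 12, 14), (5, 6, 10), (5, 6, 15), (5, 11, 13), (5, 13, 15), (6, 10, 16), (6, 15,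
      16)]
    fin := [0, 0, 0, 0, 0, 5, 5, 0, 8, 9, 0, 0, 12, 13, 14, 15, 5]
    chd := [(0, 14), (13, 5)]
    steps := [(0, 1), (0, 2), (0, 3), (0, 4), (0, 7), (0, 10), (0, 11), (5, 6), (5, 16)] }
  rep := [0, 8, 12, 13, 14, 15, 5, 9]

noncomputable def v2957 : Cov.CovD where
  P := 3
  N := 5
  pl := [1, 2, 5, 8]
  lev := [⟨[], [], [], [1], [(0, 0, [4])]⟩,
    ⟨[], [(0, 0)], [], [1, 7], [(3, 0, [4])]⟩,
    ⟨[(0, 1)], [(0, 0), (1, 0)], [(0, 0)], [2], [(0, 0, [4]), (3, 0, [4]), (4, 0, [4])]⟩,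
    ⟨[(0, 2), (1, 2)], [(2, 0), (2, 3), (2, 4)], [(0, 3), (0, 4), (3, 4)], [], [(4, 0,
      [4]), (6, 3, [6]), (7, 4, [0])]⟩,
    ⟨[(0, 2), (1, 2), (2, 3)], [(2, 0), (2, 4), (3, 0), (3, 3), (3, 4)], [], [2], [(7, 4,
      [0])]⟩,
    ⟨[(0, 2), (1, 2), (2, 3), (2, 4)], [(1, 0), (2, 0), (2, 3), (3, 0), (3, 3)], [(0, 0),
      (0, 3)], [5], [(3, 0, [4]), (4, 0, [4]), (6, 3, [6])]⟩,
    ⟨[(2, 5)], [(1, 0), (2, 0), (5, 0), (5, 3), (5, 6)], [(0, 6)], [5], [(3, 0, [4]), (9,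
      6, [3])]⟩]
  Ta := [((0, 1), 0, 1), ((0, 5), 0, 2), ((3, 2), 0, 7), ((3, 9), 0, 6), ((4, 6), 0, 3)]
  Tb := [((0, 1, 5), 0, 1, 2), ((1, 0, 2), 1, 0, 7), ((2, 1, 3), 7, 1, 0), ((3, 2, 9), 0, 7, 6),
    ((5, 0, 7), 2, 0, 4), ((6, 4, 7), 3, 0, 4), ((6, 4, 8), 3, 0, 5), ((6, 7, 8), 3, 4, 5),
    ((7, 5, 6), 4, 2, 3), ((8, 6, 9), 5, 3, 6), ((9, 3, 8), 6, 0, 5)]
  Tc := []
  Td := [((0, 4), (0, 1), 1), ((0, 4), (0, 5), 2), ((0, 4), (3, 2), 7), ((0, 4), (3, 9), 6), ((0,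
    4), (4, 6), 3), ((3, 6), (6, 4), 0), ((3, 6), (6, 7), 4), ((3, 6), (6, 8), 5), ((4, 0),
    (7, 5), 2), ((4, 0), (7, 6), 3), ((6, 3), (9, 3), 0), ((6, 3), (9, 8), 5)]
  G := [[0, 0x1a5e15ac14a444814416a1e63ac1ce8, 0x6ace6acec1214, 0xa448e616e2c16ca49c18,
    0xc222681a41c26acada14], [0, 0, 0, 0xe414e24e828a148ee1ec2e8e4a485e4a14ea1acc1,
    0xe861c226e4a86ac29a2ec14ea2ae628a74881ac1], [0, 0, 0, 0xe8644e24e828148ee1ec18,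
    0x2e8e148ee16e24e18a14]]

noncomputable def n2957 : Ent := ⟨e2957, noF, [], [], [(9, 16, [1580044410770988437309982408355971841652082177953823432505701216257, 0])]⟩

def c2957 : PLift (Cov.check n2957.C.D v2957 = true) := ⟨by decide +kernel⟩

def b2957 : PLift (entF (fidx ts) 400 2957 n2957 = true) := ⟨by decide +kernel⟩

theorem g2957 : GoodF (fidx ts) 400 2957 := GoodF.ofV v2957 n2957 c2957.down b2957.down

/-- 4595464:2320 -/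
noncomputable def e2958 : SCfg where
  D := {
    a := 7
    L := 11
    kp := 8
    inn := [(0, 1), (0, 2), (1, 0), (1, 2), (2, 0), (2, 1), (2, 3), (2, 4), (2, 5), (3, 2), (3, 4), (4,
      2), (4, 3), (5, 2), (5, 6), (6, 5)]
    mix := [(0, 0), (0, 1), (1, 1), (1, 2), (1, 3), (2, 0), (2, 3), (2, 4), (2, 5), (3, 4), (3, 6), (3,
      7), (4, 5), (4, 7), (5, 3), (5, 4), (5, 8), (5, 9), (6, 3), (6, 8), (6, 10)]
    cl := [0, 1, 7, 0, 0, 2, 8, 3, 4, 5, 6]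
    chq := [(0, 3), (3, 0), (5, 6), (6, 5)]
    rng := [(0, 1), (0, 5), (1, 0), (1, 2), (2, 1), (2, 3), (3, 2), (3, 10), (4, 6), (4, 9), (5, 0),
      (5, 7), (6, 4), (6, 7), (7, 5), (7, 6), (8, 9), (8, 10), (9, 4), (9, 8), (10, 3), (10, 8)]
    lev := [] }
  links := [[1, 2, 7, 8], [2, 0, 8, 9, 10], [7, 0, 1, 10, 5, 11, 3, 4, 12], [4, 2, 11, 13, 14], [12, 2,
    3, 14], [11, 2, 10, 6, 15, 16], [15, 5, 10, 17]]
  P := {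
    a := 7
    N := 18
    nb := [390, 1797, 7355, 26644, 20492, 101444, 164896, 4357, 643, 1282, 131686, 73772, 16532,
      18440, 12312, 196704, 34848, 33856]
    tri := [(0, 1, 2), (0, 1, 8), (0, 2, 7), (0, 7, 8), (1, 2, 10), (1, 8, 9), (1, 9, 10), (2, 3, 4),
      (2, 3, 11), (2, 4, 12), (2, 5, 10), (2, 5, 11), (2, 7, 12), (3, 4, 14), (3, 11, 13), (3, 13,
      14), (4, 12, 14), (5, 6, 10), (5, 6, 15), (5, 11, 16), (5, 15, 16), (6, 10, 17), (6, 15,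
      17)]
    fin := [0, 0, 0, 0, 0, 5, 5, 0, 8, 9, 0, 0, 12, 13, 14, 15, 16, 5]
    chd := [(0, 14), (16, 5)]
    steps := [(0, 1), (0, 2), (0, 3), (0, 4), (0, 7), (0, 10), (0, 11), (5, 6), (5, 17)] }
  rep := [0, 8, 12, 14, 15, 16, 5, 9, 13]

noncomputable def v2958 : Cov.CovD where
  P := 3
  N := 6
  pl := [1, 2, 5, 6, 8]
  lev := [⟨[], [], [], [1], [(0, 0, [3])]⟩,
    ⟨[], [(0, 0)], [], [1, 7], [(3, 0, [3])]⟩,
    ⟨[(0, 1)], [(0, 0), (1, 0)], [(0, 0)], [2], [(0, 0, [3]), (3, 0, [3]), (4, 0, [3])]⟩,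
    ⟨[(0, 2), (1, 2)], [(2, 0), (2, 3)], [(0, 3)], [8], [(4, 0, [3]), (7, 3, [0])]⟩,
    ⟨[(0, 2), (1, 2), (2, 3)], [(2, 0), (2, 3), (3, 0), (3, 3)], [], [2], [(7, 3, [0])]⟩,
    ⟨[(0, 2), (1, 2), (2, 3), (2, 4)], [(1, 0), (2, 0), (2, 5), (3, 0)], [(0, 0), (0, 5)],
      [4], [(3, 0, [3]), (4, 0, [3]), (9, 5, [6])]⟩,
    ⟨[(2, 5)], [(1, 0), (2, 0), (5, 0), (5, 5), (5, 6)], [(0, 6)], [4], [(3, 0, [3]), (10,
      6, [5])]⟩]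
  Ta := [((0, 1), 0, 1), ((0, 5), 0, 2), ((3, 2), 0, 7), ((3, 10), 0, 6), ((4, 6), 0, 8), ((4,
    9), 0, 5)]
  Tb := [((0, 1, 5), 0, 1, 2), ((1, 0, 2), 1, 0, 7), ((2, 1, 3), 7, 1, 0), ((3, 2, 10), 0, 7, 6),
    ((4, 6, 9), 0, 8, 5), ((5, 0, 7), 2, 0, 3), ((6, 4, 7), 8, 0, 3), ((7, 5, 6), 3, 2, 8),
    ((8, 9, 10), 4, 5, 6), ((9, 4, 8), 5, 0, 4), ((10, 3, 8), 6, 0, 4)]
  Tc := []
  Td := [((0, 3), (0, 1), 1), ((0, 3), (0, 5), 2), ((0, 3), (3, 2), 7), ((0, 3), (3, 10), 6),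
    ((0, 3), (4, 6), 8), ((0, 3), (4, 9), 5), ((3, 0), (7, 5), 2), ((3, 0), (7, 6), 8), ((5,
    6), (9, 4), 0), ((5, 6), (9, 8), 4), ((6, 5), (10, 3), 0), ((6, 5), (10, 8), 4)]
  G := [[0, 0x591e3cac14144181441135e39ac1ce8, 0x6ace6acec1218, 0xa4146ca16ace16ace87c18,
    0x12128121286ace16ac16ace872d4], [0, 0, 0,
    0x3c613c6184471841816ace68cbc6ace16ace1ac6876818cc1,
    0xac61ac6166826816ace87a6ace16ace1ac6876818ac4], [0, 0, 0, 0xac616ace16ace1e6818c14,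
    0xc2126ace16ace16ac1ea18]]

noncomputable def n2958 : Ent := ⟨e2958, noF, [], [], [(9, 17, [6903326391201334775872065844685381424292761054348340378595029941796865, 0]), (16, 13, [7334685537894576317792898128369202883340578364357296604626079809327105, 0])]⟩

def c2958 : PLift (Cov.check n2958.C.D v2958 = true) := ⟨by decide +kernel⟩

def b2958 : PLift (entF (fidx ts) 400 2958 n2958 = true) := ⟨by decide +kernel⟩

theorem g2958 : GoodF (fidx ts) 400 2958 := GoodF.ofV v2958 n2958 c2958.down b2958.down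

/-- 4595464:2321 -/
noncomputable def e2959 : SCfg where
  D := {
    a := 7
    L := 11
    kp := 8
    inn := [(0, 1), (0, 2), (1, 0), (1, 2), (2, 0), (2, 1), (2, 3), (2, 4), (2, 5), (3, 2), (3, 4), (4,
      2), (4, 3), (5, 2), (5, 6), (6, 5)]
    mix := [(0, 0), (0, 1), (1, 1), (1, 2), (1, 3), (2, 0), (2, 3), (2, 4), (2, 5), (3, 4), (3, 6), (3,
      7), (4, 5), (4, 7), (5, 3), (5, 4), (5, 8), (5, 9), (6, 8), (6, 9), (6, 10)]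
    cl := [0, 2, 7, 0, 0, 1, 6, 5, 3, 4, 8]
    chq := [(1, 6), (3, 4), (4, 3), (6, 1)]
    rng := [(0, 1), (0, 5), (1, 0), (1, 2), (2, 1), (2, 3), (3, 2), (3, 8), (4, 6), (4, 9), (5, 0), (5,
      7), (6, 4), (6, 7), (7, 5), (7, 6), (8, 3), (8, 10), (9, 4), (9, 10), (10, 8), (10, 9)]
    lev := [] }
  links := [[1, 2, 7, 8], [2, 0, 8, 9, 10], [7, 0, 1, 10, 5, 11, 3, 4, 12], [4, 2, 11, 13, 14], [12, 2,
    3, 14], [11, 2, 10, 15, 6, 16], [16, 5, 15, 17]]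
  P := {
    a := 7
    N := 18
    nb := [390, 1797, 7355, 26644, 20492, 101444, 229408, 4357, 643, 1282, 33318, 73772, 16532, 18440,
      12312, 132192, 133216, 98368]
    tri := [(0, 1, 2), (0, 1, 8), (0, 2, 7), (0, 7, 8), (1, 2, 10), (1, 8, 9), (1, 9, 10), (2, 3, 4),
      (2, 3, 11), (2, 4, 12), (2, 5, 10), (2, 5, 11), (2, 7, 12), (3, 4, 14), (3, 11, 13), (3, 13,
      14), (4, 12, 14), (5, 6, 15), (5, 6, 16), (5, 10, 15), (5, 11, 16), (6, 15, 17), (6, 16,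
      17)]
    fin := [0, 0, 0, 3, 3, 0, 6, 0, 8, 9, 0, 0, 12, 3, 14, 6, 16, 17]
    chd := [(6, 16), (12, 3)]
    steps := [(0, 1), (0, 2), (0, 5), (0, 7), (0, 10), (0, 11), (3, 4), (3, 13), (6, 15)] }
  rep := [0, 12, 8, 6, 16, 14, 3, 9, 17]

noncomputable def v2959 : Cov.CovD where
  P := 3
  N := 6
  pl := [1, 2, 7, 10]
  lev := [⟨[], [], [], [2], [(0, 0, [])]⟩,
    ⟨[], [(0, 0)], [], [2, 7], [(3, 0, [])]⟩,
    ⟨[(0, 1)], [(0, 0), (0, 1), (1, 0), (1, 1)], [(0, 0), (0, 1)], [], [(0, 0, []), (3, 0,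
      []), (4, 0, []), (5, 1, [6])]⟩,
    ⟨[(0, 2), (1, 2)], [(2, 0), (2, 1), (2, 6)], [(0, 6)], [5], [(4, 0, []), (6, 6, [1])]⟩,
    ⟨[(0, 2), (1, 2), (2, 3)], [(2, 0), (2, 1), (3, 0), (3, 1), (3, 6)], [], [5], [(5, 1,
      [6])]⟩,
    ⟨[(0, 2), (1, 2), (2, 3), (2, 4)], [(1, 0), (2, 0), (2, 1), (2, 3), (2, 4), (3, 0)],
      [(0, 0), (0, 3), (0, 4), (3, 4)], [], [(3, 0, []), (4, 0, []), (8, 3, [4]), (9, 4,
      [3])]⟩,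
    ⟨[(2, 5)], [(5, 0), (5, 3), (5, 4)], [(3, 4)], [8], [(8, 3, [4]), (9, 4, [3])]⟩]
  Ta := [((0, 1), 0, 2), ((0, 5), 0, 1), ((3, 2), 0, 7), ((3, 8), 0, 3), ((4, 6), 0, 6), ((4, 9),
    0, 4)]
  Tb := [((0, 1, 5), 0, 2, 1), ((1, 0, 2), 2, 0, 7), ((2, 1, 3), 7, 2, 0), ((3, 2, 8), 0, 7, 3),
    ((4, 6, 9), 0, 6, 4), ((5, 0, 7), 1, 0, 5), ((6, 4, 7), 6, 0, 5), ((7, 5, 6), 5, 1, 6),
    ((8, 3, 10), 3, 0, 8), ((9, 4, 10), 4, 0, 8), ((10, 8, 9), 8, 3, 4)]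
  Tc := []
  Td := [((1, 6), (5, 0), 0), ((1, 6), (5, 7), 5), ((3, 4), (8, 3), 0), ((3, 4), (8, 10), 8),
    ((4, 3), (9, 4), 0), ((4, 3), (9, 10), 8), ((6, 1), (6, 4), 0), ((6, 1), (6, 7), 5)]
  G := [[0, 0x93a32a195c5461614, 0x53641913e89843c44828544548393a893a43ce2,
    0x54545544393a893a43c18, 0x5364193a89843c1548281a], [0, 0, 0,
    0x54445444393a4913e83c5432c3215cc3988898883cc1,
    0x4444553643913e9899883c536453683988988981eca1], [0, 0, 0,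
    0x9884415361536454536ce98893a1ac1c, 0x53645364153e1e988988881ec12]]

noncomputable def n2959 : Ent := ⟨e2959, noF, [], [], []⟩

def c2959 : PLift (Cov.check n2959.C.D v2959 = true) := ⟨by decide +kernel⟩

def b2959 : PLift (entF (fidx ts) 400 2959 n2959 = true) := ⟨by decide +kernel⟩

theorem g2959 : GoodF (fidx ts) 400 2959 := GoodF.ofV v2959 n2959 c2959.down b2959.down

/-- 4649545:2322/1 -/
noncomputable def e2960 : SCfg where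
  D := {
    a := 7
    L := 10
    kp := 7
    inn := [(0, 1), (1, 0), (1, 2), (1, 3), (2, 1), (2, 3), (3, 1), (3, 2), (3, 4), (3, 5), (3, 6), (4,
      3), (5, 3), (5, 6), (6, 3), (6, 5)]
    mix := [(0, 0), (0, 1), (0, 2), (1, 0), (1, 2), (1, 3), (2, 2), (2, 4), (3, 3), (3, 4), (3, 5), (3,
      6), (4, 1), (4, 4), (4, 5), (4, 7), (5, 6), (5, 8), (6, 3), (6, 8), (6, 9)]
    cl := [4, 2, 0, 0, 1, 1, 5, 7, 3, 6]
    chq := [(1, 3), (1, 6), (3, 1), (6, 1)]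
    rng := [(0, 1), (0, 3), (1, 0), (1, 2), (1, 4), (1, 7), (2, 1), (2, 4), (3, 0), (3, 9), (4, 1), (4,
      2), (5, 6), (5, 7), (6, 5), (6, 8), (7, 1), (7, 5), (8, 6), (8, 9), (9, 3), (9, 8)]
    lev := [] }
  links := [[1, 7, 8, 9], [7, 0, 9, 2, 3, 10], [3, 1, 9, 11], [10, 1, 2, 11, 4, 12, 13, 5, 6], [12, 3,
    11, 8, 14], [6, 3, 13, 15], [10, 3, 5, 15, 16]]
  P := {
    a := 7
    N := 17
    nb := [898, 1677, 2570, 15478, 22792, 41032, 99368, 1283, 19089, 2311, 65738, 796, 24600, 36904,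
      4368, 73824, 33856]
    tri := [(0, 1, 7), (0, 1, 9), (0, 7, 8), (0, 8, 9), (1, 2, 3), (1, 2, 9), (1, 3, 10), (1, 7, 10),
      (2, 3, 11), (2, 9, 11), (3, 4, 11), (3, 4, 12), (3, 5, 6), (3, 5, 13), (3, 6, 10), (3, 12,
      13), (4, 8, 11), (4, 8, 14), (4, 12, 14), (5, 6, 15), (5, 13, 15), (6, 10, 16), (6, 15, 16)]
    fin := [0, 1, 1, 3, 4, 3, 3, 0, 4, 1, 1, 3, 3, 13, 14, 15, 16]
    chd := [(3, 15), (3, 16)]
    steps := [(0, 7), (1, 2), (1, 9), (1, 10), (3, 5), (3, 6), (3, 11), (3, 12), (4, 8)] }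
  rep := [1, 3, 4, 15, 0, 13, 16, 14]

noncomputable def v2960 : Cov.CovD where
  P := 3
  N := 5
  pl := [0, 1, 6, 7]
  lev := [⟨[], [], [], [2, 4], [(2, 0, [])]⟩,
    ⟨[], [(0, 0)], [(0, 0)], [4], [(2, 0, []), (3, 0, [])]⟩,
    ⟨[(0, 1)], [(0, 0), (1, 0), (1, 1)], [(0, 1)], [], [(2, 0, []), (4, 1, [3, 6])]⟩,
    ⟨[(0, 1), (1, 2)], [(1, 0), (1, 1), (2, 0), (2, 1)], [(0, 1), (1, 1)], [5], [(3, 0,
      []), (4, 1, [3, 6]), (5, 1, [3, 6])]⟩,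
    ⟨[(1, 3), (2, 3)], [(2, 1), (3, 0), (3, 1)], [(1, 1)], [2, 7], [(4, 1, [3, 6]), (5, 1,
      [3, 6])]⟩,
    ⟨[(1, 3), (2, 3), (3, 4)], [(3, 0), (3, 1), (3, 3)], [], [5], [(8, 3, [1])]⟩,
    ⟨[(1, 3), (2, 3), (3, 4), (3, 5)], [(1, 0), (3, 0), (3, 1), (3, 3), (3, 6), (5, 0), (5,
      3), (5, 6)], [(0, 3), (0, 6), (3, 6)], [], [(3, 0, []), (8, 3, [1]), (9, 6, [1])]⟩]
  Ta := [((2, 1), 0, 2), ((2, 4), 0, 1), ((3, 0), 0, 4), ((3, 9), 0, 6), ((4, 1), 1, 2), ((4, 2),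
    1, 0), ((5, 6), 1, 5), ((5, 7), 1, 7)]
  Tb := [((0, 1, 3), 4, 2, 0), ((1, 0, 2), 2, 4, 0), ((1, 0, 4), 2, 4, 1), ((1, 0, 7), 2, 4, 7),
    ((1, 2, 4), 2, 0, 1), ((1, 2, 7), 2, 0, 7), ((1, 4, 7), 2, 1, 7), ((2, 1, 4), 0, 2, 1),
    ((3, 0, 9), 0, 4, 6), ((4, 1, 2), 1, 2, 0), ((5, 6, 7), 1, 5, 7), ((6, 5, 8), 5, 1, 3),
    ((7, 1, 5), 7, 2, 1), ((8, 6, 9), 3, 5, 6), ((9, 3, 8), 6, 0, 3)]
  Tc := [(1, 3, 6)]
  Td := [((1, 3), (4, 1), 2), ((1, 3), (4, 2), 0), ((1, 3), (5, 6), 5), ((1, 3), (5, 7), 7), ((1,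
    6), (4, 1), 2), ((1, 6), (4, 2), 0), ((1, 6), (5, 6), 5), ((1, 6), (5, 7), 7), ((3, 1),
    (8, 6), 5), ((3, 1), (8, 9), 6), ((6, 1), (9, 3), 0), ((6, 1), (9, 8), 3)]
  G := [[0, 0x11ae1c211c18c4614482a124261e1cc1c1caaa18446c, 0xb2826ae2c5487248847221cce2e2c942e,
    0x224221228d82221228224d42c, 0xb2b2926a854d2184c721722259e28d82a], [0, 0,
    0x12c212bce2e2c52821621ac2ea2a6c924c, 0, 0x216d2942623229984c225216947222998c2a], [0, 0,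
    0, 0x2222522229c482222522229c425, 0xe2225941623e2984c623e29a23a239c42a], [0, 0, 0, 0,
    0x62322992a62259c122627242b98a23a2394643]]

noncomputable def n2960 : Ent := ⟨e2960, noF, [], [], []⟩

def c2960 : PLift (Cov.check n2960.C.D v2960 = true) := ⟨by decide +kernel⟩

def b2960 : PLift (entF (fidx ts) 400 2960 n2960 = true) := ⟨by decide +kernel⟩

theorem g2960 : GoodF (fidx ts) 400 2960 := GoodF.ofV v2960 n2960 c2960.down b2960.down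

/-- 4649545:2322 -/
noncomputable def e2961 : SCfg where
  D := {
    a := 7
    L := 11
    kp := 8
    inn := [(0, 1), (1, 0), (1, 2), (1, 3), (2, 1), (2, 3), (3, 1), (3, 2), (3, 4), (3, 5), (3, 6), (4,
      3), (5, 3), (5, 6), (6, 3), (6, 5)]
    mix := [(0, 0), (0, 1), (0, 2), (1, 0), (1, 2), (1, 3), (2, 2), (2, 4), (3, 3), (3, 4), (3, 5), (3,
      6), (4, 4), (4, 5), (4, 7), (4, 8), (5, 6), (5, 9), (6, 3), (6, 9), (6, 10)]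
    cl := [2, 6, 0, 0, 1, 1, 4, 7, 8, 3, 5]
    chq := [(1, 3), (1, 5), (3, 1), (5, 1)]
    rng := [(0, 1), (0, 3), (1, 0), (1, 2), (2, 1), (2, 4), (3, 0), (3, 10), (4, 2), (4, 7), (5, 6),
      (5, 8), (6, 5), (6, 9), (7, 4), (7, 8), (8, 5), (8, 7), (9, 6), (9, 10), (10, 3), (10, 9)]
    lev := [] }
  links := [[1, 7, 8, 9], [7, 0, 9, 2, 3, 10], [3, 1, 9, 11], [10, 1, 2, 11, 4, 12, 13, 5, 6], [12, 3,
    11, 14, 15], [6, 3, 13, 16], [10, 3, 5, 16, 17]]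
  P := {
    a := 7
    N := 18
    nb := [898, 1677, 2570, 15478, 55304, 73800, 197672, 1283, 641, 2311, 131274, 16924, 40984, 69672,
      34832, 20496, 139360, 66624]
    tri := [(0, 1, 7), (0, 1, 9), (0, 7, 8), (0, 8, 9), (1, 2, 3), (1, 2, 9), (1, 3, 10), (1, 7, 10),
      (2, 3, 11), (2, 9, 11), (3, 4, 11), (3, 4, 12), (3, 5, 6), (3, 5, 13), (3, 6, 10), (3, 12,
      13), (4, 11, 14), (4, 12, 15), (4, 14, 15), (5, 6, 16), (5, 13, 16), (6, 10, 17), (6, 16,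
      17)]
    fin := [0, 1, 1, 3, 3, 3, 3, 0, 8, 1, 1, 3, 3, 13, 14, 15, 16, 17]
    chd := [(3, 16), (3, 17)]
    steps := [(0, 7), (1, 2), (1, 9), (1, 10), (3, 4), (3, 5), (3, 6), (3, 11), (3, 12)] }
  rep := [1, 3, 0, 16, 13, 17, 8, 14, 15]

noncomputable def v2961 : Cov.CovD where
  P := 3
  N := 6
  pl := [0, 1, 6, 7, 8]
  lev := [⟨[], [], [], [2, 6], [(2, 0, [])]⟩,
    ⟨[], [(0, 0)], [(0, 0)], [2], [(2, 0, []), (3, 0, [])]⟩,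
    ⟨[(0, 1)], [(0, 0), (1, 0), (1, 1)], [(0, 1)], [], [(2, 0, []), (4, 1, [3, 5])]⟩,
    ⟨[(0, 1), (1, 2)], [(1, 0), (1, 1), (2, 0), (2, 1)], [(0, 1), (1, 1)], [4], [(3, 0,
      []), (4, 1, [3, 5]), (5, 1, [3, 5])]⟩,
    ⟨[(1, 3), (2, 3)], [(2, 1), (3, 0), (3, 1)], [(1, 1)], [7, 8], [(4, 1, [3, 5]), (5, 1,
      [3, 5])]⟩,
    ⟨[(1, 3), (2, 3), (3, 4)], [(3, 0), (3, 1), (3, 3)], [], [4], [(9, 3, [1])]⟩,
    ⟨[(1, 3), (2, 3), (3, 4), (3, 5)], [(1, 0), (3, 0), (3, 1), (3, 3), (3, 5), (5, 0), (5,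
      3), (5, 5)], [(0, 3), (0, 5), (3, 5)], [], [(3, 0, []), (9, 3, [1]), (10, 5, [1])]⟩]
  Ta := [((2, 1), 0, 6), ((2, 4), 0, 1), ((3, 0), 0, 2), ((3, 10), 0, 5), ((4, 2), 1, 0), ((4,
    7), 1, 7), ((5, 6), 1, 4), ((5, 8), 1, 8)]
  Tb := [((0, 1, 3), 2, 6, 0), ((1, 0, 2), 6, 2, 0), ((2, 1, 4), 0, 6, 1), ((3, 0, 10), 0, 2, 5),
    ((4, 2, 7), 1, 0, 7), ((5, 6, 8), 1, 4, 8), ((6, 5, 9), 4, 1, 3), ((7, 4, 8), 7, 1, 8),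
    ((8, 5, 7), 8, 1, 7), ((9, 6, 10), 3, 4, 5), ((10, 3, 9), 5, 0, 3)]
  Tc := [(1, 3, 5)]
  Td := [((1, 3), (4, 2), 0), ((1, 3), (4, 7), 7), ((1, 3), (5, 6), 4), ((1, 3), (5, 8), 8), ((1,
    5), (4, 2), 0), ((1, 5), (4, 7), 7), ((1, 5), (5, 6), 4), ((1, 5), (5, 8), 8), ((3, 1),
    (9, 6), 4), ((3, 1), (9, 10), 5), ((5, 1), (10, 3), 0), ((5, 1), (10, 9), 3)]
  G := [[0, 0xa1a1ae111641e6444169169e84c11ae1c211ca1116e464111a682cc, 0,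
    0xb2147272d2d2a6e2c9c422cb272d4623725e289c8c,
    0x7272521ad29e22a6cd82b2b272d472e221ad8c2a], [0, 0, 0,
    0x7221a229db2122ae2a6cd24727252162a2b225d26a8d28c,
    0x216b2216d42623229229d84a726235216216926a22aecd28a], [0, 0,
    0x2a6a23e2d41623e2229d81c2827a23225d48623e2229d81cc, 0x822da23225d4862326a229d84c1,
    0x2a6a23225d462326a229d8c21], [0, 0,
    0x623242b229d2827a23225dc12623222d229d812a6a23225d486c, 0x2827a23225d4862326a229d82c1,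
    0x222da23225d4862326a229d84a1]]

noncomputable def n2961 : Ent := ⟨e2961, noF, [], [], [(8, 14, [7334790875878422277917280412776772662961875900559637987928627381600257, 0])]⟩

def c2961 : PLift (Cov.check n2961.C.D v2961 = true) := ⟨by decide +kernel⟩

def b2961 : PLift (entF (fidx ts) 400 2961 n2961 = true) := ⟨by decide +kernel⟩

theorem g2961 : GoodF (fidx ts) 400 2961 := GoodF.ofV v2961 n2961 c2961.down b2961.down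

/-- 4649445:2323/1 -/
noncomputable def e2962 : SCfg where
  D := {
    a := 7
    L := 9
    kp := 6
    inn := [(0, 1), (1, 0), (1, 2), (1, 3), (2, 1), (2, 3), (3, 1), (3, 2), (3, 4), (3, 5), (3, 6), (4,
      3), (5, 3), (5, 6), (6, 3), (6, 5)]
    mix := [(0, 0), (0, 1), (0, 2), (1, 0), (1, 2), (1, 3), (2, 2), (2, 4), (3, 3), (3, 4), (3, 5), (3,
      6), (4, 1), (4, 4), (4, 5), (5, 6), (5, 7), (6, 3), (6, 7), (6, 8)]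
    cl := [3, 2, 0, 0, 1, 4, 1, 5, 6]
    chq := [(1, 6), (6, 1)]
    rng := [(0, 1), (0, 3), (1, 0), (1, 2), (1, 4), (1, 5), (2, 1), (2, 4), (3, 0), (3, 8), (4, 1), (4,
      2), (5, 1), (5, 6), (6, 5), (6, 7), (7, 6), (7, 8), (8, 3), (8, 7)]
    lev := [] }
  links := [[1, 7, 8, 9], [7, 0, 9, 2, 3, 10], [3, 1, 9, 11], [10, 1, 2, 11, 4, 12, 13, 5, 6], [12, 3,
    11, 8], [6, 3, 13, 14], [10, 3, 5, 14, 15]]
  P := {
    a := 7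
    N := 16
    nb := [898, 1677, 2570, 15478, 6408, 24648, 50216, 1283, 6801, 2311, 32970, 796, 8472, 20520,
      41056, 17472]
    tri := [(0, 1, 7), (0, 1, 9), (0, 7, 8), (0, 8, 9), (1, 2, 3), (1, 2, 9), (1, 3, 10), (1, 7, 10),
      (2, 3, 11), (2, 9, 11), (3, 4, 11), (3, 4, 12), (3, 5, 6), (3, 5, 13), (3, 6, 10), (3, 12,
      13), (4, 8, 11), (4, 8, 12), (5, 6, 14), (5, 13, 14), (6, 10, 15), (6, 14, 15)]
    fin := [0, 1, 1, 3, 4, 3, 3, 0, 4, 1, 1, 3, 12, 3, 14, 15]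
    chd := [(3, 15)]
    steps := [(0, 7), (1, 2), (1, 9), (1, 10), (3, 5), (3, 6), (3, 11), (3, 13), (4, 8)] }
  rep := [1, 3, 4, 0, 12, 14, 15]

noncomputable def v2962 : Cov.CovD where
  P := 3
  N := 4
  pl := [0, 1, 5, 7]
  lev := [⟨[], [], [], [2, 3], [(2, 0, [])]⟩,
    ⟨[], [(0, 0)], [(0, 0)], [3], [(2, 0, []), (3, 0, [])]⟩,
    ⟨[(0, 1)], [(0, 0), (1, 0), (1, 1)], [(0, 1)], [], [(2, 0, []), (4, 1, [6])]⟩,
    ⟨[(0, 1), (1, 2)], [(1, 0), (1, 1), (2, 0), (2, 1)], [(0, 1), (1, 1)], [4], [(3, 0,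
      []), (4, 1, [6]), (6, 1, [6])]⟩,
    ⟨[(1, 3), (2, 3)], [(2, 1), (3, 0), (3, 1)], [], [2, 4], [(4, 1, [6])]⟩,
    ⟨[(1, 3), (2, 3), (3, 4)], [(3, 0), (3, 1)], [], [5], [(6, 1, [6])]⟩,
    ⟨[(1, 3), (2, 3), (3, 4), (3, 5)], [(1, 0), (3, 0), (3, 1), (3, 6), (5, 0), (5, 1), (5,
      6)], [(0, 6)], [5], [(3, 0, []), (8, 6, [1])]⟩]
  Ta := [((2, 1), 0, 2), ((2, 4), 0, 1), ((3, 0), 0, 3), ((3, 8), 0, 6), ((4, 1), 1, 2), ((4, 2),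
    1, 0), ((6, 5), 1, 4), ((6, 7), 1, 5)]
  Tb := [((0, 1, 3), 3, 2, 0), ((1, 0, 2), 2, 3, 0), ((1, 0, 4), 2, 3, 1), ((1, 0, 5), 2, 3, 4),
    ((1, 2, 4), 2, 0, 1), ((1, 2, 5), 2, 0, 4), ((1, 4, 5), 2, 1, 4), ((2, 1, 4), 0, 2, 1),
    ((3, 0, 8), 0, 3, 6), ((4, 1, 2), 1, 2, 0), ((5, 1, 6), 4, 2, 1), ((6, 5, 7), 1, 4, 5),
    ((7, 6, 8), 5, 1, 6), ((8, 3, 7), 6, 0, 5)]
  Tc := []
  Td := [((1, 6), (4, 1), 2), ((1, 6), (4, 2), 0), ((1, 6), (6, 5), 4), ((1, 6), (6, 7), 5), ((6,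
    1), (8, 3), 0), ((6, 1), (8, 7), 5)]
  G := [[0, 0x11a411c8628116811c4a24c, 0x22c22cc14822c22cc184c, 0x225822c49422294422588c2c,
    0x2291421688c421682291c42a], [0, 0, 0x22c2ec614822ca6ca184c, 0,
    0x3292e2c85483258e2c2942a], [0, 0, 0, 0x22582294c1222512294c829,
    0x22582251c122291422588c49], [0, 0, 0, 0, 0xc29241824e19e2c2c1226584a844b]]

noncomputable def n2962 : Ent := ⟨e2962, noF, [], [], []⟩

def c2962 : PLift (Cov.check n2962.C.D v2962 = true) := ⟨by decide +kernel⟩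

def b2962 : PLift (entF (fidx ts) 400 2962 n2962 = true) := ⟨by decide +kernel⟩

theorem g2962 : GoodF (fidx ts) 400 2962 := GoodF.ofV v2962 n2962 c2962.down b2962.down

/-- 4649445:2323 -/
noncomputable def e2963 : SCfg where
  D := {
    a := 7
    L := 10
    kp := 7
    inn := [(0, 1), (1, 0), (1, 2), (1, 3), (2, 1), (2, 3), (3, 1), (3, 2), (3, 4), (3, 5), (3, 6), (4,
      3), (5, 3), (5, 6), (6, 3), (6, 5)]
    mix := [(0, 0), (0, 1), (0, 2), (1, 0), (1, 2), (1, 3), (2, 2), (2, 4), (3, 3), (3, 4), (3, 5), (3,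
      6), (4, 4), (4, 5), (4, 7), (5, 6), (5, 8), (6, 3), (6, 8), (6, 9)]
    cl := [2, 6, 0, 0, 1, 3, 1, 7, 4, 5]
    chq := [(1, 5), (5, 1)]
    rng := [(0, 1), (0, 3), (1, 0), (1, 2), (2, 1), (2, 4), (3, 0), (3, 9), (4, 2), (4, 7), (5, 6), (5,
      7), (6, 5), (6, 8), (7, 4), (7, 5), (8, 6), (8, 9), (9, 3), (9, 8)]
    lev := [] }
  links := [[1, 7, 8, 9], [7, 0, 9, 2, 3, 10], [3, 1, 9, 11], [10, 1, 2, 11, 4, 12, 13, 5, 6], [12, 3,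
    11, 14], [6, 3, 13, 15], [10, 3, 5, 15, 16]]
  P := {
    a := 7
    N := 17
    nb := [898, 1677, 2570, 15478, 22536, 41032, 99368, 1283, 641, 2311, 65738, 16924, 24600, 36904,
      6160, 73824, 33856]
    tri := [(0, 1, 7), (0, 1, 9), (0, 7, 8), (0, 8, 9), (1, 2, 3), (1, 2, 9), (1, 3, 10), (1, 7, 10),
      (2, 3, 11), (2, 9, 11), (3, 4, 11), (3, 4, 12), (3, 5, 6), (3, 5, 13), (3, 6, 10), (3, 12,
      13), (4, 11, 14), (4, 12, 14), (5, 6, 15), (5, 13, 15), (6, 10, 16), (6, 15, 16)]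
    fin := [0, 1, 1, 3, 3, 3, 3, 0, 8, 1, 1, 3, 12, 3, 14, 15, 16]
    chd := [(3, 16)]
    steps := [(0, 7), (1, 2), (1, 9), (1, 10), (3, 4), (3, 5), (3, 6), (3, 11), (3, 13)] }
  rep := [1, 3, 0, 12, 15, 16, 8, 14]

noncomputable def v2963 : Cov.CovD where
  P := 3
  N := 5
  pl := [0, 1, 5, 7, 8]
  lev := [⟨[], [], [], [2, 6], [(2, 0, [])]⟩,
    ⟨[], [(0, 0)], [(0, 0)], [2], [(2, 0, []), (3, 0, [])]⟩,
    ⟨[(0, 1)], [(0, 0), (1, 0), (1, 1)], [(0, 1)], [], [(2, 0, []), (4, 1, [5])]⟩,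
    ⟨[(0, 1), (1, 2)], [(1, 0), (1, 1), (2, 0), (2, 1)], [(0, 1), (1, 1)], [3], [(3, 0,
      []), (4, 1, [5]), (6, 1, [5])]⟩,
    ⟨[(1, 3), (2, 3)], [(2, 1), (3, 0), (3, 1)], [], [3, 7], [(4, 1, [5])]⟩,
    ⟨[(1, 3), (2, 3), (3, 4)], [(3, 0), (3, 1)], [], [4], [(6, 1, [5])]⟩,
    ⟨[(1, 3), (2, 3), (3, 4), (3, 5)], [(1, 0), (3, 0), (3, 1), (3, 5), (5, 0), (5, 1), (5,
      5)], [(0, 5)], [4], [(3, 0, []), (9, 5, [1])]⟩]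
  Ta := [((2, 1), 0, 6), ((2, 4), 0, 1), ((3, 0), 0, 2), ((3, 9), 0, 5), ((4, 2), 1, 0), ((4, 7),
    1, 7), ((6, 5), 1, 3), ((6, 8), 1, 4)]
  Tb := [((0, 1, 3), 2, 6, 0), ((1, 0, 2), 6, 2, 0), ((2, 1, 4), 0, 6, 1), ((3, 0, 9), 0, 2, 5),
    ((4, 2, 7), 1, 0, 7), ((5, 6, 7), 3, 1, 7), ((6, 5, 8), 1, 3, 4), ((7, 4, 5), 7, 1, 3),
    ((8, 6, 9), 4, 1, 5), ((9, 3, 8), 5, 0, 4)]
  Tc := []
  Td := [((1, 5), (4, 2), 0), ((1, 5), (4, 7), 7), ((1, 5), (6, 5), 3), ((1, 5), (6, 8), 4), ((5,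
    1), (9, 3), 0), ((5, 1), (9, 8), 4)]
  G := [[0, 0x11a442116811c2a4c11a11ac11c11ca688c, 0,
    0x21a14216d2225d22c49c4d2229225d48216122c898cc, 0x2292255421622998c221ad25421622998c2a],
    [0, 0, 0, 0x12c222c22ca6ce94432528329c295468c, 0x32521c93292c4224213828f6ac2588a], [0, 0,
    0x22522c922922c5c1222522992292295c12c, 0x229225548225229984c1, 0x22922c5422522998c21],
    [0, 0, 0x225c25a8426ac2a6522c3c12229a656488e, 0xa69248225c422cb84c1,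
    0x425228e1247c2184a8c21]]

noncomputable def n2963 : Ent := ⟨e2963, noF, [], [], [(8, 14, [1685382413448253767852309107433119732572617628602273068445377044481, 0])]⟩

def c2963 : PLift (Cov.check n2963.C.D v2963 = true) := ⟨by decide +kernel⟩

def b2963 : PLift (entF (fidx ts) 400 2963 n2963 = true) := ⟨by decide +kernel⟩

theorem g2963 : GoodF (fidx ts) 400 2963 := GoodF.ofV v2963 n2963 c2963.down b2963.down

/-- 4649444:2324/1 -/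
noncomputable def e2964 : SCfg where
  D := {
    a := 7
    L := 8
    kp := 6
    inn := [(0, 1), (1, 0), (1, 2), (1, 3), (1, 6), (2, 1), (2, 3), (3, 1), (3, 2), (3, 4), (3, 5), (3,
      6), (4, 3), (5, 3), (6, 1), (6, 3)]
    mix := [(0, 0), (0, 1), (0, 2), (1, 0), (1, 2), (2, 2), (2, 3), (3, 3), (3, 4), (3, 5), (3, 6), (4,
      1), (4, 3), (4, 4), (5, 5), (5, 6), (5, 7), (6, 0), (6, 6)]
    cl := [1, 2, 0, 3, 5, 3, 4, 6]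
    chq := [(0, 1), (0, 4), (1, 0), (3, 4), (4, 0), (4, 3)]
    rng := [(0, 1), (0, 6), (1, 0), (1, 2), (1, 3), (1, 4), (2, 1), (2, 3), (3, 1), (3, 2), (4, 1), (4,
      5), (5, 4), (5, 7), (6, 0), (6, 7), (7, 5), (7, 6)]
    lev := [] }
  links := [[1, 7, 8, 9], [7, 0, 9, 2, 3, 6], [3, 1, 9, 10], [6, 1, 2, 10, 4, 11, 12, 5, 13], [11, 3, 10,
    8], [13, 3, 12, 14], [7, 1, 3, 13]]
  P := {
    a := 7
    N := 15
    nb := [898, 717, 1546, 15478, 3336, 28680, 8330, 8515, 3729, 1287, 796, 4376, 18472, 16616, 12320]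
    tri := [(0, 1, 7), (0, 1, 9), (0, 7, 8), (0, 8, 9), (1, 2, 3), (1, 2, 9), (1, 3, 6), (1, 6, 7), (2,
      3, 10), (2, 9, 10), (3, 4, 10), (3, 4, 11), (3, 5, 12), (3, 5, 13), (3, 6, 13), (3, 11, 12),
      (4, 8, 10), (4, 8, 11), (5, 12, 14), (5, 13, 14), (6, 7, 13)]
    fin := [0, 1, 1, 3, 4, 3, 1, 0, 4, 1, 3, 11, 3, 13, 14]
    chd := [(0, 1), (1, 13), (3, 13)]
    steps := [(0, 7), (1, 2), (1, 6), (1, 9), (3, 5), (3, 10), (3, 12), (4, 8)] }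
  rep := [1, 0, 4, 3, 13, 11, 14]

noncomputable def v2964 : Cov.CovD where
  P := 3
  N := 4
  pl := [1, 4, 7]
  lev := [⟨[], [], [(0, 1)], [2], [(0, 1, [0]), (2, 0, [1, 4])]⟩,
    ⟨[], [(0, 0), (0, 1)], [(0, 1)], [], [(0, 1, [0]), (2, 0, [1, 4])]⟩,
    ⟨[(0, 1)], [(0, 0), (1, 0), (1, 1), (1, 3)], [(0, 3)], [], [(2, 0, [1, 4]), (3, 3,
      [4])]⟩,
    ⟨[(0, 1), (1, 2)], [(1, 0), (1, 1), (1, 3), (1, 4), (2, 0), (2, 3), (2, 4)], [(3, 3),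
      (3, 4)], [5], [(3, 3, [4]), (5, 3, [4]), (6, 4, [0, 3])]⟩,
    ⟨[(1, 3), (2, 3)], [(2, 3), (3, 3), (3, 4)], [], [2, 5], [(3, 3, [4])]⟩,
    ⟨[(1, 3), (2, 3), (3, 4)], [(3, 3), (3, 4)], [(3, 4)], [6], [(5, 3, [4]), (6, 4, [0,
      3])]⟩,
    ⟨[(0, 1), (1, 2), (1, 3), (2, 3), (3, 4), (3, 5)], [(0, 1), (1, 0), (1, 1), (1, 4), (3,
      1), (3, 3), (3, 4), (5, 4)], [(1, 4)], [], [(0, 1, [0]), (6, 4, [0, 3])]⟩]
  Ta := [((3, 1), 3, 2), ((3, 2), 3, 0), ((5, 4), 3, 5), ((5, 7), 3, 6)]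
  Tb := [((0, 1, 6), 1, 2, 4), ((1, 0, 2), 2, 1, 0), ((1, 0, 3), 2, 1, 3), ((1, 0, 4), 2, 1, 5),
    ((1, 2, 3), 2, 0, 3), ((1, 2, 4), 2, 0, 5), ((1, 3, 4), 2, 3, 5), ((2, 1, 3), 0, 2, 3),
    ((3, 1, 2), 3, 2, 0), ((4, 1, 5), 5, 2, 3), ((5, 4, 7), 3, 5, 6), ((6, 0, 7), 4, 1, 6),
    ((7, 5, 6), 6, 3, 4)]
  Tc := [(0, 1, 4), (4, 0, 3)]
  Td := [((0, 1), (2, 1), 2), ((0, 1), (2, 3), 3), ((0, 4), (2, 1), 2), ((0, 4), (2, 3), 3), ((1,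
    0), (0, 1), 2), ((1, 0), (0, 6), 4), ((3, 4), (3, 1), 2), ((3, 4), (3, 2), 0), ((3, 4),
    (5, 4), 5), ((3, 4), (5, 7), 6), ((4, 0), (6, 0), 1), ((4, 0), (6, 7), 6), ((4, 3), (6,
    0), 1), ((4, 3), (6, 7), 6)]
  G := [[0, 0x221184c1182a44711681428ca1c4, 0x1212c14461811ce1a84, 0x41581984cd2284,
    0x11311911ab1192644424c613113888194488ec8], [0, 0x123841442e931411c61456119481c8,
    0x141cf111cfc1284, 0x19319352844, 0x14584281284cd88a331118a828818bcc8]]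

noncomputable def n2964 : Ent := ⟨e2964, noF, [], [], []⟩

def c2964 : PLift (Cov.check n2964.C.D v2964 = true) := ⟨by decide +kernel⟩

def b2964 : PLift (entF (fidx ts) 400 2964 n2964 = true) := ⟨by decide +kernel⟩

theorem g2964 : GoodF (fidx ts) 400 2964 := GoodF.ofV v2964 n2964 c2964.down b2964.down

/-- 4649444:2324/2 -/
noncomputable def e2965 : SCfg where
  D := {
    a := 7
    L := 8
    kp := 6
    inn := [(0, 1), (1, 0), (1, 2), (1, 3), (1, 6), (2, 1), (2, 3), (3, 1), (3, 2), (3, 4), (3, 5), (3,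
      6), (4, 3), (5, 3), (6, 1), (6, 3)]
    mix := [(0, 0), (0, 1), (0, 2), (1, 0), (1, 2), (2, 2), (2, 3), (3, 3), (3, 4), (3, 5), (3, 6), (4,
      3), (4, 4), (4, 7), (5, 1), (5, 5), (5, 6), (6, 0), (6, 6)]
    cl := [3, 5, 1, 0, 4, 2, 0, 6]
    chq := [(0, 2), (0, 4), (1, 3), (2, 0), (3, 1), (4, 0)]
    rng := [(0, 1), (0, 6), (1, 0), (1, 2), (1, 5), (1, 6), (2, 1), (2, 3), (3, 2), (3, 7), (4, 5), (4,
      7), (5, 1), (5, 4), (6, 0), (6, 1), (7, 3), (7, 4)]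
    lev := [] }
  links := [[1, 7, 8, 9], [7, 0, 9, 2, 3, 6], [3, 1, 9, 10], [6, 1, 2, 10, 4, 11, 12, 5, 13], [11, 3, 10,
    14], [13, 3, 12, 8], [7, 1, 3, 13]]
  P := {
    a := 7
    N := 15
    nb := [898, 717, 1546, 15478, 19464, 12552, 8330, 8515, 12961, 1287, 16924, 20504, 2344, 488,
      3088]
    tri := [(0, 1, 7), (0, 1, 9), (0, 7, 8), (0, 8, 9), (1, 2, 3), (1, 2, 9), (1, 3, 6), (1, 6, 7), (2,
      3, 10), (2, 9, 10), (3, 4, 10), (3, 4, 11), (3, 5, 12), (3, 5, 13), (3, 6, 13), (3, 11, 12),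
      (4, 10, 14), (4, 11, 14), (5, 8, 12), (5, 8, 13), (6, 7, 13)]
    fin := [0, 0, 0, 3, 3, 5, 0, 0, 5, 9, 3, 11, 12, 3, 14]
    chd := [(0, 9), (3, 11), (3, 12)]
    steps := [(0, 1), (0, 2), (0, 6), (0, 7), (3, 4), (3, 10), (3, 13), (5, 8)] }
  rep := [3, 9, 12, 0, 11, 5, 14]

noncomputable def v2965 : Cov.CovD where
  P := 3
  N := 4
  pl := [1, 7]
  lev := [⟨[], [], [(1, 3)], [5], [(0, 3, [1]), (2, 1, [3])]⟩,
    ⟨[], [(0, 1), (0, 3)], [(1, 3)], [], [(0, 3, [1]), (2, 1, [3])]⟩,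
    ⟨[(0, 1)], [(0, 1), (1, 0), (1, 1), (1, 3)], [(0, 1)], [], [(2, 1, [3]), (3, 0, [2,
      4])]⟩,
    ⟨[(0, 1), (1, 2)], [(1, 0), (1, 1), (1, 2), (1, 3), (1, 4), (2, 0), (2, 1), (2, 2), (2,
      4)], [(0, 0), (0, 2), (0, 4), (2, 4)], [], [(3, 0, [2, 4]), (4, 4, [0]), (5, 2, [0]),
      (6, 0, [2, 4])]⟩,
    ⟨[(1, 3), (2, 3)], [(2, 0), (3, 0), (3, 2), (3, 4)], [(0, 4)], [6], [(3, 0, [2, 4]),
      (4, 4, [0])]⟩,
    ⟨[(1, 3), (2, 3), (3, 4)], [(3, 0), (3, 2), (3, 4)], [(0, 2)], [5], [(5, 2, [0]), (6,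
      0, [2, 4])]⟩,
    ⟨[(0, 1), (1, 2), (1, 3), (2, 3), (3, 4), (3, 5)], [(0, 3), (1, 0), (1, 1), (1, 3), (3,
      0), (3, 2), (3, 3), (3, 4), (5, 0)], [(0, 3)], [], [(0, 3, [1]), (6, 0, [2, 4])]⟩]
  Ta := [((3, 2), 0, 1), ((3, 7), 0, 6), ((6, 0), 0, 3), ((6, 1), 0, 5)]
  Tb := [((0, 1, 6), 3, 5, 0), ((1, 0, 2), 5, 3, 1), ((1, 0, 5), 5, 3, 2), ((1, 0, 6), 5, 3, 0),
    ((1, 2, 5), 5, 1, 2), ((1, 2, 6), 5, 1, 0), ((1, 5, 6), 5, 2, 0), ((2, 1, 3), 1, 5, 0),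
    ((3, 2, 7), 0, 1, 6), ((4, 5, 7), 4, 2, 6), ((5, 1, 4), 2, 5, 4), ((6, 0, 1), 0, 3, 5),
    ((7, 3, 4), 6, 0, 4)]
  Tc := [(0, 2, 4)]
  Td := [((0, 2), (3, 2), 1), ((0, 2), (3, 7), 6), ((0, 2), (6, 0), 3), ((0, 2), (6, 1), 5), ((0,
    4), (3, 2), 1), ((0, 4), (3, 7), 6), ((0, 4), (6, 0), 3), ((0, 4), (6, 1), 5), ((1, 3),
    (2, 1), 5), ((1, 3), (2, 3), 0), ((2, 0), (5, 1), 5), ((2, 0), (5, 4), 4), ((3, 1), (0,
    1), 5), ((3, 1), (0, 6), 0), ((4, 0), (4, 5), 2), ((4, 0), (4, 7), 6)]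
  G := [[0, 0x18186424181a822181a84e81146421414a822148648e189c164145c1a8c2e, 0x226122a1c811,
    0x2121642121a8c11, 0x2121c61c16a411], [0, 0, 0x22612261c811,
    0x281442818424188d241482418848148d42c1428c12121acc1d,
    0x281242818428184d22128a1a8422a2142a7c21a41d]]

noncomputable def n2965 : Ent := ⟨e2965, noF, [], [], []⟩

def c2965 : PLift (Cov.check n2965.C.D v2965 = true) := ⟨by decide +kernel⟩

def b2965 : PLift (entF (fidx ts) 400 2965 n2965 = true) := ⟨by decide +kernel⟩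

theorem g2965 : GoodF (fidx ts) 400 2965 := GoodF.ofV v2965 n2965 c2965.down b2965.down

/-- 4649444:2324 -/
noncomputable def e2966 : SCfg where
  D := {
    a := 7
    L := 9
    kp := 7
    inn := [(0, 1), (1, 0), (1, 2), (1, 3), (1, 6), (2, 1), (2, 3), (3, 1), (3, 2), (3, 4), (3, 5), (3,
      6), (4, 3), (5, 3), (6, 1), (6, 3)]
    mix := [(0, 0), (0, 1), (0, 2), (1, 0), (1, 2), (2, 2), (2, 3), (3, 3), (3, 4), (3, 5), (3, 6), (4,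
      3), (4, 4), (4, 7), (5, 5), (5, 6), (5, 8), (6, 0), (6, 6)]
    cl := [1, 6, 2, 0, 3, 4, 0, 7, 5]
    chq := [(0, 3), (1, 2), (2, 1), (3, 0), (3, 5), (5, 3)]
    rng := [(0, 1), (0, 6), (1, 0), (1, 2), (2, 1), (2, 3), (3, 2), (3, 7), (4, 5), (4, 7), (5, 4), (5,
      8), (6, 0), (6, 8), (7, 3), (7, 4), (8, 5), (8, 6)]
    lev := [] }
  links := [[1, 7, 8, 9], [7, 0, 9, 2, 3, 6], [3, 1, 9, 10], [6, 1, 2, 10, 4, 11, 12, 5, 13], [11, 3, 10,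
    14], [13, 3, 12, 15], [7, 1, 3, 13]]
  P := {
    a := 7
    N := 16
    nb := [898, 717, 1546, 15478, 19464, 45064, 8330, 8515, 641, 1287, 16924, 20504, 34856, 33000,
      3088, 12320]
    tri := [(0, 1, 7), (0, 1, 9), (0, 7, 8), (0, 8, 9), (1, 2, 3), (1, 2, 9), (1, 3, 6), (1, 6, 7), (2,
      3, 10), (2, 9, 10), (3, 4, 10), (3, 4, 11), (3, 5, 12), (3, 5, 13), (3, 6, 13), (3, 11, 12),
      (4, 10, 14), (4, 11, 14), (5, 12, 15), (5, 13, 15), (6, 7, 13)]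
    fin := [0, 1, 1, 3, 1, 3, 1, 0, 8, 9, 1, 3, 12, 1, 14, 15]
    chd := [(0, 9), (1, 3), (3, 15)]
    steps := [(0, 7), (1, 2), (1, 6), (1, 10), (1, 4), (1, 13), (3, 5), (3, 11)] }
  rep := [1, 0, 9, 3, 12, 15, 8, 14]

noncomputable def v2966 : Cov.CovD where
  P := 3
  N := 5
  pl := [1, 5, 7]
  lev := [⟨[], [], [(1, 2)], [6], [(0, 1, [2]), (2, 2, [1])]⟩,
    ⟨[], [(0, 1), (0, 2)], [(1, 2)], [], [(0, 1, [2]), (2, 2, [1])]⟩,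
    ⟨[(0, 1)], [(0, 2), (1, 0), (1, 1), (1, 2)], [(0, 2)], [], [(2, 2, [1]), (3, 0, [3])]⟩,
    ⟨[(0, 1), (1, 2)], [(1, 0), (1, 1), (1, 2), (1, 3), (2, 0), (2, 2), (2, 3)], [(0, 0),
      (0, 3)], [4], [(3, 0, [3]), (4, 3, [0, 5]), (6, 0, [3])]⟩,
    ⟨[(1, 3), (2, 3)], [(2, 0), (3, 0), (3, 3)], [(0, 3)], [7], [(3, 0, [3]), (4, 3, [0,
      5])]⟩,
    ⟨[(1, 3), (2, 3), (3, 4)], [(3, 0), (3, 3), (3, 5)], [(0, 5)], [4], [(6, 0, [3]), (8,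
      5, [3])]⟩,
    ⟨[(0, 1), (1, 2), (1, 3), (2, 3), (3, 4), (3, 5)], [(0, 1), (1, 0), (1, 1), (1, 2), (3,
      0), (3, 1), (3, 3), (5, 0)], [(0, 1)], [], [(0, 1, [2]), (6, 0, [3])]⟩]
  Ta := [((3, 2), 0, 2), ((3, 7), 0, 7), ((6, 0), 0, 1), ((6, 8), 0, 5)]
  Tb := [((0, 1, 6), 1, 6, 0), ((1, 0, 2), 6, 1, 2), ((2, 1, 3), 2, 6, 0), ((3, 2, 7), 0, 2, 7),
    ((4, 5, 7), 3, 4, 7), ((5, 4, 8), 4, 3, 5), ((6, 0, 8), 0, 1, 5), ((7, 3, 4), 7, 0, 3),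
    ((8, 5, 6), 5, 4, 0)]
  Tc := [(3, 0, 5)]
  Td := [((0, 3), (3, 2), 2), ((0, 3), (3, 7), 7), ((0, 3), (6, 0), 1), ((0, 3), (6, 8), 5), ((1,
    2), (0, 1), 6), ((1, 2), (0, 6), 0), ((2, 1), (2, 1), 6), ((2, 1), (2, 3), 0), ((3, 0),
    (4, 5), 4), ((3, 0), (4, 7), 7), ((3, 5), (4, 5), 4), ((3, 5), (4, 7), 7), ((5, 3), (8,
    5), 4), ((5, 3), (8, 6), 0)]
  G := [[0, 0, 0x4441149e21211a41e46414144e82c411841e248a8188e461161284e82cc,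
    0x222181e8188849e62258224e8c12454244e414881ea822188e4615,
    0x828188e448881e6414244e8a11211a18e144141e68414184e8299], [0,
    0x82a14226188c1ac422a144c1624618c8c, 0, 0x2144a34288188c922128658a48188c5241246982a1c64d,
    0x4144698148a34188c5e218188a54184c364188698a19]]

noncomputable def n2966 : Ent := ⟨e2966, noF, [], [], [(8, 14, [385746751338780685620664494392815470296102193487288376384634881, 0]), (8, 15, [360035742630636841211993100915356868655746945586763691019816961, 0])]⟩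

def c2966 : PLift (Cov.check n2966.C.D v2966 = true) := ⟨by decide +kernel⟩

def b2966 : PLift (entF (fidx ts) 400 2966 n2966 = true) := ⟨by decide +kernel⟩

theorem g2966 : GoodF (fidx ts) 400 2966 := GoodF.ofV v2966 n2966 c2966.down b2966.down

/-- 4649454:2325/1 -/
noncomputable def e2967 : SCfg where
  D := {
    a := 7
    L := 9
    kp := 6
    inn := [(0, 1), (1, 0), (1, 2), (1, 3), (2, 1), (2, 3), (3, 1), (3, 2), (3, 4), (3, 5), (3, 6), (4,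
      3), (5, 3), (5, 6), (6, 3), (6, 5)]
    mix := [(0, 0), (0, 1), (0, 2), (1, 0), (1, 2), (1, 3), (2, 2), (2, 4), (3, 3), (3, 4), (3, 5), (3,
      6), (4, 1), (4, 4), (4, 5), (5, 6), (5, 7), (5, 8), (6, 3), (6, 8)]
    cl := [4, 2, 0, 0, 1, 5, 1, 6, 3]
    chq := [(1, 3), (3, 1)]
    rng := [(0, 1), (0, 3), (1, 0), (1, 2), (1, 4), (1, 5), (2, 1), (2, 4), (3, 0), (3, 8), (4, 1), (4,
      2), (5, 1), (5, 6), (6, 5), (6, 7), (7, 6), (7, 8), (8, 3), (8, 7)]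
    lev := [] }
  links := [[1, 7, 8, 9], [7, 0, 9, 2, 3, 10], [3, 1, 9, 11], [10, 1, 2, 11, 4, 12, 13, 5, 6], [12, 3,
    11, 8], [6, 3, 13, 14, 15], [10, 3, 5, 15]]
  P := {
    a := 7
    N := 16
    nb := [898, 1677, 2570, 15478, 6408, 57416, 33832, 1283, 6801, 2311, 32970, 796, 8472, 20520,
      40992, 17504]
    tri := [(0, 1, 7), (0, 1, 9), (0, 7, 8), (0, 8, 9), (1, 2, 3), (1, 2, 9), (1, 3, 10), (1, 7, 10),
      (2, 3, 11), (2, 9, 11), (3, 4, 11), (3, 4, 12), (3, 5, 6), (3, 5, 13), (3, 6, 10), (3, 12,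
      13), (4, 8, 11), (4, 8, 12), (5, 6, 15), (5, 13, 14), (5, 14, 15), (6, 10, 15)]
    fin := [0, 1, 1, 3, 4, 3, 1, 0, 4, 1, 1, 3, 12, 3, 14, 15]
    chd := [(3, 15)]
    steps := [(0, 7), (1, 2), (1, 9), (1, 10), (1, 6), (3, 5), (3, 11), (3, 13), (4, 8)] }
  rep := [1, 3, 4, 15, 0, 12, 14]

noncomputable def v2967 : Cov.CovD where
  P := 3
  N := 4
  pl := [0, 1, 5, 7]
  lev := [⟨[], [], [], [2, 4], [(2, 0, [])]⟩,
    ⟨[], [(0, 0)], [(0, 0)], [4], [(2, 0, []), (3, 0, [])]⟩,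
    ⟨[(0, 1)], [(0, 0), (1, 0), (1, 1)], [(0, 1)], [], [(2, 0, []), (4, 1, [3])]⟩,
    ⟨[(0, 1), (1, 2)], [(1, 0), (1, 1), (2, 0), (2, 1)], [(0, 1), (1, 1)], [5], [(3, 0,
      []), (4, 1, [3]), (6, 1, [3])]⟩,
    ⟨[(1, 3), (2, 3)], [(2, 1), (3, 0), (3, 1)], [], [2, 5], [(4, 1, [3])]⟩,
    ⟨[(1, 3), (2, 3), (3, 4)], [(3, 0), (3, 1), (3, 3)], [(1, 3)], [6], [(6, 1, [3]), (8,
      3, [1])]⟩,
    ⟨[(1, 3), (2, 3), (3, 4), (3, 5)], [(1, 0), (3, 0), (3, 1), (3, 3), (5, 0), (5, 1), (5,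
      3)], [(0, 3)], [], [(3, 0, []), (8, 3, [1])]⟩]
  Ta := [((2, 1), 0, 2), ((2, 4), 0, 1), ((3, 0), 0, 4), ((3, 8), 0, 3), ((4, 1), 1, 2), ((4, 2),
    1, 0), ((6, 5), 1, 5), ((6, 7), 1, 6)]
  Tb := [((0, 1, 3), 4, 2, 0), ((1, 0, 2), 2, 4, 0), ((1, 0, 4), 2, 4, 1), ((1, 0, 5), 2, 4, 5),
    ((1, 2, 4), 2, 0, 1), ((1, 2, 5), 2, 0, 5), ((1, 4, 5), 2, 1, 5), ((2, 1, 4), 0, 2, 1),
    ((3, 0, 8), 0, 4, 3), ((4, 1, 2), 1, 2, 0), ((5, 1, 6), 5, 2, 1), ((6, 5, 7), 1, 5, 6),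
    ((7, 6, 8), 6, 1, 3), ((8, 3, 7), 3, 0, 6)]
  Tc := []
  Td := [((1, 3), (4, 1), 2), ((1, 3), (4, 2), 0), ((1, 3), (6, 5), 5), ((1, 3), (6, 7), 6), ((3,
    1), (8, 3), 0), ((3, 1), (8, 7), 6)]
  G := [[0, 0xa14c18628618c14a24c, 0xc2c248ce14812482c251288c2a, 0x121124c82128121c42c,
    0x112b1441127884c41278812b1c42a], [0, 0, 0x21484c22cc5221884c42528c21282c2d42a, 0,
    0x12922425412518984c12518a8291442d42a], [0, 0, 0, 0x829425484282981c8242544232898c25,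
    0x88822d941842582988242b9c12425289844b], [0, 0, 0, 0,
    0x822d24142528982c24142252898292cc2a]]

noncomputable def n2967 : Ent := ⟨e2967, noF, [], [], []⟩

def c2967 : PLift (Cov.check n2967.C.D v2967 = true) := ⟨by decide +kernel⟩

def b2967 : PLift (entF (fidx ts) 400 2967 n2967 = true) := ⟨by decide +kernel⟩

theorem g2967 : GoodF (fidx ts) 400 2967 := GoodF.ofV v2967 n2967 c2967.down b2967.down

/-- 4649454:2325/2 -/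
noncomputable def e2968 : SCfg where
  D := {
    a := 7
    L := 9
    kp := 6
    inn := [(0, 1), (1, 0), (1, 2), (1, 3), (2, 1), (2, 3), (3, 1), (3, 2), (3, 4), (3, 5), (3, 6), (4,
      3), (5, 3), (5, 6), (6, 3), (6, 5)]
    mix := [(0, 0), (0, 1), (0, 2), (1, 0), (1, 2), (1, 3), (2, 2), (2, 4), (3, 3), (3, 4), (3, 5), (3,
      6), (4, 4), (4, 5), (4, 7), (5, 1), (5, 6), (5, 8), (6, 3), (6, 8)]
    cl := [4, 2, 0, 0, 1, 5, 1, 6, 3]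
    chq := [(1, 3), (3, 1)]
    rng := [(0, 1), (0, 3), (1, 0), (1, 2), (1, 6), (1, 8), (2, 1), (2, 4), (3, 0), (3, 8), (4, 2), (4,
      7), (5, 6), (5, 7), (6, 1), (6, 5), (7, 4), (7, 5), (8, 1), (8, 3)]
    lev := [] }
  links := [[1, 7, 8, 9], [7, 0, 9, 2, 3, 10], [3, 1, 9, 11], [10, 1, 2, 11, 4, 12, 13, 5, 6], [12, 3,
    11, 14], [6, 3, 13, 8, 15], [10, 3, 5, 15]]
  P := {
    a := 7
    N := 16
    nb := [898, 1677, 2570, 15478, 22536, 41288, 33832, 1283, 41633, 2311, 32970, 16924, 24600, 4392,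
      6160, 1376]
    tri := [(0, 1, 7), (0, 1, 9), (0, 7, 8), (0, 8, 9), (1, 2, 3), (1, 2, 9), (1, 3, 10), (1, 7, 10),
      (2, 3, 11), (2, 9, 11), (3, 4, 11), (3, 4, 12), (3, 5, 6), (3, 5, 13), (3, 6, 10), (3, 12,
      13), (4, 11, 14), (4, 12, 14), (5, 6, 15), (5, 8, 13), (5, 8, 15), (6, 10, 15)]
    fin := [0, 1, 1, 3, 3, 5, 3, 0, 5, 1, 1, 3, 12, 3, 14, 15]
    chd := [(3, 15)]
    steps := [(0, 7), (1, 2), (1, 9), (1, 10), (3, 4), (3, 6), (3, 11), (3, 13), (5, 8)] }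
  rep := [1, 3, 5, 15, 0, 12, 14]

noncomputable def v2968 : Cov.CovD where
  P := 3
  N := 4
  pl := [0, 1, 5, 7]
  lev := [⟨[], [], [], [2, 4], [(2, 0, [])]⟩,
    ⟨[], [(0, 0)], [(0, 0)], [4], [(2, 0, []), (3, 0, [])]⟩,
    ⟨[(0, 1)], [(0, 0), (1, 0), (1, 1)], [(0, 1)], [], [(2, 0, []), (4, 1, [3])]⟩,
    ⟨[(0, 1), (1, 2)], [(1, 0), (1, 1), (2, 0), (2, 1)], [(0, 1), (1, 1)], [5], [(3, 0,
      []), (4, 1, [3]), (6, 1, [3])]⟩,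
    ⟨[(1, 3), (2, 3)], [(2, 1), (3, 0), (3, 1)], [], [5, 6], [(4, 1, [3])]⟩,
    ⟨[(1, 3), (2, 3), (3, 4)], [(3, 0), (3, 1), (3, 3)], [(1, 3)], [2], [(6, 1, [3]), (8,
      3, [1])]⟩,
    ⟨[(1, 3), (2, 3), (3, 4), (3, 5)], [(1, 0), (3, 0), (3, 1), (3, 3), (5, 0), (5, 1), (5,
      3)], [(0, 3)], [], [(3, 0, []), (8, 3, [1])]⟩]
  Ta := [((2, 1), 0, 2), ((2, 4), 0, 1), ((3, 0), 0, 4), ((3, 8), 0, 3), ((4, 2), 1, 0), ((4, 7),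
    1, 6), ((6, 1), 1, 2), ((6, 5), 1, 5)]
  Tb := [((0, 1, 3), 4, 2, 0), ((1, 0, 2), 2, 4, 0), ((1, 0, 6), 2, 4, 1), ((1, 0, 8), 2, 4, 3),
    ((1, 2, 6), 2, 0, 1), ((1, 2, 8), 2, 0, 3), ((1, 6, 8), 2, 1, 3), ((2, 1, 4), 0, 2, 1),
    ((3, 0, 8), 0, 4, 3), ((4, 2, 7), 1, 0, 6), ((5, 6, 7), 5, 1, 6), ((6, 1, 5), 1, 2, 5),
    ((7, 4, 5), 6, 1, 5), ((8, 1, 3), 3, 2, 0)]
  Tc := []
  Td := [((1, 3), (4, 2), 0), ((1, 3), (4, 7), 6), ((1, 3), (6, 1), 2), ((1, 3), (6, 5), 5), ((3,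
    1), (8, 1), 2), ((3, 1), (8, 3), 0)]
  G := [[0, 0xa1485a2c1a1c468a1c16261a1c8a4c, 0x881234421622c984c12448811a82c5411621c98c2e, 0,
    0x21144212121d24a494c212154212198c2a], [0, 0, 0x2822822ca52488c4614484c22c1414c224c49c2a,
    0x212212c8221288212446c, 0x212442121982c2121542128c2a], [0, 0, 0, 0,
    0x229849541423429981c423823988292295452a], [0, 0, 0, 0x212212c4242528292c825,
    0x4292829229829bc14429282298295452a]]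

noncomputable def n2968 : Ent := ⟨e2968, noF, [], [], []⟩

def c2968 : PLift (Cov.check n2968.C.D v2968 = true) := ⟨by decide +kernel⟩

def b2968 : PLift (entF (fidx ts) 400 2968 n2968 = true) := ⟨by decide +kernel⟩

theorem g2968 : GoodF (fidx ts) 400 2968 := GoodF.ofV v2968 n2968 c2968.down b2968.down

/-- 4649454:2325 -/
noncomputable def e2969 : SCfg where
  D := {
    a := 7
    L := 10
    kp := 7
    inn := [(0, 1), (1, 0), (1, 2), (1, 3), (2, 1), (2, 3), (3, 1), (3, 2), (3, 4), (3, 5), (3, 6), (4,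
      3), (5, 3), (5, 6), (6, 3), (6, 5)]
    mix := [(0, 0), (0, 1), (0, 2), (1, 0), (1, 2), (1, 3), (2, 2), (2, 4), (3, 3), (3, 4), (3, 5), (3,
      6), (4, 4), (4, 5), (4, 7), (5, 6), (5, 8), (5, 9), (6, 3), (6, 9)]
    cl := [2, 5, 1, 0, 0, 3, 0, 6, 7, 4]
    chq := [(1, 2), (2, 1)]
    rng := [(0, 1), (0, 3), (1, 0), (1, 2), (2, 1), (2, 4), (3, 0), (3, 9), (4, 2), (4, 7), (5, 6), (5,
      7), (6, 5), (6, 8), (7, 4), (7, 5), (8, 6), (8, 9), (9, 3), (9, 8)]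
    lev := [] }
  links := [[1, 7, 8, 9], [7, 0, 9, 2, 3, 10], [3, 1, 9, 11], [10, 1, 2, 11, 4, 12, 13, 5, 6], [12, 3,
    11, 14], [6, 3, 13, 15, 16], [10, 3, 5, 16]]
  P := {
    a := 7
    N := 17
    nb := [898, 1677, 2570, 15478, 22536, 106568, 66600, 1283, 641, 2311, 65738, 16924, 24600, 36904,
      6160, 73760, 33888]
    tri := [(0, 1, 7), (0, 1, 9), (0, 7, 8), (0, 8, 9), (1, 2, 3), (1, 2, 9), (1, 3, 10), (1, 7, 10),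
      (2, 3, 11), (2, 9, 11), (3, 4, 11), (3, 4, 12), (3, 5, 6), (3, 5, 13), (3, 6, 10), (3, 12,
      13), (4, 11, 14), (4, 12, 14), (5, 6, 16), (5, 13, 15), (5, 15, 16), (6, 10, 16)]
    fin := [0, 0, 0, 3, 3, 3, 3, 0, 8, 9, 3, 3, 12, 3, 14, 15, 16]
    chd := [(0, 9)]
    steps := [(0, 1), (0, 2), (0, 7), (3, 4), (3, 5), (3, 6), (3, 11), (3, 13), (3, 10)] }
  rep := [3, 9, 0, 12, 16, 8, 14, 15]

noncomputable def v2969 : Cov.CovD where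
  P := 3
  N := 5
  pl := [1, 5, 7, 8, 9]
  lev := [⟨[], [], [(1, 2)], [5], [(0, 2, [1]), (2, 1, [2])]⟩,
    ⟨[], [(0, 0), (0, 1), (0, 2)], [(0, 1), (0, 2), (1, 2)], [], [(0, 2, [1]), (2, 1, [2]),
      (3, 0, [])]⟩,
    ⟨[(0, 1)], [(0, 1), (1, 0), (1, 1), (1, 2)], [(0, 1)], [], [(2, 1, [2]), (4, 0, [])]⟩,
    ⟨[(0, 1), (1, 2)], [(1, 0), (1, 1), (1, 2), (2, 0), (2, 1)], [(0, 0)], [3], [(3, 0,
      []), (4, 0, []), (6, 0, [])]⟩,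
    ⟨[(1, 3), (2, 3)], [(2, 0), (3, 0)], [], [3, 6], [(4, 0, [])]⟩,
    ⟨[(1, 3), (2, 3), (3, 4)], [(3, 0)], [], [4, 7], [(6, 0, [])]⟩,
    ⟨[(1, 3), (2, 3), (3, 4), (3, 5)], [(1, 0), (3, 0), (5, 0)], [], [4], [(3, 0, [])]⟩]
  Ta := [((3, 0), 0, 2), ((3, 9), 0, 4), ((4, 2), 0, 1), ((4, 7), 0, 6), ((6, 5), 0, 3), ((6, 8),
    0, 7)]
  Tb := [((0, 1, 3), 2, 5, 0), ((1, 0, 2), 5, 2, 1), ((2, 1, 4), 1, 5, 0), ((3, 0, 9), 0, 2, 4),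
    ((4, 2, 7), 0, 1, 6), ((5, 6, 7), 3, 0, 6), ((6, 5, 8), 0, 3, 7), ((7, 4, 5), 6, 0, 3),
    ((8, 6, 9), 7, 0, 4), ((9, 3, 8), 4, 0, 7)]
  Tc := []
  Td := [((1, 2), (2, 1), 5), ((1, 2), (2, 4), 0), ((2, 1), (0, 1), 5), ((2, 1), (0, 3), 0)]
  G := [[0, 0, 0xa11611a44611c11a84c, 0x4287122ab1c24482d1842d1688c,
    0x22ab1482d1648824b1284b16889], [0, 0x61c1626161c8a4a1442c1226188acc, 0,
    0xa14c1266188a1a1a1c61c1a6889, 0xa144618c12ac161a1ca1c1a6889], [0, 0, 0,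
    0x42662a922284c2e41141e1214c4894811e2281cd428d,
    0x8882a22e442614444887ac1812e1141e84ca62228c89]]

noncomputable def n2969 : Ent := ⟨e2969, noF, [], [], [(8, 14, [1685382413448253767852309107433119732572617628602273068445377064961, 0]), (8, 15, [1685356702439545624007900436039642273970977273354372543760012247041, 0])]⟩

def c2969 : PLift (Cov.check n2969.C.D v2969 = true) := ⟨by decide +kernel⟩

def b2969 : PLift (entF (fidx ts) 400 2969 n2969 = true) := ⟨by decide +kernel⟩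

theorem g2969 : GoodF (fidx ts) 400 2969 := GoodF.ofV v2969 n2969 c2969.down b2969.down

/-- 4649454:2326/1 -/
noncomputable def e2970 : SCfg where
  D := {
    a := 7
    L := 9
    kp := 6
    inn := [(0, 1), (1, 0), (1, 2), (1, 3), (2, 1), (2, 3), (3, 1), (3, 2), (3, 4), (3, 5), (3, 6), (4,
      3), (4, 5), (5, 3), (5, 4), (6, 3)]
    mix := [(0, 0), (0, 1), (0, 2), (1, 0), (1, 2), (1, 3), (2, 2), (2, 4), (3, 3), (3, 4), (3, 5), (3,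
      6), (4, 1), (4, 5), (5, 1), (5, 6), (5, 7), (6, 3), (6, 6), (6, 8)]
    cl := [2, 1, 0, 0, 4, 3, 3, 6, 5]
    chq := [(4, 5), (5, 4)]
    rng := [(0, 1), (0, 3), (1, 0), (1, 2), (1, 5), (1, 7), (2, 1), (2, 4), (3, 0), (3, 8), (4, 2), (4,
      5), (5, 1), (5, 4), (6, 7), (6, 8), (7, 1), (7, 6), (8, 3), (8, 6)]
    lev := [] }
  links := [[1, 7, 8, 9], [7, 0, 9, 2, 3, 10], [3, 1, 9, 11], [10, 1, 2, 11, 12, 4, 5, 13, 6], [5, 3, 12,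
    8], [13, 3, 4, 8, 14], [10, 3, 13, 15]]
  P := {
    a := 7
    N := 16
    nb := [898, 1677, 2570, 15478, 4392, 24856, 41992, 1283, 21169, 2311, 32970, 4620, 2328, 49256,
      8480, 9280]
    tri := [(0, 1, 7), (0, 1, 9), (0, 7, 8), (0, 8, 9), (1, 2, 3), (1, 2, 9), (1, 3, 10), (1, 7, 10),
      (2, 3, 11), (2, 9, 11), (3, 4, 5), (3, 4, 12), (3, 5, 13), (3, 6, 10), (3, 6, 13), (3, 11,
      12), (4, 5, 8), (4, 8, 12), (5, 8, 14), (5, 13, 14), (6, 10, 15), (6, 13, 15)]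
    fin := [0, 1, 1, 3, 4, 4, 3, 0, 8, 1, 1, 3, 4, 4, 14, 15]
    chd := [(3, 15)]
    steps := [(0, 7), (1, 2), (1, 9), (1, 10), (3, 6), (3, 11), (4, 5), (4, 12), (4, 13)] }
  rep := [1, 8, 0, 4, 3, 15, 14]

noncomputable def v2970 : Cov.CovD where
  P := 3
  N := 4
  pl := [0, 1, 7]
  lev := [⟨[], [], [], [1, 2], [(2, 0, [])]⟩,
    ⟨[], [(0, 0)], [(0, 0)], [2], [(2, 0, []), (3, 0, [])]⟩,
    ⟨[(0, 1)], [(0, 0), (1, 0), (1, 4)], [(0, 4)], [], [(2, 0, []), (4, 4, [5])]⟩,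
    ⟨[(0, 1), (1, 2)], [(1, 0), (1, 3), (1, 4), (2, 0), (2, 3), (2, 4)], [(0, 3), (0, 4),
      (3, 3), (3, 4)], [], [(3, 0, []), (4, 4, [5]), (5, 3, []), (6, 3, [])]⟩,
    ⟨[(1, 3), (2, 3)], [(3, 0), (3, 3), (3, 4)], [], [1], [(5, 3, [])]⟩,
    ⟨[(1, 3), (2, 3), (3, 4)], [(3, 0), (3, 3), (3, 4), (4, 3)], [], [1, 6], [(6, 3, [])]⟩,
    ⟨[(1, 3), (2, 3), (3, 4), (3, 5)], [(1, 0), (3, 0), (3, 3), (3, 4), (3, 5), (5, 3)],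
      [(0, 3), (0, 5), (3, 5)], [], [(3, 0, []), (6, 3, []), (8, 5, [4])]⟩]
  Ta := [((2, 1), 0, 1), ((2, 4), 0, 4), ((3, 0), 0, 2), ((3, 8), 0, 5), ((5, 1), 3, 1), ((5, 4),
    3, 4), ((6, 7), 3, 6), ((6, 8), 3, 5)]
  Tb := [((0, 1, 3), 2, 1, 0), ((1, 0, 2), 1, 2, 0), ((1, 0, 5), 1, 2, 3), ((1, 0, 7), 1, 2, 6),
    ((1, 2, 5), 1, 0, 3), ((1, 2, 7), 1, 0, 6), ((1, 5, 7), 1, 3, 6), ((2, 1, 4), 0, 1, 4),
    ((3, 0, 8), 0, 2, 5), ((4, 2, 5), 4, 0, 3), ((5, 1, 4), 3, 1, 4), ((6, 7, 8), 3, 6, 5),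
    ((7, 1, 6), 6, 1, 3), ((8, 3, 6), 5, 0, 3)]
  Tc := []
  Td := [((4, 5), (4, 2), 0), ((4, 5), (4, 5), 3), ((5, 4), (8, 3), 0), ((5, 4), (8, 6), 3)]
  G := [[0, 0xc224614248a1688, 0, 0x2142428c9c11892a44, 0xc114522c8321258181c4a8], [0,
    0xa22e814cce81688, 0, 0x441d422191881d8ac42158488c, 0xcc1d8222158421948ca8], [0, 0,
    0x245828944891e124, 0x22582818468ce148, 0x2458289448c1e128], [0, 0,
    0x225184cd861229481c8, 0x225141229184cd1a1c8, 0x225184cd461229481a8]]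

noncomputable def n2970 : Ent := ⟨e2970, noF, [], [], []⟩

def c2970 : PLift (Cov.check n2970.C.D v2970 = true) := ⟨by decide +kernel⟩

def b2970 : PLift (entF (fidx ts) 400 2970 n2970 = true) := ⟨by decide +kernel⟩

theorem g2970 : GoodF (fidx ts) 400 2970 := GoodF.ofV v2970 n2970 c2970.down b2970.down

/-- 4649454:2326/2 -/
noncomputable def e2971 : SCfg where
  D := {
    a := 7
    L := 9
    kp := 6
    inn := [(0, 1), (1, 0), (1, 2), (1, 3), (2, 1), (2, 3), (3, 1), (3, 2), (3, 4), (3, 5), (3, 6), (4,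
      3), (4, 5), (5, 3), (5, 4), (6, 3)]
    mix := [(0, 0), (0, 1), (0, 2), (1, 0), (1, 2), (1, 3), (2, 2), (2, 4), (3, 3), (3, 4), (3, 5), (3,
      6), (4, 5), (4, 7), (5, 1), (5, 6), (5, 7), (6, 3), (6, 6), (6, 8)]
    cl := [2, 1, 0, 0, 3, 4, 3, 5, 6]
    chq := [(1, 4), (4, 1)]
    rng := [(0, 1), (0, 3), (1, 0), (1, 2), (1, 6), (1, 7), (2, 1), (2, 4), (3, 0), (3, 8), (4, 2), (4,
      5), (5, 4), (5, 7), (6, 1), (6, 8), (7, 1), (7, 5), (8, 3), (8, 6)]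
    lev := [] }
  links := [[1, 7, 8, 9], [7, 0, 9, 2, 3, 10], [3, 1, 9, 11], [10, 1, 2, 11, 12, 4, 5, 13, 6], [5, 3, 12,
    14], [13, 3, 4, 14, 8], [10, 3, 13, 15]]
  P := {
    a := 7
    N := 16
    nb := [898, 1677, 2570, 15478, 20520, 24856, 41992, 1283, 25249, 2311, 32970, 4620, 18456, 33128,
      4400, 9280]
    tri := [(0, 1, 7), (0, 1, 9), (0, 7, 8), (0, 8, 9), (1, 2, 3), (1, 2, 9), (1, 3, 10), (1, 7, 10),
      (2, 3, 11), (2, 9, 11), (3, 4, 5), (3, 4, 12), (3, 5, 13), (3, 6, 10), (3, 6, 13), (3, 11,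
      12), (4, 5, 14), (4, 12, 14), (5, 8, 13), (5, 8, 14), (6, 10, 15), (6, 13, 15)]
    fin := [0, 1, 1, 3, 4, 4, 1, 0, 4, 1, 1, 3, 12, 3, 14, 15]
    chd := [(4, 12)]
    steps := [(0, 7), (1, 2), (1, 9), (1, 10), (1, 6), (3, 11), (3, 13), (4, 5), (4, 8)] }
  rep := [1, 4, 0, 3, 12, 14, 15]

noncomputable def v2971 : Cov.CovD where
  P := 3
  N := 4
  pl := [0, 7, 8]
  lev := [⟨[], [], [(0, 1)], [2], [(1, 1, [4]), (2, 0, [])]⟩,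
    ⟨[], [(0, 0), (0, 1)], [(0, 0)], [2], [(2, 0, []), (3, 0, [])]⟩,
    ⟨[(0, 1)], [(0, 0), (1, 0), (1, 3)], [(0, 3)], [], [(2, 0, []), (4, 3, [])]⟩,
    ⟨[(0, 1), (1, 2)], [(1, 0), (1, 3), (1, 4), (2, 0), (2, 3), (2, 4)], [(0, 3), (0, 4),
      (3, 3), (3, 4)], [], [(3, 0, []), (4, 3, []), (5, 4, [1]), (6, 3, [])]⟩,
    ⟨[(1, 3), (2, 3)], [(3, 0), (3, 3), (3, 4)], [], [5], [(5, 4, [1])]⟩,
    ⟨[(1, 3), (2, 3), (3, 4)], [(0, 1), (3, 0), (3, 1), (3, 3), (3, 4), (4, 1), (4, 3), (4,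
      4)], [(1, 3)], [5], [(1, 1, [4]), (6, 3, [])]⟩,
    ⟨[(1, 3), (2, 3), (3, 4), (3, 5)], [(1, 0), (3, 0), (3, 3), (3, 4), (5, 3)], [(0, 3)],
      [6], [(3, 0, []), (6, 3, [])]⟩]
  Ta := [((2, 1), 0, 1), ((2, 4), 0, 3), ((3, 0), 0, 2), ((3, 8), 0, 6), ((4, 2), 3, 0), ((4, 5),
    3, 4), ((6, 1), 3, 1), ((6, 8), 3, 6)]
  Tb := [((0, 1, 3), 2, 1, 0), ((1, 0, 2), 1, 2, 0), ((1, 0, 6), 1, 2, 3), ((1, 0, 7), 1, 2, 5),
    ((1, 2, 6), 1, 0, 3), ((1, 2, 7), 1, 0, 5), ((1, 6, 7), 1, 3, 5), ((2, 1, 4), 0, 1, 3),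
    ((3, 0, 8), 0, 2, 6), ((4, 2, 5), 3, 0, 4), ((5, 4, 7), 4, 3, 5), ((6, 1, 8), 3, 1, 6),
    ((7, 1, 5), 5, 1, 4), ((8, 3, 6), 6, 0, 3)]
  Tc := []
  Td := [((1, 4), (1, 0), 2), ((1, 4), (1, 2), 0), ((1, 4), (1, 6), 3), ((1, 4), (1, 7), 5), ((4,
    1), (5, 4), 3), ((4, 1), (5, 7), 5)]
  G := [[0, 0x11a1441161811c12ac4, 0, 0x41c228c522c48, 0xc1c4d8e24811526345288a8], [0,
    0x14111c1e6aa2ccce7288, 0, 0x111d22848, 0x119211c1811b64119284a8], [0, 0,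
    0x48c48cdc172144, 0x48cd22144, 0xa468c1c1f2188], [0, 0, 0x68ed264a821da1ca6d2c116864,
    0x225a294c521f2844, 0x64a8e1d2168ed2ca6d2c1a8]]

noncomputable def n2971 : Ent := ⟨e2971, noF, [], [], []⟩

def c2971 : PLift (Cov.check n2971.C.D v2971 = true) := ⟨by decide +kernel⟩

def b2971 : PLift (entF (fidx ts) 400 2971 n2971 = true) := ⟨by decide +kernel⟩

theorem g2971 : GoodF (fidx ts) 400 2971 := GoodF.ofV v2971 n2971 c2971.down b2971.down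

/-- 4649454:2326 -/
noncomputable def e2972 : SCfg where
  D := {
    a := 7
    L := 10
    kp := 7
    inn := [(0, 1), (1, 0), (1, 2), (1, 3), (2, 1), (2, 3), (3, 1), (3, 2), (3, 4), (3, 5), (3, 6), (4,
      3), (4, 5), (5, 3), (5, 4), (6, 3)]
    mix := [(0, 0), (0, 1), (0, 2), (1, 0), (1, 2), (1, 3), (2, 2), (2, 4), (3, 3), (3, 4), (3, 5), (3,
      6), (4, 5), (4, 7), (5, 6), (5, 7), (5, 8), (6, 3), (6, 6), (6, 9)]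
    cl := [3, 6, 0, 0, 2, 1, 1, 4, 7, 5]
    chq := [(2, 5), (5, 2)]
    rng := [(0, 1), (0, 3), (1, 0), (1, 2), (2, 1), (2, 4), (3, 0), (3, 9), (4, 2), (4, 5), (5, 4), (5,
      7), (6, 8), (6, 9), (7, 5), (7, 8), (8, 6), (8, 7), (9, 3), (9, 6)]
    lev := [] }
  links := [[1, 7, 8, 9], [7, 0, 9, 2, 3, 10], [3, 1, 9, 11], [10, 1, 2, 11, 12, 4, 5, 13, 6], [5, 3, 12,
    14], [13, 3, 4, 14, 15], [10, 3, 13, 16]]
  P := {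
    a := 7
    N := 17
    nb := [898, 1677, 2570, 15478, 20520, 57368, 74760, 1283, 641, 2311, 65738, 4620, 18456, 98408,
      36912, 24608, 9280]
    tri := [(0, 1, 7), (0, 1, 9), (0, 7, 8), (0, 8, 9), (1, 2, 3), (1, 2, 9), (1, 3, 10), (1, 7, 10),
      (2, 3, 11), (2, 9, 11), (3, 4, 5), (3, 4, 12), (3, 5, 13), (3, 6, 10), (3, 6, 13), (3, 11,
      12), (4, 5, 14), (4, 12, 14), (5, 13, 15), (5, 14, 15), (6, 10, 16), (6, 13, 16)]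
    fin := [0, 1, 1, 3, 4, 4, 3, 0, 8, 1, 1, 3, 4, 4, 14, 15, 16]
    chd := [(3, 16)]
    steps := [(0, 7), (1, 2), (1, 9), (1, 10), (3, 6), (3, 11), (4, 5), (4, 12), (4, 13)] }
  rep := [1, 4, 3, 0, 14, 16, 8, 15]

noncomputable def v2972 : Cov.CovD where
  P := 3
  N := 5
  pl := [0, 1, 7, 8]
  lev := [⟨[], [], [], [3, 6], [(2, 0, [])]⟩,
    ⟨[], [(0, 0)], [(0, 0)], [3], [(2, 0, []), (3, 0, [])]⟩,
    ⟨[(0, 1)], [(0, 0), (1, 0), (1, 2)], [(0, 2)], [], [(2, 0, []), (4, 2, [5])]⟩,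
    ⟨[(0, 1), (1, 2)], [(1, 0), (1, 1), (1, 2), (2, 0), (2, 1), (2, 2)], [(0, 1), (0, 2),
      (1, 1), (1, 2)], [], [(3, 0, []), (4, 2, [5]), (5, 1, []), (6, 1, [])]⟩,
    ⟨[(1, 3), (2, 3)], [(3, 0), (3, 1), (3, 2)], [], [4], [(5, 1, [])]⟩,
    ⟨[(1, 3), (2, 3), (3, 4)], [(3, 0), (3, 1), (3, 2), (4, 1)], [], [4, 7], [(6, 1, [])]⟩,
    ⟨[(1, 3), (2, 3), (3, 4), (3, 5)], [(1, 0), (3, 0), (3, 1), (3, 2), (3, 5), (5, 1)],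
      [(0, 1), (0, 5), (1, 5)], [], [(3, 0, []), (6, 1, []), (9, 5, [2])]⟩]
  Ta := [((2, 1), 0, 6), ((2, 4), 0, 2), ((3, 0), 0, 3), ((3, 9), 0, 5), ((5, 4), 1, 2), ((5, 7),
    1, 4), ((6, 8), 1, 7), ((6, 9), 1, 5)]
  Tb := [((0, 1, 3), 3, 6, 0), ((1, 0, 2), 6, 3, 0), ((2, 1, 4), 0, 6, 2), ((3, 0, 9), 0, 3, 5),
    ((4, 2, 5), 2, 0, 1), ((5, 4, 7), 1, 2, 4), ((6, 8, 9), 1, 7, 5), ((7, 5, 8), 4, 1, 7),
    ((8, 6, 7), 7, 1, 4), ((9, 3, 6), 5, 0, 1)]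
  Tc := []
  Td := [((2, 5), (4, 2), 0), ((2, 5), (4, 5), 1), ((5, 2), (9, 3), 0), ((5, 2), (9, 6), 1)]
  G := [[0, 0x229223a448225223688422a21c482e, 0x121259428121295824122295842e,
    0x12129448121258841212c842e, 0x44a446c1281242598241161435882e], [0,
    0x22a1442448424484e28844242258828848e222e1842e, 0x111d24281418117824111d2482e, 0,
    0x44c2124118841282e414d282444116488982e], [0, 0x2122a641822a21c4822122a6844b, 0,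
    0x24215288c4224428219c42c2c294887, 0x424259814446423588442c425822d], [0,
    0x282269418222e1814222e1842d, 0, 0, 0x444496814444496814444d2822d]]

noncomputable def n2972 : Ent := ⟨e2972, noF, [], [], [(8, 14, [1685382413448253767852309107433119732572617628602273068445377077249, 0]), (8, 15, [1685356702439545624007900436039642273970977273354372543760012259329, 0])]⟩

def c2972 : PLift (Cov.check n2972.C.D v2972 = true) := ⟨by decide +kernel⟩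

def b2972 : PLift (entF (fidx ts) 400 2972 n2972 = true) := ⟨by decide +kernel⟩

theorem g2972 : GoodF (fidx ts) 400 2972 := GoodF.ofV v2972 n2972 c2972.down b2972.down

/-- 4649455:2327/1 -/
noncomputable def e2973 : SCfg where
  D := {
    a := 7
    L := 10
    kp := 7
    inn := [(0, 1), (1, 0), (1, 2), (1, 3), (2, 1), (2, 3), (3, 1), (3, 2), (3, 4), (3, 5), (3, 6), (4,
      3), (4, 5), (5, 3), (5, 4), (6, 3)]
    mix := [(0, 0), (0, 1), (0, 2), (1, 0), (1, 2), (1, 3), (2, 2), (2, 4), (3, 3), (3, 4), (3, 5), (3,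
      6), (4, 1), (4, 5), (5, 1), (5, 6), (5, 7), (6, 3), (6, 6), (6, 8), (6, 9)]
    cl := [2, 1, 0, 0, 4, 3, 3, 7, 5, 6]
    chq := [(4, 5), (4, 6), (5, 4), (6, 4)]
    rng := [(0, 1), (0, 3), (1, 0), (1, 2), (1, 5), (1, 7), (2, 1), (2, 4), (3, 0), (3, 9), (4, 2), (4,
      5), (5, 1), (5, 4), (6, 7), (6, 8), (7, 1), (7, 6), (8, 6), (8, 9), (9, 3), (9, 8)]
    lev := [] }
  links := [[1, 7, 8, 9], [7, 0, 9, 2, 3, 10], [3, 1, 9, 11], [10, 1, 2, 11, 12, 4, 5, 13, 6], [5, 3, 12,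
    8], [13, 3, 4, 8, 14], [10, 3, 13, 15, 16]]
  P := {
    a := 7
    N := 17
    nb := [898, 1677, 2570, 15478, 4392, 24856, 107528, 1283, 21169, 2311, 65738, 4620, 2328, 49256,
      8480, 73792, 33856]
    tri := [(0, 1, 7), (0, 1, 9), (0, 7, 8), (0, 8, 9), (1, 2, 3), (1, 2, 9), (1, 3, 10), (1, 7, 10),
      (2, 3, 11), (2, 9, 11), (3, 4, 5), (3, 4, 12), (3, 5, 13), (3, 6, 10), (3, 6, 13), (3, 11,
      12), (4, 5, 8), (4, 8, 12), (5, 8, 14), (5, 13, 14), (6, 10, 16), (6, 13, 15), (6, 15, 16)]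
    fin := [0, 1, 1, 3, 4, 4, 3, 0, 8, 1, 1, 3, 4, 4, 14, 15, 16]
    chd := [(3, 15), (3, 16)]
    steps := [(0, 7), (1, 2), (1, 9), (1, 10), (3, 6), (3, 11), (4, 5), (4, 12), (4, 13)] }
  rep := [1, 8, 0, 4, 3, 15, 16, 14]

noncomputable def v2973 : Cov.CovD where
  P := 3
  N := 5
  pl := [0, 1, 7]
  lev := [⟨[], [], [], [1, 2], [(2, 0, [])]⟩,
    ⟨[], [(0, 0)], [(0, 0)], [2], [(2, 0, []), (3, 0, [])]⟩,
    ⟨[(0, 1)], [(0, 0), (1, 0), (1, 4)], [(0, 4)], [], [(2, 0, []), (4, 4, [5, 6])]⟩,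
    ⟨[(0, 1), (1, 2)], [(1, 0), (1, 3), (1, 4), (2, 0), (2, 3), (2, 4)], [(0, 3), (0, 4),
      (3, 3), (3, 4)], [], [(3, 0, []), (4, 4, [5, 6]), (5, 3, []), (6, 3, [])]⟩,
    ⟨[(1, 3), (2, 3)], [(3, 0), (3, 3), (3, 4)], [], [1], [(5, 3, [])]⟩,
    ⟨[(1, 3), (2, 3), (3, 4)], [(3, 0), (3, 3), (3, 4), (4, 3)], [], [1, 7], [(6, 3, [])]⟩,
    ⟨[(1, 3), (2, 3), (3, 4), (3, 5)], [(1, 0), (3, 0), (3, 3), (3, 4), (3, 5), (3, 6), (5,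
      3)], [(0, 3), (0, 5), (0, 6), (3, 5), (3, 6), (5, 6)], [], [(3, 0, []), (6, 3, []), (8,
      5, [4]), (9, 6, [4])]⟩]
  Ta := [((2, 1), 0, 1), ((2, 4), 0, 4), ((3, 0), 0, 2), ((3, 9), 0, 6), ((5, 1), 3, 1), ((5, 4),
    3, 4), ((6, 7), 3, 7), ((6, 8), 3, 5)]
  Tb := [((0, 1, 3), 2, 1, 0), ((1, 0, 2), 1, 2, 0), ((1, 0, 5), 1, 2, 3), ((1, 0, 7), 1, 2, 7),
    ((1, 2, 5), 1, 0, 3), ((1, 2, 7), 1, 0, 7), ((1, 5, 7), 1, 3, 7), ((2, 1, 4), 0, 1, 4),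
    ((3, 0, 9), 0, 2, 6), ((4, 2, 5), 4, 0, 3), ((5, 1, 4), 3, 1, 4), ((6, 7, 8), 3, 7, 5),
    ((7, 1, 6), 7, 1, 3), ((8, 6, 9), 5, 3, 6), ((9, 3, 8), 6, 0, 5)]
  Tc := [(4, 5, 6)]
  Td := [((4, 5), (4, 2), 0), ((4, 5), (4, 5), 3), ((4, 6), (4, 2), 0), ((4, 6), (4, 5), 3), ((5,
    4), (8, 6), 3), ((5, 4), (8, 9), 6), ((6, 4), (9, 3), 0), ((6, 4), (9, 8), 5)]
  G := [[0, 0x4248a1228ea461c48, 0, 0x281414896225881845ac48, 0x81448c1622258a81c445886a8], [0,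
    0x262e81c8ce41a44, 0, 0x284844225142148dddd82e8c, 0x989d4243258444d1622918ca8], [0, 0,
    0x6458a89448c1e124, 0x26582818148c5e148, 0x6458a89448c1e128], [0, 0,
    0x84cd4216294a258c164, 0x22518ccd461629481c8, 0x6291a25184cd1e128]]

noncomputable def n2973 : Ent := ⟨e2973, noF, [], [], []⟩

def c2973 : PLift (Cov.check n2973.C.D v2973 = true) := ⟨by decide +kernel⟩

def b2973 : PLift (entF (fidx ts) 400 2973 n2973 = true) := ⟨by decide +kernel⟩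

theorem g2973 : GoodF (fidx ts) 400 2973 := GoodF.ofV v2973 n2973 c2973.down b2973.down

/-- 4649455:2327/2 -/
noncomputable def e2974 : SCfg where
  D := {
    a := 7
    L := 10
    kp := 7
    inn := [(0, 1), (1, 0), (1, 2), (1, 3), (2, 1), (2, 3), (3, 1), (3, 2), (3, 4), (3, 5), (3, 6), (4,
      3), (4, 5), (5, 3), (5, 4), (6, 3)]
    mix := [(0, 0), (0, 1), (0, 2), (1, 0), (1, 2), (1, 3), (2, 2), (2, 4), (3, 3), (3, 4), (3, 5), (3,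
      6), (4, 5), (4, 7), (5, 1), (5, 6), (5, 7), (6, 3), (6, 6), (6, 8), (6, 9)]
    cl := [1, 2, 0, 0, 4, 3, 3, 5, 6, 7]
    chq := [(4, 6), (4, 7), (6, 4), (7, 4)]
    rng := [(0, 1), (0, 3), (1, 0), (1, 2), (1, 6), (1, 7), (2, 1), (2, 4), (3, 0), (3, 9), (4, 2), (4,
      5), (5, 4), (5, 7), (6, 1), (6, 8), (7, 1), (7, 5), (8, 6), (8, 9), (9, 3), (9, 8)]
    lev := [] }
  links := [[1, 7, 8, 9], [7, 0, 9, 2, 3, 10], [3, 1, 9, 11], [10, 1, 2, 11, 12, 4, 5, 13, 6], [5, 3, 12,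
    14], [13, 3, 4, 14, 8], [10, 3, 13, 15, 16]]
  P := {
    a := 7
    N := 17
    nb := [898, 1677, 2570, 15478, 20520, 24856, 107528, 1283, 25249, 2311, 65738, 4620, 18456, 33128,
      4400, 73792, 33856]
    tri := [(0, 1, 7), (0, 1, 9), (0, 7, 8), (0, 8, 9), (1, 2, 3), (1, 2, 9), (1, 3, 10), (1, 7, 10),
      (2, 3, 11), (2, 9, 11), (3, 4, 5), (3, 4, 12), (3, 5, 13), (3, 6, 10), (3, 6, 13), (3, 11,
      12), (4, 5, 14), (4, 12, 14), (5, 8, 13), (5, 8, 14), (6, 10, 16), (6, 13, 15), (6, 15, 16)]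
    fin := [0, 1, 1, 3, 4, 4, 3, 0, 8, 1, 1, 3, 4, 4, 14, 15, 16]
    chd := [(3, 15), (3, 16)]
    steps := [(0, 7), (1, 2), (1, 9), (1, 10), (3, 6), (3, 11), (4, 5), (4, 12), (4, 13)] }
  rep := [1, 0, 8, 4, 3, 14, 15, 16]

noncomputable def v2974 : Cov.CovD where
  P := 3
  N := 5
  pl := [0, 1, 7]
  lev := [⟨[], [], [], [1, 2], [(2, 0, [])]⟩,
    ⟨[], [(0, 0)], [(0, 0)], [1], [(2, 0, []), (3, 0, [])]⟩,
    ⟨[(0, 1)], [(0, 0), (1, 0), (1, 4)], [(0, 4)], [], [(2, 0, []), (4, 4, [6, 7])]⟩,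
    ⟨[(0, 1), (1, 2)], [(1, 0), (1, 3), (1, 4), (2, 0), (2, 3), (2, 4)], [(0, 3), (0, 4),
      (3, 3), (3, 4)], [], [(3, 0, []), (4, 4, [6, 7]), (5, 3, []), (6, 3, [])]⟩,
    ⟨[(1, 3), (2, 3)], [(3, 0), (3, 3), (3, 4)], [], [5], [(5, 3, [])]⟩,
    ⟨[(1, 3), (2, 3), (3, 4)], [(3, 0), (3, 3), (3, 4), (4, 3)], [], [2, 5], [(6, 3, [])]⟩,
    ⟨[(1, 3), (2, 3), (3, 4), (3, 5)], [(1, 0), (3, 0), (3, 3), (3, 4), (3, 6), (3, 7), (5,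
      3)], [(0, 3), (0, 6), (0, 7), (3, 6), (3, 7), (6, 7)], [], [(3, 0, []), (6, 3, []), (8,
      6, [4]), (9, 7, [4])]⟩]
  Ta := [((2, 1), 0, 2), ((2, 4), 0, 4), ((3, 0), 0, 1), ((3, 9), 0, 7), ((5, 4), 3, 4), ((5, 7),
    3, 5), ((6, 1), 3, 2), ((6, 8), 3, 6)]
  Tb := [((0, 1, 3), 1, 2, 0), ((1, 0, 2), 2, 1, 0), ((1, 0, 6), 2, 1, 3), ((1, 0, 7), 2, 1, 5),
    ((1, 2, 6), 2, 0, 3), ((1, 2, 7), 2, 0, 5), ((1, 6, 7), 2, 3, 5), ((2, 1, 4), 0, 2, 4),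
    ((3, 0, 9), 0, 1, 7), ((4, 2, 5), 4, 0, 3), ((5, 4, 7), 3, 4, 5), ((6, 1, 8), 3, 2, 6),
    ((7, 1, 5), 5, 2, 3), ((8, 6, 9), 6, 3, 7), ((9, 3, 8), 7, 0, 6)]
  Tc := [(4, 6, 7)]
  Td := [((4, 6), (4, 2), 0), ((4, 6), (4, 5), 3), ((4, 7), (4, 2), 0), ((4, 7), (4, 5), 3), ((6,
    4), (8, 6), 3), ((6, 4), (8, 9), 7), ((7, 4), (9, 3), 0), ((7, 4), (9, 8), 6)]
  G := [[0, 0, 0x286462e1c88482e1a44, 0x212282d452242f88522c48,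
    0x282221b44142c888281b48415ea48], [0, 0, 0x26c6261c8886c1a48,
    0x222d2445d2621198985c288bc84, 0x222b126a45544b288993a884d95ea48], [0,
    0x2124a28213c8c4c1de148, 0, 0x26522a92ccc2e148, 0xa8a2a1b48415614142c81c8], [0,
    0x686253829a4a84cc15e128, 0, 0x2252412292c49c85ca1c8, 0x82aa1c844bc296168243681c8]]

noncomputable def n2974 : Ent := ⟨e2974, noF, [], [], []⟩

def c2974 : PLift (Cov.check n2974.C.D v2974 = true) := ⟨by decide +kernel⟩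

def b2974 : PLift (entF (fidx ts) 400 2974 n2974 = true) := ⟨by decide +kernel⟩

theorem g2974 : GoodF (fidx ts) 400 2974 := GoodF.ofV v2974 n2974 c2974.down b2974.down

/-- 4649455:2327 -/
noncomputable def e2975 : SCfg where
  D := {
    a := 7
    L := 11
    kp := 8
    inn := [(0, 1), (1, 0), (1, 2), (1, 3), (2, 1), (2, 3), (3, 1), (3, 2), (3, 4), (3, 5), (3, 6), (4,
      3), (4, 5), (5, 3), (5, 4), (6, 3)]
    mix := [(0, 0), (0, 1), (0, 2), (1, 0), (1, 2), (1, 3), (2, 2), (2, 4), (3, 3), (3, 4), (3, 5), (3,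
      6), (4, 5), (4, 7), (5, 6), (5, 7), (5, 8), (6, 3), (6, 6), (6, 9), (6, 10)]
    cl := [3, 7, 0, 0, 2, 1, 1, 4, 8, 5, 6]
    chq := [(2, 5), (2, 6), (5, 2), (6, 2)]
    rng := [(0, 1), (0, 3), (1, 0), (1, 2), (2, 1), (2, 4), (3, 0), (3, 10), (4, 2), (4, 5), (5, 4),
      (5, 7), (6, 8), (6, 9), (7, 5), (7, 8), (8, 6), (8, 7), (9, 6), (9, 10), (10, 3), (10, 9)]
    lev := [] }
  links := [[1, 7, 8, 9], [7, 0, 9, 2, 3, 10], [3, 1, 9, 11], [10, 1, 2, 11, 12, 4, 5, 13, 6], [5, 3, 12,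
    14], [13, 3, 4, 14, 15], [10, 3, 13, 16, 17]]
  P := {
    a := 7
    N := 18
    nb := [898, 1677, 2570, 15478, 20520, 57368, 205832, 1283, 641, 2311, 131274, 4620, 18456, 98408,
      36912, 24608, 139328, 66624]
    tri := [(0, 1, 7), (0, 1, 9), (0, 7, 8), (0, 8, 9), (1, 2, 3), (1, 2, 9), (1, 3, 10), (1, 7, 10),
      (2, 3, 11), (2, 9, 11), (3, 4, 5), (3, 4, 12), (3, 5, 13), (3, 6, 10), (3, 6, 13), (3, 11,
      12), (4, 5, 14), (4, 12, 14), (5, 13, 15), (5, 14, 15), (6, 10, 17), (6, 13, 16), (6, 16,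
      17)]
    fin := [0, 1, 1, 3, 4, 4, 3, 0, 8, 1, 1, 3, 4, 4, 14, 15, 16, 17]
    chd := [(3, 16), (3, 17)]
    steps := [(0, 7), (1, 2), (1, 9), (1, 10), (3, 6), (3, 11), (4, 5), (4, 12), (4, 13)] }
  rep := [1, 4, 3, 0, 14, 16, 17, 8, 15]

noncomputable def v2975 : Cov.CovD where
  P := 3
  N := 6
  pl := [0, 1, 7, 8]
  lev := [⟨[], [], [], [3, 7], [(2, 0, [])]⟩,
    ⟨[], [(0, 0)], [(0, 0)], [3], [(2, 0, []), (3, 0, [])]⟩,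
    ⟨[(0, 1)], [(0, 0), (1, 0), (1, 2)], [(0, 2)], [], [(2, 0, []), (4, 2, [5, 6])]⟩,
    ⟨[(0, 1), (1, 2)], [(1, 0), (1, 1), (1, 2), (2, 0), (2, 1), (2, 2)], [(0, 1), (0, 2),
      (1, 1), (1, 2)], [], [(3, 0, []), (4, 2, [5, 6]), (5, 1, []), (6, 1, [])]⟩,
    ⟨[(1, 3), (2, 3)], [(3, 0), (3, 1), (3, 2)], [], [4], [(5, 1, [])]⟩,
    ⟨[(1, 3), (2, 3), (3, 4)], [(3, 0), (3, 1), (3, 2), (4, 1)], [], [4, 8], [(6, 1, [])]⟩,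
    ⟨[(1, 3), (2, 3), (3, 4), (3, 5)], [(1, 0), (3, 0), (3, 1), (3, 2), (3, 5), (3, 6), (5,
      1)], [(0, 1), (0, 5), (0, 6), (1, 5), (1, 6), (5, 6)], [], [(3, 0, []), (6, 1, []), (9,
      5, [2]), (10, 6, [2])]⟩]
  Ta := [((2, 1), 0, 7), ((2, 4), 0, 2), ((3, 0), 0, 3), ((3, 10), 0, 6), ((5, 4), 1, 2), ((5,
    7), 1, 4), ((6, 8), 1, 8), ((6, 9), 1, 5)]
  Tb := [((0, 1, 3), 3, 7, 0), ((1, 0, 2), 7, 3, 0), ((2, 1, 4), 0, 7, 2), ((3, 0, 10), 0, 3, 6),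
    ((4, 2, 5), 2, 0, 1), ((5, 4, 7), 1, 2, 4), ((6, 8, 9), 1, 8, 5), ((7, 5, 8), 4, 1, 8),
    ((8, 6, 7), 8, 1, 4), ((9, 6, 10), 5, 1, 6), ((10, 3, 9), 6, 0, 5)]
  Tc := [(2, 5, 6)]
  Td := [((2, 5), (4, 2), 0), ((2, 5), (4, 5), 1), ((2, 6), (4, 2), 0), ((2, 6), (4, 5), 1), ((5,
    2), (9, 6), 1), ((5, 2), (9, 10), 6), ((6, 2), (10, 3), 0), ((6, 2), (10, 9), 5)]
  G := [[0, 0x229223a448225223688421226a482e, 0x11a113944812115c82411c125842e,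
    0x2112824c54824215288984d22259482e, 0x44a446c128424441d82444a446c182e], [0,
    0x2822a442418424148e2884422618828184e222e1842e, 0x111d242814119682411c113482e, 0,
    0x44c2124128841288e444d28244452488982e], [0, 0x21222ba4482122a68142122a6842d, 0,
    0x22c229584224215288c1824428219c84b, 0x4244598224244598124464435884b], [0,
    0x222e1842222e1842222e1844b, 0, 0, 0x444d2814444d2814444d2822d]]

noncomputable def n2975 : Ent := ⟨e2975, noF, [], [], [(8, 14, [7334790875878422277917280412776772662961875900559637987928627381653505, 0]), (8, 15, [7334790850167413569773436004105379185503274260204390087403942016835585, 0])]⟩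

def c2975 : PLift (Cov.check n2975.C.D v2975 = true) := ⟨by decide +kernel⟩

def b2975 : PLift (entF (fidx ts) 400 2975 n2975 = true) := ⟨by decide +kernel⟩

theorem g2975 : GoodF (fidx ts) 400 2975 := GoodF.ofV v2975 n2975 c2975.down b2975.down

/-- 4649464:2331/1 -/
noncomputable def e2976 : SCfg where
  D := {
    a := 7
    L := 10
    kp := 7
    inn := [(0, 1), (1, 0), (1, 2), (1, 3), (1, 4), (2, 1), (2, 3), (3, 1), (3, 2), (3, 4), (3, 5), (4,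
      1), (4, 3), (5, 3), (5, 6), (6, 5)]
    mix := [(0, 0), (0, 1), (0, 2), (1, 0), (1, 2), (2, 2), (2, 3), (3, 3), (3, 4), (3, 5), (3, 6), (3,
      7), (4, 0), (4, 7), (5, 3), (5, 4), (5, 8), (5, 9), (6, 1), (6, 3), (6, 8)]
    cl := [3, 2, 1, 0, 0, 6, 7, 0, 4, 5]
    chq := [(1, 3), (2, 5), (3, 1), (5, 2)]
    rng := [(0, 1), (0, 7), (1, 0), (1, 2), (1, 3), (1, 8), (2, 1), (2, 3), (3, 1), (3, 2), (4, 5), (4,
      9), (5, 4), (5, 6), (6, 5), (6, 7), (7, 0), (7, 6), (8, 1), (8, 9), (9, 4), (9, 8)]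
    lev := [] }
  links := [[1, 7, 8, 9], [7, 0, 9, 2, 3, 4], [3, 1, 9, 10], [4, 1, 2, 10, 5, 11, 12, 13, 14], [7, 1, 3,
    14], [11, 3, 10, 6, 15, 16], [15, 5, 10, 8]]
  P := {
    a := 7
    N := 17
    nb := [898, 669, 1546, 31798, 16522, 101448, 34080, 16659, 34497, 1287, 876, 69672, 10248, 20488,
      8344, 65888, 34848]
    tri := [(0, 1, 7), (0, 1, 9), (0, 7, 8), (0, 8, 9), (1, 2, 3), (1, 2, 9), (1, 3, 4), (1, 4, 7), (2,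
      3, 10), (2, 9, 10), (3, 4, 14), (3, 5, 10), (3, 5, 11), (3, 11, 12), (3, 12, 13), (3, 13,
      14), (4, 7, 14), (5, 6, 10), (5, 6, 15), (5, 11, 16), (5, 15, 16), (6, 8, 10), (6, 8, 15)]
    fin := [0, 0, 0, 3, 0, 5, 5, 0, 5, 9, 3, 3, 12, 13, 3, 15, 16]
    chd := [(0, 9), (5, 16)]
    steps := [(0, 1), (0, 2), (0, 4), (0, 7), (3, 10), (3, 11), (3, 14), (5, 6), (5, 8)] }
  rep := [3, 9, 5, 0, 15, 16, 12, 13]

noncomputable def v2976 : Cov.CovD where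
  P := 3
  N := 5
  pl := [5, 6, 8]
  lev := [⟨[], [], [(1, 2), (1, 3), (2, 3)], [], [(0, 3, [1]), (1, 2, [5]), (2, 1, [3])]⟩,
    ⟨[], [(0, 1), (0, 2), (0, 3)], [(1, 3)], [], [(0, 3, [1]), (2, 1, [3])]⟩,
    ⟨[(0, 1)], [(0, 1), (1, 0), (1, 1), (1, 3)], [(0, 1)], [], [(2, 1, [3]), (3, 0, [])]⟩,
    ⟨[(0, 1), (1, 2)], [(1, 0), (1, 1), (1, 3), (2, 0), (2, 1)], [(0, 0)], [6, 7], [(3, 0,
      []), (4, 0, []), (7, 0, [])]⟩,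
    ⟨[(0, 1), (1, 2), (1, 3), (2, 3)], [(0, 3), (1, 0), (1, 1), (1, 3), (3, 0), (3, 3)],
      [(0, 3)], [], [(0, 3, [1]), (7, 0, [])]⟩,
    ⟨[(1, 3), (2, 3), (3, 4)], [(2, 0), (3, 0), (3, 5)], [(0, 0), (0, 5)], [4], [(3, 0,
      []), (4, 0, []), (9, 5, [2])]⟩,
    ⟨[(3, 5)], [(0, 2), (2, 0), (3, 0), (5, 0), (5, 2), (5, 5)], [(0, 2)], [4], [(1, 2,
      [5]), (3, 0, [])]⟩]
  Ta := [((3, 1), 0, 2), ((3, 2), 0, 1), ((4, 5), 0, 6), ((4, 9), 0, 5), ((7, 0), 0, 3), ((7, 6),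
    0, 7)]
  Tb := [((0, 1, 7), 3, 2, 0), ((1, 0, 2), 2, 3, 1), ((1, 0, 3), 2, 3, 0), ((1, 0, 8), 2, 3, 4),
    ((1, 2, 3), 2, 1, 0), ((1, 2, 8), 2, 1, 4), ((1, 3, 8), 2, 0, 4), ((2, 1, 3), 1, 2, 0),
    ((3, 1, 2), 0, 2, 1), ((4, 5, 9), 0, 6, 5), ((5, 4, 6), 6, 0, 7), ((6, 5, 7), 7, 6, 0),
    ((7, 0, 6), 0, 3, 7), ((8, 1, 9), 4, 2, 5), ((9, 4, 8), 5, 0, 4)]
  Tc := []
  Td := [((1, 3), (2, 1), 2), ((1, 3), (2, 3), 0), ((2, 5), (1, 0), 3), ((2, 5), (1, 2), 1), ((2,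
    5), (1, 3), 0), ((2, 5), (1, 8), 4), ((3, 1), (0, 1), 2), ((3, 1), (0, 7), 0), ((5, 2),
    (9, 4), 0), ((5, 2), (9, 8), 4)]
  G := [[0, 0x84ce1248ce14648ce284ac21244ce184c1aa88ce2486c,
    0x8a2e84642e284ce8ac142628a2e284ce4e6848c1c, 0xc22c22c2c2ce811,
    0x8a2e242a2e2a48a8ecac11], [0, 0, 0, 0x5225225252ce811, 0x1862812e2348a8ece2828c11], [0,
    0, 0, 0x92448c22c28a1c9225229292ce415, 0x8a2e22a8e4612a2e481c812e24218e28289c6ac19]]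

noncomputable def n2976 : Ent := ⟨e2976, noF, [], [], []⟩

def c2976 : PLift (Cov.check n2976.C.D v2976 = true) := ⟨by decide +kernel⟩

def b2976 : PLift (entF (fidx ts) 400 2976 n2976 = true) := ⟨by decide +kernel⟩

theorem g2976 : GoodF (fidx ts) 400 2976 := GoodF.ofV v2976 n2976 c2976.down b2976.down

/-- 4649464:2331/3 -/
noncomputable def e2977 : SCfg where
  D := {
    a := 7
    L := 9
    kp := 6
    inn := [(0, 1), (1, 0), (1, 2), (1, 3), (1, 4), (2, 1), (2, 3), (3, 1), (3, 2), (3, 4), (3, 5), (4,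
      1), (4, 3), (5, 3), (5, 6), (6, 5)]
    mix := [(0, 0), (0, 1), (0, 2), (1, 0), (1, 2), (2, 2), (2, 3), (3, 3), (3, 4), (3, 5), (3, 6), (3,
      7), (4, 0), (4, 7), (5, 1), (5, 3), (5, 4), (5, 8), (6, 1), (6, 2), (6, 3)]
    cl := [2, 3, 1, 0, 0, 5, 6, 0, 4]
    chq := [(1, 2), (1, 4), (2, 1), (4, 1)]
    rng := [(0, 1), (0, 7), (1, 0), (1, 2), (1, 8), (2, 1), (2, 3), (3, 2), (4, 5), (4, 8), (5, 4), (5,
      6), (6, 5), (6, 7), (7, 0), (7, 6), (8, 1), (8, 4)]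
    lev := [] }
  links := [[1, 7, 8, 9], [7, 0, 9, 2, 3, 4], [3, 1, 9, 10], [4, 1, 2, 10, 5, 11, 12, 13, 14], [7, 1, 3,
    14], [11, 3, 10, 6, 8, 15], [8, 5, 10, 9]]
  P := {
    a := 7
    N := 16
    nb := [898, 669, 1546, 31798, 16522, 36168, 1824, 16659, 33505, 1351, 620, 36904, 10248, 20488,
      8344, 2336]
    tri := [(0, 1, 7), (0, 1, 9), (0, 7, 8), (0, 8, 9), (1, 2, 3), (1, 2, 9), (1, 3, 4), (1, 4, 7), (2,
      3, 10), (2, 9, 10), (3, 4, 14), (3, 5, 10), (3, 5, 11), (3, 11, 12), (3, 12, 13), (3, 13,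
      14), (4, 7, 14), (5, 6, 8), (5, 6, 10), (5, 8, 15), (5, 11, 15), (6, 8, 9), (6, 9, 10)]
    fin := [0, 0, 0, 3, 0, 5, 5, 0, 8, 5, 3, 3, 12, 13, 3, 15]
    chd := [(0, 5), (5, 15)]
    steps := [(0, 1), (0, 2), (0, 4), (0, 7), (3, 10), (3, 11), (3, 14), (5, 6), (5, 9)] }
  rep := [3, 5, 0, 8, 15, 12, 13]

noncomputable def v2977 : Cov.CovD where
  P := 3
  N := 4
  pl := [1, 5, 6]
  lev := [⟨[], [], [(1, 2)], [3], [(0, 2, [1]), (2, 1, [2, 4])]⟩,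
    ⟨[], [(0, 1), (0, 2)], [(1, 2)], [], [(0, 2, [1]), (2, 1, [2, 4])]⟩,
    ⟨[(0, 1)], [(0, 1), (1, 0), (1, 1), (1, 2)], [(0, 1)], [], [(2, 1, [2, 4]), (3, 0,
      [])]⟩,
    ⟨[(0, 1), (1, 2)], [(1, 0), (1, 1), (1, 2), (2, 0), (2, 1)], [(0, 0)], [5, 6], [(3, 0,
      []), (4, 0, []), (7, 0, [])]⟩,
    ⟨[(0, 1), (1, 2), (1, 3), (2, 3)], [(0, 2), (1, 0), (1, 1), (1, 2), (3, 0), (3, 2)],
      [(0, 2)], [], [(0, 2, [1]), (7, 0, [])]⟩,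
    ⟨[(1, 3), (2, 3), (3, 4)], [(2, 0), (3, 0), (3, 4)], [(0, 0), (0, 4)], [3], [(3, 0,
      []), (4, 0, []), (8, 4, [1])]⟩,
    ⟨[(3, 5)], [(0, 1), (1, 1), (2, 0), (2, 1), (3, 0), (5, 0), (5, 1), (5, 4)], [(0, 1)],
      [3], [(2, 1, [2, 4]), (3, 0, [])]⟩]
  Ta := [((3, 2), 0, 1), ((4, 5), 0, 5), ((4, 8), 0, 4), ((7, 0), 0, 2), ((7, 6), 0, 6)]
  Tb := [((0, 1, 7), 2, 3, 0), ((1, 0, 2), 3, 2, 1), ((1, 0, 8), 3, 2, 4), ((1, 2, 8), 3, 1, 4),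
    ((2, 1, 3), 1, 3, 0), ((4, 5, 8), 0, 5, 4), ((5, 4, 6), 5, 0, 6), ((6, 5, 7), 6, 5, 0),
    ((7, 0, 6), 0, 2, 6), ((8, 1, 4), 4, 3, 0)]
  Tc := [(1, 2, 4)]
  Td := [((1, 2), (2, 1), 3), ((1, 2), (2, 3), 0), ((1, 4), (2, 1), 3), ((1, 4), (2, 3), 0), ((2,
    1), (0, 1), 3), ((2, 1), (0, 7), 0), ((4, 1), (8, 1), 3), ((4, 1), (8, 4), 0)]
  G := [[0, 0x82a188a16468a184c42642284468ea48468c, 0, 0x8242821821ca4422421428e48c,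
    0x48a282284c2e4148c2444614214c61ec89], [0, 0, 0, 0x428422428e41122128828e815,
    0x42248c888a8e81411e21281244ae419], [0, 0, 0x11a8418a281a8ac411624814624168a8cc,
    0x824422428e41124128824e485, 0x88c288c2614448a8491281221168e419]]

noncomputable def n2977 : Ent := ⟨e2977, noF, [], [], []⟩

def c2977 : PLift (Cov.check n2977.C.D v2977 = true) := ⟨by decide +kernel⟩

def b2977 : PLift (entF (fidx ts) 400 2977 n2977 = true) := ⟨by decide +kernel⟩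

theorem g2977 : GoodF (fidx ts) 400 2977 := GoodF.ofV v2977 n2977 c2977.down b2977.down

/-- 4649464:2331/2 -/
noncomputable def e2978 : SCfg where
  D := {
    a := 7
    L := 10
    kp := 7
    inn := [(0, 1), (1, 0), (1, 2), (1, 3), (1, 4), (2, 1), (2, 3), (3, 1), (3, 2), (3, 4), (3, 5), (4,
      1), (4, 3), (5, 3), (5, 6), (6, 5)]
    mix := [(0, 0), (0, 1), (0, 2), (1, 0), (1, 2), (2, 2), (2, 3), (3, 3), (3, 4), (3, 5), (3, 6), (3,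
      7), (4, 0), (4, 7), (5, 1), (5, 3), (5, 4), (5, 8), (6, 1), (6, 3), (6, 9)]
    cl := [3, 2, 1, 0, 0, 6, 7, 0, 4, 5]
    chq := [(1, 3), (3, 1), (4, 5), (5, 4)]
    rng := [(0, 1), (0, 7), (1, 0), (1, 2), (1, 8), (1, 9), (2, 1), (2, 3), (3, 2), (3, 9), (4, 5), (4,
      8), (5, 4), (5, 6), (6, 5), (6, 7), (7, 0), (7, 6), (8, 1), (8, 4), (9, 1), (9, 3)]
    lev := [] }
  links := [[1, 7, 8, 9], [7, 0, 9, 2, 3, 4], [3, 1, 9, 10], [4, 1, 2, 10, 5, 11, 12, 13, 14], [7, 1, 3,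
    14], [11, 3, 10, 6, 8, 15], [8, 5, 10, 16]]
  P := {
    a := 7
    N := 17
    nb := [898, 669, 1546, 31798, 16522, 36168, 66848, 16659, 99041, 1287, 66156, 36904, 10248, 20488,
      8344, 2336, 1344]
    tri := [(0, 1, 7), (0, 1, 9), (0, 7, 8), (0, 8, 9), (1, 2, 3), (1, 2, 9), (1, 3, 4), (1, 4, 7), (2,
      3, 10), (2, 9, 10), (3, 4, 14), (3, 5, 10), (3, 5, 11), (3, 11, 12), (3, 12, 13), (3, 13,
      14), (4, 7, 14), (5, 6, 8), (5, 6, 10), (5, 8, 15), (5, 11, 15), (6, 8, 16), (6, 10, 16)]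
    fin := [0, 0, 0, 3, 0, 5, 5, 0, 8, 9, 3, 3, 12, 13, 3, 15, 5]
    chd := [(0, 9), (15, 5)]
    steps := [(0, 1), (0, 2), (0, 4), (0, 7), (3, 10), (3, 11), (3, 14), (5, 6), (5, 16)] }
  rep := [3, 9, 8, 0, 15, 5, 12, 13]

noncomputable def v2978 : Cov.CovD where
  P := 3
  N := 5
  pl := [1, 5, 6]
  lev := [⟨[], [], [(1, 3)], [2], [(0, 3, [1]), (2, 1, [3])]⟩,
    ⟨[], [(0, 1), (0, 3)], [(1, 3)], [], [(0, 3, [1]), (2, 1, [3])]⟩,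
    ⟨[(0, 1)], [(0, 1), (1, 0), (1, 1), (1, 3)], [(0, 1)], [], [(2, 1, [3]), (3, 0, [])]⟩,
    ⟨[(0, 1), (1, 2)], [(1, 0), (1, 1), (1, 3), (2, 0), (2, 1)], [(0, 0)], [6, 7], [(3, 0,
      []), (4, 0, []), (7, 0, [])]⟩,
    ⟨[(0, 1), (1, 2), (1, 3), (2, 3)], [(0, 3), (1, 0), (1, 1), (1, 3), (3, 0), (3, 3)],
      [(0, 3)], [], [(0, 3, [1]), (7, 0, [])]⟩,
    ⟨[(1, 3), (2, 3), (3, 4)], [(2, 0), (3, 0), (3, 4)], [(0, 0), (0, 4)], [2], [(3, 0,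
      []), (4, 0, []), (8, 4, [5])]⟩,
    ⟨[(3, 5)], [(2, 0), (3, 0), (5, 0), (5, 4), (5, 5)], [(0, 5)], [2], [(3, 0, []), (9, 5,
      [4])]⟩]
  Ta := [((3, 2), 0, 1), ((3, 9), 0, 5), ((4, 5), 0, 6), ((4, 8), 0, 4), ((7, 0), 0, 3), ((7, 6),
    0, 7)]
  Tb := [((0, 1, 7), 3, 2, 0), ((1, 0, 2), 2, 3, 1), ((1, 0, 8), 2, 3, 4), ((1, 0, 9), 2, 3, 5),
    ((1, 2, 8), 2, 1, 4), ((1, 2, 9), 2, 1, 5), ((1, 8, 9), 2, 4, 5), ((2, 1, 3), 1, 2, 0),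
    ((3, 2, 9), 0, 1, 5), ((4, 5, 8), 0, 6, 4), ((5, 4, 6), 6, 0, 7), ((6, 5, 7), 7, 6, 0),
    ((7, 0, 6), 0, 3, 7), ((8, 1, 4), 4, 2, 0), ((9, 1, 3), 5, 2, 0)]
  Tc := []
  Td := [((1, 3), (2, 1), 2), ((1, 3), (2, 3), 0), ((3, 1), (0, 1), 2), ((3, 1), (0, 7), 0), ((4,
    5), (8, 1), 2), ((4, 5), (8, 4), 0), ((5, 4), (9, 1), 2), ((5, 4), (9, 3), 0)]
  G := [[0, 0x48c14248c248c8a4a48c148c1a248c1426c, 0x2462246828a8e81246428a22464e81c,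
    0x48c2448c248c2ac11, 0x28a228a228a28ace411], [0, 0, 0x246248c848c2e81246226a22464e41c,
    0x842411c218241c2ec11, 0x11a221a221a18ace411], [0, 0, 0x28a228a248c8e412464246248c4e81c,
    0x48c241848c248c8a148424884648c2e1828c1d, 0x21a218a46421a284c11a211a2828218ee419]]

noncomputable def n2978 : Ent := ⟨e2978, noF, [], [], [(9, 16, [1580044410770988437309982408355971841652082177953823432505701306369, 0])]⟩

def c2978 : PLift (Cov.check n2978.C.D v2978 = true) := ⟨by decide +kernel⟩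

def b2978 : PLift (entF (fidx ts) 400 2978 n2978 = true) := ⟨by decide +kernel⟩

theorem g2978 : GoodF (fidx ts) 400 2978 := GoodF.ofV v2978 n2978 c2978.down b2978.down

/-- 4649464:2331/4 -/
noncomputable def e2979 : SCfg where
  D := {
    a := 7
    L := 10
    kp := 7
    inn := [(0, 1), (1, 0), (1, 2), (1, 3), (1, 4), (2, 1), (2, 3), (3, 1), (3, 2), (3, 4), (3, 5), (4,
      1), (4, 3), (5, 3), (5, 6), (6, 5)]
    mix := [(0, 0), (0, 1), (0, 2), (1, 0), (1, 2), (2, 2), (2, 3), (3, 3), (3, 4), (3, 5), (3, 6), (3,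
      7), (4, 0), (4, 7), (5, 3), (5, 4), (5, 8), (5, 9), (6, 2), (6, 3), (6, 8)]
    cl := [2, 5, 1, 0, 0, 6, 7, 0, 3, 4]
    chq := [(1, 2), (1, 4), (2, 1), (4, 1)]
    rng := [(0, 1), (0, 7), (1, 0), (1, 2), (2, 1), (2, 3), (2, 8), (3, 2), (4, 5), (4, 9), (5, 4), (5,
      6), (6, 5), (6, 7), (7, 0), (7, 6), (8, 2), (8, 9), (9, 4), (9, 8)]
    lev := [] }
  links := [[1, 7, 8, 9], [7, 0, 9, 2, 3, 4], [3, 1, 9, 10], [4, 1, 2, 10, 5, 11, 12, 13, 14], [7, 1, 3,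
    14], [11, 3, 10, 6, 15, 16], [15, 5, 10, 9]]
  P := {
    a := 7
    N := 17
    nb := [898, 669, 1546, 31798, 16522, 101448, 34336, 16659, 641, 34119, 620, 69672, 10248, 20488,
      8344, 66144, 34848]
    tri := [(0, 1, 7), (0, 1, 9), (0, 7, 8), (0, 8, 9), (1, 2, 3), (1, 2, 9), (1, 3, 4), (1, 4, 7), (2,
      3, 10), (2, 9, 10), (3, 4, 14), (3, 5, 10), (3, 5, 11), (3, 11, 12), (3, 12, 13), (3, 13,
      14), (4, 7, 14), (5, 6, 10), (5, 6, 15), (5, 11, 16), (5, 15, 16), (6, 9, 10), (6, 9, 15)]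
    fin := [0, 0, 0, 3, 0, 5, 5, 0, 8, 5, 3, 3, 12, 13, 3, 15, 16]
    chd := [(0, 5), (5, 16)]
    steps := [(0, 1), (0, 2), (0, 4), (0, 7), (3, 10), (3, 11), (3, 14), (5, 6), (5, 9)] }
  rep := [3, 5, 0, 15, 16, 8, 12, 13]

noncomputable def v2979 : Cov.CovD where
  P := 3
  N := 5
  pl := [1, 5, 6, 8]
  lev := [⟨[], [], [(1, 2)], [5], [(0, 2, [1]), (2, 1, [2, 4])]⟩,
    ⟨[], [(0, 1), (0, 2)], [(1, 2)], [], [(0, 2, [1]), (2, 1, [2, 4])]⟩,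
    ⟨[(0, 1)], [(0, 1), (1, 0), (1, 1), (1, 2)], [(0, 1)], [], [(2, 1, [2, 4]), (3, 0,
      [])]⟩,
    ⟨[(0, 1), (1, 2)], [(1, 0), (1, 1), (1, 2), (2, 0), (2, 1)], [(0, 0)], [6, 7], [(3, 0,
      []), (4, 0, []), (7, 0, [])]⟩,
    ⟨[(0, 1), (1, 2), (1, 3), (2, 3)], [(0, 2), (1, 0), (1, 1), (1, 2), (3, 0), (3, 2)],
      [(0, 2)], [], [(0, 2, [1]), (7, 0, [])]⟩,
    ⟨[(1, 3), (2, 3), (3, 4)], [(2, 0), (3, 0), (3, 4)], [(0, 0), (0, 4)], [3], [(3, 0,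
      []), (4, 0, []), (9, 4, [1])]⟩,
    ⟨[(3, 5)], [(0, 1), (1, 1), (2, 0), (2, 1), (3, 0), (5, 0), (5, 1), (5, 4)], [(0, 1)],
      [3], [(2, 1, [2, 4]), (3, 0, [])]⟩]
  Ta := [((3, 2), 0, 1), ((4, 5), 0, 6), ((4, 9), 0, 4), ((7, 0), 0, 2), ((7, 6), 0, 7)]
  Tb := [((0, 1, 7), 2, 5, 0), ((1, 0, 2), 5, 2, 1), ((2, 1, 3), 1, 5, 0), ((2, 1, 8), 1, 5, 3),
    ((2, 3, 8), 1, 0, 3), ((4, 5, 9), 0, 6, 4), ((5, 4, 6), 6, 0, 7), ((6, 5, 7), 7, 6, 0),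
    ((7, 0, 6), 0, 2, 7), ((8, 2, 9), 3, 1, 4), ((9, 4, 8), 4, 0, 3)]
  Tc := [(1, 2, 4)]
  Td := [((1, 2), (2, 1), 5), ((1, 2), (2, 3), 0), ((1, 2), (2, 8), 3), ((1, 4), (2, 1), 5), ((1,
    4), (2, 3), 0), ((1, 4), (2, 8), 3), ((2, 1), (0, 1), 5), ((2, 1), (0, 7), 0), ((4, 1),
    (9, 4), 0), ((4, 1), (9, 8), 3)]
  G := [[0, 0x8a2e142642e184ce8a4c4448a2e1c284ce1262a18acc, 0, 0xc22c28c24e81c21c21c28e485,
    0x4c6288ce284ce8e4828c1842444ce24ca284ce8ec19], [0, 0, 0, 0x922524928e81c22c21c24e145,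
    0x881e2841e8611ce28c14162122841e1e48c8454828499], [0, 0,
    0x88ce241481e2841e8a4c1424816249a8841e8ec48281cc, 0x924528524e84524c24924e819,
    0x196241ce21284cae4828c18c6288ce884ce8e11828499]]

noncomputable def n2979 : Ent := ⟨e2979, noF, [], [], [(8, 15, [1685356702439545624007900436039642273970977273354372543760012283905, 0])]⟩

def c2979 : PLift (Cov.check n2979.C.D v2979 = true) := ⟨by decide +kernel⟩

def b2979 : PLift (entF (fidx ts) 400 2979 n2979 = true) := ⟨by decide +kernel⟩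

theorem g2979 : GoodF (fidx ts) 400 2979 := GoodF.ofV v2979 n2979 c2979.down b2979.down

/-- 4649464:2331 -/
noncomputable def e2980 : SCfg where
  D := {
    a := 7
    L := 11
    kp := 8
    inn := [(0, 1), (1, 0), (1, 2), (1, 3), (1, 4), (2, 1), (2, 3), (3, 1), (3, 2), (3, 4), (3, 5), (4,
      1), (4, 3), (5, 3), (5, 6), (6, 5)]
    mix := [(0, 0), (0, 1), (0, 2), (1, 0), (1, 2), (2, 2), (2, 3), (3, 3), (3, 4), (3, 5), (3, 6), (3,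
      7), (4, 0), (4, 7), (5, 3), (5, 4), (5, 8), (5, 9), (6, 3), (6, 8), (6, 10)]
    cl := [1, 6, 2, 0, 0, 7, 8, 0, 3, 4, 5]
    chq := [(1, 2), (2, 1), (4, 5), (5, 4)]
    rng := [(0, 1), (0, 7), (1, 0), (1, 2), (2, 1), (2, 3), (3, 2), (3, 10), (4, 5), (4, 9), (5, 4),
      (5, 6), (6, 5), (6, 7), (7, 0), (7, 6), (8, 9), (8, 10), (9, 4), (9, 8), (10, 3), (10, 8)]
    lev := [] }
  links := [[1, 7, 8, 9], [7, 0, 9, 2, 3, 4], [3, 1, 9, 10], [4, 1, 2, 10, 5, 11, 12, 13, 14], [7, 1, 3,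
    14], [11, 3, 10, 6, 15, 16], [15, 5, 10, 17]]
  P := {
    a := 7
    N := 18
    nb := [898, 669, 1546, 31798, 16522, 101448, 164896, 16659, 641, 1287, 131692, 69672, 10248,
      20488, 8344, 196704, 34848, 33856]
    tri := [(0, 1, 7), (0, 1, 9), (0, 7, 8), (0, 8, 9), (1, 2, 3), (1, 2, 9), (1, 3, 4), (1, 4, 7), (2,
      3, 10), (2, 9, 10), (3, 4, 14), (3, 5, 10), (3, 5, 11), (3, 11, 12), (3, 12, 13), (3, 13,
      14), (4, 7, 14), (5, 6, 10), (5, 6, 15), (5, 11, 16), (5, 15, 16), (6, 10, 17), (6, 15, 17)]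
    fin := [0, 0, 0, 3, 0, 5, 5, 0, 8, 9, 3, 3, 12, 13, 3, 15, 16, 5]
    chd := [(0, 9), (16, 5)]
    steps := [(0, 1), (0, 2), (0, 4), (0, 7), (3, 10), (3, 11), (3, 14), (5, 6), (5, 17)] }
  rep := [3, 0, 9, 15, 16, 5, 8, 12, 13]

noncomputable def v2980 : Cov.CovD where
  P := 3
  N := 6
  pl := [1, 5, 6, 8]
  lev := [⟨[], [], [(1, 2)], [6], [(0, 1, [2]), (2, 2, [1])]⟩,
    ⟨[], [(0, 1), (0, 2)], [(1, 2)], [], [(0, 1, [2]), (2, 2, [1])]⟩,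
    ⟨[(0, 1)], [(0, 2), (1, 0), (1, 1), (1, 2)], [(0, 2)], [], [(2, 2, [1]), (3, 0, [])]⟩,
    ⟨[(0, 1), (1, 2)], [(1, 0), (1, 1), (1, 2), (2, 0), (2, 2)], [(0, 0)], [7, 8], [(3, 0,
      []), (4, 0, []), (7, 0, [])]⟩,
    ⟨[(0, 1), (1, 2), (1, 3), (2, 3)], [(0, 1), (1, 0), (1, 1), (1, 2), (3, 0), (3, 1)],
      [(0, 1)], [], [(0, 1, [2]), (7, 0, [])]⟩,
    ⟨[(1, 3), (2, 3), (3, 4)], [(2, 0), (3, 0), (3, 4)], [(0, 0), (0, 4)], [3], [(3, 0,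
      []), (4, 0, []), (9, 4, [5])]⟩,
    ⟨[(3, 5)], [(2, 0), (3, 0), (5, 0), (5, 4), (5, 5)], [(0, 5)], [3], [(3, 0, []), (10,
      5, [4])]⟩]
  Ta := [((3, 2), 0, 2), ((3, 10), 0, 5), ((4, 5), 0, 7), ((4, 9), 0, 4), ((7, 0), 0, 1), ((7,
    6), 0, 8)]
  Tb := [((0, 1, 7), 1, 6, 0), ((1, 0, 2), 6, 1, 2), ((2, 1, 3), 2, 6, 0), ((3, 2, 10), 0, 2, 5),
    ((4, 5, 9), 0, 7, 4), ((5, 4, 6), 7, 0, 8), ((6, 5, 7), 8, 7, 0), ((7, 0, 6), 0, 1, 8),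
    ((8, 9, 10), 3, 4, 5), ((9, 4, 8), 4, 0, 3), ((10, 3, 8), 5, 0, 3)]
  Tc := []
  Td := [((1, 2), (0, 1), 6), ((1, 2), (0, 7), 0), ((2, 1), (2, 1), 6), ((2, 1), (2, 3), 0), ((4,
    5), (9, 4), 0), ((4, 5), (9, 8), 3), ((5, 4), (10, 3), 0), ((5, 4), (10, 8), 3)]
  G := [[0, 0, 0xa4142ac646ca16ace8e6818cc6ace16ace1686ace182cc,
    0x6ace1486ace82ac668a8ac6ace426ace46ace8ca15,
    0x6ace16ac462c2826ace48a96ace12ac61a46cacca6848299], [0, 0, 0,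
    0x5a1e8135e8611ce28a1d16231ce2591e8e81684814d,
    0x319e82619e431ce8ca1591e1319e168319e48299], [0,
    0x15a2619e46a42456ace481c39a14631ce46ac648968281cc, 0,
    0x1424261ce231ce8a69a846c13ce2135e4681a5e48299,
    0x3c641439ac619e8e1848a1124213ce431ce869c4ea19]]

noncomputable def n2980 : Ent := ⟨e2980, noF, [], [], [(8, 17, [6903326391201334775872065844685381424292761054348340378595029941878785, 0]), (8, 15, [7334790850167413569773436004105379185503274260204390087403942016851969, 0]), (9, 17, [6903326391201334775872065844685381424292761054348340378595029941891073, 0])]⟩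

def c2980 : PLift (Cov.check n2980.C.D v2980 = true) := ⟨by decide +kernel⟩

def b2980 : PLift (entF (fidx ts) 400 2980 n2980 = true) := ⟨by decide +kernel⟩

theorem g2980 : GoodF (fidx ts) 400 2980 := GoodF.ofV v2980 n2980 c2980.down b2980.down

/-- 4649464:2332/1 -/
noncomputable def e2981 : SCfg where
  D := {
    a := 7
    L := 10
    kp := 7
    inn := [(0, 1), (1, 0), (1, 2), (1, 3), (1, 4), (2, 1), (2, 3), (3, 1), (3, 2), (3, 4), (3, 5), (4,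
      1), (4, 3), (5, 3), (5, 6), (6, 5)]
    mix := [(0, 0), (0, 1), (0, 2), (1, 0), (1, 2), (2, 2), (2, 3), (3, 3), (3, 4), (3, 5), (3, 6), (3,
      7), (4, 0), (4, 7), (5, 1), (5, 3), (5, 4), (5, 8), (6, 4), (6, 8), (6, 9)]
    cl := [3, 2, 1, 0, 0, 6, 7, 0, 4, 5]
    chq := [(1, 3), (2, 5), (3, 1), (5, 2)]
    rng := [(0, 1), (0, 7), (1, 0), (1, 2), (1, 3), (1, 8), (2, 1), (2, 3), (3, 1), (3, 2), (4, 5), (4,
      9), (5, 4), (5, 6), (6, 5), (6, 7), (7, 0), (7, 6), (8, 1), (8, 9), (9, 4), (9, 8)]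
    lev := [] }
  links := [[1, 7, 8, 9], [7, 0, 9, 2, 3, 4], [3, 1, 9, 10], [4, 1, 2, 10, 5, 11, 12, 13, 14], [7, 1, 3,
    14], [11, 3, 10, 8, 15, 6], [11, 5, 15, 16]]
  P := {
    a := 7
    N := 17
    nb := [898, 669, 1546, 31798, 16522, 36168, 100384, 16659, 34465, 1287, 812, 69736, 10248, 20488,
      8344, 65888, 34880]
    tri := [(0, 1, 7), (0, 1, 9), (0, 7, 8), (0, 8, 9), (1, 2, 3), (1, 2, 9), (1, 3, 4), (1, 4, 7), (2,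
      3, 10), (2, 9, 10), (3, 4, 14), (3, 5, 10), (3, 5, 11), (3, 11, 12), (3, 12, 13), (3, 13,
      14), (4, 7, 14), (5, 6, 11), (5, 6, 15), (5, 8, 10), (5, 8, 15), (6, 11, 16), (6, 15, 16)]
    fin := [0, 0, 0, 3, 0, 5, 5, 0, 5, 9, 3, 3, 12, 13, 3, 15, 16]
    chd := [(0, 9), (5, 16)]
    steps := [(0, 1), (0, 2), (0, 4), (0, 7), (3, 10), (3, 11), (3, 14), (5, 6), (5, 8)] }
  rep := [3, 9, 5, 0, 15, 16, 12, 13]

noncomputable def v2981 : Cov.CovD where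
  P := 3
  N := 5
  pl := [5, 6, 8]
  lev := [⟨[], [], [(1, 2), (1, 3), (2, 3)], [], [(0, 3, [1]), (1, 2, [5]), (2, 1, [3])]⟩,
    ⟨[], [(0, 1), (0, 2), (0, 3)], [(1, 3)], [], [(0, 3, [1]), (2, 1, [3])]⟩,
    ⟨[(0, 1)], [(0, 1), (1, 0), (1, 1), (1, 3)], [(0, 1)], [], [(2, 1, [3]), (3, 0, [])]⟩,
    ⟨[(0, 1), (1, 2)], [(1, 0), (1, 1), (1, 3), (2, 0), (2, 1)], [(0, 0)], [6, 7], [(3, 0,
      []), (4, 0, []), (7, 0, [])]⟩,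
    ⟨[(0, 1), (1, 2), (1, 3), (2, 3)], [(0, 3), (1, 0), (1, 1), (1, 3), (3, 0), (3, 3)],
      [(0, 3)], [], [(0, 3, [1]), (7, 0, [])]⟩,
    ⟨[(1, 3), (2, 3), (3, 4)], [(0, 2), (2, 0), (3, 0), (3, 2)], [(0, 0), (0, 2)], [4],
      [(1, 2, [5]), (3, 0, []), (4, 0, [])]⟩,
    ⟨[(3, 5)], [(3, 0), (5, 0), (5, 2), (5, 5)], [(0, 5)], [4], [(4, 0, []), (9, 5, [2])]⟩]
  Ta := [((3, 1), 0, 2), ((3, 2), 0, 1), ((4, 5), 0, 6), ((4, 9), 0, 5), ((7, 0), 0, 3), ((7, 6),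
    0, 7)]
  Tb := [((0, 1, 7), 3, 2, 0), ((1, 0, 2), 2, 3, 1), ((1, 0, 3), 2, 3, 0), ((1, 0, 8), 2, 3, 4),
    ((1, 2, 3), 2, 1, 0), ((1, 2, 8), 2, 1, 4), ((1, 3, 8), 2, 0, 4), ((2, 1, 3), 1, 2, 0),
    ((3, 1, 2), 0, 2, 1), ((4, 5, 9), 0, 6, 5), ((5, 4, 6), 6, 0, 7), ((6, 5, 7), 7, 6, 0),
    ((7, 0, 6), 0, 3, 7), ((8, 1, 9), 4, 2, 5), ((9, 4, 8), 5, 0, 4)]
  Tc := []
  Td := [((1, 3), (2, 1), 2), ((1, 3), (2, 3), 0), ((2, 5), (1, 0), 3), ((2, 5), (1, 2), 1), ((2,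
    5), (1, 3), 0), ((2, 5), (1, 8), 4), ((3, 1), (0, 1), 2), ((3, 1), (0, 7), 0), ((5, 2),
    (9, 4), 0), ((5, 2), (9, 8), 4)]
  G := [[0, 0x21c121c1622418982a21c112c1a212c1426c, 0x1162116811a8e81116411a211c4e41c,
    0x22c221c2621c28c11, 0x14a241a214a14ace411], [0, 0, 0, 0x22c222c2622c28c11,
    0x4ea2e4a244ae4ace411], [0, 0, 0, 0x28221c262424522c281c22c222c2612c28c19,
    0x41a214a4644218a84c41a214a21214a48ee419]]

noncomputable def n2981 : Ent := ⟨e2981, noF, [], [], []⟩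

def c2981 : PLift (Cov.check n2981.C.D v2981 = true) := ⟨by decide +kernel⟩

def b2981 : PLift (entF (fidx ts) 400 2981 n2981 = true) := ⟨by decide +kernel⟩

theorem g2981 : GoodF (fidx ts) 400 2981 := GoodF.ofV v2981 n2981 c2981.down b2981.down

/-- 4649464:2332/2 -/
noncomputable def e2982 : SCfg where
  D := {
    a := 7
    L := 10
    kp := 7
    inn := [(0, 1), (1, 0), (1, 2), (1, 3), (1, 4), (2, 1), (2, 3), (3, 1), (3, 2), (3, 4), (3, 5), (4,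
      1), (4, 3), (5, 3), (5, 6), (6, 5)]
    mix := [(0, 0), (0, 1), (0, 2), (1, 0), (1, 2), (2, 2), (2, 3), (3, 3), (3, 4), (3, 5), (3, 6), (3,
      7), (4, 0), (4, 7), (5, 1), (5, 3), (5, 4), (5, 8), (6, 1), (6, 4), (6, 9)]
    cl := [3, 2, 1, 0, 0, 6, 7, 0, 4, 5]
    chq := [(1, 3), (3, 1), (4, 5), (5, 4)]
    rng := [(0, 1), (0, 7), (1, 0), (1, 2), (1, 8), (1, 9), (2, 1), (2, 3), (3, 2), (3, 8), (4, 5), (4,
      9), (5, 4), (5, 6), (6, 5), (6, 7), (7, 0), (7, 6), (8, 1), (8, 3), (9, 1), (9, 4)]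
    lev := [] }
  links := [[1, 7, 8, 9], [7, 0, 9, 2, 3, 4], [3, 1, 9, 10], [4, 1, 2, 10, 5, 11, 12, 13, 14], [7, 1, 3,
    14], [11, 3, 10, 15, 8, 6], [11, 5, 8, 16]]
  P := {
    a := 7
    N := 17
    nb := [898, 669, 1546, 31798, 16522, 36168, 67872, 16659, 99041, 1287, 33324, 69736, 10248, 20488,
      8344, 1312, 2368]
    tri := [(0, 1, 7), (0, 1, 9), (0, 7, 8), (0, 8, 9), (1, 2, 3), (1, 2, 9), (1, 3, 4), (1, 4, 7), (2,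
      3, 10), (2, 9, 10), (3, 4, 14), (3, 5, 10), (3, 5, 11), (3, 11, 12), (3, 12, 13), (3, 13,
      14), (4, 7, 14), (5, 6, 8), (5, 6, 11), (5, 8, 15), (5, 10, 15), (6, 8, 16), (6, 11, 16)]
    fin := [0, 0, 0, 3, 0, 5, 5, 0, 8, 9, 3, 3, 12, 13, 3, 5, 16]
    chd := [(0, 9), (5, 16)]
    steps := [(0, 1), (0, 2), (0, 4), (0, 7), (3, 10), (3, 11), (3, 14), (5, 6), (5, 15)] }
  rep := [3, 9, 8, 0, 5, 16, 12, 13]

noncomputable def v2982 : Cov.CovD where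
  P := 3
  N := 5
  pl := [1, 5, 6]
  lev := [⟨[], [], [(1, 3)], [2], [(0, 3, [1]), (2, 1, [3])]⟩,
    ⟨[], [(0, 1), (0, 3)], [(1, 3)], [], [(0, 3, [1]), (2, 1, [3])]⟩,
    ⟨[(0, 1)], [(0, 1), (1, 0), (1, 1), (1, 3)], [(0, 1)], [], [(2, 1, [3]), (3, 0, [])]⟩,
    ⟨[(0, 1), (1, 2)], [(1, 0), (1, 1), (1, 3), (2, 0), (2, 1)], [(0, 0)], [6, 7], [(3, 0,
      []), (4, 0, []), (7, 0, [])]⟩,
    ⟨[(0, 1), (1, 2), (1, 3), (2, 3)], [(0, 3), (1, 0), (1, 1), (1, 3), (3, 0), (3, 3)],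
      [(0, 3)], [], [(0, 3, [1]), (7, 0, [])]⟩,
    ⟨[(1, 3), (2, 3), (3, 4)], [(2, 0), (3, 0), (3, 4)], [(0, 0), (0, 4)], [2], [(3, 0,
      []), (4, 0, []), (8, 4, [5])]⟩,
    ⟨[(3, 5)], [(3, 0), (5, 0), (5, 4), (5, 5)], [(0, 5)], [2], [(4, 0, []), (9, 5, [4])]⟩]
  Ta := [((3, 2), 0, 1), ((3, 8), 0, 4), ((4, 5), 0, 6), ((4, 9), 0, 5), ((7, 0), 0, 3), ((7, 6),
    0, 7)]
  Tb := [((0, 1, 7), 3, 2, 0), ((1, 0, 2), 2, 3, 1), ((1, 0, 8), 2, 3, 4), ((1, 0, 9), 2, 3, 5),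
    ((1, 2, 8), 2, 1, 4), ((1, 2, 9), 2, 1, 5), ((1, 8, 9), 2, 4, 5), ((2, 1, 3), 1, 2, 0),
    ((3, 2, 8), 0, 1, 4), ((4, 5, 9), 0, 6, 5), ((5, 4, 6), 6, 0, 7), ((6, 5, 7), 7, 6, 0),
    ((7, 0, 6), 0, 3, 7), ((8, 1, 3), 4, 2, 0), ((9, 1, 4), 5, 2, 0)]
  Tc := []
  Td := [((1, 3), (2, 1), 2), ((1, 3), (2, 3), 0), ((3, 1), (0, 1), 2), ((3, 1), (0, 7), 0), ((4,
    5), (8, 1), 2), ((4, 5), (8, 3), 0), ((5, 4), (9, 1), 2), ((5, 4), (9, 4), 0)]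
  G := [[0, 0x18118c16841461448a84a41c141c1a214241824c6c, 0x246226a248c8e41246228a228a4e81c,
    0x842441c218211c2ec11, 0x21a221a211a18ace411], [0, 0, 0x246228a828a8e4148c228a248c4e41c,
    0x84248c2c48248c2ac11, 0x28a228a228a28ace411], [0, 0, 0x2468c8a848c8e41246428a22464e41c,
    0x11c241c26141c284c14248c211c2e1828c19, 0x21a2121866421a284c11a211a21211ace419]]

noncomputable def n2982 : Ent := ⟨e2982, noF, [], [], []⟩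

def c2982 : PLift (Cov.check n2982.C.D v2982 = true) := ⟨by decide +kernel⟩

def b2982 : PLift (entF (fidx ts) 400 2982 n2982 = true) := ⟨by decide +kernel⟩

theorem g2982 : GoodF (fidx ts) 400 2982 := GoodF.ofV v2982 n2982 c2982.down b2982.down

/-- 4649464:2332/3 -/
noncomputable def e2983 : SCfg where
  D := {
    a := 7
    L := 10
    kp := 7
    inn := [(0, 1), (1, 0), (1, 2), (1, 3), (1, 4), (2, 1), (2, 3), (3, 1), (3, 2), (3, 4), (3, 5), (4,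
      1), (4, 3), (5, 3), (5, 6), (6, 5)]
    mix := [(0, 0), (0, 1), (0, 2), (1, 0), (1, 2), (2, 2), (2, 3), (3, 3), (3, 4), (3, 5), (3, 6), (3,
      7), (4, 0), (4, 7), (5, 3), (5, 4), (5, 8), (5, 9), (6, 1), (6, 4), (6, 9)]
    cl := [3, 2, 1, 0, 0, 6, 7, 0, 5, 4]
    chq := [(1, 3), (2, 5), (3, 1), (5, 2)]
    rng := [(0, 1), (0, 7), (1, 0), (1, 2), (1, 4), (1, 9), (2, 1), (2, 3), (3, 2), (3, 8), (4, 1), (4,
      5), (5, 4), (5, 6), (6, 5), (6, 7), (7, 0), (7, 6), (8, 3), (8, 9), (9, 1), (9, 8)]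
    lev := [] }
  links := [[1, 7, 8, 9], [7, 0, 9, 2, 3, 4], [3, 1, 9, 10], [4, 1, 2, 10, 5, 11, 12, 13, 14], [7, 1, 3,
    14], [11, 3, 10, 15, 16, 6], [11, 5, 16, 8]]
  P := {
    a := 7
    N := 17
    nb := [898, 669, 1546, 31798, 16522, 101448, 67872, 16659, 68289, 1287, 33324, 4456, 10248, 20488,
      8344, 66592, 33120]
    tri := [(0, 1, 7), (0, 1, 9), (0, 7, 8), (0, 8, 9), (1, 2, 3), (1, 2, 9), (1, 3, 4), (1, 4, 7), (2,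
      3, 10), (2, 9, 10), (3, 4, 14), (3, 5, 10), (3, 5, 11), (3, 11, 12), (3, 12, 13), (3, 13,
      14), (4, 7, 14), (5, 6, 11), (5, 6, 16), (5, 10, 15), (5, 15, 16), (6, 8, 11), (6, 8, 16)]
    fin := [0, 0, 0, 3, 0, 5, 5, 0, 5, 9, 3, 3, 12, 13, 3, 15, 16]
    chd := [(0, 9), (5, 15)]
    steps := [(0, 1), (0, 2), (0, 4), (0, 7), (3, 10), (3, 11), (3, 14), (5, 6), (5, 8)] }
  rep := [3, 9, 5, 0, 16, 15, 12, 13]

noncomputable def v2983 : Cov.CovD where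
  P := 3
  N := 5
  pl := [5, 6, 9]
  lev := [⟨[], [], [(1, 2), (1, 3), (2, 3)], [], [(0, 3, [1]), (1, 2, [5]), (2, 1, [3])]⟩,
    ⟨[], [(0, 1), (0, 2), (0, 3)], [(1, 3)], [], [(0, 3, [1]), (2, 1, [3])]⟩,
    ⟨[(0, 1)], [(0, 1), (1, 0), (1, 1), (1, 3)], [(0, 1)], [], [(2, 1, [3]), (3, 0, [])]⟩,
    ⟨[(0, 1), (1, 2)], [(1, 0), (1, 1), (1, 3), (2, 0), (2, 1)], [(0, 0)], [6, 7], [(3, 0,
      []), (4, 0, []), (7, 0, [])]⟩,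
    ⟨[(0, 1), (1, 2), (1, 3), (2, 3)], [(0, 3), (1, 0), (1, 1), (1, 3), (3, 0), (3, 3)],
      [(0, 3)], [], [(0, 3, [1]), (7, 0, [])]⟩,
    ⟨[(1, 3), (2, 3), (3, 4)], [(2, 0), (3, 0), (3, 5)], [(0, 0), (0, 5)], [4], [(3, 0,
      []), (4, 0, []), (8, 5, [2])]⟩,
    ⟨[(3, 5)], [(0, 2), (3, 0), (5, 0), (5, 2), (5, 5)], [(0, 2)], [4], [(1, 2, [5]), (4,
      0, [])]⟩]
  Ta := [((3, 2), 0, 1), ((3, 8), 0, 5), ((4, 1), 0, 2), ((4, 5), 0, 6), ((7, 0), 0, 3), ((7, 6),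
    0, 7)]
  Tb := [((0, 1, 7), 3, 2, 0), ((1, 0, 2), 2, 3, 1), ((1, 0, 4), 2, 3, 0), ((1, 0, 9), 2, 3, 4),
    ((1, 2, 4), 2, 1, 0), ((1, 2, 9), 2, 1, 4), ((1, 4, 9), 2, 0, 4), ((2, 1, 3), 1, 2, 0),
    ((3, 2, 8), 0, 1, 5), ((4, 1, 5), 0, 2, 6), ((5, 4, 6), 6, 0, 7), ((6, 5, 7), 7, 6, 0),
    ((7, 0, 6), 0, 3, 7), ((8, 3, 9), 5, 0, 4), ((9, 1, 8), 4, 2, 5)]
  Tc := []
  Td := [((1, 3), (2, 1), 2), ((1, 3), (2, 3), 0), ((2, 5), (1, 0), 3), ((2, 5), (1, 2), 1), ((2,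
    5), (1, 4), 0), ((2, 5), (1, 9), 4), ((3, 1), (0, 1), 2), ((3, 1), (0, 7), 0), ((5, 2),
    (8, 3), 0), ((5, 2), (8, 9), 4)]
  G := [[0, 0x1212881e184c1665218c982a841e1211ce18a119e1426c, 0, 0xc225225252ce411,
    0x3262812e28a8e346e1848c11], [0, 0, 0x42628a2e284ce8e6828c1426282aa4684ce4e6828c1c,
    0xc22c22c2c2ce411, 0xa8628a2e2a48a8ece2828c11], [0, 0, 0,
    0xc22c246152488cc229229292ce419, 0x82a28229c661424512628a84c812e242a2e2818e4ac19]]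

noncomputable def n2983 : Ent := ⟨e2983, noF, [], [], []⟩

def c2983 : PLift (Cov.check n2983.C.D v2983 = true) := ⟨by decide +kernel⟩

def b2983 : PLift (entF (fidx ts) 400 2983 n2983 = true) := ⟨by decide +kernel⟩

theorem g2983 : GoodF (fidx ts) 400 2983 := GoodF.ofV v2983 n2983 c2983.down b2983.down

/-- 4649464:2332 -/
noncomputable def e2984 : SCfg where
  D := {
    a := 7
    L := 11
    kp := 8
    inn := [(0, 1), (1, 0), (1, 2), (1, 3), (1, 4), (2, 1), (2, 3), (3, 1), (3, 2), (3, 4), (3, 5), (4,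
      1), (4, 3), (5, 3), (5, 6), (6, 5)]
    mix := [(0, 0), (0, 1), (0, 2), (1, 0), (1, 2), (2, 2), (2, 3), (3, 3), (3, 4), (3, 5), (3, 6), (3,
      7), (4, 0), (4, 7), (5, 3), (5, 4), (5, 8), (5, 9), (6, 4), (6, 9), (6, 10)]
    cl := [1, 6, 2, 0, 0, 7, 8, 0, 4, 3, 5]
    chq := [(1, 2), (2, 1), (4, 5), (5, 4)]
    rng := [(0, 1), (0, 7), (1, 0), (1, 2), (2, 1), (2, 3), (3, 2), (3, 8), (4, 5), (4, 10), (5, 4),
      (5, 6), (6, 5), (6, 7), (7, 0), (7, 6), (8, 3), (8, 9), (9, 8), (9, 10), (10, 4), (10, 9)]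
    lev := [] }
  links := [[1, 7, 8, 9], [7, 0, 9, 2, 3, 4], [3, 1, 9, 10], [4, 1, 2, 10, 5, 11, 12, 13, 14], [7, 1, 3,
    14], [11, 3, 10, 15, 16, 6], [11, 5, 16, 17]]
  P := {
    a := 7
    N := 18
    nb := [898, 669, 1546, 31798, 16522, 101448, 198688, 16659, 641, 1287, 33324, 135272, 10248,
      20488, 8344, 66592, 163936, 67648]
    tri := [(0, 1, 7), (0, 1, 9), (0, 7, 8), (0, 8, 9), (1, 2, 3), (1, 2, 9), (1, 3, 4), (1, 4, 7), (2,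
      3, 10), (2, 9, 10), (3, 4, 14), (3, 5, 10), (3, 5, 11), (3, 11, 12), (3, 12, 13), (3, 13,
      14), (4, 7, 14), (5, 6, 11), (5, 6, 16), (5, 10, 15), (5, 15, 16), (6, 11, 17), (6, 16, 17)]
    fin := [0, 0, 0, 3, 0, 5, 5, 0, 8, 9, 3, 3, 12, 13, 3, 5, 16, 17]
    chd := [(0, 9), (5, 17)]
    steps := [(0, 1), (0, 2), (0, 4), (0, 7), (3, 10), (3, 11), (3, 14), (5, 6), (5, 15)] }
  rep := [3, 0, 9, 16, 5, 17, 8, 12, 13]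

noncomputable def v2984 : Cov.CovD where
  P := 3
  N := 6
  pl := [1, 5, 6, 9]
  lev := [⟨[], [], [(1, 2)], [6], [(0, 1, [2]), (2, 2, [1])]⟩,
    ⟨[], [(0, 1), (0, 2)], [(1, 2)], [], [(0, 1, [2]), (2, 2, [1])]⟩,
    ⟨[(0, 1)], [(0, 2), (1, 0), (1, 1), (1, 2)], [(0, 2)], [], [(2, 2, [1]), (3, 0, [])]⟩,
    ⟨[(0, 1), (1, 2)], [(1, 0), (1, 1), (1, 2), (2, 0), (2, 2)], [(0, 0)], [7, 8], [(3, 0,
      []), (4, 0, []), (7, 0, [])]⟩,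
    ⟨[(0, 1), (1, 2), (1, 3), (2, 3)], [(0, 1), (1, 0), (1, 1), (1, 2), (3, 0), (3, 1)],
      [(0, 1)], [], [(0, 1, [2]), (7, 0, [])]⟩,
    ⟨[(1, 3), (2, 3), (3, 4)], [(2, 0), (3, 0), (3, 4)], [(0, 0), (0, 4)], [3], [(3, 0,
      []), (4, 0, []), (8, 4, [5])]⟩,
    ⟨[(3, 5)], [(3, 0), (5, 0), (5, 4), (5, 5)], [(0, 5)], [3], [(4, 0, []), (10, 5, [4])]⟩]
  Ta := [((3, 2), 0, 2), ((3, 8), 0, 4), ((4, 5), 0, 7), ((4, 10), 0, 5), ((7, 0), 0, 1), ((7,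
    6), 0, 8)]
  Tb := [((0, 1, 7), 1, 6, 0), ((1, 0, 2), 6, 1, 2), ((2, 1, 3), 2, 6, 0), ((3, 2, 8), 0, 2, 4),
    ((4, 5, 10), 0, 7, 5), ((5, 4, 6), 7, 0, 8), ((6, 5, 7), 8, 7, 0), ((7, 0, 6), 0, 1, 8),
    ((8, 3, 9), 4, 0, 3), ((9, 8, 10), 3, 4, 5), ((10, 4, 9), 5, 0, 3)]
  Tc := []
  Td := [((1, 2), (0, 1), 6), ((1, 2), (0, 7), 0), ((2, 1), (2, 1), 6), ((2, 1), (2, 3), 0), ((4,
    5), (8, 3), 0), ((4, 5), (8, 9), 3), ((5, 4), (10, 4), 0), ((5, 4), (10, 9), 3)]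
  G := [[0, 0, 0x69a1135e1614146619e184c3c641a5e8c21a5e121818acc,
    0x15a1619e46431ce2a42c2913be2413ce4135e8ac19,
    0xa5649461ac31ce8e1848a13b64a41cac13ce4e1848a19], [0, 0, 0,
    0x6ace82ac668a6ace8c61a4846ace26ca26ace8ec19,
    0x6ace1216ace46ace8c29c2426ace46ace86ac8ea19], [0,
    0x94241319e4b1a2591e8e1c691e2486a1e2c21acaa1cc, 0,
    0x13ce8235618a319e2c611ace82319e467a8c61424259,
    0xa164319e85a1e8e5848a1591e82319e46a1e8ca19]]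

noncomputable def n2984 : Ent := ⟨e2984, noF, [], [], [(8, 15, [7334790850167413569773436004105379185503274260204390087403942016864257, 0]), (8, 16, [7334685537875745012586738086077695515070955365108989538292687705890817, 0]), (8, 17, [6903326391201334775872065844685381424292761054348340378595029941907457, 0])]⟩

def c2984 : PLift (Cov.check n2984.C.D v2984 = true) := ⟨by decide +kernel⟩

def b2984 : PLift (entF (fidx ts) 400 2984 n2984 = true) := ⟨by decide +kernel⟩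

theorem g2984 : GoodF (fidx ts) 400 2984 := GoodF.ofV v2984 n2984 c2984.down b2984.down

/-- 4649454:2333/1 -/
noncomputable def e2985 : SCfg where
  D := {
    a := 7
    L := 9
    kp := 6
    inn := [(0, 1), (1, 0), (1, 2), (1, 3), (2, 1), (2, 3), (3, 1), (3, 2), (3, 4), (3, 5), (3, 6), (4,
      3), (5, 3), (5, 6), (6, 3), (6, 5)]
    mix := [(0, 0), (0, 1), (0, 2), (1, 0), (1, 2), (1, 3), (2, 2), (2, 4), (3, 3), (3, 4), (3, 5), (3,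
      6), (4, 1), (4, 5), (4, 6), (5, 6), (5, 7), (5, 8), (6, 3), (6, 8)]
    cl := [1, 2, 0, 0, 3, 5, 3, 6, 4]
    chq := [(3, 4), (4, 3)]
    rng := [(0, 1), (0, 3), (1, 0), (1, 2), (1, 5), (1, 6), (2, 1), (2, 4), (3, 0), (3, 8), (4, 2), (4,
      5), (5, 1), (5, 4), (6, 1), (6, 7), (7, 6), (7, 8), (8, 3), (8, 7)]
    lev := [] }
  links := [[1, 7, 8, 9], [7, 0, 9, 2, 3, 10], [3, 1, 9, 11], [10, 1, 2, 11, 12, 4, 13, 5, 6], [13, 3,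
    12, 8], [6, 3, 13, 14, 15], [10, 3, 5, 15]]
  P := {
    a := 7
    N := 16
    nb := [898, 1677, 2570, 15478, 12552, 57416, 33832, 1283, 12945, 2311, 32970, 4620, 2328, 16696,
      40992, 17504]
    tri := [(0, 1, 7), (0, 1, 9), (0, 7, 8), (0, 8, 9), (1, 2, 3), (1, 2, 9), (1, 3, 10), (1, 7, 10),
      (2, 3, 11), (2, 9, 11), (3, 4, 12), (3, 4, 13), (3, 5, 6), (3, 5, 13), (3, 6, 10), (3, 11,
      12), (4, 8, 12), (4, 8, 13), (5, 6, 15), (5, 13, 14), (5, 14, 15), (6, 10, 15)]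
    fin := [0, 1, 1, 3, 4, 3, 1, 0, 4, 1, 1, 3, 12, 3, 14, 15]
    chd := [(3, 15)]
    steps := [(0, 7), (1, 2), (1, 9), (1, 10), (1, 6), (3, 5), (3, 11), (3, 13), (4, 8)] }
  rep := [1, 0, 4, 3, 15, 12, 14]

noncomputable def v2985 : Cov.CovD where
  P := 3
  N := 4
  pl := [0, 1, 5, 7]
  lev := [⟨[], [], [], [1, 2], [(2, 0, [])]⟩,
    ⟨[], [(0, 0)], [(0, 0)], [1], [(2, 0, []), (3, 0, [])]⟩,
    ⟨[(0, 1)], [(0, 0), (1, 0), (1, 3)], [(0, 3)], [], [(2, 0, []), (4, 3, [4])]⟩,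
    ⟨[(0, 1), (1, 2)], [(1, 0), (1, 3), (2, 0), (2, 3)], [(0, 3), (3, 3)], [5], [(3, 0,
      []), (4, 3, [4]), (6, 3, [4])]⟩,
    ⟨[(1, 3), (2, 3)], [(3, 0), (3, 3)], [], [2, 5], [(6, 3, [4])]⟩,
    ⟨[(1, 3), (2, 3), (3, 4)], [(3, 0), (3, 3), (3, 4), (4, 3)], [(3, 4)], [6], [(6, 3,
      [4]), (8, 4, [3])]⟩,
    ⟨[(1, 3), (2, 3), (3, 4), (3, 5)], [(1, 0), (3, 0), (3, 3), (3, 4), (5, 0), (5, 3), (5,
      4)], [(0, 4)], [], [(3, 0, []), (8, 4, [3])]⟩]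
  Ta := [((2, 1), 0, 2), ((2, 4), 0, 3), ((3, 0), 0, 1), ((3, 8), 0, 4), ((4, 2), 3, 0), ((4, 5),
    3, 5), ((6, 1), 3, 2), ((6, 7), 3, 6)]
  Tb := [((0, 1, 3), 1, 2, 0), ((1, 0, 2), 2, 1, 0), ((1, 0, 5), 2, 1, 5), ((1, 0, 6), 2, 1, 3),
    ((1, 2, 5), 2, 0, 5), ((1, 2, 6), 2, 0, 3), ((1, 5, 6), 2, 5, 3), ((2, 1, 4), 0, 2, 3),
    ((3, 0, 8), 0, 1, 4), ((4, 2, 5), 3, 0, 5), ((5, 1, 4), 5, 2, 3), ((6, 1, 7), 3, 2, 6),
    ((7, 6, 8), 6, 3, 4), ((8, 3, 7), 4, 0, 6)]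
  Tc := []
  Td := [((3, 4), (4, 2), 0), ((3, 4), (4, 5), 5), ((3, 4), (6, 1), 2), ((3, 4), (6, 7), 6), ((4,
    3), (8, 3), 0), ((4, 3), (8, 7), 6)]
  G := [[0, 0, 0xc26cac14a46aca12c4, 0x12821c911c52a48, 0x112b14441478148d2a4c8], [0, 0,
    0x1c5288248e82ae3a14462167882c8, 0x844b8187411afd2484,
    0x18122116fb4214cd123244671898ac8], [0, 0x4434898887444bca1428b14164, 0,
    0x418264a2ac52348, 0xc2285c29b41222d2448833a4c8], [0, 0x88c2924246768982aba458444cd5e1a4,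
    0, 0x844b888744ccfd2184, 0x84cdc23288822a2cfb46246768981c8]]

noncomputable def n2985 : Ent := ⟨e2985, noF, [], [], []⟩

def c2985 : PLift (Cov.check n2985.C.D v2985 = true) := ⟨by decide +kernel⟩

def b2985 : PLift (entF (fidx ts) 400 2985 n2985 = true) := ⟨by decide +kernel⟩

theorem g2985 : GoodF (fidx ts) 400 2985 := GoodF.ofV v2985 n2985 c2985.down b2985.down

/-- The entries 2852 to 2985. -/
theorem rE20 : Rng (GoodF (fidx ts) 400) 2852 2986 :=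
  (((((((((((((((((((((((((((((((((((((((((((((((((((((((((((((((((((((((((((((((((((((((((((((((((((((((((((((((((((((((((((((((((((((((Rng.nil _ 2852).snoc g2852 rfl).snoc g2853 rfl).snoc g2854 rfl).snoc g2855 rfl).snoc g2856 rfl).snoc g2857 rfl).snoc g2858 rfl).snoc g2859 rfl).snoc g2860 rfl).snoc g2861 rfl).snoc g2862 rfl).snoc g2863 rfl).snoc g2864 rfl).snoc g2865 rfl).snoc g2866 rfl).snoc g2867 rfl).snoc g2868 rfl).snoc g2869 rfl).snoc g2870 rfl).snoc g2871 rfl).snoc g2872 rfl).snoc g2873 rfl).snoc g2874 rfl).snoc g2875 rfl).snoc g2876 rfl).snoc g2877 rfl).snoc g2878 rfl).snoc g2879 rfl).snoc g2880 rfl).snoc g2881 rfl).snoc g2882 rfl).snoc g2883 rfl).snoc g2884 rfl).snoc g2885 rfl).snoc g2886 rfl).snoc g2887 rfl).snoc g2888 rfl).snoc g2889 rfl).snoc g2890 rfl).snoc g2891 rfl).snoc g2892 rfl).snoc g2893 rfl).snoc g2894 rfl).snoc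 g2895 rfl).snoc g2896 rfl).snoc g2897 rfl).snoc g2898 rfl).snoc g2899 rfl).snoc g2900 rfl).snoc g2901 rfl).snoc g2902 rfl).snoc g2903 rfl).snoc g2904 rfl).snoc g2905 rfl).snoc g2906 rfl).snoc g2907 rfl).snoc g2908 rfl).snoc g2909 rfl).snoc g2910 rfl).snoc g2911 rfl).snoc g2912 rfl).snoc g2913 rfl).snoc g2914 rfl).snoc g2915 rfl).snoc g2916 rfl).snoc g2917 rfl).snoc g2918 rfl).snoc g2919 rfl).snoc g2920 rfl).snoc g2921 rfl).snoc g2922 rfl).snoc g2923 rfl).snoc g2924 rfl).snoc g2925 rfl).snoc g2926 rfl).snoc g2927 rfl).snoc g2928 rfl).snoc g2929 rfl).snoc g2930 rfl).snoc g2931 rfl).snoc g2932 rfl).snoc g2933 rfl).snoc g2934 rfl).snoc g2935 rfl).snoc g2936 rfl).snoc g2937 rfl).snoc g2938 rfl).snoc g2939 rfl).snoc g2940 rfl).snoc g2941 rfl).snoc g2942 rfl).snoc g2943 rfl).snoc g2944 rfl).snoc g2945 rfl).snoc g2946 rfl).snoc g2947 rfl).snoc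 g2948 rfl).snoc g2949 rfl).snoc g2950 rfl).snoc g2951 rfl).snoc g2952 rfl).snoc g2953 rfl).snoc g2954 rfl).snoc g2955 rfl).snoc g2956 rfl).snoc g2957 rfl).snoc g2958 rfl).snoc g2959 rfl).snoc g2960 rfl).snoc g2961 rfl).snoc g2962 rfl).snoc g2963 rfl).snoc g2964 rfl).snoc g2965 rfl).snoc g2966 rfl).snoc g2967 rfl).snoc g2968 rfl).snoc g2969 rfl).snoc g2970 rfl).snoc g2971 rfl).snoc g2972 rfl).snoc g2973 rfl).snoc g2974 rfl).snoc g2975 rfl).snoc g2976 rfl).snoc g2977 rfl).snoc g2978 rfl).snoc g2979 rfl).snoc g2980 rfl).snoc g2981 rfl).snoc g2982 rfl).snoc g2983 rfl).snoc g2984 rfl).snoc g2985 rfl)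

end Pool.Agent.W986.ST.Dat
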