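import Pool.Agent.W986.Dat.Tab
import Pool.Agent.W986.SubAltB

/-!
# Entries 2986 to 3110 of the table
-/

set_option autoImplicit false

namespace Pool.Agent.W986.ST.Dat

/-- 4649454:2333/2 -/
noncomputable def e2986 : SCfg where
  D := {
    a := 7
    L := 9
    kp := 6
    inn := [(0, 1), (1, 0), (1, 2), (1, 3), (2, 1), (2, 3), (3, 1), (3, 2), (3, 4), (3, 5), (3, 6), (4,
      3), (5, 3), (5, 6), (6, 3), (6, 5)]
    mix := [(0, 0), (0, 1), (0, 2), (1, 0), (1, 2), (1, 3), (2, 2), (2, 4), (3, 3), (3, 4), (3, 5), (3,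
      6), (4, 5), (4, 6), (4, 7), (5, 1), (5, 6), (5, 8), (6, 3), (6, 8)]
    cl := [2, 3, 1, 0, 0, 4, 0, 6, 5]
    chq := [(1, 2), (2, 1)]
    rng := [(0, 1), (0, 3), (1, 0), (1, 2), (1, 6), (1, 8), (2, 1), (2, 4), (3, 0), (3, 8), (4, 2), (4,
      5), (5, 4), (5, 7), (6, 1), (6, 7), (7, 5), (7, 6), (8, 1), (8, 3)]
    lev := [] }
  links := [[1, 7, 8, 9], [7, 0, 9, 2, 3, 10], [3, 1, 9, 11], [10, 1, 2, 11, 12, 4, 13, 5, 6], [13, 3,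
    12, 14], [6, 3, 13, 8, 15], [10, 3, 5, 15]]
  P := {
    a := 7
    N := 16
    nb := [898, 1677, 2570, 15478, 28680, 41288, 33832, 1283, 41633, 2311, 32970, 4620, 18456, 16696,
      12304, 1376]
    tri := [(0, 1, 7), (0, 1, 9), (0, 7, 8), (0, 8, 9), (1, 2, 3), (1, 2, 9), (1, 3, 10), (1, 7, 10),
      (2, 3, 11), (2, 9, 11), (3, 4, 12), (3, 4, 13), (3, 5, 6), (3, 5, 13), (3, 6, 10), (3, 11,
      12), (4, 12, 14), (4, 13, 14), (5, 6, 15), (5, 8, 13), (5, 8, 15), (6, 10, 15)]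
    fin := [0, 0, 0, 3, 3, 5, 5, 0, 5, 9, 3, 3, 12, 3, 14, 15]
    chd := [(0, 9)]
    steps := [(0, 1), (0, 2), (0, 7), (3, 4), (3, 11), (3, 13), (3, 10), (5, 6), (5, 8)] }
  rep := [3, 9, 0, 5, 12, 15, 14]

noncomputable def v2986 : Cov.CovD where
  P := 3
  N := 4
  pl := [1, 5, 7, 8]
  lev := [⟨[], [], [(1, 2)], [3], [(0, 2, [1]), (2, 1, [2])]⟩,
    ⟨[], [(0, 0), (0, 1), (0, 2)], [(0, 1), (0, 2), (1, 2)], [], [(0, 2, [1]), (2, 1, [2]),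
      (3, 0, [])]⟩,
    ⟨[(0, 1)], [(0, 1), (1, 0), (1, 1), (1, 2)], [(0, 1)], [], [(2, 1, [2]), (4, 0, [])]⟩,
    ⟨[(0, 1), (1, 2)], [(1, 0), (1, 1), (1, 2), (2, 0), (2, 1)], [(0, 0)], [4], [(3, 0,
      []), (4, 0, []), (6, 0, [])]⟩,
    ⟨[(1, 3), (2, 3)], [(3, 0)], [], [4, 6], [(6, 0, [])]⟩,
    ⟨[(1, 3), (2, 3), (3, 4)], [(3, 0), (4, 0)], [], [3, 5], [(6, 0, [])]⟩,
    ⟨[(1, 3), (2, 3), (3, 4), (3, 5)], [(1, 0), (3, 0), (5, 0)], [], [5], [(3, 0, [])]⟩]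
  Ta := [((3, 0), 0, 2), ((3, 8), 0, 5), ((4, 2), 0, 1), ((4, 5), 0, 4), ((6, 1), 0, 3), ((6, 7),
    0, 6)]
  Tb := [((0, 1, 3), 2, 3, 0), ((1, 0, 2), 3, 2, 1), ((1, 0, 6), 3, 2, 0), ((1, 0, 8), 3, 2, 5),
    ((1, 2, 6), 3, 1, 0), ((1, 2, 8), 3, 1, 5), ((1, 6, 8), 3, 0, 5), ((2, 1, 4), 1, 3, 0),
    ((3, 0, 8), 0, 2, 5), ((4, 2, 5), 0, 1, 4), ((5, 4, 7), 4, 0, 6), ((6, 1, 7), 0, 3, 6),
    ((7, 5, 6), 6, 4, 0), ((8, 1, 3), 5, 3, 0)]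
  Tc := []
  Td := [((1, 2), (2, 1), 3), ((1, 2), (2, 4), 0), ((2, 1), (0, 1), 3), ((2, 1), (0, 3), 0)]
  G := [[0, 0, 0x61c1c84a1a1442614861a84c, 0x482e182a1441e141, 0x426182a184c1e481], [0,
    0x12a184a168442614161a84c, 0, 0x414112da1c16a441, 0x61a1c811e16881], [0, 0, 0,
    0x1881ca28811ac4612884c41642622e81228161466549,
    0x84a82ac82c84ca681442261261222e4161444ee189]]

noncomputable def n2986 : Ent := ⟨e2986, noF, [], [], []⟩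

def c2986 : PLift (Cov.check n2986.C.D v2986 = true) := ⟨by decide +kernel⟩

def b2986 : PLift (entF (fidx ts) 400 2986 n2986 = true) := ⟨by decide +kernel⟩

theorem g2986 : GoodF (fidx ts) 400 2986 := GoodF.ofV v2986 n2986 c2986.down b2986.down

/-- 4649454:2333 -/
noncomputable def e2987 : SCfg where
  D := {
    a := 7
    L := 10
    kp := 7
    inn := [(0, 1), (1, 0), (1, 2), (1, 3), (2, 1), (2, 3), (3, 1), (3, 2), (3, 4), (3, 5), (3, 6), (4,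
      3), (5, 3), (5, 6), (6, 3), (6, 5)]
    mix := [(0, 0), (0, 1), (0, 2), (1, 0), (1, 2), (1, 3), (2, 2), (2, 4), (3, 3), (3, 4), (3, 5), (3,
      6), (4, 5), (4, 6), (4, 7), (5, 6), (5, 8), (5, 9), (6, 3), (6, 9)]
    cl := [2, 5, 1, 0, 0, 3, 0, 6, 7, 4]
    chq := [(1, 2), (2, 1)]
    rng := [(0, 1), (0, 3), (1, 0), (1, 2), (2, 1), (2, 4), (3, 0), (3, 9), (4, 2), (4, 5), (5, 4), (5,
      7), (6, 7), (6, 8), (7, 5), (7, 6), (8, 6), (8, 9), (9, 3), (9, 8)]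
    lev := [] }
  links := [[1, 7, 8, 9], [7, 0, 9, 2, 3, 10], [3, 1, 9, 11], [10, 1, 2, 11, 12, 4, 13, 5, 6], [13, 3,
    12, 14], [6, 3, 13, 15, 16], [10, 3, 5, 16]]
  P := {
    a := 7
    N := 17
    nb := [898, 1677, 2570, 15478, 28680, 106568, 66600, 1283, 641, 2311, 65738, 4620, 18456, 49208,
      12304, 73760, 33888]
    tri := [(0, 1, 7), (0, 1, 9), (0, 7, 8), (0, 8, 9), (1, 2, 3), (1, 2, 9), (1, 3, 10), (1, 7, 10),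
      (2, 3, 11), (2, 9, 11), (3, 4, 12), (3, 4, 13), (3, 5, 6), (3, 5, 13), (3, 6, 10), (3, 11,
      12), (4, 12, 14), (4, 13, 14), (5, 6, 16), (5, 13, 15), (5, 15, 16), (6, 10, 16)]
    fin := [0, 0, 0, 3, 3, 3, 3, 0, 8, 9, 3, 3, 12, 3, 14, 15, 16]
    chd := [(0, 9)]
    steps := [(0, 1), (0, 2), (0, 7), (3, 4), (3, 5), (3, 6), (3, 11), (3, 13), (3, 10)] }
  rep := [3, 9, 0, 12, 16, 8, 14, 15]

noncomputable def v2987 : Cov.CovD where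
  P := 3
  N := 5
  pl := [1, 5, 7, 8, 9]
  lev := [⟨[], [], [(1, 2)], [5], [(0, 2, [1]), (2, 1, [2])]⟩,
    ⟨[], [(0, 0), (0, 1), (0, 2)], [(0, 1), (0, 2), (1, 2)], [], [(0, 2, [1]), (2, 1, [2]),
      (3, 0, [])]⟩,
    ⟨[(0, 1)], [(0, 1), (1, 0), (1, 1), (1, 2)], [(0, 1)], [], [(2, 1, [2]), (4, 0, [])]⟩,
    ⟨[(0, 1), (1, 2)], [(1, 0), (1, 1), (1, 2), (2, 0), (2, 1)], [(0, 0)], [3], [(3, 0,
      []), (4, 0, []), (6, 0, [])]⟩,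
    ⟨[(1, 3), (2, 3)], [(3, 0)], [], [3, 6], [(6, 0, [])]⟩,
    ⟨[(1, 3), (2, 3), (3, 4)], [(3, 0), (4, 0)], [], [4, 7], [(6, 0, [])]⟩,
    ⟨[(1, 3), (2, 3), (3, 4), (3, 5)], [(1, 0), (3, 0), (5, 0)], [], [4], [(3, 0, [])]⟩]
  Ta := [((3, 0), 0, 2), ((3, 9), 0, 4), ((4, 2), 0, 1), ((4, 5), 0, 3), ((6, 7), 0, 6), ((6, 8),
    0, 7)]
  Tb := [((0, 1, 3), 2, 5, 0), ((1, 0, 2), 5, 2, 1), ((2, 1, 4), 1, 5, 0), ((3, 0, 9), 0, 2, 4),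
    ((4, 2, 5), 0, 1, 3), ((5, 4, 7), 3, 0, 6), ((6, 7, 8), 0, 6, 7), ((7, 5, 6), 6, 3, 0),
    ((8, 6, 9), 7, 0, 4), ((9, 3, 8), 4, 0, 7)]
  Tc := []
  Td := [((1, 2), (2, 1), 5), ((1, 2), (2, 4), 0), ((2, 1), (0, 1), 5), ((2, 1), (0, 3), 0)]
  G := [[0, 0, 0x41a182adc1c1a618642e184ce1a14c, 0x8a2e1488123884ce12144261881c18d,
    0x8a2e184ce1618426182a184c1e189], [0, 0x61a1c141e1a4461c162112e18a4c, 0,
    0xc122618a14ca1a1442618c12a4c9, 0xa14c1266188c1c1a1c61c1a6889], [0, 0, 0,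
    0x884484ce24264422e8882a22eca11882a22e421264422e181411cea1c9,
    0x8882a22e884484ce64264422e8c114226111e11a22e811e4414cee189]]

noncomputable def n2987 : Ent := ⟨e2987, noF, [], [], [(8, 14, [1685382413448253767852309107433119732572617628602273068445377138689, 0]), (8, 15, [1685356702439545624007900436039642273970977273354372543760012320769, 0])]⟩

def c2987 : PLift (Cov.check n2987.C.D v2987 = true) := ⟨by decide +kernel⟩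

def b2987 : PLift (entF (fidx ts) 400 2987 n2987 = true) := ⟨by decide +kernel⟩

theorem g2987 : GoodF (fidx ts) 400 2987 := GoodF.ofV v2987 n2987 c2987.down b2987.down

/-- 4649447:2334/1 -/
noncomputable def e2988 : SCfg where
  D := {
    a := 7
    L := 10
    kp := 8
    inn := [(0, 1), (1, 0), (1, 2), (1, 3), (1, 4), (2, 1), (2, 3), (3, 1), (3, 2), (3, 4), (3, 5), (3,
      6), (4, 1), (4, 3), (5, 3), (5, 6), (6, 3), (6, 5)]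
    mix := [(0, 0), (0, 1), (0, 2), (1, 0), (1, 2), (2, 2), (2, 3), (3, 3), (3, 4), (3, 5), (3, 6), (4,
      0), (4, 6), (5, 4), (5, 7), (6, 1), (6, 3), (6, 7), (6, 8), (6, 9)]
    cl := [1, 3, 2, 0, 5, 6, 0, 4, 7, 8]
    chq := [(1, 2), (2, 1), (3, 6), (4, 6), (6, 3), (6, 4), (6, 7), (6, 8), (7, 6), (8, 6)]
    rng := [(0, 1), (0, 6), (1, 0), (1, 2), (1, 3), (1, 8), (2, 1), (2, 3), (3, 1), (3, 2), (4, 5), (4,
      7), (5, 4), (5, 6), (6, 0), (6, 5), (7, 4), (7, 9), (8, 1), (8, 9), (9, 7), (9, 8)]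
    lev := [] }
  links := [[1, 7, 8, 9], [7, 0, 9, 2, 3, 4], [3, 1, 9, 10], [4, 1, 2, 10, 6, 5, 11, 12, 13], [7, 1, 3,
    13], [11, 3, 6, 14], [14, 5, 3, 10, 8, 15, 16]]
  P := {
    a := 7
    N := 17
    nb := [898, 669, 1546, 15478, 8330, 18504, 116008, 8467, 34497, 1287, 844, 20520, 10248, 4248,
      67680, 65856, 49216]
    tri := [(0, 1, 7), (0, 1, 9), (0, 7, 8), (0, 8, 9), (1, 2, 3), (1, 2, 9), (1, 3, 4), (1, 4, 7), (2,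
      3, 10), (2, 9, 10), (3, 4, 13), (3, 5, 6), (3, 5, 11), (3, 6, 10), (3, 11, 12), (3, 12, 13),
      (4, 7, 13), (5, 6, 14), (5, 11, 14), (6, 8, 10), (6, 8, 15), (6, 14, 16), (6, 15, 16)]
    fin := [0, 1, 1, 3, 1, 5, 3, 0, 8, 9, 1, 11, 3, 1, 5, 15, 16]
    chd := [(0, 9), (3, 5), (3, 15), (3, 16), (8, 3)]
    steps := [(0, 7), (1, 2), (1, 4), (1, 10), (1, 13), (3, 6), (3, 12), (5, 14)] }
  rep := [1, 0, 9, 8, 5, 11, 3, 15, 16]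

noncomputable def v2988 : Cov.CovD where
  P := 3
  N := 6
  pl := [4]
  lev := [⟨[], [], [(1, 2), (1, 3), (2, 3)], [], [(0, 1, [2]), (1, 3, [6]), (2, 2, [1])]⟩,
    ⟨[], [(0, 1), (0, 2), (0, 3)], [(1, 2)], [], [(0, 1, [2]), (2, 2, [1])]⟩,
    ⟨[(0, 1)], [(0, 2), (1, 0), (1, 1), (1, 2)], [(0, 2)], [], [(2, 2, [1]), (3, 0, [])]⟩,
    ⟨[(0, 1), (1, 2)], [(1, 0), (1, 1), (1, 2), (1, 6), (2, 0), (2, 2), (2, 6)], [(0, 0),
      (0, 6)], [5], [(3, 0, []), (5, 6, [3, 4, 7, 8]), (6, 0, [])]⟩,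
    ⟨[(0, 1), (1, 2), (1, 3), (2, 3)], [(0, 1), (1, 0), (1, 1), (1, 2), (3, 0), (3, 1), (3,
      6)], [(0, 1)], [], [(0, 1, [2]), (6, 0, [])]⟩,
    ⟨[(1, 3), (2, 3), (3, 4)], [(3, 0), (3, 4), (3, 6)], [], [5], [(7, 4, [6])]⟩,
    ⟨[(1, 3), (2, 3), (3, 4), (3, 5)], [(0, 3), (2, 0), (3, 0), (3, 3), (3, 4), (3, 6), (3,
      7), (3, 8), (5, 0), (5, 3), (5, 4), (5, 7), (5, 8)], [(0, 3), (0, 4), (0, 7), (0, 8),
      (3, 4), (3, 7), (3, 8), (4, 7), (4, 8), (7, 8)], [], [(1, 3, [6]), (3, 0, []), (7, 4,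
      [6]), (8, 7, [6]), (9, 8, [6])]⟩]
  Ta := [((3, 1), 0, 3), ((3, 2), 0, 2), ((6, 0), 0, 1), ((6, 5), 0, 6)]
  Tb := [((0, 1, 6), 1, 3, 0), ((1, 0, 2), 3, 1, 2), ((1, 0, 3), 3, 1, 0), ((1, 0, 8), 3, 1, 7),
    ((1, 2, 3), 3, 2, 0), ((1, 2, 8), 3, 2, 7), ((1, 3, 8), 3, 0, 7), ((2, 1, 3), 2, 3, 0),
    ((3, 1, 2), 0, 3, 2), ((4, 5, 7), 5, 6, 4), ((5, 4, 6), 6, 5, 0), ((6, 0, 5), 0, 1, 6),
    ((7, 4, 9), 4, 5, 8), ((8, 1, 9), 7, 3, 8), ((9, 7, 8), 8, 4, 7)]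
  Tc := [(6, 3, 4), (6, 3, 7), (6, 3, 8), (6, 4, 7), (6, 4, 8), (6, 7, 8)]
  Td := [((1, 2), (0, 1), 3), ((1, 2), (0, 6), 0), ((2, 1), (2, 1), 3), ((2, 1), (2, 3), 0), ((3,
    6), (1, 0), 1), ((3, 6), (1, 2), 2), ((3, 6), (1, 3), 0), ((3, 6), (1, 8), 7), ((4, 6),
    (7, 4), 5), ((4, 6), (7, 9), 8), ((6, 3), (5, 4), 5), ((6, 3), (5, 6), 0), ((6, 4), (5,
    4), 5), ((6, 4), (5, 6), 0), ((6, 7), (5, 4), 5), ((6, 7), (5, 6), 0), ((6, 8), (5, 4),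
    5), ((6, 8), (5, 6), 0), ((7, 6), (8, 1), 3), ((7, 6), (8, 9), 8), ((8, 6), (9, 7), 4),
    ((8, 6), (9, 8), 7)]
  G := [[0, 0, 0xa4142a1846691cc31accaa51cc3168669182cc, 0x612aa58cc38e6828c1cc3426694aa58ca1c,
    0xaa58cc38666948a1aa58c2466694c14aa19], [0, 0xaa52c2c1661669284caa52cc3468669281cc, 0,
    0xdc3827692ba58c611, 0xd242ba58c186a76948291]]

noncomputable def n2988 : Ent := ⟨e2988, noF, [], [], []⟩

def c2988 : PLift (Cov.check n2988.C.D v2988 = true) := ⟨by decide +kernel⟩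

def b2988 : PLift (entF (fidx ts) 400 2988 n2988 = true) := ⟨by decide +kernel⟩

theorem g2988 : GoodF (fidx ts) 400 2988 := GoodF.ofV v2988 n2988 c2988.down b2988.down

/-- 4649447:2334/2 -/
noncomputable def e2989 : SCfg where
  D := {
    a := 7
    L := 10
    kp := 8
    inn := [(0, 1), (1, 0), (1, 2), (1, 3), (1, 4), (2, 1), (2, 3), (3, 1), (3, 2), (3, 4), (3, 5), (3,
      6), (4, 1), (4, 3), (5, 3), (5, 6), (6, 3), (6, 5)]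
    mix := [(0, 0), (0, 1), (0, 2), (1, 0), (1, 2), (2, 2), (2, 3), (3, 3), (3, 4), (3, 5), (3, 6), (4,
      0), (4, 6), (5, 4), (5, 7), (6, 1), (6, 3), (6, 7), (6, 8), (6, 9)]
    cl := [1, 3, 2, 0, 5, 6, 0, 4, 7, 8]
    chq := [(1, 2), (2, 1), (3, 6), (4, 6), (6, 3), (6, 4), (6, 7), (6, 8), (7, 6), (8, 6)]
    rng := [(0, 1), (0, 6), (1, 0), (1, 2), (1, 8), (1, 9), (2, 1), (2, 3), (3, 2), (3, 8), (4, 5), (4,
      7), (5, 4), (5, 6), (6, 0), (6, 5), (7, 4), (7, 9), (8, 1), (8, 3), (9, 1), (9, 7)]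
    lev := [] }
  links := [[1, 7, 8, 9], [7, 0, 9, 2, 3, 4], [3, 1, 9, 10], [4, 1, 2, 10, 6, 5, 11, 12, 13], [7, 1, 3,
    13], [11, 3, 6, 14], [14, 5, 3, 10, 15, 8, 16]]
  P := {
    a := 7
    N := 17
    nb := [898, 669, 1546, 15478, 8330, 18504, 116008, 8467, 99009, 1287, 33356, 20520, 10248, 4248,
      67680, 1344, 16704]
    tri := [(0, 1, 7), (0, 1, 9), (0, 7, 8), (0, 8, 9), (1, 2, 3), (1, 2, 9), (1, 3, 4), (1, 4, 7), (2,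
      3, 10), (2, 9, 10), (3, 4, 13), (3, 5, 6), (3, 5, 11), (3, 6, 10), (3, 11, 12), (3, 12, 13),
      (4, 7, 13), (5, 6, 14), (5, 11, 14), (6, 8, 15), (6, 8, 16), (6, 10, 15), (6, 14, 16)]
    fin := [0, 1, 1, 3, 1, 5, 3, 0, 8, 9, 1, 11, 3, 1, 5, 15, 16]
    chd := [(0, 9), (3, 5), (3, 15), (3, 16), (8, 3)]
    steps := [(0, 7), (1, 2), (1, 4), (1, 10), (1, 13), (3, 6), (3, 12), (5, 14)] }
  rep := [1, 0, 9, 8, 5, 11, 3, 15, 16]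

noncomputable def v2989 : Cov.CovD where
  P := 3
  N := 6
  pl := [4]
  lev := [⟨[], [], [(1, 2), (1, 3), (2, 3)], [], [(0, 1, [2]), (1, 3, [6]), (2, 2, [1])]⟩,
    ⟨[], [(0, 1), (0, 2), (0, 3)], [(1, 2)], [], [(0, 1, [2]), (2, 2, [1])]⟩,
    ⟨[(0, 1)], [(0, 2), (1, 0), (1, 1), (1, 2)], [(0, 2)], [], [(2, 2, [1]), (3, 0, [])]⟩,
    ⟨[(0, 1), (1, 2)], [(1, 0), (1, 1), (1, 2), (1, 6), (2, 0), (2, 2), (2, 6)], [(0, 0),
      (0, 6)], [5], [(3, 0, []), (5, 6, [3, 4, 7, 8]), (6, 0, [])]⟩,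
    ⟨[(0, 1), (1, 2), (1, 3), (2, 3)], [(0, 1), (1, 0), (1, 1), (1, 2), (3, 0), (3, 1), (3,
      6)], [(0, 1)], [], [(0, 1, [2]), (6, 0, [])]⟩,
    ⟨[(1, 3), (2, 3), (3, 4)], [(3, 0), (3, 4), (3, 6)], [], [5], [(7, 4, [6])]⟩,
    ⟨[(1, 3), (2, 3), (3, 4), (3, 5)], [(0, 3), (2, 0), (3, 0), (3, 3), (3, 4), (3, 6), (3,
      7), (3, 8), (5, 0), (5, 3), (5, 4), (5, 7), (5, 8)], [(0, 3), (0, 4), (0, 7), (0, 8),
      (3, 4), (3, 7), (3, 8), (4, 7), (4, 8), (7, 8)], [], [(1, 3, [6]), (3, 0, []), (7, 4,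
      [6]), (8, 7, [6]), (9, 8, [6])]⟩]
  Ta := [((3, 2), 0, 2), ((3, 8), 0, 7), ((6, 0), 0, 1), ((6, 5), 0, 6)]
  Tb := [((0, 1, 6), 1, 3, 0), ((1, 0, 2), 3, 1, 2), ((1, 0, 8), 3, 1, 7), ((1, 0, 9), 3, 1, 8),
    ((1, 2, 8), 3, 2, 7), ((1, 2, 9), 3, 2, 8), ((1, 8, 9), 3, 7, 8), ((2, 1, 3), 2, 3, 0),
    ((3, 2, 8), 0, 2, 7), ((4, 5, 7), 5, 6, 4), ((5, 4, 6), 6, 5, 0), ((6, 0, 5), 0, 1, 6),
    ((7, 4, 9), 4, 5, 8), ((8, 1, 3), 7, 3, 0), ((9, 1, 7), 8, 3, 4)]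
  Tc := [(6, 3, 4), (6, 3, 7), (6, 3, 8), (6, 4, 7), (6, 4, 8), (6, 7, 8)]
  Td := [((1, 2), (0, 1), 3), ((1, 2), (0, 6), 0), ((2, 1), (2, 1), 3), ((2, 1), (2, 3), 0), ((3,
    6), (1, 0), 1), ((3, 6), (1, 2), 2), ((3, 6), (1, 8), 7), ((3, 6), (1, 9), 8), ((4, 6),
    (7, 4), 5), ((4, 6), (7, 9), 8), ((6, 3), (5, 4), 5), ((6, 3), (5, 6), 0), ((6, 4), (5,
    4), 5), ((6, 4), (5, 6), 0), ((6, 7), (5, 4), 5), ((6, 7), (5, 6), 0), ((6, 8), (5, 4),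
    5), ((6, 8), (5, 6), 0), ((7, 6), (8, 1), 3), ((7, 6), (8, 3), 0), ((8, 6), (9, 1), 3),
    ((8, 6), (9, 7), 4)]
  G := [[0, 0, 0xa4142cc3126694a18c6ccc312aa5146669182cc,
    0xaa51cc31686694829612aa58cc34e6828c15, 0x42674aaad8cccb4e81aa58cc38666948a19], [0,
    0xaa52416692cc38a4caa58416692cc38a1cc, 0, 0xaa584216692cc38a147692dc34aba52461d,
    0x82ab44cccf4612e6d4829ba58dc38676948a19]]

noncomputable def n2989 : Ent := ⟨e2989, noF, [], [], []⟩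

def c2989 : PLift (Cov.check n2989.C.D v2989 = true) := ⟨by decide +kernel⟩

def b2989 : PLift (entF (fidx ts) 400 2989 n2989 = true) := ⟨by decide +kernel⟩

theorem g2989 : GoodF (fidx ts) 400 2989 := GoodF.ofV v2989 n2989 c2989.down b2989.down

/-- 4649447:2334 -/
noncomputable def e2990 : SCfg where
  D := {
    a := 7
    L := 11
    kp := 9
    inn := [(0, 1), (1, 0), (1, 2), (1, 3), (1, 4), (2, 1), (2, 3), (3, 1), (3, 2), (3, 4), (3, 5), (3,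
      6), (4, 1), (4, 3), (5, 3), (5, 6), (6, 3), (6, 5)]
    mix := [(0, 0), (0, 1), (0, 2), (1, 0), (1, 2), (2, 2), (2, 3), (3, 3), (3, 4), (3, 5), (3, 6), (4,
      0), (4, 6), (5, 4), (5, 7), (6, 3), (6, 7), (6, 8), (6, 9), (6, 10)]
    cl := [1, 9, 2, 0, 4, 5, 0, 3, 6, 7, 8]
    chq := [(1, 2), (2, 1), (3, 5), (5, 3), (5, 6), (5, 7), (5, 8), (6, 5), (7, 5), (8, 5)]
    rng := [(0, 1), (0, 6), (1, 0), (1, 2), (2, 1), (2, 3), (3, 2), (3, 8), (4, 5), (4, 7), (5, 4), (5,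
      6), (6, 0), (6, 5), (7, 4), (7, 10), (8, 3), (8, 9), (9, 8), (9, 10), (10, 7), (10, 9)]
    lev := [] }
  links := [[1, 7, 8, 9], [7, 0, 9, 2, 3, 4], [3, 1, 9, 10], [4, 1, 2, 10, 6, 5, 11, 12, 13], [7, 1, 3,
    13], [11, 3, 6, 14], [14, 5, 3, 10, 15, 16, 17]]
  P := {
    a := 7
    N := 18
    nb := [898, 669, 1546, 15478, 8330, 18504, 246824, 8467, 641, 1287, 33356, 20520, 10248, 4248,
      133216, 66624, 163904, 81984]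
    tri := [(0, 1, 7), (0, 1, 9), (0, 7, 8), (0, 8, 9), (1, 2, 3), (1, 2, 9), (1, 3, 4), (1, 4, 7), (2,
      3, 10), (2, 9, 10), (3, 4, 13), (3, 5, 6), (3, 5, 11), (3, 6, 10), (3, 11, 12), (3, 12, 13),
      (4, 7, 13), (5, 6, 14), (5, 11, 14), (6, 10, 15), (6, 14, 17), (6, 15, 16), (6, 16, 17)]
    fin := [0, 1, 1, 3, 1, 5, 3, 0, 8, 9, 1, 11, 3, 1, 5, 15, 16, 17]
    chd := [(0, 9), (3, 5), (3, 15), (3, 16), (3, 17)]
    steps := [(0, 7), (1, 2), (1, 4), (1, 10), (1, 13), (3, 6), (3, 12), (5, 14)] }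
  rep := [1, 0, 9, 5, 11, 3, 15, 16, 17, 8]

noncomputable def v2990 : Cov.CovD where
  P := 3
  N := 7
  pl := [1, 4]
  lev := [⟨[], [], [(1, 2)], [9], [(0, 1, [2]), (2, 2, [1])]⟩,
    ⟨[], [(0, 1), (0, 2)], [(1, 2)], [], [(0, 1, [2]), (2, 2, [1])]⟩,
    ⟨[(0, 1)], [(0, 2), (1, 0), (1, 1), (1, 2)], [(0, 2)], [], [(2, 2, [1]), (3, 0, [])]⟩,
    ⟨[(0, 1), (1, 2)], [(1, 0), (1, 1), (1, 2), (1, 5), (2, 0), (2, 2), (2, 5)], [(0, 0),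
      (0, 5)], [4], [(3, 0, []), (5, 5, [3, 6, 7, 8]), (6, 0, [])]⟩,
    ⟨[(0, 1), (1, 2), (1, 3), (2, 3)], [(0, 1), (1, 0), (1, 1), (1, 2), (3, 0), (3, 1), (3,
      5)], [(0, 1)], [], [(0, 1, [2]), (6, 0, [])]⟩,
    ⟨[(1, 3), (2, 3), (3, 4)], [(3, 0), (3, 3), (3, 5)], [], [4], [(7, 3, [5])]⟩,
    ⟨[(1, 3), (2, 3), (3, 4), (3, 5)], [(2, 0), (3, 0), (3, 3), (3, 5), (3, 6), (3, 7), (3,
      8), (5, 0), (5, 3), (5, 6), (5, 7), (5, 8)], [(0, 3), (0, 6), (0, 7), (0, 8), (3, 6),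
      (3, 7), (3, 8), (6, 7), (6, 8), (7, 8)], [], [(3, 0, []), (7, 3, [5]), (8, 6, [5]), (9,
      7, [5]), (10, 8, [5])]⟩]
  Ta := [((3, 2), 0, 2), ((3, 8), 0, 6), ((6, 0), 0, 1), ((6, 5), 0, 5)]
  Tb := [((0, 1, 6), 1, 9, 0), ((1, 0, 2), 9, 1, 2), ((2, 1, 3), 2, 9, 0), ((3, 2, 8), 0, 2, 6),
    ((4, 5, 7), 4, 5, 3), ((5, 4, 6), 5, 4, 0), ((6, 0, 5), 0, 1, 5), ((7, 4, 10), 3, 4, 8),
    ((8, 3, 9), 6, 0, 7), ((9, 8, 10), 7, 6, 8), ((10, 7, 9), 8, 3, 7)]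
  Tc := [(5, 3, 6), (5, 3, 7), (5, 3, 8), (5, 6, 7), (5, 6, 8), (5, 7, 8)]
  Td := [((1, 2), (0, 1), 9), ((1, 2), (0, 6), 0), ((2, 1), (2, 1), 9), ((2, 1), (2, 3), 0), ((3,
    5), (7, 4), 4), ((3, 5), (7, 10), 8), ((5, 3), (5, 4), 4), ((5, 3), (5, 6), 0), ((5, 6),
    (5, 4), 4), ((5, 6), (5, 6), 0), ((5, 7), (5, 4), 4), ((5, 7), (5, 6), 0), ((5, 8), (5,
    4), 4), ((5, 8), (5, 6), 0), ((6, 5), (8, 3), 0), ((6, 5), (8, 9), 7), ((7, 5), (9, 8),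
    6), ((7, 5), (9, 10), 8), ((8, 5), (10, 7), 3), ((8, 5), (10, 9), 7)]
  G := [[0, 0, 0xcc312aa5146669182caa5842c2126691c18aacc, 0xaa52cc38666928a16691cc38a4aa524259,
    0xaa58cc38666948a1aa51cc316866948299], [0, 0xaa52416692cc38a4caa52cc3861669281cc, 0,
    0xa121dc746a42468dc382716d28a47694ba58c21d, 0x614ba58dc34e7848a1dc3827694ba58ca19]]

noncomputable def n2990 : Ent := ⟨e2990, noF, [], [], [(8, 15, [7334790850167413569773436004105379185503274260204390087403942016892929, 0]), (8, 16, [7334685537875745012586738086077695515070955365108989538292687705919489, 0])]⟩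

def c2990 : PLift (Cov.check n2990.C.D v2990 = true) := ⟨by decide +kernel⟩

def b2990 : PLift (entF (fidx ts) 400 2990 n2990 = true) := ⟨by decide +kernel⟩

theorem g2990 : GoodF (fidx ts) 400 2990 := GoodF.ofV v2990 n2990 c2990.down b2990.down

/-- 4649464:2336/1 -/
noncomputable def e2991 : SCfg where
  D := {
    a := 7
    L := 10
    kp := 7
    inn := [(0, 1), (1, 0), (1, 2), (1, 3), (1, 4), (2, 1), (2, 3), (3, 1), (3, 2), (3, 4), (3, 5), (4,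
      1), (4, 3), (5, 3), (5, 6), (6, 5)]
    mix := [(0, 0), (0, 1), (0, 2), (1, 0), (1, 2), (2, 2), (2, 3), (3, 3), (3, 4), (3, 5), (3, 6), (3,
      7), (4, 0), (4, 7), (5, 1), (5, 4), (5, 5), (5, 8), (6, 5), (6, 8), (6, 9)]
    cl := [3, 2, 4, 0, 1, 1, 7, 0, 5, 6]
    chq := [(2, 6), (3, 4), (4, 3), (6, 2)]
    rng := [(0, 1), (0, 7), (1, 0), (1, 2), (1, 4), (1, 8), (2, 1), (2, 3), (3, 2), (3, 4), (4, 1), (4,
      3), (5, 6), (5, 9), (6, 5), (6, 7), (7, 0), (7, 6), (8, 1), (8, 9), (9, 5), (9, 8)]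
    lev := [] }
  links := [[1, 7, 8, 9], [7, 0, 9, 2, 3, 4], [3, 1, 9, 10], [4, 1, 2, 10, 11, 5, 12, 13, 14], [7, 1, 3,
    14], [12, 3, 11, 8, 15, 6], [12, 5, 15, 16]]
  P := {
    a := 7
    N := 17
    nb := [898, 669, 1546, 31798, 16522, 39240, 102432, 16659, 35489, 1287, 2572, 1320, 73832, 20488,
      8344, 65888, 36928]
    tri := [(0, 1, 7), (0, 1, 9), (0, 7, 8), (0, 8, 9), (1, 2, 3), (1, 2, 9), (1, 3, 4), (1, 4, 7), (2,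
      3, 10), (2, 9, 10), (3, 4, 14), (3, 5, 11), (3, 5, 12), (3, 10, 11), (3, 12, 13), (3, 13,
      14), (4, 7, 14), (5, 6, 12), (5, 6, 15), (5, 8, 11), (5, 8, 15), (6, 12, 16), (6, 15, 16)]
    fin := [0, 1, 1, 3, 1, 5, 5, 0, 5, 9, 1, 3, 3, 13, 1, 15, 16]
    chd := [(0, 9), (5, 16)]
    steps := [(0, 7), (1, 2), (1, 4), (1, 10), (1, 14), (3, 11), (3, 12), (5, 6), (5, 8)] }
  rep := [1, 3, 5, 0, 9, 15, 16, 13]

noncomputable def v2991 : Cov.CovD where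
  P := 3
  N := 5
  pl := [6, 8]
  lev := [⟨[], [], [(2, 3), (2, 4), (3, 4)], [], [(0, 3, [4]), (1, 2, [6]), (2, 4, [3])]⟩,
    ⟨[], [(0, 2), (0, 3), (0, 4)], [(3, 4)], [], [(0, 3, [4]), (2, 4, [3])]⟩,
    ⟨[(0, 1)], [(0, 4), (1, 0), (1, 3), (1, 4)], [(0, 4)], [], [(2, 4, [3]), (3, 0, [])]⟩,
    ⟨[(0, 1), (1, 2)], [(1, 0), (1, 1), (1, 3), (1, 4), (2, 0), (2, 1), (2, 4)], [(0, 0),
      (0, 1), (1, 1)], [7], [(3, 0, []), (4, 1, []), (5, 1, []), (7, 0, [])]⟩,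
    ⟨[(0, 1), (1, 2), (1, 3), (2, 3)], [(0, 3), (1, 0), (1, 3), (1, 4), (3, 0), (3, 1), (3,
      3)], [(0, 3)], [], [(0, 3, [4]), (7, 0, [])]⟩,
    ⟨[(1, 3), (2, 3), (3, 4)], [(0, 2), (3, 0), (3, 1), (3, 2)], [(1, 1), (1, 2)], [5],
      [(1, 2, [6]), (4, 1, []), (5, 1, [])]⟩,
    ⟨[(3, 5)], [(3, 1), (5, 1), (5, 2), (5, 6)], [(1, 6)], [5], [(5, 1, []), (9, 6, [2])]⟩]
  Ta := [((3, 2), 0, 4), ((3, 4), 0, 1), ((4, 1), 1, 2), ((4, 3), 1, 0), ((5, 6), 1, 7), ((5, 9),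
    1, 6), ((7, 0), 0, 3), ((7, 6), 0, 7)]
  Tb := [((0, 1, 7), 3, 2, 0), ((1, 0, 2), 2, 3, 4), ((1, 0, 4), 2, 3, 1), ((1, 0, 8), 2, 3, 5),
    ((1, 2, 4), 2, 4, 1), ((1, 2, 8), 2, 4, 5), ((1, 4, 8), 2, 1, 5), ((2, 1, 3), 4, 2, 0),
    ((3, 2, 4), 0, 4, 1), ((4, 1, 3), 1, 2, 0), ((5, 6, 9), 1, 7, 6), ((6, 5, 7), 7, 1, 0),
    ((7, 0, 6), 0, 3, 7), ((8, 1, 9), 5, 2, 6), ((9, 5, 8), 6, 1, 5)]
  Tc := []
  Td := [((2, 6), (1, 0), 3), ((2, 6), (1, 2), 4), ((2, 6), (1, 4), 1), ((2, 6), (1, 8), 5), ((3,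
    4), (0, 1), 2), ((3, 4), (0, 7), 0), ((4, 3), (2, 1), 2), ((4, 3), (2, 3), 0), ((6, 2),
    (9, 5), 1), ((6, 2), (9, 8), 5)]
  G := [[0, 0x21c2421c2221c412c8ce11, 0x2414612c8c28281848e121c2421c4821c84e121c212c2c21e,
    0x22522291c8222c22292c4222522252c21d,
    0x429142249182c24912491c424122492c282842942498ce1b], [0, 0,
    0xd4d46d1c8c18281848e1d1c241dc48d1c84e159c259c2c21e, 0,
    0x4d91c598c245c914d91c424d92d492c5c945c94c61b], [0, 0,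
    0x14412c8c12c282848e121c2421c4188c2484e112c212c2c21e,
    0x22542298c82225822c8c2222c222c2c21d, 0x429244429284c24942498c124294442924298c24948e1b],
    [0, 0, 0xd44d1c8c1dc281848e1d1c241dc4d88c1484e11dc259c2c21e, 0,
    0xd14c592c4828c44d94d498c125c92c592c4d94c594c61b]]

noncomputable def n2991 : Ent := ⟨e2991, noF, [], [], []⟩

def c2991 : PLift (Cov.check n2991.C.D v2991 = true) := ⟨by decide +kernel⟩

def b2991 : PLift (entF (fidx ts) 400 2991 n2991 = true) := ⟨by decide +kernel⟩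

theorem g2991 : GoodF (fidx ts) 400 2991 := GoodF.ofV v2991 n2991 c2991.down b2991.down

/-- 4649464:2336/2 -/
noncomputable def e2992 : SCfg where
  D := {
    a := 7
    L := 10
    kp := 7
    inn := [(0, 1), (1, 0), (1, 2), (1, 3), (1, 4), (2, 1), (2, 3), (3, 1), (3, 2), (3, 4), (3, 5), (4,
      1), (4, 3), (5, 3), (5, 6), (6, 5)]
    mix := [(0, 0), (0, 1), (0, 2), (1, 0), (1, 2), (2, 2), (2, 3), (3, 3), (3, 4), (3, 5), (3, 6), (3,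
      7), (4, 0), (4, 7), (5, 1), (5, 4), (5, 5), (5, 8), (6, 1), (6, 5), (6, 9)]
    cl := [4, 2, 1, 0, 3, 3, 7, 0, 5, 6]
    chq := [(1, 4), (4, 1), (5, 6), (6, 5)]
    rng := [(0, 1), (0, 7), (1, 0), (1, 2), (1, 8), (1, 9), (2, 1), (2, 3), (3, 2), (3, 4), (4, 3), (4,
      8), (5, 6), (5, 9), (6, 5), (6, 7), (7, 0), (7, 6), (8, 1), (8, 4), (9, 1), (9, 5)]
    lev := [] }
  links := [[1, 7, 8, 9], [7, 0, 9, 2, 3, 4], [3, 1, 9, 10], [4, 1, 2, 10, 11, 5, 12, 13, 14], [7, 1, 3,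
    14], [12, 3, 11, 15, 8, 6], [12, 5, 8, 16]]
  P := {
    a := 7
    N := 17
    nb := [898, 669, 1546, 31798, 16522, 39240, 69920, 16659, 99041, 1287, 2572, 33832, 73832, 20488,
      8344, 2336, 4416]
    tri := [(0, 1, 7), (0, 1, 9), (0, 7, 8), (0, 8, 9), (1, 2, 3), (1, 2, 9), (1, 3, 4), (1, 4, 7), (2,
      3, 10), (2, 9, 10), (3, 4, 14), (3, 5, 11), (3, 5, 12), (3, 10, 11), (3, 12, 13), (3, 13,
      14), (4, 7, 14), (5, 6, 8), (5, 6, 12), (5, 8, 15), (5, 11, 15), (6, 8, 16), (6, 12, 16)]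
    fin := [0, 1, 1, 3, 1, 5, 5, 0, 8, 9, 1, 3, 3, 13, 1, 5, 16]
    chd := [(0, 9), (5, 16)]
    steps := [(0, 7), (1, 2), (1, 4), (1, 10), (1, 14), (3, 11), (3, 12), (5, 6), (5, 15)] }
  rep := [1, 9, 8, 3, 0, 5, 16, 13]

noncomputable def v2992 : Cov.CovD where
  P := 3
  N := 5
  pl := [1, 6]
  lev := [⟨[], [], [(1, 4)], [2], [(0, 4, [1]), (2, 1, [4])]⟩,
    ⟨[], [(0, 1), (0, 4)], [(1, 4)], [], [(0, 4, [1]), (2, 1, [4])]⟩,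
    ⟨[(0, 1)], [(0, 1), (1, 0), (1, 1), (1, 4)], [(0, 1)], [], [(2, 1, [4]), (3, 0, [])]⟩,
    ⟨[(0, 1), (1, 2)], [(1, 0), (1, 1), (1, 3), (1, 4), (2, 0), (2, 1), (2, 3)], [(0, 0),
      (0, 3), (3, 3)], [7], [(3, 0, []), (4, 3, []), (5, 3, []), (7, 0, [])]⟩,
    ⟨[(0, 1), (1, 2), (1, 3), (2, 3)], [(0, 4), (1, 0), (1, 1), (1, 4), (3, 0), (3, 3), (3,
      4)], [(0, 4)], [], [(0, 4, [1]), (7, 0, [])]⟩,
    ⟨[(1, 3), (2, 3), (3, 4)], [(3, 0), (3, 3), (3, 5)], [(3, 3), (3, 5)], [2], [(4, 3,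
      []), (5, 3, []), (8, 5, [6])]⟩,
    ⟨[(3, 5)], [(3, 3), (5, 3), (5, 5), (5, 6)], [(3, 6)], [2], [(5, 3, []), (9, 6, [5])]⟩]
  Ta := [((3, 2), 0, 1), ((3, 4), 0, 3), ((4, 3), 3, 0), ((4, 8), 3, 5), ((5, 6), 3, 7), ((5, 9),
    3, 6), ((7, 0), 0, 4), ((7, 6), 0, 7)]
  Tb := [((0, 1, 7), 4, 2, 0), ((1, 0, 2), 2, 4, 1), ((1, 0, 8), 2, 4, 5), ((1, 0, 9), 2, 4, 6),
    ((1, 2, 8), 2, 1, 5), ((1, 2, 9), 2, 1, 6), ((1, 8, 9), 2, 5, 6), ((2, 1, 3), 1, 2, 0),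
    ((3, 2, 4), 0, 1, 3), ((4, 3, 8), 3, 0, 5), ((5, 6, 9), 3, 7, 6), ((6, 5, 7), 7, 3, 0),
    ((7, 0, 6), 0, 4, 7), ((8, 1, 4), 5, 2, 3), ((9, 1, 5), 6, 2, 3)]
  Tc := []
  Td := [((1, 4), (2, 1), 2), ((1, 4), (2, 3), 0), ((4, 1), (0, 1), 2), ((4, 1), (0, 7), 0), ((5,
    6), (8, 1), 2), ((5, 6), (8, 4), 3), ((6, 5), (9, 1), 2), ((6, 5), (9, 5), 3)]
  G := [[0, 0x1951488d1625118982a1891484d1a21452486c,
    0x2462488e2288e8e2828c1228e24488e4224e4ac1c, 0x484d2188d2618928c11,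
    0x1892288b2193193ce411], [0, 0x411414111cd166189184a189111cd1a241146486c,
    0x88624a4e222ce8e6828c14a4e24688e422ce4ac1c, 0x1424189241211cd2ec11,
    0x189211ab2123123ce411], [0, 0, 0x484e2224e86484e28c1422428e2488e4e28c48c1c,
    0x1452488d2618488d2814842418921892114d2ec1d, 0x182b21221661189284c212b2218b212123ce419],
    [0, 0, 0x4a4e822ce86688e28c14a4e222ce46688e28c1c,
    0x145211cd261189284c1424189241211cd2ec19, 0x11ab2123464189284c189211ab2121221ee419]]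

noncomputable def n2992 : Ent := ⟨e2992, noF, [], [], []⟩

def c2992 : PLift (Cov.check n2992.C.D v2992 = true) := ⟨by decide +kernel⟩

def b2992 : PLift (entF (fidx ts) 400 2992 n2992 = true) := ⟨by decide +kernel⟩

theorem g2992 : GoodF (fidx ts) 400 2992 := GoodF.ofV v2992 n2992 c2992.down b2992.down

/-- 4649464:2336/3 -/
noncomputable def e2993 : SCfg where
  D := {
    a := 7
    L := 10
    kp := 7
    inn := [(0, 1), (1, 0), (1, 2), (1, 3), (1, 4), (2, 1), (2, 3), (3, 1), (3, 2), (3, 4), (3, 5), (4,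
      1), (4, 3), (5, 3), (5, 6), (6, 5)]
    mix := [(0, 0), (0, 1), (0, 2), (1, 0), (1, 2), (2, 2), (2, 3), (3, 3), (3, 4), (3, 5), (3, 6), (3,
      7), (4, 0), (4, 7), (5, 4), (5, 5), (5, 8), (5, 9), (6, 1), (6, 5), (6, 9)]
    cl := [0, 2, 1, 3, 4, 4, 7, 3, 6, 5]
    chq := [(0, 1), (1, 0), (2, 6), (6, 2)]
    rng := [(0, 1), (0, 7), (1, 0), (1, 2), (1, 5), (1, 9), (2, 1), (2, 3), (3, 2), (3, 4), (4, 3), (4,
      8), (5, 1), (5, 6), (6, 5), (6, 7), (7, 0), (7, 6), (8, 4), (8, 9), (9, 1), (9, 8)]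
    lev := [] }
  links := [[1, 7, 8, 9], [7, 0, 9, 2, 3, 4], [3, 1, 9, 10], [4, 1, 2, 10, 11, 5, 12, 13, 14], [7, 1, 3,
    14], [12, 3, 11, 15, 16, 6], [12, 5, 16, 8]]
  P := {
    a := 7
    N := 17
    nb := [898, 669, 1546, 31798, 16522, 104520, 69920, 16659, 70337, 1287, 2572, 33832, 8552, 20488,
      8344, 67616, 33120]
    tri := [(0, 1, 7), (0, 1, 9), (0, 7, 8), (0, 8, 9), (1, 2, 3), (1, 2, 9), (1, 3, 4), (1, 4, 7), (2,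
      3, 10), (2, 9, 10), (3, 4, 14), (3, 5, 11), (3, 5, 12), (3, 10, 11), (3, 12, 13), (3, 13,
      14), (4, 7, 14), (5, 6, 12), (5, 6, 16), (5, 11, 15), (5, 15, 16), (6, 8, 12), (6, 8, 16)]
    fin := [0, 1, 1, 3, 1, 5, 5, 0, 5, 9, 1, 3, 3, 13, 1, 15, 16]
    chd := [(0, 9), (5, 15)]
    steps := [(0, 7), (1, 2), (1, 4), (1, 10), (1, 14), (3, 11), (3, 12), (5, 6), (5, 8)] }
  rep := [0, 9, 5, 1, 3, 16, 15, 13]

noncomputable def v2993 : Cov.CovD where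
  P := 3
  N := 5
  pl := [6, 9]
  lev := [⟨[], [], [(0, 1), (0, 2), (1, 2)], [], [(0, 0, [1]), (1, 2, [6]), (2, 1, [0])]⟩,
    ⟨[], [(0, 0), (0, 1), (0, 2)], [(0, 1)], [], [(0, 0, [1]), (2, 1, [0])]⟩,
    ⟨[(0, 1)], [(0, 1), (1, 0), (1, 1), (1, 3)], [(1, 3)], [], [(2, 1, [0]), (3, 3, [])]⟩,
    ⟨[(0, 1), (1, 2)], [(1, 0), (1, 1), (1, 3), (1, 4), (2, 1), (2, 3), (2, 4)], [(3, 3),
      (3, 4), (4, 4)], [7], [(3, 3, []), (4, 4, []), (5, 4, []), (7, 3, [])]⟩,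
    ⟨[(0, 1), (1, 2), (1, 3), (2, 3)], [(0, 0), (1, 0), (1, 1), (1, 3), (3, 0), (3, 3), (3,
      4)], [(0, 3)], [], [(0, 0, [1]), (7, 3, [])]⟩,
    ⟨[(1, 3), (2, 3), (3, 4)], [(3, 3), (3, 4), (3, 6)], [(4, 4), (4, 6)], [5], [(4, 4,
      []), (5, 4, []), (8, 6, [2])]⟩,
    ⟨[(3, 5)], [(0, 2), (3, 4), (5, 2), (5, 4), (5, 6)], [(2, 4)], [5], [(1, 2, [6]), (5,
      4, [])]⟩]
  Ta := [((3, 2), 3, 1), ((3, 4), 3, 4), ((4, 3), 4, 3), ((4, 8), 4, 6), ((5, 1), 4, 2), ((5, 6),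
    4, 7), ((7, 0), 3, 0), ((7, 6), 3, 7)]
  Tb := [((0, 1, 7), 0, 2, 3), ((1, 0, 2), 2, 0, 1), ((1, 0, 5), 2, 0, 4), ((1, 0, 9), 2, 0, 5),
    ((1, 2, 5), 2, 1, 4), ((1, 2, 9), 2, 1, 5), ((1, 5, 9), 2, 4, 5), ((2, 1, 3), 1, 2, 3),
    ((3, 2, 4), 3, 1, 4), ((4, 3, 8), 4, 3, 6), ((5, 1, 6), 4, 2, 7), ((6, 5, 7), 7, 4, 3),
    ((7, 0, 6), 3, 0, 7), ((8, 4, 9), 6, 4, 5), ((9, 1, 8), 5, 2, 6)]
  Tc := []
  Td := [((0, 1), (0, 1), 2), ((0, 1), (0, 7), 3), ((1, 0), (2, 1), 2), ((1, 0), (2, 3), 3), ((2,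
    6), (1, 0), 0), ((2, 6), (1, 2), 1), ((2, 6), (1, 5), 4), ((2, 6), (1, 9), 5), ((6, 2),
    (8, 4), 4), ((6, 2), (8, 9), 5)]
  G := [[0, 0x498721154b418194f14d4154f184c1f1a1c4, 0xa1216121c12612612ed84, 0x522522c28928f148,
    0x8321f2882b94661212121211988f28a2e29dc8], [0,
    0x845cf21849cf2154d1f18d1b284d1f8ed9484168, 0xe12e129e181e12e186d48, 0xc28c28d28d28f148,
    0xa1418b21f28b2e255a1813b21f28b91f8a9c8], [0, 0x89a12181c1f11847148bc511c1f14151ac68,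
    0xa12c12a12a12f484, 0x922c22c252c922f148, 0x9424192872821b282121a1de2312f2f18289c8], [0,
    0x89d1f1841d184dcf845cf672d2124d175898ac8, 0xc12c12e12e12f848, 0xd22d22d2d2cd22f848,
    0x82ab218b21f28b1d2b42753b21f29292ca1c8]]

noncomputable def n2993 : Ent := ⟨e2993, noF, [], [], []⟩

def c2993 : PLift (Cov.check n2993.C.D v2993 = true) := ⟨by decide +kernel⟩

def b2993 : PLift (entF (fidx ts) 400 2993 n2993 = true) := ⟨by decide +kernel⟩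

theorem g2993 : GoodF (fidx ts) 400 2993 := GoodF.ofV v2993 n2993 c2993.down b2993.down

/-- 4649464:2336 -/
noncomputable def e2994 : SCfg where
  D := {
    a := 7
    L := 11
    kp := 8
    inn := [(0, 1), (1, 0), (1, 2), (1, 3), (1, 4), (2, 1), (2, 3), (3, 1), (3, 2), (3, 4), (3, 5), (4,
      1), (4, 3), (5, 3), (5, 6), (6, 5)]
    mix := [(0, 0), (0, 1), (0, 2), (1, 0), (1, 2), (2, 2), (2, 3), (3, 3), (3, 4), (3, 5), (3, 6), (3,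
      7), (4, 0), (4, 7), (5, 4), (5, 5), (5, 8), (5, 9), (6, 5), (6, 9), (6, 10)]
    cl := [2, 7, 3, 0, 1, 1, 8, 0, 5, 4, 6]
    chq := [(2, 3), (3, 2), (5, 6), (6, 5)]
    rng := [(0, 1), (0, 7), (1, 0), (1, 2), (2, 1), (2, 3), (3, 2), (3, 4), (4, 3), (4, 8), (5, 6), (5,
      10), (6, 5), (6, 7), (7, 0), (7, 6), (8, 4), (8, 9), (9, 8), (9, 10), (10, 5), (10, 9)]
    lev := [] }
  links := [[1, 7, 8, 9], [7, 0, 9, 2, 3, 4], [3, 1, 9, 10], [4, 1, 2, 10, 11, 5, 12, 13, 14], [7, 1, 3,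
    14], [12, 3, 11, 15, 16, 6], [12, 5, 16, 17]]
  P := {
    a := 7
    N := 18
    nb := [898, 669, 1546, 31798, 16522, 104520, 200736, 16659, 641, 1287, 2572, 33832, 139368, 20488,
      8344, 67616, 163936, 69696]
    tri := [(0, 1, 7), (0, 1, 9), (0, 7, 8), (0, 8, 9), (1, 2, 3), (1, 2, 9), (1, 3, 4), (1, 4, 7), (2,
      3, 10), (2, 9, 10), (3, 4, 14), (3, 5, 11), (3, 5, 12), (3, 10, 11), (3, 12, 13), (3, 13,
      14), (4, 7, 14), (5, 6, 12), (5, 6, 16), (5, 11, 15), (5, 15, 16), (6, 12, 17), (6, 16, 17)]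
    fin := [0, 1, 1, 3, 1, 5, 5, 0, 8, 9, 1, 3, 3, 13, 1, 5, 16, 17]
    chd := [(0, 9), (5, 17)]
    steps := [(0, 7), (1, 2), (1, 4), (1, 10), (1, 14), (3, 11), (3, 12), (5, 6), (5, 15)] }
  rep := [1, 3, 0, 9, 16, 5, 17, 8, 13]

noncomputable def v2994 : Cov.CovD where
  P := 3
  N := 6
  pl := [1, 6, 9]
  lev := [⟨[], [], [(2, 3)], [7], [(0, 2, [3]), (2, 3, [2])]⟩,
    ⟨[], [(0, 2), (0, 3)], [(2, 3)], [], [(0, 2, [3]), (2, 3, [2])]⟩,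
    ⟨[(0, 1)], [(0, 3), (1, 0), (1, 2), (1, 3)], [(0, 3)], [], [(2, 3, [2]), (3, 0, [])]⟩,
    ⟨[(0, 1), (1, 2)], [(1, 0), (1, 1), (1, 2), (1, 3), (2, 0), (2, 1), (2, 3)], [(0, 0),
      (0, 1), (1, 1)], [8], [(3, 0, []), (4, 1, []), (5, 1, []), (7, 0, [])]⟩,
    ⟨[(0, 1), (1, 2), (1, 3), (2, 3)], [(0, 2), (1, 0), (1, 2), (1, 3), (3, 0), (3, 1), (3,
      2)], [(0, 2)], [], [(0, 2, [3]), (7, 0, [])]⟩,
    ⟨[(1, 3), (2, 3), (3, 4)], [(3, 0), (3, 1), (3, 5)], [(1, 1), (1, 5)], [4], [(4, 1,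
      []), (5, 1, []), (8, 5, [6])]⟩,
    ⟨[(3, 5)], [(3, 1), (5, 1), (5, 5), (5, 6)], [(1, 6)], [4], [(5, 1, []), (10, 6, [5])]⟩]
  Ta := [((3, 2), 0, 3), ((3, 4), 0, 1), ((4, 3), 1, 0), ((4, 8), 1, 5), ((5, 6), 1, 8), ((5,
    10), 1, 6), ((7, 0), 0, 2), ((7, 6), 0, 8)]
  Tb := [((0, 1, 7), 2, 7, 0), ((1, 0, 2), 7, 2, 3), ((2, 1, 3), 3, 7, 0), ((3, 2, 4), 0, 3, 1),
    ((4, 3, 8), 1, 0, 5), ((5, 6, 10), 1, 8, 6), ((6, 5, 7), 8, 1, 0), ((7, 0, 6), 0, 2, 8),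
    ((8, 4, 9), 5, 1, 4), ((9, 8, 10), 4, 5, 6), ((10, 5, 9), 6, 1, 4)]
  Tc := []
  Td := [((2, 3), (0, 1), 7), ((2, 3), (0, 7), 0), ((3, 2), (2, 1), 7), ((3, 2), (2, 3), 0), ((5,
    6), (8, 4), 1), ((5, 6), (8, 9), 4), ((6, 5), (10, 5), 1), ((6, 5), (10, 9), 4)]
  G := [[0, 0x13ce41439acc21319e4135e8a4131ce49461acc21d, 0,
    0x236d14252ad182692d482d6a2d842a256898294529c42d692d452cd8c21d,
    0x26924452ad1348c212cd2423cd28cb24146a2d13a91cc42c8423222d846a2d23c98ca484e1b], [0, 0, 0,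
    0x59cd14259cd18459cd482d59cd84259cd182945c9c42d59cd4945c9cc21d,
    0x5c92449c5589894146948459cd28cb59cd1459cd1588cc9c5842359cd84259cd84c159ca8c3b], [0, 0,
    0x52ad241a2558a84592d281e283656483c528a815a2d241e23cd4592d8c12e,
    0x692d432cd8c2123cd4388c2a584613c528c52ad8c21d,
    0x965232cd2c2828c192568a6a2d8c2124842a538a5a92c9424e1b], [0, 0,
    0x59cd241945c9c8159cd482e5c924948459c558a8159cd841e59cd4945c9cc12e,
    0x5c944259cd4948c2959cd459cd8c2159cd4945c9cc21d,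
    0x9c5259cd8c5828c159cd259cd8c21948459cd25c92c9424e1b]]

noncomputable def n2994 : Ent := ⟨e2994, noF, [], [], [(8, 15, [7334790850167413569773436004105379185503274260204390087403942016905217, 0]), (8, 16, [7334685537875745012586738086077695515070955365108989538292687705931777, 0]), (8, 17, [6903326391201334775872065844685381424292761054348340378595029941948417, 0])]⟩

def c2994 : PLift (Cov.check n2994.C.D v2994 = true) := ⟨by decide +kernel⟩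

def b2994 : PLift (entF (fidx ts) 400 2994 n2994 = true) := ⟨by decide +kernel⟩

theorem g2994 : GoodF (fidx ts) 400 2994 := GoodF.ofV v2994 n2994 c2994.down b2994.down

/-- 4866646:2337 -/
noncomputable def e2995 : SCfg where
  D := {
    a := 7
    L := 11
    kp := 10
    inn := [(0, 1), (0, 3), (1, 0), (1, 2), (1, 3), (1, 4), (1, 6), (2, 1), (2, 4), (2, 5), (2, 6), (3,
      0), (3, 1), (3, 4), (4, 1), (4, 2), (4, 3), (5, 2), (5, 6), (6, 1), (6, 2), (6, 5)]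
    mix := [(0, 0), (0, 1), (1, 0), (1, 2), (1, 3), (2, 4), (2, 5), (3, 1), (3, 6), (3, 7), (4, 4), (4,
      7), (4, 8), (5, 5), (5, 9), (6, 2), (6, 9), (6, 10)]
    cl := [0, 5, 3, 7, 1, 6, 8, 2, 10, 4, 9]
    chq := [(0, 2), (0, 8), (1, 2), (1, 3), (1, 4), (1, 9), (2, 0), (2, 1), (2, 3), (2, 7), (3, 1), (3,
      2), (4, 1), (7, 2), (8, 0), (9, 1)]
    rng := [(0, 1), (0, 3), (1, 0), (1, 6), (2, 3), (2, 10), (3, 0), (3, 2), (4, 5), (4, 8), (5, 4),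
      (5, 9), (6, 1), (6, 7), (7, 6), (7, 8), (8, 4), (8, 7), (9, 5), (9, 10), (10, 2), (10, 9)]
    lev := [] }
  links := [[1, 7, 8, 3], [7, 0, 3, 4, 2, 6, 9, 10], [6, 1, 4, 11, 12, 5], [4, 1, 0, 8, 13, 14], [11, 2,
    1, 3, 14, 15], [6, 2, 12, 16], [9, 1, 2, 5, 16, 17]]
  P := {
    a := 7
    N := 18
    nb := [394, 1757, 6258, 24851, 51214, 69700, 197158, 1283, 8329, 132162, 642, 36884, 67620, 16648,
      40984, 18448, 135264, 66112]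
    tri := [(0, 1, 3), (0, 1, 7), (0, 3, 8), (0, 7, 8), (1, 2, 4), (1, 2, 6), (1, 3, 4), (1, 6, 9), (1,
      7, 10), (1, 9, 10), (2, 4, 11), (2, 5, 6), (2, 5, 12), (2, 11, 12), (3, 4, 14), (3, 8, 13),
      (3, 13, 14), (4, 11, 15), (4, 14, 15), (5, 6, 16), (5, 12, 16), (6, 9, 17), (6, 16, 17)]
    fin := [0, 1, 2, 0, 1, 2, 2, 0, 8, 9, 10, 2, 12, 13, 1, 15, 16, 17]
    chd := [(0, 1), (0, 13), (2, 1), (2, 16), (2, 17), (9, 1), (9, 2), (10, 1)]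
    steps := [(0, 3), (0, 7), (1, 4), (1, 14), (2, 5), (2, 6), (2, 11)] }
  rep := [0, 2, 1, 9, 16, 8, 12, 10, 13, 17, 15]

noncomputable def v2995 : Cov.CovD where
  P := 3
  N := 8
  pl := [1, 5, 8]
  lev := [⟨[], [], [], [5], [(0, 0, [2, 8])]⟩,
    ⟨[], [(0, 0), (0, 3), (0, 7)], [(0, 3), (0, 7), (3, 7)], [], [(0, 0, [2, 8]), (2, 3,
      [1, 2]), (3, 7, [2])]⟩,
    ⟨[(0, 1)], [(1, 0), (1, 1), (1, 3), (1, 7)], [], [6], [(4, 1, [2, 3, 4, 9])]⟩,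
    ⟨[(0, 1), (1, 2)], [(0, 0), (0, 2), (0, 8), (1, 0), (1, 2), (1, 3), (1, 7), (1, 8)],
      [(2, 8)], [5], [(6, 8, [0]), (7, 2, [0, 1, 3, 7])]⟩,
    ⟨[(0, 1), (0, 3), (1, 2), (1, 3), (2, 3)], [(1, 0), (1, 1), (1, 2), (1, 3), (1, 7), (2,
      1), (2, 2), (3, 1), (3, 2), (3, 8)], [(1, 2)], [10], [(4, 1, [2, 3, 4, 9]), (7, 2, [0,
      1, 3, 7])]⟩,
    ⟨[(1, 2), (2, 4)], [(2, 1), (2, 4)], [], [6], [(9, 4, [1])]⟩,
    ⟨[(0, 1), (1, 2), (1, 3), (1, 4), (1, 5), (2, 4), (2, 5)], [(1, 0), (1, 3), (1, 4), (1,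
      7), (1, 9), (2, 1), (2, 3), (2, 4), (2, 9), (5, 3), (5, 4), (5, 9)], [(3, 4), (3, 9),
      (4, 9)], [], [(2, 3, [1, 2]), (9, 4, [1]), (10, 9, [1])]⟩]
  Ta := []
  Tb := [((0, 1, 3), 0, 5, 7), ((1, 0, 6), 5, 0, 8), ((2, 3, 10), 3, 7, 9), ((3, 0, 2), 7, 0, 3),
    ((4, 5, 8), 1, 6, 10), ((5, 4, 9), 6, 1, 4), ((6, 1, 7), 8, 5, 2), ((7, 6, 8), 2, 8, 10),
    ((8, 4, 7), 10, 1, 2), ((9, 5, 10), 4, 6, 9), ((10, 2, 9), 9, 3, 4)]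
  Tc := [(0, 2, 8), (1, 2, 3), (1, 2, 4), (1, 2, 9), (1, 3, 4), (1, 3, 9), (1, 4, 9), (2, 0, 1),
    (2, 0, 3), (2, 0, 7), (2, 1, 3), (2, 1, 7), (2, 3, 7), (3, 1, 2)]
  Td := [((0, 2), (0, 1), 5), ((0, 2), (0, 3), 7), ((0, 8), (0, 1), 5), ((0, 8), (0, 3), 7), ((1,
    2), (4, 5), 6), ((1, 2), (4, 8), 10), ((1, 3), (4, 5), 6), ((1, 3), (4, 8), 10), ((1, 4),
    (4, 5), 6), ((1, 4), (4, 8), 10), ((1, 9), (4, 5), 6), ((1, 9), (4, 8), 10), ((2, 0), (7,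
    6), 8), ((2, 0), (7, 8), 10), ((2, 1), (7, 6), 8), ((2, 1), (7, 8), 10), ((2, 3), (7, 6),
    8), ((2, 3), (7, 8), 10), ((2, 7), (7, 6), 8), ((2, 7), (7, 8), 10), ((3, 1), (2, 3), 7),
    ((3, 1), (2, 10), 9), ((3, 2), (2, 3), 7), ((3, 2), (2, 10), 9), ((4, 1), (9, 5), 6),
    ((4, 1), (9, 10), 9), ((7, 2), (3, 0), 0), ((7, 2), (3, 2), 3), ((8, 0), (6, 1), 5), ((8,
    0), (6, 7), 2), ((9, 1), (10, 2), 3), ((9, 1), (10, 9), 4)]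
  G := [[0,
    0x3142211a11a5111b4153111ecd141111e193c91144e631116c2211288111699153111ec5111bb1c1161169111e193cd1188ee18812144128844c11ee,
    0x62223c11252b81122928622a4c2222568c732225c1123514422229a422c822524accb22981128225c11224623222dc62238222da23ca8844c2ede,
    0x222d2852849225122c249922921c1d22291422c225922c22c9522582298229229cdd2c,
    0x22c22a32222c229b92211212263225225a9d42211422c8225194a22844236222d922628222eb3228221988119222278222d2a69225225abfce]]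

noncomputable def n2995 : Ent := ⟨e2995, noF, [], [], []⟩

def c2995 : PLift (Cov.check n2995.C.D v2995 = true) := ⟨by decide +kernel⟩

def b2995 : PLift (entF (fidx ts) 400 2995 n2995 = true) := ⟨by decide +kernel⟩

theorem g2995 : GoodF (fidx ts) 400 2995 := GoodF.ofV v2995 n2995 c2995.down b2995.down

/-- 4866644:2338 -/
noncomputable def e2996 : SCfg where
  D := {
    a := 7
    L := 11
    kp := 9
    inn := [(0, 1), (0, 3), (1, 0), (1, 2), (1, 3), (1, 4), (1, 6), (2, 1), (2, 4), (2, 5), (3, 0), (3,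
      1), (3, 4), (4, 1), (4, 2), (4, 3), (5, 2), (6, 1)]
    mix := [(0, 0), (0, 1), (1, 0), (1, 2), (1, 3), (2, 2), (2, 4), (2, 5), (3, 1), (3, 6), (3, 7), (4,
      4), (4, 7), (4, 8), (5, 2), (5, 5), (5, 9), (6, 0), (6, 3), (6, 10)]
    cl := [0, 2, 0, 5, 3, 1, 6, 4, 7, 8, 9]
    chq := [(0, 1), (0, 3), (0, 4), (0, 6), (0, 7), (1, 0), (3, 0), (4, 0), (6, 0), (7, 0)]
    rng := [(0, 1), (0, 10), (1, 0), (1, 6), (2, 3), (2, 9), (3, 2), (3, 10), (4, 5), (4, 8), (5, 4),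
      (5, 9), (6, 1), (6, 7), (7, 6), (7, 8), (8, 4), (8, 7), (9, 2), (9, 5), (10, 0), (10, 3)]
    lev := [] }
  links := [[1, 7, 8, 3], [7, 0, 3, 4, 2, 9, 10, 6], [9, 1, 4, 11, 12, 5], [4, 1, 0, 8, 13, 14], [11, 2,
    1, 3, 14, 15], [9, 2, 12, 16], [7, 1, 10, 17]]
  P := {
    a := 7
    N := 18
    nb := [394, 1757, 6706, 24851, 51214, 70148, 132226, 131395, 8329, 66598, 131650, 36884, 67620,
      16648, 40984, 18448, 4640, 1216]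
    tri := [(0, 1, 3), (0, 1, 7), (0, 3, 8), (0, 7, 8), (1, 2, 4), (1, 2, 9), (1, 3, 4), (1, 6, 7), (1,
      6, 10), (1, 9, 10), (2, 4, 11), (2, 5, 9), (2, 5, 12), (2, 11, 12), (3, 4, 14), (3, 8, 13),
      (3, 13, 14), (4, 11, 15), (4, 14, 15), (5, 9, 16), (5, 12, 16), (6, 7, 17), (6, 10, 17)]
    fin := [0, 0, 0, 0, 0, 0, 0, 0, 8, 0, 10, 11, 12, 13, 14, 15, 16, 17]
    chd := [(0, 11), (0, 12), (0, 13), (0, 14), (0, 15)]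
    steps := [(0, 1), (0, 2), (0, 3), (0, 4), (0, 5), (0, 6), (0, 7), (0, 9)] }
  rep := [0, 12, 8, 11, 14, 10, 13, 15, 16, 17]

noncomputable def v2996 : Cov.CovD where
  P := 3
  N := 7
  pl := [1, 3, 9, 10]
  lev := [⟨[], [], [], [2], [(0, 0, [1, 3, 4, 6, 7])]⟩,
    ⟨[], [(0, 0)], [(0, 0)], [5], [(0, 0, [1, 3, 4, 6, 7]), (2, 0, [1, 3, 4, 6, 7])]⟩,
    ⟨[(0, 1)], [(1, 0), (1, 1), (1, 3)], [(0, 1), (0, 3), (1, 3)], [], [(2, 0, [1, 3, 4, 6,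
      7]), (4, 3, [0]), (5, 1, [0])]⟩,
    ⟨[(0, 1), (1, 2)], [(0, 0), (0, 4), (0, 6), (1, 0), (1, 4), (1, 6)], [(4, 6)], [2],
      [(6, 6, [0]), (7, 4, [0])]⟩,
    ⟨[(0, 1), (0, 3), (1, 2), (1, 3), (2, 3)], [(1, 0), (1, 3), (1, 4), (1, 7), (2, 0), (2,
      1), (2, 3), (2, 4), (2, 7), (3, 3), (3, 4), (3, 6), (3, 7)], [(3, 4), (3, 7), (4, 7)],
      [], [(4, 3, [0]), (7, 4, [0]), (8, 7, [0])]⟩,
    ⟨[(1, 2), (2, 4)], [(1, 0), (2, 0), (2, 1), (2, 3)], [(0, 1)], [8], [(2, 0, [1, 3, 4,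
      6, 7]), (5, 1, [0])]⟩,
    ⟨[(0, 1), (1, 2), (1, 3), (1, 4)], [(0, 0), (1, 0)], [], [5, 9], [(0, 0, [1, 3, 4, 6,
      7])]⟩]
  Ta := [((0, 1), 0, 2), ((0, 10), 0, 9), ((2, 3), 0, 5), ((2, 9), 0, 8)]
  Tb := [((0, 1, 10), 0, 2, 9), ((1, 0, 6), 2, 0, 6), ((2, 3, 9), 0, 5, 8), ((3, 2, 10), 5, 0,
    9), ((4, 5, 8), 3, 1, 7), ((5, 4, 9), 1, 3, 8), ((6, 1, 7), 6, 2, 4), ((7, 6, 8), 4, 6,
    7), ((8, 4, 7), 7, 3, 4), ((9, 2, 5), 8, 0, 1), ((10, 0, 3), 9, 0, 5)]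
  Tc := [(0, 1, 3), (0, 1, 4), (0, 1, 6), (0, 1, 7), (0, 3, 4), (0, 3, 6), (0, 3, 7), (0, 4, 6),
    (0, 4, 7), (0, 6, 7)]
  Td := [((0, 1), (0, 1), 2), ((0, 1), (0, 10), 9), ((0, 1), (2, 3), 5), ((0, 1), (2, 9), 8),
    ((0, 3), (0, 1), 2), ((0, 3), (0, 10), 9), ((0, 3), (2, 3), 5), ((0, 3), (2, 9), 8), ((0,
    4), (0, 1), 2), ((0, 4), (0, 10), 9), ((0, 4), (2, 3), 5), ((0, 4), (2, 9), 8), ((0, 6),
    (0, 1), 2), ((0, 6), (0, 10), 9), ((0, 6), (2, 3), 5), ((0, 6), (2, 9), 8), ((0, 7), (0,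
    1), 2), ((0, 7), (0, 10), 9), ((0, 7), (2, 3), 5), ((0, 7), (2, 9), 8), ((1, 0), (5, 4),
    3), ((1, 0), (5, 9), 8), ((3, 0), (4, 5), 1), ((3, 0), (4, 8), 7), ((4, 0), (7, 6), 6),
    ((4, 0), (7, 8), 7), ((6, 0), (6, 1), 2), ((6, 0), (6, 7), 4), ((7, 0), (8, 4), 3), ((7,
    0), (8, 7), 4)]
  G := [[0, 0x11a11411c11211c118e4,
    0x4112116411c11e11eca11e11811ee11611411ecac11811e11e811211ac46,
    0x11116141111111c1b58a1111a19511111615911c21de111c11948c,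
    0x1111111111a1bb11111111615bc21111111c17941111111111c1bb8ca], [0, 0x11611411c112116118e4,
    0, 0x1111c11c71411111111ccb51118c11c11111a1cb5111111166c79ce8,
    0x111111111177cbb8211111111cc794111111111111cbb111111ac11d1c514ea]]

noncomputable def n2996 : Ent := ⟨e2996, noF, [], [], []⟩

def c2996 : PLift (Cov.check n2996.C.D v2996 = true) := ⟨by decide +kernel⟩

def b2996 : PLift (entF (fidx ts) 400 2996 n2996 = true) := ⟨by decide +kernel⟩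

theorem g2996 : GoodF (fidx ts) 400 2996 := GoodF.ofV v2996 n2996 c2996.down b2996.down

/-- 4866447:2339 -/
noncomputable def e2997 : SCfg where
  D := {
    a := 7
    L := 11
    kp := 9
    inn := [(0, 1), (0, 3), (1, 0), (1, 2), (1, 3), (1, 5), (1, 6), (2, 1), (2, 4), (2, 6), (3, 0), (3,
      1), (3, 6), (4, 2), (4, 6), (5, 1), (6, 1), (6, 2), (6, 3), (6, 4)]
    mix := [(0, 0), (0, 1), (1, 0), (1, 2), (1, 3), (2, 2), (2, 4), (2, 5), (3, 1), (3, 6), (3, 7), (4,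
      4), (4, 8), (5, 0), (5, 3), (5, 9), (6, 7), (6, 8), (6, 10)]
    cl := [0, 2, 0, 5, 1, 8, 6, 3, 4, 9, 7]
    chq := [(0, 1), (0, 3), (0, 4), (0, 6), (0, 7), (1, 0), (3, 0), (4, 0), (6, 0), (7, 0)]
    rng := [(0, 1), (0, 9), (1, 0), (1, 6), (2, 3), (2, 5), (3, 2), (3, 9), (4, 5), (4, 8), (5, 2), (5,
      4), (6, 1), (6, 7), (7, 6), (7, 10), (8, 4), (8, 10), (9, 0), (9, 3), (10, 7), (10, 8)]
    lev := [] }
  links := [[1, 7, 8, 3], [7, 0, 3, 6, 2, 9, 10, 5], [9, 1, 6, 4, 11, 12], [6, 1, 0, 8, 13, 14], [11, 2,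
    6, 15], [7, 1, 10, 16], [15, 4, 2, 1, 3, 14, 17]]
  P := {
    a := 7
    N := 18
    nb := [394, 1773, 6738, 24899, 34884, 66690, 180254, 65827, 8329, 5126, 66082, 36884, 2564, 16648,
      139336, 133200, 1184, 49216]
    tri := [(0, 1, 3), (0, 1, 7), (0, 3, 8), (0, 7, 8), (1, 2, 6), (1, 2, 9), (1, 3, 6), (1, 5, 7), (1,
      5, 10), (1, 9, 10), (2, 4, 6), (2, 4, 11), (2, 9, 12), (2, 11, 12), (3, 6, 14), (3, 8, 13),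
      (3, 13, 14), (4, 6, 15), (4, 11, 15), (5, 7, 16), (5, 10, 16), (6, 14, 17), (6, 15, 17)]
    fin := [0, 0, 0, 0, 0, 0, 0, 0, 8, 0, 10, 11, 12, 13, 14, 15, 16, 17]
    chd := [(0, 11), (0, 13), (0, 14), (0, 15), (0, 17)]
    steps := [(0, 1), (0, 2), (0, 3), (0, 4), (0, 5), (0, 6), (0, 7), (0, 9)] }
  rep := [0, 11, 8, 14, 15, 10, 13, 17, 12, 16]

noncomputable def v2997 : Cov.CovD where
  P := 3
  N := 7
  pl := [1, 3, 5, 9]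
  lev := [⟨[], [], [], [2], [(0, 0, [1, 3, 4, 6, 7])]⟩,
    ⟨[], [(0, 0)], [(0, 0)], [5], [(0, 0, [1, 3, 4, 6, 7]), (2, 0, [1, 3, 4, 6, 7])]⟩,
    ⟨[(0, 1)], [(1, 0), (1, 1)], [(0, 1)], [8], [(2, 0, [1, 3, 4, 6, 7]), (4, 1, [0])]⟩,
    ⟨[(0, 1), (1, 2)], [(0, 0), (0, 3), (0, 6), (1, 0), (1, 3), (1, 6)], [(3, 6)], [2],
      [(6, 6, [0]), (7, 3, [0])]⟩,
    ⟨[(1, 2)], [(2, 0), (2, 1), (2, 4)], [(1, 4)], [], [(4, 1, [0]), (8, 4, [0])]⟩,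
    ⟨[(0, 1), (1, 2), (1, 3)], [(0, 0), (1, 0)], [], [5, 9], [(0, 0, [1, 3, 4, 6, 7])]⟩,
    ⟨[(0, 1), (0, 3), (1, 2), (1, 3), (1, 4), (1, 5), (2, 3), (2, 4), (3, 4)], [(1, 0), (1,
      3), (1, 4), (1, 7), (2, 0), (2, 1), (2, 3), (2, 4), (2, 7), (3, 3), (3, 4), (3, 6), (3,
      7), (4, 1), (4, 3), (4, 4), (4, 7)], [(3, 4), (3, 7), (4, 7)], [], [(7, 3, [0]), (8, 4,
      [0]), (10, 7, [0])]⟩]
  Ta := [((0, 1), 0, 2), ((0, 9), 0, 9), ((2, 3), 0, 5), ((2, 5), 0, 8)]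
  Tb := [((0, 1, 9), 0, 2, 9), ((1, 0, 6), 2, 0, 6), ((2, 3, 5), 0, 5, 8), ((3, 2, 9), 5, 0, 9),
    ((4, 5, 8), 1, 8, 4), ((5, 2, 4), 8, 0, 1), ((6, 1, 7), 6, 2, 3), ((7, 6, 10), 3, 6, 7),
    ((8, 4, 10), 4, 1, 7), ((9, 0, 3), 9, 0, 5), ((10, 7, 8), 7, 3, 4)]
  Tc := [(0, 1, 3), (0, 1, 4), (0, 1, 6), (0, 1, 7), (0, 3, 4), (0, 3, 6), (0, 3, 7), (0, 4, 6),
    (0, 4, 7), (0, 6, 7)]
  Td := [((0, 1), (0, 1), 2), ((0, 1), (0, 9), 9), ((0, 1), (2, 3), 5), ((0, 1), (2, 5), 8), ((0,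
    3), (0, 1), 2), ((0, 3), (0, 9), 9), ((0, 3), (2, 3), 5), ((0, 3), (2, 5), 8), ((0, 4),
    (0, 1), 2), ((0, 4), (0, 9), 9), ((0, 4), (2, 3), 5), ((0, 4), (2, 5), 8), ((0, 6), (0,
    1), 2), ((0, 6), (0, 9), 9), ((0, 6), (2, 3), 5), ((0, 6), (2, 5), 8), ((0, 7), (0, 1),
    2), ((0, 7), (0, 9), 9), ((0, 7), (2, 3), 5), ((0, 7), (2, 5), 8), ((1, 0), (4, 5), 8),
    ((1, 0), (4, 8), 4), ((3, 0), (7, 6), 6), ((3, 0), (7, 10), 7), ((4, 0), (8, 4), 1), ((4,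
    0), (8, 10), 7), ((6, 0), (6, 1), 2), ((6, 0), (6, 7), 3), ((7, 0), (10, 7), 3), ((7, 0),
    (10, 8), 4)]
  G := [[0, 0x1111c121111a181111a14e4,
    0x11c1181111e1e181121ac11a1111e1181e111e11161141ec6141121614111c1111e1ec8c,
    0x11c111831c11ccd8ac819411111111c11c28dd6141511111111a11acd114111116116cda161c1dac,
    0x1111c11811a11ae1db111118116116e1dbc211111811c11ccb64c41511111111c11ccba124c19ca], [0,
    0x11116181111a121111614e4, 0,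
    0x11811111761d5411111111c11e1dd111a119c1111111111ae1dd11411111871141ddce8,
    0x111116153411111111115e1db111118199c11111111a119e1db11111811a116e1dbce8]]

noncomputable def n2997 : Ent := ⟨e2997, noF, [], [], []⟩

def c2997 : PLift (Cov.check n2997.C.D v2997 = true) := ⟨by decide +kernel⟩

def b2997 : PLift (entF (fidx ts) 400 2997 n2997 = true) := ⟨by decide +kernel⟩

theorem g2997 : GoodF (fidx ts) 400 2997 := GoodF.ofV v2997 n2997 c2997.down b2997.down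

/-- 4865644:2342/2 -/
noncomputable def e2998 : SCfg where
  D := {
    a := 7
    L := 9
    kp := 6
    inn := [(0, 1), (1, 0), (1, 2), (1, 3), (1, 4), (2, 1), (2, 3), (2, 4), (3, 1), (3, 2), (3, 5), (4,
      1), (4, 2), (4, 6), (5, 3), (6, 4)]
    mix := [(0, 0), (0, 1), (0, 2), (1, 0), (1, 2), (1, 3), (1, 4), (2, 5), (2, 6), (2, 7), (3, 2), (3,
      5), (4, 3), (4, 7), (4, 8), (5, 1), (5, 2), (5, 5), (6, 1), (6, 7), (6, 8)]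
    cl := [2, 1, 0, 3, 0, 4, 6, 3, 5]
    chq := [(0, 4), (0, 6), (4, 0), (6, 0)]
    rng := [(0, 1), (0, 4), (1, 0), (1, 2), (1, 5), (1, 7), (1, 8), (2, 1), (3, 4), (3, 8), (4, 0), (4,
      3), (5, 1), (5, 6), (6, 5), (6, 7), (7, 1), (7, 6), (8, 1), (8, 3)]
    lev := [] }
  links := [[1, 7, 8, 9], [7, 0, 9, 3, 2, 4, 10, 11], [4, 1, 3, 12, 13, 14], [12, 2, 1, 9, 5], [10, 1, 2,
    14, 6, 15], [12, 3, 9, 8], [15, 4, 14, 8]]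
  P := {
    a := 7
    N := 16
    nb := [898, 3741, 28698, 4646, 50246, 4872, 49424, 2307, 53985, 299, 34834, 1154, 8492, 20484,
      8532, 1360]
    tri := [(0, 1, 7), (0, 1, 9), (0, 7, 8), (0, 8, 9), (1, 2, 3), (1, 2, 4), (1, 3, 9), (1, 4, 10),
      (1, 7, 11), (1, 10, 11), (2, 3, 12), (2, 4, 14), (2, 12, 13), (2, 13, 14), (3, 5, 9), (3, 5,
      12), (4, 6, 14), (4, 6, 15), (4, 10, 15), (5, 8, 9), (5, 8, 12), (6, 8, 14), (6, 8, 15)]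
    fin := [0, 1, 1, 3, 4, 3, 3, 0, 3, 1, 4, 1, 12, 13, 4, 15]
    chd := [(1, 12), (1, 13)]
    steps := [(0, 7), (1, 2), (1, 9), (1, 11), (3, 5), (3, 8), (3, 6), (4, 14), (4, 10)] }
  rep := [1, 3, 0, 4, 12, 15, 13]

noncomputable def v2998 : Cov.CovD where
  P := 3
  N := 4
  pl := [0, 1, 8]
  lev := [⟨[], [], [], [1, 2], [(2, 0, [4, 6])]⟩,
    ⟨[], [(0, 0), (0, 3)], [(0, 0), (0, 3)], [2], [(2, 0, [4, 6]), (3, 3, []), (4, 0, [4,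
      6])]⟩,
    ⟨[(0, 1)], [(1, 0), (1, 3), (1, 4), (1, 6)], [(3, 4), (3, 6), (4, 6)], [], [(5, 4,
      [0]), (6, 6, [0]), (7, 3, [])]⟩,
    ⟨[(0, 1), (1, 2)], [(0, 0), (1, 0), (1, 3), (1, 4), (2, 0), (2, 3), (2, 4), (2, 6)],
      [(0, 4)], [], [(2, 0, [4, 6]), (5, 4, [0])]⟩,
    ⟨[(0, 1), (1, 2), (1, 3), (2, 3)], [(1, 0), (1, 3), (2, 3), (2, 4), (2, 6)], [(3, 3)],
      [5], [(3, 3, []), (7, 3, [])]⟩,
    ⟨[(1, 3), (2, 3)], [(0, 0), (1, 0), (2, 4), (3, 0), (3, 4)], [(0, 4)], [1], [(2, 0, [4,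
      6]), (5, 4, [0])]⟩,
    ⟨[(1, 4), (2, 4)], [(2, 3), (4, 3)], [], [1, 5], [(7, 3, [])]⟩]
  Ta := [((2, 1), 0, 1), ((3, 4), 3, 0), ((3, 8), 3, 5), ((4, 0), 0, 2), ((4, 3), 0, 3), ((7, 1),
    3, 1), ((7, 6), 3, 6)]
  Tb := [((0, 1, 4), 2, 1, 0), ((1, 0, 2), 1, 2, 0), ((1, 0, 5), 1, 2, 4), ((1, 0, 7), 1, 2, 3),
    ((1, 0, 8), 1, 2, 5), ((1, 2, 5), 1, 0, 4), ((1, 2, 7), 1, 0, 3), ((1, 2, 8), 1, 0, 5),
    ((1, 5, 7), 1, 4, 3), ((1, 5, 8), 1, 4, 5), ((1, 7, 8), 1, 3, 5), ((3, 4, 8), 3, 0, 5),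
    ((4, 0, 3), 0, 2, 3), ((5, 1, 6), 4, 1, 6), ((6, 5, 7), 6, 4, 3), ((7, 1, 6), 3, 1, 6),
    ((8, 1, 3), 5, 1, 3)]
  Tc := [(0, 4, 6)]
  Td := [((0, 4), (2, 1), 1), ((0, 4), (4, 0), 2), ((0, 4), (4, 3), 3), ((0, 6), (2, 1), 1), ((0,
    6), (4, 0), 2), ((0, 6), (4, 3), 3), ((4, 0), (5, 1), 1), ((4, 0), (5, 6), 6), ((6, 0),
    (6, 5), 4), ((6, 0), (6, 7), 3)]
  G := [[0, 0xa4162161c81621a1c8, 0, 0x95c22199c221c4, 0x1414184858e44843c328], [0,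
    0xe41e21a148, 0, 0xddc22148, 0x884818e844414ec128], [0, 0, 0x882412c11e128,
    0x5c52215c5221c4, 0x8848c8e844414ec121], [0, 0, 0xd1241918176184, 0xddc22141,
    0x814118e844414ec128]]

noncomputable def n2998 : Ent := ⟨e2998, noF, [], [], []⟩

def c2998 : PLift (Cov.check n2998.C.D v2998 = true) := ⟨by decide +kernel⟩

def b2998 : PLift (entF (fidx ts) 400 2998 n2998 = true) := ⟨by decide +kernel⟩

theorem g2998 : GoodF (fidx ts) 400 2998 := GoodF.ofV v2998 n2998 c2998.down b2998.down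

/-- 4865644:2342/1 -/
noncomputable def e2999 : SCfg where
  D := {
    a := 7
    L := 10
    kp := 7
    inn := [(0, 1), (1, 0), (1, 2), (1, 3), (1, 4), (2, 1), (2, 3), (2, 4), (3, 1), (3, 2), (3, 5), (4,
      1), (4, 2), (4, 6), (5, 3), (6, 4)]
    mix := [(0, 0), (0, 1), (0, 2), (1, 0), (1, 2), (1, 3), (1, 4), (2, 5), (2, 6), (2, 7), (3, 2), (3,
      5), (4, 3), (4, 7), (4, 8), (5, 1), (5, 2), (5, 5), (6, 7), (6, 8), (6, 9)]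
    cl := [1, 2, 0, 3, 0, 4, 6, 3, 5, 7]
    chq := [(0, 4), (0, 6), (4, 0), (6, 0)]
    rng := [(0, 1), (0, 4), (1, 0), (1, 2), (1, 5), (2, 1), (3, 4), (3, 8), (4, 0), (4, 3), (5, 1), (5,
      6), (6, 5), (6, 7), (7, 6), (7, 9), (8, 3), (8, 9), (9, 7), (9, 8)]
    lev := [] }
  links := [[1, 7, 8, 9], [7, 0, 9, 3, 2, 4, 10, 11], [4, 1, 3, 12, 13, 14], [12, 2, 1, 9, 5], [10, 1, 2,
    14, 6, 15], [12, 3, 9, 8], [15, 4, 14, 16]]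
  P := {
    a := 7
    N := 17
    nb := [898, 3741, 28698, 4646, 50246, 4872, 114704, 2307, 4769, 299, 34834, 1154, 8492, 20484,
      73812, 66640, 49216]
    tri := [(0, 1, 7), (0, 1, 9), (0, 7, 8), (0, 8, 9), (1, 2, 3), (1, 2, 4), (1, 3, 9), (1, 4, 10),
      (1, 7, 11), (1, 10, 11), (2, 3, 12), (2, 4, 14), (2, 12, 13), (2, 13, 14), (3, 5, 9), (3, 5,
      12), (4, 6, 14), (4, 6, 15), (4, 10, 15), (5, 8, 9), (5, 8, 12), (6, 14, 16), (6, 15, 16)]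
    fin := [0, 1, 1, 3, 4, 3, 4, 0, 3, 1, 4, 1, 12, 13, 4, 15, 16]
    chd := [(1, 12), (1, 13)]
    steps := [(0, 7), (1, 2), (1, 9), (1, 11), (3, 5), (3, 8), (4, 6), (4, 14), (4, 10)] }
  rep := [1, 0, 3, 4, 12, 15, 13, 16]

noncomputable def v2999 : Cov.CovD where
  P := 3
  N := 5
  pl := [0, 1, 8, 9]
  lev := [⟨[], [], [], [1, 2], [(2, 0, [4, 6])]⟩,
    ⟨[], [(0, 0), (0, 3)], [(0, 0), (0, 3)], [1], [(2, 0, [4, 6]), (3, 3, []), (4, 0, [4,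
      6])]⟩,
    ⟨[(0, 1)], [(1, 0), (1, 3), (1, 4), (1, 6)], [(3, 4), (3, 6), (4, 6)], [], [(5, 4,
      [0]), (6, 6, [0]), (7, 3, [])]⟩,
    ⟨[(0, 1), (1, 2)], [(0, 0), (1, 0), (1, 3), (1, 4), (2, 0), (2, 3), (2, 4), (2, 6)],
      [(0, 4)], [], [(2, 0, [4, 6]), (5, 4, [0])]⟩,
    ⟨[(0, 1), (1, 2), (1, 3), (2, 3)], [(1, 0), (1, 3), (2, 3), (2, 4), (2, 6)], [(3, 3)],
      [5], [(3, 3, []), (7, 3, [])]⟩,
    ⟨[(1, 3), (2, 3)], [(0, 0), (1, 0), (2, 4), (3, 0), (3, 4)], [(0, 4)], [2], [(2, 0, [4,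
      6]), (5, 4, [0])]⟩,
    ⟨[(1, 4), (2, 4)], [(2, 3), (4, 3)], [], [5, 7], [(7, 3, [])]⟩]
  Ta := [((2, 1), 0, 2), ((3, 4), 3, 0), ((3, 8), 3, 5), ((4, 0), 0, 1), ((4, 3), 0, 3), ((7, 6),
    3, 6), ((7, 9), 3, 7)]
  Tb := [((0, 1, 4), 1, 2, 0), ((1, 0, 2), 2, 1, 0), ((1, 0, 5), 2, 1, 4), ((1, 2, 5), 2, 0, 4),
    ((3, 4, 8), 3, 0, 5), ((4, 0, 3), 0, 1, 3), ((5, 1, 6), 4, 2, 6), ((6, 5, 7), 6, 4, 3),
    ((7, 6, 9), 3, 6, 7), ((8, 3, 9), 5, 3, 7), ((9, 7, 8), 7, 3, 5)]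
  Tc := [(0, 4, 6)]
  Td := [((0, 4), (2, 1), 2), ((0, 4), (4, 0), 1), ((0, 4), (4, 3), 3), ((0, 6), (2, 1), 2), ((0,
    6), (4, 0), 1), ((0, 6), (4, 3), 3), ((4, 0), (5, 1), 2), ((4, 0), (5, 6), 6), ((6, 0),
    (6, 5), 4), ((6, 0), (6, 7), 3)]
  G := [[0, 0, 0x64e497248a616884392a23a1c4, 0xbbc88c621476c4cca218c,
    0xc86837242361b888622b282ea1c6884286189], [0, 0, 0x9438a928a1458452326618c,
    0x99c1433ce21454c4218c, 0xd8187848fd2127242fa144844246189], [0,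
    0x214718e11e181d1664815a1a4, 0, 0x77c44ca21aacccc621c1, 0x7848a7242a61b8886b2826a1c1],
    [0, 0x9438ad1117141fa15144168, 0, 0x99c339a2145594218c, 0x58452326619838a928a1c1]]

noncomputable def n2999 : Ent := ⟨e2999, noF, [], [], [(8, 16, [1580044410770988437309982408355971841652082177953823432505701392385, 0])]⟩

def c2999 : PLift (Cov.check n2999.C.D v2999 = true) := ⟨by decide +kernel⟩

def b2999 : PLift (entF (fidx ts) 400 2999 n2999 = true) := ⟨by decide +kernel⟩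

theorem g2999 : GoodF (fidx ts) 400 2999 := GoodF.ofV v2999 n2999 c2999.down b2999.down

/-- 4865644:2342/3 -/
noncomputable def e3000 : SCfg where
  D := {
    a := 7
    L := 10
    kp := 7
    inn := [(0, 1), (1, 0), (1, 2), (1, 3), (1, 4), (2, 1), (2, 3), (2, 4), (3, 1), (3, 2), (3, 5), (4,
      1), (4, 2), (4, 6), (5, 3), (6, 4)]
    mix := [(0, 0), (0, 1), (0, 2), (1, 0), (1, 2), (1, 3), (1, 4), (2, 5), (2, 6), (2, 7), (3, 2), (3,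
      5), (4, 3), (4, 7), (4, 8), (5, 2), (5, 5), (5, 9), (6, 1), (6, 7), (6, 8)]
    cl := [1, 2, 0, 3, 0, 4, 6, 3, 5, 7]
    chq := [(0, 4), (0, 6), (4, 0), (6, 0)]
    rng := [(0, 1), (0, 4), (1, 0), (1, 2), (1, 7), (1, 8), (2, 1), (2, 9), (3, 4), (3, 8), (4, 0), (4,
      3), (5, 6), (5, 9), (6, 5), (6, 7), (7, 1), (7, 6), (8, 1), (8, 3), (9, 2), (9, 5)]
    lev := [] }
  links := [[1, 7, 8, 9], [7, 0, 9, 3, 2, 4, 10, 11], [4, 1, 3, 12, 13, 14], [12, 2, 1, 9, 5], [10, 1, 2,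
    14, 6, 15], [12, 3, 9, 16], [15, 4, 14, 8]]
  P := {
    a := 7
    N := 17
    nb := [898, 3741, 28698, 4646, 50246, 70152, 49424, 2307, 49857, 65835, 34834, 1154, 73772, 20484,
      8532, 1360, 4640]
    tri := [(0, 1, 7), (0, 1, 9), (0, 7, 8), (0, 8, 9), (1, 2, 3), (1, 2, 4), (1, 3, 9), (1, 4, 10),
      (1, 7, 11), (1, 10, 11), (2, 3, 12), (2, 4, 14), (2, 12, 13), (2, 13, 14), (3, 5, 9), (3, 5,
      12), (4, 6, 14), (4, 6, 15), (4, 10, 15), (5, 9, 16), (5, 12, 16), (6, 8, 14), (6, 8, 15)]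
    fin := [0, 1, 1, 1, 4, 1, 6, 0, 6, 1, 4, 1, 12, 13, 4, 15, 16]
    chd := [(1, 12), (1, 13)]
    steps := [(0, 7), (1, 2), (1, 3), (1, 5), (1, 9), (1, 11), (4, 14), (4, 10), (6, 8)] }
  rep := [1, 0, 6, 4, 12, 15, 13, 16]

noncomputable def v3000 : Cov.CovD where
  P := 3
  N := 5
  pl := [0, 1, 8, 9]
  lev := [⟨[], [], [], [1, 2], [(2, 0, [4, 6])]⟩,
    ⟨[], [(0, 0), (0, 3)], [(0, 0), (0, 3)], [1], [(2, 0, [4, 6]), (3, 3, []), (4, 0, [4,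
      6])]⟩,
    ⟨[(0, 1)], [(1, 0), (1, 3), (1, 4), (1, 6)], [(3, 4), (3, 6), (4, 6)], [], [(5, 4,
      [0]), (6, 6, [0]), (7, 3, [])]⟩,
    ⟨[(0, 1), (1, 2)], [(0, 0), (1, 0), (1, 3), (1, 4), (2, 0), (2, 3), (2, 4), (2, 6)],
      [(0, 4)], [], [(2, 0, [4, 6]), (5, 4, [0])]⟩,
    ⟨[(0, 1), (1, 2), (1, 3), (2, 3)], [(1, 0), (1, 3), (2, 3), (2, 4), (2, 6)], [(3, 3)],
      [5], [(3, 3, []), (7, 3, [])]⟩,
    ⟨[(1, 3), (2, 3)], [(0, 0), (1, 0), (2, 4), (3, 0), (3, 4)], [(0, 4)], [7], [(2, 0, [4,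
      6]), (5, 4, [0])]⟩,
    ⟨[(1, 4), (2, 4)], [(2, 3), (4, 3)], [], [2, 5], [(7, 3, [])]⟩]
  Ta := [((2, 1), 0, 2), ((2, 9), 0, 7), ((3, 4), 3, 0), ((3, 8), 3, 5), ((4, 0), 0, 1), ((4, 3),
    0, 3), ((7, 1), 3, 2), ((7, 6), 3, 6)]
  Tb := [((0, 1, 4), 1, 2, 0), ((1, 0, 2), 2, 1, 0), ((1, 0, 7), 2, 1, 3), ((1, 0, 8), 2, 1, 5),
    ((1, 2, 7), 2, 0, 3), ((1, 2, 8), 2, 0, 5), ((1, 7, 8), 2, 3, 5), ((2, 1, 9), 0, 2, 7),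
    ((3, 4, 8), 3, 0, 5), ((4, 0, 3), 0, 1, 3), ((5, 6, 9), 4, 6, 7), ((6, 5, 7), 6, 4, 3),
    ((7, 1, 6), 3, 2, 6), ((8, 1, 3), 5, 2, 3), ((9, 2, 5), 7, 0, 4)]
  Tc := [(0, 4, 6)]
  Td := [((0, 4), (2, 1), 2), ((0, 4), (2, 9), 7), ((0, 4), (4, 0), 1), ((0, 4), (4, 3), 3), ((0,
    6), (2, 1), 2), ((0, 6), (2, 9), 7), ((0, 6), (4, 0), 1), ((0, 6), (4, 3), 3), ((4, 0),
    (5, 6), 6), ((4, 0), (5, 9), 7), ((6, 0), (6, 5), 4), ((6, 0), (6, 7), 3)]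
  G := [[0, 0, 0xa6c1aca161acc1cc61a1c4, 0xc9c255a261ccc29562a1c4, 0x82ca1c22ce216136286ea148],
    [0, 0, 0xeec1ee61a148, 0xddc2dd62a148, 0x88c11c22ce886116226ea148], [0, 0x9181351413c128,
    0, 0xc12c58b261c12c5a261c8, 0x8111cc212286a128aee148], [0, 0x814111e814111ec128, 0,
    0xd12dd62a148, 0x88c1121e81116226ea148]]

noncomputable def n3000 : Ent := ⟨e3000, noF, [], [], [(8, 16, [1580044410770988437309982408355971841652082177953823432505701392385, 0])]⟩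

def c3000 : PLift (Cov.check n3000.C.D v3000 = true) := ⟨by decide +kernel⟩

def b3000 : PLift (entF (fidx ts) 400 3000 n3000 = true) := ⟨by decide +kernel⟩

theorem g3000 : GoodF (fidx ts) 400 3000 := GoodF.ofV v3000 n3000 c3000.down b3000.down

/-- 4865644:2342/4 -/
noncomputable def e3001 : SCfg where
  D := {
    a := 7
    L := 10
    kp := 7
    inn := [(0, 1), (1, 0), (1, 2), (1, 3), (1, 4), (2, 1), (2, 3), (2, 4), (3, 1), (3, 2), (3, 5), (4,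
      1), (4, 2), (4, 6), (5, 3), (6, 4)]
    mix := [(0, 0), (0, 1), (0, 2), (1, 0), (1, 2), (1, 3), (1, 4), (2, 5), (2, 6), (2, 7), (3, 2), (3,
      5), (4, 3), (4, 7), (4, 8), (5, 2), (5, 5), (5, 9), (6, 7), (6, 8), (6, 9)]
    cl := [2, 7, 0, 1, 0, 3, 6, 1, 4, 5]
    chq := [(0, 3), (0, 6), (3, 0), (6, 0)]
    rng := [(0, 1), (0, 4), (1, 0), (1, 2), (2, 1), (2, 9), (3, 4), (3, 8), (4, 0), (4, 3), (5, 6), (5,
      9), (6, 5), (6, 7), (7, 6), (7, 9), (8, 3), (8, 9), (9, 2), (9, 5), (9, 7), (9, 8)]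
    lev := [] }
  links := [[1, 7, 8, 9], [7, 0, 9, 3, 2, 4, 10, 11], [4, 1, 3, 12, 13, 14], [12, 2, 1, 9, 5], [10, 1, 2,
    14, 6, 15], [12, 3, 9, 16], [15, 4, 14, 16]]
  P := {
    a := 7
    N := 17
    nb := [898, 3741, 28698, 4646, 50246, 70152, 114704, 2307, 641, 65835, 34834, 1154, 73772, 20484,
      73812, 66640, 53856]
    tri := [(0, 1, 7), (0, 1, 9), (0, 7, 8), (0, 8, 9), (1, 2, 3), (1, 2, 4), (1, 3, 9), (1, 4, 10),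
      (1, 7, 11), (1, 10, 11), (2, 3, 12), (2, 4, 14), (2, 12, 13), (2, 13, 14), (3, 5, 9), (3, 5,
      12), (4, 6, 14), (4, 6, 15), (4, 10, 15), (5, 9, 16), (5, 12, 16), (6, 14, 16), (6, 15, 16)]
    fin := [0, 1, 1, 1, 4, 1, 6, 0, 8, 1, 4, 1, 12, 13, 4, 15, 6]
    chd := [(1, 12), (1, 13)]
    steps := [(0, 7), (1, 2), (1, 3), (1, 5), (1, 9), (1, 11), (4, 14), (4, 10), (6, 16)] }
  rep := [1, 4, 0, 12, 15, 6, 13, 8]

noncomputable def v3001 : Cov.CovD where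
  P := 3
  N := 5
  pl := [0, 1, 8, 9]
  lev := [⟨[], [], [], [2, 7], [(2, 0, [3, 6])]⟩,
    ⟨[], [(0, 0), (0, 1)], [(0, 0), (0, 1)], [2], [(2, 0, [3, 6]), (3, 1, []), (4, 0, [3,
      6])]⟩,
    ⟨[(0, 1)], [(1, 0), (1, 1), (1, 3), (1, 6)], [(1, 3), (1, 6), (3, 6)], [], [(5, 3,
      [0]), (6, 6, [0]), (7, 1, [])]⟩,
    ⟨[(0, 1), (1, 2)], [(0, 0), (1, 0), (1, 1), (1, 3), (2, 0), (2, 1), (2, 3), (2, 6)],
      [(0, 3)], [], [(2, 0, [3, 6]), (5, 3, [0])]⟩,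
    ⟨[(0, 1), (1, 2), (1, 3), (2, 3)], [(1, 0), (1, 1), (2, 1), (2, 3), (2, 6)], [(1, 1)],
      [4], [(3, 1, []), (7, 1, [])]⟩,
    ⟨[(1, 3), (2, 3)], [(0, 0), (1, 0), (2, 3), (3, 0), (3, 3)], [(0, 3)], [5], [(2, 0, [3,
      6]), (5, 3, [0])]⟩,
    ⟨[(1, 4), (2, 4)], [(2, 1), (4, 1)], [], [4, 5], [(7, 1, [])]⟩]
  Ta := [((2, 1), 0, 7), ((2, 9), 0, 5), ((3, 4), 1, 0), ((3, 8), 1, 4), ((4, 0), 0, 2), ((4, 3),
    0, 1), ((7, 6), 1, 6), ((7, 9), 1, 5)]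
  Tb := [((0, 1, 4), 2, 7, 0), ((1, 0, 2), 7, 2, 0), ((2, 1, 9), 0, 7, 5), ((3, 4, 8), 1, 0, 4),
    ((4, 0, 3), 0, 2, 1), ((5, 6, 9), 3, 6, 5), ((6, 5, 7), 6, 3, 1), ((7, 6, 9), 1, 6, 5),
    ((8, 3, 9), 4, 1, 5), ((9, 2, 5), 5, 0, 3), ((9, 2, 7), 5, 0, 1), ((9, 2, 8), 5, 0, 4),
    ((9, 5, 7), 5, 3, 1), ((9, 5, 8), 5, 3, 4), ((9, 7, 8), 5, 1, 4)]
  Tc := [(0, 3, 6)]
  Td := [((0, 3), (2, 1), 7), ((0, 3), (2, 9), 5), ((0, 3), (4, 0), 2), ((0, 3), (4, 3), 1), ((0,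
    6), (2, 1), 7), ((0, 6), (2, 9), 5), ((0, 6), (4, 0), 2), ((0, 6), (4, 3), 1), ((3, 0),
    (5, 6), 6), ((3, 0), (5, 9), 5), ((6, 0), (6, 5), 3), ((6, 0), (6, 7), 1)]
  G := [[0, 0, 0, 0x81c22cca232ca1422c14cc2252c618c,
    0x1114121121584c22c5c222567821c14cc7222c618a], [0, 0, 0,
    0x4445246181c18c1968a1c1414cc5249a84d6188881cc,
    0x81a14ac186416cc1211c94c84d51349a88d618a], [0, 0x24c44ca82666182c881c1,
    0x2144131881c214318c18121124e, 0x81c12cc1222ca141, 0x11c24cc1222c6181], [0, 0,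
    0xd111c2181951c81611d1c11d1c618a, 0x1444c12d2c618818c81c1, 0x81a14ac186416cc121]]

noncomputable def n3001 : Ent := ⟨e3001, noF, [], [], [(8, 16, [1580044410770988437309982408355971841652082177953823432505701392385, 0])]⟩

def c3001 : PLift (Cov.check n3001.C.D v3001 = true) := ⟨by decide +kernel⟩

def b3001 : PLift (entF (fidx ts) 400 3001 n3001 = true) := ⟨by decide +kernel⟩

theorem g3001 : GoodF (fidx ts) 400 3001 := GoodF.ofV v3001 n3001 c3001.down b3001.down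

/-- 4865644:2342 -/
noncomputable def e3002 : SCfg where
  D := {
    a := 7
    L := 11
    kp := 8
    inn := [(0, 1), (1, 0), (1, 2), (1, 3), (1, 4), (2, 1), (2, 3), (2, 4), (3, 1), (3, 2), (3, 5), (4,
      1), (4, 2), (4, 6), (5, 3), (6, 4)]
    mix := [(0, 0), (0, 1), (0, 2), (1, 0), (1, 2), (1, 3), (1, 4), (2, 5), (2, 6), (2, 7), (3, 2), (3,
      5), (4, 3), (4, 7), (4, 8), (5, 2), (5, 5), (5, 9), (6, 7), (6, 8), (6, 10)]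
    cl := [2, 6, 0, 1, 0, 3, 5, 1, 4, 7, 8]
    chq := [(0, 3), (0, 5), (3, 0), (5, 0)]
    rng := [(0, 1), (0, 4), (1, 0), (1, 2), (2, 1), (2, 9), (3, 4), (3, 8), (4, 0), (4, 3), (5, 6), (5,
      9), (6, 5), (6, 7), (7, 6), (7, 10), (8, 3), (8, 10), (9, 2), (9, 5), (10, 7), (10, 8)]
    lev := [] }
  links := [[1, 7, 8, 9], [7, 0, 9, 3, 2, 4, 10, 11], [4, 1, 3, 12, 13, 14], [12, 2, 1, 9, 5], [10, 1, 2,
    14, 6, 15], [12, 3, 9, 16], [15, 4, 14, 17]]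
  P := {
    a := 7
    N := 18
    nb := [898, 3741, 28698, 4646, 50246, 70152, 180240, 2307, 641, 65835, 34834, 1154, 73772, 20484,
      139348, 132176, 4640, 49216]
    tri := [(0, 1, 7), (0, 1, 9), (0, 7, 8), (0, 8, 9), (1, 2, 3), (1, 2, 4), (1, 3, 9), (1, 4, 10),
      (1, 7, 11), (1, 10, 11), (2, 3, 12), (2, 4, 14), (2, 12, 13), (2, 13, 14), (3, 5, 9), (3, 5,
      12), (4, 6, 14), (4, 6, 15), (4, 10, 15), (5, 9, 16), (5, 12, 16), (6, 14, 17), (6, 15, 17)]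
    fin := [0, 1, 1, 1, 4, 1, 4, 0, 8, 1, 4, 1, 12, 13, 4, 15, 16, 17]
    chd := [(1, 12), (1, 13)]
    steps := [(0, 7), (1, 2), (1, 3), (1, 5), (1, 9), (1, 11), (4, 6), (4, 14), (4, 10)] }
  rep := [1, 4, 0, 12, 15, 13, 8, 16, 17]

noncomputable def v3002 : Cov.CovD where
  P := 3
  N := 6
  pl := [0, 1, 8, 9, 10]
  lev := [⟨[], [], [], [2, 6], [(2, 0, [3, 5])]⟩,
    ⟨[], [(0, 0), (0, 1)], [(0, 0), (0, 1)], [2], [(2, 0, [3, 5]), (3, 1, []), (4, 0, [3,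
      5])]⟩,
    ⟨[(0, 1)], [(1, 0), (1, 1), (1, 3), (1, 5)], [(1, 3), (1, 5), (3, 5)], [], [(5, 3,
      [0]), (6, 5, [0]), (7, 1, [])]⟩,
    ⟨[(0, 1), (1, 2)], [(0, 0), (1, 0), (1, 1), (1, 3), (2, 0), (2, 1), (2, 3), (2, 5)],
      [(0, 3)], [], [(2, 0, [3, 5]), (5, 3, [0])]⟩,
    ⟨[(0, 1), (1, 2), (1, 3), (2, 3)], [(1, 0), (1, 1), (2, 1), (2, 3), (2, 5)], [(1, 1)],
      [4], [(3, 1, []), (7, 1, [])]⟩,
    ⟨[(1, 3), (2, 3)], [(0, 0), (1, 0), (2, 3), (3, 0), (3, 3)], [(0, 3)], [7], [(2, 0, [3,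
      5]), (5, 3, [0])]⟩,
    ⟨[(1, 4), (2, 4)], [(2, 1), (4, 1)], [], [4, 8], [(7, 1, [])]⟩]
  Ta := [((2, 1), 0, 6), ((2, 9), 0, 7), ((3, 4), 1, 0), ((3, 8), 1, 4), ((4, 0), 0, 2), ((4, 3),
    0, 1), ((7, 6), 1, 5), ((7, 10), 1, 8)]
  Tb := [((0, 1, 4), 2, 6, 0), ((1, 0, 2), 6, 2, 0), ((2, 1, 9), 0, 6, 7), ((3, 4, 8), 1, 0, 4),
    ((4, 0, 3), 0, 2, 1), ((5, 6, 9), 3, 5, 7), ((6, 5, 7), 5, 3, 1), ((7, 6, 10), 1, 5, 8),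
    ((8, 3, 10), 4, 1, 8), ((9, 2, 5), 7, 0, 3), ((10, 7, 8), 8, 1, 4)]
  Tc := [(0, 3, 5)]
  Td := [((0, 3), (2, 1), 6), ((0, 3), (2, 9), 7), ((0, 3), (4, 0), 2), ((0, 3), (4, 3), 1), ((0,
    5), (2, 1), 6), ((0, 5), (2, 9), 7), ((0, 5), (4, 0), 2), ((0, 5), (4, 3), 1), ((3, 0),
    (5, 6), 5), ((3, 0), (5, 9), 7), ((5, 0), (6, 5), 3), ((5, 0), (6, 7), 1)]
  G := [[0, 0, 0, 0x99c22cc996226ca1422c55cc23a56ac618c,
    0x77c22c5dea22a561827c52cc72a25ac61822c822a8618b], [0, 0, 0,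
    0x55c455a46199c89968a1c55c415a4614812d9c4899968a9cc,
    0x99a55ac996556cc1211cddc88cd11adda88ad61888a88868c12b], [0,
    0xc1a1621c161a41cc161ac161aa14c, 0x31a15418316158189121c214e, 0x22c55cc26a53ac6181,
    0x23c5acc37aa2ac6181], [0, 0, 0x9151c8125142191821c11d181d418e,
    0x1455cc55a46198c88968a1c1, 0x99a55ac996556cc121]]

noncomputable def n3002 : Ent := ⟨e3002, noF, [], [], [(8, 16, [7334685537875745012586738086077695515070955365108989538292687705960449, 0]), (8, 17, [6903326391201334775872065844685381424292761054348340378595029941977089, 0]), (16, 17, [6903326391201334775872065844685381424292761054348340378595029941981185, 0])]⟩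

def c3002 : PLift (Cov.check n3002.C.D v3002 = true) := ⟨by decide +kernel⟩

def b3002 : PLift (entF (fidx ts) 400 3002 n3002 = true) := ⟨by decide +kernel⟩

theorem g3002 : GoodF (fidx ts) 400 3002 := GoodF.ofV v3002 n3002 c3002.down b3002.down

/-- 4649545:2344/1 -/
noncomputable def e3003 : SCfg where
  D := {
    a := 7
    L := 10
    kp := 7
    inn := [(0, 1), (1, 0), (1, 2), (1, 3), (2, 1), (2, 3), (3, 1), (3, 2), (3, 4), (3, 5), (3, 6), (4,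
      3), (4, 5), (5, 3), (5, 4), (6, 3)]
    mix := [(0, 0), (0, 1), (0, 2), (1, 0), (1, 2), (1, 3), (2, 2), (2, 4), (3, 3), (3, 4), (3, 5), (3,
      6), (4, 1), (4, 5), (4, 7), (5, 6), (5, 7), (6, 3), (6, 6), (6, 8), (6, 9)]
    cl := [2, 4, 0, 0, 1, 3, 3, 5, 6, 7]
    chq := [(1, 6), (1, 7), (6, 1), (7, 1)]
    rng := [(0, 1), (0, 3), (1, 0), (1, 2), (1, 5), (1, 7), (2, 1), (2, 4), (3, 0), (3, 9), (4, 2), (4,
      5), (5, 1), (5, 4), (6, 7), (6, 8), (7, 1), (7, 6), (8, 6), (8, 9), (9, 3), (9, 8)]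
    lev := [] }
  links := [[1, 7, 8, 9], [7, 0, 9, 2, 3, 10], [3, 1, 9, 11], [10, 1, 2, 11, 12, 4, 5, 13, 6], [5, 3, 12,
    8, 14], [13, 3, 4, 14], [10, 3, 13, 15, 16]]
  P := {
    a := 7
    N := 17
    nb := [898, 1677, 2570, 15478, 20776, 24600, 107528, 1283, 21137, 2311, 65738, 4620, 2328, 49256,
      8496, 73792, 33856]
    tri := [(0, 1, 7), (0, 1, 9), (0, 7, 8), (0, 8, 9), (1, 2, 3), (1, 2, 9), (1, 3, 10), (1, 7, 10),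
      (2, 3, 11), (2, 9, 11), (3, 4, 5), (3, 4, 12), (3, 5, 13), (3, 6, 10), (3, 6, 13), (3, 11,
      12), (4, 5, 14), (4, 8, 12), (4, 8, 14), (5, 13, 14), (6, 10, 16), (6, 13, 15), (6, 15, 16)]
    fin := [0, 1, 1, 3, 4, 4, 3, 0, 8, 1, 1, 3, 4, 4, 14, 15, 16]
    chd := [(3, 15), (3, 16)]
    steps := [(0, 7), (1, 2), (1, 9), (1, 10), (3, 6), (3, 11), (4, 5), (4, 12), (4, 13)] }
  rep := [1, 3, 0, 4, 8, 14, 15, 16]

noncomputable def v3003 : Cov.CovD where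
  P := 3
  N := 5
  pl := [0, 1, 7]
  lev := [⟨[], [], [], [2, 4], [(2, 0, [])]⟩,
    ⟨[], [(0, 0)], [(0, 0)], [2], [(2, 0, []), (3, 0, [])]⟩,
    ⟨[(0, 1)], [(0, 0), (1, 0), (1, 1)], [(0, 1)], [], [(2, 0, []), (4, 1, [6, 7])]⟩,
    ⟨[(0, 1), (1, 2)], [(1, 0), (1, 1), (1, 3), (2, 0), (2, 1), (2, 3)], [(0, 1), (0, 3),
      (1, 3), (3, 3)], [], [(3, 0, []), (4, 1, [6, 7]), (5, 3, []), (6, 3, [])]⟩,
    ⟨[(1, 3), (2, 3)], [(3, 0), (3, 1), (3, 3)], [], [4, 5], [(5, 3, [])]⟩,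
    ⟨[(1, 3), (2, 3), (3, 4)], [(3, 0), (3, 1), (3, 3), (4, 3)], [], [5], [(6, 3, [])]⟩,
    ⟨[(1, 3), (2, 3), (3, 4), (3, 5)], [(1, 0), (3, 0), (3, 1), (3, 3), (3, 6), (3, 7), (5,
      3)], [(0, 3), (0, 6), (0, 7), (3, 6), (3, 7), (6, 7)], [], [(3, 0, []), (6, 3, []), (8,
      6, [1]), (9, 7, [1])]⟩]
  Ta := [((2, 1), 0, 4), ((2, 4), 0, 1), ((3, 0), 0, 2), ((3, 9), 0, 7), ((5, 1), 3, 4), ((5, 4),
    3, 1), ((6, 7), 3, 5), ((6, 8), 3, 6)]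
  Tb := [((0, 1, 3), 2, 4, 0), ((1, 0, 2), 4, 2, 0), ((1, 0, 5), 4, 2, 3), ((1, 0, 7), 4, 2, 5),
    ((1, 2, 5), 4, 0, 3), ((1, 2, 7), 4, 0, 5), ((1, 5, 7), 4, 3, 5), ((2, 1, 4), 0, 4, 1),
    ((3, 0, 9), 0, 2, 7), ((4, 2, 5), 1, 0, 3), ((5, 1, 4), 3, 4, 1), ((6, 7, 8), 3, 5, 6),
    ((7, 1, 6), 5, 4, 3), ((8, 6, 9), 6, 3, 7), ((9, 3, 8), 7, 0, 6)]
  Tc := [(1, 6, 7)]
  Td := [((1, 6), (4, 2), 0), ((1, 6), (4, 5), 3), ((1, 7), (4, 2), 0), ((1, 7), (4, 5), 3), ((6,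
    1), (8, 6), 3), ((6, 1), (8, 9), 7), ((7, 1), (9, 3), 0), ((7, 1), (9, 8), 6)]
  G := [[0, 0x1411912113c241211514143688c, 0, 0x282221b2424a54824226121222178c8c,
    0x2221542252498c222921622252118c8a], [0, 0x1411942818115824c, 0,
    0x222b2292225482227225884c, 0x2262492222ac58228226842a], [0, 0,
    0x225249211c12229448822213222c18e, 0x22448242421722283c22588cc1,
    0x22922217482262221b84a1], [0, 0, 0x2422941822285814c, 0x2221942822a58c41,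
    0x222152422a9c821]]

noncomputable def n3003 : Ent := ⟨e3003, noF, [], [], []⟩

def c3003 : PLift (Cov.check n3003.C.D v3003 = true) := ⟨by decide +kernel⟩

def b3003 : PLift (entF (fidx ts) 400 3003 n3003 = true) := ⟨by decide +kernel⟩

theorem g3003 : GoodF (fidx ts) 400 3003 := GoodF.ofV v3003 n3003 c3003.down b3003.down

/-- 4649545:2344/2 -/
noncomputable def e3004 : SCfg where
  D := {
    a := 7
    L := 10
    kp := 7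
    inn := [(0, 1), (1, 0), (1, 2), (1, 3), (2, 1), (2, 3), (3, 1), (3, 2), (3, 4), (3, 5), (3, 6), (4,
      3), (4, 5), (5, 3), (5, 4), (6, 3)]
    mix := [(0, 0), (0, 1), (0, 2), (1, 0), (1, 2), (1, 3), (2, 2), (2, 4), (3, 3), (3, 4), (3, 5), (3,
      6), (4, 1), (4, 5), (4, 7), (5, 1), (5, 6), (6, 3), (6, 6), (6, 8), (6, 9)]
    cl := [2, 1, 0, 0, 4, 3, 3, 7, 5, 6]
    chq := [(4, 5), (4, 6), (5, 4), (6, 4)]
    rng := [(0, 1), (0, 3), (1, 0), (1, 2), (1, 6), (1, 7), (2, 1), (2, 4), (3, 0), (3, 9), (4, 2), (4,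
      5), (5, 4), (5, 7), (6, 1), (6, 8), (7, 1), (7, 5), (8, 6), (8, 9), (9, 3), (9, 8)]
    lev := [] }
  links := [[1, 7, 8, 9], [7, 0, 9, 2, 3, 10], [3, 1, 9, 11], [10, 1, 2, 11, 12, 4, 5, 13, 6], [5, 3, 12,
    14, 8], [13, 3, 4, 8], [10, 3, 13, 15, 16]]
  P := {
    a := 7
    N := 17
    nb := [898, 1677, 2570, 15478, 20776, 8472, 107528, 1283, 25265, 2311, 65738, 4620, 18456, 33128,
      4368, 73792, 33856]
    tri := [(0, 1, 7), (0, 1, 9), (0, 7, 8), (0, 8, 9), (1, 2, 3), (1, 2, 9), (1, 3, 10), (1, 7, 10),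
      (2, 3, 11), (2, 9, 11), (3, 4, 5), (3, 4, 12), (3, 5, 13), (3, 6, 10), (3, 6, 13), (3, 11,
      12), (4, 5, 8), (4, 8, 14), (4, 12, 14), (5, 8, 13), (6, 10, 16), (6, 13, 15), (6, 15, 16)]
    fin := [0, 1, 1, 3, 4, 4, 3, 0, 8, 1, 1, 3, 4, 4, 14, 15, 16]
    chd := [(3, 15), (3, 16)]
    steps := [(0, 7), (1, 2), (1, 9), (1, 10), (3, 6), (3, 11), (4, 5), (4, 12), (4, 13)] }
  rep := [1, 8, 0, 4, 3, 15, 16, 14]

noncomputable def v3004 : Cov.CovD where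
  P := 3
  N := 5
  pl := [0, 1, 7]
  lev := [⟨[], [], [], [1, 2], [(2, 0, [])]⟩,
    ⟨[], [(0, 0)], [(0, 0)], [2], [(2, 0, []), (3, 0, [])]⟩,
    ⟨[(0, 1)], [(0, 0), (1, 0), (1, 4)], [(0, 4)], [], [(2, 0, []), (4, 4, [5, 6])]⟩,
    ⟨[(0, 1), (1, 2)], [(1, 0), (1, 3), (1, 4), (2, 0), (2, 3), (2, 4)], [(0, 3), (0, 4),
      (3, 3), (3, 4)], [], [(3, 0, []), (4, 4, [5, 6]), (5, 3, []), (6, 3, [])]⟩,
    ⟨[(1, 3), (2, 3)], [(3, 0), (3, 3), (3, 4)], [], [1, 7], [(5, 3, [])]⟩,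
    ⟨[(1, 3), (2, 3), (3, 4)], [(3, 0), (3, 3), (3, 4), (4, 3)], [], [1], [(6, 3, [])]⟩,
    ⟨[(1, 3), (2, 3), (3, 4), (3, 5)], [(1, 0), (3, 0), (3, 3), (3, 4), (3, 5), (3, 6), (5,
      3)], [(0, 3), (0, 5), (0, 6), (3, 5), (3, 6), (5, 6)], [], [(3, 0, []), (6, 3, []), (8,
      5, [4]), (9, 6, [4])]⟩]
  Ta := [((2, 1), 0, 1), ((2, 4), 0, 4), ((3, 0), 0, 2), ((3, 9), 0, 6), ((5, 4), 3, 4), ((5, 7),
    3, 7), ((6, 1), 3, 1), ((6, 8), 3, 5)]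
  Tb := [((0, 1, 3), 2, 1, 0), ((1, 0, 2), 1, 2, 0), ((1, 0, 6), 1, 2, 3), ((1, 0, 7), 1, 2, 7),
    ((1, 2, 6), 1, 0, 3), ((1, 2, 7), 1, 0, 7), ((1, 6, 7), 1, 3, 7), ((2, 1, 4), 0, 1, 4),
    ((3, 0, 9), 0, 2, 6), ((4, 2, 5), 4, 0, 3), ((5, 4, 7), 3, 4, 7), ((6, 1, 8), 3, 1, 5),
    ((7, 1, 5), 7, 1, 3), ((8, 6, 9), 5, 3, 6), ((9, 3, 8), 6, 0, 5)]
  Tc := [(4, 5, 6)]
  Td := [((4, 5), (4, 2), 0), ((4, 5), (4, 5), 3), ((4, 6), (4, 2), 0), ((4, 6), (4, 5), 3), ((5,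
    4), (8, 6), 3), ((5, 4), (8, 9), 6), ((6, 4), (9, 3), 0), ((6, 4), (9, 8), 5)]
  G := [[0, 0x686468e1888282e1a44, 0, 0x2119142447c144c1d26242424d84c8,
    0x848152c14848d26282154242198ca8], [0, 0x24a2c144c461684, 0, 0x919892444126c832818cc8,
    0x11645318448d881a845c28], [0, 0, 0x61219a12858848c1de124, 0x28245c1c4c1d612421981c8,
    0x28285c8c4c1d612121981a8], [0, 0, 0x61645a4849c1889e184, 0x24841284c4c8ca1c8,
    0xa481984c445614168c81a8]]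

noncomputable def n3004 : Ent := ⟨e3004, noF, [], [], []⟩

def c3004 : PLift (Cov.check n3004.C.D v3004 = true) := ⟨by decide +kernel⟩

def b3004 : PLift (entF (fidx ts) 400 3004 n3004 = true) := ⟨by decide +kernel⟩

theorem g3004 : GoodF (fidx ts) 400 3004 := GoodF.ofV v3004 n3004 c3004.down b3004.down

/-- 4649545:2344 -/
noncomputable def e3005 : SCfg where
  D := {
    a := 7
    L := 11
    kp := 8
    inn := [(0, 1), (1, 0), (1, 2), (1, 3), (2, 1), (2, 3), (3, 1), (3, 2), (3, 4), (3, 5), (3, 6), (4,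
      3), (4, 5), (5, 3), (5, 4), (6, 3)]
    mix := [(0, 0), (0, 1), (0, 2), (1, 0), (1, 2), (1, 3), (2, 2), (2, 4), (3, 3), (3, 4), (3, 5), (3,
      6), (4, 5), (4, 7), (4, 8), (5, 6), (5, 8), (6, 3), (6, 6), (6, 9), (6, 10)]
    cl := [2, 7, 0, 0, 1, 3, 3, 8, 4, 5, 6]
    chq := [(1, 5), (1, 6), (5, 1), (6, 1)]
    rng := [(0, 1), (0, 3), (1, 0), (1, 2), (2, 1), (2, 4), (3, 0), (3, 10), (4, 2), (4, 5), (5, 4),
      (5, 7), (6, 8), (6, 9), (7, 5), (7, 8), (8, 6), (8, 7), (9, 6), (9, 10), (10, 3), (10, 9)]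
    lev := [] }
  links := [[1, 7, 8, 9], [7, 0, 9, 2, 3, 10], [3, 1, 9, 11], [10, 1, 2, 11, 12, 4, 5, 13, 6], [5, 3, 12,
    14, 15], [13, 3, 4, 15], [10, 3, 13, 16, 17]]
  P := {
    a := 7
    N := 18
    nb := [898, 1677, 2570, 15478, 53288, 40984, 205832, 1283, 641, 2311, 131274, 4620, 18456, 98408,
      36880, 24624, 139328, 66624]
    tri := [(0, 1, 7), (0, 1, 9), (0, 7, 8), (0, 8, 9), (1, 2, 3), (1, 2, 9), (1, 3, 10), (1, 7, 10),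
      (2, 3, 11), (2, 9, 11), (3, 4, 5), (3, 4, 12), (3, 5, 13), (3, 6, 10), (3, 6, 13), (3, 11,
      12), (4, 5, 15), (4, 12, 14), (4, 14, 15), (5, 13, 15), (6, 10, 17), (6, 13, 16), (6, 16,
      17)]
    fin := [0, 1, 1, 3, 4, 4, 3, 0, 8, 1, 1, 3, 4, 4, 14, 15, 16, 17]
    chd := [(3, 16), (3, 17)]
    steps := [(0, 7), (1, 2), (1, 9), (1, 10), (3, 6), (3, 11), (4, 5), (4, 12), (4, 13)] }
  rep := [1, 3, 0, 4, 15, 16, 17, 8, 14]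

noncomputable def v3005 : Cov.CovD where
  P := 3
  N := 6
  pl := [0, 1, 7, 8]
  lev := [⟨[], [], [], [2, 7], [(2, 0, [])]⟩,
    ⟨[], [(0, 0)], [(0, 0)], [2], [(2, 0, []), (3, 0, [])]⟩,
    ⟨[(0, 1)], [(0, 0), (1, 0), (1, 1)], [(0, 1)], [], [(2, 0, []), (4, 1, [5, 6])]⟩,
    ⟨[(0, 1), (1, 2)], [(1, 0), (1, 1), (1, 3), (2, 0), (2, 1), (2, 3)], [(0, 1), (0, 3),
      (1, 3), (3, 3)], [], [(3, 0, []), (4, 1, [5, 6]), (5, 3, []), (6, 3, [])]⟩,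
    ⟨[(1, 3), (2, 3)], [(3, 0), (3, 1), (3, 3)], [], [4, 8], [(5, 3, [])]⟩,
    ⟨[(1, 3), (2, 3), (3, 4)], [(3, 0), (3, 1), (3, 3), (4, 3)], [], [4], [(6, 3, [])]⟩,
    ⟨[(1, 3), (2, 3), (3, 4), (3, 5)], [(1, 0), (3, 0), (3, 1), (3, 3), (3, 5), (3, 6), (5,
      3)], [(0, 3), (0, 5), (0, 6), (3, 5), (3, 6), (5, 6)], [], [(3, 0, []), (6, 3, []), (9,
      5, [1]), (10, 6, [1])]⟩]
  Ta := [((2, 1), 0, 7), ((2, 4), 0, 1), ((3, 0), 0, 2), ((3, 10), 0, 6), ((5, 4), 3, 1), ((5,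
    7), 3, 8), ((6, 8), 3, 4), ((6, 9), 3, 5)]
  Tb := [((0, 1, 3), 2, 7, 0), ((1, 0, 2), 7, 2, 0), ((2, 1, 4), 0, 7, 1), ((3, 0, 10), 0, 2, 6),
    ((4, 2, 5), 1, 0, 3), ((5, 4, 7), 3, 1, 8), ((6, 8, 9), 3, 4, 5), ((7, 5, 8), 8, 3, 4),
    ((8, 6, 7), 4, 3, 8), ((9, 6, 10), 5, 3, 6), ((10, 3, 9), 6, 0, 5)]
  Tc := [(1, 5, 6)]
  Td := [((1, 5), (4, 2), 0), ((1, 5), (4, 5), 3), ((1, 6), (4, 2), 0), ((1, 6), (4, 5), 3), ((5,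
    1), (9, 6), 3), ((5, 1), (9, 10), 6), ((6, 1), (10, 3), 0), ((6, 1), (10, 9), 5)]
  G := [[0, 0x121191811511b611a44681211a12d1811911b688c, 0,
    0x24215282228b242824ed84282292221f2822a52118c8c,
    0x22213282292828f248d82225242221f22213284d42a], [0,
    0x1411511b1111911d62814115121114da418282cc, 0, 0x2221342228522c89c42252494822322522298cc,
    0x222852221322c8d42242822d2212422ad42a], [0, 0,
    0x2844225242424f22213cc22252221b22928217c126, 0x2294482221342252221b8cc1,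
    0x22921542252221b222cc21], [0, 0, 0x2822217222124dc1222321217242122abc82c,
    0x242221b48282122784c1, 0x2262422b428212278c21]]

noncomputable def n3005 : Ent := ⟨e3005, noF, [], [], [(8, 14, [7334790875878422277917280412776772662961875900559637987928627381776385, 0]), (8, 15, [7334790850167413569773436004105379185503274260204390087403942016958465, 0])]⟩

def c3005 : PLift (Cov.check n3005.C.D v3005 = true) := ⟨by decide +kernel⟩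

def b3005 : PLift (entF (fidx ts) 400 3005 n3005 = true) := ⟨by decide +kernel⟩

theorem g3005 : GoodF (fidx ts) 400 3005 := GoodF.ofV v3005 n3005 c3005.down b3005.down

/-- 4864474:2348/1 -/
noncomputable def e3006 : SCfg where
  D := {
    a := 7
    L := 10
    kp := 7
    inn := [(0, 1), (1, 0), (1, 2), (1, 3), (1, 4), (1, 5), (2, 1), (2, 3), (2, 5), (3, 1), (3, 2), (4,
      1), (5, 1), (5, 2), (5, 6), (6, 5)]
    mix := [(0, 0), (0, 1), (0, 2), (1, 0), (1, 2), (1, 3), (2, 4), (2, 5), (2, 6), (3, 2), (3, 4), (4,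
      0), (4, 3), (4, 7), (5, 3), (5, 6), (5, 8), (5, 9), (6, 1), (6, 6), (6, 8)]
    cl := [1, 2, 0, 0, 4, 6, 3, 7, 5, 3]
    chq := [(0, 1), (0, 6), (1, 0), (6, 0)]
    rng := [(0, 1), (0, 7), (1, 0), (1, 2), (1, 6), (1, 8), (2, 1), (2, 4), (3, 7), (3, 9), (4, 2), (4,
      5), (5, 4), (5, 6), (6, 1), (6, 5), (7, 0), (7, 3), (8, 1), (8, 9), (9, 3), (9, 8)]
    lev := [] }
  links := [[1, 7, 8, 9], [7, 0, 9, 3, 2, 5, 10, 4], [5, 1, 3, 11, 12, 13], [11, 2, 1, 9], [7, 1, 10,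
    14], [10, 1, 2, 13, 6, 15, 16], [15, 5, 13, 8]]
  P := {
    a := 7
    N := 17
    nb := [898, 1725, 14378, 2566, 17538, 107590, 41248, 16659, 41665, 2315, 81970, 4620, 10244, 4452,
      1168, 65888, 33824]
    tri := [(0, 1, 7), (0, 1, 9), (0, 7, 8), (0, 8, 9), (1, 2, 3), (1, 2, 5), (1, 3, 9), (1, 4, 7), (1,
      4, 10), (1, 5, 10), (2, 3, 11), (2, 5, 13), (2, 11, 12), (2, 12, 13), (3, 9, 11), (4, 7,
      14), (4, 10, 14), (5, 6, 13), (5, 6, 15), (5, 10, 16), (5, 15, 16), (6, 8, 13), (6, 8, 15)]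
    fin := [0, 1, 1, 1, 0, 5, 6, 0, 6, 1, 1, 11, 12, 5, 14, 15, 5]
    chd := [(0, 1), (1, 12)]
    steps := [(0, 7), (0, 4), (1, 2), (1, 3), (1, 9), (1, 10), (5, 13), (5, 16), (6, 8)] }
  rep := [1, 0, 6, 5, 11, 15, 12, 14]

noncomputable def v3006 : Cov.CovD where
  P := 3
  N := 5
  pl := [1, 4, 7, 8]
  lev := [⟨[], [], [(0, 1)], [2], [(0, 1, [0]), (2, 0, [1, 6])]⟩,
    ⟨[], [(0, 0), (0, 1)], [(0, 0), (0, 1)], [], [(0, 1, [0]), (2, 0, [1, 6]), (3, 0, [1,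
      6])]⟩,
    ⟨[(0, 1)], [(1, 0), (1, 1), (1, 3), (1, 6)], [(3, 6)], [4], [(5, 6, [0]), (6, 3, [])]⟩,
    ⟨[(0, 1), (1, 2)], [(0, 0), (1, 0), (1, 1), (2, 0), (2, 3), (2, 6)], [], [4], [(2, 0,
      [1, 6])]⟩,
    ⟨[(0, 1), (1, 2), (1, 3)], [(0, 1), (1, 0), (1, 1)], [(0, 1)], [7], [(0, 1, [0]), (3,
      0, [1, 6])]⟩,
    ⟨[(0, 1), (1, 2), (1, 3), (1, 4), (2, 3)], [(1, 0), (1, 1), (1, 3), (2, 0), (2, 3), (2,
      6), (4, 0)], [(0, 3), (3, 3)], [5], [(3, 0, [1, 6]), (6, 3, []), (9, 3, [])]⟩,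
    ⟨[(1, 5), (2, 5)], [(2, 3), (5, 0), (5, 3)], [], [2, 5], [(6, 3, [])]⟩]
  Ta := [((2, 1), 0, 2), ((2, 4), 0, 4), ((3, 7), 0, 7), ((3, 9), 0, 3), ((6, 1), 3, 2), ((6, 5),
    3, 6), ((9, 3), 3, 0), ((9, 8), 3, 5)]
  Tb := [((0, 1, 7), 1, 2, 7), ((1, 0, 2), 2, 1, 0), ((1, 0, 6), 2, 1, 3), ((1, 0, 8), 2, 1, 5),
    ((1, 2, 6), 2, 0, 3), ((1, 2, 8), 2, 0, 5), ((1, 6, 8), 2, 3, 5), ((2, 1, 4), 0, 2, 4),
    ((3, 7, 9), 0, 7, 3), ((4, 2, 5), 4, 0, 6), ((5, 4, 6), 6, 4, 3), ((6, 1, 5), 3, 2, 6),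
    ((7, 0, 3), 7, 1, 0), ((8, 1, 9), 5, 2, 3), ((9, 3, 8), 3, 0, 5)]
  Tc := [(0, 1, 6)]
  Td := [((0, 1), (2, 1), 2), ((0, 1), (2, 4), 4), ((0, 1), (3, 7), 7), ((0, 1), (3, 9), 3), ((0,
    6), (2, 1), 2), ((0, 6), (2, 4), 4), ((0, 6), (3, 7), 7), ((0, 6), (3, 9), 3), ((1, 0),
    (0, 1), 2), ((1, 0), (0, 7), 7), ((6, 0), (5, 4), 4), ((6, 0), (5, 6), 3)]
  G := [[0, 0x841e12c121284ce84c4e124, 0x44142616182a1881c1c8, 0x92125212d214d21921af84,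
    0x1261249261181c881834181a1c812e1812e1afc8], [0, 0x119e481e68c644ce48e6184,
    0x4261642e1c188121c4, 0x92124c214c2183c8, 0xa41411261281c1882a14bc8], [0,
    0x12841ec121284ce84c8e128, 0, 0xd2d2cd2d2c6181, 0x144144a1812e82ac812e82aca1c1], [0,
    0x85644564818e18481e6e184, 0, 0xc2c2cc2c2ca141, 0x3164144612a8e82ac8a8e88ca1c8]]

noncomputable def n3006 : Ent := ⟨e3006, noF, [], [], []⟩

def c3006 : PLift (Cov.check n3006.C.D v3006 = true) := ⟨by decide +kernel⟩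

def b3006 : PLift (entF (fidx ts) 400 3006 n3006 = true) := ⟨by decide +kernel⟩

theorem g3006 : GoodF (fidx ts) 400 3006 := GoodF.ofV v3006 n3006 c3006.down b3006.down

/-- 4864474:2348 -/
noncomputable def e3007 : SCfg where
  D := {
    a := 7
    L := 11
    kp := 8
    inn := [(0, 1), (1, 0), (1, 2), (1, 3), (1, 4), (1, 5), (2, 1), (2, 3), (2, 5), (3, 1), (3, 2), (4,
      1), (5, 1), (5, 2), (5, 6), (6, 5)]
    mix := [(0, 0), (0, 1), (0, 2), (1, 0), (1, 2), (1, 3), (2, 4), (2, 5), (2, 6), (3, 2), (3, 4), (4,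
      0), (4, 3), (4, 7), (5, 3), (5, 6), (5, 8), (5, 9), (6, 6), (6, 8), (6, 10)]
    cl := [1, 6, 0, 0, 2, 5, 3, 7, 4, 3, 8]
    chq := [(0, 1), (0, 5), (1, 0), (5, 0)]
    rng := [(0, 1), (0, 7), (1, 0), (1, 2), (2, 1), (2, 4), (3, 7), (3, 9), (4, 2), (4, 5), (5, 4), (5,
      6), (6, 5), (6, 10), (7, 0), (7, 3), (8, 9), (8, 10), (9, 3), (9, 8), (10, 6), (10, 8)]
    lev := [] }
  links := [[1, 7, 8, 9], [7, 0, 9, 3, 2, 5, 10, 4], [5, 1, 3, 11, 12, 13], [11, 2, 1, 9], [7, 1, 10,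
    14], [10, 1, 2, 13, 6, 15, 16], [15, 5, 13, 17]]
  P := {
    a := 7
    N := 18
    nb := [898, 1725, 14378, 2566, 17538, 107590, 172064, 16659, 641, 2315, 81970, 4620, 10244,
      135268, 1168, 196704, 33824, 41024]
    tri := [(0, 1, 7), (0, 1, 9), (0, 7, 8), (0, 8, 9), (1, 2, 3), (1, 2, 5), (1, 3, 9), (1, 4, 7), (1,
      4, 10), (1, 5, 10), (2, 3, 11), (2, 5, 13), (2, 11, 12), (2, 12, 13), (3, 9, 11), (4, 7,
      14), (4, 10, 14), (5, 6, 13), (5, 6, 15), (5, 10, 16), (5, 15, 16), (6, 13, 17), (6, 15,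
      17)]
    fin := [0, 1, 1, 1, 0, 5, 5, 0, 8, 1, 1, 11, 12, 5, 14, 15, 5, 17]
    chd := [(0, 1), (1, 12)]
    steps := [(0, 7), (0, 4), (1, 2), (1, 3), (1, 9), (1, 10), (5, 6), (5, 13), (5, 16)] }
  rep := [1, 0, 11, 5, 15, 12, 8, 14, 17]

noncomputable def v3007 : Cov.CovD where
  P := 3
  N := 6
  pl := [1, 4, 7, 8, 10]
  lev := [⟨[], [], [(0, 1)], [6], [(0, 1, [0]), (2, 0, [1, 5])]⟩,
    ⟨[], [(0, 0), (0, 1)], [(0, 0), (0, 1)], [], [(0, 1, [0]), (2, 0, [1, 5]), (3, 0, [1,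
      5])]⟩,
    ⟨[(0, 1)], [(1, 0), (1, 1), (1, 3), (1, 5)], [(3, 5)], [2], [(5, 5, [0]), (6, 3, [])]⟩,
    ⟨[(0, 1), (1, 2)], [(0, 0), (1, 0), (1, 1), (2, 0), (2, 3), (2, 5)], [], [2], [(2, 0,
      [1, 5])]⟩,
    ⟨[(0, 1), (1, 2), (1, 3)], [(0, 1), (1, 0), (1, 1)], [(0, 1)], [7], [(0, 1, [0]), (3,
      0, [1, 5])]⟩,
    ⟨[(0, 1), (1, 2), (1, 3), (1, 4), (2, 3)], [(1, 0), (1, 1), (1, 3), (2, 0), (2, 3), (2,
      5), (4, 0)], [(0, 3), (3, 3)], [4], [(3, 0, [1, 5]), (6, 3, []), (9, 3, [])]⟩,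
    ⟨[(1, 5), (2, 5)], [(2, 3), (5, 0), (5, 3)], [], [4, 8], [(6, 3, [])]⟩]
  Ta := [((2, 1), 0, 6), ((2, 4), 0, 2), ((3, 7), 0, 7), ((3, 9), 0, 3), ((6, 5), 3, 5), ((6,
    10), 3, 8), ((9, 3), 3, 0), ((9, 8), 3, 4)]
  Tb := [((0, 1, 7), 1, 6, 7), ((1, 0, 2), 6, 1, 0), ((2, 1, 4), 0, 6, 2), ((3, 7, 9), 0, 7, 3),
    ((4, 2, 5), 2, 0, 5), ((5, 4, 6), 5, 2, 3), ((6, 5, 10), 3, 5, 8), ((7, 0, 3), 7, 1, 0),
    ((8, 9, 10), 4, 3, 8), ((9, 3, 8), 3, 0, 4), ((10, 6, 8), 8, 3, 4)]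
  Tc := [(0, 1, 5)]
  Td := [((0, 1), (2, 1), 6), ((0, 1), (2, 4), 2), ((0, 1), (3, 7), 7), ((0, 1), (3, 9), 3), ((0,
    5), (2, 1), 6), ((0, 5), (2, 4), 2), ((0, 5), (3, 7), 7), ((0, 5), (3, 9), 3), ((1, 0),
    (0, 1), 6), ((1, 0), (0, 7), 7), ((5, 0), (5, 4), 2), ((5, 0), (5, 6), 3)]
  G := [[0, 0x81a95ca81253644192a88a81c5412a32e418e,
    0x41176524c1589c19b65641d8986134561b5a9cec81db652c1c1597ed22121371ed4e8118928812acc,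
    0x53614198181c53614198181cc, 0x53612198121c53618198181cc], [0,
    0xc265ce95ce8129ace93aa4e8146, 0x8361258614648129818ac81811bad281811dcd468c,
    0xa4163a1c1465ce1418c, 0x9a3e18145361681a18c], [0, 0x93a93aa415454c8163232a4195c95cc81aa,
    0, 0x53654c419893ac81c1, 0x5364548a193a98c21c1], [0, 0x65ce65cec41265ce653e6418c, 0,
    0xe36441daee98c81c1, 0x544216acee3ac81c1]]

noncomputable def n3007 : Ent := ⟨e3007, noF, [], [], [(8, 17, [6903326391201334775872065844685381424292761054348340378595029942001665, 0])]⟩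

def c3007 : PLift (Cov.check n3007.C.D v3007 = true) := ⟨by decide +kernel⟩

def b3007 : PLift (entF (fidx ts) 400 3007 n3007 = true) := ⟨by decide +kernel⟩

theorem g3007 : GoodF (fidx ts) 400 3007 := GoodF.ofV v3007 n3007 c3007.down b3007.down

/-- 4864474:2349/1 -/
noncomputable def e3008 : SCfg where
  D := {
    a := 7
    L := 10
    kp := 7
    inn := [(0, 1), (1, 0), (1, 2), (1, 3), (1, 4), (1, 5), (2, 1), (2, 3), (2, 5), (3, 1), (3, 2), (4,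
      1), (5, 1), (5, 2), (5, 6), (6, 5)]
    mix := [(0, 0), (0, 1), (0, 2), (1, 0), (1, 2), (1, 3), (2, 4), (2, 5), (2, 6), (3, 2), (3, 4), (4,
      0), (4, 3), (4, 7), (5, 3), (5, 6), (5, 8), (5, 9), (6, 1), (6, 8), (6, 9)]
    cl := [1, 2, 0, 0, 4, 6, 3, 7, 5, 3]
    chq := [(0, 1), (0, 6), (1, 0), (6, 0)]
    rng := [(0, 1), (0, 7), (1, 0), (1, 2), (1, 8), (1, 9), (2, 1), (2, 4), (3, 7), (3, 9), (4, 2), (4,
      5), (5, 4), (5, 6), (6, 5), (6, 8), (7, 0), (7, 3), (8, 1), (8, 6), (9, 1), (9, 3)]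
    lev := [] }
  links := [[1, 7, 8, 9], [7, 0, 9, 3, 2, 5, 10, 4], [5, 1, 3, 11, 12, 13], [11, 2, 1, 9], [7, 1, 10,
    14], [10, 1, 2, 13, 15, 6, 16], [16, 5, 15, 8]]
  P := {
    a := 7
    N := 17
    nb := [898, 1725, 14378, 2566, 17538, 107590, 98592, 16659, 99009, 2315, 81970, 4620, 10244,
      36900, 1168, 8544, 1376]
    tri := [(0, 1, 7), (0, 1, 9), (0, 7, 8), (0, 8, 9), (1, 2, 3), (1, 2, 5), (1, 3, 9), (1, 4, 7), (1,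
      4, 10), (1, 5, 10), (2, 3, 11), (2, 5, 13), (2, 11, 12), (2, 12, 13), (3, 9, 11), (4, 7,
      14), (4, 10, 14), (5, 6, 15), (5, 6, 16), (5, 10, 16), (5, 13, 15), (6, 8, 15), (6, 8, 16)]
    fin := [0, 1, 1, 1, 0, 5, 6, 0, 6, 1, 1, 11, 12, 5, 14, 15, 5]
    chd := [(0, 1), (1, 12)]
    steps := [(0, 7), (0, 4), (1, 2), (1, 3), (1, 9), (1, 10), (5, 13), (5, 16), (6, 8)] }
  rep := [1, 0, 6, 5, 11, 15, 12, 14]

noncomputable def v3008 : Cov.CovD where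
  P := 3
  N := 5
  pl := [1, 4, 7, 8]
  lev := [⟨[], [], [(0, 1)], [2], [(0, 1, [0]), (2, 0, [1, 6])]⟩,
    ⟨[], [(0, 0), (0, 1)], [(0, 0), (0, 1)], [], [(0, 1, [0]), (2, 0, [1, 6]), (3, 0, [1,
      6])]⟩,
    ⟨[(0, 1)], [(1, 0), (1, 1), (1, 3), (1, 6)], [(3, 6)], [4], [(5, 6, [0]), (6, 3, [])]⟩,
    ⟨[(0, 1), (1, 2)], [(0, 0), (1, 0), (1, 1), (2, 0), (2, 3), (2, 6)], [], [4], [(2, 0,
      [1, 6])]⟩,
    ⟨[(0, 1), (1, 2), (1, 3)], [(0, 1), (1, 0), (1, 1)], [(0, 1)], [7], [(0, 1, [0]), (3,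
      0, [1, 6])]⟩,
    ⟨[(0, 1), (1, 2), (1, 3), (1, 4), (2, 3)], [(1, 0), (1, 1), (1, 3), (2, 0), (2, 3), (2,
      6), (4, 0)], [(0, 3), (3, 3)], [5], [(3, 0, [1, 6]), (6, 3, []), (9, 3, [])]⟩,
    ⟨[(1, 5), (2, 5)], [(5, 0), (5, 3)], [], [2, 5], [(9, 3, [])]⟩]
  Ta := [((2, 1), 0, 2), ((2, 4), 0, 4), ((3, 7), 0, 7), ((3, 9), 0, 3), ((6, 5), 3, 6), ((6, 8),
    3, 5), ((9, 1), 3, 2), ((9, 3), 3, 0)]
  Tb := [((0, 1, 7), 1, 2, 7), ((1, 0, 2), 2, 1, 0), ((1, 0, 8), 2, 1, 5), ((1, 0, 9), 2, 1, 3),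
    ((1, 2, 8), 2, 0, 5), ((1, 2, 9), 2, 0, 3), ((1, 8, 9), 2, 5, 3), ((2, 1, 4), 0, 2, 4),
    ((3, 7, 9), 0, 7, 3), ((4, 2, 5), 4, 0, 6), ((5, 4, 6), 6, 4, 3), ((6, 5, 8), 3, 6, 5),
    ((7, 0, 3), 7, 1, 0), ((8, 1, 6), 5, 2, 3), ((9, 1, 3), 3, 2, 0)]
  Tc := [(0, 1, 6)]
  Td := [((0, 1), (2, 1), 2), ((0, 1), (2, 4), 4), ((0, 1), (3, 7), 7), ((0, 1), (3, 9), 3), ((0,
    6), (2, 1), 2), ((0, 6), (2, 4), 4), ((0, 6), (3, 7), 7), ((0, 6), (3, 9), 3), ((1, 0),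
    (0, 1), 2), ((1, 0), (0, 7), 7), ((6, 0), (5, 4), 4), ((6, 0), (5, 6), 3)]
  G := [[0, 0x149e41ce6185e14ce66184, 0x4261642e1c188121c4, 0x521292129214c21c21af84,
    0x316124241181c28181218416126182c1afc8], [0, 0x121284ce841e12c84c4e128,
    0x4261441a188182a1a1c4, 0xd212521449618784, 0x22111c16811e18812e1812e1ab48], [0,
    0x841e481ec11ce841ecc124, 0, 0xc2c2cc252ca148, 0x1441a8e4a1812e82ac818e8a1c1], [0,
    0x121284ce12841ec84c8e124, 0, 0xd2d2cd285aca141, 0x144192e4c1812e8812e82aca1c1]]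

noncomputable def n3008 : Ent := ⟨e3008, noF, [], [], []⟩

def c3008 : PLift (Cov.check n3008.C.D v3008 = true) := ⟨by decide +kernel⟩

def b3008 : PLift (entF (fidx ts) 400 3008 n3008 = true) := ⟨by decide +kernel⟩

theorem g3008 : GoodF (fidx ts) 400 3008 := GoodF.ofV v3008 n3008 c3008.down b3008.down

/-- 4864474:2349 -/
noncomputable def e3009 : SCfg where
  D := {
    a := 7
    L := 11
    kp := 8
    inn := [(0, 1), (1, 0), (1, 2), (1, 3), (1, 4), (1, 5), (2, 1), (2, 3), (2, 5), (3, 1), (3, 2), (4,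
      1), (5, 1), (5, 2), (5, 6), (6, 5)]
    mix := [(0, 0), (0, 1), (0, 2), (1, 0), (1, 2), (1, 3), (2, 4), (2, 5), (2, 6), (3, 2), (3, 4), (4,
      0), (4, 3), (4, 7), (5, 3), (5, 6), (5, 8), (5, 9), (6, 8), (6, 9), (6, 10)]
    cl := [1, 6, 0, 0, 2, 5, 3, 7, 4, 3, 8]
    chq := [(0, 1), (0, 5), (1, 0), (5, 0)]
    rng := [(0, 1), (0, 7), (1, 0), (1, 2), (2, 1), (2, 4), (3, 7), (3, 9), (4, 2), (4, 5), (5, 4), (5,
      6), (6, 5), (6, 8), (7, 0), (7, 3), (8, 6), (8, 10), (9, 3), (9, 10), (10, 8), (10, 9)]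
    lev := [] }
  links := [[1, 7, 8, 9], [7, 0, 9, 3, 2, 5, 10, 4], [5, 1, 3, 11, 12, 13], [11, 2, 1, 9], [7, 1, 10,
    14], [10, 1, 2, 13, 15, 6, 16], [16, 5, 15, 17]]
  P := {
    a := 7
    N := 18
    nb := [898, 1725, 14378, 2566, 17538, 107590, 229408, 16659, 641, 2315, 81970, 4620, 10244, 36900,
      1168, 139360, 132192, 98368]
    tri := [(0, 1, 7), (0, 1, 9), (0, 7, 8), (0, 8, 9), (1, 2, 3), (1, 2, 5), (1, 3, 9), (1, 4, 7), (1,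
      4, 10), (1, 5, 10), (2, 3, 11), (2, 5, 13), (2, 11, 12), (2, 12, 13), (3, 9, 11), (4, 7,
      14), (4, 10, 14), (5, 6, 15), (5, 6, 16), (5, 10, 16), (5, 13, 15), (6, 15, 17), (6, 16,
      17)]
    fin := [0, 1, 1, 1, 0, 5, 5, 0, 8, 1, 1, 11, 12, 5, 14, 15, 5, 17]
    chd := [(0, 1), (1, 12)]
    steps := [(0, 7), (0, 4), (1, 2), (1, 3), (1, 9), (1, 10), (5, 6), (5, 13), (5, 16)] }
  rep := [1, 0, 11, 5, 15, 12, 8, 14, 17]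

noncomputable def v3009 : Cov.CovD where
  P := 3
  N := 6
  pl := [1, 4, 7, 8, 10]
  lev := [⟨[], [], [(0, 1)], [6], [(0, 1, [0]), (2, 0, [1, 5])]⟩,
    ⟨[], [(0, 0), (0, 1)], [(0, 0), (0, 1)], [], [(0, 1, [0]), (2, 0, [1, 5]), (3, 0, [1,
      5])]⟩,
    ⟨[(0, 1)], [(1, 0), (1, 1), (1, 3), (1, 5)], [(3, 5)], [2], [(5, 5, [0]), (6, 3, [])]⟩,
    ⟨[(0, 1), (1, 2)], [(0, 0), (1, 0), (1, 1), (2, 0), (2, 3), (2, 5)], [], [2], [(2, 0,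
      [1, 5])]⟩,
    ⟨[(0, 1), (1, 2), (1, 3)], [(0, 1), (1, 0), (1, 1)], [(0, 1)], [7], [(0, 1, [0]), (3,
      0, [1, 5])]⟩,
    ⟨[(0, 1), (1, 2), (1, 3), (1, 4), (2, 3)], [(1, 0), (1, 1), (1, 3), (2, 0), (2, 3), (2,
      5), (4, 0)], [(0, 3), (3, 3)], [4], [(3, 0, [1, 5]), (6, 3, []), (9, 3, [])]⟩,
    ⟨[(1, 5), (2, 5)], [(5, 0), (5, 3)], [], [4, 8], [(9, 3, [])]⟩]
  Ta := [((2, 1), 0, 6), ((2, 4), 0, 2), ((3, 7), 0, 7), ((3, 9), 0, 3), ((6, 5), 3, 5), ((6, 8),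
    3, 4), ((9, 3), 3, 0), ((9, 10), 3, 8)]
  Tb := [((0, 1, 7), 1, 6, 7), ((1, 0, 2), 6, 1, 0), ((2, 1, 4), 0, 6, 2), ((3, 7, 9), 0, 7, 3),
    ((4, 2, 5), 2, 0, 5), ((5, 4, 6), 5, 2, 3), ((6, 5, 8), 3, 5, 4), ((7, 0, 3), 7, 1, 0),
    ((8, 6, 10), 4, 3, 8), ((9, 3, 10), 3, 0, 8), ((10, 8, 9), 8, 4, 3)]
  Tc := [(0, 1, 5)]
  Td := [((0, 1), (2, 1), 6), ((0, 1), (2, 4), 2), ((0, 1), (3, 7), 7), ((0, 1), (3, 9), 3), ((0,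
    5), (2, 1), 6), ((0, 5), (2, 4), 2), ((0, 5), (3, 7), 7), ((0, 5), (3, 9), 3), ((1, 0),
    (0, 1), 6), ((1, 0), (0, 7), 7), ((5, 0), (5, 4), 2), ((5, 0), (5, 6), 3)]
  G := [[0, 0xa4a4a9ca93aac149a3e63aa4e814a,
    0xb8612c1d2546724e122812c182ec246122b8e1248de14e78128cc, 0xa4193a1c1465ce1418c,
    0x9a3e12146ace1218c], [0, 0x5454a4193a93aa81c4444641913e913ea81c6,
    0xc11765254146c11ba949818acc1c1113ed254186f2129818acc, 0x5414193a181c153e14188181cc,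
    0x53612198121c53612198181cc], [0, 0xc265ce6ace41265ce9acec412c, 0, 0x544819a3e93ac81c1,
    0x544819a3e63ac21c1], [0, 0x536326419895c681a3293a68195c54c816a, 0, 0x5454c4193a93ac81c1,
    0x53654c219893ac21c1]]

noncomputable def n3009 : Ent := ⟨e3009, noF, [], [], [(8, 17, [6903326391201334775872065844685381424292761054348340378595029942009857, 0])]⟩

def c3009 : PLift (Cov.check n3009.C.D v3009 = true) := ⟨by decide +kernel⟩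

def b3009 : PLift (entF (fidx ts) 400 3009 n3009 = true) := ⟨by decide +kernel⟩

theorem g3009 : GoodF (fidx ts) 400 3009 := GoodF.ofV v3009 n3009 c3009.down b3009.down

/-- 4594764:2350 -/
noncomputable def e3010 : SCfg where
  D := {
    a := 7
    L := 11
    kp := 8
    inn := [(0, 1), (0, 2), (0, 5), (1, 0), (1, 2), (2, 0), (2, 1), (2, 3), (2, 4), (2, 5), (2, 6), (3,
      2), (3, 4), (4, 2), (4, 3), (4, 5), (5, 0), (5, 2), (5, 4), (6, 2)]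
    mix := [(0, 0), (1, 0), (1, 1), (1, 2), (2, 2), (2, 3), (2, 4), (3, 4), (3, 5), (4, 5), (4, 6), (4,
      7), (4, 8), (5, 0), (5, 8), (5, 9), (6, 2), (6, 3), (6, 10)]
    cl := [1, 5, 0, 2, 0, 3, 6, 7, 3, 4, 8]
    chq := [(0, 1), (0, 4), (1, 0), (4, 0)]
    rng := [(0, 1), (0, 9), (1, 0), (1, 2), (2, 1), (2, 10), (3, 4), (3, 10), (4, 3), (4, 5), (5, 4),
      (5, 6), (6, 5), (6, 7), (7, 6), (7, 8), (8, 7), (8, 9), (9, 0), (9, 8), (10, 2), (10, 3)]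
    lev := [] }
  links := [[1, 2, 5, 7], [2, 0, 7, 8, 9], [5, 0, 1, 9, 6, 10, 11, 3, 4], [4, 2, 11, 12], [5, 2, 3, 12,
    13, 14, 15], [7, 0, 2, 4, 15, 16], [10, 2, 9, 17]]
  P := {
    a := 7
    N := 18
    nb := [166, 901, 3707, 6164, 61484, 98453, 132612, 65827, 642, 131398, 133188, 5132, 10264, 20496,
      40976, 81968, 32928, 1600]
    tri := [(0, 1, 2), (0, 1, 7), (0, 2, 5), (0, 5, 7), (1, 2, 9), (1, 7, 8), (1, 8, 9), (2, 3, 4), (2,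
      3, 11), (2, 4, 5), (2, 6, 9), (2, 6, 10), (2, 10, 11), (3, 4, 12), (3, 11, 12), (4, 5, 15),
      (4, 12, 13), (4, 13, 14), (4, 14, 15), (5, 7, 16), (5, 15, 16), (6, 9, 17), (6, 10, 17)]
    fin := [0, 0, 2, 2, 4, 2, 2, 0, 8, 2, 10, 2, 4, 13, 14, 4, 16, 17]
    chd := [(0, 2), (2, 16)]
    steps := [(0, 1), (0, 7), (2, 3), (2, 5), (2, 6), (2, 9), (2, 11), (4, 12), (4, 15)] }
  rep := [2, 0, 10, 4, 16, 8, 13, 14, 17]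

noncomputable def v3010 : Cov.CovD where
  P := 3
  N := 6
  pl := [1, 3, 6, 7, 10]
  lev := [⟨[], [], [], [], [(0, 1, [0])]⟩,
    ⟨[], [(0, 0), (0, 1)], [(0, 1)], [5], [(0, 1, [0]), (2, 0, [1, 4])]⟩,
    ⟨[(0, 1)], [(0, 0), (0, 1), (1, 0), (1, 1)], [(0, 0)], [2], [(2, 0, [1, 4]), (4, 0, [1,
      4])]⟩,
    ⟨[(0, 2), (1, 2)], [(2, 0), (2, 3)], [(0, 3)], [], [(4, 0, [1, 4]), (5, 3, [])]⟩,
    ⟨[(0, 2), (1, 2), (2, 3)], [(2, 0), (2, 3), (3, 0), (3, 3)], [(3, 3)], [6, 7], [(5, 3,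
      []), (8, 3, [])]⟩,
    ⟨[(0, 1), (0, 2), (0, 4), (1, 2), (2, 3), (2, 4), (3, 4)], [(0, 1), (0, 3), (0, 4), (1,
      1), (2, 0), (2, 1), (2, 3), (2, 4), (4, 1), (4, 3), (4, 4)], [(1, 3), (1, 4), (3, 4)],
      [], [(0, 1, [0]), (8, 3, []), (9, 4, [0])]⟩,
    ⟨[(0, 2), (1, 2), (2, 3), (2, 4), (2, 5)], [(1, 0), (2, 0)], [], [2, 8], [(2, 0, [1,
      4])]⟩]
  Ta := [((2, 1), 0, 5), ((2, 10), 0, 8), ((4, 3), 0, 2), ((4, 5), 0, 3), ((5, 4), 3, 0), ((5,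
    6), 3, 6), ((8, 7), 3, 7), ((8, 9), 3, 4)]
  Tb := [((0, 1, 9), 1, 5, 4), ((1, 0, 2), 5, 1, 0), ((2, 1, 10), 0, 5, 8), ((3, 4, 10), 2, 0,
    8), ((4, 3, 5), 0, 2, 3), ((5, 4, 6), 3, 0, 6), ((6, 5, 7), 6, 3, 7), ((7, 6, 8), 7, 6,
    3), ((8, 7, 9), 3, 7, 4), ((9, 0, 8), 4, 1, 3), ((10, 2, 3), 8, 0, 2)]
  Tc := [(0, 1, 4)]
  Td := [((0, 1), (2, 1), 5), ((0, 1), (2, 10), 8), ((0, 1), (4, 3), 2), ((0, 1), (4, 5), 3),
    ((0, 4), (2, 1), 5), ((0, 4), (2, 10), 8), ((0, 4), (4, 3), 2), ((0, 4), (4, 5), 3), ((1,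
    0), (0, 1), 5), ((1, 0), (0, 9), 4), ((4, 0), (9, 0), 1), ((4, 0), (9, 8), 3)]
  G := [[0, 0x1211411111671188c1211416111111e1c68, 0,
    0xc11c1c13c181cb454128188cc4114541812cc11c9581141c1a78cc,
    0x2121a11a99a1a85812da2122a11a99a1a85812dac4], [0, 0x111111116f2418184111111111ef84e8, 0,
    0xc181c11c5f244114328182cc41421818c41c1811c9f28cc,
    0x2122a1a181a1f4aa124a1a1a1d4aaac142d4], [0, 0x11116111129181ac12111491811111a3ca4,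
    0xa1a19a12a61c854614, 0x414454c181c8cd81c18c57ac18, 0xa122a1aa99a1a85ca14], [0,
    0x111111672811111111af281111c928e4, 0x61a1c1c1f8418, 0x414452c181c1c8cdf8c18,
    0x2124a1a181aaadf8a18]]

noncomputable def n3010 : Ent := ⟨e3010, noF, [], [], []⟩

def c3010 : PLift (Cov.check n3010.C.D v3010 = true) := ⟨by decide +kernel⟩

def b3010 : PLift (entF (fidx ts) 400 3010 n3010 = true) := ⟨by decide +kernel⟩

theorem g3010 : GoodF (fidx ts) 400 3010 := GoodF.ofV v3010 n3010 c3010.down b3010.down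

/-- 4594764:2351 -/
noncomputable def e3011 : SCfg where
  D := {
    a := 7
    L := 11
    kp := 8
    inn := [(0, 1), (0, 2), (0, 5), (1, 0), (1, 2), (2, 0), (2, 1), (2, 3), (2, 4), (2, 5), (2, 6), (3,
      2), (3, 4), (4, 2), (4, 3), (4, 5), (5, 0), (5, 2), (5, 4), (6, 2)]
    mix := [(0, 0), (1, 0), (1, 1), (1, 2), (2, 2), (2, 3), (2, 4), (3, 4), (3, 5), (4, 5), (4, 6), (4,
      7), (4, 8), (5, 0), (5, 8), (5, 9), (6, 3), (6, 4), (6, 10)]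
    cl := [1, 5, 0, 2, 0, 3, 6, 7, 3, 4, 8]
    chq := [(0, 1), (0, 4), (1, 0), (4, 0)]
    rng := [(0, 1), (0, 9), (1, 0), (1, 2), (2, 1), (2, 3), (3, 2), (3, 10), (4, 5), (4, 10), (5, 4),
      (5, 6), (6, 5), (6, 7), (7, 6), (7, 8), (8, 7), (8, 9), (9, 0), (9, 8), (10, 3), (10, 4)]
    lev := [] }
  links := [[1, 2, 5, 7], [2, 0, 7, 8, 9], [5, 0, 1, 9, 10, 6, 11, 3, 4], [4, 2, 11, 12], [5, 2, 3, 12,
    13, 14, 15], [7, 0, 2, 4, 15, 16], [11, 2, 10, 17]]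
  P := {
    a := 7
    N := 18
    nb := [166, 901, 3707, 6164, 61484, 98453, 134148, 65827, 642, 1286, 131652, 135244, 10264, 20496,
      40976, 81968, 32928, 3136]
    tri := [(0, 1, 2), (0, 1, 7), (0, 2, 5), (0, 5, 7), (1, 2, 9), (1, 7, 8), (1, 8, 9), (2, 3, 4), (2,
      3, 11), (2, 4, 5), (2, 6, 10), (2, 6, 11), (2, 9, 10), (3, 4, 12), (3, 11, 12), (4, 5, 15),
      (4, 12, 13), (4, 13, 14), (4, 14, 15), (5, 7, 16), (5, 15, 16), (6, 10, 17), (6, 11, 17)]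
    fin := [0, 0, 2, 2, 4, 2, 2, 0, 8, 2, 10, 2, 4, 13, 14, 4, 16, 17]
    chd := [(0, 2), (2, 16)]
    steps := [(0, 1), (0, 7), (2, 3), (2, 5), (2, 6), (2, 9), (2, 11), (4, 12), (4, 15)] }
  rep := [2, 0, 10, 4, 16, 8, 13, 14, 17]

noncomputable def v3011 : Cov.CovD where
  P := 3
  N := 6
  pl := [1, 3, 6, 7, 10]
  lev := [⟨[], [], [], [], [(0, 1, [0])]⟩,
    ⟨[], [(0, 0), (0, 1)], [(0, 1)], [5], [(0, 1, [0]), (2, 0, [1, 4])]⟩,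
    ⟨[(0, 1)], [(0, 0), (0, 1), (1, 0), (1, 1)], [(0, 0)], [2], [(2, 0, [1, 4]), (4, 0, [1,
      4])]⟩,
    ⟨[(0, 2), (1, 2)], [(2, 0), (2, 3)], [(0, 3)], [], [(4, 0, [1, 4]), (5, 3, [])]⟩,
    ⟨[(0, 2), (1, 2), (2, 3)], [(2, 0), (2, 3), (3, 0), (3, 3)], [(3, 3)], [6, 7], [(5, 3,
      []), (8, 3, [])]⟩,
    ⟨[(0, 1), (0, 2), (0, 4), (1, 2), (2, 3), (2, 4), (3, 4)], [(0, 1), (0, 3), (0, 4), (1,
      1), (2, 0), (2, 1), (2, 3), (2, 4), (4, 1), (4, 3), (4, 4)], [(1, 3), (1, 4), (3, 4)],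
      [], [(0, 1, [0]), (8, 3, []), (9, 4, [0])]⟩,
    ⟨[(0, 2), (1, 2), (2, 3), (2, 4), (2, 5)], [(2, 0), (3, 0)], [], [2, 8], [(4, 0, [1,
      4])]⟩]
  Ta := [((2, 1), 0, 5), ((2, 3), 0, 2), ((4, 5), 0, 3), ((4, 10), 0, 8), ((5, 4), 3, 0), ((5,
    6), 3, 6), ((8, 7), 3, 7), ((8, 9), 3, 4)]
  Tb := [((0, 1, 9), 1, 5, 4), ((1, 0, 2), 5, 1, 0), ((2, 1, 3), 0, 5, 2), ((3, 2, 10), 2, 0, 8),
    ((4, 5, 10), 0, 3, 8), ((5, 4, 6), 3, 0, 6), ((6, 5, 7), 6, 3, 7), ((7, 6, 8), 7, 6, 3),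
    ((8, 7, 9), 3, 7, 4), ((9, 0, 8), 4, 1, 3), ((10, 3, 4), 8, 2, 0)]
  Tc := [(0, 1, 4)]
  Td := [((0, 1), (2, 1), 5), ((0, 1), (2, 3), 2), ((0, 1), (4, 5), 3), ((0, 1), (4, 10), 8),
    ((0, 4), (2, 1), 5), ((0, 4), (2, 3), 2), ((0, 4), (4, 5), 3), ((0, 4), (4, 10), 8), ((1,
    0), (0, 1), 5), ((1, 0), (0, 9), 4), ((4, 0), (9, 0), 1), ((4, 0), (9, 8), 3)]
  G := [[0, 0x111251114361188c111251416118112ac68, 0xc1c1961613a14b461c19c11a1c16b2c8,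
    0x11441111911183ac1111111c1111119be814148d4, 0x111414b11111157c21111551126111498ac8], [0,
    0x111114741111a92c111111111ef8468, 0x61c1c1c1f82c161c161f82c8,
    0x11111111f24111111741182c11c184d8, 0x111111115f82111111115f4218142d8], [0,
    0x118121c4111251114361188c1141114368e8, 0, 0x41c11c9d41c141b68181891ac14,
    0xa122a11a99a1a85ca14], [0, 0x111111111ef24111111111ef48c2, 0, 0x4142c181c111cdf8c18,
    0x21a1a111adf48188a14]]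

noncomputable def n3011 : Ent := ⟨e3011, noF, [], [], []⟩

def c3011 : PLift (Cov.check n3011.C.D v3011 = true) := ⟨by decide +kernel⟩

def b3011 : PLift (entF (fidx ts) 400 3011 n3011 = true) := ⟨by decide +kernel⟩

theorem g3011 : GoodF (fidx ts) 400 3011 := GoodF.ofV v3011 n3011 c3011.down b3011.down

/-- 4864464:2353/2 -/
noncomputable def e3012 : SCfg where
  D := {
    a := 7
    L := 9
    kp := 6
    inn := [(0, 1), (1, 0), (1, 2), (1, 3), (1, 4), (2, 1), (2, 3), (2, 5), (3, 1), (3, 2), (4, 1), (5,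
      2), (5, 6), (6, 5)]
    mix := [(0, 0), (0, 1), (0, 2), (1, 0), (1, 2), (1, 3), (1, 4), (2, 3), (2, 5), (2, 6), (3, 2), (3,
      5), (4, 0), (4, 4), (4, 7), (5, 5), (5, 6), (5, 7), (5, 8), (6, 1), (6, 5), (6, 7)]
    cl := [1, 2, 0, 5, 0, 3, 3, 4, 6]
    chq := [(0, 1), (1, 0), (2, 6), (6, 2)]
    rng := [(0, 1), (0, 7), (1, 0), (1, 2), (1, 5), (1, 7), (2, 1), (2, 5), (3, 4), (3, 6), (4, 3), (4,
      7), (5, 1), (5, 2), (6, 3), (6, 8), (7, 0), (7, 1), (7, 4), (7, 8), (8, 6), (8, 7)]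
    lev := [] }
  links := [[1, 7, 8, 9], [7, 0, 9, 3, 2, 10, 11, 4], [10, 1, 3, 12, 5, 13], [12, 2, 1, 9], [7, 1, 11,
    14], [13, 2, 12, 6, 14, 15], [14, 5, 12, 8]]
  P := {
    a := 7
    N := 16
    nb := [898, 3741, 13354, 4614, 18562, 61508, 20768, 16659, 21185, 4363, 10246, 17426, 876, 33828,
      35312, 24608]
    tri := [(0, 1, 7), (0, 1, 9), (0, 7, 8), (0, 8, 9), (1, 2, 3), (1, 2, 10), (1, 3, 9), (1, 4, 7),
      (1, 4, 11), (1, 10, 11), (2, 3, 12), (2, 5, 12), (2, 5, 13), (2, 10, 13), (3, 9, 12), (4, 7,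
      14), (4, 11, 14), (5, 6, 12), (5, 6, 14), (5, 13, 15), (5, 14, 15), (6, 8, 12), (6, 8, 14)]
    fin := [0, 1, 2, 1, 0, 5, 5, 0, 5, 1, 10, 1, 2, 2, 14, 15]
    chd := [(0, 1), (5, 15)]
    steps := [(0, 7), (0, 4), (1, 3), (1, 9), (1, 11), (2, 12), (2, 13), (5, 6), (5, 8)] }
  rep := [1, 0, 5, 2, 14, 10, 15]

noncomputable def v3012 : Cov.CovD where
  P := 3
  N := 4
  pl := [3, 7]
  lev := [⟨[], [], [(0, 1), (0, 2), (1, 2)], [], [(0, 1, [0]), (1, 2, [6]), (2, 0, [1])]⟩,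
    ⟨[], [(0, 0), (0, 1), (0, 2)], [(0, 0), (0, 1)], [5], [(0, 1, [0]), (2, 0, [1]), (4, 0,
      [1])]⟩,
    ⟨[(0, 1)], [(1, 0), (1, 1), (1, 3)], [(3, 3)], [5], [(5, 3, []), (6, 3, [])]⟩,
    ⟨[(0, 1), (1, 2)], [(0, 0), (1, 0), (1, 1), (1, 3), (2, 0), (2, 3)], [(0, 3)], [], [(2,
      0, [1]), (5, 3, [])]⟩,
    ⟨[(0, 1), (1, 2), (1, 3)], [(0, 1), (1, 0), (1, 1)], [(0, 1)], [4], [(0, 1, [0]), (4,
      0, [1])]⟩,
    ⟨[(1, 2), (2, 3)], [(2, 3), (2, 6), (3, 3)], [(3, 3), (3, 6)], [4], [(5, 3, []), (6, 3,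
      []), (8, 6, [2])]⟩,
    ⟨[(2, 5)], [(0, 2), (2, 3), (3, 3), (5, 2), (5, 3), (5, 6)], [(2, 3)], [4], [(1, 2,
      [6]), (5, 3, [])]⟩]
  Ta := [((2, 1), 0, 2), ((2, 5), 0, 3), ((4, 3), 0, 5), ((4, 7), 0, 4), ((5, 1), 3, 2), ((5, 2),
    3, 0), ((6, 3), 3, 5), ((6, 8), 3, 6)]
  Tb := [((0, 1, 7), 1, 2, 4), ((1, 0, 2), 2, 1, 0), ((1, 0, 5), 2, 1, 3), ((1, 0, 7), 2, 1, 4),
    ((1, 2, 5), 2, 0, 3), ((1, 2, 7), 2, 0, 4), ((1, 5, 7), 2, 3, 4), ((2, 1, 5), 0, 2, 3),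
    ((3, 4, 6), 5, 0, 3), ((4, 3, 7), 0, 5, 4), ((5, 1, 2), 3, 2, 0), ((6, 3, 8), 3, 5, 6),
    ((7, 0, 1), 4, 1, 2), ((7, 0, 4), 4, 1, 0), ((7, 0, 8), 4, 1, 6), ((7, 1, 4), 4, 2, 0),
    ((7, 1, 8), 4, 2, 6), ((7, 4, 8), 4, 0, 6), ((8, 6, 7), 6, 3, 4)]
  Tc := []
  Td := [((0, 1), (2, 1), 2), ((0, 1), (2, 5), 3), ((0, 1), (4, 3), 5), ((0, 1), (4, 7), 4), ((1,
    0), (0, 1), 2), ((1, 0), (0, 7), 4), ((2, 6), (1, 0), 1), ((2, 6), (1, 2), 0), ((2, 6),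
    (1, 5), 3), ((2, 6), (1, 7), 4), ((6, 2), (8, 6), 3), ((6, 2), (8, 7), 4)]
  G := [[0, 0x11cd12a21118b445c4164, 0xe1141e1181c4, 0xd2142c21212125c8,
    0xa4428a9e14141a9547888221aa448812af187c8], [0, 0x114d12621144d12a81c8, 0xa114161181c8,
    0x1214212121c4, 0x8112f1418122f141c8], [0, 0x84cd126211891147a81a4, 0,
    0x1292c12412d2c2189, 0x1138411abb4c451117481888111d4281892ec8fc1], [0,
    0x818d12641184d12a21c8, 0, 0x8212c211242c82c1, 0x11542128b94c25821b8834485c1]]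

noncomputable def n3012 : Ent := ⟨e3012, noF, [], [], []⟩

def c3012 : PLift (Cov.check n3012.C.D v3012 = true) := ⟨by decide +kernel⟩

def b3012 : PLift (entF (fidx ts) 400 3012 n3012 = true) := ⟨by decide +kernel⟩

theorem g3012 : GoodF (fidx ts) 400 3012 := GoodF.ofV v3012 n3012 c3012.down b3012.down

/-- 4864464:2353/3 -/
noncomputable def e3013 : SCfg where
  D := {
    a := 7
    L := 9
    kp := 6
    inn := [(0, 1), (1, 0), (1, 2), (1, 3), (1, 4), (2, 1), (2, 3), (2, 5), (3, 1), (3, 2), (4, 1), (5,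
      2), (5, 6), (6, 5)]
    mix := [(0, 0), (0, 1), (0, 2), (1, 0), (1, 2), (1, 3), (1, 4), (2, 3), (2, 5), (2, 6), (3, 2), (3,
      5), (4, 0), (4, 4), (4, 7), (5, 5), (5, 6), (5, 7), (5, 8), (6, 1), (6, 5), (6, 8)]
    cl := [3, 2, 0, 5, 0, 1, 1, 4, 6]
    chq := [(0, 3), (2, 4), (3, 0), (4, 2)]
    rng := [(0, 1), (0, 7), (1, 0), (1, 2), (1, 5), (1, 8), (2, 1), (2, 5), (3, 4), (3, 6), (4, 3), (4,
      7), (5, 1), (5, 2), (6, 3), (6, 7), (7, 0), (7, 4), (7, 6), (7, 8), (8, 1), (8, 7)]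
    lev := [] }
  links := [[1, 7, 8, 9], [7, 0, 9, 3, 2, 10, 11, 4], [10, 1, 3, 12, 5, 13], [12, 2, 1, 9], [7, 1, 11,
    14], [13, 2, 12, 6, 15, 14], [15, 5, 12, 8]]
  P := {
    a := 7
    N := 16
    nb := [898, 3741, 13354, 4614, 18562, 61508, 37152, 16659, 37569, 4363, 10246, 17426, 876, 17444,
      43184, 16736]
    tri := [(0, 1, 7), (0, 1, 9), (0, 7, 8), (0, 8, 9), (1, 2, 3), (1, 2, 10), (1, 3, 9), (1, 4, 7),
      (1, 4, 11), (1, 10, 11), (2, 3, 12), (2, 5, 12), (2, 5, 13), (2, 10, 13), (3, 9, 12), (4, 7,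
      14), (4, 11, 14), (5, 6, 12), (5, 6, 15), (5, 13, 14), (5, 14, 15), (6, 8, 12), (6, 8, 15)]
    fin := [0, 1, 2, 1, 0, 5, 5, 0, 5, 1, 10, 1, 2, 2, 14, 15]
    chd := [(0, 1), (5, 14)]
    steps := [(0, 7), (0, 4), (1, 3), (1, 9), (1, 11), (2, 12), (2, 13), (5, 6), (5, 8)] }
  rep := [1, 2, 5, 0, 14, 10, 15]

noncomputable def v3013 : Cov.CovD where
  P := 3
  N := 4
  pl := [3, 8]
  lev := [⟨[], [], [(0, 2), (0, 3), (2, 3)], [], [(0, 3, [0]), (1, 2, [4]), (2, 0, [3])]⟩,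
    ⟨[], [(0, 0), (0, 2), (0, 3)], [(0, 0), (0, 3)], [5], [(0, 3, [0]), (2, 0, [3]), (4, 0,
      [3])]⟩,
    ⟨[(0, 1)], [(1, 0), (1, 1), (1, 3)], [(1, 1)], [5], [(5, 1, []), (6, 1, [])]⟩,
    ⟨[(0, 1), (1, 2)], [(0, 0), (1, 0), (1, 1), (1, 3), (2, 0), (2, 1)], [(0, 1)], [], [(2,
      0, [3]), (5, 1, [])]⟩,
    ⟨[(0, 1), (1, 2), (1, 3)], [(0, 3), (1, 0), (1, 3), (1, 4)], [(0, 3), (0, 4), (3, 4)],
      [], [(0, 3, [0]), (4, 0, [3]), (7, 4, [2])]⟩,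
    ⟨[(1, 2), (2, 3)], [(2, 1), (2, 4), (3, 1), (4, 4)], [(1, 1), (1, 4)], [6], [(5, 1,
      []), (6, 1, []), (7, 4, [2])]⟩,
    ⟨[(2, 5)], [(0, 2), (2, 1), (3, 1), (5, 1), (5, 2), (5, 4)], [(1, 2)], [6], [(1, 2,
      [4]), (5, 1, [])]⟩]
  Ta := [((2, 1), 0, 2), ((2, 5), 0, 1), ((4, 3), 0, 5), ((4, 7), 0, 4), ((5, 1), 1, 2), ((5, 2),
    1, 0), ((6, 3), 1, 5), ((6, 7), 1, 4)]
  Tb := [((0, 1, 7), 3, 2, 4), ((1, 0, 2), 2, 3, 0), ((1, 0, 5), 2, 3, 1), ((1, 0, 8), 2, 3, 6),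
    ((1, 2, 5), 2, 0, 1), ((1, 2, 8), 2, 0, 6), ((1, 5, 8), 2, 1, 6), ((2, 1, 5), 0, 2, 1),
    ((3, 4, 6), 5, 0, 1), ((4, 3, 7), 0, 5, 4), ((5, 1, 2), 1, 2, 0), ((6, 3, 7), 1, 5, 4),
    ((7, 0, 4), 4, 3, 0), ((7, 0, 6), 4, 3, 1), ((7, 0, 8), 4, 3, 6), ((7, 4, 6), 4, 0, 1),
    ((7, 4, 8), 4, 0, 6), ((7, 6, 8), 4, 1, 6), ((8, 1, 7), 6, 2, 4)]
  Tc := []
  Td := [((0, 3), (2, 1), 2), ((0, 3), (2, 5), 1), ((0, 3), (4, 3), 5), ((0, 3), (4, 7), 4), ((2,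
    4), (1, 0), 3), ((2, 4), (1, 2), 0), ((2, 4), (1, 5), 1), ((2, 4), (1, 8), 6), ((3, 0),
    (0, 1), 2), ((3, 0), (0, 7), 4), ((4, 2), (7, 0), 3), ((4, 2), (7, 4), 0), ((4, 2), (7,
    6), 1), ((4, 2), (7, 8), 6)]
  G := [[0, 0x88cc232c2146c22484c146ac2148c2ac218ac21884c18a6c, 0xc1141c1141cc11412a,
    0x88cd241288cd2812c, 0x985141111884145c89cd945812a], [0, 0, 0xa11418c11814a11812e, 0,
    0x285141985121c112224285882d945416a], [0, 0, 0, 0x84cd28124152482c84cd28925,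
    0x89cd44181988985485c81544898528898d289a9], [0, 0, 0, 0,
    0x829814a4284681928842252a1d412481c6815946281c849a25481cb]]

noncomputable def n3013 : Ent := ⟨e3013, noF, [], [], []⟩

def c3013 : PLift (Cov.check n3013.C.D v3013 = true) := ⟨by decide +kernel⟩

def b3013 : PLift (entF (fidx ts) 400 3013 n3013 = true) := ⟨by decide +kernel⟩

theorem g3013 : GoodF (fidx ts) 400 3013 := GoodF.ofV v3013 n3013 c3013.down b3013.down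

/-- 4864464:2353/1 -/
noncomputable def e3014 : SCfg where
  D := {
    a := 7
    L := 10
    kp := 7
    inn := [(0, 1), (1, 0), (1, 2), (1, 3), (1, 4), (2, 1), (2, 3), (2, 5), (3, 1), (3, 2), (4, 1), (5,
      2), (5, 6), (6, 5)]
    mix := [(0, 0), (0, 1), (0, 2), (1, 0), (1, 2), (1, 3), (1, 4), (2, 3), (2, 5), (2, 6), (3, 2), (3,
      5), (4, 0), (4, 4), (4, 7), (5, 5), (5, 6), (5, 8), (5, 9), (6, 1), (6, 5), (6, 8)]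
    cl := [3, 4, 0, 2, 0, 1, 1, 7, 5, 6]
    chq := [(0, 3), (3, 0), (4, 6), (6, 4)]
    rng := [(0, 1), (0, 7), (1, 0), (1, 2), (1, 5), (1, 8), (2, 1), (2, 5), (3, 4), (3, 6), (4, 3), (4,
      7), (5, 1), (5, 2), (6, 3), (6, 9), (7, 0), (7, 4), (8, 1), (8, 9), (9, 6), (9, 8)]
    lev := [] }
  links := [[1, 7, 8, 9], [7, 0, 9, 3, 2, 10, 11, 4], [10, 1, 3, 12, 5, 13], [12, 2, 1, 9], [7, 1, 11,
    14], [13, 2, 12, 6, 15, 16], [15, 5, 12, 8]]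
  P := {
    a := 7
    N := 17
    nb := [898, 3741, 13354, 4614, 18562, 110660, 37152, 16659, 37569, 4363, 10246, 17426, 876, 66596,
      2192, 65888, 40992]
    tri := [(0, 1, 7), (0, 1, 9), (0, 7, 8), (0, 8, 9), (1, 2, 3), (1, 2, 10), (1, 3, 9), (1, 4, 7),
      (1, 4, 11), (1, 10, 11), (2, 3, 12), (2, 5, 12), (2, 5, 13), (2, 10, 13), (3, 9, 12), (4, 7,
      14), (4, 11, 14), (5, 6, 12), (5, 6, 15), (5, 13, 16), (5, 15, 16), (6, 8, 12), (6, 8, 15)]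
    fin := [0, 1, 2, 1, 0, 5, 5, 0, 5, 1, 10, 1, 2, 2, 14, 15, 16]
    chd := [(0, 1), (5, 16)]
    steps := [(0, 7), (0, 4), (1, 3), (1, 9), (1, 11), (2, 12), (2, 13), (5, 6), (5, 8)] }
  rep := [1, 2, 10, 0, 5, 15, 16, 14]

noncomputable def v3014 : Cov.CovD where
  P := 3
  N := 5
  pl := [3, 7, 8]
  lev := [⟨[], [], [(0, 3), (0, 4), (3, 4)], [], [(0, 3, [0]), (1, 4, [6]), (2, 0, [3])]⟩,
    ⟨[], [(0, 0), (0, 3), (0, 4)], [(0, 0), (0, 3)], [2], [(0, 3, [0]), (2, 0, [3]), (4, 0,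
      [3])]⟩,
    ⟨[(0, 1)], [(1, 0), (1, 1), (1, 3)], [(1, 1)], [2], [(5, 1, []), (6, 1, [])]⟩,
    ⟨[(0, 1), (1, 2)], [(0, 0), (1, 0), (1, 1), (1, 3), (2, 0), (2, 1)], [(0, 1)], [], [(2,
      0, [3]), (5, 1, [])]⟩,
    ⟨[(0, 1), (1, 2), (1, 3)], [(0, 3), (1, 0), (1, 3)], [(0, 3)], [7], [(0, 3, [0]), (4,
      0, [3])]⟩,
    ⟨[(1, 2), (2, 3)], [(2, 1), (2, 6), (3, 1)], [(1, 1), (1, 6)], [5], [(5, 1, []), (6, 1,
      []), (9, 6, [4])]⟩,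
    ⟨[(2, 5)], [(0, 4), (2, 1), (3, 1), (5, 1), (5, 4), (5, 6)], [(1, 4)], [5], [(1, 4,
      [6]), (5, 1, [])]⟩]
  Ta := [((2, 1), 0, 4), ((2, 5), 0, 1), ((4, 3), 0, 2), ((4, 7), 0, 7), ((5, 1), 1, 4), ((5, 2),
    1, 0), ((6, 3), 1, 2), ((6, 9), 1, 6)]
  Tb := [((0, 1, 7), 3, 4, 7), ((1, 0, 2), 4, 3, 0), ((1, 0, 5), 4, 3, 1), ((1, 0, 8), 4, 3, 5),
    ((1, 2, 5), 4, 0, 1), ((1, 2, 8), 4, 0, 5), ((1, 5, 8), 4, 1, 5), ((2, 1, 5), 0, 4, 1),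
    ((3, 4, 6), 2, 0, 1), ((4, 3, 7), 0, 2, 7), ((5, 1, 2), 1, 4, 0), ((6, 3, 9), 1, 2, 6),
    ((7, 0, 4), 7, 3, 0), ((8, 1, 9), 5, 4, 6), ((9, 6, 8), 6, 1, 5)]
  Tc := []
  Td := [((0, 3), (2, 1), 4), ((0, 3), (2, 5), 1), ((0, 3), (4, 3), 2), ((0, 3), (4, 7), 7), ((3,
    0), (0, 1), 4), ((3, 0), (0, 7), 7), ((4, 6), (1, 0), 3), ((4, 6), (1, 2), 0), ((4, 6),
    (1, 5), 1), ((4, 6), (1, 8), 5), ((6, 4), (9, 6), 1), ((6, 4), (9, 8), 5)]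
  G := [[0, 0x8ace12484c61681a84624e1242a8e148ce, 0, 0,
    0x898d89cd341854cd544dc4184cd141a191d4459cd1492e], [0, 0, 0,
    0x89cd1248246d181428522d941191d591d628ce, 0x2a8d141848214d9418232d32cd296dd812e], [0, 0,
    0x51958c4494915c889458591de48e1, 0, 0x898d898d6418544d544dc41859cd841591d591d648ad], [0,
    0, 0x591d8242154584a8231d284e1, 0x231d321da14852ad296d328de8143,
    0x291d321dc18252ad32adc4132ad241a3]]

noncomputable def n3014 : Ent := ⟨e3014, noF, [], [], [(15, 14, [1685382413448253767852309107433119732572617628602273068445377249281, 0]), (16, 14, [1580095832788404724998799751142926758855362888449624481876431097857, 0])]⟩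

def c3014 : PLift (Cov.check n3014.C.D v3014 = true) := ⟨by decide +kernel⟩

def b3014 : PLift (entF (fidx ts) 400 3014 n3014 = true) := ⟨by decide +kernel⟩

theorem g3014 : GoodF (fidx ts) 400 3014 := GoodF.ofV v3014 n3014 c3014.down b3014.down

/-- 4864464:2353/6 -/
noncomputable def e3015 : SCfg where
  D := {
    a := 7
    L := 8
    kp := 5
    inn := [(0, 1), (1, 0), (1, 2), (1, 3), (1, 4), (2, 1), (2, 3), (2, 5), (3, 1), (3, 2), (4, 1), (5,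
      2), (5, 6), (6, 5)]
    mix := [(0, 0), (0, 1), (0, 2), (1, 0), (1, 2), (1, 3), (1, 4), (2, 3), (2, 5), (2, 6), (3, 2), (3,
      5), (4, 0), (4, 4), (4, 7), (5, 1), (5, 5), (5, 6), (5, 7), (6, 1), (6, 2), (6, 5)]
    cl := [1, 4, 3, 1, 5, 0, 2, 0]
    chq := [(1, 3), (2, 3), (3, 1), (3, 2)]
    rng := [(0, 1), (0, 7), (1, 0), (1, 2), (1, 7), (2, 1), (2, 5), (3, 4), (3, 6), (4, 3), (4, 7), (5,
      2), (6, 3), (6, 7), (7, 0), (7, 1), (7, 4), (7, 6)]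
    lev := [] }
  links := [[1, 7, 8, 9], [7, 0, 9, 3, 2, 10, 11, 4], [10, 1, 3, 12, 5, 13], [12, 2, 1, 9], [7, 1, 11,
    14], [13, 2, 12, 6, 8, 14], [8, 5, 12, 9]]
  P := {
    a := 7
    N := 15
    nb := [898, 3741, 13354, 4614, 18562, 28996, 4896, 16659, 17121, 4427, 10246, 17426, 620, 17444,
      10672]
    tri := [(0, 1, 7), (0, 1, 9), (0, 7, 8), (0, 8, 9), (1, 2, 3), (1, 2, 10), (1, 3, 9), (1, 4, 7),
      (1, 4, 11), (1, 10, 11), (2, 3, 12), (2, 5, 12), (2, 5, 13), (2, 10, 13), (3, 9, 12), (4, 7,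
      14), (4, 11, 14), (5, 6, 8), (5, 6, 12), (5, 8, 14), (5, 13, 14), (6, 8, 9), (6, 9, 12)]
    fin := [0, 0, 2, 2, 0, 5, 6, 0, 6, 2, 0, 11, 5, 13, 5]
    chd := [(0, 2), (2, 13)]
    steps := [(0, 1), (0, 4), (0, 7), (0, 10), (2, 3), (2, 9), (5, 12), (5, 14), (6, 8)] }
  rep := [5, 0, 13, 2, 6, 11]

noncomputable def v3015 : Cov.CovD where
  P := 3
  N := 3
  pl := [1, 4]
  lev := [⟨[], [], [(1, 3)], [4], [(0, 1, [3]), (2, 3, [1, 2])]⟩,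
    ⟨[], [(0, 1), (0, 3)], [(1, 1), (1, 3)], [5], [(0, 1, [3]), (2, 3, [1, 2]), (3, 1,
      [3])]⟩,
    ⟨[(0, 1)], [(1, 0), (1, 1), (1, 2), (1, 3)], [(0, 1), (0, 2), (1, 2)], [], [(3, 1,
      [3]), (5, 0, []), (6, 2, [3])]⟩,
    ⟨[(0, 1), (1, 2)], [(0, 3), (1, 0), (1, 1), (1, 3), (2, 0), (2, 1), (2, 2), (2, 3)],
      [(0, 3)], [], [(2, 3, [1, 2]), (5, 0, [])]⟩,
    ⟨[(0, 1), (1, 2), (1, 3)], [(0, 1), (1, 0), (1, 1), (1, 3)], [(0, 1)], [5], [(0, 1,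
      [3]), (7, 0, [])]⟩,
    ⟨[(1, 2), (2, 3)], [(2, 0), (2, 1), (2, 2), (3, 0), (4, 0)], [(0, 0), (0, 2)], [4],
      [(5, 0, []), (6, 2, [3]), (7, 0, [])]⟩,
    ⟨[(2, 5)], [(0, 3), (1, 3), (2, 0), (3, 0), (3, 3), (5, 0), (5, 2), (5, 3)], [(0, 3)],
      [4], [(2, 3, [1, 2]), (5, 0, [])]⟩]
  Ta := [((0, 1), 1, 4), ((0, 7), 1, 0), ((3, 4), 1, 5), ((3, 6), 1, 2), ((5, 2), 0, 3), ((7, 0),
    0, 1), ((7, 1), 0, 4), ((7, 4), 0, 5), ((7, 6), 0, 2)]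
  Tb := [((0, 1, 7), 1, 4, 0), ((1, 0, 2), 4, 1, 3), ((1, 0, 7), 4, 1, 0), ((1, 2, 7), 4, 3, 0),
    ((2, 1, 5), 3, 4, 0), ((3, 4, 6), 1, 5, 2), ((4, 3, 7), 5, 1, 0), ((6, 3, 7), 2, 1, 0),
    ((7, 0, 1), 0, 1, 4), ((7, 0, 4), 0, 1, 5), ((7, 0, 6), 0, 1, 2), ((7, 1, 4), 0, 4, 5),
    ((7, 1, 6), 0, 4, 2), ((7, 4, 6), 0, 5, 2)]
  Tc := [(3, 1, 2)]
  Td := [((1, 3), (0, 1), 4), ((1, 3), (0, 7), 0), ((1, 3), (3, 4), 5), ((1, 3), (3, 6), 2), ((2,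
    3), (6, 3), 1), ((2, 3), (6, 7), 0), ((3, 1), (2, 1), 4), ((3, 1), (2, 5), 0), ((3, 2),
    (2, 1), 4), ((3, 2), (2, 5), 0)]
  G := [[0, 0, 0, 0, 0x8814288182c4212844a128c42a22c481d], [0, 0, 0, 0x82c18422c148c22c22813,
    0x2214822428ce224813], [0, 0x8442488284a48818442486824e814248e4182824c14ee,
    0x11611ac2411, 0, 0x62a2c28111a12c281818c4255], [0, 0, 0x2212a2811,
    0x82c82124c84122c22cc28d2, 0x28a26281128281224855]]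

noncomputable def n3015 : Ent := ⟨e3015, noF, [], [], []⟩

def c3015 : PLift (Cov.check n3015.C.D v3015 = true) := ⟨by decide +kernel⟩

def b3015 : PLift (entF (fidx ts) 400 3015 n3015 = true) := ⟨by decide +kernel⟩

theorem g3015 : GoodF (fidx ts) 400 3015 := GoodF.ofV v3015 n3015 c3015.down b3015.down

/-- 4864464:2353/5 -/
noncomputable def e3016 : SCfg where
  D := {
    a := 7
    L := 9
    kp := 6
    inn := [(0, 1), (1, 0), (1, 2), (1, 3), (1, 4), (2, 1), (2, 3), (2, 5), (3, 1), (3, 2), (4, 1), (5,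
      2), (5, 6), (6, 5)]
    mix := [(0, 0), (0, 1), (0, 2), (1, 0), (1, 2), (1, 3), (1, 4), (2, 3), (2, 5), (2, 6), (3, 2), (3,
      5), (4, 0), (4, 4), (4, 7), (5, 1), (5, 5), (5, 6), (5, 8), (6, 1), (6, 2), (6, 5)]
    cl := [1, 4, 0, 2, 0, 3, 3, 5, 6]
    chq := [(0, 1), (1, 0), (3, 4), (4, 3)]
    rng := [(0, 1), (0, 7), (1, 0), (1, 2), (1, 8), (2, 1), (2, 5), (3, 4), (3, 6), (4, 3), (4, 7), (5,
      2), (6, 3), (6, 8), (7, 0), (7, 4), (8, 1), (8, 6)]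
    lev := [] }
  links := [[1, 7, 8, 9], [7, 0, 9, 3, 2, 10, 11, 4], [10, 1, 3, 12, 5, 13], [12, 2, 1, 9], [7, 1, 11,
    14], [13, 2, 12, 6, 8, 15], [8, 5, 12, 9]]
  P := {
    a := 7
    N := 16
    nb := [898, 3741, 13354, 4614, 18562, 45380, 4896, 16659, 33505, 4427, 10246, 17426, 620, 33828,
      2192, 8480]
    tri := [(0, 1, 7), (0, 1, 9), (0, 7, 8), (0, 8, 9), (1, 2, 3), (1, 2, 10), (1, 3, 9), (1, 4, 7),
      (1, 4, 11), (1, 10, 11), (2, 3, 12), (2, 5, 12), (2, 5, 13), (2, 10, 13), (3, 9, 12), (4, 7,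
      14), (4, 11, 14), (5, 6, 8), (5, 6, 12), (5, 8, 15), (5, 13, 15), (6, 8, 9), (6, 9, 12)]
    fin := [0, 1, 2, 1, 0, 5, 5, 0, 5, 1, 10, 1, 2, 2, 14, 15]
    chd := [(0, 1), (5, 2)]
    steps := [(0, 7), (0, 4), (1, 3), (1, 9), (1, 11), (2, 12), (2, 13), (5, 6), (5, 8)] }
  rep := [1, 0, 10, 2, 5, 14, 15]

noncomputable def v3016 : Cov.CovD where
  P := 3
  N := 4
  pl := [3, 7, 8]
  lev := [⟨[], [], [(0, 1), (0, 4), (1, 4)], [], [(0, 1, [0]), (1, 4, [3]), (2, 0, [1])]⟩,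
    ⟨[], [(0, 0), (0, 1), (0, 4)], [(0, 0), (0, 1)], [2], [(0, 1, [0]), (2, 0, [1]), (4, 0,
      [1])]⟩,
    ⟨[(0, 1)], [(1, 0), (1, 1), (1, 3)], [(3, 3)], [2], [(5, 3, [4]), (6, 3, [4])]⟩,
    ⟨[(0, 1), (1, 2)], [(0, 0), (1, 0), (1, 1), (1, 3), (2, 0), (2, 3)], [(0, 3)], [], [(2,
      0, [1]), (5, 3, [4])]⟩,
    ⟨[(0, 1), (1, 2), (1, 3)], [(0, 1), (1, 0), (1, 1)], [(0, 1)], [5], [(0, 1, [0]), (4,
      0, [1])]⟩,
    ⟨[(1, 2), (2, 3)], [(0, 4), (2, 3), (2, 4), (3, 3)], [(3, 3), (3, 4)], [6], [(1, 4,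
      [3]), (5, 3, [4]), (6, 3, [4])]⟩,
    ⟨[(2, 5)], [(0, 0), (0, 4), (1, 0), (2, 3), (3, 0), (3, 3), (5, 0), (5, 3), (5, 4)],
      [(0, 3), (0, 4), (3, 4)], [], [(1, 4, [3]), (2, 0, [1]), (5, 3, [4])]⟩]
  Ta := [((2, 1), 0, 4), ((2, 5), 0, 3), ((4, 3), 0, 2), ((4, 7), 0, 5), ((5, 2), 3, 0), ((6, 3),
    3, 2), ((6, 8), 3, 6)]
  Tb := [((0, 1, 7), 1, 4, 5), ((1, 0, 2), 4, 1, 0), ((1, 0, 8), 4, 1, 6), ((1, 2, 8), 4, 0, 6),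
    ((2, 1, 5), 0, 4, 3), ((3, 4, 6), 2, 0, 3), ((4, 3, 7), 0, 2, 5), ((6, 3, 8), 3, 2, 6),
    ((7, 0, 4), 5, 1, 0), ((8, 1, 6), 6, 4, 3)]
  Tc := []
  Td := [((0, 1), (2, 1), 4), ((0, 1), (2, 5), 3), ((0, 1), (4, 3), 2), ((0, 1), (4, 7), 5), ((1,
    0), (0, 1), 4), ((1, 0), (0, 7), 5), ((3, 4), (5, 2), 0), ((3, 4), (6, 3), 2), ((3, 4),
    (6, 8), 6), ((4, 3), (1, 0), 1), ((4, 3), (1, 2), 0), ((4, 3), (1, 8), 6)]
  G := [[0, 0x84cd84cd62181232236214a, 0, 0x822b1448a2612842ef1258c,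
    0x88a1482ab1438446144451438c], [0, 0x114d814da814822b212bc4186, 0, 0x828b121442471218c,
    0x888b141842271418c], [0, 0x14cd14cda21822322362186,
    0x88482a8224e442c742c7c8846d846dc2ac1, 0x842ef842efc2141, 0x842ef842efc4181], [0,
    0x844d414da814112b822b68146, 0x1414c281ab81ac414668222b282bc4485, 0x842af842afc4181,
    0x842af842afc4181]]

noncomputable def n3016 : Ent := ⟨e3016, noF, [], [], [(15, 14, [385746751338780685620664494392815470296102193487288376384843777, 0])]⟩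

def c3016 : PLift (Cov.check n3016.C.D v3016 = true) := ⟨by decide +kernel⟩

def b3016 : PLift (entF (fidx ts) 400 3016 n3016 = true) := ⟨by decide +kernel⟩

theorem g3016 : GoodF (fidx ts) 400 3016 := GoodF.ofV v3016 n3016 c3016.down b3016.down

/-- 4864464:2353/7 -/
noncomputable def e3017 : SCfg where
  D := {
    a := 7
    L := 9
    kp := 6
    inn := [(0, 1), (1, 0), (1, 2), (1, 3), (1, 4), (2, 1), (2, 3), (2, 5), (3, 1), (3, 2), (4, 1), (5,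
      2), (5, 6), (6, 5)]
    mix := [(0, 0), (0, 1), (0, 2), (1, 0), (1, 2), (1, 3), (1, 4), (2, 3), (2, 5), (2, 6), (3, 2), (3,
      5), (4, 0), (4, 4), (4, 7), (5, 1), (5, 5), (5, 6), (5, 8), (6, 1), (6, 5), (6, 7)]
    cl := [2, 3, 0, 5, 0, 1, 1, 4, 6]
    chq := [(0, 2), (2, 0), (4, 6), (6, 4)]
    rng := [(0, 1), (0, 7), (1, 0), (1, 2), (1, 7), (1, 8), (2, 1), (2, 5), (3, 4), (3, 6), (4, 3), (4,
      7), (5, 2), (5, 7), (6, 3), (6, 8), (7, 0), (7, 1), (7, 4), (7, 5), (8, 1), (8, 6)]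
    lev := [] }
  links := [[1, 7, 8, 9], [7, 0, 9, 3, 2, 10, 11, 4], [10, 1, 3, 12, 5, 13], [12, 2, 1, 9], [7, 1, 11,
    14], [13, 2, 12, 6, 8, 15], [8, 5, 12, 14]]
  P := {
    a := 7
    N := 16
    nb := [898, 3741, 13354, 4614, 18562, 45380, 20768, 16659, 49889, 4363, 10246, 17426, 17004,
      33828, 6608, 8480]
    tri := [(0, 1, 7), (0, 1, 9), (0, 7, 8), (0, 8, 9), (1, 2, 3), (1, 2, 10), (1, 3, 9), (1, 4, 7),
      (1, 4, 11), (1, 10, 11), (2, 3, 12), (2, 5, 12), (2, 5, 13), (2, 10, 13), (3, 9, 12), (4, 7,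
      14), (4, 11, 14), (5, 6, 8), (5, 6, 12), (5, 8, 15), (5, 13, 15), (6, 8, 14), (6, 12, 14)]
    fin := [0, 1, 2, 1, 0, 5, 5, 0, 8, 1, 10, 1, 2, 2, 5, 15]
    chd := [(0, 1), (5, 15)]
    steps := [(0, 7), (0, 4), (1, 3), (1, 9), (1, 11), (2, 12), (2, 13), (5, 6), (5, 14)] }
  rep := [1, 2, 0, 8, 5, 10, 15]

noncomputable def v3017 : Cov.CovD where
  P := 3
  N := 4
  pl := [1, 3]
  lev := [⟨[], [], [(0, 2)], [3], [(0, 2, [0]), (2, 0, [2])]⟩,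
    ⟨[], [(0, 0), (0, 2)], [(0, 0), (0, 2)], [5], [(0, 2, [0]), (2, 0, [2]), (4, 0, [2])]⟩,
    ⟨[(0, 1)], [(1, 0), (1, 1), (1, 2)], [(1, 1)], [5], [(5, 1, []), (6, 1, [])]⟩,
    ⟨[(0, 1), (1, 2)], [(0, 0), (1, 0), (1, 1), (1, 2), (2, 0), (2, 1)], [(0, 1)], [], [(2,
      0, [2]), (5, 1, [])]⟩,
    ⟨[(0, 1), (1, 2), (1, 3)], [(0, 2), (1, 0), (1, 2), (1, 4)], [(0, 2), (0, 4), (2, 4)],
      [], [(0, 2, [0]), (4, 0, [2]), (7, 4, [6])]⟩,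
    ⟨[(1, 2), (2, 3)], [(2, 1), (2, 6), (3, 1)], [(1, 1), (1, 6)], [3], [(5, 1, []), (6, 1,
      []), (8, 6, [4])]⟩,
    ⟨[(2, 5)], [(2, 1), (3, 1), (4, 4), (5, 1), (5, 4), (5, 6)], [(1, 4)], [3], [(5, 1,
      []), (7, 4, [6])]⟩]
  Ta := [((2, 1), 0, 3), ((2, 5), 0, 1), ((4, 3), 0, 5), ((4, 7), 0, 4), ((5, 2), 1, 0), ((5, 7),
    1, 4), ((6, 3), 1, 5), ((6, 8), 1, 6)]
  Tb := [((0, 1, 7), 2, 3, 4), ((1, 0, 2), 3, 2, 0), ((1, 0, 7), 3, 2, 4), ((1, 0, 8), 3, 2, 6),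
    ((1, 2, 7), 3, 0, 4), ((1, 2, 8), 3, 0, 6), ((1, 7, 8), 3, 4, 6), ((2, 1, 5), 0, 3, 1),
    ((3, 4, 6), 5, 0, 1), ((4, 3, 7), 0, 5, 4), ((5, 2, 7), 1, 0, 4), ((6, 3, 8), 1, 5, 6),
    ((7, 0, 1), 4, 2, 3), ((7, 0, 4), 4, 2, 0), ((7, 0, 5), 4, 2, 1), ((7, 1, 4), 4, 3, 0),
    ((7, 1, 5), 4, 3, 1), ((7, 4, 5), 4, 0, 1), ((8, 1, 6), 6, 3, 1)]
  Tc := []
  Td := [((0, 2), (2, 1), 3), ((0, 2), (2, 5), 1), ((0, 2), (4, 3), 5), ((0, 2), (4, 7), 4), ((2,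
    0), (0, 1), 3), ((2, 0), (0, 7), 4), ((4, 6), (7, 0), 2), ((4, 6), (7, 1), 3), ((4, 6),
    (7, 4), 0), ((4, 6), (7, 5), 1), ((6, 4), (8, 1), 3), ((6, 4), (8, 6), 1)]
  G := [[0, 0x68a14268a124ca46128a46182cc, 0x4114641218914cc8126, 0x589141589181c915148945181cc,
    0x58c18121c51412a], [0, 0, 0x18922418924161252811452816c, 0x389141229141c225181945121cc,
    0x58922158c281a225248115184aa], [0, 0, 0x8118a81214844dc412a,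
    0x445441844818d18c4d14841898814144dc8dc1, 0x111d111da414cd114da8921], [0, 0,
    0x18924181452812222d2414e, 0x145441418c2818d18c2d1898814144dc25c1, 0x216d284116d281a1]]

noncomputable def n3017 : Ent := ⟨e3017, noF, [], [], []⟩

def c3017 : PLift (Cov.check n3017.C.D v3017 = true) := ⟨by decide +kernel⟩

def b3017 : PLift (entF (fidx ts) 400 3017 n3017 = true) := ⟨by decide +kernel⟩

theorem g3017 : GoodF (fidx ts) 400 3017 := GoodF.ofV v3017 n3017 c3017.down b3017.down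

/-- 4864464:2353/8 -/
noncomputable def e3018 : SCfg where
  D := {
    a := 7
    L := 9
    kp := 6
    inn := [(0, 1), (1, 0), (1, 2), (1, 3), (1, 4), (2, 1), (2, 3), (2, 5), (3, 1), (3, 2), (4, 1), (5,
      2), (5, 6), (6, 5)]
    mix := [(0, 0), (0, 1), (0, 2), (1, 0), (1, 2), (1, 3), (1, 4), (2, 3), (2, 5), (2, 6), (3, 2), (3,
      5), (4, 0), (4, 4), (4, 7), (5, 1), (5, 5), (5, 6), (5, 7), (6, 1), (6, 5), (6, 8)]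
    cl := [1, 4, 3, 1, 5, 0, 2, 0, 6]
    chq := [(1, 3), (2, 3), (3, 1), (3, 2)]
    rng := [(0, 1), (0, 7), (1, 0), (1, 2), (1, 7), (1, 8), (2, 1), (2, 5), (3, 4), (3, 6), (4, 3), (4,
      7), (5, 2), (5, 8), (6, 3), (6, 7), (7, 0), (7, 1), (7, 4), (7, 6), (8, 1), (8, 5)]
    lev := [] }
  links := [[1, 7, 8, 9], [7, 0, 9, 3, 2, 10, 11, 4], [10, 1, 3, 12, 5, 13], [12, 2, 1, 9], [7, 1, 11,
    14], [13, 2, 12, 6, 8, 14], [8, 5, 12, 15]]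
  P := {
    a := 7
    N := 16
    nb := [898, 3741, 13354, 4614, 18562, 28996, 37152, 16659, 49889, 4363, 10246, 17426, 33388,
      17444, 10672, 4416]
    tri := [(0, 1, 7), (0, 1, 9), (0, 7, 8), (0, 8, 9), (1, 2, 3), (1, 2, 10), (1, 3, 9), (1, 4, 7),
      (1, 4, 11), (1, 10, 11), (2, 3, 12), (2, 5, 12), (2, 5, 13), (2, 10, 13), (3, 9, 12), (4, 7,
      14), (4, 11, 14), (5, 6, 8), (5, 6, 12), (5, 8, 14), (5, 13, 14), (6, 8, 15), (6, 12, 15)]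
    fin := [0, 0, 2, 2, 0, 5, 6, 0, 6, 2, 0, 11, 5, 13, 5, 15]
    chd := [(0, 2), (2, 13)]
    steps := [(0, 1), (0, 4), (0, 7), (0, 10), (2, 3), (2, 9), (5, 12), (5, 14), (6, 8)] }
  rep := [5, 0, 13, 2, 6, 11, 15]

noncomputable def v3018 : Cov.CovD where
  P := 3
  N := 4
  pl := [1, 4, 8]
  lev := [⟨[], [], [(1, 3)], [4], [(0, 1, [3]), (2, 3, [1, 2])]⟩,
    ⟨[], [(0, 1), (0, 3)], [(1, 1), (1, 3)], [5], [(0, 1, [3]), (2, 3, [1, 2]), (3, 1,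
      [3])]⟩,
    ⟨[(0, 1)], [(1, 0), (1, 1), (1, 2), (1, 3)], [(0, 1), (0, 2), (1, 2)], [], [(3, 1,
      [3]), (5, 0, []), (6, 2, [3])]⟩,
    ⟨[(0, 1), (1, 2)], [(0, 3), (1, 0), (1, 1), (1, 3), (2, 0), (2, 1), (2, 2), (2, 3)],
      [(0, 3)], [], [(2, 3, [1, 2]), (5, 0, [])]⟩,
    ⟨[(0, 1), (1, 2), (1, 3)], [(0, 1), (1, 0), (1, 1), (1, 3)], [(0, 1)], [5], [(0, 1,
      [3]), (7, 0, [])]⟩,
    ⟨[(1, 2), (2, 3)], [(2, 0), (2, 1), (2, 2), (3, 0), (4, 0)], [(0, 0), (0, 2)], [4],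
      [(5, 0, []), (6, 2, [3]), (7, 0, [])]⟩,
    ⟨[(2, 5)], [(2, 0), (3, 0), (5, 0), (5, 2)], [], [4, 6], [(5, 0, [])]⟩]
  Ta := [((0, 1), 1, 4), ((0, 7), 1, 0), ((3, 4), 1, 5), ((3, 6), 1, 2), ((5, 2), 0, 3), ((5, 8),
    0, 6), ((7, 0), 0, 1), ((7, 1), 0, 4), ((7, 4), 0, 5), ((7, 6), 0, 2)]
  Tb := [((0, 1, 7), 1, 4, 0), ((1, 0, 2), 4, 1, 3), ((1, 0, 7), 4, 1, 0), ((1, 0, 8), 4, 1, 6),
    ((1, 2, 7), 4, 3, 0), ((1, 2, 8), 4, 3, 6), ((1, 7, 8), 4, 0, 6), ((2, 1, 5), 3, 4, 0),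
    ((3, 4, 6), 1, 5, 2), ((4, 3, 7), 5, 1, 0), ((5, 2, 8), 0, 3, 6), ((6, 3, 7), 2, 1, 0),
    ((7, 0, 1), 0, 1, 4), ((7, 0, 4), 0, 1, 5), ((7, 0, 6), 0, 1, 2), ((7, 1, 4), 0, 4, 5),
    ((7, 1, 6), 0, 4, 2), ((7, 4, 6), 0, 5, 2), ((8, 1, 5), 6, 4, 0)]
  Tc := [(3, 1, 2)]
  Td := [((1, 3), (0, 1), 4), ((1, 3), (0, 7), 0), ((1, 3), (3, 4), 5), ((1, 3), (3, 6), 2), ((2,
    3), (6, 3), 1), ((2, 3), (6, 7), 0), ((3, 1), (2, 1), 4), ((3, 1), (2, 5), 0), ((3, 2),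
    (2, 1), 4), ((3, 2), (2, 5), 0)]
  G := [[0, 0, 0, 0, 0xe8142e8182c6212862128c6262c2c8c8c4a1d], [0, 0, 0,
    0x6412a818c6414a812cc4422a2c22c13, 0xe2128e2128ce222813], [0,
    0x181862418484a1414a281484861482418428144188c4ee, 0x11a11ac2411, 0,
    0x62166c2811411ac281884855], [0, 0, 0x1212a2811, 0x11c48411c42816c71cc28d2,
    0xc268a281122281282855]]

noncomputable def n3018 : Ent := ⟨e3018, noF, [], [], [(9, 15, [360035742630636841211993100915356868655746945586763691020021761, 0])]⟩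

def c3018 : PLift (Cov.check n3018.C.D v3018 = true) := ⟨by decide +kernel⟩

def b3018 : PLift (entF (fidx ts) 400 3018 n3018 = true) := ⟨by decide +kernel⟩

theorem g3018 : GoodF (fidx ts) 400 3018 := GoodF.ofV v3018 n3018 c3018.down b3018.down

/-- 4864464:2353/4 -/
noncomputable def e3019 : SCfg where
  D := {
    a := 7
    L := 10
    kp := 7
    inn := [(0, 1), (1, 0), (1, 2), (1, 3), (1, 4), (2, 1), (2, 3), (2, 5), (3, 1), (3, 2), (4, 1), (5,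
      2), (5, 6), (6, 5)]
    mix := [(0, 0), (0, 1), (0, 2), (1, 0), (1, 2), (1, 3), (1, 4), (2, 3), (2, 5), (2, 6), (3, 2), (3,
      5), (4, 0), (4, 4), (4, 7), (5, 1), (5, 5), (5, 6), (5, 8), (6, 1), (6, 5), (6, 9)]
    cl := [1, 4, 0, 2, 0, 3, 3, 7, 5, 6]
    chq := [(0, 1), (1, 0), (5, 6), (6, 5)]
    rng := [(0, 1), (0, 7), (1, 0), (1, 2), (1, 8), (1, 9), (2, 1), (2, 5), (3, 4), (3, 6), (4, 3), (4,
      7), (5, 2), (5, 9), (6, 3), (6, 8), (7, 0), (7, 4), (8, 1), (8, 6), (9, 1), (9, 5)]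
    lev := [] }
  links := [[1, 7, 8, 9], [7, 0, 9, 3, 2, 10, 11, 4], [10, 1, 3, 12, 5, 13], [12, 2, 1, 9], [7, 1, 11,
    14], [13, 2, 12, 6, 8, 15], [8, 5, 12, 16]]
  P := {
    a := 7
    N := 17
    nb := [898, 3741, 13354, 4614, 18562, 45380, 69920, 16659, 99041, 4363, 10246, 17426, 66156,
      33828, 2192, 8480, 4416]
    tri := [(0, 1, 7), (0, 1, 9), (0, 7, 8), (0, 8, 9), (1, 2, 3), (1, 2, 10), (1, 3, 9), (1, 4, 7),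
      (1, 4, 11), (1, 10, 11), (2, 3, 12), (2, 5, 12), (2, 5, 13), (2, 10, 13), (3, 9, 12), (4, 7,
      14), (4, 11, 14), (5, 6, 8), (5, 6, 12), (5, 8, 15), (5, 13, 15), (6, 8, 16), (6, 12, 16)]
    fin := [0, 1, 2, 1, 0, 5, 5, 0, 8, 1, 10, 1, 2, 2, 14, 15, 5]
    chd := [(0, 1), (15, 5)]
    steps := [(0, 7), (0, 4), (1, 3), (1, 9), (1, 11), (2, 12), (2, 13), (5, 6), (5, 16)] }
  rep := [1, 0, 10, 2, 8, 15, 5, 14]

noncomputable def v3019 : Cov.CovD where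
  P := 3
  N := 5
  pl := [1, 3, 7]
  lev := [⟨[], [], [(0, 1)], [4], [(0, 1, [0]), (2, 0, [1])]⟩,
    ⟨[], [(0, 0), (0, 1)], [(0, 0), (0, 1)], [2], [(0, 1, [0]), (2, 0, [1]), (4, 0, [1])]⟩,
    ⟨[(0, 1)], [(1, 0), (1, 1), (1, 3)], [(3, 3)], [2], [(5, 3, []), (6, 3, [])]⟩,
    ⟨[(0, 1), (1, 2)], [(0, 0), (1, 0), (1, 1), (1, 3), (2, 0), (2, 3)], [(0, 3)], [], [(2,
      0, [1]), (5, 3, [])]⟩,
    ⟨[(0, 1), (1, 2), (1, 3)], [(0, 1), (1, 0), (1, 1)], [(0, 1)], [7], [(0, 1, [0]), (4,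
      0, [1])]⟩,
    ⟨[(1, 2), (2, 3)], [(2, 3), (2, 5), (3, 3)], [(3, 3), (3, 5)], [4], [(5, 3, []), (6, 3,
      []), (8, 5, [6])]⟩,
    ⟨[(2, 5)], [(2, 3), (3, 3), (5, 3), (5, 5), (5, 6)], [(3, 6)], [4], [(5, 3, []), (9, 6,
      [5])]⟩]
  Ta := [((2, 1), 0, 4), ((2, 5), 0, 3), ((4, 3), 0, 2), ((4, 7), 0, 7), ((5, 2), 3, 0), ((5, 9),
    3, 6), ((6, 3), 3, 2), ((6, 8), 3, 5)]
  Tb := [((0, 1, 7), 1, 4, 7), ((1, 0, 2), 4, 1, 0), ((1, 0, 8), 4, 1, 5), ((1, 0, 9), 4, 1, 6),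
    ((1, 2, 8), 4, 0, 5), ((1, 2, 9), 4, 0, 6), ((1, 8, 9), 4, 5, 6), ((2, 1, 5), 0, 4, 3),
    ((3, 4, 6), 2, 0, 3), ((4, 3, 7), 0, 2, 7), ((5, 2, 9), 3, 0, 6), ((6, 3, 8), 3, 2, 5),
    ((7, 0, 4), 7, 1, 0), ((8, 1, 6), 5, 4, 3), ((9, 1, 5), 6, 4, 3)]
  Tc := []
  Td := [((0, 1), (2, 1), 4), ((0, 1), (2, 5), 3), ((0, 1), (4, 3), 2), ((0, 1), (4, 7), 7), ((1,
    0), (0, 1), 4), ((1, 0), (0, 7), 7), ((5, 6), (8, 1), 4), ((5, 6), (8, 6), 3), ((6, 5),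
    (9, 1), 4), ((6, 5), (9, 5), 3)]
  G := [[0, 0x11cd11cd6218123123c218a, 0, 0x78a121231294a461835e71294c,
    0x69a145a91438a46149451438c], [0, 0x118b188b621811471447a814c, 0, 0x588b121431471814c,
    0x388b1418a1271418c], [0, 0x11cd11cda21812312362146,
    0x14145c14811a4441c3183c188c128169129c6ac5, 0x111ef111efc2181, 0x111ef111efc4181], [0,
    0x118b188b641811471127a814c, 0x1a9a1c1411cc611ab11abc4681, 0x1116f1116fc8141,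
    0x111af111afc4181]]

noncomputable def n3019 : Ent := ⟨e3019, noF, [], [], [(9, 16, [1580044410770988437309982408355971841652082177953823432505701466113, 0]), (16, 14, [1580095832788404724998799751142926758855362888449624481876431114241, 0]), (15, 14, [1685382413448253767852309107433119732572617628602273068445377273857, 0])]⟩

def c3019 : PLift (Cov.check n3019.C.D v3019 = true) := ⟨by decide +kernel⟩

def b3019 : PLift (entF (fidx ts) 400 3019 n3019 = true) := ⟨by decide +kernel⟩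

theorem g3019 : GoodF (fidx ts) 400 3019 := GoodF.ofV v3019 n3019 c3019.down b3019.down

/-- 4864464:2353/10 -/
noncomputable def e3020 : SCfg where
  D := {
    a := 7
    L := 9
    kp := 6
    inn := [(0, 1), (1, 0), (1, 2), (1, 3), (1, 4), (2, 1), (2, 3), (2, 5), (3, 1), (3, 2), (4, 1), (5,
      2), (5, 6), (6, 5)]
    mix := [(0, 0), (0, 1), (0, 2), (1, 0), (1, 2), (1, 3), (1, 4), (2, 3), (2, 5), (2, 6), (3, 2), (3,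
      5), (4, 0), (4, 4), (4, 7), (5, 5), (5, 6), (5, 7), (5, 8), (6, 2), (6, 5), (6, 8)]
    cl := [0, 6, 1, 0, 4, 2, 2, 3, 5]
    chq := [(0, 1), (1, 0), (1, 3), (3, 1)]
    rng := [(0, 1), (0, 7), (1, 0), (1, 2), (2, 1), (2, 5), (2, 8), (3, 4), (3, 6), (4, 3), (4, 7), (5,
      2), (6, 3), (6, 7), (7, 0), (7, 4), (7, 6), (7, 8), (8, 2), (8, 7)]
    lev := [] }
  links := [[1, 7, 8, 9], [7, 0, 9, 3, 2, 10, 11, 4], [10, 1, 3, 12, 5, 13], [12, 2, 1, 9], [7, 1, 11,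
    14], [13, 2, 12, 6, 15, 14], [15, 5, 12, 9]]
  P := {
    a := 7
    N := 16
    nb := [898, 3741, 13354, 4614, 18562, 61508, 37408, 16659, 641, 37195, 10246, 17426, 620, 17444,
      43184, 16992]
    tri := [(0, 1, 7), (0, 1, 9), (0, 7, 8), (0, 8, 9), (1, 2, 3), (1, 2, 10), (1, 3, 9), (1, 4, 7),
      (1, 4, 11), (1, 10, 11), (2, 3, 12), (2, 5, 12), (2, 5, 13), (2, 10, 13), (3, 9, 12), (4, 7,
      14), (4, 11, 14), (5, 6, 12), (5, 6, 15), (5, 13, 14), (5, 14, 15), (6, 9, 12), (6, 9, 15)]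
    fin := [0, 0, 2, 0, 0, 5, 5, 0, 8, 5, 0, 11, 2, 2, 14, 15]
    chd := [(0, 5), (5, 14)]
    steps := [(0, 1), (0, 3), (0, 4), (0, 7), (0, 10), (2, 12), (2, 13), (5, 6), (5, 9)] }
  rep := [0, 5, 2, 14, 11, 15, 8]

noncomputable def v3020 : Cov.CovD where
  P := 3
  N := 4
  pl := [1, 4, 8]
  lev := [⟨[], [], [(0, 1)], [6], [(0, 0, [1]), (2, 1, [0, 3])]⟩,
    ⟨[], [(0, 0), (0, 1)], [(0, 0), (0, 1)], [4], [(0, 0, [1]), (2, 1, [0, 3]), (3, 0,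
      [1])]⟩,
    ⟨[(0, 1)], [(1, 0), (1, 1), (1, 2)], [(0, 2), (2, 2)], [], [(3, 0, [1]), (5, 2, []),
      (6, 2, [])]⟩,
    ⟨[(0, 1), (1, 2)], [(0, 1), (1, 0), (1, 1), (1, 2), (2, 0), (2, 1), (2, 2)], [(1, 2)],
      [], [(2, 1, [0, 3]), (5, 2, [])]⟩,
    ⟨[(0, 1), (1, 2), (1, 3)], [(0, 0), (1, 0), (1, 1), (1, 3)], [(0, 3)], [4], [(0, 0,
      [1]), (7, 3, [1])]⟩,
    ⟨[(1, 2), (2, 3)], [(2, 0), (2, 2), (2, 3), (3, 2), (4, 3)], [(2, 2), (2, 3)], [5],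
      [(5, 2, []), (6, 2, []), (7, 3, [1])]⟩,
    ⟨[(2, 5)], [(0, 1), (1, 1), (2, 2), (3, 1), (3, 2), (5, 1), (5, 2), (5, 3)], [(1, 2)],
      [5], [(2, 1, [0, 3]), (5, 2, [])]⟩]
  Ta := [((0, 1), 0, 6), ((0, 7), 0, 3), ((3, 4), 0, 4), ((3, 6), 0, 2), ((5, 2), 2, 1), ((6, 3),
    2, 0), ((6, 7), 2, 3)]
  Tb := [((0, 1, 7), 0, 6, 3), ((1, 0, 2), 6, 0, 1), ((2, 1, 5), 1, 6, 2), ((2, 1, 8), 1, 6, 5),
    ((2, 5, 8), 1, 2, 5), ((3, 4, 6), 0, 4, 2), ((4, 3, 7), 4, 0, 3), ((6, 3, 7), 2, 0, 3),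
    ((7, 0, 4), 3, 0, 4), ((7, 0, 6), 3, 0, 2), ((7, 0, 8), 3, 0, 5), ((7, 4, 6), 3, 4, 2),
    ((7, 4, 8), 3, 4, 5), ((7, 6, 8), 3, 2, 5), ((8, 2, 7), 5, 1, 3)]
  Tc := [(1, 0, 3)]
  Td := [((0, 1), (0, 1), 6), ((0, 1), (0, 7), 3), ((0, 1), (3, 4), 4), ((0, 1), (3, 6), 2), ((1,
    0), (2, 1), 6), ((1, 0), (2, 5), 2), ((1, 0), (2, 8), 5), ((1, 3), (2, 1), 6), ((1, 3),
    (2, 5), 2), ((1, 3), (2, 8), 5), ((3, 1), (7, 0), 0), ((3, 1), (7, 4), 4), ((3, 1), (7,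
    6), 2), ((3, 1), (7, 8), 5)]
  G := [[0, 0xc12882c11184c11148e, 0, 0x891d21441541819819a1cc849915915e14112884c289cc,
    0x891b212198b418c983913618881a891b282cc], [0, 0xc11248a11882c11144e, 0, 0,
    0x841b212849943819e82c849413413e12841b212cc], [0, 0xc11448c11184c11182e, 0,
    0x849815a144854141921cc1, 0x281b212813488c1], [0, 0xa11882611488c11244e,
    0x84a8c6a1412248688652c1, 0, 0x41328198c281341a682c1]]

noncomputable def n3020 : Ent := ⟨e3020, noF, [], [], [(8, 15, [360035742630636841211993100915356868655746945586763691020021761, 0])]⟩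

def c3020 : PLift (Cov.check n3020.C.D v3020 = true) := ⟨by decide +kernel⟩

def b3020 : PLift (entF (fidx ts) 400 3020 n3020 = true) := ⟨by decide +kernel⟩

theorem g3020 : GoodF (fidx ts) 400 3020 := GoodF.ofV v3020 n3020 c3020.down b3020.down

/-- 4864464:2353/9 -/
noncomputable def e3021 : SCfg where
  D := {
    a := 7
    L := 10
    kp := 7
    inn := [(0, 1), (1, 0), (1, 2), (1, 3), (1, 4), (2, 1), (2, 3), (2, 5), (3, 1), (3, 2), (4, 1), (5,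
      2), (5, 6), (6, 5)]
    mix := [(0, 0), (0, 1), (0, 2), (1, 0), (1, 2), (1, 3), (1, 4), (2, 3), (2, 5), (2, 6), (3, 2), (3,
      5), (4, 0), (4, 4), (4, 7), (5, 5), (5, 6), (5, 8), (5, 9), (6, 2), (6, 5), (6, 8)]
    cl := [1, 5, 0, 2, 0, 3, 3, 6, 4, 7]
    chq := [(0, 1), (1, 0), (3, 4), (4, 3)]
    rng := [(0, 1), (0, 7), (1, 0), (1, 2), (2, 1), (2, 5), (2, 8), (3, 4), (3, 6), (4, 3), (4, 7), (5,
      2), (6, 3), (6, 9), (7, 0), (7, 4), (8, 2), (8, 9), (9, 6), (9, 8)]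
    lev := [] }
  links := [[1, 7, 8, 9], [7, 0, 9, 3, 2, 10, 11, 4], [10, 1, 3, 12, 5, 13], [12, 2, 1, 9], [7, 1, 11,
    14], [13, 2, 12, 6, 15, 16], [15, 5, 12, 9]]
  P := {
    a := 7
    N := 17
    nb := [898, 3741, 13354, 4614, 18562, 110660, 37408, 16659, 641, 37195, 10246, 17426, 620, 66596,
      2192, 66144, 40992]
    tri := [(0, 1, 7), (0, 1, 9), (0, 7, 8), (0, 8, 9), (1, 2, 3), (1, 2, 10), (1, 3, 9), (1, 4, 7),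
      (1, 4, 11), (1, 10, 11), (2, 3, 12), (2, 5, 12), (2, 5, 13), (2, 10, 13), (3, 9, 12), (4, 7,
      14), (4, 11, 14), (5, 6, 12), (5, 6, 15), (5, 13, 16), (5, 15, 16), (6, 9, 12), (6, 9, 15)]
    fin := [0, 1, 1, 1, 0, 5, 1, 0, 8, 1, 10, 1, 5, 5, 14, 15, 16]
    chd := [(0, 1), (5, 15)]
    steps := [(0, 7), (0, 4), (1, 2), (1, 3), (1, 9), (1, 11), (5, 12), (1, 6), (5, 13)] }
  rep := [1, 0, 10, 5, 15, 8, 14, 16]

noncomputable def v3021 : Cov.CovD where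
  P := 3
  N := 5
  pl := [1, 3, 7, 9]
  lev := [⟨[], [], [(0, 1)], [5], [(0, 1, [0]), (2, 0, [1])]⟩,
    ⟨[], [(0, 0), (0, 1)], [(0, 0), (0, 1)], [2], [(0, 1, [0]), (2, 0, [1]), (4, 0, [1])]⟩,
    ⟨[(0, 1)], [(1, 0), (1, 1), (1, 3)], [(3, 3)], [2], [(5, 3, [4]), (6, 3, [4])]⟩,
    ⟨[(0, 1), (1, 2)], [(0, 0), (1, 0), (1, 1), (1, 3), (2, 0), (2, 3)], [(0, 3)], [], [(2,
      0, [1]), (5, 3, [4])]⟩,
    ⟨[(0, 1), (1, 2), (1, 3)], [(0, 1), (1, 0), (1, 1)], [(0, 1)], [6], [(0, 1, [0]), (4,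
      0, [1])]⟩,
    ⟨[(1, 2), (2, 3)], [(2, 3), (2, 4), (3, 3)], [(3, 3), (3, 4)], [7], [(5, 3, [4]), (6,
      3, [4]), (8, 4, [3])]⟩,
    ⟨[(2, 5)], [(0, 0), (1, 0), (2, 3), (3, 0), (3, 3), (5, 0), (5, 3), (5, 4)], [(0, 3),
      (0, 4), (3, 4)], [], [(2, 0, [1]), (5, 3, [4]), (8, 4, [3])]⟩]
  Ta := [((2, 1), 0, 5), ((2, 5), 0, 3), ((2, 8), 0, 4), ((4, 3), 0, 2), ((4, 7), 0, 6), ((5, 2),
    3, 0), ((6, 3), 3, 2), ((6, 9), 3, 7)]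
  Tb := [((0, 1, 7), 1, 5, 6), ((1, 0, 2), 5, 1, 0), ((2, 1, 5), 0, 5, 3), ((2, 1, 8), 0, 5, 4),
    ((2, 5, 8), 0, 3, 4), ((3, 4, 6), 2, 0, 3), ((4, 3, 7), 0, 2, 6), ((6, 3, 9), 3, 2, 7),
    ((7, 0, 4), 6, 1, 0), ((8, 2, 9), 4, 0, 7), ((9, 6, 8), 7, 3, 4)]
  Tc := []
  Td := [((0, 1), (2, 1), 5), ((0, 1), (2, 5), 3), ((0, 1), (2, 8), 4), ((0, 1), (4, 3), 2), ((0,
    1), (4, 7), 6), ((1, 0), (0, 1), 5), ((1, 0), (0, 7), 6), ((3, 4), (5, 2), 0), ((3, 4),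
    (6, 3), 2), ((3, 4), (6, 9), 7), ((4, 3), (8, 2), 0), ((4, 3), (8, 9), 7)]
  G := [[0, 0x112ef112ef6218142ef811efa218c, 0, 0x642e12842ef1294642e12842ef1294c,
    0xc2184c16842ef143884ce18842ef1438c], [0, 0x811af142af6418841cf812cfc214a, 0,
    0x842cf1218842cf1218c, 0x842cf1218842cf1218c], [0, 0x842ef811ef6214811ef811efa214c,
    0x82a824bc4442c74287c8846d842dc2ac1, 0x842ef842efc2181, 0x842ef842efc4181], [0,
    0x111cf142cf6214416146d826be814a, 0x828b829c488a484c445c664247446c88c1,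
    0x842cf842cfc2181, 0x842af842afc4181]]

noncomputable def n3021 : Ent := ⟨e3021, noF, [], [], [(8, 15, [1685356702439545624007900436039642273970977273354372543760012443649, 0]), (16, 14, [1580095832788404724998799751142926758855362888449624481876431126529, 0])]⟩

def c3021 : PLift (Cov.check n3021.C.D v3021 = true) := ⟨by decide +kernel⟩

def b3021 : PLift (entF (fidx ts) 400 3021 n3021 = true) := ⟨by decide +kernel⟩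

theorem g3021 : GoodF (fidx ts) 400 3021 := GoodF.ofV v3021 n3021 c3021.down b3021.down

/-- 4864464:2353/11 -/
noncomputable def e3022 : SCfg where
  D := {
    a := 7
    L := 10
    kp := 7
    inn := [(0, 1), (1, 0), (1, 2), (1, 3), (1, 4), (2, 1), (2, 3), (2, 5), (3, 1), (3, 2), (4, 1), (5,
      2), (5, 6), (6, 5)]
    mix := [(0, 0), (0, 1), (0, 2), (1, 0), (1, 2), (1, 3), (1, 4), (2, 3), (2, 5), (2, 6), (3, 2), (3,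
      5), (4, 0), (4, 4), (4, 7), (5, 5), (5, 6), (5, 8), (5, 9), (6, 5), (6, 7), (6, 8)]
    cl := [3, 7, 0, 2, 0, 1, 1, 4, 5, 6]
    chq := [(0, 3), (3, 0), (4, 6), (6, 4)]
    rng := [(0, 1), (0, 7), (1, 0), (1, 2), (2, 1), (2, 5), (3, 4), (3, 6), (4, 3), (4, 7), (5, 2), (5,
      7), (6, 3), (6, 9), (7, 0), (7, 4), (7, 5), (7, 8), (8, 7), (8, 9), (9, 6), (9, 8)]
    lev := [] }
  links := [[1, 7, 8, 9], [7, 0, 9, 3, 2, 10, 11, 4], [10, 1, 3, 12, 5, 13], [12, 2, 1, 9], [7, 1, 11,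
    14], [13, 2, 12, 6, 15, 16], [15, 5, 12, 14]]
  P := {
    a := 7
    N := 17
    nb := [898, 3741, 13354, 4614, 18562, 110660, 53280, 16659, 641, 4363, 10246, 17426, 17004, 66596,
      39120, 82016, 40992]
    tri := [(0, 1, 7), (0, 1, 9), (0, 7, 8), (0, 8, 9), (1, 2, 3), (1, 2, 10), (1, 3, 9), (1, 4, 7),
      (1, 4, 11), (1, 10, 11), (2, 3, 12), (2, 5, 12), (2, 5, 13), (2, 10, 13), (3, 9, 12), (4, 7,
      14), (4, 11, 14), (5, 6, 12), (5, 6, 15), (5, 13, 16), (5, 15, 16), (6, 12, 14), (6, 14,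
      15)]
    fin := [0, 1, 2, 1, 0, 5, 5, 0, 8, 1, 10, 1, 2, 2, 5, 15, 16]
    chd := [(0, 1), (5, 16)]
    steps := [(0, 7), (0, 4), (1, 3), (1, 9), (1, 11), (2, 12), (2, 13), (5, 6), (5, 14)] }
  rep := [1, 2, 10, 0, 5, 15, 16, 8]

noncomputable def v3022 : Cov.CovD where
  P := 3
  N := 5
  pl := [1, 3, 8]
  lev := [⟨[], [], [(0, 3)], [7], [(0, 3, [0]), (2, 0, [3])]⟩,
    ⟨[], [(0, 0), (0, 3)], [(0, 0), (0, 3)], [2], [(0, 3, [0]), (2, 0, [3]), (4, 0, [3])]⟩,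
    ⟨[(0, 1)], [(1, 0), (1, 1), (1, 3)], [(1, 1)], [2], [(5, 1, []), (6, 1, [])]⟩,
    ⟨[(0, 1), (1, 2)], [(0, 0), (1, 0), (1, 1), (1, 3), (2, 0), (2, 1)], [(0, 1)], [], [(2,
      0, [3]), (5, 1, [])]⟩,
    ⟨[(0, 1), (1, 2), (1, 3)], [(0, 3), (1, 0), (1, 3), (1, 4)], [(0, 3), (0, 4), (3, 4)],
      [], [(0, 3, [0]), (4, 0, [3]), (7, 4, [6])]⟩,
    ⟨[(1, 2), (2, 3)], [(2, 1), (2, 6), (3, 1)], [(1, 1), (1, 6)], [5], [(5, 1, []), (6, 1,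
      []), (9, 6, [4])]⟩,
    ⟨[(2, 5)], [(2, 1), (3, 1), (4, 4), (5, 1), (5, 4), (5, 6)], [(1, 4)], [5], [(5, 1,
      []), (7, 4, [6])]⟩]
  Ta := [((2, 1), 0, 7), ((2, 5), 0, 1), ((4, 3), 0, 2), ((4, 7), 0, 4), ((5, 2), 1, 0), ((5, 7),
    1, 4), ((6, 3), 1, 2), ((6, 9), 1, 6)]
  Tb := [((0, 1, 7), 3, 7, 4), ((1, 0, 2), 7, 3, 0), ((2, 1, 5), 0, 7, 1), ((3, 4, 6), 2, 0, 1),
    ((4, 3, 7), 0, 2, 4), ((5, 2, 7), 1, 0, 4), ((6, 3, 9), 1, 2, 6), ((7, 0, 4), 4, 3, 0),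
    ((7, 0, 5), 4, 3, 1), ((7, 0, 8), 4, 3, 5), ((7, 4, 5), 4, 0, 1), ((7, 4, 8), 4, 0, 5),
    ((7, 5, 8), 4, 1, 5), ((8, 7, 9), 5, 4, 6), ((9, 6, 8), 6, 1, 5)]
  Tc := []
  Td := [((0, 3), (2, 1), 7), ((0, 3), (2, 5), 1), ((0, 3), (4, 3), 2), ((0, 3), (4, 7), 4), ((3,
    0), (0, 1), 7), ((3, 0), (0, 7), 4), ((4, 6), (7, 0), 3), ((4, 6), (7, 4), 0), ((4, 6),
    (7, 5), 1), ((4, 6), (7, 8), 5), ((6, 4), (9, 6), 1), ((6, 4), (9, 8), 5)]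
  G := [[0, 0x6ca1a416486ace1284ac6126812c6ace128ce, 0, 0,
    0x59cd1418915145818984cd598d681a1d1d514d591dd482e], [0, 0, 0,
    0x21911194364823c52cd3814632d2815a2d281ce, 0x622d296d341832ad181332d281a1432ad9812e], [0,
    0, 0x81958c4494415c88448888591d68ce1, 0,
    0x54cd898d641291511c88854cc89289cd544dc419c52582c8a7], [0, 0, 0x191d541dc282423192c461,
    0x52ad241832cd2418828d244d198de814b, 0x249832d6418231d2482128d342dc4123cd241ad]]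

noncomputable def n3022 : Ent := ⟨e3022, noF, [], [], []⟩

def c3022 : PLift (Cov.check n3022.C.D v3022 = true) := ⟨by decide +kernel⟩

def b3022 : PLift (entF (fidx ts) 400 3022 n3022 = true) := ⟨by decide +kernel⟩

theorem g3022 : GoodF (fidx ts) 400 3022 := GoodF.ofV v3022 n3022 c3022.down b3022.down

/-- 4864464:2353/12 -/
noncomputable def e3023 : SCfg where
  D := {
    a := 7
    L := 10
    kp := 7
    inn := [(0, 1), (1, 0), (1, 2), (1, 3), (1, 4), (2, 1), (2, 3), (2, 5), (3, 1), (3, 2), (4, 1), (5,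
      2), (5, 6), (6, 5)]
    mix := [(0, 0), (0, 1), (0, 2), (1, 0), (1, 2), (1, 3), (1, 4), (2, 3), (2, 5), (2, 6), (3, 2), (3,
      5), (4, 0), (4, 4), (4, 7), (5, 5), (5, 6), (5, 7), (5, 8), (6, 5), (6, 7), (6, 9)]
    cl := [1, 7, 0, 2, 0, 3, 3, 4, 5, 6]
    chq := [(0, 1), (1, 0), (5, 6), (6, 5)]
    rng := [(0, 1), (0, 7), (1, 0), (1, 2), (2, 1), (2, 5), (3, 4), (3, 6), (4, 3), (4, 7), (5, 2), (5,
      9), (6, 3), (6, 8), (7, 0), (7, 4), (7, 8), (7, 9), (8, 6), (8, 7), (9, 5), (9, 7)]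
    lev := [] }
  links := [[1, 7, 8, 9], [7, 0, 9, 3, 2, 10, 11, 4], [10, 1, 3, 12, 5, 13], [12, 2, 1, 9], [7, 1, 11,
    14], [13, 2, 12, 6, 14, 15], [14, 5, 12, 16]]
  P := {
    a := 7
    N := 17
    nb := [898, 3741, 13354, 4614, 18562, 61508, 86048, 16659, 641, 4363, 10246, 17426, 66156, 33828,
      100592, 24608, 20544]
    tri := [(0, 1, 7), (0, 1, 9), (0, 7, 8), (0, 8, 9), (1, 2, 3), (1, 2, 10), (1, 3, 9), (1, 4, 7),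
      (1, 4, 11), (1, 10, 11), (2, 3, 12), (2, 5, 12), (2, 5, 13), (2, 10, 13), (3, 9, 12), (4, 7,
      14), (4, 11, 14), (5, 6, 12), (5, 6, 14), (5, 13, 15), (5, 14, 15), (6, 12, 16), (6, 14,
      16)]
    fin := [0, 1, 2, 1, 0, 5, 5, 0, 8, 1, 10, 1, 2, 2, 14, 15, 5]
    chd := [(0, 1), (15, 5)]
    steps := [(0, 7), (0, 4), (1, 3), (1, 9), (1, 11), (2, 12), (2, 13), (5, 6), (5, 16)] }
  rep := [1, 0, 10, 2, 14, 15, 5, 8]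

noncomputable def v3023 : Cov.CovD where
  P := 3
  N := 5
  pl := [1, 3, 7]
  lev := [⟨[], [], [(0, 1)], [7], [(0, 1, [0]), (2, 0, [1])]⟩,
    ⟨[], [(0, 0), (0, 1)], [(0, 0), (0, 1)], [2], [(0, 1, [0]), (2, 0, [1]), (4, 0, [1])]⟩,
    ⟨[(0, 1)], [(1, 0), (1, 1), (1, 3)], [(3, 3)], [2], [(5, 3, []), (6, 3, [])]⟩,
    ⟨[(0, 1), (1, 2)], [(0, 0), (1, 0), (1, 1), (1, 3), (2, 0), (2, 3)], [(0, 3)], [], [(2,
      0, [1]), (5, 3, [])]⟩,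
    ⟨[(0, 1), (1, 2), (1, 3)], [(0, 1), (1, 0), (1, 1)], [(0, 1)], [4], [(0, 1, [0]), (4,
      0, [1])]⟩,
    ⟨[(1, 2), (2, 3)], [(2, 3), (2, 5), (3, 3)], [(3, 3), (3, 5)], [4], [(5, 3, []), (6, 3,
      []), (8, 5, [6])]⟩,
    ⟨[(2, 5)], [(2, 3), (3, 3), (5, 3), (5, 5), (5, 6)], [(3, 6)], [4], [(5, 3, []), (9, 6,
      [5])]⟩]
  Ta := [((2, 1), 0, 7), ((2, 5), 0, 3), ((4, 3), 0, 2), ((4, 7), 0, 4), ((5, 2), 3, 0), ((5, 9),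
    3, 6), ((6, 3), 3, 2), ((6, 8), 3, 5)]
  Tb := [((0, 1, 7), 1, 7, 4), ((1, 0, 2), 7, 1, 0), ((2, 1, 5), 0, 7, 3), ((3, 4, 6), 2, 0, 3),
    ((4, 3, 7), 0, 2, 4), ((5, 2, 9), 3, 0, 6), ((6, 3, 8), 3, 2, 5), ((7, 0, 4), 4, 1, 0),
    ((7, 0, 8), 4, 1, 5), ((7, 0, 9), 4, 1, 6), ((7, 4, 8), 4, 0, 5), ((7, 4, 9), 4, 0, 6),
    ((7, 8, 9), 4, 5, 6), ((8, 6, 7), 5, 3, 4), ((9, 5, 7), 6, 3, 4)]
  Tc := []
  Td := [((0, 1), (2, 1), 7), ((0, 1), (2, 5), 3), ((0, 1), (4, 3), 2), ((0, 1), (4, 7), 4), ((1,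
    0), (0, 1), 7), ((1, 0), (0, 7), 4), ((5, 6), (8, 6), 3), ((5, 6), (8, 7), 4), ((6, 5),
    (9, 5), 3), ((6, 5), (9, 7), 4)]
  G := [[0, 0x11cd123621811cd12362146, 0, 0x6bc4f1211ab12586ac4f12111af1258c,
    0x6ade1211611cd14386bd6f1411cd1838c], [0, 0x114d118b621818914512e214a, 0,
    0x111cf1214111cf1218c, 0x111af1418111cf1218c], [0, 0x11cd123621811cd123a214a,
    0x144118b41cc12341a914ca681, 0x392b35e7c2181, 0x55abb45c4181], [0,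
    0x118b1447c21818914512e2186, 0x189145c234648838ca41, 0x588b9447c2141, 0x388b3127c4181]]

noncomputable def n3023 : Ent := ⟨e3023, noF, [], [], [(8, 16, [1580044410770988437309982408355971841652082177953823432505701449729, 0])]⟩

def c3023 : PLift (Cov.check n3023.C.D v3023 = true) := ⟨by decide +kernel⟩

def b3023 : PLift (entF (fidx ts) 400 3023 n3023 = true) := ⟨by decide +kernel⟩

theorem g3023 : GoodF (fidx ts) 400 3023 := GoodF.ofV v3023 n3023 c3023.down b3023.down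

/-- 4864464:2353/13 -/
noncomputable def e3024 : SCfg where
  D := {
    a := 7
    L := 10
    kp := 7
    inn := [(0, 1), (1, 0), (1, 2), (1, 3), (1, 4), (2, 1), (2, 3), (2, 5), (3, 1), (3, 2), (4, 1), (5,
      2), (5, 6), (6, 5)]
    mix := [(0, 0), (0, 1), (0, 2), (1, 0), (1, 2), (1, 3), (1, 4), (2, 3), (2, 5), (2, 6), (3, 2), (3,
      5), (4, 0), (4, 4), (4, 7), (5, 5), (5, 6), (5, 7), (5, 8), (6, 5), (6, 8), (6, 9)]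
    cl := [1, 7, 0, 2, 0, 3, 3, 4, 5, 6]
    chq := [(0, 1), (1, 0), (4, 6), (6, 4)]
    rng := [(0, 1), (0, 7), (1, 0), (1, 2), (2, 1), (2, 5), (3, 4), (3, 6), (4, 3), (4, 7), (5, 2), (5,
      9), (6, 3), (6, 7), (7, 0), (7, 4), (7, 6), (7, 8), (8, 7), (8, 9), (9, 5), (9, 8)]
    lev := [] }
  links := [[1, 7, 8, 9], [7, 0, 9, 3, 2, 10, 11, 4], [10, 1, 3, 12, 5, 13], [12, 2, 1, 9], [7, 1, 11,
    14], [13, 2, 12, 6, 15, 14], [15, 5, 12, 16]]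
  P := {
    a := 7
    N := 17
    nb := [898, 3741, 13354, 4614, 18562, 61508, 102432, 16659, 641, 4363, 10246, 17426, 66156, 17444,
      43184, 82016, 36928]
    tri := [(0, 1, 7), (0, 1, 9), (0, 7, 8), (0, 8, 9), (1, 2, 3), (1, 2, 10), (1, 3, 9), (1, 4, 7),
      (1, 4, 11), (1, 10, 11), (2, 3, 12), (2, 5, 12), (2, 5, 13), (2, 10, 13), (3, 9, 12), (4, 7,
      14), (4, 11, 14), (5, 6, 12), (5, 6, 15), (5, 13, 14), (5, 14, 15), (6, 12, 16), (6, 15,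
      16)]
    fin := [0, 1, 2, 1, 0, 5, 5, 0, 8, 1, 10, 1, 2, 2, 14, 15, 5]
    chd := [(0, 1), (14, 5)]
    steps := [(0, 7), (0, 4), (1, 3), (1, 9), (1, 11), (2, 12), (2, 13), (5, 6), (5, 16)] }
  rep := [1, 0, 10, 2, 14, 15, 5, 8]

noncomputable def v3024 : Cov.CovD where
  P := 3
  N := 5
  pl := [1, 3, 8]
  lev := [⟨[], [], [(0, 1)], [7], [(0, 1, [0]), (2, 0, [1])]⟩,
    ⟨[], [(0, 0), (0, 1)], [(0, 0), (0, 1)], [2], [(0, 1, [0]), (2, 0, [1]), (4, 0, [1])]⟩,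
    ⟨[(0, 1)], [(1, 0), (1, 1), (1, 3)], [(3, 3)], [2], [(5, 3, []), (6, 3, [])]⟩,
    ⟨[(0, 1), (1, 2)], [(0, 0), (1, 0), (1, 1), (1, 3), (2, 0), (2, 3)], [(0, 3)], [], [(2,
      0, [1]), (5, 3, [])]⟩,
    ⟨[(0, 1), (1, 2), (1, 3)], [(0, 1), (1, 0), (1, 1), (1, 4)], [(0, 1), (0, 4), (1, 4)],
      [], [(0, 1, [0]), (4, 0, [1]), (7, 4, [6])]⟩,
    ⟨[(1, 2), (2, 3)], [(2, 3), (2, 4), (3, 3), (4, 4)], [(3, 3), (3, 4)], [5], [(5, 3,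
      []), (6, 3, []), (7, 4, [6])]⟩,
    ⟨[(2, 5)], [(2, 3), (3, 3), (5, 3), (5, 4), (5, 6)], [(3, 6)], [5], [(5, 3, []), (9, 6,
      [4])]⟩]
  Ta := [((2, 1), 0, 7), ((2, 5), 0, 3), ((4, 3), 0, 2), ((4, 7), 0, 4), ((5, 2), 3, 0), ((5, 9),
    3, 6), ((6, 3), 3, 2), ((6, 7), 3, 4)]
  Tb := [((0, 1, 7), 1, 7, 4), ((1, 0, 2), 7, 1, 0), ((2, 1, 5), 0, 7, 3), ((3, 4, 6), 2, 0, 3),
    ((4, 3, 7), 0, 2, 4), ((5, 2, 9), 3, 0, 6), ((6, 3, 7), 3, 2, 4), ((7, 0, 4), 4, 1, 0),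
    ((7, 0, 6), 4, 1, 3), ((7, 0, 8), 4, 1, 5), ((7, 4, 6), 4, 0, 3), ((7, 4, 8), 4, 0, 5),
    ((7, 6, 8), 4, 3, 5), ((8, 7, 9), 5, 4, 6), ((9, 5, 8), 6, 3, 5)]
  Tc := []
  Td := [((0, 1), (2, 1), 7), ((0, 1), (2, 5), 3), ((0, 1), (4, 3), 2), ((0, 1), (4, 7), 4), ((1,
    0), (0, 1), 7), ((1, 0), (0, 7), 4), ((4, 6), (7, 0), 1), ((4, 6), (7, 4), 0), ((4, 6),
    (7, 6), 3), ((4, 6), (7, 8), 5), ((6, 4), (9, 5), 3), ((6, 4), (9, 8), 5)]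
  G := [[0, 0x334ef9a3a2148b3412477812848d8c, 0, 0xac61688c225ef12946ac7f1229ab4258c,
    0x6ade1459ed1438ac971468124256f14b8c], [0, 0x29cdd84b62182824a865483aa14c, 0,
    0x329af1418598cf1214c, 0x598cf1218229ef1418c], [0, 0x338ef7436218b36df83a214c,
    0xc47b824864c8b74284a8c1, 0x56333b8fc2181, 0xd74bfa5c4181], [0,
    0x492d54cb6218529948c3e214a, 0x4e342493835c2c449828c1, 0xd56b98c7c2181, 0x384ba9a7c4181]]

noncomputable def n3024 : Ent := ⟨e3024, noF, [], [], [(8, 16, [1580044410770988437309982408355971841652082177953823432505701453825, 0]), (8, 15, [1685356702439545624007900436039642273970977273354372543760012451841, 0]), (9, 16, [1580044410770988437309982408355971841652082177953823432505701482497, 0])]⟩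

def c3024 : PLift (Cov.check n3024.C.D v3024 = true) := ⟨by decide +kernel⟩

def b3024 : PLift (entF (fidx ts) 400 3024 n3024 = true) := ⟨by decide +kernel⟩

theorem g3024 : GoodF (fidx ts) 400 3024 := GoodF.ofV v3024 n3024 c3024.down b3024.down

/-- 4864464:2353 -/
noncomputable def e3025 : SCfg where
  D := {
    a := 7
    L := 11
    kp := 8
    inn := [(0, 1), (1, 0), (1, 2), (1, 3), (1, 4), (2, 1), (2, 3), (2, 5), (3, 1), (3, 2), (4, 1), (5,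
      2), (5, 6), (6, 5)]
    mix := [(0, 0), (0, 1), (0, 2), (1, 0), (1, 2), (1, 3), (1, 4), (2, 3), (2, 5), (2, 6), (3, 2), (3,
      5), (4, 0), (4, 4), (4, 7), (5, 5), (5, 6), (5, 8), (5, 9), (6, 5), (6, 8), (6, 10)]
    cl := [1, 7, 0, 2, 0, 3, 3, 8, 4, 5, 6]
    chq := [(0, 1), (1, 0), (5, 6), (6, 5)]
    rng := [(0, 1), (0, 7), (1, 0), (1, 2), (2, 1), (2, 5), (3, 4), (3, 6), (4, 3), (4, 7), (5, 2), (5,
      10), (6, 3), (6, 9), (7, 0), (7, 4), (8, 9), (8, 10), (9, 6), (9, 8), (10, 5), (10, 8)]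
    lev := [] }
  links := [[1, 7, 8, 9], [7, 0, 9, 3, 2, 10, 11, 4], [10, 1, 3, 12, 5, 13], [12, 2, 1, 9], [7, 1, 11,
    14], [13, 2, 12, 6, 15, 16], [15, 5, 12, 17]]
  P := {
    a := 7
    N := 18
    nb := [898, 3741, 13354, 4614, 18562, 110660, 167968, 16659, 641, 4363, 10246, 17426, 131692,
      66596, 2192, 196704, 40992, 36928]
    tri := [(0, 1, 7), (0, 1, 9), (0, 7, 8), (0, 8, 9), (1, 2, 3), (1, 2, 10), (1, 3, 9), (1, 4, 7),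
      (1, 4, 11), (1, 10, 11), (2, 3, 12), (2, 5, 12), (2, 5, 13), (2, 10, 13), (3, 9, 12), (4, 7,
      14), (4, 11, 14), (5, 6, 12), (5, 6, 15), (5, 13, 16), (5, 15, 16), (6, 12, 17), (6, 15,
      17)]
    fin := [0, 1, 2, 1, 0, 5, 5, 0, 8, 1, 10, 1, 2, 2, 14, 15, 16, 5]
    chd := [(0, 1), (16, 5)]
    steps := [(0, 7), (0, 4), (1, 3), (1, 9), (1, 11), (2, 12), (2, 13), (5, 6), (5, 17)] }
  rep := [1, 0, 10, 2, 15, 16, 5, 8, 14]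

noncomputable def v3025 : Cov.CovD where
  P := 3
  N := 6
  pl := [1, 3, 7, 8]
  lev := [⟨[], [], [(0, 1)], [7], [(0, 1, [0]), (2, 0, [1])]⟩,
    ⟨[], [(0, 0), (0, 1)], [(0, 0), (0, 1)], [2], [(0, 1, [0]), (2, 0, [1]), (4, 0, [1])]⟩,
    ⟨[(0, 1)], [(1, 0), (1, 1), (1, 3)], [(3, 3)], [2], [(5, 3, []), (6, 3, [])]⟩,
    ⟨[(0, 1), (1, 2)], [(0, 0), (1, 0), (1, 1), (1, 3), (2, 0), (2, 3)], [(0, 3)], [], [(2,
      0, [1]), (5, 3, [])]⟩,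
    ⟨[(0, 1), (1, 2), (1, 3)], [(0, 1), (1, 0), (1, 1)], [(0, 1)], [8], [(0, 1, [0]), (4,
      0, [1])]⟩,
    ⟨[(1, 2), (2, 3)], [(2, 3), (2, 5), (3, 3)], [(3, 3), (3, 5)], [4], [(5, 3, []), (6, 3,
      []), (9, 5, [6])]⟩,
    ⟨[(2, 5)], [(2, 3), (3, 3), (5, 3), (5, 5), (5, 6)], [(3, 6)], [4], [(5, 3, []), (10,
      6, [5])]⟩]
  Ta := [((2, 1), 0, 7), ((2, 5), 0, 3), ((4, 3), 0, 2), ((4, 7), 0, 8), ((5, 2), 3, 0), ((5,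
    10), 3, 6), ((6, 3), 3, 2), ((6, 9), 3, 5)]
  Tb := [((0, 1, 7), 1, 7, 8), ((1, 0, 2), 7, 1, 0), ((2, 1, 5), 0, 7, 3), ((3, 4, 6), 2, 0, 3),
    ((4, 3, 7), 0, 2, 8), ((5, 2, 10), 3, 0, 6), ((6, 3, 9), 3, 2, 5), ((7, 0, 4), 8, 1, 0),
    ((8, 9, 10), 4, 5, 6), ((9, 6, 8), 5, 3, 4), ((10, 5, 8), 6, 3, 4)]
  Tc := []
  Td := [((0, 1), (2, 1), 7), ((0, 1), (2, 5), 3), ((0, 1), (4, 3), 2), ((0, 1), (4, 7), 8), ((1,
    0), (0, 1), 7), ((1, 0), (0, 7), 8), ((5, 6), (9, 6), 3), ((5, 6), (9, 8), 4), ((6, 5),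
    (10, 5), 3), ((6, 5), (10, 8), 4)]
  G := [[0, 0x33def33def621833edde333dee218a, 0, 0x7ace1235e712946ace12319ef1258c,
    0x6ade1459ed14386ade1459ed1438c], [0, 0x3a9af2418599cf821859ccf4218e, 0,
    0x3356f18143356f1814c, 0x339af1418599cf1218c], [0, 0x33def33def621833def33defa214a,
    0x5845252ca499c799c7c588c336d336dc2ac1, 0x33def33defc2141, 0x5b5ef5b5efc4181], [0,
    0x595cf59ccfa2143aad299c75cac6186, 0x4c34259cd9867c2c5842456b88ac1, 0x59ccf595cfc2181,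
    0x339af3a9afc4181]]

noncomputable def n3025 : Ent := ⟨e3025, noF, [], [], [(8, 17, [6903326391201334775872065844685381424292761054348340378595029942034433, 0]), (8, 15, [7334790850167413569773436004105379185503274260204390087403942017019905, 0]), (9, 17, [6903326391201334775872065844685381424292761054348340378595029942063105, 0]), (17, 14, [6903326468334360900303599070699561856668565975414084080169086036533249, 0]), (15, 14, [7334790875878422277917280412776772662961875900559637987928627381858305, 0]), (16, 14, [7334685589297762428874426903420482469988158645819485339342058435706881, 0])]⟩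

def c3025 : PLift (Cov.check n3025.C.D v3025 = true) := ⟨by decide +kernel⟩

def b3025 : PLift (entF (fidx ts) 400 3025 n3025 = true) := ⟨by decide +kernel⟩

theorem g3025 : GoodF (fidx ts) 400 3025 := GoodF.ofV v3025 n3025 c3025.down b3025.down

/-- 4864464:2354/2 -/
noncomputable def e3026 : SCfg where
  D := {
    a := 7
    L := 9
    kp := 6
    inn := [(0, 1), (1, 0), (1, 2), (1, 3), (1, 4), (2, 1), (2, 3), (2, 5), (3, 1), (3, 2), (4, 1), (5,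
      2), (5, 6), (6, 5)]
    mix := [(0, 0), (0, 1), (0, 2), (1, 0), (1, 2), (1, 3), (1, 4), (2, 3), (2, 5), (2, 6), (3, 2), (3,
      5), (4, 0), (4, 4), (4, 7), (5, 1), (5, 5), (5, 6), (5, 7), (6, 6), (6, 7), (6, 8)]
    cl := [3, 2, 0, 5, 0, 1, 1, 4, 6]
    chq := [(0, 3), (2, 6), (3, 0), (6, 2)]
    rng := [(0, 1), (0, 7), (1, 0), (1, 2), (1, 5), (1, 7), (2, 1), (2, 5), (3, 4), (3, 6), (4, 3), (4,
      7), (5, 1), (5, 2), (6, 3), (6, 8), (7, 0), (7, 1), (7, 4), (7, 8), (8, 6), (8, 7)]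
    lev := [] }
  links := [[1, 7, 8, 9], [7, 0, 9, 3, 2, 10, 11, 4], [10, 1, 3, 12, 5, 13], [12, 2, 1, 9], [7, 1, 11,
    14], [13, 2, 12, 8, 14, 6], [13, 5, 14, 15]]
  P := {
    a := 7
    N := 16
    nb := [898, 3741, 13354, 4614, 18562, 28996, 57376, 16659, 21153, 4363, 10246, 17426, 812, 33892,
      35312, 24640]
    tri := [(0, 1, 7), (0, 1, 9), (0, 7, 8), (0, 8, 9), (1, 2, 3), (1, 2, 10), (1, 3, 9), (1, 4, 7),
      (1, 4, 11), (1, 10, 11), (2, 3, 12), (2, 5, 12), (2, 5, 13), (2, 10, 13), (3, 9, 12), (4, 7,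
      14), (4, 11, 14), (5, 6, 13), (5, 6, 14), (5, 8, 12), (5, 8, 14), (6, 13, 15), (6, 14, 15)]
    fin := [0, 1, 2, 1, 0, 5, 5, 0, 5, 1, 10, 1, 2, 2, 14, 15]
    chd := [(0, 1), (5, 15)]
    steps := [(0, 7), (0, 4), (1, 3), (1, 9), (1, 11), (2, 12), (2, 13), (5, 6), (5, 8)] }
  rep := [1, 2, 5, 0, 14, 10, 15]

noncomputable def v3026 : Cov.CovD where
  P := 3
  N := 4
  pl := [3, 7]
  lev := [⟨[], [], [(0, 2), (0, 3), (2, 3)], [], [(0, 3, [0]), (1, 2, [6]), (2, 0, [3])]⟩,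
    ⟨[], [(0, 0), (0, 2), (0, 3)], [(0, 0), (0, 3)], [5], [(0, 3, [0]), (2, 0, [3]), (4, 0,
      [3])]⟩,
    ⟨[(0, 1)], [(1, 0), (1, 1), (1, 3)], [(1, 1)], [5], [(5, 1, []), (6, 1, [])]⟩,
    ⟨[(0, 1), (1, 2)], [(0, 0), (1, 0), (1, 1), (1, 3), (2, 0), (2, 1)], [(0, 1)], [], [(2,
      0, [3]), (5, 1, [])]⟩,
    ⟨[(0, 1), (1, 2), (1, 3)], [(0, 3), (1, 0), (1, 3)], [(0, 3)], [4], [(0, 3, [0]), (4,
      0, [3])]⟩,
    ⟨[(1, 2), (2, 3)], [(0, 2), (2, 1), (2, 2), (3, 1)], [(1, 1), (1, 2)], [4], [(1, 2,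
      [6]), (5, 1, []), (6, 1, [])]⟩,
    ⟨[(2, 5)], [(2, 1), (5, 1), (5, 2), (5, 6)], [(1, 6)], [4], [(6, 1, []), (8, 6, [2])]⟩]
  Ta := [((2, 1), 0, 2), ((2, 5), 0, 1), ((4, 3), 0, 5), ((4, 7), 0, 4), ((5, 1), 1, 2), ((5, 2),
    1, 0), ((6, 3), 1, 5), ((6, 8), 1, 6)]
  Tb := [((0, 1, 7), 3, 2, 4), ((1, 0, 2), 2, 3, 0), ((1, 0, 5), 2, 3, 1), ((1, 0, 7), 2, 3, 4),
    ((1, 2, 5), 2, 0, 1), ((1, 2, 7), 2, 0, 4), ((1, 5, 7), 2, 1, 4), ((2, 1, 5), 0, 2, 1),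
    ((3, 4, 6), 5, 0, 1), ((4, 3, 7), 0, 5, 4), ((5, 1, 2), 1, 2, 0), ((6, 3, 8), 1, 5, 6),
    ((7, 0, 1), 4, 3, 2), ((7, 0, 4), 4, 3, 0), ((7, 0, 8), 4, 3, 6), ((7, 1, 4), 4, 2, 0),
    ((7, 1, 8), 4, 2, 6), ((7, 4, 8), 4, 0, 6), ((8, 6, 7), 6, 1, 4)]
  Tc := []
  Td := [((0, 3), (2, 1), 2), ((0, 3), (2, 5), 1), ((0, 3), (4, 3), 5), ((0, 3), (4, 7), 4), ((2,
    6), (1, 0), 3), ((2, 6), (1, 2), 0), ((2, 6), (1, 5), 1), ((2, 6), (1, 7), 4), ((3, 0),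
    (0, 1), 2), ((3, 0), (0, 7), 4), ((6, 2), (8, 6), 1), ((6, 2), (8, 7), 4)]
  G := [[0, 0x21c1222c12611c142a12c1222c12a12c1426c, 0x142858111c181c11c14126, 0x212812212812c,
    0x6114161184c284161d812a], [0, 0, 0x11c141811c181411c1812e, 0,
    0x981c932198841461cd1184411c95816a], [0, 0, 0, 0x212412212822528525,
    0x2881414854821a816414428849484121e44821685a9], [0, 0, 0, 0,
    0x988844d12484884449485ad841c214191624494291c9241eb]]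

noncomputable def n3026 : Ent := ⟨e3026, noF, [], [], []⟩

def c3026 : PLift (Cov.check n3026.C.D v3026 = true) := ⟨by decide +kernel⟩

def b3026 : PLift (entF (fidx ts) 400 3026 n3026 = true) := ⟨by decide +kernel⟩

theorem g3026 : GoodF (fidx ts) 400 3026 := GoodF.ofV v3026 n3026 c3026.down b3026.down

/-- 4864464:2354/3 -/
noncomputable def e3027 : SCfg where
  D := {
    a := 7
    L := 9
    kp := 6
    inn := [(0, 1), (1, 0), (1, 2), (1, 3), (1, 4), (2, 1), (2, 3), (2, 5), (3, 1), (3, 2), (4, 1), (5,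
      2), (5, 6), (6, 5)]
    mix := [(0, 0), (0, 1), (0, 2), (1, 0), (1, 2), (1, 3), (1, 4), (2, 3), (2, 5), (2, 6), (3, 2), (3,
      5), (4, 0), (4, 4), (4, 7), (5, 1), (5, 5), (5, 6), (5, 8), (6, 6), (6, 7), (6, 8)]
    cl := [3, 2, 0, 5, 0, 1, 1, 4, 6]
    chq := [(0, 3), (2, 4), (3, 0), (4, 2)]
    rng := [(0, 1), (0, 7), (1, 0), (1, 2), (1, 5), (1, 8), (2, 1), (2, 5), (3, 4), (3, 6), (4, 3), (4,
      7), (5, 1), (5, 2), (6, 3), (6, 7), (7, 0), (7, 4), (7, 6), (7, 8), (8, 1), (8, 7)]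
    lev := [] }
  links := [[1, 7, 8, 9], [7, 0, 9, 3, 2, 10, 11, 4], [10, 1, 3, 12, 5, 13], [12, 2, 1, 9], [7, 1, 11,
    14], [13, 2, 12, 8, 15, 6], [13, 5, 15, 14]]
  P := {
    a := 7
    N := 16
    nb := [898, 3741, 13354, 4614, 18562, 45380, 57376, 16659, 37537, 4363, 10246, 17426, 812, 17508,
      43216, 16736]
    tri := [(0, 1, 7), (0, 1, 9), (0, 7, 8), (0, 8, 9), (1, 2, 3), (1, 2, 10), (1, 3, 9), (1, 4, 7),
      (1, 4, 11), (1, 10, 11), (2, 3, 12), (2, 5, 12), (2, 5, 13), (2, 10, 13), (3, 9, 12), (4, 7,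
      14), (4, 11, 14), (5, 6, 13), (5, 6, 15), (5, 8, 12), (5, 8, 15), (6, 13, 14), (6, 14, 15)]
    fin := [0, 1, 2, 1, 0, 5, 5, 0, 5, 1, 10, 1, 2, 2, 14, 15]
    chd := [(0, 1), (5, 14)]
    steps := [(0, 7), (0, 4), (1, 3), (1, 9), (1, 11), (2, 12), (2, 13), (5, 6), (5, 8)] }
  rep := [1, 2, 5, 0, 14, 10, 15]

noncomputable def v3027 : Cov.CovD where
  P := 3
  N := 4
  pl := [3, 8]
  lev := [⟨[], [], [(0, 2), (0, 3), (2, 3)], [], [(0, 3, [0]), (1, 2, [4]), (2, 0, [3])]⟩,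
    ⟨[], [(0, 0), (0, 2), (0, 3)], [(0, 0), (0, 3)], [5], [(0, 3, [0]), (2, 0, [3]), (4, 0,
      [3])]⟩,
    ⟨[(0, 1)], [(1, 0), (1, 1), (1, 3)], [(1, 1)], [5], [(5, 1, []), (6, 1, [])]⟩,
    ⟨[(0, 1), (1, 2)], [(0, 0), (1, 0), (1, 1), (1, 3), (2, 0), (2, 1)], [(0, 1)], [], [(2,
      0, [3]), (5, 1, [])]⟩,
    ⟨[(0, 1), (1, 2), (1, 3)], [(0, 3), (1, 0), (1, 3), (1, 4)], [(0, 3), (0, 4), (3, 4)],
      [], [(0, 3, [0]), (4, 0, [3]), (7, 4, [2])]⟩,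
    ⟨[(1, 2), (2, 3)], [(0, 2), (2, 1), (2, 2), (3, 1)], [(1, 1), (1, 2)], [6], [(1, 2,
      [4]), (5, 1, []), (6, 1, [])]⟩,
    ⟨[(2, 5)], [(2, 1), (4, 4), (5, 1), (5, 2), (5, 4)], [(1, 4)], [6], [(6, 1, []), (7, 4,
      [2])]⟩]
  Ta := [((2, 1), 0, 2), ((2, 5), 0, 1), ((4, 3), 0, 5), ((4, 7), 0, 4), ((5, 1), 1, 2), ((5, 2),
    1, 0), ((6, 3), 1, 5), ((6, 7), 1, 4)]
  Tb := [((0, 1, 7), 3, 2, 4), ((1, 0, 2), 2, 3, 0), ((1, 0, 5), 2, 3, 1), ((1, 0, 8), 2, 3, 6),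
    ((1, 2, 5), 2, 0, 1), ((1, 2, 8), 2, 0, 6), ((1, 5, 8), 2, 1, 6), ((2, 1, 5), 0, 2, 1),
    ((3, 4, 6), 5, 0, 1), ((4, 3, 7), 0, 5, 4), ((5, 1, 2), 1, 2, 0), ((6, 3, 7), 1, 5, 4),
    ((7, 0, 4), 4, 3, 0), ((7, 0, 6), 4, 3, 1), ((7, 0, 8), 4, 3, 6), ((7, 4, 6), 4, 0, 1),
    ((7, 4, 8), 4, 0, 6), ((7, 6, 8), 4, 1, 6), ((8, 1, 7), 6, 2, 4)]
  Tc := []
  Td := [((0, 3), (2, 1), 2), ((0, 3), (2, 5), 1), ((0, 3), (4, 3), 5), ((0, 3), (4, 7), 4), ((2,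
    4), (1, 0), 3), ((2, 4), (1, 2), 0), ((2, 4), (1, 5), 1), ((2, 4), (1, 8), 6), ((3, 0),
    (0, 1), 2), ((3, 0), (0, 7), 4), ((4, 2), (7, 0), 3), ((4, 2), (7, 4), 0), ((4, 2), (7,
    6), 1), ((4, 2), (7, 8), 6)]
  G := [[0, 0x21c1212c12612c182a21c1212c12a21c1426c, 0x11c14111c141c12c1812a, 0x225241221c2412c,
    0x329441219219384c4291412a], [0, 0, 0x11c121811c181411c1812e, 0,
    0x549121419184c419224d14d4495416a], [0, 0, 0, 0x225241222c2822924529,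
    0x28442841645449429c81c514482492442924ca9], [0, 0, 0, 0,
    0xc1922491441948cc84981c68d541624848644842d849549c81449241e3]]

noncomputable def n3027 : Ent := ⟨e3027, noF, [], [], []⟩

def c3027 : PLift (Cov.check n3027.C.D v3027 = true) := ⟨by decide +kernel⟩

def b3027 : PLift (entF (fidx ts) 400 3027 n3027 = true) := ⟨by decide +kernel⟩

theorem g3027 : GoodF (fidx ts) 400 3027 := GoodF.ofV v3027 n3027 c3027.down b3027.down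

/-- 4864464:2354/1 -/
noncomputable def e3028 : SCfg where
  D := {
    a := 7
    L := 10
    kp := 7
    inn := [(0, 1), (1, 0), (1, 2), (1, 3), (1, 4), (2, 1), (2, 3), (2, 5), (3, 1), (3, 2), (4, 1), (5,
      2), (5, 6), (6, 5)]
    mix := [(0, 0), (0, 1), (0, 2), (1, 0), (1, 2), (1, 3), (1, 4), (2, 3), (2, 5), (2, 6), (3, 2), (3,
      5), (4, 0), (4, 4), (4, 7), (5, 1), (5, 5), (5, 6), (5, 8), (6, 6), (6, 8), (6, 9)]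
    cl := [3, 4, 0, 2, 0, 1, 1, 7, 5, 6]
    chq := [(0, 3), (3, 0), (4, 6), (6, 4)]
    rng := [(0, 1), (0, 7), (1, 0), (1, 2), (1, 5), (1, 8), (2, 1), (2, 5), (3, 4), (3, 6), (4, 3), (4,
      7), (5, 1), (5, 2), (6, 3), (6, 9), (7, 0), (7, 4), (8, 1), (8, 9), (9, 6), (9, 8)]
    lev := [] }
  links := [[1, 7, 8, 9], [7, 0, 9, 3, 2, 10, 11, 4], [10, 1, 3, 12, 5, 13], [12, 2, 1, 9], [7, 1, 11,
    14], [13, 2, 12, 8, 15, 6], [13, 5, 15, 16]]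
  P := {
    a := 7
    N := 17
    nb := [898, 3741, 13354, 4614, 18562, 45380, 106528, 16659, 37537, 4363, 10246, 17426, 812, 66660,
      2192, 65888, 41024]
    tri := [(0, 1, 7), (0, 1, 9), (0, 7, 8), (0, 8, 9), (1, 2, 3), (1, 2, 10), (1, 3, 9), (1, 4, 7),
      (1, 4, 11), (1, 10, 11), (2, 3, 12), (2, 5, 12), (2, 5, 13), (2, 10, 13), (3, 9, 12), (4, 7,
      14), (4, 11, 14), (5, 6, 13), (5, 6, 15), (5, 8, 12), (5, 8, 15), (6, 13, 16), (6, 15, 16)]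
    fin := [0, 1, 2, 1, 0, 5, 5, 0, 5, 1, 10, 1, 2, 2, 14, 15, 16]
    chd := [(0, 1), (5, 16)]
    steps := [(0, 7), (0, 4), (1, 3), (1, 9), (1, 11), (2, 12), (2, 13), (5, 6), (5, 8)] }
  rep := [1, 2, 10, 0, 5, 15, 16, 14]

noncomputable def v3028 : Cov.CovD where
  P := 3
  N := 5
  pl := [3, 7, 8]
  lev := [⟨[], [], [(0, 3), (0, 4), (3, 4)], [], [(0, 3, [0]), (1, 4, [6]), (2, 0, [3])]⟩,
    ⟨[], [(0, 0), (0, 3), (0, 4)], [(0, 0), (0, 3)], [2], [(0, 3, [0]), (2, 0, [3]), (4, 0,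
      [3])]⟩,
    ⟨[(0, 1)], [(1, 0), (1, 1), (1, 3)], [(1, 1)], [2], [(5, 1, []), (6, 1, [])]⟩,
    ⟨[(0, 1), (1, 2)], [(0, 0), (1, 0), (1, 1), (1, 3), (2, 0), (2, 1)], [(0, 1)], [], [(2,
      0, [3]), (5, 1, [])]⟩,
    ⟨[(0, 1), (1, 2), (1, 3)], [(0, 3), (1, 0), (1, 3)], [(0, 3)], [7], [(0, 3, [0]), (4,
      0, [3])]⟩,
    ⟨[(1, 2), (2, 3)], [(0, 4), (2, 1), (2, 4), (3, 1)], [(1, 1), (1, 4)], [5], [(1, 4,
      [6]), (5, 1, []), (6, 1, [])]⟩,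
    ⟨[(2, 5)], [(2, 1), (5, 1), (5, 4), (5, 6)], [(1, 6)], [5], [(6, 1, []), (9, 6, [4])]⟩]
  Ta := [((2, 1), 0, 4), ((2, 5), 0, 1), ((4, 3), 0, 2), ((4, 7), 0, 7), ((5, 1), 1, 4), ((5, 2),
    1, 0), ((6, 3), 1, 2), ((6, 9), 1, 6)]
  Tb := [((0, 1, 7), 3, 4, 7), ((1, 0, 2), 4, 3, 0), ((1, 0, 5), 4, 3, 1), ((1, 0, 8), 4, 3, 5),
    ((1, 2, 5), 4, 0, 1), ((1, 2, 8), 4, 0, 5), ((1, 5, 8), 4, 1, 5), ((2, 1, 5), 0, 4, 1),
    ((3, 4, 6), 2, 0, 1), ((4, 3, 7), 0, 2, 7), ((5, 1, 2), 1, 4, 0), ((6, 3, 9), 1, 2, 6),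
    ((7, 0, 4), 7, 3, 0), ((8, 1, 9), 5, 4, 6), ((9, 6, 8), 6, 1, 5)]
  Tc := []
  Td := [((0, 3), (2, 1), 4), ((0, 3), (2, 5), 1), ((0, 3), (4, 3), 2), ((0, 3), (4, 7), 7), ((3,
    0), (0, 1), 4), ((3, 0), (0, 7), 7), ((4, 6), (1, 0), 3), ((4, 6), (1, 2), 0), ((4, 6),
    (1, 5), 1), ((4, 6), (1, 8), 5), ((6, 4), (9, 6), 1), ((6, 4), (9, 8), 5)]
  G := [[0, 0x14a1241648138e128481612841a148ce, 0, 0,
    0x682292697418285925581229148a2c529cd9812e], [0, 0, 0,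
    0xd491418d85181411d8532859cd58cd681ce, 0xd491418d4d481d2184d94d959cdd482e], [0, 0,
    0x4a928c44842c5c882424a282c96c4e1, 0, 0x24924964182858256488482d841482d482d641ad], [0, 0,
    0x48dd82448dd42848dd248e1, 0x4d92859cd84625448dd48dd48dde2483,
    0x8d58d5c4848c98259cd59cdc2159cd281a3]]

noncomputable def n3028 : Ent := ⟨e3028, noF, [], [], [(15, 14, [1685382413448253767852309107433119732572617628602273068445377306625, 0]), (16, 14, [1580095832788404724998799751142926758855362888449624481876431155201, 0])]⟩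

def c3028 : PLift (Cov.check n3028.C.D v3028 = true) := ⟨by decide +kernel⟩

def b3028 : PLift (entF (fidx ts) 400 3028 n3028 = true) := ⟨by decide +kernel⟩

theorem g3028 : GoodF (fidx ts) 400 3028 := GoodF.ofV v3028 n3028 c3028.down b3028.down

/-- 4864464:2354/5 -/
noncomputable def e3029 : SCfg where
  D := {
    a := 7
    L := 9
    kp := 6
    inn := [(0, 1), (1, 0), (1, 2), (1, 3), (1, 4), (2, 1), (2, 3), (2, 5), (3, 1), (3, 2), (4, 1), (5,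
      2), (5, 6), (6, 5)]
    mix := [(0, 0), (0, 1), (0, 2), (1, 0), (1, 2), (1, 3), (1, 4), (2, 3), (2, 5), (2, 6), (3, 2), (3,
      5), (4, 0), (4, 4), (4, 7), (5, 5), (5, 6), (5, 7), (5, 8), (6, 1), (6, 6), (6, 8)]
    cl := [3, 2, 0, 5, 0, 1, 1, 4, 6]
    chq := [(0, 3), (2, 4), (3, 0), (4, 2)]
    rng := [(0, 1), (0, 7), (1, 0), (1, 2), (1, 6), (1, 8), (2, 1), (2, 5), (3, 4), (3, 6), (4, 3), (4,
      7), (5, 2), (5, 7), (6, 1), (6, 3), (7, 0), (7, 4), (7, 5), (7, 8), (8, 1), (8, 7)]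
    lev := [] }
  links := [[1, 7, 8, 9], [7, 0, 9, 3, 2, 10, 11, 4], [10, 1, 3, 12, 5, 13], [12, 2, 1, 9], [7, 1, 11,
    14], [13, 2, 12, 14, 15, 6], [13, 5, 15, 8]]
  P := {
    a := 7
    N := 16
    nb := [898, 3741, 13354, 4614, 18562, 61508, 41248, 16659, 41665, 4363, 10246, 17426, 16940, 1380,
      39088, 16736]
    tri := [(0, 1, 7), (0, 1, 9), (0, 7, 8), (0, 8, 9), (1, 2, 3), (1, 2, 10), (1, 3, 9), (1, 4, 7),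
      (1, 4, 11), (1, 10, 11), (2, 3, 12), (2, 5, 12), (2, 5, 13), (2, 10, 13), (3, 9, 12), (4, 7,
      14), (4, 11, 14), (5, 6, 13), (5, 6, 15), (5, 12, 14), (5, 14, 15), (6, 8, 13), (6, 8, 15)]
    fin := [0, 1, 2, 1, 0, 5, 5, 0, 5, 1, 10, 1, 2, 2, 14, 15]
    chd := [(0, 1), (5, 14)]
    steps := [(0, 7), (0, 4), (1, 3), (1, 9), (1, 11), (2, 12), (2, 13), (5, 6), (5, 8)] }
  rep := [1, 2, 5, 0, 14, 10, 15]

noncomputable def v3029 : Cov.CovD where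
  P := 3
  N := 4
  pl := [3, 8]
  lev := [⟨[], [], [(0, 2), (0, 3), (2, 3)], [], [(0, 3, [0]), (1, 2, [4]), (2, 0, [3])]⟩,
    ⟨[], [(0, 0), (0, 2), (0, 3)], [(0, 0), (0, 3)], [5], [(0, 3, [0]), (2, 0, [3]), (4, 0,
      [3])]⟩,
    ⟨[(0, 1)], [(1, 0), (1, 1), (1, 3)], [(1, 1)], [5], [(5, 1, []), (6, 1, [])]⟩,
    ⟨[(0, 1), (1, 2)], [(0, 0), (1, 0), (1, 1), (1, 3), (2, 0), (2, 1)], [(0, 1)], [], [(2,
      0, [3]), (5, 1, [])]⟩,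
    ⟨[(0, 1), (1, 2), (1, 3)], [(0, 3), (1, 0), (1, 3), (1, 4)], [(0, 3), (0, 4), (3, 4)],
      [], [(0, 3, [0]), (4, 0, [3]), (7, 4, [2])]⟩,
    ⟨[(1, 2), (2, 3)], [(2, 1), (2, 4), (3, 1), (4, 4)], [(1, 1), (1, 4)], [6], [(5, 1,
      []), (6, 1, []), (7, 4, [2])]⟩,
    ⟨[(2, 5)], [(0, 2), (2, 1), (5, 1), (5, 2), (5, 4)], [(1, 2)], [6], [(1, 2, [4]), (6,
      1, [])]⟩]
  Ta := [((2, 1), 0, 2), ((2, 5), 0, 1), ((4, 3), 0, 5), ((4, 7), 0, 4), ((5, 2), 1, 0), ((5, 7),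
    1, 4), ((6, 1), 1, 2), ((6, 3), 1, 5)]
  Tb := [((0, 1, 7), 3, 2, 4), ((1, 0, 2), 2, 3, 0), ((1, 0, 6), 2, 3, 1), ((1, 0, 8), 2, 3, 6),
    ((1, 2, 6), 2, 0, 1), ((1, 2, 8), 2, 0, 6), ((1, 6, 8), 2, 1, 6), ((2, 1, 5), 0, 2, 1),
    ((3, 4, 6), 5, 0, 1), ((4, 3, 7), 0, 5, 4), ((5, 2, 7), 1, 0, 4), ((6, 1, 3), 1, 2, 5),
    ((7, 0, 4), 4, 3, 0), ((7, 0, 5), 4, 3, 1), ((7, 0, 8), 4, 3, 6), ((7, 4, 5), 4, 0, 1),
    ((7, 4, 8), 4, 0, 6), ((7, 5, 8), 4, 1, 6), ((8, 1, 7), 6, 2, 4)]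
  Tc := []
  Td := [((0, 3), (2, 1), 2), ((0, 3), (2, 5), 1), ((0, 3), (4, 3), 5), ((0, 3), (4, 7), 4), ((2,
    4), (1, 0), 3), ((2, 4), (1, 2), 0), ((2, 4), (1, 6), 1), ((2, 4), (1, 8), 6), ((3, 0),
    (0, 1), 2), ((3, 0), (0, 7), 4), ((4, 2), (7, 0), 3), ((4, 2), (7, 4), 0), ((4, 2), (7,
    5), 1), ((4, 2), (7, 8), 6)]
  G := [[0, 0x815e1252146121884c146a149e12841e18a14ce1486c, 0x6114161181c6118126, 0,
    0x2184541285181c882d345812a], [0, 0, 0xc11218c11214c11412e, 0x44cd241284cd2812c,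
    0x819494741985141c1122842459851816a], [0, 0, 0, 0,
    0x82988285485424215c182215448848994242422934e89ab], [0, 0, 0, 0x84cd2412541d24891d28c29,
    0x88c44181982985425c19c241121c1144869159464889c281ab]]

noncomputable def n3029 : Ent := ⟨e3029, noF, [], [], []⟩

def c3029 : PLift (Cov.check n3029.C.D v3029 = true) := ⟨by decide +kernel⟩

def b3029 : PLift (entF (fidx ts) 400 3029 n3029 = true) := ⟨by decide +kernel⟩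

theorem g3029 : GoodF (fidx ts) 400 3029 := GoodF.ofV v3029 n3029 c3029.down b3029.down

/-- 4864464:2354/6 -/
noncomputable def e3030 : SCfg where
  D := {
    a := 7
    L := 9
    kp := 6
    inn := [(0, 1), (1, 0), (1, 2), (1, 3), (1, 4), (2, 1), (2, 3), (2, 5), (3, 1), (3, 2), (4, 1), (5,
      2), (5, 6), (6, 5)]
    mix := [(0, 0), (0, 1), (0, 2), (1, 0), (1, 2), (1, 3), (1, 4), (2, 3), (2, 5), (2, 6), (3, 2), (3,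
      5), (4, 0), (4, 4), (4, 7), (5, 5), (5, 6), (5, 7), (5, 8), (6, 1), (6, 6), (6, 7)]
    cl := [1, 2, 0, 5, 0, 3, 3, 4, 6]
    chq := [(0, 1), (1, 0), (2, 6), (6, 2)]
    rng := [(0, 1), (0, 7), (1, 0), (1, 2), (1, 6), (1, 7), (2, 1), (2, 5), (3, 4), (3, 6), (4, 3), (4,
      7), (5, 2), (5, 8), (6, 1), (6, 3), (7, 0), (7, 1), (7, 4), (7, 8), (8, 5), (8, 7)]
    lev := [] }
  links := [[1, 7, 8, 9], [7, 0, 9, 3, 2, 10, 11, 4], [10, 1, 3, 12, 5, 13], [12, 2, 1, 9], [7, 1, 11,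
    14], [13, 2, 12, 15, 14, 6], [13, 5, 14, 8]]
  P := {
    a := 7
    N := 16
    nb := [898, 3741, 13354, 4614, 18562, 61508, 24864, 16659, 25281, 4363, 10246, 17426, 33324, 1380,
      35312, 20512]
    tri := [(0, 1, 7), (0, 1, 9), (0, 7, 8), (0, 8, 9), (1, 2, 3), (1, 2, 10), (1, 3, 9), (1, 4, 7),
      (1, 4, 11), (1, 10, 11), (2, 3, 12), (2, 5, 12), (2, 5, 13), (2, 10, 13), (3, 9, 12), (4, 7,
      14), (4, 11, 14), (5, 6, 13), (5, 6, 14), (5, 12, 15), (5, 14, 15), (6, 8, 13), (6, 8, 14)]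
    fin := [0, 1, 2, 1, 0, 5, 5, 0, 5, 1, 10, 1, 2, 2, 14, 15]
    chd := [(0, 1), (5, 15)]
    steps := [(0, 7), (0, 4), (1, 3), (1, 9), (1, 11), (2, 12), (2, 13), (5, 6), (5, 8)] }
  rep := [1, 0, 5, 2, 14, 10, 15]

noncomputable def v3030 : Cov.CovD where
  P := 3
  N := 4
  pl := [3, 7]
  lev := [⟨[], [], [(0, 1), (0, 2), (1, 2)], [], [(0, 1, [0]), (1, 2, [6]), (2, 0, [1])]⟩,
    ⟨[], [(0, 0), (0, 1), (0, 2)], [(0, 0), (0, 1)], [5], [(0, 1, [0]), (2, 0, [1]), (4, 0,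
      [1])]⟩,
    ⟨[(0, 1)], [(1, 0), (1, 1), (1, 3)], [(3, 3)], [5], [(5, 3, []), (6, 3, [])]⟩,
    ⟨[(0, 1), (1, 2)], [(0, 0), (1, 0), (1, 1), (1, 3), (2, 0), (2, 3)], [(0, 3)], [], [(2,
      0, [1]), (5, 3, [])]⟩,
    ⟨[(0, 1), (1, 2), (1, 3)], [(0, 1), (1, 0), (1, 1)], [(0, 1)], [4], [(0, 1, [0]), (4,
      0, [1])]⟩,
    ⟨[(1, 2), (2, 3)], [(2, 3), (2, 6), (3, 3)], [(3, 3), (3, 6)], [4], [(5, 3, []), (6, 3,
      []), (8, 6, [2])]⟩,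
    ⟨[(2, 5)], [(0, 2), (2, 3), (5, 2), (5, 3), (5, 6)], [(2, 3)], [4], [(1, 2, [6]), (6,
      3, [])]⟩]
  Ta := [((2, 1), 0, 2), ((2, 5), 0, 3), ((4, 3), 0, 5), ((4, 7), 0, 4), ((5, 2), 3, 0), ((5, 8),
    3, 6), ((6, 1), 3, 2), ((6, 3), 3, 5)]
  Tb := [((0, 1, 7), 1, 2, 4), ((1, 0, 2), 2, 1, 0), ((1, 0, 6), 2, 1, 3), ((1, 0, 7), 2, 1, 4),
    ((1, 2, 6), 2, 0, 3), ((1, 2, 7), 2, 0, 4), ((1, 6, 7), 2, 3, 4), ((2, 1, 5), 0, 2, 3),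
    ((3, 4, 6), 5, 0, 3), ((4, 3, 7), 0, 5, 4), ((5, 2, 8), 3, 0, 6), ((6, 1, 3), 3, 2, 5),
    ((7, 0, 1), 4, 1, 2), ((7, 0, 4), 4, 1, 0), ((7, 0, 8), 4, 1, 6), ((7, 1, 4), 4, 2, 0),
    ((7, 1, 8), 4, 2, 6), ((7, 4, 8), 4, 0, 6), ((8, 5, 7), 6, 3, 4)]
  Tc := []
  Td := [((0, 1), (2, 1), 2), ((0, 1), (2, 5), 3), ((0, 1), (4, 3), 5), ((0, 1), (4, 7), 4), ((1,
    0), (0, 1), 2), ((1, 0), (0, 7), 4), ((2, 6), (1, 0), 1), ((2, 6), (1, 2), 0), ((2, 6),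
    (1, 6), 3), ((2, 6), (1, 7), 4), ((6, 2), (8, 5), 3), ((6, 2), (8, 7), 4)]
  G := [[0, 0x18512a2118912a21c4, 0xa114161181c8, 0x12121214912182c4,
    0x818e14112d143144282a121418212d14fc8], [0, 0x84cd12a81181c5183e4164, 0xe1121e1181c4,
    0x1212112181c8, 0x111af141111af181c8], [0, 0x18512a2148912a81c4, 0, 0x1242c1248212c2189,
    0x811b8114422448741444282ba4c4989], [0, 0x81cd12a21818b4147c81a4, 0, 0x5292c4112d2c82c1,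
    0x92174212ab34c29821b82831d48892e487c1]]

noncomputable def n3030 : Ent := ⟨e3030, noF, [], [], []⟩

def c3030 : PLift (Cov.check n3030.C.D v3030 = true) := ⟨by decide +kernel⟩

def b3030 : PLift (entF (fidx ts) 400 3030 n3030 = true) := ⟨by decide +kernel⟩

theorem g3030 : GoodF (fidx ts) 400 3030 := GoodF.ofV v3030 n3030 c3030.down b3030.down

/-- 4864464:2354/4 -/
noncomputable def e3031 : SCfg where
  D := {
    a := 7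
    L := 10
    kp := 7
    inn := [(0, 1), (1, 0), (1, 2), (1, 3), (1, 4), (2, 1), (2, 3), (2, 5), (3, 1), (3, 2), (4, 1), (5,
      2), (5, 6), (6, 5)]
    mix := [(0, 0), (0, 1), (0, 2), (1, 0), (1, 2), (1, 3), (1, 4), (2, 3), (2, 5), (2, 6), (3, 2), (3,
      5), (4, 0), (4, 4), (4, 7), (5, 5), (5, 6), (5, 8), (5, 9), (6, 1), (6, 6), (6, 9)]
    cl := [3, 4, 0, 2, 0, 1, 1, 7, 6, 5]
    chq := [(0, 3), (3, 0), (4, 6), (6, 4)]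
    rng := [(0, 1), (0, 7), (1, 0), (1, 2), (1, 6), (1, 9), (2, 1), (2, 5), (3, 4), (3, 6), (4, 3), (4,
      7), (5, 2), (5, 8), (6, 1), (6, 3), (7, 0), (7, 4), (8, 5), (8, 9), (9, 1), (9, 8)]
    lev := [] }
  links := [[1, 7, 8, 9], [7, 0, 9, 3, 2, 10, 11, 4], [10, 1, 3, 12, 5, 13], [12, 2, 1, 9], [7, 1, 11,
    14], [13, 2, 12, 15, 16, 6], [13, 5, 16, 8]]
  P := {
    a := 7
    N := 17
    nb := [898, 3741, 13354, 4614, 18562, 110660, 74016, 16659, 74433, 4363, 10246, 17426, 33324,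
      1380, 2192, 69664, 33120]
    tri := [(0, 1, 7), (0, 1, 9), (0, 7, 8), (0, 8, 9), (1, 2, 3), (1, 2, 10), (1, 3, 9), (1, 4, 7),
      (1, 4, 11), (1, 10, 11), (2, 3, 12), (2, 5, 12), (2, 5, 13), (2, 10, 13), (3, 9, 12), (4, 7,
      14), (4, 11, 14), (5, 6, 13), (5, 6, 16), (5, 12, 15), (5, 15, 16), (6, 8, 13), (6, 8, 16)]
    fin := [0, 1, 2, 1, 0, 5, 5, 0, 5, 1, 10, 1, 2, 2, 14, 15, 16]
    chd := [(0, 1), (5, 15)]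
    steps := [(0, 7), (0, 4), (1, 3), (1, 9), (1, 11), (2, 12), (2, 13), (5, 6), (5, 8)] }
  rep := [1, 2, 10, 0, 5, 16, 15, 14]

noncomputable def v3031 : Cov.CovD where
  P := 3
  N := 5
  pl := [3, 7, 9]
  lev := [⟨[], [], [(0, 3), (0, 4), (3, 4)], [], [(0, 3, [0]), (1, 4, [6]), (2, 0, [3])]⟩,
    ⟨[], [(0, 0), (0, 3), (0, 4)], [(0, 0), (0, 3)], [2], [(0, 3, [0]), (2, 0, [3]), (4, 0,
      [3])]⟩,
    ⟨[(0, 1)], [(1, 0), (1, 1), (1, 3)], [(1, 1)], [2], [(5, 1, []), (6, 1, [])]⟩,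
    ⟨[(0, 1), (1, 2)], [(0, 0), (1, 0), (1, 1), (1, 3), (2, 0), (2, 1)], [(0, 1)], [], [(2,
      0, [3]), (5, 1, [])]⟩,
    ⟨[(0, 1), (1, 2), (1, 3)], [(0, 3), (1, 0), (1, 3)], [(0, 3)], [7], [(0, 3, [0]), (4,
      0, [3])]⟩,
    ⟨[(1, 2), (2, 3)], [(2, 1), (2, 6), (3, 1)], [(1, 1), (1, 6)], [5], [(5, 1, []), (6, 1,
      []), (8, 6, [4])]⟩,
    ⟨[(2, 5)], [(0, 4), (2, 1), (5, 1), (5, 4), (5, 6)], [(1, 4)], [5], [(1, 4, [6]), (6,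
      1, [])]⟩]
  Ta := [((2, 1), 0, 4), ((2, 5), 0, 1), ((4, 3), 0, 2), ((4, 7), 0, 7), ((5, 2), 1, 0), ((5, 8),
    1, 6), ((6, 1), 1, 4), ((6, 3), 1, 2)]
  Tb := [((0, 1, 7), 3, 4, 7), ((1, 0, 2), 4, 3, 0), ((1, 0, 6), 4, 3, 1), ((1, 0, 9), 4, 3, 5),
    ((1, 2, 6), 4, 0, 1), ((1, 2, 9), 4, 0, 5), ((1, 6, 9), 4, 1, 5), ((2, 1, 5), 0, 4, 1),
    ((3, 4, 6), 2, 0, 1), ((4, 3, 7), 0, 2, 7), ((5, 2, 8), 1, 0, 6), ((6, 1, 3), 1, 4, 2),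
    ((7, 0, 4), 7, 3, 0), ((8, 5, 9), 6, 1, 5), ((9, 1, 8), 5, 4, 6)]
  Tc := []
  Td := [((0, 3), (2, 1), 4), ((0, 3), (2, 5), 1), ((0, 3), (4, 3), 2), ((0, 3), (4, 7), 7), ((3,
    0), (0, 1), 4), ((3, 0), (0, 7), 7), ((4, 6), (1, 0), 3), ((4, 6), (1, 2), 0), ((4, 6),
    (1, 6), 1), ((4, 6), (1, 9), 5), ((6, 4), (8, 5), 1), ((6, 4), (8, 9), 5)]
  G := [[0, 0x81ce1248145e1284314e1843161181a8ce, 0, 0,
    0x828d14181143554281498236d232d5a2dd812e], [0, 0, 0,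
    0x898d1418545d128451cd59cda4184898d581ce,
    0x88989cd3218544d121541d541d648a9154419c59cd9892e], [0, 0,
    0x31958c4424215c882438231de48e1, 0, 0x52ad296dc412692d32adc4132cd241a3], [0, 0,
    0x591d591dc24591d591d684a1, 0x591d591da248591d591d591de2843,
    0x11116854cc4c6492915915c1818cc8259cd59cdc21591d248a7]]

noncomputable def n3031 : Ent := ⟨e3031, noF, [], [], [(15, 14, [1685382413448253767852309107433119732572617628602273068445377318913, 0]), (16, 14, [1580095832788404724998799751142926758855362888449624481876431167489, 0])]⟩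

def c3031 : PLift (Cov.check n3031.C.D v3031 = true) := ⟨by decide +kernel⟩

def b3031 : PLift (entF (fidx ts) 400 3031 n3031 = true) := ⟨by decide +kernel⟩

theorem g3031 : GoodF (fidx ts) 400 3031 := GoodF.ofV v3031 n3031 c3031.down b3031.down

/-- 4864464:2354/7 -/
noncomputable def e3032 : SCfg where
  D := {
    a := 7
    L := 10
    kp := 7
    inn := [(0, 1), (1, 0), (1, 2), (1, 3), (1, 4), (2, 1), (2, 3), (2, 5), (3, 1), (3, 2), (4, 1), (5,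
      2), (5, 6), (6, 5)]
    mix := [(0, 0), (0, 1), (0, 2), (1, 0), (1, 2), (1, 3), (1, 4), (2, 3), (2, 5), (2, 6), (3, 2), (3,
      5), (4, 0), (4, 4), (4, 7), (5, 5), (5, 6), (5, 7), (5, 8), (6, 6), (6, 8), (6, 9)]
    cl := [1, 7, 0, 2, 0, 3, 3, 4, 5, 6]
    chq := [(0, 1), (1, 0), (4, 6), (6, 4)]
    rng := [(0, 1), (0, 7), (1, 0), (1, 2), (2, 1), (2, 5), (3, 4), (3, 6), (4, 3), (4, 7), (5, 2), (5,
      7), (6, 3), (6, 9), (7, 0), (7, 4), (7, 5), (7, 8), (8, 7), (8, 9), (9, 6), (9, 8)]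
    lev := [] }
  links := [[1, 7, 8, 9], [7, 0, 9, 3, 2, 10, 11, 4], [10, 1, 3, 12, 5, 13], [12, 2, 1, 9], [7, 1, 11,
    14], [13, 2, 12, 14, 15, 6], [13, 5, 15, 16]]
  P := {
    a := 7
    N := 17
    nb := [898, 3741, 13354, 4614, 18562, 61508, 106528, 16659, 641, 4363, 10246, 17426, 16940, 66660,
      39088, 82016, 41024]
    tri := [(0, 1, 7), (0, 1, 9), (0, 7, 8), (0, 8, 9), (1, 2, 3), (1, 2, 10), (1, 3, 9), (1, 4, 7),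
      (1, 4, 11), (1, 10, 11), (2, 3, 12), (2, 5, 12), (2, 5, 13), (2, 10, 13), (3, 9, 12), (4, 7,
      14), (4, 11, 14), (5, 6, 13), (5, 6, 15), (5, 12, 14), (5, 14, 15), (6, 13, 16), (6, 15,
      16)]
    fin := [0, 1, 2, 1, 0, 5, 5, 0, 8, 1, 10, 1, 2, 2, 5, 15, 16]
    chd := [(0, 1), (5, 16)]
    steps := [(0, 7), (0, 4), (1, 3), (1, 9), (1, 11), (2, 12), (2, 13), (5, 6), (5, 14)] }
  rep := [1, 0, 10, 2, 5, 15, 16, 8]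

noncomputable def v3032 : Cov.CovD where
  P := 3
  N := 5
  pl := [1, 3, 8]
  lev := [⟨[], [], [(0, 1)], [7], [(0, 1, [0]), (2, 0, [1])]⟩,
    ⟨[], [(0, 0), (0, 1)], [(0, 0), (0, 1)], [2], [(0, 1, [0]), (2, 0, [1]), (4, 0, [1])]⟩,
    ⟨[(0, 1)], [(1, 0), (1, 1), (1, 3)], [(3, 3)], [2], [(5, 3, []), (6, 3, [])]⟩,
    ⟨[(0, 1), (1, 2)], [(0, 0), (1, 0), (1, 1), (1, 3), (2, 0), (2, 3)], [(0, 3)], [], [(2,
      0, [1]), (5, 3, [])]⟩,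
    ⟨[(0, 1), (1, 2), (1, 3)], [(0, 1), (1, 0), (1, 1), (1, 4)], [(0, 1), (0, 4), (1, 4)],
      [], [(0, 1, [0]), (4, 0, [1]), (7, 4, [6])]⟩,
    ⟨[(1, 2), (2, 3)], [(2, 3), (2, 4), (3, 3), (4, 4)], [(3, 3), (3, 4)], [5], [(5, 3,
      []), (6, 3, []), (7, 4, [6])]⟩,
    ⟨[(2, 5)], [(2, 3), (5, 3), (5, 4), (5, 6)], [(3, 6)], [5], [(6, 3, []), (9, 6, [4])]⟩]
  Ta := [((2, 1), 0, 7), ((2, 5), 0, 3), ((4, 3), 0, 2), ((4, 7), 0, 4), ((5, 2), 3, 0), ((5, 7),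
    3, 4), ((6, 3), 3, 2), ((6, 9), 3, 6)]
  Tb := [((0, 1, 7), 1, 7, 4), ((1, 0, 2), 7, 1, 0), ((2, 1, 5), 0, 7, 3), ((3, 4, 6), 2, 0, 3),
    ((4, 3, 7), 0, 2, 4), ((5, 2, 7), 3, 0, 4), ((6, 3, 9), 3, 2, 6), ((7, 0, 4), 4, 1, 0),
    ((7, 0, 5), 4, 1, 3), ((7, 0, 8), 4, 1, 5), ((7, 4, 5), 4, 0, 3), ((7, 4, 8), 4, 0, 5),
    ((7, 5, 8), 4, 3, 5), ((8, 7, 9), 5, 4, 6), ((9, 6, 8), 6, 3, 5)]
  Tc := []
  Td := [((0, 1), (2, 1), 7), ((0, 1), (2, 5), 3), ((0, 1), (4, 3), 2), ((0, 1), (4, 7), 4), ((1,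
    0), (0, 1), 7), ((1, 0), (0, 7), 4), ((4, 6), (7, 0), 1), ((4, 6), (7, 4), 0), ((4, 6),
    (7, 5), 3), ((4, 6), (7, 8), 5), ((6, 4), (9, 6), 3), ((6, 4), (9, 8), 5)]
  G := [[0, 0x42adc436218286d4c36218a, 0, 0x61ce1224a7129413b8f12486b1858c,
    0x1a5e1422cd143861ce1442ad1438c], [0, 0x2c8bf41c798224684d4f26dd85f2e214a, 0,
    0x51186adaf12547bdef1814c, 0x7bdef12188d5122c77146818b8c], [0, 0x482d4c36218482d4c36218a,
    0x212887c488c4284e98c5c6a41, 0x4848f9a3c2181, 0x284b9a5c4181], [0,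
    0xc95448f36df2a81c5182f6af9a7c2546, 0x6d9ca97c2247788a41, 0xf74bf9a7c8141,
    0xf56bfb87c2181]]

noncomputable def n3032 : Ent := ⟨e3032, noF, [], [], [(8, 16, [1580044410770988437309982408355971841652082177953823432505701519361, 0])]⟩

def c3032 : PLift (Cov.check n3032.C.D v3032 = true) := ⟨by decide +kernel⟩

def b3032 : PLift (entF (fidx ts) 400 3032 n3032 = true) := ⟨by decide +kernel⟩

theorem g3032 : GoodF (fidx ts) 400 3032 := GoodF.ofV v3032 n3032 c3032.down b3032.down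

/-- 4864464:2354/8 -/
noncomputable def e3033 : SCfg where
  D := {
    a := 7
    L := 10
    kp := 7
    inn := [(0, 1), (1, 0), (1, 2), (1, 3), (1, 4), (2, 1), (2, 3), (2, 5), (3, 1), (3, 2), (4, 1), (5,
      2), (5, 6), (6, 5)]
    mix := [(0, 0), (0, 1), (0, 2), (1, 0), (1, 2), (1, 3), (1, 4), (2, 3), (2, 5), (2, 6), (3, 2), (3,
      5), (4, 0), (4, 4), (4, 7), (5, 5), (5, 6), (5, 7), (5, 8), (6, 6), (6, 7), (6, 9)]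
    cl := [1, 7, 0, 2, 0, 3, 3, 4, 5, 6]
    chq := [(0, 1), (1, 0), (5, 6), (6, 5)]
    rng := [(0, 1), (0, 7), (1, 0), (1, 2), (2, 1), (2, 5), (3, 4), (3, 6), (4, 3), (4, 7), (5, 2), (5,
      8), (6, 3), (6, 9), (7, 0), (7, 4), (7, 8), (7, 9), (8, 5), (8, 7), (9, 6), (9, 7)]
    lev := [] }
  links := [[1, 7, 8, 9], [7, 0, 9, 3, 2, 10, 11, 4], [10, 1, 3, 12, 5, 13], [12, 2, 1, 9], [7, 1, 11,
    14], [13, 2, 12, 15, 14, 6], [13, 5, 14, 16]]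
  P := {
    a := 7
    N := 17
    nb := [898, 3741, 13354, 4614, 18562, 61508, 90144, 16659, 641, 4363, 10246, 17426, 33324, 66660,
      100592, 20512, 24640]
    tri := [(0, 1, 7), (0, 1, 9), (0, 7, 8), (0, 8, 9), (1, 2, 3), (1, 2, 10), (1, 3, 9), (1, 4, 7),
      (1, 4, 11), (1, 10, 11), (2, 3, 12), (2, 5, 12), (2, 5, 13), (2, 10, 13), (3, 9, 12), (4, 7,
      14), (4, 11, 14), (5, 6, 13), (5, 6, 14), (5, 12, 15), (5, 14, 15), (6, 13, 16), (6, 14,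
      16)]
    fin := [0, 1, 2, 1, 0, 5, 5, 0, 8, 1, 10, 1, 2, 2, 14, 5, 16]
    chd := [(0, 1), (5, 16)]
    steps := [(0, 7), (0, 4), (1, 3), (1, 9), (1, 11), (2, 12), (2, 13), (5, 6), (5, 15)] }
  rep := [1, 0, 10, 2, 14, 5, 16, 8]

noncomputable def v3033 : Cov.CovD where
  P := 3
  N := 5
  pl := [1, 3, 7]
  lev := [⟨[], [], [(0, 1)], [7], [(0, 1, [0]), (2, 0, [1])]⟩,
    ⟨[], [(0, 0), (0, 1)], [(0, 0), (0, 1)], [2], [(0, 1, [0]), (2, 0, [1]), (4, 0, [1])]⟩,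
    ⟨[(0, 1)], [(1, 0), (1, 1), (1, 3)], [(3, 3)], [2], [(5, 3, []), (6, 3, [])]⟩,
    ⟨[(0, 1), (1, 2)], [(0, 0), (1, 0), (1, 1), (1, 3), (2, 0), (2, 3)], [(0, 3)], [], [(2,
      0, [1]), (5, 3, [])]⟩,
    ⟨[(0, 1), (1, 2), (1, 3)], [(0, 1), (1, 0), (1, 1)], [(0, 1)], [4], [(0, 1, [0]), (4,
      0, [1])]⟩,
    ⟨[(1, 2), (2, 3)], [(2, 3), (2, 5), (3, 3)], [(3, 3), (3, 5)], [4], [(5, 3, []), (6, 3,
      []), (8, 5, [6])]⟩,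
    ⟨[(2, 5)], [(2, 3), (5, 3), (5, 5), (5, 6)], [(3, 6)], [4], [(6, 3, []), (9, 6, [5])]⟩]
  Ta := [((2, 1), 0, 7), ((2, 5), 0, 3), ((4, 3), 0, 2), ((4, 7), 0, 4), ((5, 2), 3, 0), ((5, 8),
    3, 5), ((6, 3), 3, 2), ((6, 9), 3, 6)]
  Tb := [((0, 1, 7), 1, 7, 4), ((1, 0, 2), 7, 1, 0), ((2, 1, 5), 0, 7, 3), ((3, 4, 6), 2, 0, 3),
    ((4, 3, 7), 0, 2, 4), ((5, 2, 8), 3, 0, 5), ((6, 3, 9), 3, 2, 6), ((7, 0, 4), 4, 1, 0),
    ((7, 0, 8), 4, 1, 5), ((7, 0, 9), 4, 1, 6), ((7, 4, 8), 4, 0, 5), ((7, 4, 9), 4, 0, 6),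
    ((7, 8, 9), 4, 5, 6), ((8, 5, 7), 5, 3, 4), ((9, 6, 7), 6, 3, 4)]
  Tc := []
  Td := [((0, 1), (2, 1), 7), ((0, 1), (2, 5), 3), ((0, 1), (4, 3), 2), ((0, 1), (4, 7), 4), ((1,
    0), (0, 1), 7), ((1, 0), (0, 7), 4), ((5, 6), (8, 5), 3), ((5, 6), (8, 7), 4), ((6, 5),
    (9, 6), 3), ((6, 5), (9, 7), 4)]
  G := [[0, 0x188d123a214484d123a214c, 0, 0x111e1211c71294111e12116b1258c,
    0x111e1412ad1438111e1411ad1438c], [0, 0x818818145123e894181c51a3e214a, 0,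
    0x111ef18141451211ab1458c, 0x111ef141818911679418c], [0, 0x114d1236218484d1236218c,
    0x2254188b8c124189145ca681, 0x382b3447c2141, 0x288b345c4181], [0,
    0x11cd11ab6418189145123e218a, 0x189145c21231167c8a41, 0x7dabb167c4181, 0x75abb967c4181]]

noncomputable def n3033 : Ent := ⟨e3033, noF, [], [], [(8, 15, [1685356702439545624007900436039642273970977273354372543760012484609, 0]), (8, 16, [1580044410770988437309982408355971841652082177953823432505701523457, 0])]⟩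

def c3033 : PLift (Cov.check n3033.C.D v3033 = true) := ⟨by decide +kernel⟩

def b3033 : PLift (entF (fidx ts) 400 3033 n3033 = true) := ⟨by decide +kernel⟩

theorem g3033 : GoodF (fidx ts) 400 3033 := GoodF.ofV v3033 n3033 c3033.down b3033.down

/-- 4864464:2354/9 -/
noncomputable def e3034 : SCfg where
  D := {
    a := 7
    L := 10
    kp := 7
    inn := [(0, 1), (1, 0), (1, 2), (1, 3), (1, 4), (2, 1), (2, 3), (2, 5), (3, 1), (3, 2), (4, 1), (5,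
      2), (5, 6), (6, 5)]
    mix := [(0, 0), (0, 1), (0, 2), (1, 0), (1, 2), (1, 3), (1, 4), (2, 3), (2, 5), (2, 6), (3, 2), (3,
      5), (4, 0), (4, 4), (4, 7), (5, 5), (5, 6), (5, 8), (5, 9), (6, 6), (6, 7), (6, 9)]
    cl := [1, 7, 0, 2, 0, 3, 3, 4, 6, 5]
    chq := [(0, 1), (1, 0), (4, 6), (6, 4)]
    rng := [(0, 1), (0, 7), (1, 0), (1, 2), (2, 1), (2, 5), (3, 4), (3, 6), (4, 3), (4, 7), (5, 2), (5,
      8), (6, 3), (6, 7), (7, 0), (7, 4), (7, 6), (7, 9), (8, 5), (8, 9), (9, 7), (9, 8)]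
    lev := [] }
  links := [[1, 7, 8, 9], [7, 0, 9, 3, 2, 10, 11, 4], [10, 1, 3, 12, 5, 13], [12, 2, 1, 9], [7, 1, 11,
    14], [13, 2, 12, 15, 16, 6], [13, 5, 16, 14]]
  P := {
    a := 7
    N := 17
    nb := [898, 3741, 13354, 4614, 18562, 110660, 90144, 16659, 641, 4363, 10246, 17426, 33324, 17508,
      75984, 69664, 49248]
    tri := [(0, 1, 7), (0, 1, 9), (0, 7, 8), (0, 8, 9), (1, 2, 3), (1, 2, 10), (1, 3, 9), (1, 4, 7),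
      (1, 4, 11), (1, 10, 11), (2, 3, 12), (2, 5, 12), (2, 5, 13), (2, 10, 13), (3, 9, 12), (4, 7,
      14), (4, 11, 14), (5, 6, 13), (5, 6, 16), (5, 12, 15), (5, 15, 16), (6, 13, 14), (6, 14,
      16)]
    fin := [0, 1, 2, 1, 0, 5, 5, 0, 8, 1, 10, 1, 2, 2, 14, 5, 16]
    chd := [(0, 1), (14, 5)]
    steps := [(0, 7), (0, 4), (1, 3), (1, 9), (1, 11), (2, 12), (2, 13), (5, 6), (5, 15)] }
  rep := [1, 0, 10, 2, 14, 16, 5, 8]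

noncomputable def v3034 : Cov.CovD where
  P := 3
  N := 5
  pl := [1, 3, 9]
  lev := [⟨[], [], [(0, 1)], [7], [(0, 1, [0]), (2, 0, [1])]⟩,
    ⟨[], [(0, 0), (0, 1)], [(0, 0), (0, 1)], [2], [(0, 1, [0]), (2, 0, [1]), (4, 0, [1])]⟩,
    ⟨[(0, 1)], [(1, 0), (1, 1), (1, 3)], [(3, 3)], [2], [(5, 3, []), (6, 3, [])]⟩,
    ⟨[(0, 1), (1, 2)], [(0, 0), (1, 0), (1, 1), (1, 3), (2, 0), (2, 3)], [(0, 3)], [], [(2,
      0, [1]), (5, 3, [])]⟩,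
    ⟨[(0, 1), (1, 2), (1, 3)], [(0, 1), (1, 0), (1, 1), (1, 4)], [(0, 1), (0, 4), (1, 4)],
      [], [(0, 1, [0]), (4, 0, [1]), (7, 4, [6])]⟩,
    ⟨[(1, 2), (2, 3)], [(2, 3), (2, 6), (3, 3)], [(3, 3), (3, 6)], [5], [(5, 3, []), (6, 3,
      []), (8, 6, [4])]⟩,
    ⟨[(2, 5)], [(2, 3), (4, 4), (5, 3), (5, 4), (5, 6)], [(3, 4)], [5], [(6, 3, []), (7, 4,
      [6])]⟩]
  Ta := [((2, 1), 0, 7), ((2, 5), 0, 3), ((4, 3), 0, 2), ((4, 7), 0, 4), ((5, 2), 3, 0), ((5, 8),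
    3, 6), ((6, 3), 3, 2), ((6, 7), 3, 4)]
  Tb := [((0, 1, 7), 1, 7, 4), ((1, 0, 2), 7, 1, 0), ((2, 1, 5), 0, 7, 3), ((3, 4, 6), 2, 0, 3),
    ((4, 3, 7), 0, 2, 4), ((5, 2, 8), 3, 0, 6), ((6, 3, 7), 3, 2, 4), ((7, 0, 4), 4, 1, 0),
    ((7, 0, 6), 4, 1, 3), ((7, 0, 9), 4, 1, 5), ((7, 4, 6), 4, 0, 3), ((7, 4, 9), 4, 0, 5),
    ((7, 6, 9), 4, 3, 5), ((8, 5, 9), 6, 3, 5), ((9, 7, 8), 5, 4, 6)]
  Tc := []
  Td := [((0, 1), (2, 1), 7), ((0, 1), (2, 5), 3), ((0, 1), (4, 3), 2), ((0, 1), (4, 7), 4), ((1,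
    0), (0, 1), 7), ((1, 0), (0, 7), 4), ((4, 6), (7, 0), 1), ((4, 6), (7, 4), 0), ((4, 6),
    (7, 6), 3), ((4, 6), (7, 9), 5), ((6, 4), (8, 5), 3), ((6, 4), (8, 9), 5)]
  G := [[0, 0xa287554bc2189887412bc2186, 0, 0x1ac1f12694b4258135e128564299294c,
    0x319e1423cd1438181a561c332d1438c], [0, 0x74dcf8b2af64188c94d67b26fe418c, 0,
    0x7bd6f14111128c7bdef1218c, 0x7bdef12187bdef1218c], [0, 0x38c4f812762189c87524bc218c,
    0x81928c896864241417c584a8c1, 0x3827314bc2181, 0x8988f244dc4181], [0,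
    0x84dcf7b26fa81484dcf7b26fa2186, 0xb127c361fc243a1b311bc28c1, 0x8b7af74a6fc8141,
    0x1b2af74d6fc2181]]

noncomputable def n3034 : Ent := ⟨e3034, noF, [], [], [(8, 15, [1685356702439545624007900436039642273970977273354372543760012488705, 0])]⟩

def c3034 : PLift (Cov.check n3034.C.D v3034 = true) := ⟨by decide +kernel⟩

def b3034 : PLift (entF (fidx ts) 400 3034 n3034 = true) := ⟨by decide +kernel⟩

theorem g3034 : GoodF (fidx ts) 400 3034 := GoodF.ofV v3034 n3034 c3034.down b3034.down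

/-- 4864464:2354 -/
noncomputable def e3035 : SCfg where
  D := {
    a := 7
    L := 11
    kp := 8
    inn := [(0, 1), (1, 0), (1, 2), (1, 3), (1, 4), (2, 1), (2, 3), (2, 5), (3, 1), (3, 2), (4, 1), (5,
      2), (5, 6), (6, 5)]
    mix := [(0, 0), (0, 1), (0, 2), (1, 0), (1, 2), (1, 3), (1, 4), (2, 3), (2, 5), (2, 6), (3, 2), (3,
      5), (4, 0), (4, 4), (4, 7), (5, 5), (5, 6), (5, 8), (5, 9), (6, 6), (6, 9), (6, 10)]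
    cl := [1, 7, 0, 2, 0, 3, 3, 8, 5, 4, 6]
    chq := [(0, 1), (1, 0), (5, 6), (6, 5)]
    rng := [(0, 1), (0, 7), (1, 0), (1, 2), (2, 1), (2, 5), (3, 4), (3, 6), (4, 3), (4, 7), (5, 2), (5,
      8), (6, 3), (6, 10), (7, 0), (7, 4), (8, 5), (8, 9), (9, 8), (9, 10), (10, 6), (10, 9)]
    lev := [] }
  links := [[1, 7, 8, 9], [7, 0, 9, 3, 2, 10, 11, 4], [10, 1, 3, 12, 5, 13], [12, 2, 1, 9], [7, 1, 11,
    14], [13, 2, 12, 15, 16, 6], [13, 5, 16, 17]]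
  P := {
    a := 7
    N := 18
    nb := [898, 3741, 13354, 4614, 18562, 110660, 204832, 16659, 641, 4363, 10246, 17426, 33324,
      132196, 2192, 69664, 163936, 73792]
    tri := [(0, 1, 7), (0, 1, 9), (0, 7, 8), (0, 8, 9), (1, 2, 3), (1, 2, 10), (1, 3, 9), (1, 4, 7),
      (1, 4, 11), (1, 10, 11), (2, 3, 12), (2, 5, 12), (2, 5, 13), (2, 10, 13), (3, 9, 12), (4, 7,
      14), (4, 11, 14), (5, 6, 13), (5, 6, 16), (5, 12, 15), (5, 15, 16), (6, 13, 17), (6, 16,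
      17)]
    fin := [0, 1, 2, 1, 0, 5, 5, 0, 8, 1, 10, 1, 2, 2, 14, 5, 16, 17]
    chd := [(0, 1), (5, 17)]
    steps := [(0, 7), (0, 4), (1, 3), (1, 9), (1, 11), (2, 12), (2, 13), (5, 6), (5, 15)] }
  rep := [1, 0, 10, 2, 16, 5, 17, 8, 14]

noncomputable def v3035 : Cov.CovD where
  P := 3
  N := 6
  pl := [1, 3, 7, 9]
  lev := [⟨[], [], [(0, 1)], [7], [(0, 1, [0]), (2, 0, [1])]⟩,
    ⟨[], [(0, 0), (0, 1)], [(0, 0), (0, 1)], [2], [(0, 1, [0]), (2, 0, [1]), (4, 0, [1])]⟩,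
    ⟨[(0, 1)], [(1, 0), (1, 1), (1, 3)], [(3, 3)], [2], [(5, 3, []), (6, 3, [])]⟩,
    ⟨[(0, 1), (1, 2)], [(0, 0), (1, 0), (1, 1), (1, 3), (2, 0), (2, 3)], [(0, 3)], [], [(2,
      0, [1]), (5, 3, [])]⟩,
    ⟨[(0, 1), (1, 2), (1, 3)], [(0, 1), (1, 0), (1, 1)], [(0, 1)], [8], [(0, 1, [0]), (4,
      0, [1])]⟩,
    ⟨[(1, 2), (2, 3)], [(2, 3), (2, 5), (3, 3)], [(3, 3), (3, 5)], [4], [(5, 3, []), (6, 3,
      []), (8, 5, [6])]⟩,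
    ⟨[(2, 5)], [(2, 3), (5, 3), (5, 5), (5, 6)], [(3, 6)], [4], [(6, 3, []), (10, 6, [5])]⟩]
  Ta := [((2, 1), 0, 7), ((2, 5), 0, 3), ((4, 3), 0, 2), ((4, 7), 0, 8), ((5, 2), 3, 0), ((5, 8),
    3, 5), ((6, 3), 3, 2), ((6, 10), 3, 6)]
  Tb := [((0, 1, 7), 1, 7, 8), ((1, 0, 2), 7, 1, 0), ((2, 1, 5), 0, 7, 3), ((3, 4, 6), 2, 0, 3),
    ((4, 3, 7), 0, 2, 8), ((5, 2, 8), 3, 0, 5), ((6, 3, 10), 3, 2, 6), ((7, 0, 4), 8, 1, 0),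
    ((8, 5, 9), 5, 3, 4), ((9, 8, 10), 4, 5, 6), ((10, 6, 9), 6, 3, 4)]
  Tc := []
  Td := [((0, 1), (2, 1), 7), ((0, 1), (2, 5), 3), ((0, 1), (4, 3), 2), ((0, 1), (4, 7), 8), ((1,
    0), (0, 1), 7), ((1, 0), (0, 7), 8), ((5, 6), (8, 5), 3), ((5, 6), (8, 9), 4), ((6, 5),
    (10, 6), 3), ((6, 5), (10, 9), 4)]
  G := [[0, 0x485af3856fa214489af4896f62186, 0, 0x5a1e1298c7129431ce1285a71294c,
    0x135e1423cd1438619e14296d1438c], [0, 0x7bdef7bdef62187bdef7bdefc418a, 0,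
    0x7bdef18147bdef1814c, 0x7bdef12187bdef1218c], [0, 0x4396f4856fa214385af5acafc2146,
    0x8228ac4424a73467c388c39bd3ebdc2ac1, 0x485af4396fc2141, 0x238cf238cfc4181], [0,
    0x41417bdef7bdafa4587bdef7bdefa2186, 0x798cf59cdc2356723d6fc8a41, 0x7bdef7bdefc8141,
    0x7bdef7bdefc2181]]

noncomputable def n3035 : Ent := ⟨e3035, noF, [], [], [(8, 15, [7334790850167413569773436004105379185503274260204390087403942017056769, 0]), (8, 17, [6903326391201334775872065844685381424292761054348340378595029942104065, 0]), (15, 14, [7334790875878422277917280412776772662961875900559637987928627381895169, 0]), (16, 14, [7334685589297762428874426903420482469988158645819485339342058435743745, 0]), (17, 14, [6903326468334360900303599070699561856668565975414084080169086036582401, 0])]⟩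

def c3035 : PLift (Cov.check n3035.C.D v3035 = true) := ⟨by decide +kernel⟩

def b3035 : PLift (entF (fidx ts) 400 3035 n3035 = true) := ⟨by decide +kernel⟩

theorem g3035 : GoodF (fidx ts) 400 3035 := GoodF.ofV v3035 n3035 c3035.down b3035.down

/-- 4594664:2356/1 -/
noncomputable def e3036 : SCfg where
  D := {
    a := 7
    L := 10
    kp := 7
    inn := [(0, 1), (0, 2), (1, 0), (1, 2), (1, 4), (1, 5), (2, 0), (2, 1), (2, 3), (2, 5), (2, 6), (3,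
      2), (4, 1), (4, 5), (5, 1), (5, 2), (5, 4), (6, 2)]
    mix := [(0, 0), (0, 1), (1, 1), (2, 0), (2, 2), (2, 3), (2, 4), (3, 3), (3, 4), (3, 5), (4, 1), (4,
      5), (4, 6), (4, 7), (5, 2), (5, 7), (5, 8), (6, 2), (6, 3), (6, 9)]
    cl := [2, 1, 0, 3, 0, 4, 6, 1, 5, 7]
    chq := [(0, 3), (2, 5), (3, 0), (5, 2)]
    rng := [(0, 1), (0, 4), (1, 0), (1, 5), (2, 8), (2, 9), (3, 5), (3, 9), (4, 0), (4, 5), (5, 1), (5,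
      3), (5, 4), (5, 6), (6, 5), (6, 7), (7, 6), (7, 8), (8, 2), (8, 7), (9, 2), (9, 3)]
    lev := [] }
  links := [[1, 2, 7, 8], [2, 0, 8, 4, 5], [7, 0, 1, 5, 9, 6, 10, 3, 11], [11, 2, 10, 12], [5, 1, 8, 12,
    13, 14], [9, 2, 1, 4, 14, 15], [10, 2, 9, 16]]
  P := {
    a := 7
    N := 17
    nb := [390, 309, 3819, 7172, 28962, 49686, 67076, 2309, 4243, 98404, 69708, 4236, 11544, 20496,
      41008, 16928, 1600]
    tri := [(0, 1, 2), (0, 1, 8), (0, 2, 7), (0, 7, 8), (1, 2, 5), (1, 4, 5), (1, 4, 8), (2, 3, 10),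
      (2, 3, 11), (2, 5, 9), (2, 6, 9), (2, 6, 10), (2, 7, 11), (3, 10, 12), (3, 11, 12), (4, 5,
      14), (4, 8, 12), (4, 12, 13), (4, 13, 14), (5, 9, 15), (5, 14, 15), (6, 9, 16), (6, 10, 16)]
    fin := [0, 0, 2, 3, 4, 0, 2, 0, 4, 2, 10, 2, 3, 13, 4, 15, 16]
    chd := [(0, 15), (2, 10)]
    steps := [(0, 1), (0, 5), (0, 7), (2, 6), (2, 9), (2, 11), (3, 12), (4, 8), (4, 14)] }
  rep := [2, 4, 0, 10, 3, 15, 13, 16]

noncomputable def v3036 : Cov.CovD where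
  P := 3
  N := 5
  pl := [5, 6, 9]
  lev := [⟨[], [], [(1, 2)], [], [(0, 2, [5]), (1, 1, [])]⟩,
    ⟨[], [(0, 1), (0, 2)], [], [], [(1, 1, [])]⟩,
    ⟨[(0, 1)], [(0, 0), (0, 1), (0, 2), (0, 3), (1, 0), (1, 1), (1, 2), (1, 3)], [(0, 0),
      (0, 2), (0, 3), (2, 3)], [], [(0, 2, [5]), (2, 0, [3]), (3, 3, [0]), (4, 0, [3])]⟩,
    ⟨[(0, 2), (1, 2)], [(2, 0), (2, 2), (2, 3)], [(0, 3)], [4], [(3, 3, [0]), (4, 0, [3])]⟩,
    ⟨[(0, 1), (1, 2)], [(0, 1), (1, 1)], [(1, 1)], [4, 6], [(1, 1, []), (7, 1, [])]⟩,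
    ⟨[(0, 1), (0, 2), (1, 2), (1, 4), (2, 3), (2, 4)], [(1, 0), (1, 1), (1, 5), (2, 0), (2,
      1), (2, 2), (2, 3), (2, 5), (4, 0), (4, 1), (4, 5)], [(0, 1), (0, 5), (1, 5)], [], [(2,
      0, [3]), (7, 1, []), (8, 5, [2])]⟩,
    ⟨[(0, 2), (1, 2), (2, 3), (2, 5)], [(2, 0), (2, 2), (2, 3), (3, 3), (5, 0)], [(0, 3)],
      [7], [(2, 0, [3]), (3, 3, [0])]⟩]
  Ta := [((1, 0), 1, 2), ((1, 5), 1, 4), ((2, 8), 0, 5), ((2, 9), 0, 7), ((4, 0), 0, 2), ((4, 5),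
    0, 4), ((7, 6), 1, 6), ((7, 8), 1, 5)]
  Tb := [((0, 1, 4), 2, 1, 0), ((1, 0, 5), 1, 2, 4), ((2, 8, 9), 0, 5, 7), ((3, 5, 9), 3, 4, 7),
    ((4, 0, 5), 0, 2, 4), ((5, 1, 3), 4, 1, 3), ((5, 1, 4), 4, 1, 0), ((5, 1, 6), 4, 1, 6),
    ((5, 3, 4), 4, 3, 0), ((5, 3, 6), 4, 3, 6), ((5, 4, 6), 4, 0, 6), ((6, 5, 7), 6, 4, 1),
    ((7, 6, 8), 1, 6, 5), ((8, 2, 7), 5, 0, 1), ((9, 2, 3), 7, 0, 3)]
  Tc := []
  Td := [((0, 3), (2, 8), 5), ((0, 3), (2, 9), 7), ((0, 3), (4, 0), 2), ((0, 3), (4, 5), 4), ((2,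
    5), (0, 1), 1), ((2, 5), (0, 4), 0), ((3, 0), (3, 5), 4), ((3, 0), (3, 9), 7), ((5, 2),
    (8, 2), 0), ((5, 2), (8, 7), 1)]
  G := [[0, 0xa2442e2654624ee8a14a8222866682ac2886aa6cb86c, 0, 0x624e2e2934a2a29e2438c1,
    0x6246416a486466c64d9a1c282c2d1849], [0, 0xa246242eeae541628aa6282a2cb81c, 0, 0,
    0xc488c4d246ec24d324cc4c4c4958841ca1], [0,
    0x19c211abba18e11661cae4272852213a2e811641164a86c, 0x124212125121296c112129121a84c,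
    0x127212d2121291212562629ec18, 0x541492232729c1c25124e6161c4ac1], [0,
    0x321211ae6266aa645232116e4243211c6e8c1, 0x1414911c11c5c18189811c11c11cd2e14, 0,
    0xd499cd4d2211414955c145c81a]]

noncomputable def n3036 : Ent := ⟨e3036, noF, [], [], []⟩

def c3036 : PLift (Cov.check n3036.C.D v3036 = true) := ⟨by decide +kernel⟩

def b3036 : PLift (entF (fidx ts) 400 3036 n3036 = true) := ⟨by decide +kernel⟩

theorem g3036 : GoodF (fidx ts) 400 3036 := GoodF.ofV v3036 n3036 c3036.down b3036.down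

/-- 4594664:2356/2 -/
noncomputable def e3037 : SCfg where
  D := {
    a := 7
    L := 10
    kp := 7
    inn := [(0, 1), (0, 2), (1, 0), (1, 2), (1, 4), (1, 5), (2, 0), (2, 1), (2, 3), (2, 5), (2, 6), (3,
      2), (4, 1), (4, 5), (5, 1), (5, 2), (5, 4), (6, 2)]
    mix := [(0, 0), (0, 1), (1, 1), (2, 0), (2, 2), (2, 3), (2, 4), (3, 3), (3, 4), (3, 5), (4, 1), (4,
      5), (4, 6), (4, 7), (5, 2), (5, 7), (5, 8), (6, 2), (6, 3), (6, 9)]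
    cl := [1, 3, 0, 4, 0, 2, 6, 3, 5, 7]
    chq := [(0, 4), (1, 5), (4, 0), (5, 1)]
    rng := [(0, 1), (0, 4), (1, 0), (1, 6), (2, 8), (2, 9), (3, 5), (3, 9), (4, 0), (4, 5), (5, 3), (5,
      4), (5, 6), (5, 7), (6, 1), (6, 5), (7, 5), (7, 8), (8, 2), (8, 7), (9, 2), (9, 3)]
    lev := [] }
  links := [[1, 2, 7, 8], [2, 0, 8, 4, 5], [7, 0, 1, 5, 9, 6, 10, 3, 11], [11, 2, 10, 12], [5, 1, 8, 13,
    12, 14], [9, 2, 1, 4, 14, 15], [10, 2, 9, 16]]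
  P := {
    a := 7
    N := 17
    nb := [390, 309, 3819, 7172, 28962, 49686, 67076, 2309, 8339, 98404, 69708, 4236, 27672, 4368,
      36912, 16928, 1600]
    tri := [(0, 1, 2), (0, 1, 8), (0, 2, 7), (0, 7, 8), (1, 2, 5), (1, 4, 5), (1, 4, 8), (2, 3, 10),
      (2, 3, 11), (2, 5, 9), (2, 6, 9), (2, 6, 10), (2, 7, 11), (3, 10, 12), (3, 11, 12), (4, 5,
      14), (4, 8, 13), (4, 12, 13), (4, 12, 14), (5, 9, 15), (5, 14, 15), (6, 9, 16), (6, 10, 16)]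
    fin := [0, 0, 2, 3, 4, 0, 2, 0, 4, 2, 10, 2, 3, 13, 4, 15, 16]
    chd := [(0, 15), (2, 10)]
    steps := [(0, 1), (0, 5), (0, 7), (2, 6), (2, 9), (2, 11), (3, 12), (4, 8), (4, 14)] }
  rep := [2, 0, 3, 4, 10, 15, 13, 16]

noncomputable def v3037 : Cov.CovD where
  P := 3
  N := 5
  pl := [5, 6, 9]
  lev := [⟨[], [], [(1, 3)], [], [(0, 1, [5]), (1, 3, [])]⟩,
    ⟨[], [(0, 1), (0, 3)], [], [], [(1, 3, [])]⟩,
    ⟨[(0, 1)], [(0, 0), (0, 1), (0, 3), (0, 4), (1, 0), (1, 1), (1, 3), (1, 4)], [(0, 0),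
      (0, 1), (0, 4), (1, 4)], [], [(0, 1, [5]), (2, 0, [4]), (3, 4, [0]), (4, 0, [4])]⟩,
    ⟨[(0, 2), (1, 2)], [(2, 0), (2, 1), (2, 4)], [(0, 4)], [2], [(3, 4, [0]), (4, 0, [4])]⟩,
    ⟨[(0, 1), (1, 2)], [(0, 3), (1, 3)], [(3, 3)], [2, 6], [(1, 3, []), (7, 3, [])]⟩,
    ⟨[(0, 1), (0, 2), (1, 2), (1, 4), (2, 3), (2, 4)], [(1, 0), (1, 3), (1, 5), (2, 0), (2,
      1), (2, 3), (2, 4), (2, 5), (4, 0), (4, 3), (4, 5)], [(0, 3), (0, 5), (3, 5)], [], [(2,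
      0, [4]), (7, 3, []), (8, 5, [1])]⟩,
    ⟨[(0, 2), (1, 2), (2, 3), (2, 5)], [(2, 0), (2, 1), (2, 4), (3, 4), (5, 0)], [(0, 4)],
      [7], [(2, 0, [4]), (3, 4, [0])]⟩]
  Ta := [((1, 0), 3, 1), ((1, 6), 3, 6), ((2, 8), 0, 5), ((2, 9), 0, 7), ((4, 0), 0, 1), ((4, 5),
    0, 2), ((7, 5), 3, 2), ((7, 8), 3, 5)]
  Tb := [((0, 1, 4), 1, 3, 0), ((1, 0, 6), 3, 1, 6), ((2, 8, 9), 0, 5, 7), ((3, 5, 9), 4, 2, 7),
    ((4, 0, 5), 0, 1, 2), ((5, 3, 4), 2, 4, 0), ((5, 3, 6), 2, 4, 6), ((5, 3, 7), 2, 4, 3),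
    ((5, 4, 6), 2, 0, 6), ((5, 4, 7), 2, 0, 3), ((5, 6, 7), 2, 6, 3), ((6, 1, 5), 6, 3, 2),
    ((7, 5, 8), 3, 2, 5), ((8, 2, 7), 5, 0, 3), ((9, 2, 3), 7, 0, 4)]
  Tc := []
  Td := [((0, 4), (2, 8), 5), ((0, 4), (2, 9), 7), ((0, 4), (4, 0), 1), ((0, 4), (4, 5), 2), ((1,
    5), (0, 1), 3), ((1, 5), (0, 4), 0), ((4, 0), (3, 5), 2), ((4, 0), (3, 9), 7), ((5, 1),
    (8, 2), 0), ((5, 1), (8, 7), 3)]
  G := [[0, 0, 0, 0xaaa844a44ac5426664aa6886c922a41c2a4aa691aaa14844a55c2d,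
    0x424231466a42ca1462824b626242b8282a2b98a421a822c22124748483142d], [0, 0, 0,
    0xa2a2a2d424242d541a2a2a2d181c, 0xaa62e242e2b34a2a29ea6234421ac1], [0,
    0x14116116d81811a541484e12, 0x1212116e8121211ae4c11,
    0x39a91ac442516536c88254536989891a54c2d, 0x1212a24725252b8834289822c32124f4], [0,
    0x11a18914145c211161165811a1211ad4c16, 0x121211ae1426411212116e182a81c,
    0x123292d44725252d88c1, 0x62666b62b241211612b88c1]]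

noncomputable def n3037 : Ent := ⟨e3037, noF, [], [], []⟩

def c3037 : PLift (Cov.check n3037.C.D v3037 = true) := ⟨by decide +kernel⟩

def b3037 : PLift (entF (fidx ts) 400 3037 n3037 = true) := ⟨by decide +kernel⟩

theorem g3037 : GoodF (fidx ts) 400 3037 := GoodF.ofV v3037 n3037 c3037.down b3037.down

/-- 4594664:2356 -/
noncomputable def e3038 : SCfg where
  D := {
    a := 7
    L := 11
    kp := 8
    inn := [(0, 1), (0, 2), (1, 0), (1, 2), (1, 4), (1, 5), (2, 0), (2, 1), (2, 3), (2, 5), (2, 6), (3,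
      2), (4, 1), (4, 5), (5, 1), (5, 2), (5, 4), (6, 2)]
    mix := [(0, 0), (0, 1), (1, 1), (2, 0), (2, 2), (2, 3), (2, 4), (3, 3), (3, 4), (3, 5), (4, 1), (4,
      6), (4, 7), (4, 8), (5, 2), (5, 8), (5, 9), (6, 2), (6, 3), (6, 10)]
    cl := [2, 1, 0, 3, 0, 5, 6, 7, 1, 4, 8]
    chq := [(0, 3), (2, 4), (3, 0), (4, 2)]
    rng := [(0, 1), (0, 4), (1, 0), (1, 6), (2, 9), (2, 10), (3, 5), (3, 10), (4, 0), (4, 5), (5, 3),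
      (5, 4), (6, 1), (6, 7), (7, 6), (7, 8), (8, 7), (8, 9), (9, 2), (9, 8), (10, 2), (10, 3)]
    lev := [] }
  links := [[1, 2, 7, 8], [2, 0, 8, 4, 5], [7, 0, 1, 5, 9, 6, 10, 3, 11], [11, 2, 10, 12], [5, 1, 8, 13,
    14, 15], [9, 2, 1, 4, 15, 16], [10, 2, 9, 17]]
  P := {
    a := 7
    N := 18
    nb := [390, 309, 3819, 7172, 57634, 98838, 132612, 2309, 8339, 196708, 135244, 4236, 3080, 16656,
      40976, 81968, 33312, 1600]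
    tri := [(0, 1, 2), (0, 1, 8), (0, 2, 7), (0, 7, 8), (1, 2, 5), (1, 4, 5), (1, 4, 8), (2, 3, 10),
      (2, 3, 11), (2, 5, 9), (2, 6, 9), (2, 6, 10), (2, 7, 11), (3, 10, 12), (3, 11, 12), (4, 5,
      15), (4, 8, 13), (4, 13, 14), (4, 14, 15), (5, 9, 16), (5, 15, 16), (6, 9, 17), (6, 10, 17)]
    fin := [0, 0, 2, 2, 4, 0, 2, 0, 4, 2, 10, 2, 12, 13, 14, 4, 16, 17]
    chd := [(0, 16), (2, 10)]
    steps := [(0, 1), (0, 5), (0, 7), (2, 3), (2, 6), (2, 9), (2, 11), (4, 8), (4, 15)] }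
  rep := [2, 4, 0, 10, 16, 12, 13, 14, 17]

noncomputable def v3038 : Cov.CovD where
  P := 3
  N := 6
  pl := [5, 6, 7, 10]
  lev := [⟨[], [], [(1, 2)], [], [(0, 2, [4]), (1, 1, [])]⟩,
    ⟨[], [(0, 1), (0, 2)], [], [], [(1, 1, [])]⟩,
    ⟨[(0, 1)], [(0, 0), (0, 1), (0, 2), (0, 3), (1, 0), (1, 1), (1, 2), (1, 3)], [(0, 0),
      (0, 2), (0, 3), (2, 3)], [], [(0, 2, [4]), (2, 0, [3]), (3, 3, [0]), (4, 0, [3])]⟩,
    ⟨[(0, 2), (1, 2)], [(2, 0), (2, 2), (2, 3)], [(0, 3)], [5], [(3, 3, [0]), (4, 0, [3])]⟩,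
    ⟨[(0, 1), (1, 2)], [(0, 1), (1, 1)], [(1, 1)], [6, 7], [(1, 1, []), (8, 1, [])]⟩,
    ⟨[(0, 1), (0, 2), (1, 2), (1, 4), (2, 3), (2, 4)], [(1, 0), (1, 1), (1, 4), (2, 0), (2,
      1), (2, 2), (2, 3), (2, 4), (4, 0), (4, 1), (4, 4)], [(0, 1), (0, 4), (1, 4)], [], [(2,
      0, [3]), (8, 1, []), (9, 4, [2])]⟩,
    ⟨[(0, 2), (1, 2), (2, 3), (2, 5)], [(2, 0), (2, 2), (2, 3), (3, 3), (5, 0)], [(0, 3)],
      [8], [(2, 0, [3]), (3, 3, [0])]⟩]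
  Ta := [((1, 0), 1, 2), ((1, 6), 1, 6), ((2, 9), 0, 4), ((2, 10), 0, 8), ((4, 0), 0, 2), ((4,
    5), 0, 5), ((8, 7), 1, 7), ((8, 9), 1, 4)]
  Tb := [((0, 1, 4), 2, 1, 0), ((1, 0, 6), 1, 2, 6), ((2, 9, 10), 0, 4, 8), ((3, 5, 10), 3, 5,
    8), ((4, 0, 5), 0, 2, 5), ((5, 3, 4), 5, 3, 0), ((6, 1, 7), 6, 1, 7), ((7, 6, 8), 7, 6,
    1), ((8, 7, 9), 1, 7, 4), ((9, 2, 8), 4, 0, 1), ((10, 2, 3), 8, 0, 3)]
  Tc := []
  Td := [((0, 3), (2, 9), 4), ((0, 3), (2, 10), 8), ((0, 3), (4, 0), 2), ((0, 3), (4, 5), 5),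
    ((2, 4), (0, 1), 1), ((2, 4), (0, 4), 0), ((3, 0), (3, 5), 5), ((3, 0), (3, 10), 8), ((4,
    2), (9, 2), 0), ((4, 2), (9, 8), 1)]
  G := [[0, 0xa244226665468266a48a34aa2a2c246262aa2a2a98642642aa6846b8ec, 0,
    0xa2a2c626262d54616262da21821b8a2a2c18d1, 0x6461c4dc4c1c4d2466c24d72c2c2c2d18c1], [0,
    0x6262c2aaa26262624ee5c16262666e8282aa6e9849, 0, 0,
    0xccc464e6c64d32164649c466cc4d844cc84dd8841c1a], [0,
    0x9224411a91a98e44a7211662121233ae2c7252aa28a853654688ec,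
    0x121292121212d121296c1121212d811c42a1c, 0x129292d125232d64723252da11212da8c1,
    0x616114d1411cd14d62721272d1212c2dc8c1], [0, 0x92b291ae121215ae645212536ea2a21acea8c1,
    0x616114d11c11c56214514514dc1c114dc8181818d11c8a2b818818d181c486, 0,
    0x8148814616114d9411c94de65416534d14c1c4dc8a1]]

noncomputable def n3038 : Ent := ⟨e3038, noF, [], [], [(13, 12, [7334790875884700912148207959429466810732110717284923962112213600026625, 0]), (14, 12, [7334790875878425342908362144554489379655930201178005225406871749120001, 0])]⟩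

def c3038 : PLift (Cov.check n3038.C.D v3038 = true) := ⟨by decide +kernel⟩

def b3038 : PLift (entF (fidx ts) 400 3038 n3038 = true) := ⟨by decide +kernel⟩

theorem g3038 : GoodF (fidx ts) 400 3038 := GoodF.ofV v3038 n3038 c3038.down b3038.down

/-- 4596446:2358/1 -/
noncomputable def e3039 : SCfg where
  D := {
    a := 7
    L := 10
    kp := 7
    inn := [(0, 1), (0, 2), (1, 0), (1, 2), (2, 0), (2, 1), (2, 3), (2, 4), (2, 6), (3, 2), (3, 5), (3,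
      6), (4, 2), (4, 6), (5, 3), (6, 2), (6, 3), (6, 4)]
    mix := [(0, 0), (0, 1), (1, 1), (1, 2), (1, 3), (2, 0), (2, 3), (2, 4), (2, 5), (3, 5), (3, 6), (3,
      7), (4, 0), (4, 8), (5, 1), (5, 6), (5, 7), (6, 7), (6, 8), (6, 9)]
    cl := [1, 2, 5, 1, 6, 0, 4, 0, 3, 7]
    chq := [(0, 1), (0, 3), (1, 0), (3, 0)]
    rng := [(0, 1), (0, 8), (1, 0), (1, 2), (1, 6), (1, 7), (2, 1), (2, 3), (3, 2), (3, 4), (4, 3), (4,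
      5), (5, 4), (5, 6), (6, 1), (6, 5), (7, 1), (7, 9), (8, 0), (8, 9), (9, 7), (9, 8)]
    lev := [] }
  links := [[1, 2, 7, 8], [2, 0, 8, 9, 10], [7, 0, 1, 10, 11, 12, 3, 6, 4], [6, 2, 12, 13, 5, 14], [7, 2,
    6, 15], [14, 3, 13, 8], [15, 4, 2, 3, 14, 16]]
  P := {
    a := 7
    N := 17
    nb := [390, 1797, 7387, 28772, 32964, 24840, 114716, 33045, 25251, 1282, 2566, 5124, 10252, 4392,
      65896, 65744, 49216]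
    tri := [(0, 1, 2), (0, 1, 8), (0, 2, 7), (0, 7, 8), (1, 2, 10), (1, 8, 9), (1, 9, 10), (2, 3, 6),
      (2, 3, 12), (2, 4, 6), (2, 4, 7), (2, 10, 11), (2, 11, 12), (3, 5, 13), (3, 5, 14), (3, 6,
      14), (3, 12, 13), (4, 6, 15), (4, 7, 15), (5, 8, 13), (5, 8, 14), (6, 14, 16), (6, 15, 16)]
    fin := [0, 0, 2, 3, 0, 3, 2, 0, 3, 9, 0, 11, 2, 13, 2, 15, 16]
    chd := [(0, 2), (2, 15)]
    steps := [(0, 1), (0, 7), (0, 4), (0, 10), (2, 6), (2, 12), (2, 14), (3, 5), (3, 8)] }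
  rep := [2, 0, 3, 15, 13, 9, 11, 16]

noncomputable def v3039 : Cov.CovD where
  P := 3
  N := 5
  pl := [1, 2, 4, 6, 9]
  lev := [⟨[], [], [], [2], [(0, 1, [0])]⟩,
    ⟨[], [(0, 1)], [], [2, 5], [(3, 1, [0])]⟩,
    ⟨[(0, 1)], [(0, 0), (0, 1), (1, 0), (1, 1)], [(0, 1), (1, 1)], [6], [(0, 1, [0]), (3,
      1, [0]), (5, 0, [1, 3])]⟩,
    ⟨[(0, 2), (1, 2)], [(2, 0), (2, 1)], [(0, 0)], [4], [(5, 0, [1, 3]), (7, 0, [1, 3])]⟩,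
    ⟨[(0, 2), (1, 2), (2, 3)], [(0, 1), (2, 0), (2, 1), (2, 3)], [(1, 3)], [], [(0, 1,
      [0]), (8, 3, [0])]⟩,
    ⟨[(2, 3)], [(3, 0)], [], [2, 4], [(7, 0, [1, 3])]⟩,
    ⟨[(0, 2), (1, 2), (2, 3), (2, 4), (3, 4), (3, 5)], [(2, 0), (2, 1), (2, 3), (3, 0), (3,
      3), (4, 0), (4, 1), (4, 3), (5, 0)], [(0, 3)], [7], [(7, 0, [1, 3]), (8, 3, [0])]⟩]
  Ta := [((0, 1), 1, 2), ((0, 8), 1, 3), ((3, 2), 1, 5), ((3, 4), 1, 6), ((5, 4), 0, 6), ((5, 6),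
    0, 4), ((7, 1), 0, 2), ((7, 9), 0, 7)]
  Tb := [((0, 1, 8), 1, 2, 3), ((1, 0, 2), 2, 1, 5), ((1, 0, 6), 2, 1, 4), ((1, 0, 7), 2, 1, 0),
    ((1, 2, 6), 2, 5, 4), ((1, 2, 7), 2, 5, 0), ((1, 6, 7), 2, 4, 0), ((2, 1, 3), 5, 2, 1),
    ((3, 2, 4), 1, 5, 6), ((4, 3, 5), 6, 1, 0), ((5, 4, 6), 0, 6, 4), ((6, 1, 5), 4, 2, 0),
    ((7, 1, 9), 0, 2, 7), ((8, 0, 9), 3, 1, 7), ((9, 7, 8), 7, 0, 3)]
  Tc := [(0, 1, 3)]
  Td := [((0, 1), (5, 4), 6), ((0, 1), (5, 6), 4), ((0, 1), (7, 1), 2), ((0, 1), (7, 9), 7), ((0,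
    3), (5, 4), 6), ((0, 3), (5, 6), 4), ((0, 3), (7, 1), 2), ((0, 3), (7, 9), 7), ((1, 0),
    (0, 1), 2), ((1, 0), (0, 8), 3), ((1, 0), (3, 2), 5), ((1, 0), (3, 4), 6), ((3, 0), (8,
    0), 1), ((3, 0), (8, 9), 7)]
  G := [[0, 0x148e11618281881414cce14, 0, 0xee5124aa5124c146e5928ee51211c42c59,
    0xe111228a5618689a112cac21], [0, 0x141464e112181868e18, 0, 0,
    0x1861328526658a292213cc611c11122e58a212a13cc91], [0, 0x1421826188148a184144ae14,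
    0x684a424c28a42ce128, 0x2868c8ac64ca1aac66cc21c8, 0x2868c82a22c8242ce128], [0,
    0x144418211c8a1818a142ce14, 0x684a482824688ee1284882ea424c24a4e1c8, 0,
    0x286882ea22284aec124a1268182a1c22ec9c822a38226819]]

noncomputable def n3039 : Ent := ⟨e3039, noF, [], [], []⟩

def c3039 : PLift (Cov.check n3039.C.D v3039 = true) := ⟨by decide +kernel⟩

def b3039 : PLift (entF (fidx ts) 400 3039 n3039 = true) := ⟨by decide +kernel⟩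

theorem g3039 : GoodF (fidx ts) 400 3039 := GoodF.ofV v3039 n3039 c3039.down b3039.down

/-- 4596446:2358/2 -/
noncomputable def e3040 : SCfg where
  D := {
    a := 7
    L := 10
    kp := 7
    inn := [(0, 1), (0, 2), (1, 0), (1, 2), (2, 0), (2, 1), (2, 3), (2, 4), (2, 6), (3, 2), (3, 5), (3,
      6), (4, 2), (4, 6), (5, 3), (6, 2), (6, 3), (6, 4)]
    mix := [(0, 0), (0, 1), (1, 1), (1, 2), (1, 3), (2, 0), (2, 3), (2, 4), (2, 5), (3, 5), (3, 6), (3,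
      7), (4, 0), (4, 8), (5, 2), (5, 6), (5, 7), (6, 7), (6, 8), (6, 9)]
    cl := [1, 2, 4, 1, 6, 0, 5, 0, 3, 7]
    chq := [(0, 1), (0, 3), (1, 0), (3, 0)]
    rng := [(0, 1), (0, 8), (1, 0), (1, 2), (2, 1), (2, 3), (2, 6), (2, 7), (3, 2), (3, 4), (4, 3), (4,
      5), (5, 4), (5, 6), (6, 2), (6, 5), (7, 2), (7, 9), (8, 0), (8, 9), (9, 7), (9, 8)]
    lev := [] }
  links := [[1, 2, 7, 8], [2, 0, 8, 9, 10], [7, 0, 1, 10, 11, 12, 3, 6, 4], [6, 2, 12, 13, 5, 14], [7, 2,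
    6, 15], [14, 3, 13, 9], [15, 4, 2, 3, 14, 16]]
  P := {
    a := 7
    N := 17
    nb := [390, 1797, 7387, 28772, 32964, 25096, 114716, 33045, 643, 25890, 2566, 5124, 10252, 4648,
      66152, 65744, 49216]
    tri := [(0, 1, 2), (0, 1, 8), (0, 2, 7), (0, 7, 8), (1, 2, 10), (1, 8, 9), (1, 9, 10), (2, 3, 6),
      (2, 3, 12), (2, 4, 6), (2, 4, 7), (2, 10, 11), (2, 11, 12), (3, 5, 13), (3, 5, 14), (3, 6,
      14), (3, 12, 13), (4, 6, 15), (4, 7, 15), (5, 9, 13), (5, 9, 14), (6, 14, 16), (6, 15, 16)]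
    fin := [0, 0, 2, 3, 0, 3, 2, 0, 8, 3, 0, 11, 2, 13, 2, 15, 16]
    chd := [(0, 2), (2, 15)]
    steps := [(0, 1), (0, 7), (0, 4), (0, 10), (2, 6), (2, 12), (2, 14), (3, 5), (3, 9)] }
  rep := [2, 0, 8, 15, 3, 13, 11, 16]

noncomputable def v3040 : Cov.CovD where
  P := 3
  N := 5
  pl := [1, 2, 4, 6, 9]
  lev := [⟨[], [], [], [2], [(0, 1, [0])]⟩,
    ⟨[], [(0, 1)], [], [2, 4], [(3, 1, [0])]⟩,
    ⟨[(0, 1)], [(0, 0), (0, 1), (1, 0), (1, 1)], [(0, 1), (1, 1)], [6], [(0, 1, [0]), (3,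
      1, [0]), (5, 0, [1, 3])]⟩,
    ⟨[(0, 2), (1, 2)], [(2, 0), (2, 1)], [(0, 0)], [5], [(5, 0, [1, 3]), (7, 0, [1, 3])]⟩,
    ⟨[(0, 2), (1, 2), (2, 3)], [(0, 1), (2, 0), (2, 1), (2, 3)], [(1, 3)], [], [(0, 1,
      [0]), (8, 3, [0])]⟩,
    ⟨[(2, 3)], [(3, 0)], [], [4, 5], [(7, 0, [1, 3])]⟩,
    ⟨[(0, 2), (1, 2), (2, 3), (2, 4), (3, 4), (3, 5)], [(2, 0), (2, 1), (2, 3), (3, 0), (3,
      3), (4, 0), (4, 1), (4, 3), (5, 0)], [(0, 3)], [7], [(7, 0, [1, 3]), (8, 3, [0])]⟩]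
  Ta := [((0, 1), 1, 2), ((0, 8), 1, 3), ((3, 2), 1, 4), ((3, 4), 1, 6), ((5, 4), 0, 6), ((5, 6),
    0, 5), ((7, 2), 0, 4), ((7, 9), 0, 7)]
  Tb := [((0, 1, 8), 1, 2, 3), ((1, 0, 2), 2, 1, 4), ((2, 1, 3), 4, 2, 1), ((2, 1, 6), 4, 2, 5),
    ((2, 1, 7), 4, 2, 0), ((2, 3, 6), 4, 1, 5), ((2, 3, 7), 4, 1, 0), ((2, 6, 7), 4, 5, 0),
    ((3, 2, 4), 1, 4, 6), ((4, 3, 5), 6, 1, 0), ((5, 4, 6), 0, 6, 5), ((6, 2, 5), 5, 4, 0),
    ((7, 2, 9), 0, 4, 7), ((8, 0, 9), 3, 1, 7), ((9, 7, 8), 7, 0, 3)]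
  Tc := [(0, 1, 3)]
  Td := [((0, 1), (5, 4), 6), ((0, 1), (5, 6), 5), ((0, 1), (7, 2), 4), ((0, 1), (7, 9), 7), ((0,
    3), (5, 4), 6), ((0, 3), (5, 6), 5), ((0, 3), (7, 2), 4), ((0, 3), (7, 9), 7), ((1, 0),
    (0, 1), 2), ((1, 0), (0, 8), 3), ((1, 0), (3, 2), 4), ((1, 0), (3, 4), 6), ((3, 0), (8,
    0), 1), ((3, 0), (8, 9), 7)]
  G := [[0, 0xe114116a112e11414ae14, 0x611a181212ce426118115212ce82c, 0x22cd1c23162e31c231ac11,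
    0xe1112d2c66112831c21ec21], [0, 0x6114818e116e11811ce18,
    0x5892e11a41424142922acc114b213582836812213861841269cc, 0, 0x6111c5211a2e11cd2e11ac11],
    [0, 0xa11e116a11e11c61411881c, 0x22442ecaa2e222ec8242ce124,
    0x2868c82a22c8242ce122426ca424c8242ce1c4, 0x22662ecaa2e22c8242ce128], [0,
    0xe118e1146141a15281c, 0x2868c222288ec22e122426ca424c88a446ae1c8, 0,
    0x2868c882e22c8844ce14261a4142825ee2612c61ac92]]

noncomputable def n3040 : Ent := ⟨e3040, noF, [], [], []⟩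

def c3040 : PLift (Cov.check n3040.C.D v3040 = true) := ⟨by decide +kernel⟩

def b3040 : PLift (entF (fidx ts) 400 3040 n3040 = true) := ⟨by decide +kernel⟩

theorem g3040 : GoodF (fidx ts) 400 3040 := GoodF.ofV v3040 n3040 c3040.down b3040.down

/-- 4596446:2358 -/
noncomputable def e3041 : SCfg where
  D := {
    a := 7
    L := 11
    kp := 8
    inn := [(0, 1), (0, 2), (1, 0), (1, 2), (2, 0), (2, 1), (2, 3), (2, 4), (2, 6), (3, 2), (3, 5), (3,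
      6), (4, 2), (4, 6), (5, 3), (6, 2), (6, 3), (6, 4)]
    mix := [(0, 0), (0, 1), (1, 1), (1, 2), (1, 3), (2, 0), (2, 3), (2, 4), (2, 5), (3, 5), (3, 6), (3,
      7), (4, 0), (4, 8), (5, 6), (5, 7), (5, 9), (6, 7), (6, 8), (6, 10)]
    cl := [0, 2, 6, 0, 7, 1, 3, 1, 4, 8, 5]
    chq := [(0, 1), (0, 5), (1, 0), (5, 0)]
    rng := [(0, 1), (0, 8), (1, 0), (1, 2), (2, 1), (2, 3), (3, 2), (3, 4), (4, 3), (4, 5), (5, 4), (5,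
      6), (6, 5), (6, 9), (7, 9), (7, 10), (8, 0), (8, 10), (9, 6), (9, 7), (10, 7), (10, 8)]
    lev := [] }
  links := [[1, 2, 7, 8], [2, 0, 8, 9, 10], [7, 0, 1, 10, 11, 12, 3, 6, 4], [6, 2, 12, 13, 5, 14], [7, 2,
    6, 15], [14, 3, 13, 16], [15, 4, 2, 3, 14, 17]]
  P := {
    a := 7
    N := 18
    nb := [390, 1797, 7387, 28772, 32964, 90120, 180252, 33045, 643, 1282, 2566, 5124, 10252, 69672,
      196712, 131280, 24608, 49216]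
    tri := [(0, 1, 2), (0, 1, 8), (0, 2, 7), (0, 7, 8), (1, 2, 10), (1, 8, 9), (1, 9, 10), (2, 3, 6),
      (2, 3, 12), (2, 4, 6), (2, 4, 7), (2, 10, 11), (2, 11, 12), (3, 5, 13), (3, 5, 14), (3, 6,
      14), (3, 12, 13), (4, 6, 15), (4, 7, 15), (5, 13, 16), (5, 14, 16), (6, 14, 17), (6, 15,
      17)]
    fin := [0, 0, 0, 3, 0, 3, 0, 0, 8, 9, 0, 11, 3, 13, 3, 15, 16, 17]
    chd := [(0, 3), (0, 17)]
    steps := [(0, 1), (0, 2), (0, 4), (0, 6), (0, 7), (0, 10), (3, 5), (3, 12), (3, 14)] }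
  rep := [0, 3, 8, 13, 15, 17, 9, 11, 16]

noncomputable def v3041 : Cov.CovD where
  P := 3
  N := 6
  pl := [1, 2, 4, 6, 8, 9]
  lev := [⟨[], [], [], [2], [(0, 0, [1, 5])]⟩,
    ⟨[], [(0, 0)], [], [2, 6], [(3, 0, [1, 5])]⟩,
    ⟨[(0, 1)], [(0, 0), (0, 1), (1, 0), (1, 1)], [(0, 0), (0, 1)], [7], [(0, 0, [1, 5]),
      (3, 0, [1, 5]), (5, 1, [0])]⟩,
    ⟨[(0, 2), (1, 2)], [(2, 0), (2, 1)], [(1, 1)], [3], [(5, 1, [0]), (7, 1, [0])]⟩,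
    ⟨[(0, 2), (1, 2), (2, 3)], [(0, 0), (2, 0), (2, 1)], [], [4], [(0, 0, [1, 5])]⟩,
    ⟨[(2, 3)], [(3, 1)], [], [3, 8], [(7, 1, [0])]⟩,
    ⟨[(0, 2), (1, 2), (2, 3), (2, 4), (3, 4), (3, 5)], [(2, 0), (2, 1), (2, 5), (3, 1), (3,
      5), (4, 0), (4, 1), (4, 5), (5, 1)], [(1, 5)], [4], [(7, 1, [0]), (10, 5, [0])]⟩]
  Ta := [((0, 1), 0, 2), ((0, 8), 0, 4), ((3, 2), 0, 6), ((3, 4), 0, 7), ((5, 4), 1, 7), ((5, 6),
    1, 3), ((7, 9), 1, 8), ((7, 10), 1, 5)]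
  Tb := [((0, 1, 8), 0, 2, 4), ((1, 0, 2), 2, 0, 6), ((2, 1, 3), 6, 2, 0), ((3, 2, 4), 0, 6, 7),
    ((4, 3, 5), 7, 0, 1), ((5, 4, 6), 1, 7, 3), ((6, 5, 9), 3, 1, 8), ((7, 9, 10), 1, 8, 5),
    ((8, 0, 10), 4, 0, 5), ((9, 6, 7), 8, 3, 1), ((10, 7, 8), 5, 1, 4)]
  Tc := [(0, 1, 5)]
  Td := [((0, 1), (0, 1), 2), ((0, 1), (0, 8), 4), ((0, 1), (3, 2), 6), ((0, 1), (3, 4), 7), ((0,
    5), (0, 1), 2), ((0, 5), (0, 8), 4), ((0, 5), (3, 2), 6), ((0, 5), (3, 4), 7), ((1, 0),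
    (5, 4), 7), ((1, 0), (5, 6), 3), ((1, 0), (7, 9), 8), ((1, 0), (7, 10), 5), ((5, 0), (10,
    7), 1), ((5, 0), (10, 8), 4)]
  G := [[0, 0xe11211c112da8c11e11ce14,
    0x11c11c612126511a11ca11612a9c113211a41168d11c11ca1212a9ca4,
    0x225414113c21ac2c6926533c12a9289c1c, 0x121d6a1637a982e5319216c1282254dc12], [0,
    0x2141348186116e118e1811281c, 0x119119c115115cc2119119c115115cc2c4,
    0x119541dc811d915c84cd4d218, 0x119551dc891d11c85cd4d218], [0, 0xe11e11ae11e11c618, 0,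
    0x11c126522295511a12a11628a799c411c126522295511c12a12aa599c8c,
    0x11612611a669551812c1282e51dc121261152255c181261282e51dca2], [0,
    0x411e11aa118411e11ce14, 0, 0x119119c115115cc2119119c115115cc2c8,
    0x119119c115115cc211211c111da5c9986d11c111d61129c51444edca1]]

noncomputable def n3041 : Ent := ⟨e3041, noF, [], [], [(8, 16, [7334685537875745012586738086077695515070955365108989538292687706124289, 0]), (9, 16, [7334685537875745012586738086077695515070955365108989538292687706128385, 0])]⟩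

def c3041 : PLift (Cov.check n3041.C.D v3041 = true) := ⟨by decide +kernel⟩

def b3041 : PLift (entF (fidx ts) 400 3041 n3041 = true) := ⟨by decide +kernel⟩

theorem g3041 : GoodF (fidx ts) 400 3041 := GoodF.ofV v3041 n3041 c3041.down b3041.down

/-- 4596447:2360 -/
noncomputable def e3042 : SCfg where
  D := {
    a := 7
    L := 11
    kp := 9
    inn := [(0, 1), (0, 2), (1, 0), (1, 2), (2, 0), (2, 1), (2, 3), (2, 4), (2, 6), (3, 2), (3, 5), (3,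
      6), (4, 2), (4, 6), (5, 3), (5, 6), (6, 2), (6, 3), (6, 4), (6, 5)]
    mix := [(0, 0), (0, 1), (1, 1), (1, 2), (1, 3), (2, 0), (2, 3), (2, 4), (2, 5), (3, 5), (3, 6), (3,
      7), (4, 0), (4, 8), (5, 7), (5, 9), (6, 8), (6, 9), (6, 10)]
    cl := [0, 2, 8, 0, 9, 1, 6, 3, 5, 4, 7]
    chq := [(0, 1), (0, 3), (0, 4), (0, 6), (0, 7), (1, 0), (3, 0), (4, 0), (6, 0), (7, 0)]
    rng := [(0, 1), (0, 8), (1, 0), (1, 2), (2, 1), (2, 3), (3, 2), (3, 4), (4, 3), (4, 5), (5, 4), (5,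
      6), (6, 5), (6, 7), (7, 6), (7, 9), (8, 0), (8, 10), (9, 7), (9, 10), (10, 8), (10, 9)]
    lev := [] }
  links := [[1, 2, 7, 8], [2, 0, 8, 9, 10], [7, 0, 1, 10, 11, 12, 3, 6, 4], [6, 2, 12, 13, 14, 5], [7, 2,
    6, 15], [6, 3, 14, 16], [15, 4, 2, 3, 5, 16, 17]]
  P := {
    a := 7
    N := 18
    nb := [390, 1797, 7387, 28772, 32964, 81992, 229436, 33045, 643, 1282, 2566, 5124, 10252, 20488,
      73768, 131280, 147552, 98368]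
    tri := [(0, 1, 2), (0, 1, 8), (0, 2, 7), (0, 7, 8), (1, 2, 10), (1, 8, 9), (1, 9, 10), (2, 3, 6),
      (2, 3, 12), (2, 4, 6), (2, 4, 7), (2, 10, 11), (2, 11, 12), (3, 5, 6), (3, 5, 14), (3, 12,
      13), (3, 13, 14), (4, 6, 15), (4, 7, 15), (5, 6, 16), (5, 14, 16), (6, 15, 17), (6, 16, 17)]
    fin := [0, 0, 0, 0, 0, 0, 0, 0, 8, 9, 0, 11, 12, 13, 14, 15, 16, 17]
    chd := [(0, 12), (0, 13), (0, 14), (0, 16), (0, 17)]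
    steps := [(0, 1), (0, 2), (0, 3), (0, 4), (0, 5), (0, 6), (0, 7), (0, 10)] }
  rep := [0, 12, 8, 14, 16, 15, 13, 17, 9, 11]

noncomputable def v3042 : Cov.CovD where
  P := 3
  N := 7
  pl := [1, 2, 4, 8]
  lev := [⟨[], [], [], [2], [(0, 0, [1, 3, 4, 6, 7])]⟩,
    ⟨[], [(0, 0)], [], [2, 8], [(3, 0, [1, 3, 4, 6, 7])]⟩,
    ⟨[(0, 1)], [(0, 0), (0, 1), (1, 0), (1, 1)], [(0, 0), (0, 1)], [9], [(0, 0, [1, 3, 4,
      6, 7]), (3, 0, [1, 3, 4, 6, 7]), (5, 1, [0])]⟩,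
    ⟨[(0, 2), (1, 2)], [(2, 0), (2, 1), (2, 3), (2, 6)], [(1, 3), (1, 6), (3, 6)], [], [(5,
      1, [0]), (6, 6, [0]), (7, 3, [0])]⟩,
    ⟨[(0, 2), (1, 2), (2, 3)], [(0, 0), (2, 0), (2, 1)], [], [5], [(0, 0, [1, 3, 4, 6,
      7])]⟩,
    ⟨[(2, 3)], [(3, 1), (3, 3), (3, 4), (3, 6)], [(3, 4)], [], [(7, 3, [0]), (9, 4, [0])]⟩,
    ⟨[(0, 2), (1, 2), (2, 3), (2, 4), (2, 5), (3, 4), (3, 5), (4, 5)], [(2, 0), (2, 1), (2,
      4), (2, 7), (3, 1), (3, 3), (3, 4), (3, 6), (3, 7), (4, 0), (4, 4), (4, 7), (5, 3), (5,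
      4), (5, 7)], [(4, 7)], [5], [(9, 4, [0]), (10, 7, [0])]⟩]
  Ta := [((0, 1), 0, 2), ((0, 8), 0, 5), ((3, 2), 0, 8), ((3, 4), 0, 9)]
  Tb := [((0, 1, 8), 0, 2, 5), ((1, 0, 2), 2, 0, 8), ((2, 1, 3), 8, 2, 0), ((3, 2, 4), 0, 8, 9),
    ((4, 3, 5), 9, 0, 1), ((5, 4, 6), 1, 9, 6), ((6, 5, 7), 6, 1, 3), ((7, 6, 9), 3, 6, 4),
    ((8, 0, 10), 5, 0, 7), ((9, 7, 10), 4, 3, 7), ((10, 8, 9), 7, 5, 4)]
  Tc := [(0, 1, 3), (0, 1, 4), (0, 1, 6), (0, 1, 7), (0, 3, 4), (0, 3, 6), (0, 3, 7), (0, 4, 6),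
    (0, 4, 7), (0, 6, 7)]
  Td := [((0, 1), (0, 1), 2), ((0, 1), (0, 8), 5), ((0, 1), (3, 2), 8), ((0, 1), (3, 4), 9), ((0,
    3), (0, 1), 2), ((0, 3), (0, 8), 5), ((0, 3), (3, 2), 8), ((0, 3), (3, 4), 9), ((0, 4),
    (0, 1), 2), ((0, 4), (0, 8), 5), ((0, 4), (3, 2), 8), ((0, 4), (3, 4), 9), ((0, 6), (0,
    1), 2), ((0, 6), (0, 8), 5), ((0, 6), (3, 2), 8), ((0, 6), (3, 4), 9), ((0, 7), (0, 1),
    2), ((0, 7), (0, 8), 5), ((0, 7), (3, 2), 8), ((0, 7), (3, 4), 9), ((1, 0), (5, 4), 9),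
    ((1, 0), (5, 6), 6), ((3, 0), (7, 6), 6), ((3, 0), (7, 9), 4), ((4, 0), (9, 7), 3), ((4,
    0), (9, 10), 7), ((6, 0), (6, 5), 1), ((6, 0), (6, 7), 3), ((7, 0), (10, 8), 5), ((7, 0),
    (10, 9), 4)]
  G := [[0, 0x11411116112e112118a1181111a114ee14, 0x111e814111e111e61111e21c111e111e61111e41ce8,
    0x111d11663112f25111b18a111b119a1c31116fe2bdc115311565c3a8875981c,
    0x113115614119c5c3111afca67d11518c111b119a9c31116f62bdc12], [0,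
    0x11411116112e118118a1121111a114ee14, 0,
    0x11c411812111ec1bd41154f311e61191e111ea1c1218a113119ace6b1d4d115e111e61718111711561214c17a831d89c,
    0x511e311e61115811812111eec37dc114184116111e4e57d1114a119e111e6c3d9c113115614119c8ec71d11a4111b139accb2]]

noncomputable def n3042 : Ent := ⟨e3042, noF, [], [], []⟩

def c3042 : PLift (Cov.check n3042.C.D v3042 = true) := ⟨by decide +kernel⟩

def b3042 : PLift (entF (fidx ts) 400 3042 n3042 = true) := ⟨by decide +kernel⟩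

theorem g3042 : GoodF (fidx ts) 400 3042 := GoodF.ofV v3042 n3042 c3042.down b3042.down

/-- 4594664:2364/1 -/
noncomputable def e3043 : SCfg where
  D := {
    a := 7
    L := 10
    kp := 7
    inn := [(0, 1), (0, 2), (1, 0), (1, 2), (1, 4), (2, 0), (2, 1), (2, 3), (2, 4), (2, 5), (3, 2), (4,
      1), (4, 2), (4, 5), (5, 2), (5, 4), (5, 6), (6, 5)]
    mix := [(0, 0), (0, 1), (1, 1), (1, 2), (2, 0), (2, 3), (2, 4), (2, 5), (3, 4), (3, 5), (3, 6), (4,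
      2), (4, 7), (4, 8), (5, 3), (5, 8), (5, 9), (6, 6), (6, 8), (6, 9)]
    cl := [0, 1, 4, 3, 0, 2, 5, 7, 3, 6]
    chq := [(0, 4), (0, 7), (4, 0), (7, 0)]
    rng := [(0, 1), (0, 5), (1, 0), (1, 2), (2, 1), (2, 7), (3, 4), (3, 9), (4, 3), (4, 6), (5, 0), (5,
      6), (6, 4), (6, 5), (6, 8), (6, 9), (7, 2), (7, 8), (8, 6), (8, 7), (9, 3), (9, 6)]
    lev := [] }
  links := [[1, 2, 7, 8], [2, 0, 8, 9, 4], [7, 0, 1, 4, 5, 10, 11, 3, 12], [12, 2, 11, 13], [5, 2, 1, 9,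
    14, 15], [10, 2, 4, 15, 6, 16], [16, 5, 15, 13]]
  P := {
    a := 7
    N := 17
    nb := [390, 789, 7355, 14340, 49702, 99412, 106528, 4357, 643, 16658, 67620, 9228, 8332, 104520,
      33296, 24688, 9312]
    tri := [(0, 1, 2), (0, 1, 8), (0, 2, 7), (0, 7, 8), (1, 2, 4), (1, 4, 9), (1, 8, 9), (2, 3, 11),
      (2, 3, 12), (2, 4, 5), (2, 5, 10), (2, 7, 12), (2, 10, 11), (3, 11, 13), (3, 12, 13), (4, 5,
      15), (4, 9, 14), (4, 14, 15), (5, 6, 15), (5, 6, 16), (5, 10, 16), (6, 13, 15), (6, 13, 16)]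
    fin := [0, 0, 0, 0, 0, 5, 5, 0, 8, 9, 5, 0, 12, 13, 14, 5, 16]
    chd := [(0, 9), (0, 14)]
    steps := [(0, 1), (0, 2), (0, 3), (0, 4), (0, 7), (0, 11), (5, 6), (5, 15), (5, 10)] }
  rep := [0, 8, 12, 5, 9, 13, 16, 14]

noncomputable def v3043 : Cov.CovD where
  P := 3
  N := 5
  pl := [1, 5, 6, 9]
  lev := [⟨[], [], [], [1], [(0, 0, [4, 7])]⟩,
    ⟨[], [(0, 0), (0, 4)], [], [1], [(2, 4, [0])]⟩,
    ⟨[(0, 1)], [(0, 0), (0, 3), (1, 0), (1, 3), (1, 4)], [(0, 0), (0, 3)], [2], [(0, 0, [4,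
      7]), (3, 3, []), (4, 0, [4, 7])]⟩,
    ⟨[(0, 2), (1, 2)], [(2, 0), (2, 3)], [], [2, 5], [(4, 0, [4, 7])]⟩,
    ⟨[(0, 1), (0, 2), (1, 2), (2, 3)], [(1, 3), (1, 4), (1, 7), (2, 0), (2, 3), (2, 4), (2,
      7)], [(3, 4), (3, 7), (4, 7)], [], [(2, 4, [0]), (7, 7, [0]), (8, 3, [])]⟩,
    ⟨[(0, 2), (1, 2), (1, 4), (2, 3), (2, 4)], [(2, 0), (2, 3), (4, 3), (4, 4), (4, 7)],
      [(3, 3)], [6], [(3, 3, []), (8, 3, [])]⟩,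
    ⟨[(2, 5), (4, 5)], [(4, 3), (5, 3)], [], [5, 6], [(8, 3, [])]⟩]
  Ta := [((0, 1), 0, 1), ((0, 5), 0, 2), ((3, 4), 3, 0), ((3, 9), 3, 6), ((4, 3), 0, 3), ((4, 6),
    0, 5), ((8, 6), 3, 5), ((8, 7), 3, 7)]
  Tb := [((0, 1, 5), 0, 1, 2), ((1, 0, 2), 1, 0, 4), ((2, 1, 7), 4, 1, 7), ((3, 4, 9), 3, 0, 6),
    ((4, 3, 6), 0, 3, 5), ((5, 0, 6), 2, 0, 5), ((6, 4, 5), 5, 0, 2), ((6, 4, 8), 5, 0, 3),
    ((6, 4, 9), 5, 0, 6), ((6, 5, 8), 5, 2, 3), ((6, 5, 9), 5, 2, 6), ((6, 8, 9), 5, 3, 6),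
    ((7, 2, 8), 7, 4, 3), ((8, 6, 7), 3, 5, 7), ((9, 3, 6), 6, 3, 5)]
  Tc := [(0, 4, 7)]
  Td := [((0, 4), (0, 1), 1), ((0, 4), (0, 5), 2), ((0, 4), (4, 3), 3), ((0, 4), (4, 6), 5), ((0,
    7), (0, 1), 1), ((0, 7), (0, 5), 2), ((0, 7), (4, 3), 3), ((0, 7), (4, 6), 5), ((4, 0),
    (2, 1), 1), ((4, 0), (2, 7), 7), ((7, 0), (7, 2), 4), ((7, 0), (7, 8), 3)]
  G := [[0, 0x5431128eb11c434a1118611c2a, 0x124e12419e18a14, 0x2a1741352712417815386b1c1411188c,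
    0x2152441938f14138139482f1a14], [0, 0xd17e1141dbe118c2, 0x512e12841e18a14,
    0xd17e11481dbe1184c, 0xb71e112b71e112c8], [0, 0, 0,
    0x1a9741176419a821db8678c146e7148ac18c89, 0x6837841da82111c267328652e12ac8718ac9], [0, 0,
    0, 0x6211481511813813ef8491cae11841511142eb485c, 0x851e182142e12851e18a415221d142eb28d4]]

noncomputable def n3043 : Ent := ⟨e3043, noF, [], [], []⟩

def c3043 : PLift (Cov.check n3043.C.D v3043 = true) := ⟨by decide +kernel⟩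

def b3043 : PLift (entF (fidx ts) 400 3043 n3043 = true) := ⟨by decide +kernel⟩

theorem g3043 : GoodF (fidx ts) 400 3043 := GoodF.ofV v3043 n3043 c3043.down b3043.down

/-- 4594664:2364 -/
noncomputable def e3044 : SCfg where
  D := {
    a := 7
    L := 11
    kp := 8
    inn := [(0, 1), (0, 2), (1, 0), (1, 2), (1, 4), (2, 0), (2, 1), (2, 3), (2, 4), (2, 5), (3, 2), (4,
      1), (4, 2), (4, 5), (5, 2), (5, 4), (5, 6), (6, 5)]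
    mix := [(0, 0), (0, 1), (1, 1), (1, 2), (2, 0), (2, 3), (2, 4), (2, 5), (3, 4), (3, 5), (3, 6), (4,
      2), (4, 7), (4, 8), (5, 3), (5, 8), (5, 9), (6, 8), (6, 9), (6, 10)]
    cl := [0, 1, 4, 3, 0, 2, 6, 7, 3, 5, 8]
    chq := [(0, 4), (3, 4), (4, 0), (4, 3)]
    rng := [(0, 1), (0, 5), (1, 0), (1, 2), (2, 1), (2, 7), (3, 4), (3, 9), (4, 3), (4, 6), (5, 0), (5,
      6), (6, 4), (6, 5), (7, 2), (7, 8), (8, 7), (8, 10), (9, 3), (9, 10), (10, 8), (10, 9)]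
    lev := [] }
  links := [[1, 2, 7, 8], [2, 0, 8, 9, 4], [7, 0, 1, 4, 5, 10, 11, 3, 12], [12, 2, 11, 13], [5, 2, 1, 9,
    14, 15], [10, 2, 4, 15, 6, 16], [16, 5, 15, 17]]
  P := {
    a := 7
    N := 18
    nb := [390, 789, 7355, 14340, 49702, 99412, 229408, 4357, 643, 16658, 67620, 9228, 8332, 6152,
      33296, 147568, 132192, 98368]
    tri := [(0, 1, 2), (0, 1, 8), (0, 2, 7), (0, 7, 8), (1, 2, 4), (1, 4, 9), (1, 8, 9), (2, 3, 11),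
      (2, 3, 12), (2, 4, 5), (2, 5, 10), (2, 7, 12), (2, 10, 11), (3, 11, 13), (3, 12, 13), (4, 5,
      15), (4, 9, 14), (4, 14, 15), (5, 6, 15), (5, 6, 16), (5, 10, 16), (6, 15, 17), (6, 16, 17)]
    fin := [0, 0, 0, 0, 4, 5, 5, 0, 8, 4, 5, 0, 12, 13, 14, 5, 16, 17]
    chd := [(0, 4), (4, 5)]
    steps := [(0, 1), (0, 2), (0, 3), (0, 7), (0, 11), (4, 9), (5, 6), (5, 15), (5, 10)] }
  rep := [0, 8, 12, 5, 4, 16, 13, 14, 17]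

noncomputable def v3044 : Cov.CovD where
  P := 3
  N := 6
  pl := [1, 5, 6, 7, 9, 10]
  lev := [⟨[], [], [], [1], [(0, 0, [4])]⟩,
    ⟨[], [(0, 0), (0, 4)], [], [1], [(2, 4, [0, 3])]⟩,
    ⟨[(0, 1)], [(0, 0), (0, 3), (1, 0), (1, 3), (1, 4)], [(0, 0), (0, 3)], [2], [(0, 0,
      [4]), (3, 3, [4]), (4, 0, [4])]⟩,
    ⟨[(0, 2), (1, 2)], [(2, 0), (2, 3)], [], [2, 6], [(4, 0, [4])]⟩,
    ⟨[(0, 1), (0, 2), (1, 2), (2, 3)], [(1, 3), (1, 4), (2, 0), (2, 3), (2, 4)], [(3, 4)],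
      [7], [(2, 4, [0, 3]), (8, 3, [4])]⟩,
    ⟨[(0, 2), (1, 2), (1, 4), (2, 3), (2, 4)], [(2, 0), (2, 3), (4, 3), (4, 4)], [(3, 3)],
      [5], [(3, 3, [4]), (8, 3, [4])]⟩,
    ⟨[(2, 5), (4, 5)], [(4, 3), (5, 3)], [], [5, 8], [(8, 3, [4])]⟩]
  Ta := [((0, 1), 0, 1), ((0, 5), 0, 2), ((3, 4), 3, 0), ((3, 9), 3, 5), ((4, 3), 0, 3), ((4, 6),
    0, 6), ((8, 7), 3, 7), ((8, 10), 3, 8)]
  Tb := [((0, 1, 5), 0, 1, 2), ((1, 0, 2), 1, 0, 4), ((2, 1, 7), 4, 1, 7), ((3, 4, 9), 3, 0, 5),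
    ((4, 3, 6), 0, 3, 6), ((5, 0, 6), 2, 0, 6), ((6, 4, 5), 6, 0, 2), ((7, 2, 8), 7, 4, 3),
    ((8, 7, 10), 3, 7, 8), ((9, 3, 10), 5, 3, 8), ((10, 8, 9), 8, 3, 5)]
  Tc := [(4, 0, 3)]
  Td := [((0, 4), (0, 1), 1), ((0, 4), (0, 5), 2), ((0, 4), (4, 3), 3), ((0, 4), (4, 6), 6), ((3,
    4), (3, 4), 0), ((3, 4), (3, 9), 5), ((3, 4), (8, 7), 7), ((3, 4), (8, 10), 8), ((4, 0),
    (2, 1), 1), ((4, 0), (2, 7), 7), ((4, 3), (2, 1), 1), ((4, 3), (2, 7), 7)]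
  G := [[0, 0x9c348ddac67147432294396c9f18c2, 0x48dd2653c59aa51a83dc28bbc25c618,
    0xa934165348dd886b1c18, 0xa93c49761463d81a14], [0,
    0x48c59a27df116ff1428ad7653429174ff148a,
    0xca97465b268bf32fca9786d7268bf153ef6c885c5981ca14, 0x883118ca97486df22cff153ef18811c54,
    0x21112688ffc247fa63d971ef129221184c], [0, 0, 0,
    0x1a654364165b188b481dfe165bc85bacc1b934914ca5c81c,
    0xc597211a5dad486e7a1567199784c2f563d8aa14], [0, 0, 0,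
    0x411811c4688ffc65b22cff917ef84981148441ca97486df268bf1dbefc85c,
    0x81122118a221811a8ca97486df268bf1dbef2688ffc247fa63d971ef8ad4]]

noncomputable def n3044 : Ent := ⟨e3044, noF, [], [], [(17, 13, [6903326391226443182813612567740724581985591720012749800372886080204801, 0])]⟩

def c3044 : PLift (Cov.check n3044.C.D v3044 = true) := ⟨by decide +kernel⟩

def b3044 : PLift (entF (fidx ts) 400 3044 n3044 = true) := ⟨by decide +kernel⟩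

theorem g3044 : GoodF (fidx ts) 400 3044 := GoodF.ofV v3044 n3044 c3044.down b3044.down

/-- 4596446:2366 -/
noncomputable def e3045 : SCfg where
  D := {
    a := 7
    L := 11
    kp := 8
    inn := [(0, 1), (0, 2), (1, 0), (1, 2), (2, 0), (2, 1), (2, 3), (2, 4), (2, 6), (3, 2), (3, 5), (3,
      6), (4, 2), (5, 3), (5, 6), (6, 2), (6, 3), (6, 5)]
    mix := [(0, 0), (0, 1), (1, 1), (1, 2), (1, 3), (2, 0), (2, 3), (2, 4), (2, 5), (3, 4), (3, 6), (3,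
      7), (4, 3), (4, 4), (4, 8), (5, 7), (5, 9), (6, 5), (6, 9), (6, 10)]
    cl := [1, 2, 6, 1, 0, 0, 5, 4, 7, 3, 8]
    chq := [(0, 3), (3, 0), (3, 5), (5, 3)]
    rng := [(0, 1), (0, 5), (1, 0), (1, 2), (2, 1), (2, 3), (3, 2), (3, 8), (4, 6), (4, 8), (5, 0), (5,
      10), (6, 4), (6, 7), (7, 6), (7, 9), (8, 3), (8, 4), (9, 7), (9, 10), (10, 5), (10, 9)]
    lev := [] }
  links := [[1, 2, 7, 8], [2, 0, 8, 9, 10], [7, 0, 1, 10, 4, 11, 3, 6, 12], [6, 2, 11, 13, 14, 5], [11,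
    2, 10, 15], [6, 3, 14, 16], [12, 2, 3, 5, 16, 17]]
  P := {
    a := 7
    N := 18
    nb := [390, 1797, 7387, 26724, 35844, 81992, 200748, 4357, 643, 1282, 33302, 40988, 131268, 18440,
      73768, 3088, 147552, 69696]
    tri := [(0, 1, 2), (0, 1, 8), (0, 2, 7), (0, 7, 8), (1, 2, 10), (1, 8, 9), (1, 9, 10), (2, 3, 6),
      (2, 3, 11), (2, 4, 10), (2, 4, 11), (2, 6, 12), (2, 7, 12), (3, 5, 6), (3, 5, 14), (3, 11,
      13), (3, 13, 14), (4, 10, 15), (4, 11, 15), (5, 6, 16), (5, 14, 16), (6, 12, 17), (6, 16,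
      17)]
    fin := [0, 0, 2, 3, 0, 3, 2, 0, 8, 9, 0, 2, 2, 3, 14, 15, 16, 17]
    chd := [(2, 16), (3, 16)]
    steps := [(0, 1), (0, 7), (0, 10), (0, 4), (2, 6), (2, 11), (2, 12), (3, 5), (3, 13)] }
  rep := [2, 0, 8, 16, 14, 3, 9, 15, 17]

noncomputable def v3045 : Cov.CovD where
  P := 3
  N := 6
  pl := [1, 2, 7, 8, 10]
  lev := [⟨[], [], [], [2], [(0, 1, [])]⟩,
    ⟨[], [(0, 1)], [], [2, 6], [(3, 1, [])]⟩,
    ⟨[(0, 1)], [(0, 0), (0, 1), (1, 0), (1, 1)], [(0, 0), (0, 1), (1, 1)], [], [(0, 1, []),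
      (3, 1, []), (4, 0, [3]), (5, 0, [3])]⟩,
    ⟨[(0, 2), (1, 2)], [(2, 0), (2, 1), (2, 5)], [(0, 5)], [4], [(4, 0, [3]), (6, 5, [3])]⟩,
    ⟨[(0, 2), (1, 2), (2, 3)], [(1, 1), (2, 0), (2, 1), (3, 0)], [(0, 1)], [7], [(3, 1,
      []), (4, 0, [3])]⟩,
    ⟨[(2, 3)], [(3, 0), (3, 3), (3, 5)], [], [4], [(9, 3, [0, 5])]⟩,
    ⟨[(0, 2), (1, 2), (2, 3), (2, 4), (2, 5), (3, 5)], [(2, 0), (2, 1), (2, 3), (3, 0), (3,
      3), (3, 5), (5, 0), (5, 3)], [(0, 3)], [8], [(5, 0, [3]), (9, 3, [0, 5])]⟩]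
  Ta := [((0, 1), 1, 2), ((0, 5), 1, 0), ((3, 2), 1, 6), ((3, 8), 1, 7), ((4, 6), 0, 5), ((4, 8),
    0, 7), ((5, 0), 0, 1), ((5, 10), 0, 8)]
  Tb := [((0, 1, 5), 1, 2, 0), ((1, 0, 2), 2, 1, 6), ((2, 1, 3), 6, 2, 1), ((3, 2, 8), 1, 6, 7),
    ((4, 6, 8), 0, 5, 7), ((5, 0, 10), 0, 1, 8), ((6, 4, 7), 5, 0, 4), ((7, 6, 9), 4, 5, 3),
    ((8, 3, 4), 7, 1, 0), ((9, 7, 10), 3, 4, 8), ((10, 5, 9), 8, 0, 3)]
  Tc := [(3, 0, 5)]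
  Td := [((0, 3), (4, 6), 5), ((0, 3), (4, 8), 7), ((0, 3), (5, 0), 1), ((0, 3), (5, 10), 8),
    ((3, 0), (9, 7), 4), ((3, 0), (9, 10), 8), ((3, 5), (9, 7), 4), ((3, 5), (9, 10), 8),
    ((5, 3), (6, 4), 0), ((5, 3), (6, 7), 4)]
  G := [[0, 0, 0x116b2116d2611a728c11672e1211c72e8c4, 0x116d22e1211ab2cc116721e92e12e8c1,
    0xe1211ab21e52e4116d211ab2e12e498], [0, 0,
    0x116b44169299ec11ab81c311adcec11674116b11cbc116de1ce11a788cc2, 0,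
    0x116b4411c711a7c11ab8e111adcec77a1e9c116de1c6e111a7c8c92], [0,
    0xa22429e466a42721445eae94ecc88ada14, 0x24914ee31a11ce91ec28,
    0x822a42c4a274224e2442626278ee32a12ec91e4d8, 0x41146e31aaa1ce91ec28], [0, 0,
    0x643166c16e118a3188c1ec4651ae314aed1e8118cc2, 0,
    0x46a166516e11a8918891ec4114ee31a11ee91ec91]]

noncomputable def n3045 : Ent := ⟨e3045, noF, [], [], []⟩

def c3045 : PLift (Cov.check n3045.C.D v3045 = true) := ⟨by decide +kernel⟩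

def b3045 : PLift (entF (fidx ts) 400 3045 n3045 = true) := ⟨by decide +kernel⟩

theorem g3045 : GoodF (fidx ts) 400 3045 := GoodF.ofV v3045 n3045 c3045.down b3045.down

/-- 4595664:2370 -/
noncomputable def e3046 : SCfg where
  D := {
    a := 7
    L := 11
    kp := 9
    inn := [(0, 1), (0, 2), (0, 5), (1, 0), (1, 2), (2, 0), (2, 1), (2, 3), (2, 4), (2, 5), (2, 6), (3,
      2), (3, 4), (4, 2), (4, 3), (4, 5), (5, 0), (5, 2), (5, 4), (6, 2)]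
    mix := [(0, 0), (1, 0), (1, 1), (1, 2), (2, 2), (2, 3), (2, 4), (3, 4), (3, 5), (3, 6), (4, 6), (4,
      7), (4, 8), (5, 0), (5, 8), (5, 9), (6, 3), (6, 4), (6, 10)]
    cl := [1, 6, 0, 2, 0, 7, 4, 5, 3, 8, 9]
    chq := [(0, 1), (0, 3), (0, 4), (0, 5), (1, 0), (1, 3), (3, 0), (3, 1), (4, 0), (5, 0)]
    rng := [(0, 1), (0, 9), (1, 0), (1, 2), (2, 1), (2, 3), (3, 2), (3, 10), (4, 5), (4, 10), (5, 4),
      (5, 6), (6, 5), (6, 7), (7, 6), (7, 8), (8, 7), (8, 9), (9, 0), (9, 8), (10, 3), (10, 4)]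
    lev := [] }
  links := [[1, 2, 5, 7], [2, 0, 7, 8, 9], [5, 0, 1, 9, 10, 6, 11, 3, 4], [4, 2, 11, 12, 13], [5, 2, 3,
    13, 14, 15], [7, 0, 2, 4, 15, 16], [11, 2, 10, 17]]
  P := {
    a := 7
    N := 18
    nb := [166, 901, 3707, 14356, 57388, 98453, 134148, 65827, 642, 1286, 131652, 135244, 10248,
      20504, 40976, 81968, 32928, 3136]
    tri := [(0, 1, 2), (0, 1, 7), (0, 2, 5), (0, 5, 7), (1, 2, 9), (1, 7, 8), (1, 8, 9), (2, 3, 4), (2,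
      3, 11), (2, 4, 5), (2, 6, 10), (2, 6, 11), (2, 9, 10), (3, 4, 13), (3, 11, 12), (3, 12, 13),
      (4, 5, 15), (4, 13, 14), (4, 14, 15), (5, 7, 16), (5, 15, 16), (6, 10, 17), (6, 11, 17)]
    fin := [0, 0, 2, 2, 2, 0, 2, 0, 8, 2, 10, 2, 12, 13, 14, 15, 16, 17]
    chd := [(0, 2), (0, 15), (2, 13), (2, 14), (2, 15)]
    steps := [(0, 1), (0, 5), (0, 7), (2, 3), (2, 4), (2, 6), (2, 9), (2, 11)] }
  rep := [2, 0, 10, 15, 13, 14, 8, 12, 16, 17]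

noncomputable def v3046 : Cov.CovD where
  P := 3
  N := 7
  pl := [1, 3, 5, 9, 10]
  lev := [⟨[], [], [], [], [(0, 1, [0, 3])]⟩,
    ⟨[], [(0, 0), (0, 1)], [(0, 1)], [6], [(0, 1, [0, 3]), (2, 0, [1, 3, 4, 5])]⟩,
    ⟨[(0, 1)], [(0, 0), (0, 1), (1, 0), (1, 1)], [(0, 0)], [2], [(2, 0, [1, 3, 4, 5]), (4,
      0, [1, 3, 4, 5])]⟩,
    ⟨[(0, 2), (1, 2)], [(2, 0), (2, 4)], [(0, 4)], [7], [(4, 0, [1, 3, 4, 5]), (6, 4,
      [0])]⟩,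
    ⟨[(0, 2), (1, 2), (2, 3)], [(2, 0), (2, 3), (2, 4), (2, 5), (3, 0), (3, 3), (3, 4), (3,
      5)], [(3, 4), (3, 5), (4, 5)], [], [(6, 4, [0]), (7, 5, [0]), (8, 3, [0, 1])]⟩,
    ⟨[(0, 1), (0, 2), (0, 4), (1, 2), (2, 3), (2, 4), (3, 4)], [(0, 1), (0, 3), (1, 1), (2,
      0), (2, 1), (2, 3), (4, 1), (4, 3), (4, 4), (4, 5)], [(1, 3)], [8], [(0, 1, [0, 3]),
      (8, 3, [0, 1])]⟩,
    ⟨[(0, 2), (1, 2), (2, 3), (2, 4), (2, 5)], [(2, 0), (3, 0)], [], [2, 9], [(4, 0, [1, 3,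
      4, 5])]⟩]
  Ta := [((2, 1), 0, 6), ((2, 3), 0, 2), ((4, 5), 0, 7), ((4, 10), 0, 9)]
  Tb := [((0, 1, 9), 1, 6, 8), ((1, 0, 2), 6, 1, 0), ((2, 1, 3), 0, 6, 2), ((3, 2, 10), 2, 0, 9),
    ((4, 5, 10), 0, 7, 9), ((5, 4, 6), 7, 0, 4), ((6, 5, 7), 4, 7, 5), ((7, 6, 8), 5, 4, 3),
    ((8, 7, 9), 3, 5, 8), ((9, 0, 8), 8, 1, 3), ((10, 3, 4), 9, 2, 0)]
  Tc := [(0, 1, 3), (0, 1, 4), (0, 1, 5), (0, 3, 4), (0, 3, 5), (0, 4, 5), (1, 0, 3), (3, 0, 1)]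
  Td := [((0, 1), (2, 1), 6), ((0, 1), (2, 3), 2), ((0, 1), (4, 5), 7), ((0, 1), (4, 10), 9),
    ((0, 3), (2, 1), 6), ((0, 3), (2, 3), 2), ((0, 3), (4, 5), 7), ((0, 3), (4, 10), 9), ((0,
    4), (2, 1), 6), ((0, 4), (2, 3), 2), ((0, 4), (4, 5), 7), ((0, 4), (4, 10), 9), ((0, 5),
    (2, 1), 6), ((0, 5), (2, 3), 2), ((0, 5), (4, 5), 7), ((0, 5), (4, 10), 9), ((1, 0), (0,
    1), 6), ((1, 0), (0, 9), 8), ((1, 3), (0, 1), 6), ((1, 3), (0, 9), 8), ((3, 0), (8, 7),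
    5), ((3, 0), (8, 9), 8), ((3, 1), (8, 7), 5), ((3, 1), (8, 9), 8), ((4, 0), (6, 5), 7),
    ((4, 0), (6, 7), 5), ((5, 0), (7, 6), 4), ((5, 0), (7, 8), 3)]
  G := [[0, 0x1414111e111a1111e1ec1161111e1111e1e1818cc2,
    0x6c516c51c41e2a66d1c6cd1cccd1e2ca81aa91ac81468c,
    0x11511111151c12f411115511143611911191ac111111e1111ac4d111454181181181ec141181c8c9,
    0x11115311511151e211111d3111d1111d1e211221111c111111ecad181181181e289], [0,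
    0x181844111e184111e1111e1681161111e1111e1e8e3, 0,
    0x1111c8cdd11883881e411144311114ccdd114ccd3e81c,
    0x11222d32111111aaadf111111aaadf888d1ea14]]

noncomputable def n3046 : Ent := ⟨e3046, noF, [], [], []⟩

def c3046 : PLift (Cov.check n3046.C.D v3046 = true) := ⟨by decide +kernel⟩

def b3046 : PLift (entF (fidx ts) 400 3046 n3046 = true) := ⟨by decide +kernel⟩

theorem g3046 : GoodF (fidx ts) 400 3046 := GoodF.ofV v3046 n3046 c3046.down b3046.down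

/-- 4595664:2371 -/
noncomputable def e3047 : SCfg where
  D := {
    a := 7
    L := 11
    kp := 9
    inn := [(0, 1), (0, 2), (0, 5), (1, 0), (1, 2), (2, 0), (2, 1), (2, 3), (2, 4), (2, 5), (3, 2), (3,
      4), (3, 6), (4, 2), (4, 3), (4, 5), (5, 0), (5, 2), (5, 4), (6, 3)]
    mix := [(0, 0), (1, 0), (1, 1), (1, 2), (2, 2), (2, 3), (2, 4), (2, 5), (3, 5), (3, 6), (4, 6), (4,
      7), (4, 8), (5, 0), (5, 8), (5, 9), (6, 5), (6, 6), (6, 10)]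
    cl := [1, 6, 0, 7, 8, 0, 2, 4, 3, 5, 9]
    chq := [(0, 1), (0, 2), (0, 3), (0, 4), (0, 5), (1, 0), (2, 0), (3, 0), (4, 0), (5, 0)]
    rng := [(0, 1), (0, 9), (1, 0), (1, 2), (2, 1), (2, 3), (3, 2), (3, 4), (4, 3), (4, 5), (5, 4), (5,
      10), (6, 7), (6, 10), (7, 6), (7, 8), (8, 7), (8, 9), (9, 0), (9, 8), (10, 5), (10, 6)]
    lev := [] }
  links := [[1, 2, 5, 7], [2, 0, 7, 8, 9], [5, 0, 1, 9, 10, 11, 12, 3, 4], [4, 2, 12, 6, 13], [5, 2, 3,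
    13, 14, 15], [7, 0, 2, 4, 15, 16], [13, 3, 12, 17]]
  P := {
    a := 7
    N := 18
    nb := [166, 901, 7739, 12372, 57388, 98453, 143368, 65827, 642, 1286, 2564, 5124, 133196, 147544,
      40976, 81968, 32928, 12352]
    tri := [(0, 1, 2), (0, 1, 7), (0, 2, 5), (0, 5, 7), (1, 2, 9), (1, 7, 8), (1, 8, 9), (2, 3, 4), (2,
      3, 12), (2, 4, 5), (2, 9, 10), (2, 10, 11), (2, 11, 12), (3, 4, 13), (3, 6, 12), (3, 6, 13),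
      (4, 5, 15), (4, 13, 14), (4, 14, 15), (5, 7, 16), (5, 15, 16), (6, 12, 17), (6, 13, 17)]
    fin := [0, 0, 2, 2, 2, 2, 2, 0, 8, 2, 10, 11, 2, 13, 14, 15, 16, 17]
    chd := [(0, 2), (2, 13), (2, 14), (2, 15), (2, 16)]
    steps := [(0, 1), (0, 7), (2, 3), (2, 4), (2, 5), (2, 6), (2, 9), (2, 12)] }
  rep := [2, 0, 13, 15, 14, 16, 8, 10, 11, 17]

noncomputable def v3047 : Cov.CovD where
  P := 3
  N := 7
  pl := [1, 3, 4, 10]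
  lev := [⟨[], [], [], [], [(0, 1, [0])]⟩,
    ⟨[], [(0, 0), (0, 1)], [(0, 1)], [6], [(0, 1, [0]), (2, 0, [1, 2, 3, 4, 5])]⟩,
    ⟨[(0, 1)], [(0, 0), (0, 1), (1, 0), (1, 1)], [(0, 0)], [7, 8], [(2, 0, [1, 2, 3, 4,
      5]), (5, 0, [1, 2, 3, 4, 5])]⟩,
    ⟨[(0, 2), (1, 2)], [(2, 0), (2, 2)], [(0, 2)], [], [(5, 0, [1, 2, 3, 4, 5]), (6, 2,
      [0])]⟩,
    ⟨[(0, 2), (1, 2), (2, 3)], [(2, 0), (2, 2), (2, 3), (2, 4), (3, 0), (3, 2), (3, 3), (3,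
      4)], [(2, 3), (2, 4), (3, 4)], [], [(6, 2, [0]), (7, 4, [0]), (8, 3, [0])]⟩,
    ⟨[(0, 1), (0, 2), (0, 4), (1, 2), (2, 3), (2, 4), (3, 4)], [(0, 1), (0, 3), (0, 5), (1,
      1), (2, 0), (2, 1), (2, 3), (2, 5), (4, 1), (4, 2), (4, 3), (4, 4), (4, 5)], [(1, 3),
      (1, 5), (3, 5)], [], [(0, 1, [0]), (8, 3, [0]), (9, 5, [0])]⟩,
    ⟨[(2, 3), (3, 4)], [(2, 0), (3, 0), (3, 2), (4, 2)], [(0, 2)], [9], [(5, 0, [1, 2, 3,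
      4, 5]), (6, 2, [0])]⟩]
  Ta := [((2, 1), 0, 6), ((2, 3), 0, 7), ((5, 4), 0, 8), ((5, 10), 0, 9)]
  Tb := [((0, 1, 9), 1, 6, 5), ((1, 0, 2), 6, 1, 0), ((2, 1, 3), 0, 6, 7), ((3, 2, 4), 7, 0, 8),
    ((4, 3, 5), 8, 7, 0), ((5, 4, 10), 0, 8, 9), ((6, 7, 10), 2, 4, 9), ((7, 6, 8), 4, 2, 3),
    ((8, 7, 9), 3, 4, 5), ((9, 0, 8), 5, 1, 3), ((10, 5, 6), 9, 0, 2)]
  Tc := [(0, 1, 2), (0, 1, 3), (0, 1, 4), (0, 1, 5), (0, 2, 3), (0, 2, 4), (0, 2, 5), (0, 3, 4),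
    (0, 3, 5), (0, 4, 5)]
  Td := [((0, 1), (2, 1), 6), ((0, 1), (2, 3), 7), ((0, 1), (5, 4), 8), ((0, 1), (5, 10), 9),
    ((0, 2), (2, 1), 6), ((0, 2), (2, 3), 7), ((0, 2), (5, 4), 8), ((0, 2), (5, 10), 9), ((0,
    3), (2, 1), 6), ((0, 3), (2, 3), 7), ((0, 3), (5, 4), 8), ((0, 3), (5, 10), 9), ((0, 4),
    (2, 1), 6), ((0, 4), (2, 3), 7), ((0, 4), (5, 4), 8), ((0, 4), (5, 10), 9), ((0, 5), (2,
    1), 6), ((0, 5), (2, 3), 7), ((0, 5), (5, 4), 8), ((0, 5), (5, 10), 9), ((1, 0), (0, 1),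
    6), ((1, 0), (0, 9), 5), ((2, 0), (6, 7), 4), ((2, 0), (6, 10), 9), ((3, 0), (8, 7), 4),
    ((3, 0), (8, 9), 5), ((4, 0), (7, 6), 2), ((4, 0), (7, 8), 3), ((5, 0), (9, 0), 1), ((5,
    0), (9, 8), 3)]
  G := [[0, 0x111e18212182c1214111e18c111e1411a1811c14e141181c1418ce6,
    0x61a161e84161a161e4a12c1c1c6a1c,
    0x1118111d146111111cd81111c4651111541118111d14e11115881111c948dc,
    0x1112111159261111321118111d18e1111c324d11113281114921128a9c], [0,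
    0x111e1811a1461161181c111e14a111e14111e181418ee1, 0xc1c1c1e261a1a1e861a1a161e481c,
    0x11145841111111cdd4111c99811111ccdd4e1c, 0x1a5121111ad381111ad38e111183281c]]

noncomputable def n3047 : Ent := ⟨e3047, noF, [], [], []⟩

def c3047 : PLift (Cov.check n3047.C.D v3047 = true) := ⟨by decide +kernel⟩

def b3047 : PLift (entF (fidx ts) 400 3047 n3047 = true) := ⟨by decide +kernel⟩

theorem g3047 : GoodF (fidx ts) 400 3047 := GoodF.ofV v3047 n3047 c3047.down b3047.down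

/-- 4596465:2372 -/
noncomputable def e3048 : SCfg where
  D := {
    a := 7
    L := 11
    kp := 9
    inn := [(0, 1), (0, 2), (1, 0), (1, 2), (2, 0), (2, 1), (2, 3), (2, 4), (2, 5), (2, 6), (3, 2), (3,
      4), (3, 5), (4, 2), (4, 3), (5, 2), (5, 3), (5, 6), (6, 2), (6, 5)]
    mix := [(0, 0), (0, 1), (1, 1), (1, 2), (1, 3), (2, 0), (2, 3), (2, 4), (3, 5), (3, 6), (3, 7), (4,
      4), (4, 5), (5, 7), (5, 8), (5, 9), (6, 0), (6, 9), (6, 10)]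
    cl := [0, 2, 8, 0, 5, 1, 6, 3, 7, 4, 9]
    chq := [(0, 1), (0, 3), (0, 4), (0, 6), (0, 7), (1, 0), (3, 0), (4, 0), (6, 0), (7, 0)]
    rng := [(0, 1), (0, 10), (1, 0), (1, 2), (2, 1), (2, 3), (3, 2), (3, 4), (4, 3), (4, 5), (5, 4),
      (5, 6), (6, 5), (6, 7), (7, 6), (7, 8), (8, 7), (8, 9), (9, 8), (9, 10), (10, 0), (10, 9)]
    lev := [] }
  links := [[1, 2, 7, 8], [2, 0, 8, 9, 10], [7, 0, 1, 10, 11, 4, 3, 5, 6], [5, 2, 4, 12, 13, 14], [12, 3,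
    2, 11], [6, 2, 3, 14, 15, 16], [7, 2, 5, 16, 17]]
  P := {
    a := 7
    N := 18
    nb := [390, 1797, 3323, 28724, 6156, 114764, 196772, 131397, 643, 1282, 2566, 5140, 10264, 20488,
      41000, 81952, 163936, 65728]
    tri := [(0, 1, 2), (0, 1, 8), (0, 2, 7), (0, 7, 8), (1, 2, 10), (1, 8, 9), (1, 9, 10), (2, 3, 4),
      (2, 3, 5), (2, 4, 11), (2, 5, 6), (2, 6, 7), (2, 10, 11), (3, 4, 12), (3, 5, 14), (3, 12,
      13), (3, 13, 14), (4, 11, 12), (5, 6, 16), (5, 14, 15), (5, 15, 16), (6, 7, 17), (6, 16,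
      17)]
    fin := [0, 0, 0, 0, 0, 0, 0, 0, 8, 9, 0, 11, 12, 13, 14, 15, 16, 17]
    chd := [(0, 12), (0, 13), (0, 14), (0, 15), (0, 16)]
    steps := [(0, 1), (0, 2), (0, 3), (0, 4), (0, 5), (0, 6), (0, 7), (0, 10)] }
  rep := [0, 12, 8, 14, 16, 11, 13, 15, 9, 17]

noncomputable def v3048 : Cov.CovD where
  P := 3
  N := 7
  pl := [1, 2, 4, 10]
  lev := [⟨[], [], [], [2], [(0, 0, [1, 3, 4, 6, 7])]⟩,
    ⟨[], [(0, 0)], [], [2, 8], [(3, 0, [1, 3, 4, 6, 7])]⟩,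
    ⟨[(0, 1)], [(0, 0), (1, 0)], [(0, 0)], [5], [(0, 0, [1, 3, 4, 6, 7]), (3, 0, [1, 3, 4,
      6, 7])]⟩,
    ⟨[(0, 2), (1, 2)], [(2, 0), (2, 1), (2, 3), (2, 6)], [(1, 3), (1, 6), (3, 6)], [], [(5,
      1, [0]), (6, 6, [0]), (7, 3, [0])]⟩,
    ⟨[(0, 2), (1, 2), (2, 3)], [(2, 0), (2, 1), (3, 1), (3, 3), (3, 6)], [], [5], [(5, 1,
      [0])]⟩,
    ⟨[(0, 2), (1, 2), (2, 3), (2, 4), (3, 4)], [(2, 0), (2, 3), (2, 4), (2, 7), (3, 1), (3,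
      3), (3, 4), (3, 6), (3, 7)], [(3, 4), (3, 7), (4, 7)], [], [(7, 3, [0]), (8, 7, [0]),
      (9, 4, [0])]⟩,
    ⟨[(0, 2), (1, 2), (2, 3), (2, 4), (2, 5), (3, 5)], [(0, 0), (2, 0), (2, 4), (5, 0), (5,
      3), (5, 4), (5, 7)], [(0, 4)], [9], [(0, 0, [1, 3, 4, 6, 7]), (9, 4, [0])]⟩]
  Ta := [((0, 1), 0, 2), ((0, 10), 0, 9), ((3, 2), 0, 8), ((3, 4), 0, 5)]
  Tb := [((0, 1, 10), 0, 2, 9), ((1, 0, 2), 2, 0, 8), ((2, 1, 3), 8, 2, 0), ((3, 2, 4), 0, 8, 5),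
    ((4, 3, 5), 5, 0, 1), ((5, 4, 6), 1, 5, 6), ((6, 5, 7), 6, 1, 3), ((7, 6, 8), 3, 6, 7),
    ((8, 7, 9), 7, 3, 4), ((9, 8, 10), 4, 7, 9), ((10, 0, 9), 9, 0, 4)]
  Tc := [(0, 1, 3), (0, 1, 4), (0, 1, 6), (0, 1, 7), (0, 3, 4), (0, 3, 6), (0, 3, 7), (0, 4, 6),
    (0, 4, 7), (0, 6, 7)]
  Td := [((0, 1), (0, 1), 2), ((0, 1), (0, 10), 9), ((0, 1), (3, 2), 8), ((0, 1), (3, 4), 5),
    ((0, 3), (0, 1), 2), ((0, 3), (0, 10), 9), ((0, 3), (3, 2), 8), ((0, 3), (3, 4), 5), ((0,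
    4), (0, 1), 2), ((0, 4), (0, 10), 9), ((0, 4), (3, 2), 8), ((0, 4), (3, 4), 5), ((0, 6),
    (0, 1), 2), ((0, 6), (0, 10), 9), ((0, 6), (3, 2), 8), ((0, 6), (3, 4), 5), ((0, 7), (0,
    1), 2), ((0, 7), (0, 10), 9), ((0, 7), (3, 2), 8), ((0, 7), (3, 4), 5), ((1, 0), (5, 4),
    5), ((1, 0), (5, 6), 6), ((3, 0), (7, 6), 6), ((3, 0), (7, 8), 7), ((4, 0), (9, 8), 7),
    ((4, 0), (9, 10), 9), ((6, 0), (6, 5), 1), ((6, 0), (6, 7), 3), ((7, 0), (8, 7), 3), ((7,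
    0), (8, 9), 4)]
  G := [[0, 0x611e11e11ea11211ac12e14c11ee14, 0x41a1c1481e1c12ce141c126181c18ac,
    0x4144e11a11b747ba9cde11e11e141ccdedde18, 0x4114e11a11b45bbabcde11e11e141ccdedde18], [0,
    0x6112126e11a11e11ee11c11c18ee18, 0,
    0x41ba9c1e141c7ded16861789c1814e5c8ded1a41441a197768da118e11e11ce5c,
    0x81141a1c5e1118cef41c9661151615e11bbab459e11a885e921181126678da141c1148941c9e29]]

noncomputable def n3048 : Ent := ⟨e3048, noF, [], [], []⟩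

def c3048 : PLift (Cov.check n3048.C.D v3048 = true) := ⟨by decide +kernel⟩

def b3048 : PLift (entF (fidx ts) 400 3048 n3048 = true) := ⟨by decide +kernel⟩

theorem g3048 : GoodF (fidx ts) 400 3048 := GoodF.ofV v3048 n3048 c3048.down b3048.down

/-- 4596464:2374/1 -/
noncomputable def e3049 : SCfg where
  D := {
    a := 7
    L := 10
    kp := 7
    inn := [(0, 1), (0, 2), (1, 0), (1, 2), (2, 0), (2, 1), (2, 3), (2, 4), (2, 5), (3, 2), (3, 4), (3,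
      5), (4, 2), (4, 3), (5, 2), (5, 3), (5, 6), (6, 5)]
    mix := [(0, 0), (0, 1), (1, 1), (1, 2), (1, 3), (2, 0), (2, 3), (2, 4), (2, 5), (3, 6), (3, 7), (3,
      8), (4, 4), (4, 6), (5, 5), (5, 8), (5, 9), (6, 1), (6, 8), (6, 9)]
    cl := [1, 2, 7, 1, 3, 0, 4, 6, 0, 5]
    chq := [(0, 3), (3, 0), (3, 6), (6, 3)]
    rng := [(0, 1), (0, 5), (1, 0), (1, 2), (1, 8), (1, 9), (2, 1), (2, 3), (3, 2), (3, 4), (4, 3), (4,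
      6), (5, 0), (5, 9), (6, 4), (6, 7), (7, 6), (7, 8), (8, 1), (8, 7), (9, 1), (9, 5)]
    lev := [] }
  links := [[1, 2, 7, 8], [2, 0, 8, 9, 10], [7, 0, 1, 10, 11, 4, 3, 5, 12], [5, 2, 4, 13, 14, 15], [13,
    3, 2, 11], [12, 2, 3, 15, 6, 16], [16, 5, 15, 8]]
  P := {
    a := 7
    N := 17
    nb := [390, 1797, 7355, 57396, 10252, 102476, 98592, 4357, 99011, 1282, 2566, 9236, 65700, 18456,
      40968, 16744, 4448]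
    tri := [(0, 1, 2), (0, 1, 8), (0, 2, 7), (0, 7, 8), (1, 2, 10), (1, 8, 9), (1, 9, 10), (2, 3, 4),
      (2, 3, 5), (2, 4, 11), (2, 5, 12), (2, 7, 12), (2, 10, 11), (3, 4, 13), (3, 5, 15), (3, 13,
      14), (3, 14, 15), (4, 11, 13), (5, 6, 15), (5, 6, 16), (5, 12, 16), (6, 8, 15), (6, 8, 16)]
    fin := [0, 0, 0, 3, 3, 5, 6, 0, 6, 9, 0, 3, 5, 13, 14, 5, 16]
    chd := [(3, 5), (3, 14)]
    steps := [(0, 1), (0, 2), (0, 7), (0, 10), (3, 4), (3, 11), (5, 15), (5, 12), (6, 8)] }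
  rep := [5, 0, 6, 3, 13, 16, 14, 9]

noncomputable def v3049 : Cov.CovD where
  P := 3
  N := 5
  pl := [1, 2, 6, 9]
  lev := [⟨[], [], [], [2], [(0, 1, [])]⟩,
    ⟨[], [(0, 1)], [], [2, 7], [(3, 1, [])]⟩,
    ⟨[(0, 1)], [(0, 0), (0, 1), (0, 3), (1, 0), (1, 1), (1, 3)], [(0, 1), (0, 3), (1, 1),
      (1, 3)], [], [(0, 1, []), (3, 1, []), (4, 3, [0, 6]), (5, 0, [3])]⟩,
    ⟨[(0, 2), (1, 2)], [(2, 0), (2, 1), (2, 3), (2, 6)], [(0, 6)], [4], [(7, 6, [3]), (8,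
      0, [3])]⟩,
    ⟨[(0, 2), (1, 2), (2, 3)], [(2, 0), (2, 1), (2, 3), (3, 0), (3, 3), (3, 6)], [], [4],
      [(4, 3, [0, 6])]⟩,
    ⟨[(0, 2), (1, 2), (2, 3), (2, 4), (3, 4)], [(2, 0), (2, 1), (2, 3), (3, 0), (3, 6)],
      [(0, 0)], [5], [(5, 0, [3]), (8, 0, [3])]⟩,
    ⟨[(2, 5), (3, 5)], [(3, 0), (5, 0)], [], [2, 5], [(8, 0, [3])]⟩]
  Ta := [((0, 1), 1, 2), ((0, 5), 1, 0), ((3, 2), 1, 7), ((3, 4), 1, 3), ((5, 0), 0, 1), ((5, 9),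
    0, 5), ((8, 1), 0, 2), ((8, 7), 0, 6)]
  Tb := [((0, 1, 5), 1, 2, 0), ((1, 0, 2), 2, 1, 7), ((1, 0, 8), 2, 1, 0), ((1, 0, 9), 2, 1, 5),
    ((1, 2, 8), 2, 7, 0), ((1, 2, 9), 2, 7, 5), ((1, 8, 9), 2, 0, 5), ((2, 1, 3), 7, 2, 1),
    ((3, 2, 4), 1, 7, 3), ((4, 3, 6), 3, 1, 4), ((5, 0, 9), 0, 1, 5), ((6, 4, 7), 4, 3, 6),
    ((7, 6, 8), 6, 4, 0), ((8, 1, 7), 0, 2, 6), ((9, 1, 5), 5, 2, 0)]
  Tc := [(3, 0, 6)]
  Td := [((0, 3), (5, 0), 1), ((0, 3), (5, 9), 5), ((0, 3), (8, 1), 2), ((0, 3), (8, 7), 6), ((3,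
    0), (4, 3), 1), ((3, 0), (4, 6), 4), ((3, 6), (4, 3), 1), ((3, 6), (4, 6), 4), ((6, 3),
    (7, 6), 4), ((6, 3), (7, 8), 0)]
  G := [[0, 0x816811c448687816484c29a14, 0, 0x92284a494c22486858c22c285c24c229cd1,
    0x82628268512a282a8869c21], [0, 0, 0, 0,
    0x826126382625126282c88882acbc12a2186882687826282a49c92], [0, 0,
    0x486426682a826a84c2e124, 0xc21121c21ec2284a2c5c2184862c2c2c84c2e5c21c2168d8,
    0x2ac182a82ac9826282a82aa82c2e528], [0, 0,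
    0x24c42a682a82ca84a82cce1426486684a42aa84a84ace1c4, 0,
    0x826182c1a826882a482c2e58268263a8616826182a282c82caec98261488261889a]]

noncomputable def n3049 : Ent := ⟨e3049, noF, [], [], []⟩

def c3049 : PLift (Cov.check n3049.C.D v3049 = true) := ⟨by decide +kernel⟩

def b3049 : PLift (entF (fidx ts) 400 3049 n3049 = true) := ⟨by decide +kernel⟩

theorem g3049 : GoodF (fidx ts) 400 3049 := GoodF.ofV v3049 n3049 c3049.down b3049.down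

/-- 4596464:2374/2 -/
noncomputable def e3050 : SCfg where
  D := {
    a := 7
    L := 10
    kp := 7
    inn := [(0, 1), (0, 2), (1, 0), (1, 2), (2, 0), (2, 1), (2, 3), (2, 4), (2, 5), (3, 2), (3, 4), (3,
      5), (4, 2), (4, 3), (5, 2), (5, 3), (5, 6), (6, 5)]
    mix := [(0, 0), (0, 1), (1, 1), (1, 2), (1, 3), (2, 0), (2, 3), (2, 4), (2, 5), (3, 6), (3, 7), (3,
      8), (4, 4), (4, 6), (5, 5), (5, 8), (5, 9), (6, 2), (6, 8), (6, 9)]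
    cl := [0, 2, 4, 0, 1, 3, 5, 7, 3, 6]
    chq := [(1, 3), (1, 7), (3, 1), (7, 1)]
    rng := [(0, 1), (0, 5), (1, 0), (1, 2), (2, 1), (2, 3), (2, 8), (2, 9), (3, 2), (3, 4), (4, 3), (4,
      6), (5, 0), (5, 9), (6, 4), (6, 7), (7, 6), (7, 8), (8, 2), (8, 7), (9, 2), (9, 5)]
    lev := [] }
  links := [[1, 2, 7, 8], [2, 0, 8, 9, 10], [7, 0, 1, 10, 11, 4, 3, 5, 12], [5, 2, 4, 13, 14, 15], [13,
    3, 2, 11], [12, 2, 3, 15, 6, 16], [16, 5, 15, 9]]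
  P := {
    a := 7
    N := 17
    nb := [390, 1797, 7355, 57396, 10252, 102476, 98848, 4357, 643, 99650, 2566, 9236, 65700, 18456,
      40968, 17000, 4704]
    tri := [(0, 1, 2), (0, 1, 8), (0, 2, 7), (0, 7, 8), (1, 2, 10), (1, 8, 9), (1, 9, 10), (2, 3, 4),
      (2, 3, 5), (2, 4, 11), (2, 5, 12), (2, 7, 12), (2, 10, 11), (3, 4, 13), (3, 5, 15), (3, 13,
      14), (3, 14, 15), (4, 11, 13), (5, 6, 15), (5, 6, 16), (5, 12, 16), (6, 9, 15), (6, 9, 16)]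
    fin := [0, 0, 0, 3, 3, 5, 6, 0, 8, 6, 0, 3, 5, 13, 14, 5, 16]
    chd := [(3, 5), (3, 14)]
    steps := [(0, 1), (0, 2), (0, 7), (0, 10), (3, 4), (3, 11), (5, 15), (5, 12), (6, 9)] }
  rep := [0, 3, 8, 5, 6, 13, 16, 14]

noncomputable def v3050 : Cov.CovD where
  P := 3
  N := 5
  pl := [1, 2, 6, 9]
  lev := [⟨[], [], [], [2], [(0, 0, [])]⟩,
    ⟨[], [(0, 0)], [], [2, 4], [(3, 0, [])]⟩,
    ⟨[(0, 1)], [(0, 0), (0, 1), (0, 3), (1, 0), (1, 1), (1, 3)], [(0, 0), (0, 1), (0, 3),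
      (1, 3)], [], [(0, 0, []), (3, 0, []), (4, 1, [3, 7]), (5, 3, [1])]⟩,
    ⟨[(0, 2), (1, 2)], [(2, 0), (2, 1), (2, 3), (2, 7)], [(3, 7)], [5], [(7, 7, [1]), (8,
      3, [1])]⟩,
    ⟨[(0, 2), (1, 2), (2, 3)], [(2, 0), (2, 1), (2, 3), (3, 1), (3, 3), (3, 7)], [], [5],
      [(4, 1, [3, 7])]⟩,
    ⟨[(0, 2), (1, 2), (2, 3), (2, 4), (3, 4)], [(2, 0), (2, 1), (2, 3), (3, 3), (3, 7)],
      [(3, 3)], [6], [(5, 3, [1]), (8, 3, [1])]⟩,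
    ⟨[(2, 5), (3, 5)], [(3, 3), (5, 3)], [], [4, 6], [(8, 3, [1])]⟩]
  Ta := [((0, 1), 0, 2), ((0, 5), 0, 3), ((3, 2), 0, 4), ((3, 4), 0, 1), ((5, 0), 3, 0), ((5, 9),
    3, 6), ((8, 2), 3, 4), ((8, 7), 3, 7)]
  Tb := [((0, 1, 5), 0, 2, 3), ((1, 0, 2), 2, 0, 4), ((2, 1, 3), 4, 2, 0), ((2, 1, 8), 4, 2, 3),
    ((2, 1, 9), 4, 2, 6), ((2, 3, 8), 4, 0, 3), ((2, 3, 9), 4, 0, 6), ((2, 8, 9), 4, 3, 6),
    ((3, 2, 4), 0, 4, 1), ((4, 3, 6), 1, 0, 5), ((5, 0, 9), 3, 0, 6), ((6, 4, 7), 5, 1, 7),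
    ((7, 6, 8), 7, 5, 3), ((8, 2, 7), 3, 4, 7), ((9, 2, 5), 6, 4, 3)]
  Tc := [(1, 3, 7)]
  Td := [((1, 3), (4, 3), 0), ((1, 3), (4, 6), 5), ((1, 7), (4, 3), 0), ((1, 7), (4, 6), 5), ((3,
    1), (5, 0), 0), ((3, 1), (5, 9), 6), ((3, 1), (8, 2), 4), ((3, 1), (8, 7), 7), ((7, 1),
    (7, 6), 5), ((7, 1), (7, 8), 3)]
  G := [[0, 0, 0x11124281b11144958d68c6134815849a486, 0xa21a173441741356356118c11394dac1481184c,
    0x111b2858519548c4f141769841194dac12], [0, 0,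
    0x81384138841bc139815e1f42131221b1621d2199512e1f4a8, 0x813a2561342e81fe15511fe1f814,
    0x81322561342e81fe817515be1f812], [0, 0x2a1e8e5a14412b549618c1, 0,
    0x65348891835da428bb17144c58d68c1, 0x8298334c381358227653484b859ac2138415459968a1], [0,
    0x812e813ea14342d341ec12c8, 0, 0x81386531821d81a9813e1f4829312134243d4255142e1f84c,
    0x813145388243f841b9815e1f42134241d4255629384112a99ca1]]

noncomputable def n3050 : Ent := ⟨e3050, noF, [], [], []⟩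

def c3050 : PLift (Cov.check n3050.C.D v3050 = true) := ⟨by decide +kernel⟩

def b3050 : PLift (entF (fidx ts) 400 3050 n3050 = true) := ⟨by decide +kernel⟩

theorem g3050 : GoodF (fidx ts) 400 3050 := GoodF.ofV v3050 n3050 c3050.down b3050.down

/-- 4596464:2374 -/
noncomputable def e3051 : SCfg where
  D := {
    a := 7
    L := 11
    kp := 8
    inn := [(0, 1), (0, 2), (1, 0), (1, 2), (2, 0), (2, 1), (2, 3), (2, 4), (2, 5), (3, 2), (3, 4), (3,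
      5), (4, 2), (4, 3), (5, 2), (5, 3), (5, 6), (6, 5)]
    mix := [(0, 0), (0, 1), (1, 1), (1, 2), (1, 3), (2, 0), (2, 3), (2, 4), (2, 5), (3, 6), (3, 7), (3,
      8), (4, 4), (4, 6), (5, 5), (5, 8), (5, 9), (6, 8), (6, 9), (6, 10)]
    cl := [1, 3, 7, 1, 2, 0, 4, 6, 0, 5, 8]
    chq := [(0, 2), (2, 0), (2, 6), (6, 2)]
    rng := [(0, 1), (0, 5), (1, 0), (1, 2), (2, 1), (2, 3), (3, 2), (3, 4), (4, 3), (4, 6), (5, 0), (5,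
      9), (6, 4), (6, 7), (7, 6), (7, 8), (8, 7), (8, 10), (9, 5), (9, 10), (10, 8), (10, 9)]
    lev := [] }
  links := [[1, 2, 7, 8], [2, 0, 8, 9, 10], [7, 0, 1, 10, 11, 4, 3, 5, 12], [5, 2, 4, 13, 14, 15], [13,
    3, 2, 11], [12, 2, 3, 15, 6, 16], [16, 5, 15, 17]]
  P := {
    a := 7
    N := 18
    nb := [390, 1797, 7355, 57396, 10252, 102476, 229408, 4357, 643, 1282, 2566, 9236, 65700, 18456,
      40968, 147560, 135264, 98368]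
    tri := [(0, 1, 2), (0, 1, 8), (0, 2, 7), (0, 7, 8), (1, 2, 10), (1, 8, 9), (1, 9, 10), (2, 3, 4),
      (2, 3, 5), (2, 4, 11), (2, 5, 12), (2, 7, 12), (2, 10, 11), (3, 4, 13), (3, 5, 15), (3, 13,
      14), (3, 14, 15), (4, 11, 13), (5, 6, 15), (5, 6, 16), (5, 12, 16), (6, 15, 17), (6, 16,
      17)]
    fin := [0, 0, 0, 3, 3, 5, 5, 0, 8, 9, 0, 3, 5, 13, 14, 5, 16, 17]
    chd := [(3, 5), (3, 14)]
    steps := [(0, 1), (0, 2), (0, 7), (0, 10), (3, 4), (3, 11), (5, 6), (5, 15), (5, 12)] }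
  rep := [5, 0, 3, 8, 13, 16, 14, 9, 17]

noncomputable def v3051 : Cov.CovD where
  P := 3
  N := 6
  pl := [1, 2, 6, 9, 10]
  lev := [⟨[], [], [], [3], [(0, 1, [])]⟩,
    ⟨[], [(0, 1)], [], [3, 7], [(3, 1, [])]⟩,
    ⟨[(0, 1)], [(0, 0), (0, 1), (0, 2), (1, 0), (1, 1), (1, 2)], [(0, 1), (0, 2), (1, 1),
      (1, 2)], [], [(0, 1, []), (3, 1, []), (4, 2, [0, 6]), (5, 0, [2])]⟩,
    ⟨[(0, 2), (1, 2)], [(2, 0), (2, 1), (2, 2), (2, 6)], [(0, 6)], [4], [(7, 6, [2]), (8,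
      0, [2])]⟩,
    ⟨[(0, 2), (1, 2), (2, 3)], [(2, 0), (2, 1), (2, 2), (3, 0), (3, 2), (3, 6)], [], [4],
      [(4, 2, [0, 6])]⟩,
    ⟨[(0, 2), (1, 2), (2, 3), (2, 4), (3, 4)], [(2, 0), (2, 1), (2, 2), (3, 0), (3, 6)],
      [(0, 0)], [5], [(5, 0, [2]), (8, 0, [2])]⟩,
    ⟨[(2, 5), (3, 5)], [(3, 0), (5, 0)], [], [5, 8], [(8, 0, [2])]⟩]
  Ta := [((0, 1), 1, 3), ((0, 5), 1, 0), ((3, 2), 1, 7), ((3, 4), 1, 2), ((5, 0), 0, 1), ((5, 9),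
    0, 5), ((8, 7), 0, 6), ((8, 10), 0, 8)]
  Tb := [((0, 1, 5), 1, 3, 0), ((1, 0, 2), 3, 1, 7), ((2, 1, 3), 7, 3, 1), ((3, 2, 4), 1, 7, 2),
    ((4, 3, 6), 2, 1, 4), ((5, 0, 9), 0, 1, 5), ((6, 4, 7), 4, 2, 6), ((7, 6, 8), 6, 4, 0),
    ((8, 7, 10), 0, 6, 8), ((9, 5, 10), 5, 0, 8), ((10, 8, 9), 8, 0, 5)]
  Tc := [(2, 0, 6)]
  Td := [((0, 2), (5, 0), 1), ((0, 2), (5, 9), 5), ((0, 2), (8, 7), 6), ((0, 2), (8, 10), 8),
    ((2, 0), (4, 3), 1), ((2, 0), (4, 6), 4), ((2, 6), (4, 3), 1), ((2, 6), (4, 6), 4), ((6,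
    2), (7, 6), 4), ((6, 2), (7, 8), 0)]
  G := [[0, 0x116811a811c1e4111c42c6a81c1c, 0xc6ac6a614ca6ca6618c116111c11161e829, 0,
    0x22b43c4ca665851a2ca685834a12348e53a2ca685814116a183c835], [0, 0,
    0xc6ac6a6141161411a111a1acca6ca6618d2, 0x596c1652859616c528a1cc1a924d2,
    0x1a69363c42c4ca667871a2ca685816a2ca6858d2], [0, 0, 0xc6a414c6a214aca6ca6c184ca6ca6c181d,
    0, 0xca68c6ac6aaa6c8e186214ca68c8c8aa6c2e944a68438448ee9822ecae82d], [0, 0,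
    0xc6ac6aa148116111c1ca64b8ca6ca6a185a, 0xe24ee24e9248a6ca6cc2142e8e12e24e82c1d,
    0x6214ca68c8c8aa6c2e9ca68c6ac6aaa6c2e1ca684348ee1822ecae8d2]]

noncomputable def n3051 : Ent := ⟨e3051, noF, [], [], [(8, 17, [6903326391201334775872065844685381424292761054348340378595029942177793, 0]), (9, 17, [6903326391201334775872065844685381424292761054348340378595029942181889, 0])]⟩

def c3051 : PLift (Cov.check n3051.C.D v3051 = true) := ⟨by decide +kernel⟩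

def b3051 : PLift (entF (fidx ts) 400 3051 n3051 = true) := ⟨by decide +kernel⟩

theorem g3051 : GoodF (fidx ts) 400 3051 := GoodF.ofV v3051 n3051 c3051.down b3051.down

/-- 4866464:2375/2 -/
noncomputable def e3052 : SCfg where
  D := {
    a := 7
    L := 9
    kp := 6
    inn := [(0, 1), (1, 0), (1, 2), (1, 3), (1, 6), (2, 1), (2, 3), (2, 4), (2, 5), (3, 1), (3, 2), (3,
      4), (4, 2), (4, 3), (4, 5), (5, 2), (5, 4), (6, 1)]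
    mix := [(0, 0), (0, 1), (0, 2), (1, 0), (1, 2), (1, 3), (1, 4), (2, 3), (2, 5), (3, 2), (3, 6), (3,
      7), (4, 7), (5, 1), (5, 5), (5, 7), (5, 8), (6, 0), (6, 4), (6, 8)]
    cl := [1, 4, 0, 2, 0, 3, 6, 3, 5]
    chq := [(0, 1), (1, 0), (2, 6), (6, 2)]
    rng := [(0, 1), (0, 8), (1, 0), (1, 2), (1, 7), (1, 8), (2, 1), (2, 6), (3, 4), (3, 5), (4, 3), (4,
      8), (5, 3), (5, 8), (6, 2), (6, 7), (7, 1), (7, 6), (8, 0), (8, 1), (8, 4), (8, 5)]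
    lev := [] }
  links := [[1, 7, 8, 9], [7, 0, 9, 3, 2, 10, 11, 6], [10, 1, 3, 4, 5, 12], [4, 2, 1, 9, 13, 14], [5, 2,
    3, 14], [12, 2, 4, 14, 8, 15], [7, 1, 11, 15]]
  P := {
    a := 7
    N := 16
    nb := [898, 3789, 5178, 25110, 16428, 53524, 34946, 33091, 49825, 8459, 6150, 33858, 33828, 16904,
      8504, 6624]
    tri := [(0, 1, 7), (0, 1, 9), (0, 7, 8), (0, 8, 9), (1, 2, 3), (1, 2, 10), (1, 3, 9), (1, 6, 7),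
      (1, 6, 11), (1, 10, 11), (2, 3, 4), (2, 4, 5), (2, 5, 12), (2, 10, 12), (3, 4, 14), (3, 9,
      13), (3, 13, 14), (4, 5, 14), (5, 8, 14), (5, 8, 15), (5, 12, 15), (6, 7, 15), (6, 11, 15)]
    fin := [0, 1, 2, 2, 2, 5, 0, 0, 8, 1, 10, 1, 5, 2, 5, 15]
    chd := [(0, 1), (10, 2)]
    steps := [(0, 7), (0, 6), (1, 9), (1, 11), (2, 3), (2, 4), (2, 13), (5, 14), (5, 12)] }
  rep := [1, 0, 10, 5, 8, 15, 2]

noncomputable def v3052 : Cov.CovD where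
  P := 3
  N := 4
  pl := [1, 8]
  lev := [⟨[], [], [(0, 1)], [4], [(0, 1, [0]), (2, 0, [1])]⟩,
    ⟨[], [(0, 0), (0, 1), (0, 2)], [(0, 0), (0, 1), (0, 2), (1, 2)], [], [(0, 1, [0]), (2,
      0, [1]), (3, 2, [6]), (4, 0, [1])]⟩,
    ⟨[(0, 1)], [(1, 0), (1, 1), (1, 2), (1, 3)], [(2, 3)], [], [(3, 2, [6]), (5, 3, [])]⟩,
    ⟨[(0, 1), (1, 2)], [(0, 0), (1, 0), (1, 1), (1, 2), (1, 3), (1, 6), (2, 0), (2, 2), (2,
      3), (2, 6)], [(0, 3), (0, 6), (3, 6)], [], [(2, 0, [1]), (6, 6, [2]), (7, 3, [])]⟩,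
    ⟨[(1, 2), (1, 3), (2, 3)], [(2, 2), (2, 3), (3, 0), (3, 3), (3, 6)], [], [], [(7, 3,
      [])]⟩,
    ⟨[(1, 2), (2, 3), (2, 4), (3, 4)], [(2, 2), (2, 3), (3, 3), (4, 3)], [(3, 3)], [4, 5],
      [(5, 3, []), (7, 3, [])]⟩,
    ⟨[(0, 1), (1, 2), (1, 3)], [(0, 1), (1, 0), (1, 1), (1, 2)], [(0, 1)], [5], [(0, 1,
      [0]), (4, 0, [1])]⟩]
  Ta := [((2, 1), 0, 4), ((2, 6), 0, 6), ((4, 3), 0, 2), ((4, 8), 0, 5), ((5, 3), 3, 2), ((5, 8),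
    3, 5), ((7, 1), 3, 4), ((7, 6), 3, 6)]
  Tb := [((0, 1, 8), 1, 4, 5), ((1, 0, 2), 4, 1, 0), ((1, 0, 7), 4, 1, 3), ((1, 0, 8), 4, 1, 5),
    ((1, 2, 7), 4, 0, 3), ((1, 2, 8), 4, 0, 5), ((1, 7, 8), 4, 3, 5), ((2, 1, 6), 0, 4, 6),
    ((3, 4, 5), 2, 0, 3), ((4, 3, 8), 0, 2, 5), ((5, 3, 8), 3, 2, 5), ((6, 2, 7), 6, 0, 3),
    ((7, 1, 6), 3, 4, 6), ((8, 0, 1), 5, 1, 4), ((8, 0, 4), 5, 1, 0), ((8, 0, 5), 5, 1, 3),
    ((8, 1, 4), 5, 4, 0), ((8, 1, 5), 5, 4, 3), ((8, 4, 5), 5, 0, 3)]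
  Tc := []
  Td := [((0, 1), (2, 1), 4), ((0, 1), (2, 6), 6), ((0, 1), (4, 3), 2), ((0, 1), (4, 8), 5), ((1,
    0), (0, 1), 4), ((1, 0), (0, 8), 5), ((2, 6), (3, 4), 0), ((2, 6), (3, 5), 3), ((6, 2),
    (6, 2), 0), ((6, 2), (6, 7), 3)]
  G := [[0, 0x24c82c1825842cb82486, 0, 0x14a4211829441612118258c, 0x1411f84119823811172488c],
    [0, 0x84ca15284426819248a, 0, 0x14a81c214186115284c, 0x11a119428115816a418c], [0,
    0x84c82a1425882ab12446, 0xc112c184681, 0x84ce1244c742941, 0x84ce8444cd84381], [0,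
    0x41248dc21842a81c2186, 0x4181c1244181c148c, 0x84ce44cb52841, 0x84cd4c87a4181]]

noncomputable def n3052 : Ent := ⟨e3052, noF, [], [], []⟩

def c3052 : PLift (Cov.check n3052.C.D v3052 = true) := ⟨by decide +kernel⟩

def b3052 : PLift (entF (fidx ts) 400 3052 n3052 = true) := ⟨by decide +kernel⟩

theorem g3052 : GoodF (fidx ts) 400 3052 := GoodF.ofV v3052 n3052 c3052.down b3052.down

/-- 4866464:2375/1 -/
noncomputable def e3053 : SCfg where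
  D := {
    a := 7
    L := 10
    kp := 7
    inn := [(0, 1), (1, 0), (1, 2), (1, 3), (1, 6), (2, 1), (2, 3), (2, 4), (2, 5), (3, 1), (3, 2), (3,
      4), (4, 2), (4, 3), (4, 5), (5, 2), (5, 4), (6, 1)]
    mix := [(0, 0), (0, 1), (0, 2), (1, 0), (1, 2), (1, 3), (1, 4), (2, 3), (2, 5), (3, 2), (3, 6), (3,
      7), (4, 7), (5, 1), (5, 5), (5, 7), (5, 8), (6, 0), (6, 4), (6, 9)]
    cl := [1, 4, 0, 2, 0, 3, 5, 3, 6, 7]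
    chq := [(0, 1), (1, 0), (2, 5), (5, 2)]
    rng := [(0, 1), (0, 9), (1, 0), (1, 2), (1, 7), (1, 8), (2, 1), (2, 6), (3, 4), (3, 5), (4, 3), (4,
      9), (5, 3), (5, 8), (6, 2), (6, 7), (7, 1), (7, 6), (8, 1), (8, 5), (9, 0), (9, 4)]
    lev := [] }
  links := [[1, 7, 8, 9], [7, 0, 9, 3, 2, 10, 11, 6], [10, 1, 3, 4, 5, 12], [4, 2, 1, 9, 13, 14], [5, 2,
    3, 14], [12, 2, 4, 14, 8, 15], [7, 1, 11, 16]]
  P := {
    a := 7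
    N := 17
    nb := [898, 3789, 5178, 25110, 16428, 53524, 67714, 65859, 49825, 8459, 6150, 66626, 33828, 16904,
      8504, 4384, 2240]
    tri := [(0, 1, 7), (0, 1, 9), (0, 7, 8), (0, 8, 9), (1, 2, 3), (1, 2, 10), (1, 3, 9), (1, 6, 7),
      (1, 6, 11), (1, 10, 11), (2, 3, 4), (2, 4, 5), (2, 5, 12), (2, 10, 12), (3, 4, 14), (3, 9,
      13), (3, 13, 14), (4, 5, 14), (5, 8, 14), (5, 8, 15), (5, 12, 15), (6, 7, 16), (6, 11, 16)]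
    fin := [0, 1, 2, 2, 2, 5, 0, 0, 8, 1, 10, 1, 5, 2, 5, 15, 16]
    chd := [(0, 1), (10, 2)]
    steps := [(0, 7), (0, 6), (1, 9), (1, 11), (2, 3), (2, 4), (2, 13), (5, 14), (5, 12)] }
  rep := [1, 0, 10, 5, 8, 2, 15, 16]

noncomputable def v3053 : Cov.CovD where
  P := 3
  N := 5
  pl := [1, 8, 9]
  lev := [⟨[], [], [(0, 1)], [4], [(0, 1, [0]), (2, 0, [1])]⟩,
    ⟨[], [(0, 0), (0, 1), (0, 2)], [(0, 0), (0, 1), (0, 2), (1, 2)], [], [(0, 1, [0]), (2,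
      0, [1]), (3, 2, [5]), (4, 0, [1])]⟩,
    ⟨[(0, 1)], [(1, 0), (1, 1), (1, 2), (1, 3)], [(2, 3)], [], [(3, 2, [5]), (5, 3, [])]⟩,
    ⟨[(0, 1), (1, 2)], [(0, 0), (1, 0), (1, 1), (1, 2), (1, 3), (1, 5), (2, 0), (2, 2), (2,
      3), (2, 5)], [(0, 3), (0, 5), (3, 5)], [], [(2, 0, [1]), (6, 5, [2]), (7, 3, [])]⟩,
    ⟨[(1, 2), (1, 3), (2, 3)], [(2, 2), (2, 3), (3, 0), (3, 3), (3, 5)], [], [], [(7, 3,
      [])]⟩,
    ⟨[(1, 2), (2, 3), (2, 4), (3, 4)], [(2, 2), (2, 3), (3, 3), (4, 3)], [(3, 3)], [4, 6],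
      [(5, 3, []), (7, 3, [])]⟩,
    ⟨[(0, 1), (1, 2), (1, 3)], [(0, 1), (1, 0), (1, 1), (1, 2)], [(0, 1)], [7], [(0, 1,
      [0]), (4, 0, [1])]⟩]
  Ta := [((2, 1), 0, 4), ((2, 6), 0, 5), ((4, 3), 0, 2), ((4, 9), 0, 7), ((5, 3), 3, 2), ((5, 8),
    3, 6), ((7, 1), 3, 4), ((7, 6), 3, 5)]
  Tb := [((0, 1, 9), 1, 4, 7), ((1, 0, 2), 4, 1, 0), ((1, 0, 7), 4, 1, 3), ((1, 0, 8), 4, 1, 6),
    ((1, 2, 7), 4, 0, 3), ((1, 2, 8), 4, 0, 6), ((1, 7, 8), 4, 3, 6), ((2, 1, 6), 0, 4, 5),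
    ((3, 4, 5), 2, 0, 3), ((4, 3, 9), 0, 2, 7), ((5, 3, 8), 3, 2, 6), ((6, 2, 7), 5, 0, 3),
    ((7, 1, 6), 3, 4, 5), ((8, 1, 5), 6, 4, 3), ((9, 0, 4), 7, 1, 0)]
  Tc := []
  Td := [((0, 1), (2, 1), 4), ((0, 1), (2, 6), 5), ((0, 1), (4, 3), 2), ((0, 1), (4, 9), 7), ((1,
    0), (0, 1), 4), ((1, 0), (0, 9), 7), ((2, 5), (3, 4), 0), ((2, 5), (3, 5), 3), ((5, 2),
    (6, 2), 0), ((5, 2), (6, 7), 3)]
  G := [[0, 0xa694284cc58248a2126a34254e, 0, 0x11a121117429411171284c,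
    0x111e84119243811172488c], [0, 0x6acac95284a66aa39248a, 0, 0x11a1135284116111b5284c,
    0x119113a4181161159428c], [0, 0xc84284a482ca34258aa38244e, 0xccccf12ccccf48a41,
    0xccce12cccb82581, 0xccce14cccd24381], [0, 0xc69ca3c214c63cc5c218c,
    0xcc9cc3c1244c3c45c1282218cc, 0xccceccc792481, 0xcccdccc7a4181]]

noncomputable def n3053 : Ent := ⟨e3053, noF, [], [], [(15, 16, [1580044410770988437309982408355971841652082177953823432505701613569, 0])]⟩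

def c3053 : PLift (Cov.check n3053.C.D v3053 = true) := ⟨by decide +kernel⟩

def b3053 : PLift (entF (fidx ts) 400 3053 n3053 = true) := ⟨by decide +kernel⟩

theorem g3053 : GoodF (fidx ts) 400 3053 := GoodF.ofV v3053 n3053 c3053.down b3053.down

/-- 4866464:2375/4 -/
noncomputable def e3054 : SCfg where
  D := {
    a := 7
    L := 9
    kp := 6
    inn := [(0, 1), (1, 0), (1, 2), (1, 3), (1, 6), (2, 1), (2, 3), (2, 4), (2, 5), (3, 1), (3, 2), (3,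
      4), (4, 2), (4, 3), (4, 5), (5, 2), (5, 4), (6, 1)]
    mix := [(0, 0), (0, 1), (0, 2), (1, 0), (1, 2), (1, 3), (1, 4), (2, 3), (2, 5), (3, 2), (3, 6), (3,
      7), (4, 7), (5, 1), (5, 5), (5, 7), (5, 8), (6, 0), (6, 4), (6, 8)]
    cl := [1, 4, 0, 2, 0, 3, 6, 3, 5]
    chq := [(0, 1), (1, 0), (2, 6), (6, 2)]
    rng := [(0, 1), (0, 8), (1, 0), (1, 2), (1, 5), (1, 8), (2, 1), (2, 6), (3, 4), (3, 5), (4, 3), (4,
      8), (5, 1), (5, 3), (6, 2), (6, 7), (7, 6), (7, 8), (8, 0), (8, 1), (8, 4), (8, 7)]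
    lev := [] }
  links := [[1, 7, 8, 9], [7, 0, 9, 3, 2, 10, 11, 6], [10, 1, 3, 4, 5, 12], [4, 2, 1, 9, 13, 14], [5, 2,
    3, 14], [12, 2, 4, 14, 15, 8], [7, 1, 11, 15]]
  P := {
    a := 7
    N := 16
    nb := [898, 3789, 5178, 25110, 16428, 53524, 34946, 33091, 37537, 8459, 6150, 33858, 1316, 16904,
      41016, 18912]
    tri := [(0, 1, 7), (0, 1, 9), (0, 7, 8), (0, 8, 9), (1, 2, 3), (1, 2, 10), (1, 3, 9), (1, 6, 7),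
      (1, 6, 11), (1, 10, 11), (2, 3, 4), (2, 4, 5), (2, 5, 12), (2, 10, 12), (3, 4, 14), (3, 9,
      13), (3, 13, 14), (4, 5, 14), (5, 8, 12), (5, 8, 15), (5, 14, 15), (6, 7, 15), (6, 11, 15)]
    fin := [0, 1, 2, 2, 2, 5, 0, 0, 8, 1, 10, 1, 5, 2, 5, 15]
    chd := [(0, 1), (10, 2)]
    steps := [(0, 7), (0, 6), (1, 9), (1, 11), (2, 3), (2, 4), (2, 13), (5, 14), (5, 12)] }
  rep := [1, 0, 10, 5, 8, 15, 2]

noncomputable def v3054 : Cov.CovD where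
  P := 3
  N := 4
  pl := [1, 8]
  lev := [⟨[], [], [(0, 1)], [4], [(0, 1, [0]), (2, 0, [1])]⟩,
    ⟨[], [(0, 0), (0, 1), (0, 2)], [(0, 0), (0, 1), (0, 2), (1, 2)], [], [(0, 1, [0]), (2,
      0, [1]), (3, 2, [6]), (4, 0, [1])]⟩,
    ⟨[(0, 1)], [(1, 0), (1, 1), (1, 2), (1, 3)], [(2, 3)], [], [(3, 2, [6]), (5, 3, [])]⟩,
    ⟨[(0, 1), (1, 2)], [(0, 0), (1, 0), (1, 1), (1, 2), (1, 3), (1, 6), (2, 0), (2, 2), (2,
      3), (2, 6)], [(0, 3), (0, 6), (3, 6)], [], [(2, 0, [1]), (6, 6, [2]), (7, 3, [])]⟩,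
    ⟨[(1, 2), (1, 3), (2, 3)], [(2, 2), (2, 3), (3, 0), (3, 3), (3, 6)], [], [], [(7, 3,
      [])]⟩,
    ⟨[(1, 2), (2, 3), (2, 4), (3, 4)], [(2, 2), (2, 3), (3, 3), (4, 3)], [(3, 3)], [4, 5],
      [(5, 3, []), (7, 3, [])]⟩,
    ⟨[(0, 1), (1, 2), (1, 3)], [(0, 1), (1, 0), (1, 1), (1, 2)], [(0, 1)], [5], [(0, 1,
      [0]), (4, 0, [1])]⟩]
  Ta := [((2, 1), 0, 4), ((2, 6), 0, 6), ((4, 3), 0, 2), ((4, 8), 0, 5), ((5, 1), 3, 4), ((5, 3),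
    3, 2), ((7, 6), 3, 6), ((7, 8), 3, 5)]
  Tb := [((0, 1, 8), 1, 4, 5), ((1, 0, 2), 4, 1, 0), ((1, 0, 5), 4, 1, 3), ((1, 0, 8), 4, 1, 5),
    ((1, 2, 5), 4, 0, 3), ((1, 2, 8), 4, 0, 5), ((1, 5, 8), 4, 3, 5), ((2, 1, 6), 0, 4, 6),
    ((3, 4, 5), 2, 0, 3), ((4, 3, 8), 0, 2, 5), ((5, 1, 3), 3, 4, 2), ((6, 2, 7), 6, 0, 3),
    ((7, 6, 8), 3, 6, 5), ((8, 0, 1), 5, 1, 4), ((8, 0, 4), 5, 1, 0), ((8, 0, 7), 5, 1, 3),
    ((8, 1, 4), 5, 4, 0), ((8, 1, 7), 5, 4, 3), ((8, 4, 7), 5, 0, 3)]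
  Tc := []
  Td := [((0, 1), (2, 1), 4), ((0, 1), (2, 6), 6), ((0, 1), (4, 3), 2), ((0, 1), (4, 8), 5), ((1,
    0), (0, 1), 4), ((1, 0), (0, 8), 5), ((2, 6), (3, 4), 0), ((2, 6), (3, 5), 3), ((6, 2),
    (6, 2), 0), ((6, 2), (6, 7), 3)]
  G := [[0, 0x844b428442878248a18218e, 0, 0x81a421182c418612118258c,
    0x11a8411843841614141d8438c], [0, 0x84ac1528442478218c, 0, 0x841e1152841111f8214c,
    0x14a119428185416a418c], [0, 0x824b128448278248a18218e, 0xc112c118a41, 0x84ce1244cb42581,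
    0x84ce1484cd24381], [0, 0x84c619248428b42146, 0xc14124c18148c, 0x84ce88c792481,
    0x84cd4c87a4181]]

noncomputable def n3054 : Ent := ⟨e3054, noF, [], [], []⟩

def c3054 : PLift (Cov.check n3054.C.D v3054 = true) := ⟨by decide +kernel⟩

def b3054 : PLift (entF (fidx ts) 400 3054 n3054 = true) := ⟨by decide +kernel⟩

theorem g3054 : GoodF (fidx ts) 400 3054 := GoodF.ofV v3054 n3054 c3054.down b3054.down

/-- 4866464:2375/3 -/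
noncomputable def e3055 : SCfg where
  D := {
    a := 7
    L := 10
    kp := 7
    inn := [(0, 1), (1, 0), (1, 2), (1, 3), (1, 6), (2, 1), (2, 3), (2, 4), (2, 5), (3, 1), (3, 2), (3,
      4), (4, 2), (4, 3), (4, 5), (5, 2), (5, 4), (6, 1)]
    mix := [(0, 0), (0, 1), (0, 2), (1, 0), (1, 2), (1, 3), (1, 4), (2, 3), (2, 5), (3, 2), (3, 6), (3,
      7), (4, 7), (5, 1), (5, 5), (5, 7), (5, 8), (6, 0), (6, 4), (6, 9)]
    cl := [1, 4, 0, 2, 0, 3, 5, 3, 6, 7]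
    chq := [(0, 1), (1, 0), (2, 5), (5, 2)]
    rng := [(0, 1), (0, 9), (1, 0), (1, 2), (1, 5), (1, 8), (2, 1), (2, 6), (3, 4), (3, 5), (4, 3), (4,
      9), (5, 1), (5, 3), (6, 2), (6, 7), (7, 6), (7, 8), (8, 1), (8, 7), (9, 0), (9, 4)]
    lev := [] }
  links := [[1, 7, 8, 9], [7, 0, 9, 3, 2, 10, 11, 6], [10, 1, 3, 4, 5, 12], [4, 2, 1, 9, 13, 14], [5, 2,
    3, 14], [12, 2, 4, 14, 15, 8], [7, 1, 11, 16]]
  P := {
    a := 7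
    N := 17
    nb := [898, 3789, 5178, 25110, 16428, 53524, 67714, 65859, 37537, 8459, 6150, 66626, 1316, 16904,
      41016, 16672, 2240]
    tri := [(0, 1, 7), (0, 1, 9), (0, 7, 8), (0, 8, 9), (1, 2, 3), (1, 2, 10), (1, 3, 9), (1, 6, 7),
      (1, 6, 11), (1, 10, 11), (2, 3, 4), (2, 4, 5), (2, 5, 12), (2, 10, 12), (3, 4, 14), (3, 9,
      13), (3, 13, 14), (4, 5, 14), (5, 8, 12), (5, 8, 15), (5, 14, 15), (6, 7, 16), (6, 11, 16)]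
    fin := [0, 1, 2, 2, 2, 5, 0, 0, 8, 1, 10, 1, 5, 2, 5, 15, 16]
    chd := [(0, 1), (10, 2)]
    steps := [(0, 7), (0, 6), (1, 9), (1, 11), (2, 3), (2, 4), (2, 13), (5, 14), (5, 12)] }
  rep := [1, 0, 10, 5, 8, 2, 15, 16]

noncomputable def v3055 : Cov.CovD where
  P := 3
  N := 5
  pl := [1, 8, 9]
  lev := [⟨[], [], [(0, 1)], [4], [(0, 1, [0]), (2, 0, [1])]⟩,
    ⟨[], [(0, 0), (0, 1), (0, 2)], [(0, 0), (0, 1), (0, 2), (1, 2)], [], [(0, 1, [0]), (2,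
      0, [1]), (3, 2, [5]), (4, 0, [1])]⟩,
    ⟨[(0, 1)], [(1, 0), (1, 1), (1, 2), (1, 3)], [(2, 3)], [], [(3, 2, [5]), (5, 3, [])]⟩,
    ⟨[(0, 1), (1, 2)], [(0, 0), (1, 0), (1, 1), (1, 2), (1, 3), (1, 5), (2, 0), (2, 2), (2,
      3), (2, 5)], [(0, 3), (0, 5), (3, 5)], [], [(2, 0, [1]), (6, 5, [2]), (7, 3, [])]⟩,
    ⟨[(1, 2), (1, 3), (2, 3)], [(2, 2), (2, 3), (3, 0), (3, 3), (3, 5)], [], [], [(7, 3,
      [])]⟩,
    ⟨[(1, 2), (2, 3), (2, 4), (3, 4)], [(2, 2), (2, 3), (3, 3), (4, 3)], [(3, 3)], [4, 6],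
      [(5, 3, []), (7, 3, [])]⟩,
    ⟨[(0, 1), (1, 2), (1, 3)], [(0, 1), (1, 0), (1, 1), (1, 2)], [(0, 1)], [7], [(0, 1,
      [0]), (4, 0, [1])]⟩]
  Ta := [((2, 1), 0, 4), ((2, 6), 0, 5), ((4, 3), 0, 2), ((4, 9), 0, 7), ((5, 1), 3, 4), ((5, 3),
    3, 2), ((7, 6), 3, 5), ((7, 8), 3, 6)]
  Tb := [((0, 1, 9), 1, 4, 7), ((1, 0, 2), 4, 1, 0), ((1, 0, 5), 4, 1, 3), ((1, 0, 8), 4, 1, 6),
    ((1, 2, 5), 4, 0, 3), ((1, 2, 8), 4, 0, 6), ((1, 5, 8), 4, 3, 6), ((2, 1, 6), 0, 4, 5),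
    ((3, 4, 5), 2, 0, 3), ((4, 3, 9), 0, 2, 7), ((5, 1, 3), 3, 4, 2), ((6, 2, 7), 5, 0, 3),
    ((7, 6, 8), 3, 5, 6), ((8, 1, 7), 6, 4, 3), ((9, 0, 4), 7, 1, 0)]
  Tc := []
  Td := [((0, 1), (2, 1), 4), ((0, 1), (2, 6), 5), ((0, 1), (4, 3), 2), ((0, 1), (4, 9), 7), ((1,
    0), (0, 1), 4), ((1, 0), (0, 9), 7), ((2, 5), (3, 4), 0), ((2, 5), (3, 5), 3), ((5, 2),
    (6, 2), 0), ((5, 2), (6, 7), 3)]
  G := [[0, 0xa6cb1284aa671248ac38218e, 0, 0x11a121134294116121158294c,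
    0x11a841198438116241152498c], [0, 0xcacbcc5c218cc6b42846, 0, 0x111b4214111b14c218c,
    0x11a1117942811178428c], [0, 0x66cb4284c6a78248a634218e, 0xccccf12ccccf84681,
    0xccce42ccc742941, 0xccce14cccd84381], [0, 0xcaaec6952846c678248a, 0xccccf4184ccccf8148c,
    0xcccbccc7c2181, 0xccceccc794281]]

noncomputable def n3055 : Ent := ⟨e3055, noF, [], [], [(15, 16, [1580044410770988437309982408355971841652082177953823432505701621761, 0])]⟩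

def c3055 : PLift (Cov.check n3055.C.D v3055 = true) := ⟨by decide +kernel⟩

def b3055 : PLift (entF (fidx ts) 400 3055 n3055 = true) := ⟨by decide +kernel⟩

theorem g3055 : GoodF (fidx ts) 400 3055 := GoodF.ofV v3055 n3055 c3055.down b3055.down

/-- 4866464:2375/5 -/
noncomputable def e3056 : SCfg where
  D := {
    a := 7
    L := 10
    kp := 7
    inn := [(0, 1), (1, 0), (1, 2), (1, 3), (1, 6), (2, 1), (2, 3), (2, 4), (2, 5), (3, 1), (3, 2), (3,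
      4), (4, 2), (4, 3), (4, 5), (5, 2), (5, 4), (6, 1)]
    mix := [(0, 0), (0, 1), (0, 2), (1, 0), (1, 2), (1, 3), (1, 4), (2, 3), (2, 5), (3, 2), (3, 6), (3,
      7), (4, 7), (5, 5), (5, 7), (5, 8), (5, 9), (6, 0), (6, 4), (6, 8)]
    cl := [1, 6, 0, 2, 0, 3, 5, 3, 4, 7]
    chq := [(0, 1), (1, 0), (2, 5), (5, 2)]
    rng := [(0, 1), (0, 8), (1, 0), (1, 2), (2, 1), (2, 6), (3, 4), (3, 5), (4, 3), (4, 8), (5, 3), (5,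
      9), (6, 2), (6, 7), (7, 6), (7, 8), (8, 0), (8, 4), (8, 7), (8, 9), (9, 5), (9, 8)]
    lev := [] }
  links := [[1, 7, 8, 9], [7, 0, 9, 3, 2, 10, 11, 6], [10, 1, 3, 4, 5, 12], [4, 2, 1, 9, 13, 14], [5, 2,
    3, 14], [12, 2, 4, 14, 15, 16], [7, 1, 11, 15]]
  P := {
    a := 7
    N := 17
    nb := [898, 3789, 5178, 25110, 16428, 118804, 34946, 33091, 641, 8459, 6150, 33858, 66596, 16904,
      41016, 84192, 36896]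
    tri := [(0, 1, 7), (0, 1, 9), (0, 7, 8), (0, 8, 9), (1, 2, 3), (1, 2, 10), (1, 3, 9), (1, 6, 7),
      (1, 6, 11), (1, 10, 11), (2, 3, 4), (2, 4, 5), (2, 5, 12), (2, 10, 12), (3, 4, 14), (3, 9,
      13), (3, 13, 14), (4, 5, 14), (5, 12, 16), (5, 14, 15), (5, 15, 16), (6, 7, 15), (6, 11,
      15)]
    fin := [0, 1, 2, 2, 2, 5, 0, 0, 8, 1, 10, 1, 5, 2, 5, 15, 16]
    chd := [(0, 1), (10, 2)]
    steps := [(0, 7), (0, 6), (1, 9), (1, 11), (2, 3), (2, 4), (2, 13), (5, 14), (5, 12)] }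
  rep := [1, 0, 10, 5, 15, 2, 8, 16]

noncomputable def v3056 : Cov.CovD where
  P := 3
  N := 5
  pl := [1, 8, 9]
  lev := [⟨[], [], [(0, 1)], [6], [(0, 1, [0]), (2, 0, [1])]⟩,
    ⟨[], [(0, 0), (0, 1), (0, 2)], [(0, 0), (0, 1), (0, 2), (1, 2)], [], [(0, 1, [0]), (2,
      0, [1]), (3, 2, [5]), (4, 0, [1])]⟩,
    ⟨[(0, 1)], [(1, 0), (1, 1), (1, 2), (1, 3)], [(2, 3)], [], [(3, 2, [5]), (5, 3, [])]⟩,
    ⟨[(0, 1), (1, 2)], [(0, 0), (1, 0), (1, 1), (1, 2), (1, 3), (1, 5), (2, 0), (2, 2), (2,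
      3), (2, 5)], [(0, 3), (0, 5), (3, 5)], [], [(2, 0, [1]), (6, 5, [2]), (7, 3, [])]⟩,
    ⟨[(1, 2), (1, 3), (2, 3)], [(2, 2), (2, 3), (3, 0), (3, 3), (3, 5)], [], [], [(7, 3,
      [])]⟩,
    ⟨[(1, 2), (2, 3), (2, 4), (3, 4)], [(2, 2), (2, 3), (3, 3), (4, 3)], [(3, 3)], [4, 7],
      [(5, 3, []), (7, 3, [])]⟩,
    ⟨[(0, 1), (1, 2), (1, 3)], [(0, 1), (1, 0), (1, 1), (1, 2)], [(0, 1)], [4], [(0, 1,
      [0]), (4, 0, [1])]⟩]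
  Ta := [((2, 1), 0, 6), ((2, 6), 0, 5), ((4, 3), 0, 2), ((4, 8), 0, 4), ((5, 3), 3, 2), ((5, 9),
    3, 7), ((7, 6), 3, 5), ((7, 8), 3, 4)]
  Tb := [((0, 1, 8), 1, 6, 4), ((1, 0, 2), 6, 1, 0), ((2, 1, 6), 0, 6, 5), ((3, 4, 5), 2, 0, 3),
    ((4, 3, 8), 0, 2, 4), ((5, 3, 9), 3, 2, 7), ((6, 2, 7), 5, 0, 3), ((7, 6, 8), 3, 5, 4),
    ((8, 0, 4), 4, 1, 0), ((8, 0, 7), 4, 1, 3), ((8, 0, 9), 4, 1, 7), ((8, 4, 7), 4, 0, 3),
    ((8, 4, 9), 4, 0, 7), ((8, 7, 9), 4, 3, 7), ((9, 5, 8), 7, 3, 4)]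
  Tc := []
  Td := [((0, 1), (2, 1), 6), ((0, 1), (2, 6), 5), ((0, 1), (4, 3), 2), ((0, 1), (4, 8), 4), ((1,
    0), (0, 1), 6), ((1, 0), (0, 8), 4), ((2, 5), (3, 4), 0), ((2, 5), (3, 5), 3), ((5, 2),
    (6, 2), 0), ((5, 2), (6, 7), 3)]
  G := [[0, 0x42ab4214842e8248221284c824c942d8e, 0, 0x111e12111b8258111e4281174294c,
    0x141e84111d84381284ca4811d2438c], [0, 0x842e482ab2384824b4287c214a, 0,
    0x119111712d218811e81179248c, 0x141e11179428141d1117a418c], [0,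
    0x8424f42848426f82188428f1248e, 0x443148831848cf8684c84e81, 0x84ce8284cb42581,
    0x84ce1484cd24381], [0, 0x824b4287c214842e48a79248a, 0x84cb486c1e124849c2a14854168c,
    0x8c4b48c7c2181, 0x84ce48c794281]]

noncomputable def n3056 : Ent := ⟨e3056, noF, [], [], [(8, 16, [1580044410770988437309982408355971841652082177953823432505701621761, 0])]⟩

def c3056 : PLift (Cov.check n3056.C.D v3056 = true) := ⟨by decide +kernel⟩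

def b3056 : PLift (entF (fidx ts) 400 3056 n3056 = true) := ⟨by decide +kernel⟩

theorem g3056 : GoodF (fidx ts) 400 3056 := GoodF.ofV v3056 n3056 c3056.down b3056.down

/-- 4866464:2375/6 -/
noncomputable def e3057 : SCfg where
  D := {
    a := 7
    L := 10
    kp := 7
    inn := [(0, 1), (1, 0), (1, 2), (1, 3), (1, 6), (2, 1), (2, 3), (2, 4), (2, 5), (3, 1), (3, 2), (3,
      4), (4, 2), (4, 3), (4, 5), (5, 2), (5, 4), (6, 1)]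
    mix := [(0, 0), (0, 1), (0, 2), (1, 0), (1, 2), (1, 3), (1, 4), (2, 3), (2, 5), (3, 2), (3, 6), (3,
      7), (4, 7), (5, 5), (5, 7), (5, 8), (5, 9), (6, 0), (6, 4), (6, 9)]
    cl := [1, 6, 0, 2, 0, 3, 5, 3, 7, 4]
    chq := [(0, 1), (1, 0), (2, 5), (5, 2)]
    rng := [(0, 1), (0, 9), (1, 0), (1, 2), (2, 1), (2, 6), (3, 4), (3, 5), (4, 3), (4, 9), (5, 3), (5,
      9), (6, 2), (6, 7), (7, 6), (7, 8), (8, 7), (8, 9), (9, 0), (9, 4), (9, 5), (9, 8)]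
    lev := [] }
  links := [[1, 7, 8, 9], [7, 0, 9, 3, 2, 10, 11, 6], [10, 1, 3, 4, 5, 12], [4, 2, 1, 9, 13, 14], [5, 2,
    3, 14], [12, 2, 4, 14, 15, 16], [7, 1, 11, 16]]
  P := {
    a := 7
    N := 17
    nb := [898, 3789, 5178, 25110, 16428, 118804, 67714, 65859, 641, 8459, 6150, 66626, 66596, 16904,
      41016, 81952, 39136]
    tri := [(0, 1, 7), (0, 1, 9), (0, 7, 8), (0, 8, 9), (1, 2, 3), (1, 2, 10), (1, 3, 9), (1, 6, 7),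
      (1, 6, 11), (1, 10, 11), (2, 3, 4), (2, 4, 5), (2, 5, 12), (2, 10, 12), (3, 4, 14), (3, 9,
      13), (3, 13, 14), (4, 5, 14), (5, 12, 16), (5, 14, 15), (5, 15, 16), (6, 7, 16), (6, 11,
      16)]
    fin := [0, 1, 2, 2, 2, 5, 0, 0, 8, 1, 10, 1, 5, 2, 5, 15, 16]
    chd := [(0, 1), (10, 2)]
    steps := [(0, 7), (0, 6), (1, 9), (1, 11), (2, 3), (2, 4), (2, 13), (5, 14), (5, 12)] }
  rep := [1, 0, 10, 5, 16, 2, 8, 15]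

noncomputable def v3057 : Cov.CovD where
  P := 3
  N := 5
  pl := [1, 8, 9]
  lev := [⟨[], [], [(0, 1)], [6], [(0, 1, [0]), (2, 0, [1])]⟩,
    ⟨[], [(0, 0), (0, 1), (0, 2)], [(0, 0), (0, 1), (0, 2), (1, 2)], [], [(0, 1, [0]), (2,
      0, [1]), (3, 2, [5]), (4, 0, [1])]⟩,
    ⟨[(0, 1)], [(1, 0), (1, 1), (1, 2), (1, 3)], [(2, 3)], [], [(3, 2, [5]), (5, 3, [])]⟩,
    ⟨[(0, 1), (1, 2)], [(0, 0), (1, 0), (1, 1), (1, 2), (1, 3), (1, 5), (2, 0), (2, 2), (2,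
      3), (2, 5)], [(0, 3), (0, 5), (3, 5)], [], [(2, 0, [1]), (6, 5, [2]), (7, 3, [])]⟩,
    ⟨[(1, 2), (1, 3), (2, 3)], [(2, 2), (2, 3), (3, 0), (3, 3), (3, 5)], [], [], [(7, 3,
      [])]⟩,
    ⟨[(1, 2), (2, 3), (2, 4), (3, 4)], [(2, 2), (2, 3), (3, 3), (4, 3)], [(3, 3)], [4, 7],
      [(5, 3, []), (7, 3, [])]⟩,
    ⟨[(0, 1), (1, 2), (1, 3)], [(0, 1), (1, 0), (1, 1), (1, 2)], [(0, 1)], [4], [(0, 1,
      [0]), (4, 0, [1])]⟩]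
  Ta := [((2, 1), 0, 6), ((2, 6), 0, 5), ((4, 3), 0, 2), ((4, 9), 0, 4), ((5, 3), 3, 2), ((5, 9),
    3, 4), ((7, 6), 3, 5), ((7, 8), 3, 7)]
  Tb := [((0, 1, 9), 1, 6, 4), ((1, 0, 2), 6, 1, 0), ((2, 1, 6), 0, 6, 5), ((3, 4, 5), 2, 0, 3),
    ((4, 3, 9), 0, 2, 4), ((5, 3, 9), 3, 2, 4), ((6, 2, 7), 5, 0, 3), ((7, 6, 8), 3, 5, 7),
    ((8, 7, 9), 7, 3, 4), ((9, 0, 4), 4, 1, 0), ((9, 0, 5), 4, 1, 3), ((9, 0, 8), 4, 1, 7),
    ((9, 4, 5), 4, 0, 3), ((9, 4, 8), 4, 0, 7), ((9, 5, 8), 4, 3, 7)]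
  Tc := []
  Td := [((0, 1), (2, 1), 6), ((0, 1), (2, 6), 5), ((0, 1), (4, 3), 2), ((0, 1), (4, 9), 4), ((1,
    0), (0, 1), 6), ((1, 0), (0, 9), 4), ((2, 5), (3, 4), 0), ((2, 5), (3, 5), 3), ((5, 2),
    (6, 2), 0), ((5, 2), (6, 7), 3)]
  G := [[0, 0x8424f42848426f8218848d22c248e, 0, 0x841e4241178294141e82111b8258c,
    0x111e84111d8438141e14111d2438c], [0, 0x824b4287c214842e82c79248a, 0,
    0x141e41179248111281a116c258c, 0x111e41179428841e81179428c], [0,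
    0x842e1282a78294842e1242ab4258a, 0x844cf1284ccf18a41, 0x84ce8284cb82581,
    0x84ce8484cd24381], [0, 0x642e42679248824b4287c214a, 0xc184c4c8be184844b4887c128c,
    0x844b4887c2181, 0x84ce48c794281]]

noncomputable def n3057 : Ent := ⟨e3057, noF, [], [], [(8, 15, [1685356702439545624007900436039642273970977273354372543760012591105, 0])]⟩

def c3057 : PLift (Cov.check n3057.C.D v3057 = true) := ⟨by decide +kernel⟩

def b3057 : PLift (entF (fidx ts) 400 3057 n3057 = true) := ⟨by decide +kernel⟩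

theorem g3057 : GoodF (fidx ts) 400 3057 := GoodF.ofV v3057 n3057 c3057.down b3057.down

/-- 4866464:2375 -/
noncomputable def e3058 : SCfg where
  D := {
    a := 7
    L := 11
    kp := 8
    inn := [(0, 1), (1, 0), (1, 2), (1, 3), (1, 6), (2, 1), (2, 3), (2, 4), (2, 5), (3, 1), (3, 2), (3,
      4), (4, 2), (4, 3), (4, 5), (5, 2), (5, 4), (6, 1)]
    mix := [(0, 0), (0, 1), (0, 2), (1, 0), (1, 2), (1, 3), (1, 4), (2, 3), (2, 5), (3, 2), (3, 6), (3,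
      7), (4, 7), (5, 5), (5, 7), (5, 8), (5, 9), (6, 0), (6, 4), (6, 10)]
    cl := [1, 5, 0, 2, 0, 3, 4, 3, 6, 7, 8]
    chq := [(0, 1), (1, 0), (2, 4), (4, 2)]
    rng := [(0, 1), (0, 10), (1, 0), (1, 2), (2, 1), (2, 6), (3, 4), (3, 5), (4, 3), (4, 10), (5, 3),
      (5, 9), (6, 2), (6, 7), (7, 6), (7, 8), (8, 7), (8, 9), (9, 5), (9, 8), (10, 0), (10, 4)]
    lev := [] }
  links := [[1, 7, 8, 9], [7, 0, 9, 3, 2, 10, 11, 6], [10, 1, 3, 4, 5, 12], [4, 2, 1, 9, 13, 14], [5, 2,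
    3, 14], [12, 2, 4, 14, 15, 16], [7, 1, 11, 17]]
  P := {
    a := 7
    N := 18
    nb := [898, 3789, 5178, 25110, 16428, 118804, 133250, 131395, 641, 8459, 6150, 132162, 66596,
      16904, 41016, 81952, 36896, 2240]
    tri := [(0, 1, 7), (0, 1, 9), (0, 7, 8), (0, 8, 9), (1, 2, 3), (1, 2, 10), (1, 3, 9), (1, 6, 7),
      (1, 6, 11), (1, 10, 11), (2, 3, 4), (2, 4, 5), (2, 5, 12), (2, 10, 12), (3, 4, 14), (3, 9,
      13), (3, 13, 14), (4, 5, 14), (5, 12, 16), (5, 14, 15), (5, 15, 16), (6, 7, 17), (6, 11,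
      17)]
    fin := [0, 1, 2, 2, 2, 5, 0, 0, 8, 1, 10, 1, 5, 2, 5, 15, 16, 17]
    chd := [(0, 1), (10, 2)]
    steps := [(0, 7), (0, 6), (1, 9), (1, 11), (2, 3), (2, 4), (2, 13), (5, 14), (5, 12)] }
  rep := [1, 0, 10, 5, 2, 8, 15, 16, 17]

noncomputable def v3058 : Cov.CovD where
  P := 3
  N := 6
  pl := [1, 8, 9, 10]
  lev := [⟨[], [], [(0, 1)], [5], [(0, 1, [0]), (2, 0, [1])]⟩,
    ⟨[], [(0, 0), (0, 1), (0, 2)], [(0, 0), (0, 1), (0, 2), (1, 2)], [], [(0, 1, [0]), (2,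
      0, [1]), (3, 2, [4]), (4, 0, [1])]⟩,
    ⟨[(0, 1)], [(1, 0), (1, 1), (1, 2), (1, 3)], [(2, 3)], [], [(3, 2, [4]), (5, 3, [])]⟩,
    ⟨[(0, 1), (1, 2)], [(0, 0), (1, 0), (1, 1), (1, 2), (1, 3), (1, 4), (2, 0), (2, 2), (2,
      3), (2, 4)], [(0, 3), (0, 4), (3, 4)], [], [(2, 0, [1]), (6, 4, [2]), (7, 3, [])]⟩,
    ⟨[(1, 2), (1, 3), (2, 3)], [(2, 2), (2, 3), (3, 0), (3, 3), (3, 4)], [], [], [(7, 3,
      [])]⟩,
    ⟨[(1, 2), (2, 3), (2, 4), (3, 4)], [(2, 2), (2, 3), (3, 3), (4, 3)], [(3, 3)], [6, 7],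
      [(5, 3, []), (7, 3, [])]⟩,
    ⟨[(0, 1), (1, 2), (1, 3)], [(0, 1), (1, 0), (1, 1), (1, 2)], [(0, 1)], [8], [(0, 1,
      [0]), (4, 0, [1])]⟩]
  Ta := [((2, 1), 0, 5), ((2, 6), 0, 4), ((4, 3), 0, 2), ((4, 10), 0, 8), ((5, 3), 3, 2), ((5,
    9), 3, 7), ((7, 6), 3, 4), ((7, 8), 3, 6)]
  Tb := [((0, 1, 10), 1, 5, 8), ((1, 0, 2), 5, 1, 0), ((2, 1, 6), 0, 5, 4), ((3, 4, 5), 2, 0, 3),
    ((4, 3, 10), 0, 2, 8), ((5, 3, 9), 3, 2, 7), ((6, 2, 7), 4, 0, 3), ((7, 6, 8), 3, 4, 6),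
    ((8, 7, 9), 6, 3, 7), ((9, 5, 8), 7, 3, 6), ((10, 0, 4), 8, 1, 0)]
  Tc := []
  Td := [((0, 1), (2, 1), 5), ((0, 1), (2, 6), 4), ((0, 1), (4, 3), 2), ((0, 1), (4, 10), 8),
    ((1, 0), (0, 1), 5), ((1, 0), (0, 10), 8), ((2, 4), (3, 4), 0), ((2, 4), (3, 5), 3), ((4,
    2), (6, 2), 0), ((4, 2), (6, 7), 3)]
  G := [[0, 0x666e82666b8258aaae12aaa78294c, 0, 0x111e12111b4258111e4211174294c,
    0x111e14111d8438111e14111d8438c], [0, 0x666bcaa7c218a6ae6ac792486, 0,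
    0x111e11179248111b1117c218c, 0x111d1117a418111e11179428c], [0,
    0x6a6e826ccb82586aae12caa742946, 0xccccf12ccccf84681, 0xccce12cccb42581,
    0xccce14cccd24381], [0, 0x666b6667c218caca2ca67d248c, 0xcc3ccc542c212ccccf1cccd1aac1,
    0xcccbccc7c2141, 0xcccdccc7a4181]]

noncomputable def n3058 : Ent := ⟨e3058, noF, [], [], [(8, 15, [7334790850167413569773436004105379185503274260204390087403942017159169, 0]), (8, 16, [7334685537875745012586738086077695515070955365108989538292687706189825, 0]), (15, 17, [6903326391201334775872065844685381424292761054348340378595029942206465, 0]), (16, 17, [6903326391201334775872065844685381424292761054348340378595029942210561, 0])]⟩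

def c3058 : PLift (Cov.check n3058.C.D v3058 = true) := ⟨by decide +kernel⟩

def b3058 : PLift (entF (fidx ts) 400 3058 n3058 = true) := ⟨by decide +kernel⟩

theorem g3058 : GoodF (fidx ts) 400 3058 := GoodF.ofV v3058 n3058 c3058.down b3058.down

/-- 4866447:2376 -/
noncomputable def e3059 : SCfg where
  D := {
    a := 7
    L := 11
    kp := 8
    inn := [(0, 1), (0, 6), (1, 0), (1, 2), (1, 3), (1, 5), (1, 6), (2, 1), (2, 3), (2, 4), (3, 1), (3,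
      2), (3, 4), (3, 6), (4, 2), (4, 3), (5, 1), (6, 0), (6, 1), (6, 3)]
    mix := [(0, 0), (0, 1), (1, 0), (1, 2), (1, 3), (2, 2), (2, 4), (2, 5), (3, 6), (3, 7), (4, 4), (4,
      7), (5, 0), (5, 3), (5, 8), (6, 1), (6, 6), (6, 9), (6, 10)]
    cl := [0, 3, 0, 2, 4, 5, 3, 1, 6, 7, 8]
    chq := [(0, 1), (0, 4), (1, 0), (4, 0)]
    rng := [(0, 1), (0, 8), (1, 0), (1, 9), (2, 3), (2, 5), (3, 2), (3, 8), (4, 5), (4, 7), (5, 2), (5,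
      4), (6, 7), (6, 10), (7, 4), (7, 6), (8, 0), (8, 3), (9, 1), (9, 10), (10, 6), (10, 9)]
    lev := [] }
  links := [[1, 7, 8, 6], [7, 0, 6, 3, 2, 9, 10, 5], [9, 1, 3, 4, 11, 12], [4, 2, 1, 6, 13, 14], [11, 2,
    3, 14], [7, 1, 10, 15], [13, 3, 1, 0, 8, 16, 17]]
  P := {
    a := 7
    N := 18
    nb := [450, 1773, 6682, 24662, 18444, 33922, 205067, 33059, 65729, 5126, 33314, 20500, 2564,
      147528, 10264, 1184, 131392, 73792]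
    tri := [(0, 1, 6), (0, 1, 7), (0, 6, 8), (0, 7, 8), (1, 2, 3), (1, 2, 9), (1, 3, 6), (1, 5, 7), (1,
      5, 10), (1, 9, 10), (2, 3, 4), (2, 4, 11), (2, 9, 12), (2, 11, 12), (3, 4, 14), (3, 6, 13),
      (3, 13, 14), (4, 11, 14), (5, 7, 15), (5, 10, 15), (6, 8, 16), (6, 13, 17), (6, 16, 17)]
    fin := [0, 0, 0, 0, 0, 0, 6, 0, 6, 0, 10, 11, 12, 6, 14, 15, 16, 17]
    chd := [(0, 11), (0, 14)]
    steps := [(0, 1), (0, 2), (0, 3), (0, 4), (0, 5), (0, 7), (0, 9), (6, 8), (6, 13)] }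
  rep := [0, 14, 10, 6, 11, 12, 15, 16, 17]

noncomputable def v3059 : Cov.CovD where
  P := 3
  N := 6
  pl := [3, 5, 8, 9, 10]
  lev := [⟨[], [], [(0, 3)], [], [(0, 0, [1, 4]), (1, 3, [])]⟩,
    ⟨[], [(0, 0), (0, 3)], [(0, 0)], [2], [(0, 0, [1, 4]), (2, 0, [1, 4])]⟩,
    ⟨[(0, 1)], [(1, 0), (1, 4)], [(0, 4)], [5], [(2, 0, [1, 4]), (4, 4, [0])]⟩,
    ⟨[(0, 1), (1, 2)], [(1, 0), (1, 1), (1, 3), (2, 0), (2, 1), (2, 3), (2, 4)], [(1, 3)],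
      [], [(6, 3, []), (7, 1, [0])]⟩,
    ⟨[(1, 2), (1, 3), (2, 3)], [(2, 0), (2, 1), (2, 4), (3, 1), (3, 3), (3, 4)], [(1, 4)],
      [], [(4, 4, [0]), (7, 1, [0])]⟩,
    ⟨[(0, 1), (1, 2), (1, 3)], [(0, 0), (1, 0)], [], [2, 6], [(0, 0, [1, 4])]⟩,
    ⟨[(0, 1), (0, 3), (1, 2), (1, 3), (1, 5), (2, 3), (3, 4)], [(0, 0), (0, 3), (1, 0), (1,
      3), (3, 1), (3, 3)], [(3, 3)], [7, 8], [(1, 3, []), (6, 3, [])]⟩]
  Ta := [((0, 1), 0, 3), ((0, 8), 0, 6), ((1, 0), 3, 0), ((1, 9), 3, 7), ((2, 3), 0, 2), ((2, 5),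
    0, 5), ((6, 7), 3, 1), ((6, 10), 3, 8)]
  Tb := [((0, 1, 8), 0, 3, 6), ((1, 0, 9), 3, 0, 7), ((2, 3, 5), 0, 2, 5), ((3, 2, 8), 2, 0, 6),
    ((4, 5, 7), 4, 5, 1), ((5, 2, 4), 5, 0, 4), ((6, 7, 10), 3, 1, 8), ((7, 4, 6), 1, 4, 3),
    ((8, 0, 3), 6, 0, 2), ((9, 1, 10), 7, 3, 8), ((10, 6, 9), 8, 3, 7)]
  Tc := [(0, 1, 4)]
  Td := [((0, 1), (0, 1), 3), ((0, 1), (0, 8), 6), ((0, 1), (2, 3), 2), ((0, 1), (2, 5), 5), ((0,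
    4), (0, 1), 3), ((0, 4), (0, 8), 6), ((0, 4), (2, 3), 2), ((0, 4), (2, 5), 5), ((1, 0),
    (7, 4), 4), ((1, 0), (7, 6), 3), ((4, 0), (4, 5), 5), ((4, 0), (4, 7), 1)]
  G := [[0, 0xd1d1c21471716814a, 0, 0xf4414414f4847f881fbc18f848bc2,
    0x3fcb417f8b147fa847c84888c1a2], [0, 0xf1f162131a51416e142, 0,
    0x44147fc4175c128a495efbc8191c18a848bc2, 0x2211f24115a17a6aad1efda81f8418818ea4], [0,
    0xd1d1c218b1b1a4186, 0x266117f8e4178fe14ed9c148a2, 0x7114f141f114e81118c2,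
    0x6114f141f114e91818a2], [0, 0x7141a81b1af1c16e148, 0xf96685111c11aee6d162fde818a4,
    0xf1411111e1d16f1818c2, 0x111111e11d2f181f141ca4]]

noncomputable def n3059 : Ent := ⟨e3059, noF, [], [], []⟩

def c3059 : PLift (Cov.check n3059.C.D v3059 = true) := ⟨by decide +kernel⟩

def b3059 : PLift (entF (fidx ts) 400 3059 n3059 = true) := ⟨by decide +kernel⟩

theorem g3059 : GoodF (fidx ts) 400 3059 := GoodF.ofV v3059 n3059 c3059.down b3059.down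

/-- 4866446:2377/2 -/
noncomputable def e3060 : SCfg where
  D := {
    a := 7
    L := 9
    kp := 6
    inn := [(0, 1), (1, 0), (1, 2), (1, 3), (1, 5), (2, 1), (2, 3), (2, 4), (3, 1), (3, 2), (3, 4), (3,
      6), (4, 2), (4, 3), (4, 6), (5, 1), (6, 3), (6, 4)]
    mix := [(0, 0), (0, 1), (0, 2), (1, 0), (1, 2), (1, 3), (1, 4), (2, 3), (2, 5), (2, 6), (3, 2), (3,
      7), (4, 5), (5, 0), (5, 4), (5, 8), (6, 1), (6, 5), (6, 7), (6, 8)]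
    cl := [3, 2, 0, 0, 5, 1, 6, 1, 4]
    chq := [(0, 3), (0, 4), (3, 0), (4, 0)]
    rng := [(0, 1), (0, 8), (1, 0), (1, 2), (1, 7), (1, 8), (2, 1), (2, 7), (3, 4), (3, 6), (4, 3), (4,
      8), (5, 6), (5, 8), (6, 3), (6, 5), (7, 1), (7, 2), (8, 0), (8, 1), (8, 4), (8, 5)]
    lev := [] }
  links := [[1, 7, 8, 9], [7, 0, 9, 3, 2, 10, 11, 5], [10, 1, 3, 4, 12, 13], [4, 2, 1, 9, 14, 6], [12, 2,
    3, 6], [7, 1, 11, 15], [12, 4, 3, 14, 8, 15]]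
  P := {
    a := 7
    N := 16
    nb := [898, 3757, 13338, 16982, 4172, 34946, 53528, 33059, 49857, 16651, 10246, 33826, 41044,
      5124, 840, 6624]
    tri := [(0, 1, 7), (0, 1, 9), (0, 7, 8), (0, 8, 9), (1, 2, 3), (1, 2, 10), (1, 3, 9), (1, 5, 7),
      (1, 5, 11), (1, 10, 11), (2, 3, 4), (2, 4, 12), (2, 10, 13), (2, 12, 13), (3, 4, 6), (3, 6,
      14), (3, 9, 14), (4, 6, 12), (5, 7, 15), (5, 11, 15), (6, 8, 14), (6, 8, 15), (6, 12, 15)]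
    fin := [0, 1, 1, 3, 3, 1, 6, 0, 6, 1, 1, 11, 3, 13, 3, 15]
    chd := [(0, 1), (1, 15)]
    steps := [(0, 7), (1, 2), (1, 5), (1, 9), (1, 10), (3, 4), (3, 14), (3, 12), (6, 8)] }
  rep := [1, 3, 6, 0, 15, 11, 13]

noncomputable def v3060 : Cov.CovD where
  P := 3
  N := 4
  pl := [1, 4, 6]
  lev := [⟨[], [], [(0, 3)], [2], [(0, 3, [0]), (2, 0, [3, 4])]⟩,
    ⟨[], [(0, 0), (0, 3)], [(0, 0), (0, 3)], [5], [(0, 3, [0]), (2, 0, [3, 4]), (3, 0, [3,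
      4])]⟩,
    ⟨[(0, 1)], [(1, 0), (1, 1), (1, 3)], [(0, 1)], [6], [(3, 0, [3, 4]), (5, 1, [])]⟩,
    ⟨[(0, 1), (1, 2)], [(0, 0), (1, 0), (1, 1), (1, 3), (2, 0), (2, 1)], [(0, 1)], [], [(2,
      0, [3, 4]), (7, 1, [])]⟩,
    ⟨[(1, 2), (1, 3), (2, 3)], [(2, 0), (2, 1), (3, 0), (3, 1)], [], [], [(5, 1, [])]⟩,
    ⟨[(0, 1), (1, 2), (1, 3)], [(0, 3), (1, 0), (1, 3), (1, 4)], [(3, 4)], [5], [(0, 3,
      [0]), (8, 4, [0])]⟩,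
    ⟨[(1, 3), (2, 3), (2, 4), (3, 4)], [(2, 1), (3, 0), (3, 1), (3, 4), (4, 1), (4, 4), (5,
      4)], [(1, 1), (1, 4)], [2], [(5, 1, []), (7, 1, []), (8, 4, [0])]⟩]
  Ta := [((2, 1), 0, 2), ((2, 7), 0, 1), ((3, 4), 0, 5), ((3, 6), 0, 6), ((5, 6), 1, 6), ((5, 8),
    1, 4), ((7, 1), 1, 2), ((7, 2), 1, 0)]
  Tb := [((0, 1, 8), 3, 2, 4), ((1, 0, 2), 2, 3, 0), ((1, 0, 7), 2, 3, 1), ((1, 0, 8), 2, 3, 4),
    ((1, 2, 7), 2, 0, 1), ((1, 2, 8), 2, 0, 4), ((1, 7, 8), 2, 1, 4), ((2, 1, 7), 0, 2, 1),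
    ((3, 4, 6), 0, 5, 6), ((4, 3, 8), 5, 0, 4), ((5, 6, 8), 1, 6, 4), ((6, 3, 5), 6, 0, 1),
    ((7, 1, 2), 1, 2, 0), ((8, 0, 1), 4, 3, 2), ((8, 0, 4), 4, 3, 5), ((8, 0, 5), 4, 3, 1),
    ((8, 1, 4), 4, 2, 5), ((8, 1, 5), 4, 2, 1), ((8, 4, 5), 4, 5, 1)]
  Tc := [(0, 3, 4)]
  Td := [((0, 3), (2, 1), 2), ((0, 3), (2, 7), 1), ((0, 3), (3, 4), 5), ((0, 3), (3, 6), 6), ((0,
    4), (2, 1), 2), ((0, 4), (2, 7), 1), ((0, 4), (3, 4), 5), ((0, 4), (3, 6), 6), ((3, 0),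
    (0, 1), 2), ((3, 0), (0, 8), 4), ((4, 0), (8, 0), 3), ((4, 0), (8, 1), 2), ((4, 0), (8,
    4), 5), ((4, 0), (8, 5), 1)]
  G := [[0, 0, 0xc18418c14214c14812e, 0, 0x9184191481c91481914816a], [0,
    0xc182c1426c112c1146ac1224181c8ac118c11466c, 0xc18428c12814c12412e,
    0xc184112441a51482124416c, 0x91842115882c91281918416a], [0, 0, 0, 0,
    0x1958241182811841e91428811d4219982c111b488118f84ce9], [0, 0, 0,
    0x91842851882412241224c2d, 0x9144212481a111d88212481284c69]]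

noncomputable def n3060 : Ent := ⟨e3060, noF, [], [], []⟩

def c3060 : PLift (Cov.check n3060.C.D v3060 = true) := ⟨by decide +kernel⟩

def b3060 : PLift (entF (fidx ts) 400 3060 n3060 = true) := ⟨by decide +kernel⟩

theorem g3060 : GoodF (fidx ts) 400 3060 := GoodF.ofV v3060 n3060 c3060.down b3060.down

/-- 4866446:2377/1 -/
noncomputable def e3061 : SCfg where
  D := {
    a := 7
    L := 10
    kp := 7
    inn := [(0, 1), (1, 0), (1, 2), (1, 3), (1, 5), (2, 1), (2, 3), (2, 4), (3, 1), (3, 2), (3, 4), (3,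
      6), (4, 2), (4, 3), (4, 6), (5, 1), (6, 3), (6, 4)]
    mix := [(0, 0), (0, 1), (0, 2), (1, 0), (1, 2), (1, 3), (1, 4), (2, 3), (2, 5), (2, 6), (3, 2), (3,
      7), (4, 5), (5, 0), (5, 4), (5, 8), (6, 1), (6, 5), (6, 7), (6, 9)]
    cl := [1, 4, 0, 0, 2, 3, 6, 3, 5, 7]
    chq := [(0, 1), (0, 5), (1, 0), (5, 0)]
    rng := [(0, 1), (0, 8), (1, 0), (1, 2), (1, 7), (1, 9), (2, 1), (2, 7), (3, 4), (3, 6), (4, 3), (4,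
      8), (5, 6), (5, 9), (6, 3), (6, 5), (7, 1), (7, 2), (8, 0), (8, 4), (9, 1), (9, 5)]
    lev := [] }
  links := [[1, 7, 8, 9], [7, 0, 9, 3, 2, 10, 11, 5], [10, 1, 3, 4, 12, 13], [4, 2, 1, 9, 14, 6], [12, 2,
    3, 6], [7, 1, 11, 15], [12, 4, 3, 14, 8, 16]]
  P := {
    a := 7
    N := 17
    nb := [898, 3757, 13338, 16982, 4172, 34946, 86296, 33059, 82625, 16651, 10246, 33826, 73812,
      5124, 840, 2208, 4416]
    tri := [(0, 1, 7), (0, 1, 9), (0, 7, 8), (0, 8, 9), (1, 2, 3), (1, 2, 10), (1, 3, 9), (1, 5, 7),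
      (1, 5, 11), (1, 10, 11), (2, 3, 4), (2, 4, 12), (2, 10, 13), (2, 12, 13), (3, 4, 6), (3, 6,
      14), (3, 9, 14), (4, 6, 12), (5, 7, 15), (5, 11, 15), (6, 8, 14), (6, 8, 16), (6, 12, 16)]
    fin := [0, 1, 1, 3, 3, 1, 6, 0, 6, 1, 1, 11, 3, 13, 3, 15, 16]
    chd := [(0, 1), (1, 15)]
    steps := [(0, 7), (1, 2), (1, 5), (1, 9), (1, 10), (3, 4), (3, 14), (3, 12), (6, 8)] }
  rep := [1, 0, 11, 3, 6, 15, 13, 16]

noncomputable def v3061 : Cov.CovD where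
  P := 3
  N := 5
  pl := [1, 4, 6, 9]
  lev := [⟨[], [], [(0, 1)], [4], [(0, 1, [0]), (2, 0, [1, 5])]⟩,
    ⟨[], [(0, 0), (0, 1)], [(0, 0), (0, 1)], [2], [(0, 1, [0]), (2, 0, [1, 5]), (3, 0, [1,
      5])]⟩,
    ⟨[(0, 1)], [(1, 0), (1, 1), (1, 3)], [(0, 3)], [6], [(3, 0, [1, 5]), (5, 3, [])]⟩,
    ⟨[(0, 1), (1, 2)], [(0, 0), (1, 0), (1, 1), (1, 3), (2, 0), (2, 3)], [(0, 3)], [], [(2,
      0, [1, 5]), (7, 3, [])]⟩,
    ⟨[(1, 2), (1, 3), (2, 3)], [(2, 0), (2, 3), (3, 0), (3, 3)], [], [], [(5, 3, [])]⟩,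
    ⟨[(0, 1), (1, 2), (1, 3)], [(0, 1), (1, 0), (1, 1), (1, 5)], [(1, 5)], [2], [(0, 1,
      [0]), (8, 5, [0])]⟩,
    ⟨[(1, 3), (2, 3), (2, 4), (3, 4)], [(2, 3), (3, 0), (3, 3), (4, 3)], [(3, 3)], [4, 7],
      [(5, 3, []), (7, 3, [])]⟩]
  Ta := [((2, 1), 0, 4), ((2, 7), 0, 3), ((3, 4), 0, 2), ((3, 6), 0, 6), ((5, 6), 3, 6), ((5, 9),
    3, 7), ((7, 1), 3, 4), ((7, 2), 3, 0)]
  Tb := [((0, 1, 8), 1, 4, 5), ((1, 0, 2), 4, 1, 0), ((1, 0, 7), 4, 1, 3), ((1, 0, 9), 4, 1, 7),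
    ((1, 2, 7), 4, 0, 3), ((1, 2, 9), 4, 0, 7), ((1, 7, 9), 4, 3, 7), ((2, 1, 7), 0, 4, 3),
    ((3, 4, 6), 0, 2, 6), ((4, 3, 8), 2, 0, 5), ((5, 6, 9), 3, 6, 7), ((6, 3, 5), 6, 0, 3),
    ((7, 1, 2), 3, 4, 0), ((8, 0, 4), 5, 1, 2), ((9, 1, 5), 7, 4, 3)]
  Tc := [(0, 1, 5)]
  Td := [((0, 1), (2, 1), 4), ((0, 1), (2, 7), 3), ((0, 1), (3, 4), 2), ((0, 1), (3, 6), 6), ((0,
    5), (2, 1), 4), ((0, 5), (2, 7), 3), ((0, 5), (3, 4), 2), ((0, 5), (3, 6), 6), ((1, 0),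
    (0, 1), 4), ((1, 0), (0, 8), 5), ((5, 0), (8, 0), 1), ((5, 0), (8, 4), 2)]
  G := [[0, 0x41b16814b148146, 0, 0xf14814f18218c, 0x8171c218718218c], [0,
    0x912318a14312512c18c, 0, 0xa112b1481122b42151a2711468c, 0xb112b184687182718468c], [0,
    0xf12814f18418a, 0x141e4164741f8c1af812ffc18ec1, 0xf114f112f114e81, 0xf112b14152f114e81],
    [0, 0x512b18618b129126186, 0xffc12ffc18a41, 0xf112f184681, 0xf182f114681]]

noncomputable def n3061 : Ent := ⟨e3061, noF, [], [], [(16, 15, [1685356702439545624007900436039642273970977273354372543760012623873, 0])]⟩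

def c3061 : PLift (Cov.check n3061.C.D v3061 = true) := ⟨by decide +kernel⟩

def b3061 : PLift (entF (fidx ts) 400 3061 n3061 = true) := ⟨by decide +kernel⟩

theorem g3061 : GoodF (fidx ts) 400 3061 := GoodF.ofV v3061 n3061 c3061.down b3061.down

/-- 4866446:2377/3 -/
noncomputable def e3062 : SCfg where
  D := {
    a := 7
    L := 10
    kp := 7
    inn := [(0, 1), (1, 0), (1, 2), (1, 3), (1, 5), (2, 1), (2, 3), (2, 4), (3, 1), (3, 2), (3, 4), (3,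
      6), (4, 2), (4, 3), (4, 6), (5, 1), (6, 3), (6, 4)]
    mix := [(0, 0), (0, 1), (0, 2), (1, 0), (1, 2), (1, 3), (1, 4), (2, 3), (2, 5), (2, 6), (3, 2), (3,
      7), (4, 5), (5, 0), (5, 4), (5, 8), (6, 5), (6, 7), (6, 8), (6, 9)]
    cl := [1, 5, 0, 0, 2, 3, 6, 3, 4, 7]
    chq := [(0, 1), (0, 4), (1, 0), (4, 0)]
    rng := [(0, 1), (0, 8), (1, 0), (1, 2), (2, 1), (2, 7), (3, 4), (3, 6), (4, 3), (4, 8), (5, 6), (5,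
      9), (6, 3), (6, 5), (7, 2), (7, 8), (8, 0), (8, 4), (8, 7), (8, 9), (9, 5), (9, 8)]
    lev := [] }
  links := [[1, 7, 8, 9], [7, 0, 9, 3, 2, 10, 11, 5], [10, 1, 3, 4, 12, 13], [4, 2, 1, 9, 14, 6], [12, 2,
    3, 6], [7, 1, 11, 15], [12, 4, 3, 14, 15, 16]]
  P := {
    a := 7
    N := 17
    nb := [898, 3757, 13338, 16982, 4172, 34946, 118808, 33059, 641, 16651, 10246, 33826, 73812, 5124,
      33352, 84192, 36928]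
    tri := [(0, 1, 7), (0, 1, 9), (0, 7, 8), (0, 8, 9), (1, 2, 3), (1, 2, 10), (1, 3, 9), (1, 5, 7),
      (1, 5, 11), (1, 10, 11), (2, 3, 4), (2, 4, 12), (2, 10, 13), (2, 12, 13), (3, 4, 6), (3, 6,
      14), (3, 9, 14), (4, 6, 12), (5, 7, 15), (5, 11, 15), (6, 12, 16), (6, 14, 15), (6, 15, 16)]
    fin := [0, 1, 1, 1, 1, 1, 6, 0, 8, 1, 1, 11, 6, 13, 6, 15, 16]
    chd := [(0, 1), (1, 15)]
    steps := [(0, 7), (1, 2), (1, 3), (1, 4), (1, 5), (1, 9), (1, 10), (6, 14), (6, 12)] }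
  rep := [1, 0, 11, 6, 15, 8, 13, 16]

noncomputable def v3062 : Cov.CovD where
  P := 3
  N := 5
  pl := [1, 4, 6, 9]
  lev := [⟨[], [], [(0, 1)], [5], [(0, 1, [0]), (2, 0, [1, 4])]⟩,
    ⟨[], [(0, 0), (0, 1)], [(0, 0), (0, 1)], [2], [(0, 1, [0]), (2, 0, [1, 4]), (3, 0, [1,
      4])]⟩,
    ⟨[(0, 1)], [(1, 0), (1, 1), (1, 3)], [(0, 3)], [6], [(3, 0, [1, 4]), (5, 3, [])]⟩,
    ⟨[(0, 1), (1, 2)], [(0, 0), (1, 0), (1, 1), (1, 3), (2, 0), (2, 3)], [(0, 3)], [], [(2,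
      0, [1, 4]), (7, 3, [])]⟩,
    ⟨[(1, 2), (1, 3), (2, 3)], [(2, 0), (2, 3), (3, 0), (3, 3)], [], [], [(5, 3, [])]⟩,
    ⟨[(0, 1), (1, 2), (1, 3)], [(0, 1), (1, 0), (1, 1), (1, 4)], [(1, 4)], [2], [(0, 1,
      [0]), (8, 4, [0])]⟩,
    ⟨[(1, 3), (2, 3), (2, 4), (3, 4)], [(2, 3), (3, 0), (3, 3), (3, 4), (4, 3), (4, 4), (5,
      4)], [(3, 3), (3, 4)], [7], [(5, 3, []), (7, 3, []), (8, 4, [0])]⟩]
  Ta := [((2, 1), 0, 5), ((2, 7), 0, 3), ((3, 4), 0, 2), ((3, 6), 0, 6), ((5, 6), 3, 6), ((5, 9),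
    3, 7), ((7, 2), 3, 0), ((7, 8), 3, 4)]
  Tb := [((0, 1, 8), 1, 5, 4), ((1, 0, 2), 5, 1, 0), ((2, 1, 7), 0, 5, 3), ((3, 4, 6), 0, 2, 6),
    ((4, 3, 8), 2, 0, 4), ((5, 6, 9), 3, 6, 7), ((6, 3, 5), 6, 0, 3), ((7, 2, 8), 3, 0, 4),
    ((8, 0, 4), 4, 1, 2), ((8, 0, 7), 4, 1, 3), ((8, 0, 9), 4, 1, 7), ((8, 4, 7), 4, 2, 3),
    ((8, 4, 9), 4, 2, 7), ((8, 7, 9), 4, 3, 7), ((9, 5, 8), 7, 3, 4)]
  Tc := [(0, 1, 4)]
  Td := [((0, 1), (2, 1), 5), ((0, 1), (2, 7), 3), ((0, 1), (3, 4), 2), ((0, 1), (3, 6), 6), ((0,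
    4), (2, 1), 5), ((0, 4), (2, 7), 3), ((0, 4), (3, 4), 2), ((0, 4), (3, 6), 6), ((1, 0),
    (0, 1), 5), ((1, 0), (0, 8), 4), ((4, 0), (8, 0), 1), ((4, 0), (8, 4), 2), ((4, 0), (8,
    7), 3), ((4, 0), (8, 9), 7)]
  G := [[0, 0xd1b16814b1435c2146, 0, 0x74b8c214859b16814c, 0xb171c218f178a418c], [0,
    0xd14714a144958b18618a, 0, 0xe112f184611221cf112f11468c, 0xf182e114114478f112f11468c],
    [0, 0xd1b16814b4b1c444618c, 0xb1c144167bc14697c128c1, 0x41b1cc24f112f118ac1,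
    0xf11428d152f114e81], [0, 0xd18b14618d12714a146, 0x3fc4297c18a41, 0xf112f114681,
    0xf112f184681]]

noncomputable def n3062 : Ent := ⟨e3062, noF, [], [], []⟩

def c3062 : PLift (Cov.check n3062.C.D v3062 = true) := ⟨by decide +kernel⟩

def b3062 : PLift (entF (fidx ts) 400 3062 n3062 = true) := ⟨by decide +kernel⟩

theorem g3062 : GoodF (fidx ts) 400 3062 := GoodF.ofV v3062 n3062 c3062.down b3062.down

/-- 4866446:2377/4 -/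
noncomputable def e3063 : SCfg where
  D := {
    a := 7
    L := 10
    kp := 7
    inn := [(0, 1), (1, 0), (1, 2), (1, 3), (1, 5), (2, 1), (2, 3), (2, 4), (3, 1), (3, 2), (3, 4), (3,
      6), (4, 2), (4, 3), (4, 6), (5, 1), (6, 3), (6, 4)]
    mix := [(0, 0), (0, 1), (0, 2), (1, 0), (1, 2), (1, 3), (1, 4), (2, 3), (2, 5), (2, 6), (3, 2), (3,
      7), (4, 5), (5, 0), (5, 4), (5, 8), (6, 5), (6, 7), (6, 8), (6, 9)]
    cl := [1, 5, 0, 0, 2, 3, 6, 3, 4, 7]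
    chq := [(0, 1), (0, 4), (1, 0), (4, 0)]
    rng := [(0, 1), (0, 8), (1, 0), (1, 2), (2, 1), (2, 7), (3, 4), (3, 6), (4, 3), (4, 8), (5, 6), (5,
      8), (6, 3), (6, 5), (7, 2), (7, 9), (8, 0), (8, 4), (8, 5), (8, 9), (9, 7), (9, 8)]
    lev := [] }
  links := [[1, 7, 8, 9], [7, 0, 9, 3, 2, 10, 11, 5], [10, 1, 3, 4, 12, 13], [4, 2, 1, 9, 14, 6], [12, 2,
    3, 6], [7, 1, 11, 15], [12, 4, 3, 14, 16, 15]]
  P := {
    a := 7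
    N := 17
    nb := [898, 3757, 13338, 16982, 4172, 34946, 118808, 33059, 641, 16651, 10246, 33826, 41044, 5124,
      66120, 71904, 49216]
    tri := [(0, 1, 7), (0, 1, 9), (0, 7, 8), (0, 8, 9), (1, 2, 3), (1, 2, 10), (1, 3, 9), (1, 5, 7),
      (1, 5, 11), (1, 10, 11), (2, 3, 4), (2, 4, 12), (2, 10, 13), (2, 12, 13), (3, 4, 6), (3, 6,
      14), (3, 9, 14), (4, 6, 12), (5, 7, 15), (5, 11, 15), (6, 12, 15), (6, 14, 16), (6, 15, 16)]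
    fin := [0, 1, 1, 1, 1, 1, 6, 0, 8, 1, 1, 11, 6, 13, 6, 15, 16]
    chd := [(0, 1), (1, 15)]
    steps := [(0, 7), (1, 2), (1, 3), (1, 4), (1, 5), (1, 9), (1, 10), (6, 14), (6, 12)] }
  rep := [1, 0, 11, 6, 15, 8, 13, 16]

noncomputable def v3063 : Cov.CovD where
  P := 3
  N := 5
  pl := [1, 4, 6, 9]
  lev := [⟨[], [], [(0, 1)], [5], [(0, 1, [0]), (2, 0, [1, 4])]⟩,
    ⟨[], [(0, 0), (0, 1)], [(0, 0), (0, 1)], [2], [(0, 1, [0]), (2, 0, [1, 4]), (3, 0, [1,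
      4])]⟩,
    ⟨[(0, 1)], [(1, 0), (1, 1), (1, 3)], [(0, 3)], [6], [(3, 0, [1, 4]), (5, 3, [])]⟩,
    ⟨[(0, 1), (1, 2)], [(0, 0), (1, 0), (1, 1), (1, 3), (2, 0), (2, 3)], [(0, 3)], [], [(2,
      0, [1, 4]), (7, 3, [])]⟩,
    ⟨[(1, 2), (1, 3), (2, 3)], [(2, 0), (2, 3), (3, 0), (3, 3)], [], [], [(5, 3, [])]⟩,
    ⟨[(0, 1), (1, 2), (1, 3)], [(0, 1), (1, 0), (1, 1), (1, 4)], [(1, 4)], [2], [(0, 1,
      [0]), (8, 4, [0])]⟩,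
    ⟨[(1, 3), (2, 3), (2, 4), (3, 4)], [(2, 3), (3, 0), (3, 3), (3, 4), (4, 3), (4, 4), (5,
      4)], [(3, 3), (3, 4)], [7], [(5, 3, []), (7, 3, []), (8, 4, [0])]⟩]
  Ta := [((2, 1), 0, 5), ((2, 7), 0, 3), ((3, 4), 0, 2), ((3, 6), 0, 6), ((5, 6), 3, 6), ((5, 8),
    3, 4), ((7, 2), 3, 0), ((7, 9), 3, 7)]
  Tb := [((0, 1, 8), 1, 5, 4), ((1, 0, 2), 5, 1, 0), ((2, 1, 7), 0, 5, 3), ((3, 4, 6), 0, 2, 6),
    ((4, 3, 8), 2, 0, 4), ((5, 6, 8), 3, 6, 4), ((6, 3, 5), 6, 0, 3), ((7, 2, 9), 3, 0, 7),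
    ((8, 0, 4), 4, 1, 2), ((8, 0, 5), 4, 1, 3), ((8, 0, 9), 4, 1, 7), ((8, 4, 5), 4, 2, 3),
    ((8, 4, 9), 4, 2, 7), ((8, 5, 9), 4, 3, 7), ((9, 7, 8), 7, 3, 4)]
  Tc := [(0, 1, 4)]
  Td := [((0, 1), (2, 1), 5), ((0, 1), (2, 7), 3), ((0, 1), (3, 4), 2), ((0, 1), (3, 6), 6), ((0,
    4), (2, 1), 5), ((0, 4), (2, 7), 3), ((0, 4), (3, 4), 2), ((0, 4), (3, 6), 6), ((1, 0),
    (0, 1), 5), ((1, 0), (0, 8), 4), ((4, 0), (8, 0), 1), ((4, 0), (8, 4), 2), ((4, 0), (8,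
    5), 3), ((4, 0), (8, 9), 7)]
  G := [[0, 0xb171c218859b16814c, 0, 0x712d18a14d11396814c, 0xb171c218b1169c218c], [0,
    0xd14714a14344f18884e186, 0, 0xe112e118142182cb4f11287918a4c, 0xf112f1846887912f18468c],
    [0, 0xc11171e418b171c214a, 0xb1c4452b7c14697c128c1, 0x718192f112f118e41,
    0xf114f112916134e81], [0, 0xf12814a1516218f18418e, 0x7bc12b5c84681, 0x1398244b1c4681,
    0xf1828196154681]]

noncomputable def n3063 : Ent := ⟨e3063, noF, [], [], [(8, 16, [1580044410770988437309982408355971841652082177953823432505701646337, 0])]⟩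

def c3063 : PLift (Cov.check n3063.C.D v3063 = true) := ⟨by decide +kernel⟩

def b3063 : PLift (entF (fidx ts) 400 3063 n3063 = true) := ⟨by decide +kernel⟩

theorem g3063 : GoodF (fidx ts) 400 3063 := GoodF.ofV v3063 n3063 c3063.down b3063.down

/-- 4866446:2377 -/
noncomputable def e3064 : SCfg where
  D := {
    a := 7
    L := 11
    kp := 8
    inn := [(0, 1), (1, 0), (1, 2), (1, 3), (1, 5), (2, 1), (2, 3), (2, 4), (3, 1), (3, 2), (3, 4), (3,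
      6), (4, 2), (4, 3), (4, 6), (5, 1), (6, 3), (6, 4)]
    mix := [(0, 0), (0, 1), (0, 2), (1, 0), (1, 2), (1, 3), (1, 4), (2, 3), (2, 5), (2, 6), (3, 2), (3,
      7), (4, 5), (5, 0), (5, 4), (5, 8), (6, 5), (6, 7), (6, 9), (6, 10)]
    cl := [1, 5, 0, 0, 2, 3, 6, 3, 4, 7, 8]
    chq := [(0, 1), (0, 4), (1, 0), (4, 0)]
    rng := [(0, 1), (0, 8), (1, 0), (1, 2), (2, 1), (2, 7), (3, 4), (3, 6), (4, 3), (4, 8), (5, 6), (5,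
      10), (6, 3), (6, 5), (7, 2), (7, 9), (8, 0), (8, 4), (9, 7), (9, 10), (10, 5), (10, 9)]
    lev := [] }
  links := [[1, 7, 8, 9], [7, 0, 9, 3, 2, 10, 11, 5], [10, 1, 3, 4, 12, 13], [4, 2, 1, 9, 14, 6], [12, 2,
    3, 6], [7, 1, 11, 15], [12, 4, 3, 14, 16, 17]]
  P := {
    a := 7
    N := 18
    nb := [898, 3757, 13338, 16982, 4172, 34946, 217112, 33059, 641, 16651, 10246, 33826, 139348,
      5124, 66120, 2208, 147520, 69696]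
    tri := [(0, 1, 7), (0, 1, 9), (0, 7, 8), (0, 8, 9), (1, 2, 3), (1, 2, 10), (1, 3, 9), (1, 5, 7),
      (1, 5, 11), (1, 10, 11), (2, 3, 4), (2, 4, 12), (2, 10, 13), (2, 12, 13), (3, 4, 6), (3, 6,
      14), (3, 9, 14), (4, 6, 12), (5, 7, 15), (5, 11, 15), (6, 12, 17), (6, 14, 16), (6, 16, 17)]
    fin := [0, 1, 1, 1, 1, 1, 6, 0, 8, 1, 1, 11, 6, 13, 6, 15, 16, 17]
    chd := [(0, 1), (1, 15)]
    steps := [(0, 7), (1, 2), (1, 3), (1, 4), (1, 5), (1, 9), (1, 10), (6, 14), (6, 12)] }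
  rep := [1, 0, 11, 6, 15, 8, 13, 16, 17]

noncomputable def v3064 : Cov.CovD where
  P := 3
  N := 6
  pl := [1, 4, 6, 9, 10]
  lev := [⟨[], [], [(0, 1)], [5], [(0, 1, [0]), (2, 0, [1, 4])]⟩,
    ⟨[], [(0, 0), (0, 1)], [(0, 0), (0, 1)], [2], [(0, 1, [0]), (2, 0, [1, 4]), (3, 0, [1,
      4])]⟩,
    ⟨[(0, 1)], [(1, 0), (1, 1), (1, 3)], [(0, 3)], [6], [(3, 0, [1, 4]), (5, 3, [])]⟩,
    ⟨[(0, 1), (1, 2)], [(0, 0), (1, 0), (1, 1), (1, 3), (2, 0), (2, 3)], [(0, 3)], [], [(2,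
      0, [1, 4]), (7, 3, [])]⟩,
    ⟨[(1, 2), (1, 3), (2, 3)], [(2, 0), (2, 3), (3, 0), (3, 3)], [], [], [(5, 3, [])]⟩,
    ⟨[(0, 1), (1, 2), (1, 3)], [(0, 1), (1, 0), (1, 1), (1, 4)], [(1, 4)], [2], [(0, 1,
      [0]), (8, 4, [0])]⟩,
    ⟨[(1, 3), (2, 3), (2, 4), (3, 4)], [(2, 3), (3, 0), (3, 3), (4, 3)], [(3, 3)], [7, 8],
      [(5, 3, []), (7, 3, [])]⟩]
  Ta := [((2, 1), 0, 5), ((2, 7), 0, 3), ((3, 4), 0, 2), ((3, 6), 0, 6), ((5, 6), 3, 6), ((5,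
    10), 3, 8), ((7, 2), 3, 0), ((7, 9), 3, 7)]
  Tb := [((0, 1, 8), 1, 5, 4), ((1, 0, 2), 5, 1, 0), ((2, 1, 7), 0, 5, 3), ((3, 4, 6), 0, 2, 6),
    ((4, 3, 8), 2, 0, 4), ((5, 6, 10), 3, 6, 8), ((6, 3, 5), 6, 0, 3), ((7, 2, 9), 3, 0, 7),
    ((8, 0, 4), 4, 1, 2), ((9, 7, 10), 7, 3, 8), ((10, 5, 9), 8, 3, 7)]
  Tc := [(0, 1, 4)]
  Td := [((0, 1), (2, 1), 5), ((0, 1), (2, 7), 3), ((0, 1), (3, 4), 2), ((0, 1), (3, 6), 6), ((0,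
    4), (2, 1), 5), ((0, 4), (2, 7), 3), ((0, 4), (3, 4), 2), ((0, 4), (3, 6), 6), ((1, 0),
    (0, 1), 5), ((1, 0), (0, 8), 4), ((4, 0), (8, 0), 1), ((4, 0), (8, 4), 2)]
  G := [[0, 0xd1b16814b171c2146, 0, 0x712d18618d1b16814c, 0xd171a418b171c218c], [0,
    0x4191cb14618d12714a14a, 0, 0xf112e128f148d4f112f118a4c, 0xf112f11468f112f18468c], [0,
    0xb12d14a145181f1e8146, 0xf4124ffc12f8182fc1d81aec1, 0xf112f112f118e41,
    0xf114f112f114e81], [0, 0xd18b18618d18b14618a, 0xffc12ffc48a41, 0xf142f148a41,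
    0xf182f114681]]

noncomputable def n3064 : Ent := ⟨e3064, noF, [], [], [(8, 16, [7334685537875745012586738086077695515070955365108989538292687706214401, 0]), (16, 15, [7334790850167413569773436004105379185503274260204390087403942017196033, 0]), (17, 15, [6903537015784671890245461680740748765157398844539141476817538564190209, 0])]⟩

def c3064 : PLift (Cov.check n3064.C.D v3064 = true) := ⟨by decide +kernel⟩

def b3064 : PLift (entF (fidx ts) 400 3064 n3064 = true) := ⟨by decide +kernel⟩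

theorem g3064 : GoodF (fidx ts) 400 3064 := GoodF.ofV v3064 n3064 c3064.down b3064.down

/-- 4649644:2378/1 -/
noncomputable def e3065 : SCfg where
  D := {
    a := 7
    L := 10
    kp := 7
    inn := [(0, 1), (0, 3), (1, 0), (1, 2), (1, 3), (2, 1), (2, 3), (3, 0), (3, 1), (3, 2), (3, 4), (3,
      5), (4, 3), (4, 6), (5, 3), (6, 4)]
    mix := [(0, 0), (0, 1), (1, 0), (1, 2), (1, 3), (2, 2), (2, 4), (3, 1), (3, 4), (3, 5), (3, 6), (4,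
      1), (4, 5), (4, 7), (4, 8), (5, 5), (5, 6), (5, 9), (6, 0), (6, 1), (6, 7)]
    cl := [1, 0, 2, 6, 0, 0, 3, 4, 5, 7]
    chq := [(1, 2), (1, 5), (2, 1), (5, 1)]
    rng := [(0, 1), (0, 3), (0, 7), (1, 0), (2, 3), (2, 4), (3, 0), (3, 2), (4, 2), (4, 6), (5, 8), (5,
      9), (6, 4), (6, 9), (7, 0), (7, 8), (8, 5), (8, 7), (9, 5), (9, 6)]
    lev := [] }
  links := [[1, 7, 8, 3], [7, 0, 3, 2, 9, 10], [9, 1, 3, 11], [11, 2, 1, 0, 8, 4, 12, 5, 13], [12, 3, 8,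
    6, 14, 15], [13, 3, 12, 16], [14, 4, 8, 7]]
  P := {
    a := 7
    N := 17
    nb := [394, 1677, 2570, 14647, 53576, 77832, 16784, 17731, 217, 3078, 642, 8716, 98360, 67624,
      32976, 20496, 12320]
    tri := [(0, 1, 3), (0, 1, 7), (0, 3, 8), (0, 7, 8), (1, 2, 3), (1, 2, 9), (1, 7, 10), (1, 9, 10),
      (2, 3, 11), (2, 9, 11), (3, 4, 8), (3, 4, 12), (3, 5, 12), (3, 5, 13), (3, 11, 13), (4, 6,
      8), (4, 6, 14), (4, 12, 15), (4, 14, 15), (5, 12, 16), (5, 13, 16), (6, 7, 8), (6, 7, 14)]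
    fin := [0, 0, 0, 3, 0, 3, 0, 0, 3, 9, 10, 3, 3, 13, 14, 15, 16]
    chd := [(0, 9), (0, 15)]
    steps := [(0, 1), (0, 2), (0, 7), (0, 6), (3, 5), (3, 8), (0, 4), (3, 12), (3, 11)] }
  rep := [3, 0, 9, 13, 14, 15, 10, 16]

noncomputable def v3065 : Cov.CovD where
  P := 3
  N := 5
  pl := [3, 6, 7, 9]
  lev := [⟨[], [], [(0, 1)], [], [(0, 1, [2, 5]), (1, 0, [])]⟩,
    ⟨[], [(0, 0), (0, 1), (0, 2)], [(1, 2)], [6], [(0, 1, [2, 5]), (2, 2, [1])]⟩,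
    ⟨[(0, 1)], [(1, 0), (1, 1), (1, 2)], [(0, 2)], [], [(2, 2, [1]), (4, 0, [])]⟩,
    ⟨[(0, 1), (0, 2), (1, 2)], [(0, 0), (0, 1), (1, 0), (1, 1), (1, 2), (2, 0), (2, 2)],
      [(0, 0)], [3], [(1, 0, []), (4, 0, []), (5, 0, [])]⟩,
    ⟨[(0, 3), (1, 3), (2, 3)], [(0, 0), (3, 0), (3, 5)], [(0, 0), (0, 5)], [4], [(1, 0,
      []), (5, 0, []), (8, 5, [1])]⟩,
    ⟨[(0, 3), (1, 3), (2, 3), (3, 4)], [(3, 0), (4, 0)], [], [3, 7], [(5, 0, [])]⟩,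
    ⟨[(3, 4)], [(0, 0), (0, 1), (1, 1), (3, 0), (4, 0), (4, 1), (4, 5)], [(0, 1)], [4],
      [(0, 1, [2, 5]), (1, 0, [])]⟩]
  Ta := [((1, 0), 0, 1), ((4, 2), 0, 2), ((4, 6), 0, 3), ((5, 8), 0, 5), ((5, 9), 0, 7)]
  Tb := [((0, 1, 3), 1, 0, 6), ((0, 1, 7), 1, 0, 4), ((0, 3, 7), 1, 6, 4), ((2, 3, 4), 2, 6, 0),
    ((3, 0, 2), 6, 1, 2), ((4, 2, 6), 0, 2, 3), ((5, 8, 9), 0, 5, 7), ((6, 4, 9), 3, 0, 7),
    ((7, 0, 8), 4, 1, 5), ((8, 5, 7), 5, 0, 4), ((9, 5, 6), 7, 0, 3)]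
  Tc := [(1, 2, 5)]
  Td := [((1, 2), (0, 1), 0), ((1, 2), (0, 3), 6), ((1, 2), (0, 7), 4), ((1, 5), (0, 1), 0), ((1,
    5), (0, 3), 6), ((1, 5), (0, 7), 4), ((2, 1), (2, 3), 6), ((2, 1), (2, 4), 0), ((5, 1),
    (8, 5), 0), ((5, 1), (8, 7), 4)]
  G := [[0, 0x412168121a8141ce1614121e8141c1ea1c4, 0, 0xc12c12c4c12c12c292,
    0x4181c1e8141c1e6181c1681c1a8141ce298], [0, 0, 0x8181c1e8141c1e6841c1681c1a4141ce8c1,
    0xc12cc62c24c32c8cb2c8c1, 0x41811cce88a44a11e68182c16448b81cc6e8188ce289], [0, 0, 0,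
    0x596241c9a2819c62499a28cd2,
    0x48c185c1ee88a414e18e6441268a184c2688c88cccee88a444ec8ee189]]

noncomputable def n3065 : Ent := ⟨e3065, noF, [], [], []⟩

def c3065 : PLift (Cov.check n3065.C.D v3065 = true) := ⟨by decide +kernel⟩

def b3065 : PLift (entF (fidx ts) 400 3065 n3065 = true) := ⟨by decide +kernel⟩

theorem g3065 : GoodF (fidx ts) 400 3065 := GoodF.ofV v3065 n3065 c3065.down b3065.down

/-- 4649644:2378 -/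
noncomputable def e3066 : SCfg where
  D := {
    a := 7
    L := 11
    kp := 8
    inn := [(0, 1), (0, 3), (1, 0), (1, 2), (1, 3), (2, 1), (2, 3), (3, 0), (3, 1), (3, 2), (3, 4), (3,
      5), (4, 3), (4, 6), (5, 3), (6, 4)]
    mix := [(0, 0), (0, 1), (1, 0), (1, 2), (1, 3), (2, 2), (2, 4), (3, 1), (3, 4), (3, 5), (3, 6), (4,
      1), (4, 5), (4, 7), (4, 8), (5, 5), (5, 6), (5, 9), (6, 1), (6, 7), (6, 10)]
    cl := [3, 0, 1, 5, 0, 0, 2, 4, 6, 7, 8]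
    chq := [(0, 4), (1, 3), (3, 1), (4, 0)]
    rng := [(0, 1), (0, 3), (1, 0), (1, 10), (2, 3), (2, 4), (3, 0), (3, 2), (4, 2), (4, 6), (5, 8),
      (5, 9), (6, 4), (6, 9), (7, 8), (7, 10), (8, 5), (8, 7), (9, 5), (9, 6), (10, 1), (10, 7)]
    lev := [] }
  links := [[1, 7, 8, 3], [7, 0, 3, 2, 9, 10], [9, 1, 3, 11], [11, 2, 1, 0, 8, 4, 12, 5, 13], [12, 3, 8,
    6, 14, 15], [13, 3, 12, 16], [14, 4, 8, 17]]
  P := {
    a := 7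
    N := 18
    nb := [394, 1677, 2570, 14647, 53576, 77832, 147728, 1283, 131289, 3078, 642, 8716, 98360, 67624,
      163920, 20496, 12320, 16704]
    tri := [(0, 1, 3), (0, 1, 7), (0, 3, 8), (0, 7, 8), (1, 2, 3), (1, 2, 9), (1, 7, 10), (1, 9, 10),
      (2, 3, 11), (2, 9, 11), (3, 4, 8), (3, 4, 12), (3, 5, 12), (3, 5, 13), (3, 11, 13), (4, 6,
      8), (4, 6, 14), (4, 12, 15), (4, 14, 15), (5, 12, 16), (5, 13, 16), (6, 8, 17), (6, 14, 17)]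
    fin := [0, 0, 0, 3, 3, 3, 3, 0, 3, 9, 10, 3, 3, 13, 14, 15, 16, 17]
    chd := [(0, 9), (3, 14)]
    steps := [(0, 1), (0, 2), (0, 7), (3, 4), (3, 5), (3, 6), (3, 8), (3, 12), (3, 11)] }
  rep := [3, 9, 13, 0, 14, 10, 15, 16, 17]

noncomputable def v3066 : Cov.CovD where
  P := 3
  N := 6
  pl := [3, 6, 8, 9, 10]
  lev := [⟨[], [], [(0, 3)], [], [(0, 3, [1]), (1, 0, [4])]⟩,
    ⟨[], [(0, 0), (0, 1), (0, 3)], [(1, 3)], [5], [(0, 3, [1]), (2, 1, [3])]⟩,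
    ⟨[(0, 1)], [(1, 0), (1, 1), (1, 3)], [(0, 1)], [], [(2, 1, [3]), (4, 0, [4])]⟩,
    ⟨[(0, 1), (0, 2), (1, 2)], [(0, 0), (0, 3), (1, 0), (1, 1), (1, 3), (2, 0), (2, 1)],
      [(0, 0)], [2], [(1, 0, [4]), (4, 0, [4]), (5, 0, [4])]⟩,
    ⟨[(0, 3), (1, 3), (2, 3)], [(0, 0), (3, 0), (3, 4)], [(0, 0), (0, 4)], [6], [(1, 0,
      [4]), (5, 0, [4]), (7, 4, [0])]⟩,
    ⟨[(0, 3), (1, 3), (2, 3), (3, 4)], [(3, 0), (4, 0)], [], [2, 7], [(5, 0, [4])]⟩,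
    ⟨[(3, 4)], [(0, 0), (3, 0), (4, 0), (4, 4)], [(0, 4)], [8], [(1, 0, [4]), (7, 4, [0])]⟩]
  Ta := [((1, 0), 0, 3), ((1, 10), 0, 8), ((4, 2), 0, 1), ((4, 6), 0, 2), ((5, 8), 0, 6), ((5,
    9), 0, 7)]
  Tb := [((0, 1, 3), 3, 0, 5), ((1, 0, 10), 0, 3, 8), ((2, 3, 4), 1, 5, 0), ((3, 0, 2), 5, 3, 1),
    ((4, 2, 6), 0, 1, 2), ((5, 8, 9), 0, 6, 7), ((6, 4, 9), 2, 0, 7), ((7, 8, 10), 4, 6, 8),
    ((8, 5, 7), 6, 0, 4), ((9, 5, 6), 7, 0, 2), ((10, 1, 7), 8, 0, 4)]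
  Tc := []
  Td := [((0, 4), (1, 0), 3), ((0, 4), (1, 10), 8), ((0, 4), (4, 2), 1), ((0, 4), (4, 6), 2),
    ((0, 4), (5, 8), 6), ((0, 4), (5, 9), 7), ((1, 3), (2, 3), 5), ((1, 3), (2, 4), 0), ((3,
    1), (0, 1), 0), ((3, 1), (0, 3), 5), ((4, 0), (7, 8), 6), ((4, 0), (7, 10), 8)]
  G := [[0, 0, 0, 0xe14e1e1ac4e1e16e18c8e14e1e1ac8d2, 0xe1e1c1e218e12e1e1ca1421284e1e16e18a89e],
    [0, 0x111111e428111111e824111111e482e, 0x11611a11ce4811611c116e8411c11a11ce48d2,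
    0x319151e481171b1e84e19131e48d2, 0xe111d1e248317151e8451e1683188c5a], [0, 0, 0,
    0xe1cb818e4d4b468ce878a43415c94e891455c33ce1898c4d2,
    0x39a55a98e218b3a239a95aca143228112dbabeae188a49e]]

noncomputable def n3066 : Ent := ⟨e3066, noF, [], [], [(7, 17, [6903326391201334775872065844685381424292761054348340378595029942243329, 0])]⟩

def c3066 : PLift (Cov.check n3066.C.D v3066 = true) := ⟨by decide +kernel⟩

def b3066 : PLift (entF (fidx ts) 400 3066 n3066 = true) := ⟨by decide +kernel⟩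

theorem g3066 : GoodF (fidx ts) 400 3066 := GoodF.ofV v3066 n3066 c3066.down b3066.down

/-- 4649644:2379/1 -/
noncomputable def e3067 : SCfg where
  D := {
    a := 7
    L := 10
    kp := 7
    inn := [(0, 1), (0, 3), (1, 0), (1, 2), (1, 3), (2, 1), (2, 3), (3, 0), (3, 1), (3, 2), (3, 4), (3,
      5), (4, 3), (4, 6), (5, 3), (6, 4)]
    mix := [(0, 0), (0, 1), (1, 0), (1, 2), (1, 3), (2, 2), (2, 4), (3, 1), (3, 4), (3, 5), (3, 6), (4,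
      1), (4, 5), (4, 7), (4, 8), (5, 5), (5, 6), (5, 9), (6, 2), (6, 7), (6, 8)]
    cl := [2, 0, 1, 6, 0, 0, 5, 3, 4, 7]
    chq := [(1, 2), (2, 1), (3, 4), (4, 3)]
    rng := [(0, 1), (0, 3), (1, 0), (1, 7), (2, 3), (2, 4), (2, 7), (2, 8), (3, 0), (3, 2), (4, 2), (4,
      6), (5, 8), (5, 9), (6, 4), (6, 9), (7, 1), (7, 2), (8, 2), (8, 5), (9, 5), (9, 6)]
    lev := [] }
  links := [[1, 7, 8, 3], [7, 0, 3, 2, 9, 10], [9, 1, 3, 11], [11, 2, 1, 0, 8, 4, 12, 5, 13], [12, 3, 8,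
    14, 6, 15], [13, 3, 12, 16], [15, 4, 14, 9]]
  P := {
    a := 7
    N := 17
    nb := [394, 1677, 2570, 14647, 53576, 77832, 49680, 1283, 16537, 52294, 642, 8716, 98360, 67624,
      848, 4688, 12320]
    tri := [(0, 1, 3), (0, 1, 7), (0, 3, 8), (0, 7, 8), (1, 2, 3), (1, 2, 9), (1, 7, 10), (1, 9, 10),
      (2, 3, 11), (2, 9, 11), (3, 4, 8), (3, 4, 12), (3, 5, 12), (3, 5, 13), (3, 11, 13), (4, 6,
      14), (4, 6, 15), (4, 8, 14), (4, 12, 15), (5, 12, 16), (5, 13, 16), (6, 9, 14), (6, 9, 15)]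
    fin := [0, 0, 0, 3, 3, 3, 6, 0, 3, 9, 10, 3, 3, 13, 6, 15, 16]
    chd := [(0, 9), (6, 15)]
    steps := [(0, 1), (0, 2), (0, 7), (3, 4), (3, 5), (3, 8), (3, 12), (3, 11), (6, 14)] }
  rep := [3, 9, 0, 6, 15, 13, 10, 16]

noncomputable def v3067 : Cov.CovD where
  P := 3
  N := 5
  pl := [3, 6, 9]
  lev := [⟨[], [], [(0, 2)], [], [(0, 2, [1]), (1, 0, [])]⟩,
    ⟨[], [(0, 0), (0, 1), (0, 2)], [(1, 2)], [6], [(0, 2, [1]), (2, 1, [2])]⟩,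
    ⟨[(0, 1)], [(1, 0), (1, 1), (1, 2)], [(0, 1)], [], [(2, 1, [2]), (4, 0, [])]⟩,
    ⟨[(0, 1), (0, 2), (1, 2)], [(0, 0), (0, 2), (1, 0), (1, 1), (1, 2), (2, 0), (2, 1)],
      [(0, 0)], [5], [(1, 0, []), (4, 0, []), (5, 0, [])]⟩,
    ⟨[(0, 3), (1, 3), (2, 3)], [(0, 0), (3, 0), (3, 3), (3, 4)], [(0, 0), (0, 3), (0, 4),
      (3, 4)], [], [(1, 0, []), (5, 0, []), (7, 3, [4]), (8, 4, [3])]⟩,
    ⟨[(0, 3), (1, 3), (2, 3), (3, 4)], [(3, 0), (4, 0)], [], [5, 7], [(5, 0, [])]⟩,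
    ⟨[(3, 4)], [(1, 1), (2, 1), (4, 0), (4, 1), (4, 3), (4, 4)], [(1, 3), (1, 4), (3, 4)],
      [], [(2, 1, [2]), (7, 3, [4]), (8, 4, [3])]⟩]
  Ta := [((1, 0), 0, 2), ((1, 7), 0, 3), ((4, 2), 0, 1), ((4, 6), 0, 5), ((5, 8), 0, 4), ((5, 9),
    0, 7)]
  Tb := [((0, 1, 3), 2, 0, 6), ((1, 0, 7), 0, 2, 3), ((2, 3, 4), 1, 6, 0), ((2, 3, 7), 1, 6, 3),
    ((2, 3, 8), 1, 6, 4), ((2, 4, 7), 1, 0, 3), ((2, 4, 8), 1, 0, 4), ((2, 7, 8), 1, 3, 4),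
    ((3, 0, 2), 6, 2, 1), ((4, 2, 6), 0, 1, 5), ((5, 8, 9), 0, 4, 7), ((6, 4, 9), 5, 0, 7),
    ((7, 1, 2), 3, 0, 1), ((8, 2, 5), 4, 1, 0), ((9, 5, 6), 7, 0, 5)]
  Tc := []
  Td := [((1, 2), (2, 3), 6), ((1, 2), (2, 4), 0), ((1, 2), (2, 7), 3), ((1, 2), (2, 8), 4), ((2,
    1), (0, 1), 0), ((2, 1), (0, 3), 6), ((3, 4), (7, 1), 0), ((3, 4), (7, 2), 1), ((4, 3),
    (8, 2), 1), ((4, 3), (8, 5), 0)]
  G := [[0, 0, 0x1111a4114111111eac112811111ea1141c89c4, 0xd1281d1228d1242d4,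
    0x512814111e68111c45811151e814111e6898], [0, 0x412168121a8141ce4412168121a8141ce8c1, 0,
    0x11c21126811c2112a4c1, 0x114111ae881b11a144d4e411887111117e8111a11e6883], [0, 0, 0,
    0xdd6248d228d828cdd624dda28cd2,
    0x8812a888e44614e6411444c191ee8411412688c18551ee88a414e18ee18b]]

noncomputable def n3067 : Ent := ⟨e3067, noF, [], [], []⟩

def c3067 : PLift (Cov.check n3067.C.D v3067 = true) := ⟨by decide +kernel⟩

def b3067 : PLift (entF (fidx ts) 400 3067 n3067 = true) := ⟨by decide +kernel⟩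

theorem g3067 : GoodF (fidx ts) 400 3067 := GoodF.ofV v3067 n3067 c3067.down b3067.down

/-- 4649644:2379/2 -/
noncomputable def e3068 : SCfg where
  D := {
    a := 7
    L := 10
    kp := 7
    inn := [(0, 1), (0, 3), (1, 0), (1, 2), (1, 3), (2, 1), (2, 3), (3, 0), (3, 1), (3, 2), (3, 4), (3,
      5), (4, 3), (4, 6), (5, 3), (6, 4)]
    mix := [(0, 0), (0, 1), (1, 0), (1, 2), (1, 3), (2, 2), (2, 4), (3, 1), (3, 4), (3, 5), (3, 6), (4,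
      1), (4, 5), (4, 7), (4, 8), (5, 5), (5, 6), (5, 9), (6, 3), (6, 7), (6, 8)]
    cl := [1, 0, 3, 4, 0, 0, 2, 5, 6, 7]
    chq := [(0, 4), (1, 3), (3, 1), (4, 0)]
    rng := [(0, 1), (0, 3), (1, 0), (1, 7), (2, 3), (2, 4), (3, 0), (3, 2), (3, 7), (3, 8), (4, 2), (4,
      6), (5, 8), (5, 9), (6, 4), (6, 9), (7, 1), (7, 3), (8, 3), (8, 5), (9, 5), (9, 6)]
    lev := [] }
  links := [[1, 7, 8, 3], [7, 0, 3, 2, 9, 10], [9, 1, 3, 11], [11, 2, 1, 0, 8, 4, 12, 5, 13], [12, 3, 8,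
    14, 6, 15], [13, 3, 12, 16], [15, 4, 14, 10]]
  P := {
    a := 7
    N := 17
    nb := [394, 1677, 2570, 14647, 53576, 77832, 50192, 1283, 16537, 3078, 49858, 8716, 98360, 67624,
      1360, 5200, 12320]
    tri := [(0, 1, 3), (0, 1, 7), (0, 3, 8), (0, 7, 8), (1, 2, 3), (1, 2, 9), (1, 7, 10), (1, 9, 10),
      (2, 3, 11), (2, 9, 11), (3, 4, 8), (3, 4, 12), (3, 5, 12), (3, 5, 13), (3, 11, 13), (4, 6,
      14), (4, 6, 15), (4, 8, 14), (4, 12, 15), (5, 12, 16), (5, 13, 16), (6, 10, 14), (6, 10,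
      15)]
    fin := [0, 0, 0, 3, 3, 3, 3, 0, 3, 9, 10, 3, 3, 13, 14, 15, 16]
    chd := [(0, 9), (3, 10)]
    steps := [(0, 1), (0, 2), (0, 7), (3, 4), (3, 5), (3, 6), (3, 8), (3, 12), (3, 11)] }
  rep := [3, 0, 13, 9, 10, 14, 15, 16]

noncomputable def v3068 : Cov.CovD where
  P := 3
  N := 5
  pl := [6, 7, 8, 9]
  lev := [⟨[], [], [(0, 1)], [], [(0, 1, [3]), (1, 0, [4])]⟩,
    ⟨[], [(0, 0), (0, 1), (0, 3), (0, 4)], [(1, 3), (1, 4), (3, 4)], [], [(0, 1, [3]), (2,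
      3, [1]), (3, 4, [0])]⟩,
    ⟨[(0, 1)], [(1, 0), (1, 1), (1, 3), (1, 4)], [(0, 3)], [], [(2, 3, [1]), (4, 0, [4])]⟩,
    ⟨[(0, 1), (0, 2), (1, 2)], [(0, 0), (0, 1), (1, 0), (1, 1), (1, 3), (1, 4), (2, 0), (2,
      3)], [(0, 0)], [2], [(1, 0, [4]), (4, 0, [4]), (5, 0, [4])]⟩,
    ⟨[(0, 3), (1, 3), (2, 3)], [(0, 0), (3, 0)], [(0, 0)], [5, 6], [(1, 0, [4]), (5, 0,
      [4])]⟩,
    ⟨[(0, 3), (1, 3), (2, 3), (3, 4)], [(3, 0), (4, 0)], [], [2, 7], [(5, 0, [4])]⟩,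
    ⟨[(3, 4)], [(1, 4), (4, 0), (4, 4)], [], [5, 6], [(3, 4, [0])]⟩]
  Ta := [((1, 0), 0, 1), ((1, 7), 0, 5), ((4, 2), 0, 3), ((4, 6), 0, 2), ((5, 8), 0, 6), ((5, 9),
    0, 7)]
  Tb := [((0, 1, 3), 1, 0, 4), ((1, 0, 7), 0, 1, 5), ((2, 3, 4), 3, 4, 0), ((3, 0, 2), 4, 1, 3),
    ((3, 0, 7), 4, 1, 5), ((3, 0, 8), 4, 1, 6), ((3, 2, 7), 4, 3, 5), ((3, 2, 8), 4, 3, 6),
    ((3, 7, 8), 4, 5, 6), ((4, 2, 6), 0, 3, 2), ((5, 8, 9), 0, 6, 7), ((6, 4, 9), 2, 0, 7),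
    ((7, 1, 3), 5, 0, 4), ((8, 3, 5), 6, 4, 0), ((9, 5, 6), 7, 0, 2)]
  Tc := []
  Td := [((0, 4), (1, 0), 1), ((0, 4), (1, 7), 5), ((0, 4), (4, 2), 3), ((0, 4), (4, 6), 2), ((0,
    4), (5, 8), 6), ((0, 4), (5, 9), 7), ((1, 3), (0, 1), 0), ((1, 3), (0, 3), 4), ((3, 1),
    (2, 3), 4), ((3, 1), (2, 4), 0), ((4, 0), (3, 0), 1), ((4, 0), (3, 2), 3), ((4, 0), (3,
    7), 5), ((4, 0), (3, 8), 6)]
  G := [[0, 0x811111e48114111e84111121e81e2, 0, 0x5149131ac218, 0x918251316918aa18], [0, 0,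
    0x11611a116e4218, 0x111111e424141111ac2111121e42d8, 0x111111e821111111e28111111e82c5],
    [0, 0, 0, 0x5454d9c1873cec218, 0x98a82125da3bae9898a614]]

noncomputable def n3068 : Ent := ⟨e3068, noF, [], [], []⟩

def c3068 : PLift (Cov.check n3068.C.D v3068 = true) := ⟨by decide +kernel⟩

def b3068 : PLift (entF (fidx ts) 400 3068 n3068 = true) := ⟨by decide +kernel⟩

theorem g3068 : GoodF (fidx ts) 400 3068 := GoodF.ofV v3068 n3068 c3068.down b3068.down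

/-- 4649644:2379 -/
noncomputable def e3069 : SCfg where
  D := {
    a := 7
    L := 11
    kp := 8
    inn := [(0, 1), (0, 3), (1, 0), (1, 2), (1, 3), (2, 1), (2, 3), (3, 0), (3, 1), (3, 2), (3, 4), (3,
      5), (4, 3), (4, 6), (5, 3), (6, 4)]
    mix := [(0, 0), (0, 1), (1, 0), (1, 2), (1, 3), (2, 2), (2, 4), (3, 1), (3, 4), (3, 5), (3, 6), (4,
      1), (4, 5), (4, 7), (4, 8), (5, 5), (5, 6), (5, 9), (6, 7), (6, 8), (6, 10)]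
    cl := [1, 0, 2, 6, 0, 0, 5, 3, 4, 7, 8]
    chq := [(0, 6), (3, 4), (4, 3), (6, 0)]
    rng := [(0, 1), (0, 3), (1, 0), (1, 7), (2, 3), (2, 4), (3, 0), (3, 2), (4, 2), (4, 6), (5, 8), (5,
      9), (6, 4), (6, 9), (7, 1), (7, 10), (8, 5), (8, 10), (9, 5), (9, 6), (10, 7), (10, 8)]
    lev := [] }
  links := [[1, 7, 8, 3], [7, 0, 3, 2, 9, 10], [9, 1, 3, 11], [11, 2, 1, 0, 8, 4, 12, 5, 13], [12, 3, 8,
    14, 6, 15], [13, 3, 12, 16], [15, 4, 14, 17]]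
  P := {
    a := 7
    N := 18
    nb := [394, 1677, 2570, 14647, 53576, 77832, 180240, 1283, 16537, 3078, 642, 8716, 98360, 67624,
      131408, 135248, 12320, 49216]
    tri := [(0, 1, 3), (0, 1, 7), (0, 3, 8), (0, 7, 8), (1, 2, 3), (1, 2, 9), (1, 7, 10), (1, 9, 10),
      (2, 3, 11), (2, 9, 11), (3, 4, 8), (3, 4, 12), (3, 5, 12), (3, 5, 13), (3, 11, 13), (4, 6,
      14), (4, 6, 15), (4, 8, 14), (4, 12, 15), (5, 12, 16), (5, 13, 16), (6, 14, 17), (6, 15,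
      17)]
    fin := [0, 1, 1, 1, 1, 1, 6, 0, 1, 9, 10, 1, 1, 13, 6, 15, 16, 17]
    chd := [(1, 10), (6, 15)]
    steps := [(0, 7), (1, 2), (1, 3), (1, 4), (1, 5), (1, 8), (1, 12), (1, 11), (6, 14)] }
  rep := [1, 0, 9, 6, 15, 13, 10, 16, 17]

noncomputable def v3069 : Cov.CovD where
  P := 3
  N := 6
  pl := [0, 2, 6, 9, 10]
  lev := [⟨[], [], [], [1], [(1, 0, [6])]⟩,
    ⟨[], [(0, 0), (0, 6)], [], [1, 2], [(3, 6, [0])]⟩,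
    ⟨[(0, 1)], [(1, 0), (1, 6)], [], [2], [(4, 0, [6])]⟩,
    ⟨[(0, 1), (0, 2), (1, 2)], [(0, 0), (1, 0), (1, 6), (2, 0)], [(0, 0)], [5], [(1, 0,
      [6]), (4, 0, [6]), (5, 0, [6])]⟩,
    ⟨[(0, 3), (1, 3), (2, 3)], [(0, 0), (3, 0), (3, 3), (3, 4)], [(0, 0), (0, 3), (0, 4),
      (3, 4)], [], [(1, 0, [6]), (5, 0, [6]), (7, 3, [4]), (8, 4, [3])]⟩,
    ⟨[(0, 3), (1, 3), (2, 3), (3, 4)], [(3, 0), (4, 0)], [], [5, 7], [(5, 0, [6])]⟩,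
    ⟨[(3, 4)], [(4, 0), (4, 3), (4, 4)], [(3, 4)], [8], [(7, 3, [4]), (8, 4, [3])]⟩]
  Ta := [((1, 0), 0, 1), ((1, 7), 0, 3), ((4, 2), 0, 2), ((4, 6), 0, 5), ((5, 8), 0, 4), ((5, 9),
    0, 7)]
  Tb := [((0, 1, 3), 1, 0, 6), ((1, 0, 7), 0, 1, 3), ((2, 3, 4), 2, 6, 0), ((3, 0, 2), 6, 1, 2),
    ((4, 2, 6), 0, 2, 5), ((5, 8, 9), 0, 4, 7), ((6, 4, 9), 5, 0, 7), ((7, 1, 10), 3, 0, 8),
    ((8, 5, 10), 4, 0, 8), ((9, 5, 6), 7, 0, 5), ((10, 7, 8), 8, 3, 4)]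
  Tc := []
  Td := [((0, 6), (1, 0), 1), ((0, 6), (1, 7), 3), ((0, 6), (4, 2), 2), ((0, 6), (4, 6), 5), ((0,
    6), (5, 8), 4), ((0, 6), (5, 9), 7), ((3, 4), (7, 1), 0), ((3, 4), (7, 10), 8), ((4, 3),
    (8, 5), 0), ((4, 3), (8, 10), 8), ((6, 0), (3, 0), 1), ((6, 0), (3, 2), 2)]
  G := [[0, 0x513169131a9151ce4115131e8131a9151ce1c2, 0, 0x513169131a9151ce418,
    0x513169131a9151ce218], [0, 0, 0x513169131a9151ce25149151ca1131a8ac8131a4845,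
    0x5131691232ba99a55614ee418, 0x513356999339a993556ce814], [0, 0, 0,
    0x99c336a99a556c68155c33a6841c, 0x99c336a99a556c63228a155c386821c]]

noncomputable def n3069 : Ent := ⟨e3069, noF, [], [], [(17, 9, [6903326391201334775872066023091343012537746186634086559781921990094849, 0]), (17, 10, [6903326391201334775872705251651713694319475166462653752416129412743169, 0])]⟩

def c3069 : PLift (Cov.check n3069.C.D v3069 = true) := ⟨by decide +kernel⟩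

def b3069 : PLift (entF (fidx ts) 400 3069 n3069 = true) := ⟨by decide +kernel⟩

theorem g3069 : GoodF (fidx ts) 400 3069 := GoodF.ofV v3069 n3069 c3069.down b3069.down

/-- 4649644:2380/1 -/
noncomputable def e3070 : SCfg where
  D := {
    a := 7
    L := 10
    kp := 7
    inn := [(0, 1), (0, 3), (1, 0), (1, 2), (1, 3), (2, 1), (2, 3), (3, 0), (3, 1), (3, 2), (3, 4), (3,
      5), (4, 3), (4, 6), (5, 3), (6, 4)]
    mix := [(0, 0), (0, 1), (1, 0), (1, 2), (1, 3), (2, 2), (2, 4), (3, 1), (3, 4), (3, 5), (3, 6), (4,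
      1), (4, 5), (4, 7), (4, 8), (5, 5), (5, 6), (5, 9), (6, 5), (6, 8), (6, 9)]
    cl := [1, 0, 3, 6, 0, 0, 2, 7, 4, 5]
    chq := [(0, 4), (1, 3), (3, 1), (4, 0)]
    rng := [(0, 1), (0, 3), (1, 0), (1, 7), (2, 3), (2, 4), (3, 0), (3, 2), (4, 2), (4, 6), (5, 9), (6,
      4), (6, 9), (7, 1), (7, 8), (8, 7), (8, 9), (9, 5), (9, 6), (9, 8)]
    lev := [] }
  links := [[1, 7, 8, 3], [7, 0, 3, 2, 9, 10], [9, 1, 3, 11], [11, 2, 1, 0, 8, 4, 12, 5, 13], [12, 3, 8,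
    14, 15, 6], [13, 3, 12, 16], [12, 4, 15, 16]]
  P := {
    a := 7
    N := 17
    nb := [394, 1677, 2570, 14647, 53576, 77832, 102416, 1283, 16537, 3078, 642, 8716, 65656, 67624,
      33040, 82000, 45152]
    tri := [(0, 1, 3), (0, 1, 7), (0, 3, 8), (0, 7, 8), (1, 2, 3), (1, 2, 9), (1, 7, 10), (1, 9, 10),
      (2, 3, 11), (2, 9, 11), (3, 4, 8), (3, 4, 12), (3, 5, 12), (3, 5, 13), (3, 11, 13), (4, 6,
      12), (4, 6, 15), (4, 8, 14), (4, 14, 15), (5, 12, 16), (5, 13, 16), (6, 12, 16), (6, 15,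
      16)]
    fin := [0, 0, 0, 3, 3, 3, 3, 0, 3, 9, 10, 3, 3, 13, 14, 15, 16]
    chd := [(0, 9), (3, 15)]
    steps := [(0, 1), (0, 2), (0, 7), (3, 4), (3, 5), (3, 8), (3, 12), (3, 6), (3, 11)] }
  rep := [3, 0, 13, 9, 15, 16, 10, 14]

noncomputable def v3070 : Cov.CovD where
  P := 3
  N := 5
  pl := [3, 6, 7, 9]
  lev := [⟨[], [], [(0, 1)], [], [(0, 1, [3]), (1, 0, [4])]⟩,
    ⟨[], [(0, 0), (0, 1), (0, 3)], [(1, 3)], [6], [(0, 1, [3]), (2, 3, [1])]⟩,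
    ⟨[(0, 1)], [(1, 0), (1, 1), (1, 3)], [(0, 3)], [], [(2, 3, [1]), (4, 0, [4])]⟩,
    ⟨[(0, 1), (0, 2), (1, 2)], [(0, 0), (0, 1), (1, 0), (1, 1), (1, 3), (2, 0), (2, 3)],
      [(0, 0)], [2], [(1, 0, [4]), (4, 0, [4]), (5, 0, [4])]⟩,
    ⟨[(0, 3), (1, 3), (2, 3)], [(0, 0), (3, 0), (3, 4)], [(0, 0), (0, 4)], [7], [(1, 0,
      [4]), (5, 0, [4]), (8, 4, [0])]⟩,
    ⟨[(0, 3), (1, 3), (2, 3), (3, 4)], [(3, 0), (4, 0)], [], [2, 5], [(5, 0, [4])]⟩,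
    ⟨[(3, 4)], [(3, 0), (4, 0), (4, 4), (5, 0)], [(0, 4)], [5], [(5, 0, [4]), (8, 4, [0])]⟩]
  Ta := [((1, 0), 0, 1), ((1, 7), 0, 7), ((4, 2), 0, 3), ((4, 6), 0, 2), ((5, 9), 0, 5)]
  Tb := [((0, 1, 3), 1, 0, 6), ((1, 0, 7), 0, 1, 7), ((2, 3, 4), 3, 6, 0), ((3, 0, 2), 6, 1, 3),
    ((4, 2, 6), 0, 3, 2), ((6, 4, 9), 2, 0, 5), ((7, 1, 8), 7, 0, 4), ((8, 7, 9), 4, 7, 5),
    ((9, 5, 6), 5, 0, 2), ((9, 5, 8), 5, 0, 4), ((9, 6, 8), 5, 2, 4)]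
  Tc := []
  Td := [((0, 4), (1, 0), 1), ((0, 4), (1, 7), 7), ((0, 4), (4, 2), 3), ((0, 4), (4, 6), 2), ((0,
    4), (5, 9), 5), ((1, 3), (0, 1), 0), ((1, 3), (0, 3), 6), ((3, 1), (2, 3), 6), ((3, 1),
    (2, 4), 0), ((4, 0), (8, 7), 7), ((4, 0), (8, 9), 5)]
  G := [[0, 0xe118125e4414891411c129e188c111c11c681c8c1e2, 0,
    0xe1a1129e42e11256e18c1e1e1611c8c2d414818c, 0x143e16e18a1e12e1e1ca11214312ae818a2d4], [0,
    0, 0x11c14c11ce2811611a11ae8211611a116e82d4, 0x11c4e1e1ac21e1481ce1ac214e112ce888c2c5,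
    0xe12e1149ca4e1e16e18a25183143849e21228a8c], [0, 0, 0,
    0x44e468828ac144486ca82ecec254464686ca8a8ec164a8c84c9,
    0x22286ac6ac8ea1c6ac2a686a8a162c6ac2ae888a2d4]]

noncomputable def n3070 : Ent := ⟨e3070, noF, [], [], []⟩

def c3070 : PLift (Cov.check n3070.C.D v3070 = true) := ⟨by decide +kernel⟩

def b3070 : PLift (entF (fidx ts) 400 3070 n3070 = true) := ⟨by decide +kernel⟩

theorem g3070 : GoodF (fidx ts) 400 3070 := GoodF.ofV v3070 n3070 c3070.down b3070.down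

/-- 4649644:2380 -/
noncomputable def e3071 : SCfg where
  D := {
    a := 7
    L := 11
    kp := 8
    inn := [(0, 1), (0, 3), (1, 0), (1, 2), (1, 3), (2, 1), (2, 3), (3, 0), (3, 1), (3, 2), (3, 4), (3,
      5), (4, 3), (4, 6), (5, 3), (6, 4)]
    mix := [(0, 0), (0, 1), (1, 0), (1, 2), (1, 3), (2, 2), (2, 4), (3, 1), (3, 4), (3, 5), (3, 6), (4,
      1), (4, 5), (4, 7), (4, 8), (5, 5), (5, 6), (5, 9), (6, 5), (6, 8), (6, 10)]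
    cl := [1, 0, 2, 5, 0, 0, 4, 6, 3, 7, 8]
    chq := [(0, 3), (0, 5), (3, 0), (5, 0)]
    rng := [(0, 1), (0, 3), (1, 0), (1, 7), (2, 3), (2, 4), (3, 0), (3, 2), (4, 2), (4, 6), (5, 9), (5,
      10), (6, 4), (6, 9), (7, 1), (7, 8), (8, 7), (8, 10), (9, 5), (9, 6), (10, 5), (10, 8)]
    lev := [] }
  links := [[1, 7, 8, 3], [7, 0, 3, 2, 9, 10], [9, 1, 3, 11], [11, 2, 1, 0, 8, 4, 12, 5, 13], [12, 3, 8,
    14, 15, 6], [13, 3, 12, 16], [12, 4, 15, 17]]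
  P := {
    a := 7
    N := 18
    nb := [394, 1677, 2570, 14647, 53576, 77832, 167952, 1283, 16537, 3078, 642, 8716, 196728, 67624,
      33040, 147536, 12320, 36928]
    tri := [(0, 1, 3), (0, 1, 7), (0, 3, 8), (0, 7, 8), (1, 2, 3), (1, 2, 9), (1, 7, 10), (1, 9, 10),
      (2, 3, 11), (2, 9, 11), (3, 4, 8), (3, 4, 12), (3, 5, 12), (3, 5, 13), (3, 11, 13), (4, 6,
      12), (4, 6, 15), (4, 8, 14), (4, 14, 15), (5, 12, 16), (5, 13, 16), (6, 12, 17), (6, 15,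
      17)]
    fin := [0, 1, 1, 1, 1, 1, 1, 0, 1, 9, 10, 1, 1, 13, 14, 15, 16, 17]
    chd := [(1, 10), (1, 15)]
    steps := [(0, 7), (1, 2), (1, 3), (1, 4), (1, 5), (1, 6), (1, 8), (1, 12), (1, 11)] }
  rep := [1, 0, 9, 15, 13, 10, 14, 16, 17]

noncomputable def v3071 : Cov.CovD where
  P := 3
  N := 6
  pl := [0, 2, 6, 7, 9, 10]
  lev := [⟨[], [], [], [1], [(1, 0, [3, 5])]⟩,
    ⟨[], [(0, 0), (0, 5)], [], [1, 2], [(3, 5, [0])]⟩,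
    ⟨[(0, 1)], [(1, 0), (1, 5)], [], [2], [(4, 0, [3, 5])]⟩,
    ⟨[(0, 1), (0, 2), (1, 2)], [(0, 0), (1, 0), (1, 5), (2, 0)], [(0, 0)], [4], [(1, 0, [3,
      5]), (4, 0, [3, 5]), (5, 0, [3, 5])]⟩,
    ⟨[(0, 3), (1, 3), (2, 3)], [(0, 0), (3, 0), (3, 3)], [(0, 0), (0, 3)], [6], [(1, 0, [3,
      5]), (5, 0, [3, 5]), (8, 3, [0])]⟩,
    ⟨[(0, 3), (1, 3), (2, 3), (3, 4)], [(3, 0), (4, 0)], [], [4, 7], [(5, 0, [3, 5])]⟩,
    ⟨[(3, 4)], [(3, 0), (4, 0), (4, 3), (5, 0)], [(0, 3)], [8], [(5, 0, [3, 5]), (8, 3,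
      [0])]⟩]
  Ta := [((1, 0), 0, 1), ((1, 7), 0, 6), ((4, 2), 0, 2), ((4, 6), 0, 4), ((5, 9), 0, 7), ((5,
    10), 0, 8)]
  Tb := [((0, 1, 3), 1, 0, 5), ((1, 0, 7), 0, 1, 6), ((2, 3, 4), 2, 5, 0), ((3, 0, 2), 5, 1, 2),
    ((4, 2, 6), 0, 2, 4), ((5, 9, 10), 0, 7, 8), ((6, 4, 9), 4, 0, 7), ((7, 1, 8), 6, 0, 3),
    ((8, 7, 10), 3, 6, 8), ((9, 5, 6), 7, 0, 4), ((10, 5, 8), 8, 0, 3)]
  Tc := [(0, 3, 5)]
  Td := [((0, 3), (1, 0), 1), ((0, 3), (1, 7), 6), ((0, 3), (4, 2), 2), ((0, 3), (4, 6), 4), ((0,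
    3), (5, 9), 7), ((0, 3), (5, 10), 8), ((0, 5), (1, 0), 1), ((0, 5), (1, 7), 6), ((0, 5),
    (4, 2), 2), ((0, 5), (4, 6), 4), ((0, 5), (5, 9), 7), ((0, 5), (5, 10), 8), ((3, 0), (8,
    7), 6), ((3, 0), (8, 10), 8), ((5, 0), (3, 0), 1), ((5, 0), (3, 2), 2)]
  G := [[0, 0xe1e1611ce1ae1e1ce118e1a414e111aee1e1cacc2, 0, 0xe1e16e1e1a11a116ce814,
    0xe1e16e1e1ae1e1ce814], [0, 0, 0xe1e16e112ae111614ee4e1e1a412e111ae18e1cacc1,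
    0xe1e1a416311c11ae18e1cac14, 0xe1e161e592536e1e994ce218], [0, 0, 0,
    0xeecee6aeeaee6c681eeceea6841c, 0xeecee6aeeaee6c681eeceea6821c]]

noncomputable def n3071 : Ent := ⟨e3071, noF, [], [], [(17, 16, [7334685537875745012586738086077695515070955365108989538292687706251265, 0])]⟩

def c3071 : PLift (Cov.check n3071.C.D v3071 = true) := ⟨by decide +kernel⟩

def b3071 : PLift (entF (fidx ts) 400 3071 n3071 = true) := ⟨by decide +kernel⟩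

theorem g3071 : GoodF (fidx ts) 400 3071 := GoodF.ofV v3071 n3071 c3071.down b3071.down

/-- 4649644:2381/1 -/
noncomputable def e3072 : SCfg where
  D := {
    a := 7
    L := 10
    kp := 7
    inn := [(0, 1), (0, 3), (1, 0), (1, 2), (1, 3), (2, 1), (2, 3), (3, 0), (3, 1), (3, 2), (3, 4), (3,
      5), (4, 3), (4, 6), (5, 3), (6, 4)]
    mix := [(0, 0), (0, 1), (1, 0), (1, 2), (1, 3), (2, 2), (2, 4), (3, 1), (3, 4), (3, 5), (3, 6), (4,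
      1), (4, 5), (4, 7), (4, 8), (5, 4), (5, 6), (5, 9), (6, 0), (6, 1), (6, 7)]
    cl := [1, 0, 3, 6, 0, 0, 2, 4, 5, 7]
    chq := [(1, 3), (1, 5), (3, 1), (5, 1)]
    rng := [(0, 1), (0, 3), (0, 7), (1, 0), (2, 3), (2, 4), (3, 0), (3, 2), (4, 2), (4, 9), (5, 6), (5,
      8), (6, 5), (6, 9), (7, 0), (7, 8), (8, 5), (8, 7), (9, 4), (9, 6)]
    lev := [] }
  links := [[1, 7, 8, 3], [7, 0, 3, 2, 9, 10], [9, 1, 3, 11], [11, 2, 1, 0, 8, 4, 12, 13, 5], [12, 3, 8,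
    6, 14, 15], [11, 3, 13, 16], [14, 4, 8, 7]]
  P := {
    a := 7
    N := 17
    nb := [394, 1677, 2570, 14647, 53576, 75784, 16784, 17731, 217, 3078, 642, 66092, 40984, 69672,
      32976, 20496, 10272]
    tri := [(0, 1, 3), (0, 1, 7), (0, 3, 8), (0, 7, 8), (1, 2, 3), (1, 2, 9), (1, 7, 10), (1, 9, 10),
      (2, 3, 11), (2, 9, 11), (3, 4, 8), (3, 4, 12), (3, 5, 11), (3, 5, 13), (3, 12, 13), (4, 6,
      8), (4, 6, 14), (4, 12, 15), (4, 14, 15), (5, 11, 16), (5, 13, 16), (6, 7, 8), (6, 7, 14)]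
    fin := [0, 0, 0, 3, 0, 3, 0, 0, 3, 9, 10, 3, 3, 13, 14, 15, 16]
    chd := [(0, 9), (0, 15)]
    steps := [(0, 1), (0, 2), (0, 7), (0, 6), (3, 5), (3, 8), (0, 4), (3, 12), (3, 11)] }
  rep := [3, 0, 13, 9, 14, 15, 10, 16]

noncomputable def v3072 : Cov.CovD where
  P := 3
  N := 5
  pl := [3, 6, 7, 9]
  lev := [⟨[], [], [(0, 1)], [], [(0, 1, [3, 5]), (1, 0, [])]⟩,
    ⟨[], [(0, 0), (0, 1), (0, 3)], [(1, 3)], [6], [(0, 1, [3, 5]), (2, 3, [1])]⟩,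
    ⟨[(0, 1)], [(1, 0), (1, 1), (1, 3)], [(0, 3)], [], [(2, 3, [1]), (4, 0, [])]⟩,
    ⟨[(0, 1), (0, 2), (1, 2)], [(0, 0), (0, 1), (1, 0), (1, 1), (1, 3), (2, 0), (2, 3)],
      [(0, 0)], [2], [(1, 0, []), (4, 0, []), (5, 0, [])]⟩,
    ⟨[(0, 3), (1, 3), (2, 3)], [(0, 0), (3, 0), (3, 5)], [(0, 0), (0, 5)], [4], [(1, 0,
      []), (5, 0, []), (8, 5, [1])]⟩,
    ⟨[(0, 3), (1, 3), (2, 3), (3, 4)], [(2, 0), (3, 0)], [], [2, 7], [(4, 0, [])]⟩,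
    ⟨[(3, 4)], [(0, 0), (0, 1), (1, 1), (3, 0), (4, 0), (4, 1), (4, 5)], [(0, 1)], [4],
      [(0, 1, [3, 5]), (1, 0, [])]⟩]
  Ta := [((1, 0), 0, 1), ((4, 2), 0, 3), ((4, 9), 0, 7), ((5, 6), 0, 2), ((5, 8), 0, 5)]
  Tb := [((0, 1, 3), 1, 0, 6), ((0, 1, 7), 1, 0, 4), ((0, 3, 7), 1, 6, 4), ((2, 3, 4), 3, 6, 0),
    ((3, 0, 2), 6, 1, 3), ((4, 2, 9), 0, 3, 7), ((5, 6, 8), 0, 2, 5), ((6, 5, 9), 2, 0, 7),
    ((7, 0, 8), 4, 1, 5), ((8, 5, 7), 5, 0, 4), ((9, 4, 6), 7, 0, 2)]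
  Tc := [(1, 3, 5)]
  Td := [((1, 3), (0, 1), 0), ((1, 3), (0, 3), 6), ((1, 3), (0, 7), 4), ((1, 5), (0, 1), 0), ((1,
    5), (0, 3), 6), ((1, 5), (0, 7), 4), ((3, 1), (2, 3), 6), ((3, 1), (2, 4), 0), ((5, 1),
    (8, 5), 0), ((5, 1), (8, 7), 4)]
  G := [[0, 0x41216818c2281a121e48614121e84c6, 0, 0x8181c1e4241c16818c28181c1e42d8,
    0x81c16418a24141c1e824181c1e82d4], [0, 0, 0,
    0x18c18c424884284c4644c8818ec2d44146c82c21441c1cce82cc,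
    0x88a44a18e21228a1214ac5ae488a24214a91ae188a2d4], [0, 0,
    0x44c88a11ae42486116644a8c118c11a95ae42d8, 0x41116818c21111c1e82418111e82d4,
    0x41116818a24141c1e82111191e82d4]]

noncomputable def n3072 : Ent := ⟨e3072, noF, [], [], []⟩

def c3072 : PLift (Cov.check n3072.C.D v3072 = true) := ⟨by decide +kernel⟩

def b3072 : PLift (entF (fidx ts) 400 3072 n3072 = true) := ⟨by decide +kernel⟩

theorem g3072 : GoodF (fidx ts) 400 3072 := GoodF.ofV v3072 n3072 c3072.down b3072.down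

/-- 4649644:2381 -/
noncomputable def e3073 : SCfg where
  D := {
    a := 7
    L := 11
    kp := 8
    inn := [(0, 1), (0, 3), (1, 0), (1, 2), (1, 3), (2, 1), (2, 3), (3, 0), (3, 1), (3, 2), (3, 4), (3,
      5), (4, 3), (4, 6), (5, 3), (6, 4)]
    mix := [(0, 0), (0, 1), (1, 0), (1, 2), (1, 3), (2, 2), (2, 4), (3, 1), (3, 4), (3, 5), (3, 6), (4,
      1), (4, 5), (4, 7), (4, 8), (5, 4), (5, 6), (5, 9), (6, 1), (6, 7), (6, 10)]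
    cl := [1, 0, 3, 5, 0, 0, 2, 4, 6, 7, 8]
    chq := [(0, 4), (1, 3), (3, 1), (4, 0)]
    rng := [(0, 1), (0, 3), (1, 0), (1, 10), (2, 3), (2, 4), (3, 0), (3, 2), (4, 2), (4, 9), (5, 6),
      (5, 8), (6, 5), (6, 9), (7, 8), (7, 10), (8, 5), (8, 7), (9, 4), (9, 6), (10, 1), (10, 7)]
    lev := [] }
  links := [[1, 7, 8, 3], [7, 0, 3, 2, 9, 10], [9, 1, 3, 11], [11, 2, 1, 0, 8, 4, 12, 13, 5], [12, 3, 8,
    6, 14, 15], [11, 3, 13, 16], [14, 4, 8, 17]]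
  P := {
    a := 7
    N := 18
    nb := [394, 1677, 2570, 14647, 53576, 75784, 147728, 1283, 131289, 3078, 642, 66092, 40984, 69672,
      163920, 20496, 10272, 16704]
    tri := [(0, 1, 3), (0, 1, 7), (0, 3, 8), (0, 7, 8), (1, 2, 3), (1, 2, 9), (1, 7, 10), (1, 9, 10),
      (2, 3, 11), (2, 9, 11), (3, 4, 8), (3, 4, 12), (3, 5, 11), (3, 5, 13), (3, 12, 13), (4, 6,
      8), (4, 6, 14), (4, 12, 15), (4, 14, 15), (5, 11, 16), (5, 13, 16), (6, 8, 17), (6, 14, 17)]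
    fin := [0, 0, 0, 3, 3, 3, 3, 0, 3, 9, 10, 3, 3, 13, 14, 15, 16, 17]
    chd := [(0, 9), (3, 14)]
    steps := [(0, 1), (0, 2), (0, 7), (3, 4), (3, 5), (3, 6), (3, 8), (3, 12), (3, 11)] }
  rep := [3, 0, 13, 9, 14, 10, 15, 16, 17]

noncomputable def v3073 : Cov.CovD where
  P := 3
  N := 6
  pl := [3, 6, 8, 9, 10]
  lev := [⟨[], [], [(0, 1)], [], [(0, 1, [3]), (1, 0, [4])]⟩,
    ⟨[], [(0, 0), (0, 1), (0, 3)], [(1, 3)], [5], [(0, 1, [3]), (2, 3, [1])]⟩,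
    ⟨[(0, 1)], [(1, 0), (1, 1), (1, 3)], [(0, 3)], [], [(2, 3, [1]), (4, 0, [4])]⟩,
    ⟨[(0, 1), (0, 2), (1, 2)], [(0, 0), (0, 1), (1, 0), (1, 1), (1, 3), (2, 0), (2, 3)],
      [(0, 0)], [2], [(1, 0, [4]), (4, 0, [4]), (5, 0, [4])]⟩,
    ⟨[(0, 3), (1, 3), (2, 3)], [(0, 0), (3, 0), (3, 4)], [(0, 0), (0, 4)], [6], [(1, 0,
      [4]), (5, 0, [4]), (7, 4, [0])]⟩,
    ⟨[(0, 3), (1, 3), (2, 3), (3, 4)], [(2, 0), (3, 0)], [], [2, 7], [(4, 0, [4])]⟩,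
    ⟨[(3, 4)], [(0, 0), (3, 0), (4, 0), (4, 4)], [(0, 4)], [8], [(1, 0, [4]), (7, 4, [0])]⟩]
  Ta := [((1, 0), 0, 1), ((1, 10), 0, 8), ((4, 2), 0, 3), ((4, 9), 0, 7), ((5, 6), 0, 2), ((5,
    8), 0, 6)]
  Tb := [((0, 1, 3), 1, 0, 5), ((1, 0, 10), 0, 1, 8), ((2, 3, 4), 3, 5, 0), ((3, 0, 2), 5, 1, 3),
    ((4, 2, 9), 0, 3, 7), ((5, 6, 8), 0, 2, 6), ((6, 5, 9), 2, 0, 7), ((7, 8, 10), 4, 6, 8),
    ((8, 5, 7), 6, 0, 4), ((9, 4, 6), 7, 0, 2), ((10, 1, 7), 8, 0, 4)]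
  Tc := []
  Td := [((0, 4), (1, 0), 1), ((0, 4), (1, 10), 8), ((0, 4), (4, 2), 3), ((0, 4), (4, 9), 7),
    ((0, 4), (5, 6), 2), ((0, 4), (5, 8), 6), ((1, 3), (0, 1), 0), ((1, 3), (0, 3), 5), ((3,
    1), (2, 3), 5), ((3, 1), (2, 4), 0), ((4, 0), (7, 8), 6), ((4, 0), (7, 10), 8)]
  G := [[0, 0xe14e1e1ac22e1a1e1e441484148e818461e1e1e88184eca, 0,
    0xe18424e14e1e1ac2e1e1682e14e1e1ac2dc, 0xe12e1e1ca4e1e16e18a25e1e1c2e128a8c], [0, 0, 0,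
    0xd438c4298842c14594618e8ac2143ec57ce8254112d59ce988c2dc,
    0x51a181c9e29231268a52518b13ae8212319ae5ae988a2de882445], [0, 0,
    0x11611a11ae4211a11a11ce2111611a11ce42d8, 0x114d1e1ac2315191e82319151e82d4,
    0x513191e28519131e8211e1d1e82d4]]

noncomputable def n3073 : Ent := ⟨e3073, noF, [], [], [(7, 17, [6903326391201334775872065844685381424292761054348340378595029942272001, 0])]⟩

def c3073 : PLift (Cov.check n3073.C.D v3073 = true) := ⟨by decide +kernel⟩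

def b3073 : PLift (entF (fidx ts) 400 3073 n3073 = true) := ⟨by decide +kernel⟩

theorem g3073 : GoodF (fidx ts) 400 3073 := GoodF.ofV v3073 n3073 c3073.down b3073.down

/-- 4649644:2382 -/
noncomputable def e3074 : SCfg where
  D := {
    a := 7
    L := 11
    kp := 8
    inn := [(0, 1), (0, 3), (1, 0), (1, 2), (1, 3), (2, 1), (2, 3), (3, 0), (3, 1), (3, 2), (3, 4), (3,
      5), (4, 3), (4, 6), (5, 3), (6, 4)]
    mix := [(0, 0), (0, 1), (1, 0), (1, 2), (1, 3), (2, 2), (2, 4), (3, 1), (3, 4), (3, 5), (3, 6), (4,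
      1), (4, 5), (4, 7), (4, 8), (5, 4), (5, 6), (5, 9), (6, 5), (6, 8), (6, 10)]
    cl := [1, 0, 3, 5, 0, 0, 2, 6, 4, 7, 8]
    chq := [(0, 4), (1, 3), (3, 1), (4, 0)]
    rng := [(0, 1), (0, 3), (1, 0), (1, 7), (2, 3), (2, 4), (3, 0), (3, 2), (4, 2), (4, 9), (5, 6), (5,
      10), (6, 5), (6, 9), (7, 1), (7, 8), (8, 7), (8, 10), (9, 4), (9, 6), (10, 5), (10, 8)]
    lev := [] }
  links := [[1, 7, 8, 3], [7, 0, 3, 2, 9, 10], [9, 1, 3, 11], [11, 2, 1, 0, 8, 4, 12, 13, 5], [12, 3, 8,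
    14, 15, 6], [11, 3, 13, 16], [12, 4, 15, 17]]
  P := {
    a := 7
    N := 18
    nb := [394, 1677, 2570, 14647, 53576, 75784, 167952, 1283, 16537, 3078, 642, 66092, 139352, 69672,
      33040, 147536, 10272, 36928]
    tri := [(0, 1, 3), (0, 1, 7), (0, 3, 8), (0, 7, 8), (1, 2, 3), (1, 2, 9), (1, 7, 10), (1, 9, 10),
      (2, 3, 11), (2, 9, 11), (3, 4, 8), (3, 4, 12), (3, 5, 11), (3, 5, 13), (3, 12, 13), (4, 6,
      12), (4, 6, 15), (4, 8, 14), (4, 14, 15), (5, 11, 16), (5, 13, 16), (6, 12, 17), (6, 15,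
      17)]
    fin := [0, 0, 0, 3, 3, 3, 3, 0, 3, 9, 10, 3, 3, 13, 14, 15, 16, 17]
    chd := [(0, 9), (3, 15)]
    steps := [(0, 1), (0, 2), (0, 7), (3, 4), (3, 5), (3, 6), (3, 8), (3, 12), (3, 11)] }
  rep := [3, 0, 13, 9, 15, 10, 14, 16, 17]

noncomputable def v3074 : Cov.CovD where
  P := 3
  N := 6
  pl := [3, 6, 7, 9, 10]
  lev := [⟨[], [], [(0, 1)], [], [(0, 1, [3]), (1, 0, [4])]⟩,
    ⟨[], [(0, 0), (0, 1), (0, 3)], [(1, 3)], [5], [(0, 1, [3]), (2, 3, [1])]⟩,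
    ⟨[(0, 1)], [(1, 0), (1, 1), (1, 3)], [(0, 3)], [], [(2, 3, [1]), (4, 0, [4])]⟩,
    ⟨[(0, 1), (0, 2), (1, 2)], [(0, 0), (0, 1), (1, 0), (1, 1), (1, 3), (2, 0), (2, 3)],
      [(0, 0)], [2], [(1, 0, [4]), (4, 0, [4]), (5, 0, [4])]⟩,
    ⟨[(0, 3), (1, 3), (2, 3)], [(0, 0), (3, 0), (3, 4)], [(0, 0), (0, 4)], [6], [(1, 0,
      [4]), (5, 0, [4]), (8, 4, [0])]⟩,
    ⟨[(0, 3), (1, 3), (2, 3), (3, 4)], [(2, 0), (3, 0)], [], [2, 7], [(4, 0, [4])]⟩,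
    ⟨[(3, 4)], [(3, 0), (4, 0), (4, 4)], [(0, 4)], [8], [(5, 0, [4]), (8, 4, [0])]⟩]
  Ta := [((1, 0), 0, 1), ((1, 7), 0, 6), ((4, 2), 0, 3), ((4, 9), 0, 7), ((5, 6), 0, 2), ((5,
    10), 0, 8)]
  Tb := [((0, 1, 3), 1, 0, 5), ((1, 0, 7), 0, 1, 6), ((2, 3, 4), 3, 5, 0), ((3, 0, 2), 5, 1, 3),
    ((4, 2, 9), 0, 3, 7), ((5, 6, 10), 0, 2, 8), ((6, 5, 9), 2, 0, 7), ((7, 1, 8), 6, 0, 4),
    ((8, 7, 10), 4, 6, 8), ((9, 4, 6), 7, 0, 2), ((10, 5, 8), 8, 0, 4)]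
  Tc := []
  Td := [((0, 4), (1, 0), 1), ((0, 4), (1, 7), 6), ((0, 4), (4, 2), 3), ((0, 4), (4, 9), 7), ((0,
    4), (5, 6), 2), ((0, 4), (5, 10), 8), ((1, 3), (0, 1), 0), ((1, 3), (0, 3), 5), ((3, 1),
    (2, 3), 5), ((3, 1), (2, 4), 0), ((4, 0), (8, 7), 6), ((4, 0), (8, 10), 8)]
  G := [[0, 0x1111a48111111e82a11448111111e84c6, 0, 0x71116d18c271e111e827111e1e82d4,
    0xb1d111e28513191e82117171e82d4], [0, 0, 0,
    0x5ec9838e4258842c3494682143dc9ece82345158d31ce188c2dc,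
    0x99a55a18e212328a5279ad3ae188a2188252d9ab3ae188aad4], [0, 0,
    0xee64eeaeeaac2eec2ee6ee6ca1ee64eeaeeaac2d4, 0xe14e1e1ac2e1e16e18c25e1e16e18c289,
    0xe1e16e18a4e1e16e18a25e1e1c1e22128a8c]]

noncomputable def n3074 : Ent := ⟨e3074, noF, [], [], []⟩

def c3074 : PLift (Cov.check n3074.C.D v3074 = true) := ⟨by decide +kernel⟩

def b3074 : PLift (entF (fidx ts) 400 3074 n3074 = true) := ⟨by decide +kernel⟩

theorem g3074 : GoodF (fidx ts) 400 3074 := GoodF.ofV v3074 n3074 c3074.down b3074.down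

/-- 4648645:2385/1 -/
noncomputable def e3075 : SCfg where
  D := {
    a := 7
    L := 10
    kp := 7
    inn := [(0, 1), (0, 3), (1, 0), (1, 2), (1, 3), (2, 1), (2, 3), (3, 0), (3, 1), (3, 2), (3, 4), (3,
      6), (4, 3), (4, 5), (5, 4), (6, 3)]
    mix := [(0, 0), (0, 1), (1, 0), (1, 2), (1, 3), (2, 2), (2, 4), (3, 1), (3, 4), (3, 5), (4, 1), (4,
      5), (4, 6), (4, 7), (5, 2), (5, 6), (5, 7), (6, 4), (6, 5), (6, 8), (6, 9)]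
    cl := [3, 1, 2, 5, 0, 0, 4, 1, 6, 7]
    chq := [(0, 3), (2, 3), (3, 0), (3, 2)]
    rng := [(0, 1), (0, 3), (1, 0), (1, 6), (2, 3), (2, 4), (2, 6), (2, 7), (3, 0), (3, 2), (4, 2), (4,
      9), (5, 7), (5, 8), (6, 1), (6, 2), (7, 2), (7, 5), (8, 5), (8, 9), (9, 4), (9, 8)]
    lev := [] }
  links := [[1, 7, 8, 3], [7, 0, 3, 2, 9, 10], [9, 1, 3, 11], [11, 2, 1, 0, 8, 4, 12, 6], [12, 3, 8, 13,
    5, 14], [14, 4, 13, 9], [11, 3, 12, 15, 16]]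
  P := {
    a := 7
    N := 17
    nb := [394, 1677, 2570, 6487, 28968, 25104, 104456, 1283, 8345, 27686, 642, 66124, 49240, 816,
      4656, 69696, 34880]
    tri := [(0, 1, 3), (0, 1, 7), (0, 3, 8), (0, 7, 8), (1, 2, 3), (1, 2, 9), (1, 7, 10), (1, 9, 10),
      (2, 3, 11), (2, 9, 11), (3, 4, 8), (3, 4, 12), (3, 6, 11), (3, 6, 12), (4, 5, 13), (4, 5,
      14), (4, 8, 13), (4, 12, 14), (5, 9, 13), (5, 9, 14), (6, 11, 16), (6, 12, 15), (6, 15, 16)]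
    fin := [0, 0, 0, 0, 4, 4, 6, 0, 4, 9, 10, 6, 6, 13, 4, 15, 16]
    chd := [(0, 6), (0, 9)]
    steps := [(0, 1), (0, 2), (0, 3), (0, 7), (4, 5), (4, 8), (4, 14), (6, 12), (6, 11)] }
  rep := [6, 4, 9, 0, 13, 10, 15, 16]

noncomputable def v3075 : Cov.CovD where
  P := 3
  N := 5
  pl := [3, 6, 8, 9]
  lev := [⟨[], [], [(1, 3)], [], [(0, 3, [0, 2]), (1, 1, [])]⟩,
    ⟨[], [(0, 1), (0, 2), (0, 3)], [(2, 3)], [5], [(0, 3, [0, 2]), (2, 2, [3])]⟩,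
    ⟨[(0, 1)], [(1, 0), (1, 2), (1, 3)], [(0, 2)], [], [(2, 2, [3]), (4, 0, [3])]⟩,
    ⟨[(0, 1), (0, 2), (1, 2)], [(0, 0), (0, 1), (0, 3), (1, 0), (1, 1), (1, 2), (1, 3), (2,
      0), (2, 1), (2, 2)], [(0, 0), (0, 1)], [], [(1, 1, []), (4, 0, [3]), (5, 0, [3])]⟩,
    ⟨[(0, 3), (1, 3), (2, 3)], [(0, 1), (3, 0), (3, 1)], [(0, 1), (1, 1)], [4], [(1, 1,
      []), (5, 0, [3]), (7, 1, [])]⟩,
    ⟨[(3, 4)], [(1, 2), (2, 2), (4, 0), (4, 1), (4, 2)], [(1, 2)], [4], [(2, 2, [3]), (7,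
      1, [])]⟩,
    ⟨[(0, 3), (1, 3), (2, 3), (3, 4)], [(2, 0), (3, 0), (3, 1), (4, 0)], [(0, 0)], [6, 7],
      [(4, 0, [3]), (5, 0, [3])]⟩]
  Ta := [((1, 0), 1, 3), ((1, 6), 1, 4), ((4, 2), 0, 2), ((4, 9), 0, 7), ((5, 7), 0, 1), ((5, 8),
    0, 6), ((7, 2), 1, 2), ((7, 5), 1, 0)]
  Tb := [((0, 1, 3), 3, 1, 5), ((1, 0, 6), 1, 3, 4), ((2, 3, 4), 2, 5, 0), ((2, 3, 6), 2, 5, 4),
    ((2, 3, 7), 2, 5, 1), ((2, 4, 6), 2, 0, 4), ((2, 4, 7), 2, 0, 1), ((2, 6, 7), 2, 4, 1),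
    ((3, 0, 2), 5, 3, 2), ((4, 2, 9), 0, 2, 7), ((5, 7, 8), 0, 1, 6), ((6, 1, 2), 4, 1, 2),
    ((7, 2, 5), 1, 2, 0), ((8, 5, 9), 6, 0, 7), ((9, 4, 8), 7, 0, 6)]
  Tc := [(3, 0, 2)]
  Td := [((0, 3), (4, 2), 2), ((0, 3), (4, 9), 7), ((0, 3), (5, 7), 1), ((0, 3), (5, 8), 6), ((2,
    3), (2, 3), 5), ((2, 3), (2, 4), 0), ((2, 3), (2, 6), 4), ((2, 3), (2, 7), 1), ((3, 0),
    (0, 1), 1), ((3, 0), (0, 3), 5), ((3, 2), (0, 1), 1), ((3, 2), (0, 3), 5)]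
  G := [[0, 0, 0xee6148ee6182eec148e1, 0, 0xe8a242d48e8a142d48e8e2948b1], [0, 0,
    0xe8e4948844485aac1c8eec18463, 0xe8e4948e884e448c924285c8c4ca443,
    0x229285c8c1ca81414e8a1cc225], [0, 0, 0, 0, 0x414e8a1cc2e24e88c2424e8a2cc2b1], [0,
    0x64486a884ac4e4e8684e4e8684d2, 0, 0x644e881cc141e4ca88c1444e8a1cc8d2,
    0x414e8a1cc21e14e88c223]]

noncomputable def n3075 : Ent := ⟨e3075, noF, [], [], []⟩

def c3075 : PLift (Cov.check n3075.C.D v3075 = true) := ⟨by decide +kernel⟩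

def b3075 : PLift (entF (fidx ts) 400 3075 n3075 = true) := ⟨by decide +kernel⟩

theorem g3075 : GoodF (fidx ts) 400 3075 := GoodF.ofV v3075 n3075 c3075.down b3075.down

/-- 4648645:2385/2 -/
noncomputable def e3076 : SCfg where
  D := {
    a := 7
    L := 10
    kp := 7
    inn := [(0, 1), (0, 3), (1, 0), (1, 2), (1, 3), (2, 1), (2, 3), (3, 0), (3, 1), (3, 2), (3, 4), (3,
      6), (4, 3), (4, 5), (5, 4), (6, 3)]
    mix := [(0, 0), (0, 1), (1, 0), (1, 2), (1, 3), (2, 2), (2, 4), (3, 1), (3, 4), (3, 5), (4, 1), (4,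
      5), (4, 6), (4, 7), (5, 3), (5, 6), (5, 7), (6, 4), (6, 5), (6, 8), (6, 9)]
    cl := [3, 1, 4, 2, 0, 0, 5, 1, 6, 7]
    chq := [(0, 3), (3, 0), (3, 4), (4, 3)]
    rng := [(0, 1), (0, 3), (1, 0), (1, 6), (2, 3), (2, 4), (3, 0), (3, 2), (3, 6), (3, 7), (4, 2), (4,
      9), (5, 7), (5, 8), (6, 1), (6, 3), (7, 3), (7, 5), (8, 5), (8, 9), (9, 4), (9, 8)]
    lev := [] }
  links := [[1, 7, 8, 3], [7, 0, 3, 2, 9, 10], [9, 1, 3, 11], [11, 2, 1, 0, 8, 4, 12, 6], [12, 3, 8, 13,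
    5, 14], [14, 4, 13, 10], [11, 3, 12, 15, 16]]
  P := {
    a := 7
    N := 17
    nb := [394, 1677, 2570, 6487, 28968, 25616, 104456, 1283, 8345, 3078, 25250, 66124, 49240, 1328,
      5168, 69696, 34880]
    tri := [(0, 1, 3), (0, 1, 7), (0, 3, 8), (0, 7, 8), (1, 2, 3), (1, 2, 9), (1, 7, 10), (1, 9, 10),
      (2, 3, 11), (2, 9, 11), (3, 4, 8), (3, 4, 12), (3, 6, 11), (3, 6, 12), (4, 5, 13), (4, 5,
      14), (4, 8, 13), (4, 12, 14), (5, 10, 13), (5, 10, 14), (6, 11, 16), (6, 12, 15), (6, 15,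
      16)]
    fin := [0, 0, 0, 0, 4, 4, 6, 0, 4, 9, 10, 6, 6, 13, 4, 15, 16]
    chd := [(0, 6), (0, 9)]
    steps := [(0, 1), (0, 2), (0, 3), (0, 7), (4, 5), (4, 8), (4, 14), (6, 12), (6, 11)] }
  rep := [6, 4, 10, 0, 9, 13, 15, 16]

noncomputable def v3076 : Cov.CovD where
  P := 3
  N := 5
  pl := [3, 6, 8, 9]
  lev := [⟨[], [], [(1, 3)], [], [(0, 3, [0, 4]), (1, 1, [])]⟩,
    ⟨[], [(0, 1), (0, 3), (0, 4)], [(3, 4)], [2], [(0, 3, [0, 4]), (2, 4, [3])]⟩,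
    ⟨[(0, 1)], [(1, 0), (1, 3), (1, 4)], [(0, 4)], [], [(2, 4, [3]), (4, 0, [3])]⟩,
    ⟨[(0, 1), (0, 2), (1, 2)], [(0, 0), (0, 1), (0, 3), (1, 0), (1, 1), (1, 3), (1, 4), (2,
      0), (2, 1), (2, 4)], [(0, 0), (0, 1)], [], [(1, 1, []), (4, 0, [3]), (5, 0, [3])]⟩,
    ⟨[(0, 3), (1, 3), (2, 3)], [(0, 1), (3, 0), (3, 1)], [(0, 1), (1, 1)], [5], [(1, 1,
      []), (5, 0, [3]), (7, 1, [])]⟩,
    ⟨[(3, 4)], [(4, 0), (4, 1)], [], [2, 5], [(7, 1, [])]⟩,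
    ⟨[(0, 3), (1, 3), (2, 3), (3, 4)], [(2, 0), (3, 0), (3, 1), (4, 0)], [(0, 0)], [6, 7],
      [(4, 0, [3]), (5, 0, [3])]⟩]
  Ta := [((1, 0), 1, 3), ((1, 6), 1, 5), ((4, 2), 0, 4), ((4, 9), 0, 7), ((5, 7), 0, 1), ((5, 8),
    0, 6), ((7, 3), 1, 2), ((7, 5), 1, 0)]
  Tb := [((0, 1, 3), 3, 1, 2), ((1, 0, 6), 1, 3, 5), ((2, 3, 4), 4, 2, 0), ((3, 0, 2), 2, 3, 4),
    ((3, 0, 6), 2, 3, 5), ((3, 0, 7), 2, 3, 1), ((3, 2, 6), 2, 4, 5), ((3, 2, 7), 2, 4, 1),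
    ((3, 6, 7), 2, 5, 1), ((4, 2, 9), 0, 4, 7), ((5, 7, 8), 0, 1, 6), ((6, 1, 3), 5, 1, 2),
    ((7, 3, 5), 1, 2, 0), ((8, 5, 9), 6, 0, 7), ((9, 4, 8), 7, 0, 6)]
  Tc := [(3, 0, 4)]
  Td := [((0, 3), (4, 2), 4), ((0, 3), (4, 9), 7), ((0, 3), (5, 7), 1), ((0, 3), (5, 8), 6), ((3,
    0), (0, 1), 1), ((3, 0), (0, 3), 2), ((3, 4), (0, 1), 1), ((3, 4), (0, 3), 2), ((4, 3),
    (2, 3), 2), ((4, 3), (2, 4), 0)]
  G := [[0, 0, 0xe8e2948e4e2584e8e4942e1, 0, 0xe8e2948e8e294262e1c828c4b1], [0, 0,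
    0x24285c8c49a424285c4c85a8e4e8582e1, 0xe8e49484144ca8a49c2e4e8582d2,
    0xe884e148c1414e8a1cc223], [0, 0, 0x644e882cc142e4c8a8845444e8a2cc2e1, 0,
    0x4294a88c41614a88c4181c8e248e1c24841d], [0, 0xe8e4a421e8e4a481a,
    0x244e88c44e1e44a88488e1e44e88c2e1, 0xe44e88c212, 0xe8a1c4c148614e88ce12]]

noncomputable def n3076 : Ent := ⟨e3076, noF, [], [], []⟩

def c3076 : PLift (Cov.check n3076.C.D v3076 = true) := ⟨by decide +kernel⟩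

def b3076 : PLift (entF (fidx ts) 400 3076 n3076 = true) := ⟨by decide +kernel⟩

theorem g3076 : GoodF (fidx ts) 400 3076 := GoodF.ofV v3076 n3076 c3076.down b3076.down

/-- 4648645:2385 -/
noncomputable def e3077 : SCfg where
  D := {
    a := 7
    L := 11
    kp := 8
    inn := [(0, 1), (0, 3), (1, 0), (1, 2), (1, 3), (2, 1), (2, 3), (3, 0), (3, 1), (3, 2), (3, 4), (3,
      6), (4, 3), (4, 5), (5, 4), (6, 3)]
    mix := [(0, 0), (0, 1), (1, 0), (1, 2), (1, 3), (2, 2), (2, 4), (3, 1), (3, 4), (3, 5), (4, 1), (4,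
      5), (4, 6), (4, 7), (5, 6), (5, 7), (5, 8), (6, 4), (6, 5), (6, 9), (6, 10)]
    cl := [2, 1, 3, 5, 0, 0, 4, 1, 6, 7, 8]
    chq := [(0, 2), (2, 0), (2, 3), (3, 2)]
    rng := [(0, 1), (0, 3), (1, 0), (1, 6), (2, 3), (2, 4), (3, 0), (3, 2), (4, 2), (4, 10), (5, 7),
      (5, 9), (6, 1), (6, 8), (7, 5), (7, 8), (8, 6), (8, 7), (9, 5), (9, 10), (10, 4), (10, 9)]
    lev := [] }
  links := [[1, 7, 8, 3], [7, 0, 3, 2, 9, 10], [9, 1, 3, 11], [11, 2, 1, 0, 8, 4, 12, 6], [12, 3, 8, 13,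
    5, 14], [14, 4, 13, 15], [11, 3, 12, 16, 17]]
  P := {
    a := 7
    N := 18
    nb := [394, 1677, 2570, 6487, 28968, 57360, 202760, 1283, 8345, 3078, 642, 131660, 82008, 33072,
      36912, 24608, 135232, 67648]
    tri := [(0, 1, 3), (0, 1, 7), (0, 3, 8), (0, 7, 8), (1, 2, 3), (1, 2, 9), (1, 7, 10), (1, 9, 10),
      (2, 3, 11), (2, 9, 11), (3, 4, 8), (3, 4, 12), (3, 6, 11), (3, 6, 12), (4, 5, 13), (4, 5,
      14), (4, 8, 13), (4, 12, 14), (5, 13, 15), (5, 14, 15), (6, 11, 17), (6, 12, 16), (6, 16,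
      17)]
    fin := [0, 0, 0, 0, 4, 4, 6, 0, 4, 9, 10, 6, 6, 13, 4, 15, 16, 17]
    chd := [(0, 6), (0, 9)]
    steps := [(0, 1), (0, 2), (0, 3), (0, 7), (4, 5), (4, 8), (4, 14), (6, 12), (6, 11)] }
  rep := [6, 4, 0, 9, 13, 10, 15, 16, 17]

noncomputable def v3077 : Cov.CovD where
  P := 3
  N := 6
  pl := [3, 6, 8, 9, 10]
  lev := [⟨[], [], [(1, 2)], [], [(0, 2, [0, 3]), (1, 1, [])]⟩,
    ⟨[], [(0, 1), (0, 2), (0, 3)], [(2, 3)], [5], [(0, 2, [0, 3]), (2, 3, [2])]⟩,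
    ⟨[(0, 1)], [(1, 0), (1, 2), (1, 3)], [(0, 3)], [], [(2, 3, [2]), (4, 0, [2])]⟩,
    ⟨[(0, 1), (0, 2), (1, 2)], [(0, 0), (0, 1), (0, 2), (1, 0), (1, 1), (1, 2), (1, 3), (2,
      0), (2, 1), (2, 3)], [(0, 0), (0, 1)], [], [(1, 1, []), (4, 0, [2]), (5, 0, [2])]⟩,
    ⟨[(0, 3), (1, 3), (2, 3)], [(0, 1), (3, 0), (3, 1)], [(0, 1), (1, 1)], [4], [(1, 1,
      []), (5, 0, [2]), (7, 1, [])]⟩,
    ⟨[(3, 4)], [(4, 0), (4, 1)], [], [4, 6], [(7, 1, [])]⟩,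
    ⟨[(0, 3), (1, 3), (2, 3), (3, 4)], [(2, 0), (3, 0), (3, 1), (4, 0)], [(0, 0)], [7, 8],
      [(4, 0, [2]), (5, 0, [2])]⟩]
  Ta := [((1, 0), 1, 2), ((1, 6), 1, 4), ((4, 2), 0, 3), ((4, 10), 0, 8), ((5, 7), 0, 1), ((5,
    9), 0, 7), ((7, 5), 1, 0), ((7, 8), 1, 6)]
  Tb := [((0, 1, 3), 2, 1, 5), ((1, 0, 6), 1, 2, 4), ((2, 3, 4), 3, 5, 0), ((3, 0, 2), 5, 2, 3),
    ((4, 2, 10), 0, 3, 8), ((5, 7, 9), 0, 1, 7), ((6, 1, 8), 4, 1, 6), ((7, 5, 8), 1, 0, 6),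
    ((8, 6, 7), 6, 4, 1), ((9, 5, 10), 7, 0, 8), ((10, 4, 9), 8, 0, 7)]
  Tc := [(2, 0, 3)]
  Td := [((0, 2), (4, 2), 3), ((0, 2), (4, 10), 8), ((0, 2), (5, 7), 1), ((0, 2), (5, 9), 7),
    ((2, 0), (0, 1), 1), ((2, 0), (0, 3), 5), ((2, 3), (0, 1), 1), ((2, 3), (0, 3), 5), ((3,
    2), (2, 3), 5), ((3, 2), (2, 4), 0)]
  G := [[0, 0, 0x66c62588c829ceece258a14, 0x42a2e2d4242425a2a29c2e2e2942d8,
    0xeeaee694862ee5c828c4eece2584b1], [0, 0, 0x614eeed8cee548ee981e4d4e12, 0,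
    0x2e9842654c8c85cac61ee5ce898c2614eed48da898c4b1], [0, 0, 0x4eca8e2d4624ee982cca18,
    0xe2a2c4182841424e2a2cc2d4248262e2c82c9, 0x424ee9a2cc162ee5c8889846626a47c8a98c4b1], [0,
    0xe22e8e4c61622e8ae86ca4644e8c8e6ac2d8, 0x66542a98c49885ce614eed48da898ca14, 0,
    0x244ee9a1cc454e1ee54ee98c122542a98c49cc5ce4b1]]

noncomputable def n3077 : Ent := ⟨e3077, noF, [], [], [(15, 9, [7334790850167413569773436137909850376687013109418699723294111053131777, 0]), (15, 10, [7334790850167413569773892723367045092665212911714613925847584496173057, 0])]⟩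

def c3077 : PLift (Cov.check n3077.C.D v3077 = true) := ⟨by decide +kernel⟩

def b3077 : PLift (entF (fidx ts) 400 3077 n3077 = true) := ⟨by decide +kernel⟩

theorem g3077 : GoodF (fidx ts) 400 3077 := GoodF.ofV v3077 n3077 c3077.down b3077.down

/-- 4648647:2389 -/
noncomputable def e3078 : SCfg where
  D := {
    a := 7
    L := 11
    kp := 8
    inn := [(0, 1), (0, 3), (1, 0), (1, 2), (1, 3), (2, 1), (2, 3), (3, 0), (3, 1), (3, 2), (3, 4), (3,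
      6), (4, 3), (4, 5), (4, 6), (5, 4), (5, 6), (6, 3), (6, 4), (6, 5)]
    mix := [(0, 0), (0, 1), (1, 0), (1, 2), (1, 3), (2, 2), (2, 4), (3, 1), (3, 4), (3, 5), (4, 1), (4,
      6), (4, 7), (5, 7), (5, 8), (6, 5), (6, 8), (6, 9), (6, 10)]
    cl := [2, 0, 3, 5, 0, 1, 6, 4, 1, 7, 8]
    chq := [(0, 4), (2, 3), (3, 2), (4, 0)]
    rng := [(0, 1), (0, 3), (1, 0), (1, 6), (2, 3), (2, 4), (3, 0), (3, 2), (4, 2), (4, 5), (5, 4), (5,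
      10), (6, 1), (6, 7), (7, 6), (7, 8), (8, 7), (8, 9), (9, 8), (9, 10), (10, 5), (10, 9)]
    lev := [] }
  links := [[1, 7, 8, 3], [7, 0, 3, 2, 9, 10], [9, 1, 3, 11], [11, 2, 1, 0, 8, 4, 6, 12], [6, 3, 8, 13,
    14, 5], [6, 4, 14, 15], [12, 3, 4, 5, 15, 16, 17]]
  P := {
    a := 7
    N := 18
    nb := [394, 1677, 2570, 6487, 24936, 49232, 233528, 1283, 8345, 3078, 642, 4620, 133192, 16656,
      41008, 82016, 163904, 69696]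
    tri := [(0, 1, 3), (0, 1, 7), (0, 3, 8), (0, 7, 8), (1, 2, 3), (1, 2, 9), (1, 7, 10), (1, 9, 10),
      (2, 3, 11), (2, 9, 11), (3, 4, 6), (3, 4, 8), (3, 6, 12), (3, 11, 12), (4, 5, 6), (4, 5,
      14), (4, 8, 13), (4, 13, 14), (5, 6, 15), (5, 14, 15), (6, 12, 17), (6, 15, 16), (6, 16,
      17)]
    fin := [0, 0, 0, 3, 3, 3, 6, 0, 3, 9, 10, 3, 6, 13, 14, 6, 16, 17]
    chd := [(0, 9), (3, 14)]
    steps := [(0, 1), (0, 2), (0, 7), (3, 4), (3, 5), (3, 8), (3, 11), (6, 15), (6, 12)] }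
  rep := [3, 6, 0, 9, 14, 10, 13, 16, 17]

noncomputable def v3078 : Cov.CovD where
  P := 3
  N := 6
  pl := [3, 6, 9, 10]
  lev := [⟨[], [], [(0, 2)], [], [(0, 2, [3]), (1, 0, [4])]⟩,
    ⟨[], [(0, 0), (0, 2), (0, 3)], [(2, 3)], [5], [(0, 2, [3]), (2, 3, [2])]⟩,
    ⟨[(0, 1)], [(1, 0), (1, 2), (1, 3)], [(0, 3)], [], [(2, 3, [2]), (4, 0, [4])]⟩,
    ⟨[(0, 1), (0, 2), (1, 2)], [(0, 0), (0, 1), (0, 2), (1, 0), (1, 1), (1, 2), (1, 3), (2,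
      0), (2, 1), (2, 3)], [(0, 0), (0, 1)], [], [(1, 0, [4]), (4, 0, [4]), (5, 1, [])]⟩,
    ⟨[(0, 3), (1, 3), (2, 3)], [(0, 0), (3, 0), (3, 1), (3, 4)], [(0, 4)], [6], [(1, 0,
      [4]), (7, 4, [0])]⟩,
    ⟨[(3, 4)], [(4, 0), (4, 1), (4, 4)], [(1, 4)], [], [(7, 4, [0]), (8, 1, [])]⟩,
    ⟨[(0, 3), (1, 3), (2, 3), (3, 4), (3, 5), (4, 5)], [(3, 0), (3, 1), (4, 0), (4, 1), (4,
      4), (5, 1), (5, 4)], [(1, 1)], [7, 8], [(5, 1, []), (8, 1, [])]⟩]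
  Ta := [((1, 0), 0, 2), ((1, 6), 0, 6), ((4, 2), 0, 3), ((4, 5), 0, 1), ((5, 4), 1, 0), ((5,
    10), 1, 8), ((8, 7), 1, 4), ((8, 9), 1, 7)]
  Tb := [((0, 1, 3), 2, 0, 5), ((1, 0, 6), 0, 2, 6), ((2, 3, 4), 3, 5, 0), ((3, 0, 2), 5, 2, 3),
    ((4, 2, 5), 0, 3, 1), ((5, 4, 10), 1, 0, 8), ((6, 1, 7), 6, 0, 4), ((7, 6, 8), 4, 6, 1),
    ((8, 7, 9), 1, 4, 7), ((9, 8, 10), 7, 1, 8), ((10, 5, 9), 8, 1, 7)]
  Tc := []
  Td := [((0, 4), (1, 0), 2), ((0, 4), (1, 6), 6), ((0, 4), (4, 2), 3), ((0, 4), (4, 5), 1), ((2,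
    3), (0, 1), 0), ((2, 3), (0, 3), 5), ((3, 2), (2, 3), 5), ((3, 2), (2, 4), 0), ((4, 0),
    (7, 6), 6), ((4, 0), (7, 8), 1)]
  G := [[0, 0, 0x524912c142d1d1e81cd18241e4891841d14d1d1ac1e6,
    0xc192d1e4282841c424188c152d2d1e82521c3d1e818c2dc,
    0x58a92d1e44248952d2d1e88284541d2d1e928c4b2], [0, 0,
    0xd191d1e44148951d1d1e88184541d1d1e918c1e2,
    0x589811d5e5146141516d194ca18524614541c981d1ec2d8,
    0x94542d11d5a4514541c981d1ec15128121c91c5ce4b8], [0, 0xeea14246618ac1c2ea4e142d8, 0,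
    0x18a81582b452484278a52d2d182f8252d1195c2f82d4, 0xd19251cc2f485292d1c2f845292d1c2f84b2],
    [0, 0, 0, 0x9125849cc4cd68519451d5e821551c5d1e818c2d8184245,
    0x9125849ccccd644141891955c8fc25128121d51d9ce4b8]]

noncomputable def n3078 : Ent := ⟨e3078, noF, [], [], []⟩

def c3078 : PLift (Cov.check n3078.C.D v3078 = true) := ⟨by decide +kernel⟩

def b3078 : PLift (entF (fidx ts) 400 3078 n3078 = true) := ⟨by decide +kernel⟩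

theorem g3078 : GoodF (fidx ts) 400 3078 := GoodF.ofV v3078 n3078 c3078.down b3078.down

/-- 4648574:2394/1 -/
noncomputable def e3079 : SCfg where
  D := {
    a := 7
    L := 10
    kp := 7
    inn := [(0, 1), (0, 3), (1, 0), (1, 2), (1, 3), (2, 1), (2, 3), (3, 0), (3, 1), (3, 2), (3, 4), (3,
      5), (4, 3), (4, 5), (5, 3), (5, 4), (5, 6), (6, 5)]
    mix := [(0, 0), (0, 1), (1, 0), (1, 2), (1, 3), (2, 2), (2, 4), (3, 1), (3, 4), (3, 5), (4, 1), (4,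
      6), (4, 7), (5, 5), (5, 7), (5, 8), (5, 9), (6, 0), (6, 7), (6, 8)]
    cl := [1, 0, 4, 6, 2, 0, 7, 3, 5, 3]
    chq := [(1, 2), (1, 4), (2, 1), (4, 1)]
    rng := [(0, 1), (0, 3), (0, 7), (0, 8), (1, 0), (1, 6), (2, 3), (2, 4), (3, 0), (3, 2), (4, 2), (4,
      5), (5, 4), (5, 9), (6, 1), (6, 7), (7, 0), (7, 6), (8, 0), (8, 9), (9, 5), (9, 8)]
    lev := [] }
  links := [[1, 7, 8, 3], [7, 0, 3, 2, 9, 10], [9, 1, 3, 11], [11, 2, 1, 0, 8, 4, 5, 12], [5, 3, 8, 13,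
    14], [12, 3, 4, 14, 6, 15, 16], [15, 5, 14, 7]]
  P := {
    a := 7
    N := 17
    nb := [394, 1677, 2570, 6455, 24872, 118872, 49312, 50499, 8345, 3078, 642, 4620, 67624, 16656,
      8432, 65760, 36896]
    tri := [(0, 1, 3), (0, 1, 7), (0, 3, 8), (0, 7, 8), (1, 2, 3), (1, 2, 9), (1, 7, 10), (1, 9, 10),
      (2, 3, 11), (2, 9, 11), (3, 4, 5), (3, 4, 8), (3, 5, 12), (3, 11, 12), (4, 5, 14), (4, 8,
      13), (4, 13, 14), (5, 6, 14), (5, 6, 15), (5, 12, 16), (5, 15, 16), (6, 7, 14), (6, 7, 15)]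
    fin := [0, 0, 0, 3, 3, 5, 0, 0, 3, 9, 10, 11, 3, 13, 5, 15, 5]
    chd := [(0, 9), (0, 11)]
    steps := [(0, 1), (0, 2), (0, 7), (0, 6), (3, 4), (3, 8), (3, 12), (5, 14), (5, 16)] }
  rep := [3, 0, 11, 5, 9, 15, 10, 13]

noncomputable def v3079 : Cov.CovD where
  P := 3
  N := 5
  pl := [3, 6, 8]
  lev := [⟨[], [], [(0, 1)], [], [(0, 1, [2, 4]), (1, 0, [])]⟩,
    ⟨[], [(0, 0), (0, 1), (0, 4)], [(1, 4)], [6], [(0, 1, [2, 4]), (2, 4, [1])]⟩,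
    ⟨[(0, 1)], [(1, 1), (1, 2), (1, 4)], [(2, 4)], [], [(2, 4, [1]), (4, 2, [1])]⟩,
    ⟨[(0, 1), (0, 2), (1, 2)], [(0, 0), (0, 1), (0, 2), (1, 0), (1, 1), (1, 2), (1, 4), (2,
      0), (2, 2), (2, 4)], [(0, 0), (0, 2)], [], [(1, 0, []), (4, 2, [1]), (5, 0, [])]⟩,
    ⟨[(0, 3), (1, 3), (2, 3)], [(0, 0), (3, 0), (3, 2), (3, 3)], [(0, 3)], [7], [(1, 0,
      []), (7, 3, [])]⟩,
    ⟨[(0, 3), (1, 3), (2, 3), (3, 4)], [(3, 0), (3, 2), (3, 3), (4, 0), (4, 3)], [(0, 3),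
      (3, 3)], [5], [(5, 0, []), (7, 3, []), (9, 3, [])]⟩,
    ⟨[(3, 5), (4, 5)], [(0, 1), (1, 1), (4, 3), (5, 0), (5, 1), (5, 3)], [(1, 3)], [5],
      [(0, 1, [2, 4]), (7, 3, [])]⟩]
  Ta := [((1, 0), 0, 1), ((1, 6), 0, 7), ((5, 4), 0, 2), ((5, 9), 0, 3), ((7, 0), 3, 1), ((7, 6),
    3, 7), ((9, 5), 3, 0), ((9, 8), 3, 5)]
  Tb := [((0, 1, 3), 1, 0, 6), ((0, 1, 7), 1, 0, 3), ((0, 1, 8), 1, 0, 5), ((0, 3, 7), 1, 6, 3),
    ((0, 3, 8), 1, 6, 5), ((0, 7, 8), 1, 3, 5), ((1, 0, 6), 0, 1, 7), ((2, 3, 4), 4, 6, 2),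
    ((3, 0, 2), 6, 1, 4), ((4, 2, 5), 2, 4, 0), ((5, 4, 9), 0, 2, 3), ((6, 1, 7), 7, 0, 3),
    ((7, 0, 6), 3, 1, 7), ((8, 0, 9), 5, 1, 3), ((9, 5, 8), 3, 0, 5)]
  Tc := [(1, 2, 4)]
  Td := [((1, 2), (0, 1), 0), ((1, 2), (0, 3), 6), ((1, 2), (0, 7), 3), ((1, 2), (0, 8), 5), ((1,
    4), (0, 1), 0), ((1, 4), (0, 3), 6), ((1, 4), (0, 7), 3), ((1, 4), (0, 8), 5), ((2, 1),
    (4, 2), 4), ((2, 1), (4, 5), 0), ((4, 1), (2, 3), 6), ((4, 1), (2, 4), 2)]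
  G := [[0, 0xe1e1869e48e1e1e1e84e1e1e1e41e2, 0, 0x9252d2e49252d2e4928,
    0x149e854b84ce21228a4987195e4987e824987195e149ee82d4], [0, 0x61c1a41a1c1684a1c1681e8, 0,
    0x9292685292a4528, 0x983816682983843682543849a21d4], [0, 0, 0x841e128149e182149e182d4,
    0xd218d214524, 0x841e128149e182815e121d4], [0, 0, 0x14185a1c2441e182119e182d4,
    0x5292a45252a4c28, 0x41681ac28119e48668241681ac21d4]]

noncomputable def n3079 : Ent := ⟨e3079, noF, [], [], []⟩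

def c3079 : PLift (Cov.check n3079.C.D v3079 = true) := ⟨by decide +kernel⟩

def b3079 : PLift (entF (fidx ts) 400 3079 n3079 = true) := ⟨by decide +kernel⟩

theorem g3079 : GoodF (fidx ts) 400 3079 := GoodF.ofV v3079 n3079 c3079.down b3079.down

/-- 4648574:2394/2 -/
noncomputable def e3080 : SCfg where
  D := {
    a := 7
    L := 10
    kp := 7
    inn := [(0, 1), (0, 3), (1, 0), (1, 2), (1, 3), (2, 1), (2, 3), (3, 0), (3, 1), (3, 2), (3, 4), (3,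
      5), (4, 3), (4, 5), (5, 3), (5, 4), (5, 6), (6, 5)]
    mix := [(0, 0), (0, 1), (1, 0), (1, 2), (1, 3), (2, 2), (2, 4), (3, 1), (3, 4), (3, 5), (4, 1), (4,
      6), (4, 7), (5, 5), (5, 7), (5, 8), (5, 9), (6, 2), (6, 7), (6, 8)]
    cl := [1, 0, 4, 6, 2, 0, 7, 3, 5, 3]
    chq := [(1, 2), (1, 4), (2, 1), (4, 1)]
    rng := [(0, 1), (0, 3), (1, 0), (1, 6), (2, 3), (2, 4), (2, 7), (2, 8), (3, 0), (3, 2), (4, 2), (4,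
      5), (5, 4), (5, 9), (6, 1), (6, 7), (7, 2), (7, 6), (8, 2), (8, 9), (9, 5), (9, 8)]
    lev := [] }
  links := [[1, 7, 8, 3], [7, 0, 3, 2, 9, 10], [9, 1, 3, 11], [11, 2, 1, 0, 8, 4, 5, 12], [5, 3, 8, 13,
    14], [12, 3, 4, 14, 6, 15, 16], [15, 5, 14, 9]]
  P := {
    a := 7
    N := 17
    nb := [394, 1677, 2570, 6455, 24872, 118872, 49696, 1283, 8345, 52294, 642, 4620, 67624, 16656,
      8816, 66144, 36896]
    tri := [(0, 1, 3), (0, 1, 7), (0, 3, 8), (0, 7, 8), (1, 2, 3), (1, 2, 9), (1, 7, 10), (1, 9, 10),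
      (2, 3, 11), (2, 9, 11), (3, 4, 5), (3, 4, 8), (3, 5, 12), (3, 11, 12), (4, 5, 14), (4, 8,
      13), (4, 13, 14), (5, 6, 14), (5, 6, 15), (5, 12, 16), (5, 15, 16), (6, 9, 14), (6, 9, 15)]
    fin := [0, 0, 0, 3, 3, 5, 5, 0, 3, 9, 10, 11, 3, 13, 5, 15, 5]
    chd := [(0, 9), (0, 11)]
    steps := [(0, 1), (0, 2), (0, 7), (3, 4), (3, 8), (3, 12), (5, 6), (5, 14), (5, 16)] }
  rep := [3, 0, 11, 5, 9, 15, 10, 13]

noncomputable def v3080 : Cov.CovD where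
  P := 3
  N := 5
  pl := [3, 6, 8]
  lev := [⟨[], [], [(0, 1)], [], [(0, 1, [2, 4]), (1, 0, [])]⟩,
    ⟨[], [(0, 0), (0, 1), (0, 4)], [(1, 4)], [6], [(0, 1, [2, 4]), (2, 4, [1])]⟩,
    ⟨[(0, 1)], [(1, 1), (1, 2), (1, 4)], [(2, 4)], [], [(2, 4, [1]), (4, 2, [1])]⟩,
    ⟨[(0, 1), (0, 2), (1, 2)], [(0, 0), (0, 1), (0, 2), (1, 0), (1, 1), (1, 2), (1, 4), (2,
      0), (2, 2), (2, 4)], [(0, 0), (0, 2)], [], [(1, 0, []), (4, 2, [1]), (5, 0, [])]⟩,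
    ⟨[(0, 3), (1, 3), (2, 3)], [(0, 0), (3, 0), (3, 2), (3, 3)], [(0, 3)], [7], [(1, 0,
      []), (7, 3, [])]⟩,
    ⟨[(0, 3), (1, 3), (2, 3), (3, 4)], [(3, 0), (3, 2), (3, 3), (4, 0), (4, 3)], [(0, 3),
      (3, 3)], [5], [(5, 0, []), (7, 3, []), (9, 3, [])]⟩,
    ⟨[(3, 5), (4, 5)], [(1, 4), (2, 4), (4, 3), (5, 0), (5, 3), (5, 4)], [(3, 4)], [5],
      [(2, 4, [1]), (7, 3, [])]⟩]
  Ta := [((1, 0), 0, 1), ((1, 6), 0, 7), ((5, 4), 0, 2), ((5, 9), 0, 3), ((7, 2), 3, 4), ((7, 6),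
    3, 7), ((9, 5), 3, 0), ((9, 8), 3, 5)]
  Tb := [((0, 1, 3), 1, 0, 6), ((1, 0, 6), 0, 1, 7), ((2, 3, 4), 4, 6, 2), ((2, 3, 7), 4, 6, 3),
    ((2, 3, 8), 4, 6, 5), ((2, 4, 7), 4, 2, 3), ((2, 4, 8), 4, 2, 5), ((2, 7, 8), 4, 3, 5),
    ((3, 0, 2), 6, 1, 4), ((4, 2, 5), 2, 4, 0), ((5, 4, 9), 0, 2, 3), ((6, 1, 7), 7, 0, 3),
    ((7, 2, 6), 3, 4, 7), ((8, 2, 9), 5, 4, 3), ((9, 5, 8), 3, 0, 5)]
  Tc := [(1, 2, 4)]
  Td := [((1, 2), (0, 1), 0), ((1, 2), (0, 3), 6), ((1, 4), (0, 1), 0), ((1, 4), (0, 3), 6), ((2,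
    1), (4, 2), 4), ((2, 1), (4, 5), 0), ((4, 1), (2, 3), 6), ((4, 1), (2, 4), 2), ((4, 1),
    (2, 7), 3), ((4, 1), (2, 8), 5)]
  G := [[0, 0x199e87a835ee4144894b6554b349ee188c1592e332d6792d8c1e2, 0,
    0xae57466e9829acd26512e341ee188c924,
    0x8292244234add26dca32922b3d2dd31e332de215d8a7be5872de288c], [0,
    0x1969856812139a486e8182659c641a8c1e4, 0, 0x2238194e4249d49a4c28,
    0xba34c56688a24725829c2823c329c229c], [0, 0, 0x34181a1c2143e1821dae182d4,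
    0x812e144261181cc28, 0x85c122218a8812143e18a3f1e121d4], [0, 0, 0x818e142311e124619e142d8,
    0x4261981c12691ca4528, 0x14148aceb2891614c6aa782112e1dc682d4]]

noncomputable def n3080 : Ent := ⟨e3080, noF, [], [], []⟩

def c3080 : PLift (Cov.check n3080.C.D v3080 = true) := ⟨by decide +kernel⟩

def b3080 : PLift (entF (fidx ts) 400 3080 n3080 = true) := ⟨by decide +kernel⟩

theorem g3080 : GoodF (fidx ts) 400 3080 := GoodF.ofV v3080 n3080 c3080.down b3080.down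

/-- 4648574:2394/3 -/
noncomputable def e3081 : SCfg where
  D := {
    a := 7
    L := 10
    kp := 7
    inn := [(0, 1), (0, 3), (1, 0), (1, 2), (1, 3), (2, 1), (2, 3), (3, 0), (3, 1), (3, 2), (3, 4), (3,
      5), (4, 3), (4, 5), (5, 3), (5, 4), (5, 6), (6, 5)]
    mix := [(0, 0), (0, 1), (1, 0), (1, 2), (1, 3), (2, 2), (2, 4), (3, 1), (3, 4), (3, 5), (4, 1), (4,
      6), (4, 7), (5, 5), (5, 7), (5, 8), (5, 9), (6, 3), (6, 7), (6, 8)]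
    cl := [1, 0, 4, 5, 2, 0, 7, 3, 6, 3]
    chq := [(1, 2), (1, 4), (2, 1), (4, 1)]
    rng := [(0, 1), (0, 3), (1, 0), (1, 6), (2, 3), (2, 4), (3, 0), (3, 2), (3, 7), (3, 8), (4, 2), (4,
      5), (5, 4), (5, 9), (6, 1), (6, 7), (7, 3), (7, 6), (8, 3), (8, 9), (9, 5), (9, 8)]
    lev := [] }
  links := [[1, 7, 8, 3], [7, 0, 3, 2, 9, 10], [9, 1, 3, 11], [11, 2, 1, 0, 8, 4, 5, 12], [5, 3, 8, 13,
    14], [12, 3, 4, 14, 6, 15, 16], [15, 5, 14, 10]]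
  P := {
    a := 7
    N := 17
    nb := [394, 1677, 2570, 6455, 24872, 118872, 50208, 1283, 8345, 3078, 49858, 4620, 67624, 16656,
      9328, 66656, 36896]
    tri := [(0, 1, 3), (0, 1, 7), (0, 3, 8), (0, 7, 8), (1, 2, 3), (1, 2, 9), (1, 7, 10), (1, 9, 10),
      (2, 3, 11), (2, 9, 11), (3, 4, 5), (3, 4, 8), (3, 5, 12), (3, 11, 12), (4, 5, 14), (4, 8,
      13), (4, 13, 14), (5, 6, 14), (5, 6, 15), (5, 12, 16), (5, 15, 16), (6, 10, 14), (6, 10,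
      15)]
    fin := [0, 0, 0, 3, 3, 5, 5, 0, 3, 9, 10, 11, 3, 13, 5, 15, 5]
    chd := [(0, 9), (0, 11)]
    steps := [(0, 1), (0, 2), (0, 7), (3, 4), (3, 8), (3, 12), (5, 6), (5, 14), (5, 16)] }
  rep := [3, 0, 11, 5, 9, 10, 15, 13]

noncomputable def v3081 : Cov.CovD where
  P := 3
  N := 5
  pl := [3, 6, 8]
  lev := [⟨[], [], [(0, 1)], [], [(0, 1, [2, 4]), (1, 0, [])]⟩,
    ⟨[], [(0, 0), (0, 1), (0, 4)], [(1, 4)], [5], [(0, 1, [2, 4]), (2, 4, [1])]⟩,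
    ⟨[(0, 1)], [(1, 1), (1, 2), (1, 4)], [(2, 4)], [], [(2, 4, [1]), (4, 2, [1])]⟩,
    ⟨[(0, 1), (0, 2), (1, 2)], [(0, 0), (0, 1), (0, 2), (1, 0), (1, 1), (1, 2), (1, 4), (2,
      0), (2, 2), (2, 4)], [(0, 0), (0, 2)], [], [(1, 0, []), (4, 2, [1]), (5, 0, [])]⟩,
    ⟨[(0, 3), (1, 3), (2, 3)], [(0, 0), (3, 0), (3, 2), (3, 3)], [(0, 3)], [7], [(1, 0,
      []), (7, 3, [])]⟩,
    ⟨[(0, 3), (1, 3), (2, 3), (3, 4)], [(3, 0), (3, 2), (3, 3), (4, 0), (4, 3)], [(0, 3),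
      (3, 3)], [6], [(5, 0, []), (7, 3, []), (9, 3, [])]⟩,
    ⟨[(3, 5), (4, 5)], [(4, 3), (5, 0), (5, 3)], [], [5, 6], [(7, 3, [])]⟩]
  Ta := [((1, 0), 0, 1), ((1, 6), 0, 7), ((5, 4), 0, 2), ((5, 9), 0, 3), ((7, 3), 3, 5), ((7, 6),
    3, 7), ((9, 5), 3, 0), ((9, 8), 3, 6)]
  Tb := [((0, 1, 3), 1, 0, 5), ((1, 0, 6), 0, 1, 7), ((2, 3, 4), 4, 5, 2), ((3, 0, 2), 5, 1, 4),
    ((3, 0, 7), 5, 1, 3), ((3, 0, 8), 5, 1, 6), ((3, 2, 7), 5, 4, 3), ((3, 2, 8), 5, 4, 6),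
    ((3, 7, 8), 5, 3, 6), ((4, 2, 5), 2, 4, 0), ((5, 4, 9), 0, 2, 3), ((6, 1, 7), 7, 0, 3),
    ((7, 3, 6), 3, 5, 7), ((8, 3, 9), 6, 5, 3), ((9, 5, 8), 3, 0, 6)]
  Tc := [(1, 2, 4)]
  Td := [((1, 2), (0, 1), 0), ((1, 2), (0, 3), 5), ((1, 4), (0, 1), 0), ((1, 4), (0, 3), 5), ((2,
    1), (4, 2), 4), ((2, 1), (4, 5), 0), ((4, 1), (2, 3), 5), ((4, 1), (2, 4), 2)]
  G := [[0, 0x17679876199e88cc14b6515e349ee818845d26592e332de188c1e2, 0,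
    0x92c74188cd2875bed33ede8d855833ede12a8cd24,
    0xd9a78346f872de28428753cb341afe188a23162799ed35eb8ea1d4], [0,
    0x117e814da48543549a41112e1d8e681e2, 0, 0x2638254a8de8a1146263c8ac524,
    0x383d856821b8b148d68282548c64298a1d4], [0, 0, 0x82a14416222184c1a4d13e142d8,
    0x54192a1c54192a1c528, 0x85c122218a4361981a21d3e182d4], [0, 0, 0x84ce128642e182531e182d4,
    0x12a8412a6ac588415c662a1cd24, 0x1214888acef281814c62a7448a2183e591e682d4]]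

noncomputable def n3081 : Ent := ⟨e3081, noF, [], [], []⟩

def c3081 : PLift (Cov.check n3081.C.D v3081 = true) := ⟨by decide +kernel⟩

def b3081 : PLift (entF (fidx ts) 400 3081 n3081 = true) := ⟨by decide +kernel⟩

theorem g3081 : GoodF (fidx ts) 400 3081 := GoodF.ofV v3081 n3081 c3081.down b3081.down

/-- 4648574:2394 -/
noncomputable def e3082 : SCfg where
  D := {
    a := 7
    L := 11
    kp := 8
    inn := [(0, 1), (0, 3), (1, 0), (1, 2), (1, 3), (2, 1), (2, 3), (3, 0), (3, 1), (3, 2), (3, 4), (3,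
      5), (4, 3), (4, 5), (5, 3), (5, 4), (5, 6), (6, 5)]
    mix := [(0, 0), (0, 1), (1, 0), (1, 2), (1, 3), (2, 2), (2, 4), (3, 1), (3, 4), (3, 5), (4, 1), (4,
      6), (4, 7), (5, 5), (5, 7), (5, 8), (5, 9), (6, 7), (6, 8), (6, 10)]
    cl := [1, 0, 4, 6, 2, 0, 7, 3, 5, 3, 8]
    chq := [(1, 2), (1, 4), (2, 1), (4, 1)]
    rng := [(0, 1), (0, 3), (1, 0), (1, 6), (2, 3), (2, 4), (3, 0), (3, 2), (4, 2), (4, 5), (5, 4), (5,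
      9), (6, 1), (6, 7), (7, 6), (7, 10), (8, 9), (8, 10), (9, 5), (9, 8), (10, 7), (10, 8)]
    lev := [] }
  links := [[1, 7, 8, 3], [7, 0, 3, 2, 9, 10], [9, 1, 3, 11], [11, 2, 1, 0, 8, 4, 5, 12], [5, 3, 8, 13,
    14], [12, 3, 4, 14, 6, 15, 16], [15, 5, 14, 17]]
  P := {
    a := 7
    N := 18
    nb := [394, 1677, 2570, 6455, 24872, 118872, 180256, 1283, 8345, 3078, 642, 4620, 67624, 16656,
      139376, 196704, 36896, 49216]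
    tri := [(0, 1, 3), (0, 1, 7), (0, 3, 8), (0, 7, 8), (1, 2, 3), (1, 2, 9), (1, 7, 10), (1, 9, 10),
      (2, 3, 11), (2, 9, 11), (3, 4, 5), (3, 4, 8), (3, 5, 12), (3, 11, 12), (4, 5, 14), (4, 8,
      13), (4, 13, 14), (5, 6, 14), (5, 6, 15), (5, 12, 16), (5, 15, 16), (6, 14, 17), (6, 15,
      17)]
    fin := [0, 0, 0, 3, 3, 5, 5, 0, 3, 9, 10, 11, 3, 13, 5, 15, 5, 17]
    chd := [(0, 9), (0, 11)]
    steps := [(0, 1), (0, 2), (0, 7), (3, 4), (3, 8), (3, 12), (5, 6), (5, 14), (5, 16)] }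
  rep := [3, 0, 11, 5, 9, 15, 10, 13, 17]

noncomputable def v3082 : Cov.CovD where
  P := 3
  N := 6
  pl := [3, 6, 8, 10]
  lev := [⟨[], [], [(0, 1)], [], [(0, 1, [2, 4]), (1, 0, [])]⟩,
    ⟨[], [(0, 0), (0, 1), (0, 4)], [(1, 4)], [6], [(0, 1, [2, 4]), (2, 4, [1])]⟩,
    ⟨[(0, 1)], [(1, 1), (1, 2), (1, 4)], [(2, 4)], [], [(2, 4, [1]), (4, 2, [1])]⟩,
    ⟨[(0, 1), (0, 2), (1, 2)], [(0, 0), (0, 1), (0, 2), (1, 0), (1, 1), (1, 2), (1, 4), (2,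
      0), (2, 2), (2, 4)], [(0, 0), (0, 2)], [], [(1, 0, []), (4, 2, [1]), (5, 0, [])]⟩,
    ⟨[(0, 3), (1, 3), (2, 3)], [(0, 0), (3, 0), (3, 2), (3, 3)], [(0, 3)], [7], [(1, 0,
      []), (7, 3, [])]⟩,
    ⟨[(0, 3), (1, 3), (2, 3), (3, 4)], [(3, 0), (3, 2), (3, 3), (4, 0), (4, 3)], [(0, 3),
      (3, 3)], [5], [(5, 0, []), (7, 3, []), (9, 3, [])]⟩,
    ⟨[(3, 5), (4, 5)], [(4, 3), (5, 0), (5, 3)], [], [5, 8], [(7, 3, [])]⟩]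
  Ta := [((1, 0), 0, 1), ((1, 6), 0, 7), ((5, 4), 0, 2), ((5, 9), 0, 3), ((7, 6), 3, 7), ((7,
    10), 3, 8), ((9, 5), 3, 0), ((9, 8), 3, 5)]
  Tb := [((0, 1, 3), 1, 0, 6), ((1, 0, 6), 0, 1, 7), ((2, 3, 4), 4, 6, 2), ((3, 0, 2), 6, 1, 4),
    ((4, 2, 5), 2, 4, 0), ((5, 4, 9), 0, 2, 3), ((6, 1, 7), 7, 0, 3), ((7, 6, 10), 3, 7, 8),
    ((8, 9, 10), 5, 3, 8), ((9, 5, 8), 3, 0, 5), ((10, 7, 8), 8, 3, 5)]
  Tc := [(1, 2, 4)]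
  Td := [((1, 2), (0, 1), 0), ((1, 2), (0, 3), 6), ((1, 4), (0, 1), 0), ((1, 4), (0, 3), 6), ((2,
    1), (4, 2), 4), ((2, 1), (4, 5), 0), ((4, 1), (2, 3), 6), ((4, 1), (2, 4), 2)]
  G := [[0, 0x9c57127659bcf57ab8ec1945b5ef379afe79eb8c1db8714c18d74bb356fec1e2, 0,
    0x3884db87597cf379afe8d9a7597cf379afe188cd24,
    0x3d9afd8b29e2174771668adb87517e379afe18849ca25b5ef379af683d9af823d4], [0,
    0x1747d14da41144763dc9ac1ba3dc56188c1e8, 0, 0x763dc9a41b8b1d8d681448d24,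
    0x7127b2941e281b8b1d8d682612b8edc5e82d4], [0, 0, 0x93a15416254193a1c25361981c2d8,
    0x54193a1c5361981c528, 0x981253618a153e1881a2221951e1a1d4], [0, 0,
    0x9ace14254193a1c29a3e142d8, 0x54153a95aac1218146a3ef4528,
    0x2898c2325868478a936596687821214189acef21d4]]

noncomputable def n3082 : Ent := ⟨e3082, noF, [], [], [(7, 17, [6903326391201334775872065844685381424292761054348340378595029942300673, 0]), (17, 9, [6903326391201334775872066023091343012537746186634086559781921990148097, 0]), (17, 10, [6903326391201334775872705251651713694319475166462653752416129412796417, 0])]⟩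

def c3082 : PLift (Cov.check n3082.C.D v3082 = true) := ⟨by decide +kernel⟩

def b3082 : PLift (entF (fidx ts) 400 3082 n3082 = true) := ⟨by decide +kernel⟩

theorem g3082 : GoodF (fidx ts) 400 3082 := GoodF.ofV v3082 n3082 c3082.down b3082.down

/-- 4648574:2395/1 -/
noncomputable def e3083 : SCfg where
  D := {
    a := 7
    L := 10
    kp := 7
    inn := [(0, 1), (0, 3), (1, 0), (1, 2), (1, 3), (2, 1), (2, 3), (3, 0), (3, 1), (3, 2), (3, 4), (3,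
      5), (4, 3), (4, 5), (5, 3), (5, 4), (5, 6), (6, 5)]
    mix := [(0, 0), (0, 1), (1, 0), (1, 2), (1, 3), (2, 2), (2, 4), (3, 1), (3, 4), (3, 5), (4, 1), (4,
      6), (4, 7), (5, 5), (5, 7), (5, 8), (5, 9), (6, 0), (6, 8), (6, 9)]
    cl := [1, 0, 4, 6, 2, 0, 7, 3, 5, 3]
    chq := [(1, 2), (1, 4), (2, 1), (4, 1)]
    rng := [(0, 1), (0, 3), (0, 8), (0, 9), (1, 0), (1, 6), (2, 3), (2, 4), (3, 0), (3, 2), (4, 2), (4,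
      5), (5, 4), (5, 9), (6, 1), (6, 7), (7, 6), (7, 8), (8, 0), (8, 7), (9, 0), (9, 5)]
    lev := [] }
  links := [[1, 7, 8, 3], [7, 0, 3, 2, 9, 10], [9, 1, 3, 11], [11, 2, 1, 0, 8, 4, 5, 12], [5, 3, 8, 13,
    14], [12, 3, 4, 14, 15, 6, 16], [16, 5, 15, 7]]
  P := {
    a := 7
    N := 17
    nb := [394, 1677, 2570, 6455, 24872, 118872, 98464, 99651, 8345, 3078, 642, 4620, 67624, 16656,
      41008, 16608, 4320]
    tri := [(0, 1, 3), (0, 1, 7), (0, 3, 8), (0, 7, 8), (1, 2, 3), (1, 2, 9), (1, 7, 10), (1, 9, 10),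
      (2, 3, 11), (2, 9, 11), (3, 4, 5), (3, 4, 8), (3, 5, 12), (3, 11, 12), (4, 5, 14), (4, 8,
      13), (4, 13, 14), (5, 6, 15), (5, 6, 16), (5, 12, 16), (5, 14, 15), (6, 7, 15), (6, 7, 16)]
    fin := [0, 0, 0, 3, 3, 5, 0, 0, 3, 9, 10, 11, 3, 13, 5, 15, 5]
    chd := [(0, 9), (0, 11)]
    steps := [(0, 1), (0, 2), (0, 7), (0, 6), (3, 4), (3, 8), (3, 12), (5, 14), (5, 16)] }
  rep := [3, 0, 11, 5, 9, 15, 10, 13]

noncomputable def v3083 : Cov.CovD where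
  P := 3
  N := 5
  pl := [3, 6, 8]
  lev := [⟨[], [], [(0, 1)], [], [(0, 1, [2, 4]), (1, 0, [])]⟩,
    ⟨[], [(0, 0), (0, 1), (0, 4)], [(1, 4)], [6], [(0, 1, [2, 4]), (2, 4, [1])]⟩,
    ⟨[(0, 1)], [(1, 1), (1, 2), (1, 4)], [(2, 4)], [], [(2, 4, [1]), (4, 2, [1])]⟩,
    ⟨[(0, 1), (0, 2), (1, 2)], [(0, 0), (0, 1), (0, 2), (1, 0), (1, 1), (1, 2), (1, 4), (2,
      0), (2, 2), (2, 4)], [(0, 0), (0, 2)], [], [(1, 0, []), (4, 2, [1]), (5, 0, [])]⟩,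
    ⟨[(0, 3), (1, 3), (2, 3)], [(0, 0), (3, 0), (3, 2), (3, 3)], [(0, 3)], [7], [(1, 0,
      []), (7, 3, [])]⟩,
    ⟨[(0, 3), (1, 3), (2, 3), (3, 4)], [(3, 0), (3, 2), (3, 3), (4, 0), (4, 3)], [(0, 3),
      (3, 3)], [5], [(5, 0, []), (7, 3, []), (9, 3, [])]⟩,
    ⟨[(3, 5), (4, 5)], [(0, 1), (1, 1), (5, 0), (5, 1), (5, 3)], [(1, 3)], [5], [(0, 1, [2,
      4]), (9, 3, [])]⟩]
  Ta := [((1, 0), 0, 1), ((1, 6), 0, 7), ((5, 4), 0, 2), ((5, 9), 0, 3), ((7, 6), 3, 7), ((7, 8),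
    3, 5), ((9, 0), 3, 1), ((9, 5), 3, 0)]
  Tb := [((0, 1, 3), 1, 0, 6), ((0, 1, 8), 1, 0, 5), ((0, 1, 9), 1, 0, 3), ((0, 3, 8), 1, 6, 5),
    ((0, 3, 9), 1, 6, 3), ((0, 8, 9), 1, 5, 3), ((1, 0, 6), 0, 1, 7), ((2, 3, 4), 4, 6, 2),
    ((3, 0, 2), 6, 1, 4), ((4, 2, 5), 2, 4, 0), ((5, 4, 9), 0, 2, 3), ((6, 1, 7), 7, 0, 3),
    ((7, 6, 8), 3, 7, 5), ((8, 0, 7), 5, 1, 3), ((9, 0, 5), 3, 1, 0)]
  Tc := [(1, 2, 4)]
  Td := [((1, 2), (0, 1), 0), ((1, 2), (0, 3), 6), ((1, 2), (0, 8), 5), ((1, 2), (0, 9), 3), ((1,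
    4), (0, 1), 0), ((1, 4), (0, 3), 6), ((1, 4), (0, 8), 5), ((1, 4), (0, 9), 3), ((2, 1),
    (4, 2), 4), ((2, 1), (4, 5), 0), ((4, 1), (2, 3), 6), ((4, 1), (2, 4), 2)]
  G := [[0, 0x61a1c1e48a1a1c1e81c1c161e41e2, 0, 0x5252c2e492c252e4928,
    0x18684365498a2543483843e82483483843e82d4], [0, 0xe1e1681e1e1a41e1e1681e2, 0,
    0xd284d224d248d28, 0xdc3418768241d8741876824187811ec219c], [0, 0,
    0x18ce1424418ca1c2185e142d8, 0xc214c214924, 0x1c61181a214ce182415e182d4], [0, 0,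
    0x815e142841e124815e142d8, 0xd284d248d228d28,
    0x92496644889a2442149e81aca1584a84c841e7288c]]

noncomputable def n3083 : Ent := ⟨e3083, noF, [], [], []⟩

def c3083 : PLift (Cov.check n3083.C.D v3083 = true) := ⟨by decide +kernel⟩

def b3083 : PLift (entF (fidx ts) 400 3083 n3083 = true) := ⟨by decide +kernel⟩

theorem g3083 : GoodF (fidx ts) 400 3083 := GoodF.ofV v3083 n3083 c3083.down b3083.down

/-- 4648574:2395/2 -/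
noncomputable def e3084 : SCfg where
  D := {
    a := 7
    L := 10
    kp := 7
    inn := [(0, 1), (0, 3), (1, 0), (1, 2), (1, 3), (2, 1), (2, 3), (3, 0), (3, 1), (3, 2), (3, 4), (3,
      5), (4, 3), (4, 5), (5, 3), (5, 4), (5, 6), (6, 5)]
    mix := [(0, 0), (0, 1), (1, 0), (1, 2), (1, 3), (2, 2), (2, 4), (3, 1), (3, 4), (3, 5), (4, 1), (4,
      6), (4, 7), (5, 5), (5, 7), (5, 8), (5, 9), (6, 2), (6, 8), (6, 9)]
    cl := [1, 0, 4, 6, 2, 0, 7, 3, 5, 3]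
    chq := [(1, 2), (1, 4), (2, 1), (4, 1)]
    rng := [(0, 1), (0, 3), (1, 0), (1, 6), (2, 3), (2, 4), (2, 8), (2, 9), (3, 0), (3, 2), (4, 2), (4,
      5), (5, 4), (5, 9), (6, 1), (6, 7), (7, 6), (7, 8), (8, 2), (8, 7), (9, 2), (9, 5)]
    lev := [] }
  links := [[1, 7, 8, 3], [7, 0, 3, 2, 9, 10], [9, 1, 3, 11], [11, 2, 1, 0, 8, 4, 5, 12], [5, 3, 8, 13,
    14], [12, 3, 4, 14, 15, 6, 16], [16, 5, 15, 9]]
  P := {
    a := 7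
    N := 17
    nb := [394, 1677, 2570, 6455, 24872, 118872, 98848, 1283, 8345, 101446, 642, 4620, 67624, 16656,
      41008, 16992, 4704]
    tri := [(0, 1, 3), (0, 1, 7), (0, 3, 8), (0, 7, 8), (1, 2, 3), (1, 2, 9), (1, 7, 10), (1, 9, 10),
      (2, 3, 11), (2, 9, 11), (3, 4, 5), (3, 4, 8), (3, 5, 12), (3, 11, 12), (4, 5, 14), (4, 8,
      13), (4, 13, 14), (5, 6, 15), (5, 6, 16), (5, 12, 16), (5, 14, 15), (6, 9, 15), (6, 9, 16)]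
    fin := [0, 0, 0, 3, 3, 5, 5, 0, 3, 9, 10, 11, 3, 13, 5, 15, 5]
    chd := [(0, 9), (0, 11)]
    steps := [(0, 1), (0, 2), (0, 7), (3, 4), (3, 8), (3, 12), (5, 6), (5, 14), (5, 16)] }
  rep := [3, 0, 11, 5, 9, 15, 10, 13]

noncomputable def v3084 : Cov.CovD where
  P := 3
  N := 5
  pl := [3, 6, 8]
  lev := [⟨[], [], [(0, 1)], [], [(0, 1, [2, 4]), (1, 0, [])]⟩,
    ⟨[], [(0, 0), (0, 1), (0, 4)], [(1, 4)], [6], [(0, 1, [2, 4]), (2, 4, [1])]⟩,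
    ⟨[(0, 1)], [(1, 1), (1, 2), (1, 4)], [(2, 4)], [], [(2, 4, [1]), (4, 2, [1])]⟩,
    ⟨[(0, 1), (0, 2), (1, 2)], [(0, 0), (0, 1), (0, 2), (1, 0), (1, 1), (1, 2), (1, 4), (2,
      0), (2, 2), (2, 4)], [(0, 0), (0, 2)], [], [(1, 0, []), (4, 2, [1]), (5, 0, [])]⟩,
    ⟨[(0, 3), (1, 3), (2, 3)], [(0, 0), (3, 0), (3, 2), (3, 3)], [(0, 3)], [7], [(1, 0,
      []), (7, 3, [])]⟩,
    ⟨[(0, 3), (1, 3), (2, 3), (3, 4)], [(3, 0), (3, 2), (3, 3), (4, 0), (4, 3)], [(0, 3),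
      (3, 3)], [5], [(5, 0, []), (7, 3, []), (9, 3, [])]⟩,
    ⟨[(3, 5), (4, 5)], [(1, 4), (2, 4), (5, 0), (5, 3), (5, 4)], [(3, 4)], [5], [(2, 4,
      [1]), (9, 3, [])]⟩]
  Ta := [((1, 0), 0, 1), ((1, 6), 0, 7), ((5, 4), 0, 2), ((5, 9), 0, 3), ((7, 6), 3, 7), ((7, 8),
    3, 5), ((9, 2), 3, 4), ((9, 5), 3, 0)]
  Tb := [((0, 1, 3), 1, 0, 6), ((1, 0, 6), 0, 1, 7), ((2, 3, 4), 4, 6, 2), ((2, 3, 8), 4, 6, 5),
    ((2, 3, 9), 4, 6, 3), ((2, 4, 8), 4, 2, 5), ((2, 4, 9), 4, 2, 3), ((2, 8, 9), 4, 5, 3),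
    ((3, 0, 2), 6, 1, 4), ((4, 2, 5), 2, 4, 0), ((5, 4, 9), 0, 2, 3), ((6, 1, 7), 7, 0, 3),
    ((7, 6, 8), 3, 7, 5), ((8, 2, 7), 5, 4, 3), ((9, 2, 5), 3, 4, 0)]
  Tc := [(1, 2, 4)]
  Td := [((1, 2), (0, 1), 0), ((1, 2), (0, 3), 6), ((1, 4), (0, 1), 0), ((1, 4), (0, 3), 6), ((2,
    1), (4, 2), 4), ((2, 1), (4, 5), 0), ((4, 1), (2, 3), 6), ((4, 1), (2, 4), 2), ((4, 1),
    (2, 8), 5), ((4, 1), (2, 9), 3)]
  G := [[0, 0x248789ab896e48256728cd45ae84329c8ab482de41e2, 0, 0x98582562a98c4267429463e8c24,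
    0x329325382de2112a928528ade284632429265ca2cc], [0,
    0x1f87811ea48719e281f4b845112e1f2d681e2, 0, 0xc14a568112eb8a4521264882c,
    0x1ac7fa568217a51cb64a58a21f2d791ec21d4], [0, 0, 0x1a1e142314e124619e142d8,
    0x642e181a2e18524, 0x8ace12864ce182134e121d4], [0, 0, 0x816e142341e124d13e142d8,
    0x8888344261892654642a189cd28, 0x82c82c85c722218a1ea34c32744889a2ca62ec113eb82d4]]

noncomputable def n3084 : Ent := ⟨e3084, noF, [], [], []⟩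

def c3084 : PLift (Cov.check n3084.C.D v3084 = true) := ⟨by decide +kernel⟩

def b3084 : PLift (entF (fidx ts) 400 3084 n3084 = true) := ⟨by decide +kernel⟩

theorem g3084 : GoodF (fidx ts) 400 3084 := GoodF.ofV v3084 n3084 c3084.down b3084.down

/-- 4648574:2395/3 -/
noncomputable def e3085 : SCfg where
  D := {
    a := 7
    L := 10
    kp := 7
    inn := [(0, 1), (0, 3), (1, 0), (1, 2), (1, 3), (2, 1), (2, 3), (3, 0), (3, 1), (3, 2), (3, 4), (3,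
      5), (4, 3), (4, 5), (5, 3), (5, 4), (5, 6), (6, 5)]
    mix := [(0, 0), (0, 1), (1, 0), (1, 2), (1, 3), (2, 2), (2, 4), (3, 1), (3, 4), (3, 5), (4, 1), (4,
      6), (4, 7), (5, 5), (5, 7), (5, 8), (5, 9), (6, 3), (6, 8), (6, 9)]
    cl := [1, 0, 4, 5, 2, 0, 7, 3, 6, 3]
    chq := [(1, 2), (1, 4), (2, 1), (4, 1)]
    rng := [(0, 1), (0, 3), (1, 0), (1, 6), (2, 3), (2, 4), (3, 0), (3, 2), (3, 8), (3, 9), (4, 2), (4,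
      5), (5, 4), (5, 9), (6, 1), (6, 7), (7, 6), (7, 8), (8, 3), (8, 7), (9, 3), (9, 5)]
    lev := [] }
  links := [[1, 7, 8, 3], [7, 0, 3, 2, 9, 10], [9, 1, 3, 11], [11, 2, 1, 0, 8, 4, 5, 12], [5, 3, 8, 13,
    14], [12, 3, 4, 14, 15, 6, 16], [16, 5, 15, 10]]
  P := {
    a := 7
    N := 17
    nb := [394, 1677, 2570, 6455, 24872, 118872, 99360, 1283, 8345, 3078, 99010, 4620, 67624, 16656,
      41008, 17504, 5216]
    tri := [(0, 1, 3), (0, 1, 7), (0, 3, 8), (0, 7, 8), (1, 2, 3), (1, 2, 9), (1, 7, 10), (1, 9, 10),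
      (2, 3, 11), (2, 9, 11), (3, 4, 5), (3, 4, 8), (3, 5, 12), (3, 11, 12), (4, 5, 14), (4, 8,
      13), (4, 13, 14), (5, 6, 15), (5, 6, 16), (5, 12, 16), (5, 14, 15), (6, 10, 15), (6, 10,
      16)]
    fin := [0, 0, 0, 3, 3, 5, 5, 0, 3, 9, 10, 11, 3, 13, 5, 15, 5]
    chd := [(0, 9), (0, 11)]
    steps := [(0, 1), (0, 2), (0, 7), (3, 4), (3, 8), (3, 12), (5, 6), (5, 14), (5, 16)] }
  rep := [3, 0, 11, 5, 9, 10, 15, 13]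

noncomputable def v3085 : Cov.CovD where
  P := 3
  N := 5
  pl := [3, 6, 8]
  lev := [⟨[], [], [(0, 1)], [], [(0, 1, [2, 4]), (1, 0, [])]⟩,
    ⟨[], [(0, 0), (0, 1), (0, 4)], [(1, 4)], [5], [(0, 1, [2, 4]), (2, 4, [1])]⟩,
    ⟨[(0, 1)], [(1, 1), (1, 2), (1, 4)], [(2, 4)], [], [(2, 4, [1]), (4, 2, [1])]⟩,
    ⟨[(0, 1), (0, 2), (1, 2)], [(0, 0), (0, 1), (0, 2), (1, 0), (1, 1), (1, 2), (1, 4), (2,
      0), (2, 2), (2, 4)], [(0, 0), (0, 2)], [], [(1, 0, []), (4, 2, [1]), (5, 0, [])]⟩,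
    ⟨[(0, 3), (1, 3), (2, 3)], [(0, 0), (3, 0), (3, 2), (3, 3)], [(0, 3)], [7], [(1, 0,
      []), (7, 3, [])]⟩,
    ⟨[(0, 3), (1, 3), (2, 3), (3, 4)], [(3, 0), (3, 2), (3, 3), (4, 0), (4, 3)], [(0, 3),
      (3, 3)], [6], [(5, 0, []), (7, 3, []), (9, 3, [])]⟩,
    ⟨[(3, 5), (4, 5)], [(5, 0), (5, 3)], [], [5, 6], [(9, 3, [])]⟩]
  Ta := [((1, 0), 0, 1), ((1, 6), 0, 7), ((5, 4), 0, 2), ((5, 9), 0, 3), ((7, 6), 3, 7), ((7, 8),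
    3, 6), ((9, 3), 3, 5), ((9, 5), 3, 0)]
  Tb := [((0, 1, 3), 1, 0, 5), ((1, 0, 6), 0, 1, 7), ((2, 3, 4), 4, 5, 2), ((3, 0, 2), 5, 1, 4),
    ((3, 0, 8), 5, 1, 6), ((3, 0, 9), 5, 1, 3), ((3, 2, 8), 5, 4, 6), ((3, 2, 9), 5, 4, 3),
    ((3, 8, 9), 5, 6, 3), ((4, 2, 5), 2, 4, 0), ((5, 4, 9), 0, 2, 3), ((6, 1, 7), 7, 0, 3),
    ((7, 6, 8), 3, 7, 6), ((8, 3, 7), 6, 5, 3), ((9, 3, 5), 3, 5, 0)]
  Tc := [(1, 2, 4)]
  Td := [((1, 2), (0, 1), 0), ((1, 2), (0, 3), 5), ((1, 4), (0, 1), 0), ((1, 4), (0, 3), 5), ((2,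
    1), (4, 2), 4), ((2, 1), (4, 5), 0), ((4, 1), (2, 3), 5), ((4, 1), (2, 4), 2)]
  G := [[0, 0x6e984985184768924e7298d11cee812e54329498bac1e4, 0, 0xb2542e948abac2e546a9ce3ac924,
    0x2a9828a58a368a44672e5463e82b25dc36314e8a1d4], [0,
    0x11fe811ea481f4b141e681112ef12da41e2, 0, 0x112cff16da412c754612a98acc28,
    0xf1a7816dc2813cb14ad6821f1ef11ec21d4], [0, 0, 0x82a144168642e182619e182d4,
    0x9a2e146a2e14928, 0x85ce12864ce182331e121d4], [0, 0, 0x22184c1624261881c2d13e142d8,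
    0x52aa888d4e45263981c82654548b86cd28,
    0x64888885cf2223258a24c13a344a888da2482e2e8e112e782d4]]

noncomputable def n3085 : Ent := ⟨e3085, noF, [], [], []⟩

def c3085 : PLift (Cov.check n3085.C.D v3085 = true) := ⟨by decide +kernel⟩

def b3085 : PLift (entF (fidx ts) 400 3085 n3085 = true) := ⟨by decide +kernel⟩

theorem g3085 : GoodF (fidx ts) 400 3085 := GoodF.ofV v3085 n3085 c3085.down b3085.down

/-- 4648574:2395 -/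
noncomputable def e3086 : SCfg where
  D := {
    a := 7
    L := 11
    kp := 8
    inn := [(0, 1), (0, 3), (1, 0), (1, 2), (1, 3), (2, 1), (2, 3), (3, 0), (3, 1), (3, 2), (3, 4), (3,
      5), (4, 3), (4, 5), (5, 3), (5, 4), (5, 6), (6, 5)]
    mix := [(0, 0), (0, 1), (1, 0), (1, 2), (1, 3), (2, 2), (2, 4), (3, 1), (3, 4), (3, 5), (4, 1), (4,
      6), (4, 7), (5, 5), (5, 7), (5, 8), (5, 9), (6, 8), (6, 9), (6, 10)]
    cl := [1, 0, 4, 6, 2, 0, 7, 3, 5, 3, 8]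
    chq := [(1, 2), (1, 4), (2, 1), (4, 1)]
    rng := [(0, 1), (0, 3), (1, 0), (1, 6), (2, 3), (2, 4), (3, 0), (3, 2), (4, 2), (4, 5), (5, 4), (5,
      9), (6, 1), (6, 7), (7, 6), (7, 8), (8, 7), (8, 10), (9, 5), (9, 10), (10, 8), (10, 9)]
    lev := [] }
  links := [[1, 7, 8, 3], [7, 0, 3, 2, 9, 10], [9, 1, 3, 11], [11, 2, 1, 0, 8, 4, 5, 12], [5, 3, 8, 13,
    14], [12, 3, 4, 14, 15, 6, 16], [16, 5, 15, 17]]
  P := {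
    a := 7
    N := 18
    nb := [394, 1677, 2570, 6455, 24872, 118872, 229408, 1283, 8345, 3078, 642, 4620, 67624, 16656,
      41008, 147552, 135264, 98368]
    tri := [(0, 1, 3), (0, 1, 7), (0, 3, 8), (0, 7, 8), (1, 2, 3), (1, 2, 9), (1, 7, 10), (1, 9, 10),
      (2, 3, 11), (2, 9, 11), (3, 4, 5), (3, 4, 8), (3, 5, 12), (3, 11, 12), (4, 5, 14), (4, 8,
      13), (4, 13, 14), (5, 6, 15), (5, 6, 16), (5, 12, 16), (5, 14, 15), (6, 15, 17), (6, 16,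
      17)]
    fin := [0, 0, 0, 3, 3, 5, 5, 0, 3, 9, 10, 11, 3, 13, 5, 15, 5, 17]
    chd := [(0, 9), (0, 11)]
    steps := [(0, 1), (0, 2), (0, 7), (3, 4), (3, 8), (3, 12), (5, 6), (5, 14), (5, 16)] }
  rep := [3, 0, 11, 5, 9, 15, 10, 13, 17]

noncomputable def v3086 : Cov.CovD where
  P := 3
  N := 6
  pl := [3, 6, 8, 10]
  lev := [⟨[], [], [(0, 1)], [], [(0, 1, [2, 4]), (1, 0, [])]⟩,
    ⟨[], [(0, 0), (0, 1), (0, 4)], [(1, 4)], [6], [(0, 1, [2, 4]), (2, 4, [1])]⟩,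
    ⟨[(0, 1)], [(1, 1), (1, 2), (1, 4)], [(2, 4)], [], [(2, 4, [1]), (4, 2, [1])]⟩,
    ⟨[(0, 1), (0, 2), (1, 2)], [(0, 0), (0, 1), (0, 2), (1, 0), (1, 1), (1, 2), (1, 4), (2,
      0), (2, 2), (2, 4)], [(0, 0), (0, 2)], [], [(1, 0, []), (4, 2, [1]), (5, 0, [])]⟩,
    ⟨[(0, 3), (1, 3), (2, 3)], [(0, 0), (3, 0), (3, 2), (3, 3)], [(0, 3)], [7], [(1, 0,
      []), (7, 3, [])]⟩,
    ⟨[(0, 3), (1, 3), (2, 3), (3, 4)], [(3, 0), (3, 2), (3, 3), (4, 0), (4, 3)], [(0, 3),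
      (3, 3)], [5], [(5, 0, []), (7, 3, []), (9, 3, [])]⟩,
    ⟨[(3, 5), (4, 5)], [(5, 0), (5, 3)], [], [5, 8], [(9, 3, [])]⟩]
  Ta := [((1, 0), 0, 1), ((1, 6), 0, 7), ((5, 4), 0, 2), ((5, 9), 0, 3), ((7, 6), 3, 7), ((7, 8),
    3, 5), ((9, 5), 3, 0), ((9, 10), 3, 8)]
  Tb := [((0, 1, 3), 1, 0, 6), ((1, 0, 6), 0, 1, 7), ((2, 3, 4), 4, 6, 2), ((3, 0, 2), 6, 1, 4),
    ((4, 2, 5), 2, 4, 0), ((5, 4, 9), 0, 2, 3), ((6, 1, 7), 7, 0, 3), ((7, 6, 8), 3, 7, 5),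
    ((8, 7, 10), 5, 3, 8), ((9, 5, 10), 3, 0, 8), ((10, 8, 9), 8, 5, 3)]
  Tc := [(1, 2, 4)]
  Td := [((1, 2), (0, 1), 0), ((1, 2), (0, 3), 6), ((1, 4), (0, 1), 0), ((1, 4), (0, 3), 6), ((2,
    1), (4, 2), 4), ((2, 1), (4, 5), 0), ((4, 1), (2, 3), 6), ((4, 1), (2, 4), 2)]
  G := [[0, 0x6e9dc3a4ae5489aa67ba5dc3e81ae54769ce3ac1e4, 0, 0xba5dc367698c76928ebdc3e4528,
    0xba5ce366e98a2769ba548ede215769ae548ede288c], [0,
    0x11fcff116fa4811fcf746912b2c1bc31d8d6117e8c1e2, 0, 0x1fc754613a98ac54211fcfb12bac528,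
    0x1f1aff116fc2811fcf1f1af6821f1aff114f21e21d4], [0, 0, 0xa419ca1c26a3e14259ace1288c,
    0x6a3e14a419ca1cc28, 0x95ce12865ce182653e181d4], [0, 0, 0x93a1541625361981a4441913e1c2d8,
    0x9814ca6a2c4153ef88765454fac888bcd24,
    0x2e8ea8911eb2642238a32195c1a23fc323786b888da1dca648eec8245]]

noncomputable def n3086 : Ent := ⟨e3086, noF, [], [], [(7, 17, [6903326391201334775872065844685381424292761054348340378595029942317057, 0]), (17, 9, [6903326391201334775872066023091343012537746186634086559781921990164481, 0]), (17, 10, [6903326391201334775872705251651713694319475166462653752416129412812801, 0])]⟩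

def c3086 : PLift (Cov.check n3086.C.D v3086 = true) := ⟨by decide +kernel⟩

def b3086 : PLift (entF (fidx ts) 400 3086 n3086 = true) := ⟨by decide +kernel⟩

theorem g3086 : GoodF (fidx ts) 400 3086 := GoodF.ofV v3086 n3086 c3086.down b3086.down

/-- 4648574:2396 -/
noncomputable def e3087 : SCfg where
  D := {
    a := 7
    L := 11
    kp := 8
    inn := [(0, 1), (0, 3), (1, 0), (1, 2), (1, 3), (2, 1), (2, 3), (3, 0), (3, 1), (3, 2), (3, 4), (3,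
      5), (4, 3), (4, 5), (5, 3), (5, 4), (5, 6), (6, 5)]
    mix := [(0, 0), (0, 1), (1, 0), (1, 2), (1, 3), (2, 2), (2, 4), (3, 1), (3, 4), (3, 5), (4, 1), (4,
      6), (4, 7), (5, 5), (5, 7), (5, 8), (5, 9), (6, 5), (6, 9), (6, 10)]
    cl := [3, 1, 2, 5, 1, 0, 6, 0, 7, 4, 8]
    chq := [(0, 4), (2, 3), (3, 2), (4, 0)]
    rng := [(0, 1), (0, 3), (1, 0), (1, 6), (2, 3), (2, 4), (3, 0), (3, 2), (4, 2), (4, 5), (5, 4), (5,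
      10), (6, 1), (6, 7), (7, 6), (7, 8), (8, 7), (8, 9), (9, 8), (9, 10), (10, 5), (10, 9)]
    lev := [] }
  links := [[1, 7, 8, 3], [7, 0, 3, 2, 9, 10], [9, 1, 3, 11], [11, 2, 1, 0, 8, 4, 5, 12], [5, 3, 8, 13,
    14], [12, 3, 4, 14, 15, 16, 6], [12, 5, 16, 17]]
  P := {
    a := 7
    N := 18
    nb := [394, 1677, 2570, 6455, 24872, 118872, 200736, 1283, 8345, 3078, 642, 4620, 133224, 16656,
      41008, 81952, 163936, 69696]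
    tri := [(0, 1, 3), (0, 1, 7), (0, 3, 8), (0, 7, 8), (1, 2, 3), (1, 2, 9), (1, 7, 10), (1, 9, 10),
      (2, 3, 11), (2, 9, 11), (3, 4, 5), (3, 4, 8), (3, 5, 12), (3, 11, 12), (4, 5, 14), (4, 8,
      13), (4, 13, 14), (5, 6, 12), (5, 6, 16), (5, 14, 15), (5, 15, 16), (6, 12, 17), (6, 16,
      17)]
    fin := [0, 0, 0, 3, 3, 5, 5, 0, 3, 9, 10, 3, 5, 13, 5, 15, 16, 17]
    chd := [(0, 9), (5, 16)]
    steps := [(0, 1), (0, 2), (0, 7), (3, 4), (3, 8), (3, 11), (5, 6), (5, 14), (5, 12)] }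
  rep := [5, 3, 9, 0, 16, 10, 13, 15, 17]

noncomputable def v3087 : Cov.CovD where
  P := 3
  N := 6
  pl := [3, 6, 8, 10]
  lev := [⟨[], [], [(1, 3)], [], [(0, 3, [2]), (1, 1, [])]⟩,
    ⟨[], [(0, 1), (0, 2), (0, 3)], [(2, 3)], [5], [(0, 3, [2]), (2, 2, [3])]⟩,
    ⟨[(0, 1)], [(1, 1), (1, 2), (1, 3)], [(1, 2)], [], [(2, 2, [3]), (4, 1, [])]⟩,
    ⟨[(0, 1), (0, 2), (1, 2)], [(0, 0), (0, 1), (0, 3), (1, 0), (1, 1), (1, 2), (1, 3), (2,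
      0), (2, 1), (2, 2)], [(0, 1), (1, 1)], [], [(1, 1, []), (4, 1, []), (5, 0, [4])]⟩,
    ⟨[(0, 3), (1, 3), (2, 3)], [(0, 1), (3, 0), (3, 1)], [(0, 1)], [6], [(1, 1, []), (7, 0,
      [4])]⟩,
    ⟨[(0, 3), (1, 3), (2, 3), (3, 4)], [(3, 0), (3, 1), (3, 4), (4, 0), (4, 1), (4, 4)],
      [(0, 0), (0, 4)], [7], [(5, 0, [4]), (7, 0, [4]), (9, 4, [0])]⟩,
    ⟨[(3, 5), (4, 5)], [(3, 0), (5, 0), (5, 4)], [(0, 4)], [8], [(5, 0, [4]), (9, 4, [0])]⟩]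
  Ta := [((1, 0), 1, 3), ((1, 6), 1, 6), ((4, 2), 1, 2), ((4, 5), 1, 0), ((5, 4), 0, 1), ((5,
    10), 0, 8), ((7, 6), 0, 6), ((7, 8), 0, 7)]
  Tb := [((0, 1, 3), 3, 1, 5), ((1, 0, 6), 1, 3, 6), ((2, 3, 4), 2, 5, 1), ((3, 0, 2), 5, 3, 2),
    ((4, 2, 5), 1, 2, 0), ((5, 4, 10), 0, 1, 8), ((6, 1, 7), 6, 1, 0), ((7, 6, 8), 0, 6, 7),
    ((8, 7, 9), 7, 0, 4), ((9, 8, 10), 4, 7, 8), ((10, 5, 9), 8, 0, 4)]
  Tc := []
  Td := [((0, 4), (5, 4), 1), ((0, 4), (5, 10), 8), ((0, 4), (7, 6), 6), ((0, 4), (7, 8), 7),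
    ((2, 3), (2, 3), 5), ((2, 3), (2, 4), 1), ((3, 2), (0, 1), 1), ((3, 2), (0, 3), 5), ((4,
    0), (9, 8), 7), ((4, 0), (9, 10), 8)]
  G := [[0, 0, 0xe41eea1c4e41eea1c8ee61e81c8e1, 0, 0xeea1418e41812eee1c81c1a441eaee1c81d], [0,
    0xe2eeaeacee4864428ce824ee662eec4e884ace426aeeceaa8ec4488cd2,
    0xeaee144428ce41eea1c8e42eea1c8e1, 0xee61e81c4ee61e81c8e41eea1c8d2,
    0xeace2341844281ee61e81c8a441eaee1c81e], [0, 0,
    0x1e64537eb8cc254395ec3ea8c2936537ec588c4e1, 0,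
    0x395eb7ac41814482e16593ec788c1a944537e53acc21d], [0, 0,
    0x929253ce48327463258ac81212bbce48e1, 0x1212bbce41812127bce81412b4612d8ac41d,
    0x323259ce41812127dce8112127ece813c]]

noncomputable def n3087 : Ent := ⟨e3087, noF, [], [], []⟩

def c3087 : PLift (Cov.check n3087.C.D v3087 = true) := ⟨by decide +kernel⟩

def b3087 : PLift (entF (fidx ts) 400 3087 n3087 = true) := ⟨by decide +kernel⟩

theorem g3087 : GoodF (fidx ts) 400 3087 := GoodF.ofV v3087 n3087 c3087.down b3087.down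

/-- 4866475:2398 -/
noncomputable def e3088 : SCfg where
  D := {
    a := 7
    L := 11
    kp := 10
    inn := [(0, 1), (0, 5), (1, 0), (1, 2), (1, 3), (1, 5), (1, 6), (2, 1), (2, 3), (2, 6), (3, 1), (3,
      2), (3, 4), (3, 5), (4, 3), (4, 5), (5, 0), (5, 1), (5, 3), (5, 4), (6, 1), (6, 2)]
    mix := [(0, 0), (0, 1), (1, 0), (1, 2), (1, 3), (2, 4), (2, 5), (2, 6), (3, 4), (3, 7), (4, 7), (4,
      8), (5, 1), (5, 8), (5, 9), (6, 2), (6, 6), (6, 10)]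
    cl := [0, 5, 3, 7, 6, 8, 1, 2, 4, 9, 10]
    chq := [(0, 1), (0, 2), (0, 4), (0, 9), (1, 0), (1, 2), (1, 3), (1, 7), (2, 0), (2, 1), (2, 8), (3,
      1), (4, 0), (7, 1), (8, 2), (9, 0)]
    rng := [(0, 1), (0, 3), (1, 0), (1, 9), (2, 3), (2, 10), (3, 0), (3, 2), (4, 5), (4, 7), (5, 4),
      (5, 6), (6, 5), (6, 10), (7, 4), (7, 8), (8, 7), (8, 9), (9, 1), (9, 8), (10, 2), (10, 6)]
    lev := [] }
  links := [[1, 7, 8, 5], [7, 0, 5, 3, 2, 6, 9, 10], [6, 1, 3, 11, 12, 13], [11, 2, 1, 5, 4, 14], [14, 3,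
    5, 15], [15, 4, 3, 1, 0, 8, 16], [9, 1, 2, 13, 17]]
  P := {
    a := 7
    N := 18
    nb := [418, 1773, 14410, 18486, 49192, 98587, 139782, 1283, 65697, 132162, 642, 20492, 10244,
      135236, 34840, 81968, 33056, 8768]
    tri := [(0, 1, 5), (0, 1, 7), (0, 5, 8), (0, 7, 8), (1, 2, 3), (1, 2, 6), (1, 3, 5), (1, 6, 9), (1,
      7, 10), (1, 9, 10), (2, 3, 11), (2, 6, 13), (2, 11, 12), (2, 12, 13), (3, 4, 5), (3, 4, 14),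
      (3, 11, 14), (4, 5, 15), (4, 14, 15), (5, 8, 16), (5, 15, 16), (6, 9, 17), (6, 13, 17)]
    fin := [0, 1, 2, 2, 0, 0, 1, 0, 8, 9, 10, 11, 12, 1, 2, 15, 16, 17]
    chd := [(0, 1), (0, 2), (0, 15), (0, 16), (1, 2), (9, 1), (10, 1), (12, 2)]
    steps := [(0, 5), (0, 4), (0, 7), (1, 6), (1, 13), (2, 3), (2, 14)] }
  rep := [0, 1, 2, 9, 15, 8, 11, 10, 12, 16, 17]

noncomputable def v3088 : Cov.CovD where
  P := 3
  N := 8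
  pl := [1, 4, 10]
  lev := [⟨[], [], [], [5], [(0, 0, [1, 2, 4, 9])]⟩,
    ⟨[], [(0, 0), (0, 3), (0, 7)], [(0, 3), (0, 7), (3, 7)], [], [(0, 0, [1, 2, 4, 9]), (2,
      3, [1]), (3, 7, [1])]⟩,
    ⟨[(0, 1)], [(1, 0), (1, 1), (1, 3), (1, 7), (1, 8)], [(1, 8)], [6], [(5, 8, [2]), (6,
      1, [0, 2, 3, 7])]⟩,
    ⟨[(0, 1), (1, 2)], [(1, 0), (1, 2), (1, 3), (1, 7), (2, 1), (2, 2), (2, 8)], [], [6],
      [(7, 2, [0, 1, 8])]⟩,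
    ⟨[(1, 3), (2, 3)], [(3, 2), (3, 4)], [(2, 4)], [], [(7, 2, [0, 1, 8]), (8, 4, [0])]⟩,
    ⟨[(0, 1), (0, 3), (0, 4), (1, 2), (1, 3), (1, 4), (2, 3), (3, 4)], [(0, 0), (0, 4), (0,
      9), (1, 0), (1, 3), (1, 4), (1, 7), (1, 9), (3, 2), (3, 4), (3, 9), (4, 2), (4, 4), (4,
      9)], [(4, 9)], [5], [(8, 4, [0]), (9, 9, [0])]⟩,
    ⟨[(0, 1), (1, 2), (1, 3), (1, 5), (2, 3)], [(1, 0), (1, 1), (1, 3), (1, 7), (2, 1), (2,
      3), (2, 8)], [(1, 3)], [10], [(2, 3, [1]), (6, 1, [0, 2, 3, 7])]⟩]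
  Ta := []
  Tb := [((0, 1, 3), 0, 5, 7), ((1, 0, 9), 5, 0, 9), ((2, 3, 10), 3, 7, 10), ((3, 0, 2), 7, 0,
    3), ((4, 5, 7), 6, 8, 2), ((5, 4, 6), 8, 6, 1), ((6, 5, 10), 1, 8, 10), ((7, 4, 8), 2, 6,
    4), ((8, 7, 9), 4, 2, 9), ((9, 1, 8), 9, 5, 4), ((10, 2, 6), 10, 3, 1)]
  Tc := [(0, 1, 2), (0, 1, 4), (0, 1, 9), (0, 2, 4), (0, 2, 9), (0, 4, 9), (1, 0, 2), (1, 0, 3),
    (1, 0, 7), (1, 2, 3), (1, 2, 7), (1, 3, 7), (2, 0, 1), (2, 0, 8), (2, 1, 8)]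
  Td := [((0, 1), (0, 1), 5), ((0, 1), (0, 3), 7), ((0, 2), (0, 1), 5), ((0, 2), (0, 3), 7), ((0,
    4), (0, 1), 5), ((0, 4), (0, 3), 7), ((0, 9), (0, 1), 5), ((0, 9), (0, 3), 7), ((1, 0),
    (6, 5), 8), ((1, 0), (6, 10), 10), ((1, 2), (6, 5), 8), ((1, 2), (6, 10), 10), ((1, 3),
    (6, 5), 8), ((1, 3), (6, 10), 10), ((1, 7), (6, 5), 8), ((1, 7), (6, 10), 10), ((2, 0),
    (7, 4), 6), ((2, 0), (7, 8), 4), ((2, 1), (7, 4), 6), ((2, 1), (7, 8), 4), ((2, 8), (7,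
    4), 6), ((2, 8), (7, 8), 4), ((3, 1), (2, 3), 7), ((3, 1), (2, 10), 10), ((4, 0), (8, 7),
    2), ((4, 0), (8, 9), 9), ((7, 1), (3, 0), 0), ((7, 1), (3, 2), 3), ((8, 2), (5, 4), 6),
    ((8, 2), (5, 6), 1), ((9, 0), (9, 1), 5), ((9, 0), (9, 8), 4)]
  G := [[0,
    0x1114e118311141114e118761118e114311182111811141111c1ee111411141111c1e1111c1411a11c3ce,
    0xd1d16d1d1ac12d1d1cd1d16c12c,
    0x512d888f182d8982bd4129999234244942bdd1d2311ddf1ccc2dd251556381282885ad4d44f191242d45ad11dd2d12cd2c,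
    0x51513481818888dd8a3f91d1ad184d94da3bd1d1a411414ed292124555718188861bd1ddde99dddfdd69911d9f18451c4c42c4ebda9189213898792916b18b2135218518e2437ce]]

noncomputable def n3088 : Ent := ⟨e3088, noF, [], [], []⟩

def c3088 : PLift (Cov.check n3088.C.D v3088 = true) := ⟨by decide +kernel⟩

def b3088 : PLift (entF (fidx ts) 400 3088 n3088 = true) := ⟨by decide +kernel⟩

theorem g3088 : GoodF (fidx ts) 400 3088 := GoodF.ofV v3088 n3088 c3088.down b3088.down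

/-- 4866474:2399 -/
noncomputable def e3089 : SCfg where
  D := {
    a := 7
    L := 11
    kp := 9
    inn := [(0, 1), (0, 5), (1, 0), (1, 2), (1, 3), (1, 4), (1, 5), (2, 1), (2, 3), (2, 4), (3, 1), (3,
      2), (3, 5), (3, 6), (4, 1), (4, 2), (5, 0), (5, 1), (5, 3), (6, 3)]
    mix := [(0, 0), (0, 1), (1, 0), (1, 2), (1, 3), (2, 4), (2, 5), (2, 6), (3, 4), (3, 7), (4, 2), (4,
      6), (5, 1), (5, 7), (5, 8), (5, 9), (6, 4), (6, 7), (6, 10)]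
    cl := [3, 0, 4, 5, 1, 6, 2, 0, 7, 8, 9]
    chq := [(0, 1), (1, 0), (1, 2), (1, 3), (1, 4), (1, 5), (2, 1), (3, 1), (4, 1), (5, 1)]
    rng := [(0, 1), (0, 3), (1, 0), (1, 8), (2, 3), (2, 6), (3, 0), (3, 2), (4, 5), (4, 10), (5, 4),
      (5, 6), (6, 2), (6, 5), (7, 9), (7, 10), (8, 1), (8, 9), (9, 7), (9, 8), (10, 4), (10, 7)]
    lev := [] }
  links := [[1, 7, 8, 5], [7, 0, 5, 3, 2, 4, 9, 10], [4, 1, 3, 11, 12, 13], [11, 2, 1, 5, 14, 6], [9, 1,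
    2, 13], [14, 3, 1, 0, 8, 15, 16], [11, 3, 14, 17]]
  P := {
    a := 7
    N := 18
    nb := [418, 1725, 14362, 18534, 8710, 114955, 149512, 1283, 32929, 9234, 642, 135244, 10244, 4628,
      196712, 65824, 49184, 18496]
    tri := [(0, 1, 5), (0, 1, 7), (0, 5, 8), (0, 7, 8), (1, 2, 3), (1, 2, 4), (1, 3, 5), (1, 4, 9), (1,
      7, 10), (1, 9, 10), (2, 3, 11), (2, 4, 13), (2, 11, 12), (2, 12, 13), (3, 5, 14), (3, 6,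
      11), (3, 6, 14), (4, 9, 13), (5, 8, 15), (5, 14, 16), (5, 15, 16), (6, 11, 17), (6, 14, 17)]
    fin := [0, 1, 1, 3, 1, 3, 3, 0, 3, 9, 10, 1, 12, 13, 3, 15, 16, 17]
    chd := [(0, 1), (1, 13), (3, 1), (9, 1), (10, 1)]
    steps := [(0, 7), (1, 2), (1, 4), (1, 11), (3, 5), (3, 6), (3, 8), (3, 14)] }
  rep := [3, 1, 13, 0, 9, 10, 12, 15, 16, 17]

noncomputable def v3089 : Cov.CovD where
  P := 3
  N := 7
  pl := [5, 8, 9, 10]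
  lev := [⟨[], [], [(0, 3)], [], [(0, 3, [1]), (1, 0, [1])]⟩,
    ⟨[], [(0, 0), (0, 3), (0, 4), (0, 5)], [(3, 4), (3, 5), (4, 5)], [], [(0, 3, [1]), (2,
      4, [1]), (3, 5, [1])]⟩,
    ⟨[(0, 1)], [(1, 1), (1, 2), (1, 3), (1, 4), (1, 5)], [(1, 2)], [6], [(4, 1, [0, 2, 3,
      4, 5]), (6, 2, [1])]⟩,
    ⟨[(0, 1), (1, 2)], [(1, 0), (1, 1), (1, 3), (1, 4), (1, 5), (2, 0), (2, 1), (2, 2)],
      [(0, 1)], [], [(4, 1, [0, 2, 3, 4, 5]), (7, 0, [1])]⟩,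
    ⟨[(0, 1), (1, 2), (1, 3), (2, 3)], [(1, 2), (1, 3), (1, 4), (1, 5), (2, 1), (2, 2), (2,
      4)], [(2, 4)], [], [(2, 4, [1]), (6, 2, [1])]⟩,
    ⟨[(0, 1), (0, 3), (1, 2), (1, 3), (1, 4), (2, 3)], [(0, 0), (0, 3), (1, 0), (1, 3), (1,
      4), (1, 5), (3, 0), (3, 1)], [(0, 0)], [7, 8], [(1, 0, [1]), (7, 0, [1])]⟩,
    ⟨[(1, 3), (2, 3), (3, 5)], [(2, 1), (3, 0), (3, 1), (5, 0)], [(0, 1)], [9], [(4, 1, [0,
      2, 3, 4, 5]), (7, 0, [1])]⟩]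
  Ta := [((1, 0), 0, 3), ((1, 8), 0, 7), ((7, 9), 0, 8), ((7, 10), 0, 9)]
  Tb := [((0, 1, 3), 3, 0, 5), ((1, 0, 8), 0, 3, 7), ((2, 3, 6), 4, 5, 2), ((3, 0, 2), 5, 3, 4),
    ((4, 5, 10), 1, 6, 9), ((5, 4, 6), 6, 1, 2), ((6, 2, 5), 2, 4, 6), ((7, 9, 10), 0, 8, 9),
    ((8, 1, 9), 7, 0, 8), ((9, 7, 8), 8, 0, 7), ((10, 4, 7), 9, 1, 0)]
  Tc := [(1, 0, 2), (1, 0, 3), (1, 0, 4), (1, 0, 5), (1, 2, 3), (1, 2, 4), (1, 2, 5), (1, 3, 4),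
    (1, 3, 5), (1, 4, 5)]
  Td := [((0, 1), (1, 0), 3), ((0, 1), (1, 8), 7), ((0, 1), (7, 9), 8), ((0, 1), (7, 10), 9),
    ((1, 0), (4, 5), 6), ((1, 0), (4, 10), 9), ((1, 2), (4, 5), 6), ((1, 2), (4, 10), 9),
    ((1, 3), (4, 5), 6), ((1, 3), (4, 10), 9), ((1, 4), (4, 5), 6), ((1, 4), (4, 10), 9),
    ((1, 5), (4, 5), 6), ((1, 5), (4, 10), 9), ((2, 1), (6, 2), 4), ((2, 1), (6, 5), 6), ((3,
    1), (0, 1), 0), ((3, 1), (0, 3), 5), ((4, 1), (2, 3), 5), ((4, 1), (2, 6), 2), ((5, 1),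
    (3, 0), 3), ((5, 1), (3, 2), 4)]
  G := [[0, 0xcaae14aaa1c416c16cce126aae18c1c,
    0x122441248211c111ec414116c2818acc122182c4f128421414611a11acc111e111ec8c1212c42b1224812482116248de,
    0x221122412284d2221122411288d211c1422c8122c48d2e,
    0x111e111e94211e11c21ab4921284212281228914211a11a9248d111e111e98912182f128421161429e],
    [0, 0xcace12cace12c16cce126cae18c1c,
    0x22282228c122242228c1c2842c2482442cacecacecc6cce6ccec882cceb, 0x222e222e54222e222ec8c21,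
    0xc21821c21421222422289222822289442cacecace9c4cce44a88cace9c9eb]]

noncomputable def n3089 : Ent := ⟨e3089, noF, [], [], []⟩

def c3089 : PLift (Cov.check n3089.C.D v3089 = true) := ⟨by decide +kernel⟩

def b3089 : PLift (entF (fidx ts) 400 3089 n3089 = true) := ⟨by decide +kernel⟩

theorem g3089 : GoodF (fidx ts) 400 3089 := GoodF.ofV v3089 n3089 c3089.down b3089.down

/-- 4649464:2401/1 -/
noncomputable def e3090 : SCfg where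
  D := {
    a := 7
    L := 10
    kp := 7
    inn := [(0, 1), (0, 3), (1, 0), (1, 2), (1, 3), (2, 1), (2, 3), (3, 0), (3, 1), (3, 2), (3, 4), (3,
      5), (4, 3), (5, 3), (5, 6), (6, 5)]
    mix := [(0, 0), (0, 1), (1, 0), (1, 2), (1, 3), (2, 2), (2, 4), (3, 1), (3, 4), (3, 5), (3, 6), (4,
      1), (4, 5), (4, 7), (5, 5), (5, 6), (5, 8), (5, 9), (6, 5), (6, 7), (6, 8)]
    cl := [2, 0, 4, 6, 0, 1, 1, 3, 5, 7]
    chq := [(0, 6), (3, 7), (6, 0), (7, 3)]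
    rng := [(0, 1), (0, 3), (1, 0), (1, 7), (2, 3), (2, 4), (3, 0), (3, 2), (4, 2), (4, 6), (5, 7), (6,
      4), (6, 9), (7, 1), (7, 5), (7, 8), (8, 7), (8, 9), (9, 6), (9, 8)]
    lev := [] }
  links := [[1, 7, 8, 3], [7, 0, 3, 2, 9, 10], [9, 1, 3, 11], [11, 2, 1, 0, 8, 4, 12, 5, 13], [12, 3, 8,
    14], [13, 3, 12, 6, 15, 16], [15, 5, 12, 14]]
  P := {
    a := 7
    N := 17
    nb := [394, 1677, 2570, 14647, 20744, 110664, 53280, 1283, 16537, 3078, 642, 8716, 16504, 67624,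
      37200, 82016, 40992]
    tri := [(0, 1, 3), (0, 1, 7), (0, 3, 8), (0, 7, 8), (1, 2, 3), (1, 2, 9), (1, 7, 10), (1, 9, 10),
      (2, 3, 11), (2, 9, 11), (3, 4, 8), (3, 4, 12), (3, 5, 12), (3, 5, 13), (3, 11, 13), (4, 8,
      14), (4, 12, 14), (5, 6, 12), (5, 6, 15), (5, 13, 16), (5, 15, 16), (6, 12, 14), (6, 14,
      15)]
    fin := [0, 0, 0, 3, 0, 5, 5, 7, 0, 9, 10, 0, 3, 3, 5, 15, 16]
    chd := [(0, 10), (5, 16)]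
    steps := [(0, 1), (0, 2), (0, 8), (0, 4), (0, 11), (3, 12), (3, 13), (5, 6), (5, 14)] }
  rep := [0, 3, 7, 5, 9, 15, 10, 16]

noncomputable def v3090 : Cov.CovD where
  P := 3
  N := 5
  pl := [0, 2, 8]
  lev := [⟨[], [], [], [2], [(1, 0, [6])]⟩,
    ⟨[], [(0, 0), (0, 6)], [], [2, 4], [(3, 6, [0])]⟩,
    ⟨[(0, 1)], [(1, 0), (1, 6)], [], [4], [(4, 0, [6])]⟩,
    ⟨[(0, 1), (0, 2), (1, 2)], [(0, 0), (0, 1), (1, 0), (1, 1), (1, 6), (2, 0), (2, 1)],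
      [(0, 0), (0, 1), (1, 1)], [], [(1, 0, [6]), (4, 0, [6]), (5, 1, []), (6, 1, [])]⟩,
    ⟨[(0, 3), (1, 3), (2, 3)], [(0, 0), (3, 0), (3, 1), (3, 3)], [(0, 1), (0, 3), (1, 3)],
      [], [(1, 0, [6]), (5, 1, []), (7, 3, [7])]⟩,
    ⟨[(0, 3), (1, 3), (2, 3), (3, 4)], [(3, 0), (3, 1), (3, 7), (4, 1)], [(1, 1), (1, 7)],
      [5], [(5, 1, []), (6, 1, []), (9, 7, [3])]⟩,
    ⟨[(3, 5)], [(3, 1), (4, 1), (4, 3), (5, 1), (5, 3), (5, 7)], [(1, 3)], [5], [(5, 1,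
      []), (7, 3, [7])]⟩]
  Ta := [((1, 0), 0, 2), ((1, 7), 0, 3), ((4, 2), 0, 4), ((4, 6), 0, 1), ((5, 7), 1, 3), ((6, 4),
    1, 0), ((6, 9), 1, 7)]
  Tb := [((0, 1, 3), 2, 0, 6), ((1, 0, 7), 0, 2, 3), ((2, 3, 4), 4, 6, 0), ((3, 0, 2), 6, 2, 4),
    ((4, 2, 6), 0, 4, 1), ((6, 4, 9), 1, 0, 7), ((7, 1, 5), 3, 0, 1), ((7, 1, 8), 3, 0, 5),
    ((7, 5, 8), 3, 1, 5), ((8, 7, 9), 5, 3, 7), ((9, 6, 8), 7, 1, 5)]
  Tc := []
  Td := [((0, 6), (1, 0), 2), ((0, 6), (1, 7), 3), ((0, 6), (4, 2), 4), ((0, 6), (4, 6), 1), ((3,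
    7), (7, 1), 0), ((3, 7), (7, 5), 1), ((3, 7), (7, 8), 5), ((6, 0), (3, 0), 2), ((6, 0),
    (3, 2), 4), ((7, 3), (9, 6), 1), ((7, 3), (9, 8), 5)]
  G := [[0, 0, 0x891d549c41448994541dc8119845444891d549cc1e2, 0x891d5c9c414484454898d58cce18,
    0x985545dc888c444891d5c9cc612], [0, 0, 0x591d241591d284591d241e2, 0x59cd249c52582ca18,
    0x59cd282451cda4612], [0, 0, 0, 0x519144581491518c91518858cc2d941848c,
    0x591d14811159c1c8591d184b2], [0, 0x541e4212233c2a891e84e18, 0,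
    0x241842413191c29519244591d284c5, 0x321d142519243423151281c4b8]]

noncomputable def n3090 : Ent := ⟨e3090, noF, [], [], []⟩

def c3090 : PLift (Cov.check n3090.C.D v3090 = true) := ⟨by decide +kernel⟩

def b3090 : PLift (entF (fidx ts) 400 3090 n3090 = true) := ⟨by decide +kernel⟩

theorem g3090 : GoodF (fidx ts) 400 3090 := GoodF.ofV v3090 n3090 c3090.down b3090.down

/-- 4649464:2401 -/
noncomputable def e3091 : SCfg where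
  D := {
    a := 7
    L := 11
    kp := 8
    inn := [(0, 1), (0, 3), (1, 0), (1, 2), (1, 3), (2, 1), (2, 3), (3, 0), (3, 1), (3, 2), (3, 4), (3,
      5), (4, 3), (5, 3), (5, 6), (6, 5)]
    mix := [(0, 0), (0, 1), (1, 0), (1, 2), (1, 3), (2, 2), (2, 4), (3, 1), (3, 4), (3, 5), (3, 6), (4,
      1), (4, 5), (4, 7), (5, 5), (5, 6), (5, 8), (5, 9), (6, 5), (6, 8), (6, 10)]
    cl := [2, 0, 3, 5, 0, 1, 1, 8, 4, 6, 7]
    chq := [(0, 5), (5, 0), (6, 7), (7, 6)]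
    rng := [(0, 1), (0, 3), (1, 0), (1, 7), (2, 3), (2, 4), (3, 0), (3, 2), (4, 2), (4, 6), (5, 7), (5,
      10), (6, 4), (6, 9), (7, 1), (7, 5), (8, 9), (8, 10), (9, 6), (9, 8), (10, 5), (10, 8)]
    lev := [] }
  links := [[1, 7, 8, 3], [7, 0, 3, 2, 9, 10], [9, 1, 3, 11], [11, 2, 1, 0, 8, 4, 12, 5, 13], [12, 3, 8,
    14], [13, 3, 12, 6, 15, 16], [15, 5, 12, 17]]
  P := {
    a := 7
    N := 18
    nb := [394, 1677, 2570, 14647, 20744, 110664, 167968, 1283, 16537, 3078, 642, 8716, 147576, 67624,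
      4368, 196704, 40992, 36928]
    tri := [(0, 1, 3), (0, 1, 7), (0, 3, 8), (0, 7, 8), (1, 2, 3), (1, 2, 9), (1, 7, 10), (1, 9, 10),
      (2, 3, 11), (2, 9, 11), (3, 4, 8), (3, 4, 12), (3, 5, 12), (3, 5, 13), (3, 11, 13), (4, 8,
      14), (4, 12, 14), (5, 6, 12), (5, 6, 15), (5, 13, 16), (5, 15, 16), (6, 12, 17), (6, 15,
      17)]
    fin := [0, 0, 0, 3, 0, 5, 5, 7, 0, 9, 10, 0, 3, 3, 14, 15, 16, 5]
    chd := [(0, 10), (16, 5)]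
    steps := [(0, 1), (0, 2), (0, 8), (0, 4), (0, 11), (3, 12), (3, 13), (5, 6), (5, 17)] }
  rep := [0, 3, 7, 9, 15, 10, 16, 5, 14]

noncomputable def v3091 : Cov.CovD where
  P := 3
  N := 6
  pl := [0, 2, 7, 8]
  lev := [⟨[], [], [], [2], [(1, 0, [5])]⟩,
    ⟨[], [(0, 0), (0, 5)], [], [2, 3], [(3, 5, [0])]⟩,
    ⟨[(0, 1)], [(1, 0), (1, 5)], [], [3], [(4, 0, [5])]⟩,
    ⟨[(0, 1), (0, 2), (1, 2)], [(0, 0), (0, 1), (1, 0), (1, 1), (1, 5), (2, 0), (2, 1)],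
      [(0, 0), (0, 1), (1, 1)], [], [(1, 0, [5]), (4, 0, [5]), (5, 1, []), (6, 1, [])]⟩,
    ⟨[(0, 3), (1, 3), (2, 3)], [(0, 0), (3, 0), (3, 1)], [(0, 1)], [8], [(1, 0, [5]), (5,
      1, [])]⟩,
    ⟨[(0, 3), (1, 3), (2, 3), (3, 4)], [(3, 0), (3, 1), (3, 6), (4, 1)], [(1, 1), (1, 6)],
      [4], [(5, 1, []), (6, 1, []), (9, 6, [7])]⟩,
    ⟨[(3, 5)], [(3, 1), (4, 1), (5, 1), (5, 6), (5, 7)], [(1, 7)], [4], [(5, 1, []), (10,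
      7, [6])]⟩]
  Ta := [((1, 0), 0, 2), ((1, 7), 0, 8), ((4, 2), 0, 3), ((4, 6), 0, 1), ((5, 7), 1, 8), ((5,
    10), 1, 7), ((6, 4), 1, 0), ((6, 9), 1, 6)]
  Tb := [((0, 1, 3), 2, 0, 5), ((1, 0, 7), 0, 2, 8), ((2, 3, 4), 3, 5, 0), ((3, 0, 2), 5, 2, 3),
    ((4, 2, 6), 0, 3, 1), ((5, 7, 10), 1, 8, 7), ((6, 4, 9), 1, 0, 6), ((7, 1, 5), 8, 0, 1),
    ((8, 9, 10), 4, 6, 7), ((9, 6, 8), 6, 1, 4), ((10, 5, 8), 7, 1, 4)]
  Tc := []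
  Td := [((0, 5), (1, 0), 2), ((0, 5), (1, 7), 8), ((0, 5), (4, 2), 3), ((0, 5), (4, 6), 1), ((5,
    0), (3, 0), 2), ((5, 0), (3, 2), 3), ((6, 7), (9, 6), 1), ((6, 7), (9, 8), 4), ((7, 6),
    (10, 5), 1), ((7, 6), (10, 8), 4)]
  G := [[0, 0, 0x9c5459cd58cc19459cdc5c98c19c559cdc588c1e2, 0x58849c559cdc89c559cdc588ce14,
    0x9c559cdc588c9c559cdc588c612], [0, 0, 0x59cd24859cd28459cd241e2, 0x9425c92c59cd28a14,
    0x9425c92c59cd28612], [0, 0, 0, 0x58149c518c45c9149418a941859cd18a9c,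
    0x59cd1429415c91c4359cd1488a], [0, 0x15613cc269a241a5e1c6a4e18, 0,
    0x3a914241462814e6518c2414296d14ad8, 0x52ad1423c51281c29251581c4b8]]

noncomputable def n3091 : Ent := ⟨e3091, noF, [], [], [(14, 17, [6903326391201334775872065844685381424292761054348340378595029942345729, 0])]⟩

def c3091 : PLift (Cov.check n3091.C.D v3091 = true) := ⟨by decide +kernel⟩

def b3091 : PLift (entF (fidx ts) 400 3091 n3091 = true) := ⟨by decide +kernel⟩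

theorem g3091 : GoodF (fidx ts) 400 3091 := GoodF.ofV v3091 n3091 c3091.down b3091.down

/-- 4649464:2402/1 -/
noncomputable def e3092 : SCfg where
  D := {
    a := 7
    L := 10
    kp := 7
    inn := [(0, 1), (0, 3), (1, 0), (1, 2), (1, 3), (2, 1), (2, 3), (3, 0), (3, 1), (3, 2), (3, 4), (3,
      5), (4, 3), (5, 3), (5, 6), (6, 5)]
    mix := [(0, 0), (0, 1), (1, 0), (1, 2), (1, 3), (2, 2), (2, 4), (3, 1), (3, 4), (3, 5), (3, 6), (4,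
      1), (4, 5), (4, 7), (5, 5), (5, 6), (5, 8), (5, 9), (6, 0), (6, 8), (6, 9)]
    cl := [2, 0, 3, 6, 0, 1, 1, 7, 4, 5]
    chq := [(0, 6), (1, 2), (2, 1), (6, 0)]
    rng := [(0, 1), (0, 3), (0, 8), (0, 9), (1, 0), (1, 7), (2, 3), (2, 4), (3, 0), (3, 2), (4, 2), (4,
      6), (5, 7), (5, 8), (6, 4), (6, 9), (7, 1), (7, 5), (8, 0), (8, 5), (9, 0), (9, 6)]
    lev := [] }
  links := [[1, 7, 8, 3], [7, 0, 3, 2, 9, 10], [9, 1, 3, 11], [11, 2, 1, 0, 8, 4, 12, 5, 13], [12, 3, 8,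
    14], [13, 3, 12, 15, 6, 16], [16, 5, 15, 7]]
  P := {
    a := 7
    N := 17
    nb := [394, 1677, 2570, 14647, 20744, 110664, 98464, 99651, 16537, 3078, 642, 8716, 49208, 67624,
      4368, 4320, 8416]
    tri := [(0, 1, 3), (0, 1, 7), (0, 3, 8), (0, 7, 8), (1, 2, 3), (1, 2, 9), (1, 7, 10), (1, 9, 10),
      (2, 3, 11), (2, 9, 11), (3, 4, 8), (3, 4, 12), (3, 5, 12), (3, 5, 13), (3, 11, 13), (4, 8,
      14), (4, 12, 14), (5, 6, 15), (5, 6, 16), (5, 12, 15), (5, 13, 16), (6, 7, 15), (6, 7, 16)]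
    fin := [0, 0, 0, 3, 0, 5, 5, 5, 0, 9, 10, 0, 3, 3, 14, 15, 16]
    chd := [(0, 10), (5, 3)]
    steps := [(0, 1), (0, 2), (0, 8), (0, 4), (0, 11), (3, 12), (3, 13), (5, 6), (5, 7)] }
  rep := [0, 3, 5, 9, 15, 16, 10, 14]

noncomputable def v3092 : Cov.CovD where
  P := 3
  N := 5
  pl := [2, 7, 8, 9]
  lev := [⟨[], [], [(0, 2)], [], [(0, 2, [1]), (1, 0, [6])]⟩,
    ⟨[], [(0, 0), (0, 2), (0, 6)], [(2, 6)], [3], [(0, 2, [1]), (3, 6, [0])]⟩,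
    ⟨[(0, 1)], [(1, 0), (1, 2), (1, 6)], [], [3], [(4, 0, [6])]⟩,
    ⟨[(0, 1), (0, 2), (1, 2)], [(0, 0), (0, 1), (0, 2), (1, 0), (1, 1), (1, 2), (1, 6), (2,
      0), (2, 1)], [(0, 0), (0, 1), (1, 1)], [], [(1, 0, [6]), (4, 0, [6]), (5, 1, [2]), (6,
      1, [2])]⟩,
    ⟨[(0, 3), (1, 3), (2, 3)], [(0, 0), (3, 0), (3, 1)], [(0, 1)], [7], [(1, 0, [6]), (5,
      1, [2])]⟩,
    ⟨[(0, 3), (1, 3), (2, 3), (3, 4)], [(3, 0), (3, 1), (4, 1)], [(1, 1)], [4, 5], [(5, 1,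
      [2]), (6, 1, [2])]⟩,
    ⟨[(3, 5)], [(0, 2), (1, 2), (5, 1), (5, 2)], [], [4, 5], [(0, 2, [1])]⟩]
  Ta := [((1, 0), 0, 2), ((1, 7), 0, 7), ((4, 2), 0, 3), ((4, 6), 0, 1), ((5, 7), 1, 7), ((5, 8),
    1, 4), ((6, 4), 1, 0), ((6, 9), 1, 5)]
  Tb := [((0, 1, 3), 2, 0, 6), ((0, 1, 8), 2, 0, 4), ((0, 1, 9), 2, 0, 5), ((0, 3, 8), 2, 6, 4),
    ((0, 3, 9), 2, 6, 5), ((0, 8, 9), 2, 4, 5), ((1, 0, 7), 0, 2, 7), ((2, 3, 4), 3, 6, 0),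
    ((3, 0, 2), 6, 2, 3), ((4, 2, 6), 0, 3, 1), ((5, 7, 8), 1, 7, 4), ((6, 4, 9), 1, 0, 5),
    ((7, 1, 5), 7, 0, 1), ((8, 0, 5), 4, 2, 1), ((9, 0, 6), 5, 2, 1)]
  Tc := []
  Td := [((0, 6), (1, 0), 2), ((0, 6), (1, 7), 7), ((0, 6), (4, 2), 3), ((0, 6), (4, 6), 1), ((1,
    2), (5, 7), 7), ((1, 2), (5, 8), 4), ((1, 2), (6, 4), 0), ((1, 2), (6, 9), 5), ((2, 1),
    (0, 1), 0), ((2, 1), (0, 3), 6), ((2, 1), (0, 8), 4), ((2, 1), (0, 9), 5), ((6, 0), (3,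
    0), 2), ((6, 0), (3, 2), 3)]
  G := [[0, 0, 0xe1e1c41e14e18c1e1e1c42e8, 0x4152882c221d24618, 0x244821d819cc2152a1dc888cc12],
    [0, 0, 0xe1241e1281e1282e4, 0x2422292c221d24618, 0x821d242152882cc18], [0, 0, 0,
    0x4151882c4821d14838, 0x821d142821d142a151281c4b8], [0, 0x111e841ec2141e141e68a14, 0,
    0x4152882c8221d28434, 0x821d142821d1422428192c4b8]]

noncomputable def n3092 : Ent := ⟨e3092, noF, [], [], []⟩

def c3092 : PLift (Cov.check n3092.C.D v3092 = true) := ⟨by decide +kernel⟩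

def b3092 : PLift (entF (fidx ts) 400 3092 n3092 = true) := ⟨by decide +kernel⟩

theorem g3092 : GoodF (fidx ts) 400 3092 := GoodF.ofV v3092 n3092 c3092.down b3092.down

/-- 4649464:2402/2 -/
noncomputable def e3093 : SCfg where
  D := {
    a := 7
    L := 10
    kp := 7
    inn := [(0, 1), (0, 3), (1, 0), (1, 2), (1, 3), (2, 1), (2, 3), (3, 0), (3, 1), (3, 2), (3, 4), (3,
      5), (4, 3), (5, 3), (5, 6), (6, 5)]
    mix := [(0, 0), (0, 1), (1, 0), (1, 2), (1, 3), (2, 2), (2, 4), (3, 1), (3, 4), (3, 5), (3, 6), (4,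
      1), (4, 5), (4, 7), (5, 5), (5, 6), (5, 8), (5, 9), (6, 2), (6, 8), (6, 9)]
    cl := [3, 0, 2, 6, 0, 1, 1, 7, 4, 5]
    chq := [(1, 2), (2, 1), (2, 3), (3, 2)]
    rng := [(0, 1), (0, 3), (1, 0), (1, 7), (2, 3), (2, 4), (2, 8), (2, 9), (3, 0), (3, 2), (4, 2), (4,
      6), (5, 7), (5, 8), (6, 4), (6, 9), (7, 1), (7, 5), (8, 2), (8, 5), (9, 2), (9, 6)]
    lev := [] }
  links := [[1, 7, 8, 3], [7, 0, 3, 2, 9, 10], [9, 1, 3, 11], [11, 2, 1, 0, 8, 4, 12, 5, 13], [12, 3, 8,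
    14], [13, 3, 12, 15, 6, 16], [16, 5, 15, 9]]
  P := {
    a := 7
    N := 17
    nb := [394, 1677, 2570, 14647, 20744, 110664, 98848, 1283, 16537, 101446, 642, 8716, 49208, 67624,
      4368, 4704, 8800]
    tri := [(0, 1, 3), (0, 1, 7), (0, 3, 8), (0, 7, 8), (1, 2, 3), (1, 2, 9), (1, 7, 10), (1, 9, 10),
      (2, 3, 11), (2, 9, 11), (3, 4, 8), (3, 4, 12), (3, 5, 12), (3, 5, 13), (3, 11, 13), (4, 8,
      14), (4, 12, 14), (5, 6, 15), (5, 6, 16), (5, 12, 15), (5, 13, 16), (6, 9, 15), (6, 9, 16)]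
    fin := [0, 0, 0, 3, 3, 5, 5, 0, 3, 9, 10, 3, 5, 5, 14, 15, 16]
    chd := [(0, 9), (9, 5)]
    steps := [(0, 1), (0, 2), (0, 7), (3, 4), (3, 8), (3, 11), (5, 6), (5, 12), (5, 13)] }
  rep := [3, 5, 9, 0, 15, 16, 10, 14]

noncomputable def v3093 : Cov.CovD where
  P := 3
  N := 5
  pl := [3, 7, 8, 9]
  lev := [⟨[], [], [(0, 3)], [], [(0, 3, [2]), (1, 0, [])]⟩,
    ⟨[], [(0, 0), (0, 2), (0, 3)], [(2, 3)], [6], [(0, 3, [2]), (2, 2, [1, 3])]⟩,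
    ⟨[(0, 1)], [(1, 0), (1, 2), (1, 3)], [(0, 2)], [], [(2, 2, [1, 3]), (4, 0, [])]⟩,
    ⟨[(0, 1), (0, 2), (1, 2)], [(0, 0), (0, 1), (0, 3), (1, 0), (1, 1), (1, 2), (1, 3), (2,
      0), (2, 1), (2, 2)], [(0, 0), (0, 1), (1, 1)], [], [(1, 0, []), (4, 0, []), (5, 1,
      [2]), (6, 1, [2])]⟩,
    ⟨[(0, 3), (1, 3), (2, 3)], [(0, 0), (3, 0), (3, 1)], [(0, 1)], [7], [(1, 0, []), (5, 1,
      [2])]⟩,
    ⟨[(0, 3), (1, 3), (2, 3), (3, 4)], [(3, 0), (3, 1), (4, 1)], [(1, 1)], [4, 5], [(5, 1,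
      [2]), (6, 1, [2])]⟩,
    ⟨[(3, 5)], [(1, 2), (2, 2), (5, 1), (5, 2)], [], [4, 5], [(2, 2, [1, 3])]⟩]
  Ta := [((1, 0), 0, 3), ((1, 7), 0, 7), ((4, 2), 0, 2), ((4, 6), 0, 1), ((5, 7), 1, 7), ((5, 8),
    1, 4), ((6, 4), 1, 0), ((6, 9), 1, 5)]
  Tb := [((0, 1, 3), 3, 0, 6), ((1, 0, 7), 0, 3, 7), ((2, 3, 4), 2, 6, 0), ((2, 3, 8), 2, 6, 4),
    ((2, 3, 9), 2, 6, 5), ((2, 4, 8), 2, 0, 4), ((2, 4, 9), 2, 0, 5), ((2, 8, 9), 2, 4, 5),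
    ((3, 0, 2), 6, 3, 2), ((4, 2, 6), 0, 2, 1), ((5, 7, 8), 1, 7, 4), ((6, 4, 9), 1, 0, 5),
    ((7, 1, 5), 7, 0, 1), ((8, 2, 5), 4, 2, 1), ((9, 2, 6), 5, 2, 1)]
  Tc := [(2, 1, 3)]
  Td := [((1, 2), (5, 7), 7), ((1, 2), (5, 8), 4), ((1, 2), (6, 4), 0), ((1, 2), (6, 9), 5), ((2,
    1), (2, 3), 6), ((2, 1), (2, 4), 0), ((2, 1), (2, 8), 4), ((2, 1), (2, 9), 5), ((2, 3),
    (2, 3), 6), ((2, 3), (2, 4), 0), ((2, 3), (2, 8), 4), ((2, 3), (2, 9), 5), ((3, 2), (0,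
    1), 0), ((3, 2), (0, 3), 6)]
  G := [[0, 0, 0, 0x4428192c124428192c12c, 0x821d819c42824481a42a1dc8198c288842152a1dc8abc], [0,
    0, 0, 0x4152882c424152882c12c, 0xa152882c22a1d2822152882c2b4], [0, 0,
    0xe11448e11884e11442e, 0x4428192c821, 0x2151881c22a1d1822a1d182b4], [0,
    0x1411a811ee481111e1211ce48111e141ec24c3, 0xe1284e1282e1288e1, 0x4428192c421,
    0x2428191c22a1d2822a1d282b4]]

noncomputable def n3093 : Ent := ⟨e3093, noF, [], [], []⟩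

def c3093 : PLift (Cov.check n3093.C.D v3093 = true) := ⟨by decide +kernel⟩

def b3093 : PLift (entF (fidx ts) 400 3093 n3093 = true) := ⟨by decide +kernel⟩

theorem g3093 : GoodF (fidx ts) 400 3093 := GoodF.ofV v3093 n3093 c3093.down b3093.down

/-- 4649464:2402/3 -/
noncomputable def e3094 : SCfg where
  D := {
    a := 7
    L := 10
    kp := 7
    inn := [(0, 1), (0, 3), (1, 0), (1, 2), (1, 3), (2, 1), (2, 3), (3, 0), (3, 1), (3, 2), (3, 4), (3,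
      5), (4, 3), (5, 3), (5, 6), (6, 5)]
    mix := [(0, 0), (0, 1), (1, 0), (1, 2), (1, 3), (2, 2), (2, 4), (3, 1), (3, 4), (3, 5), (3, 6), (4,
      1), (4, 5), (4, 7), (5, 5), (5, 6), (5, 8), (5, 9), (6, 3), (6, 8), (6, 9)]
    cl := [3, 0, 2, 4, 0, 1, 1, 7, 5, 6]
    chq := [(1, 4), (2, 3), (3, 2), (4, 1)]
    rng := [(0, 1), (0, 3), (1, 0), (1, 7), (2, 3), (2, 4), (3, 0), (3, 2), (3, 8), (3, 9), (4, 2), (4,
      6), (5, 7), (5, 8), (6, 4), (6, 9), (7, 1), (7, 5), (8, 3), (8, 5), (9, 3), (9, 6)]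
    lev := [] }
  links := [[1, 7, 8, 3], [7, 0, 3, 2, 9, 10], [9, 1, 3, 11], [11, 2, 1, 0, 8, 4, 12, 5, 13], [12, 3, 8,
    14], [13, 3, 12, 15, 6, 16], [16, 5, 15, 10]]
  P := {
    a := 7
    N := 17
    nb := [394, 1677, 2570, 14647, 20744, 110664, 99360, 1283, 16537, 3078, 99010, 8716, 49208, 67624,
      4368, 5216, 9312]
    tri := [(0, 1, 3), (0, 1, 7), (0, 3, 8), (0, 7, 8), (1, 2, 3), (1, 2, 9), (1, 7, 10), (1, 9, 10),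
      (2, 3, 11), (2, 9, 11), (3, 4, 8), (3, 4, 12), (3, 5, 12), (3, 5, 13), (3, 11, 13), (4, 8,
      14), (4, 12, 14), (5, 6, 15), (5, 6, 16), (5, 12, 15), (5, 13, 16), (6, 10, 15), (6, 10,
      16)]
    fin := [0, 0, 0, 3, 3, 5, 5, 0, 3, 9, 10, 3, 5, 5, 14, 15, 16]
    chd := [(0, 9), (10, 5)]
    steps := [(0, 1), (0, 2), (0, 7), (3, 4), (3, 8), (3, 11), (5, 6), (5, 12), (5, 13)] }
  rep := [3, 5, 9, 0, 10, 15, 16, 14]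

noncomputable def v3094 : Cov.CovD where
  P := 3
  N := 5
  pl := [7, 8, 9]
  lev := [⟨[], [], [(0, 3)], [], [(0, 3, [2]), (1, 0, [])]⟩,
    ⟨[], [(0, 0), (0, 2), (0, 3), (0, 4)], [(2, 3), (2, 4), (3, 4)], [], [(0, 3, [2]), (2,
      2, [3]), (3, 4, [1])]⟩,
    ⟨[(0, 1)], [(1, 0), (1, 2), (1, 3), (1, 4)], [(0, 2)], [], [(2, 2, [3]), (4, 0, [])]⟩,
    ⟨[(0, 1), (0, 2), (1, 2)], [(0, 0), (0, 1), (0, 3), (1, 0), (1, 1), (1, 2), (1, 3), (1,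
      4), (2, 0), (2, 1), (2, 2)], [(0, 0), (0, 1), (1, 1)], [], [(1, 0, []), (4, 0, []), (5,
      1, [4]), (6, 1, [4])]⟩,
    ⟨[(0, 3), (1, 3), (2, 3)], [(0, 0), (3, 0), (3, 1)], [(0, 1)], [7], [(1, 0, []), (5, 1,
      [4])]⟩,
    ⟨[(0, 3), (1, 3), (2, 3), (3, 4)], [(3, 0), (3, 1), (4, 1)], [(1, 1)], [5, 6], [(5, 1,
      [4]), (6, 1, [4])]⟩,
    ⟨[(3, 5)], [(1, 4), (5, 1), (5, 4)], [], [5, 6], [(3, 4, [1])]⟩]
  Ta := [((1, 0), 0, 3), ((1, 7), 0, 7), ((4, 2), 0, 2), ((4, 6), 0, 1), ((5, 7), 1, 7), ((5, 8),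
    1, 5), ((6, 4), 1, 0), ((6, 9), 1, 6)]
  Tb := [((0, 1, 3), 3, 0, 4), ((1, 0, 7), 0, 3, 7), ((2, 3, 4), 2, 4, 0), ((3, 0, 2), 4, 3, 2),
    ((3, 0, 8), 4, 3, 5), ((3, 0, 9), 4, 3, 6), ((3, 2, 8), 4, 2, 5), ((3, 2, 9), 4, 2, 6),
    ((3, 8, 9), 4, 5, 6), ((4, 2, 6), 0, 2, 1), ((5, 7, 8), 1, 7, 5), ((6, 4, 9), 1, 0, 6),
    ((7, 1, 5), 7, 0, 1), ((8, 3, 5), 5, 4, 1), ((9, 3, 6), 6, 4, 1)]
  Tc := []
  Td := [((1, 4), (5, 7), 7), ((1, 4), (5, 8), 5), ((1, 4), (6, 4), 0), ((1, 4), (6, 9), 6), ((2,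
    3), (2, 3), 4), ((2, 3), (2, 4), 0), ((3, 2), (0, 1), 0), ((3, 2), (0, 3), 4), ((4, 1),
    (3, 0), 3), ((4, 1), (3, 2), 2), ((4, 1), (3, 8), 5), ((4, 1), (3, 9), 6)]
  G := [[0, 0, 0, 0x7254827d88cc14424bdc8b29845246a1dce198c4d2,
    0x826d829c41288489644814b54a88c63528c894156a1dc82bc], [0, 0, 0,
    0x827d241824bd2846a1d2485a, 0x4252882c226bd2826a1d282b4], [0, 0,
    0x821d1428241d1824e21d1482e, 0x4418291c424ad1846a1d184d2, 0x826d142824ad1822e1d1823c],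
    [0, 0x111e111e68412, 0x2152882c44422192c2e21d248e1, 0x4418291c424ad2842e1d184d2,
    0x241d2821826d242826d248a5]]

noncomputable def n3094 : Ent := ⟨e3094, noF, [], [], []⟩

def c3094 : PLift (Cov.check n3094.C.D v3094 = true) := ⟨by decide +kernel⟩

def b3094 : PLift (entF (fidx ts) 400 3094 n3094 = true) := ⟨by decide +kernel⟩

theorem g3094 : GoodF (fidx ts) 400 3094 := GoodF.ofV v3094 n3094 c3094.down b3094.down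

/-- 4649464:2402 -/
noncomputable def e3095 : SCfg where
  D := {
    a := 7
    L := 11
    kp := 8
    inn := [(0, 1), (0, 3), (1, 0), (1, 2), (1, 3), (2, 1), (2, 3), (3, 0), (3, 1), (3, 2), (3, 4), (3,
      5), (4, 3), (5, 3), (5, 6), (6, 5)]
    mix := [(0, 0), (0, 1), (1, 0), (1, 2), (1, 3), (2, 2), (2, 4), (3, 1), (3, 4), (3, 5), (3, 6), (4,
      1), (4, 5), (4, 7), (5, 5), (5, 6), (5, 8), (5, 9), (6, 8), (6, 9), (6, 10)]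
    cl := [3, 0, 2, 7, 0, 1, 1, 8, 4, 5, 6]
    chq := [(1, 6), (2, 3), (3, 2), (6, 1)]
    rng := [(0, 1), (0, 3), (1, 0), (1, 7), (2, 3), (2, 4), (3, 0), (3, 2), (4, 2), (4, 6), (5, 7), (5,
      8), (6, 4), (6, 9), (7, 1), (7, 5), (8, 5), (8, 10), (9, 6), (9, 10), (10, 8), (10, 9)]
    lev := [] }
  links := [[1, 7, 8, 3], [7, 0, 3, 2, 9, 10], [9, 1, 3, 11], [11, 2, 1, 0, 8, 4, 12, 5, 13], [12, 3, 8,
    14], [13, 3, 12, 15, 6, 16], [16, 5, 15, 17]]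
  P := {
    a := 7
    N := 18
    nb := [394, 1677, 2570, 14647, 20744, 110664, 229408, 1283, 16537, 3078, 642, 8716, 49208, 67624,
      4368, 135264, 139360, 98368]
    tri := [(0, 1, 3), (0, 1, 7), (0, 3, 8), (0, 7, 8), (1, 2, 3), (1, 2, 9), (1, 7, 10), (1, 9, 10),
      (2, 3, 11), (2, 9, 11), (3, 4, 8), (3, 4, 12), (3, 5, 12), (3, 5, 13), (3, 11, 13), (4, 8,
      14), (4, 12, 14), (5, 6, 15), (5, 6, 16), (5, 12, 15), (5, 13, 16), (6, 15, 17), (6, 16,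
      17)]
    fin := [0, 0, 0, 3, 3, 5, 5, 0, 3, 9, 10, 3, 5, 5, 14, 15, 16, 17]
    chd := [(0, 9), (5, 17)]
    steps := [(0, 1), (0, 2), (0, 7), (3, 4), (3, 8), (3, 11), (5, 6), (5, 12), (5, 13)] }
  rep := [3, 5, 9, 0, 15, 16, 17, 10, 14]

noncomputable def v3095 : Cov.CovD where
  P := 3
  N := 6
  pl := [3, 7, 8, 9]
  lev := [⟨[], [], [(0, 3)], [], [(0, 3, [2]), (1, 0, [])]⟩,
    ⟨[], [(0, 0), (0, 2), (0, 3)], [(2, 3)], [7], [(0, 3, [2]), (2, 2, [3])]⟩,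
    ⟨[(0, 1)], [(1, 0), (1, 2), (1, 3)], [(0, 2)], [], [(2, 2, [3]), (4, 0, [])]⟩,
    ⟨[(0, 1), (0, 2), (1, 2)], [(0, 0), (0, 1), (0, 3), (1, 0), (1, 1), (1, 2), (1, 3), (2,
      0), (2, 1), (2, 2)], [(0, 0), (0, 1), (1, 1)], [], [(1, 0, []), (4, 0, []), (5, 1,
      [6]), (6, 1, [6])]⟩,
    ⟨[(0, 3), (1, 3), (2, 3)], [(0, 0), (3, 0), (3, 1)], [(0, 1)], [8], [(1, 0, []), (5, 1,
      [6])]⟩,
    ⟨[(0, 3), (1, 3), (2, 3), (3, 4)], [(3, 0), (3, 1), (4, 1)], [(1, 1)], [4, 5], [(5, 1,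
      [6]), (6, 1, [6])]⟩,
    ⟨[(3, 5)], [(5, 1), (5, 6)], [], [4, 5], [(10, 6, [1])]⟩]
  Ta := [((1, 0), 0, 3), ((1, 7), 0, 8), ((4, 2), 0, 2), ((4, 6), 0, 1), ((5, 7), 1, 8), ((5, 8),
    1, 4), ((6, 4), 1, 0), ((6, 9), 1, 5)]
  Tb := [((0, 1, 3), 3, 0, 7), ((1, 0, 7), 0, 3, 8), ((2, 3, 4), 2, 7, 0), ((3, 0, 2), 7, 3, 2),
    ((4, 2, 6), 0, 2, 1), ((5, 7, 8), 1, 8, 4), ((6, 4, 9), 1, 0, 5), ((7, 1, 5), 8, 0, 1),
    ((8, 5, 10), 4, 1, 6), ((9, 6, 10), 5, 1, 6), ((10, 8, 9), 6, 4, 5)]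
  Tc := []
  Td := [((1, 6), (5, 7), 8), ((1, 6), (5, 8), 4), ((1, 6), (6, 4), 0), ((1, 6), (6, 9), 5), ((2,
    3), (2, 3), 7), ((2, 3), (2, 4), 0), ((3, 2), (0, 1), 0), ((3, 2), (0, 3), 7), ((6, 1),
    (10, 8), 4), ((6, 1), (10, 9), 5)]
  G := [[0, 0, 0, 0x644e27da39cc1a8846352ebdc8c642ebdca398c4d2,
    0xe27da39c41864482642ebdc826352ebdca88c2ba398412e], [0, 0, 0,
    0xe27d2486352a82c82ebd284d2, 0xe27d24182ebd2816352a82c83c], [0, 0,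
    0xe27d14282ebd18242ebd1842e, 0xe27d1486351a81c8e27d148d2, 0xe27d14282ebd1822ebd1823c],
    [0, 0x11611a11ce48111e111e6841164111e18cc8d2, 0x642a392c42ebd284e27d248e1,
    0xe27d248642a391c82ebd184d2, 0x2ebd2821e27d2482ebd282a5]]

noncomputable def n3095 : Ent := ⟨e3095, noF, [], [], [(7, 17, [6903326391201334775872065844685381424292761054348340378595029942353921, 0]), (17, 9, [6903326391201334775872066023091343012537746186634086559781921990201345, 0]), (17, 10, [6903326391201334775872705251651713694319475166462653752416129412849665, 0])]⟩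

def c3095 : PLift (Cov.check n3095.C.D v3095 = true) := ⟨by decide +kernel⟩

def b3095 : PLift (entF (fidx ts) 400 3095 n3095 = true) := ⟨by decide +kernel⟩

theorem g3095 : GoodF (fidx ts) 400 3095 := GoodF.ofV v3095 n3095 c3095.down b3095.down

/-- 4649464:2403 -/
noncomputable def e3096 : SCfg where
  D := {
    a := 7
    L := 11
    kp := 8
    inn := [(0, 1), (0, 3), (1, 0), (1, 2), (1, 3), (2, 1), (2, 3), (3, 0), (3, 1), (3, 2), (3, 4), (3,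
      5), (4, 3), (5, 3), (5, 6), (6, 5)]
    mix := [(0, 0), (0, 1), (1, 0), (1, 2), (1, 3), (2, 2), (2, 4), (3, 1), (3, 4), (3, 5), (3, 6), (4,
      1), (4, 5), (4, 7), (5, 5), (5, 6), (5, 8), (5, 9), (6, 6), (6, 9), (6, 10)]
    cl := [3, 1, 2, 5, 1, 0, 0, 6, 7, 4, 8]
    chq := [(0, 4), (2, 3), (3, 2), (4, 0)]
    rng := [(0, 1), (0, 3), (1, 0), (1, 7), (2, 3), (2, 4), (3, 0), (3, 2), (4, 2), (4, 6), (5, 7), (5,
      8), (6, 4), (6, 10), (7, 1), (7, 5), (8, 5), (8, 9), (9, 8), (9, 10), (10, 6), (10, 9)]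
    lev := [] }
  links := [[1, 7, 8, 3], [7, 0, 3, 2, 9, 10], [9, 1, 3, 11], [11, 2, 1, 0, 8, 4, 12, 5, 13], [12, 3, 8,
    14], [13, 3, 12, 15, 16, 6], [13, 5, 16, 17]]
  P := {
    a := 7
    N := 18
    nb := [394, 1677, 2570, 14647, 20744, 110664, 204832, 1283, 16537, 3078, 642, 8716, 49208, 133224,
      4368, 69664, 163936, 73792]
    tri := [(0, 1, 3), (0, 1, 7), (0, 3, 8), (0, 7, 8), (1, 2, 3), (1, 2, 9), (1, 7, 10), (1, 9, 10),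
      (2, 3, 11), (2, 9, 11), (3, 4, 8), (3, 4, 12), (3, 5, 12), (3, 5, 13), (3, 11, 13), (4, 8,
      14), (4, 12, 14), (5, 6, 13), (5, 6, 16), (5, 12, 15), (5, 15, 16), (6, 13, 17), (6, 16,
      17)]
    fin := [0, 0, 0, 3, 3, 5, 5, 0, 3, 9, 10, 3, 5, 5, 14, 15, 16, 17]
    chd := [(0, 9), (5, 16)]
    steps := [(0, 1), (0, 2), (0, 7), (3, 4), (3, 8), (3, 11), (5, 6), (5, 12), (5, 13)] }
  rep := [5, 3, 9, 0, 16, 10, 14, 15, 17]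

noncomputable def v3096 : Cov.CovD where
  P := 3
  N := 6
  pl := [3, 7, 8, 10]
  lev := [⟨[], [], [(1, 3)], [], [(0, 3, [2]), (1, 1, [])]⟩,
    ⟨[], [(0, 1), (0, 2), (0, 3)], [(2, 3)], [5], [(0, 3, [2]), (2, 2, [3])]⟩,
    ⟨[(0, 1)], [(1, 1), (1, 2), (1, 3)], [(1, 2)], [], [(2, 2, [3]), (4, 1, [])]⟩,
    ⟨[(0, 1), (0, 2), (1, 2)], [(0, 0), (0, 1), (0, 3), (1, 0), (1, 1), (1, 2), (1, 3), (2,
      0), (2, 1), (2, 2)], [(0, 0), (0, 1), (1, 1)], [], [(1, 1, []), (4, 1, []), (5, 0,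
      [4]), (6, 0, [4])]⟩,
    ⟨[(0, 3), (1, 3), (2, 3)], [(0, 1), (3, 0), (3, 1)], [(0, 1)], [6], [(1, 1, []), (5, 0,
      [4])]⟩,
    ⟨[(0, 3), (1, 3), (2, 3), (3, 4)], [(3, 0), (3, 1), (3, 4), (4, 0)], [(0, 0), (0, 4)],
      [7], [(5, 0, [4]), (6, 0, [4]), (9, 4, [0])]⟩,
    ⟨[(3, 5)], [(3, 0), (5, 0), (5, 4)], [(0, 4)], [8], [(6, 0, [4]), (9, 4, [0])]⟩]
  Ta := [((1, 0), 1, 3), ((1, 7), 1, 6), ((4, 2), 1, 2), ((4, 6), 1, 0), ((5, 7), 0, 6), ((5, 8),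
    0, 7), ((6, 4), 0, 1), ((6, 10), 0, 8)]
  Tb := [((0, 1, 3), 3, 1, 5), ((1, 0, 7), 1, 3, 6), ((2, 3, 4), 2, 5, 1), ((3, 0, 2), 5, 3, 2),
    ((4, 2, 6), 1, 2, 0), ((5, 7, 8), 0, 6, 7), ((6, 4, 10), 0, 1, 8), ((7, 1, 5), 6, 1, 0),
    ((8, 5, 9), 7, 0, 4), ((9, 8, 10), 4, 7, 8), ((10, 6, 9), 8, 0, 4)]
  Tc := []
  Td := [((0, 4), (5, 7), 6), ((0, 4), (5, 8), 7), ((0, 4), (6, 4), 1), ((0, 4), (6, 10), 8),
    ((2, 3), (2, 3), 5), ((2, 3), (2, 4), 1), ((3, 2), (0, 1), 1), ((3, 2), (0, 3), 5), ((4,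
    0), (9, 8), 7), ((4, 0), (9, 10), 8)]
  G := [[0, 0, 0x1438c45964d7a8cc536359ec988c29564e95e38cc8e1, 0,
    0xb93ebeac42814482d961beec588c1de6359ec81b188481d], [0, 0, 0xdb1e24854293a2c8b93e248e1,
    0x39a24b42458593e2814717e2841d, 0x9562382c117ee281717e281b4], [0, 0,
    0xe41eea1c2e41eea1c8ee61e81c8e1, 0, 0xeaee142844181ee61e81c86eee181b881421d], [0,
    0xee6e46e8eeaac4ee6e46eeae8ac8ee6ee6ae8e8ac4d2, 0xeaee144428ce42eea1c8ee62e82c8e1,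
    0xee61e81c1e41eea1c1ee61e81c8d2, 0xee6281e41eea1c8ee6181be81418e824817]]

noncomputable def n3096 : Ent := ⟨e3096, noF, [], [], []⟩

def c3096 : PLift (Cov.check n3096.C.D v3096 = true) := ⟨by decide +kernel⟩

def b3096 : PLift (entF (fidx ts) 400 3096 n3096 = true) := ⟨by decide +kernel⟩

theorem g3096 : GoodF (fidx ts) 400 3096 := GoodF.ofV v3096 n3096 c3096.down b3096.down

/-- 4596445:2404/2 -/
noncomputable def e3097 : SCfg where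
  D := {
    a := 7
    L := 9
    kp := 6
    inn := [(0, 1), (0, 2), (1, 0), (1, 2), (2, 0), (2, 1), (2, 3), (2, 4), (2, 6), (3, 2), (3, 5), (4,
      2), (4, 6), (5, 3), (6, 2), (6, 4)]
    mix := [(0, 0), (0, 1), (1, 1), (1, 2), (1, 3), (2, 0), (2, 3), (2, 4), (2, 5), (3, 4), (3, 5), (3,
      6), (3, 7), (4, 4), (4, 8), (5, 4), (5, 6), (5, 8), (6, 2), (6, 3), (6, 8)]
    cl := [0, 3, 4, 0, 1, 1, 5, 6, 2]
    chq := [(0, 2), (2, 0), (2, 6), (6, 2)]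
    rng := [(0, 1), (0, 5), (1, 0), (1, 2), (2, 1), (2, 3), (2, 8), (3, 2), (4, 8), (5, 0), (5, 7), (6,
      7), (6, 8), (7, 5), (7, 6), (8, 2), (8, 4), (8, 6)]
    lev := [] }
  links := [[1, 2, 7, 8], [2, 0, 8, 9, 10], [7, 0, 1, 10, 6, 4, 11, 3, 12], [12, 2, 11, 5, 13, 14], [11,
    2, 6, 15], [13, 3, 11, 15], [15, 4, 2, 10, 9]]
  P := {
    a := 7
    N := 16
    nb := [390, 1797, 7387, 30756, 34884, 43016, 34324, 4357, 643, 34114, 582, 32828, 16524, 49192,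
      12296, 10864]
    tri := [(0, 1, 2), (0, 1, 8), (0, 2, 7), (0, 7, 8), (1, 2, 10), (1, 8, 9), (1, 9, 10), (2, 3, 11),
      (2, 3, 12), (2, 4, 6), (2, 4, 11), (2, 6, 10), (2, 7, 12), (3, 5, 11), (3, 5, 13), (3, 12,
      14), (3, 13, 14), (4, 6, 15), (4, 11, 15), (5, 11, 15), (5, 13, 15), (6, 9, 10), (6, 9, 15)]
    fin := [0, 0, 2, 3, 0, 3, 0, 0, 8, 9, 0, 2, 2, 13, 14, 3]
    chd := [(0, 3), (14, 3)]
    steps := [(0, 1), (0, 7), (0, 10), (0, 6), (0, 4), (2, 11), (2, 12), (3, 5), (3, 15)] }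
  rep := [0, 2, 3, 8, 9, 13, 14]

noncomputable def v3097 : Cov.CovD where
  P := 3
  N := 4
  pl := [1, 2, 6]
  lev := [⟨[], [], [], [3], [(0, 0, [2])]⟩,
    ⟨[], [(0, 0)], [], [3, 4], [(3, 0, [2])]⟩,
    ⟨[(0, 1)], [(0, 0), (0, 1), (1, 0), (1, 1)], [(0, 0), (0, 1), (1, 1)], [], [(0, 0,
      [2]), (3, 0, [2]), (4, 1, []), (5, 1, [])]⟩,
    ⟨[(0, 2), (1, 2)], [(2, 0), (2, 1), (2, 6)], [(1, 1), (1, 6)], [5], [(4, 1, []), (5, 1,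
      []), (7, 6, [2])]⟩,
    ⟨[(0, 2), (1, 2), (2, 3)], [(2, 0), (2, 1), (2, 2), (3, 1)], [(1, 2)], [], [(4, 1, []),
      (8, 2, [0, 6])]⟩,
    ⟨[(2, 3)], [(2, 1), (3, 1), (3, 2), (3, 6), (4, 1), (4, 2)], [(1, 2)], [5], [(4, 1,
      []), (8, 2, [0, 6])]⟩,
    ⟨[(0, 2), (1, 2), (2, 3), (2, 4)], [(1, 0), (2, 0), (2, 1), (2, 2), (4, 0), (4, 1), (4,
      2), (5, 2)], [(0, 2)], [4], [(3, 0, [2]), (8, 2, [0, 6])]⟩]
  Ta := [((0, 1), 0, 3), ((0, 5), 0, 1), ((3, 2), 0, 4), ((4, 8), 1, 2), ((5, 0), 1, 0), ((5, 7),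
    1, 6)]
  Tb := [((0, 1, 5), 0, 3, 1), ((1, 0, 2), 3, 0, 4), ((2, 1, 3), 4, 3, 0), ((2, 1, 8), 4, 3, 2),
    ((2, 3, 8), 4, 0, 2), ((5, 0, 7), 1, 0, 6), ((6, 7, 8), 5, 6, 2), ((7, 5, 6), 6, 1, 5),
    ((8, 2, 4), 2, 4, 1), ((8, 2, 6), 2, 4, 5), ((8, 4, 6), 2, 1, 5)]
  Tc := [(2, 0, 6)]
  Td := [((0, 2), (0, 1), 3), ((0, 2), (0, 5), 1), ((0, 2), (3, 2), 4), ((2, 0), (8, 2), 4), ((2,
    0), (8, 4), 1), ((2, 0), (8, 6), 5), ((2, 6), (8, 2), 4), ((2, 6), (8, 4), 1), ((2, 6),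
    (8, 6), 5), ((6, 2), (7, 5), 1), ((6, 2), (7, 6), 5)]
  G := [[0, 0, 0x44118a8c1145aac41416, 0x4414c814189c114411458814411451848c2e,
    0x1888891811d48119818858a818452112291188d82e], [0, 0x4188c2c48461c84c44814e21144118a82e,
    0x66c11816ca4181c, 0, 0x88188a1c48112128118d8422122a8a21d81e], [0, 0, 0x6cc1141ccc8141a,
    0x8888891811d484451441418d84c414c88c119c2e, 0x8818898818d4aa914a88a819c2112298281d8e1],
    [0, 0, 0xccc218166681816, 0, 0x882828818d4a21a815a888c211221288d8e1]]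

noncomputable def n3097 : Ent := ⟨e3097, noF, [], [], []⟩

def c3097 : PLift (Cov.check n3097.C.D v3097 = true) := ⟨by decide +kernel⟩

def b3097 : PLift (entF (fidx ts) 400 3097 n3097 = true) := ⟨by decide +kernel⟩

theorem g3097 : GoodF (fidx ts) 400 3097 := GoodF.ofV v3097 n3097 c3097.down b3097.down

/-- 4596445:2404/1 -/
noncomputable def e3098 : SCfg where
  D := {
    a := 7
    L := 10
    kp := 7
    inn := [(0, 1), (0, 2), (1, 0), (1, 2), (2, 0), (2, 1), (2, 3), (2, 4), (2, 6), (3, 2), (3, 5), (4,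
      2), (4, 6), (5, 3), (6, 2), (6, 4)]
    mix := [(0, 0), (0, 1), (1, 1), (1, 2), (1, 3), (2, 0), (2, 3), (2, 4), (2, 5), (3, 4), (3, 5), (3,
      6), (3, 7), (4, 4), (4, 8), (5, 4), (5, 6), (5, 9), (6, 2), (6, 3), (6, 8)]
    cl := [0, 2, 4, 0, 1, 1, 5, 6, 3, 7]
    chq := [(0, 3), (3, 0), (6, 7), (7, 6)]
    rng := [(0, 1), (0, 5), (1, 0), (1, 2), (2, 1), (2, 3), (2, 8), (3, 2), (4, 8), (4, 9), (5, 0), (5,
      7), (6, 7), (6, 9), (7, 5), (7, 6), (8, 2), (8, 4), (9, 4), (9, 6)]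
    lev := [] }
  links := [[1, 2, 7, 8], [2, 0, 8, 9, 10], [7, 0, 1, 10, 6, 4, 11, 3, 12], [12, 2, 11, 5, 13, 14], [11,
    2, 6, 15], [13, 3, 11, 16], [15, 4, 2, 10, 9]]
  P := {
    a := 7
    N := 17
    nb := [390, 1797, 7387, 30756, 34884, 75784, 34324, 4357, 643, 34114, 582, 98364, 16524, 81960,
      12296, 2640, 10272]
    tri := [(0, 1, 2), (0, 1, 8), (0, 2, 7), (0, 7, 8), (1, 2, 10), (1, 8, 9), (1, 9, 10), (2, 3, 11),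
      (2, 3, 12), (2, 4, 6), (2, 4, 11), (2, 6, 10), (2, 7, 12), (3, 5, 11), (3, 5, 13), (3, 12,
      14), (3, 13, 14), (4, 6, 15), (4, 11, 15), (5, 11, 16), (5, 13, 16), (6, 9, 10), (6, 9, 15)]
    fin := [0, 0, 2, 3, 0, 3, 0, 0, 8, 9, 0, 2, 2, 13, 14, 15, 3]
    chd := [(0, 15), (14, 3)]
    steps := [(0, 1), (0, 7), (0, 10), (0, 6), (0, 4), (2, 11), (2, 12), (3, 5), (3, 16)] }
  rep := [0, 2, 8, 15, 9, 13, 14, 3]

noncomputable def v3098 : Cov.CovD where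
  P := 3
  N := 5
  pl := [1, 2, 6]
  lev := [⟨[], [], [], [2], [(0, 0, [3])]⟩,
    ⟨[], [(0, 0)], [], [2, 4], [(3, 0, [3])]⟩,
    ⟨[(0, 1)], [(0, 0), (0, 1), (1, 0), (1, 1)], [(0, 0), (0, 1), (1, 1)], [], [(0, 0,
      [3]), (3, 0, [3]), (4, 1, []), (5, 1, [])]⟩,
    ⟨[(0, 2), (1, 2)], [(2, 0), (2, 1), (2, 6)], [(1, 1), (1, 6)], [5], [(4, 1, []), (5, 1,
      []), (7, 6, [7])]⟩,
    ⟨[(0, 2), (1, 2), (2, 3)], [(2, 0), (2, 1), (2, 3), (3, 1)], [(1, 3)], [], [(4, 1, []),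
      (8, 3, [0])]⟩,
    ⟨[(2, 3)], [(2, 1), (3, 1), (3, 6), (3, 7), (4, 1)], [(1, 7)], [5], [(4, 1, []), (9, 7,
      [6])]⟩,
    ⟨[(0, 2), (1, 2), (2, 3), (2, 4)], [(1, 0), (2, 0), (2, 1), (2, 3), (4, 0), (4, 1), (4,
      3)], [(0, 3)], [4], [(3, 0, [3]), (8, 3, [0])]⟩]
  Ta := [((0, 1), 0, 2), ((0, 5), 0, 1), ((3, 2), 0, 4), ((4, 8), 1, 3), ((4, 9), 1, 7), ((5, 0),
    1, 0), ((5, 7), 1, 6)]
  Tb := [((0, 1, 5), 0, 2, 1), ((1, 0, 2), 2, 0, 4), ((2, 1, 3), 4, 2, 0), ((2, 1, 8), 4, 2, 3),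
    ((2, 3, 8), 4, 0, 3), ((4, 8, 9), 1, 3, 7), ((5, 0, 7), 1, 0, 6), ((6, 7, 9), 5, 6, 7),
    ((7, 5, 6), 6, 1, 5), ((8, 2, 4), 3, 4, 1), ((9, 4, 6), 7, 1, 5)]
  Tc := []
  Td := [((0, 3), (0, 1), 2), ((0, 3), (0, 5), 1), ((0, 3), (3, 2), 4), ((3, 0), (8, 2), 4), ((3,
    0), (8, 4), 1), ((6, 7), (7, 5), 1), ((6, 7), (7, 6), 5), ((7, 6), (9, 4), 1), ((7, 6),
    (9, 6), 5)]
  G := [[0, 0, 0x44914815115c8898ccc1dc119219c466511826c99ca2, 0x44914ee51aa9184e6c9dc18,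
    0xee914ee51eec19c12], [0, 0x4144cc6663a88a22aac16168bec18,
    0x119248115211c2942261221221d4e2, 0x44344ae61aaa14e61dc18, 0x4244ee51a21eea1dc18], [0, 0,
    0, 0x2814aa51aac19c6651669166c1d8c8a914485, 0x44944cc518898ccc1dc6651669166c1d8a2], [0,
    0, 0, 0x82225caa918a61d4665166a1621d8c1, 0x4214cc31821cca1dc221223122c1d8a1]]

noncomputable def n3098 : Ent := ⟨e3098, noF, [], [], [(15, 16, [1580044410770988437309982408355971841652082177953823432505701797889, 0])]⟩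

def c3098 : PLift (Cov.check n3098.C.D v3098 = true) := ⟨by decide +kernel⟩

def b3098 : PLift (entF (fidx ts) 400 3098 n3098 = true) := ⟨by decide +kernel⟩

theorem g3098 : GoodF (fidx ts) 400 3098 := GoodF.ofV v3098 n3098 c3098.down b3098.down

/-- 4596445:2404/3 -/
noncomputable def e3099 : SCfg where
  D := {
    a := 7
    L := 10
    kp := 7
    inn := [(0, 1), (0, 2), (1, 0), (1, 2), (2, 0), (2, 1), (2, 3), (2, 4), (2, 6), (3, 2), (3, 5), (4,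
      2), (4, 6), (5, 3), (6, 2), (6, 4)]
    mix := [(0, 0), (0, 1), (1, 1), (1, 2), (1, 3), (2, 0), (2, 3), (2, 4), (2, 5), (3, 4), (3, 5), (3,
      6), (3, 7), (4, 4), (4, 8), (5, 4), (5, 6), (5, 8), (6, 3), (6, 8), (6, 9)]
    cl := [0, 3, 6, 0, 1, 1, 4, 5, 2, 7]
    chq := [(0, 2), (2, 0), (2, 5), (5, 2)]
    rng := [(0, 1), (0, 5), (1, 0), (1, 2), (2, 1), (2, 3), (3, 2), (3, 9), (4, 8), (5, 0), (5, 7), (6,
      7), (6, 8), (7, 5), (7, 6), (8, 4), (8, 6), (8, 9), (9, 3), (9, 8)]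
    lev := [] }
  links := [[1, 2, 7, 8], [2, 0, 8, 9, 10], [7, 0, 1, 10, 6, 4, 11, 3, 12], [12, 2, 11, 5, 13, 14], [11,
    2, 6, 15], [13, 3, 11, 15], [15, 4, 2, 10, 16]]
  P := {
    a := 7
    N := 17
    nb := [390, 1797, 7387, 30756, 34884, 43016, 99348, 4357, 643, 1282, 66118, 32828, 16524, 49192,
      12296, 75888, 33856]
    tri := [(0, 1, 2), (0, 1, 8), (0, 2, 7), (0, 7, 8), (1, 2, 10), (1, 8, 9), (1, 9, 10), (2, 3, 11),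
      (2, 3, 12), (2, 4, 6), (2, 4, 11), (2, 6, 10), (2, 7, 12), (3, 5, 11), (3, 5, 13), (3, 12,
      14), (3, 13, 14), (4, 6, 15), (4, 11, 15), (5, 11, 15), (5, 13, 15), (6, 10, 16), (6, 15,
      16)]
    fin := [0, 0, 2, 3, 0, 3, 0, 0, 8, 9, 0, 2, 2, 13, 14, 3, 16]
    chd := [(0, 3), (14, 3)]
    steps := [(0, 1), (0, 7), (0, 10), (0, 6), (0, 4), (2, 11), (2, 12), (3, 5), (3, 15)] }
  rep := [0, 2, 3, 8, 13, 14, 9, 16]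

noncomputable def v3099 : Cov.CovD where
  P := 3
  N := 5
  pl := [1, 2, 6, 9]
  lev := [⟨[], [], [], [3], [(0, 0, [2])]⟩,
    ⟨[], [(0, 0)], [], [3, 6], [(3, 0, [2])]⟩,
    ⟨[(0, 1)], [(0, 0), (0, 1), (1, 0), (1, 1)], [(0, 0), (0, 1), (1, 1)], [], [(0, 0,
      [2]), (3, 0, [2]), (4, 1, []), (5, 1, [])]⟩,
    ⟨[(0, 2), (1, 2)], [(2, 0), (2, 1), (2, 5)], [(1, 1), (1, 5)], [4], [(4, 1, []), (5, 1,
      []), (7, 5, [2])]⟩,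
    ⟨[(0, 2), (1, 2), (2, 3)], [(2, 0), (2, 1), (2, 2), (3, 1)], [(1, 2)], [], [(4, 1, []),
      (8, 2, [0, 5])]⟩,
    ⟨[(2, 3)], [(2, 1), (3, 1), (3, 2), (3, 5), (4, 1), (4, 2)], [(1, 2)], [4], [(4, 1,
      []), (8, 2, [0, 5])]⟩,
    ⟨[(0, 2), (1, 2), (2, 3), (2, 4)], [(1, 0), (2, 0), (2, 1), (2, 2), (4, 0), (4, 1), (4,
      2), (5, 2)], [(0, 2)], [7], [(3, 0, [2]), (8, 2, [0, 5])]⟩]
  Ta := [((0, 1), 0, 3), ((0, 5), 0, 1), ((3, 2), 0, 6), ((3, 9), 0, 7), ((4, 8), 1, 2), ((5, 0),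
    1, 0), ((5, 7), 1, 5)]
  Tb := [((0, 1, 5), 0, 3, 1), ((1, 0, 2), 3, 0, 6), ((2, 1, 3), 6, 3, 0), ((3, 2, 9), 0, 6, 7),
    ((5, 0, 7), 1, 0, 5), ((6, 7, 8), 4, 5, 2), ((7, 5, 6), 5, 1, 4), ((8, 4, 6), 2, 1, 4),
    ((8, 4, 9), 2, 1, 7), ((8, 6, 9), 2, 4, 7), ((9, 3, 8), 7, 0, 2)]
  Tc := [(2, 0, 5)]
  Td := [((0, 2), (0, 1), 3), ((0, 2), (0, 5), 1), ((0, 2), (3, 2), 6), ((0, 2), (3, 9), 7), ((2,
    0), (8, 4), 1), ((2, 0), (8, 6), 4), ((2, 0), (8, 9), 7), ((2, 5), (8, 4), 1), ((2, 5),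
    (8, 6), 4), ((2, 5), (8, 9), 7), ((5, 2), (7, 5), 1), ((5, 2), (7, 6), 4)]
  G := [[0, 0, 0x6ac4181c6c41816, 0x1841198114d481154148114d8414841881189c2e,
    0x1881198118d48119811858a88845119818851888c2e], [0,
    0x1141881158e48144188114e841141481198e82e, 0xaca1141ca61181a, 0,
    0x188128112d48112128182d84112128118d82e], [0, 0, 0x66c8181ccc41816,
    0x4414c818891c18dc4454c41c14d8888cc444c88c119ce1,
    0x22914a818898a11dcaa91a115a888caa914a88a189ce1], [0, 0, 0xacc118166681816, 0,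
    0x2214a288a91a11dca214a81a119ca21a1152888a8ce1]]

noncomputable def n3099 : Ent := ⟨e3099, noF, [], [], [(9, 16, [1580044410770988437309982408355971841652082177953823432505701797889, 0])]⟩

def c3099 : PLift (Cov.check n3099.C.D v3099 = true) := ⟨by decide +kernel⟩

def b3099 : PLift (entF (fidx ts) 400 3099 n3099 = true) := ⟨by decide +kernel⟩

theorem g3099 : GoodF (fidx ts) 400 3099 := GoodF.ofV v3099 n3099 c3099.down b3099.down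

/-- 4596445:2404 -/
noncomputable def e3100 : SCfg where
  D := {
    a := 7
    L := 11
    kp := 8
    inn := [(0, 1), (0, 2), (1, 0), (1, 2), (2, 0), (2, 1), (2, 3), (2, 4), (2, 6), (3, 2), (3, 5), (4,
      2), (4, 6), (5, 3), (6, 2), (6, 4)]
    mix := [(0, 0), (0, 1), (1, 1), (1, 2), (1, 3), (2, 0), (2, 3), (2, 4), (2, 5), (3, 4), (3, 5), (3,
      6), (3, 7), (4, 4), (4, 8), (5, 4), (5, 6), (5, 9), (6, 3), (6, 8), (6, 10)]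
    cl := [0, 2, 7, 0, 1, 1, 4, 5, 3, 6, 8]
    chq := [(0, 3), (3, 0), (5, 6), (6, 5)]
    rng := [(0, 1), (0, 5), (1, 0), (1, 2), (2, 1), (2, 3), (3, 2), (3, 10), (4, 8), (4, 9), (5, 0),
      (5, 7), (6, 7), (6, 9), (7, 5), (7, 6), (8, 4), (8, 10), (9, 4), (9, 6), (10, 3), (10, 8)]
    lev := [] }
  links := [[1, 2, 7, 8], [2, 0, 8, 9, 10], [7, 0, 1, 10, 6, 4, 11, 3, 12], [12, 2, 11, 5, 13, 14], [11,
    2, 6, 15], [13, 3, 11, 16], [15, 4, 2, 10, 17]]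
  P := {
    a := 7
    N := 18
    nb := [390, 1797, 7387, 30756, 34884, 75784, 164884, 4357, 643, 1282, 131654, 98364, 16524, 81960,
      12296, 133200, 10272, 33856]
    tri := [(0, 1, 2), (0, 1, 8), (0, 2, 7), (0, 7, 8), (1, 2, 10), (1, 8, 9), (1, 9, 10), (2, 3, 11),
      (2, 3, 12), (2, 4, 6), (2, 4, 11), (2, 6, 10), (2, 7, 12), (3, 5, 11), (3, 5, 13), (3, 12,
      14), (3, 13, 14), (4, 6, 15), (4, 11, 15), (5, 11, 16), (5, 13, 16), (6, 10, 17), (6, 15,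
      17)]
    fin := [0, 0, 2, 3, 0, 3, 0, 0, 8, 9, 0, 2, 2, 13, 14, 15, 3, 17]
    chd := [(0, 15), (14, 3)]
    steps := [(0, 1), (0, 7), (0, 10), (0, 6), (0, 4), (2, 11), (2, 12), (3, 5), (3, 16)] }
  rep := [0, 2, 8, 15, 13, 14, 3, 9, 17]

noncomputable def v3100 : Cov.CovD where
  P := 3
  N := 6
  pl := [1, 2, 6, 10]
  lev := [⟨[], [], [], [2], [(0, 0, [3])]⟩,
    ⟨[], [(0, 0)], [], [2, 7], [(3, 0, [3])]⟩,
    ⟨[(0, 1)], [(0, 0), (0, 1), (1, 0), (1, 1)], [(0, 0), (0, 1), (1, 1)], [], [(0, 0,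
      [3]), (3, 0, [3]), (4, 1, []), (5, 1, [])]⟩,
    ⟨[(0, 2), (1, 2)], [(2, 0), (2, 1), (2, 5)], [(1, 1), (1, 5)], [4], [(4, 1, []), (5, 1,
      []), (7, 5, [6])]⟩,
    ⟨[(0, 2), (1, 2), (2, 3)], [(2, 0), (2, 1), (2, 3), (3, 1)], [(1, 3)], [], [(4, 1, []),
      (8, 3, [0])]⟩,
    ⟨[(2, 3)], [(2, 1), (3, 1), (3, 5), (3, 6), (4, 1)], [(1, 6)], [4], [(4, 1, []), (9, 6,
      [5])]⟩,
    ⟨[(0, 2), (1, 2), (2, 3), (2, 4)], [(1, 0), (2, 0), (2, 1), (2, 3), (4, 0), (4, 1), (4,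
      3)], [(0, 3)], [8], [(3, 0, [3]), (8, 3, [0])]⟩]
  Ta := [((0, 1), 0, 2), ((0, 5), 0, 1), ((3, 2), 0, 7), ((3, 10), 0, 8), ((4, 8), 1, 3), ((4,
    9), 1, 6), ((5, 0), 1, 0), ((5, 7), 1, 5)]
  Tb := [((0, 1, 5), 0, 2, 1), ((1, 0, 2), 2, 0, 7), ((2, 1, 3), 7, 2, 0), ((3, 2, 10), 0, 7, 8),
    ((4, 8, 9), 1, 3, 6), ((5, 0, 7), 1, 0, 5), ((6, 7, 9), 4, 5, 6), ((7, 5, 6), 5, 1, 4),
    ((8, 4, 10), 3, 1, 8), ((9, 4, 6), 6, 1, 4), ((10, 3, 8), 8, 0, 3)]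
  Tc := []
  Td := [((0, 3), (0, 1), 2), ((0, 3), (0, 5), 1), ((0, 3), (3, 2), 7), ((0, 3), (3, 10), 8),
    ((3, 0), (8, 4), 1), ((3, 0), (8, 10), 8), ((5, 6), (7, 5), 1), ((5, 6), (7, 6), 4), ((6,
    5), (9, 4), 1), ((6, 5), (9, 6), 4)]
  G := [[0, 0, 0x115115c119811c11ccd41194481194414115a1d11981818e4ddce8,
    0x4454ee91eec1daa518c14, 0xee914ee51eec19c12], [0,
    0x11115a8121811e11c11c66115113a11a11a11119ce2c4, 0x119211c2511528c1152119211c2d468,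
    0x621ee916e61d88618c14, 0x44924ea31a21eec1dc12], [0, 0, 0,
    0x44944ee5181a299eec1dc6654ee91eec1daa588cc1, 0x44914ee51aa91eec1dcee91eec15ee518ca2],
    [0, 0, 0, 0x486154222c554e871a2188878dc42615e21eea1da8318cc1,
    0x62442ce71a28eea1dc221ee31ee61dc218ca2]]

noncomputable def n3100 : Ent := ⟨e3100, noF, [], [], [(9, 17, [6903326391201334775872065844685381424292761054348340378595029942378497, 0]), (15, 16, [7334685537875745012586738086077695515070955365108989538292687706370049, 0])]⟩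

def c3100 : PLift (Cov.check n3100.C.D v3100 = true) := ⟨by decide +kernel⟩

def b3100 : PLift (entF (fidx ts) 400 3100 n3100 = true) := ⟨by decide +kernel⟩

theorem g3100 : GoodF (fidx ts) 400 3100 := GoodF.ofV v3100 n3100 c3100.down b3100.down

/-- 4596447:2405 -/
noncomputable def e3101 : SCfg where
  D := {
    a := 7
    L := 11
    kp := 9
    inn := [(0, 1), (0, 2), (1, 0), (1, 2), (2, 0), (2, 1), (2, 3), (2, 4), (2, 6), (3, 2), (3, 5), (3,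
      6), (4, 2), (4, 6), (5, 3), (5, 6), (6, 2), (6, 3), (6, 4), (6, 5)]
    mix := [(0, 0), (0, 1), (1, 1), (1, 2), (1, 3), (2, 0), (2, 3), (2, 4), (2, 5), (3, 5), (3, 6), (3,
      7), (4, 4), (4, 8), (5, 6), (5, 9), (6, 8), (6, 9), (6, 10)]
    cl := [1, 4, 7, 2, 0, 0, 5, 8, 6, 3, 9]
    chq := [(0, 3), (0, 7), (0, 9), (1, 7), (3, 0), (3, 8), (7, 0), (7, 1), (8, 3), (9, 0)]
    rng := [(0, 1), (0, 5), (1, 0), (1, 2), (2, 1), (2, 3), (3, 2), (3, 4), (4, 3), (4, 8), (5, 0), (5,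
      7), (6, 7), (6, 9), (7, 5), (7, 6), (8, 4), (8, 10), (9, 6), (9, 10), (10, 8), (10, 9)]
    lev := [] }
  links := [[1, 2, 7, 8], [2, 0, 8, 9, 10], [7, 0, 1, 10, 11, 4, 6, 3, 12], [12, 2, 6, 5, 13, 14], [6, 2,
    11, 15], [13, 3, 6, 16], [16, 5, 3, 2, 4, 15, 17]]
  P := {
    a := 7
    N := 18
    nb := [390, 1797, 7387, 28772, 34884, 73800, 229436, 4357, 643, 1282, 2566, 33812, 16524, 81960,
      12296, 133200, 139360, 98368]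
    tri := [(0, 1, 2), (0, 1, 8), (0, 2, 7), (0, 7, 8), (1, 2, 10), (1, 8, 9), (1, 9, 10), (2, 3, 6),
      (2, 3, 12), (2, 4, 6), (2, 4, 11), (2, 7, 12), (2, 10, 11), (3, 5, 6), (3, 5, 13), (3, 12,
      14), (3, 13, 14), (4, 6, 15), (4, 11, 15), (5, 6, 16), (5, 13, 16), (6, 15, 17), (6, 16,
      17)]
    fin := [0, 1, 2, 3, 2, 3, 2, 0, 8, 1, 10, 2, 2, 13, 14, 15, 3, 17]
    chd := [(0, 1), (1, 2), (2, 3), (2, 17), (14, 3)]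
    steps := [(0, 7), (1, 9), (2, 4), (2, 6), (2, 11), (2, 12), (3, 5), (3, 16)] }
  rep := [2, 0, 10, 3, 8, 13, 15, 1, 14, 17]

noncomputable def v3101 : Cov.CovD where
  P := 3
  N := 7
  pl := [1, 3, 6, 8]
  lev := [⟨[], [], [], [4], [(0, 1, [7])]⟩,
    ⟨[], [(0, 1), (0, 7)], [], [2, 4], [(2, 7, [0, 1])]⟩,
    ⟨[(0, 1)], [(0, 0), (0, 1), (1, 0), (1, 1), (1, 7)], [(0, 0), (0, 1)], [2], [(0, 1,
      [7]), (4, 0, [3, 7, 9]), (5, 0, [3, 7, 9])]⟩,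
    ⟨[(0, 2), (1, 2)], [(2, 0), (2, 1), (2, 8)], [(0, 8)], [5], [(5, 0, [3, 7, 9]), (7, 8,
      [3])]⟩,
    ⟨[(0, 2), (1, 2), (2, 3)], [(2, 0), (2, 1)], [], [6], [(4, 0, [3, 7, 9])]⟩,
    ⟨[(2, 3)], [(3, 0), (3, 3), (3, 8)], [], [5], [(9, 3, [0, 8])]⟩,
    ⟨[(0, 2), (1, 2), (2, 3), (2, 4), (2, 5), (3, 4), (3, 5), (4, 5)], [(2, 0), (2, 1), (2,
      3), (2, 9), (3, 0), (3, 3), (3, 8), (3, 9), (4, 0), (4, 3), (4, 9), (5, 3), (5, 9)],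
      [(3, 9)], [6], [(9, 3, [0, 8]), (10, 9, [0])]⟩]
  Ta := [((4, 3), 0, 2), ((4, 8), 0, 6), ((5, 0), 0, 1), ((5, 7), 0, 8)]
  Tb := [((0, 1, 5), 1, 4, 0), ((1, 0, 2), 4, 1, 7), ((2, 1, 3), 7, 4, 2), ((3, 2, 4), 2, 7, 0),
    ((4, 3, 8), 0, 2, 6), ((5, 0, 7), 0, 1, 8), ((6, 7, 9), 5, 8, 3), ((7, 5, 6), 8, 0, 5),
    ((8, 4, 10), 6, 0, 9), ((9, 6, 10), 3, 5, 9), ((10, 8, 9), 9, 6, 3)]
  Tc := [(0, 3, 7), (0, 3, 9), (0, 7, 9), (3, 0, 8), (7, 0, 1)]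
  Td := [((0, 3), (4, 3), 2), ((0, 3), (4, 8), 6), ((0, 3), (5, 0), 1), ((0, 3), (5, 7), 8), ((0,
    7), (4, 3), 2), ((0, 7), (4, 8), 6), ((0, 7), (5, 0), 1), ((0, 7), (5, 7), 8), ((0, 9),
    (4, 3), 2), ((0, 9), (4, 8), 6), ((0, 9), (5, 0), 1), ((0, 9), (5, 7), 8), ((1, 7), (0,
    1), 4), ((1, 7), (0, 5), 0), ((3, 0), (9, 6), 5), ((3, 0), (9, 10), 9), ((3, 8), (9, 6),
    5), ((3, 8), (9, 10), 9), ((7, 0), (2, 1), 4), ((7, 0), (2, 3), 2), ((7, 1), (2, 1), 4),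
    ((7, 1), (2, 3), 2), ((8, 3), (7, 5), 0), ((8, 3), (7, 6), 5), ((9, 0), (10, 8), 6), ((9,
    0), (10, 9), 3)]
  G := [[0, 0, 0x111214e1111aa11c116e4811116611a119611511ae8411115611311a61111cce82d,
    0x31313cea9131a31cd99682a4f488214c446431871371611598338e59c1156426849f8c174731639a11676cf159ca8823c1d,
    0x113719611c1196681153135617a8f3ab1e715c684826f85111668831151166886422418582e12c184e8e64f83d],
    [0, 0x11115611a119c11511ce81116113c11911a11119ae416, 0,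
    0x1411ab1e11a11aad111cae48116116613511ac11c71ce8411a135641161161b11c11caac1d,
    0x11a31611c11c6681116116611a11aa11c11c6e8511166883115133688124841983d]]

noncomputable def n3101 : Ent := ⟨e3101, noF, [], [], []⟩

def c3101 : PLift (Cov.check n3101.C.D v3101 = true) := ⟨by decide +kernel⟩

def b3101 : PLift (entF (fidx ts) 400 3101 n3101 = true) := ⟨by decide +kernel⟩

theorem g3101 : GoodF (fidx ts) 400 3101 := GoodF.ofV v3101 n3101 c3101.down b3101.down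

/-- 4596445:2406/1 -/
noncomputable def e3102 : SCfg where
  D := {
    a := 7
    L := 10
    kp := 7
    inn := [(0, 1), (0, 2), (1, 0), (1, 2), (2, 0), (2, 1), (2, 3), (2, 4), (2, 6), (3, 2), (3, 5), (4,
      2), (4, 6), (5, 3), (6, 2), (6, 4)]
    mix := [(0, 0), (0, 1), (1, 1), (1, 2), (1, 3), (2, 0), (2, 3), (2, 4), (2, 5), (3, 4), (3, 5), (3,
      6), (3, 7), (4, 4), (4, 8), (5, 1), (5, 6), (5, 7), (6, 3), (6, 8), (6, 9)]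
    cl := [0, 2, 6, 0, 1, 1, 4, 5, 3, 7]
    chq := [(0, 3), (1, 2), (2, 1), (3, 0)]
    rng := [(0, 1), (0, 5), (1, 0), (1, 2), (1, 6), (1, 7), (2, 1), (2, 3), (3, 2), (3, 9), (4, 6), (4,
      8), (5, 0), (5, 7), (6, 1), (6, 4), (7, 1), (7, 5), (8, 4), (8, 9), (9, 3), (9, 8)]
    lev := [] }
  links := [[1, 2, 7, 8], [2, 0, 8, 9, 10], [7, 0, 1, 10, 6, 4, 11, 3, 12], [12, 2, 11, 13, 5, 14], [11,
    2, 6, 15], [14, 3, 13, 8], [15, 4, 2, 10, 16]]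
  P := {
    a := 7
    N := 17
    nb := [390, 1797, 7387, 30756, 34884, 24840, 99348, 4357, 25251, 1282, 66118, 40988, 16524, 2344,
      4392, 67664, 33856]
    tri := [(0, 1, 2), (0, 1, 8), (0, 2, 7), (0, 7, 8), (1, 2, 10), (1, 8, 9), (1, 9, 10), (2, 3, 11),
      (2, 3, 12), (2, 4, 6), (2, 4, 11), (2, 6, 10), (2, 7, 12), (3, 5, 13), (3, 5, 14), (3, 11,
      13), (3, 12, 14), (4, 6, 15), (4, 11, 15), (5, 8, 13), (5, 8, 14), (6, 10, 16), (6, 15, 16)]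
    fin := [0, 0, 2, 3, 0, 3, 0, 0, 3, 9, 0, 2, 2, 13, 14, 15, 16]
    chd := [(0, 15), (3, 2)]
    steps := [(0, 1), (0, 7), (0, 10), (0, 6), (0, 4), (2, 11), (2, 12), (3, 5), (3, 8)] }
  rep := [0, 2, 3, 15, 13, 14, 9, 16]

noncomputable def v3102 : Cov.CovD where
  P := 3
  N := 5
  pl := [2, 6, 7, 9]
  lev := [⟨[], [], [(0, 2)], [], [(0, 0, [3]), (1, 2, [1])]⟩,
    ⟨[], [(0, 0), (0, 2)], [(0, 2)], [6], [(1, 2, [1]), (3, 0, [3])]⟩,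
    ⟨[(0, 1)], [(0, 0), (0, 1), (0, 2), (1, 0), (1, 1), (1, 2)], [(0, 0), (0, 1), (1, 1)],
      [], [(0, 0, [3]), (3, 0, [3]), (4, 1, [2]), (5, 1, [2])]⟩,
    ⟨[(0, 2), (1, 2)], [(2, 0), (2, 1)], [(1, 1)], [4, 5], [(4, 1, [2]), (5, 1, [2])]⟩,
    ⟨[(0, 2), (1, 2), (2, 3)], [(2, 0), (2, 1), (2, 3), (3, 1)], [(1, 3)], [], [(4, 1,
      [2]), (8, 3, [0])]⟩,
    ⟨[(2, 3)], [(0, 2), (1, 2), (3, 1), (3, 2)], [], [4, 5], [(1, 2, [1])]⟩,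
    ⟨[(0, 2), (1, 2), (2, 3), (2, 4)], [(1, 0), (2, 0), (2, 1), (2, 3), (4, 0), (4, 1), (4,
      3)], [(0, 3)], [7], [(3, 0, [3]), (8, 3, [0])]⟩]
  Ta := [((0, 1), 0, 2), ((0, 5), 0, 1), ((3, 2), 0, 6), ((3, 9), 0, 7), ((4, 6), 1, 4), ((4, 8),
    1, 3), ((5, 0), 1, 0), ((5, 7), 1, 5)]
  Tb := [((0, 1, 5), 0, 2, 1), ((1, 0, 2), 2, 0, 6), ((1, 0, 6), 2, 0, 4), ((1, 0, 7), 2, 0, 5),
    ((1, 2, 6), 2, 6, 4), ((1, 2, 7), 2, 6, 5), ((1, 6, 7), 2, 4, 5), ((2, 1, 3), 6, 2, 0),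
    ((3, 2, 9), 0, 6, 7), ((4, 6, 8), 1, 4, 3), ((5, 0, 7), 1, 0, 5), ((6, 1, 4), 4, 2, 1),
    ((7, 1, 5), 5, 2, 1), ((8, 4, 9), 3, 1, 7), ((9, 3, 8), 7, 0, 3)]
  Tc := []
  Td := [((0, 3), (0, 1), 2), ((0, 3), (0, 5), 1), ((0, 3), (3, 2), 6), ((0, 3), (3, 9), 7), ((1,
    2), (4, 6), 4), ((1, 2), (4, 8), 3), ((1, 2), (5, 0), 0), ((1, 2), (5, 7), 5), ((2, 1),
    (1, 0), 0), ((2, 1), (1, 2), 6), ((2, 1), (1, 6), 4), ((2, 1), (1, 7), 5), ((3, 0), (8,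
    4), 1), ((3, 0), (8, 9), 7)]
  G := [[0, 0, 0x111e111ec1412ee6e914a8, 0xe414e81e119c12, 0x42a254e81e119c12], [0,
    0xe81a11e11e4414618, 0x111e214111e218c4, 0x54248e81822e21d438, 0x4224e8182223c1213dc18],
    [0, 0, 0, 0x482842e41e115a818c2c, 0x4244e81a21e11dce21e115886898ca1], [0, 0, 0,
    0xe81842e41e11582c, 0x4244e81a21e11dc4224e81a21e11dca1]]

noncomputable def n3102 : Ent := ⟨e3102, noF, [], [], []⟩

def c3102 : PLift (Cov.check n3102.C.D v3102 = true) := ⟨by decide +kernel⟩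

def b3102 : PLift (entF (fidx ts) 400 3102 n3102 = true) := ⟨by decide +kernel⟩

theorem g3102 : GoodF (fidx ts) 400 3102 := GoodF.ofV v3102 n3102 c3102.down b3102.down

/-- 4596445:2406/2 -/
noncomputable def e3103 : SCfg where
  D := {
    a := 7
    L := 10
    kp := 7
    inn := [(0, 1), (0, 2), (1, 0), (1, 2), (2, 0), (2, 1), (2, 3), (2, 4), (2, 6), (3, 2), (3, 5), (4,
      2), (4, 6), (5, 3), (6, 2), (6, 4)]
    mix := [(0, 0), (0, 1), (1, 1), (1, 2), (1, 3), (2, 0), (2, 3), (2, 4), (2, 5), (3, 4), (3, 5), (3,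
      6), (3, 7), (4, 4), (4, 8), (5, 2), (5, 6), (5, 7), (6, 3), (6, 8), (6, 9)]
    cl := [0, 2, 3, 0, 1, 1, 5, 6, 4, 7]
    chq := [(0, 4), (1, 3), (3, 1), (4, 0)]
    rng := [(0, 1), (0, 5), (1, 0), (1, 2), (2, 1), (2, 3), (2, 6), (2, 7), (3, 2), (3, 9), (4, 6), (4,
      8), (5, 0), (5, 7), (6, 2), (6, 4), (7, 2), (7, 5), (8, 4), (8, 9), (9, 3), (9, 8)]
    lev := [] }
  links := [[1, 2, 7, 8], [2, 0, 8, 9, 10], [7, 0, 1, 10, 6, 4, 11, 3, 12], [12, 2, 11, 13, 5, 14], [11,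
    2, 6, 15], [14, 3, 13, 9], [15, 4, 2, 10, 16]]
  P := {
    a := 7
    N := 17
    nb := [390, 1797, 7387, 30756, 34884, 25096, 99348, 4357, 643, 25890, 66118, 40988, 16524, 2600,
      4648, 67664, 33856]
    tri := [(0, 1, 2), (0, 1, 8), (0, 2, 7), (0, 7, 8), (1, 2, 10), (1, 8, 9), (1, 9, 10), (2, 3, 11),
      (2, 3, 12), (2, 4, 6), (2, 4, 11), (2, 6, 10), (2, 7, 12), (3, 5, 13), (3, 5, 14), (3, 11,
      13), (3, 12, 14), (4, 6, 15), (4, 11, 15), (5, 9, 13), (5, 9, 14), (6, 10, 16), (6, 15, 16)]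
    fin := [0, 0, 2, 3, 0, 3, 0, 0, 8, 3, 0, 2, 2, 13, 14, 15, 16]
    chd := [(0, 15), (3, 2)]
    steps := [(0, 1), (0, 7), (0, 10), (0, 6), (0, 4), (2, 11), (2, 12), (3, 5), (3, 9)] }
  rep := [0, 2, 8, 3, 15, 13, 14, 16]

noncomputable def v3103 : Cov.CovD where
  P := 3
  N := 5
  pl := [1, 6, 7, 9]
  lev := [⟨[], [], [], [2], [(0, 0, [4])]⟩,
    ⟨[], [(0, 0), (0, 3)], [(0, 3)], [2], [(2, 3, [1]), (3, 0, [4])]⟩,
    ⟨[(0, 1)], [(0, 0), (0, 1), (1, 0), (1, 1), (1, 3)], [(0, 0), (0, 1), (1, 1)], [], [(0,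
      0, [4]), (3, 0, [4]), (4, 1, [3]), (5, 1, [3])]⟩,
    ⟨[(0, 2), (1, 2)], [(2, 0), (2, 1)], [(1, 1)], [5, 6], [(4, 1, [3]), (5, 1, [3])]⟩,
    ⟨[(0, 2), (1, 2), (2, 3)], [(2, 0), (2, 1), (2, 4), (3, 1)], [(1, 4)], [], [(4, 1,
      [3]), (8, 4, [0])]⟩,
    ⟨[(2, 3)], [(1, 3), (3, 1), (3, 3)], [], [5, 6], [(2, 3, [1])]⟩,
    ⟨[(0, 2), (1, 2), (2, 3), (2, 4)], [(1, 0), (2, 0), (2, 1), (2, 4), (4, 0), (4, 1), (4,
      4)], [(0, 4)], [7], [(3, 0, [4]), (8, 4, [0])]⟩]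
  Ta := [((0, 1), 0, 2), ((0, 5), 0, 1), ((3, 2), 0, 3), ((3, 9), 0, 7), ((4, 6), 1, 5), ((4, 8),
    1, 4), ((5, 0), 1, 0), ((5, 7), 1, 6)]
  Tb := [((0, 1, 5), 0, 2, 1), ((1, 0, 2), 2, 0, 3), ((2, 1, 3), 3, 2, 0), ((2, 1, 6), 3, 2, 5),
    ((2, 1, 7), 3, 2, 6), ((2, 3, 6), 3, 0, 5), ((2, 3, 7), 3, 0, 6), ((2, 6, 7), 3, 5, 6),
    ((3, 2, 9), 0, 3, 7), ((4, 6, 8), 1, 5, 4), ((5, 0, 7), 1, 0, 6), ((6, 2, 4), 5, 3, 1),
    ((7, 2, 5), 6, 3, 1), ((8, 4, 9), 4, 1, 7), ((9, 3, 8), 7, 0, 4)]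
  Tc := []
  Td := [((0, 4), (0, 1), 2), ((0, 4), (0, 5), 1), ((0, 4), (3, 2), 3), ((0, 4), (3, 9), 7), ((1,
    3), (4, 6), 5), ((1, 3), (4, 8), 4), ((1, 3), (5, 0), 0), ((1, 3), (5, 7), 6), ((3, 1),
    (2, 1), 2), ((3, 1), (2, 3), 0), ((3, 1), (2, 6), 5), ((3, 1), (2, 7), 6), ((4, 0), (8,
    4), 1), ((4, 0), (8, 9), 7)]
  G := [[0, 0, 0x6211211ae4d1111cd18a18a8c24, 0x621eeee1e11d8288c14, 0xe21e115eeee18c12], [0,
    0x2122e11e118141cea14, 0x142411a2122112dc28, 0x4224eeee1a21e11dc18,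
    0x221aeee1e11d4ca18c12], [0, 0, 0, 0x6214e81821ee31dc42225e41e11d8218cc1,
    0x44ae65ee315eea18c21], [0, 0, 0, 0x482828c12d482884c6212115a818c621e41ee31d8cc,
    0xee61ee315c8a26a38c21]]

noncomputable def n3103 : Ent := ⟨e3103, noF, [], [], []⟩

def c3103 : PLift (Cov.check n3103.C.D v3103 = true) := ⟨by decide +kernel⟩

def b3103 : PLift (entF (fidx ts) 400 3103 n3103 = true) := ⟨by decide +kernel⟩

theorem g3103 : GoodF (fidx ts) 400 3103 := GoodF.ofV v3103 n3103 c3103.down b3103.down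

/-- 4596445:2406/3 -/
noncomputable def e3104 : SCfg where
  D := {
    a := 7
    L := 10
    kp := 7
    inn := [(0, 1), (0, 2), (1, 0), (1, 2), (2, 0), (2, 1), (2, 3), (2, 4), (2, 6), (3, 2), (3, 5), (4,
      2), (4, 6), (5, 3), (6, 2), (6, 4)]
    mix := [(0, 0), (0, 1), (1, 1), (1, 2), (1, 3), (2, 0), (2, 3), (2, 4), (2, 5), (3, 4), (3, 5), (3,
      6), (3, 7), (4, 4), (4, 8), (5, 6), (5, 7), (5, 9), (6, 3), (6, 8), (6, 9)]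
    cl := [0, 2, 7, 0, 1, 1, 5, 6, 3, 4]
    chq := [(0, 3), (1, 4), (3, 0), (4, 1)]
    rng := [(0, 1), (0, 5), (1, 0), (1, 2), (2, 1), (2, 3), (3, 2), (3, 9), (4, 6), (4, 8), (5, 0), (5,
      7), (6, 4), (6, 9), (7, 5), (7, 9), (8, 4), (8, 9), (9, 3), (9, 6), (9, 7), (9, 8)]
    lev := [] }
  links := [[1, 2, 7, 8], [2, 0, 8, 9, 10], [7, 0, 1, 10, 6, 4, 11, 3, 12], [12, 2, 11, 13, 5, 14], [11,
    2, 6, 15], [14, 3, 13, 16], [15, 4, 2, 10, 16]]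
  P := {
    a := 7
    N := 17
    nb := [390, 1797, 7387, 30756, 34884, 90120, 99348, 4357, 643, 1282, 66118, 40988, 16524, 67624,
      69672, 67664, 58464]
    tri := [(0, 1, 2), (0, 1, 8), (0, 2, 7), (0, 7, 8), (1, 2, 10), (1, 8, 9), (1, 9, 10), (2, 3, 11),
      (2, 3, 12), (2, 4, 6), (2, 4, 11), (2, 6, 10), (2, 7, 12), (3, 5, 13), (3, 5, 14), (3, 11,
      13), (3, 12, 14), (4, 6, 15), (4, 11, 15), (5, 13, 16), (5, 14, 16), (6, 10, 16), (6, 15,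
      16)]
    fin := [0, 0, 2, 3, 0, 3, 0, 0, 8, 9, 0, 2, 2, 13, 14, 15, 3]
    chd := [(0, 15), (2, 3)]
    steps := [(0, 1), (0, 7), (0, 10), (0, 6), (0, 4), (2, 11), (2, 12), (3, 5), (3, 16)] }
  rep := [0, 2, 8, 15, 3, 13, 14, 9]

noncomputable def v3104 : Cov.CovD where
  P := 3
  N := 5
  pl := [1, 2, 6, 7]
  lev := [⟨[], [], [], [2], [(0, 0, [3])]⟩,
    ⟨[], [(0, 0)], [], [2, 7], [(3, 0, [3])]⟩,
    ⟨[(0, 1)], [(0, 0), (0, 1), (1, 0), (1, 1)], [(0, 0), (0, 1), (1, 1)], [], [(0, 0,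
      [3]), (3, 0, [3]), (4, 1, [4]), (5, 1, [4])]⟩,
    ⟨[(0, 2), (1, 2)], [(2, 0), (2, 1)], [(1, 1)], [5, 6], [(4, 1, [4]), (5, 1, [4])]⟩,
    ⟨[(0, 2), (1, 2), (2, 3)], [(2, 0), (2, 1), (2, 3), (3, 1)], [(1, 3)], [], [(4, 1,
      [4]), (8, 3, [0])]⟩,
    ⟨[(2, 3)], [(3, 1), (3, 4)], [], [5, 6], [(9, 4, [1])]⟩,
    ⟨[(0, 2), (1, 2), (2, 3), (2, 4)], [(1, 0), (2, 0), (2, 1), (2, 3), (2, 4), (4, 0), (4,
      1), (4, 3), (4, 4), (5, 4)], [(0, 3), (0, 4), (3, 4)], [], [(3, 0, [3]), (8, 3, [0]),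
      (9, 4, [1])]⟩]
  Ta := [((0, 1), 0, 2), ((0, 5), 0, 1), ((3, 2), 0, 7), ((3, 9), 0, 4), ((4, 6), 1, 5), ((4, 8),
    1, 3), ((5, 0), 1, 0), ((5, 7), 1, 6)]
  Tb := [((0, 1, 5), 0, 2, 1), ((1, 0, 2), 2, 0, 7), ((2, 1, 3), 7, 2, 0), ((3, 2, 9), 0, 7, 4),
    ((4, 6, 8), 1, 5, 3), ((5, 0, 7), 1, 0, 6), ((6, 4, 9), 5, 1, 4), ((7, 5, 9), 6, 1, 4),
    ((8, 4, 9), 3, 1, 4), ((9, 3, 6), 4, 0, 5), ((9, 3, 7), 4, 0, 6), ((9, 3, 8), 4, 0, 3),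
    ((9, 6, 7), 4, 5, 6), ((9, 6, 8), 4, 5, 3), ((9, 7, 8), 4, 6, 3)]
  Tc := []
  Td := [((0, 3), (0, 1), 2), ((0, 3), (0, 5), 1), ((0, 3), (3, 2), 7), ((0, 3), (3, 9), 4), ((1,
    4), (4, 6), 5), ((1, 4), (4, 8), 3), ((1, 4), (5, 0), 0), ((1, 4), (5, 7), 6), ((3, 0),
    (8, 4), 1), ((3, 0), (8, 9), 4), ((4, 1), (9, 3), 0), ((4, 1), (9, 6), 5), ((4, 1), (9,
    7), 6), ((4, 1), (9, 8), 3)]
  G := [[0, 0, 0x22ee1128e11d4226141222a9112199c12448e8, 0x64142ea1a21e11dc18,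
    0x6a6142ea1e119c12], [0, 0x84961aa1181619e4144618, 0x122222e1112d8111e2122211d462,
    0x2261422a12119c14, 0x2261211522a18c12], [0, 0, 0,
    0x626142ea1828c231dc6216a61418da81a2319cc1, 0x626142ea1821c231dc64142ea1a21c231dca1], [0,
    0, 0, 0x22a184422612231522a18c2261223158cc, 0x241422a12212231dc22612231522a18ca2]]

noncomputable def n3104 : Ent := ⟨e3104, noF, [], [], []⟩

def c3104 : PLift (Cov.check n3104.C.D v3104 = true) := ⟨by decide +kernel⟩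

def b3104 : PLift (entF (fidx ts) 400 3104 n3104 = true) := ⟨by decide +kernel⟩

theorem g3104 : GoodF (fidx ts) 400 3104 := GoodF.ofV v3104 n3104 c3104.down b3104.down

/-- 4596445:2406 -/
noncomputable def e3105 : SCfg where
  D := {
    a := 7
    L := 11
    kp := 8
    inn := [(0, 1), (0, 2), (1, 0), (1, 2), (2, 0), (2, 1), (2, 3), (2, 4), (2, 6), (3, 2), (3, 5), (4,
      2), (4, 6), (5, 3), (6, 2), (6, 4)]
    mix := [(0, 0), (0, 1), (1, 1), (1, 2), (1, 3), (2, 0), (2, 3), (2, 4), (2, 5), (3, 4), (3, 5), (3,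
      6), (3, 7), (4, 4), (4, 8), (5, 6), (5, 7), (5, 9), (6, 3), (6, 8), (6, 10)]
    cl := [0, 2, 7, 0, 1, 1, 4, 5, 3, 6, 8]
    chq := [(0, 3), (1, 6), (3, 0), (6, 1)]
    rng := [(0, 1), (0, 5), (1, 0), (1, 2), (2, 1), (2, 3), (3, 2), (3, 10), (4, 6), (4, 8), (5, 0),
      (5, 7), (6, 4), (6, 9), (7, 5), (7, 9), (8, 4), (8, 10), (9, 6), (9, 7), (10, 3), (10, 8)]
    lev := [] }
  links := [[1, 2, 7, 8], [2, 0, 8, 9, 10], [7, 0, 1, 10, 6, 4, 11, 3, 12], [12, 2, 11, 13, 5, 14], [11,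
    2, 6, 15], [14, 3, 13, 16], [15, 4, 2, 10, 17]]
  P := {
    a := 7
    N := 18
    nb := [390, 1797, 7387, 30756, 34884, 90120, 164884, 4357, 643, 1282, 131654, 40988, 16524, 67624,
      69672, 133200, 24608, 33856]
    tri := [(0, 1, 2), (0, 1, 8), (0, 2, 7), (0, 7, 8), (1, 2, 10), (1, 8, 9), (1, 9, 10), (2, 3, 11),
      (2, 3, 12), (2, 4, 6), (2, 4, 11), (2, 6, 10), (2, 7, 12), (3, 5, 13), (3, 5, 14), (3, 11,
      13), (3, 12, 14), (4, 6, 15), (4, 11, 15), (5, 13, 16), (5, 14, 16), (6, 10, 17), (6, 15,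
      17)]
    fin := [0, 0, 0, 3, 0, 3, 0, 0, 8, 9, 0, 3, 3, 13, 14, 15, 16, 17]
    chd := [(0, 15), (3, 16)]
    steps := [(0, 1), (0, 2), (0, 4), (0, 6), (0, 7), (0, 10), (3, 5), (3, 11), (3, 12)] }
  rep := [0, 3, 8, 15, 13, 14, 16, 9, 17]

noncomputable def v3105 : Cov.CovD where
  P := 3
  N := 6
  pl := [1, 2, 6, 7, 10]
  lev := [⟨[], [], [], [2], [(0, 0, [3])]⟩,
    ⟨[], [(0, 0)], [], [2, 7], [(3, 0, [3])]⟩,
    ⟨[(0, 1)], [(0, 0), (0, 1), (1, 0), (1, 1)], [(0, 0), (0, 1), (1, 1)], [], [(0, 0,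
      [3]), (3, 0, [3]), (4, 1, [6]), (5, 1, [6])]⟩,
    ⟨[(0, 2), (1, 2)], [(2, 0), (2, 1)], [(1, 1)], [4, 5], [(4, 1, [6]), (5, 1, [6])]⟩,
    ⟨[(0, 2), (1, 2), (2, 3)], [(2, 0), (2, 1), (2, 3), (3, 1)], [(1, 3)], [], [(4, 1,
      [6]), (8, 3, [0])]⟩,
    ⟨[(2, 3)], [(3, 1), (3, 6)], [], [4, 5], [(9, 6, [1])]⟩,
    ⟨[(0, 2), (1, 2), (2, 3), (2, 4)], [(1, 0), (2, 0), (2, 1), (2, 3), (4, 0), (4, 1), (4,
      3)], [(0, 3)], [8], [(3, 0, [3]), (8, 3, [0])]⟩]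
  Ta := [((0, 1), 0, 2), ((0, 5), 0, 1), ((3, 2), 0, 7), ((3, 10), 0, 8), ((4, 6), 1, 4), ((4,
    8), 1, 3), ((5, 0), 1, 0), ((5, 7), 1, 5)]
  Tb := [((0, 1, 5), 0, 2, 1), ((1, 0, 2), 2, 0, 7), ((2, 1, 3), 7, 2, 0), ((3, 2, 10), 0, 7, 8),
    ((4, 6, 8), 1, 4, 3), ((5, 0, 7), 1, 0, 5), ((6, 4, 9), 4, 1, 6), ((7, 5, 9), 5, 1, 6),
    ((8, 4, 10), 3, 1, 8), ((9, 6, 7), 6, 4, 5), ((10, 3, 8), 8, 0, 3)]
  Tc := []
  Td := [((0, 3), (0, 1), 2), ((0, 3), (0, 5), 1), ((0, 3), (3, 2), 7), ((0, 3), (3, 10), 8),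
    ((1, 6), (4, 6), 4), ((1, 6), (4, 8), 3), ((1, 6), (5, 0), 0), ((1, 6), (5, 7), 5), ((3,
    0), (8, 4), 1), ((3, 0), (8, 10), 8), ((6, 1), (9, 6), 4), ((6, 1), (9, 7), 5)]
  G := [[0, 0, 0xeea1128113113cd412645412a8c9116a199cc116116c1134511a48c2a,
    0x64614e8ee1a218ee71dc18, 0xee61ee315eea18c12], [0, 0x411e11c1a16ea118c14,
    0x111e212211172d41162411a211329ca8, 0x64614e8ee1a218c5e233dc18,
    0x4462454e8ee1a218ee71dc18], [0, 0, 0, 0x66614e8ee18288ee71dc4244eee1444b4daaa1aa319cc1,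
    0x44644eaee1a21aee71dcee614eea1ee319ca2], [0, 0, 0,
    0x66614226355a82e1888729c6216eee16eeb1d8c4ca2821c488a884c5,
    0x44644c8c22ee3a21aee71dcee614eea1ee319ca2]]

noncomputable def n3105 : Ent := ⟨e3105, noF, [], [], [(8, 16, [7334685537875745012586738086077695515070955365108989538292687706382337, 0]), (9, 16, [7334685537875745012586738086077695515070955365108989538292687706386433, 0]), (17, 16, [7334685537875745012586738086077695515070955365108989538292687706390529, 0])]⟩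

def c3105 : PLift (Cov.check n3105.C.D v3105 = true) := ⟨by decide +kernel⟩

def b3105 : PLift (entF (fidx ts) 400 3105 n3105 = true) := ⟨by decide +kernel⟩

theorem g3105 : GoodF (fidx ts) 400 3105 := GoodF.ofV v3105 n3105 c3105.down b3105.down

/-- 4866445:2407/2 -/
noncomputable def e3106 : SCfg where
  D := {
    a := 7
    L := 9
    kp := 6
    inn := [(0, 1), (1, 0), (1, 2), (1, 3), (1, 4), (2, 1), (2, 3), (2, 4), (3, 1), (3, 2), (3, 5), (4,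
      1), (4, 2), (5, 3), (5, 6), (6, 5)]
    mix := [(0, 0), (0, 1), (0, 2), (1, 0), (1, 2), (1, 3), (1, 4), (2, 5), (2, 6), (2, 7), (3, 2), (3,
      5), (3, 8), (4, 3), (4, 7), (5, 5), (5, 8), (6, 1), (6, 5), (6, 6), (6, 8)]
    cl := [3, 2, 0, 0, 6, 1, 4, 5, 1]
    chq := [(0, 3), (0, 4), (3, 0), (4, 0)]
    rng := [(0, 1), (0, 4), (1, 0), (1, 2), (1, 6), (1, 8), (2, 1), (2, 8), (3, 4), (3, 7), (4, 0), (4,
      3), (5, 6), (6, 1), (6, 5), (6, 7), (7, 3), (7, 6), (8, 1), (8, 2)]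
    lev := [] }
  links := [[1, 7, 8, 9], [7, 0, 9, 3, 2, 4, 10, 11], [4, 1, 3, 12, 13, 14], [12, 2, 1, 9, 15, 5], [10,
    1, 2, 14], [12, 3, 15, 6], [12, 5, 15, 8, 13]]
  P := {
    a := 7
    N := 16
    nb := [898, 3741, 28698, 37414, 17414, 36936, 45344, 2307, 41665, 33035, 18450, 1154, 8300, 20804,
      9236, 872]
    tri := [(0, 1, 7), (0, 1, 9), (0, 7, 8), (0, 8, 9), (1, 2, 3), (1, 2, 4), (1, 3, 9), (1, 4, 10),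
      (1, 7, 11), (1, 10, 11), (2, 3, 12), (2, 4, 14), (2, 12, 13), (2, 13, 14), (3, 5, 12), (3,
      5, 15), (3, 9, 15), (4, 10, 14), (5, 6, 12), (5, 6, 15), (6, 8, 13), (6, 8, 15), (6, 12,
      13)]
    fin := [0, 1, 1, 3, 1, 5, 5, 0, 5, 1, 1, 11, 3, 13, 14, 3]
    chd := [(0, 1), (1, 13)]
    steps := [(0, 7), (1, 2), (1, 4), (1, 9), (1, 10), (3, 15), (5, 6), (3, 12), (5, 8)] }
  rep := [1, 3, 5, 0, 13, 14, 11]

noncomputable def v3106 : Cov.CovD where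
  P := 3
  N := 4
  pl := [1, 4, 7]
  lev := [⟨[], [], [(0, 3)], [2], [(0, 3, [0]), (2, 0, [3, 4])]⟩,
    ⟨[], [(0, 0), (0, 3)], [(0, 0), (0, 3)], [6], [(0, 3, [0]), (2, 0, [3, 4]), (3, 0, [3,
      4])]⟩,
    ⟨[(0, 1)], [(1, 0), (1, 1), (1, 3), (1, 4)], [(1, 4)], [5], [(5, 1, []), (6, 4, [0])]⟩,
    ⟨[(0, 1), (1, 2)], [(0, 0), (1, 0), (1, 1), (1, 3), (2, 0), (2, 1), (2, 4)], [(0, 1),
      (1, 1)], [], [(2, 0, [3, 4]), (5, 1, []), (8, 1, [])]⟩,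
    ⟨[(0, 1), (1, 2), (1, 3), (2, 3)], [(1, 0), (1, 3), (2, 0), (2, 1), (2, 4)], [], [5],
      [(3, 0, [3, 4])]⟩,
    ⟨[(1, 3), (2, 3)], [(2, 1), (3, 0), (3, 1)], [(1, 1)], [], [(5, 1, []), (8, 1, [])]⟩,
    ⟨[(3, 5)], [(2, 1), (2, 4), (3, 1), (5, 1), (5, 4)], [(1, 1), (1, 4)], [2], [(5, 1,
      []), (6, 4, [0]), (8, 1, [])]⟩]
  Ta := [((2, 1), 0, 2), ((2, 8), 0, 1), ((3, 4), 0, 6), ((3, 7), 0, 5), ((5, 6), 1, 4), ((8, 1),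
    1, 2), ((8, 2), 1, 0)]
  Tb := [((0, 1, 4), 3, 2, 6), ((1, 0, 2), 2, 3, 0), ((1, 0, 6), 2, 3, 4), ((1, 0, 8), 2, 3, 1),
    ((1, 2, 6), 2, 0, 4), ((1, 2, 8), 2, 0, 1), ((1, 6, 8), 2, 4, 1), ((2, 1, 8), 0, 2, 1),
    ((3, 4, 7), 0, 6, 5), ((4, 0, 3), 6, 3, 0), ((6, 1, 5), 4, 2, 1), ((6, 1, 7), 4, 2, 5),
    ((6, 5, 7), 4, 1, 5), ((7, 3, 6), 5, 0, 4), ((8, 1, 2), 1, 2, 0)]
  Tc := [(0, 3, 4)]
  Td := [((0, 3), (2, 1), 2), ((0, 3), (2, 8), 1), ((0, 3), (3, 4), 6), ((0, 3), (3, 7), 5), ((0,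
    4), (2, 1), 2), ((0, 4), (2, 8), 1), ((0, 4), (3, 4), 6), ((0, 4), (3, 7), 5), ((3, 0),
    (0, 1), 2), ((3, 0), (0, 4), 6), ((4, 0), (6, 1), 2), ((4, 0), (6, 5), 1), ((4, 0), (6,
    7), 5)]
  G := [[0, 0, 0x845c86418c1c1a814c1c1c812e, 0, 0x94986419494a81c9191a419498c416a], [0,
    0x424282c2625c4c4a81ac2c2a81c8c8c216c, 0xc1c86418c1c4a814888448c1c492e,
    0x1814914439498c41a5894a81c458c816c, 0x18141814884479491681c1818988439198c416a], [0, 0,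
    0, 0, 0x144114986458184114419118c8d211448888414281118a4dcb], [0, 0, 0,
    0x5151641818815191a83411842148448481128dad, 0x144194916438844818819894c4d21488914834b]]

noncomputable def n3106 : Ent := ⟨e3106, noF, [], [], []⟩

def c3106 : PLift (Cov.check n3106.C.D v3106 = true) := ⟨by decide +kernel⟩

def b3106 : PLift (entF (fidx ts) 400 3106 n3106 = true) := ⟨by decide +kernel⟩

theorem g3106 : GoodF (fidx ts) 400 3106 := GoodF.ofV v3106 n3106 c3106.down b3106.down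

/-- 4866445:2407/1 -/
noncomputable def e3107 : SCfg where
  D := {
    a := 7
    L := 10
    kp := 7
    inn := [(0, 1), (1, 0), (1, 2), (1, 3), (1, 4), (2, 1), (2, 3), (2, 4), (3, 1), (3, 2), (3, 5), (4,
      1), (4, 2), (5, 3), (5, 6), (6, 5)]
    mix := [(0, 0), (0, 1), (0, 2), (1, 0), (1, 2), (1, 3), (1, 4), (2, 5), (2, 6), (2, 7), (3, 2), (3,
      5), (3, 8), (4, 3), (4, 7), (5, 5), (5, 8), (6, 1), (6, 5), (6, 8), (6, 9)]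
    cl := [3, 2, 0, 0, 6, 1, 5, 4, 1, 7]
    chq := [(0, 3), (0, 5), (3, 0), (5, 0)]
    rng := [(0, 1), (0, 4), (1, 0), (1, 2), (1, 8), (1, 9), (2, 1), (2, 8), (3, 4), (3, 7), (4, 0), (4,
      3), (5, 6), (5, 9), (6, 5), (6, 7), (7, 3), (7, 6), (8, 1), (8, 2), (9, 1), (9, 5)]
    lev := [] }
  links := [[1, 7, 8, 9], [7, 0, 9, 3, 2, 4, 10, 11], [4, 1, 3, 12, 13, 14], [12, 2, 1, 9, 15, 5], [10,
    1, 2, 14], [12, 3, 15, 6], [12, 5, 15, 8, 16]]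
  P := {
    a := 7
    N := 17
    nb := [898, 3741, 28698, 37414, 17414, 36936, 102688, 2307, 99009, 33035, 18450, 1154, 73836,
      20484, 9236, 872, 4416]
    tri := [(0, 1, 7), (0, 1, 9), (0, 7, 8), (0, 8, 9), (1, 2, 3), (1, 2, 4), (1, 3, 9), (1, 4, 10),
      (1, 7, 11), (1, 10, 11), (2, 3, 12), (2, 4, 14), (2, 12, 13), (2, 13, 14), (3, 5, 12), (3,
      5, 15), (3, 9, 15), (4, 10, 14), (5, 6, 12), (5, 6, 15), (6, 8, 15), (6, 8, 16), (6, 12,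
      16)]
    fin := [0, 1, 1, 3, 1, 5, 5, 0, 5, 1, 1, 11, 3, 13, 14, 3, 16]
    chd := [(0, 1), (1, 13)]
    steps := [(0, 7), (1, 2), (1, 4), (1, 9), (1, 10), (3, 15), (5, 6), (3, 12), (5, 8)] }
  rep := [1, 3, 5, 0, 14, 13, 11, 16]

noncomputable def v3107 : Cov.CovD where
  P := 3
  N := 5
  pl := [1, 4, 7, 9]
  lev := [⟨[], [], [(0, 3)], [2], [(0, 3, [0]), (2, 0, [3, 5])]⟩,
    ⟨[], [(0, 0), (0, 3)], [(0, 0), (0, 3)], [6], [(0, 3, [0]), (2, 0, [3, 5]), (3, 0, [3,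
      5])]⟩,
    ⟨[(0, 1)], [(1, 0), (1, 1), (1, 3), (1, 5)], [(1, 5)], [4], [(5, 1, []), (6, 5, [0])]⟩,
    ⟨[(0, 1), (1, 2)], [(0, 0), (1, 0), (1, 1), (1, 3), (2, 0), (2, 1), (2, 5)], [(0, 1),
      (1, 1)], [], [(2, 0, [3, 5]), (5, 1, []), (8, 1, [])]⟩,
    ⟨[(0, 1), (1, 2), (1, 3), (2, 3)], [(1, 0), (1, 3), (2, 0), (2, 1), (2, 5)], [], [4],
      [(3, 0, [3, 5])]⟩,
    ⟨[(1, 3), (2, 3)], [(2, 1), (3, 0), (3, 1)], [(1, 1)], [], [(5, 1, []), (8, 1, [])]⟩,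
    ⟨[(3, 5)], [(2, 1), (3, 1), (5, 1)], [(1, 1)], [2, 7], [(5, 1, []), (8, 1, [])]⟩]
  Ta := [((2, 1), 0, 2), ((2, 8), 0, 1), ((3, 4), 0, 6), ((3, 7), 0, 4), ((5, 6), 1, 5), ((5, 9),
    1, 7), ((8, 1), 1, 2), ((8, 2), 1, 0)]
  Tb := [((0, 1, 4), 3, 2, 6), ((1, 0, 2), 2, 3, 0), ((1, 0, 8), 2, 3, 1), ((1, 0, 9), 2, 3, 7),
    ((1, 2, 8), 2, 0, 1), ((1, 2, 9), 2, 0, 7), ((1, 8, 9), 2, 1, 7), ((2, 1, 8), 0, 2, 1),
    ((3, 4, 7), 0, 6, 4), ((4, 0, 3), 6, 3, 0), ((5, 6, 9), 1, 5, 7), ((6, 5, 7), 5, 1, 4),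
    ((7, 3, 6), 4, 0, 5), ((8, 1, 2), 1, 2, 0), ((9, 1, 5), 7, 2, 1)]
  Tc := [(0, 3, 5)]
  Td := [((0, 3), (2, 1), 2), ((0, 3), (2, 8), 1), ((0, 3), (3, 4), 6), ((0, 3), (3, 7), 4), ((0,
    5), (2, 1), 2), ((0, 5), (2, 8), 1), ((0, 5), (3, 4), 6), ((0, 5), (3, 7), 4), ((3, 0),
    (0, 1), 2), ((3, 0), (0, 4), 6), ((5, 0), (6, 5), 1), ((5, 0), (6, 7), 4)]
  G := [[0, 0, 0xc1c86418c4c1a81448cc8c412e, 0, 0x98946419491a81c9191a819898c416a], [0,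
    0x846c8641c8c4c21ac4c4a21c2c2c816c, 0xc1c16418c1c4a814c1c8c412e,
    0x94946419194641a58c4a81c1916416c, 0x91916419891a41c94946819498c416a], [0, 0, 0, 0,
    0x982198916458984498419898c4d298448944891889824dcb], [0, 0, 0,
    0x984451516438c4889454a834518451485128d2d, 0x984491986438944194419491c8d29488914834b]]

noncomputable def n3107 : Ent := ⟨e3107, noF, [], [], [(16, 13, [1580044429602293643470024699863340111275081426260889765897805373441, 0])]⟩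

def c3107 : PLift (Cov.check n3107.C.D v3107 = true) := ⟨by decide +kernel⟩

def b3107 : PLift (entF (fidx ts) 400 3107 n3107 = true) := ⟨by decide +kernel⟩

theorem g3107 : GoodF (fidx ts) 400 3107 := GoodF.ofV v3107 n3107 c3107.down b3107.down

/-- 4866445:2407/3 -/
noncomputable def e3108 : SCfg where
  D := {
    a := 7
    L := 10
    kp := 7
    inn := [(0, 1), (1, 0), (1, 2), (1, 3), (1, 4), (2, 1), (2, 3), (2, 4), (3, 1), (3, 2), (3, 5), (4,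
      1), (4, 2), (5, 3), (5, 6), (6, 5)]
    mix := [(0, 0), (0, 1), (0, 2), (1, 0), (1, 2), (1, 3), (1, 4), (2, 5), (2, 6), (2, 7), (3, 2), (3,
      5), (3, 8), (4, 3), (4, 7), (5, 5), (5, 8), (6, 5), (6, 6), (6, 8), (6, 9)]
    cl := [2, 5, 0, 0, 6, 1, 3, 4, 1, 7]
    chq := [(0, 2), (0, 3), (2, 0), (3, 0)]
    rng := [(0, 1), (0, 4), (1, 0), (1, 2), (2, 1), (2, 8), (3, 4), (3, 7), (4, 0), (4, 3), (5, 6), (6,
      5), (6, 7), (6, 9), (7, 3), (7, 6), (8, 2), (8, 9), (9, 6), (9, 8)]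
    lev := [] }
  links := [[1, 7, 8, 9], [7, 0, 9, 3, 2, 4, 10, 11], [4, 1, 3, 12, 13, 14], [12, 2, 1, 9, 15, 5], [10,
    1, 2, 14], [12, 3, 15, 6], [12, 5, 15, 16, 13]]
  P := {
    a := 7
    N := 17
    nb := [898, 3741, 28698, 37414, 17414, 36936, 110624, 2307, 641, 33035, 18450, 1154, 8300, 86084,
      9236, 66152, 41024]
    tri := [(0, 1, 7), (0, 1, 9), (0, 7, 8), (0, 8, 9), (1, 2, 3), (1, 2, 4), (1, 3, 9), (1, 4, 10),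
      (1, 7, 11), (1, 10, 11), (2, 3, 12), (2, 4, 14), (2, 12, 13), (2, 13, 14), (3, 5, 12), (3,
      5, 15), (3, 9, 15), (4, 10, 14), (5, 6, 12), (5, 6, 15), (6, 12, 13), (6, 13, 16), (6, 15,
      16)]
    fin := [0, 0, 2, 2, 2, 2, 6, 0, 8, 2, 2, 11, 6, 13, 14, 6, 16]
    chd := [(0, 2), (2, 13)]
    steps := [(0, 1), (0, 7), (2, 3), (2, 4), (2, 5), (2, 9), (2, 10), (6, 15), (6, 12)] }
  rep := [2, 6, 0, 13, 14, 8, 11, 16]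

noncomputable def v3108 : Cov.CovD where
  P := 3
  N := 5
  pl := [1, 4, 7, 9]
  lev := [⟨[], [], [(0, 2)], [5], [(0, 2, [0]), (2, 0, [2, 3])]⟩,
    ⟨[], [(0, 0), (0, 2)], [(0, 0), (0, 2)], [6], [(0, 2, [0]), (2, 0, [2, 3]), (3, 0, [2,
      3])]⟩,
    ⟨[(0, 1)], [(1, 0), (1, 1), (1, 2), (1, 3)], [(1, 3)], [4], [(5, 1, []), (6, 3, [0])]⟩,
    ⟨[(0, 1), (1, 2)], [(0, 0), (1, 0), (1, 1), (1, 2), (2, 0), (2, 1), (2, 3)], [(0, 1),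
      (1, 1)], [], [(2, 0, [2, 3]), (5, 1, []), (8, 1, [])]⟩,
    ⟨[(0, 1), (1, 2), (1, 3), (2, 3)], [(1, 0), (1, 2), (2, 0), (2, 1), (2, 3)], [], [4],
      [(3, 0, [2, 3])]⟩,
    ⟨[(1, 3), (2, 3)], [(2, 1), (3, 0), (3, 1)], [(1, 1)], [], [(5, 1, []), (8, 1, [])]⟩,
    ⟨[(3, 5)], [(2, 1), (2, 3), (3, 1), (5, 1), (5, 3)], [(1, 1), (1, 3)], [7], [(5, 1,
      []), (6, 3, [0]), (8, 1, [])]⟩]
  Ta := [((2, 1), 0, 5), ((2, 8), 0, 1), ((3, 4), 0, 6), ((3, 7), 0, 4), ((5, 6), 1, 3), ((8, 2),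
    1, 0), ((8, 9), 1, 7)]
  Tb := [((0, 1, 4), 2, 5, 6), ((1, 0, 2), 5, 2, 0), ((2, 1, 8), 0, 5, 1), ((3, 4, 7), 0, 6, 4),
    ((4, 0, 3), 6, 2, 0), ((6, 5, 7), 3, 1, 4), ((6, 5, 9), 3, 1, 7), ((6, 7, 9), 3, 4, 7),
    ((7, 3, 6), 4, 0, 3), ((8, 2, 9), 1, 0, 7), ((9, 6, 8), 7, 3, 1)]
  Tc := [(0, 2, 3)]
  Td := [((0, 2), (2, 1), 5), ((0, 2), (2, 8), 1), ((0, 2), (3, 4), 6), ((0, 2), (3, 7), 4), ((0,
    3), (2, 1), 5), ((0, 3), (2, 8), 1), ((0, 3), (3, 4), 6), ((0, 3), (3, 7), 4), ((2, 0),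
    (0, 1), 5), ((2, 0), (0, 4), 6), ((3, 0), (6, 5), 1), ((3, 0), (6, 7), 4), ((3, 0), (6,
    9), 7)]
  G := [[0, 0, 0xd1d4a812d8d16418d1d16814e, 0xd8855641d1d8a41cd1d8c41d1d1a81cc,
    0xd8d8641d1d8a41a945d8a41d4d4c81aa], [0, 0xe8e4621e2e8a41ce4e4681e268ca81cc,
    0xd8d8a414d4d46812d1d1c418e, 0xd814d844358cd1c81cd118d1483d4d4a81cc,
    0x945d8641d11c5a41ad418d8843d8d1c41aa], [0, 0, 0xd8d8a412d1589a814d8d8c418e,
    0x94445148d128d98845888d428dc1, 0x91445448d124d94845488d428da1], [0, 0,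
    0xd4d4c8141c5d16412d8d1a418e, 0x98245148945168dd884d1483c1, 0xd884d448394845848d824da1]]

noncomputable def n3108 : Ent := ⟨e3108, noF, [], [], [(8, 16, [1580044410770988437309982408355971841652082177953823432505701834753, 0])]⟩

def c3108 : PLift (Cov.check n3108.C.D v3108 = true) := ⟨by decide +kernel⟩

def b3108 : PLift (entF (fidx ts) 400 3108 n3108 = true) := ⟨by decide +kernel⟩

theorem g3108 : GoodF (fidx ts) 400 3108 := GoodF.ofV v3108 n3108 c3108.down b3108.down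

/-- 4866445:2407 -/
noncomputable def e3109 : SCfg where
  D := {
    a := 7
    L := 11
    kp := 8
    inn := [(0, 1), (1, 0), (1, 2), (1, 3), (1, 4), (2, 1), (2, 3), (2, 4), (3, 1), (3, 2), (3, 5), (4,
      1), (4, 2), (5, 3), (5, 6), (6, 5)]
    mix := [(0, 0), (0, 1), (0, 2), (1, 0), (1, 2), (1, 3), (1, 4), (2, 5), (2, 6), (2, 7), (3, 2), (3,
      5), (3, 8), (4, 3), (4, 7), (5, 5), (5, 8), (6, 5), (6, 8), (6, 9), (6, 10)]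
    cl := [2, 5, 0, 0, 6, 1, 4, 3, 1, 7, 8]
    chq := [(0, 2), (0, 4), (2, 0), (4, 0)]
    rng := [(0, 1), (0, 4), (1, 0), (1, 2), (2, 1), (2, 8), (3, 4), (3, 7), (4, 0), (4, 3), (5, 6), (5,
      10), (6, 5), (6, 7), (7, 3), (7, 6), (8, 2), (8, 9), (9, 8), (9, 10), (10, 5), (10, 9)]
    lev := [] }
  links := [[1, 7, 8, 9], [7, 0, 9, 3, 2, 4, 10, 11], [4, 1, 3, 12, 13, 14], [12, 2, 1, 9, 15, 5], [10,
    1, 2, 14], [12, 3, 15, 6], [12, 5, 15, 16, 17]]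
  P := {
    a := 7
    N := 18
    nb := [898, 3741, 28698, 37414, 17414, 36936, 233504, 2307, 641, 33035, 18450, 1154, 139372,
      20484, 9236, 66152, 163904, 69696]
    tri := [(0, 1, 7), (0, 1, 9), (0, 7, 8), (0, 8, 9), (1, 2, 3), (1, 2, 4), (1, 3, 9), (1, 4, 10),
      (1, 7, 11), (1, 10, 11), (2, 3, 12), (2, 4, 14), (2, 12, 13), (2, 13, 14), (3, 5, 12), (3,
      5, 15), (3, 9, 15), (4, 10, 14), (5, 6, 12), (5, 6, 15), (6, 12, 17), (6, 15, 16), (6, 16,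
      17)]
    fin := [0, 0, 2, 2, 2, 2, 6, 0, 8, 2, 2, 11, 6, 13, 14, 6, 16, 17]
    chd := [(0, 2), (2, 13)]
    steps := [(0, 1), (0, 7), (2, 3), (2, 4), (2, 5), (2, 9), (2, 10), (6, 15), (6, 12)] }
  rep := [2, 6, 0, 14, 13, 8, 11, 16, 17]

noncomputable def v3109 : Cov.CovD where
  P := 3
  N := 6
  pl := [1, 4, 7, 9, 10]
  lev := [⟨[], [], [(0, 2)], [5], [(0, 2, [0]), (2, 0, [2, 4])]⟩,
    ⟨[], [(0, 0), (0, 2)], [(0, 0), (0, 2)], [6], [(0, 2, [0]), (2, 0, [2, 4]), (3, 0, [2,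
      4])]⟩,
    ⟨[(0, 1)], [(1, 0), (1, 1), (1, 2), (1, 4)], [(1, 4)], [3], [(5, 1, []), (6, 4, [0])]⟩,
    ⟨[(0, 1), (1, 2)], [(0, 0), (1, 0), (1, 1), (1, 2), (2, 0), (2, 1), (2, 4)], [(0, 1),
      (1, 1)], [], [(2, 0, [2, 4]), (5, 1, []), (8, 1, [])]⟩,
    ⟨[(0, 1), (1, 2), (1, 3), (2, 3)], [(1, 0), (1, 2), (2, 0), (2, 1), (2, 4)], [], [3],
      [(3, 0, [2, 4])]⟩,
    ⟨[(1, 3), (2, 3)], [(2, 1), (3, 0), (3, 1)], [(1, 1)], [], [(5, 1, []), (8, 1, [])]⟩,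
    ⟨[(3, 5)], [(2, 1), (3, 1), (5, 1)], [(1, 1)], [7, 8], [(5, 1, []), (8, 1, [])]⟩]
  Ta := [((2, 1), 0, 5), ((2, 8), 0, 1), ((3, 4), 0, 6), ((3, 7), 0, 3), ((5, 6), 1, 4), ((5,
    10), 1, 8), ((8, 2), 1, 0), ((8, 9), 1, 7)]
  Tb := [((0, 1, 4), 2, 5, 6), ((1, 0, 2), 5, 2, 0), ((2, 1, 8), 0, 5, 1), ((3, 4, 7), 0, 6, 3),
    ((4, 0, 3), 6, 2, 0), ((5, 6, 10), 1, 4, 8), ((6, 5, 7), 4, 1, 3), ((7, 3, 6), 3, 0, 4),
    ((8, 2, 9), 1, 0, 7), ((9, 8, 10), 7, 1, 8), ((10, 5, 9), 8, 1, 7)]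
  Tc := [(0, 2, 4)]
  Td := [((0, 2), (2, 1), 5), ((0, 2), (2, 8), 1), ((0, 2), (3, 4), 6), ((0, 2), (3, 7), 3), ((0,
    4), (2, 1), 5), ((0, 4), (2, 8), 1), ((0, 4), (3, 4), 6), ((0, 4), (3, 7), 3), ((2, 0),
    (0, 1), 5), ((2, 0), (0, 4), 6), ((4, 0), (6, 5), 1), ((4, 0), (6, 7), 3)]
  G := [[0, 0, 0xd1d1a812d1d16818d1d1a414e, 0xd1945641d8d8a41cd4d1681d4d1a81cc,
    0xd8945641d4d4681ad1d8c41d1d8c41aa], [0, 0xe2e8641e2e2a41ce8e8c21e4e4a81cc,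
    0xd1d4a812d4d16818d1d16814e, 0xd1d8641d1d1a41cd4d4681589d1a81cc,
    0xd8d8641d8d1c41ad8d1c41d1d8c41aa], [0, 0, 0xd1d8a414d1d1c418d1d1c412e,
    0xd844d148d128dd184d488d124dc1, 0xd844d448d428dd448d884d128da1], [0, 0,
    0xd1589a814d8d8a418d1589c812e, 0x94584d4483d148d1843c1, 0xd184d4483d448d448d824da1]]

noncomputable def n3109 : Ent := ⟨e3109, noF, [], [], [(8, 16, [7334685537875745012586738086077695515070955365108989538292687706402817, 0]), (17, 13, [6903326391226443182813612567740724581985591720012749800372886080471041, 0])]⟩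

def c3109 : PLift (Cov.check n3109.C.D v3109 = true) := ⟨by decide +kernel⟩

def b3109 : PLift (entF (fidx ts) 400 3109 n3109 = true) := ⟨by decide +kernel⟩

theorem g3109 : GoodF (fidx ts) 400 3109 := GoodF.ofV v3109 n3109 c3109.down b3109.down

/-- 4596445:2408/1 -/
noncomputable def e3110 : SCfg where
  D := {
    a := 7
    L := 10
    kp := 7
    inn := [(0, 1), (0, 2), (1, 0), (1, 2), (2, 0), (2, 1), (2, 3), (2, 4), (2, 6), (3, 2), (3, 5), (4,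
      2), (4, 6), (5, 3), (6, 2), (6, 4)]
    mix := [(0, 0), (0, 1), (1, 1), (1, 2), (1, 3), (2, 0), (2, 3), (2, 4), (2, 5), (3, 4), (3, 5), (3,
      6), (3, 7), (4, 4), (4, 8), (5, 5), (5, 7), (5, 9), (6, 2), (6, 3), (6, 8)]
    cl := [0, 2, 4, 0, 1, 1, 6, 5, 3, 7]
    chq := [(0, 3), (3, 0), (6, 7), (7, 6)]
    rng := [(0, 1), (0, 5), (1, 0), (1, 2), (2, 1), (2, 3), (2, 8), (3, 2), (4, 6), (4, 8), (5, 0), (5,
      9), (6, 4), (6, 7), (7, 6), (7, 9), (8, 2), (8, 4), (9, 5), (9, 7)]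
    lev := [] }
  links := [[1, 2, 7, 8], [2, 0, 8, 9, 10], [7, 0, 1, 10, 6, 4, 11, 3, 12], [12, 2, 11, 13, 14, 5], [11,
    2, 6, 15], [12, 3, 14, 16], [15, 4, 2, 10, 9]]
  P := {
    a := 7
    N := 17
    nb := [390, 1797, 7387, 30756, 34884, 86024, 34324, 4357, 643, 34114, 582, 40988, 65708, 18440,
      73768, 2640, 20512]
    tri := [(0, 1, 2), (0, 1, 8), (0, 2, 7), (0, 7, 8), (1, 2, 10), (1, 8, 9), (1, 9, 10), (2, 3, 11),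
      (2, 3, 12), (2, 4, 6), (2, 4, 11), (2, 6, 10), (2, 7, 12), (3, 5, 12), (3, 5, 14), (3, 11,
      13), (3, 13, 14), (4, 6, 15), (4, 11, 15), (5, 12, 16), (5, 14, 16), (6, 9, 10), (6, 9, 15)]
    fin := [0, 0, 2, 3, 0, 3, 0, 0, 8, 9, 0, 2, 2, 3, 14, 15, 16]
    chd := [(0, 15), (3, 16)]
    steps := [(0, 1), (0, 7), (0, 10), (0, 6), (0, 4), (2, 11), (2, 12), (3, 5), (3, 13)] }
  rep := [0, 2, 8, 15, 9, 14, 3, 16]

noncomputable def v3110 : Cov.CovD where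
  P := 3
  N := 5
  pl := [1, 2, 7]
  lev := [⟨[], [], [], [2], [(0, 0, [3])]⟩,
    ⟨[], [(0, 0)], [], [2, 4], [(3, 0, [3])]⟩,
    ⟨[(0, 1)], [(0, 0), (0, 1), (1, 0), (1, 1)], [(0, 0), (0, 1), (1, 1)], [], [(0, 0,
      [3]), (3, 0, [3]), (4, 1, []), (5, 1, [])]⟩,
    ⟨[(0, 2), (1, 2)], [(2, 0), (2, 1), (2, 6)], [(1, 1), (1, 6)], [5], [(4, 1, []), (5, 1,
      []), (6, 6, [7])]⟩,
    ⟨[(0, 2), (1, 2), (2, 3)], [(2, 0), (2, 1), (2, 3), (3, 1)], [(1, 3)], [], [(4, 1, []),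
      (8, 3, [0])]⟩,
    ⟨[(2, 3)], [(2, 1), (3, 1), (3, 6), (3, 7)], [(1, 7)], [5], [(5, 1, []), (9, 7, [6])]⟩,
    ⟨[(0, 2), (1, 2), (2, 3), (2, 4)], [(1, 0), (2, 0), (2, 1), (2, 3), (4, 0), (4, 1), (4,
      3)], [(0, 3)], [4], [(3, 0, [3]), (8, 3, [0])]⟩]
  Ta := [((0, 1), 0, 2), ((0, 5), 0, 1), ((3, 2), 0, 4), ((4, 6), 1, 6), ((4, 8), 1, 3), ((5, 0),
    1, 0), ((5, 9), 1, 7)]
  Tb := [((0, 1, 5), 0, 2, 1), ((1, 0, 2), 2, 0, 4), ((2, 1, 3), 4, 2, 0), ((2, 1, 8), 4, 2, 3),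
    ((2, 3, 8), 4, 0, 3), ((4, 6, 8), 1, 6, 3), ((5, 0, 9), 1, 0, 7), ((6, 4, 7), 6, 1, 5),
    ((7, 6, 9), 5, 6, 7), ((8, 2, 4), 3, 4, 1), ((9, 5, 7), 7, 1, 5)]
  Tc := []
  Td := [((0, 3), (0, 1), 2), ((0, 3), (0, 5), 1), ((0, 3), (3, 2), 4), ((3, 0), (8, 2), 4), ((3,
    0), (8, 4), 1), ((6, 7), (6, 4), 1), ((6, 7), (6, 7), 5), ((7, 6), (9, 5), 1), ((7, 6),
    (9, 7), 5)]
  G := [[0, 0, 0x82884416411341ac11612cd82261a28b1116229d8e4, 0x4451eea1e21daa618c14,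
    0xee914ee61e219c12], [0, 0x2ac128866669eea1c4c1e614, 0x1152119211c2d822914115211c29c64,
    0x51924826914ee51eec19c58, 0xee914c1e253eec19c12], [0, 0, 0,
    0xaa61aa9182229d462166a158c66318849, 0x4244cc31828cca1dc66514222566a1d8a1], [0, 0, 0,
    0xe651aa91eac1d4669126c152a518cc8, 0x44944cc518891ccc1dc2251229122c1d4a1]]

noncomputable def n3110 : Ent := ⟨e3110, noF, [], [], []⟩

def c3110 : PLift (Cov.check n3110.C.D v3110 = true) := ⟨by decide +kernel⟩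

def b3110 : PLift (entF (fidx ts) 400 3110 n3110 = true) := ⟨by decide +kernel⟩

theorem g3110 : GoodF (fidx ts) 400 3110 := GoodF.ofV v3110 n3110 c3110.down b3110.down

/-- The entries 2986 to 3110. -/
theorem rE21 : Rng (GoodF (fidx ts) 400) 2986 3111 :=
  ((((((((((((((((((((((((((((((((((((((((((((((((((((((((((((((((((((((((((((((((((((((((((((((((((((((((((((((((((((((((((((((Rng.nil _ 2986).snoc g2986 rfl).snoc g2987 rfl).snoc g2988 rfl).snoc g2989 rfl).snoc g2990 rfl).snoc g2991 rfl).snoc g2992 rfl).snoc g2993 rfl).snoc g2994 rfl).snoc g2995 rfl).snoc g2996 rfl).snoc g2997 rfl).snoc g2998 rfl).snoc g2999 rfl).snoc g3000 rfl).snoc g3001 rfl).snoc g3002 rfl).snoc g3003 rfl).snoc g3004 rfl).snoc g3005 rfl).snoc g3006 rfl).snoc g3007 rfl).snoc g3008 rfl).snoc g3009 rfl).snoc g3010 rfl).snoc g3011 rfl).snoc g3012 rfl).snoc g3013 rfl).snoc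 g3014 rfl).snoc g3015 rfl).snoc g3016 rfl).snoc g3017 rfl).snoc g3018 rfl).snoc g3019 rfl).snoc g3020 rfl).snoc g3021 rfl).snoc g3022 rfl).snoc g3023 rfl).snoc g3024 rfl).snoc g3025 rfl).snoc g3026 rfl).snoc g3027 rfl).snoc g3028 rfl).snoc g3029 rfl).snoc g3030 rfl).snoc g3031 rfl).snoc g3032 rfl).snoc g3033 rfl).snoc g3034 rfl).snoc g3035 rfl).snoc g3036 rfl).snoc g3037 rfl).snoc g3038 rfl).snoc g3039 rfl).snoc g3040 rfl).snoc g3041 rfl).snoc g3042 rfl).snoc g3043 rfl).snoc g3044 rfl).snoc g3045 rfl).snoc g3046 rfl).snoc g3047 rfl).snoc g3048 rfl).snoc g3049 rfl).snoc g3050 rfl).snoc g3051 rfl).snoc g3052 rfl).snoc g3053 rfl).snoc g3054 rfl).snoc g3055 rfl).snoc g3056 rfl).snoc g3057 rfl).snoc g3058 rfl).snoc g3059 rfl).snoc g3060 rfl).snoc g3061 rfl).snoc g3062 rfl).snoc g3063 rfl).snoc g3064 rfl).snoc g3065 rfl).snoc g3066 rfl).snoc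 g3067 rfl).snoc g3068 rfl).snoc g3069 rfl).snoc g3070 rfl).snoc g3071 rfl).snoc g3072 rfl).snoc g3073 rfl).snoc g3074 rfl).snoc g3075 rfl).snoc g3076 rfl).snoc g3077 rfl).snoc g3078 rfl).snoc g3079 rfl).snoc g3080 rfl).snoc g3081 rfl).snoc g3082 rfl).snoc g3083 rfl).snoc g3084 rfl).snoc g3085 rfl).snoc g3086 rfl).snoc g3087 rfl).snoc g3088 rfl).snoc g3089 rfl).snoc g3090 rfl).snoc g3091 rfl).snoc g3092 rfl).snoc g3093 rfl).snoc g3094 rfl).snoc g3095 rfl).snoc g3096 rfl).snoc g3097 rfl).snoc g3098 rfl).snoc g3099 rfl).snoc g3100 rfl).snoc g3101 rfl).snoc g3102 rfl).snoc g3103 rfl).snoc g3104 rfl).snoc g3105 rfl).snoc g3106 rfl).snoc g3107 rfl).snoc g3108 rfl).snoc g3109 rfl).snoc g3110 rfl)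

end Pool.Agent.W986.ST.Dat
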