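import Pool.Agent.W986.Dat.Tab
import Pool.Agent.W986.SubAltB

/-!
# Entries 3111 to 3233 of the table
-/

set_option autoImplicit false

namespace Pool.Agent.W986.ST.Dat

/-- 4596445:2408 -/
noncomputable def e3111 : SCfg where
  D := {
    a := 7
    L := 11
    kp := 8
    inn := [(0, 1), (0, 2), (1, 0), (1, 2), (2, 0), (2, 1), (2, 3), (2, 4), (2, 6), (3, 2), (3, 5), (4,
      2), (4, 6), (5, 3), (6, 2), (6, 4)]
    mix := [(0, 0), (0, 1), (1, 1), (1, 2), (1, 3), (2, 0), (2, 3), (2, 4), (2, 5), (3, 4), (3, 5), (3,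
      6), (3, 7), (4, 4), (4, 8), (5, 5), (5, 7), (5, 9), (6, 3), (6, 8), (6, 10)]
    cl := [0, 2, 7, 0, 1, 1, 5, 4, 3, 6, 8]
    chq := [(0, 3), (3, 0), (5, 6), (6, 5)]
    rng := [(0, 1), (0, 5), (1, 0), (1, 2), (2, 1), (2, 3), (3, 2), (3, 10), (4, 6), (4, 8), (5, 0),
      (5, 9), (6, 4), (6, 7), (7, 6), (7, 9), (8, 4), (8, 10), (9, 5), (9, 7), (10, 3), (10, 8)]
    lev := [] }
  links := [[1, 2, 7, 8], [2, 0, 8, 9, 10], [7, 0, 1, 10, 6, 4, 11, 3, 12], [12, 2, 11, 13, 14, 5], [11,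
    2, 6, 15], [12, 3, 14, 16], [15, 4, 2, 10, 17]]
  P := {
    a := 7
    N := 18
    nb := [390, 1797, 7387, 30756, 34884, 86024, 164884, 4357, 643, 1282, 131654, 40988, 65708, 18440,
      73768, 133200, 20512, 33856]
    tri := [(0, 1, 2), (0, 1, 8), (0, 2, 7), (0, 7, 8), (1, 2, 10), (1, 8, 9), (1, 9, 10), (2, 3, 11),
      (2, 3, 12), (2, 4, 6), (2, 4, 11), (2, 6, 10), (2, 7, 12), (3, 5, 12), (3, 5, 14), (3, 11,
      13), (3, 13, 14), (4, 6, 15), (4, 11, 15), (5, 12, 16), (5, 14, 16), (6, 10, 17), (6, 15,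
      17)]
    fin := [0, 0, 2, 3, 0, 3, 0, 0, 8, 9, 0, 2, 2, 3, 14, 15, 16, 17]
    chd := [(0, 15), (3, 16)]
    steps := [(0, 1), (0, 7), (0, 10), (0, 6), (0, 4), (2, 11), (2, 12), (3, 5), (3, 13)] }
  rep := [0, 2, 8, 15, 14, 3, 16, 9, 17]

noncomputable def v3111 : Cov.CovD where
  P := 3
  N := 6
  pl := [1, 2, 7, 10]
  lev := [⟨[], [], [], [2], [(0, 0, [3])]⟩,
    ⟨[], [(0, 0)], [], [2, 7], [(3, 0, [3])]⟩,
    ⟨[(0, 1)], [(0, 0), (0, 1), (1, 0), (1, 1)], [(0, 0), (0, 1), (1, 1)], [], [(0, 0,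
      [3]), (3, 0, [3]), (4, 1, []), (5, 1, [])]⟩,
    ⟨[(0, 2), (1, 2)], [(2, 0), (2, 1), (2, 5)], [(1, 1), (1, 5)], [4], [(4, 1, []), (5, 1,
      []), (6, 5, [6])]⟩,
    ⟨[(0, 2), (1, 2), (2, 3)], [(2, 0), (2, 1), (2, 3), (3, 1)], [(1, 3)], [], [(4, 1, []),
      (8, 3, [0])]⟩,
    ⟨[(2, 3)], [(2, 1), (3, 1), (3, 5), (3, 6)], [(1, 6)], [4], [(5, 1, []), (9, 6, [5])]⟩,
    ⟨[(0, 2), (1, 2), (2, 3), (2, 4)], [(1, 0), (2, 0), (2, 1), (2, 3), (4, 0), (4, 1), (4,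
      3)], [(0, 3)], [8], [(3, 0, [3]), (8, 3, [0])]⟩]
  Ta := [((0, 1), 0, 2), ((0, 5), 0, 1), ((3, 2), 0, 7), ((3, 10), 0, 8), ((4, 6), 1, 5), ((4,
    8), 1, 3), ((5, 0), 1, 0), ((5, 9), 1, 6)]
  Tb := [((0, 1, 5), 0, 2, 1), ((1, 0, 2), 2, 0, 7), ((2, 1, 3), 7, 2, 0), ((3, 2, 10), 0, 7, 8),
    ((4, 6, 8), 1, 5, 3), ((5, 0, 9), 1, 0, 6), ((6, 4, 7), 5, 1, 4), ((7, 6, 9), 4, 5, 6),
    ((8, 4, 10), 3, 1, 8), ((9, 5, 7), 6, 1, 4), ((10, 3, 8), 8, 0, 3)]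
  Tc := []
  Td := [((0, 3), (0, 1), 2), ((0, 3), (0, 5), 1), ((0, 3), (3, 2), 7), ((0, 3), (3, 10), 8),
    ((3, 0), (8, 4), 1), ((3, 0), (8, 10), 8), ((5, 6), (6, 4), 1), ((5, 6), (6, 7), 4), ((6,
    5), (9, 5), 1), ((6, 5), (9, 7), 4)]
  G := [[0, 0, 0x1168a2194124ee3118146cd862112113c11a111bcd11588ce4, 0x621ee31ee61d8218c14,
    0x4214ee31a21eea1dc18], [0, 0x22c12ee61eea1ccc1ea18, 0x11924115211c29c1152119211c2d8c4,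
    0x44924ee51aa91eec1dc18, 0xee91eec15ee518c12], [0, 0, 0,
    0x621681582663988918ec1dc421ee91ee61da218cc1, 0x6214ee31828eea1dc6251e21eea1d8c318ca1],
    [0, 0, 0, 0x66914ee518891eec1dc4452ee91eec1daa518cc1,
    0x669126c15ee518898c8c2dc6251ee91eec1d8c528ca1]]

noncomputable def n3111 : Ent := ⟨e3111, noF, [], [], [(9, 17, [6903326391201334775872065844685381424292761054348340378595029942427649, 0])]⟩

def c3111 : PLift (Cov.check n3111.C.D v3111 = true) := ⟨by decide +kernel⟩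

def b3111 : PLift (entF (fidx ts) 400 3111 n3111 = true) := ⟨by decide +kernel⟩

theorem g3111 : GoodF (fidx ts) 400 3111 := GoodF.ofV v3111 n3111 c3111.down b3111.down

/-- 4649646:2411 -/
noncomputable def e3112 : SCfg where
  D := {
    a := 7
    L := 11
    kp := 9
    inn := [(0, 1), (0, 3), (1, 0), (1, 2), (1, 3), (2, 1), (2, 3), (3, 0), (3, 1), (3, 2), (3, 4), (3,
      6), (4, 3), (4, 5), (4, 6), (5, 4), (5, 6), (6, 3), (6, 4), (6, 5)]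
    mix := [(0, 0), (0, 1), (1, 0), (1, 2), (1, 3), (2, 2), (2, 4), (3, 1), (3, 4), (3, 5), (3, 6), (4,
      5), (4, 7), (4, 8), (5, 8), (5, 9), (6, 6), (6, 9), (6, 10)]
    cl := [1, 0, 2, 7, 0, 5, 6, 8, 3, 4, 9]
    chq := [(0, 3), (0, 4), (0, 7), (0, 8), (0, 9), (3, 0), (4, 0), (7, 0), (8, 0), (9, 0)]
    rng := [(0, 1), (0, 3), (1, 0), (1, 5), (2, 3), (2, 4), (3, 0), (3, 2), (4, 2), (4, 6), (5, 1), (5,
      7), (6, 4), (6, 10), (7, 5), (7, 8), (8, 7), (8, 9), (9, 8), (9, 10), (10, 6), (10, 9)]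
    lev := [] }
  links := [[1, 7, 8, 3], [7, 0, 3, 2, 9, 10], [9, 1, 3, 11], [11, 2, 1, 0, 8, 12, 4, 6, 13], [6, 3, 12,
    14, 15, 5], [6, 4, 15, 16], [13, 3, 4, 5, 16, 17]]
  P := {
    a := 7
    N := 18
    nb := [394, 1677, 2570, 14679, 53352, 98384, 204856, 1283, 4233, 3078, 642, 8716, 16664, 133192,
      36880, 81968, 163936, 73792]
    tri := [(0, 1, 3), (0, 1, 7), (0, 3, 8), (0, 7, 8), (1, 2, 3), (1, 2, 9), (1, 7, 10), (1, 9, 10),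
      (2, 3, 11), (2, 9, 11), (3, 4, 6), (3, 4, 12), (3, 6, 13), (3, 8, 12), (3, 11, 13), (4, 5,
      6), (4, 5, 15), (4, 12, 14), (4, 14, 15), (5, 6, 16), (5, 15, 16), (6, 13, 17), (6, 16, 17)]
    fin := [0, 1, 1, 1, 1, 1, 1, 0, 1, 9, 10, 1, 12, 13, 14, 15, 16, 17]
    chd := [(1, 10), (1, 14), (1, 15), (1, 16), (1, 17)]
    steps := [(0, 7), (1, 2), (1, 3), (1, 4), (1, 5), (1, 6), (1, 8), (1, 11)] }
  rep := [1, 0, 9, 15, 16, 12, 13, 10, 14, 17]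

noncomputable def v3112 : Cov.CovD where
  P := 3
  N := 7
  pl := [0, 2, 5, 6]
  lev := [⟨[], [], [], [1], [(1, 0, [3, 4, 7, 8, 9])]⟩,
    ⟨[], [(0, 0), (0, 7)], [], [1, 2], [(3, 7, [0])]⟩,
    ⟨[(0, 1)], [(1, 0), (1, 7)], [], [2], [(4, 0, [3, 4, 7, 8, 9])]⟩,
    ⟨[(0, 1), (0, 2), (1, 2)], [(0, 0), (1, 0), (1, 7), (2, 0)], [(0, 0)], [5, 6], [(1, 0,
      [3, 4, 7, 8, 9]), (4, 0, [3, 4, 7, 8, 9])]⟩,
    ⟨[(0, 3), (1, 3), (2, 3)], [(3, 0), (3, 3), (3, 8)], [(3, 8)], [5], [(7, 8, [0]), (8,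
      3, [0])]⟩,
    ⟨[(3, 4)], [(4, 3), (4, 4), (4, 8)], [(3, 4)], [], [(8, 3, [0]), (9, 4, [0])]⟩,
    ⟨[(0, 3), (1, 3), (2, 3), (3, 4), (3, 5), (4, 5)], [(3, 0), (3, 4), (3, 9), (4, 3), (4,
      4), (4, 8), (4, 9), (5, 3), (5, 4), (5, 9)], [(4, 9)], [6], [(9, 4, [0]), (10, 9,
      [0])]⟩]
  Ta := [((1, 0), 0, 1), ((1, 5), 0, 5), ((4, 2), 0, 2), ((4, 6), 0, 6)]
  Tb := [((0, 1, 3), 1, 0, 7), ((1, 0, 5), 0, 1, 5), ((2, 3, 4), 2, 7, 0), ((3, 0, 2), 7, 1, 2),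
    ((4, 2, 6), 0, 2, 6), ((5, 1, 7), 5, 0, 8), ((6, 4, 10), 6, 0, 9), ((7, 5, 8), 8, 5, 3),
    ((8, 7, 9), 3, 8, 4), ((9, 8, 10), 4, 3, 9), ((10, 6, 9), 9, 6, 4)]
  Tc := [(0, 3, 4), (0, 3, 7), (0, 3, 8), (0, 3, 9), (0, 4, 7), (0, 4, 8), (0, 4, 9), (0, 7, 8),
    (0, 7, 9), (0, 8, 9)]
  Td := [((0, 3), (1, 0), 1), ((0, 3), (1, 5), 5), ((0, 3), (4, 2), 2), ((0, 3), (4, 6), 6), ((0,
    4), (1, 0), 1), ((0, 4), (1, 5), 5), ((0, 4), (4, 2), 2), ((0, 4), (4, 6), 6), ((0, 7),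
    (1, 0), 1), ((0, 7), (1, 5), 5), ((0, 7), (4, 2), 2), ((0, 7), (4, 6), 6), ((0, 8), (1,
    0), 1), ((0, 8), (1, 5), 5), ((0, 8), (4, 2), 2), ((0, 8), (4, 6), 6), ((0, 9), (1, 0),
    1), ((0, 9), (1, 5), 5), ((0, 9), (4, 2), 2), ((0, 9), (4, 6), 6), ((3, 0), (8, 7), 8),
    ((3, 0), (8, 9), 4), ((4, 0), (9, 8), 3), ((4, 0), (9, 10), 9), ((7, 0), (3, 0), 1), ((7,
    0), (3, 2), 2), ((8, 0), (7, 5), 5), ((8, 0), (7, 8), 3), ((9, 0), (10, 6), 6), ((9, 0),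
    (10, 9), 4)]
  G := [[0, 0x111e1111e1111e1e4111e1111e16111e18cc2, 0,
    0x119111bc74bd48111311c34111714121db8ff18115111db712ffac1c,
    0x111bd144f5481181232b119115111db712ff61117141131db8ff8a1c], [0, 0,
    0x111e1111e1111e1e2111e1111e1111e1e2c1,
    0x18111b12d174ff481111714121dbeff1814111db71affa41c,
    0x18111b11a59feff1814111db716ff681111714121db8ff821c]]

noncomputable def n3112 : Ent := ⟨e3112, noF, [], [], []⟩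

def c3112 : PLift (Cov.check n3112.C.D v3112 = true) := ⟨by decide +kernel⟩

def b3112 : PLift (entF (fidx ts) 400 3112 n3112 = true) := ⟨by decide +kernel⟩

theorem g3112 : GoodF (fidx ts) 400 3112 := GoodF.ofV v3112 n3112 c3112.down b3112.down

/-- 4596464:2416/1 -/
noncomputable def e3113 : SCfg where
  D := {
    a := 7
    L := 10
    kp := 7
    inn := [(0, 1), (0, 2), (0, 3), (1, 0), (1, 2), (2, 0), (2, 1), (2, 3), (2, 4), (2, 5), (3, 0), (3,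
      2), (3, 5), (4, 2), (5, 2), (5, 3), (5, 6), (6, 5)]
    mix := [(0, 0), (1, 0), (1, 1), (1, 2), (2, 2), (2, 3), (2, 4), (2, 5), (3, 0), (3, 6), (3, 7), (4,
      3), (4, 4), (4, 8), (5, 5), (5, 6), (5, 9), (6, 1), (6, 6), (6, 9)]
    cl := [3, 4, 1, 2, 1, 0, 0, 6, 7, 5]
    chq := [(0, 3), (1, 3), (3, 0), (3, 1)]
    rng := [(0, 1), (0, 7), (1, 0), (1, 2), (1, 6), (1, 9), (2, 1), (2, 3), (3, 2), (3, 8), (4, 5), (4,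
      8), (5, 4), (5, 9), (6, 1), (6, 7), (7, 0), (7, 6), (8, 3), (8, 4), (9, 1), (9, 5)]
    lev := [] }
  links := [[1, 2, 3, 7], [2, 0, 7, 8, 9], [3, 0, 1, 9, 10, 4, 11, 12, 5], [7, 0, 2, 5, 13, 14], [11, 2,
    10, 15], [13, 3, 2, 12, 16, 6], [13, 5, 16, 8]]
  P := {
    a := 7
    N := 17
    nb := [142, 901, 7739, 24741, 35844, 77900, 74016, 16651, 74434, 1286, 33300, 36884, 67620, 16744,
      8328, 3088, 4448]
    tri := [(0, 1, 2), (0, 1, 7), (0, 2, 3), (0, 3, 7), (1, 2, 9), (1, 7, 8), (1, 8, 9), (2, 3, 5), (2,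
      4, 10), (2, 4, 11), (2, 5, 12), (2, 9, 10), (2, 11, 12), (3, 5, 13), (3, 7, 14), (3, 13,
      14), (4, 10, 15), (4, 11, 15), (5, 6, 13), (5, 6, 16), (5, 12, 16), (6, 8, 13), (6, 8, 16)]
    fin := [0, 0, 2, 0, 2, 5, 6, 0, 6, 2, 10, 2, 5, 5, 14, 15, 16]
    chd := [(0, 2), (0, 5)]
    steps := [(0, 1), (0, 3), (0, 7), (2, 4), (2, 9), (2, 11), (5, 12), (5, 13), (6, 8)] }
  rep := [5, 2, 10, 0, 6, 16, 14, 15]

noncomputable def v3113 : Cov.CovD where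
  P := 3
  N := 5
  pl := [1, 3, 7, 8, 9]
  lev := [⟨[], [], [], [], [(0, 3, [0, 1])]⟩,
    ⟨[], [(0, 1), (0, 3)], [(1, 3)], [4], [(0, 3, [0, 1]), (2, 1, [3])]⟩,
    ⟨[(0, 1)], [(0, 0), (0, 1), (0, 3), (1, 0), (1, 1), (1, 3)], [(0, 1), (1, 1)], [2],
      [(2, 1, [3]), (4, 1, [3]), (5, 0, [3])]⟩,
    ⟨[(0, 1), (0, 2), (1, 2)], [(0, 0), (0, 3), (1, 3), (2, 0), (2, 1), (2, 3)], [(0, 3)],
      [6], [(0, 3, [0, 1]), (6, 0, [3])]⟩,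
    ⟨[(0, 2), (1, 2), (2, 3)], [(2, 0), (2, 1)], [], [2, 7], [(4, 1, [3])]⟩,
    ⟨[(0, 2), (0, 3), (1, 2), (2, 3), (2, 4)], [(2, 0), (2, 1), (3, 0), (3, 3)], [(0, 0)],
      [5], [(5, 0, [3]), (6, 0, [3])]⟩,
    ⟨[(2, 5), (3, 5)], [(3, 0), (5, 0)], [], [4, 5], [(6, 0, [3])]⟩]
  Ta := [((2, 1), 1, 4), ((2, 3), 1, 2), ((4, 5), 1, 0), ((4, 8), 1, 7), ((5, 4), 0, 1), ((5, 9),
    0, 5), ((6, 1), 0, 4), ((6, 7), 0, 6)]
  Tb := [((0, 1, 7), 3, 4, 6), ((1, 0, 2), 4, 3, 1), ((1, 0, 6), 4, 3, 0), ((1, 0, 9), 4, 3, 5),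
    ((1, 2, 6), 4, 1, 0), ((1, 2, 9), 4, 1, 5), ((1, 6, 9), 4, 0, 5), ((2, 1, 3), 1, 4, 2),
    ((3, 2, 8), 2, 1, 7), ((4, 5, 8), 1, 0, 7), ((5, 4, 9), 0, 1, 5), ((6, 1, 7), 0, 4, 6),
    ((7, 0, 6), 6, 3, 0), ((8, 3, 4), 7, 2, 1), ((9, 1, 5), 5, 4, 0)]
  Tc := [(3, 0, 1)]
  Td := [((0, 3), (5, 4), 1), ((0, 3), (5, 9), 5), ((0, 3), (6, 1), 4), ((0, 3), (6, 7), 6), ((1,
    3), (2, 1), 4), ((1, 3), (2, 3), 2), ((1, 3), (4, 5), 0), ((1, 3), (4, 8), 7), ((3, 0),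
    (0, 1), 4), ((3, 0), (0, 7), 6), ((3, 1), (0, 1), 4), ((3, 1), (0, 7), 6)]
  G := [[0, 0, 0x11a211c2c6a2b412, 0x126112a12a921c8c2a4f412, 0x11c211c2ca627812], [0,
    0xca6ca6c181116411c4ca68b816, 0x1421cc22c26c312c12ac188cc12, 0,
    0x1888122211214914189c26c269f816], [0, 0, 0x42628e622ec2e81a86282c2a442a2486268c3,
    0x42a826582c82c9a4224842ad442824cd68c2642658268265e42ac68de8d2,
    0x486281c2628a622ec2e8948622846a2486268c3], [0, 0,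
    0x82c22424c228844482e42ec4e482e42acc2a8e2c8ece1, 0,
    0xc268688a1282c221c2a828861a481442844b68c2618261a42ec9e86d]]

noncomputable def n3113 : Ent := ⟨e3113, noF, [], [], []⟩

def c3113 : PLift (Cov.check n3113.C.D v3113 = true) := ⟨by decide +kernel⟩

def b3113 : PLift (entF (fidx ts) 400 3113 n3113 = true) := ⟨by decide +kernel⟩

theorem g3113 : GoodF (fidx ts) 400 3113 := GoodF.ofV v3113 n3113 c3113.down b3113.down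

/-- 4596464:2416/2 -/
noncomputable def e3114 : SCfg where
  D := {
    a := 7
    L := 10
    kp := 7
    inn := [(0, 1), (0, 2), (0, 3), (1, 0), (1, 2), (2, 0), (2, 1), (2, 3), (2, 4), (2, 5), (3, 0), (3,
      2), (3, 5), (4, 2), (5, 2), (5, 3), (5, 6), (6, 5)]
    mix := [(0, 0), (1, 0), (1, 1), (1, 2), (2, 2), (2, 3), (2, 4), (2, 5), (3, 0), (3, 6), (3, 7), (4,
      3), (4, 4), (4, 8), (5, 5), (5, 6), (5, 9), (6, 6), (6, 8), (6, 9)]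
    cl := [2, 6, 1, 3, 1, 0, 0, 7, 4, 5]
    chq := [(0, 2), (1, 2), (2, 0), (2, 1)]
    rng := [(0, 1), (0, 7), (1, 0), (1, 2), (2, 1), (2, 3), (3, 2), (3, 8), (4, 5), (4, 8), (5, 4), (5,
      9), (6, 7), (6, 8), (7, 0), (7, 6), (8, 3), (8, 4), (8, 6), (8, 9), (9, 5), (9, 8)]
    lev := [] }
  links := [[1, 2, 3, 7], [2, 0, 7, 8, 9], [3, 0, 1, 9, 10, 4, 11, 12, 5], [7, 0, 2, 5, 13, 14], [11, 2,
    10, 15], [13, 3, 2, 12, 16, 6], [13, 5, 16, 15]]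
  P := {
    a := 7
    N := 17
    nb := [142, 901, 7739, 24741, 35844, 77900, 106528, 16651, 642, 1286, 33300, 36884, 67620, 49256,
      8328, 76880, 36960]
    tri := [(0, 1, 2), (0, 1, 7), (0, 2, 3), (0, 3, 7), (1, 2, 9), (1, 7, 8), (1, 8, 9), (2, 3, 5), (2,
      4, 10), (2, 4, 11), (2, 5, 12), (2, 9, 10), (2, 11, 12), (3, 5, 13), (3, 7, 14), (3, 13,
      14), (4, 10, 15), (4, 11, 15), (5, 6, 13), (5, 6, 16), (5, 12, 16), (6, 13, 15), (6, 15,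
      16)]
    fin := [0, 0, 2, 0, 2, 5, 6, 0, 8, 2, 10, 2, 5, 5, 14, 6, 16]
    chd := [(0, 2), (0, 5)]
    steps := [(0, 1), (0, 3), (0, 7), (2, 4), (2, 9), (2, 11), (5, 12), (5, 13), (6, 15)] }
  rep := [5, 2, 0, 10, 6, 16, 8, 14]

noncomputable def v3114 : Cov.CovD where
  P := 3
  N := 5
  pl := [1, 3, 7, 8, 9]
  lev := [⟨[], [], [], [], [(0, 2, [0, 1])]⟩,
    ⟨[], [(0, 1), (0, 2)], [(1, 2)], [6], [(0, 2, [0, 1]), (2, 1, [2])]⟩,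
    ⟨[(0, 1)], [(0, 0), (0, 1), (0, 2), (1, 0), (1, 1), (1, 2)], [(0, 1), (1, 1)], [3],
      [(2, 1, [2]), (4, 1, [2]), (5, 0, [2])]⟩,
    ⟨[(0, 1), (0, 2), (1, 2)], [(0, 0), (0, 2), (1, 2), (2, 0), (2, 1), (2, 2)], [(0, 2)],
      [7], [(0, 2, [0, 1]), (6, 0, [2])]⟩,
    ⟨[(0, 2), (1, 2), (2, 3)], [(2, 0), (2, 1)], [], [3, 4], [(4, 1, [2])]⟩,
    ⟨[(0, 2), (0, 3), (1, 2), (2, 3), (2, 4)], [(2, 0), (2, 1), (3, 0), (3, 2)], [(0, 0)],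
      [5], [(5, 0, [2]), (6, 0, [2])]⟩,
    ⟨[(2, 5), (3, 5)], [(3, 0), (5, 0)], [], [4, 5], [(6, 0, [2])]⟩]
  Ta := [((2, 1), 1, 6), ((2, 3), 1, 3), ((4, 5), 1, 0), ((4, 8), 1, 4), ((5, 4), 0, 1), ((5, 9),
    0, 5), ((6, 7), 0, 7), ((6, 8), 0, 4)]
  Tb := [((0, 1, 7), 2, 6, 7), ((1, 0, 2), 6, 2, 1), ((2, 1, 3), 1, 6, 3), ((3, 2, 8), 3, 1, 4),
    ((4, 5, 8), 1, 0, 4), ((5, 4, 9), 0, 1, 5), ((6, 7, 8), 0, 7, 4), ((7, 0, 6), 7, 2, 0),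
    ((8, 3, 4), 4, 3, 1), ((8, 3, 6), 4, 3, 0), ((8, 3, 9), 4, 3, 5), ((8, 4, 6), 4, 1, 0),
    ((8, 4, 9), 4, 1, 5), ((8, 6, 9), 4, 0, 5), ((9, 5, 8), 5, 0, 4)]
  Tc := [(2, 0, 1)]
  Td := [((0, 2), (5, 4), 1), ((0, 2), (5, 9), 5), ((0, 2), (6, 7), 7), ((0, 2), (6, 8), 4), ((1,
    2), (2, 1), 6), ((1, 2), (2, 3), 3), ((1, 2), (4, 5), 0), ((1, 2), (4, 8), 4), ((2, 0),
    (0, 1), 6), ((2, 0), (0, 7), 7), ((2, 1), (0, 1), 6), ((2, 1), (0, 7), 7)]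
  G := [[0, 0, 0x12621262c12c112a1cc12, 0xc2621c2a21c112c22412c228c3,
    0xc2621c2a11c2ec21c2a11c92], [0, 0x4264182a8184a4862ece1e14,
    0x81611a12cd1164169611c111a1165ac21, 0xc2621c2a21cc26218c21c22413,
    0xca61182a46a82ad1c28], [0, 0, 0x11611161611a211c26c18, 0x2ec221222e42628222228de2c224d8,
    0x444282642ac82c28ca482e2e2c2adc262a44424c28fa42a826528c2c6ac92], [0, 0,
    0x141165116161261214d12112c1818dec18, 0x2ec2212ec22242292422e822cd4,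
    0x8a688124261a8624c9a8264ea826d64aa865ac29]]

noncomputable def n3114 : Ent := ⟨e3114, noF, [], [], []⟩

def c3114 : PLift (Cov.check n3114.C.D v3114 = true) := ⟨by decide +kernel⟩

def b3114 : PLift (entF (fidx ts) 400 3114 n3114 = true) := ⟨by decide +kernel⟩

theorem g3114 : GoodF (fidx ts) 400 3114 := GoodF.ofV v3114 n3114 c3114.down b3114.down

/-- 4596464:2416 -/
noncomputable def e3115 : SCfg where
  D := {
    a := 7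
    L := 11
    kp := 8
    inn := [(0, 1), (0, 2), (0, 3), (1, 0), (1, 2), (2, 0), (2, 1), (2, 3), (2, 4), (2, 5), (3, 0), (3,
      2), (3, 5), (4, 2), (5, 2), (5, 3), (5, 6), (6, 5)]
    mix := [(0, 0), (1, 0), (1, 1), (1, 2), (2, 2), (2, 3), (2, 4), (2, 5), (3, 0), (3, 6), (3, 7), (4,
      3), (4, 4), (4, 8), (5, 5), (5, 6), (5, 9), (6, 6), (6, 9), (6, 10)]
    cl := [1, 6, 0, 2, 0, 3, 3, 5, 7, 4, 8]
    chq := [(0, 1), (0, 5), (1, 0), (5, 0)]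
    rng := [(0, 1), (0, 7), (1, 0), (1, 2), (2, 1), (2, 3), (3, 2), (3, 8), (4, 5), (4, 8), (5, 4), (5,
      9), (6, 7), (6, 10), (7, 0), (7, 6), (8, 3), (8, 4), (9, 5), (9, 10), (10, 6), (10, 9)]
    lev := [] }
  links := [[1, 2, 3, 7], [2, 0, 7, 8, 9], [3, 0, 1, 9, 10, 4, 11, 12, 5], [7, 0, 2, 5, 13, 14], [11, 2,
    10, 15], [13, 3, 2, 12, 16, 6], [13, 5, 16, 17]]
  P := {
    a := 7
    N := 18
    nb := [142, 901, 7739, 24741, 35844, 77900, 204832, 16651, 642, 1286, 33300, 36884, 67620, 147560,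
      8328, 3088, 135264, 73792]
    tri := [(0, 1, 2), (0, 1, 7), (0, 2, 3), (0, 3, 7), (1, 2, 9), (1, 7, 8), (1, 8, 9), (2, 3, 5), (2,
      4, 10), (2, 4, 11), (2, 5, 12), (2, 9, 10), (2, 11, 12), (3, 5, 13), (3, 7, 14), (3, 13,
      14), (4, 10, 15), (4, 11, 15), (5, 6, 13), (5, 6, 16), (5, 12, 16), (6, 13, 17), (6, 16,
      17)]
    fin := [0, 0, 2, 2, 2, 5, 5, 0, 8, 2, 10, 2, 5, 5, 14, 15, 16, 17]
    chd := [(0, 2), (2, 14)]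
    steps := [(0, 1), (0, 7), (2, 3), (2, 4), (2, 9), (2, 11), (5, 6), (5, 12), (5, 13)] }
  rep := [2, 0, 10, 5, 16, 14, 8, 15, 17]

noncomputable def v3115 : Cov.CovD where
  P := 3
  N := 6
  pl := [1, 3, 8, 9, 10]
  lev := [⟨[], [], [], [], [(0, 1, [0])]⟩,
    ⟨[], [(0, 0), (0, 1)], [(0, 1)], [6], [(0, 1, [0]), (2, 0, [1, 5])]⟩,
    ⟨[(0, 1)], [(0, 0), (0, 1), (0, 3), (1, 0), (1, 1), (1, 3)], [(0, 0), (0, 3)], [2],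
      [(2, 0, [1, 5]), (4, 0, [1, 5]), (5, 3, [])]⟩,
    ⟨[(0, 1), (0, 2), (1, 2)], [(0, 1), (0, 3), (0, 5), (1, 1), (2, 0), (2, 1), (2, 3), (2,
      5)], [(1, 3), (1, 5), (3, 5)], [], [(0, 1, [0]), (6, 3, []), (7, 5, [0])]⟩,
    ⟨[(0, 2), (1, 2), (2, 3)], [(2, 0), (2, 3)], [], [2, 7], [(4, 0, [1, 5])]⟩,
    ⟨[(0, 2), (0, 3), (1, 2), (2, 3), (2, 4)], [(2, 0), (2, 3), (3, 1), (3, 3), (3, 5)],
      [(3, 3)], [4], [(5, 3, []), (6, 3, [])]⟩,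
    ⟨[(2, 5), (3, 5)], [(3, 3), (5, 3)], [], [4, 8], [(6, 3, [])]⟩]
  Ta := [((2, 1), 0, 6), ((2, 3), 0, 2), ((4, 5), 0, 3), ((4, 8), 0, 7), ((5, 4), 3, 0), ((5, 9),
    3, 4), ((6, 7), 3, 5), ((6, 10), 3, 8)]
  Tb := [((0, 1, 7), 1, 6, 5), ((1, 0, 2), 6, 1, 0), ((2, 1, 3), 0, 6, 2), ((3, 2, 8), 2, 0, 7),
    ((4, 5, 8), 0, 3, 7), ((5, 4, 9), 3, 0, 4), ((6, 7, 10), 3, 5, 8), ((7, 0, 6), 5, 1, 3),
    ((8, 3, 4), 7, 2, 0), ((9, 5, 10), 4, 3, 8), ((10, 6, 9), 8, 3, 4)]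
  Tc := [(0, 1, 5)]
  Td := [((0, 1), (2, 1), 6), ((0, 1), (2, 3), 2), ((0, 1), (4, 5), 3), ((0, 1), (4, 8), 7), ((0,
    5), (2, 1), 6), ((0, 5), (2, 3), 2), ((0, 5), (4, 5), 3), ((0, 5), (4, 8), 7), ((1, 0),
    (0, 1), 6), ((1, 0), (0, 7), 5), ((5, 0), (7, 0), 1), ((5, 0), (7, 6), 3)]
  G := [[0, 0x74a1184a9314b8611c2b8e114a6, 0x2e5a65619c6ca3c1ac25369c1ce39c3c1ac4,
    0xa967114865ab1184a93148653184cd, 0x211c6515511c219a65c118d611ac4], [0,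
    0x913e11443611815c118811ce2, 0xd174fd174fa14b712fb712fc12c8, 0x411d174f15488111db8f1984c,
    0xb712f1124b712f112221189c], [0, 0xa93142b8e11c723e1165318ca2, 0,
    0x5116a9e8cabc541e4343a48d181c, 0xe2676ace28b151635a8289a14], [0,
    0x93a11454118536119811ce2, 0, 0xd174f8891411db8f445181c, 0x1db8f2231b712f8891a14]]

noncomputable def n3115 : Ent := ⟨e3115, noF, [], [], [(8, 17, [6903326391201334775872065844685381424292761054348340378595029942439937, 0]), (15, 17, [6903326391201334775872065844685381424292761054348340378595029942444033, 0])]⟩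

def c3115 : PLift (Cov.check n3115.C.D v3115 = true) := ⟨by decide +kernel⟩

def b3115 : PLift (entF (fidx ts) 400 3115 n3115 = true) := ⟨by decide +kernel⟩

theorem g3115 : GoodF (fidx ts) 400 3115 := GoodF.ofV v3115 n3115 c3115.down b3115.down

/-- 4667544:2417/1 -/
noncomputable def e3116 : SCfg where
  D := {
    a := 7
    L := 10
    kp := 7
    inn := [(0, 1), (0, 3), (1, 0), (1, 2), (1, 3), (2, 1), (2, 4), (3, 0), (3, 1), (3, 5), (4, 2), (4,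
      6), (5, 3), (6, 4)]
    mix := [(0, 0), (0, 1), (1, 1), (1, 2), (1, 3), (2, 1), (2, 2), (2, 4), (2, 5), (3, 0), (3, 3), (3,
      6), (3, 7), (4, 2), (4, 5), (4, 8), (5, 3), (5, 6), (5, 9), (6, 5), (6, 8), (6, 9)]
    cl := [4, 0, 0, 1, 7, 3, 5, 1, 2, 6]
    chq := [(2, 3), (2, 7), (3, 2), (7, 2)]
    rng := [(0, 1), (0, 7), (1, 0), (1, 4), (2, 3), (2, 8), (3, 2), (3, 9), (4, 1), (4, 5), (5, 4), (5,
      9), (6, 7), (6, 9), (7, 0), (7, 6), (8, 2), (8, 9), (9, 3), (9, 5), (9, 6), (9, 8)]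
    lev := [] }
  links := [[1, 3, 7, 8], [3, 0, 8, 2, 9, 10], [9, 1, 8, 11, 12, 4], [7, 0, 1, 10, 5, 13, 14], [9, 2, 12,
    6, 15], [13, 3, 10, 16], [15, 4, 12, 16]]
  P := {
    a := 7
    N := 17
    nb := [394, 1805, 6930, 25763, 37444, 74760, 102416, 16649, 2183, 33814, 66090, 4356, 67668,
      81960, 8328, 66128, 46176]
    tri := [(0, 1, 3), (0, 1, 8), (0, 3, 7), (0, 7, 8), (1, 2, 8), (1, 2, 9), (1, 3, 10), (1, 9, 10),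
      (2, 4, 9), (2, 4, 12), (2, 8, 11), (2, 11, 12), (3, 5, 10), (3, 5, 13), (3, 7, 14), (3, 13,
      14), (4, 6, 12), (4, 6, 15), (4, 9, 15), (5, 10, 16), (5, 13, 16), (6, 12, 16), (6, 15, 16)]
    fin := [0, 1, 2, 3, 2, 5, 6, 0, 1, 1, 3, 2, 6, 13, 3, 15, 5]
    chd := [(2, 15), (6, 15)]
    steps := [(0, 7), (1, 8), (1, 9), (2, 4), (2, 11), (3, 10), (3, 14), (5, 16), (6, 12)] }
  rep := [1, 3, 15, 6, 0, 13, 5, 2]

noncomputable def v3116 : Cov.CovD where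
  P := 3
  N := 5
  pl := [0, 6, 9]
  lev := [⟨[], [], [], [4], [(1, 0, [])]⟩,
    ⟨[], [(0, 0), (0, 1)], [(0, 0), (0, 1)], [], [(1, 0, []), (2, 0, []), (3, 1, [])]⟩,
    ⟨[(0, 1)], [(0, 0), (1, 0), (1, 1), (1, 3), (1, 7)], [(0, 0), (0, 3), (0, 7), (3, 7)],
      [], [(1, 0, []), (2, 0, []), (4, 7, [2]), (5, 3, [2])]⟩,
    ⟨[(0, 1), (1, 2)], [(0, 0), (0, 1), (1, 0), (1, 1)], [(1, 1)], [4, 5], [(3, 1, []), (7,
      1, [])]⟩,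
    ⟨[(1, 2)], [(1, 0), (2, 0), (2, 2), (2, 3), (2, 7)], [(0, 2), (0, 3), (2, 3)], [], [(2,
      0, []), (5, 3, [2]), (8, 2, [3, 7])]⟩,
    ⟨[(0, 3), (1, 3)], [(1, 1), (3, 1)], [], [5, 6], [(3, 1, [])]⟩,
    ⟨[(2, 4)], [(2, 3), (4, 0), (4, 2), (4, 3)], [(2, 3)], [6], [(5, 3, [2]), (8, 2, [3,
      7])]⟩]
  Ta := [((1, 0), 0, 4), ((1, 4), 0, 7), ((2, 3), 0, 1), ((2, 8), 0, 2), ((3, 2), 1, 0), ((3, 9),
    1, 6), ((7, 0), 1, 4), ((7, 6), 1, 5)]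
  Tb := [((0, 1, 7), 4, 0, 1), ((1, 0, 4), 0, 4, 7), ((2, 3, 8), 0, 1, 2), ((3, 2, 9), 1, 0, 6),
    ((4, 1, 5), 7, 0, 3), ((5, 4, 9), 3, 7, 6), ((6, 7, 9), 5, 1, 6), ((7, 0, 6), 1, 4, 5),
    ((8, 2, 9), 2, 0, 6), ((9, 3, 5), 6, 1, 3), ((9, 3, 6), 6, 1, 5), ((9, 3, 8), 6, 1, 2),
    ((9, 5, 6), 6, 3, 5), ((9, 5, 8), 6, 3, 2), ((9, 6, 8), 6, 5, 2)]
  Tc := [(2, 3, 7)]
  Td := [((2, 3), (8, 2), 0), ((2, 3), (8, 9), 6), ((2, 7), (8, 2), 0), ((2, 7), (8, 9), 6), ((3,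
    2), (5, 4), 7), ((3, 2), (5, 9), 6), ((7, 2), (4, 1), 0), ((7, 2), (4, 5), 3)]
  G := [[0, 0, 0, 0x891d14cc42811d544dc914881d44ddcd2c2,
    0x135b95a191d232da881d223dad48818288838c828ec2], [0, 0, 0,
    0x81352c89a52cc2881a14cc8134417c9246, 0x91322aa81a22a548896226a815223a9486], [0,
    0x818e141ec42811e144ec881e44deca2c1,
    0x84c82c6444a844e482c2844e4e84c82c6618181e984c24cac161a92424c88ea161c9ec2,
    0x81c14cc4281c14cc88dd441dc92c2, 0x9434a81c12ca883d221dad48818a84c2], [0, 0,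
    0x6282c8c222a82222c8e421c1c1c121a12121c1e4c2226444a2c42222c4e8b,
    0x881b4417c1289252c92416cc283, 0x881d222ea1489222a9222ac483]]

noncomputable def n3116 : Ent := ⟨e3116, noF, [], [], []⟩

def c3116 : PLift (Cov.check n3116.C.D v3116 = true) := ⟨by decide +kernel⟩

def b3116 : PLift (entF (fidx ts) 400 3116 n3116 = true) := ⟨by decide +kernel⟩

theorem g3116 : GoodF (fidx ts) 400 3116 := GoodF.ofV v3116 n3116 c3116.down b3116.down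

/-- 4667544:2417/3 -/
noncomputable def e3117 : SCfg where
  D := {
    a := 7
    L := 9
    kp := 6
    inn := [(0, 1), (0, 3), (1, 0), (1, 2), (1, 3), (2, 1), (2, 4), (3, 0), (3, 1), (3, 5), (4, 2), (4,
      6), (5, 3), (6, 4)]
    mix := [(0, 0), (0, 1), (1, 1), (1, 2), (1, 3), (2, 1), (2, 2), (2, 4), (2, 5), (3, 0), (3, 3), (3,
      6), (3, 7), (4, 2), (4, 5), (4, 8), (5, 3), (5, 6), (5, 8), (6, 5), (6, 6), (6, 8)]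
    cl := [5, 0, 0, 1, 6, 3, 4, 1, 2]
    chq := [(0, 3), (0, 4), (3, 0), (4, 0)]
    rng := [(0, 1), (0, 7), (1, 0), (1, 4), (2, 3), (2, 8), (3, 2), (3, 8), (4, 1), (4, 5), (5, 4), (5,
      6), (6, 5), (6, 7), (6, 8), (7, 0), (7, 6), (8, 2), (8, 3), (8, 6)]
    lev := [] }
  links := [[1, 3, 7, 8], [3, 0, 8, 2, 9, 10], [9, 1, 8, 11, 12, 4], [7, 0, 1, 10, 5, 13, 14], [9, 2, 12,
    6, 15], [13, 3, 10, 15], [15, 4, 12, 13]]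
  P := {
    a := 7
    N := 16
    nb := [394, 1805, 6930, 25763, 37444, 41992, 45072, 16649, 2183, 33814, 33322, 4356, 10324, 53352,
      8328, 9840]
    tri := [(0, 1, 3), (0, 1, 8), (0, 3, 7), (0, 7, 8), (1, 2, 8), (1, 2, 9), (1, 3, 10), (1, 9, 10),
      (2, 4, 9), (2, 4, 12), (2, 8, 11), (2, 11, 12), (3, 5, 10), (3, 5, 13), (3, 7, 14), (3, 13,
      14), (4, 6, 12), (4, 6, 15), (4, 9, 15), (5, 10, 15), (5, 13, 15), (6, 12, 13), (6, 13, 15)]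
    fin := [0, 0, 2, 3, 2, 5, 2, 0, 2, 2, 3, 11, 12, 5, 3, 15]
    chd := [(2, 5), (2, 12)]
    steps := [(0, 1), (0, 7), (2, 4), (2, 6), (2, 8), (2, 9), (3, 10), (3, 14), (5, 13)] }
  rep := [2, 3, 15, 12, 5, 0, 11]

noncomputable def v3117 : Cov.CovD where
  P := 3
  N := 4
  pl := [0, 4, 8]
  lev := [⟨[], [], [], [5], [(1, 0, [3, 4])]⟩,
    ⟨[], [(0, 0), (0, 1)], [(0, 0), (0, 1)], [], [(1, 0, [3, 4]), (2, 0, [3, 4]), (3, 1,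
      [])]⟩,
    ⟨[(0, 1)], [(0, 0), (1, 0), (1, 1), (1, 3)], [(0, 0), (0, 3)], [6], [(1, 0, [3, 4]),
      (2, 0, [3, 4]), (5, 3, [0])]⟩,
    ⟨[(0, 1), (1, 2)], [(0, 0), (0, 1), (0, 4), (1, 0), (1, 1), (1, 4)], [(1, 1), (1, 4)],
      [5], [(3, 1, []), (6, 4, [0]), (7, 1, [])]⟩,
    ⟨[(1, 2)], [(1, 0), (2, 0), (2, 3)], [(0, 3)], [2], [(2, 0, [3, 4]), (5, 3, [0])]⟩,
    ⟨[(0, 3), (1, 3)], [(1, 1), (3, 1), (3, 4)], [(1, 4)], [2], [(3, 1, []), (6, 4, [0])]⟩,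
    ⟨[(2, 4)], [(2, 3), (3, 4), (4, 0), (4, 3), (4, 4), (5, 4)], [(3, 4)], [2], [(5, 3,
      [0]), (6, 4, [0])]⟩]
  Ta := [((1, 0), 0, 5), ((1, 4), 0, 6), ((2, 3), 0, 1), ((2, 8), 0, 2), ((3, 2), 1, 0), ((3, 8),
    1, 2), ((7, 0), 1, 5), ((7, 6), 1, 4)]
  Tb := [((0, 1, 7), 5, 0, 1), ((1, 0, 4), 0, 5, 6), ((2, 3, 8), 0, 1, 2), ((3, 2, 8), 1, 0, 2),
    ((4, 1, 5), 6, 0, 3), ((5, 4, 6), 3, 6, 4), ((6, 5, 7), 4, 3, 1), ((6, 5, 8), 4, 3, 2),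
    ((6, 7, 8), 4, 1, 2), ((7, 0, 6), 1, 5, 4), ((8, 2, 3), 2, 0, 1), ((8, 2, 6), 2, 0, 4),
    ((8, 3, 6), 2, 1, 4)]
  Tc := [(0, 3, 4)]
  Td := [((0, 3), (1, 0), 5), ((0, 3), (1, 4), 6), ((0, 3), (2, 3), 1), ((0, 3), (2, 8), 2), ((0,
    4), (1, 0), 5), ((0, 4), (1, 4), 6), ((0, 4), (2, 3), 1), ((0, 4), (2, 8), 2), ((3, 0),
    (5, 4), 6), ((3, 0), (5, 6), 4), ((4, 0), (6, 5), 3), ((4, 0), (6, 7), 1), ((4, 0), (6,
    8), 2)]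
  G := [[0, 0, 0, 0x1154411114d118151441911415cd61881198118d8c2,
    0xa1111219c411811811889d81911a1211211112dec2], [0, 0, 0, 0,
    0x81111898122a11291122219e41211a4112221568112291412811858ce], [0,
    0x11c11cc2218814811c8e18414411c4e1818c1414ccea1, 0x26c88c184c22ca182c24cc1e42,
    0x11485181c415c161188918c2, 0x118891819219a1112831e42], [0, 0,
    0x84c22a12222c1684c82c618a628284e184c426a12222c8e1e46, 0,
    0x9211a11121611818c1222a44188128c1128a8122122cec3]]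

noncomputable def n3117 : Ent := ⟨e3117, noF, [], [], []⟩

def c3117 : PLift (Cov.check n3117.C.D v3117 = true) := ⟨by decide +kernel⟩

def b3117 : PLift (entF (fidx ts) 400 3117 n3117 = true) := ⟨by decide +kernel⟩

theorem g3117 : GoodF (fidx ts) 400 3117 := GoodF.ofV v3117 n3117 c3117.down b3117.down

/-- 4667544:2417/2 -/
noncomputable def e3118 : SCfg where
  D := {
    a := 7
    L := 10
    kp := 7
    inn := [(0, 1), (0, 3), (1, 0), (1, 2), (1, 3), (2, 1), (2, 4), (3, 0), (3, 1), (3, 5), (4, 2), (4,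
      6), (5, 3), (6, 4)]
    mix := [(0, 0), (0, 1), (1, 1), (1, 2), (1, 3), (2, 1), (2, 2), (2, 4), (2, 5), (3, 0), (3, 3), (3,
      6), (3, 7), (4, 2), (4, 5), (4, 8), (5, 3), (5, 6), (5, 9), (6, 5), (6, 6), (6, 8)]
    cl := [5, 0, 0, 1, 6, 3, 4, 1, 2, 7]
    chq := [(2, 3), (2, 6), (3, 2), (6, 2)]
    rng := [(0, 1), (0, 7), (1, 0), (1, 4), (2, 3), (2, 8), (3, 2), (3, 9), (4, 1), (4, 5), (5, 4), (5,
      6), (6, 5), (6, 7), (6, 8), (6, 9), (7, 0), (7, 6), (8, 2), (8, 6), (9, 3), (9, 6)]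
    lev := [] }
  links := [[1, 3, 7, 8], [3, 0, 8, 2, 9, 10], [9, 1, 8, 11, 12, 4], [7, 0, 1, 10, 5, 13, 14], [9, 2, 12,
    6, 15], [13, 3, 10, 16], [15, 4, 12, 13]]
  P := {
    a := 7
    N := 17
    nb := [394, 1805, 6930, 25763, 37444, 74760, 45072, 16649, 2183, 33814, 66090, 4356, 10324,
      118888, 8328, 8784, 9248]
    tri := [(0, 1, 3), (0, 1, 8), (0, 3, 7), (0, 7, 8), (1, 2, 8), (1, 2, 9), (1, 3, 10), (1, 9, 10),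
      (2, 4, 9), (2, 4, 12), (2, 8, 11), (2, 11, 12), (3, 5, 10), (3, 5, 13), (3, 7, 14), (3, 13,
      14), (4, 6, 12), (4, 6, 15), (4, 9, 15), (5, 10, 16), (5, 13, 16), (6, 12, 13), (6, 13, 15)]
    fin := [0, 1, 2, 3, 2, 5, 6, 0, 1, 1, 3, 2, 6, 5, 3, 15, 16]
    chd := [(2, 15), (6, 15)]
    steps := [(0, 7), (1, 8), (1, 9), (2, 4), (2, 11), (3, 10), (3, 14), (5, 13), (6, 12)] }
  rep := [1, 3, 15, 6, 5, 0, 2, 16]

noncomputable def v3118 : Cov.CovD where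
  P := 3
  N := 5
  pl := [0, 6, 9]
  lev := [⟨[], [], [], [5], [(1, 0, [])]⟩,
    ⟨[], [(0, 0), (0, 1)], [(0, 0), (0, 1)], [], [(1, 0, []), (2, 0, []), (3, 1, [])]⟩,
    ⟨[(0, 1)], [(0, 0), (1, 0), (1, 1), (1, 3), (1, 6)], [(0, 0), (0, 3), (0, 6), (3, 6)],
      [], [(1, 0, []), (2, 0, []), (4, 6, [2]), (5, 3, [2])]⟩,
    ⟨[(0, 1), (1, 2)], [(0, 0), (0, 1), (1, 0), (1, 1)], [(1, 1)], [4, 5], [(3, 1, []), (7,
      1, [])]⟩,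
    ⟨[(1, 2)], [(1, 0), (2, 0), (2, 2), (2, 3), (2, 6)], [(0, 2), (0, 3), (2, 3)], [], [(2,
      0, []), (5, 3, [2]), (8, 2, [3, 6])]⟩,
    ⟨[(0, 3), (1, 3)], [(1, 1), (3, 1)], [], [4, 7], [(3, 1, [])]⟩,
    ⟨[(2, 4)], [(2, 3), (4, 0), (4, 2), (4, 3)], [(2, 3)], [4], [(5, 3, [2]), (8, 2, [3,
      6])]⟩]
  Ta := [((1, 0), 0, 5), ((1, 4), 0, 6), ((2, 3), 0, 1), ((2, 8), 0, 2), ((3, 2), 1, 0), ((3, 9),
    1, 7), ((7, 0), 1, 5), ((7, 6), 1, 4)]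
  Tb := [((0, 1, 7), 5, 0, 1), ((1, 0, 4), 0, 5, 6), ((2, 3, 8), 0, 1, 2), ((3, 2, 9), 1, 0, 7),
    ((4, 1, 5), 6, 0, 3), ((5, 4, 6), 3, 6, 4), ((6, 5, 7), 4, 3, 1), ((6, 5, 8), 4, 3, 2),
    ((6, 5, 9), 4, 3, 7), ((6, 7, 8), 4, 1, 2), ((6, 7, 9), 4, 1, 7), ((6, 8, 9), 4, 2, 7),
    ((7, 0, 6), 1, 5, 4), ((8, 2, 6), 2, 0, 4), ((9, 3, 6), 7, 1, 4)]
  Tc := [(2, 3, 6)]
  Td := [((2, 3), (8, 2), 0), ((2, 3), (8, 6), 4), ((2, 6), (8, 2), 0), ((2, 6), (8, 6), 4), ((3,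
    2), (5, 4), 6), ((3, 2), (5, 6), 4), ((6, 2), (4, 1), 0), ((6, 2), (4, 5), 3)]
  G := [[0, 0, 0, 0x891d444dc819d145dc52881d549dc82c2,
    0x885225a891d222da111d222dad48818882898c828ec2], [0, 0, 0, 0x9242c8212c5288252c5212c9246,
    0x1222a89a12aac48886126a12293a9486], [0, 0x4164851e414ec819e145ece2888e18c82c1,
    0x266d889c184cd222da1822d222dc1e42, 0x88c44cc4288c44cc815d149dc92c2,
    0x8424a88c22ca111d222dad44828a88828a8c828ec2], [0, 0,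
    0xc22261c222c12222c1e8c2828b61c24247a1882e4247c1e46, 0x12d2c1248252c9242cc243,
    0x129297a1488222a9222ac483]]

noncomputable def n3118 : Ent := ⟨e3118, noF, [], [], [(15, 16, [1580044410770988437309982408355971841652082177953823432505701879809, 0])]⟩

def c3118 : PLift (Cov.check n3118.C.D v3118 = true) := ⟨by decide +kernel⟩

def b3118 : PLift (entF (fidx ts) 400 3118 n3118 = true) := ⟨by decide +kernel⟩

theorem g3118 : GoodF (fidx ts) 400 3118 := GoodF.ofV v3118 n3118 c3118.down b3118.down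

/-- 4667544:2417/4 -/
noncomputable def e3119 : SCfg where
  D := {
    a := 7
    L := 10
    kp := 7
    inn := [(0, 1), (0, 3), (1, 0), (1, 2), (1, 3), (2, 1), (2, 4), (3, 0), (3, 1), (3, 5), (4, 2), (4,
      6), (5, 3), (6, 4)]
    mix := [(0, 0), (0, 1), (1, 1), (1, 2), (1, 3), (2, 1), (2, 2), (2, 4), (2, 5), (3, 0), (3, 3), (3,
      6), (3, 7), (4, 2), (4, 5), (4, 8), (5, 3), (5, 6), (5, 9), (6, 5), (6, 7), (6, 8)]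
    cl := [2, 0, 0, 1, 6, 3, 5, 1, 4, 7]
    chq := [(0, 3), (3, 0), (3, 4), (4, 3)]
    rng := [(0, 1), (0, 7), (1, 0), (1, 4), (2, 3), (2, 8), (3, 2), (3, 9), (4, 1), (4, 5), (5, 4), (5,
      7), (6, 7), (6, 9), (7, 0), (7, 5), (7, 6), (7, 8), (8, 2), (8, 7), (9, 3), (9, 6)]
    lev := [] }
  links := [[1, 3, 7, 8], [3, 0, 8, 2, 9, 10], [9, 1, 8, 11, 12, 4], [7, 0, 1, 10, 5, 13, 14], [9, 2, 12,
    6, 15], [13, 3, 10, 16], [15, 4, 12, 14]]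
  P := {
    a := 7
    N := 17
    nb := [394, 1805, 6930, 25763, 37444, 74760, 53264, 16649, 2183, 33814, 66090, 4356, 18516, 81960,
      45256, 16976, 9248]
    tri := [(0, 1, 3), (0, 1, 8), (0, 3, 7), (0, 7, 8), (1, 2, 8), (1, 2, 9), (1, 3, 10), (1, 9, 10),
      (2, 4, 9), (2, 4, 12), (2, 8, 11), (2, 11, 12), (3, 5, 10), (3, 5, 13), (3, 7, 14), (3, 13,
      14), (4, 6, 12), (4, 6, 15), (4, 9, 15), (5, 10, 16), (5, 13, 16), (6, 12, 14), (6, 14, 15)]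
    fin := [0, 0, 2, 3, 2, 3, 6, 0, 2, 2, 3, 11, 6, 13, 3, 15, 16]
    chd := [(2, 6), (6, 15)]
    steps := [(0, 1), (0, 7), (2, 4), (2, 8), (2, 9), (3, 5), (3, 14), (3, 10), (6, 12)] }
  rep := [2, 3, 0, 6, 15, 13, 11, 16]

noncomputable def v3119 : Cov.CovD where
  P := 3
  N := 5
  pl := [0, 4, 6, 9]
  lev := [⟨[], [], [], [2], [(1, 0, [3])]⟩,
    ⟨[], [(0, 0), (0, 1)], [(0, 0), (0, 1)], [], [(1, 0, [3]), (2, 0, [3]), (3, 1, [])]⟩,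
    ⟨[(0, 1)], [(0, 0), (1, 0), (1, 1), (1, 3)], [(0, 0), (0, 3)], [6], [(1, 0, [3]), (2,
      0, [3]), (5, 3, [0, 4])]⟩,
    ⟨[(0, 1), (1, 2)], [(0, 0), (0, 1), (1, 0), (1, 1)], [(1, 1)], [2, 5], [(3, 1, []), (7,
      1, [])]⟩,
    ⟨[(1, 2)], [(1, 0), (2, 0), (2, 3), (2, 4)], [(0, 3), (0, 4), (3, 4)], [], [(2, 0,
      [3]), (5, 3, [0, 4]), (8, 4, [3])]⟩,
    ⟨[(0, 3), (1, 3)], [(1, 1), (3, 1)], [], [5, 7], [(3, 1, [])]⟩,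
    ⟨[(2, 4)], [(2, 3), (3, 1), (4, 0), (4, 1), (4, 3), (4, 4)], [(1, 3), (1, 4), (3, 4)],
      [], [(5, 3, [0, 4]), (7, 1, []), (8, 4, [3])]⟩]
  Ta := [((1, 0), 0, 2), ((1, 4), 0, 6), ((2, 3), 0, 1), ((2, 8), 0, 4), ((3, 2), 1, 0), ((3, 9),
    1, 7), ((7, 0), 1, 2), ((7, 5), 1, 3), ((7, 6), 1, 5), ((7, 8), 1, 4)]
  Tb := [((0, 1, 7), 2, 0, 1), ((1, 0, 4), 0, 2, 6), ((2, 3, 8), 0, 1, 4), ((3, 2, 9), 1, 0, 7),
    ((4, 1, 5), 6, 0, 3), ((5, 4, 7), 3, 6, 1), ((6, 7, 9), 5, 1, 7), ((7, 0, 5), 1, 2, 3),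
    ((7, 0, 6), 1, 2, 5), ((7, 0, 8), 1, 2, 4), ((7, 5, 6), 1, 3, 5), ((7, 5, 8), 1, 3, 4),
    ((7, 6, 8), 1, 5, 4), ((8, 2, 7), 4, 0, 1), ((9, 3, 6), 7, 1, 5)]
  Tc := [(3, 0, 4)]
  Td := [((0, 3), (1, 0), 2), ((0, 3), (1, 4), 6), ((0, 3), (2, 3), 1), ((0, 3), (2, 8), 4), ((3,
    0), (5, 4), 6), ((3, 0), (5, 7), 1), ((3, 4), (5, 4), 6), ((3, 4), (5, 7), 1), ((4, 3),
    (8, 2), 0), ((4, 3), (8, 7), 1)]
  G := [[0, 0, 0x115241152422514e119282291811928ec2, 0, 0x11c21152911c21152911c211529e42], [0,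
    0, 0x12c23412c23115c23c1212827115c23ce119c2388c2, 0x1221225122122c1221225e84,
    0x12c23121158279824212e115c239642128271242115e98c2], [0,
    0x1424211a11a11ae122c211a41a12ae116116116ec81a11a21ae186116216ec186446c4ee1, 0, 0,
    0x99c29952955c25552984d5cadd529e42], [0, 0, 0, 0x92292255225225d22d229e84,
    0x821252e8212555e9824212e886425d5e96124299ce124292e98c2]]

noncomputable def n3119 : Ent := ⟨e3119, noF, [], [], []⟩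

def c3119 : PLift (Cov.check n3119.C.D v3119 = true) := ⟨by decide +kernel⟩

def b3119 : PLift (entF (fidx ts) 400 3119 n3119 = true) := ⟨by decide +kernel⟩

theorem g3119 : GoodF (fidx ts) 400 3119 := GoodF.ofV v3119 n3119 c3119.down b3119.down

/-- 4667544:2417/5 -/
noncomputable def e3120 : SCfg where
  D := {
    a := 7
    L := 10
    kp := 7
    inn := [(0, 1), (0, 3), (1, 0), (1, 2), (1, 3), (2, 1), (2, 4), (3, 0), (3, 1), (3, 5), (4, 2), (4,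
      6), (5, 3), (6, 4)]
    mix := [(0, 0), (0, 1), (1, 1), (1, 2), (1, 3), (2, 1), (2, 2), (2, 4), (2, 5), (3, 0), (3, 3), (3,
      6), (3, 7), (4, 2), (4, 5), (4, 8), (5, 3), (5, 6), (5, 8), (6, 5), (6, 8), (6, 9)]
    cl := [4, 0, 0, 1, 6, 3, 5, 1, 2, 7]
    chq := [(2, 3), (2, 6), (3, 2), (6, 2)]
    rng := [(0, 1), (0, 7), (1, 0), (1, 4), (2, 3), (2, 8), (3, 2), (3, 8), (4, 1), (4, 5), (5, 4), (5,
      9), (6, 7), (6, 8), (7, 0), (7, 6), (8, 2), (8, 3), (8, 6), (8, 9), (9, 5), (9, 8)]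
    lev := [] }
  links := [[1, 3, 7, 8], [3, 0, 8, 2, 9, 10], [9, 1, 8, 11, 12, 4], [7, 0, 1, 10, 5, 13, 14], [9, 2, 12,
    6, 15], [13, 3, 10, 15], [15, 4, 12, 16]]
  P := {
    a := 7
    N := 17
    nb := [394, 1805, 6930, 25763, 37444, 41992, 102416, 16649, 2183, 33814, 33322, 4356, 67668,
      49192, 8328, 75376, 36928]
    tri := [(0, 1, 3), (0, 1, 8), (0, 3, 7), (0, 7, 8), (1, 2, 8), (1, 2, 9), (1, 3, 10), (1, 9, 10),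
      (2, 4, 9), (2, 4, 12), (2, 8, 11), (2, 11, 12), (3, 5, 10), (3, 5, 13), (3, 7, 14), (3, 13,
      14), (4, 6, 12), (4, 6, 15), (4, 9, 15), (5, 10, 15), (5, 13, 15), (6, 12, 16), (6, 15, 16)]
    fin := [0, 1, 2, 3, 2, 5, 6, 0, 1, 1, 3, 2, 6, 13, 3, 5, 16]
    chd := [(2, 5), (6, 5)]
    steps := [(0, 7), (1, 8), (1, 9), (2, 4), (2, 11), (3, 10), (3, 14), (5, 15), (6, 12)] }
  rep := [1, 3, 5, 6, 0, 13, 2, 16]

noncomputable def v3120 : Cov.CovD where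
  P := 3
  N := 5
  pl := [0, 6, 9]
  lev := [⟨[], [], [], [4], [(1, 0, [])]⟩,
    ⟨[], [(0, 0), (0, 1)], [(0, 0), (0, 1)], [], [(1, 0, []), (2, 0, []), (3, 1, [])]⟩,
    ⟨[(0, 1)], [(0, 0), (1, 0), (1, 1), (1, 3), (1, 6)], [(0, 0), (0, 3), (0, 6), (3, 6)],
      [], [(1, 0, []), (2, 0, []), (4, 6, [2]), (5, 3, [2])]⟩,
    ⟨[(0, 1), (1, 2)], [(0, 0), (0, 1), (1, 0), (1, 1)], [(1, 1)], [4, 5], [(3, 1, []), (7,
      1, [])]⟩,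
    ⟨[(1, 2)], [(1, 0), (2, 0), (2, 2), (2, 3), (2, 6)], [(0, 2), (0, 3), (2, 3)], [], [(2,
      0, []), (5, 3, [2]), (8, 2, [3, 6])]⟩,
    ⟨[(0, 3), (1, 3)], [(1, 1), (3, 1), (3, 2), (4, 2)], [(1, 2)], [5], [(3, 1, []), (8, 2,
      [3, 6])]⟩,
    ⟨[(2, 4)], [(2, 3), (4, 0), (4, 2), (4, 3), (5, 2)], [(2, 3)], [7], [(5, 3, [2]), (8,
      2, [3, 6])]⟩]
  Ta := [((1, 0), 0, 4), ((1, 4), 0, 6), ((2, 3), 0, 1), ((2, 8), 0, 2), ((3, 2), 1, 0), ((3, 8),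
    1, 2), ((7, 0), 1, 4), ((7, 6), 1, 5)]
  Tb := [((0, 1, 7), 4, 0, 1), ((1, 0, 4), 0, 4, 6), ((2, 3, 8), 0, 1, 2), ((3, 2, 8), 1, 0, 2),
    ((4, 1, 5), 6, 0, 3), ((5, 4, 9), 3, 6, 7), ((6, 7, 8), 5, 1, 2), ((7, 0, 6), 1, 4, 5),
    ((8, 2, 3), 2, 0, 1), ((8, 2, 6), 2, 0, 5), ((8, 2, 9), 2, 0, 7), ((8, 3, 6), 2, 1, 5),
    ((8, 3, 9), 2, 1, 7), ((8, 6, 9), 2, 5, 7), ((9, 5, 8), 7, 3, 2)]
  Tc := [(2, 3, 6)]
  Td := [((2, 3), (8, 2), 0), ((2, 3), (8, 3), 1), ((2, 3), (8, 6), 5), ((2, 3), (8, 9), 7), ((2,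
    6), (8, 2), 0), ((2, 6), (8, 3), 1), ((2, 6), (8, 6), 5), ((2, 6), (8, 9), 7), ((3, 2),
    (5, 4), 6), ((3, 2), (5, 9), 7), ((6, 2), (4, 1), 0), ((6, 2), (4, 5), 3)]
  G := [[0, 0, 0, 0x9454c9151c529858c82c2, 0x9434a999339a9131ad49838a84c2], [0, 0, 0, 0,
    0x9132a92333ac489232a9131a9486], [0, 0x9454c99c55cc629858c82c1,
    0xcccaac61ccc66ca1aac66cc1e42, 0x9858c9858c9151cd242, 0x9434a9838a9131ad49838a84c2], [0,
    0, 0xc2a261c22242e1a262c1e8cccaaa61cc666ca1aa6666c1e46, 0, 0x9131a1489232a9232ac483]]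

noncomputable def n3120 : Ent := ⟨e3120, noF, [], [], [(16, 13, [1580044429602293643470024699863340111275081426260889765897805418497, 0])]⟩

def c3120 : PLift (Cov.check n3120.C.D v3120 = true) := ⟨by decide +kernel⟩

def b3120 : PLift (entF (fidx ts) 400 3120 n3120 = true) := ⟨by decide +kernel⟩

theorem g3120 : GoodF (fidx ts) 400 3120 := GoodF.ofV v3120 n3120 c3120.down b3120.down

/-- 4667544:2417 -/
noncomputable def e3121 : SCfg where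
  D := {
    a := 7
    L := 11
    kp := 8
    inn := [(0, 1), (0, 3), (1, 0), (1, 2), (1, 3), (2, 1), (2, 4), (3, 0), (3, 1), (3, 5), (4, 2), (4,
      6), (5, 3), (6, 4)]
    mix := [(0, 0), (0, 1), (1, 1), (1, 2), (1, 3), (2, 1), (2, 2), (2, 4), (2, 5), (3, 0), (3, 3), (3,
      6), (3, 7), (4, 2), (4, 5), (4, 8), (5, 3), (5, 6), (5, 9), (6, 5), (6, 8), (6, 10)]
    cl := [2, 0, 0, 1, 6, 3, 5, 1, 4, 7, 8]
    chq := [(3, 4), (4, 3), (4, 6), (6, 4)]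
    rng := [(0, 1), (0, 7), (1, 0), (1, 4), (2, 3), (2, 8), (3, 2), (3, 9), (4, 1), (4, 5), (5, 4), (5,
      10), (6, 7), (6, 9), (7, 0), (7, 6), (8, 2), (8, 10), (9, 3), (9, 6), (10, 5), (10, 8)]
    lev := [] }
  links := [[1, 3, 7, 8], [3, 0, 8, 2, 9, 10], [9, 1, 8, 11, 12, 4], [7, 0, 1, 10, 5, 13, 14], [9, 2, 12,
    6, 15], [13, 3, 10, 16], [15, 4, 12, 17]]
  P := {
    a := 7
    N := 18
    nb := [394, 1805, 6930, 25763, 37444, 74760, 167952, 16649, 2183, 33814, 66090, 4356, 133204,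
      81960, 8328, 131664, 9248, 36928]
    tri := [(0, 1, 3), (0, 1, 8), (0, 3, 7), (0, 7, 8), (1, 2, 8), (1, 2, 9), (1, 3, 10), (1, 9, 10),
      (2, 4, 9), (2, 4, 12), (2, 8, 11), (2, 11, 12), (3, 5, 10), (3, 5, 13), (3, 7, 14), (3, 13,
      14), (4, 6, 12), (4, 6, 15), (4, 9, 15), (5, 10, 16), (5, 13, 16), (6, 12, 17), (6, 15, 17)]
    fin := [0, 1, 2, 3, 2, 3, 6, 0, 1, 1, 3, 2, 6, 13, 3, 15, 16, 17]
    chd := [(2, 15), (6, 15)]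
    steps := [(0, 7), (1, 8), (1, 9), (2, 4), (2, 11), (3, 5), (3, 10), (3, 14), (6, 12)] }
  rep := [1, 3, 0, 6, 15, 13, 2, 16, 17]

noncomputable def v3121 : Cov.CovD where
  P := 3
  N := 6
  pl := [0, 6, 9, 10]
  lev := [⟨[], [], [], [2], [(1, 0, [])]⟩,
    ⟨[], [(0, 0), (0, 1)], [(0, 0), (0, 1)], [], [(1, 0, []), (2, 0, []), (3, 1, [])]⟩,
    ⟨[(0, 1)], [(0, 0), (1, 0), (1, 1), (1, 3), (1, 6)], [(0, 0), (0, 3), (0, 6), (3, 6)],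
      [], [(1, 0, []), (2, 0, []), (4, 6, [4]), (5, 3, [4])]⟩,
    ⟨[(0, 1), (1, 2)], [(0, 0), (0, 1), (1, 0), (1, 1)], [(1, 1)], [2, 5], [(3, 1, []), (7,
      1, [])]⟩,
    ⟨[(1, 2)], [(1, 0), (2, 0), (2, 3), (2, 4), (2, 6)], [(0, 3), (0, 4), (3, 4)], [], [(2,
      0, []), (5, 3, [4]), (8, 4, [3, 6])]⟩,
    ⟨[(0, 3), (1, 3)], [(1, 1), (3, 1)], [], [5, 7], [(3, 1, [])]⟩,
    ⟨[(2, 4)], [(2, 3), (4, 0), (4, 3), (4, 4)], [(3, 4)], [8], [(5, 3, [4]), (8, 4, [3,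
      6])]⟩]
  Ta := [((1, 0), 0, 2), ((1, 4), 0, 6), ((2, 3), 0, 1), ((2, 8), 0, 4), ((3, 2), 1, 0), ((3, 9),
    1, 7), ((7, 0), 1, 2), ((7, 6), 1, 5)]
  Tb := [((0, 1, 7), 2, 0, 1), ((1, 0, 4), 0, 2, 6), ((2, 3, 8), 0, 1, 4), ((3, 2, 9), 1, 0, 7),
    ((4, 1, 5), 6, 0, 3), ((5, 4, 10), 3, 6, 8), ((6, 7, 9), 5, 1, 7), ((7, 0, 6), 1, 2, 5),
    ((8, 2, 10), 4, 0, 8), ((9, 3, 6), 7, 1, 5), ((10, 5, 8), 8, 3, 4)]
  Tc := [(4, 3, 6)]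
  Td := [((3, 4), (5, 4), 6), ((3, 4), (5, 10), 8), ((4, 3), (8, 2), 0), ((4, 3), (8, 10), 8),
    ((4, 6), (8, 2), 0), ((4, 6), (8, 10), 8), ((6, 4), (4, 1), 0), ((6, 4), (4, 5), 3)]
  G := [[0, 0, 0x315146474d95735a4b95555c4edd9339671413c999339a8999779c8ec2, 0,
    0x995335a144855c33c84f5553356999c33ca899c77cc995555c9ec2], [0, 0,
    0x92333a995336ac99352c819e555bcc6559339652326c8c2,
    0x9232a9232a545232652326c9252c9252c5ac8,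
    0xb9613624b993333a9415a33a487553736699255cc995555c9ac2], [0,
    0x9252c996556cc255ab3a65563366c99a73aa996336ac9858c8ea1, 0, 0,
    0xddcbbc6dd5bb569ddc77cadd5775a9bbc77ccbb5775c9e42], [0, 0, 0,
    0xd272ad272a5b272cb272c56d2b26d2b2658c8,
    0xd272add5775a99b672c29b7775c96d2b26dd5bb5698c2]]

noncomputable def n3121 : Ent := ⟨e3121, noF, [], [], [(17, 16, [7334685537875745012586738086077695515070955365108989538292687706439681, 0]), (17, 13, [6903326391226443182813612567740724581985591720012749800372886080512001, 0]), (17, 14, [6903326468334360900303599070699561856668565975414084080169086036930561, 0]), (15, 16, [7334685537875745012586738086077695515070955365108989538292687706456065, 0])]⟩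

def c3121 : PLift (Cov.check n3121.C.D v3121 = true) := ⟨by decide +kernel⟩

def b3121 : PLift (entF (fidx ts) 400 3121 n3121 = true) := ⟨by decide +kernel⟩

theorem g3121 : GoodF (fidx ts) 400 3121 := GoodF.ofV v3121 n3121 c3121.down b3121.down

/-- 4667544:2418/2 -/
noncomputable def e3122 : SCfg where
  D := {
    a := 7
    L := 9
    kp := 6
    inn := [(0, 1), (0, 3), (1, 0), (1, 2), (1, 3), (2, 1), (2, 4), (3, 0), (3, 1), (3, 5), (4, 2), (4,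
      6), (5, 3), (6, 4)]
    mix := [(0, 0), (0, 1), (1, 1), (1, 2), (1, 3), (2, 1), (2, 2), (2, 4), (2, 5), (3, 0), (3, 3), (3,
      6), (3, 7), (4, 2), (4, 5), (4, 8), (5, 3), (5, 6), (5, 8), (6, 2), (6, 3), (6, 8)]
    cl := [2, 0, 0, 1, 6, 4, 5, 1, 3]
    chq := [(0, 3), (3, 0), (3, 6), (6, 3)]
    rng := [(0, 1), (0, 7), (1, 0), (1, 4), (2, 3), (3, 2), (3, 8), (4, 1), (4, 5), (5, 4), (5, 8), (6,
      7), (6, 8), (7, 0), (7, 6), (8, 3), (8, 5), (8, 6)]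
    lev := [] }
  links := [[1, 3, 7, 8], [3, 0, 8, 2, 9, 10], [9, 1, 8, 11, 12, 4], [7, 0, 1, 10, 5, 13, 14], [9, 2, 12,
    15, 6], [13, 3, 10, 15], [9, 4, 15, 10]]
  P := {
    a := 7
    N := 16
    nb := [394, 1805, 6930, 25763, 37444, 41992, 34320, 16649, 2183, 1110, 33386, 4356, 34836, 49192,
      8328, 13424]
    tri := [(0, 1, 3), (0, 1, 8), (0, 3, 7), (0, 7, 8), (1, 2, 8), (1, 2, 9), (1, 3, 10), (1, 9, 10),
      (2, 4, 9), (2, 4, 12), (2, 8, 11), (2, 11, 12), (3, 5, 10), (3, 5, 13), (3, 7, 14), (3, 13,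
      14), (4, 6, 9), (4, 6, 15), (4, 12, 15), (5, 10, 15), (5, 13, 15), (6, 9, 10), (6, 10, 15)]
    fin := [0, 1, 2, 3, 2, 5, 1, 0, 1, 1, 3, 2, 12, 13, 3, 5]
    chd := [(1, 5), (2, 5)]
    steps := [(0, 7), (1, 8), (1, 9), (1, 6), (2, 4), (2, 11), (3, 10), (3, 14), (5, 15)] }
  rep := [1, 3, 0, 5, 12, 13, 2]

noncomputable def v3122 : Cov.CovD where
  P := 3
  N := 4
  pl := [0, 5, 6]
  lev := [⟨[], [], [], [2], [(1, 0, [3])]⟩,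
    ⟨[], [(0, 0), (0, 1)], [(0, 0), (0, 1)], [], [(1, 0, [3]), (2, 0, [3]), (3, 1, [])]⟩,
    ⟨[(0, 1)], [(0, 0), (1, 0), (1, 1), (1, 6)], [(0, 0), (0, 6)], [4], [(1, 0, [3]), (2,
      0, [3]), (4, 6, [3])]⟩,
    ⟨[(0, 1), (1, 2)], [(0, 0), (0, 1), (1, 0), (1, 1)], [(1, 1)], [2, 5], [(3, 1, []), (7,
      1, [])]⟩,
    ⟨[(1, 2)], [(1, 0), (2, 0), (2, 3), (2, 6)], [(0, 3)], [4], [(2, 0, [3]), (8, 3, [0,
      6])]⟩,
    ⟨[(0, 3), (1, 3)], [(1, 1), (3, 1), (3, 3), (4, 3)], [(1, 3)], [5], [(3, 1, []), (8, 3,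
      [0, 6])]⟩,
    ⟨[(2, 4)], [(1, 0), (1, 1), (2, 0), (3, 1), (4, 0), (4, 1), (4, 3), (5, 1), (5, 3)],
      [(0, 1), (0, 3), (1, 3)], [], [(2, 0, [3]), (3, 1, []), (8, 3, [0, 6])]⟩]
  Ta := [((1, 0), 0, 2), ((1, 4), 0, 6), ((2, 3), 0, 1), ((3, 2), 1, 0), ((3, 8), 1, 3), ((7, 0),
    1, 2), ((7, 6), 1, 5)]
  Tb := [((0, 1, 7), 2, 0, 1), ((1, 0, 4), 0, 2, 6), ((3, 2, 8), 1, 0, 3), ((4, 1, 5), 6, 0, 4),
    ((5, 4, 8), 4, 6, 3), ((6, 7, 8), 5, 1, 3), ((7, 0, 6), 1, 2, 5), ((8, 3, 5), 3, 1, 4),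
    ((8, 3, 6), 3, 1, 5), ((8, 5, 6), 3, 4, 5)]
  Tc := [(3, 0, 6)]
  Td := [((0, 3), (1, 0), 2), ((0, 3), (1, 4), 6), ((0, 3), (2, 3), 1), ((3, 0), (8, 3), 1), ((3,
    0), (8, 5), 4), ((3, 0), (8, 6), 5), ((3, 6), (8, 3), 1), ((3, 6), (8, 5), 4), ((3, 6),
    (8, 6), 5), ((6, 3), (4, 1), 0), ((6, 3), (4, 5), 4)]
  G := [[0, 0, 0x11815148895c4444618445941116c881141b118cac2, 0,
    0x5844944c1998884ca4481581b9441488e485815c9e42], [0, 0, 0x211441112611423cc218112122cec8,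
    0xc214282217512282182815d1228229e84, 0x28449442199448238864221b984c241329e42], [0,
    0x888842e82484a22644242e6c8882aa82a482ec42644c4e25, 0, 0,
    0x8184c1e14844d84c6444c5698884ca88884cc8181445e9ec2], [0, 0, 0,
    0x88c2a82c2a5c22422564242641c26c8c8, 0x483212282442ec2843692884ca82c2a984c28ec2]]

noncomputable def n3122 : Ent := ⟨e3122, noF, [], [], []⟩

def c3122 : PLift (Cov.check n3122.C.D v3122 = true) := ⟨by decide +kernel⟩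

def b3122 : PLift (entF (fidx ts) 400 3122 n3122 = true) := ⟨by decide +kernel⟩

theorem g3122 : GoodF (fidx ts) 400 3122 := GoodF.ofV v3122 n3122 c3122.down b3122.down

/-- 4667544:2418/1 -/
noncomputable def e3123 : SCfg where
  D := {
    a := 7
    L := 10
    kp := 7
    inn := [(0, 1), (0, 3), (1, 0), (1, 2), (1, 3), (2, 1), (2, 4), (3, 0), (3, 1), (3, 5), (4, 2), (4,
      6), (5, 3), (6, 4)]
    mix := [(0, 0), (0, 1), (1, 1), (1, 2), (1, 3), (2, 1), (2, 2), (2, 4), (2, 5), (3, 0), (3, 3), (3,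
      6), (3, 7), (4, 2), (4, 5), (4, 8), (5, 3), (5, 6), (5, 8), (6, 2), (6, 8), (6, 9)]
    cl := [2, 0, 0, 1, 7, 4, 5, 1, 3, 6]
    chq := [(0, 4), (4, 0), (4, 6), (6, 4)]
    rng := [(0, 1), (0, 7), (1, 0), (1, 4), (2, 3), (2, 9), (3, 2), (3, 8), (4, 1), (4, 5), (5, 4), (5,
      8), (6, 7), (6, 8), (7, 0), (7, 6), (8, 3), (8, 5), (8, 6), (8, 9), (9, 2), (9, 8)]
    lev := [] }
  links := [[1, 3, 7, 8], [3, 0, 8, 2, 9, 10], [9, 1, 8, 11, 12, 4], [7, 0, 1, 10, 5, 13, 14], [9, 2, 12,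
    15, 6], [13, 3, 10, 15], [9, 4, 15, 16]]
  P := {
    a := 7
    N := 17
    nb := [394, 1805, 6930, 25763, 37444, 41992, 98832, 16649, 2183, 66646, 33322, 4356, 34836, 49192,
      8328, 78960, 33344]
    tri := [(0, 1, 3), (0, 1, 8), (0, 3, 7), (0, 7, 8), (1, 2, 8), (1, 2, 9), (1, 3, 10), (1, 9, 10),
      (2, 4, 9), (2, 4, 12), (2, 8, 11), (2, 11, 12), (3, 5, 10), (3, 5, 13), (3, 7, 14), (3, 13,
      14), (4, 6, 9), (4, 6, 15), (4, 12, 15), (5, 10, 15), (5, 13, 15), (6, 9, 16), (6, 15, 16)]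
    fin := [0, 0, 2, 3, 4, 5, 4, 0, 2, 2, 3, 11, 4, 13, 3, 5, 16]
    chd := [(2, 4), (4, 16)]
    steps := [(0, 1), (0, 7), (2, 8), (2, 9), (3, 10), (3, 14), (4, 6), (4, 12), (5, 15)] }
  rep := [2, 3, 0, 5, 4, 13, 16, 11]

noncomputable def v3123 : Cov.CovD where
  P := 3
  N := 5
  pl := [0, 4, 6, 8]
  lev := [⟨[], [], [], [2], [(1, 0, [4])]⟩,
    ⟨[], [(0, 0), (0, 1)], [(0, 0), (0, 1)], [], [(1, 0, [4]), (2, 0, [4]), (3, 1, [])]⟩,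
    ⟨[(0, 1)], [(0, 0), (1, 0), (1, 1), (1, 4)], [(0, 0), (0, 4)], [7], [(1, 0, [4]), (2,
      0, [4]), (5, 4, [0, 6])]⟩,
    ⟨[(0, 1), (1, 2)], [(0, 0), (0, 1), (1, 0), (1, 1)], [(1, 1)], [2, 5], [(3, 1, []), (7,
      1, [])]⟩,
    ⟨[(1, 2)], [(1, 0), (2, 0), (2, 4)], [(0, 4)], [3], [(2, 0, [4]), (5, 4, [0, 6])]⟩,
    ⟨[(0, 3), (1, 3)], [(1, 1), (3, 1)], [], [3, 5], [(3, 1, [])]⟩,
    ⟨[(2, 4)], [(1, 0), (2, 0), (4, 0), (4, 4), (4, 6)], [(0, 6)], [3], [(2, 0, [4]), (9,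
      6, [4])]⟩]
  Ta := [((1, 0), 0, 2), ((1, 4), 0, 7), ((2, 3), 0, 1), ((2, 9), 0, 6), ((3, 2), 1, 0), ((3, 8),
    1, 3), ((7, 0), 1, 2), ((7, 6), 1, 5)]
  Tb := [((0, 1, 7), 2, 0, 1), ((1, 0, 4), 0, 2, 7), ((2, 3, 9), 0, 1, 6), ((3, 2, 8), 1, 0, 3),
    ((4, 1, 5), 7, 0, 4), ((5, 4, 8), 4, 7, 3), ((6, 7, 8), 5, 1, 3), ((7, 0, 6), 1, 2, 5),
    ((8, 3, 5), 3, 1, 4), ((8, 3, 6), 3, 1, 5), ((8, 3, 9), 3, 1, 6), ((8, 5, 6), 3, 4, 5),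
    ((8, 5, 9), 3, 4, 6), ((8, 6, 9), 3, 5, 6), ((9, 2, 8), 6, 0, 3)]
  Tc := [(4, 0, 6)]
  Td := [((0, 4), (1, 0), 2), ((0, 4), (1, 4), 7), ((0, 4), (2, 3), 1), ((0, 4), (2, 9), 6), ((4,
    0), (5, 4), 7), ((4, 0), (5, 8), 3), ((4, 6), (5, 4), 7), ((4, 6), (5, 8), 3), ((6, 4),
    (9, 2), 0), ((6, 4), (9, 8), 3)]
  G := [[0, 0, 0xb4a1544414c15e468244464878619118c2888e1b8d8e138eca, 0,
    0x144a4494781444e6151141d92888ae1193881c84ce448411e9ec2], [0, 0,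
    0x2282e1b12a412ec4962467861922c222bcc1928ac2, 0x2292227113288e5d22d225622426728621d8c8,
    0x2292227a4112179d22c15296282252e641121b98c2], [0,
    0xc22426a4848eec26882a42e426a4848eec6882a84ae426a4486ec6882ac8ea1, 0, 0,
    0xa44212a54c5e942584485e16682484ce62521c1e92884ca868822d844de8ec2], [0, 0, 0,
    0x2222c2e222282ec22c2622c2ac62222c2e2124c2e98c4,
    0x2222486e21a4c1e922c262124485e962824c2e2222485e92888ac2]]

noncomputable def n3123 : Ent := ⟨e3123, noF, [], [], [(16, 10, [1580044410770988437858045522355060435978463990222429564876676603905, 0])]⟩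

def c3123 : PLift (Cov.check n3123.C.D v3123 = true) := ⟨by decide +kernel⟩

def b3123 : PLift (entF (fidx ts) 400 3123 n3123 = true) := ⟨by decide +kernel⟩

theorem g3123 : GoodF (fidx ts) 400 3123 := GoodF.ofV v3123 n3123 c3123.down b3123.down

/-- 4667544:2418/4 -/
noncomputable def e3124 : SCfg where
  D := {
    a := 7
    L := 9
    kp := 6
    inn := [(0, 1), (0, 3), (1, 0), (1, 2), (1, 3), (2, 1), (2, 4), (3, 0), (3, 1), (3, 5), (4, 2), (4,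
      6), (5, 3), (6, 4)]
    mix := [(0, 0), (0, 1), (1, 1), (1, 2), (1, 3), (2, 1), (2, 2), (2, 4), (2, 5), (3, 0), (3, 3), (3,
      6), (3, 7), (4, 2), (4, 5), (4, 6), (5, 3), (5, 6), (5, 8), (6, 2), (6, 6), (6, 8)]
    cl := [5, 0, 0, 2, 6, 3, 1, 2, 4]
    chq := [(0, 3), (3, 0), (3, 4), (4, 3)]
    rng := [(0, 1), (0, 7), (1, 0), (1, 4), (2, 3), (2, 8), (3, 2), (3, 8), (4, 1), (4, 5), (5, 4), (5,
      6), (6, 5), (6, 7), (6, 8), (7, 0), (7, 6), (8, 2), (8, 3), (8, 6)]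
    lev := [] }
  links := [[1, 3, 7, 8], [3, 0, 8, 2, 9, 10], [9, 1, 8, 11, 12, 4], [7, 0, 1, 10, 5, 13, 14], [9, 2, 12,
    13, 6], [13, 3, 10, 15], [9, 4, 13, 15]]
  P := {
    a := 7
    N := 16
    nb := [394, 1805, 6930, 25763, 12868, 41992, 41488, 16649, 2183, 33878, 33322, 4356, 10260, 53368,
      8328, 9824]
    tri := [(0, 1, 3), (0, 1, 8), (0, 3, 7), (0, 7, 8), (1, 2, 8), (1, 2, 9), (1, 3, 10), (1, 9, 10),
      (2, 4, 9), (2, 4, 12), (2, 8, 11), (2, 11, 12), (3, 5, 10), (3, 5, 13), (3, 7, 14), (3, 13,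
      14), (4, 6, 9), (4, 6, 13), (4, 12, 13), (5, 10, 15), (5, 13, 15), (6, 9, 15), (6, 13, 15)]
    fin := [0, 0, 2, 3, 4, 5, 4, 0, 2, 2, 3, 11, 4, 5, 3, 15]
    chd := [(2, 4), (4, 15)]
    steps := [(0, 1), (0, 7), (2, 8), (2, 9), (3, 10), (3, 14), (4, 6), (4, 12), (5, 13)] }
  rep := [2, 5, 3, 4, 15, 0, 11]

noncomputable def v3124 : Cov.CovD where
  P := 3
  N := 4
  pl := [0, 4, 6]
  lev := [⟨[], [], [], [5], [(1, 0, [3])]⟩,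
    ⟨[], [(0, 0), (0, 2)], [(0, 0), (0, 2)], [], [(1, 0, [3]), (2, 0, [3]), (3, 2, [])]⟩,
    ⟨[(0, 1)], [(0, 0), (1, 0), (1, 2), (1, 3)], [(0, 0), (0, 3)], [6], [(1, 0, [3]), (2,
      0, [3]), (5, 3, [0, 4])]⟩,
    ⟨[(0, 1), (1, 2)], [(0, 0), (0, 2), (1, 0), (1, 2)], [(2, 2)], [1, 5], [(3, 2, []), (7,
      2, [])]⟩,
    ⟨[(1, 2)], [(1, 0), (2, 0), (2, 3)], [(0, 3)], [1], [(2, 0, [3]), (5, 3, [0, 4])]⟩,
    ⟨[(0, 3), (1, 3)], [(1, 2), (3, 2), (3, 4)], [(2, 4)], [1], [(3, 2, []), (8, 4, [3])]⟩,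
    ⟨[(2, 4)], [(1, 0), (2, 0), (4, 0), (4, 3), (4, 4), (5, 4)], [(0, 4)], [1], [(2, 0,
      [3]), (8, 4, [3])]⟩]
  Ta := [((1, 0), 0, 5), ((1, 4), 0, 6), ((2, 3), 0, 2), ((2, 8), 0, 4), ((3, 2), 2, 0), ((3, 8),
    2, 4), ((7, 0), 2, 5), ((7, 6), 2, 1)]
  Tb := [((0, 1, 7), 5, 0, 2), ((1, 0, 4), 0, 5, 6), ((2, 3, 8), 0, 2, 4), ((3, 2, 8), 2, 0, 4),
    ((4, 1, 5), 6, 0, 3), ((5, 4, 6), 3, 6, 1), ((6, 5, 7), 1, 3, 2), ((6, 5, 8), 1, 3, 4),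
    ((6, 7, 8), 1, 2, 4), ((7, 0, 6), 2, 5, 1), ((8, 2, 3), 4, 0, 2), ((8, 2, 6), 4, 0, 1),
    ((8, 3, 6), 4, 2, 1)]
  Tc := [(3, 0, 4)]
  Td := [((0, 3), (1, 0), 5), ((0, 3), (1, 4), 6), ((0, 3), (2, 3), 2), ((0, 3), (2, 8), 4), ((3,
    0), (5, 4), 6), ((3, 0), (5, 6), 1), ((3, 4), (5, 4), 6), ((3, 4), (5, 6), 1), ((4, 3),
    (8, 2), 0), ((4, 3), (8, 3), 2), ((4, 3), (8, 6), 1)]
  G := [[0, 0x2444642ac442484e4428c284c82c88a884c2882cec2, 0, 0, 0xc1111891141149c11c119e24],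
    [0, 0x22882222c8a42244c224682248422848ce, 0, 0x811114944114485c111118c5ac2,
    0x148811484118e24411244811441caa], [0, 0x82c446482c444424e4428c884c88a884c2882cec1,
    0x4488c4488cc4488c4488cc4488c4488cce21, 0, 0x44981c14188c144988c1e24], [0,
    0x2282c224cc22c22c6228228c8c1, 0, 0x884144481c14488c1ac2,
    0x44884484c14448c1e24484c1244814484c1caa]]

noncomputable def n3124 : Ent := ⟨e3124, noF, [], [], []⟩

def c3124 : PLift (Cov.check n3124.C.D v3124 = true) := ⟨by decide +kernel⟩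

def b3124 : PLift (entF (fidx ts) 400 3124 n3124 = true) := ⟨by decide +kernel⟩

theorem g3124 : GoodF (fidx ts) 400 3124 := GoodF.ofV v3124 n3124 c3124.down b3124.down

/-- 4667544:2418/3 -/
noncomputable def e3125 : SCfg where
  D := {
    a := 7
    L := 10
    kp := 7
    inn := [(0, 1), (0, 3), (1, 0), (1, 2), (1, 3), (2, 1), (2, 4), (3, 0), (3, 1), (3, 5), (4, 2), (4,
      6), (5, 3), (6, 4)]
    mix := [(0, 0), (0, 1), (1, 1), (1, 2), (1, 3), (2, 1), (2, 2), (2, 4), (2, 5), (3, 0), (3, 3), (3,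
      6), (3, 7), (4, 2), (4, 5), (4, 6), (5, 3), (5, 6), (5, 8), (6, 2), (6, 6), (6, 9)]
    cl := [2, 0, 0, 1, 6, 4, 3, 1, 7, 5]
    chq := [(0, 4), (4, 0), (4, 5), (5, 4)]
    rng := [(0, 1), (0, 7), (1, 0), (1, 4), (2, 3), (2, 9), (3, 2), (3, 8), (4, 1), (4, 5), (5, 4), (5,
      6), (6, 5), (6, 7), (6, 8), (6, 9), (7, 0), (7, 6), (8, 3), (8, 6), (9, 2), (9, 6)]
    lev := [] }
  links := [[1, 3, 7, 8], [3, 0, 8, 2, 9, 10], [9, 1, 8, 11, 12, 4], [7, 0, 1, 10, 5, 13, 14], [9, 2, 12,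
    13, 6], [13, 3, 10, 15], [9, 4, 13, 16]]
  P := {
    a := 7
    N := 17
    nb := [394, 1805, 6930, 25763, 12868, 41992, 74256, 16649, 2183, 66646, 33322, 4356, 10260,
      118904, 8328, 9248, 8768]
    tri := [(0, 1, 3), (0, 1, 8), (0, 3, 7), (0, 7, 8), (1, 2, 8), (1, 2, 9), (1, 3, 10), (1, 9, 10),
      (2, 4, 9), (2, 4, 12), (2, 8, 11), (2, 11, 12), (3, 5, 10), (3, 5, 13), (3, 7, 14), (3, 13,
      14), (4, 6, 9), (4, 6, 13), (4, 12, 13), (5, 10, 15), (5, 13, 15), (6, 9, 16), (6, 13, 16)]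
    fin := [0, 0, 2, 3, 4, 5, 4, 0, 2, 2, 3, 11, 4, 5, 3, 15, 16]
    chd := [(2, 4), (4, 16)]
    steps := [(0, 1), (0, 7), (2, 8), (2, 9), (3, 10), (3, 14), (4, 6), (4, 12), (5, 13)] }
  rep := [2, 3, 0, 5, 4, 16, 11, 15]

noncomputable def v3125 : Cov.CovD where
  P := 3
  N := 5
  pl := [0, 4, 6, 8]
  lev := [⟨[], [], [], [2], [(1, 0, [4])]⟩,
    ⟨[], [(0, 0), (0, 1)], [(0, 0), (0, 1)], [], [(1, 0, [4]), (2, 0, [4]), (3, 1, [])]⟩,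
    ⟨[(0, 1)], [(0, 0), (1, 0), (1, 1), (1, 4)], [(0, 0), (0, 4)], [6], [(1, 0, [4]), (2,
      0, [4]), (5, 4, [0, 5])]⟩,
    ⟨[(0, 1), (1, 2)], [(0, 0), (0, 1), (1, 0), (1, 1)], [(1, 1)], [2, 3], [(3, 1, []), (7,
      1, [])]⟩,
    ⟨[(1, 2)], [(1, 0), (2, 0), (2, 4)], [(0, 4)], [3], [(2, 0, [4]), (5, 4, [0, 5])]⟩,
    ⟨[(0, 3), (1, 3)], [(1, 1), (3, 1)], [], [3, 7], [(3, 1, [])]⟩,
    ⟨[(2, 4)], [(1, 0), (2, 0), (4, 0), (4, 4), (4, 5)], [(0, 5)], [3], [(2, 0, [4]), (9,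
      5, [4])]⟩]
  Ta := [((1, 0), 0, 2), ((1, 4), 0, 6), ((2, 3), 0, 1), ((2, 9), 0, 5), ((3, 2), 1, 0), ((3, 8),
    1, 7), ((7, 0), 1, 2), ((7, 6), 1, 3)]
  Tb := [((0, 1, 7), 2, 0, 1), ((1, 0, 4), 0, 2, 6), ((2, 3, 9), 0, 1, 5), ((3, 2, 8), 1, 0, 7),
    ((4, 1, 5), 6, 0, 4), ((5, 4, 6), 4, 6, 3), ((6, 5, 7), 3, 4, 1), ((6, 5, 8), 3, 4, 7),
    ((6, 5, 9), 3, 4, 5), ((6, 7, 8), 3, 1, 7), ((6, 7, 9), 3, 1, 5), ((6, 8, 9), 3, 7, 5),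
    ((7, 0, 6), 1, 2, 3), ((8, 3, 6), 7, 1, 3), ((9, 2, 6), 5, 0, 3)]
  Tc := [(4, 0, 5)]
  Td := [((0, 4), (1, 0), 2), ((0, 4), (1, 4), 6), ((0, 4), (2, 3), 1), ((0, 4), (2, 9), 5), ((4,
    0), (5, 4), 6), ((4, 0), (5, 6), 3), ((4, 5), (5, 4), 6), ((4, 5), (5, 6), 3), ((5, 4),
    (9, 2), 0), ((5, 4), (9, 6), 3)]
  G := [[0, 0, 0x2446554b15448d1d24e741d882888a1b851928ec2, 0,
    0x76c814115217922c88ca6e519dcc211529e42], [0, 0, 0x2242642282a111b4cd2212cc93ce119888c4,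
    0x22426a2152282a1249c221225e84, 0xe43112282a11549c2214124c979e16a888c2], [0,
    0x44242642e8888ae422c2642e88c88ae2264466c642e88aa8a2e4466ca2644ee1, 0, 0,
    0x225414262d88a2254c56922c88ca214c5a92298cca2254c569ec2], [0, 0, 0,
    0x2282a22426c42282a22426c2282a22426cac1, 0x228887c22c269c22424b8a2d42e96442e822c2698c2]]

noncomputable def n3125 : Ent := ⟨e3125, noF, [], [], [(16, 15, [1685356702439545624007900436039642273970977273354372543760012886017, 0])]⟩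

def c3125 : PLift (Cov.check n3125.C.D v3125 = true) := ⟨by decide +kernel⟩

def b3125 : PLift (entF (fidx ts) 400 3125 n3125 = true) := ⟨by decide +kernel⟩

theorem g3125 : GoodF (fidx ts) 400 3125 := GoodF.ofV v3125 n3125 c3125.down b3125.down

/-- 4667544:2418/5 -/
noncomputable def e3126 : SCfg where
  D := {
    a := 7
    L := 10
    kp := 7
    inn := [(0, 1), (0, 3), (1, 0), (1, 2), (1, 3), (2, 1), (2, 4), (3, 0), (3, 1), (3, 5), (4, 2), (4,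
      6), (5, 3), (6, 4)]
    mix := [(0, 0), (0, 1), (1, 1), (1, 2), (1, 3), (2, 1), (2, 2), (2, 4), (2, 5), (3, 0), (3, 3), (3,
      6), (3, 7), (4, 2), (4, 5), (4, 7), (5, 3), (5, 6), (5, 8), (6, 2), (6, 7), (6, 9)]
    cl := [2, 0, 0, 1, 6, 3, 4, 1, 7, 5]
    chq := [(0, 3), (3, 0), (3, 5), (5, 3)]
    rng := [(0, 1), (0, 7), (1, 0), (1, 4), (2, 3), (2, 9), (3, 2), (3, 8), (4, 1), (4, 5), (5, 4), (5,
      7), (6, 7), (6, 8), (7, 0), (7, 5), (7, 6), (7, 9), (8, 3), (8, 6), (9, 2), (9, 7)]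
    lev := [] }
  links := [[1, 3, 7, 8], [3, 0, 8, 2, 9, 10], [9, 1, 8, 11, 12, 4], [7, 0, 1, 10, 5, 13, 14], [9, 2, 12,
    14, 6], [13, 3, 10, 15], [9, 4, 14, 16]]
  P := {
    a := 7
    N := 17
    nb := [394, 1805, 6930, 25763, 21060, 41992, 82448, 16649, 2183, 66646, 33322, 4356, 18452, 49192,
      78040, 9248, 16960]
    tri := [(0, 1, 3), (0, 1, 8), (0, 3, 7), (0, 7, 8), (1, 2, 8), (1, 2, 9), (1, 3, 10), (1, 9, 10),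
      (2, 4, 9), (2, 4, 12), (2, 8, 11), (2, 11, 12), (3, 5, 10), (3, 5, 13), (3, 7, 14), (3, 13,
      14), (4, 6, 9), (4, 6, 14), (4, 12, 14), (5, 10, 15), (5, 13, 15), (6, 9, 16), (6, 14, 16)]
    fin := [0, 0, 2, 3, 4, 3, 4, 0, 2, 2, 3, 11, 4, 13, 3, 15, 16]
    chd := [(2, 4), (4, 16)]
    steps := [(0, 1), (0, 7), (2, 8), (2, 9), (3, 5), (3, 14), (3, 10), (4, 6), (4, 12)] }
  rep := [2, 3, 0, 4, 13, 16, 11, 15]

noncomputable def v3126 : Cov.CovD where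
  P := 3
  N := 5
  pl := [0, 4, 6, 8]
  lev := [⟨[], [], [], [2], [(1, 0, [3])]⟩,
    ⟨[], [(0, 0), (0, 1)], [(0, 0), (0, 1)], [], [(1, 0, [3]), (2, 0, [3]), (3, 1, [])]⟩,
    ⟨[(0, 1)], [(0, 0), (1, 0), (1, 1), (1, 3)], [(0, 0), (0, 3)], [6], [(1, 0, [3]), (2,
      0, [3]), (5, 3, [0, 5])]⟩,
    ⟨[(0, 1), (1, 2)], [(0, 0), (0, 1), (1, 0), (1, 1)], [(1, 1)], [2, 4], [(3, 1, []), (7,
      1, [])]⟩,
    ⟨[(1, 2)], [(1, 0), (2, 0), (2, 1), (2, 3), (3, 1)], [(0, 1), (0, 3), (1, 3)], [], [(2,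
      0, [3]), (5, 3, [0, 5]), (7, 1, [])]⟩,
    ⟨[(0, 3), (1, 3)], [(1, 1), (3, 1)], [], [4, 7], [(3, 1, [])]⟩,
    ⟨[(2, 4)], [(1, 0), (2, 0), (3, 1), (4, 0), (4, 1), (4, 3), (4, 5)], [(0, 1), (0, 5),
      (1, 5)], [], [(2, 0, [3]), (7, 1, []), (9, 5, [3])]⟩]
  Ta := [((1, 0), 0, 2), ((1, 4), 0, 6), ((2, 3), 0, 1), ((2, 9), 0, 5), ((3, 2), 1, 0), ((3, 8),
    1, 7), ((7, 0), 1, 2), ((7, 5), 1, 3), ((7, 6), 1, 4), ((7, 9), 1, 5)]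
  Tb := [((0, 1, 7), 2, 0, 1), ((1, 0, 4), 0, 2, 6), ((2, 3, 9), 0, 1, 5), ((3, 2, 8), 1, 0, 7),
    ((4, 1, 5), 6, 0, 3), ((5, 4, 7), 3, 6, 1), ((6, 7, 8), 4, 1, 7), ((7, 0, 5), 1, 2, 3),
    ((7, 0, 6), 1, 2, 4), ((7, 0, 9), 1, 2, 5), ((7, 5, 6), 1, 3, 4), ((7, 5, 9), 1, 3, 5),
    ((7, 6, 9), 1, 4, 5), ((8, 3, 6), 7, 1, 4), ((9, 2, 7), 5, 0, 1)]
  Tc := [(3, 0, 5)]
  Td := [((0, 3), (1, 0), 2), ((0, 3), (1, 4), 6), ((0, 3), (2, 3), 1), ((0, 3), (2, 9), 5), ((3,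
    0), (5, 4), 6), ((3, 0), (5, 7), 1), ((3, 5), (5, 4), 6), ((3, 5), (5, 7), 1), ((5, 3),
    (9, 2), 0), ((5, 3), (9, 7), 1)]
  G := [[0, 0, 0x445148128851c22514e41928882822918ec2, 0,
    0x11c21152918c21852911c12cc225115c9e42], [0, 0, 0x18348c61c411c89128ccc91c21cac2,
    0x8218245124251282c56128128c8c8, 0x124111e49c21144c5596128115898c2], [0,
    0xaa644cc6246666848a66a88cca28aaaa4846c, 0, 0, 0x2844a4452988c28852922c28cc425225c9e42],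
    [0, 0, 0, 0x824824c4428428c4282c4282ccac1, 0x4282c42885c942886c445883c964282c44582c98c2]]

noncomputable def n3126 : Ent := ⟨e3126, noF, [], [], []⟩

def c3126 : PLift (Cov.check n3126.C.D v3126 = true) := ⟨by decide +kernel⟩

def b3126 : PLift (entF (fidx ts) 400 3126 n3126 = true) := ⟨by decide +kernel⟩

theorem g3126 : GoodF (fidx ts) 400 3126 := GoodF.ofV v3126 n3126 c3126.down b3126.down

/-- 4667544:2418/6 -/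
noncomputable def e3127 : SCfg where
  D := {
    a := 7
    L := 10
    kp := 7
    inn := [(0, 1), (0, 3), (1, 0), (1, 2), (1, 3), (2, 1), (2, 4), (3, 0), (3, 1), (3, 5), (4, 2), (4,
      6), (5, 3), (6, 4)]
    mix := [(0, 0), (0, 1), (1, 1), (1, 2), (1, 3), (2, 1), (2, 2), (2, 4), (2, 5), (3, 0), (3, 3), (3,
      6), (3, 7), (4, 2), (4, 5), (4, 8), (5, 3), (5, 6), (5, 9), (6, 2), (6, 3), (6, 8)]
    cl := [2, 0, 0, 1, 6, 4, 5, 1, 3, 7]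
    chq := [(0, 3), (3, 0), (3, 6), (6, 3)]
    rng := [(0, 1), (0, 7), (1, 0), (1, 4), (2, 3), (3, 2), (3, 8), (3, 9), (4, 1), (4, 5), (5, 4), (5,
      8), (6, 7), (6, 9), (7, 0), (7, 6), (8, 3), (8, 5), (9, 3), (9, 6)]
    lev := [] }
  links := [[1, 3, 7, 8], [3, 0, 8, 2, 9, 10], [9, 1, 8, 11, 12, 4], [7, 0, 1, 10, 5, 13, 14], [9, 2, 12,
    15, 6], [13, 3, 10, 16], [9, 4, 15, 10]]
  P := {
    a := 7
    N := 17
    nb := [394, 1805, 6930, 25763, 37444, 74760, 34320, 16649, 2183, 1110, 98922, 4356, 34836, 81960,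
      8328, 5200, 9248]
    tri := [(0, 1, 3), (0, 1, 8), (0, 3, 7), (0, 7, 8), (1, 2, 8), (1, 2, 9), (1, 3, 10), (1, 9, 10),
      (2, 4, 9), (2, 4, 12), (2, 8, 11), (2, 11, 12), (3, 5, 10), (3, 5, 13), (3, 7, 14), (3, 13,
      14), (4, 6, 9), (4, 6, 15), (4, 12, 15), (5, 10, 16), (5, 13, 16), (6, 9, 10), (6, 10, 15)]
    fin := [0, 1, 2, 3, 2, 3, 1, 0, 1, 1, 3, 2, 12, 13, 3, 15, 16]
    chd := [(1, 15), (2, 15)]
    steps := [(0, 7), (1, 8), (1, 9), (1, 6), (2, 4), (2, 11), (3, 5), (3, 10), (3, 14)] }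
  rep := [1, 3, 0, 15, 12, 13, 2, 16]

noncomputable def v3127 : Cov.CovD where
  P := 3
  N := 5
  pl := [0, 5, 6, 9]
  lev := [⟨[], [], [], [2], [(1, 0, [3])]⟩,
    ⟨[], [(0, 0), (0, 1)], [(0, 0), (0, 1)], [], [(1, 0, [3]), (2, 0, [3]), (3, 1, [])]⟩,
    ⟨[(0, 1)], [(0, 0), (1, 0), (1, 1), (1, 6)], [(0, 0), (0, 6)], [4], [(1, 0, [3]), (2,
      0, [3]), (4, 6, [3])]⟩,
    ⟨[(0, 1), (1, 2)], [(0, 0), (0, 1), (1, 0), (1, 1)], [(1, 1)], [2, 5], [(3, 1, []), (7,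
      1, [])]⟩,
    ⟨[(1, 2)], [(1, 0), (2, 0), (2, 3), (2, 6)], [(0, 3)], [4], [(2, 0, [3]), (8, 3, [0,
      6])]⟩,
    ⟨[(0, 3), (1, 3)], [(1, 1), (3, 1)], [], [5, 7], [(3, 1, [])]⟩,
    ⟨[(2, 4)], [(1, 0), (1, 1), (2, 0), (3, 1), (4, 0), (4, 1), (4, 3), (5, 1)], [(0, 1),
      (0, 3), (1, 3)], [], [(2, 0, [3]), (3, 1, []), (8, 3, [0, 6])]⟩]
  Ta := [((1, 0), 0, 2), ((1, 4), 0, 6), ((2, 3), 0, 1), ((3, 2), 1, 0), ((3, 8), 1, 3), ((3, 9),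
    1, 7), ((7, 0), 1, 2), ((7, 6), 1, 5)]
  Tb := [((0, 1, 7), 2, 0, 1), ((1, 0, 4), 0, 2, 6), ((3, 2, 8), 1, 0, 3), ((3, 2, 9), 1, 0, 7),
    ((3, 8, 9), 1, 3, 7), ((4, 1, 5), 6, 0, 4), ((5, 4, 8), 4, 6, 3), ((6, 7, 9), 5, 1, 7),
    ((7, 0, 6), 1, 2, 5), ((8, 3, 5), 3, 1, 4), ((9, 3, 6), 7, 1, 5)]
  Tc := [(3, 0, 6)]
  Td := [((0, 3), (1, 0), 2), ((0, 3), (1, 4), 6), ((0, 3), (2, 3), 1), ((3, 0), (8, 3), 1), ((3,
    0), (8, 5), 4), ((3, 6), (8, 3), 1), ((3, 6), (8, 5), 4), ((6, 3), (4, 1), 0), ((6, 3),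
    (4, 5), 4)]
  G := [[0, 0, 0x115115641158855411544534ecc918189119a818914911e8ec2, 0,
    0x4455c561595555a184244588539e44c88c44c7888cc5ca84884c38ec2], [0, 0,
    0x11542341212a2251c113211a2ce229188c2, 0x8292a8292a59225225642c265242998c8,
    0x8252a22528559c2299529622c42c9225225998c2], [0,
    0x44acaa6a2226c88aaaaa888a44ac8e2886226a4886446c464424648a5, 0, 0,
    0xcccccc6444c5cc5e988cccca885cc5a988ccccc8454858c5e9e42], [0, 0, 0,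
    0x82c2a82c2ac442c2642c26cc22c22cac1, 0x82c2a285cc5a9c22cc529628424cce225c2698c2]]

noncomputable def n3127 : Ent := ⟨e3127, noF, [], [], [(15, 16, [1580044410770988437309982408355971841652082177953823432505701900289, 0])]⟩

def c3127 : PLift (Cov.check n3127.C.D v3127 = true) := ⟨by decide +kernel⟩

def b3127 : PLift (entF (fidx ts) 400 3127 n3127 = true) := ⟨by decide +kernel⟩

theorem g3127 : GoodF (fidx ts) 400 3127 := GoodF.ofV v3127 n3127 c3127.down b3127.down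

/-- 4667544:2418/7 -/
noncomputable def e3128 : SCfg where
  D := {
    a := 7
    L := 10
    kp := 7
    inn := [(0, 1), (0, 3), (1, 0), (1, 2), (1, 3), (2, 1), (2, 4), (3, 0), (3, 1), (3, 5), (4, 2), (4,
      6), (5, 3), (6, 4)]
    mix := [(0, 0), (0, 1), (1, 1), (1, 2), (1, 3), (2, 1), (2, 2), (2, 4), (2, 5), (3, 0), (3, 3), (3,
      6), (3, 7), (4, 2), (4, 5), (4, 8), (5, 3), (5, 6), (5, 9), (6, 2), (6, 8), (6, 9)]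
    cl := [2, 0, 0, 1, 7, 4, 5, 1, 3, 6]
    chq := [(0, 3), (3, 0), (3, 7), (7, 3)]
    rng := [(0, 1), (0, 7), (1, 0), (1, 4), (2, 3), (2, 9), (3, 2), (3, 9), (4, 1), (4, 5), (5, 4), (5,
      8), (6, 7), (6, 9), (7, 0), (7, 6), (8, 5), (8, 9), (9, 2), (9, 3), (9, 6), (9, 8)]
    lev := [] }
  links := [[1, 3, 7, 8], [3, 0, 8, 2, 9, 10], [9, 1, 8, 11, 12, 4], [7, 0, 1, 10, 5, 13, 14], [9, 2, 12,
    15, 6], [13, 3, 10, 16], [9, 4, 15, 16]]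
  P := {
    a := 7
    N := 17
    nb := [394, 1805, 6930, 25763, 37444, 74760, 98832, 16649, 2183, 66646, 66090, 4356, 34836, 81960,
      8328, 69712, 42592]
    tri := [(0, 1, 3), (0, 1, 8), (0, 3, 7), (0, 7, 8), (1, 2, 8), (1, 2, 9), (1, 3, 10), (1, 9, 10),
      (2, 4, 9), (2, 4, 12), (2, 8, 11), (2, 11, 12), (3, 5, 10), (3, 5, 13), (3, 7, 14), (3, 13,
      14), (4, 6, 9), (4, 6, 15), (4, 12, 15), (5, 10, 16), (5, 13, 16), (6, 9, 16), (6, 15, 16)]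
    fin := [0, 1, 2, 3, 2, 5, 1, 0, 1, 1, 3, 2, 12, 13, 3, 15, 5]
    chd := [(1, 15), (2, 15)]
    steps := [(0, 7), (1, 8), (1, 9), (1, 6), (2, 4), (2, 11), (3, 10), (3, 14), (5, 16)] }
  rep := [1, 3, 0, 15, 12, 13, 5, 2]

noncomputable def v3128 : Cov.CovD where
  P := 3
  N := 5
  pl := [0, 5, 6, 9]
  lev := [⟨[], [], [], [2], [(1, 0, [3])]⟩,
    ⟨[], [(0, 0), (0, 1)], [(0, 0), (0, 1)], [], [(1, 0, [3]), (2, 0, [3]), (3, 1, [])]⟩,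
    ⟨[(0, 1)], [(0, 0), (1, 0), (1, 1), (1, 7)], [(0, 0), (0, 7)], [4], [(1, 0, [3]), (2,
      0, [3]), (4, 7, [3])]⟩,
    ⟨[(0, 1), (1, 2)], [(0, 0), (0, 1), (1, 0), (1, 1)], [(1, 1)], [2, 5], [(3, 1, []), (7,
      1, [])]⟩,
    ⟨[(1, 2)], [(1, 0), (2, 0), (2, 3), (2, 7)], [(0, 3)], [4], [(2, 0, [3]), (8, 3, [0,
      7])]⟩,
    ⟨[(0, 3), (1, 3)], [(1, 1), (3, 1)], [], [5, 6], [(3, 1, [])]⟩,
    ⟨[(2, 4)], [(1, 0), (2, 0), (4, 0), (4, 3)], [(0, 3)], [6], [(2, 0, [3]), (8, 3, [0,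
      7])]⟩]
  Ta := [((1, 0), 0, 2), ((1, 4), 0, 7), ((2, 3), 0, 1), ((2, 9), 0, 6), ((3, 2), 1, 0), ((3, 9),
    1, 6), ((7, 0), 1, 2), ((7, 6), 1, 5)]
  Tb := [((0, 1, 7), 2, 0, 1), ((1, 0, 4), 0, 2, 7), ((2, 3, 9), 0, 1, 6), ((3, 2, 9), 1, 0, 6),
    ((4, 1, 5), 7, 0, 4), ((5, 4, 8), 4, 7, 3), ((6, 7, 9), 5, 1, 6), ((7, 0, 6), 1, 2, 5),
    ((8, 5, 9), 3, 4, 6), ((9, 2, 3), 6, 0, 1), ((9, 2, 6), 6, 0, 5), ((9, 2, 8), 6, 0, 3),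
    ((9, 3, 6), 6, 1, 5), ((9, 3, 8), 6, 1, 3), ((9, 6, 8), 6, 5, 3)]
  Tc := [(3, 0, 7)]
  Td := [((0, 3), (1, 0), 2), ((0, 3), (1, 4), 7), ((0, 3), (2, 3), 1), ((0, 3), (2, 9), 6), ((3,
    0), (8, 5), 4), ((3, 0), (8, 9), 6), ((3, 7), (8, 5), 4), ((3, 7), (8, 9), 6), ((7, 3),
    (4, 1), 0), ((7, 3), (4, 5), 4)]
  G := [[0, 0, 0x141d1296818866d58a46a5141111a111d111dac1111c4e86, 0,
    0xb1a151d1c131683454a8434c36c67161998898a895c84c38eca], [0, 0,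
    0x128699441221611225ce2181212c1111ccec8, 0xa26253121553232c1112c2e563222632219c8c8,
    0x3222a3121593232c3131c96322293121698c2], [0,
    0x224a6e26e4e862eaea4e864a6c4e286ae4ac82e4ae2a6886ac2aa8c6c, 0, 0,
    0x8e56a5a14e6ca6c6414a5c65e986ce2ca886ca6cc8e54e5c9ec2], [0, 0, 0,
    0xe222a628222e5e2e2ce2e2c96e2226e222698c4,
    0xe2226ca52256986a22ca68622a986ca6cce2e2c9e42]]

noncomputable def n3128 : Ent := ⟨e3128, noF, [], [], [(15, 13, [1685356714993749094781261963711221120386310105559083432688081911809, 0])]⟩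

def c3128 : PLift (Cov.check n3128.C.D v3128 = true) := ⟨by decide +kernel⟩

def b3128 : PLift (entF (fidx ts) 400 3128 n3128 = true) := ⟨by decide +kernel⟩

theorem g3128 : GoodF (fidx ts) 400 3128 := GoodF.ofV v3128 n3128 c3128.down b3128.down

/-- 4667544:2418 -/
noncomputable def e3129 : SCfg where
  D := {
    a := 7
    L := 11
    kp := 8
    inn := [(0, 1), (0, 3), (1, 0), (1, 2), (1, 3), (2, 1), (2, 4), (3, 0), (3, 1), (3, 5), (4, 2), (4,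
      6), (5, 3), (6, 4)]
    mix := [(0, 0), (0, 1), (1, 1), (1, 2), (1, 3), (2, 1), (2, 2), (2, 4), (2, 5), (3, 0), (3, 3), (3,
      6), (3, 7), (4, 2), (4, 5), (4, 8), (5, 3), (5, 6), (5, 9), (6, 2), (6, 8), (6, 10)]
    cl := [2, 0, 0, 1, 6, 4, 5, 1, 3, 7, 8]
    chq := [(0, 3), (3, 0), (3, 6), (6, 3)]
    rng := [(0, 1), (0, 7), (1, 0), (1, 4), (2, 3), (2, 10), (3, 2), (3, 9), (4, 1), (4, 5), (5, 4),
      (5, 8), (6, 7), (6, 9), (7, 0), (7, 6), (8, 5), (8, 10), (9, 3), (9, 6), (10, 2), (10, 8)]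
    lev := [] }
  links := [[1, 3, 7, 8], [3, 0, 8, 2, 9, 10], [9, 1, 8, 11, 12, 4], [7, 0, 1, 10, 5, 13, 14], [9, 2, 12,
    15, 6], [13, 3, 10, 16], [9, 4, 15, 17]]
  P := {
    a := 7
    N := 18
    nb := [394, 1805, 6930, 25763, 37444, 74760, 164368, 16649, 2183, 132182, 66090, 4356, 34836,
      81960, 8328, 135248, 9248, 33344]
    tri := [(0, 1, 3), (0, 1, 8), (0, 3, 7), (0, 7, 8), (1, 2, 8), (1, 2, 9), (1, 3, 10), (1, 9, 10),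
      (2, 4, 9), (2, 4, 12), (2, 8, 11), (2, 11, 12), (3, 5, 10), (3, 5, 13), (3, 7, 14), (3, 13,
      14), (4, 6, 9), (4, 6, 15), (4, 12, 15), (5, 10, 16), (5, 13, 16), (6, 9, 17), (6, 15, 17)]
    fin := [0, 1, 2, 3, 2, 3, 1, 0, 1, 1, 3, 2, 12, 13, 3, 15, 16, 17]
    chd := [(1, 15), (2, 15)]
    steps := [(0, 7), (1, 8), (1, 9), (1, 6), (2, 4), (2, 11), (3, 5), (3, 10), (3, 14)] }
  rep := [1, 3, 0, 15, 12, 13, 2, 16, 17]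

noncomputable def v3129 : Cov.CovD where
  P := 3
  N := 6
  pl := [0, 5, 6, 9, 10]
  lev := [⟨[], [], [], [2], [(1, 0, [3])]⟩,
    ⟨[], [(0, 0), (0, 1)], [(0, 0), (0, 1)], [], [(1, 0, [3]), (2, 0, [3]), (3, 1, [])]⟩,
    ⟨[(0, 1)], [(0, 0), (1, 0), (1, 1), (1, 6)], [(0, 0), (0, 6)], [4], [(1, 0, [3]), (2,
      0, [3]), (4, 6, [3])]⟩,
    ⟨[(0, 1), (1, 2)], [(0, 0), (0, 1), (1, 0), (1, 1)], [(1, 1)], [2, 5], [(3, 1, []), (7,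
      1, [])]⟩,
    ⟨[(1, 2)], [(1, 0), (2, 0), (2, 3), (2, 6)], [(0, 3)], [4], [(2, 0, [3]), (8, 3, [0,
      6])]⟩,
    ⟨[(0, 3), (1, 3)], [(1, 1), (3, 1)], [], [5, 7], [(3, 1, [])]⟩,
    ⟨[(2, 4)], [(1, 0), (2, 0), (4, 0), (4, 3)], [(0, 3)], [8], [(2, 0, [3]), (8, 3, [0,
      6])]⟩]
  Ta := [((1, 0), 0, 2), ((1, 4), 0, 6), ((2, 3), 0, 1), ((2, 10), 0, 8), ((3, 2), 1, 0), ((3,
    9), 1, 7), ((7, 0), 1, 2), ((7, 6), 1, 5)]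
  Tb := [((0, 1, 7), 2, 0, 1), ((1, 0, 4), 0, 2, 6), ((2, 3, 10), 0, 1, 8), ((3, 2, 9), 1, 0, 7),
    ((4, 1, 5), 6, 0, 4), ((5, 4, 8), 4, 6, 3), ((6, 7, 9), 5, 1, 7), ((7, 0, 6), 1, 2, 5),
    ((8, 5, 10), 3, 4, 8), ((9, 3, 6), 7, 1, 5), ((10, 2, 8), 8, 0, 3)]
  Tc := [(3, 0, 6)]
  Td := [((0, 3), (1, 0), 2), ((0, 3), (1, 4), 6), ((0, 3), (2, 3), 1), ((0, 3), (2, 10), 8),
    ((3, 0), (8, 5), 4), ((3, 0), (8, 10), 8), ((3, 6), (8, 5), 4), ((3, 6), (8, 10), 8),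
    ((6, 3), (4, 1), 0), ((6, 3), (4, 5), 4)]
  G := [[0, 0, 0x11511564118115115acee514e1191196818119a8119119c8ec2, 0,
    0x66c11c11ce641751d5e9e7c7dcad75db5a9ddcccc31414cd5c1f9e42], [0, 0,
    0x121117a11512ac12113c115116cc611911a6ee31c8c2, 0x72b26726299b2e2a72b2a9d2c23d2b2cce48,
    0x621212e8d2e2a81212c2edd5cc539e77566591bb5aa551c68], [0,
    0xeeaeea6ee6ee66ceeaeeaaee6ee6aceeaeeacee6ee6cce21, 0, 0,
    0xee5ee5c128eeceec6ee5ee569eeceecaee5ee5a9eeceecc8e4a], [0, 0, 0,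
    0xe2e26e2e269e2e2ae2e2a9e2e2ce2e2c5e48, 0xe2e26ee5ee569e2e2aee5ee5a9eece2ce2ee5c9e42]]

noncomputable def n3129 : Ent := ⟨e3129, noF, [], [], [(15, 16, [7334685537875745012586738086077695515070955365108989538292687706468353, 0]), (15, 13, [7334790850179967773244209365633050764349689593036594798292870086479873, 0]), (15, 14, [7334790875878422277917280412776772662961875900559637987928627382280193, 0]), (17, 10, [6903326391201334775872705251651713694319475166462653752416129412984833, 0]), (17, 16, [7334685537875745012586738086077695515070955365108989538292687706488833, 0])]⟩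

def c3129 : PLift (Cov.check n3129.C.D v3129 = true) := ⟨by decide +kernel⟩

def b3129 : PLift (entF (fidx ts) 400 3129 n3129 = true) := ⟨by decide +kernel⟩

theorem g3129 : GoodF (fidx ts) 400 3129 := GoodF.ofV v3129 n3129 c3129.down b3129.down

/-- 4666544:2425/2 -/
noncomputable def e3130 : SCfg where
  D := {
    a := 7
    L := 9
    kp := 6
    inn := [(0, 1), (1, 0), (1, 2), (1, 3), (2, 1), (2, 4), (3, 1), (3, 6), (4, 2), (4, 5), (5, 4), (6,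
      3)]
    mix := [(0, 0), (0, 1), (0, 2), (1, 0), (1, 2), (1, 3), (2, 2), (2, 3), (2, 4), (2, 5), (3, 0), (3,
      3), (3, 6), (3, 7), (4, 3), (4, 5), (4, 8), (5, 1), (5, 5), (5, 8), (6, 0), (6, 1), (6, 7)]
    cl := [1, 2, 0, 0, 6, 3, 1, 5, 4]
    chq := [(0, 3), (3, 0), (3, 4), (4, 3)]
    rng := [(0, 1), (1, 0), (1, 2), (1, 5), (1, 7), (1, 8), (2, 1), (2, 4), (3, 6), (3, 8), (4, 2), (4,
      5), (5, 1), (5, 4), (6, 3), (6, 7), (7, 1), (7, 6), (8, 1), (8, 3)]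
    lev := [] }
  links := [[1, 7, 8, 9], [7, 0, 9, 2, 10, 3], [10, 1, 9, 11, 12, 4], [7, 1, 10, 13, 14, 6], [10, 2, 12,
    5, 15], [15, 4, 12, 8], [7, 3, 14, 8]]
  P := {
    a := 7
    N := 16
    nb := [898, 1677, 7698, 25794, 37924, 37136, 16776, 331, 53985, 2311, 40990, 4612, 2356, 17416,
      8520, 1328]
    tri := [(0, 1, 7), (0, 1, 9), (0, 7, 8), (0, 8, 9), (1, 2, 9), (1, 2, 10), (1, 3, 7), (1, 3, 10),
      (2, 4, 10), (2, 4, 12), (2, 9, 11), (2, 11, 12), (3, 6, 7), (3, 6, 14), (3, 10, 13), (3, 13,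
      14), (4, 5, 12), (4, 5, 15), (4, 10, 15), (5, 8, 12), (5, 8, 15), (6, 7, 8), (6, 8, 14)]
    fin := [0, 0, 2, 0, 4, 5, 0, 0, 5, 2, 2, 11, 4, 0, 14, 15]
    chd := [(2, 4), (4, 15)]
    steps := [(0, 1), (0, 3), (0, 7), (0, 6), (0, 13), (2, 9), (2, 10), (4, 12), (5, 8)] }
  rep := [2, 0, 5, 4, 15, 14, 11]

noncomputable def v3130 : Cov.CovD where
  P := 3
  N := 4
  pl := [1, 4, 7]
  lev := [⟨[], [], [(0, 1)], [2], [(0, 1, []), (2, 0, [3])]⟩,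
    ⟨[], [(0, 0), (0, 1)], [(0, 0), (0, 1)], [], [(0, 1, []), (2, 0, [3]), (3, 0, [3])]⟩,
    ⟨[(0, 1)], [(0, 0), (1, 0), (1, 1), (1, 3)], [(0, 0), (0, 3)], [6], [(2, 0, [3]), (3,
      0, [3]), (5, 3, [0, 4])]⟩,
    ⟨[(0, 1), (1, 2)], [(0, 1), (1, 0), (1, 1), (2, 0)], [(0, 1), (1, 1)], [5], [(0, 1,
      []), (3, 0, [3]), (6, 1, [])]⟩,
    ⟨[(1, 2)], [(1, 0), (2, 0), (2, 3), (2, 4), (3, 0)], [(0, 3), (0, 4), (3, 4)], [], [(3,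
      0, [3]), (5, 3, [0, 4]), (8, 4, [3])]⟩,
    ⟨[(2, 4)], [(2, 3), (4, 0), (4, 3), (4, 4)], [(3, 4)], [2], [(5, 3, [0, 4]), (8, 4,
      [3])]⟩,
    ⟨[(1, 3)], [(0, 1), (1, 1), (3, 0), (3, 1)], [], [2, 5], [(0, 1, [])]⟩]
  Ta := [((0, 1), 1, 2), ((2, 1), 0, 2), ((2, 4), 0, 6), ((3, 6), 0, 1), ((3, 8), 0, 4), ((6, 3),
    1, 0), ((6, 7), 1, 5)]
  Tb := [((1, 0, 2), 2, 1, 0), ((1, 0, 5), 2, 1, 3), ((1, 0, 7), 2, 1, 5), ((1, 0, 8), 2, 1, 4),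
    ((1, 2, 5), 2, 0, 3), ((1, 2, 7), 2, 0, 5), ((1, 2, 8), 2, 0, 4), ((1, 5, 7), 2, 3, 5),
    ((1, 5, 8), 2, 3, 4), ((1, 7, 8), 2, 5, 4), ((2, 1, 4), 0, 2, 6), ((3, 6, 8), 0, 1, 4),
    ((4, 2, 5), 6, 0, 3), ((5, 1, 4), 3, 2, 6), ((6, 3, 7), 1, 0, 5), ((7, 1, 6), 5, 2, 1),
    ((8, 1, 3), 4, 2, 0)]
  Tc := [(3, 0, 4)]
  Td := [((0, 3), (2, 1), 2), ((0, 3), (2, 4), 6), ((0, 3), (3, 6), 1), ((0, 3), (3, 8), 4), ((3,
    0), (5, 1), 2), ((3, 0), (5, 4), 6), ((3, 4), (5, 1), 2), ((3, 4), (5, 4), 6), ((4, 3),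
    (8, 1), 2), ((4, 3), (8, 3), 0)]
  G := [[0, 0, 0x88a18888e188218e444a1c445444e14421c8c4c5e8c, 0x41281254128125112412ce84,
    0x9199a58145981191e468141191987c8148ac8], [0, 0,
    0x481424144c188a2ad222e1444e1ce881a4a2698c4, 0,
    0x8148421199a544814911192dc8881c181191ecaca], [0, 0, 0,
    0x44524488921192c88528888d2111d2cec8,
    0x114189112ec481889c1111992ec8882a888883c1811391ecec1], [0,
    0x112111411ea412111411eaa412181111e6468, 0, 0,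
    0x8234a8213a1ec288949111992ec888182e181112ecc61]]

noncomputable def n3130 : Ent := ⟨e3130, noF, [], [], []⟩

def c3130 : PLift (Cov.check n3130.C.D v3130 = true) := ⟨by decide +kernel⟩

def b3130 : PLift (entF (fidx ts) 400 3130 n3130 = true) := ⟨by decide +kernel⟩

theorem g3130 : GoodF (fidx ts) 400 3130 := GoodF.ofV v3130 n3130 c3130.down b3130.down

/-- 4666544:2425/1 -/
noncomputable def e3131 : SCfg where
  D := {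
    a := 7
    L := 10
    kp := 7
    inn := [(0, 1), (1, 0), (1, 2), (1, 3), (2, 1), (2, 4), (3, 1), (3, 6), (4, 2), (4, 5), (5, 4), (6,
      3)]
    mix := [(0, 0), (0, 1), (0, 2), (1, 0), (1, 2), (1, 3), (2, 2), (2, 3), (2, 4), (2, 5), (3, 0), (3,
      3), (3, 6), (3, 7), (4, 3), (4, 5), (4, 8), (5, 1), (5, 5), (5, 8), (6, 0), (6, 7), (6, 9)]
    cl := [1, 4, 0, 0, 6, 3, 1, 5, 2, 7]
    chq := [(2, 3), (2, 6), (3, 2), (6, 2)]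
    rng := [(0, 1), (0, 9), (1, 0), (1, 2), (1, 5), (1, 8), (2, 1), (2, 4), (3, 6), (3, 8), (4, 2), (4,
      5), (5, 1), (5, 4), (6, 3), (6, 7), (7, 6), (7, 9), (8, 1), (8, 3), (9, 0), (9, 7)]
    lev := [] }
  links := [[1, 7, 8, 9], [7, 0, 9, 2, 10, 3], [10, 1, 9, 11, 12, 4], [7, 1, 10, 13, 14, 6], [10, 2, 12,
    5, 15], [15, 4, 12, 8], [7, 3, 14, 16]]
  P := {
    a := 7
    N := 17
    nb := [898, 1677, 7698, 25794, 37924, 37136, 82056, 65867, 37537, 2311, 40990, 4612, 2356, 17416,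
      73800, 1328, 16576]
    tri := [(0, 1, 7), (0, 1, 9), (0, 7, 8), (0, 8, 9), (1, 2, 9), (1, 2, 10), (1, 3, 7), (1, 3, 10),
      (2, 4, 10), (2, 4, 12), (2, 9, 11), (2, 11, 12), (3, 6, 7), (3, 6, 14), (3, 10, 13), (3, 13,
      14), (4, 5, 12), (4, 5, 15), (4, 10, 15), (5, 8, 12), (5, 8, 15), (6, 7, 16), (6, 14, 16)]
    fin := [0, 1, 2, 0, 2, 5, 0, 0, 8, 1, 1, 2, 5, 0, 14, 15, 16]
    chd := [(2, 15), (5, 15)]
    steps := [(0, 7), (0, 3), (0, 6), (0, 13), (1, 9), (1, 10), (2, 4), (2, 11), (5, 12)] }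
  rep := [1, 0, 15, 5, 8, 14, 2, 16]

noncomputable def v3131 : Cov.CovD where
  P := 3
  N := 5
  pl := [1, 7, 9]
  lev := [⟨[], [], [(0, 1)], [4], [(0, 1, []), (2, 0, [])]⟩,
    ⟨[], [(0, 0), (0, 1)], [(0, 0), (0, 1)], [], [(0, 1, []), (2, 0, []), (3, 0, [])]⟩,
    ⟨[(0, 1)], [(0, 0), (1, 0), (1, 1), (1, 3), (1, 6)], [(0, 0), (0, 3), (0, 6), (3, 6)],
      [], [(2, 0, []), (3, 0, []), (4, 6, [2]), (5, 3, [2])]⟩,
    ⟨[(0, 1), (1, 2)], [(0, 1), (1, 0), (1, 1), (2, 0)], [(0, 1), (1, 1)], [5], [(0, 1,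
      []), (3, 0, []), (6, 1, [])]⟩,
    ⟨[(1, 2)], [(1, 0), (2, 0), (2, 2), (2, 3), (2, 6), (3, 0)], [(0, 2), (0, 3), (2, 3)],
      [], [(3, 0, []), (5, 3, [2]), (8, 2, [3, 6])]⟩,
    ⟨[(2, 4)], [(2, 3), (4, 0), (4, 2), (4, 3)], [(2, 3)], [4], [(5, 3, [2]), (8, 2, [3,
      6])]⟩,
    ⟨[(1, 3)], [(0, 1), (1, 1), (3, 0), (3, 1)], [], [5, 7], [(0, 1, [])]⟩]
  Ta := [((0, 1), 1, 4), ((0, 9), 1, 7), ((2, 1), 0, 4), ((2, 4), 0, 6), ((3, 6), 0, 1), ((3, 8),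
    0, 2), ((6, 3), 1, 0), ((6, 7), 1, 5)]
  Tb := [((0, 1, 9), 1, 4, 7), ((1, 0, 2), 4, 1, 0), ((1, 0, 5), 4, 1, 3), ((1, 0, 8), 4, 1, 2),
    ((1, 2, 5), 4, 0, 3), ((1, 2, 8), 4, 0, 2), ((1, 5, 8), 4, 3, 2), ((2, 1, 4), 0, 4, 6),
    ((3, 6, 8), 0, 1, 2), ((4, 2, 5), 6, 0, 3), ((5, 1, 4), 3, 4, 6), ((6, 3, 7), 1, 0, 5),
    ((7, 6, 9), 5, 1, 7), ((8, 1, 3), 2, 4, 0), ((9, 0, 7), 7, 1, 5)]
  Tc := [(2, 3, 6)]
  Td := [((2, 3), (8, 1), 4), ((2, 3), (8, 3), 0), ((2, 6), (8, 1), 4), ((2, 6), (8, 3), 0), ((3,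
    2), (5, 1), 4), ((3, 2), (5, 4), 6), ((6, 2), (4, 2), 0), ((6, 2), (4, 5), 3)]
  G := [[0, 0, 0, 0x5851c429891c82c1114cd1d4c8184cd28c,
    0xd8d1a8885411183a84c119113ad1d2a81886ad48c], [0, 0, 0, 0xc861c28a1c528c134c21a4c924c,
    0xc8c2a2822a5482162a5132ac48c], [0, 0,
    0x55c55a6455c556a455a556c4e99c99a6899c996a899a996c8ec1, 0x555d51c42999995c82c1,
    0x1112a51555bac4818881989ba898528ec1], [0, 0x1811c1811cc241114c1114ca24c,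
    0x99628c22b2ccca2e2c3222cca99c92c55c52ac461, 0x21336dcaaeda1cc281, 0x7172a2122ac481]]

noncomputable def n3131 : Ent := ⟨e3131, noF, [], [], [(8, 16, [1580044410770988437309982408355971841652082177953823432505701933057, 0])]⟩

def c3131 : PLift (Cov.check n3131.C.D v3131 = true) := ⟨by decide +kernel⟩

def b3131 : PLift (entF (fidx ts) 400 3131 n3131 = true) := ⟨by decide +kernel⟩

theorem g3131 : GoodF (fidx ts) 400 3131 := GoodF.ofV v3131 n3131 c3131.down b3131.down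

/-- 4666544:2425/5 -/
noncomputable def e3132 : SCfg where
  D := {
    a := 7
    L := 8
    kp := 5
    inn := [(0, 1), (1, 0), (1, 2), (1, 3), (2, 1), (2, 4), (3, 1), (3, 6), (4, 2), (4, 5), (5, 4), (6,
      3)]
    mix := [(0, 0), (0, 1), (0, 2), (1, 0), (1, 2), (1, 3), (2, 2), (2, 3), (2, 4), (2, 5), (3, 0), (3,
      3), (3, 6), (3, 7), (4, 3), (4, 5), (4, 6), (5, 5), (5, 6), (5, 7), (6, 0), (6, 1), (6, 7)]
    cl := [0, 2, 1, 1, 5, 3, 0, 4]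
    chq := [(0, 3), (0, 5), (3, 0), (5, 0)]
    rng := [(0, 1), (1, 0), (1, 2), (1, 7), (2, 1), (2, 4), (3, 6), (4, 2), (4, 5), (5, 4), (5, 7), (6,
      3), (6, 7), (7, 1), (7, 5), (7, 6)]
    lev := [] }
  links := [[1, 7, 8, 9], [7, 0, 9, 2, 10, 3], [10, 1, 9, 11, 12, 4], [7, 1, 10, 13, 14, 6], [10, 2, 12,
    5, 13], [13, 4, 12, 14], [7, 3, 14, 8]]
  P := {
    a := 7
    N := 15
    nb := [898, 1677, 7698, 25794, 13348, 28688, 16776, 331, 17089, 2311, 8222, 4612, 18484, 17464,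
      12648]
    tri := [(0, 1, 7), (0, 1, 9), (0, 7, 8), (0, 8, 9), (1, 2, 9), (1, 2, 10), (1, 3, 7), (1, 3, 10),
      (2, 4, 10), (2, 4, 12), (2, 9, 11), (2, 11, 12), (3, 6, 7), (3, 6, 14), (3, 10, 13), (3, 13,
      14), (4, 5, 12), (4, 5, 13), (4, 10, 13), (5, 12, 14), (5, 13, 14), (6, 7, 8), (6, 8, 14)]
    fin := [0, 1, 0, 0, 0, 0, 0, 0, 8, 1, 1, 11, 12, 0, 14]
    chd := [(0, 11), (0, 12)]
    steps := [(0, 7), (0, 3), (0, 6), (0, 13), (0, 4), (0, 5), (1, 9), (1, 10), (0, 2)] }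
  rep := [0, 1, 8, 12, 14, 11]

noncomputable def v3132 : Cov.CovD where
  P := 3
  N := 3
  pl := [1, 7]
  lev := [⟨[], [], [(0, 1)], [2], [(0, 0, [3, 5]), (2, 1, [])]⟩,
    ⟨[], [(0, 0), (0, 1)], [(0, 1), (1, 1)], [], [(0, 0, [3, 5]), (2, 1, []), (3, 1, [])]⟩,
    ⟨[(0, 1)], [(0, 1), (1, 0), (1, 1), (1, 3), (1, 5)], [(1, 1), (1, 3), (1, 5), (3, 5)],
      [], [(2, 1, []), (3, 1, []), (4, 5, [0]), (5, 3, [0])]⟩,
    ⟨[(0, 1), (1, 2)], [(0, 0), (1, 0), (1, 1), (2, 1)], [(0, 0), (0, 1)], [4], [(0, 0, [3,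
      5]), (3, 1, []), (6, 0, [3, 5])]⟩,
    ⟨[(1, 2)], [(1, 1), (2, 0), (2, 1), (2, 3), (2, 5), (3, 0), (3, 1)], [(0, 1), (0, 3),
      (1, 3)], [], [(3, 1, []), (5, 3, [0]), (6, 0, [3, 5])]⟩,
    ⟨[(2, 4)], [(2, 3), (3, 0), (4, 0), (4, 1), (4, 3)], [(0, 3)], [4], [(5, 3, [0]), (6,
      0, [3, 5])]⟩,
    ⟨[(1, 3)], [(0, 0), (1, 0), (3, 0), (3, 1)], [], [2, 4], [(0, 0, [3, 5])]⟩]
  Ta := [((0, 1), 0, 2), ((2, 1), 1, 2), ((2, 4), 1, 5), ((3, 6), 1, 0), ((6, 3), 0, 1), ((6, 7),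
    0, 4)]
  Tb := [((1, 0, 2), 2, 0, 1), ((1, 0, 7), 2, 0, 4), ((1, 2, 7), 2, 1, 4), ((2, 1, 4), 1, 2, 5),
    ((4, 2, 5), 5, 1, 3), ((5, 4, 7), 3, 5, 4), ((6, 3, 7), 0, 1, 4), ((7, 1, 5), 4, 2, 3),
    ((7, 1, 6), 4, 2, 0), ((7, 5, 6), 4, 3, 0)]
  Tc := [(0, 3, 5)]
  Td := [((0, 3), (0, 1), 2), ((0, 3), (6, 3), 1), ((0, 3), (6, 7), 4), ((0, 5), (0, 1), 2), ((0,
    5), (6, 3), 1), ((0, 5), (6, 7), 4), ((3, 0), (5, 4), 5), ((3, 0), (5, 7), 4), ((5, 0),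
    (4, 2), 1), ((5, 0), (4, 5), 3)]
  G := [[0, 0, 0x888164144ca144, 0xc1486c2184, 0x8881a2124cc148], [0, 0, 0x4142c418181c81c4, 0,
    0x8881c2224cc142], [0, 0, 0, 0x81a486c2144, 0x8882c22a4cc141], [0,
    0x48211c126611a41414ac41c21212c6e84, 0, 0, 0x8882c2214cc148]]

noncomputable def n3132 : Ent := ⟨e3132, noF, [], [], []⟩

def c3132 : PLift (Cov.check n3132.C.D v3132 = true) := ⟨by decide +kernel⟩

def b3132 : PLift (entF (fidx ts) 400 3132 n3132 = true) := ⟨by decide +kernel⟩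

theorem g3132 : GoodF (fidx ts) 400 3132 := GoodF.ofV v3132 n3132 c3132.down b3132.down

/-- 4666544:2425/4 -/
noncomputable def e3133 : SCfg where
  D := {
    a := 7
    L := 9
    kp := 6
    inn := [(0, 1), (1, 0), (1, 2), (1, 3), (2, 1), (2, 4), (3, 1), (3, 6), (4, 2), (4, 5), (5, 4), (6,
      3)]
    mix := [(0, 0), (0, 1), (0, 2), (1, 0), (1, 2), (1, 3), (2, 2), (2, 3), (2, 4), (2, 5), (3, 0), (3,
      3), (3, 6), (3, 7), (4, 3), (4, 5), (4, 8), (5, 5), (5, 7), (5, 8), (6, 0), (6, 1), (6, 7)]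
    cl := [1, 4, 0, 0, 6, 3, 1, 2, 5]
    chq := [(0, 2), (0, 3), (2, 0), (3, 0)]
    rng := [(0, 1), (1, 0), (1, 2), (1, 7), (2, 1), (2, 4), (3, 6), (3, 8), (4, 2), (4, 5), (5, 4), (5,
      7), (6, 3), (6, 7), (7, 1), (7, 5), (7, 6), (7, 8), (8, 3), (8, 7)]
    lev := [] }
  links := [[1, 7, 8, 9], [7, 0, 9, 2, 10, 3], [10, 1, 9, 11, 12, 4], [7, 1, 10, 13, 14, 6], [10, 2, 12,
    5, 15], [15, 4, 12, 14], [7, 3, 14, 8]]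
  P := {
    a := 7
    N := 16
    nb := [898, 1677, 7698, 25794, 37924, 53264, 16776, 331, 17089, 2311, 40990, 4612, 18484, 17416,
      45416, 17456]
    tri := [(0, 1, 7), (0, 1, 9), (0, 7, 8), (0, 8, 9), (1, 2, 9), (1, 2, 10), (1, 3, 7), (1, 3, 10),
      (2, 4, 10), (2, 4, 12), (2, 9, 11), (2, 11, 12), (3, 6, 7), (3, 6, 14), (3, 10, 13), (3, 13,
      14), (4, 5, 12), (4, 5, 15), (4, 10, 15), (5, 12, 14), (5, 14, 15), (6, 7, 8), (6, 8, 14)]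
    fin := [0, 0, 2, 0, 2, 2, 0, 0, 8, 2, 2, 11, 12, 0, 14, 15]
    chd := [(2, 12), (2, 14)]
    steps := [(0, 1), (0, 3), (0, 7), (0, 6), (0, 13), (2, 4), (2, 5), (2, 9), (2, 10)] }
  rep := [2, 0, 14, 12, 8, 15, 11]

noncomputable def v3133 : Cov.CovD where
  P := 3
  N := 4
  pl := [1, 4, 8]
  lev := [⟨[], [], [(0, 1)], [4], [(0, 1, []), (2, 0, [2, 3])]⟩,
    ⟨[], [(0, 0), (0, 1)], [(0, 0), (0, 1)], [], [(0, 1, []), (2, 0, [2, 3]), (3, 0, [2,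
      3])]⟩,
    ⟨[(0, 1)], [(0, 0), (1, 0), (1, 1), (1, 3)], [(0, 0), (0, 3)], [6], [(2, 0, [2, 3]),
      (3, 0, [2, 3]), (5, 3, [0])]⟩,
    ⟨[(0, 1), (1, 2)], [(0, 1), (1, 0), (1, 1), (1, 2), (2, 0)], [(0, 1), (0, 2), (1, 1),
      (1, 2)], [], [(0, 1, []), (3, 0, [2, 3]), (6, 1, []), (7, 2, [0])]⟩,
    ⟨[(1, 2)], [(1, 0), (2, 0), (2, 3), (3, 0)], [(0, 3)], [5], [(3, 0, [2, 3]), (5, 3,
      [0])]⟩,
    ⟨[(2, 4)], [(2, 3), (3, 2), (4, 0), (4, 2), (4, 3)], [(2, 3)], [5], [(5, 3, [0]), (7,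
      2, [0])]⟩,
    ⟨[(1, 3)], [(0, 1), (1, 1), (3, 0), (3, 1), (3, 2), (5, 2)], [(1, 2)], [4], [(0, 1,
      []), (7, 2, [0])]⟩]
  Ta := [((0, 1), 1, 4), ((2, 1), 0, 4), ((2, 4), 0, 6), ((3, 6), 0, 1), ((3, 8), 0, 5), ((6, 3),
    1, 0), ((6, 7), 1, 2)]
  Tb := [((1, 0, 2), 4, 1, 0), ((1, 0, 7), 4, 1, 2), ((1, 2, 7), 4, 0, 2), ((2, 1, 4), 0, 4, 6),
    ((3, 6, 8), 0, 1, 5), ((4, 2, 5), 6, 0, 3), ((5, 4, 7), 3, 6, 2), ((6, 3, 7), 1, 0, 2),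
    ((7, 1, 5), 2, 4, 3), ((7, 1, 6), 2, 4, 1), ((7, 1, 8), 2, 4, 5), ((7, 5, 6), 2, 3, 1),
    ((7, 5, 8), 2, 3, 5), ((7, 6, 8), 2, 1, 5), ((8, 3, 7), 5, 0, 2)]
  Tc := [(0, 2, 3)]
  Td := [((0, 2), (2, 1), 4), ((0, 2), (2, 4), 6), ((0, 2), (3, 6), 1), ((0, 2), (3, 8), 5), ((0,
    3), (2, 1), 4), ((0, 3), (2, 4), 6), ((0, 3), (3, 6), 1), ((0, 3), (3, 8), 5), ((2, 0),
    (7, 1), 4), ((2, 0), (7, 5), 3), ((2, 0), (7, 6), 1), ((2, 0), (7, 8), 5), ((3, 0), (5,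
    4), 6), ((3, 0), (5, 7), 2)]
  G := [[0, 0, 0x111e14111e18111e14e81, 0, 0x888182e1481418141ac181111e84911191e811919878acc],
    [0, 0, 0x221e14112e18212e18e41, 0x5124c1219124e82,
    0x8141481122a584212228782821a8ac81489148a4e], [0, 0, 0x111e18111e18111e18e41, 0,
    0x181112e81811311e861111912e88c1], [0, 0x4124241241128ca181111e82111411e8111111e4c66,
    0x111e14111e18111e18e42, 0x1192411528111d28e81, 0x181112e841111912e81811311e8ac2]]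

noncomputable def n3133 : Ent := ⟨e3133, noF, [], [], [(15, 13, [360048296834107614573520772494203283988579150297652619089526785, 0])]⟩

def c3133 : PLift (Cov.check n3133.C.D v3133 = true) := ⟨by decide +kernel⟩

def b3133 : PLift (entF (fidx ts) 400 3133 n3133 = true) := ⟨by decide +kernel⟩

theorem g3133 : GoodF (fidx ts) 400 3133 := GoodF.ofV v3133 n3133 c3133.down b3133.down

/-- 4666544:2425/6 -/
noncomputable def e3134 : SCfg where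
  D := {
    a := 7
    L := 9
    kp := 6
    inn := [(0, 1), (1, 0), (1, 2), (1, 3), (2, 1), (2, 4), (3, 1), (3, 6), (4, 2), (4, 5), (5, 4), (6,
      3)]
    mix := [(0, 0), (0, 1), (0, 2), (1, 0), (1, 2), (1, 3), (2, 2), (2, 3), (2, 4), (2, 5), (3, 0), (3,
      3), (3, 6), (3, 7), (4, 3), (4, 5), (4, 6), (5, 5), (5, 6), (5, 8), (6, 0), (6, 1), (6, 7)]
    cl := [0, 2, 1, 1, 5, 3, 0, 4, 6]
    chq := [(0, 3), (0, 5), (3, 0), (5, 0)]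
    rng := [(0, 1), (1, 0), (1, 2), (1, 7), (2, 1), (2, 4), (3, 6), (4, 2), (4, 5), (5, 4), (5, 8), (6,
      3), (6, 7), (6, 8), (7, 1), (7, 6), (8, 5), (8, 6)]
    lev := [] }
  links := [[1, 7, 8, 9], [7, 0, 9, 2, 10, 3], [10, 1, 9, 11, 12, 4], [7, 1, 10, 13, 14, 6], [10, 2, 12,
    5, 13], [13, 4, 12, 15], [7, 3, 14, 8]]
  P := {
    a := 7
    N := 16
    nb := [898, 1677, 7698, 25794, 13348, 45072, 16776, 331, 17089, 2311, 8222, 4612, 34868, 50232,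
      8520, 12320]
    tri := [(0, 1, 7), (0, 1, 9), (0, 7, 8), (0, 8, 9), (1, 2, 9), (1, 2, 10), (1, 3, 7), (1, 3, 10),
      (2, 4, 10), (2, 4, 12), (2, 9, 11), (2, 11, 12), (3, 6, 7), (3, 6, 14), (3, 10, 13), (3, 13,
      14), (4, 5, 12), (4, 5, 13), (4, 10, 13), (5, 12, 15), (5, 13, 15), (6, 7, 8), (6, 8, 14)]
    fin := [0, 1, 0, 0, 0, 0, 0, 0, 8, 1, 1, 11, 12, 0, 14, 15]
    chd := [(0, 11), (0, 12)]
    steps := [(0, 7), (0, 3), (0, 6), (0, 13), (0, 4), (0, 5), (1, 9), (1, 10), (0, 2)] }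
  rep := [0, 1, 8, 12, 14, 11, 15]

noncomputable def v3134 : Cov.CovD where
  P := 3
  N := 4
  pl := [1, 7, 8]
  lev := [⟨[], [], [(0, 1)], [2], [(0, 0, [3, 5]), (2, 1, [])]⟩,
    ⟨[], [(0, 0), (0, 1)], [(0, 1), (1, 1)], [], [(0, 0, [3, 5]), (2, 1, []), (3, 1, [])]⟩,
    ⟨[(0, 1)], [(0, 1), (1, 0), (1, 1), (1, 3), (1, 5)], [(1, 1), (1, 3), (1, 5), (3, 5)],
      [], [(2, 1, []), (3, 1, []), (4, 5, [0]), (5, 3, [0])]⟩,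
    ⟨[(0, 1), (1, 2)], [(0, 0), (1, 0), (1, 1), (2, 1)], [(0, 0), (0, 1)], [4], [(0, 0, [3,
      5]), (3, 1, []), (6, 0, [3, 5])]⟩,
    ⟨[(1, 2)], [(1, 1), (2, 0), (2, 1), (2, 3), (2, 5), (3, 0), (3, 1)], [(0, 1), (0, 3),
      (1, 3)], [], [(3, 1, []), (5, 3, [0]), (6, 0, [3, 5])]⟩,
    ⟨[(2, 4)], [(2, 3), (3, 0), (4, 0), (4, 1), (4, 3)], [(0, 3)], [6], [(5, 3, [0]), (6,
      0, [3, 5])]⟩,
    ⟨[(1, 3)], [(0, 0), (1, 0), (3, 0), (3, 1)], [], [2, 4], [(0, 0, [3, 5])]⟩]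
  Ta := [((0, 1), 0, 2), ((2, 1), 1, 2), ((2, 4), 1, 5), ((3, 6), 1, 0), ((6, 3), 0, 1), ((6, 7),
    0, 4), ((6, 8), 0, 6)]
  Tb := [((1, 0, 2), 2, 0, 1), ((1, 0, 7), 2, 0, 4), ((1, 2, 7), 2, 1, 4), ((2, 1, 4), 1, 2, 5),
    ((4, 2, 5), 5, 1, 3), ((5, 4, 8), 3, 5, 6), ((6, 3, 7), 0, 1, 4), ((6, 3, 8), 0, 1, 6),
    ((6, 7, 8), 0, 4, 6), ((7, 1, 6), 4, 2, 0), ((8, 5, 6), 6, 3, 0)]
  Tc := [(0, 3, 5)]
  Td := [((0, 3), (0, 1), 2), ((0, 3), (6, 3), 1), ((0, 3), (6, 7), 4), ((0, 3), (6, 8), 6), ((0,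
    5), (0, 1), 2), ((0, 5), (6, 3), 1), ((0, 5), (6, 7), 4), ((0, 5), (6, 8), 6), ((3, 0),
    (5, 4), 5), ((3, 0), (5, 8), 6), ((5, 0), (4, 2), 1), ((5, 0), (4, 5), 3)]
  G := [[0, 0, 0x8181a4141ca144, 0xccac1c2188, 0x88c81a22c21ac148], [0, 0, 0x2121c4141cc184, 0,
    0x81886c22a21cc142], [0, 0, 0, 0x95ac56c2188, 0x88a886c22a126cc148], [0,
    0x41c14a61281c88e688c886a4418116ec81a816c14a116cce28, 0, 0, 0x88a286c12a126cc148]]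

noncomputable def n3134 : Ent := ⟨e3134, noF, [], [], [(15, 14, [385746751338780685620664494392815470296102193487288376385323009, 0])]⟩

def c3134 : PLift (Cov.check n3134.C.D v3134 = true) := ⟨by decide +kernel⟩

def b3134 : PLift (entF (fidx ts) 400 3134 n3134 = true) := ⟨by decide +kernel⟩

theorem g3134 : GoodF (fidx ts) 400 3134 := GoodF.ofV v3134 n3134 c3134.down b3134.down

/-- 4666544:2425/3 -/
noncomputable def e3135 : SCfg where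
  D := {
    a := 7
    L := 10
    kp := 7
    inn := [(0, 1), (1, 0), (1, 2), (1, 3), (2, 1), (2, 4), (3, 1), (3, 6), (4, 2), (4, 5), (5, 4), (6,
      3)]
    mix := [(0, 0), (0, 1), (0, 2), (1, 0), (1, 2), (1, 3), (2, 2), (2, 3), (2, 4), (2, 5), (3, 0), (3,
      3), (3, 6), (3, 7), (4, 3), (4, 5), (4, 8), (5, 5), (5, 8), (5, 9), (6, 0), (6, 1), (6, 7)]
    cl := [1, 4, 0, 0, 6, 3, 1, 5, 2, 7]
    chq := [(2, 3), (2, 6), (3, 2), (6, 2)]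
    rng := [(0, 1), (1, 0), (1, 2), (1, 7), (2, 1), (2, 4), (3, 6), (3, 8), (4, 2), (4, 5), (5, 4), (5,
      9), (6, 3), (6, 7), (7, 1), (7, 6), (8, 3), (8, 9), (9, 5), (9, 8)]
    lev := [] }
  links := [[1, 7, 8, 9], [7, 0, 9, 2, 10, 3], [10, 1, 9, 11, 12, 4], [7, 1, 10, 13, 14, 6], [10, 2, 12,
    5, 15], [15, 4, 12, 16], [7, 3, 14, 8]]
  P := {
    a := 7
    N := 17
    nb := [898, 1677, 7698, 25794, 37924, 102416, 16776, 331, 17089, 2311, 40990, 4612, 67636, 17416,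
      8520, 66608, 36896]
    tri := [(0, 1, 7), (0, 1, 9), (0, 7, 8), (0, 8, 9), (1, 2, 9), (1, 2, 10), (1, 3, 7), (1, 3, 10),
      (2, 4, 10), (2, 4, 12), (2, 9, 11), (2, 11, 12), (3, 6, 7), (3, 6, 14), (3, 10, 13), (3, 13,
      14), (4, 5, 12), (4, 5, 15), (4, 10, 15), (5, 12, 16), (5, 15, 16), (6, 7, 8), (6, 8, 14)]
    fin := [0, 1, 2, 0, 2, 5, 0, 0, 8, 1, 1, 2, 5, 0, 14, 15, 16]
    chd := [(2, 15), (5, 15)]
    steps := [(0, 7), (0, 3), (0, 6), (0, 13), (1, 9), (1, 10), (2, 4), (2, 11), (5, 12)] }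
  rep := [1, 0, 15, 5, 8, 14, 2, 16]

noncomputable def v3135 : Cov.CovD where
  P := 3
  N := 5
  pl := [1, 7, 9]
  lev := [⟨[], [], [(0, 1)], [4], [(0, 1, []), (2, 0, [])]⟩,
    ⟨[], [(0, 0), (0, 1)], [(0, 0), (0, 1)], [], [(0, 1, []), (2, 0, []), (3, 0, [])]⟩,
    ⟨[(0, 1)], [(0, 0), (1, 0), (1, 1), (1, 3), (1, 6)], [(0, 0), (0, 3), (0, 6), (3, 6)],
      [], [(2, 0, []), (3, 0, []), (4, 6, [2]), (5, 3, [2])]⟩,
    ⟨[(0, 1), (1, 2)], [(0, 1), (1, 0), (1, 1), (2, 0)], [(0, 1), (1, 1)], [5], [(0, 1,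
      []), (3, 0, []), (6, 1, [])]⟩,
    ⟨[(1, 2)], [(1, 0), (2, 0), (2, 2), (2, 3), (2, 6), (3, 0)], [(0, 2), (0, 3), (2, 3)],
      [], [(3, 0, []), (5, 3, [2]), (8, 2, [3, 6])]⟩,
    ⟨[(2, 4)], [(2, 3), (4, 0), (4, 2), (4, 3)], [(2, 3)], [7], [(5, 3, [2]), (8, 2, [3,
      6])]⟩,
    ⟨[(1, 3)], [(0, 1), (1, 1), (3, 0), (3, 1)], [], [4, 5], [(0, 1, [])]⟩]
  Ta := [((0, 1), 1, 4), ((2, 1), 0, 4), ((2, 4), 0, 6), ((3, 6), 0, 1), ((3, 8), 0, 2), ((6, 3),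
    1, 0), ((6, 7), 1, 5)]
  Tb := [((1, 0, 2), 4, 1, 0), ((1, 0, 7), 4, 1, 5), ((1, 2, 7), 4, 0, 5), ((2, 1, 4), 0, 4, 6),
    ((3, 6, 8), 0, 1, 2), ((4, 2, 5), 6, 0, 3), ((5, 4, 9), 3, 6, 7), ((6, 3, 7), 1, 0, 5),
    ((7, 1, 6), 5, 4, 1), ((8, 3, 9), 2, 0, 7), ((9, 5, 8), 7, 3, 2)]
  Tc := [(2, 3, 6)]
  Td := [((2, 3), (8, 3), 0), ((2, 3), (8, 9), 7), ((2, 6), (8, 3), 0), ((2, 6), (8, 9), 7), ((3,
    2), (5, 4), 6), ((3, 2), (5, 9), 7), ((6, 2), (4, 2), 0), ((6, 2), (4, 5), 3)]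
  G := [[0, 0, 0, 0x889885c119115cc24119115c449445cc28c, 0x999993a889883a548119113a449443ac48c],
    [0, 0, 0, 0x88542298924119115ccc9555cc28a, 0x119113add9dd3a889883ad482], [0, 0,
    0x55c5d6a412516d8e46ddc55a611c99a6c99c916a81da9d6c8ec1, 0x444428119155cdd9995cc285,
    0x119153add9d93ac481], [0, 0x119115c424119115c224119115c828e,
    0x1221c18e12c22a6c22c226a811a116c22a226cce11c116a4461, 0x129125c219215cc241,
    0x159113ad99dd3ac482]]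

noncomputable def n3135 : Ent := ⟨e3135, noF, [], [], [(8, 16, [1580044410770988437309982408355971841652082177953823432505701933057, 0]), (16, 14, [1580095832788404724998799751142926758855362888449624481876431589377, 0]), (15, 13, [1685356714993749094781261963711221120386310105559083432688081952769, 0])]⟩

def c3135 : PLift (Cov.check n3135.C.D v3135 = true) := ⟨by decide +kernel⟩

def b3135 : PLift (entF (fidx ts) 400 3135 n3135 = true) := ⟨by decide +kernel⟩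

theorem g3135 : GoodF (fidx ts) 400 3135 := GoodF.ofV v3135 n3135 c3135.down b3135.down

/-- 4666544:2425/8 -/
noncomputable def e3136 : SCfg where
  D := {
    a := 7
    L := 9
    kp := 6
    inn := [(0, 1), (1, 0), (1, 2), (1, 3), (2, 1), (2, 4), (3, 1), (3, 6), (4, 2), (4, 5), (5, 4), (6,
      3)]
    mix := [(0, 0), (0, 1), (0, 2), (1, 0), (1, 2), (1, 3), (2, 2), (2, 3), (2, 4), (2, 5), (3, 0), (3,
      3), (3, 6), (3, 7), (4, 3), (4, 5), (4, 6), (5, 5), (5, 6), (5, 7), (6, 0), (6, 7), (6, 8)]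
    cl := [0, 5, 1, 1, 4, 3, 0, 2, 6]
    chq := [(0, 3), (0, 4), (3, 0), (4, 0)]
    rng := [(0, 1), (0, 8), (1, 0), (1, 2), (2, 1), (2, 4), (3, 6), (4, 2), (4, 5), (5, 4), (5, 7), (6,
      3), (6, 7), (7, 5), (7, 6), (7, 8), (8, 0), (8, 7)]
    lev := [] }
  links := [[1, 7, 8, 9], [7, 0, 9, 2, 10, 3], [10, 1, 9, 11, 12, 4], [7, 1, 10, 13, 14, 6], [10, 2, 12,
    5, 13], [13, 4, 12, 14], [7, 3, 14, 15]]
  P := {
    a := 7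
    N := 16
    nb := [898, 1677, 7698, 25794, 13348, 28688, 49288, 33099, 641, 2311, 8222, 4612, 18484, 17464,
      45160, 16576]
    tri := [(0, 1, 7), (0, 1, 9), (0, 7, 8), (0, 8, 9), (1, 2, 9), (1, 2, 10), (1, 3, 7), (1, 3, 10),
      (2, 4, 10), (2, 4, 12), (2, 9, 11), (2, 11, 12), (3, 6, 7), (3, 6, 14), (3, 10, 13), (3, 13,
      14), (4, 5, 12), (4, 5, 13), (4, 10, 13), (5, 12, 14), (5, 13, 14), (6, 7, 15), (6, 14, 15)]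
    fin := [0, 1, 0, 0, 0, 0, 0, 0, 8, 1, 1, 11, 12, 0, 14, 15]
    chd := [(0, 11), (0, 12)]
    steps := [(0, 7), (0, 3), (0, 6), (0, 13), (0, 4), (0, 5), (1, 9), (1, 10), (0, 2)] }
  rep := [0, 1, 14, 12, 11, 8, 15]

noncomputable def v3136 : Cov.CovD where
  P := 3
  N := 4
  pl := [1, 7, 8]
  lev := [⟨[], [], [(0, 1)], [5], [(0, 0, [3, 4]), (2, 1, [])]⟩,
    ⟨[], [(0, 0), (0, 1)], [(0, 1), (1, 1)], [], [(0, 0, [3, 4]), (2, 1, []), (3, 1, [])]⟩,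
    ⟨[(0, 1)], [(0, 1), (1, 0), (1, 1), (1, 3), (1, 4)], [(1, 1), (1, 3), (1, 4), (3, 4)],
      [], [(2, 1, []), (3, 1, []), (4, 4, [0]), (5, 3, [0])]⟩,
    ⟨[(0, 1), (1, 2)], [(0, 0), (1, 0), (1, 1), (2, 1)], [(0, 0), (0, 1)], [2], [(0, 0, [3,
      4]), (3, 1, []), (6, 0, [3, 4])]⟩,
    ⟨[(1, 2)], [(1, 1), (2, 0), (2, 1), (2, 3), (2, 4), (3, 0), (3, 1)], [(0, 1), (0, 3),
      (1, 3)], [], [(3, 1, []), (5, 3, [0]), (6, 0, [3, 4])]⟩,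
    ⟨[(2, 4)], [(2, 3), (3, 0), (4, 0), (4, 1), (4, 3)], [(0, 3)], [2], [(5, 3, [0]), (6,
      0, [3, 4])]⟩,
    ⟨[(1, 3)], [(0, 0), (1, 0), (3, 0), (3, 1)], [], [2, 6], [(0, 0, [3, 4])]⟩]
  Ta := [((0, 1), 0, 5), ((0, 8), 0, 6), ((2, 1), 1, 5), ((2, 4), 1, 4), ((3, 6), 1, 0), ((6, 3),
    0, 1), ((6, 7), 0, 2)]
  Tb := [((0, 1, 8), 0, 5, 6), ((1, 0, 2), 5, 0, 1), ((2, 1, 4), 1, 5, 4), ((4, 2, 5), 4, 1, 3),
    ((5, 4, 7), 3, 4, 2), ((6, 3, 7), 0, 1, 2), ((7, 5, 6), 2, 3, 0), ((7, 5, 8), 2, 3, 6),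
    ((7, 6, 8), 2, 0, 6), ((8, 0, 7), 6, 0, 2)]
  Tc := [(0, 3, 4)]
  Td := [((0, 3), (0, 1), 5), ((0, 3), (0, 8), 6), ((0, 3), (6, 3), 1), ((0, 3), (6, 7), 2), ((0,
    4), (0, 1), 5), ((0, 4), (0, 8), 6), ((0, 4), (6, 3), 1), ((0, 4), (6, 7), 2), ((3, 0),
    (5, 4), 4), ((3, 0), (5, 7), 2), ((4, 0), (4, 2), 1), ((4, 0), (4, 5), 3)]
  G := [[0, 0, 0, 0xc8c4c814c4c16418c, 0xa8a1c814a8a2c814c], [0, 0, 0, 0xc8c4c8142,
    0xa8a1c8142], [0, 0, 0xa8a4c4181, 0x1814c4141814a818c, 0xa8a2c8141], [0,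
    0x1418a41414a81814c8e21818681814a811c28e46, 0x6864c8181, 0x1814c8142, 0x1812c8182]]

noncomputable def n3136 : Ent := ⟨e3136, noF, [], [], [(8, 15, [360035742630636841211993100915356868655746945586763691020500993, 0])]⟩

def c3136 : PLift (Cov.check n3136.C.D v3136 = true) := ⟨by decide +kernel⟩

def b3136 : PLift (entF (fidx ts) 400 3136 n3136 = true) := ⟨by decide +kernel⟩

theorem g3136 : GoodF (fidx ts) 400 3136 := GoodF.ofV v3136 n3136 c3136.down b3136.down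

/-- 4666544:2425/7 -/
noncomputable def e3137 : SCfg where
  D := {
    a := 7
    L := 10
    kp := 7
    inn := [(0, 1), (1, 0), (1, 2), (1, 3), (2, 1), (2, 4), (3, 1), (3, 6), (4, 2), (4, 5), (5, 4), (6,
      3)]
    mix := [(0, 0), (0, 1), (0, 2), (1, 0), (1, 2), (1, 3), (2, 2), (2, 3), (2, 4), (2, 5), (3, 0), (3,
      3), (3, 6), (3, 7), (4, 3), (4, 5), (4, 8), (5, 5), (5, 7), (5, 8), (6, 0), (6, 7), (6, 9)]
    cl := [1, 6, 0, 0, 5, 3, 1, 4, 2, 7]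
    chq := [(2, 3), (2, 5), (3, 2), (5, 2)]
    rng := [(0, 1), (0, 9), (1, 0), (1, 2), (2, 1), (2, 4), (3, 6), (3, 8), (4, 2), (4, 5), (5, 4), (5,
      7), (6, 3), (6, 7), (7, 5), (7, 6), (7, 8), (7, 9), (8, 3), (8, 7), (9, 0), (9, 7)]
    lev := [] }
  links := [[1, 7, 8, 9], [7, 0, 9, 2, 10, 3], [10, 1, 9, 11, 12, 4], [7, 1, 10, 13, 14, 6], [10, 2, 12,
    5, 15], [15, 4, 12, 14], [7, 3, 14, 16]]
  P := {
    a := 7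
    N := 17
    nb := [898, 1677, 7698, 25794, 37924, 53264, 82056, 65867, 641, 2311, 40990, 4612, 18484, 17416,
      110696, 17456, 16576]
    tri := [(0, 1, 7), (0, 1, 9), (0, 7, 8), (0, 8, 9), (1, 2, 9), (1, 2, 10), (1, 3, 7), (1, 3, 10),
      (2, 4, 10), (2, 4, 12), (2, 9, 11), (2, 11, 12), (3, 6, 7), (3, 6, 14), (3, 10, 13), (3, 13,
      14), (4, 5, 12), (4, 5, 15), (4, 10, 15), (5, 12, 14), (5, 14, 15), (6, 7, 16), (6, 14, 16)]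
    fin := [0, 1, 2, 0, 2, 5, 0, 0, 8, 1, 1, 2, 5, 0, 14, 15, 16]
    chd := [(2, 15), (5, 15)]
    steps := [(0, 7), (0, 3), (0, 6), (0, 13), (1, 9), (1, 10), (2, 4), (2, 11), (5, 12)] }
  rep := [1, 0, 15, 5, 14, 2, 8, 16]

noncomputable def v3137 : Cov.CovD where
  P := 3
  N := 5
  pl := [1, 7, 9]
  lev := [⟨[], [], [(0, 1)], [6], [(0, 1, []), (2, 0, [])]⟩,
    ⟨[], [(0, 0), (0, 1)], [(0, 0), (0, 1)], [], [(0, 1, []), (2, 0, []), (3, 0, [])]⟩,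
    ⟨[(0, 1)], [(0, 0), (1, 0), (1, 1), (1, 3), (1, 5)], [(0, 0), (0, 3), (0, 5), (3, 5)],
      [], [(2, 0, []), (3, 0, []), (4, 5, [2]), (5, 3, [2])]⟩,
    ⟨[(0, 1), (1, 2)], [(0, 1), (1, 0), (1, 1), (2, 0)], [(0, 1), (1, 1)], [4], [(0, 1,
      []), (3, 0, []), (6, 1, [])]⟩,
    ⟨[(1, 2)], [(1, 0), (2, 0), (2, 2), (2, 3), (2, 5), (3, 0)], [(0, 2), (0, 3), (2, 3)],
      [], [(3, 0, []), (5, 3, [2]), (8, 2, [3, 5])]⟩,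
    ⟨[(2, 4)], [(2, 3), (4, 0), (4, 2), (4, 3)], [(2, 3)], [4], [(5, 3, [2]), (8, 2, [3,
      5])]⟩,
    ⟨[(1, 3)], [(0, 1), (1, 1), (3, 0), (3, 1)], [], [4, 7], [(0, 1, [])]⟩]
  Ta := [((0, 1), 1, 6), ((0, 9), 1, 7), ((2, 1), 0, 6), ((2, 4), 0, 5), ((3, 6), 0, 1), ((3, 8),
    0, 2), ((6, 3), 1, 0), ((6, 7), 1, 4)]
  Tb := [((0, 1, 9), 1, 6, 7), ((1, 0, 2), 6, 1, 0), ((2, 1, 4), 0, 6, 5), ((3, 6, 8), 0, 1, 2),
    ((4, 2, 5), 5, 0, 3), ((5, 4, 7), 3, 5, 4), ((6, 3, 7), 1, 0, 4), ((7, 5, 6), 4, 3, 1),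
    ((7, 5, 8), 4, 3, 2), ((7, 5, 9), 4, 3, 7), ((7, 6, 8), 4, 1, 2), ((7, 6, 9), 4, 1, 7),
    ((7, 8, 9), 4, 2, 7), ((8, 3, 7), 2, 0, 4), ((9, 0, 7), 7, 1, 4)]
  Tc := [(2, 3, 5)]
  Td := [((2, 3), (8, 3), 0), ((2, 3), (8, 7), 4), ((2, 5), (8, 3), 0), ((2, 5), (8, 7), 4), ((3,
    2), (5, 4), 5), ((3, 2), (5, 7), 4), ((5, 2), (4, 2), 0), ((5, 2), (4, 5), 3)]
  G := [[0, 0, 0, 0x51d4c81452d811c82c51d4c42d891c82cc, 0xc59d2a449892984c1112ac59d2a8182ad48c],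
    [0, 0, 0, 0x2821c2124cc242821c2124cc28c, 0x18129c59d13a8881ad482], [0, 0,
    0x5452645452c41245254ace9898689892a89882c8ec1, 0x51d4c42d891c82c1, 0xc59d2a449892a84c1],
    [0, 0x1811c1114ca281811c1114ca246, 0x2454a44289862268c2822a89822c22b4ccec1,
    0x2821c2124cc241, 0x7822a21293ac481]]

noncomputable def n3137 : Ent := ⟨e3137, noF, [], [], [(8, 16, [1580044410770988437309982408355971841652082177953823432505701945345, 0]), (15, 13, [1685356714993749094781261963711221120386310105559083432688081960961, 0])]⟩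

def c3137 : PLift (Cov.check n3137.C.D v3137 = true) := ⟨by decide +kernel⟩

def b3137 : PLift (entF (fidx ts) 400 3137 n3137 = true) := ⟨by decide +kernel⟩

theorem g3137 : GoodF (fidx ts) 400 3137 := GoodF.ofV v3137 n3137 c3137.down b3137.down

/-- 4666544:2425/9 -/
noncomputable def e3138 : SCfg where
  D := {
    a := 7
    L := 10
    kp := 7
    inn := [(0, 1), (1, 0), (1, 2), (1, 3), (2, 1), (2, 4), (3, 1), (3, 6), (4, 2), (4, 5), (5, 4), (6,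
      3)]
    mix := [(0, 0), (0, 1), (0, 2), (1, 0), (1, 2), (1, 3), (2, 2), (2, 3), (2, 4), (2, 5), (3, 0), (3,
      3), (3, 6), (3, 7), (4, 3), (4, 5), (4, 8), (5, 5), (5, 8), (5, 9), (6, 0), (6, 7), (6, 9)]
    cl := [1, 7, 0, 0, 6, 3, 1, 4, 2, 5]
    chq := [(2, 3), (2, 6), (3, 2), (6, 2)]
    rng := [(0, 1), (0, 9), (1, 0), (1, 2), (2, 1), (2, 4), (3, 6), (3, 8), (4, 2), (4, 5), (5, 4), (5,
      9), (6, 3), (6, 7), (7, 6), (7, 9), (8, 3), (8, 9), (9, 0), (9, 5), (9, 7), (9, 8)]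
    lev := [] }
  links := [[1, 7, 8, 9], [7, 0, 9, 2, 10, 3], [10, 1, 9, 11, 12, 4], [7, 1, 10, 13, 14, 6], [10, 2, 12,
    5, 15], [15, 4, 12, 16], [7, 3, 14, 16]]
  P := {
    a := 7
    N := 17
    nb := [898, 1677, 7698, 25794, 37924, 102416, 82056, 65867, 641, 2311, 40990, 4612, 67636, 17416,
      73800, 66608, 53472]
    tri := [(0, 1, 7), (0, 1, 9), (0, 7, 8), (0, 8, 9), (1, 2, 9), (1, 2, 10), (1, 3, 7), (1, 3, 10),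
      (2, 4, 10), (2, 4, 12), (2, 9, 11), (2, 11, 12), (3, 6, 7), (3, 6, 14), (3, 10, 13), (3, 13,
      14), (4, 5, 12), (4, 5, 15), (4, 10, 15), (5, 12, 16), (5, 15, 16), (6, 7, 16), (6, 14, 16)]
    fin := [0, 1, 2, 0, 2, 5, 0, 0, 8, 1, 1, 2, 5, 0, 14, 15, 16]
    chd := [(2, 15), (5, 15)]
    steps := [(0, 7), (0, 3), (0, 6), (0, 13), (1, 9), (1, 10), (2, 4), (2, 11), (5, 12)] }
  rep := [1, 0, 15, 5, 14, 16, 2, 8]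

noncomputable def v3138 : Cov.CovD where
  P := 3
  N := 5
  pl := [1, 7, 9]
  lev := [⟨[], [], [(0, 1)], [7], [(0, 1, []), (2, 0, [])]⟩,
    ⟨[], [(0, 0), (0, 1)], [(0, 0), (0, 1)], [], [(0, 1, []), (2, 0, []), (3, 0, [])]⟩,
    ⟨[(0, 1)], [(0, 0), (1, 0), (1, 1), (1, 3), (1, 6)], [(0, 0), (0, 3), (0, 6), (3, 6)],
      [], [(2, 0, []), (3, 0, []), (4, 6, [2]), (5, 3, [2])]⟩,
    ⟨[(0, 1), (1, 2)], [(0, 1), (1, 0), (1, 1), (2, 0)], [(0, 1), (1, 1)], [4], [(0, 1,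
      []), (3, 0, []), (6, 1, [])]⟩,
    ⟨[(1, 2)], [(1, 0), (2, 0), (2, 2), (2, 3), (2, 6), (3, 0)], [(0, 2), (0, 3), (2, 3)],
      [], [(3, 0, []), (5, 3, [2]), (8, 2, [3, 6])]⟩,
    ⟨[(2, 4)], [(2, 3), (4, 0), (4, 2), (4, 3)], [(2, 3)], [5], [(5, 3, [2]), (8, 2, [3,
      6])]⟩,
    ⟨[(1, 3)], [(0, 1), (1, 1), (3, 0), (3, 1)], [], [4, 5], [(0, 1, [])]⟩]
  Ta := [((0, 1), 1, 7), ((0, 9), 1, 5), ((2, 1), 0, 7), ((2, 4), 0, 6), ((3, 6), 0, 1), ((3, 8),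
    0, 2), ((6, 3), 1, 0), ((6, 7), 1, 4)]
  Tb := [((0, 1, 9), 1, 7, 5), ((1, 0, 2), 7, 1, 0), ((2, 1, 4), 0, 7, 6), ((3, 6, 8), 0, 1, 2),
    ((4, 2, 5), 6, 0, 3), ((5, 4, 9), 3, 6, 5), ((6, 3, 7), 1, 0, 4), ((7, 6, 9), 4, 1, 5),
    ((8, 3, 9), 2, 0, 5), ((9, 0, 5), 5, 1, 3), ((9, 0, 7), 5, 1, 4), ((9, 0, 8), 5, 1, 2),
    ((9, 5, 7), 5, 3, 4), ((9, 5, 8), 5, 3, 2), ((9, 7, 8), 5, 4, 2)]
  Tc := [(2, 3, 6)]
  Td := [((2, 3), (8, 3), 0), ((2, 3), (8, 9), 5), ((2, 6), (8, 3), 0), ((2, 6), (8, 9), 5), ((3,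
    2), (5, 4), 6), ((3, 2), (5, 9), 5), ((6, 2), (4, 2), 0), ((6, 2), (4, 5), 3)]
  G := [[0, 0, 0, 0x549415c42819985c82c549415c42819985c82cc,
    0x549453a8832549158881992a81218ec11113a5c9d43a8882ad48c], [0, 0, 0,
    0x419141dc42859985c82c2, 0x1112ac59d2a8882ad482], [0, 0,
    0x94c116a414a416c4685c85a61211c18ec11c586a81218688e8ec1, 0x519415c42859985c82c1,
    0x15511a419543ac4886888892a88282c8ec1], [0, 0x112d11c228119115c828119115c424e,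
    0x81c12622628cc22c22a82212c1222cce1411ac4461, 0x229215ca49425cc281, 0x81992a54952ac421]]

noncomputable def n3138 : Ent := ⟨e3138, noF, [], [], [(8, 16, [1580044410770988437309982408355971841652082177953823432505701933057, 0])]⟩

def c3138 : PLift (Cov.check n3138.C.D v3138 = true) := ⟨by decide +kernel⟩

def b3138 : PLift (entF (fidx ts) 400 3138 n3138 = true) := ⟨by decide +kernel⟩

theorem g3138 : GoodF (fidx ts) 400 3138 := GoodF.ofV v3138 n3138 c3138.down b3138.down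

/-- 4666544:2425/10 -/
noncomputable def e3139 : SCfg where
  D := {
    a := 7
    L := 10
    kp := 7
    inn := [(0, 1), (1, 0), (1, 2), (1, 3), (2, 1), (2, 4), (3, 1), (3, 6), (4, 2), (4, 5), (5, 4), (6,
      3)]
    mix := [(0, 0), (0, 1), (0, 2), (1, 0), (1, 2), (1, 3), (2, 2), (2, 3), (2, 4), (2, 5), (3, 0), (3,
      3), (3, 6), (3, 7), (4, 3), (4, 5), (4, 6), (5, 5), (5, 6), (5, 8), (6, 0), (6, 7), (6, 9)]
    cl := [0, 5, 1, 1, 4, 3, 0, 2, 6, 7]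
    chq := [(0, 3), (0, 4), (3, 0), (4, 0)]
    rng := [(0, 1), (0, 9), (1, 0), (1, 2), (2, 1), (2, 4), (3, 6), (4, 2), (4, 5), (5, 4), (5, 8), (6,
      3), (6, 7), (6, 8), (7, 6), (7, 9), (8, 5), (8, 6), (9, 0), (9, 7)]
    lev := [] }
  links := [[1, 7, 8, 9], [7, 0, 9, 2, 10, 3], [10, 1, 9, 11, 12, 4], [7, 1, 10, 13, 14, 6], [10, 2, 12,
    5, 13], [13, 4, 12, 15], [7, 3, 14, 16]]
  P := {
    a := 7
    N := 17
    nb := [898, 1677, 7698, 25794, 13348, 45072, 82056, 65867, 641, 2311, 8222, 4612, 34868, 50232,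
      73800, 12320, 16576]
    tri := [(0, 1, 7), (0, 1, 9), (0, 7, 8), (0, 8, 9), (1, 2, 9), (1, 2, 10), (1, 3, 7), (1, 3, 10),
      (2, 4, 10), (2, 4, 12), (2, 9, 11), (2, 11, 12), (3, 6, 7), (3, 6, 14), (3, 10, 13), (3, 13,
      14), (4, 5, 12), (4, 5, 13), (4, 10, 13), (5, 12, 15), (5, 13, 15), (6, 7, 16), (6, 14, 16)]
    fin := [0, 1, 0, 0, 0, 0, 0, 0, 8, 1, 1, 11, 12, 0, 14, 15, 16]
    chd := [(0, 11), (0, 12)]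
    steps := [(0, 7), (0, 3), (0, 6), (0, 13), (0, 4), (0, 5), (1, 9), (1, 10), (0, 2)] }
  rep := [0, 1, 14, 12, 11, 8, 15, 16]

noncomputable def v3139 : Cov.CovD where
  P := 3
  N := 5
  pl := [1, 7, 8, 9]
  lev := [⟨[], [], [(0, 1)], [5], [(0, 0, [3, 4]), (2, 1, [])]⟩,
    ⟨[], [(0, 0), (0, 1)], [(0, 1), (1, 1)], [], [(0, 0, [3, 4]), (2, 1, []), (3, 1, [])]⟩,
    ⟨[(0, 1)], [(0, 1), (1, 0), (1, 1), (1, 3), (1, 4)], [(1, 1), (1, 3), (1, 4), (3, 4)],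
      [], [(2, 1, []), (3, 1, []), (4, 4, [0]), (5, 3, [0])]⟩,
    ⟨[(0, 1), (1, 2)], [(0, 0), (1, 0), (1, 1), (2, 1)], [(0, 0), (0, 1)], [2], [(0, 0, [3,
      4]), (3, 1, []), (6, 0, [3, 4])]⟩,
    ⟨[(1, 2)], [(1, 1), (2, 0), (2, 1), (2, 3), (2, 4), (3, 0), (3, 1)], [(0, 1), (0, 3),
      (1, 3)], [], [(3, 1, []), (5, 3, [0]), (6, 0, [3, 4])]⟩,
    ⟨[(2, 4)], [(2, 3), (3, 0), (4, 0), (4, 1), (4, 3)], [(0, 3)], [6], [(5, 3, [0]), (6,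
      0, [3, 4])]⟩,
    ⟨[(1, 3)], [(0, 0), (1, 0), (3, 0), (3, 1)], [], [2, 7], [(0, 0, [3, 4])]⟩]
  Ta := [((0, 1), 0, 5), ((0, 9), 0, 7), ((2, 1), 1, 5), ((2, 4), 1, 4), ((3, 6), 1, 0), ((6, 3),
    0, 1), ((6, 7), 0, 2), ((6, 8), 0, 6)]
  Tb := [((0, 1, 9), 0, 5, 7), ((1, 0, 2), 5, 0, 1), ((2, 1, 4), 1, 5, 4), ((4, 2, 5), 4, 1, 3),
    ((5, 4, 8), 3, 4, 6), ((6, 3, 7), 0, 1, 2), ((6, 3, 8), 0, 1, 6), ((6, 7, 8), 0, 2, 6),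
    ((7, 6, 9), 2, 0, 7), ((8, 5, 6), 6, 3, 0), ((9, 0, 7), 7, 0, 2)]
  Tc := [(0, 3, 4)]
  Td := [((0, 3), (0, 1), 5), ((0, 3), (0, 9), 7), ((0, 3), (6, 3), 1), ((0, 3), (6, 7), 2), ((0,
    3), (6, 8), 6), ((0, 4), (0, 1), 5), ((0, 4), (0, 9), 7), ((0, 4), (6, 3), 1), ((0, 4),
    (6, 7), 2), ((0, 4), (6, 8), 6), ((3, 0), (5, 4), 4), ((3, 0), (5, 8), 6), ((4, 0), (4,
    2), 1), ((4, 0), (4, 5), 3)]
  G := [[0, 0, 0, 0x1c91c3c814cccc16814c, 0xaaca1a814a1aa6c814c], [0, 0, 0, 0xc1cc6c4182,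
    0x11aba1c8142], [0, 0, 0xccacc6c2141, 0xccacc6c8141, 0x22a226c88a886ca181], [0,
    0x11c11a6411c116a811a116c4e211c11a6411c116a811a116c8e8c, 0x66a666c8182, 0x11a116c8142,
    0x11a116c8182]]

noncomputable def n3139 : Ent := ⟨e3139, noF, [], [], [(8, 16, [1580044410770988437309982408355971841652082177953823432505701949441, 0]), (15, 14, [1685382413448253767852309107433119732572617628602273068445377757185, 0])]⟩

def c3139 : PLift (Cov.check n3139.C.D v3139 = true) := ⟨by decide +kernel⟩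

def b3139 : PLift (entF (fidx ts) 400 3139 n3139 = true) := ⟨by decide +kernel⟩

theorem g3139 : GoodF (fidx ts) 400 3139 := GoodF.ofV v3139 n3139 c3139.down b3139.down

/-- 4666544:2425 -/
noncomputable def e3140 : SCfg where
  D := {
    a := 7
    L := 11
    kp := 8
    inn := [(0, 1), (1, 0), (1, 2), (1, 3), (2, 1), (2, 4), (3, 1), (3, 6), (4, 2), (4, 5), (5, 4), (6,
      3)]
    mix := [(0, 0), (0, 1), (0, 2), (1, 0), (1, 2), (1, 3), (2, 2), (2, 3), (2, 4), (2, 5), (3, 0), (3,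
      3), (3, 6), (3, 7), (4, 3), (4, 5), (4, 8), (5, 5), (5, 8), (5, 9), (6, 0), (6, 7), (6, 10)]
    cl := [1, 6, 0, 0, 5, 3, 1, 4, 2, 7, 8]
    chq := [(2, 3), (2, 5), (3, 2), (5, 2)]
    rng := [(0, 1), (0, 10), (1, 0), (1, 2), (2, 1), (2, 4), (3, 6), (3, 8), (4, 2), (4, 5), (5, 4),
      (5, 9), (6, 3), (6, 7), (7, 6), (7, 10), (8, 3), (8, 9), (9, 5), (9, 8), (10, 0), (10, 7)]
    lev := [] }
  links := [[1, 7, 8, 9], [7, 0, 9, 2, 10, 3], [10, 1, 9, 11, 12, 4], [7, 1, 10, 13, 14, 6], [10, 2, 12,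
    5, 15], [15, 4, 12, 16], [7, 3, 14, 17]]
  P := {
    a := 7
    N := 18
    nb := [898, 1677, 7698, 25794, 37924, 102416, 147592, 131403, 641, 2311, 40990, 4612, 67636,
      17416, 139336, 66608, 36896, 16576]
    tri := [(0, 1, 7), (0, 1, 9), (0, 7, 8), (0, 8, 9), (1, 2, 9), (1, 2, 10), (1, 3, 7), (1, 3, 10),
      (2, 4, 10), (2, 4, 12), (2, 9, 11), (2, 11, 12), (3, 6, 7), (3, 6, 14), (3, 10, 13), (3, 13,
      14), (4, 5, 12), (4, 5, 15), (4, 10, 15), (5, 12, 16), (5, 15, 16), (6, 7, 17), (6, 14, 17)]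
    fin := [0, 1, 2, 0, 2, 5, 0, 0, 8, 1, 1, 2, 5, 0, 14, 15, 16, 17]
    chd := [(2, 15), (5, 15)]
    steps := [(0, 7), (0, 3), (0, 6), (0, 13), (1, 9), (1, 10), (2, 4), (2, 11), (5, 12)] }
  rep := [1, 0, 15, 5, 14, 2, 8, 16, 17]

noncomputable def v3140 : Cov.CovD where
  P := 3
  N := 6
  pl := [1, 7, 9, 10]
  lev := [⟨[], [], [(0, 1)], [6], [(0, 1, []), (2, 0, [])]⟩,
    ⟨[], [(0, 0), (0, 1)], [(0, 0), (0, 1)], [], [(0, 1, []), (2, 0, []), (3, 0, [])]⟩,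
    ⟨[(0, 1)], [(0, 0), (1, 0), (1, 1), (1, 3), (1, 5)], [(0, 0), (0, 3), (0, 5), (3, 5)],
      [], [(2, 0, []), (3, 0, []), (4, 5, [2]), (5, 3, [2])]⟩,
    ⟨[(0, 1), (1, 2)], [(0, 1), (1, 0), (1, 1), (2, 0)], [(0, 1), (1, 1)], [4], [(0, 1,
      []), (3, 0, []), (6, 1, [])]⟩,
    ⟨[(1, 2)], [(1, 0), (2, 0), (2, 2), (2, 3), (2, 5), (3, 0)], [(0, 2), (0, 3), (2, 3)],
      [], [(3, 0, []), (5, 3, [2]), (8, 2, [3, 5])]⟩,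
    ⟨[(2, 4)], [(2, 3), (4, 0), (4, 2), (4, 3)], [(2, 3)], [7], [(5, 3, [2]), (8, 2, [3,
      5])]⟩,
    ⟨[(1, 3)], [(0, 1), (1, 1), (3, 0), (3, 1)], [], [4, 8], [(0, 1, [])]⟩]
  Ta := [((0, 1), 1, 6), ((0, 10), 1, 8), ((2, 1), 0, 6), ((2, 4), 0, 5), ((3, 6), 0, 1), ((3,
    8), 0, 2), ((6, 3), 1, 0), ((6, 7), 1, 4)]
  Tb := [((0, 1, 10), 1, 6, 8), ((1, 0, 2), 6, 1, 0), ((2, 1, 4), 0, 6, 5), ((3, 6, 8), 0, 1, 2),
    ((4, 2, 5), 5, 0, 3), ((5, 4, 9), 3, 5, 7), ((6, 3, 7), 1, 0, 4), ((7, 6, 10), 4, 1, 8),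
    ((8, 3, 9), 2, 0, 7), ((9, 5, 8), 7, 3, 2), ((10, 0, 7), 8, 1, 4)]
  Tc := [(2, 3, 5)]
  Td := [((2, 3), (8, 3), 0), ((2, 3), (8, 9), 7), ((2, 5), (8, 3), 0), ((2, 5), (8, 9), 7), ((3,
    2), (5, 4), 5), ((3, 2), (5, 9), 7), ((5, 2), (4, 2), 0), ((5, 2), (4, 5), 3)]
  G := [[0, 0, 0, 0x559555c42999995c82c119115cdd9dd5c889885cd28c,
    0x559553a44919898999993a8999d28ec119113add9dd3a889883ad48c], [0, 0, 0,
    0x119155cdd9d95c8898c5cd282, 0x159113ad99dd3a8c9883ad482], [0, 0,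
    0x55c55a645455a54e45255658e4e99c99a6899c996a899a996c8ec1, 0x559555c42999995c82c1,
    0x18113a559553ac4889788899883a8888d28ec1], [0, 0x119115c119115ca24119115c119115c6286,
    0x55c5ba6422c2224e422a226c55a5e6cce22c22a6899ce96a8cc1, 0x329335c659665cc281,
    0x329223aa59553ac481]]

noncomputable def n3140 : Ent := ⟨e3140, noF, [], [], [(8, 16, [7334685537875745012586738086077695515070955365108989538292687706501121, 0]), (8, 17, [6903326391201334775872065844685381424292761054348340378595029942530049, 0]), (16, 14, [7334685589297762428874426903420482469988158645819485339342058436169729, 0]), (16, 17, [6903326391201334775872065844685381424292761054348340378595029942542337, 0]), (15, 13, [7334790850179967773244209365633050764349689593036594798292870086537217, 0])]⟩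

def c3140 : PLift (Cov.check n3140.C.D v3140 = true) := ⟨by decide +kernel⟩

def b3140 : PLift (entF (fidx ts) 400 3140 n3140 = true) := ⟨by decide +kernel⟩

theorem g3140 : GoodF (fidx ts) 400 3140 := GoodF.ofV v3140 n3140 c3140.down b3140.down

/-- 4666544:2426/2 -/
noncomputable def e3141 : SCfg where
  D := {
    a := 7
    L := 9
    kp := 6
    inn := [(0, 1), (1, 0), (1, 2), (1, 3), (2, 1), (2, 4), (3, 1), (3, 6), (4, 2), (4, 5), (5, 4), (6,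
      3)]
    mix := [(0, 0), (0, 1), (0, 2), (1, 0), (1, 2), (1, 3), (2, 2), (2, 3), (2, 4), (2, 5), (3, 0), (3,
      3), (3, 6), (3, 7), (4, 3), (4, 5), (4, 8), (5, 3), (5, 6), (5, 8), (6, 0), (6, 1), (6, 7)]
    cl := [1, 4, 0, 0, 6, 3, 1, 2, 5]
    chq := [(0, 3), (1, 3), (3, 0), (3, 1)]
    rng := [(0, 1), (1, 0), (1, 2), (1, 7), (2, 1), (2, 4), (3, 6), (4, 2), (4, 5), (5, 4), (5, 8), (6,
      3), (6, 7), (6, 8), (7, 1), (7, 6), (8, 5), (8, 6)]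
    lev := [] }
  links := [[1, 7, 8, 9], [7, 0, 9, 2, 10, 3], [10, 1, 9, 11, 12, 4], [7, 1, 10, 13, 14, 6], [10, 2, 12,
    15, 5], [10, 4, 15, 13], [7, 3, 14, 8]]
  P := {
    a := 7
    N := 16
    nb := [898, 1677, 7698, 25794, 37924, 42000, 16776, 331, 17089, 2311, 8254, 4612, 34836, 50216,
      8520, 12336]
    tri := [(0, 1, 7), (0, 1, 9), (0, 7, 8), (0, 8, 9), (1, 2, 9), (1, 2, 10), (1, 3, 7), (1, 3, 10),
      (2, 4, 10), (2, 4, 12), (2, 9, 11), (2, 11, 12), (3, 6, 7), (3, 6, 14), (3, 10, 13), (3, 13,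
      14), (4, 5, 10), (4, 5, 15), (4, 12, 15), (5, 10, 13), (5, 13, 15), (6, 7, 8), (6, 8, 14)]
    fin := [0, 0, 2, 0, 0, 0, 0, 0, 8, 2, 2, 11, 12, 0, 14, 15]
    chd := [(0, 12), (2, 12)]
    steps := [(0, 1), (0, 3), (0, 7), (0, 6), (0, 13), (0, 5), (2, 9), (2, 10), (0, 4)] }
  rep := [2, 0, 14, 12, 8, 15, 11]

noncomputable def v3141 : Cov.CovD where
  P := 3
  N := 4
  pl := [1, 4, 7, 8]
  lev := [⟨[], [], [(0, 1)], [4], [(0, 1, [3]), (2, 0, [3])]⟩,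
    ⟨[], [(0, 0), (0, 1)], [(0, 0), (0, 1)], [], [(0, 1, [3]), (2, 0, [3]), (3, 0, [3])]⟩,
    ⟨[(0, 1)], [(0, 0), (1, 0), (1, 1), (1, 3)], [(0, 0), (0, 3)], [6], [(2, 0, [3]), (3,
      0, [3]), (5, 3, [0, 1])]⟩,
    ⟨[(0, 1), (1, 2)], [(0, 1), (1, 0), (1, 1), (2, 0)], [(0, 1), (1, 1)], [2], [(0, 1,
      [3]), (3, 0, [3]), (6, 1, [3])]⟩,
    ⟨[(1, 2)], [(1, 0), (2, 0), (2, 3), (3, 0)], [(0, 3)], [5], [(3, 0, [3]), (5, 3, [0,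
      1])]⟩,
    ⟨[(2, 4)], [(1, 0), (2, 0), (3, 0), (3, 1), (4, 0), (4, 1), (4, 3)], [(0, 1)], [5],
      [(3, 0, [3]), (6, 1, [3])]⟩,
    ⟨[(1, 3)], [(0, 1), (1, 1), (3, 0), (3, 1)], [], [2, 4], [(0, 1, [3])]⟩]
  Ta := [((0, 1), 1, 4), ((2, 1), 0, 4), ((2, 4), 0, 6), ((3, 6), 0, 1), ((6, 3), 1, 0), ((6, 7),
    1, 2), ((6, 8), 1, 5)]
  Tb := [((1, 0, 2), 4, 1, 0), ((1, 0, 7), 4, 1, 2), ((1, 2, 7), 4, 0, 2), ((2, 1, 4), 0, 4, 6),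
    ((4, 2, 5), 6, 0, 3), ((5, 4, 8), 3, 6, 5), ((6, 3, 7), 1, 0, 2), ((6, 3, 8), 1, 0, 5),
    ((6, 7, 8), 1, 2, 5), ((7, 1, 6), 2, 4, 1), ((8, 5, 6), 5, 3, 1)]
  Tc := [(3, 0, 1)]
  Td := [((0, 3), (2, 1), 4), ((0, 3), (2, 4), 6), ((0, 3), (3, 6), 1), ((1, 3), (0, 1), 4), ((1,
    3), (6, 3), 0), ((1, 3), (6, 7), 2), ((1, 3), (6, 8), 5), ((3, 0), (5, 4), 6), ((3, 0),
    (5, 8), 5), ((3, 1), (5, 4), 6), ((3, 1), (5, 8), 5)]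
  G := [[0, 0, 0x88c248892888924e44492444452844928acc, 0,
    0x8852888528888238e412186841192811928acc], [0, 0, 0xc45449812cc49c438c8c4c1e8e42,
    0x99524c592455928e82, 0x9194a8949838189894b8e42], [0, 0, 0x88c2428ccc2444c288c2c44c24e89,
    0, 0x11c2811c2811c28e41], [0,
    0x884848ce821164412e41818a42e4c6481411ce821161412e81811a12e8c6a,
    0x284442422ca422c28282422ce4ec1, 0x11c2411c2811c24e81, 0x2822c68181411ce861411ca88a1]]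

noncomputable def n3141 : Ent := ⟨e3141, noF, [], [], []⟩

def c3141 : PLift (Cov.check n3141.C.D v3141 = true) := ⟨by decide +kernel⟩

def b3141 : PLift (entF (fidx ts) 400 3141 n3141 = true) := ⟨by decide +kernel⟩

theorem g3141 : GoodF (fidx ts) 400 3141 := GoodF.ofV v3141 n3141 c3141.down b3141.down

/-- 4666544:2426/1 -/
noncomputable def e3142 : SCfg where
  D := {
    a := 7
    L := 10
    kp := 7
    inn := [(0, 1), (1, 0), (1, 2), (1, 3), (2, 1), (2, 4), (3, 1), (3, 6), (4, 2), (4, 5), (5, 4), (6,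
      3)]
    mix := [(0, 0), (0, 1), (0, 2), (1, 0), (1, 2), (1, 3), (2, 2), (2, 3), (2, 4), (2, 5), (3, 0), (3,
      3), (3, 6), (3, 7), (4, 3), (4, 5), (4, 8), (5, 3), (5, 8), (5, 9), (6, 0), (6, 1), (6, 7)]
    cl := [1, 3, 0, 0, 7, 2, 1, 4, 5, 6]
    chq := [(0, 2), (2, 0), (2, 6), (6, 2)]
    rng := [(0, 1), (1, 0), (1, 2), (1, 7), (2, 1), (2, 4), (3, 6), (3, 9), (4, 2), (4, 5), (5, 4), (5,
      8), (6, 3), (6, 7), (7, 1), (7, 6), (8, 5), (8, 9), (9, 3), (9, 8)]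
    lev := [] }
  links := [[1, 7, 8, 9], [7, 0, 9, 2, 10, 3], [10, 1, 9, 11, 12, 4], [7, 1, 10, 13, 14, 6], [10, 2, 12,
    15, 5], [10, 4, 15, 16], [7, 3, 14, 8]]
  P := {
    a := 7
    N := 17
    nb := [898, 1677, 7698, 25794, 37924, 99344, 16776, 331, 17089, 2311, 73790, 4612, 34836, 17416,
      8520, 69680, 33824]
    tri := [(0, 1, 7), (0, 1, 9), (0, 7, 8), (0, 8, 9), (1, 2, 9), (1, 2, 10), (1, 3, 7), (1, 3, 10),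
      (2, 4, 10), (2, 4, 12), (2, 9, 11), (2, 11, 12), (3, 6, 7), (3, 6, 14), (3, 10, 13), (3, 13,
      14), (4, 5, 10), (4, 5, 15), (4, 12, 15), (5, 10, 16), (5, 15, 16), (6, 7, 8), (6, 8, 14)]
    fin := [0, 0, 2, 0, 4, 4, 0, 0, 8, 2, 2, 11, 4, 0, 14, 15, 16]
    chd := [(2, 4), (4, 16)]
    steps := [(0, 1), (0, 3), (0, 7), (0, 6), (0, 13), (2, 9), (2, 10), (4, 5), (4, 12)] }
  rep := [2, 0, 4, 8, 14, 15, 16, 11]

noncomputable def v3142 : Cov.CovD where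
  P := 3
  N := 5
  pl := [1, 4, 7, 8]
  lev := [⟨[], [], [(0, 1)], [3], [(0, 1, []), (2, 0, [2])]⟩,
    ⟨[], [(0, 0), (0, 1)], [(0, 0), (0, 1)], [], [(0, 1, []), (2, 0, [2]), (3, 0, [2])]⟩,
    ⟨[(0, 1)], [(0, 0), (1, 0), (1, 1), (1, 2)], [(0, 0), (0, 2)], [7], [(2, 0, [2]), (3,
      0, [2]), (5, 2, [0, 6])]⟩,
    ⟨[(0, 1), (1, 2)], [(0, 1), (1, 0), (1, 1), (2, 0)], [(0, 1), (1, 1)], [4], [(0, 1,
      []), (3, 0, [2]), (6, 1, [])]⟩,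
    ⟨[(1, 2)], [(1, 0), (2, 0), (2, 2), (3, 0)], [(0, 2)], [5], [(3, 0, [2]), (5, 2, [0,
      6])]⟩,
    ⟨[(2, 4)], [(1, 0), (2, 0), (3, 0), (4, 0), (4, 2), (4, 6)], [(0, 6)], [5], [(3, 0,
      [2]), (9, 6, [2])]⟩,
    ⟨[(1, 3)], [(0, 1), (1, 1), (3, 0), (3, 1)], [], [3, 4], [(0, 1, [])]⟩]
  Ta := [((0, 1), 1, 3), ((2, 1), 0, 3), ((2, 4), 0, 7), ((3, 6), 0, 1), ((3, 9), 0, 6), ((6, 3),
    1, 0), ((6, 7), 1, 4)]
  Tb := [((1, 0, 2), 3, 1, 0), ((1, 0, 7), 3, 1, 4), ((1, 2, 7), 3, 0, 4), ((2, 1, 4), 0, 3, 7),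
    ((3, 6, 9), 0, 1, 6), ((4, 2, 5), 7, 0, 2), ((5, 4, 8), 2, 7, 5), ((6, 3, 7), 1, 0, 4),
    ((7, 1, 6), 4, 3, 1), ((8, 5, 9), 5, 2, 6), ((9, 3, 8), 6, 0, 5)]
  Tc := [(2, 0, 6)]
  Td := [((0, 2), (2, 1), 3), ((0, 2), (2, 4), 7), ((0, 2), (3, 6), 1), ((0, 2), (3, 9), 6), ((2,
    0), (5, 4), 7), ((2, 0), (5, 8), 5), ((2, 6), (5, 4), 7), ((2, 6), (5, 8), 5), ((6, 2),
    (9, 3), 0), ((6, 2), (9, 8), 5)]
  G := [[0, 0, 0xd1244d111a114c11d1c118cac1,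
    0x1211c448182c1211cc8838298cc44c42541112c4241ccc1112c88cc,
    0x8481a1411ac8481a121814bca444a44341411a4144aca1114a88cc], [0, 0,
    0x112163121ac1131c1121aca41, 0x2184845152c44d4d8d2d1112c424d9939298cca,
    0x55a54341158555543ca9491a888a9498ac2], [0, 0, 0x114d14c4d18112cd12118cac1,
    0x111e12cddded2cc452dddec92111ecc8c1, 0xd4dddea14111eacdd5ed4a119e14aca41], [0,
    0x12188ec128c111e12c2c212842111eca8111e12c846111e44111e12c4c2e,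
    0x112162111ac111162121aca41, 0x221e12ce12e22cc422121ec11622acc8c1,
    0x122e14a211e24ac214112ea24221eac8c1]]

noncomputable def n3142 : Ent := ⟨e3142, noF, [], [], [(16, 13, [1580044429602293643470024699863340111275081426260889765897805516801, 0])]⟩

def c3142 : PLift (Cov.check n3142.C.D v3142 = true) := ⟨by decide +kernel⟩

def b3142 : PLift (entF (fidx ts) 400 3142 n3142 = true) := ⟨by decide +kernel⟩

theorem g3142 : GoodF (fidx ts) 400 3142 := GoodF.ofV v3142 n3142 c3142.down b3142.down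

/-- 4666544:2426/3 -/
noncomputable def e3143 : SCfg where
  D := {
    a := 7
    L := 10
    kp := 7
    inn := [(0, 1), (1, 0), (1, 2), (1, 3), (2, 1), (2, 4), (3, 1), (3, 6), (4, 2), (4, 5), (5, 4), (6,
      3)]
    mix := [(0, 0), (0, 1), (0, 2), (1, 0), (1, 2), (1, 3), (2, 2), (2, 3), (2, 4), (2, 5), (3, 0), (3,
      3), (3, 6), (3, 7), (4, 3), (4, 5), (4, 8), (5, 3), (5, 8), (5, 9), (6, 0), (6, 7), (6, 8)]
    cl := [1, 6, 0, 0, 7, 4, 1, 2, 3, 5]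
    chq := [(0, 4), (4, 0), (4, 5), (5, 4)]
    rng := [(0, 1), (0, 8), (1, 0), (1, 2), (2, 1), (2, 4), (3, 6), (3, 9), (4, 2), (4, 5), (5, 4), (5,
      8), (6, 3), (6, 7), (7, 6), (7, 8), (8, 0), (8, 5), (8, 7), (8, 9), (9, 3), (9, 8)]
    lev := [] }
  links := [[1, 7, 8, 9], [7, 0, 9, 2, 10, 3], [10, 1, 9, 11, 12, 4], [7, 1, 10, 13, 14, 6], [10, 2, 12,
    15, 5], [10, 4, 15, 16], [7, 3, 14, 15]]
  P := {
    a := 7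
    N := 17
    nb := [898, 1677, 7698, 25794, 37924, 99344, 49288, 33099, 641, 2311, 73790, 4612, 34836, 17416,
      41032, 86256, 33824]
    tri := [(0, 1, 7), (0, 1, 9), (0, 7, 8), (0, 8, 9), (1, 2, 9), (1, 2, 10), (1, 3, 7), (1, 3, 10),
      (2, 4, 10), (2, 4, 12), (2, 9, 11), (2, 11, 12), (3, 6, 7), (3, 6, 14), (3, 10, 13), (3, 13,
      14), (4, 5, 10), (4, 5, 15), (4, 12, 15), (5, 10, 16), (5, 15, 16), (6, 7, 15), (6, 14, 15)]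
    fin := [0, 0, 2, 0, 4, 4, 0, 0, 8, 2, 2, 11, 4, 0, 14, 15, 16]
    chd := [(2, 4), (4, 16)]
    steps := [(0, 1), (0, 3), (0, 6), (0, 7), (0, 13), (2, 9), (2, 10), (4, 5), (4, 12)] }
  rep := [2, 0, 14, 15, 4, 16, 8, 11]

noncomputable def v3143 : Cov.CovD where
  P := 3
  N := 5
  pl := [1, 4, 7, 8]
  lev := [⟨[], [], [(0, 1)], [6], [(0, 1, []), (2, 0, [4])]⟩,
    ⟨[], [(0, 0), (0, 1)], [(0, 0), (0, 1)], [], [(0, 1, []), (2, 0, [4]), (3, 0, [4])]⟩,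
    ⟨[(0, 1)], [(0, 0), (1, 0), (1, 1), (1, 4)], [(0, 0), (0, 4)], [7], [(2, 0, [4]), (3,
      0, [4]), (5, 4, [0, 5])]⟩,
    ⟨[(0, 1), (1, 2)], [(0, 1), (1, 0), (1, 1), (2, 0)], [(0, 1), (1, 1)], [2], [(0, 1,
      []), (3, 0, [4]), (6, 1, [])]⟩,
    ⟨[(1, 2)], [(1, 0), (2, 0), (2, 4), (3, 0)], [(0, 4)], [3], [(3, 0, [4]), (5, 4, [0,
      5])]⟩,
    ⟨[(2, 4)], [(1, 0), (2, 0), (3, 0), (4, 0), (4, 4), (4, 5)], [(0, 5)], [3], [(3, 0,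
      [4]), (9, 5, [4])]⟩,
    ⟨[(1, 3)], [(0, 1), (1, 1), (3, 0), (3, 1)], [], [2, 3], [(0, 1, [])]⟩]
  Ta := [((0, 1), 1, 6), ((0, 8), 1, 3), ((2, 1), 0, 6), ((2, 4), 0, 7), ((3, 6), 0, 1), ((3, 9),
    0, 5), ((6, 3), 1, 0), ((6, 7), 1, 2)]
  Tb := [((0, 1, 8), 1, 6, 3), ((1, 0, 2), 6, 1, 0), ((2, 1, 4), 0, 6, 7), ((3, 6, 9), 0, 1, 5),
    ((4, 2, 5), 7, 0, 4), ((5, 4, 8), 4, 7, 3), ((6, 3, 7), 1, 0, 2), ((7, 6, 8), 2, 1, 3),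
    ((8, 0, 5), 3, 1, 4), ((8, 0, 7), 3, 1, 2), ((8, 0, 9), 3, 1, 5), ((8, 5, 7), 3, 4, 2),
    ((8, 5, 9), 3, 4, 5), ((8, 7, 9), 3, 2, 5), ((9, 3, 8), 5, 0, 3)]
  Tc := [(4, 0, 5)]
  Td := [((0, 4), (2, 1), 6), ((0, 4), (2, 4), 7), ((0, 4), (3, 6), 1), ((0, 4), (3, 9), 5), ((4,
    0), (5, 4), 7), ((4, 0), (5, 8), 3), ((4, 5), (5, 4), 7), ((4, 5), (5, 8), 3), ((5, 4),
    (9, 3), 0), ((5, 4), (9, 8), 3)]
  G := [[0, 0, 0x8284988d4443485847468288446b88c824188e482418844f46814244e88cc, 0,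
    0x8861114d881981a382898411819e8e41148288a94886116981128488c9acc], [0, 0,
    0x814244e88284942b8c1288c2ce42, 0x4284c12748244a11e4841d24e82,
    0x886116988281912b8881d28e42], [0, 0, 0x44a4468288ac44864284ce888644a84ce8ac1, 0,
    0x11a4848861214e88281ca88481a81ce8ec1], [0,
    0x88614a84ce428161281ce88244a11ce8ca18641a81ce821864281ce88241a14ce4c6a,
    0x224222ce8224222ce86824284ce48a1, 0x821284ce4824284ce46821281ce48c2,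
    0x222224e81282c68a821281ce8461]]

noncomputable def n3143 : Ent := ⟨e3143, noF, [], [], []⟩

def c3143 : PLift (Cov.check n3143.C.D v3143 = true) := ⟨by decide +kernel⟩

def b3143 : PLift (entF (fidx ts) 400 3143 n3143 = true) := ⟨by decide +kernel⟩

theorem g3143 : GoodF (fidx ts) 400 3143 := GoodF.ofV v3143 n3143 c3143.down b3143.down

/-- 4666544:2426/4 -/
noncomputable def e3144 : SCfg where
  D := {
    a := 7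
    L := 10
    kp := 7
    inn := [(0, 1), (1, 0), (1, 2), (1, 3), (2, 1), (2, 4), (3, 1), (3, 6), (4, 2), (4, 5), (5, 4), (6,
      3)]
    mix := [(0, 0), (0, 1), (0, 2), (1, 0), (1, 2), (1, 3), (2, 2), (2, 3), (2, 4), (2, 5), (3, 0), (3,
      3), (3, 6), (3, 7), (4, 3), (4, 5), (4, 8), (5, 3), (5, 6), (5, 8), (6, 0), (6, 7), (6, 9)]
    cl := [1, 5, 0, 0, 6, 3, 1, 2, 4, 7]
    chq := [(0, 3), (1, 3), (3, 0), (3, 1)]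
    rng := [(0, 1), (0, 9), (1, 0), (1, 2), (2, 1), (2, 4), (3, 6), (4, 2), (4, 5), (5, 4), (5, 8), (6,
      3), (6, 7), (6, 8), (7, 6), (7, 9), (8, 5), (8, 6), (9, 0), (9, 7)]
    lev := [] }
  links := [[1, 7, 8, 9], [7, 0, 9, 2, 10, 3], [10, 1, 9, 11, 12, 4], [7, 1, 10, 13, 14, 6], [10, 2, 12,
    15, 5], [10, 4, 15, 13], [7, 3, 14, 16]]
  P := {
    a := 7
    N := 17
    nb := [898, 1677, 7698, 25794, 37924, 42000, 82056, 65867, 641, 2311, 8254, 4612, 34836, 50216,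
      73800, 12336, 16576]
    tri := [(0, 1, 7), (0, 1, 9), (0, 7, 8), (0, 8, 9), (1, 2, 9), (1, 2, 10), (1, 3, 7), (1, 3, 10),
      (2, 4, 10), (2, 4, 12), (2, 9, 11), (2, 11, 12), (3, 6, 7), (3, 6, 14), (3, 10, 13), (3, 13,
      14), (4, 5, 10), (4, 5, 15), (4, 12, 15), (5, 10, 13), (5, 13, 15), (6, 7, 16), (6, 14, 16)]
    fin := [0, 0, 2, 0, 0, 0, 0, 0, 8, 2, 2, 11, 12, 0, 14, 15, 16]
    chd := [(0, 12), (2, 12)]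
    steps := [(0, 1), (0, 3), (0, 6), (0, 7), (0, 13), (0, 5), (2, 9), (2, 10), (0, 4)] }
  rep := [2, 0, 14, 12, 15, 8, 11, 16]

noncomputable def v3144 : Cov.CovD where
  P := 3
  N := 5
  pl := [1, 4, 7, 8, 9]
  lev := [⟨[], [], [(0, 1)], [5], [(0, 1, [3]), (2, 0, [3])]⟩,
    ⟨[], [(0, 0), (0, 1)], [(0, 0), (0, 1)], [], [(0, 1, [3]), (2, 0, [3]), (3, 0, [3])]⟩,
    ⟨[(0, 1)], [(0, 0), (1, 0), (1, 1), (1, 3)], [(0, 0), (0, 3)], [6], [(2, 0, [3]), (3,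
      0, [3]), (5, 3, [0, 1])]⟩,
    ⟨[(0, 1), (1, 2)], [(0, 1), (1, 0), (1, 1), (2, 0)], [(0, 1), (1, 1)], [2], [(0, 1,
      [3]), (3, 0, [3]), (6, 1, [3])]⟩,
    ⟨[(1, 2)], [(1, 0), (2, 0), (2, 3), (3, 0)], [(0, 3)], [4], [(3, 0, [3]), (5, 3, [0,
      1])]⟩,
    ⟨[(2, 4)], [(1, 0), (2, 0), (3, 0), (3, 1), (4, 0), (4, 1), (4, 3)], [(0, 1)], [4],
      [(3, 0, [3]), (6, 1, [3])]⟩,
    ⟨[(1, 3)], [(0, 1), (1, 1), (3, 0), (3, 1)], [], [2, 7], [(0, 1, [3])]⟩]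
  Ta := [((0, 1), 1, 5), ((0, 9), 1, 7), ((2, 1), 0, 5), ((2, 4), 0, 6), ((3, 6), 0, 1), ((6, 3),
    1, 0), ((6, 7), 1, 2), ((6, 8), 1, 4)]
  Tb := [((0, 1, 9), 1, 5, 7), ((1, 0, 2), 5, 1, 0), ((2, 1, 4), 0, 5, 6), ((4, 2, 5), 6, 0, 3),
    ((5, 4, 8), 3, 6, 4), ((6, 3, 7), 1, 0, 2), ((6, 3, 8), 1, 0, 4), ((6, 7, 8), 1, 2, 4),
    ((7, 6, 9), 2, 1, 7), ((8, 5, 6), 4, 3, 1), ((9, 0, 7), 7, 1, 2)]
  Tc := [(3, 0, 1)]
  Td := [((0, 3), (2, 1), 5), ((0, 3), (2, 4), 6), ((0, 3), (3, 6), 1), ((1, 3), (0, 1), 5), ((1,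
    3), (0, 9), 7), ((1, 3), (6, 3), 0), ((1, 3), (6, 7), 2), ((1, 3), (6, 8), 4), ((3, 0),
    (5, 4), 6), ((3, 0), (5, 8), 4), ((3, 1), (5, 4), 6), ((3, 1), (5, 8), 4)]
  G := [[0, 0, 0xc2c1a8cc528c8c238e4cc524cc924ccc24e8c, 0,
    0x99c2899c28989238e4119288c29499528949238acc], [0, 0, 0xc8c164c8c4c1e46c1c4a88c2,
    0xccc215552899524e82, 0x9194a8989438989491e8e42], [0, 0, 0xccc28ccc28ccc28e41, 0,
    0x99c2899c2899c28e41], [0,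
    0x1211a12e4141811ce4681161214e8181411ce8a41161412e41211a12e4c2e,
    0x2822c6442422ca4282422ce4ac1, 0xc9c24ccc245cc24e81, 0x2822c68282422ce862422ca88c1]]

noncomputable def n3144 : Ent := ⟨e3144, noF, [], [], [(8, 16, [1580044410770988437309982408355971841652082177953823432505701978113, 0])]⟩

def c3144 : PLift (Cov.check n3144.C.D v3144 = true) := ⟨by decide +kernel⟩

def b3144 : PLift (entF (fidx ts) 400 3144 n3144 = true) := ⟨by decide +kernel⟩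

theorem g3144 : GoodF (fidx ts) 400 3144 := GoodF.ofV v3144 n3144 c3144.down b3144.down

/-- 4666544:2426 -/
noncomputable def e3145 : SCfg where
  D := {
    a := 7
    L := 11
    kp := 8
    inn := [(0, 1), (1, 0), (1, 2), (1, 3), (2, 1), (2, 4), (3, 1), (3, 6), (4, 2), (4, 5), (5, 4), (6,
      3)]
    mix := [(0, 0), (0, 1), (0, 2), (1, 0), (1, 2), (1, 3), (2, 2), (2, 3), (2, 4), (2, 5), (3, 0), (3,
      3), (3, 6), (3, 7), (4, 3), (4, 5), (4, 8), (5, 3), (5, 8), (5, 9), (6, 0), (6, 7), (6, 10)]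
    cl := [1, 6, 0, 0, 5, 4, 1, 2, 3, 7, 8]
    chq := [(0, 3), (3, 0), (3, 5), (5, 3)]
    rng := [(0, 1), (0, 10), (1, 0), (1, 2), (2, 1), (2, 4), (3, 6), (3, 9), (4, 2), (4, 5), (5, 4),
      (5, 8), (6, 3), (6, 7), (7, 6), (7, 10), (8, 5), (8, 9), (9, 3), (9, 8), (10, 0), (10, 7)]
    lev := [] }
  links := [[1, 7, 8, 9], [7, 0, 9, 2, 10, 3], [10, 1, 9, 11, 12, 4], [7, 1, 10, 13, 14, 6], [10, 2, 12,
    15, 5], [10, 4, 15, 16], [7, 3, 14, 17]]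
  P := {
    a := 7
    N := 18
    nb := [898, 1677, 7698, 25794, 37924, 99344, 147592, 131403, 641, 2311, 73790, 4612, 34836, 17416,
      139336, 69680, 33824, 16576]
    tri := [(0, 1, 7), (0, 1, 9), (0, 7, 8), (0, 8, 9), (1, 2, 9), (1, 2, 10), (1, 3, 7), (1, 3, 10),
      (2, 4, 10), (2, 4, 12), (2, 9, 11), (2, 11, 12), (3, 6, 7), (3, 6, 14), (3, 10, 13), (3, 13,
      14), (4, 5, 10), (4, 5, 15), (4, 12, 15), (5, 10, 16), (5, 15, 16), (6, 7, 17), (6, 14, 17)]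
    fin := [0, 1, 2, 0, 2, 1, 0, 0, 8, 1, 1, 2, 12, 0, 14, 15, 16, 17]
    chd := [(1, 15), (2, 15)]
    steps := [(0, 7), (0, 3), (0, 6), (0, 13), (1, 9), (1, 10), (1, 5), (2, 4), (2, 11)] }
  rep := [1, 0, 14, 15, 12, 2, 8, 16, 17]

noncomputable def v3145 : Cov.CovD where
  P := 3
  N := 6
  pl := [1, 5, 7, 9, 10]
  lev := [⟨[], [], [(0, 1)], [6], [(0, 1, []), (2, 0, [3])]⟩,
    ⟨[], [(0, 0), (0, 1)], [(0, 0), (0, 1)], [], [(0, 1, []), (2, 0, [3]), (3, 0, [3])]⟩,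
    ⟨[(0, 1)], [(0, 0), (1, 0), (1, 1), (1, 5)], [(0, 0), (0, 5)], [4], [(2, 0, [3]), (3,
      0, [3]), (4, 5, [3])]⟩,
    ⟨[(0, 1), (1, 2)], [(0, 1), (1, 0), (1, 1), (2, 0)], [(0, 1), (1, 1)], [2], [(0, 1,
      []), (3, 0, [3]), (6, 1, [])]⟩,
    ⟨[(1, 2)], [(1, 0), (2, 0), (2, 3), (2, 5), (3, 0)], [(0, 3)], [4], [(3, 0, [3]), (8,
      3, [0, 5])]⟩,
    ⟨[(2, 4)], [(1, 0), (2, 0), (3, 0), (4, 0), (4, 3)], [(0, 3)], [7], [(3, 0, [3]), (8,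
      3, [0, 5])]⟩,
    ⟨[(1, 3)], [(0, 1), (1, 1), (3, 0), (3, 1)], [], [2, 8], [(0, 1, [])]⟩]
  Ta := [((0, 1), 1, 6), ((0, 10), 1, 8), ((2, 1), 0, 6), ((2, 4), 0, 5), ((3, 6), 0, 1), ((3,
    9), 0, 7), ((6, 3), 1, 0), ((6, 7), 1, 2)]
  Tb := [((0, 1, 10), 1, 6, 8), ((1, 0, 2), 6, 1, 0), ((2, 1, 4), 0, 6, 5), ((3, 6, 9), 0, 1, 7),
    ((4, 2, 5), 5, 0, 4), ((5, 4, 8), 4, 5, 3), ((6, 3, 7), 1, 0, 2), ((7, 6, 10), 2, 1, 8),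
    ((8, 5, 9), 3, 4, 7), ((9, 3, 8), 7, 0, 3), ((10, 0, 7), 8, 1, 2)]
  Tc := [(3, 0, 5)]
  Td := [((0, 3), (2, 1), 6), ((0, 3), (2, 4), 5), ((0, 3), (3, 6), 1), ((0, 3), (3, 9), 7), ((3,
    0), (8, 5), 4), ((3, 0), (8, 9), 7), ((3, 5), (8, 5), 4), ((3, 5), (8, 9), 7), ((5, 3),
    (4, 2), 0), ((5, 3), (4, 5), 4)]
  G := [[0, 0, 0xcc3c8cc3e44ccc7cc698c1c1ccce8accccbcca544ccc7cc698c1c1ccce8acc, 0,
    0x9969191e899c99699ab89199c999de8e411a111e5888e888ea94999711996b8919199ce8acc], [0, 0,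
    0xccccccc274c1ccac1e4c1c1ccce4e82, 0x5155a51e85c9d59c3469997996948c2,
    0x9969191e8999b9997a88481999d91cf8e42], [0, 0, 0xccceccce64cccecccea4cccecccec4e81, 0,
    0x999e999e68999e999ea8999e999ec8e41], [0,
    0x111e111e68111e111ea4111e111ec4e2111e111e68111e111ea8111e111ec8e2c,
    0x222e222e64222e222ea8222e222ec4e81, 0x999e999e64cc5e95cea8599e95cec8e42,
    0x222e222e68222e222ea8222e222ec8e41]]

noncomputable def n3145 : Ent := ⟨e3145, noF, [], [], [(8, 17, [6903326391201334775872065844685381424292761054348340378595029942558721, 0]), (15, 17, [6903326391201334775872065844685381424292761054348340378595029942562817, 0]), (16, 13, [7334685537894576317792898128369202883340578364357296604626079810093057, 0])]⟩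

def c3145 : PLift (Cov.check n3145.C.D v3145 = true) := ⟨by decide +kernel⟩

def b3145 : PLift (entF (fidx ts) 400 3145 n3145 = true) := ⟨by decide +kernel⟩

theorem g3145 : GoodF (fidx ts) 400 3145 := GoodF.ofV v3145 n3145 c3145.down b3145.down

/-- 4669454:2428/1 -/
noncomputable def e3146 : SCfg where
  D := {
    a := 7
    L := 10
    kp := 8
    inn := [(0, 1), (0, 3), (1, 0), (1, 2), (1, 3), (2, 1), (2, 3), (2, 4), (3, 0), (3, 1), (3, 2), (3,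
      4), (3, 5), (4, 2), (4, 3), (5, 3), (5, 6), (6, 5)]
    mix := [(0, 0), (0, 1), (1, 0), (1, 2), (1, 3), (2, 2), (2, 4), (2, 5), (3, 1), (3, 6), (3, 7), (3,
      8), (4, 4), (4, 8), (5, 1), (5, 6), (5, 9), (6, 0), (6, 1), (6, 9)]
    cl := [1, 0, 3, 7, 4, 6, 0, 8, 2, 5]
    chq := [(0, 2), (1, 2), (1, 3), (1, 4), (1, 6), (2, 0), (2, 1), (3, 1), (4, 1), (6, 1)]
    rng := [(0, 1), (0, 3), (0, 9), (1, 0), (2, 3), (2, 5), (3, 0), (3, 2), (4, 5), (4, 8), (5, 2), (5,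
      4), (6, 7), (6, 9), (7, 6), (7, 8), (8, 4), (8, 7), (9, 0), (9, 6)]
    lev := [] }
  links := [[1, 7, 8, 3], [7, 0, 3, 2, 9, 10], [9, 1, 3, 4, 11, 12], [4, 2, 1, 0, 8, 5, 13, 14, 15], [11,
    2, 3, 15], [13, 3, 8, 6, 16], [16, 5, 8, 7]]
  P := {
    a := 7
    N := 17
    nb := [394, 1677, 6682, 57655, 34828, 74056, 65952, 66883, 233, 5126, 642, 36884, 2564, 81960,
      40968, 18456, 8416]
    tri := [(0, 1, 3), (0, 1, 7), (0, 3, 8), (0, 7, 8), (1, 2, 3), (1, 2, 9), (1, 7, 10), (1, 9, 10),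
      (2, 3, 4), (2, 4, 11), (2, 9, 12), (2, 11, 12), (3, 4, 15), (3, 5, 8), (3, 5, 13), (3, 13,
      14), (3, 14, 15), (4, 11, 15), (5, 6, 8), (5, 6, 16), (5, 13, 16), (6, 7, 8), (6, 7, 16)]
    fin := [0, 0, 0, 3, 0, 0, 0, 0, 3, 9, 10, 11, 12, 3, 14, 15, 16]
    chd := [(0, 9), (0, 11), (0, 12), (0, 15), (3, 15)]
    steps := [(0, 1), (0, 2), (0, 4), (0, 7), (0, 6), (3, 8), (0, 5), (3, 13)] }
  rep := [3, 0, 15, 9, 11, 16, 12, 10, 14]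

noncomputable def v3146 : Cov.CovD where
  P := 3
  N := 6
  pl := [3, 7, 9]
  lev := [⟨[], [], [(0, 1)], [], [(0, 1, [2, 3, 4, 6]), (1, 0, [2])]⟩,
    ⟨[], [(0, 0), (0, 1), (0, 3)], [(1, 3)], [7], [(0, 1, [2, 3, 4, 6]), (2, 3, [1])]⟩,
    ⟨[(0, 1)], [(1, 1), (1, 3), (1, 4), (1, 6)], [(3, 4), (3, 6), (4, 6)], [], [(2, 3,
      [1]), (4, 4, [1]), (5, 6, [1])]⟩,
    ⟨[(0, 1), (0, 2), (1, 2)], [(0, 0), (0, 1), (0, 2), (1, 0), (1, 1), (1, 2), (1, 3), (2,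
      0), (2, 2), (2, 3), (2, 4), (2, 6)], [(0, 0), (0, 2)], [8], [(1, 0, [2]), (6, 0, [2]),
      (8, 2, [0, 1])]⟩,
    ⟨[(0, 3), (1, 2), (1, 3), (2, 3)], [(2, 2), (2, 3), (2, 4), (2, 6), (3, 0), (3, 2), (3,
      4)], [(2, 4)], [], [(4, 4, [1]), (8, 2, [0, 1])]⟩,
    ⟨[(0, 3), (1, 3), (2, 3), (3, 4)], [(0, 0), (3, 0), (3, 2)], [(0, 0)], [5], [(1, 0,
      [2]), (6, 0, [2])]⟩,
    ⟨[(3, 5)], [(0, 0), (0, 1), (1, 1), (3, 0), (5, 0), (5, 1)], [(0, 1)], [5], [(0, 1, [2,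
      3, 4, 6]), (1, 0, [2])]⟩]
  Ta := [((1, 0), 0, 1), ((6, 7), 0, 8), ((6, 9), 0, 5)]
  Tb := [((0, 1, 3), 1, 0, 7), ((0, 1, 9), 1, 0, 5), ((0, 3, 9), 1, 7, 5), ((2, 3, 5), 3, 7, 6),
    ((3, 0, 2), 7, 1, 3), ((4, 5, 8), 4, 6, 2), ((5, 2, 4), 6, 3, 4), ((6, 7, 9), 0, 8, 5),
    ((7, 6, 8), 8, 0, 2), ((8, 4, 7), 2, 4, 8), ((9, 0, 6), 5, 1, 0)]
  Tc := [(1, 2, 3), (1, 2, 4), (1, 2, 6), (1, 3, 4), (1, 3, 6), (1, 4, 6), (2, 0, 1)]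
  Td := [((0, 2), (1, 0), 1), ((0, 2), (6, 7), 8), ((0, 2), (6, 9), 5), ((1, 2), (0, 1), 0), ((1,
    2), (0, 3), 7), ((1, 2), (0, 9), 5), ((1, 3), (0, 1), 0), ((1, 3), (0, 3), 7), ((1, 3),
    (0, 9), 5), ((1, 4), (0, 1), 0), ((1, 4), (0, 3), 7), ((1, 4), (0, 9), 5), ((1, 6), (0,
    1), 0), ((1, 6), (0, 3), 7), ((1, 6), (0, 9), 5), ((2, 0), (8, 4), 4), ((2, 0), (8, 7),
    8), ((2, 1), (8, 4), 4), ((2, 1), (8, 7), 8), ((3, 1), (2, 3), 7), ((3, 1), (2, 5), 6),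
    ((4, 1), (4, 5), 6), ((4, 1), (4, 8), 2), ((6, 1), (5, 2), 3), ((6, 1), (5, 4), 4)]
  G := [[0, 0x826184a1c124c182a1c1426182a1c1e2, 0x186114a1c241611161c25416181a1c28c,
    0xc2c29424c2c2524a84a9c2c2c2582286c2cc2c29c2dc,
    0x82c24a924484cc232c212486c2384c84c9ac212f48682486486984c84c9a84a12bc2288c28228682486486984c84c9a84a84ca2ffc],
    [0, 0, 0x416184a1c24816111a1c211a181a1c29c, 0xc2416552c29c29252cc2c29c2c252c52529c2d2,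
    0x9282824412b2c484c5232921281692384c81c9a5212f48614c984c84c9a48612348628852825282816416984c81c9ac284ca2ffc]]

noncomputable def n3146 : Ent := ⟨e3146, noF, [], [], []⟩

def c3146 : PLift (Cov.check n3146.C.D v3146 = true) := ⟨by decide +kernel⟩

def b3146 : PLift (entF (fidx ts) 400 3146 n3146 = true) := ⟨by decide +kernel⟩

theorem g3146 : GoodF (fidx ts) 400 3146 := GoodF.ofV v3146 n3146 c3146.down b3146.down

/-- 4669454:2428 -/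
noncomputable def e3147 : SCfg where
  D := {
    a := 7
    L := 11
    kp := 9
    inn := [(0, 1), (0, 3), (1, 0), (1, 2), (1, 3), (2, 1), (2, 3), (2, 4), (3, 0), (3, 1), (3, 2), (3,
      4), (3, 5), (4, 2), (4, 3), (5, 3), (5, 6), (6, 5)]
    mix := [(0, 0), (0, 1), (1, 0), (1, 2), (1, 3), (2, 2), (2, 4), (2, 5), (3, 1), (3, 6), (3, 7), (3,
      8), (4, 4), (4, 8), (5, 1), (5, 6), (5, 9), (6, 1), (6, 9), (6, 10)]
    cl := [1, 0, 2, 8, 3, 6, 0, 7, 4, 5, 9]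
    chq := [(1, 2), (1, 3), (1, 4), (1, 6), (1, 7), (2, 1), (3, 1), (4, 1), (6, 1), (7, 1)]
    rng := [(0, 1), (0, 3), (1, 0), (1, 10), (2, 3), (2, 5), (3, 0), (3, 2), (4, 5), (4, 8), (5, 2),
      (5, 4), (6, 7), (6, 9), (7, 6), (7, 8), (8, 4), (8, 7), (9, 6), (9, 10), (10, 1), (10, 9)]
    lev := [] }
  links := [[1, 7, 8, 3], [7, 0, 3, 2, 9, 10], [9, 1, 3, 4, 11, 12], [4, 2, 1, 0, 8, 5, 13, 14, 15], [11,
    2, 3, 15], [13, 3, 8, 6, 16], [16, 5, 8, 17]]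
  P := {
    a := 7
    N := 18
    nb := [394, 1677, 6682, 57655, 34828, 74056, 196896, 1283, 131305, 5126, 642, 36884, 2564, 81960,
      40968, 18456, 139360, 65856]
    tri := [(0, 1, 3), (0, 1, 7), (0, 3, 8), (0, 7, 8), (1, 2, 3), (1, 2, 9), (1, 7, 10), (1, 9, 10),
      (2, 3, 4), (2, 4, 11), (2, 9, 12), (2, 11, 12), (3, 4, 15), (3, 5, 8), (3, 5, 13), (3, 13,
      14), (3, 14, 15), (4, 11, 15), (5, 6, 8), (5, 6, 16), (5, 13, 16), (6, 8, 17), (6, 16, 17)]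
    fin := [0, 0, 0, 0, 0, 5, 5, 0, 5, 9, 10, 11, 12, 5, 14, 15, 16, 17]
    chd := [(0, 9), (0, 11), (0, 12), (0, 14), (0, 15)]
    steps := [(0, 1), (0, 2), (0, 3), (0, 4), (0, 7), (5, 6), (5, 8), (5, 13)] }
  rep := [5, 0, 9, 11, 15, 16, 12, 14, 10, 17]

noncomputable def v3147 : Cov.CovD where
  P := 3
  N := 7
  pl := [3, 9, 10]
  lev := [⟨[], [], [(0, 1)], [], [(0, 1, [2, 3, 4, 6, 7]), (1, 0, [])]⟩,
    ⟨[], [(0, 0), (0, 1), (0, 2)], [(1, 2)], [8], [(0, 1, [2, 3, 4, 6, 7]), (2, 2, [1])]⟩,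
    ⟨[(0, 1)], [(1, 1), (1, 2), (1, 3), (1, 6)], [(2, 3), (2, 6), (3, 6)], [], [(2, 2,
      [1]), (4, 3, [1]), (5, 6, [1])]⟩,
    ⟨[(0, 1), (0, 2), (1, 2)], [(0, 0), (0, 1), (0, 4), (0, 7), (1, 0), (1, 1), (1, 2), (1,
      4), (1, 7), (2, 0), (2, 2), (2, 3), (2, 4), (2, 6), (2, 7)], [(0, 0), (0, 4), (0, 7),
      (4, 7)], [], [(1, 0, []), (6, 0, []), (7, 7, [1]), (8, 4, [1])]⟩,
    ⟨[(0, 3), (1, 2), (1, 3), (2, 3)], [(2, 2), (2, 3), (2, 4), (2, 6), (3, 0), (3, 3), (3,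
      4), (3, 7)], [(3, 4)], [], [(4, 3, [1]), (8, 4, [1])]⟩,
    ⟨[(0, 3), (1, 3), (2, 3), (3, 4)], [(0, 0), (3, 0), (3, 4), (3, 7)], [(0, 0)], [5],
      [(1, 0, []), (6, 0, [])]⟩,
    ⟨[(3, 5)], [(0, 0), (3, 0), (5, 0)], [], [5, 9], [(1, 0, [])]⟩]
  Ta := [((1, 0), 0, 1), ((1, 10), 0, 9), ((6, 7), 0, 7), ((6, 9), 0, 5)]
  Tb := [((0, 1, 3), 1, 0, 8), ((1, 0, 10), 0, 1, 9), ((2, 3, 5), 2, 8, 6), ((3, 0, 2), 8, 1, 2),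
    ((4, 5, 8), 3, 6, 4), ((5, 2, 4), 6, 2, 3), ((6, 7, 9), 0, 7, 5), ((7, 6, 8), 7, 0, 4),
    ((8, 4, 7), 4, 3, 7), ((9, 6, 10), 5, 0, 9), ((10, 1, 9), 9, 0, 5)]
  Tc := [(1, 2, 3), (1, 2, 4), (1, 2, 6), (1, 2, 7), (1, 3, 4), (1, 3, 6), (1, 3, 7), (1, 4, 6),
    (1, 4, 7), (1, 6, 7)]
  Td := [((1, 2), (0, 1), 0), ((1, 2), (0, 3), 8), ((1, 3), (0, 1), 0), ((1, 3), (0, 3), 8), ((1,
    4), (0, 1), 0), ((1, 4), (0, 3), 8), ((1, 6), (0, 1), 0), ((1, 6), (0, 3), 8), ((1, 7),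
    (0, 1), 0), ((1, 7), (0, 3), 8), ((2, 1), (2, 3), 8), ((2, 1), (2, 5), 6), ((3, 1), (4,
    5), 6), ((3, 1), (4, 8), 4), ((4, 1), (8, 4), 3), ((4, 1), (8, 7), 7), ((6, 1), (5, 2),
    2), ((6, 1), (5, 4), 3), ((7, 1), (7, 6), 0), ((7, 1), (7, 8), 4)]
  G := [[0, 0xca61c6a1a6c1e1ca61c6a1a6c1e1c2,
    0xc6ac6ac6aea6ca6ca6cd62a6ca6ca6cd2a6ca6ca6cb2ca6ca63c6ac6a3a6c1eeca6ca6c32a6c12ca6ca6ca678e8c,
    0xa6c22a6c22a6c22da6c22a6c22a6c22d94,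
    0xc6a442a6ca6cc2ca6ca66c6ac6a6a6ca6ca6cdea6ca6ca6ce2b9a6ca6c32ca6ca66a6ca6ca6cdaa6c12b8c],
    [0, 0,
    0x16c16c16ce216c16c396b2c161a6339a35a3a1c1ee4a1ca1c95c721216cb8b4f2c16536316ac1a3a1c1ee8c,
    0x95c2293c2216c22d16c2216c2216c22d94,
    0x16a495c16c16cd616c12316c596c21a6176659ac1a6a1c95c16cde95cc1aa1ce2b916ca1c32ca6ca668a8c]]

noncomputable def n3147 : Ent := ⟨e3147, noF, [], [], [(7, 17, [6903326391201334775872065844685381424292761054348340378595029942575105, 0])]⟩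

def c3147 : PLift (Cov.check n3147.C.D v3147 = true) := ⟨by decide +kernel⟩

def b3147 : PLift (entF (fidx ts) 400 3147 n3147 = true) := ⟨by decide +kernel⟩

theorem g3147 : GoodF (fidx ts) 400 3147 := GoodF.ofV v3147 n3147 c3147.down b3147.down

/-- 4669454:2429 -/
noncomputable def e3148 : SCfg where
  D := {
    a := 7
    L := 11
    kp := 9
    inn := [(0, 1), (0, 3), (1, 0), (1, 2), (1, 3), (2, 1), (2, 3), (2, 4), (3, 0), (3, 1), (3, 2), (3,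
      4), (3, 5), (4, 2), (4, 3), (5, 3), (5, 6), (6, 5)]
    mix := [(0, 0), (0, 1), (1, 0), (1, 2), (1, 3), (2, 2), (2, 4), (2, 5), (3, 1), (3, 6), (3, 7), (3,
      8), (4, 4), (4, 8), (5, 1), (5, 6), (5, 9), (6, 6), (6, 9), (6, 10)]
    cl := [1, 0, 2, 8, 3, 6, 0, 7, 4, 5, 9]
    chq := [(1, 2), (1, 3), (1, 4), (1, 6), (1, 7), (2, 1), (3, 1), (4, 1), (6, 1), (7, 1)]
    rng := [(0, 1), (0, 3), (1, 0), (1, 9), (2, 3), (2, 5), (3, 0), (3, 2), (4, 5), (4, 8), (5, 2), (5,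
      4), (6, 7), (6, 10), (7, 6), (7, 8), (8, 4), (8, 7), (9, 1), (9, 10), (10, 6), (10, 9)]
    lev := [] }
  links := [[1, 7, 8, 3], [7, 0, 3, 2, 9, 10], [9, 1, 3, 4, 11, 12], [4, 2, 1, 0, 8, 5, 13, 14, 15], [11,
    2, 3, 15], [13, 3, 8, 16, 6], [13, 5, 16, 17]]
  P := {
    a := 7
    N := 18
    nb := [394, 1677, 6682, 57655, 34828, 74056, 204832, 1283, 65705, 5126, 642, 36884, 2564, 147560,
      40968, 18456, 131424, 73792]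
    tri := [(0, 1, 3), (0, 1, 7), (0, 3, 8), (0, 7, 8), (1, 2, 3), (1, 2, 9), (1, 7, 10), (1, 9, 10),
      (2, 3, 4), (2, 4, 11), (2, 9, 12), (2, 11, 12), (3, 4, 15), (3, 5, 8), (3, 5, 13), (3, 13,
      14), (3, 14, 15), (4, 11, 15), (5, 6, 13), (5, 6, 16), (5, 8, 16), (6, 13, 17), (6, 16, 17)]
    fin := [0, 0, 0, 0, 0, 5, 5, 0, 5, 9, 10, 11, 12, 5, 14, 15, 16, 17]
    chd := [(0, 9), (0, 11), (0, 12), (0, 14), (0, 15)]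
    steps := [(0, 1), (0, 2), (0, 3), (0, 4), (0, 7), (5, 6), (5, 8), (5, 13)] }
  rep := [5, 0, 9, 11, 15, 16, 12, 14, 10, 17]

noncomputable def v3148 : Cov.CovD where
  P := 3
  N := 7
  pl := [3, 9, 10]
  lev := [⟨[], [], [(0, 1)], [], [(0, 1, [2, 3, 4, 6, 7]), (1, 0, [])]⟩,
    ⟨[], [(0, 0), (0, 1), (0, 2)], [(1, 2)], [8], [(0, 1, [2, 3, 4, 6, 7]), (2, 2, [1])]⟩,
    ⟨[(0, 1)], [(1, 1), (1, 2), (1, 3), (1, 6)], [(2, 3), (2, 6), (3, 6)], [], [(2, 2,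
      [1]), (4, 3, [1]), (5, 6, [1])]⟩,
    ⟨[(0, 1), (0, 2), (1, 2)], [(0, 0), (0, 1), (0, 4), (0, 7), (1, 0), (1, 1), (1, 2), (1,
      4), (1, 7), (2, 0), (2, 2), (2, 3), (2, 4), (2, 6), (2, 7)], [(0, 0), (0, 4), (0, 7),
      (4, 7)], [], [(1, 0, []), (6, 0, []), (7, 7, [1]), (8, 4, [1])]⟩,
    ⟨[(0, 3), (1, 2), (1, 3), (2, 3)], [(2, 2), (2, 3), (2, 4), (2, 6), (3, 0), (3, 3), (3,
      4), (3, 7)], [(3, 4)], [], [(4, 3, [1]), (8, 4, [1])]⟩,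
    ⟨[(0, 3), (1, 3), (2, 3), (3, 4)], [(0, 0), (3, 0), (3, 4), (3, 7)], [(0, 0)], [5],
      [(1, 0, []), (6, 0, [])]⟩,
    ⟨[(3, 5)], [(3, 0), (5, 0)], [], [5, 9], [(6, 0, [])]⟩]
  Ta := [((1, 0), 0, 1), ((1, 9), 0, 5), ((6, 7), 0, 7), ((6, 10), 0, 9)]
  Tb := [((0, 1, 3), 1, 0, 8), ((1, 0, 9), 0, 1, 5), ((2, 3, 5), 2, 8, 6), ((3, 0, 2), 8, 1, 2),
    ((4, 5, 8), 3, 6, 4), ((5, 2, 4), 6, 2, 3), ((6, 7, 10), 0, 7, 9), ((7, 6, 8), 7, 0, 4),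
    ((8, 4, 7), 4, 3, 7), ((9, 1, 10), 5, 0, 9), ((10, 6, 9), 9, 0, 5)]
  Tc := [(1, 2, 3), (1, 2, 4), (1, 2, 6), (1, 2, 7), (1, 3, 4), (1, 3, 6), (1, 3, 7), (1, 4, 6),
    (1, 4, 7), (1, 6, 7)]
  Td := [((1, 2), (0, 1), 0), ((1, 2), (0, 3), 8), ((1, 3), (0, 1), 0), ((1, 3), (0, 3), 8), ((1,
    4), (0, 1), 0), ((1, 4), (0, 3), 8), ((1, 6), (0, 1), 0), ((1, 6), (0, 3), 8), ((1, 7),
    (0, 1), 0), ((1, 7), (0, 3), 8), ((2, 1), (2, 3), 8), ((2, 1), (2, 5), 6), ((3, 1), (4,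
    5), 6), ((3, 1), (4, 8), 4), ((4, 1), (8, 4), 3), ((4, 1), (8, 7), 7), ((6, 1), (5, 2),
    2), ((6, 1), (5, 4), 3), ((7, 1), (7, 6), 0), ((7, 1), (7, 8), 4)]
  G := [[0, 0x1161116111c1e1116111a111c1e1c2,
    0x16c39a32c1ac1a1a6ea1c16616cc1a92a1ca1c32c1ac1a35aba1ca6c56eca1ca1c321a61a6c1678a1a616c982cc,
    0x93c2216c2295c22da1c2216c22a1c22d58,
    0x1ba4a1ca1ca1cd6a1c12393cc16c21a6c166c1aa214795ca1ca1cde16ca1ca1ce2b9a1c16c32c161a668a8c],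
    [0, 0,
    0xa6ca6c32a6ca6c32ca6ca6ca67c6ac6a5a6ca6c9eea6ca6c32a6ca6c32ca6ca6ca6bc6ac6ac6aba6c1eec1,
    0xa6c22a6c22a6c22da6c22a6c22a6c22dc1,
    0xc6a4a6ca6ca6cd62a6ca6c32ca6ca66c6ac6a5a6ca6ca6cdea6ca6ca6ce2b9a6ca6c32ca6ca668a6c12b8c]]

noncomputable def n3148 : Ent := ⟨e3148, noF, [], [], []⟩

def c3148 : PLift (Cov.check n3148.C.D v3148 = true) := ⟨by decide +kernel⟩

def b3148 : PLift (entF (fidx ts) 400 3148 n3148 = true) := ⟨by decide +kernel⟩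

theorem g3148 : GoodF (fidx ts) 400 3148 := GoodF.ofV v3148 n3148 c3148.down b3148.down

/-- 4668544:2430/2 -/
noncomputable def e3149 : SCfg where
  D := {
    a := 7
    L := 9
    kp := 7
    inn := [(0, 1), (0, 3), (1, 0), (1, 2), (1, 3), (2, 1), (2, 3), (2, 5), (3, 0), (3, 1), (3, 2), (3,
      4), (4, 3), (4, 6), (5, 2), (6, 4)]
    mix := [(0, 0), (0, 1), (1, 0), (1, 2), (1, 3), (2, 2), (2, 4), (2, 5), (3, 1), (3, 4), (3, 6), (3,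
      7), (4, 4), (4, 5), (4, 7), (5, 2), (5, 5), (5, 8), (6, 5), (6, 7), (6, 8)]
    cl := [2, 0, 3, 6, 0, 1, 7, 4, 5]
    chq := [(0, 3), (0, 6), (1, 3), (1, 4), (1, 7), (3, 0), (3, 1), (4, 1), (6, 0), (7, 1)]
    rng := [(0, 1), (0, 3), (1, 0), (1, 6), (2, 3), (2, 8), (3, 0), (3, 2), (4, 5), (5, 4), (5, 8), (6,
      1), (6, 7), (7, 6), (7, 8), (8, 2), (8, 5), (8, 7)]
    lev := [] }
  links := [[1, 7, 8, 3], [7, 0, 3, 2, 9, 10], [9, 1, 3, 11, 12, 5], [11, 2, 1, 0, 8, 13, 14, 4], [11, 3,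
    14, 6, 12], [9, 2, 12, 15], [12, 4, 14, 15]]
  P := {
    a := 7
    N := 16
    nb := [394, 1677, 6698, 26903, 22600, 37380, 53264, 1283, 8329, 33830, 642, 4124, 34932, 16648,
      41048, 21088]
    tri := [(0, 1, 3), (0, 1, 7), (0, 3, 8), (0, 7, 8), (1, 2, 3), (1, 2, 9), (1, 7, 10), (1, 9, 10),
      (2, 3, 11), (2, 5, 9), (2, 5, 12), (2, 11, 12), (3, 4, 11), (3, 4, 14), (3, 8, 13), (3, 13,
      14), (4, 6, 12), (4, 6, 14), (4, 11, 12), (5, 9, 15), (5, 12, 15), (6, 12, 15), (6, 14, 15)]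
    fin := [0, 0, 0, 3, 3, 5, 6, 7, 0, 9, 10, 0, 5, 3, 6, 15]
    chd := [(0, 9), (0, 10), (5, 3), (5, 6), (9, 5)]
    steps := [(0, 1), (0, 2), (0, 8), (0, 11), (3, 4), (3, 13), (5, 12), (6, 14)] }
  rep := [0, 5, 7, 9, 6, 15, 10, 3]

noncomputable def v3149 : Cov.CovD where
  P := 3
  N := 5
  pl := [0, 8]
  lev := [⟨[], [], [], [2], [(1, 0, [3, 6])]⟩,
    ⟨[], [(0, 0), (0, 3), (0, 6)], [(3, 6)], [2], [(2, 3, [0, 1]), (3, 6, [0])]⟩,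
    ⟨[(0, 1)], [(1, 0), (1, 1), (1, 3), (1, 6)], [(0, 1), (0, 3), (1, 3)], [], [(2, 3, [0,
      1]), (4, 0, [3, 6]), (5, 1, [3, 4, 7])]⟩,
    ⟨[(0, 1), (0, 2), (1, 2)], [(0, 0), (0, 4), (0, 7), (1, 0), (1, 3), (1, 4), (1, 6), (1,
      7), (2, 0), (2, 1), (2, 3), (2, 4), (2, 7)], [(0, 0), (0, 4), (0, 7), (4, 7)], [], [(1,
      0, [3, 6]), (4, 0, [3, 6]), (6, 7, [1]), (7, 4, [1])]⟩,
    ⟨[(0, 3), (1, 3), (2, 3)], [(2, 0), (2, 1), (3, 0), (3, 1), (3, 4), (3, 7)], [(0, 1),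
      (0, 4), (1, 4)], [], [(4, 0, [3, 6]), (5, 1, [3, 4, 7]), (7, 4, [1])]⟩,
    ⟨[(1, 2), (2, 3)], [(1, 3), (2, 0), (2, 1), (2, 3), (4, 1)], [(1, 3)], [5], [(2, 3, [0,
      1]), (5, 1, [3, 4, 7])]⟩,
    ⟨[(3, 4)], [(2, 1), (3, 4), (4, 0), (4, 1), (4, 4), (5, 1)], [(1, 4)], [5], [(5, 1, [3,
      4, 7]), (7, 4, [1])]⟩]
  Ta := [((1, 0), 0, 2), ((1, 6), 0, 7), ((4, 5), 0, 1)]
  Tb := [((0, 1, 3), 2, 0, 6), ((1, 0, 6), 0, 2, 7), ((2, 3, 8), 3, 6, 5), ((3, 0, 2), 6, 2, 3),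
    ((5, 4, 8), 1, 0, 5), ((6, 1, 7), 7, 0, 4), ((7, 6, 8), 4, 7, 5), ((8, 2, 5), 5, 3, 1),
    ((8, 2, 7), 5, 3, 4), ((8, 5, 7), 5, 1, 4)]
  Tc := [(0, 3, 6), (1, 3, 4), (1, 3, 7), (1, 4, 7), (3, 0, 1)]
  Td := [((0, 3), (1, 0), 2), ((0, 3), (1, 6), 7), ((0, 3), (4, 5), 1), ((0, 6), (1, 0), 2), ((0,
    6), (1, 6), 7), ((0, 6), (4, 5), 1), ((1, 3), (5, 4), 0), ((1, 3), (5, 8), 5), ((1, 4),
    (5, 4), 0), ((1, 4), (5, 8), 5), ((1, 7), (5, 4), 0), ((1, 7), (5, 8), 5), ((3, 0), (2,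
    3), 6), ((3, 0), (2, 8), 5), ((3, 1), (2, 3), 6), ((3, 1), (2, 8), 5), ((4, 1), (7, 6),
    7), ((4, 1), (7, 8), 5), ((6, 0), (3, 0), 2), ((6, 0), (3, 2), 3), ((7, 1), (6, 1), 0),
    ((7, 1), (6, 7), 4)]
  G := [[0, 0, 0x9111c28444c259111c2229e44561151c28848c2911549c2225e888c44ca9ac,
    0x819549c2985415c2c18, 0x819549c2985415c2c18], [0,
    0x44a844ce226884ae684c2ac6a26426ca4ca82a64c6426ace18, 0, 0x819549c2985415c2c14,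
    0x819549c2985415c2c18]]

noncomputable def n3149 : Ent := ⟨e3149, noF, [], [], []⟩

def c3149 : PLift (Cov.check n3149.C.D v3149 = true) := ⟨by decide +kernel⟩

def b3149 : PLift (entF (fidx ts) 400 3149 n3149 = true) := ⟨by decide +kernel⟩

theorem g3149 : GoodF (fidx ts) 400 3149 := GoodF.ofV v3149 n3149 c3149.down b3149.down

/-- 4668544:2430/1 -/
noncomputable def e3150 : SCfg where
  D := {
    a := 7
    L := 10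
    kp := 8
    inn := [(0, 1), (0, 3), (1, 0), (1, 2), (1, 3), (2, 1), (2, 3), (2, 5), (3, 0), (3, 1), (3, 2), (3,
      4), (4, 3), (4, 6), (5, 2), (6, 4)]
    mix := [(0, 0), (0, 1), (1, 0), (1, 2), (1, 3), (2, 2), (2, 4), (2, 5), (3, 1), (3, 4), (3, 6), (3,
      7), (4, 4), (4, 7), (4, 8), (5, 2), (5, 5), (5, 9), (6, 7), (6, 8), (6, 9)]
    cl := [3, 4, 1, 8, 0, 2, 7, 0, 5, 6]
    chq := [(1, 2), (1, 3), (2, 1), (2, 3), (2, 4), (2, 7), (3, 1), (3, 2), (4, 2), (7, 2)]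
    rng := [(0, 1), (0, 3), (1, 0), (1, 6), (2, 3), (2, 9), (3, 0), (3, 2), (4, 5), (4, 8), (5, 4), (5,
      9), (6, 1), (6, 7), (7, 6), (7, 9), (8, 4), (8, 9), (9, 2), (9, 5), (9, 7), (9, 8)]
    lev := [] }
  links := [[1, 7, 8, 3], [7, 0, 3, 2, 9, 10], [9, 1, 3, 11, 12, 5], [11, 2, 1, 0, 8, 13, 14, 4], [11, 3,
    14, 6, 15], [9, 2, 12, 16], [15, 4, 14, 16]]
  P := {
    a := 7
    N := 17
    nb := [394, 1677, 6698, 26903, 51272, 70148, 114704, 1283, 8329, 66598, 642, 36892, 67620, 16648,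
      73816, 67664, 53856]
    tri := [(0, 1, 3), (0, 1, 7), (0, 3, 8), (0, 7, 8), (1, 2, 3), (1, 2, 9), (1, 7, 10), (1, 9, 10),
      (2, 3, 11), (2, 5, 9), (2, 5, 12), (2, 11, 12), (3, 4, 11), (3, 4, 14), (3, 8, 13), (3, 13,
      14), (4, 6, 14), (4, 6, 15), (4, 11, 15), (5, 9, 16), (5, 12, 16), (6, 14, 16), (6, 15, 16)]
    fin := [0, 0, 2, 2, 4, 5, 4, 0, 8, 9, 10, 4, 2, 13, 4, 15, 5]
    chd := [(0, 2), (0, 9), (2, 13), (8, 2), (9, 2)]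
    steps := [(0, 1), (0, 7), (2, 3), (2, 12), (4, 6), (4, 14), (4, 11), (5, 16)] }
  rep := [4, 9, 2, 0, 8, 15, 5, 13, 10]

noncomputable def v3150 : Cov.CovD where
  P := 3
  N := 6
  pl := [3, 8, 9]
  lev := [⟨[], [], [(3, 4)], [], [(0, 3, [1, 2]), (1, 4, [2])]⟩,
    ⟨[], [(0, 1), (0, 3), (0, 4)], [(1, 3)], [8], [(0, 3, [1, 2]), (2, 1, [2, 3])]⟩,
    ⟨[(0, 1)], [(1, 0), (1, 1), (1, 2), (1, 3)], [(0, 1), (0, 2), (1, 2)], [], [(2, 1, [2,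
      3]), (4, 0, []), (5, 2, [1, 3, 4, 7])]⟩,
    ⟨[(0, 1), (0, 2), (1, 2)], [(0, 0), (0, 3), (0, 4), (0, 7), (1, 0), (1, 1), (1, 3), (1,
      4), (1, 7), (2, 0), (2, 1), (2, 2), (2, 4), (2, 7)], [(0, 0), (0, 4), (0, 7), (4, 7)],
      [], [(1, 4, [2]), (4, 0, []), (6, 7, [2]), (7, 0, [])]⟩,
    ⟨[(0, 3), (1, 3), (2, 3)], [(2, 0), (3, 0), (3, 4), (3, 7)], [(0, 0)], [5], [(4, 0,
      []), (7, 0, [])]⟩,
    ⟨[(1, 2), (2, 3)], [(1, 1), (2, 0), (2, 1), (2, 2)], [(1, 2)], [6], [(2, 1, [2, 3]),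
      (5, 2, [1, 3, 4, 7])]⟩,
    ⟨[(3, 4)], [(3, 0), (4, 0)], [], [5, 6], [(7, 0, [])]⟩]
  Ta := [((4, 5), 0, 2), ((4, 8), 0, 5), ((7, 6), 0, 7), ((7, 9), 0, 6)]
  Tb := [((0, 1, 3), 3, 4, 8), ((1, 0, 6), 4, 3, 7), ((2, 3, 9), 1, 8, 6), ((3, 0, 2), 8, 3, 1),
    ((4, 5, 8), 0, 2, 5), ((5, 4, 9), 2, 0, 6), ((6, 1, 7), 7, 4, 0), ((7, 6, 9), 0, 7, 6),
    ((8, 4, 9), 5, 0, 6), ((9, 2, 5), 6, 1, 2), ((9, 2, 7), 6, 1, 0), ((9, 2, 8), 6, 1, 5),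
    ((9, 5, 7), 6, 2, 0), ((9, 5, 8), 6, 2, 5), ((9, 7, 8), 6, 0, 5)]
  Tc := [(1, 2, 3), (2, 1, 3), (2, 1, 4), (2, 1, 7), (2, 3, 4), (2, 3, 7), (2, 4, 7), (3, 1, 2)]
  Td := [((1, 2), (2, 3), 8), ((1, 2), (2, 9), 6), ((1, 3), (2, 3), 8), ((1, 3), (2, 9), 6), ((2,
    1), (5, 4), 0), ((2, 1), (5, 9), 6), ((2, 3), (5, 4), 0), ((2, 3), (5, 9), 6), ((2, 4),
    (5, 4), 0), ((2, 4), (5, 9), 6), ((2, 7), (5, 4), 0), ((2, 7), (5, 9), 6), ((3, 1), (0,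
    1), 4), ((3, 1), (0, 3), 8), ((3, 2), (0, 1), 4), ((3, 2), (0, 3), 8), ((4, 2), (1, 0),
    3), ((4, 2), (1, 6), 7), ((7, 2), (6, 1), 4), ((7, 2), (6, 7), 0)]
  G := [[0, 0x21c14cc24882c21cc28486c24c414c21ca182cc282c24cc2481c24cc284862261222681c14cce8ef,
    0x14146414c11c68828a21c14ccec4414611c21ca82c21cce182868c11c12cc414c12c611c11c6acd1,
    0x2111c242111c282111c24d2,
    0x1161a4841161a4411168c4111688c1141a48411461161a1441ce81161a48d14a16481161a481161a48df],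
    [0,
    0x82c24cc24882c24cc28444a4686c24cac28a8c8c282c24cc2482c24cc2822284c22a82c24cce84c48cef,
    0, 0x82c24cc2182924cc28829425c28d2,
    0x84c62ca41849429a444a4689c6141a4884121a48848a49849429a829449c68849429a48d44a46849429ac8849429a485f]]

noncomputable def n3150 : Ent := ⟨e3150, noF, [], [], [(15, 12, [1685356702444143110630498102614717315052428200905228761126563794945, 0])]⟩

def c3150 : PLift (Cov.check n3150.C.D v3150 = true) := ⟨by decide +kernel⟩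

def b3150 : PLift (entF (fidx ts) 400 3150 n3150 = true) := ⟨by decide +kernel⟩

theorem g3150 : GoodF (fidx ts) 400 3150 := GoodF.ofV v3150 n3150 c3150.down b3150.down

/-- 4668544:2430/3 -/
noncomputable def e3151 : SCfg where
  D := {
    a := 7
    L := 10
    kp := 8
    inn := [(0, 1), (0, 3), (1, 0), (1, 2), (1, 3), (2, 1), (2, 3), (2, 5), (3, 0), (3, 1), (3, 2), (3,
      4), (4, 3), (4, 6), (5, 2), (6, 4)]
    mix := [(0, 0), (0, 1), (1, 0), (1, 2), (1, 3), (2, 2), (2, 4), (2, 5), (3, 1), (3, 4), (3, 6), (3,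
      7), (4, 4), (4, 5), (4, 7), (5, 2), (5, 5), (5, 8), (6, 5), (6, 7), (6, 9)]
    cl := [2, 0, 3, 5, 0, 1, 6, 4, 7, 8]
    chq := [(0, 3), (0, 5), (1, 3), (1, 4), (1, 6), (3, 0), (3, 1), (4, 1), (5, 0), (6, 1)]
    rng := [(0, 1), (0, 3), (1, 0), (1, 6), (2, 3), (2, 8), (3, 0), (3, 2), (4, 5), (5, 4), (5, 8), (5,
      9), (6, 1), (6, 7), (7, 6), (7, 9), (8, 2), (8, 5), (9, 5), (9, 7)]
    lev := [] }
  links := [[1, 7, 8, 3], [7, 0, 3, 2, 9, 10], [9, 1, 3, 11, 12, 5], [11, 2, 1, 0, 8, 13, 14, 4], [11, 3,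
    14, 6, 12], [9, 2, 12, 15], [12, 4, 14, 16]]
  P := {
    a := 7
    N := 17
    nb := [394, 1677, 6698, 26903, 22600, 37380, 86032, 1283, 8329, 33830, 642, 4124, 100468, 16648,
      73816, 4640, 20544]
    tri := [(0, 1, 3), (0, 1, 7), (0, 3, 8), (0, 7, 8), (1, 2, 3), (1, 2, 9), (1, 7, 10), (1, 9, 10),
      (2, 3, 11), (2, 5, 9), (2, 5, 12), (2, 11, 12), (3, 4, 11), (3, 4, 14), (3, 8, 13), (3, 13,
      14), (4, 6, 12), (4, 6, 14), (4, 11, 12), (5, 9, 15), (5, 12, 15), (6, 12, 16), (6, 14, 16)]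
    fin := [0, 0, 0, 3, 3, 5, 6, 7, 0, 9, 10, 0, 5, 3, 6, 15, 16]
    chd := [(0, 9), (0, 10), (5, 3), (5, 6), (9, 5)]
    steps := [(0, 1), (0, 2), (0, 8), (0, 11), (3, 4), (3, 13), (5, 12), (6, 14)] }
  rep := [0, 5, 7, 9, 6, 10, 3, 15, 16]

noncomputable def v3151 : Cov.CovD where
  P := 3
  N := 6
  pl := [0, 8, 9]
  lev := [⟨[], [], [], [2], [(1, 0, [3, 5])]⟩,
    ⟨[], [(0, 0), (0, 3), (0, 5)], [(3, 5)], [2], [(2, 3, [0, 1]), (3, 5, [0])]⟩,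
    ⟨[(0, 1)], [(1, 0), (1, 1), (1, 3), (1, 5)], [(0, 1), (0, 3), (1, 3)], [], [(2, 3, [0,
      1]), (4, 0, [3, 5]), (5, 1, [3, 4, 6])]⟩,
    ⟨[(0, 1), (0, 2), (1, 2)], [(0, 0), (0, 4), (0, 6), (1, 0), (1, 3), (1, 4), (1, 5), (1,
      6), (2, 0), (2, 1), (2, 3), (2, 4), (2, 6)], [(0, 0), (0, 4), (0, 6), (4, 6)], [], [(1,
      0, [3, 5]), (4, 0, [3, 5]), (6, 6, [1]), (7, 4, [1])]⟩,
    ⟨[(0, 3), (1, 3), (2, 3)], [(2, 0), (2, 1), (3, 0), (3, 1), (3, 4), (3, 6)], [(0, 1),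
      (0, 4), (1, 4)], [], [(4, 0, [3, 5]), (5, 1, [3, 4, 6]), (7, 4, [1])]⟩,
    ⟨[(1, 2), (2, 3)], [(1, 3), (2, 0), (2, 1), (2, 3), (4, 1)], [(1, 3)], [7], [(2, 3, [0,
      1]), (5, 1, [3, 4, 6])]⟩,
    ⟨[(3, 4)], [(2, 1), (3, 4), (4, 0), (4, 1), (4, 4), (5, 1)], [(1, 4)], [8], [(5, 1, [3,
      4, 6]), (7, 4, [1])]⟩]
  Ta := [((1, 0), 0, 2), ((1, 6), 0, 6), ((4, 5), 0, 1)]
  Tb := [((0, 1, 3), 2, 0, 5), ((1, 0, 6), 0, 2, 6), ((2, 3, 8), 3, 5, 7), ((3, 0, 2), 5, 2, 3),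
    ((5, 4, 8), 1, 0, 7), ((5, 4, 9), 1, 0, 8), ((5, 8, 9), 1, 7, 8), ((6, 1, 7), 6, 0, 4),
    ((7, 6, 9), 4, 6, 8), ((8, 2, 5), 7, 3, 1), ((9, 5, 7), 8, 1, 4)]
  Tc := [(0, 3, 5), (1, 3, 4), (1, 3, 6), (1, 4, 6), (3, 0, 1)]
  Td := [((0, 3), (1, 0), 2), ((0, 3), (1, 6), 6), ((0, 3), (4, 5), 1), ((0, 5), (1, 0), 2), ((0,
    5), (1, 6), 6), ((0, 5), (4, 5), 1), ((1, 3), (5, 4), 0), ((1, 3), (5, 8), 7), ((1, 3),
    (5, 9), 8), ((1, 4), (5, 4), 0), ((1, 4), (5, 8), 7), ((1, 4), (5, 9), 8), ((1, 6), (5,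
    4), 0), ((1, 6), (5, 8), 7), ((1, 6), (5, 9), 8), ((3, 0), (2, 3), 5), ((3, 0), (2, 8),
    7), ((3, 1), (2, 3), 5), ((3, 1), (2, 8), 7), ((4, 1), (7, 6), 6), ((4, 1), (7, 9), 8),
    ((5, 0), (3, 0), 2), ((5, 0), (3, 2), 3), ((6, 1), (6, 1), 0), ((6, 1), (6, 7), 4)]
  G := [[0, 0, 0x9858c219151c29454c25c9151c28821421999559ce218995555caca412425682964c52e,
    0x999559c2995555c2c14, 0x999559c2995555c2c18], [0,
    0xccc66caaaa66ac6cccaac6aa6666caccaaaa64c684666ece18, 0, 0x999559c2995555c2c14,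
    0x999559c2995555c2c18]]

noncomputable def n3151 : Ent := ⟨e3151, noF, [], [], [(16, 15, [1685356702439545624007900436039642273970977273354372543760012988417, 0])]⟩

def c3151 : PLift (Cov.check n3151.C.D v3151 = true) := ⟨by decide +kernel⟩

def b3151 : PLift (entF (fidx ts) 400 3151 n3151 = true) := ⟨by decide +kernel⟩

theorem g3151 : GoodF (fidx ts) 400 3151 := GoodF.ofV v3151 n3151 c3151.down b3151.down

/-- 4668544:2430 -/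
noncomputable def e3152 : SCfg where
  D := {
    a := 7
    L := 11
    kp := 9
    inn := [(0, 1), (0, 3), (1, 0), (1, 2), (1, 3), (2, 1), (2, 3), (2, 5), (3, 0), (3, 1), (3, 2), (3,
      4), (4, 3), (4, 6), (5, 2), (6, 4)]
    mix := [(0, 0), (0, 1), (1, 0), (1, 2), (1, 3), (2, 2), (2, 4), (2, 5), (3, 1), (3, 4), (3, 6), (3,
      7), (4, 4), (4, 7), (4, 8), (5, 2), (5, 5), (5, 9), (6, 7), (6, 8), (6, 10)]
    cl := [3, 4, 1, 6, 0, 2, 7, 0, 5, 8, 9]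
    chq := [(1, 2), (2, 1), (2, 3), (2, 4), (2, 6), (2, 7), (3, 2), (4, 2), (6, 2), (7, 2)]
    rng := [(0, 1), (0, 3), (1, 0), (1, 6), (2, 3), (2, 9), (3, 0), (3, 2), (4, 5), (4, 8), (5, 4), (5,
      9), (6, 1), (6, 7), (7, 6), (7, 10), (8, 4), (8, 10), (9, 2), (9, 5), (10, 7), (10, 8)]
    lev := [] }
  links := [[1, 7, 8, 3], [7, 0, 3, 2, 9, 10], [9, 1, 3, 11, 12, 5], [11, 2, 1, 0, 8, 13, 14, 4], [11, 3,
    14, 6, 15], [9, 2, 12, 16], [15, 4, 14, 17]]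
  P := {
    a := 7
    N := 18
    nb := [394, 1677, 6698, 26903, 51272, 70148, 180240, 1283, 8329, 66598, 642, 36892, 67620, 16648,
      139352, 133200, 4640, 49216]
    tri := [(0, 1, 3), (0, 1, 7), (0, 3, 8), (0, 7, 8), (1, 2, 3), (1, 2, 9), (1, 7, 10), (1, 9, 10),
      (2, 3, 11), (2, 5, 9), (2, 5, 12), (2, 11, 12), (3, 4, 11), (3, 4, 14), (3, 8, 13), (3, 13,
      14), (4, 6, 14), (4, 6, 15), (4, 11, 15), (5, 9, 16), (5, 12, 16), (6, 14, 17), (6, 15, 17)]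
    fin := [0, 1, 1, 1, 4, 1, 4, 0, 8, 9, 10, 4, 1, 13, 4, 15, 16, 17]
    chd := [(0, 1), (1, 13), (8, 1), (9, 1), (10, 1)]
    steps := [(0, 7), (1, 2), (1, 3), (1, 5), (1, 12), (4, 6), (4, 14), (4, 11)] }
  rep := [4, 9, 1, 0, 8, 15, 10, 13, 16, 17]

noncomputable def v3152 : Cov.CovD where
  P := 3
  N := 7
  pl := [8, 9, 10]
  lev := [⟨[], [], [(3, 4)], [], [(0, 3, [2]), (1, 4, [2])]⟩,
    ⟨[], [(0, 1), (0, 3), (0, 4), (0, 6)], [(1, 3), (1, 6), (3, 6)], [], [(0, 3, [2]), (2,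
      1, [2]), (3, 6, [2])]⟩,
    ⟨[(0, 1)], [(1, 0), (1, 1), (1, 2), (1, 3), (1, 6)], [(0, 1), (0, 2), (1, 2)], [], [(2,
      1, [2]), (4, 0, []), (5, 2, [1, 3, 4, 6, 7])]⟩,
    ⟨[(0, 1), (0, 2), (1, 2)], [(0, 0), (0, 3), (0, 4), (0, 7), (1, 0), (1, 1), (1, 3), (1,
      4), (1, 6), (1, 7), (2, 0), (2, 1), (2, 2), (2, 4), (2, 7)], [(0, 0), (0, 4), (0, 7),
      (4, 7)], [], [(1, 4, [2]), (4, 0, []), (6, 7, [2]), (7, 0, [])]⟩,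
    ⟨[(0, 3), (1, 3), (2, 3)], [(2, 0), (3, 0), (3, 4), (3, 7)], [(0, 0)], [5], [(4, 0,
      []), (7, 0, [])]⟩,
    ⟨[(1, 2), (2, 3)], [(1, 1), (2, 0), (2, 1), (2, 2)], [(1, 2)], [8], [(2, 1, [2]), (5,
      2, [1, 3, 4, 6, 7])]⟩,
    ⟨[(3, 4)], [(3, 0), (4, 0)], [], [5, 9], [(7, 0, [])]⟩]
  Ta := [((4, 5), 0, 2), ((4, 8), 0, 5), ((7, 6), 0, 7), ((7, 10), 0, 9)]
  Tb := [((0, 1, 3), 3, 4, 6), ((1, 0, 6), 4, 3, 7), ((2, 3, 9), 1, 6, 8), ((3, 0, 2), 6, 3, 1),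
    ((4, 5, 8), 0, 2, 5), ((5, 4, 9), 2, 0, 8), ((6, 1, 7), 7, 4, 0), ((7, 6, 10), 0, 7, 9),
    ((8, 4, 10), 5, 0, 9), ((9, 2, 5), 8, 1, 2), ((10, 7, 8), 9, 0, 5)]
  Tc := [(2, 1, 3), (2, 1, 4), (2, 1, 6), (2, 1, 7), (2, 3, 4), (2, 3, 6), (2, 3, 7), (2, 4, 6),
    (2, 4, 7), (2, 6, 7)]
  Td := [((1, 2), (2, 3), 6), ((1, 2), (2, 9), 8), ((2, 1), (5, 4), 0), ((2, 1), (5, 9), 8), ((2,
    3), (5, 4), 0), ((2, 3), (5, 9), 8), ((2, 4), (5, 4), 0), ((2, 4), (5, 9), 8), ((2, 6),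
    (5, 4), 0), ((2, 6), (5, 9), 8), ((2, 7), (5, 4), 0), ((2, 7), (5, 9), 8), ((3, 2), (0,
    1), 4), ((3, 2), (0, 3), 6), ((4, 2), (1, 0), 3), ((4, 2), (1, 6), 7), ((6, 2), (3, 0),
    3), ((6, 2), (3, 2), 1), ((7, 2), (6, 1), 4), ((7, 2), (6, 7), 0)]
  G := [[0,
    0x88c4212e24c212691c36cca4a11c62c2859c32aa1c16cc6865232c28c212624c2126c212a1ac61cce8ed,
    0x11c11ca11c11ca611c11c68c11, 0x319965c241a5619c281a561cc24d2,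
    0xc39159a484c414a4814a4688cc4146cc9119a1464ce841464a48cc9119a4849c169a48df], [0,
    0xa266cc24c2aac6aac66cca4aa266cc28ccc66caaac66cc686a262c24a262c24c2a26c262aaac66cce8ed,
    0, 0xaa5669c24aac66cc28aac669c28d2,
    0xc464a41cc9669a48cc14aa9669cac8a46894c464a48c161a4c4a46c868aa464ce9ccc9669a48c4669a485f]]

noncomputable def n3152 : Ent := ⟨e3152, noF, [], [], [(17, 16, [7334685537875745012586738086077695515070955365108989538292687706578945, 0]), (15, 12, [7334790850167418167260058601771954260544355711131940943621308568367105, 0])]⟩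

def c3152 : PLift (Cov.check n3152.C.D v3152 = true) := ⟨by decide +kernel⟩

def b3152 : PLift (entF (fidx ts) 400 3152 n3152 = true) := ⟨by decide +kernel⟩

theorem g3152 : GoodF (fidx ts) 400 3152 := GoodF.ofV v3152 n3152 c3152.down b3152.down

/-- 4668544:2431/2 -/
noncomputable def e3153 : SCfg where
  D := {
    a := 7
    L := 9
    kp := 7
    inn := [(0, 1), (0, 3), (1, 0), (1, 2), (1, 3), (2, 1), (2, 3), (2, 5), (3, 0), (3, 1), (3, 2), (3,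
      4), (4, 3), (4, 6), (5, 2), (6, 4)]
    mix := [(0, 0), (0, 1), (1, 0), (1, 2), (1, 3), (2, 2), (2, 4), (2, 5), (3, 1), (3, 4), (3, 6), (3,
      7), (4, 4), (4, 7), (4, 8), (5, 2), (5, 5), (5, 8), (6, 4), (6, 5), (6, 8)]
    cl := [5, 0, 2, 6, 0, 1, 7, 4, 3]
    chq := [(0, 2), (0, 3), (0, 6), (1, 4), (1, 7), (2, 0), (3, 0), (4, 1), (6, 0), (7, 1)]
    rng := [(0, 1), (0, 3), (1, 0), (1, 6), (2, 3), (2, 8), (3, 0), (3, 2), (4, 5), (5, 4), (5, 8), (6,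
      1), (6, 7), (7, 6), (7, 8), (8, 2), (8, 5), (8, 7)]
    lev := [] }
  links := [[1, 7, 8, 3], [7, 0, 3, 2, 9, 10], [9, 1, 3, 11, 12, 5], [11, 2, 1, 0, 8, 13, 14, 4], [11, 3,
    14, 15, 6], [9, 2, 12, 15], [11, 4, 15, 12]]
  P := {
    a := 7
    N := 16
    nb := [394, 1677, 6698, 26903, 51272, 37380, 38928, 1283, 8329, 33830, 642, 4188, 34916, 16648,
      40984, 21104]
    tri := [(0, 1, 3), (0, 1, 7), (0, 3, 8), (0, 7, 8), (1, 2, 3), (1, 2, 9), (1, 7, 10), (1, 9, 10),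
      (2, 3, 11), (2, 5, 9), (2, 5, 12), (2, 11, 12), (3, 4, 11), (3, 4, 14), (3, 8, 13), (3, 13,
      14), (4, 6, 11), (4, 6, 15), (4, 14, 15), (5, 9, 15), (5, 12, 15), (6, 11, 12), (6, 12, 15)]
    fin := [0, 0, 0, 3, 4, 0, 4, 7, 0, 9, 10, 0, 4, 3, 14, 15]
    chd := [(0, 9), (0, 10), (0, 15), (4, 3), (4, 14)]
    steps := [(0, 1), (0, 2), (0, 5), (0, 8), (0, 11), (3, 13), (4, 6), (4, 12)] }
  rep := [0, 4, 9, 15, 14, 7, 10, 3]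

noncomputable def v3153 : Cov.CovD where
  P := 3
  N := 5
  pl := [0]
  lev := [⟨[], [], [], [5], [(1, 0, [2, 3, 6])]⟩,
    ⟨[], [(0, 0), (0, 2), (0, 6)], [(2, 6)], [5], [(2, 2, [0]), (3, 6, [0])]⟩,
    ⟨[(0, 1)], [(1, 0), (1, 1), (1, 2), (1, 6)], [(0, 1), (0, 2), (1, 2)], [], [(2, 2,
      [0]), (4, 0, [2, 3, 6]), (5, 1, [4, 7])]⟩,
    ⟨[(0, 1), (0, 2), (1, 2)], [(0, 0), (0, 4), (0, 7), (1, 0), (1, 2), (1, 4), (1, 6), (1,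
      7), (2, 0), (2, 1), (2, 2), (2, 4), (2, 7)], [(0, 0), (0, 4), (0, 7), (4, 7)], [], [(1,
      0, [2, 3, 6]), (4, 0, [2, 3, 6]), (6, 7, [1]), (7, 4, [1])]⟩,
    ⟨[(0, 3), (1, 3), (2, 3)], [(2, 0), (3, 0), (3, 3), (3, 4), (3, 7)], [(0, 3), (0, 4),
      (3, 4)], [], [(4, 0, [2, 3, 6]), (7, 4, [1]), (8, 3, [0])]⟩,
    ⟨[(1, 2), (2, 3)], [(1, 2), (2, 0), (2, 1), (2, 2), (2, 3), (4, 3)], [(1, 2), (1, 3),
      (2, 3)], [], [(2, 2, [0]), (5, 1, [4, 7]), (8, 3, [0])]⟩,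
    ⟨[(3, 4)], [(2, 0), (2, 1), (3, 0), (4, 0), (4, 1), (4, 3), (4, 4), (5, 1), (5, 3)],
      [(0, 1), (0, 3), (1, 3)], [], [(4, 0, [2, 3, 6]), (5, 1, [4, 7]), (8, 3, [0])]⟩]
  Ta := [((1, 0), 0, 5), ((1, 6), 0, 7), ((4, 5), 0, 1)]
  Tb := [((0, 1, 3), 5, 0, 6), ((1, 0, 6), 0, 5, 7), ((2, 3, 8), 2, 6, 3), ((3, 0, 2), 6, 5, 2),
    ((5, 4, 8), 1, 0, 3), ((6, 1, 7), 7, 0, 4), ((7, 6, 8), 4, 7, 3), ((8, 2, 5), 3, 2, 1),
    ((8, 2, 7), 3, 2, 4), ((8, 5, 7), 3, 1, 4)]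
  Tc := [(0, 2, 3), (0, 2, 6), (0, 3, 6), (1, 4, 7)]
  Td := [((0, 2), (1, 0), 5), ((0, 2), (1, 6), 7), ((0, 2), (4, 5), 1), ((0, 3), (1, 0), 5), ((0,
    3), (1, 6), 7), ((0, 3), (4, 5), 1), ((0, 6), (1, 0), 5), ((0, 6), (1, 6), 7), ((0, 6),
    (4, 5), 1), ((1, 4), (5, 4), 0), ((1, 4), (5, 8), 3), ((1, 7), (5, 4), 0), ((1, 7), (5,
    8), 3), ((2, 0), (2, 3), 6), ((2, 0), (2, 8), 3), ((3, 0), (8, 2), 2), ((3, 0), (8, 5),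
    1), ((3, 0), (8, 7), 4), ((4, 1), (7, 6), 7), ((4, 1), (7, 8), 3), ((6, 0), (3, 0), 5),
    ((6, 0), (3, 2), 2), ((7, 1), (6, 1), 0), ((7, 1), (6, 7), 4)]
  G := [[0, 0, 0x884484cd241184484cd281c, 0x112112136488411121f2891128844c1ba881441121f245c,
    0x8841c1d2811111c1d2811211281c19e888411121f28bc], [0,
    0x28a428e4884ca681682424e8884c6a414424688a488e8844ce6888c1e, 0x884484cd241881484cd281c,
    0x81241c1668144281485aa41c1284c2c81e, 0x8828141c1e64128a14128228841c1ee81c]]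

noncomputable def n3153 : Ent := ⟨e3153, noF, [], [], []⟩

def c3153 : PLift (Cov.check n3153.C.D v3153 = true) := ⟨by decide +kernel⟩

def b3153 : PLift (entF (fidx ts) 400 3153 n3153 = true) := ⟨by decide +kernel⟩

theorem g3153 : GoodF (fidx ts) 400 3153 := GoodF.ofV v3153 n3153 c3153.down b3153.down

/-- 4668544:2431/1 -/
noncomputable def e3154 : SCfg where
  D := {
    a := 7
    L := 10
    kp := 8
    inn := [(0, 1), (0, 3), (1, 0), (1, 2), (1, 3), (2, 1), (2, 3), (2, 5), (3, 0), (3, 1), (3, 2), (3,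
      4), (4, 3), (4, 6), (5, 2), (6, 4)]
    mix := [(0, 0), (0, 1), (1, 0), (1, 2), (1, 3), (2, 2), (2, 4), (2, 5), (3, 1), (3, 4), (3, 6), (3,
      7), (4, 4), (4, 7), (4, 8), (5, 2), (5, 5), (5, 8), (6, 4), (6, 8), (6, 9)]
    cl := [4, 2, 1, 6, 0, 5, 7, 0, 3, 8]
    chq := [(0, 2), (1, 2), (1, 4), (2, 0), (2, 1), (2, 3), (2, 5), (3, 2), (4, 1), (5, 2)]
    rng := [(0, 1), (0, 3), (1, 0), (1, 6), (2, 3), (2, 8), (3, 0), (3, 2), (4, 5), (4, 9), (5, 4), (5,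
      8), (6, 1), (6, 7), (7, 6), (7, 8), (8, 2), (8, 5), (8, 7), (8, 9), (9, 4), (9, 8)]
    lev := [] }
  links := [[1, 7, 8, 3], [7, 0, 3, 2, 9, 10], [9, 1, 3, 11, 12, 5], [11, 2, 1, 0, 8, 13, 14, 4], [11, 3,
    14, 15, 6], [9, 2, 12, 15], [11, 4, 15, 16]]
  P := {
    a := 7
    N := 17
    nb := [394, 1677, 6698, 26903, 51272, 37380, 100368, 1283, 8329, 33830, 642, 69724, 34852, 16648,
      40984, 86640, 34880]
    tri := [(0, 1, 3), (0, 1, 7), (0, 3, 8), (0, 7, 8), (1, 2, 3), (1, 2, 9), (1, 7, 10), (1, 9, 10),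
      (2, 3, 11), (2, 5, 9), (2, 5, 12), (2, 11, 12), (3, 4, 11), (3, 4, 14), (3, 8, 13), (3, 13,
      14), (4, 6, 11), (4, 6, 15), (4, 14, 15), (5, 9, 15), (5, 12, 15), (6, 11, 16), (6, 15, 16)]
    fin := [0, 0, 2, 2, 4, 2, 4, 0, 2, 9, 10, 4, 12, 13, 4, 15, 16]
    chd := [(0, 9), (2, 4), (2, 9), (2, 12), (2, 15)]
    steps := [(0, 1), (0, 7), (2, 3), (2, 5), (2, 8), (4, 6), (4, 14), (4, 11)] }
  rep := [4, 9, 2, 15, 0, 12, 10, 13, 16]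

noncomputable def v3154 : Cov.CovD where
  P := 3
  N := 6
  pl := [3, 6, 9]
  lev := [⟨[], [], [(2, 4)], [], [(0, 4, [1]), (1, 2, [0, 1, 3, 5])]⟩,
    ⟨[], [(0, 1), (0, 2), (0, 4)], [(1, 4)], [6], [(0, 4, [1]), (2, 1, [2, 4])]⟩,
    ⟨[(0, 1)], [(1, 0), (1, 1), (1, 4), (1, 5)], [(0, 1), (0, 5), (1, 5)], [], [(2, 1, [2,
      4]), (4, 0, [2]), (5, 5, [2])]⟩,
    ⟨[(0, 1), (0, 2), (1, 2)], [(0, 0), (0, 2), (0, 4), (1, 0), (1, 1), (1, 2), (1, 4), (2,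
      0), (2, 1), (2, 2), (2, 5)], [(0, 0), (0, 2)], [7], [(1, 2, [0, 1, 3, 5]), (4, 0, [2]),
      (7, 0, [2])]⟩,
    ⟨[(0, 3), (1, 3), (2, 3)], [(2, 0), (3, 0), (3, 2), (3, 3)], [(0, 0), (0, 3)], [], [(4,
      0, [2]), (7, 0, [2]), (8, 3, [2])]⟩,
    ⟨[(1, 2), (2, 3)], [(1, 1), (2, 0), (2, 1), (2, 3), (2, 5), (4, 3)], [(1, 3), (1, 5),
      (3, 5)], [], [(2, 1, [2, 4]), (5, 5, [2]), (8, 3, [2])]⟩,
    ⟨[(3, 4)], [(2, 0), (3, 0), (4, 0), (4, 3), (5, 3)], [(0, 3)], [8], [(4, 0, [2]), (8,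
      3, [2])]⟩]
  Ta := [((4, 5), 0, 5), ((4, 9), 0, 8), ((7, 6), 0, 7), ((7, 8), 0, 3)]
  Tb := [((0, 1, 3), 4, 2, 6), ((1, 0, 6), 2, 4, 7), ((2, 3, 8), 1, 6, 3), ((3, 0, 2), 6, 4, 1),
    ((4, 5, 9), 0, 5, 8), ((5, 4, 8), 5, 0, 3), ((6, 1, 7), 7, 2, 0), ((7, 6, 8), 0, 7, 3),
    ((8, 2, 5), 3, 1, 5), ((8, 2, 7), 3, 1, 0), ((8, 2, 9), 3, 1, 8), ((8, 5, 7), 3, 5, 0),
    ((8, 5, 9), 3, 5, 8), ((8, 7, 9), 3, 0, 8), ((9, 4, 8), 8, 0, 3)]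
  Tc := [(1, 2, 4), (2, 0, 1), (2, 0, 3), (2, 0, 5), (2, 1, 3), (2, 1, 5), (2, 3, 5)]
  Td := [((0, 2), (4, 5), 5), ((0, 2), (4, 9), 8), ((0, 2), (7, 6), 7), ((0, 2), (7, 8), 3), ((1,
    2), (2, 3), 6), ((1, 2), (2, 8), 3), ((1, 4), (2, 3), 6), ((1, 4), (2, 8), 3), ((2, 0),
    (1, 0), 4), ((2, 0), (1, 6), 7), ((2, 1), (1, 0), 4), ((2, 1), (1, 6), 7), ((2, 3), (1,
    0), 4), ((2, 3), (1, 6), 7), ((2, 5), (1, 0), 4), ((2, 5), (1, 6), 7), ((3, 2), (8, 2),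
    1), ((3, 2), (8, 5), 5), ((3, 2), (8, 7), 0), ((3, 2), (8, 9), 8), ((4, 1), (0, 1), 2),
    ((4, 1), (0, 3), 6), ((5, 2), (5, 4), 0), ((5, 2), (5, 8), 3)]
  G := [[0, 0x64eea6eeee2c264eea6a2c6e6ac2c2a26c262acc2a26c262acce1,
    0x111161111ac1111a1111cac114112188e141161111acc5111161111c6114118112ec83,
    0xe224a6ed2e12caa6ed2a6ed2c2ca862c2a262c2c13,
    0xe25416248e484e46168ce4448e4caac9216e14acca6ed4a6ed4a41b], [0,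
    0x111e2111e2c2111e2111e2c21212611a2c1214c1212acce1,
    0x1111a1111c6114112118ec1111a1111ca4112114118e118112114ecd114118112e843,
    0xa262c218a262c2146242a282112112ce1d, 0xa464c218a61d484c4a46a464ca1c661d4c61d4a41b]]

noncomputable def n3154 : Ent := ⟨e3154, noF, [], [], [(16, 12, [1580044410777118419473445963789405229760683414688298388994436435969, 0])]⟩

def c3154 : PLift (Cov.check n3154.C.D v3154 = true) := ⟨by decide +kernel⟩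

def b3154 : PLift (entF (fidx ts) 400 3154 n3154 = true) := ⟨by decide +kernel⟩

theorem g3154 : GoodF (fidx ts) 400 3154 := GoodF.ofV v3154 n3154 c3154.down b3154.down

/-- 4668544:2431/3 -/
noncomputable def e3155 : SCfg where
  D := {
    a := 7
    L := 10
    kp := 8
    inn := [(0, 1), (0, 3), (1, 0), (1, 2), (1, 3), (2, 1), (2, 3), (2, 5), (3, 0), (3, 1), (3, 2), (3,
      4), (4, 3), (4, 6), (5, 2), (6, 4)]
    mix := [(0, 0), (0, 1), (1, 0), (1, 2), (1, 3), (2, 2), (2, 4), (2, 5), (3, 1), (3, 4), (3, 6), (3,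
      7), (4, 4), (4, 7), (4, 8), (5, 2), (5, 5), (5, 9), (6, 4), (6, 5), (6, 8)]
    cl := [2, 0, 3, 6, 0, 1, 7, 4, 5, 8]
    chq := [(0, 3), (0, 6), (1, 3), (1, 4), (1, 7), (3, 0), (3, 1), (4, 1), (6, 0), (7, 1)]
    rng := [(0, 1), (0, 3), (1, 0), (1, 6), (2, 3), (2, 9), (3, 0), (3, 2), (4, 5), (5, 4), (5, 8), (5,
      9), (6, 1), (6, 7), (7, 6), (7, 8), (8, 5), (8, 7), (9, 2), (9, 5)]
    lev := [] }
  links := [[1, 7, 8, 3], [7, 0, 3, 2, 9, 10], [9, 1, 3, 11, 12, 5], [11, 2, 1, 0, 8, 13, 14, 4], [11, 3,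
    14, 15, 6], [9, 2, 12, 16], [11, 4, 15, 12]]
  P := {
    a := 7
    N := 17
    nb := [394, 1677, 6698, 26903, 51272, 70148, 38928, 1283, 8329, 66598, 642, 4188, 100452, 16648,
      40984, 20560, 4640]
    tri := [(0, 1, 3), (0, 1, 7), (0, 3, 8), (0, 7, 8), (1, 2, 3), (1, 2, 9), (1, 7, 10), (1, 9, 10),
      (2, 3, 11), (2, 5, 9), (2, 5, 12), (2, 11, 12), (3, 4, 11), (3, 4, 14), (3, 8, 13), (3, 13,
      14), (4, 6, 11), (4, 6, 15), (4, 14, 15), (5, 9, 16), (5, 12, 16), (6, 11, 12), (6, 12, 15)]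
    fin := [0, 0, 0, 3, 4, 4, 4, 7, 0, 9, 10, 0, 4, 3, 14, 15, 16]
    chd := [(0, 9), (0, 10), (4, 3), (4, 14), (9, 4)]
    steps := [(0, 1), (0, 2), (0, 8), (0, 11), (3, 13), (4, 6), (4, 12), (4, 5)] }
  rep := [0, 4, 7, 9, 14, 15, 10, 3, 16]

noncomputable def v3155 : Cov.CovD where
  P := 3
  N := 6
  pl := [0, 8, 9]
  lev := [⟨[], [], [], [2], [(1, 0, [3, 6])]⟩,
    ⟨[], [(0, 0), (0, 3), (0, 6)], [(3, 6)], [2], [(2, 3, [0, 1]), (3, 6, [0])]⟩,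
    ⟨[(0, 1)], [(1, 0), (1, 1), (1, 3), (1, 6)], [(0, 1), (0, 3), (1, 3)], [], [(2, 3, [0,
      1]), (4, 0, [3, 6]), (5, 1, [3, 4, 7])]⟩,
    ⟨[(0, 1), (0, 2), (1, 2)], [(0, 0), (0, 4), (0, 7), (1, 0), (1, 3), (1, 4), (1, 6), (1,
      7), (2, 0), (2, 1), (2, 3), (2, 4), (2, 7)], [(0, 0), (0, 4), (0, 7), (4, 7)], [], [(1,
      0, [3, 6]), (4, 0, [3, 6]), (6, 7, [1]), (7, 4, [1])]⟩,
    ⟨[(0, 3), (1, 3), (2, 3)], [(2, 0), (3, 0), (3, 4), (3, 7)], [(0, 4)], [5], [(4, 0, [3,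
      6]), (7, 4, [1])]⟩,
    ⟨[(1, 2), (2, 3)], [(1, 3), (2, 0), (2, 1), (2, 3)], [(1, 3)], [8], [(2, 3, [0, 1]),
      (5, 1, [3, 4, 7])]⟩,
    ⟨[(3, 4)], [(2, 0), (2, 1), (3, 0), (4, 0), (4, 1), (4, 4), (5, 1)], [(0, 1)], [5],
      [(4, 0, [3, 6]), (5, 1, [3, 4, 7])]⟩]
  Ta := [((1, 0), 0, 2), ((1, 6), 0, 7), ((4, 5), 0, 1)]
  Tb := [((0, 1, 3), 2, 0, 6), ((1, 0, 6), 0, 2, 7), ((2, 3, 9), 3, 6, 8), ((3, 0, 2), 6, 2, 3),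
    ((5, 4, 8), 1, 0, 5), ((5, 4, 9), 1, 0, 8), ((5, 8, 9), 1, 5, 8), ((6, 1, 7), 7, 0, 4),
    ((7, 6, 8), 4, 7, 5), ((8, 5, 7), 5, 1, 4), ((9, 2, 5), 8, 3, 1)]
  Tc := [(0, 3, 6), (1, 3, 4), (1, 3, 7), (1, 4, 7), (3, 0, 1)]
  Td := [((0, 3), (1, 0), 2), ((0, 3), (1, 6), 7), ((0, 3), (4, 5), 1), ((0, 6), (1, 0), 2), ((0,
    6), (1, 6), 7), ((0, 6), (4, 5), 1), ((1, 3), (5, 4), 0), ((1, 3), (5, 8), 5), ((1, 3),
    (5, 9), 8), ((1, 4), (5, 4), 0), ((1, 4), (5, 8), 5), ((1, 4), (5, 9), 8), ((1, 7), (5,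
    4), 0), ((1, 7), (5, 8), 5), ((1, 7), (5, 9), 8), ((3, 0), (2, 3), 6), ((3, 0), (2, 9),
    8), ((3, 1), (2, 3), 6), ((3, 1), (2, 9), 8), ((4, 1), (7, 6), 7), ((4, 1), (7, 8), 5),
    ((6, 0), (3, 0), 2), ((6, 0), (3, 2), 3), ((7, 1), (6, 1), 0), ((7, 1), (6, 7), 4)]
  G := [[0, 0, 0x4181c4372448141cc3d28848c8e2988644c4e21889449cc9d2885445cc5d2c22c22cdec,
    0x889449cc9d2885445115225f2c18, 0x889449cc9d288544511c25f2c18], [0,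
    0xaac44226aa6226e4a188c82ca48a88accae666c44c24ce886446cc6ea66a42a22ae8e1c, 0,
    0x422889449cc9ea422885445cc5ea888d24e14, 0x822889449cc9e6822885445cc5e6444d28e18]]

noncomputable def n3155 : Ent := ⟨e3155, noF, [], [], [(15, 16, [1580044410770988437309982408355971841652082177953823432505702027265, 0])]⟩

def c3155 : PLift (Cov.check n3155.C.D v3155 = true) := ⟨by decide +kernel⟩

def b3155 : PLift (entF (fidx ts) 400 3155 n3155 = true) := ⟨by decide +kernel⟩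

theorem g3155 : GoodF (fidx ts) 400 3155 := GoodF.ofV v3155 n3155 c3155.down b3155.down

/-- 4668544:2431 -/
noncomputable def e3156 : SCfg where
  D := {
    a := 7
    L := 11
    kp := 9
    inn := [(0, 1), (0, 3), (1, 0), (1, 2), (1, 3), (2, 1), (2, 3), (2, 5), (3, 0), (3, 1), (3, 2), (3,
      4), (4, 3), (4, 6), (5, 2), (6, 4)]
    mix := [(0, 0), (0, 1), (1, 0), (1, 2), (1, 3), (2, 2), (2, 4), (2, 5), (3, 1), (3, 4), (3, 6), (3,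
      7), (4, 4), (4, 7), (4, 8), (5, 2), (5, 5), (5, 9), (6, 4), (6, 8), (6, 10)]
    cl := [3, 4, 1, 6, 0, 2, 7, 0, 5, 8, 9]
    chq := [(1, 2), (2, 1), (2, 3), (2, 4), (2, 6), (2, 7), (3, 2), (4, 2), (6, 2), (7, 2)]
    rng := [(0, 1), (0, 3), (1, 0), (1, 6), (2, 3), (2, 9), (3, 0), (3, 2), (4, 5), (4, 10), (5, 4),
      (5, 9), (6, 1), (6, 7), (7, 6), (7, 8), (8, 7), (8, 10), (9, 2), (9, 5), (10, 4), (10, 8)]
    lev := [] }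
  links := [[1, 7, 8, 3], [7, 0, 3, 2, 9, 10], [9, 1, 3, 11, 12, 5], [11, 2, 1, 0, 8, 13, 14, 4], [11, 3,
    14, 15, 6], [9, 2, 12, 16], [11, 4, 15, 17]]
  P := {
    a := 7
    N := 18
    nb := [394, 1677, 6698, 26903, 51272, 70148, 165904, 1283, 8329, 66598, 642, 135260, 67620, 16648,
      40984, 147536, 4640, 34880]
    tri := [(0, 1, 3), (0, 1, 7), (0, 3, 8), (0, 7, 8), (1, 2, 3), (1, 2, 9), (1, 7, 10), (1, 9, 10),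
      (2, 3, 11), (2, 5, 9), (2, 5, 12), (2, 11, 12), (3, 4, 11), (3, 4, 14), (3, 8, 13), (3, 13,
      14), (4, 6, 11), (4, 6, 15), (4, 14, 15), (5, 9, 16), (5, 12, 16), (6, 11, 17), (6, 15, 17)]
    fin := [0, 1, 1, 1, 4, 1, 4, 0, 8, 9, 10, 4, 1, 13, 4, 15, 16, 17]
    chd := [(0, 1), (1, 13), (8, 1), (9, 1), (10, 1)]
    steps := [(0, 7), (1, 2), (1, 3), (1, 5), (1, 12), (4, 6), (4, 14), (4, 11)] }
  rep := [4, 9, 1, 0, 8, 15, 10, 13, 16, 17]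

noncomputable def v3156 : Cov.CovD where
  P := 3
  N := 7
  pl := [8, 9, 10]
  lev := [⟨[], [], [(3, 4)], [], [(0, 3, [2]), (1, 4, [2])]⟩,
    ⟨[], [(0, 1), (0, 3), (0, 4), (0, 6)], [(1, 3), (1, 6), (3, 6)], [], [(0, 3, [2]), (2,
      1, [2]), (3, 6, [2])]⟩,
    ⟨[(0, 1)], [(1, 0), (1, 1), (1, 2), (1, 3), (1, 6)], [(0, 1), (0, 2), (1, 2)], [], [(2,
      1, [2]), (4, 0, []), (5, 2, [1, 3, 4, 6, 7])]⟩,
    ⟨[(0, 1), (0, 2), (1, 2)], [(0, 0), (0, 3), (0, 4), (0, 7), (1, 0), (1, 1), (1, 3), (1,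
      4), (1, 6), (1, 7), (2, 0), (2, 1), (2, 2), (2, 4), (2, 7)], [(0, 0), (0, 4), (0, 7),
      (4, 7)], [], [(1, 4, [2]), (4, 0, []), (6, 7, [2]), (7, 0, [])]⟩,
    ⟨[(0, 3), (1, 3), (2, 3)], [(2, 0), (3, 0), (3, 4), (3, 7)], [(0, 0)], [5], [(4, 0,
      []), (7, 0, [])]⟩,
    ⟨[(1, 2), (2, 3)], [(1, 1), (2, 0), (2, 1), (2, 2)], [(1, 2)], [8], [(2, 1, [2]), (5,
      2, [1, 3, 4, 6, 7])]⟩,
    ⟨[(3, 4)], [(2, 0), (3, 0), (4, 0)], [], [5, 9], [(4, 0, [])]⟩]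
  Ta := [((4, 5), 0, 2), ((4, 10), 0, 9), ((7, 6), 0, 7), ((7, 8), 0, 5)]
  Tb := [((0, 1, 3), 3, 4, 6), ((1, 0, 6), 4, 3, 7), ((2, 3, 9), 1, 6, 8), ((3, 0, 2), 6, 3, 1),
    ((4, 5, 10), 0, 2, 9), ((5, 4, 9), 2, 0, 8), ((6, 1, 7), 7, 4, 0), ((7, 6, 8), 0, 7, 5),
    ((8, 7, 10), 5, 0, 9), ((9, 2, 5), 8, 1, 2), ((10, 4, 8), 9, 0, 5)]
  Tc := [(2, 1, 3), (2, 1, 4), (2, 1, 6), (2, 1, 7), (2, 3, 4), (2, 3, 6), (2, 3, 7), (2, 4, 6),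
    (2, 4, 7), (2, 6, 7)]
  Td := [((1, 2), (2, 3), 6), ((1, 2), (2, 9), 8), ((2, 1), (5, 4), 0), ((2, 1), (5, 9), 8), ((2,
    3), (5, 4), 0), ((2, 3), (5, 9), 8), ((2, 4), (5, 4), 0), ((2, 4), (5, 9), 8), ((2, 6),
    (5, 4), 0), ((2, 6), (5, 9), 8), ((2, 7), (5, 4), 0), ((2, 7), (5, 9), 8), ((3, 2), (0,
    1), 4), ((3, 2), (0, 3), 6), ((4, 2), (1, 0), 3), ((4, 2), (1, 6), 7), ((6, 2), (3, 0),
    3), ((6, 2), (3, 2), 1), ((7, 2), (6, 1), 4), ((7, 2), (6, 7), 0)]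
  G := [[0,
    0xccca26c262aaac66cce42c266caaac66cc682aac62c28ccc62a486a262c28a262c28c2a26aac66cca8ef,
    0xccc66caaac66cc6cccaac68c11, 0xaa5665c28aa9669c24aa9669c28d2,
    0xcc9669a484c464a48c4a4688cc4a46cc9669aaa964ce84c464a48cc9669a48c464a48df], [0,
    0xa211cc24c212613c65cca4aa1c16cc28c5c13ca31c56cc686a212c28a212c2811ca269232a1ac61cce4ed,
    0, 0x19c659c241196d9c24a3919cc28d2,
    0x1c9619a484c464a41519468c8489c543467b9119aa4619ce845494a481196d9a481464a48df]]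

noncomputable def n3156 : Ent := ⟨e3156, noF, [], [], [(15, 16, [7334685537875745012586738086077695515070955365108989538292687706595329, 0]), (17, 12, [6903326391201342438349770174129673216027896805894258472290640860622849, 0])]⟩

def c3156 : PLift (Cov.check n3156.C.D v3156 = true) := ⟨by decide +kernel⟩

def b3156 : PLift (entF (fidx ts) 400 3156 n3156 = true) := ⟨by decide +kernel⟩

theorem g3156 : GoodF (fidx ts) 400 3156 := GoodF.ofV v3156 n3156 c3156.down b3156.down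

/-- 4667444:2432/3 -/
noncomputable def e3157 : SCfg where
  D := {
    a := 7
    L := 8
    kp := 5
    inn := [(0, 1), (1, 0), (1, 2), (1, 3), (2, 1), (2, 4), (3, 1), (3, 5), (3, 6), (4, 2), (5, 3), (6,
      3)]
    mix := [(0, 0), (0, 1), (0, 2), (1, 0), (1, 2), (1, 3), (2, 2), (2, 3), (2, 4), (2, 5), (3, 0), (3,
      3), (3, 6), (3, 7), (4, 1), (4, 2), (4, 4), (5, 3), (5, 5), (5, 6), (6, 0), (6, 1), (6, 7)]
    cl := [0, 2, 1, 0, 5, 1, 3, 4]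
    chq := [(0, 3), (0, 4), (3, 0), (4, 0)]
    rng := [(0, 1), (1, 0), (1, 2), (1, 4), (1, 7), (2, 1), (3, 5), (4, 1), (4, 5), (5, 3), (5, 4), (5,
      6), (6, 5), (6, 7), (7, 1), (7, 6)]
    lev := [] }
  links := [[1, 7, 8, 9], [7, 0, 9, 2, 10, 3], [10, 1, 9, 4, 11, 12], [7, 1, 10, 5, 13, 14, 6], [11, 2,
    9, 8], [13, 3, 10, 12], [7, 3, 14, 8]]
  P := {
    a := 7
    N := 15
    nb := [898, 1677, 7698, 25826, 2820, 13320, 16776, 331, 19153, 279, 4142, 4372, 11300, 20520,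
      8520]
    tri := [(0, 1, 7), (0, 1, 9), (0, 7, 8), (0, 8, 9), (1, 2, 9), (1, 2, 10), (1, 3, 7), (1, 3, 10),
      (2, 4, 9), (2, 4, 11), (2, 10, 12), (2, 11, 12), (3, 5, 10), (3, 5, 13), (3, 6, 7), (3, 6,
      14), (3, 13, 14), (4, 8, 9), (4, 8, 11), (5, 10, 12), (5, 12, 13), (6, 7, 8), (6, 8, 14)]
    fin := [0, 0, 2, 0, 4, 0, 0, 0, 4, 2, 0, 11, 2, 13, 14]
    chd := [(0, 13), (0, 14)]
    steps := [(0, 1), (0, 3), (0, 5), (0, 7), (0, 6), (0, 10), (2, 9), (2, 12), (4, 8)] }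
  rep := [0, 2, 4, 13, 14, 11]

noncomputable def v3157 : Cov.CovD where
  P := 3
  N := 3
  pl := [1, 4]
  lev := [⟨[], [], [(0, 1)], [2], [(0, 0, [3, 4]), (2, 1, [])]⟩,
    ⟨[], [(0, 0), (0, 1)], [(0, 0), (0, 1)], [], [(0, 0, [3, 4]), (2, 1, []), (3, 0, [3,
      4])]⟩,
    ⟨[(0, 1)], [(0, 1), (1, 0), (1, 1)], [(0, 1), (1, 1)], [5], [(2, 1, []), (3, 0, [3,
      4]), (5, 1, [])]⟩,
    ⟨[(0, 1), (1, 2)], [(0, 0), (1, 0), (1, 1), (1, 3), (1, 4), (2, 0)], [(0, 0), (0, 3),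
      (0, 4), (3, 4)], [], [(0, 0, [3, 4]), (3, 0, [3, 4]), (6, 3, [0]), (7, 4, [0])]⟩,
    ⟨[(1, 2)], [(0, 1), (1, 1), (2, 0), (2, 1)], [], [2, 5], [(2, 1, [])]⟩,
    ⟨[(1, 3)], [(1, 0), (2, 0), (2, 1), (3, 0), (3, 1), (3, 3), (3, 4)], [(0, 1), (0, 3),
      (1, 3)], [], [(3, 0, [3, 4]), (5, 1, []), (6, 3, [0])]⟩,
    ⟨[(1, 3), (3, 5)], [(0, 0), (1, 0), (3, 0), (3, 3), (3, 4)], [(0, 4)], [2], [(0, 0, [3,
      4]), (7, 4, [0])]⟩]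
  Ta := [((0, 1), 0, 2), ((2, 1), 1, 2), ((3, 5), 0, 1), ((5, 3), 1, 0), ((5, 4), 1, 5), ((5, 6),
    1, 3)]
  Tb := [((1, 0, 2), 2, 0, 1), ((1, 0, 4), 2, 0, 5), ((1, 0, 7), 2, 0, 4), ((1, 2, 4), 2, 1, 5),
    ((1, 2, 7), 2, 1, 4), ((1, 4, 7), 2, 5, 4), ((4, 1, 5), 5, 2, 1), ((5, 3, 4), 1, 0, 5),
    ((5, 3, 6), 1, 0, 3), ((5, 4, 6), 1, 5, 3), ((6, 5, 7), 3, 1, 4), ((7, 1, 6), 4, 2, 3)]
  Tc := [(0, 3, 4)]
  Td := [((0, 3), (0, 1), 2), ((0, 3), (3, 5), 1), ((0, 4), (0, 1), 2), ((0, 4), (3, 5), 1), ((3,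
    0), (6, 5), 1), ((3, 0), (6, 7), 4), ((4, 0), (7, 1), 2), ((4, 0), (7, 6), 3)]
  G := [[0, 0, 0x2142421824242c8282cc9c8, 0x1c5121c942c84, 0x82122c164828928218e8218cc8], [0, 0,
    0x614414214e4818a18218e8c2, 0, 0xa4228c2618858a1822c8e8118cc8], [0, 0, 0,
    0xc5c12114d42c84, 0x8214482882822c8e82122c1acc8], [0, 0x184188128e1212c181141c268, 0, 0,
    0x18c8218222c2ac388148ca414c68]]

noncomputable def n3157 : Ent := ⟨e3157, noF, [], [], []⟩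

def c3157 : PLift (Cov.check n3157.C.D v3157 = true) := ⟨by decide +kernel⟩

def b3157 : PLift (entF (fidx ts) 400 3157 n3157 = true) := ⟨by decide +kernel⟩

theorem g3157 : GoodF (fidx ts) 400 3157 := GoodF.ofV v3157 n3157 c3157.down b3157.down

/-- 4667444:2432/2 -/
noncomputable def e3158 : SCfg where
  D := {
    a := 7
    L := 9
    kp := 6
    inn := [(0, 1), (1, 0), (1, 2), (1, 3), (2, 1), (2, 4), (3, 1), (3, 5), (3, 6), (4, 2), (5, 3), (6,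
      3)]
    mix := [(0, 0), (0, 1), (0, 2), (1, 0), (1, 2), (1, 3), (2, 2), (2, 3), (2, 4), (2, 5), (3, 0), (3,
      3), (3, 6), (3, 7), (4, 1), (4, 2), (4, 4), (5, 3), (5, 6), (5, 8), (6, 0), (6, 1), (6, 7)]
    cl := [0, 2, 1, 0, 5, 1, 3, 4, 6]
    chq := [(0, 3), (0, 4), (3, 0), (4, 0)]
    rng := [(0, 1), (1, 0), (1, 2), (1, 4), (1, 7), (2, 1), (3, 5), (3, 8), (4, 1), (4, 5), (5, 3), (5,
      4), (6, 7), (6, 8), (7, 1), (7, 6), (8, 3), (8, 6)]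
    lev := [] }
  links := [[1, 7, 8, 9], [7, 0, 9, 2, 10, 3], [10, 1, 9, 4, 11, 12], [7, 1, 10, 5, 13, 14, 6], [11, 2,
    9, 8], [13, 3, 10, 15], [7, 3, 14, 8]]
  P := {
    a := 7
    N := 16
    nb := [898, 1677, 7698, 25826, 2820, 41992, 16776, 331, 19153, 279, 36910, 4372, 3076, 49192,
      8520, 9248]
    tri := [(0, 1, 7), (0, 1, 9), (0, 7, 8), (0, 8, 9), (1, 2, 9), (1, 2, 10), (1, 3, 7), (1, 3, 10),
      (2, 4, 9), (2, 4, 11), (2, 10, 12), (2, 11, 12), (3, 5, 10), (3, 5, 13), (3, 6, 7), (3, 6,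
      14), (3, 13, 14), (4, 8, 9), (4, 8, 11), (5, 10, 15), (5, 13, 15), (6, 7, 8), (6, 8, 14)]
    fin := [0, 0, 2, 0, 4, 0, 0, 0, 4, 2, 0, 11, 2, 13, 14, 15]
    chd := [(0, 13), (0, 14)]
    steps := [(0, 1), (0, 3), (0, 5), (0, 7), (0, 6), (0, 10), (2, 9), (2, 12), (4, 8)] }
  rep := [0, 2, 4, 13, 14, 11, 15]

noncomputable def v3158 : Cov.CovD where
  P := 3
  N := 4
  pl := [1, 4, 8]
  lev := [⟨[], [], [(0, 1)], [2], [(0, 0, [3, 4]), (2, 1, [])]⟩,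
    ⟨[], [(0, 0), (0, 1)], [(0, 0), (0, 1)], [], [(0, 0, [3, 4]), (2, 1, []), (3, 0, [3,
      4])]⟩,
    ⟨[(0, 1)], [(0, 1), (1, 0), (1, 1)], [(0, 1), (1, 1)], [5], [(2, 1, []), (3, 0, [3,
      4]), (5, 1, [])]⟩,
    ⟨[(0, 1), (1, 2)], [(0, 0), (1, 0), (1, 1), (1, 3), (1, 4), (2, 0)], [(0, 0), (0, 3),
      (0, 4), (3, 4)], [], [(0, 0, [3, 4]), (3, 0, [3, 4]), (6, 3, [0]), (7, 4, [0])]⟩,
    ⟨[(1, 2)], [(0, 1), (1, 1), (2, 0), (2, 1)], [], [2, 5], [(2, 1, [])]⟩,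
    ⟨[(1, 3)], [(1, 0), (2, 0), (3, 0), (3, 3), (3, 4)], [(0, 3)], [6], [(3, 0, [3, 4]),
      (6, 3, [0])]⟩,
    ⟨[(1, 3), (3, 5)], [(0, 0), (1, 0), (3, 0), (3, 3), (3, 4)], [(0, 4)], [2], [(0, 0, [3,
      4]), (7, 4, [0])]⟩]
  Ta := [((0, 1), 0, 2), ((2, 1), 1, 2), ((3, 5), 0, 1), ((3, 8), 0, 6), ((5, 3), 1, 0), ((5, 4),
    1, 5)]
  Tb := [((1, 0, 2), 2, 0, 1), ((1, 0, 4), 2, 0, 5), ((1, 0, 7), 2, 0, 4), ((1, 2, 4), 2, 1, 5),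
    ((1, 2, 7), 2, 1, 4), ((1, 4, 7), 2, 5, 4), ((3, 5, 8), 0, 1, 6), ((4, 1, 5), 5, 2, 1),
    ((5, 3, 4), 1, 0, 5), ((6, 7, 8), 3, 4, 6), ((7, 1, 6), 4, 2, 3), ((8, 3, 6), 6, 0, 3)]
  Tc := [(0, 3, 4)]
  Td := [((0, 3), (0, 1), 2), ((0, 3), (3, 5), 1), ((0, 3), (3, 8), 6), ((0, 4), (0, 1), 2), ((0,
    4), (3, 5), 1), ((0, 4), (3, 8), 6), ((3, 0), (6, 7), 4), ((3, 0), (6, 8), 6), ((4, 0),
    (7, 1), 2), ((4, 0), (7, 6), 3)]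
  G := [[0, 0, 0x818a18218e84614414214e48c, 0x41411c746481811c78a8118cc411488c,
    0x1a311291648838aa982258e88518cc8], [0, 0, 0x2142421828818418c814414cce8, 0,
    0x1a914418981a382258e88511231acc2], [0, 0, 0, 0x41c445ce46458c8185e8a18c18cc41c1488c,
    0x14211e9289e164388e818a8221e8e188e18cca414889], [0,
    0x11c8111e16114e1481e16618c88114e18ac8, 0, 0,
    0x38a8221e8a9222c32c138e8484188e9211e1cc68]]

noncomputable def n3158 : Ent := ⟨e3158, noF, [], [], [(12, 15, [360035742630636841211993100915356868655746945586763691020603393, 0])]⟩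

def c3158 : PLift (Cov.check n3158.C.D v3158 = true) := ⟨by decide +kernel⟩

def b3158 : PLift (entF (fidx ts) 400 3158 n3158 = true) := ⟨by decide +kernel⟩

theorem g3158 : GoodF (fidx ts) 400 3158 := GoodF.ofV v3158 n3158 c3158.down b3158.down

/-- 4667444:2432/4 -/
noncomputable def e3159 : SCfg where
  D := {
    a := 7
    L := 9
    kp := 6
    inn := [(0, 1), (1, 0), (1, 2), (1, 3), (2, 1), (2, 4), (3, 1), (3, 5), (3, 6), (4, 2), (5, 3), (6,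
      3)]
    mix := [(0, 0), (0, 1), (0, 2), (1, 0), (1, 2), (1, 3), (2, 2), (2, 3), (2, 4), (2, 5), (3, 0), (3,
      3), (3, 6), (3, 7), (4, 1), (4, 2), (4, 4), (5, 3), (5, 5), (5, 6), (6, 0), (6, 7), (6, 8)]
    cl := [0, 2, 1, 0, 5, 1, 3, 4, 6]
    chq := [(0, 3), (0, 4), (3, 0), (4, 0)]
    rng := [(0, 1), (0, 8), (1, 0), (1, 2), (1, 4), (2, 1), (3, 5), (4, 1), (4, 5), (5, 3), (5, 4), (5,
      6), (6, 5), (6, 7), (7, 6), (7, 8), (8, 0), (8, 7)]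
    lev := [] }
  links := [[1, 7, 8, 9], [7, 0, 9, 2, 10, 3], [10, 1, 9, 4, 11, 12], [7, 1, 10, 5, 13, 14, 6], [11, 2,
    9, 8], [13, 3, 10, 12], [7, 3, 14, 15]]
  P := {
    a := 7
    N := 16
    nb := [898, 1677, 7698, 25826, 2820, 13320, 49288, 33099, 2705, 279, 4142, 4372, 11300, 20520,
      41032, 16576]
    tri := [(0, 1, 7), (0, 1, 9), (0, 7, 8), (0, 8, 9), (1, 2, 9), (1, 2, 10), (1, 3, 7), (1, 3, 10),
      (2, 4, 9), (2, 4, 11), (2, 10, 12), (2, 11, 12), (3, 5, 10), (3, 5, 13), (3, 6, 7), (3, 6,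
      14), (3, 13, 14), (4, 8, 9), (4, 8, 11), (5, 10, 12), (5, 12, 13), (6, 7, 15), (6, 14, 15)]
    fin := [0, 0, 2, 0, 4, 0, 0, 0, 4, 2, 0, 11, 2, 13, 14, 15]
    chd := [(0, 13), (0, 14)]
    steps := [(0, 1), (0, 3), (0, 5), (0, 6), (0, 7), (0, 10), (2, 9), (2, 12), (4, 8)] }
  rep := [0, 2, 4, 13, 14, 11, 15]

noncomputable def v3159 : Cov.CovD where
  P := 3
  N := 4
  pl := [1, 4, 8]
  lev := [⟨[], [], [(0, 1)], [2], [(0, 0, [3, 4]), (2, 1, [])]⟩,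
    ⟨[], [(0, 0), (0, 1)], [(0, 0), (0, 1)], [], [(0, 0, [3, 4]), (2, 1, []), (3, 0, [3,
      4])]⟩,
    ⟨[(0, 1)], [(0, 1), (1, 0), (1, 1)], [(0, 1), (1, 1)], [5], [(2, 1, []), (3, 0, [3,
      4]), (5, 1, [])]⟩,
    ⟨[(0, 1), (1, 2)], [(0, 0), (1, 0), (1, 1), (1, 3), (1, 4), (2, 0)], [(0, 0), (0, 3),
      (0, 4), (3, 4)], [], [(0, 0, [3, 4]), (3, 0, [3, 4]), (6, 3, [0]), (7, 4, [0])]⟩,
    ⟨[(1, 2)], [(0, 1), (1, 1), (2, 0), (2, 1)], [], [2, 5], [(2, 1, [])]⟩,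
    ⟨[(1, 3)], [(1, 0), (2, 0), (2, 1), (3, 0), (3, 1), (3, 3), (3, 4)], [(0, 1), (0, 3),
      (1, 3)], [], [(3, 0, [3, 4]), (5, 1, []), (6, 3, [0])]⟩,
    ⟨[(1, 3), (3, 5)], [(0, 0), (1, 0), (3, 0), (3, 3), (3, 4)], [(0, 4)], [6], [(0, 0, [3,
      4]), (7, 4, [0])]⟩]
  Ta := [((0, 1), 0, 2), ((0, 8), 0, 6), ((2, 1), 1, 2), ((3, 5), 0, 1), ((5, 3), 1, 0), ((5, 4),
    1, 5), ((5, 6), 1, 3)]
  Tb := [((0, 1, 8), 0, 2, 6), ((1, 0, 2), 2, 0, 1), ((1, 0, 4), 2, 0, 5), ((1, 2, 4), 2, 1, 5),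
    ((4, 1, 5), 5, 2, 1), ((5, 3, 4), 1, 0, 5), ((5, 3, 6), 1, 0, 3), ((5, 4, 6), 1, 5, 3),
    ((6, 5, 7), 3, 1, 4), ((7, 6, 8), 4, 3, 6), ((8, 0, 7), 6, 0, 4)]
  Tc := [(0, 3, 4)]
  Td := [((0, 3), (0, 1), 2), ((0, 3), (0, 8), 6), ((0, 3), (3, 5), 1), ((0, 4), (0, 1), 2), ((0,
    4), (0, 8), 6), ((0, 4), (3, 5), 1), ((3, 0), (6, 5), 1), ((3, 0), (6, 7), 4), ((4, 0),
    (7, 6), 3), ((4, 0), (7, 8), 6)]
  G := [[0, 0, 0xe142c2c2c45e182c2c2c89c8, 0xd24e146c2845e281e51ad2489c8,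
    0xc2e29e116c2845c286a98ad218cc8], [0, 0, 0xe18e18a6ac429e184e14e14cc64, 0,
    0xe189658a3c526a92acb4584e114c68], [0, 0, 0, 0x52144c281281ac8e38153c1acc8,
    0x1211ac164c2832819c8e7818cc8], [0, 0x1212181121ac188144c1414a68, 0, 0,
    0x39c8251c12c588348c381b41cc68]]

noncomputable def n3159 : Ent := ⟨e3159, noF, [], [], [(8, 15, [360035742630636841211993100915356868655746945586763691020603393, 0])]⟩

def c3159 : PLift (Cov.check n3159.C.D v3159 = true) := ⟨by decide +kernel⟩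

def b3159 : PLift (entF (fidx ts) 400 3159 n3159 = true) := ⟨by decide +kernel⟩

theorem g3159 : GoodF (fidx ts) 400 3159 := GoodF.ofV v3159 n3159 c3159.down b3159.down

/-- 4667444:2432/1 -/
noncomputable def e3160 : SCfg where
  D := {
    a := 7
    L := 10
    kp := 7
    inn := [(0, 1), (1, 0), (1, 2), (1, 3), (2, 1), (2, 4), (3, 1), (3, 5), (3, 6), (4, 2), (5, 3), (6,
      3)]
    mix := [(0, 0), (0, 1), (0, 2), (1, 0), (1, 2), (1, 3), (2, 2), (2, 3), (2, 4), (2, 5), (3, 0), (3,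
      3), (3, 6), (3, 7), (4, 1), (4, 2), (4, 4), (5, 3), (5, 6), (5, 8), (6, 0), (6, 7), (6, 9)]
    cl := [0, 4, 1, 0, 2, 1, 3, 5, 7, 6]
    chq := [(0, 3), (3, 0), (3, 6), (6, 3)]
    rng := [(0, 1), (0, 9), (1, 0), (1, 2), (1, 4), (2, 1), (3, 5), (3, 8), (4, 1), (4, 5), (5, 3), (5,
      4), (6, 7), (6, 8), (7, 6), (7, 9), (8, 3), (8, 6), (9, 0), (9, 7)]
    lev := [] }
  links := [[1, 7, 8, 9], [7, 0, 9, 2, 10, 3], [10, 1, 9, 4, 11, 12], [7, 1, 10, 5, 13, 14, 6], [11, 2,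
    9, 8], [13, 3, 10, 15], [7, 3, 14, 16]]
  P := {
    a := 7
    N := 17
    nb := [898, 1677, 7698, 25826, 2820, 41992, 82056, 65867, 2705, 279, 36910, 4372, 3076, 49192,
      73800, 9248, 16576]
    tri := [(0, 1, 7), (0, 1, 9), (0, 7, 8), (0, 8, 9), (1, 2, 9), (1, 2, 10), (1, 3, 7), (1, 3, 10),
      (2, 4, 9), (2, 4, 11), (2, 10, 12), (2, 11, 12), (3, 5, 10), (3, 5, 13), (3, 6, 7), (3, 6,
      14), (3, 13, 14), (4, 8, 9), (4, 8, 11), (5, 10, 15), (5, 13, 15), (6, 7, 16), (6, 14, 16)]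
    fin := [0, 0, 2, 3, 4, 0, 3, 0, 4, 2, 0, 11, 2, 3, 14, 15, 16]
    chd := [(0, 3), (3, 16)]
    steps := [(0, 1), (0, 7), (0, 10), (0, 5), (2, 9), (2, 12), (3, 6), (3, 13), (4, 8)] }
  rep := [0, 2, 11, 3, 4, 14, 16, 15]

noncomputable def v3160 : Cov.CovD where
  P := 3
  N := 5
  pl := [1, 4, 7, 8]
  lev := [⟨[], [], [(0, 1)], [4], [(0, 0, [3]), (2, 1, [])]⟩,
    ⟨[], [(0, 0), (0, 1)], [(0, 0), (0, 1)], [], [(0, 0, [3]), (2, 1, []), (3, 0, [3])]⟩,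
    ⟨[(0, 1)], [(0, 1), (1, 0), (1, 1)], [(0, 1), (1, 1)], [2], [(2, 1, []), (3, 0, [3]),
      (5, 1, [])]⟩,
    ⟨[(0, 1), (1, 2)], [(0, 0), (1, 0), (1, 1), (1, 3), (2, 0)], [(0, 0), (0, 3)], [5],
      [(0, 0, [3]), (3, 0, [3]), (6, 3, [0, 6])]⟩,
    ⟨[(1, 2)], [(0, 1), (1, 1), (2, 0), (2, 1)], [], [2, 4], [(2, 1, [])]⟩,
    ⟨[(1, 3)], [(1, 0), (2, 0), (3, 0), (3, 3)], [(0, 3)], [7], [(3, 0, [3]), (6, 3, [0,
      6])]⟩,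
    ⟨[(1, 3), (3, 5)], [(0, 0), (1, 0), (3, 0), (3, 3), (3, 6)], [(0, 6)], [5], [(0, 0,
      [3]), (9, 6, [3])]⟩]
  Ta := [((0, 1), 0, 4), ((0, 9), 0, 6), ((2, 1), 1, 4), ((3, 5), 0, 1), ((3, 8), 0, 7), ((5, 3),
    1, 0), ((5, 4), 1, 2)]
  Tb := [((0, 1, 9), 0, 4, 6), ((1, 0, 2), 4, 0, 1), ((1, 0, 4), 4, 0, 2), ((1, 2, 4), 4, 1, 2),
    ((3, 5, 8), 0, 1, 7), ((4, 1, 5), 2, 4, 1), ((5, 3, 4), 1, 0, 2), ((6, 7, 8), 3, 5, 7),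
    ((7, 6, 9), 5, 3, 6), ((8, 3, 6), 7, 0, 3), ((9, 0, 7), 6, 0, 5)]
  Tc := [(3, 0, 6)]
  Td := [((0, 3), (0, 1), 4), ((0, 3), (0, 9), 6), ((0, 3), (3, 5), 1), ((0, 3), (3, 8), 7), ((3,
    0), (6, 7), 5), ((3, 0), (6, 8), 7), ((3, 6), (6, 7), 5), ((3, 6), (6, 8), 7), ((6, 3),
    (9, 0), 0), ((6, 3), (9, 7), 5)]
  G := [[0, 0, 0x16381a981c58e84116746a941c54e48c, 0, 0x16381a981c58e841a911c5168163188cc], [0,
    0, 0x165e65c1a31a3c1c91c9ce842, 0xa11a35c11c9566116598c82, 0x611699a11a39c11c59e842], [0,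
    0, 0x291e8419e864124e884c211e448124e4489e4a8cc, 0, 0xaaae148666e1ccce1a8c1], [0,
    0x419e128154e1291e1c4648ce428311e4131e4c8ac, 0xaaae2ccce268666e284c1,
    0x218e1481e164124e184c2, 0x218e148524e1181e1a8c2]]

noncomputable def n3160 : Ent := ⟨e3160, noF, [], [], [(8, 16, [1580044410770988437309982408355971841652082177953823432505702047745, 0]), (12, 15, [1685356702439545624007900436039642273970977273354372543760013029377, 0])]⟩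

def c3160 : PLift (Cov.check n3160.C.D v3160 = true) := ⟨by decide +kernel⟩

def b3160 : PLift (entF (fidx ts) 400 3160 n3160 = true) := ⟨by decide +kernel⟩

theorem g3160 : GoodF (fidx ts) 400 3160 := GoodF.ofV v3160 n3160 c3160.down b3160.down

/-- 4667444:2432/6 -/
noncomputable def e3161 : SCfg where
  D := {
    a := 7
    L := 9
    kp := 6
    inn := [(0, 1), (1, 0), (1, 2), (1, 3), (2, 1), (2, 4), (3, 1), (3, 5), (3, 6), (4, 2), (5, 3), (6,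
      3)]
    mix := [(0, 0), (0, 1), (0, 2), (1, 0), (1, 2), (1, 3), (2, 2), (2, 3), (2, 4), (2, 5), (3, 0), (3,
      3), (3, 6), (3, 7), (4, 2), (4, 4), (4, 8), (5, 3), (5, 5), (5, 6), (6, 0), (6, 1), (6, 7)]
    cl := [0, 2, 1, 0, 4, 1, 3, 5, 6]
    chq := [(0, 3), (2, 3), (3, 0), (3, 2)]
    rng := [(0, 1), (1, 0), (1, 2), (1, 7), (2, 1), (2, 8), (3, 5), (4, 5), (4, 8), (5, 3), (5, 4), (5,
      6), (6, 5), (6, 7), (7, 1), (7, 6), (8, 2), (8, 4)]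
    lev := [] }
  links := [[1, 7, 8, 9], [7, 0, 9, 2, 10, 3], [10, 1, 9, 4, 11, 12], [7, 1, 10, 5, 13, 14, 6], [11, 2,
    9, 15], [13, 3, 10, 12], [7, 3, 14, 8]]
  P := {
    a := 7
    N := 16
    nb := [898, 1677, 7698, 25826, 35332, 13320, 16776, 331, 17089, 33047, 4142, 36884, 11300, 20520,
      8520, 2576]
    tri := [(0, 1, 7), (0, 1, 9), (0, 7, 8), (0, 8, 9), (1, 2, 9), (1, 2, 10), (1, 3, 7), (1, 3, 10),
      (2, 4, 9), (2, 4, 11), (2, 10, 12), (2, 11, 12), (3, 5, 10), (3, 5, 13), (3, 6, 7), (3, 6,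
      14), (3, 13, 14), (4, 9, 15), (4, 11, 15), (5, 10, 12), (5, 12, 13), (6, 7, 8), (6, 8, 14)]
    fin := [0, 0, 2, 3, 2, 0, 3, 0, 3, 2, 0, 11, 2, 13, 14, 15]
    chd := [(0, 13), (3, 13)]
    steps := [(0, 1), (0, 7), (0, 10), (0, 5), (2, 4), (2, 9), (2, 12), (3, 6), (3, 8)] }
  rep := [0, 2, 3, 13, 11, 14, 15]

noncomputable def v3161 : Cov.CovD where
  P := 3
  N := 4
  pl := [4, 7, 8]
  lev := [⟨[], [], [(0, 1), (0, 2), (1, 2)], [], [(0, 0, [3]), (1, 2, [3]), (2, 1, [])]⟩,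
    ⟨[], [(0, 0), (0, 1), (0, 2)], [(0, 0), (0, 1)], [], [(0, 0, [3]), (2, 1, []), (3, 0,
      [3])]⟩,
    ⟨[(0, 1)], [(0, 1), (1, 0), (1, 1)], [(0, 1), (1, 1)], [4], [(2, 1, []), (3, 0, [3]),
      (5, 1, [])]⟩,
    ⟨[(0, 1), (1, 2)], [(0, 0), (1, 0), (1, 1), (1, 3), (2, 0)], [(0, 0), (0, 3)], [5],
      [(0, 0, [3]), (3, 0, [3]), (6, 3, [0, 2])]⟩,
    ⟨[(1, 2)], [(0, 1), (1, 1), (2, 0), (2, 1)], [], [4, 6], [(2, 1, [])]⟩,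
    ⟨[(1, 3)], [(1, 0), (2, 0), (2, 1), (3, 0), (3, 1), (3, 3)], [(0, 1), (0, 3), (1, 3)],
      [], [(3, 0, [3]), (5, 1, []), (6, 3, [0, 2])]⟩,
    ⟨[(1, 3), (3, 5)], [(0, 0), (0, 2), (1, 0), (3, 0), (3, 2), (3, 3)], [(0, 2)], [5],
      [(0, 0, [3]), (1, 2, [3])]⟩]
  Ta := [((0, 1), 0, 2), ((2, 1), 1, 2), ((2, 8), 1, 6), ((3, 5), 0, 1), ((5, 3), 1, 0), ((5, 4),
    1, 4), ((5, 6), 1, 3)]
  Tb := [((1, 0, 2), 2, 0, 1), ((1, 0, 7), 2, 0, 5), ((1, 2, 7), 2, 1, 5), ((2, 1, 8), 1, 2, 6),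
    ((4, 5, 8), 4, 1, 6), ((5, 3, 4), 1, 0, 4), ((5, 3, 6), 1, 0, 3), ((5, 4, 6), 1, 4, 3),
    ((6, 5, 7), 3, 1, 5), ((7, 1, 6), 5, 2, 3), ((8, 2, 4), 6, 1, 4)]
  Tc := [(3, 0, 2)]
  Td := [((0, 3), (0, 1), 2), ((0, 3), (3, 5), 1), ((2, 3), (1, 0), 0), ((2, 3), (1, 2), 1), ((2,
    3), (1, 7), 5), ((3, 0), (6, 5), 1), ((3, 0), (6, 7), 5), ((3, 2), (6, 5), 1), ((3, 2),
    (6, 7), 5)]
  G := [[0, 0, 0x81829484414254242521215e44848921219a8cc, 0x1c91c55241c91c5928c4,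
    0x828252424564844498282924249e8c8], [0, 0, 0x8181921219a812212ac41415446412488c, 0,
    0x8424c2a4224265842811a5a4c48484c8ce8], [0, 0, 0, 0x5cc5cc52495cc5c928c8,
    0x821251424564828298212924249e8c8], [0, 0x821121121e8214161a8214e48, 0, 0,
    0x142244641822426842241ac8484984149c8e8]]

noncomputable def n3161 : Ent := ⟨e3161, noF, [], [], [(8, 15, [360035742630636841211993100915356868655746945586763691020603393, 0])]⟩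

def c3161 : PLift (Cov.check n3161.C.D v3161 = true) := ⟨by decide +kernel⟩

def b3161 : PLift (entF (fidx ts) 400 3161 n3161 = true) := ⟨by decide +kernel⟩

theorem g3161 : GoodF (fidx ts) 400 3161 := GoodF.ofV v3161 n3161 c3161.down b3161.down

/-- 4667444:2432/5 -/
noncomputable def e3162 : SCfg where
  D := {
    a := 7
    L := 10
    kp := 7
    inn := [(0, 1), (1, 0), (1, 2), (1, 3), (2, 1), (2, 4), (3, 1), (3, 5), (3, 6), (4, 2), (5, 3), (6,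
      3)]
    mix := [(0, 0), (0, 1), (0, 2), (1, 0), (1, 2), (1, 3), (2, 2), (2, 3), (2, 4), (2, 5), (3, 0), (3,
      3), (3, 6), (3, 7), (4, 2), (4, 4), (4, 8), (5, 3), (5, 6), (5, 9), (6, 0), (6, 1), (6, 7)]
    cl := [1, 2, 0, 0, 3, 5, 1, 4, 6, 7]
    chq := [(0, 1), (0, 3), (1, 0), (3, 0)]
    rng := [(0, 1), (1, 0), (1, 2), (1, 7), (2, 1), (2, 8), (3, 5), (3, 9), (4, 5), (4, 8), (5, 3), (5,
      4), (6, 7), (6, 9), (7, 1), (7, 6), (8, 2), (8, 4), (9, 3), (9, 6)]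
    lev := [] }
  links := [[1, 7, 8, 9], [7, 0, 9, 2, 10, 3], [10, 1, 9, 4, 11, 12], [7, 1, 10, 5, 13, 14, 6], [11, 2,
    9, 15], [13, 3, 10, 16], [7, 3, 14, 8]]
  P := {
    a := 7
    N := 17
    nb := [898, 1677, 7698, 25826, 35332, 74760, 16776, 331, 17089, 33047, 69678, 36884, 3076, 81960,
      8520, 2576, 9248]
    tri := [(0, 1, 7), (0, 1, 9), (0, 7, 8), (0, 8, 9), (1, 2, 9), (1, 2, 10), (1, 3, 7), (1, 3, 10),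
      (2, 4, 9), (2, 4, 11), (2, 10, 12), (2, 11, 12), (3, 5, 10), (3, 5, 13), (3, 6, 7), (3, 6,
      14), (3, 13, 14), (4, 9, 15), (4, 11, 15), (5, 10, 16), (5, 13, 16), (6, 7, 8), (6, 8, 14)]
    fin := [0, 0, 2, 0, 2, 0, 0, 0, 8, 2, 2, 11, 12, 0, 14, 15, 16]
    chd := [(0, 2), (2, 11)]
    steps := [(0, 1), (0, 3), (0, 5), (0, 7), (0, 6), (0, 13), (2, 4), (2, 9), (2, 10)] }
  rep := [2, 0, 8, 11, 14, 12, 15, 16]

noncomputable def v3162 : Cov.CovD where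
  P := 3
  N := 5
  pl := [1, 5, 7, 8, 9]
  lev := [⟨[], [], [(0, 1)], [2], [(0, 1, [0]), (2, 0, [1, 3])]⟩,
    ⟨[], [(0, 0), (0, 1)], [(0, 0), (0, 1)], [], [(0, 1, [0]), (2, 0, [1, 3]), (3, 0, [1,
      3])]⟩,
    ⟨[(0, 1)], [(0, 0), (1, 0), (1, 1), (1, 3)], [(0, 0), (0, 3)], [5], [(2, 0, [1, 3]),
      (3, 0, [1, 3]), (4, 3, [0])]⟩,
    ⟨[(0, 1), (1, 2)], [(0, 1), (1, 0), (1, 1), (2, 0)], [(0, 1), (1, 1)], [4], [(0, 1,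
      [0]), (3, 0, [1, 3]), (6, 1, [0])]⟩,
    ⟨[(1, 2)], [(0, 0), (1, 0), (2, 0), (2, 3)], [(0, 3)], [6], [(2, 0, [1, 3]), (4, 3,
      [0])]⟩,
    ⟨[(1, 3)], [(1, 0), (2, 0), (3, 0), (3, 1)], [(0, 1)], [7], [(3, 0, [1, 3]), (6, 1,
      [0])]⟩,
    ⟨[(1, 3), (3, 5)], [(0, 1), (1, 1), (3, 0), (3, 1)], [], [2, 4], [(0, 1, [0])]⟩]
  Ta := [((0, 1), 1, 2), ((2, 1), 0, 2), ((2, 8), 0, 6), ((3, 5), 0, 5), ((3, 9), 0, 7), ((6, 7),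
    1, 4), ((6, 9), 1, 7)]
  Tb := [((1, 0, 2), 2, 1, 0), ((1, 0, 7), 2, 1, 4), ((1, 2, 7), 2, 0, 4), ((2, 1, 8), 0, 2, 6),
    ((3, 5, 9), 0, 5, 7), ((4, 5, 8), 3, 5, 6), ((5, 3, 4), 5, 0, 3), ((6, 7, 9), 1, 4, 7),
    ((7, 1, 6), 4, 2, 1), ((8, 2, 4), 6, 0, 3), ((9, 3, 6), 7, 0, 1)]
  Tc := [(0, 1, 3)]
  Td := [((0, 1), (2, 1), 2), ((0, 1), (2, 8), 6), ((0, 1), (3, 5), 5), ((0, 1), (3, 9), 7), ((0,
    3), (2, 1), 2), ((0, 3), (2, 8), 6), ((0, 3), (3, 5), 5), ((0, 3), (3, 9), 7), ((1, 0),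
    (0, 1), 2), ((1, 0), (6, 7), 4), ((1, 0), (6, 9), 7), ((3, 0), (4, 5), 5), ((3, 0), (4,
    8), 6)]
  G := [[0, 0x846118c1641a11161611611461ce84, 0xc2c2c2e14c2c2c2e1c2c2c2e1ac4,
    0x424241e828282e54818281e424242e9818182e424242e9ac8,
    0x119212e82454828182e121211ec8181a8828282e121212ecec8], [0,
    0x18a141c1c41c118c1618c114a1ce24, 0x2121c4141cacc2d2818181e414141ec818181e414141ecca4, 0,
    0x211121e44818181e211121ec2818181e111111ec118181e8ce8], [0,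
    0x886111a1c14c141a1a81a111616e48, 0, 0x42425442423468282912129c811238121258ec8,
    0x12125448282912129c8282388282512123cec8], [0, 0x11c141c1c48c111c16886141a1ce24, 0, 0,
    0x2121c34218c18218c8118cd1191c9c818118c711c91c5cce8]]

noncomputable def n3162 : Ent := ⟨e3162, noF, [], [], [(8, 15, [1685356702439545624007900436039642273970977273354372543760013025281, 0]), (12, 16, [1580044410770988437309982408355971841652082177953823432505702060033, 0])]⟩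

def c3162 : PLift (Cov.check n3162.C.D v3162 = true) := ⟨by decide +kernel⟩

def b3162 : PLift (entF (fidx ts) 400 3162 n3162 = true) := ⟨by decide +kernel⟩

theorem g3162 : GoodF (fidx ts) 400 3162 := GoodF.ofV v3162 n3162 c3162.down b3162.down

/-- 4667444:2432/8 -/
noncomputable def e3163 : SCfg where
  D := {
    a := 7
    L := 9
    kp := 6
    inn := [(0, 1), (1, 0), (1, 2), (1, 3), (2, 1), (2, 4), (3, 1), (3, 5), (3, 6), (4, 2), (5, 3), (6,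
      3)]
    mix := [(0, 0), (0, 1), (0, 2), (1, 0), (1, 2), (1, 3), (2, 2), (2, 3), (2, 4), (2, 5), (3, 0), (3,
      3), (3, 6), (3, 7), (4, 2), (4, 4), (4, 8), (5, 3), (5, 5), (5, 6), (6, 0), (6, 7), (6, 8)]
    cl := [0, 6, 1, 0, 2, 1, 4, 3, 5]
    chq := [(0, 3), (1, 3), (3, 0), (3, 1)]
    rng := [(0, 1), (0, 8), (1, 0), (1, 2), (2, 1), (2, 8), (3, 5), (4, 5), (4, 8), (5, 3), (5, 4), (5,
      6), (6, 5), (6, 7), (7, 6), (7, 8), (8, 0), (8, 2), (8, 4), (8, 7)]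
    lev := [] }
  links := [[1, 7, 8, 9], [7, 0, 9, 2, 10, 3], [10, 1, 9, 4, 11, 12], [7, 1, 10, 5, 13, 14, 6], [11, 2,
    9, 15], [13, 3, 10, 12], [7, 3, 14, 15]]
  P := {
    a := 7
    N := 16
    nb := [898, 1677, 7698, 25826, 35332, 13320, 49288, 33099, 641, 33047, 4142, 36884, 11300, 20520,
      41032, 19152]
    tri := [(0, 1, 7), (0, 1, 9), (0, 7, 8), (0, 8, 9), (1, 2, 9), (1, 2, 10), (1, 3, 7), (1, 3, 10),
      (2, 4, 9), (2, 4, 11), (2, 10, 12), (2, 11, 12), (3, 5, 10), (3, 5, 13), (3, 6, 7), (3, 6,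
      14), (3, 13, 14), (4, 9, 15), (4, 11, 15), (5, 10, 12), (5, 12, 13), (6, 7, 15), (6, 14,
      15)]
    fin := [0, 0, 2, 2, 2, 2, 0, 0, 8, 2, 0, 11, 2, 13, 14, 15]
    chd := [(0, 14), (2, 14)]
    steps := [(0, 1), (0, 7), (0, 6), (0, 10), (2, 4), (2, 9), (2, 12), (2, 5), (2, 3)] }
  rep := [0, 2, 11, 14, 13, 15, 8]

noncomputable def v3163 : Cov.CovD where
  P := 3
  N := 4
  pl := [1, 4, 6, 8]
  lev := [⟨[], [], [(0, 1)], [6], [(0, 0, [3]), (2, 1, [3])]⟩,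
    ⟨[], [(0, 0), (0, 1)], [(0, 0), (0, 1)], [], [(0, 0, [3]), (2, 1, [3]), (3, 0, [3])]⟩,
    ⟨[(0, 1)], [(0, 1), (1, 0), (1, 1)], [(0, 1), (1, 1)], [2], [(2, 1, [3]), (3, 0, [3]),
      (5, 1, [3])]⟩,
    ⟨[(0, 1), (1, 2)], [(0, 0), (1, 0), (1, 1), (1, 3), (2, 0)], [(0, 0), (0, 3)], [4],
      [(0, 0, [3]), (3, 0, [3]), (7, 3, [0, 1])]⟩,
    ⟨[(1, 2)], [(0, 1), (1, 1), (2, 0), (2, 1)], [], [2, 5], [(2, 1, [3])]⟩,
    ⟨[(1, 3)], [(1, 0), (2, 0), (2, 1), (3, 0), (3, 1), (3, 3)], [(0, 1)], [4], [(3, 0,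
      [3]), (5, 1, [3])]⟩,
    ⟨[(1, 3), (3, 5)], [(0, 0), (1, 0), (3, 0), (3, 3)], [(0, 3)], [5], [(0, 0, [3]), (7,
      3, [0, 1])]⟩]
  Ta := [((0, 1), 0, 6), ((0, 8), 0, 5), ((2, 1), 1, 6), ((2, 8), 1, 5), ((3, 5), 0, 1), ((5, 3),
    1, 0), ((5, 4), 1, 2), ((5, 6), 1, 4)]
  Tb := [((0, 1, 8), 0, 6, 5), ((1, 0, 2), 6, 0, 1), ((2, 1, 8), 1, 6, 5), ((4, 5, 8), 2, 1, 5),
    ((5, 3, 4), 1, 0, 2), ((5, 3, 6), 1, 0, 4), ((5, 4, 6), 1, 2, 4), ((6, 5, 7), 4, 1, 3),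
    ((7, 6, 8), 3, 4, 5), ((8, 0, 2), 5, 0, 1), ((8, 0, 4), 5, 0, 2), ((8, 0, 7), 5, 0, 3),
    ((8, 2, 4), 5, 1, 2), ((8, 2, 7), 5, 1, 3), ((8, 4, 7), 5, 2, 3)]
  Tc := [(3, 0, 1)]
  Td := [((0, 3), (0, 1), 6), ((0, 3), (0, 8), 5), ((0, 3), (3, 5), 1), ((1, 3), (2, 1), 6), ((1,
    3), (2, 8), 5), ((1, 3), (5, 3), 0), ((1, 3), (5, 4), 2), ((1, 3), (5, 6), 4), ((3, 0),
    (7, 6), 4), ((3, 0), (7, 8), 5), ((3, 1), (7, 6), 4), ((3, 1), (7, 8), 5)]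
  G := [[0, 0, 0xaa566cc248aac669c248c, 0, 0xaa56659284281ac54259a84c], [0, 0,
    0x212428222c2ac42122422292e48c, 0x282421d2842, 0x8428921289c2c619e842], [0, 0,
    0xaac66cc2841, 0, 0xeec12841], [0, 0x1411216418184c181121a8141446c, 0x242242e2c2e481,
    0x22c12841, 0x22c228281241c861]]

noncomputable def n3163 : Ent := ⟨e3163, noF, [], [], [(8, 15, [360035742630636841211993100915356868655746945586763691020603393, 0])]⟩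

def c3163 : PLift (Cov.check n3163.C.D v3163 = true) := ⟨by decide +kernel⟩

def b3163 : PLift (entF (fidx ts) 400 3163 n3163 = true) := ⟨by decide +kernel⟩

theorem g3163 : GoodF (fidx ts) 400 3163 := GoodF.ofV v3163 n3163 c3163.down b3163.down

/-- 4667444:2432/7 -/
noncomputable def e3164 : SCfg where
  D := {
    a := 7
    L := 10
    kp := 7
    inn := [(0, 1), (1, 0), (1, 2), (1, 3), (2, 1), (2, 4), (3, 1), (3, 5), (3, 6), (4, 2), (5, 3), (6,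
      3)]
    mix := [(0, 0), (0, 1), (0, 2), (1, 0), (1, 2), (1, 3), (2, 2), (2, 3), (2, 4), (2, 5), (3, 0), (3,
      3), (3, 6), (3, 7), (4, 2), (4, 4), (4, 8), (5, 3), (5, 6), (5, 9), (6, 0), (6, 7), (6, 8)]
    cl := [0, 6, 1, 0, 2, 1, 3, 5, 4, 7]
    chq := [(0, 3), (3, 0), (3, 4), (4, 3)]
    rng := [(0, 1), (0, 8), (1, 0), (1, 2), (2, 1), (2, 8), (3, 5), (3, 9), (4, 5), (4, 8), (5, 3), (5,
      4), (6, 7), (6, 9), (7, 6), (7, 8), (8, 0), (8, 2), (8, 4), (8, 7), (9, 3), (9, 6)]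
    lev := [] }
  links := [[1, 7, 8, 9], [7, 0, 9, 2, 10, 3], [10, 1, 9, 4, 11, 12], [7, 1, 10, 5, 13, 14, 6], [11, 2,
    9, 15], [13, 3, 10, 16], [7, 3, 14, 15]]
  P := {
    a := 7
    N := 17
    nb := [898, 1677, 7698, 25826, 35332, 74760, 49288, 33099, 641, 33047, 69678, 36884, 3076, 81960,
      41032, 19152, 9248]
    tri := [(0, 1, 7), (0, 1, 9), (0, 7, 8), (0, 8, 9), (1, 2, 9), (1, 2, 10), (1, 3, 7), (1, 3, 10),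
      (2, 4, 9), (2, 4, 11), (2, 10, 12), (2, 11, 12), (3, 5, 10), (3, 5, 13), (3, 6, 7), (3, 6,
      14), (3, 13, 14), (4, 9, 15), (4, 11, 15), (5, 10, 16), (5, 13, 16), (6, 7, 15), (6, 14,
      15)]
    fin := [0, 0, 2, 3, 2, 0, 3, 0, 8, 2, 0, 11, 2, 13, 14, 3, 16]
    chd := [(0, 13), (13, 3)]
    steps := [(0, 1), (0, 7), (0, 10), (0, 5), (2, 4), (2, 9), (2, 12), (3, 6), (3, 15)] }
  rep := [0, 2, 11, 13, 3, 14, 8, 16]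

noncomputable def v3164 : Cov.CovD where
  P := 3
  N := 5
  pl := [1, 4, 7, 9]
  lev := [⟨[], [], [(0, 1)], [6], [(0, 0, [3]), (2, 1, [])]⟩,
    ⟨[], [(0, 0), (0, 1)], [(0, 0), (0, 1)], [], [(0, 0, [3]), (2, 1, []), (3, 0, [3])]⟩,
    ⟨[(0, 1)], [(0, 1), (1, 0), (1, 1)], [(0, 1), (1, 1)], [2], [(2, 1, []), (3, 0, [3]),
      (5, 1, [])]⟩,
    ⟨[(0, 1), (1, 2)], [(0, 0), (1, 0), (1, 1), (1, 3), (2, 0)], [(0, 0), (0, 3)], [5],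
      [(0, 0, [3]), (3, 0, [3]), (6, 3, [0, 4])]⟩,
    ⟨[(1, 2)], [(0, 1), (1, 1), (2, 0), (2, 1), (2, 4)], [(1, 4)], [2], [(2, 1, []), (8, 4,
      [3])]⟩,
    ⟨[(1, 3)], [(1, 0), (2, 0), (3, 0), (3, 3)], [(0, 3)], [7], [(3, 0, [3]), (6, 3, [0,
      4])]⟩,
    ⟨[(1, 3), (3, 5)], [(0, 0), (1, 0), (3, 0), (3, 3), (3, 4), (4, 4)], [(0, 4)], [5],
      [(0, 0, [3]), (8, 4, [3])]⟩]
  Ta := [((0, 1), 0, 6), ((0, 8), 0, 4), ((2, 1), 1, 6), ((2, 8), 1, 4), ((3, 5), 0, 1), ((3, 9),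
    0, 7), ((5, 3), 1, 0), ((5, 4), 1, 2)]
  Tb := [((0, 1, 8), 0, 6, 4), ((1, 0, 2), 6, 0, 1), ((2, 1, 8), 1, 6, 4), ((3, 5, 9), 0, 1, 7),
    ((4, 5, 8), 2, 1, 4), ((5, 3, 4), 1, 0, 2), ((6, 7, 9), 3, 5, 7), ((7, 6, 8), 5, 3, 4),
    ((8, 0, 2), 4, 0, 1), ((8, 0, 4), 4, 0, 2), ((8, 0, 7), 4, 0, 5), ((8, 2, 4), 4, 1, 2),
    ((8, 2, 7), 4, 1, 5), ((8, 4, 7), 4, 2, 5), ((9, 3, 6), 7, 0, 3)]
  Tc := [(3, 0, 4)]
  Td := [((0, 3), (0, 1), 6), ((0, 3), (0, 8), 4), ((0, 3), (3, 5), 1), ((0, 3), (3, 9), 7), ((3,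
    0), (6, 7), 5), ((3, 0), (6, 9), 7), ((3, 4), (6, 7), 5), ((3, 4), (6, 9), 7), ((4, 3),
    (8, 0), 0), ((4, 3), (8, 2), 1), ((4, 3), (8, 4), 2), ((4, 3), (8, 7), 5)]
  G := [[0, 0, 0x183669c1a9123c1a5145ce841a9145c12521cbc64883463c88cc, 0,
    0x811659a11239a11499e84143142a8e849811659e134a9a8cc], [0, 0, 0x2161c11ad43cc28625ace482,
    0x816112da11299212865e842, 0x811659a11239211299e842], [0, 0,
    0xaaae42ccc86c4ac6428c666ec88c1, 0, 0xaaae1ccce168666e188c1], [0,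
    0x121e148ce1a8211e1446481e128124e1218e1c8a6, 0xaaae248666e222ce2a4c1,
    0x138e144314e1221e1a8c2, 0x2a8e121a168114e188c2]]

noncomputable def n3164 : Ent := ⟨e3164, noF, [], [], [(8, 15, [1685356702439545624007900436039642273970977273354372543760013025281, 0]), (12, 16, [1580044410770988437309982408355971841652082177953823432505702068225, 0])]⟩

def c3164 : PLift (Cov.check n3164.C.D v3164 = true) := ⟨by decide +kernel⟩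

def b3164 : PLift (entF (fidx ts) 400 3164 n3164 = true) := ⟨by decide +kernel⟩

theorem g3164 : GoodF (fidx ts) 400 3164 := GoodF.ofV v3164 n3164 c3164.down b3164.down

/-- 4667444:2432/9 -/
noncomputable def e3165 : SCfg where
  D := {
    a := 7
    L := 10
    kp := 7
    inn := [(0, 1), (1, 0), (1, 2), (1, 3), (2, 1), (2, 4), (3, 1), (3, 5), (3, 6), (4, 2), (5, 3), (6,
      3)]
    mix := [(0, 0), (0, 1), (0, 2), (1, 0), (1, 2), (1, 3), (2, 2), (2, 3), (2, 4), (2, 5), (3, 0), (3,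
      3), (3, 6), (3, 7), (4, 2), (4, 4), (4, 8), (5, 3), (5, 5), (5, 6), (6, 0), (6, 7), (6, 9)]
    cl := [0, 6, 1, 0, 2, 1, 3, 4, 7, 5]
    chq := [(0, 3), (3, 0), (3, 5), (5, 3)]
    rng := [(0, 1), (0, 9), (1, 0), (1, 2), (2, 1), (2, 8), (3, 5), (4, 5), (4, 8), (5, 3), (5, 4), (5,
      6), (6, 5), (6, 7), (7, 6), (7, 9), (8, 2), (8, 4), (9, 0), (9, 7)]
    lev := [] }
  links := [[1, 7, 8, 9], [7, 0, 9, 2, 10, 3], [10, 1, 9, 4, 11, 12], [7, 1, 10, 5, 13, 14, 6], [11, 2,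
    9, 15], [13, 3, 10, 12], [7, 3, 14, 16]]
  P := {
    a := 7
    N := 17
    nb := [898, 1677, 7698, 25826, 35332, 13320, 82056, 65867, 641, 33047, 4142, 36884, 11300, 20520,
      73800, 2576, 16576]
    tri := [(0, 1, 7), (0, 1, 9), (0, 7, 8), (0, 8, 9), (1, 2, 9), (1, 2, 10), (1, 3, 7), (1, 3, 10),
      (2, 4, 9), (2, 4, 11), (2, 10, 12), (2, 11, 12), (3, 5, 10), (3, 5, 13), (3, 6, 7), (3, 6,
      14), (3, 13, 14), (4, 9, 15), (4, 11, 15), (5, 10, 12), (5, 12, 13), (6, 7, 16), (6, 14,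
      16)]
    fin := [0, 0, 2, 3, 2, 0, 3, 0, 8, 2, 0, 11, 2, 3, 14, 15, 16]
    chd := [(0, 3), (3, 16)]
    steps := [(0, 1), (0, 7), (0, 10), (0, 5), (2, 4), (2, 9), (2, 12), (3, 6), (3, 13)] }
  rep := [0, 2, 11, 3, 14, 16, 8, 15]

noncomputable def v3165 : Cov.CovD where
  P := 3
  N := 5
  pl := [1, 4, 7, 8]
  lev := [⟨[], [], [(0, 1)], [6], [(0, 0, [3]), (2, 1, [])]⟩,
    ⟨[], [(0, 0), (0, 1)], [(0, 0), (0, 1)], [], [(0, 0, [3]), (2, 1, []), (3, 0, [3])]⟩,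
    ⟨[(0, 1)], [(0, 1), (1, 0), (1, 1)], [(0, 1), (1, 1)], [2], [(2, 1, []), (3, 0, [3]),
      (5, 1, [])]⟩,
    ⟨[(0, 1), (1, 2)], [(0, 0), (1, 0), (1, 1), (1, 3), (2, 0)], [(0, 0), (0, 3)], [4],
      [(0, 0, [3]), (3, 0, [3]), (6, 3, [0, 5])]⟩,
    ⟨[(1, 2)], [(0, 1), (1, 1), (2, 0), (2, 1)], [], [2, 7], [(2, 1, [])]⟩,
    ⟨[(1, 3)], [(1, 0), (2, 0), (2, 1), (3, 0), (3, 1), (3, 3)], [(0, 1), (0, 3), (1, 3)],
      [], [(3, 0, [3]), (5, 1, []), (6, 3, [0, 5])]⟩,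
    ⟨[(1, 3), (3, 5)], [(0, 0), (1, 0), (3, 0), (3, 3), (3, 5)], [(0, 5)], [4], [(0, 0,
      [3]), (9, 5, [3])]⟩]
  Ta := [((0, 1), 0, 6), ((0, 9), 0, 5), ((2, 1), 1, 6), ((2, 8), 1, 7), ((3, 5), 0, 1), ((5, 3),
    1, 0), ((5, 4), 1, 2), ((5, 6), 1, 3)]
  Tb := [((0, 1, 9), 0, 6, 5), ((1, 0, 2), 6, 0, 1), ((2, 1, 8), 1, 6, 7), ((4, 5, 8), 2, 1, 7),
    ((5, 3, 4), 1, 0, 2), ((5, 3, 6), 1, 0, 3), ((5, 4, 6), 1, 2, 3), ((6, 5, 7), 3, 1, 4),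
    ((7, 6, 9), 4, 3, 5), ((8, 2, 4), 7, 1, 2), ((9, 0, 7), 5, 0, 4)]
  Tc := [(3, 0, 5)]
  Td := [((0, 3), (0, 1), 6), ((0, 3), (0, 9), 5), ((0, 3), (3, 5), 1), ((3, 0), (6, 5), 1), ((3,
    0), (6, 7), 4), ((3, 5), (6, 5), 1), ((3, 5), (6, 7), 4), ((5, 3), (9, 0), 0), ((5, 3),
    (9, 7), 4)]
  G := [[0, 0, 0x52c2c9292ce1a65ce84e292c44e258cc1e1ca8cc, 0,
    0x52e2981b291e9c19e84e21e116c28eac8694152988cc], [0, 0, 0xa1a1c6c91c9c647878c88c2,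
    0x41415949451e91e95e482, 0x78a4591a93899c1e19e842], [0, 0, 0x4242ce2e2ce8ce8cce481, 0,
    0x48c29a2829ecc6ec9e841], [0, 0x1461a41121e48121246811861c866, 0xa42ccc26868284c1,
    0x84145485848c41c18c5a8c2, 0xa4248682ccc2a8c1]]

noncomputable def n3165 : Ent := ⟨e3165, noF, [], [], [(8, 15, [1685356702439545624007900436039642273970977273354372543760013029377, 0]), (8, 16, [1580044410770988437309982408355971841652082177953823432505702060033, 0]), (15, 16, [1580044410770988437309982408355971841652082177953823432505702068225, 0])]⟩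

def c3165 : PLift (Cov.check n3165.C.D v3165 = true) := ⟨by decide +kernel⟩

def b3165 : PLift (entF (fidx ts) 400 3165 n3165 = true) := ⟨by decide +kernel⟩

theorem g3165 : GoodF (fidx ts) 400 3165 := GoodF.ofV v3165 n3165 c3165.down b3165.down

/-- 4667444:2432 -/
noncomputable def e3166 : SCfg where
  D := {
    a := 7
    L := 11
    kp := 8
    inn := [(0, 1), (1, 0), (1, 2), (1, 3), (2, 1), (2, 4), (3, 1), (3, 5), (3, 6), (4, 2), (5, 3), (6,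
      3)]
    mix := [(0, 0), (0, 1), (0, 2), (1, 0), (1, 2), (1, 3), (2, 2), (2, 3), (2, 4), (2, 5), (3, 0), (3,
      3), (3, 6), (3, 7), (4, 2), (4, 4), (4, 8), (5, 3), (5, 6), (5, 9), (6, 0), (6, 7), (6, 10)]
    cl := [1, 6, 0, 0, 3, 4, 1, 2, 5, 7, 8]
    chq := [(0, 1), (1, 0), (4, 5), (5, 4)]
    rng := [(0, 1), (0, 10), (1, 0), (1, 2), (2, 1), (2, 8), (3, 5), (3, 9), (4, 5), (4, 8), (5, 3),
      (5, 4), (6, 7), (6, 9), (7, 6), (7, 10), (8, 2), (8, 4), (9, 3), (9, 6), (10, 0), (10, 7)]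
    lev := [] }
  links := [[1, 7, 8, 9], [7, 0, 9, 2, 10, 3], [10, 1, 9, 4, 11, 12], [7, 1, 10, 5, 13, 14, 6], [11, 2,
    9, 15], [13, 3, 10, 16], [7, 3, 14, 17]]
  P := {
    a := 7
    N := 18
    nb := [898, 1677, 7698, 25826, 35332, 74760, 147592, 131403, 641, 33047, 69678, 36884, 3076,
      81960, 139336, 2576, 9248, 16576]
    tri := [(0, 1, 7), (0, 1, 9), (0, 7, 8), (0, 8, 9), (1, 2, 9), (1, 2, 10), (1, 3, 7), (1, 3, 10),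
      (2, 4, 9), (2, 4, 11), (2, 10, 12), (2, 11, 12), (3, 5, 10), (3, 5, 13), (3, 6, 7), (3, 6,
      14), (3, 13, 14), (4, 9, 15), (4, 11, 15), (5, 10, 16), (5, 13, 16), (6, 7, 17), (6, 14,
      17)]
    fin := [0, 1, 2, 0, 2, 0, 0, 0, 8, 1, 1, 11, 12, 0, 14, 2, 16, 17]
    chd := [(0, 1), (12, 2)]
    steps := [(0, 7), (0, 3), (0, 5), (0, 6), (0, 13), (1, 9), (1, 10), (2, 4), (2, 15)] }
  rep := [1, 0, 14, 11, 12, 2, 8, 16, 17]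

noncomputable def v3166 : Cov.CovD where
  P := 3
  N := 6
  pl := [1, 4, 7, 9, 10]
  lev := [⟨[], [], [(0, 1)], [6], [(0, 1, [0]), (2, 0, [1])]⟩,
    ⟨[], [(0, 0), (0, 1)], [(0, 0), (0, 1)], [], [(0, 1, [0]), (2, 0, [1]), (3, 0, [1])]⟩,
    ⟨[(0, 1)], [(0, 0), (1, 0), (1, 1), (1, 4)], [(0, 0), (0, 4)], [3], [(2, 0, [1]), (3,
      0, [1]), (5, 4, [5])]⟩,
    ⟨[(0, 1), (1, 2)], [(0, 1), (1, 0), (1, 1), (2, 0)], [(0, 1), (1, 1)], [2], [(0, 1,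
      [0]), (3, 0, [1]), (6, 1, [0])]⟩,
    ⟨[(1, 2)], [(0, 0), (1, 0), (2, 0), (2, 4), (2, 5)], [(0, 5)], [3], [(2, 0, [1]), (8,
      5, [4])]⟩,
    ⟨[(1, 3)], [(1, 0), (2, 0), (3, 0), (3, 1)], [(0, 1)], [7], [(3, 0, [1]), (6, 1, [0])]⟩,
    ⟨[(1, 3), (3, 5)], [(0, 1), (1, 1), (3, 0), (3, 1)], [], [2, 8], [(0, 1, [0])]⟩]
  Ta := [((0, 1), 1, 6), ((0, 10), 1, 8), ((2, 1), 0, 6), ((2, 8), 0, 5), ((3, 5), 0, 4), ((3,
    9), 0, 7), ((6, 7), 1, 2), ((6, 9), 1, 7)]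
  Tb := [((0, 1, 10), 1, 6, 8), ((1, 0, 2), 6, 1, 0), ((2, 1, 8), 0, 6, 5), ((3, 5, 9), 0, 4, 7),
    ((4, 5, 8), 3, 4, 5), ((5, 3, 4), 4, 0, 3), ((6, 7, 9), 1, 2, 7), ((7, 6, 10), 2, 1, 8),
    ((8, 2, 4), 5, 0, 3), ((9, 3, 6), 7, 0, 1), ((10, 0, 7), 8, 1, 2)]
  Tc := []
  Td := [((0, 1), (2, 1), 6), ((0, 1), (2, 8), 5), ((0, 1), (3, 5), 4), ((0, 1), (3, 9), 7), ((1,
    0), (0, 1), 6), ((1, 0), (0, 10), 8), ((1, 0), (6, 7), 2), ((1, 0), (6, 9), 7), ((4, 5),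
    (5, 3), 0), ((4, 5), (5, 4), 3), ((5, 4), (8, 2), 0), ((5, 4), (8, 4), 3)]
  G := [[0, 0x1411a34181812b8c211618116116c868116411a2c1211698a4e,
    0xc1c1a4c2c2c46c2c2688cc2c2a44c1c168c1c2c8acc, 0,
    0x8282a149191681111a89292c8ec1211a8282a949192689292c8acc], [0,
    0x11c181162411a14e21161441211a14d82c11c11a6411c88c2e, 0xc1c164c1c1a4c1c1c4e82,
    0x51c16891c1a89191c4e42, 0x9191689191a89191c8e42], [0,
    0x1411a381811a38141218d8e411c11a6411c1811c1218d8e2c, 0xc2c264c2c2a4c2c2c4e81, 0,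
    0x9292689292a89292c8e41], [0, 0x121814781211c981811a94e211c1165811c1412b811a14e46,
    0x22c22ca422c22cc4622c22c688c1, 0x5cc5cc689459c985859c98e42,
    0x22c22c6822c22ca822c22cc8e41]]

noncomputable def n3166 : Ent := ⟨e3166, noF, [], [], [(8, 15, [7334790850167413569773436004105379185503274260204390087403942017597441, 0]), (8, 17, [6903326391201334775872065844685381424292761054348340378595029942640641, 0]), (15, 17, [6903326391201334775872065844685381424292761054348340378595029942648833, 0]), (12, 16, [7334685537875745012586738086077695515070955365108989538292687706640385, 0])]⟩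

def c3166 : PLift (Cov.check n3166.C.D v3166 = true) := ⟨by decide +kernel⟩

def b3166 : PLift (entF (fidx ts) 400 3166 n3166 = true) := ⟨by decide +kernel⟩

theorem g3166 : GoodF (fidx ts) 400 3166 := GoodF.ofV v3166 n3166 c3166.down b3166.down

/-- 4667444:2434/2 -/
noncomputable def e3167 : SCfg where
  D := {
    a := 7
    L := 9
    kp := 6
    inn := [(0, 1), (1, 0), (1, 2), (1, 3), (2, 1), (2, 4), (3, 1), (3, 5), (3, 6), (4, 2), (5, 3), (6,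
      3)]
    mix := [(0, 0), (0, 1), (0, 2), (1, 0), (1, 2), (1, 3), (2, 2), (2, 3), (2, 4), (2, 5), (3, 0), (3,
      3), (3, 6), (3, 7), (4, 3), (4, 5), (4, 8), (5, 3), (5, 6), (5, 8), (6, 0), (6, 1), (6, 7)]
    cl := [1, 4, 0, 0, 6, 3, 1, 2, 5]
    chq := [(0, 1), (0, 3), (1, 0), (3, 0)]
    rng := [(0, 1), (1, 0), (1, 2), (1, 7), (2, 1), (2, 4), (3, 8), (4, 2), (4, 5), (5, 4), (5, 8), (6,
      7), (6, 8), (7, 1), (7, 6), (8, 3), (8, 5), (8, 6)]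
    lev := [] }
  links := [[1, 7, 8, 9], [7, 0, 9, 2, 10, 3], [10, 1, 9, 11, 12, 4], [7, 1, 10, 5, 13, 14, 6], [10, 2,
    12, 15], [13, 3, 10, 15], [7, 3, 14, 8]]
  P := {
    a := 7
    N := 16
    nb := [898, 1677, 7698, 25826, 37892, 41992, 16776, 331, 17089, 2311, 32830, 4612, 34836, 49192,
      8520, 13360]
    tri := [(0, 1, 7), (0, 1, 9), (0, 7, 8), (0, 8, 9), (1, 2, 9), (1, 2, 10), (1, 3, 7), (1, 3, 10),
      (2, 4, 10), (2, 4, 12), (2, 9, 11), (2, 11, 12), (3, 5, 10), (3, 5, 13), (3, 6, 7), (3, 6,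
      14), (3, 13, 14), (4, 10, 15), (4, 12, 15), (5, 10, 15), (5, 13, 15), (6, 7, 8), (6, 8, 14)]
    fin := [0, 0, 2, 0, 2, 0, 0, 0, 8, 2, 2, 11, 12, 0, 14, 15]
    chd := [(0, 2), (2, 12)]
    steps := [(0, 1), (0, 3), (0, 5), (0, 7), (0, 6), (0, 13), (2, 4), (2, 9), (2, 10)] }
  rep := [2, 0, 14, 12, 8, 15, 11]

noncomputable def v3167 : Cov.CovD where
  P := 3
  N := 4
  pl := [1, 4, 7, 8]
  lev := [⟨[], [], [(0, 1)], [4], [(0, 1, [0]), (2, 0, [1, 3])]⟩,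
    ⟨[], [(0, 0), (0, 1)], [(0, 0), (0, 1)], [], [(0, 1, [0]), (2, 0, [1, 3]), (3, 0, [1,
      3])]⟩,
    ⟨[(0, 1)], [(0, 0), (1, 0), (1, 1), (1, 3)], [(0, 0), (0, 3)], [6], [(2, 0, [1, 3]),
      (3, 0, [1, 3]), (5, 3, [0])]⟩,
    ⟨[(0, 1), (1, 2)], [(0, 1), (1, 0), (1, 1), (2, 0)], [(0, 1), (1, 1)], [2], [(0, 1,
      [0]), (3, 0, [1, 3]), (6, 1, [0])]⟩,
    ⟨[(1, 2)], [(1, 0), (2, 0), (2, 3), (3, 0)], [(0, 3)], [5], [(3, 0, [1, 3]), (5, 3,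
      [0])]⟩,
    ⟨[(1, 3)], [(1, 0), (2, 0), (3, 0), (3, 1), (4, 0)], [(0, 1)], [5], [(3, 0, [1, 3]),
      (6, 1, [0])]⟩,
    ⟨[(1, 3), (3, 5)], [(0, 1), (1, 1), (3, 0), (3, 1)], [], [2, 4], [(0, 1, [0])]⟩]
  Ta := [((0, 1), 1, 4), ((2, 1), 0, 4), ((2, 4), 0, 6), ((3, 8), 0, 5), ((6, 7), 1, 2), ((6, 8),
    1, 5)]
  Tb := [((1, 0, 2), 4, 1, 0), ((1, 0, 7), 4, 1, 2), ((1, 2, 7), 4, 0, 2), ((2, 1, 4), 0, 4, 6),
    ((4, 2, 5), 6, 0, 3), ((5, 4, 8), 3, 6, 5), ((6, 7, 8), 1, 2, 5), ((7, 1, 6), 2, 4, 1),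
    ((8, 3, 5), 5, 0, 3), ((8, 3, 6), 5, 0, 1), ((8, 5, 6), 5, 3, 1)]
  Tc := [(0, 1, 3)]
  Td := [((0, 1), (2, 1), 4), ((0, 1), (2, 4), 6), ((0, 1), (3, 8), 5), ((0, 3), (2, 1), 4), ((0,
    3), (2, 4), 6), ((0, 3), (3, 8), 5), ((1, 0), (0, 1), 4), ((1, 0), (6, 7), 2), ((1, 0),
    (6, 8), 5), ((3, 0), (5, 4), 6), ((3, 0), (5, 8), 5)]
  G := [[0, 0x48a1811a1811c18e211a141461844618e4a, 0x82148282388124e442423442144124e8c, 0,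
    0x82823882188128e41218112861112388cc], [0, 0x11c1411c1411614e218a141161811c14e86,
    0xc1c1c874845c854c1c834e82, 0xc199c34c9c145124e82, 0x9194988118519cb8149194b8e42], [0,
    0x1861411c14611a188c116181461841c18e4a, 0x424824c448ac2c2e8c2c2a8c228ec1, 0,
    0x121412e84121412e81228ac1], [0, 0x1861888a1418c14e2146141461814618e8c,
    0x282428e4424246288c242422ce8ac1, 0x181418e411c246181414e88a1,
    0x14484181414e81818a8181411ce8ec2]]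

noncomputable def n3167 : Ent := ⟨e3167, noF, [], [], []⟩

def c3167 : PLift (Cov.check n3167.C.D v3167 = true) := ⟨by decide +kernel⟩

def b3167 : PLift (entF (fidx ts) 400 3167 n3167 = true) := ⟨by decide +kernel⟩

theorem g3167 : GoodF (fidx ts) 400 3167 := GoodF.ofV v3167 n3167 c3167.down b3167.down

/-- 4667444:2434/1 -/
noncomputable def e3168 : SCfg where
  D := {
    a := 7
    L := 10
    kp := 7
    inn := [(0, 1), (1, 0), (1, 2), (1, 3), (2, 1), (2, 4), (3, 1), (3, 5), (3, 6), (4, 2), (5, 3), (6,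
      3)]
    mix := [(0, 0), (0, 1), (0, 2), (1, 0), (1, 2), (1, 3), (2, 2), (2, 3), (2, 4), (2, 5), (3, 0), (3,
      3), (3, 6), (3, 7), (4, 3), (4, 5), (4, 8), (5, 3), (5, 6), (5, 9), (6, 0), (6, 1), (6, 7)]
    cl := [1, 4, 0, 0, 5, 3, 1, 2, 6, 7]
    chq := [(0, 1), (0, 3), (1, 0), (3, 0)]
    rng := [(0, 1), (1, 0), (1, 2), (1, 7), (2, 1), (2, 4), (3, 8), (3, 9), (4, 2), (4, 5), (5, 4), (5,
      8), (6, 7), (6, 9), (7, 1), (7, 6), (8, 3), (8, 5), (9, 3), (9, 6)]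
    lev := [] }
  links := [[1, 7, 8, 9], [7, 0, 9, 2, 10, 3], [10, 1, 9, 11, 12, 4], [7, 1, 10, 5, 13, 14, 6], [10, 2,
    12, 15], [13, 3, 10, 16], [7, 3, 14, 8]]
  P := {
    a := 7
    N := 17
    nb := [898, 1677, 7698, 25826, 37892, 74760, 16776, 331, 17089, 2311, 98366, 4612, 34836, 81960,
      8520, 5136, 9248]
    tri := [(0, 1, 7), (0, 1, 9), (0, 7, 8), (0, 8, 9), (1, 2, 9), (1, 2, 10), (1, 3, 7), (1, 3, 10),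
      (2, 4, 10), (2, 4, 12), (2, 9, 11), (2, 11, 12), (3, 5, 10), (3, 5, 13), (3, 6, 7), (3, 6,
      14), (3, 13, 14), (4, 10, 15), (4, 12, 15), (5, 10, 16), (5, 13, 16), (6, 7, 8), (6, 8, 14)]
    fin := [0, 0, 2, 0, 2, 0, 0, 0, 8, 2, 2, 11, 12, 0, 14, 15, 16]
    chd := [(0, 2), (2, 12)]
    steps := [(0, 1), (0, 3), (0, 5), (0, 7), (0, 6), (0, 13), (2, 4), (2, 9), (2, 10)] }
  rep := [2, 0, 14, 12, 8, 11, 15, 16]

noncomputable def v3168 : Cov.CovD where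
  P := 3
  N := 5
  pl := [1, 4, 7, 8, 9]
  lev := [⟨[], [], [(0, 1)], [4], [(0, 1, [0]), (2, 0, [1, 3])]⟩,
    ⟨[], [(0, 0), (0, 1)], [(0, 0), (0, 1)], [], [(0, 1, [0]), (2, 0, [1, 3]), (3, 0, [1,
      3])]⟩,
    ⟨[(0, 1)], [(0, 0), (1, 0), (1, 1), (1, 3)], [(0, 0), (0, 3)], [5], [(2, 0, [1, 3]),
      (3, 0, [1, 3]), (5, 3, [0])]⟩,
    ⟨[(0, 1), (1, 2)], [(0, 1), (1, 0), (1, 1), (2, 0)], [(0, 1), (1, 1)], [2], [(0, 1,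
      [0]), (3, 0, [1, 3]), (6, 1, [0])]⟩,
    ⟨[(1, 2)], [(1, 0), (2, 0), (2, 3), (3, 0)], [(0, 3)], [6], [(3, 0, [1, 3]), (5, 3,
      [0])]⟩,
    ⟨[(1, 3)], [(1, 0), (2, 0), (3, 0), (3, 1), (4, 0)], [(0, 1)], [7], [(3, 0, [1, 3]),
      (6, 1, [0])]⟩,
    ⟨[(1, 3), (3, 5)], [(0, 1), (1, 1), (3, 0), (3, 1)], [], [2, 4], [(0, 1, [0])]⟩]
  Ta := [((0, 1), 1, 4), ((2, 1), 0, 4), ((2, 4), 0, 5), ((3, 8), 0, 6), ((3, 9), 0, 7), ((6, 7),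
    1, 2), ((6, 9), 1, 7)]
  Tb := [((1, 0, 2), 4, 1, 0), ((1, 0, 7), 4, 1, 2), ((1, 2, 7), 4, 0, 2), ((2, 1, 4), 0, 4, 5),
    ((3, 8, 9), 0, 6, 7), ((4, 2, 5), 5, 0, 3), ((5, 4, 8), 3, 5, 6), ((6, 7, 9), 1, 2, 7),
    ((7, 1, 6), 2, 4, 1), ((8, 3, 5), 6, 0, 3), ((9, 3, 6), 7, 0, 1)]
  Tc := [(0, 1, 3)]
  Td := [((0, 1), (2, 1), 4), ((0, 1), (2, 4), 5), ((0, 1), (3, 8), 6), ((0, 1), (3, 9), 7), ((0,
    3), (2, 1), 4), ((0, 3), (2, 4), 5), ((0, 3), (3, 8), 6), ((0, 3), (3, 9), 7), ((1, 0),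
    (0, 1), 4), ((1, 0), (6, 7), 2), ((1, 0), (6, 9), 7), ((3, 0), (5, 4), 5), ((3, 0), (5,
    8), 6)]
  G := [[0, 0x14a188861481c14e211c1811a1811a14e4a,
    0x8282544828294828234ac4142584424298414238acc, 0,
    0x821282b88218828282e1e411125811123861112988cc], [0,
    0x18c1448c1418a14e241a181161844c18e4a, 0xc1c1c1e444cc1881cc1c1c1e8ac2,
    0x11c9c541159c346919191e48c2, 0x28184491918111cf819c18919191e8e4a], [0,
    0x11a1818a1888a14e241a1441c1841c14e2c, 0xc2c2c2e4c2c2c2e46c2c2c2e88c1, 0,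
    0x121212e84121212e8121212e8ac1], [0, 0x816144161881a14e811a1811c1818a14e46,
    0x22c22c22ce422c22c22ce4622c22c22ce88c1, 0x11c11c11ce811c11c11ce8a11c11c11ce4461,
    0x22c22c11ce8211c11c11ce811c11c11ce8c61]]

noncomputable def n3168 : Ent := ⟨e3168, noF, [], [], [(15, 16, [1580044410770988437309982408355971841652082177953823432505702084609, 0])]⟩

def c3168 : PLift (Cov.check n3168.C.D v3168 = true) := ⟨by decide +kernel⟩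

def b3168 : PLift (entF (fidx ts) 400 3168 n3168 = true) := ⟨by decide +kernel⟩

theorem g3168 : GoodF (fidx ts) 400 3168 := GoodF.ofV v3168 n3168 c3168.down b3168.down

/-- 4667444:2434/3 -/
noncomputable def e3169 : SCfg where
  D := {
    a := 7
    L := 10
    kp := 7
    inn := [(0, 1), (1, 0), (1, 2), (1, 3), (2, 1), (2, 4), (3, 1), (3, 5), (3, 6), (4, 2), (5, 3), (6,
      3)]
    mix := [(0, 0), (0, 1), (0, 2), (1, 0), (1, 2), (1, 3), (2, 2), (2, 3), (2, 4), (2, 5), (3, 0), (3,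
      3), (3, 6), (3, 7), (4, 3), (4, 5), (4, 8), (5, 3), (5, 6), (5, 8), (6, 0), (6, 7), (6, 9)]
    cl := [1, 6, 0, 0, 5, 4, 1, 2, 3, 7]
    chq := [(0, 1), (1, 0), (3, 5), (5, 3)]
    rng := [(0, 1), (0, 9), (1, 0), (1, 2), (2, 1), (2, 4), (3, 8), (4, 2), (4, 5), (5, 4), (5, 8), (6,
      7), (6, 8), (7, 6), (7, 9), (8, 3), (8, 5), (8, 6), (9, 0), (9, 7)]
    lev := [] }
  links := [[1, 7, 8, 9], [7, 0, 9, 2, 10, 3], [10, 1, 9, 11, 12, 4], [7, 1, 10, 5, 13, 14, 6], [10, 2,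
    12, 15], [13, 3, 10, 15], [7, 3, 14, 16]]
  P := {
    a := 7
    N := 17
    nb := [898, 1677, 7698, 25826, 37892, 41992, 82056, 65867, 641, 2311, 32830, 4612, 34836, 49192,
      73800, 13360, 16576]
    tri := [(0, 1, 7), (0, 1, 9), (0, 7, 8), (0, 8, 9), (1, 2, 9), (1, 2, 10), (1, 3, 7), (1, 3, 10),
      (2, 4, 10), (2, 4, 12), (2, 9, 11), (2, 11, 12), (3, 5, 10), (3, 5, 13), (3, 6, 7), (3, 6,
      14), (3, 13, 14), (4, 10, 15), (4, 12, 15), (5, 10, 15), (5, 13, 15), (6, 7, 16), (6, 14,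
      16)]
    fin := [0, 1, 2, 0, 2, 0, 0, 0, 8, 1, 1, 2, 12, 0, 14, 15, 16]
    chd := [(0, 1), (2, 15)]
    steps := [(0, 7), (0, 3), (0, 5), (0, 6), (0, 13), (1, 9), (1, 10), (2, 4), (2, 11)] }
  rep := [1, 0, 14, 15, 12, 2, 8, 16]

noncomputable def v3169 : Cov.CovD where
  P := 3
  N := 5
  pl := [1, 5, 7, 9]
  lev := [⟨[], [], [(0, 1)], [6], [(0, 1, [0]), (2, 0, [1])]⟩,
    ⟨[], [(0, 0), (0, 1)], [(0, 0), (0, 1)], [], [(0, 1, [0]), (2, 0, [1]), (3, 0, [1])]⟩,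
    ⟨[(0, 1)], [(0, 0), (1, 0), (1, 1), (1, 5)], [(0, 0), (0, 5)], [4], [(2, 0, [1]), (3,
      0, [1]), (4, 5, [3])]⟩,
    ⟨[(0, 1), (1, 2)], [(0, 1), (1, 0), (1, 1), (2, 0)], [(0, 1), (1, 1)], [2], [(0, 1,
      [0]), (3, 0, [1]), (6, 1, [0])]⟩,
    ⟨[(1, 2)], [(1, 0), (2, 0), (2, 3), (2, 5), (3, 0)], [(0, 3)], [4], [(3, 0, [1]), (8,
      3, [5])]⟩,
    ⟨[(1, 3)], [(1, 0), (2, 0), (3, 0), (3, 1), (3, 3), (4, 0), (4, 3)], [(0, 1), (0, 3),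
      (1, 3)], [], [(3, 0, [1]), (6, 1, [0]), (8, 3, [5])]⟩,
    ⟨[(1, 3), (3, 5)], [(0, 1), (1, 1), (3, 0), (3, 1)], [], [2, 7], [(0, 1, [0])]⟩]
  Ta := [((0, 1), 1, 6), ((0, 9), 1, 7), ((2, 1), 0, 6), ((2, 4), 0, 5), ((3, 8), 0, 3), ((6, 7),
    1, 2), ((6, 8), 1, 3)]
  Tb := [((0, 1, 9), 1, 6, 7), ((1, 0, 2), 6, 1, 0), ((2, 1, 4), 0, 6, 5), ((4, 2, 5), 5, 0, 4),
    ((5, 4, 8), 4, 5, 3), ((6, 7, 8), 1, 2, 3), ((7, 6, 9), 2, 1, 7), ((8, 3, 5), 3, 0, 4),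
    ((8, 3, 6), 3, 0, 1), ((8, 5, 6), 3, 4, 1), ((9, 0, 7), 7, 1, 2)]
  Tc := []
  Td := [((0, 1), (2, 1), 6), ((0, 1), (2, 4), 5), ((0, 1), (3, 8), 3), ((1, 0), (0, 1), 6), ((1,
    0), (0, 9), 7), ((1, 0), (6, 7), 2), ((1, 0), (6, 8), 3), ((3, 5), (8, 3), 0), ((3, 5),
    (8, 5), 4), ((3, 5), (8, 6), 1), ((5, 3), (4, 2), 0), ((5, 3), (4, 5), 4)]
  G := [[0, 0x1812581812a8121854e414125811618a18129846c, 0xc1c2a4c1246c2188c41c23482c234c124e8c,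
    0, 0x92189192389228e41218882a941292389228acc], [0,
    0x141258181298181498e4181494214126411a14caa, 0xc1c834c8845c46c1c4388c2,
    0xc191645151a8c124e82, 0x9194389191a8819118d8e42], [0,
    0x1812a414185468141258121438a4181498141254c2e, 0xc2c264c2c2a4c224e81, 0,
    0x9292689292a89228e41], [0, 0x14185412183461812948c14125418129411a14e2c,
    0x282428e44282424e8282824e8ac1, 0x589458e44589454e859c28ac2,
    0x282424e82822ca8242428e8e41]]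

noncomputable def n3169 : Ent := ⟨e3169, noF, [], [], [(8, 16, [1580044410770988437309982408355971841652082177953823432505702084609, 0])]⟩

def c3169 : PLift (Cov.check n3169.C.D v3169 = true) := ⟨by decide +kernel⟩

def b3169 : PLift (entF (fidx ts) 400 3169 n3169 = true) := ⟨by decide +kernel⟩

theorem g3169 : GoodF (fidx ts) 400 3169 := GoodF.ofV v3169 n3169 c3169.down b3169.down

/-- 4667444:2434 -/
noncomputable def e3170 : SCfg where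
  D := {
    a := 7
    L := 11
    kp := 8
    inn := [(0, 1), (1, 0), (1, 2), (1, 3), (2, 1), (2, 4), (3, 1), (3, 5), (3, 6), (4, 2), (5, 3), (6,
      3)]
    mix := [(0, 0), (0, 1), (0, 2), (1, 0), (1, 2), (1, 3), (2, 2), (2, 3), (2, 4), (2, 5), (3, 0), (3,
      3), (3, 6), (3, 7), (4, 3), (4, 5), (4, 8), (5, 3), (5, 6), (5, 9), (6, 0), (6, 7), (6, 10)]
    cl := [1, 6, 0, 0, 4, 3, 1, 2, 5, 7, 8]
    chq := [(0, 1), (1, 0), (4, 5), (5, 4)]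
    rng := [(0, 1), (0, 10), (1, 0), (1, 2), (2, 1), (2, 4), (3, 8), (3, 9), (4, 2), (4, 5), (5, 4),
      (5, 8), (6, 7), (6, 9), (7, 6), (7, 10), (8, 3), (8, 5), (9, 3), (9, 6), (10, 0), (10, 7)]
    lev := [] }
  links := [[1, 7, 8, 9], [7, 0, 9, 2, 10, 3], [10, 1, 9, 11, 12, 4], [7, 1, 10, 5, 13, 14, 6], [10, 2,
    12, 15], [13, 3, 10, 16], [7, 3, 14, 17]]
  P := {
    a := 7
    N := 18
    nb := [898, 1677, 7698, 25826, 37892, 74760, 147592, 131403, 641, 2311, 98366, 4612, 34836, 81960,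
      139336, 5136, 9248, 16576]
    tri := [(0, 1, 7), (0, 1, 9), (0, 7, 8), (0, 8, 9), (1, 2, 9), (1, 2, 10), (1, 3, 7), (1, 3, 10),
      (2, 4, 10), (2, 4, 12), (2, 9, 11), (2, 11, 12), (3, 5, 10), (3, 5, 13), (3, 6, 7), (3, 6,
      14), (3, 13, 14), (4, 10, 15), (4, 12, 15), (5, 10, 16), (5, 13, 16), (6, 7, 17), (6, 14,
      17)]
    fin := [0, 1, 2, 0, 2, 0, 0, 0, 8, 1, 1, 2, 12, 0, 14, 15, 16, 17]
    chd := [(0, 1), (2, 15)]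
    steps := [(0, 7), (0, 3), (0, 5), (0, 6), (0, 13), (1, 9), (1, 10), (2, 4), (2, 11)] }
  rep := [1, 0, 14, 12, 2, 15, 8, 16, 17]

noncomputable def v3170 : Cov.CovD where
  P := 3
  N := 6
  pl := [1, 5, 7, 9, 10]
  lev := [⟨[], [], [(0, 1)], [6], [(0, 1, [0]), (2, 0, [1])]⟩,
    ⟨[], [(0, 0), (0, 1)], [(0, 0), (0, 1)], [], [(0, 1, [0]), (2, 0, [1]), (3, 0, [1])]⟩,
    ⟨[(0, 1)], [(0, 0), (1, 0), (1, 1), (1, 4)], [(0, 0), (0, 4)], [3], [(2, 0, [1]), (3,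
      0, [1]), (4, 4, [5])]⟩,
    ⟨[(0, 1), (1, 2)], [(0, 1), (1, 0), (1, 1), (2, 0)], [(0, 1), (1, 1)], [2], [(0, 1,
      [0]), (3, 0, [1]), (6, 1, [0])]⟩,
    ⟨[(1, 2)], [(1, 0), (2, 0), (2, 4), (2, 5), (3, 0)], [(0, 5)], [3], [(3, 0, [1]), (8,
      5, [4])]⟩,
    ⟨[(1, 3)], [(1, 0), (2, 0), (3, 0), (3, 1), (4, 0)], [(0, 1)], [7], [(3, 0, [1]), (6,
      1, [0])]⟩,
    ⟨[(1, 3), (3, 5)], [(0, 1), (1, 1), (3, 0), (3, 1)], [], [2, 8], [(0, 1, [0])]⟩]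
  Ta := [((0, 1), 1, 6), ((0, 10), 1, 8), ((2, 1), 0, 6), ((2, 4), 0, 4), ((3, 8), 0, 5), ((3,
    9), 0, 7), ((6, 7), 1, 2), ((6, 9), 1, 7)]
  Tb := [((0, 1, 10), 1, 6, 8), ((1, 0, 2), 6, 1, 0), ((2, 1, 4), 0, 6, 4), ((3, 8, 9), 0, 5, 7),
    ((4, 2, 5), 4, 0, 3), ((5, 4, 8), 3, 4, 5), ((6, 7, 9), 1, 2, 7), ((7, 6, 10), 2, 1, 8),
    ((8, 3, 5), 5, 0, 3), ((9, 3, 6), 7, 0, 1), ((10, 0, 7), 8, 1, 2)]
  Tc := []
  Td := [((0, 1), (2, 1), 6), ((0, 1), (2, 4), 4), ((0, 1), (3, 8), 5), ((0, 1), (3, 9), 7), ((1,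
    0), (0, 1), 6), ((1, 0), (0, 10), 8), ((1, 0), (6, 7), 2), ((1, 0), (6, 9), 7), ((4, 5),
    (4, 2), 0), ((4, 5), (4, 5), 3), ((5, 4), (8, 3), 0), ((5, 4), (8, 5), 3)]
  G := [[0, 0x1411a34181812b8c211618116116c868116411a2c1211698a4e,
    0xc218c2c2a8c2c258e4c2c264c2c294c214e8c, 0,
    0x9192589292989218e4121298282a949292589218acc], [0,
    0x11a1411c12c46811a11a6811a14a21448211c1811a11ca4c6e, 0x414188c74c1c1a4c1c1c4e82,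
    0x99c1491c1a45151c8e82, 0x9191689191a89191c8e42], [0,
    0x1411a54121814b41811a58e21812147414116981211698e86, 0xc2c264c2c2a4c2c2c4e81, 0,
    0x9292689292a89292c8e41], [0, 0x11c11c641161411a11a94e21214187412116981411698e8c,
    0x22c22c6822c22ca822c22cc8e41, 0x99c59ca499cc9cc4659c59c688c1,
    0x22c22c6822c22ca822c22cc8e41]]

noncomputable def n3170 : Ent := ⟨e3170, noF, [], [], [(8, 17, [6903326391201334775872065844685381424292761054348340378595029942665217, 0]), (15, 16, [7334685537875745012586738086077695515070955365108989538292687706656769, 0])]⟩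

def c3170 : PLift (Cov.check n3170.C.D v3170 = true) := ⟨by decide +kernel⟩

def b3170 : PLift (entF (fidx ts) 400 3170 n3170 = true) := ⟨by decide +kernel⟩

theorem g3170 : GoodF (fidx ts) 400 3170 := GoodF.ofV v3170 n3170 c3170.down b3170.down

/-- 4669544:2435 -/
noncomputable def e3171 : SCfg where
  D := {
    a := 7
    L := 11
    kp := 9
    inn := [(0, 1), (0, 3), (1, 0), (1, 2), (1, 3), (2, 1), (2, 3), (2, 4), (3, 0), (3, 1), (3, 2), (3,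
      4), (3, 5), (3, 6), (4, 2), (4, 3), (5, 3), (6, 3)]
    mix := [(0, 0), (0, 1), (1, 0), (1, 2), (1, 3), (2, 2), (2, 4), (2, 5), (3, 1), (3, 6), (3, 7), (4,
      4), (4, 7), (4, 8), (5, 1), (5, 6), (5, 9), (6, 6), (6, 7), (6, 10)]
    cl := [3, 0, 2, 6, 4, 5, 1, 0, 7, 8, 9]
    chq := [(0, 1), (0, 2), (0, 4), (0, 5), (1, 0), (2, 0), (2, 3), (3, 2), (4, 0), (5, 0)]
    rng := [(0, 1), (0, 3), (1, 0), (1, 9), (2, 3), (2, 5), (3, 0), (3, 2), (4, 5), (4, 8), (5, 2), (5,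
      4), (6, 9), (6, 10), (7, 8), (7, 10), (8, 4), (8, 7), (9, 1), (9, 6), (10, 6), (10, 7)]
    lev := [] }
  links := [[1, 7, 8, 3], [7, 0, 3, 2, 9, 10], [9, 1, 3, 4, 11, 12], [4, 2, 1, 0, 8, 5, 13, 6, 14], [11,
    2, 3, 14, 15], [13, 3, 8, 16], [14, 3, 13, 17]]
  P := {
    a := 7
    N := 18
    nb := [394, 1677, 6682, 24951, 51212, 73992, 155656, 1283, 65705, 5126, 642, 36884, 2564, 196712,
      163928, 18448, 8480, 24640]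
    tri := [(0, 1, 3), (0, 1, 7), (0, 3, 8), (0, 7, 8), (1, 2, 3), (1, 2, 9), (1, 7, 10), (1, 9, 10),
      (2, 3, 4), (2, 4, 11), (2, 9, 12), (2, 11, 12), (3, 4, 14), (3, 5, 8), (3, 5, 13), (3, 6,
      13), (3, 6, 14), (4, 11, 15), (4, 14, 15), (5, 8, 16), (5, 13, 16), (6, 13, 17), (6, 14,
      17)]
    fin := [0, 0, 2, 2, 2, 2, 2, 0, 2, 9, 10, 11, 12, 13, 2, 15, 16, 17]
    chd := [(0, 9), (2, 9), (2, 11), (2, 12), (2, 13)]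
    steps := [(0, 1), (0, 7), (2, 3), (2, 4), (2, 5), (2, 6), (2, 8), (2, 14)] }
  rep := [2, 13, 9, 0, 11, 12, 10, 15, 16, 17]

noncomputable def v3171 : Cov.CovD where
  P := 3
  N := 7
  pl := [3, 8, 9, 10]
  lev := [⟨[], [], [(0, 3)], [], [(0, 3, [2]), (1, 0, [1, 2, 4, 5])]⟩,
    ⟨[], [(0, 0), (0, 2), (0, 3)], [(2, 3)], [6], [(0, 3, [2]), (2, 2, [0, 3])]⟩,
    ⟨[(0, 1)], [(1, 2), (1, 3), (1, 4), (1, 5)], [(2, 4), (2, 5), (4, 5)], [], [(2, 2, [0,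
      3]), (4, 4, [0]), (5, 5, [0])]⟩,
    ⟨[(0, 1), (0, 2), (1, 2)], [(0, 0), (0, 1), (0, 3), (1, 0), (1, 1), (1, 2), (1, 3), (2,
      0), (2, 1), (2, 2), (2, 4), (2, 5)], [(0, 0), (0, 1)], [], [(1, 0, [1, 2, 4, 5]), (6,
      1, [0]), (7, 0, [1, 2, 4, 5])]⟩,
    ⟨[(0, 3), (1, 2), (1, 3), (2, 3)], [(2, 0), (2, 2), (2, 4), (2, 5), (3, 0), (3, 1), (3,
      4)], [(0, 4)], [7], [(4, 4, [0]), (7, 0, [1, 2, 4, 5])]⟩,
    ⟨[(0, 3), (1, 3), (2, 3), (3, 4)], [(0, 0), (3, 0), (3, 1)], [(0, 1)], [8], [(1, 0, [1,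
      2, 4, 5]), (6, 1, [0])]⟩,
    ⟨[(0, 3), (1, 3), (2, 3), (3, 4), (3, 5)], [(3, 0), (3, 1), (4, 0), (5, 1)], [(0, 1)],
      [9], [(6, 1, [0]), (7, 0, [1, 2, 4, 5])]⟩]
  Ta := [((1, 0), 0, 3), ((1, 9), 0, 8), ((7, 8), 0, 7), ((7, 10), 0, 9)]
  Tb := [((0, 1, 3), 3, 0, 6), ((1, 0, 9), 0, 3, 8), ((2, 3, 5), 2, 6, 5), ((3, 0, 2), 6, 3, 2),
    ((4, 5, 8), 4, 5, 7), ((5, 2, 4), 5, 2, 4), ((6, 9, 10), 1, 8, 9), ((7, 8, 10), 0, 7, 9),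
    ((8, 4, 7), 7, 4, 0), ((9, 1, 6), 8, 0, 1), ((10, 6, 7), 9, 1, 0)]
  Tc := [(0, 1, 2), (0, 1, 4), (0, 1, 5), (0, 2, 4), (0, 2, 5), (0, 4, 5), (2, 0, 3)]
  Td := [((0, 1), (1, 0), 3), ((0, 1), (1, 9), 8), ((0, 1), (7, 8), 7), ((0, 1), (7, 10), 9),
    ((0, 2), (1, 0), 3), ((0, 2), (1, 9), 8), ((0, 2), (7, 8), 7), ((0, 2), (7, 10), 9), ((0,
    4), (1, 0), 3), ((0, 4), (1, 9), 8), ((0, 4), (7, 8), 7), ((0, 4), (7, 10), 9), ((0, 5),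
    (1, 0), 3), ((0, 5), (1, 9), 8), ((0, 5), (7, 8), 7), ((0, 5), (7, 10), 9), ((1, 0), (6,
    9), 8), ((1, 0), (6, 10), 9), ((2, 0), (2, 3), 6), ((2, 0), (2, 5), 5), ((2, 3), (2, 3),
    6), ((2, 3), (2, 5), 5), ((3, 2), (0, 1), 0), ((3, 2), (0, 3), 6), ((4, 0), (4, 5), 5),
    ((4, 0), (4, 8), 7), ((5, 0), (5, 2), 2), ((5, 0), (5, 4), 4)]
  G := [[0, 0x6acaaaa6ae41c6aaaa66ae4196ca6c6ccce2143, 0x111111e418111111e814111111e412e,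
    0x14411c1811cec11411c14e1818ac11111a41111681411c11ce188cdd2,
    0x11c1811ce41814481114118c1111c681411c11ce188cb914411c1811cec12e], [0,
    0x6666666c6a8c16666ac6ace81ac6aaa66ae41d2, 0x111111e418111111e814111111e412e,
    0x41416c18181ec141c1c1e818c11111a411c168c14c1c1acdd2,
    0xc181c1e41841481114118c11116841c1c1e818cb9c14c1c1ac12e]]

noncomputable def n3171 : Ent := ⟨e3171, noF, [], [], []⟩

def c3171 : PLift (Cov.check n3171.C.D v3171 = true) := ⟨by decide +kernel⟩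

def b3171 : PLift (entF (fidx ts) 400 3171 n3171 = true) := ⟨by decide +kernel⟩

theorem g3171 : GoodF (fidx ts) 400 3171 := GoodF.ofV v3171 n3171 c3171.down b3171.down

/-- 4669544:2436 -/
noncomputable def e3172 : SCfg where
  D := {
    a := 7
    L := 11
    kp := 9
    inn := [(0, 1), (0, 3), (1, 0), (1, 2), (1, 3), (2, 1), (2, 3), (2, 4), (3, 0), (3, 1), (3, 2), (3,
      4), (3, 5), (4, 2), (4, 3), (4, 6), (5, 3), (6, 4)]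
    mix := [(0, 0), (0, 1), (1, 0), (1, 2), (1, 3), (2, 2), (2, 4), (2, 5), (3, 1), (3, 6), (3, 7), (3,
      8), (4, 4), (4, 8), (5, 1), (5, 6), (5, 9), (6, 4), (6, 8), (6, 10)]
    cl := [2, 0, 3, 5, 1, 6, 4, 7, 0, 8, 9]
    chq := [(0, 1), (0, 3), (0, 5), (0, 6), (1, 0), (3, 0), (5, 0), (6, 0), (7, 8), (8, 7)]
    rng := [(0, 1), (0, 3), (1, 0), (1, 9), (2, 3), (2, 5), (3, 0), (3, 2), (4, 5), (4, 10), (5, 2),
      (5, 4), (6, 7), (6, 9), (7, 6), (7, 8), (8, 7), (8, 10), (9, 1), (9, 6), (10, 4), (10, 8)]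
    lev := [] }
  links := [[1, 7, 8, 3], [7, 0, 3, 2, 9, 10], [9, 1, 3, 4, 11, 12], [4, 2, 1, 0, 8, 5, 13, 14, 15], [11,
    2, 3, 15, 6], [13, 3, 8, 16], [11, 4, 15, 17]]
  P := {
    a := 7
    N := 18
    nb := [394, 1677, 6682, 57655, 34892, 73992, 165904, 1283, 65705, 5126, 642, 135252, 2564, 81960,
      40968, 147544, 8480, 34880]
    tri := [(0, 1, 3), (0, 1, 7), (0, 3, 8), (0, 7, 8), (1, 2, 3), (1, 2, 9), (1, 7, 10), (1, 9, 10),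
      (2, 3, 4), (2, 4, 11), (2, 9, 12), (2, 11, 12), (3, 4, 15), (3, 5, 8), (3, 5, 13), (3, 13,
      14), (3, 14, 15), (4, 6, 11), (4, 6, 15), (5, 8, 16), (5, 13, 16), (6, 11, 17), (6, 15, 17)]
    fin := [0, 0, 0, 3, 0, 3, 0, 7, 0, 9, 10, 11, 12, 13, 14, 0, 3, 17]
    chd := [(0, 9), (0, 10), (0, 11), (0, 12), (14, 3)]
    steps := [(0, 1), (0, 2), (0, 4), (0, 6), (0, 8), (0, 15), (3, 5), (3, 16)] }
  rep := [0, 11, 7, 9, 13, 10, 12, 14, 3, 17]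

noncomputable def v3172 : Cov.CovD where
  P := 3
  N := 7
  pl := [0, 6, 10]
  lev := [⟨[], [], [], [2], [(1, 0, [1, 3, 5, 6])]⟩,
    ⟨[], [(0, 0), (0, 3), (0, 5)], [(3, 5)], [2], [(2, 3, [0]), (3, 5, [0])]⟩,
    ⟨[(0, 1)], [(1, 1), (1, 3), (1, 5), (1, 6)], [(1, 3), (1, 6), (3, 6)], [], [(2, 3,
      [0]), (4, 1, [0]), (5, 6, [0])]⟩,
    ⟨[(0, 1), (0, 2), (1, 2)], [(0, 0), (0, 7), (1, 0), (1, 3), (1, 5), (1, 7), (2, 0), (2,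
      1), (2, 3), (2, 6), (2, 7)], [(0, 0), (0, 7)], [4], [(1, 0, [1, 3, 5, 6]), (7, 7, [8]),
      (8, 0, [1, 3, 5, 6])]⟩,
    ⟨[(0, 3), (1, 2), (1, 3), (2, 3)], [(2, 0), (2, 1), (2, 3), (2, 6), (3, 0), (3, 1), (3,
      7)], [(0, 1)], [], [(4, 1, [0]), (8, 0, [1, 3, 5, 6])]⟩,
    ⟨[(0, 3), (1, 3), (2, 3), (3, 4)], [(0, 0), (3, 0), (3, 7), (3, 8)], [(0, 8)], [4],
      [(1, 0, [1, 3, 5, 6]), (9, 8, [7])]⟩,
    ⟨[(2, 4), (3, 4)], [(2, 1), (3, 0), (4, 0), (4, 1)], [(0, 1)], [9], [(4, 1, [0]), (8,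
      0, [1, 3, 5, 6])]⟩]
  Ta := [((1, 0), 0, 2), ((1, 9), 0, 8), ((8, 7), 0, 7), ((8, 10), 0, 9)]
  Tb := [((0, 1, 3), 2, 0, 5), ((1, 0, 9), 0, 2, 8), ((2, 3, 5), 3, 5, 6), ((3, 0, 2), 5, 2, 3),
    ((4, 5, 10), 1, 6, 9), ((5, 2, 4), 6, 3, 1), ((6, 7, 9), 4, 7, 8), ((7, 6, 8), 7, 4, 0),
    ((8, 7, 10), 0, 7, 9), ((9, 1, 6), 8, 0, 4), ((10, 4, 8), 9, 1, 0)]
  Tc := [(0, 1, 3), (0, 1, 5), (0, 1, 6), (0, 3, 5), (0, 3, 6), (0, 5, 6)]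
  Td := [((0, 1), (1, 0), 2), ((0, 1), (1, 9), 8), ((0, 1), (8, 7), 7), ((0, 1), (8, 10), 9),
    ((0, 3), (1, 0), 2), ((0, 3), (1, 9), 8), ((0, 3), (8, 7), 7), ((0, 3), (8, 10), 9), ((0,
    5), (1, 0), 2), ((0, 5), (1, 9), 8), ((0, 5), (8, 7), 7), ((0, 5), (8, 10), 9), ((0, 6),
    (1, 0), 2), ((0, 6), (1, 9), 8), ((0, 6), (8, 7), 7), ((0, 6), (8, 10), 9), ((1, 0), (4,
    5), 6), ((1, 0), (4, 10), 9), ((3, 0), (2, 3), 5), ((3, 0), (2, 5), 6), ((5, 0), (3, 0),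
    2), ((5, 0), (3, 2), 3), ((6, 0), (5, 2), 3), ((6, 0), (5, 4), 1), ((7, 8), (7, 6), 4),
    ((7, 8), (7, 8), 0), ((8, 7), (9, 1), 0), ((8, 7), (9, 6), 4)]
  G := [[0, 0x66986186a18a6986aa34618c694ee1ac648cc328c1c,
    0x116411a811c4e1116411c4a1116411a811c8e1e11a84146,
    0x1184111c8211641181198e116411a811c8ed5116411811c4e1116411c4a11141138c8dc,
    0x11411a811c8e11184114113811c4e116411a811c8ed3113411c8a18a], [0,
    0xc18acc86416a6226984698ecc3286a34a18ac94ee1c, 0,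
    0x11641198114e111811c46115411a8c18ecc34c18ccc4ed51c641181194e11134889c,
    0x1198c18612c154811c341181198e11581198c18ec14cc38ccc4ed3a]]

noncomputable def n3172 : Ent := ⟨e3172, noF, [], [], []⟩

def c3172 : PLift (Cov.check n3172.C.D v3172 = true) := ⟨by decide +kernel⟩

def b3172 : PLift (entF (fidx ts) 400 3172 n3172 = true) := ⟨by decide +kernel⟩

theorem g3172 : GoodF (fidx ts) 400 3172 := GoodF.ofV v3172 n3172 c3172.down b3172.down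

/-- 4669446:2437 -/
noncomputable def e3173 : SCfg where
  D := {
    a := 7
    L := 11
    kp := 9
    inn := [(0, 1), (0, 3), (1, 0), (1, 2), (1, 3), (2, 1), (2, 3), (2, 4), (2, 6), (3, 0), (3, 1), (3,
      2), (3, 5), (3, 6), (4, 2), (5, 3), (5, 6), (6, 2), (6, 3), (6, 5)]
    mix := [(0, 0), (0, 1), (1, 0), (1, 2), (1, 3), (2, 2), (2, 4), (3, 1), (3, 5), (3, 6), (3, 7), (4,
      2), (4, 4), (4, 8), (5, 7), (5, 9), (6, 4), (6, 9), (6, 10)]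
    cl := [2, 0, 1, 6, 3, 7, 8, 0, 9, 4, 5]
    chq := [(0, 1), (1, 0), (1, 2), (1, 3), (1, 4), (1, 5), (2, 1), (3, 1), (4, 1), (5, 1)]
    rng := [(0, 1), (0, 3), (1, 0), (1, 5), (2, 3), (2, 8), (3, 0), (3, 2), (4, 8), (4, 10), (5, 1),
      (5, 6), (6, 5), (6, 7), (7, 6), (7, 9), (8, 2), (8, 4), (9, 7), (9, 10), (10, 4), (10, 9)]
    lev := [] }
  links := [[1, 7, 8, 3], [7, 0, 3, 2, 9, 10], [9, 1, 3, 6, 11, 4], [6, 2, 1, 0, 8, 12, 13, 14, 5], [9,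
    2, 11, 15], [6, 3, 14, 16], [11, 2, 3, 5, 16, 17]]
  P := {
    a := 7
    N := 18
    nb := [394, 1677, 2650, 29031, 35332, 81992, 198700, 1283, 4233, 33814, 642, 163924, 8456, 20488,
      73768, 2576, 147552, 67648]
    tri := [(0, 1, 3), (0, 1, 7), (0, 3, 8), (0, 7, 8), (1, 2, 3), (1, 2, 9), (1, 7, 10), (1, 9, 10),
      (2, 3, 6), (2, 4, 9), (2, 4, 11), (2, 6, 11), (3, 5, 6), (3, 5, 14), (3, 8, 12), (3, 12,
      13), (3, 13, 14), (4, 9, 15), (4, 11, 15), (5, 6, 16), (5, 14, 16), (6, 11, 17), (6, 16,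
      17)]
    fin := [0, 0, 2, 3, 4, 3, 2, 0, 3, 2, 10, 4, 12, 13, 3, 15, 16, 17]
    chd := [(0, 2), (2, 4), (2, 16), (2, 17), (3, 2)]
    steps := [(0, 1), (0, 7), (2, 6), (2, 9), (3, 5), (3, 8), (3, 14), (4, 11)] }
  rep := [3, 2, 0, 4, 16, 17, 10, 12, 13, 15]

noncomputable def v3173 : Cov.CovD where
  P := 3
  N := 7
  pl := [3, 5, 6, 8]
  lev := [⟨[], [], [(0, 2)], [], [(0, 2, [1]), (1, 0, [1])]⟩,
    ⟨[], [(0, 0), (0, 1), (0, 2)], [(1, 2)], [6], [(0, 2, [1]), (2, 1, [0, 2, 3, 4, 5])]⟩,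
    ⟨[(0, 1)], [(1, 1), (1, 2), (1, 3)], [(1, 3)], [], [(2, 1, [0, 2, 3, 4, 5]), (4, 3,
      [1])]⟩,
    ⟨[(0, 1), (0, 2), (1, 2)], [(0, 0), (0, 2), (1, 0), (1, 1), (1, 2), (2, 0), (2, 1), (2,
      3)], [(0, 0)], [7, 8], [(1, 0, [1]), (7, 0, [1])]⟩,
    ⟨[(1, 2), (2, 3)], [(1, 1), (2, 1), (2, 3)], [(1, 3)], [9], [(2, 1, [0, 2, 3, 4, 5]),
      (4, 3, [1])]⟩,
    ⟨[(0, 3), (1, 3), (2, 3)], [(3, 0), (3, 4)], [(0, 4)], [], [(7, 0, [1]), (9, 4, [1])]⟩,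
    ⟨[(0, 3), (1, 2), (1, 3), (2, 3), (2, 4), (2, 5), (3, 5)], [(2, 1), (2, 3), (2, 4), (2,
      5), (3, 0), (3, 3), (3, 4), (3, 5), (4, 3), (5, 0), (5, 3), (5, 4), (5, 5)], [(3, 4),
      (3, 5), (4, 5)], [], [(4, 3, [1]), (9, 4, [1]), (10, 5, [1])]⟩]
  Ta := [((1, 0), 0, 2), ((1, 5), 0, 7), ((7, 6), 0, 8), ((7, 9), 0, 4)]
  Tb := [((0, 1, 3), 2, 0, 6), ((1, 0, 5), 0, 2, 7), ((2, 3, 8), 1, 6, 9), ((3, 0, 2), 6, 2, 1),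
    ((4, 8, 10), 3, 9, 5), ((5, 1, 6), 7, 0, 8), ((6, 5, 7), 8, 7, 0), ((7, 6, 9), 0, 8, 4),
    ((8, 2, 4), 9, 1, 3), ((9, 7, 10), 4, 0, 5), ((10, 4, 9), 5, 3, 4)]
  Tc := [(1, 0, 2), (1, 0, 3), (1, 0, 4), (1, 0, 5), (1, 2, 3), (1, 2, 4), (1, 2, 5), (1, 3, 4),
    (1, 3, 5), (1, 4, 5)]
  Td := [((0, 1), (1, 0), 2), ((0, 1), (1, 5), 7), ((0, 1), (7, 6), 8), ((0, 1), (7, 9), 4), ((1,
    0), (2, 3), 6), ((1, 0), (2, 8), 9), ((1, 2), (2, 3), 6), ((1, 2), (2, 8), 9), ((1, 3),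
    (2, 3), 6), ((1, 3), (2, 8), 9), ((1, 4), (2, 3), 6), ((1, 4), (2, 8), 9), ((1, 5), (2,
    3), 6), ((1, 5), (2, 8), 9), ((2, 1), (0, 1), 0), ((2, 1), (0, 3), 6), ((3, 1), (4, 8),
    9), ((3, 1), (4, 10), 5), ((4, 1), (9, 7), 0), ((4, 1), (9, 10), 5), ((5, 1), (10, 4),
    3), ((5, 1), (10, 9), 4)]
  G := [[0, 0x11a14116111a11161e116111c1ae116111a111c1e11611161a11a14ec1,
    0x218e11a34112f6212121da114e1b652121c163e18181f62188212121d21215123516217edc2221642121c8212198d21488ca,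
    0x222212642228222212212e5222212622282128dd8,
    0x21861123c1e6821e11ce1b2521222122f61441851a3f6212121d2111a358617e2121a214cd921442121c821219212121dcd221889a],
    [0, 0x116111a1a116111a111c1e6116111a1a11c18a11a11ac48d11a111c16245, 0,
    0x2224422248c22222c2a122222c2a822222c2a22245dc,
    0x228e24e23cc6221ed1622cb2526cd86296b2a21e5825a7222826a4cd92222c6444662226c984a23622692225a22cdcd21622322c22c22cdc2222c22cd23a1cc92828c8281852b]]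

noncomputable def n3173 : Ent := ⟨e3173, noF, [], [], []⟩

def c3173 : PLift (Cov.check n3173.C.D v3173 = true) := ⟨by decide +kernel⟩

def b3173 : PLift (entF (fidx ts) 400 3173 n3173 = true) := ⟨by decide +kernel⟩

theorem g3173 : GoodF (fidx ts) 400 3173 := GoodF.ofV v3173 n3173 c3173.down b3173.down

/-- 4669444:2438/1 -/
noncomputable def e3174 : SCfg where
  D := {
    a := 7
    L := 10
    kp := 7
    inn := [(0, 1), (0, 3), (1, 0), (1, 2), (1, 3), (2, 1), (2, 3), (2, 4), (3, 0), (3, 1), (3, 2), (3,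
      5), (3, 6), (4, 2), (5, 3), (6, 3)]
    mix := [(0, 0), (0, 1), (1, 0), (1, 2), (1, 3), (2, 2), (2, 4), (2, 5), (3, 1), (3, 4), (3, 6), (3,
      7), (4, 2), (4, 5), (4, 8), (5, 4), (5, 7), (5, 9), (6, 1), (6, 6), (6, 8)]
    cl := [3, 1, 0, 6, 0, 2, 4, 1, 5, 7]
    chq := [(0, 1), (0, 3), (1, 0), (3, 0)]
    rng := [(0, 1), (0, 3), (1, 0), (1, 8), (2, 3), (2, 8), (3, 0), (3, 2), (4, 5), (4, 9), (5, 4), (5,
      8), (6, 7), (6, 8), (7, 6), (7, 9), (8, 1), (8, 2), (8, 5), (8, 6), (9, 4), (9, 7)]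
    lev := [] }
  links := [[1, 7, 8, 3], [7, 0, 3, 2, 9, 10], [9, 1, 3, 11, 12, 4], [11, 2, 1, 0, 8, 6, 13, 14, 5], [9,
    2, 12, 15], [11, 3, 14, 16], [13, 3, 8, 15]]
  P := {
    a := 7
    N := 17
    nb := [394, 1677, 6682, 26983, 37380, 83976, 41224, 1283, 32969, 33814, 642, 69676, 34836, 49224,
      73768, 13136, 18464]
    tri := [(0, 1, 3), (0, 1, 7), (0, 3, 8), (0, 7, 8), (1, 2, 3), (1, 2, 9), (1, 7, 10), (1, 9, 10),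
      (2, 3, 11), (2, 4, 9), (2, 4, 12), (2, 11, 12), (3, 5, 11), (3, 5, 14), (3, 6, 8), (3, 6,
      13), (3, 13, 14), (4, 9, 15), (4, 12, 15), (5, 11, 16), (5, 14, 16), (6, 8, 15), (6, 13,
      15)]
    fin := [0, 0, 2, 3, 4, 3, 3, 0, 3, 2, 10, 2, 12, 13, 3, 4, 16]
    chd := [(0, 2), (3, 2)]
    steps := [(0, 1), (0, 7), (2, 11), (2, 9), (3, 5), (3, 6), (3, 8), (3, 14), (4, 15)] }
  rep := [2, 3, 12, 0, 13, 4, 10, 16]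

noncomputable def v3174 : Cov.CovD where
  P := 3
  N := 5
  pl := [3, 5, 6, 8, 9]
  lev := [⟨[], [], [(1, 3)], [], [(0, 3, [0]), (1, 1, [0])]⟩,
    ⟨[], [(0, 0), (0, 1), (0, 3)], [(0, 3)], [6], [(0, 3, [0]), (2, 0, [1, 3])]⟩,
    ⟨[(0, 1)], [(1, 0), (1, 3)], [(0, 0)], [2], [(2, 0, [1, 3]), (4, 0, [1, 3])]⟩,
    ⟨[(0, 1), (0, 2), (1, 2)], [(0, 0), (0, 1), (0, 3), (1, 0), (1, 1), (1, 3), (2, 0), (2,
      1)], [(0, 1), (1, 1)], [4], [(1, 1, [0]), (4, 0, [1, 3]), (7, 1, [0])]⟩,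
    ⟨[(1, 2), (2, 3)], [(1, 0), (2, 0)], [], [2, 5], [(2, 0, [1, 3])]⟩,
    ⟨[(0, 3), (1, 3), (2, 3)], [(2, 0), (3, 0), (3, 1)], [(0, 1)], [7], [(4, 0, [1, 3]),
      (7, 1, [0])]⟩,
    ⟨[(0, 3), (1, 3), (2, 3), (3, 5)], [(0, 1), (3, 0), (3, 1)], [], [4, 5], [(1, 1, [0])]⟩]
  Ta := [((1, 0), 1, 3), ((1, 8), 1, 5), ((2, 3), 0, 6), ((2, 8), 0, 5), ((4, 5), 0, 2), ((4, 9),
    0, 7), ((7, 6), 1, 4), ((7, 9), 1, 7)]
  Tb := [((0, 1, 3), 3, 1, 6), ((1, 0, 8), 1, 3, 5), ((2, 3, 8), 0, 6, 5), ((3, 0, 2), 6, 3, 0),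
    ((4, 5, 9), 0, 2, 7), ((5, 4, 8), 2, 0, 5), ((6, 7, 8), 4, 1, 5), ((7, 6, 9), 1, 4, 7),
    ((8, 1, 2), 5, 1, 0), ((8, 1, 5), 5, 1, 2), ((8, 1, 6), 5, 1, 4), ((8, 2, 5), 5, 0, 2),
    ((8, 2, 6), 5, 0, 4), ((8, 5, 6), 5, 2, 4), ((9, 4, 7), 7, 0, 1)]
  Tc := [(0, 1, 3)]
  Td := [((0, 1), (2, 3), 6), ((0, 1), (2, 8), 5), ((0, 1), (4, 5), 2), ((0, 1), (4, 9), 7), ((0,
    3), (2, 3), 6), ((0, 3), (2, 8), 5), ((0, 3), (4, 5), 2), ((0, 3), (4, 9), 7), ((1, 0),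
    (1, 0), 3), ((1, 0), (1, 8), 5), ((1, 0), (7, 6), 4), ((1, 0), (7, 9), 7), ((3, 0), (0,
    1), 1), ((3, 0), (0, 3), 6)]
  G := [[0, 0x18641cc21a116c68118116c1281411cce41a, 0,
    0x9188242c5485244249845248412848288c1141c48111c8ced,
    0x82812842218411242d1ac28152a128c21124251ac8188aed], [0,
    0x44a448118c14ac11a14ca4111a811c11cc641e, 0,
    0x21442161c118cc2142111cc8188c2141141cc2188ce1, 0x212e12c2712212c2212b12c8e1], [0,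
    0x11a111a1648116111a1a84116111a1c42e, 0x121269242cc211252692926c81c,
    0x4292541218c1214d218c121d21c8e1, 0x121d21c2d21121c2d21121c2e1], [0,
    0x11612c144a4114421c12ca8111a18c481e, 0x1dc2d1c2c212,
    0x1414c418c11cc8c122c1482151281c811c1422c18ce3, 0x1dc2d1c2c2111242118a211112c8a3]]

noncomputable def n3174 : Ent := ⟨e3174, noF, [], [], []⟩

def c3174 : PLift (Cov.check n3174.C.D v3174 = true) := ⟨by decide +kernel⟩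

def b3174 : PLift (entF (fidx ts) 400 3174 n3174 = true) := ⟨by decide +kernel⟩

theorem g3174 : GoodF (fidx ts) 400 3174 := GoodF.ofV v3174 n3174 c3174.down b3174.down

/-- 4669444:2438 -/
noncomputable def e3175 : SCfg where
  D := {
    a := 7
    L := 11
    kp := 8
    inn := [(0, 1), (0, 3), (1, 0), (1, 2), (1, 3), (2, 1), (2, 3), (2, 4), (3, 0), (3, 1), (3, 2), (3,
      5), (3, 6), (4, 2), (5, 3), (6, 3)]
    mix := [(0, 0), (0, 1), (1, 0), (1, 2), (1, 3), (2, 2), (2, 4), (2, 5), (3, 1), (3, 4), (3, 6), (3,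
      7), (4, 2), (4, 5), (4, 8), (5, 4), (5, 7), (5, 9), (6, 1), (6, 6), (6, 10)]
    cl := [3, 1, 0, 5, 0, 2, 4, 1, 6, 7, 8]
    chq := [(0, 1), (1, 0), (1, 5), (5, 1)]
    rng := [(0, 1), (0, 3), (1, 0), (1, 10), (2, 3), (2, 8), (3, 0), (3, 2), (4, 5), (4, 9), (5, 4),
      (5, 8), (6, 7), (6, 10), (7, 6), (7, 9), (8, 2), (8, 5), (9, 4), (9, 7), (10, 1), (10, 6)]
    lev := [] }
  links := [[1, 7, 8, 3], [7, 0, 3, 2, 9, 10], [9, 1, 3, 11, 12, 4], [11, 2, 1, 0, 8, 6, 13, 14, 5], [9,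
    2, 12, 15], [11, 3, 14, 16], [13, 3, 8, 17]]
  P := {
    a := 7
    N := 18
    nb := [394, 1677, 6682, 26983, 37380, 83976, 139528, 1283, 131273, 33814, 642, 69676, 34836,
      147528, 73768, 4624, 18464, 8512]
    tri := [(0, 1, 3), (0, 1, 7), (0, 3, 8), (0, 7, 8), (1, 2, 3), (1, 2, 9), (1, 7, 10), (1, 9, 10),
      (2, 3, 11), (2, 4, 9), (2, 4, 12), (2, 11, 12), (3, 5, 11), (3, 5, 14), (3, 6, 8), (3, 6,
      13), (3, 13, 14), (4, 9, 15), (4, 12, 15), (5, 11, 16), (5, 14, 16), (6, 8, 17), (6, 13,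
      17)]
    fin := [0, 1, 2, 1, 2, 1, 1, 0, 1, 2, 10, 2, 12, 13, 1, 15, 16, 17]
    chd := [(1, 2), (1, 10)]
    steps := [(0, 7), (1, 3), (1, 5), (1, 6), (1, 8), (1, 14), (2, 4), (2, 11), (2, 9)] }
  rep := [2, 1, 12, 0, 13, 10, 15, 16, 17]

noncomputable def v3175 : Cov.CovD where
  P := 3
  N := 6
  pl := [0, 5, 6, 8, 9, 10]
  lev := [⟨[], [], [], [3], [(1, 1, [0, 5])]⟩,
    ⟨[], [(0, 0), (0, 1), (0, 5)], [(0, 5)], [3], [(2, 0, [1]), (3, 5, [1])]⟩,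
    ⟨[(0, 1)], [(1, 0), (1, 5)], [(0, 0)], [2], [(2, 0, [1]), (4, 0, [1])]⟩,
    ⟨[(0, 1), (0, 2), (1, 2)], [(0, 0), (0, 1), (1, 0), (1, 1), (1, 5), (2, 0), (2, 1)],
      [(0, 1), (1, 1)], [4], [(1, 1, [0, 5]), (4, 0, [1]), (7, 1, [0, 5])]⟩,
    ⟨[(1, 2), (2, 3)], [(1, 0), (2, 0)], [], [2, 6], [(2, 0, [1])]⟩,
    ⟨[(0, 3), (1, 3), (2, 3)], [(2, 0), (3, 0), (3, 1)], [(0, 1)], [7], [(4, 0, [1]), (7,
      1, [0, 5])]⟩,
    ⟨[(0, 3), (1, 3), (2, 3), (3, 5)], [(0, 1), (3, 0), (3, 1)], [], [4, 8], [(1, 1, [0,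
      5])]⟩]
  Ta := [((1, 0), 1, 3), ((1, 10), 1, 8), ((2, 3), 0, 5), ((2, 8), 0, 6), ((4, 5), 0, 2), ((4,
    9), 0, 7), ((7, 6), 1, 4), ((7, 9), 1, 7)]
  Tb := [((0, 1, 3), 3, 1, 5), ((1, 0, 10), 1, 3, 8), ((2, 3, 8), 0, 5, 6), ((3, 0, 2), 5, 3, 0),
    ((4, 5, 9), 0, 2, 7), ((5, 4, 8), 2, 0, 6), ((6, 7, 10), 4, 1, 8), ((7, 6, 9), 1, 4, 7),
    ((8, 2, 5), 6, 0, 2), ((9, 4, 7), 7, 0, 1), ((10, 1, 6), 8, 1, 4)]
  Tc := [(1, 0, 5)]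
  Td := [((0, 1), (2, 3), 5), ((0, 1), (2, 8), 6), ((0, 1), (4, 5), 2), ((0, 1), (4, 9), 7), ((1,
    0), (1, 0), 3), ((1, 0), (1, 10), 8), ((1, 0), (7, 6), 4), ((1, 0), (7, 9), 7), ((1, 5),
    (1, 0), 3), ((1, 5), (1, 10), 8), ((1, 5), (7, 6), 4), ((1, 5), (7, 9), 7), ((5, 1), (3,
    0), 3), ((5, 1), (3, 2), 0)]
  G := [[0, 0x11a111a164811611161a8411c111a1c42e, 0,
    0x918449291c45288cc5112cc2c2c94514c2c2c981244c248ced24485152c49192c8cad,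
    0xd1d2a8282a521211a4242a5882218e1111a82d2d2a8282218e1288212251d1ac9188aad], [0,
    0x11611cc48111611ac84111c11cc241e, 0, 0x5121c42171c8c22121c49191c8c29,
    0x71c1a22c22ca582218822122151ac9188a69], [0, 0x11a111a164811611161a84116111c1c82e,
    0x5252a48525264839292a849292a8234252a492926128cc2d,
    0x521484252c4839218412849292c8c352149218c2d,
    0x52141218a5252a42392182821829292a827221521c8218a2d], [0,
    0x11a11161648116111a1a84116111a1c82e, 0x245aca482b8842ec26c68c252c24642ec23ca8c2d,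
    0x52c143418c239c18426ac142818c2d, 0xabc14822261381c2818a2221341c6ac18a2d]]

noncomputable def n3175 : Ent := ⟨e3175, noF, [], [], [(17, 15, [6903537015784671890245461680740748765157398844539141476817538564644865, 0])]⟩

def c3175 : PLift (Cov.check n3175.C.D v3175 = true) := ⟨by decide +kernel⟩

def b3175 : PLift (entF (fidx ts) 400 3175 n3175 = true) := ⟨by decide +kernel⟩

theorem g3175 : GoodF (fidx ts) 400 3175 := GoodF.ofV v3175 n3175 c3175.down b3175.down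

/-- 4669544:2439 -/
noncomputable def e3176 : SCfg where
  D := {
    a := 7
    L := 11
    kp := 9
    inn := [(0, 1), (0, 3), (1, 0), (1, 2), (1, 3), (2, 1), (2, 3), (2, 4), (3, 0), (3, 1), (3, 2), (3,
      4), (3, 5), (4, 2), (4, 3), (4, 6), (5, 3), (6, 4)]
    mix := [(0, 0), (0, 1), (1, 0), (1, 2), (1, 3), (2, 2), (2, 4), (2, 5), (3, 1), (3, 6), (3, 7), (3,
      8), (4, 4), (4, 8), (5, 6), (5, 7), (5, 9), (6, 4), (6, 8), (6, 10)]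
    cl := [2, 0, 4, 6, 3, 7, 5, 0, 1, 8, 9]
    chq := [(0, 4), (0, 6), (1, 3), (1, 4), (1, 7), (3, 1), (4, 0), (4, 1), (6, 0), (7, 1)]
    rng := [(0, 1), (0, 3), (1, 0), (1, 6), (2, 3), (2, 5), (3, 0), (3, 2), (4, 5), (4, 10), (5, 2),
      (5, 4), (6, 1), (6, 9), (7, 8), (7, 9), (8, 7), (8, 10), (9, 6), (9, 7), (10, 4), (10, 8)]
    lev := [] }
  links := [[1, 7, 8, 3], [7, 0, 3, 2, 9, 10], [9, 1, 3, 4, 11, 12], [4, 2, 1, 0, 8, 13, 5, 14, 15], [11,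
    2, 3, 15, 6], [14, 3, 13, 16], [11, 4, 15, 17]]
  P := {
    a := 7
    N := 18
    nb := [394, 1677, 6682, 57655, 34892, 90120, 165904, 1283, 8329, 5126, 642, 135252, 2564, 65832,
      98344, 147544, 24608, 34880]
    tri := [(0, 1, 3), (0, 1, 7), (0, 3, 8), (0, 7, 8), (1, 2, 3), (1, 2, 9), (1, 7, 10), (1, 9, 10),
      (2, 3, 4), (2, 4, 11), (2, 9, 12), (2, 11, 12), (3, 4, 15), (3, 5, 13), (3, 5, 14), (3, 8,
      13), (3, 14, 15), (4, 6, 11), (4, 6, 15), (5, 13, 16), (5, 14, 16), (6, 11, 17), (6, 15,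
      17)]
    fin := [0, 1, 2, 1, 2, 1, 2, 0, 1, 9, 10, 11, 12, 13, 1, 2, 16, 17]
    chd := [(1, 9), (1, 10), (9, 2), (11, 2), (12, 2)]
    steps := [(0, 7), (1, 3), (1, 5), (1, 8), (1, 14), (2, 4), (2, 6), (2, 15)] }
  rep := [1, 2, 0, 11, 9, 13, 10, 12, 16, 17]

noncomputable def v3176 : Cov.CovD where
  P := 3
  N := 7
  pl := [0, 6, 9, 10]
  lev := [⟨[], [], [], [2], [(1, 0, [4, 6])]⟩,
    ⟨[], [(0, 0), (0, 4), (0, 6)], [(4, 6)], [2], [(2, 4, [0, 1]), (3, 6, [0])]⟩,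
    ⟨[(0, 1)], [(1, 3), (1, 4), (1, 6), (1, 7)], [(3, 4), (3, 7), (4, 7)], [], [(2, 4, [0,
      1]), (4, 3, [1]), (5, 7, [1])]⟩,
    ⟨[(0, 1), (0, 2), (1, 2)], [(0, 0), (0, 1), (1, 0), (1, 1), (1, 4), (1, 6), (2, 0), (2,
      1), (2, 3), (2, 4), (2, 7)], [(0, 0), (0, 1)], [5], [(1, 0, [4, 6]), (7, 0, [4, 6]),
      (8, 1, [3, 4, 7])]⟩,
    ⟨[(0, 3), (1, 2), (1, 3), (2, 3)], [(2, 1), (2, 3), (2, 4), (2, 7), (3, 0), (3, 1), (3,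
      3)], [(1, 3)], [], [(4, 3, [1]), (8, 1, [3, 4, 7])]⟩,
    ⟨[(0, 3), (1, 3), (2, 3), (3, 4)], [(3, 0), (3, 1)], [], [5, 8], [(7, 0, [4, 6])]⟩,
    ⟨[(2, 4), (3, 4)], [(2, 3), (3, 1), (4, 1), (4, 3)], [(1, 3)], [9], [(4, 3, [1]), (8,
      1, [3, 4, 7])]⟩]
  Ta := [((1, 0), 0, 2), ((1, 6), 0, 5), ((7, 8), 0, 1), ((7, 9), 0, 8)]
  Tb := [((0, 1, 3), 2, 0, 6), ((1, 0, 6), 0, 2, 5), ((2, 3, 5), 4, 6, 7), ((3, 0, 2), 6, 2, 4),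
    ((4, 5, 10), 3, 7, 9), ((5, 2, 4), 7, 4, 3), ((6, 1, 9), 5, 0, 8), ((7, 8, 9), 0, 1, 8),
    ((8, 7, 10), 1, 0, 9), ((9, 6, 7), 8, 5, 0), ((10, 4, 8), 9, 3, 1)]
  Tc := [(0, 4, 6), (1, 3, 4), (1, 3, 7), (1, 4, 7), (4, 0, 1)]
  Td := [((0, 4), (1, 0), 2), ((0, 4), (1, 6), 5), ((0, 4), (7, 8), 1), ((0, 4), (7, 9), 8), ((0,
    6), (1, 0), 2), ((0, 6), (1, 6), 5), ((0, 6), (7, 8), 1), ((0, 6), (7, 9), 8), ((1, 3),
    (8, 7), 0), ((1, 3), (8, 10), 9), ((1, 4), (8, 7), 0), ((1, 4), (8, 10), 9), ((1, 7), (8,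
    7), 0), ((1, 7), (8, 10), 9), ((3, 1), (4, 5), 7), ((3, 1), (4, 10), 9), ((4, 0), (2, 3),
    6), ((4, 0), (2, 5), 7), ((4, 1), (2, 3), 6), ((4, 1), (2, 5), 7), ((6, 0), (3, 0), 2),
    ((6, 0), (3, 2), 4), ((7, 1), (5, 2), 4), ((7, 1), (5, 4), 3)]
  G := [[0, 0, 0xb14c18cc1915c1519ce1111619c72c1915c1519c2c1915c1519c2c14718c8ea,
    0xcca99a5c1519c214, 0xc1915cc65569c212], [0, 0xcccaac6aa6666ca114, 0,
    0xcc65569421cca99a5821c, 0xcca99a5cc65569c212]]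

noncomputable def n3176 : Ent := ⟨e3176, noF, [], [], []⟩

def c3176 : PLift (Cov.check n3176.C.D v3176 = true) := ⟨by decide +kernel⟩

def b3176 : PLift (entF (fidx ts) 400 3176 n3176 = true) := ⟨by decide +kernel⟩

theorem g3176 : GoodF (fidx ts) 400 3176 := GoodF.ofV v3176 n3176 c3176.down b3176.down

/-- 4669444:2440/1 -/
noncomputable def e3177 : SCfg where
  D := {
    a := 7
    L := 10
    kp := 7
    inn := [(0, 1), (0, 3), (1, 0), (1, 2), (1, 3), (2, 1), (2, 3), (2, 6), (3, 0), (3, 1), (3, 2), (3,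
      4), (3, 5), (4, 3), (5, 3), (6, 2)]
    mix := [(0, 0), (0, 1), (1, 0), (1, 2), (1, 3), (2, 2), (2, 4), (2, 5), (3, 1), (3, 4), (3, 6), (3,
      7), (4, 1), (4, 6), (4, 8), (5, 6), (5, 7), (5, 9), (6, 2), (6, 5), (6, 8)]
    cl := [4, 0, 1, 6, 1, 2, 3, 0, 5, 7]
    chq := [(0, 3), (1, 4), (3, 0), (4, 1)]
    rng := [(0, 1), (0, 3), (1, 0), (1, 8), (2, 3), (2, 8), (3, 0), (3, 2), (4, 5), (4, 7), (5, 4), (5,
      8), (6, 8), (6, 9), (7, 4), (7, 9), (8, 1), (8, 2), (8, 5), (8, 6), (9, 6), (9, 7)]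
    lev := [] }
  links := [[1, 7, 8, 3], [7, 0, 3, 2, 9, 10], [9, 1, 3, 11, 12, 6], [11, 2, 1, 0, 8, 4, 13, 5, 14], [13,
    3, 8, 15], [14, 3, 13, 16], [9, 2, 12, 15]]
  P := {
    a := 7
    N := 17
    nb := [394, 1677, 6730, 26935, 41224, 90120, 37380, 1283, 32921, 33862, 642, 20492, 34884, 98360,
      67624, 13136, 24608]
    tri := [(0, 1, 3), (0, 1, 7), (0, 3, 8), (0, 7, 8), (1, 2, 3), (1, 2, 9), (1, 7, 10), (1, 9, 10),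
      (2, 3, 11), (2, 6, 9), (2, 6, 12), (2, 11, 12), (3, 4, 8), (3, 4, 13), (3, 5, 13), (3, 5,
      14), (3, 11, 14), (4, 8, 15), (4, 13, 15), (5, 13, 16), (5, 14, 16), (6, 9, 15), (6, 12,
      15)]
    fin := [0, 0, 2, 3, 3, 3, 6, 0, 3, 2, 10, 2, 12, 13, 3, 6, 16]
    chd := [(0, 2), (3, 13)]
    steps := [(0, 1), (0, 7), (2, 11), (2, 9), (3, 4), (3, 5), (3, 8), (3, 14), (6, 15)] }
  rep := [3, 2, 12, 13, 0, 6, 10, 16]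

noncomputable def v3177 : Cov.CovD where
  P := 3
  N := 5
  pl := [3, 5, 8, 9]
  lev := [⟨[], [], [(0, 4)], [], [(0, 4, [1]), (1, 0, [3])]⟩,
    ⟨[], [(0, 0), (0, 1), (0, 4)], [(1, 4)], [6], [(0, 4, [1]), (2, 1, [4])]⟩,
    ⟨[(0, 1)], [(1, 1), (1, 4)], [(1, 1)], [2], [(2, 1, [4]), (4, 1, [4])]⟩,
    ⟨[(0, 1), (0, 2), (1, 2)], [(0, 0), (0, 1), (0, 3), (0, 4), (1, 0), (1, 1), (1, 3), (1,
      4), (2, 0), (2, 1), (2, 3)], [(0, 0), (0, 1), (0, 3), (1, 3)], [], [(1, 0, [3]), (4, 1,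
      [4]), (6, 3, [0]), (7, 0, [3])]⟩,
    ⟨[(0, 3), (1, 3), (2, 3)], [(0, 0), (3, 0), (3, 1), (3, 3)], [(0, 3)], [5], [(1, 0,
      [3]), (6, 3, [0])]⟩,
    ⟨[(0, 3), (1, 3), (2, 3), (3, 4)], [(3, 0), (3, 1), (3, 3), (4, 3)], [(0, 3)], [7],
      [(6, 3, [0]), (7, 0, [3])]⟩,
    ⟨[(1, 2), (2, 3)], [(1, 1), (2, 1)], [], [2, 5], [(2, 1, [4])]⟩]
  Ta := [((1, 0), 0, 4), ((1, 8), 0, 5), ((2, 3), 1, 6), ((2, 8), 1, 5), ((4, 5), 1, 2), ((4, 7),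
    1, 0), ((7, 4), 0, 1), ((7, 9), 0, 7)]
  Tb := [((0, 1, 3), 4, 0, 6), ((1, 0, 8), 0, 4, 5), ((2, 3, 8), 1, 6, 5), ((3, 0, 2), 6, 4, 1),
    ((4, 5, 7), 1, 2, 0), ((5, 4, 8), 2, 1, 5), ((6, 8, 9), 3, 5, 7), ((7, 4, 9), 0, 1, 7),
    ((8, 1, 2), 5, 0, 1), ((8, 1, 5), 5, 0, 2), ((8, 1, 6), 5, 0, 3), ((8, 2, 5), 5, 1, 2),
    ((8, 2, 6), 5, 1, 3), ((8, 5, 6), 5, 2, 3), ((9, 6, 7), 7, 3, 0)]
  Tc := []
  Td := [((0, 3), (1, 0), 4), ((0, 3), (1, 8), 5), ((0, 3), (7, 4), 1), ((0, 3), (7, 9), 7), ((1,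
    4), (2, 3), 6), ((1, 4), (2, 8), 5), ((1, 4), (4, 5), 2), ((1, 4), (4, 7), 0), ((3, 0),
    (6, 8), 5), ((3, 0), (6, 9), 7), ((4, 1), (0, 1), 0), ((4, 1), (0, 3), 6)]
  G := [[0, 0, 0x88944c2484142844144443281883acc4454436812c888788c44981648854caa8cde, 0,
    0x8182188142841144113288c189ac98111c11ae112c1141161891166c81889de], [0, 0,
    0x2121226e42128c2124212122ae8c22328121225ec8d2, 0x1141116e4512892811111ae912c12c,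
    0x2128121116ec1811122ae212c12121a212266c1d2], [0, 0,
    0xc8c12484cc128444a44548c618882acc444264ca1c8868898c44a82c474c4a88a38cde, 0,
    0x18121181289141281812851218818a1214fc1121811a11cf121c112181c11a116dc8de], [0,
    0xccc14cca12c1ccc1cc61a41c, 0x22622c3482222c384222e1422a28cd422cc62cc8a28c23,
    0x11c11a681c116ac121, 0x1211c34811622c3812212212c3c28289d11a21162c123]]

noncomputable def n3177 : Ent := ⟨e3177, noF, [], [], []⟩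

def c3177 : PLift (Cov.check n3177.C.D v3177 = true) := ⟨by decide +kernel⟩

def b3177 : PLift (entF (fidx ts) 400 3177 n3177 = true) := ⟨by decide +kernel⟩

theorem g3177 : GoodF (fidx ts) 400 3177 := GoodF.ofV v3177 n3177 c3177.down b3177.down

/-- 4669444:2440/2 -/
noncomputable def e3178 : SCfg where
  D := {
    a := 7
    L := 10
    kp := 7
    inn := [(0, 1), (0, 3), (1, 0), (1, 2), (1, 3), (2, 1), (2, 3), (2, 6), (3, 0), (3, 1), (3, 2), (3,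
      4), (3, 5), (4, 3), (5, 3), (6, 2)]
    mix := [(0, 0), (0, 1), (1, 0), (1, 2), (1, 3), (2, 2), (2, 4), (2, 5), (3, 1), (3, 4), (3, 6), (3,
      7), (4, 1), (4, 6), (4, 8), (5, 6), (5, 7), (5, 9), (6, 2), (6, 5), (6, 9)]
    cl := [2, 0, 1, 6, 1, 4, 3, 0, 7, 5]
    chq := [(0, 3), (0, 6), (3, 0), (6, 0)]
    rng := [(0, 1), (0, 3), (1, 0), (1, 8), (2, 3), (2, 9), (3, 0), (3, 2), (4, 5), (4, 7), (5, 4), (5,
      9), (6, 8), (6, 9), (7, 4), (7, 9), (8, 1), (8, 6), (9, 2), (9, 5), (9, 6), (9, 7)]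
    lev := [] }
  links := [[1, 7, 8, 3], [7, 0, 3, 2, 9, 10], [9, 1, 3, 11, 12, 6], [11, 2, 1, 0, 8, 4, 13, 5, 14], [13,
    3, 8, 15], [14, 3, 13, 16], [9, 2, 12, 16]]
  P := {
    a := 7
    N := 17
    nb := [394, 1677, 6730, 26935, 41224, 90120, 70148, 1283, 32921, 66630, 642, 20492, 67652, 98360,
      67624, 8464, 29280]
    tri := [(0, 1, 3), (0, 1, 7), (0, 3, 8), (0, 7, 8), (1, 2, 3), (1, 2, 9), (1, 7, 10), (1, 9, 10),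
      (2, 3, 11), (2, 6, 9), (2, 6, 12), (2, 11, 12), (3, 4, 8), (3, 4, 13), (3, 5, 13), (3, 5,
      14), (3, 11, 14), (4, 8, 15), (4, 13, 15), (5, 13, 16), (5, 14, 16), (6, 9, 16), (6, 12,
      16)]
    fin := [0, 1, 2, 1, 1, 1, 6, 0, 1, 2, 10, 2, 12, 13, 1, 15, 6]
    chd := [(1, 10), (1, 13)]
    steps := [(0, 7), (1, 3), (1, 4), (1, 5), (1, 8), (1, 14), (2, 11), (2, 9), (6, 16)] }
  rep := [1, 2, 0, 13, 12, 6, 10, 15]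

noncomputable def v3178 : Cov.CovD where
  P := 3
  N := 5
  pl := [0, 5, 8, 9]
  lev := [⟨[], [], [], [2], [(1, 0, [3, 6])]⟩,
    ⟨[], [(0, 0), (0, 1), (0, 6)], [(1, 6)], [2], [(2, 1, []), (3, 6, [0])]⟩,
    ⟨[(0, 1)], [(1, 1), (1, 6)], [(1, 1)], [4], [(2, 1, []), (4, 1, [])]⟩,
    ⟨[(0, 1), (0, 2), (1, 2)], [(0, 0), (0, 1), (0, 3), (1, 0), (1, 1), (1, 3), (1, 6), (2,
      0), (2, 1), (2, 3)], [(0, 0), (0, 1), (0, 3), (1, 3)], [], [(1, 0, [3, 6]), (4, 1, []),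
      (6, 3, [0]), (7, 0, [3, 6])]⟩,
    ⟨[(0, 3), (1, 3), (2, 3)], [(0, 0), (3, 0), (3, 1), (3, 3)], [(0, 3)], [7], [(1, 0, [3,
      6]), (6, 3, [0])]⟩,
    ⟨[(0, 3), (1, 3), (2, 3), (3, 4)], [(3, 0), (3, 1), (3, 3), (4, 3)], [(0, 3)], [5],
      [(6, 3, [0]), (7, 0, [3, 6])]⟩,
    ⟨[(1, 2), (2, 3)], [(1, 1), (2, 1)], [], [4, 5], [(2, 1, [])]⟩]
  Ta := [((1, 0), 0, 2), ((1, 8), 0, 7), ((2, 3), 1, 6), ((2, 9), 1, 5), ((4, 5), 1, 4), ((4, 7),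
    1, 0), ((7, 4), 0, 1), ((7, 9), 0, 5)]
  Tb := [((0, 1, 3), 2, 0, 6), ((1, 0, 8), 0, 2, 7), ((2, 3, 9), 1, 6, 5), ((3, 0, 2), 6, 2, 1),
    ((4, 5, 7), 1, 4, 0), ((5, 4, 9), 4, 1, 5), ((6, 8, 9), 3, 7, 5), ((7, 4, 9), 0, 1, 5),
    ((8, 1, 6), 7, 0, 3), ((9, 2, 5), 5, 1, 4), ((9, 2, 6), 5, 1, 3), ((9, 2, 7), 5, 1, 0),
    ((9, 5, 6), 5, 4, 3), ((9, 5, 7), 5, 4, 0), ((9, 6, 7), 5, 3, 0)]
  Tc := [(0, 3, 6)]
  Td := [((0, 3), (1, 0), 2), ((0, 3), (1, 8), 7), ((0, 3), (7, 4), 1), ((0, 3), (7, 9), 5), ((0,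
    6), (1, 0), 2), ((0, 6), (1, 8), 7), ((0, 6), (7, 4), 1), ((0, 6), (7, 9), 5), ((3, 0),
    (6, 8), 7), ((3, 0), (6, 9), 5), ((6, 0), (3, 0), 2), ((6, 0), (3, 2), 1)]
  G := [[0, 0,
    0x81c16c181ca118254151641c1ca1111c114a9c414141e48881a4112111111ecd41c1a4818191e81124dc6,
    0x585819b51e8198651d1611913a149415cec1112881c,
    0x11d1156e811d8641594361891a114ec11128d188c1a], [0, 0, 0xc1c26411126492c1c2a81112a852c,
    0xc14422113422344d122112213c3134c32e82122a8d1c, 0x122113116c1222213223226c31882188d1a],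
    [0, 0, 0, 0x121441141165d289a38888c9e1218144eb44445ac1c,
    0x113181c81a586bc156445298f1131c881441cd12], [0, 0x8ac182a1644128144ee1ec18, 0,
    0x32868e54322e6322a1cc12218228891c, 0x521121214c7c1222222c7483221881a]]

noncomputable def n3178 : Ent := ⟨e3178, noF, [], [], []⟩

def c3178 : PLift (Cov.check n3178.C.D v3178 = true) := ⟨by decide +kernel⟩

def b3178 : PLift (entF (fidx ts) 400 3178 n3178 = true) := ⟨by decide +kernel⟩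

theorem g3178 : GoodF (fidx ts) 400 3178 := GoodF.ofV v3178 n3178 c3178.down b3178.down

/-- 4669444:2440 -/
noncomputable def e3179 : SCfg where
  D := {
    a := 7
    L := 11
    kp := 8
    inn := [(0, 1), (0, 3), (1, 0), (1, 2), (1, 3), (2, 1), (2, 3), (2, 6), (3, 0), (3, 1), (3, 2), (3,
      4), (3, 5), (4, 3), (5, 3), (6, 2)]
    mix := [(0, 0), (0, 1), (1, 0), (1, 2), (1, 3), (2, 2), (2, 4), (2, 5), (3, 1), (3, 4), (3, 6), (3,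
      7), (4, 1), (4, 6), (4, 8), (5, 6), (5, 7), (5, 9), (6, 2), (6, 5), (6, 10)]
    cl := [3, 0, 1, 5, 1, 4, 2, 0, 6, 7, 8]
    chq := [(0, 2), (0, 5), (2, 0), (5, 0)]
    rng := [(0, 1), (0, 3), (1, 0), (1, 8), (2, 3), (2, 10), (3, 0), (3, 2), (4, 5), (4, 7), (5, 4),
      (5, 10), (6, 8), (6, 9), (7, 4), (7, 9), (8, 1), (8, 6), (9, 6), (9, 7), (10, 2), (10, 5)]
    lev := [] }
  links := [[1, 7, 8, 3], [7, 0, 3, 2, 9, 10], [9, 1, 3, 11, 12, 6], [11, 2, 1, 0, 8, 4, 13, 5, 14], [13,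
    3, 8, 15], [14, 3, 13, 16], [9, 2, 12, 17]]
  P := {
    a := 7
    N := 18
    nb := [394, 1677, 6730, 26935, 41224, 90120, 135684, 1283, 32921, 132166, 642, 20492, 133188,
      98360, 67624, 8464, 24608, 4672]
    tri := [(0, 1, 3), (0, 1, 7), (0, 3, 8), (0, 7, 8), (1, 2, 3), (1, 2, 9), (1, 7, 10), (1, 9, 10),
      (2, 3, 11), (2, 6, 9), (2, 6, 12), (2, 11, 12), (3, 4, 8), (3, 4, 13), (3, 5, 13), (3, 5,
      14), (3, 11, 14), (4, 8, 15), (4, 13, 15), (5, 13, 16), (5, 14, 16), (6, 9, 17), (6, 12,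
      17)]
    fin := [0, 1, 2, 1, 1, 1, 2, 0, 1, 2, 10, 2, 12, 13, 1, 15, 16, 17]
    chd := [(1, 10), (1, 13)]
    steps := [(0, 7), (1, 3), (1, 4), (1, 5), (1, 8), (1, 14), (2, 6), (2, 11), (2, 9)] }
  rep := [1, 2, 13, 0, 12, 10, 15, 16, 17]

noncomputable def v3179 : Cov.CovD where
  P := 3
  N := 6
  pl := [0, 5, 8, 9, 10]
  lev := [⟨[], [], [], [3], [(1, 0, [2, 5])]⟩,
    ⟨[], [(0, 0), (0, 1), (0, 5)], [(1, 5)], [3], [(2, 1, []), (3, 5, [0])]⟩,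
    ⟨[(0, 1)], [(1, 1), (1, 5)], [(1, 1)], [4], [(2, 1, []), (4, 1, [])]⟩,
    ⟨[(0, 1), (0, 2), (1, 2)], [(0, 0), (0, 1), (0, 2), (1, 0), (1, 1), (1, 2), (1, 5), (2,
      0), (2, 1), (2, 2)], [(0, 0), (0, 1), (0, 2), (1, 2)], [], [(1, 0, [2, 5]), (4, 1, []),
      (6, 2, [0]), (7, 0, [2, 5])]⟩,
    ⟨[(0, 3), (1, 3), (2, 3)], [(0, 0), (3, 0), (3, 1), (3, 2)], [(0, 2)], [6], [(1, 0, [2,
      5]), (6, 2, [0])]⟩,
    ⟨[(0, 3), (1, 3), (2, 3), (3, 4)], [(3, 0), (3, 1), (3, 2), (4, 2)], [(0, 2)], [7],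
      [(6, 2, [0]), (7, 0, [2, 5])]⟩,
    ⟨[(1, 2), (2, 3)], [(1, 1), (2, 1)], [], [4, 8], [(2, 1, [])]⟩]
  Ta := [((1, 0), 0, 3), ((1, 8), 0, 6), ((2, 3), 1, 5), ((2, 10), 1, 8), ((4, 5), 1, 4), ((4,
    7), 1, 0), ((7, 4), 0, 1), ((7, 9), 0, 7)]
  Tb := [((0, 1, 3), 3, 0, 5), ((1, 0, 8), 0, 3, 6), ((2, 3, 10), 1, 5, 8), ((3, 0, 2), 5, 3, 1),
    ((4, 5, 7), 1, 4, 0), ((5, 4, 10), 4, 1, 8), ((6, 8, 9), 2, 6, 7), ((7, 4, 9), 0, 1, 7),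
    ((8, 1, 6), 6, 0, 2), ((9, 6, 7), 7, 2, 0), ((10, 2, 5), 8, 1, 4)]
  Tc := [(0, 2, 5)]
  Td := [((0, 2), (1, 0), 3), ((0, 2), (1, 8), 6), ((0, 2), (7, 4), 1), ((0, 2), (7, 9), 7), ((0,
    5), (1, 0), 3), ((0, 5), (1, 8), 6), ((0, 5), (7, 4), 1), ((0, 5), (7, 9), 7), ((2, 0),
    (6, 8), 6), ((2, 0), (6, 9), 7), ((5, 0), (3, 0), 3), ((5, 0), (3, 2), 1)]
  G := [[0, 0, 0x99a99aa4525458e8c199c99ac4545852e8c16,
    0x8184d191c45c1848148cc4184c148c414851d1c89c9191c45151c8c1e,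
    0xc1824812849181928dc128912918a5412c18ad12518a991828d112851d1a88128d1e], [0, 0,
    0x62a44aa62891723468e841d2d4a4d4d2c492d, 0xc1445151c49b18483d184821482151c8c3c,
    0xc12891913852c18891885212138d151a82188d33188a18851e], [0, 0,
    0x949892e455655668c199c99aa4525854e8c1a, 0x99c141899c181ccc184599c1455c18c1e,
    0x989128218911219891a5da18c112185da188218d1e], [0, 0xeec1481eec1821eec1841e,
    0x62632668a5625ac8c13cacc6a462622c68916, 0x341981c2ac18c1a6c14341381cc16,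
    0x22318b5a182818d122318d5a182818d16]]

noncomputable def n3179 : Ent := ⟨e3179, noF, [], [], [(15, 17, [6903326391201334775872065844685381424292761054348340378595029942702081, 0]), (16, 17, [6903326391201334775872065844685381424292761054348340378595029942706177, 0])]⟩

def c3179 : PLift (Cov.check n3179.C.D v3179 = true) := ⟨by decide +kernel⟩

def b3179 : PLift (entF (fidx ts) 400 3179 n3179 = true) := ⟨by decide +kernel⟩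

theorem g3179 : GoodF (fidx ts) 400 3179 := GoodF.ofV v3179 n3179 c3179.down b3179.down

/-- 4669544:2441/1 -/
noncomputable def e3180 : SCfg where
  D := {
    a := 7
    L := 10
    kp := 8
    inn := [(0, 1), (0, 3), (1, 0), (1, 2), (1, 3), (2, 1), (2, 3), (2, 4), (3, 0), (3, 1), (3, 2), (3,
      4), (3, 5), (4, 2), (4, 3), (4, 6), (5, 3), (6, 4)]
    mix := [(0, 0), (0, 1), (1, 0), (1, 2), (1, 3), (2, 2), (2, 4), (2, 5), (3, 1), (3, 6), (3, 7), (3,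
      8), (4, 4), (4, 8), (5, 7), (5, 8), (5, 9), (6, 4), (6, 8), (6, 9)]
    cl := [2, 0, 3, 6, 1, 7, 8, 4, 0, 5]
    chq := [(0, 1), (0, 3), (0, 4), (0, 6), (0, 7), (1, 0), (3, 0), (4, 0), (6, 0), (7, 0)]
    rng := [(0, 1), (0, 3), (1, 0), (1, 6), (2, 3), (2, 5), (3, 0), (3, 2), (4, 5), (4, 9), (5, 2), (5,
      4), (6, 1), (6, 7), (7, 6), (7, 9), (8, 9), (9, 4), (9, 7), (9, 8)]
    lev := [] }
  links := [[1, 7, 8, 3], [7, 0, 3, 2, 9, 10], [9, 1, 3, 4, 11, 12], [4, 2, 1, 0, 8, 13, 14, 5, 15], [11,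
    2, 3, 15, 6], [15, 3, 14, 16], [11, 4, 15, 16]]
  P := {
    a := 7
    N := 17
    nb := [394, 1677, 6682, 57655, 34892, 114696, 100368, 1283, 8329, 5126, 642, 69716, 2564, 16648,
      73768, 65656, 51296]
    tri := [(0, 1, 3), (0, 1, 7), (0, 3, 8), (0, 7, 8), (1, 2, 3), (1, 2, 9), (1, 7, 10), (1, 9, 10),
      (2, 3, 4), (2, 4, 11), (2, 9, 12), (2, 11, 12), (3, 4, 15), (3, 5, 14), (3, 5, 15), (3, 8,
      13), (3, 13, 14), (4, 6, 11), (4, 6, 15), (5, 14, 16), (5, 15, 16), (6, 11, 16), (6, 15,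
      16)]
    fin := [0, 1, 1, 1, 1, 1, 1, 0, 1, 9, 10, 11, 12, 13, 14, 1, 16]
    chd := [(1, 9), (1, 10), (1, 11), (1, 12), (1, 14)]
    steps := [(0, 7), (1, 2), (1, 3), (1, 4), (1, 5), (1, 8), (1, 15), (1, 6)] }
  rep := [1, 11, 0, 9, 14, 16, 10, 12, 13]

noncomputable def v3180 : Cov.CovD where
  P := 3
  N := 6
  pl := [0, 6, 9]
  lev := [⟨[], [], [], [2], [(1, 0, [1, 3, 4, 6, 7])]⟩,
    ⟨[], [(0, 0), (0, 3), (0, 6)], [(3, 6)], [2], [(2, 3, [0]), (3, 6, [0])]⟩,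
    ⟨[(0, 1)], [(1, 1), (1, 3), (1, 6), (1, 7)], [(1, 3), (1, 7), (3, 7)], [], [(2, 3,
      [0]), (4, 1, [0]), (5, 7, [0])]⟩,
    ⟨[(0, 1), (0, 2), (1, 2)], [(0, 0), (0, 4), (1, 0), (1, 3), (1, 4), (1, 6), (2, 0), (2,
      1), (2, 3), (2, 4), (2, 7)], [(0, 0), (0, 4)], [8], [(1, 0, [1, 3, 4, 6, 7]), (7, 4,
      [0]), (8, 0, [1, 3, 4, 6, 7])]⟩,
    ⟨[(0, 3), (1, 2), (1, 3), (2, 3)], [(2, 0), (2, 1), (2, 3), (2, 7), (3, 0), (3, 1), (3,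
      4)], [(0, 1)], [], [(4, 1, [0]), (8, 0, [1, 3, 4, 6, 7])]⟩,
    ⟨[(0, 3), (1, 3), (2, 3), (3, 4)], [(3, 0), (3, 4), (4, 0)], [(0, 4)], [5], [(7, 4,
      [0]), (8, 0, [1, 3, 4, 6, 7])]⟩,
    ⟨[(2, 4), (3, 4)], [(2, 1), (3, 0), (4, 0), (4, 1), (5, 0)], [(0, 1)], [5], [(4, 1,
      [0]), (8, 0, [1, 3, 4, 6, 7])]⟩]
  Ta := [((1, 0), 0, 2), ((1, 6), 0, 8), ((8, 9), 0, 5)]
  Tb := [((0, 1, 3), 2, 0, 6), ((1, 0, 6), 0, 2, 8), ((2, 3, 5), 3, 6, 7), ((3, 0, 2), 6, 2, 3),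
    ((4, 5, 9), 1, 7, 5), ((5, 2, 4), 7, 3, 1), ((6, 1, 7), 8, 0, 4), ((7, 6, 9), 4, 8, 5),
    ((9, 4, 7), 5, 1, 4), ((9, 4, 8), 5, 1, 0), ((9, 7, 8), 5, 4, 0)]
  Tc := [(0, 1, 3), (0, 1, 4), (0, 1, 6), (0, 1, 7), (0, 3, 4), (0, 3, 6), (0, 3, 7), (0, 4, 6),
    (0, 4, 7), (0, 6, 7)]
  Td := [((0, 1), (1, 0), 2), ((0, 1), (1, 6), 8), ((0, 1), (8, 9), 5), ((0, 3), (1, 0), 2), ((0,
    3), (1, 6), 8), ((0, 3), (8, 9), 5), ((0, 4), (1, 0), 2), ((0, 4), (1, 6), 8), ((0, 4),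
    (8, 9), 5), ((0, 6), (1, 0), 2), ((0, 6), (1, 6), 8), ((0, 6), (8, 9), 5), ((0, 7), (1,
    0), 2), ((0, 7), (1, 6), 8), ((0, 7), (8, 9), 5), ((1, 0), (4, 5), 7), ((1, 0), (4, 9),
    5), ((3, 0), (2, 3), 6), ((3, 0), (2, 5), 7), ((4, 0), (7, 6), 8), ((4, 0), (7, 9), 5),
    ((6, 0), (3, 0), 2), ((6, 0), (3, 2), 3), ((7, 0), (5, 2), 3), ((7, 0), (5, 4), 1)]
  G := [[0, 0x6186186a14a18c12ea14a14618ee1c14881c, 0xc18414c14c18c14e1c14c14a1c14c18c14e1ec,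
    0xc1841c18c18645c14c18c18e1c14c18a1c14114b81438e4118c8841e4c18481e8eddc,
    0xc14c18c14e11481cc14611874c18c18e418744111ac1834ed3c14818a], [0,
    0xa12441614c12614ea14c12ac14a18c14ee1c, 0,
    0xc14c18881e8e1814451438611874c18c18e848e888ce46d5c14c18c18e1c148844e4899c,
    0xc14c18c18e18144514386848e888ce8693c1484181cc18c18e844e48d1a]]

noncomputable def n3180 : Ent := ⟨e3180, noF, [], [], []⟩

def c3180 : PLift (Cov.check n3180.C.D v3180 = true) := ⟨by decide +kernel⟩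

def b3180 : PLift (entF (fidx ts) 400 3180 n3180 = true) := ⟨by decide +kernel⟩

theorem g3180 : GoodF (fidx ts) 400 3180 := GoodF.ofV v3180 n3180 c3180.down b3180.down

/-- 4669544:2441 -/
noncomputable def e3181 : SCfg where
  D := {
    a := 7
    L := 11
    kp := 9
    inn := [(0, 1), (0, 3), (1, 0), (1, 2), (1, 3), (2, 1), (2, 3), (2, 4), (3, 0), (3, 1), (3, 2), (3,
      4), (3, 5), (4, 2), (4, 3), (4, 6), (5, 3), (6, 4)]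
    mix := [(0, 0), (0, 1), (1, 0), (1, 2), (1, 3), (2, 2), (2, 4), (2, 5), (3, 1), (3, 6), (3, 7), (3,
      8), (4, 4), (4, 8), (5, 7), (5, 8), (5, 9), (6, 4), (6, 8), (6, 10)]
    cl := [2, 0, 3, 5, 1, 6, 7, 4, 0, 8, 9]
    chq := [(0, 1), (0, 3), (0, 4), (0, 5), (0, 6), (1, 0), (3, 0), (4, 0), (5, 0), (6, 0)]
    rng := [(0, 1), (0, 3), (1, 0), (1, 6), (2, 3), (2, 5), (3, 0), (3, 2), (4, 5), (4, 10), (5, 2),
      (5, 4), (6, 1), (6, 7), (7, 6), (7, 9), (8, 9), (8, 10), (9, 7), (9, 8), (10, 4), (10, 8)]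
    lev := [] }
  links := [[1, 7, 8, 3], [7, 0, 3, 2, 9, 10], [9, 1, 3, 4, 11, 12], [4, 2, 1, 0, 8, 13, 14, 5, 15], [11,
    2, 3, 15, 6], [15, 3, 14, 16], [11, 4, 15, 17]]
  P := {
    a := 7
    N := 18
    nb := [394, 1677, 6682, 57655, 34892, 114696, 165904, 1283, 8329, 5126, 642, 135252, 2564, 16648,
      73768, 196728, 49184, 34880]
    tri := [(0, 1, 3), (0, 1, 7), (0, 3, 8), (0, 7, 8), (1, 2, 3), (1, 2, 9), (1, 7, 10), (1, 9, 10),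
      (2, 3, 4), (2, 4, 11), (2, 9, 12), (2, 11, 12), (3, 4, 15), (3, 5, 14), (3, 5, 15), (3, 8,
      13), (3, 13, 14), (4, 6, 11), (4, 6, 15), (5, 14, 16), (5, 15, 16), (6, 11, 17), (6, 15,
      17)]
    fin := [0, 1, 1, 1, 1, 1, 1, 0, 1, 9, 10, 11, 12, 13, 14, 1, 16, 17]
    chd := [(1, 9), (1, 10), (1, 11), (1, 12), (1, 14)]
    steps := [(0, 7), (1, 2), (1, 3), (1, 4), (1, 5), (1, 6), (1, 8), (1, 15)] }
  rep := [1, 11, 0, 9, 14, 10, 12, 13, 16, 17]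

noncomputable def v3181 : Cov.CovD where
  P := 3
  N := 7
  pl := [0, 6, 9, 10]
  lev := [⟨[], [], [], [2], [(1, 0, [1, 3, 4, 5, 6])]⟩,
    ⟨[], [(0, 0), (0, 3), (0, 5)], [(3, 5)], [2], [(2, 3, [0]), (3, 5, [0])]⟩,
    ⟨[(0, 1)], [(1, 1), (1, 3), (1, 5), (1, 6)], [(1, 3), (1, 6), (3, 6)], [], [(2, 3,
      [0]), (4, 1, [0]), (5, 6, [0])]⟩,
    ⟨[(0, 1), (0, 2), (1, 2)], [(0, 0), (0, 4), (1, 0), (1, 3), (1, 4), (1, 5), (2, 0), (2,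
      1), (2, 3), (2, 4), (2, 6)], [(0, 0), (0, 4)], [7], [(1, 0, [1, 3, 4, 5, 6]), (7, 4,
      [0]), (8, 0, [1, 3, 4, 5, 6])]⟩,
    ⟨[(0, 3), (1, 2), (1, 3), (2, 3)], [(2, 0), (2, 1), (2, 3), (2, 6), (3, 0), (3, 1), (3,
      4)], [(0, 1)], [], [(4, 1, [0]), (8, 0, [1, 3, 4, 5, 6])]⟩,
    ⟨[(0, 3), (1, 3), (2, 3), (3, 4)], [(3, 0), (3, 4), (4, 0)], [(0, 4)], [8], [(7, 4,
      [0]), (8, 0, [1, 3, 4, 5, 6])]⟩,
    ⟨[(2, 4), (3, 4)], [(2, 1), (3, 0), (4, 0), (4, 1), (5, 0)], [(0, 1)], [9], [(4, 1,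
      [0]), (8, 0, [1, 3, 4, 5, 6])]⟩]
  Ta := [((1, 0), 0, 2), ((1, 6), 0, 7), ((8, 9), 0, 8), ((8, 10), 0, 9)]
  Tb := [((0, 1, 3), 2, 0, 5), ((1, 0, 6), 0, 2, 7), ((2, 3, 5), 3, 5, 6), ((3, 0, 2), 5, 2, 3),
    ((4, 5, 10), 1, 6, 9), ((5, 2, 4), 6, 3, 1), ((6, 1, 7), 7, 0, 4), ((7, 6, 9), 4, 7, 8),
    ((8, 9, 10), 0, 8, 9), ((9, 7, 8), 8, 4, 0), ((10, 4, 8), 9, 1, 0)]
  Tc := [(0, 1, 3), (0, 1, 4), (0, 1, 5), (0, 1, 6), (0, 3, 4), (0, 3, 5), (0, 3, 6), (0, 4, 5),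
    (0, 4, 6), (0, 5, 6)]
  Td := [((0, 1), (1, 0), 2), ((0, 1), (1, 6), 7), ((0, 1), (8, 9), 8), ((0, 1), (8, 10), 9),
    ((0, 3), (1, 0), 2), ((0, 3), (1, 6), 7), ((0, 3), (8, 9), 8), ((0, 3), (8, 10), 9), ((0,
    4), (1, 0), 2), ((0, 4), (1, 6), 7), ((0, 4), (8, 9), 8), ((0, 4), (8, 10), 9), ((0, 5),
    (1, 0), 2), ((0, 5), (1, 6), 7), ((0, 5), (8, 9), 8), ((0, 5), (8, 10), 9), ((0, 6), (1,
    0), 2), ((0, 6), (1, 6), 7), ((0, 6), (8, 9), 8), ((0, 6), (8, 10), 9), ((1, 0), (4, 5),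
    6), ((1, 0), (4, 10), 9), ((3, 0), (2, 3), 5), ((3, 0), (2, 5), 6), ((4, 0), (7, 6), 7),
    ((4, 0), (7, 9), 8), ((5, 0), (3, 0), 2), ((5, 0), (3, 2), 3), ((6, 0), (5, 2), 3), ((6,
    0), (5, 4), 1)]
  G := [[0, 0x612618a14e41614612c12e618c12a18ea1c, 0xc14c18c14e1c14c18c18e1ac14c18c14e146,
    0xc14c18c14e14181cc146814c18c18ec14111e8111e4ed5c14c18c14e1c1484188c9c,
    0xc14c18c18e1c18c186c14111e8111e4e53c144181cc14e4181c8c1a], [0,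
    0xa14a146612a12618ec1c148a14c12c14ea1c, 0,
    0x8144c184ccce84d1c144184181ce4181cc18accce4ccce8ad1c14c18c14e1111e4c18c18e1cd,
    0xc144181cc14e1ccce8213c144181c4181ce4181cc18c18eccce4ccce8cd1a]]

noncomputable def n3181 : Ent := ⟨e3181, noF, [], [], [(16, 17, [6903326391201334775872065844685381424292761054348340378595029942714369, 0])]⟩

def c3181 : PLift (Cov.check n3181.C.D v3181 = true) := ⟨by decide +kernel⟩

def b3181 : PLift (entF (fidx ts) 400 3181 n3181 = true) := ⟨by decide +kernel⟩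

theorem g3181 : GoodF (fidx ts) 400 3181 := GoodF.ofV v3181 n3181 c3181.down b3181.down

/-- 4874457:2442/1 -/
noncomputable def e3182 : SCfg where
  D := {
    a := 7
    L := 10
    kp := 8
    inn := [(0, 1), (0, 6), (1, 0), (1, 2), (1, 4), (1, 5), (1, 6), (2, 1), (2, 3), (2, 4), (2, 5), (3,
      2), (4, 1), (4, 2), (5, 1), (5, 2), (5, 6), (6, 0), (6, 1), (6, 5)]
    mix := [(0, 0), (0, 1), (1, 0), (1, 2), (1, 3), (2, 4), (2, 5), (2, 6), (3, 4), (3, 5), (3, 7), (4,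
      2), (4, 6), (5, 4), (5, 8), (6, 1), (6, 7), (6, 8), (6, 9)]
    cl := [4, 0, 3, 7, 1, 6, 5, 2, 0, 8]
    chq := [(1, 3), (1, 4), (1, 7), (2, 3), (2, 5), (3, 1), (3, 2), (4, 1), (5, 2), (7, 1)]
    rng := [(0, 1), (0, 3), (1, 0), (1, 9), (2, 3), (2, 6), (3, 0), (3, 2), (4, 7), (4, 8), (5, 6), (5,
      7), (6, 2), (6, 5), (7, 4), (7, 5), (7, 8), (7, 9), (8, 4), (8, 7), (9, 1), (9, 7)]
    lev := [] }
  links := [[1, 7, 8, 6], [7, 0, 6, 5, 2, 4, 9, 10], [4, 1, 5, 11, 3, 12, 13], [12, 2, 11, 14], [9, 1, 2,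
    13], [11, 2, 1, 6, 15], [15, 5, 1, 0, 8, 16, 14]]
  P := {
    a := 7
    N := 17
    nb := [450, 1781, 14394, 22532, 8710, 34886, 114979, 1283, 65729, 9234, 642, 49196, 24588, 4628,
      104520, 18528, 16704]
    tri := [(0, 1, 6), (0, 1, 7), (0, 6, 8), (0, 7, 8), (1, 2, 4), (1, 2, 5), (1, 4, 9), (1, 5, 6), (1,
      7, 10), (1, 9, 10), (2, 3, 11), (2, 3, 12), (2, 4, 13), (2, 5, 11), (2, 12, 13), (3, 11,
      14), (3, 12, 14), (4, 9, 13), (5, 6, 15), (5, 11, 15), (6, 8, 16), (6, 14, 15), (6, 14, 16)]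
    fin := [0, 1, 2, 2, 2, 1, 6, 0, 6, 9, 10, 1, 12, 13, 2, 6, 16]
    chd := [(0, 1), (9, 1), (9, 2), (10, 1), (13, 2)]
    steps := [(0, 7), (1, 5), (1, 11), (2, 3), (2, 4), (2, 14), (6, 8), (6, 15)] }
  rep := [6, 1, 2, 9, 0, 13, 12, 10, 16]

noncomputable def v3182 : Cov.CovD where
  P := 3
  N := 6
  pl := [5, 9]
  lev := [⟨[], [], [(0, 4)], [], [(0, 4, [1]), (1, 0, [])]⟩,
    ⟨[], [(0, 0), (0, 3), (0, 4), (0, 7)], [(3, 4), (3, 7), (4, 7)], [], [(0, 4, [1]), (2,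
      3, [1, 2]), (3, 7, [1])]⟩,
    ⟨[(0, 1)], [(1, 1), (1, 3), (1, 4), (1, 5), (1, 7)], [(1, 5)], [6], [(4, 1, [3, 4, 7]),
      (6, 5, [2])]⟩,
    ⟨[(1, 2)], [(2, 1), (2, 2), (2, 5)], [(1, 2)], [6], [(4, 1, [3, 4, 7]), (7, 2, [3,
      5])]⟩,
    ⟨[(0, 1), (1, 2), (2, 3)], [(1, 3), (1, 4), (1, 5), (1, 7), (2, 1), (2, 3), (2, 5)],
      [(3, 5)], [], [(2, 3, [1, 2]), (6, 5, [2])]⟩,
    ⟨[(0, 1), (1, 2), (1, 4), (2, 3), (2, 4)], [(1, 0), (1, 1), (1, 3), (1, 4), (1, 7), (2,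
      0), (2, 1), (2, 5), (3, 1)], [(0, 1)], [], [(4, 1, [3, 4, 7]), (8, 0, [])]⟩,
    ⟨[(0, 1), (0, 5), (1, 2), (1, 4), (1, 5), (2, 5)], [(0, 0), (0, 2), (0, 4), (1, 0), (1,
      2), (1, 3), (1, 4), (1, 7), (3, 2), (5, 0), (5, 1), (5, 2)], [(0, 0), (0, 2)], [8],
      [(1, 0, []), (7, 2, [3, 5]), (8, 0, [])]⟩]
  Ta := [((1, 0), 0, 4), ((1, 9), 0, 8), ((8, 4), 0, 1), ((8, 7), 0, 2)]
  Tb := [((0, 1, 3), 4, 0, 7), ((1, 0, 9), 0, 4, 8), ((2, 3, 6), 3, 7, 5), ((3, 0, 2), 7, 4, 3),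
    ((4, 7, 8), 1, 2, 0), ((5, 6, 7), 6, 5, 2), ((6, 2, 5), 5, 3, 6), ((7, 4, 5), 2, 1, 6),
    ((7, 4, 8), 2, 1, 0), ((7, 4, 9), 2, 1, 8), ((7, 5, 8), 2, 6, 0), ((7, 5, 9), 2, 6, 8),
    ((7, 8, 9), 2, 0, 8), ((8, 4, 7), 0, 1, 2), ((9, 1, 7), 8, 0, 2)]
  Tc := [(1, 3, 4), (1, 3, 7), (1, 4, 7), (2, 3, 5), (3, 1, 2)]
  Td := [((1, 3), (4, 7), 2), ((1, 3), (4, 8), 0), ((1, 4), (4, 7), 2), ((1, 4), (4, 8), 0), ((1,
    7), (4, 7), 2), ((1, 7), (4, 8), 0), ((2, 3), (7, 4), 1), ((2, 3), (7, 5), 6), ((2, 3),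
    (7, 8), 0), ((2, 3), (7, 9), 8), ((2, 5), (7, 4), 1), ((2, 5), (7, 5), 6), ((2, 5), (7,
    8), 0), ((2, 5), (7, 9), 8), ((3, 1), (2, 3), 7), ((3, 1), (2, 6), 5), ((3, 2), (2, 3),
    7), ((3, 2), (2, 6), 5), ((4, 1), (0, 1), 0), ((4, 1), (0, 3), 7), ((5, 2), (6, 2), 3),
    ((5, 2), (6, 5), 6), ((7, 1), (3, 0), 4), ((7, 1), (3, 2), 3)]
  G := [[0, 0, 0, 0xc128c12448c21d2c128c824c821d2c,
    0x214168214124427214828222841de148289441a1c94ac41da41284928486fa448a1a85a1a8c9a841d28481324282828a22828c1d24482822c5e],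
    [0, 0x84628c224c818461ce1c228c824c81c41ce16, 0xc41c41c121, 0xc428c824c421d21,
    0x244828228432842d12421284861244228412448e2428282828b22841da448a848548a8c9e841deb]]

noncomputable def n3182 : Ent := ⟨e3182, noF, [], [], []⟩

def c3182 : PLift (Cov.check n3182.C.D v3182 = true) := ⟨by decide +kernel⟩

def b3182 : PLift (entF (fidx ts) 400 3182 n3182 = true) := ⟨by decide +kernel⟩

theorem g3182 : GoodF (fidx ts) 400 3182 := GoodF.ofV v3182 n3182 c3182.down b3182.down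

/-- 4874457:2442 -/
noncomputable def e3183 : SCfg where
  D := {
    a := 7
    L := 11
    kp := 9
    inn := [(0, 1), (0, 6), (1, 0), (1, 2), (1, 4), (1, 5), (1, 6), (2, 1), (2, 3), (2, 4), (2, 5), (3,
      2), (4, 1), (4, 2), (5, 1), (5, 2), (5, 6), (6, 0), (6, 1), (6, 5)]
    mix := [(0, 0), (0, 1), (1, 0), (1, 2), (1, 3), (2, 4), (2, 5), (2, 6), (3, 4), (3, 5), (3, 7), (4,
      2), (4, 6), (5, 4), (5, 8), (6, 1), (6, 8), (6, 9), (6, 10)]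
    cl := [4, 0, 3, 6, 1, 2, 5, 7, 0, 8, 9]
    chq := [(1, 2), (1, 3), (1, 4), (1, 6), (2, 1), (2, 3), (3, 1), (3, 2), (4, 1), (6, 1)]
    rng := [(0, 1), (0, 3), (1, 0), (1, 9), (2, 3), (2, 6), (3, 0), (3, 2), (4, 7), (4, 8), (5, 6), (5,
      7), (6, 2), (6, 5), (7, 4), (7, 5), (8, 4), (8, 10), (9, 1), (9, 10), (10, 8), (10, 9)]
    lev := [] }
  links := [[1, 7, 8, 6], [7, 0, 6, 5, 2, 4, 9, 10], [4, 1, 5, 11, 3, 12, 13], [12, 2, 11, 14], [9, 1, 2,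
    13], [11, 2, 1, 6, 15], [15, 5, 1, 0, 8, 16, 17]]
  P := {
    a := 7
    N := 18
    nb := [450, 1781, 14394, 22532, 8710, 34886, 229667, 1283, 65729, 9234, 642, 49196, 24588, 4628,
      6152, 133216, 131392, 98368]
    tri := [(0, 1, 6), (0, 1, 7), (0, 6, 8), (0, 7, 8), (1, 2, 4), (1, 2, 5), (1, 4, 9), (1, 5, 6), (1,
      7, 10), (1, 9, 10), (2, 3, 11), (2, 3, 12), (2, 4, 13), (2, 5, 11), (2, 12, 13), (3, 11,
      14), (3, 12, 14), (4, 9, 13), (5, 6, 15), (5, 11, 15), (6, 8, 16), (6, 15, 17), (6, 16, 17)]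
    fin := [0, 1, 2, 1, 2, 1, 6, 0, 6, 9, 10, 1, 2, 13, 14, 6, 16, 17]
    chd := [(0, 1), (1, 2), (9, 1), (9, 2), (10, 1)]
    steps := [(0, 7), (1, 5), (1, 11), (1, 3), (2, 4), (2, 12), (6, 8), (6, 15)] }
  rep := [6, 1, 2, 9, 0, 13, 10, 14, 16, 17]

noncomputable def v3183 : Cov.CovD where
  P := 3
  N := 7
  pl := [6, 7, 9, 10]
  lev := [⟨[], [], [(0, 4)], [], [(0, 4, [1]), (1, 0, [])]⟩,
    ⟨[], [(0, 0), (0, 3), (0, 4), (0, 6)], [(3, 4), (3, 6), (4, 6)], [], [(0, 4, [1]), (2,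
      3, [1, 2]), (3, 6, [1])]⟩,
    ⟨[(0, 1)], [(1, 1), (1, 2), (1, 3), (1, 4), (1, 6)], [(1, 2)], [5], [(4, 1, [2, 3, 4,
      6]), (5, 2, [1, 3])]⟩,
    ⟨[(1, 2)], [(2, 1), (2, 2)], [(1, 2)], [7], [(4, 1, [2, 3, 4, 6]), (5, 2, [1, 3])]⟩,
    ⟨[(0, 1), (1, 2), (2, 3)], [(1, 3), (1, 4), (1, 6), (2, 1), (2, 2), (2, 3)], [], [5],
      [(2, 3, [1, 2])]⟩,
    ⟨[(0, 1), (1, 2), (1, 4), (2, 3), (2, 4)], [(1, 0), (1, 1), (1, 3), (1, 4), (1, 6), (2,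
      0), (2, 1), (2, 2), (3, 1)], [(0, 1)], [], [(4, 1, [2, 3, 4, 6]), (8, 0, [])]⟩,
    ⟨[(0, 1), (0, 5), (1, 2), (1, 4), (1, 5), (2, 5)], [(0, 0), (0, 4), (1, 0), (1, 3), (1,
      4), (1, 6), (5, 0), (5, 1)], [(0, 0)], [8, 9], [(1, 0, []), (8, 0, [])]⟩]
  Ta := [((1, 0), 0, 4), ((1, 9), 0, 8), ((8, 4), 0, 1), ((8, 10), 0, 9)]
  Tb := [((0, 1, 3), 4, 0, 6), ((1, 0, 9), 0, 4, 8), ((2, 3, 6), 3, 6, 5), ((3, 0, 2), 6, 4, 3),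
    ((4, 7, 8), 1, 7, 0), ((5, 6, 7), 2, 5, 7), ((6, 2, 5), 5, 3, 2), ((7, 4, 5), 7, 1, 2),
    ((8, 4, 10), 0, 1, 9), ((9, 1, 10), 8, 0, 9), ((10, 8, 9), 9, 0, 8)]
  Tc := [(1, 2, 3), (1, 2, 4), (1, 2, 6), (1, 3, 4), (1, 3, 6), (1, 4, 6), (2, 1, 3), (3, 1, 2)]
  Td := [((1, 2), (4, 7), 7), ((1, 2), (4, 8), 0), ((1, 3), (4, 7), 7), ((1, 3), (4, 8), 0), ((1,
    4), (4, 7), 7), ((1, 4), (4, 8), 0), ((1, 6), (4, 7), 7), ((1, 6), (4, 8), 0), ((2, 1),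
    (5, 6), 5), ((2, 1), (5, 7), 7), ((2, 3), (5, 6), 5), ((2, 3), (5, 7), 7), ((3, 1), (2,
    3), 6), ((3, 1), (2, 6), 5), ((3, 2), (2, 3), 6), ((3, 2), (2, 6), 5), ((4, 1), (0, 1),
    0), ((4, 1), (0, 3), 6), ((6, 1), (3, 0), 4), ((6, 1), (3, 2), 3)]
  G := [[0, 0,
    0x612212241e421224e4124e15c68816c1283c14ece24228212a1168c1613e1c124bce8e19e11cca4222412cf21228282212a46412e82e82ccde,
    0x21824489a528c162849241c4283cd2618a48521c86688469c8283e81cd2c,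
    0x2142449242462321428e44e1648168f9e44ace4de4499282224429fa122189282a8299e14245e1c9686888c8fe8c86996a848124268c29284295e],
    [0, 0xe21e42ce2268a1cc1e2168a1ce22e22cc1c,
    0x2422424222812c928122422c12412828122822ce41e4e468cdc68ce8e8de81cceb,
    0xc4224c4a248d684a849e81c8243cd21,
    0x24422422912842242291242224429282228429e44e4e4e4d9e4e8e8de8499eb]]

noncomputable def n3183 : Ent := ⟨e3183, noF, [], [], [(17, 14, [6903326468334360900303599070699561856668565975414084080169086037188609, 0])]⟩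

def c3183 : PLift (Cov.check n3183.C.D v3183 = true) := ⟨by decide +kernel⟩

def b3183 : PLift (entF (fidx ts) 400 3183 n3183 = true) := ⟨by decide +kernel⟩

theorem g3183 : GoodF (fidx ts) 400 3183 := GoodF.ofV v3183 n3183 c3183.down b3183.down

/-- 4874446:2446 -/
noncomputable def e3184 : SCfg where
  D := {
    a := 7
    L := 10
    kp := 8
    inn := [(0, 1), (1, 0), (1, 2), (1, 4), (1, 5), (1, 6), (2, 1), (2, 3), (2, 4), (2, 6), (3, 2), (3,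
      6), (4, 1), (4, 2), (5, 1), (6, 1), (6, 2), (6, 3)]
    mix := [(0, 0), (0, 1), (0, 2), (1, 0), (1, 2), (1, 3), (2, 4), (2, 5), (2, 6), (3, 6), (3, 7), (4,
      2), (4, 4), (5, 0), (5, 3), (5, 8), (6, 3), (6, 7), (6, 9)]
    cl := [1, 6, 0, 0, 2, 5, 3, 4, 7, 8]
    chq := [(0, 1), (0, 3), (0, 4), (0, 5), (1, 0), (3, 0), (4, 0), (5, 0)]
    rng := [(0, 1), (0, 8), (1, 0), (1, 2), (2, 1), (2, 4), (3, 8), (3, 9), (4, 2), (4, 5), (5, 4), (5,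
      6), (6, 5), (6, 7), (7, 6), (7, 9), (8, 0), (8, 3), (9, 3), (9, 7)]
    lev := [] }
  links := [[1, 7, 8, 9], [7, 0, 9, 4, 2, 6, 10, 5], [6, 1, 4, 11, 12, 13, 3], [6, 2, 13, 14], [11, 2, 1,
    9], [7, 1, 10, 15], [10, 1, 2, 3, 14, 16]]
  P := {
    a := 7
    N := 17
    nb := [898, 1781, 14426, 24644, 2566, 33922, 82958, 33059, 641, 2323, 98402, 4628, 10244, 20492,
      73800, 1184, 17472]
    tri := [(0, 1, 7), (0, 1, 9), (0, 7, 8), (0, 8, 9), (1, 2, 4), (1, 2, 6), (1, 4, 9), (1, 5, 7), (1,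
      5, 10), (1, 6, 10), (2, 3, 6), (2, 3, 13), (2, 4, 11), (2, 11, 12), (2, 12, 13), (3, 6, 14),
      (3, 13, 14), (4, 9, 11), (5, 7, 15), (5, 10, 15), (6, 10, 16), (6, 14, 16)]
    fin := [0, 0, 2, 2, 2, 0, 2, 0, 8, 2, 2, 11, 12, 13, 14, 15, 16]
    chd := [(0, 2), (2, 12), (2, 13), (2, 14)]
    steps := [(0, 1), (0, 5), (0, 7), (2, 3), (2, 4), (2, 6), (2, 9), (2, 10)] }
  rep := [2, 0, 11, 13, 14, 12, 8, 15, 16]

noncomputable def v3184 : Cov.CovD where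
  P := 3
  N := 6
  pl := [1, 4, 8, 9]
  lev := [⟨[], [], [(0, 1)], [6], [(0, 1, [0]), (2, 0, [1, 3, 4, 5])]⟩,
    ⟨[], [(0, 0), (0, 1)], [(0, 0), (0, 1)], [], [(0, 1, [0]), (2, 0, [1, 3, 4, 5]), (3, 0,
      [1, 3, 4, 5])]⟩,
    ⟨[(0, 1)], [(1, 0), (1, 1), (1, 3), (1, 5)], [(3, 5)], [2], [(5, 5, [0]), (6, 3, [0])]⟩,
    ⟨[(1, 2)], [(2, 3), (2, 4), (2, 5)], [(3, 4)], [], [(6, 3, [0]), (7, 4, [0])]⟩,
    ⟨[(0, 1), (1, 2), (2, 3)], [(0, 0), (1, 0), (1, 1), (2, 0), (2, 3), (2, 5)], [], [2],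
      [(2, 0, [1, 3, 4, 5])]⟩,
    ⟨[(0, 1), (1, 2), (1, 4)], [(0, 1), (1, 0), (1, 1)], [(0, 1)], [7], [(0, 1, [0]), (3,
      0, [1, 3, 4, 5])]⟩,
    ⟨[(0, 1), (1, 2), (1, 3), (1, 4), (1, 5), (2, 3), (2, 4)], [(1, 0), (1, 1), (1, 4), (2,
      0), (2, 3), (2, 4), (2, 5), (3, 0), (3, 3), (3, 4), (5, 0)], [(0, 4)], [8], [(3, 0, [1,
      3, 4, 5]), (7, 4, [0])]⟩]
  Ta := [((2, 1), 0, 6), ((2, 4), 0, 2), ((3, 8), 0, 7), ((3, 9), 0, 8)]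
  Tb := [((0, 1, 8), 1, 6, 7), ((1, 0, 2), 6, 1, 0), ((2, 1, 4), 0, 6, 2), ((3, 8, 9), 0, 7, 8),
    ((4, 2, 5), 2, 0, 5), ((5, 4, 6), 5, 2, 3), ((6, 5, 7), 3, 5, 4), ((7, 6, 9), 4, 3, 8),
    ((8, 0, 3), 7, 1, 0), ((9, 3, 7), 8, 0, 4)]
  Tc := [(0, 1, 3), (0, 1, 4), (0, 1, 5), (0, 3, 4), (0, 3, 5), (0, 4, 5)]
  Td := [((0, 1), (2, 1), 6), ((0, 1), (2, 4), 2), ((0, 1), (3, 8), 7), ((0, 1), (3, 9), 8), ((0,
    3), (2, 1), 6), ((0, 3), (2, 4), 2), ((0, 3), (3, 8), 7), ((0, 3), (3, 9), 8), ((0, 4),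
    (2, 1), 6), ((0, 4), (2, 4), 2), ((0, 4), (3, 8), 7), ((0, 4), (3, 9), 8), ((0, 5), (2,
    1), 6), ((0, 5), (2, 4), 2), ((0, 5), (3, 8), 7), ((0, 5), (3, 9), 8), ((1, 0), (0, 1),
    6), ((1, 0), (0, 8), 7), ((3, 0), (6, 5), 5), ((3, 0), (6, 7), 4), ((4, 0), (7, 6), 3),
    ((4, 0), (7, 9), 8), ((5, 0), (5, 4), 2), ((5, 0), (5, 6), 3)]
  G := [[0, 0xeea8114e6a82c114a, 0x61214e1218121e181ec4141e12121c1a1ea1218cc,
    0x41114e18a14e18418f1c4111e1441459a18a18a1cc,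
    0x61221261a18c1891c618c1251a18212a1cc12124d], [0, 0xeec811268ee4118a, 0,
    0xc14a146ec471618181488899c1, 0x6181a44851e12e18eac8b1c1]]

noncomputable def n3184 : Ent := ⟨e3184, noF, [], [], []⟩

def c3184 : PLift (Cov.check n3184.C.D v3184 = true) := ⟨by decide +kernel⟩

def b3184 : PLift (entF (fidx ts) 400 3184 n3184 = true) := ⟨by decide +kernel⟩

theorem g3184 : GoodF (fidx ts) 400 3184 := GoodF.ofV v3184 n3184 c3184.down b3184.down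

/-- 4677644:2450/1 -/
noncomputable def e3185 : SCfg where
  D := {
    a := 7
    L := 10
    kp := 7
    inn := [(0, 1), (0, 4), (1, 0), (1, 2), (1, 3), (1, 4), (2, 1), (2, 3), (2, 4), (2, 5), (3, 1), (3,
      2), (3, 6), (4, 0), (4, 1), (4, 2), (5, 2), (6, 3)]
    mix := [(0, 0), (0, 1), (1, 0), (1, 2), (2, 3), (2, 4), (2, 5), (3, 2), (3, 5), (3, 6), (3, 7), (4,
      1), (4, 3), (4, 8), (5, 3), (5, 4), (5, 9), (6, 1), (6, 6), (6, 7)]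
    cl := [4, 3, 1, 0, 2, 0, 1, 5, 6, 7]
    chq := [(0, 4), (4, 0), (4, 6), (6, 4)]
    rng := [(0, 1), (0, 2), (1, 0), (1, 6), (1, 7), (1, 8), (2, 0), (2, 7), (3, 8), (3, 9), (4, 5), (4,
      9), (5, 4), (5, 6), (6, 1), (6, 5), (7, 1), (7, 2), (8, 1), (8, 3), (9, 3), (9, 4)]
    lev := [] }
  links := [[1, 7, 8, 4], [7, 0, 4, 2, 3, 9], [3, 1, 4, 10, 5, 11, 12], [9, 1, 2, 12, 13, 6, 14], [10, 2,
    1, 0, 8, 15], [11, 2, 10, 16], [14, 3, 13, 8]]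
  P := {
    a := 7
    N := 17
    nb := [402, 669, 7226, 29254, 34055, 68612, 24840, 771, 57553, 16522, 98356, 69668, 10252, 4424,
      840, 1296, 3104]
    tri := [(0, 1, 4), (0, 1, 7), (0, 4, 8), (0, 7, 8), (1, 2, 3), (1, 2, 4), (1, 3, 9), (1, 7, 9), (2,
      3, 12), (2, 4, 10), (2, 5, 10), (2, 5, 11), (2, 11, 12), (3, 6, 13), (3, 6, 14), (3, 9, 14),
      (3, 12, 13), (4, 8, 15), (4, 10, 15), (5, 10, 16), (5, 11, 16), (6, 8, 13), (6, 8, 14)]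
    fin := [0, 0, 2, 3, 0, 2, 6, 0, 6, 3, 2, 11, 2, 3, 14, 15, 16]
    chd := [(0, 2), (0, 15)]
    steps := [(0, 1), (0, 4), (0, 7), (2, 5), (2, 10), (2, 12), (3, 13), (3, 9), (6, 8)] }
  rep := [2, 3, 11, 6, 0, 14, 15, 16]

noncomputable def v3185 : Cov.CovD where
  P := 3
  N := 5
  pl := [1, 4, 7, 9]
  lev := [⟨[], [], [], [3], [(0, 4, [0, 6])]⟩,
    ⟨[], [(0, 1), (0, 4)], [(1, 4)], [], [(0, 4, [0, 6]), (2, 1, [])]⟩,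
    ⟨[(0, 1)], [(1, 0), (1, 1), (1, 4)], [(0, 0)], [2], [(3, 0, [4]), (5, 0, [4])]⟩,
    ⟨[(0, 1), (1, 2)], [(1, 0), (1, 1), (1, 4), (2, 0), (2, 1)], [(0, 1), (1, 1)], [5],
      [(2, 1, []), (5, 0, [4]), (6, 1, [])]⟩,
    ⟨[(0, 1), (0, 2), (1, 2), (1, 3), (2, 3)], [(0, 0), (0, 4), (0, 6), (1, 0), (1, 1), (1,
      4), (1, 6), (2, 0), (2, 6)], [(0, 6)], [3], [(3, 0, [4]), (8, 6, [4])]⟩,
    ⟨[(1, 2), (2, 3), (2, 4)], [(2, 0), (4, 0)], [], [2, 7], [(3, 0, [4])]⟩,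
    ⟨[(1, 3), (2, 3)], [(3, 0), (3, 1)], [], [3, 5], [(6, 1, [])]⟩]
  Ta := [((2, 0), 1, 4), ((2, 7), 1, 5), ((3, 8), 0, 6), ((3, 9), 0, 7), ((5, 4), 0, 2), ((5, 6),
    0, 1), ((6, 1), 1, 3), ((6, 5), 1, 0)]
  Tb := [((0, 1, 2), 4, 3, 1), ((1, 0, 6), 3, 4, 1), ((1, 0, 7), 3, 4, 5), ((1, 0, 8), 3, 4, 6),
    ((1, 6, 7), 3, 1, 5), ((1, 6, 8), 3, 1, 6), ((1, 7, 8), 3, 5, 6), ((2, 0, 7), 1, 4, 5),
    ((3, 8, 9), 0, 6, 7), ((4, 5, 9), 2, 0, 7), ((5, 4, 6), 0, 2, 1), ((6, 1, 5), 1, 3, 0),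
    ((7, 1, 2), 5, 3, 1), ((8, 1, 3), 6, 3, 0), ((9, 3, 4), 7, 0, 2)]
  Tc := [(4, 0, 6)]
  Td := [((0, 4), (3, 8), 6), ((0, 4), (3, 9), 7), ((0, 4), (5, 4), 2), ((0, 4), (5, 6), 1), ((4,
    0), (0, 1), 3), ((4, 0), (0, 2), 1), ((4, 6), (0, 1), 3), ((4, 6), (0, 2), 1), ((6, 4),
    (8, 1), 3), ((6, 4), (8, 3), 0)]
  G := [[0, 0, 0, 0x88c284144c24812442444c22cec88c28c288cc122c2184f,
    0x22288828a162a2184312488a62ac22a24acca112222a2c81f], [0, 0, 0,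
    0x44c55c6488c99ca8c11441444ccc88c18c188cc23,
    0x12244adda6c88a98ac188ca181a18a188c21249244ac884d863], [0, 0,
    0x88c222c2c2114a2422628c181c12ac12c446cc21e, 0x212212c41212412c81214111e48121c8c1e,
    0x812212c21612212c818121c1141cc21e], [0, 0xe1428412121e281c1a8ca141a1e48e1,
    0x5562488c99aa844c44e111644464c88c811a8cc13, 0x4151648191a8c141448111c118cc23,
    0x11a182411241d16c8181c8a11149141cc827]]

noncomputable def n3185 : Ent := ⟨e3185, noF, [], [], []⟩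

def c3185 : PLift (Cov.check n3185.C.D v3185 = true) := ⟨by decide +kernel⟩

def b3185 : PLift (entF (fidx ts) 400 3185 n3185 = true) := ⟨by decide +kernel⟩

theorem g3185 : GoodF (fidx ts) 400 3185 := GoodF.ofV v3185 n3185 c3185.down b3185.down

/-- 4677644:2450/2 -/
noncomputable def e3186 : SCfg where
  D := {
    a := 7
    L := 10
    kp := 7
    inn := [(0, 1), (0, 4), (1, 0), (1, 2), (1, 3), (1, 4), (2, 1), (2, 3), (2, 4), (2, 5), (3, 1), (3,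
      2), (3, 6), (4, 0), (4, 1), (4, 2), (5, 2), (6, 3)]
    mix := [(0, 0), (0, 1), (1, 0), (1, 2), (2, 3), (2, 4), (2, 5), (3, 2), (3, 5), (3, 6), (3, 7), (4,
      1), (4, 3), (4, 8), (5, 3), (5, 4), (5, 9), (6, 6), (6, 7), (6, 8)]
    cl := [4, 2, 3, 0, 5, 0, 3, 6, 1, 7]
    chq := [(0, 4), (1, 4), (4, 0), (4, 1)]
    rng := [(0, 1), (0, 2), (1, 0), (1, 8), (2, 0), (2, 7), (3, 8), (3, 9), (4, 5), (4, 9), (5, 4), (5,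
      6), (6, 5), (6, 8), (7, 2), (7, 8), (8, 1), (8, 3), (8, 6), (8, 7), (9, 3), (9, 4)]
    lev := [] }
  links := [[1, 7, 8, 4], [7, 0, 4, 2, 3, 9], [3, 1, 4, 10, 5, 11, 12], [9, 1, 2, 12, 13, 6, 14], [10, 2,
    1, 0, 8, 15], [11, 2, 10, 16], [14, 3, 13, 15]]
  P := {
    a := 7
    N := 17
    nb := [402, 669, 7226, 29254, 34055, 68612, 57352, 771, 32913, 16522, 98356, 69668, 10252, 36936,
      33352, 25936, 3104]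
    tri := [(0, 1, 4), (0, 1, 7), (0, 4, 8), (0, 7, 8), (1, 2, 3), (1, 2, 4), (1, 3, 9), (1, 7, 9), (2,
      3, 12), (2, 4, 10), (2, 5, 10), (2, 5, 11), (2, 11, 12), (3, 6, 13), (3, 6, 14), (3, 9, 14),
      (3, 12, 13), (4, 8, 15), (4, 10, 15), (5, 10, 16), (5, 11, 16), (6, 13, 15), (6, 14, 15)]
    fin := [0, 0, 2, 3, 0, 2, 6, 0, 8, 3, 2, 11, 2, 3, 14, 6, 16]
    chd := [(0, 2), (0, 6)]
    steps := [(0, 1), (0, 4), (0, 7), (2, 5), (2, 10), (2, 12), (3, 13), (3, 9), (6, 15)] }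
  rep := [2, 6, 8, 3, 0, 11, 14, 16]

noncomputable def v3186 : Cov.CovD where
  P := 3
  N := 5
  pl := [1, 4, 7, 9]
  lev := [⟨[], [], [], [2], [(0, 4, [0, 1])]⟩,
    ⟨[], [(0, 3), (0, 4)], [(3, 4)], [], [(0, 4, [0, 1]), (2, 3, [])]⟩,
    ⟨[(0, 1)], [(1, 0), (1, 3), (1, 4)], [(0, 0)], [5], [(3, 0, [4]), (5, 0, [4])]⟩,
    ⟨[(0, 1), (1, 2)], [(1, 0), (1, 3), (1, 4), (2, 0), (2, 3)], [(0, 3), (3, 3)], [6],
      [(2, 3, []), (5, 0, [4]), (6, 3, [])]⟩,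
    ⟨[(0, 1), (0, 2), (1, 2), (1, 3), (2, 3)], [(0, 0), (0, 1), (0, 4), (1, 0), (1, 1), (1,
      3), (1, 4), (2, 0), (2, 1)], [(0, 1)], [2], [(3, 0, [4]), (8, 1, [4])]⟩,
    ⟨[(1, 2), (2, 3), (2, 4)], [(2, 0), (4, 0)], [], [5, 7], [(3, 0, [4])]⟩,
    ⟨[(1, 3), (2, 3)], [(3, 0), (3, 1), (3, 3), (4, 1)], [(1, 3)], [6], [(6, 3, []), (8, 1,
      [4])]⟩]
  Ta := [((2, 0), 3, 4), ((2, 7), 3, 6), ((3, 8), 0, 1), ((3, 9), 0, 7), ((5, 4), 0, 5), ((5, 6),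
    0, 3), ((6, 5), 3, 0), ((6, 8), 3, 1)]
  Tb := [((0, 1, 2), 4, 2, 3), ((1, 0, 8), 2, 4, 1), ((2, 0, 7), 3, 4, 6), ((3, 8, 9), 0, 1, 7),
    ((4, 5, 9), 5, 0, 7), ((5, 4, 6), 0, 5, 3), ((6, 5, 8), 3, 0, 1), ((7, 2, 8), 6, 3, 1),
    ((8, 1, 3), 1, 2, 0), ((8, 1, 6), 1, 2, 3), ((8, 1, 7), 1, 2, 6), ((8, 3, 6), 1, 0, 3),
    ((8, 3, 7), 1, 0, 6), ((8, 6, 7), 1, 3, 6), ((9, 3, 4), 7, 0, 5)]
  Tc := [(4, 0, 1)]
  Td := [((0, 4), (3, 8), 1), ((0, 4), (3, 9), 7), ((0, 4), (5, 4), 5), ((0, 4), (5, 6), 3), ((1,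
    4), (8, 1), 2), ((1, 4), (8, 3), 0), ((1, 4), (8, 6), 3), ((1, 4), (8, 7), 6), ((4, 0),
    (0, 1), 2), ((4, 0), (0, 2), 3), ((4, 1), (0, 1), 2), ((4, 1), (0, 2), 3)]
  G := [[0, 0x44c422a4688c82268a88a84468ce11, 0x48a4148681cc5a425c682c32, 0xc9a42cc682c21,
    0x1282441e8288a844a8188ee188c81423], [0, 0x44c422a4688c82268a88a84468ce11,
    0x41c411a4688c85168a88a44464ce12, 0xdda428485d68ac21,
    0x448128688c8188511e8e88a8444e8188ee12], [0, 0, 0x443418a4c18e14941189968ec12,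
    0xc5a42c142c21, 0x118188b8c9c8e81a8418c18e612], [0, 0, 0x418114688c81568a8144164ce12,
    0xd182dddb82c21, 0x444781186818888a8418111d8ee12]]

noncomputable def n3186 : Ent := ⟨e3186, noF, [], [], []⟩

def c3186 : PLift (Cov.check n3186.C.D v3186 = true) := ⟨by decide +kernel⟩

def b3186 : PLift (entF (fidx ts) 400 3186 n3186 = true) := ⟨by decide +kernel⟩

theorem g3186 : GoodF (fidx ts) 400 3186 := GoodF.ofV v3186 n3186 c3186.down b3186.down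

/-- 4677644:2450/3 -/
noncomputable def e3187 : SCfg where
  D := {
    a := 7
    L := 10
    kp := 7
    inn := [(0, 1), (0, 4), (1, 0), (1, 2), (1, 3), (1, 4), (2, 1), (2, 3), (2, 4), (2, 5), (3, 1), (3,
      2), (3, 6), (4, 0), (4, 1), (4, 2), (5, 2), (6, 3)]
    mix := [(0, 0), (0, 1), (1, 0), (1, 2), (2, 3), (2, 4), (2, 5), (3, 2), (3, 5), (3, 6), (3, 7), (4,
      1), (4, 3), (4, 8), (5, 3), (5, 4), (5, 9), (6, 6), (6, 7), (6, 9)]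
    cl := [3, 4, 1, 0, 2, 0, 1, 5, 7, 6]
    chq := [(0, 3), (3, 0), (3, 7), (7, 3)]
    rng := [(0, 1), (0, 2), (1, 0), (1, 8), (2, 0), (2, 7), (3, 8), (3, 9), (4, 5), (4, 9), (5, 4), (5,
      6), (6, 5), (6, 9), (7, 2), (7, 9), (8, 1), (8, 3), (9, 3), (9, 4), (9, 6), (9, 7)]
    lev := [] }
  links := [[1, 7, 8, 4], [7, 0, 4, 2, 3, 9], [3, 1, 4, 10, 5, 11, 12], [9, 1, 2, 12, 13, 6, 14], [10, 2,
    1, 0, 8, 15], [11, 2, 10, 16], [14, 3, 13, 16]]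
  P := {
    a := 7
    N := 17
    nb := [402, 669, 7226, 29254, 34055, 68612, 90120, 771, 32913, 16522, 98356, 69668, 10252, 69704,
      66120, 1296, 27744]
    tri := [(0, 1, 4), (0, 1, 7), (0, 4, 8), (0, 7, 8), (1, 2, 3), (1, 2, 4), (1, 3, 9), (1, 7, 9), (2,
      3, 12), (2, 4, 10), (2, 5, 10), (2, 5, 11), (2, 11, 12), (3, 6, 13), (3, 6, 14), (3, 9, 14),
      (3, 12, 13), (4, 8, 15), (4, 10, 15), (5, 10, 16), (5, 11, 16), (6, 13, 16), (6, 14, 16)]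
    fin := [0, 0, 2, 3, 0, 2, 6, 0, 8, 3, 2, 11, 2, 3, 14, 15, 6]
    chd := [(0, 2), (0, 15)]
    steps := [(0, 1), (0, 4), (0, 7), (2, 5), (2, 10), (2, 12), (3, 13), (3, 9), (6, 16)] }
  rep := [2, 3, 11, 0, 8, 14, 6, 15]

noncomputable def v3187 : Cov.CovD where
  P := 3
  N := 5
  pl := [1, 4, 7, 9]
  lev := [⟨[], [], [], [4], [(0, 3, [0, 7])]⟩,
    ⟨[], [(0, 1), (0, 3)], [(1, 3)], [], [(0, 3, [0, 7]), (2, 1, [])]⟩,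
    ⟨[(0, 1)], [(1, 0), (1, 1), (1, 3)], [(0, 0)], [2], [(3, 0, [3]), (5, 0, [3])]⟩,
    ⟨[(0, 1), (1, 2)], [(1, 0), (1, 1), (1, 3), (2, 0), (2, 1)], [(0, 1), (1, 1)], [5],
      [(2, 1, []), (5, 0, [3]), (6, 1, [])]⟩,
    ⟨[(0, 1), (0, 2), (1, 2), (1, 3), (2, 3)], [(0, 0), (0, 3), (0, 7), (1, 0), (1, 1), (1,
      3), (1, 7), (2, 0), (2, 7)], [(0, 7)], [4], [(3, 0, [3]), (8, 7, [3])]⟩,
    ⟨[(1, 2), (2, 3), (2, 4)], [(2, 0), (4, 0)], [], [2, 6], [(3, 0, [3])]⟩,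
    ⟨[(1, 3), (2, 3)], [(3, 0), (3, 1)], [], [5, 6], [(6, 1, [])]⟩]
  Ta := [((2, 0), 1, 3), ((2, 7), 1, 5), ((3, 8), 0, 7), ((3, 9), 0, 6), ((5, 4), 0, 2), ((5, 6),
    0, 1), ((6, 5), 1, 0), ((6, 9), 1, 6)]
  Tb := [((0, 1, 2), 3, 4, 1), ((1, 0, 8), 4, 3, 7), ((2, 0, 7), 1, 3, 5), ((3, 8, 9), 0, 7, 6),
    ((4, 5, 9), 2, 0, 6), ((5, 4, 6), 0, 2, 1), ((6, 5, 9), 1, 0, 6), ((7, 2, 9), 5, 1, 6),
    ((8, 1, 3), 7, 4, 0), ((9, 3, 4), 6, 0, 2), ((9, 3, 6), 6, 0, 1), ((9, 3, 7), 6, 0, 5),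
    ((9, 4, 6), 6, 2, 1), ((9, 4, 7), 6, 2, 5), ((9, 6, 7), 6, 1, 5)]
  Tc := [(3, 0, 7)]
  Td := [((0, 3), (3, 8), 7), ((0, 3), (3, 9), 6), ((0, 3), (5, 4), 2), ((0, 3), (5, 6), 1), ((3,
    0), (0, 1), 4), ((3, 0), (0, 2), 1), ((3, 7), (0, 1), 4), ((3, 7), (0, 2), 1), ((7, 3),
    (8, 1), 4), ((7, 3), (8, 3), 0)]
  G := [[0, 0, 0, 0x24448584c28ec1488a8c14444a481c81ca2828acc1225246182881494c24c64881818e8cd7,
    0xd244219262c228c212225232b2ec2288a1222a2226588f], [0, 0, 0,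
    0x14c14c6481c81ca8c11444414ccc81c88c188cc23,
    0x85a1118c214a4486113245a94a6c8881ac8a181a81a88e14a8c21b], [0, 0,
    0x122222c81224124c81121212e2222ac2244617,
    0x11216841212114c218118cc12131c1111ac4121216488f,
    0x1112342212268892218841111642222c8a11221a424f], [0,
    0xc1416a1468128c1849c1a618a4124c1482c18c2612284f, 0x14c4166481a81ca8c111681ac496416cc213,
    0x5111691d1ac81114485cd1c118cc23, 0x112d1d16c1188a111882114d1d1cc863]]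

noncomputable def n3187 : Ent := ⟨e3187, noF, [], [], []⟩

def c3187 : PLift (Cov.check n3187.C.D v3187 = true) := ⟨by decide +kernel⟩

def b3187 : PLift (entF (fidx ts) 400 3187 n3187 = true) := ⟨by decide +kernel⟩

theorem g3187 : GoodF (fidx ts) 400 3187 := GoodF.ofV v3187 n3187 c3187.down b3187.down

/-- 4677644:2450 -/
noncomputable def e3188 : SCfg where
  D := {
    a := 7
    L := 11
    kp := 8
    inn := [(0, 1), (0, 4), (1, 0), (1, 2), (1, 3), (1, 4), (2, 1), (2, 3), (2, 4), (2, 5), (3, 1), (3,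
      2), (3, 6), (4, 0), (4, 1), (4, 2), (5, 2), (6, 3)]
    mix := [(0, 0), (0, 1), (1, 0), (1, 2), (2, 3), (2, 4), (2, 5), (3, 2), (3, 5), (3, 6), (3, 7), (4,
      1), (4, 3), (4, 8), (5, 3), (5, 4), (5, 9), (6, 6), (6, 7), (6, 10)]
    cl := [4, 1, 3, 0, 2, 0, 3, 5, 6, 7, 8]
    chq := [(0, 4), (4, 0), (4, 6), (6, 4)]
    rng := [(0, 1), (0, 2), (1, 0), (1, 8), (2, 0), (2, 7), (3, 8), (3, 9), (4, 5), (4, 9), (5, 4), (5,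
      6), (6, 5), (6, 10), (7, 2), (7, 10), (8, 1), (8, 3), (9, 3), (9, 4), (10, 6), (10, 7)]
    lev := [] }
  links := [[1, 7, 8, 4], [7, 0, 4, 2, 3, 9], [3, 1, 4, 10, 5, 11, 12], [9, 1, 2, 12, 13, 6, 14], [10, 2,
    1, 0, 8, 15], [11, 2, 10, 16], [14, 3, 13, 17]]
  P := {
    a := 7
    N := 18
    nb := [402, 669, 7226, 29254, 34055, 68612, 155656, 771, 32913, 16522, 98356, 69668, 10252,
      135240, 131656, 1296, 3104, 24640]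
    tri := [(0, 1, 4), (0, 1, 7), (0, 4, 8), (0, 7, 8), (1, 2, 3), (1, 2, 4), (1, 3, 9), (1, 7, 9), (2,
      3, 12), (2, 4, 10), (2, 5, 10), (2, 5, 11), (2, 11, 12), (3, 6, 13), (3, 6, 14), (3, 9, 14),
      (3, 12, 13), (4, 8, 15), (4, 10, 15), (5, 10, 16), (5, 11, 16), (6, 13, 17), (6, 14, 17)]
    fin := [0, 0, 2, 3, 0, 2, 3, 0, 8, 3, 2, 11, 2, 3, 14, 15, 16, 17]
    chd := [(0, 2), (0, 15)]
    steps := [(0, 1), (0, 4), (0, 7), (2, 5), (2, 10), (2, 12), (3, 6), (3, 13), (3, 9)] }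
  rep := [2, 8, 11, 3, 0, 14, 15, 16, 17]

noncomputable def v3188 : Cov.CovD where
  P := 3
  N := 6
  pl := [1, 4, 7, 9, 10]
  lev := [⟨[], [], [], [1], [(0, 4, [0, 6])]⟩,
    ⟨[], [(0, 3), (0, 4)], [(3, 4)], [], [(0, 4, [0, 6]), (2, 3, [])]⟩,
    ⟨[(0, 1)], [(1, 0), (1, 3), (1, 4)], [(0, 0)], [2], [(3, 0, [4]), (5, 0, [4])]⟩,
    ⟨[(0, 1), (1, 2)], [(1, 0), (1, 3), (1, 4), (2, 0), (2, 3)], [(0, 3), (3, 3)], [5],
      [(2, 3, []), (5, 0, [4]), (6, 3, [])]⟩,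
    ⟨[(0, 1), (0, 2), (1, 2), (1, 3), (2, 3)], [(0, 0), (0, 4), (0, 6), (1, 0), (1, 3), (1,
      4), (1, 6), (2, 0), (2, 6)], [(0, 6)], [1], [(3, 0, [4]), (8, 6, [4])]⟩,
    ⟨[(1, 2), (2, 3), (2, 4)], [(2, 0), (4, 0)], [], [2, 7], [(3, 0, [4])]⟩,
    ⟨[(1, 3), (2, 3)], [(3, 0), (3, 3)], [], [5, 8], [(6, 3, [])]⟩]
  Ta := [((2, 0), 3, 4), ((2, 7), 3, 5), ((3, 8), 0, 6), ((3, 9), 0, 7), ((5, 4), 0, 2), ((5, 6),
    0, 3), ((6, 5), 3, 0), ((6, 10), 3, 8)]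
  Tb := [((0, 1, 2), 4, 1, 3), ((1, 0, 8), 1, 4, 6), ((2, 0, 7), 3, 4, 5), ((3, 8, 9), 0, 6, 7),
    ((4, 5, 9), 2, 0, 7), ((5, 4, 6), 0, 2, 3), ((6, 5, 10), 3, 0, 8), ((7, 2, 10), 5, 3, 8),
    ((8, 1, 3), 6, 1, 0), ((9, 3, 4), 7, 0, 2), ((10, 6, 7), 8, 3, 5)]
  Tc := [(4, 0, 6)]
  Td := [((0, 4), (3, 8), 6), ((0, 4), (3, 9), 7), ((0, 4), (5, 4), 2), ((0, 4), (5, 6), 3), ((4,
    0), (0, 1), 1), ((4, 0), (0, 2), 3), ((4, 6), (0, 1), 1), ((4, 6), (0, 2), 3), ((6, 4),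
    (8, 1), 1), ((6, 4), (8, 3), 0)]
  G := [[0, 0x64455c433c4e6848c1548496c8a8833c8ec1c, 0,
    0x66545ac433c4ed18c18ac1aa58186cc68ca8836c8e459, 0x33a4296a45aa4ca1328299a855a8c88ea1c],
    [0, 0x99c233c2a4155c248155c4499c833c8ac1e, 0,
    0x1445dc43bc4e9848c15484d9c818873c8ec18441848814cd,
    0x33a4299a455a4ca13282b9a875a8188ea1288124d], [0x4a3e2aaa23cc2e4199645564ccc4e216,
    0x614514314e81618a18318e41c, 0x5565aac3363ccc696a99ac8c11, 0x614514314e81918a18c18e41c,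
    0x614a14c14e21918518c18e21c], [0x55a433c4699a48a155684996833a8ac1c,
    0x5124912312ac151431469148c16, 0x99699ac33c33aca55a55ac4611,
    0x51431469148c15184918318ac1c, 0x3142914514ca13182918518ca1c]]

noncomputable def n3188 : Ent := ⟨e3188, noF, [], [], [(8, 17, [6903326391201334775872065844685381424292761054348340378595029942734849, 0]), (15, 17, [6903326391201334775872065844685381424292761054348340378595029942738945, 0]), (16, 17, [6903326391201334775872065844685381424292761054348340378595029942743041, 0])]⟩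

def c3188 : PLift (Cov.check n3188.C.D v3188 = true) := ⟨by decide +kernel⟩

def b3188 : PLift (entF (fidx ts) 400 3188 n3188 = true) := ⟨by decide +kernel⟩

theorem g3188 : GoodF (fidx ts) 400 3188 := GoodF.ofV v3188 n3188 c3188.down b3188.down

/-- 4677644:2451/1 -/
noncomputable def e3189 : SCfg where
  D := {
    a := 7
    L := 10
    kp := 7
    inn := [(0, 1), (0, 4), (1, 0), (1, 2), (1, 3), (1, 4), (2, 1), (2, 3), (2, 4), (2, 5), (3, 1), (3,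
      2), (3, 6), (4, 0), (4, 1), (4, 2), (5, 2), (6, 3)]
    mix := [(0, 0), (0, 1), (1, 0), (1, 2), (2, 3), (2, 4), (2, 5), (3, 2), (3, 5), (3, 6), (3, 7), (4,
      1), (4, 3), (4, 8), (5, 3), (5, 4), (5, 9), (6, 2), (6, 7), (6, 9)]
    cl := [4, 1, 3, 0, 2, 0, 3, 5, 7, 6]
    chq := [(0, 4), (4, 0), (4, 7), (7, 4)]
    rng := [(0, 1), (0, 2), (1, 0), (1, 8), (2, 0), (2, 9), (3, 8), (3, 9), (4, 5), (4, 9), (5, 4), (5,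
      6), (6, 5), (6, 7), (7, 6), (7, 9), (8, 1), (8, 3), (9, 2), (9, 3), (9, 4), (9, 7)]
    lev := [] }
  links := [[1, 7, 8, 4], [7, 0, 4, 2, 3, 9], [3, 1, 4, 10, 5, 11, 12], [9, 1, 2, 12, 13, 14, 6], [10, 2,
    1, 0, 8, 15], [11, 2, 10, 16], [9, 3, 14, 16]]
  P := {
    a := 7
    N := 17
    nb := [402, 669, 7226, 29254, 34055, 68612, 82440, 771, 32913, 65738, 98356, 69668, 10252, 20488,
      73800, 1296, 20064]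
    tri := [(0, 1, 4), (0, 1, 7), (0, 4, 8), (0, 7, 8), (1, 2, 3), (1, 2, 4), (1, 3, 9), (1, 7, 9), (2,
      3, 12), (2, 4, 10), (2, 5, 10), (2, 5, 11), (2, 11, 12), (3, 6, 9), (3, 6, 14), (3, 12, 13),
      (3, 13, 14), (4, 8, 15), (4, 10, 15), (5, 10, 16), (5, 11, 16), (6, 9, 16), (6, 14, 16)]
    fin := [0, 0, 2, 3, 0, 2, 6, 0, 8, 3, 2, 11, 2, 3, 14, 15, 6]
    chd := [(0, 2), (0, 15)]
    steps := [(0, 1), (0, 4), (0, 7), (2, 5), (2, 10), (2, 12), (3, 13), (3, 9), (6, 16)] }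
  rep := [2, 8, 11, 3, 0, 14, 6, 15]

noncomputable def v3189 : Cov.CovD where
  P := 3
  N := 5
  pl := [1, 4, 7, 9]
  lev := [⟨[], [], [], [1], [(0, 4, [0, 7])]⟩,
    ⟨[], [(0, 3), (0, 4)], [(3, 4)], [], [(0, 4, [0, 7]), (2, 3, [])]⟩,
    ⟨[(0, 1)], [(1, 0), (1, 3), (1, 4)], [(0, 0)], [2], [(3, 0, [4]), (5, 0, [4])]⟩,
    ⟨[(0, 1), (1, 2)], [(1, 0), (1, 3), (1, 4), (2, 0), (2, 3)], [(0, 3), (3, 3)], [5],
      [(2, 3, []), (5, 0, [4]), (6, 3, [])]⟩,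
    ⟨[(0, 1), (0, 2), (1, 2), (1, 3), (2, 3)], [(0, 0), (0, 4), (0, 7), (1, 0), (1, 3), (1,
      4), (1, 7), (2, 0), (2, 7)], [(0, 7)], [1], [(3, 0, [4]), (8, 7, [4])]⟩,
    ⟨[(1, 2), (2, 3), (2, 4)], [(2, 0), (4, 0)], [], [2, 6], [(3, 0, [4])]⟩,
    ⟨[(1, 3), (2, 3)], [(1, 3), (3, 0), (3, 3)], [], [5, 6], [(2, 3, [])]⟩]
  Ta := [((2, 0), 3, 4), ((2, 9), 3, 6), ((3, 8), 0, 7), ((3, 9), 0, 6), ((5, 4), 0, 2), ((5, 6),
    0, 3), ((6, 5), 3, 0), ((6, 7), 3, 5)]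
  Tb := [((0, 1, 2), 4, 1, 3), ((1, 0, 8), 1, 4, 7), ((2, 0, 9), 3, 4, 6), ((3, 8, 9), 0, 7, 6),
    ((4, 5, 9), 2, 0, 6), ((5, 4, 6), 0, 2, 3), ((6, 5, 7), 3, 0, 5), ((7, 6, 9), 5, 3, 6),
    ((8, 1, 3), 7, 1, 0), ((9, 2, 3), 6, 3, 0), ((9, 2, 4), 6, 3, 2), ((9, 2, 7), 6, 3, 5),
    ((9, 3, 4), 6, 0, 2), ((9, 3, 7), 6, 0, 5), ((9, 4, 7), 6, 2, 5)]
  Tc := [(4, 0, 7)]
  Td := [((0, 4), (3, 8), 7), ((0, 4), (3, 9), 6), ((0, 4), (5, 4), 2), ((0, 4), (5, 6), 3), ((4,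
    0), (0, 1), 1), ((4, 0), (0, 2), 3), ((4, 7), (0, 1), 1), ((4, 7), (0, 2), 3), ((7, 4),
    (8, 1), 1), ((7, 4), (8, 3), 0)]
  G := [[0, 0x14c223c2681c28c1448481c838812c8ec1a, 0, 0x14414c423c4e8848c1448481c818832c8ec1c,
    0x45a412a4681a48a1228281a854a8188ea1c], [0, 0x244a1c8868812c6e84c28c144814282c8288c41e,
    0, 0x8841864494c4c8344883c4686c818821c8ec1c, 0x42a412a4584624f232898882a8b2c1],
    [0x4162481a21262ac114414c41264e8848c16, 0x112d12b12e81d18118718e41a,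
    0x12a12ac281a81cc41614ccc611, 0x114d14b14e81d18118718e41c, 0xb14714114e21b18718118e21c],
    [0x12621884a614c2e81416822881c8e21a, 0x112112712e4861d1c41a1c681c21a8c16,
    0x81a416c82a34cc84c84cce211, 0x14118192c1e8451d1c4181c69111c8c29,
    0x114314514e2318118918e2c1]]

noncomputable def n3189 : Ent := ⟨e3189, noF, [], [], []⟩

def c3189 : PLift (Cov.check n3189.C.D v3189 = true) := ⟨by decide +kernel⟩

def b3189 : PLift (entF (fidx ts) 400 3189 n3189 = true) := ⟨by decide +kernel⟩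

theorem g3189 : GoodF (fidx ts) 400 3189 := GoodF.ofV v3189 n3189 c3189.down b3189.down

/-- 4677644:2451 -/
noncomputable def e3190 : SCfg where
  D := {
    a := 7
    L := 11
    kp := 8
    inn := [(0, 1), (0, 4), (1, 0), (1, 2), (1, 3), (1, 4), (2, 1), (2, 3), (2, 4), (2, 5), (3, 1), (3,
      2), (3, 6), (4, 0), (4, 1), (4, 2), (5, 2), (6, 3)]
    mix := [(0, 0), (0, 1), (1, 0), (1, 2), (2, 3), (2, 4), (2, 5), (3, 2), (3, 5), (3, 6), (3, 7), (4,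
      1), (4, 3), (4, 8), (5, 3), (5, 4), (5, 9), (6, 2), (6, 7), (6, 10)]
    cl := [4, 1, 3, 0, 2, 0, 3, 5, 6, 7, 8]
    chq := [(0, 4), (4, 0), (4, 6), (6, 4)]
    rng := [(0, 1), (0, 2), (1, 0), (1, 8), (2, 0), (2, 10), (3, 8), (3, 9), (4, 5), (4, 9), (5, 4),
      (5, 6), (6, 5), (6, 7), (7, 6), (7, 10), (8, 1), (8, 3), (9, 3), (9, 4), (10, 2), (10, 7)]
    lev := [] }
  links := [[1, 7, 8, 4], [7, 0, 4, 2, 3, 9], [3, 1, 4, 10, 5, 11, 12], [9, 1, 2, 12, 13, 14, 6], [10, 2,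
    1, 0, 8, 15], [11, 2, 10, 16], [9, 3, 14, 17]]
  P := {
    a := 7
    N := 18
    nb := [402, 669, 7226, 29254, 34055, 68612, 147976, 771, 32913, 131274, 98356, 69668, 10252,
      20488, 139336, 1296, 3104, 16960]
    tri := [(0, 1, 4), (0, 1, 7), (0, 4, 8), (0, 7, 8), (1, 2, 3), (1, 2, 4), (1, 3, 9), (1, 7, 9), (2,
      3, 12), (2, 4, 10), (2, 5, 10), (2, 5, 11), (2, 11, 12), (3, 6, 9), (3, 6, 14), (3, 12, 13),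
      (3, 13, 14), (4, 8, 15), (4, 10, 15), (5, 10, 16), (5, 11, 16), (6, 9, 17), (6, 14, 17)]
    fin := [0, 0, 2, 3, 0, 2, 3, 0, 8, 3, 2, 11, 2, 3, 14, 15, 16, 17]
    chd := [(0, 2), (0, 15)]
    steps := [(0, 1), (0, 4), (0, 7), (2, 5), (2, 10), (2, 12), (3, 6), (3, 13), (3, 9)] }
  rep := [2, 8, 11, 3, 0, 14, 15, 16, 17]

noncomputable def v3190 : Cov.CovD where
  P := 3
  N := 6
  pl := [1, 4, 7, 9, 10]
  lev := [⟨[], [], [], [1], [(0, 4, [0, 6])]⟩,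
    ⟨[], [(0, 3), (0, 4)], [(3, 4)], [], [(0, 4, [0, 6]), (2, 3, [])]⟩,
    ⟨[(0, 1)], [(1, 0), (1, 3), (1, 4)], [(0, 0)], [2], [(3, 0, [4]), (5, 0, [4])]⟩,
    ⟨[(0, 1), (1, 2)], [(1, 0), (1, 3), (1, 4), (2, 0), (2, 3)], [(0, 3), (3, 3)], [5],
      [(2, 3, []), (5, 0, [4]), (6, 3, [])]⟩,
    ⟨[(0, 1), (0, 2), (1, 2), (1, 3), (2, 3)], [(0, 0), (0, 4), (0, 6), (1, 0), (1, 3), (1,
      4), (1, 6), (2, 0), (2, 6)], [(0, 6)], [1], [(3, 0, [4]), (8, 6, [4])]⟩,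
    ⟨[(1, 2), (2, 3), (2, 4)], [(2, 0), (4, 0)], [], [2, 7], [(3, 0, [4])]⟩,
    ⟨[(1, 3), (2, 3)], [(1, 3), (3, 0), (3, 3)], [], [5, 8], [(2, 3, [])]⟩]
  Ta := [((2, 0), 3, 4), ((2, 10), 3, 8), ((3, 8), 0, 6), ((3, 9), 0, 7), ((5, 4), 0, 2), ((5,
    6), 0, 3), ((6, 5), 3, 0), ((6, 7), 3, 5)]
  Tb := [((0, 1, 2), 4, 1, 3), ((1, 0, 8), 1, 4, 6), ((2, 0, 10), 3, 4, 8), ((3, 8, 9), 0, 6, 7),
    ((4, 5, 9), 2, 0, 7), ((5, 4, 6), 0, 2, 3), ((6, 5, 7), 3, 0, 5), ((7, 6, 10), 5, 3, 8),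
    ((8, 1, 3), 6, 1, 0), ((9, 3, 4), 7, 0, 2), ((10, 2, 7), 8, 3, 5)]
  Tc := [(4, 0, 6)]
  Td := [((0, 4), (3, 8), 6), ((0, 4), (3, 9), 7), ((0, 4), (5, 4), 2), ((0, 4), (5, 6), 3), ((4,
    0), (0, 1), 1), ((4, 0), (0, 2), 3), ((4, 6), (0, 1), 1), ((4, 6), (0, 2), 3), ((6, 4),
    (8, 1), 1), ((6, 4), (8, 3), 0)]
  G := [[0, 0x949894e84155c2499c833c2ac155c433c4681e, 0,
    0x1445dc43bc4e9848c15484d9c818873c8ec18441848814cd,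
    0x55a433a4699a48a12881228812288123282b9a875a8188eafc], [0,
    0x55c288ccc6699c28c14881422458c18e4a9c8348ac1e, 0,
    0x64455c4c3c4e9848c16cc8a8836c8e41a48184d, 0xcca415a4681328296a48c55a8c88ea126a4128d],
    [0x55a2499c233a2ac133c42996455a4ca16, 0x5124912312ac151431469148c16,
    0x99c99ac33a33aca55655ac4611, 0x51431469148c151831869188c1c,
    0x3142914514ca13182918518ca1c], [0x2664a5c8868364e8196a48a2aa843a34ae41c,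
    0x612d12e12e81618a18c18e41a, 0x99a69cc5aa5accccccccce211, 0x614d14e14e81d18a18e18e41c,
    0x31429141151cca13182918618ca1c]]

noncomputable def n3190 : Ent := ⟨e3190, noF, [], [], [(16, 17, [6903326391201334775872065844685381424292761054348340378595029942751233, 0])]⟩

def c3190 : PLift (Cov.check n3190.C.D v3190 = true) := ⟨by decide +kernel⟩

def b3190 : PLift (entF (fidx ts) 400 3190 n3190 = true) := ⟨by decide +kernel⟩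

theorem g3190 : GoodF (fidx ts) 400 3190 := GoodF.ofV v3190 n3190 c3190.down b3190.down

/-- 4677444:2453/1 -/
noncomputable def e3191 : SCfg where
  D := {
    a := 7
    L := 9
    kp := 7
    inn := [(0, 1), (1, 0), (1, 2), (1, 3), (2, 1), (2, 3), (2, 4), (2, 6), (3, 1), (3, 2), (3, 5), (3,
      6), (4, 2), (5, 3), (6, 2), (6, 3)]
    mix := [(0, 0), (0, 1), (0, 2), (1, 0), (1, 2), (1, 3), (2, 2), (2, 4), (2, 5), (3, 3), (3, 6), (3,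
      7), (4, 1), (4, 2), (4, 4), (5, 3), (5, 7), (5, 8), (6, 5), (6, 6)]
    cl := [4, 2, 0, 3, 5, 0, 1, 6, 7]
    chq := [(0, 4), (1, 3), (1, 4), (1, 7), (3, 1), (4, 0), (4, 1), (7, 1)]
    rng := [(0, 1), (0, 3), (1, 0), (1, 2), (1, 4), (2, 1), (3, 0), (3, 8), (4, 1), (4, 5), (5, 4), (5,
      6), (6, 5), (6, 7), (7, 6), (7, 8), (8, 3), (8, 7)]
    lev := [] }
  links := [[1, 7, 8, 9], [7, 0, 9, 2, 3, 10], [3, 1, 9, 4, 11, 12, 6], [10, 1, 2, 6, 13, 14, 5], [11, 2,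
    9, 8], [10, 3, 14, 15], [13, 3, 2, 12]]
  P := {
    a := 7
    N := 16
    nb := [898, 1677, 6746, 25702, 2820, 50184, 12300, 1283, 2705, 279, 32938, 4372, 10308, 20552,
      41000, 17440]
    tri := [(0, 1, 7), (0, 1, 9), (0, 7, 8), (0, 8, 9), (1, 2, 3), (1, 2, 9), (1, 3, 10), (1, 7, 10),
      (2, 3, 6), (2, 4, 9), (2, 4, 11), (2, 6, 12), (2, 11, 12), (3, 5, 10), (3, 5, 14), (3, 6,
      13), (3, 13, 14), (4, 8, 9), (4, 8, 11), (5, 10, 15), (5, 14, 15), (6, 12, 13)]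
    fin := [0, 0, 2, 3, 4, 3, 2, 0, 4, 2, 10, 11, 2, 3, 14, 15]
    chd := [(0, 2), (0, 3), (3, 15), (10, 3)]
    steps := [(0, 1), (0, 7), (2, 6), (2, 9), (2, 12), (3, 5), (3, 13), (4, 8)] }
  rep := [2, 3, 4, 10, 0, 11, 14, 15]

noncomputable def v3191 : Cov.CovD where
  P := 3
  N := 5
  pl := [1, 4, 7]
  lev := [⟨[], [], [(0, 4)], [2], [(0, 4, [0, 1]), (2, 0, [4])]⟩,
    ⟨[], [(0, 0), (0, 3), (0, 4)], [(0, 3), (0, 4), (3, 4)], [], [(0, 4, [0, 1]), (2, 0,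
      [4]), (3, 3, [1])]⟩,
    ⟨[(0, 1)], [(0, 0), (1, 0), (1, 3), (1, 4)], [(0, 0)], [5], [(2, 0, [4]), (5, 0, [4])]⟩,
    ⟨[(0, 1), (1, 2)], [(1, 0), (1, 1), (1, 3), (1, 4), (2, 0), (2, 1), (2, 3)], [(1, 3)],
      [6], [(3, 3, [1]), (6, 1, [3, 4, 7])]⟩,
    ⟨[(1, 2), (2, 3)], [(0, 0), (1, 0), (2, 0)], [], [2, 5], [(2, 0, [4])]⟩,
    ⟨[(1, 3), (2, 3)], [(1, 3), (3, 1), (3, 3), (3, 7)], [(3, 7)], [6], [(3, 3, [1]), (8,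
      7, [1])]⟩,
    ⟨[(1, 2), (1, 3), (2, 3), (2, 4), (3, 5)], [(2, 0), (2, 1), (3, 0), (3, 1), (3, 3)],
      [(0, 1)], [], [(5, 0, [4]), (6, 1, [3, 4, 7])]⟩]
  Ta := [((2, 1), 0, 2), ((5, 4), 0, 5), ((5, 6), 0, 1)]
  Tb := [((0, 1, 3), 4, 2, 3), ((1, 0, 2), 2, 4, 0), ((1, 0, 4), 2, 4, 5), ((1, 2, 4), 2, 0, 5),
    ((3, 0, 8), 3, 4, 7), ((4, 1, 5), 5, 2, 0), ((5, 4, 6), 0, 5, 1), ((6, 5, 7), 1, 0, 6),
    ((7, 6, 8), 6, 1, 7), ((8, 3, 7), 7, 3, 6)]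
  Tc := [(1, 3, 4), (1, 3, 7), (1, 4, 7), (4, 0, 1)]
  Td := [((0, 4), (2, 1), 2), ((0, 4), (5, 4), 5), ((0, 4), (5, 6), 1), ((1, 3), (6, 5), 0), ((1,
    3), (6, 7), 6), ((1, 4), (6, 5), 0), ((1, 4), (6, 7), 6), ((1, 7), (6, 5), 0), ((1, 7),
    (6, 7), 6), ((3, 1), (3, 0), 4), ((3, 1), (3, 8), 7), ((4, 0), (0, 1), 2), ((4, 0), (0,
    3), 3), ((4, 1), (0, 1), 2), ((4, 1), (0, 3), 3), ((7, 1), (8, 3), 3), ((7, 1), (8, 7),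
    6)]
  G := [[0, 0, 0x12442891224229622442858224225a122411e8444b8d188e412288874dce2,
    0x114e8444b85181e4888749828124ce2411e8444b85188e4888749128124ce2c,
    0x828182216812881228612842851224225a422114e8444b8d12444ea12284472dcea], [0,
    0x2184814814a418814418ee14182186214214a218214ce1c, 0,
    0x4218215244a184614831d2a42148c1444b8d481821cc2428448886c888749c2d,
    0x4288413244a2968214822488715a448e18282a84471d4e4444f81444e88a23]]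

noncomputable def n3191 : Ent := ⟨e3191, noF, [], [], []⟩

def c3191 : PLift (Cov.check n3191.C.D v3191 = true) := ⟨by decide +kernel⟩

def b3191 : PLift (entF (fidx ts) 400 3191 n3191 = true) := ⟨by decide +kernel⟩

theorem g3191 : GoodF (fidx ts) 400 3191 := GoodF.ofV v3191 n3191 c3191.down b3191.down

/-- 4677444:2453 -/
noncomputable def e3192 : SCfg where
  D := {
    a := 7
    L := 10
    kp := 8
    inn := [(0, 1), (1, 0), (1, 2), (1, 3), (2, 1), (2, 3), (2, 4), (2, 6), (3, 1), (3, 2), (3, 5), (3,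
      6), (4, 2), (5, 3), (6, 2), (6, 3)]
    mix := [(0, 0), (0, 1), (0, 2), (1, 0), (1, 2), (1, 3), (2, 2), (2, 4), (2, 5), (3, 3), (3, 6), (3,
      7), (4, 2), (4, 4), (4, 8), (5, 3), (5, 7), (5, 9), (6, 5), (6, 6)]
    cl := [1, 6, 0, 3, 2, 0, 5, 4, 7, 8]
    chq := [(0, 1), (0, 3), (0, 4), (1, 0), (3, 0), (3, 4), (4, 0), (4, 3)]
    rng := [(0, 1), (0, 3), (1, 0), (1, 2), (2, 1), (2, 8), (3, 0), (3, 9), (4, 5), (4, 8), (5, 4), (5,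
      6), (6, 5), (6, 7), (7, 6), (7, 9), (8, 2), (8, 4), (9, 3), (9, 7)]
    lev := [] }
  links := [[1, 7, 8, 9], [7, 0, 9, 2, 3, 10], [3, 1, 9, 4, 11, 12, 6], [10, 1, 2, 6, 13, 14, 5], [11, 2,
    9, 15], [10, 3, 14, 16], [13, 3, 2, 12]]
  P := {
    a := 7
    N := 17
    nb := [898, 1677, 6746, 25702, 35332, 82952, 12300, 1283, 641, 33047, 65706, 36884, 10308, 20552,
      73768, 2576, 17440]
    tri := [(0, 1, 7), (0, 1, 9), (0, 7, 8), (0, 8, 9), (1, 2, 3), (1, 2, 9), (1, 3, 10), (1, 7, 10),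
      (2, 3, 6), (2, 4, 9), (2, 4, 11), (2, 6, 12), (2, 11, 12), (3, 5, 10), (3, 5, 14), (3, 6,
      13), (3, 13, 14), (4, 9, 15), (4, 11, 15), (5, 10, 16), (5, 14, 16), (6, 12, 13)]
    fin := [0, 0, 2, 2, 2, 5, 2, 0, 8, 2, 10, 11, 2, 13, 5, 15, 16]
    chd := [(0, 2), (2, 5), (2, 10), (10, 5)]
    steps := [(0, 1), (0, 7), (2, 3), (2, 4), (2, 6), (2, 9), (2, 12), (5, 14)] }
  rep := [2, 0, 11, 10, 5, 13, 8, 15, 16]

noncomputable def v3192 : Cov.CovD where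
  P := 3
  N := 6
  pl := [1, 4, 6, 8, 9]
  lev := [⟨[], [], [(0, 1)], [6], [(0, 1, [0]), (2, 0, [1, 3, 4])]⟩,
    ⟨[], [(0, 0), (0, 1), (0, 3)], [(0, 1), (0, 3), (1, 3)], [], [(0, 1, [0]), (2, 0, [1,
      3, 4]), (3, 3, [0, 4])]⟩,
    ⟨[(0, 1)], [(0, 0), (1, 0), (1, 1), (1, 3)], [(0, 0)], [2], [(2, 0, [1, 3, 4]), (5, 0,
      [1, 3, 4])]⟩,
    ⟨[(0, 1), (1, 2)], [(1, 0), (1, 1), (1, 3), (1, 4), (2, 0), (2, 3), (2, 4)], [(3, 4)],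
      [5], [(3, 3, [0, 4]), (7, 4, [0, 3])]⟩,
    ⟨[(1, 2), (2, 3)], [(0, 0), (1, 0), (2, 0)], [], [2, 7], [(2, 0, [1, 3, 4])]⟩,
    ⟨[(1, 3), (2, 3)], [(1, 3), (3, 3), (3, 4)], [(3, 4)], [8], [(3, 3, [0, 4]), (7, 4, [0,
      3])]⟩,
    ⟨[(1, 2), (1, 3), (2, 3), (2, 4), (3, 5)], [(2, 0), (3, 0), (3, 3), (3, 4)], [], [5],
      [(5, 0, [1, 3, 4])]⟩]
  Ta := [((2, 1), 0, 6), ((2, 8), 0, 7), ((5, 4), 0, 2), ((5, 6), 0, 5)]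
  Tb := [((0, 1, 3), 1, 6, 3), ((1, 0, 2), 6, 1, 0), ((2, 1, 8), 0, 6, 7), ((3, 0, 9), 3, 1, 8),
    ((4, 5, 8), 2, 0, 7), ((5, 4, 6), 0, 2, 5), ((6, 5, 7), 5, 0, 4), ((7, 6, 9), 4, 5, 8),
    ((8, 2, 4), 7, 0, 2), ((9, 3, 7), 8, 3, 4)]
  Tc := [(0, 1, 3), (0, 1, 4), (0, 3, 4), (3, 0, 4), (4, 0, 3)]
  Td := [((0, 1), (2, 1), 6), ((0, 1), (2, 8), 7), ((0, 1), (5, 4), 2), ((0, 1), (5, 6), 5), ((0,
    3), (2, 1), 6), ((0, 3), (2, 8), 7), ((0, 3), (5, 4), 2), ((0, 3), (5, 6), 5), ((0, 4),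
    (2, 1), 6), ((0, 4), (2, 8), 7), ((0, 4), (5, 4), 2), ((0, 4), (5, 6), 5), ((1, 0), (0,
    1), 6), ((1, 0), (0, 3), 3), ((3, 0), (3, 0), 1), ((3, 0), (3, 9), 8), ((3, 4), (3, 0),
    1), ((3, 4), (3, 9), 8), ((4, 0), (7, 6), 5), ((4, 0), (7, 9), 8), ((4, 3), (7, 6), 5),
    ((4, 3), (7, 9), 8)]
  G := [[0, 0x66acf1148caaaf1182aaccf1184e, 0,
    0xaacbaaabc146667ac67c18c666b41cccb81c6667ccc7c18cc,
    0xc66bcccba12a6c7ccc7a12ccc6bcccba126667aca7a18cc], [0,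
    0x6ac1146ca7114aac671184c6cb1148e, 0xaaabcaab6146c67ccc7c12c1,
    0x2424c44828c8c12484c44828c8c14121c883823c24cbaaabcb42121c423823c66676487c78cd,
    0x2424a42862848a8a12424a42862848a8a1423222141a418a8cbc8cbaba21823a28191a68a784c7a5acd]]

noncomputable def n3192 : Ent := ⟨e3192, noF, [], [], [(8, 15, [1685356702439545624007900436039642273970977273354372543760013160449, 0])]⟩

def c3192 : PLift (Cov.check n3192.C.D v3192 = true) := ⟨by decide +kernel⟩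

def b3192 : PLift (entF (fidx ts) 400 3192 n3192 = true) := ⟨by decide +kernel⟩

theorem g3192 : GoodF (fidx ts) 400 3192 := GoodF.ofV v3192 n3192 c3192.down b3192.down

/-- 4677645:2454/1 -/
noncomputable def e3193 : SCfg where
  D := {
    a := 7
    L := 10
    kp := 8
    inn := [(0, 1), (0, 4), (1, 0), (1, 2), (1, 3), (1, 4), (2, 1), (2, 3), (2, 4), (2, 5), (3, 1), (3,
      2), (3, 5), (3, 6), (4, 0), (4, 1), (4, 2), (5, 2), (5, 3), (6, 3)]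
    mix := [(0, 0), (0, 1), (1, 0), (1, 2), (2, 3), (2, 4), (2, 5), (3, 2), (3, 6), (3, 7), (4, 1), (4,
      3), (4, 8), (5, 5), (5, 6), (6, 2), (6, 7), (6, 8), (6, 9)]
    cl := [1, 5, 0, 4, 7, 3, 6, 0, 2, 8]
    chq := [(0, 3), (1, 2), (1, 3), (1, 4), (1, 7), (2, 1), (3, 0), (3, 1), (4, 1), (7, 1)]
    rng := [(0, 1), (0, 2), (1, 0), (1, 8), (2, 0), (2, 9), (3, 4), (3, 8), (4, 3), (4, 5), (5, 4), (5,
      6), (6, 5), (6, 7), (7, 6), (7, 8), (8, 1), (8, 3), (8, 7), (8, 9), (9, 2), (9, 8)]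
    lev := [] }
  links := [[1, 7, 8, 4], [7, 0, 4, 2, 3, 9], [3, 1, 4, 10, 11, 12, 5], [9, 1, 2, 5, 13, 14, 6], [10, 2,
    1, 0, 8, 15], [13, 3, 2, 12], [9, 3, 14, 15, 16]]
  P := {
    a := 7
    N := 17
    nb := [402, 669, 7226, 25190, 34055, 12300, 115208, 771, 32913, 65738, 34836, 5124, 10276, 20520,
      41032, 83280, 33344]
    tri := [(0, 1, 4), (0, 1, 7), (0, 4, 8), (0, 7, 8), (1, 2, 3), (1, 2, 4), (1, 3, 9), (1, 7, 9), (2,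
      3, 5), (2, 4, 10), (2, 5, 12), (2, 10, 11), (2, 11, 12), (3, 5, 13), (3, 6, 9), (3, 6, 14),
      (3, 13, 14), (4, 8, 15), (4, 10, 15), (5, 12, 13), (6, 9, 16), (6, 14, 15), (6, 15, 16)]
    fin := [0, 0, 0, 3, 0, 5, 6, 0, 8, 3, 10, 11, 5, 13, 3, 6, 16]
    chd := [(0, 5), (0, 6), (0, 10), (0, 11), (3, 5)]
    steps := [(0, 1), (0, 2), (0, 4), (0, 7), (3, 14), (3, 9), (5, 12), (6, 15)] }
  rep := [3, 0, 6, 5, 10, 8, 13, 11, 16]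

noncomputable def v3193 : Cov.CovD where
  P := 3
  N := 6
  pl := [1, 6, 9]
  lev := [⟨[], [], [], [5], [(0, 1, [2, 3, 4, 7])]⟩,
    ⟨[], [(0, 0), (0, 1)], [(0, 1)], [], [(0, 1, [2, 3, 4, 7]), (2, 0, [3])]⟩,
    ⟨[(0, 1)], [(1, 0), (1, 1), (1, 3), (1, 4), (1, 7)], [(3, 4), (3, 7), (4, 7)], [], [(3,
      4, [1]), (4, 7, [1]), (5, 3, [0, 1])]⟩,
    ⟨[(0, 1), (1, 2)], [(1, 0), (1, 1), (2, 0), (2, 3), (2, 4), (2, 7)], [(0, 0)], [6],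
      [(2, 0, [3]), (7, 0, [3])]⟩,
    ⟨[(0, 1), (0, 2), (1, 2), (1, 3), (2, 3)], [(0, 1), (0, 2), (0, 4), (1, 0), (1, 1), (1,
      2), (1, 4), (2, 2), (2, 3), (2, 4), (2, 7)], [(2, 4)], [5], [(3, 4, [1]), (8, 2, [1])]⟩,
    ⟨[(1, 2), (1, 3), (2, 3), (2, 4)], [(2, 3), (2, 4), (2, 7), (3, 0), (3, 3)], [], [6],
      [(5, 3, [0, 1])]⟩,
    ⟨[(1, 3), (2, 3), (3, 5)], [(1, 0), (3, 0), (3, 2), (4, 2)], [(0, 0), (0, 2)], [8],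
      [(2, 0, [3]), (7, 0, [3]), (8, 2, [1])]⟩]
  Ta := [((2, 0), 0, 1), ((2, 9), 0, 8), ((7, 6), 0, 6), ((7, 8), 0, 2)]
  Tb := [((0, 1, 2), 1, 5, 0), ((1, 0, 8), 5, 1, 2), ((2, 0, 9), 0, 1, 8), ((3, 4, 8), 4, 7, 2),
    ((4, 3, 5), 7, 4, 3), ((5, 4, 6), 3, 7, 6), ((6, 5, 7), 6, 3, 0), ((7, 6, 8), 0, 6, 2),
    ((8, 1, 3), 2, 5, 4), ((8, 1, 7), 2, 5, 0), ((8, 1, 9), 2, 5, 8), ((8, 3, 7), 2, 4, 0),
    ((8, 3, 9), 2, 4, 8), ((8, 7, 9), 2, 0, 8), ((9, 2, 8), 8, 0, 2)]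
  Tc := [(1, 2, 3), (1, 2, 4), (1, 2, 7), (1, 3, 4), (1, 3, 7), (1, 4, 7), (3, 0, 1)]
  Td := [((0, 3), (2, 0), 1), ((0, 3), (2, 9), 8), ((0, 3), (7, 6), 6), ((0, 3), (7, 8), 2), ((1,
    2), (0, 1), 5), ((1, 2), (0, 2), 0), ((1, 3), (0, 1), 5), ((1, 3), (0, 2), 0), ((1, 4),
    (0, 1), 5), ((1, 4), (0, 2), 0), ((1, 7), (0, 1), 5), ((1, 7), (0, 2), 0), ((2, 1), (8,
    1), 5), ((2, 1), (8, 3), 4), ((2, 1), (8, 7), 0), ((2, 1), (8, 9), 8), ((3, 0), (5, 4),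
    7), ((3, 0), (5, 6), 6), ((3, 1), (5, 4), 7), ((3, 1), (5, 6), 6), ((4, 1), (3, 4), 7),
    ((4, 1), (3, 8), 2), ((7, 1), (4, 3), 4), ((7, 1), (4, 5), 3)]
  G := [[0, 0xc1c1c8c61441e124cc18818cce1e14a, 0, 0x212121d42212121d82c2,
    0xa12a126a1a1a4a82a1267a1a1a82c212882a12ea1a19a1a19ca45], [0, 0,
    0x6122a12261616c1c1a1ec18e612c126f81, 0x211221c22121c2222cc292,
    0xa18aaad8c21a1248a924a12aac26ba822a22a12c2a928e9a42aad38a91c24d]]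

noncomputable def n3193 : Ent := ⟨e3193, noF, [], [], []⟩

def c3193 : PLift (Cov.check n3193.C.D v3193 = true) := ⟨by decide +kernel⟩

def b3193 : PLift (entF (fidx ts) 400 3193 n3193 = true) := ⟨by decide +kernel⟩

theorem g3193 : GoodF (fidx ts) 400 3193 := GoodF.ofV v3193 n3193 c3193.down b3193.down

/-- 4677645:2454 -/
noncomputable def e3194 : SCfg where
  D := {
    a := 7
    L := 11
    kp := 9
    inn := [(0, 1), (0, 4), (1, 0), (1, 2), (1, 3), (1, 4), (2, 1), (2, 3), (2, 4), (2, 5), (3, 1), (3,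
      2), (3, 5), (3, 6), (4, 0), (4, 1), (4, 2), (5, 2), (5, 3), (6, 3)]
    mix := [(0, 0), (0, 1), (1, 0), (1, 2), (2, 3), (2, 4), (2, 5), (3, 2), (3, 6), (3, 7), (4, 1), (4,
      3), (4, 8), (5, 5), (5, 6), (6, 2), (6, 7), (6, 9), (6, 10)]
    cl := [1, 4, 0, 3, 6, 5, 2, 0, 7, 8, 9]
    chq := [(1, 2), (1, 3), (1, 7), (2, 1), (2, 3), (2, 6), (3, 1), (3, 2), (6, 2), (7, 1)]
    rng := [(0, 1), (0, 2), (1, 0), (1, 8), (2, 0), (2, 10), (3, 4), (3, 8), (4, 3), (4, 5), (5, 4),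
      (5, 6), (6, 5), (6, 7), (7, 6), (7, 9), (8, 1), (8, 3), (9, 7), (9, 10), (10, 2), (10, 9)]
    lev := [] }
  links := [[1, 7, 8, 4], [7, 0, 4, 2, 3, 9], [3, 1, 4, 10, 11, 12, 5], [9, 1, 2, 5, 13, 14, 6], [10, 2,
    1, 0, 8, 15], [13, 3, 2, 12], [9, 3, 14, 16, 17]]
  P := {
    a := 7
    N := 18
    nb := [402, 669, 7226, 25190, 34055, 12300, 213512, 771, 32913, 131274, 34836, 5124, 10276, 20520,
      73800, 1296, 147520, 66112]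
    tri := [(0, 1, 4), (0, 1, 7), (0, 4, 8), (0, 7, 8), (1, 2, 3), (1, 2, 4), (1, 3, 9), (1, 7, 9), (2,
      3, 5), (2, 4, 10), (2, 5, 12), (2, 10, 11), (2, 11, 12), (3, 5, 13), (3, 6, 9), (3, 6, 14),
      (3, 13, 14), (4, 8, 15), (4, 10, 15), (5, 12, 13), (6, 9, 17), (6, 14, 16), (6, 16, 17)]
    fin := [0, 0, 2, 0, 0, 2, 6, 0, 8, 6, 10, 11, 12, 2, 6, 15, 16, 17]
    chd := [(0, 2), (0, 10), (0, 15), (10, 2), (11, 2)]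
    steps := [(0, 1), (0, 3), (0, 4), (0, 7), (2, 5), (2, 13), (6, 14), (6, 9)] }
  rep := [6, 0, 2, 10, 8, 12, 11, 15, 16, 17]

noncomputable def v3194 : Cov.CovD where
  P := 3
  N := 7
  pl := [1, 5, 9, 10]
  lev := [⟨[], [], [], [4], [(0, 1, [2, 3, 7])]⟩,
    ⟨[], [(0, 0), (0, 1)], [(0, 1)], [], [(0, 1, [2, 3, 7]), (2, 0, [])]⟩,
    ⟨[(0, 1)], [(1, 0), (1, 1), (1, 3), (1, 6)], [(3, 6)], [5], [(3, 3, [1, 2]), (4, 6,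
      [2])]⟩,
    ⟨[(0, 1), (1, 2)], [(1, 0), (1, 1), (1, 2), (2, 0), (2, 2), (2, 3), (2, 6)], [(0, 0),
      (0, 2)], [], [(2, 0, []), (6, 2, [1, 3, 6]), (7, 0, [])]⟩,
    ⟨[(0, 1), (0, 2), (1, 2), (1, 3), (2, 3)], [(0, 1), (0, 3), (0, 7), (1, 0), (1, 1), (1,
      3), (1, 7), (2, 3), (2, 6), (2, 7)], [(3, 7)], [4], [(3, 3, [1, 2]), (8, 7, [1])]⟩,
    ⟨[(1, 2), (1, 3), (2, 3), (2, 4)], [(2, 2), (2, 3), (2, 6), (3, 0), (3, 2)], [], [5],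
      [(6, 2, [1, 3, 6])]⟩,
    ⟨[(1, 3), (2, 3), (3, 5)], [(1, 0), (3, 0), (3, 2)], [(0, 0)], [8, 9], [(2, 0, []), (7,
      0, [])]⟩]
  Ta := [((2, 0), 0, 1), ((2, 10), 0, 9), ((7, 6), 0, 2), ((7, 9), 0, 8)]
  Tb := [((0, 1, 2), 1, 4, 0), ((1, 0, 8), 4, 1, 7), ((2, 0, 10), 0, 1, 9), ((3, 4, 8), 3, 6, 7),
    ((4, 3, 5), 6, 3, 5), ((5, 4, 6), 5, 6, 2), ((6, 5, 7), 2, 5, 0), ((7, 6, 9), 0, 2, 8),
    ((8, 1, 3), 7, 4, 3), ((9, 7, 10), 8, 0, 9), ((10, 2, 9), 9, 0, 8)]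
  Tc := [(1, 2, 3), (1, 2, 7), (1, 3, 7), (2, 1, 3), (2, 1, 6), (2, 3, 6), (3, 1, 2)]
  Td := [((1, 2), (0, 1), 4), ((1, 2), (0, 2), 0), ((1, 3), (0, 1), 4), ((1, 3), (0, 2), 0), ((1,
    7), (0, 1), 4), ((1, 7), (0, 2), 0), ((2, 1), (6, 5), 5), ((2, 1), (6, 7), 0), ((2, 3),
    (6, 5), 5), ((2, 3), (6, 7), 0), ((2, 6), (6, 5), 5), ((2, 6), (6, 7), 0), ((3, 1), (3,
    4), 6), ((3, 1), (3, 8), 7), ((3, 2), (3, 4), 6), ((3, 2), (3, 8), 7), ((6, 2), (4, 3),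
    3), ((6, 2), (4, 5), 5), ((7, 1), (8, 1), 4), ((7, 1), (8, 3), 3)]
  G := [[0, 0x611881c689184ead18481a81cf4ee518e4183e81468c18c6c, 0, 0xee92428ee52824c,
    0xe12ceb62e1e8325e8e162e24a9e1e8ac2e9e8ee9ec2bf2626161788885a6c23e8a28128e1e862bc9], [0,
    0, 0xeeceece872186acee2cee4b214c, 0xea4d2428ee924285,
    0x2cebee9624e822e2e1689e8e168a38bce1e1626e9ee9e42bb2e1e862d86382e2e168a78ac9]]

noncomputable def n3194 : Ent := ⟨e3194, noF, [], [], [(15, 16, [7334685537875745012586738086077695515070955365108989538292687706755073, 0])]⟩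

def c3194 : PLift (Cov.check n3194.C.D v3194 = true) := ⟨by decide +kernel⟩

def b3194 : PLift (entF (fidx ts) 400 3194 n3194 = true) := ⟨by decide +kernel⟩

theorem g3194 : GoodF (fidx ts) 400 3194 := GoodF.ofV v3194 n3194 c3194.down b3194.down

/-- 4874644:2455 -/
noncomputable def e3195 : SCfg where
  D := {
    a := 7
    L := 11
    kp := 8
    inn := [(0, 1), (1, 0), (1, 2), (1, 4), (1, 5), (2, 1), (2, 3), (2, 4), (2, 6), (3, 2), (3, 4), (4,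
      1), (4, 2), (4, 3), (5, 1), (6, 2)]
    mix := [(0, 0), (0, 1), (0, 2), (1, 0), (1, 2), (1, 3), (1, 4), (2, 3), (2, 5), (2, 6), (3, 6), (3,
      7), (4, 4), (4, 7), (4, 8), (5, 0), (5, 4), (5, 9), (6, 3), (6, 5), (6, 10)]
    cl := [2, 6, 0, 1, 0, 3, 1, 4, 5, 7, 8]
    chq := [(0, 2), (1, 5), (2, 0), (5, 1)]
    rng := [(0, 1), (0, 9), (1, 0), (1, 2), (2, 1), (2, 3), (3, 2), (3, 10), (4, 8), (4, 9), (5, 6),
      (5, 10), (6, 5), (6, 7), (7, 6), (7, 8), (8, 4), (8, 7), (9, 0), (9, 4), (10, 3), (10, 5)]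
    lev := [] }
  links := [[1, 7, 8, 9], [7, 0, 9, 10, 2, 4, 11, 5], [4, 1, 10, 6, 12, 13, 3], [4, 2, 13, 14], [11, 1,
    2, 3, 14, 15], [7, 1, 11, 16], [12, 2, 10, 17]]
  P := {
    a := 7
    N := 18
    nb := [898, 3765, 13402, 24596, 51214, 67714, 136196, 65827, 641, 1283, 131654, 98354, 139332,
      20492, 40984, 18448, 2208, 5184]
    tri := [(0, 1, 7), (0, 1, 9), (0, 7, 8), (0, 8, 9), (1, 2, 4), (1, 2, 10), (1, 4, 11), (1, 5, 7),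
      (1, 5, 11), (1, 9, 10), (2, 3, 4), (2, 3, 13), (2, 6, 10), (2, 6, 12), (2, 12, 13), (3, 4,
      14), (3, 13, 14), (4, 11, 15), (4, 14, 15), (5, 7, 16), (5, 11, 16), (6, 10, 17), (6, 12,
      17)]
    fin := [0, 1, 2, 2, 2, 0, 2, 0, 8, 1, 2, 1, 12, 2, 14, 15, 16, 17]
    chd := [(0, 1), (2, 15)]
    steps := [(0, 7), (0, 5), (1, 9), (1, 11), (2, 3), (2, 4), (2, 6), (2, 10), (2, 13)] }
  rep := [1, 2, 0, 12, 14, 15, 8, 16, 17]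

noncomputable def v3195 : Cov.CovD where
  P := 3
  N := 6
  pl := [1, 5, 7, 9, 10]
  lev := [⟨[], [], [(0, 2)], [6], [(0, 2, [0]), (2, 0, [2])]⟩,
    ⟨[], [(0, 0), (0, 1), (0, 2)], [(0, 0), (0, 1), (0, 2), (1, 2)], [], [(0, 2, [0]), (2,
      0, [2]), (3, 1, [5]), (4, 0, [2])]⟩,
    ⟨[(0, 1)], [(1, 0), (1, 1), (1, 2)], [(1, 1)], [3], [(3, 1, [5]), (6, 1, [5])]⟩,
    ⟨[(1, 2)], [(2, 1)], [], [4], [(6, 1, [5])]⟩,
    ⟨[(0, 1), (1, 2), (1, 3), (2, 3)], [(1, 0), (1, 1), (1, 2), (1, 5), (2, 0), (2, 1), (2,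
      5), (3, 0), (3, 1), (3, 5)], [(0, 5)], [4], [(4, 0, [2]), (8, 5, [1])]⟩,
    ⟨[(0, 1), (1, 2), (1, 4)], [(0, 2), (1, 0), (1, 1), (1, 2), (4, 0)], [(0, 2)], [7],
      [(0, 2, [0]), (4, 0, [2])]⟩,
    ⟨[(1, 2), (2, 3), (2, 4)], [(1, 1), (2, 1)], [], [3, 8], [(3, 1, [5])]⟩]
  Ta := [((2, 1), 0, 6), ((2, 3), 0, 1), ((3, 2), 1, 0), ((3, 10), 1, 8), ((4, 8), 0, 5), ((4,
    9), 0, 7), ((6, 5), 1, 3), ((6, 7), 1, 4)]
  Tb := [((0, 1, 9), 2, 6, 7), ((1, 0, 2), 6, 2, 0), ((2, 1, 3), 0, 6, 1), ((3, 2, 10), 1, 0, 8),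
    ((4, 8, 9), 0, 5, 7), ((5, 6, 10), 3, 1, 8), ((6, 5, 7), 1, 3, 4), ((7, 6, 8), 4, 1, 5),
    ((8, 4, 7), 5, 0, 4), ((9, 0, 4), 7, 2, 0), ((10, 3, 5), 8, 1, 3)]
  Tc := []
  Td := [((0, 2), (2, 1), 6), ((0, 2), (2, 3), 1), ((0, 2), (4, 8), 5), ((0, 2), (4, 9), 7), ((1,
    5), (3, 2), 0), ((1, 5), (3, 10), 8), ((1, 5), (6, 5), 3), ((1, 5), (6, 7), 4), ((2, 0),
    (0, 1), 6), ((2, 0), (0, 9), 7), ((5, 1), (8, 4), 0), ((5, 1), (8, 7), 4)]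
  G := [[0, 0xe1241c1c3818212ae16141e1e42121ccc1eec1aa1a181e1e8c,
    0xcca2cca25556255c2c94ddc21ddc285ddc248ca, 0x51214c12912551249cd128d1245d1218cc,
    0xc12c129912912c58412812c12d912912c58a], [0, 0,
    0x7661232cc1c22a1825624d42422634b22263c2a2529c28d8c,
    0x3122c34a128212161e1d4c122c38212151e4521218cc,
    0x612221c21116a1255c814d1849a217164e1222a1c2121a1d8a], [0, 0,
    0xcd628d962459dc218c54a1248cdc28d9c2459da218ce, 0xddc28ddc245ddc218c1,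
    0xcca2cca2999a299a2c581], [0, 0, 0x2261cca2c22a199a2922c24d4246326348822a32c625d2628d8c,
    0x22ceac612422c99ce4526c222c8c2888cc1, 0x22442842282ca2d75a92622e2aa5dc88898885a1]]

noncomputable def n3195 : Ent := ⟨e3195, noF, [], [], []⟩

def c3195 : PLift (Cov.check n3195.C.D v3195 = true) := ⟨by decide +kernel⟩

def b3195 : PLift (entF (fidx ts) 400 3195 n3195 = true) := ⟨by decide +kernel⟩

theorem g3195 : GoodF (fidx ts) 400 3195 := GoodF.ofV v3195 n3195 c3195.down b3195.down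

/-- 4677464:2456 -/
noncomputable def e3196 : SCfg where
  D := {
    a := 7
    L := 11
    kp := 9
    inn := [(0, 1), (1, 0), (1, 2), (1, 3), (2, 1), (2, 3), (2, 4), (2, 5), (3, 1), (3, 2), (3, 5), (3,
      6), (4, 2), (4, 5), (5, 2), (5, 3), (5, 4), (6, 3)]
    mix := [(0, 0), (0, 1), (0, 2), (1, 0), (1, 2), (1, 3), (2, 2), (2, 4), (2, 5), (3, 3), (3, 6), (3,
      7), (4, 5), (4, 8), (5, 6), (5, 8), (5, 9), (6, 3), (6, 7), (6, 10)]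
    cl := [2, 8, 0, 0, 9, 1, 3, 5, 4, 6, 7]
    chq := [(0, 1), (0, 3), (0, 4), (0, 6), (1, 0), (3, 0), (3, 7), (4, 0), (6, 0), (7, 3)]
    rng := [(0, 1), (0, 3), (1, 0), (1, 2), (2, 1), (2, 4), (3, 0), (3, 10), (4, 2), (4, 5), (5, 4),
      (5, 8), (6, 7), (6, 9), (7, 6), (7, 10), (8, 5), (8, 9), (9, 6), (9, 8), (10, 3), (10, 7)]
    lev := [] }
  links := [[1, 7, 8, 9], [7, 0, 9, 2, 3, 10], [3, 1, 9, 11, 12, 4, 5], [10, 1, 2, 5, 13, 14, 6], [5, 2,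
    12, 15], [13, 3, 2, 4, 15, 16], [10, 3, 14, 17]]
  P := {
    a := 7
    N := 18
    nb := [898, 1677, 6714, 25702, 36900, 106524, 148488, 1283, 641, 2311, 131274, 4612, 34836, 81960,
      139336, 69680, 40992, 17472]
    tri := [(0, 1, 7), (0, 1, 9), (0, 7, 8), (0, 8, 9), (1, 2, 3), (1, 2, 9), (1, 3, 10), (1, 7, 10),
      (2, 3, 5), (2, 4, 5), (2, 4, 12), (2, 9, 11), (2, 11, 12), (3, 5, 13), (3, 6, 10), (3, 6,
      14), (3, 13, 14), (4, 5, 15), (4, 12, 15), (5, 13, 16), (5, 15, 16), (6, 10, 17), (6, 14,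
      17)]
    fin := [0, 1, 1, 3, 1, 1, 3, 0, 8, 1, 1, 11, 12, 3, 14, 15, 16, 17]
    chd := [(1, 3), (1, 12), (1, 15), (1, 16), (3, 17)]
    steps := [(0, 7), (1, 2), (1, 4), (1, 5), (1, 9), (1, 10), (3, 6), (3, 13)] }
  rep := [1, 12, 0, 3, 15, 14, 16, 17, 8, 11]

noncomputable def v3196 : Cov.CovD where
  P := 3
  N := 7
  pl := [0, 1, 4, 7]
  lev := [⟨[], [], [], [2, 8], [(2, 0, [1, 3, 4, 6])]⟩,
    ⟨[], [(0, 0)], [(0, 0)], [2], [(2, 0, [1, 3, 4, 6]), (3, 0, [1, 3, 4, 6])]⟩,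
    ⟨[(0, 1)], [(0, 0), (1, 0), (1, 1)], [(0, 1)], [9], [(2, 0, [1, 3, 4, 6]), (5, 1,
      [0])]⟩,
    ⟨[(0, 1), (1, 2)], [(1, 0), (1, 3), (2, 0), (2, 1), (2, 3)], [(0, 3)], [5], [(3, 0, [1,
      3, 4, 6]), (6, 3, [0, 7])]⟩,
    ⟨[(1, 2), (2, 3)], [(2, 0), (2, 1), (2, 4)], [(1, 4)], [], [(5, 1, [0]), (8, 4, [0])]⟩,
    ⟨[(1, 2), (1, 3), (2, 3), (2, 4), (3, 4)], [(2, 0), (2, 1), (2, 3), (2, 4), (2, 6), (3,
      0), (3, 3), (3, 4), (3, 6), (4, 1), (4, 3), (4, 4), (4, 6)], [(3, 4), (3, 6), (4, 6)],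
      [], [(6, 3, [0, 7]), (8, 4, [0]), (9, 6, [0])]⟩,
    ⟨[(1, 3), (2, 3), (3, 5)], [(1, 0), (3, 0), (3, 3), (3, 7)], [(0, 7)], [5], [(3, 0, [1,
      3, 4, 6]), (10, 7, [3])]⟩]
  Ta := [((2, 1), 0, 8), ((2, 4), 0, 9), ((3, 0), 0, 2), ((3, 10), 0, 7)]
  Tb := [((0, 1, 3), 2, 8, 0), ((1, 0, 2), 8, 2, 0), ((2, 1, 4), 0, 8, 9), ((3, 0, 10), 0, 2, 7),
    ((4, 2, 5), 9, 0, 1), ((5, 4, 8), 1, 9, 4), ((6, 7, 9), 3, 5, 6), ((7, 6, 10), 5, 3, 7),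
    ((8, 5, 9), 4, 1, 6), ((9, 6, 8), 6, 3, 4), ((10, 3, 7), 7, 0, 5)]
  Tc := [(0, 1, 3), (0, 1, 4), (0, 1, 6), (0, 3, 4), (0, 3, 6), (0, 4, 6), (3, 0, 7)]
  Td := [((0, 1), (2, 1), 8), ((0, 1), (2, 4), 9), ((0, 1), (3, 0), 2), ((0, 1), (3, 10), 7),
    ((0, 3), (2, 1), 8), ((0, 3), (2, 4), 9), ((0, 3), (3, 0), 2), ((0, 3), (3, 10), 7), ((0,
    4), (2, 1), 8), ((0, 4), (2, 4), 9), ((0, 4), (3, 0), 2), ((0, 4), (3, 10), 7), ((0, 6),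
    (2, 1), 8), ((0, 6), (2, 4), 9), ((0, 6), (3, 0), 2), ((0, 6), (3, 10), 7), ((1, 0), (5,
    4), 9), ((1, 0), (5, 8), 4), ((3, 0), (6, 7), 5), ((3, 0), (6, 9), 6), ((3, 7), (6, 7),
    5), ((3, 7), (6, 9), 6), ((4, 0), (8, 5), 1), ((4, 0), (8, 9), 6), ((6, 0), (9, 6), 3),
    ((6, 0), (9, 8), 4), ((7, 3), (10, 3), 0), ((7, 3), (10, 7), 5)]
  G := [[0, 0x314912611616112c14e31616118918ee81, 0,
    0x31a1951c13564311153111c518c39e511198cc21ca3543131c11191c935e31c84d111155151ca8c314121241d424a118cd,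
    0x311195191c6451453531389b58151ec111958ca511152c191c2c114535b131cc11d1c31119cca11824a13a411c2b],
    [0, 0x514a1116c111ce31283181111691c1cee41,
    0x611c11a4611a11c11ea114c6611a11c11e611a11c11ec2c,
    0x6171ca1a19c1e1ca41f4114635b1a1ce1c1c281f8c1,
    0x6171c118a39c1e1c241f411615e1a1cd1c1c681f8a1]]

noncomputable def n3196 : Ent := ⟨e3196, noF, [], [], []⟩

def c3196 : PLift (Cov.check n3196.C.D v3196 = true) := ⟨by decide +kernel⟩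

def b3196 : PLift (entF (fidx ts) 400 3196 n3196 = true) := ⟨by decide +kernel⟩

theorem g3196 : GoodF (fidx ts) 400 3196 := GoodF.ofV v3196 n3196 c3196.down b3196.down

/-- 4677447:2457 -/
noncomputable def e3197 : SCfg where
  D := {
    a := 7
    L := 11
    kp := 9
    inn := [(0, 1), (1, 0), (1, 2), (1, 3), (2, 1), (2, 3), (2, 4), (2, 6), (3, 1), (3, 2), (3, 5), (3,
      6), (4, 2), (4, 6), (5, 3), (5, 6), (6, 2), (6, 3), (6, 4), (6, 5)]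
    mix := [(0, 0), (0, 1), (0, 2), (1, 0), (1, 2), (1, 3), (2, 2), (2, 4), (2, 5), (3, 3), (3, 6), (3,
      7), (4, 5), (4, 8), (5, 6), (5, 9), (6, 8), (6, 9), (6, 10)]
    cl := [2, 7, 0, 0, 8, 1, 3, 9, 5, 4, 6]
    chq := [(0, 1), (0, 3), (1, 0), (1, 3), (1, 4), (1, 6), (3, 0), (3, 1), (4, 1), (6, 1)]
    rng := [(0, 1), (0, 3), (1, 0), (1, 2), (2, 1), (2, 4), (3, 0), (3, 7), (4, 2), (4, 5), (5, 4), (5,
      8), (6, 7), (6, 9), (7, 3), (7, 6), (8, 5), (8, 10), (9, 6), (9, 10), (10, 8), (10, 9)]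
    lev := [] }
  links := [[1, 7, 8, 9], [7, 0, 9, 2, 3, 10], [3, 1, 9, 11, 12, 4, 6], [10, 1, 2, 6, 5, 13, 14], [6, 2,
    12, 15], [13, 3, 6, 16], [16, 5, 3, 2, 4, 15, 17]]
  P := {
    a := 7
    N := 18
    nb := [898, 1677, 6746, 25702, 36932, 73800, 229436, 1283, 641, 2311, 16522, 4612, 34836, 81960,
      9224, 135248, 139360, 98368]
    tri := [(0, 1, 7), (0, 1, 9), (0, 7, 8), (0, 8, 9), (1, 2, 3), (1, 2, 9), (1, 3, 10), (1, 7, 10),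
      (2, 3, 6), (2, 4, 6), (2, 4, 12), (2, 9, 11), (2, 11, 12), (3, 5, 6), (3, 5, 13), (3, 10,
      14), (3, 13, 14), (4, 6, 15), (4, 12, 15), (5, 6, 16), (5, 13, 16), (6, 15, 17), (6, 16,
      17)]
    fin := [0, 0, 2, 2, 4, 4, 4, 0, 8, 2, 2, 11, 4, 13, 14, 15, 16, 17]
    chd := [(2, 4), (2, 13), (4, 13), (4, 16), (4, 17)]
    steps := [(0, 1), (0, 7), (2, 3), (2, 9), (2, 10), (4, 6), (4, 5), (4, 12)] }
  rep := [2, 4, 0, 13, 16, 15, 17, 8, 11, 14]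

noncomputable def v3197 : Cov.CovD where
  P := 3
  N := 7
  pl := [0, 1, 4, 7, 8]
  lev := [⟨[], [], [], [2, 7], [(2, 0, [1, 3])]⟩,
    ⟨[], [(0, 0)], [(0, 0)], [2], [(2, 0, [1, 3]), (3, 0, [1, 3])]⟩,
    ⟨[(0, 1)], [(0, 0), (1, 0), (1, 1)], [(0, 1)], [8], [(2, 0, [1, 3]), (5, 1, [0, 3, 4,
      6])]⟩,
    ⟨[(0, 1), (1, 2)], [(1, 0), (1, 3), (2, 0), (2, 1), (2, 3)], [(0, 3)], [9], [(3, 0, [1,
      3]), (6, 3, [0, 1])]⟩,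
    ⟨[(1, 2), (2, 3)], [(2, 0), (2, 1)], [], [5], [(5, 1, [0, 3, 4, 6])]⟩,
    ⟨[(1, 3), (2, 3)], [(3, 0), (3, 3), (3, 4)], [(3, 4)], [], [(6, 3, [0, 1]), (9, 4,
      [1])]⟩,
    ⟨[(1, 2), (1, 3), (2, 3), (2, 4), (2, 5), (3, 4), (3, 5), (4, 5)], [(2, 0), (2, 1), (2,
      4), (2, 6), (3, 0), (3, 3), (3, 4), (3, 6), (4, 1), (4, 4), (4, 6), (5, 3), (5, 4), (5,
      6)], [(4, 6)], [5], [(9, 4, [1]), (10, 6, [1])]⟩]
  Ta := [((2, 1), 0, 7), ((2, 4), 0, 8), ((3, 0), 0, 2), ((3, 7), 0, 9)]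
  Tb := [((0, 1, 3), 2, 7, 0), ((1, 0, 2), 7, 2, 0), ((2, 1, 4), 0, 7, 8), ((3, 0, 7), 0, 2, 9),
    ((4, 2, 5), 8, 0, 1), ((5, 4, 8), 1, 8, 5), ((6, 7, 9), 3, 9, 4), ((7, 3, 6), 9, 0, 3),
    ((8, 5, 10), 5, 1, 6), ((9, 6, 10), 4, 3, 6), ((10, 8, 9), 6, 5, 4)]
  Tc := [(0, 1, 3), (1, 0, 3), (1, 0, 4), (1, 0, 6), (1, 3, 4), (1, 3, 6), (1, 4, 6), (3, 0, 1)]
  Td := [((0, 1), (2, 1), 7), ((0, 1), (2, 4), 8), ((0, 1), (3, 0), 2), ((0, 1), (3, 7), 9), ((0,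
    3), (2, 1), 7), ((0, 3), (2, 4), 8), ((0, 3), (3, 0), 2), ((0, 3), (3, 7), 9), ((1, 0),
    (5, 4), 8), ((1, 0), (5, 8), 5), ((1, 3), (5, 4), 8), ((1, 3), (5, 8), 5), ((1, 4), (5,
    4), 8), ((1, 4), (5, 8), 5), ((1, 6), (5, 4), 8), ((1, 6), (5, 8), 5), ((3, 0), (6, 7),
    9), ((3, 0), (6, 9), 4), ((3, 1), (6, 7), 9), ((3, 1), (6, 9), 4), ((4, 1), (9, 6), 3),
    ((4, 1), (9, 10), 6), ((6, 1), (10, 8), 5), ((6, 1), (10, 9), 4)]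
  G := [[0, 0x1141111c114e112112a1181111c118ee41, 0,
    0x31a19418428741231219252152922c22eecf21129121a2222e9be148dc72112162152353112a121a2226e5fa14c186d211235226e22ae59c241acc,
    0x21123521f2911d1ce2222e5f21f252112395191ce22669fc2111162156128242d6121275212d65e2a25d21f2931219e226a9dcaa],
    [0, 0x11411261111c118118e11116112114ee81,
    0x1211211191ae12111123ac412111891123e2e2b225c452292cac2282f2246fca1c1211241111ae228af2246fc2912842292cac2c6225cc56e,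
    0x246225c8a3463c6128c23c81c424246225ca1c63ce128286c81c921339e164322255921339e1e2121a98ccd,
    0x2c6225c8a3463c612292cac81aca361c212292cac2c6225cc1a12111225e36121121335e1ec12188ab]]

noncomputable def n3197 : Ent := ⟨e3197, noF, [], [], []⟩

def c3197 : PLift (Cov.check n3197.C.D v3197 = true) := ⟨by decide +kernel⟩

def b3197 : PLift (entF (fidx ts) 400 3197 n3197 = true) := ⟨by decide +kernel⟩

theorem g3197 : GoodF (fidx ts) 400 3197 := GoodF.ofV v3197 n3197 c3197.down b3197.down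

/-- 4874456:2458/1 -/
noncomputable def e3198 : SCfg where
  D := {
    a := 7
    L := 10
    kp := 8
    inn := [(0, 1), (0, 5), (1, 0), (1, 2), (1, 4), (1, 6), (2, 1), (2, 3), (2, 4), (2, 6), (3, 2), (3,
      6), (4, 1), (4, 2), (5, 0), (6, 1), (6, 2), (6, 3)]
    mix := [(0, 0), (0, 1), (1, 0), (1, 1), (1, 2), (1, 3), (2, 4), (2, 5), (2, 6), (3, 4), (3, 7), (4,
      2), (4, 6), (5, 0), (5, 1), (5, 8), (5, 9), (6, 1), (6, 7), (6, 9)]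
    cl := [0, 0, 1, 7, 3, 6, 2, 5, 8, 4]
    chq := [(0, 1), (0, 2), (0, 3), (0, 6), (1, 0), (2, 0), (3, 0), (3, 4), (4, 3), (6, 0)]
    rng := [(0, 3), (0, 8), (1, 9), (2, 3), (2, 6), (3, 0), (3, 2), (4, 5), (4, 7), (5, 4), (5, 6), (6,
      2), (6, 5), (7, 4), (7, 9), (8, 0), (8, 9), (9, 1), (9, 7), (9, 8)]
    lev := [] }
  links := [[1, 7, 5, 8], [7, 0, 8, 6, 2, 4, 9, 10], [4, 1, 6, 3, 11, 12, 13], [11, 2, 6, 14], [9, 1, 2,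
    13], [8, 0, 7, 15, 16], [14, 3, 2, 1, 8, 16]]
  P := {
    a := 7
    N := 17
    nb := [418, 2005, 14426, 18500, 8710, 98689, 82190, 33827, 65635, 9234, 642, 20492, 10244, 4628,
      67656, 65696, 49504]
    tri := [(0, 1, 7), (0, 1, 8), (0, 5, 7), (0, 5, 8), (1, 2, 4), (1, 2, 6), (1, 4, 9), (1, 6, 8), (1,
      7, 10), (1, 9, 10), (2, 3, 6), (2, 3, 11), (2, 4, 13), (2, 11, 12), (2, 12, 13), (3, 6, 14),
      (3, 11, 14), (4, 9, 13), (5, 7, 15), (5, 8, 16), (5, 15, 16), (6, 8, 16), (6, 14, 16)]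
    fin := [0, 0, 0, 3, 0, 0, 3, 0, 0, 9, 10, 11, 12, 13, 14, 15, 3]
    chd := [(0, 9), (0, 11), (0, 12), (0, 13), (11, 3)]
    steps := [(0, 1), (0, 2), (0, 4), (0, 5), (0, 7), (0, 8), (3, 6), (3, 16)] }
  rep := [0, 9, 13, 11, 3, 14, 12, 10, 15]

noncomputable def v3198 : Cov.CovD where
  P := 3
  N := 6
  pl := [3, 7, 8]
  lev := [⟨[], [], [(0, 0)], [], [(0, 0, [1, 2, 3, 6]), (1, 0, [1, 2, 3, 6])]⟩,
    ⟨[], [(0, 0), (0, 1)], [(0, 0), (0, 1)], [7], [(0, 0, [1, 2, 3, 6]), (1, 0, [1, 2, 3,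
      6]), (2, 1, [0])]⟩,
    ⟨[(0, 1)], [(1, 0), (1, 1), (1, 2), (1, 3), (1, 6)], [(2, 3), (2, 6), (3, 6)], [], [(4,
      3, [0, 4]), (5, 6, [0]), (6, 2, [0])]⟩,
    ⟨[(1, 2)], [(2, 2), (2, 3), (2, 6)], [], [5], [(4, 3, [0, 4])]⟩,
    ⟨[(0, 1), (1, 2), (2, 3)], [(1, 0), (1, 1), (1, 2), (2, 1), (2, 2), (2, 3), (2, 6)],
      [(1, 2)], [], [(2, 1, [0]), (6, 2, [0])]⟩,
    ⟨[(0, 1)], [(0, 0), (0, 4), (1, 0)], [(0, 0), (0, 4)], [8], [(0, 0, [1, 2, 3, 6]), (1,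
      0, [1, 2, 3, 6]), (9, 4, [3])]⟩,
    ⟨[(0, 1), (1, 2), (1, 3), (1, 4), (2, 3), (2, 4)], [(0, 0), (1, 0), (1, 1), (1, 4), (2,
      0), (2, 2), (2, 3), (2, 4), (2, 6), (3, 0), (3, 3), (3, 4), (5, 0), (5, 4)], [(0, 4)],
      [5], [(1, 0, [1, 2, 3, 6]), (9, 4, [3])]⟩]
  Ta := [((0, 3), 0, 7), ((0, 8), 0, 8), ((1, 9), 0, 4)]
  Tb := [((0, 3, 8), 0, 7, 8), ((2, 3, 6), 1, 7, 2), ((3, 0, 2), 7, 0, 1), ((4, 5, 7), 3, 6, 5),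
    ((5, 4, 6), 6, 3, 2), ((6, 2, 5), 2, 1, 6), ((7, 4, 9), 5, 3, 4), ((8, 0, 9), 8, 0, 4),
    ((9, 1, 7), 4, 0, 5), ((9, 1, 8), 4, 0, 8), ((9, 7, 8), 4, 5, 8)]
  Tc := [(0, 1, 2), (0, 1, 3), (0, 1, 6), (0, 2, 3), (0, 2, 6), (0, 3, 6), (3, 0, 4)]
  Td := [((0, 1), (0, 3), 7), ((0, 1), (0, 8), 8), ((0, 1), (1, 9), 4), ((0, 2), (0, 3), 7), ((0,
    2), (0, 8), 8), ((0, 2), (1, 9), 4), ((0, 3), (0, 3), 7), ((0, 3), (0, 8), 8), ((0, 3),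
    (1, 9), 4), ((0, 6), (0, 3), 7), ((0, 6), (0, 8), 8), ((0, 6), (1, 9), 4), ((1, 0), (2,
    3), 7), ((1, 0), (2, 6), 2), ((2, 0), (6, 2), 1), ((2, 0), (6, 5), 6), ((3, 0), (4, 5),
    6), ((3, 0), (4, 7), 5), ((3, 4), (4, 5), 6), ((3, 4), (4, 7), 5), ((4, 3), (9, 1), 0),
    ((4, 3), (9, 7), 5), ((4, 3), (9, 8), 8), ((6, 0), (5, 4), 3), ((6, 0), (5, 6), 2)]
  G := [[0, 0x666481288882e4e6ee8b1884a4ae8ccce4e1e8, 0x666e8a4ae4cc2e4e1866e8aaae8cc2e8e1c2,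
    0x666e4a4ae422cccce1866e8aaae8cc2e8e1c2,
    0x866e8aaae8cc2e8e1411a111c16888e11666e8642e88a9426c8c9eb8a], [0,
    0x226e8642e8acae8b1846e8888e4e6ae8b168, 0x666e8a4ae422cccce18866e8aaae84cc82ace146,
    0x666e4a4ae4426c8cce166688caaae8cc2e8e1c2,
    0x11a111c16888e11666e8642e88a922ccc9eb8866e8aaae8cc2e8e146]]

noncomputable def n3198 : Ent := ⟨e3198, noF, [], [], []⟩

def c3198 : PLift (Cov.check n3198.C.D v3198 = true) := ⟨by decide +kernel⟩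

def b3198 : PLift (entF (fidx ts) 400 3198 n3198 = true) := ⟨by decide +kernel⟩

theorem g3198 : GoodF (fidx ts) 400 3198 := GoodF.ofV v3198 n3198 c3198.down b3198.down

/-- 4874456:2458 -/
noncomputable def e3199 : SCfg where
  D := {
    a := 7
    L := 11
    kp := 9
    inn := [(0, 1), (0, 5), (1, 0), (1, 2), (1, 4), (1, 6), (2, 1), (2, 3), (2, 4), (2, 6), (3, 2), (3,
      6), (4, 1), (4, 2), (5, 0), (6, 1), (6, 2), (6, 3)]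
    mix := [(0, 0), (0, 1), (1, 0), (1, 1), (1, 2), (1, 3), (2, 4), (2, 5), (2, 6), (3, 4), (3, 7), (4,
      2), (4, 6), (5, 0), (5, 1), (5, 8), (5, 9), (6, 1), (6, 7), (6, 10)]
    cl := [0, 0, 1, 7, 3, 5, 2, 4, 8, 9, 6]
    chq := [(0, 1), (0, 2), (0, 3), (0, 5), (1, 0), (2, 0), (3, 0), (3, 6), (5, 0), (6, 3)]
    rng := [(0, 3), (0, 8), (1, 9), (1, 10), (2, 3), (2, 6), (3, 0), (3, 2), (4, 5), (4, 7), (5, 4),
      (5, 6), (6, 2), (6, 5), (7, 4), (7, 10), (8, 0), (8, 9), (9, 1), (9, 8), (10, 1), (10, 7)]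
    lev := [] }
  links := [[1, 7, 5, 8], [7, 0, 8, 6, 2, 4, 9, 10], [4, 1, 6, 3, 11, 12, 13], [11, 2, 6, 14], [9, 1, 2,
    13], [8, 0, 7, 15, 16], [14, 3, 2, 1, 8, 17]]
  P := {
    a := 7
    N := 18
    nb := [418, 2005, 14426, 18500, 8710, 98689, 147726, 33827, 196707, 9234, 642, 20492, 10244, 4628,
      133192, 65696, 33056, 16704]
    tri := [(0, 1, 7), (0, 1, 8), (0, 5, 7), (0, 5, 8), (1, 2, 4), (1, 2, 6), (1, 4, 9), (1, 6, 8), (1,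
      7, 10), (1, 9, 10), (2, 3, 6), (2, 3, 11), (2, 4, 13), (2, 11, 12), (2, 12, 13), (3, 6, 14),
      (3, 11, 14), (4, 9, 13), (5, 7, 15), (5, 8, 16), (5, 15, 16), (6, 8, 17), (6, 14, 17)]
    fin := [0, 0, 0, 3, 0, 0, 3, 0, 0, 9, 10, 11, 12, 13, 14, 15, 16, 3]
    chd := [(0, 9), (0, 11), (0, 12), (0, 13), (11, 3)]
    steps := [(0, 1), (0, 2), (0, 4), (0, 5), (0, 7), (0, 8), (3, 6), (3, 17)] }
  rep := [0, 9, 13, 11, 14, 12, 3, 10, 15, 16]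

noncomputable def v3199 : Cov.CovD where
  P := 3
  N := 7
  pl := [3, 7, 8, 9]
  lev := [⟨[], [], [(0, 0)], [], [(0, 0, [1, 2, 3, 5]), (1, 0, [1, 2, 3, 5])]⟩,
    ⟨[], [(0, 0), (0, 1)], [(0, 0), (0, 1)], [7], [(0, 0, [1, 2, 3, 5]), (1, 0, [1, 2, 3,
      5]), (2, 1, [0])]⟩,
    ⟨[(0, 1)], [(1, 0), (1, 1), (1, 2), (1, 3), (1, 5)], [(2, 3), (2, 5), (3, 5)], [], [(4,
      3, [0, 6]), (5, 5, [0]), (6, 2, [0])]⟩,
    ⟨[(1, 2)], [(2, 2), (2, 3), (2, 5)], [], [4], [(4, 3, [0, 6])]⟩,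
    ⟨[(0, 1), (1, 2), (2, 3)], [(1, 0), (1, 1), (1, 2), (2, 1), (2, 2), (2, 3), (2, 5)],
      [(1, 2)], [], [(2, 1, [0]), (6, 2, [0])]⟩,
    ⟨[(0, 1)], [(0, 0), (1, 0)], [(0, 0)], [8, 9], [(0, 0, [1, 2, 3, 5]), (1, 0, [1, 2, 3,
      5])]⟩,
    ⟨[(0, 1), (1, 2), (1, 3), (1, 4), (2, 3), (2, 4)], [(0, 0), (1, 0), (1, 1), (1, 6), (2,
      0), (2, 2), (2, 3), (2, 5), (2, 6), (3, 0), (3, 3), (3, 6), (5, 0)], [(0, 6)], [4],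
      [(1, 0, [1, 2, 3, 5]), (10, 6, [3])]⟩]
  Ta := [((0, 3), 0, 7), ((0, 8), 0, 8), ((1, 9), 0, 9), ((1, 10), 0, 6)]
  Tb := [((0, 3, 8), 0, 7, 8), ((1, 9, 10), 0, 9, 6), ((2, 3, 6), 1, 7, 2), ((3, 0, 2), 7, 0, 1),
    ((4, 5, 7), 3, 5, 4), ((5, 4, 6), 5, 3, 2), ((6, 2, 5), 2, 1, 5), ((7, 4, 10), 4, 3, 6),
    ((8, 0, 9), 8, 0, 9), ((9, 1, 8), 9, 0, 8), ((10, 1, 7), 6, 0, 4)]
  Tc := [(0, 1, 2), (0, 1, 3), (0, 1, 5), (0, 2, 3), (0, 2, 5), (0, 3, 5), (3, 0, 6)]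
  Td := [((0, 1), (0, 3), 7), ((0, 1), (0, 8), 8), ((0, 1), (1, 9), 9), ((0, 1), (1, 10), 6),
    ((0, 2), (0, 3), 7), ((0, 2), (0, 8), 8), ((0, 2), (1, 9), 9), ((0, 2), (1, 10), 6), ((0,
    3), (0, 3), 7), ((0, 3), (0, 8), 8), ((0, 3), (1, 9), 9), ((0, 3), (1, 10), 6), ((0, 5),
    (0, 3), 7), ((0, 5), (0, 8), 8), ((0, 5), (1, 9), 9), ((0, 5), (1, 10), 6), ((1, 0), (2,
    3), 7), ((1, 0), (2, 6), 2), ((2, 0), (6, 2), 1), ((2, 0), (6, 5), 5), ((3, 0), (4, 5),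
    5), ((3, 0), (4, 7), 4), ((3, 6), (4, 5), 5), ((3, 6), (4, 7), 4), ((5, 0), (5, 4), 3),
    ((5, 0), (5, 6), 2), ((6, 3), (10, 1), 0), ((6, 3), (10, 7), 4)]
  G := [[0, 0x622e8688e4aeee4b12a2e44c4e8e6ee471a4, 0x666e822aa8ecccce4e1666e8aaae8ccce8e1c2,
    0x666e4aaae4ccce4e1666e8aaae4ccce8e1c2,
    0x111e1111e168cce11666e8666e888e9888e1488fb8666e8aaae8ccce8e146], [0,
    0x42aacc888e8eeee8d1222e8888e4eeee8b168, 0x666e4aaae444a8c8ece1666e8aaae8ccce8e1c2,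
    0x666e422aa8ecccce4e1464e22acaaae4ccce8e1c2,
    0x111e1111e16888e11666e8626e888e944c8ce9eb666e8aaae8ccce8e1c2]]

noncomputable def n3199 : Ent := ⟨e3199, noF, [], [], [(16, 17, [6903326391201334775872065844685381424292761054348340378595029942788097, 0])]⟩

def c3199 : PLift (Cov.check n3199.C.D v3199 = true) := ⟨by decide +kernel⟩

def b3199 : PLift (entF (fidx ts) 400 3199 n3199 = true) := ⟨by decide +kernel⟩

theorem g3199 : GoodF (fidx ts) 400 3199 := GoodF.ofV v3199 n3199 c3199.down b3199.down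

/-- 4677446:2459/2 -/
noncomputable def e3200 : SCfg where
  D := {
    a := 7
    L := 9
    kp := 7
    inn := [(0, 1), (0, 6), (1, 0), (1, 2), (1, 3), (1, 6), (2, 1), (2, 3), (2, 4), (2, 5), (3, 1), (3,
      2), (3, 5), (4, 2), (5, 2), (5, 3), (6, 0), (6, 1)]
    mix := [(0, 0), (0, 1), (1, 1), (1, 2), (2, 1), (2, 3), (2, 4), (3, 2), (3, 5), (3, 6), (3, 7), (4,
      0), (4, 1), (4, 3), (5, 4), (5, 5), (6, 0), (6, 2), (6, 7), (6, 8)]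
    cl := [0, 1, 0, 5, 2, 3, 6, 4, 7]
    chq := [(0, 2), (1, 2), (1, 3), (1, 4), (1, 6), (2, 0), (2, 1), (3, 1), (4, 1), (6, 1)]
    rng := [(0, 1), (0, 3), (0, 8), (1, 0), (2, 7), (3, 0), (3, 4), (4, 3), (4, 5), (5, 4), (5, 6), (6,
      5), (6, 7), (7, 2), (7, 6), (7, 8), (8, 0), (8, 7)]
    lev := [] }
  links := [[1, 6, 7, 8], [6, 0, 8, 2, 3, 9], [3, 1, 8, 4, 10, 11, 5], [9, 1, 2, 5, 12, 13, 14], [10, 2,
    8, 7], [12, 3, 2, 11], [7, 0, 1, 9, 14, 15]]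
  P := {
    a := 7
    N := 16
    nb := [450, 845, 3386, 29222, 1412, 6156, 49795, 34129, 151, 16458, 2196, 5156, 10280, 20488,
      41544, 16576]
    tri := [(0, 1, 6), (0, 1, 8), (0, 6, 7), (0, 7, 8), (1, 2, 3), (1, 2, 8), (1, 3, 9), (1, 6, 9), (2,
      3, 5), (2, 4, 8), (2, 4, 10), (2, 5, 11), (2, 10, 11), (3, 5, 12), (3, 9, 14), (3, 12, 13),
      (3, 13, 14), (4, 7, 8), (4, 7, 10), (5, 11, 12), (6, 7, 15), (6, 9, 14), (6, 14, 15)]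
    fin := [0, 1, 0, 1, 0, 1, 0, 0, 1, 0, 10, 11, 12, 13, 14, 15]
    chd := [(0, 11), (1, 11), (1, 12), (1, 13), (1, 14)]
    steps := [(0, 6), (0, 7), (0, 4), (0, 9), (1, 3), (1, 5), (1, 8), (0, 2)] }
  rep := [0, 1, 11, 12, 14, 10, 13, 15]

noncomputable def v3200 : Cov.CovD where
  P := 3
  N := 5
  pl := [3, 8]
  lev := [⟨[], [], [(0, 1)], [], [(0, 0, [2]), (1, 1, [2, 3, 4, 6])]⟩,
    ⟨[], [(0, 0), (0, 1)], [(0, 1)], [], [(1, 1, [2, 3, 4, 6]), (2, 0, [2])]⟩,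
    ⟨[(0, 1)], [(0, 1), (1, 0), (1, 1), (1, 2)], [(1, 2)], [5], [(1, 1, [2, 3, 4, 6]), (4,
      2, [0, 1])]⟩,
    ⟨[(0, 1), (1, 2)], [(1, 0), (1, 1), (1, 3), (1, 4), (1, 6), (2, 0), (2, 1), (2, 2), (2,
      3), (2, 4), (2, 6)], [(0, 3), (0, 4), (0, 6), (3, 4), (3, 6), (4, 6)], [], [(2, 0,
      [2]), (5, 3, [1]), (6, 6, [1]), (7, 4, [1])]⟩,
    ⟨[(1, 2), (2, 3)], [(0, 0), (0, 1), (1, 1), (2, 0), (2, 1), (2, 2)], [(0, 1)], [5],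
      [(0, 0, [2]), (1, 1, [2, 3, 4, 6])]⟩,
    ⟨[(1, 2), (1, 3), (2, 3), (2, 4)], [(2, 1), (2, 2), (2, 3), (3, 0), (3, 2), (3, 3), (3,
      4), (3, 6)], [(2, 3)], [], [(4, 2, [0, 1]), (5, 3, [1])]⟩,
    ⟨[(0, 1), (1, 2), (1, 3)], [(0, 0), (0, 1), (0, 4), (1, 0), (1, 1), (1, 4), (3, 0), (3,
      4), (4, 0)], [(0, 0), (0, 4)], [7], [(0, 0, [2]), (2, 0, [2]), (7, 4, [1])]⟩]
  Ta := [((0, 1), 0, 1), ((0, 3), 0, 5), ((0, 8), 0, 7), ((2, 7), 0, 4)]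
  Tb := [((0, 1, 3), 0, 1, 5), ((0, 1, 8), 0, 1, 7), ((0, 3, 8), 0, 5, 7), ((3, 0, 4), 5, 0, 2),
    ((4, 3, 5), 2, 5, 3), ((5, 4, 6), 3, 2, 6), ((6, 5, 7), 6, 3, 4), ((7, 2, 6), 4, 0, 6),
    ((7, 2, 8), 4, 0, 7), ((7, 6, 8), 4, 6, 7), ((8, 0, 7), 7, 0, 4)]
  Tc := [(1, 2, 3), (1, 2, 4), (1, 2, 6), (1, 3, 4), (1, 3, 6), (1, 4, 6), (2, 0, 1)]
  Td := [((0, 2), (0, 1), 1), ((0, 2), (0, 3), 5), ((0, 2), (0, 8), 7), ((0, 2), (2, 7), 4), ((1,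
    2), (1, 0), 0), ((1, 3), (1, 0), 0), ((1, 4), (1, 0), 0), ((1, 6), (1, 0), 0), ((2, 0),
    (4, 3), 5), ((2, 0), (4, 5), 3), ((2, 1), (4, 3), 5), ((2, 1), (4, 5), 3), ((3, 1), (5,
    4), 2), ((3, 1), (5, 6), 6), ((4, 1), (7, 2), 0), ((4, 1), (7, 6), 6), ((4, 1), (7, 8),
    7), ((6, 1), (6, 5), 3), ((6, 1), (6, 7), 4)]
  G := [[0, 0xe4e8a1e8e461c24, 0xe1424e1828c1, 0xeec22ee922584, 0xee9421ee3e8a2858], [0, 0,
    0xe182e112c18, 0xeec22148, 0xee9ee9c2148]]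

noncomputable def n3200 : Ent := ⟨e3200, noF, [], [], []⟩

def c3200 : PLift (Cov.check n3200.C.D v3200 = true) := ⟨by decide +kernel⟩

def b3200 : PLift (entF (fidx ts) 400 3200 n3200 = true) := ⟨by decide +kernel⟩

theorem g3200 : GoodF (fidx ts) 400 3200 := GoodF.ofV v3200 n3200 c3200.down b3200.down

/-- 4677446:2459/1 -/
noncomputable def e3201 : SCfg where
  D := {
    a := 7
    L := 10
    kp := 8
    inn := [(0, 1), (0, 6), (1, 0), (1, 2), (1, 3), (1, 6), (2, 1), (2, 3), (2, 4), (2, 5), (3, 1), (3,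
      2), (3, 5), (4, 2), (5, 2), (5, 3), (6, 0), (6, 1)]
    mix := [(0, 0), (0, 1), (1, 1), (1, 2), (2, 1), (2, 3), (2, 4), (3, 2), (3, 5), (3, 6), (3, 7), (4,
      0), (4, 1), (4, 3), (5, 4), (5, 5), (6, 0), (6, 2), (6, 8), (6, 9)]
    cl := [0, 1, 0, 2, 3, 4, 5, 6, 7, 8]
    chq := [(0, 3), (1, 3), (1, 4), (1, 5), (1, 6), (3, 0), (3, 1), (4, 1), (5, 1), (6, 1)]
    rng := [(0, 1), (0, 3), (0, 9), (1, 0), (2, 7), (2, 8), (3, 0), (3, 4), (4, 3), (4, 5), (5, 4), (5,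
      6), (6, 5), (6, 7), (7, 2), (7, 6), (8, 2), (8, 9), (9, 0), (9, 8)]
    lev := [] }
  links := [[1, 6, 7, 8], [6, 0, 8, 2, 3, 9], [3, 1, 8, 4, 10, 11, 5], [9, 1, 2, 5, 12, 13, 14], [10, 2,
    8, 7], [12, 3, 2, 11], [7, 0, 1, 9, 15, 16]]
  P := {
    a := 7
    N := 17
    nb := [450, 845, 3386, 29222, 1412, 6156, 98947, 66897, 151, 49226, 2196, 5156, 10280, 20488,
      8712, 66112, 32960]
    tri := [(0, 1, 6), (0, 1, 8), (0, 6, 7), (0, 7, 8), (1, 2, 3), (1, 2, 8), (1, 3, 9), (1, 6, 9), (2,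
      3, 5), (2, 4, 8), (2, 4, 10), (2, 5, 11), (2, 10, 11), (3, 5, 12), (3, 9, 14), (3, 12, 13),
      (3, 13, 14), (4, 7, 8), (4, 7, 10), (5, 11, 12), (6, 7, 16), (6, 9, 15), (6, 15, 16)]
    fin := [0, 1, 0, 1, 0, 1, 0, 0, 1, 0, 10, 11, 12, 13, 14, 15, 16]
    chd := [(0, 11), (1, 11), (1, 12), (1, 13), (1, 14)]
    steps := [(0, 6), (0, 7), (0, 4), (0, 9), (1, 3), (1, 5), (1, 8), (0, 2)] }
  rep := [0, 1, 10, 11, 12, 13, 14, 15, 16]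

noncomputable def v3201 : Cov.CovD where
  P := 3
  N := 6
  pl := [3, 8, 9]
  lev := [⟨[], [], [(0, 1)], [], [(0, 0, [3]), (1, 1, [3, 4, 5, 6])]⟩,
    ⟨[], [(0, 0), (0, 1)], [(0, 1)], [], [(1, 1, [3, 4, 5, 6]), (2, 0, [3])]⟩,
    ⟨[(0, 1)], [(0, 1), (1, 0), (1, 1), (1, 3)], [(1, 3)], [2], [(1, 1, [3, 4, 5, 6]), (4,
      3, [0, 1])]⟩,
    ⟨[(0, 1), (1, 2)], [(1, 0), (1, 1), (1, 4), (1, 5), (1, 6), (2, 0), (2, 1), (2, 3), (2,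
      4), (2, 5), (2, 6)], [(0, 4), (0, 5), (0, 6), (4, 5), (4, 6), (5, 6)], [], [(2, 0,
      [3]), (5, 4, [1]), (6, 5, [1]), (7, 6, [1])]⟩,
    ⟨[(1, 2), (2, 3)], [(0, 0), (0, 1), (1, 1), (2, 0), (2, 1), (2, 3)], [(0, 1)], [2],
      [(0, 0, [3]), (1, 1, [3, 4, 5, 6])]⟩,
    ⟨[(1, 2), (1, 3), (2, 3), (2, 4)], [(2, 1), (2, 3), (2, 4), (3, 0), (3, 3), (3, 4), (3,
      5), (3, 6)], [(3, 4)], [], [(4, 3, [0, 1]), (5, 4, [1])]⟩,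
    ⟨[(0, 1), (1, 2), (1, 3)], [(0, 0), (0, 1), (1, 0), (1, 1), (3, 0), (4, 0)], [(0, 0)],
      [7, 8], [(0, 0, [3]), (2, 0, [3])]⟩]
  Ta := [((0, 1), 0, 1), ((0, 3), 0, 2), ((0, 9), 0, 8), ((2, 7), 0, 6), ((2, 8), 0, 7)]
  Tb := [((0, 1, 3), 0, 1, 2), ((0, 1, 9), 0, 1, 8), ((0, 3, 9), 0, 2, 8), ((2, 7, 8), 0, 6, 7),
    ((3, 0, 4), 2, 0, 3), ((4, 3, 5), 3, 2, 4), ((5, 4, 6), 4, 3, 5), ((6, 5, 7), 5, 4, 6),
    ((7, 2, 6), 6, 0, 5), ((8, 2, 9), 7, 0, 8), ((9, 0, 8), 8, 0, 7)]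
  Tc := [(1, 3, 4), (1, 3, 5), (1, 3, 6), (1, 4, 5), (1, 4, 6), (1, 5, 6), (3, 0, 1)]
  Td := [((0, 3), (0, 1), 1), ((0, 3), (0, 3), 2), ((0, 3), (0, 9), 8), ((0, 3), (2, 7), 6), ((0,
    3), (2, 8), 7), ((1, 3), (1, 0), 0), ((1, 4), (1, 0), 0), ((1, 5), (1, 0), 0), ((1, 6),
    (1, 0), 0), ((3, 0), (4, 3), 2), ((3, 0), (4, 5), 4), ((3, 1), (4, 3), 2), ((3, 1), (4,
    5), 4), ((4, 1), (5, 4), 3), ((4, 1), (5, 6), 5), ((5, 1), (6, 5), 4), ((5, 1), (6, 7),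
    6), ((6, 1), (7, 2), 0), ((6, 1), (7, 6), 5)]
  G := [[0, 0xeea41ee681c28, 0xee942ee582c18, 0xeeed42148, 0xeeed82184], [0, 0, 0, 0xeeed82181,
    0xeeed82141]]

noncomputable def n3201 : Ent := ⟨e3201, noF, [], [], [(14, 15, [1685356702439545624007900436039642273970977273354372543760013197313, 0])]⟩

def c3201 : PLift (Cov.check n3201.C.D v3201 = true) := ⟨by decide +kernel⟩

def b3201 : PLift (entF (fidx ts) 400 3201 n3201 = true) := ⟨by decide +kernel⟩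

theorem g3201 : GoodF (fidx ts) 400 3201 := GoodF.ofV v3201 n3201 c3201.down b3201.down

/-- 4677446:2459/3 -/
noncomputable def e3202 : SCfg where
  D := {
    a := 7
    L := 10
    kp := 8
    inn := [(0, 1), (0, 6), (1, 0), (1, 2), (1, 3), (1, 6), (2, 1), (2, 3), (2, 4), (2, 5), (3, 1), (3,
      2), (3, 5), (4, 2), (5, 2), (5, 3), (6, 0), (6, 1)]
    mix := [(0, 0), (0, 1), (1, 1), (1, 2), (2, 1), (2, 3), (2, 4), (3, 2), (3, 5), (3, 6), (3, 7), (4,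
      1), (4, 3), (4, 8), (5, 4), (5, 5), (6, 0), (6, 2), (6, 7), (6, 9)]
    cl := [0, 1, 0, 2, 5, 3, 6, 4, 7, 8]
    chq := [(1, 2), (1, 3), (1, 4), (1, 6), (2, 1), (2, 3), (3, 1), (3, 2), (4, 1), (6, 1)]
    rng := [(0, 1), (0, 9), (1, 0), (1, 8), (2, 7), (3, 4), (3, 8), (4, 3), (4, 5), (5, 4), (5, 6), (6,
      5), (6, 7), (7, 2), (7, 6), (7, 9), (8, 1), (8, 3), (9, 0), (9, 7)]
    lev := [] }
  links := [[1, 6, 7, 8], [6, 0, 8, 2, 3, 9], [3, 1, 8, 4, 10, 11, 5], [9, 1, 2, 5, 12, 13, 14], [10, 2,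
    8, 15], [12, 3, 2, 11], [7, 0, 1, 9, 14, 16]]
  P := {
    a := 7
    N := 17
    nb := [450, 845, 3386, 29222, 34052, 6156, 82563, 65857, 32919, 16458, 34836, 5156, 10280, 20488,
      74312, 1296, 16576]
    tri := [(0, 1, 6), (0, 1, 8), (0, 6, 7), (0, 7, 8), (1, 2, 3), (1, 2, 8), (1, 3, 9), (1, 6, 9), (2,
      3, 5), (2, 4, 8), (2, 4, 10), (2, 5, 11), (2, 10, 11), (3, 5, 12), (3, 9, 14), (3, 12, 13),
      (3, 13, 14), (4, 8, 15), (4, 10, 15), (5, 11, 12), (6, 7, 16), (6, 9, 14), (6, 14, 16)]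
    fin := [0, 1, 2, 1, 1, 2, 0, 0, 1, 0, 2, 11, 12, 13, 14, 15, 16]
    chd := [(1, 2), (1, 12), (1, 13), (1, 14), (2, 12)]
    steps := [(0, 6), (0, 7), (0, 9), (1, 3), (1, 8), (1, 4), (2, 5), (2, 10)] }
  rep := [0, 1, 2, 12, 14, 11, 13, 15, 16]

noncomputable def v3202 : Cov.CovD where
  P := 3
  N := 6
  pl := [4, 8, 9]
  lev := [⟨[], [], [(0, 1)], [], [(0, 0, []), (1, 1, [2, 3, 4, 6])]⟩,
    ⟨[], [(0, 0), (0, 1)], [(0, 1)], [], [(1, 1, [2, 3, 4, 6]), (2, 0, [])]⟩,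
    ⟨[(0, 1)], [(0, 1), (1, 0), (1, 1), (1, 2)], [(1, 2)], [5], [(1, 1, [2, 3, 4, 6]), (3,
      2, [1, 3])]⟩,
    ⟨[(0, 1), (1, 2)], [(1, 0), (1, 1), (1, 3), (1, 4), (1, 6), (2, 0), (2, 1), (2, 2), (2,
      3), (2, 4), (2, 6)], [(0, 3), (0, 4), (0, 6), (3, 4), (3, 6), (4, 6)], [], [(2, 0, []),
      (5, 3, [1, 2]), (6, 6, [1]), (7, 4, [1])]⟩,
    ⟨[(1, 2), (2, 3)], [(0, 1), (1, 1), (2, 1), (2, 2)], [(1, 2)], [7], [(1, 1, [2, 3, 4,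
      6]), (3, 2, [1, 3])]⟩,
    ⟨[(1, 2), (1, 3), (2, 3), (2, 4)], [(2, 1), (2, 2), (2, 3), (3, 0), (3, 3), (3, 4), (3,
      6)], [], [5], [(5, 3, [1, 2])]⟩,
    ⟨[(0, 1), (1, 2), (1, 3)], [(0, 0), (0, 1), (0, 4), (1, 0), (1, 1), (1, 4), (3, 0), (3,
      4)], [(0, 0), (0, 4)], [8], [(0, 0, []), (2, 0, []), (7, 4, [1])]⟩]
  Ta := [((0, 1), 0, 1), ((0, 9), 0, 8), ((2, 7), 0, 4)]
  Tb := [((0, 1, 9), 0, 1, 8), ((1, 0, 8), 1, 0, 7), ((3, 4, 8), 2, 5, 7), ((4, 3, 5), 5, 2, 3),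
    ((5, 4, 6), 3, 5, 6), ((6, 5, 7), 6, 3, 4), ((7, 2, 6), 4, 0, 6), ((7, 2, 9), 4, 0, 8),
    ((7, 6, 9), 4, 6, 8), ((8, 1, 3), 7, 1, 2), ((9, 0, 7), 8, 0, 4)]
  Tc := [(1, 2, 3), (1, 2, 4), (1, 2, 6), (1, 3, 4), (1, 3, 6), (1, 4, 6), (2, 1, 3), (3, 1, 2)]
  Td := [((1, 2), (1, 0), 0), ((1, 2), (1, 8), 7), ((1, 3), (1, 0), 0), ((1, 3), (1, 8), 7), ((1,
    4), (1, 0), 0), ((1, 4), (1, 8), 7), ((1, 6), (1, 0), 0), ((1, 6), (1, 8), 7), ((2, 1),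
    (3, 4), 5), ((2, 1), (3, 8), 7), ((2, 3), (3, 4), 5), ((2, 3), (3, 8), 7), ((3, 1), (5,
    4), 5), ((3, 1), (5, 6), 6), ((3, 2), (5, 4), 5), ((3, 2), (5, 6), 6), ((4, 1), (7, 2),
    0), ((4, 1), (7, 6), 6), ((4, 1), (7, 9), 8), ((6, 1), (6, 5), 3), ((6, 1), (6, 7), 4)]
  G := [[0, 0xee6eeeec1eeae2c1c28, 0xe1e1e8e2e2e2ee5e2c18, 0xe2e2c2e2e252584,
    0xc43eece2b212a5821e26ee5928d4], [0, 0, 0x6634288ed8e3c2c6e38896ece28c1,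
    0x6212e28292e28252d81, 0xe4eeed92eeede492948]]

noncomputable def n3202 : Ent := ⟨e3202, noF, [], [], [(7, 15, [1685356702439545624007900436039642273970977273354372543760013197313, 0])]⟩

def c3202 : PLift (Cov.check n3202.C.D v3202 = true) := ⟨by decide +kernel⟩

def b3202 : PLift (entF (fidx ts) 400 3202 n3202 = true) := ⟨by decide +kernel⟩

theorem g3202 : GoodF (fidx ts) 400 3202 := GoodF.ofV v3202 n3202 c3202.down b3202.down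

/-- 4677446:2459 -/
noncomputable def e3203 : SCfg where
  D := {
    a := 7
    L := 11
    kp := 9
    inn := [(0, 1), (0, 6), (1, 0), (1, 2), (1, 3), (1, 6), (2, 1), (2, 3), (2, 4), (2, 5), (3, 1), (3,
      2), (3, 5), (4, 2), (5, 2), (5, 3), (6, 0), (6, 1)]
    mix := [(0, 0), (0, 1), (1, 1), (1, 2), (2, 1), (2, 3), (2, 4), (3, 2), (3, 5), (3, 6), (3, 7), (4,
      1), (4, 3), (4, 8), (5, 4), (5, 5), (6, 0), (6, 2), (6, 9), (6, 10)]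
    cl := [0, 1, 0, 2, 4, 3, 5, 6, 7, 8, 9]
    chq := [(1, 2), (1, 3), (1, 5), (1, 6), (2, 1), (2, 3), (3, 1), (3, 2), (5, 1), (6, 1)]
    rng := [(0, 1), (0, 10), (1, 0), (1, 8), (2, 7), (2, 9), (3, 4), (3, 8), (4, 3), (4, 5), (5, 4),
      (5, 6), (6, 5), (6, 7), (7, 2), (7, 6), (8, 1), (8, 3), (9, 2), (9, 10), (10, 0), (10, 9)]
    lev := [] }
  links := [[1, 6, 7, 8], [6, 0, 8, 2, 3, 9], [3, 1, 8, 4, 10, 11, 5], [9, 1, 2, 5, 12, 13, 14], [10, 2,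
    8, 15], [12, 3, 2, 11], [7, 0, 1, 9, 16, 17]]
  P := {
    a := 7
    N := 18
    nb := [450, 845, 3386, 29222, 34052, 6156, 197251, 131393, 32919, 81994, 34836, 5156, 10280,
      20488, 8712, 1296, 131648, 65728]
    tri := [(0, 1, 6), (0, 1, 8), (0, 6, 7), (0, 7, 8), (1, 2, 3), (1, 2, 8), (1, 3, 9), (1, 6, 9), (2,
      3, 5), (2, 4, 8), (2, 4, 10), (2, 5, 11), (2, 10, 11), (3, 5, 12), (3, 9, 14), (3, 12, 13),
      (3, 13, 14), (4, 8, 15), (4, 10, 15), (5, 11, 12), (6, 7, 17), (6, 9, 16), (6, 16, 17)]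
    fin := [0, 1, 2, 1, 1, 2, 0, 0, 1, 0, 2, 11, 12, 13, 14, 15, 16, 17]
    chd := [(1, 2), (1, 12), (1, 13), (1, 14), (2, 12)]
    steps := [(0, 6), (0, 7), (0, 9), (1, 3), (1, 8), (1, 4), (2, 5), (2, 10)] }
  rep := [0, 1, 2, 12, 11, 13, 14, 15, 16, 17]

noncomputable def v3203 : Cov.CovD where
  P := 3
  N := 7
  pl := [4, 8, 9, 10]
  lev := [⟨[], [], [(0, 1)], [], [(0, 0, []), (1, 1, [2, 3, 5, 6])]⟩,
    ⟨[], [(0, 0), (0, 1)], [(0, 1)], [], [(1, 1, [2, 3, 5, 6]), (2, 0, [])]⟩,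
    ⟨[(0, 1)], [(0, 1), (1, 0), (1, 1), (1, 2)], [(1, 2)], [4], [(1, 1, [2, 3, 5, 6]), (3,
      2, [1, 3])]⟩,
    ⟨[(0, 1), (1, 2)], [(1, 0), (1, 1), (1, 3), (1, 5), (1, 6), (2, 0), (2, 1), (2, 2), (2,
      3), (2, 5), (2, 6)], [(0, 3), (0, 5), (0, 6), (3, 5), (3, 6), (5, 6)], [], [(2, 0, []),
      (5, 3, [1, 2]), (6, 5, [1]), (7, 6, [1])]⟩,
    ⟨[(1, 2), (2, 3)], [(0, 1), (1, 1), (2, 1), (2, 2)], [(1, 2)], [7], [(1, 1, [2, 3, 5,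
      6]), (3, 2, [1, 3])]⟩,
    ⟨[(1, 2), (1, 3), (2, 3), (2, 4)], [(2, 1), (2, 2), (2, 3), (3, 0), (3, 3), (3, 5), (3,
      6)], [], [4], [(5, 3, [1, 2])]⟩,
    ⟨[(0, 1), (1, 2), (1, 3)], [(0, 0), (0, 1), (1, 0), (1, 1), (3, 0)], [(0, 0)], [8, 9],
      [(0, 0, []), (2, 0, [])]⟩]
  Ta := [((0, 1), 0, 1), ((0, 10), 0, 9), ((2, 7), 0, 6), ((2, 9), 0, 8)]
  Tb := [((0, 1, 10), 0, 1, 9), ((1, 0, 8), 1, 0, 7), ((2, 7, 9), 0, 6, 8), ((3, 4, 8), 2, 4, 7),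
    ((4, 3, 5), 4, 2, 3), ((5, 4, 6), 3, 4, 5), ((6, 5, 7), 5, 3, 6), ((7, 2, 6), 6, 0, 5),
    ((8, 1, 3), 7, 1, 2), ((9, 2, 10), 8, 0, 9), ((10, 0, 9), 9, 0, 8)]
  Tc := [(1, 2, 3), (1, 2, 5), (1, 2, 6), (1, 3, 5), (1, 3, 6), (1, 5, 6), (2, 1, 3), (3, 1, 2)]
  Td := [((1, 2), (1, 0), 0), ((1, 2), (1, 8), 7), ((1, 3), (1, 0), 0), ((1, 3), (1, 8), 7), ((1,
    5), (1, 0), 0), ((1, 5), (1, 8), 7), ((1, 6), (1, 0), 0), ((1, 6), (1, 8), 7), ((2, 1),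
    (3, 4), 4), ((2, 1), (3, 8), 7), ((2, 3), (3, 4), 4), ((2, 3), (3, 8), 7), ((3, 1), (5,
    4), 4), ((3, 1), (5, 6), 5), ((3, 2), (5, 4), 4), ((3, 2), (5, 6), 5), ((5, 1), (6, 5),
    3), ((5, 1), (6, 7), 6), ((6, 1), (7, 2), 0), ((6, 1), (7, 6), 5)]
  G := [[0, 0xeeeee2c14e2eeeec18c2, 0xe1eeedc2eeede1c2c14, 0x6242e282e212d82428c4,
    0xe4eece2b2ee6e1e4b2948], [0, 0, 0xc1ce5c284eeed4e348e2421a2cc28cc, 0xe2e2c2e2e292941,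
    0xee5eeed92eece492941]]

noncomputable def n3203 : Ent := ⟨e3203, noF, [], [], [(7, 15, [7334790850167413569773436004105379185503274260204390087403942017765377, 0]), (14, 16, [7334685537875745012586738086077695515070955365108989538292687706791937, 0])]⟩

def c3203 : PLift (Cov.check n3203.C.D v3203 = true) := ⟨by decide +kernel⟩

def b3203 : PLift (entF (fidx ts) 400 3203 n3203 = true) := ⟨by decide +kernel⟩

theorem g3203 : GoodF (fidx ts) 400 3203 := GoodF.ofV v3203 n3203 c3203.down b3203.down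

/-- 4677445:2460/2 -/
noncomputable def e3204 : SCfg where
  D := {
    a := 7
    L := 9
    kp := 6
    inn := [(0, 1), (0, 6), (1, 0), (1, 2), (1, 3), (2, 1), (2, 3), (2, 4), (2, 5), (3, 1), (3, 2), (3,
      5), (4, 2), (5, 2), (5, 3), (6, 0)]
    mix := [(0, 0), (0, 1), (1, 0), (1, 1), (1, 2), (2, 1), (2, 3), (2, 4), (3, 2), (3, 5), (3, 6), (3,
      7), (4, 1), (4, 3), (4, 8), (5, 4), (5, 5), (6, 0), (6, 1), (6, 7), (6, 8)]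
    cl := [0, 0, 1, 4, 2, 1, 6, 5, 3]
    chq := [(0, 2), (2, 0), (2, 3), (3, 2)]
    rng := [(0, 2), (0, 7), (1, 8), (2, 0), (2, 7), (3, 4), (3, 8), (4, 3), (4, 5), (5, 4), (5, 6), (6,
      5), (6, 7), (7, 0), (7, 2), (7, 6), (7, 8), (8, 1), (8, 3), (8, 7)]
    lev := [] }
  links := [[1, 7, 6, 8], [7, 0, 8, 2, 3, 9], [3, 1, 8, 4, 10, 11, 5], [9, 1, 2, 5, 12, 13, 14], [10, 2,
    8, 15], [12, 3, 2, 11], [8, 0, 7, 14, 15]]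
  P := {
    a := 7
    N := 16
    nb := [450, 909, 3386, 29222, 34052, 6156, 49537, 16963, 32855, 16522, 34836, 5156, 10280, 20488,
      41672, 17744]
    tri := [(0, 1, 7), (0, 1, 8), (0, 6, 7), (0, 6, 8), (1, 2, 3), (1, 2, 8), (1, 3, 9), (1, 7, 9), (2,
      3, 5), (2, 4, 8), (2, 4, 10), (2, 5, 11), (2, 10, 11), (3, 5, 12), (3, 9, 14), (3, 12, 13),
      (3, 13, 14), (4, 8, 15), (4, 10, 15), (5, 11, 12), (6, 7, 14), (6, 8, 15), (6, 14, 15)]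
    fin := [0, 0, 2, 3, 4, 2, 0, 0, 0, 3, 10, 2, 3, 13, 14, 4]
    chd := [(0, 2), (2, 4)]
    steps := [(0, 1), (0, 6), (0, 7), (0, 8), (2, 5), (2, 11), (3, 12), (3, 9), (4, 15)] }
  rep := [0, 3, 2, 4, 10, 14, 13]

noncomputable def v3204 : Cov.CovD where
  P := 3
  N := 4
  pl := [3, 6, 7]
  lev := [⟨[], [], [(0, 0)], [], [(0, 0, [2]), (1, 0, [2])]⟩,
    ⟨[], [(0, 0), (0, 1)], [(0, 0), (0, 1)], [], [(0, 0, [2]), (1, 0, [2]), (2, 1, [])]⟩,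
    ⟨[(0, 1)], [(0, 0), (1, 0), (1, 1), (1, 2)], [(0, 2)], [4], [(1, 0, [2]), (4, 2, [0,
      3])]⟩,
    ⟨[(0, 1), (1, 2)], [(1, 0), (1, 1), (2, 0), (2, 1), (2, 2)], [(1, 1)], [5, 6], [(2, 1,
      []), (5, 1, [])]⟩,
    ⟨[(1, 2), (2, 3)], [(0, 0), (1, 0), (2, 0), (2, 2), (2, 3)], [(0, 3)], [4], [(1, 0,
      [2]), (8, 3, [2])]⟩,
    ⟨[(1, 2), (1, 3), (2, 3), (2, 4)], [(2, 0), (2, 1), (2, 2), (3, 1), (3, 2)], [(1, 2)],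
      [], [(4, 2, [0, 3]), (5, 1, [])]⟩,
    ⟨[(0, 1)], [(0, 0), (0, 3), (1, 0), (2, 0), (4, 0), (4, 3)], [(0, 0), (0, 3)], [5],
      [(0, 0, [2]), (1, 0, [2]), (8, 3, [2])]⟩]
  Ta := [((0, 2), 0, 1), ((0, 7), 0, 5), ((1, 8), 0, 3), ((2, 0), 1, 0), ((2, 7), 1, 5), ((5, 4),
    1, 2), ((5, 6), 1, 6)]
  Tb := [((0, 2, 7), 0, 1, 5), ((2, 0, 7), 1, 0, 5), ((3, 4, 8), 4, 2, 3), ((4, 3, 5), 2, 4, 1),
    ((5, 4, 6), 1, 2, 6), ((6, 5, 7), 6, 1, 5), ((7, 0, 2), 5, 0, 1), ((7, 0, 6), 5, 0, 6),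
    ((7, 0, 8), 5, 0, 3), ((7, 2, 6), 5, 1, 6), ((7, 2, 8), 5, 1, 3), ((7, 6, 8), 5, 6, 3),
    ((8, 1, 3), 3, 0, 4), ((8, 1, 7), 3, 0, 5), ((8, 3, 7), 3, 4, 5)]
  Tc := [(2, 0, 3)]
  Td := [((0, 2), (0, 2), 1), ((0, 2), (0, 7), 5), ((0, 2), (1, 8), 3), ((2, 0), (4, 3), 4), ((2,
    0), (4, 5), 1), ((2, 3), (4, 3), 4), ((2, 3), (4, 5), 1), ((3, 2), (8, 1), 0), ((3, 2),
    (8, 3), 4), ((3, 2), (8, 7), 5)]
  G := [[0, 0xe422116e4e43e8121246ee428d84, 0xa11681e41da21e219482154e48, 0,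
    0x411e2458128a41486e11da848b48], [0, 0, 0xa11681e41da41611e81da42,
    0x212212282d212211211dc28, 0xa14418e14d28883482e11d4844b42], [0, 0,
    0xa21681e21da11681e81da42, 0, 0xa144248cc161cd888828e41416c8616da48], [0, 0,
    0x641e415a41681e81d248138e84, 0x212282242d282212242dc28,
    0xa12164121cc128cd88a8c41416c1286da48]]

noncomputable def n3204 : Ent := ⟨e3204, noF, [], [], []⟩

def c3204 : PLift (Cov.check n3204.C.D v3204 = true) := ⟨by decide +kernel⟩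

def b3204 : PLift (entF (fidx ts) 400 3204 n3204 = true) := ⟨by decide +kernel⟩

theorem g3204 : GoodF (fidx ts) 400 3204 := GoodF.ofV v3204 n3204 c3204.down b3204.down

/-- 4677445:2460/1 -/
noncomputable def e3205 : SCfg where
  D := {
    a := 7
    L := 10
    kp := 7
    inn := [(0, 1), (0, 6), (1, 0), (1, 2), (1, 3), (2, 1), (2, 3), (2, 4), (2, 5), (3, 1), (3, 2), (3,
      5), (4, 2), (5, 2), (5, 3), (6, 0)]
    mix := [(0, 0), (0, 1), (1, 0), (1, 1), (1, 2), (2, 1), (2, 3), (2, 4), (3, 2), (3, 5), (3, 6), (3,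
      7), (4, 1), (4, 3), (4, 8), (5, 4), (5, 5), (6, 0), (6, 1), (6, 7), (6, 9)]
    cl := [0, 0, 1, 4, 3, 1, 6, 2, 5, 7]
    chq := [(0, 3), (3, 0), (3, 5), (5, 3)]
    rng := [(0, 2), (0, 7), (1, 8), (1, 9), (2, 0), (2, 7), (3, 4), (3, 8), (4, 3), (4, 5), (5, 4), (5,
      6), (6, 5), (6, 7), (7, 0), (7, 2), (7, 6), (7, 9), (8, 1), (8, 3), (9, 1), (9, 7)]
    lev := [] }
  links := [[1, 7, 6, 8], [7, 0, 8, 2, 3, 9], [3, 1, 8, 4, 10, 11, 5], [9, 1, 2, 5, 12, 13, 14], [10, 2,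
    8, 15], [12, 3, 2, 11], [8, 0, 7, 14, 16]]
  P := {
    a := 7
    N := 17
    nb := [450, 909, 3386, 29222, 34052, 6156, 82305, 16963, 98391, 16522, 34836, 5156, 10280, 20488,
      74440, 1296, 16704]
    tri := [(0, 1, 7), (0, 1, 8), (0, 6, 7), (0, 6, 8), (1, 2, 3), (1, 2, 8), (1, 3, 9), (1, 7, 9), (2,
      3, 5), (2, 4, 8), (2, 4, 10), (2, 5, 11), (2, 10, 11), (3, 5, 12), (3, 9, 14), (3, 12, 13),
      (3, 13, 14), (4, 8, 15), (4, 10, 15), (5, 11, 12), (6, 7, 14), (6, 8, 16), (6, 14, 16)]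
    fin := [0, 0, 2, 3, 4, 2, 0, 0, 0, 3, 10, 2, 3, 13, 14, 4, 16]
    chd := [(0, 2), (2, 4)]
    steps := [(0, 1), (0, 6), (0, 7), (0, 8), (2, 5), (2, 11), (3, 12), (3, 9), (4, 15)] }
  rep := [0, 3, 14, 2, 10, 4, 13, 16]

noncomputable def v3205 : Cov.CovD where
  P := 3
  N := 5
  pl := [3, 6, 7, 9]
  lev := [⟨[], [], [(0, 0)], [], [(0, 0, [3]), (1, 0, [3])]⟩,
    ⟨[], [(0, 0), (0, 1)], [(0, 0), (0, 1)], [], [(0, 0, [3]), (1, 0, [3]), (2, 1, [])]⟩,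
    ⟨[(0, 1)], [(0, 0), (1, 0), (1, 1), (1, 3)], [(0, 3)], [4], [(1, 0, [3]), (4, 3, [0,
      5])]⟩,
    ⟨[(0, 1), (1, 2)], [(1, 0), (1, 1), (2, 0), (2, 1), (2, 3)], [(1, 1)], [2, 6], [(2, 1,
      []), (5, 1, [])]⟩,
    ⟨[(1, 2), (2, 3)], [(0, 0), (1, 0), (2, 0), (2, 3), (2, 5)], [(0, 5)], [4], [(1, 0,
      [3]), (8, 5, [3])]⟩,
    ⟨[(1, 2), (1, 3), (2, 3), (2, 4)], [(2, 0), (2, 1), (2, 3), (3, 1), (3, 3)], [(1, 3)],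
      [], [(4, 3, [0, 5]), (5, 1, [])]⟩,
    ⟨[(0, 1)], [(0, 0), (1, 0), (2, 0), (4, 0)], [(0, 0)], [2, 7], [(0, 0, [3]), (1, 0,
      [3])]⟩]
  Ta := [((0, 2), 0, 1), ((0, 7), 0, 2), ((1, 8), 0, 5), ((1, 9), 0, 7), ((2, 0), 1, 0), ((2, 7),
    1, 2), ((5, 4), 1, 3), ((5, 6), 1, 6)]
  Tb := [((0, 2, 7), 0, 1, 2), ((1, 8, 9), 0, 5, 7), ((2, 0, 7), 1, 0, 2), ((3, 4, 8), 4, 3, 5),
    ((4, 3, 5), 3, 4, 1), ((5, 4, 6), 1, 3, 6), ((6, 5, 7), 6, 1, 2), ((7, 0, 2), 2, 0, 1),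
    ((7, 0, 6), 2, 0, 6), ((7, 0, 9), 2, 0, 7), ((7, 2, 6), 2, 1, 6), ((7, 2, 9), 2, 1, 7),
    ((7, 6, 9), 2, 6, 7), ((8, 1, 3), 5, 0, 4), ((9, 1, 7), 7, 0, 2)]
  Tc := [(3, 0, 5)]
  Td := [((0, 3), (0, 2), 1), ((0, 3), (0, 7), 2), ((0, 3), (1, 8), 5), ((0, 3), (1, 9), 7), ((3,
    0), (4, 3), 4), ((3, 0), (4, 5), 1), ((3, 5), (4, 3), 4), ((3, 5), (4, 5), 1), ((5, 3),
    (8, 1), 0), ((5, 3), (8, 3), 4)]
  G := [[0, 0xc1c16c1c13cc1c19c11cc11c1c1cce24, 0x61a1661a16c62a2ca2c2cc348,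
    0xc11c845c28c289c11c1c15ce42, 0xa48a219a11a1a1c96a14a2198c2], [0, 0,
    0x612618c4a11614cc14a11ca48a82cbc2, 0, 0xa1a46a819a11a1a8a9a1a19a1a459e42], [0, 0, 0,
    0xc24c245c28c289c1c1c1ec1c1c1ece48, 0xa24a2a2c9a18a289a1a1a1ea4a1a1a4f9e48], [0, 0, 0, 0,
    0xa1a4aa4a4a9a1a1a1eaacaa9c96a1a46a8a8698c4]]

noncomputable def n3205 : Ent := ⟨e3205, noF, [], [], [(16, 15, [1685356702439545624007900436039642273970977273354372543760013213697, 0])]⟩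

def c3205 : PLift (Cov.check n3205.C.D v3205 = true) := ⟨by decide +kernel⟩

def b3205 : PLift (entF (fidx ts) 400 3205 n3205 = true) := ⟨by decide +kernel⟩

theorem g3205 : GoodF (fidx ts) 400 3205 := GoodF.ofV v3205 n3205 c3205.down b3205.down

/-- 4677445:2460/3 -/
noncomputable def e3206 : SCfg where
  D := {
    a := 7
    L := 10
    kp := 7
    inn := [(0, 1), (0, 6), (1, 0), (1, 2), (1, 3), (2, 1), (2, 3), (2, 4), (2, 5), (3, 1), (3, 2), (3,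
      5), (4, 2), (5, 2), (5, 3), (6, 0)]
    mix := [(0, 0), (0, 1), (1, 0), (1, 1), (1, 2), (2, 1), (2, 3), (2, 4), (3, 2), (3, 5), (3, 6), (3,
      7), (4, 1), (4, 3), (4, 8), (5, 4), (5, 5), (6, 0), (6, 1), (6, 8), (6, 9)]
    cl := [0, 0, 1, 4, 2, 1, 5, 6, 3, 7]
    chq := [(0, 2), (2, 0), (2, 3), (3, 2)]
    rng := [(0, 2), (0, 9), (1, 8), (2, 0), (2, 7), (3, 4), (3, 8), (4, 3), (4, 5), (5, 4), (5, 6), (6,
      5), (6, 7), (7, 2), (7, 6), (8, 1), (8, 3), (8, 9), (9, 0), (9, 8)]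
    lev := [] }
  links := [[1, 7, 6, 8], [7, 0, 8, 2, 3, 9], [3, 1, 8, 4, 10, 11, 5], [9, 1, 2, 5, 12, 13, 14], [10, 2,
    8, 15], [12, 3, 2, 11], [8, 0, 7, 16, 15]]
  P := {
    a := 7
    N := 17
    nb := [450, 909, 3386, 29222, 34052, 6156, 98689, 66115, 32855, 16522, 34836, 5156, 10280, 20488,
      8712, 66896, 32960]
    tri := [(0, 1, 7), (0, 1, 8), (0, 6, 7), (0, 6, 8), (1, 2, 3), (1, 2, 8), (1, 3, 9), (1, 7, 9), (2,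
      3, 5), (2, 4, 8), (2, 4, 10), (2, 5, 11), (2, 10, 11), (3, 5, 12), (3, 9, 14), (3, 12, 13),
      (3, 13, 14), (4, 8, 15), (4, 10, 15), (5, 11, 12), (6, 7, 16), (6, 8, 15), (6, 15, 16)]
    fin := [0, 0, 2, 3, 4, 2, 0, 0, 0, 3, 10, 2, 3, 13, 14, 4, 16]
    chd := [(0, 2), (2, 4)]
    steps := [(0, 1), (0, 6), (0, 7), (0, 8), (2, 5), (2, 11), (3, 12), (3, 9), (4, 15)] }
  rep := [0, 3, 2, 4, 10, 13, 14, 16]

noncomputable def v3206 : Cov.CovD where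
  P := 3
  N := 5
  pl := [3, 6, 7, 9]
  lev := [⟨[], [], [(0, 0)], [], [(0, 0, [2]), (1, 0, [2])]⟩,
    ⟨[], [(0, 0), (0, 1)], [(0, 0), (0, 1)], [], [(0, 0, [2]), (1, 0, [2]), (2, 1, [])]⟩,
    ⟨[(0, 1)], [(0, 0), (1, 0), (1, 1), (1, 2)], [(0, 2)], [4], [(1, 0, [2]), (4, 2, [0,
      3])]⟩,
    ⟨[(0, 1), (1, 2)], [(1, 0), (1, 1), (2, 0), (2, 1), (2, 2)], [(1, 1)], [5, 6], [(2, 1,
      []), (5, 1, [])]⟩,
    ⟨[(1, 2), (2, 3)], [(0, 0), (1, 0), (2, 0), (2, 2), (2, 3)], [(0, 3)], [4], [(1, 0,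
      [2]), (8, 3, [2])]⟩,
    ⟨[(1, 2), (1, 3), (2, 3), (2, 4)], [(2, 0), (2, 1), (2, 2), (3, 1), (3, 2)], [(1, 2)],
      [], [(4, 2, [0, 3]), (5, 1, [])]⟩,
    ⟨[(0, 1)], [(0, 0), (0, 3), (1, 0), (2, 0), (4, 0), (4, 3)], [(0, 0), (0, 3)], [7],
      [(0, 0, [2]), (1, 0, [2]), (8, 3, [2])]⟩]
  Ta := [((0, 2), 0, 1), ((0, 9), 0, 7), ((1, 8), 0, 3), ((2, 0), 1, 0), ((2, 7), 1, 6), ((5, 4),
    1, 2), ((5, 6), 1, 5)]
  Tb := [((0, 2, 9), 0, 1, 7), ((2, 0, 7), 1, 0, 6), ((3, 4, 8), 4, 2, 3), ((4, 3, 5), 2, 4, 1),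
    ((5, 4, 6), 1, 2, 5), ((6, 5, 7), 5, 1, 6), ((7, 2, 6), 6, 1, 5), ((8, 1, 3), 3, 0, 4),
    ((8, 1, 9), 3, 0, 7), ((8, 3, 9), 3, 4, 7), ((9, 0, 8), 7, 0, 3)]
  Tc := [(2, 0, 3)]
  Td := [((0, 2), (0, 2), 1), ((0, 2), (0, 9), 7), ((0, 2), (1, 8), 3), ((2, 0), (4, 3), 4), ((2,
    0), (4, 5), 1), ((2, 3), (4, 3), 4), ((2, 3), (4, 5), 1), ((3, 2), (8, 1), 0), ((3, 2),
    (8, 3), 4), ((3, 2), (8, 9), 7)]
  G := [[0, 0xe12e8141a85e4e418461ae42e8a4, 0xe21e215e11e11e41de418e82, 0,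
    0xe24e245c1216e11e81dae1188c2], [0, 0, 0xe41e81e81de11e81e81dc24,
    0xe41e82e82de12e81e12dc24, 0xe14c1689e14de1168c83e11da42], [0, 0,
    0xe21e81e21de11e81e81d684, 0, 0xe14c261cc262cdc8c161ec1686c8616da42], [0, 0,
    0xe1181689e81de41e11e41da48, 0xe12e82e42de42e82e42dc24,
    0xe14c16861ec161cdc8c161ee14c8686da48]]

noncomputable def n3206 : Ent := ⟨e3206, noF, [], [], [(16, 14, [1580095832788404724998799751142926758855362888449624481876431880193, 0])]⟩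

def c3206 : PLift (Cov.check n3206.C.D v3206 = true) := ⟨by decide +kernel⟩

def b3206 : PLift (entF (fidx ts) 400 3206 n3206 = true) := ⟨by decide +kernel⟩

theorem g3206 : GoodF (fidx ts) 400 3206 := GoodF.ofV v3206 n3206 c3206.down b3206.down

/-- 4677445:2460 -/
noncomputable def e3207 : SCfg where
  D := {
    a := 7
    L := 11
    kp := 8
    inn := [(0, 1), (0, 6), (1, 0), (1, 2), (1, 3), (2, 1), (2, 3), (2, 4), (2, 5), (3, 1), (3, 2), (3,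
      5), (4, 2), (5, 2), (5, 3), (6, 0)]
    mix := [(0, 0), (0, 1), (1, 0), (1, 1), (1, 2), (2, 1), (2, 3), (2, 4), (3, 2), (3, 5), (3, 6), (3,
      7), (4, 1), (4, 3), (4, 8), (5, 4), (5, 5), (6, 0), (6, 1), (6, 9), (6, 10)]
    cl := [0, 0, 1, 3, 2, 1, 5, 6, 4, 7, 8]
    chq := [(0, 2), (2, 0), (2, 4), (4, 2)]
    rng := [(0, 2), (0, 9), (1, 8), (1, 10), (2, 0), (2, 7), (3, 4), (3, 8), (4, 3), (4, 5), (5, 4),
      (5, 6), (6, 5), (6, 7), (7, 2), (7, 6), (8, 1), (8, 3), (9, 0), (9, 10), (10, 1), (10, 9)]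
    lev := [] }
  links := [[1, 7, 6, 8], [7, 0, 8, 2, 3, 9], [3, 1, 8, 4, 10, 11, 5], [9, 1, 2, 5, 12, 13, 14], [10, 2,
    8, 15], [12, 3, 2, 11], [8, 0, 7, 16, 17]]
  P := {
    a := 7
    N := 18
    nb := [450, 909, 3386, 29222, 34052, 6156, 196993, 66115, 163927, 16522, 34836, 5156, 10280,
      20488, 8712, 1296, 131264, 65856]
    tri := [(0, 1, 7), (0, 1, 8), (0, 6, 7), (0, 6, 8), (1, 2, 3), (1, 2, 8), (1, 3, 9), (1, 7, 9), (2,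
      3, 5), (2, 4, 8), (2, 4, 10), (2, 5, 11), (2, 10, 11), (3, 5, 12), (3, 9, 14), (3, 12, 13),
      (3, 13, 14), (4, 8, 15), (4, 10, 15), (5, 11, 12), (6, 7, 16), (6, 8, 17), (6, 16, 17)]
    fin := [0, 0, 2, 3, 4, 2, 0, 0, 0, 3, 10, 2, 3, 13, 14, 4, 16, 17]
    chd := [(0, 2), (2, 4)]
    steps := [(0, 1), (0, 6), (0, 7), (0, 8), (2, 5), (2, 11), (3, 12), (3, 9), (4, 15)] }
  rep := [0, 3, 2, 10, 4, 13, 14, 16, 17]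

noncomputable def v3207 : Cov.CovD where
  P := 3
  N := 6
  pl := [3, 6, 7, 9, 10]
  lev := [⟨[], [], [(0, 0)], [], [(0, 0, [2]), (1, 0, [2])]⟩,
    ⟨[], [(0, 0), (0, 1)], [(0, 0), (0, 1)], [], [(0, 0, [2]), (1, 0, [2]), (2, 1, [])]⟩,
    ⟨[(0, 1)], [(0, 0), (1, 0), (1, 1), (1, 2)], [(0, 2)], [3], [(1, 0, [2]), (4, 2, [0,
      4])]⟩,
    ⟨[(0, 1), (1, 2)], [(1, 0), (1, 1), (2, 0), (2, 1), (2, 2)], [(1, 1)], [5, 6], [(2, 1,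
      []), (5, 1, [])]⟩,
    ⟨[(1, 2), (2, 3)], [(0, 0), (1, 0), (2, 0), (2, 2), (2, 4)], [(0, 4)], [3], [(1, 0,
      [2]), (8, 4, [2])]⟩,
    ⟨[(1, 2), (1, 3), (2, 3), (2, 4)], [(2, 0), (2, 1), (2, 2), (3, 1), (3, 2)], [(1, 2)],
      [], [(4, 2, [0, 4]), (5, 1, [])]⟩,
    ⟨[(0, 1)], [(0, 0), (1, 0), (2, 0), (4, 0)], [(0, 0)], [7, 8], [(0, 0, [2]), (1, 0,
      [2])]⟩]
  Ta := [((0, 2), 0, 1), ((0, 9), 0, 7), ((1, 8), 0, 4), ((1, 10), 0, 8), ((2, 0), 1, 0), ((2,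
    7), 1, 6), ((5, 4), 1, 2), ((5, 6), 1, 5)]
  Tb := [((0, 2, 9), 0, 1, 7), ((1, 8, 10), 0, 4, 8), ((2, 0, 7), 1, 0, 6), ((3, 4, 8), 3, 2, 4),
    ((4, 3, 5), 2, 3, 1), ((5, 4, 6), 1, 2, 5), ((6, 5, 7), 5, 1, 6), ((7, 2, 6), 6, 1, 5),
    ((8, 1, 3), 4, 0, 3), ((9, 0, 10), 7, 0, 8), ((10, 1, 9), 8, 0, 7)]
  Tc := [(2, 0, 4)]
  Td := [((0, 2), (0, 2), 1), ((0, 2), (0, 9), 7), ((0, 2), (1, 8), 4), ((0, 2), (1, 10), 8),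
    ((2, 0), (4, 3), 3), ((2, 0), (4, 5), 1), ((2, 4), (4, 3), 3), ((2, 4), (4, 5), 1), ((4,
    2), (8, 1), 0), ((4, 2), (8, 3), 3)]
  G := [[0, 0xe11e42e82ee42e11e81ec28, 0xe11e81e81de11e81e81da48, 0, 0xe14e11e81de11e84e14da48],
    [0, 0, 0xe41e41e41de11e81e81dc24, 0xe42e82e42de12e12e82dc24, 0xe11e81e81de84e14e14da48],
    [0, 0, 0xe21e21e81de11e219e814e48, 0, 0xe14e1e8ce1e2cde1e8e1ee1e86e8e86da48], [0, 0,
    0xe11e11e81de41e41e81d682, 0xe42e42e82de12e82e42dc24,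
    0xe14e1e1ce1e8cde8e8e8ee1e86e1e16da48]]

noncomputable def n3207 : Ent := ⟨e3207, noF, [], [], [(16, 14, [7334685589297762428874426903420482469988158645819485339342058436448257, 0]), (17, 15, [6903537015784671890245461680740748765157398844539141476817538564775937, 0])]⟩

def c3207 : PLift (Cov.check n3207.C.D v3207 = true) := ⟨by decide +kernel⟩

def b3207 : PLift (entF (fidx ts) 400 3207 n3207 = true) := ⟨by decide +kernel⟩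

theorem g3207 : GoodF (fidx ts) 400 3207 := GoodF.ofV v3207 n3207 c3207.down b3207.down

/-- 4677445:2461/2 -/
noncomputable def e3208 : SCfg where
  D := {
    a := 7
    L := 9
    kp := 7
    inn := [(0, 1), (0, 6), (1, 0), (1, 2), (1, 3), (2, 1), (2, 3), (2, 4), (3, 1), (3, 2), (3, 4), (3,
      5), (4, 2), (4, 3), (5, 3), (6, 0)]
    mix := [(0, 0), (0, 1), (1, 0), (1, 1), (1, 2), (2, 1), (2, 3), (2, 4), (2, 5), (3, 2), (3, 6), (3,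
      7), (4, 5), (4, 6), (5, 2), (5, 7), (5, 8), (6, 0), (6, 1), (6, 3), (6, 8)]
    cl := [0, 0, 1, 3, 7, 4, 2, 6, 5]
    chq := [(1, 2), (1, 3), (1, 4), (1, 7), (2, 1), (2, 5), (3, 1), (4, 1), (5, 2), (7, 1)]
    rng := [(0, 2), (0, 8), (1, 3), (2, 0), (2, 8), (3, 1), (3, 4), (3, 8), (4, 3), (4, 5), (5, 4), (5,
      6), (6, 5), (6, 7), (7, 6), (7, 8), (8, 0), (8, 2), (8, 3), (8, 7)]
    lev := [] }
  links := [[1, 7, 6, 8], [7, 0, 8, 2, 3, 9], [3, 1, 8, 10, 11, 12, 4], [9, 1, 2, 4, 13, 14, 5], [13, 3,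
    2, 12], [9, 3, 14, 15], [8, 0, 7, 15, 10]]
  P := {
    a := 7
    N := 16
    nb := [450, 909, 7450, 25142, 12300, 49672, 34177, 33347, 1095, 32938, 35140, 5124, 10260, 20504,
      41000, 18144]
    tri := [(0, 1, 7), (0, 1, 8), (0, 6, 7), (0, 6, 8), (1, 2, 3), (1, 2, 8), (1, 3, 9), (1, 7, 9), (2,
      3, 4), (2, 4, 12), (2, 8, 10), (2, 10, 11), (2, 11, 12), (3, 4, 13), (3, 5, 9), (3, 5, 14),
      (3, 13, 14), (4, 12, 13), (5, 9, 15), (5, 14, 15), (6, 7, 15), (6, 8, 10), (6, 10, 15)]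
    fin := [0, 1, 1, 3, 4, 3, 0, 0, 0, 1, 10, 11, 12, 4, 14, 3]
    chd := [(1, 4), (1, 10), (1, 11), (1, 12), (4, 3)]
    steps := [(0, 6), (0, 7), (0, 8), (1, 2), (1, 9), (3, 5), (3, 15), (4, 13)] }
  rep := [0, 1, 4, 10, 12, 3, 14, 11]

noncomputable def v3208 : Cov.CovD where
  P := 3
  N := 5
  pl := [7]
  lev := [⟨[], [], [(0, 0)], [], [(0, 0, []), (1, 0, [])]⟩,
    ⟨[], [(0, 0), (0, 1)], [(0, 0), (0, 1)], [], [(0, 0, []), (1, 0, []), (2, 1, [2, 3, 4,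
      7])]⟩,
    ⟨[(0, 1)], [(0, 0), (1, 0), (1, 1), (1, 3), (1, 4), (1, 7)], [(0, 3), (0, 4), (0, 7),
      (3, 4), (3, 7), (4, 7)], [], [(1, 0, []), (3, 3, [1]), (4, 7, [1]), (5, 4, [1])]⟩,
    ⟨[(0, 1), (1, 2)], [(1, 0), (1, 1), (1, 2), (2, 0), (2, 1), (2, 2), (2, 3), (2, 4), (2,
      7)], [(1, 2)], [6], [(2, 1, [2, 3, 4, 7]), (6, 2, [1, 5])]⟩,
    ⟨[(1, 2), (1, 3), (2, 3)], [(2, 0), (2, 2), (2, 3), (2, 4), (2, 7), (3, 1), (3, 2), (3,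
      4)], [(2, 4)], [], [(5, 4, [1]), (6, 2, [1, 5])]⟩,
    ⟨[(1, 3), (2, 3), (3, 4)], [(1, 1), (3, 1), (3, 2), (3, 5)], [(1, 5)], [6], [(2, 1, [2,
      3, 4, 7]), (8, 5, [2])]⟩,
    ⟨[(0, 1)], [(0, 0), (0, 3), (0, 5), (1, 0), (2, 0), (2, 3), (5, 5)], [(0, 0), (0, 3),
      (0, 5), (3, 5)], [], [(0, 0, []), (1, 0, []), (3, 3, [1]), (8, 5, [2])]⟩]
  Ta := [((0, 2), 0, 1), ((0, 8), 0, 5), ((1, 3), 0, 3)]
  Tb := [((0, 2, 8), 0, 1, 5), ((2, 0, 8), 1, 0, 5), ((3, 1, 4), 3, 0, 7), ((3, 1, 8), 3, 0, 5),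
    ((3, 4, 8), 3, 7, 5), ((4, 3, 5), 7, 3, 4), ((5, 4, 6), 4, 7, 2), ((6, 5, 7), 2, 4, 6),
    ((7, 6, 8), 6, 2, 5), ((8, 0, 2), 5, 0, 1), ((8, 0, 3), 5, 0, 3), ((8, 0, 7), 5, 0, 6),
    ((8, 2, 3), 5, 1, 3), ((8, 2, 7), 5, 1, 6), ((8, 3, 7), 5, 3, 6)]
  Tc := [(1, 2, 3), (1, 2, 4), (1, 2, 7), (1, 3, 4), (1, 3, 7), (1, 4, 7), (2, 1, 5)]
  Td := [((1, 2), (2, 0), 0), ((1, 2), (2, 8), 5), ((1, 3), (2, 0), 0), ((1, 3), (2, 8), 5), ((1,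
    4), (2, 0), 0), ((1, 4), (2, 8), 5), ((1, 7), (2, 0), 0), ((1, 7), (2, 8), 5), ((2, 1),
    (6, 5), 4), ((2, 1), (6, 7), 6), ((2, 5), (6, 5), 4), ((2, 5), (6, 7), 6), ((3, 1), (3,
    1), 0), ((3, 1), (3, 4), 7), ((3, 1), (3, 8), 5), ((4, 1), (5, 4), 7), ((4, 1), (5, 6),
    2), ((5, 2), (8, 0), 0), ((5, 2), (8, 2), 1), ((5, 2), (8, 3), 3), ((5, 2), (8, 7), 6),
    ((7, 1), (4, 3), 3), ((7, 1), (4, 5), 4)]
  G := [[0, 0xe2a66eca6aee2cc124, 0x2224482984ee5866dc2e92c2224bc8, 0x228221224d242,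
    0xc6ede4912e4c66d982c2], [0, 0, 0xe24426e5866d28eae9e1ac2c2, 0x221224218d284,
    0xe4866d9e1e499242]]

noncomputable def n3208 : Ent := ⟨e3208, noF, [], [], []⟩

def c3208 : PLift (Cov.check n3208.C.D v3208 = true) := ⟨by decide +kernel⟩

def b3208 : PLift (entF (fidx ts) 400 3208 n3208 = true) := ⟨by decide +kernel⟩

theorem g3208 : GoodF (fidx ts) 400 3208 := GoodF.ofV v3208 n3208 c3208.down b3208.down

/-- 4677445:2461/1 -/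
noncomputable def e3209 : SCfg where
  D := {
    a := 7
    L := 10
    kp := 8
    inn := [(0, 1), (0, 6), (1, 0), (1, 2), (1, 3), (2, 1), (2, 3), (2, 4), (3, 1), (3, 2), (3, 4), (3,
      5), (4, 2), (4, 3), (5, 3), (6, 0)]
    mix := [(0, 0), (0, 1), (1, 0), (1, 1), (1, 2), (2, 1), (2, 3), (2, 4), (2, 5), (3, 2), (3, 6), (3,
      7), (4, 5), (4, 6), (5, 2), (5, 7), (5, 8), (6, 0), (6, 1), (6, 8), (6, 9)]
    cl := [0, 0, 1, 6, 7, 4, 3, 5, 2, 8]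
    chq := [(1, 3), (1, 4), (1, 6), (1, 7), (2, 3), (3, 1), (3, 2), (4, 1), (6, 1), (7, 1)]
    rng := [(0, 2), (0, 8), (1, 3), (1, 9), (2, 0), (2, 8), (3, 1), (3, 4), (4, 3), (4, 5), (5, 4), (5,
      6), (6, 5), (6, 7), (7, 6), (7, 8), (8, 0), (8, 2), (8, 7), (8, 9), (9, 1), (9, 8)]
    lev := [] }
  links := [[1, 7, 6, 8], [7, 0, 8, 2, 3, 9], [3, 1, 8, 10, 11, 12, 4], [9, 1, 2, 4, 13, 14, 5], [13, 3,
    2, 12], [9, 3, 14, 15], [8, 0, 7, 15, 16]]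
  P := {
    a := 7
    N := 17
    nb := [450, 909, 7450, 25142, 12300, 49672, 98689, 33347, 66631, 32938, 2308, 5124, 10260, 20504,
      41000, 82656, 33088]
    tri := [(0, 1, 7), (0, 1, 8), (0, 6, 7), (0, 6, 8), (1, 2, 3), (1, 2, 8), (1, 3, 9), (1, 7, 9), (2,
      3, 4), (2, 4, 12), (2, 8, 10), (2, 10, 11), (2, 11, 12), (3, 4, 13), (3, 5, 9), (3, 5, 14),
      (3, 13, 14), (4, 12, 13), (5, 9, 15), (5, 14, 15), (6, 7, 15), (6, 8, 16), (6, 15, 16)]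
    fin := [0, 1, 1, 3, 4, 3, 0, 0, 0, 1, 10, 11, 12, 4, 14, 3, 16]
    chd := [(1, 4), (1, 10), (1, 11), (1, 12), (4, 3)]
    steps := [(0, 6), (0, 7), (0, 8), (1, 2), (1, 9), (3, 5), (3, 15), (4, 13)] }
  rep := [0, 1, 3, 4, 12, 14, 10, 11, 16]

noncomputable def v3209 : Cov.CovD where
  P := 3
  N := 6
  pl := [7, 9]
  lev := [⟨[], [], [(0, 0)], [], [(0, 0, []), (1, 0, [])]⟩,
    ⟨[], [(0, 0), (0, 1)], [(0, 0), (0, 1)], [], [(0, 0, []), (1, 0, []), (2, 1, [3, 4, 6,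
      7])]⟩,
    ⟨[(0, 1)], [(0, 0), (1, 0), (1, 1), (1, 4), (1, 6), (1, 7)], [(0, 4), (0, 6), (0, 7),
      (4, 6), (4, 7), (6, 7)], [], [(1, 0, []), (3, 6, [1]), (4, 7, [1]), (5, 4, [1])]⟩,
    ⟨[(0, 1), (1, 2)], [(1, 0), (1, 1), (1, 3), (2, 0), (2, 1), (2, 3), (2, 4), (2, 6), (2,
      7)], [(1, 3)], [5], [(2, 1, [3, 4, 6, 7]), (6, 3, [1, 2])]⟩,
    ⟨[(1, 2), (1, 3), (2, 3)], [(2, 0), (2, 3), (2, 4), (2, 6), (2, 7), (3, 1), (3, 3), (3,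
      4)], [(3, 4)], [], [(5, 4, [1]), (6, 3, [1, 2])]⟩,
    ⟨[(1, 3), (2, 3), (3, 4)], [(1, 1), (3, 1), (3, 2), (3, 3)], [(1, 2)], [5], [(2, 1, [3,
      4, 6, 7]), (8, 2, [3])]⟩,
    ⟨[(0, 1)], [(0, 0), (0, 2), (1, 0), (2, 0), (5, 2)], [(0, 0), (0, 2)], [8], [(0, 0,
      []), (1, 0, []), (8, 2, [3])]⟩]
  Ta := [((0, 2), 0, 1), ((0, 8), 0, 2), ((1, 3), 0, 6), ((1, 9), 0, 8)]
  Tb := [((0, 2, 8), 0, 1, 2), ((1, 3, 9), 0, 6, 8), ((2, 0, 8), 1, 0, 2), ((3, 1, 4), 6, 0, 7),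
    ((4, 3, 5), 7, 6, 4), ((5, 4, 6), 4, 7, 3), ((6, 5, 7), 3, 4, 5), ((7, 6, 8), 5, 3, 2),
    ((8, 0, 2), 2, 0, 1), ((8, 0, 7), 2, 0, 5), ((8, 0, 9), 2, 0, 8), ((8, 2, 7), 2, 1, 5),
    ((8, 2, 9), 2, 1, 8), ((8, 7, 9), 2, 5, 8), ((9, 1, 8), 8, 0, 2)]
  Tc := [(1, 3, 4), (1, 3, 6), (1, 3, 7), (1, 4, 6), (1, 4, 7), (1, 6, 7), (3, 1, 2)]
  Td := [((1, 3), (2, 0), 0), ((1, 3), (2, 8), 2), ((1, 4), (2, 0), 0), ((1, 4), (2, 8), 2), ((1,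
    6), (2, 0), 0), ((1, 6), (2, 8), 2), ((1, 7), (2, 0), 0), ((1, 7), (2, 8), 2), ((2, 3),
    (8, 0), 0), ((2, 3), (8, 2), 1), ((2, 3), (8, 7), 5), ((2, 3), (8, 9), 8), ((3, 1), (6,
    5), 4), ((3, 1), (6, 7), 5), ((3, 2), (6, 5), 4), ((3, 2), (6, 7), 5), ((4, 1), (5, 4),
    7), ((4, 1), (5, 6), 3), ((6, 1), (3, 1), 0), ((6, 1), (3, 4), 7), ((7, 1), (4, 3), 6),
    ((7, 1), (4, 5), 4)]
  G := [[0, 0xc8c86ccccccccce61c4c8a81a4, 0xaaca6caacd1248, 0xc82cc92c12d248,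
    0xaa9aa9aa9d42a1a8ca1a8592c4], [0, 0, 0, 0xc42c1252c8282c2,
    0xaa9aa9aa9d42a1a8ca1a8592c2]]

noncomputable def n3209 : Ent := ⟨e3209, noF, [], [], [(16, 10, [1580044410770988437858045522355060435978463990222429564876676956161, 0])]⟩

def c3209 : PLift (Cov.check n3209.C.D v3209 = true) := ⟨by decide +kernel⟩

def b3209 : PLift (entF (fidx ts) 400 3209 n3209 = true) := ⟨by decide +kernel⟩

theorem g3209 : GoodF (fidx ts) 400 3209 := GoodF.ofV v3209 n3209 c3209.down b3209.down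

/-- 4677445:2461/3 -/
noncomputable def e3210 : SCfg where
  D := {
    a := 7
    L := 10
    kp := 8
    inn := [(0, 1), (0, 6), (1, 0), (1, 2), (1, 3), (2, 1), (2, 3), (2, 4), (3, 1), (3, 2), (3, 4), (3,
      5), (4, 2), (4, 3), (5, 3), (6, 0)]
    mix := [(0, 0), (0, 1), (1, 0), (1, 1), (1, 2), (2, 1), (2, 3), (2, 4), (2, 5), (3, 2), (3, 6), (3,
      7), (4, 5), (4, 6), (5, 2), (5, 7), (5, 8), (6, 0), (6, 1), (6, 3), (6, 9)]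
    cl := [0, 0, 1, 3, 6, 4, 2, 5, 7, 8]
    chq := [(1, 2), (1, 3), (1, 4), (1, 6), (2, 1), (2, 7), (3, 1), (4, 1), (6, 1), (7, 2)]
    rng := [(0, 2), (0, 9), (1, 3), (2, 0), (2, 8), (3, 1), (3, 4), (3, 9), (4, 3), (4, 5), (5, 4), (5,
      6), (6, 5), (6, 7), (7, 6), (7, 8), (8, 2), (8, 7), (9, 0), (9, 3)]
    lev := [] }
  links := [[1, 7, 6, 8], [7, 0, 8, 2, 3, 9], [3, 1, 8, 10, 11, 12, 4], [9, 1, 2, 4, 13, 14, 5], [13, 3,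
    2, 12], [9, 3, 14, 15], [8, 0, 7, 16, 10]]
  P := {
    a := 7
    N := 17
    nb := [450, 909, 7450, 25142, 12300, 49672, 66945, 66115, 1095, 32938, 67908, 5124, 10260, 20504,
      41000, 16928, 1216]
    tri := [(0, 1, 7), (0, 1, 8), (0, 6, 7), (0, 6, 8), (1, 2, 3), (1, 2, 8), (1, 3, 9), (1, 7, 9), (2,
      3, 4), (2, 4, 12), (2, 8, 10), (2, 10, 11), (2, 11, 12), (3, 4, 13), (3, 5, 9), (3, 5, 14),
      (3, 13, 14), (4, 12, 13), (5, 9, 15), (5, 14, 15), (6, 7, 16), (6, 8, 10), (6, 10, 16)]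
    fin := [0, 1, 1, 3, 4, 3, 0, 0, 0, 1, 10, 11, 4, 3, 14, 15, 16]
    chd := [(1, 3), (1, 4), (1, 10), (1, 11), (3, 15)]
    steps := [(0, 6), (0, 7), (0, 8), (1, 2), (1, 9), (3, 5), (3, 13), (4, 12)] }
  rep := [0, 1, 3, 10, 4, 14, 11, 15, 16]

noncomputable def v3210 : Cov.CovD where
  P := 3
  N := 6
  pl := [7, 9]
  lev := [⟨[], [], [(0, 0)], [], [(0, 0, []), (1, 0, [])]⟩,
    ⟨[], [(0, 0), (0, 1)], [(0, 0), (0, 1)], [], [(0, 0, []), (1, 0, []), (2, 1, [2, 3, 4,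
      6])]⟩,
    ⟨[(0, 1)], [(0, 0), (1, 0), (1, 1), (1, 3), (1, 4), (1, 6)], [(0, 3), (0, 4), (0, 6),
      (3, 4), (3, 6), (4, 6)], [], [(1, 0, []), (3, 3, [1]), (4, 6, [1]), (5, 4, [1])]⟩,
    ⟨[(0, 1), (1, 2)], [(1, 0), (1, 1), (1, 2), (2, 0), (2, 1), (2, 2), (2, 3), (2, 4), (2,
      6)], [(1, 2)], [5], [(2, 1, [2, 3, 4, 6]), (6, 2, [1, 7])]⟩,
    ⟨[(1, 2), (1, 3), (2, 3)], [(2, 0), (2, 2), (2, 3), (2, 4), (2, 6), (3, 1), (3, 2), (3,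
      4)], [(2, 4)], [], [(5, 4, [1]), (6, 2, [1, 7])]⟩,
    ⟨[(1, 3), (2, 3), (3, 4)], [(1, 1), (3, 1), (3, 2), (3, 7)], [(1, 7)], [5], [(2, 1, [2,
      3, 4, 6]), (8, 7, [2])]⟩,
    ⟨[(0, 1)], [(0, 0), (0, 3), (1, 0), (2, 0), (2, 3)], [(0, 0), (0, 3)], [8], [(0, 0,
      []), (1, 0, []), (3, 3, [1])]⟩]
  Ta := [((0, 2), 0, 1), ((0, 9), 0, 8), ((1, 3), 0, 3)]
  Tb := [((0, 2, 9), 0, 1, 8), ((2, 0, 8), 1, 0, 7), ((3, 1, 4), 3, 0, 6), ((3, 1, 9), 3, 0, 8),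
    ((3, 4, 9), 3, 6, 8), ((4, 3, 5), 6, 3, 4), ((5, 4, 6), 4, 6, 2), ((6, 5, 7), 2, 4, 5),
    ((7, 6, 8), 5, 2, 7), ((8, 2, 7), 7, 1, 5), ((9, 0, 3), 8, 0, 3)]
  Tc := [(1, 2, 3), (1, 2, 4), (1, 2, 6), (1, 3, 4), (1, 3, 6), (1, 4, 6), (2, 1, 7)]
  Td := [((1, 2), (2, 0), 0), ((1, 2), (2, 8), 7), ((1, 3), (2, 0), 0), ((1, 3), (2, 8), 7), ((1,
    4), (2, 0), 0), ((1, 4), (2, 8), 7), ((1, 6), (2, 0), 0), ((1, 6), (2, 8), 7), ((2, 1),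
    (6, 5), 4), ((2, 1), (6, 7), 5), ((2, 7), (6, 5), 4), ((2, 7), (6, 7), 5), ((3, 1), (3,
    1), 0), ((3, 1), (3, 4), 6), ((3, 1), (3, 9), 8), ((4, 1), (5, 4), 6), ((4, 1), (5, 6),
    2), ((6, 1), (4, 3), 3), ((6, 1), (4, 5), 4), ((7, 2), (8, 2), 1), ((7, 2), (8, 7), 5)]
  G := [[0, 0xe2eeeeceeeee2cc124, 0xe1eeedc824eeede1c428c, 0xe21e24e28d282,
    0xe4eeed9eeede499248], [0, 0, 0xe2ee56e1e1cc2e2e8a82c2, 0xe24e21e28d282,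
    0xe4eeed9eeede499248]]

noncomputable def n3210 : Ent := ⟨e3210, noF, [], [], [(16, 15, [1685356702439545624007900436039642273970977273354372543760013230081, 0])]⟩

def c3210 : PLift (Cov.check n3210.C.D v3210 = true) := ⟨by decide +kernel⟩

def b3210 : PLift (entF (fidx ts) 400 3210 n3210 = true) := ⟨by decide +kernel⟩

theorem g3210 : GoodF (fidx ts) 400 3210 := GoodF.ofV v3210 n3210 c3210.down b3210.down

/-- 4677445:2461 -/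
noncomputable def e3211 : SCfg where
  D := {
    a := 7
    L := 11
    kp := 9
    inn := [(0, 1), (0, 6), (1, 0), (1, 2), (1, 3), (2, 1), (2, 3), (2, 4), (3, 1), (3, 2), (3, 4), (3,
      5), (4, 2), (4, 3), (5, 3), (6, 0)]
    mix := [(0, 0), (0, 1), (1, 0), (1, 1), (1, 2), (2, 1), (2, 3), (2, 4), (2, 5), (3, 2), (3, 6), (3,
      7), (4, 5), (4, 6), (5, 2), (5, 7), (5, 8), (6, 0), (6, 1), (6, 9), (6, 10)]
    cl := [0, 0, 1, 5, 6, 3, 2, 4, 7, 8, 9]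
    chq := [(1, 2), (1, 3), (1, 5), (1, 6), (2, 1), (2, 7), (3, 1), (5, 1), (6, 1), (7, 2)]
    rng := [(0, 2), (0, 9), (1, 3), (1, 10), (2, 0), (2, 8), (3, 1), (3, 4), (4, 3), (4, 5), (5, 4),
      (5, 6), (6, 5), (6, 7), (7, 6), (7, 8), (8, 2), (8, 7), (9, 0), (9, 10), (10, 1), (10, 9)]
    lev := [] }
  links := [[1, 7, 6, 8], [7, 0, 8, 2, 3, 9], [3, 1, 8, 10, 11, 12, 4], [9, 1, 2, 4, 13, 14, 5], [13, 3,
    2, 12], [9, 3, 14, 15], [8, 0, 7, 16, 17]]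
  P := {
    a := 7
    N := 18
    nb := [450, 909, 7450, 25142, 12300, 49672, 196993, 66115, 132167, 32938, 2308, 5124, 10260,
      20504, 41000, 16928, 131264, 65856]
    tri := [(0, 1, 7), (0, 1, 8), (0, 6, 7), (0, 6, 8), (1, 2, 3), (1, 2, 8), (1, 3, 9), (1, 7, 9), (2,
      3, 4), (2, 4, 12), (2, 8, 10), (2, 10, 11), (2, 11, 12), (3, 4, 13), (3, 5, 9), (3, 5, 14),
      (3, 13, 14), (4, 12, 13), (5, 9, 15), (5, 14, 15), (6, 7, 16), (6, 8, 17), (6, 16, 17)]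
    fin := [0, 1, 1, 3, 4, 3, 0, 0, 0, 1, 10, 11, 4, 3, 14, 15, 16, 17]
    chd := [(1, 3), (1, 4), (1, 10), (1, 11), (3, 15)]
    steps := [(0, 6), (0, 7), (0, 8), (1, 2), (1, 9), (3, 5), (3, 13), (4, 12)] }
  rep := [0, 1, 3, 4, 14, 10, 11, 15, 16, 17]

noncomputable def v3211 : Cov.CovD where
  P := 3
  N := 7
  pl := [7, 9, 10]
  lev := [⟨[], [], [(0, 0)], [], [(0, 0, []), (1, 0, [])]⟩,
    ⟨[], [(0, 0), (0, 1)], [(0, 0), (0, 1)], [], [(0, 0, []), (1, 0, []), (2, 1, [2, 3, 5,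
      6])]⟩,
    ⟨[(0, 1)], [(0, 0), (1, 0), (1, 1), (1, 3), (1, 5), (1, 6)], [(0, 3), (0, 5), (0, 6),
      (3, 5), (3, 6), (5, 6)], [], [(1, 0, []), (3, 5, [1]), (4, 6, [1]), (5, 3, [1])]⟩,
    ⟨[(0, 1), (1, 2)], [(1, 0), (1, 1), (1, 2), (2, 0), (2, 1), (2, 2), (2, 3), (2, 5), (2,
      6)], [(1, 2)], [4], [(2, 1, [2, 3, 5, 6]), (6, 2, [1, 7])]⟩,
    ⟨[(1, 2), (1, 3), (2, 3)], [(2, 0), (2, 2), (2, 3), (2, 5), (2, 6), (3, 1), (3, 2), (3,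
      3)], [(2, 3)], [], [(5, 3, [1]), (6, 2, [1, 7])]⟩,
    ⟨[(1, 3), (2, 3), (3, 4)], [(1, 1), (3, 1), (3, 2), (3, 7)], [(1, 7)], [4], [(2, 1, [2,
      3, 5, 6]), (8, 7, [2])]⟩,
    ⟨[(0, 1)], [(0, 0), (1, 0), (2, 0)], [(0, 0)], [8, 9], [(0, 0, []), (1, 0, [])]⟩]
  Ta := [((0, 2), 0, 1), ((0, 9), 0, 8), ((1, 3), 0, 5), ((1, 10), 0, 9)]
  Tb := [((0, 2, 9), 0, 1, 8), ((1, 3, 10), 0, 5, 9), ((2, 0, 8), 1, 0, 7), ((3, 1, 4), 5, 0, 6),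
    ((4, 3, 5), 6, 5, 3), ((5, 4, 6), 3, 6, 2), ((6, 5, 7), 2, 3, 4), ((7, 6, 8), 4, 2, 7),
    ((8, 2, 7), 7, 1, 4), ((9, 0, 10), 8, 0, 9), ((10, 1, 9), 9, 0, 8)]
  Tc := [(1, 2, 3), (1, 2, 5), (1, 2, 6), (1, 3, 5), (1, 3, 6), (1, 5, 6), (2, 1, 7)]
  Td := [((1, 2), (2, 0), 0), ((1, 2), (2, 8), 7), ((1, 3), (2, 0), 0), ((1, 3), (2, 8), 7), ((1,
    5), (2, 0), 0), ((1, 5), (2, 8), 7), ((1, 6), (2, 0), 0), ((1, 6), (2, 8), 7), ((2, 1),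
    (6, 5), 3), ((2, 1), (6, 7), 4), ((2, 7), (6, 5), 3), ((2, 7), (6, 7), 4), ((3, 1), (5,
    4), 6), ((3, 1), (5, 6), 2), ((5, 1), (3, 1), 0), ((5, 1), (3, 4), 6), ((6, 1), (4, 3),
    5), ((6, 1), (4, 5), 3), ((7, 2), (8, 2), 1), ((7, 2), (8, 7), 4)]
  G := [[0, 0xe2eeeeceeeee2cc128, 0xee5eeedcee9e1ac24e24428c, 0xe24e28e21d282,
    0xe4eeed9eeede499248], [0, 0, 0xe14e1ee3eecec2ee3882c2, 0xe24e21e28d284,
    0xee6e8e4be4e1ee6b9242]]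

noncomputable def n3211 : Ent := ⟨e3211, noF, [], [], [(16, 15, [7334790850167413569773436004105379185503274260204390087403942017798145, 0]), (17, 10, [6903326391201334775872705251651713694319475166462653752416129413324801, 0])]⟩

def c3211 : PLift (Cov.check n3211.C.D v3211 = true) := ⟨by decide +kernel⟩

def b3211 : PLift (entF (fidx ts) 400 3211 n3211 = true) := ⟨by decide +kernel⟩

theorem g3211 : GoodF (fidx ts) 400 3211 := GoodF.ofV v3211 n3211 c3211.down b3211.down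

/-- 4677447:2462 -/
noncomputable def e3212 : SCfg where
  D := {
    a := 7
    L := 11
    kp := 8
    inn := [(0, 1), (0, 6), (1, 0), (1, 2), (1, 3), (1, 6), (2, 1), (2, 3), (2, 4), (2, 6), (3, 1), (3,
      2), (3, 4), (3, 5), (4, 2), (4, 3), (5, 3), (6, 0), (6, 1), (6, 2)]
    mix := [(0, 0), (0, 1), (1, 0), (1, 2), (2, 3), (2, 4), (2, 5), (3, 2), (3, 6), (3, 7), (4, 5), (4,
      6), (5, 2), (5, 7), (5, 8), (6, 1), (6, 3), (6, 9), (6, 10)]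
    cl := [1, 3, 0, 3, 5, 4, 0, 2, 6, 7, 8]
    chq := [(1, 4), (1, 5), (4, 1), (5, 1)]
    rng := [(0, 1), (0, 2), (1, 0), (1, 9), (2, 0), (2, 8), (3, 4), (3, 10), (4, 3), (4, 5), (5, 4),
      (5, 6), (6, 5), (6, 7), (7, 6), (7, 8), (8, 2), (8, 7), (9, 1), (9, 10), (10, 3), (10, 9)]
    lev := [] }
  links := [[1, 7, 8, 6], [7, 0, 6, 2, 3, 9], [3, 1, 6, 10, 11, 12, 4], [9, 1, 2, 4, 13, 14, 5], [13, 3,
    2, 12], [9, 3, 14, 15], [10, 2, 1, 0, 8, 16, 17]]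
  P := {
    a := 7
    N := 18
    nb := [450, 717, 7258, 25142, 12300, 49672, 197895, 771, 65729, 32938, 133188, 5124, 10260, 20504,
      41000, 16928, 131392, 66624]
    tri := [(0, 1, 6), (0, 1, 7), (0, 6, 8), (0, 7, 8), (1, 2, 3), (1, 2, 6), (1, 3, 9), (1, 7, 9), (2,
      3, 4), (2, 4, 12), (2, 6, 10), (2, 10, 11), (2, 11, 12), (3, 4, 13), (3, 5, 9), (3, 5, 14),
      (3, 13, 14), (4, 12, 13), (5, 9, 15), (5, 14, 15), (6, 8, 16), (6, 10, 17), (6, 16, 17)]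
    fin := [0, 0, 0, 3, 0, 3, 6, 0, 6, 3, 6, 11, 12, 3, 14, 15, 16, 17]
    chd := [(0, 11), (0, 12)]
    steps := [(0, 1), (0, 2), (0, 4), (0, 7), (3, 5), (3, 13), (3, 9), (6, 8), (6, 10)] }
  rep := [3, 0, 14, 6, 12, 11, 15, 16, 17]

noncomputable def v3212 : Cov.CovD where
  P := 3
  N := 6
  pl := [7, 8, 9, 10]
  lev := [⟨[], [], [(1, 3)], [], [(0, 1, [4, 5]), (1, 3, [])]⟩,
    ⟨[], [(0, 0), (0, 1), (0, 3)], [(0, 1)], [], [(0, 1, [4, 5]), (2, 0, [])]⟩,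
    ⟨[(0, 1)], [(1, 0), (1, 1), (1, 3), (1, 4), (1, 5)], [(3, 4), (3, 5), (4, 5)], [], [(3,
      3, []), (4, 5, [1]), (5, 4, [1])]⟩,
    ⟨[(0, 1), (1, 2)], [(1, 0), (1, 1), (2, 0), (2, 3), (2, 4), (2, 5)], [(0, 0)], [2],
      [(2, 0, []), (6, 0, [])]⟩,
    ⟨[(1, 2), (1, 3), (2, 3)], [(2, 0), (2, 3), (2, 4), (2, 5), (3, 0), (3, 4)], [(0, 4)],
      [], [(5, 4, [1]), (6, 0, [])]⟩,
    ⟨[(1, 3), (2, 3), (3, 4)], [(1, 0), (3, 0)], [], [2, 6], [(2, 0, [])]⟩,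
    ⟨[(0, 1), (0, 2), (1, 2), (1, 3), (2, 3), (2, 4)], [(0, 1), (0, 3), (1, 0), (1, 1), (1,
      3), (2, 3), (2, 4), (2, 5)], [(3, 3)], [7, 8], [(1, 3, []), (3, 3, [])]⟩]
  Ta := [((1, 0), 3, 1), ((1, 9), 3, 7), ((2, 0), 0, 1), ((2, 8), 0, 6), ((3, 4), 3, 5), ((3,
    10), 3, 8), ((6, 5), 0, 4), ((6, 7), 0, 2)]
  Tb := [((0, 1, 2), 1, 3, 0), ((1, 0, 9), 3, 1, 7), ((2, 0, 8), 0, 1, 6), ((3, 4, 10), 3, 5, 8),
    ((4, 3, 5), 5, 3, 4), ((5, 4, 6), 4, 5, 0), ((6, 5, 7), 0, 4, 2), ((7, 6, 8), 2, 0, 6),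
    ((8, 2, 7), 6, 0, 2), ((9, 1, 10), 7, 3, 8), ((10, 3, 9), 8, 3, 7)]
  Tc := [(1, 4, 5)]
  Td := [((1, 4), (0, 1), 3), ((1, 4), (0, 2), 0), ((1, 5), (0, 1), 3), ((1, 5), (0, 2), 0), ((4,
    1), (5, 4), 5), ((4, 1), (5, 6), 0), ((5, 1), (4, 3), 3), ((5, 1), (4, 5), 4)]
  G := [[0, 0xddcddca418bbcbbc68146, 0, 0xeec2814242842814ffc18282468bc9,
    0xeea281422a12ffa1822a28b49], [0, 0xffcffca4124, 0, 0x242281c22c18ffc1822c28f41,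
    0x22a1222a18ffa1822a28f48], [0, 0, 0x6428ea2c1822a2422628ffcddac4e85,
    0x212484e141c4a1243821284b191c82cd, 0x2182a1c1c8a4612818212847151c82cd], [0, 0,
    0x22c2422a42ff6ffac422c24f81, 0x21242128f1f1c42128f84, 0x21822128f1f1c82128f41]]

noncomputable def n3212 : Ent := ⟨e3212, noF, [], [], []⟩

def c3212 : PLift (Cov.check n3212.C.D v3212 = true) := ⟨by decide +kernel⟩

def b3212 : PLift (entF (fidx ts) 400 3212 n3212 = true) := ⟨by decide +kernel⟩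

theorem g3212 : GoodF (fidx ts) 400 3212 := GoodF.ofV v3212 n3212 c3212.down b3212.down

/-- 4676446:2463/2 -/
noncomputable def e3213 : SCfg where
  D := {
    a := 7
    L := 9
    kp := 7
    inn := [(0, 1), (0, 3), (0, 6), (1, 0), (1, 2), (1, 3), (2, 1), (2, 4), (2, 5), (3, 0), (3, 1), (3,
      6), (4, 2), (5, 2), (6, 0), (6, 3)]
    mix := [(0, 0), (1, 0), (1, 1), (1, 2), (2, 0), (2, 1), (2, 3), (2, 4), (3, 2), (3, 5), (3, 6), (4,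
      0), (4, 3), (4, 7), (5, 1), (5, 4), (5, 8), (6, 0), (6, 6), (6, 7), (6, 8)]
    cl := [0, 0, 1, 6, 3, 7, 4, 2, 5]
    chq := [(0, 3), (1, 2), (1, 4), (1, 5), (2, 1), (2, 3), (3, 0), (3, 2), (4, 1), (5, 1)]
    rng := [(0, 7), (1, 2), (1, 8), (2, 1), (2, 5), (3, 4), (3, 7), (4, 3), (4, 8), (5, 2), (5, 6), (6,
      5), (6, 8), (7, 0), (7, 3), (7, 8), (8, 1), (8, 4), (8, 6), (8, 7)]
    lev := [] }
  links := [[1, 3, 6, 7], [3, 0, 7, 2, 8, 9], [8, 1, 7, 4, 10, 11, 5], [6, 0, 1, 9, 12, 13], [10, 2, 7,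
    14], [8, 2, 11, 15], [7, 0, 3, 13, 15, 14]]
  P := {
    a := 7
    N := 16
    nb := [202, 909, 3506, 12867, 17540, 35076, 57481, 16471, 33318, 4362, 18452, 33828, 8712, 36936,
      34000, 26976]
    tri := [(0, 1, 3), (0, 1, 7), (0, 3, 6), (0, 6, 7), (1, 2, 7), (1, 2, 8), (1, 3, 9), (1, 8, 9), (2,
      4, 7), (2, 4, 10), (2, 5, 8), (2, 5, 11), (2, 10, 11), (3, 6, 13), (3, 9, 12), (3, 12, 13),
      (4, 7, 14), (4, 10, 14), (5, 8, 15), (5, 11, 15), (6, 7, 14), (6, 13, 15), (6, 14, 15)]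
    fin := [0, 0, 2, 3, 2, 0, 3, 0, 0, 3, 10, 11, 12, 13, 2, 15]
    chd := [(0, 11), (3, 2), (3, 13), (3, 15), (11, 2)]
    steps := [(0, 1), (0, 7), (0, 8), (0, 5), (2, 4), (2, 14), (3, 6), (3, 9)] }
  rep := [0, 3, 2, 11, 13, 15, 10, 12]

noncomputable def v3213 : Cov.CovD where
  P := 3
  N := 5
  pl := [3, 5]
  lev := [⟨[], [], [], [], [(0, 0, [3])]⟩,
    ⟨[], [(0, 0), (0, 1)], [(0, 0), (0, 1)], [], [(0, 0, [3]), (1, 0, [3]), (2, 1, [2, 4,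
      5])]⟩,
    ⟨[(0, 1)], [(0, 0), (1, 0), (1, 1), (1, 3)], [(0, 0), (0, 3)], [6], [(0, 0, [3]), (1,
      0, [3]), (4, 3, [0, 2])]⟩,
    ⟨[(0, 1), (1, 2)], [(0, 0), (0, 1), (0, 4), (1, 0), (1, 1), (1, 4)], [(1, 4)], [7],
      [(2, 1, [2, 4, 5]), (6, 4, [1])]⟩,
    ⟨[(1, 2)], [(0, 0), (1, 0), (2, 0), (2, 2), (2, 3)], [(0, 2)], [6], [(0, 0, [3]), (7,
      2, [1, 3])]⟩,
    ⟨[(1, 2), (2, 4)], [(1, 0), (2, 0), (2, 3), (2, 5)], [(0, 3), (0, 5), (3, 5)], [], [(1,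
      0, [3]), (4, 3, [0, 2]), (8, 5, [1])]⟩,
    ⟨[(0, 1), (0, 3), (1, 3)], [(0, 0), (0, 2), (0, 4), (0, 5), (1, 0), (2, 0), (3, 0), (3,
      1), (3, 2), (3, 4), (3, 5), (4, 0), (4, 2), (5, 5)], [(0, 2), (0, 4), (0, 5), (2, 4),
      (2, 5), (4, 5)], [], [(0, 0, [3]), (6, 4, [1]), (7, 2, [1, 3]), (8, 5, [1])]⟩]
  Ta := [((0, 7), 0, 2), ((1, 2), 0, 1), ((1, 8), 0, 5)]
  Tb := [((1, 2, 8), 0, 1, 5), ((2, 1, 5), 1, 0, 7), ((3, 4, 7), 6, 3, 2), ((4, 3, 8), 3, 6, 5),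
    ((5, 2, 6), 7, 1, 4), ((6, 5, 8), 4, 7, 5), ((7, 0, 3), 2, 0, 6), ((7, 0, 8), 2, 0, 5),
    ((7, 3, 8), 2, 6, 5), ((8, 1, 4), 5, 0, 3), ((8, 1, 6), 5, 0, 4), ((8, 1, 7), 5, 0, 2),
    ((8, 4, 6), 5, 3, 4), ((8, 4, 7), 5, 3, 2), ((8, 6, 7), 5, 4, 2)]
  Tc := [(1, 2, 4), (1, 2, 5), (1, 4, 5), (2, 1, 3), (3, 0, 2)]
  Td := [((0, 3), (0, 7), 2), ((0, 3), (1, 2), 1), ((0, 3), (1, 8), 5), ((1, 2), (2, 1), 0), ((1,
    2), (2, 5), 7), ((1, 4), (2, 1), 0), ((1, 4), (2, 5), 7), ((1, 5), (2, 1), 0), ((1, 5),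
    (2, 5), 7), ((2, 1), (7, 0), 0), ((2, 1), (7, 3), 6), ((2, 1), (7, 8), 5), ((2, 3), (7,
    0), 0), ((2, 3), (7, 3), 6), ((2, 3), (7, 8), 5), ((3, 0), (4, 3), 6), ((3, 0), (4, 8),
    5), ((3, 2), (4, 3), 6), ((3, 2), (4, 8), 5), ((4, 1), (6, 5), 7), ((4, 1), (6, 8), 5),
    ((5, 1), (8, 1), 0), ((5, 1), (8, 4), 3), ((5, 1), (8, 6), 4), ((5, 1), (8, 7), 2)]
  G := [[0, 0, 0x218218218d84214214214d212212212d68c, 0x2222c2222c2222cd248,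
    0x212122b212128b54248248248d212122b8242242242dec8], [0,
    0x111e111ec111e111ec111e111ece2128128128e128124124ec68, 0, 0x224221d28224f248,
    0x242422a222e922a222e922a222e3d2424e24824892422429ac4]]

noncomputable def n3213 : Ent := ⟨e3213, noF, [], [], []⟩

def c3213 : PLift (Cov.check n3213.C.D v3213 = true) := ⟨by decide +kernel⟩

def b3213 : PLift (entF (fidx ts) 400 3213 n3213 = true) := ⟨by decide +kernel⟩

theorem g3213 : GoodF (fidx ts) 400 3213 := GoodF.ofV v3213 n3213 c3213.down b3213.down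

/-- 4676446:2463/1 -/
noncomputable def e3214 : SCfg where
  D := {
    a := 7
    L := 10
    kp := 8
    inn := [(0, 1), (0, 3), (0, 6), (1, 0), (1, 2), (1, 3), (2, 1), (2, 4), (2, 5), (3, 0), (3, 1), (3,
      6), (4, 2), (5, 2), (6, 0), (6, 3)]
    mix := [(0, 0), (1, 0), (1, 1), (1, 2), (2, 0), (2, 1), (2, 3), (2, 4), (3, 2), (3, 5), (3, 6), (4,
      0), (4, 3), (4, 7), (5, 1), (5, 4), (5, 8), (6, 0), (6, 6), (6, 7), (6, 9)]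
    cl := [0, 0, 1, 5, 2, 7, 4, 3, 8, 6]
    chq := [(0, 2), (1, 3), (1, 4), (1, 6), (2, 0), (2, 3), (3, 1), (3, 2), (4, 1), (6, 1)]
    rng := [(0, 7), (1, 2), (1, 8), (2, 1), (2, 5), (3, 4), (3, 7), (4, 3), (4, 8), (5, 2), (5, 6), (6,
      5), (6, 9), (7, 0), (7, 3), (7, 9), (8, 1), (8, 4), (9, 6), (9, 7)]
    lev := [] }
  links := [[1, 3, 6, 7], [3, 0, 7, 2, 8, 9], [8, 1, 7, 4, 10, 11, 5], [6, 0, 1, 9, 12, 13], [10, 2, 7,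
    14], [8, 2, 11, 15], [7, 0, 3, 13, 16, 14]]
  P := {
    a := 7
    N := 17
    nb := [202, 909, 3506, 12867, 17540, 35076, 90249, 16471, 33318, 4362, 18452, 33828, 8712, 69704,
      66768, 2336, 24640]
    tri := [(0, 1, 3), (0, 1, 7), (0, 3, 6), (0, 6, 7), (1, 2, 7), (1, 2, 8), (1, 3, 9), (1, 8, 9), (2,
      4, 7), (2, 4, 10), (2, 5, 8), (2, 5, 11), (2, 10, 11), (3, 6, 13), (3, 9, 12), (3, 12, 13),
      (4, 7, 14), (4, 10, 14), (5, 8, 15), (5, 11, 15), (6, 7, 14), (6, 13, 16), (6, 14, 16)]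
    fin := [0, 0, 2, 3, 2, 0, 3, 0, 0, 3, 10, 11, 12, 13, 2, 15, 16]
    chd := [(0, 11), (3, 2), (3, 13), (3, 16), (11, 2)]
    steps := [(0, 1), (0, 7), (0, 8), (0, 5), (2, 4), (2, 14), (3, 6), (3, 9)] }
  rep := [0, 3, 11, 2, 13, 10, 16, 12, 15]

noncomputable def v3214 : Cov.CovD where
  P := 3
  N := 6
  pl := [3, 5, 8]
  lev := [⟨[], [], [], [], [(0, 0, [2])]⟩,
    ⟨[], [(0, 0), (0, 1)], [(0, 0), (0, 1)], [], [(0, 0, [2]), (1, 0, [2]), (2, 1, [3, 4,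
      6])]⟩,
    ⟨[(0, 1)], [(0, 0), (1, 0), (1, 1), (1, 2)], [(0, 0), (0, 2)], [5], [(0, 0, [2]), (1,
      0, [2]), (4, 2, [0, 3])]⟩,
    ⟨[(0, 1), (1, 2)], [(0, 0), (0, 1), (0, 4), (1, 0), (1, 1), (1, 4)], [(1, 4)], [7],
      [(2, 1, [3, 4, 6]), (6, 4, [1])]⟩,
    ⟨[(1, 2)], [(0, 0), (1, 0), (2, 0), (2, 2), (2, 3)], [(0, 3)], [5], [(0, 0, [2]), (7,
      3, [1, 2])]⟩,
    ⟨[(1, 2), (2, 4)], [(1, 0), (2, 0), (2, 2)], [(0, 2)], [8], [(1, 0, [2]), (4, 2, [0,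
      3])]⟩,
    ⟨[(0, 1), (0, 3), (1, 3)], [(0, 0), (0, 3), (0, 4), (0, 6), (1, 0), (2, 0), (3, 0), (3,
      1), (3, 3), (3, 4), (3, 6), (4, 0), (4, 3)], [(0, 3), (0, 4), (0, 6), (3, 4), (3, 6),
      (4, 6)], [], [(0, 0, [2]), (6, 4, [1]), (7, 3, [1, 2]), (9, 6, [1])]⟩]
  Ta := [((0, 7), 0, 3), ((1, 2), 0, 1), ((1, 8), 0, 8)]
  Tb := [((1, 2, 8), 0, 1, 8), ((2, 1, 5), 1, 0, 7), ((3, 4, 7), 5, 2, 3), ((4, 3, 8), 2, 5, 8),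
    ((5, 2, 6), 7, 1, 4), ((6, 5, 9), 4, 7, 6), ((7, 0, 3), 3, 0, 5), ((7, 0, 9), 3, 0, 6),
    ((7, 3, 9), 3, 5, 6), ((8, 1, 4), 8, 0, 2), ((9, 6, 7), 6, 4, 3)]
  Tc := [(1, 3, 4), (1, 3, 6), (1, 4, 6), (2, 0, 3), (3, 1, 2)]
  Td := [((0, 2), (0, 7), 3), ((0, 2), (1, 2), 1), ((0, 2), (1, 8), 8), ((1, 3), (2, 1), 0), ((1,
    3), (2, 5), 7), ((1, 4), (2, 1), 0), ((1, 4), (2, 5), 7), ((1, 6), (2, 1), 0), ((1, 6),
    (2, 5), 7), ((2, 0), (4, 3), 5), ((2, 0), (4, 8), 8), ((2, 3), (4, 3), 5), ((2, 3), (4,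
    8), 8), ((3, 1), (7, 0), 0), ((3, 1), (7, 3), 5), ((3, 1), (7, 9), 6), ((3, 2), (7, 0),
    0), ((3, 2), (7, 3), 5), ((3, 2), (7, 9), 6), ((4, 1), (6, 5), 7), ((4, 1), (6, 9), 6),
    ((6, 1), (9, 6), 4), ((6, 1), (9, 7), 3)]
  G := [[0, 0, 0x22c122a122c1d22a122a122a1da48, 0x212162125212121e2121a212121edc21288c4,
    0x214214521216212121e212121eda2121c88c4], [0,
    0x1811ca11c11ca11c11cae41411c11ce11c11c6a811c11c648e4, 0x22614226122c122c1dc22a1226192c4,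
    0x22c222c1c8422c122c222c1d422c218cc, 0x22a122a122a4d22a422a422a1da48]]

noncomputable def n3214 : Ent := ⟨e3214, noF, [], [], [(15, 16, [1580044410770988437309982408355971841652082177953823432505702273025, 0])]⟩

def c3214 : PLift (Cov.check n3214.C.D v3214 = true) := ⟨by decide +kernel⟩

def b3214 : PLift (entF (fidx ts) 400 3214 n3214 = true) := ⟨by decide +kernel⟩

theorem g3214 : GoodF (fidx ts) 400 3214 := GoodF.ofV v3214 n3214 c3214.down b3214.down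

/-- 4676446:2463/3 -/
noncomputable def e3215 : SCfg where
  D := {
    a := 7
    L := 10
    kp := 8
    inn := [(0, 1), (0, 3), (0, 6), (1, 0), (1, 2), (1, 3), (2, 1), (2, 4), (2, 5), (3, 0), (3, 1), (3,
      6), (4, 2), (5, 2), (6, 0), (6, 3)]
    mix := [(0, 0), (1, 0), (1, 1), (1, 2), (2, 0), (2, 1), (2, 3), (2, 4), (3, 2), (3, 5), (3, 6), (4,
      0), (4, 3), (4, 7), (5, 1), (5, 4), (5, 8), (6, 0), (6, 6), (6, 8), (6, 9)]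
    cl := [0, 0, 1, 2, 5, 7, 4, 8, 3, 6]
    chq := [(0, 2), (1, 3), (1, 4), (1, 6), (2, 0), (2, 3), (3, 1), (3, 2), (4, 1), (6, 1)]
    rng := [(0, 7), (0, 9), (1, 2), (1, 8), (2, 1), (2, 5), (3, 4), (3, 7), (4, 3), (4, 8), (5, 2), (5,
      6), (6, 5), (6, 8), (7, 0), (7, 3), (8, 1), (8, 4), (8, 6), (8, 9), (9, 0), (9, 8)]
    lev := [] }
  links := [[1, 3, 6, 7], [3, 0, 7, 2, 8, 9], [8, 1, 7, 4, 10, 11, 5], [6, 0, 1, 9, 12, 13], [10, 2, 7,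
    14], [8, 2, 11, 15], [7, 0, 3, 13, 15, 16]]
  P := {
    a := 7
    N := 17
    nb := [202, 909, 3506, 12867, 17540, 35076, 106633, 82007, 33318, 4362, 18452, 33828, 8712, 36936,
      1168, 76128, 32960]
    tri := [(0, 1, 3), (0, 1, 7), (0, 3, 6), (0, 6, 7), (1, 2, 7), (1, 2, 8), (1, 3, 9), (1, 8, 9), (2,
      4, 7), (2, 4, 10), (2, 5, 8), (2, 5, 11), (2, 10, 11), (3, 6, 13), (3, 9, 12), (3, 12, 13),
      (4, 7, 14), (4, 10, 14), (5, 8, 15), (5, 11, 15), (6, 7, 16), (6, 13, 15), (6, 15, 16)]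
    fin := [0, 0, 2, 3, 0, 2, 3, 0, 0, 3, 2, 11, 12, 13, 14, 15, 16]
    chd := [(0, 2), (2, 15), (3, 13), (3, 15), (3, 16)]
    steps := [(0, 1), (0, 7), (0, 4), (0, 8), (2, 5), (2, 10), (3, 6), (3, 9)] }
  rep := [0, 3, 2, 15, 13, 11, 16, 12, 14]

noncomputable def v3215 : Cov.CovD where
  P := 3
  N := 6
  pl := [4, 5, 7]
  lev := [⟨[], [], [], [], [(0, 0, [2])]⟩,
    ⟨[], [(0, 0), (0, 1)], [(0, 0), (0, 1)], [], [(0, 0, [2]), (1, 0, [2]), (2, 1, [3, 4,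
      6])]⟩,
    ⟨[(0, 1)], [(0, 0), (1, 0), (1, 1), (1, 2)], [(0, 0), (0, 2)], [5], [(0, 0, [2]), (1,
      0, [2]), (3, 2, [0, 3])]⟩,
    ⟨[(0, 1), (1, 2)], [(0, 0), (0, 1), (0, 4), (1, 0), (1, 1), (1, 4)], [(1, 4)], [7],
      [(2, 1, [3, 4, 6]), (6, 4, [1])]⟩,
    ⟨[(1, 2)], [(0, 0), (1, 0), (2, 0), (2, 2)], [(0, 2)], [8], [(0, 0, [2]), (3, 2, [0,
      3])]⟩,
    ⟨[(1, 2), (2, 4)], [(1, 0), (2, 0), (2, 2), (2, 3)], [(0, 3)], [5], [(1, 0, [2]), (8,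
      3, [1, 2])]⟩,
    ⟨[(0, 1), (0, 3), (1, 3)], [(0, 0), (0, 3), (0, 4), (0, 6), (1, 0), (2, 0), (3, 0), (3,
      1), (3, 3), (3, 4), (3, 6), (4, 0), (5, 3)], [(0, 3), (0, 4), (0, 6), (3, 4), (3, 6),
      (4, 6)], [], [(0, 0, [2]), (6, 4, [1]), (8, 3, [1, 2]), (9, 6, [1])]⟩]
  Ta := [((0, 7), 0, 8), ((0, 9), 0, 6), ((1, 2), 0, 1), ((1, 8), 0, 3)]
  Tb := [((0, 7, 9), 0, 8, 6), ((1, 2, 8), 0, 1, 3), ((2, 1, 5), 1, 0, 7), ((3, 4, 7), 2, 5, 8),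
    ((4, 3, 8), 5, 2, 3), ((5, 2, 6), 7, 1, 4), ((6, 5, 8), 4, 7, 3), ((7, 0, 3), 8, 0, 2),
    ((8, 1, 4), 3, 0, 5), ((8, 1, 6), 3, 0, 4), ((8, 1, 9), 3, 0, 6), ((8, 4, 6), 3, 5, 4),
    ((8, 4, 9), 3, 5, 6), ((8, 6, 9), 3, 4, 6), ((9, 0, 8), 6, 0, 3)]
  Tc := [(1, 3, 4), (1, 3, 6), (1, 4, 6), (2, 0, 3), (3, 1, 2)]
  Td := [((0, 2), (0, 7), 8), ((0, 2), (0, 9), 6), ((0, 2), (1, 2), 1), ((0, 2), (1, 8), 3), ((1,
    3), (2, 1), 0), ((1, 3), (2, 5), 7), ((1, 4), (2, 1), 0), ((1, 4), (2, 5), 7), ((1, 6),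
    (2, 1), 0), ((1, 6), (2, 5), 7), ((2, 0), (3, 4), 5), ((2, 0), (3, 7), 8), ((2, 3), (3,
    4), 5), ((2, 3), (3, 7), 8), ((3, 1), (8, 1), 0), ((3, 1), (8, 4), 5), ((3, 1), (8, 6),
    4), ((3, 1), (8, 9), 6), ((3, 2), (8, 1), 0), ((3, 2), (8, 4), 5), ((3, 2), (8, 6), 4),
    ((3, 2), (8, 9), 6), ((4, 1), (6, 5), 7), ((4, 1), (6, 8), 3), ((6, 1), (9, 0), 0), ((6,
    1), (9, 8), 3)]
  G := [[0, 0, 0x2121642122121c214dc21421892182129ac4,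
    0x21848421442222c2222c2122cdc2121c2221c98cc, 0x2124a2421a2121ad2421a2124a2424ada48], [0,
    0x116116c12111ec12111ece11a11ac111e12c111e12cec28, 0x2121a2121c214d21812121c2121a212de48,
    0x22122152261222e1222e1dc22a188c4, 0x22c122c122c1d226122612261da48]]

noncomputable def n3215 : Ent := ⟨e3215, noF, [], [], [(14, 16, [1580044410770988437309982408355971841652082177953823432505702273025, 0])]⟩

def c3215 : PLift (Cov.check n3215.C.D v3215 = true) := ⟨by decide +kernel⟩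

def b3215 : PLift (entF (fidx ts) 400 3215 n3215 = true) := ⟨by decide +kernel⟩

theorem g3215 : GoodF (fidx ts) 400 3215 := GoodF.ofV v3215 n3215 c3215.down b3215.down

/-- 4676446:2463 -/
noncomputable def e3216 : SCfg where
  D := {
    a := 7
    L := 11
    kp := 9
    inn := [(0, 1), (0, 3), (0, 6), (1, 0), (1, 2), (1, 3), (2, 1), (2, 4), (2, 5), (3, 0), (3, 1), (3,
      6), (4, 2), (5, 2), (6, 0), (6, 3)]
    mix := [(0, 0), (1, 0), (1, 1), (1, 2), (2, 0), (2, 1), (2, 3), (2, 4), (3, 2), (3, 5), (3, 6), (4,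
      0), (4, 3), (4, 7), (5, 1), (5, 4), (5, 8), (6, 0), (6, 6), (6, 9), (6, 10)]
    cl := [0, 0, 1, 2, 4, 8, 3, 9, 5, 6, 7]
    chq := [(0, 2), (1, 3), (1, 6), (1, 7), (2, 0), (2, 5), (3, 1), (5, 2), (6, 1), (7, 1)]
    rng := [(0, 7), (0, 10), (1, 2), (1, 8), (2, 1), (2, 5), (3, 4), (3, 7), (4, 3), (4, 8), (5, 2),
      (5, 6), (6, 5), (6, 9), (7, 0), (7, 3), (8, 1), (8, 4), (9, 6), (9, 10), (10, 0), (10, 9)]
    lev := [] }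
  links := [[1, 3, 6, 7], [3, 0, 7, 2, 8, 9], [8, 1, 7, 4, 10, 11, 5], [6, 0, 1, 9, 12, 13], [10, 2, 7,
    14], [8, 2, 11, 15], [7, 0, 3, 13, 16, 17]]
  P := {
    a := 7
    N := 18
    nb := [202, 909, 3506, 12867, 17540, 35076, 204937, 147543, 33318, 4362, 18452, 33828, 8712,
      69704, 1168, 2336, 139328, 65728]
    tri := [(0, 1, 3), (0, 1, 7), (0, 3, 6), (0, 6, 7), (1, 2, 7), (1, 2, 8), (1, 3, 9), (1, 8, 9), (2,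
      4, 7), (2, 4, 10), (2, 5, 8), (2, 5, 11), (2, 10, 11), (3, 6, 13), (3, 9, 12), (3, 12, 13),
      (4, 7, 14), (4, 10, 14), (5, 8, 15), (5, 11, 15), (6, 7, 17), (6, 13, 16), (6, 16, 17)]
    fin := [0, 0, 2, 3, 0, 2, 3, 0, 0, 3, 2, 11, 12, 13, 14, 15, 16, 17]
    chd := [(0, 2), (2, 15), (3, 13), (3, 16), (3, 17)]
    steps := [(0, 1), (0, 7), (0, 4), (0, 8), (2, 5), (2, 10), (3, 6), (3, 9)] }
  rep := [0, 3, 2, 13, 11, 15, 16, 17, 12, 14]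

noncomputable def v3216 : Cov.CovD where
  P := 3
  N := 7
  pl := [4, 5, 7]
  lev := [⟨[], [], [], [], [(0, 0, [2])]⟩,
    ⟨[], [(0, 0), (0, 1)], [(0, 0), (0, 1)], [], [(0, 0, [2]), (1, 0, [2]), (2, 1, [3, 6,
      7])]⟩,
    ⟨[(0, 1)], [(0, 0), (1, 0), (1, 1), (1, 2)], [(0, 0), (0, 2)], [4], [(0, 0, [2]), (1,
      0, [2]), (3, 2, [0, 5])]⟩,
    ⟨[(0, 1), (1, 2)], [(0, 0), (0, 1), (0, 3), (1, 0), (1, 1), (1, 3)], [(1, 3)], [8],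
      [(2, 1, [3, 6, 7]), (6, 3, [1])]⟩,
    ⟨[(1, 2)], [(0, 0), (1, 0), (2, 0), (2, 2)], [(0, 2)], [9], [(0, 0, [2]), (3, 2, [0,
      5])]⟩,
    ⟨[(1, 2), (2, 4)], [(1, 0), (2, 0), (2, 2), (2, 5)], [(0, 5)], [4], [(1, 0, [2]), (8,
      5, [2])]⟩,
    ⟨[(0, 1), (0, 3), (1, 3)], [(0, 0), (0, 3), (0, 6), (0, 7), (1, 0), (2, 0), (3, 0), (3,
      1), (3, 3), (3, 6), (3, 7), (4, 0)], [(0, 3), (0, 6), (0, 7), (3, 6), (3, 7), (6, 7)],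
      [], [(0, 0, [2]), (6, 3, [1]), (9, 6, [1]), (10, 7, [1])]⟩]
  Ta := [((0, 7), 0, 9), ((0, 10), 0, 7), ((1, 2), 0, 1), ((1, 8), 0, 5)]
  Tb := [((0, 7, 10), 0, 9, 7), ((1, 2, 8), 0, 1, 5), ((2, 1, 5), 1, 0, 8), ((3, 4, 7), 2, 4, 9),
    ((4, 3, 8), 4, 2, 5), ((5, 2, 6), 8, 1, 3), ((6, 5, 9), 3, 8, 6), ((7, 0, 3), 9, 0, 2),
    ((8, 1, 4), 5, 0, 4), ((9, 6, 10), 6, 3, 7), ((10, 0, 9), 7, 0, 6)]
  Tc := [(1, 3, 6), (1, 3, 7), (1, 6, 7), (2, 0, 5)]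
  Td := [((0, 2), (0, 7), 9), ((0, 2), (0, 10), 7), ((0, 2), (1, 2), 1), ((0, 2), (1, 8), 5),
    ((1, 3), (2, 1), 0), ((1, 3), (2, 5), 8), ((1, 6), (2, 1), 0), ((1, 6), (2, 5), 8), ((1,
    7), (2, 1), 0), ((1, 7), (2, 5), 8), ((2, 0), (3, 4), 4), ((2, 0), (3, 7), 9), ((2, 5),
    (3, 4), 4), ((2, 5), (3, 7), 9), ((3, 1), (6, 5), 8), ((3, 1), (6, 9), 6), ((5, 2), (8,
    1), 0), ((5, 2), (8, 4), 4), ((6, 1), (9, 6), 3), ((6, 1), (9, 10), 7), ((7, 1), (10, 0),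
    0), ((7, 1), (10, 9), 6)]
  G := [[0, 0, 0x2142121c212d21821892122121a214de48,
    0x22848421442121c2122c2221cdc2222c2122c98cc, 0x2121a2124a2424ad2424a2421a2121ada48], [0,
    0x12111ec12111ec12116ce111e12c111e12c111e11acec24, 0x2144218218218d212212214de21421298c4,
    0x221221522a1222e1222e1dc226188c4, 0x22c122c1222e1d22612261241da48]]

noncomputable def n3216 : Ent := ⟨e3216, noF, [], [], [(14, 17, [6903326391201334775872065844685381424292761054348340378595029942853633, 0]), (15, 16, [7334685537875745012586738086077695515070955365108989538292687706845185, 0])]⟩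

def c3216 : PLift (Cov.check n3216.C.D v3216 = true) := ⟨by decide +kernel⟩

def b3216 : PLift (entF (fidx ts) 400 3216 n3216 = true) := ⟨by decide +kernel⟩

theorem g3216 : GoodF (fidx ts) 400 3216 := GoodF.ofV v3216 n3216 c3216.down b3216.down

/-- 4676474:2468/1 -/
noncomputable def e3217 : SCfg where
  D := {
    a := 7
    L := 10
    kp := 7
    inn := [(0, 1), (0, 3), (1, 0), (1, 2), (1, 3), (2, 1), (2, 3), (2, 4), (2, 5), (3, 0), (3, 1), (3,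
      2), (4, 2), (4, 5), (5, 2), (5, 4), (5, 6), (6, 5)]
    mix := [(0, 0), (0, 1), (1, 0), (1, 2), (1, 3), (2, 2), (2, 4), (2, 5), (3, 1), (3, 4), (3, 6), (4,
      4), (4, 7), (5, 5), (5, 7), (5, 8), (5, 9), (6, 3), (6, 5), (6, 9)]
    cl := [3, 4, 0, 2, 0, 1, 7, 5, 1, 6]
    chq := [(0, 3), (3, 0), (3, 7), (7, 3)]
    rng := [(0, 1), (0, 3), (1, 0), (1, 6), (2, 3), (2, 5), (3, 0), (3, 2), (3, 5), (3, 9), (4, 6), (4,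
      7), (5, 2), (5, 3), (6, 1), (6, 4), (7, 4), (7, 8), (8, 7), (8, 9), (9, 3), (9, 8)]
    lev := [] }
  links := [[1, 7, 8, 3], [7, 0, 3, 2, 9, 10], [9, 1, 3, 11, 4, 5, 12], [11, 2, 1, 0, 8, 13], [5, 2, 11,
    14], [12, 2, 4, 14, 15, 16, 6], [12, 5, 16, 10]]
  P := {
    a := 7
    N := 17
    nb := [394, 1677, 6714, 10503, 18468, 118868, 70688, 1283, 8329, 5126, 70338, 24604, 1636, 2312,
      34864, 81952, 33888]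
    tri := [(0, 1, 3), (0, 1, 7), (0, 3, 8), (0, 7, 8), (1, 2, 3), (1, 2, 9), (1, 7, 10), (1, 9, 10),
      (2, 3, 11), (2, 4, 5), (2, 4, 11), (2, 5, 12), (2, 9, 12), (3, 8, 13), (3, 11, 13), (4, 5,
      14), (4, 11, 14), (5, 6, 12), (5, 6, 16), (5, 14, 15), (5, 15, 16), (6, 10, 12), (6, 10,
      16)]
    fin := [0, 0, 2, 0, 2, 5, 5, 0, 8, 2, 10, 2, 5, 13, 14, 5, 16]
    chd := [(0, 2), (0, 13)]
    steps := [(0, 1), (0, 3), (0, 7), (2, 4), (2, 11), (2, 9), (5, 6), (5, 15), (5, 12)] }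
  rep := [2, 5, 10, 0, 8, 14, 16, 13]

noncomputable def v3217 : Cov.CovD where
  P := 3
  N := 5
  pl := [1, 3, 7, 9]
  lev := [⟨[], [], [], [4], [(0, 3, [0, 7])]⟩,
    ⟨[], [(0, 0), (0, 3)], [(0, 3)], [2], [(0, 3, [0, 7]), (2, 0, [3])]⟩,
    ⟨[(0, 1)], [(1, 0), (1, 1), (1, 3)], [(0, 0), (0, 1)], [], [(2, 0, [3]), (4, 0, [3]),
      (5, 1, [])]⟩,
    ⟨[(0, 1), (0, 2), (1, 2)], [(0, 0), (0, 3), (0, 7), (1, 0), (1, 3), (1, 7), (2, 0), (2,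
      1), (2, 7)], [(0, 7)], [4], [(4, 0, [3]), (6, 7, [3])]⟩,
    ⟨[(1, 2), (2, 3)], [(2, 0), (2, 1), (3, 0)], [], [5], [(4, 0, [3])]⟩,
    ⟨[(1, 2), (2, 3), (2, 4)], [(2, 0), (2, 1), (4, 0), (4, 1)], [(1, 1)], [5, 6], [(5, 1,
      []), (8, 1, [])]⟩,
    ⟨[(2, 5), (4, 5)], [(2, 1), (5, 1)], [], [2, 6], [(5, 1, [])]⟩]
  Ta := [((2, 3), 0, 2), ((2, 5), 0, 1), ((4, 6), 0, 7), ((4, 7), 0, 5), ((5, 2), 1, 0), ((5, 3),
    1, 2), ((8, 7), 1, 5), ((8, 9), 1, 6)]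
  Tb := [((0, 1, 3), 3, 4, 2), ((1, 0, 6), 4, 3, 7), ((2, 3, 5), 0, 2, 1), ((3, 0, 2), 2, 3, 0),
    ((3, 0, 5), 2, 3, 1), ((3, 0, 9), 2, 3, 6), ((3, 2, 5), 2, 0, 1), ((3, 2, 9), 2, 0, 6),
    ((3, 5, 9), 2, 1, 6), ((4, 6, 7), 0, 7, 5), ((5, 2, 3), 1, 0, 2), ((6, 1, 4), 7, 4, 0),
    ((7, 4, 8), 5, 0, 1), ((8, 7, 9), 1, 5, 6), ((9, 3, 8), 6, 2, 1)]
  Tc := [(3, 0, 7)]
  Td := [((0, 3), (2, 3), 2), ((0, 3), (2, 5), 1), ((0, 3), (4, 6), 7), ((0, 3), (4, 7), 5), ((3,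
    0), (0, 1), 4), ((3, 0), (0, 3), 2), ((3, 7), (0, 1), 4), ((3, 7), (0, 3), 2), ((7, 3),
    (6, 1), 4), ((7, 3), (6, 4), 0)]
  G := [[0, 0xc22c22384c1268444caa188c41a484c1c21c284ce182c84c1428f,
    0xc12248c12184c12842c12482f, 0x482481d25488152184415244881c4152482441d2e8c881844f,
    0x881d2148881d2241188c384a841488192881d254ae], [0, 0,
    0x21821a16348c1221838c1284621861221a16d42e, 0,
    0x219824128815a74811281da248341182c384a815422c2196582e], [0, 0, 0,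
    0x44288192891d26c1442481928192481d2ec4152442c8828cc3,
    0x91524891d2882ac191522891d2882cc19444881d28192891d2ec87], [0, 0, 0, 0,
    0x3192421981924e815828daac1113428e48121549411662882c21c215a8192c4a7]]

noncomputable def n3217 : Ent := ⟨e3217, noF, [], [], []⟩

def c3217 : PLift (Cov.check n3217.C.D v3217 = true) := ⟨by decide +kernel⟩

def b3217 : PLift (entF (fidx ts) 400 3217 n3217 = true) := ⟨by decide +kernel⟩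

theorem g3217 : GoodF (fidx ts) 400 3217 := GoodF.ofV v3217 n3217 c3217.down b3217.down

/-- 4676474:2468 -/
noncomputable def e3218 : SCfg where
  D := {
    a := 7
    L := 11
    kp := 8
    inn := [(0, 1), (0, 3), (1, 0), (1, 2), (1, 3), (2, 1), (2, 3), (2, 4), (2, 5), (3, 0), (3, 1), (3,
      2), (4, 2), (4, 5), (5, 2), (5, 4), (5, 6), (6, 5)]
    mix := [(0, 0), (0, 1), (1, 0), (1, 2), (1, 3), (2, 2), (2, 4), (2, 5), (3, 1), (3, 4), (3, 6), (4,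
      4), (4, 7), (5, 5), (5, 7), (5, 8), (5, 9), (6, 5), (6, 9), (6, 10)]
    cl := [1, 4, 0, 7, 0, 3, 6, 2, 3, 5, 8]
    chq := [(0, 1), (1, 0), (1, 6), (6, 1)]
    rng := [(0, 1), (0, 3), (1, 0), (1, 6), (2, 3), (2, 5), (3, 0), (3, 2), (4, 6), (4, 7), (5, 2), (5,
      10), (6, 1), (6, 4), (7, 4), (7, 8), (8, 7), (8, 9), (9, 8), (9, 10), (10, 5), (10, 9)]
    lev := [] }
  links := [[1, 7, 8, 3], [7, 0, 3, 2, 9, 10], [9, 1, 3, 11, 4, 5, 12], [11, 2, 1, 0, 8, 13], [5, 2, 11,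
    14], [12, 2, 4, 14, 15, 16, 6], [12, 5, 16, 17]]
  P := {
    a := 7
    N := 18
    nb := [394, 1677, 6714, 10503, 18468, 118868, 200736, 1283, 8329, 5126, 642, 24604, 131684, 2312,
      34864, 81952, 163936, 69696]
    tri := [(0, 1, 3), (0, 1, 7), (0, 3, 8), (0, 7, 8), (1, 2, 3), (1, 2, 9), (1, 7, 10), (1, 9, 10),
      (2, 3, 11), (2, 4, 5), (2, 4, 11), (2, 5, 12), (2, 9, 12), (3, 8, 13), (3, 11, 13), (4, 5,
      14), (4, 11, 14), (5, 6, 12), (5, 6, 16), (5, 14, 15), (5, 15, 16), (6, 12, 17), (6, 16,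
      17)]
    fin := [0, 0, 2, 0, 2, 5, 5, 0, 8, 2, 10, 2, 5, 13, 14, 5, 16, 17]
    chd := [(0, 2), (0, 13)]
    steps := [(0, 1), (0, 3), (0, 7), (2, 4), (2, 11), (2, 9), (5, 6), (5, 15), (5, 12)] }
  rep := [2, 0, 14, 5, 8, 16, 13, 10, 17]

noncomputable def v3218 : Cov.CovD where
  P := 3
  N := 6
  pl := [1, 3, 7, 9, 10]
  lev := [⟨[], [], [], [4], [(0, 1, [0, 6])]⟩,
    ⟨[], [(0, 0), (0, 1)], [(0, 1)], [7], [(0, 1, [0, 6]), (2, 0, [1])]⟩,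
    ⟨[(0, 1)], [(1, 0), (1, 1), (1, 3)], [(0, 0), (0, 3)], [], [(2, 0, [1]), (4, 0, [1]),
      (5, 3, [])]⟩,
    ⟨[(0, 1), (0, 2), (1, 2)], [(0, 0), (0, 1), (0, 6), (1, 0), (1, 1), (1, 6), (2, 0), (2,
      3), (2, 6)], [(0, 6)], [4], [(4, 0, [1]), (6, 6, [1])]⟩,
    ⟨[(1, 2), (2, 3)], [(2, 0), (2, 3), (3, 0)], [], [2], [(4, 0, [1])]⟩,
    ⟨[(1, 2), (2, 3), (2, 4)], [(2, 0), (2, 3), (4, 0), (4, 3)], [(3, 3)], [2, 5], [(5, 3,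
      []), (8, 3, [])]⟩,
    ⟨[(2, 5), (4, 5)], [(2, 3), (5, 3)], [], [5, 8], [(5, 3, [])]⟩]
  Ta := [((2, 3), 0, 7), ((2, 5), 0, 3), ((4, 6), 0, 6), ((4, 7), 0, 2), ((5, 2), 3, 0), ((5,
    10), 3, 8), ((8, 7), 3, 2), ((8, 9), 3, 5)]
  Tb := [((0, 1, 3), 1, 4, 7), ((1, 0, 6), 4, 1, 6), ((2, 3, 5), 0, 7, 3), ((3, 0, 2), 7, 1, 0),
    ((4, 6, 7), 0, 6, 2), ((5, 2, 10), 3, 0, 8), ((6, 1, 4), 6, 4, 0), ((7, 4, 8), 2, 0, 3),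
    ((8, 7, 9), 3, 2, 5), ((9, 8, 10), 5, 3, 8), ((10, 5, 9), 8, 3, 5)]
  Tc := [(1, 0, 6)]
  Td := [((0, 1), (2, 3), 7), ((0, 1), (2, 5), 3), ((0, 1), (4, 6), 6), ((0, 1), (4, 7), 2), ((1,
    0), (0, 1), 4), ((1, 0), (0, 3), 7), ((1, 6), (0, 1), 4), ((1, 6), (0, 3), 7), ((6, 1),
    (6, 1), 4), ((6, 1), (6, 4), 0)]
  G := [[0, 0x263d88c122635a8c128635a8c124e, 0,
    0x635a8c12635a89635a8ca2c31a6c5635a8c62635a8c12cc,
    0xc8265383462c59a653c8a34c6538c82348c59623244d], [0, 0x484183581c2439418441a44cbd8128e,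
    0, 0x835814841643964528c283d88924439418481acc, 0x2adb824659218221cca2a59a1425962328cc],
    [0, 0x635a8c122263d88c12844a23dc124e,
    0x53682113e88c2288a13a88ce94c25498cae1324462215c643618ae3281c621285c64488c6e1c,
    0x635a8c635a8ca21263d88c635a8c621c, 0x653c8a653c8a653c8ae4162c59a241c], [0,
    0x48dd4128439418441a4484183581c2e, 0xa3698aa3698aa4163a54641a3e88a2c1c,
    0x439428358848ac1484283582484c87d4ce1c, 0x28bb8a87b2a4128225926822285384e1c]]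

noncomputable def n3218 : Ent := ⟨e3218, noF, [], [], [(17, 10, [6903326391201334775872705251651713694319475166462653752416129413353473, 0])]⟩

def c3218 : PLift (Cov.check n3218.C.D v3218 = true) := ⟨by decide +kernel⟩

def b3218 : PLift (entF (fidx ts) 400 3218 n3218 = true) := ⟨by decide +kernel⟩

theorem g3218 : GoodF (fidx ts) 400 3218 := GoodF.ofV v3218 n3218 c3218.down b3218.down

/-- 4874454:2474/2 -/
noncomputable def e3219 : SCfg where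
  D := {
    a := 7
    L := 9
    kp := 6
    inn := [(0, 1), (1, 0), (1, 2), (1, 3), (1, 4), (2, 1), (2, 3), (2, 5), (3, 1), (3, 2), (4, 1), (5,
      2), (5, 6), (6, 5)]
    mix := [(0, 0), (0, 1), (0, 2), (1, 0), (1, 2), (1, 3), (1, 4), (2, 3), (2, 5), (2, 6), (2, 7), (3,
      4), (3, 7), (4, 0), (4, 4), (4, 8), (5, 6), (5, 7), (5, 8), (6, 1), (6, 6), (6, 8)]
    cl := [3, 4, 5, 0, 0, 6, 1, 1, 2]
    chq := [(0, 3), (0, 4), (3, 0), (4, 0)]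
    rng := [(0, 1), (0, 8), (1, 0), (1, 2), (1, 6), (1, 8), (2, 1), (2, 3), (3, 2), (3, 5), (4, 7), (4,
      8), (5, 3), (5, 6), (6, 1), (6, 5), (7, 4), (7, 8), (8, 0), (8, 1), (8, 4), (8, 7)]
    lev := [] }
  links := [[1, 7, 8, 9], [7, 0, 9, 10, 2, 3, 11, 4], [3, 1, 10, 12, 13, 5, 14], [11, 1, 2, 14], [7, 1,
    11, 15], [14, 2, 13, 6, 15], [15, 5, 13, 8]]
  P := {
    a := 7
    N := 16
    nb := [898, 3741, 29738, 18438, 34946, 57412, 41248, 33043, 41665, 1283, 4614, 49178, 9220, 4452,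
      34860, 18928]
    tri := [(0, 1, 7), (0, 1, 9), (0, 7, 8), (0, 8, 9), (1, 2, 3), (1, 2, 10), (1, 3, 11), (1, 4, 7),
      (1, 4, 11), (1, 9, 10), (2, 3, 14), (2, 5, 13), (2, 5, 14), (2, 10, 12), (2, 12, 13), (3,
      11, 14), (4, 7, 15), (4, 11, 15), (5, 6, 13), (5, 6, 15), (5, 14, 15), (6, 8, 13), (6, 8,
      15)]
    fin := [0, 0, 2, 2, 4, 5, 0, 4, 0, 9, 2, 2, 12, 5, 5, 15]
    chd := [(0, 2), (4, 2)]
    steps := [(0, 1), (0, 8), (0, 6), (2, 3), (2, 10), (2, 11), (4, 7), (5, 13), (5, 14)] }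
  rep := [2, 5, 15, 4, 0, 9, 12]

noncomputable def v3219 : Cov.CovD where
  P := 3
  N := 4
  pl := [2, 5, 8]
  lev := [⟨[], [], [(3, 4)], [5], [(0, 3, [0]), (1, 4, [0])]⟩,
    ⟨[], [(0, 0), (0, 3), (0, 4)], [(0, 0), (0, 3)], [5], [(0, 3, [0]), (3, 0, [3, 4]), (4,
      0, [3, 4])]⟩,
    ⟨[(0, 1)], [(1, 0), (1, 1), (1, 3)], [(0, 1), (1, 1)], [6], [(3, 0, [3, 4]), (6, 1,
      []), (7, 1, [])]⟩,
    ⟨[(0, 1), (1, 2)], [(1, 0), (1, 1), (1, 3), (2, 0), (2, 1)], [(0, 1)], [], [(4, 0, [3,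
      4]), (7, 1, [])]⟩,
    ⟨[(0, 1), (1, 2), (1, 3)], [(0, 3), (1, 0), (1, 3), (3, 0)], [(0, 3)], [2], [(0, 3,
      [0]), (4, 0, [3, 4])]⟩,
    ⟨[(1, 2), (2, 3)], [(2, 0), (2, 1), (3, 1)], [(1, 1)], [2], [(6, 1, []), (7, 1, [])]⟩,
    ⟨[(2, 5)], [(0, 4), (2, 1), (5, 1), (5, 4)], [(1, 4)], [2], [(1, 4, [0]), (6, 1, [])]⟩]
  Ta := [((3, 2), 0, 5), ((3, 5), 0, 6), ((4, 7), 0, 1), ((4, 8), 0, 2), ((6, 1), 1, 4), ((6, 5),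
    1, 6), ((7, 4), 1, 0), ((7, 8), 1, 2)]
  Tb := [((0, 1, 8), 3, 4, 2), ((1, 0, 2), 4, 3, 5), ((1, 0, 6), 4, 3, 1), ((1, 0, 8), 4, 3, 2),
    ((1, 2, 6), 4, 5, 1), ((1, 2, 8), 4, 5, 2), ((1, 6, 8), 4, 1, 2), ((2, 1, 3), 5, 4, 0),
    ((3, 2, 5), 0, 5, 6), ((4, 7, 8), 0, 1, 2), ((5, 3, 6), 6, 0, 1), ((6, 1, 5), 1, 4, 6),
    ((7, 4, 8), 1, 0, 2), ((8, 0, 1), 2, 3, 4), ((8, 0, 4), 2, 3, 0), ((8, 0, 7), 2, 3, 1),
    ((8, 1, 4), 2, 4, 0), ((8, 1, 7), 2, 4, 1), ((8, 4, 7), 2, 0, 1)]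
  Tc := [(0, 3, 4)]
  Td := [((0, 3), (3, 2), 5), ((0, 3), (3, 5), 6), ((0, 3), (4, 7), 1), ((0, 3), (4, 8), 2), ((0,
    4), (3, 2), 5), ((0, 4), (3, 5), 6), ((0, 4), (4, 7), 1), ((0, 4), (4, 8), 2), ((3, 0),
    (0, 1), 4), ((3, 0), (0, 8), 2), ((4, 0), (1, 0), 3), ((4, 0), (1, 2), 5), ((4, 0), (1,
    6), 1), ((4, 0), (1, 8), 2)]
  G := [[0, 0, 0, 0,
    0x811441881811288e188241812811144e18141814c291121182c1111389818c18241824cef], [0, 0, 0,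
    0x141814181888d291145184c9441c818cc3,
    0x28842118c41818411888c21142818c221142881c21142118c28281ef], [0, 0, 0xc8841c4481c8281e1,
    0, 0x988219898a8198281e1], [0, 0x14821884614481842a1818c41818c4ce1, 0x248412848124281e1,
    0x1818c412c484158481c3, 0x288412828a8128281e1]]

noncomputable def n3219 : Ent := ⟨e3219, noF, [], [], []⟩

def c3219 : PLift (Cov.check n3219.C.D v3219 = true) := ⟨by decide +kernel⟩

def b3219 : PLift (entF (fidx ts) 400 3219 n3219 = true) := ⟨by decide +kernel⟩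

theorem g3219 : GoodF (fidx ts) 400 3219 := GoodF.ofV v3219 n3219 c3219.down b3219.down

/-- 4874454:2474/1 -/
noncomputable def e3220 : SCfg where
  D := {
    a := 7
    L := 10
    kp := 7
    inn := [(0, 1), (1, 0), (1, 2), (1, 3), (1, 4), (2, 1), (2, 3), (2, 5), (3, 1), (3, 2), (4, 1), (5,
      2), (5, 6), (6, 5)]
    mix := [(0, 0), (0, 1), (0, 2), (1, 0), (1, 2), (1, 3), (1, 4), (2, 3), (2, 5), (2, 6), (2, 7), (3,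
      4), (3, 7), (4, 0), (4, 4), (4, 8), (5, 6), (5, 7), (5, 9), (6, 1), (6, 6), (6, 9)]
    cl := [3, 4, 2, 0, 0, 6, 1, 1, 7, 5]
    chq := [(0, 3), (0, 4), (3, 0), (4, 0)]
    rng := [(0, 1), (0, 8), (1, 0), (1, 2), (1, 6), (1, 9), (2, 1), (2, 3), (3, 2), (3, 5), (4, 7), (4,
      8), (5, 3), (5, 6), (6, 1), (6, 5), (7, 4), (7, 9), (8, 0), (8, 4), (9, 1), (9, 7)]
    lev := [] }
  links := [[1, 7, 8, 9], [7, 0, 9, 10, 2, 3, 11, 4], [3, 1, 10, 12, 13, 5, 14], [11, 1, 2, 14], [7, 1,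
    11, 15], [14, 2, 13, 6, 16], [16, 5, 13, 8]]
  P := {
    a := 7
    N := 17
    nb := [898, 3741, 29738, 18438, 34946, 90180, 74016, 33043, 74433, 1283, 4614, 49178, 9220, 4452,
      67628, 2192, 16736]
    tri := [(0, 1, 7), (0, 1, 9), (0, 7, 8), (0, 8, 9), (1, 2, 3), (1, 2, 10), (1, 3, 11), (1, 4, 7),
      (1, 4, 11), (1, 9, 10), (2, 3, 14), (2, 5, 13), (2, 5, 14), (2, 10, 12), (2, 12, 13), (3,
      11, 14), (4, 7, 15), (4, 11, 15), (5, 6, 13), (5, 6, 16), (5, 14, 16), (6, 8, 13), (6, 8,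
      16)]
    fin := [0, 1, 2, 1, 4, 0, 0, 4, 0, 9, 1, 1, 12, 2, 2, 15, 16]
    chd := [(0, 1), (4, 1)]
    steps := [(0, 8), (0, 6), (0, 5), (1, 3), (1, 10), (1, 11), (2, 13), (2, 14), (4, 7)] }
  rep := [1, 2, 9, 4, 0, 16, 12, 15]

noncomputable def v3220 : Cov.CovD where
  P := 3
  N := 5
  pl := [2, 5, 8, 9]
  lev := [⟨[], [], [(3, 4)], [2], [(0, 3, [0]), (1, 4, [0])]⟩,
    ⟨[], [(0, 0), (0, 3), (0, 4)], [(0, 0), (0, 3)], [2], [(0, 3, [0]), (3, 0, [3, 4]), (4,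
      0, [3, 4])]⟩,
    ⟨[(0, 1)], [(1, 0), (1, 1), (1, 3)], [(0, 1), (1, 1)], [6], [(3, 0, [3, 4]), (6, 1,
      []), (7, 1, [])]⟩,
    ⟨[(0, 1), (1, 2)], [(1, 0), (1, 1), (1, 3), (2, 0), (2, 1)], [(0, 1)], [], [(4, 0, [3,
      4]), (7, 1, [])]⟩,
    ⟨[(0, 1), (1, 2), (1, 3)], [(0, 3), (1, 0), (1, 3), (3, 0)], [(0, 3)], [7], [(0, 3,
      [0]), (4, 0, [3, 4])]⟩,
    ⟨[(1, 2), (2, 3)], [(2, 0), (2, 1), (3, 1)], [(1, 1)], [5], [(6, 1, []), (7, 1, [])]⟩,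
    ⟨[(2, 5)], [(0, 4), (2, 1), (5, 1), (5, 4)], [(1, 4)], [5], [(1, 4, [0]), (6, 1, [])]⟩]
  Ta := [((3, 2), 0, 2), ((3, 5), 0, 6), ((4, 7), 0, 1), ((4, 8), 0, 7), ((6, 1), 1, 4), ((6, 5),
    1, 6), ((7, 4), 1, 0), ((7, 9), 1, 5)]
  Tb := [((0, 1, 8), 3, 4, 7), ((1, 0, 2), 4, 3, 2), ((1, 0, 6), 4, 3, 1), ((1, 0, 9), 4, 3, 5),
    ((1, 2, 6), 4, 2, 1), ((1, 2, 9), 4, 2, 5), ((1, 6, 9), 4, 1, 5), ((2, 1, 3), 2, 4, 0),
    ((3, 2, 5), 0, 2, 6), ((4, 7, 8), 0, 1, 7), ((5, 3, 6), 6, 0, 1), ((6, 1, 5), 1, 4, 6),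
    ((7, 4, 9), 1, 0, 5), ((8, 0, 4), 7, 3, 0), ((9, 1, 7), 5, 4, 1)]
  Tc := [(0, 3, 4)]
  Td := [((0, 3), (3, 2), 2), ((0, 3), (3, 5), 6), ((0, 3), (4, 7), 1), ((0, 3), (4, 8), 7), ((0,
    4), (3, 2), 2), ((0, 4), (3, 5), 6), ((0, 4), (4, 7), 1), ((0, 4), (4, 8), 7), ((3, 0),
    (0, 1), 4), ((3, 0), (0, 8), 7), ((4, 0), (1, 0), 3), ((4, 0), (1, 2), 2), ((4, 0), (1,
    6), 1), ((4, 0), (1, 9), 5)]
  G := [[0, 0, 0x819144815188485188e419144415188419144ec1518c1918c2e,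
    0xc15c9532c19c1941b4cc15c9598c5918cc1, 0xc95c1552c591295c82dc9514c59c5961ca1], [0, 0,
    0x819144815188c419144425188c21c1421914c2e, 0x215143251892cd1ca4d25c1425918cc1,
    0x2151412c1118ca861cc4d1472c3429518ca1], [0, 0, 0, 0x95c95ca4195c95c681c1,
    0x95c95cc2195c95c681a1], [0, 0x11a11ca211c11ca2611c11a6211a11c68ac1, 0,
    0x25c25ca4192c92c681c1, 0x36c25cc413ac63c681a1]]

noncomputable def n3220 : Ent := ⟨e3220, noF, [], [], [(16, 15, [1685356702439545624007900436039642273970977273354372543760013275137, 0])]⟩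

def c3220 : PLift (Cov.check n3220.C.D v3220 = true) := ⟨by decide +kernel⟩

def b3220 : PLift (entF (fidx ts) 400 3220 n3220 = true) := ⟨by decide +kernel⟩

theorem g3220 : GoodF (fidx ts) 400 3220 := GoodF.ofV v3220 n3220 c3220.down b3220.down

/-- 4874454:2474/4 -/
noncomputable def e3221 : SCfg where
  D := {
    a := 7
    L := 9
    kp := 6
    inn := [(0, 1), (1, 0), (1, 2), (1, 3), (1, 4), (2, 1), (2, 3), (2, 5), (3, 1), (3, 2), (4, 1), (5,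
      2), (5, 6), (6, 5)]
    mix := [(0, 0), (0, 1), (0, 2), (1, 0), (1, 2), (1, 3), (1, 4), (2, 3), (2, 5), (2, 6), (2, 7), (3,
      4), (3, 7), (4, 0), (4, 4), (4, 8), (5, 1), (5, 6), (5, 7), (6, 1), (6, 6), (6, 8)]
    cl := [3, 4, 2, 0, 0, 6, 1, 1, 5]
    chq := [(0, 3), (0, 4), (3, 0), (4, 0)]
    rng := [(0, 1), (0, 8), (1, 0), (1, 2), (1, 7), (1, 8), (2, 1), (2, 3), (3, 2), (3, 5), (4, 7), (4,
      8), (5, 3), (5, 6), (6, 5), (6, 8), (7, 1), (7, 4), (8, 0), (8, 1), (8, 4), (8, 6)]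
    lev := [] }
  links := [[1, 7, 8, 9], [7, 0, 9, 10, 2, 3, 11, 4], [3, 1, 10, 12, 13, 5, 14], [11, 1, 2, 14], [7, 1,
    11, 15], [14, 2, 13, 6, 8], [8, 5, 13, 15]]
  P := {
    a := 7
    N := 16
    nb := [898, 3741, 29738, 18438, 34946, 24900, 41248, 33043, 49889, 1283, 4614, 49178, 9220, 36964,
      2348, 10704]
    tri := [(0, 1, 7), (0, 1, 9), (0, 7, 8), (0, 8, 9), (1, 2, 3), (1, 2, 10), (1, 3, 11), (1, 4, 7),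
      (1, 4, 11), (1, 9, 10), (2, 3, 14), (2, 5, 13), (2, 5, 14), (2, 10, 12), (2, 12, 13), (3,
      11, 14), (4, 7, 15), (4, 11, 15), (5, 6, 8), (5, 6, 13), (5, 8, 14), (6, 8, 15), (6, 13,
      15)]
    fin := [0, 0, 2, 2, 4, 5, 0, 4, 0, 9, 2, 2, 12, 5, 5, 15]
    chd := [(0, 2), (4, 2)]
    steps := [(0, 1), (0, 8), (0, 6), (2, 3), (2, 10), (2, 11), (4, 7), (5, 13), (5, 14)] }
  rep := [2, 5, 9, 4, 0, 15, 12]

noncomputable def v3221 : Cov.CovD where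
  P := 3
  N := 4
  pl := [2, 5, 8]
  lev := [⟨[], [], [(3, 4)], [2], [(0, 3, [0]), (1, 4, [0])]⟩,
    ⟨[], [(0, 0), (0, 3), (0, 4)], [(0, 0), (0, 3)], [2], [(0, 3, [0]), (3, 0, [3, 4]), (4,
      0, [3, 4])]⟩,
    ⟨[(0, 1)], [(1, 0), (1, 1), (1, 3)], [(0, 1), (1, 1)], [6], [(3, 0, [3, 4]), (6, 1,
      []), (7, 1, [])]⟩,
    ⟨[(0, 1), (1, 2)], [(1, 0), (1, 1), (1, 3), (2, 0), (2, 1)], [(0, 1)], [], [(4, 0, [3,
      4]), (7, 1, [])]⟩,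
    ⟨[(0, 1), (1, 2), (1, 3)], [(0, 3), (1, 0), (1, 3), (3, 0)], [(0, 3)], [5], [(0, 3,
      [0]), (4, 0, [3, 4])]⟩,
    ⟨[(1, 2), (2, 3)], [(0, 4), (2, 0), (2, 1), (2, 4), (3, 1)], [(1, 1), (1, 4)], [], [(1,
      4, [0]), (6, 1, []), (7, 1, [])]⟩,
    ⟨[(2, 5)], [(0, 4), (2, 1), (5, 1), (5, 4)], [(1, 4)], [5], [(1, 4, [0]), (6, 1, [])]⟩]
  Ta := [((3, 2), 0, 2), ((3, 5), 0, 6), ((4, 7), 0, 1), ((4, 8), 0, 5), ((6, 5), 1, 6), ((6, 8),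
    1, 5), ((7, 1), 1, 4), ((7, 4), 1, 0)]
  Tb := [((0, 1, 8), 3, 4, 5), ((1, 0, 2), 4, 3, 2), ((1, 0, 7), 4, 3, 1), ((1, 0, 8), 4, 3, 5),
    ((1, 2, 7), 4, 2, 1), ((1, 2, 8), 4, 2, 5), ((1, 7, 8), 4, 1, 5), ((2, 1, 3), 2, 4, 0),
    ((3, 2, 5), 0, 2, 6), ((4, 7, 8), 0, 1, 5), ((5, 3, 6), 6, 0, 1), ((6, 5, 8), 1, 6, 5),
    ((7, 1, 4), 1, 4, 0), ((8, 0, 1), 5, 3, 4), ((8, 0, 4), 5, 3, 0), ((8, 0, 6), 5, 3, 1),
    ((8, 1, 4), 5, 4, 0), ((8, 1, 6), 5, 4, 1), ((8, 4, 6), 5, 0, 1)]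
  Tc := [(0, 3, 4)]
  Td := [((0, 3), (3, 2), 2), ((0, 3), (3, 5), 6), ((0, 3), (4, 7), 1), ((0, 3), (4, 8), 5), ((0,
    4), (3, 2), 2), ((0, 4), (3, 5), 6), ((0, 4), (4, 7), 1), ((0, 4), (4, 8), 5), ((3, 0),
    (0, 1), 4), ((3, 0), (0, 8), 5), ((4, 0), (1, 0), 3), ((4, 0), (1, 2), 2), ((4, 0), (1,
    7), 1), ((4, 0), (1, 8), 5)]
  G := [[0, 0, 0x11181112c414141412c811141114c2e, 0x1112111881c14ca4d41581568c1912cc1,
    0x111458111114d8c211c1532c1914c83], [0, 0, 0x111442118811248e141841118814184e11182118c2e,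
    0x2152121924c2291422918cc1, 0x2151421914c2152121924ca1], [0, 0, 0,
    0x81c14ca4114c81c621c1, 0x14c481c8c194cd4641a1], [0,
    0x12116a21211aa46121266811a221248ec1, 0, 0x22c28182c24c21ce81c1, 0x2424cc4125c241a1]]

noncomputable def n3221 : Ent := ⟨e3221, noF, [], [], []⟩

def c3221 : PLift (Cov.check n3221.C.D v3221 = true) := ⟨by decide +kernel⟩

def b3221 : PLift (entF (fidx ts) 400 3221 n3221 = true) := ⟨by decide +kernel⟩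

theorem g3221 : GoodF (fidx ts) 400 3221 := GoodF.ofV v3221 n3221 c3221.down b3221.down

/-- 4874454:2474/3 -/
noncomputable def e3222 : SCfg where
  D := {
    a := 7
    L := 10
    kp := 7
    inn := [(0, 1), (1, 0), (1, 2), (1, 3), (1, 4), (2, 1), (2, 3), (2, 5), (3, 1), (3, 2), (4, 1), (5,
      2), (5, 6), (6, 5)]
    mix := [(0, 0), (0, 1), (0, 2), (1, 0), (1, 2), (1, 3), (1, 4), (2, 3), (2, 5), (2, 6), (2, 7), (3,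
      4), (3, 7), (4, 0), (4, 4), (4, 8), (5, 1), (5, 6), (5, 7), (6, 1), (6, 6), (6, 9)]
    cl := [3, 4, 2, 0, 0, 5, 1, 1, 6, 7]
    chq := [(0, 3), (0, 4), (3, 0), (4, 0)]
    rng := [(0, 1), (0, 8), (1, 0), (1, 2), (1, 7), (1, 9), (2, 1), (2, 3), (3, 2), (3, 5), (4, 7), (4,
      8), (5, 3), (5, 6), (6, 5), (6, 9), (7, 1), (7, 4), (8, 0), (8, 4), (9, 1), (9, 6)]
    lev := [] }
  links := [[1, 7, 8, 9], [7, 0, 9, 10, 2, 3, 11, 4], [3, 1, 10, 12, 13, 5, 14], [11, 1, 2, 14], [7, 1,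
    11, 15], [14, 2, 13, 6, 8], [8, 5, 13, 16]]
  P := {
    a := 7
    N := 17
    nb := [898, 3741, 29738, 18438, 34946, 24900, 74016, 33043, 82657, 1283, 4614, 49178, 9220, 69732,
      2348, 2192, 8512]
    tri := [(0, 1, 7), (0, 1, 9), (0, 7, 8), (0, 8, 9), (1, 2, 3), (1, 2, 10), (1, 3, 11), (1, 4, 7),
      (1, 4, 11), (1, 9, 10), (2, 3, 14), (2, 5, 13), (2, 5, 14), (2, 10, 12), (2, 12, 13), (3,
      11, 14), (4, 7, 15), (4, 11, 15), (5, 6, 8), (5, 6, 13), (5, 8, 14), (6, 8, 16), (6, 13,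
      16)]
    fin := [0, 0, 2, 2, 4, 5, 0, 4, 0, 9, 2, 2, 12, 5, 5, 15, 16]
    chd := [(0, 2), (4, 2)]
    steps := [(0, 1), (0, 8), (0, 6), (2, 3), (2, 10), (2, 11), (4, 7), (5, 13), (5, 14)] }
  rep := [2, 5, 9, 4, 0, 12, 15, 16]

noncomputable def v3222 : Cov.CovD where
  P := 3
  N := 5
  pl := [2, 5, 8, 9]
  lev := [⟨[], [], [(3, 4)], [2], [(0, 3, [0]), (1, 4, [0])]⟩,
    ⟨[], [(0, 0), (0, 3), (0, 4)], [(0, 0), (0, 3)], [2], [(0, 3, [0]), (3, 0, [3, 4]), (4,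
      0, [3, 4])]⟩,
    ⟨[(0, 1)], [(1, 0), (1, 1), (1, 3)], [(0, 1), (1, 1)], [5], [(3, 0, [3, 4]), (6, 1,
      []), (7, 1, [])]⟩,
    ⟨[(0, 1), (1, 2)], [(1, 0), (1, 1), (1, 3), (2, 0), (2, 1)], [(0, 1)], [], [(4, 0, [3,
      4]), (7, 1, [])]⟩,
    ⟨[(0, 1), (1, 2), (1, 3)], [(0, 3), (1, 0), (1, 3), (3, 0)], [(0, 3)], [6], [(0, 3,
      [0]), (4, 0, [3, 4])]⟩,
    ⟨[(1, 2), (2, 3)], [(0, 4), (2, 0), (2, 1), (2, 4), (3, 1)], [(1, 1), (1, 4)], [], [(1,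
      4, [0]), (6, 1, []), (7, 1, [])]⟩,
    ⟨[(2, 5)], [(0, 4), (2, 1), (5, 1), (5, 4)], [(1, 4)], [7], [(1, 4, [0]), (6, 1, [])]⟩]
  Ta := [((3, 2), 0, 2), ((3, 5), 0, 5), ((4, 7), 0, 1), ((4, 8), 0, 6), ((6, 5), 1, 5), ((6, 9),
    1, 7), ((7, 1), 1, 4), ((7, 4), 1, 0)]
  Tb := [((0, 1, 8), 3, 4, 6), ((1, 0, 2), 4, 3, 2), ((1, 0, 7), 4, 3, 1), ((1, 0, 9), 4, 3, 7),
    ((1, 2, 7), 4, 2, 1), ((1, 2, 9), 4, 2, 7), ((1, 7, 9), 4, 1, 7), ((2, 1, 3), 2, 4, 0),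
    ((3, 2, 5), 0, 2, 5), ((4, 7, 8), 0, 1, 6), ((5, 3, 6), 5, 0, 1), ((6, 5, 9), 1, 5, 7),
    ((7, 1, 4), 1, 4, 0), ((8, 0, 4), 6, 3, 0), ((9, 1, 6), 7, 4, 1)]
  Tc := [(0, 3, 4)]
  Td := [((0, 3), (3, 2), 2), ((0, 3), (3, 5), 5), ((0, 3), (4, 7), 1), ((0, 3), (4, 8), 6), ((0,
    4), (3, 2), 2), ((0, 4), (3, 5), 5), ((0, 4), (4, 7), 1), ((0, 4), (4, 8), 6), ((3, 0),
    (0, 1), 4), ((3, 0), (0, 8), 6), ((4, 0), (1, 0), 3), ((4, 0), (1, 2), 2), ((4, 0), (1,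
    7), 1), ((4, 0), (1, 9), 7)]
  G := [[0, 0, 0x9112491148c51145114c8d118d118c2e, 0xd1c9532c5912cd1c9598d1d1c59b8cc1,
    0xd1d1d1d811cd18c2c9512c59c59c4c83], [0, 0,
    0x981442814851188e211445118894184e21182114c2e, 0x2251422518c2128321452121229b8cc1,
    0x211421143ac92cc4dc251825914ca1], [0, 0, 0, 0x95c95ca4195c95c621c1,
    0x95c95cc4195c95c641a1], [0, 0x116116a211611aa4611c1166211a11a68ac1, 0,
    0x22c22ca4122c22c681c1, 0x92c22cc4192c25c681a1]]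

noncomputable def n3222 : Ent := ⟨e3222, noF, [], [], [(16, 15, [1685356702439545624007900436039642273970977273354372543760013283329, 0])]⟩

def c3222 : PLift (Cov.check n3222.C.D v3222 = true) := ⟨by decide +kernel⟩

def b3222 : PLift (entF (fidx ts) 400 3222 n3222 = true) := ⟨by decide +kernel⟩

theorem g3222 : GoodF (fidx ts) 400 3222 := GoodF.ofV v3222 n3222 c3222.down b3222.down

/-- 4874454:2474/5 -/
noncomputable def e3223 : SCfg where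
  D := {
    a := 7
    L := 10
    kp := 7
    inn := [(0, 1), (1, 0), (1, 2), (1, 3), (1, 4), (2, 1), (2, 3), (2, 5), (3, 1), (3, 2), (4, 1), (5,
      2), (5, 6), (6, 5)]
    mix := [(0, 0), (0, 1), (0, 2), (1, 0), (1, 2), (1, 3), (1, 4), (2, 3), (2, 5), (2, 6), (2, 7), (3,
      4), (3, 7), (4, 0), (4, 4), (4, 8), (5, 6), (5, 7), (5, 9), (6, 6), (6, 8), (6, 9)]
    cl := [3, 6, 2, 0, 0, 7, 1, 1, 4, 5]
    chq := [(0, 3), (0, 6), (3, 0), (6, 0)]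
    rng := [(0, 1), (0, 8), (1, 0), (1, 2), (2, 1), (2, 3), (3, 2), (3, 5), (4, 7), (4, 8), (5, 3), (5,
      6), (6, 5), (6, 8), (7, 4), (7, 9), (8, 0), (8, 4), (8, 6), (8, 9), (9, 7), (9, 8)]
    lev := [] }
  links := [[1, 7, 8, 9], [7, 0, 9, 10, 2, 3, 11, 4], [3, 1, 10, 12, 13, 5, 14], [11, 1, 2, 14], [7, 1,
    11, 15], [14, 2, 13, 6, 16], [16, 5, 13, 15]]
  P := {
    a := 7
    N := 17
    nb := [898, 3741, 29738, 18438, 34946, 90180, 106528, 33043, 641, 1283, 4614, 49178, 9220, 36964,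
      67628, 75984, 49248]
    tri := [(0, 1, 7), (0, 1, 9), (0, 7, 8), (0, 8, 9), (1, 2, 3), (1, 2, 10), (1, 3, 11), (1, 4, 7),
      (1, 4, 11), (1, 9, 10), (2, 3, 14), (2, 5, 13), (2, 5, 14), (2, 10, 12), (2, 12, 13), (3,
      11, 14), (4, 7, 15), (4, 11, 15), (5, 6, 13), (5, 6, 16), (5, 14, 16), (6, 13, 15), (6, 15,
      16)]
    fin := [0, 0, 2, 2, 4, 5, 5, 4, 0, 9, 2, 2, 12, 5, 5, 15, 16]
    chd := [(0, 2), (4, 2)]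
    steps := [(0, 1), (0, 8), (2, 3), (2, 10), (2, 11), (4, 7), (5, 6), (5, 13), (5, 14)] }
  rep := [2, 5, 9, 4, 15, 16, 0, 12]

noncomputable def v3223 : Cov.CovD where
  P := 3
  N := 5
  pl := [2, 5, 8, 9]
  lev := [⟨[], [], [(3, 6)], [2], [(0, 3, [0]), (1, 6, [0])]⟩,
    ⟨[], [(0, 0), (0, 3), (0, 6)], [(0, 0), (0, 3)], [2], [(0, 3, [0]), (3, 0, [3, 6]), (4,
      0, [3, 6])]⟩,
    ⟨[(0, 1)], [(1, 0), (1, 1), (1, 3)], [(0, 1), (1, 1)], [7], [(3, 0, [3, 6]), (6, 1,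
      []), (7, 1, [])]⟩,
    ⟨[(0, 1), (1, 2)], [(1, 0), (1, 1), (1, 3), (2, 0), (2, 1)], [(0, 1)], [], [(4, 0, [3,
      6]), (7, 1, [])]⟩,
    ⟨[(0, 1), (1, 2), (1, 3)], [(0, 3), (1, 0), (1, 3), (3, 0)], [(0, 3)], [4], [(0, 3,
      [0]), (4, 0, [3, 6])]⟩,
    ⟨[(1, 2), (2, 3)], [(2, 0), (2, 1), (3, 1)], [(1, 1)], [5], [(6, 1, []), (7, 1, [])]⟩,
    ⟨[(2, 5)], [(2, 1), (5, 1)], [], [4, 5], [(6, 1, [])]⟩]
  Ta := [((3, 2), 0, 2), ((3, 5), 0, 7), ((4, 7), 0, 1), ((4, 8), 0, 4), ((6, 5), 1, 7), ((6, 8),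
    1, 4), ((7, 4), 1, 0), ((7, 9), 1, 5)]
  Tb := [((0, 1, 8), 3, 6, 4), ((1, 0, 2), 6, 3, 2), ((2, 1, 3), 2, 6, 0), ((3, 2, 5), 0, 2, 7),
    ((4, 7, 8), 0, 1, 4), ((5, 3, 6), 7, 0, 1), ((6, 5, 8), 1, 7, 4), ((7, 4, 9), 1, 0, 5),
    ((8, 0, 4), 4, 3, 0), ((8, 0, 6), 4, 3, 1), ((8, 0, 9), 4, 3, 5), ((8, 4, 6), 4, 0, 1),
    ((8, 4, 9), 4, 0, 5), ((8, 6, 9), 4, 1, 5), ((9, 7, 8), 5, 1, 4)]
  Tc := [(0, 3, 6)]
  Td := [((0, 3), (3, 2), 2), ((0, 3), (3, 5), 7), ((0, 3), (4, 7), 1), ((0, 3), (4, 8), 4), ((0,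
    6), (3, 2), 2), ((0, 6), (3, 5), 7), ((0, 6), (4, 7), 1), ((0, 6), (4, 8), 4), ((3, 0),
    (0, 1), 6), ((3, 0), (0, 8), 4), ((6, 0), (1, 0), 3), ((6, 0), (1, 2), 2)]
  G := [[0, 0, 0xc19144c15148c15148e481d124c15188c19184ec1514481d18c2e,
    0xc15144811381c8ac4158156211c4938cc1, 0xc1512884811d4c41519c641111c874ca1], [0, 0,
    0x219144325188219248e219144215188215184e2151821914c2e, 0x2151421924c3252432918cc1,
    0x2151421914c2152121924ca1], [0, 0, 0, 0x81c14ca2114c81c681c1, 0x81c14cc2114c95c641a1],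
    [0, 0x186126a281a11ca464161266811c82c62ac1, 0, 0x82c12ca4114c32c681c1,
    0x81c24cc4192c241a1]]

noncomputable def n3223 : Ent := ⟨e3223, noF, [], [], [(8, 16, [1580044410770988437309982408355971841652082177953823432505702305793, 0])]⟩

def c3223 : PLift (Cov.check n3223.C.D v3223 = true) := ⟨by decide +kernel⟩

def b3223 : PLift (entF (fidx ts) 400 3223 n3223 = true) := ⟨by decide +kernel⟩

theorem g3223 : GoodF (fidx ts) 400 3223 := GoodF.ofV v3223 n3223 c3223.down b3223.down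

/-- 4874454:2474/6 -/
noncomputable def e3224 : SCfg where
  D := {
    a := 7
    L := 10
    kp := 7
    inn := [(0, 1), (1, 0), (1, 2), (1, 3), (1, 4), (2, 1), (2, 3), (2, 5), (3, 1), (3, 2), (4, 1), (5,
      2), (5, 6), (6, 5)]
    mix := [(0, 0), (0, 1), (0, 2), (1, 0), (1, 2), (1, 3), (1, 4), (2, 3), (2, 5), (2, 6), (2, 7), (3,
      4), (3, 7), (4, 0), (4, 4), (4, 8), (5, 6), (5, 7), (5, 8), (6, 6), (6, 8), (6, 9)]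
    cl := [1, 5, 2, 0, 0, 6, 3, 3, 4, 7]
    chq := [(0, 1), (0, 5), (1, 0), (5, 0)]
    rng := [(0, 1), (0, 8), (1, 0), (1, 2), (2, 1), (2, 3), (3, 2), (3, 5), (4, 7), (4, 8), (5, 3), (5,
      6), (6, 5), (6, 9), (7, 4), (7, 8), (8, 0), (8, 4), (8, 7), (8, 9), (9, 6), (9, 8)]
    lev := [] }
  links := [[1, 7, 8, 9], [7, 0, 9, 10, 2, 3, 11, 4], [3, 1, 10, 12, 13, 5, 14], [11, 1, 2, 14], [7, 1,
    11, 15], [14, 2, 13, 6, 15], [15, 5, 13, 16]]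
  P := {
    a := 7
    N := 17
    nb := [898, 3741, 29738, 18438, 34946, 57412, 106528, 33043, 641, 1283, 4614, 49178, 9220, 69732,
      34860, 84208, 41024]
    tri := [(0, 1, 7), (0, 1, 9), (0, 7, 8), (0, 8, 9), (1, 2, 3), (1, 2, 10), (1, 3, 11), (1, 4, 7),
      (1, 4, 11), (1, 9, 10), (2, 3, 14), (2, 5, 13), (2, 5, 14), (2, 10, 12), (2, 12, 13), (3,
      11, 14), (4, 7, 15), (4, 11, 15), (5, 6, 13), (5, 6, 15), (5, 14, 15), (6, 13, 16), (6, 15,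
      16)]
    fin := [0, 0, 2, 2, 4, 5, 5, 4, 0, 9, 2, 2, 12, 5, 5, 15, 16]
    chd := [(0, 2), (4, 2)]
    steps := [(0, 1), (0, 8), (2, 3), (2, 10), (2, 11), (4, 7), (5, 6), (5, 13), (5, 14)] }
  rep := [2, 4, 9, 5, 15, 0, 12, 16]

noncomputable def v3224 : Cov.CovD where
  P := 3
  N := 5
  pl := [2, 5, 8, 9]
  lev := [⟨[], [], [(1, 5)], [2], [(0, 1, [0]), (1, 5, [0])]⟩,
    ⟨[], [(0, 0), (0, 1), (0, 5)], [(0, 0), (0, 1)], [2], [(0, 1, [0]), (3, 0, [1, 5]), (4,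
      0, [1, 5])]⟩,
    ⟨[(0, 1)], [(1, 0), (1, 1), (1, 3)], [(0, 3), (3, 3)], [6], [(3, 0, [1, 5]), (6, 3,
      []), (7, 3, [])]⟩,
    ⟨[(0, 1), (1, 2)], [(1, 0), (1, 1), (1, 3), (2, 0), (2, 3)], [(0, 3)], [], [(4, 0, [1,
      5]), (7, 3, [])]⟩,
    ⟨[(0, 1), (1, 2), (1, 3)], [(0, 1), (1, 0), (1, 1), (3, 0)], [(0, 1)], [4], [(0, 1,
      [0]), (4, 0, [1, 5])]⟩,
    ⟨[(1, 2), (2, 3)], [(2, 0), (2, 3), (3, 3)], [(3, 3)], [4], [(6, 3, []), (7, 3, [])]⟩,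
    ⟨[(2, 5)], [(2, 3), (5, 3)], [], [4, 7], [(6, 3, [])]⟩]
  Ta := [((3, 2), 0, 2), ((3, 5), 0, 6), ((4, 7), 0, 3), ((4, 8), 0, 4), ((6, 5), 3, 6), ((6, 9),
    3, 7), ((7, 4), 3, 0), ((7, 8), 3, 4)]
  Tb := [((0, 1, 8), 1, 5, 4), ((1, 0, 2), 5, 1, 2), ((2, 1, 3), 2, 5, 0), ((3, 2, 5), 0, 2, 6),
    ((4, 7, 8), 0, 3, 4), ((5, 3, 6), 6, 0, 3), ((6, 5, 9), 3, 6, 7), ((7, 4, 8), 3, 0, 4),
    ((8, 0, 4), 4, 1, 0), ((8, 0, 7), 4, 1, 3), ((8, 0, 9), 4, 1, 7), ((8, 4, 7), 4, 0, 3),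
    ((8, 4, 9), 4, 0, 7), ((8, 7, 9), 4, 3, 7), ((9, 6, 8), 7, 3, 4)]
  Tc := [(0, 1, 5)]
  Td := [((0, 1), (3, 2), 2), ((0, 1), (3, 5), 6), ((0, 1), (4, 7), 3), ((0, 1), (4, 8), 4), ((0,
    5), (3, 2), 2), ((0, 5), (3, 5), 6), ((0, 5), (4, 7), 3), ((0, 5), (4, 8), 4), ((1, 0),
    (0, 1), 5), ((1, 0), (0, 8), 4), ((5, 0), (1, 0), 1), ((5, 0), (1, 2), 2)]
  G := [[0, 0x985432e4181, 0xf112f118f112e4f114f1146f1188cc, 0xf112f112f114e81,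
    0xf112f114f112e81], [0, 0x54286483266181, 0x71144b1187112ace114d112671188cc,
    0xe1144e118d112ac1, 0x211b116b114b112e81], [0, 0x985432e8141, 0, 0x93a536c8141,
    0x93a536c2181], [0, 0x54286483266181, 0, 0x1214c228a4c3244ac651814c22c1,
    0x18314c218914c22824c9842c6781]]

noncomputable def n3224 : Ent := ⟨e3224, noF, [], [], [(8, 16, [1580044410770988437309982408355971841652082177953823432505702297601, 0])]⟩

def c3224 : PLift (Cov.check n3224.C.D v3224 = true) := ⟨by decide +kernel⟩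

def b3224 : PLift (entF (fidx ts) 400 3224 n3224 = true) := ⟨by decide +kernel⟩

theorem g3224 : GoodF (fidx ts) 400 3224 := GoodF.ofV v3224 n3224 c3224.down b3224.down

/-- 4874454:2474 -/
noncomputable def e3225 : SCfg where
  D := {
    a := 7
    L := 11
    kp := 8
    inn := [(0, 1), (1, 0), (1, 2), (1, 3), (1, 4), (2, 1), (2, 3), (2, 5), (3, 1), (3, 2), (4, 1), (5,
      2), (5, 6), (6, 5)]
    mix := [(0, 0), (0, 1), (0, 2), (1, 0), (1, 2), (1, 3), (1, 4), (2, 3), (2, 5), (2, 6), (2, 7), (3,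
      4), (3, 7), (4, 0), (4, 4), (4, 8), (5, 6), (5, 7), (5, 9), (6, 6), (6, 9), (6, 10)]
    cl := [1, 5, 2, 0, 0, 6, 3, 3, 7, 4, 8]
    chq := [(0, 1), (0, 5), (1, 0), (5, 0)]
    rng := [(0, 1), (0, 8), (1, 0), (1, 2), (2, 1), (2, 3), (3, 2), (3, 5), (4, 7), (4, 8), (5, 3), (5,
      6), (6, 5), (6, 10), (7, 4), (7, 9), (8, 0), (8, 4), (9, 7), (9, 10), (10, 6), (10, 9)]
    lev := [] }
  links := [[1, 7, 8, 9], [7, 0, 9, 10, 2, 3, 11, 4], [3, 1, 10, 12, 13, 5, 14], [11, 1, 2, 14], [7, 1,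
    11, 15], [14, 2, 13, 6, 16], [16, 5, 13, 17]]
  P := {
    a := 7
    N := 18
    nb := [898, 3741, 29738, 18438, 34946, 90180, 204832, 33043, 641, 1283, 4614, 49178, 9220, 135268,
      67628, 2192, 147552, 73792]
    tri := [(0, 1, 7), (0, 1, 9), (0, 7, 8), (0, 8, 9), (1, 2, 3), (1, 2, 10), (1, 3, 11), (1, 4, 7),
      (1, 4, 11), (1, 9, 10), (2, 3, 14), (2, 5, 13), (2, 5, 14), (2, 10, 12), (2, 12, 13), (3,
      11, 14), (4, 7, 15), (4, 11, 15), (5, 6, 13), (5, 6, 16), (5, 14, 16), (6, 13, 17), (6, 16,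
      17)]
    fin := [0, 0, 2, 2, 4, 5, 5, 4, 0, 9, 2, 2, 12, 5, 5, 15, 16, 17]
    chd := [(0, 2), (4, 2)]
    steps := [(0, 1), (0, 8), (2, 3), (2, 10), (2, 11), (4, 7), (5, 6), (5, 13), (5, 14)] }
  rep := [2, 4, 9, 5, 16, 0, 12, 15, 17]

noncomputable def v3225 : Cov.CovD where
  P := 3
  N := 6
  pl := [2, 5, 8, 9, 10]
  lev := [⟨[], [], [(1, 5)], [2], [(0, 1, [0]), (1, 5, [0])]⟩,
    ⟨[], [(0, 0), (0, 1), (0, 5)], [(0, 0), (0, 1)], [2], [(0, 1, [0]), (3, 0, [1, 5]), (4,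
      0, [1, 5])]⟩,
    ⟨[(0, 1)], [(1, 0), (1, 1), (1, 3)], [(0, 3), (3, 3)], [6], [(3, 0, [1, 5]), (6, 3,
      []), (7, 3, [])]⟩,
    ⟨[(0, 1), (1, 2)], [(1, 0), (1, 1), (1, 3), (2, 0), (2, 3)], [(0, 3)], [], [(4, 0, [1,
      5]), (7, 3, [])]⟩,
    ⟨[(0, 1), (1, 2), (1, 3)], [(0, 1), (1, 0), (1, 1), (3, 0)], [(0, 1)], [7], [(0, 1,
      [0]), (4, 0, [1, 5])]⟩,
    ⟨[(1, 2), (2, 3)], [(2, 0), (2, 3), (3, 3)], [(3, 3)], [4], [(6, 3, []), (7, 3, [])]⟩,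
    ⟨[(2, 5)], [(2, 3), (5, 3)], [], [4, 8], [(6, 3, [])]⟩]
  Ta := [((3, 2), 0, 2), ((3, 5), 0, 6), ((4, 7), 0, 3), ((4, 8), 0, 7), ((6, 5), 3, 6), ((6,
    10), 3, 8), ((7, 4), 3, 0), ((7, 9), 3, 4)]
  Tb := [((0, 1, 8), 1, 5, 7), ((1, 0, 2), 5, 1, 2), ((2, 1, 3), 2, 5, 0), ((3, 2, 5), 0, 2, 6),
    ((4, 7, 8), 0, 3, 7), ((5, 3, 6), 6, 0, 3), ((6, 5, 10), 3, 6, 8), ((7, 4, 9), 3, 0, 4),
    ((8, 0, 4), 7, 1, 0), ((9, 7, 10), 4, 3, 8), ((10, 6, 9), 8, 3, 4)]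
  Tc := [(0, 1, 5)]
  Td := [((0, 1), (3, 2), 2), ((0, 1), (3, 5), 6), ((0, 1), (4, 7), 3), ((0, 1), (4, 8), 7), ((0,
    5), (3, 2), 2), ((0, 5), (3, 5), 6), ((0, 5), (4, 7), 3), ((0, 5), (4, 8), 7), ((1, 0),
    (0, 1), 5), ((1, 0), (0, 8), 7), ((5, 0), (1, 0), 1), ((5, 0), (1, 2), 2)]
  G := [[0, 0x953e953ea8141, 0xca9718c65b12a63d12e4ca9712c65b12a63d14e8c,
    0xca9712c65b12a63d14e81, 0xca9712c65b12a63d14e81], [0, 0x9892c6a48836326e181,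
    0x285b14483d12624e7188cc9ab144247718483d12acc, 0x285b144247718a83d12ac1,
    0xc251a4316285b14483d12e81], [0, 0x953e953e64181, 0, 0x953e953ec4181, 0x953e953ec4181],
    [0, 0x6ac92c68368e6ca181, 0, 0x116116c811611ac894a92cce8688364eb41,
    0x11a11ac411a11cc492c49ac89ca836ce781]]

noncomputable def n3225 : Ent := ⟨e3225, noF, [], [], [(8, 17, [6903326391201334775872065844685381424292761054348340378595029942878209, 0]), (8, 16, [7334685537875745012586738086077695515070955365108989538292687706873857, 0]), (17, 15, [6903537015784671890245461680740748765157398844539141476817538564845569, 0]), (16, 15, [7334790850167413569773436004105379185503274260204390087403942017859585, 0])]⟩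

def c3225 : PLift (Cov.check n3225.C.D v3225 = true) := ⟨by decide +kernel⟩

def b3225 : PLift (entF (fidx ts) 400 3225 n3225 = true) := ⟨by decide +kernel⟩

theorem g3225 : GoodF (fidx ts) 400 3225 := GoodF.ofV v3225 n3225 c3225.down b3225.down

/-- 4874454:2475/2 -/
noncomputable def e3226 : SCfg where
  D := {
    a := 7
    L := 9
    kp := 6
    inn := [(0, 1), (1, 0), (1, 2), (1, 3), (1, 4), (2, 1), (2, 3), (2, 5), (3, 1), (3, 2), (4, 1), (5,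
      2), (5, 6), (6, 5)]
    mix := [(0, 0), (0, 1), (0, 2), (1, 0), (1, 2), (1, 3), (1, 4), (2, 3), (2, 5), (2, 6), (2, 7), (3,
      4), (3, 7), (4, 0), (4, 4), (4, 8), (5, 1), (5, 6), (5, 7), (6, 1), (6, 7), (6, 8)]
    cl := [3, 4, 2, 0, 0, 6, 1, 1, 5]
    chq := [(0, 3), (0, 4), (3, 0), (4, 0)]
    rng := [(0, 1), (0, 8), (1, 0), (1, 2), (1, 6), (1, 8), (2, 1), (2, 3), (3, 2), (3, 5), (4, 7), (4,
      8), (5, 3), (5, 6), (6, 1), (6, 5), (7, 4), (7, 8), (8, 0), (8, 1), (8, 4), (8, 7)]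
    lev := [] }
  links := [[1, 7, 8, 9], [7, 0, 9, 10, 2, 3, 11, 4], [3, 1, 10, 12, 13, 5, 14], [11, 1, 2, 14], [7, 1,
    11, 15], [14, 2, 13, 8, 6], [14, 5, 8, 15]]
  P := {
    a := 7
    N := 16
    nb := [898, 3741, 29738, 18438, 34946, 24900, 49440, 33043, 41697, 1283, 4614, 49178, 9220, 4388,
      34924, 18896]
    tri := [(0, 1, 7), (0, 1, 9), (0, 7, 8), (0, 8, 9), (1, 2, 3), (1, 2, 10), (1, 3, 11), (1, 4, 7),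
      (1, 4, 11), (1, 9, 10), (2, 3, 14), (2, 5, 13), (2, 5, 14), (2, 10, 12), (2, 12, 13), (3,
      11, 14), (4, 7, 15), (4, 11, 15), (5, 6, 8), (5, 6, 14), (5, 8, 13), (6, 8, 15), (6, 14,
      15)]
    fin := [0, 0, 2, 2, 4, 5, 0, 4, 0, 9, 2, 2, 12, 5, 5, 15]
    chd := [(0, 2), (4, 2)]
    steps := [(0, 1), (0, 8), (0, 6), (2, 3), (2, 10), (2, 11), (4, 7), (5, 13), (5, 14)] }
  rep := [2, 5, 9, 4, 0, 15, 12]

noncomputable def v3226 : Cov.CovD where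
  P := 3
  N := 4
  pl := [2, 5, 8]
  lev := [⟨[], [], [(3, 4)], [2], [(0, 3, [0]), (1, 4, [0])]⟩,
    ⟨[], [(0, 0), (0, 3), (0, 4)], [(0, 0), (0, 3)], [2], [(0, 3, [0]), (3, 0, [3, 4]), (4,
      0, [3, 4])]⟩,
    ⟨[(0, 1)], [(1, 0), (1, 1), (1, 3)], [(0, 1), (1, 1)], [6], [(3, 0, [3, 4]), (6, 1,
      []), (7, 1, [])]⟩,
    ⟨[(0, 1), (1, 2)], [(1, 0), (1, 1), (1, 3), (2, 0), (2, 1)], [(0, 1)], [], [(4, 0, [3,
      4]), (7, 1, [])]⟩,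
    ⟨[(0, 1), (1, 2), (1, 3)], [(0, 3), (1, 0), (1, 3), (3, 0)], [(0, 3)], [5], [(0, 3,
      [0]), (4, 0, [3, 4])]⟩,
    ⟨[(1, 2), (2, 3)], [(0, 4), (2, 0), (2, 1), (2, 4), (3, 1)], [(1, 1), (1, 4)], [], [(1,
      4, [0]), (6, 1, []), (7, 1, [])]⟩,
    ⟨[(2, 5)], [(0, 4), (2, 1), (3, 1), (5, 1), (5, 4)], [(1, 4)], [5], [(1, 4, [0]), (7,
      1, [])]⟩]
  Ta := [((3, 2), 0, 2), ((3, 5), 0, 6), ((4, 7), 0, 1), ((4, 8), 0, 5), ((6, 1), 1, 4), ((6, 5),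
    1, 6), ((7, 4), 1, 0), ((7, 8), 1, 5)]
  Tb := [((0, 1, 8), 3, 4, 5), ((1, 0, 2), 4, 3, 2), ((1, 0, 6), 4, 3, 1), ((1, 0, 8), 4, 3, 5),
    ((1, 2, 6), 4, 2, 1), ((1, 2, 8), 4, 2, 5), ((1, 6, 8), 4, 1, 5), ((2, 1, 3), 2, 4, 0),
    ((3, 2, 5), 0, 2, 6), ((4, 7, 8), 0, 1, 5), ((5, 3, 6), 6, 0, 1), ((6, 1, 5), 1, 4, 6),
    ((7, 4, 8), 1, 0, 5), ((8, 0, 1), 5, 3, 4), ((8, 0, 4), 5, 3, 0), ((8, 0, 7), 5, 3, 1),
    ((8, 1, 4), 5, 4, 0), ((8, 1, 7), 5, 4, 1), ((8, 4, 7), 5, 0, 1)]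
  Tc := [(0, 3, 4)]
  Td := [((0, 3), (3, 2), 2), ((0, 3), (3, 5), 6), ((0, 3), (4, 7), 1), ((0, 3), (4, 8), 5), ((0,
    4), (3, 2), 2), ((0, 4), (3, 5), 6), ((0, 4), (4, 7), 1), ((0, 4), (4, 8), 5), ((3, 0),
    (0, 1), 4), ((3, 0), (0, 8), 5), ((4, 0), (1, 0), 3), ((4, 0), (1, 2), 2), ((4, 0), (1,
    6), 1), ((4, 0), (1, 8), 5)]
  G := [[0, 0, 0x181441814811218e111241418814214e11181118c2e, 0x2152422c18c21914112838cc1,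
    0x2151422c18c2192121928ca1], [0, 0, 0x11181118c411141114c811181114c2e,
    0x111411188848a4d111811184491c68dc1, 0x18141811141411c1c1111641118c818da9], [0, 0, 0,
    0x22c24ca4121c22c681c1, 0x2422cc412bc241a1], [0, 0x86a42aa4c22eca46224a6826e8a4c82c68ac1,
    0, 0x81c14ca4114c81c681c1, 0x81c14cc4191cd4641a1]]

noncomputable def n3226 : Ent := ⟨e3226, noF, [], [], []⟩

def c3226 : PLift (Cov.check n3226.C.D v3226 = true) := ⟨by decide +kernel⟩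

def b3226 : PLift (entF (fidx ts) 400 3226 n3226 = true) := ⟨by decide +kernel⟩

theorem g3226 : GoodF (fidx ts) 400 3226 := GoodF.ofV v3226 n3226 c3226.down b3226.down

/-- 4874454:2475/1 -/
noncomputable def e3227 : SCfg where
  D := {
    a := 7
    L := 10
    kp := 7
    inn := [(0, 1), (1, 0), (1, 2), (1, 3), (1, 4), (2, 1), (2, 3), (2, 5), (3, 1), (3, 2), (4, 1), (5,
      2), (5, 6), (6, 5)]
    mix := [(0, 0), (0, 1), (0, 2), (1, 0), (1, 2), (1, 3), (1, 4), (2, 3), (2, 5), (2, 6), (2, 7), (3,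
      4), (3, 7), (4, 0), (4, 4), (4, 8), (5, 1), (5, 6), (5, 7), (6, 1), (6, 7), (6, 9)]
    cl := [3, 4, 2, 0, 0, 5, 1, 1, 6, 7]
    chq := [(0, 3), (0, 4), (3, 0), (4, 0)]
    rng := [(0, 1), (0, 8), (1, 0), (1, 2), (1, 6), (1, 9), (2, 1), (2, 3), (3, 2), (3, 5), (4, 7), (4,
      8), (5, 3), (5, 6), (6, 1), (6, 5), (7, 4), (7, 9), (8, 0), (8, 4), (9, 1), (9, 7)]
    lev := [] }
  links := [[1, 7, 8, 9], [7, 0, 9, 10, 2, 3, 11, 4], [3, 1, 10, 12, 13, 5, 14], [11, 1, 2, 14], [7, 1,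
    11, 15], [14, 2, 13, 8, 6], [14, 5, 8, 16]]
  P := {
    a := 7
    N := 17
    nb := [898, 3741, 29738, 18438, 34946, 24900, 82208, 33043, 74465, 1283, 4614, 49178, 9220, 4388,
      67692, 2192, 16704]
    tri := [(0, 1, 7), (0, 1, 9), (0, 7, 8), (0, 8, 9), (1, 2, 3), (1, 2, 10), (1, 3, 11), (1, 4, 7),
      (1, 4, 11), (1, 9, 10), (2, 3, 14), (2, 5, 13), (2, 5, 14), (2, 10, 12), (2, 12, 13), (3,
      11, 14), (4, 7, 15), (4, 11, 15), (5, 6, 8), (5, 6, 14), (5, 8, 13), (6, 8, 16), (6, 14,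
      16)]
    fin := [0, 0, 2, 2, 4, 5, 0, 4, 0, 9, 2, 2, 12, 5, 5, 15, 16]
    chd := [(0, 2), (4, 2)]
    steps := [(0, 1), (0, 8), (0, 6), (2, 3), (2, 10), (2, 11), (4, 7), (5, 13), (5, 14)] }
  rep := [2, 5, 9, 4, 0, 12, 15, 16]

noncomputable def v3227 : Cov.CovD where
  P := 3
  N := 5
  pl := [2, 5, 8, 9]
  lev := [⟨[], [], [(3, 4)], [2], [(0, 3, [0]), (1, 4, [0])]⟩,
    ⟨[], [(0, 0), (0, 3), (0, 4)], [(0, 0), (0, 3)], [2], [(0, 3, [0]), (3, 0, [3, 4]), (4,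
      0, [3, 4])]⟩,
    ⟨[(0, 1)], [(1, 0), (1, 1), (1, 3)], [(0, 1), (1, 1)], [5], [(3, 0, [3, 4]), (6, 1,
      []), (7, 1, [])]⟩,
    ⟨[(0, 1), (1, 2)], [(1, 0), (1, 1), (1, 3), (2, 0), (2, 1)], [(0, 1)], [], [(4, 0, [3,
      4]), (7, 1, [])]⟩,
    ⟨[(0, 1), (1, 2), (1, 3)], [(0, 3), (1, 0), (1, 3), (3, 0)], [(0, 3)], [6], [(0, 3,
      [0]), (4, 0, [3, 4])]⟩,
    ⟨[(1, 2), (2, 3)], [(0, 4), (2, 0), (2, 1), (2, 4), (3, 1)], [(1, 1), (1, 4)], [], [(1,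
      4, [0]), (6, 1, []), (7, 1, [])]⟩,
    ⟨[(2, 5)], [(0, 4), (2, 1), (3, 1), (5, 1), (5, 4)], [(1, 4)], [7], [(1, 4, [0]), (7,
      1, [])]⟩]
  Ta := [((3, 2), 0, 2), ((3, 5), 0, 5), ((4, 7), 0, 1), ((4, 8), 0, 6), ((6, 1), 1, 4), ((6, 5),
    1, 5), ((7, 4), 1, 0), ((7, 9), 1, 7)]
  Tb := [((0, 1, 8), 3, 4, 6), ((1, 0, 2), 4, 3, 2), ((1, 0, 6), 4, 3, 1), ((1, 0, 9), 4, 3, 7),
    ((1, 2, 6), 4, 2, 1), ((1, 2, 9), 4, 2, 7), ((1, 6, 9), 4, 1, 7), ((2, 1, 3), 2, 4, 0),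
    ((3, 2, 5), 0, 2, 5), ((4, 7, 8), 0, 1, 6), ((5, 3, 6), 5, 0, 1), ((6, 1, 5), 1, 4, 5),
    ((7, 4, 9), 1, 0, 7), ((8, 0, 4), 6, 3, 0), ((9, 1, 7), 7, 4, 1)]
  Tc := [(0, 3, 4)]
  Td := [((0, 3), (3, 2), 2), ((0, 3), (3, 5), 5), ((0, 3), (4, 7), 1), ((0, 3), (4, 8), 6), ((0,
    4), (3, 2), 2), ((0, 4), (3, 5), 5), ((0, 4), (4, 7), 1), ((0, 4), (4, 8), 6), ((3, 0),
    (0, 1), 4), ((3, 0), (0, 8), 6), ((4, 0), (1, 0), 3), ((4, 0), (1, 2), 2), ((4, 0), (1,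
    6), 1), ((4, 0), (1, 9), 7)]
  G := [[0, 0, 0x981442118891188e2114454128c1144e21142118c2e, 0x2251422518c22922c612121229b8cc1,
    0x5121342131c486ca8c4d72c1429518ca1], [0, 0, 0x91189118c45114454188cd114d118c2e,
    0xc9514c59c59a1cc95c9561c5918cc1, 0xd149554d118c2d1c9534c59c59c1c83], [0, 0, 0,
    0x22c22ca4122c22c681c1, 0x92c25cc4192c92c641a1], [0,
    0xc6ac6aa2a6ca6ca26ca648c6a28a6ca6c68ec1, 0, 0x95c95ca4195c95c681c1,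
    0x95c95cc4195c95c681a1]]

noncomputable def n3227 : Ent := ⟨e3227, noF, [], [], [(16, 15, [1685356702439545624007900436039642273970977273354372543760013303809, 0])]⟩

def c3227 : PLift (Cov.check n3227.C.D v3227 = true) := ⟨by decide +kernel⟩

def b3227 : PLift (entF (fidx ts) 400 3227 n3227 = true) := ⟨by decide +kernel⟩

theorem g3227 : GoodF (fidx ts) 400 3227 := GoodF.ofV v3227 n3227 c3227.down b3227.down

/-- 4874454:2475/3 -/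
noncomputable def e3228 : SCfg where
  D := {
    a := 7
    L := 10
    kp := 7
    inn := [(0, 1), (1, 0), (1, 2), (1, 3), (1, 4), (2, 1), (2, 3), (2, 5), (3, 1), (3, 2), (4, 1), (5,
      2), (5, 6), (6, 5)]
    mix := [(0, 0), (0, 1), (0, 2), (1, 0), (1, 2), (1, 3), (1, 4), (2, 3), (2, 5), (2, 6), (2, 7), (3,
      4), (3, 7), (4, 0), (4, 4), (4, 8), (5, 6), (5, 7), (5, 9), (6, 1), (6, 7), (6, 9)]
    cl := [3, 4, 2, 0, 0, 6, 1, 1, 7, 5]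
    chq := [(0, 3), (0, 4), (3, 0), (4, 0)]
    rng := [(0, 1), (0, 8), (1, 0), (1, 2), (1, 7), (1, 9), (2, 1), (2, 3), (3, 2), (3, 5), (4, 7), (4,
      8), (5, 3), (5, 6), (6, 5), (6, 9), (7, 1), (7, 4), (8, 0), (8, 4), (9, 1), (9, 6)]
    lev := [] }
  links := [[1, 7, 8, 9], [7, 0, 9, 10, 2, 3, 11, 4], [3, 1, 10, 12, 13, 5, 14], [11, 1, 2, 14], [7, 1,
    11, 15], [14, 2, 13, 16, 6], [14, 5, 16, 8]]
  P := {
    a := 7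
    N := 17
    nb := [898, 3741, 29738, 18438, 34946, 90180, 82208, 33043, 82625, 1283, 4614, 49178, 9220, 69668,
      2412, 2192, 8544]
    tri := [(0, 1, 7), (0, 1, 9), (0, 7, 8), (0, 8, 9), (1, 2, 3), (1, 2, 10), (1, 3, 11), (1, 4, 7),
      (1, 4, 11), (1, 9, 10), (2, 3, 14), (2, 5, 13), (2, 5, 14), (2, 10, 12), (2, 12, 13), (3,
      11, 14), (4, 7, 15), (4, 11, 15), (5, 6, 14), (5, 6, 16), (5, 13, 16), (6, 8, 14), (6, 8,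
      16)]
    fin := [0, 1, 2, 1, 4, 0, 0, 4, 0, 9, 1, 1, 12, 2, 2, 15, 16]
    chd := [(0, 1), (4, 1)]
    steps := [(0, 8), (0, 6), (0, 5), (1, 3), (1, 10), (1, 11), (2, 13), (2, 14), (4, 7)] }
  rep := [1, 2, 9, 4, 0, 16, 12, 15]

noncomputable def v3228 : Cov.CovD where
  P := 3
  N := 5
  pl := [2, 5, 8, 9]
  lev := [⟨[], [], [(3, 4)], [2], [(0, 3, [0]), (1, 4, [0])]⟩,
    ⟨[], [(0, 0), (0, 3), (0, 4)], [(0, 0), (0, 3)], [2], [(0, 3, [0]), (3, 0, [3, 4]), (4,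
      0, [3, 4])]⟩,
    ⟨[(0, 1)], [(1, 0), (1, 1), (1, 3)], [(0, 1), (1, 1)], [6], [(3, 0, [3, 4]), (6, 1,
      []), (7, 1, [])]⟩,
    ⟨[(0, 1), (1, 2)], [(1, 0), (1, 1), (1, 3), (2, 0), (2, 1)], [(0, 1)], [], [(4, 0, [3,
      4]), (7, 1, [])]⟩,
    ⟨[(0, 1), (1, 2), (1, 3)], [(0, 3), (1, 0), (1, 3), (3, 0)], [(0, 3)], [7], [(0, 3,
      [0]), (4, 0, [3, 4])]⟩,
    ⟨[(1, 2), (2, 3)], [(2, 0), (2, 1), (3, 1)], [(1, 1)], [5], [(6, 1, []), (7, 1, [])]⟩,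
    ⟨[(2, 5)], [(0, 4), (2, 1), (3, 1), (5, 1), (5, 4)], [(1, 4)], [5], [(1, 4, [0]), (7,
      1, [])]⟩]
  Ta := [((3, 2), 0, 2), ((3, 5), 0, 6), ((4, 7), 0, 1), ((4, 8), 0, 7), ((6, 5), 1, 6), ((6, 9),
    1, 5), ((7, 1), 1, 4), ((7, 4), 1, 0)]
  Tb := [((0, 1, 8), 3, 4, 7), ((1, 0, 2), 4, 3, 2), ((1, 0, 7), 4, 3, 1), ((1, 0, 9), 4, 3, 5),
    ((1, 2, 7), 4, 2, 1), ((1, 2, 9), 4, 2, 5), ((1, 7, 9), 4, 1, 5), ((2, 1, 3), 2, 4, 0),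
    ((3, 2, 5), 0, 2, 6), ((4, 7, 8), 0, 1, 7), ((5, 3, 6), 6, 0, 1), ((6, 5, 9), 1, 6, 5),
    ((7, 1, 4), 1, 4, 0), ((8, 0, 4), 7, 3, 0), ((9, 1, 6), 5, 4, 1)]
  Tc := [(0, 3, 4)]
  Td := [((0, 3), (3, 2), 2), ((0, 3), (3, 5), 6), ((0, 3), (4, 7), 1), ((0, 3), (4, 8), 7), ((0,
    4), (3, 2), 2), ((0, 4), (3, 5), 6), ((0, 4), (4, 7), 1), ((0, 4), (4, 8), 7), ((3, 0),
    (0, 1), 4), ((3, 0), (0, 8), 7), ((4, 0), (1, 0), 3), ((4, 0), (1, 2), 2), ((4, 0), (1,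
    7), 1), ((4, 0), (1, 9), 5)]
  G := [[0, 0, 0x81912421c148c4251441912c82151821518c2e, 0x29514259259a4c259c256125918cc1,
    0xc25142bc259c1c21921c4474c2918ca1], [0, 0,
    0x81914419c148415188e419144415188419144ec1518c1918c2e,
    0xc1514c191895c95ca4dc9518c5918cc1, 0x11c9554c19c59c195c84dc4c9558c5914ca1], [0, 0, 0,
    0x25c92ca4125c92c681c1, 0x92c36cc4192c25c641a1], [0,
    0xe24ec6aa2a6ca6ca26ca6ca668c6a22a6c42ec1, 0, 0x95c95ca4195c95c681c1,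
    0x95c95cc4195c95c681a1]]

noncomputable def n3228 : Ent := ⟨e3228, noF, [], [], []⟩

def c3228 : PLift (Cov.check n3228.C.D v3228 = true) := ⟨by decide +kernel⟩

def b3228 : PLift (entF (fidx ts) 400 3228 n3228 = true) := ⟨by decide +kernel⟩

theorem g3228 : GoodF (fidx ts) 400 3228 := GoodF.ofV v3228 n3228 c3228.down b3228.down

/-- 4874454:2475/5 -/
noncomputable def e3229 : SCfg where
  D := {
    a := 7
    L := 9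
    kp := 6
    inn := [(0, 1), (1, 0), (1, 2), (1, 3), (1, 4), (2, 1), (2, 3), (2, 5), (3, 1), (3, 2), (4, 1), (5,
      2), (5, 6), (6, 5)]
    mix := [(0, 0), (0, 1), (0, 2), (1, 0), (1, 2), (1, 3), (1, 4), (2, 3), (2, 5), (2, 6), (2, 7), (3,
      4), (3, 7), (4, 0), (4, 4), (4, 8), (5, 6), (5, 7), (5, 8), (6, 1), (6, 7), (6, 8)]
    cl := [3, 4, 5, 0, 0, 6, 1, 1, 2]
    chq := [(0, 3), (0, 4), (3, 0), (4, 0)]
    rng := [(0, 1), (0, 8), (1, 0), (1, 2), (1, 7), (1, 8), (2, 1), (2, 3), (3, 2), (3, 5), (4, 7), (4,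
      8), (5, 3), (5, 6), (6, 5), (6, 8), (7, 1), (7, 4), (8, 0), (8, 1), (8, 4), (8, 6)]
    lev := [] }
  links := [[1, 7, 8, 9], [7, 0, 9, 10, 2, 3, 11, 4], [3, 1, 10, 12, 13, 5, 14], [11, 1, 2, 14], [7, 1,
    11, 15], [14, 2, 13, 15, 6], [14, 5, 15, 8]]
  P := {
    a := 7
    N := 16
    nb := [898, 3741, 29738, 18438, 34946, 57412, 49440, 33043, 49857, 1283, 4614, 49178, 9220, 36900,
      2412, 10736]
    tri := [(0, 1, 7), (0, 1, 9), (0, 7, 8), (0, 8, 9), (1, 2, 3), (1, 2, 10), (1, 3, 11), (1, 4, 7),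
      (1, 4, 11), (1, 9, 10), (2, 3, 14), (2, 5, 13), (2, 5, 14), (2, 10, 12), (2, 12, 13), (3,
      11, 14), (4, 7, 15), (4, 11, 15), (5, 6, 14), (5, 6, 15), (5, 13, 15), (6, 8, 14), (6, 8,
      15)]
    fin := [0, 0, 2, 2, 4, 5, 0, 4, 0, 9, 2, 2, 12, 5, 5, 15]
    chd := [(0, 2), (4, 2)]
    steps := [(0, 1), (0, 8), (0, 6), (2, 3), (2, 10), (2, 11), (4, 7), (5, 13), (5, 14)] }
  rep := [2, 5, 15, 4, 0, 9, 12]

noncomputable def v3229 : Cov.CovD where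
  P := 3
  N := 4
  pl := [2, 5, 8]
  lev := [⟨[], [], [(3, 4)], [5], [(0, 3, [0]), (1, 4, [0])]⟩,
    ⟨[], [(0, 0), (0, 3), (0, 4)], [(0, 0), (0, 3)], [5], [(0, 3, [0]), (3, 0, [3, 4]), (4,
      0, [3, 4])]⟩,
    ⟨[(0, 1)], [(1, 0), (1, 1), (1, 3)], [(0, 1), (1, 1)], [6], [(3, 0, [3, 4]), (6, 1,
      []), (7, 1, [])]⟩,
    ⟨[(0, 1), (1, 2)], [(1, 0), (1, 1), (1, 3), (2, 0), (2, 1)], [(0, 1)], [], [(4, 0, [3,
      4]), (7, 1, [])]⟩,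
    ⟨[(0, 1), (1, 2), (1, 3)], [(0, 3), (1, 0), (1, 3), (3, 0)], [(0, 3)], [2], [(0, 3,
      [0]), (4, 0, [3, 4])]⟩,
    ⟨[(1, 2), (2, 3)], [(2, 0), (2, 1), (3, 1)], [(1, 1)], [2], [(6, 1, []), (7, 1, [])]⟩,
    ⟨[(2, 5)], [(0, 4), (2, 1), (3, 1), (5, 1), (5, 4)], [(1, 4)], [2], [(1, 4, [0]), (7,
      1, [])]⟩]
  Ta := [((3, 2), 0, 5), ((3, 5), 0, 6), ((4, 7), 0, 1), ((4, 8), 0, 2), ((6, 5), 1, 6), ((6, 8),
    1, 2), ((7, 1), 1, 4), ((7, 4), 1, 0)]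
  Tb := [((0, 1, 8), 3, 4, 2), ((1, 0, 2), 4, 3, 5), ((1, 0, 7), 4, 3, 1), ((1, 0, 8), 4, 3, 2),
    ((1, 2, 7), 4, 5, 1), ((1, 2, 8), 4, 5, 2), ((1, 7, 8), 4, 1, 2), ((2, 1, 3), 5, 4, 0),
    ((3, 2, 5), 0, 5, 6), ((4, 7, 8), 0, 1, 2), ((5, 3, 6), 6, 0, 1), ((6, 5, 8), 1, 6, 2),
    ((7, 1, 4), 1, 4, 0), ((8, 0, 1), 2, 3, 4), ((8, 0, 4), 2, 3, 0), ((8, 0, 6), 2, 3, 1),
    ((8, 1, 4), 2, 4, 0), ((8, 1, 6), 2, 4, 1), ((8, 4, 6), 2, 0, 1)]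
  Tc := [(0, 3, 4)]
  Td := [((0, 3), (3, 2), 5), ((0, 3), (3, 5), 6), ((0, 3), (4, 7), 1), ((0, 3), (4, 8), 2), ((0,
    4), (3, 2), 5), ((0, 4), (3, 5), 6), ((0, 4), (4, 7), 1), ((0, 4), (4, 8), 2), ((3, 0),
    (0, 1), 4), ((3, 0), (0, 8), 2), ((4, 0), (1, 0), 3), ((4, 0), (1, 2), 5), ((4, 0), (1,
    7), 1), ((4, 0), (1, 8), 2)]
  G := [[0, 0, 0, 0x141814181488d254149482c51429818cc3,
    0x81888882c421141181c82128942118c221142884c212198112838ccf], [0, 0, 0, 0,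
    0x181441118881888e188441118881144e18141814c291141881c1181389818c18211121cef], [0, 0,
    0x248412448128281e1, 0x1814c8125482158421c3, 0x288412828a8128281e1], [0,
    0xc882c8846c442c842ac4c4c4c8c8c4ce1, 0xc4841c4481c8281e1, 0, 0x988419898a4198241e1]]

noncomputable def n3229 : Ent := ⟨e3229, noF, [], [], []⟩

def c3229 : PLift (Cov.check n3229.C.D v3229 = true) := ⟨by decide +kernel⟩

def b3229 : PLift (entF (fidx ts) 400 3229 n3229 = true) := ⟨by decide +kernel⟩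

theorem g3229 : GoodF (fidx ts) 400 3229 := GoodF.ofV v3229 n3229 c3229.down b3229.down

/-- 4874454:2475/6 -/
noncomputable def e3230 : SCfg where
  D := {
    a := 7
    L := 9
    kp := 6
    inn := [(0, 1), (1, 0), (1, 2), (1, 3), (1, 4), (2, 1), (2, 3), (2, 5), (3, 1), (3, 2), (4, 1), (5,
      2), (5, 6), (6, 5)]
    mix := [(0, 0), (0, 1), (0, 2), (1, 0), (1, 2), (1, 3), (1, 4), (2, 3), (2, 5), (2, 6), (2, 7), (3,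
      4), (3, 7), (4, 0), (4, 4), (4, 8), (5, 6), (5, 7), (5, 8), (6, 4), (6, 7), (6, 8)]
    cl := [1, 5, 2, 0, 0, 6, 3, 3, 4]
    chq := [(0, 1), (0, 5), (1, 0), (5, 0)]
    rng := [(0, 1), (0, 8), (1, 0), (1, 2), (2, 1), (2, 3), (3, 2), (3, 5), (4, 7), (4, 8), (5, 3), (5,
      6), (6, 5), (6, 8), (7, 4), (8, 0), (8, 4), (8, 6)]
    lev := [] }
  links := [[1, 7, 8, 9], [7, 0, 9, 10, 2, 3, 11, 4], [3, 1, 10, 12, 13, 5, 14], [11, 1, 2, 14], [7, 1,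
    11, 15], [14, 2, 13, 15, 6], [14, 5, 15, 11]]
  P := {
    a := 7
    N := 16
    nb := [898, 3741, 29738, 18438, 34946, 57412, 51232, 33043, 641, 1283, 4614, 49242, 9220, 36900,
      2156, 10480]
    tri := [(0, 1, 7), (0, 1, 9), (0, 7, 8), (0, 8, 9), (1, 2, 3), (1, 2, 10), (1, 3, 11), (1, 4, 7),
      (1, 4, 11), (1, 9, 10), (2, 3, 14), (2, 5, 13), (2, 5, 14), (2, 10, 12), (2, 12, 13), (3,
      11, 14), (4, 7, 15), (4, 11, 15), (5, 6, 14), (5, 6, 15), (5, 13, 15), (6, 11, 14), (6, 11,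
      15)]
    fin := [0, 0, 2, 2, 4, 5, 2, 4, 0, 9, 2, 2, 12, 5, 5, 15]
    chd := [(0, 2), (4, 2)]
    steps := [(0, 1), (0, 8), (2, 3), (2, 10), (2, 11), (4, 7), (5, 13), (5, 14), (2, 6)] }
  rep := [2, 4, 9, 5, 15, 0, 12]

noncomputable def v3230 : Cov.CovD where
  P := 3
  N := 4
  pl := [2, 5, 8]
  lev := [⟨[], [], [(1, 5)], [2], [(0, 1, [0]), (1, 5, [0])]⟩,
    ⟨[], [(0, 0), (0, 1), (0, 5)], [(0, 0), (0, 1)], [2], [(0, 1, [0]), (3, 0, [1, 5]), (4,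
      0, [1, 5])]⟩,
    ⟨[(0, 1)], [(1, 0), (1, 1), (1, 3)], [(0, 3), (3, 3)], [6], [(3, 0, [1, 5]), (6, 3,
      []), (7, 3, [])]⟩,
    ⟨[(0, 1), (1, 2)], [(1, 0), (1, 1), (1, 3), (2, 0), (2, 3)], [(0, 3)], [], [(4, 0, [1,
      5]), (7, 3, [])]⟩,
    ⟨[(0, 1), (1, 2), (1, 3)], [(0, 1), (1, 0), (1, 1), (3, 0)], [(0, 1)], [4], [(0, 1,
      [0]), (4, 0, [1, 5])]⟩,
    ⟨[(1, 2), (2, 3)], [(2, 0), (2, 3), (3, 3)], [(3, 3)], [4], [(6, 3, []), (7, 3, [])]⟩,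
    ⟨[(2, 5)], [(1, 0), (2, 3), (3, 0), (3, 3), (4, 0), (5, 0), (5, 3)], [(0, 3)], [4],
      [(4, 0, [1, 5]), (7, 3, [])]⟩]
  Ta := [((3, 2), 0, 2), ((3, 5), 0, 6), ((4, 7), 0, 3), ((4, 8), 0, 4), ((6, 5), 3, 6), ((6, 8),
    3, 4), ((7, 4), 3, 0)]
  Tb := [((0, 1, 8), 1, 5, 4), ((1, 0, 2), 5, 1, 2), ((2, 1, 3), 2, 5, 0), ((3, 2, 5), 0, 2, 6),
    ((4, 7, 8), 0, 3, 4), ((5, 3, 6), 6, 0, 3), ((6, 5, 8), 3, 6, 4), ((8, 0, 4), 4, 1, 0),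
    ((8, 0, 6), 4, 1, 3), ((8, 4, 6), 4, 0, 3)]
  Tc := [(0, 1, 5)]
  Td := [((0, 1), (3, 2), 2), ((0, 1), (3, 5), 6), ((0, 1), (4, 7), 3), ((0, 1), (4, 8), 4), ((0,
    5), (3, 2), 2), ((0, 5), (3, 5), 6), ((0, 5), (4, 7), 3), ((0, 5), (4, 8), 4), ((1, 0),
    (0, 1), 5), ((1, 0), (0, 8), 4), ((5, 0), (1, 0), 1), ((5, 0), (1, 2), 2)]
  G := [[0, 0x884412e4181, 0x611861182141c8e4a114a1148121c1e8c, 0xa114c112a114e81,
    0xa114a1148141c1e81], [0, 0x44186882266181, 0xe118411e189a11618ae48114a54586914e112e8c,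
    0xe11448161c1e112ac1, 0xc11a145e114e112e81], [0, 0x181412e2141, 0, 0x88a426c2181,
    0x88a426c2181], [0, 0x1844c1412aa141, 0, 0x8244c82844c288426c4268ab41,
    0x8842c48844c282a482a44cc781]]

noncomputable def n3230 : Ent := ⟨e3230, noF, [], [], []⟩

def c3230 : PLift (Cov.check n3230.C.D v3230 = true) := ⟨by decide +kernel⟩

def b3230 : PLift (entF (fidx ts) 400 3230 n3230 = true) := ⟨by decide +kernel⟩

theorem g3230 : GoodF (fidx ts) 400 3230 := GoodF.ofV v3230 n3230 c3230.down b3230.down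

/-- 4874454:2475/4 -/
noncomputable def e3231 : SCfg where
  D := {
    a := 7
    L := 10
    kp := 7
    inn := [(0, 1), (1, 0), (1, 2), (1, 3), (1, 4), (2, 1), (2, 3), (2, 5), (3, 1), (3, 2), (4, 1), (5,
      2), (5, 6), (6, 5)]
    mix := [(0, 0), (0, 1), (0, 2), (1, 0), (1, 2), (1, 3), (1, 4), (2, 3), (2, 5), (2, 6), (2, 7), (3,
      4), (3, 7), (4, 0), (4, 4), (4, 8), (5, 6), (5, 7), (5, 8), (6, 7), (6, 8), (6, 9)]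
    cl := [3, 5, 2, 0, 0, 6, 1, 1, 4, 7]
    chq := [(0, 3), (0, 5), (3, 0), (5, 0)]
    rng := [(0, 1), (0, 8), (1, 0), (1, 2), (2, 1), (2, 3), (3, 2), (3, 5), (4, 7), (4, 8), (5, 3), (5,
      6), (6, 5), (6, 8), (7, 4), (7, 9), (8, 0), (8, 4), (8, 6), (8, 9), (9, 7), (9, 8)]
    lev := [] }
  links := [[1, 7, 8, 9], [7, 0, 9, 10, 2, 3, 11, 4], [3, 1, 10, 12, 13, 5, 14], [11, 1, 2, 14], [7, 1,
    11, 15], [14, 2, 13, 15, 6], [14, 5, 15, 16]]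
  P := {
    a := 7
    N := 17
    nb := [898, 3741, 29738, 18438, 34946, 57412, 114720, 33043, 641, 1283, 4614, 49178, 9220, 36900,
      67692, 76016, 49216]
    tri := [(0, 1, 7), (0, 1, 9), (0, 7, 8), (0, 8, 9), (1, 2, 3), (1, 2, 10), (1, 3, 11), (1, 4, 7),
      (1, 4, 11), (1, 9, 10), (2, 3, 14), (2, 5, 13), (2, 5, 14), (2, 10, 12), (2, 12, 13), (3,
      11, 14), (4, 7, 15), (4, 11, 15), (5, 6, 14), (5, 6, 15), (5, 13, 15), (6, 14, 16), (6, 15,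
      16)]
    fin := [0, 0, 2, 2, 4, 5, 5, 4, 0, 9, 2, 2, 12, 5, 5, 15, 16]
    chd := [(0, 2), (4, 2)]
    steps := [(0, 1), (0, 8), (2, 3), (2, 10), (2, 11), (4, 7), (5, 6), (5, 13), (5, 14)] }
  rep := [2, 5, 9, 4, 15, 0, 12, 16]

noncomputable def v3231 : Cov.CovD where
  P := 3
  N := 5
  pl := [2, 5, 8, 9]
  lev := [⟨[], [], [(3, 5)], [2], [(0, 3, [0]), (1, 5, [0])]⟩,
    ⟨[], [(0, 0), (0, 3), (0, 5)], [(0, 0), (0, 3)], [2], [(0, 3, [0]), (3, 0, [3, 5]), (4,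
      0, [3, 5])]⟩,
    ⟨[(0, 1)], [(1, 0), (1, 1), (1, 3)], [(0, 1), (1, 1)], [6], [(3, 0, [3, 5]), (6, 1,
      []), (7, 1, [])]⟩,
    ⟨[(0, 1), (1, 2)], [(1, 0), (1, 1), (1, 3), (2, 0), (2, 1)], [(0, 1)], [], [(4, 0, [3,
      5]), (7, 1, [])]⟩,
    ⟨[(0, 1), (1, 2), (1, 3)], [(0, 3), (1, 0), (1, 3), (3, 0)], [(0, 3)], [4], [(0, 3,
      [0]), (4, 0, [3, 5])]⟩,
    ⟨[(1, 2), (2, 3)], [(2, 0), (2, 1), (3, 1)], [(1, 1)], [4], [(6, 1, []), (7, 1, [])]⟩,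
    ⟨[(2, 5)], [(2, 1), (3, 1), (5, 1)], [], [4, 7], [(7, 1, [])]⟩]
  Ta := [((3, 2), 0, 2), ((3, 5), 0, 6), ((4, 7), 0, 1), ((4, 8), 0, 4), ((6, 5), 1, 6), ((6, 8),
    1, 4), ((7, 4), 1, 0), ((7, 9), 1, 7)]
  Tb := [((0, 1, 8), 3, 5, 4), ((1, 0, 2), 5, 3, 2), ((2, 1, 3), 2, 5, 0), ((3, 2, 5), 0, 2, 6),
    ((4, 7, 8), 0, 1, 4), ((5, 3, 6), 6, 0, 1), ((6, 5, 8), 1, 6, 4), ((7, 4, 9), 1, 0, 7),
    ((8, 0, 4), 4, 3, 0), ((8, 0, 6), 4, 3, 1), ((8, 0, 9), 4, 3, 7), ((8, 4, 6), 4, 0, 1),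
    ((8, 4, 9), 4, 0, 7), ((8, 6, 9), 4, 1, 7), ((9, 7, 8), 7, 1, 4)]
  Tc := [(0, 3, 5)]
  Td := [((0, 3), (3, 2), 2), ((0, 3), (3, 5), 6), ((0, 3), (4, 7), 1), ((0, 3), (4, 8), 4), ((0,
    5), (3, 2), 2), ((0, 5), (3, 5), 6), ((0, 5), (4, 7), 1), ((0, 5), (4, 8), 4), ((3, 0),
    (0, 1), 5), ((3, 0), (0, 8), 4), ((5, 0), (1, 0), 3), ((5, 0), (1, 2), 2)]
  G := [[0, 0, 0xb11442118871148e21144e1188b1184ed1187114c2e, 0x7114c12194c91216821c838cc1,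
    0x7114d112c582161912164ca1], [0, 0, 0xd1144d1188d1218ed1144d1188d1244ed114d114c2e,
    0xd121d114cd114d128cc1, 0xd114d118cd128d128ca1], [0, 0, 0, 0x9824a41e428681c1,
    0x9824c419822c641a1], [0, 0xe862a2e864a46e4a268e4a868ac1, 0, 0x9854a415498681c1,
    0x9854c4195c241a1]]

noncomputable def n3231 : Ent := ⟨e3231, noF, [], [], [(8, 16, [1580044410770988437309982408355971841652082177953823432505702338561, 0]), (16, 11, [1580044410770990308032078191911707142368668054796088592099357351937, 0])]⟩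

def c3231 : PLift (Cov.check n3231.C.D v3231 = true) := ⟨by decide +kernel⟩

def b3231 : PLift (entF (fidx ts) 400 3231 n3231 = true) := ⟨by decide +kernel⟩

theorem g3231 : GoodF (fidx ts) 400 3231 := GoodF.ofV v3231 n3231 c3231.down b3231.down

/-- 4874454:2475/7 -/
noncomputable def e3232 : SCfg where
  D := {
    a := 7
    L := 10
    kp := 7
    inn := [(0, 1), (1, 0), (1, 2), (1, 3), (1, 4), (2, 1), (2, 3), (2, 5), (3, 1), (3, 2), (4, 1), (5,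
      2), (5, 6), (6, 5)]
    mix := [(0, 0), (0, 1), (0, 2), (1, 0), (1, 2), (1, 3), (1, 4), (2, 3), (2, 5), (2, 6), (2, 7), (3,
      4), (3, 7), (4, 0), (4, 4), (4, 8), (5, 6), (5, 7), (5, 9), (6, 4), (6, 7), (6, 9)]
    cl := [1, 5, 2, 0, 0, 6, 3, 3, 7, 4]
    chq := [(0, 1), (0, 5), (1, 0), (5, 0)]
    rng := [(0, 1), (0, 8), (1, 0), (1, 2), (2, 1), (2, 3), (3, 2), (3, 5), (4, 7), (4, 8), (4, 9), (5,
      3), (5, 6), (6, 5), (6, 9), (7, 4), (8, 0), (8, 4), (9, 4), (9, 6)]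
    lev := [] }
  links := [[1, 7, 8, 9], [7, 0, 9, 10, 2, 3, 11, 4], [3, 1, 10, 12, 13, 5, 14], [11, 1, 2, 14], [7, 1,
    11, 15], [14, 2, 13, 16, 6], [14, 5, 16, 11]]
  P := {
    a := 7
    N := 17
    nb := [898, 3741, 29738, 18438, 34946, 90180, 84000, 33043, 641, 1283, 4614, 114778, 9220, 69668,
      2156, 2192, 10336]
    tri := [(0, 1, 7), (0, 1, 9), (0, 7, 8), (0, 8, 9), (1, 2, 3), (1, 2, 10), (1, 3, 11), (1, 4, 7),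
      (1, 4, 11), (1, 9, 10), (2, 3, 14), (2, 5, 13), (2, 5, 14), (2, 10, 12), (2, 12, 13), (3,
      11, 14), (4, 7, 15), (4, 11, 15), (5, 6, 14), (5, 6, 16), (5, 13, 16), (6, 11, 14), (6, 11,
      16)]
    fin := [0, 1, 2, 1, 4, 1, 1, 4, 0, 9, 1, 1, 12, 2, 2, 15, 16]
    chd := [(0, 1), (4, 1)]
    steps := [(0, 8), (1, 3), (1, 10), (1, 11), (1, 6), (2, 13), (2, 14), (1, 5), (4, 7)] }
  rep := [1, 4, 9, 2, 16, 0, 12, 15]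

noncomputable def v3232 : Cov.CovD where
  P := 3
  N := 5
  pl := [2, 5, 8, 9]
  lev := [⟨[], [], [(1, 5)], [2], [(0, 1, [0]), (1, 5, [0])]⟩,
    ⟨[], [(0, 0), (0, 1), (0, 5)], [(0, 0), (0, 1)], [2], [(0, 1, [0]), (3, 0, [1, 5]), (4,
      0, [1, 5])]⟩,
    ⟨[(0, 1)], [(1, 0), (1, 1), (1, 3)], [(0, 3), (3, 3)], [6], [(3, 0, [1, 5]), (6, 3,
      []), (7, 3, [])]⟩,
    ⟨[(0, 1), (1, 2)], [(1, 0), (1, 1), (1, 3), (2, 0), (2, 3)], [(0, 3)], [], [(4, 0, [1,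
      5]), (7, 3, [])]⟩,
    ⟨[(0, 1), (1, 2), (1, 3)], [(0, 1), (1, 0), (1, 1), (3, 0)], [(0, 1)], [7], [(0, 1,
      [0]), (4, 0, [1, 5])]⟩,
    ⟨[(1, 2), (2, 3)], [(2, 0), (2, 3), (3, 3)], [(3, 3)], [4], [(6, 3, []), (7, 3, [])]⟩,
    ⟨[(2, 5)], [(1, 0), (2, 3), (3, 0), (3, 3), (4, 0), (5, 0), (5, 3)], [(0, 3)], [4],
      [(4, 0, [1, 5]), (7, 3, [])]⟩]
  Ta := [((3, 2), 0, 2), ((3, 5), 0, 6), ((4, 7), 0, 3), ((4, 8), 0, 7), ((4, 9), 0, 4), ((6, 5),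
    3, 6), ((6, 9), 3, 4), ((7, 4), 3, 0)]
  Tb := [((0, 1, 8), 1, 5, 7), ((1, 0, 2), 5, 1, 2), ((2, 1, 3), 2, 5, 0), ((3, 2, 5), 0, 2, 6),
    ((4, 7, 8), 0, 3, 7), ((4, 7, 9), 0, 3, 4), ((4, 8, 9), 0, 7, 4), ((5, 3, 6), 6, 0, 3),
    ((6, 5, 9), 3, 6, 4), ((8, 0, 4), 7, 1, 0), ((9, 4, 6), 4, 0, 3)]
  Tc := [(0, 1, 5)]
  Td := [((0, 1), (3, 2), 2), ((0, 1), (3, 5), 6), ((0, 1), (4, 7), 3), ((0, 1), (4, 8), 7), ((0,
    1), (4, 9), 4), ((0, 5), (3, 2), 2), ((0, 5), (3, 5), 6), ((0, 5), (4, 7), 3), ((0, 5),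
    (4, 8), 7), ((0, 5), (4, 9), 4), ((1, 0), (0, 1), 5), ((1, 0), (0, 8), 7), ((5, 0), (1,
    0), 1), ((5, 0), (1, 2), 2)]
  G := [[0, 0x142e842ea2181, 0xa118c1126112e4c1126114a114e8c, 0x61186118c112e41,
    0xa114a1146112e81], [0, 0x881861444a12126e141, 0xe1188491611ae112e4e1144e118e112acc,
    0xe114e1126e1188c1, 0xc1128316e114e112e81], [0, 0x141e812e68141, 0, 0x842e842ec8141,
    0x842e842ec4181], [0, 0x81c84cc81a11a66181, 0, 0x826426c848682cc88884cc44822426ceb41,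
    0x84a82ac484c24cc488484c44c82a22ce781]]

noncomputable def n3232 : Ent := ⟨e3232, noF, [], [], [(16, 15, [1685356702439545624007900436039642273970977273354372543760013320193, 0])]⟩

def c3232 : PLift (Cov.check n3232.C.D v3232 = true) := ⟨by decide +kernel⟩

def b3232 : PLift (entF (fidx ts) 400 3232 n3232 = true) := ⟨by decide +kernel⟩

theorem g3232 : GoodF (fidx ts) 400 3232 := GoodF.ofV v3232 n3232 c3232.down b3232.down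

/-- 4874454:2475/8 -/
noncomputable def e3233 : SCfg where
  D := {
    a := 7
    L := 10
    kp := 7
    inn := [(0, 1), (1, 0), (1, 2), (1, 3), (1, 4), (2, 1), (2, 3), (2, 5), (3, 1), (3, 2), (4, 1), (5,
      2), (5, 6), (6, 5)]
    mix := [(0, 0), (0, 1), (0, 2), (1, 0), (1, 2), (1, 3), (1, 4), (2, 3), (2, 5), (2, 6), (2, 7), (3,
      4), (3, 7), (4, 0), (4, 4), (4, 8), (5, 6), (5, 7), (5, 9), (6, 7), (6, 8), (6, 9)]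
    cl := [3, 6, 2, 0, 0, 7, 1, 1, 4, 5]
    chq := [(0, 3), (0, 6), (3, 0), (6, 0)]
    rng := [(0, 1), (0, 8), (1, 0), (1, 2), (2, 1), (2, 3), (3, 2), (3, 5), (4, 7), (4, 8), (5, 3), (5,
      6), (6, 5), (6, 9), (7, 4), (7, 8), (8, 0), (8, 4), (8, 7), (8, 9), (9, 6), (9, 8)]
    lev := [] }
  links := [[1, 7, 8, 9], [7, 0, 9, 10, 2, 3, 11, 4], [3, 1, 10, 12, 13, 5, 14], [11, 1, 2, 14], [7, 1,
    11, 15], [14, 2, 13, 16, 6], [14, 5, 16, 15]]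
  P := {
    a := 7
    N := 17
    nb := [898, 3741, 29738, 18438, 34946, 90180, 114720, 33043, 641, 1283, 4614, 49178, 9220, 69668,
      34924, 84176, 41056]
    tri := [(0, 1, 7), (0, 1, 9), (0, 7, 8), (0, 8, 9), (1, 2, 3), (1, 2, 10), (1, 3, 11), (1, 4, 7),
      (1, 4, 11), (1, 9, 10), (2, 3, 14), (2, 5, 13), (2, 5, 14), (2, 10, 12), (2, 12, 13), (3,
      11, 14), (4, 7, 15), (4, 11, 15), (5, 6, 14), (5, 6, 16), (5, 13, 16), (6, 14, 15), (6, 15,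
      16)]
    fin := [0, 0, 2, 2, 4, 5, 5, 4, 0, 9, 2, 2, 12, 5, 5, 15, 16]
    chd := [(0, 2), (4, 2)]
    steps := [(0, 1), (0, 8), (2, 3), (2, 10), (2, 11), (4, 7), (5, 6), (5, 13), (5, 14)] }
  rep := [2, 5, 9, 4, 15, 16, 0, 12]

noncomputable def v3233 : Cov.CovD where
  P := 3
  N := 5
  pl := [2, 5, 8, 9]
  lev := [⟨[], [], [(3, 6)], [2], [(0, 3, [0]), (1, 6, [0])]⟩,
    ⟨[], [(0, 0), (0, 3), (0, 6)], [(0, 0), (0, 3)], [2], [(0, 3, [0]), (3, 0, [3, 6]), (4,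
      0, [3, 6])]⟩,
    ⟨[(0, 1)], [(1, 0), (1, 1), (1, 3)], [(0, 1), (1, 1)], [7], [(3, 0, [3, 6]), (6, 1,
      []), (7, 1, [])]⟩,
    ⟨[(0, 1), (1, 2)], [(1, 0), (1, 1), (1, 3), (2, 0), (2, 1)], [(0, 1)], [], [(4, 0, [3,
      6]), (7, 1, [])]⟩,
    ⟨[(0, 1), (1, 2), (1, 3)], [(0, 3), (1, 0), (1, 3), (3, 0)], [(0, 3)], [4], [(0, 3,
      [0]), (4, 0, [3, 6])]⟩,
    ⟨[(1, 2), (2, 3)], [(2, 0), (2, 1), (3, 1)], [(1, 1)], [5], [(6, 1, []), (7, 1, [])]⟩,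
    ⟨[(2, 5)], [(2, 1), (3, 1), (5, 1)], [], [4, 5], [(7, 1, [])]⟩]
  Ta := [((3, 2), 0, 2), ((3, 5), 0, 7), ((4, 7), 0, 1), ((4, 8), 0, 4), ((6, 5), 1, 7), ((6, 9),
    1, 5), ((7, 4), 1, 0), ((7, 8), 1, 4)]
  Tb := [((0, 1, 8), 3, 6, 4), ((1, 0, 2), 6, 3, 2), ((2, 1, 3), 2, 6, 0), ((3, 2, 5), 0, 2, 7),
    ((4, 7, 8), 0, 1, 4), ((5, 3, 6), 7, 0, 1), ((6, 5, 9), 1, 7, 5), ((7, 4, 8), 1, 0, 4),
    ((8, 0, 4), 4, 3, 0), ((8, 0, 7), 4, 3, 1), ((8, 0, 9), 4, 3, 5), ((8, 4, 7), 4, 0, 1),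
    ((8, 4, 9), 4, 0, 5), ((8, 7, 9), 4, 1, 5), ((9, 6, 8), 5, 1, 4)]
  Tc := [(0, 3, 6)]
  Td := [((0, 3), (3, 2), 2), ((0, 3), (3, 5), 7), ((0, 3), (4, 7), 1), ((0, 3), (4, 8), 4), ((0,
    6), (3, 2), 2), ((0, 6), (3, 5), 7), ((0, 6), (4, 7), 1), ((0, 6), (4, 8), 4), ((3, 0),
    (0, 1), 6), ((3, 0), (0, 8), 4), ((6, 0), (1, 0), 3), ((6, 0), (1, 2), 2)]
  G := [[0, 0, 0xc19124219148215218e219144215188215214e3251821918c2e,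
    0x2152421521cc151221918cc1, 0x2151421914c12c2421521ca1], [0, 0,
    0xc19144c15148c15188ec19144c15188c19184ec1518c1914c2e, 0xc1514815419a1c41598561c1918cc1,
    0xc1514819419c1c41581561c1918ca1], [0, 0, 0, 0x81c12ca4114c81c621c1,
    0x81c14cc2125c281a1], [0, 0x42624824e42aa286c84e4a64282a28a4c82c68ec1, 0,
    0x81c14ca4114c81c681c1, 0x81c14cc4184c95c641a1]]

noncomputable def n3233 : Ent := ⟨e3233, noF, [], [], [(8, 16, [1580044410770988437309982408355971841652082177953823432505702326273, 0])]⟩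

def c3233 : PLift (Cov.check n3233.C.D v3233 = true) := ⟨by decide +kernel⟩

def b3233 : PLift (entF (fidx ts) 400 3233 n3233 = true) := ⟨by decide +kernel⟩

theorem g3233 : GoodF (fidx ts) 400 3233 := GoodF.ofV v3233 n3233 c3233.down b3233.down

/-- The entries 3111 to 3233. -/
theorem rE22 : Rng (GoodF (fidx ts) 400) 3111 3234 :=
  ((((((((((((((((((((((((((((((((((((((((((((((((((((((((((((((((((((((((((((((((((((((((((((((((((((((((((((((((((((((((((((Rng.nil _ 3111).snoc g3111 rfl).snoc g3112 rfl).snoc g3113 rfl).snoc g3114 rfl).snoc g3115 rfl).snoc g3116 rfl).snoc g3117 rfl).snoc g3118 rfl).snoc g3119 rfl).snoc g3120 rfl).snoc g3121 rfl).snoc g3122 rfl).snoc g3123 rfl).snoc g3124 rfl).snoc g3125 rfl).snoc g3126 rfl).snoc g3127 rfl).snoc g3128 rfl).snoc g3129 rfl).snoc g3130 rfl).snoc g3131 rfl).snoc g3132 rfl).snoc g3133 rfl).snoc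 g3134 rfl).snoc g3135 rfl).snoc g3136 rfl).snoc g3137 rfl).snoc g3138 rfl).snoc g3139 rfl).snoc g3140 rfl).snoc g3141 rfl).snoc g3142 rfl).snoc g3143 rfl).snoc g3144 rfl).snoc g3145 rfl).snoc g3146 rfl).snoc g3147 rfl).snoc g3148 rfl).snoc g3149 rfl).snoc g3150 rfl).snoc g3151 rfl).snoc g3152 rfl).snoc g3153 rfl).snoc g3154 rfl).snoc g3155 rfl).snoc g3156 rfl).snoc g3157 rfl).snoc g3158 rfl).snoc g3159 rfl).snoc g3160 rfl).snoc g3161 rfl).snoc g3162 rfl).snoc g3163 rfl).snoc g3164 rfl).snoc g3165 rfl).snoc g3166 rfl).snoc g3167 rfl).snoc g3168 rfl).snoc g3169 rfl).snoc g3170 rfl).snoc g3171 rfl).snoc g3172 rfl).snoc g3173 rfl).snoc g3174 rfl).snoc g3175 rfl).snoc g3176 rfl).snoc g3177 rfl).snoc g3178 rfl).snoc g3179 rfl).snoc g3180 rfl).snoc g3181 rfl).snoc g3182 rfl).snoc g3183 rfl).snoc g3184 rfl).snoc g3185 rfl).snoc g3186 rfl).snoc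 g3187 rfl).snoc g3188 rfl).snoc g3189 rfl).snoc g3190 rfl).snoc g3191 rfl).snoc g3192 rfl).snoc g3193 rfl).snoc g3194 rfl).snoc g3195 rfl).snoc g3196 rfl).snoc g3197 rfl).snoc g3198 rfl).snoc g3199 rfl).snoc g3200 rfl).snoc g3201 rfl).snoc g3202 rfl).snoc g3203 rfl).snoc g3204 rfl).snoc g3205 rfl).snoc g3206 rfl).snoc g3207 rfl).snoc g3208 rfl).snoc g3209 rfl).snoc g3210 rfl).snoc g3211 rfl).snoc g3212 rfl).snoc g3213 rfl).snoc g3214 rfl).snoc g3215 rfl).snoc g3216 rfl).snoc g3217 rfl).snoc g3218 rfl).snoc g3219 rfl).snoc g3220 rfl).snoc g3221 rfl).snoc g3222 rfl).snoc g3223 rfl).snoc g3224 rfl).snoc g3225 rfl).snoc g3226 rfl).snoc g3227 rfl).snoc g3228 rfl).snoc g3229 rfl).snoc g3230 rfl).snoc g3231 rfl).snoc g3232 rfl).snoc g3233 rfl)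

end Pool.Agent.W986.ST.Dat
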