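import Pool.Agent.W986.Dat.Tab
import Pool.Agent.W986.SubAltB

/-!
# Entries 3234 to 3360 of the table
-/

set_option autoImplicit false

namespace Pool.Agent.W986.ST.Dat

/-- 4874454:2475 -/
noncomputable def e3234 : SCfg where
  D := {
    a := 7
    L := 11
    kp := 8
    inn := [(0, 1), (1, 0), (1, 2), (1, 3), (1, 4), (2, 1), (2, 3), (2, 5), (3, 1), (3, 2), (4, 1), (5,
      2), (5, 6), (6, 5)]
    mix := [(0, 0), (0, 1), (0, 2), (1, 0), (1, 2), (1, 3), (1, 4), (2, 3), (2, 5), (2, 6), (2, 7), (3,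
      4), (3, 7), (4, 0), (4, 4), (4, 8), (5, 6), (5, 7), (5, 9), (6, 7), (6, 9), (6, 10)]
    cl := [1, 5, 2, 0, 0, 6, 3, 3, 7, 4, 8]
    chq := [(0, 1), (0, 5), (1, 0), (5, 0)]
    rng := [(0, 1), (0, 8), (1, 0), (1, 2), (2, 1), (2, 3), (3, 2), (3, 5), (4, 7), (4, 8), (5, 3), (5,
      6), (6, 5), (6, 9), (7, 4), (7, 10), (8, 0), (8, 4), (9, 6), (9, 10), (10, 7), (10, 9)]
    lev := [] }
  links := [[1, 7, 8, 9], [7, 0, 9, 10, 2, 3, 11, 4], [3, 1, 10, 12, 13, 5, 14], [11, 1, 2, 14], [7, 1,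
    11, 15], [14, 2, 13, 16, 6], [14, 5, 16, 17]]
  P := {
    a := 7
    N := 18
    nb := [898, 3741, 29738, 18438, 34946, 90180, 213024, 33043, 641, 1283, 4614, 49178, 9220, 69668,
      133228, 2192, 139360, 81984]
    tri := [(0, 1, 7), (0, 1, 9), (0, 7, 8), (0, 8, 9), (1, 2, 3), (1, 2, 10), (1, 3, 11), (1, 4, 7),
      (1, 4, 11), (1, 9, 10), (2, 3, 14), (2, 5, 13), (2, 5, 14), (2, 10, 12), (2, 12, 13), (3,
      11, 14), (4, 7, 15), (4, 11, 15), (5, 6, 14), (5, 6, 16), (5, 13, 16), (6, 14, 17), (6, 16,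
      17)]
    fin := [0, 0, 2, 2, 4, 5, 5, 4, 0, 9, 2, 2, 12, 5, 5, 15, 16, 17]
    chd := [(0, 2), (4, 2)]
    steps := [(0, 1), (0, 8), (2, 3), (2, 10), (2, 11), (4, 7), (5, 6), (5, 13), (5, 14)] }
  rep := [2, 4, 9, 5, 16, 0, 12, 15, 17]

noncomputable def v3234 : Cov.CovD where
  P := 3
  N := 6
  pl := [2, 5, 8, 9, 10]
  lev := [⟨[], [], [(1, 5)], [2], [(0, 1, [0]), (1, 5, [0])]⟩,
    ⟨[], [(0, 0), (0, 1), (0, 5)], [(0, 0), (0, 1)], [2], [(0, 1, [0]), (3, 0, [1, 5]), (4,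
      0, [1, 5])]⟩,
    ⟨[(0, 1)], [(1, 0), (1, 1), (1, 3)], [(0, 3), (3, 3)], [6], [(3, 0, [1, 5]), (6, 3,
      []), (7, 3, [])]⟩,
    ⟨[(0, 1), (1, 2)], [(1, 0), (1, 1), (1, 3), (2, 0), (2, 3)], [(0, 3)], [], [(4, 0, [1,
      5]), (7, 3, [])]⟩,
    ⟨[(0, 1), (1, 2), (1, 3)], [(0, 1), (1, 0), (1, 1), (3, 0)], [(0, 1)], [7], [(0, 1,
      [0]), (4, 0, [1, 5])]⟩,
    ⟨[(1, 2), (2, 3)], [(2, 0), (2, 3), (3, 3)], [(3, 3)], [4], [(6, 3, []), (7, 3, [])]⟩,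
    ⟨[(2, 5)], [(2, 3), (3, 3), (5, 3)], [], [4, 8], [(7, 3, [])]⟩]
  Ta := [((3, 2), 0, 2), ((3, 5), 0, 6), ((4, 7), 0, 3), ((4, 8), 0, 7), ((6, 5), 3, 6), ((6, 9),
    3, 4), ((7, 4), 3, 0), ((7, 10), 3, 8)]
  Tb := [((0, 1, 8), 1, 5, 7), ((1, 0, 2), 5, 1, 2), ((2, 1, 3), 2, 5, 0), ((3, 2, 5), 0, 2, 6),
    ((4, 7, 8), 0, 3, 7), ((5, 3, 6), 6, 0, 3), ((6, 5, 9), 3, 6, 4), ((7, 4, 10), 3, 0, 8),
    ((8, 0, 4), 7, 1, 0), ((9, 6, 10), 4, 3, 8), ((10, 7, 9), 8, 3, 4)]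
  Tc := [(0, 1, 5)]
  Td := [((0, 1), (3, 2), 2), ((0, 1), (3, 5), 6), ((0, 1), (4, 7), 3), ((0, 1), (4, 8), 7), ((0,
    5), (3, 2), 2), ((0, 5), (3, 5), 6), ((0, 5), (4, 7), 3), ((0, 5), (4, 8), 7), ((1, 0),
    (0, 1), 5), ((1, 0), (0, 8), 7), ((5, 0), (1, 0), 1), ((5, 0), (1, 2), 2)]
  G := [[0, 0x953e953e62181, 0x48dd124249718483d12ac28bb1428bb1468351481a8cc,
    0x249718c85b12483d12e41, 0x2a9714c85b12483d12e81], [0, 0x989865454c32326e181,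
    0xc65b14a63d126ca97188cc65b144ca9718a63d12acc, 0xc65b144ca9718a63d12ac1,
    0xc951a9316c65b14a63d12e81], [0, 0x953e953ec2181, 0, 0x953e953ec2181, 0x9a3e9a3ec4181],
    [0, 0x989865454a3232ce181, 0, 0xc6ac6ac4a6ca6cc495c95cc93a93ac6781,
    0xc6ac6ac4a6ca6cc293a495c536c93a8e781]]

noncomputable def n3234 : Ent := ⟨e3234, noF, [], [], [(8, 16, [7334685537875745012586738086077695515070955365108989538292687706894337, 0]), (8, 17, [6903326391201334775872065844685381424292761054348340378595029942910977, 0]), (16, 15, [7334790850167413569773436004105379185503274260204390087403942017888257, 0]), (17, 11, [6903326391201334778116932359625648306653620957400551096786542328938497, 0]), (17, 15, [6903537015784671890245461680740748765157398844539141476817538564886529, 0])]⟩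

def c3234 : PLift (Cov.check n3234.C.D v3234 = true) := ⟨by decide +kernel⟩

def b3234 : PLift (entF (fidx ts) 400 3234 n3234 = true) := ⟨by decide +kernel⟩

theorem g3234 : GoodF (fidx ts) 400 3234 := GoodF.ofV v3234 n3234 c3234.down b3234.down

/-- 4674494:2477/1 -/
noncomputable def e3235 : SCfg where
  D := {
    a := 7
    L := 10
    kp := 7
    inn := [(0, 1), (0, 5), (1, 0), (1, 2), (1, 5), (2, 1), (2, 3), (2, 4), (2, 5), (3, 2), (3, 5), (4,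
      2), (5, 0), (5, 1), (5, 2), (5, 3), (5, 6), (6, 5)]
    mix := [(0, 0), (0, 1), (1, 0), (1, 2), (1, 3), (2, 2), (2, 4), (2, 5), (3, 4), (3, 6), (4, 2), (4,
      5), (4, 7), (5, 1), (5, 6), (5, 8), (5, 9), (6, 7), (6, 8), (6, 9)]
    cl := [3, 1, 0, 7, 0, 2, 1, 4, 5, 6]
    chq := [(0, 3), (1, 4), (3, 0), (4, 1)]
    rng := [(0, 1), (0, 3), (1, 0), (1, 8), (2, 3), (2, 7), (3, 0), (3, 2), (4, 5), (4, 6), (5, 4), (5,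
      7), (6, 4), (6, 9), (7, 2), (7, 5), (7, 8), (7, 9), (8, 1), (8, 7), (9, 6), (9, 7)]
    lev := [] }
  links := [[1, 7, 8, 5], [7, 0, 5, 2, 9, 10], [9, 1, 5, 3, 11, 12, 4], [11, 2, 5, 13], [9, 2, 12, 14],
    [13, 3, 2, 1, 0, 8, 15, 6, 16], [16, 5, 15, 14]]
  P := {
    a := 7
    N := 17
    nb := [418, 1701, 6714, 10276, 20996, 106831, 114720, 1283, 32929, 17430, 642, 12300, 18452,
      67624, 102992, 16736, 24672]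
    tri := [(0, 1, 5), (0, 1, 7), (0, 5, 8), (0, 7, 8), (1, 2, 5), (1, 2, 9), (1, 7, 10), (1, 9, 10),
      (2, 3, 5), (2, 3, 11), (2, 4, 9), (2, 4, 12), (2, 11, 12), (3, 5, 13), (3, 11, 13), (4, 9,
      14), (4, 12, 14), (5, 6, 15), (5, 6, 16), (5, 8, 15), (5, 13, 16), (6, 14, 15), (6, 14, 16)]
    fin := [0, 0, 2, 3, 4, 3, 3, 0, 3, 2, 10, 2, 12, 3, 4, 15, 16]
    chd := [(0, 2), (3, 4)]
    steps := [(0, 1), (0, 7), (2, 11), (2, 9), (3, 5), (3, 6), (3, 8), (3, 13), (4, 14)] }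
  rep := [2, 3, 12, 0, 4, 15, 16, 10]

noncomputable def v3235 : Cov.CovD where
  P := 3
  N := 5
  pl := [3, 5, 8, 9]
  lev := [⟨[], [], [(1, 3)], [], [(0, 3, [0]), (1, 1, [4])]⟩,
    ⟨[], [(0, 0), (0, 1), (0, 3)], [(0, 3)], [7], [(0, 3, [0]), (2, 0, [3])]⟩,
    ⟨[(0, 1)], [(1, 0), (1, 3)], [(0, 0)], [2], [(2, 0, [3]), (4, 0, [3])]⟩,
    ⟨[(1, 2)], [(2, 0), (2, 1)], [(0, 1)], [], [(4, 0, [3]), (6, 1, [4])]⟩,
    ⟨[(1, 2), (2, 3)], [(1, 0), (2, 0), (2, 4)], [(0, 4)], [2], [(2, 0, [3]), (7, 4, [1])]⟩,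
    ⟨[(0, 1), (0, 2), (0, 3), (1, 2), (1, 3), (2, 3), (2, 4)], [(0, 1), (0, 3), (1, 0), (1,
      1), (1, 3), (2, 0), (2, 1), (3, 0), (3, 1)], [(1, 1)], [5, 6], [(1, 1, [4]), (6, 1,
      [4])]⟩,
    ⟨[(0, 5), (1, 5), (2, 5), (3, 5)], [(4, 4), (5, 1), (5, 4)], [], [5, 6], [(7, 4, [1])]⟩]
  Ta := [((1, 0), 1, 3), ((1, 8), 1, 5), ((2, 3), 0, 7), ((2, 7), 0, 4), ((4, 5), 0, 2), ((4, 6),
    0, 1), ((6, 4), 1, 0), ((6, 9), 1, 6)]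
  Tb := [((0, 1, 3), 3, 1, 7), ((1, 0, 8), 1, 3, 5), ((2, 3, 7), 0, 7, 4), ((3, 0, 2), 7, 3, 0),
    ((4, 5, 6), 0, 2, 1), ((5, 4, 7), 2, 0, 4), ((6, 4, 9), 1, 0, 6), ((7, 2, 5), 4, 0, 2),
    ((7, 2, 8), 4, 0, 5), ((7, 2, 9), 4, 0, 6), ((7, 5, 8), 4, 2, 5), ((7, 5, 9), 4, 2, 6),
    ((7, 8, 9), 4, 5, 6), ((8, 1, 7), 5, 1, 4), ((9, 6, 7), 6, 1, 4)]
  Tc := []
  Td := [((0, 3), (2, 3), 7), ((0, 3), (2, 7), 4), ((0, 3), (4, 5), 2), ((0, 3), (4, 6), 1), ((1,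
    4), (1, 0), 3), ((1, 4), (1, 8), 5), ((1, 4), (6, 4), 0), ((1, 4), (6, 9), 6), ((3, 0),
    (0, 1), 1), ((3, 0), (0, 3), 7), ((4, 1), (7, 2), 0), ((4, 1), (7, 5), 2), ((4, 1), (7,
    8), 5), ((4, 1), (7, 9), 6)]
  G := [[0, 0, 0, 0x1111c848114718a8444412aad28c2c2462cc18882c325342dc28884ced,
    0x11248267924844a521a283fca9282c24a12342d222bad88aed], [0, 0, 0,
    0x4441a3591c2828c9c11679c2424c58881cc34c412bad21c8c23,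
    0xab5244252828a4a6792482c24a1ac7252382982984a23], [0, 0,
    0x11244112482ac62ca42b112281122462c2ac6827c, 0xa151248111284681446ac1287b2d184ed,
    0xa151428e19142468142241827b2d142ed], [0, 0x14111a1c4111e128111e184e1,
    0x11248112842473ca888c4d2121a4423, 0xa151681c4a41861918cc7b2d14823,
    0x6a1d1426a1d182c7b2d14823]]

noncomputable def n3235 : Ent := ⟨e3235, noF, [], [], []⟩

def c3235 : PLift (Cov.check n3235.C.D v3235 = true) := ⟨by decide +kernel⟩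

def b3235 : PLift (entF (fidx ts) 400 3235 n3235 = true) := ⟨by decide +kernel⟩

theorem g3235 : GoodF (fidx ts) 400 3235 := GoodF.ofV v3235 n3235 c3235.down b3235.down

/-- 4674494:2477 -/
noncomputable def e3236 : SCfg where
  D := {
    a := 7
    L := 11
    kp := 8
    inn := [(0, 1), (0, 5), (1, 0), (1, 2), (1, 5), (2, 1), (2, 3), (2, 4), (2, 5), (3, 2), (3, 5), (4,
      2), (5, 0), (5, 1), (5, 2), (5, 3), (5, 6), (6, 5)]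
    mix := [(0, 0), (0, 1), (1, 0), (1, 2), (1, 3), (2, 2), (2, 4), (2, 5), (3, 4), (3, 6), (4, 2), (4,
      5), (4, 7), (5, 1), (5, 6), (5, 8), (5, 9), (6, 8), (6, 9), (6, 10)]
    cl := [3, 1, 0, 7, 0, 2, 1, 8, 4, 5, 6]
    chq := [(0, 3), (1, 6), (3, 0), (6, 1)]
    rng := [(0, 1), (0, 3), (1, 0), (1, 8), (2, 3), (2, 7), (3, 0), (3, 2), (4, 5), (4, 6), (5, 4), (5,
      7), (6, 4), (6, 9), (7, 2), (7, 5), (8, 1), (8, 10), (9, 6), (9, 10), (10, 8), (10, 9)]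
    lev := [] }
  links := [[1, 7, 8, 5], [7, 0, 5, 2, 9, 10], [9, 1, 5, 3, 11, 12, 4], [11, 2, 5, 13], [9, 2, 12, 14],
    [13, 3, 2, 1, 0, 8, 15, 6, 16], [16, 5, 15, 17]]
  P := {
    a := 7
    N := 18
    nb := [418, 1701, 6714, 10276, 20996, 106831, 229408, 1283, 32929, 17430, 642, 12300, 18452,
      67624, 4624, 131424, 139360, 98368]
    tri := [(0, 1, 5), (0, 1, 7), (0, 5, 8), (0, 7, 8), (1, 2, 5), (1, 2, 9), (1, 7, 10), (1, 9, 10),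
      (2, 3, 5), (2, 3, 11), (2, 4, 9), (2, 4, 12), (2, 11, 12), (3, 5, 13), (3, 11, 13), (4, 9,
      14), (4, 12, 14), (5, 6, 15), (5, 6, 16), (5, 8, 15), (5, 13, 16), (6, 15, 17), (6, 16, 17)]
    fin := [0, 0, 2, 3, 2, 3, 3, 0, 3, 2, 10, 2, 12, 3, 14, 15, 16, 17]
    chd := [(0, 2), (3, 17)]
    steps := [(0, 1), (0, 7), (2, 4), (2, 11), (2, 9), (3, 5), (3, 6), (3, 8), (3, 13)] }
  rep := [2, 3, 12, 0, 15, 16, 17, 10, 14]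

noncomputable def v3236 : Cov.CovD where
  P := 3
  N := 6
  pl := [3, 5, 7, 8, 9]
  lev := [⟨[], [], [(1, 3)], [], [(0, 3, [0]), (1, 1, [6])]⟩,
    ⟨[], [(0, 0), (0, 1), (0, 3)], [(0, 3)], [7], [(0, 3, [0]), (2, 0, [3])]⟩,
    ⟨[(0, 1)], [(1, 0), (1, 3)], [(0, 0)], [2], [(2, 0, [3]), (4, 0, [3])]⟩,
    ⟨[(1, 2)], [(2, 0), (2, 1)], [(0, 1)], [], [(4, 0, [3]), (6, 1, [6])]⟩,
    ⟨[(1, 2), (2, 3)], [(1, 0), (2, 0)], [], [2, 8], [(2, 0, [3])]⟩,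
    ⟨[(0, 1), (0, 2), (0, 3), (1, 2), (1, 3), (2, 3), (2, 4)], [(0, 1), (0, 3), (1, 0), (1,
      1), (1, 3), (2, 0), (2, 1), (3, 0), (3, 1)], [(1, 1)], [4, 5], [(1, 1, [6]), (6, 1,
      [6])]⟩,
    ⟨[(0, 5), (1, 5), (2, 5), (3, 5)], [(5, 1), (5, 6)], [], [4, 5], [(10, 6, [1])]⟩]
  Ta := [((1, 0), 1, 3), ((1, 8), 1, 4), ((2, 3), 0, 7), ((2, 7), 0, 8), ((4, 5), 0, 2), ((4, 6),
    0, 1), ((6, 4), 1, 0), ((6, 9), 1, 5)]
  Tb := [((0, 1, 3), 3, 1, 7), ((1, 0, 8), 1, 3, 4), ((2, 3, 7), 0, 7, 8), ((3, 0, 2), 7, 3, 0),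
    ((4, 5, 6), 0, 2, 1), ((5, 4, 7), 2, 0, 8), ((6, 4, 9), 1, 0, 5), ((7, 2, 5), 8, 0, 2),
    ((8, 1, 10), 4, 1, 6), ((9, 6, 10), 5, 1, 6), ((10, 8, 9), 6, 4, 5)]
  Tc := []
  Td := [((0, 3), (2, 3), 7), ((0, 3), (2, 7), 8), ((0, 3), (4, 5), 2), ((0, 3), (4, 6), 1), ((1,
    6), (1, 0), 3), ((1, 6), (1, 8), 4), ((1, 6), (6, 4), 0), ((1, 6), (6, 9), 5), ((3, 0),
    (0, 1), 1), ((3, 0), (0, 3), 7), ((6, 1), (10, 8), 4), ((6, 1), (10, 9), 5)]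
  G := [[0, 0, 0, 0xaf5b1c248716f9c484e4426828c1c24a4c1e882c72548f36db8c2ced,
    0xaf5b1a428f885921b424682eca12365622da827253fada2b881aed], [0, 0, 0,
    0xaf5b1c848e4416828c1caf547168c248de881cca14743fcc9b2984c2b,
    0x6afd2b9ae42522424ae79e79ac2ca17bedaf4853884a23], [0, 0,
    0xb1f1c82f48386ac6c29879e16427bc62cc825142e1969ac42d,
    0x2b512486f91284c4122812ca41883fad128ed, 0xf114287112846ac1426a8d128f36d142ed], [0,
    0x14111ec211a88c1111e1241161181a8a5, 0x2121a4421216885464cb8b3cac2d2121a8423,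
    0xaf51681c4f1148ca41681c87bed14863, 0xaf5146814a6afd182cf36d14223]]

noncomputable def n3236 : Ent := ⟨e3236, noF, [], [], [(17, 14, [6903326468334360900303599070699561856668565975414084080169086037405697, 0])]⟩

def c3236 : PLift (Cov.check n3236.C.D v3236 = true) := ⟨by decide +kernel⟩

def b3236 : PLift (entF (fidx ts) 400 3236 n3236 = true) := ⟨by decide +kernel⟩

theorem g3236 : GoodF (fidx ts) 400 3236 := GoodF.ofV v3236 n3236 c3236.down b3236.down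

/-- 4685474:2481/1 -/
noncomputable def e3237 : SCfg where
  D := {
    a := 7
    L := 10
    kp := 8
    inn := [(0, 1), (0, 5), (1, 0), (1, 2), (1, 5), (2, 1), (2, 3), (2, 4), (2, 5), (3, 2), (3, 6), (4,
      2), (4, 5), (5, 0), (5, 1), (5, 2), (5, 4), (6, 3)]
    mix := [(0, 0), (0, 1), (1, 0), (1, 2), (1, 3), (2, 2), (2, 4), (2, 5), (2, 6), (3, 2), (3, 3), (3,
      6), (4, 4), (4, 7), (5, 1), (5, 7), (5, 8), (6, 3), (6, 6), (6, 9)]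
    cl := [2, 4, 0, 1, 0, 6, 3, 5, 7, 8]
    chq := [(0, 2), (0, 4), (0, 7), (1, 3), (1, 6), (2, 0), (3, 1), (4, 0), (6, 1), (7, 0)]
    rng := [(0, 1), (0, 3), (1, 0), (1, 8), (2, 3), (3, 0), (3, 2), (3, 9), (4, 5), (4, 7), (5, 4), (5,
      6), (6, 5), (6, 9), (7, 4), (7, 8), (8, 1), (8, 7), (9, 3), (9, 6)]
    lev := [] }
  links := [[1, 7, 8, 5], [7, 0, 5, 2, 9, 10], [9, 1, 5, 4, 11, 12, 13, 3], [9, 2, 13, 6, 10], [11, 2, 5,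
    14], [14, 4, 2, 1, 0, 8, 15], [10, 3, 13, 16]]
  P := {
    a := 7
    N := 17
    nb := [418, 1701, 14906, 9796, 18468, 49431, 74760, 1283, 32929, 1038, 66250, 20500, 10244, 69708,
      34864, 16672, 9280]
    tri := [(0, 1, 5), (0, 1, 7), (0, 5, 8), (0, 7, 8), (1, 2, 5), (1, 2, 9), (1, 7, 10), (1, 9, 10),
      (2, 3, 9), (2, 3, 13), (2, 4, 5), (2, 4, 11), (2, 11, 12), (2, 12, 13), (3, 6, 10), (3, 6,
      13), (3, 9, 10), (4, 5, 14), (4, 11, 14), (5, 8, 15), (5, 14, 15), (6, 10, 16), (6, 13, 16)]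
    fin := [0, 1, 2, 2, 1, 1, 6, 0, 8, 1, 10, 1, 2, 6, 14, 15, 16]
    chd := [(0, 1), (1, 15), (8, 1), (10, 2), (10, 6)]
    steps := [(0, 7), (1, 5), (1, 4), (1, 11), (1, 9), (2, 3), (2, 12), (6, 13)] }
  rep := [1, 10, 0, 6, 8, 14, 2, 15, 16]

noncomputable def v3237 : Cov.CovD where
  P := 3
  N := 6
  pl := [7, 9]
  lev := [⟨[], [], [(2, 4)], [], [(0, 2, [0]), (1, 4, [0])]⟩,
    ⟨[], [(0, 0), (0, 1), (0, 2), (0, 4)], [(0, 1), (0, 2), (1, 2)], [], [(0, 2, [0]), (2,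
      0, [2, 4, 7]), (3, 1, [3, 6])]⟩,
    ⟨[(0, 1)], [(1, 0), (1, 1), (1, 2), (1, 3), (1, 6)], [(0, 0), (0, 3), (0, 6), (3, 6)],
      [], [(2, 0, [2, 4, 7]), (4, 0, [2, 4, 7]), (5, 6, [1]), (6, 3, [1])]⟩,
    ⟨[(1, 2)], [(1, 0), (1, 1), (2, 0), (2, 1), (2, 3), (2, 6)], [(0, 1), (0, 3), (1, 3)],
      [], [(2, 0, [2, 4, 7]), (3, 1, [3, 6]), (6, 3, [1])]⟩,
    ⟨[(1, 2), (2, 3)], [(2, 0), (2, 3), (2, 6)], [], [5], [(4, 0, [2, 4, 7])]⟩,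
    ⟨[(0, 1), (0, 2), (0, 4), (1, 2), (1, 4), (2, 3), (2, 4)], [(0, 2), (0, 4), (0, 7), (1,
      0), (1, 1), (1, 2), (1, 4), (1, 7), (2, 0), (2, 3), (2, 4), (2, 6), (2, 7), (4, 0), (4,
      4), (4, 7)], [(4, 7)], [5], [(1, 4, [0]), (8, 7, [0])]⟩,
    ⟨[(2, 3)], [(1, 1), (2, 3), (3, 0), (3, 1), (3, 3)], [(1, 3)], [8], [(3, 1, [3, 6]),
      (6, 3, [1])]⟩]
  Ta := [((2, 3), 0, 1), ((4, 5), 0, 6), ((4, 7), 0, 5)]
  Tb := [((0, 1, 3), 2, 4, 1), ((1, 0, 8), 4, 2, 7), ((3, 0, 2), 1, 2, 0), ((3, 0, 9), 1, 2, 8),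
    ((3, 2, 9), 1, 0, 8), ((4, 5, 7), 0, 6, 5), ((5, 4, 6), 6, 0, 3), ((6, 5, 9), 3, 6, 8),
    ((7, 4, 8), 5, 0, 7), ((8, 1, 7), 7, 4, 5), ((9, 3, 6), 8, 1, 3)]
  Tc := [(0, 2, 4), (0, 2, 7), (0, 4, 7), (1, 3, 6)]
  Td := [((0, 2), (2, 3), 1), ((0, 2), (4, 5), 6), ((0, 2), (4, 7), 5), ((0, 4), (2, 3), 1), ((0,
    4), (4, 5), 6), ((0, 4), (4, 7), 5), ((0, 7), (2, 3), 1), ((0, 7), (4, 5), 6), ((0, 7),
    (4, 7), 5), ((1, 3), (3, 0), 2), ((1, 3), (3, 2), 0), ((1, 3), (3, 9), 8), ((1, 6), (3,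
    0), 2), ((1, 6), (3, 2), 0), ((1, 6), (3, 9), 8), ((2, 0), (0, 1), 4), ((2, 0), (0, 3),
    1), ((3, 1), (6, 5), 6), ((3, 1), (6, 9), 8), ((4, 0), (1, 0), 2), ((4, 0), (1, 8), 7),
    ((6, 1), (5, 4), 0), ((6, 1), (5, 6), 3), ((7, 0), (8, 1), 4), ((7, 0), (8, 7), 5)]
  G := [[0, 0xc1c16a1a166c1c1c6161caa1a1c6161ace81, 0x9191c5151cc249191c5151cc28c,
    0x99991996d5151555edc241, 0x9191c5151cc289191c5151cc28a], [0, 0,
    0x9191c5151cc289191c5151cc24c, 0x918512c24999b99592b555d553cc245,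
    0x91995c5151cc298455c4c299859165154cc28e221b2243192c524ce8b]]

noncomputable def n3237 : Ent := ⟨e3237, noF, [], [], []⟩

def c3237 : PLift (Cov.check n3237.C.D v3237 = true) := ⟨by decide +kernel⟩

def b3237 : PLift (entF (fidx ts) 400 3237 n3237 = true) := ⟨by decide +kernel⟩

theorem g3237 : GoodF (fidx ts) 400 3237 := GoodF.ofV v3237 n3237 c3237.down b3237.down

/-- 4685474:2481 -/
noncomputable def e3238 : SCfg where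
  D := {
    a := 7
    L := 11
    kp := 9
    inn := [(0, 1), (0, 5), (1, 0), (1, 2), (1, 5), (2, 1), (2, 3), (2, 4), (2, 5), (3, 2), (3, 6), (4,
      2), (4, 5), (5, 0), (5, 1), (5, 2), (5, 4), (6, 3)]
    mix := [(0, 0), (0, 1), (1, 0), (1, 2), (1, 3), (2, 2), (2, 4), (2, 5), (2, 6), (3, 2), (3, 6), (3,
      7), (4, 4), (4, 8), (5, 1), (5, 8), (5, 9), (6, 6), (6, 7), (6, 10)]
    cl := [1, 2, 0, 8, 3, 6, 0, 5, 4, 7, 9]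
    chq := [(0, 1), (1, 0), (1, 3), (1, 4), (1, 6), (1, 7), (3, 1), (4, 1), (6, 1), (7, 1)]
    rng := [(0, 1), (0, 3), (1, 0), (1, 9), (2, 3), (2, 7), (3, 0), (3, 2), (4, 5), (4, 8), (5, 4), (5,
      6), (6, 5), (6, 10), (7, 2), (7, 10), (8, 4), (8, 9), (9, 1), (9, 8), (10, 6), (10, 7)]
    lev := [] }
  links := [[1, 7, 8, 5], [7, 0, 5, 2, 9, 10], [9, 1, 5, 4, 11, 12, 13, 3], [9, 2, 13, 6, 14], [11, 2, 5,
    15], [15, 4, 2, 1, 0, 8, 16], [14, 3, 13, 17]]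
  P := {
    a := 7
    N := 18
    nb := [418, 1701, 14906, 25156, 34852, 98583, 155656, 1283, 65697, 17422, 642, 36884, 10244,
      135244, 131656, 67632, 33056, 24640]
    tri := [(0, 1, 5), (0, 1, 7), (0, 5, 8), (0, 7, 8), (1, 2, 5), (1, 2, 9), (1, 7, 10), (1, 9, 10),
      (2, 3, 9), (2, 3, 13), (2, 4, 5), (2, 4, 11), (2, 11, 12), (2, 12, 13), (3, 6, 13), (3, 6,
      14), (3, 9, 14), (4, 5, 15), (4, 11, 15), (5, 8, 16), (5, 15, 16), (6, 13, 17), (6, 14, 17)]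
    fin := [0, 0, 0, 3, 0, 0, 3, 0, 8, 3, 10, 11, 12, 3, 14, 15, 16, 17]
    chd := [(0, 3), (0, 11), (0, 12), (0, 15), (0, 16)]
    steps := [(0, 1), (0, 2), (0, 4), (0, 5), (0, 7), (3, 6), (3, 13), (3, 9)] }
  rep := [3, 0, 8, 11, 15, 14, 12, 16, 10, 17]

noncomputable def v3238 : Cov.CovD where
  P := 3
  N := 7
  pl := [1, 3, 7, 10]
  lev := [⟨[], [], [], [2], [(0, 1, [0, 3, 4, 6, 7])]⟩,
    ⟨[], [(0, 0), (0, 1)], [(0, 1)], [8], [(0, 1, [0, 3, 4, 6, 7]), (2, 0, [1])]⟩,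
    ⟨[(0, 1)], [(1, 0), (1, 1), (1, 3), (1, 6)], [(0, 0), (0, 3), (0, 6), (3, 6)], [], [(2,
      0, [1]), (4, 3, [1]), (5, 6, [1]), (6, 0, [1])]⟩,
    ⟨[(1, 2)], [(1, 0), (2, 0), (2, 3), (2, 6)], [(0, 0)], [5], [(2, 0, [1]), (6, 0, [1])]⟩,
    ⟨[(1, 2), (2, 3)], [(2, 0), (2, 3), (2, 4), (2, 6)], [(3, 4)], [], [(4, 3, [1]), (8, 4,
      [1])]⟩,
    ⟨[(0, 1), (0, 2), (0, 4), (1, 2), (1, 4), (2, 3), (2, 4)], [(0, 1), (0, 4), (0, 7), (1,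
      0), (1, 1), (1, 4), (1, 7), (2, 0), (2, 3), (2, 4), (2, 6), (2, 7), (4, 3), (4, 4), (4,
      7)], [(4, 7)], [2], [(8, 4, [1]), (9, 7, [1])]⟩,
    ⟨[(2, 3)], [(2, 0), (3, 0)], [], [5, 9], [(6, 0, [1])]⟩]
  Ta := [((2, 3), 0, 8), ((2, 7), 0, 5), ((6, 5), 0, 6), ((6, 10), 0, 9)]
  Tb := [((0, 1, 3), 1, 2, 8), ((1, 0, 9), 2, 1, 7), ((2, 3, 7), 0, 8, 5), ((3, 0, 2), 8, 1, 0),
    ((4, 5, 8), 3, 6, 4), ((5, 4, 6), 6, 3, 0), ((6, 5, 10), 0, 6, 9), ((7, 2, 10), 5, 0, 9),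
    ((8, 4, 9), 4, 3, 7), ((9, 1, 8), 7, 2, 4), ((10, 6, 7), 9, 0, 5)]
  Tc := [(1, 0, 3), (1, 0, 4), (1, 0, 6), (1, 0, 7), (1, 3, 4), (1, 3, 6), (1, 3, 7), (1, 4, 6),
    (1, 4, 7), (1, 6, 7)]
  Td := [((0, 1), (2, 3), 8), ((0, 1), (2, 7), 5), ((0, 1), (6, 5), 6), ((0, 1), (6, 10), 9),
    ((1, 0), (0, 1), 2), ((1, 0), (0, 3), 8), ((1, 3), (0, 1), 2), ((1, 3), (0, 3), 8), ((1,
    4), (0, 1), 2), ((1, 4), (0, 3), 8), ((1, 6), (0, 1), 2), ((1, 6), (0, 3), 8), ((1, 7),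
    (0, 1), 2), ((1, 7), (0, 3), 8), ((3, 1), (4, 5), 6), ((3, 1), (4, 8), 4), ((4, 1), (8,
    4), 3), ((4, 1), (8, 9), 7), ((6, 1), (5, 4), 3), ((6, 1), (5, 6), 0), ((7, 1), (9, 1),
    2), ((7, 1), (9, 8), 4)]
  G := [[0, 0x1114111111a1114e11121112a111811111161118ee4,
    0xa212a2eb21c1a619294616dc63211252ca272ae929292b523232ba11c3aae366c511e3cecc21233212a276a3ca8391a18187ca8c,
    0xa1ad2161d2c251ad2361d2c2c1,
    0x121139626639c2722c2412129e12c2c2b621212baa2a211911abf1216368661bfcec92c26321266724124a52a8a879218187ce89],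
    [0, 0x111211111161112e11181114a111411111161118ee4,
    0xc2c2c2ea2a2a2d6c2c2c2d6262627aaacaaae366c666e3ce18, 0xa12612c2a12612c2aac266c2c2d8,
    0xa11611c2a11611c2c2c26a2a266c24624aa2a2a8aaaf62626866afced8]]

noncomputable def n3238 : Ent := ⟨e3238, noF, [], [], [(14, 10, [7334790875878422277917645788186105388691426821767817058683541365870593, 0])]⟩

def c3238 : PLift (Cov.check n3238.C.D v3238 = true) := ⟨by decide +kernel⟩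

def b3238 : PLift (entF (fidx ts) 400 3238 n3238 = true) := ⟨by decide +kernel⟩

theorem g3238 : GoodF (fidx ts) 400 3238 := GoodF.ofV v3238 n3238 c3238.down b3238.down

/-- 4685474:2482/1 -/
noncomputable def e3239 : SCfg where
  D := {
    a := 7
    L := 10
    kp := 8
    inn := [(0, 1), (0, 5), (1, 0), (1, 2), (1, 5), (2, 1), (2, 3), (2, 4), (2, 5), (3, 2), (3, 6), (4,
      2), (4, 5), (5, 0), (5, 1), (5, 2), (5, 4), (6, 3)]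
    mix := [(0, 0), (0, 1), (1, 0), (1, 2), (1, 3), (2, 2), (2, 4), (2, 5), (2, 6), (3, 2), (3, 6), (3,
      7), (4, 4), (4, 8), (5, 1), (5, 8), (5, 9), (6, 2), (6, 3), (6, 7)]
    cl := [2, 3, 0, 1, 0, 7, 4, 5, 6, 8]
    chq := [(0, 2), (0, 3), (0, 8), (1, 4), (1, 7), (2, 0), (3, 0), (4, 1), (7, 1), (8, 0)]
    rng := [(0, 1), (0, 3), (1, 0), (1, 9), (2, 3), (3, 0), (3, 2), (3, 7), (4, 5), (4, 8), (5, 4), (5,
      6), (6, 5), (6, 7), (7, 3), (7, 6), (8, 4), (8, 9), (9, 1), (9, 8)]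
    lev := [] }
  links := [[1, 7, 8, 5], [7, 0, 5, 2, 9, 10], [9, 1, 5, 4, 11, 12, 13, 3], [9, 2, 13, 14, 6], [11, 2, 5,
    15], [15, 4, 2, 1, 0, 8, 16], [9, 3, 14, 10]]
  P := {
    a := 7
    N := 17
    nb := [418, 1701, 14906, 25156, 34852, 98583, 17928, 1283, 65697, 1102, 17090, 36884, 10244,
      20492, 9288, 67632, 33056]
    tri := [(0, 1, 5), (0, 1, 7), (0, 5, 8), (0, 7, 8), (1, 2, 5), (1, 2, 9), (1, 7, 10), (1, 9, 10),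
      (2, 3, 9), (2, 3, 13), (2, 4, 5), (2, 4, 11), (2, 11, 12), (2, 12, 13), (3, 6, 9), (3, 6,
      14), (3, 13, 14), (4, 5, 15), (4, 11, 15), (5, 8, 16), (5, 15, 16), (6, 9, 10), (6, 10, 14)]
    fin := [0, 1, 2, 3, 1, 1, 3, 0, 8, 1, 3, 1, 2, 13, 14, 15, 16]
    chd := [(0, 1), (1, 16), (3, 2), (3, 13), (8, 1)]
    steps := [(0, 7), (1, 5), (1, 4), (1, 11), (1, 9), (2, 12), (3, 6), (3, 10)] }
  rep := [1, 3, 0, 8, 13, 14, 15, 2, 16]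

noncomputable def v3239 : Cov.CovD where
  P := 3
  N := 6
  pl := [7, 8]
  lev := [⟨[], [], [(2, 3)], [], [(0, 2, [0]), (1, 3, [0])]⟩,
    ⟨[], [(0, 0), (0, 1), (0, 2), (0, 3)], [(0, 1), (0, 2), (1, 2)], [], [(0, 2, [0]), (2,
      0, [2, 3, 8]), (3, 1, [4, 7])]⟩,
    ⟨[(0, 1)], [(1, 0), (1, 1), (1, 2), (1, 4), (1, 7)], [(0, 0), (0, 4), (0, 7), (4, 7)],
      [], [(2, 0, [2, 3, 8]), (4, 0, [2, 3, 8]), (5, 7, [1]), (6, 4, [1])]⟩,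
    ⟨[(1, 2)], [(1, 0), (2, 0), (2, 4), (2, 7)], [(0, 4)], [5], [(2, 0, [2, 3, 8]), (6, 4,
      [1])]⟩,
    ⟨[(1, 2), (2, 3)], [(2, 0), (2, 4), (2, 7)], [], [6], [(4, 0, [2, 3, 8])]⟩,
    ⟨[(0, 1), (0, 2), (0, 4), (1, 2), (1, 4), (2, 3), (2, 4)], [(0, 2), (0, 3), (0, 8), (1,
      0), (1, 1), (1, 2), (1, 3), (1, 8), (2, 0), (2, 3), (2, 4), (2, 7), (2, 8), (4, 0), (4,
      3), (4, 8)], [(3, 8)], [6], [(1, 3, [0]), (9, 8, [0])]⟩,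
    ⟨[(2, 3)], [(1, 0), (1, 1), (2, 0), (3, 0), (3, 1), (3, 4)], [(0, 1)], [5], [(2, 0, [2,
      3, 8]), (3, 1, [4, 7])]⟩]
  Ta := [((2, 3), 0, 1), ((4, 5), 0, 7), ((4, 8), 0, 6)]
  Tb := [((0, 1, 3), 2, 3, 1), ((1, 0, 9), 3, 2, 8), ((3, 0, 2), 1, 2, 0), ((3, 0, 7), 1, 2, 5),
    ((3, 2, 7), 1, 0, 5), ((4, 5, 8), 0, 7, 6), ((5, 4, 6), 7, 0, 4), ((6, 5, 7), 4, 7, 5),
    ((7, 3, 6), 5, 1, 4), ((8, 4, 9), 6, 0, 8), ((9, 1, 8), 8, 3, 6)]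
  Tc := [(0, 2, 3), (0, 2, 8), (0, 3, 8), (1, 4, 7)]
  Td := [((0, 2), (2, 3), 1), ((0, 2), (4, 5), 7), ((0, 2), (4, 8), 6), ((0, 3), (2, 3), 1), ((0,
    3), (4, 5), 7), ((0, 3), (4, 8), 6), ((0, 8), (2, 3), 1), ((0, 8), (4, 5), 7), ((0, 8),
    (4, 8), 6), ((1, 4), (3, 0), 2), ((1, 4), (3, 2), 0), ((1, 4), (3, 7), 5), ((1, 7), (3,
    0), 2), ((1, 7), (3, 2), 0), ((1, 7), (3, 7), 5), ((2, 0), (0, 1), 3), ((2, 0), (0, 3),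
    1), ((3, 0), (1, 0), 2), ((3, 0), (1, 9), 8), ((4, 1), (6, 5), 7), ((4, 1), (6, 7), 5),
    ((7, 1), (5, 4), 0), ((7, 1), (5, 6), 4), ((8, 0), (9, 1), 3), ((8, 0), (9, 8), 6)]
  G := [[0, 0x4141621416681816a1a1a21816e4181a8141cc1c1cee6161688c1,
    0x8181c4141c11821c1cf288181c4141cc1c1cd28a, 0xc1c1c224c1c1c224c,
    0x8181c28181c4141cc1c1ce64141a28a4141628181628181c4141cc1c1cee8a], [0, 0,
    0x8181c4141cc1c1cd248181c4141c11821c1cf28c, 0x9c5c1c22882442495991cc24f245,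
    0x818418c28818418c28522292228888f44444f44111cca3cc2dccadfe8b]]

noncomputable def n3239 : Ent := ⟨e3239, noF, [], [], []⟩

def c3239 : PLift (Cov.check n3239.C.D v3239 = true) := ⟨by decide +kernel⟩

def b3239 : PLift (entF (fidx ts) 400 3239 n3239 = true) := ⟨by decide +kernel⟩

theorem g3239 : GoodF (fidx ts) 400 3239 := GoodF.ofV v3239 n3239 c3239.down b3239.down

/-- 4685474:2482 -/
noncomputable def e3240 : SCfg where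
  D := {
    a := 7
    L := 11
    kp := 9
    inn := [(0, 1), (0, 5), (1, 0), (1, 2), (1, 5), (2, 1), (2, 3), (2, 4), (2, 5), (3, 2), (3, 6), (4,
      2), (4, 5), (5, 0), (5, 1), (5, 2), (5, 4), (6, 3)]
    mix := [(0, 0), (0, 1), (1, 0), (1, 2), (1, 3), (2, 2), (2, 4), (2, 5), (2, 6), (3, 2), (3, 6), (3,
      7), (4, 4), (4, 8), (5, 1), (5, 8), (5, 9), (6, 2), (6, 7), (6, 10)]
    cl := [1, 2, 0, 8, 3, 6, 0, 5, 4, 7, 9]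
    chq := [(0, 1), (1, 0), (1, 3), (1, 4), (1, 6), (1, 7), (3, 1), (4, 1), (6, 1), (7, 1)]
    rng := [(0, 1), (0, 3), (1, 0), (1, 9), (2, 3), (2, 10), (3, 0), (3, 2), (4, 5), (4, 8), (5, 4),
      (5, 6), (6, 5), (6, 7), (7, 6), (7, 10), (8, 4), (8, 9), (9, 1), (9, 8), (10, 2), (10, 7)]
    lev := [] }
  links := [[1, 7, 8, 5], [7, 0, 5, 2, 9, 10], [9, 1, 5, 4, 11, 12, 13, 3], [9, 2, 13, 14, 6], [11, 2, 5,
    15], [15, 4, 2, 1, 0, 8, 16], [9, 3, 14, 17]]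
  P := {
    a := 7
    N := 18
    nb := [418, 1701, 14906, 25156, 34852, 98583, 147976, 1283, 65697, 132174, 642, 36884, 10244,
      20492, 139336, 67632, 33056, 16960]
    tri := [(0, 1, 5), (0, 1, 7), (0, 5, 8), (0, 7, 8), (1, 2, 5), (1, 2, 9), (1, 7, 10), (1, 9, 10),
      (2, 3, 9), (2, 3, 13), (2, 4, 5), (2, 4, 11), (2, 11, 12), (2, 12, 13), (3, 6, 9), (3, 6,
      14), (3, 13, 14), (4, 5, 15), (4, 11, 15), (5, 8, 16), (5, 15, 16), (6, 9, 17), (6, 14, 17)]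
    fin := [0, 0, 0, 3, 0, 0, 3, 0, 8, 3, 10, 11, 12, 3, 14, 15, 16, 17]
    chd := [(0, 3), (0, 11), (0, 12), (0, 15), (0, 16)]
    steps := [(0, 1), (0, 2), (0, 4), (0, 5), (0, 7), (3, 6), (3, 13), (3, 9)] }
  rep := [3, 0, 8, 11, 15, 14, 12, 16, 10, 17]

noncomputable def v3240 : Cov.CovD where
  P := 3
  N := 7
  pl := [1, 3, 7, 10]
  lev := [⟨[], [], [], [2], [(0, 1, [0, 3, 4, 6, 7])]⟩,
    ⟨[], [(0, 0), (0, 1)], [(0, 1)], [8], [(0, 1, [0, 3, 4, 6, 7]), (2, 0, [1])]⟩,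
    ⟨[(0, 1)], [(1, 0), (1, 1), (1, 3), (1, 6)], [(0, 0), (0, 3), (0, 6), (3, 6)], [], [(2,
      0, [1]), (4, 3, [1]), (5, 6, [1]), (6, 0, [1])]⟩,
    ⟨[(1, 2)], [(1, 0), (2, 0), (2, 3), (2, 6)], [(0, 0)], [5], [(2, 0, [1]), (6, 0, [1])]⟩,
    ⟨[(1, 2), (2, 3)], [(2, 0), (2, 3), (2, 4), (2, 6)], [(3, 4)], [], [(4, 3, [1]), (8, 4,
      [1])]⟩,
    ⟨[(0, 1), (0, 2), (0, 4), (1, 2), (1, 4), (2, 3), (2, 4)], [(0, 1), (0, 4), (0, 7), (1,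
      0), (1, 1), (1, 4), (1, 7), (2, 0), (2, 3), (2, 4), (2, 6), (2, 7), (4, 3), (4, 4), (4,
      7)], [(4, 7)], [2], [(8, 4, [1]), (9, 7, [1])]⟩,
    ⟨[(2, 3)], [(1, 0), (2, 0), (3, 0)], [], [5, 9], [(2, 0, [1])]⟩]
  Ta := [((2, 3), 0, 8), ((2, 10), 0, 9), ((6, 5), 0, 6), ((6, 7), 0, 5)]
  Tb := [((0, 1, 3), 1, 2, 8), ((1, 0, 9), 2, 1, 7), ((2, 3, 10), 0, 8, 9), ((3, 0, 2), 8, 1, 0),
    ((4, 5, 8), 3, 6, 4), ((5, 4, 6), 6, 3, 0), ((6, 5, 7), 0, 6, 5), ((7, 6, 10), 5, 0, 9),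
    ((8, 4, 9), 4, 3, 7), ((9, 1, 8), 7, 2, 4), ((10, 2, 7), 9, 0, 5)]
  Tc := [(1, 0, 3), (1, 0, 4), (1, 0, 6), (1, 0, 7), (1, 3, 4), (1, 3, 6), (1, 3, 7), (1, 4, 6),
    (1, 4, 7), (1, 6, 7)]
  Td := [((0, 1), (2, 3), 8), ((0, 1), (2, 10), 9), ((0, 1), (6, 5), 6), ((0, 1), (6, 7), 5),
    ((1, 0), (0, 1), 2), ((1, 0), (0, 3), 8), ((1, 3), (0, 1), 2), ((1, 3), (0, 3), 8), ((1,
    4), (0, 1), 2), ((1, 4), (0, 3), 8), ((1, 6), (0, 1), 2), ((1, 6), (0, 3), 8), ((1, 7),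
    (0, 1), 2), ((1, 7), (0, 3), 8), ((3, 1), (4, 5), 6), ((3, 1), (4, 8), 4), ((4, 1), (8,
    4), 3), ((4, 1), (8, 9), 7), ((6, 1), (5, 4), 3), ((6, 1), (5, 6), 0), ((7, 1), (9, 1),
    2), ((7, 1), (9, 8), 4)]
  G := [[0, 0x1114111111a1114e11121112a111811111161118ee4,
    0xc2c23626262daa2e4aa6d86c2c2e2ea2a296c2c2366a623aa4caaaacaaaef6466c666ebcec62c2c27a2a236e8a8a8766c666e3ca8c,
    0xaaad2666d2c28aaad2666d2c245,
    0xc2c26a2a266c2c83c2b626262baa2a2a29aaabf6262669666bfce4c2c26a2a266c2c2562626aaa3aa3aa9aaaf66366366966afce89],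
    [0, 0x111811126111111611121118e111111611141114ee8,
    0xe2c23a2a296c21e262e2eaae68aeeaaaed44ce6c666e7ce18, 0xa12112c2112612c2aac266c2c2d8,
    0x12a15111c212a15111c2c2c26a2a266c24624aa2a8aaab62626866afced8]]

noncomputable def n3240 : Ent := ⟨e3240, noF, [], [], [(17, 10, [6903326391201334775872705251651713694319475166462653752416129413443585, 0])]⟩

def c3240 : PLift (Cov.check n3240.C.D v3240 = true) := ⟨by decide +kernel⟩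

def b3240 : PLift (entF (fidx ts) 400 3240 n3240 = true) := ⟨by decide +kernel⟩

theorem g3240 : GoodF (fidx ts) 400 3240 := GoodF.ofV v3240 n3240 c3240.down b3240.down

/-- 4674944:2483 -/
noncomputable def e3241 : SCfg where
  D := {
    a := 7
    L := 11
    kp := 8
    inn := [(0, 1), (0, 4), (1, 0), (1, 2), (1, 4), (2, 1), (2, 3), (2, 4), (3, 2), (3, 4), (4, 0), (4,
      1), (4, 2), (4, 3), (4, 5), (4, 6), (5, 4), (6, 4)]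
    mix := [(0, 0), (0, 1), (1, 0), (1, 2), (1, 3), (2, 2), (2, 4), (2, 5), (2, 6), (3, 4), (3, 7), (4,
      1), (4, 7), (4, 8), (5, 1), (5, 8), (5, 9), (6, 7), (6, 8), (6, 10)]
    cl := [2, 0, 1, 4, 1, 5, 6, 0, 3, 7, 8]
    chq := [(0, 3), (0, 4), (3, 0), (4, 0)]
    rng := [(0, 1), (0, 3), (1, 0), (1, 9), (2, 3), (2, 6), (3, 0), (3, 2), (4, 5), (4, 7), (5, 4), (5,
      6), (6, 2), (6, 5), (7, 4), (7, 10), (8, 9), (8, 10), (9, 1), (9, 8), (10, 7), (10, 8)]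
    lev := [] }
  links := [[1, 7, 8, 4], [7, 0, 4, 2, 9, 10], [9, 1, 4, 3, 11, 12, 13], [11, 2, 4, 14], [14, 3, 2, 1, 0,
    8, 5, 15, 6], [15, 4, 8, 16], [14, 4, 15, 17]]
  P := {
    a := 7
    N := 18
    nb := [402, 1685, 14874, 18452, 49519, 98576, 180240, 1283, 65713, 9222, 642, 20492, 10244, 4612,
      133208, 196720, 33056, 49216]
    tri := [(0, 1, 4), (0, 1, 7), (0, 4, 8), (0, 7, 8), (1, 2, 4), (1, 2, 9), (1, 7, 10), (1, 9, 10),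
      (2, 3, 4), (2, 3, 11), (2, 9, 13), (2, 11, 12), (2, 12, 13), (3, 4, 14), (3, 11, 14), (4, 5,
      8), (4, 5, 15), (4, 6, 14), (4, 6, 15), (5, 8, 16), (5, 15, 16), (6, 14, 17), (6, 15, 17)]
    fin := [0, 1, 2, 1, 1, 1, 1, 0, 1, 2, 10, 2, 12, 13, 1, 15, 16, 17]
    chd := [(1, 10), (1, 15)]
    steps := [(0, 7), (1, 4), (1, 3), (1, 5), (1, 6), (1, 8), (1, 14), (2, 11), (2, 9)] }
  rep := [1, 2, 0, 15, 10, 12, 13, 16, 17]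

noncomputable def v3241 : Cov.CovD where
  P := 3
  N := 6
  pl := [0, 5, 6, 9, 10]
  lev := [⟨[], [], [], [2], [(1, 0, [3, 4])]⟩,
    ⟨[], [(0, 0), (0, 1), (0, 4)], [(1, 4)], [2], [(2, 1, []), (3, 4, [0])]⟩,
    ⟨[(0, 1)], [(1, 1), (1, 4)], [(1, 1)], [5, 6], [(2, 1, []), (4, 1, [])]⟩,
    ⟨[(1, 2)], [(2, 0), (2, 1)], [(0, 1)], [], [(4, 1, []), (7, 0, [3, 4])]⟩,
    ⟨[(0, 1), (0, 2), (0, 3), (1, 2), (1, 3), (2, 3)], [(0, 0), (0, 3), (1, 0), (1, 1), (1,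
      3), (1, 4), (2, 0), (2, 1), (2, 3), (3, 0), (3, 1), (3, 3)], [(0, 0), (0, 3)], [], [(1,
      0, [3, 4]), (7, 0, [3, 4]), (8, 3, [0])]⟩,
    ⟨[(0, 4), (1, 4), (2, 4), (3, 4)], [(0, 0), (4, 0), (4, 3)], [(0, 3)], [7], [(1, 0, [3,
      4]), (8, 3, [0])]⟩,
    ⟨[(0, 4), (1, 4), (2, 4), (3, 4), (4, 5)], [(3, 0), (4, 0), (4, 3), (5, 3)], [(0, 3)],
      [8], [(7, 0, [3, 4]), (8, 3, [0])]⟩]
  Ta := [((1, 0), 0, 2), ((1, 9), 0, 7), ((2, 3), 1, 4), ((2, 6), 1, 6), ((4, 5), 1, 5), ((4, 7),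
    1, 0), ((7, 4), 0, 1), ((7, 10), 0, 8)]
  Tb := [((0, 1, 3), 2, 0, 4), ((1, 0, 9), 0, 2, 7), ((2, 3, 6), 1, 4, 6), ((3, 0, 2), 4, 2, 1),
    ((4, 5, 7), 1, 5, 0), ((5, 4, 6), 5, 1, 6), ((6, 2, 5), 6, 1, 5), ((7, 4, 10), 0, 1, 8),
    ((8, 9, 10), 3, 7, 8), ((9, 1, 8), 7, 0, 3), ((10, 7, 8), 8, 0, 3)]
  Tc := [(0, 3, 4)]
  Td := [((0, 3), (1, 0), 2), ((0, 3), (1, 9), 7), ((0, 3), (7, 4), 1), ((0, 3), (7, 10), 8),
    ((0, 4), (1, 0), 2), ((0, 4), (1, 9), 7), ((0, 4), (7, 4), 1), ((0, 4), (7, 10), 8), ((3,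
    0), (8, 9), 7), ((3, 0), (8, 10), 8), ((4, 0), (3, 0), 2), ((4, 0), (3, 2), 1)]
  G := [[0, 0, 0x111e24122811628d411a2414111ea411a24d811c42184211c42d1418c214211c8a11c82dce,
    0x1111c2114a61ea184619625cc863cc196a4d94, 0x1111a681a9a213c4a1816de6148cc9c15a68d98], [0,
    0, 0x11628414481164896182411624c1824811a4128c11c8411a84dec,
    0x1111641cbc11a6818a61e6148c13c95a68d98, 0x35643138c111cada686d62148cc31884588451a], [0,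
    0, 0, 0x1111c21a12ca4d46643ae5a8146c1cc2b68d58,
    0x11a1641ca4da168814416ca7ac2c5a82b68d98], [0, 0x81e16418c612c18ae141a2146e14, 0,
    0x11116818889c4a76418c668d61a4c1666da4d1c, 0xd146138c1ac3aa5688894ca76418cc8a168d38]]

noncomputable def n3241 : Ent := ⟨e3241, noF, [], [], []⟩

def c3241 : PLift (Cov.check n3241.C.D v3241 = true) := ⟨by decide +kernel⟩

def b3241 : PLift (entF (fidx ts) 400 3241 n3241 = true) := ⟨by decide +kernel⟩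

theorem g3241 : GoodF (fidx ts) 400 3241 := GoodF.ofV v3241 n3241 c3241.down b3241.down

/-- 4844564:2486/3 -/
noncomputable def e3242 : SCfg where
  D := {
    a := 7
    L := 8
    kp := 5
    inn := [(0, 1), (0, 4), (1, 0), (1, 2), (1, 3), (1, 5), (2, 1), (3, 1), (4, 0), (5, 1), (5, 6), (6,
      5)]
    mix := [(0, 0), (0, 1), (1, 0), (1, 1), (1, 2), (1, 3), (2, 2), (2, 3), (2, 4), (3, 0), (3, 3), (3,
      5), (4, 0), (4, 1), (4, 5), (4, 6), (5, 1), (5, 2), (5, 6), (5, 7), (6, 5), (6, 6), (6, 7)]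
    cl := [0, 0, 0, 1, 5, 2, 3, 4]
    chq := [(0, 1), (1, 0), (3, 4), (4, 3)]
    rng := [(0, 5), (1, 6), (2, 4), (2, 7), (3, 4), (3, 5), (4, 2), (4, 3), (5, 0), (5, 3), (5, 6), (5,
      7), (6, 1), (6, 5), (7, 2), (7, 5)]
    lev := [] }
  links := [[1, 7, 4, 8], [7, 0, 8, 5, 9, 2, 10, 3], [10, 1, 9, 11], [7, 1, 10, 12], [8, 0, 7, 12, 13],
    [9, 1, 8, 13, 6, 14], [14, 5, 13, 12]]
  P := {
    a := 7
    N := 15
    nb := [402, 1965, 3586, 5250, 12673, 25410, 28704, 4123, 8243, 18470, 6158, 1540, 25816, 4464,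
      4704]
    tri := [(0, 1, 7), (0, 1, 8), (0, 4, 7), (0, 4, 8), (1, 2, 9), (1, 2, 10), (1, 3, 7), (1, 3, 10),
      (1, 5, 8), (1, 5, 9), (2, 9, 11), (2, 10, 11), (3, 7, 12), (3, 10, 12), (4, 7, 12), (4, 8,
      13), (4, 12, 13), (5, 6, 13), (5, 6, 14), (5, 8, 13), (5, 9, 14), (6, 12, 13), (6, 12, 14)]
    fin := [0, 0, 0, 0, 0, 0, 6, 0, 0, 0, 10, 11, 12, 6, 14]
    chd := [(0, 10), (6, 14)]
    steps := [(0, 1), (0, 2), (0, 3), (0, 5), (0, 7), (0, 8), (0, 4), (0, 9), (6, 13)] }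
  rep := [0, 10, 12, 6, 14, 11]

noncomputable def v3242 : Cov.CovD where
  P := 3
  N := 3
  pl := [4, 5]
  lev := [⟨[], [], [(0, 0)], [], [(0, 0, [1]), (1, 0, [1])]⟩,
    ⟨[], [(0, 0), (0, 1)], [(0, 0), (0, 1)], [], [(0, 0, [1]), (1, 0, [1]), (2, 0, [1]),
      (3, 1, [0])]⟩,
    ⟨[(0, 1)], [(1, 0), (1, 1)], [(0, 1)], [5], [(2, 0, [1]), (3, 1, [0])]⟩,
    ⟨[(0, 1), (1, 2)], [(0, 0), (1, 0), (1, 1), (2, 1)], [(0, 1)], [2], [(0, 0, [1]), (3,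
      1, [0])]⟩,
    ⟨[(0, 1)], [(0, 0), (0, 3), (1, 0), (3, 0)], [(0, 0), (0, 3)], [2], [(0, 0, [1]), (1,
      0, [1]), (6, 3, [4])]⟩,
    ⟨[(0, 1), (1, 2), (1, 3)], [(0, 0), (1, 0), (1, 1), (1, 3), (1, 4), (2, 0), (4, 0), (4,
      3)], [(0, 0), (0, 3), (0, 4), (3, 4)], [], [(1, 0, [1]), (2, 0, [1]), (6, 3, [4]), (7,
      4, [3])]⟩,
    ⟨[(1, 5)], [(4, 3), (5, 0), (5, 3), (5, 4)], [(3, 4)], [2], [(6, 3, [4]), (7, 4, [3])]⟩]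
  Ta := [((0, 5), 0, 2), ((1, 6), 0, 3), ((2, 4), 0, 5), ((2, 7), 0, 4)]
  Tb := [((2, 4, 7), 0, 5, 4), ((3, 4, 5), 1, 5, 2), ((4, 2, 3), 5, 0, 1), ((5, 0, 3), 2, 0, 1),
    ((5, 0, 6), 2, 0, 3), ((5, 0, 7), 2, 0, 4), ((5, 3, 6), 2, 1, 3), ((5, 3, 7), 2, 1, 4),
    ((5, 6, 7), 2, 3, 4), ((6, 1, 5), 3, 0, 2), ((7, 2, 5), 4, 0, 2)]
  Tc := []
  Td := [((0, 1), (0, 5), 2), ((0, 1), (1, 6), 3), ((0, 1), (2, 4), 5), ((0, 1), (2, 7), 4), ((1,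
    0), (3, 4), 5), ((1, 0), (3, 5), 2), ((3, 4), (6, 1), 0), ((3, 4), (6, 5), 2), ((4, 3),
    (7, 2), 0), ((4, 3), (7, 5), 2)]
  G := [[0, 0x81a116c811a116c4c24, 0x444418822a81c4, 0x1212c8142, 0x11c126a8142], [0,
    0x11a416c411a416c4684, 0, 0x12d2c8182, 0x81c126a1142], [0, 0x81a416c881a416c4c28, 0,
    0x9252c19252c8c42, 0x19c126a1481c126a88c2]]

noncomputable def n3242 : Ent := ⟨e3242, noF, [], [], []⟩

def c3242 : PLift (Cov.check n3242.C.D v3242 = true) := ⟨by decide +kernel⟩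

def b3242 : PLift (entF (fidx ts) 400 3242 n3242 = true) := ⟨by decide +kernel⟩

theorem g3242 : GoodF (fidx ts) 400 3242 := GoodF.ofV v3242 n3242 c3242.down b3242.down

/-- 4844564:2486/2 -/
noncomputable def e3243 : SCfg where
  D := {
    a := 7
    L := 9
    kp := 6
    inn := [(0, 1), (0, 4), (1, 0), (1, 2), (1, 3), (1, 5), (2, 1), (3, 1), (4, 0), (5, 1), (5, 6), (6,
      5)]
    mix := [(0, 0), (0, 1), (1, 0), (1, 1), (1, 2), (1, 3), (2, 2), (2, 3), (2, 4), (3, 0), (3, 3), (3,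
      5), (4, 0), (4, 1), (4, 5), (4, 6), (5, 1), (5, 2), (5, 7), (5, 8), (6, 5), (6, 7), (6, 8)]
    cl := [0, 0, 0, 1, 5, 2, 6, 3, 4]
    chq := [(0, 1), (1, 0), (3, 4), (4, 3)]
    rng := [(0, 5), (1, 6), (1, 7), (2, 4), (2, 8), (3, 4), (3, 5), (4, 2), (4, 3), (5, 0), (5, 3), (5,
      6), (5, 7), (5, 8), (6, 1), (6, 5), (7, 1), (7, 5), (8, 2), (8, 5)]
    lev := [] }
  links := [[1, 7, 4, 8], [7, 0, 8, 5, 9, 2, 10, 3], [10, 1, 9, 11], [7, 1, 10, 12], [8, 0, 7, 12, 13],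
    [9, 1, 8, 14, 6, 15], [15, 5, 14, 12]]
  P := {
    a := 7
    N := 16
    nb := [402, 1965, 3586, 5250, 12673, 49986, 53280, 4123, 24627, 34854, 6158, 1540, 58584, 4368,
      4448, 4704]
    tri := [(0, 1, 7), (0, 1, 8), (0, 4, 7), (0, 4, 8), (1, 2, 9), (1, 2, 10), (1, 3, 7), (1, 3, 10),
      (1, 5, 8), (1, 5, 9), (2, 9, 11), (2, 10, 11), (3, 7, 12), (3, 10, 12), (4, 7, 12), (4, 8,
      13), (4, 12, 13), (5, 6, 14), (5, 6, 15), (5, 8, 14), (5, 9, 15), (6, 12, 14), (6, 12, 15)]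
    fin := [0, 0, 0, 0, 0, 0, 6, 0, 0, 0, 10, 11, 12, 13, 6, 15]
    chd := [(0, 10), (6, 15)]
    steps := [(0, 1), (0, 2), (0, 3), (0, 5), (0, 7), (0, 4), (0, 8), (0, 9), (6, 14)] }
  rep := [0, 10, 12, 6, 15, 11, 13]

noncomputable def v3243 : Cov.CovD where
  P := 3
  N := 4
  pl := [4, 5, 6]
  lev := [⟨[], [], [(0, 0)], [], [(0, 0, [1]), (1, 0, [1])]⟩,
    ⟨[], [(0, 0), (0, 1)], [(0, 0), (0, 1)], [], [(0, 0, [1]), (1, 0, [1]), (2, 0, [1]),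
      (3, 1, [0])]⟩,
    ⟨[(0, 1)], [(1, 0), (1, 1)], [(0, 1)], [5], [(2, 0, [1]), (3, 1, [0])]⟩,
    ⟨[(0, 1), (1, 2)], [(0, 0), (1, 0), (1, 1), (2, 1)], [(0, 1)], [2], [(0, 0, [1]), (3,
      1, [0])]⟩,
    ⟨[(0, 1)], [(0, 0), (1, 0), (3, 0)], [(0, 0)], [2, 6], [(0, 0, [1]), (1, 0, [1])]⟩,
    ⟨[(0, 1), (1, 2), (1, 3)], [(0, 0), (1, 0), (1, 1), (1, 3), (1, 4), (2, 0), (4, 0)],
      [(0, 0), (0, 3), (0, 4), (3, 4)], [], [(1, 0, [1]), (2, 0, [1]), (7, 3, [4]), (8, 4,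
      [3])]⟩,
    ⟨[(1, 5)], [(5, 0), (5, 3), (5, 4)], [(3, 4)], [2], [(7, 3, [4]), (8, 4, [3])]⟩]
  Ta := [((0, 5), 0, 2), ((1, 6), 0, 6), ((1, 7), 0, 3), ((2, 4), 0, 5), ((2, 8), 0, 4)]
  Tb := [((1, 6, 7), 0, 6, 3), ((2, 4, 8), 0, 5, 4), ((3, 4, 5), 1, 5, 2), ((4, 2, 3), 5, 0, 1),
    ((5, 0, 3), 2, 0, 1), ((5, 0, 6), 2, 0, 6), ((5, 0, 7), 2, 0, 3), ((5, 0, 8), 2, 0, 4),
    ((5, 3, 6), 2, 1, 6), ((5, 3, 7), 2, 1, 3), ((5, 3, 8), 2, 1, 4), ((5, 6, 7), 2, 6, 3),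
    ((5, 6, 8), 2, 6, 4), ((5, 7, 8), 2, 3, 4), ((6, 1, 5), 6, 0, 2), ((7, 1, 5), 3, 0, 2),
    ((8, 2, 5), 4, 0, 2)]
  Tc := []
  Td := [((0, 1), (0, 5), 2), ((0, 1), (1, 6), 6), ((0, 1), (1, 7), 3), ((0, 1), (2, 4), 5), ((0,
    1), (2, 8), 4), ((1, 0), (3, 4), 5), ((1, 0), (3, 5), 2), ((3, 4), (7, 1), 0), ((3, 4),
    (7, 5), 2), ((4, 3), (8, 2), 0), ((4, 3), (8, 5), 2)]
  G := [[0, 0x811e141ec4811e841ec8c24, 0x426446418882aa81c8, 0x1212c8184, 0x812e812ea8142], [0,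
    0x841e111ec4111e841ec4c24, 0, 0xd2d2c4148, 0x812e812ea1142], [0,
    0x111e141ec4111e141ec4682, 0, 0xd2d2c4d2d2c1c48, 0x1414a84812e812ea882a82aa1cc2]]

noncomputable def n3243 : Ent := ⟨e3243, noF, [], [], [(13, 14, [385746751338780685620664494392815470296102193487288376385773569, 0])]⟩

def c3243 : PLift (Cov.check n3243.C.D v3243 = true) := ⟨by decide +kernel⟩

def b3243 : PLift (entF (fidx ts) 400 3243 n3243 = true) := ⟨by decide +kernel⟩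

theorem g3243 : GoodF (fidx ts) 400 3243 := GoodF.ofV v3243 n3243 c3243.down b3243.down

/-- 4844564:2486/4 -/
noncomputable def e3244 : SCfg where
  D := {
    a := 7
    L := 9
    kp := 6
    inn := [(0, 1), (0, 4), (1, 0), (1, 2), (1, 3), (1, 5), (2, 1), (3, 1), (4, 0), (5, 1), (5, 6), (6,
      5)]
    mix := [(0, 0), (0, 1), (1, 0), (1, 1), (1, 2), (1, 3), (2, 2), (2, 3), (2, 4), (3, 0), (3, 3), (3,
      5), (4, 0), (4, 1), (4, 6), (4, 7), (5, 1), (5, 2), (5, 7), (5, 8), (6, 6), (6, 7), (6, 8)]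
    cl := [0, 0, 0, 1, 5, 6, 4, 2, 3]
    chq := [(0, 1), (1, 0), (2, 3), (3, 2)]
    rng := [(0, 5), (0, 6), (1, 7), (2, 4), (2, 8), (3, 4), (3, 5), (4, 2), (4, 3), (5, 0), (5, 3), (6,
      0), (6, 7), (6, 8), (7, 1), (7, 6), (8, 2), (8, 6)]
    lev := [] }
  links := [[1, 7, 4, 8], [7, 0, 8, 5, 9, 2, 10, 3], [10, 1, 9, 11], [7, 1, 10, 12], [8, 0, 7, 13, 14],
    [9, 1, 8, 14, 6, 15], [15, 5, 14, 13]]
  P := {
    a := 7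
    N := 16
    nb := [402, 1965, 3586, 5250, 24961, 49986, 57376, 12315, 16435, 34854, 6158, 1540, 1160, 49360,
      8560, 8800]
    tri := [(0, 1, 7), (0, 1, 8), (0, 4, 7), (0, 4, 8), (1, 2, 9), (1, 2, 10), (1, 3, 7), (1, 3, 10),
      (1, 5, 8), (1, 5, 9), (2, 9, 11), (2, 10, 11), (3, 7, 12), (3, 10, 12), (4, 7, 13), (4, 8,
      14), (4, 13, 14), (5, 6, 14), (5, 6, 15), (5, 8, 14), (5, 9, 15), (6, 13, 14), (6, 13, 15)]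
    fin := [0, 0, 0, 0, 0, 5, 6, 0, 0, 0, 10, 11, 12, 6, 5, 15]
    chd := [(0, 10), (5, 15)]
    steps := [(0, 1), (0, 2), (0, 3), (0, 4), (0, 7), (0, 8), (0, 9), (5, 14), (6, 13)] }
  rep := [0, 10, 5, 15, 6, 11, 12]

noncomputable def v3244 : Cov.CovD where
  P := 3
  N := 4
  pl := [4, 5, 6]
  lev := [⟨[], [], [(0, 0)], [], [(0, 0, [1]), (1, 0, [1])]⟩,
    ⟨[], [(0, 0), (0, 1)], [(0, 0), (0, 1)], [], [(0, 0, [1]), (1, 0, [1]), (2, 0, [1]),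
      (3, 1, [0])]⟩,
    ⟨[(0, 1)], [(1, 0), (1, 1)], [(0, 1)], [5], [(2, 0, [1]), (3, 1, [0])]⟩,
    ⟨[(0, 1), (1, 2)], [(0, 0), (1, 0), (1, 1), (2, 1)], [(0, 1)], [6], [(0, 0, [1]), (3,
      1, [0])]⟩,
    ⟨[(0, 1)], [(0, 0), (0, 2), (1, 0), (3, 0)], [(0, 0), (0, 2)], [4], [(0, 0, [1]), (1,
      0, [1]), (7, 2, [3])]⟩,
    ⟨[(0, 1), (1, 2), (1, 3)], [(0, 0), (1, 0), (1, 1), (1, 2), (1, 3), (2, 0), (4, 0), (4,
      2)], [(0, 0), (0, 2), (0, 3), (2, 3)], [], [(1, 0, [1]), (2, 0, [1]), (7, 2, [3]), (8,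
      3, [2])]⟩,
    ⟨[(1, 5)], [(4, 2), (5, 0), (5, 2), (5, 3)], [(2, 3)], [4], [(7, 2, [3]), (8, 3, [2])]⟩]
  Ta := [((0, 5), 0, 6), ((0, 6), 0, 4), ((1, 7), 0, 2), ((2, 4), 0, 5), ((2, 8), 0, 3)]
  Tb := [((0, 5, 6), 0, 6, 4), ((2, 4, 8), 0, 5, 3), ((3, 4, 5), 1, 5, 6), ((4, 2, 3), 5, 0, 1),
    ((5, 0, 3), 6, 0, 1), ((6, 0, 7), 4, 0, 2), ((6, 0, 8), 4, 0, 3), ((6, 7, 8), 4, 2, 3),
    ((7, 1, 6), 2, 0, 4), ((8, 2, 6), 3, 0, 4)]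
  Tc := []
  Td := [((0, 1), (0, 5), 6), ((0, 1), (0, 6), 4), ((0, 1), (1, 7), 2), ((0, 1), (2, 4), 5), ((0,
    1), (2, 8), 3), ((1, 0), (3, 4), 5), ((1, 0), (3, 5), 6), ((2, 3), (7, 1), 0), ((2, 3),
    (7, 6), 4), ((3, 2), (8, 2), 0), ((3, 2), (8, 6), 4)]
  G := [[0, 0x11c14cc4411c18c144a14411c18caac2, 0, 0x4441414ccc181c18c888c1c2,
    0x81a12aa81a12aac142], [0, 0x81c14cc281c11cc811c14cc4e28, 0x48682661184, 0x11c11cc1184,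
    0x81a11aa1148], [0, 0x81c11cc281c11cc411c11cc8e28, 0, 0x81c51cc18419c14cc148c,
    0x81a12aa181a12aa1c48]]

noncomputable def n3244 : Ent := ⟨e3244, noF, [], [], [(13, 12, [385753029973011613167317188540585705112827479461471962603888641, 0])]⟩

def c3244 : PLift (Cov.check n3244.C.D v3244 = true) := ⟨by decide +kernel⟩

def b3244 : PLift (entF (fidx ts) 400 3244 n3244 = true) := ⟨by decide +kernel⟩

theorem g3244 : GoodF (fidx ts) 400 3244 := GoodF.ofV v3244 n3244 c3244.down b3244.down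

/-- 4844564:2486/1 -/
noncomputable def e3245 : SCfg where
  D := {
    a := 7
    L := 10
    kp := 7
    inn := [(0, 1), (0, 4), (1, 0), (1, 2), (1, 3), (1, 5), (2, 1), (3, 1), (4, 0), (5, 1), (5, 6), (6,
      5)]
    mix := [(0, 0), (0, 1), (1, 0), (1, 1), (1, 2), (1, 3), (2, 2), (2, 3), (2, 4), (3, 0), (3, 3), (3,
      5), (4, 0), (4, 1), (4, 6), (4, 7), (5, 1), (5, 2), (5, 8), (5, 9), (6, 6), (6, 8), (6, 9)]
    cl := [0, 0, 0, 1, 5, 6, 4, 7, 3, 2]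
    chq := [(0, 1), (1, 0), (2, 3), (3, 2)]
    rng := [(0, 5), (0, 6), (1, 7), (1, 8), (2, 4), (2, 9), (3, 4), (3, 5), (4, 2), (4, 3), (5, 0), (5,
      3), (6, 0), (6, 7), (6, 8), (6, 9), (7, 1), (7, 6), (8, 1), (8, 6), (9, 2), (9, 6)]
    lev := [] }
  links := [[1, 7, 4, 8], [7, 0, 8, 5, 9, 2, 10, 3], [10, 1, 9, 11], [7, 1, 10, 12], [8, 0, 7, 13, 14],
    [9, 1, 8, 15, 6, 16], [16, 5, 15, 13]]
  P := {
    a := 7
    N := 17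
    nb := [402, 1965, 3586, 5250, 24961, 99138, 106528, 12315, 49203, 67622, 6158, 1540, 1160, 114896,
      8464, 8544, 8800]
    tri := [(0, 1, 7), (0, 1, 8), (0, 4, 7), (0, 4, 8), (1, 2, 9), (1, 2, 10), (1, 3, 7), (1, 3, 10),
      (1, 5, 8), (1, 5, 9), (2, 9, 11), (2, 10, 11), (3, 7, 12), (3, 10, 12), (4, 7, 13), (4, 8,
      14), (4, 13, 14), (5, 6, 15), (5, 6, 16), (5, 8, 15), (5, 9, 16), (6, 13, 15), (6, 13, 16)]
    fin := [0, 0, 0, 0, 0, 5, 6, 0, 0, 0, 10, 11, 12, 6, 14, 5, 16]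
    chd := [(0, 10), (5, 16)]
    steps := [(0, 1), (0, 2), (0, 3), (0, 4), (0, 7), (0, 8), (0, 9), (5, 15), (6, 13)] }
  rep := [0, 10, 16, 5, 6, 11, 12, 14]

noncomputable def v3245 : Cov.CovD where
  P := 3
  N := 5
  pl := [4, 5, 6, 7]
  lev := [⟨[], [], [(0, 0)], [], [(0, 0, [1]), (1, 0, [1])]⟩,
    ⟨[], [(0, 0), (0, 1)], [(0, 0), (0, 1)], [], [(0, 0, [1]), (1, 0, [1]), (2, 0, [1]),
      (3, 1, [0])]⟩,
    ⟨[(0, 1)], [(1, 0), (1, 1)], [(0, 1)], [5], [(2, 0, [1]), (3, 1, [0])]⟩,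
    ⟨[(0, 1), (1, 2)], [(0, 0), (1, 0), (1, 1), (2, 1)], [(0, 1)], [6], [(0, 0, [1]), (3,
      1, [0])]⟩,
    ⟨[(0, 1)], [(0, 0), (1, 0), (3, 0)], [(0, 0)], [4, 7], [(0, 0, [1]), (1, 0, [1])]⟩,
    ⟨[(0, 1), (1, 2), (1, 3)], [(0, 0), (1, 0), (1, 1), (1, 2), (1, 3), (2, 0), (4, 0)],
      [(0, 0), (0, 2), (0, 3), (2, 3)], [], [(1, 0, [1]), (2, 0, [1]), (8, 3, [2]), (9, 2,
      [3])]⟩,
    ⟨[(1, 5)], [(5, 0), (5, 2), (5, 3)], [(2, 3)], [4], [(8, 3, [2]), (9, 2, [3])]⟩]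
  Ta := [((0, 5), 0, 6), ((0, 6), 0, 4), ((1, 7), 0, 7), ((1, 8), 0, 3), ((2, 4), 0, 5), ((2, 9),
    0, 2)]
  Tb := [((0, 5, 6), 0, 6, 4), ((1, 7, 8), 0, 7, 3), ((2, 4, 9), 0, 5, 2), ((3, 4, 5), 1, 5, 6),
    ((4, 2, 3), 5, 0, 1), ((5, 0, 3), 6, 0, 1), ((6, 0, 7), 4, 0, 7), ((6, 0, 8), 4, 0, 3),
    ((6, 0, 9), 4, 0, 2), ((6, 7, 8), 4, 7, 3), ((6, 7, 9), 4, 7, 2), ((6, 8, 9), 4, 3, 2),
    ((7, 1, 6), 7, 0, 4), ((8, 1, 6), 3, 0, 4), ((9, 2, 6), 2, 0, 4)]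
  Tc := []
  Td := [((0, 1), (0, 5), 6), ((0, 1), (0, 6), 4), ((0, 1), (1, 7), 7), ((0, 1), (1, 8), 3), ((0,
    1), (2, 4), 5), ((0, 1), (2, 9), 2), ((1, 0), (3, 4), 5), ((1, 0), (3, 5), 6), ((2, 3),
    (9, 2), 0), ((2, 3), (9, 6), 4), ((3, 2), (8, 1), 0), ((3, 2), (8, 6), 4)]
  G := [[0, 0x81c11c11ce881c11c11ce211c11c11ce4e28, 0, 0x445461414c54ec181c1898e8898ac1c2,
    0x81a93a12ae83a13a91aec148], [0, 0x81c11c11ce811c14c11ce281c11c11ce4e28, 0,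
    0x19c14c1dce1184, 0x19a39a12ae1182], [0, 0x81c11c11ce881c11c11ce2a81c14c11ce4468,
    0x86a4eac2ae186a4eac2ae1c48, 0x11c11c11ce18411c14c11ce148c, 0x81a11a12ae111a11a11ae1c48]]

noncomputable def n3245 : Ent := ⟨e3245, noF, [], [], [(13, 12, [1685382419726887998779855760127267502807434353888247252031596310529, 0]), (14, 15, [1685356702439545624007900436039642273970977273354372543760013377537, 0])]⟩

def c3245 : PLift (Cov.check n3245.C.D v3245 = true) := ⟨by decide +kernel⟩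

def b3245 : PLift (entF (fidx ts) 400 3245 n3245 = true) := ⟨by decide +kernel⟩

theorem g3245 : GoodF (fidx ts) 400 3245 := GoodF.ofV v3245 n3245 c3245.down b3245.down

/-- 4844564:2486/6 -/
noncomputable def e3246 : SCfg where
  D := {
    a := 7
    L := 9
    kp := 6
    inn := [(0, 1), (0, 4), (1, 0), (1, 2), (1, 3), (1, 5), (2, 1), (3, 1), (4, 0), (5, 1), (5, 6), (6,
      5)]
    mix := [(0, 0), (0, 1), (1, 0), (1, 1), (1, 2), (1, 3), (2, 2), (2, 3), (2, 4), (3, 0), (3, 3), (3,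
      5), (4, 0), (4, 1), (4, 5), (4, 6), (5, 1), (5, 2), (5, 6), (5, 7), (6, 6), (6, 7), (6, 8)]
    cl := [0, 0, 0, 3, 5, 2, 1, 4, 6]
    chq := [(0, 3), (1, 4), (3, 0), (4, 1)]
    rng := [(0, 5), (1, 6), (2, 4), (2, 7), (3, 4), (3, 5), (4, 2), (4, 3), (5, 0), (5, 3), (5, 6), (6,
      1), (6, 5), (6, 8), (7, 2), (7, 8), (8, 6), (8, 7)]
    lev := [] }
  links := [[1, 7, 4, 8], [7, 0, 8, 5, 9, 2, 10, 3], [10, 1, 9, 11], [7, 1, 10, 12], [8, 0, 7, 12, 13],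
    [9, 1, 8, 13, 6, 14], [14, 5, 13, 15]]
  P := {
    a := 7
    N := 16
    nb := [402, 1965, 3586, 5250, 12673, 25410, 57376, 4123, 8243, 18470, 6158, 1540, 9368, 37232,
      33376, 24640]
    tri := [(0, 1, 7), (0, 1, 8), (0, 4, 7), (0, 4, 8), (1, 2, 9), (1, 2, 10), (1, 3, 7), (1, 3, 10),
      (1, 5, 8), (1, 5, 9), (2, 9, 11), (2, 10, 11), (3, 7, 12), (3, 10, 12), (4, 7, 12), (4, 8,
      13), (4, 12, 13), (5, 6, 13), (5, 6, 14), (5, 8, 13), (5, 9, 14), (6, 13, 15), (6, 14, 15)]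
    fin := [0, 0, 0, 0, 0, 0, 6, 0, 0, 0, 10, 11, 12, 6, 14, 15]
    chd := [(0, 10), (6, 14)]
    steps := [(0, 1), (0, 2), (0, 3), (0, 5), (0, 7), (0, 8), (0, 4), (0, 9), (6, 13)] }
  rep := [0, 6, 12, 10, 14, 11, 15]

noncomputable def v3246 : Cov.CovD where
  P := 3
  N := 4
  pl := [4, 5, 8]
  lev := [⟨[], [], [(0, 0)], [], [(0, 0, [3]), (1, 0, [3])]⟩,
    ⟨[], [(0, 0), (0, 3)], [(0, 0), (0, 3)], [], [(0, 0, [3]), (1, 0, [3]), (2, 0, [3]),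
      (3, 3, [0])]⟩,
    ⟨[(0, 1)], [(1, 0), (1, 3)], [(0, 3)], [5], [(2, 0, [3]), (3, 3, [0])]⟩,
    ⟨[(0, 1), (1, 2)], [(0, 0), (1, 0), (1, 3), (2, 3)], [(0, 3)], [2], [(0, 0, [3]), (3,
      3, [0])]⟩,
    ⟨[(0, 1)], [(0, 0), (0, 1), (1, 0), (3, 0)], [(0, 0), (0, 1)], [2], [(0, 0, [3]), (1,
      0, [3]), (6, 1, [4])]⟩,
    ⟨[(0, 1), (1, 2), (1, 3)], [(0, 0), (1, 0), (1, 1), (1, 3), (1, 4), (2, 0), (4, 0), (4,
      1)], [(0, 0), (0, 1), (0, 4), (1, 4)], [], [(1, 0, [3]), (2, 0, [3]), (6, 1, [4]), (7,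
      4, [1])]⟩,
    ⟨[(1, 5)], [(4, 1), (5, 0), (5, 1), (5, 4)], [(1, 4)], [6], [(6, 1, [4]), (7, 4, [1])]⟩]
  Ta := [((0, 5), 0, 2), ((1, 6), 0, 1), ((2, 4), 0, 5), ((2, 7), 0, 4)]
  Tb := [((2, 4, 7), 0, 5, 4), ((3, 4, 5), 3, 5, 2), ((4, 2, 3), 5, 0, 3), ((5, 0, 3), 2, 0, 3),
    ((5, 0, 6), 2, 0, 1), ((5, 3, 6), 2, 3, 1), ((6, 1, 5), 1, 0, 2), ((6, 1, 8), 1, 0, 6),
    ((6, 5, 8), 1, 2, 6), ((7, 2, 8), 4, 0, 6), ((8, 6, 7), 6, 1, 4)]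
  Tc := []
  Td := [((0, 3), (0, 5), 2), ((0, 3), (1, 6), 1), ((0, 3), (2, 4), 5), ((0, 3), (2, 7), 4), ((1,
    4), (6, 1), 0), ((1, 4), (6, 5), 2), ((1, 4), (6, 8), 6), ((3, 0), (3, 4), 5), ((3, 0),
    (3, 5), 2), ((4, 1), (7, 2), 0), ((4, 1), (7, 8), 6)]
  G := [[0, 0, 0x9844145448195c821ac, 0x95c8495c4495c88724, 0x54881988898889548295c8895c827e4],
    [0, 0xca6841a6c411a2, 0, 0x95c8495c8495c41d28, 0x15c81198811888215c8295c85489ee4], [0, 0,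
    0, 0x95c8895c8495c41e24, 0x98819881c454815488c95c88548298895c89eac]]

noncomputable def n3246 : Ent := ⟨e3246, noF, [], [], [(12, 15, [360035742630636841211993100915356868655746945586763691020951553, 0])]⟩

def c3246 : PLift (Cov.check n3246.C.D v3246 = true) := ⟨by decide +kernel⟩

def b3246 : PLift (entF (fidx ts) 400 3246 n3246 = true) := ⟨by decide +kernel⟩

theorem g3246 : GoodF (fidx ts) 400 3246 := GoodF.ofV v3246 n3246 c3246.down b3246.down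

/-- 4844564:2486/5 -/
noncomputable def e3247 : SCfg where
  D := {
    a := 7
    L := 10
    kp := 7
    inn := [(0, 1), (0, 4), (1, 0), (1, 2), (1, 3), (1, 5), (2, 1), (3, 1), (4, 0), (5, 1), (5, 6), (6,
      5)]
    mix := [(0, 0), (0, 1), (1, 0), (1, 1), (1, 2), (1, 3), (2, 2), (2, 3), (2, 4), (3, 0), (3, 3), (3,
      5), (4, 0), (4, 1), (4, 5), (4, 6), (5, 1), (5, 2), (5, 7), (5, 8), (6, 7), (6, 8), (6, 9)]
    cl := [0, 0, 0, 1, 5, 2, 6, 3, 4, 7]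
    chq := [(0, 1), (1, 0), (3, 4), (4, 3)]
    rng := [(0, 5), (1, 6), (1, 7), (2, 4), (2, 8), (3, 4), (3, 5), (4, 2), (4, 3), (5, 0), (5, 3), (5,
      6), (6, 1), (6, 5), (7, 1), (7, 9), (8, 2), (8, 9), (9, 7), (9, 8)]
    lev := [] }
  links := [[1, 7, 4, 8], [7, 0, 8, 5, 9, 2, 10, 3], [10, 1, 9, 11], [7, 1, 10, 12], [8, 0, 7, 12, 13],
    [9, 1, 8, 14, 6, 15], [15, 5, 14, 16]]
  P := {
    a := 7
    N := 17
    nb := [402, 1965, 3586, 5250, 12673, 49986, 114720, 4123, 24627, 34854, 6158, 1540, 9368, 4368,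
      65888, 66144, 49216]
    tri := [(0, 1, 7), (0, 1, 8), (0, 4, 7), (0, 4, 8), (1, 2, 9), (1, 2, 10), (1, 3, 7), (1, 3, 10),
      (1, 5, 8), (1, 5, 9), (2, 9, 11), (2, 10, 11), (3, 7, 12), (3, 10, 12), (4, 7, 12), (4, 8,
      13), (4, 12, 13), (5, 6, 14), (5, 6, 15), (5, 8, 14), (5, 9, 15), (6, 14, 16), (6, 15, 16)]
    fin := [0, 0, 0, 0, 0, 0, 6, 0, 0, 0, 10, 11, 12, 13, 6, 15, 16]
    chd := [(0, 10), (6, 15)]
    steps := [(0, 1), (0, 2), (0, 3), (0, 5), (0, 7), (0, 4), (0, 8), (0, 9), (6, 14)] }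
  rep := [0, 10, 12, 6, 15, 11, 13, 16]

noncomputable def v3247 : Cov.CovD where
  P := 3
  N := 5
  pl := [4, 5, 6, 9]
  lev := [⟨[], [], [(0, 0)], [], [(0, 0, [1]), (1, 0, [1])]⟩,
    ⟨[], [(0, 0), (0, 1)], [(0, 0), (0, 1)], [], [(0, 0, [1]), (1, 0, [1]), (2, 0, [1]),
      (3, 1, [0])]⟩,
    ⟨[(0, 1)], [(1, 0), (1, 1)], [(0, 1)], [5], [(2, 0, [1]), (3, 1, [0])]⟩,
    ⟨[(0, 1), (1, 2)], [(0, 0), (1, 0), (1, 1), (2, 1)], [(0, 1)], [2], [(0, 0, [1]), (3,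
      1, [0])]⟩,
    ⟨[(0, 1)], [(0, 0), (1, 0), (3, 0)], [(0, 0)], [2, 6], [(0, 0, [1]), (1, 0, [1])]⟩,
    ⟨[(0, 1), (1, 2), (1, 3)], [(0, 0), (1, 0), (1, 1), (1, 3), (1, 4), (2, 0), (4, 0)],
      [(0, 0), (0, 3), (0, 4), (3, 4)], [], [(1, 0, [1]), (2, 0, [1]), (7, 3, [4]), (8, 4,
      [3])]⟩,
    ⟨[(1, 5)], [(5, 0), (5, 3), (5, 4)], [(3, 4)], [7], [(7, 3, [4]), (8, 4, [3])]⟩]
  Ta := [((0, 5), 0, 2), ((1, 6), 0, 6), ((1, 7), 0, 3), ((2, 4), 0, 5), ((2, 8), 0, 4)]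
  Tb := [((1, 6, 7), 0, 6, 3), ((2, 4, 8), 0, 5, 4), ((3, 4, 5), 1, 5, 2), ((4, 2, 3), 5, 0, 1),
    ((5, 0, 3), 2, 0, 1), ((5, 0, 6), 2, 0, 6), ((5, 3, 6), 2, 1, 6), ((6, 1, 5), 6, 0, 2),
    ((7, 1, 9), 3, 0, 7), ((8, 2, 9), 4, 0, 7), ((9, 7, 8), 7, 3, 4)]
  Tc := []
  Td := [((0, 1), (0, 5), 2), ((0, 1), (1, 6), 6), ((0, 1), (1, 7), 3), ((0, 1), (2, 4), 5), ((0,
    1), (2, 8), 4), ((1, 0), (3, 4), 5), ((1, 0), (3, 5), 2), ((3, 4), (7, 1), 0), ((3, 4),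
    (7, 9), 7), ((4, 3), (8, 2), 0), ((4, 3), (8, 9), 7)]
  G := [[0, 0x53632c432153ec4695c85cc49898c8ca2, 0x5365366419898a81c8, 0x5415cc4193a83ac41c2,
    0x536536a819898a81c2], [0, 0x536153ec4153e32c469895cc48888c4ca2, 0,
    0x153e536c418898c81c2, 0x536153ea119888a81c2], [0, 0x153e536c4536536c869898c88898c4aa4,
    0, 0x93a93ac493a93ac1c45454c45454c8c8c, 0x4444a154536a8c913e913ea193a98a8cc2]]

noncomputable def n3247 : Ent := ⟨e3247, noF, [], [], [(12, 16, [1580044410770988437309982408355971841652082177953823432505702395905, 0]), (13, 14, [1685382413448253767852309107433119732572617628602273068445378207745, 0])]⟩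

def c3247 : PLift (Cov.check n3247.C.D v3247 = true) := ⟨by decide +kernel⟩

def b3247 : PLift (entF (fidx ts) 400 3247 n3247 = true) := ⟨by decide +kernel⟩

theorem g3247 : GoodF (fidx ts) 400 3247 := GoodF.ofV v3247 n3247 c3247.down b3247.down

/-- 4844564:2486/8 -/
noncomputable def e3248 : SCfg where
  D := {
    a := 7
    L := 9
    kp := 6
    inn := [(0, 1), (0, 4), (1, 0), (1, 2), (1, 3), (1, 5), (2, 1), (3, 1), (4, 0), (5, 1), (5, 6), (6,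
      5)]
    mix := [(0, 0), (0, 1), (1, 0), (1, 1), (1, 2), (1, 3), (2, 2), (2, 3), (2, 4), (3, 0), (3, 3), (3,
      5), (4, 0), (4, 1), (4, 6), (4, 7), (5, 1), (5, 2), (5, 7), (5, 8), (6, 5), (6, 7), (6, 8)]
    cl := [0, 0, 0, 1, 5, 4, 6, 2, 3]
    chq := [(0, 1), (1, 0), (2, 3), (3, 2)]
    rng := [(0, 5), (0, 6), (1, 7), (2, 4), (2, 8), (3, 4), (3, 5), (4, 2), (4, 3), (5, 0), (5, 3), (5,
      7), (5, 8), (6, 0), (6, 7), (7, 1), (7, 5), (7, 6), (8, 2), (8, 5)]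
    lev := [] }
  links := [[1, 7, 4, 8], [7, 0, 8, 5, 9, 2, 10, 3], [10, 1, 9, 11], [7, 1, 10, 12], [8, 0, 7, 13, 14],
    [9, 1, 8, 14, 6, 15], [15, 5, 14, 12]]
  P := {
    a := 7
    N := 16
    nb := [402, 1965, 3586, 5250, 24961, 49986, 53280, 12315, 16435, 34854, 6158, 1540, 50376, 16528,
      12656, 4704]
    tri := [(0, 1, 7), (0, 1, 8), (0, 4, 7), (0, 4, 8), (1, 2, 9), (1, 2, 10), (1, 3, 7), (1, 3, 10),
      (1, 5, 8), (1, 5, 9), (2, 9, 11), (2, 10, 11), (3, 7, 12), (3, 10, 12), (4, 7, 13), (4, 8,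
      14), (4, 13, 14), (5, 6, 14), (5, 6, 15), (5, 8, 14), (5, 9, 15), (6, 12, 14), (6, 12, 15)]
    fin := [0, 0, 0, 0, 0, 0, 6, 0, 0, 0, 10, 11, 12, 13, 6, 15]
    chd := [(0, 10), (6, 15)]
    steps := [(0, 1), (0, 2), (0, 3), (0, 4), (0, 7), (0, 8), (0, 5), (0, 9), (6, 14)] }
  rep := [0, 10, 6, 15, 12, 11, 13]

noncomputable def v3248 : Cov.CovD where
  P := 3
  N := 4
  pl := [4, 5, 6]
  lev := [⟨[], [], [(0, 0)], [], [(0, 0, [1]), (1, 0, [1])]⟩,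
    ⟨[], [(0, 0), (0, 1)], [(0, 0), (0, 1)], [], [(0, 0, [1]), (1, 0, [1]), (2, 0, [1]),
      (3, 1, [0])]⟩,
    ⟨[(0, 1)], [(1, 0), (1, 1)], [(0, 1)], [5], [(2, 0, [1]), (3, 1, [0])]⟩,
    ⟨[(0, 1), (1, 2)], [(0, 0), (1, 0), (1, 1), (2, 1)], [(0, 1)], [4], [(0, 0, [1]), (3,
      1, [0])]⟩,
    ⟨[(0, 1)], [(0, 0), (0, 2), (1, 0), (3, 0)], [(0, 0), (0, 2)], [6], [(0, 0, [1]), (1,
      0, [1]), (7, 2, [3])]⟩,
    ⟨[(0, 1), (1, 2), (1, 3)], [(0, 0), (1, 0), (1, 1), (1, 2), (1, 3), (2, 0), (4, 0), (4,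
      2)], [(0, 0), (0, 2), (0, 3), (2, 3)], [], [(1, 0, [1]), (2, 0, [1]), (7, 2, [3]), (8,
      3, [2])]⟩,
    ⟨[(1, 5)], [(4, 2), (5, 0), (5, 2), (5, 3)], [(2, 3)], [4], [(7, 2, [3]), (8, 3, [2])]⟩]
  Ta := [((0, 5), 0, 4), ((0, 6), 0, 6), ((1, 7), 0, 2), ((2, 4), 0, 5), ((2, 8), 0, 3)]
  Tb := [((0, 5, 6), 0, 4, 6), ((2, 4, 8), 0, 5, 3), ((3, 4, 5), 1, 5, 4), ((4, 2, 3), 5, 0, 1),
    ((5, 0, 3), 4, 0, 1), ((5, 0, 7), 4, 0, 2), ((5, 0, 8), 4, 0, 3), ((5, 3, 7), 4, 1, 2),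
    ((5, 3, 8), 4, 1, 3), ((5, 7, 8), 4, 2, 3), ((6, 0, 7), 6, 0, 2), ((7, 1, 5), 2, 0, 4),
    ((7, 1, 6), 2, 0, 6), ((7, 5, 6), 2, 4, 6), ((8, 2, 5), 3, 0, 4)]
  Tc := []
  Td := [((0, 1), (0, 5), 4), ((0, 1), (0, 6), 6), ((0, 1), (1, 7), 2), ((0, 1), (2, 4), 5), ((0,
    1), (2, 8), 3), ((1, 0), (3, 4), 5), ((1, 0), (3, 5), 4), ((2, 3), (7, 1), 0), ((2, 3),
    (7, 5), 4), ((2, 3), (7, 6), 6), ((3, 2), (8, 2), 0), ((3, 2), (8, 5), 4)]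
  G := [[0, 0x1881411cc6188281c11cc8e1414cc4468, 0, 0x81c81cc81414c14cc418c,
    0x11a82aa92a11aac142], [0, 0x11c11cc214c14cc411c11cc8e28, 0xca6ca661188, 0x11c11cc1184,
    0x11a11aa1144], [0, 0x11c11cc2211c11cc188c81c11cc4c62, 0, 0xd1c59cc1841dc1dcc148c,
    0xb1a1baa11bab1aa1c48]]

noncomputable def n3248 : Ent := ⟨e3248, noF, [], [], [(13, 12, [385753029973011613167317188540585705112827479461471962603888641, 0])]⟩

def c3248 : PLift (Cov.check n3248.C.D v3248 = true) := ⟨by decide +kernel⟩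

def b3248 : PLift (entF (fidx ts) 400 3248 n3248 = true) := ⟨by decide +kernel⟩

theorem g3248 : GoodF (fidx ts) 400 3248 := GoodF.ofV v3248 n3248 c3248.down b3248.down

/-- 4844564:2486/7 -/
noncomputable def e3249 : SCfg where
  D := {
    a := 7
    L := 10
    kp := 7
    inn := [(0, 1), (0, 4), (1, 0), (1, 2), (1, 3), (1, 5), (2, 1), (3, 1), (4, 0), (5, 1), (5, 6), (6,
      5)]
    mix := [(0, 0), (0, 1), (1, 0), (1, 1), (1, 2), (1, 3), (2, 2), (2, 3), (2, 4), (3, 0), (3, 3), (3,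
      5), (4, 0), (4, 1), (4, 6), (4, 7), (5, 1), (5, 2), (5, 7), (5, 8), (6, 7), (6, 8), (6, 9)]
    cl := [0, 0, 0, 1, 4, 5, 6, 2, 3, 7]
    chq := [(0, 1), (1, 0), (2, 3), (3, 2)]
    rng := [(0, 5), (0, 6), (1, 7), (2, 4), (2, 8), (3, 4), (3, 5), (4, 2), (4, 3), (5, 0), (5, 3), (6,
      0), (6, 7), (7, 1), (7, 6), (7, 9), (8, 2), (8, 9), (9, 7), (9, 8)]
    lev := [] }
  links := [[1, 7, 4, 8], [7, 0, 8, 5, 9, 2, 10, 3], [10, 1, 9, 11], [7, 1, 10, 12], [8, 0, 7, 13, 14],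
    [9, 1, 8, 14, 6, 15], [15, 5, 14, 16]]
  P := {
    a := 7
    N := 17
    nb := [402, 1965, 3586, 5250, 24961, 49986, 114720, 12315, 16435, 34854, 6158, 1540, 1160, 16528,
      74096, 66144, 49216]
    tri := [(0, 1, 7), (0, 1, 8), (0, 4, 7), (0, 4, 8), (1, 2, 9), (1, 2, 10), (1, 3, 7), (1, 3, 10),
      (1, 5, 8), (1, 5, 9), (2, 9, 11), (2, 10, 11), (3, 7, 12), (3, 10, 12), (4, 7, 13), (4, 8,
      14), (4, 13, 14), (5, 6, 14), (5, 6, 15), (5, 8, 14), (5, 9, 15), (6, 14, 16), (6, 15, 16)]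
    fin := [0, 0, 0, 0, 0, 0, 6, 0, 0, 0, 10, 11, 12, 13, 6, 15, 16]
    chd := [(0, 10), (6, 15)]
    steps := [(0, 1), (0, 2), (0, 3), (0, 4), (0, 7), (0, 8), (0, 5), (0, 9), (6, 14)] }
  rep := [0, 10, 6, 15, 11, 12, 13, 16]

noncomputable def v3249 : Cov.CovD where
  P := 3
  N := 5
  pl := [4, 5, 6, 9]
  lev := [⟨[], [], [(0, 0)], [], [(0, 0, [1]), (1, 0, [1])]⟩,
    ⟨[], [(0, 0), (0, 1)], [(0, 0), (0, 1)], [], [(0, 0, [1]), (1, 0, [1]), (2, 0, [1]),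
      (3, 1, [0])]⟩,
    ⟨[(0, 1)], [(1, 0), (1, 1)], [(0, 1)], [4], [(2, 0, [1]), (3, 1, [0])]⟩,
    ⟨[(0, 1), (1, 2)], [(0, 0), (1, 0), (1, 1), (2, 1)], [(0, 1)], [5], [(0, 0, [1]), (3,
      1, [0])]⟩,
    ⟨[(0, 1)], [(0, 0), (0, 2), (1, 0), (3, 0)], [(0, 0), (0, 2)], [6], [(0, 0, [1]), (1,
      0, [1]), (7, 2, [3])]⟩,
    ⟨[(0, 1), (1, 2), (1, 3)], [(0, 0), (1, 0), (1, 1), (1, 2), (1, 3), (2, 0), (4, 0), (4,
      2)], [(0, 0), (0, 2), (0, 3), (2, 3)], [], [(1, 0, [1]), (2, 0, [1]), (7, 2, [3]), (8,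
      3, [2])]⟩,
    ⟨[(1, 5)], [(4, 2), (5, 0), (5, 2), (5, 3)], [(2, 3)], [7], [(7, 2, [3]), (8, 3, [2])]⟩]
  Ta := [((0, 5), 0, 5), ((0, 6), 0, 6), ((1, 7), 0, 2), ((2, 4), 0, 4), ((2, 8), 0, 3)]
  Tb := [((0, 5, 6), 0, 5, 6), ((2, 4, 8), 0, 4, 3), ((3, 4, 5), 1, 4, 5), ((4, 2, 3), 4, 0, 1),
    ((5, 0, 3), 5, 0, 1), ((6, 0, 7), 6, 0, 2), ((7, 1, 6), 2, 0, 6), ((7, 1, 9), 2, 0, 7),
    ((7, 6, 9), 2, 6, 7), ((8, 2, 9), 3, 0, 7), ((9, 7, 8), 7, 2, 3)]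
  Tc := []
  Td := [((0, 1), (0, 5), 5), ((0, 1), (0, 6), 6), ((0, 1), (1, 7), 2), ((0, 1), (2, 4), 4), ((0,
    1), (2, 8), 3), ((1, 0), (3, 4), 4), ((1, 0), (3, 5), 5), ((2, 3), (7, 1), 0), ((2, 3),
    (7, 6), 6), ((2, 3), (7, 9), 7), ((3, 2), (8, 2), 0), ((3, 2), (8, 9), 7)]
  G := [[0, 0x95c95cc95c4695c8295c95cc95c4ce24, 0, 0x91c98c9898cc144454c5454cc18c,
    0x93a93aa93a93aac148], [0, 0x95c95cc895c95cc295c95cc4e24, 0xc6ac6a61148,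
    0x4454c1191c98c11c2, 0x93a93aa1148], [0, 0x95c95cc295c95cc495c95cc8e24, 0,
    0x9898c19898c1c45454c15454c1c8a, 0x93a93aa193a93aa1c42]]

noncomputable def n3249 : Ent := ⟨e3249, noF, [], [], [(13, 16, [1580044410770988437309982408355971841652082177953823432505702400001, 0]), (13, 12, [1685382419726887998779855760127267502807434353888247252031596322817, 0]), (16, 12, [1580044410777118419473445963789405229760683414688298388994436825089, 0])]⟩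

def c3249 : PLift (Cov.check n3249.C.D v3249 = true) := ⟨by decide +kernel⟩

def b3249 : PLift (entF (fidx ts) 400 3249 n3249 = true) := ⟨by decide +kernel⟩

theorem g3249 : GoodF (fidx ts) 400 3249 := GoodF.ofV v3249 n3249 c3249.down b3249.down

/-- 4844564:2486/9 -/
noncomputable def e3250 : SCfg where
  D := {
    a := 7
    L := 10
    kp := 7
    inn := [(0, 1), (0, 4), (1, 0), (1, 2), (1, 3), (1, 5), (2, 1), (3, 1), (4, 0), (5, 1), (5, 6), (6,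
      5)]
    mix := [(0, 0), (0, 1), (1, 0), (1, 1), (1, 2), (1, 3), (2, 2), (2, 3), (2, 4), (3, 0), (3, 3), (3,
      5), (4, 0), (4, 1), (4, 6), (4, 7), (5, 1), (5, 2), (5, 8), (5, 9), (6, 5), (6, 8), (6, 9)]
    cl := [0, 0, 0, 1, 5, 2, 6, 7, 3, 4]
    chq := [(0, 1), (1, 0), (3, 4), (4, 3)]
    rng := [(0, 5), (0, 6), (1, 7), (1, 8), (2, 4), (2, 9), (3, 4), (3, 5), (4, 2), (4, 3), (5, 0), (5,
      3), (5, 8), (5, 9), (6, 0), (6, 7), (7, 1), (7, 6), (8, 1), (8, 5), (9, 2), (9, 5)]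
    lev := [] }
  links := [[1, 7, 4, 8], [7, 0, 8, 5, 9, 2, 10, 3], [10, 1, 9, 11], [7, 1, 10, 12], [8, 0, 7, 13, 14],
    [9, 1, 8, 15, 6, 16], [16, 5, 15, 12]]
  P := {
    a := 7
    N := 17
    nb := [402, 1965, 3586, 5250, 24961, 99138, 102432, 12315, 49203, 67622, 6158, 1540, 99528, 16528,
      8464, 4448, 4704]
    tri := [(0, 1, 7), (0, 1, 8), (0, 4, 7), (0, 4, 8), (1, 2, 9), (1, 2, 10), (1, 3, 7), (1, 3, 10),
      (1, 5, 8), (1, 5, 9), (2, 9, 11), (2, 10, 11), (3, 7, 12), (3, 10, 12), (4, 7, 13), (4, 8,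
      14), (4, 13, 14), (5, 6, 15), (5, 6, 16), (5, 8, 15), (5, 9, 16), (6, 12, 15), (6, 12, 16)]
    fin := [0, 0, 0, 0, 0, 0, 6, 0, 0, 0, 10, 11, 12, 13, 14, 6, 16]
    chd := [(0, 10), (6, 16)]
    steps := [(0, 1), (0, 2), (0, 3), (0, 4), (0, 5), (0, 7), (0, 8), (0, 9), (6, 15)] }
  rep := [0, 10, 12, 6, 16, 11, 13, 14]

noncomputable def v3250 : Cov.CovD where
  P := 3
  N := 5
  pl := [4, 5, 6, 7]
  lev := [⟨[], [], [(0, 0)], [], [(0, 0, [1]), (1, 0, [1])]⟩,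
    ⟨[], [(0, 0), (0, 1)], [(0, 0), (0, 1)], [], [(0, 0, [1]), (1, 0, [1]), (2, 0, [1]),
      (3, 1, [0])]⟩,
    ⟨[(0, 1)], [(1, 0), (1, 1)], [(0, 1)], [5], [(2, 0, [1]), (3, 1, [0])]⟩,
    ⟨[(0, 1), (1, 2)], [(0, 0), (1, 0), (1, 1), (2, 1)], [(0, 1)], [2], [(0, 0, [1]), (3,
      1, [0])]⟩,
    ⟨[(0, 1)], [(0, 0), (1, 0), (3, 0)], [(0, 0)], [6, 7], [(0, 0, [1]), (1, 0, [1])]⟩,
    ⟨[(0, 1), (1, 2), (1, 3)], [(0, 0), (1, 0), (1, 1), (1, 3), (1, 4), (2, 0), (4, 0)],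
      [(0, 0), (0, 3), (0, 4), (3, 4)], [], [(1, 0, [1]), (2, 0, [1]), (8, 3, [4]), (9, 4,
      [3])]⟩,
    ⟨[(1, 5)], [(5, 0), (5, 3), (5, 4)], [(3, 4)], [2], [(8, 3, [4]), (9, 4, [3])]⟩]
  Ta := [((0, 5), 0, 2), ((0, 6), 0, 6), ((1, 7), 0, 7), ((1, 8), 0, 3), ((2, 4), 0, 5), ((2, 9),
    0, 4)]
  Tb := [((0, 5, 6), 0, 2, 6), ((1, 7, 8), 0, 7, 3), ((2, 4, 9), 0, 5, 4), ((3, 4, 5), 1, 5, 2),
    ((4, 2, 3), 5, 0, 1), ((5, 0, 3), 2, 0, 1), ((5, 0, 8), 2, 0, 3), ((5, 0, 9), 2, 0, 4),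
    ((5, 3, 8), 2, 1, 3), ((5, 3, 9), 2, 1, 4), ((5, 8, 9), 2, 3, 4), ((6, 0, 7), 6, 0, 7),
    ((7, 1, 6), 7, 0, 6), ((8, 1, 5), 3, 0, 2), ((9, 2, 5), 4, 0, 2)]
  Tc := []
  Td := [((0, 1), (0, 5), 2), ((0, 1), (0, 6), 6), ((0, 1), (1, 7), 7), ((0, 1), (1, 8), 3), ((0,
    1), (2, 4), 5), ((0, 1), (2, 9), 4), ((1, 0), (3, 4), 5), ((1, 0), (3, 5), 2), ((3, 4),
    (8, 1), 0), ((3, 4), (8, 5), 2), ((4, 3), (9, 2), 0), ((4, 3), (9, 5), 2)]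
  G := [[0, 0x12416a4111e111e18e411c141e141ee4e84, 0x4444426e8182a82a88e41c2, 0x121212e8182,
    0x812e812e812ee8142], [0, 0x1414811ee81a11acc811e111e111ee8a48, 0, 0xd2d2d2e1148,
    0x192e192e192ee1184], [0, 0x841e141e111ee4811e141e841ee8c24, 0, 0xd2d2d2e1d2d2d2e4c84,
    0x2292661192e192e192ee1c812e81c18e88c2]]

noncomputable def n3250 : Ent := ⟨e3250, noF, [], [], [(13, 12, [1685382419726887998779855760127267502807434353888247252031596310529, 0]), (14, 15, [1685356702439545624007900436039642273970977273354372543760013393921, 0])]⟩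

def c3250 : PLift (Cov.check n3250.C.D v3250 = true) := ⟨by decide +kernel⟩

def b3250 : PLift (entF (fidx ts) 400 3250 n3250 = true) := ⟨by decide +kernel⟩

theorem g3250 : GoodF (fidx ts) 400 3250 := GoodF.ofV v3250 n3250 c3250.down b3250.down

/-- 4844564:2486 -/
noncomputable def e3251 : SCfg where
  D := {
    a := 7
    L := 11
    kp := 8
    inn := [(0, 1), (0, 4), (1, 0), (1, 2), (1, 3), (1, 5), (2, 1), (3, 1), (4, 0), (5, 1), (5, 6), (6,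
      5)]
    mix := [(0, 0), (0, 1), (1, 0), (1, 1), (1, 2), (1, 3), (2, 2), (2, 3), (2, 4), (3, 0), (3, 3), (3,
      5), (4, 0), (4, 1), (4, 6), (4, 7), (5, 1), (5, 2), (5, 8), (5, 9), (6, 8), (6, 9), (6, 10)]
    cl := [0, 0, 0, 1, 4, 5, 6, 7, 3, 2, 8]
    chq := [(0, 1), (1, 0), (2, 3), (3, 2)]
    rng := [(0, 5), (0, 6), (1, 7), (1, 8), (2, 4), (2, 9), (3, 4), (3, 5), (4, 2), (4, 3), (5, 0), (5,
      3), (6, 0), (6, 7), (7, 1), (7, 6), (8, 1), (8, 10), (9, 2), (9, 10), (10, 8), (10, 9)]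
    lev := [] }
  links := [[1, 7, 4, 8], [7, 0, 8, 5, 9, 2, 10, 3], [10, 1, 9, 11], [7, 1, 10, 12], [8, 0, 7, 13, 14],
    [9, 1, 8, 15, 6, 16], [16, 5, 15, 17]]
  P := {
    a := 7
    N := 18
    nb := [402, 1965, 3586, 5250, 24961, 99138, 229408, 12315, 49203, 67622, 6158, 1540, 1160, 16528,
      8464, 131424, 131680, 98368]
    tri := [(0, 1, 7), (0, 1, 8), (0, 4, 7), (0, 4, 8), (1, 2, 9), (1, 2, 10), (1, 3, 7), (1, 3, 10),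
      (1, 5, 8), (1, 5, 9), (2, 9, 11), (2, 10, 11), (3, 7, 12), (3, 10, 12), (4, 7, 13), (4, 8,
      14), (4, 13, 14), (5, 6, 15), (5, 6, 16), (5, 8, 15), (5, 9, 16), (6, 15, 17), (6, 16, 17)]
    fin := [0, 0, 0, 0, 0, 0, 6, 0, 0, 0, 10, 11, 12, 13, 14, 6, 16, 17]
    chd := [(0, 10), (6, 16)]
    steps := [(0, 1), (0, 2), (0, 3), (0, 4), (0, 5), (0, 7), (0, 8), (0, 9), (6, 15)] }
  rep := [0, 10, 16, 6, 11, 12, 13, 14, 17]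

noncomputable def v3251 : Cov.CovD where
  P := 3
  N := 6
  pl := [4, 5, 6, 7, 10]
  lev := [⟨[], [], [(0, 0)], [], [(0, 0, [1]), (1, 0, [1])]⟩,
    ⟨[], [(0, 0), (0, 1)], [(0, 0), (0, 1)], [], [(0, 0, [1]), (1, 0, [1]), (2, 0, [1]),
      (3, 1, [0])]⟩,
    ⟨[(0, 1)], [(1, 0), (1, 1)], [(0, 1)], [4], [(2, 0, [1]), (3, 1, [0])]⟩,
    ⟨[(0, 1), (1, 2)], [(0, 0), (1, 0), (1, 1), (2, 1)], [(0, 1)], [5], [(0, 0, [1]), (3,
      1, [0])]⟩,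
    ⟨[(0, 1)], [(0, 0), (1, 0), (3, 0)], [(0, 0)], [6, 7], [(0, 0, [1]), (1, 0, [1])]⟩,
    ⟨[(0, 1), (1, 2), (1, 3)], [(0, 0), (1, 0), (1, 1), (1, 2), (1, 3), (2, 0), (4, 0)],
      [(0, 0), (0, 2), (0, 3), (2, 3)], [], [(1, 0, [1]), (2, 0, [1]), (8, 3, [2]), (9, 2,
      [3])]⟩,
    ⟨[(1, 5)], [(5, 0), (5, 2), (5, 3)], [(2, 3)], [8], [(8, 3, [2]), (9, 2, [3])]⟩]
  Ta := [((0, 5), 0, 5), ((0, 6), 0, 6), ((1, 7), 0, 7), ((1, 8), 0, 3), ((2, 4), 0, 4), ((2, 9),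
    0, 2)]
  Tb := [((0, 5, 6), 0, 5, 6), ((1, 7, 8), 0, 7, 3), ((2, 4, 9), 0, 4, 2), ((3, 4, 5), 1, 4, 5),
    ((4, 2, 3), 4, 0, 1), ((5, 0, 3), 5, 0, 1), ((6, 0, 7), 6, 0, 7), ((7, 1, 6), 7, 0, 6),
    ((8, 1, 10), 3, 0, 8), ((9, 2, 10), 2, 0, 8), ((10, 8, 9), 8, 3, 2)]
  Tc := []
  Td := [((0, 1), (0, 5), 5), ((0, 1), (0, 6), 6), ((0, 1), (1, 7), 7), ((0, 1), (1, 8), 3), ((0,
    1), (2, 4), 4), ((0, 1), (2, 9), 2), ((1, 0), (3, 4), 4), ((1, 0), (3, 5), 5), ((2, 3),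
    (9, 2), 0), ((2, 3), (9, 10), 8), ((3, 2), (8, 1), 0), ((3, 2), (8, 10), 8)]
  G := [[0, 0x95c95c95ce295c95c95ce495c95c95ce8e28, 0, 0x445454e5415c15cec191c9898e988888ec1c2,
    0x93a93a93ae93a93a93aec142], [0, 0x95c95c95ce95c95cca95c2295c95cc95c95c95cece28, 0,
    0x15c5444e118889891ce1146, 0x93a93a93ae1148], [0, 0x95c95c95ce295c95c95ce495c95c95ce8e28,
    0xc6ac6ac6ae1c6ac6ac6ae1c48, 0x91c91c98e1989898e1c4444454e1545454e1c8a,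
    0x93a93a93ae193a93a93ae1c48]]

noncomputable def n3251 : Ent := ⟨e3251, noF, [], [], [(13, 17, [6903326391201334775872065844685381424292761054348340378595029942980609, 0]), (13, 12, [7334790875884700912148207959429466810732110717284923962112213600890881, 0]), (14, 15, [7334790850167413569773436004105379185503274260204390087403942017961985, 0]), (17, 12, [6903326391201342438349770174129673216027896805894258472290640861011969, 0])]⟩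

def c3251 : PLift (Cov.check n3251.C.D v3251 = true) := ⟨by decide +kernel⟩

def b3251 : PLift (entF (fidx ts) 400 3251 n3251 = true) := ⟨by decide +kernel⟩

theorem g3251 : GoodF (fidx ts) 400 3251 := GoodF.ofV v3251 n3251 c3251.down b3251.down

/-- 4856444:2489/2 -/
noncomputable def e3252 : SCfg where
  D := {
    a := 7
    L := 9
    kp := 6
    inn := [(0, 1), (1, 0), (1, 2), (1, 3), (1, 4), (2, 1), (2, 5), (3, 1), (3, 6), (4, 1), (5, 2), (6,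
      3)]
    mix := [(0, 0), (0, 1), (0, 2), (1, 0), (1, 2), (1, 3), (1, 4), (2, 3), (2, 4), (2, 5), (3, 0), (3,
      4), (3, 6), (3, 7), (4, 2), (4, 3), (4, 8), (5, 3), (5, 5), (5, 8), (6, 6), (6, 7), (6, 8)]
    cl := [0, 6, 1, 0, 0, 5, 3, 4, 2]
    chq := [(0, 1), (1, 0), (3, 4), (4, 3)]
    rng := [(0, 1), (0, 7), (1, 0), (1, 2), (2, 1), (2, 8), (3, 8), (4, 5), (4, 6), (5, 4), (5, 8), (6,
      4), (6, 8), (7, 0), (7, 8), (8, 2), (8, 3), (8, 5), (8, 6), (8, 7)]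
    lev := [] }
  links := [[1, 7, 8, 9], [7, 0, 9, 4, 10, 2, 11, 3], [11, 1, 10, 5, 12], [7, 1, 11, 13, 6, 14], [10, 1,
    9, 15], [12, 2, 10, 15], [14, 3, 13, 15]]
  P := {
    a := 7
    N := 16
    nb := [898, 3741, 7202, 26818, 34306, 37892, 57352, 16651, 641, 33043, 32822, 12302, 34852, 34888,
      32968, 30320]
    tri := [(0, 1, 7), (0, 1, 9), (0, 7, 8), (0, 8, 9), (1, 2, 10), (1, 2, 11), (1, 3, 7), (1, 3, 11),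
      (1, 4, 9), (1, 4, 10), (2, 5, 10), (2, 5, 12), (2, 11, 12), (3, 6, 13), (3, 6, 14), (3, 7,
      14), (3, 11, 13), (4, 9, 15), (4, 10, 15), (5, 10, 15), (5, 12, 15), (6, 13, 15), (6, 14,
      15)]
    fin := [0, 0, 0, 0, 0, 0, 6, 0, 8, 9, 0, 0, 12, 6, 14, 15]
    chd := [(0, 9), (6, 14)]
    steps := [(0, 1), (0, 2), (0, 3), (0, 4), (0, 7), (0, 10), (0, 5), (0, 11), (6, 13)] }
  rep := [0, 9, 15, 6, 14, 12, 8]

noncomputable def v3252 : Cov.CovD where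
  P := 3
  N := 4
  pl := [1, 5, 8]
  lev := [⟨[], [], [(0, 1)], [6], [(0, 0, [1]), (2, 1, [0])]⟩,
    ⟨[], [(0, 0), (0, 1)], [(0, 0), (0, 1)], [], [(0, 0, [1]), (2, 1, [0]), (3, 0, [1]),
      (4, 0, [1])]⟩,
    ⟨[(0, 1)], [(1, 0), (1, 1)], [(0, 0)], [5], [(3, 0, [1]), (4, 0, [1])]⟩,
    ⟨[(0, 1), (1, 2)], [(0, 0), (1, 0), (1, 1), (1, 3), (1, 4), (2, 0)], [(0, 0), (0, 3),
      (0, 4), (3, 4)], [], [(0, 0, [1]), (4, 0, [1]), (6, 3, [4]), (7, 4, [3])]⟩,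
    ⟨[(0, 1), (1, 2), (1, 3)], [(0, 1), (1, 0), (1, 1), (2, 0)], [(0, 1)], [2], [(2, 1,
      [0]), (3, 0, [1])]⟩,
    ⟨[(1, 2)], [(1, 0), (2, 0), (4, 0)], [], [2, 5], [(3, 0, [1])]⟩,
    ⟨[(1, 3)], [(3, 0), (3, 3), (3, 4)], [(3, 4)], [2], [(6, 3, [4]), (7, 4, [3])]⟩]
  Ta := [((0, 1), 0, 6), ((0, 7), 0, 4), ((3, 8), 0, 2), ((4, 5), 0, 5), ((4, 6), 0, 3)]
  Tb := [((0, 1, 7), 0, 6, 4), ((1, 0, 2), 6, 0, 1), ((2, 1, 8), 1, 6, 2), ((4, 5, 6), 0, 5, 3),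
    ((5, 4, 8), 5, 0, 2), ((6, 4, 8), 3, 0, 2), ((7, 0, 8), 4, 0, 2), ((8, 2, 3), 2, 1, 0),
    ((8, 2, 5), 2, 1, 5), ((8, 2, 6), 2, 1, 3), ((8, 2, 7), 2, 1, 4), ((8, 3, 5), 2, 0, 5),
    ((8, 3, 6), 2, 0, 3), ((8, 3, 7), 2, 0, 4), ((8, 5, 6), 2, 5, 3), ((8, 5, 7), 2, 5, 4),
    ((8, 6, 7), 2, 3, 4)]
  Tc := []
  Td := [((0, 1), (0, 1), 6), ((0, 1), (0, 7), 4), ((0, 1), (3, 8), 2), ((0, 1), (4, 5), 5), ((0,
    1), (4, 6), 3), ((1, 0), (2, 1), 6), ((1, 0), (2, 8), 2), ((3, 4), (6, 4), 0), ((3, 4),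
    (6, 8), 2), ((4, 3), (7, 0), 0), ((4, 3), (7, 8), 2)]
  G := [[0, 0x1142281142114118c681142118118ca4e, 0, 0xd14228d18228c,
    0x3814818218a9214e41882186121b21c688888cc], [0, 0x1182118118c64114118118e28118284e,
    0x44424464242286a88888288cc1, 0x11c42281, 0x188188c12821a8a1284e41], [0,
    0x818118114e241482481142114118ca4e, 0, 0x1d542281, 0x881181c12382828318ce41]]

noncomputable def n3252 : Ent := ⟨e3252, noF, [], [], []⟩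

def c3252 : PLift (Cov.check n3252.C.D v3252 = true) := ⟨by decide +kernel⟩

def b3252 : PLift (entF (fidx ts) 400 3252 n3252 = true) := ⟨by decide +kernel⟩

theorem g3252 : GoodF (fidx ts) 400 3252 := GoodF.ofV v3252 n3252 c3252.down b3252.down

/-- 4856444:2489/1 -/
noncomputable def e3253 : SCfg where
  D := {
    a := 7
    L := 10
    kp := 7
    inn := [(0, 1), (1, 0), (1, 2), (1, 3), (1, 4), (2, 1), (2, 5), (3, 1), (3, 6), (4, 1), (5, 2), (6,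
      3)]
    mix := [(0, 0), (0, 1), (0, 2), (1, 0), (1, 2), (1, 3), (1, 4), (2, 3), (2, 4), (2, 5), (3, 0), (3,
      4), (3, 6), (3, 7), (4, 2), (4, 3), (4, 8), (5, 3), (5, 5), (5, 8), (6, 6), (6, 7), (6, 9)]
    cl := [0, 6, 1, 0, 0, 2, 3, 4, 5, 7]
    chq := [(0, 1), (1, 0), (3, 4), (4, 3)]
    rng := [(0, 1), (0, 7), (1, 0), (1, 2), (2, 1), (2, 8), (3, 8), (4, 5), (4, 6), (5, 4), (5, 8), (6,
      4), (6, 9), (7, 0), (7, 9), (8, 2), (8, 3), (8, 5), (9, 6), (9, 7)]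
    lev := [] }
  links := [[1, 7, 8, 9], [7, 0, 9, 4, 10, 2, 11, 3], [11, 1, 10, 5, 12], [7, 1, 11, 13, 6, 14], [10, 1,
    9, 15], [12, 2, 10, 15], [14, 3, 13, 16]]
  P := {
    a := 7
    N := 17
    nb := [898, 3741, 7202, 26818, 34306, 37892, 90120, 16651, 641, 33043, 32822, 12302, 34852, 67656,
      65736, 5680, 24640]
    tri := [(0, 1, 7), (0, 1, 9), (0, 7, 8), (0, 8, 9), (1, 2, 10), (1, 2, 11), (1, 3, 7), (1, 3, 11),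
      (1, 4, 9), (1, 4, 10), (2, 5, 10), (2, 5, 12), (2, 11, 12), (3, 6, 13), (3, 6, 14), (3, 7,
      14), (3, 11, 13), (4, 9, 15), (4, 10, 15), (5, 10, 15), (5, 12, 15), (6, 13, 16), (6, 14,
      16)]
    fin := [0, 0, 0, 0, 0, 0, 6, 0, 8, 9, 0, 0, 12, 6, 14, 15, 16]
    chd := [(0, 9), (6, 14)]
    steps := [(0, 1), (0, 2), (0, 3), (0, 4), (0, 7), (0, 10), (0, 5), (0, 11), (6, 13)] }
  rep := [0, 9, 12, 6, 14, 15, 8, 16]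

noncomputable def v3253 : Cov.CovD where
  P := 3
  N := 5
  pl := [1, 5, 8, 9]
  lev := [⟨[], [], [(0, 1)], [6], [(0, 0, [1]), (2, 1, [0])]⟩,
    ⟨[], [(0, 0), (0, 1)], [(0, 0), (0, 1)], [], [(0, 0, [1]), (2, 1, [0]), (3, 0, [1]),
      (4, 0, [1])]⟩,
    ⟨[(0, 1)], [(1, 0), (1, 1)], [(0, 0)], [2], [(3, 0, [1]), (4, 0, [1])]⟩,
    ⟨[(0, 1), (1, 2)], [(0, 0), (1, 0), (1, 1), (1, 3), (1, 4), (2, 0)], [(0, 0), (0, 3),
      (0, 4), (3, 4)], [], [(0, 0, [1]), (4, 0, [1]), (6, 3, [4]), (7, 4, [3])]⟩,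
    ⟨[(0, 1), (1, 2), (1, 3)], [(0, 1), (1, 0), (1, 1), (2, 0)], [(0, 1)], [5], [(2, 1,
      [0]), (3, 0, [1])]⟩,
    ⟨[(1, 2)], [(1, 0), (2, 0), (4, 0)], [], [2, 5], [(3, 0, [1])]⟩,
    ⟨[(1, 3)], [(3, 0), (3, 3), (3, 4)], [(3, 4)], [7], [(6, 3, [4]), (7, 4, [3])]⟩]
  Ta := [((0, 1), 0, 6), ((0, 7), 0, 4), ((3, 8), 0, 5), ((4, 5), 0, 2), ((4, 6), 0, 3)]
  Tb := [((0, 1, 7), 0, 6, 4), ((1, 0, 2), 6, 0, 1), ((2, 1, 8), 1, 6, 5), ((4, 5, 6), 0, 2, 3),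
    ((5, 4, 8), 2, 0, 5), ((6, 4, 9), 3, 0, 7), ((7, 0, 9), 4, 0, 7), ((8, 2, 3), 5, 1, 0),
    ((8, 2, 5), 5, 1, 2), ((8, 3, 5), 5, 0, 2), ((9, 6, 7), 7, 3, 4)]
  Tc := []
  Td := [((0, 1), (0, 1), 6), ((0, 1), (0, 7), 4), ((0, 1), (3, 8), 5), ((0, 1), (4, 5), 2), ((0,
    1), (4, 6), 3), ((1, 0), (2, 1), 6), ((1, 0), (2, 8), 5), ((3, 4), (6, 4), 0), ((3, 4),
    (6, 9), 7), ((4, 3), (7, 0), 0), ((4, 3), (7, 9), 7)]
  G := [[0, 0x949161183134ce844851a343166489191c4151cc82e, 0,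
    0x55c133c16499c188c5851c449894933c1a8cc, 0x5158533a1629891c88c5852c4299a138329a8cc], [0,
    0x51516489191a3131aa8c91819634316a85851c4866, 0, 0x4854c449894c1883834ce8c1,
    0x4852c429892c1883832ce8c1], [0, 0x3121a24919165154c114e465451634316689191c88ca,
    0x5561336168996188c1, 0x585493134c649198588c1, 0x51525313256899a182c1]]

noncomputable def n3253 : Ent := ⟨e3253, noF, [], [], [(15, 16, [1580044410770988437309982408355971841652082177953823432505702432769, 0])]⟩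

def c3253 : PLift (Cov.check n3253.C.D v3253 = true) := ⟨by decide +kernel⟩

def b3253 : PLift (entF (fidx ts) 400 3253 n3253 = true) := ⟨by decide +kernel⟩

theorem g3253 : GoodF (fidx ts) 400 3253 := GoodF.ofV v3253 n3253 c3253.down b3253.down

/-- 4856444:2489/3 -/
noncomputable def e3254 : SCfg where
  D := {
    a := 7
    L := 10
    kp := 7
    inn := [(0, 1), (1, 0), (1, 2), (1, 3), (1, 4), (2, 1), (2, 5), (3, 1), (3, 6), (4, 1), (5, 2), (6,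
      3)]
    mix := [(0, 0), (0, 1), (0, 2), (1, 0), (1, 2), (1, 3), (1, 4), (2, 3), (2, 4), (2, 5), (3, 0), (3,
      4), (3, 6), (3, 7), (4, 2), (4, 3), (4, 8), (5, 3), (5, 5), (5, 9), (6, 6), (6, 7), (6, 8)]
    cl := [0, 6, 1, 0, 0, 2, 3, 4, 5, 7]
    chq := [(0, 1), (1, 0), (3, 4), (4, 3)]
    rng := [(0, 1), (0, 7), (1, 0), (1, 2), (2, 1), (2, 8), (3, 8), (3, 9), (4, 5), (4, 6), (5, 4), (5,
      9), (6, 4), (6, 8), (7, 0), (7, 8), (8, 2), (8, 3), (8, 6), (8, 7), (9, 3), (9, 5)]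
    lev := [] }
  links := [[1, 7, 8, 9], [7, 0, 9, 4, 10, 2, 11, 3], [11, 1, 10, 5, 12], [7, 1, 11, 13, 6, 14], [10, 1,
    9, 15], [12, 2, 10, 16], [14, 3, 13, 15]]
  P := {
    a := 7
    N := 17
    nb := [898, 3741, 7202, 26818, 34306, 70660, 57352, 16651, 641, 33043, 98358, 12302, 67620, 34888,
      32968, 26192, 5152]
    tri := [(0, 1, 7), (0, 1, 9), (0, 7, 8), (0, 8, 9), (1, 2, 10), (1, 2, 11), (1, 3, 7), (1, 3, 11),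
      (1, 4, 9), (1, 4, 10), (2, 5, 10), (2, 5, 12), (2, 11, 12), (3, 6, 13), (3, 6, 14), (3, 7,
      14), (3, 11, 13), (4, 9, 15), (4, 10, 15), (5, 10, 16), (5, 12, 16), (6, 13, 15), (6, 14,
      15)]
    fin := [0, 0, 0, 0, 0, 0, 6, 0, 8, 9, 0, 0, 12, 6, 14, 15, 16]
    chd := [(0, 9), (6, 14)]
    steps := [(0, 1), (0, 2), (0, 3), (0, 4), (0, 5), (0, 7), (0, 10), (0, 11), (6, 13)] }
  rep := [0, 9, 12, 6, 14, 15, 8, 16]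

noncomputable def v3254 : Cov.CovD where
  P := 3
  N := 5
  pl := [1, 5, 8, 9]
  lev := [⟨[], [], [(0, 1)], [6], [(0, 0, [1]), (2, 1, [0])]⟩,
    ⟨[], [(0, 0), (0, 1)], [(0, 0), (0, 1)], [], [(0, 0, [1]), (2, 1, [0]), (3, 0, [1]),
      (4, 0, [1])]⟩,
    ⟨[(0, 1)], [(1, 0), (1, 1)], [(0, 0)], [2], [(3, 0, [1]), (4, 0, [1])]⟩,
    ⟨[(0, 1), (1, 2)], [(0, 0), (1, 0), (1, 1), (1, 3), (1, 4), (2, 0)], [(0, 0), (0, 3),
      (0, 4), (3, 4)], [], [(0, 0, [1]), (4, 0, [1]), (6, 3, [4]), (7, 4, [3])]⟩,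
    ⟨[(0, 1), (1, 2), (1, 3)], [(0, 1), (1, 0), (1, 1), (2, 0)], [(0, 1)], [5], [(2, 1,
      [0]), (3, 0, [1])]⟩,
    ⟨[(1, 2)], [(1, 0), (2, 0), (4, 0)], [], [2, 7], [(3, 0, [1])]⟩,
    ⟨[(1, 3)], [(3, 0), (3, 3), (3, 4)], [(3, 4)], [5], [(6, 3, [4]), (7, 4, [3])]⟩]
  Ta := [((0, 1), 0, 6), ((0, 7), 0, 4), ((3, 8), 0, 5), ((3, 9), 0, 7), ((4, 5), 0, 2), ((4, 6),
    0, 3)]
  Tb := [((0, 1, 7), 0, 6, 4), ((1, 0, 2), 6, 0, 1), ((2, 1, 8), 1, 6, 5), ((3, 8, 9), 0, 5, 7),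
    ((4, 5, 6), 0, 2, 3), ((5, 4, 9), 2, 0, 7), ((6, 4, 8), 3, 0, 5), ((7, 0, 8), 4, 0, 5),
    ((8, 2, 3), 5, 1, 0), ((8, 2, 6), 5, 1, 3), ((8, 2, 7), 5, 1, 4), ((8, 3, 6), 5, 0, 3),
    ((8, 3, 7), 5, 0, 4), ((8, 6, 7), 5, 3, 4), ((9, 3, 5), 7, 0, 2)]
  Tc := []
  Td := [((0, 1), (0, 1), 6), ((0, 1), (0, 7), 4), ((0, 1), (3, 8), 5), ((0, 1), (3, 9), 7), ((0,
    1), (4, 5), 2), ((0, 1), (4, 6), 3), ((1, 0), (2, 1), 6), ((1, 0), (2, 8), 5), ((3, 4),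
    (6, 4), 0), ((3, 4), (6, 8), 5), ((4, 3), (7, 0), 0), ((4, 3), (7, 8), 5)]
  G := [[0, 0x1111a111161111ce821111c1111a11116e846, 0, 0xddc111c12171ce84414b41611c1918b81ec8c,
    0xdda111a177a1e2411a11141c2131ce281888cc], [0, 0x111161111a11116e4811116111161111ae486,
    0, 0x11c411c44cc11c22cce488c888c1, 0x11a44ac11a22ac6218a91ac82c1], [0,
    0x41411264811116112114e4811116118118e48e, 0x1161116111c1e241, 0x11c19141cbbc1e481,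
    0xdda111a177a1e841]]

noncomputable def n3254 : Ent := ⟨e3254, noF, [], [], [(15, 16, [1580044410770988437309982408355971841652082177953823432505702432769, 0])]⟩

def c3254 : PLift (Cov.check n3254.C.D v3254 = true) := ⟨by decide +kernel⟩

def b3254 : PLift (entF (fidx ts) 400 3254 n3254 = true) := ⟨by decide +kernel⟩

theorem g3254 : GoodF (fidx ts) 400 3254 := GoodF.ofV v3254 n3254 c3254.down b3254.down

/-- 4856444:2489/4 -/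
noncomputable def e3255 : SCfg where
  D := {
    a := 7
    L := 10
    kp := 7
    inn := [(0, 1), (1, 0), (1, 2), (1, 3), (1, 4), (2, 1), (2, 5), (3, 1), (3, 6), (4, 1), (5, 2), (6,
      3)]
    mix := [(0, 0), (0, 1), (0, 2), (1, 0), (1, 2), (1, 3), (1, 4), (2, 3), (2, 4), (2, 5), (3, 0), (3,
      4), (3, 6), (3, 7), (4, 2), (4, 3), (4, 8), (5, 3), (5, 5), (5, 9), (6, 6), (6, 7), (6, 9)]
    cl := [0, 6, 1, 0, 0, 2, 3, 4, 7, 5]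
    chq := [(0, 1), (1, 0), (3, 4), (4, 3)]
    rng := [(0, 1), (0, 7), (1, 0), (1, 2), (2, 1), (2, 8), (3, 8), (3, 9), (4, 5), (4, 6), (5, 4), (5,
      9), (6, 4), (6, 9), (7, 0), (7, 9), (8, 2), (8, 3), (9, 3), (9, 5), (9, 6), (9, 7)]
    lev := [] }
  links := [[1, 7, 8, 9], [7, 0, 9, 4, 10, 2, 11, 3], [11, 1, 10, 5, 12], [7, 1, 11, 13, 6, 14], [10, 1,
    9, 15], [12, 2, 10, 16], [14, 3, 13, 16]]
  P := {
    a := 7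
    N := 17
    nb := [898, 3741, 7202, 26818, 34306, 70660, 90120, 16651, 641, 33043, 98358, 12302, 67620, 67656,
      65736, 1552, 29792]
    tri := [(0, 1, 7), (0, 1, 9), (0, 7, 8), (0, 8, 9), (1, 2, 10), (1, 2, 11), (1, 3, 7), (1, 3, 11),
      (1, 4, 9), (1, 4, 10), (2, 5, 10), (2, 5, 12), (2, 11, 12), (3, 6, 13), (3, 6, 14), (3, 7,
      14), (3, 11, 13), (4, 9, 15), (4, 10, 15), (5, 10, 16), (5, 12, 16), (6, 13, 16), (6, 14,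
      16)]
    fin := [0, 0, 0, 3, 0, 0, 6, 0, 8, 9, 0, 0, 12, 3, 14, 15, 6]
    chd := [(0, 9), (3, 14)]
    steps := [(0, 1), (0, 2), (0, 4), (0, 5), (0, 7), (0, 10), (0, 11), (3, 13), (6, 16)] }
  rep := [0, 9, 12, 3, 14, 6, 8, 15]

noncomputable def v3255 : Cov.CovD where
  P := 3
  N := 5
  pl := [1, 5, 8, 9]
  lev := [⟨[], [], [(0, 1)], [6], [(0, 0, [1]), (2, 1, [0])]⟩,
    ⟨[], [(0, 0), (0, 1)], [(0, 0), (0, 1)], [], [(0, 0, [1]), (2, 1, [0]), (3, 0, [1]),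
      (4, 0, [1])]⟩,
    ⟨[(0, 1)], [(1, 0), (1, 1)], [(0, 0)], [2], [(3, 0, [1]), (4, 0, [1])]⟩,
    ⟨[(0, 1), (1, 2)], [(0, 0), (1, 0), (1, 1), (1, 3), (1, 4), (2, 0)], [(0, 0), (0, 3),
      (0, 4), (3, 4)], [], [(0, 0, [1]), (4, 0, [1]), (6, 3, [4]), (7, 4, [3])]⟩,
    ⟨[(0, 1), (1, 2), (1, 3)], [(0, 1), (1, 0), (1, 1), (2, 0)], [(0, 1)], [7], [(2, 1,
      [0]), (3, 0, [1])]⟩,
    ⟨[(1, 2)], [(1, 0), (2, 0), (4, 0)], [], [2, 5], [(3, 0, [1])]⟩,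
    ⟨[(1, 3)], [(3, 0), (3, 3), (3, 4)], [(3, 4)], [5], [(6, 3, [4]), (7, 4, [3])]⟩]
  Ta := [((0, 1), 0, 6), ((0, 7), 0, 4), ((3, 8), 0, 7), ((3, 9), 0, 5), ((4, 5), 0, 2), ((4, 6),
    0, 3)]
  Tb := [((0, 1, 7), 0, 6, 4), ((1, 0, 2), 6, 0, 1), ((2, 1, 8), 1, 6, 7), ((3, 8, 9), 0, 7, 5),
    ((4, 5, 6), 0, 2, 3), ((5, 4, 9), 2, 0, 5), ((6, 4, 9), 3, 0, 5), ((7, 0, 9), 4, 0, 5),
    ((8, 2, 3), 7, 1, 0), ((9, 3, 5), 5, 0, 2), ((9, 3, 6), 5, 0, 3), ((9, 3, 7), 5, 0, 4),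
    ((9, 5, 6), 5, 2, 3), ((9, 5, 7), 5, 2, 4), ((9, 6, 7), 5, 3, 4)]
  Tc := []
  Td := [((0, 1), (0, 1), 6), ((0, 1), (0, 7), 4), ((0, 1), (3, 8), 7), ((0, 1), (3, 9), 5), ((0,
    1), (4, 5), 2), ((0, 1), (4, 6), 3), ((1, 0), (2, 1), 6), ((1, 0), (2, 8), 7), ((3, 4),
    (6, 4), 0), ((3, 4), (6, 9), 5), ((4, 3), (7, 0), 0), ((4, 3), (7, 9), 5)]
  G := [[0, 0x111161146481111a112a84111161111a118e84e, 0, 0x14c123c16481c188c11c194c1b1b1ce48c,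
    0x85a111a152a1e8441a112a16285a182cc], [0, 0x118112114e82112118118e8211228114114c46e, 0,
    0x14c14cc4481c81cc12c21cca8c1, 0x41a14ac4281a81ac12a12aca8c1], [0,
    0x1111a1111a11116e84111161111a1111ce82c, 0x81a111c111a1e241, 0x14c132c16481c188c1,
    0x85a111a152a1e841]]

noncomputable def n3255 : Ent := ⟨e3255, noF, [], [], [(15, 16, [1580044410770988437309982408355971841652082177953823432505702432769, 0])]⟩

def c3255 : PLift (Cov.check n3255.C.D v3255 = true) := ⟨by decide +kernel⟩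

def b3255 : PLift (entF (fidx ts) 400 3255 n3255 = true) := ⟨by decide +kernel⟩

theorem g3255 : GoodF (fidx ts) 400 3255 := GoodF.ofV v3255 n3255 c3255.down b3255.down

/-- 4856444:2489 -/
noncomputable def e3256 : SCfg where
  D := {
    a := 7
    L := 11
    kp := 8
    inn := [(0, 1), (1, 0), (1, 2), (1, 3), (1, 4), (2, 1), (2, 5), (3, 1), (3, 6), (4, 1), (5, 2), (6,
      3)]
    mix := [(0, 0), (0, 1), (0, 2), (1, 0), (1, 2), (1, 3), (1, 4), (2, 3), (2, 4), (2, 5), (3, 0), (3,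
      4), (3, 6), (3, 7), (4, 2), (4, 3), (4, 8), (5, 3), (5, 5), (5, 9), (6, 6), (6, 7), (6, 10)]
    cl := [0, 5, 1, 0, 0, 2, 3, 4, 6, 7, 8]
    chq := [(0, 1), (1, 0), (3, 4), (4, 3)]
    rng := [(0, 1), (0, 7), (1, 0), (1, 2), (2, 1), (2, 8), (3, 8), (3, 9), (4, 5), (4, 6), (5, 4), (5,
      9), (6, 4), (6, 10), (7, 0), (7, 10), (8, 2), (8, 3), (9, 3), (9, 5), (10, 6), (10, 7)]
    lev := [] }
  links := [[1, 7, 8, 9], [7, 0, 9, 4, 10, 2, 11, 3], [11, 1, 10, 5, 12], [7, 1, 11, 13, 6, 14], [10, 1,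
    9, 15], [12, 2, 10, 16], [14, 3, 13, 17]]
  P := {
    a := 7
    N := 18
    nb := [898, 3741, 7202, 26818, 34306, 70660, 155656, 16651, 641, 33043, 98358, 12302, 67620,
      133192, 131272, 1552, 5152, 24640]
    tri := [(0, 1, 7), (0, 1, 9), (0, 7, 8), (0, 8, 9), (1, 2, 10), (1, 2, 11), (1, 3, 7), (1, 3, 11),
      (1, 4, 9), (1, 4, 10), (2, 5, 10), (2, 5, 12), (2, 11, 12), (3, 6, 13), (3, 6, 14), (3, 7,
      14), (3, 11, 13), (4, 9, 15), (4, 10, 15), (5, 10, 16), (5, 12, 16), (6, 13, 17), (6, 14,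
      17)]
    fin := [0, 0, 0, 0, 0, 0, 6, 0, 8, 9, 0, 0, 12, 6, 14, 15, 16, 17]
    chd := [(0, 9), (6, 14)]
    steps := [(0, 1), (0, 2), (0, 3), (0, 4), (0, 5), (0, 7), (0, 10), (0, 11), (6, 13)] }
  rep := [0, 9, 12, 6, 14, 8, 15, 16, 17]

noncomputable def v3256 : Cov.CovD where
  P := 3
  N := 6
  pl := [1, 5, 8, 9, 10]
  lev := [⟨[], [], [(0, 1)], [5], [(0, 0, [1]), (2, 1, [0])]⟩,
    ⟨[], [(0, 0), (0, 1)], [(0, 0), (0, 1)], [], [(0, 0, [1]), (2, 1, [0]), (3, 0, [1]),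
      (4, 0, [1])]⟩,
    ⟨[(0, 1)], [(1, 0), (1, 1)], [(0, 0)], [2], [(3, 0, [1]), (4, 0, [1])]⟩,
    ⟨[(0, 1), (1, 2)], [(0, 0), (1, 0), (1, 1), (1, 3), (1, 4), (2, 0)], [(0, 0), (0, 3),
      (0, 4), (3, 4)], [], [(0, 0, [1]), (4, 0, [1]), (6, 3, [4]), (7, 4, [3])]⟩,
    ⟨[(0, 1), (1, 2), (1, 3)], [(0, 1), (1, 0), (1, 1), (2, 0)], [(0, 1)], [6], [(2, 1,
      [0]), (3, 0, [1])]⟩,
    ⟨[(1, 2)], [(1, 0), (2, 0), (4, 0)], [], [2, 7], [(3, 0, [1])]⟩,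
    ⟨[(1, 3)], [(3, 0), (3, 3), (3, 4)], [(3, 4)], [8], [(6, 3, [4]), (7, 4, [3])]⟩]
  Ta := [((0, 1), 0, 5), ((0, 7), 0, 4), ((3, 8), 0, 6), ((3, 9), 0, 7), ((4, 5), 0, 2), ((4, 6),
    0, 3)]
  Tb := [((0, 1, 7), 0, 5, 4), ((1, 0, 2), 5, 0, 1), ((2, 1, 8), 1, 5, 6), ((3, 8, 9), 0, 6, 7),
    ((4, 5, 6), 0, 2, 3), ((5, 4, 9), 2, 0, 7), ((6, 4, 10), 3, 0, 8), ((7, 0, 10), 4, 0, 8),
    ((8, 2, 3), 6, 1, 0), ((9, 3, 5), 7, 0, 2), ((10, 6, 7), 8, 3, 4)]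
  Tc := []
  Td := [((0, 1), (0, 1), 5), ((0, 1), (0, 7), 4), ((0, 1), (3, 8), 6), ((0, 1), (3, 9), 7), ((0,
    1), (4, 5), 2), ((0, 1), (4, 6), 3), ((1, 0), (2, 1), 5), ((1, 0), (2, 8), 6), ((3, 4),
    (6, 4), 0), ((3, 4), (6, 10), 8), ((4, 3), (7, 0), 0), ((4, 3), (7, 10), 8)]
  G := [[0, 0x312289181c514c86112512314e48318288191c518c86e, 0,
    0x55c14499c13131ca8c11c155c133c1e488c188cc, 0x55a133a16299a188c55a14299a133a1a2cc], [0,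
    0x515163131a649191684a9191631316a85151c4466, 0, 0x55c55cc33c33cc6499c99cc88c1,
    0x55a55ac33a33ac6299a99ac82c1], [0, 0x2131c289191c5151c118e865151631316689191a84ac,
    0x12155a133c1e498a182c1, 0x55c14494133c1a9818cc1, 0x11a155a133a1e288a182c1]]

noncomputable def n3256 : Ent := ⟨e3256, noF, [], [], [(15, 16, [7334685537875745012586738086077695515070955365108989538292687707000833, 0]), (15, 17, [6903326391201334775872065844685381424292761054348340378595029943017473, 0]), (16, 17, [6903326391201334775872065844685381424292761054348340378595029943021569, 0])]⟩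

def c3256 : PLift (Cov.check n3256.C.D v3256 = true) := ⟨by decide +kernel⟩

def b3256 : PLift (entF (fidx ts) 400 3256 n3256 = true) := ⟨by decide +kernel⟩

theorem g3256 : GoodF (fidx ts) 400 3256 := GoodF.ofV v3256 n3256 c3256.down b3256.down

/-- 4856444:2490/2 -/
noncomputable def e3257 : SCfg where
  D := {
    a := 7
    L := 9
    kp := 6
    inn := [(0, 1), (1, 0), (1, 2), (1, 3), (1, 4), (2, 1), (2, 5), (3, 1), (3, 6), (4, 1), (5, 2), (6,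
      3)]
    mix := [(0, 0), (0, 1), (0, 2), (1, 0), (1, 2), (1, 3), (1, 4), (2, 3), (2, 4), (2, 5), (3, 0), (3,
      4), (3, 6), (3, 7), (4, 2), (4, 3), (4, 8), (5, 4), (5, 5), (5, 6), (6, 6), (6, 7), (6, 8)]
    cl := [0, 6, 1, 0, 0, 2, 3, 4, 5]
    chq := [(0, 1), (1, 0), (3, 4), (4, 3)]
    rng := [(0, 1), (0, 7), (1, 0), (1, 2), (2, 1), (2, 8), (3, 5), (3, 8), (4, 6), (5, 3), (5, 6), (6,
      4), (6, 5), (6, 8), (7, 0), (7, 8), (8, 2), (8, 3), (8, 6), (8, 7)]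
    lev := [] }
  links := [[1, 7, 8, 9], [7, 0, 9, 4, 10, 2, 11, 3], [11, 1, 10, 12, 5], [7, 1, 11, 13, 6, 14], [10, 1,
    9, 15], [11, 2, 12, 13], [14, 3, 13, 15]]
  P := {
    a := 7
    N := 16
    nb := [898, 3741, 7202, 26818, 34306, 14340, 57352, 16651, 641, 33043, 36886, 8238, 9252, 39016,
      32968, 26192]
    tri := [(0, 1, 7), (0, 1, 9), (0, 7, 8), (0, 8, 9), (1, 2, 10), (1, 2, 11), (1, 3, 7), (1, 3, 11),
      (1, 4, 9), (1, 4, 10), (2, 5, 11), (2, 5, 12), (2, 10, 12), (3, 6, 13), (3, 6, 14), (3, 7,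
      14), (3, 11, 13), (4, 9, 15), (4, 10, 15), (5, 11, 13), (5, 12, 13), (6, 13, 15), (6, 14,
      15)]
    fin := [0, 0, 0, 0, 0, 0, 6, 0, 8, 9, 0, 0, 12, 6, 14, 15]
    chd := [(0, 9), (6, 14)]
    steps := [(0, 1), (0, 2), (0, 3), (0, 4), (0, 7), (0, 10), (0, 11), (0, 5), (6, 13)] }
  rep := [0, 9, 12, 6, 14, 15, 8]

noncomputable def v3257 : Cov.CovD where
  P := 3
  N := 4
  pl := [1, 5, 8]
  lev := [⟨[], [], [(0, 1)], [6], [(0, 0, [1]), (2, 1, [0])]⟩,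
    ⟨[], [(0, 0), (0, 1)], [(0, 0), (0, 1)], [], [(0, 0, [1]), (2, 1, [0]), (3, 0, [1]),
      (4, 0, [1])]⟩,
    ⟨[(0, 1)], [(1, 0), (1, 1)], [(0, 0)], [2], [(3, 0, [1]), (4, 0, [1])]⟩,
    ⟨[(0, 1), (1, 2)], [(0, 0), (1, 0), (1, 1), (1, 3), (1, 4), (2, 0)], [(0, 0), (0, 3),
      (0, 4), (3, 4)], [], [(0, 0, [1]), (4, 0, [1]), (6, 3, [4]), (7, 4, [3])]⟩,
    ⟨[(0, 1), (1, 2), (1, 3)], [(0, 1), (1, 0), (1, 1), (2, 0)], [(0, 1)], [5], [(2, 1,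
      [0]), (3, 0, [1])]⟩,
    ⟨[(1, 2)], [(1, 0), (2, 0), (2, 3), (3, 0), (3, 3)], [(0, 3)], [2], [(4, 0, [1]), (6,
      3, [4])]⟩,
    ⟨[(1, 3)], [(3, 0), (3, 3), (3, 4), (5, 3)], [(3, 4)], [5], [(6, 3, [4]), (7, 4, [3])]⟩]
  Ta := [((0, 1), 0, 6), ((0, 7), 0, 4), ((3, 5), 0, 2), ((3, 8), 0, 5), ((4, 6), 0, 3)]
  Tb := [((0, 1, 7), 0, 6, 4), ((1, 0, 2), 6, 0, 1), ((2, 1, 8), 1, 6, 5), ((3, 5, 8), 0, 2, 5),
    ((5, 3, 6), 2, 0, 3), ((6, 4, 5), 3, 0, 2), ((6, 4, 8), 3, 0, 5), ((6, 5, 8), 3, 2, 5),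
    ((7, 0, 8), 4, 0, 5), ((8, 2, 3), 5, 1, 0), ((8, 2, 6), 5, 1, 3), ((8, 2, 7), 5, 1, 4),
    ((8, 3, 6), 5, 0, 3), ((8, 3, 7), 5, 0, 4), ((8, 6, 7), 5, 3, 4)]
  Tc := []
  Td := [((0, 1), (0, 1), 6), ((0, 1), (0, 7), 4), ((0, 1), (3, 5), 2), ((0, 1), (3, 8), 5), ((0,
    1), (4, 6), 3), ((1, 0), (2, 1), 6), ((1, 0), (2, 8), 5), ((3, 4), (6, 4), 0), ((3, 4),
    (6, 5), 2), ((3, 4), (6, 8), 5), ((4, 3), (7, 0), 0), ((4, 3), (7, 8), 5)]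
  G := [[0, 0x1118a1114a1111ce4211116141162111ce48a, 0, 0x1417116d818c4181d11b11e48c,
    0xd11111711e844111548911321a2cc], [0, 0x8111c1421111ce82111161481111ae48414482e,
    0x144421818c1481212ce8c1, 0x1441c2111c648118c88c1, 0x1141c2212c628111c88c1], [0,
    0x111161111a1111ce42181161144a11216e48c, 0, 0x3412181d41981ec81, 0x18195a1b21e281]]

noncomputable def n3257 : Ent := ⟨e3257, noF, [], [], []⟩

def c3257 : PLift (Cov.check n3257.C.D v3257 = true) := ⟨by decide +kernel⟩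

def b3257 : PLift (entF (fidx ts) 400 3257 n3257 = true) := ⟨by decide +kernel⟩

theorem g3257 : GoodF (fidx ts) 400 3257 := GoodF.ofV v3257 n3257 c3257.down b3257.down

/-- 4856444:2490/1 -/
noncomputable def e3258 : SCfg where
  D := {
    a := 7
    L := 10
    kp := 7
    inn := [(0, 1), (1, 0), (1, 2), (1, 3), (1, 4), (2, 1), (2, 5), (3, 1), (3, 6), (4, 1), (5, 2), (6,
      3)]
    mix := [(0, 0), (0, 1), (0, 2), (1, 0), (1, 2), (1, 3), (1, 4), (2, 3), (2, 4), (2, 5), (3, 0), (3,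
      4), (3, 6), (3, 7), (4, 2), (4, 3), (4, 8), (5, 4), (5, 5), (5, 9), (6, 6), (6, 7), (6, 8)]
    cl := [0, 6, 1, 0, 0, 2, 3, 4, 5, 7]
    chq := [(0, 1), (1, 0), (3, 4), (4, 3)]
    rng := [(0, 1), (0, 7), (1, 0), (1, 2), (2, 1), (2, 8), (3, 5), (3, 8), (4, 6), (4, 9), (5, 3), (5,
      9), (6, 4), (6, 8), (7, 0), (7, 8), (8, 2), (8, 3), (8, 6), (8, 7), (9, 4), (9, 5)]
    lev := [] }
  links := [[1, 7, 8, 9], [7, 0, 9, 4, 10, 2, 11, 3], [11, 1, 10, 12, 5], [7, 1, 11, 13, 6, 14], [10, 1,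
    9, 15], [11, 2, 12, 16], [14, 3, 13, 15]]
  P := {
    a := 7
    N := 17
    nb := [898, 3741, 7202, 26818, 34306, 71684, 57352, 16651, 641, 33043, 36886, 73774, 66596, 34888,
      32968, 26192, 6176]
    tri := [(0, 1, 7), (0, 1, 9), (0, 7, 8), (0, 8, 9), (1, 2, 10), (1, 2, 11), (1, 3, 7), (1, 3, 11),
      (1, 4, 9), (1, 4, 10), (2, 5, 11), (2, 5, 12), (2, 10, 12), (3, 6, 13), (3, 6, 14), (3, 7,
      14), (3, 11, 13), (4, 9, 15), (4, 10, 15), (5, 11, 16), (5, 12, 16), (6, 13, 15), (6, 14,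
      15)]
    fin := [0, 0, 0, 0, 0, 0, 6, 0, 8, 9, 0, 0, 12, 6, 14, 15, 16]
    chd := [(0, 9), (6, 14)]
    steps := [(0, 1), (0, 2), (0, 3), (0, 4), (0, 5), (0, 7), (0, 10), (0, 11), (6, 13)] }
  rep := [0, 9, 12, 6, 14, 15, 8, 16]

noncomputable def v3258 : Cov.CovD where
  P := 3
  N := 5
  pl := [1, 5, 8, 9]
  lev := [⟨[], [], [(0, 1)], [6], [(0, 0, [1]), (2, 1, [0])]⟩,
    ⟨[], [(0, 0), (0, 1)], [(0, 0), (0, 1)], [], [(0, 0, [1]), (2, 1, [0]), (3, 0, [1]),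
      (4, 0, [1])]⟩,
    ⟨[(0, 1)], [(1, 0), (1, 1)], [(0, 0)], [2], [(3, 0, [1]), (4, 0, [1])]⟩,
    ⟨[(0, 1), (1, 2)], [(0, 0), (1, 0), (1, 1), (1, 3), (1, 4), (2, 0)], [(0, 0), (0, 3),
      (0, 4), (3, 4)], [], [(0, 0, [1]), (4, 0, [1]), (6, 3, [4]), (7, 4, [3])]⟩,
    ⟨[(0, 1), (1, 2), (1, 3)], [(0, 1), (1, 0), (1, 1), (2, 0)], [(0, 1)], [5], [(2, 1,
      [0]), (3, 0, [1])]⟩,
    ⟨[(1, 2)], [(1, 0), (2, 0), (3, 0)], [], [2, 7], [(4, 0, [1])]⟩,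
    ⟨[(1, 3)], [(3, 0), (3, 3), (3, 4)], [(3, 4)], [5], [(6, 3, [4]), (7, 4, [3])]⟩]
  Ta := [((0, 1), 0, 6), ((0, 7), 0, 4), ((3, 5), 0, 2), ((3, 8), 0, 5), ((4, 6), 0, 3), ((4, 9),
    0, 7)]
  Tb := [((0, 1, 7), 0, 6, 4), ((1, 0, 2), 6, 0, 1), ((2, 1, 8), 1, 6, 5), ((3, 5, 8), 0, 2, 5),
    ((4, 6, 9), 0, 3, 7), ((5, 3, 9), 2, 0, 7), ((6, 4, 8), 3, 0, 5), ((7, 0, 8), 4, 0, 5),
    ((8, 2, 3), 5, 1, 0), ((8, 2, 6), 5, 1, 3), ((8, 2, 7), 5, 1, 4), ((8, 3, 6), 5, 0, 3),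
    ((8, 3, 7), 5, 0, 4), ((8, 6, 7), 5, 3, 4), ((9, 4, 5), 7, 0, 2)]
  Tc := []
  Td := [((0, 1), (0, 1), 6), ((0, 1), (0, 7), 4), ((0, 1), (3, 5), 2), ((0, 1), (3, 8), 5), ((0,
    1), (4, 6), 3), ((0, 1), (4, 9), 7), ((1, 0), (2, 1), 6), ((1, 0), (2, 8), 5), ((3, 4),
    (6, 4), 0), ((3, 4), (6, 8), 5), ((4, 3), (7, 0), 0), ((4, 3), (7, 8), 5)]
  G := [[0, 0x1111a111161111ce821111c1111a11116e846, 0, 0x1114d11711ac4d11b1161118c8c,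
    0xd11111711e24111d11b11e28c], [0, 0x8111a1111a1111ce42118161111a1121ce846,
    0x11a44ac4281611cc11c21aca2c1, 0x1141c1121c648111c88c1, 0x1141c428111c2111ca2c1], [0,
    0x8111c1111a1121ae8411116111162111ce48a, 0, 0xddc111c177c1e841, 0xdda111a177a1e241]]

noncomputable def n3258 : Ent := ⟨e3258, noF, [], [], [(16, 13, [1580044429602293643470024699863340111275081426260889765897805991937, 0])]⟩

def c3258 : PLift (Cov.check n3258.C.D v3258 = true) := ⟨by decide +kernel⟩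

def b3258 : PLift (entF (fidx ts) 400 3258 n3258 = true) := ⟨by decide +kernel⟩

theorem g3258 : GoodF (fidx ts) 400 3258 := GoodF.ofV v3258 n3258 c3258.down b3258.down

/-- 4856444:2490/4 -/
noncomputable def e3259 : SCfg where
  D := {
    a := 7
    L := 9
    kp := 6
    inn := [(0, 1), (1, 0), (1, 2), (1, 3), (1, 4), (2, 1), (2, 5), (3, 1), (3, 6), (4, 1), (5, 2), (6,
      3)]
    mix := [(0, 0), (0, 1), (0, 2), (1, 0), (1, 2), (1, 3), (1, 4), (2, 3), (2, 4), (2, 5), (3, 0), (3,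
      4), (3, 6), (3, 7), (4, 2), (4, 3), (4, 8), (5, 4), (5, 5), (5, 6), (6, 5), (6, 6), (6, 7)]
    cl := [0, 5, 1, 0, 0, 2, 3, 4, 6]
    chq := [(0, 1), (1, 0), (3, 4), (4, 3)]
    rng := [(0, 1), (0, 7), (1, 0), (1, 2), (2, 1), (2, 8), (3, 5), (3, 8), (4, 6), (5, 3), (5, 6), (5,
      7), (6, 4), (6, 5), (7, 0), (7, 5), (8, 2), (8, 3)]
    lev := [] }
  links := [[1, 7, 8, 9], [7, 0, 9, 4, 10, 2, 11, 3], [11, 1, 10, 12, 5], [7, 1, 11, 13, 6, 14], [10, 1,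
    9, 15], [11, 2, 12, 13], [14, 3, 13, 12]]
  P := {
    a := 7
    N := 16
    nb := [898, 3741, 7202, 26818, 34306, 14340, 28680, 16651, 641, 33043, 36886, 8238, 25700, 6248,
      4296, 1552]
    tri := [(0, 1, 7), (0, 1, 9), (0, 7, 8), (0, 8, 9), (1, 2, 10), (1, 2, 11), (1, 3, 7), (1, 3, 11),
      (1, 4, 9), (1, 4, 10), (2, 5, 11), (2, 5, 12), (2, 10, 12), (3, 6, 13), (3, 6, 14), (3, 7,
      14), (3, 11, 13), (4, 9, 15), (4, 10, 15), (5, 11, 13), (5, 12, 13), (6, 12, 13), (6, 12,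
      14)]
    fin := [0, 0, 0, 0, 0, 0, 6, 0, 8, 9, 0, 0, 12, 6, 14, 15]
    chd := [(0, 9), (6, 14)]
    steps := [(0, 1), (0, 2), (0, 3), (0, 4), (0, 7), (0, 10), (0, 11), (0, 5), (6, 13)] }
  rep := [0, 9, 12, 6, 14, 8, 15]

noncomputable def v3259 : Cov.CovD where
  P := 3
  N := 4
  pl := [1, 5, 8]
  lev := [⟨[], [], [(0, 1)], [5], [(0, 0, [1]), (2, 1, [0])]⟩,
    ⟨[], [(0, 0), (0, 1)], [(0, 0), (0, 1)], [], [(0, 0, [1]), (2, 1, [0]), (3, 0, [1]),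
      (4, 0, [1])]⟩,
    ⟨[(0, 1)], [(1, 0), (1, 1)], [(0, 0)], [2], [(3, 0, [1]), (4, 0, [1])]⟩,
    ⟨[(0, 1), (1, 2)], [(0, 0), (1, 0), (1, 1), (1, 3), (1, 4), (2, 0)], [(0, 0), (0, 3),
      (0, 4), (3, 4)], [], [(0, 0, [1]), (4, 0, [1]), (6, 3, [4]), (7, 4, [3])]⟩,
    ⟨[(0, 1), (1, 2), (1, 3)], [(0, 1), (1, 0), (1, 1), (2, 0)], [(0, 1)], [6], [(2, 1,
      [0]), (3, 0, [1])]⟩,
    ⟨[(1, 2)], [(1, 0), (2, 0), (2, 3), (3, 0), (3, 3)], [(0, 3)], [2], [(4, 0, [1]), (6,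
      3, [4])]⟩,
    ⟨[(1, 3)], [(3, 0), (3, 3), (3, 4), (5, 3)], [(3, 4)], [2], [(6, 3, [4]), (7, 4, [3])]⟩]
  Ta := [((0, 1), 0, 5), ((0, 7), 0, 4), ((3, 5), 0, 2), ((3, 8), 0, 6), ((4, 6), 0, 3)]
  Tb := [((0, 1, 7), 0, 5, 4), ((1, 0, 2), 5, 0, 1), ((2, 1, 8), 1, 5, 6), ((3, 5, 8), 0, 2, 6),
    ((5, 3, 6), 2, 0, 3), ((5, 3, 7), 2, 0, 4), ((5, 6, 7), 2, 3, 4), ((6, 4, 5), 3, 0, 2),
    ((7, 0, 5), 4, 0, 2), ((8, 2, 3), 6, 1, 0)]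
  Tc := []
  Td := [((0, 1), (0, 1), 5), ((0, 1), (0, 7), 4), ((0, 1), (3, 5), 2), ((0, 1), (3, 8), 6), ((0,
    1), (4, 6), 3), ((1, 0), (2, 1), 5), ((1, 0), (2, 8), 6), ((3, 4), (6, 4), 0), ((3, 4),
    (6, 5), 2), ((4, 3), (7, 0), 0), ((4, 3), (7, 5), 2)]
  G := [[0, 0x8111a4144a1111ce8218116444461111ce486, 0, 0x881141511e8441144811111a8cc,
    0x811111211e8411148881211a8cc], [0, 0x8818c1414a11116e8411116111161111ce48c,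
    0x4444c428888c2222ca8c1, 0x1441c441188c1111ca8c1, 0x1111c2212c628818c82c1], [0,
    0x18116444161111ce48111161144a1111ae486, 0, 0x18144191c1e481, 0x88111a1221e241]]

noncomputable def n3259 : Ent := ⟨e3259, noF, [], [], []⟩

def c3259 : PLift (Cov.check n3259.C.D v3259 = true) := ⟨by decide +kernel⟩

def b3259 : PLift (entF (fidx ts) 400 3259 n3259 = true) := ⟨by decide +kernel⟩

theorem g3259 : GoodF (fidx ts) 400 3259 := GoodF.ofV v3259 n3259 c3259.down b3259.down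

/-- 4856444:2490/3 -/
noncomputable def e3260 : SCfg where
  D := {
    a := 7
    L := 10
    kp := 7
    inn := [(0, 1), (1, 0), (1, 2), (1, 3), (1, 4), (2, 1), (2, 5), (3, 1), (3, 6), (4, 1), (5, 2), (6,
      3)]
    mix := [(0, 0), (0, 1), (0, 2), (1, 0), (1, 2), (1, 3), (1, 4), (2, 3), (2, 4), (2, 5), (3, 0), (3,
      4), (3, 6), (3, 7), (4, 2), (4, 3), (4, 8), (5, 4), (5, 5), (5, 9), (6, 5), (6, 6), (6, 7)]
    cl := [0, 5, 1, 0, 0, 2, 3, 4, 6, 7]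
    chq := [(0, 1), (1, 0), (3, 4), (4, 3)]
    rng := [(0, 1), (0, 7), (1, 0), (1, 2), (2, 1), (2, 8), (3, 5), (3, 8), (4, 6), (4, 9), (5, 3), (5,
      6), (5, 7), (5, 9), (6, 4), (6, 5), (7, 0), (7, 5), (8, 2), (8, 3), (9, 4), (9, 5)]
    lev := [] }
  links := [[1, 7, 8, 9], [7, 0, 9, 4, 10, 2, 11, 3], [11, 1, 10, 12, 5], [7, 1, 11, 13, 6, 14], [10, 1,
    9, 15], [11, 2, 12, 16], [14, 3, 13, 12]]
  P := {
    a := 7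
    N := 17
    nb := [898, 3741, 7202, 26818, 34306, 71684, 28680, 16651, 641, 33043, 36886, 73774, 91236, 6216,
      4296, 1552, 6176]
    tri := [(0, 1, 7), (0, 1, 9), (0, 7, 8), (0, 8, 9), (1, 2, 10), (1, 2, 11), (1, 3, 7), (1, 3, 11),
      (1, 4, 9), (1, 4, 10), (2, 5, 11), (2, 5, 12), (2, 10, 12), (3, 6, 13), (3, 6, 14), (3, 7,
      14), (3, 11, 13), (4, 9, 15), (4, 10, 15), (5, 11, 16), (5, 12, 16), (6, 12, 13), (6, 12,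
      14)]
    fin := [0, 0, 0, 0, 0, 0, 6, 0, 8, 9, 0, 0, 12, 6, 14, 15, 16]
    chd := [(0, 9), (6, 14)]
    steps := [(0, 1), (0, 2), (0, 3), (0, 4), (0, 5), (0, 7), (0, 10), (0, 11), (6, 13)] }
  rep := [0, 9, 12, 6, 14, 8, 15, 16]

noncomputable def v3260 : Cov.CovD where
  P := 3
  N := 5
  pl := [1, 5, 8, 9]
  lev := [⟨[], [], [(0, 1)], [5], [(0, 0, [1]), (2, 1, [0])]⟩,
    ⟨[], [(0, 0), (0, 1)], [(0, 0), (0, 1)], [], [(0, 0, [1]), (2, 1, [0]), (3, 0, [1]),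
      (4, 0, [1])]⟩,
    ⟨[(0, 1)], [(1, 0), (1, 1)], [(0, 0)], [2], [(3, 0, [1]), (4, 0, [1])]⟩,
    ⟨[(0, 1), (1, 2)], [(0, 0), (1, 0), (1, 1), (1, 3), (1, 4), (2, 0)], [(0, 0), (0, 3),
      (0, 4), (3, 4)], [], [(0, 0, [1]), (4, 0, [1]), (6, 3, [4]), (7, 4, [3])]⟩,
    ⟨[(0, 1), (1, 2), (1, 3)], [(0, 1), (1, 0), (1, 1), (2, 0)], [(0, 1)], [6], [(2, 1,
      [0]), (3, 0, [1])]⟩,
    ⟨[(1, 2)], [(1, 0), (2, 0), (3, 0)], [], [2, 7], [(4, 0, [1])]⟩,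
    ⟨[(1, 3)], [(3, 0), (3, 3), (3, 4)], [(3, 4)], [2], [(6, 3, [4]), (7, 4, [3])]⟩]
  Ta := [((0, 1), 0, 5), ((0, 7), 0, 4), ((3, 5), 0, 2), ((3, 8), 0, 6), ((4, 6), 0, 3), ((4, 9),
    0, 7)]
  Tb := [((0, 1, 7), 0, 5, 4), ((1, 0, 2), 5, 0, 1), ((2, 1, 8), 1, 5, 6), ((3, 5, 8), 0, 2, 6),
    ((4, 6, 9), 0, 3, 7), ((5, 3, 6), 2, 0, 3), ((5, 3, 7), 2, 0, 4), ((5, 3, 9), 2, 0, 7),
    ((5, 6, 7), 2, 3, 4), ((5, 6, 9), 2, 3, 7), ((5, 7, 9), 2, 4, 7), ((6, 4, 5), 3, 0, 2),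
    ((7, 0, 5), 4, 0, 2), ((8, 2, 3), 6, 1, 0), ((9, 4, 5), 7, 0, 2)]
  Tc := []
  Td := [((0, 1), (0, 1), 5), ((0, 1), (0, 7), 4), ((0, 1), (3, 5), 2), ((0, 1), (3, 8), 6), ((0,
    1), (4, 6), 3), ((0, 1), (4, 9), 7), ((1, 0), (2, 1), 5), ((1, 0), (2, 8), 6), ((3, 4),
    (6, 4), 0), ((3, 4), (6, 5), 2), ((4, 3), (7, 0), 0), ((4, 3), (7, 5), 2)]
  G := [[0, 0x1111a1111a1111ce841111a41181a1111aac4a, 0, 0x811111511e844111116881188cc,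
    0x3111116281188c111911211e28c], [0, 0x8111a414161111ce8241116111166111168c8a,
    0x44a44cc4488688ac22c22cca8c1, 0x1141111c1111ce481884c1, 0x1111c1121c621111c88c1], [0,
    0x1181a1111c1111ce42118161111a1111ce82c, 0, 0x44c111c16488c188c1, 0x88a111a122a1e841]]

noncomputable def n3260 : Ent := ⟨e3260, noF, [], [], [(16, 13, [1580044429602293643470024699863340111275081426260889765897806000129, 0])]⟩

def c3260 : PLift (Cov.check n3260.C.D v3260 = true) := ⟨by decide +kernel⟩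

def b3260 : PLift (entF (fidx ts) 400 3260 n3260 = true) := ⟨by decide +kernel⟩

theorem g3260 : GoodF (fidx ts) 400 3260 := GoodF.ofV v3260 n3260 c3260.down b3260.down

/-- 4856444:2490/5 -/
noncomputable def e3261 : SCfg where
  D := {
    a := 7
    L := 10
    kp := 7
    inn := [(0, 1), (1, 0), (1, 2), (1, 3), (1, 4), (2, 1), (2, 5), (3, 1), (3, 6), (4, 1), (5, 2), (6,
      3)]
    mix := [(0, 0), (0, 1), (0, 2), (1, 0), (1, 2), (1, 3), (1, 4), (2, 3), (2, 4), (2, 5), (3, 0), (3,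
      4), (3, 6), (3, 7), (4, 2), (4, 3), (4, 8), (5, 4), (5, 5), (5, 6), (6, 6), (6, 7), (6, 9)]
    cl := [0, 5, 1, 0, 0, 2, 3, 4, 6, 7]
    chq := [(0, 1), (1, 0), (3, 4), (4, 3)]
    rng := [(0, 1), (0, 7), (1, 0), (1, 2), (2, 1), (2, 8), (3, 5), (3, 8), (4, 6), (5, 3), (5, 6), (6,
      4), (6, 5), (6, 9), (7, 0), (7, 9), (8, 2), (8, 3), (9, 6), (9, 7)]
    lev := [] }
  links := [[1, 7, 8, 9], [7, 0, 9, 4, 10, 2, 11, 3], [11, 1, 10, 12, 5], [7, 1, 11, 13, 6, 14], [10, 1,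
    9, 15], [11, 2, 12, 13], [14, 3, 13, 16]]
  P := {
    a := 7
    N := 17
    nb := [898, 3741, 7202, 26818, 34306, 14340, 90120, 16651, 641, 33043, 36886, 8238, 9252, 71784,
      65736, 1552, 24640]
    tri := [(0, 1, 7), (0, 1, 9), (0, 7, 8), (0, 8, 9), (1, 2, 10), (1, 2, 11), (1, 3, 7), (1, 3, 11),
      (1, 4, 9), (1, 4, 10), (2, 5, 11), (2, 5, 12), (2, 10, 12), (3, 6, 13), (3, 6, 14), (3, 7,
      14), (3, 11, 13), (4, 9, 15), (4, 10, 15), (5, 11, 13), (5, 12, 13), (6, 13, 16), (6, 14,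
      16)]
    fin := [0, 0, 0, 0, 0, 0, 6, 0, 8, 9, 0, 0, 12, 6, 14, 15, 16]
    chd := [(0, 9), (6, 14)]
    steps := [(0, 1), (0, 2), (0, 3), (0, 4), (0, 7), (0, 10), (0, 11), (0, 5), (6, 13)] }
  rep := [0, 9, 12, 6, 14, 8, 15, 16]

noncomputable def v3261 : Cov.CovD where
  P := 3
  N := 5
  pl := [1, 5, 8, 9]
  lev := [⟨[], [], [(0, 1)], [5], [(0, 0, [1]), (2, 1, [0])]⟩,
    ⟨[], [(0, 0), (0, 1)], [(0, 0), (0, 1)], [], [(0, 0, [1]), (2, 1, [0]), (3, 0, [1]),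
      (4, 0, [1])]⟩,
    ⟨[(0, 1)], [(1, 0), (1, 1)], [(0, 0)], [2], [(3, 0, [1]), (4, 0, [1])]⟩,
    ⟨[(0, 1), (1, 2)], [(0, 0), (1, 0), (1, 1), (1, 3), (1, 4), (2, 0)], [(0, 0), (0, 3),
      (0, 4), (3, 4)], [], [(0, 0, [1]), (4, 0, [1]), (6, 3, [4]), (7, 4, [3])]⟩,
    ⟨[(0, 1), (1, 2), (1, 3)], [(0, 1), (1, 0), (1, 1), (2, 0)], [(0, 1)], [6], [(2, 1,
      [0]), (3, 0, [1])]⟩,
    ⟨[(1, 2)], [(1, 0), (2, 0), (2, 3), (3, 0), (3, 3)], [(0, 3)], [2], [(4, 0, [1]), (6,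
      3, [4])]⟩,
    ⟨[(1, 3)], [(3, 0), (3, 3), (3, 4), (5, 3)], [(3, 4)], [7], [(6, 3, [4]), (7, 4, [3])]⟩]
  Ta := [((0, 1), 0, 5), ((0, 7), 0, 4), ((3, 5), 0, 2), ((3, 8), 0, 6), ((4, 6), 0, 3)]
  Tb := [((0, 1, 7), 0, 5, 4), ((1, 0, 2), 5, 0, 1), ((2, 1, 8), 1, 5, 6), ((3, 5, 8), 0, 2, 6),
    ((5, 3, 6), 2, 0, 3), ((6, 4, 5), 3, 0, 2), ((6, 4, 9), 3, 0, 7), ((6, 5, 9), 3, 2, 7),
    ((7, 0, 9), 4, 0, 7), ((8, 2, 3), 6, 1, 0), ((9, 6, 7), 7, 3, 4)]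
  Tc := []
  Td := [((0, 1), (0, 1), 5), ((0, 1), (0, 7), 4), ((0, 1), (3, 5), 2), ((0, 1), (3, 8), 6), ((0,
    1), (4, 6), 3), ((1, 0), (2, 1), 5), ((1, 0), (2, 8), 6), ((3, 4), (6, 4), 0), ((3, 4),
    (6, 5), 2), ((3, 4), (6, 9), 7), ((4, 3), (7, 0), 0), ((4, 3), (7, 9), 7)]
  G := [[0, 0x919863131aa8545164869198a3131aa85154c486c, 0, 0x5413116491188c51144911311a8cc,
    0x51142981321a2c5113116291182cc], [0, 0x9891a3131aa4545164463131a249198c5154cc86a,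
    0x4454c429898c1483232ce8c1, 0x5451c449898c3131ca8c1, 0x1145151c3131ce29888c88c1], [0,
    0x3131a249198a5451cc863131c249898c54516c4ac, 0, 0x54133c16498184c1, 0x321255a14a98188c1]]

noncomputable def n3261 : Ent := ⟨e3261, noF, [], [], [(15, 16, [1580044410770988437309982408355971841652082177953823432505702453249, 0]), (12, 16, [1580044410770988437309982408355971841652082177953823432505702461441, 0])]⟩

def c3261 : PLift (Cov.check n3261.C.D v3261 = true) := ⟨by decide +kernel⟩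

def b3261 : PLift (entF (fidx ts) 400 3261 n3261 = true) := ⟨by decide +kernel⟩

theorem g3261 : GoodF (fidx ts) 400 3261 := GoodF.ofV v3261 n3261 c3261.down b3261.down

/-- 4856444:2490 -/
noncomputable def e3262 : SCfg where
  D := {
    a := 7
    L := 11
    kp := 8
    inn := [(0, 1), (1, 0), (1, 2), (1, 3), (1, 4), (2, 1), (2, 5), (3, 1), (3, 6), (4, 1), (5, 2), (6,
      3)]
    mix := [(0, 0), (0, 1), (0, 2), (1, 0), (1, 2), (1, 3), (1, 4), (2, 3), (2, 4), (2, 5), (3, 0), (3,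
      4), (3, 6), (3, 7), (4, 2), (4, 3), (4, 8), (5, 4), (5, 5), (5, 9), (6, 6), (6, 7), (6, 10)]
    cl := [0, 5, 1, 0, 0, 2, 3, 4, 6, 7, 8]
    chq := [(0, 1), (1, 0), (3, 4), (4, 3)]
    rng := [(0, 1), (0, 7), (1, 0), (1, 2), (2, 1), (2, 8), (3, 5), (3, 8), (4, 6), (4, 9), (5, 3), (5,
      9), (6, 4), (6, 10), (7, 0), (7, 10), (8, 2), (8, 3), (9, 4), (9, 5), (10, 6), (10, 7)]
    lev := [] }
  links := [[1, 7, 8, 9], [7, 0, 9, 4, 10, 2, 11, 3], [11, 1, 10, 12, 5], [7, 1, 11, 13, 6, 14], [10, 1,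
    9, 15], [11, 2, 12, 16], [14, 3, 13, 17]]
  P := {
    a := 7
    N := 18
    nb := [898, 3741, 7202, 26818, 34306, 71684, 155656, 16651, 641, 33043, 36886, 73774, 66596,
      133192, 131272, 1552, 6176, 24640]
    tri := [(0, 1, 7), (0, 1, 9), (0, 7, 8), (0, 8, 9), (1, 2, 10), (1, 2, 11), (1, 3, 7), (1, 3, 11),
      (1, 4, 9), (1, 4, 10), (2, 5, 11), (2, 5, 12), (2, 10, 12), (3, 6, 13), (3, 6, 14), (3, 7,
      14), (3, 11, 13), (4, 9, 15), (4, 10, 15), (5, 11, 16), (5, 12, 16), (6, 13, 17), (6, 14,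
      17)]
    fin := [0, 0, 0, 0, 0, 0, 6, 0, 8, 9, 0, 0, 12, 6, 14, 15, 16, 17]
    chd := [(0, 9), (6, 14)]
    steps := [(0, 1), (0, 2), (0, 3), (0, 4), (0, 5), (0, 7), (0, 10), (0, 11), (6, 13)] }
  rep := [0, 9, 12, 6, 14, 8, 15, 16, 17]

noncomputable def v3262 : Cov.CovD where
  P := 3
  N := 6
  pl := [1, 5, 8, 9, 10]
  lev := [⟨[], [], [(0, 1)], [5], [(0, 0, [1]), (2, 1, [0])]⟩,
    ⟨[], [(0, 0), (0, 1)], [(0, 0), (0, 1)], [], [(0, 0, [1]), (2, 1, [0]), (3, 0, [1]),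
      (4, 0, [1])]⟩,
    ⟨[(0, 1)], [(1, 0), (1, 1)], [(0, 0)], [2], [(3, 0, [1]), (4, 0, [1])]⟩,
    ⟨[(0, 1), (1, 2)], [(0, 0), (1, 0), (1, 1), (1, 3), (1, 4), (2, 0)], [(0, 0), (0, 3),
      (0, 4), (3, 4)], [], [(0, 0, [1]), (4, 0, [1]), (6, 3, [4]), (7, 4, [3])]⟩,
    ⟨[(0, 1), (1, 2), (1, 3)], [(0, 1), (1, 0), (1, 1), (2, 0)], [(0, 1)], [6], [(2, 1,
      [0]), (3, 0, [1])]⟩,
    ⟨[(1, 2)], [(1, 0), (2, 0), (3, 0)], [], [2, 7], [(4, 0, [1])]⟩,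
    ⟨[(1, 3)], [(3, 0), (3, 3), (3, 4)], [(3, 4)], [8], [(6, 3, [4]), (7, 4, [3])]⟩]
  Ta := [((0, 1), 0, 5), ((0, 7), 0, 4), ((3, 5), 0, 2), ((3, 8), 0, 6), ((4, 6), 0, 3), ((4, 9),
    0, 7)]
  Tb := [((0, 1, 7), 0, 5, 4), ((1, 0, 2), 5, 0, 1), ((2, 1, 8), 1, 5, 6), ((3, 5, 8), 0, 2, 6),
    ((4, 6, 9), 0, 3, 7), ((5, 3, 9), 2, 0, 7), ((6, 4, 10), 3, 0, 8), ((7, 0, 10), 4, 0, 8),
    ((8, 2, 3), 6, 1, 0), ((9, 4, 5), 7, 0, 2), ((10, 6, 7), 8, 3, 4)]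
  Tc := []
  Td := [((0, 1), (0, 1), 5), ((0, 1), (0, 7), 4), ((0, 1), (3, 5), 2), ((0, 1), (3, 8), 6), ((0,
    1), (4, 6), 3), ((0, 1), (4, 9), 7), ((1, 0), (2, 1), 5), ((1, 0), (2, 8), 6), ((3, 4),
    (6, 4), 0), ((3, 4), (6, 10), 8), ((4, 3), (7, 0), 0), ((4, 3), (7, 10), 8)]
  G := [[0, 0x312289181c514c86112512314e48318288191c518c86e, 0, 0x5113116491184c5113116491188cc,
    0x5113116291188c51142911311a8cc], [0, 0x2142491916514114e8a5183126485124491916318a8ce,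
    0x54a556c33a336c6299699ac148c8c1, 0x5151c449191c3131ca8c1, 0x5151c3131c629191c88c1], [0,
    0x5151631316649191688c5151631316689191a88cc, 0, 0x55c14499c133c1a8c1,
    0x55a14299a133a1a8c1]]

noncomputable def n3262 : Ent := ⟨e3262, noF, [], [], [(15, 17, [6903326391201334775872065844685381424292761054348340378595029943033857, 0]), (12, 17, [6903326391201334775872065844685381424292761054348340378595029943042049, 0]), (16, 13, [7334685537894576317792898128369202883340578364357296604626079810572289, 0])]⟩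

def c3262 : PLift (Cov.check n3262.C.D v3262 = true) := ⟨by decide +kernel⟩

def b3262 : PLift (entF (fidx ts) 400 3262 n3262 = true) := ⟨by decide +kernel⟩

theorem g3262 : GoodF (fidx ts) 400 3262 := GoodF.ofV v3262 n3262 c3262.down b3262.down

/-- 4594454:2494/3 -/
noncomputable def e3263 : SCfg where
  D := {
    a := 7
    L := 8
    kp := 5
    inn := [(0, 1), (0, 2), (1, 0), (2, 0), (2, 3), (2, 4), (2, 6), (3, 2), (4, 2), (4, 5), (5, 4), (6,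
      2)]
    mix := [(0, 0), (0, 1), (1, 0), (1, 1), (1, 2), (1, 3), (2, 0), (2, 1), (2, 4), (2, 5), (2, 6), (3,
      0), (3, 3), (3, 4), (4, 5), (4, 6), (5, 2), (5, 5), (5, 6), (5, 7), (6, 1), (6, 2), (6, 6)]
    cl := [0, 0, 1, 2, 4, 3, 3, 5]
    chq := [(0, 3), (0, 4), (3, 0), (4, 0)]
    rng := [(0, 3), (1, 2), (2, 1), (2, 3), (2, 6), (2, 7), (3, 0), (3, 2), (3, 4), (4, 3), (4, 5), (5,
      4), (5, 7), (6, 2), (7, 2), (7, 5)]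
    lev := [] }
  links := [[1, 7, 2, 8], [7, 0, 8, 9, 10], [8, 0, 7, 3, 11, 12, 4, 13, 6], [11, 2, 7, 10], [13, 2, 12,
    5], [13, 4, 12, 14, 9], [8, 2, 13, 9]]
  P := {
    a := 7
    N := 15
    nb := [390, 1921, 14809, 3204, 12324, 29200, 8964, 1039, 583, 25954, 2698, 5132, 18484, 628, 4640]
    tri := [(0, 1, 7), (0, 1, 8), (0, 2, 7), (0, 2, 8), (1, 7, 10), (1, 8, 9), (1, 9, 10), (2, 3, 7),
      (2, 3, 11), (2, 4, 12), (2, 4, 13), (2, 6, 8), (2, 6, 13), (2, 11, 12), (3, 7, 10), (3, 10,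
      11), (4, 5, 12), (4, 5, 13), (5, 9, 13), (5, 9, 14), (5, 12, 14), (6, 8, 9), (6, 9, 13)]
    fin := [0, 0, 0, 0, 0, 5, 0, 0, 0, 9, 10, 11, 5, 5, 14]
    chd := [(0, 5), (0, 11)]
    steps := [(0, 1), (0, 2), (0, 4), (0, 7), (0, 3), (0, 8), (0, 6), (5, 12), (5, 13)] }
  rep := [0, 9, 10, 5, 11, 14]

noncomputable def v3263 : Cov.CovD where
  P := 3
  N := 3
  pl := [2, 3, 7]
  lev := [⟨[], [], [(0, 0)], [], [(0, 0, [3, 4]), (1, 0, [3, 4])]⟩,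
    ⟨[], [(0, 0)], [(0, 0)], [1, 2], [(0, 0, [3, 4]), (1, 0, [3, 4])]⟩,
    ⟨[(0, 1)], [(0, 0), (0, 3), (0, 4), (1, 0)], [(0, 0), (0, 3), (0, 4), (3, 3), (3, 4)],
      [], [(0, 0, [3, 4]), (1, 0, [3, 4]), (4, 4, [0]), (5, 3, [0]), (6, 3, [0])]⟩,
    ⟨[(0, 2)], [(0, 0), (1, 0), (2, 0), (2, 3), (2, 4)], [(0, 4)], [2], [(0, 0, [3, 4]),
      (4, 4, [0])]⟩,
    ⟨[(0, 2), (2, 3)], [(2, 0), (2, 3), (2, 4)], [(3, 3)], [], [(5, 3, [0]), (6, 3, [0])]⟩,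
    ⟨[(2, 4)], [(2, 3), (4, 3)], [(3, 3)], [1, 5], [(5, 3, [0]), (6, 3, [0])]⟩,
    ⟨[(0, 2), (2, 3), (2, 4)], [(0, 0), (1, 0), (2, 0), (2, 3), (2, 4), (4, 3), (5, 3)],
      [(0, 3)], [1], [(1, 0, [3, 4]), (6, 3, [0])]⟩]
  Ta := [((0, 3), 0, 2), ((1, 2), 0, 1), ((5, 4), 3, 4), ((5, 7), 3, 5), ((6, 2), 3, 1)]
  Tb := [((2, 1, 3), 1, 0, 2), ((2, 1, 6), 1, 0, 3), ((2, 1, 7), 1, 0, 5), ((2, 3, 6), 1, 2, 3),
    ((2, 3, 7), 1, 2, 5), ((2, 6, 7), 1, 3, 5), ((3, 0, 2), 2, 0, 1), ((3, 0, 4), 2, 0, 4),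
    ((3, 2, 4), 2, 1, 4), ((4, 3, 5), 4, 2, 3), ((5, 4, 7), 3, 4, 5), ((7, 2, 5), 5, 1, 3)]
  Tc := [(0, 3, 4)]
  Td := [((0, 3), (0, 3), 2), ((0, 3), (1, 2), 1), ((0, 4), (0, 3), 2), ((0, 4), (1, 2), 1), ((3,
    0), (5, 4), 4), ((3, 0), (5, 7), 5), ((3, 0), (6, 2), 1), ((4, 0), (4, 3), 2), ((4, 0),
    (4, 5), 3)]
  G := [[0, 0, 0x44918811d12a481514446, 0x888d248885ac284, 0x41528888411d2684192888a], [0, 0,
    0x111d12241191811514c4a, 0x444d2841d2c244, 0x44c11958115288149a4411952e84], [0,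
    0x424e18828e14884e11e82, 0, 0x888d2488d29244, 0x4492888521884481d2e84], [0,
    0x444e11242e1168842e1184a, 0, 0x844d2888d2c288, 0x889445c2284448118892b44511c8a]]

noncomputable def n3263 : Ent := ⟨e3263, noF, [], [], []⟩

def c3263 : PLift (Cov.check n3263.C.D v3263 = true) := ⟨by decide +kernel⟩

def b3263 : PLift (entF (fidx ts) 400 3263 n3263 = true) := ⟨by decide +kernel⟩

theorem g3263 : GoodF (fidx ts) 400 3263 := GoodF.ofV v3263 n3263 c3263.down b3263.down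

/-- 4594454:2494/2 -/
noncomputable def e3264 : SCfg where
  D := {
    a := 7
    L := 9
    kp := 6
    inn := [(0, 1), (0, 2), (1, 0), (2, 0), (2, 3), (2, 4), (2, 6), (3, 2), (4, 2), (4, 5), (5, 4), (6,
      2)]
    mix := [(0, 0), (0, 1), (1, 0), (1, 1), (1, 2), (1, 3), (2, 0), (2, 1), (2, 4), (2, 5), (2, 6), (3,
      0), (3, 3), (3, 4), (4, 5), (4, 6), (5, 5), (5, 6), (5, 7), (5, 8), (6, 1), (6, 6), (6, 8)]
    cl := [0, 0, 5, 3, 2, 1, 1, 6, 4]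
    chq := [(0, 1), (0, 2), (1, 0), (2, 0)]
    rng := [(0, 3), (1, 2), (1, 8), (2, 1), (2, 3), (3, 0), (3, 2), (3, 4), (4, 3), (4, 5), (5, 4), (5,
      7), (6, 8), (7, 5), (7, 8), (8, 1), (8, 6), (8, 7)]
    lev := [] }
  links := [[1, 7, 2, 8], [7, 0, 8, 9, 10], [8, 0, 7, 3, 11, 12, 4, 13, 6], [11, 2, 7, 10], [13, 2, 12,
    5], [13, 4, 12, 14, 15], [8, 2, 13, 15]]
  P := {
    a := 7
    N := 16
    nb := [390, 1921, 14809, 3204, 12324, 61456, 41220, 1039, 33351, 1282, 2698, 5132, 18484, 32884,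
      36896, 24928]
    tri := [(0, 1, 7), (0, 1, 8), (0, 2, 7), (0, 2, 8), (1, 7, 10), (1, 8, 9), (1, 9, 10), (2, 3, 7),
      (2, 3, 11), (2, 4, 12), (2, 4, 13), (2, 6, 8), (2, 6, 13), (2, 11, 12), (3, 7, 10), (3, 10,
      11), (4, 5, 12), (4, 5, 13), (5, 12, 14), (5, 13, 15), (5, 14, 15), (6, 8, 15), (6, 13, 15)]
    fin := [0, 0, 0, 0, 0, 5, 0, 0, 0, 9, 10, 11, 5, 5, 14, 15]
    chd := [(0, 5), (0, 11)]
    steps := [(0, 1), (0, 2), (0, 4), (0, 6), (0, 7), (0, 3), (0, 8), (5, 12), (5, 13)] }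
  rep := [0, 5, 11, 10, 15, 9, 14]

noncomputable def v3264 : Cov.CovD where
  P := 3
  N := 4
  pl := [2, 3, 7, 8]
  lev := [⟨[], [], [(0, 0)], [], [(0, 0, [1, 2]), (1, 0, [1, 2])]⟩,
    ⟨[], [(0, 0)], [(0, 0)], [3, 5], [(0, 0, [1, 2]), (1, 0, [1, 2])]⟩,
    ⟨[(0, 1)], [(0, 0), (0, 1), (0, 2), (1, 0)], [(0, 0), (0, 1), (0, 2), (1, 1), (1, 2)],
      [], [(0, 0, [1, 2]), (1, 0, [1, 2]), (4, 2, [0]), (5, 1, [0]), (6, 1, [0])]⟩,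
    ⟨[(0, 2)], [(0, 0), (1, 0), (2, 0), (2, 1), (2, 2)], [(0, 2)], [3], [(0, 0, [1, 2]),
      (4, 2, [0])]⟩,
    ⟨[(0, 2), (2, 3)], [(2, 0), (2, 1), (2, 2)], [(1, 1)], [], [(5, 1, [0]), (6, 1, [0])]⟩,
    ⟨[(2, 4)], [(2, 1), (4, 1)], [(1, 1)], [4, 6], [(5, 1, [0]), (6, 1, [0])]⟩,
    ⟨[(0, 2), (2, 3), (2, 4)], [(0, 0), (1, 0), (2, 0), (2, 1), (2, 2), (4, 1), (5, 1)],
      [(0, 1)], [4], [(1, 0, [1, 2]), (6, 1, [0])]⟩]
  Ta := [((0, 3), 0, 3), ((1, 2), 0, 5), ((1, 8), 0, 4), ((5, 4), 1, 2), ((5, 7), 1, 6), ((6, 8),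
    1, 4)]
  Tb := [((1, 2, 8), 0, 5, 4), ((2, 1, 3), 5, 0, 3), ((3, 0, 2), 3, 0, 5), ((3, 0, 4), 3, 0, 2),
    ((3, 2, 4), 3, 5, 2), ((4, 3, 5), 2, 3, 1), ((5, 4, 7), 1, 2, 6), ((7, 5, 8), 6, 1, 4),
    ((8, 1, 6), 4, 0, 1), ((8, 1, 7), 4, 0, 6), ((8, 6, 7), 4, 1, 6)]
  Tc := [(0, 1, 2)]
  Td := [((0, 1), (0, 3), 3), ((0, 1), (1, 2), 5), ((0, 1), (1, 8), 4), ((0, 2), (0, 3), 3), ((0,
    2), (1, 2), 5), ((0, 2), (1, 8), 4), ((1, 0), (5, 4), 2), ((1, 0), (5, 7), 6), ((1, 0),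
    (6, 8), 4), ((2, 0), (4, 3), 3), ((2, 0), (4, 5), 1)]
  G := [[0, 0x842e218842e4184482aa18e4, 0x121d184111d148121d428e4,
    0x111d884221d144841d1112d8c4e2, 0x222d488211d1222d4a8121d428e2], [0,
    0x842e218842e448842e218e4, 0x811d884811d448111d824e4, 0, 0x111d488111d1841d4a8111d428e4],
    [0, 0x842e418842e248842e218e2, 0x221d184221d144241d428e8, 0x222d184822d148822d418e4,
    0x222d188222d118842d118e2], [0, 0x8a2e814842e4488a2e214e4, 0x141d884141d448141d128e8, 0,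
    0x84cd41884cd11884cd118e4]]

noncomputable def n3264 : Ent := ⟨e3264, noF, [], [], [(15, 9, [360035742630636841345797572106540607504961255222653860056920065, 0])]⟩

def c3264 : PLift (Cov.check n3264.C.D v3264 = true) := ⟨by decide +kernel⟩

def b3264 : PLift (entF (fidx ts) 400 3264 n3264 = true) := ⟨by decide +kernel⟩

theorem g3264 : GoodF (fidx ts) 400 3264 := GoodF.ofV v3264 n3264 c3264.down b3264.down

/-- 4594454:2494/4 -/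
noncomputable def e3265 : SCfg where
  D := {
    a := 7
    L := 9
    kp := 6
    inn := [(0, 1), (0, 2), (1, 0), (2, 0), (2, 3), (2, 4), (2, 6), (3, 2), (4, 2), (4, 5), (5, 4), (6,
      2)]
    mix := [(0, 0), (0, 1), (1, 0), (1, 1), (1, 2), (1, 3), (2, 0), (2, 1), (2, 4), (2, 5), (2, 6), (3,
      0), (3, 3), (3, 4), (4, 5), (4, 6), (5, 2), (5, 5), (5, 6), (5, 7), (6, 1), (6, 6), (6, 8)]
    cl := [0, 0, 1, 2, 4, 3, 3, 5, 6]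
    chq := [(0, 3), (0, 4), (3, 0), (4, 0)]
    rng := [(0, 3), (1, 2), (1, 8), (2, 1), (2, 3), (2, 6), (2, 7), (3, 0), (3, 2), (3, 4), (4, 3), (4,
      5), (5, 4), (5, 7), (6, 2), (6, 8), (7, 2), (7, 5), (8, 1), (8, 6)]
    lev := [] }
  links := [[1, 7, 2, 8], [7, 0, 8, 9, 10], [8, 0, 7, 3, 11, 12, 4, 13, 6], [11, 2, 7, 10], [13, 2, 12,
    5], [13, 4, 12, 14, 9], [8, 2, 13, 15]]
  P := {
    a := 7
    N := 16
    nb := [390, 1921, 14809, 3204, 12324, 29200, 41220, 1039, 33351, 25890, 2698, 5132, 18484, 33396,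
      4640, 8512]
    tri := [(0, 1, 7), (0, 1, 8), (0, 2, 7), (0, 2, 8), (1, 7, 10), (1, 8, 9), (1, 9, 10), (2, 3, 7),
      (2, 3, 11), (2, 4, 12), (2, 4, 13), (2, 6, 8), (2, 6, 13), (2, 11, 12), (3, 7, 10), (3, 10,
      11), (4, 5, 12), (4, 5, 13), (5, 9, 13), (5, 9, 14), (5, 12, 14), (6, 8, 15), (6, 13, 15)]
    fin := [0, 0, 0, 0, 0, 5, 0, 0, 0, 9, 10, 11, 5, 5, 14, 15]
    chd := [(0, 5), (0, 11)]
    steps := [(0, 1), (0, 2), (0, 4), (0, 6), (0, 7), (0, 3), (0, 8), (5, 12), (5, 13)] }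
  rep := [0, 9, 10, 5, 11, 14, 15]

noncomputable def v3265 : Cov.CovD where
  P := 3
  N := 4
  pl := [2, 3, 7, 8]
  lev := [⟨[], [], [(0, 0)], [], [(0, 0, [3, 4]), (1, 0, [3, 4])]⟩,
    ⟨[], [(0, 0)], [(0, 0)], [1, 2], [(0, 0, [3, 4]), (1, 0, [3, 4])]⟩,
    ⟨[(0, 1)], [(0, 0), (0, 3), (0, 4), (1, 0)], [(0, 0), (0, 3), (0, 4), (3, 3), (3, 4)],
      [], [(0, 0, [3, 4]), (1, 0, [3, 4]), (4, 4, [0]), (5, 3, [0]), (6, 3, [0])]⟩,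
    ⟨[(0, 2)], [(0, 0), (1, 0), (2, 0), (2, 3), (2, 4)], [(0, 4)], [2], [(0, 0, [3, 4]),
      (4, 4, [0])]⟩,
    ⟨[(0, 2), (2, 3)], [(2, 0), (2, 3), (2, 4)], [(3, 3)], [], [(5, 3, [0]), (6, 3, [0])]⟩,
    ⟨[(2, 4)], [(2, 3), (4, 3)], [(3, 3)], [1, 5], [(5, 3, [0]), (6, 3, [0])]⟩,
    ⟨[(0, 2), (2, 3), (2, 4)], [(0, 0), (1, 0), (2, 0), (2, 3), (2, 4), (4, 3), (5, 3)],
      [(0, 3)], [6], [(1, 0, [3, 4]), (6, 3, [0])]⟩]
  Ta := [((0, 3), 0, 2), ((1, 2), 0, 1), ((1, 8), 0, 6), ((5, 4), 3, 4), ((5, 7), 3, 5), ((6, 2),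
    3, 1), ((6, 8), 3, 6)]
  Tb := [((1, 2, 8), 0, 1, 6), ((2, 1, 3), 1, 0, 2), ((2, 1, 6), 1, 0, 3), ((2, 1, 7), 1, 0, 5),
    ((2, 3, 6), 1, 2, 3), ((2, 3, 7), 1, 2, 5), ((2, 6, 7), 1, 3, 5), ((3, 0, 2), 2, 0, 1),
    ((3, 0, 4), 2, 0, 4), ((3, 2, 4), 2, 1, 4), ((4, 3, 5), 4, 2, 3), ((5, 4, 7), 3, 4, 5),
    ((6, 2, 8), 3, 1, 6), ((7, 2, 5), 5, 1, 3), ((8, 1, 6), 6, 0, 3)]
  Tc := [(0, 3, 4)]
  Td := [((0, 3), (0, 3), 2), ((0, 3), (1, 2), 1), ((0, 3), (1, 8), 6), ((0, 4), (0, 3), 2), ((0,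
    4), (1, 2), 1), ((0, 4), (1, 8), 6), ((3, 0), (5, 4), 4), ((3, 0), (5, 7), 5), ((3, 0),
    (6, 2), 1), ((3, 0), (6, 8), 6), ((4, 0), (4, 3), 2), ((4, 0), (4, 5), 3)]
  G := [[0, 0, 0x1192488528481d12e48, 0xcc1d2cc1d2c284, 0x61928a1528c8c411d2e84], [0, 0,
    0x111d12281191811514c86, 0xcd1d4dcc119c282, 0x64681197811521151ad8d411d2e84], [0,
    0x624e112a8e1448ce11e42, 0, 0x486d1cccd25284, 0x64928c8528c8c4c1d1e82], [0,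
    0x4882ae46d1a6ee1164ecae1188c, 0, 0x161d1aace199284,
    0x642c48e11bd8455c242a9536864c115aa91988c]]

noncomputable def n3265 : Ent := ⟨e3265, noF, [], [], [(9, 15, [360035742630636841211993100915356868655746945586763691021037569, 0])]⟩

def c3265 : PLift (Cov.check n3265.C.D v3265 = true) := ⟨by decide +kernel⟩

def b3265 : PLift (entF (fidx ts) 400 3265 n3265 = true) := ⟨by decide +kernel⟩

theorem g3265 : GoodF (fidx ts) 400 3265 := GoodF.ofV v3265 n3265 c3265.down b3265.down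

/-- 4594454:2494/5 -/
noncomputable def e3266 : SCfg where
  D := {
    a := 7
    L := 9
    kp := 6
    inn := [(0, 1), (0, 2), (1, 0), (2, 0), (2, 3), (2, 4), (2, 6), (3, 2), (4, 2), (4, 5), (5, 4), (6,
      2)]
    mix := [(0, 0), (0, 1), (1, 0), (1, 1), (1, 2), (1, 3), (2, 0), (2, 1), (2, 4), (2, 5), (2, 6), (3,
      0), (3, 3), (3, 4), (4, 5), (4, 6), (5, 5), (5, 6), (5, 7), (5, 8), (6, 1), (6, 2), (6, 6)]
    cl := [0, 0, 1, 2, 4, 3, 3, 5, 6]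
    chq := [(0, 3), (0, 4), (3, 0), (4, 0)]
    rng := [(0, 3), (1, 2), (2, 1), (2, 3), (2, 6), (3, 0), (3, 2), (3, 4), (4, 3), (4, 5), (5, 4), (5,
      7), (6, 2), (6, 8), (7, 5), (7, 8), (8, 6), (8, 7)]
    lev := [] }
  links := [[1, 7, 2, 8], [7, 0, 8, 9, 10], [8, 0, 7, 3, 11, 12, 4, 13, 6], [11, 2, 7, 10], [13, 2, 12,
    5], [13, 4, 12, 14, 15], [8, 2, 13, 9]]
  P := {
    a := 7
    N := 16
    nb := [390, 1921, 14809, 3204, 12324, 61456, 8964, 1039, 583, 9538, 2698, 5132, 18484, 33396,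
      36896, 24608]
    tri := [(0, 1, 7), (0, 1, 8), (0, 2, 7), (0, 2, 8), (1, 7, 10), (1, 8, 9), (1, 9, 10), (2, 3, 7),
      (2, 3, 11), (2, 4, 12), (2, 4, 13), (2, 6, 8), (2, 6, 13), (2, 11, 12), (3, 7, 10), (3, 10,
      11), (4, 5, 12), (4, 5, 13), (5, 12, 14), (5, 13, 15), (5, 14, 15), (6, 8, 9), (6, 9, 13)]
    fin := [0, 0, 0, 0, 0, 5, 0, 0, 0, 9, 10, 11, 5, 5, 14, 15]
    chd := [(0, 5), (0, 11)]
    steps := [(0, 1), (0, 2), (0, 4), (0, 7), (0, 3), (0, 8), (0, 6), (5, 12), (5, 13)] }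
  rep := [0, 9, 10, 5, 11, 14, 15]

noncomputable def v3266 : Cov.CovD where
  P := 3
  N := 4
  pl := [2, 3, 7, 8]
  lev := [⟨[], [], [(0, 0)], [], [(0, 0, [3, 4]), (1, 0, [3, 4])]⟩,
    ⟨[], [(0, 0)], [(0, 0)], [1, 2], [(0, 0, [3, 4]), (1, 0, [3, 4])]⟩,
    ⟨[(0, 1)], [(0, 0), (0, 3), (0, 4), (1, 0)], [(0, 0), (0, 3), (0, 4), (3, 3), (3, 4)],
      [], [(0, 0, [3, 4]), (1, 0, [3, 4]), (4, 4, [0]), (5, 3, [0]), (6, 3, [0])]⟩,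
    ⟨[(0, 2)], [(0, 0), (1, 0), (2, 0), (2, 3), (2, 4)], [(0, 4)], [2], [(0, 0, [3, 4]),
      (4, 4, [0])]⟩,
    ⟨[(0, 2), (2, 3)], [(2, 0), (2, 3), (2, 4)], [(3, 3)], [], [(5, 3, [0]), (6, 3, [0])]⟩,
    ⟨[(2, 4)], [(2, 3), (4, 3)], [(3, 3)], [5, 6], [(5, 3, [0]), (6, 3, [0])]⟩,
    ⟨[(0, 2), (2, 3), (2, 4)], [(0, 0), (1, 0), (2, 0), (2, 3), (2, 4), (4, 3), (5, 3)],
      [(0, 3)], [1], [(1, 0, [3, 4]), (6, 3, [0])]⟩]
  Ta := [((0, 3), 0, 2), ((1, 2), 0, 1), ((5, 4), 3, 4), ((5, 7), 3, 5), ((6, 2), 3, 1), ((6, 8),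
    3, 6)]
  Tb := [((2, 1, 3), 1, 0, 2), ((2, 1, 6), 1, 0, 3), ((2, 3, 6), 1, 2, 3), ((3, 0, 2), 2, 0, 1),
    ((3, 0, 4), 2, 0, 4), ((3, 2, 4), 2, 1, 4), ((4, 3, 5), 4, 2, 3), ((5, 4, 7), 3, 4, 5),
    ((6, 2, 8), 3, 1, 6), ((7, 5, 8), 5, 3, 6), ((8, 6, 7), 6, 3, 5)]
  Tc := [(0, 3, 4)]
  Td := [((0, 3), (0, 3), 2), ((0, 3), (1, 2), 1), ((0, 4), (0, 3), 2), ((0, 4), (1, 2), 1), ((3,
    0), (5, 4), 4), ((3, 0), (5, 7), 5), ((3, 0), (6, 2), 1), ((3, 0), (6, 8), 6), ((4, 0),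
    (4, 3), 2), ((4, 0), (4, 5), 3)]
  G := [[0, 0, 0x881b14818728c4441f122c4, 0x848d42344c4433828d248,
    0x88a44483d228441b28488728c86], [0, 0, 0x1411f181111f12a41111f14446,
    0x444e11581384cac288, 0x444e111b5811171181d8a88a411792e84], [0,
    0x2488f112222f148484f11e42, 0, 0x4444f184a44582b9248, 0x4444f2888872188448792e84], [0,
    0x8828f118a2af112222f11e84, 0, 0x8444f48888f8c282,
    0x1444f1848d89888b44443d26882848d3188c]]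

noncomputable def n3266 : Ent := ⟨e3266, noF, [], [], [(15, 9, [360035742630636841345797572106540607504961255222653860056920065, 0])]⟩

def c3266 : PLift (Cov.check n3266.C.D v3266 = true) := ⟨by decide +kernel⟩

def b3266 : PLift (entF (fidx ts) 400 3266 n3266 = true) := ⟨by decide +kernel⟩

theorem g3266 : GoodF (fidx ts) 400 3266 := GoodF.ofV v3266 n3266 c3266.down b3266.down

/-- 4594454:2494/1 -/
noncomputable def e3267 : SCfg where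
  D := {
    a := 7
    L := 10
    kp := 7
    inn := [(0, 1), (0, 2), (1, 0), (2, 0), (2, 3), (2, 4), (2, 6), (3, 2), (4, 2), (4, 5), (5, 4), (6,
      2)]
    mix := [(0, 0), (0, 1), (1, 0), (1, 1), (1, 2), (1, 3), (2, 0), (2, 1), (2, 4), (2, 5), (2, 6), (3,
      0), (3, 3), (3, 4), (4, 5), (4, 6), (5, 5), (5, 6), (5, 7), (5, 8), (6, 1), (6, 6), (6, 9)]
    cl := [0, 0, 4, 3, 2, 1, 1, 5, 6, 7]
    chq := [(0, 1), (0, 2), (1, 0), (2, 0)]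
    rng := [(0, 3), (1, 2), (1, 9), (2, 1), (2, 3), (3, 0), (3, 2), (3, 4), (4, 3), (4, 5), (5, 4), (5,
      7), (6, 8), (6, 9), (7, 5), (7, 8), (8, 6), (8, 7), (9, 1), (9, 6)]
    lev := [] }
  links := [[1, 7, 2, 8], [7, 0, 8, 9, 10], [8, 0, 7, 3, 11, 12, 4, 13, 6], [11, 2, 7, 10], [13, 2, 12,
    5], [13, 4, 12, 14, 15], [8, 2, 13, 16]]
  P := {
    a := 7
    N := 17
    nb := [390, 1921, 14809, 3204, 12324, 61456, 73988, 1039, 66119, 1282, 2698, 5132, 18484, 98420,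
      36896, 24608, 8512]
    tri := [(0, 1, 7), (0, 1, 8), (0, 2, 7), (0, 2, 8), (1, 7, 10), (1, 8, 9), (1, 9, 10), (2, 3, 7),
      (2, 3, 11), (2, 4, 12), (2, 4, 13), (2, 6, 8), (2, 6, 13), (2, 11, 12), (3, 7, 10), (3, 10,
      11), (4, 5, 12), (4, 5, 13), (5, 12, 14), (5, 13, 15), (5, 14, 15), (6, 8, 16), (6, 13, 16)]
    fin := [0, 0, 0, 0, 0, 5, 0, 0, 0, 9, 10, 11, 5, 5, 14, 15, 16]
    chd := [(0, 5), (0, 11)]
    steps := [(0, 1), (0, 2), (0, 4), (0, 6), (0, 7), (0, 3), (0, 8), (5, 12), (5, 13)] }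
  rep := [0, 5, 11, 10, 9, 14, 15, 16]

noncomputable def v3267 : Cov.CovD where
  P := 3
  N := 5
  pl := [2, 3, 7, 8, 9]
  lev := [⟨[], [], [(0, 0)], [], [(0, 0, [1, 2]), (1, 0, [1, 2])]⟩,
    ⟨[], [(0, 0)], [(0, 0)], [3, 4], [(0, 0, [1, 2]), (1, 0, [1, 2])]⟩,
    ⟨[(0, 1)], [(0, 0), (0, 1), (0, 2), (1, 0)], [(0, 0), (0, 1), (0, 2), (1, 1), (1, 2)],
      [], [(0, 0, [1, 2]), (1, 0, [1, 2]), (4, 2, [0]), (5, 1, [0]), (6, 1, [0])]⟩,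
    ⟨[(0, 2)], [(0, 0), (1, 0), (2, 0), (2, 1), (2, 2)], [(0, 2)], [3], [(0, 0, [1, 2]),
      (4, 2, [0])]⟩,
    ⟨[(0, 2), (2, 3)], [(2, 0), (2, 1), (2, 2)], [(1, 1)], [], [(5, 1, [0]), (6, 1, [0])]⟩,
    ⟨[(2, 4)], [(2, 1), (4, 1)], [(1, 1)], [5, 6], [(5, 1, [0]), (6, 1, [0])]⟩,
    ⟨[(0, 2), (2, 3), (2, 4)], [(0, 0), (1, 0), (2, 0), (2, 1), (2, 2), (4, 1), (5, 1)],
      [(0, 1)], [7], [(1, 0, [1, 2]), (6, 1, [0])]⟩]
  Ta := [((0, 3), 0, 3), ((1, 2), 0, 4), ((1, 9), 0, 7), ((5, 4), 1, 2), ((5, 7), 1, 5), ((6, 8),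
    1, 6), ((6, 9), 1, 7)]
  Tb := [((1, 2, 9), 0, 4, 7), ((2, 1, 3), 4, 0, 3), ((3, 0, 2), 3, 0, 4), ((3, 0, 4), 3, 0, 2),
    ((3, 2, 4), 3, 4, 2), ((4, 3, 5), 2, 3, 1), ((5, 4, 7), 1, 2, 5), ((6, 8, 9), 1, 6, 7),
    ((7, 5, 8), 5, 1, 6), ((8, 6, 7), 6, 1, 5), ((9, 1, 6), 7, 0, 1)]
  Tc := [(0, 1, 2)]
  Td := [((0, 1), (0, 3), 3), ((0, 1), (1, 2), 4), ((0, 1), (1, 9), 7), ((0, 2), (0, 3), 3), ((0,
    2), (1, 2), 4), ((0, 2), (1, 9), 7), ((1, 0), (5, 4), 2), ((1, 0), (5, 7), 5), ((1, 0),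
    (6, 8), 6), ((1, 0), (6, 9), 7), ((2, 0), (4, 3), 3), ((2, 0), (4, 5), 1)]
  G := [[0, 0xaaae214ac6e218aaae214e4, 0x211d188121d144221d824e2,
    0x111d488222d448211d4122d4c8e4, 0x121d488122d1212d1a8121d128e2], [0,
    0xacce214666e248666e218e8, 0x111d488111d144111d124e2, 0, 0x111d188111d1111d1a8111d428e2],
    [0, 0x666e4886a6e218ccae418e4, 0x221d488212d448212d428e4, 0x222d814222d844222d118e8,
    0x222d418222d41822528918e2], [0, 0xcc6e418aaae2446aae418e2, 0x111d488111d148111d824e4, 0,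
    0x44c488cd198cccd118cccd418e4]]

noncomputable def n3267 : Ent := ⟨e3267, noF, [], [], [(15, 16, [1580044410770988437309982408355971841652082177953823432505702481921, 0]), (15, 9, [1685356702439545624008034240510833457709826487664008433929049346049, 0]), (16, 9, [1580044410770988437310138513572361556014072927981731971036244353025, 0])]⟩

def c3267 : PLift (Cov.check n3267.C.D v3267 = true) := ⟨by decide +kernel⟩

def b3267 : PLift (entF (fidx ts) 400 3267 n3267 = true) := ⟨by decide +kernel⟩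

theorem g3267 : GoodF (fidx ts) 400 3267 := GoodF.ofV v3267 n3267 c3267.down b3267.down

/-- 4594454:2494/7 -/
noncomputable def e3268 : SCfg where
  D := {
    a := 7
    L := 9
    kp := 6
    inn := [(0, 1), (0, 2), (1, 0), (2, 0), (2, 3), (2, 4), (2, 6), (3, 2), (4, 2), (4, 5), (5, 4), (6,
      2)]
    mix := [(0, 0), (0, 1), (1, 0), (1, 1), (1, 2), (1, 3), (2, 0), (2, 1), (2, 4), (2, 5), (2, 6), (3,
      0), (3, 4), (3, 7), (4, 5), (4, 6), (5, 2), (5, 5), (5, 6), (5, 8), (6, 1), (6, 2), (6, 6)]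
    cl := [0, 0, 2, 4, 3, 1, 1, 5, 6]
    chq := [(0, 1), (0, 3), (1, 0), (3, 0)]
    rng := [(0, 3), (0, 7), (1, 2), (2, 1), (2, 3), (2, 6), (2, 8), (3, 0), (3, 2), (4, 5), (4, 7), (5,
      4), (5, 8), (6, 2), (7, 0), (7, 4), (8, 2), (8, 5)]
    lev := [] }
  links := [[1, 7, 2, 8], [7, 0, 8, 9, 10], [8, 0, 7, 3, 11, 12, 4, 13, 6], [11, 2, 7, 14], [13, 2, 12,
    5], [13, 4, 12, 15, 9], [8, 2, 13, 9]]
  P := {
    a := 7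
    N := 16
    nb := [390, 1921, 14809, 18564, 12324, 45584, 8964, 17423, 583, 42338, 642, 20492, 34868, 628,
      2184, 4640]
    tri := [(0, 1, 7), (0, 1, 8), (0, 2, 7), (0, 2, 8), (1, 7, 10), (1, 8, 9), (1, 9, 10), (2, 3, 7),
      (2, 3, 11), (2, 4, 12), (2, 4, 13), (2, 6, 8), (2, 6, 13), (2, 11, 12), (3, 7, 14), (3, 11,
      14), (4, 5, 12), (4, 5, 13), (5, 9, 13), (5, 9, 15), (5, 12, 15), (6, 8, 9), (6, 9, 13)]
    fin := [0, 0, 0, 0, 0, 5, 0, 0, 0, 9, 10, 11, 5, 5, 14, 15]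
    chd := [(0, 5), (0, 11)]
    steps := [(0, 1), (0, 2), (0, 3), (0, 4), (0, 7), (0, 8), (0, 6), (5, 12), (5, 13)] }
  rep := [0, 5, 9, 11, 10, 14, 15]

noncomputable def v3268 : Cov.CovD where
  P := 3
  N := 4
  pl := [2, 3, 7, 8]
  lev := [⟨[], [], [(0, 0)], [], [(0, 0, [1, 3]), (1, 0, [1, 3])]⟩,
    ⟨[], [(0, 0)], [(0, 0)], [2, 4], [(0, 0, [1, 3]), (1, 0, [1, 3])]⟩,
    ⟨[(0, 1)], [(0, 0), (0, 1), (0, 3), (1, 0)], [(0, 0), (0, 1), (0, 3), (1, 1), (1, 3)],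
      [], [(0, 0, [1, 3]), (1, 0, [1, 3]), (4, 3, [0]), (5, 1, [0]), (6, 1, [0])]⟩,
    ⟨[(0, 2)], [(0, 0), (1, 0), (2, 0), (2, 1), (2, 3)], [(0, 3)], [5], [(0, 0, [1, 3]),
      (4, 3, [0])]⟩,
    ⟨[(0, 2), (2, 3)], [(2, 0), (2, 1), (2, 3)], [(1, 1)], [], [(5, 1, [0]), (6, 1, [0])]⟩,
    ⟨[(2, 4)], [(2, 1), (4, 1)], [(1, 1)], [2, 6], [(5, 1, [0]), (6, 1, [0])]⟩,
    ⟨[(0, 2), (2, 3), (2, 4)], [(0, 0), (1, 0), (2, 0), (2, 1), (2, 3), (4, 1), (5, 1)],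
      [(0, 1)], [2], [(1, 0, [1, 3]), (6, 1, [0])]⟩]
  Ta := [((0, 3), 0, 4), ((0, 7), 0, 5), ((1, 2), 0, 2), ((5, 4), 1, 3), ((5, 8), 1, 6), ((6, 2),
    1, 2)]
  Tb := [((0, 3, 7), 0, 4, 5), ((2, 1, 3), 2, 0, 4), ((2, 1, 6), 2, 0, 1), ((2, 1, 8), 2, 0, 6),
    ((2, 3, 6), 2, 4, 1), ((2, 3, 8), 2, 4, 6), ((2, 6, 8), 2, 1, 6), ((3, 0, 2), 4, 0, 2),
    ((4, 5, 7), 3, 1, 5), ((5, 4, 8), 1, 3, 6), ((7, 0, 4), 5, 0, 3), ((8, 2, 5), 6, 2, 1)]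
  Tc := [(0, 1, 3)]
  Td := [((0, 1), (0, 3), 4), ((0, 1), (0, 7), 5), ((0, 1), (1, 2), 2), ((0, 3), (0, 3), 4), ((0,
    3), (0, 7), 5), ((0, 3), (1, 2), 2), ((1, 0), (5, 4), 3), ((1, 0), (5, 8), 6), ((1, 0),
    (6, 2), 2), ((3, 0), (4, 5), 1), ((3, 0), (4, 7), 5)]
  G := [[0, 0x88c8144c21648c4184c21ac4, 0, 0, 0x22912891a189881946c22911894a819812946ca2], [0,
    0x88c2148c41648c2184c81ac4, 0, 0x1858489864819888c864c41541458a844918854a8cc,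
    0x11911194a189888946c11941891a119881916ca2], [0, 0x88c2188c41684c2148c41ac4,
    0x42c4144c81c28c1122c81c62, 0, 0x22912894a28941c22912894a22911ca2], [0,
    0x84c8148c41644c4188c81ac2, 0x88c4184c81c44c1184c81cc2,
    0x449184c1a84911c48c41885888c16cc2, 0x88941889888916c88941889888946ca2]]

noncomputable def n3268 : Ent := ⟨e3268, noF, [], [], [(14, 10, [385746751338781050996073827118545021217310372558043290368995329, 0])]⟩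

def c3268 : PLift (Cov.check n3268.C.D v3268 = true) := ⟨by decide +kernel⟩

def b3268 : PLift (entF (fidx ts) 400 3268 n3268 = true) := ⟨by decide +kernel⟩

theorem g3268 : GoodF (fidx ts) 400 3268 := GoodF.ofV v3268 n3268 c3268.down b3268.down

/-- 4594454:2494/6 -/
noncomputable def e3269 : SCfg where
  D := {
    a := 7
    L := 10
    kp := 7
    inn := [(0, 1), (0, 2), (1, 0), (2, 0), (2, 3), (2, 4), (2, 6), (3, 2), (4, 2), (4, 5), (5, 4), (6,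
      2)]
    mix := [(0, 0), (0, 1), (1, 0), (1, 1), (1, 2), (1, 3), (2, 0), (2, 1), (2, 4), (2, 5), (2, 6), (3,
      0), (3, 4), (3, 7), (4, 5), (4, 6), (5, 5), (5, 6), (5, 8), (5, 9), (6, 1), (6, 6), (6, 9)]
    cl := [0, 0, 4, 5, 2, 1, 1, 6, 7, 3]
    chq := [(0, 1), (0, 2), (1, 0), (2, 0)]
    rng := [(0, 3), (0, 7), (1, 2), (1, 9), (2, 1), (2, 3), (3, 0), (3, 2), (4, 5), (4, 7), (5, 4), (5,
      8), (6, 9), (7, 0), (7, 4), (8, 5), (8, 9), (9, 1), (9, 6), (9, 8)]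
    lev := [] }
  links := [[1, 7, 2, 8], [7, 0, 8, 9, 10], [8, 0, 7, 3, 11, 12, 4, 13, 6], [11, 2, 7, 14], [13, 2, 12,
    5], [13, 4, 12, 15, 16], [8, 2, 13, 16]]
  P := {
    a := 7
    N := 17
    nb := [390, 1921, 14809, 18564, 12324, 110608, 73988, 17423, 66119, 1282, 642, 20492, 34868,
      65652, 2184, 69664, 41312]
    tri := [(0, 1, 7), (0, 1, 8), (0, 2, 7), (0, 2, 8), (1, 7, 10), (1, 8, 9), (1, 9, 10), (2, 3, 7),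
      (2, 3, 11), (2, 4, 12), (2, 4, 13), (2, 6, 8), (2, 6, 13), (2, 11, 12), (3, 7, 14), (3, 11,
      14), (4, 5, 12), (4, 5, 13), (5, 12, 15), (5, 13, 16), (5, 15, 16), (6, 8, 16), (6, 13, 16)]
    fin := [0, 0, 0, 0, 0, 5, 0, 0, 0, 9, 10, 11, 5, 5, 14, 15, 16]
    chd := [(0, 5), (0, 11)]
    steps := [(0, 1), (0, 2), (0, 3), (0, 4), (0, 6), (0, 7), (0, 8), (5, 12), (5, 13)] }
  rep := [0, 5, 11, 16, 9, 10, 14, 15]

noncomputable def v3269 : Cov.CovD where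
  P := 3
  N := 5
  pl := [2, 3, 7, 8, 9]
  lev := [⟨[], [], [(0, 0)], [], [(0, 0, [1, 2]), (1, 0, [1, 2])]⟩,
    ⟨[], [(0, 0)], [(0, 0)], [4, 5], [(0, 0, [1, 2]), (1, 0, [1, 2])]⟩,
    ⟨[(0, 1)], [(0, 0), (0, 1), (0, 2), (1, 0)], [(0, 0), (0, 1), (0, 2), (1, 1), (1, 2)],
      [], [(0, 0, [1, 2]), (1, 0, [1, 2]), (4, 2, [0]), (5, 1, [0]), (6, 1, [0])]⟩,
    ⟨[(0, 2)], [(0, 0), (1, 0), (2, 0), (2, 1), (2, 2)], [(0, 2)], [6], [(0, 0, [1, 2]),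
      (4, 2, [0])]⟩,
    ⟨[(0, 2), (2, 3)], [(2, 0), (2, 1), (2, 2)], [(1, 1)], [], [(5, 1, [0]), (6, 1, [0])]⟩,
    ⟨[(2, 4)], [(2, 1), (4, 1)], [(1, 1)], [3, 7], [(5, 1, [0]), (6, 1, [0])]⟩,
    ⟨[(0, 2), (2, 3), (2, 4)], [(0, 0), (1, 0), (2, 0), (2, 1), (2, 2), (4, 1), (5, 1)],
      [(0, 1)], [3], [(1, 0, [1, 2]), (6, 1, [0])]⟩]
  Ta := [((0, 3), 0, 5), ((0, 7), 0, 6), ((1, 2), 0, 4), ((1, 9), 0, 3), ((5, 4), 1, 2), ((5, 8),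
    1, 7), ((6, 9), 1, 3)]
  Tb := [((0, 3, 7), 0, 5, 6), ((1, 2, 9), 0, 4, 3), ((2, 1, 3), 4, 0, 5), ((3, 0, 2), 5, 0, 4),
    ((4, 5, 7), 2, 1, 6), ((5, 4, 8), 1, 2, 7), ((7, 0, 4), 6, 0, 2), ((8, 5, 9), 7, 1, 3),
    ((9, 1, 6), 3, 0, 1), ((9, 1, 8), 3, 0, 7), ((9, 6, 8), 3, 1, 7)]
  Tc := [(0, 1, 2)]
  Td := [((0, 1), (0, 3), 5), ((0, 1), (0, 7), 6), ((0, 1), (1, 2), 4), ((0, 1), (1, 9), 3), ((0,
    2), (0, 3), 5), ((0, 2), (0, 7), 6), ((0, 2), (1, 2), 4), ((0, 2), (1, 9), 3), ((1, 0),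
    (5, 4), 2), ((1, 0), (5, 8), 7), ((1, 0), (6, 9), 3), ((2, 0), (4, 5), 1), ((2, 0), (4,
    7), 6)]
  G := [[0, 0x842e418842e418842e218e4, 0x212d1241d164242d1221d468222d1821d8a4e8,
    0x822d8821d8c4112d8211d1c4819145222d1c4e8, 0x111d4241d4a8241d4242d1a8242d4141d4a8e4], [0,
    0x8a2e214842e4188a2e814e4, 0x141d1111d168111d1841d1a8841d1811d8c4e2, 0,
    0x111d1841d4a8111d4811d1a8111d4141d4a8e2], [0, 0x842e418842e218842e218e2,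
    0x142d1141d1a8141d4811d468121d8241d1a4e2, 0x222d118222d118222d418e4,
    0x842d118242d118222d118e2], [0, 0x842e218842e218842e218e4,
    0x141d1111d1a8111d1841d4c8111d144119ca4e2, 0, 0x84cd11884cd41884cd118e2]]

noncomputable def n3269 : Ent := ⟨e3269, noF, [], [], [(14, 10, [1685382413448253768217684516765845462123538836781343823359361417217, 0]), (16, 9, [1580044410770988437310138513572361556014072927981731971036244361217, 0])]⟩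

def c3269 : PLift (Cov.check n3269.C.D v3269 = true) := ⟨by decide +kernel⟩

def b3269 : PLift (entF (fidx ts) 400 3269 n3269 = true) := ⟨by decide +kernel⟩

theorem g3269 : GoodF (fidx ts) 400 3269 := GoodF.ofV v3269 n3269 c3269.down b3269.down

/-- 4594454:2494/8 -/
noncomputable def e3270 : SCfg where
  D := {
    a := 7
    L := 10
    kp := 7
    inn := [(0, 1), (0, 2), (1, 0), (2, 0), (2, 3), (2, 4), (2, 6), (3, 2), (4, 2), (4, 5), (5, 4), (6,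
      2)]
    mix := [(0, 0), (0, 1), (1, 0), (1, 1), (1, 2), (1, 3), (2, 0), (2, 1), (2, 4), (2, 5), (2, 6), (3,
      0), (3, 4), (3, 7), (4, 5), (4, 6), (5, 2), (5, 5), (5, 6), (5, 8), (6, 1), (6, 6), (6, 9)]
    cl := [0, 0, 2, 4, 3, 1, 1, 5, 6, 7]
    chq := [(0, 1), (0, 3), (1, 0), (3, 0)]
    rng := [(0, 3), (0, 7), (1, 2), (1, 9), (2, 1), (2, 3), (2, 6), (2, 8), (3, 0), (3, 2), (4, 5), (4,
      7), (5, 4), (5, 8), (6, 2), (6, 9), (7, 0), (7, 4), (8, 2), (8, 5), (9, 1), (9, 6)]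
    lev := [] }
  links := [[1, 7, 2, 8], [7, 0, 8, 9, 10], [8, 0, 7, 3, 11, 12, 4, 13, 6], [11, 2, 7, 14], [13, 2, 12,
    5], [13, 4, 12, 15, 9], [8, 2, 13, 16]]
  P := {
    a := 7
    N := 17
    nb := [390, 1921, 14809, 18564, 12324, 45584, 73988, 17423, 66119, 42274, 642, 20492, 34868,
      66164, 2184, 4640, 8512]
    tri := [(0, 1, 7), (0, 1, 8), (0, 2, 7), (0, 2, 8), (1, 7, 10), (1, 8, 9), (1, 9, 10), (2, 3, 7),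
      (2, 3, 11), (2, 4, 12), (2, 4, 13), (2, 6, 8), (2, 6, 13), (2, 11, 12), (3, 7, 14), (3, 11,
      14), (4, 5, 12), (4, 5, 13), (5, 9, 13), (5, 9, 15), (5, 12, 15), (6, 8, 16), (6, 13, 16)]
    fin := [0, 0, 0, 0, 0, 5, 0, 0, 0, 9, 10, 11, 5, 5, 14, 15, 16]
    chd := [(0, 5), (0, 11)]
    steps := [(0, 1), (0, 2), (0, 3), (0, 4), (0, 6), (0, 7), (0, 8), (5, 12), (5, 13)] }
  rep := [0, 5, 9, 11, 10, 14, 15, 16]

noncomputable def v3270 : Cov.CovD where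
  P := 3
  N := 5
  pl := [2, 3, 7, 8, 9]
  lev := [⟨[], [], [(0, 0)], [], [(0, 0, [1, 3]), (1, 0, [1, 3])]⟩,
    ⟨[], [(0, 0)], [(0, 0)], [2, 4], [(0, 0, [1, 3]), (1, 0, [1, 3])]⟩,
    ⟨[(0, 1)], [(0, 0), (0, 1), (0, 3), (1, 0)], [(0, 0), (0, 1), (0, 3), (1, 1), (1, 3)],
      [], [(0, 0, [1, 3]), (1, 0, [1, 3]), (4, 3, [0]), (5, 1, [0]), (6, 1, [0])]⟩,
    ⟨[(0, 2)], [(0, 0), (1, 0), (2, 0), (2, 1), (2, 3)], [(0, 3)], [5], [(0, 0, [1, 3]),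
      (4, 3, [0])]⟩,
    ⟨[(0, 2), (2, 3)], [(2, 0), (2, 1), (2, 3)], [(1, 1)], [], [(5, 1, [0]), (6, 1, [0])]⟩,
    ⟨[(2, 4)], [(2, 1), (4, 1)], [(1, 1)], [2, 6], [(5, 1, [0]), (6, 1, [0])]⟩,
    ⟨[(0, 2), (2, 3), (2, 4)], [(0, 0), (1, 0), (2, 0), (2, 1), (2, 3), (4, 1), (5, 1)],
      [(0, 1)], [7], [(1, 0, [1, 3]), (6, 1, [0])]⟩]
  Ta := [((0, 3), 0, 4), ((0, 7), 0, 5), ((1, 2), 0, 2), ((1, 9), 0, 7), ((5, 4), 1, 3), ((5, 8),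
    1, 6), ((6, 2), 1, 2), ((6, 9), 1, 7)]
  Tb := [((0, 3, 7), 0, 4, 5), ((1, 2, 9), 0, 2, 7), ((2, 1, 3), 2, 0, 4), ((2, 1, 6), 2, 0, 1),
    ((2, 1, 8), 2, 0, 6), ((2, 3, 6), 2, 4, 1), ((2, 3, 8), 2, 4, 6), ((2, 6, 8), 2, 1, 6),
    ((3, 0, 2), 4, 0, 2), ((4, 5, 7), 3, 1, 5), ((5, 4, 8), 1, 3, 6), ((6, 2, 9), 1, 2, 7),
    ((7, 0, 4), 5, 0, 3), ((8, 2, 5), 6, 2, 1), ((9, 1, 6), 7, 0, 1)]
  Tc := [(0, 1, 3)]
  Td := [((0, 1), (0, 3), 4), ((0, 1), (0, 7), 5), ((0, 1), (1, 2), 2), ((0, 1), (1, 9), 7), ((0,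
    3), (0, 3), 4), ((0, 3), (0, 7), 5), ((0, 3), (1, 2), 2), ((0, 3), (1, 9), 7), ((1, 0),
    (5, 4), 3), ((1, 0), (5, 8), 6), ((1, 0), (6, 2), 2), ((1, 0), (6, 9), 7), ((3, 0), (4,
    5), 1), ((3, 0), (4, 7), 5)]
  G := [[0, 0xaac81cac8166cc41cac81ac4, 0, 0, 0x21911191a219122916c11911291a219122916ca2], [0,
    0xccc81ccc8166ac81acc416c8, 0, 0x11c41154a11c12c11941191a8c11584411c811c164c6,
    0x11911191a119111986c11941194a119811986ca2], [0, 0xc6c21ccc816acc41ccc41ac2,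
    0x22c4122c11c22c1122c81c68, 0, 0x22942291a22941c22912291a22981ca2], [0,
    0xcac81ccc81666c21ccc41ac2, 0xccc41ccc81cccc11ccc11ca2,
    0xcc51199c8cc5844917ccc54cc5131198cc515cc2,
    0x1198cc98349998cc98449174a1191cc9158cc9418ac]]

noncomputable def n3270 : Ent := ⟨e3270, noF, [], [], [(14, 10, [1685382413448253768217684516765845462123538836781343823359361421313, 0]), (9, 16, [1580044410770988437309982408355971841652082177953823432505702498305, 0])]⟩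

def c3270 : PLift (Cov.check n3270.C.D v3270 = true) := ⟨by decide +kernel⟩

def b3270 : PLift (entF (fidx ts) 400 3270 n3270 = true) := ⟨by decide +kernel⟩

theorem g3270 : GoodF (fidx ts) 400 3270 := GoodF.ofV v3270 n3270 c3270.down b3270.down

/-- 4594454:2494/9 -/
noncomputable def e3271 : SCfg where
  D := {
    a := 7
    L := 10
    kp := 7
    inn := [(0, 1), (0, 2), (1, 0), (2, 0), (2, 3), (2, 4), (2, 6), (3, 2), (4, 2), (4, 5), (5, 4), (6,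
      2)]
    mix := [(0, 0), (0, 1), (1, 0), (1, 1), (1, 2), (1, 3), (2, 0), (2, 1), (2, 4), (2, 5), (2, 6), (3,
      0), (3, 4), (3, 7), (4, 5), (4, 6), (5, 5), (5, 6), (5, 8), (5, 9), (6, 1), (6, 2), (6, 6)]
    cl := [0, 0, 2, 4, 3, 1, 1, 5, 6, 7]
    chq := [(0, 1), (0, 3), (1, 0), (3, 0)]
    rng := [(0, 3), (0, 7), (1, 2), (2, 1), (2, 3), (2, 6), (3, 0), (3, 2), (4, 5), (4, 7), (5, 4), (5,
      8), (6, 2), (6, 9), (7, 0), (7, 4), (8, 5), (8, 9), (9, 6), (9, 8)]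
    lev := [] }
  links := [[1, 7, 2, 8], [7, 0, 8, 9, 10], [8, 0, 7, 3, 11, 12, 4, 13, 6], [11, 2, 7, 14], [13, 2, 12,
    5], [13, 4, 12, 15, 16], [8, 2, 13, 9]]
  P := {
    a := 7
    N := 17
    nb := [390, 1921, 14809, 18564, 12324, 110608, 8964, 17423, 583, 9538, 642, 20492, 34868, 66164,
      2184, 69664, 40992]
    tri := [(0, 1, 7), (0, 1, 8), (0, 2, 7), (0, 2, 8), (1, 7, 10), (1, 8, 9), (1, 9, 10), (2, 3, 7),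
      (2, 3, 11), (2, 4, 12), (2, 4, 13), (2, 6, 8), (2, 6, 13), (2, 11, 12), (3, 7, 14), (3, 11,
      14), (4, 5, 12), (4, 5, 13), (5, 12, 15), (5, 13, 16), (5, 15, 16), (6, 8, 9), (6, 9, 13)]
    fin := [0, 0, 0, 0, 0, 5, 0, 0, 0, 9, 10, 11, 5, 5, 14, 15, 16]
    chd := [(0, 5), (0, 11)]
    steps := [(0, 1), (0, 2), (0, 3), (0, 4), (0, 7), (0, 8), (0, 6), (5, 12), (5, 13)] }
  rep := [0, 5, 9, 11, 10, 14, 15, 16]

noncomputable def v3271 : Cov.CovD where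
  P := 3
  N := 5
  pl := [2, 3, 7, 8, 9]
  lev := [⟨[], [], [(0, 0)], [], [(0, 0, [1, 3]), (1, 0, [1, 3])]⟩,
    ⟨[], [(0, 0)], [(0, 0)], [2, 4], [(0, 0, [1, 3]), (1, 0, [1, 3])]⟩,
    ⟨[(0, 1)], [(0, 0), (0, 1), (0, 3), (1, 0)], [(0, 0), (0, 1), (0, 3), (1, 1), (1, 3)],
      [], [(0, 0, [1, 3]), (1, 0, [1, 3]), (4, 3, [0]), (5, 1, [0]), (6, 1, [0])]⟩,
    ⟨[(0, 2)], [(0, 0), (1, 0), (2, 0), (2, 1), (2, 3)], [(0, 3)], [5], [(0, 0, [1, 3]),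
      (4, 3, [0])]⟩,
    ⟨[(0, 2), (2, 3)], [(2, 0), (2, 1), (2, 3)], [(1, 1)], [], [(5, 1, [0]), (6, 1, [0])]⟩,
    ⟨[(2, 4)], [(2, 1), (4, 1)], [(1, 1)], [6, 7], [(5, 1, [0]), (6, 1, [0])]⟩,
    ⟨[(0, 2), (2, 3), (2, 4)], [(0, 0), (1, 0), (2, 0), (2, 1), (2, 3), (4, 1), (5, 1)],
      [(0, 1)], [2], [(1, 0, [1, 3]), (6, 1, [0])]⟩]
  Ta := [((0, 3), 0, 4), ((0, 7), 0, 5), ((1, 2), 0, 2), ((5, 4), 1, 3), ((5, 8), 1, 6), ((6, 2),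
    1, 2), ((6, 9), 1, 7)]
  Tb := [((0, 3, 7), 0, 4, 5), ((2, 1, 3), 2, 0, 4), ((2, 1, 6), 2, 0, 1), ((2, 3, 6), 2, 4, 1),
    ((3, 0, 2), 4, 0, 2), ((4, 5, 7), 3, 1, 5), ((5, 4, 8), 1, 3, 6), ((6, 2, 9), 1, 2, 7),
    ((7, 0, 4), 5, 0, 3), ((8, 5, 9), 6, 1, 7), ((9, 6, 8), 7, 1, 6)]
  Tc := [(0, 1, 3)]
  Td := [((0, 1), (0, 3), 4), ((0, 1), (0, 7), 5), ((0, 1), (1, 2), 2), ((0, 3), (0, 3), 4), ((0,
    3), (0, 7), 5), ((0, 3), (1, 2), 2), ((1, 0), (5, 4), 3), ((1, 0), (5, 8), 6), ((1, 0),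
    (6, 2), 2), ((1, 0), (6, 9), 7), ((3, 0), (4, 5), 1), ((3, 0), (4, 7), 5)]
  G := [[0, 0x888e81484e416444e41884e41ac4, 0, 0,
    0x121d4182d4a221d1812d86c212d4888d1a188d1211d86ca2], [0, 0x888e81888e816444e41444e21cc8,
    0, 0x114d4418d1a888d1411d86c111d1148d4a811d8444d86cc2,
    0x111d4888d1a188d1111d86c111d1118d1a118d1181d86ca2], [0, 0x888e81884e816844e41848e81ac4,
    0x444d41282d81c442d41822d81c68, 0, 0x222d1888d4a828d11c222d1282d4a228d11ca4], [0,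
    0x488e81488e816444e81484e416c2, 0x884d41444d11c888d11484d11c62,
    0x444d1444d4a444d11c444d4484d4a488d11cc2, 0x888d11888d1888d16c888d11888d1888d16ca2]]

noncomputable def n3271 : Ent := ⟨e3271, noF, [], [], [(14, 10, [1685382413448253768217684516765845462123538836781343823359361425409, 0]), (16, 9, [1580044410770988437310138513572361556014072927981731971036244361217, 0])]⟩

def c3271 : PLift (Cov.check n3271.C.D v3271 = true) := ⟨by decide +kernel⟩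

def b3271 : PLift (entF (fidx ts) 400 3271 n3271 = true) := ⟨by decide +kernel⟩

theorem g3271 : GoodF (fidx ts) 400 3271 := GoodF.ofV v3271 n3271 c3271.down b3271.down

/-- 4594454:2494 -/
noncomputable def e3272 : SCfg where
  D := {
    a := 7
    L := 11
    kp := 8
    inn := [(0, 1), (0, 2), (1, 0), (2, 0), (2, 3), (2, 4), (2, 6), (3, 2), (4, 2), (4, 5), (5, 4), (6,
      2)]
    mix := [(0, 0), (0, 1), (1, 0), (1, 1), (1, 2), (1, 3), (2, 0), (2, 1), (2, 4), (2, 5), (2, 6), (3,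
      0), (3, 4), (3, 7), (4, 5), (4, 6), (5, 5), (5, 6), (5, 8), (5, 9), (6, 1), (6, 6), (6, 10)]
    cl := [0, 0, 3, 4, 2, 1, 1, 5, 6, 7, 8]
    chq := [(0, 1), (0, 2), (1, 0), (2, 0)]
    rng := [(0, 3), (0, 7), (1, 2), (1, 10), (2, 1), (2, 3), (3, 0), (3, 2), (4, 5), (4, 7), (5, 4),
      (5, 8), (6, 9), (6, 10), (7, 0), (7, 4), (8, 5), (8, 9), (9, 6), (9, 8), (10, 1), (10, 6)]
    lev := [] }
  links := [[1, 7, 2, 8], [7, 0, 8, 9, 10], [8, 0, 7, 3, 11, 12, 4, 13, 6], [11, 2, 7, 14], [13, 2, 12,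
    5], [13, 4, 12, 15, 16], [8, 2, 13, 17]]
  P := {
    a := 7
    N := 18
    nb := [390, 1921, 14809, 18564, 12324, 110608, 139524, 17423, 131655, 1282, 642, 20492, 34868,
      196724, 2184, 69664, 40992, 8512]
    tri := [(0, 1, 7), (0, 1, 8), (0, 2, 7), (0, 2, 8), (1, 7, 10), (1, 8, 9), (1, 9, 10), (2, 3, 7),
      (2, 3, 11), (2, 4, 12), (2, 4, 13), (2, 6, 8), (2, 6, 13), (2, 11, 12), (3, 7, 14), (3, 11,
      14), (4, 5, 12), (4, 5, 13), (5, 12, 15), (5, 13, 16), (5, 15, 16), (6, 8, 17), (6, 13, 17)]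
    fin := [0, 0, 0, 0, 0, 5, 0, 0, 0, 9, 10, 11, 5, 5, 14, 15, 16, 17]
    chd := [(0, 5), (0, 11)]
    steps := [(0, 1), (0, 2), (0, 3), (0, 4), (0, 6), (0, 7), (0, 8), (5, 12), (5, 13)] }
  rep := [0, 5, 11, 9, 10, 14, 15, 16, 17]

noncomputable def v3272 : Cov.CovD where
  P := 3
  N := 6
  pl := [2, 3, 7, 8, 9, 10]
  lev := [⟨[], [], [(0, 0)], [], [(0, 0, [1, 2]), (1, 0, [1, 2])]⟩,
    ⟨[], [(0, 0)], [(0, 0)], [3, 4], [(0, 0, [1, 2]), (1, 0, [1, 2])]⟩,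
    ⟨[(0, 1)], [(0, 0), (0, 1), (0, 2), (1, 0)], [(0, 0), (0, 1), (0, 2), (1, 1), (1, 2)],
      [], [(0, 0, [1, 2]), (1, 0, [1, 2]), (4, 2, [0]), (5, 1, [0]), (6, 1, [0])]⟩,
    ⟨[(0, 2)], [(0, 0), (1, 0), (2, 0), (2, 1), (2, 2)], [(0, 2)], [5], [(0, 0, [1, 2]),
      (4, 2, [0])]⟩,
    ⟨[(0, 2), (2, 3)], [(2, 0), (2, 1), (2, 2)], [(1, 1)], [], [(5, 1, [0]), (6, 1, [0])]⟩,
    ⟨[(2, 4)], [(2, 1), (4, 1)], [(1, 1)], [6, 7], [(5, 1, [0]), (6, 1, [0])]⟩,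
    ⟨[(0, 2), (2, 3), (2, 4)], [(0, 0), (1, 0), (2, 0), (2, 1), (2, 2), (4, 1), (5, 1)],
      [(0, 1)], [8], [(1, 0, [1, 2]), (6, 1, [0])]⟩]
  Ta := [((0, 3), 0, 4), ((0, 7), 0, 5), ((1, 2), 0, 3), ((1, 10), 0, 8), ((5, 4), 1, 2), ((5,
    8), 1, 6), ((6, 9), 1, 7), ((6, 10), 1, 8)]
  Tb := [((0, 3, 7), 0, 4, 5), ((1, 2, 10), 0, 3, 8), ((2, 1, 3), 3, 0, 4), ((3, 0, 2), 4, 0, 3),
    ((4, 5, 7), 2, 1, 5), ((5, 4, 8), 1, 2, 6), ((6, 9, 10), 1, 7, 8), ((7, 0, 4), 5, 0, 2),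
    ((8, 5, 9), 6, 1, 7), ((9, 6, 8), 7, 1, 6), ((10, 1, 6), 8, 0, 1)]
  Tc := [(0, 1, 2)]
  Td := [((0, 1), (0, 3), 4), ((0, 1), (0, 7), 5), ((0, 1), (1, 2), 3), ((0, 1), (1, 10), 8),
    ((0, 2), (0, 3), 4), ((0, 2), (0, 7), 5), ((0, 2), (1, 2), 3), ((0, 2), (1, 10), 8), ((1,
    0), (5, 4), 2), ((1, 0), (5, 8), 6), ((1, 0), (6, 9), 7), ((1, 0), (6, 10), 8), ((2, 0),
    (4, 5), 1), ((2, 0), (4, 7), 5)]
  G := [[0, 0xaa6e218cc6e418aaae214e4, 0x111d1212d8c4112d421518c68112d8112d1a4e2,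
    0x221d8122d1c4211d8122d1c4211d1122d1c8e2, 0x111d1121d4a8212d1122d4a8111d4211d4a8e2], [0,
    0x666e21866ce418aaae214e4, 0x111d1111d1c8111d4111d1c8111d8111d8a4e2, 0,
    0x111d4111d1a8111d1111d1a8111d1111d1a8e2], [0, 0xccce814a6ae21866ce214e2,
    0x222d1212d1a4221d1211d4a8222d1121d8a4e2, 0x222d814222d118222d114e4,
    0x222d118222d418222d418e2], [0, 0x6cce418c6ce218aaae214e4,
    0x111d1111d468111d111518c68111d8111d8c4e2, 0, 0xcccd418cccd418cccd418e4]]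

noncomputable def n3272 : Ent := ⟨e3272, noF, [], [], [(14, 10, [7334790875878422277917645788186105388691426821767817058683541365993473, 0]), (16, 17, [6903326391201334775872065844685381424292761054348340378595029943078913, 0]), (16, 9, [7334685537875745012586738242182911904785317355859017446831218248933377, 0]), (17, 9, [6903326391201334775872066023091343012537746186634086559781921990930433, 0])]⟩

def c3272 : PLift (Cov.check n3272.C.D v3272 = true) := ⟨by decide +kernel⟩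

def b3272 : PLift (entF (fidx ts) 400 3272 n3272 = true) := ⟨by decide +kernel⟩

theorem g3272 : GoodF (fidx ts) 400 3272 := GoodF.ofV v3272 n3272 c3272.down b3272.down

/-- 4594445:2501/3 -/
noncomputable def e3273 : SCfg where
  D := {
    a := 7
    L := 8
    kp := 5
    inn := [(0, 1), (0, 2), (1, 0), (2, 0), (2, 3), (2, 4), (2, 5), (3, 2), (4, 2), (4, 6), (5, 2), (6,
      4)]
    mix := [(0, 0), (0, 1), (1, 0), (1, 1), (1, 2), (1, 3), (2, 0), (2, 1), (2, 4), (2, 5), (2, 6), (3,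
      0), (3, 3), (3, 4), (4, 5), (4, 6), (5, 4), (5, 5), (5, 7), (6, 2), (6, 5), (6, 6), (6, 7)]
    cl := [0, 0, 2, 5, 3, 1, 1, 4]
    chq := [(0, 3), (0, 4), (3, 0), (4, 0)]
    rng := [(0, 3), (1, 2), (1, 6), (2, 1), (2, 3), (2, 6), (2, 7), (3, 0), (3, 2), (3, 4), (4, 3), (4,
      7), (5, 7), (6, 1), (6, 2), (7, 2), (7, 4), (7, 5)]
    lev := [] }
  links := [[1, 7, 2, 8], [7, 0, 8, 9, 10], [8, 0, 7, 3, 11, 5, 12, 4, 13], [11, 2, 7, 10], [13, 2, 12,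
    6], [12, 2, 11, 14], [13, 4, 12, 14, 9]]
  P := {
    a := 7
    N := 15
    nb := [390, 1921, 14777, 3204, 12356, 22532, 29200, 1039, 8711, 25922, 2698, 17452, 16500, 852,
      6752]
    tri := [(0, 1, 7), (0, 1, 8), (0, 2, 7), (0, 2, 8), (1, 7, 10), (1, 8, 9), (1, 9, 10), (2, 3, 7),
      (2, 3, 11), (2, 4, 12), (2, 4, 13), (2, 5, 11), (2, 5, 12), (2, 8, 13), (3, 7, 10), (3, 10,
      11), (4, 6, 12), (4, 6, 13), (5, 11, 14), (5, 12, 14), (6, 9, 13), (6, 9, 14), (6, 12, 14)]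
    fin := [0, 0, 0, 0, 4, 0, 6, 0, 0, 9, 10, 11, 4, 4, 6]
    chd := [(0, 6), (0, 11)]
    steps := [(0, 1), (0, 2), (0, 5), (0, 7), (0, 3), (0, 8), (4, 12), (4, 13), (6, 14)] }
  rep := [0, 4, 9, 11, 6, 10]

noncomputable def v3273 : Cov.CovD where
  P := 3
  N := 3
  pl := [2, 3]
  lev := [⟨[], [], [(0, 0)], [], [(0, 0, [3, 4]), (1, 0, [3, 4])]⟩,
    ⟨[], [(0, 0)], [(0, 0)], [2, 5], [(0, 0, [3, 4]), (1, 0, [3, 4])]⟩,
    ⟨[(0, 1)], [(0, 0), (0, 1), (0, 3), (1, 0)], [(0, 0), (0, 1), (0, 3), (1, 1), (1, 3)],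
      [], [(0, 0, [3, 4]), (1, 0, [3, 4]), (4, 3, [0]), (5, 1, []), (6, 1, [])]⟩,
    ⟨[(0, 2)], [(0, 0), (1, 0), (2, 0), (2, 1), (2, 3)], [(0, 3)], [5], [(0, 0, [3, 4]),
      (4, 3, [0])]⟩,
    ⟨[(0, 2), (2, 3)], [(2, 0), (2, 1), (2, 3)], [(1, 1)], [], [(5, 1, []), (6, 1, [])]⟩,
    ⟨[(0, 2), (2, 3), (2, 4)], [(2, 0), (2, 1), (2, 3), (2, 4), (3, 3), (4, 1)], [(1, 3),
      (1, 4), (3, 4)], [], [(4, 3, [0]), (5, 1, []), (7, 4, [0])]⟩,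
    ⟨[(2, 4)], [(2, 1), (4, 1), (4, 4), (5, 1), (5, 4)], [(1, 1), (1, 4)], [2], [(5, 1,
      []), (6, 1, []), (7, 4, [0])]⟩]
  Ta := [((0, 3), 0, 5), ((1, 2), 0, 2), ((1, 6), 0, 1), ((5, 7), 1, 4), ((6, 1), 1, 0), ((6, 2),
    1, 2)]
  Tb := [((1, 2, 6), 0, 2, 1), ((2, 1, 3), 2, 0, 5), ((2, 1, 6), 2, 0, 1), ((2, 1, 7), 2, 0, 4),
    ((2, 3, 6), 2, 5, 1), ((2, 3, 7), 2, 5, 4), ((2, 6, 7), 2, 1, 4), ((3, 0, 2), 5, 0, 2),
    ((3, 0, 4), 5, 0, 3), ((3, 2, 4), 5, 2, 3), ((4, 3, 7), 3, 5, 4), ((6, 1, 2), 1, 0, 2),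
    ((7, 2, 4), 4, 2, 3), ((7, 2, 5), 4, 2, 1), ((7, 4, 5), 4, 3, 1)]
  Tc := [(0, 3, 4)]
  Td := [((0, 3), (0, 3), 5), ((0, 3), (1, 2), 2), ((0, 3), (1, 6), 1), ((0, 4), (0, 3), 5), ((0,
    4), (1, 2), 2), ((0, 4), (1, 6), 1), ((3, 0), (4, 3), 5), ((3, 0), (4, 7), 4), ((4, 0),
    (7, 2), 2), ((4, 0), (7, 4), 3), ((4, 0), (7, 5), 1)]
  G := [[0, 0, 0, 0, 0x91489184c1181c29181486ca2], [0, 0, 0, 0x51181242c1242c184cc2,
    0x1284412421181188147ca911888c], [0, 0, 0xc111c114c4111c111c68, 0,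
    0x91419182c291189111c8c], [0, 0xc18141486c124c1416c8, 0x4141c111cc1118112cc2,
    0x51181242c12419114cc2, 0x91481281c91111282ca4]]

noncomputable def n3273 : Ent := ⟨e3273, noF, [], [], []⟩

def c3273 : PLift (Cov.check n3273.C.D v3273 = true) := ⟨by decide +kernel⟩

def b3273 : PLift (entF (fidx ts) 400 3273 n3273 = true) := ⟨by decide +kernel⟩

theorem g3273 : GoodF (fidx ts) 400 3273 := GoodF.ofV v3273 n3273 c3273.down b3273.down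

/-- 4594445:2501/2 -/
noncomputable def e3274 : SCfg where
  D := {
    a := 7
    L := 9
    kp := 6
    inn := [(0, 1), (0, 2), (1, 0), (2, 0), (2, 3), (2, 4), (2, 5), (3, 2), (4, 2), (4, 6), (5, 2), (6,
      4)]
    mix := [(0, 0), (0, 1), (1, 0), (1, 1), (1, 2), (1, 3), (2, 0), (2, 1), (2, 4), (2, 5), (2, 6), (3,
      0), (3, 3), (3, 4), (4, 5), (4, 6), (5, 4), (5, 5), (5, 7), (6, 5), (6, 6), (6, 7), (6, 8)]
    cl := [0, 0, 5, 2, 3, 1, 1, 4, 6]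
    chq := [(0, 3), (0, 4), (3, 0), (4, 0)]
    rng := [(0, 3), (1, 2), (1, 6), (2, 1), (2, 3), (3, 0), (3, 2), (3, 4), (4, 3), (4, 7), (5, 7), (6,
      1), (6, 8), (7, 4), (7, 5), (7, 8), (8, 6), (8, 7)]
    lev := [] }
  links := [[1, 7, 2, 8], [7, 0, 8, 9, 10], [8, 0, 7, 3, 11, 5, 12, 4, 13], [11, 2, 7, 10], [13, 2, 12,
    6], [12, 2, 11, 14], [13, 4, 12, 14, 15]]
  P := {
    a := 7
    N := 16
    nb := [390, 1921, 14777, 3204, 12356, 22532, 61456, 1039, 8711, 1282, 2698, 17452, 16500, 33108,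
      39008, 24640]
    tri := [(0, 1, 7), (0, 1, 8), (0, 2, 7), (0, 2, 8), (1, 7, 10), (1, 8, 9), (1, 9, 10), (2, 3, 7),
      (2, 3, 11), (2, 4, 12), (2, 4, 13), (2, 5, 11), (2, 5, 12), (2, 8, 13), (3, 7, 10), (3, 10,
      11), (4, 6, 12), (4, 6, 13), (5, 11, 14), (5, 12, 14), (6, 12, 14), (6, 13, 15), (6, 14,
      15)]
    fin := [0, 0, 0, 0, 4, 0, 6, 0, 0, 9, 10, 11, 4, 4, 6, 15]
    chd := [(0, 6), (0, 11)]
    steps := [(0, 1), (0, 2), (0, 5), (0, 7), (0, 3), (0, 8), (4, 12), (4, 13), (6, 14)] }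
  rep := [0, 4, 10, 11, 6, 9, 15]

noncomputable def v3274 : Cov.CovD where
  P := 3
  N := 4
  pl := [2, 3, 8]
  lev := [⟨[], [], [(0, 0)], [], [(0, 0, [3, 4]), (1, 0, [3, 4])]⟩,
    ⟨[], [(0, 0)], [(0, 0)], [2, 5], [(0, 0, [3, 4]), (1, 0, [3, 4])]⟩,
    ⟨[(0, 1)], [(0, 0), (0, 1), (0, 3), (1, 0)], [(0, 0), (0, 1), (0, 3), (1, 1), (1, 3)],
      [], [(0, 0, [3, 4]), (1, 0, [3, 4]), (4, 3, [0]), (5, 1, []), (6, 1, [])]⟩,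
    ⟨[(0, 2)], [(0, 0), (1, 0), (2, 0), (2, 1), (2, 3)], [(0, 3)], [2], [(0, 0, [3, 4]),
      (4, 3, [0])]⟩,
    ⟨[(0, 2), (2, 3)], [(2, 0), (2, 1), (2, 3)], [(1, 1)], [], [(5, 1, []), (6, 1, [])]⟩,
    ⟨[(0, 2), (2, 3), (2, 4)], [(2, 0), (2, 1), (2, 3), (2, 4), (3, 3), (4, 1)], [(1, 3),
      (1, 4), (3, 4)], [], [(4, 3, [0]), (5, 1, []), (7, 4, [0])]⟩,
    ⟨[(2, 4)], [(2, 1), (4, 1), (4, 4), (5, 1), (5, 4)], [(1, 1), (1, 4)], [6], [(5, 1,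
      []), (6, 1, []), (7, 4, [0])]⟩]
  Ta := [((0, 3), 0, 2), ((1, 2), 0, 5), ((1, 6), 0, 1), ((5, 7), 1, 4), ((6, 1), 1, 0), ((6, 8),
    1, 6)]
  Tb := [((1, 2, 6), 0, 5, 1), ((2, 1, 3), 5, 0, 2), ((3, 0, 2), 2, 0, 5), ((3, 0, 4), 2, 0, 3),
    ((3, 2, 4), 2, 5, 3), ((4, 3, 7), 3, 2, 4), ((6, 1, 8), 1, 0, 6), ((7, 4, 5), 4, 3, 1),
    ((7, 4, 8), 4, 3, 6), ((7, 5, 8), 4, 1, 6), ((8, 6, 7), 6, 1, 4)]
  Tc := [(0, 3, 4)]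
  Td := [((0, 3), (0, 3), 2), ((0, 3), (1, 2), 5), ((0, 3), (1, 6), 1), ((0, 4), (0, 3), 2), ((0,
    4), (1, 2), 5), ((0, 4), (1, 6), 1), ((3, 0), (4, 3), 2), ((3, 0), (4, 7), 4), ((4, 0),
    (7, 4), 3), ((4, 0), (7, 5), 1), ((4, 0), (7, 8), 6)]
  G := [[0, 0, 0xd118d112cd118d112ca4, 0xd148d184cd148d184cc2, 0xd148d182cd148d182ca2], [0, 0,
    0xd118d184cd212d114cc2, 0xd118d184cd248d114cc2, 0xd118d282cd118d282ca4], [0, 0, 0,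
    0xd141d184c4d118d111c8c, 0xd148d182cd148d111ca4], [0, 0xe188e1416e124e181ac8, 0,
    0xd241d184c4d118d281c8c, 0xd118d281cd248d181ca4]]

noncomputable def n3274 : Ent := ⟨e3274, noF, [], [], [(15, 9, [360035742630636841345797572106540607504961255222653860056961025, 0])]⟩

def c3274 : PLift (Cov.check n3274.C.D v3274 = true) := ⟨by decide +kernel⟩

def b3274 : PLift (entF (fidx ts) 400 3274 n3274 = true) := ⟨by decide +kernel⟩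

theorem g3274 : GoodF (fidx ts) 400 3274 := GoodF.ofV v3274 n3274 c3274.down b3274.down

/-- 4594445:2501/4 -/
noncomputable def e3275 : SCfg where
  D := {
    a := 7
    L := 9
    kp := 6
    inn := [(0, 1), (0, 2), (1, 0), (2, 0), (2, 3), (2, 4), (2, 5), (3, 2), (4, 2), (4, 6), (5, 2), (6,
      4)]
    mix := [(0, 0), (0, 1), (1, 0), (1, 1), (1, 2), (1, 3), (2, 0), (2, 1), (2, 4), (2, 5), (2, 6), (3,
      0), (3, 3), (3, 4), (4, 5), (4, 6), (5, 4), (5, 5), (5, 7), (6, 2), (6, 5), (6, 6), (6, 8)]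
    cl := [0, 0, 2, 4, 3, 1, 1, 5, 6]
    chq := [(0, 3), (0, 5), (3, 0), (5, 0)]
    rng := [(0, 3), (1, 2), (1, 6), (2, 1), (2, 3), (2, 6), (2, 8), (3, 0), (3, 2), (3, 4), (4, 3), (4,
      7), (5, 7), (5, 8), (6, 1), (6, 2), (7, 4), (7, 5), (8, 2), (8, 5)]
    lev := [] }
  links := [[1, 7, 2, 8], [7, 0, 8, 9, 10], [8, 0, 7, 3, 11, 5, 12, 4, 13], [11, 2, 7, 10], [13, 2, 12,
    6], [12, 2, 11, 14], [13, 4, 12, 15, 9]]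
  P := {
    a := 7
    N := 16
    nb := [390, 1921, 14777, 3204, 12356, 22532, 45584, 1039, 8711, 42306, 2698, 17452, 49268, 852,
      6176, 4672]
    tri := [(0, 1, 7), (0, 1, 8), (0, 2, 7), (0, 2, 8), (1, 7, 10), (1, 8, 9), (1, 9, 10), (2, 3, 7),
      (2, 3, 11), (2, 4, 12), (2, 4, 13), (2, 5, 11), (2, 5, 12), (2, 8, 13), (3, 7, 10), (3, 10,
      11), (4, 6, 12), (4, 6, 13), (5, 11, 14), (5, 12, 14), (6, 9, 13), (6, 9, 15), (6, 12, 15)]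
    fin := [0, 0, 0, 0, 0, 0, 6, 0, 0, 9, 10, 11, 6, 6, 14, 15]
    chd := [(0, 11), (0, 14)]
    steps := [(0, 1), (0, 2), (0, 4), (0, 5), (0, 7), (0, 3), (0, 8), (6, 12), (6, 13)] }
  rep := [0, 6, 9, 11, 10, 14, 15]

noncomputable def v3275 : Cov.CovD where
  P := 3
  N := 4
  pl := [2, 3, 8]
  lev := [⟨[], [], [(0, 0)], [], [(0, 0, [3, 5]), (1, 0, [3, 5])]⟩,
    ⟨[], [(0, 0)], [(0, 0)], [2, 4], [(0, 0, [3, 5]), (1, 0, [3, 5])]⟩,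
    ⟨[(0, 1)], [(0, 0), (0, 1), (0, 3), (1, 0)], [(0, 0), (0, 1), (0, 3), (1, 1), (1, 3)],
      [], [(0, 0, [3, 5]), (1, 0, [3, 5]), (4, 3, [0]), (5, 1, []), (6, 1, [])]⟩,
    ⟨[(0, 2)], [(0, 0), (1, 0), (2, 0), (2, 1), (2, 3)], [(0, 3)], [4], [(0, 0, [3, 5]),
      (4, 3, [0])]⟩,
    ⟨[(0, 2), (2, 3)], [(2, 0), (2, 1), (2, 3)], [(1, 1)], [], [(5, 1, []), (6, 1, [])]⟩,
    ⟨[(0, 2), (2, 3), (2, 4)], [(2, 0), (2, 1), (2, 3), (2, 5), (3, 3), (4, 1)], [(1, 3),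
      (1, 5), (3, 5)], [], [(4, 3, [0]), (5, 1, []), (7, 5, [0])]⟩,
    ⟨[(2, 4)], [(2, 1), (4, 1), (5, 1)], [(1, 1)], [2, 6], [(5, 1, []), (6, 1, [])]⟩]
  Ta := [((0, 3), 0, 4), ((1, 2), 0, 2), ((1, 6), 0, 1), ((5, 7), 1, 5), ((5, 8), 1, 6), ((6, 1),
    1, 0), ((6, 2), 1, 2)]
  Tb := [((1, 2, 6), 0, 2, 1), ((2, 1, 3), 2, 0, 4), ((2, 1, 6), 2, 0, 1), ((2, 1, 8), 2, 0, 6),
    ((2, 3, 6), 2, 4, 1), ((2, 3, 8), 2, 4, 6), ((2, 6, 8), 2, 1, 6), ((3, 0, 2), 4, 0, 2),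
    ((3, 0, 4), 4, 0, 3), ((3, 2, 4), 4, 2, 3), ((4, 3, 7), 3, 4, 5), ((5, 7, 8), 1, 5, 6),
    ((6, 1, 2), 1, 0, 2), ((7, 4, 5), 5, 3, 1), ((8, 2, 5), 6, 2, 1)]
  Tc := [(0, 3, 5)]
  Td := [((0, 3), (0, 3), 4), ((0, 3), (1, 2), 2), ((0, 3), (1, 6), 1), ((0, 5), (0, 3), 4), ((0,
    5), (1, 2), 2), ((0, 5), (1, 6), 1), ((3, 0), (4, 3), 4), ((3, 0), (4, 7), 5), ((5, 0),
    (7, 4), 3), ((5, 0), (7, 5), 1)]
  G := [[0, 0, 0, 0, 0x91189184c91129189186ca2], [0, 0, 0, 0x51485112cc1129114cc2,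
    0x91189184c92129189146ca2], [0, 0, 0xc111c111cc141c112c68, 0, 0x9141491129114ca911888c],
    [0, 0xc181c1416c121c141ac2, 0xc248c181cc1418c2824e4, 0xc1185181c5142c114cc2,
    0x91189111c92129181ca4]]

noncomputable def n3275 : Ent := ⟨e3275, noF, [], [], [(14, 15, [360035742630636841211993100915356868655746945586763691021078529, 0])]⟩

def c3275 : PLift (Cov.check n3275.C.D v3275 = true) := ⟨by decide +kernel⟩

def b3275 : PLift (entF (fidx ts) 400 3275 n3275 = true) := ⟨by decide +kernel⟩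

theorem g3275 : GoodF (fidx ts) 400 3275 := GoodF.ofV v3275 n3275 c3275.down b3275.down

/-- 4594445:2501/1 -/
noncomputable def e3276 : SCfg where
  D := {
    a := 7
    L := 10
    kp := 7
    inn := [(0, 1), (0, 2), (1, 0), (2, 0), (2, 3), (2, 4), (2, 5), (3, 2), (4, 2), (4, 6), (5, 2), (6,
      4)]
    mix := [(0, 0), (0, 1), (1, 0), (1, 1), (1, 2), (1, 3), (2, 0), (2, 1), (2, 4), (2, 5), (2, 6), (3,
      0), (3, 3), (3, 4), (4, 5), (4, 6), (5, 4), (5, 5), (5, 7), (6, 5), (6, 6), (6, 8), (6, 9)]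
    cl := [0, 0, 5, 2, 3, 1, 1, 4, 6, 7]
    chq := [(0, 3), (0, 4), (3, 0), (4, 0)]
    rng := [(0, 3), (1, 2), (1, 6), (2, 1), (2, 3), (3, 0), (3, 2), (3, 4), (4, 3), (4, 7), (5, 7), (5,
      8), (6, 1), (6, 9), (7, 4), (7, 5), (8, 5), (8, 9), (9, 6), (9, 8)]
    lev := [] }
  links := [[1, 7, 2, 8], [7, 0, 8, 9, 10], [8, 0, 7, 3, 11, 5, 12, 4, 13], [11, 2, 7, 10], [13, 2, 12,
    6], [12, 2, 11, 14], [13, 4, 12, 15, 16]]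
  P := {
    a := 7
    N := 17
    nb := [390, 1921, 14777, 3204, 12356, 22532, 110608, 1039, 8711, 1282, 2698, 17452, 49268, 65876,
      6176, 69696, 41024]
    tri := [(0, 1, 7), (0, 1, 8), (0, 2, 7), (0, 2, 8), (1, 7, 10), (1, 8, 9), (1, 9, 10), (2, 3, 7),
      (2, 3, 11), (2, 4, 12), (2, 4, 13), (2, 5, 11), (2, 5, 12), (2, 8, 13), (3, 7, 10), (3, 10,
      11), (4, 6, 12), (4, 6, 13), (5, 11, 14), (5, 12, 14), (6, 12, 15), (6, 13, 16), (6, 15,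
      16)]
    fin := [0, 0, 0, 0, 0, 0, 6, 0, 0, 9, 10, 11, 6, 6, 14, 15, 16]
    chd := [(0, 11), (0, 14)]
    steps := [(0, 1), (0, 2), (0, 4), (0, 5), (0, 7), (0, 3), (0, 8), (6, 12), (6, 13)] }
  rep := [0, 6, 10, 11, 14, 9, 15, 16]

noncomputable def v3276 : Cov.CovD where
  P := 3
  N := 5
  pl := [2, 3, 8, 9]
  lev := [⟨[], [], [(0, 0)], [], [(0, 0, [3, 4]), (1, 0, [3, 4])]⟩,
    ⟨[], [(0, 0)], [(0, 0)], [2, 5], [(0, 0, [3, 4]), (1, 0, [3, 4])]⟩,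
    ⟨[(0, 1)], [(0, 0), (0, 1), (0, 3), (1, 0)], [(0, 0), (0, 1), (0, 3), (1, 1), (1, 3)],
      [], [(0, 0, [3, 4]), (1, 0, [3, 4]), (4, 3, [0]), (5, 1, []), (6, 1, [])]⟩,
    ⟨[(0, 2)], [(0, 0), (1, 0), (2, 0), (2, 1), (2, 3)], [(0, 3)], [2], [(0, 0, [3, 4]),
      (4, 3, [0])]⟩,
    ⟨[(0, 2), (2, 3)], [(2, 0), (2, 1), (2, 3)], [(1, 1)], [], [(5, 1, []), (6, 1, [])]⟩,
    ⟨[(0, 2), (2, 3), (2, 4)], [(2, 0), (2, 1), (2, 3), (2, 4), (3, 3), (4, 1)], [(1, 3),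
      (1, 4), (3, 4)], [], [(4, 3, [0]), (5, 1, []), (7, 4, [0])]⟩,
    ⟨[(2, 4)], [(2, 1), (4, 1), (5, 1)], [(1, 1)], [6, 7], [(5, 1, []), (6, 1, [])]⟩]
  Ta := [((0, 3), 0, 2), ((1, 2), 0, 5), ((1, 6), 0, 1), ((5, 7), 1, 4), ((5, 8), 1, 6), ((6, 1),
    1, 0), ((6, 9), 1, 7)]
  Tb := [((1, 2, 6), 0, 5, 1), ((2, 1, 3), 5, 0, 2), ((3, 0, 2), 2, 0, 5), ((3, 0, 4), 2, 0, 3),
    ((3, 2, 4), 2, 5, 3), ((4, 3, 7), 3, 2, 4), ((5, 7, 8), 1, 4, 6), ((6, 1, 9), 1, 0, 7),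
    ((7, 4, 5), 4, 3, 1), ((8, 5, 9), 6, 1, 7), ((9, 6, 8), 7, 1, 6)]
  Tc := [(0, 3, 4)]
  Td := [((0, 3), (0, 3), 2), ((0, 3), (1, 2), 5), ((0, 3), (1, 6), 1), ((0, 4), (0, 3), 2), ((0,
    4), (1, 2), 5), ((0, 4), (1, 6), 1), ((3, 0), (4, 3), 2), ((3, 0), (4, 7), 4), ((4, 0),
    (7, 4), 3), ((4, 0), (7, 5), 1)]
  G := [[0, 0, 0xd148d184cd118d184c62, 0xd148d114cd148d114cc2, 0xd118d112cd148d112ca4], [0, 0,
    0xd148d114cd118d184cc2, 0xd218d114cd148d284cc2, 0xd148d212cd118d182ca4], [0, 0, 0,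
    0xd118d114cd118d114cc2, 0xd118d182cd112d111ca4], [0, 0xe124e1816e121e1816c8, 0,
    0xd248d114cd148d184cc2, 0xd118d181cd118d111ca4]]

noncomputable def n3276 : Ent := ⟨e3276, noF, [], [], [(14, 15, [1685356702439545624007900436039642273970977273354372543760013500417, 0]), (16, 9, [1580044410770988437310138513572361556014072927981731971036244389889, 0])]⟩

def c3276 : PLift (Cov.check n3276.C.D v3276 = true) := ⟨by decide +kernel⟩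

def b3276 : PLift (entF (fidx ts) 400 3276 n3276 = true) := ⟨by decide +kernel⟩

theorem g3276 : GoodF (fidx ts) 400 3276 := GoodF.ofV v3276 n3276 c3276.down b3276.down

/-- 4594445:2501/6 -/
noncomputable def e3277 : SCfg where
  D := {
    a := 7
    L := 9
    kp := 6
    inn := [(0, 1), (0, 2), (1, 0), (2, 0), (2, 3), (2, 4), (2, 5), (3, 2), (4, 2), (4, 6), (5, 2), (6,
      4)]
    mix := [(0, 0), (0, 1), (1, 0), (1, 1), (1, 2), (1, 3), (2, 0), (2, 1), (2, 4), (2, 5), (2, 6), (3,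
      0), (3, 4), (3, 7), (4, 5), (4, 6), (5, 4), (5, 5), (5, 8), (6, 2), (6, 5), (6, 6), (6, 8)]
    cl := [0, 0, 2, 5, 3, 1, 1, 6, 4]
    chq := [(0, 3), (0, 4), (3, 0), (4, 0)]
    rng := [(0, 3), (0, 7), (1, 2), (1, 6), (2, 1), (2, 3), (2, 6), (2, 8), (3, 0), (3, 2), (4, 7), (4,
      8), (5, 8), (6, 1), (6, 2), (7, 0), (7, 4), (8, 2), (8, 4), (8, 5)]
    lev := [] }
  links := [[1, 7, 2, 8], [7, 0, 8, 9, 10], [8, 0, 7, 3, 11, 5, 12, 4, 13], [11, 2, 7, 14], [13, 2, 12,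
    6], [12, 2, 11, 15], [13, 4, 12, 15, 9]]
  P := {
    a := 7
    N := 16
    nb := [390, 1921, 14777, 18564, 12356, 38916, 45584, 17423, 8711, 42306, 642, 49196, 32884, 852,
      2184, 6752]
    tri := [(0, 1, 7), (0, 1, 8), (0, 2, 7), (0, 2, 8), (1, 7, 10), (1, 8, 9), (1, 9, 10), (2, 3, 7),
      (2, 3, 11), (2, 4, 12), (2, 4, 13), (2, 5, 11), (2, 5, 12), (2, 8, 13), (3, 7, 14), (3, 11,
      14), (4, 6, 12), (4, 6, 13), (5, 11, 15), (5, 12, 15), (6, 9, 13), (6, 9, 15), (6, 12, 15)]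
    fin := [0, 0, 0, 0, 4, 0, 6, 0, 0, 9, 10, 11, 4, 4, 14, 6]
    chd := [(0, 6), (0, 11)]
    steps := [(0, 1), (0, 2), (0, 3), (0, 5), (0, 7), (0, 8), (4, 12), (4, 13), (6, 15)] }
  rep := [0, 4, 9, 11, 6, 10, 14]

noncomputable def v3277 : Cov.CovD where
  P := 3
  N := 4
  pl := [2, 3, 7]
  lev := [⟨[], [], [(0, 0)], [], [(0, 0, [3, 4]), (1, 0, [3, 4])]⟩,
    ⟨[], [(0, 0)], [(0, 0)], [2, 5], [(0, 0, [3, 4]), (1, 0, [3, 4])]⟩,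
    ⟨[(0, 1)], [(0, 0), (0, 1), (0, 3), (1, 0)], [(0, 0), (0, 1), (0, 3), (1, 1), (1, 3)],
      [], [(0, 0, [3, 4]), (1, 0, [3, 4]), (4, 3, [0]), (5, 1, []), (6, 1, [])]⟩,
    ⟨[(0, 2)], [(0, 0), (1, 0), (2, 0), (2, 1), (2, 3)], [(0, 3)], [6], [(0, 0, [3, 4]),
      (4, 3, [0])]⟩,
    ⟨[(0, 2), (2, 3)], [(2, 0), (2, 1), (2, 3)], [(1, 1)], [], [(5, 1, []), (6, 1, [])]⟩,
    ⟨[(0, 2), (2, 3), (2, 4)], [(2, 0), (2, 1), (2, 3), (2, 4), (3, 3), (4, 1)], [(1, 3),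
      (1, 4), (3, 4)], [], [(4, 3, [0]), (5, 1, []), (8, 4, [0])]⟩,
    ⟨[(2, 4)], [(2, 1), (4, 1), (4, 4), (5, 1), (5, 4)], [(1, 1), (1, 4)], [2], [(5, 1,
      []), (6, 1, []), (8, 4, [0])]⟩]
  Ta := [((0, 3), 0, 5), ((0, 7), 0, 6), ((1, 2), 0, 2), ((1, 6), 0, 1), ((5, 8), 1, 4), ((6, 1),
    1, 0), ((6, 2), 1, 2)]
  Tb := [((0, 3, 7), 0, 5, 6), ((1, 2, 6), 0, 2, 1), ((2, 1, 3), 2, 0, 5), ((2, 1, 6), 2, 0, 1),
    ((2, 1, 8), 2, 0, 4), ((2, 3, 6), 2, 5, 1), ((2, 3, 8), 2, 5, 4), ((2, 6, 8), 2, 1, 4),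
    ((3, 0, 2), 5, 0, 2), ((4, 7, 8), 3, 6, 4), ((6, 1, 2), 1, 0, 2), ((7, 0, 4), 6, 0, 3),
    ((8, 2, 4), 4, 2, 3), ((8, 2, 5), 4, 2, 1), ((8, 4, 5), 4, 3, 1)]
  Tc := [(0, 3, 4)]
  Td := [((0, 3), (0, 3), 5), ((0, 3), (0, 7), 6), ((0, 3), (1, 2), 2), ((0, 3), (1, 6), 1), ((0,
    4), (0, 3), 5), ((0, 4), (0, 7), 6), ((0, 4), (1, 2), 2), ((0, 4), (1, 6), 1), ((3, 0),
    (4, 7), 6), ((3, 0), (4, 8), 4), ((4, 0), (8, 2), 2), ((4, 0), (8, 4), 3), ((4, 0), (8,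
    5), 1)]
  G := [[0, 0, 0, 0, 0x914914a9189146c114114881b9189116ca2], [0, 0, 0,
    0xc14128a5181286c911128a9111246cc2, 0x914128a8891812864914124a9181286ca6], [0, 0,
    0xc11148581cc141c111c68, 0, 0x9148194a9181c911911a9181ca4], [0, 0x4188a1c181ac141c141ac4,
    0xc111c181cc1418c2814e4, 0x124124ac181c8124128a9141c46, 0x124124a9111c124128a11581ca2]]

noncomputable def n3277 : Ent := ⟨e3277, noF, [], [], [(14, 10, [385746751338781050996073827118545021217310372558043290369036289, 0])]⟩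

def c3277 : PLift (Cov.check n3277.C.D v3277 = true) := ⟨by decide +kernel⟩

def b3277 : PLift (entF (fidx ts) 400 3277 n3277 = true) := ⟨by decide +kernel⟩

theorem g3277 : GoodF (fidx ts) 400 3277 := GoodF.ofV v3277 n3277 c3277.down b3277.down

/-- 4594445:2501/5 -/
noncomputable def e3278 : SCfg where
  D := {
    a := 7
    L := 10
    kp := 7
    inn := [(0, 1), (0, 2), (1, 0), (2, 0), (2, 3), (2, 4), (2, 5), (3, 2), (4, 2), (4, 6), (5, 2), (6,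
      4)]
    mix := [(0, 0), (0, 1), (1, 0), (1, 1), (1, 2), (1, 3), (2, 0), (2, 1), (2, 4), (2, 5), (2, 6), (3,
      0), (3, 4), (3, 7), (4, 5), (4, 6), (5, 4), (5, 5), (5, 8), (6, 5), (6, 6), (6, 8), (6, 9)]
    cl := [0, 0, 4, 5, 2, 1, 1, 6, 3, 7]
    chq := [(0, 2), (0, 3), (2, 0), (3, 0)]
    rng := [(0, 3), (0, 7), (1, 2), (1, 6), (2, 1), (2, 3), (3, 0), (3, 2), (4, 7), (4, 8), (5, 8), (6,
      1), (6, 9), (7, 0), (7, 4), (8, 4), (8, 5), (8, 9), (9, 6), (9, 8)]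
    lev := [] }
  links := [[1, 7, 2, 8], [7, 0, 8, 9, 10], [8, 0, 7, 3, 11, 5, 12, 4, 13], [11, 2, 7, 14], [13, 2, 12,
    6], [12, 2, 11, 15], [13, 4, 12, 15, 16]]
  P := {
    a := 7
    N := 17
    nb := [390, 1921, 14777, 18564, 12356, 38916, 110608, 17423, 8711, 1282, 642, 49196, 32884, 65876,
      2184, 71776, 41024]
    tri := [(0, 1, 7), (0, 1, 8), (0, 2, 7), (0, 2, 8), (1, 7, 10), (1, 8, 9), (1, 9, 10), (2, 3, 7),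
      (2, 3, 11), (2, 4, 12), (2, 4, 13), (2, 5, 11), (2, 5, 12), (2, 8, 13), (3, 7, 14), (3, 11,
      14), (4, 6, 12), (4, 6, 13), (5, 11, 15), (5, 12, 15), (6, 12, 15), (6, 13, 16), (6, 15,
      16)]
    fin := [0, 0, 0, 0, 4, 0, 6, 0, 0, 9, 10, 11, 4, 4, 14, 6, 16]
    chd := [(0, 6), (0, 11)]
    steps := [(0, 1), (0, 2), (0, 3), (0, 5), (0, 7), (0, 8), (4, 12), (4, 13), (6, 15)] }
  rep := [0, 4, 11, 6, 9, 10, 14, 16]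

noncomputable def v3278 : Cov.CovD where
  P := 3
  N := 5
  pl := [2, 3, 7, 9]
  lev := [⟨[], [], [(0, 0)], [], [(0, 0, [2, 3]), (1, 0, [2, 3])]⟩,
    ⟨[], [(0, 0)], [(0, 0)], [4, 5], [(0, 0, [2, 3]), (1, 0, [2, 3])]⟩,
    ⟨[(0, 1)], [(0, 0), (0, 1), (0, 2), (1, 0)], [(0, 0), (0, 1), (0, 2), (1, 1), (1, 2)],
      [], [(0, 0, [2, 3]), (1, 0, [2, 3]), (4, 2, [0]), (5, 1, []), (6, 1, [])]⟩,
    ⟨[(0, 2)], [(0, 0), (1, 0), (2, 0), (2, 1), (2, 2)], [(0, 2)], [6], [(0, 0, [2, 3]),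
      (4, 2, [0])]⟩,
    ⟨[(0, 2), (2, 3)], [(2, 0), (2, 1), (2, 2)], [(1, 1)], [], [(5, 1, []), (6, 1, [])]⟩,
    ⟨[(0, 2), (2, 3), (2, 4)], [(2, 0), (2, 1), (2, 2), (2, 3), (3, 2), (4, 1)], [(1, 2),
      (1, 3), (2, 3)], [], [(4, 2, [0]), (5, 1, []), (8, 3, [0])]⟩,
    ⟨[(2, 4)], [(2, 1), (4, 1), (4, 3), (5, 1), (5, 3)], [(1, 1), (1, 3)], [7], [(5, 1,
      []), (6, 1, []), (8, 3, [0])]⟩]
  Ta := [((0, 3), 0, 5), ((0, 7), 0, 6), ((1, 2), 0, 4), ((1, 6), 0, 1), ((5, 8), 1, 3), ((6, 1),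
    1, 0), ((6, 9), 1, 7)]
  Tb := [((0, 3, 7), 0, 5, 6), ((1, 2, 6), 0, 4, 1), ((2, 1, 3), 4, 0, 5), ((3, 0, 2), 5, 0, 4),
    ((4, 7, 8), 2, 6, 3), ((6, 1, 9), 1, 0, 7), ((7, 0, 4), 6, 0, 2), ((8, 4, 5), 3, 2, 1),
    ((8, 4, 9), 3, 2, 7), ((8, 5, 9), 3, 1, 7), ((9, 6, 8), 7, 1, 3)]
  Tc := [(0, 2, 3)]
  Td := [((0, 2), (0, 3), 5), ((0, 2), (0, 7), 6), ((0, 2), (1, 2), 4), ((0, 2), (1, 6), 1), ((0,
    3), (0, 3), 5), ((0, 3), (0, 7), 6), ((0, 3), (1, 2), 4), ((0, 3), (1, 6), 1), ((2, 0),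
    (4, 7), 6), ((2, 0), (4, 8), 3), ((3, 0), (8, 4), 2), ((3, 0), (8, 5), 1), ((3, 0), (8,
    9), 7)]
  G := [[0, 0, 0xd14d11a8d14d14c8d18d11a4e4, 0xd118594c8d14d11c8d1451889c8e2,
    0xd11d11a8d11d14a8d14d14a8e2], [0, 0, 0xd21d28a4d11d11c4d11d18a4e8,
    0xd18d18c449518598c4d11d18c4e8, 0xd24d24a8d21d24a8d24d24a8e4], [0, 0,
    0x8591d11a4d14d1468d11d11c4e2, 0x95c418d1814d1114e2, 0xd1118d1418859418e2], [0,
    0xe1814e1214e1214e8, 0x95c8d21a4d11d1164d21d21c4e8, 0xd1114d181495c814e2,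
    0xd2418d24186d24188a]]

noncomputable def n3278 : Ent := ⟨e3278, noF, [], [], [(14, 10, [1685382413448253768217684516765845462123538836781343823359361458177, 0]), (16, 9, [1580044410770988437310138513572361556014072927981731971036244398081, 0])]⟩

def c3278 : PLift (Cov.check n3278.C.D v3278 = true) := ⟨by decide +kernel⟩

def b3278 : PLift (entF (fidx ts) 400 3278 n3278 = true) := ⟨by decide +kernel⟩

theorem g3278 : GoodF (fidx ts) 400 3278 := GoodF.ofV v3278 n3278 c3278.down b3278.down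

/-- 4594445:2501/7 -/
noncomputable def e3279 : SCfg where
  D := {
    a := 7
    L := 10
    kp := 7
    inn := [(0, 1), (0, 2), (1, 0), (2, 0), (2, 3), (2, 4), (2, 5), (3, 2), (4, 2), (4, 6), (5, 2), (6,
      4)]
    mix := [(0, 0), (0, 1), (1, 0), (1, 1), (1, 2), (1, 3), (2, 0), (2, 1), (2, 4), (2, 5), (2, 6), (3,
      0), (3, 4), (3, 7), (4, 5), (4, 6), (5, 4), (5, 5), (5, 8), (6, 2), (6, 5), (6, 6), (6, 9)]
    cl := [0, 0, 2, 5, 3, 1, 1, 6, 4, 7]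
    chq := [(0, 3), (0, 4), (3, 0), (4, 0)]
    rng := [(0, 3), (0, 7), (1, 2), (1, 6), (2, 1), (2, 3), (2, 6), (2, 9), (3, 0), (3, 2), (4, 7), (4,
      8), (5, 8), (5, 9), (6, 1), (6, 2), (7, 0), (7, 4), (8, 4), (8, 5), (9, 2), (9, 5)]
    lev := [] }
  links := [[1, 7, 2, 8], [7, 0, 8, 9, 10], [8, 0, 7, 3, 11, 5, 12, 4, 13], [11, 2, 7, 14], [13, 2, 12,
    6], [12, 2, 11, 15], [13, 4, 12, 16, 9]]
  P := {
    a := 7
    N := 17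
    nb := [390, 1921, 14777, 18564, 12356, 38916, 78352, 17423, 8711, 75074, 642, 49196, 98420, 852,
      2184, 6176, 4672]
    tri := [(0, 1, 7), (0, 1, 8), (0, 2, 7), (0, 2, 8), (1, 7, 10), (1, 8, 9), (1, 9, 10), (2, 3, 7),
      (2, 3, 11), (2, 4, 12), (2, 4, 13), (2, 5, 11), (2, 5, 12), (2, 8, 13), (3, 7, 14), (3, 11,
      14), (4, 6, 12), (4, 6, 13), (5, 11, 15), (5, 12, 15), (6, 9, 13), (6, 9, 16), (6, 12, 16)]
    fin := [0, 0, 0, 0, 0, 0, 6, 0, 0, 9, 10, 11, 6, 6, 14, 15, 16]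
    chd := [(0, 11), (0, 15)]
    steps := [(0, 1), (0, 2), (0, 3), (0, 4), (0, 5), (0, 7), (0, 8), (6, 12), (6, 13)] }
  rep := [0, 6, 9, 11, 15, 10, 14, 16]

noncomputable def v3279 : Cov.CovD where
  P := 3
  N := 5
  pl := [2, 3, 7, 9]
  lev := [⟨[], [], [(0, 0)], [], [(0, 0, [3, 4]), (1, 0, [3, 4])]⟩,
    ⟨[], [(0, 0)], [(0, 0)], [2, 5], [(0, 0, [3, 4]), (1, 0, [3, 4])]⟩,
    ⟨[(0, 1)], [(0, 0), (0, 1), (0, 3), (1, 0)], [(0, 0), (0, 1), (0, 3), (1, 1), (1, 3)],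
      [], [(0, 0, [3, 4]), (1, 0, [3, 4]), (4, 3, [0]), (5, 1, []), (6, 1, [])]⟩,
    ⟨[(0, 2)], [(0, 0), (1, 0), (2, 0), (2, 1), (2, 3)], [(0, 3)], [6], [(0, 0, [3, 4]),
      (4, 3, [0])]⟩,
    ⟨[(0, 2), (2, 3)], [(2, 0), (2, 1), (2, 3)], [(1, 1)], [], [(5, 1, []), (6, 1, [])]⟩,
    ⟨[(0, 2), (2, 3), (2, 4)], [(2, 0), (2, 1), (2, 3), (2, 4), (3, 3), (4, 1)], [(1, 3),
      (1, 4), (3, 4)], [], [(4, 3, [0]), (5, 1, []), (8, 4, [0])]⟩,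
    ⟨[(2, 4)], [(2, 1), (4, 1), (5, 1)], [(1, 1)], [2, 7], [(5, 1, []), (6, 1, [])]⟩]
  Ta := [((0, 3), 0, 5), ((0, 7), 0, 6), ((1, 2), 0, 2), ((1, 6), 0, 1), ((5, 8), 1, 4), ((5, 9),
    1, 7), ((6, 1), 1, 0), ((6, 2), 1, 2)]
  Tb := [((0, 3, 7), 0, 5, 6), ((1, 2, 6), 0, 2, 1), ((2, 1, 3), 2, 0, 5), ((2, 1, 6), 2, 0, 1),
    ((2, 1, 9), 2, 0, 7), ((2, 3, 6), 2, 5, 1), ((2, 3, 9), 2, 5, 7), ((2, 6, 9), 2, 1, 7),
    ((3, 0, 2), 5, 0, 2), ((4, 7, 8), 3, 6, 4), ((5, 8, 9), 1, 4, 7), ((6, 1, 2), 1, 0, 2),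
    ((7, 0, 4), 6, 0, 3), ((8, 4, 5), 4, 3, 1), ((9, 2, 5), 7, 2, 1)]
  Tc := [(0, 3, 4)]
  Td := [((0, 3), (0, 3), 5), ((0, 3), (0, 7), 6), ((0, 3), (1, 2), 2), ((0, 3), (1, 6), 1), ((0,
    4), (0, 3), 5), ((0, 4), (0, 7), 6), ((0, 4), (1, 2), 2), ((0, 4), (1, 6), 1), ((3, 0),
    (4, 7), 6), ((3, 0), (4, 8), 4), ((4, 0), (8, 4), 3), ((4, 0), (8, 5), 1)]
  G := [[0, 0, 0, 0, 0x914911a9119146c911911a9119186ca2], [0, 0, 0,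
    0x511924a5189246c911921a5185116cc2, 0x914911a9189286c911914a9119286ca2], [0, 0,
    0xc111c111cc141c111ca4, 0, 0x9119146491419189146ca911188c], [0, 0xc181c1816c121c181ac2,
    0xc141c211cc111c181cc2, 0x51815119216c5181c289146cc2, 0x9219216491419119186ca911188a]]

noncomputable def n3279 : Ent := ⟨e3279, noF, [], [], [(14, 10, [1685382413448253768217684516765845462123538836781343823359361462273, 0]), (15, 16, [1580044410770988437309982408355971841652082177953823432505702535169, 0])]⟩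

def c3279 : PLift (Cov.check n3279.C.D v3279 = true) := ⟨by decide +kernel⟩

def b3279 : PLift (entF (fidx ts) 400 3279 n3279 = true) := ⟨by decide +kernel⟩

theorem g3279 : GoodF (fidx ts) 400 3279 := GoodF.ofV v3279 n3279 c3279.down b3279.down

/-- 4594445:2501 -/
noncomputable def e3280 : SCfg where
  D := {
    a := 7
    L := 11
    kp := 8
    inn := [(0, 1), (0, 2), (1, 0), (2, 0), (2, 3), (2, 4), (2, 5), (3, 2), (4, 2), (4, 6), (5, 2), (6,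
      4)]
    mix := [(0, 0), (0, 1), (1, 0), (1, 1), (1, 2), (1, 3), (2, 0), (2, 1), (2, 4), (2, 5), (2, 6), (3,
      0), (3, 4), (3, 7), (4, 5), (4, 6), (5, 4), (5, 5), (5, 8), (6, 5), (6, 6), (6, 9), (6, 10)]
    cl := [0, 0, 4, 5, 2, 1, 1, 6, 3, 7, 8]
    chq := [(0, 2), (0, 3), (2, 0), (3, 0)]
    rng := [(0, 3), (0, 7), (1, 2), (1, 6), (2, 1), (2, 3), (3, 0), (3, 2), (4, 7), (4, 8), (5, 8), (5,
      9), (6, 1), (6, 10), (7, 0), (7, 4), (8, 4), (8, 5), (9, 5), (9, 10), (10, 6), (10, 9)]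
    lev := [] }
  links := [[1, 7, 2, 8], [7, 0, 8, 9, 10], [8, 0, 7, 3, 11, 5, 12, 4, 13], [11, 2, 7, 14], [13, 2, 12,
    6], [12, 2, 11, 15], [13, 4, 12, 16, 17]]
  P := {
    a := 7
    N := 18
    nb := [390, 1921, 14777, 18564, 12356, 38916, 208912, 17423, 8711, 1282, 642, 49196, 98420,
      131412, 2184, 6176, 135232, 73792]
    tri := [(0, 1, 7), (0, 1, 8), (0, 2, 7), (0, 2, 8), (1, 7, 10), (1, 8, 9), (1, 9, 10), (2, 3, 7),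
      (2, 3, 11), (2, 4, 12), (2, 4, 13), (2, 5, 11), (2, 5, 12), (2, 8, 13), (3, 7, 14), (3, 11,
      14), (4, 6, 12), (4, 6, 13), (5, 11, 15), (5, 12, 15), (6, 12, 16), (6, 13, 17), (6, 16,
      17)]
    fin := [0, 0, 0, 0, 0, 0, 6, 0, 0, 9, 10, 11, 6, 6, 14, 15, 16, 17]
    chd := [(0, 11), (0, 15)]
    steps := [(0, 1), (0, 2), (0, 3), (0, 4), (0, 5), (0, 7), (0, 8), (6, 12), (6, 13)] }
  rep := [0, 6, 11, 15, 9, 10, 14, 16, 17]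

noncomputable def v3280 : Cov.CovD where
  P := 3
  N := 6
  pl := [2, 3, 7, 9, 10]
  lev := [⟨[], [], [(0, 0)], [], [(0, 0, [2, 3]), (1, 0, [2, 3])]⟩,
    ⟨[], [(0, 0)], [(0, 0)], [4, 5], [(0, 0, [2, 3]), (1, 0, [2, 3])]⟩,
    ⟨[(0, 1)], [(0, 0), (0, 1), (0, 2), (1, 0)], [(0, 0), (0, 1), (0, 2), (1, 1), (1, 2)],
      [], [(0, 0, [2, 3]), (1, 0, [2, 3]), (4, 2, [0]), (5, 1, []), (6, 1, [])]⟩,
    ⟨[(0, 2)], [(0, 0), (1, 0), (2, 0), (2, 1), (2, 2)], [(0, 2)], [6], [(0, 0, [2, 3]),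
      (4, 2, [0])]⟩,
    ⟨[(0, 2), (2, 3)], [(2, 0), (2, 1), (2, 2)], [(1, 1)], [], [(5, 1, []), (6, 1, [])]⟩,
    ⟨[(0, 2), (2, 3), (2, 4)], [(2, 0), (2, 1), (2, 2), (2, 3), (3, 2), (4, 1)], [(1, 2),
      (1, 3), (2, 3)], [], [(4, 2, [0]), (5, 1, []), (8, 3, [0])]⟩,
    ⟨[(2, 4)], [(2, 1), (4, 1), (5, 1)], [(1, 1)], [7, 8], [(5, 1, []), (6, 1, [])]⟩]
  Ta := [((0, 3), 0, 5), ((0, 7), 0, 6), ((1, 2), 0, 4), ((1, 6), 0, 1), ((5, 8), 1, 3), ((5, 9),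
    1, 7), ((6, 1), 1, 0), ((6, 10), 1, 8)]
  Tb := [((0, 3, 7), 0, 5, 6), ((1, 2, 6), 0, 4, 1), ((2, 1, 3), 4, 0, 5), ((3, 0, 2), 5, 0, 4),
    ((4, 7, 8), 2, 6, 3), ((5, 8, 9), 1, 3, 7), ((6, 1, 10), 1, 0, 8), ((7, 0, 4), 6, 0, 2),
    ((8, 4, 5), 3, 2, 1), ((9, 5, 10), 7, 1, 8), ((10, 6, 9), 8, 1, 7)]
  Tc := [(0, 2, 3)]
  Td := [((0, 2), (0, 3), 5), ((0, 2), (0, 7), 6), ((0, 2), (1, 2), 4), ((0, 2), (1, 6), 1), ((0,
    3), (0, 3), 5), ((0, 3), (0, 7), 6), ((0, 3), (1, 2), 4), ((0, 3), (1, 6), 1), ((2, 0),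
    (4, 7), 6), ((2, 0), (4, 8), 3), ((3, 0), (8, 4), 2), ((3, 0), (8, 5), 1)]
  G := [[0, 0, 0xd11d11c4d18d11a4d11d14a8e2, 0xd114d118cd11d14c8d14d14c8e4,
    0xd11d11a8d14d14a8d14d14a8e2], [0, 0, 0xd18d28a4d21d21644192cd18c4e8,
    0xd14d11c8d11d18c4d11d11c8e2, 0xd24d21a8d24d24a8d14d21a8e4], [0, 0,
    0xd18d11a4d14d14a8d18d18a4e4, 0xd1114d1114d1418e8, 0xd1418d1118d1418e2], [0,
    0xe1814e1218e1814e2, 0xd21d21c4d11d21a4d18d18c4e8, 0xd1814d1118d1814e4,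
    0xd1118d2418d2418e2]]

noncomputable def n3280 : Ent := ⟨e3280, noF, [], [], [(14, 10, [7334790875878422277917645788186105388691426821767817058683541366030337, 0]), (15, 16, [7334685537875745012586738086077695515070955365108989538292687707103233, 0]), (17, 9, [6903326391201334775872066023091343012537746186634086559781921990963201, 0])]⟩

def c3280 : PLift (Cov.check n3280.C.D v3280 = true) := ⟨by decide +kernel⟩

def b3280 : PLift (entF (fidx ts) 400 3280 n3280 = true) := ⟨by decide +kernel⟩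

theorem g3280 : GoodF (fidx ts) 400 3280 := GoodF.ofV v3280 n3280 c3280.down b3280.down

/-- 4687454:2502/1 -/
noncomputable def e3281 : SCfg where
  D := {
    a := 7
    L := 10
    kp := 8
    inn := [(0, 1), (0, 3), (1, 0), (1, 2), (1, 3), (2, 1), (2, 3), (2, 4), (2, 5), (3, 0), (3, 1), (3,
      2), (3, 4), (4, 2), (4, 3), (5, 2), (5, 6), (6, 5)]
    mix := [(0, 0), (0, 1), (1, 0), (1, 2), (1, 3), (2, 2), (2, 4), (2, 5), (2, 6), (3, 1), (3, 7), (3,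
      8), (4, 4), (4, 8), (5, 4), (5, 5), (5, 9), (6, 4), (6, 8), (6, 9)]
    cl := [3, 2, 4, 6, 0, 0, 8, 7, 1, 5]
    chq := [(0, 3), (0, 4), (0, 6), (1, 3), (3, 0), (3, 1), (3, 7), (4, 0), (6, 0), (7, 3)]
    rng := [(0, 1), (0, 3), (1, 0), (1, 7), (2, 3), (2, 6), (3, 0), (3, 2), (4, 8), (5, 6), (5, 9), (6,
      2), (6, 5), (7, 1), (7, 8), (8, 4), (8, 7), (8, 9), (9, 5), (9, 8)]
    lev := [] }
  links := [[1, 7, 8, 3], [7, 0, 3, 2, 9, 10], [9, 1, 3, 4, 11, 5, 12, 13], [4, 2, 1, 0, 8, 14, 15], [11,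
    2, 3, 15], [12, 2, 11, 6, 16], [16, 5, 11, 15]]
  P := {
    a := 7
    N := 17
    nb := [394, 1677, 14906, 49431, 34828, 71748, 100384, 1283, 16521, 9222, 642, 32884, 73764, 4612,
      33032, 84056, 36960]
    tri := [(0, 1, 3), (0, 1, 7), (0, 3, 8), (0, 7, 8), (1, 2, 3), (1, 2, 9), (1, 7, 10), (1, 9, 10),
      (2, 3, 4), (2, 4, 11), (2, 5, 11), (2, 5, 12), (2, 9, 13), (2, 12, 13), (3, 4, 15), (3, 8,
      14), (3, 14, 15), (4, 11, 15), (5, 6, 11), (5, 6, 16), (5, 12, 16), (6, 11, 15), (6, 15,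
      16)]
    fin := [0, 1, 1, 0, 0, 5, 5, 0, 8, 9, 10, 1, 1, 13, 14, 5, 16]
    chd := [(0, 1), (0, 5), (0, 14), (9, 1), (10, 1)]
    steps := [(0, 3), (0, 4), (0, 7), (1, 2), (1, 11), (1, 12), (5, 6), (5, 15)] }
  rep := [1, 5, 8, 0, 9, 16, 10, 14, 13]

noncomputable def v3281 : Cov.CovD where
  P := 3
  N := 6
  pl := [1, 6, 9]
  lev := [⟨[], [], [], [2], [(0, 3, [0, 1, 7])]⟩,
    ⟨[], [(0, 3), (0, 4), (0, 6)], [(3, 4), (3, 6), (4, 6)], [], [(0, 3, [0, 1, 7]), (2, 4,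
      [0]), (3, 6, [0])]⟩,
    ⟨[(0, 1)], [(1, 0), (1, 3), (1, 4), (1, 6)], [(0, 0), (0, 4)], [8], [(2, 4, [0]), (4,
      0, [3, 4, 6]), (5, 0, [3, 4, 6])]⟩,
    ⟨[(0, 1), (0, 2), (1, 2)], [(0, 1), (0, 3), (0, 7), (1, 1), (1, 3), (1, 4), (1, 6), (1,
      7), (2, 0), (2, 1), (2, 4), (2, 7)], [(1, 7)], [2], [(7, 7, [3]), (8, 1, [3])]⟩,
    ⟨[(0, 3), (1, 2), (1, 3), (2, 3)], [(2, 0), (2, 1), (2, 4), (3, 0), (3, 1), (3, 7)],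
      [(0, 1)], [], [(4, 0, [3, 4, 6]), (8, 1, [3])]⟩,
    ⟨[(1, 2), (2, 3), (2, 4)], [(2, 0), (2, 4), (4, 0)], [(0, 0)], [5], [(4, 0, [3, 4, 6]),
      (5, 0, [3, 4, 6])]⟩,
    ⟨[(2, 5)], [(2, 0), (3, 1), (4, 0), (4, 1), (5, 0), (5, 1)], [(0, 1)], [5], [(4, 0, [3,
      4, 6]), (8, 1, [3])]⟩]
  Ta := [((4, 8), 0, 1), ((5, 6), 0, 8), ((5, 9), 0, 5)]
  Tb := [((0, 1, 3), 3, 2, 6), ((1, 0, 7), 2, 3, 7), ((2, 3, 6), 4, 6, 8), ((3, 0, 2), 6, 3, 4),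
    ((5, 6, 9), 0, 8, 5), ((6, 2, 5), 8, 4, 0), ((7, 1, 8), 7, 2, 1), ((8, 4, 7), 1, 0, 7),
    ((8, 4, 9), 1, 0, 5), ((8, 7, 9), 1, 7, 5), ((9, 5, 8), 5, 0, 1)]
  Tc := [(0, 3, 4), (0, 3, 6), (0, 4, 6), (3, 0, 1), (3, 0, 7), (3, 1, 7)]
  Td := [((0, 3), (4, 8), 1), ((0, 3), (5, 6), 8), ((0, 3), (5, 9), 5), ((0, 4), (4, 8), 1), ((0,
    4), (5, 6), 8), ((0, 4), (5, 9), 5), ((0, 6), (4, 8), 1), ((0, 6), (5, 6), 8), ((0, 6),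
    (5, 9), 5), ((1, 3), (8, 4), 0), ((1, 3), (8, 7), 7), ((1, 3), (8, 9), 5), ((3, 0), (0,
    1), 2), ((3, 0), (0, 3), 6), ((3, 1), (0, 1), 2), ((3, 1), (0, 3), 6), ((3, 7), (0, 1),
    2), ((3, 7), (0, 3), 6), ((4, 0), (2, 3), 6), ((4, 0), (2, 6), 8), ((6, 0), (3, 0), 3),
    ((6, 0), (3, 2), 4), ((7, 3), (7, 1), 2), ((7, 3), (7, 8), 1)]
  G := [[0x4862482a8484c84e1486288262884c28e1c, 0x82644262c826282a8c84c224c8ce11,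
    0x8c644868c84a44ca8c84a84868ce12, 0x4868484a8484a44e1486488c68884a48e1c,
    0x1164184a8184c41e2486418168181a41e8168184a8184a81e8c644864984a484a89486484c49eda], [0,
    0, 0x48644868c84a141a8c84a18168ce12, 0x8168484a1414c84e18164884a1884c18e1c,
    0x4168184a4181c81e28164181a4148641e4868181a8114c81e416414c4941a441a8984c441649eda]]

noncomputable def n3281 : Ent := ⟨e3281, noF, [], [], []⟩

def c3281 : PLift (Cov.check n3281.C.D v3281 = true) := ⟨by decide +kernel⟩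

def b3281 : PLift (entF (fidx ts) 400 3281 n3281 = true) := ⟨by decide +kernel⟩

theorem g3281 : GoodF (fidx ts) 400 3281 := GoodF.ofV v3281 n3281 c3281.down b3281.down

/-- 4687454:2502 -/
noncomputable def e3282 : SCfg where
  D := {
    a := 7
    L := 11
    kp := 9
    inn := [(0, 1), (0, 3), (1, 0), (1, 2), (1, 3), (2, 1), (2, 3), (2, 4), (2, 5), (3, 0), (3, 1), (3,
      2), (3, 4), (4, 2), (4, 3), (5, 2), (5, 6), (6, 5)]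
    mix := [(0, 0), (0, 1), (1, 0), (1, 2), (1, 3), (2, 2), (2, 4), (2, 5), (2, 6), (3, 1), (3, 7), (3,
      8), (4, 4), (4, 8), (5, 4), (5, 5), (5, 9), (6, 4), (6, 9), (6, 10)]
    cl := [1, 4, 3, 8, 0, 0, 6, 7, 2, 5, 9]
    chq := [(0, 1), (1, 0), (1, 2), (1, 3), (1, 6), (1, 7), (2, 1), (3, 1), (6, 1), (7, 1)]
    rng := [(0, 1), (0, 3), (1, 0), (1, 7), (2, 3), (2, 6), (3, 0), (3, 2), (4, 8), (4, 10), (5, 6),
      (5, 9), (6, 2), (6, 5), (7, 1), (7, 8), (8, 4), (8, 7), (9, 5), (9, 10), (10, 4), (10, 9)]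
    lev := [] }
  links := [[1, 7, 8, 3], [7, 0, 3, 2, 9, 10], [9, 1, 3, 4, 11, 5, 12, 13], [4, 2, 1, 0, 8, 14, 15], [11,
    2, 3, 15], [12, 2, 11, 6, 16], [16, 5, 11, 17]]
  P := {
    a := 7
    N := 18
    nb := [394, 1677, 14906, 49431, 34828, 71748, 198688, 1283, 16521, 9222, 642, 163956, 73764, 4612,
      33032, 18456, 135264, 67648]
    tri := [(0, 1, 3), (0, 1, 7), (0, 3, 8), (0, 7, 8), (1, 2, 3), (1, 2, 9), (1, 7, 10), (1, 9, 10),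
      (2, 3, 4), (2, 4, 11), (2, 5, 11), (2, 5, 12), (2, 9, 13), (2, 12, 13), (3, 4, 15), (3, 8,
      14), (3, 14, 15), (4, 11, 15), (5, 6, 11), (5, 6, 16), (5, 12, 16), (6, 11, 17), (6, 16,
      17)]
    fin := [0, 0, 0, 0, 0, 5, 5, 0, 8, 9, 10, 5, 5, 13, 14, 15, 16, 17]
    chd := [(0, 5), (0, 9), (0, 13), (0, 14), (0, 15)]
    steps := [(0, 1), (0, 2), (0, 3), (0, 4), (0, 7), (5, 6), (5, 11), (5, 12)] }
  rep := [5, 0, 15, 9, 8, 16, 13, 14, 10, 17]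

noncomputable def v3282 : Cov.CovD where
  P := 3
  N := 7
  pl := [1, 3, 9, 10]
  lev := [⟨[], [], [], [4], [(0, 1, [0, 2, 3, 6, 7])]⟩,
    ⟨[], [(0, 1), (0, 3)], [(1, 3)], [8], [(0, 1, [0, 2, 3, 6, 7]), (2, 3, [1])]⟩,
    ⟨[(0, 1)], [(1, 0), (1, 1), (1, 3), (1, 6)], [(0, 0), (0, 3), (0, 6), (3, 6)], [], [(2,
      3, [1]), (4, 0, [1]), (5, 0, [1]), (6, 6, [1])]⟩,
    ⟨[(0, 1), (0, 2), (1, 2)], [(0, 1), (0, 2), (0, 7), (1, 1), (1, 2), (1, 3), (1, 7), (2,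
      0), (2, 2), (2, 3), (2, 6), (2, 7)], [(2, 7)], [4], [(7, 7, [1]), (8, 2, [1])]⟩,
    ⟨[(0, 3), (1, 2), (1, 3), (2, 3)], [(2, 0), (2, 2), (2, 3), (2, 6), (3, 0), (3, 2), (3,
      7)], [(0, 2)], [], [(4, 0, [1]), (8, 2, [1])]⟩,
    ⟨[(1, 2), (2, 3), (2, 4)], [(2, 0), (2, 3), (2, 6), (4, 0)], [(0, 0)], [5], [(4, 0,
      [1]), (5, 0, [1])]⟩,
    ⟨[(2, 5)], [(2, 0), (4, 0), (5, 0)], [], [5, 9], [(4, 0, [1])]⟩]
  Ta := [((4, 8), 0, 2), ((4, 10), 0, 9), ((5, 6), 0, 6), ((5, 9), 0, 5)]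
  Tb := [((0, 1, 3), 1, 4, 8), ((1, 0, 7), 4, 1, 7), ((2, 3, 6), 3, 8, 6), ((3, 0, 2), 8, 1, 3),
    ((4, 8, 10), 0, 2, 9), ((5, 6, 9), 0, 6, 5), ((6, 2, 5), 6, 3, 0), ((7, 1, 8), 7, 4, 2),
    ((8, 4, 7), 2, 0, 7), ((9, 5, 10), 5, 0, 9), ((10, 4, 9), 9, 0, 5)]
  Tc := [(1, 0, 2), (1, 0, 3), (1, 0, 6), (1, 0, 7), (1, 2, 3), (1, 2, 6), (1, 2, 7), (1, 3, 6),
    (1, 3, 7), (1, 6, 7)]
  Td := [((0, 1), (4, 8), 2), ((0, 1), (4, 10), 9), ((0, 1), (5, 6), 6), ((0, 1), (5, 9), 5),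
    ((1, 0), (0, 1), 4), ((1, 0), (0, 3), 8), ((1, 2), (0, 1), 4), ((1, 2), (0, 3), 8), ((1,
    3), (0, 1), 4), ((1, 3), (0, 3), 8), ((1, 6), (0, 1), 4), ((1, 6), (0, 3), 8), ((1, 7),
    (0, 1), 4), ((1, 7), (0, 3), 8), ((2, 1), (8, 4), 0), ((2, 1), (8, 7), 7), ((3, 1), (2,
    3), 8), ((3, 1), (2, 6), 6), ((6, 1), (6, 2), 3), ((6, 1), (6, 5), 0), ((7, 1), (7, 1),
    4), ((7, 1), (7, 8), 2)]
  G := [[0,
    0x11c41211a411a8c116486311c41211641168c11684a31164111c8111a41e11c4111a8111a81e1168111c81cee,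
    0xa6c4a6c8c2a6c4825a6c4a6c8c2a6c8429ca642a6c4a6c8aac6a82a6c8a6c466ca682c6a82a6c82edd,
    0xa6c4a6c8a6c8d2a6c8a6c8a6c8d2a6c4a6c8a6c8d2d2,
    0xc6a824ca682c6a22a6c2a6c89e5ca622a6c2a6c8aaa6c8a6c8a2ca682c6a82a6c8a6c83edca622a6c8a6c83ac6a82a6c8a6c896cd],
    [0,
    0x11a81411a8111c81611a482711c81411c81211641168c11684ab1164111a4111a81e11a4111a8111a41e11c4111a81cee,
    0, 0x396459c895a8d216c8c168a1c8d2c1a816c4218e8d2d2,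
    0x16a82a6c186a6c116c892514a2321864316c8aa39c822c1682c1a82a1c895c83eda6c193c89293a821dc816cd]]

noncomputable def n3282 : Ent := ⟨e3282, noF, [], [], [(15, 17, [6903326391201334775872065844685381424292761054348340378595029943128065, 0])]⟩

def c3282 : PLift (Cov.check n3282.C.D v3282 = true) := ⟨by decide +kernel⟩

def b3282 : PLift (entF (fidx ts) 400 3282 n3282 = true) := ⟨by decide +kernel⟩

theorem g3282 : GoodF (fidx ts) 400 3282 := GoodF.ofV v3282 n3282 c3282.down b3282.down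

/-- 4687454:2503 -/
noncomputable def e3283 : SCfg where
  D := {
    a := 7
    L := 11
    kp := 9
    inn := [(0, 1), (0, 3), (1, 0), (1, 2), (1, 3), (2, 1), (2, 3), (2, 4), (2, 5), (3, 0), (3, 1), (3,
      2), (3, 4), (4, 2), (4, 3), (5, 2), (5, 6), (6, 5)]
    mix := [(0, 0), (0, 1), (1, 0), (1, 2), (1, 3), (2, 2), (2, 4), (2, 5), (2, 6), (3, 1), (3, 7), (3,
      8), (4, 4), (4, 8), (5, 4), (5, 5), (5, 9), (6, 5), (6, 9), (6, 10)]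
    cl := [1, 4, 3, 8, 0, 0, 6, 7, 2, 5, 9]
    chq := [(0, 1), (1, 0), (1, 2), (1, 3), (1, 6), (1, 7), (2, 1), (3, 1), (6, 1), (7, 1)]
    rng := [(0, 1), (0, 3), (1, 0), (1, 7), (2, 3), (2, 6), (3, 0), (3, 2), (4, 8), (4, 9), (5, 6), (5,
      10), (6, 2), (6, 5), (7, 1), (7, 8), (8, 4), (8, 7), (9, 4), (9, 10), (10, 5), (10, 9)]
    lev := [] }
  links := [[1, 7, 8, 3], [7, 0, 3, 2, 9, 10], [9, 1, 3, 4, 11, 5, 12, 13], [4, 2, 1, 0, 8, 14, 15], [11,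
    2, 3, 15], [12, 2, 11, 16, 6], [12, 5, 16, 17]]
  P := {
    a := 7
    N := 18
    nb := [394, 1677, 14906, 49431, 34828, 71748, 200736, 1283, 16521, 9222, 642, 98356, 139364, 4612,
      33032, 18456, 133216, 69696]
    tri := [(0, 1, 3), (0, 1, 7), (0, 3, 8), (0, 7, 8), (1, 2, 3), (1, 2, 9), (1, 7, 10), (1, 9, 10),
      (2, 3, 4), (2, 4, 11), (2, 5, 11), (2, 5, 12), (2, 9, 13), (2, 12, 13), (3, 4, 15), (3, 8,
      14), (3, 14, 15), (4, 11, 15), (5, 6, 12), (5, 6, 16), (5, 11, 16), (6, 12, 17), (6, 16,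
      17)]
    fin := [0, 0, 0, 0, 0, 5, 5, 0, 8, 9, 10, 5, 5, 13, 14, 15, 16, 17]
    chd := [(0, 5), (0, 9), (0, 13), (0, 14), (0, 15)]
    steps := [(0, 1), (0, 2), (0, 3), (0, 4), (0, 7), (5, 6), (5, 11), (5, 12)] }
  rep := [5, 0, 15, 9, 8, 16, 13, 14, 10, 17]

noncomputable def v3283 : Cov.CovD where
  P := 3
  N := 7
  pl := [1, 3, 9, 10]
  lev := [⟨[], [], [], [4], [(0, 1, [0, 2, 3, 6, 7])]⟩,
    ⟨[], [(0, 1), (0, 3)], [(1, 3)], [8], [(0, 1, [0, 2, 3, 6, 7]), (2, 3, [1])]⟩,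
    ⟨[(0, 1)], [(1, 0), (1, 1), (1, 3), (1, 6)], [(0, 0), (0, 3), (0, 6), (3, 6)], [], [(2,
      3, [1]), (4, 0, [1]), (5, 0, [1]), (6, 6, [1])]⟩,
    ⟨[(0, 1), (0, 2), (1, 2)], [(0, 1), (0, 2), (0, 7), (1, 1), (1, 2), (1, 3), (1, 7), (2,
      0), (2, 2), (2, 3), (2, 6), (2, 7)], [(2, 7)], [4], [(7, 7, [1]), (8, 2, [1])]⟩,
    ⟨[(0, 3), (1, 2), (1, 3), (2, 3)], [(2, 0), (2, 2), (2, 3), (2, 6), (3, 0), (3, 2), (3,
      7)], [(0, 2)], [], [(4, 0, [1]), (8, 2, [1])]⟩,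
    ⟨[(1, 2), (2, 3), (2, 4)], [(2, 0), (2, 3), (2, 6), (4, 0)], [(0, 0)], [5], [(4, 0,
      [1]), (5, 0, [1])]⟩,
    ⟨[(2, 5)], [(2, 0), (5, 0)], [], [5, 9], [(5, 0, [1])]⟩]
  Ta := [((4, 8), 0, 2), ((4, 9), 0, 5), ((5, 6), 0, 6), ((5, 10), 0, 9)]
  Tb := [((0, 1, 3), 1, 4, 8), ((1, 0, 7), 4, 1, 7), ((2, 3, 6), 3, 8, 6), ((3, 0, 2), 8, 1, 3),
    ((4, 8, 9), 0, 2, 5), ((5, 6, 10), 0, 6, 9), ((6, 2, 5), 6, 3, 0), ((7, 1, 8), 7, 4, 2),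
    ((8, 4, 7), 2, 0, 7), ((9, 4, 10), 5, 0, 9), ((10, 5, 9), 9, 0, 5)]
  Tc := [(1, 0, 2), (1, 0, 3), (1, 0, 6), (1, 0, 7), (1, 2, 3), (1, 2, 6), (1, 2, 7), (1, 3, 6),
    (1, 3, 7), (1, 6, 7)]
  Td := [((0, 1), (4, 8), 2), ((0, 1), (4, 9), 5), ((0, 1), (5, 6), 6), ((0, 1), (5, 10), 9),
    ((1, 0), (0, 1), 4), ((1, 0), (0, 3), 8), ((1, 2), (0, 1), 4), ((1, 2), (0, 3), 8), ((1,
    3), (0, 1), 4), ((1, 3), (0, 3), 8), ((1, 6), (0, 1), 4), ((1, 6), (0, 3), 8), ((1, 7),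
    (0, 1), 4), ((1, 7), (0, 3), 8), ((2, 1), (8, 4), 0), ((2, 1), (8, 7), 7), ((3, 1), (2,
    3), 8), ((3, 1), (2, 6), 6), ((6, 1), (6, 2), 3), ((6, 1), (6, 5), 0), ((7, 1), (7, 1),
    4), ((7, 1), (7, 8), 2)]
  G := [[0,
    0x11c41211c111a1c4311c41211641168c11c41161ca31164111a4111681e11a4111a8111641e11a4111681cee,
    0x11c411c8c211c482511c411c8c211c84291164211a411c8aa11a8211c811c4661168211a2211c82edd,
    0x95a4c164a1c4d216c4c168c164d2c1a4c1a8a1c4d2d2,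
    0x16a82a1c286a1c239c89251a62216c216c8aa16c82216c2216a8216c8a1c83ed1dc88211a622a1c8a1c83ac1a8216c816cf],
    [0,
    0x11c41211a111a1c116186311c41211641161c11a14a31164111a4111641e11c4111a8111c41e11a4111c81cee,
    0, 0xa6c1a6c8a6c4d2a6c1a6c8a6c4d2a6c4a6c8a6c4d2d2,
    0xc6a12a6c186a6c1a6c8925ca612a6c1a6c8aaa6c822ca682c6a82a6c8a6c83eda6c1a6c892c6a12a6c816cd]]

noncomputable def n3283 : Ent := ⟨e3283, noF, [], [], []⟩

def c3283 : PLift (Cov.check n3283.C.D v3283 = true) := ⟨by decide +kernel⟩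

def b3283 : PLift (entF (fidx ts) 400 3283 n3283 = true) := ⟨by decide +kernel⟩

theorem g3283 : GoodF (fidx ts) 400 3283 := GoodF.ofV v3283 n3283 c3283.down b3283.down

/-- 4674664:2506/3 -/
noncomputable def e3284 : SCfg where
  D := {
    a := 7
    L := 8
    kp := 5
    inn := [(0, 1), (0, 4), (0, 5), (1, 0), (1, 2), (1, 4), (2, 1), (2, 3), (2, 6), (3, 2), (4, 0), (4,
      1), (4, 5), (5, 0), (5, 4), (6, 2)]
    mix := [(0, 0), (1, 0), (1, 1), (1, 2), (2, 1), (2, 2), (2, 3), (2, 4), (3, 1), (3, 3), (3, 5), (4,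
      2), (4, 6), (4, 7), (5, 0), (5, 3), (5, 5), (5, 7), (6, 2), (6, 4), (6, 6)]
    cl := [1, 0, 0, 2, 3, 4, 5, 1]
    chq := [(0, 2), (0, 3), (2, 0), (3, 0)]
    rng := [(0, 1), (0, 5), (1, 0), (1, 5), (2, 6), (3, 4), (3, 5), (3, 7), (4, 3), (4, 6), (5, 0), (5,
      1), (5, 3), (6, 2), (6, 4), (6, 7), (7, 3), (7, 6)]
    lev := [] }
  links := [[1, 4, 5, 7], [4, 0, 7, 8, 2, 9], [9, 1, 8, 3, 10, 11, 6], [10, 2, 8, 12], [5, 0, 1, 9, 13,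
    14], [7, 0, 4, 14, 10, 12], [9, 2, 11, 13]]
  P := {
    a := 7
    N := 15
    nb := [178, 917, 3914, 5380, 25123, 21649, 10756, 4387, 4238, 8278, 22572, 9284, 1448, 19024,
      9264]
    tri := [(0, 1, 4), (0, 1, 7), (0, 4, 5), (0, 5, 7), (1, 2, 8), (1, 2, 9), (1, 4, 9), (1, 7, 8), (2,
      3, 8), (2, 3, 10), (2, 6, 9), (2, 6, 11), (2, 10, 11), (3, 8, 12), (3, 10, 12), (4, 5, 14),
      (4, 9, 13), (4, 13, 14), (5, 7, 12), (5, 10, 12), (5, 10, 14), (6, 9, 13), (6, 11, 13)]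
    fin := [0, 0, 2, 2, 0, 0, 2, 0, 2, 2, 10, 11, 12, 13, 0]
    chd := [(2, 10), (2, 11)]
    steps := [(0, 1), (0, 4), (0, 5), (0, 7), (0, 14), (2, 3), (2, 6), (2, 8), (2, 9)] }
  rep := [2, 0, 10, 11, 12, 13]

noncomputable def v3284 : Cov.CovD where
  P := 3
  N := 3
  pl := [5, 6]
  lev := [⟨[], [], [], [], [(0, 1, [])]⟩,
    ⟨[], [(0, 0), (0, 1)], [(0, 0), (0, 1)], [], [(0, 1, []), (1, 0, [2, 3]), (2, 0, [2,
      3])]⟩,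
    ⟨[(0, 1)], [(1, 0), (1, 1), (1, 2), (1, 3)], [(0, 0), (0, 2), (0, 3), (2, 3)], [], [(1,
      0, [2, 3]), (2, 0, [2, 3]), (3, 2, [0]), (4, 3, [0])]⟩,
    ⟨[(1, 2)], [(1, 0), (2, 0), (2, 2), (2, 3)], [(0, 2)], [4], [(1, 0, [2, 3]), (3, 2,
      [0])]⟩,
    ⟨[(0, 1), (1, 2)], [(0, 0), (0, 1), (1, 0), (1, 1), (2, 0)], [(0, 1)], [5], [(2, 0, [2,
      3]), (7, 1, [])]⟩,
    ⟨[(0, 1), (0, 4), (1, 4)], [(0, 1), (0, 2), (1, 1), (2, 2), (3, 2), (4, 0), (4, 1), (4,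
      2)], [(1, 1), (1, 2)], [4], [(0, 1, []), (3, 2, [0]), (7, 1, [])]⟩,
    ⟨[(1, 2), (2, 3)], [(1, 0), (2, 0), (2, 2), (2, 3), (4, 0)], [(0, 3)], [5], [(2, 0, [2,
      3]), (4, 3, [0])]⟩]
  Ta := [((0, 1), 1, 0), ((0, 5), 1, 4), ((1, 0), 0, 1), ((1, 5), 0, 4), ((2, 6), 0, 5), ((7, 3),
    1, 2), ((7, 6), 1, 5)]
  Tb := [((0, 1, 5), 1, 0, 4), ((1, 0, 5), 0, 1, 4), ((3, 4, 5), 2, 3, 4), ((3, 4, 7), 2, 3, 1),
    ((3, 5, 7), 2, 4, 1), ((4, 3, 6), 3, 2, 5), ((5, 0, 1), 4, 1, 0), ((5, 0, 3), 4, 1, 2),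
    ((5, 1, 3), 4, 0, 2), ((6, 2, 4), 5, 0, 3), ((6, 2, 7), 5, 0, 1), ((6, 4, 7), 5, 3, 1),
    ((7, 3, 6), 1, 2, 5)]
  Tc := [(0, 2, 3)]
  Td := [((0, 2), (1, 0), 1), ((0, 2), (1, 5), 4), ((0, 2), (2, 6), 5), ((0, 3), (1, 0), 1), ((0,
    3), (1, 5), 4), ((0, 3), (2, 6), 5), ((2, 0), (3, 4), 3), ((2, 0), (3, 5), 4), ((2, 0),
    (3, 7), 1), ((3, 0), (4, 3), 2), ((3, 0), (4, 6), 5)]
  G := [[0, 0x1818a888414a41848a1414acc64, 0x112112a212112aa44, 0, 0x3122282112aa18288c1], [0,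
    0, 0x1121c21141c2c28, 0x281241c281241cc24, 0x889149c2119119c2a42], [0, 0,
    0x142411281122e48, 0, 0xc1212121a48], [0, 0, 0x8141c21111c2a42, 0x8121c12121c1c21,
    0x8141c22161c1a42]]

noncomputable def n3284 : Ent := ⟨e3284, noF, [], [], []⟩

def c3284 : PLift (Cov.check n3284.C.D v3284 = true) := ⟨by decide +kernel⟩

def b3284 : PLift (entF (fidx ts) 400 3284 n3284 = true) := ⟨by decide +kernel⟩

theorem g3284 : GoodF (fidx ts) 400 3284 := GoodF.ofV v3284 n3284 c3284.down b3284.down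

/-- 4674664:2506/2 -/
noncomputable def e3285 : SCfg where
  D := {
    a := 7
    L := 9
    kp := 6
    inn := [(0, 1), (0, 4), (0, 5), (1, 0), (1, 2), (1, 4), (2, 1), (2, 3), (2, 6), (3, 2), (4, 0), (4,
      1), (4, 5), (5, 0), (5, 4), (6, 2)]
    mix := [(0, 0), (1, 0), (1, 1), (1, 2), (2, 1), (2, 2), (2, 3), (2, 4), (3, 1), (3, 3), (3, 5), (4,
      2), (4, 6), (4, 7), (5, 0), (5, 3), (5, 5), (5, 7), (6, 2), (6, 4), (6, 8)]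
    cl := [1, 0, 0, 2, 3, 4, 5, 1, 6]
    chq := [(0, 2), (0, 3), (2, 0), (3, 0)]
    rng := [(0, 1), (0, 5), (1, 0), (1, 5), (2, 6), (2, 8), (3, 4), (3, 5), (3, 7), (4, 3), (4, 8), (5,
      0), (5, 1), (5, 3), (6, 2), (6, 7), (7, 3), (7, 6), (8, 2), (8, 4)]
    lev := [] }
  links := [[1, 4, 5, 7], [4, 0, 7, 8, 2, 9], [9, 1, 8, 3, 10, 11, 6], [10, 2, 8, 12], [5, 0, 1, 9, 13,
    14], [7, 0, 4, 14, 10, 12], [9, 2, 11, 15]]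
  P := {
    a := 7
    N := 16
    nb := [178, 917, 3914, 5380, 25123, 21649, 35332, 4387, 4238, 41046, 22572, 33860, 1448, 16912,
      9264, 2624]
    tri := [(0, 1, 4), (0, 1, 7), (0, 4, 5), (0, 5, 7), (1, 2, 8), (1, 2, 9), (1, 4, 9), (1, 7, 8), (2,
      3, 8), (2, 3, 10), (2, 6, 9), (2, 6, 11), (2, 10, 11), (3, 8, 12), (3, 10, 12), (4, 5, 14),
      (4, 9, 13), (4, 13, 14), (5, 7, 12), (5, 10, 12), (5, 10, 14), (6, 9, 15), (6, 11, 15)]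
    fin := [0, 0, 2, 2, 0, 0, 2, 0, 2, 2, 10, 11, 12, 13, 0, 15]
    chd := [(2, 10), (2, 11)]
    steps := [(0, 1), (0, 4), (0, 5), (0, 7), (0, 14), (2, 3), (2, 6), (2, 8), (2, 9)] }
  rep := [2, 0, 10, 11, 12, 13, 15]

noncomputable def v3285 : Cov.CovD where
  P := 3
  N := 4
  pl := [5, 6, 8]
  lev := [⟨[], [], [], [], [(0, 1, [])]⟩,
    ⟨[], [(0, 0), (0, 1)], [(0, 0), (0, 1)], [], [(0, 1, []), (1, 0, [2, 3]), (2, 0, [2,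
      3])]⟩,
    ⟨[(0, 1)], [(1, 0), (1, 1), (1, 2), (1, 3)], [(0, 0), (0, 2), (0, 3), (2, 3)], [], [(1,
      0, [2, 3]), (2, 0, [2, 3]), (3, 2, [0]), (4, 3, [0])]⟩,
    ⟨[(1, 2)], [(1, 0), (2, 0), (2, 2), (2, 3)], [(0, 2)], [4], [(1, 0, [2, 3]), (3, 2,
      [0])]⟩,
    ⟨[(0, 1), (1, 2)], [(0, 0), (0, 1), (1, 0), (1, 1), (2, 0)], [(0, 1)], [5], [(2, 0, [2,
      3]), (7, 1, [])]⟩,
    ⟨[(0, 1), (0, 4), (1, 4)], [(0, 1), (0, 2), (1, 1), (2, 2), (3, 2), (4, 0), (4, 1), (4,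
      2)], [(1, 1), (1, 2)], [4], [(0, 1, []), (3, 2, [0]), (7, 1, [])]⟩,
    ⟨[(1, 2), (2, 3)], [(1, 0), (2, 0), (2, 2), (2, 3), (4, 0)], [(0, 3)], [6], [(2, 0, [2,
      3]), (4, 3, [0])]⟩]
  Ta := [((0, 1), 1, 0), ((0, 5), 1, 4), ((1, 0), 0, 1), ((1, 5), 0, 4), ((2, 6), 0, 5), ((2, 8),
    0, 6), ((7, 3), 1, 2), ((7, 6), 1, 5)]
  Tb := [((0, 1, 5), 1, 0, 4), ((1, 0, 5), 0, 1, 4), ((2, 6, 8), 0, 5, 6), ((3, 4, 5), 2, 3, 4),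
    ((3, 4, 7), 2, 3, 1), ((3, 5, 7), 2, 4, 1), ((4, 3, 8), 3, 2, 6), ((5, 0, 1), 4, 1, 0),
    ((5, 0, 3), 4, 1, 2), ((5, 1, 3), 4, 0, 2), ((6, 2, 7), 5, 0, 1), ((7, 3, 6), 1, 2, 5),
    ((8, 2, 4), 6, 0, 3)]
  Tc := [(0, 2, 3)]
  Td := [((0, 2), (1, 0), 1), ((0, 2), (1, 5), 4), ((0, 2), (2, 6), 5), ((0, 2), (2, 8), 6), ((0,
    3), (1, 0), 1), ((0, 3), (1, 5), 4), ((0, 3), (2, 6), 5), ((0, 3), (2, 8), 6), ((2, 0),
    (3, 4), 3), ((2, 0), (3, 5), 4), ((2, 0), (3, 7), 1), ((3, 0), (4, 3), 2), ((3, 0), (4,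
    8), 6)]
  G := [[0, 0x1818c1414ac181861414acc24, 0x142411221128e48, 0, 0x782c12a182112aa44], [0, 0,
    0x1111c21111c2a42, 0x1811ca41c6811411ccc24, 0x51c1c8d26819111caa42], [0, 0,
    0x112418281122e84, 0, 0xc1216121a48], [0, 0, 0x1111c21111c2c28, 0xa1a1c16161c1c24,
    0xc1c1c16161c1a48]]

noncomputable def n3285 : Ent := ⟨e3285, noF, [], [], [(15, 13, [360048296834107614573520772494203283988579150297652619090149377, 0])]⟩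

def c3285 : PLift (Cov.check n3285.C.D v3285 = true) := ⟨by decide +kernel⟩

def b3285 : PLift (entF (fidx ts) 400 3285 n3285 = true) := ⟨by decide +kernel⟩

theorem g3285 : GoodF (fidx ts) 400 3285 := GoodF.ofV v3285 n3285 c3285.down b3285.down

/-- 4674664:2506/4 -/
noncomputable def e3286 : SCfg where
  D := {
    a := 7
    L := 9
    kp := 6
    inn := [(0, 1), (0, 4), (0, 5), (1, 0), (1, 2), (1, 4), (2, 1), (2, 3), (2, 6), (3, 2), (4, 0), (4,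
      1), (4, 5), (5, 0), (5, 4), (6, 2)]
    mix := [(0, 0), (1, 0), (1, 1), (1, 2), (2, 1), (2, 2), (2, 3), (2, 4), (3, 1), (3, 3), (3, 5), (4,
      2), (4, 6), (4, 7), (5, 0), (5, 5), (5, 7), (5, 8), (6, 2), (6, 4), (6, 6)]
    cl := [1, 0, 0, 3, 4, 2, 5, 1, 6]
    chq := [(0, 3), (0, 4), (3, 0), (4, 0)]
    rng := [(0, 1), (0, 5), (1, 0), (1, 5), (2, 6), (3, 4), (3, 5), (4, 3), (4, 6), (5, 0), (5, 1), (5,
      3), (5, 8), (6, 2), (6, 4), (6, 7), (7, 6), (7, 8), (8, 5), (8, 7)]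
    lev := [] }
  links := [[1, 4, 5, 7], [4, 0, 7, 8, 2, 9], [9, 1, 8, 3, 10, 11, 6], [10, 2, 8, 12], [5, 0, 1, 9, 13,
    14], [7, 0, 4, 14, 15, 12], [9, 2, 11, 13]]
  P := {
    a := 7
    N := 16
    nb := [178, 917, 3914, 5380, 25123, 53393, 10756, 4387, 4238, 8278, 6156, 9284, 34216, 19024,
      41008, 20512]
    tri := [(0, 1, 4), (0, 1, 7), (0, 4, 5), (0, 5, 7), (1, 2, 8), (1, 2, 9), (1, 4, 9), (1, 7, 8), (2,
      3, 8), (2, 3, 10), (2, 6, 9), (2, 6, 11), (2, 10, 11), (3, 8, 12), (3, 10, 12), (4, 5, 14),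
      (4, 9, 13), (4, 13, 14), (5, 7, 12), (5, 12, 15), (5, 14, 15), (6, 9, 13), (6, 11, 13)]
    fin := [0, 0, 2, 2, 0, 0, 2, 0, 2, 2, 10, 11, 12, 13, 0, 15]
    chd := [(2, 10), (2, 11)]
    steps := [(0, 1), (0, 4), (0, 5), (0, 7), (0, 14), (2, 3), (2, 6), (2, 8), (2, 9)] }
  rep := [2, 0, 12, 10, 11, 13, 15]

noncomputable def v3286 : Cov.CovD where
  P := 3
  N := 4
  pl := [5, 6, 8]
  lev := [⟨[], [], [], [], [(0, 1, [])]⟩,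
    ⟨[], [(0, 0), (0, 1)], [(0, 0), (0, 1)], [], [(0, 1, []), (1, 0, [3, 4]), (2, 0, [3,
      4])]⟩,
    ⟨[(0, 1)], [(1, 0), (1, 1), (1, 3), (1, 4)], [(0, 0), (0, 3), (0, 4), (3, 4)], [], [(1,
      0, [3, 4]), (2, 0, [3, 4]), (3, 3, [0]), (4, 4, [0])]⟩,
    ⟨[(1, 2)], [(1, 0), (2, 0), (2, 3), (2, 4)], [(0, 3)], [2], [(1, 0, [3, 4]), (3, 3,
      [0])]⟩,
    ⟨[(0, 1), (1, 2)], [(0, 0), (0, 1), (1, 0), (1, 1), (2, 0)], [(0, 1)], [5], [(2, 0, [3,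
      4]), (7, 1, [])]⟩,
    ⟨[(0, 1), (0, 4), (1, 4)], [(0, 1), (1, 1), (4, 0), (4, 1)], [(1, 1)], [2, 6], [(0, 1,
      []), (7, 1, [])]⟩,
    ⟨[(1, 2), (2, 3)], [(1, 0), (2, 0), (2, 3), (2, 4), (4, 0)], [(0, 4)], [5], [(2, 0, [3,
      4]), (4, 4, [0])]⟩]
  Ta := [((0, 1), 1, 0), ((0, 5), 1, 2), ((1, 0), 0, 1), ((1, 5), 0, 2), ((2, 6), 0, 5), ((7, 6),
    1, 5), ((7, 8), 1, 6)]
  Tb := [((0, 1, 5), 1, 0, 2), ((1, 0, 5), 0, 1, 2), ((3, 4, 5), 3, 4, 2), ((4, 3, 6), 4, 3, 5),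
    ((5, 0, 1), 2, 1, 0), ((5, 0, 3), 2, 1, 3), ((5, 0, 8), 2, 1, 6), ((5, 1, 3), 2, 0, 3),
    ((5, 1, 8), 2, 0, 6), ((5, 3, 8), 2, 3, 6), ((6, 2, 4), 5, 0, 4), ((6, 2, 7), 5, 0, 1),
    ((6, 4, 7), 5, 4, 1), ((7, 6, 8), 1, 5, 6), ((8, 5, 7), 6, 2, 1)]
  Tc := [(0, 3, 4)]
  Td := [((0, 3), (1, 0), 1), ((0, 3), (1, 5), 2), ((0, 3), (2, 6), 5), ((0, 4), (1, 0), 1), ((0,
    4), (1, 5), 2), ((0, 4), (2, 6), 5), ((3, 0), (3, 4), 4), ((3, 0), (3, 5), 2), ((4, 0),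
    (4, 3), 3), ((4, 0), (4, 6), 5)]
  G := [[0, 0x41c12c681c11c6c211c11cc811c11cc4ca2, 0x11c2411c22611c288c1,
    0x1152441152822c122c1cac8, 0x3392822923392a11922e48], [0, 0,
    0x1411ca8d41411cc2611c1864d81882ac2, 0, 0x914168d1141c8da4319119c8199559c2ac2], [0, 0, 0,
    0xa1524c525225216655288c298c8, 0x5592242692c8929aa92122921ec1], [0, 0, 0, 0,
    0x66941211e89aa989266948898981921c2a9449c3ce4]]

noncomputable def n3286 : Ent := ⟨e3286, noF, [], [], [(10, 15, [360035742630636841211993100915356868655746945586763691021123585, 0])]⟩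

def c3286 : PLift (Cov.check n3286.C.D v3286 = true) := ⟨by decide +kernel⟩

def b3286 : PLift (entF (fidx ts) 400 3286 n3286 = true) := ⟨by decide +kernel⟩

theorem g3286 : GoodF (fidx ts) 400 3286 := GoodF.ofV v3286 n3286 c3286.down b3286.down

/-- 4674664:2506/1 -/
noncomputable def e3287 : SCfg where
  D := {
    a := 7
    L := 10
    kp := 7
    inn := [(0, 1), (0, 4), (0, 5), (1, 0), (1, 2), (1, 4), (2, 1), (2, 3), (2, 6), (3, 2), (4, 0), (4,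
      1), (4, 5), (5, 0), (5, 4), (6, 2)]
    mix := [(0, 0), (1, 0), (1, 1), (1, 2), (2, 1), (2, 2), (2, 3), (2, 4), (3, 1), (3, 3), (3, 5), (4,
      2), (4, 6), (4, 7), (5, 0), (5, 5), (5, 7), (5, 8), (6, 2), (6, 4), (6, 9)]
    cl := [1, 0, 0, 3, 4, 2, 5, 1, 6, 7]
    chq := [(0, 3), (0, 4), (3, 0), (4, 0)]
    rng := [(0, 1), (0, 5), (1, 0), (1, 5), (2, 6), (2, 9), (3, 4), (3, 5), (4, 3), (4, 9), (5, 0), (5,
      1), (5, 3), (5, 8), (6, 2), (6, 7), (7, 6), (7, 8), (8, 5), (8, 7), (9, 2), (9, 4)]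
    lev := [] }
  links := [[1, 4, 5, 7], [4, 0, 7, 8, 2, 9], [9, 1, 8, 3, 10, 11, 6], [10, 2, 8, 12], [5, 0, 1, 9, 13,
    14], [7, 0, 4, 14, 15, 12], [9, 2, 11, 16]]
  P := {
    a := 7
    N := 17
    nb := [178, 917, 3914, 5380, 25123, 53393, 68100, 4387, 4238, 73814, 6156, 66628, 34216, 16912,
      41008, 20512, 2624]
    tri := [(0, 1, 4), (0, 1, 7), (0, 4, 5), (0, 5, 7), (1, 2, 8), (1, 2, 9), (1, 4, 9), (1, 7, 8), (2,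
      3, 8), (2, 3, 10), (2, 6, 9), (2, 6, 11), (2, 10, 11), (3, 8, 12), (3, 10, 12), (4, 5, 14),
      (4, 9, 13), (4, 13, 14), (5, 7, 12), (5, 12, 15), (5, 14, 15), (6, 9, 16), (6, 11, 16)]
    fin := [0, 0, 2, 2, 0, 0, 2, 0, 2, 2, 10, 11, 12, 13, 0, 15, 16]
    chd := [(2, 10), (2, 11)]
    steps := [(0, 1), (0, 4), (0, 5), (0, 7), (0, 14), (2, 3), (2, 6), (2, 8), (2, 9)] }
  rep := [2, 0, 12, 10, 11, 13, 15, 16]

noncomputable def v3287 : Cov.CovD where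
  P := 3
  N := 5
  pl := [5, 6, 8, 9]
  lev := [⟨[], [], [], [], [(0, 1, [])]⟩,
    ⟨[], [(0, 0), (0, 1)], [(0, 0), (0, 1)], [], [(0, 1, []), (1, 0, [3, 4]), (2, 0, [3,
      4])]⟩,
    ⟨[(0, 1)], [(1, 0), (1, 1), (1, 3), (1, 4)], [(0, 0), (0, 3), (0, 4), (3, 4)], [], [(1,
      0, [3, 4]), (2, 0, [3, 4]), (3, 3, [0]), (4, 4, [0])]⟩,
    ⟨[(1, 2)], [(1, 0), (2, 0), (2, 3), (2, 4)], [(0, 3)], [2], [(1, 0, [3, 4]), (3, 3,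
      [0])]⟩,
    ⟨[(0, 1), (1, 2)], [(0, 0), (0, 1), (1, 0), (1, 1), (2, 0)], [(0, 1)], [5], [(2, 0, [3,
      4]), (7, 1, [])]⟩,
    ⟨[(0, 1), (0, 4), (1, 4)], [(0, 1), (1, 1), (4, 0), (4, 1)], [(1, 1)], [2, 6], [(0, 1,
      []), (7, 1, [])]⟩,
    ⟨[(1, 2), (2, 3)], [(1, 0), (2, 0), (2, 3), (2, 4), (4, 0)], [(0, 4)], [7], [(2, 0, [3,
      4]), (4, 4, [0])]⟩]
  Ta := [((0, 1), 1, 0), ((0, 5), 1, 2), ((1, 0), 0, 1), ((1, 5), 0, 2), ((2, 6), 0, 5), ((2, 9),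
    0, 7), ((7, 6), 1, 5), ((7, 8), 1, 6)]
  Tb := [((0, 1, 5), 1, 0, 2), ((1, 0, 5), 0, 1, 2), ((2, 6, 9), 0, 5, 7), ((3, 4, 5), 3, 4, 2),
    ((4, 3, 9), 4, 3, 7), ((5, 0, 1), 2, 1, 0), ((5, 0, 3), 2, 1, 3), ((5, 0, 8), 2, 1, 6),
    ((5, 1, 3), 2, 0, 3), ((5, 1, 8), 2, 0, 6), ((5, 3, 8), 2, 3, 6), ((6, 2, 7), 5, 0, 1),
    ((7, 6, 8), 1, 5, 6), ((8, 5, 7), 6, 2, 1), ((9, 2, 4), 7, 0, 4)]
  Tc := [(0, 3, 4)]
  Td := [((0, 3), (1, 0), 1), ((0, 3), (1, 5), 2), ((0, 3), (2, 6), 5), ((0, 3), (2, 9), 7), ((0,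
    4), (1, 0), 1), ((0, 4), (1, 5), 2), ((0, 4), (2, 6), 5), ((0, 4), (2, 9), 7), ((3, 0),
    (3, 4), 4), ((3, 0), (3, 5), 2), ((4, 0), (4, 3), 3), ((4, 0), (4, 9), 7)]
  G := [[0, 0x11c11c6411c11c61411c18ec611c11cc88a2, 0x11c2411c22611c288c1,
    0xb1c2441192866c2a152cac1, 0x7792811921192add922e48], [0, 0,
    0x11c441411cc2618822c11c11cc811c84c23, 0, 0x113168d1131c8da417935948d89d9199c2ac2], [0,
    0, 0, 0x99924492541192cc925ee921ac4, 0x3692cc929ee92161592ea9298c4], [0, 0, 0, 0,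
    0x11d59c2a9432588ae9832779379c889c89c9ee9ee9c1ce4]]

noncomputable def n3287 : Ent := ⟨e3287, noF, [], [], [(10, 15, [1685356702439545624007900436039642273970977273354372543760013545473, 0]), (16, 13, [1580044429602293643470024699863340111275081426260889765897806110721, 0])]⟩

def c3287 : PLift (Cov.check n3287.C.D v3287 = true) := ⟨by decide +kernel⟩

def b3287 : PLift (entF (fidx ts) 400 3287 n3287 = true) := ⟨by decide +kernel⟩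

theorem g3287 : GoodF (fidx ts) 400 3287 := GoodF.ofV v3287 n3287 c3287.down b3287.down

/-- 4674664:2506/6 -/
noncomputable def e3288 : SCfg where
  D := {
    a := 7
    L := 9
    kp := 6
    inn := [(0, 1), (0, 4), (0, 5), (1, 0), (1, 2), (1, 4), (2, 1), (2, 3), (2, 6), (3, 2), (4, 0), (4,
      1), (4, 5), (5, 0), (5, 4), (6, 2)]
    mix := [(0, 0), (1, 0), (1, 1), (1, 2), (2, 1), (2, 2), (2, 3), (2, 4), (3, 1), (3, 3), (3, 5), (4,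
      2), (4, 6), (4, 7), (5, 0), (5, 3), (5, 7), (5, 8), (6, 2), (6, 4), (6, 6)]
    cl := [1, 0, 0, 2, 3, 5, 4, 1, 6]
    chq := [(0, 2), (0, 3), (2, 0), (3, 0)]
    rng := [(0, 1), (0, 8), (1, 0), (1, 5), (2, 6), (3, 4), (3, 5), (3, 7), (3, 8), (4, 3), (4, 6), (5,
      1), (5, 3), (6, 2), (6, 4), (6, 7), (7, 3), (7, 6), (8, 0), (8, 3)]
    lev := [] }
  links := [[1, 4, 5, 7], [4, 0, 7, 8, 2, 9], [9, 1, 8, 3, 10, 11, 6], [10, 2, 8, 12], [5, 0, 1, 9, 13,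
    14], [7, 0, 4, 14, 10, 15], [9, 2, 11, 13]]
  P := {
    a := 7
    N := 16
    nb := [178, 917, 3914, 5380, 25123, 50321, 10756, 33059, 4238, 8278, 55340, 9284, 1288, 19024,
      9264, 1184]
    tri := [(0, 1, 4), (0, 1, 7), (0, 4, 5), (0, 5, 7), (1, 2, 8), (1, 2, 9), (1, 4, 9), (1, 7, 8), (2,
      3, 8), (2, 3, 10), (2, 6, 9), (2, 6, 11), (2, 10, 11), (3, 8, 12), (3, 10, 12), (4, 5, 14),
      (4, 9, 13), (4, 13, 14), (5, 7, 15), (5, 10, 14), (5, 10, 15), (6, 9, 13), (6, 11, 13)]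
    fin := [0, 0, 2, 2, 0, 0, 2, 0, 2, 2, 10, 11, 12, 13, 0, 15]
    chd := [(2, 10), (2, 11)]
    steps := [(0, 1), (0, 4), (0, 5), (0, 7), (0, 14), (2, 3), (2, 6), (2, 8), (2, 9)] }
  rep := [2, 0, 10, 11, 13, 12, 15]

noncomputable def v3288 : Cov.CovD where
  P := 3
  N := 4
  pl := [5, 6, 8]
  lev := [⟨[], [], [], [], [(0, 1, [])]⟩,
    ⟨[], [(0, 0), (0, 1)], [(0, 0), (0, 1)], [], [(0, 1, []), (1, 0, [2, 3]), (2, 0, [2,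
      3])]⟩,
    ⟨[(0, 1)], [(1, 0), (1, 1), (1, 2), (1, 3)], [(0, 0), (0, 2), (0, 3), (2, 3)], [], [(1,
      0, [2, 3]), (2, 0, [2, 3]), (3, 2, [0]), (4, 3, [0])]⟩,
    ⟨[(1, 2)], [(1, 0), (2, 0), (2, 2), (2, 3)], [(0, 2)], [5], [(1, 0, [2, 3]), (3, 2,
      [0])]⟩,
    ⟨[(0, 1), (1, 2)], [(0, 0), (0, 1), (1, 0), (1, 1), (2, 0)], [(0, 1)], [4], [(2, 0, [2,
      3]), (7, 1, [])]⟩,
    ⟨[(0, 1), (0, 4), (1, 4)], [(0, 1), (0, 2), (1, 1), (2, 2), (3, 2), (4, 0), (4, 1), (4,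
      2)], [(1, 1), (1, 2)], [6], [(0, 1, []), (3, 2, [0]), (7, 1, [])]⟩,
    ⟨[(1, 2), (2, 3)], [(1, 0), (2, 0), (2, 2), (2, 3), (4, 0)], [(0, 3)], [4], [(2, 0, [2,
      3]), (4, 3, [0])]⟩]
  Ta := [((0, 1), 1, 0), ((0, 8), 1, 6), ((1, 0), 0, 1), ((1, 5), 0, 5), ((2, 6), 0, 4), ((7, 3),
    1, 2), ((7, 6), 1, 4)]
  Tb := [((0, 1, 8), 1, 0, 6), ((1, 0, 5), 0, 1, 5), ((3, 4, 5), 2, 3, 5), ((3, 4, 7), 2, 3, 1),
    ((3, 4, 8), 2, 3, 6), ((3, 5, 7), 2, 5, 1), ((3, 5, 8), 2, 5, 6), ((3, 7, 8), 2, 1, 6),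
    ((4, 3, 6), 3, 2, 4), ((5, 1, 3), 5, 0, 2), ((6, 2, 4), 4, 0, 3), ((6, 2, 7), 4, 0, 1),
    ((6, 4, 7), 4, 3, 1), ((7, 3, 6), 1, 2, 4), ((8, 0, 3), 6, 1, 2)]
  Tc := [(0, 2, 3)]
  Td := [((0, 2), (1, 0), 1), ((0, 2), (1, 5), 5), ((0, 2), (2, 6), 4), ((0, 3), (1, 0), 1), ((0,
    3), (1, 5), 5), ((0, 3), (2, 6), 4), ((2, 0), (3, 4), 3), ((2, 0), (3, 5), 5), ((2, 0),
    (3, 7), 1), ((2, 0), (3, 8), 6), ((3, 0), (4, 3), 2), ((3, 0), (4, 6), 4)]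
  G := [[0, 0x14c22c611c11c6c411c11ca11c2814ec8c2, 0x112811221124e48, 0,
    0x31921392a1292d192aa48], [0, 0, 0x114248111c411821121c8ec2, 0x22c122c1c22c122c1cc24,
    0x119149c8141c8da912168d119119caa42], [0, 0, 0x112211241128e84, 0, 0xcc92122921a41], [0,
    0, 0x1111c421111c81111c2ca4, 0x885229c122c249c1c24, 0x889449c1269629c1a42]]

noncomputable def n3288 : Ent := ⟨e3288, noF, [], [], [(12, 15, [360035742630636841211993100915356868655746945586763691021123585, 0])]⟩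

def c3288 : PLift (Cov.check n3288.C.D v3288 = true) := ⟨by decide +kernel⟩

def b3288 : PLift (entF (fidx ts) 400 3288 n3288 = true) := ⟨by decide +kernel⟩

theorem g3288 : GoodF (fidx ts) 400 3288 := GoodF.ofV v3288 n3288 c3288.down b3288.down

/-- 4674664:2506/5 -/
noncomputable def e3289 : SCfg where
  D := {
    a := 7
    L := 10
    kp := 7
    inn := [(0, 1), (0, 4), (0, 5), (1, 0), (1, 2), (1, 4), (2, 1), (2, 3), (2, 6), (3, 2), (4, 0), (4,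
      1), (4, 5), (5, 0), (5, 4), (6, 2)]
    mix := [(0, 0), (1, 0), (1, 1), (1, 2), (2, 1), (2, 2), (2, 3), (2, 4), (3, 1), (3, 3), (3, 5), (4,
      2), (4, 6), (4, 7), (5, 0), (5, 3), (5, 7), (5, 8), (6, 2), (6, 4), (6, 9)]
    cl := [1, 0, 0, 2, 3, 4, 5, 1, 6, 7]
    chq := [(0, 2), (0, 3), (2, 0), (3, 0)]
    rng := [(0, 1), (0, 8), (1, 0), (1, 5), (2, 6), (2, 9), (3, 4), (3, 5), (3, 7), (3, 8), (4, 3), (4,
      9), (5, 1), (5, 3), (6, 2), (6, 7), (7, 3), (7, 6), (8, 0), (8, 3), (9, 2), (9, 4)]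
    lev := [] }
  links := [[1, 4, 5, 7], [4, 0, 7, 8, 2, 9], [9, 1, 8, 3, 10, 11, 6], [10, 2, 8, 12], [5, 0, 1, 9, 13,
    14], [7, 0, 4, 14, 10, 15], [9, 2, 11, 16]]
  P := {
    a := 7
    N := 17
    nb := [178, 917, 3914, 5380, 25123, 50321, 68100, 33059, 4238, 73814, 55340, 66628, 1288, 16912,
      9264, 1184, 2624]
    tri := [(0, 1, 4), (0, 1, 7), (0, 4, 5), (0, 5, 7), (1, 2, 8), (1, 2, 9), (1, 4, 9), (1, 7, 8), (2,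
      3, 8), (2, 3, 10), (2, 6, 9), (2, 6, 11), (2, 10, 11), (3, 8, 12), (3, 10, 12), (4, 5, 14),
      (4, 9, 13), (4, 13, 14), (5, 7, 15), (5, 10, 14), (5, 10, 15), (6, 9, 16), (6, 11, 16)]
    fin := [0, 0, 2, 2, 0, 0, 2, 0, 2, 2, 10, 11, 12, 13, 0, 15, 16]
    chd := [(2, 10), (2, 11)]
    steps := [(0, 1), (0, 4), (0, 5), (0, 7), (0, 14), (2, 3), (2, 6), (2, 8), (2, 9)] }
  rep := [2, 0, 10, 11, 12, 13, 15, 16]

noncomputable def v3289 : Cov.CovD where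
  P := 3
  N := 5
  pl := [5, 6, 8, 9]
  lev := [⟨[], [], [], [], [(0, 1, [])]⟩,
    ⟨[], [(0, 0), (0, 1)], [(0, 0), (0, 1)], [], [(0, 1, []), (1, 0, [2, 3]), (2, 0, [2,
      3])]⟩,
    ⟨[(0, 1)], [(1, 0), (1, 1), (1, 2), (1, 3)], [(0, 0), (0, 2), (0, 3), (2, 3)], [], [(1,
      0, [2, 3]), (2, 0, [2, 3]), (3, 2, [0]), (4, 3, [0])]⟩,
    ⟨[(1, 2)], [(1, 0), (2, 0), (2, 2), (2, 3)], [(0, 2)], [4], [(1, 0, [2, 3]), (3, 2,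
      [0])]⟩,
    ⟨[(0, 1), (1, 2)], [(0, 0), (0, 1), (1, 0), (1, 1), (2, 0)], [(0, 1)], [5], [(2, 0, [2,
      3]), (7, 1, [])]⟩,
    ⟨[(0, 1), (0, 4), (1, 4)], [(0, 1), (0, 2), (1, 1), (2, 2), (3, 2), (4, 0), (4, 1), (4,
      2)], [(1, 1), (1, 2)], [6], [(0, 1, []), (3, 2, [0]), (7, 1, [])]⟩,
    ⟨[(1, 2), (2, 3)], [(1, 0), (2, 0), (2, 2), (2, 3), (4, 0)], [(0, 3)], [7], [(2, 0, [2,
      3]), (4, 3, [0])]⟩]
  Ta := [((0, 1), 1, 0), ((0, 8), 1, 6), ((1, 0), 0, 1), ((1, 5), 0, 4), ((2, 6), 0, 5), ((2, 9),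
    0, 7), ((7, 3), 1, 2), ((7, 6), 1, 5)]
  Tb := [((0, 1, 8), 1, 0, 6), ((1, 0, 5), 0, 1, 4), ((2, 6, 9), 0, 5, 7), ((3, 4, 5), 2, 3, 4),
    ((3, 4, 7), 2, 3, 1), ((3, 4, 8), 2, 3, 6), ((3, 5, 7), 2, 4, 1), ((3, 5, 8), 2, 4, 6),
    ((3, 7, 8), 2, 1, 6), ((4, 3, 9), 3, 2, 7), ((5, 1, 3), 4, 0, 2), ((6, 2, 7), 5, 0, 1),
    ((7, 3, 6), 1, 2, 5), ((8, 0, 3), 6, 1, 2), ((9, 2, 4), 7, 0, 3)]
  Tc := [(0, 2, 3)]
  Td := [((0, 2), (1, 0), 1), ((0, 2), (1, 5), 4), ((0, 2), (2, 6), 5), ((0, 2), (2, 9), 7), ((0,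
    3), (1, 0), 1), ((0, 3), (1, 5), 4), ((0, 3), (2, 6), 5), ((0, 3), (2, 9), 7), ((2, 0),
    (3, 4), 3), ((2, 0), (3, 5), 4), ((2, 0), (3, 7), 1), ((2, 0), (3, 8), 6), ((3, 0), (4,
    3), 2), ((3, 0), (4, 9), 7)]
  G := [[0, 0x11c11ca11c1814ec11c11ca8c11c11cc4462, 0x112411281122e84, 0,
    0x1592c392ad3921992aa48], [0, 0, 0x1141186211811461111c8ca4,
    0x119119caac1c66c1115119ccc24, 0x159119c9111c8da916168d1591d9caa42], [0, 0,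
    0x112211281124e84, 0, 0xcc92166921a44], [0, 0, 0x118114c21111c2114118cca4,
    0x665669c14aacaa9c18c2, 0x61669c1268812cc9cc9c18e4]]

noncomputable def n3289 : Ent := ⟨e3289, noF, [], [], [(12, 15, [1685356702439545624007900436039642273970977273354372543760013545473, 0]), (16, 13, [1580044429602293643470024699863340111275081426260889765897806118913, 0])]⟩

def c3289 : PLift (Cov.check n3289.C.D v3289 = true) := ⟨by decide +kernel⟩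

def b3289 : PLift (entF (fidx ts) 400 3289 n3289 = true) := ⟨by decide +kernel⟩

theorem g3289 : GoodF (fidx ts) 400 3289 := GoodF.ofV v3289 n3289 c3289.down b3289.down

/-- 4674664:2506/7 -/
noncomputable def e3290 : SCfg where
  D := {
    a := 7
    L := 10
    kp := 7
    inn := [(0, 1), (0, 4), (0, 5), (1, 0), (1, 2), (1, 4), (2, 1), (2, 3), (2, 6), (3, 2), (4, 0), (4,
      1), (4, 5), (5, 0), (5, 4), (6, 2)]
    mix := [(0, 0), (1, 0), (1, 1), (1, 2), (2, 1), (2, 2), (2, 3), (2, 4), (3, 1), (3, 3), (3, 5), (4,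
      2), (4, 6), (4, 7), (5, 0), (5, 4), (5, 7), (5, 8), (6, 2), (6, 4), (6, 9)]
    cl := [1, 0, 0, 3, 2, 4, 5, 1, 6, 7]
    chq := [(0, 2), (0, 3), (2, 0), (3, 0)]
    rng := [(0, 1), (0, 8), (1, 0), (1, 5), (2, 6), (2, 9), (3, 4), (3, 5), (4, 3), (4, 7), (4, 8), (4,
      9), (5, 1), (5, 3), (6, 2), (6, 7), (7, 4), (7, 6), (8, 0), (8, 4), (9, 2), (9, 4)]
    lev := [] }
  links := [[1, 4, 5, 7], [4, 0, 7, 8, 2, 9], [9, 1, 8, 3, 10, 11, 6], [10, 2, 8, 12], [5, 0, 1, 9, 13,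
    14], [7, 0, 4, 14, 11, 15], [9, 2, 11, 16]]
  P := {
    a := 7
    N := 17
    nb := [178, 917, 3914, 5380, 25123, 51345, 68100, 33059, 4238, 73814, 6156, 115812, 1288, 16912,
      10288, 2208, 2624]
    tri := [(0, 1, 4), (0, 1, 7), (0, 4, 5), (0, 5, 7), (1, 2, 8), (1, 2, 9), (1, 4, 9), (1, 7, 8), (2,
      3, 8), (2, 3, 10), (2, 6, 9), (2, 6, 11), (2, 10, 11), (3, 8, 12), (3, 10, 12), (4, 5, 14),
      (4, 9, 13), (4, 13, 14), (5, 7, 15), (5, 11, 14), (5, 11, 15), (6, 9, 16), (6, 11, 16)]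
    fin := [0, 0, 2, 2, 0, 0, 2, 0, 2, 2, 10, 11, 12, 13, 0, 15, 16]
    chd := [(2, 10), (2, 11)]
    steps := [(0, 1), (0, 4), (0, 5), (0, 7), (0, 14), (2, 3), (2, 6), (2, 8), (2, 9)] }
  rep := [2, 0, 11, 10, 12, 13, 15, 16]

noncomputable def v3290 : Cov.CovD where
  P := 3
  N := 5
  pl := [5, 6, 8, 9]
  lev := [⟨[], [], [], [], [(0, 1, [])]⟩,
    ⟨[], [(0, 0), (0, 1)], [(0, 0), (0, 1)], [], [(0, 1, []), (1, 0, [2, 3]), (2, 0, [2,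
      3])]⟩,
    ⟨[(0, 1)], [(1, 0), (1, 1), (1, 2), (1, 3)], [(0, 0), (0, 2), (0, 3), (2, 3)], [], [(1,
      0, [2, 3]), (2, 0, [2, 3]), (3, 3, [0]), (4, 2, [0])]⟩,
    ⟨[(1, 2)], [(1, 0), (2, 0), (2, 2), (2, 3)], [(0, 3)], [4], [(1, 0, [2, 3]), (3, 3,
      [0])]⟩,
    ⟨[(0, 1), (1, 2)], [(0, 0), (0, 1), (1, 0), (1, 1), (2, 0)], [(0, 1)], [5], [(2, 0, [2,
      3]), (7, 1, [])]⟩,
    ⟨[(0, 1), (0, 4), (1, 4)], [(0, 1), (0, 2), (1, 1), (2, 2), (4, 0), (4, 1), (4, 2)],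
      [(1, 1), (1, 2)], [6], [(0, 1, []), (4, 2, [0]), (7, 1, [])]⟩,
    ⟨[(1, 2), (2, 3)], [(1, 0), (2, 0), (2, 2), (2, 3), (4, 0), (5, 2)], [(0, 2)], [7],
      [(2, 0, [2, 3]), (4, 2, [0])]⟩]
  Ta := [((0, 1), 1, 0), ((0, 8), 1, 6), ((1, 0), 0, 1), ((1, 5), 0, 4), ((2, 6), 0, 5), ((2, 9),
    0, 7), ((7, 4), 1, 2), ((7, 6), 1, 5)]
  Tb := [((0, 1, 8), 1, 0, 6), ((1, 0, 5), 0, 1, 4), ((2, 6, 9), 0, 5, 7), ((3, 4, 5), 3, 2, 4),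
    ((4, 3, 7), 2, 3, 1), ((4, 3, 8), 2, 3, 6), ((4, 3, 9), 2, 3, 7), ((4, 7, 8), 2, 1, 6),
    ((4, 7, 9), 2, 1, 7), ((4, 8, 9), 2, 6, 7), ((5, 1, 3), 4, 0, 3), ((6, 2, 7), 5, 0, 1),
    ((7, 4, 6), 1, 2, 5), ((8, 0, 4), 6, 1, 2), ((9, 2, 4), 7, 0, 2)]
  Tc := [(0, 2, 3)]
  Td := [((0, 2), (1, 0), 1), ((0, 2), (1, 5), 4), ((0, 2), (2, 6), 5), ((0, 2), (2, 9), 7), ((0,
    3), (1, 0), 1), ((0, 3), (1, 5), 4), ((0, 3), (2, 6), 5), ((0, 3), (2, 9), 7), ((2, 0),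
    (4, 3), 3), ((2, 0), (4, 7), 1), ((2, 0), (4, 8), 6), ((2, 0), (4, 9), 7), ((3, 0), (3,
    4), 2), ((3, 0), (3, 5), 4)]
  G := [[0, 0x11c11cc11c11cca11c11cc11c11cc6c22, 0x6121c121a84, 0, 0x11921192c119211926a48], [0,
    0, 0xa1c1c1a161c1c28, 0x115119cccc164c8128115119cc41a8e4,
    0x119119c119119cc119119c119119c6a41], [0, 0, 0xc121c121a48, 0, 0x11921192aa92daa921a44],
    [0, 0, 0x61c1c1c161c1c28, 0xc1511cccc5cc9c3115115ccc5cccc5c28,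
    0x119119caa9aa9c9119119caa9aa9c3a41]]

noncomputable def n3290 : Ent := ⟨e3290, noF, [], [], []⟩

def c3290 : PLift (Cov.check n3290.C.D v3290 = true) := ⟨by decide +kernel⟩

def b3290 : PLift (entF (fidx ts) 400 3290 n3290 = true) := ⟨by decide +kernel⟩

theorem g3290 : GoodF (fidx ts) 400 3290 := GoodF.ofV v3290 n3290 c3290.down b3290.down

/-- 4674664:2506/8 -/
noncomputable def e3291 : SCfg where
  D := {
    a := 7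
    L := 10
    kp := 7
    inn := [(0, 1), (0, 4), (0, 5), (1, 0), (1, 2), (1, 4), (2, 1), (2, 3), (2, 6), (3, 2), (4, 0), (4,
      1), (4, 5), (5, 0), (5, 4), (6, 2)]
    mix := [(0, 0), (1, 0), (1, 1), (1, 2), (2, 1), (2, 2), (2, 3), (2, 4), (3, 1), (3, 3), (3, 5), (4,
      2), (4, 6), (4, 7), (5, 0), (5, 7), (5, 8), (5, 9), (6, 2), (6, 4), (6, 6)]
    cl := [1, 0, 0, 3, 4, 5, 2, 1, 6, 7]
    chq := [(0, 3), (0, 4), (3, 0), (4, 0)]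
    rng := [(0, 1), (0, 9), (1, 0), (1, 5), (2, 6), (3, 4), (3, 5), (4, 3), (4, 6), (5, 1), (5, 3), (6,
      2), (6, 4), (6, 7), (7, 6), (7, 8), (8, 7), (8, 9), (9, 0), (9, 8)]
    lev := [] }
  links := [[1, 4, 5, 7], [4, 0, 7, 8, 2, 9], [9, 1, 8, 3, 10, 11, 6], [10, 2, 8, 12], [5, 0, 1, 9, 13,
    14], [7, 0, 4, 14, 15, 16], [9, 2, 11, 13]]
  P := {
    a := 7
    N := 17
    nb := [178, 917, 3914, 5380, 25123, 114833, 10756, 65827, 4238, 8278, 6156, 9284, 1288, 19024,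
      41008, 81952, 32928]
    tri := [(0, 1, 4), (0, 1, 7), (0, 4, 5), (0, 5, 7), (1, 2, 8), (1, 2, 9), (1, 4, 9), (1, 7, 8), (2,
      3, 8), (2, 3, 10), (2, 6, 9), (2, 6, 11), (2, 10, 11), (3, 8, 12), (3, 10, 12), (4, 5, 14),
      (4, 9, 13), (4, 13, 14), (5, 7, 16), (5, 14, 15), (5, 15, 16), (6, 9, 13), (6, 11, 13)]
    fin := [0, 0, 2, 2, 0, 0, 2, 0, 2, 2, 10, 11, 12, 13, 0, 15, 16]
    chd := [(2, 10), (2, 11)]
    steps := [(0, 1), (0, 4), (0, 5), (0, 7), (0, 14), (2, 3), (2, 6), (2, 8), (2, 9)] }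
  rep := [2, 0, 13, 10, 11, 12, 15, 16]

noncomputable def v3291 : Cov.CovD where
  P := 3
  N := 5
  pl := [5, 6, 8, 9]
  lev := [⟨[], [], [], [], [(0, 1, [])]⟩,
    ⟨[], [(0, 0), (0, 1)], [(0, 0), (0, 1)], [], [(0, 1, []), (1, 0, [3, 4]), (2, 0, [3,
      4])]⟩,
    ⟨[(0, 1)], [(1, 0), (1, 1), (1, 3), (1, 4)], [(0, 0), (0, 3), (0, 4), (3, 4)], [], [(1,
      0, [3, 4]), (2, 0, [3, 4]), (3, 3, [0]), (4, 4, [0])]⟩,
    ⟨[(1, 2)], [(1, 0), (2, 0), (2, 3), (2, 4)], [(0, 3)], [5], [(1, 0, [3, 4]), (3, 3,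
      [0])]⟩,
    ⟨[(0, 1), (1, 2)], [(0, 0), (0, 1), (1, 0), (1, 1), (2, 0)], [(0, 1)], [2], [(2, 0, [3,
      4]), (7, 1, [])]⟩,
    ⟨[(0, 1), (0, 4), (1, 4)], [(0, 1), (1, 1), (4, 0), (4, 1)], [(1, 1)], [6, 7], [(0, 1,
      []), (7, 1, [])]⟩,
    ⟨[(1, 2), (2, 3)], [(1, 0), (2, 0), (2, 3), (2, 4), (4, 0)], [(0, 4)], [2], [(2, 0, [3,
      4]), (4, 4, [0])]⟩]
  Ta := [((0, 1), 1, 0), ((0, 9), 1, 7), ((1, 0), 0, 1), ((1, 5), 0, 5), ((2, 6), 0, 2), ((7, 6),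
    1, 2), ((7, 8), 1, 6)]
  Tb := [((0, 1, 9), 1, 0, 7), ((1, 0, 5), 0, 1, 5), ((3, 4, 5), 3, 4, 5), ((4, 3, 6), 4, 3, 2),
    ((5, 1, 3), 5, 0, 3), ((6, 2, 4), 2, 0, 4), ((6, 2, 7), 2, 0, 1), ((6, 4, 7), 2, 4, 1),
    ((7, 6, 8), 1, 2, 6), ((8, 7, 9), 6, 1, 7), ((9, 0, 8), 7, 1, 6)]
  Tc := [(0, 3, 4)]
  Td := [((0, 3), (1, 0), 1), ((0, 3), (1, 5), 5), ((0, 3), (2, 6), 2), ((0, 4), (1, 0), 1), ((0,
    4), (1, 5), 5), ((0, 4), (2, 6), 2), ((3, 0), (3, 4), 4), ((3, 0), (3, 5), 5), ((4, 0),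
    (4, 3), 3), ((4, 0), (4, 6), 2)]
  G := [[0, 0x12444111e81488ac488e8e111e8118e8a114e8888e8111e8ee11c844e2, 0, 0,
    0x221d2111d2818d2e221d228588a191d2e6113d8888d2818d2e8c1], [0, 0, 0,
    0x414d4119d4c4151d8888d8c144d8181d894159c484fac1,
    0x131d8181d8118d8e2252898128c9991d8ea4212d83aad8188d8e423], [0, 0,
    0x445414888d2124229c1ac484148c, 0, 0xa1518aaaad25222d2222d296188d2888d838c1], [0, 0,
    0x24229c12888d41444d41c68, 0x444d414888d81111d8111d8c4cc9c7ac2,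
    0x188d8888d85111d8aaad89111d8222d83e42]]

noncomputable def n3291 : Ent := ⟨e3291, noF, [], [], [(12, 16, [1580044410770988437309982408355971841652082177953823432505702572033, 0]), (10, 15, [1685356702439545624007900436039642273970977273354372543760013557761, 0])]⟩

def c3291 : PLift (Cov.check n3291.C.D v3291 = true) := ⟨by decide +kernel⟩

def b3291 : PLift (entF (fidx ts) 400 3291 n3291 = true) := ⟨by decide +kernel⟩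

theorem g3291 : GoodF (fidx ts) 400 3291 := GoodF.ofV v3291 n3291 c3291.down b3291.down

/-- 4674664:2506 -/
noncomputable def e3292 : SCfg where
  D := {
    a := 7
    L := 11
    kp := 8
    inn := [(0, 1), (0, 4), (0, 5), (1, 0), (1, 2), (1, 4), (2, 1), (2, 3), (2, 6), (3, 2), (4, 0), (4,
      1), (4, 5), (5, 0), (5, 4), (6, 2)]
    mix := [(0, 0), (1, 0), (1, 1), (1, 2), (2, 1), (2, 2), (2, 3), (2, 4), (3, 1), (3, 3), (3, 5), (4,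
      2), (4, 6), (4, 7), (5, 0), (5, 7), (5, 8), (5, 9), (6, 2), (6, 4), (6, 10)]
    cl := [1, 0, 0, 2, 3, 4, 5, 1, 6, 7, 8]
    chq := [(0, 2), (0, 3), (2, 0), (3, 0)]
    rng := [(0, 1), (0, 9), (1, 0), (1, 5), (2, 6), (2, 10), (3, 4), (3, 5), (4, 3), (4, 10), (5, 1),
      (5, 3), (6, 2), (6, 7), (7, 6), (7, 8), (8, 7), (8, 9), (9, 0), (9, 8), (10, 2), (10, 4)]
    lev := [] }
  links := [[1, 4, 5, 7], [4, 0, 7, 8, 2, 9], [9, 1, 8, 3, 10, 11, 6], [10, 2, 8, 12], [5, 0, 1, 9, 13,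
    14], [7, 0, 4, 14, 15, 16], [9, 2, 11, 17]]
  P := {
    a := 7
    N := 18
    nb := [178, 917, 3914, 5380, 25123, 114833, 133636, 65827, 4238, 139350, 6156, 132164, 1288,
      16912, 41008, 81952, 32928, 2624]
    tri := [(0, 1, 4), (0, 1, 7), (0, 4, 5), (0, 5, 7), (1, 2, 8), (1, 2, 9), (1, 4, 9), (1, 7, 8), (2,
      3, 8), (2, 3, 10), (2, 6, 9), (2, 6, 11), (2, 10, 11), (3, 8, 12), (3, 10, 12), (4, 5, 14),
      (4, 9, 13), (4, 13, 14), (5, 7, 16), (5, 14, 15), (5, 15, 16), (6, 9, 17), (6, 11, 17)]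
    fin := [0, 0, 2, 2, 0, 0, 2, 0, 2, 2, 10, 11, 12, 13, 0, 15, 16, 17]
    chd := [(2, 10), (2, 11)]
    steps := [(0, 1), (0, 4), (0, 5), (0, 7), (0, 14), (2, 3), (2, 6), (2, 8), (2, 9)] }
  rep := [2, 0, 10, 11, 12, 13, 15, 16, 17]

noncomputable def v3292 : Cov.CovD where
  P := 3
  N := 6
  pl := [5, 6, 8, 9, 10]
  lev := [⟨[], [], [], [], [(0, 1, [])]⟩,
    ⟨[], [(0, 0), (0, 1)], [(0, 0), (0, 1)], [], [(0, 1, []), (1, 0, [2, 3]), (2, 0, [2,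
      3])]⟩,
    ⟨[(0, 1)], [(1, 0), (1, 1), (1, 2), (1, 3)], [(0, 0), (0, 2), (0, 3), (2, 3)], [], [(1,
      0, [2, 3]), (2, 0, [2, 3]), (3, 2, [0]), (4, 3, [0])]⟩,
    ⟨[(1, 2)], [(1, 0), (2, 0), (2, 2), (2, 3)], [(0, 2)], [4], [(1, 0, [2, 3]), (3, 2,
      [0])]⟩,
    ⟨[(0, 1), (1, 2)], [(0, 0), (0, 1), (1, 0), (1, 1), (2, 0)], [(0, 1)], [5], [(2, 0, [2,
      3]), (7, 1, [])]⟩,
    ⟨[(0, 1), (0, 4), (1, 4)], [(0, 1), (1, 1), (4, 0), (4, 1)], [(1, 1)], [6, 7], [(0, 1,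
      []), (7, 1, [])]⟩,
    ⟨[(1, 2), (2, 3)], [(1, 0), (2, 0), (2, 2), (2, 3), (4, 0)], [(0, 3)], [8], [(2, 0, [2,
      3]), (4, 3, [0])]⟩]
  Ta := [((0, 1), 1, 0), ((0, 9), 1, 7), ((1, 0), 0, 1), ((1, 5), 0, 4), ((2, 6), 0, 5), ((2,
    10), 0, 8), ((7, 6), 1, 5), ((7, 8), 1, 6)]
  Tb := [((0, 1, 9), 1, 0, 7), ((1, 0, 5), 0, 1, 4), ((2, 6, 10), 0, 5, 8), ((3, 4, 5), 2, 3, 4),
    ((4, 3, 10), 3, 2, 8), ((5, 1, 3), 4, 0, 2), ((6, 2, 7), 5, 0, 1), ((7, 6, 8), 1, 5, 6),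
    ((8, 7, 9), 6, 1, 7), ((9, 0, 8), 7, 1, 6), ((10, 2, 4), 8, 0, 3)]
  Tc := [(0, 2, 3)]
  Td := [((0, 2), (1, 0), 1), ((0, 2), (1, 5), 4), ((0, 2), (2, 6), 5), ((0, 2), (2, 10), 8),
    ((0, 3), (1, 0), 1), ((0, 3), (1, 5), 4), ((0, 3), (2, 6), 5), ((0, 3), (2, 10), 8), ((2,
    0), (3, 4), 3), ((2, 0), (3, 5), 4), ((3, 0), (4, 3), 2), ((3, 0), (4, 10), 8)]
  G := [[0, 0x12111e11ce116111e18ec116111e18e116111e18ecc28, 0x111d24111d28111d22e84,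
    0x635d2111d2c4153d2aaad2c8c1, 0x711d2cccd2a166d2111d2aa41], [0, 0,
    0x11116ecd481a2e811111cecd611511528d4c68,
    0x51111dc1111aacdc316166cd1b511bdccc211c881884c2c,
    0x11c422117d119c1111cccda11b166cd11ddd1caac1448823], [0, 0, 0x111d2111d26111d2111d2aa81,
    0x666d214aaad218c1, 0xcccd21666d21a41], [0, 0, 0x11542411cec5115c8961188116ec5115689cec8,
    0xaaad81666d669c1c2aaad416441c25, 0x44416441acccdcc9c1666d669c1a84418e1]]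

noncomputable def n3292 : Ent := ⟨e3292, noF, [], [], [(12, 16, [7334685537875745012586738086077695515070955365108989538292687707140097, 0]), (10, 15, [7334790850167413569773436004105379185503274260204390087403942018125825, 0]), (11, 15, [7334790850167413569773436004105379185503274260204390087403942018129921, 0]), (17, 13, [6903326391226443182813612567740724581985591720012749800372886081220609, 0])]⟩

def c3292 : PLift (Cov.check n3292.C.D v3292 = true) := ⟨by decide +kernel⟩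

def b3292 : PLift (entF (fidx ts) 400 3292 n3292 = true) := ⟨by decide +kernel⟩

theorem g3292 : GoodF (fidx ts) 400 3292 := GoodF.ofV v3292 n3292 c3292.down b3292.down

/-- 4945544:2511/2 -/
noncomputable def e3293 : SCfg where
  D := {
    a := 7
    L := 9
    kp := 6
    inn := [(0, 1), (1, 0), (1, 2), (1, 3), (1, 4), (2, 1), (3, 1), (3, 5), (4, 1), (4, 6), (5, 3), (6,
      4)]
    mix := [(0, 0), (0, 1), (0, 2), (1, 0), (1, 2), (1, 3), (1, 4), (1, 5), (2, 2), (2, 3), (2, 6), (3,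
      3), (3, 4), (3, 7), (4, 0), (4, 5), (4, 8), (5, 3), (5, 6), (5, 7), (6, 5), (6, 7), (6, 8)]
    cl := [0, 6, 3, 0, 2, 0, 4, 1, 5]
    chq := [(0, 3), (2, 4), (3, 0), (4, 2)]
    rng := [(0, 1), (0, 8), (1, 0), (1, 2), (2, 1), (2, 6), (3, 6), (4, 5), (4, 7), (5, 4), (5, 7), (6,
      2), (6, 3), (6, 7), (7, 4), (7, 5), (7, 6), (7, 8), (8, 0), (8, 7)]
    lev := [] }
  links := [[1, 7, 8, 9], [7, 0, 9, 2, 10, 3, 11, 12, 4], [10, 1, 9, 13], [11, 1, 10, 5, 14], [7, 1, 12,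
    6, 15], [14, 3, 10, 13], [15, 4, 12, 14]]
  P := {
    a := 7
    N := 16
    nb := [898, 7837, 9730, 19490, 37058, 25608, 53264, 33043, 641, 8455, 8238, 20490, 18514, 17956,
      47208, 16592]
    tri := [(0, 1, 7), (0, 1, 9), (0, 7, 8), (0, 8, 9), (1, 2, 9), (1, 2, 10), (1, 3, 10), (1, 3, 11),
      (1, 4, 7), (1, 4, 12), (1, 11, 12), (2, 9, 13), (2, 10, 13), (3, 5, 10), (3, 5, 14), (3, 11,
      14), (4, 6, 12), (4, 6, 15), (4, 7, 15), (5, 10, 13), (5, 13, 14), (6, 12, 14), (6, 14, 15)]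
    fin := [0, 0, 0, 3, 0, 3, 0, 0, 8, 9, 0, 11, 0, 3, 14, 15]
    chd := [(0, 9), (11, 3)]
    steps := [(0, 1), (0, 2), (0, 4), (0, 6), (0, 7), (0, 10), (0, 12), (3, 5), (3, 13)] }
  rep := [0, 14, 11, 9, 3, 15, 8]

noncomputable def v3293 : Cov.CovD where
  P := 3
  N := 4
  pl := [1, 7, 8]
  lev := [⟨[], [], [(0, 3)], [6], [(0, 0, [3]), (2, 3, [0])]⟩,
    ⟨[], [(0, 0), (0, 2), (0, 3)], [(0, 0), (0, 2), (0, 3), (2, 3)], [], [(0, 0, [3]), (2,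
      3, [0]), (3, 0, [3]), (4, 2, [4]), (5, 0, [3])]⟩,
    ⟨[(0, 1)], [(0, 3), (1, 0), (1, 2), (1, 3), (1, 4)], [(0, 3), (0, 4), (3, 4)], [], [(2,
      3, [0]), (3, 0, [3]), (6, 4, [2])]⟩,
    ⟨[(0, 1), (1, 2)], [(1, 0), (1, 2), (1, 3), (2, 0)], [(0, 2)], [1], [(3, 0, [3]), (4,
      2, [4])]⟩,
    ⟨[(0, 1), (1, 2), (1, 3)], [(0, 0), (1, 0), (1, 2), (1, 3)], [(0, 0)], [5], [(0, 0,
      [3]), (5, 0, [3])]⟩,
    ⟨[(1, 3)], [(1, 0), (2, 0), (2, 4), (3, 0), (3, 2), (3, 4)], [(0, 4)], [1], [(3, 0,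
      [3]), (6, 4, [2])]⟩,
    ⟨[(1, 4)], [(1, 0), (4, 0)], [], [1, 5], [(5, 0, [3])]⟩]
  Ta := [((0, 1), 0, 6), ((0, 8), 0, 5), ((3, 6), 0, 4), ((5, 4), 0, 2), ((5, 7), 0, 1)]
  Tb := [((0, 1, 8), 0, 6, 5), ((1, 0, 2), 6, 0, 3), ((2, 1, 6), 3, 6, 4), ((4, 5, 7), 2, 0, 1),
    ((5, 4, 7), 0, 2, 1), ((6, 2, 3), 4, 3, 0), ((6, 2, 7), 4, 3, 1), ((6, 3, 7), 4, 0, 1),
    ((7, 4, 5), 1, 2, 0), ((7, 4, 6), 1, 2, 4), ((7, 4, 8), 1, 2, 5), ((7, 5, 6), 1, 0, 4),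
    ((7, 5, 8), 1, 0, 5), ((7, 6, 8), 1, 4, 5), ((8, 0, 7), 5, 0, 1)]
  Tc := []
  Td := [((0, 3), (0, 1), 6), ((0, 3), (0, 8), 5), ((0, 3), (3, 6), 4), ((0, 3), (5, 4), 2), ((0,
    3), (5, 7), 1), ((2, 4), (4, 5), 0), ((2, 4), (4, 7), 1), ((3, 0), (2, 1), 6), ((3, 0),
    (2, 6), 4), ((4, 2), (6, 2), 3), ((4, 2), (6, 3), 0), ((4, 2), (6, 7), 1)]
  G := [[0, 0, 0, 0x99c241811285cc2834411168291242ce,
    0x44c81c6144414681a81116848141c84a1444c812e], [0, 0, 0,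
    0x11242411242818241428a142818246cb, 0x18281414c1a2411168484484688186c4182818288414c8ead],
    [0, 0x42226818242a41c1, 0x44c88c64188c44ca41a1, 0xc12824c12424ccc24187,
    0x44c88c6148418168488444c812d]]

noncomputable def n3293 : Ent := ⟨e3293, noF, [], [], []⟩

def c3293 : PLift (Cov.check n3293.C.D v3293 = true) := ⟨by decide +kernel⟩

def b3293 : PLift (entF (fidx ts) 400 3293 n3293 = true) := ⟨by decide +kernel⟩

theorem g3293 : GoodF (fidx ts) 400 3293 := GoodF.ofV v3293 n3293 c3293.down b3293.down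

/-- 4945544:2511/1 -/
noncomputable def e3294 : SCfg where
  D := {
    a := 7
    L := 10
    kp := 7
    inn := [(0, 1), (1, 0), (1, 2), (1, 3), (1, 4), (2, 1), (3, 1), (3, 5), (4, 1), (4, 6), (5, 3), (6,
      4)]
    mix := [(0, 0), (0, 1), (0, 2), (1, 0), (1, 2), (1, 3), (1, 4), (1, 5), (2, 2), (2, 3), (2, 6), (3,
      3), (3, 4), (3, 7), (4, 0), (4, 5), (4, 8), (5, 3), (5, 6), (5, 7), (6, 5), (6, 8), (6, 9)]
    cl := [0, 6, 1, 0, 2, 0, 3, 4, 5, 7]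
    chq := [(0, 1), (1, 0), (2, 3), (3, 2)]
    rng := [(0, 1), (0, 8), (1, 0), (1, 2), (2, 1), (2, 6), (3, 6), (4, 5), (4, 7), (5, 4), (5, 9), (6,
      2), (6, 3), (6, 7), (7, 4), (7, 6), (8, 0), (8, 9), (9, 5), (9, 8)]
    lev := [] }
  links := [[1, 7, 8, 9], [7, 0, 9, 2, 10, 3, 11, 12, 4], [10, 1, 9, 13], [11, 1, 10, 5, 14], [7, 1, 12,
    6, 15], [14, 3, 10, 13], [15, 4, 12, 16]]
  P := {
    a := 7
    N := 17
    nb := [898, 7837, 9730, 19490, 37058, 25608, 102416, 33043, 641, 8455, 8238, 20490, 67666, 17956,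
      10280, 65744, 36928]
    tri := [(0, 1, 7), (0, 1, 9), (0, 7, 8), (0, 8, 9), (1, 2, 9), (1, 2, 10), (1, 3, 10), (1, 3, 11),
      (1, 4, 7), (1, 4, 12), (1, 11, 12), (2, 9, 13), (2, 10, 13), (3, 5, 10), (3, 5, 14), (3, 11,
      14), (4, 6, 12), (4, 6, 15), (4, 7, 15), (5, 10, 13), (5, 13, 14), (6, 12, 16), (6, 15, 16)]
    fin := [0, 0, 0, 3, 0, 3, 0, 0, 8, 9, 0, 11, 0, 3, 14, 15, 16]
    chd := [(0, 9), (11, 3)]
    steps := [(0, 1), (0, 2), (0, 4), (0, 6), (0, 7), (0, 10), (0, 12), (3, 5), (3, 13)] }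
  rep := [0, 9, 11, 3, 14, 15, 8, 16]

noncomputable def v3294 : Cov.CovD where
  P := 3
  N := 5
  pl := [1, 7, 8, 9]
  lev := [⟨[], [], [(0, 1)], [6], [(0, 0, [1]), (2, 1, [0])]⟩,
    ⟨[], [(0, 0), (0, 1), (0, 2)], [(0, 0), (0, 1), (0, 2), (1, 2)], [], [(0, 0, [1]), (2,
      1, [0]), (3, 0, [1]), (4, 2, [3]), (5, 0, [1])]⟩,
    ⟨[(0, 1)], [(0, 1), (1, 0), (1, 1), (1, 2), (1, 3)], [(0, 1), (0, 3), (1, 3)], [], [(2,
      1, [0]), (3, 0, [1]), (6, 3, [2])]⟩,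
    ⟨[(0, 1), (1, 2)], [(1, 0), (1, 1), (1, 2), (2, 0)], [(0, 2)], [4], [(3, 0, [1]), (4,
      2, [3])]⟩,
    ⟨[(0, 1), (1, 2), (1, 3)], [(0, 0), (1, 0), (1, 1), (1, 2)], [(0, 0)], [5], [(0, 0,
      [1]), (5, 0, [1])]⟩,
    ⟨[(1, 3)], [(1, 0), (2, 0), (2, 3), (3, 0), (3, 2), (3, 3)], [(0, 3)], [4], [(3, 0,
      [1]), (6, 3, [2])]⟩,
    ⟨[(1, 4)], [(1, 0), (4, 0)], [], [5, 7], [(5, 0, [1])]⟩]
  Ta := [((0, 1), 0, 6), ((0, 8), 0, 5), ((3, 6), 0, 3), ((5, 4), 0, 2), ((5, 9), 0, 7)]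
  Tb := [((0, 1, 8), 0, 6, 5), ((1, 0, 2), 6, 0, 1), ((2, 1, 6), 1, 6, 3), ((4, 5, 7), 2, 0, 4),
    ((5, 4, 9), 0, 2, 7), ((6, 2, 3), 3, 1, 0), ((6, 2, 7), 3, 1, 4), ((6, 3, 7), 3, 0, 4),
    ((7, 4, 6), 4, 2, 3), ((8, 0, 9), 5, 0, 7), ((9, 5, 8), 7, 0, 5)]
  Tc := []
  Td := [((0, 1), (0, 1), 6), ((0, 1), (0, 8), 5), ((0, 1), (3, 6), 3), ((0, 1), (5, 4), 2), ((0,
    1), (5, 9), 7), ((1, 0), (2, 1), 6), ((1, 0), (2, 6), 3), ((2, 3), (4, 5), 0), ((2, 3),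
    (4, 7), 4), ((3, 2), (6, 2), 1), ((3, 2), (6, 3), 0), ((3, 2), (6, 7), 4)]
  G := [[0, 0x11a11aa1111ac24113116115116ac28c, 0, 0xc111a41a6b16c1262ac9492526111e666eac18c,
    0x1caa1669cc51c6348c111681464a258c], [0, 0x1848841121214a1164d2811113611511cc28e, 0,
    0x121261414cc4181861212ac8c1, 0x1414618186111e111eae481], [0,
    0x11911564211a11a82c11116116116ac28c, 0xccc66cacc6666aa141, 0xcc6666eacca62ac141,
    0xc1a162c4a468581]]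

noncomputable def n3294 : Ent := ⟨e3294, noF, [], [], [(14, 16, [1580044410770988437309982408355971841652082177953823432505702600705, 0])]⟩

def c3294 : PLift (Cov.check n3294.C.D v3294 = true) := ⟨by decide +kernel⟩

def b3294 : PLift (entF (fidx ts) 400 3294 n3294 = true) := ⟨by decide +kernel⟩

theorem g3294 : GoodF (fidx ts) 400 3294 := GoodF.ofV v3294 n3294 c3294.down b3294.down

/-- 4945544:2511/3 -/
noncomputable def e3295 : SCfg where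
  D := {
    a := 7
    L := 10
    kp := 7
    inn := [(0, 1), (1, 0), (1, 2), (1, 3), (1, 4), (2, 1), (3, 1), (3, 5), (4, 1), (4, 6), (5, 3), (6,
      4)]
    mix := [(0, 0), (0, 1), (0, 2), (1, 0), (1, 2), (1, 3), (1, 4), (1, 5), (2, 2), (2, 3), (2, 6), (3,
      3), (3, 4), (3, 7), (4, 0), (4, 5), (4, 8), (5, 3), (5, 7), (5, 9), (6, 5), (6, 7), (6, 8)]
    cl := [0, 6, 3, 1, 1, 0, 5, 2, 4, 7]
    chq := [(0, 3), (0, 5), (3, 0), (5, 0)]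
    rng := [(0, 1), (0, 8), (1, 0), (1, 2), (2, 1), (2, 6), (3, 6), (3, 9), (4, 5), (4, 7), (5, 4), (5,
      7), (6, 2), (6, 3), (7, 4), (7, 5), (7, 8), (7, 9), (8, 0), (8, 7), (9, 3), (9, 7)]
    lev := [] }
  links := [[1, 7, 8, 9], [7, 0, 9, 2, 10, 3, 11, 12, 4], [10, 1, 9, 13], [11, 1, 10, 5, 14], [7, 1, 12,
    6, 15], [14, 3, 10, 16], [15, 4, 12, 14]]
  P := {
    a := 7
    N := 17
    nb := [898, 7837, 9730, 19490, 37058, 82952, 53264, 33043, 641, 8455, 73774, 20490, 18514, 1540,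
      104552, 16592, 17440]
    tri := [(0, 1, 7), (0, 1, 9), (0, 7, 8), (0, 8, 9), (1, 2, 9), (1, 2, 10), (1, 3, 10), (1, 3, 11),
      (1, 4, 7), (1, 4, 12), (1, 11, 12), (2, 9, 13), (2, 10, 13), (3, 5, 10), (3, 5, 14), (3, 11,
      14), (4, 6, 12), (4, 6, 15), (4, 7, 15), (5, 10, 16), (5, 14, 16), (6, 12, 14), (6, 14, 15)]
    fin := [0, 0, 0, 3, 0, 3, 0, 0, 8, 9, 3, 3, 0, 13, 14, 15, 16]
    chd := [(0, 9), (0, 13)]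
    steps := [(0, 1), (0, 2), (0, 4), (0, 6), (0, 7), (0, 12), (3, 5), (3, 10), (3, 11)] }
  rep := [0, 3, 14, 9, 15, 13, 8, 16]

noncomputable def v3295 : Cov.CovD where
  P := 3
  N := 5
  pl := [1, 7, 8, 9]
  lev := [⟨[], [], [(0, 3)], [6], [(0, 0, [3, 5]), (2, 3, [0])]⟩,
    ⟨[], [(0, 0), (0, 1), (0, 3)], [(0, 0), (0, 1), (0, 3), (1, 1), (1, 3)], [], [(0, 0,
      [3, 5]), (2, 3, [0]), (3, 1, []), (4, 1, []), (5, 0, [3, 5])]⟩,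
    ⟨[(0, 1)], [(0, 3), (1, 0), (1, 1), (1, 3), (1, 5)], [(1, 3), (1, 5), (3, 5)], [], [(2,
      3, [0]), (3, 1, []), (6, 5, [0])]⟩,
    ⟨[(0, 1), (1, 2)], [(1, 0), (1, 1), (1, 3), (2, 1)], [(1, 1)], [2], [(3, 1, []), (4, 1,
      [])]⟩,
    ⟨[(0, 1), (1, 2), (1, 3)], [(0, 0), (1, 0), (1, 1), (1, 3)], [(0, 0)], [4], [(0, 0, [3,
      5]), (5, 0, [3, 5])]⟩,
    ⟨[(1, 3)], [(1, 1), (2, 1), (3, 1)], [], [2, 7], [(3, 1, [])]⟩,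
    ⟨[(1, 4)], [(1, 0), (4, 0)], [], [2, 4], [(5, 0, [3, 5])]⟩]
  Ta := [((0, 1), 0, 6), ((0, 8), 0, 4), ((3, 6), 1, 5), ((3, 9), 1, 7), ((4, 5), 1, 0), ((4, 7),
    1, 2), ((5, 4), 0, 1), ((5, 7), 0, 2)]
  Tb := [((0, 1, 8), 0, 6, 4), ((1, 0, 2), 6, 0, 3), ((2, 1, 6), 3, 6, 5), ((3, 6, 9), 1, 5, 7),
    ((4, 5, 7), 1, 0, 2), ((5, 4, 7), 0, 1, 2), ((6, 2, 3), 5, 3, 1), ((7, 4, 5), 2, 1, 0),
    ((7, 4, 8), 2, 1, 4), ((7, 4, 9), 2, 1, 7), ((7, 5, 8), 2, 0, 4), ((7, 5, 9), 2, 0, 7),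
    ((7, 8, 9), 2, 4, 7), ((8, 0, 7), 4, 0, 2), ((9, 3, 7), 7, 1, 2)]
  Tc := [(0, 3, 5)]
  Td := [((0, 3), (0, 1), 6), ((0, 3), (0, 8), 4), ((0, 3), (5, 4), 1), ((0, 3), (5, 7), 2), ((0,
    5), (0, 1), 6), ((0, 5), (0, 8), 4), ((0, 5), (5, 4), 1), ((0, 5), (5, 7), 2), ((3, 0),
    (2, 1), 6), ((3, 0), (2, 6), 5), ((5, 0), (6, 2), 3), ((5, 0), (6, 3), 1)]
  G := [[0, 0, 0, 0, 0x8192896118889129a114119229a11189229a11ce], [0, 0, 0,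
    0x559241895c21149952815c5282ce, 0x122261188222a11412226818222611ce], [0, 0,
    0x44c22ca4188c22ca81c1, 0, 0x8892296118a898296118889229c114b], [0,
    0x44c88c64188c44ca81c1, 0x4222a418222a81c1, 0xcc52118cc52828ccc2814b,
    0x8222a1148222c114822268187]]

noncomputable def n3295 : Ent := ⟨e3295, noF, [], [], [(13, 16, [1580044410770988437309982408355971841652082177953823432505702600705, 0])]⟩

def c3295 : PLift (Cov.check n3295.C.D v3295 = true) := ⟨by decide +kernel⟩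

def b3295 : PLift (entF (fidx ts) 400 3295 n3295 = true) := ⟨by decide +kernel⟩

theorem g3295 : GoodF (fidx ts) 400 3295 := GoodF.ofV v3295 n3295 c3295.down b3295.down

/-- 4945544:2511 -/
noncomputable def e3296 : SCfg where
  D := {
    a := 7
    L := 11
    kp := 8
    inn := [(0, 1), (1, 0), (1, 2), (1, 3), (1, 4), (2, 1), (3, 1), (3, 5), (4, 1), (4, 6), (5, 3), (6,
      4)]
    mix := [(0, 0), (0, 1), (0, 2), (1, 0), (1, 2), (1, 3), (1, 4), (1, 5), (2, 2), (2, 3), (2, 6), (3,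
      3), (3, 4), (3, 7), (4, 0), (4, 5), (4, 8), (5, 3), (5, 7), (5, 9), (6, 5), (6, 8), (6, 10)]
    cl := [0, 6, 2, 1, 1, 0, 5, 3, 4, 7, 8]
    chq := [(0, 2), (0, 5), (2, 0), (5, 0)]
    rng := [(0, 1), (0, 8), (1, 0), (1, 2), (2, 1), (2, 6), (3, 6), (3, 9), (4, 5), (4, 7), (5, 4), (5,
      10), (6, 2), (6, 3), (7, 4), (7, 9), (8, 0), (8, 10), (9, 3), (9, 7), (10, 5), (10, 8)]
    lev := [] }
  links := [[1, 7, 8, 9], [7, 0, 9, 2, 10, 3, 11, 12, 4], [10, 1, 9, 13], [11, 1, 10, 5, 14], [7, 1, 12,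
    6, 15], [14, 3, 10, 16], [15, 4, 12, 17]]
  P := {
    a := 7
    N := 18
    nb := [898, 7837, 9730, 19490, 37058, 82952, 167952, 33043, 641, 8455, 73774, 20490, 133202, 1540,
      67624, 131280, 17440, 36928]
    tri := [(0, 1, 7), (0, 1, 9), (0, 7, 8), (0, 8, 9), (1, 2, 9), (1, 2, 10), (1, 3, 10), (1, 3, 11),
      (1, 4, 7), (1, 4, 12), (1, 11, 12), (2, 9, 13), (2, 10, 13), (3, 5, 10), (3, 5, 14), (3, 11,
      14), (4, 6, 12), (4, 6, 15), (4, 7, 15), (5, 10, 16), (5, 14, 16), (6, 12, 17), (6, 15, 17)]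
    fin := [0, 0, 0, 3, 0, 3, 0, 0, 8, 9, 3, 3, 0, 13, 14, 15, 16, 17]
    chd := [(0, 9), (0, 13)]
    steps := [(0, 1), (0, 2), (0, 4), (0, 6), (0, 7), (0, 12), (3, 5), (3, 10), (3, 11)] }
  rep := [0, 3, 9, 14, 15, 13, 8, 16, 17]

noncomputable def v3296 : Cov.CovD where
  P := 3
  N := 6
  pl := [1, 7, 8, 9, 10]
  lev := [⟨[], [], [(0, 2)], [6], [(0, 0, [2, 5]), (2, 2, [0])]⟩,
    ⟨[], [(0, 0), (0, 1), (0, 2)], [(0, 0), (0, 1), (0, 2), (1, 1), (1, 2)], [], [(0, 0,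
      [2, 5]), (2, 2, [0]), (3, 1, []), (4, 1, []), (5, 0, [2, 5])]⟩,
    ⟨[(0, 1)], [(0, 2), (1, 0), (1, 1), (1, 2), (1, 5)], [(1, 2), (1, 5), (2, 5)], [], [(2,
      2, [0]), (3, 1, []), (6, 5, [0])]⟩,
    ⟨[(0, 1), (1, 2)], [(1, 0), (1, 1), (1, 2), (2, 1)], [(1, 1)], [3], [(3, 1, []), (4, 1,
      [])]⟩,
    ⟨[(0, 1), (1, 2), (1, 3)], [(0, 0), (1, 0), (1, 1), (1, 2)], [(0, 0)], [4], [(0, 0, [2,
      5]), (5, 0, [2, 5])]⟩,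
    ⟨[(1, 3)], [(1, 1), (2, 1), (3, 1)], [], [3, 7], [(3, 1, [])]⟩,
    ⟨[(1, 4)], [(1, 0), (4, 0)], [], [4, 8], [(5, 0, [2, 5])]⟩]
  Ta := [((0, 1), 0, 6), ((0, 8), 0, 4), ((3, 6), 1, 5), ((3, 9), 1, 7), ((4, 5), 1, 0), ((4, 7),
    1, 3), ((5, 4), 0, 1), ((5, 10), 0, 8)]
  Tb := [((0, 1, 8), 0, 6, 4), ((1, 0, 2), 6, 0, 2), ((2, 1, 6), 2, 6, 5), ((3, 6, 9), 1, 5, 7),
    ((4, 5, 7), 1, 0, 3), ((5, 4, 10), 0, 1, 8), ((6, 2, 3), 5, 2, 1), ((7, 4, 9), 3, 1, 7),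
    ((8, 0, 10), 4, 0, 8), ((9, 3, 7), 7, 1, 3), ((10, 5, 8), 8, 0, 4)]
  Tc := [(0, 2, 5)]
  Td := [((0, 2), (0, 1), 6), ((0, 2), (0, 8), 4), ((0, 2), (5, 4), 1), ((0, 2), (5, 10), 8),
    ((0, 5), (0, 1), 6), ((0, 5), (0, 8), 4), ((0, 5), (5, 4), 1), ((0, 5), (5, 10), 8), ((2,
    0), (2, 1), 6), ((2, 0), (2, 6), 5), ((5, 0), (6, 2), 2), ((5, 0), (6, 3), 1)]
  G := [[0, 0, 0x11c4119251811c8115891411c21194518e, 0x19c65cacc5115a914c9c13c6139659c518c,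
    0x5cc91c6c991596518c1c1ac61196d9a518a], [0, 0, 0x1212a119119c5141211aa115113a914c,
    0x15c3a6612aaa651859c326139b2a518c, 0x12aac611972651811586d52512a26838a], [0, 0,
    0x11c2115115691411c88141411cc11119c518e, 0xcccaac6cc9aa965181, 0xcccaac6cc9aa965181], [0,
    0xccc66cacc6666aa141, 0x1211cc141211e91411c12c119126518a, 0xc2a26cc5aa569181,
    0xccca26c2aa965181]]

noncomputable def n3296 : Ent := ⟨e3296, noF, [], [], [(13, 16, [7334685537875745012586738086077695515070955365108989538292687707168769, 0]), (14, 17, [6903326391201334775872065844685381424292761054348340378595029943185409, 0])]⟩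

def c3296 : PLift (Cov.check n3296.C.D v3296 = true) := ⟨by decide +kernel⟩

def b3296 : PLift (entF (fidx ts) 400 3296 n3296 = true) := ⟨by decide +kernel⟩

theorem g3296 : GoodF (fidx ts) 400 3296 := GoodF.ofV v3296 n3296 c3296.down b3296.down

/-- 4945544:2512/2 -/
noncomputable def e3297 : SCfg where
  D := {
    a := 7
    L := 9
    kp := 6
    inn := [(0, 1), (1, 0), (1, 2), (1, 3), (1, 4), (2, 1), (3, 1), (3, 5), (4, 1), (4, 6), (5, 3), (6,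
      4)]
    mix := [(0, 0), (0, 1), (0, 2), (1, 0), (1, 2), (1, 3), (1, 4), (1, 5), (2, 2), (2, 3), (2, 6), (3,
      3), (3, 4), (3, 7), (4, 0), (4, 5), (4, 8), (5, 3), (5, 6), (5, 7), (6, 0), (6, 1), (6, 8)]
    cl := [0, 3, 1, 0, 0, 2, 4, 5, 6]
    chq := [(0, 1), (1, 0), (2, 3), (3, 2)]
    rng := [(0, 1), (1, 0), (1, 2), (1, 8), (2, 1), (2, 6), (3, 6), (4, 5), (4, 7), (5, 4), (5, 8), (6,
      2), (6, 3), (6, 7), (7, 4), (7, 6), (8, 1), (8, 5)]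
    lev := [] }
  links := [[1, 7, 8, 9], [7, 0, 9, 2, 10, 3, 11, 12, 4], [10, 1, 9, 13], [11, 1, 10, 5, 14], [7, 1, 12,
    15, 6], [14, 3, 10, 13], [7, 4, 15, 8]]
  P := {
    a := 7
    N := 16
    nb := [898, 7837, 9730, 19490, 37058, 25608, 33168, 339, 33473, 8455, 8238, 20490, 34834, 17956,
      10280, 4432]
    tri := [(0, 1, 7), (0, 1, 9), (0, 7, 8), (0, 8, 9), (1, 2, 9), (1, 2, 10), (1, 3, 10), (1, 3, 11),
      (1, 4, 7), (1, 4, 12), (1, 11, 12), (2, 9, 13), (2, 10, 13), (3, 5, 10), (3, 5, 14), (3, 11,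
      14), (4, 6, 7), (4, 6, 15), (4, 12, 15), (5, 10, 13), (5, 13, 14), (6, 7, 8), (6, 8, 15)]
    fin := [0, 0, 0, 0, 4, 0, 4, 0, 4, 9, 0, 0, 12, 13, 14, 15]
    chd := [(0, 9), (4, 12)]
    steps := [(0, 1), (0, 2), (0, 3), (0, 7), (0, 10), (0, 5), (0, 11), (4, 6), (4, 8)] }
  rep := [0, 9, 12, 4, 13, 14, 15]

noncomputable def v3297 : Cov.CovD where
  P := 3
  N := 4
  pl := [6, 7, 8]
  lev := [⟨[], [], [(0, 1), (0, 3), (1, 3)], [], [(0, 0, [1]), (1, 3, [2]), (2, 1, [0])]⟩,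
    ⟨[], [(0, 0), (0, 1), (0, 2), (0, 3)], [(0, 0), (0, 1), (0, 2), (1, 2)], [], [(0, 0,
      [1]), (2, 1, [0]), (3, 0, [1]), (4, 0, [1]), (5, 2, [3])]⟩,
    ⟨[(0, 1)], [(0, 1), (1, 0), (1, 1), (1, 2)], [(0, 1)], [4], [(2, 1, [0]), (3, 0, [1])]⟩,
    ⟨[(0, 1), (1, 2)], [(1, 0), (1, 1), (1, 2), (2, 0)], [(0, 0)], [5], [(3, 0, [1]), (4,
      0, [1])]⟩,
    ⟨[(0, 1), (1, 2), (1, 3)], [(0, 0), (1, 0), (1, 1), (1, 2)], [(0, 2)], [6], [(0, 0,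
      [1]), (5, 2, [3])]⟩,
    ⟨[(1, 3)], [(1, 0), (2, 0), (3, 0)], [], [4, 5], [(3, 0, [1])]⟩,
    ⟨[(1, 4)], [(0, 0), (0, 3), (1, 0), (4, 0), (4, 2), (4, 3)], [(0, 3)], [6], [(0, 0,
      [1]), (1, 3, [2])]⟩]
  Ta := [((0, 1), 0, 3), ((3, 6), 0, 4), ((4, 5), 0, 2), ((4, 7), 0, 5)]
  Tb := [((1, 0, 2), 3, 0, 1), ((1, 0, 8), 3, 0, 6), ((1, 2, 8), 3, 1, 6), ((2, 1, 6), 1, 3, 4),
    ((4, 5, 7), 0, 2, 5), ((5, 4, 8), 2, 0, 6), ((6, 2, 3), 4, 1, 0), ((6, 2, 7), 4, 1, 5),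
    ((6, 3, 7), 4, 0, 5), ((7, 4, 6), 5, 0, 4), ((8, 1, 5), 6, 3, 2)]
  Tc := []
  Td := [((0, 1), (0, 1), 3), ((0, 1), (3, 6), 4), ((0, 1), (4, 5), 2), ((0, 1), (4, 7), 5), ((1,
    0), (2, 1), 3), ((1, 0), (2, 6), 4), ((2, 3), (5, 4), 0), ((2, 3), (5, 8), 6), ((3, 2),
    (1, 0), 0), ((3, 2), (1, 2), 1), ((3, 2), (1, 8), 6)]
  G := [[0, 0x514849183111c6214e11718eac2, 0, 0x88c22cc886226ca14414242422c44cc22a8e98c,
    0x44c88ceece44a88a2eae6184], [0, 0x5131c44a118c8a111c2ac2, 0,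
    0x24e4c22e2c64e828ce222ca8c1, 0x18aa848725ac4a365434a1262a6c84], [0,
    0x1161c4411b1c2a111c8ac2, 0x41484c8c62cacc6266aa1c1, 0xeec22cc6e6a26ca141,
    0x44ceeca44a2eaa6181]]

noncomputable def n3297 : Ent := ⟨e3297, noF, [], [], []⟩

def c3297 : PLift (Cov.check n3297.C.D v3297 = true) := ⟨by decide +kernel⟩

def b3297 : PLift (entF (fidx ts) 400 3297 n3297 = true) := ⟨by decide +kernel⟩

theorem g3297 : GoodF (fidx ts) 400 3297 := GoodF.ofV v3297 n3297 c3297.down b3297.down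

/-- 4945544:2512/1 -/
noncomputable def e3298 : SCfg where
  D := {
    a := 7
    L := 10
    kp := 7
    inn := [(0, 1), (1, 0), (1, 2), (1, 3), (1, 4), (2, 1), (3, 1), (3, 5), (4, 1), (4, 6), (5, 3), (6,
      4)]
    mix := [(0, 0), (0, 1), (0, 2), (1, 0), (1, 2), (1, 3), (1, 4), (1, 5), (2, 2), (2, 3), (2, 6), (3,
      3), (3, 4), (3, 7), (4, 0), (4, 5), (4, 8), (5, 3), (5, 7), (5, 9), (6, 0), (6, 1), (6, 8)]
    cl := [0, 3, 1, 0, 0, 2, 6, 4, 5, 7]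
    chq := [(0, 1), (1, 0), (2, 3), (3, 2)]
    rng := [(0, 1), (1, 0), (1, 2), (1, 8), (2, 1), (2, 6), (3, 6), (3, 9), (4, 5), (4, 7), (5, 4), (5,
      8), (6, 2), (6, 3), (7, 4), (7, 9), (8, 1), (8, 5), (9, 3), (9, 7)]
    lev := [] }
  links := [[1, 7, 8, 9], [7, 0, 9, 2, 10, 3, 11, 12, 4], [10, 1, 9, 13], [11, 1, 10, 5, 14], [7, 1, 12,
    15, 6], [14, 3, 10, 16], [7, 4, 15, 8]]
  P := {
    a := 7
    N := 17
    nb := [898, 7837, 9730, 19490, 37058, 82952, 33168, 339, 33473, 8455, 73774, 20490, 34834, 1540,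
      67624, 4432, 17440]
    tri := [(0, 1, 7), (0, 1, 9), (0, 7, 8), (0, 8, 9), (1, 2, 9), (1, 2, 10), (1, 3, 10), (1, 3, 11),
      (1, 4, 7), (1, 4, 12), (1, 11, 12), (2, 9, 13), (2, 10, 13), (3, 5, 10), (3, 5, 14), (3, 11,
      14), (4, 6, 7), (4, 6, 15), (4, 12, 15), (5, 10, 16), (5, 14, 16), (6, 7, 8), (6, 8, 15)]
    fin := [0, 0, 0, 0, 4, 0, 4, 0, 4, 9, 0, 0, 12, 13, 14, 15, 16]
    chd := [(0, 9), (4, 12)]
    steps := [(0, 1), (0, 2), (0, 3), (0, 5), (0, 7), (0, 10), (0, 11), (4, 6), (4, 8)] }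
  rep := [0, 9, 12, 4, 14, 15, 13, 16]

noncomputable def v3298 : Cov.CovD where
  P := 3
  N := 5
  pl := [6, 7, 8, 9]
  lev := [⟨[], [], [(0, 1), (0, 3), (1, 3)], [], [(0, 0, [1]), (1, 3, [2]), (2, 1, [0])]⟩,
    ⟨[], [(0, 0), (0, 1), (0, 2), (0, 3)], [(0, 0), (0, 1), (0, 2), (1, 2)], [], [(0, 0,
      [1]), (2, 1, [0]), (3, 0, [1]), (4, 0, [1]), (5, 2, [3])]⟩,
    ⟨[(0, 1)], [(0, 1), (1, 0), (1, 1), (1, 2)], [(0, 1)], [6], [(2, 1, [0]), (3, 0, [1])]⟩,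
    ⟨[(0, 1), (1, 2)], [(1, 0), (1, 1), (1, 2), (2, 0)], [(0, 0)], [4], [(3, 0, [1]), (4,
      0, [1])]⟩,
    ⟨[(0, 1), (1, 2), (1, 3)], [(0, 0), (1, 0), (1, 1), (1, 2)], [(0, 2)], [5], [(0, 0,
      [1]), (5, 2, [3])]⟩,
    ⟨[(1, 3)], [(1, 0), (2, 0), (3, 0)], [], [4, 7], [(3, 0, [1])]⟩,
    ⟨[(1, 4)], [(0, 0), (0, 3), (1, 0), (4, 0), (4, 2), (4, 3)], [(0, 3)], [5], [(0, 0,
      [1]), (1, 3, [2])]⟩]
  Ta := [((0, 1), 0, 3), ((3, 6), 0, 6), ((3, 9), 0, 7), ((4, 5), 0, 2), ((4, 7), 0, 4)]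
  Tb := [((1, 0, 2), 3, 0, 1), ((1, 0, 8), 3, 0, 5), ((1, 2, 8), 3, 1, 5), ((2, 1, 6), 1, 3, 6),
    ((3, 6, 9), 0, 6, 7), ((4, 5, 7), 0, 2, 4), ((5, 4, 8), 2, 0, 5), ((6, 2, 3), 6, 1, 0),
    ((7, 4, 9), 4, 0, 7), ((8, 1, 5), 5, 3, 2), ((9, 3, 7), 7, 0, 4)]
  Tc := []
  Td := [((0, 1), (0, 1), 3), ((0, 1), (3, 6), 6), ((0, 1), (3, 9), 7), ((0, 1), (4, 5), 2), ((0,
    1), (4, 7), 4), ((1, 0), (2, 1), 3), ((1, 0), (2, 6), 6), ((2, 3), (5, 4), 0), ((2, 3),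
    (5, 8), 5), ((3, 2), (1, 0), 0), ((3, 2), (1, 2), 1), ((3, 2), (1, 8), 5)]
  G := [[0, 0x7111c4114718a6a18114a8c2, 0, 0x88c22cc886226ca1422c44cc22a44ac618c,
    0x44c88ceece46a8aaecae6184], [0, 0x1161c44112141e811b1c2ac2, 0,
    0xe44426ceacc62aaeac6c62ca8c2e622ca8c1, 0x8856c4cc7eea1611c84c844a2244c264aceaa6c85], [0,
    0x1161c25131c469131c88c2, 0xc4a4662461c868aa28a1c1, 0xe6c2accee6226ca141,
    0x46cecca46aecaa6181]]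

noncomputable def n3298 : Ent := ⟨e3298, noF, [], [], [(13, 16, [1580044410770988437309982408355971841652082177953823432505702617089, 0])]⟩

def c3298 : PLift (Cov.check n3298.C.D v3298 = true) := ⟨by decide +kernel⟩

def b3298 : PLift (entF (fidx ts) 400 3298 n3298 = true) := ⟨by decide +kernel⟩

theorem g3298 : GoodF (fidx ts) 400 3298 := GoodF.ofV v3298 n3298 c3298.down b3298.down

/-- 4945544:2512/3 -/
noncomputable def e3299 : SCfg where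
  D := {
    a := 7
    L := 10
    kp := 7
    inn := [(0, 1), (1, 0), (1, 2), (1, 3), (1, 4), (2, 1), (3, 1), (3, 5), (4, 1), (4, 6), (5, 3), (6,
      4)]
    mix := [(0, 0), (0, 1), (0, 2), (1, 0), (1, 2), (1, 3), (1, 4), (1, 5), (2, 2), (2, 3), (2, 6), (3,
      3), (3, 4), (3, 7), (4, 0), (4, 5), (4, 8), (5, 3), (5, 6), (5, 7), (6, 0), (6, 8), (6, 9)]
    cl := [0, 6, 1, 0, 2, 0, 3, 4, 5, 7]
    chq := [(0, 1), (1, 0), (2, 3), (3, 2)]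
    rng := [(0, 1), (0, 9), (1, 0), (1, 2), (2, 1), (2, 6), (3, 6), (4, 5), (4, 7), (5, 4), (5, 8), (6,
      2), (6, 3), (6, 7), (7, 4), (7, 6), (8, 5), (8, 9), (9, 0), (9, 8)]
    lev := [] }
  links := [[1, 7, 8, 9], [7, 0, 9, 2, 10, 3, 11, 12, 4], [10, 1, 9, 13], [11, 1, 10, 5, 14], [7, 1, 12,
    15, 6], [14, 3, 10, 13], [7, 4, 15, 16]]
  P := {
    a := 7
    N := 17
    nb := [898, 7837, 9730, 19490, 37058, 25608, 98448, 65875, 641, 8455, 8238, 20490, 34834, 17956,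
      10280, 69712, 32960]
    tri := [(0, 1, 7), (0, 1, 9), (0, 7, 8), (0, 8, 9), (1, 2, 9), (1, 2, 10), (1, 3, 10), (1, 3, 11),
      (1, 4, 7), (1, 4, 12), (1, 11, 12), (2, 9, 13), (2, 10, 13), (3, 5, 10), (3, 5, 14), (3, 11,
      14), (4, 6, 7), (4, 6, 15), (4, 12, 15), (5, 10, 13), (5, 13, 14), (6, 7, 16), (6, 15, 16)]
    fin := [0, 0, 0, 3, 0, 3, 0, 0, 8, 9, 0, 11, 0, 3, 14, 15, 16]
    chd := [(0, 9), (11, 3)]
    steps := [(0, 1), (0, 2), (0, 4), (0, 6), (0, 7), (0, 10), (0, 12), (3, 5), (3, 13)] }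
  rep := [0, 9, 11, 3, 14, 15, 8, 16]

noncomputable def v3299 : Cov.CovD where
  P := 3
  N := 5
  pl := [1, 7, 8, 9]
  lev := [⟨[], [], [(0, 1)], [6], [(0, 0, [1]), (2, 1, [0])]⟩,
    ⟨[], [(0, 0), (0, 1), (0, 2)], [(0, 0), (0, 1), (0, 2), (1, 2)], [], [(0, 0, [1]), (2,
      1, [0]), (3, 0, [1]), (4, 2, [3]), (5, 0, [1])]⟩,
    ⟨[(0, 1)], [(0, 1), (1, 0), (1, 1), (1, 2), (1, 3)], [(0, 1), (0, 3), (1, 3)], [], [(2,
      1, [0]), (3, 0, [1]), (6, 3, [2])]⟩,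
    ⟨[(0, 1), (1, 2)], [(1, 0), (1, 1), (1, 2), (2, 0)], [(0, 2)], [4], [(3, 0, [1]), (4,
      2, [3])]⟩,
    ⟨[(0, 1), (1, 2), (1, 3)], [(0, 0), (1, 0), (1, 1), (1, 2)], [(0, 0)], [5], [(0, 0,
      [1]), (5, 0, [1])]⟩,
    ⟨[(1, 3)], [(1, 0), (2, 0), (2, 3), (3, 0), (3, 2), (3, 3)], [(0, 3)], [4], [(3, 0,
      [1]), (6, 3, [2])]⟩,
    ⟨[(1, 4)], [(0, 0), (1, 0), (4, 0)], [], [5, 7], [(0, 0, [1])]⟩]
  Ta := [((0, 1), 0, 6), ((0, 9), 0, 7), ((3, 6), 0, 3), ((5, 4), 0, 2), ((5, 8), 0, 5)]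
  Tb := [((0, 1, 9), 0, 6, 7), ((1, 0, 2), 6, 0, 1), ((2, 1, 6), 1, 6, 3), ((4, 5, 7), 2, 0, 4),
    ((5, 4, 8), 0, 2, 5), ((6, 2, 3), 3, 1, 0), ((6, 2, 7), 3, 1, 4), ((6, 3, 7), 3, 0, 4),
    ((7, 4, 6), 4, 2, 3), ((8, 5, 9), 5, 0, 7), ((9, 0, 8), 7, 0, 5)]
  Tc := []
  Td := [((0, 1), (0, 1), 6), ((0, 1), (0, 9), 7), ((0, 1), (3, 6), 3), ((0, 1), (5, 4), 2), ((0,
    1), (5, 8), 5), ((1, 0), (2, 1), 6), ((1, 0), (2, 6), 3), ((2, 3), (4, 5), 0), ((2, 3),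
    (4, 7), 4), ((3, 2), (6, 2), 1), ((3, 2), (6, 3), 0), ((3, 2), (6, 7), 4)]
  G := [[0, 0x11a11aa1111ac24113116115116ac28c, 0, 0xcc6666eacca62ac14c1a164c2a26c4a46c98c,
    0xcccaac61cc6aa66258c1a16cc6aaab6a48c], [0, 0x11a1161112a142e2411a11cc1121164d24a, 0,
    0xc2a26c4a46c4c868ac262ac8c1, 0xc4a46c8a86ccceaaae6e481], [0,
    0x116116421111aa82c11116116116cc286, 0xc161a4c161a8c262a2d41, 0xccce666eac262ac141,
    0xc1a168c4a462581]]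

noncomputable def n3299 : Ent := ⟨e3299, noF, [], [], [(8, 16, [1580044410770988437309982408355971841652082177953823432505702617089, 0])]⟩

def c3299 : PLift (Cov.check n3299.C.D v3299 = true) := ⟨by decide +kernel⟩

def b3299 : PLift (entF (fidx ts) 400 3299 n3299 = true) := ⟨by decide +kernel⟩

theorem g3299 : GoodF (fidx ts) 400 3299 := GoodF.ofV v3299 n3299 c3299.down b3299.down

/-- 4945544:2512 -/
noncomputable def e3300 : SCfg where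
  D := {
    a := 7
    L := 11
    kp := 8
    inn := [(0, 1), (1, 0), (1, 2), (1, 3), (1, 4), (2, 1), (3, 1), (3, 5), (4, 1), (4, 6), (5, 3), (6,
      4)]
    mix := [(0, 0), (0, 1), (0, 2), (1, 0), (1, 2), (1, 3), (1, 4), (1, 5), (2, 2), (2, 3), (2, 6), (3,
      3), (3, 4), (3, 7), (4, 0), (4, 5), (4, 8), (5, 3), (5, 7), (5, 9), (6, 0), (6, 8), (6, 10)]
    cl := [0, 6, 3, 1, 1, 0, 5, 2, 4, 7, 8]
    chq := [(0, 3), (0, 5), (3, 0), (5, 0)]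
    rng := [(0, 1), (0, 10), (1, 0), (1, 2), (2, 1), (2, 6), (3, 6), (3, 9), (4, 5), (4, 7), (5, 4),
      (5, 8), (6, 2), (6, 3), (7, 4), (7, 9), (8, 5), (8, 10), (9, 3), (9, 7), (10, 0), (10, 8)]
    lev := [] }
  links := [[1, 7, 8, 9], [7, 0, 9, 2, 10, 3, 11, 12, 4], [10, 1, 9, 13], [11, 1, 10, 5, 14], [7, 1, 12,
    15, 6], [14, 3, 10, 16], [7, 4, 15, 17]]
  P := {
    a := 7
    N := 18
    nb := [898, 7837, 9730, 19490, 37058, 82952, 163984, 131411, 641, 8455, 73774, 20490, 34834, 1540,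
      67624, 135248, 17440, 32960]
    tri := [(0, 1, 7), (0, 1, 9), (0, 7, 8), (0, 8, 9), (1, 2, 9), (1, 2, 10), (1, 3, 10), (1, 3, 11),
      (1, 4, 7), (1, 4, 12), (1, 11, 12), (2, 9, 13), (2, 10, 13), (3, 5, 10), (3, 5, 14), (3, 11,
      14), (4, 6, 7), (4, 6, 15), (4, 12, 15), (5, 10, 16), (5, 14, 16), (6, 7, 17), (6, 15, 17)]
    fin := [0, 0, 0, 3, 0, 3, 0, 0, 8, 9, 3, 3, 0, 13, 14, 15, 16, 17]
    chd := [(0, 9), (0, 13)]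
    steps := [(0, 1), (0, 2), (0, 4), (0, 6), (0, 7), (0, 12), (3, 5), (3, 10), (3, 11)] }
  rep := [0, 3, 14, 9, 15, 13, 8, 16, 17]

noncomputable def v3300 : Cov.CovD where
  P := 3
  N := 6
  pl := [1, 7, 8, 9, 10]
  lev := [⟨[], [], [(0, 3)], [6], [(0, 0, [3, 5]), (2, 3, [0])]⟩,
    ⟨[], [(0, 0), (0, 1), (0, 3)], [(0, 0), (0, 1), (0, 3), (1, 1), (1, 3)], [], [(0, 0,
      [3, 5]), (2, 3, [0]), (3, 1, []), (4, 1, []), (5, 0, [3, 5])]⟩,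
    ⟨[(0, 1)], [(0, 3), (1, 0), (1, 1), (1, 3), (1, 5)], [(1, 3), (1, 5), (3, 5)], [], [(2,
      3, [0]), (3, 1, []), (6, 5, [0])]⟩,
    ⟨[(0, 1), (1, 2)], [(1, 0), (1, 1), (1, 3), (2, 1)], [(1, 1)], [2], [(3, 1, []), (4, 1,
      [])]⟩,
    ⟨[(0, 1), (1, 2), (1, 3)], [(0, 0), (1, 0), (1, 1), (1, 3)], [(0, 0)], [4], [(0, 0, [3,
      5]), (5, 0, [3, 5])]⟩,
    ⟨[(1, 3)], [(1, 1), (2, 1), (3, 1)], [], [2, 7], [(3, 1, [])]⟩,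
    ⟨[(1, 4)], [(0, 0), (1, 0), (4, 0)], [], [4, 8], [(0, 0, [3, 5])]⟩]
  Ta := [((0, 1), 0, 6), ((0, 10), 0, 8), ((3, 6), 1, 5), ((3, 9), 1, 7), ((4, 5), 1, 0), ((4,
    7), 1, 2), ((5, 4), 0, 1), ((5, 8), 0, 4)]
  Tb := [((0, 1, 10), 0, 6, 8), ((1, 0, 2), 6, 0, 3), ((2, 1, 6), 3, 6, 5), ((3, 6, 9), 1, 5, 7),
    ((4, 5, 7), 1, 0, 2), ((5, 4, 8), 0, 1, 4), ((6, 2, 3), 5, 3, 1), ((7, 4, 9), 2, 1, 7),
    ((8, 5, 10), 4, 0, 8), ((9, 3, 7), 7, 1, 2), ((10, 0, 8), 8, 0, 4)]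
  Tc := [(0, 3, 5)]
  Td := [((0, 3), (0, 1), 6), ((0, 3), (0, 10), 8), ((0, 3), (5, 4), 1), ((0, 3), (5, 8), 4),
    ((0, 5), (0, 1), 6), ((0, 5), (0, 10), 8), ((0, 5), (5, 4), 1), ((0, 5), (5, 8), 4), ((3,
    0), (2, 1), 6), ((3, 0), (2, 6), 5), ((5, 0), (6, 2), 3), ((5, 0), (6, 3), 1)]
  G := [[0, 0, 0xcccaac6418ccc66ca814cccaac641ccc66ca81ce, 0,
    0xcc9aa96118cc9669a114cc9aa9611cc9669a81ce], [0, 0, 0xc2a26418c262a814c2a2641c262a81ce,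
    0xcccaa96418ccc66ca814cc5aac612cc9669a41ce, 0xc2a26118c262a114c2a2681c262a81ce], [0, 0,
    0xc1c16ca8141acb1cc814cccaac64187, 0, 0x1192118e1981141194814cc9aa9611ee9211cf], [0,
    0xcccaac641ccc66ca81c1, 0x1212a8141212a814c2a2641a2841c7,
    0x11c11ca8141151ac6814cc5aac641ac9841c7, 0x1272611812a26118c262a114b]]

noncomputable def n3300 : Ent := ⟨e3300, noF, [], [], [(8, 17, [6903326391201334775872065844685381424292761054348340378595029943197697, 0]), (13, 16, [7334685537875745012586738086077695515070955365108989538292687707189249, 0])]⟩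

def c3300 : PLift (Cov.check n3300.C.D v3300 = true) := ⟨by decide +kernel⟩

def b3300 : PLift (entF (fidx ts) 400 3300 n3300 = true) := ⟨by decide +kernel⟩

theorem g3300 : GoodF (fidx ts) 400 3300 := GoodF.ofV v3300 n3300 c3300.down b3300.down

/-- 4945544:2513/1 -/
noncomputable def e3301 : SCfg where
  D := {
    a := 7
    L := 10
    kp := 7
    inn := [(0, 1), (1, 0), (1, 2), (1, 3), (1, 4), (2, 1), (3, 1), (3, 5), (4, 1), (4, 6), (5, 3), (6,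
      4)]
    mix := [(0, 0), (0, 1), (0, 2), (1, 0), (1, 2), (1, 3), (1, 4), (1, 5), (2, 2), (2, 3), (2, 6), (3,
      3), (3, 4), (3, 7), (4, 0), (4, 5), (4, 8), (5, 4), (5, 7), (5, 9), (6, 5), (6, 8), (6, 9)]
    cl := [0, 7, 2, 1, 1, 0, 6, 3, 4, 5]
    chq := [(0, 2), (0, 6), (2, 0), (6, 0)]
    rng := [(0, 1), (0, 8), (1, 0), (1, 2), (2, 1), (2, 6), (3, 6), (3, 7), (4, 5), (4, 9), (5, 4), (5,
      9), (6, 2), (6, 3), (7, 3), (7, 9), (8, 0), (8, 9), (9, 4), (9, 5), (9, 7), (9, 8)]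
    lev := [] }
  links := [[1, 7, 8, 9], [7, 0, 9, 2, 10, 3, 11, 12, 4], [10, 1, 9, 13], [11, 1, 10, 14, 5], [7, 1, 12,
    6, 15], [11, 3, 14, 16], [15, 4, 12, 16]]
  P := {
    a := 7
    N := 17
    nb := [898, 7837, 9730, 19490, 37058, 83976, 102416, 33043, 641, 8455, 24590, 69674, 67666, 1540,
      66600, 65744, 55392]
    tri := [(0, 1, 7), (0, 1, 9), (0, 7, 8), (0, 8, 9), (1, 2, 9), (1, 2, 10), (1, 3, 10), (1, 3, 11),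
      (1, 4, 7), (1, 4, 12), (1, 11, 12), (2, 9, 13), (2, 10, 13), (3, 5, 11), (3, 5, 14), (3, 10,
      14), (4, 6, 12), (4, 6, 15), (4, 7, 15), (5, 11, 16), (5, 14, 16), (6, 12, 16), (6, 15, 16)]
    fin := [0, 0, 0, 3, 0, 3, 0, 0, 8, 9, 3, 3, 0, 13, 14, 15, 16]
    chd := [(0, 9), (0, 13)]
    steps := [(0, 1), (0, 2), (0, 4), (0, 6), (0, 7), (0, 12), (3, 5), (3, 10), (3, 11)] }
  rep := [0, 3, 9, 14, 15, 16, 13, 8]

noncomputable def v3301 : Cov.CovD where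
  P := 3
  N := 5
  pl := [1, 7, 8, 9]
  lev := [⟨[], [], [(0, 2)], [7], [(0, 0, [2, 6]), (2, 2, [0])]⟩,
    ⟨[], [(0, 0), (0, 1), (0, 2)], [(0, 0), (0, 1), (0, 2), (1, 1), (1, 2)], [], [(0, 0,
      [2, 6]), (2, 2, [0]), (3, 1, []), (4, 1, []), (5, 0, [2, 6])]⟩,
    ⟨[(0, 1)], [(0, 2), (1, 0), (1, 1), (1, 2), (1, 6)], [(1, 2), (1, 6), (2, 6)], [], [(2,
      2, [0]), (3, 1, []), (6, 6, [0])]⟩,
    ⟨[(0, 1), (1, 2)], [(1, 0), (1, 1), (1, 2), (2, 1)], [(1, 1)], [3], [(3, 1, []), (4, 1,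
      [])]⟩,
    ⟨[(0, 1), (1, 2), (1, 3)], [(0, 0), (1, 0), (1, 1), (1, 2)], [(0, 0)], [4], [(0, 0, [2,
      6]), (5, 0, [2, 6])]⟩,
    ⟨[(1, 3)], [(1, 1), (3, 1)], [], [3, 5], [(4, 1, [])]⟩,
    ⟨[(1, 4)], [(1, 0), (4, 0)], [], [4, 5], [(5, 0, [2, 6])]⟩]
  Ta := [((0, 1), 0, 7), ((0, 8), 0, 4), ((3, 6), 1, 6), ((3, 7), 1, 3), ((4, 5), 1, 0), ((4, 9),
    1, 5), ((5, 4), 0, 1), ((5, 9), 0, 5)]
  Tb := [((0, 1, 8), 0, 7, 4), ((1, 0, 2), 7, 0, 2), ((2, 1, 6), 2, 7, 6), ((3, 6, 7), 1, 6, 3),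
    ((4, 5, 9), 1, 0, 5), ((5, 4, 9), 0, 1, 5), ((6, 2, 3), 6, 2, 1), ((7, 3, 9), 3, 1, 5),
    ((8, 0, 9), 4, 0, 5), ((9, 4, 5), 5, 1, 0), ((9, 4, 7), 5, 1, 3), ((9, 4, 8), 5, 1, 4),
    ((9, 5, 7), 5, 0, 3), ((9, 5, 8), 5, 0, 4), ((9, 7, 8), 5, 3, 4)]
  Tc := [(0, 2, 6)]
  Td := [((0, 2), (0, 1), 7), ((0, 2), (0, 8), 4), ((0, 2), (5, 4), 1), ((0, 2), (5, 9), 5), ((0,
    6), (0, 1), 7), ((0, 6), (0, 8), 4), ((0, 6), (5, 4), 1), ((0, 6), (5, 9), 5), ((2, 0),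
    (2, 1), 7), ((2, 0), (2, 6), 6), ((6, 0), (6, 2), 2), ((6, 0), (6, 3), 1)]
  G := [[0, 0, 0x1212a1121a9141112c1221ac146, 0x12226112165181222a1121a518c,
    0x1222611216518122262111c518a], [0, 0, 0x14c81c61111652881c11ca1111a924c,
    0x84c11ca11a1691411c24cc91316518c, 0x14c21c611a1651812c24cc5191a518a], [0, 0,
    0x1134222118d14121261121a518a, 0x84c226c222965181, 0x84c22a6c222365181], [0,
    0x444418862ca8c622aa1c1, 0x11c11ca1111a92484c11c61111a5286, 0x2444cc1a16518828a81c1,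
    0x84c2ac64c982965281]]

noncomputable def n3301 : Ent := ⟨e3301, noF, [], [], []⟩

def c3301 : PLift (Cov.check n3301.C.D v3301 = true) := ⟨by decide +kernel⟩

def b3301 : PLift (entF (fidx ts) 400 3301 n3301 = true) := ⟨by decide +kernel⟩

theorem g3301 : GoodF (fidx ts) 400 3301 := GoodF.ofV v3301 n3301 c3301.down b3301.down

/-- 4945544:2513 -/
noncomputable def e3302 : SCfg where
  D := {
    a := 7
    L := 11
    kp := 8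
    inn := [(0, 1), (1, 0), (1, 2), (1, 3), (1, 4), (2, 1), (3, 1), (3, 5), (4, 1), (4, 6), (5, 3), (6,
      4)]
    mix := [(0, 0), (0, 1), (0, 2), (1, 0), (1, 2), (1, 3), (1, 4), (1, 5), (2, 2), (2, 3), (2, 6), (3,
      3), (3, 4), (3, 7), (4, 0), (4, 5), (4, 8), (5, 4), (5, 7), (5, 9), (6, 5), (6, 8), (6, 10)]
    cl := [0, 6, 2, 1, 1, 0, 5, 3, 4, 7, 8]
    chq := [(0, 2), (0, 5), (2, 0), (5, 0)]
    rng := [(0, 1), (0, 8), (1, 0), (1, 2), (2, 1), (2, 6), (3, 6), (3, 7), (4, 5), (4, 9), (5, 4), (5,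
      10), (6, 2), (6, 3), (7, 3), (7, 9), (8, 0), (8, 10), (9, 4), (9, 7), (10, 5), (10, 8)]
    lev := [] }
  links := [[1, 7, 8, 9], [7, 0, 9, 2, 10, 3, 11, 12, 4], [10, 1, 9, 13], [11, 1, 10, 14, 5], [7, 1, 12,
    6, 15], [11, 3, 14, 16], [15, 4, 12, 17]]
  P := {
    a := 7
    N := 18
    nb := [898, 7837, 9730, 19490, 37058, 83976, 167952, 33043, 641, 8455, 24590, 69674, 133202, 1540,
      66600, 131280, 18464, 36928]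
    tri := [(0, 1, 7), (0, 1, 9), (0, 7, 8), (0, 8, 9), (1, 2, 9), (1, 2, 10), (1, 3, 10), (1, 3, 11),
      (1, 4, 7), (1, 4, 12), (1, 11, 12), (2, 9, 13), (2, 10, 13), (3, 5, 11), (3, 5, 14), (3, 10,
      14), (4, 6, 12), (4, 6, 15), (4, 7, 15), (5, 11, 16), (5, 14, 16), (6, 12, 17), (6, 15, 17)]
    fin := [0, 0, 0, 3, 0, 3, 0, 0, 8, 9, 3, 3, 0, 13, 14, 15, 16, 17]
    chd := [(0, 9), (0, 13)]
    steps := [(0, 1), (0, 2), (0, 4), (0, 6), (0, 7), (0, 12), (3, 5), (3, 10), (3, 11)] }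
  rep := [0, 3, 9, 14, 15, 13, 8, 16, 17]

noncomputable def v3302 : Cov.CovD where
  P := 3
  N := 6
  pl := [1, 7, 8, 9, 10]
  lev := [⟨[], [], [(0, 2)], [6], [(0, 0, [2, 5]), (2, 2, [0])]⟩,
    ⟨[], [(0, 0), (0, 1), (0, 2)], [(0, 0), (0, 1), (0, 2), (1, 1), (1, 2)], [], [(0, 0,
      [2, 5]), (2, 2, [0]), (3, 1, []), (4, 1, []), (5, 0, [2, 5])]⟩,
    ⟨[(0, 1)], [(0, 2), (1, 0), (1, 1), (1, 2), (1, 5)], [(1, 2), (1, 5), (2, 5)], [], [(2,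
      2, [0]), (3, 1, []), (6, 5, [0])]⟩,
    ⟨[(0, 1), (1, 2)], [(1, 0), (1, 1), (1, 2), (2, 1)], [(1, 1)], [3], [(3, 1, []), (4, 1,
      [])]⟩,
    ⟨[(0, 1), (1, 2), (1, 3)], [(0, 0), (1, 0), (1, 1), (1, 2)], [(0, 0)], [4], [(0, 0, [2,
      5]), (5, 0, [2, 5])]⟩,
    ⟨[(1, 3)], [(1, 1), (3, 1)], [], [3, 7], [(4, 1, [])]⟩,
    ⟨[(1, 4)], [(1, 0), (4, 0)], [], [4, 8], [(5, 0, [2, 5])]⟩]
  Ta := [((0, 1), 0, 6), ((0, 8), 0, 4), ((3, 6), 1, 5), ((3, 7), 1, 3), ((4, 5), 1, 0), ((4, 9),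
    1, 7), ((5, 4), 0, 1), ((5, 10), 0, 8)]
  Tb := [((0, 1, 8), 0, 6, 4), ((1, 0, 2), 6, 0, 2), ((2, 1, 6), 2, 6, 5), ((3, 6, 7), 1, 5, 3),
    ((4, 5, 9), 1, 0, 7), ((5, 4, 10), 0, 1, 8), ((6, 2, 3), 5, 2, 1), ((7, 3, 9), 3, 1, 7),
    ((8, 0, 10), 4, 0, 8), ((9, 4, 7), 7, 1, 3), ((10, 5, 8), 8, 0, 4)]
  Tc := [(0, 2, 5)]
  Td := [((0, 2), (0, 1), 6), ((0, 2), (0, 8), 4), ((0, 2), (5, 4), 1), ((0, 2), (5, 10), 8),
    ((0, 5), (0, 1), 6), ((0, 5), (0, 8), 4), ((0, 5), (5, 4), 1), ((0, 5), (5, 10), 8), ((2,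
    0), (2, 1), 6), ((2, 0), (2, 6), 5), ((5, 0), (6, 2), 2), ((5, 0), (6, 3), 1)]
  G := [[0, 0, 0x1418c1221211ad1411612a113115a914c, 0x93c526115665a91412a26155635ac18c,
    0xc2126c191a9651872126775115ac18a], [0, 0, 0x1414c411818a1111a91c11c11ca11511569246,
    0x3cc91c653939965181464c419858a1161a91cc, 0xc3c19c6559339652871c16ccc191d96518a], [0, 0,
    0x11a126111214e9141211c611912a518a, 0xc2a26cc5aa56c181, 0xc2a26cc5aa56c181], [0,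
    0xcccaac6ccaaaa66181, 0x11c211925181481185218881c11c41154914e, 0xcccaac6cc9aa965181,
    0xcccaac6cc9aa965281]]

noncomputable def n3302 : Ent := ⟨e3302, noF, [], [], [(16, 17, [6903326391201334775872065844685381424292761054348340378595029943209985, 0])]⟩

def c3302 : PLift (Cov.check n3302.C.D v3302 = true) := ⟨by decide +kernel⟩

def b3302 : PLift (entF (fidx ts) 400 3302 n3302 = true) := ⟨by decide +kernel⟩

theorem g3302 : GoodF (fidx ts) 400 3302 := GoodF.ofV v3302 n3302 c3302.down b3302.down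

/-- 4947447:2514 -/
noncomputable def e3303 : SCfg where
  D := {
    a := 7
    L := 11
    kp := 9
    inn := [(0, 1), (1, 0), (1, 2), (1, 3), (1, 4), (1, 6), (2, 1), (2, 3), (3, 1), (3, 2), (3, 5), (3,
      6), (4, 1), (4, 6), (5, 3), (5, 6), (6, 1), (6, 3), (6, 4), (6, 5)]
    mix := [(0, 0), (0, 1), (0, 2), (1, 0), (1, 2), (1, 3), (1, 4), (2, 2), (2, 5), (3, 5), (3, 6), (3,
      7), (4, 3), (4, 8), (5, 7), (5, 9), (6, 8), (6, 9), (6, 10)]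
    cl := [1, 6, 0, 0, 7, 2, 8, 3, 5, 4, 9]
    chq := [(0, 3), (0, 4), (0, 8), (0, 9), (3, 0), (4, 0), (6, 7), (7, 6), (8, 0), (9, 0)]
    rng := [(0, 1), (0, 4), (1, 0), (1, 2), (2, 1), (2, 5), (3, 4), (3, 8), (4, 0), (4, 3), (5, 2), (5,
      6), (6, 5), (6, 7), (7, 6), (7, 9), (8, 3), (8, 10), (9, 7), (9, 10), (10, 8), (10, 9)]
    lev := [] }
  links := [[1, 7, 8, 9], [7, 0, 9, 2, 3, 6, 4, 10, 11], [3, 1, 9, 12], [6, 1, 2, 12, 13, 14, 5], [10, 1,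
    6, 15], [6, 3, 14, 16], [15, 4, 1, 3, 5, 16, 17]]
  P := {
    a := 7
    N := 18
    nb := [898, 3805, 4618, 28774, 33858, 81992, 229434, 2307, 641, 4359, 34834, 1154, 8716, 20488,
      73768, 132176, 147552, 98368]
    tri := [(0, 1, 7), (0, 1, 9), (0, 7, 8), (0, 8, 9), (1, 2, 3), (1, 2, 9), (1, 3, 6), (1, 4, 6), (1,
      4, 10), (1, 7, 11), (1, 10, 11), (2, 3, 12), (2, 9, 12), (3, 5, 6), (3, 5, 14), (3, 12, 13),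
      (3, 13, 14), (4, 6, 15), (4, 10, 15), (5, 6, 16), (5, 14, 16), (6, 15, 17), (6, 16, 17)]
    fin := [0, 0, 2, 2, 2, 2, 2, 7, 0, 2, 2, 11, 12, 13, 14, 15, 16, 17]
    chd := [(0, 11), (2, 13), (2, 14), (2, 16), (2, 17)]
    steps := [(0, 1), (0, 8), (2, 3), (2, 5), (2, 6), (2, 4), (2, 9), (2, 10)] }
  rep := [2, 7, 12, 14, 16, 15, 0, 11, 13, 17]

noncomputable def v3303 : Cov.CovD where
  P := 3
  N := 7
  pl := [0, 5, 8]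
  lev := [⟨[], [], [(0, 6)], [1], [(1, 6, [7]), (2, 0, [3, 4, 8, 9])]⟩,
    ⟨[], [(0, 0), (0, 6), (0, 7)], [(0, 0), (0, 7)], [1], [(2, 0, [3, 4, 8, 9]), (3, 0, [3,
      4, 8, 9]), (4, 7, [6])]⟩,
    ⟨[(0, 1)], [(0, 0), (1, 0), (1, 7)], [], [2], [(2, 0, [3, 4, 8, 9])]⟩,
    ⟨[(0, 1), (1, 2)], [(1, 0), (1, 3), (1, 7), (1, 8), (2, 0), (2, 3), (2, 8)], [(3, 8)],
      [2], [(6, 8, [0]), (7, 3, [0])]⟩,
    ⟨[(0, 1), (1, 2), (1, 3)], [(1, 0), (1, 7)], [], [5], [(3, 0, [3, 4, 8, 9])]⟩,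
    ⟨[(1, 3), (2, 3)], [(3, 3), (3, 4), (3, 8)], [(3, 4)], [], [(7, 3, [0]), (9, 4, [0])]⟩,
    ⟨[(0, 1), (1, 2), (1, 3), (1, 4), (1, 5), (2, 3), (3, 4), (3, 5), (4, 5)], [(1, 0), (1,
      4), (1, 7), (1, 9), (3, 3), (3, 4), (3, 8), (3, 9), (4, 0), (4, 4), (4, 9), (5, 3), (5,
      4), (5, 9)], [(4, 9)], [5], [(9, 4, [0]), (10, 9, [0])]⟩]
  Ta := [((2, 1), 0, 6), ((2, 5), 0, 2), ((3, 4), 0, 7), ((3, 8), 0, 5)]
  Tb := [((0, 1, 4), 1, 6, 7), ((1, 0, 2), 6, 1, 0), ((2, 1, 5), 0, 6, 2), ((3, 4, 8), 0, 7, 5),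
    ((4, 0, 3), 7, 1, 0), ((5, 2, 6), 2, 0, 8), ((6, 5, 7), 8, 2, 3), ((7, 6, 9), 3, 8, 4),
    ((8, 3, 10), 5, 0, 9), ((9, 7, 10), 4, 3, 9), ((10, 8, 9), 9, 5, 4)]
  Tc := [(0, 3, 4), (0, 3, 8), (0, 3, 9), (0, 4, 8), (0, 4, 9), (0, 8, 9)]
  Td := [((0, 3), (2, 1), 6), ((0, 3), (2, 5), 2), ((0, 3), (3, 4), 7), ((0, 3), (3, 8), 5), ((0,
    4), (2, 1), 6), ((0, 4), (2, 5), 2), ((0, 4), (3, 4), 7), ((0, 4), (3, 8), 5), ((0, 8),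
    (2, 1), 6), ((0, 8), (2, 5), 2), ((0, 8), (3, 4), 7), ((0, 8), (3, 8), 5), ((0, 9), (2,
    1), 6), ((0, 9), (2, 5), 2), ((0, 9), (3, 4), 7), ((0, 9), (3, 8), 5), ((3, 0), (7, 6),
    8), ((3, 0), (7, 9), 4), ((4, 0), (9, 7), 3), ((4, 0), (9, 10), 9), ((6, 7), (1, 0), 1),
    ((6, 7), (1, 2), 0), ((7, 6), (4, 0), 1), ((7, 6), (4, 3), 0), ((8, 0), (6, 5), 2), ((8,
    0), (6, 7), 3), ((9, 0), (10, 8), 5), ((9, 0), (10, 9), 4)]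
  G := [[0x11116111161111ce421111a1111a1111ce846,
    0x1131117a1411912e392b7691168ecfd821131356113139a52111ecac77d48a,
    0x1111c1111a1111ce84111161111611116e48c,
    0x113119a12111eceeb7511318a8c414241131156113412111ecee7bdc8c,
    0x1151117c116119a111e34eecb7b841131556115d11c6116111eeaa7db28c], [0,
    0x1161117c411a119c39a735671828f9c211311561131118e1e31118fee67d48a, 0,
    0x11171156111b119c5c3331af827d41138111b119adc33356fad18129a8cc1,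
    0x124211311176111d2111cf3a5c47ba116119abc5131e6144af3113119a8ac1]]

noncomputable def n3303 : Ent := ⟨e3303, noF, [], [], []⟩

def c3303 : PLift (Cov.check n3303.C.D v3303 = true) := ⟨by decide +kernel⟩

def b3303 : PLift (entF (fidx ts) 400 3303 n3303 = true) := ⟨by decide +kernel⟩

theorem g3303 : GoodF (fidx ts) 400 3303 := GoodF.ofV v3303 n3303 c3303.down b3303.down

/-- 4954544:2515/2 -/
noncomputable def e3304 : SCfg where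
  D := {
    a := 7
    L := 9
    kp := 6
    inn := [(0, 1), (1, 0), (1, 2), (1, 4), (1, 5), (2, 1), (2, 3), (3, 2), (4, 1), (4, 6), (5, 1), (6,
      4)]
    mix := [(0, 0), (0, 1), (0, 2), (1, 0), (1, 2), (1, 3), (1, 4), (1, 5), (2, 2), (2, 3), (2, 6), (3,
      1), (3, 2), (3, 6), (4, 4), (4, 5), (4, 7), (5, 3), (5, 4), (5, 8), (6, 4), (6, 7), (6, 8)]
    cl := [0, 2, 1, 1, 0, 3, 5, 6, 4]
    chq := [(0, 1), (1, 0), (3, 4), (4, 3)]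
    rng := [(0, 1), (0, 5), (1, 0), (1, 2), (1, 6), (2, 1), (3, 6), (3, 8), (4, 8), (5, 0), (5, 7), (6,
      1), (6, 3), (7, 5), (7, 8), (8, 3), (8, 4), (8, 7)]
    lev := [] }
  links := [[1, 7, 8, 9], [7, 0, 9, 2, 10, 5, 11, 4, 12], [10, 1, 9, 3, 13], [13, 2, 9, 8], [12, 1, 11,
    6, 14], [11, 1, 10, 15], [14, 4, 11, 15]]
  P := {
    a := 7
    N := 16
    nb := [898, 7861, 9738, 8964, 22594, 35842, 51216, 4355, 8841, 271, 40998, 32882, 16530, 1292,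
      36944, 19552]
    tri := [(0, 1, 7), (0, 1, 9), (0, 7, 8), (0, 8, 9), (1, 2, 9), (1, 2, 10), (1, 4, 11), (1, 4, 12),
      (1, 5, 10), (1, 5, 11), (1, 7, 12), (2, 3, 9), (2, 3, 13), (2, 10, 13), (3, 8, 9), (3, 8,
      13), (4, 6, 11), (4, 6, 14), (4, 12, 14), (5, 10, 15), (5, 11, 15), (6, 11, 15), (6, 14,
      15)]
    fin := [0, 0, 2, 3, 4, 0, 4, 0, 3, 2, 2, 0, 12, 13, 14, 4]
    chd := [(0, 2), (12, 4)]
    steps := [(0, 1), (0, 5), (0, 7), (0, 11), (2, 9), (2, 10), (3, 8), (4, 6), (4, 15)] }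
  rep := [0, 2, 3, 12, 4, 13, 14]

noncomputable def v3304 : Cov.CovD where
  P := 3
  N := 4
  pl := [1, 6, 7]
  lev := [⟨[], [], [(0, 1)], [2], [(0, 0, [1]), (2, 1, [0])]⟩,
    ⟨[], [(0, 0), (0, 1), (0, 3)], [(0, 0), (0, 1), (0, 3), (1, 1), (1, 3)], [], [(0, 0,
      [1]), (2, 1, [0]), (3, 1, [0]), (4, 0, [1]), (5, 3, [4])]⟩,
    ⟨[(0, 1)], [(0, 1), (1, 0), (1, 1), (1, 3)], [(1, 1)], [5], [(2, 1, [0]), (3, 1, [0])]⟩,
    ⟨[(1, 2)], [(0, 1), (1, 1), (2, 1)], [], [2, 5], [(2, 1, [0])]⟩,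
    ⟨[(0, 1), (1, 2)], [(1, 0), (1, 1), (1, 3)], [(0, 3)], [6], [(4, 0, [1]), (5, 3, [4])]⟩,
    ⟨[(0, 1), (1, 2), (1, 4)], [(1, 0), (1, 1), (1, 3), (1, 4), (2, 1), (4, 0)], [(0, 1),
      (0, 4), (1, 4)], [], [(3, 1, [0]), (4, 0, [1]), (8, 4, [3])]⟩,
    ⟨[(1, 4)], [(1, 0), (4, 0), (4, 3), (4, 4), (5, 0), (5, 4)], [(0, 4)], [6], [(4, 0,
      [1]), (8, 4, [3])]⟩]
  Ta := [((0, 1), 0, 2), ((0, 5), 0, 3), ((2, 1), 1, 2), ((3, 6), 1, 5), ((3, 8), 1, 4), ((4, 8),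
    0, 4)]
  Tb := [((0, 1, 5), 0, 2, 3), ((1, 0, 2), 2, 0, 1), ((1, 0, 6), 2, 0, 5), ((1, 2, 6), 2, 1, 5),
    ((3, 6, 8), 1, 5, 4), ((5, 0, 7), 3, 0, 6), ((6, 1, 3), 5, 2, 1), ((7, 5, 8), 6, 3, 4),
    ((8, 3, 4), 4, 1, 0), ((8, 3, 7), 4, 1, 6), ((8, 4, 7), 4, 0, 6)]
  Tc := []
  Td := [((0, 1), (0, 1), 2), ((0, 1), (0, 5), 3), ((0, 1), (4, 8), 4), ((1, 0), (2, 1), 2), ((1,
    0), (3, 6), 5), ((1, 0), (3, 8), 4), ((3, 4), (5, 0), 0), ((3, 4), (5, 7), 6), ((4, 3),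
    (8, 3), 1), ((4, 3), (8, 4), 0), ((4, 3), (8, 7), 6)]
  G := [[0, 0x22e29143622916c81861d88831ca4, 0x8222532286c144224944623c18c,
    0x12a128e8812251942242344221a158c, 0x2442382262315123221e83228519c8], [0,
    0x6212c12212c16143884ce828548871ca4, 0x12541a525449c1a1186a1186c1c2, 0,
    0x6114a8142161e1512981689888519c2], [0, 0x2292c882a6251a5484c386414a1c68, 0,
    0x6222a46224a15a28868a222619c1, 0x6222a86224a15a28868a228619c1], [0,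
    0x224a65141692c1a984194c21a811ea4, 0, 0, 0x6444c4e86444c4e1588a8c8e888a8c8e19c1]]

noncomputable def n3304 : Ent := ⟨e3304, noF, [], [], []⟩

def c3304 : PLift (Cov.check n3304.C.D v3304 = true) := ⟨by decide +kernel⟩

def b3304 : PLift (entF (fidx ts) 400 3304 n3304 = true) := ⟨by decide +kernel⟩

theorem g3304 : GoodF (fidx ts) 400 3304 := GoodF.ofV v3304 n3304 c3304.down b3304.down

/-- 4954544:2515/1 -/
noncomputable def e3305 : SCfg where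
  D := {
    a := 7
    L := 10
    kp := 7
    inn := [(0, 1), (1, 0), (1, 2), (1, 4), (1, 5), (2, 1), (2, 3), (3, 2), (4, 1), (4, 6), (5, 1), (6,
      4)]
    mix := [(0, 0), (0, 1), (0, 2), (1, 0), (1, 2), (1, 3), (1, 4), (1, 5), (2, 2), (2, 3), (2, 6), (3,
      1), (3, 2), (3, 6), (4, 4), (4, 5), (4, 7), (5, 3), (5, 4), (5, 8), (6, 4), (6, 7), (6, 9)]
    cl := [2, 3, 0, 0, 1, 1, 4, 5, 6, 7]
    chq := [(0, 2), (2, 0), (2, 6), (6, 2)]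
    rng := [(0, 1), (0, 5), (1, 0), (1, 2), (1, 6), (2, 1), (3, 6), (3, 8), (4, 8), (4, 9), (5, 0), (5,
      7), (6, 1), (6, 3), (7, 5), (7, 9), (8, 3), (8, 4), (9, 4), (9, 7)]
    lev := [] }
  links := [[1, 7, 8, 9], [7, 0, 9, 2, 10, 5, 11, 4, 12], [10, 1, 9, 3, 13], [13, 2, 9, 8], [12, 1, 11,
    6, 14], [11, 1, 10, 15], [14, 4, 11, 16]]
  P := {
    a := 7
    N := 17
    nb := [898, 7861, 9738, 8964, 22594, 35842, 83984, 4355, 8841, 271, 40998, 98418, 16530, 1292,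
      69712, 3104, 18496]
    tri := [(0, 1, 7), (0, 1, 9), (0, 7, 8), (0, 8, 9), (1, 2, 9), (1, 2, 10), (1, 4, 11), (1, 4, 12),
      (1, 5, 10), (1, 5, 11), (1, 7, 12), (2, 3, 9), (2, 3, 13), (2, 10, 13), (3, 8, 9), (3, 8,
      13), (4, 6, 11), (4, 6, 14), (4, 12, 14), (5, 10, 15), (5, 11, 15), (6, 11, 16), (6, 14,
      16)]
    fin := [0, 0, 2, 3, 4, 0, 4, 0, 3, 2, 2, 4, 4, 13, 14, 15, 16]
    chd := [(0, 2), (0, 15)]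
    steps := [(0, 1), (0, 5), (0, 7), (2, 9), (2, 10), (3, 8), (4, 6), (4, 11), (4, 12)] }
  rep := [2, 4, 0, 3, 13, 14, 15, 16]

noncomputable def v3305 : Cov.CovD where
  P := 3
  N := 5
  pl := [1, 6, 7, 9]
  lev := [⟨[], [], [(0, 2)], [3], [(0, 2, [0, 6]), (2, 0, [2])]⟩,
    ⟨[], [(0, 0), (0, 1), (0, 2)], [(0, 0), (0, 1), (0, 2), (1, 1), (1, 2)], [], [(0, 2,
      [0, 6]), (2, 0, [2]), (3, 0, [2]), (4, 1, []), (5, 1, [])]⟩,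
    ⟨[(0, 1)], [(0, 0), (1, 0), (1, 1), (1, 2)], [(0, 0)], [4], [(2, 0, [2]), (3, 0, [2])]⟩,
    ⟨[(1, 2)], [(0, 0), (1, 0), (2, 0)], [], [3, 4], [(2, 0, [2])]⟩,
    ⟨[(0, 1), (1, 2)], [(1, 0), (1, 1), (1, 2)], [(1, 1)], [5], [(4, 1, []), (5, 1, [])]⟩,
    ⟨[(0, 1), (1, 2), (1, 4)], [(1, 0), (1, 1), (1, 2), (1, 6), (2, 0), (4, 1)], [(0, 1),
      (0, 6), (1, 6)], [], [(3, 0, [2]), (4, 1, []), (8, 6, [2])]⟩,
    ⟨[(1, 4)], [(1, 1), (4, 1), (5, 1)], [], [5, 7], [(4, 1, [])]⟩]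
  Ta := [((2, 1), 0, 3), ((3, 6), 0, 4), ((3, 8), 0, 6), ((4, 8), 1, 6), ((4, 9), 1, 7), ((5, 0),
    1, 2), ((5, 7), 1, 5)]
  Tb := [((0, 1, 5), 2, 3, 1), ((1, 0, 2), 3, 2, 0), ((1, 0, 6), 3, 2, 4), ((1, 2, 6), 3, 0, 4),
    ((3, 6, 8), 0, 4, 6), ((4, 8, 9), 1, 6, 7), ((5, 0, 7), 1, 2, 5), ((6, 1, 3), 4, 3, 0),
    ((7, 5, 9), 5, 1, 7), ((8, 3, 4), 6, 0, 1), ((9, 4, 7), 7, 1, 5)]
  Tc := [(2, 0, 6)]
  Td := [((0, 2), (2, 1), 3), ((0, 2), (3, 6), 4), ((0, 2), (3, 8), 6), ((2, 0), (0, 1), 3), ((2,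
    0), (0, 5), 1), ((2, 6), (0, 1), 3), ((2, 6), (0, 5), 1), ((6, 2), (8, 3), 0), ((6, 2),
    (8, 4), 1)]
  G := [[0, 0xc262a8c262a2a4c2a264c2a26268c, 0xc1915148c1915128c1519184e, 0,
    0xc4945c4945cc1915868c19454c1945268a], [0, 0x9232a8925262a41262c4c2126268c,
    0x21519124c2215188c2219144e, 0x2121582121526821215421215268c,
    0xc4245c1215cc2245868c4245471219268a], [0, 0xc2a264c2a2626c262a88c1,
    0xc1915148c1519124c1519184e, 0, 0xc4945c4945cc4945c4945a681], [0,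
    0x5232643252a26c212a88c1, 0x9221c124c1519184c2215148e, 0xc2529c2529cc222c92a41,
    0x2452c24945c2452934a49a681]]

noncomputable def n3305 : Ent := ⟨e3305, noF, [], [], [(15, 16, [1580044410770988437309982408355971841652082177953823432505702645761, 0])]⟩

def c3305 : PLift (Cov.check n3305.C.D v3305 = true) := ⟨by decide +kernel⟩

def b3305 : PLift (entF (fidx ts) 400 3305 n3305 = true) := ⟨by decide +kernel⟩

theorem g3305 : GoodF (fidx ts) 400 3305 := GoodF.ofV v3305 n3305 c3305.down b3305.down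

/-- 4954544:2515/3 -/
noncomputable def e3306 : SCfg where
  D := {
    a := 7
    L := 10
    kp := 7
    inn := [(0, 1), (1, 0), (1, 2), (1, 4), (1, 5), (2, 1), (2, 3), (3, 2), (4, 1), (4, 6), (5, 1), (6,
      4)]
    mix := [(0, 0), (0, 1), (0, 2), (1, 0), (1, 2), (1, 3), (1, 4), (1, 5), (2, 2), (2, 3), (2, 6), (3,
      2), (3, 6), (3, 7), (4, 4), (4, 5), (4, 8), (5, 3), (5, 4), (5, 9), (6, 4), (6, 8), (6, 9)]
    cl := [0, 6, 1, 1, 0, 2, 4, 7, 5, 3]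
    chq := [(0, 1), (1, 0), (2, 3), (3, 2)]
    rng := [(0, 1), (0, 5), (1, 0), (1, 2), (2, 1), (2, 7), (3, 6), (3, 9), (4, 9), (5, 0), (5, 8), (6,
      3), (6, 7), (7, 2), (7, 6), (8, 5), (8, 9), (9, 3), (9, 4), (9, 8)]
    lev := [] }
  links := [[1, 7, 8, 9], [7, 0, 9, 2, 10, 5, 11, 4, 12], [10, 1, 9, 3, 13], [13, 2, 9, 14], [12, 1, 11,
    6, 15], [11, 1, 10, 16], [15, 4, 11, 16]]
  P := {
    a := 7
    N := 17
    nb := [898, 7861, 9738, 25092, 38978, 68610, 100368, 4355, 641, 16655, 73766, 65650, 32914, 17420,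
      8712, 69712, 35936]
    tri := [(0, 1, 7), (0, 1, 9), (0, 7, 8), (0, 8, 9), (1, 2, 9), (1, 2, 10), (1, 4, 11), (1, 4, 12),
      (1, 5, 10), (1, 5, 11), (1, 7, 12), (2, 3, 9), (2, 3, 13), (2, 10, 13), (3, 9, 14), (3, 13,
      14), (4, 6, 11), (4, 6, 15), (4, 12, 15), (5, 10, 16), (5, 11, 16), (6, 11, 16), (6, 15,
      16)]
    fin := [0, 0, 2, 2, 4, 0, 4, 0, 8, 2, 2, 0, 12, 13, 14, 15, 4]
    chd := [(0, 2), (12, 4)]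
    steps := [(0, 1), (0, 5), (0, 7), (0, 11), (2, 3), (2, 9), (2, 10), (4, 6), (4, 16)] }
  rep := [0, 2, 12, 4, 13, 15, 8, 14]

noncomputable def v3306 : Cov.CovD where
  P := 3
  N := 5
  pl := [1, 6, 7, 8]
  lev := [⟨[], [], [(0, 1)], [6], [(0, 0, [1]), (2, 1, [0])]⟩,
    ⟨[], [(0, 0), (0, 1), (0, 2)], [(0, 0), (0, 1), (0, 2), (1, 1), (1, 2)], [], [(0, 0,
      [1]), (2, 1, [0]), (3, 1, [0]), (4, 0, [1]), (5, 2, [3])]⟩,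
    ⟨[(0, 1)], [(0, 1), (1, 0), (1, 1), (1, 2)], [(1, 1)], [4], [(2, 1, [0]), (3, 1, [0])]⟩,
    ⟨[(1, 2)], [(0, 1), (1, 1), (2, 1)], [], [4, 7], [(2, 1, [0])]⟩,
    ⟨[(0, 1), (1, 2)], [(1, 0), (1, 1), (1, 2)], [(0, 2)], [5], [(4, 0, [1]), (5, 2, [3])]⟩,
    ⟨[(0, 1), (1, 2), (1, 4)], [(1, 0), (1, 1), (1, 2), (1, 3), (2, 1), (4, 0)], [(0, 1),
      (0, 3), (1, 3)], [], [(3, 1, [0]), (4, 0, [1]), (9, 3, [2])]⟩,
    ⟨[(1, 4)], [(1, 0), (4, 0), (4, 2), (4, 3), (5, 0), (5, 3)], [(0, 3)], [5], [(4, 0,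
      [1]), (9, 3, [2])]⟩]
  Ta := [((0, 1), 0, 6), ((0, 5), 0, 2), ((2, 1), 1, 6), ((2, 7), 1, 7), ((3, 6), 1, 4), ((3, 9),
    1, 3), ((4, 9), 0, 3)]
  Tb := [((0, 1, 5), 0, 6, 2), ((1, 0, 2), 6, 0, 1), ((2, 1, 7), 1, 6, 7), ((3, 6, 9), 1, 4, 3),
    ((5, 0, 8), 2, 0, 5), ((6, 3, 7), 4, 1, 7), ((7, 2, 6), 7, 1, 4), ((8, 5, 9), 5, 2, 3),
    ((9, 3, 4), 3, 1, 0), ((9, 3, 8), 3, 1, 5), ((9, 4, 8), 3, 0, 5)]
  Tc := []
  Td := [((0, 1), (0, 1), 6), ((0, 1), (0, 5), 2), ((0, 1), (4, 9), 3), ((1, 0), (2, 1), 6), ((1,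
    0), (2, 7), 7), ((1, 0), (3, 6), 4), ((1, 0), (3, 9), 3), ((2, 3), (5, 0), 0), ((2, 3),
    (5, 8), 5), ((3, 2), (9, 3), 1), ((3, 2), (9, 4), 0), ((3, 2), (9, 8), 5)]
  G := [[0, 0x7224a91a212c16484c22c91b2a251a4a, 0x12216412216151212688c12216441221a81221a19cc,
    0x32225461a25152212c88c3222941222c15c122988cc,
    0x2142322423c22423224239581424a24423c2242342249958c], [0, 0x426a25128a26291847212c148e,
    0x149a164c1a1615c112ca88c2, 0x2114cc44e121c886921c19c2, 0x1441a4114ac1441a1441a9582], [0,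
    0xc2226514872629124a212c184e, 0, 0x62a2c4462a2c8e222c19c1, 0x4222a4224ac4222a4224a9581],
    [0, 0x426a251281262c14882a12c184e, 0, 0x2842444c644424a4cc9582c28c28898882cc1,
    0x64884cce4488e4ec4488e4e2581]]

noncomputable def n3306 : Ent := ⟨e3306, noF, [], [], [(8, 14, [1685382413448253767852309107433119732572617628602273068445378445313, 0])]⟩

def c3306 : PLift (Cov.check n3306.C.D v3306 = true) := ⟨by decide +kernel⟩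

def b3306 : PLift (entF (fidx ts) 400 3306 n3306 = true) := ⟨by decide +kernel⟩

theorem g3306 : GoodF (fidx ts) 400 3306 := GoodF.ofV v3306 n3306 c3306.down b3306.down

/-- 4954544:2515 -/
noncomputable def e3307 : SCfg where
  D := {
    a := 7
    L := 11
    kp := 8
    inn := [(0, 1), (1, 0), (1, 2), (1, 4), (1, 5), (2, 1), (2, 3), (3, 2), (4, 1), (4, 6), (5, 1), (6,
      4)]
    mix := [(0, 0), (0, 1), (0, 2), (1, 0), (1, 2), (1, 3), (1, 4), (1, 5), (2, 2), (2, 3), (2, 6), (3,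
      2), (3, 6), (3, 7), (4, 4), (4, 5), (4, 8), (5, 3), (5, 4), (5, 9), (6, 4), (6, 8), (6, 10)]
    cl := [2, 6, 0, 0, 1, 1, 3, 7, 4, 5, 8]
    chq := [(0, 2), (2, 0), (2, 5), (5, 2)]
    rng := [(0, 1), (0, 5), (1, 0), (1, 2), (2, 1), (2, 7), (3, 6), (3, 9), (4, 9), (4, 10), (5, 0),
      (5, 8), (6, 3), (6, 7), (7, 2), (7, 6), (8, 5), (8, 10), (9, 3), (9, 4), (10, 4), (10, 8)]
    lev := [] }
  links := [[1, 7, 8, 9], [7, 0, 9, 2, 10, 5, 11, 4, 12], [10, 1, 9, 3, 13], [13, 2, 9, 14], [12, 1, 11,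
    6, 15], [11, 1, 10, 16], [15, 4, 11, 17]]
  P := {
    a := 7
    N := 18
    nb := [898, 7861, 9738, 25092, 38978, 68610, 165904, 4355, 641, 16655, 73766, 196722, 32914,
      17420, 8712, 135248, 3104, 34880]
    tri := [(0, 1, 7), (0, 1, 9), (0, 7, 8), (0, 8, 9), (1, 2, 9), (1, 2, 10), (1, 4, 11), (1, 4, 12),
      (1, 5, 10), (1, 5, 11), (1, 7, 12), (2, 3, 9), (2, 3, 13), (2, 10, 13), (3, 9, 14), (3, 13,
      14), (4, 6, 11), (4, 6, 15), (4, 12, 15), (5, 10, 16), (5, 11, 16), (6, 11, 17), (6, 15,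
      17)]
    fin := [0, 0, 2, 2, 4, 0, 4, 0, 8, 2, 2, 4, 4, 13, 14, 15, 16, 17]
    chd := [(0, 2), (0, 16)]
    steps := [(0, 1), (0, 5), (0, 7), (2, 3), (2, 9), (2, 10), (4, 6), (4, 11), (4, 12)] }
  rep := [2, 4, 0, 13, 15, 16, 8, 14, 17]

noncomputable def v3307 : Cov.CovD where
  P := 3
  N := 6
  pl := [1, 6, 7, 8, 10]
  lev := [⟨[], [], [(0, 2)], [6], [(0, 2, [0, 5]), (2, 0, [2])]⟩,
    ⟨[], [(0, 0), (0, 1), (0, 2)], [(0, 0), (0, 1), (0, 2), (1, 1), (1, 2)], [], [(0, 2,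
      [0, 5]), (2, 0, [2]), (3, 0, [2]), (4, 1, []), (5, 1, [])]⟩,
    ⟨[(0, 1)], [(0, 0), (1, 0), (1, 1), (1, 2)], [(0, 0)], [3], [(2, 0, [2]), (3, 0, [2])]⟩,
    ⟨[(1, 2)], [(0, 0), (1, 0), (2, 0)], [], [3, 7], [(2, 0, [2])]⟩,
    ⟨[(0, 1), (1, 2)], [(1, 0), (1, 1), (1, 2)], [(1, 1)], [4], [(4, 1, []), (5, 1, [])]⟩,
    ⟨[(0, 1), (1, 2), (1, 4)], [(1, 0), (1, 1), (1, 2), (1, 5), (2, 0), (4, 1)], [(0, 1),
      (0, 5), (1, 5)], [], [(3, 0, [2]), (4, 1, []), (9, 5, [2])]⟩,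
    ⟨[(1, 4)], [(1, 1), (4, 1), (5, 1)], [], [4, 8], [(4, 1, [])]⟩]
  Ta := [((2, 1), 0, 6), ((2, 7), 0, 7), ((3, 6), 0, 3), ((3, 9), 0, 5), ((4, 9), 1, 5), ((4,
    10), 1, 8), ((5, 0), 1, 2), ((5, 8), 1, 4)]
  Tb := [((0, 1, 5), 2, 6, 1), ((1, 0, 2), 6, 2, 0), ((2, 1, 7), 0, 6, 7), ((3, 6, 9), 0, 3, 5),
    ((4, 9, 10), 1, 5, 8), ((5, 0, 8), 1, 2, 4), ((6, 3, 7), 3, 0, 7), ((7, 2, 6), 7, 0, 3),
    ((8, 5, 10), 4, 1, 8), ((9, 3, 4), 5, 0, 1), ((10, 4, 8), 8, 1, 4)]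
  Tc := [(2, 0, 5)]
  Td := [((0, 2), (2, 1), 6), ((0, 2), (2, 7), 7), ((0, 2), (3, 6), 3), ((0, 2), (3, 9), 5), ((2,
    0), (0, 1), 6), ((2, 0), (0, 5), 1), ((2, 5), (0, 1), 6), ((2, 5), (0, 5), 1), ((5, 2),
    (9, 3), 0), ((5, 2), (9, 4), 1)]
  G := [[0, 0xc2a264c2a2626c262a88cc2a264c2a2626c262a88cc, 0xc1519184c1519124c1519144e, 0,
    0xc4915c1915cc1945c1945a68c1915c1915cc4915c1915a68a], [0,
    0x12d2644c212a8a212c2acc2126492326261262a88cc, 0xc221914421b1912421925184e,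
    0x2121544212158212152ac2121942121c262121988cc,
    0xc2245c1215c2492521945a682154c24925c21b197424ca68a], [0, 0xc2a2644c262a8c262a2ac1,
    0xc15191c15191a4d141d1116d1818ca, 0, 0xc4945c4945cc4945c4945a681], [0,
    0x12a2644b21268c212a2ac1, 0x219251482151c128c2215188e, 0xc29254422c5298c25292ac1,
    0x2494564a45c247453464ca681]]

noncomputable def n3307 : Ent := ⟨e3307, noF, [], [], [(8, 14, [7334790875878422277917280412776772662961875900559637987928627383013377, 0]), (16, 17, [6903326391201334775872065844685381424292761054348340378595029943230465, 0])]⟩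

def c3307 : PLift (Cov.check n3307.C.D v3307 = true) := ⟨by decide +kernel⟩

def b3307 : PLift (entF (fidx ts) 400 3307 n3307 = true) := ⟨by decide +kernel⟩

theorem g3307 : GoodF (fidx ts) 400 3307 := GoodF.ofV v3307 n3307 c3307.down b3307.down

/-- 4954544:2516/1 -/
noncomputable def e3308 : SCfg where
  D := {
    a := 7
    L := 10
    kp := 7
    inn := [(0, 1), (1, 0), (1, 2), (1, 4), (1, 5), (2, 1), (2, 3), (3, 2), (4, 1), (4, 6), (5, 1), (6,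
      4)]
    mix := [(0, 0), (0, 1), (0, 2), (1, 0), (1, 2), (1, 3), (1, 4), (1, 5), (2, 2), (2, 3), (2, 6), (3,
      1), (3, 2), (3, 6), (4, 4), (4, 5), (4, 7), (5, 3), (5, 4), (5, 8), (6, 5), (6, 7), (6, 9)]
    cl := [1, 2, 0, 0, 3, 0, 4, 5, 7, 6]
    chq := [(0, 3), (3, 0), (3, 6), (6, 3)]
    rng := [(0, 1), (0, 5), (1, 0), (1, 2), (1, 6), (2, 1), (3, 6), (3, 8), (4, 7), (4, 8), (5, 0), (5,
      9), (6, 1), (6, 3), (7, 4), (7, 9), (8, 3), (8, 4), (9, 5), (9, 7)]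
    lev := [] }
  links := [[1, 7, 8, 9], [7, 0, 9, 2, 10, 5, 11, 4, 12], [10, 1, 9, 3, 13], [13, 2, 9, 8], [12, 1, 11,
    14, 6], [11, 1, 10, 15], [12, 4, 14, 16]]
  P := {
    a := 7
    N := 17
    nb := [898, 7861, 9738, 8964, 22594, 35842, 86032, 4355, 8841, 271, 40998, 49202, 65746, 1292,
      67664, 3104, 20544]
    tri := [(0, 1, 7), (0, 1, 9), (0, 7, 8), (0, 8, 9), (1, 2, 9), (1, 2, 10), (1, 4, 11), (1, 4, 12),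
      (1, 5, 10), (1, 5, 11), (1, 7, 12), (2, 3, 9), (2, 3, 13), (2, 10, 13), (3, 8, 9), (3, 8,
      13), (4, 6, 12), (4, 6, 14), (4, 11, 14), (5, 10, 15), (5, 11, 15), (6, 12, 16), (6, 14,
      16)]
    fin := [0, 1, 2, 2, 4, 1, 4, 0, 2, 1, 1, 4, 1, 13, 14, 15, 16]
    chd := [(1, 4), (4, 16)]
    steps := [(0, 7), (1, 5), (1, 9), (1, 10), (1, 12), (2, 3), (2, 8), (4, 6), (4, 11)] }
  rep := [1, 0, 2, 4, 13, 14, 16, 15]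

noncomputable def v3308 : Cov.CovD where
  P := 3
  N := 5
  pl := [0, 1, 6, 7, 8]
  lev := [⟨[], [], [], [1, 2], [(2, 0, [3])]⟩,
    ⟨[], [(0, 0), (0, 3)], [(0, 0), (0, 3)], [1], [(2, 0, [3]), (3, 0, [3]), (4, 3, [0,
      6]), (5, 0, [3])]⟩,
    ⟨[(0, 1)], [(0, 0), (1, 0), (1, 3)], [(0, 0)], [4], [(2, 0, [3]), (3, 0, [3])]⟩,
    ⟨[(1, 2)], [(0, 0), (1, 0), (2, 0)], [], [2, 4], [(2, 0, [3])]⟩,
    ⟨[(0, 1), (1, 2)], [(1, 0), (1, 3)], [(0, 3)], [5], [(4, 3, [0, 6]), (5, 0, [3])]⟩,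
    ⟨[(0, 1), (1, 2), (1, 4)], [(1, 0), (1, 3), (2, 0), (4, 3)], [(0, 3)], [7], [(3, 0,
      [3]), (4, 3, [0, 6])]⟩,
    ⟨[(1, 4)], [(1, 0), (4, 0), (4, 3), (4, 6)], [(0, 6)], [5], [(5, 0, [3]), (9, 6, [3])]⟩]
  Ta := [((2, 1), 0, 2), ((3, 6), 0, 4), ((3, 8), 0, 7), ((5, 0), 0, 1), ((5, 9), 0, 6)]
  Tb := [((0, 1, 5), 1, 2, 0), ((1, 0, 2), 2, 1, 0), ((1, 0, 6), 2, 1, 4), ((1, 2, 6), 2, 0, 4),
    ((3, 6, 8), 0, 4, 7), ((4, 7, 8), 3, 5, 7), ((5, 0, 9), 0, 1, 6), ((6, 1, 3), 4, 2, 0),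
    ((7, 4, 9), 5, 3, 6), ((8, 3, 4), 7, 0, 3), ((9, 5, 7), 6, 0, 5)]
  Tc := [(3, 0, 6)]
  Td := [((0, 3), (2, 1), 2), ((0, 3), (3, 6), 4), ((0, 3), (3, 8), 7), ((0, 3), (5, 0), 1), ((0,
    3), (5, 9), 6), ((3, 0), (4, 7), 5), ((3, 0), (4, 8), 7), ((3, 6), (4, 7), 5), ((3, 6),
    (4, 8), 7), ((6, 3), (9, 5), 0), ((6, 3), (9, 7), 5)]
  G := [[0, 0, 0x61c19461e192661a138918132ac4, 0x1a3116193a15148d245111aa41119ac28c,
    0x145e1385161326181b381d811ab11662ac8], [0, 0, 0,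
    0x28a816aec732c82816e4f924245844ab522525868bd28c,
    0x2811a886e4f832c82816e4f2a424651a48b84251a68b2689], [0, 0x61a1c861a1c1a61c1a161c1a4c68,
    0, 0x81aa11c9e1246164c1e128c, 0x165c1a81651c3a261a31c9681a9c162ac1]]

noncomputable def n3308 : Ent := ⟨e3308, noF, [], [], []⟩

def c3308 : PLift (Cov.check n3308.C.D v3308 = true) := ⟨by decide +kernel⟩

def b3308 : PLift (entF (fidx ts) 400 3308 n3308 = true) := ⟨by decide +kernel⟩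

theorem g3308 : GoodF (fidx ts) 400 3308 := GoodF.ofV v3308 n3308 c3308.down b3308.down

/-- 4954544:2516 -/
noncomputable def e3309 : SCfg where
  D := {
    a := 7
    L := 11
    kp := 8
    inn := [(0, 1), (1, 0), (1, 2), (1, 4), (1, 5), (2, 1), (2, 3), (3, 2), (4, 1), (4, 6), (5, 1), (6,
      4)]
    mix := [(0, 0), (0, 1), (0, 2), (1, 0), (1, 2), (1, 3), (1, 4), (1, 5), (2, 2), (2, 3), (2, 6), (3,
      2), (3, 6), (3, 7), (4, 4), (4, 5), (4, 8), (5, 3), (5, 4), (5, 9), (6, 5), (6, 8), (6, 10)]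
    cl := [2, 6, 0, 0, 1, 0, 3, 7, 4, 8, 5]
    chq := [(0, 1), (1, 0), (1, 5), (5, 1)]
    rng := [(0, 1), (0, 5), (1, 0), (1, 2), (2, 1), (2, 7), (3, 6), (3, 9), (4, 8), (4, 9), (5, 0), (5,
      10), (6, 3), (6, 7), (7, 2), (7, 6), (8, 4), (8, 10), (9, 3), (9, 4), (10, 5), (10, 8)]
    lev := [] }
  links := [[1, 7, 8, 9], [7, 0, 9, 2, 10, 5, 11, 4, 12], [10, 1, 9, 3, 13], [13, 2, 9, 14], [12, 1, 11,
    15, 6], [11, 1, 10, 16], [12, 4, 15, 17]]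
  P := {
    a := 7
    N := 18
    nb := [898, 7861, 9738, 25092, 38978, 68610, 167952, 4355, 641, 16655, 73766, 98354, 131282,
      17420, 8712, 133200, 3104, 36928]
    tri := [(0, 1, 7), (0, 1, 9), (0, 7, 8), (0, 8, 9), (1, 2, 9), (1, 2, 10), (1, 4, 11), (1, 4, 12),
      (1, 5, 10), (1, 5, 11), (1, 7, 12), (2, 3, 9), (2, 3, 13), (2, 10, 13), (3, 9, 14), (3, 13,
      14), (4, 6, 12), (4, 6, 15), (4, 11, 15), (5, 10, 16), (5, 11, 16), (6, 12, 17), (6, 15,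
      17)]
    fin := [0, 1, 1, 1, 4, 1, 4, 0, 8, 1, 1, 4, 1, 13, 14, 15, 16, 17]
    chd := [(1, 4), (4, 17)]
    steps := [(0, 7), (1, 2), (1, 3), (1, 5), (1, 9), (1, 10), (1, 12), (4, 6), (4, 11)] }
  rep := [1, 4, 0, 13, 15, 17, 8, 14, 16]

noncomputable def v3309 : Cov.CovD where
  P := 3
  N := 6
  pl := [0, 1, 6, 7, 8, 9]
  lev := [⟨[], [], [], [2, 6], [(2, 0, [1])]⟩,
    ⟨[], [(0, 0), (0, 1)], [(0, 0), (0, 1)], [2], [(2, 0, [1]), (3, 0, [1]), (4, 1, [0,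
      5]), (5, 0, [1])]⟩,
    ⟨[(0, 1)], [(0, 0), (1, 0), (1, 1)], [(0, 0)], [3], [(2, 0, [1]), (3, 0, [1])]⟩,
    ⟨[(1, 2)], [(0, 0), (1, 0), (2, 0)], [], [3, 7], [(2, 0, [1])]⟩,
    ⟨[(0, 1), (1, 2)], [(1, 0), (1, 1)], [(0, 1)], [4], [(4, 1, [0, 5]), (5, 0, [1])]⟩,
    ⟨[(0, 1), (1, 2), (1, 4)], [(1, 0), (1, 1), (2, 0), (4, 1)], [(0, 1)], [8], [(3, 0,
      [1]), (4, 1, [0, 5])]⟩,
    ⟨[(1, 4)], [(1, 0), (4, 0), (4, 1), (4, 5)], [(0, 5)], [4], [(5, 0, [1]), (10, 5,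
      [1])]⟩]
  Ta := [((2, 1), 0, 6), ((2, 7), 0, 7), ((3, 6), 0, 3), ((3, 9), 0, 8), ((5, 0), 0, 2), ((5,
    10), 0, 5)]
  Tb := [((0, 1, 5), 2, 6, 0), ((1, 0, 2), 6, 2, 0), ((2, 1, 7), 0, 6, 7), ((3, 6, 9), 0, 3, 8),
    ((4, 8, 9), 1, 4, 8), ((5, 0, 10), 0, 2, 5), ((6, 3, 7), 3, 0, 7), ((7, 2, 6), 7, 0, 3),
    ((8, 4, 10), 4, 1, 5), ((9, 3, 4), 8, 0, 1), ((10, 5, 8), 5, 0, 4)]
  Tc := [(1, 0, 5)]
  Td := [((0, 1), (2, 1), 6), ((0, 1), (2, 7), 7), ((0, 1), (3, 6), 3), ((0, 1), (3, 9), 8), ((0,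
    1), (5, 0), 2), ((0, 1), (5, 10), 5), ((1, 0), (4, 8), 4), ((1, 0), (4, 9), 8), ((1, 5),
    (4, 8), 4), ((1, 5), (4, 9), 8), ((5, 1), (10, 5), 0), ((5, 1), (10, 8), 4)]
  G := [[0, 0x141218e44141218e8181214e2ac1, 0, 0x31215441121c81121c2ac2111c44c12198312192acc,
    0x3121531215c3121531215a682111cc1215c2111c31219a68a], [0, 0x121418e44141218e8141812e2ac1,
    0, 0xc3c22c54433c22c98c3c22c92ac1, 0x26ceac51432c28dc24c1c28d3cc22c5a681], [0,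
    0x141218e4411c11ca811c11ca2ac1, 0xe121c18421e1c14821e1c128e, 0x21e1c44e121c861a1c2ac1,
    0x21e1c21e1cc21e1c61a1ca681]]

noncomputable def n3309 : Ent := ⟨e3309, noF, [], [], [(8, 14, [7334790875878422277917280412776772662961875900559637987928627383025665, 0])]⟩

def c3309 : PLift (Cov.check n3309.C.D v3309 = true) := ⟨by decide +kernel⟩

def b3309 : PLift (entF (fidx ts) 400 3309 n3309 = true) := ⟨by decide +kernel⟩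

theorem g3309 : GoodF (fidx ts) 400 3309 := GoodF.ofV v3309 n3309 c3309.down b3309.down

/-- 4954454:2517/2 -/
noncomputable def e3310 : SCfg where
  D := {
    a := 7
    L := 9
    kp := 6
    inn := [(0, 1), (1, 0), (1, 2), (1, 4), (1, 5), (2, 1), (2, 3), (3, 2), (4, 1), (5, 1), (5, 6), (6,
      5)]
    mix := [(0, 0), (0, 1), (0, 2), (1, 0), (1, 2), (1, 3), (1, 4), (1, 5), (2, 2), (2, 3), (2, 6), (3,
      1), (3, 2), (3, 6), (4, 4), (4, 5), (4, 7), (5, 3), (5, 4), (5, 8), (6, 3), (6, 6), (6, 8)]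
    cl := [1, 2, 0, 0, 0, 4, 3, 6, 5]
    chq := [(0, 1), (1, 0), (1, 6), (6, 1)]
    rng := [(0, 1), (0, 5), (1, 0), (1, 2), (1, 6), (2, 1), (3, 6), (4, 7), (4, 8), (5, 0), (5, 7), (6,
      1), (6, 3), (6, 8), (7, 4), (7, 5), (8, 4), (8, 6)]
    lev := [] }
  links := [[1, 7, 8, 9], [7, 0, 9, 2, 10, 5, 11, 4, 12], [10, 1, 9, 3, 13], [13, 2, 9, 8], [12, 1, 11,
    14], [11, 1, 10, 6, 15], [15, 5, 10, 13]]
  P := {
    a := 7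
    N := 16
    nb := [898, 7861, 9738, 8964, 22530, 35906, 42016, 4355, 8841, 271, 8294, 49202, 16530, 34124,
      6160, 10336]
    tri := [(0, 1, 7), (0, 1, 9), (0, 7, 8), (0, 8, 9), (1, 2, 9), (1, 2, 10), (1, 4, 11), (1, 4, 12),
      (1, 5, 10), (1, 5, 11), (1, 7, 12), (2, 3, 9), (2, 3, 13), (2, 10, 13), (3, 8, 9), (3, 8,
      13), (4, 11, 14), (4, 12, 14), (5, 6, 10), (5, 6, 15), (5, 11, 15), (6, 10, 13), (6, 13,
      15)]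
    fin := [0, 0, 2, 3, 0, 2, 2, 0, 3, 2, 2, 2, 12, 13, 14, 15]
    chd := [(0, 2), (0, 14)]
    steps := [(0, 1), (0, 4), (0, 7), (2, 9), (2, 10), (2, 5), (2, 6), (2, 11), (3, 8)] }
  rep := [2, 0, 3, 13, 12, 15, 14]

noncomputable def v3310 : Cov.CovD where
  P := 3
  N := 4
  pl := [1, 5, 6, 8]
  lev := [⟨[], [], [(0, 1)], [2], [(0, 1, [0, 6]), (2, 0, [1])]⟩,
    ⟨[], [(0, 0), (0, 1)], [(0, 0), (0, 1)], [4], [(0, 1, [0, 6]), (2, 0, [1]), (3, 0,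
      [1]), (4, 0, [1])]⟩,
    ⟨[(0, 1)], [(0, 0), (1, 0), (1, 1)], [(0, 0)], [3], [(2, 0, [1]), (3, 0, [1])]⟩,
    ⟨[(1, 2)], [(0, 0), (1, 0), (2, 0)], [], [2, 3], [(2, 0, [1])]⟩,
    ⟨[(0, 1), (1, 2)], [(1, 0), (1, 1), (1, 6)], [(0, 6)], [4], [(4, 0, [1]), (7, 6, [1])]⟩,
    ⟨[(0, 1), (1, 2), (1, 4)], [(1, 0), (1, 1), (2, 0), (4, 0)], [(0, 0)], [5], [(3, 0,
      [1]), (4, 0, [1])]⟩,
    ⟨[(1, 5)], [(1, 0), (2, 0), (5, 0)], [], [3, 5], [(3, 0, [1])]⟩]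
  Ta := [((2, 1), 0, 2), ((3, 6), 0, 3), ((4, 7), 0, 6), ((4, 8), 0, 5)]
  Tb := [((0, 1, 5), 1, 2, 4), ((1, 0, 2), 2, 1, 0), ((1, 0, 6), 2, 1, 3), ((1, 2, 6), 2, 0, 3),
    ((4, 7, 8), 0, 6, 5), ((5, 0, 7), 4, 1, 6), ((6, 1, 3), 3, 2, 0), ((6, 1, 8), 3, 2, 5),
    ((6, 3, 8), 3, 0, 5), ((7, 4, 5), 6, 0, 4), ((8, 4, 6), 5, 0, 3)]
  Tc := [(1, 0, 6)]
  Td := [((0, 1), (2, 1), 2), ((0, 1), (3, 6), 3), ((0, 1), (4, 7), 6), ((0, 1), (4, 8), 5), ((1,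
    0), (0, 1), 2), ((1, 0), (0, 5), 4), ((1, 6), (0, 1), 2), ((1, 6), (0, 5), 4), ((6, 1),
    (7, 4), 0), ((6, 1), (7, 5), 4)]
  G := [[0, 0x41a11411a112116188e4, 0x416281161268161812c22ac8, 0x81624162c2126211c2c2c8,
    0x4161812612611c2842a22ac8], [0, 0x1214141161211811c112e8, 0, 0x82614262c282a242a292c4,
    0x48618c2612684a2842a22ac8], [0, 0x11611411a11811c112e8, 0, 0x126212126212c8,
    0x41621481c81a81ae812a12661ac12634a2289]]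

noncomputable def n3310 : Ent := ⟨e3310, noF, [], [], []⟩

def c3310 : PLift (Cov.check n3310.C.D v3310 = true) := ⟨by decide +kernel⟩

def b3310 : PLift (entF (fidx ts) 400 3310 n3310 = true) := ⟨by decide +kernel⟩

theorem g3310 : GoodF (fidx ts) 400 3310 := GoodF.ofV v3310 n3310 c3310.down b3310.down

/-- 4954454:2517/1 -/
noncomputable def e3311 : SCfg where
  D := {
    a := 7
    L := 10
    kp := 7
    inn := [(0, 1), (1, 0), (1, 2), (1, 4), (1, 5), (2, 1), (2, 3), (3, 2), (4, 1), (5, 1), (5, 6), (6,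
      5)]
    mix := [(0, 0), (0, 1), (0, 2), (1, 0), (1, 2), (1, 3), (1, 4), (1, 5), (2, 2), (2, 3), (2, 6), (3,
      1), (3, 2), (3, 6), (4, 4), (4, 5), (4, 7), (5, 3), (5, 4), (5, 8), (6, 3), (6, 8), (6, 9)]
    cl := [1, 2, 0, 0, 0, 3, 4, 6, 5, 7]
    chq := [(0, 1), (1, 0), (1, 6), (6, 1)]
    rng := [(0, 1), (0, 5), (1, 0), (1, 2), (1, 6), (2, 1), (3, 6), (3, 9), (4, 7), (4, 8), (5, 0), (5,
      7), (6, 1), (6, 3), (7, 4), (7, 5), (8, 4), (8, 9), (9, 3), (9, 8)]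
    lev := [] }
  links := [[1, 7, 8, 9], [7, 0, 9, 2, 10, 5, 11, 4, 12], [10, 1, 9, 3, 13], [13, 2, 9, 8], [12, 1, 11,
    14], [11, 1, 10, 6, 15], [15, 5, 10, 16]]
  P := {
    a := 7
    N := 17
    nb := [898, 7861, 9738, 8964, 22530, 35906, 99360, 4355, 8841, 271, 73830, 49202, 16530, 1292,
      6160, 67680, 33856]
    tri := [(0, 1, 7), (0, 1, 9), (0, 7, 8), (0, 8, 9), (1, 2, 9), (1, 2, 10), (1, 4, 11), (1, 4, 12),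
      (1, 5, 10), (1, 5, 11), (1, 7, 12), (2, 3, 9), (2, 3, 13), (2, 10, 13), (3, 8, 9), (3, 8,
      13), (4, 11, 14), (4, 12, 14), (5, 6, 10), (5, 6, 15), (5, 11, 15), (6, 10, 16), (6, 15,
      16)]
    fin := [0, 0, 2, 3, 0, 2, 2, 0, 3, 2, 2, 2, 12, 13, 14, 15, 16]
    chd := [(0, 2), (0, 14)]
    steps := [(0, 1), (0, 4), (0, 7), (2, 9), (2, 10), (2, 5), (2, 6), (2, 11), (3, 8)] }
  rep := [2, 0, 3, 12, 13, 15, 14, 16]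

noncomputable def v3311 : Cov.CovD where
  P := 3
  N := 5
  pl := [1, 5, 6, 8, 9]
  lev := [⟨[], [], [(0, 1)], [2], [(0, 1, [0, 6]), (2, 0, [1])]⟩,
    ⟨[], [(0, 0), (0, 1)], [(0, 0), (0, 1)], [3], [(0, 1, [0, 6]), (2, 0, [1]), (3, 0,
      [1]), (4, 0, [1])]⟩,
    ⟨[(0, 1)], [(0, 0), (1, 0), (1, 1)], [(0, 0)], [4], [(2, 0, [1]), (3, 0, [1])]⟩,
    ⟨[(1, 2)], [(0, 0), (1, 0), (2, 0)], [], [2, 4], [(2, 0, [1])]⟩,
    ⟨[(0, 1), (1, 2)], [(1, 0), (1, 1), (1, 6)], [(0, 6)], [3], [(4, 0, [1]), (7, 6, [1])]⟩,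
    ⟨[(0, 1), (1, 2), (1, 4)], [(1, 0), (1, 1), (2, 0), (4, 0)], [(0, 0)], [5], [(3, 0,
      [1]), (4, 0, [1])]⟩,
    ⟨[(1, 5)], [(1, 0), (2, 0), (5, 0)], [], [5, 7], [(3, 0, [1])]⟩]
  Ta := [((2, 1), 0, 2), ((3, 6), 0, 4), ((3, 9), 0, 7), ((4, 7), 0, 6), ((4, 8), 0, 5)]
  Tb := [((0, 1, 5), 1, 2, 3), ((1, 0, 2), 2, 1, 0), ((1, 0, 6), 2, 1, 4), ((1, 2, 6), 2, 0, 4),
    ((3, 6, 9), 0, 4, 7), ((4, 7, 8), 0, 6, 5), ((5, 0, 7), 3, 1, 6), ((6, 1, 3), 4, 2, 0),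
    ((7, 4, 5), 6, 0, 3), ((8, 4, 9), 5, 0, 7), ((9, 3, 8), 7, 0, 5)]
  Tc := [(1, 0, 6)]
  Td := [((0, 1), (2, 1), 2), ((0, 1), (3, 6), 4), ((0, 1), (3, 9), 7), ((0, 1), (4, 7), 6), ((0,
    1), (4, 8), 5), ((1, 0), (0, 1), 2), ((1, 0), (0, 5), 3), ((1, 6), (0, 1), 2), ((1, 6),
    (0, 5), 3), ((6, 1), (7, 4), 0), ((6, 1), (7, 5), 3)]
  G := [[0, 0x11c14411a11211a188e4, 0x1162411a22a11a1811a12ac4, 0x11c211a2c211a211a1c2c4,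
    0x116281162261161811a12ac8], [0, 0x11611411c11211c188e8, 0, 0xca62ca6252c6a2c6a252c4,
    0xca628ca6126c6a18c6a22ac1], [0, 0x11611811a11211c144e4, 0, 0x1a621253a212c4,
    0x1a61a661c16216c1ac1aa193a16aa1ce16c8]]

noncomputable def n3311 : Ent := ⟨e3311, noF, [], [], [(13, 16, [1580044410770988437309982408355971841652082177953823432505702670337, 0])]⟩

def c3311 : PLift (Cov.check n3311.C.D v3311 = true) := ⟨by decide +kernel⟩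

def b3311 : PLift (entF (fidx ts) 400 3311 n3311 = true) := ⟨by decide +kernel⟩

theorem g3311 : GoodF (fidx ts) 400 3311 := GoodF.ofV v3311 n3311 c3311.down b3311.down

/-- 4954454:2517/3 -/
noncomputable def e3312 : SCfg where
  D := {
    a := 7
    L := 10
    kp := 7
    inn := [(0, 1), (1, 0), (1, 2), (1, 4), (1, 5), (2, 1), (2, 3), (3, 2), (4, 1), (5, 1), (5, 6), (6,
      5)]
    mix := [(0, 0), (0, 1), (0, 2), (1, 0), (1, 2), (1, 3), (1, 4), (1, 5), (2, 2), (2, 3), (2, 6), (3,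
      2), (3, 6), (3, 7), (4, 4), (4, 5), (4, 8), (5, 3), (5, 4), (5, 9), (6, 3), (6, 6), (6, 9)]
    cl := [2, 6, 0, 0, 0, 3, 1, 7, 5, 4]
    chq := [(0, 2), (2, 0), (2, 5), (5, 2)]
    rng := [(0, 1), (0, 5), (1, 0), (1, 2), (2, 1), (2, 7), (3, 6), (4, 8), (4, 9), (5, 0), (5, 8), (6,
      3), (6, 7), (6, 9), (7, 2), (7, 6), (8, 4), (8, 5), (9, 4), (9, 6)]
    lev := [] }
  links := [[1, 7, 8, 9], [7, 0, 9, 2, 10, 5, 11, 4, 12], [10, 1, 9, 3, 13], [13, 2, 9, 14], [12, 1, 11,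
    15], [11, 1, 10, 6, 16], [16, 5, 10, 13]]
  P := {
    a := 7
    N := 17
    nb := [898, 7861, 9738, 25092, 38914, 68674, 74784, 4355, 641, 16655, 8294, 98354, 32914, 83020,
      8712, 6160, 10336]
    tri := [(0, 1, 7), (0, 1, 9), (0, 7, 8), (0, 8, 9), (1, 2, 9), (1, 2, 10), (1, 4, 11), (1, 4, 12),
      (1, 5, 10), (1, 5, 11), (1, 7, 12), (2, 3, 9), (2, 3, 13), (2, 10, 13), (3, 9, 14), (3, 13,
      14), (4, 11, 15), (4, 12, 15), (5, 6, 10), (5, 6, 16), (5, 11, 16), (6, 10, 13), (6, 13,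
      16)]
    fin := [0, 0, 2, 2, 0, 2, 2, 0, 8, 2, 2, 2, 12, 13, 14, 15, 16]
    chd := [(0, 2), (0, 15)]
    steps := [(0, 1), (0, 4), (0, 7), (2, 3), (2, 9), (2, 10), (2, 5), (2, 6), (2, 11)] }
  rep := [2, 13, 0, 12, 16, 15, 8, 14]

noncomputable def v3312 : Cov.CovD where
  P := 3
  N := 5
  pl := [1, 5, 6, 7, 9]
  lev := [⟨[], [], [(0, 2)], [6], [(0, 2, [0, 5]), (2, 0, [2])]⟩,
    ⟨[], [(0, 0), (0, 2)], [(0, 0), (0, 2)], [3], [(0, 2, [0, 5]), (2, 0, [2]), (3, 0,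
      [2]), (4, 0, [2])]⟩,
    ⟨[(0, 1)], [(0, 0), (1, 0), (1, 2)], [(0, 0)], [1], [(2, 0, [2]), (3, 0, [2])]⟩,
    ⟨[(1, 2)], [(0, 0), (1, 0), (2, 0)], [], [1, 7], [(2, 0, [2])]⟩,
    ⟨[(0, 1), (1, 2)], [(1, 0), (1, 2), (1, 5)], [(0, 5)], [3], [(4, 0, [2]), (8, 5, [2])]⟩,
    ⟨[(0, 1), (1, 2), (1, 4)], [(1, 0), (1, 2), (2, 0), (4, 0)], [(0, 0)], [4], [(3, 0,
      [2]), (4, 0, [2])]⟩,
    ⟨[(1, 5)], [(1, 0), (2, 0), (5, 0)], [], [1, 4], [(3, 0, [2])]⟩]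
  Ta := [((2, 1), 0, 6), ((2, 7), 0, 7), ((3, 6), 0, 1), ((4, 8), 0, 5), ((4, 9), 0, 4)]
  Tb := [((0, 1, 5), 2, 6, 3), ((1, 0, 2), 6, 2, 0), ((2, 1, 7), 0, 6, 7), ((4, 8, 9), 0, 5, 4),
    ((5, 0, 8), 3, 2, 5), ((6, 3, 7), 1, 0, 7), ((6, 3, 9), 1, 0, 4), ((6, 7, 9), 1, 7, 4),
    ((7, 2, 6), 7, 0, 1), ((8, 4, 5), 5, 0, 3), ((9, 4, 6), 4, 0, 1)]
  Tc := [(2, 0, 5)]
  Td := [((0, 2), (2, 1), 6), ((0, 2), (2, 7), 7), ((0, 2), (3, 6), 1), ((0, 2), (4, 8), 5), ((0,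
    2), (4, 9), 4), ((2, 0), (0, 1), 6), ((2, 0), (0, 5), 3), ((2, 5), (0, 1), 6), ((2, 5),
    (0, 5), 3), ((5, 2), (8, 4), 0), ((5, 2), (8, 5), 3)]
  G := [[0, 0, 0x11a114281a118414a1148e, 0x18621161c418611162c8c11a214a1c481a181a2c8cc,
    0x11648164c4186111a1c8a416414c4c484c111c1c4aa], [0, 0x82614862c442a182c262c1,
    0x41a118284a11848161188e, 0x48624862c484a184a1c8c1, 0x48644864c484c184a1c8a1], [0, 0,
    0x11a1144116118881c1142e, 0x41614ca416486ac484a81a681a8166c8c1,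
    0x41641481a14c84ce14a48614c14ae1484c418aa]]

noncomputable def n3312 : Ent := ⟨e3312, noF, [], [], [(8, 14, [1685382413448253767852309107433119732572617628602273068445378469889, 0])]⟩

def c3312 : PLift (Cov.check n3312.C.D v3312 = true) := ⟨by decide +kernel⟩

def b3312 : PLift (entF (fidx ts) 400 3312 n3312 = true) := ⟨by decide +kernel⟩

theorem g3312 : GoodF (fidx ts) 400 3312 := GoodF.ofV v3312 n3312 c3312.down b3312.down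

/-- 4954454:2517 -/
noncomputable def e3313 : SCfg where
  D := {
    a := 7
    L := 11
    kp := 8
    inn := [(0, 1), (1, 0), (1, 2), (1, 4), (1, 5), (2, 1), (2, 3), (3, 2), (4, 1), (5, 1), (5, 6), (6,
      5)]
    mix := [(0, 0), (0, 1), (0, 2), (1, 0), (1, 2), (1, 3), (1, 4), (1, 5), (2, 2), (2, 3), (2, 6), (3,
      2), (3, 6), (3, 7), (4, 4), (4, 5), (4, 8), (5, 3), (5, 4), (5, 9), (6, 3), (6, 9), (6, 10)]
    cl := [1, 6, 0, 0, 0, 3, 2, 7, 5, 4, 8]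
    chq := [(0, 1), (1, 0), (1, 5), (5, 1)]
    rng := [(0, 1), (0, 5), (1, 0), (1, 2), (2, 1), (2, 7), (3, 6), (3, 10), (4, 8), (4, 9), (5, 0),
      (5, 8), (6, 3), (6, 7), (7, 2), (7, 6), (8, 4), (8, 5), (9, 4), (9, 10), (10, 3), (10, 9)]
    lev := [] }
  links := [[1, 7, 8, 9], [7, 0, 9, 2, 10, 5, 11, 4, 12], [10, 1, 9, 3, 13], [13, 2, 9, 14], [12, 1, 11,
    15], [11, 1, 10, 6, 16], [16, 5, 10, 17]]
  P := {
    a := 7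
    N := 18
    nb := [898, 7861, 9738, 25092, 38914, 68674, 197664, 4355, 641, 16655, 139366, 98354, 32914,
      17420, 8712, 6160, 133216, 66624]
    tri := [(0, 1, 7), (0, 1, 9), (0, 7, 8), (0, 8, 9), (1, 2, 9), (1, 2, 10), (1, 4, 11), (1, 4, 12),
      (1, 5, 10), (1, 5, 11), (1, 7, 12), (2, 3, 9), (2, 3, 13), (2, 10, 13), (3, 9, 14), (3, 13,
      14), (4, 11, 15), (4, 12, 15), (5, 6, 10), (5, 6, 16), (5, 11, 16), (6, 10, 17), (6, 16,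
      17)]
    fin := [0, 0, 2, 2, 0, 2, 2, 0, 8, 2, 2, 2, 12, 13, 14, 15, 16, 17]
    chd := [(0, 2), (0, 15)]
    steps := [(0, 1), (0, 4), (0, 7), (2, 3), (2, 9), (2, 10), (2, 5), (2, 6), (2, 11)] }
  rep := [2, 0, 13, 12, 16, 15, 8, 14, 17]

noncomputable def v3313 : Cov.CovD where
  P := 3
  N := 6
  pl := [1, 5, 6, 7, 9, 10]
  lev := [⟨[], [], [(0, 1)], [6], [(0, 1, [0, 5]), (2, 0, [1])]⟩,
    ⟨[], [(0, 0), (0, 1)], [(0, 0), (0, 1)], [3], [(0, 1, [0, 5]), (2, 0, [1]), (3, 0,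
      [1]), (4, 0, [1])]⟩,
    ⟨[(0, 1)], [(0, 0), (1, 0), (1, 1)], [(0, 0)], [2], [(2, 0, [1]), (3, 0, [1])]⟩,
    ⟨[(1, 2)], [(0, 0), (1, 0), (2, 0)], [], [2, 7], [(2, 0, [1])]⟩,
    ⟨[(0, 1), (1, 2)], [(1, 0), (1, 1), (1, 5)], [(0, 5)], [3], [(4, 0, [1]), (8, 5, [1])]⟩,
    ⟨[(0, 1), (1, 2), (1, 4)], [(1, 0), (1, 1), (2, 0), (4, 0)], [(0, 0)], [4], [(3, 0,
      [1]), (4, 0, [1])]⟩,
    ⟨[(1, 5)], [(1, 0), (2, 0), (5, 0)], [], [4, 8], [(3, 0, [1])]⟩]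
  Ta := [((2, 1), 0, 6), ((2, 7), 0, 7), ((3, 6), 0, 2), ((3, 10), 0, 8), ((4, 8), 0, 5), ((4,
    9), 0, 4)]
  Tb := [((0, 1, 5), 1, 6, 3), ((1, 0, 2), 6, 1, 0), ((2, 1, 7), 0, 6, 7), ((3, 6, 10), 0, 2, 8),
    ((4, 8, 9), 0, 5, 4), ((5, 0, 8), 3, 1, 5), ((6, 3, 7), 2, 0, 7), ((7, 2, 6), 7, 0, 2),
    ((8, 4, 5), 5, 0, 3), ((9, 4, 10), 4, 0, 8), ((10, 3, 9), 8, 0, 4)]
  Tc := [(1, 0, 5)]
  Td := [((0, 1), (2, 1), 6), ((0, 1), (2, 7), 7), ((0, 1), (3, 6), 2), ((0, 1), (3, 10), 8),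
    ((0, 1), (4, 8), 5), ((0, 1), (4, 9), 4), ((1, 0), (0, 1), 6), ((1, 0), (0, 5), 3), ((1,
    5), (0, 1), 6), ((1, 5), (0, 5), 3), ((5, 1), (8, 4), 0), ((5, 1), (8, 5), 3)]
  G := [[0, 0x116114811a118411c1182e, 0, 0x11611161c4116211a2c8c11a111c2c411a211a1c8cc,
    0x141231162a21214311c1a2c11a111a1a211a211a2a8cc], [0, 0x116118211611881161184e,
    0xca62ca62c4c6a1c6a1a4c1, 0xca61ca61c4c6a2c6a2c8c1, 0xca62ca62a2c6a1c6a1a8c1], [0,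
    0x11c118211a11841161188e, 0, 0xc1616ca71671671cec4b1aa1c616a2c8c1,
    0x1a6c16ac1616c71aea2c1a35a616a2a2c1]]

noncomputable def n3313 : Ent := ⟨e3313, noF, [], [], [(8, 14, [7334790875878422277917280412776772662961875900559637987928627383037953, 0]), (13, 17, [6903326391201334775872065844685381424292761054348340378595029943255041, 0])]⟩

def c3313 : PLift (Cov.check n3313.C.D v3313 = true) := ⟨by decide +kernel⟩

def b3313 : PLift (entF (fidx ts) 400 3313 n3313 = true) := ⟨by decide +kernel⟩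

theorem g3313 : GoodF (fidx ts) 400 3313 := GoodF.ofV v3313 n3313 c3313.down b3313.down

/-- 4954544:2519/1 -/
noncomputable def e3314 : SCfg where
  D := {
    a := 7
    L := 10
    kp := 7
    inn := [(0, 1), (1, 0), (1, 2), (1, 4), (1, 5), (2, 1), (2, 3), (3, 2), (4, 1), (4, 6), (5, 1), (6,
      4)]
    mix := [(0, 0), (0, 1), (0, 2), (1, 0), (1, 2), (1, 3), (1, 4), (1, 5), (2, 2), (2, 3), (2, 6), (3,
      1), (3, 2), (3, 6), (4, 0), (4, 5), (4, 7), (5, 3), (5, 4), (5, 8), (6, 5), (6, 7), (6, 9)]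
    cl := [1, 2, 0, 0, 3, 1, 4, 5, 6, 7]
    chq := [(0, 1), (1, 0), (1, 6), (6, 1)]
    rng := [(0, 1), (0, 7), (1, 0), (1, 2), (1, 6), (2, 1), (3, 6), (3, 8), (4, 5), (4, 8), (5, 4), (5,
      9), (6, 1), (6, 3), (7, 0), (7, 9), (8, 3), (8, 4), (9, 5), (9, 7)]
    lev := [] }
  links := [[1, 7, 8, 9], [7, 0, 9, 2, 10, 5, 11, 12, 4], [10, 1, 9, 3, 13], [13, 2, 9, 8], [7, 1, 12, 6,
    14], [11, 1, 10, 15], [14, 4, 12, 16]]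
  P := {
    a := 7
    N := 17
    nb := [898, 7861, 9738, 8964, 20674, 35842, 86032, 16659, 8841, 271, 40998, 36898, 67666, 1292,
      65744, 3104, 20544]
    tri := [(0, 1, 7), (0, 1, 9), (0, 7, 8), (0, 8, 9), (1, 2, 9), (1, 2, 10), (1, 4, 7), (1, 4, 12),
      (1, 5, 10), (1, 5, 11), (1, 11, 12), (2, 3, 9), (2, 3, 13), (2, 10, 13), (3, 8, 9), (3, 8,
      13), (4, 6, 12), (4, 6, 14), (4, 7, 14), (5, 10, 15), (5, 11, 15), (6, 12, 16), (6, 14, 16)]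
    fin := [0, 0, 2, 3, 0, 0, 0, 0, 3, 2, 2, 11, 0, 13, 14, 15, 16]
    chd := [(0, 2), (0, 15)]
    steps := [(0, 1), (0, 4), (0, 5), (0, 6), (0, 7), (0, 12), (2, 9), (2, 10), (3, 8)] }
  rep := [2, 0, 3, 11, 13, 14, 15, 16]

noncomputable def v3314 : Cov.CovD where
  P := 3
  N := 5
  pl := [1, 4, 6, 7, 9]
  lev := [⟨[], [], [(0, 1)], [2], [(0, 1, [0, 6]), (2, 0, [1])]⟩,
    ⟨[], [(0, 0), (0, 1)], [(0, 0), (0, 1), (1, 1)], [3], [(0, 1, [0, 6]), (2, 0, [1]), (3,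
      0, [1]), (5, 1, [0, 6])]⟩,
    ⟨[(0, 1)], [(0, 0), (1, 0), (1, 1)], [(0, 0)], [4], [(2, 0, [1]), (3, 0, [1])]⟩,
    ⟨[(1, 2)], [(0, 0), (1, 0), (2, 0)], [], [2, 4], [(2, 0, [1])]⟩,
    ⟨[(0, 1), (1, 2)], [(0, 1), (1, 0), (1, 1)], [(1, 1)], [5], [(0, 1, [0, 6]), (5, 1, [0,
      6])]⟩,
    ⟨[(0, 1), (1, 2), (1, 4)], [(1, 0), (1, 1), (1, 6), (2, 0)], [(0, 6)], [3], [(3, 0,
      [1]), (8, 6, [1])]⟩,
    ⟨[(1, 4)], [(1, 1), (4, 1)], [], [5, 7], [(5, 1, [0, 6])]⟩]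
  Ta := [((0, 1), 1, 2), ((0, 7), 1, 5), ((2, 1), 0, 2), ((3, 6), 0, 4), ((3, 8), 0, 6), ((5, 4),
    1, 3), ((5, 9), 1, 7)]
  Tb := [((0, 1, 7), 1, 2, 5), ((1, 0, 2), 2, 1, 0), ((1, 0, 6), 2, 1, 4), ((1, 2, 6), 2, 0, 4),
    ((3, 6, 8), 0, 4, 6), ((4, 5, 8), 3, 1, 6), ((5, 4, 9), 1, 3, 7), ((6, 1, 3), 4, 2, 0),
    ((7, 0, 9), 5, 1, 7), ((8, 3, 4), 6, 0, 3), ((9, 5, 7), 7, 1, 5)]
  Tc := [(1, 0, 6)]
  Td := [((0, 1), (2, 1), 2), ((0, 1), (3, 6), 4), ((0, 1), (3, 8), 6), ((1, 0), (0, 1), 2), ((1,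
    0), (0, 7), 5), ((1, 0), (5, 4), 3), ((1, 0), (5, 9), 7), ((1, 6), (0, 1), 2), ((1, 6),
    (0, 7), 5), ((1, 6), (5, 4), 3), ((1, 6), (5, 9), 7), ((6, 1), (8, 3), 0), ((6, 1), (8,
    4), 3)]
  G := [[0, 0x11116181111a121111c44e4, 0x326254b222586c22198b222526c8,
    0x2222522215c22221c21229c2c8, 0xc22258c2225269222c8c22292cc8], [0,
    0x11116141111c121111a18e8, 0xc29254c29252ac15198c15192ac2, 0,
    0xc29258c191526c15198c25292ac2], [0, 0x1111c441111a121111c18e4, 0,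
    0x228224221d22222922229c2c4, 0x227251c222526b222589222c2ac8], [0,
    0x11116121111a141111618e8, 0, 0, 0xcca99a58cca99a526cc655698cc655692ac1]]

noncomputable def n3314 : Ent := ⟨e3314, noF, [], [], []⟩

def c3314 : PLift (Cov.check n3314.C.D v3314 = true) := ⟨by decide +kernel⟩

def b3314 : PLift (entF (fidx ts) 400 3314 n3314 = true) := ⟨by decide +kernel⟩

theorem g3314 : GoodF (fidx ts) 400 3314 := GoodF.ofV v3314 n3314 c3314.down b3314.down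

/-- 4954544:2519 -/
noncomputable def e3315 : SCfg where
  D := {
    a := 7
    L := 11
    kp := 8
    inn := [(0, 1), (1, 0), (1, 2), (1, 4), (1, 5), (2, 1), (2, 3), (3, 2), (4, 1), (4, 6), (5, 1), (6,
      4)]
    mix := [(0, 0), (0, 1), (0, 2), (1, 0), (1, 2), (1, 3), (1, 4), (1, 5), (2, 2), (2, 3), (2, 6), (3,
      2), (3, 6), (3, 7), (4, 0), (4, 5), (4, 8), (5, 3), (5, 4), (5, 9), (6, 5), (6, 8), (6, 10)]
    cl := [1, 6, 0, 0, 2, 1, 3, 7, 4, 5, 8]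
    chq := [(0, 1), (1, 0), (1, 5), (5, 1)]
    rng := [(0, 1), (0, 8), (1, 0), (1, 2), (2, 1), (2, 7), (3, 6), (3, 9), (4, 5), (4, 9), (5, 4), (5,
      10), (6, 3), (6, 7), (7, 2), (7, 6), (8, 0), (8, 10), (9, 3), (9, 4), (10, 5), (10, 8)]
    lev := [] }
  links := [[1, 7, 8, 9], [7, 0, 9, 2, 10, 5, 11, 12, 4], [10, 1, 9, 3, 13], [13, 2, 9, 14], [7, 1, 12,
    6, 15], [11, 1, 10, 16], [15, 4, 12, 17]]
  P := {
    a := 7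
    N := 18
    nb := [898, 7861, 9738, 25092, 37058, 68610, 167952, 33043, 641, 16655, 73766, 69666, 133202,
      17420, 8712, 131280, 3104, 36928]
    tri := [(0, 1, 7), (0, 1, 9), (0, 7, 8), (0, 8, 9), (1, 2, 9), (1, 2, 10), (1, 4, 7), (1, 4, 12),
      (1, 5, 10), (1, 5, 11), (1, 11, 12), (2, 3, 9), (2, 3, 13), (2, 10, 13), (3, 9, 14), (3, 13,
      14), (4, 6, 12), (4, 6, 15), (4, 7, 15), (5, 10, 16), (5, 11, 16), (6, 12, 17), (6, 15, 17)]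
    fin := [0, 0, 2, 2, 0, 0, 0, 0, 8, 2, 2, 11, 0, 13, 14, 15, 16, 17]
    chd := [(0, 2), (0, 16)]
    steps := [(0, 1), (0, 4), (0, 5), (0, 6), (0, 7), (0, 12), (2, 3), (2, 9), (2, 10)] }
  rep := [2, 0, 11, 13, 15, 16, 8, 14, 17]

noncomputable def v3315 : Cov.CovD where
  P := 3
  N := 6
  pl := [1, 4, 6, 7, 8, 10]
  lev := [⟨[], [], [(0, 1)], [6], [(0, 1, [0, 5]), (2, 0, [1])]⟩,
    ⟨[], [(0, 0), (0, 1)], [(0, 0), (0, 1), (1, 1)], [2], [(0, 1, [0, 5]), (2, 0, [1]), (3,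
      0, [1]), (5, 1, [0, 5])]⟩,
    ⟨[(0, 1)], [(0, 0), (1, 0), (1, 1)], [(0, 0)], [3], [(2, 0, [1]), (3, 0, [1])]⟩,
    ⟨[(1, 2)], [(0, 0), (1, 0), (2, 0)], [], [3, 7], [(2, 0, [1])]⟩,
    ⟨[(0, 1), (1, 2)], [(0, 1), (1, 0), (1, 1)], [(1, 1)], [4], [(0, 1, [0, 5]), (5, 1, [0,
      5])]⟩,
    ⟨[(0, 1), (1, 2), (1, 4)], [(1, 0), (1, 1), (1, 5), (2, 0)], [(0, 5)], [2], [(3, 0,
      [1]), (9, 5, [1])]⟩,
    ⟨[(1, 4)], [(1, 1), (4, 1)], [], [4, 8], [(5, 1, [0, 5])]⟩]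
  Ta := [((0, 1), 1, 6), ((0, 8), 1, 4), ((2, 1), 0, 6), ((2, 7), 0, 7), ((3, 6), 0, 3), ((3, 9),
    0, 5), ((5, 4), 1, 2), ((5, 10), 1, 8)]
  Tb := [((0, 1, 8), 1, 6, 4), ((1, 0, 2), 6, 1, 0), ((2, 1, 7), 0, 6, 7), ((3, 6, 9), 0, 3, 5),
    ((4, 5, 9), 2, 1, 5), ((5, 4, 10), 1, 2, 8), ((6, 3, 7), 3, 0, 7), ((7, 2, 6), 7, 0, 3),
    ((8, 0, 10), 4, 1, 8), ((9, 3, 4), 5, 0, 2), ((10, 5, 8), 8, 1, 4)]
  Tc := [(1, 0, 5)]
  Td := [((0, 1), (2, 1), 6), ((0, 1), (2, 7), 7), ((0, 1), (3, 6), 3), ((0, 1), (3, 9), 5), ((1,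
    0), (0, 1), 6), ((1, 0), (0, 8), 4), ((1, 0), (5, 4), 2), ((1, 0), (5, 10), 8), ((1, 5),
    (0, 1), 6), ((1, 5), (0, 8), 4), ((1, 5), (5, 4), 2), ((1, 5), (5, 10), 8), ((5, 1), (9,
    3), 0), ((5, 1), (9, 4), 2)]
  G := [[0, 0x111161481111618811116128e, 0xa2325422925266232c88c7222544b2229862a292acc, 0,
    0x61a1571225c21925c2225a686232c21519cc222532a29a68c], [0, 0x111161481111a12411116188e,
    0xc29254c292526c252988c2, 0xc19154c191526c151988c2, 0xc1915c1915cc1925c1915a682], [0,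
    0x1111a1841111a1241111c148e, 0x22925462a29266232c88c1, 0, 0x7222922529ca2625c2225a681],
    [0, 0x11211141641181841141112168e, 0xc25298c25291c25292e42,
    0xd81ccc94554ccc55c98ccc5495813ac2, 0xc2925c2925cc29251682]]

noncomputable def n3315 : Ent := ⟨e3315, noF, [], [], [(8, 14, [7334790875878422277917280412776772662961875900559637987928627383050241, 0])]⟩

def c3315 : PLift (Cov.check n3315.C.D v3315 = true) := ⟨by decide +kernel⟩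

def b3315 : PLift (entF (fidx ts) 400 3315 n3315 = true) := ⟨by decide +kernel⟩

theorem g3315 : GoodF (fidx ts) 400 3315 := GoodF.ofV v3315 n3315 c3315.down b3315.down

/-- 4954544:2520/2 -/
noncomputable def e3316 : SCfg where
  D := {
    a := 7
    L := 9
    kp := 6
    inn := [(0, 1), (1, 0), (1, 2), (1, 4), (1, 5), (2, 1), (2, 3), (3, 2), (4, 1), (4, 6), (5, 1), (6,
      4)]
    mix := [(0, 0), (0, 1), (0, 2), (1, 0), (1, 2), (1, 3), (1, 4), (1, 5), (2, 2), (2, 3), (2, 6), (3,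
      1), (3, 2), (3, 6), (4, 0), (4, 5), (4, 7), (5, 3), (5, 4), (5, 8), (6, 0), (6, 1), (6, 7)]
    cl := [3, 1, 0, 0, 3, 4, 2, 5, 6]
    chq := [(0, 3), (1, 4), (3, 0), (4, 1)]
    rng := [(0, 1), (1, 0), (1, 2), (1, 6), (1, 7), (2, 1), (3, 6), (3, 8), (4, 5), (4, 8), (5, 4), (5,
      7), (6, 1), (6, 3), (7, 1), (7, 5), (8, 3), (8, 4)]
    lev := [] }
  links := [[1, 7, 8, 9], [7, 0, 9, 2, 10, 5, 11, 12, 4], [10, 1, 9, 3, 13], [13, 2, 9, 8], [7, 1, 12,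
    14, 6], [11, 1, 10, 15], [7, 4, 14, 8]]
  P := {
    a := 7
    N := 16
    nb := [898, 7861, 9738, 8964, 20674, 35842, 16784, 339, 25289, 271, 40998, 36898, 18450, 1292,
      4432, 3104]
    tri := [(0, 1, 7), (0, 1, 9), (0, 7, 8), (0, 8, 9), (1, 2, 9), (1, 2, 10), (1, 4, 7), (1, 4, 12),
      (1, 5, 10), (1, 5, 11), (1, 11, 12), (2, 3, 9), (2, 3, 13), (2, 10, 13), (3, 8, 9), (3, 8,
      13), (4, 6, 7), (4, 6, 14), (4, 12, 14), (5, 10, 15), (5, 11, 15), (6, 7, 8), (6, 8, 14)]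
    fin := [0, 0, 2, 3, 3, 0, 3, 0, 3, 2, 2, 0, 12, 13, 14, 15]
    chd := [(0, 2), (3, 12)]
    steps := [(0, 1), (0, 5), (0, 7), (0, 11), (2, 9), (2, 10), (3, 8), (3, 6), (3, 4)] }
  rep := [2, 3, 13, 0, 12, 14, 15]

noncomputable def v3316 : Cov.CovD where
  P := 3
  N := 4
  pl := [6, 7, 8]
  lev := [⟨[], [], [(0, 1), (0, 3), (1, 3)], [], [(0, 3, [0]), (1, 1, [4]), (2, 0, [3])]⟩,
    ⟨[], [(0, 0), (0, 1), (0, 3), (0, 4)], [(0, 0), (0, 3), (0, 4), (3, 3), (3, 4)], [],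
      [(0, 3, [0]), (2, 0, [3]), (3, 0, [3]), (4, 3, [0]), (5, 4, [1])]⟩,
    ⟨[(0, 1)], [(0, 0), (1, 0), (1, 3), (1, 4)], [(0, 0)], [2], [(2, 0, [3]), (3, 0, [3])]⟩,
    ⟨[(1, 2)], [(0, 0), (0, 1), (1, 0), (2, 0), (2, 1)], [(0, 1)], [2], [(1, 1, [4]), (2,
      0, [3])]⟩,
    ⟨[(0, 1), (1, 2)], [(0, 3), (1, 0), (1, 3), (1, 4)], [(3, 4)], [5], [(0, 3, [0]), (5,
      4, [1])]⟩,
    ⟨[(0, 1), (1, 2), (1, 4)], [(1, 0), (1, 3), (1, 4), (2, 0)], [(0, 3)], [6], [(3, 0,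
      [3]), (4, 3, [0])]⟩,
    ⟨[(1, 4)], [(0, 1), (0, 3), (1, 3), (3, 1), (4, 1), (4, 3), (4, 4)], [(1, 3)], [5],
      [(0, 3, [0]), (1, 1, [4])]⟩]
  Ta := [((0, 1), 3, 1), ((2, 1), 0, 1), ((3, 6), 0, 2), ((3, 8), 0, 6), ((4, 5), 3, 4), ((4, 8),
    3, 6)]
  Tb := [((1, 0, 2), 1, 3, 0), ((1, 0, 6), 1, 3, 2), ((1, 0, 7), 1, 3, 5), ((1, 2, 6), 1, 0, 2),
    ((1, 2, 7), 1, 0, 5), ((1, 6, 7), 1, 2, 5), ((3, 6, 8), 0, 2, 6), ((4, 5, 8), 3, 4, 6),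
    ((5, 4, 7), 4, 3, 5), ((6, 1, 3), 2, 1, 0), ((7, 1, 5), 5, 1, 4), ((8, 3, 4), 6, 0, 3)]
  Tc := []
  Td := [((0, 3), (2, 1), 1), ((0, 3), (3, 6), 2), ((0, 3), (3, 8), 6), ((1, 4), (1, 0), 3), ((1,
    4), (1, 2), 0), ((1, 4), (1, 6), 2), ((1, 4), (1, 7), 5), ((3, 0), (0, 1), 1), ((3, 0),
    (4, 5), 4), ((3, 0), (4, 8), 6), ((4, 1), (5, 4), 3), ((4, 1), (5, 7), 5)]
  G := [[0, 0xe11448e11884e11442e, 0, 0x942882582842c,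
    0x421829282582849411b88e52882485118788ac], [0, 0xa118461188a1184e4, 0, 0x995d24828,
    0x88c4c9145dc15f8828], [0, 0, 0x52129849212542844859c18af88e1, 0x942442582842c,
    0x9282582849414b8865212982485818788ac], [0, 0, 0xcca2425228242848e84111ef84e1,
    0x99c1238825292c8825, 0xc221288486411ed18a922124298ca886c]]

noncomputable def n3316 : Ent := ⟨e3316, noF, [], [], []⟩

def c3316 : PLift (Cov.check n3316.C.D v3316 = true) := ⟨by decide +kernel⟩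

def b3316 : PLift (entF (fidx ts) 400 3316 n3316 = true) := ⟨by decide +kernel⟩

theorem g3316 : GoodF (fidx ts) 400 3316 := GoodF.ofV v3316 n3316 c3316.down b3316.down

/-- 4954544:2520/1 -/
noncomputable def e3317 : SCfg where
  D := {
    a := 7
    L := 10
    kp := 7
    inn := [(0, 1), (1, 0), (1, 2), (1, 4), (1, 5), (2, 1), (2, 3), (3, 2), (4, 1), (4, 6), (5, 1), (6,
      4)]
    mix := [(0, 0), (0, 1), (0, 2), (1, 0), (1, 2), (1, 3), (1, 4), (1, 5), (2, 2), (2, 3), (2, 6), (3,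
      1), (3, 2), (3, 6), (4, 0), (4, 5), (4, 7), (5, 3), (5, 4), (5, 8), (6, 0), (6, 7), (6, 9)]
    cl := [1, 2, 0, 0, 3, 1, 4, 5, 6, 7]
    chq := [(0, 1), (1, 0), (1, 6), (6, 1)]
    rng := [(0, 1), (0, 9), (1, 0), (1, 2), (1, 6), (2, 1), (3, 6), (3, 8), (4, 5), (4, 8), (5, 4), (5,
      7), (6, 1), (6, 3), (7, 5), (7, 9), (8, 3), (8, 4), (9, 0), (9, 7)]
    lev := [] }
  links := [[1, 7, 8, 9], [7, 0, 9, 2, 10, 5, 11, 12, 4], [10, 1, 9, 3, 13], [13, 2, 9, 8], [7, 1, 12,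
    14, 6], [11, 1, 10, 15], [7, 4, 14, 16]]
  P := {
    a := 7
    N := 17
    nb := [898, 7861, 9738, 8964, 20674, 35842, 82064, 65875, 8841, 271, 40998, 36898, 18450, 1292,
      69712, 3104, 16576]
    tri := [(0, 1, 7), (0, 1, 9), (0, 7, 8), (0, 8, 9), (1, 2, 9), (1, 2, 10), (1, 4, 7), (1, 4, 12),
      (1, 5, 10), (1, 5, 11), (1, 11, 12), (2, 3, 9), (2, 3, 13), (2, 10, 13), (3, 8, 9), (3, 8,
      13), (4, 6, 7), (4, 6, 14), (4, 12, 14), (5, 10, 15), (5, 11, 15), (6, 7, 16), (6, 14, 16)]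
    fin := [0, 0, 2, 3, 0, 0, 0, 0, 3, 2, 2, 11, 0, 13, 14, 15, 16]
    chd := [(0, 2), (0, 15)]
    steps := [(0, 1), (0, 4), (0, 5), (0, 6), (0, 7), (0, 12), (2, 9), (2, 10), (3, 8)] }
  rep := [2, 0, 3, 11, 13, 14, 15, 16]

noncomputable def v3317 : Cov.CovD where
  P := 3
  N := 5
  pl := [1, 4, 6, 7, 9]
  lev := [⟨[], [], [(0, 1)], [2], [(0, 1, [0, 6]), (2, 0, [1])]⟩,
    ⟨[], [(0, 0), (0, 1)], [(0, 0), (0, 1), (1, 1)], [3], [(0, 1, [0, 6]), (2, 0, [1]), (3,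
      0, [1]), (5, 1, [0, 6])]⟩,
    ⟨[(0, 1)], [(0, 0), (1, 0), (1, 1)], [(0, 0)], [4], [(2, 0, [1]), (3, 0, [1])]⟩,
    ⟨[(1, 2)], [(0, 0), (1, 0), (2, 0)], [], [2, 4], [(2, 0, [1])]⟩,
    ⟨[(0, 1), (1, 2)], [(0, 1), (1, 0), (1, 1)], [(1, 1)], [5], [(0, 1, [0, 6]), (5, 1, [0,
      6])]⟩,
    ⟨[(0, 1), (1, 2), (1, 4)], [(1, 0), (1, 1), (1, 6), (2, 0)], [(0, 6)], [3], [(3, 0,
      [1]), (8, 6, [1])]⟩,
    ⟨[(1, 4)], [(0, 1), (1, 1), (4, 1)], [], [5, 7], [(0, 1, [0, 6])]⟩]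
  Ta := [((0, 1), 1, 2), ((0, 9), 1, 7), ((2, 1), 0, 2), ((3, 6), 0, 4), ((3, 8), 0, 6), ((5, 4),
    1, 3), ((5, 7), 1, 5)]
  Tb := [((0, 1, 9), 1, 2, 7), ((1, 0, 2), 2, 1, 0), ((1, 0, 6), 2, 1, 4), ((1, 2, 6), 2, 0, 4),
    ((3, 6, 8), 0, 4, 6), ((4, 5, 8), 3, 1, 6), ((5, 4, 7), 1, 3, 5), ((6, 1, 3), 4, 2, 0),
    ((7, 5, 9), 5, 1, 7), ((8, 3, 4), 6, 0, 3), ((9, 0, 7), 7, 1, 5)]
  Tc := [(1, 0, 6)]
  Td := [((0, 1), (2, 1), 2), ((0, 1), (3, 6), 4), ((0, 1), (3, 8), 6), ((1, 0), (0, 1), 2), ((1,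
    0), (0, 9), 7), ((1, 0), (5, 4), 3), ((1, 0), (5, 7), 5), ((1, 6), (0, 1), 2), ((1, 6),
    (0, 9), 7), ((1, 6), (5, 4), 3), ((1, 6), (5, 7), 5), ((6, 1), (8, 3), 0), ((6, 1), (8,
    4), 3)]
  G := [[0, 0x11116181111a121111c44e4, 0xc29254c291526c25294c25292ac8,
    0xc2925c2925c2c2529c2529c2c4, 0xc29258c291526c25298c252926c8], [0,
    0x11116141111a121111a18e4, 0x227254c2215269121c8a13252ac8, 0,
    0xc22158c221526c232298219252ac8], [0, 0x11116141111c121111a88e8, 0,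
    0xc2925c2925c2c2529c252992c4, 0xc29251c292526c25298c252926c8], [0,
    0x1111a141111a181111c12e4, 0, 0, 0x2a662582762252622a229e58293e2aac2ac8]]

noncomputable def n3317 : Ent := ⟨e3317, noF, [], [], [(8, 16, [1580044410770988437309982408355971841652082177953823432505702694913, 0])]⟩

def c3317 : PLift (Cov.check n3317.C.D v3317 = true) := ⟨by decide +kernel⟩

def b3317 : PLift (entF (fidx ts) 400 3317 n3317 = true) := ⟨by decide +kernel⟩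

theorem g3317 : GoodF (fidx ts) 400 3317 := GoodF.ofV v3317 n3317 c3317.down b3317.down

/-- 4954544:2520/3 -/
noncomputable def e3318 : SCfg where
  D := {
    a := 7
    L := 10
    kp := 7
    inn := [(0, 1), (1, 0), (1, 2), (1, 4), (1, 5), (2, 1), (2, 3), (3, 2), (4, 1), (4, 6), (5, 1), (6,
      4)]
    mix := [(0, 0), (0, 1), (0, 2), (1, 0), (1, 2), (1, 3), (1, 4), (1, 5), (2, 2), (2, 3), (2, 6), (3,
      2), (3, 6), (3, 7), (4, 0), (4, 5), (4, 8), (5, 3), (5, 4), (5, 9), (6, 0), (6, 1), (6, 8)]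
    cl := [0, 3, 1, 1, 0, 2, 4, 6, 5, 7]
    chq := [(0, 1), (1, 0), (2, 3), (3, 2)]
    rng := [(0, 1), (1, 0), (1, 2), (1, 8), (2, 1), (2, 7), (3, 6), (3, 9), (4, 5), (4, 9), (5, 4), (5,
      8), (6, 3), (6, 7), (7, 2), (7, 6), (8, 1), (8, 5), (9, 3), (9, 4)]
    lev := [] }
  links := [[1, 7, 8, 9], [7, 0, 9, 2, 10, 5, 11, 12, 4], [10, 1, 9, 3, 13], [13, 2, 9, 14], [7, 1, 12,
    15, 6], [11, 1, 10, 16], [7, 4, 15, 8]]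
  P := {
    a := 7
    N := 17
    nb := [898, 7861, 9738, 25092, 37058, 68610, 33168, 339, 33473, 16655, 73766, 69666, 34834, 17420,
      8712, 4432, 3104]
    tri := [(0, 1, 7), (0, 1, 9), (0, 7, 8), (0, 8, 9), (1, 2, 9), (1, 2, 10), (1, 4, 7), (1, 4, 12),
      (1, 5, 10), (1, 5, 11), (1, 11, 12), (2, 3, 9), (2, 3, 13), (2, 10, 13), (3, 9, 14), (3, 13,
      14), (4, 6, 7), (4, 6, 15), (4, 12, 15), (5, 10, 16), (5, 11, 16), (6, 7, 8), (6, 8, 15)]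
    fin := [0, 0, 2, 2, 4, 0, 4, 0, 4, 2, 2, 0, 12, 13, 14, 15, 16]
    chd := [(0, 2), (4, 12)]
    steps := [(0, 1), (0, 5), (0, 7), (0, 11), (2, 3), (2, 9), (2, 10), (4, 6), (4, 8)] }
  rep := [0, 2, 12, 4, 13, 15, 14, 16]

noncomputable def v3318 : Cov.CovD where
  P := 3
  N := 5
  pl := [6, 7, 8, 9]
  lev := [⟨[], [], [(0, 1), (0, 3), (1, 3)], [], [(0, 0, [1]), (1, 3, [2]), (2, 1, [0])]⟩,
    ⟨[], [(0, 0), (0, 1), (0, 2), (0, 3)], [(0, 0), (0, 1), (0, 2), (1, 1), (1, 2)], [],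
      [(0, 0, [1]), (2, 1, [0]), (3, 1, [0]), (4, 0, [1]), (5, 2, [3])]⟩,
    ⟨[(0, 1)], [(0, 1), (1, 0), (1, 1), (1, 2)], [(1, 1)], [4], [(2, 1, [0]), (3, 1, [0])]⟩,
    ⟨[(1, 2)], [(0, 1), (1, 1), (2, 1)], [], [4, 6], [(2, 1, [0])]⟩,
    ⟨[(0, 1), (1, 2)], [(0, 0), (1, 0), (1, 1), (1, 2)], [(0, 2)], [5], [(0, 0, [1]), (5,
      2, [3])]⟩,
    ⟨[(0, 1), (1, 2), (1, 4)], [(1, 0), (1, 1), (1, 2), (2, 1)], [(0, 1)], [7], [(3, 1,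
      [0]), (4, 0, [1])]⟩,
    ⟨[(1, 4)], [(0, 0), (0, 3), (1, 0), (4, 0), (4, 2), (4, 3)], [(0, 3)], [5], [(0, 0,
      [1]), (1, 3, [2])]⟩]
  Ta := [((0, 1), 0, 3), ((2, 1), 1, 3), ((2, 7), 1, 6), ((3, 6), 1, 4), ((3, 9), 1, 7), ((4, 5),
    0, 2), ((4, 9), 0, 7)]
  Tb := [((1, 0, 2), 3, 0, 1), ((1, 0, 8), 3, 0, 5), ((1, 2, 8), 3, 1, 5), ((2, 1, 7), 1, 3, 6),
    ((3, 6, 9), 1, 4, 7), ((4, 5, 9), 0, 2, 7), ((5, 4, 8), 2, 0, 5), ((6, 3, 7), 4, 1, 6),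
    ((7, 2, 6), 6, 1, 4), ((8, 1, 5), 5, 3, 2), ((9, 3, 4), 7, 1, 0)]
  Tc := []
  Td := [((0, 1), (0, 1), 3), ((0, 1), (4, 5), 2), ((0, 1), (4, 9), 7), ((1, 0), (2, 1), 3), ((1,
    0), (2, 7), 6), ((1, 0), (3, 6), 4), ((1, 0), (3, 9), 7), ((2, 3), (5, 4), 0), ((2, 3),
    (5, 8), 5), ((3, 2), (1, 0), 0), ((3, 2), (1, 2), 1), ((3, 2), (1, 8), 5)]
  G := [[0, 0x31696ac149ac13ac12c2, 0, 0x8122c8222cc8121c8121c5944146222cc4142242c9521888cc,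
    0x4182e2e4182e1ec4282e1e62a1c1e9584], [0, 0x31669ac1716166c1682, 0,
    0x41428821e1c414521a1c15a121c88c6, 0x418121e2484121a6141a9186], [0,
    0x33655ac1116666c1682, 0xc2a264c2a2615c262a88c1, 0x22e2c422e2c15e222c88c1,
    0x42e2a42e2ac42e2a42e2a9581], [0, 0x58c3264d195631ac1a42, 0x11c21c64411c12ca811c11ca19c2,
    0x1422ce8d442cc1824d823c1824d19c2, 0x24223428c8b242398442848b2846c3c486]]

noncomputable def n3318 : Ent := ⟨e3318, noF, [], [], [(8, 14, [1685382413448253767852309107433119732572617628602273068445378494465, 0])]⟩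

def c3318 : PLift (Cov.check n3318.C.D v3318 = true) := ⟨by decide +kernel⟩

def b3318 : PLift (entF (fidx ts) 400 3318 n3318 = true) := ⟨by decide +kernel⟩

theorem g3318 : GoodF (fidx ts) 400 3318 := GoodF.ofV v3318 n3318 c3318.down b3318.down

/-- 4954544:2520/4 -/
noncomputable def e3319 : SCfg where
  D := {
    a := 7
    L := 10
    kp := 7
    inn := [(0, 1), (1, 0), (1, 2), (1, 4), (1, 5), (2, 1), (2, 3), (3, 2), (4, 1), (4, 6), (5, 1), (6,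
      4)]
    mix := [(0, 0), (0, 1), (0, 2), (1, 0), (1, 2), (1, 3), (1, 4), (1, 5), (2, 2), (2, 3), (2, 6), (3,
      2), (3, 6), (3, 7), (4, 0), (4, 5), (4, 8), (5, 3), (5, 4), (5, 9), (6, 0), (6, 7), (6, 8)]
    cl := [1, 7, 0, 0, 2, 1, 3, 4, 5, 6]
    chq := [(0, 1), (1, 0), (1, 6), (6, 1)]
    rng := [(0, 1), (0, 7), (1, 0), (1, 2), (2, 1), (2, 7), (3, 6), (3, 9), (4, 5), (4, 9), (5, 4), (5,
      8), (6, 3), (6, 7), (7, 0), (7, 2), (7, 6), (7, 8), (8, 5), (8, 7), (9, 3), (9, 4)]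
    lev := [] }
  links := [[1, 7, 8, 9], [7, 0, 9, 2, 10, 5, 11, 12, 4], [10, 1, 9, 3, 13], [13, 2, 9, 14], [7, 1, 12,
    15, 6], [11, 1, 10, 16], [7, 4, 15, 14]]
  P := {
    a := 7
    N := 17
    nb := [898, 7861, 9738, 25092, 37058, 68610, 49296, 16723, 641, 16655, 73766, 69666, 34834, 17420,
      41672, 20560, 3104]
    tri := [(0, 1, 7), (0, 1, 9), (0, 7, 8), (0, 8, 9), (1, 2, 9), (1, 2, 10), (1, 4, 7), (1, 4, 12),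
      (1, 5, 10), (1, 5, 11), (1, 11, 12), (2, 3, 9), (2, 3, 13), (2, 10, 13), (3, 9, 14), (3, 13,
      14), (4, 6, 7), (4, 6, 15), (4, 12, 15), (5, 10, 16), (5, 11, 16), (6, 7, 14), (6, 14, 15)]
    fin := [0, 0, 2, 2, 0, 0, 0, 0, 8, 2, 2, 11, 0, 13, 14, 15, 16]
    chd := [(0, 2), (0, 16)]
    steps := [(0, 1), (0, 4), (0, 5), (0, 6), (0, 7), (0, 12), (2, 3), (2, 9), (2, 10)] }
  rep := [2, 0, 11, 13, 14, 15, 16, 8]

noncomputable def v3319 : Cov.CovD where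
  P := 3
  N := 5
  pl := [1, 4, 6, 7, 8]
  lev := [⟨[], [], [(0, 1)], [7], [(0, 1, [0, 6]), (2, 0, [1])]⟩,
    ⟨[], [(0, 0), (0, 1)], [(0, 0), (0, 1), (1, 1)], [2], [(0, 1, [0, 6]), (2, 0, [1]), (3,
      0, [1]), (5, 1, [0, 6])]⟩,
    ⟨[(0, 1)], [(0, 0), (1, 0), (1, 1)], [(0, 0)], [3], [(2, 0, [1]), (3, 0, [1])]⟩,
    ⟨[(1, 2)], [(0, 0), (1, 0), (2, 0)], [], [3, 4], [(2, 0, [1])]⟩,
    ⟨[(0, 1), (1, 2)], [(0, 1), (1, 0), (1, 1)], [(1, 1)], [5], [(0, 1, [0, 6]), (5, 1, [0,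
      6])]⟩,
    ⟨[(0, 1), (1, 2), (1, 4)], [(1, 0), (1, 1), (1, 6), (2, 0)], [(0, 6)], [2], [(3, 0,
      [1]), (9, 6, [1])]⟩,
    ⟨[(1, 4)], [(0, 1), (1, 1), (4, 1)], [], [4, 5], [(0, 1, [0, 6])]⟩]
  Ta := [((0, 1), 1, 7), ((0, 7), 1, 4), ((2, 1), 0, 7), ((2, 7), 0, 4), ((3, 6), 0, 3), ((3, 9),
    0, 6), ((5, 4), 1, 2), ((5, 8), 1, 5)]
  Tb := [((0, 1, 7), 1, 7, 4), ((1, 0, 2), 7, 1, 0), ((2, 1, 7), 0, 7, 4), ((3, 6, 9), 0, 3, 6),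
    ((4, 5, 9), 2, 1, 6), ((5, 4, 8), 1, 2, 5), ((6, 3, 7), 3, 0, 4), ((7, 0, 2), 4, 1, 0),
    ((7, 0, 6), 4, 1, 3), ((7, 0, 8), 4, 1, 5), ((7, 2, 6), 4, 0, 3), ((7, 2, 8), 4, 0, 5),
    ((7, 6, 8), 4, 3, 5), ((8, 5, 7), 5, 1, 4), ((9, 3, 4), 6, 0, 2)]
  Tc := [(1, 0, 6)]
  Td := [((0, 1), (2, 1), 7), ((0, 1), (2, 7), 4), ((0, 1), (3, 6), 3), ((0, 1), (3, 9), 6), ((1,
    0), (0, 1), 7), ((1, 0), (0, 7), 4), ((1, 0), (5, 4), 2), ((1, 0), (5, 8), 5), ((1, 6),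
    (0, 1), 7), ((1, 6), (0, 7), 4), ((1, 6), (5, 4), 2), ((1, 6), (5, 8), 5), ((6, 1), (9,
    3), 0), ((6, 1), (9, 4), 2)]
  G := [[0, 0x1111c1841111c1281111a144e, 0x4212544821298c25292ac429254c2125268212988cc, 0,
    0x8211542925c42115c2925a688212542925c42825c1115a68c], [0, 0x1111c124111161881111c148e,
    0x421254c2925268212988c2, 0x1141c4c1915268111988c2, 0x8292542125cc19252682], [0,
    0x1111a1841111a1241111c148e, 0x1242c44821298c21292ac1, 0, 0x8212542129c82125c2125a681],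
    [0, 0x1111c1241111a1841111a144e, 0xc21251c21252a82, 0xc411c5148284284c22c22c92a43,
    0xc21251428212d2a82]]

noncomputable def n3319 : Ent := ⟨e3319, noF, [], [], [(8, 14, [1685382413448253767852309107433119732572617628602273068445378494465, 0])]⟩

def c3319 : PLift (Cov.check n3319.C.D v3319 = true) := ⟨by decide +kernel⟩

def b3319 : PLift (entF (fidx ts) 400 3319 n3319 = true) := ⟨by decide +kernel⟩

theorem g3319 : GoodF (fidx ts) 400 3319 := GoodF.ofV v3319 n3319 c3319.down b3319.down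

/-- 4954544:2520 -/
noncomputable def e3320 : SCfg where
  D := {
    a := 7
    L := 11
    kp := 8
    inn := [(0, 1), (1, 0), (1, 2), (1, 4), (1, 5), (2, 1), (2, 3), (3, 2), (4, 1), (4, 6), (5, 1), (6,
      4)]
    mix := [(0, 0), (0, 1), (0, 2), (1, 0), (1, 2), (1, 3), (1, 4), (1, 5), (2, 2), (2, 3), (2, 6), (3,
      2), (3, 6), (3, 7), (4, 0), (4, 5), (4, 8), (5, 3), (5, 4), (5, 9), (6, 0), (6, 8), (6, 10)]
    cl := [1, 6, 0, 0, 2, 1, 3, 7, 4, 5, 8]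
    chq := [(0, 1), (1, 0), (1, 5), (5, 1)]
    rng := [(0, 1), (0, 10), (1, 0), (1, 2), (2, 1), (2, 7), (3, 6), (3, 9), (4, 5), (4, 9), (5, 4),
      (5, 8), (6, 3), (6, 7), (7, 2), (7, 6), (8, 5), (8, 10), (9, 3), (9, 4), (10, 0), (10, 8)]
    lev := [] }
  links := [[1, 7, 8, 9], [7, 0, 9, 2, 10, 5, 11, 12, 4], [10, 1, 9, 3, 13], [13, 2, 9, 14], [7, 1, 12,
    15, 6], [11, 1, 10, 16], [7, 4, 15, 17]]
  P := {
    a := 7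
    N := 18
    nb := [898, 7861, 9738, 25092, 37058, 68610, 163984, 131411, 641, 16655, 73766, 69666, 34834,
      17420, 8712, 135248, 3104, 32960]
    tri := [(0, 1, 7), (0, 1, 9), (0, 7, 8), (0, 8, 9), (1, 2, 9), (1, 2, 10), (1, 4, 7), (1, 4, 12),
      (1, 5, 10), (1, 5, 11), (1, 11, 12), (2, 3, 9), (2, 3, 13), (2, 10, 13), (3, 9, 14), (3, 13,
      14), (4, 6, 7), (4, 6, 15), (4, 12, 15), (5, 10, 16), (5, 11, 16), (6, 7, 17), (6, 15, 17)]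
    fin := [0, 0, 2, 2, 0, 0, 0, 0, 8, 2, 2, 11, 0, 13, 14, 15, 16, 17]
    chd := [(0, 2), (0, 16)]
    steps := [(0, 1), (0, 4), (0, 5), (0, 6), (0, 7), (0, 12), (2, 3), (2, 9), (2, 10)] }
  rep := [2, 0, 11, 13, 15, 16, 8, 14, 17]

noncomputable def v3320 : Cov.CovD where
  P := 3
  N := 6
  pl := [1, 4, 6, 7, 8, 10]
  lev := [⟨[], [], [(0, 1)], [6], [(0, 1, [0, 5]), (2, 0, [1])]⟩,
    ⟨[], [(0, 0), (0, 1)], [(0, 0), (0, 1), (1, 1)], [2], [(0, 1, [0, 5]), (2, 0, [1]), (3,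
      0, [1]), (5, 1, [0, 5])]⟩,
    ⟨[(0, 1)], [(0, 0), (1, 0), (1, 1)], [(0, 0)], [3], [(2, 0, [1]), (3, 0, [1])]⟩,
    ⟨[(1, 2)], [(0, 0), (1, 0), (2, 0)], [], [3, 7], [(2, 0, [1])]⟩,
    ⟨[(0, 1), (1, 2)], [(0, 1), (1, 0), (1, 1)], [(1, 1)], [4], [(0, 1, [0, 5]), (5, 1, [0,
      5])]⟩,
    ⟨[(0, 1), (1, 2), (1, 4)], [(1, 0), (1, 1), (1, 5), (2, 0)], [(0, 5)], [2], [(3, 0,
      [1]), (9, 5, [1])]⟩,
    ⟨[(1, 4)], [(0, 1), (1, 1), (4, 1)], [], [4, 8], [(0, 1, [0, 5])]⟩]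
  Ta := [((0, 1), 1, 6), ((0, 10), 1, 8), ((2, 1), 0, 6), ((2, 7), 0, 7), ((3, 6), 0, 3), ((3,
    9), 0, 5), ((5, 4), 1, 2), ((5, 8), 1, 4)]
  Tb := [((0, 1, 10), 1, 6, 8), ((1, 0, 2), 6, 1, 0), ((2, 1, 7), 0, 6, 7), ((3, 6, 9), 0, 3, 5),
    ((4, 5, 9), 2, 1, 5), ((5, 4, 8), 1, 2, 4), ((6, 3, 7), 3, 0, 7), ((7, 2, 6), 7, 0, 3),
    ((8, 5, 10), 4, 1, 8), ((9, 3, 4), 5, 0, 2), ((10, 0, 8), 8, 1, 4)]
  Tc := [(1, 0, 5)]
  Td := [((0, 1), (2, 1), 6), ((0, 1), (2, 7), 7), ((0, 1), (3, 6), 3), ((0, 1), (3, 9), 5), ((1,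
    0), (0, 1), 6), ((1, 0), (0, 10), 8), ((1, 0), (5, 4), 2), ((1, 0), (5, 8), 4), ((1, 5),
    (0, 1), 6), ((1, 5), (0, 10), 8), ((1, 5), (5, 4), 2), ((1, 5), (5, 8), 4), ((5, 1), (9,
    3), 0), ((5, 1), (9, 4), 2)]
  G := [[0, 0x111161481111618811116128e, 0xc29254c292526c252988cc292544c25298c25292acc, 0,
    0xc2915c2915cc1915c2925a68c1925c2915cc2915c1925a68c], [0, 0x1111a1441111a1841111a124e,
    0xc29254c292526c252988c2, 0xc191544c15198c15192ac2, 0xc2915c2915cc2915c1915a682], [0,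
    0x1111a1441111a12811116188e, 0xc292544c25298c25292ac1, 0, 0xc2925c2925cc2925c2925a681],
    [0, 0x1111a1841111a1241111a144e, 0x32a2c42252926a232c88c1,
    0x22c22c54422c22c9822c22c92ac1, 0xc29251c2925c29256a82]]

noncomputable def n3320 : Ent := ⟨e3320, noF, [], [], [(8, 14, [7334790875878422277917280412776772662961875900559637987928627383062529, 0]), (8, 17, [6903326391201334775872065844685381424292761054348340378595029943279617, 0]), (14, 17, [6903326391201334775872065844685381424292761054348340378595029943283713, 0])]⟩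

def c3320 : PLift (Cov.check n3320.C.D v3320 = true) := ⟨by decide +kernel⟩

def b3320 : PLift (entF (fidx ts) 400 3320 n3320 = true) := ⟨by decide +kernel⟩

theorem g3320 : GoodF (fidx ts) 400 3320 := GoodF.ofV v3320 n3320 c3320.down b3320.down

/-- 4954544:2523/1 -/
noncomputable def e3321 : SCfg where
  D := {
    a := 7
    L := 10
    kp := 7
    inn := [(0, 1), (1, 0), (1, 2), (1, 4), (1, 6), (2, 1), (2, 3), (3, 2), (4, 1), (4, 5), (5, 4), (6,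
      1)]
    mix := [(0, 0), (0, 1), (0, 2), (1, 0), (1, 2), (1, 3), (1, 4), (1, 5), (2, 2), (2, 3), (2, 6), (3,
      3), (3, 6), (3, 7), (4, 3), (4, 4), (4, 7), (5, 4), (5, 7), (5, 8), (6, 0), (6, 5), (6, 9)]
    cl := [1, 6, 0, 0, 0, 2, 4, 3, 7, 5]
    chq := [(0, 1), (0, 5), (1, 0), (5, 0)]
    rng := [(0, 1), (0, 9), (1, 0), (1, 2), (2, 1), (2, 6), (3, 7), (4, 5), (4, 8), (5, 4), (5, 9), (6,
      2), (6, 7), (7, 3), (7, 6), (7, 8), (8, 4), (8, 7), (9, 0), (9, 5)]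
    lev := [] }
  links := [[1, 7, 8, 9], [7, 0, 9, 2, 10, 4, 11, 12, 6], [10, 1, 9, 13, 3], [10, 2, 13, 14], [11, 1, 10,
    14, 5], [11, 4, 14, 15], [7, 1, 12, 16]]
  P := {
    a := 7
    N := 17
    nb := [898, 7893, 9738, 25604, 19490, 51216, 69762, 65859, 641, 8455, 16414, 36914, 67650, 16908,
      42040, 18464, 4288]
    tri := [(0, 1, 7), (0, 1, 9), (0, 7, 8), (0, 8, 9), (1, 2, 9), (1, 2, 10), (1, 4, 10), (1, 4, 11),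
      (1, 6, 7), (1, 6, 12), (1, 11, 12), (2, 3, 10), (2, 3, 13), (2, 9, 13), (3, 10, 14), (3, 13,
      14), (4, 5, 11), (4, 5, 14), (4, 10, 14), (5, 11, 15), (5, 14, 15), (6, 7, 16), (6, 12, 16)]
    fin := [0, 1, 1, 1, 1, 1, 1, 0, 8, 1, 1, 1, 12, 13, 14, 15, 16]
    chd := [(0, 1), (1, 16)]
    steps := [(0, 7), (1, 2), (1, 3), (1, 6), (1, 9), (1, 10), (1, 4), (1, 5), (1, 11)] }
  rep := [1, 0, 12, 14, 13, 16, 8, 15]

noncomputable def v3321 : Cov.CovD where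
  P := 3
  N := 5
  pl := [1, 5, 6, 7, 8]
  lev := [⟨[], [], [(0, 1)], [6], [(0, 1, [0]), (2, 0, [1, 5])]⟩,
    ⟨[], [(0, 0), (0, 1)], [(0, 0), (0, 1)], [2], [(0, 1, [0]), (2, 0, [1, 5]), (3, 0, [1,
      5]), (4, 0, [1, 5])]⟩,
    ⟨[(0, 1)], [(0, 0), (1, 0), (1, 1)], [(0, 0)], [4], [(2, 0, [1, 5]), (3, 0, [1, 5])]⟩,
    ⟨[(1, 2)], [(1, 0), (2, 0)], [], [3, 4], [(3, 0, [1, 5])]⟩,
    ⟨[(0, 1), (1, 2)], [(1, 0), (1, 1), (2, 0), (3, 0)], [(0, 0)], [3], [(3, 0, [1, 5]),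
      (4, 0, [1, 5])]⟩,
    ⟨[(1, 4)], [(1, 0), (4, 0)], [], [3, 7], [(4, 0, [1, 5])]⟩,
    ⟨[(0, 1), (1, 2), (1, 4)], [(0, 1), (1, 0), (1, 1), (1, 5)], [(1, 5)], [2], [(0, 1,
      [0]), (9, 5, [0])]⟩]
  Ta := [((2, 1), 0, 6), ((2, 6), 0, 4), ((3, 7), 0, 3), ((4, 5), 0, 2), ((4, 8), 0, 7)]
  Tb := [((0, 1, 9), 1, 6, 5), ((1, 0, 2), 6, 1, 0), ((2, 1, 6), 0, 6, 4), ((4, 5, 8), 0, 2, 7),
    ((5, 4, 9), 2, 0, 5), ((6, 2, 7), 4, 0, 3), ((7, 3, 6), 3, 0, 4), ((7, 3, 8), 3, 0, 7),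
    ((7, 6, 8), 3, 4, 7), ((8, 4, 7), 7, 0, 3), ((9, 0, 5), 5, 1, 2)]
  Tc := [(0, 1, 5)]
  Td := [((0, 1), (2, 1), 6), ((0, 1), (2, 6), 4), ((0, 1), (3, 7), 3), ((0, 1), (4, 5), 2), ((0,
    1), (4, 8), 7), ((0, 5), (2, 1), 6), ((0, 5), (2, 6), 4), ((0, 5), (3, 7), 3), ((0, 5),
    (4, 5), 2), ((0, 5), (4, 8), 7), ((1, 0), (0, 1), 6), ((1, 0), (0, 9), 5), ((5, 0), (9,
    0), 1), ((5, 0), (9, 5), 2)]
  G := [[0, 0x11222411411181c81111a1118164e, 0, 0x1144411881122ac11441121611888cc,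
    0x11411251121143681111611141126c8c], [0, 0x1111a144111161881111c128e, 0,
    0x1194441138811522ac1, 0x11a2114c118111e2a681], [0, 0x1111c1241111a1841111a144e,
    0xccccc6a1ccccc6a1a41, 0x11c116a111c116a1c41, 0x11c11a6111c11a61c81]]

noncomputable def n3321 : Ent := ⟨e3321, noF, [], [], []⟩

def c3321 : PLift (Cov.check n3321.C.D v3321 = true) := ⟨by decide +kernel⟩

def b3321 : PLift (entF (fidx ts) 400 3321 n3321 = true) := ⟨by decide +kernel⟩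

theorem g3321 : GoodF (fidx ts) 400 3321 := GoodF.ofV v3321 n3321 c3321.down b3321.down

/-- 4954544:2523 -/
noncomputable def e3322 : SCfg where
  D := {
    a := 7
    L := 11
    kp := 8
    inn := [(0, 1), (1, 0), (1, 2), (1, 4), (1, 6), (2, 1), (2, 3), (3, 2), (4, 1), (4, 5), (5, 4), (6,
      1)]
    mix := [(0, 0), (0, 1), (0, 2), (1, 0), (1, 2), (1, 3), (1, 4), (1, 5), (2, 2), (2, 3), (2, 6), (3,
      3), (3, 6), (3, 7), (4, 3), (4, 4), (4, 8), (5, 4), (5, 8), (5, 9), (6, 0), (6, 5), (6, 10)]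
    cl := [1, 6, 0, 0, 0, 2, 3, 7, 4, 8, 5]
    chq := [(0, 1), (0, 5), (1, 0), (5, 0)]
    rng := [(0, 1), (0, 10), (1, 0), (1, 2), (2, 1), (2, 6), (3, 7), (3, 8), (4, 5), (4, 9), (5, 4),
      (5, 10), (6, 2), (6, 7), (7, 3), (7, 6), (8, 3), (8, 9), (9, 4), (9, 8), (10, 0), (10, 5)]
    lev := [] }
  links := [[1, 7, 8, 9], [7, 0, 9, 2, 10, 4, 11, 12, 6], [10, 1, 9, 13, 3], [10, 2, 13, 14], [11, 1, 10,
    15, 5], [11, 4, 15, 16], [7, 1, 12, 17]]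
  P := {
    a := 7
    N := 18
    nb := [898, 7893, 9738, 25604, 35874, 100368, 135298, 131395, 641, 8455, 49182, 69682, 133186,
      16908, 9224, 66608, 34848, 4288]
    tri := [(0, 1, 7), (0, 1, 9), (0, 7, 8), (0, 8, 9), (1, 2, 9), (1, 2, 10), (1, 4, 10), (1, 4, 11),
      (1, 6, 7), (1, 6, 12), (1, 11, 12), (2, 3, 10), (2, 3, 13), (2, 9, 13), (3, 10, 14), (3, 13,
      14), (4, 5, 11), (4, 5, 15), (4, 10, 15), (5, 11, 16), (5, 15, 16), (6, 7, 17), (6, 12, 17)]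
    fin := [0, 1, 1, 1, 1, 1, 1, 0, 8, 1, 1, 1, 12, 13, 14, 15, 16, 17]
    chd := [(0, 1), (1, 17)]
    steps := [(0, 7), (1, 2), (1, 3), (1, 4), (1, 5), (1, 6), (1, 9), (1, 10), (1, 11)] }
  rep := [1, 0, 12, 13, 15, 17, 8, 14, 16]

noncomputable def v3322 : Cov.CovD where
  P := 3
  N := 6
  pl := [1, 5, 6, 7, 8, 9]
  lev := [⟨[], [], [(0, 1)], [6], [(0, 1, [0]), (2, 0, [1, 5])]⟩,
    ⟨[], [(0, 0), (0, 1)], [(0, 0), (0, 1)], [2], [(0, 1, [0]), (2, 0, [1, 5]), (3, 0, [1,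
      5]), (4, 0, [1, 5])]⟩,
    ⟨[(0, 1)], [(0, 0), (1, 0), (1, 1)], [(0, 0)], [3], [(2, 0, [1, 5]), (3, 0, [1, 5])]⟩,
    ⟨[(1, 2)], [(1, 0), (2, 0)], [], [3, 7], [(3, 0, [1, 5])]⟩,
    ⟨[(0, 1), (1, 2)], [(1, 0), (1, 1), (2, 0), (3, 0)], [(0, 0)], [4], [(3, 0, [1, 5]),
      (4, 0, [1, 5])]⟩,
    ⟨[(1, 4)], [(1, 0), (4, 0)], [], [4, 8], [(4, 0, [1, 5])]⟩,
    ⟨[(0, 1), (1, 2), (1, 4)], [(0, 1), (1, 0), (1, 1), (1, 5)], [(1, 5)], [2], [(0, 1,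
      [0]), (10, 5, [0])]⟩]
  Ta := [((2, 1), 0, 6), ((2, 6), 0, 3), ((3, 7), 0, 7), ((3, 8), 0, 4), ((4, 5), 0, 2), ((4, 9),
    0, 8)]
  Tb := [((0, 1, 10), 1, 6, 5), ((1, 0, 2), 6, 1, 0), ((2, 1, 6), 0, 6, 3), ((3, 7, 8), 0, 7, 4),
    ((4, 5, 9), 0, 2, 8), ((5, 4, 10), 2, 0, 5), ((6, 2, 7), 3, 0, 7), ((7, 3, 6), 7, 0, 3),
    ((8, 3, 9), 4, 0, 8), ((9, 4, 8), 8, 0, 4), ((10, 0, 5), 5, 1, 2)]
  Tc := [(0, 1, 5)]
  Td := [((0, 1), (2, 1), 6), ((0, 1), (2, 6), 3), ((0, 1), (3, 7), 7), ((0, 1), (3, 8), 4), ((0,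
    1), (4, 5), 2), ((0, 1), (4, 9), 8), ((0, 5), (2, 1), 6), ((0, 5), (2, 6), 3), ((0, 5),
    (3, 7), 7), ((0, 5), (3, 8), 4), ((0, 5), (4, 5), 2), ((0, 5), (4, 9), 8), ((1, 0), (0,
    1), 6), ((1, 0), (0, 10), 5), ((5, 0), (10, 0), 1), ((5, 0), (10, 5), 2)]
  G := [[0, 0x111161281111618811116148e, 0, 0x118114c11211121143e41111611111a4111162e8c,
    0x1111611111611116a68114112118d112118114b68c], [0, 0x111161281111c14811116188e, 0,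
    0x11c116411c1162611a11c88c1, 0x11116a11116ac1111a611c116a681], [0,
    0x1111a1441111a12411116184e, 0xccccca61ccccca61681, 0x11c116a111c116a1a41,
    0x11c11a6111c11a61a81]]

noncomputable def n3322 : Ent := ⟨e3322, noF, [], [], [(14, 15, [7334790850167413569773436004105379185503274260204390087403942018256897, 0])]⟩

def c3322 : PLift (Cov.check n3322.C.D v3322 = true) := ⟨by decide +kernel⟩

def b3322 : PLift (entF (fidx ts) 400 3322 n3322 = true) := ⟨by decide +kernel⟩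

theorem g3322 : GoodF (fidx ts) 400 3322 := GoodF.ofV v3322 n3322 c3322.down b3322.down

/-- 4954544:2524/1 -/
noncomputable def e3323 : SCfg where
  D := {
    a := 7
    L := 10
    kp := 7
    inn := [(0, 1), (1, 0), (1, 2), (1, 4), (1, 5), (2, 1), (2, 3), (3, 2), (4, 1), (4, 6), (5, 1), (6,
      4)]
    mix := [(0, 0), (0, 1), (0, 2), (1, 0), (1, 2), (1, 3), (1, 4), (1, 5), (2, 2), (2, 3), (2, 6), (3,
      3), (3, 6), (3, 7), (4, 3), (4, 4), (4, 8), (5, 4), (5, 5), (5, 9), (6, 3), (6, 7), (6, 8)]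
    cl := [0, 6, 1, 0, 0, 2, 4, 3, 5, 7]
    chq := [(0, 1), (1, 0), (1, 3), (3, 1)]
    rng := [(0, 1), (0, 5), (1, 0), (1, 2), (2, 1), (2, 6), (3, 7), (4, 8), (4, 9), (5, 0), (5, 9), (6,
      2), (6, 7), (7, 3), (7, 6), (7, 8), (8, 4), (8, 7), (9, 4), (9, 5)]
    lev := [] }
  links := [[1, 7, 8, 9], [7, 0, 9, 2, 10, 4, 11, 5, 12], [10, 1, 9, 13, 3], [10, 2, 13, 14], [11, 1, 10,
    6, 15], [12, 1, 11, 16], [15, 4, 10, 14]]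
  P := {
    a := 7
    N := 17
    nb := [898, 7861, 9738, 25604, 35906, 71682, 50192, 4355, 641, 8455, 16478, 98354, 65698, 16908,
      42056, 18512, 6176]
    tri := [(0, 1, 7), (0, 1, 9), (0, 7, 8), (0, 8, 9), (1, 2, 9), (1, 2, 10), (1, 4, 10), (1, 4, 11),
      (1, 5, 11), (1, 5, 12), (1, 7, 12), (2, 3, 10), (2, 3, 13), (2, 9, 13), (3, 10, 14), (3, 13,
      14), (4, 6, 10), (4, 6, 15), (4, 11, 15), (5, 11, 16), (5, 12, 16), (6, 10, 14), (6, 14,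
      15)]
    fin := [0, 0, 2, 2, 0, 0, 0, 0, 8, 2, 0, 0, 12, 13, 14, 15, 16]
    chd := [(0, 2), (2, 14)]
    steps := [(0, 1), (0, 4), (0, 5), (0, 6), (0, 7), (0, 10), (0, 11), (2, 3), (2, 9)] }
  rep := [0, 2, 12, 14, 13, 15, 8, 16]

noncomputable def v3323 : Cov.CovD where
  P := 3
  N := 5
  pl := [1, 5, 6, 8, 9]
  lev := [⟨[], [], [(0, 1)], [6], [(0, 0, [1]), (2, 1, [0, 3])]⟩,
    ⟨[], [(0, 0), (0, 1)], [(0, 0), (0, 1)], [2], [(0, 0, [1]), (2, 1, [0, 3]), (3, 0,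
      [1]), (4, 0, [1])]⟩,
    ⟨[(0, 1)], [(0, 1), (1, 0), (1, 1)], [(0, 1)], [4], [(2, 1, [0, 3]), (3, 0, [1])]⟩,
    ⟨[(1, 2)], [(1, 0), (2, 0), (2, 1), (2, 3)], [(0, 3)], [4], [(3, 0, [1]), (7, 3, [1])]⟩,
    ⟨[(0, 1), (1, 2)], [(1, 0), (1, 1), (2, 0), (3, 0)], [(0, 0)], [5], [(3, 0, [1]), (4,
      0, [1])]⟩,
    ⟨[(0, 1), (1, 2), (1, 4)], [(1, 0), (1, 1), (4, 0)], [], [2, 7], [(4, 0, [1])]⟩,
    ⟨[(1, 4)], [(1, 0), (2, 0), (3, 0), (3, 3), (4, 0), (4, 3)], [(0, 3)], [5], [(3, 0,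
      [1]), (7, 3, [1])]⟩]
  Ta := [((0, 1), 0, 6), ((0, 5), 0, 2), ((3, 7), 0, 3), ((4, 8), 0, 5), ((4, 9), 0, 7)]
  Tb := [((0, 1, 5), 0, 6, 2), ((1, 0, 2), 6, 0, 1), ((2, 1, 6), 1, 6, 4), ((4, 8, 9), 0, 5, 7),
    ((5, 0, 9), 2, 0, 7), ((6, 2, 7), 4, 1, 3), ((7, 3, 6), 3, 0, 4), ((7, 3, 8), 3, 0, 5),
    ((7, 6, 8), 3, 4, 5), ((8, 4, 7), 5, 0, 3), ((9, 4, 5), 7, 0, 2)]
  Tc := [(1, 0, 3)]
  Td := [((0, 1), (0, 1), 6), ((0, 1), (0, 5), 2), ((0, 1), (3, 7), 3), ((0, 1), (4, 8), 5), ((0,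
    1), (4, 9), 7), ((1, 0), (2, 1), 6), ((1, 0), (2, 6), 4), ((1, 3), (2, 1), 6), ((1, 3),
    (2, 6), 4), ((3, 1), (7, 3), 0), ((3, 1), (7, 6), 4), ((3, 1), (7, 8), 5)]
  G := [[0, 0xc1a16128c161a184c161a144e, 0x182cca64a311a12a6823c4cc6aa66111611ac2c8c,
    0x111162c161a1c411481a1631182111c6c8c, 0x1111641216381441a16a58c1a1611111a2c8c], [0,
    0x112c1216548c1a16128c1a16188e, 0, 0x4121641216688121a8c161a2cc1,
    0xc1a16221a1c4121681a16ec81], [0, 0xc161a1441188161a324c1a16188e, 0,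
    0x444c8caac65411c6dca28c1, 0x11a88a614a22a6cccaaaa62581]]

noncomputable def n3323 : Ent := ⟨e3323, noF, [], [], []⟩

def c3323 : PLift (Cov.check n3323.C.D v3323 = true) := ⟨by decide +kernel⟩

def b3323 : PLift (entF (fidx ts) 400 3323 n3323 = true) := ⟨by decide +kernel⟩

theorem g3323 : GoodF (fidx ts) 400 3323 := GoodF.ofV v3323 n3323 c3323.down b3323.down

/-- 4954544:2524 -/
noncomputable def e3324 : SCfg where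
  D := {
    a := 7
    L := 11
    kp := 8
    inn := [(0, 1), (1, 0), (1, 2), (1, 4), (1, 5), (2, 1), (2, 3), (3, 2), (4, 1), (4, 6), (5, 1), (6,
      4)]
    mix := [(0, 0), (0, 1), (0, 2), (1, 0), (1, 2), (1, 3), (1, 4), (1, 5), (2, 2), (2, 3), (2, 6), (3,
      3), (3, 6), (3, 7), (4, 3), (4, 4), (4, 8), (5, 4), (5, 5), (5, 9), (6, 3), (6, 8), (6, 10)]
    cl := [0, 6, 1, 0, 0, 2, 3, 5, 4, 7, 8]
    chq := [(0, 1), (1, 0), (1, 5), (5, 1)]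
    rng := [(0, 1), (0, 5), (1, 0), (1, 2), (2, 1), (2, 6), (3, 7), (3, 10), (4, 8), (4, 9), (5, 0),
      (5, 9), (6, 2), (6, 7), (7, 3), (7, 6), (8, 4), (8, 10), (9, 4), (9, 5), (10, 3), (10, 8)]
    lev := [] }
  links := [[1, 7, 8, 9], [7, 0, 9, 2, 10, 4, 11, 5, 12], [10, 1, 9, 13, 3], [10, 2, 13, 14], [11, 1, 10,
    6, 15], [12, 1, 11, 16], [15, 4, 10, 17]]
  P := {
    a := 7
    N := 18
    nb := [898, 7861, 9738, 25604, 35906, 71682, 164880, 4355, 641, 8455, 147550, 98354, 65698, 16908,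
      9224, 133200, 6176, 33856]
    tri := [(0, 1, 7), (0, 1, 9), (0, 7, 8), (0, 8, 9), (1, 2, 9), (1, 2, 10), (1, 4, 10), (1, 4, 11),
      (1, 5, 11), (1, 5, 12), (1, 7, 12), (2, 3, 10), (2, 3, 13), (2, 9, 13), (3, 10, 14), (3, 13,
      14), (4, 6, 10), (4, 6, 15), (4, 11, 15), (5, 11, 16), (5, 12, 16), (6, 10, 17), (6, 15,
      17)]
    fin := [0, 0, 2, 2, 0, 0, 0, 0, 8, 2, 0, 0, 12, 13, 14, 15, 16, 17]
    chd := [(0, 2), (2, 14)]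
    steps := [(0, 1), (0, 4), (0, 5), (0, 6), (0, 7), (0, 10), (0, 11), (2, 3), (2, 9)] }
  rep := [0, 2, 12, 13, 15, 14, 8, 16, 17]

noncomputable def v3324 : Cov.CovD where
  P := 3
  N := 6
  pl := [1, 5, 6, 8, 9, 10]
  lev := [⟨[], [], [(0, 1)], [6], [(0, 0, [1]), (2, 1, [0, 5])]⟩,
    ⟨[], [(0, 0), (0, 1)], [(0, 0), (0, 1)], [2], [(0, 0, [1]), (2, 1, [0, 5]), (3, 0,
      [1]), (4, 0, [1])]⟩,
    ⟨[(0, 1)], [(0, 1), (1, 0), (1, 1)], [(0, 1)], [3], [(2, 1, [0, 5]), (3, 0, [1])]⟩,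
    ⟨[(1, 2)], [(1, 0), (2, 0), (2, 1), (2, 5)], [(0, 5)], [3], [(3, 0, [1]), (7, 5, [1])]⟩,
    ⟨[(0, 1), (1, 2)], [(1, 0), (1, 1), (2, 0), (3, 0)], [(0, 0)], [4], [(3, 0, [1]), (4,
      0, [1])]⟩,
    ⟨[(0, 1), (1, 2), (1, 4)], [(1, 0), (1, 1), (4, 0)], [], [2, 7], [(4, 0, [1])]⟩,
    ⟨[(1, 4)], [(1, 0), (2, 0), (3, 0), (4, 0)], [], [4, 8], [(3, 0, [1])]⟩]
  Ta := [((0, 1), 0, 6), ((0, 5), 0, 2), ((3, 7), 0, 5), ((3, 10), 0, 8), ((4, 8), 0, 4), ((4,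
    9), 0, 7)]
  Tb := [((0, 1, 5), 0, 6, 2), ((1, 0, 2), 6, 0, 1), ((2, 1, 6), 1, 6, 3), ((3, 7, 10), 0, 5, 8),
    ((4, 8, 9), 0, 4, 7), ((5, 0, 9), 2, 0, 7), ((6, 2, 7), 3, 1, 5), ((7, 3, 6), 5, 0, 3),
    ((8, 4, 10), 4, 0, 8), ((9, 4, 5), 7, 0, 2), ((10, 3, 8), 8, 0, 4)]
  Tc := [(1, 0, 5)]
  Td := [((0, 1), (0, 1), 6), ((0, 1), (0, 5), 2), ((0, 1), (3, 7), 5), ((0, 1), (3, 10), 8),
    ((0, 1), (4, 8), 4), ((0, 1), (4, 9), 7), ((1, 0), (2, 1), 6), ((1, 0), (2, 6), 3), ((1,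
    5), (2, 1), 6), ((1, 5), (2, 6), 3), ((5, 1), (7, 3), 0), ((5, 1), (7, 6), 3)]
  G := [[0, 0xe121c1a16168118e145112268112c18984e,
    0x141166c2434188c8666ca38c116146a223182cc6a463c8c, 0x1111a2c161a1c4111162c1a161c8c,
    0x11411116112ea12c1a16a58111162c1a161c8c], [0, 0xc1a16128c1a16188c161a144e, 0,
    0xc1a16c1a1664c161ac161aa8c1, 0xc1a162c1a16c1a16c1a16ec81], [0,
    0x11281148121a3a4c1a1614141c81188c161a1c4e, 0, 0xcccaac614c1c16ca28c1,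
    0x1218d6aeccaaaa63ccaaaa62581]]

noncomputable def n3324 : Ent := ⟨e3324, noF, [], [], [(14, 17, [6903326391201334775872065844685381424292761054348340378595029943300097, 0])]⟩

def c3324 : PLift (Cov.check n3324.C.D v3324 = true) := ⟨by decide +kernel⟩

def b3324 : PLift (entF (fidx ts) 400 3324 n3324 = true) := ⟨by decide +kernel⟩

theorem g3324 : GoodF (fidx ts) 400 3324 := GoodF.ofV v3324 n3324 c3324.down b3324.down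

/-- 4945544:2525/2 -/
noncomputable def e3325 : SCfg where
  D := {
    a := 7
    L := 9
    kp := 6
    inn := [(0, 1), (1, 0), (1, 2), (1, 3), (1, 4), (2, 1), (3, 1), (3, 5), (4, 1), (4, 6), (5, 3), (6,
      4)]
    mix := [(0, 0), (0, 1), (0, 2), (1, 0), (1, 2), (1, 3), (1, 4), (1, 5), (2, 2), (2, 3), (2, 6), (3,
      3), (3, 4), (3, 7), (4, 4), (4, 5), (4, 8), (5, 3), (5, 6), (5, 7), (6, 4), (6, 7), (6, 8)]
    cl := [0, 6, 3, 0, 0, 2, 4, 1, 5]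
    chq := [(0, 3), (1, 2), (2, 1), (3, 0)]
    rng := [(0, 1), (0, 5), (1, 0), (1, 2), (2, 1), (2, 6), (3, 6), (4, 7), (5, 0), (5, 8), (6, 2), (6,
      3), (6, 7), (7, 4), (7, 6), (7, 8), (8, 5), (8, 7)]
    lev := [] }
  links := [[1, 7, 8, 9], [7, 0, 9, 2, 10, 3, 11, 4, 12], [10, 1, 9, 13], [11, 1, 10, 5, 14], [12, 1, 11,
    6, 15], [14, 3, 10, 13], [15, 4, 11, 14]]
  P := {
    a := 7
    N := 16
    nb := [898, 7837, 9730, 19490, 38978, 25608, 51216, 4355, 641, 8455, 8238, 16474, 32914, 17956,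
      43112, 20560]
    tri := [(0, 1, 7), (0, 1, 9), (0, 7, 8), (0, 8, 9), (1, 2, 9), (1, 2, 10), (1, 3, 10), (1, 3, 11),
      (1, 4, 11), (1, 4, 12), (1, 7, 12), (2, 9, 13), (2, 10, 13), (3, 5, 10), (3, 5, 14), (3, 11,
      14), (4, 6, 11), (4, 6, 15), (4, 12, 15), (5, 10, 13), (5, 13, 14), (6, 11, 14), (6, 14,
      15)]
    fin := [0, 0, 0, 0, 4, 0, 4, 0, 8, 9, 0, 0, 12, 13, 4, 15]
    chd := [(0, 9), (12, 4)]
    steps := [(0, 1), (0, 2), (0, 3), (0, 7), (0, 10), (0, 5), (0, 11), (4, 6), (4, 14)] }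
  rep := [0, 4, 12, 9, 13, 15, 8]

noncomputable def v3325 : Cov.CovD where
  P := 3
  N := 4
  pl := [1, 6, 8]
  lev := [⟨[], [], [(0, 3)], [6], [(0, 0, [3]), (2, 3, [0])]⟩,
    ⟨[], [(0, 0), (0, 2), (0, 3)], [(0, 0), (0, 2), (0, 3), (2, 3)], [], [(0, 0, [3]), (2,
      3, [0]), (3, 0, [3]), (4, 0, [3]), (5, 2, [1])]⟩,
    ⟨[(0, 1)], [(0, 3), (1, 0), (1, 2), (1, 3)], [(0, 3)], [4], [(2, 3, [0]), (3, 0, [3])]⟩,
    ⟨[(0, 1), (1, 2)], [(1, 0), (1, 1), (1, 2), (1, 3), (2, 0)], [(0, 0), (0, 1)], [], [(3,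
      0, [3]), (4, 0, [3]), (7, 1, [2])]⟩,
    ⟨[(0, 1), (1, 2), (1, 3)], [(1, 0), (1, 2), (1, 3), (3, 0)], [(0, 2)], [5], [(4, 0,
      [3]), (5, 2, [1])]⟩,
    ⟨[(1, 3)], [(1, 0), (2, 0), (3, 0), (3, 1)], [(0, 1)], [4], [(3, 0, [3]), (7, 1, [2])]⟩,
    ⟨[(1, 4)], [(1, 0), (3, 0), (3, 1), (4, 0), (4, 1), (4, 2), (5, 1)], [(0, 1)], [5],
      [(4, 0, [3]), (7, 1, [2])]⟩]
  Ta := [((0, 1), 0, 6), ((0, 5), 0, 2), ((3, 6), 0, 4), ((4, 7), 0, 1)]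
  Tb := [((0, 1, 5), 0, 6, 2), ((1, 0, 2), 6, 0, 3), ((2, 1, 6), 3, 6, 4), ((5, 0, 8), 2, 0, 5),
    ((6, 2, 3), 4, 3, 0), ((6, 2, 7), 4, 3, 1), ((6, 3, 7), 4, 0, 1), ((7, 4, 6), 1, 0, 4),
    ((7, 4, 8), 1, 0, 5), ((7, 6, 8), 1, 4, 5), ((8, 5, 7), 5, 2, 1)]
  Tc := []
  Td := [((0, 3), (0, 1), 6), ((0, 3), (0, 5), 2), ((0, 3), (3, 6), 4), ((0, 3), (4, 7), 1), ((1,
    2), (7, 4), 0), ((1, 2), (7, 6), 4), ((1, 2), (7, 8), 5), ((2, 1), (5, 0), 0), ((2, 1),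
    (5, 8), 5), ((3, 0), (2, 1), 6), ((3, 0), (2, 6), 4)]
  G := [[0, 0, 0x41c18c641888c11ca81418c11cc812e, 0x922418c128c228345124291282ce,
    0x44843484c48c3458182444c14a4991288141986a88419848cc4c9892e], [0, 0, 0,
    0xc228245224249228292249422cc7, 0x112454284188e2884894844498c2884834844438c88c44c982a7],
    [0, 0x22644ac4188c22cc81c1, 0, 0xc12228c22828c22814b,
    0x814194228141a84281489482c82444cc4a4981844cc243af]]

noncomputable def n3325 : Ent := ⟨e3325, noF, [], [], []⟩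

def c3325 : PLift (Cov.check n3325.C.D v3325 = true) := ⟨by decide +kernel⟩

def b3325 : PLift (entF (fidx ts) 400 3325 n3325 = true) := ⟨by decide +kernel⟩

theorem g3325 : GoodF (fidx ts) 400 3325 := GoodF.ofV v3325 n3325 c3325.down b3325.down

/-- 4945544:2525/1 -/
noncomputable def e3326 : SCfg where
  D := {
    a := 7
    L := 10
    kp := 7
    inn := [(0, 1), (1, 0), (1, 2), (1, 3), (1, 4), (2, 1), (3, 1), (3, 5), (4, 1), (4, 6), (5, 3), (6,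
      4)]
    mix := [(0, 0), (0, 1), (0, 2), (1, 0), (1, 2), (1, 3), (1, 4), (1, 5), (2, 2), (2, 3), (2, 6), (3,
      3), (3, 4), (3, 7), (4, 4), (4, 5), (4, 8), (5, 3), (5, 6), (5, 7), (6, 4), (6, 8), (6, 9)]
    cl := [0, 7, 1, 0, 0, 2, 3, 4, 5, 6]
    chq := [(0, 1), (1, 0), (2, 6), (6, 2)]
    rng := [(0, 1), (0, 5), (1, 0), (1, 2), (2, 1), (2, 6), (3, 6), (4, 7), (4, 9), (5, 0), (5, 8), (6,
      2), (6, 3), (6, 7), (7, 4), (7, 6), (8, 5), (8, 9), (9, 4), (9, 8)]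
    lev := [] }
  links := [[1, 7, 8, 9], [7, 0, 9, 2, 10, 3, 11, 4, 12], [10, 1, 9, 13], [11, 1, 10, 5, 14], [12, 1, 11,
    6, 15], [14, 3, 10, 13], [15, 4, 11, 16]]
  P := {
    a := 7
    N := 17
    nb := [898, 7837, 9730, 19490, 38978, 25608, 100368, 4355, 641, 8455, 8238, 82010, 32914, 17956,
      10280, 69712, 34880]
    tri := [(0, 1, 7), (0, 1, 9), (0, 7, 8), (0, 8, 9), (1, 2, 9), (1, 2, 10), (1, 3, 10), (1, 3, 11),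
      (1, 4, 11), (1, 4, 12), (1, 7, 12), (2, 9, 13), (2, 10, 13), (3, 5, 10), (3, 5, 14), (3, 11,
      14), (4, 6, 11), (4, 6, 15), (4, 12, 15), (5, 10, 13), (5, 13, 14), (6, 11, 16), (6, 15,
      16)]
    fin := [0, 0, 0, 0, 4, 0, 4, 0, 8, 9, 0, 0, 12, 13, 14, 15, 4]
    chd := [(0, 9), (12, 4)]
    steps := [(0, 1), (0, 2), (0, 3), (0, 7), (0, 10), (0, 5), (0, 11), (4, 6), (4, 16)] }
  rep := [0, 9, 12, 13, 14, 15, 4, 8]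

noncomputable def v3326 : Cov.CovD where
  P := 3
  N := 5
  pl := [1, 6, 7, 8]
  lev := [⟨[], [], [(0, 1)], [7], [(0, 0, [1]), (2, 1, [0])]⟩,
    ⟨[], [(0, 0), (0, 1), (0, 2)], [(0, 0), (0, 1), (0, 2), (1, 2)], [], [(0, 0, [1]), (2,
      1, [0]), (3, 0, [1]), (4, 0, [1]), (5, 2, [6])]⟩,
    ⟨[(0, 1)], [(0, 1), (1, 0), (1, 1), (1, 2)], [(0, 1)], [3], [(2, 1, [0]), (3, 0, [1])]⟩,
    ⟨[(0, 1), (1, 2)], [(1, 0), (1, 1), (1, 2), (2, 0)], [(0, 0)], [4], [(3, 0, [1]), (4,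
      0, [1])]⟩,
    ⟨[(0, 1), (1, 2), (1, 3)], [(1, 0), (1, 1), (1, 2), (3, 0)], [(0, 2)], [5], [(4, 0,
      [1]), (5, 2, [6])]⟩,
    ⟨[(1, 3)], [(1, 0), (2, 0), (3, 0)], [], [3, 4], [(3, 0, [1])]⟩,
    ⟨[(1, 4)], [(1, 0), (3, 0), (4, 0), (4, 2), (4, 6)], [(0, 6)], [5], [(4, 0, [1]), (9,
      6, [2])]⟩]
  Ta := [((0, 1), 0, 7), ((0, 5), 0, 2), ((3, 6), 0, 3), ((4, 7), 0, 4), ((4, 9), 0, 6)]
  Tb := [((0, 1, 5), 0, 7, 2), ((1, 0, 2), 7, 0, 1), ((2, 1, 6), 1, 7, 3), ((4, 7, 9), 0, 4, 6),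
    ((5, 0, 8), 2, 0, 5), ((6, 2, 3), 3, 1, 0), ((6, 2, 7), 3, 1, 4), ((6, 3, 7), 3, 0, 4),
    ((7, 4, 6), 4, 0, 3), ((8, 5, 9), 5, 2, 6), ((9, 4, 8), 6, 0, 5)]
  Tc := []
  Td := [((0, 1), (0, 1), 7), ((0, 1), (0, 5), 2), ((0, 1), (3, 6), 3), ((0, 1), (4, 7), 4), ((0,
    1), (4, 9), 6), ((1, 0), (2, 1), 7), ((1, 0), (2, 6), 3), ((2, 6), (5, 0), 0), ((2, 6),
    (5, 8), 5), ((6, 2), (9, 4), 0), ((6, 2), (9, 8), 5)]
  G := [[0, 0x31215443121582111c2acc121943121982211c2e4a,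
    0x11c1461211a66111888c11c11ca116116aa14c, 0x22c11cc3362265a141121c4438289c2229a1cc,
    0x51413255c44c3a2423658aac44c314a41aa618c], [0,
    0x1121c81121c2a42114c448212158114862182111c68ce, 0, 0x1424c1222c642818c32225a8c1,
    0x584835242361444a55a44a96c81], [0, 0xc4215214641121c82c312292842142c121582111c4e8e, 0,
    0x64444eac28ca66a2ca1c1, 0x46cecca46aecaa6181]]

noncomputable def n3326 : Ent := ⟨e3326, noF, [], [], [(14, 16, [1580044410770988437309982408355971841652082177953823432505702731777, 0])]⟩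

def c3326 : PLift (Cov.check n3326.C.D v3326 = true) := ⟨by decide +kernel⟩

def b3326 : PLift (entF (fidx ts) 400 3326 n3326 = true) := ⟨by decide +kernel⟩

theorem g3326 : GoodF (fidx ts) 400 3326 := GoodF.ofV v3326 n3326 c3326.down b3326.down

/-- 4945544:2525/3 -/
noncomputable def e3327 : SCfg where
  D := {
    a := 7
    L := 10
    kp := 7
    inn := [(0, 1), (1, 0), (1, 2), (1, 3), (1, 4), (2, 1), (3, 1), (3, 5), (4, 1), (4, 6), (5, 3), (6,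
      4)]
    mix := [(0, 0), (0, 1), (0, 2), (1, 0), (1, 2), (1, 3), (1, 4), (1, 5), (2, 2), (2, 3), (2, 6), (3,
      3), (3, 4), (3, 7), (4, 4), (4, 5), (4, 8), (5, 3), (5, 7), (5, 9), (6, 4), (6, 7), (6, 8)]
    cl := [0, 5, 1, 0, 0, 2, 6, 3, 4, 7]
    chq := [(0, 1), (1, 0), (2, 3), (3, 2)]
    rng := [(0, 1), (0, 5), (1, 0), (1, 2), (2, 1), (2, 6), (3, 6), (3, 9), (4, 7), (5, 0), (5, 8), (6,
      2), (6, 3), (7, 4), (7, 8), (7, 9), (8, 5), (8, 7), (9, 3), (9, 7)]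
    lev := [] }
  links := [[1, 7, 8, 9], [7, 0, 9, 2, 10, 3, 11, 4, 12], [10, 1, 9, 13], [11, 1, 10, 5, 14], [12, 1, 11,
    6, 15], [14, 3, 10, 16], [15, 4, 11, 14]]
  P := {
    a := 7
    N := 17
    nb := [898, 7837, 9730, 19490, 38978, 82952, 51216, 4355, 641, 8455, 73774, 16474, 32914, 1540,
      100456, 20560, 17440]
    tri := [(0, 1, 7), (0, 1, 9), (0, 7, 8), (0, 8, 9), (1, 2, 9), (1, 2, 10), (1, 3, 10), (1, 3, 11),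
      (1, 4, 11), (1, 4, 12), (1, 7, 12), (2, 9, 13), (2, 10, 13), (3, 5, 10), (3, 5, 14), (3, 11,
      14), (4, 6, 11), (4, 6, 15), (4, 12, 15), (5, 10, 16), (5, 14, 16), (6, 11, 14), (6, 14,
      15)]
    fin := [0, 0, 0, 0, 4, 0, 4, 0, 8, 9, 0, 0, 12, 13, 4, 15, 16]
    chd := [(0, 9), (12, 4)]
    steps := [(0, 1), (0, 2), (0, 3), (0, 5), (0, 7), (0, 10), (0, 11), (4, 6), (4, 14)] }
  rep := [0, 9, 12, 4, 15, 8, 13, 16]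

noncomputable def v3327 : Cov.CovD where
  P := 3
  N := 5
  pl := [1, 6, 8, 9]
  lev := [⟨[], [], [(0, 1)], [5], [(0, 0, [1]), (2, 1, [0])]⟩,
    ⟨[], [(0, 0), (0, 1), (0, 2)], [(0, 0), (0, 1), (0, 2), (1, 2)], [], [(0, 0, [1]), (2,
      1, [0]), (3, 0, [1]), (4, 0, [1]), (5, 2, [3])]⟩,
    ⟨[(0, 1)], [(0, 1), (1, 0), (1, 1), (1, 2)], [(0, 1)], [6], [(2, 1, [0]), (3, 0, [1])]⟩,
    ⟨[(0, 1), (1, 2)], [(1, 0), (1, 1), (1, 2), (1, 3), (2, 0)], [(0, 0), (0, 3)], [], [(3,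
      0, [1]), (4, 0, [1]), (7, 3, [2])]⟩,
    ⟨[(0, 1), (1, 2), (1, 3)], [(1, 0), (1, 1), (1, 2), (3, 0)], [(0, 2)], [4], [(4, 0,
      [1]), (5, 2, [3])]⟩,
    ⟨[(1, 3)], [(1, 0), (2, 0), (3, 0), (3, 3)], [(0, 3)], [7], [(3, 0, [1]), (7, 3, [2])]⟩,
    ⟨[(1, 4)], [(1, 0), (3, 0), (3, 3), (4, 0), (4, 2), (4, 3), (5, 3)], [(0, 3)], [4],
      [(4, 0, [1]), (7, 3, [2])]⟩]
  Ta := [((0, 1), 0, 5), ((0, 5), 0, 2), ((3, 6), 0, 6), ((3, 9), 0, 7), ((4, 7), 0, 3)]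
  Tb := [((0, 1, 5), 0, 5, 2), ((1, 0, 2), 5, 0, 1), ((2, 1, 6), 1, 5, 6), ((3, 6, 9), 0, 6, 7),
    ((5, 0, 8), 2, 0, 4), ((6, 2, 3), 6, 1, 0), ((7, 4, 8), 3, 0, 4), ((7, 4, 9), 3, 0, 7),
    ((7, 8, 9), 3, 4, 7), ((8, 5, 7), 4, 2, 3), ((9, 3, 7), 7, 0, 3)]
  Tc := []
  Td := [((0, 1), (0, 1), 5), ((0, 1), (0, 5), 2), ((0, 1), (3, 6), 6), ((0, 1), (3, 9), 7), ((0,
    1), (4, 7), 3), ((1, 0), (2, 1), 5), ((1, 0), (2, 6), 6), ((2, 3), (5, 0), 0), ((2, 3),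
    (5, 8), 4), ((3, 2), (7, 4), 0), ((3, 2), (7, 8), 4), ((3, 2), (7, 9), 7)]
  G := [[0, 0x81841619a441161c228a111c284e, 0x41444112118114e818212acc11c11c611a11ac618c,
    0xb1a15245131c28c141e421812e821cc, 0x48c84c3226423618a1c1345191a4c8c], [0,
    0xa111c2243151c2488182111ca84e, 0, 0x88a289226116ca281853e4269ac41,
    0x9a2e84ce34952e84c31286c81], [0, 0xa111c2241161c2482143111ca84e, 0,
    0x22c42c22aa4aec6181, 0x44ccc2ea44a24a6181]]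

noncomputable def n3327 : Ent := ⟨e3327, noF, [], [], [(13, 16, [1580044410770988437309982408355971841652082177953823432505702731777, 0])]⟩

def c3327 : PLift (Cov.check n3327.C.D v3327 = true) := ⟨by decide +kernel⟩

def b3327 : PLift (entF (fidx ts) 400 3327 n3327 = true) := ⟨by decide +kernel⟩

theorem g3327 : GoodF (fidx ts) 400 3327 := GoodF.ofV v3327 n3327 c3327.down b3327.down

/-- 4945544:2525 -/
noncomputable def e3328 : SCfg where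
  D := {
    a := 7
    L := 11
    kp := 8
    inn := [(0, 1), (1, 0), (1, 2), (1, 3), (1, 4), (2, 1), (3, 1), (3, 5), (4, 1), (4, 6), (5, 3), (6,
      4)]
    mix := [(0, 0), (0, 1), (0, 2), (1, 0), (1, 2), (1, 3), (1, 4), (1, 5), (2, 2), (2, 3), (2, 6), (3,
      3), (3, 4), (3, 7), (4, 4), (4, 5), (4, 8), (5, 3), (5, 7), (5, 9), (6, 4), (6, 8), (6, 10)]
    cl := [0, 6, 1, 0, 0, 2, 7, 3, 4, 8, 5]
    chq := [(0, 1), (1, 0), (2, 5), (5, 2)]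
    rng := [(0, 1), (0, 5), (1, 0), (1, 2), (2, 1), (2, 6), (3, 6), (3, 9), (4, 7), (4, 10), (5, 0),
      (5, 8), (6, 2), (6, 3), (7, 4), (7, 9), (8, 5), (8, 10), (9, 3), (9, 7), (10, 4), (10, 8)]
    lev := [] }
  links := [[1, 7, 8, 9], [7, 0, 9, 2, 10, 3, 11, 4, 12], [10, 1, 9, 13], [11, 1, 10, 5, 14], [12, 1, 11,
    6, 15], [14, 3, 10, 16], [15, 4, 11, 17]]
  P := {
    a := 7
    N := 18
    nb := [898, 7837, 9730, 19490, 38978, 82952, 165904, 4355, 641, 8455, 73774, 147546, 32914, 1540,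
      67624, 135248, 17440, 34880]
    tri := [(0, 1, 7), (0, 1, 9), (0, 7, 8), (0, 8, 9), (1, 2, 9), (1, 2, 10), (1, 3, 10), (1, 3, 11),
      (1, 4, 11), (1, 4, 12), (1, 7, 12), (2, 9, 13), (2, 10, 13), (3, 5, 10), (3, 5, 14), (3, 11,
      14), (4, 6, 11), (4, 6, 15), (4, 12, 15), (5, 10, 16), (5, 14, 16), (6, 11, 17), (6, 15,
      17)]
    fin := [0, 0, 0, 0, 4, 0, 4, 0, 8, 9, 0, 0, 12, 13, 14, 15, 16, 4]
    chd := [(0, 9), (12, 4)]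
    steps := [(0, 1), (0, 2), (0, 3), (0, 5), (0, 7), (0, 10), (0, 11), (4, 6), (4, 17)] }
  rep := [0, 9, 12, 14, 15, 4, 8, 13, 16]

noncomputable def v3328 : Cov.CovD where
  P := 3
  N := 6
  pl := [1, 6, 7, 8, 9]
  lev := [⟨[], [], [(0, 1)], [6], [(0, 0, [1]), (2, 1, [0])]⟩,
    ⟨[], [(0, 0), (0, 1), (0, 2)], [(0, 0), (0, 1), (0, 2), (1, 2)], [], [(0, 0, [1]), (2,
      1, [0]), (3, 0, [1]), (4, 0, [1]), (5, 2, [5])]⟩,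
    ⟨[(0, 1)], [(0, 1), (1, 0), (1, 1), (1, 2)], [(0, 1)], [7], [(2, 1, [0]), (3, 0, [1])]⟩,
    ⟨[(0, 1), (1, 2)], [(1, 0), (1, 1), (1, 2), (2, 0)], [(0, 0)], [3], [(3, 0, [1]), (4,
      0, [1])]⟩,
    ⟨[(0, 1), (1, 2), (1, 3)], [(1, 0), (1, 1), (1, 2), (3, 0)], [(0, 2)], [4], [(4, 0,
      [1]), (5, 2, [5])]⟩,
    ⟨[(1, 3)], [(1, 0), (2, 0), (3, 0)], [], [3, 8], [(3, 0, [1])]⟩,
    ⟨[(1, 4)], [(1, 0), (3, 0), (4, 0), (4, 2), (4, 5)], [(0, 5)], [4], [(4, 0, [1]), (10,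
      5, [2])]⟩]
  Ta := [((0, 1), 0, 6), ((0, 5), 0, 2), ((3, 6), 0, 7), ((3, 9), 0, 8), ((4, 7), 0, 3), ((4,
    10), 0, 5)]
  Tb := [((0, 1, 5), 0, 6, 2), ((1, 0, 2), 6, 0, 1), ((2, 1, 6), 1, 6, 7), ((3, 6, 9), 0, 7, 8),
    ((4, 7, 10), 0, 3, 5), ((5, 0, 8), 2, 0, 4), ((6, 2, 3), 7, 1, 0), ((7, 4, 9), 3, 0, 8),
    ((8, 5, 10), 4, 2, 5), ((9, 3, 7), 8, 0, 3), ((10, 4, 8), 5, 0, 4)]
  Tc := []
  Td := [((0, 1), (0, 1), 6), ((0, 1), (0, 5), 2), ((0, 1), (3, 6), 7), ((0, 1), (3, 9), 8), ((0,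
    1), (4, 7), 3), ((0, 1), (4, 10), 5), ((1, 0), (2, 1), 6), ((1, 0), (2, 6), 7), ((2, 5),
    (5, 0), 0), ((2, 5), (5, 8), 4), ((5, 2), (10, 4), 0), ((5, 2), (10, 8), 4)]
  G := [[0, 0x2112314468c12152314318c2114e8314318c3188a4e,
    0x11c1461211a66118881c11c11ca116116aa14c, 0x22c11cc126216ca1411c22cc182ca22d618c,
    0x55c44c3a5a44a36184124412411c811a44aa6d8c], [0,
    0x2111c8211312156a421143144c8314d18a318211ac4e, 0,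
    0x3422c53222a56c3c22c533a22a96c38888c1, 0x55c44c355a44a365ac44c355a44a96c81], [0,
    0x61a15221e154683121542111c2681121c884e, 0, 0xeec22cce662a6ca141, 0x46cecca46aecaa6181]]

noncomputable def n3328 : Ent := ⟨e3328, noF, [], [], [(13, 16, [7334685537875745012586738086077695515070955365108989538292687707299841, 0]), (14, 17, [6903326391201334775872065844685381424292761054348340378595029943316481, 0])]⟩

def c3328 : PLift (Cov.check n3328.C.D v3328 = true) := ⟨by decide +kernel⟩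

def b3328 : PLift (entF (fidx ts) 400 3328 n3328 = true) := ⟨by decide +kernel⟩

theorem g3328 : GoodF (fidx ts) 400 3328 := GoodF.ofV v3328 n3328 c3328.down b3328.down

/-- 4954544:2527/1 -/
noncomputable def e3329 : SCfg where
  D := {
    a := 7
    L := 10
    kp := 7
    inn := [(0, 1), (1, 0), (1, 2), (1, 4), (1, 6), (2, 1), (2, 3), (3, 2), (4, 1), (4, 5), (5, 4), (6,
      1)]
    mix := [(0, 0), (0, 1), (0, 2), (1, 0), (1, 2), (1, 3), (1, 4), (1, 5), (2, 2), (2, 3), (2, 6), (3,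
      3), (3, 6), (3, 7), (4, 3), (4, 4), (4, 8), (5, 3), (5, 7), (5, 8), (6, 0), (6, 5), (6, 9)]
    cl := [1, 7, 0, 0, 0, 2, 3, 4, 5, 6]
    chq := [(0, 1), (0, 6), (1, 0), (6, 0)]
    rng := [(0, 1), (0, 9), (1, 0), (1, 2), (2, 1), (2, 6), (3, 7), (4, 5), (4, 8), (5, 4), (5, 9), (6,
      2), (6, 7), (7, 3), (7, 6), (7, 8), (8, 4), (8, 7), (9, 0), (9, 5)]
    lev := [] }
  links := [[1, 7, 8, 9], [7, 0, 9, 2, 10, 4, 11, 12, 6], [10, 1, 9, 13, 3], [10, 2, 13, 14], [11, 1, 10,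
    5, 15], [15, 4, 10, 14], [7, 1, 12, 16]]
  P := {
    a := 7
    N := 17
    nb := [898, 7893, 9738, 25604, 35874, 50192, 69762, 65859, 641, 8455, 16446, 36882, 67650, 16908,
      42024, 18480, 4288]
    tri := [(0, 1, 7), (0, 1, 9), (0, 7, 8), (0, 8, 9), (1, 2, 9), (1, 2, 10), (1, 4, 10), (1, 4, 11),
      (1, 6, 7), (1, 6, 12), (1, 11, 12), (2, 3, 10), (2, 3, 13), (2, 9, 13), (3, 10, 14), (3, 13,
      14), (4, 5, 10), (4, 5, 15), (4, 11, 15), (5, 10, 14), (5, 14, 15), (6, 7, 16), (6, 12, 16)]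
    fin := [0, 1, 1, 1, 1, 1, 1, 0, 8, 1, 1, 1, 12, 13, 14, 15, 16]
    chd := [(0, 1), (1, 16)]
    steps := [(0, 7), (1, 2), (1, 3), (1, 4), (1, 6), (1, 9), (1, 10), (1, 5), (1, 11)] }
  rep := [1, 0, 12, 13, 14, 15, 16, 8]

noncomputable def v3329 : Cov.CovD where
  P := 3
  N := 5
  pl := [1, 5, 6, 7, 8]
  lev := [⟨[], [], [(0, 1)], [7], [(0, 1, [0]), (2, 0, [1, 6])]⟩,
    ⟨[], [(0, 0), (0, 1)], [(0, 0), (0, 1)], [2], [(0, 1, [0]), (2, 0, [1, 6]), (3, 0, [1,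
      6]), (4, 0, [1, 6])]⟩,
    ⟨[(0, 1)], [(0, 0), (1, 0), (1, 1)], [(0, 0)], [3], [(2, 0, [1, 6]), (3, 0, [1, 6])]⟩,
    ⟨[(1, 2)], [(1, 0), (2, 0)], [], [3, 4], [(3, 0, [1, 6])]⟩,
    ⟨[(0, 1), (1, 2)], [(1, 0), (1, 1), (2, 0), (3, 0)], [(0, 0)], [5], [(3, 0, [1, 6]),
      (4, 0, [1, 6])]⟩,
    ⟨[(1, 4)], [(1, 0), (2, 0), (3, 0), (4, 0)], [], [4, 5], [(3, 0, [1, 6])]⟩,
    ⟨[(0, 1), (1, 2), (1, 4)], [(0, 1), (1, 0), (1, 1), (1, 6)], [(1, 6)], [2], [(0, 1,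
      [0]), (9, 6, [0])]⟩]
  Ta := [((2, 1), 0, 7), ((2, 6), 0, 3), ((3, 7), 0, 4), ((4, 5), 0, 2), ((4, 8), 0, 5)]
  Tb := [((0, 1, 9), 1, 7, 6), ((1, 0, 2), 7, 1, 0), ((2, 1, 6), 0, 7, 3), ((4, 5, 8), 0, 2, 5),
    ((5, 4, 9), 2, 0, 6), ((6, 2, 7), 3, 0, 4), ((7, 3, 6), 4, 0, 3), ((7, 3, 8), 4, 0, 5),
    ((7, 6, 8), 4, 3, 5), ((8, 4, 7), 5, 0, 4), ((9, 0, 5), 6, 1, 2)]
  Tc := [(0, 1, 6)]
  Td := [((0, 1), (2, 1), 7), ((0, 1), (2, 6), 3), ((0, 1), (3, 7), 4), ((0, 1), (4, 5), 2), ((0,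
    1), (4, 8), 5), ((0, 6), (2, 1), 7), ((0, 6), (2, 6), 3), ((0, 6), (3, 7), 4), ((0, 6),
    (4, 5), 2), ((0, 6), (4, 8), 5), ((1, 0), (0, 1), 7), ((1, 0), (0, 9), 6), ((6, 0), (9,
    0), 1), ((6, 0), (9, 5), 2)]
  G := [[0, 0x141261218888c11c11a614814116a11881a4e, 0,
    0x14116441811c81112a2ac1111c41211c261111a88cc,
    0x1111614116c111161418636811c21114118c12211c43e8c], [0,
    0x1814a12411c11a611112c2a811c11a6111126268e, 0, 0x1411a6411c1262618116a88c1,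
    0x181261411a6c1418611c126a681], [0, 0x114811c12a1c41441112411a21e81812a11141186a4e,
    0xc1444ccccc6a1c8c2a1ac1, 0x11c11a6111c11a61a81, 0x11c11a6111c11a61681]]

noncomputable def n3329 : Ent := ⟨e3329, noF, [], [], []⟩

def c3329 : PLift (Cov.check n3329.C.D v3329 = true) := ⟨by decide +kernel⟩

def b3329 : PLift (entF (fidx ts) 400 3329 n3329 = true) := ⟨by decide +kernel⟩

theorem g3329 : GoodF (fidx ts) 400 3329 := GoodF.ofV v3329 n3329 c3329.down b3329.down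

/-- 4954544:2527 -/
noncomputable def e3330 : SCfg where
  D := {
    a := 7
    L := 11
    kp := 8
    inn := [(0, 1), (1, 0), (1, 2), (1, 4), (1, 6), (2, 1), (2, 3), (3, 2), (4, 1), (4, 5), (5, 4), (6,
      1)]
    mix := [(0, 0), (0, 1), (0, 2), (1, 0), (1, 2), (1, 3), (1, 4), (1, 5), (2, 2), (2, 3), (2, 6), (3,
      3), (3, 6), (3, 7), (4, 3), (4, 4), (4, 8), (5, 3), (5, 8), (5, 9), (6, 0), (6, 5), (6, 10)]
    cl := [3, 6, 0, 0, 0, 1, 2, 7, 4, 8, 5]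
    chq := [(0, 3), (0, 5), (3, 0), (5, 0)]
    rng := [(0, 1), (0, 10), (1, 0), (1, 2), (2, 1), (2, 6), (3, 7), (3, 9), (4, 5), (4, 8), (5, 4),
      (5, 10), (6, 2), (6, 7), (7, 3), (7, 6), (8, 4), (8, 9), (9, 3), (9, 8), (10, 0), (10, 5)]
    lev := [] }
  links := [[1, 7, 8, 9], [7, 0, 9, 2, 10, 4, 11, 12, 6], [10, 1, 9, 13, 3], [10, 2, 13, 14], [11, 1, 10,
    5, 15], [15, 4, 10, 16], [7, 1, 12, 17]]
  P := {
    a := 7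
    N := 18
    nb := [898, 7893, 9738, 25604, 35874, 99344, 135298, 131395, 641, 8455, 81982, 36882, 133186,
      16908, 9224, 67632, 33824, 4288]
    tri := [(0, 1, 7), (0, 1, 9), (0, 7, 8), (0, 8, 9), (1, 2, 9), (1, 2, 10), (1, 4, 10), (1, 4, 11),
      (1, 6, 7), (1, 6, 12), (1, 11, 12), (2, 3, 10), (2, 3, 13), (2, 9, 13), (3, 10, 14), (3, 13,
      14), (4, 5, 10), (4, 5, 15), (4, 11, 15), (5, 10, 16), (5, 15, 16), (6, 7, 17), (6, 12, 17)]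
    fin := [0, 1, 1, 1, 1, 1, 1, 0, 8, 1, 1, 1, 12, 13, 14, 15, 16, 17]
    chd := [(0, 1), (1, 17)]
    steps := [(0, 7), (1, 2), (1, 3), (1, 4), (1, 5), (1, 6), (1, 9), (1, 10), (1, 11)] }
  rep := [1, 12, 13, 0, 15, 17, 8, 14, 16]

noncomputable def v3330 : Cov.CovD where
  P := 3
  N := 6
  pl := [1, 5, 6, 7, 8, 9]
  lev := [⟨[], [], [(0, 3)], [6], [(0, 3, [0]), (2, 0, [3, 5])]⟩,
    ⟨[], [(0, 0), (0, 3)], [(0, 0), (0, 3)], [1], [(0, 3, [0]), (2, 0, [3, 5]), (3, 0, [3,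
      5]), (4, 0, [3, 5])]⟩,
    ⟨[(0, 1)], [(0, 0), (1, 0), (1, 3)], [(0, 0)], [2], [(2, 0, [3, 5]), (3, 0, [3, 5])]⟩,
    ⟨[(1, 2)], [(1, 0), (2, 0)], [], [2, 7], [(3, 0, [3, 5])]⟩,
    ⟨[(0, 1), (1, 2)], [(1, 0), (1, 3), (2, 0), (3, 0)], [(0, 0)], [4], [(3, 0, [3, 5]),
      (4, 0, [3, 5])]⟩,
    ⟨[(1, 4)], [(1, 0), (2, 0), (3, 0), (4, 0)], [], [4, 8], [(3, 0, [3, 5])]⟩,
    ⟨[(0, 1), (1, 2), (1, 4)], [(0, 3), (1, 0), (1, 3), (1, 5)], [(3, 5)], [1], [(0, 3,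
      [0]), (10, 5, [0])]⟩]
  Ta := [((2, 1), 0, 6), ((2, 6), 0, 2), ((3, 7), 0, 7), ((3, 9), 0, 8), ((4, 5), 0, 1), ((4, 8),
    0, 4)]
  Tb := [((0, 1, 10), 3, 6, 5), ((1, 0, 2), 6, 3, 0), ((2, 1, 6), 0, 6, 2), ((3, 7, 9), 0, 7, 8),
    ((4, 5, 8), 0, 1, 4), ((5, 4, 10), 1, 0, 5), ((6, 2, 7), 2, 0, 7), ((7, 3, 6), 7, 0, 2),
    ((8, 4, 9), 4, 0, 8), ((9, 3, 8), 8, 0, 4), ((10, 0, 5), 5, 3, 1)]
  Tc := [(0, 3, 5)]
  Td := [((0, 3), (2, 1), 6), ((0, 3), (2, 6), 2), ((0, 3), (3, 7), 7), ((0, 3), (3, 9), 8), ((0,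
    3), (4, 5), 1), ((0, 3), (4, 8), 4), ((0, 5), (2, 1), 6), ((0, 5), (2, 6), 2), ((0, 5),
    (3, 7), 7), ((0, 5), (3, 9), 8), ((0, 5), (4, 5), 1), ((0, 5), (4, 8), 4), ((3, 0), (0,
    1), 6), ((3, 0), (0, 10), 5), ((5, 0), (10, 0), 3), ((5, 0), (10, 5), 1)]
  G := [[0, 0, 0x1111611116a281111a1111ac84112118114e4112118114e8ce,
    0x11c11a614811c116a18411811814126d411c116a14ce,
    0x11c11a61281111a1111aa241111c1111aa2114118111e2b8ce], [0, 0, 0,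
    0x11c116a11c116ac8411c116a11c116ac8411c11a6411c11a68c87,
    0x1111611c11a6a2811c11a621111a8a811c11a68211c116a11c116aa8cb], [0,
    0xccccc6a18aaaaa6c1461, 0, 0x11c116a184114112111e8d8411411a251148c87,
    0x11c116a18411c116a12411c11a61887]]

noncomputable def n3330 : Ent := ⟨e3330, noF, [], [], [(14, 16, [7334685537875745012586738086077695515070955365108989538292687707312129, 0])]⟩

def c3330 : PLift (Cov.check n3330.C.D v3330 = true) := ⟨by decide +kernel⟩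

def b3330 : PLift (entF (fidx ts) 400 3330 n3330 = true) := ⟨by decide +kernel⟩

theorem g3330 : GoodF (fidx ts) 400 3330 := GoodF.ofV v3330 n3330 c3330.down b3330.down

/-- 4947447:2535 -/
noncomputable def e3331 : SCfg where
  D := {
    a := 7
    L := 11
    kp := 9
    inn := [(0, 1), (1, 0), (1, 2), (1, 3), (1, 4), (1, 6), (2, 1), (2, 3), (3, 1), (3, 2), (3, 5), (3,
      6), (4, 1), (4, 6), (5, 3), (5, 6), (6, 1), (6, 3), (6, 4), (6, 5)]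
    mix := [(0, 0), (0, 1), (0, 2), (1, 0), (1, 2), (1, 3), (1, 4), (2, 3), (2, 5), (3, 5), (3, 6), (3,
      7), (4, 4), (4, 8), (5, 7), (5, 9), (6, 8), (6, 9), (6, 10)]
    cl := [1, 7, 2, 0, 0, 5, 8, 3, 6, 4, 9]
    chq := [(0, 3), (0, 4), (0, 7), (0, 8), (0, 9), (3, 0), (4, 0), (7, 0), (8, 0), (9, 0)]
    rng := [(0, 1), (0, 4), (1, 0), (1, 2), (2, 1), (2, 3), (3, 2), (3, 5), (4, 0), (4, 8), (5, 3), (5,
      6), (6, 5), (6, 7), (7, 6), (7, 9), (8, 4), (8, 10), (9, 7), (9, 10), (10, 8), (10, 9)]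
    lev := [] }
  links := [[1, 7, 8, 9], [7, 0, 9, 10, 2, 3, 6, 4, 11], [3, 1, 10, 12], [6, 1, 2, 12, 13, 14, 5], [11,
    1, 6, 15], [6, 3, 14, 16], [15, 4, 1, 3, 5, 16, 17]]
  P := {
    a := 7
    N := 18
    nb := [898, 3805, 5130, 28774, 34882, 81992, 229434, 2307, 641, 1283, 4614, 32914, 9228, 20488,
      73768, 133200, 147552, 98368]
    tri := [(0, 1, 7), (0, 1, 9), (0, 7, 8), (0, 8, 9), (1, 2, 3), (1, 2, 10), (1, 3, 6), (1, 4, 6),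
      (1, 4, 11), (1, 7, 11), (1, 9, 10), (2, 3, 12), (2, 10, 12), (3, 5, 6), (3, 5, 14), (3, 12,
      13), (3, 13, 14), (4, 6, 15), (4, 11, 15), (5, 6, 16), (5, 14, 16), (6, 15, 17), (6, 16,
      17)]
    fin := [0, 0, 2, 2, 2, 2, 2, 7, 0, 9, 2, 2, 12, 13, 14, 15, 16, 17]
    chd := [(0, 2), (2, 13), (2, 14), (2, 16), (2, 17)]
    steps := [(0, 1), (0, 8), (2, 3), (2, 5), (2, 6), (2, 4), (2, 10), (2, 11)] }
  rep := [2, 7, 9, 14, 16, 12, 15, 0, 13, 17]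

noncomputable def v3331 : Cov.CovD where
  P := 3
  N := 7
  pl := [0, 2, 5, 8]
  lev := [⟨[], [], [], [1, 2], [(1, 7, [0])]⟩,
    ⟨[], [(0, 0), (0, 7)], [(0, 0)], [1, 2], [(3, 0, [3, 4, 7, 8, 9]), (4, 0, [3, 4, 7, 8,
      9])]⟩,
    ⟨[(0, 1)], [(1, 0)], [], [5], [(3, 0, [3, 4, 7, 8, 9])]⟩,
    ⟨[(0, 1), (1, 2)], [(1, 0), (1, 3), (1, 8), (2, 0), (2, 3), (2, 8)], [(3, 8)], [5],
      [(6, 8, [0]), (7, 3, [0])]⟩,
    ⟨[(0, 1), (1, 2), (1, 3)], [(1, 0)], [], [6], [(4, 0, [3, 4, 7, 8, 9])]⟩,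
    ⟨[(1, 3), (2, 3)], [(3, 3), (3, 4), (3, 8)], [(3, 4)], [], [(7, 3, [0]), (9, 4, [0])]⟩,
    ⟨[(0, 1), (1, 2), (1, 3), (1, 4), (1, 5), (2, 3), (3, 4), (3, 5), (4, 5)], [(1, 0), (1,
      4), (1, 9), (3, 3), (3, 4), (3, 8), (3, 9), (4, 0), (4, 4), (4, 9), (5, 3), (5, 4), (5,
      9)], [(4, 9)], [6], [(9, 4, [0]), (10, 9, [0])]⟩]
  Ta := [((3, 2), 0, 2), ((3, 5), 0, 5), ((4, 0), 0, 1), ((4, 8), 0, 6)]
  Tb := [((0, 1, 4), 1, 7, 0), ((1, 0, 2), 7, 1, 2), ((2, 1, 3), 2, 7, 0), ((3, 2, 5), 0, 2, 5),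
    ((4, 0, 8), 0, 1, 6), ((5, 3, 6), 5, 0, 8), ((6, 5, 7), 8, 5, 3), ((7, 6, 9), 3, 8, 4),
    ((8, 4, 10), 6, 0, 9), ((9, 7, 10), 4, 3, 9), ((10, 8, 9), 9, 6, 4)]
  Tc := [(0, 3, 4), (0, 3, 7), (0, 3, 8), (0, 3, 9), (0, 4, 7), (0, 4, 8), (0, 4, 9), (0, 7, 8),
    (0, 7, 9), (0, 8, 9)]
  Td := [((0, 3), (3, 2), 2), ((0, 3), (3, 5), 5), ((0, 3), (4, 0), 1), ((0, 3), (4, 8), 6), ((0,
    4), (3, 2), 2), ((0, 4), (3, 5), 5), ((0, 4), (4, 0), 1), ((0, 4), (4, 8), 6), ((0, 7),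
    (3, 2), 2), ((0, 7), (3, 5), 5), ((0, 7), (4, 0), 1), ((0, 7), (4, 8), 6), ((0, 8), (3,
    2), 2), ((0, 8), (3, 5), 5), ((0, 8), (4, 0), 1), ((0, 8), (4, 8), 6), ((0, 9), (3, 2),
    2), ((0, 9), (3, 5), 5), ((0, 9), (4, 0), 1), ((0, 9), (4, 8), 6), ((3, 0), (7, 6), 8),
    ((3, 0), (7, 9), 4), ((4, 0), (9, 7), 3), ((4, 0), (9, 10), 9), ((7, 0), (1, 0), 1), ((7,
    0), (1, 2), 2), ((8, 0), (6, 5), 5), ((8, 0), (6, 7), 3), ((9, 0), (10, 8), 6), ((9, 0),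
    (10, 9), 4)]
  G := [[0, 0, 0x111e111ea1111e111e6164111e21111e81111e41e8c,
    0x1111311ae111eee635111d119a111ee15361131156116eea998c1,
    0x511e2151111b119c111eee39511113611119613cc853b11171156128af81], [0,
    0x111e21111e81111e41e4111e111ea1111e111ea1a4c, 0,
    0x5116f6451111e1464918beb112fa19e5e8911411a11e121156a7c1,
    0x1419e7198b866f1141118e595cfb8a76315313561161118e128e781]]

noncomputable def n3331 : Ent := ⟨e3331, noF, [], [], []⟩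

def c3331 : PLift (Cov.check n3331.C.D v3331 = true) := ⟨by decide +kernel⟩

def b3331 : PLift (entF (fidx ts) 400 3331 n3331 = true) := ⟨by decide +kernel⟩

theorem g3331 : GoodF (fidx ts) 400 3331 := GoodF.ofV v3331 n3331 c3331.down b3331.down

/-- 4754744:2537/2 -/
noncomputable def e3332 : SCfg where
  D := {
    a := 7
    L := 9
    kp := 6
    inn := [(0, 1), (1, 0), (1, 2), (1, 3), (2, 1), (2, 4), (3, 1), (4, 2), (4, 5), (4, 6), (5, 4), (6,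
      4)]
    mix := [(0, 0), (0, 1), (0, 2), (1, 0), (1, 2), (1, 3), (1, 4), (2, 2), (2, 3), (2, 5), (3, 3), (3,
      4), (3, 6), (4, 2), (4, 5), (4, 7), (4, 8), (5, 5), (5, 6), (5, 8), (6, 1), (6, 2), (6, 7)]
    cl := [1, 4, 0, 1, 2, 0, 5, 6, 3]
    chq := [(0, 3), (3, 0), (3, 4), (4, 3)]
    rng := [(0, 1), (0, 4), (1, 0), (1, 2), (1, 7), (2, 1), (3, 5), (3, 6), (4, 0), (4, 6), (5, 3), (5,
      6), (6, 3), (6, 4), (6, 5), (6, 8), (7, 1), (7, 8), (8, 6), (8, 7)]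
    lev := [] }
  links := [[1, 7, 8, 9], [7, 0, 9, 2, 10, 3, 11], [10, 1, 9, 4, 12], [11, 1, 10, 13], [12, 2, 9, 6, 14,
    15, 5], [12, 4, 15, 13], [14, 4, 9, 8]]
  P := {
    a := 7
    N := 16
    nb := [898, 3725, 5650, 11266, 53860, 45072, 17168, 2307, 17089, 343, 12302, 8330, 9268, 39976,
      33104, 24624]
    tri := [(0, 1, 7), (0, 1, 9), (0, 7, 8), (0, 8, 9), (1, 2, 9), (1, 2, 10), (1, 3, 10), (1, 3, 11),
      (1, 7, 11), (2, 4, 9), (2, 4, 12), (2, 10, 12), (3, 10, 13), (3, 11, 13), (4, 5, 12), (4, 5,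
      15), (4, 6, 9), (4, 6, 14), (4, 14, 15), (5, 12, 13), (5, 13, 15), (6, 8, 9), (6, 8, 14)]
    fin := [0, 0, 2, 0, 4, 2, 4, 0, 4, 2, 0, 11, 2, 13, 14, 15]
    chd := [(2, 15), (4, 15)]
    steps := [(0, 1), (0, 3), (0, 7), (0, 10), (2, 9), (2, 12), (2, 5), (4, 6), (4, 8)] }
  rep := [2, 0, 11, 15, 4, 13, 14]

noncomputable def v3332 : Cov.CovD where
  P := 3
  N := 4
  pl := [4, 6, 7]
  lev := [⟨[], [], [(0, 1), (0, 4), (1, 4)], [], [(0, 1, []), (1, 4, [3]), (2, 0, [3])]⟩,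
    ⟨[], [(0, 0), (0, 1), (0, 4)], [(0, 1), (1, 1)], [2], [(0, 1, []), (2, 0, [3]), (3, 1,
      [])]⟩,
    ⟨[(0, 1)], [(0, 0), (1, 0), (1, 1)], [(0, 0), (0, 1)], [], [(2, 0, [3]), (3, 1, []),
      (5, 0, [3])]⟩,
    ⟨[(0, 1), (1, 2)], [(1, 0), (1, 1), (2, 1)], [], [2, 5], [(3, 1, [])]⟩,
    ⟨[(1, 2)], [(0, 0), (1, 0), (2, 0), (2, 1), (2, 3)], [(0, 0), (0, 3)], [6], [(2, 0,
      [3]), (5, 0, [3]), (8, 3, [0, 4])]⟩,
    ⟨[(2, 4)], [(2, 0), (4, 0), (4, 3)], [(0, 3)], [5], [(5, 0, [3]), (8, 3, [0, 4])]⟩,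
    ⟨[(2, 4), (4, 5)], [(0, 0), (0, 4), (1, 0), (2, 0), (4, 0), (4, 3), (4, 4)], [(0, 4)],
      [6], [(1, 4, [3]), (2, 0, [3])]⟩]
  Ta := [((0, 1), 1, 4), ((0, 4), 1, 2), ((2, 1), 0, 4), ((3, 5), 1, 0), ((3, 6), 1, 5), ((5, 3),
    0, 1), ((5, 6), 0, 5)]
  Tb := [((0, 1, 4), 1, 4, 2), ((1, 0, 2), 4, 1, 0), ((1, 0, 7), 4, 1, 6), ((1, 2, 7), 4, 0, 6),
    ((3, 5, 6), 1, 0, 5), ((4, 0, 6), 2, 1, 5), ((5, 3, 6), 0, 1, 5), ((6, 3, 4), 5, 1, 2),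
    ((6, 3, 5), 5, 1, 0), ((6, 3, 8), 5, 1, 3), ((6, 4, 5), 5, 2, 0), ((6, 4, 8), 5, 2, 3),
    ((6, 5, 8), 5, 0, 3), ((7, 1, 8), 6, 4, 3), ((8, 6, 7), 3, 5, 6)]
  Tc := [(3, 0, 4)]
  Td := [((0, 3), (2, 1), 4), ((0, 3), (5, 3), 1), ((0, 3), (5, 6), 5), ((3, 0), (8, 6), 5), ((3,
    0), (8, 7), 6), ((3, 4), (8, 6), 5), ((3, 4), (8, 7), 6), ((4, 3), (1, 0), 1), ((4, 3),
    (1, 2), 0), ((4, 3), (1, 7), 6)]
  G := [[0, 0, 0x81a23c2e24842341d2e284c, 0x81823123e14828226544321e984c,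
    0x81923c2e248422262341c168c], [0, 0, 0x78a128aee45a1225ec482, 0, 0x1631a9125e1482], [0,
    0, 0x12224424446e6ea8a42e2c89, 0x2462a428a6568aaac6668ca81, 0x24416e6eaaac2e2c81], [0,
    0x82281821ac849414eca4682818e24612ac144468c, 0x14246643818a21ae2168cc82, 0,
    0x186413811a42ce24612a9c82]]

noncomputable def n3332 : Ent := ⟨e3332, noF, [], [], []⟩

def c3332 : PLift (Cov.check n3332.C.D v3332 = true) := ⟨by decide +kernel⟩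

def b3332 : PLift (entF (fidx ts) 400 3332 n3332 = true) := ⟨by decide +kernel⟩

theorem g3332 : GoodF (fidx ts) 400 3332 := GoodF.ofV v3332 n3332 c3332.down b3332.down

/-- 4754744:2537/1 -/
noncomputable def e3333 : SCfg where
  D := {
    a := 7
    L := 10
    kp := 7
    inn := [(0, 1), (1, 0), (1, 2), (1, 3), (2, 1), (2, 4), (3, 1), (4, 2), (4, 5), (4, 6), (5, 4), (6,
      4)]
    mix := [(0, 0), (0, 1), (0, 2), (1, 0), (1, 2), (1, 3), (1, 4), (2, 2), (2, 3), (2, 5), (3, 3), (3,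
      4), (3, 6), (4, 2), (4, 5), (4, 7), (4, 8), (5, 5), (5, 8), (5, 9), (6, 1), (6, 2), (6, 7)]
    cl := [1, 2, 0, 1, 4, 0, 6, 5, 3, 7]
    chq := [(0, 3), (2, 3), (3, 0), (3, 2)]
    rng := [(0, 1), (0, 4), (1, 0), (1, 2), (1, 7), (2, 1), (3, 5), (3, 6), (4, 0), (4, 6), (5, 3), (5,
      9), (6, 3), (6, 4), (7, 1), (7, 8), (8, 7), (8, 9), (9, 5), (9, 8)]
    lev := [] }
  links := [[1, 7, 8, 9], [7, 0, 9, 2, 10, 3, 11], [10, 1, 9, 4, 12], [11, 1, 10, 13], [12, 2, 9, 6, 14,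
    15, 5], [12, 4, 15, 16], [14, 4, 9, 8]]
  P := {
    a := 7
    N := 17
    nb := [898, 3725, 5650, 11266, 53860, 102416, 17168, 2307, 17089, 343, 12302, 8330, 66612, 3080,
      33104, 81968, 36896]
    tri := [(0, 1, 7), (0, 1, 9), (0, 7, 8), (0, 8, 9), (1, 2, 9), (1, 2, 10), (1, 3, 10), (1, 3, 11),
      (1, 7, 11), (2, 4, 9), (2, 4, 12), (2, 10, 12), (3, 10, 13), (3, 11, 13), (4, 5, 12), (4, 5,
      15), (4, 6, 9), (4, 6, 14), (4, 14, 15), (5, 12, 16), (5, 15, 16), (6, 8, 9), (6, 8, 14)]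
    fin := [0, 0, 2, 0, 4, 2, 4, 0, 4, 2, 0, 11, 2, 13, 14, 15, 16]
    chd := [(2, 15), (4, 15)]
    steps := [(0, 1), (0, 3), (0, 7), (0, 10), (2, 9), (2, 12), (2, 5), (4, 6), (4, 8)] }
  rep := [2, 0, 4, 15, 11, 14, 13, 16]

noncomputable def v3333 : Cov.CovD where
  P := 3
  N := 5
  pl := [4, 6, 7, 9]
  lev := [⟨[], [], [(0, 1), (0, 2), (1, 2)], [], [(0, 1, []), (1, 2, [3]), (2, 0, [3])]⟩,
    ⟨[], [(0, 0), (0, 1), (0, 2)], [(0, 1), (1, 1)], [4], [(0, 1, []), (2, 0, [3]), (3, 1,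
      [])]⟩,
    ⟨[(0, 1)], [(0, 0), (1, 0), (1, 1)], [(0, 0), (0, 1)], [], [(2, 0, [3]), (3, 1, []),
      (5, 0, [3])]⟩,
    ⟨[(0, 1), (1, 2)], [(1, 0), (1, 1), (2, 1)], [], [4, 6], [(3, 1, [])]⟩,
    ⟨[(1, 2)], [(0, 0), (1, 0), (2, 0), (2, 1), (2, 3)], [(0, 0), (0, 3)], [5], [(2, 0,
      [3]), (5, 0, [3]), (8, 3, [0, 2])]⟩,
    ⟨[(2, 4)], [(2, 0), (4, 0), (4, 3)], [(0, 3)], [7], [(5, 0, [3]), (8, 3, [0, 2])]⟩,
    ⟨[(2, 4), (4, 5)], [(0, 0), (0, 2), (1, 0), (2, 0), (4, 0), (4, 2), (4, 3)], [(0, 2)],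
      [5], [(1, 2, [3]), (2, 0, [3])]⟩]
  Ta := [((0, 1), 1, 2), ((0, 4), 1, 4), ((2, 1), 0, 2), ((3, 5), 1, 0), ((3, 6), 1, 6), ((5, 3),
    0, 1), ((5, 9), 0, 7)]
  Tb := [((0, 1, 4), 1, 2, 4), ((1, 0, 2), 2, 1, 0), ((1, 0, 7), 2, 1, 5), ((1, 2, 7), 2, 0, 5),
    ((3, 5, 6), 1, 0, 6), ((4, 0, 6), 4, 1, 6), ((5, 3, 9), 0, 1, 7), ((6, 3, 4), 6, 1, 4),
    ((7, 1, 8), 5, 2, 3), ((8, 7, 9), 3, 5, 7), ((9, 5, 8), 7, 0, 3)]
  Tc := [(3, 0, 2)]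
  Td := [((0, 3), (2, 1), 2), ((0, 3), (5, 3), 1), ((0, 3), (5, 9), 7), ((2, 3), (1, 0), 1), ((2,
    3), (1, 2), 0), ((2, 3), (1, 7), 5), ((3, 0), (8, 7), 5), ((3, 0), (8, 9), 7), ((3, 2),
    (8, 7), 5), ((3, 2), (8, 9), 7)]
  G := [[0, 0, 0x818818524412161212818a4148e4121628cc, 0x11cd22411cb228c4,
    0x28c1a9123e242122292528c2aabc28c1a3c5ac8], [0, 0,
    0x414181a121e8121a9c614121e41458121a1cc2, 0,
    0x38c2a9225e1831a9286e941231a9286e1a945883285a1cc2], [0, 0, 0, 0x999e228ccce22858,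
    0x12c824a11e28662162c18c218ec28c85aaaae286628d8], [0,
    0x846411e6418a84a441a115ea88464861164244a18cea2cac, 0, 0,
    0x218e2166118c98a216e28812c8dc144241a1e286e2a1e4d18c186a1ca4482884cd2]]

noncomputable def n3333 : Ent := ⟨e3333, noF, [], [], [(16, 13, [1580044429602293643470024699863340111275081426260889765897806299137, 0])]⟩

def c3333 : PLift (Cov.check n3333.C.D v3333 = true) := ⟨by decide +kernel⟩

def b3333 : PLift (entF (fidx ts) 400 3333 n3333 = true) := ⟨by decide +kernel⟩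

theorem g3333 : GoodF (fidx ts) 400 3333 := GoodF.ofV v3333 n3333 c3333.down b3333.down

/-- 4754744:2537/3 -/
noncomputable def e3334 : SCfg where
  D := {
    a := 7
    L := 10
    kp := 7
    inn := [(0, 1), (1, 0), (1, 2), (1, 3), (2, 1), (2, 4), (3, 1), (4, 2), (4, 5), (4, 6), (5, 4), (6,
      4)]
    mix := [(0, 0), (0, 1), (0, 2), (1, 0), (1, 2), (1, 3), (1, 4), (2, 2), (2, 3), (2, 5), (3, 3), (3,
      4), (3, 6), (4, 2), (4, 5), (4, 7), (4, 8), (5, 5), (5, 6), (5, 8), (6, 2), (6, 7), (6, 9)]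
    cl := [1, 6, 0, 1, 2, 0, 5, 3, 4, 7]
    chq := [(0, 3), (0, 4), (3, 0), (4, 0)]
    rng := [(0, 1), (0, 4), (1, 0), (1, 2), (2, 1), (2, 9), (3, 5), (3, 6), (4, 0), (4, 6), (5, 3), (5,
      6), (6, 3), (6, 4), (6, 5), (6, 8), (7, 8), (7, 9), (8, 6), (8, 7), (9, 2), (9, 7)]
    lev := [] }
  links := [[1, 7, 8, 9], [7, 0, 9, 2, 10, 3, 11], [10, 1, 9, 4, 12], [11, 1, 10, 13], [12, 2, 9, 6, 14,
    15, 5], [12, 4, 15, 13], [14, 4, 9, 16]]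
  P := {
    a := 7
    N := 17
    nb := [898, 3725, 5650, 11266, 53860, 45072, 82448, 2307, 641, 65879, 12302, 8330, 9268, 39976,
      98384, 24624, 16960]
    tri := [(0, 1, 7), (0, 1, 9), (0, 7, 8), (0, 8, 9), (1, 2, 9), (1, 2, 10), (1, 3, 10), (1, 3, 11),
      (1, 7, 11), (2, 4, 9), (2, 4, 12), (2, 10, 12), (3, 10, 13), (3, 11, 13), (4, 5, 12), (4, 5,
      15), (4, 6, 9), (4, 6, 14), (4, 14, 15), (5, 12, 13), (5, 13, 15), (6, 9, 16), (6, 14, 16)]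
    fin := [0, 0, 0, 0, 4, 4, 4, 0, 8, 4, 0, 11, 4, 13, 14, 15, 16]
    chd := [(4, 14), (4, 15)]
    steps := [(0, 1), (0, 2), (0, 3), (0, 7), (0, 10), (4, 5), (4, 6), (4, 9), (4, 12)] }
  rep := [4, 0, 11, 14, 15, 13, 8, 16]

noncomputable def v3334 : Cov.CovD where
  P := 3
  N := 5
  pl := [1, 4, 6, 9]
  lev := [⟨[], [], [(0, 1)], [6], [(0, 1, []), (2, 0, [3, 4])]⟩,
    ⟨[], [(0, 0), (0, 1)], [(0, 1), (1, 1)], [2], [(0, 1, []), (2, 0, [3, 4]), (3, 1, [])]⟩,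
    ⟨[(0, 1)], [(0, 0), (1, 0), (1, 1)], [(0, 0), (0, 1)], [], [(2, 0, [3, 4]), (3, 1, []),
      (5, 0, [3, 4])]⟩,
    ⟨[(0, 1), (1, 2)], [(1, 0), (1, 1), (2, 1)], [], [2, 5], [(3, 1, [])]⟩,
    ⟨[(1, 2)], [(0, 0), (1, 0), (2, 0), (2, 1), (2, 3), (2, 4)], [(0, 0), (0, 3), (0, 4),
      (3, 4)], [], [(2, 0, [3, 4]), (5, 0, [3, 4]), (7, 3, [0]), (8, 4, [0])]⟩,
    ⟨[(2, 4)], [(2, 0), (4, 0), (4, 3), (4, 4)], [(0, 4)], [5], [(5, 0, [3, 4]), (8, 4,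
      [0])]⟩,
    ⟨[(2, 4), (4, 5)], [(0, 0), (1, 0), (2, 0), (4, 0), (4, 3), (4, 4)], [(0, 3)], [7],
      [(2, 0, [3, 4]), (7, 3, [0])]⟩]
  Ta := [((0, 1), 1, 6), ((0, 4), 1, 2), ((2, 1), 0, 6), ((2, 9), 0, 7), ((3, 5), 1, 0), ((3, 6),
    1, 5), ((5, 3), 0, 1), ((5, 6), 0, 5)]
  Tb := [((0, 1, 4), 1, 6, 2), ((1, 0, 2), 6, 1, 0), ((2, 1, 9), 0, 6, 7), ((3, 5, 6), 1, 0, 5),
    ((4, 0, 6), 2, 1, 5), ((5, 3, 6), 0, 1, 5), ((6, 3, 4), 5, 1, 2), ((6, 3, 5), 5, 1, 0),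
    ((6, 3, 8), 5, 1, 4), ((6, 4, 5), 5, 2, 0), ((6, 4, 8), 5, 2, 4), ((6, 5, 8), 5, 0, 4),
    ((7, 8, 9), 3, 4, 7), ((8, 6, 7), 4, 5, 3), ((9, 2, 7), 7, 0, 3)]
  Tc := [(0, 3, 4)]
  Td := [((0, 3), (2, 1), 6), ((0, 3), (2, 9), 7), ((0, 3), (5, 3), 1), ((0, 3), (5, 6), 5), ((0,
    4), (2, 1), 6), ((0, 4), (2, 9), 7), ((0, 4), (5, 3), 1), ((0, 4), (5, 6), 5), ((3, 0),
    (7, 8), 4), ((3, 0), (7, 9), 7), ((4, 0), (8, 6), 5), ((4, 0), (8, 7), 3)]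
  G := [[0, 0, 0xe1425a3d23a2c48182461c635a3e28cc, 0x1e321e1c63c1685a321ca3e1c1a8c,
    0xd23211e3e1c168e1d23a29634168c], [0, 0, 0xe1965647895a9a3c58cce1488c2, 0,
    0x1e9411e31e5a1c82], [0, 0, 0x5318f11ad2e21444681116f19a52e2144468c,
    0x1221412691888c41221412691888a46ca4ac6a2c924d, 0x1812a21441681412621882c86ca42ac682c8d],
    [0, 0x1811aa122c11a41161414ec6811a411614111eec1812a8c46, 0xb412647811a11dee1c68cc82, 0,
    0x4bc413811a61ce116d2a9c82]]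

noncomputable def n3334 : Ent := ⟨e3334, noF, [], [], [(8, 16, [1580044410770988437309982408355971841652082177953823432505702760449, 0])]⟩

def c3334 : PLift (Cov.check n3334.C.D v3334 = true) := ⟨by decide +kernel⟩

def b3334 : PLift (entF (fidx ts) 400 3334 n3334 = true) := ⟨by decide +kernel⟩

theorem g3334 : GoodF (fidx ts) 400 3334 := GoodF.ofV v3334 n3334 c3334.down b3334.down

/-- 4754744:2537 -/
noncomputable def e3335 : SCfg where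
  D := {
    a := 7
    L := 11
    kp := 8
    inn := [(0, 1), (1, 0), (1, 2), (1, 3), (2, 1), (2, 4), (3, 1), (4, 2), (4, 5), (4, 6), (5, 4), (6,
      4)]
    mix := [(0, 0), (0, 1), (0, 2), (1, 0), (1, 2), (1, 3), (1, 4), (2, 2), (2, 3), (2, 5), (3, 3), (3,
      4), (3, 6), (4, 2), (4, 5), (4, 7), (4, 8), (5, 5), (5, 8), (5, 9), (6, 2), (6, 7), (6, 10)]
    cl := [1, 6, 0, 1, 2, 0, 7, 4, 3, 8, 5]
    chq := [(0, 3), (3, 0), (3, 5), (5, 3)]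
    rng := [(0, 1), (0, 4), (1, 0), (1, 2), (2, 1), (2, 10), (3, 5), (3, 6), (4, 0), (4, 6), (5, 3),
      (5, 9), (6, 3), (6, 4), (7, 8), (7, 10), (8, 7), (8, 9), (9, 5), (9, 8), (10, 2), (10, 7)]
    lev := [] }
  links := [[1, 7, 8, 9], [7, 0, 9, 2, 10, 3, 11], [10, 1, 9, 4, 12], [11, 1, 10, 13], [12, 2, 9, 6, 14,
    15, 5], [12, 4, 15, 16], [14, 4, 9, 17]]
  P := {
    a := 7
    N := 18
    nb := [898, 3725, 5650, 11266, 53860, 102416, 147984, 2307, 641, 131415, 12302, 8330, 66612, 3080,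
      163920, 81968, 36896, 16960]
    tri := [(0, 1, 7), (0, 1, 9), (0, 7, 8), (0, 8, 9), (1, 2, 9), (1, 2, 10), (1, 3, 10), (1, 3, 11),
      (1, 7, 11), (2, 4, 9), (2, 4, 12), (2, 10, 12), (3, 10, 13), (3, 11, 13), (4, 5, 12), (4, 5,
      15), (4, 6, 9), (4, 6, 14), (4, 14, 15), (5, 12, 16), (5, 15, 16), (6, 9, 17), (6, 14, 17)]
    fin := [0, 0, 2, 0, 4, 2, 4, 0, 8, 2, 0, 11, 2, 13, 14, 15, 16, 4]
    chd := [(2, 15), (15, 4)]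
    steps := [(0, 1), (0, 3), (0, 7), (0, 10), (2, 9), (2, 12), (2, 5), (4, 6), (4, 17)] }
  rep := [2, 0, 11, 15, 14, 4, 8, 13, 16]

noncomputable def v3335 : Cov.CovD where
  P := 3
  N := 6
  pl := [1, 4, 6, 7, 9]
  lev := [⟨[], [], [(0, 1)], [6], [(0, 1, []), (2, 0, [3])]⟩,
    ⟨[], [(0, 0), (0, 1)], [(0, 1), (1, 1)], [2], [(0, 1, []), (2, 0, [3]), (3, 1, [])]⟩,
    ⟨[(0, 1)], [(0, 0), (1, 0), (1, 1)], [(0, 0), (0, 1)], [], [(2, 0, [3]), (3, 1, []),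
      (5, 0, [3])]⟩,
    ⟨[(0, 1), (1, 2)], [(1, 0), (1, 1), (2, 1)], [], [2, 7], [(3, 1, [])]⟩,
    ⟨[(1, 2)], [(0, 0), (1, 0), (2, 0), (2, 1), (2, 3)], [(0, 0), (0, 3)], [4], [(2, 0,
      [3]), (5, 0, [3]), (8, 3, [0, 5])]⟩,
    ⟨[(2, 4)], [(2, 0), (4, 0), (4, 3)], [(0, 3)], [8], [(5, 0, [3]), (8, 3, [0, 5])]⟩,
    ⟨[(2, 4), (4, 5)], [(0, 0), (1, 0), (2, 0), (4, 0), (4, 3), (4, 5)], [(0, 5)], [4],
      [(2, 0, [3]), (10, 5, [3])]⟩]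
  Ta := [((0, 1), 1, 6), ((0, 4), 1, 2), ((2, 1), 0, 6), ((2, 10), 0, 5), ((3, 5), 1, 0), ((3,
    6), 1, 7), ((5, 3), 0, 1), ((5, 9), 0, 8)]
  Tb := [((0, 1, 4), 1, 6, 2), ((1, 0, 2), 6, 1, 0), ((2, 1, 10), 0, 6, 5), ((3, 5, 6), 1, 0, 7),
    ((4, 0, 6), 2, 1, 7), ((5, 3, 9), 0, 1, 8), ((6, 3, 4), 7, 1, 2), ((7, 8, 10), 4, 3, 5),
    ((8, 7, 9), 3, 4, 8), ((9, 5, 8), 8, 0, 3), ((10, 2, 7), 5, 0, 4)]
  Tc := [(3, 0, 5)]
  Td := [((0, 3), (2, 1), 6), ((0, 3), (2, 10), 5), ((0, 3), (5, 3), 1), ((0, 3), (5, 9), 8),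
    ((3, 0), (8, 7), 4), ((3, 0), (8, 9), 8), ((3, 5), (8, 7), 4), ((3, 5), (8, 9), 8), ((5,
    3), (10, 2), 0), ((5, 3), (10, 7), 4)]
  G := [[0, 0, 0x1651a91c3e2841651a31c9e284c, 0x1691a31c5e1651a91c3e5481651a91c3e1651a91c3e984c,
    0x1631a91c5e2481a31c56216982c8c], [0, 0, 0x1631a51c9e1651a91c3ec842, 0,
    0x1651a31c9e1651a31c9e9482], [0, 0, 0xaaae42666ecccea2c41,
    0x62aaaeccceeaaaeccce69666e866c85a41, 0xaaaeccce62666e82c81], [0,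
    0x218e181e6198e411e6c524e88324e84e4481e24181e28524e218ec124e218ecce4a,
    0x118e44654e181ea324e481eacc198e488c2, 0, 0x118e181e61114e21a4c9ee624e89ca448892]]

noncomputable def n3335 : Ent := ⟨e3335, noF, [], [], [(8, 17, [6903326391201334775872065844685381424292761054348340378595029943341057, 0]), (16, 13, [7334685537894576317792898128369202883340578364357296604626079810871297, 0])]⟩

def c3335 : PLift (Cov.check n3335.C.D v3335 = true) := ⟨by decide +kernel⟩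

def b3335 : PLift (entF (fidx ts) 400 3335 n3335 = true) := ⟨by decide +kernel⟩

theorem g3335 : GoodF (fidx ts) 400 3335 := GoodF.ofV v3335 n3335 c3335.down b3335.down

/-- 48475474:2541/2 -/
noncomputable def e3336 : SCfg where
  D := {
    a := 8
    L := 9
    kp := 7
    inn := [(0, 1), (0, 4), (1, 0), (1, 2), (1, 3), (1, 4), (1, 6), (2, 1), (2, 6), (3, 1), (3, 5), (3,
      6), (4, 0), (4, 1), (5, 3), (5, 6), (6, 1), (6, 2), (6, 3), (6, 5), (6, 7), (7, 6)]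
    mix := [(0, 0), (0, 1), (1, 1), (1, 2), (1, 3), (2, 2), (2, 4), (3, 3), (3, 5), (3, 6), (3, 7), (4,
      0), (4, 3), (4, 7), (5, 5), (5, 8), (6, 4), (6, 8), (7, 0), (7, 4), (7, 8)]
    cl := [3, 0, 2, 0, 1, 5, 7, 6, 4]
    chq := [(2, 3), (2, 4), (2, 5), (2, 6), (2, 7), (3, 2), (4, 2), (5, 2), (6, 2), (7, 2)]
    rng := [(0, 1), (0, 4), (0, 7), (0, 8), (1, 0), (1, 2), (2, 1), (2, 4), (3, 7), (4, 0), (4, 2), (5,
      6), (5, 8), (6, 5), (6, 7), (7, 0), (7, 3), (7, 6), (8, 0), (8, 5)]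
    lev := [] }
  links := [[1, 4, 8, 9], [4, 0, 9, 10, 2, 6, 3, 11], [6, 1, 10, 12], [11, 1, 6, 5, 13, 14, 15], [8, 0,
    1, 11, 15], [13, 3, 6, 16], [16, 5, 3, 1, 2, 12, 7], [16, 6, 12, 8]]
  P := {
    a := 8
    N := 17
    nb := [786, 3677, 5186, 59490, 35075, 73800, 69806, 69952, 103057, 1283, 4614, 32794, 1476, 81960,
      40968, 18712, 8672]
    tri := [(0, 1, 4), (0, 1, 9), (0, 4, 8), (0, 8, 9), (1, 2, 6), (1, 2, 10), (1, 3, 6), (1, 3, 11),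
      (1, 4, 11), (1, 9, 10), (2, 6, 12), (2, 10, 12), (3, 5, 6), (3, 5, 13), (3, 11, 15), (3, 13,
      14), (3, 14, 15), (4, 8, 15), (4, 11, 15), (5, 6, 16), (5, 13, 16), (6, 7, 12), (6, 7, 16),
      (7, 8, 12), (7, 8, 16)]
    fin := [0, 1, 2, 2, 0, 2, 2, 0, 0, 1, 2, 1, 12, 13, 14, 15, 16]
    chd := [(0, 2), (2, 13), (2, 14), (2, 15), (2, 16)]
    steps := [(0, 4), (0, 8), (0, 7), (1, 9), (1, 11), (2, 6), (2, 3), (2, 5), (2, 10)] }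
  rep := [1, 12, 2, 0, 16, 13, 15, 14]

noncomputable def v3336 : Cov.CovD where
  P := 3
  N := 5
  pl := [4]
  lev := [⟨[], [], [(0, 3)], [], [(0, 3, [2]), (1, 0, [])]⟩,
    ⟨[], [(0, 0), (0, 2), (0, 3)], [(0, 0), (0, 2)], [], [(1, 0, []), (2, 2, [3, 4, 5, 6,
      7]), (3, 0, [])]⟩,
    ⟨[(0, 1)], [(1, 0), (1, 2)], [], [1], [(2, 2, [3, 4, 5, 6, 7])]⟩,
    ⟨[(0, 1), (1, 2)], [(1, 0), (1, 2), (1, 5), (1, 6), (1, 7)], [(0, 5), (0, 6), (0, 7),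
      (5, 6), (5, 7), (6, 7)], [], [(3, 0, []), (5, 5, [2]), (6, 7, [2]), (7, 6, [2])]⟩,
    ⟨[(0, 1), (1, 2), (1, 3)], [(0, 0), (0, 3), (0, 6), (1, 0), (1, 2), (1, 3), (1, 6), (3,
      0), (3, 6)], [(0, 3), (0, 6), (3, 6)], [], [(0, 3, [2]), (3, 0, []), (7, 6, [2])]⟩,
    ⟨[(1, 3)], [(3, 0), (3, 4), (3, 5), (3, 6), (3, 7)], [(4, 5)], [], [(5, 5, [2]), (8, 4,
      [2])]⟩,
    ⟨[(0, 1), (1, 2), (1, 3), (1, 4), (1, 5), (2, 3), (2, 5), (3, 5)], [(1, 0), (1, 2), (1,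
      4), (2, 2), (2, 4), (3, 0), (3, 4), (3, 5), (3, 6), (3, 7), (5, 4), (5, 5)], [], [1],
      [(8, 4, [2])]⟩,
    ⟨[(1, 6), (2, 6), (3, 6), (5, 6)], [(0, 3), (4, 3), (5, 4), (6, 3), (6, 4)], [(3, 4)],
      [1], [(0, 3, [2]), (8, 4, [2])]⟩]
  Ta := [((1, 0), 0, 3), ((1, 2), 0, 2), ((3, 7), 0, 6)]
  Tb := [((0, 1, 4), 3, 0, 1), ((0, 1, 7), 3, 0, 6), ((0, 1, 8), 3, 0, 4), ((0, 4, 7), 3, 1, 6),
    ((0, 4, 8), 3, 1, 4), ((0, 7, 8), 3, 6, 4), ((1, 0, 2), 0, 3, 2), ((2, 1, 4), 2, 0, 1),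
    ((4, 0, 2), 1, 3, 2), ((5, 6, 8), 5, 7, 4), ((6, 5, 7), 7, 5, 6), ((7, 0, 3), 6, 3, 0),
    ((7, 0, 6), 6, 3, 7), ((7, 3, 6), 6, 0, 7), ((8, 0, 5), 4, 3, 5)]
  Tc := [(2, 3, 4), (2, 3, 5), (2, 3, 6), (2, 3, 7), (2, 4, 5), (2, 4, 6), (2, 4, 7), (2, 5, 6),
    (2, 5, 7), (2, 6, 7)]
  Td := [((2, 3), (2, 1), 0), ((2, 3), (2, 4), 1), ((2, 4), (2, 1), 0), ((2, 4), (2, 4), 1), ((2,
    5), (2, 1), 0), ((2, 5), (2, 4), 1), ((2, 6), (2, 1), 0), ((2, 6), (2, 4), 1), ((2, 7),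
    (2, 1), 0), ((2, 7), (2, 4), 1), ((3, 2), (0, 1), 0), ((3, 2), (0, 4), 1), ((3, 2), (0,
    7), 6), ((3, 2), (0, 8), 4), ((4, 2), (8, 0), 3), ((4, 2), (8, 5), 5), ((5, 2), (5, 6),
    7), ((5, 2), (5, 8), 4), ((6, 2), (7, 0), 3), ((6, 2), (7, 3), 0), ((6, 2), (7, 6), 7),
    ((7, 2), (6, 5), 5), ((7, 2), (6, 7), 6)]
  G := [[0, 0x246645128288828b124c2, 0x1411c68118881c2144411811ca41c2141462181818a214ce,
    0xc59222442, 0x4191453144888c1492414141b814141b64886], [0,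
    0x242452446222c1222424582e288222888928289c26c1, 0, 0xc15222882,
    0x14444841341148413ec4884841ca488e14446921]]

noncomputable def n3336 : Ent := ⟨e3336, noF, [], [], []⟩

def c3336 : PLift (Cov.check n3336.C.D v3336 = true) := ⟨by decide +kernel⟩

def b3336 : PLift (entF (fidx ts) 400 3336 n3336 = true) := ⟨by decide +kernel⟩

theorem g3336 : GoodF (fidx ts) 400 3336 := GoodF.ofV v3336 n3336 c3336.down b3336.down

/-- 48475474:2541/1 -/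
noncomputable def e3337 : SCfg where
  D := {
    a := 8
    L := 10
    kp := 8
    inn := [(0, 1), (0, 4), (1, 0), (1, 2), (1, 3), (1, 4), (1, 6), (2, 1), (2, 6), (3, 1), (3, 5), (3,
      6), (4, 0), (4, 1), (5, 3), (5, 6), (6, 1), (6, 2), (6, 3), (6, 5), (6, 7), (7, 6)]
    mix := [(0, 0), (0, 1), (1, 1), (1, 2), (1, 3), (2, 2), (2, 4), (3, 3), (3, 5), (3, 6), (3, 7), (4,
      0), (4, 3), (4, 8), (5, 5), (5, 9), (6, 4), (6, 9), (7, 0), (7, 4), (7, 9)]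
    cl := [1, 0, 2, 0, 4, 5, 6, 7, 8, 3]
    chq := [(1, 2), (2, 1), (2, 3), (2, 5), (2, 6), (2, 7), (3, 2), (5, 2), (6, 2), (7, 2)]
    rng := [(0, 1), (0, 4), (0, 8), (0, 9), (1, 0), (1, 2), (2, 1), (2, 4), (3, 7), (3, 8), (4, 0), (4,
      2), (5, 6), (5, 9), (6, 5), (6, 7), (7, 3), (7, 6), (8, 0), (8, 3), (9, 0), (9, 5)]
    lev := [] }
  links := [[1, 4, 8, 9], [4, 0, 9, 10, 2, 6, 3, 11], [6, 1, 10, 12], [11, 1, 6, 5, 13, 14, 15], [8, 0,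
    1, 11, 16], [13, 3, 6, 17], [17, 5, 3, 1, 2, 12, 7], [17, 6, 12, 8]]
  P := {
    a := 8
    N := 18
    nb := [786, 3677, 5186, 59490, 67843, 139336, 135342, 135488, 201361, 1283, 4614, 98330, 1476,
      147496, 40968, 18440, 2320, 8672]
    tri := [(0, 1, 4), (0, 1, 9), (0, 4, 8), (0, 8, 9), (1, 2, 6), (1, 2, 10), (1, 3, 6), (1, 3, 11),
      (1, 4, 11), (1, 9, 10), (2, 6, 12), (2, 10, 12), (3, 5, 6), (3, 5, 13), (3, 11, 15), (3, 13,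
      14), (3, 14, 15), (4, 8, 16), (4, 11, 16), (5, 6, 17), (5, 13, 17), (6, 7, 12), (6, 7, 17),
      (7, 8, 12), (7, 8, 17)]
    fin := [0, 1, 2, 2, 0, 2, 2, 0, 0, 1, 2, 1, 12, 13, 14, 15, 16, 17]
    chd := [(0, 2), (2, 13), (2, 14), (2, 15), (2, 17)]
    steps := [(0, 4), (0, 8), (0, 7), (1, 9), (1, 11), (2, 6), (2, 3), (2, 5), (2, 10)] }
  rep := [1, 0, 2, 17, 12, 13, 14, 15, 16]

noncomputable def v3337 : Cov.CovD where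
  P := 3
  N := 6
  pl := [4, 8]
  lev := [⟨[], [], [(0, 1)], [], [(0, 1, [2]), (1, 0, [])]⟩,
    ⟨[], [(0, 0), (0, 1), (0, 2)], [(0, 0), (0, 2)], [], [(1, 0, []), (2, 2, [1, 3, 5, 6,
      7]), (3, 0, [])]⟩,
    ⟨[(0, 1)], [(1, 0), (1, 2)], [], [4], [(2, 2, [1, 3, 5, 6, 7])]⟩,
    ⟨[(0, 1), (1, 2)], [(1, 0), (1, 2), (1, 5), (1, 6), (1, 7)], [(0, 5), (0, 6), (0, 7),
      (5, 6), (5, 7), (6, 7)], [], [(3, 0, []), (5, 5, [2]), (6, 6, [2]), (7, 7, [2])]⟩,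
    ⟨[(0, 1), (1, 2), (1, 3)], [(0, 0), (0, 1), (1, 0), (1, 1), (1, 2), (3, 0)], [(0, 1)],
      [8], [(0, 1, [2]), (3, 0, [])]⟩,
    ⟨[(1, 3)], [(3, 0), (3, 3), (3, 5), (3, 6), (3, 7)], [(3, 5)], [], [(5, 5, [2]), (9, 3,
      [2])]⟩,
    ⟨[(0, 1), (1, 2), (1, 3), (1, 4), (1, 5), (2, 3), (2, 5), (3, 5)], [(1, 0), (1, 2), (1,
      3), (2, 2), (2, 3), (3, 0), (3, 3), (3, 5), (3, 6), (3, 7), (5, 3), (5, 5)], [], [4],
      [(9, 3, [2])]⟩,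
    ⟨[(1, 6), (2, 6), (3, 6), (5, 6)], [(0, 1), (4, 1), (5, 3), (6, 1), (6, 3)], [(1, 3)],
      [4], [(0, 1, [2]), (9, 3, [2])]⟩]
  Ta := [((1, 0), 0, 1), ((1, 2), 0, 2), ((3, 7), 0, 7), ((3, 8), 0, 8)]
  Tb := [((0, 1, 4), 1, 0, 4), ((0, 1, 8), 1, 0, 8), ((0, 1, 9), 1, 0, 3), ((0, 4, 8), 1, 4, 8),
    ((0, 4, 9), 1, 4, 3), ((0, 8, 9), 1, 8, 3), ((1, 0, 2), 0, 1, 2), ((2, 1, 4), 2, 0, 4),
    ((3, 7, 8), 0, 7, 8), ((4, 0, 2), 4, 1, 2), ((5, 6, 9), 5, 6, 3), ((6, 5, 7), 6, 5, 7),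
    ((7, 3, 6), 7, 0, 6), ((8, 0, 3), 8, 1, 0), ((9, 0, 5), 3, 1, 5)]
  Tc := [(2, 1, 3), (2, 1, 5), (2, 1, 6), (2, 1, 7), (2, 3, 5), (2, 3, 6), (2, 3, 7), (2, 5, 6),
    (2, 5, 7), (2, 6, 7)]
  Td := [((1, 2), (0, 1), 0), ((1, 2), (0, 4), 4), ((1, 2), (0, 8), 8), ((1, 2), (0, 9), 3), ((2,
    1), (2, 1), 0), ((2, 1), (2, 4), 4), ((2, 3), (2, 1), 0), ((2, 3), (2, 4), 4), ((2, 5),
    (2, 1), 0), ((2, 5), (2, 4), 4), ((2, 6), (2, 1), 0), ((2, 6), (2, 4), 4), ((2, 7), (2,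
    1), 0), ((2, 7), (2, 4), 4), ((3, 2), (9, 0), 1), ((3, 2), (9, 5), 5), ((5, 2), (5, 6),
    6), ((5, 2), (5, 9), 3), ((6, 2), (6, 5), 5), ((6, 2), (6, 7), 7), ((7, 2), (7, 3), 0),
    ((7, 2), (7, 6), 6)]
  G := [[0, 0x21215211a221e1a2121e1ea2344,
    0x122414122122c112281c116186111e186c1111e14a111e14ac11881cc1814cc1ee8, 0x415228232284,
    0x443214444a414419844b91442854b88e14da8], [0, 0, 0, 0x4422228192222c8,
    0x42413444b444b3c4413c1342dc134c464194194874194c4488441b8c4ca4]]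

noncomputable def n3337 : Ent := ⟨e3337, noF, [], [], [(15, 16, [7334685537875745012586738086077695515070955365108989538292687707340801, 0])]⟩

def c3337 : PLift (Cov.check n3337.C.D v3337 = true) := ⟨by decide +kernel⟩

def b3337 : PLift (entF (fidx ts) 400 3337 n3337 = true) := ⟨by decide +kernel⟩

theorem g3337 : GoodF (fidx ts) 400 3337 := GoodF.ofV v3337 n3337 c3337.down b3337.down

/-- 48475474:2541/3 -/
noncomputable def e3338 : SCfg where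
  D := {
    a := 8
    L := 10
    kp := 8
    inn := [(0, 1), (0, 4), (1, 0), (1, 2), (1, 3), (1, 4), (1, 6), (2, 1), (2, 6), (3, 1), (3, 5), (3,
      6), (4, 0), (4, 1), (5, 3), (5, 6), (6, 1), (6, 2), (6, 3), (6, 5), (6, 7), (7, 6)]
    mix := [(0, 0), (0, 1), (1, 1), (1, 2), (1, 3), (2, 2), (2, 4), (3, 3), (3, 5), (3, 6), (3, 7), (4,
      0), (4, 3), (4, 8), (5, 5), (5, 9), (6, 4), (6, 9), (7, 4), (7, 8), (7, 9)]
    cl := [6, 0, 2, 0, 1, 4, 7, 8, 5, 3]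
    chq := [(2, 3), (2, 4), (2, 5), (2, 7), (2, 8), (3, 2), (4, 2), (5, 2), (7, 2), (8, 2)]
    rng := [(0, 1), (0, 8), (1, 0), (1, 2), (2, 1), (2, 4), (3, 7), (3, 8), (4, 2), (4, 8), (5, 6), (5,
      9), (6, 5), (6, 7), (7, 3), (7, 6), (8, 0), (8, 3), (8, 4), (8, 9), (9, 5), (9, 8)]
    lev := [] }
  links := [[1, 4, 8, 9], [4, 0, 9, 10, 2, 6, 3, 11], [6, 1, 10, 12], [11, 1, 6, 5, 13, 14, 15], [8, 0,
    1, 11, 16], [13, 3, 6, 17], [17, 5, 3, 1, 2, 12, 7], [17, 6, 12, 16]]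
  P := {
    a := 8
    N := 18
    nb := [786, 3677, 5186, 59490, 67843, 139336, 135342, 200768, 66065, 1283, 4614, 98330, 66756,
      147496, 40968, 18440, 137616, 73952]
    tri := [(0, 1, 4), (0, 1, 9), (0, 4, 8), (0, 8, 9), (1, 2, 6), (1, 2, 10), (1, 3, 6), (1, 3, 11),
      (1, 4, 11), (1, 9, 10), (2, 6, 12), (2, 10, 12), (3, 5, 6), (3, 5, 13), (3, 11, 15), (3, 13,
      14), (3, 14, 15), (4, 8, 16), (4, 11, 16), (5, 6, 17), (5, 13, 17), (6, 7, 12), (6, 7, 17),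
      (7, 12, 16), (7, 16, 17)]
    fin := [0, 1, 2, 2, 0, 2, 2, 2, 0, 1, 2, 1, 12, 13, 14, 15, 16, 17]
    chd := [(2, 13), (2, 14), (2, 15), (2, 16), (2, 17)]
    steps := [(0, 4), (0, 8), (1, 9), (1, 11), (2, 6), (2, 3), (2, 5), (2, 7), (2, 10)] }
  rep := [1, 12, 2, 17, 13, 16, 0, 14, 15]

noncomputable def v3338 : Cov.CovD where
  P := 3
  N := 6
  pl := [0, 4]
  lev := [⟨[], [], [], [6], [(1, 0, [])]⟩,
    ⟨[], [(0, 0), (0, 2)], [(0, 0), (0, 2)], [], [(1, 0, []), (2, 2, [3, 4, 5, 7, 8]), (3,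
      0, [])]⟩,
    ⟨[(0, 1)], [(1, 0), (1, 2)], [], [1], [(2, 2, [3, 4, 5, 7, 8])]⟩,
    ⟨[(0, 1), (1, 2)], [(1, 0), (1, 2), (1, 4), (1, 7), (1, 8)], [(0, 4), (0, 7), (0, 8),
      (4, 7), (4, 8), (7, 8)], [], [(3, 0, []), (5, 4, [2]), (6, 7, [2]), (7, 8, [2])]⟩,
    ⟨[(0, 1), (1, 2), (1, 3)], [(0, 0), (0, 5), (1, 0), (1, 2), (1, 5), (3, 0)], [(0, 5)],
      [6], [(3, 0, []), (8, 5, [2])]⟩,
    ⟨[(1, 3)], [(3, 0), (3, 3), (3, 4), (3, 7), (3, 8)], [(3, 4)], [], [(5, 4, [2]), (9, 3,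
      [2])]⟩,
    ⟨[(0, 1), (1, 2), (1, 3), (1, 4), (1, 5), (2, 3), (2, 5), (3, 5)], [(1, 0), (1, 2), (1,
      3), (2, 2), (2, 3), (3, 0), (3, 3), (3, 4), (3, 7), (3, 8), (5, 3), (5, 4)], [], [1],
      [(9, 3, [2])]⟩,
    ⟨[(1, 6), (2, 6), (3, 6), (5, 6)], [(4, 5), (5, 3), (6, 3), (6, 5)], [(3, 5)], [1],
      [(8, 5, [2]), (9, 3, [2])]⟩]
  Ta := [((1, 0), 0, 6), ((1, 2), 0, 2), ((3, 7), 0, 8), ((3, 8), 0, 5)]
  Tb := [((0, 1, 8), 6, 0, 5), ((1, 0, 2), 0, 6, 2), ((2, 1, 4), 2, 0, 1), ((3, 7, 8), 0, 8, 5),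
    ((4, 2, 8), 1, 2, 5), ((5, 6, 9), 4, 7, 3), ((6, 5, 7), 7, 4, 8), ((7, 3, 6), 8, 0, 7),
    ((8, 0, 3), 5, 6, 0), ((8, 0, 4), 5, 6, 1), ((8, 0, 9), 5, 6, 3), ((8, 3, 4), 5, 0, 1),
    ((8, 3, 9), 5, 0, 3), ((8, 4, 9), 5, 1, 3), ((9, 5, 8), 3, 4, 5)]
  Tc := [(2, 3, 4), (2, 3, 5), (2, 3, 7), (2, 3, 8), (2, 4, 5), (2, 4, 7), (2, 4, 8), (2, 5, 7),
    (2, 5, 8), (2, 7, 8)]
  Td := [((2, 3), (2, 1), 0), ((2, 3), (2, 4), 1), ((2, 4), (2, 1), 0), ((2, 4), (2, 4), 1), ((2,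
    5), (2, 1), 0), ((2, 5), (2, 4), 1), ((2, 7), (2, 1), 0), ((2, 7), (2, 4), 1), ((2, 8),
    (2, 1), 0), ((2, 8), (2, 4), 1), ((3, 2), (9, 5), 4), ((3, 2), (9, 8), 5), ((4, 2), (5,
    6), 7), ((4, 2), (5, 9), 3), ((5, 2), (8, 0), 6), ((5, 2), (8, 3), 0), ((5, 2), (8, 4),
    1), ((5, 2), (8, 9), 3), ((7, 2), (6, 5), 4), ((7, 2), (6, 7), 8), ((8, 2), (7, 3), 0),
    ((8, 2), (7, 6), 7)]
  G := [[0, 0x244122822c312c288122c24245228422842728289a24c6,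
    0x1411c68118881c2144411811ca41c2141462181818a214ce, 0x481d21248481d222486,
    0x41144849448449ac4924111448449a14926], [0,
    0x242452446224482a2422c328222c1e2288288a22828942ec1, 0, 0x895248dd2a214c242581,
    0x449413411411e448848449a48449ae4921]]

noncomputable def n3338 : Ent := ⟨e3338, noF, [], [], []⟩

def c3338 : PLift (Cov.check n3338.C.D v3338 = true) := ⟨by decide +kernel⟩

def b3338 : PLift (entF (fidx ts) 400 3338 n3338 = true) := ⟨by decide +kernel⟩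

theorem g3338 : GoodF (fidx ts) 400 3338 := GoodF.ofV v3338 n3338 c3338.down b3338.down

/-- 48475474:2541/4 -/
noncomputable def e3339 : SCfg where
  D := {
    a := 8
    L := 10
    kp := 8
    inn := [(0, 1), (0, 4), (1, 0), (1, 2), (1, 3), (1, 4), (1, 6), (2, 1), (2, 6), (3, 1), (3, 5), (3,
      6), (4, 0), (4, 1), (5, 3), (5, 6), (6, 1), (6, 2), (6, 3), (6, 5), (6, 7), (7, 6)]
    mix := [(0, 0), (0, 1), (1, 1), (1, 2), (1, 3), (2, 2), (2, 4), (3, 3), (3, 5), (3, 6), (3, 7), (4,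
      0), (4, 3), (4, 7), (5, 5), (5, 8), (6, 4), (6, 8), (7, 4), (7, 8), (7, 9)]
    cl := [6, 0, 2, 0, 1, 4, 7, 5, 3, 8]
    chq := [(1, 3), (1, 4), (2, 4), (2, 5), (2, 7), (3, 1), (4, 1), (4, 2), (5, 2), (7, 2)]
    rng := [(0, 1), (0, 7), (1, 0), (1, 2), (2, 1), (2, 4), (3, 7), (4, 2), (4, 9), (5, 6), (5, 8), (6,
      5), (6, 7), (7, 0), (7, 3), (7, 6), (8, 5), (8, 9), (9, 4), (9, 8)]
    lev := [] }
  links := [[1, 4, 8, 9], [4, 0, 9, 10, 2, 6, 3, 11], [6, 1, 10, 12], [11, 1, 6, 5, 13, 14, 15], [8, 0,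
    1, 11, 15], [13, 3, 6, 16], [16, 5, 3, 1, 2, 12, 7], [16, 6, 12, 17]]
  P := {
    a := 8
    N := 18
    nb := [786, 3677, 5186, 59490, 35075, 73800, 69806, 200768, 33297, 1283, 4614, 32794, 132292,
      81960, 40968, 18712, 139488, 69760]
    tri := [(0, 1, 4), (0, 1, 9), (0, 4, 8), (0, 8, 9), (1, 2, 6), (1, 2, 10), (1, 3, 6), (1, 3, 11),
      (1, 4, 11), (1, 9, 10), (2, 6, 12), (2, 10, 12), (3, 5, 6), (3, 5, 13), (3, 11, 15), (3, 13,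
      14), (3, 14, 15), (4, 8, 15), (4, 11, 15), (5, 6, 16), (5, 13, 16), (6, 7, 12), (6, 7, 16),
      (7, 12, 17), (7, 16, 17)]
    fin := [0, 1, 1, 1, 0, 5, 5, 5, 8, 0, 1, 0, 5, 13, 14, 15, 16, 17]
    chd := [(1, 13), (1, 14), (1, 15), (5, 13), (5, 16)]
    steps := [(0, 4), (0, 9), (0, 11), (1, 2), (1, 3), (1, 10), (5, 6), (5, 7), (5, 12)] }
  rep := [0, 5, 1, 16, 13, 15, 8, 14, 17]

noncomputable def v3339 : Cov.CovD where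
  P := 3
  N := 6
  pl := [0, 9]
  lev := [⟨[], [], [], [6], [(1, 0, [])]⟩,
    ⟨[], [(0, 0), (0, 2)], [(0, 0), (0, 2)], [], [(1, 0, []), (2, 2, [4, 5, 7]), (3, 0,
      [])]⟩,
    ⟨[(0, 1)], [(1, 0), (1, 1), (1, 2)], [(1, 2)], [], [(2, 2, [4, 5, 7]), (4, 1, [3, 4])]⟩,
    ⟨[(0, 1), (1, 2)], [(1, 0), (1, 2), (1, 4), (1, 5), (1, 7)], [(0, 4), (0, 5), (0, 7),
      (4, 5), (4, 7), (5, 7)], [], [(3, 0, []), (5, 4, [1, 2]), (6, 7, [2]), (7, 5, [2])]⟩,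
    ⟨[(0, 1), (1, 2), (1, 3)], [(0, 0), (0, 5), (1, 0), (1, 2), (1, 5), (3, 0), (3, 5)],
      [(0, 5)], [6], [(3, 0, []), (7, 5, [2])]⟩,
    ⟨[(1, 3)], [(3, 0), (3, 3), (3, 4), (3, 5), (3, 7)], [(3, 4)], [], [(5, 4, [1, 2]), (8,
      3, [1])]⟩,
    ⟨[(0, 1), (1, 2), (1, 3), (1, 4), (1, 5), (2, 3), (2, 5), (3, 5)], [(1, 0), (1, 1), (1,
      2), (1, 3), (2, 1), (2, 2), (2, 3), (3, 0), (3, 1), (3, 3), (3, 4), (3, 5), (3, 7), (5,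
      1), (5, 3), (5, 4)], [(1, 3)], [], [(4, 1, [3, 4]), (8, 3, [1])]⟩,
    ⟨[(1, 6), (2, 6), (3, 6), (5, 6)], [(2, 1), (5, 3), (6, 1), (6, 3)], [(1, 3)], [8],
      [(4, 1, [3, 4]), (8, 3, [1])]⟩]
  Ta := [((1, 0), 0, 6), ((1, 2), 0, 2), ((3, 7), 0, 5)]
  Tb := [((0, 1, 7), 6, 0, 5), ((1, 0, 2), 0, 6, 2), ((2, 1, 4), 2, 0, 1), ((4, 2, 9), 1, 2, 8),
    ((5, 6, 8), 4, 7, 3), ((6, 5, 7), 7, 4, 5), ((7, 0, 3), 5, 6, 0), ((7, 0, 6), 5, 6, 7),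
    ((7, 3, 6), 5, 0, 7), ((8, 5, 9), 3, 4, 8), ((9, 4, 8), 8, 1, 3)]
  Tc := [(1, 3, 4), (2, 4, 5), (2, 4, 7), (2, 5, 7), (4, 1, 2)]
  Td := [((1, 3), (4, 2), 2), ((1, 3), (4, 9), 8), ((1, 4), (4, 2), 2), ((1, 4), (4, 9), 8), ((2,
    4), (2, 1), 0), ((2, 4), (2, 4), 1), ((2, 5), (2, 1), 0), ((2, 5), (2, 4), 1), ((2, 7),
    (2, 1), 0), ((2, 7), (2, 4), 1), ((3, 1), (8, 5), 4), ((3, 1), (8, 9), 8), ((4, 1), (5,
    6), 7), ((4, 1), (5, 8), 3), ((4, 2), (5, 6), 7), ((4, 2), (5, 8), 3), ((5, 2), (7, 0),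
    6), ((5, 2), (7, 3), 0), ((5, 2), (7, 6), 7), ((7, 2), (6, 5), 4), ((7, 2), (6, 7), 5)]
  G := [[0, 0x641641e417228a112c881122c641128a81a81a24c6,
    0x15c28188281c24424191c241c2542218982214ce, 0xc5921244c5922244a,
    0x459251254c82882c49251211294c49214926], [0, 0xe86164162241281c244182ee4a1a81a2881426c1,
    0, 0x8952824421d8d21d8d2e2581, 0x4592112112e4882c492c492e4921]]

noncomputable def n3339 : Ent := ⟨e3339, noF, [], [], [(8, 17, [6903326391201334775872065844685381424292761054348340378595029943353345, 0])]⟩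

def c3339 : PLift (Cov.check n3339.C.D v3339 = true) := ⟨by decide +kernel⟩

def b3339 : PLift (entF (fidx ts) 400 3339 n3339 = true) := ⟨by decide +kernel⟩

theorem g3339 : GoodF (fidx ts) 400 3339 := GoodF.ofV v3339 n3339 c3339.down b3339.down

/-- 48475474:2541 -/
noncomputable def e3340 : SCfg where
  D := {
    a := 8
    L := 11
    kp := 9
    inn := [(0, 1), (0, 4), (1, 0), (1, 2), (1, 3), (1, 4), (1, 6), (2, 1), (2, 6), (3, 1), (3, 5), (3,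
      6), (4, 0), (4, 1), (5, 3), (5, 6), (6, 1), (6, 2), (6, 3), (6, 5), (6, 7), (7, 6)]
    mix := [(0, 0), (0, 1), (1, 1), (1, 2), (1, 3), (2, 2), (2, 4), (3, 3), (3, 5), (3, 6), (3, 7), (4,
      0), (4, 3), (4, 8), (5, 5), (5, 9), (6, 4), (6, 9), (7, 4), (7, 9), (7, 10)]
    cl := [5, 0, 2, 0, 1, 4, 6, 7, 8, 3, 9]
    chq := [(1, 3), (1, 4), (2, 4), (2, 6), (2, 7), (3, 1), (4, 1), (4, 2), (6, 2), (7, 2)]
    rng := [(0, 1), (0, 8), (1, 0), (1, 2), (2, 1), (2, 4), (3, 7), (3, 8), (4, 2), (4, 10), (5, 6),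
      (5, 9), (6, 5), (6, 7), (7, 3), (7, 6), (8, 0), (8, 3), (9, 5), (9, 10), (10, 4), (10, 9)]
    lev := [] }
  links := [[1, 4, 8, 9], [4, 0, 9, 10, 2, 6, 3, 11], [6, 1, 10, 12], [11, 1, 6, 5, 13, 14, 15], [8, 0,
    1, 11, 16], [13, 3, 6, 17], [17, 5, 3, 1, 2, 12, 7], [17, 6, 12, 18]]
  P := {
    a := 8
    N := 19
    nb := [786, 3677, 5186, 59490, 67843, 139336, 135342, 397376, 66065, 1283, 4614, 98330, 263364,
      147496, 40968, 18440, 2320, 270560, 135296]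
    tri := [(0, 1, 4), (0, 1, 9), (0, 4, 8), (0, 8, 9), (1, 2, 6), (1, 2, 10), (1, 3, 6), (1, 3, 11),
      (1, 4, 11), (1, 9, 10), (2, 6, 12), (2, 10, 12), (3, 5, 6), (3, 5, 13), (3, 11, 15), (3, 13,
      14), (3, 14, 15), (4, 8, 16), (4, 11, 16), (5, 6, 17), (5, 13, 17), (6, 7, 12), (6, 7, 17),
      (7, 12, 18), (7, 17, 18)]
    fin := [0, 1, 1, 1, 0, 5, 5, 5, 8, 0, 1, 0, 5, 13, 14, 15, 16, 17, 18]
    chd := [(1, 13), (1, 14), (1, 15), (5, 13), (5, 17)]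
    steps := [(0, 4), (0, 9), (0, 11), (1, 2), (1, 3), (1, 10), (5, 6), (5, 7), (5, 12)] }
  rep := [0, 5, 1, 17, 13, 8, 14, 15, 16, 18]

noncomputable def v3340 : Cov.CovD where
  P := 3
  N := 7
  pl := [0, 8, 10]
  lev := [⟨[], [], [], [5], [(1, 0, [])]⟩,
    ⟨[], [(0, 0), (0, 2)], [(0, 0), (0, 2)], [], [(1, 0, []), (2, 2, [4, 6, 7]), (3, 0,
      [])]⟩,
    ⟨[(0, 1)], [(1, 0), (1, 1), (1, 2)], [(1, 2)], [], [(2, 2, [4, 6, 7]), (4, 1, [3, 4])]⟩,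
    ⟨[(0, 1), (1, 2)], [(1, 0), (1, 2), (1, 4), (1, 6), (1, 7)], [(0, 4), (0, 6), (0, 7),
      (4, 6), (4, 7), (6, 7)], [], [(3, 0, []), (5, 4, [1, 2]), (6, 6, [2]), (7, 7, [2])]⟩,
    ⟨[(0, 1), (1, 2), (1, 3)], [(0, 0), (1, 0), (1, 2), (3, 0)], [], [5, 8], [(3, 0, [])]⟩,
    ⟨[(1, 3)], [(3, 0), (3, 3), (3, 4), (3, 6), (3, 7)], [(3, 4)], [], [(5, 4, [1, 2]), (9,
      3, [1])]⟩,
    ⟨[(0, 1), (1, 2), (1, 3), (1, 4), (1, 5), (2, 3), (2, 5), (3, 5)], [(1, 0), (1, 1), (1,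
      2), (1, 3), (2, 1), (2, 2), (2, 3), (3, 0), (3, 1), (3, 3), (3, 4), (3, 6), (3, 7), (5,
      1), (5, 3), (5, 4)], [(1, 3)], [], [(4, 1, [3, 4]), (9, 3, [1])]⟩,
    ⟨[(1, 6), (2, 6), (3, 6), (5, 6)], [(2, 1), (5, 3), (6, 1), (6, 3)], [(1, 3)], [9],
      [(4, 1, [3, 4]), (9, 3, [1])]⟩]
  Ta := [((1, 0), 0, 5), ((1, 2), 0, 2), ((3, 7), 0, 7), ((3, 8), 0, 8)]
  Tb := [((0, 1, 8), 5, 0, 8), ((1, 0, 2), 0, 5, 2), ((2, 1, 4), 2, 0, 1), ((3, 7, 8), 0, 7, 8),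
    ((4, 2, 10), 1, 2, 9), ((5, 6, 9), 4, 6, 3), ((6, 5, 7), 6, 4, 7), ((7, 3, 6), 7, 0, 6),
    ((8, 0, 3), 8, 5, 0), ((9, 5, 10), 3, 4, 9), ((10, 4, 9), 9, 1, 3)]
  Tc := [(1, 3, 4), (2, 4, 6), (2, 4, 7), (2, 6, 7), (4, 1, 2)]
  Td := [((1, 3), (4, 2), 2), ((1, 3), (4, 10), 9), ((1, 4), (4, 2), 2), ((1, 4), (4, 10), 9),
    ((2, 4), (2, 1), 0), ((2, 4), (2, 4), 1), ((2, 6), (2, 1), 0), ((2, 6), (2, 4), 1), ((2,
    7), (2, 1), 0), ((2, 7), (2, 4), 1), ((3, 1), (9, 5), 4), ((3, 1), (9, 10), 9), ((4, 1),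
    (5, 6), 6), ((4, 1), (5, 9), 3), ((4, 2), (5, 6), 6), ((4, 2), (5, 9), 3), ((6, 2), (6,
    5), 4), ((6, 2), (6, 7), 7), ((7, 2), (7, 3), 0), ((7, 2), (7, 6), 6)]
  G := [[0, 0xa81a8192446411288641641641728a81a81324ce,
    0x4428191c281c25424198241c2542218982214ce, 0x51242d14d2c82c294c9521288a,
    0x459214882882a49245924592648821492c], [0, 0xe861641622461281c244182ee81a81a2881426c1, 0,
    0x91248dd2a2c421d8d2c2581, 0x112112112e4c492c492c492e4921]]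

noncomputable def n3340 : Ent := ⟨e3340, noF, [], [], [(8, 18, [30043303427623734937691929578474300150491519007939870628445900451934670849, 0]), (18, 16, [30044166145917083758165358922957084778673075396561391926765295767462649857, 0]), (15, 16, [31810581851548793677511941751458610980409781099126250235727204310991286273, 0])]⟩

def c3340 : PLift (Cov.check n3340.C.D v3340 = true) := ⟨by decide +kernel⟩

def b3340 : PLift (entF (fidx ts) 400 3340 n3340 = true) := ⟨by decide +kernel⟩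

theorem g3340 : GoodF (fidx ts) 400 3340 := GoodF.ofV v3340 n3340 c3340.down b3340.down

/-- 46744964:2551/1 -/
noncomputable def e3341 : SCfg where
  D := {
    a := 8
    L := 10
    kp := 8
    inn := [(0, 1), (0, 2), (0, 5), (0, 6), (1, 0), (1, 5), (1, 6), (2, 0), (2, 3), (2, 4), (2, 5), (2,
      6), (3, 2), (4, 2), (4, 5), (5, 0), (5, 1), (5, 2), (5, 4), (5, 7), (6, 0), (6, 1), (6, 2),
      (7, 5)]
    mix := [(1, 0), (1, 1), (1, 2), (2, 3), (2, 4), (3, 3), (3, 4), (3, 5), (4, 4), (4, 6), (5, 0), (5,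
      6), (5, 7), (5, 8), (6, 2), (6, 3), (6, 9), (7, 7), (7, 8), (7, 9)]
    cl := [0, 7, 3, 1, 2, 8, 0, 5, 6, 4]
    chq := [(0, 1), (0, 4), (1, 0), (1, 2), (1, 3), (1, 7), (2, 1), (3, 1), (4, 0), (7, 1)]
    rng := [(0, 1), (0, 8), (1, 0), (1, 2), (2, 1), (2, 9), (3, 5), (3, 9), (4, 5), (4, 6), (5, 3), (5,
      4), (6, 4), (6, 7), (7, 6), (7, 9), (8, 0), (8, 9), (9, 2), (9, 3), (9, 7), (9, 8)]
    lev := [] }
  links := [[1, 6, 2, 5], [6, 0, 5, 8, 9, 10], [5, 0, 6, 11, 3, 12, 4], [12, 2, 11, 13], [5, 2, 12, 14],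
    [8, 1, 0, 2, 4, 14, 15, 7, 16], [11, 2, 0, 1, 10, 17], [16, 5, 15, 17]]
  P := {
    a := 8
    N := 18
    nb := [102, 1889, 6265, 14340, 20516, 115095, 134151, 229408, 66082, 1282, 131650, 139340, 24604,
      6152, 36912, 147616, 131488, 101568]
    tri := [(0, 1, 5), (0, 1, 6), (0, 2, 5), (0, 2, 6), (1, 5, 8), (1, 6, 10), (1, 8, 9), (1, 9, 10),
      (2, 3, 11), (2, 3, 12), (2, 4, 5), (2, 4, 12), (2, 6, 11), (3, 11, 13), (3, 12, 13), (4, 5,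
      14), (4, 12, 14), (5, 7, 15), (5, 7, 16), (5, 8, 16), (5, 14, 15), (6, 10, 17), (6, 11, 17),
      (7, 15, 17), (7, 16, 17)]
    fin := [0, 0, 2, 2, 4, 4, 6, 4, 4, 0, 6, 2, 12, 13, 4, 15, 16, 17]
    chd := [(0, 2), (2, 12), (4, 2), (4, 17), (6, 2)]
    steps := [(0, 1), (0, 9), (2, 3), (2, 11), (4, 5), (4, 7), (4, 8), (4, 14), (6, 10)] }
  rep := [4, 2, 12, 6, 17, 15, 16, 0, 13]

noncomputable def v3341 : Cov.CovD where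
  P := 3
  N := 6
  pl := [5, 7, 8]
  lev := [⟨[], [], [], [], []⟩,
    ⟨[], [(0, 0), (0, 3), (0, 7)], [(0, 3), (0, 7), (3, 7)], [], [(0, 0, [1, 4]), (1, 7,
      [1]), (2, 3, [1])]⟩,
    ⟨[(0, 1)], [(0, 1), (0, 2)], [(1, 2)], [], [(3, 1, [0, 2, 3, 7]), (4, 2, [1])]⟩,
    ⟨[(0, 2)], [(2, 1), (2, 2)], [(1, 2)], [8], [(3, 1, [0, 2, 3, 7]), (4, 2, [1])]⟩,
    ⟨[(0, 2), (2, 3)], [(2, 0), (2, 1), (2, 2), (3, 2)], [(0, 2)], [], [(4, 2, [1]), (6, 0,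
      [1, 4])]⟩,
    ⟨[(0, 1), (0, 2), (0, 4), (1, 2), (1, 4), (2, 3), (2, 4)], [(0, 0), (1, 0), (1, 3), (1,
      7), (2, 0), (2, 1), (2, 2), (4, 0), (4, 2)], [(0, 0)], [5, 6], [(0, 0, [1, 4]), (6, 0,
      [1, 4])]⟩,
    ⟨[(0, 1), (0, 2), (0, 5), (1, 2), (1, 5), (2, 3), (2, 4), (2, 5)], [(0, 1), (0, 3), (0,
      4), (1, 0), (1, 1), (1, 3), (1, 4), (1, 7), (2, 1), (2, 2), (2, 3), (2, 4), (3, 1)],
      [(1, 3), (1, 4), (3, 4)], [], [(2, 3, [1]), (3, 1, [0, 2, 3, 7]), (9, 4, [0])]⟩,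
    ⟨[(0, 5), (1, 5), (2, 5), (4, 5)], [(5, 0), (5, 4), (6, 4)], [], [5, 6], [(9, 4, [0])]⟩]
  Ta := [((0, 1), 0, 7), ((0, 8), 0, 6), ((6, 4), 0, 2), ((6, 7), 0, 5)]
  Tb := [((0, 1, 8), 0, 7, 6), ((1, 0, 2), 7, 0, 3), ((2, 1, 9), 3, 7, 4), ((3, 5, 9), 1, 8, 4),
    ((4, 5, 6), 2, 8, 0), ((5, 3, 4), 8, 1, 2), ((6, 4, 7), 0, 2, 5), ((7, 6, 9), 5, 0, 4),
    ((8, 0, 9), 6, 0, 4), ((9, 2, 3), 4, 3, 1), ((9, 2, 7), 4, 3, 5), ((9, 2, 8), 4, 3, 6),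
    ((9, 3, 7), 4, 1, 5), ((9, 3, 8), 4, 1, 6), ((9, 7, 8), 4, 5, 6)]
  Tc := [(0, 1, 4), (1, 0, 2), (1, 0, 3), (1, 0, 7), (1, 2, 3), (1, 2, 7), (1, 3, 7)]
  Td := [((0, 1), (0, 1), 7), ((0, 1), (0, 8), 6), ((0, 1), (6, 4), 2), ((0, 1), (6, 7), 5), ((0,
    4), (0, 1), 7), ((0, 4), (0, 8), 6), ((0, 4), (6, 4), 2), ((0, 4), (6, 7), 5), ((1, 0),
    (3, 5), 8), ((1, 0), (3, 9), 4), ((1, 2), (3, 5), 8), ((1, 2), (3, 9), 4), ((1, 3), (3,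
    5), 8), ((1, 3), (3, 9), 4), ((1, 7), (3, 5), 8), ((1, 7), (3, 9), 4), ((2, 1), (4, 5),
    8), ((2, 1), (4, 6), 0), ((3, 1), (2, 1), 7), ((3, 1), (2, 9), 4), ((4, 0), (9, 2), 3),
    ((4, 0), (9, 3), 1), ((4, 0), (9, 7), 5), ((4, 0), (9, 8), 6), ((7, 1), (1, 0), 0), ((7,
    1), (1, 2), 3)]
  G := [[0, 0x1812a8141116141e11ce11816, 0, 0x3753b9111de8111d2879b1ca38483c8ad12444844429126,
    0x22521284f54195231475111d6889622928213118a1183bd38c283c38c299ac], [0,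
    0x41611661181111e1818e1141a,
    0x112424111d2228115115641152115111d18ecc81918a1418c61882cce1,
    0x1222a811529222e8529222e8c151222a41414c483c8ab4c11c68c1a5,
    0x4f5421191d233534fdca8922252828212182a2819523138ca1888218283c8a99ec]]

noncomputable def n3341 : Ent := ⟨e3341, noF, [], [], []⟩

def c3341 : PLift (Cov.check n3341.C.D v3341 = true) := ⟨by decide +kernel⟩

def b3341 : PLift (entF (fidx ts) 400 3341 n3341 = true) := ⟨by decide +kernel⟩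

theorem g3341 : GoodF (fidx ts) 400 3341 := GoodF.ofV v3341 n3341 c3341.down b3341.down

/-- 46744964:2551/2 -/
noncomputable def e3342 : SCfg where
  D := {
    a := 8
    L := 10
    kp := 8
    inn := [(0, 1), (0, 2), (0, 5), (0, 6), (1, 0), (1, 5), (1, 6), (2, 0), (2, 3), (2, 4), (2, 5), (2,
      6), (3, 2), (4, 2), (4, 5), (5, 0), (5, 1), (5, 2), (5, 4), (5, 7), (6, 0), (6, 1), (6, 2),
      (7, 5)]
    mix := [(1, 0), (1, 1), (1, 2), (2, 3), (2, 4), (3, 3), (3, 4), (3, 5), (4, 4), (4, 6), (5, 0), (5,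
      6), (5, 7), (5, 8), (6, 2), (6, 3), (6, 9), (7, 5), (7, 7), (7, 8)]
    cl := [3, 7, 4, 0, 1, 2, 3, 5, 6, 8]
    chq := [(0, 1), (0, 3), (0, 4), (0, 7), (1, 0), (2, 3), (3, 0), (3, 2), (4, 0), (7, 0)]
    rng := [(0, 1), (0, 8), (1, 0), (1, 2), (2, 1), (2, 9), (3, 5), (3, 9), (4, 5), (4, 6), (5, 3), (5,
      4), (5, 7), (5, 8), (6, 4), (6, 7), (7, 5), (7, 6), (8, 0), (8, 5), (9, 2), (9, 3)]
    lev := [] }
  links := [[1, 6, 2, 5], [6, 0, 5, 8, 9, 10], [5, 0, 6, 11, 3, 12, 4], [12, 2, 11, 13], [5, 2, 12, 14],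
    [8, 1, 0, 2, 4, 14, 15, 7, 16], [11, 2, 0, 1, 10, 17], [16, 5, 15, 13]]
  P := {
    a := 8
    N := 18
    nb := [102, 1889, 6265, 14340, 20516, 115095, 134151, 106528, 66082, 1282, 131650, 139340, 24604,
      104584, 36912, 24736, 8608, 3136]
    tri := [(0, 1, 5), (0, 1, 6), (0, 2, 5), (0, 2, 6), (1, 5, 8), (1, 6, 10), (1, 8, 9), (1, 9, 10),
      (2, 3, 11), (2, 3, 12), (2, 4, 5), (2, 4, 12), (2, 6, 11), (3, 11, 13), (3, 12, 13), (4, 5,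
      14), (4, 12, 14), (5, 7, 15), (5, 7, 16), (5, 8, 16), (5, 14, 15), (6, 10, 17), (6, 11, 17),
      (7, 13, 15), (7, 13, 16)]
    fin := [0, 0, 2, 2, 4, 4, 6, 4, 4, 0, 6, 2, 12, 13, 4, 15, 16, 17]
    chd := [(0, 2), (2, 12), (4, 2), (4, 13), (6, 2)]
    steps := [(0, 1), (0, 9), (2, 3), (2, 11), (4, 5), (4, 7), (4, 8), (4, 14), (6, 10)] }
  rep := [2, 12, 13, 4, 6, 15, 16, 0, 17]

noncomputable def v3342 : Cov.CovD where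
  P := 3
  N := 6
  pl := [7, 8, 9]
  lev := [⟨[], [], [], [], []⟩,
    ⟨[], [(0, 3), (0, 4), (0, 7)], [(3, 4), (3, 7), (4, 7)], [], [(0, 3, [0, 2]), (1, 7,
      [0]), (2, 4, [0])]⟩,
    ⟨[(0, 1)], [(0, 0), (0, 1)], [(0, 1)], [], [(3, 0, [1, 3, 4, 7]), (4, 1, [0])]⟩,
    ⟨[(0, 2)], [(2, 0), (2, 1), (2, 2)], [(0, 1), (0, 2), (1, 2)], [], [(3, 0, [1, 3, 4,
      7]), (4, 1, [0]), (5, 2, [3])]⟩,
    ⟨[(0, 2), (2, 3)], [(2, 0), (2, 1), (2, 3), (3, 1)], [(1, 3)], [], [(4, 1, [0]), (6, 3,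
      [0, 2])]⟩,
    ⟨[(0, 1), (0, 2), (0, 4), (1, 2), (1, 4), (2, 3), (2, 4)], [(0, 3), (1, 3), (1, 4), (1,
      7), (2, 0), (2, 1), (2, 3), (4, 1), (4, 3)], [(3, 3)], [5, 6], [(0, 3, [0, 2]), (6, 3,
      [0, 2])]⟩,
    ⟨[(0, 1), (0, 2), (0, 5), (1, 2), (1, 5), (2, 3), (2, 4), (2, 5)], [(0, 0), (0, 4), (1,
      0), (1, 3), (1, 4), (1, 7), (2, 0), (2, 1), (2, 4), (3, 0)], [(0, 4)], [8], [(2, 4,
      [0]), (3, 0, [1, 3, 4, 7])]⟩,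
    ⟨[(0, 5), (1, 5), (2, 5), (4, 5)], [(3, 2), (5, 2), (5, 3)], [], [5, 6], [(5, 2, [3])]⟩]
  Ta := [((0, 1), 3, 7), ((0, 8), 3, 6), ((6, 4), 3, 1), ((6, 7), 3, 5)]
  Tb := [((0, 1, 8), 3, 7, 6), ((1, 0, 2), 7, 3, 4), ((2, 1, 9), 4, 7, 8), ((3, 5, 9), 0, 2, 8),
    ((4, 5, 6), 1, 2, 3), ((5, 3, 4), 2, 0, 1), ((5, 3, 7), 2, 0, 5), ((5, 3, 8), 2, 0, 6),
    ((5, 4, 7), 2, 1, 5), ((5, 4, 8), 2, 1, 6), ((5, 7, 8), 2, 5, 6), ((6, 4, 7), 3, 1, 5),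
    ((7, 5, 6), 5, 2, 3), ((8, 0, 5), 6, 3, 2), ((9, 2, 3), 8, 4, 0)]
  Tc := [(0, 1, 3), (0, 1, 4), (0, 1, 7), (0, 3, 4), (0, 3, 7), (0, 4, 7), (3, 0, 2)]
  Td := [((0, 1), (3, 5), 2), ((0, 1), (3, 9), 8), ((0, 3), (3, 5), 2), ((0, 3), (3, 9), 8), ((0,
    4), (3, 5), 2), ((0, 4), (3, 9), 8), ((0, 7), (3, 5), 2), ((0, 7), (3, 9), 8), ((1, 0),
    (4, 5), 2), ((1, 0), (4, 6), 3), ((2, 3), (5, 3), 0), ((2, 3), (5, 4), 1), ((2, 3), (5,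
    7), 5), ((2, 3), (5, 8), 6), ((3, 0), (0, 1), 7), ((3, 0), (0, 8), 6), ((3, 0), (6, 4),
    1), ((3, 0), (6, 7), 5), ((3, 2), (0, 1), 7), ((3, 2), (0, 8), 6), ((3, 2), (6, 4), 1),
    ((3, 2), (6, 7), 5), ((4, 0), (2, 1), 7), ((4, 0), (2, 9), 8), ((7, 0), (1, 0), 3), ((7,
    0), (1, 2), 4)]
  G := [[0, 0xd228841444eddc614e41848988aeea92cc16, 0xeeee188412, 0xddde218418,
    0x111b188499accce5556222ea9845111d18849441888818c3a], [0,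
    0x111c123482111c1234811141c1a348266444ec1488814ada, 0xe4148eeee1eea1c8c12,
    0xdd621d821c814, 0x481bba222e6984111514818188c88a8184311171488b4ee6548a8184858c9e]]

noncomputable def n3342 : Ent := ⟨e3342, noF, [], [], []⟩

def c3342 : PLift (Cov.check n3342.C.D v3342 = true) := ⟨by decide +kernel⟩

def b3342 : PLift (entF (fidx ts) 400 3342 n3342 = true) := ⟨by decide +kernel⟩

theorem g3342 : GoodF (fidx ts) 400 3342 := GoodF.ofV v3342 n3342 c3342.down b3342.down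

/-- 46744964:2551 -/
noncomputable def e3343 : SCfg where
  D := {
    a := 8
    L := 11
    kp := 9
    inn := [(0, 1), (0, 2), (0, 5), (0, 6), (1, 0), (1, 5), (1, 6), (2, 0), (2, 3), (2, 4), (2, 5), (2,
      6), (3, 2), (4, 2), (4, 5), (5, 0), (5, 1), (5, 2), (5, 4), (5, 7), (6, 0), (6, 1), (6, 2),
      (7, 5)]
    mix := [(1, 0), (1, 1), (1, 2), (2, 3), (2, 4), (3, 3), (3, 4), (3, 5), (4, 4), (4, 6), (5, 0), (5,
      6), (5, 7), (5, 8), (6, 2), (6, 3), (6, 9), (7, 7), (7, 8), (7, 10)]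
    cl := [0, 6, 3, 1, 2, 8, 0, 4, 5, 9, 7]
    chq := [(0, 1), (0, 7), (1, 0), (1, 2), (1, 3), (1, 6), (2, 1), (3, 1), (6, 1), (7, 0)]
    rng := [(0, 1), (0, 8), (1, 0), (1, 2), (2, 1), (2, 9), (3, 5), (3, 9), (4, 5), (4, 6), (5, 3), (5,
      4), (6, 4), (6, 7), (7, 6), (7, 10), (8, 0), (8, 10), (9, 2), (9, 3), (10, 7), (10, 8)]
    lev := [] }
  links := [[1, 6, 2, 5], [6, 0, 5, 8, 9, 10], [5, 0, 6, 11, 3, 12, 4], [12, 2, 11, 13], [5, 2, 12, 14],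
    [8, 1, 0, 2, 4, 14, 15, 7, 16], [11, 2, 0, 1, 10, 17], [16, 5, 15, 18]]
  P := {
    a := 8
    N := 19
    nb := [102, 1889, 6265, 14340, 20516, 115095, 134151, 360480, 66082, 1282, 131650, 139340, 24604,
      6152, 36912, 278688, 262560, 3136, 98432]
    tri := [(0, 1, 5), (0, 1, 6), (0, 2, 5), (0, 2, 6), (1, 5, 8), (1, 6, 10), (1, 8, 9), (1, 9, 10),
      (2, 3, 11), (2, 3, 12), (2, 4, 5), (2, 4, 12), (2, 6, 11), (3, 11, 13), (3, 12, 13), (4, 5,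
      14), (4, 12, 14), (5, 7, 15), (5, 7, 16), (5, 8, 16), (5, 14, 15), (6, 10, 17), (6, 11, 17),
      (7, 15, 18), (7, 16, 18)]
    fin := [0, 0, 2, 2, 4, 4, 6, 4, 4, 0, 6, 2, 12, 13, 4, 15, 16, 17, 18]
    chd := [(0, 2), (2, 12), (4, 2), (4, 18), (6, 2)]
    steps := [(0, 1), (0, 9), (2, 3), (2, 11), (4, 5), (4, 7), (4, 8), (4, 14), (6, 10)] }
  rep := [4, 2, 12, 6, 15, 16, 0, 18, 13, 17]

noncomputable def v3343 : Cov.CovD where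
  P := 3
  N := 7
  pl := [5, 7, 8, 9]
  lev := [⟨[], [], [], [], []⟩,
    ⟨[], [(0, 0), (0, 3), (0, 6)], [(0, 3), (0, 6), (3, 6)], [], [(0, 0, [1, 7]), (1, 6,
      [1]), (2, 3, [1])]⟩,
    ⟨[(0, 1)], [(0, 1), (0, 2)], [(1, 2)], [], [(3, 1, [0, 2, 3, 6]), (4, 2, [1])]⟩,
    ⟨[(0, 2)], [(2, 1), (2, 2)], [(1, 2)], [8], [(3, 1, [0, 2, 3, 6]), (4, 2, [1])]⟩,
    ⟨[(0, 2), (2, 3)], [(2, 0), (2, 1), (2, 2), (3, 2)], [(0, 2)], [], [(4, 2, [1]), (6, 0,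
      [1, 7])]⟩,
    ⟨[(0, 1), (0, 2), (0, 4), (1, 2), (1, 4), (2, 3), (2, 4)], [(0, 0), (1, 0), (1, 3), (1,
      6), (2, 0), (2, 1), (2, 2), (4, 0), (4, 2)], [(0, 0)], [4, 5], [(0, 0, [1, 7]), (6, 0,
      [1, 7])]⟩,
    ⟨[(0, 1), (0, 2), (0, 5), (1, 2), (1, 5), (2, 3), (2, 4), (2, 5)], [(0, 1), (0, 3), (1,
      0), (1, 1), (1, 3), (1, 6), (2, 1), (2, 2), (2, 3), (3, 1)], [(1, 3)], [9], [(2, 3,
      [1]), (3, 1, [0, 2, 3, 6])]⟩,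
    ⟨[(0, 5), (1, 5), (2, 5), (4, 5)], [(5, 0), (5, 7)], [], [4, 5], [(10, 7, [0])]⟩]
  Ta := [((0, 1), 0, 6), ((0, 8), 0, 5), ((6, 4), 0, 2), ((6, 7), 0, 4)]
  Tb := [((0, 1, 8), 0, 6, 5), ((1, 0, 2), 6, 0, 3), ((2, 1, 9), 3, 6, 9), ((3, 5, 9), 1, 8, 9),
    ((4, 5, 6), 2, 8, 0), ((5, 3, 4), 8, 1, 2), ((6, 4, 7), 0, 2, 4), ((7, 6, 10), 4, 0, 7),
    ((8, 0, 10), 5, 0, 7), ((9, 2, 3), 9, 3, 1), ((10, 7, 8), 7, 4, 5)]
  Tc := [(0, 1, 7), (1, 0, 2), (1, 0, 3), (1, 0, 6), (1, 2, 3), (1, 2, 6), (1, 3, 6)]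
  Td := [((0, 1), (0, 1), 6), ((0, 1), (0, 8), 5), ((0, 1), (6, 4), 2), ((0, 1), (6, 7), 4), ((0,
    7), (0, 1), 6), ((0, 7), (0, 8), 5), ((0, 7), (6, 4), 2), ((0, 7), (6, 7), 4), ((1, 0),
    (3, 5), 8), ((1, 0), (3, 9), 9), ((1, 2), (3, 5), 8), ((1, 2), (3, 9), 9), ((1, 3), (3,
    5), 8), ((1, 3), (3, 9), 9), ((1, 6), (3, 5), 8), ((1, 6), (3, 9), 9), ((2, 1), (4, 5),
    8), ((2, 1), (4, 6), 0), ((3, 1), (2, 1), 6), ((3, 1), (2, 9), 9), ((6, 1), (1, 0), 0),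
    ((6, 1), (1, 2), 3), ((7, 0), (10, 7), 4), ((7, 0), (10, 8), 5)]
  G := [[0, 0x1221181111e11c611111e881c1a, 0, 0xfffd333dc4bbbd777dc2c12111d285425592c9423,
    0x1152811de2891774d4267c489161d9222171b111dde11111d2bbbd31cabbc18c299ac], [0,
    0x1411664181111e11a18e1141a,
    0x115111da11946481422283111d2224112828115441448c111d18111de81888cce5,
    0x38959a8111c2bbbd8a94249592b26528a483777d4834ffcc89126,
    0x142225822293838511decbbd8a182bbc8a91111e28119e2291b775427f519563178ca9825]]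

noncomputable def n3343 : Ent := ⟨e3343, noF, [], [], [(17, 18, [30043303427623734937691929578474300150491519007939870628445900451934687233, 0]), (13, 18, [30043303427623734937691929578474300150491519007939870628445900451934691329, 0])]⟩

def c3343 : PLift (Cov.check n3343.C.D v3343 = true) := ⟨by decide +kernel⟩

def b3343 : PLift (entF (fidx ts) 400 3343 n3343 = true) := ⟨by decide +kernel⟩

theorem g3343 : GoodF (fidx ts) 400 3343 := GoodF.ofV v3343 n3343 c3343.down b3343.down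

/-- 46744684:2553/2 -/
noncomputable def e3344 : SCfg where
  D := {
    a := 8
    L := 9
    kp := 6
    inn := [(0, 1), (0, 2), (0, 5), (1, 0), (1, 5), (2, 0), (2, 3), (2, 4), (2, 5), (2, 6), (3, 2), (3,
      6), (4, 2), (4, 6), (5, 0), (5, 1), (5, 2), (6, 2), (6, 3), (6, 4), (6, 7), (7, 6)]
    mix := [(0, 0), (1, 0), (1, 1), (1, 2), (1, 3), (2, 0), (2, 4), (3, 4), (3, 5), (4, 0), (4, 6), (5,
      3), (5, 4), (5, 7), (6, 2), (6, 5), (6, 6), (6, 8), (7, 1), (7, 2), (7, 5)]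
    cl := [3, 5, 2, 3, 0, 1, 4, 6, 1]
    chq := [(0, 3), (0, 4), (3, 0), (4, 0)]
    rng := [(0, 1), (0, 6), (1, 0), (1, 2), (1, 5), (2, 1), (2, 3), (2, 8), (3, 2), (3, 7), (4, 5), (4,
      7), (5, 1), (5, 4), (6, 0), (6, 8), (7, 3), (7, 4), (8, 2), (8, 6)]
    lev := [] }
  links := [[1, 5, 2, 8], [5, 0, 8, 9, 10, 11], [8, 0, 5, 12, 3, 6, 4], [6, 2, 12, 13], [8, 2, 6, 14],
    [12, 2, 0, 1, 11, 15], [14, 4, 2, 3, 13, 7, 10, 16], [10, 6, 13, 9]]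
  P := {
    a := 8
    N := 17
    nb := [294, 3873, 4473, 12356, 16708, 38919, 91292, 9792, 16919, 9602, 68290, 33826, 41004, 4808,
      65872, 6176, 17472]
    tri := [(0, 1, 5), (0, 1, 8), (0, 2, 5), (0, 2, 8), (1, 5, 11), (1, 8, 9), (1, 9, 10), (1, 10, 11),
      (2, 3, 6), (2, 3, 12), (2, 4, 6), (2, 4, 8), (2, 5, 12), (3, 6, 13), (3, 12, 13), (4, 6,
      14), (4, 8, 14), (5, 11, 15), (5, 12, 15), (6, 7, 10), (6, 7, 13), (6, 10, 16), (6, 14, 16),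
      (7, 9, 10), (7, 9, 13)]
    fin := [0, 0, 2, 2, 2, 0, 6, 7, 0, 7, 10, 0, 2, 6, 14, 15, 6]
    chd := [(0, 2), (2, 14)]
    steps := [(0, 1), (0, 5), (0, 8), (0, 11), (2, 3), (2, 4), (2, 12), (6, 13), (6, 16), (7, 9)] }
  rep := [2, 6, 10, 0, 14, 7, 15]

noncomputable def v3344 : Cov.CovD where
  P := 3
  N := 4
  pl := [1, 2, 7]
  lev := [⟨[], [], [], [], [(0, 3, [0])]⟩,
    ⟨[], [(0, 3)], [(3, 3)], [2, 5], [(0, 3, [0]), (3, 3, [0])]⟩,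
    ⟨[(0, 1)], [(0, 0), (0, 3), (1, 3)], [(0, 3)], [], [(0, 3, [0]), (4, 0, [3, 4])]⟩,
    ⟨[(0, 2)], [(2, 0), (2, 1), (2, 3)], [(0, 1)], [], [(4, 0, [3, 4]), (5, 1, [])]⟩,
    ⟨[(0, 2), (2, 3)], [(0, 3), (1, 3), (2, 0), (2, 3), (2, 4)], [(3, 4)], [], [(0, 3,
      [0]), (6, 4, [0])]⟩,
    ⟨[(0, 1), (0, 2), (1, 2), (2, 3), (2, 4)], [(0, 0), (0, 3), (1, 0), (1, 3), (2, 0), (2,
      3), (3, 0)], [(0, 3)], [6], [(3, 3, [0]), (4, 0, [3, 4])]⟩,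
    ⟨[(0, 2), (2, 3), (2, 4), (2, 5), (3, 4)], [(2, 0), (2, 1), (2, 3), (2, 4), (3, 0), (3,
      1), (3, 4), (4, 1), (4, 3), (4, 4)], [(1, 1), (1, 4)], [2], [(5, 1, []), (6, 4, [0]),
      (8, 1, [])]⟩,
    ⟨[(2, 6), (3, 6), (4, 6)], [(3, 1), (6, 1), (6, 4)], [], [2, 5], [(5, 1, [])]⟩]
  Ta := [((0, 1), 3, 5), ((0, 6), 3, 4), ((3, 2), 3, 2), ((3, 7), 3, 6), ((5, 1), 1, 5), ((5, 4),
    1, 0), ((8, 2), 1, 2), ((8, 6), 1, 4)]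
  Tb := [((0, 1, 6), 3, 5, 4), ((1, 0, 2), 5, 3, 2), ((1, 0, 5), 5, 3, 1), ((1, 2, 5), 5, 2, 1),
    ((2, 1, 3), 2, 5, 3), ((2, 1, 8), 2, 5, 1), ((2, 3, 8), 2, 3, 1), ((3, 2, 7), 3, 2, 6),
    ((4, 5, 7), 0, 1, 6), ((5, 1, 4), 1, 5, 0), ((6, 0, 8), 4, 3, 1), ((7, 3, 4), 6, 3, 0),
    ((8, 2, 6), 1, 2, 4)]
  Tc := [(0, 3, 4)]
  Td := [((0, 3), (4, 5), 1), ((0, 3), (4, 7), 6), ((0, 4), (4, 5), 1), ((0, 4), (4, 7), 6), ((3,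
    0), (0, 1), 5), ((3, 0), (0, 6), 4), ((3, 0), (3, 2), 2), ((3, 0), (3, 7), 6), ((4, 0),
    (6, 0), 3), ((4, 0), (6, 8), 1)]
  G := [[0, 0x844ccc1c881c212, 0x48c8461488214c4421848c48a18c44c4188c82c2e1, 0,
    0x9111c2842812812814e8411218918a58493], [0, 0xc4c444e1c8c888e1c218,
    0x88c88c84e14244c44c48e182442188821444818842cee1, 0, 0x11911981e28418181c284911996284a9],
    [0, 0, 0x28c214822c218422c22cc182e1, 0x811162284141c2828141c282d1,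
    0x2122125882111a2818a3841292184b4], [0, 0,
    0x28c28cc1822424a142821828418ea2442cc1448818c46, 0x8181a224414162281488185e142d1,
    0x8181c224212121e21216a842121c248b1]]

noncomputable def n3344 : Ent := ⟨e3344, noF, [], [], []⟩

def c3344 : PLift (Cov.check n3344.C.D v3344 = true) := ⟨by decide +kernel⟩

def b3344 : PLift (entF (fidx ts) 400 3344 n3344 = true) := ⟨by decide +kernel⟩

theorem g3344 : GoodF (fidx ts) 400 3344 := GoodF.ofV v3344 n3344 c3344.down b3344.down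

/-- 46744684:2553/1 -/
noncomputable def e3345 : SCfg where
  D := {
    a := 8
    L := 10
    kp := 7
    inn := [(0, 1), (0, 2), (0, 5), (1, 0), (1, 5), (2, 0), (2, 3), (2, 4), (2, 5), (2, 6), (3, 2), (3,
      6), (4, 2), (4, 6), (5, 0), (5, 1), (5, 2), (6, 2), (6, 3), (6, 4), (6, 7), (7, 6)]
    mix := [(0, 0), (1, 0), (1, 1), (1, 2), (1, 3), (2, 0), (2, 4), (3, 4), (3, 5), (4, 0), (4, 6), (5,
      3), (5, 4), (5, 7), (6, 5), (6, 6), (6, 8), (6, 9), (7, 1), (7, 5), (7, 8)]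
    cl := [0, 2, 6, 0, 3, 4, 1, 7, 5, 4]
    chq := [(0, 3), (1, 3), (3, 0), (3, 1)]
    rng := [(0, 1), (0, 6), (1, 0), (1, 2), (1, 5), (1, 8), (2, 1), (2, 3), (3, 2), (3, 7), (4, 5), (4,
      7), (5, 1), (5, 4), (6, 0), (6, 9), (7, 3), (7, 4), (8, 1), (8, 9), (9, 6), (9, 8)]
    lev := [] }
  links := [[1, 5, 2, 8], [5, 0, 8, 9, 10, 11], [8, 0, 5, 12, 3, 6, 4], [6, 2, 12, 13], [8, 2, 6, 14],
    [12, 2, 0, 1, 11, 15], [14, 4, 2, 3, 13, 7, 16, 17], [16, 6, 13, 9]]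
  P := {
    a := 8
    N := 18
    nb := [294, 3873, 4473, 12356, 16708, 38919, 221340, 74304, 16919, 75138, 2562, 33826, 41004,
      4808, 131408, 6176, 131776, 81984]
    tri := [(0, 1, 5), (0, 1, 8), (0, 2, 5), (0, 2, 8), (1, 5, 11), (1, 8, 9), (1, 9, 10), (1, 10, 11),
      (2, 3, 6), (2, 3, 12), (2, 4, 6), (2, 4, 8), (2, 5, 12), (3, 6, 13), (3, 12, 13), (4, 6,
      14), (4, 8, 14), (5, 11, 15), (5, 12, 15), (6, 7, 13), (6, 7, 16), (6, 14, 17), (6, 16, 17),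
      (7, 9, 13), (7, 9, 16)]
    fin := [0, 0, 2, 2, 2, 0, 6, 7, 0, 7, 10, 0, 2, 6, 14, 15, 16, 6]
    chd := [(0, 2), (2, 14)]
    steps := [(0, 1), (0, 5), (0, 8), (0, 11), (2, 3), (2, 4), (2, 12), (6, 13), (6, 17), (7, 9)] }
  rep := [0, 14, 7, 2, 6, 16, 10, 15]

noncomputable def v3345 : Cov.CovD where
  P := 3
  N := 5
  pl := [1, 2, 7, 8]
  lev := [⟨[], [], [], [], [(0, 0, [3])]⟩,
    ⟨[], [(0, 0)], [(0, 0)], [2, 6], [(0, 0, [3]), (3, 0, [3])]⟩,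
    ⟨[(0, 1)], [(0, 0), (0, 3), (1, 0)], [(0, 3)], [], [(0, 0, [3]), (4, 3, [0, 1])]⟩,
    ⟨[(0, 2)], [(2, 0), (2, 3), (2, 4)], [(3, 4)], [], [(4, 3, [0, 1]), (5, 4, [])]⟩,
    ⟨[(0, 2), (2, 3)], [(0, 0), (1, 0), (2, 0), (2, 1), (2, 3)], [(0, 1)], [], [(0, 0,
      [3]), (6, 1, [3])]⟩,
    ⟨[(0, 1), (0, 2), (1, 2), (2, 3), (2, 4)], [(0, 0), (0, 3), (1, 0), (1, 3), (2, 0), (2,
      3), (3, 3)], [(0, 3)], [7], [(3, 0, [3]), (4, 3, [0, 1])]⟩,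
    ⟨[(0, 2), (2, 3), (2, 4), (2, 5), (3, 4)], [(2, 0), (2, 1), (2, 3), (2, 4), (3, 1), (3,
      3), (3, 4), (4, 0), (4, 1), (4, 4)], [(1, 4), (4, 4)], [5], [(5, 4, []), (6, 1, [3]),
      (9, 4, [])]⟩,
    ⟨[(2, 6), (3, 6), (4, 6)], [(3, 4), (6, 1), (6, 4)], [], [2, 5], [(5, 4, [])]⟩]
  Ta := [((0, 1), 0, 2), ((0, 6), 0, 1), ((3, 2), 0, 6), ((3, 7), 0, 7), ((5, 1), 4, 2), ((5, 4),
    4, 3), ((9, 6), 4, 1), ((9, 8), 4, 5)]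
  Tb := [((0, 1, 6), 0, 2, 1), ((1, 0, 2), 2, 0, 6), ((1, 0, 5), 2, 0, 4), ((1, 0, 8), 2, 0, 5),
    ((1, 2, 5), 2, 6, 4), ((1, 2, 8), 2, 6, 5), ((1, 5, 8), 2, 4, 5), ((2, 1, 3), 6, 2, 0),
    ((3, 2, 7), 0, 6, 7), ((4, 5, 7), 3, 4, 7), ((5, 1, 4), 4, 2, 3), ((6, 0, 9), 1, 0, 4),
    ((7, 3, 4), 7, 0, 3), ((8, 1, 9), 5, 2, 4), ((9, 6, 8), 4, 1, 5)]
  Tc := [(3, 0, 1)]
  Td := [((0, 3), (0, 1), 2), ((0, 3), (0, 6), 1), ((0, 3), (3, 2), 6), ((0, 3), (3, 7), 7), ((1,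
    3), (6, 0), 0), ((1, 3), (6, 9), 4), ((3, 0), (4, 5), 4), ((3, 0), (4, 7), 7), ((3, 1),
    (4, 5), 4), ((3, 1), (4, 7), 7)]
  G := [[0, 0x1412485a121815e141e19a144161149e181ac4, 0xe11412e11812a4,
    0x1188348888a4344822441541538a4444988819819dc2a4151442324154159881c2acc,
    0x24821d821dd4222221d2a1d34222c112a1dd82c2412198199c24aa], [0,
    0x41612141a121c18618184a121cc2, 0xa11812611412a4,
    0x41544a8819444c5148889cd211419a444c449848c93c92c4,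
    0x21116484242a2d7452215215c42a2d1892a8], [0, 0, 0,
    0x4154822444415682111168198c2444444e888888ec2d111111e4485288819a4244446888888ec2dc1188c4228b,
    0xa482c6421882482ce421a8841242112422a1d219215e82821d842e21524219e421111682cab], [0, 0, 0,
    0x11116881285444444e889849849ec1ac1241415881148444856888888ecb6c1,
    0x8a2d82c641211242231d225c4819c281c4c2ba21511a1889828c]]

noncomputable def n3345 : Ent := ⟨e3345, noF, [], [], [(10, 16, [7334685537875745012586738086077695515070955365108989538292687707373569, 0])]⟩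

def c3345 : PLift (Cov.check n3345.C.D v3345 = true) := ⟨by decide +kernel⟩

def b3345 : PLift (entF (fidx ts) 400 3345 n3345 = true) := ⟨by decide +kernel⟩

theorem g3345 : GoodF (fidx ts) 400 3345 := GoodF.ofV v3345 n3345 c3345.down b3345.down

/-- 46744684:2553/5 -/
noncomputable def e3346 : SCfg where
  D := {
    a := 8
    L := 8
    kp := 5
    inn := [(0, 1), (0, 2), (0, 5), (1, 0), (1, 5), (2, 0), (2, 3), (2, 4), (2, 5), (2, 6), (3, 2), (3,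
      6), (4, 2), (4, 6), (5, 0), (5, 1), (5, 2), (6, 2), (6, 3), (6, 4), (6, 7), (7, 6)]
    mix := [(0, 0), (1, 0), (1, 1), (1, 2), (1, 3), (2, 0), (2, 4), (3, 4), (3, 5), (4, 0), (4, 1), (5,
      3), (5, 4), (5, 6), (6, 1), (6, 2), (6, 5), (6, 7), (7, 5), (7, 6), (7, 7)]
    cl := [0, 2, 1, 0, 3, 1, 4, 5]
    chq := [(0, 3), (2, 3), (3, 0), (3, 2)]
    rng := [(0, 1), (1, 0), (1, 2), (2, 1), (2, 3), (2, 7), (3, 2), (3, 6), (4, 5), (4, 6), (5, 4), (5,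
      6), (6, 3), (6, 4), (6, 5), (6, 7), (7, 2), (7, 6)]
    lev := [] }
  links := [[1, 5, 2, 8], [5, 0, 8, 9, 10, 11], [8, 0, 5, 12, 3, 6, 4], [6, 2, 12, 13], [8, 2, 6, 9],
    [12, 2, 0, 1, 11, 14], [9, 4, 2, 3, 13, 7, 15, 10], [15, 6, 13, 14]]
  P := {
    a := 8
    N := 16
    nb := [294, 3873, 4473, 12356, 836, 22535, 42652, 57408, 535, 1362, 35394, 17442, 24620, 20680,
      47264, 17600]
    tri := [(0, 1, 5), (0, 1, 8), (0, 2, 5), (0, 2, 8), (1, 5, 11), (1, 8, 9), (1, 9, 10), (1, 10, 11),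
      (2, 3, 6), (2, 3, 12), (2, 4, 6), (2, 4, 8), (2, 5, 12), (3, 6, 13), (3, 12, 13), (4, 6, 9),
      (4, 8, 9), (5, 11, 14), (5, 12, 14), (6, 7, 13), (6, 7, 15), (6, 9, 10), (6, 10, 15), (7,
      13, 14), (7, 14, 15)]
    fin := [0, 0, 2, 2, 2, 0, 6, 6, 0, 2, 6, 0, 12, 6, 14, 15]
    chd := [(0, 12), (2, 12)]
    steps := [(0, 1), (0, 5), (0, 8), (0, 11), (2, 3), (2, 4), (2, 9), (6, 7), (6, 10), (6, 13)] }
  rep := [0, 6, 2, 12, 14, 15]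

noncomputable def v3346 : Cov.CovD where
  P := 3
  N := 3
  pl := [6, 7]
  lev := [⟨[], [], [], [], [(0, 0, [3])]⟩,
    ⟨[], [(0, 0), (0, 1), (0, 2)], [(0, 0), (0, 1), (0, 2), (1, 2)], [], [(0, 0, [3]), (1,
      2, [3]), (2, 1, []), (3, 0, [3])]⟩,
    ⟨[(0, 1)], [(0, 0), (0, 3), (1, 0)], [(0, 3)], [], [(0, 0, [3]), (4, 3, [0, 2])]⟩,
    ⟨[(0, 2)], [(2, 0), (2, 1), (2, 3)], [(1, 3)], [], [(4, 3, [0, 2]), (5, 1, [])]⟩,
    ⟨[(0, 2), (2, 3)], [(0, 0), (1, 0), (1, 2), (2, 0), (2, 2), (2, 3)], [(0, 2)], [], [(0,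
      0, [3]), (1, 2, [3])]⟩,
    ⟨[(0, 1), (0, 2), (1, 2), (2, 3), (2, 4)], [(0, 0), (0, 3), (1, 0), (1, 1), (1, 2), (1,
      3), (2, 0), (2, 3), (3, 3)], [(0, 3)], [4], [(3, 0, [3]), (4, 3, [0, 2])]⟩,
    ⟨[(0, 2), (2, 3), (2, 4), (2, 5), (3, 4)], [(1, 1), (1, 2), (2, 0), (2, 1), (2, 2), (2,
      3), (3, 1), (3, 2), (3, 3), (4, 0), (4, 1), (4, 2)], [(1, 1), (1, 2)], [5], [(1, 2,
      [3]), (2, 1, []), (5, 1, [])]⟩,
    ⟨[(2, 6), (3, 6), (4, 6)], [(3, 1), (6, 1), (6, 2)], [], [4, 5], [(5, 1, [])]⟩]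
  Ta := [((0, 1), 0, 2), ((2, 1), 1, 2), ((2, 3), 1, 0), ((2, 7), 1, 5), ((3, 2), 0, 1), ((3, 6),
    0, 4), ((5, 4), 1, 3), ((5, 6), 1, 4)]
  Tb := [((1, 0, 2), 2, 0, 1), ((2, 1, 3), 1, 2, 0), ((2, 1, 7), 1, 2, 5), ((2, 3, 7), 1, 0, 5),
    ((3, 2, 6), 0, 1, 4), ((4, 5, 6), 3, 1, 4), ((5, 4, 6), 1, 3, 4), ((6, 3, 4), 4, 0, 3),
    ((6, 3, 5), 4, 0, 1), ((6, 3, 7), 4, 0, 5), ((6, 4, 5), 4, 3, 1), ((6, 4, 7), 4, 3, 5),
    ((6, 5, 7), 4, 1, 5), ((7, 2, 6), 5, 1, 4)]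
  Tc := [(3, 0, 2)]
  Td := [((0, 3), (0, 1), 2), ((0, 3), (3, 2), 1), ((0, 3), (3, 6), 4), ((2, 3), (1, 0), 0), ((2,
    3), (1, 2), 1), ((3, 0), (4, 5), 1), ((3, 0), (4, 6), 4), ((3, 2), (4, 5), 1), ((3, 2),
    (4, 6), 4)]
  G := [[0, 0, 0x12c141244, 0x12c241288, 0xc19222482], [0, 0, 0x59c1211dc181628, 0,
    0x1111a88848d49d25482], [0, 0x11c14c11ce82184, 0, 0x22c281288, 0x259284288], [0, 0, 0, 0,
    0x11828854988e254111a848485681]]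

noncomputable def n3346 : Ent := ⟨e3346, noF, [], [], []⟩

def c3346 : PLift (Cov.check n3346.C.D v3346 = true) := ⟨by decide +kernel⟩

def b3346 : PLift (entF (fidx ts) 400 3346 n3346 = true) := ⟨by decide +kernel⟩

theorem g3346 : GoodF (fidx ts) 400 3346 := GoodF.ofV v3346 n3346 c3346.down b3346.down

/-- 46744684:2553/4 -/
noncomputable def e3347 : SCfg where
  D := {
    a := 8
    L := 9
    kp := 6
    inn := [(0, 1), (0, 2), (0, 5), (1, 0), (1, 5), (2, 0), (2, 3), (2, 4), (2, 5), (2, 6), (3, 2), (3,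
      6), (4, 2), (4, 6), (5, 0), (5, 1), (5, 2), (6, 2), (6, 3), (6, 4), (6, 7), (7, 6)]
    mix := [(0, 0), (1, 0), (1, 1), (1, 2), (1, 3), (2, 0), (2, 4), (3, 4), (3, 5), (4, 0), (4, 1), (5,
      3), (5, 4), (5, 6), (6, 1), (6, 2), (6, 5), (6, 7), (7, 5), (7, 7), (7, 8)]
    cl := [0, 2, 1, 0, 3, 1, 5, 4, 6]
    chq := [(0, 3), (2, 3), (3, 0), (3, 2)]
    rng := [(0, 1), (1, 0), (1, 2), (2, 1), (2, 3), (2, 7), (3, 2), (3, 6), (4, 5), (4, 6), (5, 4), (5,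
      8), (6, 3), (6, 4), (7, 2), (7, 8), (8, 5), (8, 7)]
    lev := [] }
  links := [[1, 5, 2, 8], [5, 0, 8, 9, 10, 11], [8, 0, 5, 12, 3, 6, 4], [6, 2, 12, 13], [8, 2, 6, 9],
    [12, 2, 0, 1, 11, 14], [9, 4, 2, 3, 13, 7, 15, 10], [15, 6, 13, 16]]
  P := {
    a := 8
    N := 17
    nb := [294, 3873, 4473, 12356, 836, 22535, 42652, 106560, 535, 1362, 35394, 17442, 24620, 69832,
      6176, 66752, 41088]
    tri := [(0, 1, 5), (0, 1, 8), (0, 2, 5), (0, 2, 8), (1, 5, 11), (1, 8, 9), (1, 9, 10), (1, 10, 11),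
      (2, 3, 6), (2, 3, 12), (2, 4, 6), (2, 4, 8), (2, 5, 12), (3, 6, 13), (3, 12, 13), (4, 6, 9),
      (4, 8, 9), (5, 11, 14), (5, 12, 14), (6, 7, 13), (6, 7, 15), (6, 9, 10), (6, 10, 15), (7,
      13, 16), (7, 15, 16)]
    fin := [0, 0, 2, 2, 2, 0, 6, 6, 0, 2, 6, 0, 12, 6, 14, 15, 16]
    chd := [(0, 12), (2, 12)]
    steps := [(0, 1), (0, 5), (0, 8), (0, 11), (2, 3), (2, 4), (2, 9), (6, 7), (6, 10), (6, 13)] }
  rep := [0, 6, 2, 12, 15, 14, 16]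

noncomputable def v3347 : Cov.CovD where
  P := 3
  N := 4
  pl := [6, 7, 8]
  lev := [⟨[], [], [], [], [(0, 0, [3])]⟩,
    ⟨[], [(0, 0), (0, 1), (0, 2)], [(0, 0), (0, 1), (0, 2), (1, 2)], [], [(0, 0, [3]), (1,
      2, [3]), (2, 1, []), (3, 0, [3])]⟩,
    ⟨[(0, 1)], [(0, 0), (0, 3), (1, 0)], [(0, 3)], [], [(0, 0, [3]), (4, 3, [0, 2])]⟩,
    ⟨[(0, 2)], [(2, 0), (2, 1), (2, 3)], [(1, 3)], [], [(4, 3, [0, 2]), (5, 1, [])]⟩,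
    ⟨[(0, 2), (2, 3)], [(0, 0), (1, 0), (1, 2), (2, 0), (2, 2), (2, 3)], [(0, 2)], [], [(0,
      0, [3]), (1, 2, [3])]⟩,
    ⟨[(0, 1), (0, 2), (1, 2), (2, 3), (2, 4)], [(0, 0), (0, 3), (1, 0), (1, 1), (1, 2), (1,
      3), (2, 0), (2, 3), (3, 3)], [(0, 3)], [5], [(3, 0, [3]), (4, 3, [0, 2])]⟩,
    ⟨[(0, 2), (2, 3), (2, 4), (2, 5), (3, 4)], [(1, 1), (1, 2), (2, 0), (2, 1), (2, 2), (2,
      3), (3, 1), (3, 2), (3, 3), (4, 0), (4, 1), (4, 2)], [(1, 1), (1, 2)], [4], [(1, 2,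
      [3]), (2, 1, []), (5, 1, [])]⟩,
    ⟨[(2, 6), (3, 6), (4, 6)], [(3, 1), (6, 1), (6, 2)], [], [4, 6], [(5, 1, [])]⟩]
  Ta := [((0, 1), 0, 2), ((2, 1), 1, 2), ((2, 3), 1, 0), ((2, 7), 1, 4), ((3, 2), 0, 1), ((3, 6),
    0, 5), ((5, 4), 1, 3), ((5, 8), 1, 6)]
  Tb := [((1, 0, 2), 2, 0, 1), ((2, 1, 3), 1, 2, 0), ((2, 1, 7), 1, 2, 4), ((2, 3, 7), 1, 0, 4),
    ((3, 2, 6), 0, 1, 5), ((4, 5, 6), 3, 1, 5), ((5, 4, 8), 1, 3, 6), ((6, 3, 4), 5, 0, 3),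
    ((7, 2, 8), 4, 1, 6), ((8, 5, 7), 6, 1, 4)]
  Tc := [(3, 0, 2)]
  Td := [((0, 3), (0, 1), 2), ((0, 3), (3, 2), 1), ((0, 3), (3, 6), 5), ((2, 3), (1, 0), 0), ((2,
    3), (1, 2), 1), ((3, 0), (4, 5), 1), ((3, 0), (4, 6), 5), ((3, 2), (4, 5), 1), ((3, 2),
    (4, 6), 5)]
  G := [[0, 0, 0x92c121244, 0x22c22c225d81282, 0x213168682d2c4a5288], [0, 0,
    0x541219812195c121e84, 0, 0x5151a81118c8c8c4972d482], [0, 0x11c11c11ce82184, 0,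
    0x22922522ce41241, 0xc59c59c59e22481], [0, 0, 0, 0, 0x5142851885128414c8c8c8e9d11484e82]]

noncomputable def n3347 : Ent := ⟨e3347, noF, [], [], [(14, 16, [1580044410770988437309982408355971841652082177953823432505702817793, 0])]⟩

def c3347 : PLift (Cov.check n3347.C.D v3347 = true) := ⟨by decide +kernel⟩

def b3347 : PLift (entF (fidx ts) 400 3347 n3347 = true) := ⟨by decide +kernel⟩

theorem g3347 : GoodF (fidx ts) 400 3347 := GoodF.ofV v3347 n3347 c3347.down b3347.down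

/-- 46744684:2553/6 -/
noncomputable def e3348 : SCfg where
  D := {
    a := 8
    L := 9
    kp := 6
    inn := [(0, 1), (0, 2), (0, 5), (1, 0), (1, 5), (2, 0), (2, 3), (2, 4), (2, 5), (2, 6), (3, 2), (3,
      6), (4, 2), (4, 6), (5, 0), (5, 1), (5, 2), (6, 2), (6, 3), (6, 4), (6, 7), (7, 6)]
    mix := [(0, 0), (1, 0), (1, 1), (1, 2), (1, 3), (2, 0), (2, 4), (3, 4), (3, 5), (4, 0), (4, 1), (5,
      3), (5, 4), (5, 6), (6, 1), (6, 5), (6, 7), (6, 8), (7, 5), (7, 6), (7, 7)]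
    cl := [0, 2, 6, 0, 3, 1, 4, 5, 1]
    chq := [(0, 3), (2, 3), (3, 0), (3, 2)]
    rng := [(0, 1), (1, 0), (1, 2), (1, 8), (2, 1), (2, 3), (3, 2), (3, 6), (4, 5), (4, 6), (5, 4), (5,
      6), (6, 3), (6, 4), (6, 5), (6, 7), (7, 6), (7, 8), (8, 1), (8, 7)]
    lev := [] }
  links := [[1, 5, 2, 8], [5, 0, 8, 9, 10, 11], [8, 0, 5, 12, 3, 6, 4], [6, 2, 12, 13], [8, 2, 6, 9],
    [12, 2, 0, 1, 11, 14], [9, 4, 2, 3, 13, 7, 15, 16], [15, 6, 13, 14]]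
  P := {
    a := 8
    N := 17
    nb := [294, 3873, 4473, 12356, 836, 22535, 107164, 57408, 535, 66898, 2562, 17442, 24620, 20680,
      47264, 82112, 33344]
    tri := [(0, 1, 5), (0, 1, 8), (0, 2, 5), (0, 2, 8), (1, 5, 11), (1, 8, 9), (1, 9, 10), (1, 10, 11),
      (2, 3, 6), (2, 3, 12), (2, 4, 6), (2, 4, 8), (2, 5, 12), (3, 6, 13), (3, 12, 13), (4, 6, 9),
      (4, 8, 9), (5, 11, 14), (5, 12, 14), (6, 7, 13), (6, 7, 15), (6, 9, 16), (6, 15, 16), (7,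
      13, 14), (7, 14, 15)]
    fin := [0, 0, 2, 2, 2, 0, 6, 7, 0, 2, 10, 0, 12, 6, 7, 15, 6]
    chd := [(0, 12), (2, 12)]
    steps := [(0, 1), (0, 5), (0, 8), (0, 11), (2, 3), (2, 4), (2, 9), (6, 13), (6, 16), (7, 14)] }
  rep := [0, 6, 2, 12, 7, 15, 10]

noncomputable def v3348 : Cov.CovD where
  P := 3
  N := 4
  pl := [2, 6, 7]
  lev := [⟨[], [], [], [], [(0, 0, [3])]⟩,
    ⟨[], [(0, 0), (0, 2)], [(0, 0), (0, 2)], [6], [(0, 0, [3]), (1, 2, [3]), (3, 0, [3])]⟩,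
    ⟨[(0, 1)], [(0, 0), (0, 3), (1, 0)], [(0, 3)], [], [(0, 0, [3]), (4, 3, [0, 2])]⟩,
    ⟨[(0, 2)], [(2, 0), (2, 1), (2, 3)], [(1, 3)], [], [(4, 3, [0, 2]), (5, 1, [])]⟩,
    ⟨[(0, 2), (2, 3)], [(0, 0), (1, 0), (1, 2), (2, 0), (2, 2), (2, 3)], [(0, 2)], [], [(0,
      0, [3]), (1, 2, [3])]⟩,
    ⟨[(0, 1), (0, 2), (1, 2), (2, 3), (2, 4)], [(0, 0), (0, 3), (1, 0), (1, 2), (1, 3), (2,
      0), (2, 3), (3, 3)], [(0, 3)], [4], [(3, 0, [3]), (4, 3, [0, 2])]⟩,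
    ⟨[(0, 2), (2, 3), (2, 4), (2, 5), (3, 4)], [(1, 2), (2, 0), (2, 1), (2, 2), (2, 3), (3,
      1), (3, 2), (3, 3), (4, 0), (4, 1), (4, 2)], [(1, 1), (1, 2)], [5], [(1, 2, [3]), (5,
      1, []), (8, 1, [])]⟩,
    ⟨[(2, 6), (3, 6), (4, 6)], [(3, 1), (6, 1), (6, 2)], [], [4, 5], [(5, 1, [])]⟩]
  Ta := [((0, 1), 0, 2), ((3, 2), 0, 6), ((3, 6), 0, 4), ((5, 4), 1, 3), ((5, 6), 1, 4), ((8, 1),
    1, 2), ((8, 7), 1, 5)]
  Tb := [((1, 0, 2), 2, 0, 6), ((1, 0, 8), 2, 0, 1), ((1, 2, 8), 2, 6, 1), ((2, 1, 3), 6, 2, 0),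
    ((3, 2, 6), 0, 6, 4), ((4, 5, 6), 3, 1, 4), ((5, 4, 6), 1, 3, 4), ((6, 3, 4), 4, 0, 3),
    ((6, 3, 5), 4, 0, 1), ((6, 3, 7), 4, 0, 5), ((6, 4, 5), 4, 3, 1), ((6, 4, 7), 4, 3, 5),
    ((6, 5, 7), 4, 1, 5), ((7, 6, 8), 5, 4, 1), ((8, 1, 7), 1, 2, 5)]
  Tc := [(3, 0, 2)]
  Td := [((0, 3), (0, 1), 2), ((0, 3), (3, 2), 6), ((0, 3), (3, 6), 4), ((2, 3), (1, 0), 0), ((2,
    3), (1, 2), 6), ((2, 3), (1, 8), 1), ((3, 0), (4, 5), 1), ((3, 0), (4, 6), 4), ((3, 2),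
    (4, 5), 1), ((3, 2), (4, 6), 4)]
  G := [[0, 0x6ac18641a81c626ac14641a81ca2c4, 0x59c1814d1c141259c1418e2, 0,
    0x114281111328848c8d25c114281111988848c8d25ca2], [0, 0x26c1881c12441a2c1c12c4,
    0x21c181221c1812c2, 0x21c281221c2812c8, 0xc192224221928428c], [0,
    0x4444c82ca86acec216424c6ace8888cc21c2, 0, 0,
    0x1111a2849549d49e2542514281111a888549c8e25c8a], [0, 0x14c481c21cac2135c14c21ce821c2, 0,
    0x22c211222c2112c8, 0x259284221283492854a1]]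

noncomputable def n3348 : Ent := ⟨e3348, noF, [], [], [(10, 16, [1580044410770988437309982408355971841652082177953823432505702817793, 0])]⟩

def c3348 : PLift (Cov.check n3348.C.D v3348 = true) := ⟨by decide +kernel⟩

def b3348 : PLift (entF (fidx ts) 400 3348 n3348 = true) := ⟨by decide +kernel⟩

theorem g3348 : GoodF (fidx ts) 400 3348 := GoodF.ofV v3348 n3348 c3348.down b3348.down

/-- 46744684:2553/3 -/
noncomputable def e3349 : SCfg where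
  D := {
    a := 8
    L := 10
    kp := 7
    inn := [(0, 1), (0, 2), (0, 5), (1, 0), (1, 5), (2, 0), (2, 3), (2, 4), (2, 5), (2, 6), (3, 2), (3,
      6), (4, 2), (4, 6), (5, 0), (5, 1), (5, 2), (6, 2), (6, 3), (6, 4), (6, 7), (7, 6)]
    mix := [(0, 0), (1, 0), (1, 1), (1, 2), (1, 3), (2, 0), (2, 4), (3, 4), (3, 5), (4, 0), (4, 1), (5,
      3), (5, 4), (5, 6), (6, 1), (6, 5), (6, 7), (6, 8), (7, 5), (7, 7), (7, 9)]
    cl := [0, 2, 5, 0, 1, 3, 6, 4, 3, 7]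
    chq := [(0, 1), (1, 0), (1, 2), (2, 1)]
    rng := [(0, 1), (1, 0), (1, 2), (1, 8), (2, 1), (2, 3), (3, 2), (3, 6), (4, 5), (4, 6), (5, 4), (5,
      9), (6, 3), (6, 4), (7, 8), (7, 9), (8, 1), (8, 7), (9, 5), (9, 7)]
    lev := [] }
  links := [[1, 5, 2, 8], [5, 0, 8, 9, 10, 11], [8, 0, 5, 12, 3, 6, 4], [6, 2, 12, 13], [8, 2, 6, 9],
    [12, 2, 0, 1, 11, 14], [9, 4, 2, 3, 13, 7, 15, 16], [15, 6, 13, 17]]
  P := {
    a := 8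
    N := 18
    nb := [294, 3873, 4473, 12356, 836, 22535, 107164, 172096, 535, 66898, 2562, 17442, 24620, 135368,
      6176, 196800, 33344, 41088]
    tri := [(0, 1, 5), (0, 1, 8), (0, 2, 5), (0, 2, 8), (1, 5, 11), (1, 8, 9), (1, 9, 10), (1, 10, 11),
      (2, 3, 6), (2, 3, 12), (2, 4, 6), (2, 4, 8), (2, 5, 12), (3, 6, 13), (3, 12, 13), (4, 6, 9),
      (4, 8, 9), (5, 11, 14), (5, 12, 14), (6, 7, 13), (6, 7, 15), (6, 9, 16), (6, 15, 16), (7,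
      13, 17), (7, 15, 17)]
    fin := [0, 0, 2, 2, 2, 0, 6, 6, 0, 2, 10, 0, 12, 6, 14, 15, 6, 17]
    chd := [(0, 12), (2, 12)]
    steps := [(0, 1), (0, 5), (0, 8), (0, 11), (2, 3), (2, 4), (2, 9), (6, 7), (6, 13), (6, 16)] }
  rep := [0, 12, 2, 6, 15, 10, 14, 17]

noncomputable def v3349 : Cov.CovD where
  P := 3
  N := 5
  pl := [2, 6, 7, 9]
  lev := [⟨[], [], [], [], [(0, 0, [1])]⟩,
    ⟨[], [(0, 0), (0, 2)], [(0, 0), (0, 2)], [5], [(0, 0, [1]), (1, 2, [1]), (3, 0, [1])]⟩,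
    ⟨[(0, 1)], [(0, 0), (0, 1), (1, 0)], [(0, 1)], [], [(0, 0, [1]), (4, 1, [0, 2])]⟩,
    ⟨[(0, 2)], [(2, 0), (2, 1), (2, 3)], [(1, 3)], [], [(4, 1, [0, 2]), (5, 3, [])]⟩,
    ⟨[(0, 2), (2, 3)], [(0, 0), (1, 0), (1, 2), (2, 0), (2, 1), (2, 2)], [(0, 2)], [], [(0,
      0, [1]), (1, 2, [1])]⟩,
    ⟨[(0, 1), (0, 2), (1, 2), (2, 3), (2, 4)], [(0, 0), (0, 1), (1, 0), (1, 1), (1, 2), (2,
      0), (2, 1), (3, 1)], [(0, 1)], [6], [(3, 0, [1]), (4, 1, [0, 2])]⟩,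
    ⟨[(0, 2), (2, 3), (2, 4), (2, 5), (3, 4)], [(1, 2), (2, 0), (2, 1), (2, 2), (2, 3), (3,
      1), (3, 2), (3, 3), (4, 0), (4, 2), (4, 3)], [(2, 3), (3, 3)], [4], [(1, 2, [1]), (5,
      3, []), (8, 3, [])]⟩,
    ⟨[(2, 6), (3, 6), (4, 6)], [(3, 3), (6, 2), (6, 3)], [], [4, 7], [(5, 3, [])]⟩]
  Ta := [((0, 1), 0, 2), ((3, 2), 0, 5), ((3, 6), 0, 6), ((5, 4), 3, 1), ((5, 9), 3, 7), ((8, 1),
    3, 2), ((8, 7), 3, 4)]
  Tb := [((1, 0, 2), 2, 0, 5), ((1, 0, 8), 2, 0, 3), ((1, 2, 8), 2, 5, 3), ((2, 1, 3), 5, 2, 0),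
    ((3, 2, 6), 0, 5, 6), ((4, 5, 6), 1, 3, 6), ((5, 4, 9), 3, 1, 7), ((6, 3, 4), 6, 0, 1),
    ((7, 8, 9), 4, 3, 7), ((8, 1, 7), 3, 2, 4), ((9, 5, 7), 7, 3, 4)]
  Tc := [(1, 0, 2)]
  Td := [((0, 1), (0, 1), 2), ((0, 1), (3, 2), 5), ((0, 1), (3, 6), 6), ((1, 0), (4, 5), 3), ((1,
    0), (4, 6), 6), ((1, 2), (4, 5), 3), ((1, 2), (4, 6), 6), ((2, 1), (1, 0), 0), ((2, 1),
    (1, 2), 5), ((2, 1), (1, 8), 3)]
  G := [[0, 0x23923568286ca4c6116a39a39a426464c816c8, 0x4418193a114161c3215416198121ca2,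
    0xa814242641311c282c, 0x6531c81a44465b1881a44a8], [0, 0x48dd48dd6428c18356484c266c818ac2,
    0x483e141848de1218a2, 0xa391464185228, 0x181268318586531181a84a4], [0,
    0x31223d682a6c84c6116a23da23dc4444c522c8, 0, 0x3131ca2ca8c924464c82528,
    0x65348485982446a8c84a4d253484653884c8c4ac24da2], [0, 0x48dd48dda8248484ac794d9ac24c1, 0,
    0x6ace281435672884c1, 0xb834184a4468b8888a1c8181c241ba1bac849a2]]

noncomputable def n3349 : Ent := ⟨e3349, noF, [], [], [(10, 16, [7334685537875745012586738086077695515070955365108989538292687707385857, 0]), (14, 17, [6903326391201334775872065844685381424292761054348340378595029943402497, 0])]⟩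

def c3349 : PLift (Cov.check n3349.C.D v3349 = true) := ⟨by decide +kernel⟩

def b3349 : PLift (entF (fidx ts) 400 3349 n3349 = true) := ⟨by decide +kernel⟩

theorem g3349 : GoodF (fidx ts) 400 3349 := GoodF.ofV v3349 n3349 c3349.down b3349.down

/-- 46744684:2553/7 -/
noncomputable def e3350 : SCfg where
  D := {
    a := 8
    L := 10
    kp := 7
    inn := [(0, 1), (0, 2), (0, 5), (1, 0), (1, 5), (2, 0), (2, 3), (2, 4), (2, 5), (2, 6), (3, 2), (3,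
      6), (4, 2), (4, 6), (5, 0), (5, 1), (5, 2), (6, 2), (6, 3), (6, 4), (6, 7), (7, 6)]
    mix := [(0, 0), (1, 0), (1, 1), (1, 2), (1, 3), (2, 0), (2, 4), (3, 4), (3, 5), (4, 0), (4, 6), (5,
      3), (5, 4), (5, 7), (6, 5), (6, 6), (6, 8), (6, 9), (7, 2), (7, 5), (7, 8)]
    cl := [0, 6, 4, 0, 3, 1, 2, 7, 5, 1]
    chq := [(0, 3), (2, 3), (3, 0), (3, 2)]
    rng := [(0, 1), (0, 6), (1, 0), (1, 2), (2, 1), (2, 3), (2, 5), (2, 8), (3, 2), (3, 7), (4, 5), (4,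
      7), (5, 2), (5, 4), (6, 0), (6, 9), (7, 3), (7, 4), (8, 2), (8, 9), (9, 6), (9, 8)]
    lev := [] }
  links := [[1, 5, 2, 8], [5, 0, 8, 9, 10, 11], [8, 0, 5, 12, 3, 6, 4], [6, 2, 12, 13], [8, 2, 6, 14],
    [12, 2, 0, 1, 11, 15], [14, 4, 2, 3, 13, 7, 16, 17], [16, 6, 13, 10]]
  P := {
    a := 8
    N := 18
    nb := [294, 3873, 4473, 12356, 16708, 38919, 221340, 74816, 16919, 1282, 76418, 33826, 41004,
      5320, 131408, 6176, 132288, 81984]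
    tri := [(0, 1, 5), (0, 1, 8), (0, 2, 5), (0, 2, 8), (1, 5, 11), (1, 8, 9), (1, 9, 10), (1, 10, 11),
      (2, 3, 6), (2, 3, 12), (2, 4, 6), (2, 4, 8), (2, 5, 12), (3, 6, 13), (3, 12, 13), (4, 6,
      14), (4, 8, 14), (5, 11, 15), (5, 12, 15), (6, 7, 13), (6, 7, 16), (6, 14, 17), (6, 16, 17),
      (7, 10, 13), (7, 10, 16)]
    fin := [0, 0, 2, 2, 2, 0, 6, 7, 0, 9, 7, 0, 2, 6, 14, 15, 16, 6]
    chd := [(0, 2), (2, 14)]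
    steps := [(0, 1), (0, 5), (0, 8), (0, 11), (2, 3), (2, 4), (2, 12), (6, 13), (6, 17), (7, 10)] }
  rep := [0, 6, 14, 2, 7, 16, 9, 15]

noncomputable def v3350 : Cov.CovD where
  P := 3
  N := 5
  pl := [1, 2, 7, 8]
  lev := [⟨[], [], [], [], [(0, 0, [3])]⟩,
    ⟨[], [(0, 0)], [(0, 0)], [4, 6], [(0, 0, [3]), (3, 0, [3])]⟩,
    ⟨[(0, 1)], [(0, 0), (0, 3), (1, 0)], [(0, 3)], [], [(0, 0, [3]), (4, 3, [0, 2])]⟩,
    ⟨[(0, 2)], [(2, 0), (2, 1), (2, 3)], [(1, 3)], [], [(4, 3, [0, 2]), (5, 1, [])]⟩,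
    ⟨[(0, 2), (2, 3)], [(0, 0), (1, 0), (2, 0), (2, 2), (2, 3)], [(0, 2)], [], [(0, 0,
      [3]), (6, 2, [3])]⟩,
    ⟨[(0, 1), (0, 2), (1, 2), (2, 3), (2, 4)], [(0, 0), (0, 3), (1, 0), (1, 3), (2, 0), (2,
      3), (3, 3)], [(0, 3)], [7], [(3, 0, [3]), (4, 3, [0, 2])]⟩,
    ⟨[(0, 2), (2, 3), (2, 4), (2, 5), (3, 4)], [(2, 0), (2, 1), (2, 2), (2, 3), (3, 1), (3,
      2), (3, 3), (4, 0), (4, 1), (4, 2)], [(1, 1), (1, 2)], [5], [(5, 1, []), (6, 2, [3]),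
      (9, 1, [])]⟩,
    ⟨[(2, 6), (3, 6), (4, 6)], [(3, 1), (6, 1), (6, 2)], [], [4, 5], [(5, 1, [])]⟩]
  Ta := [((0, 1), 0, 6), ((0, 6), 0, 2), ((3, 2), 0, 4), ((3, 7), 0, 7), ((5, 2), 1, 4), ((5, 4),
    1, 3), ((9, 6), 1, 2), ((9, 8), 1, 5)]
  Tb := [((0, 1, 6), 0, 6, 2), ((1, 0, 2), 6, 0, 4), ((2, 1, 3), 4, 6, 0), ((2, 1, 5), 4, 6, 1),
    ((2, 1, 8), 4, 6, 5), ((2, 3, 5), 4, 0, 1), ((2, 3, 8), 4, 0, 5), ((2, 5, 8), 4, 1, 5),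
    ((3, 2, 7), 0, 4, 7), ((4, 5, 7), 3, 1, 7), ((5, 2, 4), 1, 4, 3), ((6, 0, 9), 2, 0, 1),
    ((7, 3, 4), 7, 0, 3), ((8, 2, 9), 5, 4, 1), ((9, 6, 8), 1, 2, 5)]
  Tc := [(3, 0, 2)]
  Td := [((0, 3), (0, 1), 6), ((0, 3), (0, 6), 2), ((0, 3), (3, 2), 4), ((0, 3), (3, 7), 7), ((2,
    3), (6, 0), 0), ((2, 3), (6, 9), 1), ((3, 0), (4, 5), 1), ((3, 0), (4, 7), 7), ((3, 2),
    (4, 5), 1), ((3, 2), (4, 7), 7)]
  G := [[0, 0x64182881444182c1c6a4418a81424c1881ce26ac14a41681cc2e4,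
    0x81c12181c141659c1281dc1816a44121812914c181a4a, 0,
    0x11428111138888888b25c1111a84848549b29411428c191192c8c8525ce2], [0,
    0x44182c1c12441a81c12e2c1412e4, 0x82c121262c121221c1212e8,
    0x282422c21f81224c12c429b81222c21c12cd412e4,
    0x11482192882942d2419419419b82421219a2438215816e8], [0,
    0x444444ea8a8a8ec212ec2ec6ace8216646464e888888ec218a, 0, 0,
    0x1111c288228888c2d111168849425651549c244888448419459e84e514281111a2c49c8c49e2551424ee1],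
    [0, 0x1821ca421281c81c81ce42114c14c651c8c21248812c48c1ea, 0,
    0x12c22922ce81224c24922ce81221c24122928422c22cc81ee1,
    0x212596881c41524292459419ca4211c19a22c294216e8]]

noncomputable def n3350 : Ent := ⟨e3350, noF, [], [], []⟩

def c3350 : PLift (Cov.check n3350.C.D v3350 = true) := ⟨by decide +kernel⟩

def b3350 : PLift (entF (fidx ts) 400 3350 n3350 = true) := ⟨by decide +kernel⟩

theorem g3350 : GoodF (fidx ts) 400 3350 := GoodF.ofV v3350 n3350 c3350.down b3350.down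

/-- 46744684:2553/8 -/
noncomputable def e3351 : SCfg where
  D := {
    a := 8
    L := 10
    kp := 7
    inn := [(0, 1), (0, 2), (0, 5), (1, 0), (1, 5), (2, 0), (2, 3), (2, 4), (2, 5), (2, 6), (3, 2), (3,
      6), (4, 2), (4, 6), (5, 0), (5, 1), (5, 2), (6, 2), (6, 3), (6, 4), (6, 7), (7, 6)]
    mix := [(0, 0), (1, 0), (1, 1), (1, 2), (1, 3), (2, 0), (2, 4), (3, 4), (3, 5), (4, 0), (4, 6), (5,
      3), (5, 4), (5, 7), (6, 2), (6, 5), (6, 6), (6, 8), (7, 2), (7, 5), (7, 9)]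
    cl := [0, 5, 1, 0, 3, 4, 2, 6, 4, 7]
    chq := [(0, 3), (2, 3), (3, 0), (3, 2)]
    rng := [(0, 1), (0, 6), (1, 0), (1, 2), (2, 1), (2, 3), (2, 8), (2, 9), (3, 2), (3, 7), (4, 5), (4,
      7), (5, 4), (5, 9), (6, 0), (6, 8), (7, 3), (7, 4), (8, 2), (8, 6), (9, 2), (9, 5)]
    lev := [] }
  links := [[1, 5, 2, 8], [5, 0, 8, 9, 10, 11], [8, 0, 5, 12, 3, 6, 4], [6, 2, 12, 13], [8, 2, 6, 14],
    [12, 2, 0, 1, 11, 15], [14, 4, 2, 3, 13, 7, 10, 16], [10, 6, 13, 17]]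
  P := {
    a := 8
    N := 18
    nb := [294, 3873, 4473, 12356, 16708, 38919, 91292, 140352, 16919, 1282, 199362, 33826, 41004,
      135368, 65872, 6176, 17472, 9344]
    tri := [(0, 1, 5), (0, 1, 8), (0, 2, 5), (0, 2, 8), (1, 5, 11), (1, 8, 9), (1, 9, 10), (1, 10, 11),
      (2, 3, 6), (2, 3, 12), (2, 4, 6), (2, 4, 8), (2, 5, 12), (3, 6, 13), (3, 12, 13), (4, 6,
      14), (4, 8, 14), (5, 11, 15), (5, 12, 15), (6, 7, 10), (6, 7, 13), (6, 10, 16), (6, 14, 16),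
      (7, 10, 17), (7, 13, 17)]
    fin := [0, 0, 2, 2, 2, 0, 6, 7, 0, 9, 7, 0, 2, 6, 14, 15, 6, 17]
    chd := [(0, 2), (2, 14)]
    steps := [(0, 1), (0, 5), (0, 8), (0, 11), (2, 3), (2, 4), (2, 12), (6, 13), (6, 16), (7, 10)] }
  rep := [0, 7, 14, 2, 6, 9, 15, 17]

noncomputable def v3351 : Cov.CovD where
  P := 3
  N := 5
  pl := [1, 2, 7, 9]
  lev := [⟨[], [], [], [], [(0, 0, [3])]⟩,
    ⟨[], [(0, 0)], [(0, 0)], [1, 5], [(0, 0, [3]), (3, 0, [3])]⟩,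
    ⟨[(0, 1)], [(0, 0), (0, 3), (1, 0)], [(0, 3)], [], [(0, 0, [3]), (4, 3, [0, 2])]⟩,
    ⟨[(0, 2)], [(2, 0), (2, 3), (2, 4)], [(3, 4)], [], [(4, 3, [0, 2]), (5, 4, [])]⟩,
    ⟨[(0, 2), (2, 3)], [(0, 0), (1, 0), (2, 0), (2, 2), (2, 3)], [(0, 2)], [], [(0, 0,
      [3]), (6, 2, [3])]⟩,
    ⟨[(0, 1), (0, 2), (1, 2), (2, 3), (2, 4)], [(0, 0), (0, 3), (1, 0), (1, 3), (2, 0), (2,
      3), (3, 3)], [(0, 3)], [6], [(3, 0, [3]), (4, 3, [0, 2])]⟩,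
    ⟨[(0, 2), (2, 3), (2, 4), (2, 5), (3, 4)], [(2, 0), (2, 2), (2, 3), (2, 4), (3, 2), (3,
      3), (3, 4), (4, 0), (4, 2), (4, 4)], [(2, 4), (4, 4)], [1], [(5, 4, []), (6, 2, [3]),
      (8, 4, [])]⟩,
    ⟨[(2, 6), (3, 6), (4, 6)], [(3, 4), (6, 2), (6, 4)], [], [1, 7], [(5, 4, [])]⟩]
  Ta := [((0, 1), 0, 5), ((0, 6), 0, 2), ((3, 2), 0, 1), ((3, 7), 0, 6), ((5, 4), 4, 3), ((5, 9),
    4, 7), ((8, 2), 4, 1), ((8, 6), 4, 2)]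
  Tb := [((0, 1, 6), 0, 5, 2), ((1, 0, 2), 5, 0, 1), ((2, 1, 3), 1, 5, 0), ((2, 1, 8), 1, 5, 4),
    ((2, 1, 9), 1, 5, 7), ((2, 3, 8), 1, 0, 4), ((2, 3, 9), 1, 0, 7), ((2, 8, 9), 1, 4, 7),
    ((3, 2, 7), 0, 1, 6), ((4, 5, 7), 3, 4, 6), ((5, 4, 9), 4, 3, 7), ((6, 0, 8), 2, 0, 4),
    ((7, 3, 4), 6, 0, 3), ((8, 2, 6), 4, 1, 2), ((9, 2, 5), 7, 1, 4)]
  Tc := [(3, 0, 2)]
  Td := [((0, 3), (0, 1), 5), ((0, 3), (0, 6), 2), ((0, 3), (3, 2), 1), ((0, 3), (3, 7), 6), ((2,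
    3), (6, 0), 0), ((2, 3), (6, 8), 4), ((3, 0), (4, 5), 4), ((3, 0), (4, 7), 6), ((3, 2),
    (4, 5), 4), ((3, 2), (4, 7), 6)]
  G := [[0, 0, 0x541819812195c121e1414416194c121ac98114161446,
    0xc95182d1d1c59d42ad1c953d18c2c95182ac4, 0x51c59324485d48264591881a5151c8b264c8], [0, 0,
    0x9418158181cc412198141cc2, 0x48c48c48c7812514848c48c3832c8,
    0x515168c8912945151a8c891294c8], [0, 0xa6ca6ca6ce1126426c26cea88888ec2168, 0,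
    0xd148592c24454a91cc898ec259191cc444c52544469891c6c29c2,
    0x114214542551825151686c8c8c8e24d5151c2451222114841485c8c8c8e24fc2], [0,
    0x48c6848ce812a4a4a4168281c68a4814e1, 0, 0x48c48c48ce4128448ca4148c2814858c42ec1,
    0xc894c82312914241898c249c81824189284a4159159c2848d]]

noncomputable def n3351 : Ent := ⟨e3351, noF, [], [], [(9, 17, [6903326391201334775872065844685381424292761054348340378595029943386113, 0])]⟩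

def c3351 : PLift (Cov.check n3351.C.D v3351 = true) := ⟨by decide +kernel⟩

def b3351 : PLift (entF (fidx ts) 400 3351 n3351 = true) := ⟨by decide +kernel⟩

theorem g3351 : GoodF (fidx ts) 400 3351 := GoodF.ofV v3351 n3351 c3351.down b3351.down

/-- 46744684:2553/10 -/
noncomputable def e3352 : SCfg where
  D := {
    a := 8
    L := 9
    kp := 6
    inn := [(0, 1), (0, 2), (0, 5), (1, 0), (1, 5), (2, 0), (2, 3), (2, 4), (2, 5), (2, 6), (3, 2), (3,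
      6), (4, 2), (4, 6), (5, 0), (5, 1), (5, 2), (6, 2), (6, 3), (6, 4), (6, 7), (7, 6)]
    mix := [(0, 0), (1, 0), (1, 1), (1, 2), (1, 3), (2, 0), (2, 4), (3, 4), (3, 5), (4, 0), (4, 6), (5,
      3), (5, 4), (5, 7), (6, 2), (6, 5), (6, 6), (6, 8), (7, 5), (7, 7), (7, 8)]
    cl := [0, 6, 1, 0, 3, 1, 2, 4, 5]
    chq := [(0, 3), (2, 3), (3, 0), (3, 2)]
    rng := [(0, 1), (0, 6), (1, 0), (1, 2), (2, 1), (2, 3), (2, 6), (2, 8), (3, 2), (3, 7), (4, 5), (4,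
      7), (5, 4), (5, 7), (6, 0), (6, 2), (7, 3), (7, 4), (7, 5), (7, 8), (8, 2), (8, 7)]
    lev := [] }
  links := [[1, 5, 2, 8], [5, 0, 8, 9, 10, 11], [8, 0, 5, 12, 3, 6, 4], [6, 2, 12, 13], [8, 2, 6, 14],
    [12, 2, 0, 1, 11, 15], [14, 4, 2, 3, 13, 7, 16, 10], [16, 6, 13, 15]]
  P := {
    a := 8
    N := 17
    nb := [294, 3873, 4473, 12356, 16708, 38919, 91292, 106560, 16919, 1282, 84546, 33826, 41004,
      37064, 1360, 80032, 33984]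
    tri := [(0, 1, 5), (0, 1, 8), (0, 2, 5), (0, 2, 8), (1, 5, 11), (1, 8, 9), (1, 9, 10), (1, 10, 11),
      (2, 3, 6), (2, 3, 12), (2, 4, 6), (2, 4, 8), (2, 5, 12), (3, 6, 13), (3, 12, 13), (4, 6,
      14), (4, 8, 14), (5, 11, 15), (5, 12, 15), (6, 7, 13), (6, 7, 16), (6, 10, 14), (6, 10, 16),
      (7, 13, 15), (7, 15, 16)]
    fin := [0, 0, 2, 3, 2, 0, 3, 3, 0, 9, 3, 0, 2, 3, 14, 15, 16]
    chd := [(0, 2), (2, 14)]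
    steps := [(0, 1), (0, 5), (0, 8), (0, 11), (2, 4), (2, 12), (3, 6), (3, 7), (3, 10), (3, 13)] }
  rep := [0, 3, 14, 2, 15, 16, 9]

noncomputable def v3352 : Cov.CovD where
  P := 3
  N := 4
  pl := [1, 7, 8]
  lev := [⟨[], [], [], [], [(0, 0, [3])]⟩,
    ⟨[], [(0, 0), (0, 1)], [(0, 0), (0, 1)], [6], [(0, 0, [3]), (2, 1, []), (3, 0, [3])]⟩,
    ⟨[(0, 1)], [(0, 0), (0, 3), (1, 0)], [(0, 3)], [], [(0, 0, [3]), (4, 3, [0, 2])]⟩,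
    ⟨[(0, 2)], [(2, 0), (2, 1), (2, 3)], [(1, 3)], [], [(4, 3, [0, 2]), (5, 1, [])]⟩,
    ⟨[(0, 2), (2, 3)], [(0, 0), (1, 0), (2, 0), (2, 2), (2, 3)], [(0, 2)], [], [(0, 0,
      [3]), (6, 2, [3])]⟩,
    ⟨[(0, 1), (0, 2), (1, 2), (2, 3), (2, 4)], [(0, 0), (0, 3), (1, 0), (1, 1), (1, 3), (2,
      0), (2, 3), (3, 3)], [(0, 3)], [4], [(3, 0, [3]), (4, 3, [0, 2])]⟩,
    ⟨[(0, 2), (2, 3), (2, 4), (2, 5), (3, 4)], [(1, 1), (2, 0), (2, 1), (2, 2), (2, 3), (3,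
      1), (3, 2), (3, 3), (4, 0), (4, 1), (4, 2)], [(1, 1), (1, 2)], [5], [(2, 1, []), (5, 1,
      []), (6, 2, [3])]⟩,
    ⟨[(2, 6), (3, 6), (4, 6)], [(3, 1), (6, 1), (6, 2)], [], [4, 5], [(5, 1, [])]⟩]
  Ta := [((0, 1), 0, 6), ((0, 6), 0, 2), ((2, 1), 1, 6), ((2, 3), 1, 0), ((2, 6), 1, 2), ((2, 8),
    1, 5), ((3, 2), 0, 1), ((3, 7), 0, 4), ((5, 4), 1, 3), ((5, 7), 1, 4)]
  Tb := [((0, 1, 6), 0, 6, 2), ((1, 0, 2), 6, 0, 1), ((2, 1, 3), 1, 6, 0), ((2, 1, 6), 1, 6, 2),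
    ((2, 1, 8), 1, 6, 5), ((2, 3, 6), 1, 0, 2), ((2, 3, 8), 1, 0, 5), ((2, 6, 8), 1, 2, 5),
    ((3, 2, 7), 0, 1, 4), ((4, 5, 7), 3, 1, 4), ((5, 4, 7), 1, 3, 4), ((6, 0, 2), 2, 0, 1),
    ((7, 3, 4), 4, 0, 3), ((7, 3, 5), 4, 0, 1), ((7, 3, 8), 4, 0, 5), ((7, 4, 5), 4, 3, 1),
    ((7, 4, 8), 4, 3, 5), ((7, 5, 8), 4, 1, 5), ((8, 2, 7), 5, 1, 4)]
  Tc := [(3, 0, 2)]
  Td := [((0, 3), (0, 1), 6), ((0, 3), (0, 6), 2), ((0, 3), (3, 2), 1), ((0, 3), (3, 7), 4), ((2,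
    3), (6, 0), 0), ((2, 3), (6, 2), 1), ((3, 0), (4, 5), 1), ((3, 0), (4, 7), 4), ((3, 2),
    (4, 5), 1), ((3, 2), (4, 7), 4)]
  G := [[0, 0, 0x12c121221c1412c4, 0x22c281221c2812c4, 0xc192224c192224c2], [0, 0,
    0xd8114161d1c121628, 0, 0x8191192c8125419428628], [0,
    0x1488144184cc111c21ca4218811c11ce421e4, 0, 0x22c281222c2112c4, 0x25928423692842c4], [0,
    0, 0, 0, 0x882211128468192244118288549c295494216e1]]

noncomputable def n3352 : Ent := ⟨e3352, noF, [], [], [(9, 14, [1685382413448253767852309107433119732572617628602273068445378617345, 0])]⟩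

def c3352 : PLift (Cov.check n3352.C.D v3352 = true) := ⟨by decide +kernel⟩

def b3352 : PLift (entF (fidx ts) 400 3352 n3352 = true) := ⟨by decide +kernel⟩

theorem g3352 : GoodF (fidx ts) 400 3352 := GoodF.ofV v3352 n3352 c3352.down b3352.down

/-- 46744684:2553/9 -/
noncomputable def e3353 : SCfg where
  D := {
    a := 8
    L := 10
    kp := 7
    inn := [(0, 1), (0, 2), (0, 5), (1, 0), (1, 5), (2, 0), (2, 3), (2, 4), (2, 5), (2, 6), (3, 2), (3,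
      6), (4, 2), (4, 6), (5, 0), (5, 1), (5, 2), (6, 2), (6, 3), (6, 4), (6, 7), (7, 6)]
    mix := [(0, 0), (1, 0), (1, 1), (1, 2), (1, 3), (2, 0), (2, 4), (3, 4), (3, 5), (4, 0), (4, 6), (5,
      3), (5, 4), (5, 7), (6, 2), (6, 5), (6, 6), (6, 8), (7, 5), (7, 8), (7, 9)]
    cl := [0, 5, 1, 0, 3, 1, 2, 6, 4, 7]
    chq := [(0, 3), (2, 3), (3, 0), (3, 2)]
    rng := [(0, 1), (0, 6), (1, 0), (1, 2), (2, 1), (2, 3), (2, 6), (2, 8), (3, 2), (3, 7), (4, 5), (4,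
      7), (5, 4), (5, 9), (6, 0), (6, 2), (7, 3), (7, 4), (8, 2), (8, 9), (9, 5), (9, 8)]
    lev := [] }
  links := [[1, 5, 2, 8], [5, 0, 8, 9, 10, 11], [8, 0, 5, 12, 3, 6, 4], [6, 2, 12, 13], [8, 2, 6, 14],
    [12, 2, 0, 1, 11, 15], [14, 4, 2, 3, 13, 7, 16, 10], [16, 6, 13, 17]]
  P := {
    a := 8
    N := 18
    nb := [294, 3873, 4473, 12356, 16708, 38919, 91292, 204864, 16919, 1282, 84546, 33826, 41004,
      135368, 1360, 6176, 132288, 73856]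
    tri := [(0, 1, 5), (0, 1, 8), (0, 2, 5), (0, 2, 8), (1, 5, 11), (1, 8, 9), (1, 9, 10), (1, 10, 11),
      (2, 3, 6), (2, 3, 12), (2, 4, 6), (2, 4, 8), (2, 5, 12), (3, 6, 13), (3, 12, 13), (4, 6,
      14), (4, 8, 14), (5, 11, 15), (5, 12, 15), (6, 7, 13), (6, 7, 16), (6, 10, 14), (6, 10, 16),
      (7, 13, 17), (7, 16, 17)]
    fin := [0, 0, 2, 3, 2, 0, 3, 3, 0, 9, 3, 0, 2, 3, 14, 15, 16, 17]
    chd := [(0, 2), (2, 14)]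
    steps := [(0, 1), (0, 5), (0, 8), (0, 11), (2, 4), (2, 12), (3, 6), (3, 7), (3, 10), (3, 13)] }
  rep := [0, 3, 14, 2, 16, 9, 15, 17]

noncomputable def v3353 : Cov.CovD where
  P := 3
  N := 5
  pl := [1, 7, 8, 9]
  lev := [⟨[], [], [], [], [(0, 0, [3])]⟩,
    ⟨[], [(0, 0), (0, 1)], [(0, 0), (0, 1)], [5], [(0, 0, [3]), (2, 1, []), (3, 0, [3])]⟩,
    ⟨[(0, 1)], [(0, 0), (0, 3), (1, 0)], [(0, 3)], [], [(0, 0, [3]), (4, 3, [0, 2])]⟩,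
    ⟨[(0, 2)], [(2, 0), (2, 1), (2, 3)], [(1, 3)], [], [(4, 3, [0, 2]), (5, 1, [])]⟩,
    ⟨[(0, 2), (2, 3)], [(0, 0), (1, 0), (2, 0), (2, 2), (2, 3)], [(0, 2)], [], [(0, 0,
      [3]), (6, 2, [3])]⟩,
    ⟨[(0, 1), (0, 2), (1, 2), (2, 3), (2, 4)], [(0, 0), (0, 3), (1, 0), (1, 1), (1, 3), (2,
      0), (2, 3), (3, 3)], [(0, 3)], [6], [(3, 0, [3]), (4, 3, [0, 2])]⟩,
    ⟨[(0, 2), (2, 3), (2, 4), (2, 5), (3, 4)], [(1, 1), (2, 0), (2, 1), (2, 2), (2, 3), (3,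
      1), (3, 2), (3, 3), (4, 0), (4, 1), (4, 2)], [(1, 1), (1, 2)], [4], [(2, 1, []), (5, 1,
      []), (6, 2, [3])]⟩,
    ⟨[(2, 6), (3, 6), (4, 6)], [(3, 1), (6, 1), (6, 2)], [], [4, 7], [(5, 1, [])]⟩]
  Ta := [((0, 1), 0, 5), ((0, 6), 0, 2), ((2, 1), 1, 5), ((2, 3), 1, 0), ((2, 6), 1, 2), ((2, 8),
    1, 4), ((3, 2), 0, 1), ((3, 7), 0, 6), ((5, 4), 1, 3), ((5, 9), 1, 7)]
  Tb := [((0, 1, 6), 0, 5, 2), ((1, 0, 2), 5, 0, 1), ((2, 1, 3), 1, 5, 0), ((2, 1, 6), 1, 5, 2),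
    ((2, 1, 8), 1, 5, 4), ((2, 3, 6), 1, 0, 2), ((2, 3, 8), 1, 0, 4), ((2, 6, 8), 1, 2, 4),
    ((3, 2, 7), 0, 1, 6), ((4, 5, 7), 3, 1, 6), ((5, 4, 9), 1, 3, 7), ((6, 0, 2), 2, 0, 1),
    ((7, 3, 4), 6, 0, 3), ((8, 2, 9), 4, 1, 7), ((9, 5, 8), 7, 1, 4)]
  Tc := [(3, 0, 2)]
  Td := [((0, 3), (0, 1), 5), ((0, 3), (0, 6), 2), ((0, 3), (3, 2), 1), ((0, 3), (3, 7), 6), ((2,
    3), (6, 0), 0), ((2, 3), (6, 2), 1), ((3, 0), (4, 5), 1), ((3, 0), (4, 7), 6), ((3, 2),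
    (4, 5), 1), ((3, 2), (4, 7), 6)]
  G := [[0, 0, 0x92c141225c1812c4, 0x22c22c22c741222c22c2297412c8,
    0x6392e93c294a42c59c59c59b224c8], [0, 0, 0x541819812195c121e24, 0,
    0x5151c2c8c8c49d2911124628], [0, 0x11c11c11ce82111c84811c11c682368, 0,
    0x22922522ce41222922522ce412c1, 0x21729a8b2942526a92593a9e842c1], [0, 0, 0, 0,
    0xc5922441122c492254514285182c8c8c291142c49425ee1]]

noncomputable def n3353 : Ent := ⟨e3353, noF, [], [], [(9, 14, [7334790875878422277917280412776772662961875900559637987928627383185409, 0]), (15, 17, [6903326391201334775872065844685381424292761054348340378595029943418881, 0])]⟩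

def c3353 : PLift (Cov.check n3353.C.D v3353 = true) := ⟨by decide +kernel⟩

def b3353 : PLift (entF (fidx ts) 400 3353 n3353 = true) := ⟨by decide +kernel⟩

theorem g3353 : GoodF (fidx ts) 400 3353 := GoodF.ofV v3353 n3353 c3353.down b3353.down

/-- 46744684:2553/11 -/
noncomputable def e3354 : SCfg where
  D := {
    a := 8
    L := 10
    kp := 7
    inn := [(0, 1), (0, 2), (0, 5), (1, 0), (1, 5), (2, 0), (2, 3), (2, 4), (2, 5), (2, 6), (3, 2), (3,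
      6), (4, 2), (4, 6), (5, 0), (5, 1), (5, 2), (6, 2), (6, 3), (6, 4), (6, 7), (7, 6)]
    mix := [(0, 0), (1, 0), (1, 1), (1, 2), (1, 3), (2, 0), (2, 4), (3, 4), (3, 5), (4, 0), (4, 6), (5,
      3), (5, 4), (5, 7), (6, 5), (6, 6), (6, 8), (6, 9), (7, 5), (7, 7), (7, 8)]
    cl := [0, 6, 7, 0, 3, 1, 2, 4, 5, 1]
    chq := [(0, 3), (2, 3), (3, 0), (3, 2)]
    rng := [(0, 1), (0, 6), (1, 0), (1, 2), (2, 1), (2, 3), (3, 2), (3, 7), (4, 5), (4, 7), (5, 4), (5,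
      7), (6, 0), (6, 9), (7, 3), (7, 4), (7, 5), (7, 8), (8, 7), (8, 9), (9, 6), (9, 8)]
    lev := [] }
  links := [[1, 5, 2, 8], [5, 0, 8, 9, 10, 11], [8, 0, 5, 12, 3, 6, 4], [6, 2, 12, 13], [8, 2, 6, 14],
    [12, 2, 0, 1, 11, 15], [14, 4, 2, 3, 13, 7, 16, 17], [16, 6, 13, 15]]
  P := {
    a := 8
    N := 18
    nb := [294, 3873, 4473, 12356, 16708, 38919, 221340, 106560, 16919, 1282, 2562, 33826, 41004,
      37064, 131408, 80032, 164032, 81984]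
    tri := [(0, 1, 5), (0, 1, 8), (0, 2, 5), (0, 2, 8), (1, 5, 11), (1, 8, 9), (1, 9, 10), (1, 10, 11),
      (2, 3, 6), (2, 3, 12), (2, 4, 6), (2, 4, 8), (2, 5, 12), (3, 6, 13), (3, 12, 13), (4, 6,
      14), (4, 8, 14), (5, 11, 15), (5, 12, 15), (6, 7, 13), (6, 7, 16), (6, 14, 17), (6, 16, 17),
      (7, 13, 15), (7, 15, 16)]
    fin := [0, 0, 2, 2, 2, 0, 6, 7, 0, 9, 10, 0, 2, 6, 14, 7, 16, 6]
    chd := [(0, 2), (2, 14)]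
    steps := [(0, 1), (0, 5), (0, 8), (0, 11), (2, 3), (2, 4), (2, 12), (6, 13), (6, 17), (7, 15)] }
  rep := [0, 6, 14, 2, 7, 16, 9, 10]

noncomputable def v3354 : Cov.CovD where
  P := 3
  N := 5
  pl := [1, 2, 7, 8]
  lev := [⟨[], [], [], [], [(0, 0, [3])]⟩,
    ⟨[], [(0, 0)], [(0, 0)], [6, 7], [(0, 0, [3]), (3, 0, [3])]⟩,
    ⟨[(0, 1)], [(0, 0), (0, 3), (1, 0)], [(0, 3)], [], [(0, 0, [3]), (4, 3, [0, 2])]⟩,
    ⟨[(0, 2)], [(2, 0), (2, 1), (2, 3)], [(1, 3)], [], [(4, 3, [0, 2]), (5, 1, [])]⟩,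
    ⟨[(0, 2), (2, 3)], [(0, 0), (1, 0), (2, 0), (2, 2), (2, 3)], [(0, 2)], [], [(0, 0,
      [3]), (6, 2, [3])]⟩,
    ⟨[(0, 1), (0, 2), (1, 2), (2, 3), (2, 4)], [(0, 0), (0, 3), (1, 0), (1, 3), (2, 0), (2,
      3), (3, 3)], [(0, 3)], [4], [(3, 0, [3]), (4, 3, [0, 2])]⟩,
    ⟨[(0, 2), (2, 3), (2, 4), (2, 5), (3, 4)], [(2, 0), (2, 1), (2, 2), (2, 3), (3, 1), (3,
      2), (3, 3), (4, 0), (4, 1), (4, 2)], [(1, 1), (1, 2)], [5], [(5, 1, []), (6, 2, [3]),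
      (9, 1, [])]⟩,
    ⟨[(2, 6), (3, 6), (4, 6)], [(3, 1), (6, 1), (6, 2)], [], [4, 5], [(5, 1, [])]⟩]
  Ta := [((0, 1), 0, 6), ((0, 6), 0, 2), ((3, 2), 0, 7), ((3, 7), 0, 4), ((5, 4), 1, 3), ((5, 7),
    1, 4), ((9, 6), 1, 2), ((9, 8), 1, 5)]
  Tb := [((0, 1, 6), 0, 6, 2), ((1, 0, 2), 6, 0, 7), ((2, 1, 3), 7, 6, 0), ((3, 2, 7), 0, 7, 4),
    ((4, 5, 7), 3, 1, 4), ((5, 4, 7), 1, 3, 4), ((6, 0, 9), 2, 0, 1), ((7, 3, 4), 4, 0, 3),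
    ((7, 3, 5), 4, 0, 1), ((7, 3, 8), 4, 0, 5), ((7, 4, 5), 4, 3, 1), ((7, 4, 8), 4, 3, 5),
    ((7, 5, 8), 4, 1, 5), ((8, 7, 9), 5, 4, 1), ((9, 6, 8), 1, 2, 5)]
  Tc := [(3, 0, 2)]
  Td := [((0, 3), (0, 1), 6), ((0, 3), (0, 6), 2), ((0, 3), (3, 2), 7), ((0, 3), (3, 7), 4), ((2,
    3), (6, 0), 0), ((2, 3), (6, 9), 1), ((3, 0), (4, 5), 1), ((3, 0), (4, 7), 4), ((3, 2),
    (4, 5), 1), ((3, 2), (4, 7), 4)]
  G := [[0, 0xe41281c444a2c1ca2e4182814641a81ce2e41281c2444a2c1c2ae4,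
    0x1dc1211dc181a59c181d1c14161dc12159c181ce2, 0,
    0x111888c8325114811e846488c1911b2481251148861111581111928848c8d2d4aa], [0,
    0x441a2c1c1226c1881c1226c1881c12e4, 0x12c241221c141221c1812e8,
    0x22c241221c241212c2812291416e8, 0x1122282834221928422192842cc], [0,
    0x22c284444c88886acec6164442ece88a8cc21a6424c2ece8888cc2146, 0, 0,
    0x11424518884141968888c944848888aa4f1141a2112288549d8e2d461141a8112888549d8e2d48a], [0,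
    0x24c2ec6812886aca64a4cc51219c14c21ce821e44882c88cc1289, 0,
    0x22c281222c2812225248229281ce4, 0x512c82324c592224c512828283423]]

noncomputable def n3354 : Ent := ⟨e3354, noF, [], [], [(9, 14, [7334790875878422277917280412776772662961875900559637987928627383189505, 0]), (10, 17, [6903326391201334775872065844685381424292761054348340378595029943418881, 0])]⟩

def c3354 : PLift (Cov.check n3354.C.D v3354 = true) := ⟨by decide +kernel⟩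

def b3354 : PLift (entF (fidx ts) 400 3354 n3354 = true) := ⟨by decide +kernel⟩

theorem g3354 : GoodF (fidx ts) 400 3354 := GoodF.ofV v3354 n3354 c3354.down b3354.down

/-- 46744684:2553 -/
noncomputable def e3355 : SCfg where
  D := {
    a := 8
    L := 11
    kp := 8
    inn := [(0, 1), (0, 2), (0, 5), (1, 0), (1, 5), (2, 0), (2, 3), (2, 4), (2, 5), (2, 6), (3, 2), (3,
      6), (4, 2), (4, 6), (5, 0), (5, 1), (5, 2), (6, 2), (6, 3), (6, 4), (6, 7), (7, 6)]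
    mix := [(0, 0), (1, 0), (1, 1), (1, 2), (1, 3), (2, 0), (2, 4), (3, 4), (3, 5), (4, 0), (4, 6), (5,
      3), (5, 4), (5, 7), (6, 5), (6, 6), (6, 8), (6, 9), (7, 5), (7, 8), (7, 10)]
    cl := [0, 5, 6, 0, 3, 1, 2, 7, 4, 1, 8]
    chq := [(0, 3), (2, 3), (3, 0), (3, 2)]
    rng := [(0, 1), (0, 6), (1, 0), (1, 2), (2, 1), (2, 3), (3, 2), (3, 7), (4, 5), (4, 7), (5, 4), (5,
      10), (6, 0), (6, 9), (7, 3), (7, 4), (8, 9), (8, 10), (9, 6), (9, 8), (10, 5), (10, 8)]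
    lev := [] }
  links := [[1, 5, 2, 8], [5, 0, 8, 9, 10, 11], [8, 0, 5, 12, 3, 6, 4], [6, 2, 12, 13], [8, 2, 6, 14],
    [12, 2, 0, 1, 11, 15], [14, 4, 2, 3, 13, 7, 16, 17], [16, 6, 13, 18]]
  P := {
    a := 8
    N := 19
    nb := [294, 3873, 4473, 12356, 16708, 38919, 221340, 335936, 16919, 1282, 2562, 33826, 41004,
      266440, 131408, 6176, 393408, 81984, 73856]
    tri := [(0, 1, 5), (0, 1, 8), (0, 2, 5), (0, 2, 8), (1, 5, 11), (1, 8, 9), (1, 9, 10), (1, 10, 11),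
      (2, 3, 6), (2, 3, 12), (2, 4, 6), (2, 4, 8), (2, 5, 12), (3, 6, 13), (3, 12, 13), (4, 6,
      14), (4, 8, 14), (5, 11, 15), (5, 12, 15), (6, 7, 13), (6, 7, 16), (6, 14, 17), (6, 16, 17),
      (7, 13, 18), (7, 16, 18)]
    fin := [0, 0, 2, 2, 2, 0, 6, 6, 0, 9, 10, 0, 2, 6, 14, 15, 16, 6, 18]
    chd := [(0, 2), (2, 14)]
    steps := [(0, 1), (0, 5), (0, 8), (0, 11), (2, 3), (2, 4), (2, 12), (6, 7), (6, 13), (6, 17)] }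
  rep := [0, 6, 14, 2, 16, 9, 10, 15, 18]

noncomputable def v3355 : Cov.CovD where
  P := 3
  N := 6
  pl := [1, 2, 7, 8, 10]
  lev := [⟨[], [], [], [], [(0, 0, [3])]⟩,
    ⟨[], [(0, 0)], [(0, 0)], [5, 6], [(0, 0, [3]), (3, 0, [3])]⟩,
    ⟨[(0, 1)], [(0, 0), (0, 3), (1, 0)], [(0, 3)], [], [(0, 0, [3]), (4, 3, [0, 2])]⟩,
    ⟨[(0, 2)], [(2, 0), (2, 1), (2, 3)], [(1, 3)], [], [(4, 3, [0, 2]), (5, 1, [])]⟩,
    ⟨[(0, 2), (2, 3)], [(0, 0), (1, 0), (2, 0), (2, 2), (2, 3)], [(0, 2)], [], [(0, 0,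
      [3]), (6, 2, [3])]⟩,
    ⟨[(0, 1), (0, 2), (1, 2), (2, 3), (2, 4)], [(0, 0), (0, 3), (1, 0), (1, 3), (2, 0), (2,
      3), (3, 3)], [(0, 3)], [7], [(3, 0, [3]), (4, 3, [0, 2])]⟩,
    ⟨[(0, 2), (2, 3), (2, 4), (2, 5), (3, 4)], [(2, 0), (2, 1), (2, 2), (2, 3), (3, 1), (3,
      2), (3, 3), (4, 0), (4, 1), (4, 2)], [(1, 1), (1, 2)], [4], [(5, 1, []), (6, 2, [3]),
      (9, 1, [])]⟩,
    ⟨[(2, 6), (3, 6), (4, 6)], [(3, 1), (6, 1), (6, 2)], [], [4, 8], [(5, 1, [])]⟩]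
  Ta := [((0, 1), 0, 5), ((0, 6), 0, 2), ((3, 2), 0, 6), ((3, 7), 0, 7), ((5, 4), 1, 3), ((5,
    10), 1, 8), ((9, 6), 1, 2), ((9, 8), 1, 4)]
  Tb := [((0, 1, 6), 0, 5, 2), ((1, 0, 2), 5, 0, 6), ((2, 1, 3), 6, 5, 0), ((3, 2, 7), 0, 6, 7),
    ((4, 5, 7), 3, 1, 7), ((5, 4, 10), 1, 3, 8), ((6, 0, 9), 2, 0, 1), ((7, 3, 4), 7, 0, 3),
    ((8, 9, 10), 4, 1, 8), ((9, 6, 8), 1, 2, 4), ((10, 5, 8), 8, 1, 4)]
  Tc := [(3, 0, 2)]
  Td := [((0, 3), (0, 1), 5), ((0, 3), (0, 6), 2), ((0, 3), (3, 2), 6), ((0, 3), (3, 7), 7), ((2,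
    3), (6, 0), 0), ((2, 3), (6, 9), 1), ((3, 0), (4, 5), 1), ((3, 0), (4, 7), 7), ((3, 2),
    (4, 5), 1), ((3, 2), (4, 7), 7)]
  G := [[0, 0x641281c8814441a2c1ce24418241a81c641a81ce26418a814641a81ce2e4,
    0x541219812195c121e95c1212a4418191c12144191c1c1e54121814988124c66, 0,
    0x51113888c8c49725459428641119888c8c49b2945911684651c59c59b24d14d4216e8], [0,
    0x26c1881c12641a81c12641a81c12e8, 0xa3c141292c141225c1812e4,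
    0x22c22c229b41222c22c225b81222c22c22cd412e4,
    0x212168782c8215a922592592597842c5951a2282e93834e8], [0,
    0x648864646a8a8a8eca126c6444e88a8a2cec21626c26c26ce888888ec218c, 0, 0,
    0xc49c49621112514a465142451888512c594ac8215c8c8c24f4595111e2112288c8c49e2d514846e5111c2c882948a],
    [0, 0xa1ca1ca1ce42139c16c16ce821a16c4a1c1bcac2146, 0,
    0x2254822922ca852422c22c22ce412225229a41229284229484ea9,
    0x216a9687294852259259639e842c292245182a694256e1]]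

noncomputable def n3355 : Ent := ⟨e3355, noF, [], [], [(9, 18, [30043303427623734937691929578474300150491519007939870628445900451934703617, 0]), (9, 14, [31810581956886796354777272293785310057557672019661700884176840250667126785, 0]), (10, 18, [30043303427623734937691929578474300150491519007939870628445900451934724097, 0]), (10, 16, [31810581851548793677511941751458610980409781099126250235727204310991335425, 0]), (10, 17, [31810150492402119267275227079217218666319002904815489586567506653227356161, 0]), (15, 18, [30043303427623734937691929578474300150491519007939870628445900451934740481, 0])]⟩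

def c3355 : PLift (Cov.check n3355.C.D v3355 = true) := ⟨by decide +kernel⟩

def b3355 : PLift (entF (fidx ts) 400 3355 n3355 = true) := ⟨by decide +kernel⟩

theorem g3355 : GoodF (fidx ts) 400 3355 := GoodF.ofV v3355 n3355 c3355.down b3355.down

/-- 48466484:2557/1 -/
noncomputable def e3356 : SCfg where
  D := {
    a := 8
    L := 10
    kp := 8
    inn := [(0, 1), (0, 3), (0, 4), (0, 6), (1, 0), (1, 2), (1, 4), (1, 5), (1, 6), (2, 1), (3, 0), (3,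
      4), (3, 6), (4, 0), (4, 1), (4, 3), (5, 1), (5, 6), (6, 0), (6, 1), (6, 3), (6, 5), (6, 7),
      (7, 6)]
    mix := [(1, 0), (1, 1), (1, 2), (2, 0), (2, 1), (2, 3), (3, 4), (3, 5), (3, 6), (4, 0), (4, 6), (4,
      7), (5, 2), (5, 8), (6, 4), (6, 8), (6, 9), (7, 3), (7, 8), (7, 9)]
    cl := [3, 5, 1, 2, 0, 8, 4, 7, 0, 6]
    chq := [(0, 4), (1, 2), (1, 3), (1, 4), (1, 7), (2, 1), (3, 1), (4, 0), (4, 1), (7, 1)]
    rng := [(0, 3), (0, 7), (1, 2), (1, 3), (2, 1), (2, 8), (3, 0), (3, 1), (3, 8), (3, 9), (4, 5), (4,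
      9), (5, 4), (5, 6), (6, 5), (6, 7), (7, 0), (7, 6), (8, 2), (8, 3), (9, 3), (9, 4)]
    lev := [] }
  links := [[1, 6, 3, 4], [6, 0, 4, 8, 2, 9, 10, 5], [9, 1, 8, 11], [4, 0, 6, 12, 13, 14], [8, 1, 0, 3,
    14, 15], [6, 1, 10, 16], [12, 3, 0, 1, 5, 16, 7, 17], [17, 6, 16, 11]]
  P := {
    a := 8
    N := 18
    nb := [90, 1909, 2818, 28753, 49419, 66626, 200875, 198720, 34838, 3078, 66082, 197508, 139336,
      20488, 40984, 16656, 3296, 6336]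
    tri := [(0, 1, 4), (0, 1, 6), (0, 3, 4), (0, 3, 6), (1, 2, 8), (1, 2, 9), (1, 4, 8), (1, 5, 6), (1,
      5, 10), (1, 9, 10), (2, 8, 11), (2, 9, 11), (3, 4, 14), (3, 6, 12), (3, 12, 13), (3, 13,
      14), (4, 8, 15), (4, 14, 15), (5, 6, 16), (5, 10, 16), (6, 7, 16), (6, 7, 17), (6, 12, 17),
      (7, 11, 16), (7, 11, 17)]
    fin := [0, 0, 2, 3, 0, 0, 3, 2, 8, 9, 0, 2, 3, 13, 14, 15, 3, 17]
    chd := [(0, 2), (0, 14), (0, 15), (3, 14), (8, 0)]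
    steps := [(0, 1), (0, 4), (0, 5), (0, 10), (2, 11), (2, 7), (3, 6), (3, 16), (3, 12)] }
  rep := [3, 0, 2, 8, 14, 9, 17, 15, 13]

noncomputable def v3356 : Cov.CovD where
  P := 3
  N := 6
  pl := [1, 5, 9]
  lev := [⟨[], [], [], [], []⟩,
    ⟨[], [(0, 1), (0, 3)], [(1, 3)], [5], [(0, 3, [1]), (2, 1, [2, 3, 4, 7])]⟩,
    ⟨[(0, 1)], [(1, 1), (1, 2), (1, 3)], [(2, 3)], [5], [(0, 3, [1]), (3, 2, [1])]⟩,
    ⟨[(0, 1)], [(0, 0), (0, 4)], [(0, 4)], [8], [(4, 0, [4]), (6, 4, [0, 1])]⟩,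
    ⟨[(0, 1), (0, 3), (1, 2), (1, 3)], [(0, 3), (0, 4), (0, 7), (1, 1), (1, 3), (1, 4), (1,
      7), (2, 3), (3, 0), (3, 3), (3, 4), (3, 7)], [(3, 4), (3, 7), (4, 7)], [], [(0, 3,
      [1]), (6, 4, [0, 1]), (7, 7, [1])]⟩,
    ⟨[(0, 1), (1, 2), (1, 4)], [(1, 0), (1, 1), (1, 3)], [(0, 1)], [], [(2, 1, [2, 3, 4,
      7]), (8, 0, [4])]⟩,
    ⟨[(0, 1), (0, 3), (0, 4), (0, 5), (1, 2), (1, 3), (1, 4), (1, 5), (3, 4), (3, 5)], [(0,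
      0), (1, 0), (1, 1), (1, 3), (3, 0), (3, 4), (5, 0), (5, 1)], [(0, 0)], [6], [(4, 0,
      [4]), (8, 0, [4])]⟩,
    ⟨[(0, 6), (1, 6), (3, 6), (5, 6)], [(2, 2), (5, 0), (6, 0), (6, 2)], [(0, 2)], [6],
      [(3, 2, [1]), (8, 0, [4])]⟩]
  Ta := [((4, 5), 0, 8), ((4, 9), 0, 6), ((8, 2), 0, 1), ((8, 3), 0, 2)]
  Tb := [((0, 3, 7), 3, 2, 7), ((1, 2, 3), 5, 1, 2), ((2, 1, 8), 1, 5, 0), ((3, 0, 1), 2, 3, 5),
    ((3, 0, 8), 2, 3, 0), ((3, 0, 9), 2, 3, 6), ((3, 1, 8), 2, 5, 0), ((3, 1, 9), 2, 5, 6),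
    ((3, 8, 9), 2, 0, 6), ((4, 5, 9), 0, 8, 6), ((5, 4, 6), 8, 0, 4), ((6, 5, 7), 4, 8, 7),
    ((7, 0, 6), 7, 3, 4), ((8, 2, 3), 0, 1, 2), ((9, 3, 4), 6, 2, 0)]
  Tc := [(1, 2, 3), (1, 2, 4), (1, 2, 7), (1, 3, 4), (1, 3, 7), (1, 4, 7), (4, 0, 1)]
  Td := [((0, 4), (4, 5), 8), ((0, 4), (4, 9), 6), ((0, 4), (8, 2), 1), ((0, 4), (8, 3), 2), ((1,
    2), (2, 1), 5), ((1, 2), (2, 8), 0), ((1, 3), (2, 1), 5), ((1, 3), (2, 8), 0), ((1, 4),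
    (2, 1), 5), ((1, 4), (2, 8), 0), ((1, 7), (2, 1), 5), ((1, 7), (2, 8), 0), ((2, 1), (3,
    0), 3), ((2, 1), (3, 1), 5), ((2, 1), (3, 8), 0), ((2, 1), (3, 9), 6), ((3, 1), (0, 3),
    2), ((3, 1), (0, 7), 7), ((4, 0), (6, 5), 8), ((4, 0), (6, 7), 7), ((4, 1), (6, 5), 8),
    ((4, 1), (6, 7), 7), ((7, 1), (7, 0), 3), ((7, 1), (7, 6), 4)]
  G := [[0, 0, 0, 0x9242524214c22e29242428862881462e25242524281c22e2d1,
    0x94812126421268212c42e318261282612342944a417ea4282a184221268282a1281a41288982c11868feac9],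
    [0, 0xc221c221c241e8c221c281c281e44868184a4184c21e1e1, 0x486821426821426821e18,
    0x124242412421242c242d81282c2829212821282c282d2dc,
    0x848211868211a4282682da422122242584821a8268281a4282682d198264284228442e88d]]

noncomputable def n3356 : Ent := ⟨e3356, noF, [], [], []⟩

def c3356 : PLift (Cov.check n3356.C.D v3356 = true) := ⟨by decide +kernel⟩

def b3356 : PLift (entF (fidx ts) 400 3356 n3356 = true) := ⟨by decide +kernel⟩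

theorem g3356 : GoodF (fidx ts) 400 3356 := GoodF.ofV v3356 n3356 c3356.down b3356.down

/-- 48466484:2557/2 -/
noncomputable def e3357 : SCfg where
  D := {
    a := 8
    L := 10
    kp := 7
    inn := [(0, 1), (0, 3), (0, 4), (0, 6), (1, 0), (1, 2), (1, 4), (1, 5), (1, 6), (2, 1), (3, 0), (3,
      4), (3, 6), (4, 0), (4, 1), (4, 3), (5, 1), (5, 6), (6, 0), (6, 1), (6, 3), (6, 5), (6, 7),
      (7, 6)]
    mix := [(1, 0), (1, 1), (1, 2), (2, 0), (2, 1), (2, 3), (3, 4), (3, 5), (3, 6), (4, 0), (4, 6), (4,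
      7), (5, 2), (5, 8), (6, 4), (6, 8), (6, 9), (7, 7), (7, 8), (7, 9)]
    cl := [0, 2, 0, 6, 1, 7, 3, 4, 1, 5]
    chq := [(0, 3), (1, 3), (3, 0), (3, 1)]
    rng := [(0, 3), (0, 7), (1, 2), (1, 3), (2, 1), (2, 8), (3, 0), (3, 1), (4, 5), (4, 9), (5, 4), (5,
      6), (6, 5), (6, 7), (7, 0), (7, 6), (7, 8), (7, 9), (8, 2), (8, 7), (9, 4), (9, 7)]
    lev := [] }
  links := [[1, 6, 3, 4], [6, 0, 4, 8, 2, 9, 10, 5], [9, 1, 8, 11], [4, 0, 6, 12, 13, 14], [8, 1, 0, 3,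
    14, 15], [6, 1, 10, 16], [12, 3, 0, 1, 5, 16, 7, 17], [17, 6, 16, 15]]
  P := {
    a := 8
    N := 18
    nb := [90, 1909, 2818, 28753, 49419, 66626, 200875, 229440, 34838, 3078, 66082, 772, 139336,
      20488, 40984, 213392, 34016, 37056]
    tri := [(0, 1, 4), (0, 1, 6), (0, 3, 4), (0, 3, 6), (1, 2, 8), (1, 2, 9), (1, 4, 8), (1, 5, 6), (1,
      5, 10), (1, 9, 10), (2, 8, 11), (2, 9, 11), (3, 4, 14), (3, 6, 12), (3, 12, 13), (3, 13,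
      14), (4, 8, 15), (4, 14, 15), (5, 6, 16), (5, 10, 16), (6, 7, 16), (6, 7, 17), (6, 12, 17),
      (7, 15, 16), (7, 15, 17)]
    fin := [0, 0, 0, 3, 0, 0, 3, 3, 0, 9, 0, 11, 3, 13, 14, 15, 3, 17]
    chd := [(0, 14), (3, 14)]
    steps := [(0, 1), (0, 2), (0, 4), (0, 5), (0, 8), (0, 10), (3, 6), (3, 7), (3, 16), (3, 12)] }
  rep := [0, 3, 9, 14, 15, 17, 11, 13]

noncomputable def v3357 : Cov.CovD where
  P := 3
  N := 5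
  pl := [1, 3, 5, 7, 9]
  lev := [⟨[], [], [], [], []⟩,
    ⟨[], [(0, 0)], [(0, 0)], [2], [(0, 0, [3]), (2, 0, [3])]⟩,
    ⟨[(0, 1)], [(1, 0)], [], [2, 6], [(0, 0, [3])]⟩,
    ⟨[(0, 1)], [(0, 1), (0, 3)], [(1, 3)], [7], [(4, 1, [3]), (6, 3, [0, 1])]⟩,
    ⟨[(0, 1), (0, 3), (1, 2), (1, 3)], [(0, 0), (0, 3), (1, 0), (1, 3), (2, 0), (3, 0), (3,
      1), (3, 3)], [(0, 3)], [4], [(0, 0, [3]), (6, 3, [0, 1])]⟩,
    ⟨[(0, 1), (1, 2), (1, 4)], [(1, 0), (1, 1)], [(0, 1)], [], [(2, 0, [3]), (8, 1, [3])]⟩,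
    ⟨[(0, 1), (0, 3), (0, 4), (0, 5), (1, 2), (1, 3), (1, 4), (1, 5), (3, 4), (3, 5)], [(0,
      1), (1, 0), (1, 1), (3, 1), (3, 3), (5, 0), (5, 1)], [(1, 1)], [5], [(4, 1, [3]), (8,
      1, [3])]⟩,
    ⟨[(0, 6), (1, 6), (3, 6), (5, 6)], [(5, 1), (6, 1)], [], [4, 5], [(8, 1, [3])]⟩]
  Ta := [((0, 3), 0, 6), ((0, 7), 0, 4), ((2, 1), 0, 2), ((2, 8), 0, 1), ((4, 5), 1, 7), ((4, 9),
    1, 5), ((8, 2), 1, 0), ((8, 7), 1, 4)]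
  Tb := [((0, 3, 7), 0, 6, 4), ((1, 2, 3), 2, 0, 6), ((2, 1, 8), 0, 2, 1), ((3, 0, 1), 6, 0, 2),
    ((4, 5, 9), 1, 7, 5), ((5, 4, 6), 7, 1, 3), ((6, 5, 7), 3, 7, 4), ((7, 0, 6), 4, 0, 3),
    ((7, 0, 8), 4, 0, 1), ((7, 0, 9), 4, 0, 5), ((7, 6, 8), 4, 3, 1), ((7, 6, 9), 4, 3, 5),
    ((7, 8, 9), 4, 1, 5), ((8, 2, 7), 1, 0, 4), ((9, 4, 7), 5, 1, 4)]
  Tc := [(3, 0, 1)]
  Td := [((0, 3), (0, 3), 6), ((0, 3), (0, 7), 4), ((0, 3), (2, 1), 2), ((0, 3), (2, 8), 1), ((1,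
    3), (4, 5), 7), ((1, 3), (4, 9), 5), ((1, 3), (8, 2), 0), ((1, 3), (8, 7), 4), ((3, 0),
    (6, 5), 7), ((3, 0), (6, 7), 4), ((3, 1), (6, 5), 7), ((3, 1), (6, 7), 4)]
  G := [[0, 0, 0, 0x295826a9421452832d451283261a89298c21c8a24845,
    0x9124525122a13452d2491c23a94236942da281248a4], [0, 0, 0,
    0x114281d4525411425182c118218129cc448281c4514c1ca448428842849441589cd3c12f88124cc9,
    0x91845281445462811423142c31828a8216452d412944125bc429a881281c15494c9812784c182aad], [0,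
    0, 0x325421114246215812194112c42d215812841caa8, 0x215821128c2281462d148,
    0x2411a2219421428c2d184], [0, 0x48628ae428a6114282ca811c2,
    0x2154121941481d41e22941421581c1581ae28,
    0x9441241148c1211828411c118c9458c2b9c4842c842c149,
    0xc158128281548c122194243881c414c8c112e]]

noncomputable def n3357 : Ent := ⟨e3357, noF, [], [], []⟩

def c3357 : PLift (Cov.check n3357.C.D v3357 = true) := ⟨by decide +kernel⟩

def b3357 : PLift (entF (fidx ts) 400 3357 n3357 = true) := ⟨by decide +kernel⟩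

theorem g3357 : GoodF (fidx ts) 400 3357 := GoodF.ofV v3357 n3357 c3357.down b3357.down

/-- 48466484:2557 -/
noncomputable def e3358 : SCfg where
  D := {
    a := 8
    L := 11
    kp := 9
    inn := [(0, 1), (0, 3), (0, 4), (0, 6), (1, 0), (1, 2), (1, 4), (1, 5), (1, 6), (2, 1), (3, 0), (3,
      4), (3, 6), (4, 0), (4, 1), (4, 3), (5, 1), (5, 6), (6, 0), (6, 1), (6, 3), (6, 5), (6, 7),
      (7, 6)]
    mix := [(1, 0), (1, 1), (1, 2), (2, 0), (2, 1), (2, 3), (3, 4), (3, 5), (3, 6), (4, 0), (4, 6), (4,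
      7), (5, 2), (5, 8), (6, 4), (6, 8), (6, 9), (7, 8), (7, 9), (7, 10)]
    cl := [0, 2, 1, 6, 3, 8, 4, 7, 3, 5, 9]
    chq := [(0, 1), (1, 0), (1, 4), (1, 6), (1, 7), (3, 4), (4, 1), (4, 3), (6, 1), (7, 1)]
    rng := [(0, 3), (0, 7), (1, 2), (1, 3), (2, 1), (2, 8), (3, 0), (3, 1), (4, 5), (4, 9), (5, 4), (5,
      6), (6, 5), (6, 7), (7, 0), (7, 6), (8, 2), (8, 10), (9, 4), (9, 10), (10, 8), (10, 9)]
    lev := [] }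
  links := [[1, 6, 3, 4], [6, 0, 4, 8, 2, 9, 10, 5], [9, 1, 8, 11], [4, 0, 6, 12, 13, 14], [8, 1, 0, 3,
    14, 15], [6, 1, 10, 16], [12, 3, 0, 1, 5, 16, 7, 17], [17, 6, 16, 18]]
  P := {
    a := 8
    N := 19
    nb := [90, 1909, 2818, 28753, 49419, 66626, 200875, 458816, 34838, 3078, 66082, 772, 139336,
      20488, 40984, 16656, 263392, 266432, 196736]
    tri := [(0, 1, 4), (0, 1, 6), (0, 3, 4), (0, 3, 6), (1, 2, 8), (1, 2, 9), (1, 4, 8), (1, 5, 6), (1,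
      5, 10), (1, 9, 10), (2, 8, 11), (2, 9, 11), (3, 4, 14), (3, 6, 12), (3, 12, 13), (3, 13,
      14), (4, 8, 15), (4, 14, 15), (5, 6, 16), (5, 10, 16), (6, 7, 16), (6, 7, 17), (6, 12, 17),
      (7, 16, 18), (7, 17, 18)]
    fin := [0, 0, 2, 3, 0, 0, 3, 3, 8, 9, 0, 2, 3, 13, 14, 15, 3, 17, 18]
    chd := [(0, 2), (0, 14), (0, 15), (3, 14), (8, 0)]
    steps := [(0, 1), (0, 4), (0, 5), (0, 10), (2, 11), (3, 6), (3, 7), (3, 16), (3, 12)] }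
  rep := [8, 0, 9, 3, 14, 17, 2, 15, 13, 18]

noncomputable def v3358 : Cov.CovD where
  P := 3
  N := 7
  pl := [1, 5, 9, 10]
  lev := [⟨[], [], [], [], []⟩,
    ⟨[], [(0, 0), (0, 1)], [(0, 1)], [2], [(0, 0, [1]), (2, 1, [0, 4, 6, 7])]⟩,
    ⟨[(0, 1)], [(1, 0), (1, 1), (1, 6)], [(0, 6)], [2], [(0, 0, [1]), (3, 6, [1])]⟩,
    ⟨[(0, 1)], [(0, 3), (0, 4)], [(3, 4)], [8], [(4, 3, [4]), (6, 4, [1, 3])]⟩,
    ⟨[(0, 1), (0, 3), (1, 2), (1, 3)], [(0, 0), (0, 4), (0, 7), (1, 0), (1, 1), (1, 4), (1,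
      7), (2, 0), (3, 0), (3, 3), (3, 4), (3, 7)], [(0, 4), (0, 7), (4, 7)], [], [(0, 0,
      [1]), (6, 4, [1, 3]), (7, 7, [1])]⟩,
    ⟨[(0, 1), (1, 2), (1, 4)], [(1, 0), (1, 1), (1, 3)], [(1, 3)], [], [(2, 1, [0, 4, 6,
      7]), (8, 3, [4])]⟩,
    ⟨[(0, 1), (0, 3), (0, 4), (0, 5), (1, 2), (1, 3), (1, 4), (1, 5), (3, 4), (3, 5)], [(0,
      3), (1, 0), (1, 1), (1, 3), (3, 3), (3, 4), (5, 1), (5, 3)], [(3, 3)], [5], [(4, 3,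
      [4]), (8, 3, [4])]⟩,
    ⟨[(0, 6), (1, 6), (3, 6), (5, 6)], [(5, 3), (6, 3)], [], [5, 9], [(8, 3, [4])]⟩]
  Ta := [((4, 5), 3, 8), ((4, 9), 3, 5), ((8, 2), 3, 1), ((8, 10), 3, 9)]
  Tb := [((0, 3, 7), 0, 6, 7), ((1, 2, 3), 2, 1, 6), ((2, 1, 8), 1, 2, 3), ((3, 0, 1), 6, 0, 2),
    ((4, 5, 9), 3, 8, 5), ((5, 4, 6), 8, 3, 4), ((6, 5, 7), 4, 8, 7), ((7, 0, 6), 7, 0, 4),
    ((8, 2, 10), 3, 1, 9), ((9, 4, 10), 5, 3, 9), ((10, 8, 9), 9, 3, 5)]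
  Tc := [(1, 0, 4), (1, 0, 6), (1, 0, 7), (1, 4, 6), (1, 4, 7), (1, 6, 7), (4, 1, 3)]
  Td := [((0, 1), (0, 3), 6), ((0, 1), (0, 7), 7), ((1, 0), (2, 1), 2), ((1, 0), (2, 8), 3), ((1,
    4), (2, 1), 2), ((1, 4), (2, 8), 3), ((1, 6), (2, 1), 2), ((1, 6), (2, 8), 3), ((1, 7),
    (2, 1), 2), ((1, 7), (2, 8), 3), ((3, 4), (4, 5), 8), ((3, 4), (4, 9), 5), ((3, 4), (8,
    2), 1), ((3, 4), (8, 10), 9), ((4, 1), (6, 5), 8), ((4, 1), (6, 7), 7), ((4, 3), (6, 5),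
    8), ((4, 3), (6, 7), 7), ((6, 1), (3, 0), 0), ((6, 1), (3, 1), 2), ((7, 1), (7, 0), 0),
    ((7, 1), (7, 6), 4)]
  G := [[0, 0x8952431484212c3168915acd21a516831259829143921e649985a6181c8abc1aac3e1dc2,
    0x1a47821868352d8314639a41514184acdde1b8b42f284,
    0x93542814234884128412c43248c92c68b42516d8184d2483e12f32489213a82a81246a82fcc9,
    0x411a6c213a84529d64146ca34119ad48de483e12f281], [0,
    0x912a631b1c45164ed38148c516251845126a3151c891ac832c81a19cc,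
    0x6d382424a93429455e8bc292884449288648c2c28d,
    0xed382184895284874aac2778312b43825c431e4528855424484c29c84ea12d812c44b,
    0x9e874212891424158c2928ca6128b87484b11cd2c28d]]

noncomputable def n3358 : Ent := ⟨e3358, noF, [], [], [(11, 18, [30043303427623734937691929578474300150491519007939870628445900451934748673, 0]), (18, 15, [30043303743560609943363489672228383201502815964625156830093234214867685377, 0])]⟩

def c3358 : PLift (Cov.check n3358.C.D v3358 = true) := ⟨by decide +kernel⟩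

def b3358 : PLift (entF (fidx ts) 400 3358 n3358 = true) := ⟨by decide +kernel⟩

theorem g3358 : GoodF (fidx ts) 400 3358 := GoodF.ofV v3358 n3358 c3358.down b3358.down

/-- 48458446:2558/1 -/
noncomputable def e3359 : SCfg where
  D := {
    a := 8
    L := 10
    kp := 7
    inn := [(0, 1), (0, 3), (0, 7), (1, 0), (1, 2), (1, 3), (1, 4), (1, 6), (1, 7), (2, 1), (2, 4), (3,
      0), (3, 1), (3, 4), (4, 1), (4, 2), (4, 3), (4, 5), (5, 4), (6, 1), (7, 0), (7, 1)]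
    mix := [(0, 0), (1, 1), (1, 2), (2, 1), (2, 3), (3, 0), (3, 4), (4, 3), (4, 4), (4, 5), (4, 6), (5,
      3), (5, 6), (5, 7), (6, 1), (6, 2), (6, 7), (7, 0), (7, 2), (7, 8), (7, 9)]
    cl := [3, 1, 3, 0, 0, 5, 4, 2, 6, 7]
    chq := [(0, 4), (1, 3), (3, 1), (4, 0)]
    rng := [(0, 4), (0, 9), (1, 3), (1, 7), (2, 7), (2, 8), (3, 1), (3, 7), (4, 0), (4, 5), (5, 4), (5,
      6), (6, 5), (6, 7), (7, 1), (7, 2), (7, 3), (7, 6), (8, 2), (8, 9), (9, 0), (9, 8)]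
    lev := [] }
  links := [[1, 7, 8, 3], [7, 0, 3, 4, 2, 9, 6, 10], [9, 1, 4, 11], [4, 1, 0, 8, 12], [11, 2, 1, 3, 12,
    13, 14, 5], [11, 4, 14, 15], [10, 1, 9, 15], [8, 0, 1, 10, 16, 17]]
  P := {
    a := 8
    N := 18
    nb := [394, 1757, 2578, 4371, 30766, 51216, 34306, 197891, 135305, 34886, 98498, 33332, 8472,
      20496, 41008, 20064, 132224, 65920]
    tri := [(0, 1, 3), (0, 1, 7), (0, 3, 8), (0, 7, 8), (1, 2, 4), (1, 2, 9), (1, 3, 4), (1, 6, 9), (1,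
      6, 10), (1, 7, 10), (2, 4, 11), (2, 9, 11), (3, 4, 12), (3, 8, 12), (4, 5, 11), (4, 5, 14),
      (4, 12, 13), (4, 13, 14), (5, 11, 15), (5, 14, 15), (6, 9, 15), (6, 10, 15), (7, 8, 17), (7,
      10, 16), (7, 16, 17)]
    fin := [0, 0, 0, 0, 4, 4, 0, 0, 0, 9, 0, 4, 4, 13, 14, 15, 16, 17]
    chd := [(0, 9), (4, 14)]
    steps := [(0, 1), (0, 2), (0, 3), (0, 6), (0, 7), (0, 8), (0, 10), (4, 5), (4, 12), (4, 11)] }
  rep := [4, 9, 15, 0, 14, 13, 16, 17]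

noncomputable def v3359 : Cov.CovD where
  P := 3
  N := 5
  pl := [5, 7, 8, 9]
  lev := [⟨[], [], [], [], [(0, 3, [1])]⟩,
    ⟨[], [(0, 1), (0, 3)], [(1, 3)], [], [(1, 1, [3]), (2, 3, [1])]⟩,
    ⟨[(0, 1)], [(1, 0), (1, 1), (1, 3)], [(0, 1)], [], [(1, 1, [3]), (3, 0, [4])]⟩,
    ⟨[(0, 1), (1, 2)], [(0, 0), (0, 3), (1, 0), (1, 1), (1, 3)], [(0, 3)], [], [(0, 3,
      [1]), (4, 0, [4])]⟩,
    ⟨[(0, 1), (0, 3), (1, 2), (1, 3), (2, 3)], [(1, 0), (1, 1), (1, 3), (1, 4), (2, 0), (2,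
      1), (2, 4), (3, 0), (3, 3), (3, 4)], [(0, 0), (0, 4)], [5], [(3, 0, [4]), (4, 0, [4]),
      (6, 4, [0])]⟩,
    ⟨[(1, 4), (2, 4), (3, 4)], [(2, 0), (4, 0), (4, 4)], [(0, 4)], [2], [(3, 0, [4]), (6,
      4, [0])]⟩,
    ⟨[(0, 1), (1, 2), (1, 3), (1, 4)], [(1, 1), (1, 3), (2, 1)], [(1, 3)], [2], [(1, 1,
      [3]), (2, 3, [1])]⟩,
    ⟨[(0, 1), (0, 3), (1, 2), (1, 3), (1, 4), (1, 6)], [(0, 3), (1, 1), (1, 3), (3, 3), (6,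
      3)], [(3, 3)], [6, 7], [(0, 3, [1]), (2, 3, [1])]⟩]
  Ta := [((0, 4), 3, 0), ((0, 9), 3, 7), ((2, 7), 3, 2), ((2, 8), 3, 6), ((3, 1), 0, 1), ((3, 7),
    0, 2), ((4, 0), 0, 3), ((4, 5), 0, 5)]
  Tb := [((0, 4, 9), 3, 0, 7), ((1, 3, 7), 1, 0, 2), ((2, 7, 8), 3, 2, 6), ((3, 1, 7), 0, 1, 2),
    ((4, 0, 5), 0, 3, 5), ((5, 4, 6), 5, 0, 4), ((6, 5, 7), 4, 5, 2), ((7, 1, 2), 2, 1, 3),
    ((7, 1, 3), 2, 1, 0), ((7, 1, 6), 2, 1, 4), ((7, 2, 3), 2, 3, 0), ((7, 2, 6), 2, 3, 4),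
    ((7, 3, 6), 2, 0, 4), ((8, 2, 9), 6, 3, 7), ((9, 0, 8), 7, 3, 6)]
  Tc := []
  Td := [((0, 4), (3, 1), 1), ((0, 4), (3, 7), 2), ((0, 4), (4, 0), 3), ((0, 4), (4, 5), 5), ((1,
    3), (1, 3), 0), ((1, 3), (1, 7), 2), ((3, 1), (0, 4), 0), ((3, 1), (0, 9), 7), ((3, 1),
    (2, 7), 2), ((3, 1), (2, 8), 6), ((4, 0), (6, 5), 5), ((4, 0), (6, 7), 2)]
  G := [[0, 0xf44f4f4c612f88812c2, 0xf8f862828af82e18f4445844a852,
    0xf1f1c2189844298882c56844268882c13, 0xf8f8a441e98f82a4c12], [0,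
    0xd4442868c232b7c494c94cc61b7c881ca4bcb4c28d8882a45, 0xb7c4b7c268b7c884c12,
    0x11ed411edb7cc62952d882c18, 0x1131a5126811881c1e9b49a41e981a92ac452], [0, 0, 0,
    0xe88e41e81e241b41f1b19624b18821c5, 0xf8f83f81f82e4812], [0, 0, 0,
    0xb7c4916d162916d884c18, 0x11142118112a491e911e92681e9884c52]]

noncomputable def n3359 : Ent := ⟨e3359, noF, [], [], []⟩

def c3359 : PLift (Cov.check n3359.C.D v3359 = true) := ⟨by decide +kernel⟩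

def b3359 : PLift (entF (fidx ts) 400 3359 n3359 = true) := ⟨by decide +kernel⟩

theorem g3359 : GoodF (fidx ts) 400 3359 := GoodF.ofV v3359 n3359 c3359.down b3359.down

/-- 48458446:2558/2 -/
noncomputable def e3360 : SCfg where
  D := {
    a := 8
    L := 10
    kp := 7
    inn := [(0, 1), (0, 3), (0, 7), (1, 0), (1, 2), (1, 3), (1, 4), (1, 6), (1, 7), (2, 1), (2, 4), (3,
      0), (3, 1), (3, 4), (4, 1), (4, 2), (4, 3), (4, 5), (5, 4), (6, 1), (7, 0), (7, 1)]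
    mix := [(0, 0), (1, 1), (1, 2), (2, 1), (2, 3), (3, 0), (3, 4), (4, 3), (4, 4), (4, 5), (4, 6), (5,
      3), (5, 6), (5, 7), (6, 1), (6, 2), (6, 8), (7, 0), (7, 2), (7, 7), (7, 9)]
    cl := [0, 3, 0, 1, 1, 5, 4, 2, 6, 7]
    chq := [(0, 3), (2, 5), (3, 0), (5, 2)]
    rng := [(0, 4), (0, 9), (1, 3), (1, 8), (2, 7), (2, 8), (3, 1), (3, 7), (4, 0), (4, 5), (5, 4), (5,
      6), (6, 5), (6, 7), (7, 2), (7, 3), (7, 6), (7, 9), (8, 1), (8, 2), (9, 0), (9, 7)]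
    lev := [] }
  links := [[1, 7, 8, 3], [7, 0, 3, 4, 2, 9, 6, 10], [9, 1, 4, 11], [4, 1, 0, 8, 12], [11, 2, 1, 3, 12,
    13, 14, 5], [11, 4, 14, 15], [10, 1, 9, 16], [8, 0, 1, 10, 15, 17]]
  P := {
    a := 8
    N := 18
    nb := [394, 1757, 2578, 4371, 30766, 51216, 67074, 165123, 135305, 67654, 98498, 33332, 8472,
      20496, 41008, 150688, 1600, 33152]
    tri := [(0, 1, 3), (0, 1, 7), (0, 3, 8), (0, 7, 8), (1, 2, 4), (1, 2, 9), (1, 3, 4), (1, 6, 9), (1,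
      6, 10), (1, 7, 10), (2, 4, 11), (2, 9, 11), (3, 4, 12), (3, 8, 12), (4, 5, 11), (4, 5, 14),
      (4, 12, 13), (4, 13, 14), (5, 11, 15), (5, 14, 15), (6, 9, 16), (6, 10, 16), (7, 8, 17), (7,
      10, 15), (7, 15, 17)]
    fin := [0, 1, 1, 1, 4, 4, 0, 0, 0, 9, 0, 1, 1, 4, 14, 15, 16, 17]
    chd := [(0, 9), (4, 15)]
    steps := [(0, 7), (0, 8), (0, 10), (0, 6), (1, 2), (1, 3), (1, 12), (1, 11), (4, 5), (4, 13)] }
  rep := [0, 1, 15, 9, 14, 4, 16, 17]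

noncomputable def v3360 : Cov.CovD where
  P := 3
  N := 5
  pl := [6, 8, 9]
  lev := [⟨[], [], [], [], [(0, 0, [3])]⟩,
    ⟨[], [(0, 0), (0, 3)], [(0, 3)], [], [(1, 3, [0]), (2, 0, [3])]⟩,
    ⟨[(0, 1)], [(1, 0), (1, 1), (1, 3)], [(1, 3)], [], [(1, 3, [0]), (3, 1, [])]⟩,
    ⟨[(0, 1), (1, 2)], [(0, 0), (0, 1), (1, 0), (1, 1), (1, 3)], [(0, 1)], [], [(0, 0,
      [3]), (4, 1, [])]⟩,
    ⟨[(0, 1), (0, 3), (1, 2), (1, 3), (2, 3)], [(1, 0), (1, 1), (1, 3), (1, 5), (2, 1), (2,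
      3), (2, 5), (3, 0), (3, 1), (3, 5)], [(1, 1), (1, 5)], [4], [(3, 1, []), (4, 1, []),
      (5, 5, [2])]⟩,
    ⟨[(1, 4), (2, 4), (3, 4)], [(2, 1), (4, 1), (4, 2), (4, 5)], [(1, 2)], [4], [(3, 1,
      []), (7, 2, [5])]⟩,
    ⟨[(0, 1), (1, 2), (1, 3), (1, 4)], [(1, 0), (1, 3), (2, 3)], [(0, 3)], [6], [(1, 3,
      [0]), (2, 0, [3])]⟩,
    ⟨[(0, 1), (0, 3), (1, 2), (1, 3), (1, 4), (1, 6)], [(0, 0), (0, 2), (1, 0), (1, 2), (1,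
      3), (3, 0), (5, 2), (6, 0)], [(0, 0), (0, 2)], [7], [(0, 0, [3]), (2, 0, [3]), (7, 2,
      [5])]⟩]
  Ta := [((0, 4), 0, 1), ((0, 9), 0, 7), ((2, 7), 0, 2), ((2, 8), 0, 6), ((3, 1), 1, 3), ((3, 7),
    1, 2), ((4, 0), 1, 0), ((4, 5), 1, 5)]
  Tb := [((0, 4, 9), 0, 1, 7), ((1, 3, 8), 3, 1, 6), ((2, 7, 8), 0, 2, 6), ((3, 1, 7), 1, 3, 2),
    ((4, 0, 5), 1, 0, 5), ((5, 4, 6), 5, 1, 4), ((6, 5, 7), 4, 5, 2), ((7, 2, 3), 2, 0, 1),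
    ((7, 2, 6), 2, 0, 4), ((7, 2, 9), 2, 0, 7), ((7, 3, 6), 2, 1, 4), ((7, 3, 9), 2, 1, 7),
    ((7, 6, 9), 2, 4, 7), ((8, 1, 2), 6, 3, 0), ((9, 0, 7), 7, 0, 2)]
  Tc := []
  Td := [((0, 3), (0, 4), 1), ((0, 3), (0, 9), 7), ((0, 3), (2, 7), 2), ((0, 3), (2, 8), 6), ((2,
    5), (7, 2), 0), ((2, 5), (7, 3), 1), ((2, 5), (7, 6), 4), ((2, 5), (7, 9), 7), ((3, 0),
    (1, 3), 1), ((3, 0), (1, 8), 6), ((5, 2), (5, 4), 1), ((5, 2), (5, 6), 4)]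
  G := [[0, 0, 0, 0xc4c118411cc44d4c4e5ccc74c1c1cd88388c524,
    0x218481aa59a185a1aa388212a8e118aa91aaadaa99218d85e4], [0,
    0xc18c1c1c641811814a8414c141ca85c14c14c81e2, 0, 0, 0xaac118a28af2aac2827aa9ba12d8524],
    [0, 0, 0x66c6acc121cc6ac6c141a1, 0xcca114cc6118ccce44ccce88cd21,
    0x2212aae6a2e9228d21a2118aaae88aa82a9aac8d25a8a118a8a18ac8a8e9c89e1], [0, 0,
    0xa6ceacce614121, 0, 0x22223411a8a1148a222228941228a2194222483aa8e1a4aa8eaa42d81e9]]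

noncomputable def n3360 : Ent := ⟨e3360, noF, [], [], []⟩

def c3360 : PLift (Cov.check n3360.C.D v3360 = true) := ⟨by decide +kernel⟩

def b3360 : PLift (entF (fidx ts) 400 3360 n3360 = true) := ⟨by decide +kernel⟩

theorem g3360 : GoodF (fidx ts) 400 3360 := GoodF.ofV v3360 n3360 c3360.down b3360.down

/-- The entries 3234 to 3360. -/
theorem rE23 : Rng (GoodF (fidx ts) 400) 3234 3361 :=
  ((((((((((((((((((((((((((((((((((((((((((((((((((((((((((((((((((((((((((((((((((((((((((((((((((((((((((((((((((((((((((((((((Rng.nil _ 3234).snoc g3234 rfl).snoc g3235 rfl).snoc g3236 rfl).snoc g3237 rfl).snoc g3238 rfl).snoc g3239 rfl).snoc g3240 rfl).snoc g3241 rfl).snoc g3242 rfl).snoc g3243 rfl).snoc g3244 rfl).snoc g3245 rfl).snoc g3246 rfl).snoc g3247 rfl).snoc g3248 rfl).snoc g3249 rfl).snoc g3250 rfl).snoc g3251 rfl).snoc g3252 rfl).snoc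 g3253 rfl).snoc g3254 rfl).snoc g3255 rfl).snoc g3256 rfl).snoc g3257 rfl).snoc g3258 rfl).snoc g3259 rfl).snoc g3260 rfl).snoc g3261 rfl).snoc g3262 rfl).snoc g3263 rfl).snoc g3264 rfl).snoc g3265 rfl).snoc g3266 rfl).snoc g3267 rfl).snoc g3268 rfl).snoc g3269 rfl).snoc g3270 rfl).snoc g3271 rfl).snoc g3272 rfl).snoc g3273 rfl).snoc g3274 rfl).snoc g3275 rfl).snoc g3276 rfl).snoc g3277 rfl).snoc g3278 rfl).snoc g3279 rfl).snoc g3280 rfl).snoc g3281 rfl).snoc g3282 rfl).snoc g3283 rfl).snoc g3284 rfl).snoc g3285 rfl).snoc g3286 rfl).snoc g3287 rfl).snoc g3288 rfl).snoc g3289 rfl).snoc g3290 rfl).snoc g3291 rfl).snoc g3292 rfl).snoc g3293 rfl).snoc g3294 rfl).snoc g3295 rfl).snoc g3296 rfl).snoc g3297 rfl).snoc g3298 rfl).snoc g3299 rfl).snoc g3300 rfl).snoc g3301 rfl).snoc g3302 rfl).snoc g3303 rfl).snoc g3304 rfl).snoc g3305 rfl).snoc g3306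 rfl).snoc g3307 rfl).snoc g3308 rfl).snoc g3309 rfl).snoc g3310 rfl).snoc g3311 rfl).snoc g3312 rfl).snoc g3313 rfl).snoc g3314 rfl).snoc g3315 rfl).snoc g3316 rfl).snoc g3317 rfl).snoc g3318 rfl).snoc g3319 rfl).snoc g3320 rfl).snoc g3321 rfl).snoc g3322 rfl).snoc g3323 rfl).snoc g3324 rfl).snoc g3325 rfl).snoc g3326 rfl).snoc g3327 rfl).snoc g3328 rfl).snoc g3329 rfl).snoc g3330 rfl).snoc g3331 rfl).snoc g3332 rfl).snoc g3333 rfl).snoc g3334 rfl).snoc g3335 rfl).snoc g3336 rfl).snoc g3337 rfl).snoc g3338 rfl).snoc g3339 rfl).snoc g3340 rfl).snoc g3341 rfl).snoc g3342 rfl).snoc g3343 rfl).snoc g3344 rfl).snoc g3345 rfl).snoc g3346 rfl).snoc g3347 rfl).snoc g3348 rfl).snoc g3349 rfl).snoc g3350 rfl).snoc g3351 rfl).snoc g3352 rfl).snoc g3353 rfl).snoc g3354 rfl).snoc g3355 rfl).snoc g3356 rfl).snoc g3357 rfl).snoc g3358 rfl).snoc g3359 rfl).snoc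 g3360 rfl)

end Pool.Agent.W986.ST.Dat
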